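import Pool.Agent.Work.MP_b30479_gt.G2.AVal
import Pool.Agent.Work.MP_b30479_gt.LT.CoreG

/-!
# The exact formula: the invariant is a state sum
-/

namespace Pool.Agent.Work.MP_b30479_gt.G2

open Finset VOL AX MeasureTheory
open Pool.Agent.Work.MP_b30479_gt.LT
open DT (ee_ne ee_zero ee_neg ee_pow ee_int ee_half nn_ne)

section
variable {M : ℕ} (t : Fin (M + 1) → Typ) (b : Fin (M + 1) → ℤ) {s : ℕ}

/-- the point -/
noncomputable def zpt (y : DD t → Fin (2 * s + 1)) (ζ : ZZ t → ℂ) : DD t ⊕ ZZ t → ℂ :=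
  Sum.elim (fun i => (((y i : ℕ) : ℝ) / ((2 * s + 1 : ℕ) : ℝ) : ℝ)) ζ

/-- the hinge variables -/
def yh (y : DD t → Fin (2 * s + 1)) : Fin M → Fin (2 * s + 1) := fun h => y (.inl h)

variable (y : DD t → Fin (2 * s + 1)) (ζ : ZZ t → ℂ)

lemma xx_zpt0 (i : Fin (M + 1)) : xx t i (zpt t y ζ) 0 =
    ((Li (yh t y) i : ℕ) : ℂ) / ((2 * s + 1 : ℕ) : ℂ) := by
  refine Fin.cases ?_ (fun h => ?_) i
  · rw [xx_left_zero]
    simp [Li]
  · rw [xx_left]
    simp [Li, zpt, yh]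

lemma xx_zpt2 (i : Fin (M + 1)) : xx t i (zpt t y ζ) 2 =
    ((Ri (yh t y) i : ℕ) : ℂ) / ((2 * s + 1 : ℕ) : ℂ) := by
  refine Fin.lastCases ?_ (fun h => ?_) i
  · rw [xx_right_last]
    simp [Ri]
  · rw [xx_right]
    simp [Ri, zpt, yh]

lemma xx_zpt (i : Fin (M + 1)) : xx t i (zpt t y ζ) =
    ![((Li (yh t y) i : ℕ) : ℂ) / ((2 * s + 1 : ℕ) : ℂ), xx t i (zpt t y ζ) 1,
      ((Ri (yh t y) i : ℕ) : ℂ) / ((2 * s + 1 : ℕ) : ℂ)] := by
  funext p
  fin_cases p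
  · exact xx_zpt0 t y ζ i
  · rfl
  · exact xx_zpt2 t y ζ i

lemma Li_le (y : Fin M → Fin (2 * s + 1)) (i : Fin (M + 1)) : Li y i ≤ 2 * s := by
  refine Fin.cases ?_ (fun j => ?_) i
  · simp [Li]
  · simp only [Li, Fin.cons_succ]
    omega

lemma Ri_le (y : Fin M → Fin (2 * s + 1)) (i : Fin (M + 1)) : Ri y i ≤ 2 * s := by
  refine Fin.lastCases ?_ (fun j => ?_) i
  · simp [Ri]
  · simp only [Ri, Fin.snoc_castSucc]
    omega

lemma Li_zero (y : Fin M → Fin (2 * s + 1)) (i : Fin (M + 1)) (h : decide (i ≠ 0) = false) :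
    Li y i = 0 := by
  have : i = 0 := by simpa using h
  subst this
  simp [Li]

lemma Ri_zero (y : Fin M → Fin (2 * s + 1)) (i : Fin (M + 1))
    (h : decide (i ≠ Fin.last M) = false) : Ri y i = 0 := by
  have : i = Fin.last M := by simpa using h
  subst this
  simp [Ri]

/-- the factor of a twist region -/
noncomputable def Kv (i : Fin (M + 1)) : ℂ :=
  if h : (t i).isMid = true then
    Cn (t i) (b i) (decide (i ≠ 0)) (decide (i ≠ Fin.last M)) s *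
    lG (t i) (b i) (decide (i ≠ 0)) (decide (i ≠ Fin.last M)) (2 * s + 1)
      ![((Li (yh t y) i : ℕ) : ℂ) / ((2 * s + 1 : ℕ) : ℂ),
        ((y (.inr ⟨i, h⟩) : ℕ) : ℂ) / ((2 * s + 1 : ℕ) : ℂ),
        ((Ri (yh t y) i : ℕ) : ℂ) / ((2 * s + 1 : ℕ) : ℂ)]
  else KR s (b i) (Li (yh t y) i) (Ri (yh t y) i)

variable {b} (hb : ∀ i, (t i).IsOk (b i)) (hs : 2 ≤ s)

include hb hs in
lemma lG_nonring (i : Fin (M + 1)) (hi : ¬(t i).isRing = true) :
    Cn (t i) (b i) (decide (i ≠ 0)) (decide (i ≠ Fin.last M)) s *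
    lG (t i) (b i) (decide (i ≠ 0)) (decide (i ≠ Fin.last M)) (2 * s + 1)
      (xx t i (zpt t y ζ)) = Kv t b y i := by
  unfold Kv
  have hbi := hb i
  by_cases h : (t i).isMid = true
  · rw [dif_pos h, xx_zpt, xx_mid t h]
    simp [zpt]
  · rw [dif_neg h, xx_zpt]
    have ht : t i = .one ∨ t i = .two := by
      cases hti : t i <;> simp [hti, Typ.isMid, Typ.isRing] at hi h ⊢
    rcases ht with ht | ht
    · rw [ht] at hbi ⊢
      exact (run_one hs (Li_le _ i) (Ri_le _ i) (Li_zero _ i) (Ri_zero _ i) hbi _).symm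
    · rw [ht] at hbi ⊢
      exact (run_two hs (Li_le _ i) (Ri_le _ i) (Li_zero _ i) (Ri_zero _ i) hbi _).symm

lemma cube_integral {V : Type*} [Fintype V] (φ : V → ℝ → ℂ) :
    ∫ σ in cube V, ∏ i, φ i (σ i) = ∏ i, ∫ x in Set.Icc (-(1 / 2) : ℝ) (1 / 2), φ i x := by
  unfold cube
  rw [volume_pi, Measure.restrict_pi_pi]
  exact integral_fintype_prod_eq_prod (fun i => φ i)

include hb hs in
/-- the integral at a lattice point -/
theorem I_eq {ρ : ZZ t → ℝ} (hρ : ∀ v, 0 < ρ v) :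
    (∏ i, Cn (t i) (b i) (decide (i ≠ 0)) (decide (i ≠ Fin.last M)) s) *
      (wdat t b).I (2 * s + 1) ρ y = ∏ i, Kv t b y i := by
  set C : Fin (M + 1) → ℂ := fun i => Cn (t i) (b i) (decide (i ≠ 0)) (decide (i ≠ Fin.last M)) s
    with hC
  have h1 : ∀ σ : ZZ t → ℝ, (∏ i, C i) * ((∏ v, EE (2 * s + 1) ((wdat t b).b v) (ρ v) (σ v)) *
      (wdat t b).G (2 * s + 1) (Sum.elim (fun i => (((y i : ℕ) : ℝ) / ((2 * s + 1 : ℕ) : ℝ) : ℝ))
        fun v => zt (ρ v) (σ v))) =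
      (∏ i : {i : Fin (M + 1) // ¬(t i).isRing = true}, Kv t b y i) *
      ∏ v : ZZ t, C v.1 * (EE (2 * s + 1) (b v.1) (ρ v) (σ v) *
        lG .ring (b v.1) (decide (v.1 ≠ 0)) (decide (v.1 ≠ Fin.last M)) (2 * s + 1)
          ![((Li (yh t y) v.1 : ℕ) : ℂ) / ((2 * s + 1 : ℕ) : ℂ), zt (ρ v) (σ v),
            ((Ri (yh t y) v.1 : ℕ) : ℂ) / ((2 * s + 1 : ℕ) : ℂ)]) := by
    intro σ
    have e0 : (Sum.elim (fun i => ((((y i : ℕ) : ℝ) / ((2 * s + 1 : ℕ) : ℝ) : ℝ) : ℂ))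
        (fun v => zt (ρ v) (σ v)) : DD t ⊕ ZZ t → ℂ) = zpt t y (fun v => zt (ρ v) (σ v)) := rfl
    rw [e0, wdat_G]
    have e1 : ∀ f : Fin (M + 1) → ℂ, ∏ i, f i = (∏ i : {i : Fin (M + 1) // (t i).isRing = true}, f i) *
        ∏ i : {i : Fin (M + 1) // ¬(t i).isRing = true}, f i := fun f =>
      (Fintype.prod_subtype_mul_prod_subtype (fun i => (t i).isRing = true) f).symm
    rw [e1 C, e1 fun i => lG (t i) (b i) (decide (i ≠ 0)) (decide (i ≠ Fin.last M)) (2 * s + 1)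
      (xx t i (zpt t y fun v => zt (ρ v) (σ v)))]
    have e2 : (∏ i : {i : Fin (M + 1) // ¬(t i).isRing = true}, Kv t b y i) =
        (∏ i : {i : Fin (M + 1) // ¬(t i).isRing = true}, C i) *
        ∏ i : {i : Fin (M + 1) // ¬(t i).isRing = true},
          lG (t i) (b i) (decide (i.1 ≠ 0)) (decide (i.1 ≠ Fin.last M)) (2 * s + 1)
            (xx t i (zpt t y fun v => zt (ρ v) (σ v))) := by
      rw [← Finset.prod_mul_distrib]
      refine Finset.prod_congr rfl fun i _ => ?_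
      exact (lG_nonring t y _ hb hs i i.2).symm
    have e3 : (∏ v : ZZ t, C v.1 * (EE (2 * s + 1) (b v.1) (ρ v) (σ v) *
        lG .ring (b v.1) (decide (v.1 ≠ 0)) (decide (v.1 ≠ Fin.last M)) (2 * s + 1)
          ![((Li (yh t y) v.1 : ℕ) : ℂ) / ((2 * s + 1 : ℕ) : ℂ), zt (ρ v) (σ v),
            ((Ri (yh t y) v.1 : ℕ) : ℂ) / ((2 * s + 1 : ℕ) : ℂ)])) =
        (∏ v : ZZ t, C v.1) * ((∏ v : ZZ t, EE (2 * s + 1) (b v.1) (ρ v) (σ v)) *
        ∏ v : ZZ t, lG (t v.1) (b v.1) (decide (v.1 ≠ 0)) (decide (v.1 ≠ Fin.last M)) (2 * s + 1)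
          (xx t v.1 (zpt t y fun v => zt (ρ v) (σ v)))) := by
      rw [← Finset.prod_mul_distrib, ← Finset.prod_mul_distrib]
      refine Finset.prod_congr rfl fun v _ => ?_
      have hv : t v.1 = .ring := by
        have := v.2
        cases h : t v.1 <;> simp [h, Typ.isRing] at this ⊢
      rw [xx_zpt, xx_ring t v.2, hv]
      rfl
    rw [e2, e3]
    have e4 : (∏ v, EE (2 * s + 1) ((wdat t b).b v) (ρ v) (σ v)) =
        ∏ v : ZZ t, EE (2 * s + 1) (b v.1) (ρ v) (σ v) := rfl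
    rw [e4]
    ring
  unfold Dat.I
  rw [← integral_const_mul]
  simp_rw [h1]
  rw [integral_const_mul, cube_integral (fun v x => C v.1 * (EE (2 * s + 1) (b v.1) (ρ v) x *
        lG .ring (b v.1) (decide (v.1 ≠ 0)) (decide (v.1 ≠ Fin.last M)) (2 * s + 1)
          ![((Li (yh t y) v.1 : ℕ) : ℂ) / ((2 * s + 1 : ℕ) : ℂ), zt (ρ v) x,
            ((Ri (yh t y) v.1 : ℕ) : ℂ) / ((2 * s + 1 : ℕ) : ℂ)]))]
  rw [← Fintype.prod_subtype_mul_prod_subtype (fun i => (t i).isRing = true) (Kv t b y), mul_comm]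
  congr 1
  refine Finset.prod_congr rfl fun v _ => ?_
  have hv : t v.1 = .ring := by
    have := v.2
    cases h : t v.1 <;> simp [h, Typ.isRing] at this ⊢
  have hm : ¬(t v.1).isMid = true := by
    rw [hv]
    simp [Typ.isMid]
  rw [integral_const_mul, Kv, dif_neg hm, hC]
  simp only
  rw [hv]
  exact (run_ring hs (Li_le _ v.1) (Ri_le _ v.1) (Li_zero _ v.1) (Ri_zero _ v.1) (b v.1) (hρ v)).symm

include hb hs in
lemma mid_KR (yy : Fin M → Fin (2 * s + 1)) (i : Fin (M + 1)) (hi : (t i).isMid = true) :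
    ∑ k : Fin (2 * s + 1), Cn (t i) (b i) (decide (i ≠ 0)) (decide (i ≠ Fin.last M)) s *
    lG (t i) (b i) (decide (i ≠ 0)) (decide (i ≠ Fin.last M)) (2 * s + 1)
      ![((Li yy i : ℕ) : ℂ) / ((2 * s + 1 : ℕ) : ℂ), ((k : ℕ) : ℂ) / ((2 * s + 1 : ℕ) : ℂ),
        ((Ri yy i : ℕ) : ℂ) / ((2 * s + 1 : ℕ) : ℂ)] = KR s (b i) (Li yy i) (Ri yy i) := by
  have hbi := hb i
  have ht : t i = .threeL ∨ t i = .threeR ∨ t i = .fourL ∨ t i = .fourR := by
    cases hti : t i <;> simp [hti, Typ.isMid] at hi ⊢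
  rcases ht with ht | ht | ht | ht
  · rw [ht] at hbi ⊢
    exact (run_threeL hs (Li_le _ i) (Ri_le _ i) (Li_zero _ i) (Ri_zero _ i) hbi).symm
  · rw [ht] at hbi ⊢
    exact (run_threeR hs (Li_le _ i) (Ri_le _ i) (Li_zero _ i) (Ri_zero _ i) hbi).symm
  · rw [ht] at hbi ⊢
    exact (run_fourL hs (Li_le _ i) (Ri_le _ i) (Li_zero _ i) (Ri_zero _ i) hbi).symm
  · rw [ht] at hbi ⊢
    exact (run_fourR hs (Li_le _ i) (Ri_le _ i) (Li_zero _ i) (Ri_zero _ i) hbi).symm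

include hb hs in
/-- the state sum is the sum over chains -/
theorem sum_eq {ρ : ZZ t → ℝ} (hρ : ∀ v, 0 < ρ v) :
    (∏ i, Cn (t i) (b i) (decide (i ≠ 0)) (decide (i ≠ Fin.last M)) s) *
      (wdat t b).sum (2 * s + 1) ρ =
    ∑ yy : Fin M → Fin (2 * s + 1), ∏ i : Fin (M + 1), KR s (b i) (Li yy i) (Ri yy i) := by
  unfold Dat.sum
  rw [Finset.mul_sum]
  simp_rw [I_eq t _ hb hs hρ]
  rw [← (Equiv.sumArrowEquivProdArrow (Fin M) {i : Fin (M + 1) // (t i).isMid = true}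
    (Fin (2 * s + 1))).symm.sum_comp, Fintype.sum_prod_type]
  refine Finset.sum_congr rfl fun yy _ => ?_
  have h1 : ∀ ym : {i : Fin (M + 1) // (t i).isMid = true} → Fin (2 * s + 1),
      ∏ i, Kv t b ((Equiv.sumArrowEquivProdArrow (Fin M) {i : Fin (M + 1) // (t i).isMid = true}
        (Fin (2 * s + 1))).symm (yy, ym)) i =
      (∏ m : {i : Fin (M + 1) // (t i).isMid = true},
        Cn (t m.1) (b m.1) (decide (m.1 ≠ 0)) (decide (m.1 ≠ Fin.last M)) s *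
        lG (t m.1) (b m.1) (decide (m.1 ≠ 0)) (decide (m.1 ≠ Fin.last M)) (2 * s + 1)
          ![((Li yy m.1 : ℕ) : ℂ) / ((2 * s + 1 : ℕ) : ℂ),
            ((ym m : ℕ) : ℂ) / ((2 * s + 1 : ℕ) : ℂ),
            ((Ri yy m.1 : ℕ) : ℂ) / ((2 * s + 1 : ℕ) : ℂ)]) *
      ∏ i : {i : Fin (M + 1) // ¬(t i).isMid = true}, KR s (b i) (Li yy i) (Ri yy i) := by
    intro ym
    rw [← Fintype.prod_subtype_mul_prod_subtype (fun i => (t i).isMid = true)]
    congr 1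
    · refine Finset.prod_congr rfl fun m _ => ?_
      rw [Kv, dif_pos m.2]
      rfl
    · refine Finset.prod_congr rfl fun m _ => ?_
      rw [Kv, dif_neg m.2]
      rfl
  simp_rw [h1]
  rw [← Finset.sum_mul]
  have h2 : ∑ ym : {i : Fin (M + 1) // (t i).isMid = true} → Fin (2 * s + 1),
      (∏ m : {i : Fin (M + 1) // (t i).isMid = true},
        Cn (t m.1) (b m.1) (decide (m.1 ≠ 0)) (decide (m.1 ≠ Fin.last M)) s *
        lG (t m.1) (b m.1) (decide (m.1 ≠ 0)) (decide (m.1 ≠ Fin.last M)) (2 * s + 1)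
          ![((Li yy m.1 : ℕ) : ℂ) / ((2 * s + 1 : ℕ) : ℂ),
            ((ym m : ℕ) : ℂ) / ((2 * s + 1 : ℕ) : ℂ),
            ((Ri yy m.1 : ℕ) : ℂ) / ((2 * s + 1 : ℕ) : ℂ)]) =
      ∏ m : {i : Fin (M + 1) // (t i).isMid = true}, KR s (b m.1) (Li yy m.1) (Ri yy m.1) := by
    have h3 := Finset.prod_univ_sum (fun _ : {i : Fin (M + 1) // (t i).isMid = true} =>
      (Finset.univ : Finset (Fin (2 * s + 1)))) (fun m k =>
        Cn (t m.1) (b m.1) (decide (m.1 ≠ 0)) (decide (m.1 ≠ Fin.last M)) s *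
        lG (t m.1) (b m.1) (decide (m.1 ≠ 0)) (decide (m.1 ≠ Fin.last M)) (2 * s + 1)
          ![((Li yy m.1 : ℕ) : ℂ) / ((2 * s + 1 : ℕ) : ℂ),
            ((k : ℕ) : ℂ) / ((2 * s + 1 : ℕ) : ℂ),
            ((Ri yy m.1 : ℕ) : ℂ) / ((2 * s + 1 : ℕ) : ℂ)])
    rw [Fintype.piFinset_univ] at h3
    rw [← h3]
    exact Finset.prod_congr rfl fun m _ => mid_KR t hb hs yy m.1 m.2
  rw [h2]
  exact Fintype.prod_subtype_mul_prod_subtype (fun i => (t i).isMid = true)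
    (fun i => KR s (b i) (Li yy i) (Ri yy i))

include hb hs in
/-- the exact formula -/
theorem exactDat (δ : ℤ) {ρ : ZZ t → ℝ} (hρ : ∀ v, 0 < ρ v) :
    twoBridgeKashaev (ltWord (List.ofFn b)) δ (2 * s + 1) =
      phs (orientedWrithe (ltWord (List.ofFn b)) ![1, δ, -δ]) (∑ i, b i) s *
      ((∏ i, Cn (t i) (b i) (decide (i ≠ 0)) (decide (i ≠ Fin.last M)) s) *
        (wdat t b).sum (2 * s + 1) ρ) := by
  rw [chainR b δ (by omega), sum_eq t hb hs hρ]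

end

end Pool.Agent.Work.MP_b30479_gt.G2
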