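import Pool.Agent.Work.MP_b30479_gt.G2.AMain

/-!
# The state sum of a two-bridge link satisfies the hypotheses of the core
-/

namespace Pool.Agent.Work.MP_b30479_gt.G2

open Finset VOL AX MeasureTheory
open Pool.Agent.Work.MP_b30479_gt.LT

/-! ### the hypotheses of the core -/

section
variable {M : ℕ} (t : Fin (M + 1) → Typ) {b : Fin (M + 1) → ℤ}

/-- bounds for the local variables -/
lemma xx_re_bd {n : ℕ} {z : DD t ⊕ ZZ t → ℂ} (hn : 1 ≤ n)
    (h : ∀ i, 0 ≤ (z (.inl i)).re ∧ (z (.inl i)).re ≤ 1 - 1 / n) (i : Fin (M + 1)) :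
    (0 ≤ (xx t i z 0).re ∧ (xx t i z 0).re ≤ 1 - 1 / n) ∧
    (0 ≤ (xx t i z 2).re ∧ (xx t i z 2).re ≤ 1 - 1 / n) := by
  have h1 : (0 : ℝ) ≤ 1 - 1 / n := by
    have : (1 : ℝ) ≤ n := by exact_mod_cast hn
    rw [sub_nonneg, div_le_one (by linarith only [this])]
    exact this
  constructor
  · refine Fin.cases ?_ (fun j => ?_) i
    · rw [xx_left_zero]
      exact ⟨le_rfl, h1⟩
    · rw [xx_left]
      exact h _
  · refine Fin.lastCases ?_ (fun j => ?_) i
    · rw [xx_right_last]
      exact ⟨le_rfl, h1⟩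
    · rw [xx_right]
      exact h _

lemma form_re (f : Fac) (x : Fin 3 → ℂ) : (f.form x).re =
    f.a + (f.α 0 * (x 0).re + f.α 1 * (x 1).re + f.α 2 * (x 2).re) := by
  unfold Fac.form
  rw [Fin.sum_univ_three]
  simp

/-- the arguments of the factors -/
lemma fac_range {T : Typ} {l r : Bool} {f : Fac} (hf : f ∈ facs T l r) {n : ℕ} (hn : 1 ≤ n)
    {x : Fin 3 → ℂ} (h0 : 0 ≤ (x 0).re ∧ (x 0).re ≤ 1 - 1 / n)
    (h2 : 0 ≤ (x 2).re ∧ (x 2).re ≤ 1 - 1 / n)
    (hm : T.isMid = true → 0 ≤ (x 1).re ∧ (x 1).re ≤ 1 - 1 / n)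
    (hr : T.isRing = true → |(x 1).re| < 1 / 2) :
    0 < (f.form x).re + f.c / n ∧ (f.form x).re + f.c / n < 2 := by
  have hn1 : (1 : ℝ) ≤ n := by exact_mod_cast hn
  have hn2 : 0 < 1 / (n : ℝ) := by positivity
  have hn3 : 1 / (n : ℝ) ≤ 1 := by
    rw [div_le_one (by linarith only [hn1])]
    exact hn1
  have e1 : (1 / 2 : ℝ) / n = 1 / n / 2 := by ring
  have e2 : (-(1 / 2) : ℝ) / n = -(1 / n / 2) := by ring
  obtain ⟨a0, a1⟩ := h0
  obtain ⟨b0, b1⟩ := h2
  have key : ∀ f ∈ facs T l r, 0 < f.a + (f.α 0 * (x 0).re + f.α 1 * (x 1).re +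
      f.α 2 * (x 2).re) + f.c / n ∧ f.a + (f.α 0 * (x 0).re + f.α 1 * (x 1).re +
      f.α 2 * (x 2).re) + f.c / n < 2 := by
    cases T
    case ring =>
      obtain ⟨c0, c1⟩ := abs_lt.1 (hr rfl)
      cases l <;> cases r <;> simp only [facs, hL, hR, if_true, Bool.false_eq_true, if_false,
        List.append_nil, List.nil_append, List.cons_append, List.forall_mem_cons,
        List.forall_mem_nil, and_true, Matrix.cons_val, e1, e2, zero_div]
      all_goals
        (repeat' apply And.intro) <;> first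
          | exact trivial
          | (push_cast; linarith only [b0, c0, hn2, b1, c1, a0, a1])
          | simp
    case one =>
      cases l <;> cases r <;> simp only [facs, hL, hR, if_true, Bool.false_eq_true, if_false,
        List.append_nil, List.nil_append, List.cons_append, List.forall_mem_cons,
        List.forall_mem_nil, and_true, Matrix.cons_val, e1, e2, zero_div, Bool.or_self, Bool.or_true,
        Bool.or_false]
      all_goals
        (repeat' apply And.intro) <;> first
          | exact trivial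
          | (push_cast; linarith only [hn2, a0, b0, a1, b1])
          | simp
    case two =>
      cases l <;> cases r <;> simp only [facs, hL, hR, if_true, Bool.false_eq_true, if_false,
        List.append_nil, List.nil_append, List.cons_append, List.forall_mem_cons,
        List.forall_mem_nil, and_true, Matrix.cons_val, e1, e2, zero_div, Bool.or_self, Bool.or_true,
        Bool.or_false]
      all_goals
        (repeat' apply And.intro) <;> first
          | exact trivial
          | (push_cast; linarith only [hn2, a0, b0, a1, b1])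
          | simp
    all_goals
      obtain ⟨c0, c1⟩ := hm rfl
      cases l <;> cases r <;> simp only [facs, hL, hR, if_true, Bool.false_eq_true, if_false,
        List.append_nil, List.nil_append, List.cons_append, List.forall_mem_cons,
        List.forall_mem_nil, and_true, Matrix.cons_val, e1, e2, zero_div]
      all_goals
        (repeat' apply And.intro) <;> first
          | exact trivial
          | (push_cast; linarith only [hn2, b0, c0, b1, c1, a0, a1])
          | simp
  rw [form_re]
  exact key f hf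

/-- the shifts and constants of the factors -/
lemma fac_ac {T : Typ} {l r : Bool} {f : Fac} (hf : f ∈ facs T l r) :
    ((∃ m : ℤ, f.a = m) ∧ (f.c = 1 / 2 ∨ f.c = -(1 / 2))) ∨
      (T.isRing = true ∧ f.c = 0 ∧ f.α 1 ≠ 0) := by
  have z0 : ∃ m : ℤ, (0 : ℝ) = m := ⟨0, by simp⟩
  have z1 : ∃ m : ℤ, (1 : ℝ) = m := ⟨1, by simp⟩
  have key : ∀ f ∈ facs T l r, ((∃ m : ℤ, f.a = m) ∧ (f.c = 1 / 2 ∨ f.c = -(1 / 2))) ∨
      (T.isRing = true ∧ f.c = 0 ∧ f.α 1 ≠ 0) := by
    cases T
    case ring =>
      cases l <;> cases r <;> simp [facs, hL, hR, Typ.isRing] <;> exact z1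
    all_goals
      cases l <;> cases r <;> simp [facs, hL, hR, Typ.isRing] <;>
        (try constructor) <;> first | exact z0 | exact z1 | (constructor <;> first | exact z0 | exact z1)
  exact key f hf

lemma fac_mem (k : KF t) : fac t k ∈ facs (t k.1) (decide (k.1 ≠ 0)) (decide (k.1 ≠ Fin.last M)) :=
  List.get_mem _ _

/-- the hypotheses of the core -/
theorem wdat_ok (hb : ∀ i, (t i).IsOk (b i)) : (wdat t b).Ok where
  range := by
    intro n hn z hD hZ k
    rw [wdat_form]
    obtain ⟨h0, h2⟩ := xx_re_bd t hn hD k.1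
    refine fac_range (fac_mem t k) hn h0 h2 ?_ ?_
    · intro h
      rw [xx_mid t h]
      exact hD _
    · intro h
      rw [xx_ring t h]
      exact hZ _
  shift := by
    intro k
    have h : (wdat t b).c k = (fac t k).c := rfl
    rw [h]
    rcases fac_ac (fac_mem t k) with ⟨_, h1 | h1⟩ | ⟨_, h1, _⟩
    · rw [h1, abs_le]
      norm_num
    · rw [h1, abs_le]
      norm_num
    · rw [h1]
      norm_num
  half := by
    intro k hk
    rcases fac_ac (fac_mem t k) with h1 | ⟨h1, _, h3⟩
    · exact h1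
    · exfalso
      have h4 := hk ⟨k.1, h1⟩
      apply h3
      have h5 : (wdat t b).A k (.inr ⟨k.1, h1⟩) = (fac t k).α 1 := by
        show ∑ p, (fac t k).α p * cf t k.1 p (.inr ⟨k.1, h1⟩) = _
        rw [Fin.sum_univ_three]
        simp [cf]
      rw [← h5]
      exact h4
  rho := by
    intro n hn hodd y ρ ρ' hρ hρ'
    obtain ⟨s, rfl⟩ := hodd
    have hs : 2 ≤ s := by omega
    have h1 := I_eq t y hb hs hρ
    have h2 := I_eq t y hb hs hρ'
    have h3 : (∏ i, Cn (t i) (b i) (decide (i ≠ 0)) (decide (i ≠ Fin.last M)) s) ≠ 0 :=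
      Finset.prod_ne_zero_iff.2 fun i _ => Cn_ne _ _ _ _ _
    exact mul_left_cancel₀ h3 (h1.trans h2.symm)

end

end Pool.Agent.Work.MP_b30479_gt.G2
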