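import Pool.Agent.Work.MP_b30479_gt.VOL.MProd
import Pool.Agent.Work.MP_b30479_gt.DT.RDefs

/-!
# The interpolation `Pn` of `f(k) = ∏_{l ≤ k} 2 sin(π l / n)`

`Pn n w` is holomorphic on `-1/n < Re w < 2 + 1/(2n)` and `Pn n (k/n) = fS n k`.
-/

namespace Pool.Agent.Work.MP_b30479_gt.G2

open Finset VOL AX Complex

/-! ### the product of sines -/

theorem two_sin_exp (z : ℂ) : 2 * Complex.sin (Real.pi * z) =
    I * cexp (-(Real.pi * z * I)) * (1 - cexp (2 * Real.pi * I * z)) := by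
  have h2 : cexp (-(Real.pi * z * I)) * cexp (2 * Real.pi * I * z) = cexp (Real.pi * z * I) := by
    rw [← Complex.exp_add]
    congr 1
    ring
  rw [Complex.sin, mul_sub, mul_one, mul_assoc I, h2,
    show -(Real.pi * z) * I = -(Real.pi * z * I) by ring]
  ring

theorem prod_one_sub_root {n : ℕ} (hn : 0 < n) (x : ℂ) :
    ∏ j ∈ range n, (1 - x * cexp (2 * Real.pi * I * (j / n))) = 1 - x ^ n := by
  have hn' : (n : ℂ) ≠ 0 := by exact_mod_cast hn.ne'
  have hp : IsPrimitiveRoot (cexp (2 * Real.pi * I / n)) n :=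
    Complex.isPrimitiveRoot_exp n hn.ne'
  have hcard : Polynomial.nthRootsFinset n (1 : ℂ) =
      (range n).image fun j => cexp (2 * Real.pi * I / n) ^ j := by
    symm
    apply Finset.eq_of_subset_of_card_le
    · intro z hz
      obtain ⟨j, hj, rfl⟩ := Finset.mem_image.1 hz
      rw [Polynomial.mem_nthRootsFinset hn, ← pow_mul, mul_comm j n, pow_mul, hp.pow_eq_one, one_pow]
    · rw [hp.card_nthRootsFinset, Finset.card_image_of_injOn, card_range]
      intro a ha b hb hab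
      exact hp.pow_inj (mem_range.1 ha) (mem_range.1 hb) hab
  have h1 := hp.pow_sub_pow_eq_prod_sub_mul (1 : ℂ) x hn
  rw [one_pow, hcard, Finset.prod_image (fun a ha b hb hab =>
    hp.pow_inj (mem_range.1 ha) (mem_range.1 hb) hab)] at h1
  rw [h1]
  refine Finset.prod_congr rfl fun j _ => ?_
  rw [← Complex.exp_nat_mul, mul_comm x]
  congr 3
  field_simp

/-- `∏_{j<n} 2 sin π(u + j/n) = 2 sin(π n u)` -/
theorem prod_two_sin_full {n : ℕ} (hn : 0 < n) (u : ℂ) :
    ∏ j ∈ range n, 2 * Complex.sin (Real.pi * (u + j / n)) = 2 * Complex.sin (Real.pi * (n * u)) := by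
  have hn' : (n : ℂ) ≠ 0 := by exact_mod_cast hn.ne'
  have h1 : ∀ j ∈ range n, 2 * Complex.sin (Real.pi * (u + j / n)) =
      (I * cexp (-(Real.pi * u * I)) * cexp (-(Real.pi * (j / n) * I))) *
        (1 - cexp (2 * Real.pi * I * u) * cexp (2 * Real.pi * I * (j / n))) := by
    intro j _
    rw [two_sin_exp, mul_assoc I (cexp (-(Real.pi * u * I))), ← Complex.exp_add, ← Complex.exp_add]
    congr 3
    · ring
    · ring
  rw [Finset.prod_congr rfl h1, Finset.prod_mul_distrib, prod_one_sub_root hn, two_sin_exp,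
    ← Complex.exp_nat_mul, show (n : ℂ) * (2 * Real.pi * I * u) = 2 * Real.pi * I * (n * u) by ring]
  congr 1
  have h2 : ∀ m : ℕ, ∏ j ∈ range m, (I * cexp (-(Real.pi * u * I)) * cexp (-(Real.pi * (j / n) * I)))
      = I ^ m * cexp (-(Real.pi * (m * u) * I)) *
        cexp (-(Real.pi * (m * (m - 1) / (2 * n)) * I)) := by
    intro m
    induction m with
    | zero => simp
    | succ m ih =>
      rw [Finset.prod_range_succ, ih]
      have e : ∀ a b c d e f g : ℂ, a + b + (e + f) = c + d → g * cexp a * cexp b * (I * cexp e * cexp f)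
          = (g * I) * cexp c * cexp d := by
        intro a b c d e f g h
        calc _ = g * I * (cexp a * cexp b * (cexp e * cexp f)) := by ring
          _ = g * I * (cexp c * cexp d) := by
            rw [← Complex.exp_add, ← Complex.exp_add, ← Complex.exp_add, ← Complex.exp_add, h]
          _ = _ := by ring
      rw [pow_succ]
      apply e
      push_cast
      field_simp
      ring
  rw [h2 n]
  have h3 : I ^ n * cexp (-(Real.pi * (n * (n - 1) / (2 * n)) * I)) = I := by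
    have e1 : I ^ n = cexp (n * (Real.pi / 2 * I)) := by
      rw [Complex.exp_nat_mul, Complex.exp_pi_div_two_mul_I]
    rw [e1, ← Complex.exp_add]
    have e2 : (n : ℂ) * (Real.pi / 2 * I) + -(Real.pi * (n * (n - 1) / (2 * n)) * I) =
        Real.pi / 2 * I := by
      field_simp
      ring
    rw [e2, Complex.exp_pi_div_two_mul_I]
  calc _ = (I ^ n * cexp (-(Real.pi * (n * (n - 1) / (2 * n)) * I))) *
        cexp (-(Real.pi * (n * u) * I)) := by ring
    _ = _ := by rw [h3]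

/-! ### the definition -/

/-- the exponential of the discrete primitive -/
noncomputable def Qn (n : ℕ) (w : ℂ) : ℂ := ((√(n : ℝ) : ℝ) : ℂ) * cexp (M n (w + 1 / (2 * n)))

/-- `Pn` on `-1/n < Re w < 1 + 1/(2n)` -/
noncomputable def P1 (n : ℕ) (w : ℂ) : ℂ :=
  if w.re ≤ 1 / 2 then Qn n (w + 1 / n) / (2 * Complex.sin (Real.pi * (w + 1 / n)))
  else Qn n (w - 1 / n) * (2 * Complex.sin (Real.pi * w))

/-- the interpolation of `fS n k` -/
noncomputable def Pn (n : ℕ) (w : ℂ) : ℂ :=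
  if w.re ≤ 1 then P1 n w else -(2 * Complex.sin (Real.pi * (n * (w - 1)))) * P1 n (w - 1)

/-- the interpolation of `1 / fS n k` -/
noncomputable def Rn (n : ℕ) (w : ℂ) : ℂ := Pn n (1 - 1 / n - w) / n

theorem re_one_div (n : ℕ) : ((1 : ℂ) / n).re = 1 / n := by
  have : (1 : ℂ) / n = ((1 / (n : ℝ) : ℝ) : ℂ) := by push_cast; rfl
  rw [this, ofReal_re]

theorem re_one_div_two (n : ℕ) : ((1 : ℂ) / (2 * n)).re = 1 / (2 * n) := by
  have : (1 : ℂ) / (2 * n) = ((1 / (2 * (n : ℝ)) : ℝ) : ℂ) := by push_cast; rfl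
  rw [this, ofReal_re]

theorem half_n {n : ℕ} (hn : 4 ≤ n) : 0 < 1 / (n : ℝ) ∧ 1 / (2 * (n : ℝ)) = 1 / n / 2 ∧
    1 / (n : ℝ) ≤ 1 / 4 := by
  have h0 : (4 : ℝ) ≤ n := by exact_mod_cast hn
  refine ⟨by positivity, by field_simp, ?_⟩
  apply div_le_div_of_nonneg_left (by norm_num) (by norm_num) h0

/-- the step of `Qn` -/
theorem Qn_step {n : ℕ} (hn : 4 ≤ n) {w : ℂ} (h0 : -(1 / (2 * (n : ℝ))) < w.re)
    (h1 : w.re < 1 - 3 / (2 * (n : ℝ))) :
    Qn n (w + 1 / n) = Qn n w * (2 * Complex.sin (Real.pi * (w + 1 / n))) := by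
  obtain ⟨a1, a2, a3⟩ := half_n hn
  have hn0 : (0 : ℝ) < n := by
    have : 0 < n := by omega
    exact_mod_cast this
  have hnc : (n : ℂ) ≠ 0 := by exact_mod_cast hn0.ne'
  have a4 : 3 / (2 * (n : ℝ)) = 3 * (1 / n / 2) := by field_simp
  have hre : (w + 1 / n).re = w.re + 1 / n := by rw [add_re, re_one_div]
  have h := M_step hn0 (w := w + 1 / n) (by rw [hre]; linarith only [h0, a2]) (by rw [hre]; linarith only [h1, a2, a4])
  have hs : w + 1 / n ∈ strip := ⟨by rw [hre]; linarith only [h0, a1, a2], by rw [hre]; linarith only [h1, a1, a4]⟩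
  rw [← exp_ph hs, ← h, Qn, Qn, mul_assoc, ← Complex.exp_add]
  congr 2
  have e1 : w + 1 / n + ((1 / (2 * (n : ℝ)) : ℝ) : ℂ) = w + 1 / n + 1 / (2 * n) := by push_cast; rfl
  have e2 : w + 1 / n - ((1 / (2 * (n : ℝ)) : ℝ) : ℂ) = w + 1 / (2 * n) := by
    push_cast
    field_simp
    ring
  rw [e1, e2]
  ring

theorem sin_ne {z : ℂ} (h0 : 0 < z.re) (h1 : z.re < 1) : 2 * Complex.sin (Real.pi * z) ≠ 0 :=
  mul_ne_zero two_ne_zero (sin_pi_ne ⟨h0, h1⟩)

theorem P1_left {n : ℕ} (hn : 4 ≤ n) {w : ℂ} (h0 : -(1 / (n : ℝ)) < w.re)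
    (h1 : w.re < 1 - 3 / (2 * (n : ℝ))) :
    P1 n w = Qn n (w + 1 / n) / (2 * Complex.sin (Real.pi * (w + 1 / n))) := by
  obtain ⟨a1, a2, a3⟩ := half_n hn
  have a4 : 3 / (2 * (n : ℝ)) = 3 * (1 / n / 2) := by field_simp
  unfold P1
  split_ifs with h
  · rfl
  · push Not at h
    have e1 : (w - 1 / n).re = w.re - 1 / n := by rw [sub_re, re_one_div]
    have e2 : (w + 1 / n).re = w.re + 1 / n := by rw [add_re, re_one_div]
    have s1 := Qn_step hn (w := w - 1 / n) (by rw [e1]; linarith only [a2, a3, h]) (by rw [e1]; linarith only [h1, a1])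
    have s2 := Qn_step hn (w := w) (by linarith only [h0, a2, h]) h1
    rw [sub_add_cancel] at s1
    rw [s2, s1, mul_div_assoc, div_self, mul_one]
    exact sin_ne (by rw [e2]; linarith only [h0]) (by rw [e2]; linarith only [h1, a1, a4])

theorem P1_right {n : ℕ} (hn : 4 ≤ n) {w : ℂ} (h0 : 1 / (2 * (n : ℝ)) < w.re) :
    P1 n w = Qn n (w - 1 / n) * (2 * Complex.sin (Real.pi * w)) := by
  obtain ⟨a1, a2, a3⟩ := half_n hn
  unfold P1
  split_ifs with h
  · have e1 : (w - 1 / n).re = w.re - 1 / n := by rw [sub_re, re_one_div]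
    have e2 : (w + 1 / n).re = w.re + 1 / n := by rw [add_re, re_one_div]
    have a4 : 3 / (2 * (n : ℝ)) = 3 * (1 / n / 2) := by field_simp
    have s1 := Qn_step hn (w := w - 1 / n) (by rw [e1]; linarith only [h0, a2]) (by rw [e1]; linarith only [a1, a3, h, a4])
    have s2 := Qn_step hn (w := w) (by linarith only [h0, a1, a2]) (by linarith only [a1, a3, h, a4])
    rw [sub_add_cancel] at s1
    rw [s2, s1, mul_div_assoc, div_self, mul_one]
    exact sin_ne (by rw [e2]; linarith only [h0, a1, a2]) (by rw [e2]; linarith only [a1, a3, h])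
  · rfl

theorem P1_eq {n : ℕ} (hn : 4 ≤ n) {w : ℂ} (h0 : -(1 / (2 * (n : ℝ))) < w.re)
    (h1 : w.re < 1 - 1 / (2 * (n : ℝ))) : P1 n w = Qn n w := by
  obtain ⟨a1, a2, a3⟩ := half_n hn
  have e1 : (w - 1 / n).re = w.re - 1 / n := by rw [sub_re, re_one_div]
  have e2 : (w + 1 / n).re = w.re + 1 / n := by rw [add_re, re_one_div]
  have a4 : 3 / (2 * (n : ℝ)) = 3 * (1 / n / 2) := by field_simp
  unfold P1
  split_ifs with h
  · have s2 := Qn_step hn (w := w) h0 (by linarith only [a1, a3, a4, h])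
    rw [s2, mul_div_assoc, div_self, mul_one]
    exact sin_ne (by rw [e2]; linarith only [h0, a1, a2]) (by rw [e2]; linarith only [a1, a3, h])
  · push Not at h
    have s1 := Qn_step hn (w := w - 1 / n) (by rw [e1]; linarith only [a1, a2, a3, h]) (by rw [e1]; linarith only [h1, a2, a4])
    rw [sub_add_cancel] at s1
    exact s1.symm

theorem differentiableAt_Qn {n : ℕ} (hn : 4 ≤ n) {w : ℂ} (h0 : -(1 / (2 * (n : ℝ))) < w.re)
    (h1 : w.re < 1 - 1 / (2 * (n : ℝ))) : DifferentiableAt ℂ (Qn n) w := by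
  have hn0 : (0 : ℝ) < n := by
    have : 0 < n := by omega
    exact_mod_cast this
  have hs : w + 1 / (2 * n) ∈ strip := by
    refine ⟨?_, ?_⟩
    · rw [add_re, re_one_div_two]; linarith only [h0]
    · rw [add_re, re_one_div_two]; linarith only [h1]
  have h2 : DifferentiableAt ℂ (fun w : ℂ => M n (w + 1 / (2 * n))) w := by
    have h3 : HasDerivAt (fun w : ℂ => w + 1 / (2 * (n : ℂ))) 1 w := (hasDerivAt_id w).add_const _
    exact ((hasDerivAt_M hn0 hs).comp w h3).differentiableAt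
  unfold Qn
  exact (h2.cexp).const_mul _

theorem Qn_ne_zero {n : ℕ} (hn : 4 ≤ n) (w : ℂ) : Qn n w ≠ 0 := by
  have hn0 : (0 : ℝ) < n := by
    have : 0 < n := by omega
    exact_mod_cast this
  unfold Qn
  exact mul_ne_zero (by exact_mod_cast (Real.sqrt_pos.2 hn0).ne') (Complex.exp_ne_zero _)

theorem differentiableAt_P1 {n : ℕ} (hn : 4 ≤ n) {w : ℂ} (h0 : -(1 / (n : ℝ)) < w.re)
    (h1 : w.re < 1 + 1 / (2 * (n : ℝ))) : DifferentiableAt ℂ (P1 n) w := by
  obtain ⟨a1, a2, a3⟩ := half_n hn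
  have a4 : 3 / (2 * (n : ℝ)) = 3 * (1 / n / 2) := by field_simp
  rcases le_or_gt w.re (1 / 2) with h | h
  · have hev : P1 n =ᶠ[nhds w] fun w => Qn n (w + 1 / n) /
        (2 * Complex.sin (Real.pi * (w + 1 / n))) := by
      have hop : IsOpen {w : ℂ | -(1 / (n : ℝ)) < w.re ∧ w.re < 1 - 3 / (2 * (n : ℝ))} :=
        (isOpen_lt continuous_const continuous_re).inter (isOpen_lt continuous_re continuous_const)
      filter_upwards [hop.mem_nhds ⟨h0, by linarith only [a1, a3, a4, h]⟩] with z hz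
      exact P1_left hn hz.1 hz.2
    refine DifferentiableAt.congr_of_eventuallyEq ?_ hev
    have e2 : (w + 1 / n).re = w.re + 1 / n := by rw [add_re, re_one_div]
    refine DifferentiableAt.div ?_ (by fun_prop) (sin_ne (by rw [e2]; linarith only [h0]) (by rw [e2]; linarith only [a1, a3, h]))
    have h3 : DifferentiableAt ℂ (fun w : ℂ => w + 1 / (n : ℂ)) w := by fun_prop
    exact (differentiableAt_Qn hn (by rw [e2]; linarith only [h0, a1, a2]) (by rw [e2]; linarith only [a1, a2, a3, h])).comp w h3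
  · have hev : P1 n =ᶠ[nhds w] fun w => Qn n (w - 1 / n) * (2 * Complex.sin (Real.pi * w)) := by
      have hop : IsOpen {w : ℂ | 1 / (2 * (n : ℝ)) < w.re} :=
        isOpen_lt continuous_const continuous_re
      filter_upwards [hop.mem_nhds (show 1 / (2 * (n : ℝ)) < w.re by linarith only [a1, a2, a3, h])] with z hz
      exact P1_right hn hz
    refine DifferentiableAt.congr_of_eventuallyEq ?_ hev
    have e1 : (w - 1 / n).re = w.re - 1 / n := by rw [sub_re, re_one_div]
    refine DifferentiableAt.mul ?_ (by fun_prop)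
    have h3 : DifferentiableAt ℂ (fun w : ℂ => w - 1 / (n : ℂ)) w := by fun_prop
    exact (differentiableAt_Qn hn (by rw [e1]; linarith only [a1, a2, a3, h]) (by rw [e1]; linarith only [h1, a2])).comp w h3

theorem P1_ne_zero {n : ℕ} (hn : 4 ≤ n) {w : ℂ} (h0 : -(1 / (n : ℝ)) < w.re) (h1 : w.re < 1) :
    P1 n w ≠ 0 := by
  obtain ⟨a1, a2, a3⟩ := half_n hn
  have e2 : (w + 1 / n).re = w.re + 1 / n := by rw [add_re, re_one_div]
  unfold P1
  split_ifs with h
  · exact div_ne_zero (Qn_ne_zero hn _) (sin_ne (by rw [e2]; linarith only [h0]) (by rw [e2]; linarith only [a1, a3, h]))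
  · push Not at h
    exact mul_ne_zero (Qn_ne_zero hn _) (sin_ne (by linarith only [a1, a3, h]) h1)

/-- the values of `Qn` at both ends of the strip -/
theorem Qn_shift {n : ℕ} (hn : 4 ≤ n) {u : ℂ} (h0 : -(3 / (2 * (n : ℝ))) < u.re)
    (h1 : u.re < 1 / (2 * (n : ℝ))) :
    Qn n (u + 1 - 1 / n) = Qn n (u + 1 / n) *
      ∏ j ∈ range (n - 2), 2 * Complex.sin (Real.pi * (u + (j + 2 : ℕ) / n)) := by
  obtain ⟨a1, a2, a3⟩ := half_n hn
  have hn0 : (0 : ℝ) < n := by
    have : 0 < n := by omega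
    exact_mod_cast this
  have hnc : (n : ℂ) ≠ 0 := by exact_mod_cast hn0.ne'
  have a4 : 3 / (2 * (n : ℝ)) = 3 * (1 / n / 2) := by field_simp
  have key : ∀ m : ℕ, m ≤ n - 2 → Qn n (u + 1 / n + m / n) = Qn n (u + 1 / n) *
      ∏ j ∈ range m, 2 * Complex.sin (Real.pi * (u + (j + 2 : ℕ) / n)) := by
    intro m
    induction m with
    | zero => intro _; simp
    | succ m ih =>
      intro hm
      rw [Finset.prod_range_succ, ← mul_assoc, ← ih (by omega)]
      have e1 : u + 1 / n + (m + 1 : ℕ) / n = (u + 1 / n + m / n) + 1 / n := by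
        push_cast
        ring
      have e2 : (u + 1 / n + m / n).re = u.re + 1 / n + m / n := by
        rw [add_re, add_re, re_one_div]
        congr 1
        have : (m : ℂ) / n = ((m / n : ℝ) : ℂ) := by push_cast; rfl
        rw [this, ofReal_re]
      have hm0 : (0 : ℝ) ≤ m / n := by positivity
      have hm1 : (m : ℝ) / n ≤ 1 - 3 / n := by
        have h3 : (m : ℝ) + 3 ≤ n := by
          have : m + 3 ≤ n := by omega
          exact_mod_cast this
        rw [div_le_iff₀ hn0]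
        have : (1 - 3 / (n : ℝ)) * n = n - 3 := by field_simp
        rw [this]
        linarith only [h3]
      have a5 : 3 / (n : ℝ) = 3 * (1 / n) := by ring
      rw [e1, Qn_step hn (by rw [e2]; linarith only [h0, a2, a4, hm0]) (by rw [e2]; linarith only [h1, a2, a4, hm1, a5])]
      congr 3
      push_cast
      ring
  have h := key (n - 2) le_rfl
  rw [← h]
  congr 1
  have : ((n - 2 : ℕ) : ℂ) = n - 2 := by
    rw [Nat.cast_sub (by omega)]
    norm_num
  rw [this]
  field_simp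
  ring

/-- quasi-periodicity -/
theorem P1_add_one {n : ℕ} (hn : 4 ≤ n) {u : ℂ} (h0 : -(1 / (n : ℝ)) < u.re)
    (h1 : u.re < 1 / (2 * (n : ℝ))) :
    P1 n (u + 1) = -(2 * Complex.sin (Real.pi * (n * u))) * P1 n u := by
  obtain ⟨a1, a2, a3⟩ := half_n hn
  have hn0 : (0 : ℝ) < n := by
    have : 0 < n := by omega
    exact_mod_cast this
  have hnc : (n : ℂ) ≠ 0 := by exact_mod_cast hn0.ne'
  have a4 : 3 / (2 * (n : ℝ)) = 3 * (1 / n / 2) := by field_simp
  have e0 : (u + 1).re = u.re + 1 := by simp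
  have e2 : (u + 1 / n).re = u.re + 1 / n := by rw [add_re, re_one_div]
  have hs := sin_ne (z := u + 1 / n) (by rw [e2]; linarith only [h0]) (by rw [e2]; linarith only [h0, h1, a2, a3])
  rw [P1_right hn (by rw [e0]; linarith only [h0, h1, a2, a3]), P1_left hn h0 (by linarith only [h0, h1, a2, a3, a4]), Qn_shift hn (by linarith only [h0, h1, a2, a4]) h1,
    ← prod_two_sin_full (by omega) u]
  obtain ⟨m, rfl⟩ : ∃ m, n = m + 2 := ⟨n - 2, by omega⟩
  rw [show m + 2 - 2 = m by omega, Finset.prod_range_succ', Finset.prod_range_succ']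
  have e3 : Complex.sin (Real.pi * (u + 1)) = -Complex.sin (Real.pi * u) := by
    rw [mul_add, mul_one, Complex.sin_add_pi]
  rw [e3]
  have e4 : u + ((0 + 1 : ℕ) : ℂ) / ((m + 2 : ℕ) : ℂ) = u + 1 / ((m + 2 : ℕ) : ℂ) := by
    simp
  have e5 : u + ((0 : ℕ) : ℂ) / ((m + 2 : ℕ) : ℂ) = u := by simp
  rw [e4, e5]
  have e6 : ∏ k ∈ range m, 2 * Complex.sin (Real.pi * (u + ((k + 1 + 1 : ℕ) : ℂ) / ((m + 2 : ℕ) : ℂ)))
      = ∏ k ∈ range m, 2 * Complex.sin (Real.pi * (u + ((k + 2 : ℕ) : ℂ) / ((m + 2 : ℕ) : ℂ))) := rfl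
  rw [e6]
  have hs' : Complex.sin (Real.pi * (u + 1 / ((m + 2 : ℕ) : ℂ))) ≠ 0 := fun h => hs (by rw [h, mul_zero])
  have key : ∀ q p s0 s1 : ℂ, s1 ≠ 0 →
      q * p * (2 * -s0) = -(p * (2 * s1) * (2 * s0)) * (q / (2 * s1)) := by
    intro q p s0 s1 h
    field_simp
  exact key _ _ _ _ hs'

theorem Pn_eq_P1 {n : ℕ} (hn : 4 ≤ n) {w : ℂ} (h1 : w.re < 1 + 1 / (2 * (n : ℝ))) :
    Pn n w = P1 n w := by
  obtain ⟨a1, a2, a3⟩ := half_n hn
  unfold Pn
  split_ifs with h
  · rfl
  · push Not at h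
    have e : (w - 1).re = w.re - 1 := by simp
    have := P1_add_one hn (u := w - 1) (by rw [e]; linarith only [a1, h]) (by rw [e]; linarith only [h1])
    rw [sub_add_cancel] at this
    exact this.symm

theorem Pn_eq_two {n : ℕ} (hn : 4 ≤ n) {w : ℂ} (h1 : 1 - 1 / (n : ℝ) < w.re) :
    Pn n w = -(2 * Complex.sin (Real.pi * (n * (w - 1)))) * P1 n (w - 1) := by
  obtain ⟨a1, a2, a3⟩ := half_n hn
  unfold Pn
  split_ifs with h
  · have e : (w - 1).re = w.re - 1 := by simp
    have := P1_add_one hn (u := w - 1) (by rw [e]; linarith only [h1]) (by rw [e]; linarith only [a1, a2, h])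
    rw [sub_add_cancel] at this
    exact this
  · rfl

theorem Pn_eq_Qn {n : ℕ} (hn : 4 ≤ n) {w : ℂ} (h0 : -(1 / (2 * (n : ℝ))) < w.re)
    (h1 : w.re < 1 - 1 / (2 * (n : ℝ))) : Pn n w = Qn n w := by
  obtain ⟨a1, a2, a3⟩ := half_n hn
  rw [Pn_eq_P1 hn (by linarith only [h1, a1, a2]), P1_eq hn h0 h1]

/-- `Pn` is holomorphic on `-1/n < Re w < 2 + 1/(2n)` -/
theorem differentiableAt_Pn {n : ℕ} (hn : 4 ≤ n) {w : ℂ} (h0 : -(1 / (n : ℝ)) < w.re)
    (h1 : w.re < 2 + 1 / (2 * (n : ℝ))) : DifferentiableAt ℂ (Pn n) w := by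
  obtain ⟨a1, a2, a3⟩ := half_n hn
  rcases le_or_gt w.re 1 with h | h
  · have hev : Pn n =ᶠ[nhds w] P1 n := by
      have hop : IsOpen {w : ℂ | w.re < 1 + 1 / (2 * (n : ℝ))} :=
        isOpen_lt continuous_re continuous_const
      filter_upwards [hop.mem_nhds (show w.re < 1 + 1 / (2 * (n : ℝ)) by linarith only [a1, a2, h])] with z hz
      exact Pn_eq_P1 hn hz
    exact (differentiableAt_P1 hn h0 (by linarith only [a1, a2, h])).congr_of_eventuallyEq hev
  · have hev : Pn n =ᶠ[nhds w] fun w => -(2 * Complex.sin (Real.pi * (n * (w - 1)))) *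
        P1 n (w - 1) := by
      have hop : IsOpen {w : ℂ | 1 - 1 / (n : ℝ) < w.re} :=
        isOpen_lt continuous_const continuous_re
      filter_upwards [hop.mem_nhds (show 1 - 1 / (n : ℝ) < w.re by linarith only [a1, h])] with z hz
      exact Pn_eq_two hn hz
    refine DifferentiableAt.congr_of_eventuallyEq ?_ hev
    have e : (w - 1).re = w.re - 1 := by simp
    refine DifferentiableAt.mul (by fun_prop) ?_
    have h3 : DifferentiableAt ℂ (fun w : ℂ => w - 1) w := by fun_prop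
    exact (differentiableAt_P1 hn (by rw [e]; linarith only [a1, h]) (by rw [e]; linarith only [h1])).comp w h3

theorem Pn_ne_zero {n : ℕ} (hn : 4 ≤ n) {w : ℂ} (h0 : -(1 / (n : ℝ)) < w.re) (h1 : w.re < 1) :
    Pn n w ≠ 0 := by
  obtain ⟨a1, a2, a3⟩ := half_n hn
  rw [Pn_eq_P1 hn (by linarith only [h1, a1, a2])]
  exact P1_ne_zero hn h0 h1

/-- the functional equation -/
theorem Pn_step {n : ℕ} (hn : 4 ≤ n) {w : ℂ} (h0 : -(1 / (n : ℝ)) < w.re) (h1 : w.re < 1) :
    Pn n (w + 1 / n) = 2 * Complex.sin (Real.pi * (w + 1 / n)) * Pn n w := by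
  obtain ⟨a1, a2, a3⟩ := half_n hn
  have e2 : (w + 1 / n).re = w.re + 1 / n := by rw [add_re, re_one_div]
  have a4 : 3 / (2 * (n : ℝ)) = 3 * (1 / n / 2) := by field_simp
  rcases lt_or_ge w.re (1 - 3 / (2 * (n : ℝ))) with h | h
  · have hs := sin_ne (z := w + 1 / n) (by rw [e2]; linarith only [h0]) (by rw [e2]; linarith only [a1, a4, h])
    rw [Pn_eq_Qn hn (w := w + 1 / n) (by rw [e2]; linarith only [h0, a1, a2]) (by rw [e2]; linarith only [a2, a4, h]),
      Pn_eq_P1 hn (w := w) (by linarith only [a1, a2, a4, h]), P1_left hn h0 h, mul_comm, div_mul_cancel₀ _ hs]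
  rcases lt_or_ge w.re (1 - 1 / (2 * (n : ℝ))) with h' | h'
  · rw [Pn_eq_P1 hn (w := w + 1 / n) (by rw [e2]; linarith only [a2, h']), P1_right hn (by rw [e2]; linarith only [h0, a2, a3, a4, h]),
      add_sub_cancel_right, Pn_eq_Qn hn (by linarith only [h0, a2, a3, a4, h]) h']
    ring
  · -- `w + 1/n` beyond `1`
    have e3 : (w + 1 / n - 1).re = w.re + 1 / n - 1 := by rw [sub_re, e2, one_re]
    have e4 : (w - 1).re = w.re - 1 := by rw [sub_re, one_re]
    have hw : 2 * Complex.sin (Real.pi * (n * (w + 1 / n - 1))) =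
        -(2 * Complex.sin (Real.pi * (n * (w - 1)))) := by
      have hn0 : (n : ℂ) ≠ 0 := by
        have : n ≠ 0 := by omega
        exact_mod_cast this
      have : (Real.pi : ℂ) * (n * (w + 1 / n - 1)) = Real.pi * (n * (w - 1)) + Real.pi := by
        field_simp
        ring
      rw [this, Complex.sin_add_pi]
      ring
    rw [Pn_eq_two hn (w := w + 1 / n) (by rw [e2]; linarith only [a1, a2, h']), Pn_eq_two hn (w := w) (by linarith only [h1, a2, h']),
      hw]
    have h5 : P1 n (w + 1 / n - 1) = Qn n (w + 1 / n - 1) :=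
      P1_eq hn (by rw [e3]; linarith only [a1, h']) (by rw [e3]; linarith only [h1, a1, a2, a3])
    have h6 : P1 n (w - 1) = Qn n (w - 1 + 1 / n) / (2 * Complex.sin (Real.pi * (w - 1 + 1 / n))) :=
      P1_left hn (by rw [e4]; linarith only [h1, a2, h']) (by rw [e4]; linarith only [h1, a2, a3, a4, h'])
    have e5 : w + 1 / n - 1 = w - 1 + 1 / n := by ring
    have e6 : Complex.sin (Real.pi * (w - 1 + 1 / n)) = -Complex.sin (Real.pi * (w + 1 / n)) := by
      have : (Real.pi : ℂ) * (w - 1 + 1 / n) = Real.pi * (w + 1 / n) - Real.pi := by ring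
      rw [this, Complex.sin_sub_pi]
    have hs : Complex.sin (Real.pi * (w - 1 + 1 / n)) ≠ 0 := by
      have := sin_ne (z := w - 1 + 1 / n) (by rw [← e5, e3]; linarith only [h1, a2, h']) (by rw [← e5, e3]; linarith only [h1, a3])
      exact fun h => this (by rw [h, mul_zero])
    rw [h5, h6, e5, e6]
    rw [e6] at hs
    have hs' : Complex.sin (Real.pi * (w + 1 / n)) ≠ 0 := fun h => hs (by rw [h, neg_zero])
    field_simp

theorem Pn_nat {n : ℕ} (hn : 4 ≤ n) {k : ℕ} (hk : k < n) : Pn n (k / n) = ((fS n k : ℝ) : ℂ) := by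
  obtain ⟨a1, a2, a3⟩ := half_n hn
  have hn0 : (0 : ℝ) < n := by
    have : 0 < n := by omega
    exact_mod_cast this
  have hnc : (n : ℂ) ≠ 0 := by exact_mod_cast hn0.ne'
  have hre : ((k : ℂ) / n).re = k / n := by
    have : (k : ℂ) / n = ((k / n : ℝ) : ℂ) := by push_cast; rfl
    rw [this, ofReal_re]
  have h1 : (k : ℝ) / n ≤ 1 - 1 / n := by
    rw [div_le_iff₀ hn0]
    have : (1 - 1 / (n : ℝ)) * n = n - 1 := by field_simp
    rw [this]
    have : (k : ℝ) + 1 ≤ n := by exact_mod_cast hk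
    linarith only [this]
  have h0 : (0 : ℝ) ≤ k / n := by positivity
  rw [Pn_eq_Qn hn (by rw [hre]; linarith only [a1, a2, h0]) (by rw [hre]; linarith only [a1, a2, h1]), Qn, fS_eq_cexp hk]
  congr 3
  push_cast
  field_simp

theorem Pn_nat_zero {n : ℕ} (hn : 4 ≤ n) {k : ℕ} (hk : n ≤ k) : Pn n (k / n) = 0 := by
  obtain ⟨a1, a2, a3⟩ := half_n hn
  have hn0 : (0 : ℝ) < n := by
    have : 0 < n := by omega
    exact_mod_cast this
  have hnc : (n : ℂ) ≠ 0 := by exact_mod_cast hn0.ne'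
  have hre : ((k : ℂ) / n).re = k / n := by
    have : (k : ℂ) / n = ((k / n : ℝ) : ℂ) := by push_cast; rfl
    rw [this, ofReal_re]
  have h1 : 1 ≤ (k : ℝ) / n := by
    rw [le_div_iff₀ hn0, one_mul]
    exact_mod_cast hk
  rw [Pn_eq_two hn (by rw [hre]; linarith only [a1, h1])]
  have : (Real.pi : ℂ) * (n * ((k : ℂ) / n - 1)) = ((k - n : ℕ) : ℂ) * Real.pi := by
    rw [Nat.cast_sub hk]
    field_simp
  rw [this, Complex.sin_nat_mul_pi]
  simp

/-- the reflection formula -/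
theorem Pn_refl {n : ℕ} (hn : 4 ≤ n) {w : ℂ} (h0 : -(1 / (n : ℝ)) < w.re) (h1 : w.re < 1) :
    Pn n w * Pn n (1 - 1 / n - w) = n := by
  obtain ⟨a1, a2, a3⟩ := half_n hn
  have hn0 : (0 : ℝ) < n := by
    have : 0 < n := by omega
    exact_mod_cast this
  have hnc : (n : ℂ) ≠ 0 := by exact_mod_cast hn0.ne'
  have hsq : ((√(n : ℝ) : ℝ) : ℂ) * ((√(n : ℝ) : ℝ) : ℂ) = n := by
    rw [← Complex.ofReal_mul, Real.mul_self_sqrt hn0.le]
    simp
  -- the middle of the strip
  have mid : ∀ v : ℂ, -(1 / (2 * (n : ℝ))) < v.re → v.re < 1 - 1 / (2 * (n : ℝ)) →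
      Pn n v * Pn n (1 - 1 / n - v) = n := by
    intro v b0 b1
    have e : (1 - 1 / n - v).re = 1 - 1 / n - v.re := by rw [sub_re, sub_re, re_one_div, one_re]
    rw [Pn_eq_Qn hn b0 b1, Pn_eq_Qn hn (by rw [e]; linarith only [a2, b1]) (by rw [e]; linarith only [a2, b0]), Qn, Qn]
    have e2 : 1 - 1 / n - v + 1 / (2 * n) = 1 - (v + 1 / (2 * n)) := by
      field_simp
      ring
    rw [e2, M_one_sub]
    calc _ = (((√(n : ℝ) : ℝ) : ℂ) * ((√(n : ℝ) : ℝ) : ℂ)) *
          (cexp (M n (v + 1 / (2 * n))) * cexp (-M n (v + 1 / (2 * n)))) := by ring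
      _ = n := by rw [hsq, ← Complex.exp_add, add_neg_cancel, Complex.exp_zero, mul_one]
  have e2 : (w + 1 / n).re = w.re + 1 / n := by rw [add_re, re_one_div]
  have e1 : (w - 1 / n).re = w.re - 1 / n := by rw [sub_re, re_one_div]
  rcases lt_or_ge (-(1 / (2 * (n : ℝ)))) w.re with h | h
  · rcases lt_or_ge w.re (1 - 1 / (2 * (n : ℝ))) with h' | h'
    · exact mid w h h'
    · -- near `1`
      have m := mid (w - 1 / n) (by rw [e1]; linarith only [a3, h']) (by rw [e1]; linarith only [h1, a1, a2])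
      have s1 := Pn_step hn (w := w - 1 / n) (by rw [e1]; linarith only [h0, a2, a3, h']) (by rw [e1]; linarith only [h1, a1])
      have e3 : (1 - 1 / n - w).re = 1 - 1 / n - w.re := by rw [sub_re, sub_re, re_one_div, one_re]
      have s2 := Pn_step hn (w := 1 - 1 / n - w) (by rw [e3]; linarith only [h1]) (by rw [e3]; linarith only [h0])
      rw [sub_add_cancel] at s1
      have e4 : 1 - 1 / n - w + 1 / n = 1 - w := by ring
      have e5 : 1 - 1 / n - (w - 1 / n) = 1 - w := by ring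
      rw [e4] at s2
      rw [e5, s2] at m
      have e6 : Complex.sin (Real.pi * (1 - w)) = Complex.sin (Real.pi * w) := by
        have : (Real.pi : ℂ) * (1 - w) = Real.pi - Real.pi * w := by ring
        rw [this, Complex.sin_pi_sub]
      rw [e6] at m
      rw [s1]
      linear_combination m
  · have m := mid (w + 1 / n) (by rw [e2]; linarith only [h0, a2, h]) (by rw [e2]; linarith only [h0, a2, a3, h])
    have s1 := Pn_step hn (w := w) h0 h1
    have e3 : (1 - 1 / n - (w + 1 / n)).re = 1 - 1 / n - (w.re + 1 / n) := by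
      rw [sub_re, sub_re, re_one_div, one_re, e2]
    have s2 := Pn_step hn (w := 1 - 1 / n - (w + 1 / n)) (by rw [e3]; linarith only [h0, a2, a3, h]) (by rw [e3]; linarith only [h0, a2, h])
    rw [sub_add_eq_sub_sub, sub_add_cancel] at s2
    rw [s1, sub_add_eq_sub_sub] at m
    have e6 : Complex.sin (Real.pi * (1 - 1 / n - w)) = Complex.sin (Real.pi * (w + 1 / n)) := by
      have : (Real.pi : ℂ) * (1 - 1 / n - w) = Real.pi - Real.pi * (w + 1 / n) := by ring
      rw [this, Complex.sin_pi_sub]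
    rw [s2, e6]
    linear_combination m

/-! ### the reciprocal -/

theorem Rn_mul {n : ℕ} (hn : 4 ≤ n) {w : ℂ} (h0 : -(1 / (n : ℝ)) < w.re) (h1 : w.re < 1) :
    Rn n w * Pn n w = 1 := by
  have hnc : (n : ℂ) ≠ 0 := by
    have : n ≠ 0 := by omega
    exact_mod_cast this
  rw [Rn, div_mul_eq_mul_div, mul_comm, Pn_refl hn h0 h1, div_self hnc]

theorem Rn_eq {n : ℕ} (hn : 4 ≤ n) {w : ℂ} (h0 : -(1 / (n : ℝ)) < w.re) (h1 : w.re < 1) :
    Rn n w = (Pn n w)⁻¹ := eq_inv_of_mul_eq_one_left (Rn_mul hn h0 h1)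

theorem differentiableAt_Rn {n : ℕ} (hn : 4 ≤ n) {w : ℂ} (h0 : -1 - 3 / (2 * (n : ℝ)) < w.re)
    (h1 : w.re < 1) : DifferentiableAt ℂ (Rn n) w := by
  obtain ⟨a1, a2, a3⟩ := half_n hn
  have a4 : 3 / (2 * (n : ℝ)) = 3 * (1 / n / 2) := by field_simp
  have e3 : (1 - 1 / n - w).re = 1 - 1 / n - w.re := by rw [sub_re, sub_re, re_one_div, one_re]
  have h := differentiableAt_Pn hn (w := 1 - 1 / n - w) (by rw [e3]; linarith only [h1]) (by rw [e3]; linarith only [h0, a2, a4])
  have h3 : DifferentiableAt ℂ (fun w : ℂ => 1 - 1 / (n : ℂ) - w) w := by fun_prop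
  unfold Rn
  exact (h.comp w h3).div_const _

theorem Rn_nat {n : ℕ} (hn : 4 ≤ n) {k : ℕ} (hk : k < n) :
    Rn n (k / n) = ((1 / fS n k : ℝ) : ℂ) := by
  obtain ⟨a1, a2, a3⟩ := half_n hn
  have hn0 : (0 : ℝ) < n := by
    have : 0 < n := by omega
    exact_mod_cast this
  have hre : ((k : ℂ) / n).re = k / n := by
    have : (k : ℂ) / n = ((k / n : ℝ) : ℂ) := by push_cast; rfl
    rw [this, ofReal_re]
  have h1 : (k : ℝ) / n < 1 := by
    rw [div_lt_one hn0]
    exact_mod_cast hk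
  have h0 : (0 : ℝ) ≤ k / n := by positivity
  rw [Rn_eq hn (by rw [hre]; linarith only [a1, h0]) (by rw [hre]; exact h1), Pn_nat hn hk]
  push_cast
  rw [one_div]

theorem Rn_neg_nat {n : ℕ} (hn : 4 ≤ n) {k : ℕ} (hk : 1 ≤ k) : Rn n (-(k / n)) = 0 := by
  have hnc : (n : ℂ) ≠ 0 := by
    have : n ≠ 0 := by omega
    exact_mod_cast this
  have h := Pn_nat_zero hn (k := n - 1 + k) (by omega)
  have e : (((n - 1 + k : ℕ) : ℂ) / n) = 1 - 1 / n - -(k / n) := by
    rw [Nat.cast_add, Nat.cast_sub (by omega)]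
    push_cast
    field_simp
    ring
  rw [e] at h
  rw [Rn, h, zero_div]

end Pool.Agent.Work.MP_b30479_gt.G2
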