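import Pool.Agent.Work.MP_b30479_gt.LT.Interp
import Pool.Agent.Work.MP_b30479_gt.G2.PnDef

/-!
# Local limit of `Pn`, conjugation
-/

namespace Pool.Agent.Work.MP_b30479_gt.G2

open Finset VOL AX Complex MeasureTheory

/-- the error of the expansion -/
noncomputable def En (n : ℕ) (w : ℂ) : ℂ := M n (w + 1 / (2 * n)) - n * Fh w - ph w / 2

theorem Pn_eq_exp {n : ℕ} (hn : 4 ≤ n) {w : ℂ} (h0 : -(1 / (2 * (n : ℝ))) < w.re)
    (h1 : w.re < 1 - 1 / (2 * (n : ℝ))) :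
    Pn n w = ((√(n : ℝ) : ℝ) : ℂ) * cexp (n * Fh w + ph w / 2 + En n w) := by
  rw [Pn_eq_Qn hn h0 h1, Qn, En]
  congr 2
  ring

theorem Rn_eq_exp {n : ℕ} (hn : 4 ≤ n) {w : ℂ} (h0 : -(1 / (2 * (n : ℝ))) < w.re)
    (h1 : w.re < 1 - 1 / (2 * (n : ℝ))) :
    Rn n w = (((√(n : ℝ))⁻¹ : ℝ) : ℂ) * cexp (-(n * Fh w + ph w / 2 + En n w)) := by
  obtain ⟨a1, a2, a3⟩ := half_n hn
  rw [Rn_eq hn (by linarith only [h0, a1, a2]) (by linarith only [h1, a1, a2]), Pn_eq_exp hn h0 h1, mul_inv, Complex.exp_neg]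
  push_cast
  rfl

/-- **The local limit**: the error is `O(1/n)`. -/
theorem norm_En_le {δ : ℝ} (hδ : 0 < δ) (hδ2 : δ ≤ 1 / 2) : ∃ C : ℝ, 0 ≤ C ∧ ∀ (n : ℕ) (w : ℂ),
    0 < n → 1 / (n : ℝ) ≤ δ → w ∈ LT.Sd δ → ‖En n w‖ ≤ C / n := by
  have hpi := Real.pi_pos
  have hδ' : 0 < δ / 2 := by linarith only [hδ]
  have hδ2' : δ / 2 ≤ 1 / 2 := by linarith only [hδ, hδ2]
  set sδ : ℝ := Real.sin (Real.pi * (δ / 2)) with hsδ
  have hs : 0 < sδ := VOL.sin_pi_pos hδ' (by linarith only [hδ, hδ2])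
  refine ⟨1 / (2 * Real.pi * sδ) + Real.pi / sδ, by positivity, fun n w hn hnδ hw => ?_⟩
  have hn0 : (0 : ℝ) < n := by exact_mod_cast hn
  have hn1 : (1 : ℝ) ≤ n := by exact_mod_cast hn
  have hnc : (n : ℂ) ≠ 0 := by exact_mod_cast hn0.ne'
  have e : (1 : ℂ) / (2 * n) = ((1 / (2 * (n : ℝ)) : ℝ) : ℂ) := by push_cast; rfl
  have a2 : 1 / (2 * (n : ℝ)) = 1 / n / 2 := by field_simp
  have hw' : w ∈ LT.Sd (δ / 2) := ⟨by linarith only [hδ, hw, hw.1], by linarith only [hδ, hw, hw.2]⟩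
  have hv : w + 1 / (2 * n) ∈ LT.Sd (δ / 2) := by
    refine ⟨?_, ?_⟩
    · rw [e, add_re, ofReal_re, a2]
      have : 0 < 1 / (n : ℝ) := by positivity
      linarith only [hδ, this, hw, hw.1]
    · rw [e, add_re, ofReal_re, a2]
      linarith only [hnδ, hw, hw.2]
  have hT := LT.Fh_taylor hδ' hδ2' hv hw'
  have hJ := LT.norm_J_Sd hδ' hδ2' hn0 hv
  rw [← hsδ] at hT hJ
  rw [add_sub_cancel_left] at hT
  have hid : En n w = n * (Fh (w + 1 / (2 * n)) - Fh w - 1 / (2 * n) * ph w) +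
      J n (w + 1 / (2 * n)) := by
    have hM : M n (w + 1 / (2 * n)) = n * Fh (w + 1 / (2 * n)) + J n (w + 1 / (2 * n)) := by
      unfold M
      push_cast
      rfl
    rw [En, hM]
    field_simp
    ring
  rw [hid]
  refine (norm_add_le _ _).trans ?_
  have h1 : ‖(n : ℂ) * (Fh (w + 1 / (2 * n)) - Fh w - 1 / (2 * n) * ph w)‖ ≤ Real.pi / sδ / n := by
    rw [norm_mul, Complex.norm_natCast]
    have h2 : ‖(1 : ℂ) / (2 * n)‖ = 1 / (2 * n) := by
      rw [e, Complex.norm_real, Real.norm_of_nonneg (by positivity)]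
    rw [h2] at hT
    calc n * _ ≤ n * (Real.pi / sδ * (1 / (2 * (n : ℝ))) ^ 2) := mul_le_mul_of_nonneg_left hT hn0.le
      _ = Real.pi / sδ / n * (1 / 4) := by
        field_simp
        norm_num
      _ ≤ Real.pi / sδ / n := by
        have : 0 ≤ Real.pi / sδ / n := by positivity
        linarith only [this]
  calc _ ≤ Real.pi / sδ / n + 1 / (2 * Real.pi * sδ) / n := add_le_add h1 hJ
    _ = _ := by ring

/-! ### conjugation -/

theorem conj_natCast_div (n : ℕ) (w : ℂ) : starRingEnd ℂ w + 1 / n = starRingEnd ℂ (w + 1 / n) := by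
  rw [map_add, map_div₀, map_one, map_natCast]

theorem conj_sin (z : ℂ) : 2 * Complex.sin (Real.pi * starRingEnd ℂ z) =
    starRingEnd ℂ (2 * Complex.sin (Real.pi * z)) := by
  rw [map_mul, ← Complex.sin_conj, map_mul, conj_ofReal, Complex.conj_ofNat]

theorem Qn_conj {n : ℕ} {w : ℂ} (h0 : -(1 / (2 * (n : ℝ))) < w.re)
    (h1 : w.re < 1 - 1 / (2 * (n : ℝ))) : Qn n (starRingEnd ℂ w) = starRingEnd ℂ (Qn n w) := by
  have e : (1 : ℂ) / (2 * n) = ((1 / (2 * (n : ℝ)) : ℝ) : ℂ) := by push_cast; rfl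
  have hs : w + 1 / (2 * n) ∈ strip := by
    refine ⟨?_, ?_⟩
    · rw [add_re, re_one_div_two]; linarith only [h0]
    · rw [add_re, re_one_div_two]; linarith only [h1]
  rw [Qn, Qn, map_mul, conj_ofReal, ← Complex.exp_conj, ← M_conj hs, map_add, e, conj_ofReal]

theorem P1_conj {n : ℕ} (hn : 4 ≤ n) {w : ℂ} (h0 : -(1 / (n : ℝ)) < w.re) (h1 : w.re ≤ 1) :
    P1 n (starRingEnd ℂ w) = starRingEnd ℂ (P1 n w) := by
  obtain ⟨a1, a2, a3⟩ := half_n hn
  have e0 : (starRingEnd ℂ w).re = w.re := conj_re w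
  unfold P1
  rw [e0]
  split_ifs with h
  · have e2 : (w + 1 / n).re = w.re + 1 / n := by rw [add_re, re_one_div]
    rw [conj_natCast_div, Qn_conj (by rw [e2]; linarith only [h0, a1, a2]) (by rw [e2]; linarith only [a1, a2, a3, h]), conj_sin, map_div₀]
  · push Not at h
    have e1 : (w - 1 / n).re = w.re - 1 / n := by rw [sub_re, re_one_div]
    have e3 : starRingEnd ℂ w - 1 / n = starRingEnd ℂ (w - 1 / n) := by
      rw [map_sub, map_div₀, map_one, map_natCast]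
    rw [e3, Qn_conj (by rw [e1]; linarith only [a1, a2, a3, h]) (by rw [e1]; linarith only [h1, a1, a2]), conj_sin, ← map_mul]

theorem Pn_conj {n : ℕ} (hn : 4 ≤ n) {w : ℂ} (h0 : -(1 / (n : ℝ)) < w.re) (h1 : w.re ≤ 2) :
    Pn n (starRingEnd ℂ w) = starRingEnd ℂ (Pn n w) := by
  obtain ⟨a1, a2, a3⟩ := half_n hn
  have e0 : (starRingEnd ℂ w).re = w.re := conj_re w
  unfold Pn
  rw [e0]
  split_ifs with h
  · exact P1_conj hn h0 h
  · push Not at h
    have e1 : (w - 1).re = w.re - 1 := by simp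
    have e3 : starRingEnd ℂ w - 1 = starRingEnd ℂ (w - 1) := by rw [map_sub, map_one]
    have e4 : (n : ℂ) * starRingEnd ℂ (w - 1) = starRingEnd ℂ (n * (w - 1)) := by
      rw [map_mul, map_natCast]
    rw [e3, e4, conj_sin, P1_conj hn (by rw [e1]; linarith only [a1, h]) (by rw [e1]; linarith only [h1]), ← map_neg, ← map_mul]

theorem Rn_conj {n : ℕ} (hn : 4 ≤ n) {w : ℂ} (h0 : -1 - 1 / (n : ℝ) ≤ w.re) (h1 : w.re < 1) :
    Rn n (starRingEnd ℂ w) = starRingEnd ℂ (Rn n w) := by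
  have e3 : (1 - 1 / n - w).re = 1 - 1 / n - w.re := by rw [sub_re, sub_re, re_one_div, one_re]
  have e4 : 1 - 1 / (n : ℂ) - starRingEnd ℂ w = starRingEnd ℂ (1 - 1 / n - w) := by
    rw [map_sub, map_sub, map_div₀, map_one, map_natCast]
  rw [Rn, Rn, e4, Pn_conj hn (by rw [e3]; linarith only [h1]) (by rw [e3]; linarith only [h0]), map_div₀, map_natCast]

theorem Pn_zero {n : ℕ} (hn : 4 ≤ n) : Pn n 0 = 1 := by
  have h := Pn_nat hn (k := 0) (by omega)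
  simpa [fS] using h

end Pool.Agent.Work.MP_b30479_gt.G2
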