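import Pool.Agent.Work.MP_b30479_gt.G2.CDefs
import Pool.Agent.Work.MP_b30479_gt.G2.PnLim
import Pool.Agent.Work.MP_b30479_gt.LT.Lim

/-!
# The interpolating function `SE`
-/

namespace Pool.Agent.Work.MP_b30479_gt.G2

open Finset VOL AX Pool.Agent.Work.MP_b30479_gt.LT MeasureTheory Filter Topology Complex

/-! ### functional equation on the whole domain -/

theorem Pn_step' {n : ℕ} (hn : 4 ≤ n) {w : ℂ} (h0 : -(1 / (n : ℝ)) < w.re)
    (h1 : w.re < 2 - 1 / (2 * (n : ℝ))) :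
    Pn n (w + 1 / n) = 2 * Complex.sin (Real.pi * (w + 1 / n)) * Pn n w := by
  rcases lt_or_ge w.re 1 with h | h
  · exact Pn_step hn h0 h
  obtain ⟨a1, a2, a3⟩ := half_n hn
  have hn0 : (n : ℂ) ≠ 0 := by
    have : n ≠ 0 := by omega
    exact_mod_cast this
  have e2 : (w + 1 / n).re = w.re + 1 / n := by rw [add_re, re_one_div]
  have e4 : (w - 1).re = w.re - 1 := by rw [sub_re, one_re]
  have e3 : (w - 1 + 1 / n).re = w.re - 1 + 1 / n := by rw [add_re, re_one_div, e4]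
  have hs := Pn_step hn (w := w - 1) (by rw [e4]; linarith only [h, a1]) (by rw [e4]; linarith only [h1, a1, a2])
  rw [Pn_eq_P1 hn (w := w - 1 + 1 / n) (by rw [e3]; linarith only [h1, a2]),
    Pn_eq_P1 hn (w := w - 1) (by rw [e4]; linarith only [h1, a1, a2])] at hs
  have e5 : w + 1 / n - 1 = w - 1 + 1 / n := by ring
  have hw : 2 * Complex.sin (Real.pi * (n * (w - 1 + 1 / n))) =
      -(2 * Complex.sin (Real.pi * (n * (w - 1)))) := by
    have : (Real.pi : ℂ) * (n * (w - 1 + 1 / n)) = Real.pi * (n * (w - 1)) + Real.pi := by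
      field_simp
    rw [this, Complex.sin_add_pi]
    ring
  have e6 : Complex.sin (Real.pi * (w - 1 + 1 / n)) = -Complex.sin (Real.pi * (w + 1 / n)) := by
    have : (Real.pi : ℂ) * (w - 1 + 1 / n) = Real.pi * (w + 1 / n) - Real.pi := by ring
    rw [this, Complex.sin_sub_pi]
  rw [Pn_eq_two hn (w := w + 1 / n) (by rw [e2]; linarith only [h, a1]), Pn_eq_two hn (w := w) (by linarith only [h, a1]), e5,
    hw, hs, e6]
  ring

theorem re_nat_div (m n : ℕ) : ((m : ℂ) / n).re = m / n := by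
  have : (m : ℂ) / n = ((m / n : ℝ) : ℂ) := by push_cast; rfl
  rw [this, ofReal_re]

theorem Pn_iter {n : ℕ} (hn : 4 ≤ n) {v : ℂ} (h0 : -(1 / (n : ℝ)) < v.re) (m : ℕ)
    (h1 : v.re + m / n < 2 + 1 / (2 * (n : ℝ))) : Pn n (v + m / n) = Pn n v *
      ∏ j ∈ range m, 2 * Complex.sin (Real.pi * (v + (j + 1 : ℕ) / n)) := by
  obtain ⟨a1, a2, a3⟩ := half_n hn
  have hn0 : (0 : ℝ) < n := by
    have : 0 < n := by omega
    exact_mod_cast this
  induction m with
  | zero => simp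
  | succ m ih =>
    have e : ((m + 1 : ℕ) : ℝ) / n = m / n + 1 / n := by push_cast; ring
    have e1 : v + ((m + 1 : ℕ) : ℂ) / n = (v + m / n) + 1 / n := by push_cast; ring
    have e2 : (v + m / n).re = v.re + m / n := by rw [add_re, re_nat_div]
    have hm : (0 : ℝ) ≤ m / n := by positivity
    rw [e] at h1
    rw [e1, Pn_step' hn (by rw [e2]; linarith only [h0, hm]) (by rw [e2]; linarith only [a2, h1]), ih (by linarith only [a1, h1]),
      Finset.prod_range_succ, ← e1]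
    ring

/-! ### `SE` and `Pn` -/

theorem sqrt_ne {n : ℕ} (hn : 4 ≤ n) : ((√(n : ℝ) : ℝ) : ℂ) ≠ 0 := by
  have hn0 : (0 : ℝ) < n := by
    have : 0 < n := by omega
    exact_mod_cast this
  exact_mod_cast (Real.sqrt_pos.2 hn0).ne'

theorem SE_eq (n : ℕ) (u : ℂ) : SE n u = Pn n (u - 1 / (2 * n)) / ((√(n : ℝ) : ℝ) : ℂ) := rfl

theorem SE_eq_Pn {n : ℕ} (hn : 4 ≤ n) (u : ℂ) :
    ((√(n : ℝ) : ℝ) : ℂ) * SE n u = Pn n (u - 1 / (2 * n)) := by
  rw [SE_eq, mul_div_cancel₀ _ (sqrt_ne hn)]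

/-- in the first strip -/
theorem SE_eq_exp {n : ℕ} (hn : 4 ≤ n) {u : ℂ} (h0 : 0 < u.re) (h1 : u.re < 1) :
    SE n u = cexp (M n u) := by
  obtain ⟨a1, a2, a3⟩ := half_n hn
  have e1 : (u - 1 / (2 * n)).re = u.re - 1 / (2 * n) := by rw [sub_re, re_one_div_two]
  rw [SE_eq, Pn_eq_Qn hn (by rw [e1]; linarith only [h0]) (by rw [e1]; linarith only [h1]), Qn,
    sub_add_cancel, mul_div_cancel_left₀ _ (sqrt_ne hn)]

/-- in the second strip -/
theorem SE_add_one {n : ℕ} (hn : 4 ≤ n) {u : ℂ} (h0 : 1 < u.re) (h1 : u.re < 2) :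
    SE n u = 2 * Complex.cos (Real.pi * n * (u - 1)) * cexp (M n (u - 1)) := by
  obtain ⟨a1, a2, a3⟩ := half_n hn
  have hn0 : (0 : ℝ) < n := by
    have : 0 < n := by omega
    exact_mod_cast this
  have hnc : (n : ℂ) ≠ 0 := by exact_mod_cast hn0.ne'
  have e1 : (u - 1 / (2 * n)).re = u.re - 1 / (2 * n) := by rw [sub_re, re_one_div_two]
  have e4 : (u - 1 / (2 * n) - 1).re = u.re - 1 / (2 * n) - 1 := by rw [sub_re, one_re, e1]
  have e5 : u - 1 / (2 * (n : ℂ)) - 1 = u - 1 - 1 / (2 * n) := by ring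
  have e6 : (Real.pi : ℂ) * (n * (u - 1 - 1 / (2 * n))) = Real.pi * n * (u - 1) - Real.pi / 2 := by
    field_simp
  rw [SE_eq, Pn_eq_two hn (by rw [e1]; linarith only [h0, a1, a2]),
    P1_eq hn (w := u - 1 / (2 * n) - 1) (by rw [e4]; linarith only [h0]) (by rw [e4]; linarith only [h1]), e5, e6,
    Complex.sin_sub_pi_div_two, Qn, sub_add_cancel]
  have := sqrt_ne hn
  field_simp

/-- `SE` is holomorphic on `0 < Re u < 2` -/
theorem differentiableAt_SE {n : ℕ} (hn : 4 ≤ n) {u : ℂ} (h0 : 0 < u.re) (h1 : u.re < 2) :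
    DifferentiableAt ℂ (SE n) u := by
  obtain ⟨a1, a2, a3⟩ := half_n hn
  have e1 : (u - 1 / (2 * n)).re = u.re - 1 / (2 * n) := by rw [sub_re, re_one_div_two]
  have h3 : DifferentiableAt ℂ (fun u : ℂ => u - 1 / (2 * (n : ℂ))) u := by fun_prop
  exact ((differentiableAt_Pn hn (by rw [e1]; linarith only [h0, a1, a2]) (by rw [e1]; linarith only [h1, a1, a2])).comp u h3).div_const _

/-- the functional equation -/
theorem SE_step {n : ℕ} (hn : 4 ≤ n) {u : ℂ} (h0 : 0 < u.re) (h1 : u.re + 1 / n < 2) :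
    SE n (u + 1 / n) = 2 * Complex.sin (Real.pi * (u + 1 / (2 * n))) * SE n u := by
  obtain ⟨a1, a2, a3⟩ := half_n hn
  have hn0 : (0 : ℝ) < n := by
    have : 0 < n := by omega
    exact_mod_cast this
  have hnc : (n : ℂ) ≠ 0 := by exact_mod_cast hn0.ne'
  have e1 : (u - 1 / (2 * n)).re = u.re - 1 / (2 * n) := by rw [sub_re, re_one_div_two]
  have e2 : (u + 1 / n).re = u.re + 1 / n := by rw [add_re, re_one_div]
  rw [SE_eq, SE_eq]
  have e3 : u + 1 / (n : ℂ) - 1 / (2 * n) = (u - 1 / (2 * n)) + 1 / n := by ring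
  rw [e3, Pn_step' hn (by rw [e1]; linarith only [h0, a1, a2]) (by rw [e1]; linarith only [h1, a1]), mul_div_assoc]
  congr 3
  have e4 : u - 1 / (2 * (n : ℂ)) + 1 / n = u + 1 / (2 * n) := by
    field_simp
    ring
  rw [e4]

/-- the reflection formula -/
theorem SE_refl {n : ℕ} (hn : 4 ≤ n) {u : ℂ} (h0 : 0 < u.re) (h1 : u.re < 1) :
    SE n u * SE n (1 - u) = 1 := by
  have e : (1 - u).re = 1 - u.re := by rw [sub_re, one_re]
  rw [SE_eq_exp hn h0 h1, SE_eq_exp hn (by rw [e]; linarith only [h1]) (by rw [e]; linarith only [h0]), M_one_sub,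
    ← Complex.exp_add, add_neg_cancel, Complex.exp_zero]

theorem SE_ne_zero {n : ℕ} (hn : 4 ≤ n) {u : ℂ} (h0 : 0 < u.re) (h1 : u.re < 1) : SE n u ≠ 0 := by
  rw [SE_eq_exp hn h0 h1]
  exact Complex.exp_ne_zero _

theorem SE_conj {n : ℕ} (hn : 4 ≤ n) {u : ℂ} (h0 : 0 < u.re) (h1 : u.re < 2) :
    SE n (starRingEnd ℂ u) = starRingEnd ℂ (SE n u) := by
  obtain ⟨a1, a2, a3⟩ := half_n hn
  have e1 : (u - 1 / (2 * n)).re = u.re - 1 / (2 * n) := by rw [sub_re, re_one_div_two]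
  have e2 : starRingEnd ℂ u - 1 / (2 * (n : ℂ)) = starRingEnd ℂ (u - 1 / (2 * n)) := by
    rw [map_sub, map_div₀, map_mul, map_one, Complex.conj_natCast]
    congr 3
    exact (Complex.conj_ofNat 2).symm
  rw [SE_eq, SE_eq, e2, Pn_conj hn (by rw [e1]; linarith only [h0, a1, a2]) (by rw [e1]; linarith only [h1, a1, a2]), map_div₀,
    Complex.conj_ofReal]

/-! ### values -/

/-- `fS n k = √n SE((k + 1/2)/n)` for `k < n` -/
theorem SE_fS {n : ℕ} (hn : 4 ≤ n) {k : ℕ} (hk : k < n) :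
    ((√(n : ℝ) : ℝ) : ℂ) * SE n (((k : ℂ) + 1 / 2) / n) = ((fS n k : ℝ) : ℂ) := by
  have hn0 : (0 : ℝ) < n := by
    have : 0 < n := by omega
    exact_mod_cast this
  have hnc : (n : ℂ) ≠ 0 := by exact_mod_cast hn0.ne'
  have hre : (((k : ℂ) + 1 / 2) / n).re = (k + 1 / 2) / n := by
    have : ((k : ℂ) + 1 / 2) / n = ((((k : ℝ) + 1 / 2) / n : ℝ) : ℂ) := by push_cast; rfl
    rw [this, ofReal_re]
  have h2 : ((k : ℝ) + 1 / 2) / n < 2 := by
    rw [div_lt_iff₀ hn0]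
    have : (k : ℝ) + 1 ≤ n := by exact_mod_cast hk
    linarith only [hn0, this]
  rw [SE_eq_Pn hn]
  have e : ((k : ℂ) + 1 / 2) / n - 1 / (2 * n) = k / n := by
    field_simp
    ring
  rw [e, Pn_nat hn hk]

/-- zeros at half integers beyond `1` -/
theorem SE_zero {n : ℕ} (hn : 4 ≤ n) {k : ℕ} (hk : n ≤ k) (hk2 : k < 2 * n) :
    SE n (((k : ℂ) + 1 / 2) / n) = 0 := by
  have hn0 : (0 : ℝ) < n := by
    have : 0 < n := by omega
    exact_mod_cast this
  have hnc : (n : ℂ) ≠ 0 := by exact_mod_cast hn0.ne'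
  have hre : (((k : ℂ) + 1 / 2) / n).re = (k + 1 / 2) / n := by
    have : ((k : ℂ) + 1 / 2) / n = ((((k : ℝ) + 1 / 2) / n : ℝ) : ℂ) := by push_cast; rfl
    rw [this, ofReal_re]
  have h2 : ((k : ℝ) + 1 / 2) / n < 2 := by
    rw [div_lt_iff₀ hn0]
    have : (k : ℝ) + 1 ≤ 2 * n := by exact_mod_cast hk2
    linarith only [this]
  have e : ((k : ℂ) + 1 / 2) / n - 1 / (2 * n) = k / n := by
    field_simp
    ring
  rw [SE_eq, e, Pn_nat_zero hn hk, zero_div]

theorem fS_eq_zero {n k : ℕ} (hn : 0 < n) (hk : n ≤ k) : fS n k = 0 := by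
  unfold fS
  apply Finset.prod_eq_zero (i := n - 1) (Finset.mem_range.2 (by omega))
  have hn0 : (n : ℝ) ≠ 0 := by exact_mod_cast hn.ne'
  have : Real.pi * (((n - 1 : ℕ) : ℝ) + 1) / n = Real.pi := by
    rw [Nat.cast_sub (by omega)]
    push_cast
    field_simp
    ring
  rw [this, Real.sin_pi, mul_zero]

/-- `fS n k = √n SE((k + 1/2)/n)` for `k < 2n` -/
theorem SE_fS' {n : ℕ} (hn : 4 ≤ n) {k : ℕ} (hk : k < 2 * n) :
    ((√(n : ℝ) : ℝ) : ℂ) * SE n (((k : ℂ) + 1 / 2) / n) = ((fS n k : ℝ) : ℂ) := by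
  rcases lt_or_ge k n with h | h
  · exact SE_fS hn h
  · rw [SE_zero hn h hk, fS_eq_zero (by omega) h, mul_zero, ofReal_zero]

/-- `1 / fS n k = SE((n - k - 1/2)/n) / √n` for `k < n` -/
theorem SE_inv_fS {n : ℕ} (hn : 4 ≤ n) {k : ℕ} (hk : k < n) :
    SE n (((n : ℂ) - k - 1 / 2) / n) / ((√(n : ℝ) : ℝ) : ℂ) = ((1 / fS n k : ℝ) : ℂ) := by
  have hn0 : (0 : ℝ) < n := by
    have : 0 < n := by omega
    exact_mod_cast this
  have hnc : (n : ℂ) ≠ 0 := by exact_mod_cast hn0.ne'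
  have hk' : (k : ℝ) + 1 ≤ n := by exact_mod_cast hk
  have hre : (((k : ℂ) + 1 / 2) / n).re = (k + 1 / 2) / n := by
    have : ((k : ℂ) + 1 / 2) / n = ((((k : ℝ) + 1 / 2) / n : ℝ) : ℂ) := by push_cast; rfl
    rw [this, ofReal_re]
  have h2 : ((k : ℝ) + 1 / 2) / n < 1 := by
    rw [div_lt_iff₀ hn0]
    linarith only [hk']
  have hr := SE_refl hn (u := ((k : ℂ) + 1 / 2) / n) (by rw [hre]; positivity) (by rw [hre]; exact h2)
  have e : (1 : ℂ) - ((k : ℂ) + 1 / 2) / n = ((n : ℂ) - k - 1 / 2) / n := by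
    field_simp
    ring
  rw [e] at hr
  have hf := SE_fS hn hk
  have hfp := fS_pos hk
  have hfc : ((fS n k : ℝ) : ℂ) ≠ 0 := by exact_mod_cast hfp.ne'
  have hs := sqrt_ne hn
  push_cast
  rw [div_eq_div_iff hs hfc, ← hf]
  linear_combination (((√(n : ℝ) : ℝ) : ℂ)) * hr

/-- `SE((n + k + 1/2)/n) = 0`, in the form of the wall `l < w` -/
theorem SE_wall {n : ℕ} (hn : 4 ≤ n) {k : ℕ} (hk : 1 ≤ k) (hk2 : k ≤ n) :
    SE n (((n : ℂ) + k - 1 / 2) / n) = 0 := by
  have h := SE_zero hn (k := n + k - 1) (by omega) (by omega)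
  have e : (((n + k - 1 : ℕ) : ℂ) + 1 / 2) = (n : ℂ) + k - 1 / 2 := by
    rw [Nat.cast_sub (by omega)]
    push_cast
    ring
  rwa [e] at h

/-- products of `2 sin` through `SE` -/
theorem SE_iter {n : ℕ} (hn : 4 ≤ n) {u : ℂ} (h0 : 0 < u.re) (m : ℕ) (h1 : u.re + m / n < 2) :
    SE n (u + m / n) = SE n u *
      ∏ j ∈ range m, 2 * Complex.sin (Real.pi * (u + (j + 1 / 2) / n)) := by
  obtain ⟨a1, a2, a3⟩ := half_n hn
  have hn0 : (0 : ℝ) < n := by
    have : 0 < n := by omega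
    exact_mod_cast this
  have hnc : (n : ℂ) ≠ 0 := by exact_mod_cast hn0.ne'
  induction m with
  | zero => simp
  | succ m ih =>
    have e : ((m + 1 : ℕ) : ℝ) / n = m / n + 1 / n := by push_cast; ring
    have e1 : u + ((m + 1 : ℕ) : ℂ) / n = (u + m / n) + 1 / n := by push_cast; ring
    have e2 : (u + m / n).re = u.re + m / n := by rw [add_re, re_nat_div]
    have hm : (0 : ℝ) ≤ m / n := by positivity
    rw [e] at h1
    have e3 : u + (m : ℂ) / n + 1 / (2 * n) = u + ((m : ℂ) + 1 / 2) / n := by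
      field_simp
      ring
    rw [e1, SE_step hn (by rw [e2]; linarith only [h0, hm]) (by rw [e2]; linarith only [h1]), ih (by linarith only [a1, h1]),
      Finset.prod_range_succ, e3]
    ring

/-- `PP n y ζ = SE(y/n + 1/2 + ζ) SE(y/n + 1/2 - ζ)` -/
theorem SE_PP {n : ℕ} (hn : 4 ≤ n) {y : ℕ} (hy : y ≤ n) {ζ : ℂ} (h : |ζ.re| < 1 / 2) :
    PP n y ζ = SE n ((y : ℂ) / n + 1 / 2 + ζ) * SE n ((y : ℂ) / n + 1 / 2 - ζ) := by
  have hn0 : (0 : ℝ) < n := by
    have : 0 < n := by omega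
    exact_mod_cast this
  have hnc : (n : ℂ) ≠ 0 := by exact_mod_cast hn0.ne'
  obtain ⟨b1, b2⟩ := abs_lt.1 h
  have hyn : (y : ℝ) / n ≤ 1 := by
    rw [div_le_one hn0]
    exact_mod_cast hy
  have r1 : (1 / 2 + ζ).re = 1 / 2 + ζ.re := by rw [add_re]; norm_num
  have r2 : (1 / 2 - ζ).re = 1 / 2 - ζ.re := by rw [sub_re]; norm_num
  have i1 := SE_iter hn (u := 1 / 2 + ζ) (by rw [r1]; linarith only [b1]) y (by rw [r1]; linarith only [b2, hyn])
  have i2 := SE_iter hn (u := 1 / 2 - ζ) (by rw [r2]; linarith only [b2]) y (by rw [r2]; linarith only [b1, hyn])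
  have hr := SE_refl hn (u := 1 / 2 + ζ) (by rw [r1]; linarith only [b1]) (by rw [r1]; linarith only [b2])
  have e0 : (1 : ℂ) - (1 / 2 + ζ) = 1 / 2 - ζ := by ring
  rw [e0] at hr
  have e1 : (y : ℂ) / n + 1 / 2 + ζ = 1 / 2 + ζ + y / n := by ring
  have e2 : (y : ℂ) / n + 1 / 2 - ζ = 1 / 2 - ζ + y / n := by ring
  rw [e1, e2, i1, i2]
  have hpp : PP n y ζ = (∏ j ∈ range y, 2 * Complex.sin (Real.pi * (1 / 2 + ζ + (j + 1 / 2) / n))) *
      ∏ j ∈ range y, 2 * Complex.sin (Real.pi * (1 / 2 - ζ + (j + 1 / 2) / n)) := by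
    unfold PP
    rw [← Finset.prod_mul_distrib]
    refine Finset.prod_congr rfl fun l _ => ?_
    rw [PP_factor (by omega) l ζ]
    congr 4
    · push_cast
      field_simp
      ring
    · push_cast
      field_simp
      ring
  rw [hpp]
  linear_combination (-((∏ j ∈ range y, 2 * Complex.sin (Real.pi * (1 / 2 + ζ + (j + 1 / 2) / n))) *
      ∏ j ∈ range y, 2 * Complex.sin (Real.pi * (1 / 2 - ζ + (j + 1 / 2) / n)))) * hr

/-! ### growth -/

/-- growth with explicit power of `n`, in terms of the quasi-periodic potential `UU` -/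
theorem norm_SE_le {Y : ℝ} (hY : 0 ≤ Y) : ∃ C : ℝ, 0 < C ∧ ∀ (n : ℕ) (u : ℂ), 4 ≤ n →
    0 < u.re → u.re < 2 → |u.im| ≤ Y → ‖SE n u‖ ≤ C * (n : ℝ) ^ 18 * Real.exp (n * UU u) := by
  obtain ⟨C, hC, hP⟩ := norm_Pn_le hY
  obtain ⟨C', hC', hsh⟩ := exp_UU_shift hY
  refine ⟨C * C', by positivity, fun n u hn h0 h1 hu => ?_⟩
  obtain ⟨a1, a2, a3⟩ := half_n hn
  have hn4 : (4 : ℝ) ≤ n := by exact_mod_cast hn
  have hn0 : (0 : ℝ) < n := by linarith only [a1, a3, hn4]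
  have e0 : u - 1 / (2 * n) = u + ((-(1 / (2 * n)) : ℝ) : ℂ) := by push_cast; ring
  have e1 : (u - 1 / (2 * n)).re = u.re - 1 / (2 * n) := by rw [sub_re, re_one_div_two]
  have e2 : (u - 1 / (2 * n)).im = u.im := by rw [e0]; simp
  have h2 := hP n (u - 1 / (2 * n)) hn (by rw [e1]; linarith only [h0]) (by rw [e1]; linarith only [h1, a1, a2])
    (by rw [e2]; exact hu)
  have h3 := (hsh n u (-(1 / (2 * n))) hn (by
    rw [abs_neg, abs_of_nonneg (by positivity), a2]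
    have : 2 / (n : ℝ) = 2 * (1 / n) := by ring
    linarith only [a1, this]) hu).1
  rw [← e0] at h3
  have hsq : 1 ≤ √(n : ℝ) := Real.one_le_sqrt.2 (by linarith only [a1, a3, hn4])
  rw [SE_eq, norm_div, Complex.norm_real, Real.norm_of_nonneg (Real.sqrt_nonneg _)]
  refine (div_le_self (norm_nonneg _) hsq).trans ?_
  calc ‖Pn n (u - 1 / (2 * n))‖ ≤ C * (n : ℝ) ^ 10 * Real.exp (n * UU (u - 1 / (2 * n))) := h2
    _ ≤ C * (n : ℝ) ^ 10 * (C' * (n : ℝ) ^ 8 * Real.exp (n * UU u)) :=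
      mul_le_mul_of_nonneg_left h3 (by positivity)
    _ = _ := by ring

theorem continuous_UU : Continuous UU := by
  have h1 : Continuous fun w : ℂ => (|w.im|, w.re) := by fun_prop
  have h2 := DT.continuous_Lr.comp h1
  unfold UU
  exact h2.sub (by fun_prop)

theorem UU_conj (w : ℂ) : UU (starRingEnd ℂ w) = UU w := by
  unfold UU
  rw [conj_re, conj_im, abs_neg]

/-- polynomial factors are absorbed -/
theorem pow_le_exp_eventually {ε : ℝ} (hε : 0 < ε) (C : ℝ) (k : ℕ) :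
    ∀ᶠ n : ℕ in atTop, C * (n : ℝ) ^ k ≤ Real.exp (n * ε) := by
  have h1 : (fun x : ℝ => x ^ k) =o[atTop] fun x => Real.exp (ε * x) :=
    isLittleO_pow_exp_pos_mul_atTop k hε
  have h2 : (fun x : ℝ => C * x ^ k) =o[atTop] fun x => Real.exp (ε * x) := h1.const_mul_left C
  have h3 := (h2.bound (c := 1) one_pos)
  have h4 := tendsto_natCast_atTop_atTop (R := ℝ) |>.eventually h3
  filter_upwards [h4] with n hn
  rw [one_mul, Real.norm_of_nonneg (Real.exp_pos _).le, mul_comm ε] at hn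
  exact (le_abs_self _).trans hn

/-- **Growth of `SE`**, uniformly on `0 < Re u < 2`, `|Im u| ≤ Y`. -/
theorem norm_SE_le_exp {ε Y : ℝ} (hε : 0 < ε) (hY : 0 ≤ Y) : ∀ᶠ n : ℕ in atTop, ∀ u : ℂ,
    0 < u.re → u.re < 2 → |u.im| ≤ Y → ‖SE n u‖ ≤ Real.exp (n * (UU u + ε)) := by
  obtain ⟨C, hC, h⟩ := norm_SE_le hY
  filter_upwards [pow_le_exp_eventually hε C 18, eventually_ge_atTop 4] with n h1 hn u h0 h2 hu
  refine (h n u hn h0 h2 hu).trans ?_
  rw [mul_add, add_comm, Real.exp_add]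
  exact mul_le_mul_of_nonneg_right h1 (Real.exp_pos _).le

/-- **Growth of `SE` with shifts**, uniformly on `0 < Re u + c / n < 2`, `|Im u| ≤ Y`, `|c| ≤ c₀`. -/
theorem norm_SE_le_exp_shift {ε Y : ℝ} (hε : 0 < ε) (hY : 0 ≤ Y) (c₀ : ℝ) : ∀ᶠ n : ℕ in atTop,
    ∀ (u : ℂ) (c : ℝ), |c| ≤ c₀ → 0 < u.re + c / n → u.re + c / n < 2 → |u.im| ≤ Y →
      ‖SE n (u + ((c / n : ℝ) : ℂ))‖ ≤ Real.exp (n * (UU u + ε)) := by
  have hK : IsCompact {u : ℂ | u.re ∈ Set.Icc (-1 : ℝ) 3 ∧ |u.im| ≤ Y} := by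
    have hcl : IsClosed {u : ℂ | u.re ∈ Set.Icc (-1 : ℝ) 3 ∧ |u.im| ≤ Y} := by
      have h1 : IsClosed {u : ℂ | -1 ≤ u.re} := isClosed_le continuous_const continuous_re
      have h2 : IsClosed {u : ℂ | u.re ≤ 3} := isClosed_le continuous_re continuous_const
      have h3 : IsClosed {u : ℂ | |u.im| ≤ Y} := isClosed_le continuous_im.abs continuous_const
      exact (h1.inter h2).inter h3
    refine Metric.isCompact_of_isClosed_isBounded hcl ?_
    refine (Metric.isBounded_closedBall (x := (0 : ℂ)) (r := 3 + Y)).subset ?_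
    intro u hu
    rw [mem_closedBall_zero_iff]
    have h1 := Complex.norm_le_abs_re_add_abs_im u
    have h2 : |u.re| ≤ 3 := by
      rw [abs_le]
      constructor <;> linarith only [hu, hu.1.1, hu.1.2]
    have h3 := hu.2
    linarith only [h1, h2, h3]
  have hUC := hK.uniformContinuousOn_of_continuous (continuous_UU.continuousOn)
  rw [Metric.uniformContinuousOn_iff] at hUC
  obtain ⟨δ, hδ, hUC⟩ := hUC (ε / 2) (by positivity)
  have hev : ∀ᶠ n : ℕ in atTop, c₀ / (n : ℝ) < min δ 1 :=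
    (tendsto_natCast_atTop_atTop.const_div_atTop c₀).eventually_lt_const (lt_min hδ one_pos)
  filter_upwards [norm_SE_le_exp (half_pos hε) hY, hev, eventually_ge_atTop 4] with n h1 h2 hn u c hc
    h3 h4 hu
  have hn0 : (0 : ℝ) < n := by
    have : 0 < n := by omega
    exact_mod_cast this
  have hcn : |c / n| < min δ 1 := by
    rw [abs_div, abs_of_pos hn0]
    exact (div_le_div_of_nonneg_right hc hn0.le).trans_lt h2
  have hcn1 : |c / n| < 1 := hcn.trans_le (min_le_right _ _)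
  obtain ⟨c1, c2⟩ := abs_lt.1 hcn1
  have er : (u + ((c / n : ℝ) : ℂ)).re = u.re + c / n := by rw [add_re, ofReal_re]
  have ei : (u + ((c / n : ℝ) : ℂ)).im = u.im := by rw [add_im, ofReal_im, add_zero]
  have h5 := h1 (u + ((c / n : ℝ) : ℂ)) (by rw [er]; exact h3) (by rw [er]; exact h4)
    (by rw [ei]; exact hu)
  refine h5.trans (Real.exp_le_exp.2 (mul_le_mul_of_nonneg_left ?_ hn0.le))
  have h6 := hUC (u + ((c / n : ℝ) : ℂ))
    ⟨⟨by rw [er]; linarith only [h3], by rw [er]; linarith only [h4]⟩, by rw [ei]; exact hu⟩ u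
    ⟨⟨by linarith only [h3, c2], by linarith only [h4, c1]⟩, hu⟩ (by
      rw [dist_eq_norm, add_sub_cancel_left, Complex.norm_real, Real.norm_eq_abs]
      exact hcn.trans_le (min_le_left _ _))
  rw [Real.dist_eq] at h6
  have := (abs_lt.1 h6).2
  linarith only [this]

/-- near bound: on compacts of the first strip -/
theorem norm_SE_le_near {δ Y c₀ : ℝ} (hδ : 0 < δ) (hδ2 : δ ≤ 1 / 2) :
    ∃ C : ℝ, 0 < C ∧ ∀ᶠ n : ℕ in atTop, ∀ (u : ℂ) (c : ℝ), u ∈ Sd δ → |u.im| ≤ Y → |c| ≤ c₀ →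
      ‖SE n (u + ((c / n : ℝ) : ℂ))‖ ≤ C * Real.exp (n * (Fh u).re) := by
  have hpi := Real.pi_pos
  have hδ' : 0 < δ / 2 := by linarith only [hδ]
  have hδ2' : δ / 2 ≤ 1 / 2 := by linarith only [hδ, hδ2]
  set sδ : ℝ := Real.sin (Real.pi * (δ / 2)) with hsδ
  have hs : 0 < sδ := VOL.sin_pi_pos hδ' (by linarith only [hδ, hδ2])
  -- bound of `ph` on the compact set
  obtain ⟨B, hB⟩ : ∃ B : ℝ, ∀ u : ℂ, u ∈ Sd δ → |u.im| ≤ Y → ‖ph u‖ ≤ B := by
    have hK : IsCompact {u : ℂ | u ∈ Sd δ ∧ |u.im| ≤ Y} := by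
      have hcl : IsClosed {u : ℂ | u ∈ Sd δ ∧ |u.im| ≤ Y} := by
        have h1 : IsClosed {u : ℂ | δ ≤ u.re} := isClosed_le continuous_const continuous_re
        have h2 : IsClosed {u : ℂ | u.re ≤ 1 - δ} := isClosed_le continuous_re continuous_const
        have h3 : IsClosed {u : ℂ | |u.im| ≤ Y} := isClosed_le continuous_im.abs continuous_const
        exact (h1.inter h2).inter h3
      refine Metric.isCompact_of_isClosed_isBounded hcl ?_
      refine (Metric.isBounded_closedBall (x := (0 : ℂ)) (r := 1 + |Y|)).subset ?_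
      intro u hu
      rw [mem_closedBall_zero_iff]
      have h1 := Complex.norm_le_abs_re_add_abs_im u
      have h2 : |u.re| ≤ 1 := by
        rw [abs_le]
        constructor <;> linarith only [hδ, hδ2, hu, hu.1.1, hu.1.2]
      have h3 := hu.2.trans (le_abs_self Y)
      linarith only [h1, h2, h3]
    have hcont : ContinuousOn ph {u : ℂ | u ∈ Sd δ ∧ |u.im| ≤ Y} := fun u hu =>
      (continuousAt_ph (Sd_sub hδ hu.1)).continuousWithinAt
    obtain ⟨B, hB⟩ := hK.exists_bound_of_continuousOn hcont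
    exact ⟨B, fun u h1 h2 => hB u ⟨h1, h2⟩⟩
  have hB0 : 0 ≤ |B| := abs_nonneg B
  refine ⟨Real.exp (c₀ * |B| + Real.pi / sδ * c₀ ^ 2 + 1 / (2 * Real.pi * sδ)), Real.exp_pos _, ?_⟩
  have hev : ∀ᶠ n : ℕ in atTop, c₀ / (n : ℝ) ≤ δ / 2 :=
    (tendsto_natCast_atTop_atTop.const_div_atTop c₀).eventually_le_const hδ'
  filter_upwards [hev, eventually_ge_atTop 4] with n hn1 hn u c hu hui hc
  have hn4 : (4 : ℝ) ≤ n := by exact_mod_cast hn
  have hn0 : (0 : ℝ) < n := by linarith only [hδ, hδ2, hn4]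
  have hcn : |c / n| ≤ δ / 2 := by
    rw [abs_div, abs_of_pos hn0]
    exact (div_le_div_of_nonneg_right hc hn0.le).trans hn1
  obtain ⟨c1, c2⟩ := abs_le.1 hcn
  set v : ℂ := u + ((c / n : ℝ) : ℂ) with hv
  have hvre : v.re = u.re + c / n := by rw [hv, add_re, ofReal_re]
  have hvS : v ∈ Sd (δ / 2) := ⟨by rw [hvre]; linarith only [hu.1, c1, hu], by rw [hvre]; linarith only [hu.2, c2, hu]⟩
  have huS : u ∈ Sd (δ / 2) := ⟨by linarith only [hu.1, hδ, hu], by linarith only [hu.2, hδ, hu]⟩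
  have hvs := Sd_sub hδ' hvS
  have hT := Fh_taylor hδ' hδ2' hvS huS
  have hJ := norm_J_Sd hδ' hδ2' hn0 hvS
  rw [← hsδ] at hT hJ
  have hvu : v - u = ((c / n : ℝ) : ℂ) := by rw [hv]; ring
  rw [hvu, Complex.norm_real, Real.norm_eq_abs] at hT
  rw [SE_eq_exp hn hvs.1 hvs.2, Complex.norm_exp]
  rw [← Real.exp_add]
  apply Real.exp_le_exp.2
  have hM : (M n v).re = n * (Fh v).re + (J n v).re := by
    unfold M
    rw [add_re]
    congr 1
    have : ((n : ℝ) : ℂ) = (n : ℂ) := by simp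
    rw [this, mul_re]
    simp
  have k1 : (Fh v).re ≤ (Fh u).re + |c / n| * |B| + Real.pi / sδ * |c / n| ^ 2 := by
    have e : Fh v = Fh u + ((c / n : ℝ) : ℂ) * ph u + (Fh v - Fh u - ((c / n : ℝ) : ℂ) * ph u) := by
      ring
    have h1 := Complex.re_le_norm (((c / n : ℝ) : ℂ) * ph u)
    have h2 := Complex.re_le_norm (Fh v - Fh u - ((c / n : ℝ) : ℂ) * ph u)
    rw [norm_mul, Complex.norm_real, Real.norm_eq_abs] at h1
    have h3 : |c / n| * ‖ph u‖ ≤ |c / n| * |B| :=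
      mul_le_mul_of_nonneg_left ((hB u hu hui).trans (le_abs_self B)) (abs_nonneg _)
    rw [e, add_re, add_re]
    linarith only [hT, h1, h2, h3]
  have k2 : (J n v).re ≤ 1 / (2 * Real.pi * sδ) := by
    have h1 := (Complex.re_le_norm (J n v)).trans hJ
    refine h1.trans (div_le_self (by positivity) (by linarith only [hδ, hδ2, hn4]))
  have k3 : n * (|c / n| * |B|) ≤ c₀ * |B| := by
    rw [abs_div, abs_of_pos hn0]
    calc n * (|c| / n * |B|) = |c| * |B| := by field_simp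
      _ ≤ c₀ * |B| := mul_le_mul_of_nonneg_right hc hB0
  have k4 : n * (Real.pi / sδ * |c / n| ^ 2) ≤ Real.pi / sδ * c₀ ^ 2 := by
    rw [abs_div, abs_of_pos hn0]
    have e : n * (Real.pi / sδ * (|c| / n) ^ 2) = Real.pi / sδ * |c| ^ 2 * (1 / n) := by
      field_simp
    rw [e]
    have h1 : |c| ^ 2 ≤ c₀ ^ 2 := pow_le_pow_left₀ (abs_nonneg c) hc 2
    have h2 : 1 / (n : ℝ) ≤ 1 := by rw [div_le_one hn0]; linarith only [hδ, hδ2, hn4]
    have h3 : 0 ≤ Real.pi / sδ := by positivity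
    calc Real.pi / sδ * |c| ^ 2 * (1 / n) ≤ Real.pi / sδ * |c| ^ 2 * 1 :=
          mul_le_mul_of_nonneg_left h2 (by positivity)
      _ = Real.pi / sδ * |c| ^ 2 := mul_one _
      _ ≤ _ := mul_le_mul_of_nonneg_left h1 h3
  rw [hM]
  have k5 := mul_le_mul_of_nonneg_left k1 hn0.le
  have e6 : n * ((Fh u).re + |c / n| * |B| + Real.pi / sδ * |c / n| ^ 2) =
      n * (Fh u).re + n * (|c / n| * |B|) + n * (Real.pi / sδ * |c / n| ^ 2) := by ring
  rw [e6] at k5
  linarith only [k2, k3, k4, k5]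

/-! ### the local limit -/

/-- **Local limit of `SE`** along arbitrary complex directions. -/
theorem SE_lim {u : ℂ} (hu : u ∈ strip) (c : ℝ) (Z : ℂ) :
    Tendsto (fun n : ℕ => cexp (-((n : ℂ) * Fh u) - (√(n : ℝ) : ℝ) * (ph u * Z)) *
      SE n (u + Z / (√(n : ℝ) : ℝ) + ((c / n : ℝ) : ℂ))) atTop
      (𝓝 (cexp (c * ph u) * cexp (ph' u / 2 * Z ^ 2))) := by
  -- the increments
  set v : ℕ → ℂ := fun n => Z / (√(n : ℝ) : ℝ) + ((c / n : ℝ) : ℂ) with hv
  have hinv : Tendsto (fun n : ℕ => (((√(n : ℝ))⁻¹ : ℝ) : ℂ)) atTop (𝓝 0) := by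
    have := div_sqrt_tendsto_c 1
    simpa using this
  have hinv2 : Tendsto (fun n : ℕ => ((c / n : ℝ) : ℂ)) atTop (𝓝 0) := by
    have h1 : Tendsto (fun n : ℕ => c / (n : ℝ)) atTop (𝓝 0) :=
      tendsto_natCast_atTop_atTop.const_div_atTop c
    have h2 := (Complex.continuous_ofReal.tendsto 0).comp h1
    rw [ofReal_zero] at h2
    exact h2
  have hv0 : Tendsto v atTop (𝓝 0) := by
    have h1 := (hinv.const_mul Z).add hinv2
    rw [mul_zero, add_zero] at h1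
    refine h1.congr fun n => ?_
    simp only [hv]
    push_cast
    ring
  -- `√n v → Z`
  have hsv : Tendsto (fun n : ℕ => ((√(n : ℝ) : ℝ) : ℂ) * v n) atTop (𝓝 Z) := by
    have h1 : Tendsto (fun n : ℕ => Z + c * (((√(n : ℝ))⁻¹ : ℝ) : ℂ)) atTop (𝓝 Z) := by
      have := (hinv.const_mul (c : ℂ)).const_add Z
      rwa [mul_zero, add_zero] at this
    refine h1.congr' ?_
    filter_upwards [eventually_gt_atTop 0] with n hn
    have hn0 : (0 : ℝ) < n := by exact_mod_cast hn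
    have hs : ((√(n : ℝ) : ℝ) : ℂ) ≠ 0 := by exact_mod_cast (Real.sqrt_pos.2 hn0).ne'
    have hss : ((√(n : ℝ) : ℝ) : ℂ) * ((√(n : ℝ) : ℝ) : ℂ) = (n : ℂ) := sqrt_cast_sq hn
    have hnc : (n : ℂ) ≠ 0 := by exact_mod_cast hn0.ne'
    simp only [hv]
    push_cast
    rw [← hss]
    field_simp
  have hkey : Tendsto (fun n : ℕ => (n : ℂ) * (Fh (u + v n) - Fh u - ph u * v n)) atTop
      (𝓝 (ph' u / 2 * Z ^ 2)) := by
    have h2 : Tendsto (fun n : ℕ => ph' u / 2 * (((√(n : ℝ) : ℝ) : ℂ) * v n) ^ 2) atTop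
        (𝓝 (ph' u / 2 * Z ^ 2)) := (hsv.pow 2).const_mul _
    have h3 : Tendsto (fun n : ℕ => (n : ℂ) * (Fh (u + v n) - Fh u - ph u * v n) -
        ph' u / 2 * (((√(n : ℝ) : ℝ) : ℂ) * v n) ^ 2) atTop (𝓝 0) := by
      rw [Metric.tendsto_atTop']
      intro ε hε
      obtain ⟨δ, hδ, hd⟩ := Fh_taylor_loc hu (ε := ε / (2 * (‖Z‖ + 1) ^ 2)) (by positivity)
      have e1 : ∀ᶠ n in atTop, ‖v n‖ < δ := by
        have := hv0.norm
        rw [norm_zero] at this
        exact this.eventually_lt_const hδ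
      have e2 : ∀ᶠ n : ℕ in atTop, ‖((√(n : ℝ) : ℝ) : ℂ) * v n‖ ≤ ‖Z‖ + 1 :=
        (hsv.norm).eventually_le_const (by linarith only [])
      obtain ⟨N, hN⟩ := eventually_atTop.1 ((e1.and e2).and (eventually_gt_atTop 0))
      refine ⟨N, fun n hn => ?_⟩
      obtain ⟨⟨g1, g2⟩, g3⟩ := hN n (by omega)
      have hn0 : (0 : ℝ) < n := by exact_mod_cast g3
      have hss : ((√(n : ℝ) : ℝ) : ℂ) * ((√(n : ℝ) : ℝ) : ℂ) = (n : ℂ) := sqrt_cast_sq g3
      have e3 : (n : ℂ) * (Fh (u + v n) - Fh u - ph u * v n) -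
          ph' u / 2 * (((√(n : ℝ) : ℝ) : ℂ) * v n) ^ 2 =
          (n : ℂ) * (Fh (u + v n) - Fh u - ph u * v n - ph' u * v n ^ 2 / 2) := by
        rw [← hss]
        ring
      have hd' := hd (v n) g1
      rw [dist_zero_right, e3, norm_mul, Complex.norm_natCast]
      have e4 : (n : ℝ) * ‖v n‖ ^ 2 = ‖((√(n : ℝ) : ℝ) : ℂ) * v n‖ ^ 2 := by
        rw [norm_mul, Complex.norm_real, Real.norm_of_nonneg (Real.sqrt_nonneg _), mul_pow,
          Real.sq_sqrt hn0.le]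
      calc n * _ ≤ n * (ε / (2 * (‖Z‖ + 1) ^ 2) * ‖v n‖ ^ 2) := mul_le_mul_of_nonneg_left hd' hn0.le
        _ = ε / (2 * (‖Z‖ + 1) ^ 2) * ‖((√(n : ℝ) : ℝ) : ℂ) * v n‖ ^ 2 := by rw [← e4]; ring
        _ ≤ ε / (2 * (‖Z‖ + 1) ^ 2) * (‖Z‖ + 1) ^ 2 :=
          mul_le_mul_of_nonneg_left (pow_le_pow_left₀ (norm_nonneg _) g2 2) (by positivity)
        _ = ε / 2 := by field_simp
        _ < ε := by linarith only [hε]
    have := h3.add h2
    rw [zero_add] at this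
    refine this.congr fun n => ?_
    ring
  -- the margin
  obtain ⟨δ, hδ, hδ2, hSd⟩ : ∃ δ : ℝ, 0 < δ ∧ δ ≤ 1 / 2 ∧ ∀ᶠ n : ℕ in atTop, u + v n ∈ Sd δ := by
    refine ⟨min (u.re / 2) ((1 - u.re) / 2), lt_min (by linarith only [hu.1, hu]) (by linarith only [hu.2, hu]), ?_, ?_⟩
    · rcases le_total u.re (1 / 2) with h | h
      · exact (min_le_left _ _).trans (by linarith only [h])
      · exact (min_le_right _ _).trans (by linarith only [h])
    · have h1 : Tendsto (fun n => u + v n) atTop (𝓝 u) := by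
        have := hv0.const_add u
        rwa [add_zero] at this
      have hop : IsOpen {z : ℂ | min (u.re / 2) ((1 - u.re) / 2) < z.re ∧
          z.re < 1 - min (u.re / 2) ((1 - u.re) / 2)} :=
        (isOpen_lt continuous_const continuous_re).inter (isOpen_lt continuous_re continuous_const)
      have hmem : u ∈ {z : ℂ | min (u.re / 2) ((1 - u.re) / 2) < z.re ∧
          z.re < 1 - min (u.re / 2) ((1 - u.re) / 2)} := by
        refine ⟨(min_le_left _ _).trans_lt (by linarith only [hu.1, hu]), ?_⟩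
        have := min_le_right (u.re / 2) ((1 - u.re) / 2)
        have := hu.2
        linarith
      filter_upwards [h1.eventually (hop.mem_nhds hmem)] with n hn
      exact ⟨hn.1.le, hn.2.le⟩
  have hJ : Tendsto (fun n : ℕ => J n (u + v n)) atTop (𝓝 0) := by
    rw [tendsto_zero_iff_norm_tendsto_zero]
    have h1 : Tendsto (fun n : ℕ => 1 / (2 * Real.pi * Real.sin (Real.pi * δ)) / (n : ℝ)) atTop
        (𝓝 0) := tendsto_natCast_atTop_atTop.const_div_atTop _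
    refine squeeze_zero' (Eventually.of_forall fun n => norm_nonneg _) ?_ h1
    filter_upwards [hSd, eventually_gt_atTop 0] with n hn hn0
    exact norm_J_Sd hδ hδ2 (by exact_mod_cast hn0) hn
  have hfin := ((hkey.add hJ).add_const ((c : ℂ) * ph u)).cexp
  rw [add_zero, add_comm (ph' u / 2 * Z ^ 2), Complex.exp_add] at hfin
  refine hfin.congr' ?_
  filter_upwards [hSd, eventually_ge_atTop 4] with n hn hn4
  have hn0 : (0 : ℝ) < n := by
    have : 0 < n := by omega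
    exact_mod_cast this
  have hss : ((√(n : ℝ) : ℝ) : ℂ) * ((√(n : ℝ) : ℝ) : ℂ) = (n : ℂ) := sqrt_cast_sq (by omega)
  have hsc : ((√(n : ℝ) : ℝ) : ℂ) ≠ 0 := by exact_mod_cast (Real.sqrt_pos.2 hn0).ne'
  have hnc : (n : ℂ) ≠ 0 := by exact_mod_cast hn0.ne'
  have hst := Sd_sub hδ hn
  have e1 : u + Z / (√(n : ℝ) : ℝ) + ((c / n : ℝ) : ℂ) = u + v n := by
    simp only [hv]; ring
  rw [e1, SE_eq_exp hn4 hst.1 hst.2, ← Complex.exp_add]
  congr 1
  have hM : M n (u + v n) = n * Fh (u + v n) + J n (u + v n) := by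
    unfold M
    push_cast
    rfl
  have hnv : (n : ℂ) * v n = ((√(n : ℝ) : ℝ) : ℂ) * Z + c := by
    simp only [hv]
    push_cast
    rw [mul_add]
    congr 1
    · rw [← hss]
      field_simp
    · field_simp
  rw [hM]
  linear_combination (-(ph u)) * hnv

/-- the version along odd numbers used with `LocLim.of_one` -/
theorem SE_lim_odd {u : ℂ} (hu : u ∈ strip) (c : ℝ) (Z : ℂ) :
    Tendsto (fun s : ℕ => cexp (-(((2 * s + 1 : ℕ) : ℂ) * Fh u) -
      (√((2 * s + 1 : ℕ) : ℝ) : ℝ) * (ph u * Z)) *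
      SE (2 * s + 1) (u + Z / (√((2 * s + 1 : ℕ) : ℝ) : ℝ) + ((c / (2 * s + 1 : ℕ) : ℝ) : ℂ))) atTop
      (𝓝 (cexp (c * ph u) * cexp (ph' u / 2 * Z ^ 2))) := by
  have hodd : Tendsto (fun s : ℕ => 2 * s + 1) atTop atTop :=
    tendsto_atTop_mono (fun s => by simp only [id]; omega) tendsto_id
  exact (SE_lim hu c Z).comp hodd

end Pool.Agent.Work.MP_b30479_gt.G2
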