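import Pool.Agent.Work.MP_b30479_gt.LT.BWgen

/-!
# Calculus of the Bloch-Wigner dilogarithm on the whole plane

`BW_ee` (LT/BWgen) gives `BW (ee w)` for `w` in the strip `0 < Re w < 1`, that is on `ℂ ∖ [0, ∞)`:
there the derivative formula follows from `Fh' = ph`.  On the positive real axis we use
`BW z = BW (1 - z⁻¹)` (`BW_three`): both sides have the same derivative on the upper half plane, and
they agree at the fixed point `e^{πi/3}`; then `BW_conj` gives the lower half plane.
-/

namespace Pool.Agent.Work.MP_b30479_gt.G2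

open LT Filter Topology

private theorem arg_ne {z : ℂ} (h : ‖z‖ ≤ 1) : (1 - z).arg ≠ Real.pi := by
  intro h1
  rw [Complex.arg_eq_pi_iff] at h1
  have h2 := Complex.re_le_norm z
  have h3 := h1.1
  rw [Complex.sub_re, Complex.one_re] at h3
  linarith only [h, h2, h3]

theorem BW_conj (z : ℂ) : BW ((starRingEnd ℂ) z) = -BW z := by
  unfold BW
  rw [RCLike.norm_conj]
  split_ifs with h
  · exact BWd_conj (arg_ne h)
  · have h2 : ‖z⁻¹‖ ≤ 1 := by
      rw [norm_inv]
      exact inv_le_one_of_one_le₀ (not_le.1 h).le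
    rw [← map_inv₀, BWd_conj (arg_ne h2)]

theorem BW_real (x : ℝ) : BW (x : ℂ) = 0 := by
  have h := BW_conj (x : ℂ)
  rw [Complex.conj_ofReal] at h
  linarith only [h]

theorem BW_inv (z : ℂ) : BW z⁻¹ = -BW z := by
  rcases lt_trichotomy ‖z‖ 1 with h | h | h
  · rcases eq_or_ne z 0 with h0 | h0
    · have h1 := BW_real 0
      rw [Complex.ofReal_zero] at h1
      rw [h0, inv_zero, h1, neg_zero]
    · have h1 : ¬ ‖z⁻¹‖ ≤ 1 := by
        rw [norm_inv, not_le]
        exact (one_lt_inv₀ (norm_pos_iff.2 h0)).2 h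
      unfold BW
      rw [if_neg h1, if_pos h.le, inv_inv]
  · have h1 : z⁻¹ = (starRingEnd ℂ) z := by
      rw [Complex.inv_def, Complex.normSq_eq_norm_sq, h]
      simp
    rw [h1, BW_conj]
  · have h1 : ‖z⁻¹‖ ≤ 1 := by
      rw [norm_inv]
      exact inv_le_one_of_one_le₀ h.le
    unfold BW
    rw [if_pos h1, if_neg (not_le.2 h), neg_neg]

/-! ### the slit plane `ℂ ∖ [0, ∞)` -/

/-- the inverse of `ee` on `ℂ ∖ [0, ∞)` -/
private noncomputable def wl (z : ℂ) : ℂ := 1 / 2 + Complex.log (-z) / (2 * Real.pi * Complex.I)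

private theorem wl_re (z : ℂ) : (wl z).re = 1 / 2 + (-z).arg / (2 * Real.pi) := by
  unfold wl
  have hpi := Real.pi_ne_zero
  have e : Complex.log (-z) / (2 * Real.pi * Complex.I) =
      ((1 / (2 * Real.pi) : ℝ) : ℂ) * (-(Complex.log (-z) * Complex.I)) := by
    push_cast
    rw [div_eq_mul_inv, mul_inv, mul_inv, Complex.inv_I]
    field_simp
  rw [Complex.add_re, e, Complex.re_ofReal_mul, Complex.neg_re, Complex.mul_re, Complex.log_im]
  simp
  ring

private theorem wl_mem {z : ℂ} (h : -z ∈ Complex.slitPlane) : wl z ∈ VOL.strip := by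
  have hpi := Real.pi_pos
  have h1 := Complex.neg_pi_lt_arg (-z)
  have h2 := (Complex.arg_le_pi (-z)).lt_of_ne (Complex.slitPlane_arg_ne_pi h)
  constructor
  · rw [wl_re]
    have : -(1 / 2) < (-z).arg / (2 * Real.pi) := by
      rw [lt_div_iff₀ (by positivity)]
      linarith only [h1]
    linarith only [this]
  · rw [wl_re]
    have : (-z).arg / (2 * Real.pi) < 1 / 2 := by
      rw [div_lt_iff₀ (by positivity)]
      linarith only [h2]
    linarith only [this]

private theorem two_pi_I_ne : (2 * Real.pi * Complex.I : ℂ) ≠ 0 := by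
  have := Real.pi_ne_zero
  simp [this]

private theorem ee_wl {z : ℂ} (h : -z ∈ Complex.slitPlane) : ee (wl z) = z := by
  have h0 := Complex.slitPlane_ne_zero h
  unfold ee wl
  have e : 2 * Real.pi * Complex.I * (1 / 2 + Complex.log (-z) / (2 * Real.pi * Complex.I)) =
      Real.pi * Complex.I + Complex.log (-z) := by
    have := two_pi_I_ne
    field_simp
  rw [e, Complex.exp_add, Complex.exp_pi_mul_I, Complex.exp_log h0]
  ring

private theorem slit_mem {z : ℂ} (h : -z ∈ Complex.slitPlane) :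
    ∀ᶠ x in 𝓝 z, -x ∈ Complex.slitPlane :=
  (continuous_neg.tendsto z).eventually (Complex.isOpen_slitPlane.mem_nhds h)

private theorem BW_wl {z : ℂ} (h : -z ∈ Complex.slitPlane) :
    BW z = -(2 * Real.pi * ((VOL.Fh (wl z)).re + (wl z).im * (VOL.ph (wl z)).im)) := by
  conv_lhs => rw [← ee_wl h]
  exact BW_ee (wl_mem h)

private theorem continuousAt_wl {z : ℂ} (h : -z ∈ Complex.slitPlane) : ContinuousAt wl z := by
  unfold wl
  have h1 : ContinuousAt (fun z : ℂ => Complex.log (-z)) z :=
    ContinuousAt.clog continuous_neg.continuousAt h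
  exact continuousAt_const.add (h1.div_const _)

private theorem continuousAt_slit {z : ℂ} (h : -z ∈ Complex.slitPlane) : ContinuousAt BW z := by
  have hw := continuousAt_wl h
  have h1 : ContinuousAt (fun z => VOL.Fh (wl z)) z :=
    ContinuousAt.comp (g := VOL.Fh) (f := wl) (VOL.hasDerivAt_Fh (wl_mem h)).continuousAt hw
  have h2 : ContinuousAt (fun z => VOL.ph (wl z)) z :=
    ContinuousAt.comp (g := VOL.ph) (f := wl) (VOL.continuousAt_ph (wl_mem h)) hw
  have h3 : ContinuousAt (fun z => -(2 * Real.pi * ((VOL.Fh (wl z)).re +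
      (wl z).im * (VOL.ph (wl z)).im))) z := by
    apply ContinuousAt.neg
    apply continuousAt_const.mul
    apply ContinuousAt.add
    · exact Complex.continuous_re.continuousAt.comp h1
    · exact (Complex.continuous_im.continuousAt.comp hw).mul
        (Complex.continuous_im.continuousAt.comp h2)
  refine h3.congr ?_
  filter_upwards [slit_mem h] with x hx
  exact (BW_wl hx).symm

/-- the right hand side of the derivative formula -/
private noncomputable def dd (z z' : ℂ) : ℝ :=
  Real.log ‖z‖ * (-z' / (1 - z)).im - Real.log ‖1 - z‖ * (z' / z).im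

private theorem hasDerivAt_slit {f : ℝ → ℂ} {f' : ℂ} {t : ℝ} (h : HasDerivAt f f' t)
    (hs : -f t ∈ Complex.slitPlane) : HasDerivAt (fun s => BW (f s)) (dd (f t) f') t := by
  have hpi := Real.pi_ne_zero
  have h0 : f t ≠ 0 := fun h0 => Complex.slitPlane_ne_zero hs (by rw [h0, neg_zero])
  have hI := two_pi_I_ne
  have hm := wl_mem hs
  have hl : HasDerivAt (fun s => Complex.log (-f s)) (-f' / -f t) t := h.neg.clog_real hs
  have hw : HasDerivAt (fun s => wl (f s)) (f' / f t / (2 * Real.pi * Complex.I)) t := by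
    unfold wl
    rw [neg_div_neg_eq] at hl
    exact (hl.div_const _).const_add _
  have h1 : HasDerivAt (fun s => VOL.Fh (wl (f s)))
      (VOL.ph (wl (f t)) * (f' / f t / (2 * Real.pi * Complex.I))) t :=
    (VOL.hasDerivAt_Fh hm).comp_of_eq t hw rfl
  have h2 : HasDerivAt (fun s => VOL.ph (wl (f s)))
      (VOL.ph' (wl (f t)) * (f' / f t / (2 * Real.pi * Complex.I))) t :=
    (VOL.hasDerivAt_ph hm).comp_of_eq t hw rfl
  have r1 : HasDerivAt (fun s => (VOL.Fh (wl (f s))).re)
      (VOL.ph (wl (f t)) * (f' / f t / (2 * Real.pi * Complex.I))).re t :=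
    Complex.reCLM.hasFDerivAt.comp_hasDerivAt t h1
  have r2 : HasDerivAt (fun s => (VOL.ph (wl (f s))).im)
      (VOL.ph' (wl (f t)) * (f' / f t / (2 * Real.pi * Complex.I))).im t :=
    Complex.imCLM.hasFDerivAt.comp_hasDerivAt t h2
  have r3 : HasDerivAt (fun s => (wl (f s)).im) (f' / f t / (2 * Real.pi * Complex.I)).im t :=
    Complex.imCLM.hasFDerivAt.comp_hasDerivAt t hw
  have key := ((r1.add (r3.mul r2)).const_mul (2 * Real.pi)).neg
  have e0 : (fun s => BW (f s)) =ᶠ[𝓝 t] fun s => -(2 * Real.pi * ((VOL.Fh (wl (f s))).re +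
      (wl (f s)).im * (VOL.ph (wl (f s))).im)) := by
    filter_upwards [h.continuousAt.eventually (slit_mem hs)] with x hx
    exact BW_wl hx
  refine (key.congr_of_eventuallyEq e0).congr_deriv ?_
  -- the formula
  set w := wl (f t)
  have hf : ee w = f t := ee_wl hs
  -- the derivative of `1 - ee w`
  have q1 : HasDerivAt (fun z : ℂ => 1 - ee z) (-(2 * Real.pi * Complex.I * ee w)) w := by
    have : HasDerivAt (fun z : ℂ => Complex.exp (2 * Real.pi * Complex.I * z))
        (Complex.exp (2 * Real.pi * Complex.I * w) * (2 * Real.pi * Complex.I * 1)) w :=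
      ((hasDerivAt_id w).const_mul _).cexp
    have h5 := this.const_sub 1
    refine h5.congr_deriv ?_
    unfold ee
    ring
  have q2 : HasDerivAt (fun z : ℂ => Complex.exp (VOL.ph z + Real.pi * (z - 1 / 2) * Complex.I))
      (Complex.exp (VOL.ph w + Real.pi * (w - 1 / 2) * Complex.I) *
        (VOL.ph' w + Real.pi * 1 * Complex.I)) w :=
    ((VOL.hasDerivAt_ph hm).add ((((hasDerivAt_id w).sub_const (1 / 2)).const_mul
      (Real.pi : ℂ)).mul_const Complex.I)).cexp
  have q3 : (fun z : ℂ => 1 - ee z) =ᶠ[𝓝 w]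
      fun z => Complex.exp (VOL.ph z + Real.pi * (z - 1 / 2) * Complex.I) := by
    filter_upwards [VOL.strip_open.mem_nhds hm] with x hx
    exact one_sub_ee' hx
  have q4 := q1.unique (q2.congr_of_eventuallyEq q3)
  rw [← one_sub_ee' hm, hf] at q4
  have hne : 1 - f t ≠ 0 := by
    rw [← hf, one_sub_ee' hm]
    exact Complex.exp_ne_zero _
  have q5 : -f' / (1 - f t) = (VOL.ph' w + Real.pi * Complex.I) *
      (f' / f t / (2 * Real.pi * Complex.I)) := by
    have : VOL.ph' w + Real.pi * Complex.I = -(2 * Real.pi * Complex.I * f t) / (1 - f t) := by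
      rw [q4]
      field_simp
    rw [this]
    field_simp
  have q6 : Real.log ‖f t‖ = -(2 * Real.pi * w.im) := by
    rw [← hf, norm_ee, Real.log_exp]
  have q7 : Real.log ‖1 - f t‖ = (VOL.ph w).re - Real.pi * w.im := by
    rw [← hf, one_sub_ee' hm, Complex.norm_exp, Real.log_exp]
    simp [Complex.mul_re, Complex.mul_im]
    ring
  have q8 : (f' / f t).im = 2 * Real.pi * (f' / f t / (2 * Real.pi * Complex.I)).re := by
    have : f' / f t = 2 * Real.pi * Complex.I * (f' / f t / (2 * Real.pi * Complex.I)) := by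
      field_simp
    conv_lhs => rw [this]
    simp [Complex.mul_re, Complex.mul_im]
  unfold dd
  rw [q5, q6, q7, q8]
  set v := f' / f t / (2 * Real.pi * Complex.I)
  simp only [Complex.mul_re, Complex.mul_im, Complex.add_re, Complex.add_im, Complex.ofReal_re,
    Complex.ofReal_im, Complex.I_re, Complex.I_im]
  ring

/-! ### the symmetry of order three -/

private theorem slit_of_im {z : ℂ} (h : z.im ≠ 0) : -z ∈ Complex.slitPlane := by
  rw [Complex.mem_slitPlane_iff]
  right
  simpa using h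

private theorem dd_three {z : ℂ} (h0 : z ≠ 0) (h1 : z ≠ 1) (z' : ℂ) :
    dd (1 - z⁻¹) (z' / z ^ 2) = dd z z' := by
  have h2 : 1 - z ≠ 0 := sub_ne_zero.2 h1.symm
  have h3 : z - 1 ≠ 0 := sub_ne_zero.2 h1
  unfold dd
  have e1 : 1 - (1 - z⁻¹) = z⁻¹ := by ring
  have e2 : 1 - z⁻¹ = -((1 - z) / z) := by
    field_simp
    ring
  have e3 : -(z' / z ^ 2) / z⁻¹ = -(z' / z) := by
    field_simp
  have e4 : z' / z ^ 2 / (1 - z⁻¹) = -z' / (1 - z) - z' / z := by
    rw [e2]
    field_simp
    ring
  have n1 : Real.log ‖z⁻¹‖ = -Real.log ‖z‖ := by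
    rw [norm_inv, Real.log_inv]
  have n2 : Real.log ‖1 - z⁻¹‖ = Real.log ‖1 - z‖ - Real.log ‖z‖ := by
    rw [e2, norm_neg, norm_div, Real.log_div (norm_ne_zero_iff.2 h2) (norm_ne_zero_iff.2 h0)]
  rw [n2, e1, n1, e3, e4]
  simp only [Complex.sub_im, Complex.neg_im]
  ring

private theorem three_deriv {f : ℝ → ℂ} {f' : ℂ} {t : ℝ} (h : HasDerivAt f f' t) (h0 : f t ≠ 0) :
    HasDerivAt (fun s => 1 - (f s)⁻¹) (f' / f t ^ 2) t := by
  have h1 := (h.inv h0).const_sub 1
  refine h1.congr_deriv ?_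
  ring

private theorem im_three {z : ℂ} (h : 0 < z.im) : 0 < (1 - z⁻¹).im := by
  have h0 : z ≠ 0 := by
    rintro rfl
    simp at h
  rw [Complex.sub_im, Complex.one_im, Complex.inv_im]
  have := Complex.normSq_pos.2 h0
  have h2 : 0 < z.im / Complex.normSq z := div_pos h this
  rw [neg_div]
  linarith only [h2]

private theorem BW_three_pos {z : ℂ} (h : 0 < z.im) : BW (1 - z⁻¹) = BW z := by
  -- the segment from the fixed point
  set z₀ : ℂ := ⟨1 / 2, Real.sqrt 3 / 2⟩ with hz₀
  have hs : 0 < Real.sqrt 3 := Real.sqrt_pos.2 (by norm_num)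
  have h3 : Real.sqrt 3 * Real.sqrt 3 = 3 := Real.mul_self_sqrt (by norm_num)
  have hfix : 1 - z₀⁻¹ = z₀ := by
    have hn : Complex.normSq z₀ = 1 := by
      rw [hz₀, Complex.normSq_mk]
      nlinarith only [h3]
    apply Complex.ext
    · rw [Complex.sub_re, Complex.inv_re, hn, Complex.one_re]
      simp only [hz₀]
      norm_num
    · rw [Complex.sub_im, Complex.inv_im, hn, Complex.one_im]
      simp only [hz₀]
      ring
  set g : ℝ → ℂ := fun s => z₀ + s * (z - z₀) with hg
  have hd : ∀ s, HasDerivAt g (z - z₀) s := by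
    intro s
    have h3 : HasDerivAt (fun t : ℝ => ((t : ℝ) : ℂ)) 1 s := Complex.ofRealCLM.hasDerivAt
    have h4 := (h3.mul_const (z - z₀)).const_add z₀
    rwa [one_mul] at h4
  have him : ∀ s ∈ Set.Icc (0 : ℝ) 1, 0 < (g s).im := by
    intro s hs'
    have e : (g s).im = (1 - s) * (Real.sqrt 3 / 2) + s * z.im := by
      simp [hg, hz₀, Complex.mul_im]
      ring
    rw [e]
    rcases hs'.1.eq_or_lt with h4 | h4
    · rw [← h4]
      linarith only [hs]
    · have : 0 ≤ 1 - s := by linarith only [hs', hs'.2]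
      positivity
  have hder : ∀ s ∈ Set.Icc (0 : ℝ) 1, HasDerivAt (fun s => BW (1 - (g s)⁻¹) - BW (g s)) 0 s := by
    intro s hs'
    have h4 := him s hs'
    have h0 : g s ≠ 0 := by
      intro h0
      rw [h0] at h4
      simp at h4
    have h1 : g s ≠ 1 := by
      intro h0
      rw [h0] at h4
      simp at h4
    have d1 := hasDerivAt_slit (hd s) (slit_of_im h4.ne')
    have d2 := hasDerivAt_slit (three_deriv (hd s) h0) (slit_of_im (im_three h4).ne')
    have d3 := d2.sub d1
    rw [dd_three h0 h1, sub_self] at d3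
    exact d3
  have hconst := constant_of_derivWithin_zero (f := fun s => BW (1 - (g s)⁻¹) - BW (g s))
    (a := 0) (b := 1)
    (fun s hs' => (hder s hs').differentiableAt.differentiableWithinAt)
    (fun s hs' => (hder s ⟨hs'.1, hs'.2.le⟩).hasDerivWithinAt.derivWithin
      (uniqueDiffOn_Icc zero_lt_one s ⟨hs'.1, hs'.2.le⟩)) 1 ⟨zero_le_one, le_rfl⟩
  have g0 : g 0 = z₀ := by simp [hg]
  have g1 : g 1 = z := by simp [hg]
  simp only [g0, g1, hfix, sub_self] at hconst
  linarith only [hconst]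

/-- `D(1 - 1/z) = D(z)` (also for `z = 0, 1` with `0⁻¹ = 0`) -/
theorem BW_three' (z : ℂ) : BW (1 - z⁻¹) = BW z := by
  rcases lt_trichotomy z.im 0 with h | h | h
  · have h2 := BW_three_pos (z := (starRingEnd ℂ) z) (by simpa using h)
    have e : 1 - ((starRingEnd ℂ) z)⁻¹ = (starRingEnd ℂ) (1 - z⁻¹) := by
      simp
    rw [e, BW_conj, BW_conj] at h2
    linarith only [h2]
  · have e : z = ((z.re : ℝ) : ℂ) := by
      apply Complex.ext
      · simp
      · simpa using h
    have e2 : 1 - z⁻¹ = ((1 - z.re⁻¹ : ℝ) : ℂ) := by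
      rw [e]
      push_cast
      simp
    rw [e2, BW_real, e, BW_real]
  · exact BW_three_pos h

set_option linter.unusedVariables false in
theorem BW_three {z : ℂ} (h0 : z ≠ 0) (h1 : z ≠ 1) : BW (1 - z⁻¹) = BW z := BW_three' z

/-- the derivative along a curve -/
theorem hasDerivAt_BW {f : ℝ → ℂ} {f' : ℂ} {t : ℝ} (h : HasDerivAt f f' t) (h0 : f t ≠ 0)
    (h1 : f t ≠ 1) : HasDerivAt (fun s => BW (f s))
      (Real.log ‖f t‖ * (-f' / (1 - f t)).im - Real.log ‖1 - f t‖ * (f' / f t).im) t := by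
  change HasDerivAt (fun s => BW (f s)) (dd (f t) f') t
  by_cases hs : -f t ∈ Complex.slitPlane
  · exact hasDerivAt_slit h hs
  have hx : 0 ≤ (f t).re ∧ (f t).im = 0 := by
    rw [Complex.mem_slitPlane_iff, not_or, not_lt, not_not] at hs
    simpa using hs
  -- the first rotation
  have h2 := three_deriv h h0
  have h2' : (fun s => BW (1 - (f s)⁻¹)) = fun s => BW (f s) := by
    ext s
    exact BW_three' _
  by_cases hs2 : -(1 - (f t)⁻¹) ∈ Complex.slitPlane
  · have h3 := hasDerivAt_slit h2 hs2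
    rw [h2', dd_three h0 h1] at h3
    exact h3
  -- the second rotation
  have h10 : 1 - (f t)⁻¹ ≠ 0 := by
    intro h4
    apply h1
    have h5 : (f t)⁻¹ = 1 := (sub_eq_zero.1 h4).symm
    rw [← inv_inv (f t), h5, inv_one]
  have h11 : 1 - (f t)⁻¹ ≠ 1 := by
    intro h4
    apply h0
    have h5 : (f t)⁻¹ = 0 := by linear_combination -h4
    exact inv_eq_zero.1 h5
  have h4 := three_deriv h2 h10
  have h4' : (fun s => BW (1 - (1 - (f s)⁻¹)⁻¹)) = fun s => BW (f s) := by
    ext s
    rw [BW_three', BW_three']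
  have hs3 : -(1 - (1 - (f t)⁻¹)⁻¹) ∈ Complex.slitPlane := by
    rw [Complex.mem_slitPlane_iff]
    left
    have e : f t = (((f t).re : ℝ) : ℂ) := by
      apply Complex.ext
      · simp
      · simpa using hx.2
    have hp : 0 < (f t).re := by
      rcases hx.1.eq_or_lt with h5 | h5
      · exfalso
        apply h0
        rw [e, ← h5, Complex.ofReal_zero]
      · exact h5
    have h6 : (f t).re ≠ 1 := by
      intro h5
      apply h1
      rw [e, h5, Complex.ofReal_one]
    -- `f t > 1`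
    have h7 : 1 < (f t).re := by
      by_contra h8
      have h9 : (f t).re < 1 := lt_of_le_of_ne (not_lt.1 h8) h6
      apply hs2
      rw [Complex.mem_slitPlane_iff]
      left
      rw [e, ← Complex.ofReal_inv, ← Complex.ofReal_one, ← Complex.ofReal_sub,
        ← Complex.ofReal_neg, Complex.ofReal_re]
      have := (one_lt_inv₀ hp).2 h9
      linarith only [this]
    have e2 : -(1 - (1 - (f t)⁻¹)⁻¹) = ((-(1 - (1 - (f t).re⁻¹)⁻¹) : ℝ) : ℂ) := by
      conv_lhs => rw [e]
      push_cast
      rfl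
    rw [e2, Complex.ofReal_re]
    have h9 : (f t).re⁻¹ < 1 := inv_lt_one_of_one_lt₀ h7
    have h12 : 0 < (f t).re⁻¹ := inv_pos.2 hp
    have h13 : 1 < (1 - (f t).re⁻¹)⁻¹ := (one_lt_inv₀ (by linarith only [h9])).2 (by linarith only [h12])
    linarith only [h13]
  have h5 := hasDerivAt_slit h4 hs3
  rw [h4', dd_three h10 h11, dd_three h0 h1] at h5
  exact h5

/-! ### continuity -/

private theorem continuousAt_zero : ContinuousAt BW 0 := by
  have hz : BW 0 = 0 := by
    have h1 := BW_real 0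
    rwa [Complex.ofReal_zero] at h1
  rw [ContinuousAt, hz]
  have hball : Metric.closedBall (0 : ℂ) (1 / 2) ∈ 𝓝 (0 : ℂ) :=
    Metric.closedBall_mem_nhds _ (by norm_num)
  -- the series
  have hsum : Summable fun k : ℕ => (1 : ℝ) / ((k : ℝ) + 1) ^ 2 := by
    have := (summable_nat_add_iff 1).2 (Real.summable_one_div_nat_pow.2 one_lt_two)
    simpa using this
  have c1 : ContinuousOn (fun z : ℂ => ∑' k : ℕ, z ^ (k + 1) / ((k : ℂ) + 1) ^ 2)
      (Metric.closedBall (0 : ℂ) (1 / 2)) := by
    refine continuousOn_tsum (u := fun k : ℕ => (1 : ℝ) / ((k : ℝ) + 1) ^ 2) ?_ hsum ?_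
    · intro k
      exact ((continuous_pow (k + 1)).div_const _).continuousOn
    · intro k z hz'
      have h1 : ‖z‖ ≤ 1 := by
        have := mem_closedBall_zero_iff.1 hz'
        linarith only [this]
      rw [norm_div, norm_pow, norm_pow]
      have : ‖(k : ℂ) + 1‖ = (k : ℝ) + 1 := by
        have := Complex.norm_natCast (k + 1)
        push_cast at this
        exact this
      rw [this]
      gcongr
      exact pow_le_one₀ (norm_nonneg _) h1
  have c2 : Tendsto (fun z : ℂ => (∑' k : ℕ, z ^ (k + 1) / ((k : ℂ) + 1) ^ 2).im) (𝓝 0) (𝓝 0) := by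
    have h1 := (c1.continuousAt hball)
    have h2 : Tendsto (fun z : ℂ => (∑' k : ℕ, z ^ (k + 1) / ((k : ℂ) + 1) ^ 2).im) (𝓝 0)
        (𝓝 ((∑' k : ℕ, (0 : ℂ) ^ (k + 1) / ((k : ℂ) + 1) ^ 2).im)) :=
      (Complex.continuous_im.tendsto _).comp h1
    simpa using h2
  -- the argument
  have c3 : Tendsto (fun z : ℂ => (1 - z).arg * Real.log ‖z‖) (𝓝 0) (𝓝 0) := by
    have h1 : Tendsto (fun z : ℂ => 3 / 2 * |‖z‖ * Real.log ‖z‖|) (𝓝 0) (𝓝 0) := by
      have h2 : Continuous fun z : ℂ => 3 / 2 * |‖z‖ * Real.log ‖z‖| :=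
        continuous_const.mul (Real.continuous_mul_log.comp continuous_norm).abs
      have h3 := h2.tendsto 0
      simpa using h3
    refine squeeze_zero_norm' ?_ h1
    filter_upwards [hball] with z hz'
    have h4 : ‖z‖ ≤ 1 / 2 := mem_closedBall_zero_iff.1 hz'
    rw [Real.norm_eq_abs, abs_mul, abs_mul, abs_norm]
    have h5 : |(1 - z).arg| ≤ 3 / 2 * ‖z‖ := by
      rw [← Complex.log_im]
      refine (Complex.abs_im_le_norm _).trans ?_
      have := Complex.norm_log_one_add_half_le_self (z := -z) (by rwa [norm_neg])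
      rwa [norm_neg, ← sub_eq_add_neg] at this
    calc |(1 - z).arg| * |Real.log ‖z‖| ≤ 3 / 2 * ‖z‖ * |Real.log ‖z‖| :=
          mul_le_mul_of_nonneg_right h5 (abs_nonneg _)
      _ = _ := by ring
  have c4 := c2.add c3
  rw [add_zero] at c4
  refine c4.congr' ?_
  filter_upwards [hball] with z hz'
  have h4 : ‖z‖ ≤ 1 := by
    have := mem_closedBall_zero_iff.1 hz'
    linarith only [this]
  unfold BW DT.BWd
  rw [if_pos h4]

private theorem continuousAt_of_three {z : ℂ} (h0 : z ≠ 0) (h : ContinuousAt BW (1 - z⁻¹)) :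
    ContinuousAt BW z := by
  have h1 : ContinuousAt (fun z : ℂ => 1 - z⁻¹) z :=
    continuousAt_const.sub (continuousAt_inv₀ h0)
  have h2 : ContinuousAt (fun z : ℂ => BW (1 - z⁻¹)) z :=
    ContinuousAt.comp (g := BW) (f := fun z : ℂ => 1 - z⁻¹) h h1
  have h3 : (fun z : ℂ => BW (1 - z⁻¹)) = BW := by
    ext z
    exact BW_three' z
  rwa [h3] at h2

theorem continuous_BW : Continuous BW := by
  rw [continuous_iff_continuousAt]
  intro z
  by_cases h0 : z = 0
  · rw [h0]
    exact continuousAt_zero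
  by_cases h1 : z = 1
  · apply continuousAt_of_three h0
    rw [h1, inv_one, sub_self]
    exact continuousAt_zero
  by_cases hs : -z ∈ Complex.slitPlane
  · exact continuousAt_slit hs
  have hx : 0 ≤ z.re ∧ z.im = 0 := by
    rw [Complex.mem_slitPlane_iff, not_or, not_lt, not_not] at hs
    simpa using hs
  have e : z = ((z.re : ℝ) : ℂ) := by
    apply Complex.ext
    · simp
    · simpa using hx.2
  have hp : 0 < z.re := by
    rcases hx.1.eq_or_lt with h5 | h5
    · exfalso
      apply h0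
      rw [e, ← h5, Complex.ofReal_zero]
    · exact h5
  have h6 : z.re ≠ 1 := by
    intro h5
    apply h1
    rw [e, h5, Complex.ofReal_one]
  have step : ∀ x : ℝ, 0 < x → x < 1 → ContinuousAt BW (x : ℂ) := by
    intro x hx0 hx1
    apply continuousAt_of_three (by exact_mod_cast hx0.ne')
    apply continuousAt_slit
    rw [Complex.mem_slitPlane_iff]
    left
    rw [← Complex.ofReal_inv, ← Complex.ofReal_one, ← Complex.ofReal_sub,
      ← Complex.ofReal_neg, Complex.ofReal_re]
    have := (one_lt_inv₀ hx0).2 hx1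
    linarith only [this]
  rcases lt_or_gt_of_ne h6 with h7 | h7
  · rw [e]
    exact step _ hp h7
  · apply continuousAt_of_three h0
    have e2 : 1 - z⁻¹ = ((1 - z.re⁻¹ : ℝ) : ℂ) := by
      conv_lhs => rw [e]
      push_cast
      rfl
    rw [e2]
    have h9 : z.re⁻¹ < 1 := inv_lt_one_of_one_lt₀ h7
    have h12 : 0 < z.re⁻¹ := inv_pos.2 hp
    exact step _ (by linarith only [h9]) (by linarith only [h12])

theorem tendsto_BW_cocompact : Tendsto BW (cocompact ℂ) (𝓝 0) := by
  have hz : BW 0 = 0 := by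
    have h1 := BW_real 0
    rwa [Complex.ofReal_zero] at h1
  have h1 : Tendsto (fun z : ℂ => z⁻¹) (cocompact ℂ) (𝓝 0) := by
    rw [← Metric.cobounded_eq_cocompact]
    exact tendsto_inv₀_cobounded
  have h2 : Tendsto (fun z : ℂ => -BW z⁻¹) (cocompact ℂ) (𝓝 (-BW 0)) :=
    ((continuous_BW.tendsto 0).comp h1).neg
  rw [hz, neg_zero] at h2
  refine h2.congr ?_
  intro z
  rw [BW_inv, neg_neg]

end Pool.Agent.Work.MP_b30479_gt.G2
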