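import Pool.Agent.Work.MP_b30479_gt.G2.BWCalc

/-!
# Functional equations of the Bloch-Wigner dilogarithm

Hints.  Fix all parameters but one and move the last one along a curve that avoids the finitely many
bad points and ends at a point where the identity is trivial (for `BW_seven`: `X → 0`, then
`mob Z X → 1`); the derivative vanishes by `hasDerivAt_BW` after factoring all arguments and `1 -`
arguments into `X`, `X - 1`, `X + Z`, `1 + Z X`, `(1 + Z + Z⁻¹) X + 1`.  The degenerate cases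
(`X = 0`, `X = 1`, `(1 + Z + Z⁻¹) X + 1 = 0`, `X = -Z^{±1}`) are true with `x / 0 = 0`: `X = 0` and
`X = 1` by hand, the others by continuity (`tendsto_BW_cocompact`, `continuous_BW`).
Both identities were tested numerically.
-/

namespace Pool.Agent.Work.MP_b30479_gt.G2

open LT Filter Topology Finset

/-- the step of a chain with parameter `Z` -/
noncomputable def mob (Z X : ℂ) : ℂ := -(((1 + Z + Z⁻¹) * X + 1) / (X - 1))

/-- three of the four tetrahedra of an octahedron -/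
noncomputable def gZ (Z X : ℂ) : ℝ := BW X + BW (-(Z / X)) + BW (-(1 / (Z * X)))

namespace BWAux

/-- `f` does not vanish at `t`, `l = log |f|` and `θ = d arg f` -/
def HD (f : ℝ → ℂ) (t l θ : ℝ) : Prop :=
  f t ≠ 0 ∧ Real.log ‖f t‖ = l ∧ ∃ f' : ℂ, HasDerivAt f f' t ∧ (f' / f t).im = θ

lemma HD.congr {f g : ℝ → ℂ} {t l θ : ℝ} (h : HD g t l θ) (e : f =ᶠ[𝓝 t] g) : HD f t l θ := by
  obtain ⟨h0, h1, g', h2, h3⟩ := h
  have e0 : f t = g t := e.eq_of_nhds
  exact ⟨by rw [e0]; exact h0, by rw [e0]; exact h1, g', h2.congr_of_eventuallyEq e,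
    by rw [e0]; exact h3⟩

lemma HD.mul {f g : ℝ → ℂ} {t l θ l' θ' : ℝ} (hf : HD f t l θ) (hg : HD g t l' θ') :
    HD (fun s => f s * g s) t (l + l') (θ + θ') := by
  obtain ⟨h0, h1, f', h2, h3⟩ := hf
  obtain ⟨k0, k1, g', k2, k3⟩ := hg
  refine ⟨mul_ne_zero h0 k0, ?_, f' * g t + f t * g', h2.mul k2, ?_⟩
  · rw [norm_mul, Real.log_mul (norm_ne_zero_iff.mpr h0) (norm_ne_zero_iff.mpr k0), h1, k1]
  · have e : (f' * g t + f t * g') / (f t * g t) = f' / f t + g' / g t := by
      field_simp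
    rw [e, Complex.add_im, h3, k3]

lemma HD.inv {f : ℝ → ℂ} {t l θ : ℝ} (hf : HD f t l θ) : HD (fun s => (f s)⁻¹) t (-l) (-θ) := by
  obtain ⟨h0, h1, f', h2, h3⟩ := hf
  refine ⟨inv_ne_zero h0, ?_, -f' / f t ^ 2, h2.inv h0, ?_⟩
  · rw [norm_inv, Real.log_inv, h1]
  · have e : -f' / f t ^ 2 / (f t)⁻¹ = -(f' / f t) := by
      field_simp
    rw [e, Complex.neg_im, h3]

lemma HD.neg {f : ℝ → ℂ} {t l θ : ℝ} (hf : HD f t l θ) : HD (fun s => -f s) t l θ := by
  obtain ⟨h0, h1, f', h2, h3⟩ := hf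
  refine ⟨neg_ne_zero.mpr h0, ?_, -f', h2.neg, ?_⟩
  · rw [norm_neg, h1]
  · rw [neg_div_neg_eq, h3]

lemma HD.const {c : ℂ} (hc : c ≠ 0) (t : ℝ) : HD (fun _ => c) t (Real.log ‖c‖) 0 :=
  ⟨hc, rfl, 0, hasDerivAt_const t c, by simp⟩

lemma HD.of {f : ℝ → ℂ} {t : ℝ} {f' : ℂ} (h : HasDerivAt f f' t) (h0 : f t ≠ 0) :
    HD f t (Real.log ‖f t‖) (f' / f t).im :=
  ⟨h0, rfl, f', h, rfl⟩

lemma HD.eventually_ne {f : ℝ → ℂ} {t l θ : ℝ} (hf : HD f t l θ) : ∀ᶠ s in 𝓝 t, f s ≠ 0 := by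
  obtain ⟨h0, _, f', h2, _⟩ := hf
  exact h2.continuousAt.eventually_ne h0

/-- the derivative of `BW` -/
lemma HD.bw {f : ℝ → ℂ} {t l θ l' θ' : ℝ} (hf : HD f t l θ)
    (hg : HD (fun s => 1 - f s) t l' θ') :
    HasDerivAt (fun s => BW (f s)) (l * θ' - l' * θ) t := by
  obtain ⟨h0, h1, f', h2, h3⟩ := hf
  obtain ⟨k0, k1, g', k2, k3⟩ := hg
  have e : g' = -f' := k2.unique (h2.const_sub 1)
  have h4 : f t ≠ 1 := fun h => k0 (by simp only [h, sub_self])
  have h5 := hasDerivAt_BW h2 h0 h4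
  simp only at k1 k3
  rw [h1, h3, k1, ← e, k3] at h5
  exact h5

lemma BW_zero : BW 0 = 0 := by
  have := BW_inv 0
  rw [inv_zero] at this
  linarith

lemma BW_one : BW 1 = 0 := by
  have := BW_real 1
  simpa using this

lemma BW_div (a b : ℂ) : BW (a / b) = -BW (b / a) := by
  rw [← inv_div b a, BW_inv]

lemma cont_div {N D : ℂ → ℂ} {X : ℂ} (hN : ContinuousAt N X) (hD : ContinuousAt D X)
    (h : N X ≠ 0 ∨ D X ≠ 0) : ContinuousAt (fun Y => BW (N Y / D Y)) X := by
  rcases h with h | h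
  · have e : (fun Y => BW (N Y / D Y)) = fun Y => -BW (D Y / N Y) := by
      funext Y
      exact BW_div _ _
    rw [e]
    exact (continuous_BW.continuousAt.comp (hD.div hN h)).neg
  · exact continuous_BW.continuousAt.comp (hN.div hD h)

lemma eq_zero_of_dense {Φ : ℂ → ℝ} {D : Set ℂ} (hD : Dense D) (h0 : ∀ y ∈ D, Φ y = 0) {y : ℂ}
    (hc : ContinuousAt Φ y) : Φ y = 0 := by
  have h1 : (𝓝[D] y).NeBot := mem_closure_iff_nhdsWithin_neBot.mp (hD y)
  have h2 : Tendsto Φ (𝓝[D] y) (𝓝 (Φ y)) := hc.mono_left nhdsWithin_le_nhds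
  have h3 : Tendsto Φ (𝓝[D] y) (𝓝 0) := by
    refine tendsto_const_nhds.congr' ?_
    filter_upwards [self_mem_nhdsWithin] with z hz
    exact (h0 z hz).symm
  exact tendsto_nhds_unique h2 h3

lemma open_im (c : ℂ) (a : ℝ) : IsOpen {y : ℂ | (y * c).im ≠ a} := by
  have : Continuous fun y : ℂ => (y * c).im :=
    Complex.continuous_im.comp (continuous_id.mul continuous_const)
  exact isOpen_ne.preimage this

lemma dense_im {c : ℂ} (hc : c ≠ 0) (a : ℝ) : Dense {y : ℂ | (y * c).im ≠ a} := by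
  rw [Metric.dense_iff]
  intro y r hr
  by_cases h : (y * c).im = a
  · have hc' : 0 < ‖c‖ := norm_pos_iff.mpr hc
    refine ⟨y + (r / 2 * ‖c‖ : ℝ) * (Complex.I / c), ?_, ?_⟩
    · rw [Metric.mem_ball, dist_eq_norm, add_sub_cancel_left, norm_mul, norm_div, Complex.norm_I,
        Complex.norm_real, Real.norm_eq_abs, abs_of_pos (by positivity)]
      have : r / 2 * ‖c‖ * (1 / ‖c‖) = r / 2 := by field_simp
      rw [this]
      linarith
    · show ((y + (r / 2 * ‖c‖ : ℝ) * (Complex.I / c)) * c).im ≠ a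
      have : (y + (r / 2 * ‖c‖ : ℝ) * (Complex.I / c)) * c = y * c + (r / 2 * ‖c‖ : ℝ) *
          Complex.I := by
        field_simp
      rw [this, Complex.add_im, h, Complex.im_ofReal_mul, Complex.I_im, mul_one]
      have : 0 < r / 2 * ‖c‖ := by positivity
      linarith
  · exact ⟨y, Metric.mem_ball_self hr, h⟩

/-- a function with vanishing derivative on `(0, 1]` -/
lemma const_path {Ψ : ℝ → ℝ} (hc : ContinuousOn Ψ (Set.Icc 0 1))
    (hd : ∀ t ∈ Set.Ioo (0 : ℝ) 1, HasDerivAt Ψ 0 t) (h0 : Ψ 0 = 0) : Ψ 1 = 0 := by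
  obtain ⟨c, _, h⟩ := exists_hasDerivAt_eq_slope Ψ (fun _ => 0) zero_lt_one hc hd
  rw [h0] at h
  simpa using h.symm

/-- the five-term relation: the difference of the two sides -/
noncomputable def F5 (x y : ℂ) : ℝ :=
  BW x + BW y + BW (1 / (x * y)) - (BW ((1 - y⁻¹) / (1 - x)) + BW ((1 - x⁻¹) / (1 - y)))

lemma F5_cont {x y : ℂ} (_hx0 : x ≠ 0) (hx1 : x ≠ 1) (hy : y ≠ 0) : ContinuousAt (F5 x) y := by
  have c1 : ContinuousAt (fun y : ℂ => BW (1 / (x * y))) y :=
    cont_div continuousAt_const (continuousAt_const.mul continuousAt_id) (Or.inl one_ne_zero)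
  have c2 : ContinuousAt (fun y : ℂ => BW ((1 - y⁻¹) / (1 - x))) y :=
    cont_div (continuousAt_const.sub (continuousAt_id.inv₀ hy)) continuousAt_const
      (Or.inr (sub_ne_zero.mpr hx1.symm))
  have c3 : ContinuousAt (fun y : ℂ => BW ((1 - x⁻¹) / (1 - y))) y :=
    cont_div continuousAt_const (continuousAt_const.sub continuousAt_id)
      (Or.inl (sub_ne_zero.mpr fun h => hx1 (by rw [← inv_inv x, ← h, inv_one])))
  exact ((continuousAt_const.add continuous_BW.continuousAt).add c1).sub (c2.add c3)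

lemma F5_deriv {x : ℂ} (hx0 : x ≠ 0) (hx1 : x ≠ 1) {y : ℝ → ℂ} {y' : ℂ} {t : ℝ}
    (hy : HasDerivAt y y' t) (h0 : y t ≠ 0) (h1 : 1 - y t ≠ 0) (h2 : 1 - x * y t ≠ 0) :
    HasDerivAt (fun s => F5 x (y s)) 0 t := by
  have a : HD y t _ _ := HD.of hy h0
  have b : HD (fun s => 1 - y s) t _ _ := HD.of (hy.const_sub 1) h1
  have c : HD (fun s => 1 - x * y s) t _ _ := HD.of ((hy.const_mul x).const_sub 1) h2
  have p : HD (fun _ => x) t _ _ := HD.const hx0 t
  have hq0 : 1 - x ≠ 0 := sub_ne_zero.mpr hx1.symm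
  have q : HD (fun _ => 1 - x) t _ _ := HD.const hq0 t
  have na := a.eventually_ne
  have nb := b.eventually_ne
  have d2 := HD.bw a b
  -- the third term
  have d3 := HD.bw (f := fun s => 1 / (x * y s))
    ((p.mul a).inv.congr (Eventually.of_forall fun s => one_div _))
    ((c.neg.mul (p.mul a).inv).congr (by
      filter_upwards [na] with s hs
      field_simp
      ring))
  have d4 := HD.bw (f := fun s => (1 - (y s)⁻¹) / (1 - x))
    ((b.neg.mul (a.mul q).inv).congr (by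
      filter_upwards [na] with s hs
      field_simp
      ring))
    ((c.mul (a.mul q).inv).congr (by
      filter_upwards [na] with s hs
      field_simp
      ring))
  have d5 := HD.bw (f := fun s => (1 - x⁻¹) / (1 - y s))
    ((q.neg.mul (p.mul b).inv).congr (by
      filter_upwards [nb] with s hs
      field_simp
      ring))
    ((c.mul (p.mul b).inv).congr (by
      filter_upwards [nb] with s hs
      field_simp
      ring))
  have d := (((hasDerivAt_const t (BW x)).add d2).add d3).sub (d4.add d5)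
  refine (d.congr_deriv ?_)
  ring

lemma F5_good {x : ℂ} (hx0 : x ≠ 0) (hx1 : x ≠ 1) {y : ℂ} (h1 : (y * 1).im ≠ 0)
    (h2 : (y * (x⁻¹ - 1)⁻¹).im ≠ ((x⁻¹ - 1)⁻¹).im) : F5 x y = 0 := by
  rw [mul_one] at h1
  have hk : x⁻¹ - 1 ≠ 0 := sub_ne_zero.mpr fun h => hx1 (by rw [← inv_inv x, h, inv_one])
  set Y : ℝ → ℂ := fun s => 1 + s * (y - 1) with hY
  have him : ∀ s : ℝ, (Y s).im = s * y.im := by
    intro s
    simp [hY]
  have hYc : Continuous Y := by
    rw [hY]
    fun_prop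
  have hYd : ∀ t : ℝ, HasDerivAt Y (y - 1) t := by
    intro t
    have := ((Complex.ofRealCLM.hasDerivAt (x := t)).mul_const (y - 1)).const_add 1
    simpa [hY] using this
  have hY0 : ∀ s : ℝ, Y s ≠ 0 := by
    intro s hs
    have h := him s
    rw [hs, Complex.zero_im] at h
    rcases mul_eq_zero.mp h.symm with h3 | h3
    · rw [hY] at hs
      simp only [h3, Complex.ofReal_zero, zero_mul, add_zero] at hs
      exact one_ne_zero hs
    · exact h1 h3
  have key := const_path (Ψ := fun s => F5 x (Y s)) ?_ ?_ ?_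
  · simp only [hY, Complex.ofReal_one, one_mul, add_sub_cancel] at key
    exact key
  · intro s _
    exact ((F5_cont hx0 hx1 (hY0 s)).comp hYc.continuousAt).continuousWithinAt
  · intro t ht
    refine F5_deriv hx0 hx1 (hYd t) (hY0 t) ?_ ?_
    · intro h
      have h3 := him t
      have h4 : Y t = 1 := (sub_eq_zero.mp h).symm
      rw [h4, Complex.one_im] at h3
      rcases mul_eq_zero.mp h3.symm with h5 | h5
      · exact ht.1.ne' h5
      · exact h1 h5
    · intro h
      have h3 : x * Y t = 1 := (sub_eq_zero.mp h).symm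
      have h4 : Y t = x⁻¹ := by
        exact eq_inv_of_mul_eq_one_right h3
      have h5 : (t : ℂ) * (y - 1) = x⁻¹ - 1 := by
        rw [← h4, hY]
        ring
      have h6 : (t : ℂ) * ((y - 1) * (x⁻¹ - 1)⁻¹) = 1 := by
        rw [← mul_assoc, h5, mul_inv_cancel₀ hk]
      have h7 := congrArg Complex.im h6
      rw [Complex.im_ofReal_mul, Complex.one_im] at h7
      rcases mul_eq_zero.mp h7 with h8 | h8
      · exact ht.1.ne' h8
      · rw [sub_mul, one_mul, Complex.sub_im] at h8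
        exact h2 (sub_eq_zero.mp h8)
  · simp only [hY, Complex.ofReal_zero, zero_mul, add_zero, F5, BW_one, mul_one, inv_one, sub_self,
      zero_div, div_zero, BW_zero, one_div, BW_inv]
    ring

end BWAux

open BWAux in
/-- the five-term relation -/
theorem BW_five {x y : ℂ} (hx0 : x ≠ 0) (hy0 : y ≠ 0) :
    BW x + BW y + BW (1 / (x * y)) = BW ((1 - y⁻¹) / (1 - x)) + BW ((1 - x⁻¹) / (1 - y)) := by
  rcases eq_or_ne x 1 with rfl | hx1
  · rw [sub_self, div_zero, inv_one, sub_self, zero_div, BW_zero, one_mul, one_div, BW_inv, BW_one]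
    ring
  · have hk : x⁻¹ - 1 ≠ 0 := sub_ne_zero.mpr fun h => hx1 (by rw [← inv_inv x, h, inv_one])
    have hD := (dense_im (c := 1) one_ne_zero 0).inter_of_isOpen_left
      (dense_im (inv_ne_zero hk) ((x⁻¹ - 1)⁻¹).im) (open_im 1 0)
    have := eq_zero_of_dense hD (fun y hy => F5_good hx0 hx1 hy.1 hy.2) (F5_cont hx0 hx1 hy0)
    exact sub_eq_zero.mp this

theorem gZ_inv (Z : ℂ) (X : ℂ) : gZ Z X⁻¹ = -gZ Z X := by
  have e1 : -(Z / X⁻¹) = -(Z * X) := by rw [div_inv_eq_mul]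
  have e2 : -(1 / (Z * X⁻¹)) = -(X / Z) := by rw [one_div, mul_inv, inv_inv, mul_comm, div_eq_mul_inv]
  have e3 : -(Z / X) = (-(X / Z))⁻¹ := by rw [inv_neg, inv_div]
  have e4 : -(1 / (Z * X)) = (-(Z * X))⁻¹ := by rw [inv_neg, one_div]
  rw [gZ, gZ, e1, e2, e3, e4, BW_inv, BW_inv, BW_inv]
  ring

namespace BWAux

/-- the seven-term relation: the difference of the two sides -/
noncomputable def F7 (Z X : ℂ) : ℝ := gZ Z X - gZ Z (mob Z X) - BW (mob Z X / X)

lemma gmob (Z X : ℂ) : gZ Z (mob Z X) =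
    BW (-((1 + Z + Z⁻¹) * X + 1) / (X - 1)) + BW (Z * (X - 1) / ((1 + Z + Z⁻¹) * X + 1)) +
      BW ((X - 1) / (Z * ((1 + Z + Z⁻¹) * X + 1))) := by
  have e1 : mob Z X = -((1 + Z + Z⁻¹) * X + 1) / (X - 1) := by rw [mob, neg_div]
  have e2 : -(Z / mob Z X) = Z * (X - 1) / ((1 + Z + Z⁻¹) * X + 1) := by
    rw [mob, div_neg, neg_neg, div_div_eq_mul_div]
  have e3 : -(1 / (Z * mob Z X)) = (X - 1) / (Z * ((1 + Z + Z⁻¹) * X + 1)) := by
    rw [mob, mul_neg, div_neg, neg_neg, mul_div_assoc', one_div_div]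
  rw [gZ, e2, e3, ← e1]

lemma rmob (Z X : ℂ) : mob Z X / X = -((1 + Z + Z⁻¹) * X + 1) / ((X - 1) * X) := by
  rw [mob, ← neg_div, div_div]

lemma F7_cont {Z : ℂ} (hZ : Z ≠ 0) (hZ1 : 1 + Z ≠ 0) (X : ℂ) : ContinuousAt (F7 Z) X := by
  have cI : ContinuousAt (fun Y : ℂ => Y) X := continuousAt_id
  have cA : ContinuousAt (fun Y : ℂ => (1 + Z + Z⁻¹) * Y + 1) X :=
    (continuousAt_const.mul cI).add continuousAt_const
  have cM : ContinuousAt (fun Y : ℂ => Y - 1) X := cI.sub continuousAt_const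
  -- the two polynomials have no common zero
  have hne : X - 1 ≠ 0 ∨ (1 + Z + Z⁻¹) * X + 1 ≠ 0 := by
    by_cases h : X - 1 = 0
    · right
      rw [sub_eq_zero.mp h]
      have : (1 + Z + Z⁻¹) * 1 + 1 = (1 + Z) ^ 2 / Z := by
        field_simp
        ring
      rw [this]
      exact div_ne_zero (pow_ne_zero 2 hZ1) hZ
    · exact Or.inl h
  have c1 : ContinuousAt (fun Y => BW Y) X := continuous_BW.continuousAt
  have c2 : ContinuousAt (fun Y : ℂ => BW (-(Z / Y))) X := by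
    have := cont_div (N := fun _ => -Z) (X := X) continuousAt_const cI (Or.inl (neg_ne_zero.mpr hZ))
    simpa only [neg_div] using this
  have c3 : ContinuousAt (fun Y : ℂ => BW (-(1 / (Z * Y)))) X := by
    have := cont_div (N := fun _ => (-1 : ℂ)) (D := fun Y => Z * Y) (X := X) continuousAt_const
      (continuousAt_const.mul cI) (Or.inl (neg_ne_zero.mpr one_ne_zero))
    simpa only [neg_div] using this
  have c4 : ContinuousAt (fun Y : ℂ => BW (-((1 + Z + Z⁻¹) * Y + 1) / (Y - 1))) X :=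
    cont_div cA.neg cM (hne.symm.imp neg_ne_zero.mpr id)
  have c5 : ContinuousAt (fun Y : ℂ => BW (Z * (Y - 1) / ((1 + Z + Z⁻¹) * Y + 1))) X :=
    cont_div (continuousAt_const.mul cM) cA (hne.imp (mul_ne_zero hZ) id)
  have c6 : ContinuousAt (fun Y : ℂ => BW ((Y - 1) / (Z * ((1 + Z + Z⁻¹) * Y + 1)))) X :=
    cont_div cM (continuousAt_const.mul cA) (hne.imp id (mul_ne_zero hZ))
  have c7 : ContinuousAt (fun Y : ℂ => BW (-((1 + Z + Z⁻¹) * Y + 1) / ((Y - 1) * Y))) X := by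
    refine cont_div cA.neg (cM.mul cI) ?_
    by_cases h : X = 0
    · left
      rw [h]
      simp
    · exact (hne.imp (fun h1 => mul_ne_zero h1 h) neg_ne_zero.mpr).symm
  have e : F7 Z = fun Y => (BW Y + BW (-(Z / Y)) + BW (-(1 / (Z * Y)))) -
      (BW (-((1 + Z + Z⁻¹) * Y + 1) / (Y - 1)) + BW (Z * (Y - 1) / ((1 + Z + Z⁻¹) * Y + 1)) +
      BW ((Y - 1) / (Z * ((1 + Z + Z⁻¹) * Y + 1)))) -
      BW (-((1 + Z + Z⁻¹) * Y + 1) / ((Y - 1) * Y)) := by
    funext Y
    rw [F7, gmob, rmob, gZ]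
  rw [e]
  exact (((c1.add c2).add c3).sub ((c4.add c5).add c6)).sub c7

lemma F7_deriv {Z : ℂ} (hZ : Z ≠ 0) (hZ1 : 1 + Z ≠ 0) {X : ℝ → ℂ} {X' : ℂ} {t : ℝ}
    (hX : HasDerivAt X X' t) (h0 : X t ≠ 0) (h1 : X t - 1 ≠ 0) (h2 : X t + Z ≠ 0)
    (h3 : 1 + Z * X t ≠ 0) (h4 : (1 + Z + Z⁻¹) * X t + 1 ≠ 0) :
    HasDerivAt (fun s => F7 Z (X s)) 0 t := by
  have x : HD X t _ _ := HD.of hX h0
  have u : HD (fun s => X s - 1) t _ _ := HD.of (hX.sub_const 1) h1
  have v : HD (fun s => X s + Z) t _ _ := HD.of (hX.add_const Z) h2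
  have w : HD (fun s => 1 + Z * X s) t _ _ := HD.of ((hX.const_mul Z).const_add 1) h3
  have a : HD (fun s => (1 + Z + Z⁻¹) * X s + 1) t _ _ :=
    HD.of ((hX.const_mul (1 + Z + Z⁻¹)).add_const 1) h4
  have z : HD (fun _ => Z) t _ _ := HD.const hZ t
  have e : HD (fun _ => 1 + Z) t _ _ := HD.const hZ1 t
  have nx := x.eventually_ne
  have nu := u.eventually_ne
  have na := a.eventually_ne
  have d1 := HD.bw x (u.neg.congr (Eventually.of_forall fun s => (neg_sub _ _).symm))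
  have d2 := HD.bw (f := fun s => -(Z / X s))
    ((z.mul x.inv).neg.congr (Eventually.of_forall fun s => by simp only [div_eq_mul_inv]))
    ((v.mul x.inv).congr (by
      filter_upwards [nx] with s hs
      field_simp
      ring))
  have d3 := HD.bw (f := fun s => -(1 / (Z * X s)))
    ((z.mul x).inv.neg.congr (Eventually.of_forall fun s => by simp only [one_div]))
    ((w.mul (z.mul x).inv).congr (by
      filter_upwards [nx] with s hs
      field_simp
      ring))
  have d4 := HD.bw (f := fun s => -((1 + Z + Z⁻¹) * X s + 1) / (X s - 1))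
    ((a.neg.mul u.inv).congr (Eventually.of_forall fun s => by simp only [div_eq_mul_inv]))
    (((x.mul (e.mul e)).mul (z.mul u).inv).congr (by
      filter_upwards [nu] with s hs
      field_simp
      ring))
  have d5 := HD.bw (f := fun s => Z * (X s - 1) / ((1 + Z + Z⁻¹) * X s + 1))
    (((z.mul u).mul a.inv).congr (Eventually.of_forall fun s => by simp only [div_eq_mul_inv]))
    (((e.mul v).mul (z.mul a).inv).congr (by
      filter_upwards [na] with s hs
      have hs' : Z * ((1 + Z + Z⁻¹) * X s + 1) ≠ 0 := mul_ne_zero hZ hs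
      rw [← div_eq_mul_inv, eq_div_iff hs', sub_mul, div_mul_eq_mul_div, sub_eq_iff_eq_add]
      rw [eq_comm, ← eq_sub_iff_add_eq']
      rw [div_eq_iff hs]
      field_simp
      ring))
  have d6 := HD.bw (f := fun s => (X s - 1) / (Z * ((1 + Z + Z⁻¹) * X s + 1)))
    ((u.mul (z.mul a).inv).congr (Eventually.of_forall fun s => by simp only [div_eq_mul_inv]))
    (((e.mul w).mul (z.mul a).inv).congr (by
      filter_upwards [na] with s hs
      have hs' : Z * ((1 + Z + Z⁻¹) * X s + 1) ≠ 0 := mul_ne_zero hZ hs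
      rw [← div_eq_mul_inv, eq_div_iff hs', sub_mul, div_mul_cancel₀ _ hs']
      field_simp
      ring))
  have d7 := HD.bw (f := fun s => -((1 + Z + Z⁻¹) * X s + 1) / ((X s - 1) * X s))
    ((a.neg.mul (u.mul x).inv).congr (Eventually.of_forall fun s => by simp only [div_eq_mul_inv]))
    (((v.mul w).mul (z.mul (u.mul x)).inv).congr (by
      filter_upwards [nu, nx] with s hs hs'
      field_simp
      ring))
  have d := (((d1.add d2).add d3).sub ((d4.add d5).add d6)).sub d7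
  have e0 : (fun s => F7 Z (X s)) = fun s => (BW (X s) + BW (-(Z / X s)) +
      BW (-(1 / (Z * X s)))) - (BW (-((1 + Z + Z⁻¹) * X s + 1) / (X s - 1)) +
      BW (Z * (X s - 1) / ((1 + Z + Z⁻¹) * X s + 1)) +
      BW ((X s - 1) / (Z * ((1 + Z + Z⁻¹) * X s + 1)))) -
      BW (-((1 + Z + Z⁻¹) * X s + 1) / ((X s - 1) * X s)) := by
    funext s
    rw [F7, gmob, rmob, gZ]
  rw [e0]
  refine (d.congr_deriv ?_)
  ring

lemma F7_good {Z : ℂ} (hZ : Z ≠ 0) (hZ1 : 1 + Z ≠ 0) {X : ℂ} (h1 : (X * 1).im ≠ 0)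
    (h2 : (X * Z).im ≠ 0) (h3 : (X * Z⁻¹).im ≠ 0)
    (h4 : 1 + Z + Z⁻¹ = 0 ∨ (X * (1 + Z + Z⁻¹)).im ≠ 0) : F7 Z X = 0 := by
  rw [mul_one] at h1
  set Y : ℝ → ℂ := fun s => s * X with hY
  have hYc : Continuous Y := by
    rw [hY]
    fun_prop
  have hYd : ∀ t : ℝ, HasDerivAt Y X t := by
    intro t
    have := (Complex.ofRealCLM.hasDerivAt (x := t)).mul_const X
    simpa [hY] using this
  -- a multiple `c Y t` is not real
  have hr : ∀ (c : ℂ) (t : ℝ), 0 < t → (X * c).im ≠ 0 → ∀ r : ℝ, c * Y t ≠ r := by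
    intro c t ht hc r h
    have h5 : (t : ℂ) * (X * c) = r := by
      rw [← h, hY]
      ring
    have h6 := congrArg Complex.im h5
    rw [Complex.im_ofReal_mul, Complex.ofReal_im] at h6
    rcases mul_eq_zero.mp h6 with h7 | h7
    · exact ht.ne' h7
    · exact hc h7
  have key := const_path (Ψ := fun s => F7 Z (Y s)) ?_ ?_ ?_
  · simp only [hY, Complex.ofReal_one, one_mul] at key
    exact key
  · intro s _
    exact ((F7_cont hZ hZ1 (Y s)).comp hYc.continuousAt).continuousWithinAt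
  · intro t ht
    refine F7_deriv hZ hZ1 (hYd t) ?_ ?_ ?_ ?_ ?_
    · intro h
      exact hr 1 t ht.1 (by rwa [mul_one]) 0 (by rw [h, mul_zero, Complex.ofReal_zero])
    · intro h
      exact hr 1 t ht.1 (by rwa [mul_one]) 1 (by
        rw [sub_eq_zero.mp h, mul_one, Complex.ofReal_one])
    · intro h
      refine hr Z⁻¹ t ht.1 h3 (-1) ?_
      rw [eq_neg_of_add_eq_zero_left h, mul_neg, inv_mul_cancel₀ hZ, Complex.ofReal_neg,
        Complex.ofReal_one]
    · intro h
      refine hr Z t ht.1 h2 (-1) ?_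
      rw [eq_neg_of_add_eq_zero_right h, Complex.ofReal_neg, Complex.ofReal_one]
    · intro h
      rcases h4 with h4 | h4
      · rw [h4, zero_mul, zero_add] at h
        exact one_ne_zero h
      · refine hr (1 + Z + Z⁻¹) t ht.1 h4 (-1) ?_
        rw [eq_neg_of_add_eq_zero_left h, Complex.ofReal_neg, Complex.ofReal_one]
  · simp only [hY, Complex.ofReal_zero, zero_mul, F7, gZ, mob, mul_zero, zero_add, zero_sub,
      div_zero, neg_zero, BW_zero, div_neg, div_one, neg_neg, BW_one, mul_one, one_div,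
      sub_zero, add_zero]
    have : -Z⁻¹ = (-Z)⁻¹ := by rw [inv_neg]
    rw [this, BW_inv]
    ring

end BWAux

open BWAux in
theorem BW_seven {Z : ℂ} (hZ : Z ≠ 0) (X : ℂ) :
    gZ Z X - gZ Z (mob Z X) = BW (mob Z X / X) := by
  by_cases hZ1 : 1 + Z = 0
  · -- `Z = -1`
    have hZ2 : Z = -1 := eq_neg_of_add_eq_zero_right hZ1
    subst hZ2
    have h1 : gZ (-1) X = BW X⁻¹ := by
      have e1 : -((-1 : ℂ) / X) = X⁻¹ := by rw [neg_div, neg_neg, one_div]
      have e2 : -(1 / ((-1 : ℂ) * X)) = X⁻¹ := by rw [neg_one_mul, div_neg, neg_neg, one_div]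
      rw [gZ, e1, e2, BW_inv]
      ring
    have h2 : gZ (-1) (1 : ℂ) = 0 := by
      rw [gZ]
      norm_num
      rw [BW_one]
      norm_num
    have h3 : gZ (-1) (0 : ℂ) = 0 := by
      rw [gZ]
      norm_num
      rw [BW_zero]
      norm_num
    by_cases hX : X = 1
    · subst hX
      have h4 : mob (-1) 1 = 0 := by
        rw [mob]
        norm_num
      rw [h4, h2, h3, zero_div, BW_zero, sub_zero]
    · have h4 : mob (-1) X = 1 := by
        have h5 : X - 1 ≠ 0 := sub_ne_zero.mpr hX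
        rw [mob]
        have h6 : (1 + (-1 : ℂ) + (-1)⁻¹) * X + 1 = -(X - 1) := by
          rw [inv_neg, inv_one]
          ring
        rw [h6, neg_div, neg_neg, div_self h5]
      rw [h4, h1, h2, sub_zero, one_div]
  · have hd1 := dense_im (c := 1) one_ne_zero 0
    have hd2 := dense_im hZ 0
    have hd3 := dense_im (inv_ne_zero hZ) 0
    have h12 := hd1.inter_of_isOpen_left hd2 (open_im 1 0)
    have h123 := h12.inter_of_isOpen_left hd3 ((open_im 1 0).inter (open_im Z 0))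
    have ho := ((open_im 1 0).inter (open_im Z 0)).inter (open_im Z⁻¹ 0)
    by_cases hκ : 1 + Z + Z⁻¹ = 0
    · have := eq_zero_of_dense h123
        (fun y hy => F7_good hZ hZ1 hy.1.1 hy.1.2 hy.2 (Or.inl hκ)) (F7_cont hZ hZ1 X)
      exact sub_eq_zero.mp this
    · have hd := h123.inter_of_isOpen_left (dense_im hκ 0) ho
      have := eq_zero_of_dense hd
        (fun y hy => F7_good hZ hZ1 hy.1.1.1 hy.1.1.2 hy.1.2 (Or.inr hy.2)) (F7_cont hZ hZ1 X)
      exact sub_eq_zero.mp this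

end Pool.Agent.Work.MP_b30479_gt.G2
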