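import Pool.Agent.Work.MP_b30479_gt.G2.MRX
import Pool.Agent.Work.NumU.Expr

/-!
# The right ramp of the hinge `1 | 2`: real forms and expressions

`T` is the height in the frame of the digit `1`, the path is `.80 | .16 | .29`.
-/

namespace Pool.Agent.Work.MP_b30479_gt.G2

open VOL NumU

namespace C12

/-! ### real forms -/

/-- height on the ramp -/
noncomputable def tt (T x : ℝ) : ℝ := T * (100 / 29 * (8 / 10 - x))

/-- slope -/
noncomputable def mm (T : ℝ) : ℝ := -100 / 29 * T

noncomputable def fP (x T : ℝ) : ℝ :=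
  (30 / 100 - 90 / 100 * (x - 535 / 1000)) + (9 / 1 - 3 / 1 * (x - 535 / 1000)) * T

noncomputable def fZ (x T : ℝ) : ℝ :=
  (438 / 1000 - 60 / 100 * (x - 56 / 100)) + (845 / 100 + 2 / 1 * (x - 56 / 100)) * T

noncomputable def F1 (x T : ℝ) : ℝ :=
  55 / 100 * (x - 535 / 1000) + (1 / 10 + 81 / 10 * (x - 535 / 1000)) * T

noncomputable def G1 (x T : ℝ) : ℝ :=
  95 / 1000 + (95 / 100 * (x - 535 / 1000) - 24 / 10 * (x - 535 / 1000) ^ 2) +
    (10 / 1 * (x - 535 / 1000) - 1 / 10) * T

noncomputable def F3 (x T : ℝ) : ℝ :=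
  1255 / 10000 + 36 / 100 * (x - 75 / 100) + (205 / 100 + 10 / 1 * (x - 75 / 100)) * T

/-- change of `V1` if the own hinge `x + i t` moves to `c + i T`; `cn`, `un`: the values of `UU` at
the sums -/
noncomputable def g1 (c T x t x' t' cn un : ℝ) : ℝ :=
  Real.pi * ((c - x) * t' + (T - t) * (x' - 1)) + ((cn - un) + (uu x t - uu c T))

/-- the same for `V2`, the own hinge `x - i t` moves to `c - i T` -/
noncomputable def g2 (c T x t x' t' cn un : ℝ) : ℝ :=
  Real.pi * ((c - x') * (T + t') - (x - x') * (t + t') + 1 / 2 * (T - t)) +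
    ((cn - un) + 2 * (uu x t - uu c T))

/-- gain of the digit `1` -/
noncomputable def gn1 (c x T x' t' : ℝ) : ℝ :=
  g1 c T x (tt T x) x' t' (uu (c + x') (T + t')) (uu (x + x') (tt T x + t'))

/-- gain of the digit `2` -/
noncomputable def gn2 (c x T x' t' : ℝ) : ℝ :=
  g2 c T x (tt T x) x' t' (uu (c + x') (t' - T)) (uu (x + x') (t' - tt T x))

/-! ### expressions -/

section
open NumU.E

def et (x T : E) : E := mul T (mul (q 100 29) (sub (q 8 10) x))
def em (T : E) : E := mul (q (-100) 29) T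

def eF1 (x T : E) : E :=
  add (mul (q 55 100) (sub x (q 535 1000)))
    (mul (add (q 1 10) (mul (q 81 10) (sub x (q 535 1000)))) T)

def eG1 (x T : E) : E :=
  add (add (q 95 1000) (sub (mul (q 95 100) (sub x (q 535 1000)))
    (mul (q 24 10) (sq (sub x (q 535 1000))))))
    (mul (sub (mul (q 10 1) (sub x (q 535 1000))) (q 1 10)) T)

def eF3 (x T : E) : E :=
  add (add (q 1255 10000) (mul (q 36 100) (sub x (q 75 100))))
    (mul (add (q 205 100) (mul (q 10 1) (sub x (q 75 100)))) T)

def eg1 (c T x t x' t' cn un : E) : E :=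
  add (mul pi (add (mul (sub c x) t') (mul (sub T t) (sub x' (q 1 1)))))
    (add (sub cn un) (sub (E.uu x t) (E.uu c T)))

def eg2 (c T x t x' t' cn un : E) : E :=
  add (mul pi (add (sub (mul (sub c x') (add T t')) (mul (sub x x') (add t t')))
    (mul (q 1 2) (sub T t))))
    (add (sub cn un) (mul (q 2 1) (sub (E.uu x t) (E.uu c T))))

theorem et_val (x T : E) (xs : List ℝ) : (et x T).val xs = tt (T.val xs) (x.val xs) := by
  simp only [et, val, tt]
  push_cast
  rfl

theorem em_val (T : E) (xs : List ℝ) : (em T).val xs = mm (T.val xs) := by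
  simp only [em, val, mm]
  push_cast
  rfl

theorem eF1_val (x T : E) (xs : List ℝ) : (eF1 x T).val xs = F1 (x.val xs) (T.val xs) := by
  simp only [eF1, val, F1]
  push_cast
  ring

theorem eG1_val (x T : E) (xs : List ℝ) : (eG1 x T).val xs = G1 (x.val xs) (T.val xs) := by
  simp only [eG1, val, G1]
  push_cast
  ring

theorem eF3_val (x T : E) (xs : List ℝ) : (eF3 x T).val xs = F3 (x.val xs) (T.val xs) := by
  simp only [eF3, val, F3]
  push_cast
  ring

theorem eg1_val (c T x t x' t' cn un : E) (xs : List ℝ) : (eg1 c T x t x' t' cn un).val xs =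
    g1 (c.val xs) (T.val xs) (x.val xs) (t.val xs) (x'.val xs) (t'.val xs) (cn.val xs)
      (un.val xs) := by
  simp only [eg1, val, g1]
  push_cast
  ring

theorem eg2_val (c T x t x' t' cn un : E) (xs : List ℝ) : (eg2 c T x t x' t' cn un).val xs =
    g2 (c.val xs) (T.val xs) (x.val xs) (t.val xs) (x'.val xs) (t'.val xs) (cn.val xs)
      (un.val xs) := by
  simp only [eg2, val, g2]
  push_cast
  ring

end

/-! ### expressions of `NumI` -/

section
open NumI (lnA lnB)
open NumI.E

def nt (x T : NumI.E) : NumI.E := mul T (mul (q 100 29) (sub (q 8 10) x))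
def nm (T : NumI.E) : NumI.E := mul (q (-100) 29) T

def nfP (x T : NumI.E) : NumI.E :=
  add (sub (q 30 100) (mul (q 90 100) (sub x (q 535 1000))))
    (mul (sub (q 9 1) (mul (q 3 1) (sub x (q 535 1000)))) T)

def nfZ (x T : NumI.E) : NumI.E :=
  add (sub (q 438 1000) (mul (q 60 100) (sub x (q 56 100))))
    (mul (add (q 845 100) (mul (q 2 1) (sub x (q 56 100)))) T)

theorem nt_val (x T : NumI.E) (xs : List ℝ) : (nt x T).val xs = tt (T.val xs) (x.val xs) := by
  simp only [nt, val, tt]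
  push_cast
  rfl

theorem nm_val (T : NumI.E) (xs : List ℝ) : (nm T).val xs = mm (T.val xs) := by
  simp only [nm, val, mm]
  push_cast
  rfl

theorem nfP_val (x T : NumI.E) (xs : List ℝ) : (nfP x T).val xs = fP (x.val xs) (T.val xs) := by
  simp only [nfP, val, fP]
  push_cast
  ring

theorem nfZ_val (x T : NumI.E) (xs : List ℝ) : (nfZ x T).val xs = fZ (x.val xs) (T.val xs) := by
  simp only [nfZ, val, fZ]
  push_cast
  ring

/-- the side of the digit `1` in the variables `x`, `T`, `u = x + x'`, `y = t + t'` -/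
noncomputable def p1 (T x u y : ℝ) : ℝ :=
  Real.pi * (y - tt T x) + lnA u y - lnA x (tt T x) +
    mm T * (Real.pi * (u - x - 1) - lnB u y + lnB x (tt T x))

/-- the side of the digit `2` in the variables `x`, `T`, `u = x + x'`, `y = t' - t` -/
noncomputable def p2 (T x u y : ℝ) : ℝ :=
  Real.pi * (y + 2 * tt T x) + lnA u y - 2 * lnA x (tt T x) +
    -mm T * (Real.pi * (u - 2 * x - 1 / 2) - lnB u y - 2 * lnB x (tt T x))

def np1 : NumI.E :=
  add (sub (add (mul pi (sub (var 3) (nt (var 0) (var 1)))) (NumI.E.lnA (var 2) (var 3)))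
      (NumI.E.lnA (var 0) (nt (var 0) (var 1))))
    (mul (nm (var 1)) (add (sub (mul pi (sub (sub (var 2) (var 0)) (q 1 1)))
      (NumI.E.lnB (var 2) (var 3))) (NumI.E.lnB (var 0) (nt (var 0) (var 1)))))

def np2 : NumI.E :=
  add (sub (add (mul pi (add (var 3) (mul (q 2 1) (nt (var 0) (var 1))))) (NumI.E.lnA (var 2) (var 3)))
      (mul (q 2 1) (NumI.E.lnA (var 0) (nt (var 0) (var 1)))))
    (mul (neg (nm (var 1))) (sub (sub (mul pi (sub (sub (var 2) (mul (q 2 1) (var 0))) (q 1 2)))
      (NumI.E.lnB (var 2) (var 3))) (mul (q 2 1) (NumI.E.lnB (var 0) (nt (var 0) (var 1))))))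

theorem np1_val (x T u y : ℝ) : np1.val [x, T, u, y] = p1 T x u y := by
  simp only [np1, val, nt_val, nm_val, NumI.lkR, p1]
  push_cast
  ring

theorem np2_val (x T u y : ℝ) : np2.val [x, T, u, y] = p2 T x u y := by
  simp only [np2, val, nt_val, nm_val, NumI.lkR, p2]
  push_cast
  ring

end

/-! ### `uu` near `1` -/

section
open NumI NumI.E

theorem kr_6_187 : MR.Kr (6 / 100) (187 / 1000) (27 / 100) := by
  have h : chk [sub (exp (q 54 100)) (sub (mul (q 2 1) (cosh (mul pi (q 374 1000))))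
      (mul (q 2 1) (cosPi (q 12 100))))] 1 [V.of 1 0 0] = true := by decide +kernel
  have hp := pos_of_chk (chk1 h (by norm_num) (x := 0) (by norm_num) (by norm_num))
  unfold MR.Kr
  simp only [val] at hp
  norm_num at hp ⊢
  linarith only [hp]

theorem kr_6_2 : MR.Kr (6 / 100) (2 / 10) (34 / 100) := by
  have h : chk [sub (exp (q 68 100)) (sub (mul (q 2 1) (cosh (mul pi (q 4 10))))
      (mul (q 2 1) (cosPi (q 12 100))))] 1 [V.of 1 0 0] = true := by decide +kernel
  have hp := pos_of_chk (chk1 h (by norm_num) (x := 0) (by norm_num) (by norm_num))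
  unfold MR.Kr
  simp only [val] at hp
  norm_num at hp ⊢
  linarith only [hp]

end

theorem anti1c0 {s0 y0 c : ℝ} (K : MR.Kr s0 y0 c) (hc : 0 ≤ c) (h1 : s0 ≤ 1 / 2) {a b y : ℝ}
    (hab : a ≤ b) (h : ∀ s ∈ Set.Ioo a b, s ≠ 1 ∧ |s - 1| ≤ s0) (hy : |y| ≤ y0) :
    uu b y ≤ uu a y + c * (b - a) := by
  have hp := Real.pi_pos
  have hpt : ∀ s : ℝ, (y : ℂ) * Complex.I + ((1 * s : ℝ) : ℂ) = ⟨s, y⟩ := by
    intro s
    apply Complex.ext <;> simp
  have hd : ∀ s ∈ Set.Ioo a b, HasDerivAt
      (fun s : ℝ => UU ((y : ℂ) * Complex.I + ((1 * s : ℝ) : ℂ))) (1 * LL ⟨s, y⟩) s := by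
    intro s hs
    have h2 := hasDerivAt_UU_level ((y : ℂ) * Complex.I) 1 s (by
      rw [hpt]
      intro hc
      rw [Complex.sin_eq_zero_iff] at hc
      obtain ⟨k, hk⟩ := hc
      have hk1 : (⟨s, y⟩ : ℂ) = k := by
        have : (Real.pi : ℂ) ≠ 0 := by exact_mod_cast hp.ne'
        apply mul_left_cancel₀ this
        rw [hk]
        ring
      have hk2 := congrArg Complex.re hk1
      simp only [Complex.intCast_re] at hk2
      obtain ⟨a1, a2⟩ := h s hs
      rw [hk2, abs_le] at a2
      have a3 : (0 : ℤ) < k := by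
        have : (0 : ℝ) < k := by linarith only [h1, a2]
        exact_mod_cast this
      have a4 : k < (2 : ℤ) := by
        have : (k : ℝ) < 2 := by linarith only [h1, a2]
        exact_mod_cast this
      apply a1
      rw [hk2]
      have : k = 1 := by omega
      simp [this])
    rw [hpt] at h2
    exact h2
  have hd2 : ∀ s ∈ Set.Ioo a b, HasDerivAt
      (fun s : ℝ => UU ((y : ℂ) * Complex.I + ((1 * s : ℝ) : ℂ)) - c * s)
      (1 * LL ⟨s, y⟩ - c * 1) s :=
    fun s hs => (hd s hs).sub ((hasDerivAt_id s).const_mul c)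
  have hanti : AntitoneOn (fun s : ℝ => UU ((y : ℂ) * Complex.I + ((1 * s : ℝ) : ℂ)) - c * s)
      (Set.Icc a b) := by
    apply antitoneOn_of_deriv_nonpos (convex_Icc _ _)
    · apply Continuous.continuousOn
      exact (continuous_UU.comp (by fun_prop)).sub (by fun_prop)
    · rw [interior_Icc]
      exact fun s hs => (hd2 s hs).differentiableAt.differentiableWithinAt
    · rw [interior_Icc]
      intro s hs
      rw [(hd2 s hs).deriv, one_mul, mul_one]
      have := MR.LL_rect K hc h1 (u := ⟨s, y⟩) (h s hs).2 hy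
      linarith only [this]
  have h2 := hanti (Set.left_mem_Icc.2 hab) (Set.right_mem_Icc.2 hab) hab
  simp only [hpt] at h2
  have h3 : uu b y - c * b ≤ uu a y - c * a := h2
  linarith only [h3]

/-- `uu` near `1` -/
theorem anti1c {s0 y0 c : ℝ} (K : MR.Kr s0 y0 c) (hc : 0 ≤ c) (h1 : s0 ≤ 1 / 2) {a b y : ℝ}
    (ha : 1 - s0 ≤ a) (hab : a ≤ b) (hb : b ≤ 1 + s0) (hy : |y| ≤ y0) :
    uu b y ≤ uu a y + c * (b - a) := by
  rcases le_or_gt 1 a with h | h
  · exact anti1c0 K hc h1 hab (fun s hs => ⟨(lt_of_le_of_lt h hs.1).ne', by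
      rw [abs_le]; constructor <;> linarith only [ha, hs, hb, hs.1, hs.2]⟩) hy
  · rcases le_or_gt b 1 with h' | h'
    · exact anti1c0 K hc h1 hab (fun s hs => ⟨(lt_of_lt_of_le hs.2 h').ne, by
        rw [abs_le]; constructor <;> linarith only [ha, hs, hb, hs.1, hs.2]⟩) hy
    · have e1 := anti1c0 K hc h1 h'.le (fun s hs => ⟨hs.1.ne', by
        rw [abs_le]; constructor <;> linarith only [ha, h, hs, hb, hs.1, hs.2]⟩) hy
      have e2 := anti1c0 K hc h1 h.le (fun s hs => ⟨hs.2.ne, by
        rw [abs_le]; constructor <;> linarith only [ha, hs, h, hs.1, hs.2]⟩) hy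
      linarith only [e1, e2]

end C12

end Pool.Agent.Work.MP_b30479_gt.G2
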