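import Pool.Agent.Work.MP_b30479_gt.G2.C12E
import Pool.Agent.Work.NumU.Tree

/-!
# The right ramp of the hinge `1 | 2`: rows

Found with `NumU.cert`.
-/

set_option linter.unusedSimpArgs false
set_option linter.unusedTactic false
set_option linter.unusedVariables false

namespace Pool.Agent.Work.MP_b30479_gt.G2

namespace C12

open NumU NumU.E
open NumI (V)

/-- 106 boxes -/
theorem D1Za {x T s k : ℝ} (a0 : 5600 / 10000 ≤ x) (b0 : x ≤ 7500 / 10000) (a1 : -180 / 10000 ≤ T) (b1 : T ≤ 985 / 10000)
    (a2 : 700 / 10000 ≤ s) (b2 : s ≤ 1600 / 10000) (a3 : -993 / 10000 ≤ k) (b3 : k ≤ 1450 / 10000)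
    (c0 : (T + (((100 / 16) * k) * s)) - (187 / 1000) ≤ 0) :
    0 < ((fZ x T) - (MR.s1 (mm T) x (tt T x) s (((100 / 16) * k) * s))) := by
  have h : chkT [(emb (NumI.E.sub (nfZ (.var 0) (.var 1)) (MR.e1 (nm (.var 1)) (.var 0) (nt (.var 0) (.var
      1)) (.var 2) (.mul (.mul (.q 100 16) (.var 3)) (.var 2))))), (sub (add (var 1) (mul (mul (q
      100 16) (var 3)) (var 2))) (q 187 1000))] 18
      62362115909425403855011041524956643007182357744204224931204722651567476879256906009795094565853410789055195942648718234759337900995322211995265078663682185468334099068509766775468671259406210924888603634142748563248202846731399851134886789368803773383456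
      [V.of 10000 5600 7500 16, V.of 10000 (-180) 985 16, V.of 10000 700 1600 16, V.of 10000
        (-993) 1450 16] = true := by
    decide +kernel
  obtain ⟨f, hf, hp⟩ := chkT4 h (by norm_num) (x := x) (y := T) (z := s) (w := k)
    (le_trans (by norm_num) a0) (le_trans b0 (by norm_num))
    (le_trans (by norm_num) a1) (le_trans b1 (by norm_num))
    (le_trans (by norm_num) a2) (le_trans b2 (by norm_num))
    (le_trans (by norm_num) a3) (le_trans b3 (by norm_num))
  simp only [List.mem_cons, List.not_mem_nil, or_false] at hf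
  rcases hf with rfl | rfl
  · simp only [eg1_val, eg2_val, eF1_val, eG1_val, eF3_val, et_val, nt_val, nm_val, nfZ_val, nfP_val, np1_val,
      np2_val, MR.e1_val, MR.e2_val, NumU.E.val, NumI.E.val, NumI.lkR] at hp
    push_cast at hp
    try simp only [div_one] at hp
    linarith only [hp]
  · simp only [eg1_val, eg2_val, eF1_val, eG1_val, eF3_val, et_val, nt_val, nm_val, nfZ_val, nfP_val, np1_val,
      np2_val, MR.e1_val, MR.e2_val, NumU.E.val, NumI.E.val, NumI.lkR] at hp
    push_cast at hp
    try simp only [div_one] at hp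
    exfalso
    linarith only [c0, hp]

/-- 127 boxes -/
theorem D1Zb {x T s k : ℝ} (a0 : 5600 / 10000 ≤ x) (b0 : x ≤ 7500 / 10000) (a1 : -180 / 10000 ≤ T) (b1 : T ≤ 985 / 10000)
    (a2 : 1600 / 10000 ≤ s) (b2 : s ≤ 3200 / 10000) (a3 : -930 / 10000 ≤ k) (b3 : k ≤ 1450 /
    10000) (c0 : (T + k) - (187 / 1000) ≤ 0) (c1 : (x + s) - (88 / 100) ≤ 0) :
    0 < ((fZ x T) - (MR.s1 (mm T) x (tt T x) s k)) := by
  have h : chkT [(emb (NumI.E.sub (nfZ (.var 0) (.var 1)) (MR.e1 (nm (.var 1)) (.var 0) (nt (.var 0) (.var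
      1)) (.var 2) (.var 3)))), (sub (add (var 1) (var 3)) (q 187 1000)), (sub (add (var 0) (var
      2)) (q 88 100))] 18
      29257898472531518548574797746711216961768269284524967146985542052890039632706326389539049522079429052625442118067188614550979454727982924141135443919305127522583580381059149453359972152937203361432998294987755895079569590025401082696362450537987087824267732868123528440620438689016521147750021984258490883
      [V.of 10000 5600 7500 16, V.of 10000 (-180) 985 16, V.of 10000 1600 3200 16, V.of 10000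
        (-930) 1450 16] = true := by
    decide +kernel
  obtain ⟨f, hf, hp⟩ := chkT4 h (by norm_num) (x := x) (y := T) (z := s) (w := k)
    (le_trans (by norm_num) a0) (le_trans b0 (by norm_num))
    (le_trans (by norm_num) a1) (le_trans b1 (by norm_num))
    (le_trans (by norm_num) a2) (le_trans b2 (by norm_num))
    (le_trans (by norm_num) a3) (le_trans b3 (by norm_num))
  simp only [List.mem_cons, List.not_mem_nil, or_false] at hf
  rcases hf with rfl | rfl | rfl
  · simp only [eg1_val, eg2_val, eF1_val, eG1_val, eF3_val, et_val, nt_val, nm_val, nfZ_val, nfP_val, np1_val,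
      np2_val, MR.e1_val, MR.e2_val, NumU.E.val, NumI.E.val, NumI.lkR] at hp
    push_cast at hp
    try simp only [div_one] at hp
    linarith only [hp]
  · simp only [eg1_val, eg2_val, eF1_val, eG1_val, eF3_val, et_val, nt_val, nm_val, nfZ_val, nfP_val, np1_val,
      np2_val, MR.e1_val, MR.e2_val, NumU.E.val, NumI.E.val, NumI.lkR] at hp
    push_cast at hp
    try simp only [div_one] at hp
    exfalso
    linarith only [c0, hp]
  · simp only [eg1_val, eg2_val, eF1_val, eG1_val, eF3_val, et_val, nt_val, nm_val, nfZ_val, nfP_val, np1_val,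
      np2_val, MR.e1_val, MR.e2_val, NumU.E.val, NumI.E.val, NumI.lkR] at hp
    push_cast at hp
    try simp only [div_one] at hp
    exfalso
    linarith only [c1, hp]

/-- 97 boxes -/
theorem P1Z {x T s k : ℝ} (a0 : 5600 / 10000 ≤ x) (b0 : x ≤ 7500 / 10000) (a1 : -180 / 10000 ≤ T) (b1 : T ≤ 985 / 10000)
    (a2 : 8800 / 10000 ≤ s) (b2 : s ≤ 9700 / 10000) (a3 : -1110 / 10000 ≤ k) (b3 : k ≤ 1870 /
    10000) (c0 : ((k - (tt T x)) + T) - (187 / 1000) ≤ 0) (c1 : (-(k - (tt T x))) - (93 / 1000) ≤
    0) (c2 : (k - (tt T x)) - (145 / 1000) ≤ 0) (c3 : (k - (tt T x)) - ((907 / 1000) * (s - x)) ≤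
    0) :
    0 < ((fZ x T) - (p1 T x s k)) := by
  have h : chkT [(emb (NumI.E.sub (nfZ (.var 0) (.var 1)) np1)), (sub (add (sub (var 3) (et (var 0) (var
      1))) (var 1)) (q 187 1000)), (sub (neg (sub (var 3) (et (var 0) (var 1)))) (q 93 1000)),
      (sub (sub (var 3) (et (var 0) (var 1))) (q 145 1000)), (sub (sub (var 3) (et (var 0) (var
      1))) (mul (q 907 1000) (sub (var 2) (var 0))))] 18
      14770161918062775091823673253891137539104211922172577586490175470023089994434400269819108006431866432395960423851202318085684082672276667658363996655515998728709334465222149977940708175248714696750926213267931042447371907272716354339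
      [V.of 10000 5600 7500 16, V.of 10000 (-180) 985 16, V.of 10000 8800 9700 16, V.of 10000
        (-1110) 1870 16] = true := by
    decide +kernel
  obtain ⟨f, hf, hp⟩ := chkT4 h (by norm_num) (x := x) (y := T) (z := s) (w := k)
    (le_trans (by norm_num) a0) (le_trans b0 (by norm_num))
    (le_trans (by norm_num) a1) (le_trans b1 (by norm_num))
    (le_trans (by norm_num) a2) (le_trans b2 (by norm_num))
    (le_trans (by norm_num) a3) (le_trans b3 (by norm_num))
  simp only [List.mem_cons, List.not_mem_nil, or_false] at hf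
  rcases hf with rfl | rfl | rfl | rfl | rfl
  · simp only [eg1_val, eg2_val, eF1_val, eG1_val, eF3_val, et_val, nt_val, nm_val, nfZ_val, nfP_val, np1_val,
      np2_val, MR.e1_val, MR.e2_val, NumU.E.val, NumI.E.val, NumI.lkR] at hp
    push_cast at hp
    try simp only [div_one] at hp
    linarith only [hp]
  · simp only [eg1_val, eg2_val, eF1_val, eG1_val, eF3_val, et_val, nt_val, nm_val, nfZ_val, nfP_val, np1_val,
      np2_val, MR.e1_val, MR.e2_val, NumU.E.val, NumI.E.val, NumI.lkR] at hp
    push_cast at hp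
    try simp only [div_one] at hp
    exfalso
    linarith only [c0, hp]
  · simp only [eg1_val, eg2_val, eF1_val, eG1_val, eF3_val, et_val, nt_val, nm_val, nfZ_val, nfP_val, np1_val,
      np2_val, MR.e1_val, MR.e2_val, NumU.E.val, NumI.E.val, NumI.lkR] at hp
    push_cast at hp
    try simp only [div_one] at hp
    exfalso
    linarith only [c1, hp]
  · simp only [eg1_val, eg2_val, eF1_val, eG1_val, eF3_val, et_val, nt_val, nm_val, nfZ_val, nfP_val, np1_val,
      np2_val, MR.e1_val, MR.e2_val, NumU.E.val, NumI.E.val, NumI.lkR] at hp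
    push_cast at hp
    try simp only [div_one] at hp
    exfalso
    linarith only [c2, hp]
  · simp only [eg1_val, eg2_val, eF1_val, eG1_val, eF3_val, et_val, nt_val, nm_val, nfZ_val, nfP_val, np1_val,
      np2_val, MR.e1_val, MR.e2_val, NumU.E.val, NumI.E.val, NumI.lkR] at hp
    push_cast at hp
    try simp only [div_one] at hp
    exfalso
    linarith only [c3, hp]

/-- 15 boxes -/
theorem D1Pa {x T s k : ℝ} (a0 : 5350 / 10000 ≤ x) (b0 : x ≤ 5600 / 10000) (a1 : -180 / 10000 ≤ T) (b1 : T ≤ 985 / 10000)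
    (a2 : 700 / 10000 ≤ s) (b2 : s ≤ 1300 / 10000) (a3 : -806 / 10000 ≤ k) (b3 : k ≤ 940 / 10000)
    (c0 : (T + (((100 / 13) * k) * s)) - (148 / 1000) ≤ 0) :
    0 < ((fP x T) - (MR.s1 (mm T) x (tt T x) s (((100 / 13) * k) * s))) := by
  have h : chkT [(emb (NumI.E.sub (nfP (.var 0) (.var 1)) (MR.e1 (nm (.var 1)) (.var 0) (nt (.var 0) (.var
      1)) (.var 2) (.mul (.mul (.q 100 13) (.var 3)) (.var 2))))), (sub (add (var 1) (mul (mul (q
      100 13) (var 3)) (var 2))) (q 148 1000))] 18
      44185509155884683869026132309411859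
      [V.of 10000 5350 5600 16, V.of 10000 (-180) 985 16, V.of 10000 700 1300 16, V.of 10000
        (-806) 940 16] = true := by
    decide +kernel
  obtain ⟨f, hf, hp⟩ := chkT4 h (by norm_num) (x := x) (y := T) (z := s) (w := k)
    (le_trans (by norm_num) a0) (le_trans b0 (by norm_num))
    (le_trans (by norm_num) a1) (le_trans b1 (by norm_num))
    (le_trans (by norm_num) a2) (le_trans b2 (by norm_num))
    (le_trans (by norm_num) a3) (le_trans b3 (by norm_num))
  simp only [List.mem_cons, List.not_mem_nil, or_false] at hf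
  rcases hf with rfl | rfl
  · simp only [eg1_val, eg2_val, eF1_val, eG1_val, eF3_val, et_val, nt_val, nm_val, nfZ_val, nfP_val, np1_val,
      np2_val, MR.e1_val, MR.e2_val, NumU.E.val, NumI.E.val, NumI.lkR] at hp
    push_cast at hp
    try simp only [div_one] at hp
    linarith only [hp]
  · simp only [eg1_val, eg2_val, eF1_val, eG1_val, eF3_val, et_val, nt_val, nm_val, nfZ_val, nfP_val, np1_val,
      np2_val, MR.e1_val, MR.e2_val, NumU.E.val, NumI.E.val, NumI.lkR] at hp
    push_cast at hp
    try simp only [div_one] at hp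
    exfalso
    linarith only [c0, hp]

/-- 26 boxes -/
theorem D1Pb {x T s k : ℝ} (a0 : 5350 / 10000 ≤ x) (b0 : x ≤ 5600 / 10000) (a1 : -180 / 10000 ≤ T) (b1 : T ≤ 985 / 10000)
    (a2 : 1300 / 10000 ≤ s) (b2 : s ≤ 3450 / 10000) (a3 : -930 / 10000 ≤ k) (b3 : k ≤ 940 / 10000)
    (c0 : (T + k) - (148 / 1000) ≤ 0) (c1 : (-k) - ((620 / 1000) * s) ≤ 0) (c2 : (x + s) - (88 /
    100) ≤ 0) :
    0 < ((fP x T) - (MR.s1 (mm T) x (tt T x) s k)) := by
  have h : chkT [(emb (NumI.E.sub (nfP (.var 0) (.var 1)) (MR.e1 (nm (.var 1)) (.var 0) (nt (.var 0) (.var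
      1)) (.var 2) (.var 3)))), (sub (add (var 1) (var 3)) (q 148 1000)), (sub (neg (var 3)) (mul
      (q 620 1000) (var 2))), (sub (add (var 0) (var 2)) (q 88 100))] 18
      13681144135884282679767111356818965882659627271997868193906994
      [V.of 10000 5350 5600 16, V.of 10000 (-180) 985 16, V.of 10000 1300 3450 16, V.of 10000
        (-930) 940 16] = true := by
    decide +kernel
  obtain ⟨f, hf, hp⟩ := chkT4 h (by norm_num) (x := x) (y := T) (z := s) (w := k)
    (le_trans (by norm_num) a0) (le_trans b0 (by norm_num))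
    (le_trans (by norm_num) a1) (le_trans b1 (by norm_num))
    (le_trans (by norm_num) a2) (le_trans b2 (by norm_num))
    (le_trans (by norm_num) a3) (le_trans b3 (by norm_num))
  simp only [List.mem_cons, List.not_mem_nil, or_false] at hf
  rcases hf with rfl | rfl | rfl | rfl
  · simp only [eg1_val, eg2_val, eF1_val, eG1_val, eF3_val, et_val, nt_val, nm_val, nfZ_val, nfP_val, np1_val,
      np2_val, MR.e1_val, MR.e2_val, NumU.E.val, NumI.E.val, NumI.lkR] at hp
    push_cast at hp
    try simp only [div_one] at hp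
    linarith only [hp]
  · simp only [eg1_val, eg2_val, eF1_val, eG1_val, eF3_val, et_val, nt_val, nm_val, nfZ_val, nfP_val, np1_val,
      np2_val, MR.e1_val, MR.e2_val, NumU.E.val, NumI.E.val, NumI.lkR] at hp
    push_cast at hp
    try simp only [div_one] at hp
    exfalso
    linarith only [c0, hp]
  · simp only [eg1_val, eg2_val, eF1_val, eG1_val, eF3_val, et_val, nt_val, nm_val, nfZ_val, nfP_val, np1_val,
      np2_val, MR.e1_val, MR.e2_val, NumU.E.val, NumI.E.val, NumI.lkR] at hp
    push_cast at hp
    try simp only [div_one] at hp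
    exfalso
    linarith only [c1, hp]
  · simp only [eg1_val, eg2_val, eF1_val, eG1_val, eF3_val, et_val, nt_val, nm_val, nfZ_val, nfP_val, np1_val,
      np2_val, MR.e1_val, MR.e2_val, NumU.E.val, NumI.E.val, NumI.lkR] at hp
    push_cast at hp
    try simp only [div_one] at hp
    exfalso
    linarith only [c2, hp]

/-- 12 boxes -/
theorem P1P {x T s k : ℝ} (a0 : 5350 / 10000 ≤ x) (b0 : x ≤ 5600 / 10000) (a1 : -180 / 10000 ≤ T) (b1 : T ≤ 985 / 10000)
    (a2 : 8800 / 10000 ≤ s) (b2 : s ≤ 9700 / 10000) (a3 : -1110 / 10000 ≤ k) (b3 : k ≤ 1480 /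
    10000) (c0 : ((k - (tt T x)) + T) - (148 / 1000) ≤ 0) (c1 : (-(k - (tt T x))) - (93 / 1000) ≤
    0) (c2 : (k - (tt T x)) - (94 / 1000) ≤ 0) :
    0 < ((fP x T) - (p1 T x s k)) := by
  have h : chkT [(emb (NumI.E.sub (nfP (.var 0) (.var 1)) np1)), (sub (add (sub (var 3) (et (var 0) (var
      1))) (var 1)) (q 148 1000)), (sub (neg (sub (var 3) (et (var 0) (var 1)))) (q 93 1000)),
      (sub (sub (var 3) (et (var 0) (var 1))) (q 94 1000))] 18
      2632474701742317793533507634
      [V.of 10000 5350 5600 16, V.of 10000 (-180) 985 16, V.of 10000 8800 9700 16, V.of 10000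
        (-1110) 1480 16] = true := by
    decide +kernel
  obtain ⟨f, hf, hp⟩ := chkT4 h (by norm_num) (x := x) (y := T) (z := s) (w := k)
    (le_trans (by norm_num) a0) (le_trans b0 (by norm_num))
    (le_trans (by norm_num) a1) (le_trans b1 (by norm_num))
    (le_trans (by norm_num) a2) (le_trans b2 (by norm_num))
    (le_trans (by norm_num) a3) (le_trans b3 (by norm_num))
  simp only [List.mem_cons, List.not_mem_nil, or_false] at hf
  rcases hf with rfl | rfl | rfl | rfl
  · simp only [eg1_val, eg2_val, eF1_val, eG1_val, eF3_val, et_val, nt_val, nm_val, nfZ_val, nfP_val, np1_val,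
      np2_val, MR.e1_val, MR.e2_val, NumU.E.val, NumI.E.val, NumI.lkR] at hp
    push_cast at hp
    try simp only [div_one] at hp
    linarith only [hp]
  · simp only [eg1_val, eg2_val, eF1_val, eG1_val, eF3_val, et_val, nt_val, nm_val, nfZ_val, nfP_val, np1_val,
      np2_val, MR.e1_val, MR.e2_val, NumU.E.val, NumI.E.val, NumI.lkR] at hp
    push_cast at hp
    try simp only [div_one] at hp
    exfalso
    linarith only [c0, hp]
  · simp only [eg1_val, eg2_val, eF1_val, eG1_val, eF3_val, et_val, nt_val, nm_val, nfZ_val, nfP_val, np1_val,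
      np2_val, MR.e1_val, MR.e2_val, NumU.E.val, NumI.E.val, NumI.lkR] at hp
    push_cast at hp
    try simp only [div_one] at hp
    exfalso
    linarith only [c1, hp]
  · simp only [eg1_val, eg2_val, eF1_val, eG1_val, eF3_val, et_val, nt_val, nm_val, nfZ_val, nfP_val, np1_val,
      np2_val, MR.e1_val, MR.e2_val, NumU.E.val, NumI.E.val, NumI.lkR] at hp
    push_cast at hp
    try simp only [div_one] at hp
    exfalso
    linarith only [c2, hp]

/-- 84 boxes -/
theorem D2Za {x T s k : ℝ} (a0 : 5600 / 10000 ≤ x) (b0 : x ≤ 7500 / 10000) (a1 : -180 / 10000 ≤ T) (b1 : T ≤ 985 / 10000)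
    (a2 : 700 / 10000 ≤ s) (b2 : s ≤ 1250 / 10000) (a3 : -1075 / 10000 ≤ k) (b3 : k ≤ 960 / 10000)
    :
    0 < (-((fZ x T) + (MR.s2 (-(mm T)) x (-(tt T x)) s ((8 * k) * s)))) := by
  have h : chkT [(emb (NumI.E.neg (NumI.E.add (nfZ (.var 0) (.var 1)) (MR.e2 (NumI.E.neg (nm (.var 1)))
      (.var 0) (NumI.E.neg (nt (.var 0) (.var 1))) (.var 2) (.mul (.mul (.q 8 1) (.var 3)) (.var
      2))))))] 18
      651082066781625611602767207620952141227456885591462601056624847937061964336464073881743255445896175330545986012488074690521215544198122968205930912319418019660291965404995965163847745200130984903192624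
      [V.of 10000 5600 7500 16, V.of 10000 (-180) 985 16, V.of 10000 700 1250 16, V.of 10000
        (-1075) 960 16] = true := by
    decide +kernel
  obtain ⟨f, hf, hp⟩ := chkT4 h (by norm_num) (x := x) (y := T) (z := s) (w := k)
    (le_trans (by norm_num) a0) (le_trans b0 (by norm_num))
    (le_trans (by norm_num) a1) (le_trans b1 (by norm_num))
    (le_trans (by norm_num) a2) (le_trans b2 (by norm_num))
    (le_trans (by norm_num) a3) (le_trans b3 (by norm_num))
  simp only [List.mem_cons, List.not_mem_nil, or_false] at hf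
  subst hf
  simp only [eg1_val, eg2_val, eF1_val, eG1_val, eF3_val, et_val, nt_val, nm_val, nfZ_val, nfP_val, np1_val,
    np2_val, MR.e1_val, MR.e2_val, NumU.E.val, NumI.E.val, NumI.lkR] at hp
  push_cast at hp
  try simp only [div_one] at hp
  linarith only [hp]

/-- 193 boxes -/
theorem D2Zb {x T s k : ℝ} (a0 : 5600 / 10000 ≤ x) (b0 : x ≤ 7500 / 10000) (a1 : -180 / 10000 ≤ T) (b1 : T ≤ 985 / 10000)
    (a2 : 1250 / 10000 ≤ s) (b2 : s ≤ 3200 / 10000) (a3 : -985 / 10000 ≤ k) (b3 : k ≤ 960 / 10000)
    (c0 : (x + s) - (88 / 100) ≤ 0) :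
    0 < (-((fZ x T) + (MR.s2 (-(mm T)) x (-(tt T x)) s k))) := by
  have h : chkT [(emb (NumI.E.neg (NumI.E.add (nfZ (.var 0) (.var 1)) (MR.e2 (NumI.E.neg (nm (.var 1)))
      (.var 0) (NumI.E.neg (nt (.var 0) (.var 1))) (.var 2) (.var 3))))), (sub (add (var 0) (var
      2)) (q 88 100))] 18
      23138959059400605402769329600112613809003693776773340298858587284230405942556254727784360316722312572811341581583878725759028802718183849857246644827567773141958915372554594264828513578831136079464877348244464264173277015320745963810660083557464698996674510107417654352214760799677577430893887593972876429308652719492927415851213610653321820444132581038868119683580373551123234045318741879163760522620238130311764671059772918091071280491495181600563302430776897538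
      [V.of 10000 5600 7500 16, V.of 10000 (-180) 985 16, V.of 10000 1250 3200 16, V.of 10000
        (-985) 960 16] = true := by
    decide +kernel
  obtain ⟨f, hf, hp⟩ := chkT4 h (by norm_num) (x := x) (y := T) (z := s) (w := k)
    (le_trans (by norm_num) a0) (le_trans b0 (by norm_num))
    (le_trans (by norm_num) a1) (le_trans b1 (by norm_num))
    (le_trans (by norm_num) a2) (le_trans b2 (by norm_num))
    (le_trans (by norm_num) a3) (le_trans b3 (by norm_num))
  simp only [List.mem_cons, List.not_mem_nil, or_false] at hf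
  rcases hf with rfl | rfl
  · simp only [eg1_val, eg2_val, eF1_val, eG1_val, eF3_val, et_val, nt_val, nm_val, nfZ_val, nfP_val, np1_val,
      np2_val, MR.e1_val, MR.e2_val, NumU.E.val, NumI.E.val, NumI.lkR] at hp
    push_cast at hp
    try simp only [div_one] at hp
    linarith only [hp]
  · simp only [eg1_val, eg2_val, eF1_val, eG1_val, eF3_val, et_val, nt_val, nm_val, nfZ_val, nfP_val, np1_val,
      np2_val, MR.e1_val, MR.e2_val, NumU.E.val, NumI.E.val, NumI.lkR] at hp
    push_cast at hp
    try simp only [div_one] at hp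
    exfalso
    linarith only [c0, hp]

/-- 76 boxes -/
theorem P2Z {x T s k : ℝ} (a0 : 5600 / 10000 ≤ x) (b0 : x ≤ 7500 / 10000) (a1 : -180 / 10000 ≤ T) (b1 : T ≤ 985 / 10000)
    (a2 : 8800 / 10000 ≤ s) (b2 : s ≤ 9700 / 10000) (a3 : -1900 / 10000 ≤ k) (b3 : k ≤ 1150 /
    10000) (c0 : (-(k + (tt T x))) - (99 / 1000) ≤ 0) (c1 : (k + (tt T x)) - (96 / 1000) ≤ 0) :
    0 < (-((fZ x T) + (p2 T x s k))) := by
  have h : chkT [(emb (NumI.E.neg (NumI.E.add (nfZ (.var 0) (.var 1)) np2))), (sub (neg (add (var 3) (et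
      (var 0) (var 1)))) (q 99 1000)), (sub (add (var 3) (et (var 0) (var 1))) (q 96 1000))] 18
      44097220035193010051115060647385554402851278412766394273811801732489858213779256734904747199689105118561456598465965734247946468849364529344914136402545225100882865155350229145911347
      [V.of 10000 5600 7500 16, V.of 10000 (-180) 985 16, V.of 10000 8800 9700 16, V.of 10000
        (-1900) 1150 16] = true := by
    decide +kernel
  obtain ⟨f, hf, hp⟩ := chkT4 h (by norm_num) (x := x) (y := T) (z := s) (w := k)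
    (le_trans (by norm_num) a0) (le_trans b0 (by norm_num))
    (le_trans (by norm_num) a1) (le_trans b1 (by norm_num))
    (le_trans (by norm_num) a2) (le_trans b2 (by norm_num))
    (le_trans (by norm_num) a3) (le_trans b3 (by norm_num))
  simp only [List.mem_cons, List.not_mem_nil, or_false] at hf
  rcases hf with rfl | rfl | rfl
  · simp only [eg1_val, eg2_val, eF1_val, eG1_val, eF3_val, et_val, nt_val, nm_val, nfZ_val, nfP_val, np1_val,
      np2_val, MR.e1_val, MR.e2_val, NumU.E.val, NumI.E.val, NumI.lkR] at hp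
    push_cast at hp
    try simp only [div_one] at hp
    linarith only [hp]
  · simp only [eg1_val, eg2_val, eF1_val, eG1_val, eF3_val, et_val, nt_val, nm_val, nfZ_val, nfP_val, np1_val,
      np2_val, MR.e1_val, MR.e2_val, NumU.E.val, NumI.E.val, NumI.lkR] at hp
    push_cast at hp
    try simp only [div_one] at hp
    exfalso
    linarith only [c0, hp]
  · simp only [eg1_val, eg2_val, eF1_val, eG1_val, eF3_val, et_val, nt_val, nm_val, nfZ_val, nfP_val, np1_val,
      np2_val, MR.e1_val, MR.e2_val, NumU.E.val, NumI.E.val, NumI.lkR] at hp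
    push_cast at hp
    try simp only [div_one] at hp
    exfalso
    linarith only [c1, hp]

/-- 9 boxes -/
theorem D2Pa {x T s k : ℝ} (a0 : 5350 / 10000 ≤ x) (b0 : x ≤ 5600 / 10000) (a1 : -180 / 10000 ≤ T) (b1 : T ≤ 985 / 10000)
    (a2 : 700 / 10000 ≤ s) (b2 : s ≤ 1250 / 10000) (a3 : -1075 / 10000 ≤ k) (b3 : k ≤ 960 / 10000)
    :
    0 < (-((fP x T) + (MR.s2 (-(mm T)) x (-(tt T x)) s ((8 * k) * s)))) := by
  have h : chkT [(emb (NumI.E.neg (NumI.E.add (nfP (.var 0) (.var 1)) (MR.e2 (NumI.E.neg (nm (.var 1)))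
      (.var 0) (NumI.E.neg (nt (.var 0) (.var 1))) (.var 2) (.mul (.mul (.q 8 1) (.var 3)) (.var
      2))))))] 18
      156978462782875863059
      [V.of 10000 5350 5600 16, V.of 10000 (-180) 985 16, V.of 10000 700 1250 16, V.of 10000
        (-1075) 960 16] = true := by
    decide +kernel
  obtain ⟨f, hf, hp⟩ := chkT4 h (by norm_num) (x := x) (y := T) (z := s) (w := k)
    (le_trans (by norm_num) a0) (le_trans b0 (by norm_num))
    (le_trans (by norm_num) a1) (le_trans b1 (by norm_num))
    (le_trans (by norm_num) a2) (le_trans b2 (by norm_num))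
    (le_trans (by norm_num) a3) (le_trans b3 (by norm_num))
  simp only [List.mem_cons, List.not_mem_nil, or_false] at hf
  subst hf
  simp only [eg1_val, eg2_val, eF1_val, eG1_val, eF3_val, et_val, nt_val, nm_val, nfZ_val, nfP_val, np1_val,
    np2_val, MR.e1_val, MR.e2_val, NumU.E.val, NumI.E.val, NumI.lkR] at hp
  push_cast at hp
  try simp only [div_one] at hp
  linarith only [hp]

/-- 31 boxes -/
theorem D2Pb {x T s k : ℝ} (a0 : 5350 / 10000 ≤ x) (b0 : x ≤ 5600 / 10000) (a1 : -180 / 10000 ≤ T) (b1 : T ≤ 985 / 10000)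
    (a2 : 1250 / 10000 ≤ s) (b2 : s ≤ 3450 / 10000) (a3 : -985 / 10000 ≤ k) (b3 : k ≤ 960 / 10000)
    (c0 : (x + s) - (88 / 100) ≤ 0) :
    0 < (-((fP x T) + (MR.s2 (-(mm T)) x (-(tt T x)) s k))) := by
  have h : chkT [(emb (NumI.E.neg (NumI.E.add (nfP (.var 0) (.var 1)) (MR.e2 (NumI.E.neg (nm (.var 1)))
      (.var 0) (NumI.E.neg (nt (.var 0) (.var 1))) (.var 2) (.var 3))))), (sub (add (var 0) (var
      2)) (q 88 100))] 18
      15035549628747533955542139233375683080239861656885451208124870726206456370
      [V.of 10000 5350 5600 16, V.of 10000 (-180) 985 16, V.of 10000 1250 3450 16, V.of 10000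
        (-985) 960 16] = true := by
    decide +kernel
  obtain ⟨f, hf, hp⟩ := chkT4 h (by norm_num) (x := x) (y := T) (z := s) (w := k)
    (le_trans (by norm_num) a0) (le_trans b0 (by norm_num))
    (le_trans (by norm_num) a1) (le_trans b1 (by norm_num))
    (le_trans (by norm_num) a2) (le_trans b2 (by norm_num))
    (le_trans (by norm_num) a3) (le_trans b3 (by norm_num))
  simp only [List.mem_cons, List.not_mem_nil, or_false] at hf
  rcases hf with rfl | rfl
  · simp only [eg1_val, eg2_val, eF1_val, eG1_val, eF3_val, et_val, nt_val, nm_val, nfZ_val, nfP_val, np1_val,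
      np2_val, MR.e1_val, MR.e2_val, NumU.E.val, NumI.E.val, NumI.lkR] at hp
    push_cast at hp
    try simp only [div_one] at hp
    linarith only [hp]
  · simp only [eg1_val, eg2_val, eF1_val, eG1_val, eF3_val, et_val, nt_val, nm_val, nfZ_val, nfP_val, np1_val,
      np2_val, MR.e1_val, MR.e2_val, NumU.E.val, NumI.E.val, NumI.lkR] at hp
    push_cast at hp
    try simp only [div_one] at hp
    exfalso
    linarith only [c0, hp]

/-- 18 boxes -/
theorem P2P {x T s k : ℝ} (a0 : 5350 / 10000 ≤ x) (b0 : x ≤ 5600 / 10000) (a1 : -180 / 10000 ≤ T) (b1 : T ≤ 985 / 10000)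
    (a2 : 8800 / 10000 ≤ s) (b2 : s ≤ 9700 / 10000) (a3 : -1970 / 10000 ≤ k) (b3 : k ≤ 1150 /
    10000) (c0 : (-(k + (tt T x))) - (99 / 1000) ≤ 0) (c1 : (k + (tt T x)) - (96 / 1000) ≤ 0) :
    0 < (-((fP x T) + (p2 T x s k))) := by
  have h : chkT [(emb (NumI.E.neg (NumI.E.add (nfP (.var 0) (.var 1)) np2))), (sub (neg (add (var 3) (et
      (var 0) (var 1)))) (q 99 1000)), (sub (add (var 3) (et (var 0) (var 1))) (q 96 1000))] 18
      915200185318150175802530769956165969782835
      [V.of 10000 5350 5600 16, V.of 10000 (-180) 985 16, V.of 10000 8800 9700 16, V.of 10000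
        (-1970) 1150 16] = true := by
    decide +kernel
  obtain ⟨f, hf, hp⟩ := chkT4 h (by norm_num) (x := x) (y := T) (z := s) (w := k)
    (le_trans (by norm_num) a0) (le_trans b0 (by norm_num))
    (le_trans (by norm_num) a1) (le_trans b1 (by norm_num))
    (le_trans (by norm_num) a2) (le_trans b2 (by norm_num))
    (le_trans (by norm_num) a3) (le_trans b3 (by norm_num))
  simp only [List.mem_cons, List.not_mem_nil, or_false] at hf
  rcases hf with rfl | rfl | rfl
  · simp only [eg1_val, eg2_val, eF1_val, eG1_val, eF3_val, et_val, nt_val, nm_val, nfZ_val, nfP_val, np1_val,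
      np2_val, MR.e1_val, MR.e2_val, NumU.E.val, NumI.E.val, NumI.lkR] at hp
    push_cast at hp
    try simp only [div_one] at hp
    linarith only [hp]
  · simp only [eg1_val, eg2_val, eF1_val, eG1_val, eF3_val, et_val, nt_val, nm_val, nfZ_val, nfP_val, np1_val,
      np2_val, MR.e1_val, MR.e2_val, NumU.E.val, NumI.E.val, NumI.lkR] at hp
    push_cast at hp
    try simp only [div_one] at hp
    exfalso
    linarith only [c0, hp]
  · simp only [eg1_val, eg2_val, eF1_val, eG1_val, eF3_val, et_val, nt_val, nm_val, nfZ_val, nfP_val, np1_val,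
      np2_val, MR.e1_val, MR.e2_val, NumU.E.val, NumI.E.val, NumI.lkR] at hp
    push_cast at hp
    try simp only [div_one] at hp
    exfalso
    linarith only [c1, hp]

end C12

end Pool.Agent.Work.MP_b30479_gt.G2
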