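import Pool.Agent.Work.MP_b30479_gt.G2.C12E
import Pool.Agent.Work.NumU.Tree
import Pool.Agent.Work.NumU.TreeS

/-!
# The right ramp of the hinge `1 | 2`: rows

Found with `NumU.cert`.
-/

set_option linter.unusedSimpArgs false
set_option linter.unusedTactic false
set_option linter.unusedVariables false

namespace Pool.Agent.Work.MP_b30479_gt.G2

namespace C12

open NumU NumU.E
open NumI (V)

/-- 62 boxes -/
theorem V1a {x T s k : ℝ} (a0 : 5600 / 10000 ≤ x) (b0 : x ≤ 7500 / 10000) (a1 : -180 / 10000 ≤ T) (b1 : T ≤ 985 / 10000)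
    (a2 : 700 / 10000 ≤ s) (b2 : s ≤ 1600 / 10000) (a3 : -993 / 10000 ≤ k) (b3 : k ≤ 1450 / 10000)
    (c0 : (T + (((100 / 16) * k) * s)) - (187 / 1000) ≤ 0) :
    0 < ((g1 (40 / 100) T x (tt T x) s (((100 / 16) * k) * s) (uu ((40 / 100) + s) (T + (((100 /
      16) * k) * s))) (uu (x + s) ((tt T x) + (((100 / 16) * k) * s)))) + (G1 x T)) := by
  have h : chkT [(add (eg1 (q 40 100) (var 1) (var 0) (et (var 0) (var 1)) (var 2) (mul (mul (q 100 16) (var
      3)) (var 2)) (E.uu (add (q 40 100) (var 2)) (add (var 1) (mul (mul (q 100 16) (var 3)) (var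
      2)))) (E.uu (add (var 0) (var 2)) (add (et (var 0) (var 1)) (mul (mul (q 100 16) (var 3))
      (var 2))))) (eG1 (var 0) (var 1))), (sub (add (var 1) (mul (mul (q 100 16) (var 3)) (var
      2))) (q 187 1000))] 18
      6794585632950240598501862462666580686833579058497276449235505829551705161931965205376051030647534666716935347805660019671858314036337576481481306160
      [V.of 10000 5600 7500 16, V.of 10000 (-180) 985 16, V.of 10000 700 1600 16, V.of 10000
        (-993) 1450 16] = true := by
    decide +kernel
  obtain ⟨f, hf, hp⟩ := chkT4 h (by norm_num) (x := x) (y := T) (z := s) (w := k)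
    (le_trans (by norm_num) a0) (le_trans b0 (by norm_num))
    (le_trans (by norm_num) a1) (le_trans b1 (by norm_num))
    (le_trans (by norm_num) a2) (le_trans b2 (by norm_num))
    (le_trans (by norm_num) a3) (le_trans b3 (by norm_num))
  simp only [List.mem_cons, List.not_mem_nil, or_false] at hf
  rcases hf with rfl | rfl
  · simp only [eg1_val, eg2_val, eF1_val, eG1_val, eF3_val, et_val, nt_val, nm_val, nfZ_val, nfP_val, np1_val,
      np2_val, MR.e1_val, MR.e2_val, NumU.E.val, NumI.E.val, NumI.lkR] at hp
    push_cast at hp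
    try simp only [div_one] at hp
    linarith only [hp]
  · simp only [eg1_val, eg2_val, eF1_val, eG1_val, eF3_val, et_val, nt_val, nm_val, nfZ_val, nfP_val, np1_val,
      np2_val, MR.e1_val, MR.e2_val, NumU.E.val, NumI.E.val, NumI.lkR] at hp
    push_cast at hp
    try simp only [div_one] at hp
    exfalso
    linarith only [c0, hp]

theorem V1b_h1_q1 : Pool.Agent.Work.NumU.runT [(add (eg1 (q 40 100) (var 1) (var 0) (et (var 0) (var 1)) (var 2) (var 3) (E.uu (add (q 40 100) (var 2)) (add (var 1) (var 3))) (E.uu (add (var 0) (var 2)) (add (et (var 0) (var 1)) (var 3)))) (eG1 (var 0) (var 1))), (sub (add (var 1) (var 3)) (q 187 1000)), (sub (add (var 0) (var 2)) (q 94 100))] 17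
    6276836106895842208014187651907722564094700055136887961606403651373899461826720267706585139527452757722970069557728556350468981717616438671870466622326851848592210488270181747423807861225988372007178447686329219013637462629289165832649199108008043340734954137596556292007985853235104242878635772922246532653265444578205901570548402979415212856588385775573518443581723081357811987824559764689892051139991901726353118112440703524139085850739109761553664753991682
    (Pool.Agent.Work.NumI.setL 3 ([V.of 10000 5600 7500 16, V.of 10000 (-180) 985 16, V.of 10000 1600 3800 16, V.of 10000 (-930) 1450 16])) =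
    94541700150020877300375724529880127143003835227416708984761655179666756573035824703704870108624979749422465860645626445442609248425637983326065811293178912082940083823831873413496440702289042502061859898852908938086073102520217431296633948987424190198571174203688647232690663427 := by
  decide +kernel

theorem V1b_h1_q2 : Pool.Agent.Work.NumU.runT [(add (eg1 (q 40 100) (var 1) (var 0) (et (var 0) (var 1)) (var 2) (var 3) (E.uu (add (q 40 100) (var 2)) (add (var 1) (var 3))) (E.uu (add (var 0) (var 2)) (add (et (var 0) (var 1)) (var 3)))) (eG1 (var 0) (var 1))), (sub (add (var 1) (var 3)) (q 187 1000)), (sub (add (var 0) (var 2)) (q 94 100))] 17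
    94541700150020877300375724529880127143003835227416708984761655179666756573035824703704870108624979749422465860645626445442609248425637983326065811293178912082940083823831873413496440702289042502061859898852908938086073102520217431296633948987424190198571174203688647232690663426
    (Pool.Agent.Work.NumI.setR 3 ([V.of 10000 5600 7500 16, V.of 10000 (-180) 985 16, V.of 10000 1600 3800 16, V.of 10000 (-930) 1450 16])) =
    1 := by
  decide +kernel

/-- 192 boxes -/
theorem V1b {x T s k : ℝ} (a0 : 5600 / 10000 ≤ x) (b0 : x ≤ 7500 / 10000) (a1 : -180 / 10000 ≤ T) (b1 : T ≤ 985 / 10000)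
    (a2 : 1600 / 10000 ≤ s) (b2 : s ≤ 3800 / 10000) (a3 : -930 / 10000 ≤ k) (b3 : k ≤ 1450 /
    10000) (c0 : (T + k) - (187 / 1000) ≤ 0) (c1 : (x + s) - (94 / 100) ≤ 0) :
    0 < ((g1 (40 / 100) T x (tt T x) s k (uu ((40 / 100) + s) (T + k)) (uu (x + s) ((tt T x) +
      k))) + (G1 x T)) := by
  have h : chkT [(add (eg1 (q 40 100) (var 1) (var 0) (et (var 0) (var 1)) (var 2) (var 3) (E.uu (add (q 40
      100) (var 2)) (add (var 1) (var 3))) (E.uu (add (var 0) (var 2)) (add (et (var 0) (var 1))
      (var 3)))) (eG1 (var 0) (var 1))), (sub (add (var 1) (var 3)) (q 187 1000)), (sub (add (var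
      0) (var 2)) (q 94 100))] 18
      100429377710333475328227002430523561025515200882190207385702458421982391389227524283305362232439244123567521112923656901607503707481863018749927465957229629577475367812322907958780925779615813952114855162981267504218199402068626653322387185728128693451759266201544900672127773651761667886058172366755944522452247113251294425128774447670643405705414172409176295097307569301724991805192956235038272818239870427621649889799051256386225373611825756184858636063866915
      [V.of 10000 5600 7500 16, V.of 10000 (-180) 985 16, V.of 10000 1600 3800 16, V.of 10000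
        (-930) 1450 16] = true :=
      Pool.Agent.Work.NumU.chkT_of (Pool.Agent.Work.NumU.runT_split rfl rfl rfl
        V1b_h1_q1
        V1b_h1_q2)
  obtain ⟨f, hf, hp⟩ := chkT4 h (by norm_num) (x := x) (y := T) (z := s) (w := k)
    (le_trans (by norm_num) a0) (le_trans b0 (by norm_num))
    (le_trans (by norm_num) a1) (le_trans b1 (by norm_num))
    (le_trans (by norm_num) a2) (le_trans b2 (by norm_num))
    (le_trans (by norm_num) a3) (le_trans b3 (by norm_num))
  simp only [List.mem_cons, List.not_mem_nil, or_false] at hf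
  rcases hf with rfl | rfl | rfl
  · simp only [eg1_val, eg2_val, eF1_val, eG1_val, eF3_val, et_val, nt_val, nm_val, nfZ_val, nfP_val, np1_val,
      np2_val, MR.e1_val, MR.e2_val, NumU.E.val, NumI.E.val, NumI.lkR] at hp
    push_cast at hp
    try simp only [div_one] at hp
    linarith only [hp]
  · simp only [eg1_val, eg2_val, eF1_val, eG1_val, eF3_val, et_val, nt_val, nm_val, nfZ_val, nfP_val, np1_val,
      np2_val, MR.e1_val, MR.e2_val, NumU.E.val, NumI.E.val, NumI.lkR] at hp
    push_cast at hp
    try simp only [div_one] at hp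
    exfalso
    linarith only [c0, hp]
  · simp only [eg1_val, eg2_val, eF1_val, eG1_val, eF3_val, et_val, nt_val, nm_val, nfZ_val, nfP_val, np1_val,
      np2_val, MR.e1_val, MR.e2_val, NumU.E.val, NumI.E.val, NumI.lkR] at hp
    push_cast at hp
    try simp only [div_one] at hp
    exfalso
    linarith only [c1, hp]

/-- 7 boxes -/
theorem V1Pa {x T s k : ℝ} (a0 : 5350 / 10000 ≤ x) (b0 : x ≤ 5600 / 10000) (a1 : -180 / 10000 ≤ T) (b1 : T ≤ 985 / 10000)
    (a2 : 700 / 10000 ≤ s) (b2 : s ≤ 1300 / 10000) (a3 : -806 / 10000 ≤ k) (b3 : k ≤ 940 / 10000)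
    (c0 : (T + (((100 / 13) * k) * s)) - (148 / 1000) ≤ 0) :
    0 < ((g1 (40 / 100) T x (tt T x) s (((100 / 13) * k) * s) (uu ((40 / 100) + s) (T + (((100 /
      13) * k) * s))) (uu (x + s) ((tt T x) + (((100 / 13) * k) * s)))) + (G1 x T)) := by
  have h : chkT [(add (eg1 (q 40 100) (var 1) (var 0) (et (var 0) (var 1)) (var 2) (mul (mul (q 100 13) (var
      3)) (var 2)) (E.uu (add (q 40 100) (var 2)) (add (var 1) (mul (mul (q 100 13) (var 3)) (var
      2)))) (E.uu (add (var 0) (var 2)) (add (et (var 0) (var 1)) (mul (mul (q 100 13) (var 3))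
      (var 2))))) (eG1 (var 0) (var 1))), (sub (add (var 1) (mul (mul (q 100 13) (var 3)) (var
      2))) (q 148 1000))] 18
      2401505470810161
      [V.of 10000 5350 5600 16, V.of 10000 (-180) 985 16, V.of 10000 700 1300 16, V.of 10000
        (-806) 940 16] = true := by
    decide +kernel
  obtain ⟨f, hf, hp⟩ := chkT4 h (by norm_num) (x := x) (y := T) (z := s) (w := k)
    (le_trans (by norm_num) a0) (le_trans b0 (by norm_num))
    (le_trans (by norm_num) a1) (le_trans b1 (by norm_num))
    (le_trans (by norm_num) a2) (le_trans b2 (by norm_num))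
    (le_trans (by norm_num) a3) (le_trans b3 (by norm_num))
  simp only [List.mem_cons, List.not_mem_nil, or_false] at hf
  rcases hf with rfl | rfl
  · simp only [eg1_val, eg2_val, eF1_val, eG1_val, eF3_val, et_val, nt_val, nm_val, nfZ_val, nfP_val, np1_val,
      np2_val, MR.e1_val, MR.e2_val, NumU.E.val, NumI.E.val, NumI.lkR] at hp
    push_cast at hp
    try simp only [div_one] at hp
    linarith only [hp]
  · simp only [eg1_val, eg2_val, eF1_val, eG1_val, eF3_val, et_val, nt_val, nm_val, nfZ_val, nfP_val, np1_val,
      np2_val, MR.e1_val, MR.e2_val, NumU.E.val, NumI.E.val, NumI.lkR] at hp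
    push_cast at hp
    try simp only [div_one] at hp
    exfalso
    linarith only [c0, hp]

/-- 32 boxes -/
theorem V1Pb {x T s k : ℝ} (a0 : 5350 / 10000 ≤ x) (b0 : x ≤ 5600 / 10000) (a1 : -180 / 10000 ≤ T) (b1 : T ≤ 985 / 10000)
    (a2 : 1300 / 10000 ≤ s) (b2 : s ≤ 4050 / 10000) (a3 : -930 / 10000 ≤ k) (b3 : k ≤ 940 / 10000)
    (c0 : (T + k) - (148 / 1000) ≤ 0) (c1 : (-k) - ((620 / 1000) * s) ≤ 0) (c2 : (x + s) - (94 /
    100) ≤ 0) :
    0 < ((g1 (40 / 100) T x (tt T x) s k (uu ((40 / 100) + s) (T + k)) (uu (x + s) ((tt T x) +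
      k))) + (G1 x T)) := by
  have h : chkT [(add (eg1 (q 40 100) (var 1) (var 0) (et (var 0) (var 1)) (var 2) (var 3) (E.uu (add (q 40
      100) (var 2)) (add (var 1) (var 3))) (E.uu (add (var 0) (var 2)) (add (et (var 0) (var 1))
      (var 3)))) (eG1 (var 0) (var 1))), (sub (add (var 1) (var 3)) (q 148 1000)), (sub (neg (var
      3)) (mul (q 620 1000) (var 2))), (sub (add (var 0) (var 2)) (q 94 100))] 18
      3850899727038188171901025749579691296849763433352303776819522080592316891698
      [V.of 10000 5350 5600 16, V.of 10000 (-180) 985 16, V.of 10000 1300 4050 16, V.of 10000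
        (-930) 940 16] = true := by
    decide +kernel
  obtain ⟨f, hf, hp⟩ := chkT4 h (by norm_num) (x := x) (y := T) (z := s) (w := k)
    (le_trans (by norm_num) a0) (le_trans b0 (by norm_num))
    (le_trans (by norm_num) a1) (le_trans b1 (by norm_num))
    (le_trans (by norm_num) a2) (le_trans b2 (by norm_num))
    (le_trans (by norm_num) a3) (le_trans b3 (by norm_num))
  simp only [List.mem_cons, List.not_mem_nil, or_false] at hf
  rcases hf with rfl | rfl | rfl | rfl
  · simp only [eg1_val, eg2_val, eF1_val, eG1_val, eF3_val, et_val, nt_val, nm_val, nfZ_val, nfP_val, np1_val,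
      np2_val, MR.e1_val, MR.e2_val, NumU.E.val, NumI.E.val, NumI.lkR] at hp
    push_cast at hp
    try simp only [div_one] at hp
    linarith only [hp]
  · simp only [eg1_val, eg2_val, eF1_val, eG1_val, eF3_val, et_val, nt_val, nm_val, nfZ_val, nfP_val, np1_val,
      np2_val, MR.e1_val, MR.e2_val, NumU.E.val, NumI.E.val, NumI.lkR] at hp
    push_cast at hp
    try simp only [div_one] at hp
    exfalso
    linarith only [c0, hp]
  · simp only [eg1_val, eg2_val, eF1_val, eG1_val, eF3_val, et_val, nt_val, nm_val, nfZ_val, nfP_val, np1_val,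
      np2_val, MR.e1_val, MR.e2_val, NumU.E.val, NumI.E.val, NumI.lkR] at hp
    push_cast at hp
    try simp only [div_one] at hp
    exfalso
    linarith only [c1, hp]
  · simp only [eg1_val, eg2_val, eF1_val, eG1_val, eF3_val, et_val, nt_val, nm_val, nfZ_val, nfP_val, np1_val,
      np2_val, MR.e1_val, MR.e2_val, NumU.E.val, NumI.E.val, NumI.lkR] at hp
    push_cast at hp
    try simp only [div_one] at hp
    exfalso
    linarith only [c2, hp]

/-- 46 boxes -/
theorem V2a {x T s k : ℝ} (a0 : 5350 / 10000 ≤ x) (b0 : x ≤ 7500 / 10000) (a1 : -180 / 10000 ≤ T) (b1 : T ≤ 985 / 10000)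
    (a2 : 700 / 10000 ≤ s) (b2 : s ≤ 1250 / 10000) (a3 : -1075 / 10000 ≤ k) (b3 : k ≤ 960 / 10000)
    :
    0 < ((g2 (40 / 100) T x (tt T x) s ((8 * k) * s) (uu ((40 / 100) + s) (((8 * k) * s) - T))
      (uu (x + s) (((8 * k) * s) - (tt T x)))) - (F1 x T)) := by
  have h : chkT [(sub (eg2 (q 40 100) (var 1) (var 0) (et (var 0) (var 1)) (var 2) (mul (mul (q 8 1) (var
      3)) (var 2)) (E.uu (add (q 40 100) (var 2)) (sub (mul (mul (q 8 1) (var 3)) (var 2)) (var
      1))) (E.uu (add (var 0) (var 2)) (sub (mul (mul (q 8 1) (var 3)) (var 2)) (et (var 0) (var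
      1))))) (eF1 (var 0) (var 1)))] 18
      19976463668130708367782829188664682225273070016686095925658808618837563434014629080903289229834720075757850672
      [V.of 10000 5350 7500 16, V.of 10000 (-180) 985 16, V.of 10000 700 1250 16, V.of 10000
        (-1075) 960 16] = true := by
    decide +kernel
  obtain ⟨f, hf, hp⟩ := chkT4 h (by norm_num) (x := x) (y := T) (z := s) (w := k)
    (le_trans (by norm_num) a0) (le_trans b0 (by norm_num))
    (le_trans (by norm_num) a1) (le_trans b1 (by norm_num))
    (le_trans (by norm_num) a2) (le_trans b2 (by norm_num))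
    (le_trans (by norm_num) a3) (le_trans b3 (by norm_num))
  simp only [List.mem_cons, List.not_mem_nil, or_false] at hf
  subst hf
  simp only [eg1_val, eg2_val, eF1_val, eG1_val, eF3_val, et_val, nt_val, nm_val, nfZ_val, nfP_val, np1_val,
    np2_val, MR.e1_val, MR.e2_val, NumU.E.val, NumI.E.val, NumI.lkR] at hp
  push_cast at hp
  try simp only [div_one] at hp
  linarith only [hp]

theorem V2b_h1_q1 : Pool.Agent.Work.NumU.runT [(sub (eg2 (q 40 100) (var 1) (var 0) (et (var 0) (var 1)) (var 2) (var 3) (E.uu (add (q 40 100) (var 2)) (sub (var 3) (var 1))) (E.uu (add (var 0) (var 2)) (sub (var 3) (et (var 0) (var 1))))) (eF1 (var 0) (var 1))), (sub (add (var 0) (var 2)) (q 94 100))] 17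
    32251054463650245234077766285308042169436393841343931122028720435647044011084253694523375935159799148925626634783829502273600113225393633636875895815807511322920140289124410601988465755332056013315940552319085861608027540690006862855334285232408110055051734333552550382824476325417251819495653065547091974213829372091551597776442804733361229807688478806749649280371274966471420250923415608143820098674082233544194357314568904138315547000047346408215354874166399193370628126496041268507530528830708988850208
    (Pool.Agent.Work.NumI.setL 2 ([V.of 10000 5350 7500 16, V.of 10000 (-180) 985 16, V.of 10000 1250 4050 16, V.of 10000 (-985) 960 16])) =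
    5071626947674582792522410265769122657326999093735505540265686274143804116926556656675719930065456110448101964857530304374325624463200547561600850351055323484473700659550939872814817056915699766238684609714118965197842155635588700697761509325804782546721466755886980596273 := by
  decide +kernel

theorem V2b_h1_q2 : Pool.Agent.Work.NumU.runT [(sub (eg2 (q 40 100) (var 1) (var 0) (et (var 0) (var 1)) (var 2) (var 3) (E.uu (add (q 40 100) (var 2)) (sub (var 3) (var 1))) (E.uu (add (var 0) (var 2)) (sub (var 3) (et (var 0) (var 1))))) (eF1 (var 0) (var 1))), (sub (add (var 0) (var 2)) (q 94 100))] 17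
    5071626947674582792522410265769122657326999093735505540265686274143804116926556656675719930065456110448101964857530304374325624463200547561600850351055323484473700659550939872814817056915699766238684609714118965197842155635588700697761509325804782546721466755886980596272
    (Pool.Agent.Work.NumI.setR 2 ([V.of 10000 5350 7500 16, V.of 10000 (-180) 985 16, V.of 10000 1250 4050 16, V.of 10000 (-985) 960 16])) =
    1 := by
  decide +kernel

/-- 211 boxes -/
theorem V2b {x T s k : ℝ} (a0 : 5350 / 10000 ≤ x) (b0 : x ≤ 7500 / 10000) (a1 : -180 / 10000 ≤ T) (b1 : T ≤ 985 / 10000)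
    (a2 : 1250 / 10000 ≤ s) (b2 : s ≤ 4050 / 10000) (a3 : -985 / 10000 ≤ k) (b3 : k ≤ 960 / 10000)
    (c0 : (x + s) - (94 / 100) ≤ 0) :
    0 < ((g2 (40 / 100) T x (tt T x) s k (uu ((40 / 100) + s) (k - T)) (uu (x + s) (k - (tt T
      x)))) - (F1 x T)) := by
  have h : chkT [(sub (eg2 (q 40 100) (var 1) (var 0) (et (var 0) (var 1)) (var 2) (var 3) (E.uu (add (q 40
      100) (var 2)) (sub (var 3) (var 1))) (E.uu (add (var 0) (var 2)) (sub (var 3) (et (var 0)
      (var 1))))) (eF1 (var 0) (var 1))), (sub (add (var 0) (var 2)) (q 94 100))] 18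
      516016871418403923745244260564928674710982301461502897952459526970352704177348059112374014962556786382810026156541272036377601811606298138190014333052920181166722244625990569631815452085312896213055048837105373785728440651040109805685348563718529760880827749336840806125191621206676029111930449048753471587421269953464825564423084875733779676923015660907994388485940399463542724014774649730301121578785315736707109717033102466213048752000757542531445677986662387093930050023936660296120488461291343821603330
      [V.of 10000 5350 7500 16, V.of 10000 (-180) 985 16, V.of 10000 1250 4050 16, V.of 10000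
        (-985) 960 16] = true :=
      Pool.Agent.Work.NumU.chkT_of (Pool.Agent.Work.NumU.runT_split rfl rfl rfl
        V2b_h1_q1
        V2b_h1_q2)
  obtain ⟨f, hf, hp⟩ := chkT4 h (by norm_num) (x := x) (y := T) (z := s) (w := k)
    (le_trans (by norm_num) a0) (le_trans b0 (by norm_num))
    (le_trans (by norm_num) a1) (le_trans b1 (by norm_num))
    (le_trans (by norm_num) a2) (le_trans b2 (by norm_num))
    (le_trans (by norm_num) a3) (le_trans b3 (by norm_num))
  simp only [List.mem_cons, List.not_mem_nil, or_false] at hf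
  rcases hf with rfl | rfl
  · simp only [eg1_val, eg2_val, eF1_val, eG1_val, eF3_val, et_val, nt_val, nm_val, nfZ_val, nfP_val, np1_val,
      np2_val, MR.e1_val, MR.e2_val, NumU.E.val, NumI.E.val, NumI.lkR] at hp
    push_cast at hp
    try simp only [div_one] at hp
    linarith only [hp]
  · simp only [eg1_val, eg2_val, eF1_val, eG1_val, eF3_val, et_val, nt_val, nm_val, nfZ_val, nfP_val, np1_val,
      np2_val, MR.e1_val, MR.e2_val, NumU.E.val, NumI.E.val, NumI.lkR] at hp
    push_cast at hp
    try simp only [div_one] at hp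
    exfalso
    linarith only [c0, hp]

/-- 21 boxes -/
theorem B1lo {x T s k : ℝ} (a0 : 5350 / 10000 ≤ x) (b0 : x ≤ 7500 / 10000) (a1 : -180 / 10000 ≤ T) (b1 : T ≤ 985 / 10000)
    (a2 : 9400 / 10000 ≤ s) (b2 : s ≤ 9700 / 10000) (a3 : -1110 / 10000 ≤ k) (b3 : k ≤ 1870 /
    10000) (c0 : ((k - (tt T x)) + T) - (187 / 1000) ≤ 0) (c1 : (-(k - (tt T x))) - (93 / 1000) ≤
    0) (c2 : (k - (tt T x)) - (145 / 1000) ≤ 0) (c3 : (k - (tt T x)) - ((907 / 1000) * (s - x)) ≤
    0) :
    0 < ((g1 (40 / 100) T x (tt T x) (s - x) (k - (tt T x)) (uu ((40 / 100) + (s - x)) (T + (k -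
      (tt T x)))) ((uu (94 / 100) k) + ((27 / 100) * (s - (94 / 100))))) + (G1 x T)) := by
  have h : chkT [(add (eg1 (q 40 100) (var 1) (var 0) (et (var 0) (var 1)) (sub (var 2) (var 0)) (sub (var
      3) (et (var 0) (var 1))) (E.uu (add (q 40 100) (sub (var 2) (var 0))) (add (var 1) (sub (var
      3) (et (var 0) (var 1))))) (add (E.uu (q 94 100) (var 3)) (mul (q 27 100) (sub (var 2) (q 94
      100))))) (eG1 (var 0) (var 1))), (sub (add (sub (var 3) (et (var 0) (var 1))) (var 1)) (q
      187 1000)), (sub (neg (sub (var 3) (et (var 0) (var 1)))) (q 93 1000)), (sub (sub (var 3)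
      (et (var 0) (var 1))) (q 145 1000)), (sub (sub (var 3) (et (var 0) (var 1))) (mul (q 907
      1000) (sub (var 2) (var 0))))] 18
      12471314164319749642999107869386826806163680561155
      [V.of 10000 5350 7500 16, V.of 10000 (-180) 985 16, V.of 10000 9400 9700 16, V.of 10000
        (-1110) 1870 16] = true := by
    decide +kernel
  obtain ⟨f, hf, hp⟩ := chkT4 h (by norm_num) (x := x) (y := T) (z := s) (w := k)
    (le_trans (by norm_num) a0) (le_trans b0 (by norm_num))
    (le_trans (by norm_num) a1) (le_trans b1 (by norm_num))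
    (le_trans (by norm_num) a2) (le_trans b2 (by norm_num))
    (le_trans (by norm_num) a3) (le_trans b3 (by norm_num))
  simp only [List.mem_cons, List.not_mem_nil, or_false] at hf
  rcases hf with rfl | rfl | rfl | rfl | rfl
  · simp only [eg1_val, eg2_val, eF1_val, eG1_val, eF3_val, et_val, nt_val, nm_val, nfZ_val, nfP_val, np1_val,
      np2_val, MR.e1_val, MR.e2_val, NumU.E.val, NumI.E.val, NumI.lkR] at hp
    push_cast at hp
    try simp only [div_one] at hp
    linarith only [hp]
  · simp only [eg1_val, eg2_val, eF1_val, eG1_val, eF3_val, et_val, nt_val, nm_val, nfZ_val, nfP_val, np1_val,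
      np2_val, MR.e1_val, MR.e2_val, NumU.E.val, NumI.E.val, NumI.lkR] at hp
    push_cast at hp
    try simp only [div_one] at hp
    exfalso
    linarith only [c0, hp]
  · simp only [eg1_val, eg2_val, eF1_val, eG1_val, eF3_val, et_val, nt_val, nm_val, nfZ_val, nfP_val, np1_val,
      np2_val, MR.e1_val, MR.e2_val, NumU.E.val, NumI.E.val, NumI.lkR] at hp
    push_cast at hp
    try simp only [div_one] at hp
    exfalso
    linarith only [c1, hp]
  · simp only [eg1_val, eg2_val, eF1_val, eG1_val, eF3_val, et_val, nt_val, nm_val, nfZ_val, nfP_val, np1_val,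
      np2_val, MR.e1_val, MR.e2_val, NumU.E.val, NumI.E.val, NumI.lkR] at hp
    push_cast at hp
    try simp only [div_one] at hp
    exfalso
    linarith only [c2, hp]
  · simp only [eg1_val, eg2_val, eF1_val, eG1_val, eF3_val, et_val, nt_val, nm_val, nfZ_val, nfP_val, np1_val,
      np2_val, MR.e1_val, MR.e2_val, NumU.E.val, NumI.E.val, NumI.lkR] at hp
    push_cast at hp
    try simp only [div_one] at hp
    exfalso
    linarith only [b0, a2, c2, hp]

/-- 13 boxes -/
theorem B1Phi {x T s k : ℝ} (a0 : 5350 / 10000 ≤ x) (b0 : x ≤ 5600 / 10000) (a1 : -180 / 10000 ≤ T) (b1 : T ≤ 985 / 10000)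
    (a2 : 9700 / 10000 ≤ s) (b2 : s ≤ 10600 / 10000) (a3 : -1110 / 10000 ≤ k) (b3 : k ≤ 1480 /
    10000) (c0 : ((k - (tt T x)) + T) - (148 / 1000) ≤ 0) (c1 : (-(k - (tt T x))) - (93 / 1000) ≤
    0) (c2 : (k - (tt T x)) - (94 / 1000) ≤ 0) :
    0 < ((g1 (40 / 100) T x (tt T x) (s - x) (k - (tt T x)) (uu ((40 / 100) + (s - x)) (T + (k -
      (tt T x)))) ((uu (97 / 100) k) + ((27 / 100) * (s - (97 / 100))))) + (F1 x T)) := by
  have h : chkT [(add (eg1 (q 40 100) (var 1) (var 0) (et (var 0) (var 1)) (sub (var 2) (var 0)) (sub (var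
      3) (et (var 0) (var 1))) (E.uu (add (q 40 100) (sub (var 2) (var 0))) (add (var 1) (sub (var
      3) (et (var 0) (var 1))))) (add (E.uu (q 97 100) (var 3)) (mul (q 27 100) (sub (var 2) (q 97
      100))))) (eF1 (var 0) (var 1))), (sub (add (sub (var 3) (et (var 0) (var 1))) (var 1)) (q
      148 1000)), (sub (neg (sub (var 3) (et (var 0) (var 1)))) (q 93 1000)), (sub (sub (var 3)
      (et (var 0) (var 1))) (q 94 1000))] 18
      674217590678815289982563092531
      [V.of 10000 5350 5600 16, V.of 10000 (-180) 985 16, V.of 10000 9700 10600 16, V.of 10000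
        (-1110) 1480 16] = true := by
    decide +kernel
  obtain ⟨f, hf, hp⟩ := chkT4 h (by norm_num) (x := x) (y := T) (z := s) (w := k)
    (le_trans (by norm_num) a0) (le_trans b0 (by norm_num))
    (le_trans (by norm_num) a1) (le_trans b1 (by norm_num))
    (le_trans (by norm_num) a2) (le_trans b2 (by norm_num))
    (le_trans (by norm_num) a3) (le_trans b3 (by norm_num))
  simp only [List.mem_cons, List.not_mem_nil, or_false] at hf
  rcases hf with rfl | rfl | rfl | rfl
  · simp only [eg1_val, eg2_val, eF1_val, eG1_val, eF3_val, et_val, nt_val, nm_val, nfZ_val, nfP_val, np1_val,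
      np2_val, MR.e1_val, MR.e2_val, NumU.E.val, NumI.E.val, NumI.lkR] at hp
    push_cast at hp
    try simp only [div_one] at hp
    linarith only [hp]
  · simp only [eg1_val, eg2_val, eF1_val, eG1_val, eF3_val, et_val, nt_val, nm_val, nfZ_val, nfP_val, np1_val,
      np2_val, MR.e1_val, MR.e2_val, NumU.E.val, NumI.E.val, NumI.lkR] at hp
    push_cast at hp
    try simp only [div_one] at hp
    exfalso
    linarith only [c0, hp]
  · simp only [eg1_val, eg2_val, eF1_val, eG1_val, eF3_val, et_val, nt_val, nm_val, nfZ_val, nfP_val, np1_val,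
      np2_val, MR.e1_val, MR.e2_val, NumU.E.val, NumI.E.val, NumI.lkR] at hp
    push_cast at hp
    try simp only [div_one] at hp
    exfalso
    linarith only [c1, hp]
  · simp only [eg1_val, eg2_val, eF1_val, eG1_val, eF3_val, et_val, nt_val, nm_val, nfZ_val, nfP_val, np1_val,
      np2_val, MR.e1_val, MR.e2_val, NumU.E.val, NumI.E.val, NumI.lkR] at hp
    push_cast at hp
    try simp only [div_one] at hp
    exfalso
    linarith only [c2, hp]

/-- 30 boxes -/
theorem B2lo {x T s k : ℝ} (a0 : 5350 / 10000 ≤ x) (b0 : x ≤ 7500 / 10000) (a1 : -180 / 10000 ≤ T) (b1 : T ≤ 985 / 10000)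
    (a2 : 9400 / 10000 ≤ s) (b2 : s ≤ 9700 / 10000) (a3 : -1980 / 10000 ≤ k) (b3 : k ≤ 1150 /
    10000) (c0 : (-(k + (tt T x))) - (99 / 1000) ≤ 0) (c1 : (k + (tt T x)) - (96 / 1000) ≤ 0) :
    0 < ((g2 (40 / 100) T x (tt T x) (s - x) (k + (tt T x)) (uu ((40 / 100) + (s - x)) ((k + (tt
      T x)) - T)) ((uu (94 / 100) k) + ((34 / 100) * (s - (94 / 100))))) - (F1 x T)) := by
  have h : chkT [(sub (eg2 (q 40 100) (var 1) (var 0) (et (var 0) (var 1)) (sub (var 2) (var 0)) (add (var
      3) (et (var 0) (var 1))) (E.uu (add (q 40 100) (sub (var 2) (var 0))) (sub (add (var 3) (et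
      (var 0) (var 1))) (var 1))) (add (E.uu (q 94 100) (var 3)) (mul (q 34 100) (sub (var 2) (q
      94 100))))) (eF1 (var 0) (var 1))), (sub (neg (add (var 3) (et (var 0) (var 1)))) (q 99
      1000)), (sub (add (var 3) (et (var 0) (var 1))) (q 96 1000))] 18
      58759365110593741091589847030846672169169321562777603723387922616430640
      [V.of 10000 5350 7500 16, V.of 10000 (-180) 985 16, V.of 10000 9400 9700 16, V.of 10000
        (-1980) 1150 16] = true := by
    decide +kernel
  obtain ⟨f, hf, hp⟩ := chkT4 h (by norm_num) (x := x) (y := T) (z := s) (w := k)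
    (le_trans (by norm_num) a0) (le_trans b0 (by norm_num))
    (le_trans (by norm_num) a1) (le_trans b1 (by norm_num))
    (le_trans (by norm_num) a2) (le_trans b2 (by norm_num))
    (le_trans (by norm_num) a3) (le_trans b3 (by norm_num))
  simp only [List.mem_cons, List.not_mem_nil, or_false] at hf
  rcases hf with rfl | rfl | rfl
  · simp only [eg1_val, eg2_val, eF1_val, eG1_val, eF3_val, et_val, nt_val, nm_val, nfZ_val, nfP_val, np1_val,
      np2_val, MR.e1_val, MR.e2_val, NumU.E.val, NumI.E.val, NumI.lkR] at hp
    push_cast at hp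
    try simp only [div_one] at hp
    linarith only [hp]
  · simp only [eg1_val, eg2_val, eF1_val, eG1_val, eF3_val, et_val, nt_val, nm_val, nfZ_val, nfP_val, np1_val,
      np2_val, MR.e1_val, MR.e2_val, NumU.E.val, NumI.E.val, NumI.lkR] at hp
    push_cast at hp
    try simp only [div_one] at hp
    exfalso
    linarith only [c0, hp]
  · simp only [eg1_val, eg2_val, eF1_val, eG1_val, eF3_val, et_val, nt_val, nm_val, nfZ_val, nfP_val, np1_val,
      np2_val, MR.e1_val, MR.e2_val, NumU.E.val, NumI.E.val, NumI.lkR] at hp
    push_cast at hp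
    try simp only [div_one] at hp
    exfalso
    linarith only [c1, hp]

end C12

end Pool.Agent.Work.MP_b30479_gt.G2
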