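import Pool.Agent.Work.MP_b30479_gt.G2.C12E
import Pool.Agent.Work.NumU.Tree
import Pool.Agent.Work.NumU.TreeS

/-!
# The right ramp of the hinge `1 | 2`: rows

Found with `NumU.cert`.
-/

set_option linter.unusedSimpArgs false
set_option linter.unusedTactic false
set_option linter.unusedVariables false

namespace Pool.Agent.Work.MP_b30479_gt.G2

namespace C12

open NumU NumU.E
open NumI (V)

/-- 156 boxes -/
theorem B1hi {x T s k : ℝ} (a0 : 5600 / 10000 ≤ x) (b0 : x ≤ 7500 / 10000) (a1 : -180 / 10000 ≤ T) (b1 : T ≤ 985 / 10000)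
    (a2 : 9700 / 10000 ≤ s) (b2 : s ≤ 10600 / 10000) (a3 : -1110 / 10000 ≤ k) (b3 : k ≤ 1870 /
    10000) (c0 : ((k - (tt T x)) + T) - (187 / 1000) ≤ 0) (c1 : (-(k - (tt T x))) - (93 / 1000) ≤
    0) (c2 : (k - (tt T x)) - (145 / 1000) ≤ 0) (c3 : (k - (tt T x)) - ((907 / 1000) * (s - x)) ≤
    0) :
    0 < ((g1 (40 / 100) T x (tt T x) (s - x) (k - (tt T x)) (uu ((40 / 100) + (s - x)) (T + (k -
      (tt T x)))) ((uu (97 / 100) k) + ((27 / 100) * (s - (97 / 100))))) + (F1 x T)) := by
  have h : chkT [(add (eg1 (q 40 100) (var 1) (var 0) (et (var 0) (var 1)) (sub (var 2) (var 0)) (sub (var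
      3) (et (var 0) (var 1))) (E.uu (add (q 40 100) (sub (var 2) (var 0))) (add (var 1) (sub (var
      3) (et (var 0) (var 1))))) (add (E.uu (q 97 100) (var 3)) (mul (q 27 100) (sub (var 2) (q 97
      100))))) (eF1 (var 0) (var 1))), (sub (add (sub (var 3) (et (var 0) (var 1))) (var 1)) (q
      187 1000)), (sub (neg (sub (var 3) (et (var 0) (var 1)))) (q 93 1000)), (sub (sub (var 3)
      (et (var 0) (var 1))) (q 145 1000)), (sub (sub (var 3) (et (var 0) (var 1))) (mul (q 907
      1000) (sub (var 2) (var 0))))] 28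
      181672065148779239718982108883254459800858018578183377841998631730427410349922128211633749557835558693531299241456858721205888929726762550201563138208858659539582411306717383463117928529482673676270989578346899860084062286482486157963034443921488582434714560555600192024484999136990911663557771898601069381619676391332000870148118000408443816394848036269912915417987839176752
      [V.of 10000 5600 7500 16, V.of 10000 (-180) 985 16, V.of 10000 9700 10600 16, V.of 10000
        (-1110) 1870 16] = true := by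
    decide +kernel
  obtain ⟨f, hf, hp⟩ := chkT4 h (by norm_num) (x := x) (y := T) (z := s) (w := k)
    (le_trans (by norm_num) a0) (le_trans b0 (by norm_num))
    (le_trans (by norm_num) a1) (le_trans b1 (by norm_num))
    (le_trans (by norm_num) a2) (le_trans b2 (by norm_num))
    (le_trans (by norm_num) a3) (le_trans b3 (by norm_num))
  simp only [List.mem_cons, List.not_mem_nil, or_false] at hf
  rcases hf with rfl | rfl | rfl | rfl | rfl
  · simp only [eg1_val, eg2_val, eF1_val, eG1_val, eF3_val, et_val, nt_val, nm_val, nfZ_val, nfP_val, np1_val,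
      np2_val, MR.e1_val, MR.e2_val, NumU.E.val, NumI.E.val, NumI.lkR] at hp
    push_cast at hp
    try simp only [div_one] at hp
    linarith only [hp]
  · simp only [eg1_val, eg2_val, eF1_val, eG1_val, eF3_val, et_val, nt_val, nm_val, nfZ_val, nfP_val, np1_val,
      np2_val, MR.e1_val, MR.e2_val, NumU.E.val, NumI.E.val, NumI.lkR] at hp
    push_cast at hp
    try simp only [div_one] at hp
    exfalso
    linarith only [c0, hp]
  · simp only [eg1_val, eg2_val, eF1_val, eG1_val, eF3_val, et_val, nt_val, nm_val, nfZ_val, nfP_val, np1_val,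
      np2_val, MR.e1_val, MR.e2_val, NumU.E.val, NumI.E.val, NumI.lkR] at hp
    push_cast at hp
    try simp only [div_one] at hp
    exfalso
    linarith only [c1, hp]
  · simp only [eg1_val, eg2_val, eF1_val, eG1_val, eF3_val, et_val, nt_val, nm_val, nfZ_val, nfP_val, np1_val,
      np2_val, MR.e1_val, MR.e2_val, NumU.E.val, NumI.E.val, NumI.lkR] at hp
    push_cast at hp
    try simp only [div_one] at hp
    exfalso
    linarith only [c2, hp]
  · simp only [eg1_val, eg2_val, eF1_val, eG1_val, eF3_val, et_val, nt_val, nm_val, nfZ_val, nfP_val, np1_val,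
      np2_val, MR.e1_val, MR.e2_val, NumU.E.val, NumI.E.val, NumI.lkR] at hp
    push_cast at hp
    try simp only [div_one] at hp
    exfalso
    linarith only [b0, a2, c2, hp]

theorem B2hi_h1_q1 : Pool.Agent.Work.NumU.runT [(sub (eg2 (q 40 100) (var 1) (var 0) (et (var 0) (var 1)) (sub (var 2) (var 0)) (add (var 3) (et (var 0) (var 1))) (E.uu (add (q 40 100) (sub (var 2) (var 0))) (sub (add (var 3) (et (var 0) (var 1))) (var 1))) (add (E.uu (q 97 100) (var 3)) (mul (q 34 100) (sub (var 2) (q 97 100))))) (eG1 (var 0) (var 1))), (sub (neg (add (var 3) (et (var 0) (var 1)))) (q 99 1000)), (sub (add (var 3) (et (var 0) (var 1))) (q 96 1000))] 17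
    139875530824571467093301361608855450369176881264849966215458810198883041890958882383076942319121681413911031354081443879223526183616494845167547407215295121589300700978699117810529989240610771320910488001551739217888588360343389683246908098328679709306200807230067868845127034676611389920242704210339149150789776710578593206826159642790924880006849590594340135360852496338586616996674931706608456626273929459569484775616492915842752325430229490843385889444079816713328273347200567057756172660552669205251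
    (Pool.Agent.Work.NumI.setL 0 ([V.of 10000 5350 7500 16, V.of 10000 (-180) 985 16, V.of 10000 9700 10600 16, V.of 10000 (-1980) 1150 16])) =
    58790324620349337395234583130650439597493218323443837371460379989353821070058858816175229415690454702064967655195370796190734782451510271830635239520801346984355427320339830333297948051864390485210706803811319068234500 := by
  decide +kernel

theorem B2hi_h1_q2 : Pool.Agent.Work.NumU.runT [(sub (eg2 (q 40 100) (var 1) (var 0) (et (var 0) (var 1)) (sub (var 2) (var 0)) (add (var 3) (et (var 0) (var 1))) (E.uu (add (q 40 100) (sub (var 2) (var 0))) (sub (add (var 3) (et (var 0) (var 1))) (var 1))) (add (E.uu (q 97 100) (var 3)) (mul (q 34 100) (sub (var 2) (q 97 100))))) (eG1 (var 0) (var 1))), (sub (neg (add (var 3) (et (var 0) (var 1)))) (q 99 1000)), (sub (add (var 3) (et (var 0) (var 1))) (q 96 1000))] 17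
    58790324620349337395234583130650439597493218323443837371460379989353821070058858816175229415690454702064967655195370796190734782451510271830635239520801346984355427320339830333297948051864390485210706803811319068234499
    (Pool.Agent.Work.NumI.setR 0 ([V.of 10000 5350 7500 16, V.of 10000 (-180) 985 16, V.of 10000 9700 10600 16, V.of 10000 (-1980) 1150 16])) =
    1 := by
  decide +kernel

/-- 210 boxes -/
theorem B2hi {x T s k : ℝ} (a0 : 5350 / 10000 ≤ x) (b0 : x ≤ 7500 / 10000) (a1 : -180 / 10000 ≤ T) (b1 : T ≤ 985 / 10000)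
    (a2 : 9700 / 10000 ≤ s) (b2 : s ≤ 10600 / 10000) (a3 : -1980 / 10000 ≤ k) (b3 : k ≤ 1150 /
    10000) (c0 : (-(k + (tt T x))) - (99 / 1000) ≤ 0) (c1 : (k + (tt T x)) - (96 / 1000) ≤ 0) :
    0 < ((g2 (40 / 100) T x (tt T x) (s - x) (k + (tt T x)) (uu ((40 / 100) + (s - x)) ((k + (tt
      T x)) - T)) ((uu (97 / 100) k) + ((34 / 100) * (s - (97 / 100))))) - (G1 x T)) := by
  have h : chkT [(sub (eg2 (q 40 100) (var 1) (var 0) (et (var 0) (var 1)) (sub (var 2) (var 0)) (add (var
      3) (et (var 0) (var 1))) (E.uu (add (q 40 100) (sub (var 2) (var 0))) (sub (add (var 3) (et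
      (var 0) (var 1))) (var 1))) (add (E.uu (q 97 100) (var 3)) (mul (q 34 100) (sub (var 2) (q
      97 100))))) (eG1 (var 0) (var 1))), (sub (neg (add (var 3) (et (var 0) (var 1)))) (q 99
      1000)), (sub (add (var 3) (et (var 0) (var 1))) (q 96 1000))] 18
      2238008493193143473492821785741687205906830100237599459447340963182128670255342118129231077105946902622576501665303102067576418937863917522680758515444721945428811215659185884968479827849772341134567808024827827486217413765494234931950529573258875348899212915681085901522032554825782238723883267365426386412636427369257491309218554284654798080109593449509442165773639941417385871946798907305735306020382871353111756409863886653484037206883671853494174231105277067413252373555209072924098762568842707284016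
      [V.of 10000 5350 7500 16, V.of 10000 (-180) 985 16, V.of 10000 9700 10600 16, V.of 10000
        (-1980) 1150 16] = true :=
      Pool.Agent.Work.NumU.chkT_of (Pool.Agent.Work.NumU.runT_split rfl rfl rfl
        B2hi_h1_q1
        B2hi_h1_q2)
  obtain ⟨f, hf, hp⟩ := chkT4 h (by norm_num) (x := x) (y := T) (z := s) (w := k)
    (le_trans (by norm_num) a0) (le_trans b0 (by norm_num))
    (le_trans (by norm_num) a1) (le_trans b1 (by norm_num))
    (le_trans (by norm_num) a2) (le_trans b2 (by norm_num))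
    (le_trans (by norm_num) a3) (le_trans b3 (by norm_num))
  simp only [List.mem_cons, List.not_mem_nil, or_false] at hf
  rcases hf with rfl | rfl | rfl
  · simp only [eg1_val, eg2_val, eF1_val, eG1_val, eF3_val, et_val, nt_val, nm_val, nfZ_val, nfP_val, np1_val,
      np2_val, MR.e1_val, MR.e2_val, NumU.E.val, NumI.E.val, NumI.lkR] at hp
    push_cast at hp
    try simp only [div_one] at hp
    linarith only [hp]
  · simp only [eg1_val, eg2_val, eF1_val, eG1_val, eF3_val, et_val, nt_val, nm_val, nfZ_val, nfP_val, np1_val,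
      np2_val, MR.e1_val, MR.e2_val, NumU.E.val, NumI.E.val, NumI.lkR] at hp
    push_cast at hp
    try simp only [div_one] at hp
    exfalso
    linarith only [c0, hp]
  · simp only [eg1_val, eg2_val, eF1_val, eG1_val, eF3_val, et_val, nt_val, nm_val, nfZ_val, nfP_val, np1_val,
      np2_val, MR.e1_val, MR.e2_val, NumU.E.val, NumI.E.val, NumI.lkR] at hp
    push_cast at hp
    try simp only [div_one] at hp
    exfalso
    linarith only [c1, hp]

/-- 176 boxes -/
theorem Z1Ap {x T s k : ℝ} (a0 : 5600 / 10000 ≤ x) (b0 : x ≤ 7500 / 10000) (a1 : -180 / 10000 ≤ T) (b1 : T ≤ 985 / 10000)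
    (a2 : 3100 / 10000 ≤ s) (b2 : s ≤ 5700 / 10000) (a3 : -930 / 10000 ≤ k) (b3 : k ≤ 1450 /
    10000) (c0 : -((tt T x) + k) ≤ 0) (c1 : (T + k) - (187 / 1000) ≤ 0) (c2 : k - ((0 / 1000) +
    ((290 / 1000) * ((86 / 100) - s))) ≤ 0) (c3 : (-k) - ((0 / 1000) + ((465 / 1000) * ((86 / 100)
    - s))) ≤ 0) (c4 : (106 / 100) - (x + s) ≤ 0) :
    0 < ((g1 (40 / 100) T x (tt T x) s k (uu ((40 / 100) + s) (T + k)) ((uu ((x + s) - 1) ((tt T
      x) + k)) + ((Real.pi * 1) * ((tt T x) + k)))) + (F1 x T)) := by
  have h : chkT [(add (eg1 (q 40 100) (var 1) (var 0) (et (var 0) (var 1)) (var 2) (var 3) (E.uu (add (q 40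
      100) (var 2)) (add (var 1) (var 3))) (add (E.uu (sub (add (var 0) (var 2)) (q 1 1)) (add (et
      (var 0) (var 1)) (var 3))) (mul (mul pi (q 1 1)) (add (et (var 0) (var 1)) (var 3))))) (eF1
      (var 0) (var 1))), (neg (add (et (var 0) (var 1)) (var 3))), (sub (add (var 1) (var 3)) (q
      187 1000)), (sub (var 3) (add (q 0 1000) (mul (q 290 1000) (sub (q 86 100) (var 2))))), (sub
      (neg (var 3)) (add (q 0 1000) (mul (q 465 1000) (sub (q 86 100) (var 2))))), (sub (q 106
      100) (add (var 0) (var 2)))] 18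
      319066824763115976271180341409318078469540617373574463249359553768797697243561095533159589441919182564774582397825473211236461336255432211011771382017167476762838781424216413785942705011270450381642955151166910501052691830992310678049988735693843167896444449205615854441471427127370501990414110741624287078257120162550782920878511005697842866955891297498558746002832642706245154008058402079784118735497659023983943002955826
      [V.of 10000 5600 7500 16, V.of 10000 (-180) 985 16, V.of 10000 3100 5700 16, V.of 10000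
        (-930) 1450 16] = true := by
    decide +kernel
  obtain ⟨f, hf, hp⟩ := chkT4 h (by norm_num) (x := x) (y := T) (z := s) (w := k)
    (le_trans (by norm_num) a0) (le_trans b0 (by norm_num))
    (le_trans (by norm_num) a1) (le_trans b1 (by norm_num))
    (le_trans (by norm_num) a2) (le_trans b2 (by norm_num))
    (le_trans (by norm_num) a3) (le_trans b3 (by norm_num))
  simp only [List.mem_cons, List.not_mem_nil, or_false] at hf
  rcases hf with rfl | rfl | rfl | rfl | rfl | rfl
  · simp only [eg1_val, eg2_val, eF1_val, eG1_val, eF3_val, et_val, nt_val, nm_val, nfZ_val, nfP_val, np1_val,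
      np2_val, MR.e1_val, MR.e2_val, NumU.E.val, NumI.E.val, NumI.lkR] at hp
    push_cast at hp
    try simp only [div_one] at hp
    linarith only [hp]
  · simp only [eg1_val, eg2_val, eF1_val, eG1_val, eF3_val, et_val, nt_val, nm_val, nfZ_val, nfP_val, np1_val,
      np2_val, MR.e1_val, MR.e2_val, NumU.E.val, NumI.E.val, NumI.lkR] at hp
    push_cast at hp
    try simp only [div_one] at hp
    exfalso
    linarith only [c0, hp]
  · simp only [eg1_val, eg2_val, eF1_val, eG1_val, eF3_val, et_val, nt_val, nm_val, nfZ_val, nfP_val, np1_val,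
      np2_val, MR.e1_val, MR.e2_val, NumU.E.val, NumI.E.val, NumI.lkR] at hp
    push_cast at hp
    try simp only [div_one] at hp
    exfalso
    linarith only [c1, hp]
  · simp only [eg1_val, eg2_val, eF1_val, eG1_val, eF3_val, et_val, nt_val, nm_val, nfZ_val, nfP_val, np1_val,
      np2_val, MR.e1_val, MR.e2_val, NumU.E.val, NumI.E.val, NumI.lkR] at hp
    push_cast at hp
    try simp only [div_one] at hp
    exfalso
    linarith only [c2, hp]
  · simp only [eg1_val, eg2_val, eF1_val, eG1_val, eF3_val, et_val, nt_val, nm_val, nfZ_val, nfP_val, np1_val,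
      np2_val, MR.e1_val, MR.e2_val, NumU.E.val, NumI.E.val, NumI.lkR] at hp
    push_cast at hp
    try simp only [div_one] at hp
    exfalso
    linarith only [b2, a3, hp]
  · simp only [eg1_val, eg2_val, eF1_val, eG1_val, eF3_val, et_val, nt_val, nm_val, nfZ_val, nfP_val, np1_val,
      np2_val, MR.e1_val, MR.e2_val, NumU.E.val, NumI.E.val, NumI.lkR] at hp
    push_cast at hp
    try simp only [div_one] at hp
    exfalso
    linarith only [c4, hp]

/-- 14 boxes -/
theorem Z1Bp {x T s k : ℝ} (a0 : 5600 / 10000 ≤ x) (b0 : x ≤ 7500 / 10000) (a1 : -180 / 10000 ≤ T) (b1 : T ≤ 985 / 10000)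
    (a2 : 5700 / 10000 ≤ s) (b2 : s ≤ 6300 / 10000) (a3 : -930 / 10000 ≤ k) (b3 : k ≤ 1450 /
    10000) (c0 : -((tt T x) + k) ≤ 0) (c1 : (T + k) - (187 / 1000) ≤ 0) (c2 : k - ((0 / 1000) +
    ((290 / 1000) * ((86 / 100) - s))) ≤ 0) (c3 : (-k) - ((0 / 1000) + ((465 / 1000) * ((86 / 100)
    - s))) ≤ 0) (c4 : (106 / 100) - (x + s) ≤ 0) :
    0 < ((g1 (40 / 100) T x (tt T x) s k (((uu (3 / 100) (T + k)) + ((Real.pi * 1) * (T + k))) -
      ((27 / 100) * ((103 / 100) - ((40 / 100) + s)))) ((uu ((x + s) - 1) ((tt T x) + k)) +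
      ((Real.pi * 1) * ((tt T x) + k)))) + (F1 x T)) ∨ 0 < ((g1 (40 / 100) T x (tt T x) s k (((uu
      (3 / 100) (T + k)) + ((Real.pi * (-1)) * (T + k))) - ((27 / 100) * ((103 / 100) - ((40 /
      100) + s)))) ((uu ((x + s) - 1) ((tt T x) + k)) + ((Real.pi * 1) * ((tt T x) + k)))) + (F1 x
      T)) := by
  have h : chkT [(add (eg1 (q 40 100) (var 1) (var 0) (et (var 0) (var 1)) (var 2) (var 3) (sub (add (E.uu
      (q 3 100) (add (var 1) (var 3))) (mul (mul pi (q 1 1)) (add (var 1) (var 3)))) (mul (q 27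
      100) (sub (q 103 100) (add (q 40 100) (var 2))))) (add (E.uu (sub (add (var 0) (var 2)) (q 1
      1)) (add (et (var 0) (var 1)) (var 3))) (mul (mul pi (q 1 1)) (add (et (var 0) (var 1)) (var
      3))))) (eF1 (var 0) (var 1))), (add (eg1 (q 40 100) (var 1) (var 0) (et (var 0) (var 1))
      (var 2) (var 3) (sub (add (E.uu (q 3 100) (add (var 1) (var 3))) (mul (mul pi (q (-1) 1))
      (add (var 1) (var 3)))) (mul (q 27 100) (sub (q 103 100) (add (q 40 100) (var 2))))) (add
      (E.uu (sub (add (var 0) (var 2)) (q 1 1)) (add (et (var 0) (var 1)) (var 3))) (mul (mul pi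
      (q 1 1)) (add (et (var 0) (var 1)) (var 3))))) (eF1 (var 0) (var 1))), (neg (add (et (var 0)
      (var 1)) (var 3))), (sub (add (var 1) (var 3)) (q 187 1000)), (sub (var 3) (add (q 0 1000)
      (mul (q 290 1000) (sub (q 86 100) (var 2))))), (sub (neg (var 3)) (add (q 0 1000) (mul (q
      465 1000) (sub (q 86 100) (var 2))))), (sub (q 106 100) (add (var 0) (var 2)))] 18
      254171528371646604681607878058771
      [V.of 10000 5600 7500 16, V.of 10000 (-180) 985 16, V.of 10000 5700 6300 16, V.of 10000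
        (-930) 1450 16] = true := by
    decide +kernel
  obtain ⟨f, hf, hp⟩ := chkT4 h (by norm_num) (x := x) (y := T) (z := s) (w := k)
    (le_trans (by norm_num) a0) (le_trans b0 (by norm_num))
    (le_trans (by norm_num) a1) (le_trans b1 (by norm_num))
    (le_trans (by norm_num) a2) (le_trans b2 (by norm_num))
    (le_trans (by norm_num) a3) (le_trans b3 (by norm_num))
  simp only [List.mem_cons, List.not_mem_nil, or_false] at hf
  rcases hf with rfl | rfl | rfl | rfl | rfl | rfl | rfl
  · simp only [eg1_val, eg2_val, eF1_val, eG1_val, eF3_val, et_val, nt_val, nm_val, nfZ_val, nfP_val, np1_val,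
      np2_val, MR.e1_val, MR.e2_val, NumU.E.val, NumI.E.val, NumI.lkR] at hp
    push_cast at hp
    try simp only [div_one] at hp
    left
    linarith only [hp]
  · simp only [eg1_val, eg2_val, eF1_val, eG1_val, eF3_val, et_val, nt_val, nm_val, nfZ_val, nfP_val, np1_val,
      np2_val, MR.e1_val, MR.e2_val, NumU.E.val, NumI.E.val, NumI.lkR] at hp
    push_cast at hp
    try simp only [div_one] at hp
    right
    linarith only [hp]
  · simp only [eg1_val, eg2_val, eF1_val, eG1_val, eF3_val, et_val, nt_val, nm_val, nfZ_val, nfP_val, np1_val,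
      np2_val, MR.e1_val, MR.e2_val, NumU.E.val, NumI.E.val, NumI.lkR] at hp
    push_cast at hp
    try simp only [div_one] at hp
    exfalso
    linarith only [c0, hp]
  · simp only [eg1_val, eg2_val, eF1_val, eG1_val, eF3_val, et_val, nt_val, nm_val, nfZ_val, nfP_val, np1_val,
      np2_val, MR.e1_val, MR.e2_val, NumU.E.val, NumI.E.val, NumI.lkR] at hp
    push_cast at hp
    try simp only [div_one] at hp
    exfalso
    linarith only [c1, hp]
  · simp only [eg1_val, eg2_val, eF1_val, eG1_val, eF3_val, et_val, nt_val, nm_val, nfZ_val, nfP_val, np1_val,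
      np2_val, MR.e1_val, MR.e2_val, NumU.E.val, NumI.E.val, NumI.lkR] at hp
    push_cast at hp
    try simp only [div_one] at hp
    exfalso
    linarith only [c2, hp]
  · simp only [eg1_val, eg2_val, eF1_val, eG1_val, eF3_val, et_val, nt_val, nm_val, nfZ_val, nfP_val, np1_val,
      np2_val, MR.e1_val, MR.e2_val, NumU.E.val, NumI.E.val, NumI.lkR] at hp
    push_cast at hp
    try simp only [div_one] at hp
    exfalso
    linarith only [b2, a3, hp]
  · simp only [eg1_val, eg2_val, eF1_val, eG1_val, eF3_val, et_val, nt_val, nm_val, nfZ_val, nfP_val, np1_val,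
      np2_val, MR.e1_val, MR.e2_val, NumU.E.val, NumI.E.val, NumI.lkR] at hp
    push_cast at hp
    try simp only [div_one] at hp
    exfalso
    linarith only [a0, a2, hp]

/-- 88 boxes -/
theorem Z1An {x T s k : ℝ} (a0 : 5600 / 10000 ≤ x) (b0 : x ≤ 7500 / 10000) (a1 : -180 / 10000 ≤ T) (b1 : T ≤ 985 / 10000)
    (a2 : 3100 / 10000 ≤ s) (b2 : s ≤ 5700 / 10000) (a3 : -930 / 10000 ≤ k) (b3 : k ≤ 1450 /
    10000) (c0 : (tt T x) + k ≤ 0) (c1 : (T + k) - (187 / 1000) ≤ 0) (c2 : k - ((0 / 1000) + ((290
    / 1000) * ((86 / 100) - s))) ≤ 0) (c3 : (-k) - ((0 / 1000) + ((465 / 1000) * ((86 / 100) -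
    s))) ≤ 0) (c4 : (106 / 100) - (x + s) ≤ 0) :
    0 < ((g1 (40 / 100) T x (tt T x) s k (uu ((40 / 100) + s) (T + k)) ((uu ((x + s) - 1) ((tt T
      x) + k)) + ((Real.pi * (-1)) * ((tt T x) + k)))) + (F1 x T)) := by
  have h : chkT [(add (eg1 (q 40 100) (var 1) (var 0) (et (var 0) (var 1)) (var 2) (var 3) (E.uu (add (q 40
      100) (var 2)) (add (var 1) (var 3))) (add (E.uu (sub (add (var 0) (var 2)) (q 1 1)) (add (et
      (var 0) (var 1)) (var 3))) (mul (mul pi (q (-1) 1)) (add (et (var 0) (var 1)) (var 3)))))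
      (eF1 (var 0) (var 1))), (add (et (var 0) (var 1)) (var 3)), (sub (add (var 1) (var 3)) (q
      187 1000)), (sub (var 3) (add (q 0 1000) (mul (q 290 1000) (sub (q 86 100) (var 2))))), (sub
      (neg (var 3)) (add (q 0 1000) (mul (q 465 1000) (sub (q 86 100) (var 2))))), (sub (q 106
      100) (add (var 0) (var 2)))] 18
      2816961221093888017263640743731949124135543246767517986971184869154207689198601380451258498489243031794251106786105966370595260785745519040065401720774360104558060333776270438638464109284112313224825018323378226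
      [V.of 10000 5600 7500 16, V.of 10000 (-180) 985 16, V.of 10000 3100 5700 16, V.of 10000
        (-930) 1450 16] = true := by
    decide +kernel
  obtain ⟨f, hf, hp⟩ := chkT4 h (by norm_num) (x := x) (y := T) (z := s) (w := k)
    (le_trans (by norm_num) a0) (le_trans b0 (by norm_num))
    (le_trans (by norm_num) a1) (le_trans b1 (by norm_num))
    (le_trans (by norm_num) a2) (le_trans b2 (by norm_num))
    (le_trans (by norm_num) a3) (le_trans b3 (by norm_num))
  simp only [List.mem_cons, List.not_mem_nil, or_false] at hf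
  rcases hf with rfl | rfl | rfl | rfl | rfl | rfl
  · simp only [eg1_val, eg2_val, eF1_val, eG1_val, eF3_val, et_val, nt_val, nm_val, nfZ_val, nfP_val, np1_val,
      np2_val, MR.e1_val, MR.e2_val, NumU.E.val, NumI.E.val, NumI.lkR] at hp
    push_cast at hp
    try simp only [div_one] at hp
    linarith only [hp]
  · simp only [eg1_val, eg2_val, eF1_val, eG1_val, eF3_val, et_val, nt_val, nm_val, nfZ_val, nfP_val, np1_val,
      np2_val, MR.e1_val, MR.e2_val, NumU.E.val, NumI.E.val, NumI.lkR] at hp
    push_cast at hp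
    try simp only [div_one] at hp
    exfalso
    linarith only [c0, hp]
  · simp only [eg1_val, eg2_val, eF1_val, eG1_val, eF3_val, et_val, nt_val, nm_val, nfZ_val, nfP_val, np1_val,
      np2_val, MR.e1_val, MR.e2_val, NumU.E.val, NumI.E.val, NumI.lkR] at hp
    push_cast at hp
    try simp only [div_one] at hp
    exfalso
    linarith only [c1, hp]
  · simp only [eg1_val, eg2_val, eF1_val, eG1_val, eF3_val, et_val, nt_val, nm_val, nfZ_val, nfP_val, np1_val,
      np2_val, MR.e1_val, MR.e2_val, NumU.E.val, NumI.E.val, NumI.lkR] at hp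
    push_cast at hp
    try simp only [div_one] at hp
    exfalso
    linarith only [c2, hp]
  · simp only [eg1_val, eg2_val, eF1_val, eG1_val, eF3_val, et_val, nt_val, nm_val, nfZ_val, nfP_val, np1_val,
      np2_val, MR.e1_val, MR.e2_val, NumU.E.val, NumI.E.val, NumI.lkR] at hp
    push_cast at hp
    try simp only [div_one] at hp
    exfalso
    linarith only [b2, a3, hp]
  · simp only [eg1_val, eg2_val, eF1_val, eG1_val, eF3_val, et_val, nt_val, nm_val, nfZ_val, nfP_val, np1_val,
      np2_val, MR.e1_val, MR.e2_val, NumU.E.val, NumI.E.val, NumI.lkR] at hp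
    push_cast at hp
    try simp only [div_one] at hp
    exfalso
    linarith only [c4, hp]

/-- 12 boxes -/
theorem Z1Bn {x T s k : ℝ} (a0 : 5600 / 10000 ≤ x) (b0 : x ≤ 7500 / 10000) (a1 : -180 / 10000 ≤ T) (b1 : T ≤ 985 / 10000)
    (a2 : 5700 / 10000 ≤ s) (b2 : s ≤ 6300 / 10000) (a3 : -930 / 10000 ≤ k) (b3 : k ≤ 1450 /
    10000) (c0 : (tt T x) + k ≤ 0) (c1 : (T + k) - (187 / 1000) ≤ 0) (c2 : k - ((0 / 1000) + ((290
    / 1000) * ((86 / 100) - s))) ≤ 0) (c3 : (-k) - ((0 / 1000) + ((465 / 1000) * ((86 / 100) -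
    s))) ≤ 0) (c4 : (106 / 100) - (x + s) ≤ 0) :
    0 < ((g1 (40 / 100) T x (tt T x) s k (((uu (3 / 100) (T + k)) + ((Real.pi * 1) * (T + k))) -
      ((27 / 100) * ((103 / 100) - ((40 / 100) + s)))) ((uu ((x + s) - 1) ((tt T x) + k)) +
      ((Real.pi * (-1)) * ((tt T x) + k)))) + (F1 x T)) ∨ 0 < ((g1 (40 / 100) T x (tt T x) s k
      (((uu (3 / 100) (T + k)) + ((Real.pi * (-1)) * (T + k))) - ((27 / 100) * ((103 / 100) - ((40
      / 100) + s)))) ((uu ((x + s) - 1) ((tt T x) + k)) + ((Real.pi * (-1)) * ((tt T x) + k)))) +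
      (F1 x T)) := by
  have h : chkT [(add (eg1 (q 40 100) (var 1) (var 0) (et (var 0) (var 1)) (var 2) (var 3) (sub (add (E.uu
      (q 3 100) (add (var 1) (var 3))) (mul (mul pi (q 1 1)) (add (var 1) (var 3)))) (mul (q 27
      100) (sub (q 103 100) (add (q 40 100) (var 2))))) (add (E.uu (sub (add (var 0) (var 2)) (q 1
      1)) (add (et (var 0) (var 1)) (var 3))) (mul (mul pi (q (-1) 1)) (add (et (var 0) (var 1))
      (var 3))))) (eF1 (var 0) (var 1))), (add (eg1 (q 40 100) (var 1) (var 0) (et (var 0) (var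
      1)) (var 2) (var 3) (sub (add (E.uu (q 3 100) (add (var 1) (var 3))) (mul (mul pi (q (-1)
      1)) (add (var 1) (var 3)))) (mul (q 27 100) (sub (q 103 100) (add (q 40 100) (var 2)))))
      (add (E.uu (sub (add (var 0) (var 2)) (q 1 1)) (add (et (var 0) (var 1)) (var 3))) (mul (mul
      pi (q (-1) 1)) (add (et (var 0) (var 1)) (var 3))))) (eF1 (var 0) (var 1))), (add (et (var
      0) (var 1)) (var 3)), (sub (add (var 1) (var 3)) (q 187 1000)), (sub (var 3) (add (q 0 1000)
      (mul (q 290 1000) (sub (q 86 100) (var 2))))), (sub (neg (var 3)) (add (q 0 1000) (mul (q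
      465 1000) (sub (q 86 100) (var 2))))), (sub (q 106 100) (add (var 0) (var 2)))] 18
      2671159554415957975954436115
      [V.of 10000 5600 7500 16, V.of 10000 (-180) 985 16, V.of 10000 5700 6300 16, V.of 10000
        (-930) 1450 16] = true := by
    decide +kernel
  obtain ⟨f, hf, hp⟩ := chkT4 h (by norm_num) (x := x) (y := T) (z := s) (w := k)
    (le_trans (by norm_num) a0) (le_trans b0 (by norm_num))
    (le_trans (by norm_num) a1) (le_trans b1 (by norm_num))
    (le_trans (by norm_num) a2) (le_trans b2 (by norm_num))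
    (le_trans (by norm_num) a3) (le_trans b3 (by norm_num))
  simp only [List.mem_cons, List.not_mem_nil, or_false] at hf
  rcases hf with rfl | rfl | rfl | rfl | rfl | rfl | rfl
  · simp only [eg1_val, eg2_val, eF1_val, eG1_val, eF3_val, et_val, nt_val, nm_val, nfZ_val, nfP_val, np1_val,
      np2_val, MR.e1_val, MR.e2_val, NumU.E.val, NumI.E.val, NumI.lkR] at hp
    push_cast at hp
    try simp only [div_one] at hp
    left
    linarith only [hp]
  · simp only [eg1_val, eg2_val, eF1_val, eG1_val, eF3_val, et_val, nt_val, nm_val, nfZ_val, nfP_val, np1_val,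
      np2_val, MR.e1_val, MR.e2_val, NumU.E.val, NumI.E.val, NumI.lkR] at hp
    push_cast at hp
    try simp only [div_one] at hp
    right
    linarith only [hp]
  · simp only [eg1_val, eg2_val, eF1_val, eG1_val, eF3_val, et_val, nt_val, nm_val, nfZ_val, nfP_val, np1_val,
      np2_val, MR.e1_val, MR.e2_val, NumU.E.val, NumI.E.val, NumI.lkR] at hp
    push_cast at hp
    try simp only [div_one] at hp
    exfalso
    linarith only [c0, hp]
  · simp only [eg1_val, eg2_val, eF1_val, eG1_val, eF3_val, et_val, nt_val, nm_val, nfZ_val, nfP_val, np1_val,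
      np2_val, MR.e1_val, MR.e2_val, NumU.E.val, NumI.E.val, NumI.lkR] at hp
    push_cast at hp
    try simp only [div_one] at hp
    exfalso
    linarith only [c1, hp]
  · simp only [eg1_val, eg2_val, eF1_val, eG1_val, eF3_val, et_val, nt_val, nm_val, nfZ_val, nfP_val, np1_val,
      np2_val, MR.e1_val, MR.e2_val, NumU.E.val, NumI.E.val, NumI.lkR] at hp
    push_cast at hp
    try simp only [div_one] at hp
    exfalso
    linarith only [c2, hp]
  · simp only [eg1_val, eg2_val, eF1_val, eG1_val, eF3_val, et_val, nt_val, nm_val, nfZ_val, nfP_val, np1_val,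
      np2_val, MR.e1_val, MR.e2_val, NumU.E.val, NumI.E.val, NumI.lkR] at hp
    push_cast at hp
    try simp only [div_one] at hp
    exfalso
    linarith only [b2, a3, hp]
  · simp only [eg1_val, eg2_val, eF1_val, eG1_val, eF3_val, et_val, nt_val, nm_val, nfZ_val, nfP_val, np1_val,
      np2_val, MR.e1_val, MR.e2_val, NumU.E.val, NumI.E.val, NumI.lkR] at hp
    push_cast at hp
    try simp only [div_one] at hp
    exfalso
    linarith only [a0, a2, hp]

/-- 35 boxes -/
theorem Z1Cp {x T s k : ℝ} (a0 : 5600 / 10000 ≤ x) (b0 : x ≤ 7500 / 10000) (a1 : -180 / 10000 ≤ T) (b1 : T ≤ 985 / 10000)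
    (a2 : 6300 / 10000 ≤ s) (b2 : s ≤ 7000 / 10000) (a3 : -930 / 10000 ≤ k) (b3 : k ≤ 1450 /
    10000) (c0 : -((tt T x) + k) ≤ 0) (c1 : (T + k) - (187 / 1000) ≤ 0) (c2 : k - ((0 / 1000) +
    ((290 / 1000) * ((86 / 100) - s))) ≤ 0) (c3 : (-k) - ((0 / 1000) + ((465 / 1000) * ((86 / 100)
    - s))) ≤ 0) (c4 : (106 / 100) - (x + s) ≤ 0) :
    0 < ((g1 (40 / 100) T x (tt T x) s k ((uu (((40 / 100) + s) - 1) (T + k)) + ((Real.pi * 1) *
      (T + k))) ((uu ((x + s) - 1) ((tt T x) + k)) + ((Real.pi * 1) * ((tt T x) + k)))) + (F1 x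
      T)) ∨ 0 < ((g1 (40 / 100) T x (tt T x) s k ((uu (((40 / 100) + s) - 1) (T + k)) + ((Real.pi
      * (-1)) * (T + k))) ((uu ((x + s) - 1) ((tt T x) + k)) + ((Real.pi * 1) * ((tt T x) + k))))
      + (F1 x T)) := by
  have h : chkT [(add (eg1 (q 40 100) (var 1) (var 0) (et (var 0) (var 1)) (var 2) (var 3) (add (E.uu (sub
      (add (q 40 100) (var 2)) (q 1 1)) (add (var 1) (var 3))) (mul (mul pi (q 1 1)) (add (var 1)
      (var 3)))) (add (E.uu (sub (add (var 0) (var 2)) (q 1 1)) (add (et (var 0) (var 1)) (var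
      3))) (mul (mul pi (q 1 1)) (add (et (var 0) (var 1)) (var 3))))) (eF1 (var 0) (var 1))),
      (add (eg1 (q 40 100) (var 1) (var 0) (et (var 0) (var 1)) (var 2) (var 3) (add (E.uu (sub
      (add (q 40 100) (var 2)) (q 1 1)) (add (var 1) (var 3))) (mul (mul pi (q (-1) 1)) (add (var
      1) (var 3)))) (add (E.uu (sub (add (var 0) (var 2)) (q 1 1)) (add (et (var 0) (var 1)) (var
      3))) (mul (mul pi (q 1 1)) (add (et (var 0) (var 1)) (var 3))))) (eF1 (var 0) (var 1))),
      (neg (add (et (var 0) (var 1)) (var 3))), (sub (add (var 1) (var 3)) (q 187 1000)), (sub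
      (var 3) (add (q 0 1000) (mul (q 290 1000) (sub (q 86 100) (var 2))))), (sub (neg (var 3))
      (add (q 0 1000) (mul (q 465 1000) (sub (q 86 100) (var 2))))), (sub (q 106 100) (add (var 0)
      (var 2)))] 18
      95109791152193913165886798214167939893550795713663352630221387179245748777271308579
      [V.of 10000 5600 7500 16, V.of 10000 (-180) 985 16, V.of 10000 6300 7000 16, V.of 10000
        (-930) 1450 16] = true := by
    decide +kernel
  obtain ⟨f, hf, hp⟩ := chkT4 h (by norm_num) (x := x) (y := T) (z := s) (w := k)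
    (le_trans (by norm_num) a0) (le_trans b0 (by norm_num))
    (le_trans (by norm_num) a1) (le_trans b1 (by norm_num))
    (le_trans (by norm_num) a2) (le_trans b2 (by norm_num))
    (le_trans (by norm_num) a3) (le_trans b3 (by norm_num))
  simp only [List.mem_cons, List.not_mem_nil, or_false] at hf
  rcases hf with rfl | rfl | rfl | rfl | rfl | rfl | rfl
  · simp only [eg1_val, eg2_val, eF1_val, eG1_val, eF3_val, et_val, nt_val, nm_val, nfZ_val, nfP_val, np1_val,
      np2_val, MR.e1_val, MR.e2_val, NumU.E.val, NumI.E.val, NumI.lkR] at hp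
    push_cast at hp
    try simp only [div_one] at hp
    left
    linarith only [hp]
  · simp only [eg1_val, eg2_val, eF1_val, eG1_val, eF3_val, et_val, nt_val, nm_val, nfZ_val, nfP_val, np1_val,
      np2_val, MR.e1_val, MR.e2_val, NumU.E.val, NumI.E.val, NumI.lkR] at hp
    push_cast at hp
    try simp only [div_one] at hp
    right
    linarith only [hp]
  · simp only [eg1_val, eg2_val, eF1_val, eG1_val, eF3_val, et_val, nt_val, nm_val, nfZ_val, nfP_val, np1_val,
      np2_val, MR.e1_val, MR.e2_val, NumU.E.val, NumI.E.val, NumI.lkR] at hp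
    push_cast at hp
    try simp only [div_one] at hp
    exfalso
    linarith only [c0, hp]
  · simp only [eg1_val, eg2_val, eF1_val, eG1_val, eF3_val, et_val, nt_val, nm_val, nfZ_val, nfP_val, np1_val,
      np2_val, MR.e1_val, MR.e2_val, NumU.E.val, NumI.E.val, NumI.lkR] at hp
    push_cast at hp
    try simp only [div_one] at hp
    exfalso
    linarith only [c1, hp]
  · simp only [eg1_val, eg2_val, eF1_val, eG1_val, eF3_val, et_val, nt_val, nm_val, nfZ_val, nfP_val, np1_val,
      np2_val, MR.e1_val, MR.e2_val, NumU.E.val, NumI.E.val, NumI.lkR] at hp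
    push_cast at hp
    try simp only [div_one] at hp
    exfalso
    linarith only [c2, hp]
  · simp only [eg1_val, eg2_val, eF1_val, eG1_val, eF3_val, et_val, nt_val, nm_val, nfZ_val, nfP_val, np1_val,
      np2_val, MR.e1_val, MR.e2_val, NumU.E.val, NumI.E.val, NumI.lkR] at hp
    push_cast at hp
    try simp only [div_one] at hp
    exfalso
    linarith only [c3, hp]
  · simp only [eg1_val, eg2_val, eF1_val, eG1_val, eF3_val, et_val, nt_val, nm_val, nfZ_val, nfP_val, np1_val,
      np2_val, MR.e1_val, MR.e2_val, NumU.E.val, NumI.E.val, NumI.lkR] at hp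
    push_cast at hp
    try simp only [div_one] at hp
    exfalso
    linarith only [a0, a2, hp]

/-- 23 boxes -/
theorem Z1Cn {x T s k : ℝ} (a0 : 5600 / 10000 ≤ x) (b0 : x ≤ 7500 / 10000) (a1 : -180 / 10000 ≤ T) (b1 : T ≤ 985 / 10000)
    (a2 : 6300 / 10000 ≤ s) (b2 : s ≤ 7000 / 10000) (a3 : -930 / 10000 ≤ k) (b3 : k ≤ 1450 /
    10000) (c0 : (tt T x) + k ≤ 0) (c1 : (T + k) - (187 / 1000) ≤ 0) (c2 : k - ((0 / 1000) + ((290
    / 1000) * ((86 / 100) - s))) ≤ 0) (c3 : (-k) - ((0 / 1000) + ((465 / 1000) * ((86 / 100) -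
    s))) ≤ 0) (c4 : (106 / 100) - (x + s) ≤ 0) :
    0 < ((g1 (40 / 100) T x (tt T x) s k ((uu (((40 / 100) + s) - 1) (T + k)) + ((Real.pi * 1) *
      (T + k))) ((uu ((x + s) - 1) ((tt T x) + k)) + ((Real.pi * (-1)) * ((tt T x) + k)))) + (F1 x
      T)) ∨ 0 < ((g1 (40 / 100) T x (tt T x) s k ((uu (((40 / 100) + s) - 1) (T + k)) + ((Real.pi
      * (-1)) * (T + k))) ((uu ((x + s) - 1) ((tt T x) + k)) + ((Real.pi * (-1)) * ((tt T x) +
      k)))) + (F1 x T)) := by
  have h : chkT [(add (eg1 (q 40 100) (var 1) (var 0) (et (var 0) (var 1)) (var 2) (var 3) (add (E.uu (sub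
      (add (q 40 100) (var 2)) (q 1 1)) (add (var 1) (var 3))) (mul (mul pi (q 1 1)) (add (var 1)
      (var 3)))) (add (E.uu (sub (add (var 0) (var 2)) (q 1 1)) (add (et (var 0) (var 1)) (var
      3))) (mul (mul pi (q (-1) 1)) (add (et (var 0) (var 1)) (var 3))))) (eF1 (var 0) (var 1))),
      (add (eg1 (q 40 100) (var 1) (var 0) (et (var 0) (var 1)) (var 2) (var 3) (add (E.uu (sub
      (add (q 40 100) (var 2)) (q 1 1)) (add (var 1) (var 3))) (mul (mul pi (q (-1) 1)) (add (var
      1) (var 3)))) (add (E.uu (sub (add (var 0) (var 2)) (q 1 1)) (add (et (var 0) (var 1)) (var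
      3))) (mul (mul pi (q (-1) 1)) (add (et (var 0) (var 1)) (var 3))))) (eF1 (var 0) (var 1))),
      (add (et (var 0) (var 1)) (var 3)), (sub (add (var 1) (var 3)) (q 187 1000)), (sub (var 3)
      (add (q 0 1000) (mul (q 290 1000) (sub (q 86 100) (var 2))))), (sub (neg (var 3)) (add (q 0
      1000) (mul (q 465 1000) (sub (q 86 100) (var 2))))), (sub (q 106 100) (add (var 0) (var
      2)))] 18
      826686121122092818828734938571328577164647278582968611
      [V.of 10000 5600 7500 16, V.of 10000 (-180) 985 16, V.of 10000 6300 7000 16, V.of 10000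
        (-930) 1450 16] = true := by
    decide +kernel
  obtain ⟨f, hf, hp⟩ := chkT4 h (by norm_num) (x := x) (y := T) (z := s) (w := k)
    (le_trans (by norm_num) a0) (le_trans b0 (by norm_num))
    (le_trans (by norm_num) a1) (le_trans b1 (by norm_num))
    (le_trans (by norm_num) a2) (le_trans b2 (by norm_num))
    (le_trans (by norm_num) a3) (le_trans b3 (by norm_num))
  simp only [List.mem_cons, List.not_mem_nil, or_false] at hf
  rcases hf with rfl | rfl | rfl | rfl | rfl | rfl | rfl
  · simp only [eg1_val, eg2_val, eF1_val, eG1_val, eF3_val, et_val, nt_val, nm_val, nfZ_val, nfP_val, np1_val,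
      np2_val, MR.e1_val, MR.e2_val, NumU.E.val, NumI.E.val, NumI.lkR] at hp
    push_cast at hp
    try simp only [div_one] at hp
    left
    linarith only [hp]
  · simp only [eg1_val, eg2_val, eF1_val, eG1_val, eF3_val, et_val, nt_val, nm_val, nfZ_val, nfP_val, np1_val,
      np2_val, MR.e1_val, MR.e2_val, NumU.E.val, NumI.E.val, NumI.lkR] at hp
    push_cast at hp
    try simp only [div_one] at hp
    right
    linarith only [hp]
  · simp only [eg1_val, eg2_val, eF1_val, eG1_val, eF3_val, et_val, nt_val, nm_val, nfZ_val, nfP_val, np1_val,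
      np2_val, MR.e1_val, MR.e2_val, NumU.E.val, NumI.E.val, NumI.lkR] at hp
    push_cast at hp
    try simp only [div_one] at hp
    exfalso
    linarith only [c0, hp]
  · simp only [eg1_val, eg2_val, eF1_val, eG1_val, eF3_val, et_val, nt_val, nm_val, nfZ_val, nfP_val, np1_val,
      np2_val, MR.e1_val, MR.e2_val, NumU.E.val, NumI.E.val, NumI.lkR] at hp
    push_cast at hp
    try simp only [div_one] at hp
    exfalso
    linarith only [c1, hp]
  · simp only [eg1_val, eg2_val, eF1_val, eG1_val, eF3_val, et_val, nt_val, nm_val, nfZ_val, nfP_val, np1_val,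
      np2_val, MR.e1_val, MR.e2_val, NumU.E.val, NumI.E.val, NumI.lkR] at hp
    push_cast at hp
    try simp only [div_one] at hp
    exfalso
    linarith only [c2, hp]
  · simp only [eg1_val, eg2_val, eF1_val, eG1_val, eF3_val, et_val, nt_val, nm_val, nfZ_val, nfP_val, np1_val,
      np2_val, MR.e1_val, MR.e2_val, NumU.E.val, NumI.E.val, NumI.lkR] at hp
    push_cast at hp
    try simp only [div_one] at hp
    exfalso
    linarith only [c3, hp]
  · simp only [eg1_val, eg2_val, eF1_val, eG1_val, eF3_val, et_val, nt_val, nm_val, nfZ_val, nfP_val, np1_val,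
      np2_val, MR.e1_val, MR.e2_val, NumU.E.val, NumI.E.val, NumI.lkR] at hp
    push_cast at hp
    try simp only [div_one] at hp
    exfalso
    linarith only [a0, a2, hp]

/-- 9 boxes -/
theorem Z1Dp {x T s k : ℝ} (a0 : 5350 / 10000 ≤ x) (b0 : x ≤ 7500 / 10000) (a1 : 50 / 10000 ≤ T) (b1 : T ≤ 790 / 10000)
    (a2 : 7000 / 10000 ≤ s) (b2 : s ≤ 8000 / 10000) (a3 : 0 / 10000 ≤ k) (b3 : k ≤ 280 / 10000)
    (c0 : -((tt T x) + k) ≤ 0) (c1 : (T + k) - (130 / 1000) ≤ 0) (c2 : k - ((0 / 1000) + ((273 /
    1000) * ((80 / 100) - s))) ≤ 0) (c3 : (106 / 100) - (x + s) ≤ 0) :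
    0 < ((g1 (40 / 100) T x (tt T x) s k ((uu (((40 / 100) + s) - 1) (T + k)) + ((Real.pi * 1) *
      (T + k))) ((uu ((x + s) - 1) ((tt T x) + k)) + ((Real.pi * 1) * ((tt T x) + k)))) + (F1 x
      T)) ∨ 0 < ((g1 (40 / 100) T x (tt T x) s k ((uu (((40 / 100) + s) - 1) (T + k)) + ((Real.pi
      * (-1)) * (T + k))) ((uu ((x + s) - 1) ((tt T x) + k)) + ((Real.pi * 1) * ((tt T x) + k))))
      + (F1 x T)) := by
  have h : chkT [(add (eg1 (q 40 100) (var 1) (var 0) (et (var 0) (var 1)) (var 2) (var 3) (add (E.uu (sub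
      (add (q 40 100) (var 2)) (q 1 1)) (add (var 1) (var 3))) (mul (mul pi (q 1 1)) (add (var 1)
      (var 3)))) (add (E.uu (sub (add (var 0) (var 2)) (q 1 1)) (add (et (var 0) (var 1)) (var
      3))) (mul (mul pi (q 1 1)) (add (et (var 0) (var 1)) (var 3))))) (eF1 (var 0) (var 1))),
      (add (eg1 (q 40 100) (var 1) (var 0) (et (var 0) (var 1)) (var 2) (var 3) (add (E.uu (sub
      (add (q 40 100) (var 2)) (q 1 1)) (add (var 1) (var 3))) (mul (mul pi (q (-1) 1)) (add (var
      1) (var 3)))) (add (E.uu (sub (add (var 0) (var 2)) (q 1 1)) (add (et (var 0) (var 1)) (var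
      3))) (mul (mul pi (q 1 1)) (add (et (var 0) (var 1)) (var 3))))) (eF1 (var 0) (var 1))),
      (neg (add (et (var 0) (var 1)) (var 3))), (sub (add (var 1) (var 3)) (q 130 1000)), (sub
      (var 3) (add (q 0 1000) (mul (q 273 1000) (sub (q 80 100) (var 2))))), (sub (q 106 100) (add
      (var 0) (var 2)))] 18
      156835649787970195968
      [V.of 10000 5350 7500 16, V.of 10000 50 790 16, V.of 10000 7000 8000 16, V.of 10000 0 280
        16] = true := by
    decide +kernel
  obtain ⟨f, hf, hp⟩ := chkT4 h (by norm_num) (x := x) (y := T) (z := s) (w := k)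
    (le_trans (by norm_num) a0) (le_trans b0 (by norm_num))
    (le_trans (by norm_num) a1) (le_trans b1 (by norm_num))
    (le_trans (by norm_num) a2) (le_trans b2 (by norm_num))
    (le_trans (by norm_num) a3) (le_trans b3 (by norm_num))
  simp only [List.mem_cons, List.not_mem_nil, or_false] at hf
  rcases hf with rfl | rfl | rfl | rfl | rfl | rfl
  · simp only [eg1_val, eg2_val, eF1_val, eG1_val, eF3_val, et_val, nt_val, nm_val, nfZ_val, nfP_val, np1_val,
      np2_val, MR.e1_val, MR.e2_val, NumU.E.val, NumI.E.val, NumI.lkR] at hp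
    push_cast at hp
    try simp only [div_one] at hp
    left
    linarith only [hp]
  · simp only [eg1_val, eg2_val, eF1_val, eG1_val, eF3_val, et_val, nt_val, nm_val, nfZ_val, nfP_val, np1_val,
      np2_val, MR.e1_val, MR.e2_val, NumU.E.val, NumI.E.val, NumI.lkR] at hp
    push_cast at hp
    try simp only [div_one] at hp
    right
    linarith only [hp]
  · simp only [eg1_val, eg2_val, eF1_val, eG1_val, eF3_val, et_val, nt_val, nm_val, nfZ_val, nfP_val, np1_val,
      np2_val, MR.e1_val, MR.e2_val, NumU.E.val, NumI.E.val, NumI.lkR] at hp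
    push_cast at hp
    try simp only [div_one] at hp
    exfalso
    linarith only [c0, hp]
  · simp only [eg1_val, eg2_val, eF1_val, eG1_val, eF3_val, et_val, nt_val, nm_val, nfZ_val, nfP_val, np1_val,
      np2_val, MR.e1_val, MR.e2_val, NumU.E.val, NumI.E.val, NumI.lkR] at hp
    push_cast at hp
    try simp only [div_one] at hp
    exfalso
    linarith only [b1, b3, hp]
  · simp only [eg1_val, eg2_val, eF1_val, eG1_val, eF3_val, et_val, nt_val, nm_val, nfZ_val, nfP_val, np1_val,
      np2_val, MR.e1_val, MR.e2_val, NumU.E.val, NumI.E.val, NumI.lkR] at hp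
    push_cast at hp
    try simp only [div_one] at hp
    exfalso
    linarith only [c2, hp]
  · simp only [eg1_val, eg2_val, eF1_val, eG1_val, eF3_val, et_val, nt_val, nm_val, nfZ_val, nfP_val, np1_val,
      np2_val, MR.e1_val, MR.e2_val, NumU.E.val, NumI.E.val, NumI.lkR] at hp
    push_cast at hp
    try simp only [div_one] at hp
    exfalso
    linarith only [a0, a2, hp]

/-- 3 boxes -/
theorem Z1Dn {x T s k : ℝ} (a0 : 5350 / 10000 ≤ x) (b0 : x ≤ 7500 / 10000) (a1 : 50 / 10000 ≤ T) (b1 : T ≤ 790 / 10000)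
    (a2 : 7000 / 10000 ≤ s) (b2 : s ≤ 8000 / 10000) (a3 : 0 / 10000 ≤ k) (b3 : k ≤ 280 / 10000)
    (c0 : (tt T x) + k ≤ 0) (c1 : (T + k) - (130 / 1000) ≤ 0) (c2 : k - ((0 / 1000) + ((273 /
    1000) * ((80 / 100) - s))) ≤ 0) (c3 : (106 / 100) - (x + s) ≤ 0) :
    0 < ((g1 (40 / 100) T x (tt T x) s k ((uu (((40 / 100) + s) - 1) (T + k)) + ((Real.pi * 1) *
      (T + k))) ((uu ((x + s) - 1) ((tt T x) + k)) + ((Real.pi * (-1)) * ((tt T x) + k)))) + (F1 x
      T)) ∨ 0 < ((g1 (40 / 100) T x (tt T x) s k ((uu (((40 / 100) + s) - 1) (T + k)) + ((Real.pi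
      * (-1)) * (T + k))) ((uu ((x + s) - 1) ((tt T x) + k)) + ((Real.pi * (-1)) * ((tt T x) +
      k)))) + (F1 x T)) := by
  have h : chkT [(add (eg1 (q 40 100) (var 1) (var 0) (et (var 0) (var 1)) (var 2) (var 3) (add (E.uu (sub
      (add (q 40 100) (var 2)) (q 1 1)) (add (var 1) (var 3))) (mul (mul pi (q 1 1)) (add (var 1)
      (var 3)))) (add (E.uu (sub (add (var 0) (var 2)) (q 1 1)) (add (et (var 0) (var 1)) (var
      3))) (mul (mul pi (q (-1) 1)) (add (et (var 0) (var 1)) (var 3))))) (eF1 (var 0) (var 1))),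
      (add (eg1 (q 40 100) (var 1) (var 0) (et (var 0) (var 1)) (var 2) (var 3) (add (E.uu (sub
      (add (q 40 100) (var 2)) (q 1 1)) (add (var 1) (var 3))) (mul (mul pi (q (-1) 1)) (add (var
      1) (var 3)))) (add (E.uu (sub (add (var 0) (var 2)) (q 1 1)) (add (et (var 0) (var 1)) (var
      3))) (mul (mul pi (q (-1) 1)) (add (et (var 0) (var 1)) (var 3))))) (eF1 (var 0) (var 1))),
      (add (et (var 0) (var 1)) (var 3)), (sub (add (var 1) (var 3)) (q 130 1000)), (sub (var 3)
      (add (q 0 1000) (mul (q 273 1000) (sub (q 80 100) (var 2))))), (sub (q 106 100) (add (var 0)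
      (var 2)))] 18
      559104
      [V.of 10000 5350 7500 16, V.of 10000 50 790 16, V.of 10000 7000 8000 16, V.of 10000 0 280
        16] = true := by
    decide +kernel
  obtain ⟨f, hf, hp⟩ := chkT4 h (by norm_num) (x := x) (y := T) (z := s) (w := k)
    (le_trans (by norm_num) a0) (le_trans b0 (by norm_num))
    (le_trans (by norm_num) a1) (le_trans b1 (by norm_num))
    (le_trans (by norm_num) a2) (le_trans b2 (by norm_num))
    (le_trans (by norm_num) a3) (le_trans b3 (by norm_num))
  simp only [List.mem_cons, List.not_mem_nil, or_false] at hf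
  rcases hf with rfl | rfl | rfl | rfl | rfl | rfl
  · simp only [eg1_val, eg2_val, eF1_val, eG1_val, eF3_val, et_val, nt_val, nm_val, nfZ_val, nfP_val, np1_val,
      np2_val, MR.e1_val, MR.e2_val, NumU.E.val, NumI.E.val, NumI.lkR] at hp
    push_cast at hp
    try simp only [div_one] at hp
    left
    linarith only [hp]
  · simp only [eg1_val, eg2_val, eF1_val, eG1_val, eF3_val, et_val, nt_val, nm_val, nfZ_val, nfP_val, np1_val,
      np2_val, MR.e1_val, MR.e2_val, NumU.E.val, NumI.E.val, NumI.lkR] at hp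
    push_cast at hp
    try simp only [div_one] at hp
    right
    linarith only [hp]
  · simp only [eg1_val, eg2_val, eF1_val, eG1_val, eF3_val, et_val, nt_val, nm_val, nfZ_val, nfP_val, np1_val,
      np2_val, MR.e1_val, MR.e2_val, NumU.E.val, NumI.E.val, NumI.lkR] at hp
    push_cast at hp
    try simp only [div_one] at hp
    exfalso
    linarith only [c0, hp]
  · simp only [eg1_val, eg2_val, eF1_val, eG1_val, eF3_val, et_val, nt_val, nm_val, nfZ_val, nfP_val, np1_val,
      np2_val, MR.e1_val, MR.e2_val, NumU.E.val, NumI.E.val, NumI.lkR] at hp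
    push_cast at hp
    try simp only [div_one] at hp
    exfalso
    linarith only [b1, b3, hp]
  · simp only [eg1_val, eg2_val, eF1_val, eG1_val, eF3_val, et_val, nt_val, nm_val, nfZ_val, nfP_val, np1_val,
      np2_val, MR.e1_val, MR.e2_val, NumU.E.val, NumI.E.val, NumI.lkR] at hp
    push_cast at hp
    try simp only [div_one] at hp
    exfalso
    linarith only [c2, hp]
  · simp only [eg1_val, eg2_val, eF1_val, eG1_val, eF3_val, et_val, nt_val, nm_val, nfZ_val, nfP_val, np1_val,
      np2_val, MR.e1_val, MR.e2_val, NumU.E.val, NumI.E.val, NumI.lkR] at hp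
    push_cast at hp
    try simp only [div_one] at hp
    exfalso
    linarith only [a0, a2, hp]

/-- 33 boxes -/
theorem Z1PAp {x T s k : ℝ} (a0 : 5350 / 10000 ≤ x) (b0 : x ≤ 5600 / 10000) (a1 : -180 / 10000 ≤ T) (b1 : T ≤ 985 / 10000)
    (a2 : 5000 / 10000 ≤ s) (b2 : s ≤ 5700 / 10000) (a3 : -930 / 10000 ≤ k) (b3 : k ≤ 1450 /
    10000) (c0 : -((tt T x) + k) ≤ 0) (c1 : (T + k) - (148 / 1000) ≤ 0) (c2 : (106 / 100) - (x +
    s) ≤ 0) :
    0 < ((g1 (40 / 100) T x (tt T x) s k (uu ((40 / 100) + s) (T + k)) ((uu ((x + s) - 1) ((tt T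
      x) + k)) + ((Real.pi * 1) * ((tt T x) + k)))) + (F1 x T)) := by
  have h : chkT [(add (eg1 (q 40 100) (var 1) (var 0) (et (var 0) (var 1)) (var 2) (var 3) (E.uu (add (q 40
      100) (var 2)) (add (var 1) (var 3))) (add (E.uu (sub (add (var 0) (var 2)) (q 1 1)) (add (et
      (var 0) (var 1)) (var 3))) (mul (mul pi (q 1 1)) (add (et (var 0) (var 1)) (var 3))))) (eF1
      (var 0) (var 1))), (neg (add (et (var 0) (var 1)) (var 3))), (sub (add (var 1) (var 3)) (q
      148 1000)), (sub (q 106 100) (add (var 0) (var 2)))] 18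
      1234139276729724206748203334601052200405265848806816852937104459006090622276387
      [V.of 10000 5350 5600 16, V.of 10000 (-180) 985 16, V.of 10000 5000 5700 16, V.of 10000
        (-930) 1450 16] = true := by
    decide +kernel
  obtain ⟨f, hf, hp⟩ := chkT4 h (by norm_num) (x := x) (y := T) (z := s) (w := k)
    (le_trans (by norm_num) a0) (le_trans b0 (by norm_num))
    (le_trans (by norm_num) a1) (le_trans b1 (by norm_num))
    (le_trans (by norm_num) a2) (le_trans b2 (by norm_num))
    (le_trans (by norm_num) a3) (le_trans b3 (by norm_num))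
  simp only [List.mem_cons, List.not_mem_nil, or_false] at hf
  rcases hf with rfl | rfl | rfl | rfl
  · simp only [eg1_val, eg2_val, eF1_val, eG1_val, eF3_val, et_val, nt_val, nm_val, nfZ_val, nfP_val, np1_val,
      np2_val, MR.e1_val, MR.e2_val, NumU.E.val, NumI.E.val, NumI.lkR] at hp
    push_cast at hp
    try simp only [div_one] at hp
    linarith only [hp]
  · simp only [eg1_val, eg2_val, eF1_val, eG1_val, eF3_val, et_val, nt_val, nm_val, nfZ_val, nfP_val, np1_val,
      np2_val, MR.e1_val, MR.e2_val, NumU.E.val, NumI.E.val, NumI.lkR] at hp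
    push_cast at hp
    try simp only [div_one] at hp
    exfalso
    linarith only [c0, hp]
  · simp only [eg1_val, eg2_val, eF1_val, eG1_val, eF3_val, et_val, nt_val, nm_val, nfZ_val, nfP_val, np1_val,
      np2_val, MR.e1_val, MR.e2_val, NumU.E.val, NumI.E.val, NumI.lkR] at hp
    push_cast at hp
    try simp only [div_one] at hp
    exfalso
    linarith only [c1, hp]
  · simp only [eg1_val, eg2_val, eF1_val, eG1_val, eF3_val, et_val, nt_val, nm_val, nfZ_val, nfP_val, np1_val,
      np2_val, MR.e1_val, MR.e2_val, NumU.E.val, NumI.E.val, NumI.lkR] at hp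
    push_cast at hp
    try simp only [div_one] at hp
    exfalso
    linarith only [c2, hp]

/-- 23 boxes -/
theorem Z1PBp {x T s k : ℝ} (a0 : 5350 / 10000 ≤ x) (b0 : x ≤ 5600 / 10000) (a1 : -180 / 10000 ≤ T) (b1 : T ≤ 985 / 10000)
    (a2 : 5700 / 10000 ≤ s) (b2 : s ≤ 6300 / 10000) (a3 : -930 / 10000 ≤ k) (b3 : k ≤ 1450 /
    10000) (c0 : -((tt T x) + k) ≤ 0) (c1 : (T + k) - (148 / 1000) ≤ 0) (c2 : (106 / 100) - (x +
    s) ≤ 0) :
    0 < ((g1 (40 / 100) T x (tt T x) s k (((uu (3 / 100) (T + k)) + ((Real.pi * 1) * (T + k))) -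
      ((27 / 100) * ((103 / 100) - ((40 / 100) + s)))) ((uu ((x + s) - 1) ((tt T x) + k)) +
      ((Real.pi * 1) * ((tt T x) + k)))) + (F1 x T)) ∨ 0 < ((g1 (40 / 100) T x (tt T x) s k (((uu
      (3 / 100) (T + k)) + ((Real.pi * (-1)) * (T + k))) - ((27 / 100) * ((103 / 100) - ((40 /
      100) + s)))) ((uu ((x + s) - 1) ((tt T x) + k)) + ((Real.pi * 1) * ((tt T x) + k)))) + (F1 x
      T)) := by
  have h : chkT [(add (eg1 (q 40 100) (var 1) (var 0) (et (var 0) (var 1)) (var 2) (var 3) (sub (add (E.uu
      (q 3 100) (add (var 1) (var 3))) (mul (mul pi (q 1 1)) (add (var 1) (var 3)))) (mul (q 27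
      100) (sub (q 103 100) (add (q 40 100) (var 2))))) (add (E.uu (sub (add (var 0) (var 2)) (q 1
      1)) (add (et (var 0) (var 1)) (var 3))) (mul (mul pi (q 1 1)) (add (et (var 0) (var 1)) (var
      3))))) (eF1 (var 0) (var 1))), (add (eg1 (q 40 100) (var 1) (var 0) (et (var 0) (var 1))
      (var 2) (var 3) (sub (add (E.uu (q 3 100) (add (var 1) (var 3))) (mul (mul pi (q (-1) 1))
      (add (var 1) (var 3)))) (mul (q 27 100) (sub (q 103 100) (add (q 40 100) (var 2))))) (add
      (E.uu (sub (add (var 0) (var 2)) (q 1 1)) (add (et (var 0) (var 1)) (var 3))) (mul (mul pi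
      (q 1 1)) (add (et (var 0) (var 1)) (var 3))))) (eF1 (var 0) (var 1))), (neg (add (et (var 0)
      (var 1)) (var 3))), (sub (add (var 1) (var 3)) (q 148 1000)), (sub (q 106 100) (add (var 0)
      (var 2)))] 18
      1122461803394778958857503142344760226126014297765610259
      [V.of 10000 5350 5600 16, V.of 10000 (-180) 985 16, V.of 10000 5700 6300 16, V.of 10000
        (-930) 1450 16] = true := by
    decide +kernel
  obtain ⟨f, hf, hp⟩ := chkT4 h (by norm_num) (x := x) (y := T) (z := s) (w := k)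
    (le_trans (by norm_num) a0) (le_trans b0 (by norm_num))
    (le_trans (by norm_num) a1) (le_trans b1 (by norm_num))
    (le_trans (by norm_num) a2) (le_trans b2 (by norm_num))
    (le_trans (by norm_num) a3) (le_trans b3 (by norm_num))
  simp only [List.mem_cons, List.not_mem_nil, or_false] at hf
  rcases hf with rfl | rfl | rfl | rfl | rfl
  · simp only [eg1_val, eg2_val, eF1_val, eG1_val, eF3_val, et_val, nt_val, nm_val, nfZ_val, nfP_val, np1_val,
      np2_val, MR.e1_val, MR.e2_val, NumU.E.val, NumI.E.val, NumI.lkR] at hp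
    push_cast at hp
    try simp only [div_one] at hp
    left
    linarith only [hp]
  · simp only [eg1_val, eg2_val, eF1_val, eG1_val, eF3_val, et_val, nt_val, nm_val, nfZ_val, nfP_val, np1_val,
      np2_val, MR.e1_val, MR.e2_val, NumU.E.val, NumI.E.val, NumI.lkR] at hp
    push_cast at hp
    try simp only [div_one] at hp
    right
    linarith only [hp]
  · simp only [eg1_val, eg2_val, eF1_val, eG1_val, eF3_val, et_val, nt_val, nm_val, nfZ_val, nfP_val, np1_val,
      np2_val, MR.e1_val, MR.e2_val, NumU.E.val, NumI.E.val, NumI.lkR] at hp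
    push_cast at hp
    try simp only [div_one] at hp
    exfalso
    linarith only [c0, hp]
  · simp only [eg1_val, eg2_val, eF1_val, eG1_val, eF3_val, et_val, nt_val, nm_val, nfZ_val, nfP_val, np1_val,
      np2_val, MR.e1_val, MR.e2_val, NumU.E.val, NumI.E.val, NumI.lkR] at hp
    push_cast at hp
    try simp only [div_one] at hp
    exfalso
    linarith only [c1, hp]
  · simp only [eg1_val, eg2_val, eF1_val, eG1_val, eF3_val, et_val, nt_val, nm_val, nfZ_val, nfP_val, np1_val,
      np2_val, MR.e1_val, MR.e2_val, NumU.E.val, NumI.E.val, NumI.lkR] at hp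
    push_cast at hp
    try simp only [div_one] at hp
    exfalso
    linarith only [a0, a2, hp]

/-- 11 boxes -/
theorem Z1PAn {x T s k : ℝ} (a0 : 5350 / 10000 ≤ x) (b0 : x ≤ 5600 / 10000) (a1 : -180 / 10000 ≤ T) (b1 : T ≤ 985 / 10000)
    (a2 : 5000 / 10000 ≤ s) (b2 : s ≤ 5700 / 10000) (a3 : -930 / 10000 ≤ k) (b3 : k ≤ 1450 /
    10000) (c0 : (tt T x) + k ≤ 0) (c1 : (T + k) - (148 / 1000) ≤ 0) (c2 : (106 / 100) - (x + s) ≤
    0) :
    0 < ((g1 (40 / 100) T x (tt T x) s k (uu ((40 / 100) + s) (T + k)) ((uu ((x + s) - 1) ((tt T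
      x) + k)) + ((Real.pi * (-1)) * ((tt T x) + k)))) + (F1 x T)) := by
  have h : chkT [(add (eg1 (q 40 100) (var 1) (var 0) (et (var 0) (var 1)) (var 2) (var 3) (E.uu (add (q 40
      100) (var 2)) (add (var 1) (var 3))) (add (E.uu (sub (add (var 0) (var 2)) (q 1 1)) (add (et
      (var 0) (var 1)) (var 3))) (mul (mul pi (q (-1) 1)) (add (et (var 0) (var 1)) (var 3)))))
      (eF1 (var 0) (var 1))), (add (et (var 0) (var 1)) (var 3)), (sub (add (var 1) (var 3)) (q
      148 1000)), (sub (q 106 100) (add (var 0) (var 2)))] 18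
      11523026753746895359906595
      [V.of 10000 5350 5600 16, V.of 10000 (-180) 985 16, V.of 10000 5000 5700 16, V.of 10000
        (-930) 1450 16] = true := by
    decide +kernel
  obtain ⟨f, hf, hp⟩ := chkT4 h (by norm_num) (x := x) (y := T) (z := s) (w := k)
    (le_trans (by norm_num) a0) (le_trans b0 (by norm_num))
    (le_trans (by norm_num) a1) (le_trans b1 (by norm_num))
    (le_trans (by norm_num) a2) (le_trans b2 (by norm_num))
    (le_trans (by norm_num) a3) (le_trans b3 (by norm_num))
  simp only [List.mem_cons, List.not_mem_nil, or_false] at hf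
  rcases hf with rfl | rfl | rfl | rfl
  · simp only [eg1_val, eg2_val, eF1_val, eG1_val, eF3_val, et_val, nt_val, nm_val, nfZ_val, nfP_val, np1_val,
      np2_val, MR.e1_val, MR.e2_val, NumU.E.val, NumI.E.val, NumI.lkR] at hp
    push_cast at hp
    try simp only [div_one] at hp
    linarith only [hp]
  · simp only [eg1_val, eg2_val, eF1_val, eG1_val, eF3_val, et_val, nt_val, nm_val, nfZ_val, nfP_val, np1_val,
      np2_val, MR.e1_val, MR.e2_val, NumU.E.val, NumI.E.val, NumI.lkR] at hp
    push_cast at hp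
    try simp only [div_one] at hp
    exfalso
    linarith only [c0, hp]
  · simp only [eg1_val, eg2_val, eF1_val, eG1_val, eF3_val, et_val, nt_val, nm_val, nfZ_val, nfP_val, np1_val,
      np2_val, MR.e1_val, MR.e2_val, NumU.E.val, NumI.E.val, NumI.lkR] at hp
    push_cast at hp
    try simp only [div_one] at hp
    exfalso
    linarith only [c1, hp]
  · simp only [eg1_val, eg2_val, eF1_val, eG1_val, eF3_val, et_val, nt_val, nm_val, nfZ_val, nfP_val, np1_val,
      np2_val, MR.e1_val, MR.e2_val, NumU.E.val, NumI.E.val, NumI.lkR] at hp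
    push_cast at hp
    try simp only [div_one] at hp
    exfalso
    linarith only [c2, hp]

/-- 7 boxes -/
theorem Z1PBn {x T s k : ℝ} (a0 : 5350 / 10000 ≤ x) (b0 : x ≤ 5600 / 10000) (a1 : -180 / 10000 ≤ T) (b1 : T ≤ 985 / 10000)
    (a2 : 5700 / 10000 ≤ s) (b2 : s ≤ 6300 / 10000) (a3 : -930 / 10000 ≤ k) (b3 : k ≤ 1450 /
    10000) (c0 : (tt T x) + k ≤ 0) (c1 : (T + k) - (148 / 1000) ≤ 0) (c2 : (106 / 100) - (x + s) ≤
    0) :
    0 < ((g1 (40 / 100) T x (tt T x) s k (((uu (3 / 100) (T + k)) + ((Real.pi * 1) * (T + k))) -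
      ((27 / 100) * ((103 / 100) - ((40 / 100) + s)))) ((uu ((x + s) - 1) ((tt T x) + k)) +
      ((Real.pi * (-1)) * ((tt T x) + k)))) + (F1 x T)) ∨ 0 < ((g1 (40 / 100) T x (tt T x) s k
      (((uu (3 / 100) (T + k)) + ((Real.pi * (-1)) * (T + k))) - ((27 / 100) * ((103 / 100) - ((40
      / 100) + s)))) ((uu ((x + s) - 1) ((tt T x) + k)) + ((Real.pi * (-1)) * ((tt T x) + k)))) +
      (F1 x T)) := by
  have h : chkT [(add (eg1 (q 40 100) (var 1) (var 0) (et (var 0) (var 1)) (var 2) (var 3) (sub (add (E.uu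
      (q 3 100) (add (var 1) (var 3))) (mul (mul pi (q 1 1)) (add (var 1) (var 3)))) (mul (q 27
      100) (sub (q 103 100) (add (q 40 100) (var 2))))) (add (E.uu (sub (add (var 0) (var 2)) (q 1
      1)) (add (et (var 0) (var 1)) (var 3))) (mul (mul pi (q (-1) 1)) (add (et (var 0) (var 1))
      (var 3))))) (eF1 (var 0) (var 1))), (add (eg1 (q 40 100) (var 1) (var 0) (et (var 0) (var
      1)) (var 2) (var 3) (sub (add (E.uu (q 3 100) (add (var 1) (var 3))) (mul (mul pi (q (-1)
      1)) (add (var 1) (var 3)))) (mul (q 27 100) (sub (q 103 100) (add (q 40 100) (var 2)))))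
      (add (E.uu (sub (add (var 0) (var 2)) (q 1 1)) (add (et (var 0) (var 1)) (var 3))) (mul (mul
      pi (q (-1) 1)) (add (et (var 0) (var 1)) (var 3))))) (eF1 (var 0) (var 1))), (add (et (var
      0) (var 1)) (var 3)), (sub (add (var 1) (var 3)) (q 148 1000)), (sub (q 106 100) (add (var
      0) (var 2)))] 18
      2966015186277139
      [V.of 10000 5350 5600 16, V.of 10000 (-180) 985 16, V.of 10000 5700 6300 16, V.of 10000
        (-930) 1450 16] = true := by
    decide +kernel
  obtain ⟨f, hf, hp⟩ := chkT4 h (by norm_num) (x := x) (y := T) (z := s) (w := k)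
    (le_trans (by norm_num) a0) (le_trans b0 (by norm_num))
    (le_trans (by norm_num) a1) (le_trans b1 (by norm_num))
    (le_trans (by norm_num) a2) (le_trans b2 (by norm_num))
    (le_trans (by norm_num) a3) (le_trans b3 (by norm_num))
  simp only [List.mem_cons, List.not_mem_nil, or_false] at hf
  rcases hf with rfl | rfl | rfl | rfl | rfl
  · simp only [eg1_val, eg2_val, eF1_val, eG1_val, eF3_val, et_val, nt_val, nm_val, nfZ_val, nfP_val, np1_val,
      np2_val, MR.e1_val, MR.e2_val, NumU.E.val, NumI.E.val, NumI.lkR] at hp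
    push_cast at hp
    try simp only [div_one] at hp
    left
    linarith only [hp]
  · simp only [eg1_val, eg2_val, eF1_val, eG1_val, eF3_val, et_val, nt_val, nm_val, nfZ_val, nfP_val, np1_val,
      np2_val, MR.e1_val, MR.e2_val, NumU.E.val, NumI.E.val, NumI.lkR] at hp
    push_cast at hp
    try simp only [div_one] at hp
    right
    linarith only [hp]
  · simp only [eg1_val, eg2_val, eF1_val, eG1_val, eF3_val, et_val, nt_val, nm_val, nfZ_val, nfP_val, np1_val,
      np2_val, MR.e1_val, MR.e2_val, NumU.E.val, NumI.E.val, NumI.lkR] at hp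
    push_cast at hp
    try simp only [div_one] at hp
    exfalso
    linarith only [c0, hp]
  · simp only [eg1_val, eg2_val, eF1_val, eG1_val, eF3_val, et_val, nt_val, nm_val, nfZ_val, nfP_val, np1_val,
      np2_val, MR.e1_val, MR.e2_val, NumU.E.val, NumI.E.val, NumI.lkR] at hp
    push_cast at hp
    try simp only [div_one] at hp
    exfalso
    linarith only [c1, hp]
  · simp only [eg1_val, eg2_val, eF1_val, eG1_val, eF3_val, et_val, nt_val, nm_val, nfZ_val, nfP_val, np1_val,
      np2_val, MR.e1_val, MR.e2_val, NumU.E.val, NumI.E.val, NumI.lkR] at hp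
    push_cast at hp
    try simp only [div_one] at hp
    exfalso
    linarith only [a0, a2, hp]

/-- 22 boxes -/
theorem Z1PCp {x T s k : ℝ} (a0 : 5350 / 10000 ≤ x) (b0 : x ≤ 5600 / 10000) (a1 : -180 / 10000 ≤ T) (b1 : T ≤ 985 / 10000)
    (a2 : 6300 / 10000 ≤ s) (b2 : s ≤ 7000 / 10000) (a3 : -930 / 10000 ≤ k) (b3 : k ≤ 940 / 10000)
    (c0 : -((tt T x) + k) ≤ 0) (c1 : (T + k) - (148 / 1000) ≤ 0) (c2 : (106 / 100) - (x + s) ≤ 0)
    :
    0 < ((g1 (40 / 100) T x (tt T x) s k ((uu (((40 / 100) + s) - 1) (T + k)) + ((Real.pi * 1) *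
      (T + k))) ((uu ((x + s) - 1) ((tt T x) + k)) + ((Real.pi * 1) * ((tt T x) + k)))) + (F1 x
      T)) ∨ 0 < ((g1 (40 / 100) T x (tt T x) s k ((uu (((40 / 100) + s) - 1) (T + k)) + ((Real.pi
      * (-1)) * (T + k))) ((uu ((x + s) - 1) ((tt T x) + k)) + ((Real.pi * 1) * ((tt T x) + k))))
      + (F1 x T)) := by
  have h : chkT [(add (eg1 (q 40 100) (var 1) (var 0) (et (var 0) (var 1)) (var 2) (var 3) (add (E.uu (sub
      (add (q 40 100) (var 2)) (q 1 1)) (add (var 1) (var 3))) (mul (mul pi (q 1 1)) (add (var 1)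
      (var 3)))) (add (E.uu (sub (add (var 0) (var 2)) (q 1 1)) (add (et (var 0) (var 1)) (var
      3))) (mul (mul pi (q 1 1)) (add (et (var 0) (var 1)) (var 3))))) (eF1 (var 0) (var 1))),
      (add (eg1 (q 40 100) (var 1) (var 0) (et (var 0) (var 1)) (var 2) (var 3) (add (E.uu (sub
      (add (q 40 100) (var 2)) (q 1 1)) (add (var 1) (var 3))) (mul (mul pi (q (-1) 1)) (add (var
      1) (var 3)))) (add (E.uu (sub (add (var 0) (var 2)) (q 1 1)) (add (et (var 0) (var 1)) (var
      3))) (mul (mul pi (q 1 1)) (add (et (var 0) (var 1)) (var 3))))) (eF1 (var 0) (var 1))),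
      (neg (add (et (var 0) (var 1)) (var 3))), (sub (add (var 1) (var 3)) (q 148 1000)), (sub (q
      106 100) (add (var 0) (var 2)))] 18
      3185389594683404246558270410984153768399635504181539
      [V.of 10000 5350 5600 16, V.of 10000 (-180) 985 16, V.of 10000 6300 7000 16, V.of 10000
        (-930) 940 16] = true := by
    decide +kernel
  obtain ⟨f, hf, hp⟩ := chkT4 h (by norm_num) (x := x) (y := T) (z := s) (w := k)
    (le_trans (by norm_num) a0) (le_trans b0 (by norm_num))
    (le_trans (by norm_num) a1) (le_trans b1 (by norm_num))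
    (le_trans (by norm_num) a2) (le_trans b2 (by norm_num))
    (le_trans (by norm_num) a3) (le_trans b3 (by norm_num))
  simp only [List.mem_cons, List.not_mem_nil, or_false] at hf
  rcases hf with rfl | rfl | rfl | rfl | rfl
  · simp only [eg1_val, eg2_val, eF1_val, eG1_val, eF3_val, et_val, nt_val, nm_val, nfZ_val, nfP_val, np1_val,
      np2_val, MR.e1_val, MR.e2_val, NumU.E.val, NumI.E.val, NumI.lkR] at hp
    push_cast at hp
    try simp only [div_one] at hp
    left
    linarith only [hp]
  · simp only [eg1_val, eg2_val, eF1_val, eG1_val, eF3_val, et_val, nt_val, nm_val, nfZ_val, nfP_val, np1_val,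
      np2_val, MR.e1_val, MR.e2_val, NumU.E.val, NumI.E.val, NumI.lkR] at hp
    push_cast at hp
    try simp only [div_one] at hp
    right
    linarith only [hp]
  · simp only [eg1_val, eg2_val, eF1_val, eG1_val, eF3_val, et_val, nt_val, nm_val, nfZ_val, nfP_val, np1_val,
      np2_val, MR.e1_val, MR.e2_val, NumU.E.val, NumI.E.val, NumI.lkR] at hp
    push_cast at hp
    try simp only [div_one] at hp
    exfalso
    linarith only [c0, hp]
  · simp only [eg1_val, eg2_val, eF1_val, eG1_val, eF3_val, et_val, nt_val, nm_val, nfZ_val, nfP_val, np1_val,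
      np2_val, MR.e1_val, MR.e2_val, NumU.E.val, NumI.E.val, NumI.lkR] at hp
    push_cast at hp
    try simp only [div_one] at hp
    exfalso
    linarith only [c1, hp]
  · simp only [eg1_val, eg2_val, eF1_val, eG1_val, eF3_val, et_val, nt_val, nm_val, nfZ_val, nfP_val, np1_val,
      np2_val, MR.e1_val, MR.e2_val, NumU.E.val, NumI.E.val, NumI.lkR] at hp
    push_cast at hp
    try simp only [div_one] at hp
    exfalso
    linarith only [a0, a2, hp]

/-- 13 boxes -/
theorem Z1PCn {x T s k : ℝ} (a0 : 5350 / 10000 ≤ x) (b0 : x ≤ 5600 / 10000) (a1 : -180 / 10000 ≤ T) (b1 : T ≤ 985 / 10000)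
    (a2 : 6300 / 10000 ≤ s) (b2 : s ≤ 7000 / 10000) (a3 : -930 / 10000 ≤ k) (b3 : k ≤ 940 / 10000)
    (c0 : (tt T x) + k ≤ 0) (c1 : (T + k) - (148 / 1000) ≤ 0) (c2 : (106 / 100) - (x + s) ≤ 0) :
    0 < ((g1 (40 / 100) T x (tt T x) s k ((uu (((40 / 100) + s) - 1) (T + k)) + ((Real.pi * 1) *
      (T + k))) ((uu ((x + s) - 1) ((tt T x) + k)) + ((Real.pi * (-1)) * ((tt T x) + k)))) + (F1 x
      T)) ∨ 0 < ((g1 (40 / 100) T x (tt T x) s k ((uu (((40 / 100) + s) - 1) (T + k)) + ((Real.pi
      * (-1)) * (T + k))) ((uu ((x + s) - 1) ((tt T x) + k)) + ((Real.pi * (-1)) * ((tt T x) +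
      k)))) + (F1 x T)) := by
  have h : chkT [(add (eg1 (q 40 100) (var 1) (var 0) (et (var 0) (var 1)) (var 2) (var 3) (add (E.uu (sub
      (add (q 40 100) (var 2)) (q 1 1)) (add (var 1) (var 3))) (mul (mul pi (q 1 1)) (add (var 1)
      (var 3)))) (add (E.uu (sub (add (var 0) (var 2)) (q 1 1)) (add (et (var 0) (var 1)) (var
      3))) (mul (mul pi (q (-1) 1)) (add (et (var 0) (var 1)) (var 3))))) (eF1 (var 0) (var 1))),
      (add (eg1 (q 40 100) (var 1) (var 0) (et (var 0) (var 1)) (var 2) (var 3) (add (E.uu (sub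
      (add (q 40 100) (var 2)) (q 1 1)) (add (var 1) (var 3))) (mul (mul pi (q (-1) 1)) (add (var
      1) (var 3)))) (add (E.uu (sub (add (var 0) (var 2)) (q 1 1)) (add (et (var 0) (var 1)) (var
      3))) (mul (mul pi (q (-1) 1)) (add (et (var 0) (var 1)) (var 3))))) (eF1 (var 0) (var 1))),
      (add (et (var 0) (var 1)) (var 3)), (sub (add (var 1) (var 3)) (q 148 1000)), (sub (q 106
      100) (add (var 0) (var 2)))] 18
      676091202993480744750806544675
      [V.of 10000 5350 5600 16, V.of 10000 (-180) 985 16, V.of 10000 6300 7000 16, V.of 10000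
        (-930) 940 16] = true := by
    decide +kernel
  obtain ⟨f, hf, hp⟩ := chkT4 h (by norm_num) (x := x) (y := T) (z := s) (w := k)
    (le_trans (by norm_num) a0) (le_trans b0 (by norm_num))
    (le_trans (by norm_num) a1) (le_trans b1 (by norm_num))
    (le_trans (by norm_num) a2) (le_trans b2 (by norm_num))
    (le_trans (by norm_num) a3) (le_trans b3 (by norm_num))
  simp only [List.mem_cons, List.not_mem_nil, or_false] at hf
  rcases hf with rfl | rfl | rfl | rfl | rfl
  · simp only [eg1_val, eg2_val, eF1_val, eG1_val, eF3_val, et_val, nt_val, nm_val, nfZ_val, nfP_val, np1_val,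
      np2_val, MR.e1_val, MR.e2_val, NumU.E.val, NumI.E.val, NumI.lkR] at hp
    push_cast at hp
    try simp only [div_one] at hp
    left
    linarith only [hp]
  · simp only [eg1_val, eg2_val, eF1_val, eG1_val, eF3_val, et_val, nt_val, nm_val, nfZ_val, nfP_val, np1_val,
      np2_val, MR.e1_val, MR.e2_val, NumU.E.val, NumI.E.val, NumI.lkR] at hp
    push_cast at hp
    try simp only [div_one] at hp
    right
    linarith only [hp]
  · simp only [eg1_val, eg2_val, eF1_val, eG1_val, eF3_val, et_val, nt_val, nm_val, nfZ_val, nfP_val, np1_val,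
      np2_val, MR.e1_val, MR.e2_val, NumU.E.val, NumI.E.val, NumI.lkR] at hp
    push_cast at hp
    try simp only [div_one] at hp
    exfalso
    linarith only [c0, hp]
  · simp only [eg1_val, eg2_val, eF1_val, eG1_val, eF3_val, et_val, nt_val, nm_val, nfZ_val, nfP_val, np1_val,
      np2_val, MR.e1_val, MR.e2_val, NumU.E.val, NumI.E.val, NumI.lkR] at hp
    push_cast at hp
    try simp only [div_one] at hp
    exfalso
    linarith only [c1, hp]
  · simp only [eg1_val, eg2_val, eF1_val, eG1_val, eF3_val, et_val, nt_val, nm_val, nfZ_val, nfP_val, np1_val,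
      np2_val, MR.e1_val, MR.e2_val, NumU.E.val, NumI.E.val, NumI.lkR] at hp
    push_cast at hp
    try simp only [div_one] at hp
    exfalso
    linarith only [a0, a2, hp]

end C12

end Pool.Agent.Work.MP_b30479_gt.G2
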