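import Pool.Agent.Work.MP_b30479_gt.G2.C12E
import Pool.Agent.Work.NumU.Tree
import Pool.Agent.Work.NumU.TreeS

/-!
# The right ramp of the hinge `1 | 2`: rows

Found with `NumU.cert`.
-/

set_option linter.unusedSimpArgs false
set_option linter.unusedTactic false
set_option linter.unusedVariables false

namespace Pool.Agent.Work.MP_b30479_gt.G2

namespace C12

open NumU NumU.E
open NumI (V)

/-- 174 boxes -/
theorem Z2Ap {x T s k : ℝ} (a0 : 5350 / 10000 ≤ x) (b0 : x ≤ 7500 / 10000) (a1 : -180 / 10000 ≤ T) (b1 : T ≤ 985 / 10000)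
    (a2 : 3100 / 10000 ≤ s) (b2 : s ≤ 5700 / 10000) (a3 : -985 / 10000 ≤ k) (b3 : k ≤ 960 / 10000)
    (c0 : -(k - (tt T x)) ≤ 0) (c1 : k - ((11 / 1000) + ((320 / 1000) * ((63 / 100) - s))) ≤ 0)
    (c2 : (-k) - ((0 / 1000) + ((340 / 1000) * ((80 / 100) - s))) ≤ 0) (c3 : (106 / 100) - (x + s)
    ≤ 0) :
    0 < ((g2 (40 / 100) T x (tt T x) s k (uu ((40 / 100) + s) (k - T)) ((uu ((x + s) - 1) (k -
      (tt T x))) + ((Real.pi * 1) * (k - (tt T x))))) - (G1 x T)) := by
  have h : chkT [(sub (eg2 (q 40 100) (var 1) (var 0) (et (var 0) (var 1)) (var 2) (var 3) (E.uu (add (q 40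
      100) (var 2)) (sub (var 3) (var 1))) (add (E.uu (sub (add (var 0) (var 2)) (q 1 1)) (sub
      (var 3) (et (var 0) (var 1)))) (mul (mul pi (q 1 1)) (sub (var 3) (et (var 0) (var 1))))))
      (eG1 (var 0) (var 1))), (neg (sub (var 3) (et (var 0) (var 1)))), (sub (var 3) (add (q 11
      1000) (mul (q 320 1000) (sub (q 63 100) (var 2))))), (sub (neg (var 3)) (add (q 0 1000) (mul
      (q 340 1000) (sub (q 80 100) (var 2))))), (sub (q 106 100) (add (var 0) (var 2)))] 18
      4446377085533885655733849317957063307331469189644808668406221911979335377192249413384665775489291134010218530506631922812313115573832341528959968223429395214855117037118752088031166405836573195355736016734736140483404279942044598849398331428877016577070830384400841883841385864562726284993523266738044245411978531770994023880969407334610715558781991721465034602971420530460260745001641450370518320379877054278046630402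
      [V.of 10000 5350 7500 16, V.of 10000 (-180) 985 16, V.of 10000 3100 5700 16, V.of 10000
        (-985) 960 16] = true := by
    decide +kernel
  obtain ⟨f, hf, hp⟩ := chkT4 h (by norm_num) (x := x) (y := T) (z := s) (w := k)
    (le_trans (by norm_num) a0) (le_trans b0 (by norm_num))
    (le_trans (by norm_num) a1) (le_trans b1 (by norm_num))
    (le_trans (by norm_num) a2) (le_trans b2 (by norm_num))
    (le_trans (by norm_num) a3) (le_trans b3 (by norm_num))
  simp only [List.mem_cons, List.not_mem_nil, or_false] at hf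
  rcases hf with rfl | rfl | rfl | rfl | rfl
  · simp only [eg1_val, eg2_val, eF1_val, eG1_val, eF3_val, et_val, nt_val, nm_val, nfZ_val, nfP_val, np1_val,
      np2_val, MR.e1_val, MR.e2_val, NumU.E.val, NumI.E.val, NumI.lkR] at hp
    push_cast at hp
    try simp only [div_one] at hp
    linarith only [hp]
  · simp only [eg1_val, eg2_val, eF1_val, eG1_val, eF3_val, et_val, nt_val, nm_val, nfZ_val, nfP_val, np1_val,
      np2_val, MR.e1_val, MR.e2_val, NumU.E.val, NumI.E.val, NumI.lkR] at hp
    push_cast at hp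
    try simp only [div_one] at hp
    exfalso
    linarith only [c0, hp]
  · simp only [eg1_val, eg2_val, eF1_val, eG1_val, eF3_val, et_val, nt_val, nm_val, nfZ_val, nfP_val, np1_val,
      np2_val, MR.e1_val, MR.e2_val, NumU.E.val, NumI.E.val, NumI.lkR] at hp
    push_cast at hp
    try simp only [div_one] at hp
    exfalso
    linarith only [c1, hp]
  · simp only [eg1_val, eg2_val, eF1_val, eG1_val, eF3_val, et_val, nt_val, nm_val, nfZ_val, nfP_val, np1_val,
      np2_val, MR.e1_val, MR.e2_val, NumU.E.val, NumI.E.val, NumI.lkR] at hp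
    push_cast at hp
    try simp only [div_one] at hp
    exfalso
    linarith only [c2, hp]
  · simp only [eg1_val, eg2_val, eF1_val, eG1_val, eF3_val, et_val, nt_val, nm_val, nfZ_val, nfP_val, np1_val,
      np2_val, MR.e1_val, MR.e2_val, NumU.E.val, NumI.E.val, NumI.lkR] at hp
    push_cast at hp
    try simp only [div_one] at hp
    exfalso
    linarith only [c3, hp]

/-- 27 boxes -/
theorem Z2Bp {x T s k : ℝ} (a0 : 5350 / 10000 ≤ x) (b0 : x ≤ 7500 / 10000) (a1 : -180 / 10000 ≤ T) (b1 : T ≤ 985 / 10000)
    (a2 : 5700 / 10000 ≤ s) (b2 : s ≤ 6300 / 10000) (a3 : -985 / 10000 ≤ k) (b3 : k ≤ 960 / 10000)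
    (c0 : -(k - (tt T x)) ≤ 0) (c1 : k - ((11 / 1000) + ((320 / 1000) * ((63 / 100) - s))) ≤ 0)
    (c2 : (-k) - ((0 / 1000) + ((340 / 1000) * ((80 / 100) - s))) ≤ 0) (c3 : (106 / 100) - (x + s)
    ≤ 0) :
    0 < ((g2 (40 / 100) T x (tt T x) s k (((uu (3 / 100) (k - T)) + ((Real.pi * 1) * (k - T))) -
      ((34 / 100) * ((103 / 100) - ((40 / 100) + s)))) ((uu ((x + s) - 1) (k - (tt T x))) +
      ((Real.pi * 1) * (k - (tt T x))))) - (G1 x T)) ∨ 0 < ((g2 (40 / 100) T x (tt T x) s k (((uu
      (3 / 100) (k - T)) + ((Real.pi * (-1)) * (k - T))) - ((34 / 100) * ((103 / 100) - ((40 /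
      100) + s)))) ((uu ((x + s) - 1) (k - (tt T x))) + ((Real.pi * 1) * (k - (tt T x))))) - (G1 x
      T)) := by
  have h : chkT [(sub (eg2 (q 40 100) (var 1) (var 0) (et (var 0) (var 1)) (var 2) (var 3) (sub (add (E.uu
      (q 3 100) (sub (var 3) (var 1))) (mul (mul pi (q 1 1)) (sub (var 3) (var 1)))) (mul (q 34
      100) (sub (q 103 100) (add (q 40 100) (var 2))))) (add (E.uu (sub (add (var 0) (var 2)) (q 1
      1)) (sub (var 3) (et (var 0) (var 1)))) (mul (mul pi (q 1 1)) (sub (var 3) (et (var 0) (var
      1)))))) (eG1 (var 0) (var 1))), (sub (eg2 (q 40 100) (var 1) (var 0) (et (var 0) (var 1))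
      (var 2) (var 3) (sub (add (E.uu (q 3 100) (sub (var 3) (var 1))) (mul (mul pi (q (-1) 1))
      (sub (var 3) (var 1)))) (mul (q 34 100) (sub (q 103 100) (add (q 40 100) (var 2))))) (add
      (E.uu (sub (add (var 0) (var 2)) (q 1 1)) (sub (var 3) (et (var 0) (var 1)))) (mul (mul pi
      (q 1 1)) (sub (var 3) (et (var 0) (var 1)))))) (eG1 (var 0) (var 1))), (neg (sub (var 3) (et
      (var 0) (var 1)))), (sub (var 3) (add (q 11 1000) (mul (q 320 1000) (sub (q 63 100) (var
      2))))), (sub (neg (var 3)) (add (q 0 1000) (mul (q 340 1000) (sub (q 80 100) (var 2))))),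
      (sub (q 106 100) (add (var 0) (var 2)))] 18
      4823326376519993892110090890729723840020234611173483680561180976
      [V.of 10000 5350 7500 16, V.of 10000 (-180) 985 16, V.of 10000 5700 6300 16, V.of 10000
        (-985) 960 16] = true := by
    decide +kernel
  obtain ⟨f, hf, hp⟩ := chkT4 h (by norm_num) (x := x) (y := T) (z := s) (w := k)
    (le_trans (by norm_num) a0) (le_trans b0 (by norm_num))
    (le_trans (by norm_num) a1) (le_trans b1 (by norm_num))
    (le_trans (by norm_num) a2) (le_trans b2 (by norm_num))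
    (le_trans (by norm_num) a3) (le_trans b3 (by norm_num))
  simp only [List.mem_cons, List.not_mem_nil, or_false] at hf
  rcases hf with rfl | rfl | rfl | rfl | rfl | rfl
  · simp only [eg1_val, eg2_val, eF1_val, eG1_val, eF3_val, et_val, nt_val, nm_val, nfZ_val, nfP_val, np1_val,
      np2_val, MR.e1_val, MR.e2_val, NumU.E.val, NumI.E.val, NumI.lkR] at hp
    push_cast at hp
    try simp only [div_one] at hp
    left
    linarith only [hp]
  · simp only [eg1_val, eg2_val, eF1_val, eG1_val, eF3_val, et_val, nt_val, nm_val, nfZ_val, nfP_val, np1_val,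
      np2_val, MR.e1_val, MR.e2_val, NumU.E.val, NumI.E.val, NumI.lkR] at hp
    push_cast at hp
    try simp only [div_one] at hp
    right
    linarith only [hp]
  · simp only [eg1_val, eg2_val, eF1_val, eG1_val, eF3_val, et_val, nt_val, nm_val, nfZ_val, nfP_val, np1_val,
      np2_val, MR.e1_val, MR.e2_val, NumU.E.val, NumI.E.val, NumI.lkR] at hp
    push_cast at hp
    try simp only [div_one] at hp
    exfalso
    linarith only [c0, hp]
  · simp only [eg1_val, eg2_val, eF1_val, eG1_val, eF3_val, et_val, nt_val, nm_val, nfZ_val, nfP_val, np1_val,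
      np2_val, MR.e1_val, MR.e2_val, NumU.E.val, NumI.E.val, NumI.lkR] at hp
    push_cast at hp
    try simp only [div_one] at hp
    exfalso
    linarith only [c1, hp]
  · simp only [eg1_val, eg2_val, eF1_val, eG1_val, eF3_val, et_val, nt_val, nm_val, nfZ_val, nfP_val, np1_val,
      np2_val, MR.e1_val, MR.e2_val, NumU.E.val, NumI.E.val, NumI.lkR] at hp
    push_cast at hp
    try simp only [div_one] at hp
    exfalso
    linarith only [c2, hp]
  · simp only [eg1_val, eg2_val, eF1_val, eG1_val, eF3_val, et_val, nt_val, nm_val, nfZ_val, nfP_val, np1_val,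
      np2_val, MR.e1_val, MR.e2_val, NumU.E.val, NumI.E.val, NumI.lkR] at hp
    push_cast at hp
    try simp only [div_one] at hp
    exfalso
    linarith only [a0, a2, hp]

/-- 111 boxes -/
theorem Z2Cp {x T s k : ℝ} (a0 : 5350 / 10000 ≤ x) (b0 : x ≤ 7500 / 10000) (a1 : -180 / 10000 ≤ T) (b1 : T ≤ 985 / 10000)
    (a2 : 6300 / 10000 ≤ s) (b2 : s ≤ 8000 / 10000) (a3 : -985 / 10000 ≤ k) (b3 : k ≤ 960 / 10000)
    (c0 : -(k - (tt T x)) ≤ 0) (c1 : k - ((1 / 1000) + ((63 / 1000) * ((80 / 100) - s))) ≤ 0) (c2
    : (-k) - ((0 / 1000) + ((340 / 1000) * ((80 / 100) - s))) ≤ 0) (c3 : (106 / 100) - (x + s) ≤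
    0) :
    0 < ((g2 (40 / 100) T x (tt T x) s k ((uu (((40 / 100) + s) - 1) (k - T)) + ((Real.pi * 1) *
      (k - T))) ((uu ((x + s) - 1) (k - (tt T x))) + ((Real.pi * 1) * (k - (tt T x))))) - (G1 x
      T)) ∨ 0 < ((g2 (40 / 100) T x (tt T x) s k ((uu (((40 / 100) + s) - 1) (k - T)) + ((Real.pi
      * (-1)) * (k - T))) ((uu ((x + s) - 1) (k - (tt T x))) + ((Real.pi * 1) * (k - (tt T x)))))
      - (G1 x T)) := by
  have h : chkT [(sub (eg2 (q 40 100) (var 1) (var 0) (et (var 0) (var 1)) (var 2) (var 3) (add (E.uu (sub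
      (add (q 40 100) (var 2)) (q 1 1)) (sub (var 3) (var 1))) (mul (mul pi (q 1 1)) (sub (var 3)
      (var 1)))) (add (E.uu (sub (add (var 0) (var 2)) (q 1 1)) (sub (var 3) (et (var 0) (var
      1)))) (mul (mul pi (q 1 1)) (sub (var 3) (et (var 0) (var 1)))))) (eG1 (var 0) (var 1))),
      (sub (eg2 (q 40 100) (var 1) (var 0) (et (var 0) (var 1)) (var 2) (var 3) (add (E.uu (sub
      (add (q 40 100) (var 2)) (q 1 1)) (sub (var 3) (var 1))) (mul (mul pi (q (-1) 1)) (sub (var
      3) (var 1)))) (add (E.uu (sub (add (var 0) (var 2)) (q 1 1)) (sub (var 3) (et (var 0) (var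
      1)))) (mul (mul pi (q 1 1)) (sub (var 3) (et (var 0) (var 1)))))) (eG1 (var 0) (var 1))),
      (neg (sub (var 3) (et (var 0) (var 1)))), (sub (var 3) (add (q 1 1000) (mul (q 63 1000) (sub
      (q 80 100) (var 2))))), (sub (neg (var 3)) (add (q 0 1000) (mul (q 340 1000) (sub (q 80 100)
      (var 2))))), (sub (q 106 100) (add (var 0) (var 2)))] 18
      94579779700019584369204445523807735792950397364087845468200759237071233102896422814854645351617708612882633110984355096706135242741764833700845085935631458404061280398543482275905699149671987912565420219564796222516416715656729013571791922160361877964899221254058786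
      [V.of 10000 5350 7500 16, V.of 10000 (-180) 985 16, V.of 10000 6300 8000 16, V.of 10000
        (-985) 960 16] = true := by
    decide +kernel
  obtain ⟨f, hf, hp⟩ := chkT4 h (by norm_num) (x := x) (y := T) (z := s) (w := k)
    (le_trans (by norm_num) a0) (le_trans b0 (by norm_num))
    (le_trans (by norm_num) a1) (le_trans b1 (by norm_num))
    (le_trans (by norm_num) a2) (le_trans b2 (by norm_num))
    (le_trans (by norm_num) a3) (le_trans b3 (by norm_num))
  simp only [List.mem_cons, List.not_mem_nil, or_false] at hf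
  rcases hf with rfl | rfl | rfl | rfl | rfl | rfl
  · simp only [eg1_val, eg2_val, eF1_val, eG1_val, eF3_val, et_val, nt_val, nm_val, nfZ_val, nfP_val, np1_val,
      np2_val, MR.e1_val, MR.e2_val, NumU.E.val, NumI.E.val, NumI.lkR] at hp
    push_cast at hp
    try simp only [div_one] at hp
    left
    linarith only [hp]
  · simp only [eg1_val, eg2_val, eF1_val, eG1_val, eF3_val, et_val, nt_val, nm_val, nfZ_val, nfP_val, np1_val,
      np2_val, MR.e1_val, MR.e2_val, NumU.E.val, NumI.E.val, NumI.lkR] at hp
    push_cast at hp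
    try simp only [div_one] at hp
    right
    linarith only [hp]
  · simp only [eg1_val, eg2_val, eF1_val, eG1_val, eF3_val, et_val, nt_val, nm_val, nfZ_val, nfP_val, np1_val,
      np2_val, MR.e1_val, MR.e2_val, NumU.E.val, NumI.E.val, NumI.lkR] at hp
    push_cast at hp
    try simp only [div_one] at hp
    exfalso
    linarith only [c0, hp]
  · simp only [eg1_val, eg2_val, eF1_val, eG1_val, eF3_val, et_val, nt_val, nm_val, nfZ_val, nfP_val, np1_val,
      np2_val, MR.e1_val, MR.e2_val, NumU.E.val, NumI.E.val, NumI.lkR] at hp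
    push_cast at hp
    try simp only [div_one] at hp
    exfalso
    linarith only [c1, hp]
  · simp only [eg1_val, eg2_val, eF1_val, eG1_val, eF3_val, et_val, nt_val, nm_val, nfZ_val, nfP_val, np1_val,
      np2_val, MR.e1_val, MR.e2_val, NumU.E.val, NumI.E.val, NumI.lkR] at hp
    push_cast at hp
    try simp only [div_one] at hp
    exfalso
    linarith only [c2, hp]
  · simp only [eg1_val, eg2_val, eF1_val, eG1_val, eF3_val, et_val, nt_val, nm_val, nfZ_val, nfP_val, np1_val,
      np2_val, MR.e1_val, MR.e2_val, NumU.E.val, NumI.E.val, NumI.lkR] at hp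
    push_cast at hp
    try simp only [div_one] at hp
    exfalso
    linarith only [a0, a2, hp]

theorem Z2An_h1_q1 : Pool.Agent.Work.NumU.runT [(sub (eg2 (q 40 100) (var 1) (var 0) (et (var 0) (var 1)) (var 2) (var 3) (E.uu (add (q 40 100) (var 2)) (sub (var 3) (var 1))) (add (E.uu (sub (add (var 0) (var 2)) (q 1 1)) (sub (var 3) (et (var 0) (var 1)))) (mul (mul pi (q (-1) 1)) (sub (var 3) (et (var 0) (var 1)))))) (eG1 (var 0) (var 1))), (sub (var 3) (et (var 0) (var 1))), (sub (var 3) (add (q 11 1000) (mul (q 320 1000) (sub (q 63 100) (var 2))))), (sub (neg (var 3)) (add (q 0 1000) (mul (q 340 1000) (sub (q 80 100) (var 2))))), (sub (q 106 100) (add (var 0) (var 2)))] 17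
    6069158189336442897746726772790141035252125999183177633131509198232653939288798231370591928770334448899765157053098984625700441769728833666611619667854996484928255384511903708741273292089736568318962954536163247049799691493814460303299074685056829651614342183162266986569258459542982795236529334330117882055128264842227252816620644013176315047962500765779882228135855794230179511447827059299788332434952546695070043576107354732701916867437862623695682373340001765653522215224304471072
    (Pool.Agent.Work.NumI.setL 2 ([V.of 10000 5350 7500 16, V.of 10000 (-180) 985 16, V.of 10000 3100 5700 16, V.of 10000 (-985) 960 16])) =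
    357084591917327756187913292757728847439578030282507496531350035432843017805704354388321353971405564760303892069929551401791019307658263256129440667358173023887017195486930920941890114808461096866468262938131733214844438513196750558595802127958855748853267405338061563279781677087160983458520912441377 := by
  decide +kernel

theorem Z2An_h1_q2 : Pool.Agent.Work.NumU.runT [(sub (eg2 (q 40 100) (var 1) (var 0) (et (var 0) (var 1)) (var 2) (var 3) (E.uu (add (q 40 100) (var 2)) (sub (var 3) (var 1))) (add (E.uu (sub (add (var 0) (var 2)) (q 1 1)) (sub (var 3) (et (var 0) (var 1)))) (mul (mul pi (q (-1) 1)) (sub (var 3) (et (var 0) (var 1)))))) (eG1 (var 0) (var 1))), (sub (var 3) (et (var 0) (var 1))), (sub (var 3) (add (q 11 1000) (mul (q 320 1000) (sub (q 63 100) (var 2))))), (sub (neg (var 3)) (add (q 0 1000) (mul (q 340 1000) (sub (q 80 100) (var 2))))), (sub (q 106 100) (add (var 0) (var 2)))] 17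
    357084591917327756187913292757728847439578030282507496531350035432843017805704354388321353971405564760303892069929551401791019307658263256129440667358173023887017195486930920941890114808461096866468262938131733214844438513196750558595802127958855748853267405338061563279781677087160983458520912441376
    (Pool.Agent.Work.NumI.setR 2 ([V.of 10000 5350 7500 16, V.of 10000 (-180) 985 16, V.of 10000 3100 5700 16, V.of 10000 (-985) 960 16])) =
    1 := by
  decide +kernel

/-- 202 boxes -/
theorem Z2An {x T s k : ℝ} (a0 : 5350 / 10000 ≤ x) (b0 : x ≤ 7500 / 10000) (a1 : -180 / 10000 ≤ T) (b1 : T ≤ 985 / 10000)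
    (a2 : 3100 / 10000 ≤ s) (b2 : s ≤ 5700 / 10000) (a3 : -985 / 10000 ≤ k) (b3 : k ≤ 960 / 10000)
    (c0 : k - (tt T x) ≤ 0) (c1 : k - ((11 / 1000) + ((320 / 1000) * ((63 / 100) - s))) ≤ 0) (c2 :
    (-k) - ((0 / 1000) + ((340 / 1000) * ((80 / 100) - s))) ≤ 0) (c3 : (106 / 100) - (x + s) ≤ 0)
    :
    0 < ((g2 (40 / 100) T x (tt T x) s k (uu ((40 / 100) + s) (k - T)) ((uu ((x + s) - 1) (k -
      (tt T x))) + ((Real.pi * (-1)) * (k - (tt T x))))) - (G1 x T)) := by
  have h : chkT [(sub (eg2 (q 40 100) (var 1) (var 0) (et (var 0) (var 1)) (var 2) (var 3) (E.uu (add (q 40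
      100) (var 2)) (sub (var 3) (var 1))) (add (E.uu (sub (add (var 0) (var 2)) (q 1 1)) (sub
      (var 3) (et (var 0) (var 1)))) (mul (mul pi (q (-1) 1)) (sub (var 3) (et (var 0) (var
      1)))))) (eG1 (var 0) (var 1))), (sub (var 3) (et (var 0) (var 1))), (sub (var 3) (add (q 11
      1000) (mul (q 320 1000) (sub (q 63 100) (var 2))))), (sub (neg (var 3)) (add (q 0 1000) (mul
      (q 340 1000) (sub (q 80 100) (var 2))))), (sub (q 106 100) (add (var 0) (var 2)))] 18
      97106531029383086363947628364642256564034015986930842130104147171722463028620771701929470860325351182396242512849583754011207068315661338665785914685679943758852086152190459339860372673435785093103407272578611952796795063901031364852785194960909274425829474930596271785108135352687724723784469349281886112882052237475636045065930304210821040767400012252478115650173692707682872183165232948796613318959240747121120697217717675723230669879005801979130917973440028250456355443588871537154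
      [V.of 10000 5350 7500 16, V.of 10000 (-180) 985 16, V.of 10000 3100 5700 16, V.of 10000
        (-985) 960 16] = true :=
      Pool.Agent.Work.NumU.chkT_of (Pool.Agent.Work.NumU.runT_split rfl rfl rfl
        Z2An_h1_q1
        Z2An_h1_q2)
  obtain ⟨f, hf, hp⟩ := chkT4 h (by norm_num) (x := x) (y := T) (z := s) (w := k)
    (le_trans (by norm_num) a0) (le_trans b0 (by norm_num))
    (le_trans (by norm_num) a1) (le_trans b1 (by norm_num))
    (le_trans (by norm_num) a2) (le_trans b2 (by norm_num))
    (le_trans (by norm_num) a3) (le_trans b3 (by norm_num))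
  simp only [List.mem_cons, List.not_mem_nil, or_false] at hf
  rcases hf with rfl | rfl | rfl | rfl | rfl
  · simp only [eg1_val, eg2_val, eF1_val, eG1_val, eF3_val, et_val, nt_val, nm_val, nfZ_val, nfP_val, np1_val,
      np2_val, MR.e1_val, MR.e2_val, NumU.E.val, NumI.E.val, NumI.lkR] at hp
    push_cast at hp
    try simp only [div_one] at hp
    linarith only [hp]
  · simp only [eg1_val, eg2_val, eF1_val, eG1_val, eF3_val, et_val, nt_val, nm_val, nfZ_val, nfP_val, np1_val,
      np2_val, MR.e1_val, MR.e2_val, NumU.E.val, NumI.E.val, NumI.lkR] at hp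
    push_cast at hp
    try simp only [div_one] at hp
    exfalso
    linarith only [c0, hp]
  · simp only [eg1_val, eg2_val, eF1_val, eG1_val, eF3_val, et_val, nt_val, nm_val, nfZ_val, nfP_val, np1_val,
      np2_val, MR.e1_val, MR.e2_val, NumU.E.val, NumI.E.val, NumI.lkR] at hp
    push_cast at hp
    try simp only [div_one] at hp
    exfalso
    linarith only [c1, hp]
  · simp only [eg1_val, eg2_val, eF1_val, eG1_val, eF3_val, et_val, nt_val, nm_val, nfZ_val, nfP_val, np1_val,
      np2_val, MR.e1_val, MR.e2_val, NumU.E.val, NumI.E.val, NumI.lkR] at hp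
    push_cast at hp
    try simp only [div_one] at hp
    exfalso
    linarith only [c2, hp]
  · simp only [eg1_val, eg2_val, eF1_val, eG1_val, eF3_val, et_val, nt_val, nm_val, nfZ_val, nfP_val, np1_val,
      np2_val, MR.e1_val, MR.e2_val, NumU.E.val, NumI.E.val, NumI.lkR] at hp
    push_cast at hp
    try simp only [div_one] at hp
    exfalso
    linarith only [c3, hp]

/-- 24 boxes -/
theorem Z2Bn {x T s k : ℝ} (a0 : 5350 / 10000 ≤ x) (b0 : x ≤ 7500 / 10000) (a1 : -180 / 10000 ≤ T) (b1 : T ≤ 985 / 10000)
    (a2 : 5700 / 10000 ≤ s) (b2 : s ≤ 6300 / 10000) (a3 : -985 / 10000 ≤ k) (b3 : k ≤ 960 / 10000)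
    (c0 : k - (tt T x) ≤ 0) (c1 : k - ((11 / 1000) + ((320 / 1000) * ((63 / 100) - s))) ≤ 0) (c2 :
    (-k) - ((0 / 1000) + ((340 / 1000) * ((80 / 100) - s))) ≤ 0) (c3 : (106 / 100) - (x + s) ≤ 0)
    :
    0 < ((g2 (40 / 100) T x (tt T x) s k (((uu (3 / 100) (k - T)) + ((Real.pi * 1) * (k - T))) -
      ((34 / 100) * ((103 / 100) - ((40 / 100) + s)))) ((uu ((x + s) - 1) (k - (tt T x))) +
      ((Real.pi * (-1)) * (k - (tt T x))))) - (G1 x T)) ∨ 0 < ((g2 (40 / 100) T x (tt T x) s k
      (((uu (3 / 100) (k - T)) + ((Real.pi * (-1)) * (k - T))) - ((34 / 100) * ((103 / 100) - ((40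
      / 100) + s)))) ((uu ((x + s) - 1) (k - (tt T x))) + ((Real.pi * (-1)) * (k - (tt T x))))) -
      (G1 x T)) := by
  have h : chkT [(sub (eg2 (q 40 100) (var 1) (var 0) (et (var 0) (var 1)) (var 2) (var 3) (sub (add (E.uu
      (q 3 100) (sub (var 3) (var 1))) (mul (mul pi (q 1 1)) (sub (var 3) (var 1)))) (mul (q 34
      100) (sub (q 103 100) (add (q 40 100) (var 2))))) (add (E.uu (sub (add (var 0) (var 2)) (q 1
      1)) (sub (var 3) (et (var 0) (var 1)))) (mul (mul pi (q (-1) 1)) (sub (var 3) (et (var 0)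
      (var 1)))))) (eG1 (var 0) (var 1))), (sub (eg2 (q 40 100) (var 1) (var 0) (et (var 0) (var
      1)) (var 2) (var 3) (sub (add (E.uu (q 3 100) (sub (var 3) (var 1))) (mul (mul pi (q (-1)
      1)) (sub (var 3) (var 1)))) (mul (q 34 100) (sub (q 103 100) (add (q 40 100) (var 2)))))
      (add (E.uu (sub (add (var 0) (var 2)) (q 1 1)) (sub (var 3) (et (var 0) (var 1)))) (mul (mul
      pi (q (-1) 1)) (sub (var 3) (et (var 0) (var 1)))))) (eG1 (var 0) (var 1))), (sub (var 3)
      (et (var 0) (var 1))), (sub (var 3) (add (q 11 1000) (mul (q 320 1000) (sub (q 63 100) (var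
      2))))), (sub (neg (var 3)) (add (q 0 1000) (mul (q 340 1000) (sub (q 80 100) (var 2))))),
      (sub (q 106 100) (add (var 0) (var 2)))] 18
      284427609240505022495528506281545265994722291061391110448
      [V.of 10000 5350 7500 16, V.of 10000 (-180) 985 16, V.of 10000 5700 6300 16, V.of 10000
        (-985) 960 16] = true := by
    decide +kernel
  obtain ⟨f, hf, hp⟩ := chkT4 h (by norm_num) (x := x) (y := T) (z := s) (w := k)
    (le_trans (by norm_num) a0) (le_trans b0 (by norm_num))
    (le_trans (by norm_num) a1) (le_trans b1 (by norm_num))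
    (le_trans (by norm_num) a2) (le_trans b2 (by norm_num))
    (le_trans (by norm_num) a3) (le_trans b3 (by norm_num))
  simp only [List.mem_cons, List.not_mem_nil, or_false] at hf
  rcases hf with rfl | rfl | rfl | rfl | rfl | rfl
  · simp only [eg1_val, eg2_val, eF1_val, eG1_val, eF3_val, et_val, nt_val, nm_val, nfZ_val, nfP_val, np1_val,
      np2_val, MR.e1_val, MR.e2_val, NumU.E.val, NumI.E.val, NumI.lkR] at hp
    push_cast at hp
    try simp only [div_one] at hp
    left
    linarith only [hp]
  · simp only [eg1_val, eg2_val, eF1_val, eG1_val, eF3_val, et_val, nt_val, nm_val, nfZ_val, nfP_val, np1_val,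
      np2_val, MR.e1_val, MR.e2_val, NumU.E.val, NumI.E.val, NumI.lkR] at hp
    push_cast at hp
    try simp only [div_one] at hp
    right
    linarith only [hp]
  · simp only [eg1_val, eg2_val, eF1_val, eG1_val, eF3_val, et_val, nt_val, nm_val, nfZ_val, nfP_val, np1_val,
      np2_val, MR.e1_val, MR.e2_val, NumU.E.val, NumI.E.val, NumI.lkR] at hp
    push_cast at hp
    try simp only [div_one] at hp
    exfalso
    linarith only [c0, hp]
  · simp only [eg1_val, eg2_val, eF1_val, eG1_val, eF3_val, et_val, nt_val, nm_val, nfZ_val, nfP_val, np1_val,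
      np2_val, MR.e1_val, MR.e2_val, NumU.E.val, NumI.E.val, NumI.lkR] at hp
    push_cast at hp
    try simp only [div_one] at hp
    exfalso
    linarith only [c1, hp]
  · simp only [eg1_val, eg2_val, eF1_val, eG1_val, eF3_val, et_val, nt_val, nm_val, nfZ_val, nfP_val, np1_val,
      np2_val, MR.e1_val, MR.e2_val, NumU.E.val, NumI.E.val, NumI.lkR] at hp
    push_cast at hp
    try simp only [div_one] at hp
    exfalso
    linarith only [c2, hp]
  · simp only [eg1_val, eg2_val, eF1_val, eG1_val, eF3_val, et_val, nt_val, nm_val, nfZ_val, nfP_val, np1_val,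
      np2_val, MR.e1_val, MR.e2_val, NumU.E.val, NumI.E.val, NumI.lkR] at hp
    push_cast at hp
    try simp only [div_one] at hp
    exfalso
    linarith only [a0, a2, hp]

/-- 109 boxes -/
theorem Z2Cn {x T s k : ℝ} (a0 : 5350 / 10000 ≤ x) (b0 : x ≤ 7500 / 10000) (a1 : -180 / 10000 ≤ T) (b1 : T ≤ 985 / 10000)
    (a2 : 6300 / 10000 ≤ s) (b2 : s ≤ 8000 / 10000) (a3 : -985 / 10000 ≤ k) (b3 : k ≤ 960 / 10000)
    (c0 : k - (tt T x) ≤ 0) (c1 : k - ((1 / 1000) + ((63 / 1000) * ((80 / 100) - s))) ≤ 0) (c2 :
    (-k) - ((0 / 1000) + ((340 / 1000) * ((80 / 100) - s))) ≤ 0) (c3 : (106 / 100) - (x + s) ≤ 0)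
    :
    0 < ((g2 (40 / 100) T x (tt T x) s k ((uu (((40 / 100) + s) - 1) (k - T)) + ((Real.pi * 1) *
      (k - T))) ((uu ((x + s) - 1) (k - (tt T x))) + ((Real.pi * (-1)) * (k - (tt T x))))) - (G1 x
      T)) ∨ 0 < ((g2 (40 / 100) T x (tt T x) s k ((uu (((40 / 100) + s) - 1) (k - T)) + ((Real.pi
      * (-1)) * (k - T))) ((uu ((x + s) - 1) (k - (tt T x))) + ((Real.pi * (-1)) * (k - (tt T
      x))))) - (G1 x T)) := by
  have h : chkT [(sub (eg2 (q 40 100) (var 1) (var 0) (et (var 0) (var 1)) (var 2) (var 3) (add (E.uu (sub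
      (add (q 40 100) (var 2)) (q 1 1)) (sub (var 3) (var 1))) (mul (mul pi (q 1 1)) (sub (var 3)
      (var 1)))) (add (E.uu (sub (add (var 0) (var 2)) (q 1 1)) (sub (var 3) (et (var 0) (var
      1)))) (mul (mul pi (q (-1) 1)) (sub (var 3) (et (var 0) (var 1)))))) (eG1 (var 0) (var 1))),
      (sub (eg2 (q 40 100) (var 1) (var 0) (et (var 0) (var 1)) (var 2) (var 3) (add (E.uu (sub
      (add (q 40 100) (var 2)) (q 1 1)) (sub (var 3) (var 1))) (mul (mul pi (q (-1) 1)) (sub (var
      3) (var 1)))) (add (E.uu (sub (add (var 0) (var 2)) (q 1 1)) (sub (var 3) (et (var 0) (var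
      1)))) (mul (mul pi (q (-1) 1)) (sub (var 3) (et (var 0) (var 1)))))) (eG1 (var 0) (var 1))),
      (sub (var 3) (et (var 0) (var 1))), (sub (var 3) (add (q 1 1000) (mul (q 63 1000) (sub (q 80
      100) (var 2))))), (sub (neg (var 3)) (add (q 0 1000) (mul (q 340 1000) (sub (q 80 100) (var
      2))))), (sub (q 106 100) (add (var 0) (var 2)))] 18
      1443172141859718471123164833678693593165478450212589411711133368637040217268845405718222866074066067373312809736642996467625029506547929854711943867388120290121365596789140610203836683462090445175929216885859032586806542859037090714558034912975749884498158818082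
      [V.of 10000 5350 7500 16, V.of 10000 (-180) 985 16, V.of 10000 6300 8000 16, V.of 10000
        (-985) 960 16] = true := by
    decide +kernel
  obtain ⟨f, hf, hp⟩ := chkT4 h (by norm_num) (x := x) (y := T) (z := s) (w := k)
    (le_trans (by norm_num) a0) (le_trans b0 (by norm_num))
    (le_trans (by norm_num) a1) (le_trans b1 (by norm_num))
    (le_trans (by norm_num) a2) (le_trans b2 (by norm_num))
    (le_trans (by norm_num) a3) (le_trans b3 (by norm_num))
  simp only [List.mem_cons, List.not_mem_nil, or_false] at hf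
  rcases hf with rfl | rfl | rfl | rfl | rfl | rfl
  · simp only [eg1_val, eg2_val, eF1_val, eG1_val, eF3_val, et_val, nt_val, nm_val, nfZ_val, nfP_val, np1_val,
      np2_val, MR.e1_val, MR.e2_val, NumU.E.val, NumI.E.val, NumI.lkR] at hp
    push_cast at hp
    try simp only [div_one] at hp
    left
    linarith only [hp]
  · simp only [eg1_val, eg2_val, eF1_val, eG1_val, eF3_val, et_val, nt_val, nm_val, nfZ_val, nfP_val, np1_val,
      np2_val, MR.e1_val, MR.e2_val, NumU.E.val, NumI.E.val, NumI.lkR] at hp
    push_cast at hp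
    try simp only [div_one] at hp
    right
    linarith only [hp]
  · simp only [eg1_val, eg2_val, eF1_val, eG1_val, eF3_val, et_val, nt_val, nm_val, nfZ_val, nfP_val, np1_val,
      np2_val, MR.e1_val, MR.e2_val, NumU.E.val, NumI.E.val, NumI.lkR] at hp
    push_cast at hp
    try simp only [div_one] at hp
    exfalso
    linarith only [c0, hp]
  · simp only [eg1_val, eg2_val, eF1_val, eG1_val, eF3_val, et_val, nt_val, nm_val, nfZ_val, nfP_val, np1_val,
      np2_val, MR.e1_val, MR.e2_val, NumU.E.val, NumI.E.val, NumI.lkR] at hp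
    push_cast at hp
    try simp only [div_one] at hp
    exfalso
    linarith only [c1, hp]
  · simp only [eg1_val, eg2_val, eF1_val, eG1_val, eF3_val, et_val, nt_val, nm_val, nfZ_val, nfP_val, np1_val,
      np2_val, MR.e1_val, MR.e2_val, NumU.E.val, NumI.E.val, NumI.lkR] at hp
    push_cast at hp
    try simp only [div_one] at hp
    exfalso
    linarith only [c2, hp]
  · simp only [eg1_val, eg2_val, eF1_val, eG1_val, eF3_val, et_val, nt_val, nm_val, nfZ_val, nfP_val, np1_val,
      np2_val, MR.e1_val, MR.e2_val, NumU.E.val, NumI.E.val, NumI.lkR] at hp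
    push_cast at hp
    try simp only [div_one] at hp
    exfalso
    linarith only [a0, a2, hp]

end C12

end Pool.Agent.Work.MP_b30479_gt.G2
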