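import Pool.Agent.Work.MP_b30479_gt.G2.C12E
import Pool.Agent.Work.NumU.Tree

/-!
# The right ramp of the hinge `1 | 2`: rows

Found with `NumU.cert`.
-/

set_option linter.unusedSimpArgs false
set_option linter.unusedTactic false
set_option linter.unusedVariables false

namespace Pool.Agent.Work.MP_b30479_gt.G2

namespace C12

open NumU NumU.E
open NumI (V)

/-- 24 boxes -/
theorem W1a {x T s k : ℝ} (a0 : 7500 / 10000 ≤ x) (b0 : x ≤ 8000 / 10000) (a1 : -180 / 10000 ≤ T) (b1 : T ≤ 985 / 10000)
    (a2 : 700 / 10000 ≤ s) (b2 : s ≤ 1600 / 10000) (a3 : -993 / 10000 ≤ k) (b3 : k ≤ 1450 / 10000)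
    (c0 : (T + (((100 / 16) * k) * s)) - (187 / 1000) ≤ 0) :
    0 < ((g1 (44 / 100) T x (tt T x) s (((100 / 16) * k) * s) (uu ((44 / 100) + s) (T + (((100 /
      16) * k) * s))) (uu (x + s) ((tt T x) + (((100 / 16) * k) * s)))) + (F3 x T)) := by
  have h : chkT [(add (eg1 (q 44 100) (var 1) (var 0) (et (var 0) (var 1)) (var 2) (mul (mul (q 100 16) (var
      3)) (var 2)) (E.uu (add (q 44 100) (var 2)) (add (var 1) (mul (mul (q 100 16) (var 3)) (var
      2)))) (E.uu (add (var 0) (var 2)) (add (et (var 0) (var 1)) (mul (mul (q 100 16) (var 3))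
      (var 2))))) (eF3 (var 0) (var 1))), (sub (add (var 1) (mul (mul (q 100 16) (var 3)) (var
      2))) (q 187 1000))] 18
      208564012804419796200908908425404924019491962877014194226
      [V.of 10000 7500 8000 16, V.of 10000 (-180) 985 16, V.of 10000 700 1600 16, V.of 10000
        (-993) 1450 16] = true := by
    decide +kernel
  obtain ⟨f, hf, hp⟩ := chkT4 h (by norm_num) (x := x) (y := T) (z := s) (w := k)
    (le_trans (by norm_num) a0) (le_trans b0 (by norm_num))
    (le_trans (by norm_num) a1) (le_trans b1 (by norm_num))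
    (le_trans (by norm_num) a2) (le_trans b2 (by norm_num))
    (le_trans (by norm_num) a3) (le_trans b3 (by norm_num))
  simp only [List.mem_cons, List.not_mem_nil, or_false] at hf
  rcases hf with rfl | rfl
  · simp only [eg1_val, eg2_val, eF1_val, eG1_val, eF3_val, et_val, nt_val, nm_val, nfZ_val, nfP_val, np1_val,
      np2_val, MR.e1_val, MR.e2_val, NumU.E.val, NumI.E.val, NumI.lkR] at hp
    push_cast at hp
    try simp only [div_one] at hp
    linarith only [hp]
  · simp only [eg1_val, eg2_val, eF1_val, eG1_val, eF3_val, et_val, nt_val, nm_val, nfZ_val, nfP_val, np1_val,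
      np2_val, MR.e1_val, MR.e2_val, NumU.E.val, NumI.E.val, NumI.lkR] at hp
    push_cast at hp
    try simp only [div_one] at hp
    exfalso
    linarith only [c0, hp]

/-- 14 boxes -/
theorem W1b {x T s k : ℝ} (a0 : 7500 / 10000 ≤ x) (b0 : x ≤ 8000 / 10000) (a1 : -180 / 10000 ≤ T) (b1 : T ≤ 985 / 10000)
    (a2 : 1600 / 10000 ≤ s) (b2 : s ≤ 1900 / 10000) (a3 : -930 / 10000 ≤ k) (b3 : k ≤ 1450 /
    10000) (c0 : (T + k) - (187 / 1000) ≤ 0) (c1 : (x + s) - (94 / 100) ≤ 0) :
    0 < ((g1 (44 / 100) T x (tt T x) s k (uu ((44 / 100) + s) (T + k)) (uu (x + s) ((tt T x) +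
      k))) + (F3 x T)) := by
  have h : chkT [(add (eg1 (q 44 100) (var 1) (var 0) (et (var 0) (var 1)) (var 2) (var 3) (E.uu (add (q 44
      100) (var 2)) (add (var 1) (var 3))) (E.uu (add (var 0) (var 2)) (add (et (var 0) (var 1))
      (var 3)))) (eF3 (var 0) (var 1))), (sub (add (var 1) (var 3)) (q 187 1000)), (sub (add (var
      0) (var 2)) (q 94 100))] 18
      216174360841971319782884104484912
      [V.of 10000 7500 8000 16, V.of 10000 (-180) 985 16, V.of 10000 1600 1900 16, V.of 10000
        (-930) 1450 16] = true := by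
    decide +kernel
  obtain ⟨f, hf, hp⟩ := chkT4 h (by norm_num) (x := x) (y := T) (z := s) (w := k)
    (le_trans (by norm_num) a0) (le_trans b0 (by norm_num))
    (le_trans (by norm_num) a1) (le_trans b1 (by norm_num))
    (le_trans (by norm_num) a2) (le_trans b2 (by norm_num))
    (le_trans (by norm_num) a3) (le_trans b3 (by norm_num))
  simp only [List.mem_cons, List.not_mem_nil, or_false] at hf
  rcases hf with rfl | rfl | rfl
  · simp only [eg1_val, eg2_val, eF1_val, eG1_val, eF3_val, et_val, nt_val, nm_val, nfZ_val, nfP_val, np1_val,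
      np2_val, MR.e1_val, MR.e2_val, NumU.E.val, NumI.E.val, NumI.lkR] at hp
    push_cast at hp
    try simp only [div_one] at hp
    linarith only [hp]
  · simp only [eg1_val, eg2_val, eF1_val, eG1_val, eF3_val, et_val, nt_val, nm_val, nfZ_val, nfP_val, np1_val,
      np2_val, MR.e1_val, MR.e2_val, NumU.E.val, NumI.E.val, NumI.lkR] at hp
    push_cast at hp
    try simp only [div_one] at hp
    exfalso
    linarith only [c0, hp]
  · simp only [eg1_val, eg2_val, eF1_val, eG1_val, eF3_val, et_val, nt_val, nm_val, nfZ_val, nfP_val, np1_val,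
      np2_val, MR.e1_val, MR.e2_val, NumU.E.val, NumI.E.val, NumI.lkR] at hp
    push_cast at hp
    try simp only [div_one] at hp
    exfalso
    linarith only [c1, hp]

/-- 30 boxes -/
theorem W2a {x T s k : ℝ} (a0 : 7500 / 10000 ≤ x) (b0 : x ≤ 8000 / 10000) (a1 : -180 / 10000 ≤ T) (b1 : T ≤ 985 / 10000)
    (a2 : 700 / 10000 ≤ s) (b2 : s ≤ 1250 / 10000) (a3 : -1075 / 10000 ≤ k) (b3 : k ≤ 960 / 10000)
    :
    0 < ((g2 (44 / 100) T x (tt T x) s ((8 * k) * s) (uu ((44 / 100) + s) (((8 * k) * s) - T))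
      (uu (x + s) (((8 * k) * s) - (tt T x)))) - (F3 x T)) := by
  have h : chkT [(sub (eg2 (q 44 100) (var 1) (var 0) (et (var 0) (var 1)) (var 2) (mul (mul (q 8 1) (var
      3)) (var 2)) (E.uu (add (q 44 100) (var 2)) (sub (mul (mul (q 8 1) (var 3)) (var 2)) (var
      1))) (E.uu (add (var 0) (var 2)) (sub (mul (mul (q 8 1) (var 3)) (var 2)) (et (var 0) (var
      1))))) (eF3 (var 0) (var 1)))] 18
      58705550478235686753654199284576731539765678663946316763839208604860707
      [V.of 10000 7500 8000 16, V.of 10000 (-180) 985 16, V.of 10000 700 1250 16, V.of 10000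
        (-1075) 960 16] = true := by
    decide +kernel
  obtain ⟨f, hf, hp⟩ := chkT4 h (by norm_num) (x := x) (y := T) (z := s) (w := k)
    (le_trans (by norm_num) a0) (le_trans b0 (by norm_num))
    (le_trans (by norm_num) a1) (le_trans b1 (by norm_num))
    (le_trans (by norm_num) a2) (le_trans b2 (by norm_num))
    (le_trans (by norm_num) a3) (le_trans b3 (by norm_num))
  simp only [List.mem_cons, List.not_mem_nil, or_false] at hf
  subst hf
  simp only [eg1_val, eg2_val, eF1_val, eG1_val, eF3_val, et_val, nt_val, nm_val, nfZ_val, nfP_val, np1_val,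
    np2_val, MR.e1_val, MR.e2_val, NumU.E.val, NumI.E.val, NumI.lkR] at hp
  push_cast at hp
  try simp only [div_one] at hp
  linarith only [hp]

/-- 30 boxes -/
theorem W2b {x T s k : ℝ} (a0 : 7500 / 10000 ≤ x) (b0 : x ≤ 8000 / 10000) (a1 : -180 / 10000 ≤ T) (b1 : T ≤ 985 / 10000)
    (a2 : 1250 / 10000 ≤ s) (b2 : s ≤ 1900 / 10000) (a3 : -985 / 10000 ≤ k) (b3 : k ≤ 960 / 10000)
    (c0 : (x + s) - (94 / 100) ≤ 0) :
    0 < ((g2 (44 / 100) T x (tt T x) s k (uu ((44 / 100) + s) (k - T)) (uu (x + s) (k - (tt T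
      x)))) - (F3 x T)) := by
  have h : chkT [(sub (eg2 (q 44 100) (var 1) (var 0) (et (var 0) (var 1)) (var 2) (var 3) (E.uu (add (q 44
      100) (var 2)) (sub (var 3) (var 1))) (E.uu (add (var 0) (var 2)) (sub (var 3) (et (var 0)
      (var 1))))) (eF3 (var 0) (var 1))), (sub (add (var 0) (var 2)) (q 94 100))] 18
      65784820481112590880360061428044060970489267096269580721284419855876914
      [V.of 10000 7500 8000 16, V.of 10000 (-180) 985 16, V.of 10000 1250 1900 16, V.of 10000
        (-985) 960 16] = true := by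
    decide +kernel
  obtain ⟨f, hf, hp⟩ := chkT4 h (by norm_num) (x := x) (y := T) (z := s) (w := k)
    (le_trans (by norm_num) a0) (le_trans b0 (by norm_num))
    (le_trans (by norm_num) a1) (le_trans b1 (by norm_num))
    (le_trans (by norm_num) a2) (le_trans b2 (by norm_num))
    (le_trans (by norm_num) a3) (le_trans b3 (by norm_num))
  simp only [List.mem_cons, List.not_mem_nil, or_false] at hf
  rcases hf with rfl | rfl
  · simp only [eg1_val, eg2_val, eF1_val, eG1_val, eF3_val, et_val, nt_val, nm_val, nfZ_val, nfP_val, np1_val,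
      np2_val, MR.e1_val, MR.e2_val, NumU.E.val, NumI.E.val, NumI.lkR] at hp
    push_cast at hp
    try simp only [div_one] at hp
    linarith only [hp]
  · simp only [eg1_val, eg2_val, eF1_val, eG1_val, eF3_val, et_val, nt_val, nm_val, nfZ_val, nfP_val, np1_val,
      np2_val, MR.e1_val, MR.e2_val, NumU.E.val, NumI.E.val, NumI.lkR] at hp
    push_cast at hp
    try simp only [div_one] at hp
    exfalso
    linarith only [c0, hp]

/-- 58 boxes -/
theorem W1c {x T s k : ℝ} (a0 : 7500 / 10000 ≤ x) (b0 : x ≤ 8000 / 10000) (a1 : -180 / 10000 ≤ T) (b1 : T ≤ 985 / 10000)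
    (a2 : 9400 / 10000 ≤ s) (b2 : s ≤ 10600 / 10000) (a3 : -970 / 10000 ≤ k) (b3 : k ≤ 1870 /
    10000) (c0 : ((k - (tt T x)) + T) - (187 / 1000) ≤ 0) (c1 : (-(k - (tt T x))) - (93 / 1000) ≤
    0) (c2 : (k - (tt T x)) - (145 / 1000) ≤ 0) (c3 : (k - (tt T x)) - ((907 / 1000) * (s - x)) ≤
    0) :
    0 < ((g1 (44 / 100) T x (tt T x) (s - x) (k - (tt T x)) (uu ((44 / 100) + (s - x)) (T + (k -
      (tt T x)))) ((uu (94 / 100) k) + ((27 / 100) * (s - (94 / 100))))) + (F3 x T)) := by
  have h : chkT [(add (eg1 (q 44 100) (var 1) (var 0) (et (var 0) (var 1)) (sub (var 2) (var 0)) (sub (var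
      3) (et (var 0) (var 1))) (E.uu (add (q 44 100) (sub (var 2) (var 0))) (add (var 1) (sub (var
      3) (et (var 0) (var 1))))) (add (E.uu (q 94 100) (var 3)) (mul (q 27 100) (sub (var 2) (q 94
      100))))) (eF3 (var 0) (var 1))), (sub (add (sub (var 3) (et (var 0) (var 1))) (var 1)) (q
      187 1000)), (sub (neg (sub (var 3) (et (var 0) (var 1)))) (q 93 1000)), (sub (sub (var 3)
      (et (var 0) (var 1))) (q 145 1000)), (sub (sub (var 3) (et (var 0) (var 1))) (mul (q 907
      1000) (sub (var 2) (var 0))))] 24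
      1786278655157376735382119123861643705046371941005606281740505773088293032908645273166876009202172443587378995756638859924950701666308985731
      [V.of 10000 7500 8000 16, V.of 10000 (-180) 985 16, V.of 10000 9400 10600 16, V.of 10000
        (-970) 1870 16] = true := by
    decide +kernel
  obtain ⟨f, hf, hp⟩ := chkT4 h (by norm_num) (x := x) (y := T) (z := s) (w := k)
    (le_trans (by norm_num) a0) (le_trans b0 (by norm_num))
    (le_trans (by norm_num) a1) (le_trans b1 (by norm_num))
    (le_trans (by norm_num) a2) (le_trans b2 (by norm_num))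
    (le_trans (by norm_num) a3) (le_trans b3 (by norm_num))
  simp only [List.mem_cons, List.not_mem_nil, or_false] at hf
  rcases hf with rfl | rfl | rfl | rfl | rfl
  · simp only [eg1_val, eg2_val, eF1_val, eG1_val, eF3_val, et_val, nt_val, nm_val, nfZ_val, nfP_val, np1_val,
      np2_val, MR.e1_val, MR.e2_val, NumU.E.val, NumI.E.val, NumI.lkR] at hp
    push_cast at hp
    try simp only [div_one] at hp
    linarith only [hp]
  · simp only [eg1_val, eg2_val, eF1_val, eG1_val, eF3_val, et_val, nt_val, nm_val, nfZ_val, nfP_val, np1_val,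
      np2_val, MR.e1_val, MR.e2_val, NumU.E.val, NumI.E.val, NumI.lkR] at hp
    push_cast at hp
    try simp only [div_one] at hp
    exfalso
    linarith only [c0, hp]
  · simp only [eg1_val, eg2_val, eF1_val, eG1_val, eF3_val, et_val, nt_val, nm_val, nfZ_val, nfP_val, np1_val,
      np2_val, MR.e1_val, MR.e2_val, NumU.E.val, NumI.E.val, NumI.lkR] at hp
    push_cast at hp
    try simp only [div_one] at hp
    exfalso
    linarith only [c1, hp]
  · simp only [eg1_val, eg2_val, eF1_val, eG1_val, eF3_val, et_val, nt_val, nm_val, nfZ_val, nfP_val, np1_val,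
      np2_val, MR.e1_val, MR.e2_val, NumU.E.val, NumI.E.val, NumI.lkR] at hp
    push_cast at hp
    try simp only [div_one] at hp
    exfalso
    linarith only [c2, hp]
  · simp only [eg1_val, eg2_val, eF1_val, eG1_val, eF3_val, et_val, nt_val, nm_val, nfZ_val, nfP_val, np1_val,
      np2_val, MR.e1_val, MR.e2_val, NumU.E.val, NumI.E.val, NumI.lkR] at hp
    push_cast at hp
    try simp only [div_one] at hp
    exfalso
    linarith only [c3, hp]

/-- 23 boxes -/
theorem W2c {x T s k : ℝ} (a0 : 7500 / 10000 ≤ x) (b0 : x ≤ 8000 / 10000) (a1 : -180 / 10000 ≤ T) (b1 : T ≤ 985 / 10000)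
    (a2 : 9400 / 10000 ≤ s) (b2 : s ≤ 10600 / 10000) (a3 : -1160 / 10000 ≤ k) (b3 : k ≤ 1000 /
    10000) (c0 : (-(k + (tt T x))) - (99 / 1000) ≤ 0) (c1 : (k + (tt T x)) - (96 / 1000) ≤ 0) :
    0 < ((g2 (44 / 100) T x (tt T x) (s - x) (k + (tt T x)) (uu ((44 / 100) + (s - x)) ((k + (tt
      T x)) - T)) ((uu (94 / 100) k) + ((34 / 100) * (s - (94 / 100))))) - (F3 x T)) := by
  have h : chkT [(sub (eg2 (q 44 100) (var 1) (var 0) (et (var 0) (var 1)) (sub (var 2) (var 0)) (add (var
      3) (et (var 0) (var 1))) (E.uu (add (q 44 100) (sub (var 2) (var 0))) (sub (add (var 3) (et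
      (var 0) (var 1))) (var 1))) (add (E.uu (q 94 100) (var 3)) (mul (q 34 100) (sub (var 2) (q
      94 100))))) (eF3 (var 0) (var 1))), (sub (neg (add (var 3) (et (var 0) (var 1)))) (q 99
      1000)), (sub (add (var 3) (et (var 0) (var 1))) (q 96 1000))] 24
      814329030622619337913043405142822682423155117330539395
      [V.of 10000 7500 8000 16, V.of 10000 (-180) 985 16, V.of 10000 9400 10600 16, V.of 10000
        (-1160) 1000 16] = true := by
    decide +kernel
  obtain ⟨f, hf, hp⟩ := chkT4 h (by norm_num) (x := x) (y := T) (z := s) (w := k)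
    (le_trans (by norm_num) a0) (le_trans b0 (by norm_num))
    (le_trans (by norm_num) a1) (le_trans b1 (by norm_num))
    (le_trans (by norm_num) a2) (le_trans b2 (by norm_num))
    (le_trans (by norm_num) a3) (le_trans b3 (by norm_num))
  simp only [List.mem_cons, List.not_mem_nil, or_false] at hf
  rcases hf with rfl | rfl | rfl
  · simp only [eg1_val, eg2_val, eF1_val, eG1_val, eF3_val, et_val, nt_val, nm_val, nfZ_val, nfP_val, np1_val,
      np2_val, MR.e1_val, MR.e2_val, NumU.E.val, NumI.E.val, NumI.lkR] at hp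
    push_cast at hp
    try simp only [div_one] at hp
    linarith only [hp]
  · simp only [eg1_val, eg2_val, eF1_val, eG1_val, eF3_val, et_val, nt_val, nm_val, nfZ_val, nfP_val, np1_val,
      np2_val, MR.e1_val, MR.e2_val, NumU.E.val, NumI.E.val, NumI.lkR] at hp
    push_cast at hp
    try simp only [div_one] at hp
    exfalso
    linarith only [c0, hp]
  · simp only [eg1_val, eg2_val, eF1_val, eG1_val, eF3_val, et_val, nt_val, nm_val, nfZ_val, nfP_val, np1_val,
      np2_val, MR.e1_val, MR.e2_val, NumU.E.val, NumI.E.val, NumI.lkR] at hp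
    push_cast at hp
    try simp only [div_one] at hp
    exfalso
    linarith only [c1, hp]

/-- 28 boxes -/
theorem Y1Ap {x T s k : ℝ} (a0 : 7500 / 10000 ≤ x) (b0 : x ≤ 8000 / 10000) (a1 : -180 / 10000 ≤ T) (b1 : T ≤ 985 / 10000)
    (a2 : 2600 / 10000 ≤ s) (b2 : s ≤ 5300 / 10000) (a3 : -930 / 10000 ≤ k) (b3 : k ≤ 1450 /
    10000) (c0 : -((tt T x) + k) ≤ 0) (c1 : (T + k) - (187 / 1000) ≤ 0) (c2 : k - ((0 / 1000) +
    ((290 / 1000) * ((86 / 100) - s))) ≤ 0) (c3 : (-k) - ((0 / 1000) + ((465 / 1000) * ((86 / 100)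
    - s))) ≤ 0) (c4 : (106 / 100) - (x + s) ≤ 0) :
    0 < ((g1 (44 / 100) T x (tt T x) s k (uu ((44 / 100) + s) (T + k)) ((uu ((x + s) - 1) ((tt T
      x) + k)) + ((Real.pi * 1) * ((tt T x) + k)))) + (F3 x T)) := by
  have h : chkT [(add (eg1 (q 44 100) (var 1) (var 0) (et (var 0) (var 1)) (var 2) (var 3) (E.uu (add (q 44
      100) (var 2)) (add (var 1) (var 3))) (add (E.uu (sub (add (var 0) (var 2)) (q 1 1)) (add (et
      (var 0) (var 1)) (var 3))) (mul (mul pi (q 1 1)) (add (et (var 0) (var 1)) (var 3))))) (eF3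
      (var 0) (var 1))), (neg (add (et (var 0) (var 1)) (var 3))), (sub (add (var 1) (var 3)) (q
      187 1000)), (sub (var 3) (add (q 0 1000) (mul (q 290 1000) (sub (q 86 100) (var 2))))), (sub
      (neg (var 3)) (add (q 0 1000) (mul (q 465 1000) (sub (q 86 100) (var 2))))), (sub (q 106
      100) (add (var 0) (var 2)))] 18
      898499374128136540751355157631913693971760054691980164753926521378
      [V.of 10000 7500 8000 16, V.of 10000 (-180) 985 16, V.of 10000 2600 5300 16, V.of 10000
        (-930) 1450 16] = true := by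
    decide +kernel
  obtain ⟨f, hf, hp⟩ := chkT4 h (by norm_num) (x := x) (y := T) (z := s) (w := k)
    (le_trans (by norm_num) a0) (le_trans b0 (by norm_num))
    (le_trans (by norm_num) a1) (le_trans b1 (by norm_num))
    (le_trans (by norm_num) a2) (le_trans b2 (by norm_num))
    (le_trans (by norm_num) a3) (le_trans b3 (by norm_num))
  simp only [List.mem_cons, List.not_mem_nil, or_false] at hf
  rcases hf with rfl | rfl | rfl | rfl | rfl | rfl
  · simp only [eg1_val, eg2_val, eF1_val, eG1_val, eF3_val, et_val, nt_val, nm_val, nfZ_val, nfP_val, np1_val,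
      np2_val, MR.e1_val, MR.e2_val, NumU.E.val, NumI.E.val, NumI.lkR] at hp
    push_cast at hp
    try simp only [div_one] at hp
    linarith only [hp]
  · simp only [eg1_val, eg2_val, eF1_val, eG1_val, eF3_val, et_val, nt_val, nm_val, nfZ_val, nfP_val, np1_val,
      np2_val, MR.e1_val, MR.e2_val, NumU.E.val, NumI.E.val, NumI.lkR] at hp
    push_cast at hp
    try simp only [div_one] at hp
    exfalso
    linarith only [c0, hp]
  · simp only [eg1_val, eg2_val, eF1_val, eG1_val, eF3_val, et_val, nt_val, nm_val, nfZ_val, nfP_val, np1_val,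
      np2_val, MR.e1_val, MR.e2_val, NumU.E.val, NumI.E.val, NumI.lkR] at hp
    push_cast at hp
    try simp only [div_one] at hp
    exfalso
    linarith only [c1, hp]
  · simp only [eg1_val, eg2_val, eF1_val, eG1_val, eF3_val, et_val, nt_val, nm_val, nfZ_val, nfP_val, np1_val,
      np2_val, MR.e1_val, MR.e2_val, NumU.E.val, NumI.E.val, NumI.lkR] at hp
    push_cast at hp
    try simp only [div_one] at hp
    exfalso
    linarith only [c2, hp]
  · simp only [eg1_val, eg2_val, eF1_val, eG1_val, eF3_val, et_val, nt_val, nm_val, nfZ_val, nfP_val, np1_val,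
      np2_val, MR.e1_val, MR.e2_val, NumU.E.val, NumI.E.val, NumI.lkR] at hp
    push_cast at hp
    try simp only [div_one] at hp
    exfalso
    linarith only [b2, a3, hp]
  · simp only [eg1_val, eg2_val, eF1_val, eG1_val, eF3_val, et_val, nt_val, nm_val, nfZ_val, nfP_val, np1_val,
      np2_val, MR.e1_val, MR.e2_val, NumU.E.val, NumI.E.val, NumI.lkR] at hp
    push_cast at hp
    try simp only [div_one] at hp
    exfalso
    linarith only [c4, hp]

/-- 8 boxes -/
theorem Y1Bp {x T s k : ℝ} (a0 : 7500 / 10000 ≤ x) (b0 : x ≤ 8000 / 10000) (a1 : -180 / 10000 ≤ T) (b1 : T ≤ 985 / 10000)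
    (a2 : 5300 / 10000 ≤ s) (b2 : s ≤ 5900 / 10000) (a3 : -930 / 10000 ≤ k) (b3 : k ≤ 1450 /
    10000) (c0 : -((tt T x) + k) ≤ 0) (c1 : (T + k) - (187 / 1000) ≤ 0) (c2 : k - ((0 / 1000) +
    ((290 / 1000) * ((86 / 100) - s))) ≤ 0) (c3 : (-k) - ((0 / 1000) + ((465 / 1000) * ((86 / 100)
    - s))) ≤ 0) (c4 : (106 / 100) - (x + s) ≤ 0) :
    0 < ((g1 (44 / 100) T x (tt T x) s k (((uu (3 / 100) (T + k)) + ((Real.pi * 1) * (T + k))) -
      ((27 / 100) * ((103 / 100) - ((44 / 100) + s)))) ((uu ((x + s) - 1) ((tt T x) + k)) +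
      ((Real.pi * 1) * ((tt T x) + k)))) + (F3 x T)) ∨ 0 < ((g1 (44 / 100) T x (tt T x) s k (((uu
      (3 / 100) (T + k)) + ((Real.pi * (-1)) * (T + k))) - ((27 / 100) * ((103 / 100) - ((44 /
      100) + s)))) ((uu ((x + s) - 1) ((tt T x) + k)) + ((Real.pi * 1) * ((tt T x) + k)))) + (F3 x
      T)) := by
  have h : chkT [(add (eg1 (q 44 100) (var 1) (var 0) (et (var 0) (var 1)) (var 2) (var 3) (sub (add (E.uu
      (q 3 100) (add (var 1) (var 3))) (mul (mul pi (q 1 1)) (add (var 1) (var 3)))) (mul (q 27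
      100) (sub (q 103 100) (add (q 44 100) (var 2))))) (add (E.uu (sub (add (var 0) (var 2)) (q 1
      1)) (add (et (var 0) (var 1)) (var 3))) (mul (mul pi (q 1 1)) (add (et (var 0) (var 1)) (var
      3))))) (eF3 (var 0) (var 1))), (add (eg1 (q 44 100) (var 1) (var 0) (et (var 0) (var 1))
      (var 2) (var 3) (sub (add (E.uu (q 3 100) (add (var 1) (var 3))) (mul (mul pi (q (-1) 1))
      (add (var 1) (var 3)))) (mul (q 27 100) (sub (q 103 100) (add (q 44 100) (var 2))))) (add
      (E.uu (sub (add (var 0) (var 2)) (q 1 1)) (add (et (var 0) (var 1)) (var 3))) (mul (mul pi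
      (q 1 1)) (add (et (var 0) (var 1)) (var 3))))) (eF3 (var 0) (var 1))), (neg (add (et (var 0)
      (var 1)) (var 3))), (sub (add (var 1) (var 3)) (q 187 1000)), (sub (var 3) (add (q 0 1000)
      (mul (q 290 1000) (sub (q 86 100) (var 2))))), (sub (neg (var 3)) (add (q 0 1000) (mul (q
      465 1000) (sub (q 86 100) (var 2))))), (sub (q 106 100) (add (var 0) (var 2)))] 18
      902993200451950899
      [V.of 10000 7500 8000 16, V.of 10000 (-180) 985 16, V.of 10000 5300 5900 16, V.of 10000
        (-930) 1450 16] = true := by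
    decide +kernel
  obtain ⟨f, hf, hp⟩ := chkT4 h (by norm_num) (x := x) (y := T) (z := s) (w := k)
    (le_trans (by norm_num) a0) (le_trans b0 (by norm_num))
    (le_trans (by norm_num) a1) (le_trans b1 (by norm_num))
    (le_trans (by norm_num) a2) (le_trans b2 (by norm_num))
    (le_trans (by norm_num) a3) (le_trans b3 (by norm_num))
  simp only [List.mem_cons, List.not_mem_nil, or_false] at hf
  rcases hf with rfl | rfl | rfl | rfl | rfl | rfl | rfl
  · simp only [eg1_val, eg2_val, eF1_val, eG1_val, eF3_val, et_val, nt_val, nm_val, nfZ_val, nfP_val, np1_val,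
      np2_val, MR.e1_val, MR.e2_val, NumU.E.val, NumI.E.val, NumI.lkR] at hp
    push_cast at hp
    try simp only [div_one] at hp
    left
    linarith only [hp]
  · simp only [eg1_val, eg2_val, eF1_val, eG1_val, eF3_val, et_val, nt_val, nm_val, nfZ_val, nfP_val, np1_val,
      np2_val, MR.e1_val, MR.e2_val, NumU.E.val, NumI.E.val, NumI.lkR] at hp
    push_cast at hp
    try simp only [div_one] at hp
    right
    linarith only [hp]
  · simp only [eg1_val, eg2_val, eF1_val, eG1_val, eF3_val, et_val, nt_val, nm_val, nfZ_val, nfP_val, np1_val,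
      np2_val, MR.e1_val, MR.e2_val, NumU.E.val, NumI.E.val, NumI.lkR] at hp
    push_cast at hp
    try simp only [div_one] at hp
    exfalso
    linarith only [c0, hp]
  · simp only [eg1_val, eg2_val, eF1_val, eG1_val, eF3_val, et_val, nt_val, nm_val, nfZ_val, nfP_val, np1_val,
      np2_val, MR.e1_val, MR.e2_val, NumU.E.val, NumI.E.val, NumI.lkR] at hp
    push_cast at hp
    try simp only [div_one] at hp
    exfalso
    linarith only [c1, hp]
  · simp only [eg1_val, eg2_val, eF1_val, eG1_val, eF3_val, et_val, nt_val, nm_val, nfZ_val, nfP_val, np1_val,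
      np2_val, MR.e1_val, MR.e2_val, NumU.E.val, NumI.E.val, NumI.lkR] at hp
    push_cast at hp
    try simp only [div_one] at hp
    exfalso
    linarith only [c2, hp]
  · simp only [eg1_val, eg2_val, eF1_val, eG1_val, eF3_val, et_val, nt_val, nm_val, nfZ_val, nfP_val, np1_val,
      np2_val, MR.e1_val, MR.e2_val, NumU.E.val, NumI.E.val, NumI.lkR] at hp
    push_cast at hp
    try simp only [div_one] at hp
    exfalso
    linarith only [b2, a3, hp]
  · simp only [eg1_val, eg2_val, eF1_val, eG1_val, eF3_val, et_val, nt_val, nm_val, nfZ_val, nfP_val, np1_val,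
      np2_val, MR.e1_val, MR.e2_val, NumU.E.val, NumI.E.val, NumI.lkR] at hp
    push_cast at hp
    try simp only [div_one] at hp
    exfalso
    linarith only [a0, a2, hp]

/-- 11 boxes -/
theorem Y1An {x T s k : ℝ} (a0 : 7500 / 10000 ≤ x) (b0 : x ≤ 8000 / 10000) (a1 : -180 / 10000 ≤ T) (b1 : T ≤ 985 / 10000)
    (a2 : 2600 / 10000 ≤ s) (b2 : s ≤ 5300 / 10000) (a3 : -930 / 10000 ≤ k) (b3 : k ≤ 1450 /
    10000) (c0 : (tt T x) + k ≤ 0) (c1 : (T + k) - (187 / 1000) ≤ 0) (c2 : k - ((0 / 1000) + ((290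
    / 1000) * ((86 / 100) - s))) ≤ 0) (c3 : (-k) - ((0 / 1000) + ((465 / 1000) * ((86 / 100) -
    s))) ≤ 0) (c4 : (106 / 100) - (x + s) ≤ 0) :
    0 < ((g1 (44 / 100) T x (tt T x) s k (uu ((44 / 100) + s) (T + k)) ((uu ((x + s) - 1) ((tt T
      x) + k)) + ((Real.pi * (-1)) * ((tt T x) + k)))) + (F3 x T)) := by
  have h : chkT [(add (eg1 (q 44 100) (var 1) (var 0) (et (var 0) (var 1)) (var 2) (var 3) (E.uu (add (q 44
      100) (var 2)) (add (var 1) (var 3))) (add (E.uu (sub (add (var 0) (var 2)) (q 1 1)) (add (et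
      (var 0) (var 1)) (var 3))) (mul (mul pi (q (-1) 1)) (add (et (var 0) (var 1)) (var 3)))))
      (eF3 (var 0) (var 1))), (add (et (var 0) (var 1)) (var 3)), (sub (add (var 1) (var 3)) (q
      187 1000)), (sub (var 3) (add (q 0 1000) (mul (q 290 1000) (sub (q 86 100) (var 2))))), (sub
      (neg (var 3)) (add (q 0 1000) (mul (q 465 1000) (sub (q 86 100) (var 2))))), (sub (q 106
      100) (add (var 0) (var 2)))] 18
      11523026251296499887514147
      [V.of 10000 7500 8000 16, V.of 10000 (-180) 985 16, V.of 10000 2600 5300 16, V.of 10000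
        (-930) 1450 16] = true := by
    decide +kernel
  obtain ⟨f, hf, hp⟩ := chkT4 h (by norm_num) (x := x) (y := T) (z := s) (w := k)
    (le_trans (by norm_num) a0) (le_trans b0 (by norm_num))
    (le_trans (by norm_num) a1) (le_trans b1 (by norm_num))
    (le_trans (by norm_num) a2) (le_trans b2 (by norm_num))
    (le_trans (by norm_num) a3) (le_trans b3 (by norm_num))
  simp only [List.mem_cons, List.not_mem_nil, or_false] at hf
  rcases hf with rfl | rfl | rfl | rfl | rfl | rfl
  · simp only [eg1_val, eg2_val, eF1_val, eG1_val, eF3_val, et_val, nt_val, nm_val, nfZ_val, nfP_val, np1_val,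
      np2_val, MR.e1_val, MR.e2_val, NumU.E.val, NumI.E.val, NumI.lkR] at hp
    push_cast at hp
    try simp only [div_one] at hp
    linarith only [hp]
  · simp only [eg1_val, eg2_val, eF1_val, eG1_val, eF3_val, et_val, nt_val, nm_val, nfZ_val, nfP_val, np1_val,
      np2_val, MR.e1_val, MR.e2_val, NumU.E.val, NumI.E.val, NumI.lkR] at hp
    push_cast at hp
    try simp only [div_one] at hp
    exfalso
    linarith only [c0, hp]
  · simp only [eg1_val, eg2_val, eF1_val, eG1_val, eF3_val, et_val, nt_val, nm_val, nfZ_val, nfP_val, np1_val,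
      np2_val, MR.e1_val, MR.e2_val, NumU.E.val, NumI.E.val, NumI.lkR] at hp
    push_cast at hp
    try simp only [div_one] at hp
    exfalso
    linarith only [c1, hp]
  · simp only [eg1_val, eg2_val, eF1_val, eG1_val, eF3_val, et_val, nt_val, nm_val, nfZ_val, nfP_val, np1_val,
      np2_val, MR.e1_val, MR.e2_val, NumU.E.val, NumI.E.val, NumI.lkR] at hp
    push_cast at hp
    try simp only [div_one] at hp
    exfalso
    linarith only [c2, hp]
  · simp only [eg1_val, eg2_val, eF1_val, eG1_val, eF3_val, et_val, nt_val, nm_val, nfZ_val, nfP_val, np1_val,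
      np2_val, MR.e1_val, MR.e2_val, NumU.E.val, NumI.E.val, NumI.lkR] at hp
    push_cast at hp
    try simp only [div_one] at hp
    exfalso
    linarith only [b2, a3, hp]
  · simp only [eg1_val, eg2_val, eF1_val, eG1_val, eF3_val, et_val, nt_val, nm_val, nfZ_val, nfP_val, np1_val,
      np2_val, MR.e1_val, MR.e2_val, NumU.E.val, NumI.E.val, NumI.lkR] at hp
    push_cast at hp
    try simp only [div_one] at hp
    exfalso
    linarith only [c4, hp]

/-- 5 boxes -/
theorem Y1Bn {x T s k : ℝ} (a0 : 7500 / 10000 ≤ x) (b0 : x ≤ 8000 / 10000) (a1 : -180 / 10000 ≤ T) (b1 : T ≤ 985 / 10000)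
    (a2 : 5300 / 10000 ≤ s) (b2 : s ≤ 5900 / 10000) (a3 : -930 / 10000 ≤ k) (b3 : k ≤ 1450 /
    10000) (c0 : (tt T x) + k ≤ 0) (c1 : (T + k) - (187 / 1000) ≤ 0) (c2 : k - ((0 / 1000) + ((290
    / 1000) * ((86 / 100) - s))) ≤ 0) (c3 : (-k) - ((0 / 1000) + ((465 / 1000) * ((86 / 100) -
    s))) ≤ 0) (c4 : (106 / 100) - (x + s) ≤ 0) :
    0 < ((g1 (44 / 100) T x (tt T x) s k (((uu (3 / 100) (T + k)) + ((Real.pi * 1) * (T + k))) -
      ((27 / 100) * ((103 / 100) - ((44 / 100) + s)))) ((uu ((x + s) - 1) ((tt T x) + k)) +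
      ((Real.pi * (-1)) * ((tt T x) + k)))) + (F3 x T)) ∨ 0 < ((g1 (44 / 100) T x (tt T x) s k
      (((uu (3 / 100) (T + k)) + ((Real.pi * (-1)) * (T + k))) - ((27 / 100) * ((103 / 100) - ((44
      / 100) + s)))) ((uu ((x + s) - 1) ((tt T x) + k)) + ((Real.pi * (-1)) * ((tt T x) + k)))) +
      (F3 x T)) := by
  have h : chkT [(add (eg1 (q 44 100) (var 1) (var 0) (et (var 0) (var 1)) (var 2) (var 3) (sub (add (E.uu
      (q 3 100) (add (var 1) (var 3))) (mul (mul pi (q 1 1)) (add (var 1) (var 3)))) (mul (q 27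
      100) (sub (q 103 100) (add (q 44 100) (var 2))))) (add (E.uu (sub (add (var 0) (var 2)) (q 1
      1)) (add (et (var 0) (var 1)) (var 3))) (mul (mul pi (q (-1) 1)) (add (et (var 0) (var 1))
      (var 3))))) (eF3 (var 0) (var 1))), (add (eg1 (q 44 100) (var 1) (var 0) (et (var 0) (var
      1)) (var 2) (var 3) (sub (add (E.uu (q 3 100) (add (var 1) (var 3))) (mul (mul pi (q (-1)
      1)) (add (var 1) (var 3)))) (mul (q 27 100) (sub (q 103 100) (add (q 44 100) (var 2)))))
      (add (E.uu (sub (add (var 0) (var 2)) (q 1 1)) (add (et (var 0) (var 1)) (var 3))) (mul (mul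
      pi (q (-1) 1)) (add (et (var 0) (var 1)) (var 3))))) (eF3 (var 0) (var 1))), (add (et (var
      0) (var 1)) (var 3)), (sub (add (var 1) (var 3)) (q 187 1000)), (sub (var 3) (add (q 0 1000)
      (mul (q 290 1000) (sub (q 86 100) (var 2))))), (sub (neg (var 3)) (add (q 0 1000) (mul (q
      465 1000) (sub (q 86 100) (var 2))))), (sub (q 106 100) (add (var 0) (var 2)))] 18
      36659892531
      [V.of 10000 7500 8000 16, V.of 10000 (-180) 985 16, V.of 10000 5300 5900 16, V.of 10000
        (-930) 1450 16] = true := by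
    decide +kernel
  obtain ⟨f, hf, hp⟩ := chkT4 h (by norm_num) (x := x) (y := T) (z := s) (w := k)
    (le_trans (by norm_num) a0) (le_trans b0 (by norm_num))
    (le_trans (by norm_num) a1) (le_trans b1 (by norm_num))
    (le_trans (by norm_num) a2) (le_trans b2 (by norm_num))
    (le_trans (by norm_num) a3) (le_trans b3 (by norm_num))
  simp only [List.mem_cons, List.not_mem_nil, or_false] at hf
  rcases hf with rfl | rfl | rfl | rfl | rfl | rfl | rfl
  · simp only [eg1_val, eg2_val, eF1_val, eG1_val, eF3_val, et_val, nt_val, nm_val, nfZ_val, nfP_val, np1_val,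
      np2_val, MR.e1_val, MR.e2_val, NumU.E.val, NumI.E.val, NumI.lkR] at hp
    push_cast at hp
    try simp only [div_one] at hp
    left
    linarith only [hp]
  · simp only [eg1_val, eg2_val, eF1_val, eG1_val, eF3_val, et_val, nt_val, nm_val, nfZ_val, nfP_val, np1_val,
      np2_val, MR.e1_val, MR.e2_val, NumU.E.val, NumI.E.val, NumI.lkR] at hp
    push_cast at hp
    try simp only [div_one] at hp
    right
    linarith only [hp]
  · simp only [eg1_val, eg2_val, eF1_val, eG1_val, eF3_val, et_val, nt_val, nm_val, nfZ_val, nfP_val, np1_val,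
      np2_val, MR.e1_val, MR.e2_val, NumU.E.val, NumI.E.val, NumI.lkR] at hp
    push_cast at hp
    try simp only [div_one] at hp
    exfalso
    linarith only [c0, hp]
  · simp only [eg1_val, eg2_val, eF1_val, eG1_val, eF3_val, et_val, nt_val, nm_val, nfZ_val, nfP_val, np1_val,
      np2_val, MR.e1_val, MR.e2_val, NumU.E.val, NumI.E.val, NumI.lkR] at hp
    push_cast at hp
    try simp only [div_one] at hp
    exfalso
    linarith only [c1, hp]
  · simp only [eg1_val, eg2_val, eF1_val, eG1_val, eF3_val, et_val, nt_val, nm_val, nfZ_val, nfP_val, np1_val,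
      np2_val, MR.e1_val, MR.e2_val, NumU.E.val, NumI.E.val, NumI.lkR] at hp
    push_cast at hp
    try simp only [div_one] at hp
    exfalso
    linarith only [c2, hp]
  · simp only [eg1_val, eg2_val, eF1_val, eG1_val, eF3_val, et_val, nt_val, nm_val, nfZ_val, nfP_val, np1_val,
      np2_val, MR.e1_val, MR.e2_val, NumU.E.val, NumI.E.val, NumI.lkR] at hp
    push_cast at hp
    try simp only [div_one] at hp
    exfalso
    linarith only [b2, a3, hp]
  · simp only [eg1_val, eg2_val, eF1_val, eG1_val, eF3_val, et_val, nt_val, nm_val, nfZ_val, nfP_val, np1_val,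
      np2_val, MR.e1_val, MR.e2_val, NumU.E.val, NumI.E.val, NumI.lkR] at hp
    push_cast at hp
    try simp only [div_one] at hp
    exfalso
    linarith only [a0, a2, hp]

/-- 19 boxes -/
theorem Y1Cp {x T s k : ℝ} (a0 : 7500 / 10000 ≤ x) (b0 : x ≤ 8000 / 10000) (a1 : -180 / 10000 ≤ T) (b1 : T ≤ 985 / 10000)
    (a2 : 5900 / 10000 ≤ s) (b2 : s ≤ 7000 / 10000) (a3 : -930 / 10000 ≤ k) (b3 : k ≤ 1450 /
    10000) (c0 : -((tt T x) + k) ≤ 0) (c1 : (T + k) - (187 / 1000) ≤ 0) (c2 : k - ((0 / 1000) +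
    ((290 / 1000) * ((86 / 100) - s))) ≤ 0) (c3 : (-k) - ((0 / 1000) + ((465 / 1000) * ((86 / 100)
    - s))) ≤ 0) (c4 : (106 / 100) - (x + s) ≤ 0) :
    0 < ((g1 (44 / 100) T x (tt T x) s k ((uu (((44 / 100) + s) - 1) (T + k)) + ((Real.pi * 1) *
      (T + k))) ((uu ((x + s) - 1) ((tt T x) + k)) + ((Real.pi * 1) * ((tt T x) + k)))) + (F3 x
      T)) ∨ 0 < ((g1 (44 / 100) T x (tt T x) s k ((uu (((44 / 100) + s) - 1) (T + k)) + ((Real.pi
      * (-1)) * (T + k))) ((uu ((x + s) - 1) ((tt T x) + k)) + ((Real.pi * 1) * ((tt T x) + k))))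
      + (F3 x T)) := by
  have h : chkT [(add (eg1 (q 44 100) (var 1) (var 0) (et (var 0) (var 1)) (var 2) (var 3) (add (E.uu (sub
      (add (q 44 100) (var 2)) (q 1 1)) (add (var 1) (var 3))) (mul (mul pi (q 1 1)) (add (var 1)
      (var 3)))) (add (E.uu (sub (add (var 0) (var 2)) (q 1 1)) (add (et (var 0) (var 1)) (var
      3))) (mul (mul pi (q 1 1)) (add (et (var 0) (var 1)) (var 3))))) (eF3 (var 0) (var 1))),
      (add (eg1 (q 44 100) (var 1) (var 0) (et (var 0) (var 1)) (var 2) (var 3) (add (E.uu (sub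
      (add (q 44 100) (var 2)) (q 1 1)) (add (var 1) (var 3))) (mul (mul pi (q (-1) 1)) (add (var
      1) (var 3)))) (add (E.uu (sub (add (var 0) (var 2)) (q 1 1)) (add (et (var 0) (var 1)) (var
      3))) (mul (mul pi (q 1 1)) (add (et (var 0) (var 1)) (var 3))))) (eF3 (var 0) (var 1))),
      (neg (add (et (var 0) (var 1)) (var 3))), (sub (add (var 1) (var 3)) (q 187 1000)), (sub
      (var 3) (add (q 0 1000) (mul (q 290 1000) (sub (q 86 100) (var 2))))), (sub (neg (var 3))
      (add (q 0 1000) (mul (q 465 1000) (sub (q 86 100) (var 2))))), (sub (q 106 100) (add (var 0)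
      (var 2)))] 18
      279850965421406153835559298431132013759144754
      [V.of 10000 7500 8000 16, V.of 10000 (-180) 985 16, V.of 10000 5900 7000 16, V.of 10000
        (-930) 1450 16] = true := by
    decide +kernel
  obtain ⟨f, hf, hp⟩ := chkT4 h (by norm_num) (x := x) (y := T) (z := s) (w := k)
    (le_trans (by norm_num) a0) (le_trans b0 (by norm_num))
    (le_trans (by norm_num) a1) (le_trans b1 (by norm_num))
    (le_trans (by norm_num) a2) (le_trans b2 (by norm_num))
    (le_trans (by norm_num) a3) (le_trans b3 (by norm_num))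
  simp only [List.mem_cons, List.not_mem_nil, or_false] at hf
  rcases hf with rfl | rfl | rfl | rfl | rfl | rfl | rfl
  · simp only [eg1_val, eg2_val, eF1_val, eG1_val, eF3_val, et_val, nt_val, nm_val, nfZ_val, nfP_val, np1_val,
      np2_val, MR.e1_val, MR.e2_val, NumU.E.val, NumI.E.val, NumI.lkR] at hp
    push_cast at hp
    try simp only [div_one] at hp
    left
    linarith only [hp]
  · simp only [eg1_val, eg2_val, eF1_val, eG1_val, eF3_val, et_val, nt_val, nm_val, nfZ_val, nfP_val, np1_val,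
      np2_val, MR.e1_val, MR.e2_val, NumU.E.val, NumI.E.val, NumI.lkR] at hp
    push_cast at hp
    try simp only [div_one] at hp
    right
    linarith only [hp]
  · simp only [eg1_val, eg2_val, eF1_val, eG1_val, eF3_val, et_val, nt_val, nm_val, nfZ_val, nfP_val, np1_val,
      np2_val, MR.e1_val, MR.e2_val, NumU.E.val, NumI.E.val, NumI.lkR] at hp
    push_cast at hp
    try simp only [div_one] at hp
    exfalso
    linarith only [c0, hp]
  · simp only [eg1_val, eg2_val, eF1_val, eG1_val, eF3_val, et_val, nt_val, nm_val, nfZ_val, nfP_val, np1_val,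
      np2_val, MR.e1_val, MR.e2_val, NumU.E.val, NumI.E.val, NumI.lkR] at hp
    push_cast at hp
    try simp only [div_one] at hp
    exfalso
    linarith only [c1, hp]
  · simp only [eg1_val, eg2_val, eF1_val, eG1_val, eF3_val, et_val, nt_val, nm_val, nfZ_val, nfP_val, np1_val,
      np2_val, MR.e1_val, MR.e2_val, NumU.E.val, NumI.E.val, NumI.lkR] at hp
    push_cast at hp
    try simp only [div_one] at hp
    exfalso
    linarith only [c2, hp]
  · simp only [eg1_val, eg2_val, eF1_val, eG1_val, eF3_val, et_val, nt_val, nm_val, nfZ_val, nfP_val, np1_val,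
      np2_val, MR.e1_val, MR.e2_val, NumU.E.val, NumI.E.val, NumI.lkR] at hp
    push_cast at hp
    try simp only [div_one] at hp
    exfalso
    linarith only [c3, hp]
  · simp only [eg1_val, eg2_val, eF1_val, eG1_val, eF3_val, et_val, nt_val, nm_val, nfZ_val, nfP_val, np1_val,
      np2_val, MR.e1_val, MR.e2_val, NumU.E.val, NumI.E.val, NumI.lkR] at hp
    push_cast at hp
    try simp only [div_one] at hp
    exfalso
    linarith only [a0, a2, hp]

/-- 10 boxes -/
theorem Y1Cn {x T s k : ℝ} (a0 : 7500 / 10000 ≤ x) (b0 : x ≤ 8000 / 10000) (a1 : -180 / 10000 ≤ T) (b1 : T ≤ 985 / 10000)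
    (a2 : 5900 / 10000 ≤ s) (b2 : s ≤ 7000 / 10000) (a3 : -930 / 10000 ≤ k) (b3 : k ≤ 1450 /
    10000) (c0 : (tt T x) + k ≤ 0) (c1 : (T + k) - (187 / 1000) ≤ 0) (c2 : k - ((0 / 1000) + ((290
    / 1000) * ((86 / 100) - s))) ≤ 0) (c3 : (-k) - ((0 / 1000) + ((465 / 1000) * ((86 / 100) -
    s))) ≤ 0) (c4 : (106 / 100) - (x + s) ≤ 0) :
    0 < ((g1 (44 / 100) T x (tt T x) s k ((uu (((44 / 100) + s) - 1) (T + k)) + ((Real.pi * 1) *
      (T + k))) ((uu ((x + s) - 1) ((tt T x) + k)) + ((Real.pi * (-1)) * ((tt T x) + k)))) + (F3 x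
      T)) ∨ 0 < ((g1 (44 / 100) T x (tt T x) s k ((uu (((44 / 100) + s) - 1) (T + k)) + ((Real.pi
      * (-1)) * (T + k))) ((uu ((x + s) - 1) ((tt T x) + k)) + ((Real.pi * (-1)) * ((tt T x) +
      k)))) + (F3 x T)) := by
  have h : chkT [(add (eg1 (q 44 100) (var 1) (var 0) (et (var 0) (var 1)) (var 2) (var 3) (add (E.uu (sub
      (add (q 44 100) (var 2)) (q 1 1)) (add (var 1) (var 3))) (mul (mul pi (q 1 1)) (add (var 1)
      (var 3)))) (add (E.uu (sub (add (var 0) (var 2)) (q 1 1)) (add (et (var 0) (var 1)) (var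
      3))) (mul (mul pi (q (-1) 1)) (add (et (var 0) (var 1)) (var 3))))) (eF3 (var 0) (var 1))),
      (add (eg1 (q 44 100) (var 1) (var 0) (et (var 0) (var 1)) (var 2) (var 3) (add (E.uu (sub
      (add (q 44 100) (var 2)) (q 1 1)) (add (var 1) (var 3))) (mul (mul pi (q (-1) 1)) (add (var
      1) (var 3)))) (add (E.uu (sub (add (var 0) (var 2)) (q 1 1)) (add (et (var 0) (var 1)) (var
      3))) (mul (mul pi (q (-1) 1)) (add (et (var 0) (var 1)) (var 3))))) (eF3 (var 0) (var 1))),
      (add (et (var 0) (var 1)) (var 3)), (sub (add (var 1) (var 3)) (q 187 1000)), (sub (var 3)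
      (add (q 0 1000) (mul (q 290 1000) (sub (q 86 100) (var 2))))), (sub (neg (var 3)) (add (q 0
      1000) (mul (q 465 1000) (sub (q 86 100) (var 2))))), (sub (q 106 100) (add (var 0) (var
      2)))] 18
      49754982973432168788259
      [V.of 10000 7500 8000 16, V.of 10000 (-180) 985 16, V.of 10000 5900 7000 16, V.of 10000
        (-930) 1450 16] = true := by
    decide +kernel
  obtain ⟨f, hf, hp⟩ := chkT4 h (by norm_num) (x := x) (y := T) (z := s) (w := k)
    (le_trans (by norm_num) a0) (le_trans b0 (by norm_num))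
    (le_trans (by norm_num) a1) (le_trans b1 (by norm_num))
    (le_trans (by norm_num) a2) (le_trans b2 (by norm_num))
    (le_trans (by norm_num) a3) (le_trans b3 (by norm_num))
  simp only [List.mem_cons, List.not_mem_nil, or_false] at hf
  rcases hf with rfl | rfl | rfl | rfl | rfl | rfl | rfl
  · simp only [eg1_val, eg2_val, eF1_val, eG1_val, eF3_val, et_val, nt_val, nm_val, nfZ_val, nfP_val, np1_val,
      np2_val, MR.e1_val, MR.e2_val, NumU.E.val, NumI.E.val, NumI.lkR] at hp
    push_cast at hp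
    try simp only [div_one] at hp
    left
    linarith only [hp]
  · simp only [eg1_val, eg2_val, eF1_val, eG1_val, eF3_val, et_val, nt_val, nm_val, nfZ_val, nfP_val, np1_val,
      np2_val, MR.e1_val, MR.e2_val, NumU.E.val, NumI.E.val, NumI.lkR] at hp
    push_cast at hp
    try simp only [div_one] at hp
    right
    linarith only [hp]
  · simp only [eg1_val, eg2_val, eF1_val, eG1_val, eF3_val, et_val, nt_val, nm_val, nfZ_val, nfP_val, np1_val,
      np2_val, MR.e1_val, MR.e2_val, NumU.E.val, NumI.E.val, NumI.lkR] at hp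
    push_cast at hp
    try simp only [div_one] at hp
    exfalso
    linarith only [c0, hp]
  · simp only [eg1_val, eg2_val, eF1_val, eG1_val, eF3_val, et_val, nt_val, nm_val, nfZ_val, nfP_val, np1_val,
      np2_val, MR.e1_val, MR.e2_val, NumU.E.val, NumI.E.val, NumI.lkR] at hp
    push_cast at hp
    try simp only [div_one] at hp
    exfalso
    linarith only [c1, hp]
  · simp only [eg1_val, eg2_val, eF1_val, eG1_val, eF3_val, et_val, nt_val, nm_val, nfZ_val, nfP_val, np1_val,
      np2_val, MR.e1_val, MR.e2_val, NumU.E.val, NumI.E.val, NumI.lkR] at hp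
    push_cast at hp
    try simp only [div_one] at hp
    exfalso
    linarith only [c2, hp]
  · simp only [eg1_val, eg2_val, eF1_val, eG1_val, eF3_val, et_val, nt_val, nm_val, nfZ_val, nfP_val, np1_val,
      np2_val, MR.e1_val, MR.e2_val, NumU.E.val, NumI.E.val, NumI.lkR] at hp
    push_cast at hp
    try simp only [div_one] at hp
    exfalso
    linarith only [c3, hp]
  · simp only [eg1_val, eg2_val, eF1_val, eG1_val, eF3_val, et_val, nt_val, nm_val, nfZ_val, nfP_val, np1_val,
      np2_val, MR.e1_val, MR.e2_val, NumU.E.val, NumI.E.val, NumI.lkR] at hp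
    push_cast at hp
    try simp only [div_one] at hp
    exfalso
    linarith only [a0, a2, hp]

/-- 1 boxes -/
theorem Y1Dp {x T s k : ℝ} (a0 : 7500 / 10000 ≤ x) (b0 : x ≤ 8000 / 10000) (a1 : 50 / 10000 ≤ T) (b1 : T ≤ 790 / 10000)
    (a2 : 7000 / 10000 ≤ s) (b2 : s ≤ 8000 / 10000) (a3 : 0 / 10000 ≤ k) (b3 : k ≤ 280 / 10000)
    (c0 : -((tt T x) + k) ≤ 0) (c1 : (T + k) - (130 / 1000) ≤ 0) (c2 : k - ((0 / 1000) + ((273 /
    1000) * ((80 / 100) - s))) ≤ 0) :
    0 < ((g1 (44 / 100) T x (tt T x) s k ((uu (((44 / 100) + s) - 1) (T + k)) + ((Real.pi * 1) *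
      (T + k))) ((uu ((x + s) - 1) ((tt T x) + k)) + ((Real.pi * 1) * ((tt T x) + k)))) + (F3 x
      T)) ∨ 0 < ((g1 (44 / 100) T x (tt T x) s k ((uu (((44 / 100) + s) - 1) (T + k)) + ((Real.pi
      * (-1)) * (T + k))) ((uu ((x + s) - 1) ((tt T x) + k)) + ((Real.pi * 1) * ((tt T x) + k))))
      + (F3 x T)) := by
  have h : chkT [(add (eg1 (q 44 100) (var 1) (var 0) (et (var 0) (var 1)) (var 2) (var 3) (add (E.uu (sub
      (add (q 44 100) (var 2)) (q 1 1)) (add (var 1) (var 3))) (mul (mul pi (q 1 1)) (add (var 1)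
      (var 3)))) (add (E.uu (sub (add (var 0) (var 2)) (q 1 1)) (add (et (var 0) (var 1)) (var
      3))) (mul (mul pi (q 1 1)) (add (et (var 0) (var 1)) (var 3))))) (eF3 (var 0) (var 1))),
      (add (eg1 (q 44 100) (var 1) (var 0) (et (var 0) (var 1)) (var 2) (var 3) (add (E.uu (sub
      (add (q 44 100) (var 2)) (q 1 1)) (add (var 1) (var 3))) (mul (mul pi (q (-1) 1)) (add (var
      1) (var 3)))) (add (E.uu (sub (add (var 0) (var 2)) (q 1 1)) (add (et (var 0) (var 1)) (var
      3))) (mul (mul pi (q 1 1)) (add (et (var 0) (var 1)) (var 3))))) (eF3 (var 0) (var 1))),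
      (neg (add (et (var 0) (var 1)) (var 3))), (sub (add (var 1) (var 3)) (q 130 1000)), (sub
      (var 3) (add (q 0 1000) (mul (q 273 1000) (sub (q 80 100) (var 2)))))] 18
      8
      [V.of 10000 7500 8000 16, V.of 10000 50 790 16, V.of 10000 7000 8000 16, V.of 10000 0 280
        16] = true := by
    decide +kernel
  obtain ⟨f, hf, hp⟩ := chkT4 h (by norm_num) (x := x) (y := T) (z := s) (w := k)
    (le_trans (by norm_num) a0) (le_trans b0 (by norm_num))
    (le_trans (by norm_num) a1) (le_trans b1 (by norm_num))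
    (le_trans (by norm_num) a2) (le_trans b2 (by norm_num))
    (le_trans (by norm_num) a3) (le_trans b3 (by norm_num))
  simp only [List.mem_cons, List.not_mem_nil, or_false] at hf
  rcases hf with rfl | rfl | rfl | rfl | rfl
  · simp only [eg1_val, eg2_val, eF1_val, eG1_val, eF3_val, et_val, nt_val, nm_val, nfZ_val, nfP_val, np1_val,
      np2_val, MR.e1_val, MR.e2_val, NumU.E.val, NumI.E.val, NumI.lkR] at hp
    push_cast at hp
    try simp only [div_one] at hp
    left
    linarith only [hp]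
  · simp only [eg1_val, eg2_val, eF1_val, eG1_val, eF3_val, et_val, nt_val, nm_val, nfZ_val, nfP_val, np1_val,
      np2_val, MR.e1_val, MR.e2_val, NumU.E.val, NumI.E.val, NumI.lkR] at hp
    push_cast at hp
    try simp only [div_one] at hp
    right
    linarith only [hp]
  · simp only [eg1_val, eg2_val, eF1_val, eG1_val, eF3_val, et_val, nt_val, nm_val, nfZ_val, nfP_val, np1_val,
      np2_val, MR.e1_val, MR.e2_val, NumU.E.val, NumI.E.val, NumI.lkR] at hp
    push_cast at hp
    try simp only [div_one] at hp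
    exfalso
    linarith only [c0, hp]
  · simp only [eg1_val, eg2_val, eF1_val, eG1_val, eF3_val, et_val, nt_val, nm_val, nfZ_val, nfP_val, np1_val,
      np2_val, MR.e1_val, MR.e2_val, NumU.E.val, NumI.E.val, NumI.lkR] at hp
    push_cast at hp
    try simp only [div_one] at hp
    exfalso
    linarith only [b1, b3, hp]
  · simp only [eg1_val, eg2_val, eF1_val, eG1_val, eF3_val, et_val, nt_val, nm_val, nfZ_val, nfP_val, np1_val,
      np2_val, MR.e1_val, MR.e2_val, NumU.E.val, NumI.E.val, NumI.lkR] at hp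
    push_cast at hp
    try simp only [div_one] at hp
    exfalso
    linarith only [c2, hp]

/-- 1 boxes -/
theorem Y1Dn {x T s k : ℝ} (a0 : 7500 / 10000 ≤ x) (b0 : x ≤ 8000 / 10000) (a1 : 50 / 10000 ≤ T) (b1 : T ≤ 790 / 10000)
    (a2 : 7000 / 10000 ≤ s) (b2 : s ≤ 8000 / 10000) (a3 : 0 / 10000 ≤ k) (b3 : k ≤ 280 / 10000)
    (c0 : (tt T x) + k ≤ 0) (c1 : (T + k) - (130 / 1000) ≤ 0) (c2 : k - ((0 / 1000) + ((273 /
    1000) * ((80 / 100) - s))) ≤ 0) :
    0 < ((g1 (44 / 100) T x (tt T x) s k ((uu (((44 / 100) + s) - 1) (T + k)) + ((Real.pi * 1) *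
      (T + k))) ((uu ((x + s) - 1) ((tt T x) + k)) + ((Real.pi * (-1)) * ((tt T x) + k)))) + (F3 x
      T)) ∨ 0 < ((g1 (44 / 100) T x (tt T x) s k ((uu (((44 / 100) + s) - 1) (T + k)) + ((Real.pi
      * (-1)) * (T + k))) ((uu ((x + s) - 1) ((tt T x) + k)) + ((Real.pi * (-1)) * ((tt T x) +
      k)))) + (F3 x T)) := by
  have h : chkT [(add (eg1 (q 44 100) (var 1) (var 0) (et (var 0) (var 1)) (var 2) (var 3) (add (E.uu (sub
      (add (q 44 100) (var 2)) (q 1 1)) (add (var 1) (var 3))) (mul (mul pi (q 1 1)) (add (var 1)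
      (var 3)))) (add (E.uu (sub (add (var 0) (var 2)) (q 1 1)) (add (et (var 0) (var 1)) (var
      3))) (mul (mul pi (q (-1) 1)) (add (et (var 0) (var 1)) (var 3))))) (eF3 (var 0) (var 1))),
      (add (eg1 (q 44 100) (var 1) (var 0) (et (var 0) (var 1)) (var 2) (var 3) (add (E.uu (sub
      (add (q 44 100) (var 2)) (q 1 1)) (add (var 1) (var 3))) (mul (mul pi (q (-1) 1)) (add (var
      1) (var 3)))) (add (E.uu (sub (add (var 0) (var 2)) (q 1 1)) (add (et (var 0) (var 1)) (var
      3))) (mul (mul pi (q (-1) 1)) (add (et (var 0) (var 1)) (var 3))))) (eF3 (var 0) (var 1))),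
      (add (et (var 0) (var 1)) (var 3)), (sub (add (var 1) (var 3)) (q 130 1000)), (sub (var 3)
      (add (q 0 1000) (mul (q 273 1000) (sub (q 80 100) (var 2)))))] 18
      8
      [V.of 10000 7500 8000 16, V.of 10000 50 790 16, V.of 10000 7000 8000 16, V.of 10000 0 280
        16] = true := by
    decide +kernel
  obtain ⟨f, hf, hp⟩ := chkT4 h (by norm_num) (x := x) (y := T) (z := s) (w := k)
    (le_trans (by norm_num) a0) (le_trans b0 (by norm_num))
    (le_trans (by norm_num) a1) (le_trans b1 (by norm_num))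
    (le_trans (by norm_num) a2) (le_trans b2 (by norm_num))
    (le_trans (by norm_num) a3) (le_trans b3 (by norm_num))
  simp only [List.mem_cons, List.not_mem_nil, or_false] at hf
  rcases hf with rfl | rfl | rfl | rfl | rfl
  · simp only [eg1_val, eg2_val, eF1_val, eG1_val, eF3_val, et_val, nt_val, nm_val, nfZ_val, nfP_val, np1_val,
      np2_val, MR.e1_val, MR.e2_val, NumU.E.val, NumI.E.val, NumI.lkR] at hp
    push_cast at hp
    try simp only [div_one] at hp
    left
    linarith only [hp]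
  · simp only [eg1_val, eg2_val, eF1_val, eG1_val, eF3_val, et_val, nt_val, nm_val, nfZ_val, nfP_val, np1_val,
      np2_val, MR.e1_val, MR.e2_val, NumU.E.val, NumI.E.val, NumI.lkR] at hp
    push_cast at hp
    try simp only [div_one] at hp
    right
    linarith only [hp]
  · simp only [eg1_val, eg2_val, eF1_val, eG1_val, eF3_val, et_val, nt_val, nm_val, nfZ_val, nfP_val, np1_val,
      np2_val, MR.e1_val, MR.e2_val, NumU.E.val, NumI.E.val, NumI.lkR] at hp
    push_cast at hp
    try simp only [div_one] at hp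
    exfalso
    linarith only [c0, hp]
  · simp only [eg1_val, eg2_val, eF1_val, eG1_val, eF3_val, et_val, nt_val, nm_val, nfZ_val, nfP_val, np1_val,
      np2_val, MR.e1_val, MR.e2_val, NumU.E.val, NumI.E.val, NumI.lkR] at hp
    push_cast at hp
    try simp only [div_one] at hp
    exfalso
    linarith only [b1, b3, hp]
  · simp only [eg1_val, eg2_val, eF1_val, eG1_val, eF3_val, et_val, nt_val, nm_val, nfZ_val, nfP_val, np1_val,
      np2_val, MR.e1_val, MR.e2_val, NumU.E.val, NumI.E.val, NumI.lkR] at hp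
    push_cast at hp
    try simp only [div_one] at hp
    exfalso
    linarith only [c2, hp]

/-- 30 boxes -/
theorem Y2Ap {x T s k : ℝ} (a0 : 7500 / 10000 ≤ x) (b0 : x ≤ 8000 / 10000) (a1 : -180 / 10000 ≤ T) (b1 : T ≤ 985 / 10000)
    (a2 : 2600 / 10000 ≤ s) (b2 : s ≤ 5300 / 10000) (a3 : -985 / 10000 ≤ k) (b3 : k ≤ 960 / 10000)
    (c0 : -(k - (tt T x)) ≤ 0) (c1 : k - ((11 / 1000) + ((320 / 1000) * ((63 / 100) - s))) ≤ 0)
    (c2 : (-k) - ((0 / 1000) + ((340 / 1000) * ((80 / 100) - s))) ≤ 0) (c3 : (106 / 100) - (x + s)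
    ≤ 0) :
    0 < ((g2 (44 / 100) T x (tt T x) s k (uu ((44 / 100) + s) (k - T)) ((uu ((x + s) - 1) (k -
      (tt T x))) + ((Real.pi * 1) * (k - (tt T x))))) - (F3 x T)) := by
  have h : chkT [(sub (eg2 (q 44 100) (var 1) (var 0) (et (var 0) (var 1)) (var 2) (var 3) (E.uu (add (q 44
      100) (var 2)) (sub (var 3) (var 1))) (add (E.uu (sub (add (var 0) (var 2)) (q 1 1)) (sub
      (var 3) (et (var 0) (var 1)))) (mul (mul pi (q 1 1)) (sub (var 3) (et (var 0) (var 1))))))
      (eF3 (var 0) (var 1))), (neg (sub (var 3) (et (var 0) (var 1)))), (sub (var 3) (add (q 11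
      1000) (mul (q 320 1000) (sub (q 63 100) (var 2))))), (sub (neg (var 3)) (add (q 0 1000) (mul
      (q 340 1000) (sub (q 80 100) (var 2))))), (sub (q 106 100) (add (var 0) (var 2)))] 18
      72686551744451781219718637875157826326320303979588852145955348701905442
      [V.of 10000 7500 8000 16, V.of 10000 (-180) 985 16, V.of 10000 2600 5300 16, V.of 10000
        (-985) 960 16] = true := by
    decide +kernel
  obtain ⟨f, hf, hp⟩ := chkT4 h (by norm_num) (x := x) (y := T) (z := s) (w := k)
    (le_trans (by norm_num) a0) (le_trans b0 (by norm_num))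
    (le_trans (by norm_num) a1) (le_trans b1 (by norm_num))
    (le_trans (by norm_num) a2) (le_trans b2 (by norm_num))
    (le_trans (by norm_num) a3) (le_trans b3 (by norm_num))
  simp only [List.mem_cons, List.not_mem_nil, or_false] at hf
  rcases hf with rfl | rfl | rfl | rfl | rfl
  · simp only [eg1_val, eg2_val, eF1_val, eG1_val, eF3_val, et_val, nt_val, nm_val, nfZ_val, nfP_val, np1_val,
      np2_val, MR.e1_val, MR.e2_val, NumU.E.val, NumI.E.val, NumI.lkR] at hp
    push_cast at hp
    try simp only [div_one] at hp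
    linarith only [hp]
  · simp only [eg1_val, eg2_val, eF1_val, eG1_val, eF3_val, et_val, nt_val, nm_val, nfZ_val, nfP_val, np1_val,
      np2_val, MR.e1_val, MR.e2_val, NumU.E.val, NumI.E.val, NumI.lkR] at hp
    push_cast at hp
    try simp only [div_one] at hp
    exfalso
    linarith only [c0, hp]
  · simp only [eg1_val, eg2_val, eF1_val, eG1_val, eF3_val, et_val, nt_val, nm_val, nfZ_val, nfP_val, np1_val,
      np2_val, MR.e1_val, MR.e2_val, NumU.E.val, NumI.E.val, NumI.lkR] at hp
    push_cast at hp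
    try simp only [div_one] at hp
    exfalso
    linarith only [c1, hp]
  · simp only [eg1_val, eg2_val, eF1_val, eG1_val, eF3_val, et_val, nt_val, nm_val, nfZ_val, nfP_val, np1_val,
      np2_val, MR.e1_val, MR.e2_val, NumU.E.val, NumI.E.val, NumI.lkR] at hp
    push_cast at hp
    try simp only [div_one] at hp
    exfalso
    linarith only [c2, hp]
  · simp only [eg1_val, eg2_val, eF1_val, eG1_val, eF3_val, et_val, nt_val, nm_val, nfZ_val, nfP_val, np1_val,
      np2_val, MR.e1_val, MR.e2_val, NumU.E.val, NumI.E.val, NumI.lkR] at hp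
    push_cast at hp
    try simp only [div_one] at hp
    exfalso
    linarith only [c3, hp]

/-- 26 boxes -/
theorem Y2Bp {x T s k : ℝ} (a0 : 7500 / 10000 ≤ x) (b0 : x ≤ 8000 / 10000) (a1 : -180 / 10000 ≤ T) (b1 : T ≤ 985 / 10000)
    (a2 : 5300 / 10000 ≤ s) (b2 : s ≤ 5900 / 10000) (a3 : -985 / 10000 ≤ k) (b3 : k ≤ 960 / 10000)
    (c0 : -(k - (tt T x)) ≤ 0) (c1 : k - ((11 / 1000) + ((320 / 1000) * ((63 / 100) - s))) ≤ 0)
    (c2 : (-k) - ((0 / 1000) + ((340 / 1000) * ((80 / 100) - s))) ≤ 0) (c3 : (106 / 100) - (x + s)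
    ≤ 0) :
    0 < ((g2 (44 / 100) T x (tt T x) s k (((uu (3 / 100) (k - T)) + ((Real.pi * 1) * (k - T))) -
      ((34 / 100) * ((103 / 100) - ((44 / 100) + s)))) ((uu ((x + s) - 1) (k - (tt T x))) +
      ((Real.pi * 1) * (k - (tt T x))))) - (F3 x T)) ∨ 0 < ((g2 (44 / 100) T x (tt T x) s k (((uu
      (3 / 100) (k - T)) + ((Real.pi * (-1)) * (k - T))) - ((34 / 100) * ((103 / 100) - ((44 /
      100) + s)))) ((uu ((x + s) - 1) (k - (tt T x))) + ((Real.pi * 1) * (k - (tt T x))))) - (F3 x
      T)) := by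
  have h : chkT [(sub (eg2 (q 44 100) (var 1) (var 0) (et (var 0) (var 1)) (var 2) (var 3) (sub (add (E.uu
      (q 3 100) (sub (var 3) (var 1))) (mul (mul pi (q 1 1)) (sub (var 3) (var 1)))) (mul (q 34
      100) (sub (q 103 100) (add (q 44 100) (var 2))))) (add (E.uu (sub (add (var 0) (var 2)) (q 1
      1)) (sub (var 3) (et (var 0) (var 1)))) (mul (mul pi (q 1 1)) (sub (var 3) (et (var 0) (var
      1)))))) (eF3 (var 0) (var 1))), (sub (eg2 (q 44 100) (var 1) (var 0) (et (var 0) (var 1))
      (var 2) (var 3) (sub (add (E.uu (q 3 100) (sub (var 3) (var 1))) (mul (mul pi (q (-1) 1))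
      (sub (var 3) (var 1)))) (mul (q 34 100) (sub (q 103 100) (add (q 44 100) (var 2))))) (add
      (E.uu (sub (add (var 0) (var 2)) (q 1 1)) (sub (var 3) (et (var 0) (var 1)))) (mul (mul pi
      (q 1 1)) (sub (var 3) (et (var 0) (var 1)))))) (eF3 (var 0) (var 1))), (neg (sub (var 3) (et
      (var 0) (var 1)))), (sub (var 3) (add (q 11 1000) (mul (q 320 1000) (sub (q 63 100) (var
      2))))), (sub (neg (var 3)) (add (q 0 1000) (mul (q 340 1000) (sub (q 80 100) (var 2))))),
      (sub (q 106 100) (add (var 0) (var 2)))] 18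
      18640297605547543210277780895467707015829739420881486783682835
      [V.of 10000 7500 8000 16, V.of 10000 (-180) 985 16, V.of 10000 5300 5900 16, V.of 10000
        (-985) 960 16] = true := by
    decide +kernel
  obtain ⟨f, hf, hp⟩ := chkT4 h (by norm_num) (x := x) (y := T) (z := s) (w := k)
    (le_trans (by norm_num) a0) (le_trans b0 (by norm_num))
    (le_trans (by norm_num) a1) (le_trans b1 (by norm_num))
    (le_trans (by norm_num) a2) (le_trans b2 (by norm_num))
    (le_trans (by norm_num) a3) (le_trans b3 (by norm_num))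
  simp only [List.mem_cons, List.not_mem_nil, or_false] at hf
  rcases hf with rfl | rfl | rfl | rfl | rfl | rfl
  · simp only [eg1_val, eg2_val, eF1_val, eG1_val, eF3_val, et_val, nt_val, nm_val, nfZ_val, nfP_val, np1_val,
      np2_val, MR.e1_val, MR.e2_val, NumU.E.val, NumI.E.val, NumI.lkR] at hp
    push_cast at hp
    try simp only [div_one] at hp
    left
    linarith only [hp]
  · simp only [eg1_val, eg2_val, eF1_val, eG1_val, eF3_val, et_val, nt_val, nm_val, nfZ_val, nfP_val, np1_val,
      np2_val, MR.e1_val, MR.e2_val, NumU.E.val, NumI.E.val, NumI.lkR] at hp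
    push_cast at hp
    try simp only [div_one] at hp
    right
    linarith only [hp]
  · simp only [eg1_val, eg2_val, eF1_val, eG1_val, eF3_val, et_val, nt_val, nm_val, nfZ_val, nfP_val, np1_val,
      np2_val, MR.e1_val, MR.e2_val, NumU.E.val, NumI.E.val, NumI.lkR] at hp
    push_cast at hp
    try simp only [div_one] at hp
    exfalso
    linarith only [c0, hp]
  · simp only [eg1_val, eg2_val, eF1_val, eG1_val, eF3_val, et_val, nt_val, nm_val, nfZ_val, nfP_val, np1_val,
      np2_val, MR.e1_val, MR.e2_val, NumU.E.val, NumI.E.val, NumI.lkR] at hp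
    push_cast at hp
    try simp only [div_one] at hp
    exfalso
    linarith only [c1, hp]
  · simp only [eg1_val, eg2_val, eF1_val, eG1_val, eF3_val, et_val, nt_val, nm_val, nfZ_val, nfP_val, np1_val,
      np2_val, MR.e1_val, MR.e2_val, NumU.E.val, NumI.E.val, NumI.lkR] at hp
    push_cast at hp
    try simp only [div_one] at hp
    exfalso
    linarith only [c2, hp]
  · simp only [eg1_val, eg2_val, eF1_val, eG1_val, eF3_val, et_val, nt_val, nm_val, nfZ_val, nfP_val, np1_val,
      np2_val, MR.e1_val, MR.e2_val, NumU.E.val, NumI.E.val, NumI.lkR] at hp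
    push_cast at hp
    try simp only [div_one] at hp
    exfalso
    linarith only [a0, a2, hp]

/-- 70 boxes -/
theorem Y2Cp {x T s k : ℝ} (a0 : 7500 / 10000 ≤ x) (b0 : x ≤ 8000 / 10000) (a1 : -180 / 10000 ≤ T) (b1 : T ≤ 985 / 10000)
    (a2 : 5900 / 10000 ≤ s) (b2 : s ≤ 8000 / 10000) (a3 : -985 / 10000 ≤ k) (b3 : k ≤ 960 / 10000)
    (c0 : -(k - (tt T x)) ≤ 0) (c1 : k - ((1 / 1000) + ((63 / 1000) * ((80 / 100) - s))) ≤ 0) (c2
    : (-k) - ((0 / 1000) + ((340 / 1000) * ((80 / 100) - s))) ≤ 0) (c3 : (106 / 100) - (x + s) ≤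
    0) :
    0 < ((g2 (44 / 100) T x (tt T x) s k ((uu (((44 / 100) + s) - 1) (k - T)) + ((Real.pi * 1) *
      (k - T))) ((uu ((x + s) - 1) (k - (tt T x))) + ((Real.pi * 1) * (k - (tt T x))))) - (F3 x
      T)) ∨ 0 < ((g2 (44 / 100) T x (tt T x) s k ((uu (((44 / 100) + s) - 1) (k - T)) + ((Real.pi
      * (-1)) * (k - T))) ((uu ((x + s) - 1) (k - (tt T x))) + ((Real.pi * 1) * (k - (tt T x)))))
      - (F3 x T)) := by
  have h : chkT [(sub (eg2 (q 44 100) (var 1) (var 0) (et (var 0) (var 1)) (var 2) (var 3) (add (E.uu (sub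
      (add (q 44 100) (var 2)) (q 1 1)) (sub (var 3) (var 1))) (mul (mul pi (q 1 1)) (sub (var 3)
      (var 1)))) (add (E.uu (sub (add (var 0) (var 2)) (q 1 1)) (sub (var 3) (et (var 0) (var
      1)))) (mul (mul pi (q 1 1)) (sub (var 3) (et (var 0) (var 1)))))) (eF3 (var 0) (var 1))),
      (sub (eg2 (q 44 100) (var 1) (var 0) (et (var 0) (var 1)) (var 2) (var 3) (add (E.uu (sub
      (add (q 44 100) (var 2)) (q 1 1)) (sub (var 3) (var 1))) (mul (mul pi (q (-1) 1)) (sub (var
      3) (var 1)))) (add (E.uu (sub (add (var 0) (var 2)) (q 1 1)) (sub (var 3) (et (var 0) (var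
      1)))) (mul (mul pi (q 1 1)) (sub (var 3) (et (var 0) (var 1)))))) (eF3 (var 0) (var 1))),
      (neg (sub (var 3) (et (var 0) (var 1)))), (sub (var 3) (add (q 1 1000) (mul (q 63 1000) (sub
      (q 80 100) (var 2))))), (sub (neg (var 3)) (add (q 0 1000) (mul (q 340 1000) (sub (q 80 100)
      (var 2))))), (sub (q 106 100) (add (var 0) (var 2)))] 18
      172965502981065390039018096713353017065372527050953988506668319437869991024310728869958434208830837864975363811176154218263739611404730679562972644772436200599793570594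
      [V.of 10000 7500 8000 16, V.of 10000 (-180) 985 16, V.of 10000 5900 8000 16, V.of 10000
        (-985) 960 16] = true := by
    decide +kernel
  obtain ⟨f, hf, hp⟩ := chkT4 h (by norm_num) (x := x) (y := T) (z := s) (w := k)
    (le_trans (by norm_num) a0) (le_trans b0 (by norm_num))
    (le_trans (by norm_num) a1) (le_trans b1 (by norm_num))
    (le_trans (by norm_num) a2) (le_trans b2 (by norm_num))
    (le_trans (by norm_num) a3) (le_trans b3 (by norm_num))
  simp only [List.mem_cons, List.not_mem_nil, or_false] at hf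
  rcases hf with rfl | rfl | rfl | rfl | rfl | rfl
  · simp only [eg1_val, eg2_val, eF1_val, eG1_val, eF3_val, et_val, nt_val, nm_val, nfZ_val, nfP_val, np1_val,
      np2_val, MR.e1_val, MR.e2_val, NumU.E.val, NumI.E.val, NumI.lkR] at hp
    push_cast at hp
    try simp only [div_one] at hp
    left
    linarith only [hp]
  · simp only [eg1_val, eg2_val, eF1_val, eG1_val, eF3_val, et_val, nt_val, nm_val, nfZ_val, nfP_val, np1_val,
      np2_val, MR.e1_val, MR.e2_val, NumU.E.val, NumI.E.val, NumI.lkR] at hp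
    push_cast at hp
    try simp only [div_one] at hp
    right
    linarith only [hp]
  · simp only [eg1_val, eg2_val, eF1_val, eG1_val, eF3_val, et_val, nt_val, nm_val, nfZ_val, nfP_val, np1_val,
      np2_val, MR.e1_val, MR.e2_val, NumU.E.val, NumI.E.val, NumI.lkR] at hp
    push_cast at hp
    try simp only [div_one] at hp
    exfalso
    linarith only [c0, hp]
  · simp only [eg1_val, eg2_val, eF1_val, eG1_val, eF3_val, et_val, nt_val, nm_val, nfZ_val, nfP_val, np1_val,
      np2_val, MR.e1_val, MR.e2_val, NumU.E.val, NumI.E.val, NumI.lkR] at hp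
    push_cast at hp
    try simp only [div_one] at hp
    exfalso
    linarith only [c1, hp]
  · simp only [eg1_val, eg2_val, eF1_val, eG1_val, eF3_val, et_val, nt_val, nm_val, nfZ_val, nfP_val, np1_val,
      np2_val, MR.e1_val, MR.e2_val, NumU.E.val, NumI.E.val, NumI.lkR] at hp
    push_cast at hp
    try simp only [div_one] at hp
    exfalso
    linarith only [c2, hp]
  · simp only [eg1_val, eg2_val, eF1_val, eG1_val, eF3_val, et_val, nt_val, nm_val, nfZ_val, nfP_val, np1_val,
      np2_val, MR.e1_val, MR.e2_val, NumU.E.val, NumI.E.val, NumI.lkR] at hp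
    push_cast at hp
    try simp only [div_one] at hp
    exfalso
    linarith only [a0, a2, hp]

/-- 18 boxes -/
theorem Y2An {x T s k : ℝ} (a0 : 7500 / 10000 ≤ x) (b0 : x ≤ 8000 / 10000) (a1 : -180 / 10000 ≤ T) (b1 : T ≤ 985 / 10000)
    (a2 : 2600 / 10000 ≤ s) (b2 : s ≤ 5300 / 10000) (a3 : -985 / 10000 ≤ k) (b3 : k ≤ 960 / 10000)
    (c0 : k - (tt T x) ≤ 0) (c1 : k - ((11 / 1000) + ((320 / 1000) * ((63 / 100) - s))) ≤ 0) (c2 :
    (-k) - ((0 / 1000) + ((340 / 1000) * ((80 / 100) - s))) ≤ 0) (c3 : (106 / 100) - (x + s) ≤ 0)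
    :
    0 < ((g2 (44 / 100) T x (tt T x) s k (uu ((44 / 100) + s) (k - T)) ((uu ((x + s) - 1) (k -
      (tt T x))) + ((Real.pi * (-1)) * (k - (tt T x))))) - (F3 x T)) := by
  have h : chkT [(sub (eg2 (q 44 100) (var 1) (var 0) (et (var 0) (var 1)) (var 2) (var 3) (E.uu (add (q 44
      100) (var 2)) (sub (var 3) (var 1))) (add (E.uu (sub (add (var 0) (var 2)) (q 1 1)) (sub
      (var 3) (et (var 0) (var 1)))) (mul (mul pi (q (-1) 1)) (sub (var 3) (et (var 0) (var
      1)))))) (eF3 (var 0) (var 1))), (sub (var 3) (et (var 0) (var 1))), (sub (var 3) (add (q 11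
      1000) (mul (q 320 1000) (sub (q 63 100) (var 2))))), (sub (neg (var 3)) (add (q 0 1000) (mul
      (q 340 1000) (sub (q 80 100) (var 2))))), (sub (q 106 100) (add (var 0) (var 2)))] 18
      741656309719490368905687017961566297522722
      [V.of 10000 7500 8000 16, V.of 10000 (-180) 985 16, V.of 10000 2600 5300 16, V.of 10000
        (-985) 960 16] = true := by
    decide +kernel
  obtain ⟨f, hf, hp⟩ := chkT4 h (by norm_num) (x := x) (y := T) (z := s) (w := k)
    (le_trans (by norm_num) a0) (le_trans b0 (by norm_num))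
    (le_trans (by norm_num) a1) (le_trans b1 (by norm_num))
    (le_trans (by norm_num) a2) (le_trans b2 (by norm_num))
    (le_trans (by norm_num) a3) (le_trans b3 (by norm_num))
  simp only [List.mem_cons, List.not_mem_nil, or_false] at hf
  rcases hf with rfl | rfl | rfl | rfl | rfl
  · simp only [eg1_val, eg2_val, eF1_val, eG1_val, eF3_val, et_val, nt_val, nm_val, nfZ_val, nfP_val, np1_val,
      np2_val, MR.e1_val, MR.e2_val, NumU.E.val, NumI.E.val, NumI.lkR] at hp
    push_cast at hp
    try simp only [div_one] at hp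
    linarith only [hp]
  · simp only [eg1_val, eg2_val, eF1_val, eG1_val, eF3_val, et_val, nt_val, nm_val, nfZ_val, nfP_val, np1_val,
      np2_val, MR.e1_val, MR.e2_val, NumU.E.val, NumI.E.val, NumI.lkR] at hp
    push_cast at hp
    try simp only [div_one] at hp
    exfalso
    linarith only [c0, hp]
  · simp only [eg1_val, eg2_val, eF1_val, eG1_val, eF3_val, et_val, nt_val, nm_val, nfZ_val, nfP_val, np1_val,
      np2_val, MR.e1_val, MR.e2_val, NumU.E.val, NumI.E.val, NumI.lkR] at hp
    push_cast at hp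
    try simp only [div_one] at hp
    exfalso
    linarith only [c1, hp]
  · simp only [eg1_val, eg2_val, eF1_val, eG1_val, eF3_val, et_val, nt_val, nm_val, nfZ_val, nfP_val, np1_val,
      np2_val, MR.e1_val, MR.e2_val, NumU.E.val, NumI.E.val, NumI.lkR] at hp
    push_cast at hp
    try simp only [div_one] at hp
    exfalso
    linarith only [c2, hp]
  · simp only [eg1_val, eg2_val, eF1_val, eG1_val, eF3_val, et_val, nt_val, nm_val, nfZ_val, nfP_val, np1_val,
      np2_val, MR.e1_val, MR.e2_val, NumU.E.val, NumI.E.val, NumI.lkR] at hp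
    push_cast at hp
    try simp only [div_one] at hp
    exfalso
    linarith only [c3, hp]

/-- 5 boxes -/
theorem Y2Bn {x T s k : ℝ} (a0 : 7500 / 10000 ≤ x) (b0 : x ≤ 8000 / 10000) (a1 : -180 / 10000 ≤ T) (b1 : T ≤ 985 / 10000)
    (a2 : 5300 / 10000 ≤ s) (b2 : s ≤ 5900 / 10000) (a3 : -985 / 10000 ≤ k) (b3 : k ≤ 960 / 10000)
    (c0 : k - (tt T x) ≤ 0) (c1 : k - ((11 / 1000) + ((320 / 1000) * ((63 / 100) - s))) ≤ 0) (c2 :
    (-k) - ((0 / 1000) + ((340 / 1000) * ((80 / 100) - s))) ≤ 0) (c3 : (106 / 100) - (x + s) ≤ 0)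
    :
    0 < ((g2 (44 / 100) T x (tt T x) s k (((uu (3 / 100) (k - T)) + ((Real.pi * 1) * (k - T))) -
      ((34 / 100) * ((103 / 100) - ((44 / 100) + s)))) ((uu ((x + s) - 1) (k - (tt T x))) +
      ((Real.pi * (-1)) * (k - (tt T x))))) - (F3 x T)) ∨ 0 < ((g2 (44 / 100) T x (tt T x) s k
      (((uu (3 / 100) (k - T)) + ((Real.pi * (-1)) * (k - T))) - ((34 / 100) * ((103 / 100) - ((44
      / 100) + s)))) ((uu ((x + s) - 1) (k - (tt T x))) + ((Real.pi * (-1)) * (k - (tt T x))))) -
      (F3 x T)) := by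
  have h : chkT [(sub (eg2 (q 44 100) (var 1) (var 0) (et (var 0) (var 1)) (var 2) (var 3) (sub (add (E.uu
      (q 3 100) (sub (var 3) (var 1))) (mul (mul pi (q 1 1)) (sub (var 3) (var 1)))) (mul (q 34
      100) (sub (q 103 100) (add (q 44 100) (var 2))))) (add (E.uu (sub (add (var 0) (var 2)) (q 1
      1)) (sub (var 3) (et (var 0) (var 1)))) (mul (mul pi (q (-1) 1)) (sub (var 3) (et (var 0)
      (var 1)))))) (eF3 (var 0) (var 1))), (sub (eg2 (q 44 100) (var 1) (var 0) (et (var 0) (var
      1)) (var 2) (var 3) (sub (add (E.uu (q 3 100) (sub (var 3) (var 1))) (mul (mul pi (q (-1)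
      1)) (sub (var 3) (var 1)))) (mul (q 34 100) (sub (q 103 100) (add (q 44 100) (var 2)))))
      (add (E.uu (sub (add (var 0) (var 2)) (q 1 1)) (sub (var 3) (et (var 0) (var 1)))) (mul (mul
      pi (q (-1) 1)) (sub (var 3) (et (var 0) (var 1)))))) (eF3 (var 0) (var 1))), (sub (var 3)
      (et (var 0) (var 1))), (sub (var 3) (add (q 11 1000) (mul (q 320 1000) (sub (q 63 100) (var
      2))))), (sub (neg (var 3)) (add (q 0 1000) (mul (q 340 1000) (sub (q 80 100) (var 2))))),
      (sub (q 106 100) (add (var 0) (var 2)))] 18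
      45517871379
      [V.of 10000 7500 8000 16, V.of 10000 (-180) 985 16, V.of 10000 5300 5900 16, V.of 10000
        (-985) 960 16] = true := by
    decide +kernel
  obtain ⟨f, hf, hp⟩ := chkT4 h (by norm_num) (x := x) (y := T) (z := s) (w := k)
    (le_trans (by norm_num) a0) (le_trans b0 (by norm_num))
    (le_trans (by norm_num) a1) (le_trans b1 (by norm_num))
    (le_trans (by norm_num) a2) (le_trans b2 (by norm_num))
    (le_trans (by norm_num) a3) (le_trans b3 (by norm_num))
  simp only [List.mem_cons, List.not_mem_nil, or_false] at hf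
  rcases hf with rfl | rfl | rfl | rfl | rfl | rfl
  · simp only [eg1_val, eg2_val, eF1_val, eG1_val, eF3_val, et_val, nt_val, nm_val, nfZ_val, nfP_val, np1_val,
      np2_val, MR.e1_val, MR.e2_val, NumU.E.val, NumI.E.val, NumI.lkR] at hp
    push_cast at hp
    try simp only [div_one] at hp
    left
    linarith only [hp]
  · simp only [eg1_val, eg2_val, eF1_val, eG1_val, eF3_val, et_val, nt_val, nm_val, nfZ_val, nfP_val, np1_val,
      np2_val, MR.e1_val, MR.e2_val, NumU.E.val, NumI.E.val, NumI.lkR] at hp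
    push_cast at hp
    try simp only [div_one] at hp
    right
    linarith only [hp]
  · simp only [eg1_val, eg2_val, eF1_val, eG1_val, eF3_val, et_val, nt_val, nm_val, nfZ_val, nfP_val, np1_val,
      np2_val, MR.e1_val, MR.e2_val, NumU.E.val, NumI.E.val, NumI.lkR] at hp
    push_cast at hp
    try simp only [div_one] at hp
    exfalso
    linarith only [c0, hp]
  · simp only [eg1_val, eg2_val, eF1_val, eG1_val, eF3_val, et_val, nt_val, nm_val, nfZ_val, nfP_val, np1_val,
      np2_val, MR.e1_val, MR.e2_val, NumU.E.val, NumI.E.val, NumI.lkR] at hp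
    push_cast at hp
    try simp only [div_one] at hp
    exfalso
    linarith only [c1, hp]
  · simp only [eg1_val, eg2_val, eF1_val, eG1_val, eF3_val, et_val, nt_val, nm_val, nfZ_val, nfP_val, np1_val,
      np2_val, MR.e1_val, MR.e2_val, NumU.E.val, NumI.E.val, NumI.lkR] at hp
    push_cast at hp
    try simp only [div_one] at hp
    exfalso
    linarith only [c2, hp]
  · simp only [eg1_val, eg2_val, eF1_val, eG1_val, eF3_val, et_val, nt_val, nm_val, nfZ_val, nfP_val, np1_val,
      np2_val, MR.e1_val, MR.e2_val, NumU.E.val, NumI.E.val, NumI.lkR] at hp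
    push_cast at hp
    try simp only [div_one] at hp
    exfalso
    linarith only [a0, a2, hp]

/-- 27 boxes -/
theorem Y2Cn {x T s k : ℝ} (a0 : 7500 / 10000 ≤ x) (b0 : x ≤ 8000 / 10000) (a1 : -180 / 10000 ≤ T) (b1 : T ≤ 985 / 10000)
    (a2 : 5900 / 10000 ≤ s) (b2 : s ≤ 8000 / 10000) (a3 : -985 / 10000 ≤ k) (b3 : k ≤ 960 / 10000)
    (c0 : k - (tt T x) ≤ 0) (c1 : k - ((1 / 1000) + ((63 / 1000) * ((80 / 100) - s))) ≤ 0) (c2 :
    (-k) - ((0 / 1000) + ((340 / 1000) * ((80 / 100) - s))) ≤ 0) (c3 : (106 / 100) - (x + s) ≤ 0)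
    :
    0 < ((g2 (44 / 100) T x (tt T x) s k ((uu (((44 / 100) + s) - 1) (k - T)) + ((Real.pi * 1) *
      (k - T))) ((uu ((x + s) - 1) (k - (tt T x))) + ((Real.pi * (-1)) * (k - (tt T x))))) - (F3 x
      T)) ∨ 0 < ((g2 (44 / 100) T x (tt T x) s k ((uu (((44 / 100) + s) - 1) (k - T)) + ((Real.pi
      * (-1)) * (k - T))) ((uu ((x + s) - 1) (k - (tt T x))) + ((Real.pi * (-1)) * (k - (tt T
      x))))) - (F3 x T)) := by
  have h : chkT [(sub (eg2 (q 44 100) (var 1) (var 0) (et (var 0) (var 1)) (var 2) (var 3) (add (E.uu (sub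
      (add (q 44 100) (var 2)) (q 1 1)) (sub (var 3) (var 1))) (mul (mul pi (q 1 1)) (sub (var 3)
      (var 1)))) (add (E.uu (sub (add (var 0) (var 2)) (q 1 1)) (sub (var 3) (et (var 0) (var
      1)))) (mul (mul pi (q (-1) 1)) (sub (var 3) (et (var 0) (var 1)))))) (eF3 (var 0) (var 1))),
      (sub (eg2 (q 44 100) (var 1) (var 0) (et (var 0) (var 1)) (var 2) (var 3) (add (E.uu (sub
      (add (q 44 100) (var 2)) (q 1 1)) (sub (var 3) (var 1))) (mul (mul pi (q (-1) 1)) (sub (var
      3) (var 1)))) (add (E.uu (sub (add (var 0) (var 2)) (q 1 1)) (sub (var 3) (et (var 0) (var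
      1)))) (mul (mul pi (q (-1) 1)) (sub (var 3) (et (var 0) (var 1)))))) (eF3 (var 0) (var 1))),
      (sub (var 3) (et (var 0) (var 1))), (sub (var 3) (add (q 1 1000) (mul (q 63 1000) (sub (q 80
      100) (var 2))))), (sub (neg (var 3)) (add (q 0 1000) (mul (q 340 1000) (sub (q 80 100) (var
      2))))), (sub (q 106 100) (add (var 0) (var 2)))] 18
      4386398481688193702375810664237478088901318743387180312365830946
      [V.of 10000 7500 8000 16, V.of 10000 (-180) 985 16, V.of 10000 5900 8000 16, V.of 10000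
        (-985) 960 16] = true := by
    decide +kernel
  obtain ⟨f, hf, hp⟩ := chkT4 h (by norm_num) (x := x) (y := T) (z := s) (w := k)
    (le_trans (by norm_num) a0) (le_trans b0 (by norm_num))
    (le_trans (by norm_num) a1) (le_trans b1 (by norm_num))
    (le_trans (by norm_num) a2) (le_trans b2 (by norm_num))
    (le_trans (by norm_num) a3) (le_trans b3 (by norm_num))
  simp only [List.mem_cons, List.not_mem_nil, or_false] at hf
  rcases hf with rfl | rfl | rfl | rfl | rfl | rfl
  · simp only [eg1_val, eg2_val, eF1_val, eG1_val, eF3_val, et_val, nt_val, nm_val, nfZ_val, nfP_val, np1_val,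
      np2_val, MR.e1_val, MR.e2_val, NumU.E.val, NumI.E.val, NumI.lkR] at hp
    push_cast at hp
    try simp only [div_one] at hp
    left
    linarith only [hp]
  · simp only [eg1_val, eg2_val, eF1_val, eG1_val, eF3_val, et_val, nt_val, nm_val, nfZ_val, nfP_val, np1_val,
      np2_val, MR.e1_val, MR.e2_val, NumU.E.val, NumI.E.val, NumI.lkR] at hp
    push_cast at hp
    try simp only [div_one] at hp
    right
    linarith only [hp]
  · simp only [eg1_val, eg2_val, eF1_val, eG1_val, eF3_val, et_val, nt_val, nm_val, nfZ_val, nfP_val, np1_val,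
      np2_val, MR.e1_val, MR.e2_val, NumU.E.val, NumI.E.val, NumI.lkR] at hp
    push_cast at hp
    try simp only [div_one] at hp
    exfalso
    linarith only [c0, hp]
  · simp only [eg1_val, eg2_val, eF1_val, eG1_val, eF3_val, et_val, nt_val, nm_val, nfZ_val, nfP_val, np1_val,
      np2_val, MR.e1_val, MR.e2_val, NumU.E.val, NumI.E.val, NumI.lkR] at hp
    push_cast at hp
    try simp only [div_one] at hp
    exfalso
    linarith only [c1, hp]
  · simp only [eg1_val, eg2_val, eF1_val, eG1_val, eF3_val, et_val, nt_val, nm_val, nfZ_val, nfP_val, np1_val,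
      np2_val, MR.e1_val, MR.e2_val, NumU.E.val, NumI.E.val, NumI.lkR] at hp
    push_cast at hp
    try simp only [div_one] at hp
    exfalso
    linarith only [c2, hp]
  · simp only [eg1_val, eg2_val, eF1_val, eG1_val, eF3_val, et_val, nt_val, nm_val, nfZ_val, nfP_val, np1_val,
      np2_val, MR.e1_val, MR.e2_val, NumU.E.val, NumI.E.val, NumI.lkR] at hp
    push_cast at hp
    try simp only [div_one] at hp
    exfalso
    linarith only [a0, a2, hp]

end C12

end Pool.Agent.Work.MP_b30479_gt.G2
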