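import Pool.Agent.Work.MP_b30479_gt.G2.C12E
import Pool.Agent.Work.NumU.Tree

/-!
# The hinge `1 | 2`: rows of the ramp `[.51, .56]` and of the flat part `[.495, .51]`

Found with `NumU.cert`.
-/

set_option linter.unusedSimpArgs false
set_option linter.unusedVariables false
set_option linter.unusedTactic false

namespace Pool.Agent.Work.MP_b30479_gt.G2

namespace C12

open NumU
open NumU.E (emb)
open NumI (V)

/-- 153 boxes -/
theorem rP1 {x T s k : ℝ} (a0 : 5100 / 10000 ≤ x) (b0 : x ≤ 5600 / 10000) (a1 : -180 / 10000 ≤ T) (b1 : T ≤ 985 / 10000)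
    (a2 : 1300 / 10000 ≤ s) (b2 : s ≤ 4400 / 10000) (a3 : -930 / 10000 ≤ k) (b3 : k ≤ 940 / 10000)
    (c0 : (T + k) - (148 / 1000) ≤ 0) (c1 : (x + s) - (95 / 100) ≤ 0) :
    0 < (((3965 / 10000) + ((76 / 10) * T)) - (MR.s1 (mm T) x (tt T x) s k)) := by
  have h : chkT [(emb (.sub (.add (.q 3965 10000) (.mul (.q 76 10) (.var 1))) (MR.e1 (nm (.var 1)) (.var 0)
      (nt (.var 0) (.var 1)) (.var 2) (.var 3)))), (emb (.sub (.add (.var 1) (.var 3)) (.q 148
      1000))), (emb (.sub (.add (.var 0) (.var 2)) (.q 95 100)))] 26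
      11886126301073975968712273196712696456849994625430802425599772240647771624060913816247687464783351387923862263331825336720211940051457373259768101897889169500143197825193162030615207569075489640351530022447829870147245168864283214569776527705136777388408809814017349263635175501767923936522881510226337389296444735981975545766848422261461572020915269177351226962481954
      [V.of 10000 5100 5600 0, V.of 10000 (-180) 985 0, V.of 10000 1300 4400 0, V.of 10000
        (-930) 940 0] = true := by
    decide +kernel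
  obtain ⟨f, hf, hp⟩ := chkT4 h (by norm_num) (x := x) (y := T) (z := s) (w := k)
    (le_trans (by norm_num) a0) (le_trans b0 (by norm_num))
    (le_trans (by norm_num) a1) (le_trans b1 (by norm_num))
    (le_trans (by norm_num) a2) (le_trans b2 (by norm_num))
    (le_trans (by norm_num) a3) (le_trans b3 (by norm_num))
  simp only [List.mem_cons, List.not_mem_nil, or_false] at hf
  rcases hf with rfl | rfl | rfl
  · simp only [nt_val, nm_val, MR.e1_val, MR.e2_val, MR.en2_val, NumU.E.val, NumI.E.val, NumI.lkR] at hp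
    push_cast at hp
    try simp only [div_one] at hp
    linarith only [hp]
  · simp only [nt_val, nm_val, MR.e1_val, MR.e2_val, MR.en2_val, NumU.E.val, NumI.E.val, NumI.lkR] at hp
    push_cast at hp
    try simp only [div_one] at hp
    exfalso
    linarith only [c0, hp]
  · simp only [nt_val, nm_val, MR.e1_val, MR.e2_val, MR.en2_val, NumU.E.val, NumI.E.val, NumI.lkR] at hp
    push_cast at hp
    try simp only [div_one] at hp
    exfalso
    linarith only [c1, hp]

/-- 140 boxes -/
theorem rZ1 {x T s k : ℝ} (a0 : 5100 / 10000 ≤ x) (b0 : x ≤ 5600 / 10000) (a1 : -80 / 10000 ≤ T) (b1 : T ≤ 800 / 10000)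
    (a2 : 1450 / 10000 ≤ s) (b2 : s ≤ 4400 / 10000) (a3 : 0 / 10000 ≤ k) (b3 : k ≤ 1450 / 10000)
    (c0 : (T + k) - (187 / 1000) ≤ 0) (c1 : (x + s) - (95 / 100) ≤ 0) (c2 : k - ((907 / 1000) * s)
    ≤ 0) (c3 : ((16 / 100) * k) - (((187 / 1000) - T) * s) ≤ 0) :
    0 < (((536 / 1000) + ((77 / 10) * T)) - (MR.s1 (mm T) x (tt T x) s k)) := by
  have h : chkT [(emb (.sub (.add (.q 536 1000) (.mul (.q 77 10) (.var 1))) (MR.e1 (nm (.var 1)) (.var 0)
      (nt (.var 0) (.var 1)) (.var 2) (.var 3)))), (emb (.sub (.add (.var 1) (.var 3)) (.q 187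
      1000))), (emb (.sub (.add (.var 0) (.var 2)) (.q 95 100))), (emb (.sub (.var 3) (.mul (.q
      907 1000) (.var 2)))), (emb (.sub (.mul (.q 16 100) (.var 3)) (.mul (.sub (.q 187 1000)
      (.var 1)) (.var 2))))] 26
      592980106507981122771277719487170296929783631966592667115601469937087345656106595951317171958340188085619965771952578126086649068281802771973129399195124586721176091776499465852183268693259932300958015699465398102125128217506434391373968081090718225842842481749127838420588291438108836491515062776662675564109754066063394976774467621666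
      [V.of 10000 5100 5600 0, V.of 10000 (-80) 800 0, V.of 10000 1450 4400 0, V.of 10000 0 1450
        0] = true := by
    decide +kernel
  obtain ⟨f, hf, hp⟩ := chkT4 h (by norm_num) (x := x) (y := T) (z := s) (w := k)
    (le_trans (by norm_num) a0) (le_trans b0 (by norm_num))
    (le_trans (by norm_num) a1) (le_trans b1 (by norm_num))
    (le_trans (by norm_num) a2) (le_trans b2 (by norm_num))
    (le_trans (by norm_num) a3) (le_trans b3 (by norm_num))
  simp only [List.mem_cons, List.not_mem_nil, or_false] at hf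
  rcases hf with rfl | rfl | rfl | rfl | rfl
  · simp only [nt_val, nm_val, MR.e1_val, MR.e2_val, MR.en2_val, NumU.E.val, NumI.E.val, NumI.lkR] at hp
    push_cast at hp
    try simp only [div_one] at hp
    linarith only [hp]
  · simp only [nt_val, nm_val, MR.e1_val, MR.e2_val, MR.en2_val, NumU.E.val, NumI.E.val, NumI.lkR] at hp
    push_cast at hp
    try simp only [div_one] at hp
    exfalso
    linarith only [c0, hp]
  · simp only [nt_val, nm_val, MR.e1_val, MR.e2_val, MR.en2_val, NumU.E.val, NumI.E.val, NumI.lkR] at hp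
    push_cast at hp
    try simp only [div_one] at hp
    exfalso
    linarith only [c1, hp]
  · simp only [nt_val, nm_val, MR.e1_val, MR.e2_val, MR.en2_val, NumU.E.val, NumI.E.val, NumI.lkR] at hp
    push_cast at hp
    try simp only [div_one] at hp
    exfalso
    linarith only [c2, hp]
  · simp only [nt_val, nm_val, MR.e1_val, MR.e2_val, MR.en2_val, NumU.E.val, NumI.E.val, NumI.lkR] at hp
    push_cast at hp
    try simp only [div_one] at hp
    exfalso
    linarith only [c3, hp]

/-- 4 boxes -/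
theorem rP2a {x T s k : ℝ} (a0 : 5100 / 10000 ≤ x) (b0 : x ≤ 5600 / 10000) (a1 : -180 / 10000 ≤ T) (b1 : T ≤ 985 / 10000)
    (a2 : 1000 / 10000 ≤ s) (b2 : s ≤ 1250 / 10000) (a3 : -850 / 10000 ≤ k) (b3 : k ≤ 570 / 10000)
    :
    0 < (-(((3965 / 10000) + ((76 / 10) * T)) + (MR.s2 (-(mm T)) x (-(tt T x)) s k))) := by
  have h : chkT [(emb (.neg (.add (.add (.q 3965 10000) (.mul (.q 76 10) (.var 1))) (MR.e2 (.neg (nm (.var
      1))) (.var 0) (.neg (nt (.var 0) (.var 1))) (.var 2) (.var 3)))))] 26
      142837809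
      [V.of 10000 5100 5600 0, V.of 10000 (-180) 985 0, V.of 10000 1000 1250 0, V.of 10000
        (-850) 570 0] = true := by
    decide +kernel
  obtain ⟨f, hf, hp⟩ := chkT4 h (by norm_num) (x := x) (y := T) (z := s) (w := k)
    (le_trans (by norm_num) a0) (le_trans b0 (by norm_num))
    (le_trans (by norm_num) a1) (le_trans b1 (by norm_num))
    (le_trans (by norm_num) a2) (le_trans b2 (by norm_num))
    (le_trans (by norm_num) a3) (le_trans b3 (by norm_num))
  simp only [List.mem_cons, List.not_mem_nil, or_false] at hf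
  subst hf
  simp only [nt_val, nm_val, MR.e1_val, MR.e2_val, MR.en2_val, NumU.E.val, NumI.E.val, NumI.lkR] at hp
  push_cast at hp
  try simp only [div_one] at hp
  linarith only [hp]

/-- 73 boxes -/
theorem rP2b {x T s k : ℝ} (a0 : 5100 / 10000 ≤ x) (b0 : x ≤ 5600 / 10000) (a1 : -180 / 10000 ≤ T) (b1 : T ≤ 985 / 10000)
    (a2 : 1250 / 10000 ≤ s) (b2 : s ≤ 3600 / 10000) (a3 : -850 / 10000 ≤ k) (b3 : k ≤ 960 / 10000)
    :
    0 < (-(((3965 / 10000) + ((76 / 10) * T)) + (MR.s2 (-(mm T)) x (-(tt T x)) s k))) := by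
  have h : chkT [(emb (.neg (.add (.add (.q 3965 10000) (.mul (.q 76 10) (.var 1))) (MR.e2 (.neg (nm (.var
      1))) (.var 0) (.neg (nt (.var 0) (.var 1))) (.var 2) (.var 3)))))] 26
      2105720819496212916431687103222538711109884117987582269730584356603767307333619380606940651033945482143351106490285242166289801723212838509799536200907974774536782868281561650
      [V.of 10000 5100 5600 0, V.of 10000 (-180) 985 0, V.of 10000 1250 3600 0, V.of 10000
        (-850) 960 0] = true := by
    decide +kernel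
  obtain ⟨f, hf, hp⟩ := chkT4 h (by norm_num) (x := x) (y := T) (z := s) (w := k)
    (le_trans (by norm_num) a0) (le_trans b0 (by norm_num))
    (le_trans (by norm_num) a1) (le_trans b1 (by norm_num))
    (le_trans (by norm_num) a2) (le_trans b2 (by norm_num))
    (le_trans (by norm_num) a3) (le_trans b3 (by norm_num))
  simp only [List.mem_cons, List.not_mem_nil, or_false] at hf
  subst hf
  simp only [nt_val, nm_val, MR.e1_val, MR.e2_val, MR.en2_val, NumU.E.val, NumI.E.val, NumI.lkR] at hp
  push_cast at hp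
  try simp only [div_one] at hp
  linarith only [hp]

/-- 5 boxes -/
theorem rZ2a {x T s k : ℝ} (a0 : 5100 / 10000 ≤ x) (b0 : x ≤ 5600 / 10000) (a1 : -80 / 10000 ≤ T) (b1 : T ≤ 800 / 10000)
    (a2 : 1000 / 10000 ≤ s) (b2 : s ≤ 1200 / 10000) (a3 : -850 / 10000 ≤ k) (b3 : k ≤ 410 / 10000)
    :
    0 < (-(((536 / 1000) + ((77 / 10) * T)) + (MR.s2 (-(mm T)) x (-(tt T x)) s k))) := by
  have h : chkT [(emb (.neg (.add (.add (.q 536 1000) (.mul (.q 77 10) (.var 1))) (MR.e2 (.neg (nm (.var
      1))) (.var 0) (.neg (nt (.var 0) (.var 1))) (.var 2) (.var 3)))))] 26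
      36516147587
      [V.of 10000 5100 5600 0, V.of 10000 (-80) 800 0, V.of 10000 1000 1200 0, V.of 10000 (-850)
        410 0] = true := by
    decide +kernel
  obtain ⟨f, hf, hp⟩ := chkT4 h (by norm_num) (x := x) (y := T) (z := s) (w := k)
    (le_trans (by norm_num) a0) (le_trans b0 (by norm_num))
    (le_trans (by norm_num) a1) (le_trans b1 (by norm_num))
    (le_trans (by norm_num) a2) (le_trans b2 (by norm_num))
    (le_trans (by norm_num) a3) (le_trans b3 (by norm_num))
  simp only [List.mem_cons, List.not_mem_nil, or_false] at hf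
  subst hf
  simp only [nt_val, nm_val, MR.e1_val, MR.e2_val, MR.en2_val, NumU.E.val, NumI.E.val, NumI.lkR] at hp
  push_cast at hp
  try simp only [div_one] at hp
  linarith only [hp]

/-- 60 boxes -/
theorem rZ2b {x T s k : ℝ} (a0 : 5100 / 10000 ≤ x) (b0 : x ≤ 5600 / 10000) (a1 : -80 / 10000 ≤ T) (b1 : T ≤ 800 / 10000)
    (a2 : 1200 / 10000 ≤ s) (b2 : s ≤ 3600 / 10000) (a3 : -850 / 10000 ≤ k) (b3 : k ≤ 600 / 10000)
    :
    0 < (-(((536 / 1000) + ((77 / 10) * T)) + (MR.s2 (-(mm T)) x (-(tt T x)) s k))) := by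
  have h : chkT [(emb (.neg (.add (.add (.q 536 1000) (.mul (.q 77 10) (.var 1))) (MR.e2 (.neg (nm (.var
      1))) (.var 0) (.neg (nt (.var 0) (.var 1))) (.var 2) (.var 3)))))] 26
      103724760524223226093141566464048414877601008557067612049328775038278542469320700274910499476929607933606091569084201392601750231742779258049314
      [V.of 10000 5100 5600 0, V.of 10000 (-80) 800 0, V.of 10000 1200 3600 0, V.of 10000 (-850)
        600 0] = true := by
    decide +kernel
  obtain ⟨f, hf, hp⟩ := chkT4 h (by norm_num) (x := x) (y := T) (z := s) (w := k)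
    (le_trans (by norm_num) a0) (le_trans b0 (by norm_num))
    (le_trans (by norm_num) a1) (le_trans b1 (by norm_num))
    (le_trans (by norm_num) a2) (le_trans b2 (by norm_num))
    (le_trans (by norm_num) a3) (le_trans b3 (by norm_num))
  simp only [List.mem_cons, List.not_mem_nil, or_false] at hf
  subst hf
  simp only [nt_val, nm_val, MR.e1_val, MR.e2_val, MR.en2_val, NumU.E.val, NumI.E.val, NumI.lkR] at hp
  push_cast at hp
  try simp only [div_one] at hp
  linarith only [hp]

/-- 67 boxes -/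
theorem r12a {x T s k : ℝ} (a0 : 5100 / 10000 ≤ x) (b0 : x ≤ 5600 / 10000) (a1 : -180 / 10000 ≤ T) (b1 : T ≤ 985 / 10000)
    (a2 : 1600 / 10000 ≤ s) (b2 : s ≤ 4300 / 10000) (a3 : -985 / 10000 ≤ k) (b3 : k ≤ 180 / 10000)
    (c0 : (x + s) - (94 / 100) ≤ 0) :
    0 < (-(((536 / 1000) + ((77 / 10) * T)) + (MR.s2 (-(mm T)) x (-(tt T x)) s k))) := by
  have h : chkT [(emb (.neg (.add (.add (.q 536 1000) (.mul (.q 77 10) (.var 1))) (MR.e2 (.neg (nm (.var
      1))) (.var 0) (.neg (nt (.var 0) (.var 1))) (.var 2) (.var 3))))), (emb (.sub (.add (.var 0)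
      (.var 2)) (.q 94 100)))] 26
      8431708022759042332877303855617999650586419618808780585607203812349099813886264036008604385662117030980533260796354646255287321543755975889846627329875521315106
      [V.of 10000 5100 5600 0, V.of 10000 (-180) 985 0, V.of 10000 1600 4300 0, V.of 10000
        (-985) 180 0] = true := by
    decide +kernel
  obtain ⟨f, hf, hp⟩ := chkT4 h (by norm_num) (x := x) (y := T) (z := s) (w := k)
    (le_trans (by norm_num) a0) (le_trans b0 (by norm_num))
    (le_trans (by norm_num) a1) (le_trans b1 (by norm_num))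
    (le_trans (by norm_num) a2) (le_trans b2 (by norm_num))
    (le_trans (by norm_num) a3) (le_trans b3 (by norm_num))
  simp only [List.mem_cons, List.not_mem_nil, or_false] at hf
  rcases hf with rfl | rfl
  · simp only [nt_val, nm_val, MR.e1_val, MR.e2_val, MR.en2_val, NumU.E.val, NumI.E.val, NumI.lkR] at hp
    push_cast at hp
    try simp only [div_one] at hp
    linarith only [hp]
  · simp only [nt_val, nm_val, MR.e1_val, MR.e2_val, MR.en2_val, NumU.E.val, NumI.E.val, NumI.lkR] at hp
    push_cast at hp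
    try simp only [div_one] at hp
    exfalso
    linarith only [c0, hp]

/-- 1 boxes -/
theorem r12b {x T s k : ℝ} (a0 : 5100 / 10000 ≤ x) (b0 : x ≤ 5600 / 10000) (a1 : -180 / 10000 ≤ T) (b1 : T ≤ 0 / 10000)
    (a2 : 3800 / 10000 ≤ s) (b2 : s ≤ 5600 / 10000) (a3 : -985 / 10000 ≤ k) (b3 : k ≤ 180 / 10000)
    (c0 : (94 / 100) - (x + s) ≤ 0) :
    0 < (-(((536 / 1000) + ((77 / 10) * T)) + (MR.n2 (16 / 100) (-1) (-(mm T)) x (-(tt T x)) s
      k))) := by
  have h : chkT [(emb (.neg (.add (.add (.q 536 1000) (.mul (.q 77 10) (.var 1))) (MR.en2 (.q 16 100) (.q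
      (-1) 1) (.neg (nm (.var 1))) (.var 0) (.neg (nt (.var 0) (.var 1))) (.var 2) (.var 3))))),
      (emb (.sub (.q 94 100) (.add (.var 0) (.var 2))))] 26
      8
      [V.of 10000 5100 5600 0, V.of 10000 (-180) 0 0, V.of 10000 3800 5600 0, V.of 10000 (-985)
        180 0] = true := by
    decide +kernel
  obtain ⟨f, hf, hp⟩ := chkT4 h (by norm_num) (x := x) (y := T) (z := s) (w := k)
    (le_trans (by norm_num) a0) (le_trans b0 (by norm_num))
    (le_trans (by norm_num) a1) (le_trans b1 (by norm_num))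
    (le_trans (by norm_num) a2) (le_trans b2 (by norm_num))
    (le_trans (by norm_num) a3) (le_trans b3 (by norm_num))
  simp only [List.mem_cons, List.not_mem_nil, or_false] at hf
  rcases hf with rfl | rfl
  · simp only [nt_val, nm_val, MR.e1_val, MR.e2_val, MR.en2_val, NumU.E.val, NumI.E.val, NumI.lkR] at hp
    push_cast at hp
    try simp only [div_one] at hp
    linarith only [hp]
  · simp only [nt_val, nm_val, MR.e1_val, MR.e2_val, MR.en2_val, NumU.E.val, NumI.E.val, NumI.lkR] at hp
    push_cast at hp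
    try simp only [div_one] at hp
    exfalso
    linarith only [c0, hp]

/-- 1 boxes -/
theorem r12c {x T s k : ℝ} (a0 : 5100 / 10000 ≤ x) (b0 : x ≤ 5600 / 10000) (a1 : 0 / 10000 ≤ T) (b1 : T ≤ 985 / 10000)
    (a2 : 3800 / 10000 ≤ s) (b2 : s ≤ 5600 / 10000) (a3 : -985 / 10000 ≤ k) (b3 : k ≤ 180 / 10000)
    (c0 : (94 / 100) - (x + s) ≤ 0) (c1 : k - (tt T x) ≤ 0) (c2 : ((tt T x) - k) - (14 / 100) ≤ 0)
    :
    0 < (-(((536 / 1000) + ((77 / 10) * T)) + (MR.n2 (16 / 100) 0 (-(mm T)) x (-(tt T x)) s k))) := by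
  have h : chkT [(emb (.neg (.add (.add (.q 536 1000) (.mul (.q 77 10) (.var 1))) (MR.en2 (.q 16 100) (.q 0
      1) (.neg (nm (.var 1))) (.var 0) (.neg (nt (.var 0) (.var 1))) (.var 2) (.var 3))))), (emb
      (.sub (.q 94 100) (.add (.var 0) (.var 2)))), (emb (.sub (.var 3) (nt (.var 0) (.var 1)))),
      (emb (.sub (.sub (nt (.var 0) (.var 1)) (.var 3)) (.q 14 100)))] 26
      8
      [V.of 10000 5100 5600 0, V.of 10000 0 985 0, V.of 10000 3800 5600 0, V.of 10000 (-985) 180
        0] = true := by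
    decide +kernel
  obtain ⟨f, hf, hp⟩ := chkT4 h (by norm_num) (x := x) (y := T) (z := s) (w := k)
    (le_trans (by norm_num) a0) (le_trans b0 (by norm_num))
    (le_trans (by norm_num) a1) (le_trans b1 (by norm_num))
    (le_trans (by norm_num) a2) (le_trans b2 (by norm_num))
    (le_trans (by norm_num) a3) (le_trans b3 (by norm_num))
  simp only [List.mem_cons, List.not_mem_nil, or_false] at hf
  rcases hf with rfl | rfl | rfl | rfl
  · simp only [nt_val, nm_val, MR.e1_val, MR.e2_val, MR.en2_val, NumU.E.val, NumI.E.val, NumI.lkR] at hp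
    push_cast at hp
    try simp only [div_one] at hp
    linarith only [hp]
  · simp only [nt_val, nm_val, MR.e1_val, MR.e2_val, MR.en2_val, NumU.E.val, NumI.E.val, NumI.lkR] at hp
    push_cast at hp
    try simp only [div_one] at hp
    exfalso
    linarith only [c0, hp]
  · simp only [nt_val, nm_val, MR.e1_val, MR.e2_val, MR.en2_val, NumU.E.val, NumI.E.val, NumI.lkR] at hp
    push_cast at hp
    try simp only [div_one] at hp
    exfalso
    linarith only [c1, hp]
  · simp only [nt_val, nm_val, MR.e1_val, MR.e2_val, MR.en2_val, NumU.E.val, NumI.E.val, NumI.lkR] at hp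
    push_cast at hp
    try simp only [div_one] at hp
    exfalso
    linarith only [c2, hp]

/-- 4 boxes -/
theorem r12e {x T s k : ℝ} (a0 : 5100 / 10000 ≤ x) (b0 : x ≤ 5600 / 10000) (a1 : 0 / 10000 ≤ T) (b1 : T ≤ 985 / 10000)
    (a2 : 3800 / 10000 ≤ s) (b2 : s ≤ 5600 / 10000) (a3 : -985 / 10000 ≤ k) (b3 : k ≤ 180 / 10000)
    (c0 : (94 / 100) - (x + s) ≤ 0) (c1 : (14 / 100) - ((tt T x) - k) ≤ 0) :
    0 < (-(((536 / 1000) + ((77 / 10) * T)) + (MR.n2 (45 / 100) 0 (-(mm T)) x (-(tt T x)) s k))) := by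
  have h : chkT [(emb (.neg (.add (.add (.q 536 1000) (.mul (.q 77 10) (.var 1))) (MR.en2 (.q 45 100) (.q 0
      1) (.neg (nm (.var 1))) (.var 0) (.neg (nt (.var 0) (.var 1))) (.var 2) (.var 3))))), (emb
      (.sub (.q 94 100) (.add (.var 0) (.var 2)))), (emb (.sub (.q 14 100) (.sub (nt (.var 0)
      (.var 1)) (.var 3))))] 26
      176687123
      [V.of 10000 5100 5600 0, V.of 10000 0 985 0, V.of 10000 3800 5600 0, V.of 10000 (-985) 180
        0] = true := by
    decide +kernel
  obtain ⟨f, hf, hp⟩ := chkT4 h (by norm_num) (x := x) (y := T) (z := s) (w := k)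
    (le_trans (by norm_num) a0) (le_trans b0 (by norm_num))
    (le_trans (by norm_num) a1) (le_trans b1 (by norm_num))
    (le_trans (by norm_num) a2) (le_trans b2 (by norm_num))
    (le_trans (by norm_num) a3) (le_trans b3 (by norm_num))
  simp only [List.mem_cons, List.not_mem_nil, or_false] at hf
  rcases hf with rfl | rfl | rfl
  · simp only [nt_val, nm_val, MR.e1_val, MR.e2_val, MR.en2_val, NumU.E.val, NumI.E.val, NumI.lkR] at hp
    push_cast at hp
    try simp only [div_one] at hp
    linarith only [hp]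
  · simp only [nt_val, nm_val, MR.e1_val, MR.e2_val, MR.en2_val, NumU.E.val, NumI.E.val, NumI.lkR] at hp
    push_cast at hp
    try simp only [div_one] at hp
    exfalso
    linarith only [c0, hp]
  · simp only [nt_val, nm_val, MR.e1_val, MR.e2_val, MR.en2_val, NumU.E.val, NumI.E.val, NumI.lkR] at hp
    push_cast at hp
    try simp only [div_one] at hp
    exfalso
    linarith only [c1, hp]

/-- 3 boxes -/
theorem r12d {x T s k : ℝ} (a0 : 5100 / 10000 ≤ x) (b0 : x ≤ 5600 / 10000) (a1 : 0 / 10000 ≤ T) (b1 : T ≤ 985 / 10000)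
    (a2 : 3800 / 10000 ≤ s) (b2 : s ≤ 5600 / 10000) (a3 : -985 / 10000 ≤ k) (b3 : k ≤ 180 / 10000)
    (c0 : (94 / 100) - (x + s) ≤ 0) (c1 : (tt T x) - k ≤ 0) :
    0 < (-(((536 / 1000) + ((77 / 10) * T)) + (MR.n2 (16 / 100) 1 (-(mm T)) x (-(tt T x)) s k))) := by
  have h : chkT [(emb (.neg (.add (.add (.q 536 1000) (.mul (.q 77 10) (.var 1))) (MR.en2 (.q 16 100) (.q 1
      1) (.neg (nm (.var 1))) (.var 0) (.neg (nt (.var 0) (.var 1))) (.var 2) (.var 3))))), (emb
      (.sub (.q 94 100) (.add (.var 0) (.var 2)))), (emb (.sub (nt (.var 0) (.var 1)) (.var 3)))] 26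
      698385
      [V.of 10000 5100 5600 0, V.of 10000 0 985 0, V.of 10000 3800 5600 0, V.of 10000 (-985) 180
        0] = true := by
    decide +kernel
  obtain ⟨f, hf, hp⟩ := chkT4 h (by norm_num) (x := x) (y := T) (z := s) (w := k)
    (le_trans (by norm_num) a0) (le_trans b0 (by norm_num))
    (le_trans (by norm_num) a1) (le_trans b1 (by norm_num))
    (le_trans (by norm_num) a2) (le_trans b2 (by norm_num))
    (le_trans (by norm_num) a3) (le_trans b3 (by norm_num))
  simp only [List.mem_cons, List.not_mem_nil, or_false] at hf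
  rcases hf with rfl | rfl | rfl
  · simp only [nt_val, nm_val, MR.e1_val, MR.e2_val, MR.en2_val, NumU.E.val, NumI.E.val, NumI.lkR] at hp
    push_cast at hp
    try simp only [div_one] at hp
    linarith only [hp]
  · simp only [nt_val, nm_val, MR.e1_val, MR.e2_val, MR.en2_val, NumU.E.val, NumI.E.val, NumI.lkR] at hp
    push_cast at hp
    try simp only [div_one] at hp
    exfalso
    linarith only [c0, hp]
  · simp only [nt_val, nm_val, MR.e1_val, MR.e2_val, MR.en2_val, NumU.E.val, NumI.E.val, NumI.lkR] at hp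
    push_cast at hp
    try simp only [div_one] at hp
    exfalso
    linarith only [c1, hp]

/-- 74 boxes -/
theorem fP1 {x T s k : ℝ} (a0 : 4950 / 10000 ≤ x) (b0 : x ≤ 5100 / 10000) (a1 : -180 / 10000 ≤ T) (b1 : T ≤ 985 / 10000)
    (a2 : 1300 / 10000 ≤ s) (b2 : s ≤ 4550 / 10000) (a3 : -930 / 10000 ≤ k) (b3 : k ≤ 940 / 10000)
    (c0 : (T + k) - (148 / 1000) ≤ 0) (c1 : (x + s) - (95 / 100) ≤ 0) :
    0 < (((419 / 1000) - ((3 / 2) * T)) - (MR.s1 0 x T s k)) := by
  have h : chkT [(emb (.sub (.sub (.q 419 1000) (.mul (.q 3 2) (.var 1))) (MR.e1 (.q 0 1) (.var 0) (.var 1)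
      (.var 2) (.var 3)))), (emb (.sub (.add (.var 1) (.var 3)) (.q 148 1000))), (emb (.sub (.add
      (.var 0) (.var 2)) (.q 95 100)))] 26
      540188468562002943383450638740265695978891019472718141702613281832421771235700696163399740830733838977969945548085520716486985965575874492650354344731826383982364637079919624994
      [V.of 10000 4950 5100 0, V.of 10000 (-180) 985 0, V.of 10000 1300 4550 0, V.of 10000
        (-930) 940 0] = true := by
    decide +kernel
  obtain ⟨f, hf, hp⟩ := chkT4 h (by norm_num) (x := x) (y := T) (z := s) (w := k)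
    (le_trans (by norm_num) a0) (le_trans b0 (by norm_num))
    (le_trans (by norm_num) a1) (le_trans b1 (by norm_num))
    (le_trans (by norm_num) a2) (le_trans b2 (by norm_num))
    (le_trans (by norm_num) a3) (le_trans b3 (by norm_num))
  simp only [List.mem_cons, List.not_mem_nil, or_false] at hf
  rcases hf with rfl | rfl | rfl
  · simp only [nt_val, nm_val, MR.e1_val, MR.e2_val, MR.en2_val, NumU.E.val, NumI.E.val, NumI.lkR] at hp
    push_cast at hp
    try simp only [div_one] at hp
    linarith only [hp]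
  · simp only [nt_val, nm_val, MR.e1_val, MR.e2_val, MR.en2_val, NumU.E.val, NumI.E.val, NumI.lkR] at hp
    push_cast at hp
    try simp only [div_one] at hp
    exfalso
    linarith only [c0, hp]
  · simp only [nt_val, nm_val, MR.e1_val, MR.e2_val, MR.en2_val, NumU.E.val, NumI.E.val, NumI.lkR] at hp
    push_cast at hp
    try simp only [div_one] at hp
    exfalso
    linarith only [c1, hp]

/-- 118 boxes -/
theorem fZ1 {x T s k : ℝ} (a0 : 4950 / 10000 ≤ x) (b0 : x ≤ 5100 / 10000) (a1 : -80 / 10000 ≤ T) (b1 : T ≤ 800 / 10000)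
    (a2 : 2000 / 10000 ≤ s) (b2 : s ≤ 4550 / 10000) (a3 : 0 / 10000 ≤ k) (b3 : k ≤ 1450 / 10000)
    (c0 : (T + k) - (187 / 1000) ≤ 0) (c1 : (x + s) - (95 / 100) ≤ 0) (c2 : (((182 / 1000) + ((3 /
    10) * T)) + ((2 / 10) * k)) - s ≤ 0) :
    0 < (((535 / 1000) - (2 * T)) - (MR.s1 0 x T s k)) := by
  have h : chkT [(emb (.sub (.sub (.q 535 1000) (.mul (.q 2 1) (.var 1))) (MR.e1 (.q 0 1) (.var 0) (.var 1)
      (.var 2) (.var 3)))), (emb (.sub (.add (.var 1) (.var 3)) (.q 187 1000))), (emb (.sub (.add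
      (.var 0) (.var 2)) (.q 95 100))), (emb (.sub (.add (.add (.q 182 1000) (.mul (.q 3 10) (.var
      1))) (.mul (.q 2 10) (.var 3))) (.var 2)))] 26
      4945374977406578036284386969621778060571055689615605259432031441954265569060029988170683511557899711286752262182415285306973992193125787966402686780468501361653123022497676633839667639860386214258927202854176761541518942174223774532599706640247418959732337885682061801645136736191026
      [V.of 10000 4950 5100 0, V.of 10000 (-80) 800 0, V.of 10000 2000 4550 0, V.of 10000 0 1450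
        0] = true := by
    decide +kernel
  obtain ⟨f, hf, hp⟩ := chkT4 h (by norm_num) (x := x) (y := T) (z := s) (w := k)
    (le_trans (by norm_num) a0) (le_trans b0 (by norm_num))
    (le_trans (by norm_num) a1) (le_trans b1 (by norm_num))
    (le_trans (by norm_num) a2) (le_trans b2 (by norm_num))
    (le_trans (by norm_num) a3) (le_trans b3 (by norm_num))
  simp only [List.mem_cons, List.not_mem_nil, or_false] at hf
  rcases hf with rfl | rfl | rfl | rfl
  · simp only [nt_val, nm_val, MR.e1_val, MR.e2_val, MR.en2_val, NumU.E.val, NumI.E.val, NumI.lkR] at hp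
    push_cast at hp
    try simp only [div_one] at hp
    linarith only [hp]
  · simp only [nt_val, nm_val, MR.e1_val, MR.e2_val, MR.en2_val, NumU.E.val, NumI.E.val, NumI.lkR] at hp
    push_cast at hp
    try simp only [div_one] at hp
    exfalso
    linarith only [c0, hp]
  · simp only [nt_val, nm_val, MR.e1_val, MR.e2_val, MR.en2_val, NumU.E.val, NumI.E.val, NumI.lkR] at hp
    push_cast at hp
    try simp only [div_one] at hp
    exfalso
    linarith only [c1, hp]
  · simp only [nt_val, nm_val, MR.e1_val, MR.e2_val, MR.en2_val, NumU.E.val, NumI.E.val, NumI.lkR] at hp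
    push_cast at hp
    try simp only [div_one] at hp
    exfalso
    linarith only [c2, hp]

/-- 4 boxes -/
theorem fP2a {x T s k : ℝ} (a0 : 4950 / 10000 ≤ x) (b0 : x ≤ 5100 / 10000) (a1 : -180 / 10000 ≤ T) (b1 : T ≤ 985 / 10000)
    (a2 : 1000 / 10000 ≤ s) (b2 : s ≤ 1550 / 10000) (a3 : -850 / 10000 ≤ k) (b3 : k ≤ 570 / 10000)
    :
    0 < (-(((419 / 1000) - ((3 / 2) * T)) + (MR.s2 0 x (-T) s k))) := by
  have h : chkT [(emb (.neg (.add (.sub (.q 419 1000) (.mul (.q 3 2) (.var 1))) (MR.e2 (.q 0 1) (.var 0)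
      (.neg (.var 1)) (.var 2) (.var 3)))))] 26
      142706737
      [V.of 10000 4950 5100 0, V.of 10000 (-180) 985 0, V.of 10000 1000 1550 0, V.of 10000
        (-850) 570 0] = true := by
    decide +kernel
  obtain ⟨f, hf, hp⟩ := chkT4 h (by norm_num) (x := x) (y := T) (z := s) (w := k)
    (le_trans (by norm_num) a0) (le_trans b0 (by norm_num))
    (le_trans (by norm_num) a1) (le_trans b1 (by norm_num))
    (le_trans (by norm_num) a2) (le_trans b2 (by norm_num))
    (le_trans (by norm_num) a3) (le_trans b3 (by norm_num))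
  simp only [List.mem_cons, List.not_mem_nil, or_false] at hf
  subst hf
  simp only [nt_val, nm_val, MR.e1_val, MR.e2_val, MR.en2_val, NumU.E.val, NumI.E.val, NumI.lkR] at hp
  push_cast at hp
  try simp only [div_one] at hp
  linarith only [hp]

/-- 21 boxes -/
theorem fP2b {x T s k : ℝ} (a0 : 4950 / 10000 ≤ x) (b0 : x ≤ 5100 / 10000) (a1 : -180 / 10000 ≤ T) (b1 : T ≤ 985 / 10000)
    (a2 : 1550 / 10000 ≤ s) (b2 : s ≤ 3600 / 10000) (a3 : -850 / 10000 ≤ k) (b3 : k ≤ 960 / 10000)
    :
    0 < (-(((419 / 1000) - ((3 / 2) * T)) + (MR.s2 0 x (-T) s k))) := by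
  have h : chkT [(emb (.neg (.add (.sub (.q 419 1000) (.mul (.q 3 2) (.var 1))) (MR.e2 (.q 0 1) (.var 0)
      (.neg (.var 1)) (.var 2) (.var 3)))))] 26
      12431406161209339892484461254098572491455182962994
      [V.of 10000 4950 5100 0, V.of 10000 (-180) 985 0, V.of 10000 1550 3600 0, V.of 10000
        (-850) 960 0] = true := by
    decide +kernel
  obtain ⟨f, hf, hp⟩ := chkT4 h (by norm_num) (x := x) (y := T) (z := s) (w := k)
    (le_trans (by norm_num) a0) (le_trans b0 (by norm_num))
    (le_trans (by norm_num) a1) (le_trans b1 (by norm_num))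
    (le_trans (by norm_num) a2) (le_trans b2 (by norm_num))
    (le_trans (by norm_num) a3) (le_trans b3 (by norm_num))
  simp only [List.mem_cons, List.not_mem_nil, or_false] at hf
  subst hf
  simp only [nt_val, nm_val, MR.e1_val, MR.e2_val, MR.en2_val, NumU.E.val, NumI.E.val, NumI.lkR] at hp
  push_cast at hp
  try simp only [div_one] at hp
  linarith only [hp]

/-- 4 boxes -/
theorem fZ2a {x T s k : ℝ} (a0 : 4950 / 10000 ≤ x) (b0 : x ≤ 5100 / 10000) (a1 : -80 / 10000 ≤ T) (b1 : T ≤ 800 / 10000)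
    (a2 : 1000 / 10000 ≤ s) (b2 : s ≤ 1200 / 10000) (a3 : -850 / 10000 ≤ k) (b3 : k ≤ 410 / 10000)
    :
    0 < (-(((535 / 1000) - (2 * T)) + (MR.s2 0 x (-T) s k))) := by
  have h : chkT [(emb (.neg (.add (.sub (.q 535 1000) (.mul (.q 2 1) (.var 1))) (MR.e2 (.q 0 1) (.var 0)
      (.neg (.var 1)) (.var 2) (.var 3)))))] 26
      142837809
      [V.of 10000 4950 5100 0, V.of 10000 (-80) 800 0, V.of 10000 1000 1200 0, V.of 10000 (-850)
        410 0] = true := by
    decide +kernel
  obtain ⟨f, hf, hp⟩ := chkT4 h (by norm_num) (x := x) (y := T) (z := s) (w := k)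
    (le_trans (by norm_num) a0) (le_trans b0 (by norm_num))
    (le_trans (by norm_num) a1) (le_trans b1 (by norm_num))
    (le_trans (by norm_num) a2) (le_trans b2 (by norm_num))
    (le_trans (by norm_num) a3) (le_trans b3 (by norm_num))
  simp only [List.mem_cons, List.not_mem_nil, or_false] at hf
  subst hf
  simp only [nt_val, nm_val, MR.e1_val, MR.e2_val, MR.en2_val, NumU.E.val, NumI.E.val, NumI.lkR] at hp
  push_cast at hp
  try simp only [div_one] at hp
  linarith only [hp]

/-- 10 boxes -/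
theorem fZ2b {x T s k : ℝ} (a0 : 4950 / 10000 ≤ x) (b0 : x ≤ 5100 / 10000) (a1 : -80 / 10000 ≤ T) (b1 : T ≤ 800 / 10000)
    (a2 : 1200 / 10000 ≤ s) (b2 : s ≤ 1650 / 10000) (a3 : -850 / 10000 ≤ k) (b3 : k ≤ 570 / 10000)
    :
    0 < (-(((535 / 1000) - (2 * T)) + (MR.s2 0 x (-T) s k))) := by
  have h : chkT [(emb (.neg (.add (.sub (.q 535 1000) (.mul (.q 2 1) (.var 1))) (MR.e2 (.q 0 1) (.var 0)
      (.neg (.var 1)) (.var 2) (.var 3)))))] 26
      40297133818057772336003
      [V.of 10000 4950 5100 0, V.of 10000 (-80) 800 0, V.of 10000 1200 1650 0, V.of 10000 (-850)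
        570 0] = true := by
    decide +kernel
  obtain ⟨f, hf, hp⟩ := chkT4 h (by norm_num) (x := x) (y := T) (z := s) (w := k)
    (le_trans (by norm_num) a0) (le_trans b0 (by norm_num))
    (le_trans (by norm_num) a1) (le_trans b1 (by norm_num))
    (le_trans (by norm_num) a2) (le_trans b2 (by norm_num))
    (le_trans (by norm_num) a3) (le_trans b3 (by norm_num))
  simp only [List.mem_cons, List.not_mem_nil, or_false] at hf
  subst hf
  simp only [nt_val, nm_val, MR.e1_val, MR.e2_val, MR.en2_val, NumU.E.val, NumI.E.val, NumI.lkR] at hp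
  push_cast at hp
  try simp only [div_one] at hp
  linarith only [hp]

/-- 8 boxes -/
theorem fZ2c {x T s k : ℝ} (a0 : 4950 / 10000 ≤ x) (b0 : x ≤ 5100 / 10000) (a1 : -80 / 10000 ≤ T) (b1 : T ≤ 800 / 10000)
    (a2 : 1650 / 10000 ≤ s) (b2 : s ≤ 3600 / 10000) (a3 : -850 / 10000 ≤ k) (b3 : k ≤ 600 / 10000)
    :
    0 < (-(((535 / 1000) - (2 * T)) + (MR.s2 0 x (-T) s k))) := by
  have h : chkT [(emb (.neg (.add (.sub (.q 535 1000) (.mul (.q 2 1) (.var 1))) (MR.e2 (.q 0 1) (.var 0)
      (.neg (.var 1)) (.var 2) (.var 3)))))] 26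
      613483724872427570
      [V.of 10000 4950 5100 0, V.of 10000 (-80) 800 0, V.of 10000 1650 3600 0, V.of 10000 (-850)
        600 0] = true := by
    decide +kernel
  obtain ⟨f, hf, hp⟩ := chkT4 h (by norm_num) (x := x) (y := T) (z := s) (w := k)
    (le_trans (by norm_num) a0) (le_trans b0 (by norm_num))
    (le_trans (by norm_num) a1) (le_trans b1 (by norm_num))
    (le_trans (by norm_num) a2) (le_trans b2 (by norm_num))
    (le_trans (by norm_num) a3) (le_trans b3 (by norm_num))
  simp only [List.mem_cons, List.not_mem_nil, or_false] at hf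
  subst hf
  simp only [nt_val, nm_val, MR.e1_val, MR.e2_val, MR.en2_val, NumU.E.val, NumI.E.val, NumI.lkR] at hp
  push_cast at hp
  try simp only [div_one] at hp
  linarith only [hp]

/-- 17 boxes -/
theorem f12a {x T s k : ℝ} (a0 : 4950 / 10000 ≤ x) (b0 : x ≤ 5100 / 10000) (a1 : -180 / 10000 ≤ T) (b1 : T ≤ 985 / 10000)
    (a2 : 1600 / 10000 ≤ s) (b2 : s ≤ 4450 / 10000) (a3 : -985 / 10000 ≤ k) (b3 : k ≤ 180 / 10000)
    (c0 : (x + s) - (94 / 100) ≤ 0) :
    0 < (-(((535 / 1000) - (2 * T)) + (MR.s2 0 x (-T) s k))) := by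
  have h : chkT [(emb (.neg (.add (.sub (.q 535 1000) (.mul (.q 2 1) (.var 1))) (MR.e2 (.q 0 1) (.var 0)
      (.neg (.var 1)) (.var 2) (.var 3))))), (emb (.sub (.add (.var 0) (.var 2)) (.q 94 100)))] 26
      2894412300596696562065215375350374629666
      [V.of 10000 4950 5100 0, V.of 10000 (-180) 985 0, V.of 10000 1600 4450 0, V.of 10000
        (-985) 180 0] = true := by
    decide +kernel
  obtain ⟨f, hf, hp⟩ := chkT4 h (by norm_num) (x := x) (y := T) (z := s) (w := k)
    (le_trans (by norm_num) a0) (le_trans b0 (by norm_num))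
    (le_trans (by norm_num) a1) (le_trans b1 (by norm_num))
    (le_trans (by norm_num) a2) (le_trans b2 (by norm_num))
    (le_trans (by norm_num) a3) (le_trans b3 (by norm_num))
  simp only [List.mem_cons, List.not_mem_nil, or_false] at hf
  rcases hf with rfl | rfl
  · simp only [nt_val, nm_val, MR.e1_val, MR.e2_val, MR.en2_val, NumU.E.val, NumI.E.val, NumI.lkR] at hp
    push_cast at hp
    try simp only [div_one] at hp
    linarith only [hp]
  · simp only [nt_val, nm_val, MR.e1_val, MR.e2_val, MR.en2_val, NumU.E.val, NumI.E.val, NumI.lkR] at hp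
    push_cast at hp
    try simp only [div_one] at hp
    exfalso
    linarith only [c0, hp]

/-- 1 boxes -/
theorem f12b {x T s k : ℝ} (a0 : 4950 / 10000 ≤ x) (b0 : x ≤ 5100 / 10000) (a1 : -180 / 10000 ≤ T) (b1 : T ≤ 985 / 10000)
    (a2 : 4300 / 10000 ≤ s) (b2 : s ≤ 5600 / 10000) (a3 : -985 / 10000 ≤ k) (b3 : k ≤ 180 / 10000)
    (c0 : (94 / 100) - (x + s) ≤ 0) :
    0 < (-(((535 / 1000) - (2 * T)) + (MR.n2 (45 / 100) 0 0 x (-T) s k))) := by
  have h : chkT [(emb (.neg (.add (.sub (.q 535 1000) (.mul (.q 2 1) (.var 1))) (MR.en2 (.q 45 100) (.q 0 1)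
      (.q 0 1) (.var 0) (.neg (.var 1)) (.var 2) (.var 3))))), (emb (.sub (.q 94 100) (.add (.var
      0) (.var 2))))] 26
      8
      [V.of 10000 4950 5100 0, V.of 10000 (-180) 985 0, V.of 10000 4300 5600 0, V.of 10000
        (-985) 180 0] = true := by
    decide +kernel
  obtain ⟨f, hf, hp⟩ := chkT4 h (by norm_num) (x := x) (y := T) (z := s) (w := k)
    (le_trans (by norm_num) a0) (le_trans b0 (by norm_num))
    (le_trans (by norm_num) a1) (le_trans b1 (by norm_num))
    (le_trans (by norm_num) a2) (le_trans b2 (by norm_num))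
    (le_trans (by norm_num) a3) (le_trans b3 (by norm_num))
  simp only [List.mem_cons, List.not_mem_nil, or_false] at hf
  rcases hf with rfl | rfl
  · simp only [nt_val, nm_val, MR.e1_val, MR.e2_val, MR.en2_val, NumU.E.val, NumI.E.val, NumI.lkR] at hp
    push_cast at hp
    try simp only [div_one] at hp
    linarith only [hp]
  · simp only [nt_val, nm_val, MR.e1_val, MR.e2_val, MR.en2_val, NumU.E.val, NumI.E.val, NumI.lkR] at hp
    push_cast at hp
    try simp only [div_one] at hp
    exfalso
    linarith only [c0, hp]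

end C12

end Pool.Agent.Work.MP_b30479_gt.G2
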