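import Pool.Agent.Work.MP_b30479_gt.G2.C12R1
import Pool.Agent.Work.MP_b30479_gt.G2.C12R2
import Pool.Agent.Work.MP_b30479_gt.G2.C12R3
import Pool.Agent.Work.MP_b30479_gt.G2.C12R4
import Pool.Agent.Work.MP_b30479_gt.G2.C12R5

/-!
# The right ramp of the hinge `1 | 2`: sides and gains

`T` is the height in the frame of the digit `1`; `x'`, `t'` is the partner hinge of the digit `1`
(in its frame) or of the digit `2` (in its frame).
-/

set_option linter.unusedTactic false
set_option linter.unreachableTactic false
set_option linter.unusedVariables false

namespace Pool.Agent.Work.MP_b30479_gt.G2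

open VOL NumU

namespace C12

/-- the partner hinge of the digit `1` -/
structure R1 (T x' t' : ℝ) : Prop where
  T0 : -(18 / 1000) ≤ T
  T1 : T ≤ 985 / 10000
  x0 : 7 / 100 ≤ x'
  x1 : x' ≤ 80 / 100
  t0 : -(93 / 1000) ≤ t'
  t1 : t' ≤ 145 / 1000
  s1 : T + t' ≤ 187 / 1000
  up : t' ≤ 90625 / 100000 * x'
  dn : -t' ≤ 62 / 100 * x'
  r1 : t' ≤ 290 / 1000 * (86 / 100 - x')
  r2 : -t' ≤ 465 / 1000 * (86 / 100 - x')
  hi : 70 / 100 < x' → 0 ≤ t' ∧ t' ≤ 273 / 1000 * (80 / 100 - x') ∧ 5 / 1000 ≤ T ∧ T ≤ 79 / 1000 ∧
    T + t' ≤ 130 / 1000

/-- the same if the partner is not a ring -/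
structure R1P (T x' t' : ℝ) : Prop extends R1 T x' t' where
  s2 : T + t' ≤ 148 / 1000
  t2 : t' ≤ 94 / 1000
  up2 : t' ≤ 94 / 130 * x'

/-- the partner hinge of the digit `2` -/
structure R2 (T x' t' : ℝ) : Prop where
  T0 : -(18 / 1000) ≤ T
  T1 : T ≤ 985 / 10000
  x0 : 7 / 100 ≤ x'
  x1 : x' ≤ 80 / 100
  t0 : -(985 / 10000) ≤ t'
  t1 : t' ≤ 96 / 1000
  up : t' ≤ 768 / 1000 * x'
  dn : -t' ≤ 86 / 100 * x'
  r1 : x' ≤ 63 / 100 → t' ≤ 11 / 1000 + 320 / 1000 * (63 / 100 - x')
  r1' : 59 / 100 ≤ x' → t' ≤ 1 / 1000 + 63 / 1000 * (80 / 100 - x')
  r2 : -t' ≤ 340 / 1000 * (80 / 100 - x')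

variable {T x x' t' : ℝ}

theorem ex_k {a lo hi : ℝ} (hx : 0 < x') (h1 : lo * x' ≤ a * t') (h2 : a * t' ≤ hi * x') :
    ∃ k, lo ≤ k ∧ k ≤ hi ∧ k * x' = a * t' := by
  refine ⟨a * t' / x', ?_, ?_, ?_⟩
  · rw [le_div_iff₀ hx]; exact h1
  · rw [div_le_iff₀ hx]; exact h2
  · field_simp

/-- bounds of the height -/
theorem tt_mem (h0 : 535 / 1000 ≤ x) (h1 : x ≤ 80 / 100) (T0 : -(18 / 1000) ≤ T)
    (T1 : T ≤ 985 / 10000) : -(165 / 10000) ≤ tt T x ∧ tt T x ≤ 9005 / 100000 ∧
      (tt T x ≤ T ∨ tt T x ≤ 0) := by
  unfold tt
  have e1 : 0 ≤ 100 / 29 * (8 / 10 - x) := by linarith only [h1]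
  have e2 : 100 / 29 * (8 / 10 - x) ≤ 914 / 1000 := by linarith only [h0]
  set f := 100 / 29 * (8 / 10 - x)
  refine ⟨by nlinarith only [e2, T0, e1], by nlinarith only [T1, T0, e2, e1], ?_⟩
  rcases le_total 0 T with h | h
  · left; nlinarith only [h, e2]
  · right; nlinarith only [e1, h]

theorem tt_mem2 (h0 : 56 / 100 ≤ x) (h1 : x ≤ 80 / 100) (T0 : -(18 / 1000) ≤ T)
    (T1 : T ≤ 985 / 10000) : -(150 / 10000) ≤ tt T x ∧ tt T x ≤ 816 / 10000 := by
  unfold tt
  have e1 : 0 ≤ 100 / 29 * (8 / 10 - x) := by linarith only [h1]
  have e2 : 100 / 29 * (8 / 10 - x) ≤ 828 / 1000 := by linarith only [h0]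
  set f := 100 / 29 * (8 / 10 - x)
  exact ⟨by nlinarith only [e2, T0, e1], by nlinarith only [T1, T0, e2, e1]⟩

theorem tt_mem3 (h0 : 75 / 100 ≤ x) (h1 : x ≤ 80 / 100) (T0 : -(18 / 1000) ≤ T)
    (T1 : T ≤ 985 / 10000) : -(32 / 10000) ≤ tt T x ∧ tt T x ≤ 170 / 10000 := by
  unfold tt
  have e1 : 0 ≤ 100 / 29 * (8 / 10 - x) := by linarith only [h1]
  have e2 : 100 / 29 * (8 / 10 - x) ≤ 1725 / 10000 := by linarith only [h0]
  set f := 100 / 29 * (8 / 10 - x)
  exact ⟨by nlinarith only [e2, T0, e1], by nlinarith only [T1, T0, e2, e1]⟩

theorem lnA_neg (x t : ℝ) : NumI.lnA x (-t) = NumI.lnA x t := by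
  unfold NumI.lnA
  simp

theorem lnB_neg (x t : ℝ) : NumI.lnB x (-t) = -NumI.lnB x t := by
  unfold NumI.lnB
  rw [← Real.arctan_neg]
  congr 1
  rw [mul_neg, Real.sinh_neg, Real.cosh_neg, mul_neg, neg_div]

theorem p1_eq (T x x' t' : ℝ) : p1 T x (x + x') (tt T x + t') = MR.s1 (mm T) x (tt T x) x' t' := by
  unfold p1 MR.s1
  ring

theorem p2_eq (T x x' t' : ℝ) :
    p2 T x (x + x') (t' - tt T x) = MR.s2 (-mm T) x (-tt T x) x' t' := by
  unfold p2 MR.s2
  rw [lnA_neg, lnB_neg, show -tt T x + t' = t' - tt T x by ring]
  ring

/-! ### first order -/

theorem s1_lt_fZ (h0 : 56 / 100 ≤ x) (h1 : x ≤ 75 / 100) (h : R1 T x' t')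
    (hs : x + x' ≤ 97 / 100) : MR.s1 (mm T) x (tt T x) x' t' < fZ x T := by
  obtain ⟨T0, T1, x0, x1, t0, t1, s1, up, dn, r1, r2, hi⟩ := h
  obtain ⟨q1, q2⟩ := tt_mem2 h0 (by linarith only [h1]) T0 T1
  obtain ⟨-, -, q3⟩ := tt_mem (x := x) (by linarith only [h0]) (by linarith only [h1]) T0 T1
  rcases le_total x' (16 / 100) with h | h
  · obtain ⟨k, k1, k2, k3⟩ := ex_k (a := 16 / 100) (lo := -(993 / 10000)) (hi := 1450 / 10000)
      (t' := t') (by linarith only [x0] : 0 < x') (by linarith only [x0, dn]) (by linarith only [up])
    have e : 100 / 16 * k * x' = t' := by linear_combination (100 / 16) * k3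
    have := D1Za (x := x) (T := T) (s := x') (k := k) (by linarith only [h0]) (by linarith only [h1]) (by linarith only [T0])
      (by linarith only [T1]) (by linarith only [x0]) (by linarith only [h]) (by linarith only [k1]) (by linarith only [k2]) (by rw [e]; linarith only [s1])
    rw [e] at this
    linarith only [this]
  · rcases le_total (x + x') (88 / 100) with h' | h'
    · have := D1Zb (x := x) (T := T) (s := x') (k := t') (by linarith only [h0]) (by linarith only [h1]) (by linarith only [T0])
        (by linarith only [T1]) (by linarith only [h]) (by linarith only [h0, h']) (by linarith only [t0]) (by linarith only [t1]) (by linarith only [s1])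
        (by linarith only [h'])
      linarith only [this]
    · have := P1Z (x := x) (T := T) (s := x + x') (k := tt T x + t') (by linarith only [h0]) (by linarith only [h1])
        (by linarith only [T0]) (by linarith only [T1]) (by linarith only [h']) (by linarith only [hs]) (by linarith only [t0, q1])
        (by rcases q3 with q3 | q3 <;> linarith only [s1, q3, t1]) (by linarith only [s1]) (by linarith only [t0])
        (by linarith only [t1]) (by linarith only [x0, up])
      rw [p1_eq] at this
      linarith only [this]

theorem s1_lt_fP (h0 : 535 / 1000 ≤ x) (h1 : x ≤ 56 / 100) (h : R1P T x' t')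
    (hs : x + x' ≤ 97 / 100) : MR.s1 (mm T) x (tt T x) x' t' < fP x T := by
  obtain ⟨⟨T0, T1, x0, x1, t0, t1, s1, up, dn, r1, r2, hi⟩, s2, t2, up2⟩ := h
  obtain ⟨q1, q2, q3⟩ := tt_mem (x := x) (by linarith only [h0]) (by linarith only [h1]) T0 T1
  rcases le_total x' (13 / 100) with h | h
  · obtain ⟨k, k1, k2, k3⟩ := ex_k (a := 13 / 100) (lo := -(806 / 10000)) (hi := 940 / 10000)
      (t' := t') (by linarith only [x0] : 0 < x') (by linarith only [dn]) (by linarith only [up2])
    have e : 100 / 13 * k * x' = t' := by linear_combination (100 / 13) * k3
    have := D1Pa (x := x) (T := T) (s := x') (k := k) (by linarith only [h0]) (by linarith only [h1]) (by linarith only [T0])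
      (by linarith only [T1]) (by linarith only [x0]) (by linarith only [h]) (by linarith only [k1]) (by linarith only [k2]) (by rw [e]; linarith only [s2])
    rw [e] at this
    linarith only [this]
  · rcases le_total (x + x') (88 / 100) with h' | h'
    · have := D1Pb (x := x) (T := T) (s := x') (k := t') (by linarith only [h0]) (by linarith only [h1]) (by linarith only [T0])
        (by linarith only [T1]) (by linarith only [h]) (by linarith only [h0, h']) (by linarith only [t0]) (by linarith only [t2]) (by linarith only [s2])
        (by linarith only [dn]) (by linarith only [h'])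
      linarith only [this]
    · have := P1P (x := x) (T := T) (s := x + x') (k := tt T x + t') (by linarith only [h0]) (by linarith only [h1])
        (by linarith only [T0]) (by linarith only [T1]) (by linarith only [h']) (by linarith only [hs]) (by linarith only [t0, q1])
        (by rcases q3 with q3 | q3 <;> linarith only [s2, q3, t2]) (by linarith only [s2]) (by linarith only [t0])
        (by linarith only [t2])
      rw [p1_eq] at this
      linarith only [this]

theorem s2_lt_fZ (h0 : 56 / 100 ≤ x) (h1 : x ≤ 75 / 100) (h : R2 T x' t')
    (hs : x + x' ≤ 97 / 100) : MR.s2 (-mm T) x (-tt T x) x' t' < -fZ x T := by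
  obtain ⟨T0, T1, x0, x1, t0, t1, up, dn, r1, r1', r2⟩ := h
  obtain ⟨q1, q2⟩ := tt_mem2 h0 (by linarith only [h1]) T0 T1
  rcases le_total x' (125 / 1000) with h | h
  · obtain ⟨k, k1, k2, k3⟩ := ex_k (a := 1 / 8) (lo := -(1075 / 10000)) (hi := 960 / 10000)
      (t' := t') (by linarith only [x0] : 0 < x') (by linarith only [dn]) (by linarith only [up])
    have e : 8 * k * x' = t' := by linear_combination 8 * k3
    have := D2Za (x := x) (T := T) (s := x') (k := k) (by linarith only [h0]) (by linarith only [h1]) (by linarith only [T0])
      (by linarith only [T1]) (by linarith only [x0]) (by linarith only [h]) (by linarith only [k1]) (by linarith only [k2])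
    rw [e] at this
    linarith only [this]
  · rcases le_total (x + x') (88 / 100) with h' | h'
    · have := D2Zb (x := x) (T := T) (s := x') (k := t') (by linarith only [h0]) (by linarith only [h1]) (by linarith only [T0])
        (by linarith only [T1]) (by linarith only [h]) (by linarith only [h0, h']) (by linarith only [t0]) (by linarith only [t1]) (by linarith only [h'])
      linarith only [this]
    · have := P2Z (x := x) (T := T) (s := x + x') (k := t' - tt T x) (by linarith only [h0]) (by linarith only [h1])
        (by linarith only [T0]) (by linarith only [T1]) (by linarith only [h']) (by linarith only [hs]) (by linarith only [t0, q2])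
        (by linarith only [t1, q1]) (by linarith only [t0]) (by linarith only [t1])
      rw [p2_eq] at this
      linarith only [this]

theorem s2_lt_fP (h0 : 535 / 1000 ≤ x) (h1 : x ≤ 56 / 100) (h : R2 T x' t')
    (hs : x + x' ≤ 97 / 100) : MR.s2 (-mm T) x (-tt T x) x' t' < -fP x T := by
  obtain ⟨T0, T1, x0, x1, t0, t1, up, dn, r1, r1', r2⟩ := h
  obtain ⟨q1, q2, q3⟩ := tt_mem (x := x) (by linarith only [h0]) (by linarith only [h1]) T0 T1
  rcases le_total x' (125 / 1000) with h | h
  · obtain ⟨k, k1, k2, k3⟩ := ex_k (a := 1 / 8) (lo := -(1075 / 10000)) (hi := 960 / 10000)
      (t' := t') (by linarith only [x0] : 0 < x') (by linarith only [dn]) (by linarith only [up])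
    have e : 8 * k * x' = t' := by linear_combination 8 * k3
    have := D2Pa (x := x) (T := T) (s := x') (k := k) (by linarith only [h0]) (by linarith only [h1]) (by linarith only [T0])
      (by linarith only [T1]) (by linarith only [x0]) (by linarith only [h]) (by linarith only [k1]) (by linarith only [k2])
    rw [e] at this
    linarith only [this]
  · rcases le_total (x + x') (88 / 100) with h' | h'
    · have := D2Pb (x := x) (T := T) (s := x') (k := t') (by linarith only [h0]) (by linarith only [h1]) (by linarith only [T0])
        (by linarith only [T1]) (by linarith only [h]) (by linarith only [h0, h']) (by linarith only [t0]) (by linarith only [t1]) (by linarith only [h'])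
      linarith only [this]
    · have := P2P (x := x) (T := T) (s := x + x') (k := t' - tt T x) (by linarith only [h0]) (by linarith only [h1])
        (by linarith only [T0]) (by linarith only [T1]) (by linarith only [h']) (by linarith only [hs]) (by linarith only [t0, q2])
        (by linarith only [t1, q1]) (by linarith only [t0]) (by linarith only [t1])
      rw [p2_eq] at this
      linarith only [this]

/-! ### gains -/

theorem fin1 {c F cn un : ℝ} (h : 0 < g1 c T x (tt T x) x' t' cn un + F)
    (h1 : cn ≤ uu (c + x') (T + t')) (h2 : uu (x + x') (tt T x + t') ≤ un) :
    -F < gn1 c x T x' t' := by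
  unfold gn1 g1
  unfold g1 at h
  linarith only [h, h1, h2]

theorem fin2 {c F cn un : ℝ} (h : 0 < g2 c T x (tt T x) x' t' cn un - F)
    (h1 : cn ≤ uu (c + x') (t' - T)) (h2 : uu (x + x') (t' - tt T x) ≤ un) :
    F < gn2 c x T x' t' := by
  unfold gn2 g2
  unfold g2 at h
  linarith only [h, h1, h2]

theorem cn_bey (a Y : ℝ) : uu (a - 1) Y + Real.pi * 1 * Y ≤ uu a Y ∧
    uu (a - 1) Y + Real.pi * -1 * Y ≤ uu a Y := by
  have hp := Real.pi_pos
  have e := uu_add_one (a - 1) Y
  rw [sub_add_cancel] at e
  have h1 := mul_le_mul_of_nonneg_left (le_abs_self Y) hp.le
  have h2 := mul_le_mul_of_nonneg_left (neg_abs_le Y) hp.le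
  rw [e]
  constructor <;> linarith only [h1, h2]

theorem cn_mid {s0 y0 c : ℝ} (K : MR.Kr s0 y0 c) (hc : 0 ≤ c) (h1 : s0 ≤ 1 / 2)
    (h3 : 3 / 100 ≤ s0) {a Y : ℝ} (ha : 97 / 100 ≤ a) (hb : a ≤ 103 / 100) (hy : |Y| ≤ y0) :
    uu (3 / 100) Y + Real.pi * 1 * Y - c * (103 / 100 - a) ≤ uu a Y ∧
    uu (3 / 100) Y + Real.pi * -1 * Y - c * (103 / 100 - a) ≤ uu a Y := by
  have h4 := anti1c K hc h1 (a := a) (b := 103 / 100) (y := Y) (by linarith only [h3, ha]) hb (by linarith only [h3]) hy
  obtain ⟨h5, h6⟩ := cn_bey (103 / 100) Y
  norm_num at h5 h6 ⊢
  constructor <;> linarith only [h4, h5, h6]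

theorem un_p {a y : ℝ} (h : 0 ≤ y) : uu a y ≤ uu (a - 1) y + Real.pi * 1 * y := by
  have e := uu_add_one (a - 1) y
  rw [sub_add_cancel, abs_of_nonneg h] at e
  linarith only [e]

theorem un_n {a y : ℝ} (h : y ≤ 0) : uu a y ≤ uu (a - 1) y + Real.pi * -1 * y := by
  have e := uu_add_one (a - 1) y
  rw [sub_add_cancel, abs_of_nonpos h] at e
  linarith only [e]

theorem V1lo (h0 : 56 / 100 ≤ x) (h1 : x ≤ 75 / 100) (h : R1 T x' t')
    (hs : x + x' ≤ 97 / 100) :
    -G1 x T < gn1 (40 / 100) x T x' t' := by
  obtain ⟨T0, T1, x0, x1, t0, t1, s1, up, dn, r1, r2, hi⟩ := h
  obtain ⟨-, -, q3⟩ := tt_mem (x := x) (by linarith only [h0]) (by linarith only [h1]) T0 T1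
  obtain ⟨q1, q2⟩ := tt_mem2 (x := x) (by linarith only [h0]) (by linarith only [h1]) T0 T1
  rcases le_total x' (16 / 100) with h2 | h2
  · obtain ⟨k, k1, k2, k3⟩ := ex_k (a := 16 / 100) (lo := -(993 / 10000)) (hi := 1450 / 10000)
      (t' := t') (by linarith only [x0] : 0 < x') (by linarith only [x0, dn]) (by linarith only [up])
    have e : 100 / 16 * k * x' = t' := by linear_combination (100 / 16) * k3
    have h := V1a (x := x) (T := T) (s := x') (k := k) (by linarith only [h0]) (by linarith only [h1]) (by linarith only [T0])
      (by linarith only [T1]) (by linarith only [x0]) (by linarith only [h2]) (by linarith only [k1]) (by linarith only [k2])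
      (by rw [e]; linarith only [s1])
    rw [e] at h
    exact fin1 h le_rfl le_rfl
  · rcases le_total (x + x') (94 / 100) with h3 | h3
    · have h := V1b (x := x) (T := T) (s := x') (k := t') (by linarith only [h0]) (by linarith only [h1]) (by linarith only [T0])
          (by linarith only [T1]) (by linarith only [h2]) (by linarith only [h0, h3]) (by linarith only [t0]) (by linarith only [t1]) (by linarith only [s1])
          (by linarith only [h3])
      exact fin1 h le_rfl le_rfl
    · have h := B1lo (x := x) (T := T) (s := x + x') (k := tt T x + t') (by linarith only [h0])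
        (by linarith only [h1]) (by linarith only [T0]) (by linarith only [T1]) (by linarith only [h3]) (by linarith only [hs]) (by linarith only [t0, q1])
        (by rcases q3 with q3 | q3 <;> linarith only [s1, q3, t1]) (by linarith only [s1]) (by linarith only [t0]) (by linarith only [t1])
        (by linarith only [x0, up])
      rw [show x + x' - x = x' by ring, show tt T x + t' - tt T x = t' by ring] at h
      exact fin1 h le_rfl (anti1c kr_6_187 (by norm_num) (by norm_num) (by linarith only [])
        (by linarith only [h3]) (by linarith only [hs])
        (by rw [abs_le]; constructor <;> first | linarith only [t0, q1] | (rcases q3 with q3 | q3 <;> linarith only [s1, q3, t1])))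

theorem V1loP (h0 : 535 / 1000 ≤ x) (h1 : x ≤ 56 / 100) (h : R1P T x' t')
    (hs : x + x' ≤ 97 / 100) :
    -G1 x T < gn1 (40 / 100) x T x' t' := by
  obtain ⟨⟨T0, T1, x0, x1, t0, t1, s1, up, dn, r1, r2, hi⟩, s2, t2, up2⟩ := h
  obtain ⟨q1, q2, q3⟩ := tt_mem (x := x) (by linarith only [h0]) (by linarith only [h1]) T0 T1
  rcases le_total x' (13 / 100) with h2 | h2
  · obtain ⟨k, k1, k2, k3⟩ := ex_k (a := 13 / 100) (lo := -(806 / 10000)) (hi := 940 / 10000)
      (t' := t') (by linarith only [x0] : 0 < x') (by linarith only [dn]) (by linarith only [up2])
    have e : 100 / 13 * k * x' = t' := by linear_combination (100 / 13) * k3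
    have h := V1Pa (x := x) (T := T) (s := x') (k := k) (by linarith only [h0]) (by linarith only [h1])
      (by linarith only [T0]) (by linarith only [T1]) (by linarith only [x0]) (by linarith only [h2]) (by linarith only [k1]) (by linarith only [k2])
      (by rw [e]; linarith only [s2])
    rw [e] at h
    exact fin1 h le_rfl le_rfl
  · rcases le_total (x + x') (94 / 100) with h3 | h3
    · have h := V1Pb (x := x) (T := T) (s := x') (k := t') (by linarith only [h0]) (by linarith only [h1]) (by linarith only [T0])
          (by linarith only [T1]) (by linarith only [h2]) (by linarith only [h0, h3]) (by linarith only [t0]) (by linarith only [t2]) (by linarith only [s2])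
          (by linarith only [dn]) (by linarith only [h3])
      exact fin1 h le_rfl le_rfl
    · have h := B1lo (x := x) (T := T) (s := x + x') (k := tt T x + t') (by linarith only [h0])
        (by linarith only [h1]) (by linarith only [T0]) (by linarith only [T1]) (by linarith only [h3]) (by linarith only [hs]) (by linarith only [t0, q1])
        (by rcases q3 with q3 | q3 <;> linarith only [t2, q2]) (by linarith only [s2]) (by linarith only [t0]) (by linarith only [t2])
        (by linarith only [up2, x0])
      rw [show x + x' - x = x' by ring, show tt T x + t' - tt T x = t' by ring] at h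
      exact fin1 h le_rfl (anti1c kr_6_187 (by norm_num) (by norm_num) (by linarith only [])
        (by linarith only [h3]) (by linarith only [hs])
        (by rw [abs_le]; constructor <;> first | linarith only [t0, q1, t2, q2] | (rcases q3 with q3 | q3 <;> linarith)))

theorem V2lo (h0 : 535 / 1000 ≤ x) (h1 : x ≤ 75 / 100) (h : R2 T x' t')
    (hs : x + x' ≤ 97 / 100) :
    F1 x T < gn2 (40 / 100) x T x' t' := by
  obtain ⟨T0, T1, x0, x1, t0, t1, up, dn, r1, r1', r2⟩ := h
  obtain ⟨q1, q2, q3⟩ := tt_mem (x := x) (by linarith only [h0]) (by linarith only [h1]) T0 T1
  rcases le_total x' (125 / 1000) with h2 | h2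
  · obtain ⟨k, k1, k2, k3⟩ := ex_k (a := 1 / 8) (lo := -(1075 / 10000)) (hi := 960 / 10000)
      (t' := t') (by linarith only [x0] : 0 < x') (by linarith only [dn]) (by linarith only [up])
    have e : 8 * k * x' = t' := by linear_combination (8) * k3
    have h := V2a (x := x) (T := T) (s := x') (k := k) (by linarith only [h0]) (by linarith only [h1]) (by linarith only [T0])
      (by linarith only [T1]) (by linarith only [x0]) (by linarith only [h2]) (by linarith only [k1]) (by linarith only [k2])
    rw [e] at h
    exact fin2 h le_rfl le_rfl
  · rcases le_total (x + x') (94 / 100) with h3 | h3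
    · have h := V2b (x := x) (T := T) (s := x') (k := t') (by linarith only [h0]) (by linarith only [h1]) (by linarith only [T0])
          (by linarith only [T1]) (by linarith only [h2]) (by linarith only [h0, h3]) (by linarith only [t0]) (by linarith only [t1]) (by linarith only [h3])
      exact fin2 h le_rfl le_rfl
    · have h := B2lo (x := x) (T := T) (s := x + x') (k := t' - tt T x) (by linarith only [h0])
        (by linarith only [h1]) (by linarith only [T0]) (by linarith only [T1]) (by linarith only [h3]) (by linarith only [hs]) (by linarith only [t0, q2])
        (by linarith only [t1, q1]) (by linarith only [t0]) (by linarith only [t1])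
      rw [show x + x' - x = x' by ring, show t' - tt T x + tt T x = t' by ring] at h
      exact fin2 h le_rfl (anti1c kr_6_2 (by norm_num) (by norm_num) (by linarith only [])
        (by linarith only [h3]) (by linarith only [hs])
        (by rw [abs_le]; constructor <;> first | linarith only [t0, q2, t1, q1] | (rcases q3 with q3 | q3 <;> linarith)))

theorem V1D (h0 : 535 / 1000 ≤ x) (h1 : x ≤ 75 / 100) (h : R1 T x' t')
    (hx : 70 / 100 < x') (hs : 106 / 100 ≤ x + x') :
    -F1 x T < gn1 (40 / 100) x T x' t' := by
  obtain ⟨T0, T1, x0, x1, t0, t1, s1, up, dn, r1, r2, hi⟩ := h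
  obtain ⟨i1, i2, i3, i4, i5⟩ := hi hx
  rcases le_total 0 (tt T x + t') with hy | hy
  · have h := Z1Dp (x := x) (T := T) (s := x') (k := t') (by linarith only [h0]) (by linarith only [h1]) (by linarith only [i3])
        (by linarith only [i4]) (by linarith only [hx]) (by linarith only [x1]) (by linarith only [i1]) (by linarith only [hx, r1, i2]) (by linarith only [hy])
        (by linarith only [hx, T1, r1, i2]) (by linarith only [i2]) (by linarith only [h0, hx])
    obtain ⟨m1, m2⟩ := cn_bey (40 / 100 + x') (T + t')
    rcases h with h | h
    · exact fin1 h m1 (un_p hy)
    · exact fin1 h m2 (un_p hy)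
  · have h := Z1Dn (x := x) (T := T) (s := x') (k := t') (by linarith only [h0]) (by linarith only [h1]) (by linarith only [i3])
        (by linarith only [i4]) (by linarith only [hx]) (by linarith only [x1]) (by linarith only [i1]) (by linarith only [hx, r1, i2]) (by linarith only [hy])
        (by linarith only [hx, T1, r1, i2]) (by linarith only [i2]) (by linarith only [h0, hx])
    obtain ⟨m1, m2⟩ := cn_bey (40 / 100 + x') (T + t')
    rcases h with h | h
    · exact fin1 h m1 (un_n hy)
    · exact fin1 h m2 (un_n hy)

theorem V1hi (h0 : 56 / 100 ≤ x) (h1 : x ≤ 75 / 100) (hR : R1 T x' t')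
    (hs : 97 / 100 ≤ x + x') :
    -F1 x T < gn1 (40 / 100) x T x' t' := by
  have HR := hR
  obtain ⟨T0, T1, x0, x1, t0, t1, s1, up, dn, r1, r2, hi⟩ := hR
  obtain ⟨-, -, q3⟩ := tt_mem (x := x) (by linarith only [h0]) (by linarith only [h1]) T0 T1
  obtain ⟨q1, q2⟩ := tt_mem2 (x := x) (by linarith only [h0]) (by linarith only [h1]) T0 T1
  rcases le_total (x + x') (106 / 100) with h2 | h2
  · have h := B1hi (x := x) (T := T) (s := x + x') (k := tt T x + t') (by linarith only [h0])
      (by linarith only [h1]) (by linarith only [T0]) (by linarith only [T1]) (by linarith only [hs]) (by linarith only [h2]) (by linarith only [t0, q1])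
      (by rcases q3 with q3 | q3 <;> linarith only [s1, q3, t1]) (by linarith only [s1]) (by linarith only [t0]) (by linarith only [t1])
      (by linarith only [h1, hs, t1])
    rw [show x + x' - x = x' by ring, show tt T x + t' - tt T x = t' by ring] at h
    exact fin1 h le_rfl (anti1c kr_6_187 (by norm_num) (by norm_num) (by linarith only [])
      (by linarith only [hs]) (by linarith only [h2])
      (by rw [abs_le]; constructor <;> first | linarith only [t0, q1] | (rcases q3 with q3 | q3 <;> linarith only [s1, q3, t1])))
  · rcases le_total x' (57 / 100) with h3 | h3
    · rcases le_total 0 (tt T x + t') with hy | hy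
      · have h := Z1Ap (x := x) (T := T) (s := x') (k := t') (by linarith only [h0]) (by linarith only [h1]) (by linarith only [T0])
            (by linarith only [T1]) (by linarith only [h1, h2]) (by linarith only [h3]) (by linarith only [t0]) (by linarith only [t1]) (by linarith only [hy])
            (by linarith only [s1]) (by linarith only [r1]) (by linarith only [r2]) (by linarith only [h2])
        exact fin1 h le_rfl (un_p hy)
      · have h := Z1An (x := x) (T := T) (s := x') (k := t') (by linarith only [h0]) (by linarith only [h1]) (by linarith only [T0])
            (by linarith only [T1]) (by linarith only [h1, h2]) (by linarith only [h3]) (by linarith only [t0]) (by linarith only [t1]) (by linarith only [hy])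
            (by linarith only [s1]) (by linarith only [r1]) (by linarith only [r2]) (by linarith only [h2])
        exact fin1 h le_rfl (un_n hy)
    · rcases le_total x' (63 / 100) with h4 | h4
      · rcases le_total 0 (tt T x + t') with hy | hy
        · have h := Z1Bp (x := x) (T := T) (s := x') (k := t') (by linarith only [h0]) (by linarith only [h1]) (by linarith only [T0])
              (by linarith only [T1]) (by linarith only [h3]) (by linarith only [h4]) (by linarith only [t0]) (by linarith only [t1])
              (by linarith only [hy]) (by linarith only [s1]) (by linarith only [r1]) (by linarith only [r2]) (by linarith only [h0, h3])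
          obtain ⟨m1, m2⟩ := cn_mid kr_6_187 (by norm_num) (by norm_num) (by norm_num)
            (a := 40 / 100 + x') (Y := T + t') (by linarith only [h3]) (by linarith only [h4])
            (by rw [abs_le]; constructor <;> linarith only [T0, t0, s1])
          rcases h with h | h
          · exact fin1 h m1 (un_p hy)
          · exact fin1 h m2 (un_p hy)
        · have h := Z1Bn (x := x) (T := T) (s := x') (k := t') (by linarith only [h0]) (by linarith only [h1]) (by linarith only [T0])
              (by linarith only [T1]) (by linarith only [h3]) (by linarith only [h4]) (by linarith only [t0]) (by linarith only [t1])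
              (by linarith only [hy]) (by linarith only [s1]) (by linarith only [r1]) (by linarith only [r2]) (by linarith only [h0, h3])
          obtain ⟨m1, m2⟩ := cn_mid kr_6_187 (by norm_num) (by norm_num) (by norm_num)
            (a := 40 / 100 + x') (Y := T + t') (by linarith only [h3]) (by linarith only [h4])
            (by rw [abs_le]; constructor <;> linarith only [T0, t0, s1])
          rcases h with h | h
          · exact fin1 h m1 (un_n hy)
          · exact fin1 h m2 (un_n hy)
      · rcases le_or_gt x' (70 / 100) with h5 | h5
        · rcases le_total 0 (tt T x + t') with hy | hy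
          · have h := Z1Cp (x := x) (T := T) (s := x') (k := t') (by linarith only [h0]) (by linarith only [h1])
                (by linarith only [T0]) (by linarith only [T1]) (by linarith only [h4]) (by linarith only [h5]) (by linarith only [t0])
                (by linarith only [t1]) (by linarith only [hy]) (by linarith only [s1]) (by linarith only [r1]) (by linarith only [r2])
                (by linarith only [h0, h4])
            obtain ⟨m1, m2⟩ := cn_bey (40 / 100 + x') (T + t')
            rcases h with h | h
            · exact fin1 h m1 (un_p hy)
            · exact fin1 h m2 (un_p hy)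
          · have h := Z1Cn (x := x) (T := T) (s := x') (k := t') (by linarith only [h0]) (by linarith only [h1])
                (by linarith only [T0]) (by linarith only [T1]) (by linarith only [h4]) (by linarith only [h5]) (by linarith only [t0])
                (by linarith only [t1]) (by linarith only [hy]) (by linarith only [s1]) (by linarith only [r1]) (by linarith only [r2])
                (by linarith only [h0, h4])
            obtain ⟨m1, m2⟩ := cn_bey (40 / 100 + x') (T + t')
            rcases h with h | h
            · exact fin1 h m1 (un_n hy)
            · exact fin1 h m2 (un_n hy)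
        · exact V1D (by linarith only [h0]) (by linarith only [h1]) HR h5 h2

theorem V1hiP (h0 : 535 / 1000 ≤ x) (h1 : x ≤ 56 / 100) (hR : R1P T x' t')
    (hs : 97 / 100 ≤ x + x') :
    -F1 x T < gn1 (40 / 100) x T x' t' := by
  have HR := hR.toR1
  obtain ⟨⟨T0, T1, x0, x1, t0, t1, s1, up, dn, r1, r2, hi⟩, s2, t2, up2⟩ := hR
  obtain ⟨q1, q2, q3⟩ := tt_mem (x := x) (by linarith only [h0]) (by linarith only [h1]) T0 T1
  rcases le_total (x + x') (106 / 100) with h2 | h2
  · have h := B1Phi (x := x) (T := T) (s := x + x') (k := tt T x + t') (by linarith only [h0])
      (by linarith only [h1]) (by linarith only [T0]) (by linarith only [T1]) (by linarith only [hs]) (by linarith only [h2]) (by linarith only [t0, q1])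
      (by rcases q3 with q3 | q3 <;> linarith only [s2, q3, t2]) (by linarith only [s2]) (by linarith only [t0]) (by linarith only [t2])
    rw [show x + x' - x = x' by ring, show tt T x + t' - tt T x = t' by ring] at h
    exact fin1 h le_rfl (anti1c kr_6_187 (by norm_num) (by norm_num) (by linarith only [])
      (by linarith only [hs]) (by linarith only [h2])
      (by rw [abs_le]; constructor <;> first | linarith only [t0, q1, t2, q2] | (rcases q3 with q3 | q3 <;> linarith)))
  · rcases le_total x' (57 / 100) with h3 | h3
    · rcases le_total 0 (tt T x + t') with hy | hy
      · have h := Z1PAp (x := x) (T := T) (s := x') (k := t') (by linarith only [h0]) (by linarith only [h1]) (by linarith only [T0])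
            (by linarith only [T1]) (by linarith only [h1, h2]) (by linarith only [h3]) (by linarith only [t0]) (by linarith only [t2]) (by linarith only [hy])
            (by linarith only [s2]) (by linarith only [h2])
        exact fin1 h le_rfl (un_p hy)
      · have h := Z1PAn (x := x) (T := T) (s := x') (k := t') (by linarith only [h0]) (by linarith only [h1]) (by linarith only [T0])
            (by linarith only [T1]) (by linarith only [h1, h2]) (by linarith only [h3]) (by linarith only [t0]) (by linarith only [q1, hy]) (by linarith only [hy])
            (by linarith only [T1, q1, hy]) (by linarith only [h2])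
        exact fin1 h le_rfl (un_n hy)
    · rcases le_total x' (63 / 100) with h4 | h4
      · rcases le_total 0 (tt T x + t') with hy | hy
        · have h := Z1PBp (x := x) (T := T) (s := x') (k := t') (by linarith only [h0]) (by linarith only [h1])
              (by linarith only [T0]) (by linarith only [T1]) (by linarith only [h3]) (by linarith only [h4]) (by linarith only [t0])
              (by linarith only [r1, h3]) (by linarith only [hy]) (by linarith only [s2]) (by linarith only [h0, h3])
          obtain ⟨m1, m2⟩ := cn_mid kr_6_187 (by norm_num) (by norm_num) (by norm_num)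
            (a := 40 / 100 + x') (Y := T + t') (by linarith only [h3]) (by linarith only [h4])
            (by rw [abs_le]; constructor <;> linarith only [T0, t0, s2])
          rcases h with h | h
          · exact fin1 h m1 (un_p hy)
          · exact fin1 h m2 (un_p hy)
        · have h := Z1PBn (x := x) (T := T) (s := x') (k := t') (by linarith only [h0]) (by linarith only [h1])
              (by linarith only [T0]) (by linarith only [T1]) (by linarith only [h3]) (by linarith only [h4]) (by linarith only [t0])
              (by linarith only [q1, hy]) (by linarith only [hy]) (by linarith only [T1, q1, hy]) (by linarith only [h0, h3])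
          obtain ⟨m1, m2⟩ := cn_mid kr_6_187 (by norm_num) (by norm_num) (by norm_num)
            (a := 40 / 100 + x') (Y := T + t') (by linarith only [h3]) (by linarith only [h4])
            (by rw [abs_le]; constructor <;> linarith only [T0, t0, T1, q1, hy])
          rcases h with h | h
          · exact fin1 h m1 (un_n hy)
          · exact fin1 h m2 (un_n hy)
      · rcases le_or_gt x' (70 / 100) with h5 | h5
        · rcases le_total 0 (tt T x + t') with hy | hy
          · have h := Z1PCp (x := x) (T := T) (s := x') (k := t') (by linarith only [h0]) (by linarith only [h1])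
                (by linarith only [T0]) (by linarith only [T1]) (by linarith only [h4]) (by linarith only [h5]) (by linarith only [t0])
                (by linarith only [r1, h4]) (by linarith only [hy]) (by linarith only [s2]) (by linarith only [h0, h4])
            obtain ⟨m1, m2⟩ := cn_bey (40 / 100 + x') (T + t')
            rcases h with h | h
            · exact fin1 h m1 (un_p hy)
            · exact fin1 h m2 (un_p hy)
          · have h := Z1PCn (x := x) (T := T) (s := x') (k := t') (by linarith only [h0]) (by linarith only [h1])
                (by linarith only [T0]) (by linarith only [T1]) (by linarith only [h4]) (by linarith only [h5]) (by linarith only [t0])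
                (by linarith only [q1, hy]) (by linarith only [hy]) (by linarith only [T1, q1, hy]) (by linarith only [h0, h4])
            obtain ⟨m1, m2⟩ := cn_bey (40 / 100 + x') (T + t')
            rcases h with h | h
            · exact fin1 h m1 (un_n hy)
            · exact fin1 h m2 (un_n hy)
        · exact V1D (by linarith only [h0]) (by linarith only [h1]) HR h5 h2

theorem V2hi (h0 : 535 / 1000 ≤ x) (h1 : x ≤ 75 / 100) (h : R2 T x' t')
    (hs : 97 / 100 ≤ x + x') :
    G1 x T < gn2 (40 / 100) x T x' t' := by
  obtain ⟨T0, T1, x0, x1, t0, t1, up, dn, r1, r1', r2⟩ := h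
  obtain ⟨q1, q2, q3⟩ := tt_mem (x := x) (by linarith only [h0]) (by linarith only [h1]) T0 T1
  rcases le_total (x + x') (106 / 100) with h2 | h2
  · have h := B2hi (x := x) (T := T) (s := x + x') (k := t' - tt T x) (by linarith only [h0])
      (by linarith only [h1]) (by linarith only [T0]) (by linarith only [T1]) (by linarith only [hs]) (by linarith only [h2]) (by linarith only [t0, q2])
      (by linarith only [t1, q1]) (by linarith only [t0]) (by linarith only [t1])
    rw [show x + x' - x = x' by ring, show t' - tt T x + tt T x = t' by ring] at h
    exact fin2 h le_rfl (anti1c kr_6_2 (by norm_num) (by norm_num) (by linarith only [])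
      (by linarith only [hs]) (by linarith only [h2])
      (by rw [abs_le]; constructor <;> first | linarith only [t0, q2, t1, q1] | (rcases q3 with q3 | q3 <;> linarith)))
  · rcases le_total x' (57 / 100) with h3 | h3
    · have r1 := r1 (by linarith only [h3])
      rcases le_total 0 (t' - tt T x) with hy | hy
      · have h := Z2Ap (x := x) (T := T) (s := x') (k := t') (by linarith only [h0]) (by linarith only [h1]) (by linarith only [T0])
            (by linarith only [T1]) (by linarith only [h1, h2]) (by linarith only [h3]) (by linarith only [q1, hy]) (by linarith only [t1]) (by linarith only [hy])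
            (by linarith only [r1]) (by linarith only [r2]) (by linarith only [h2])
        exact fin2 h le_rfl (un_p hy)
      · have h := Z2An (x := x) (T := T) (s := x') (k := t') (by linarith only [h0]) (by linarith only [h1]) (by linarith only [T0])
            (by linarith only [T1]) (by linarith only [h1, h2]) (by linarith only [h3]) (by linarith only [t0]) (by linarith only [t1]) (by linarith only [hy])
            (by linarith only [r1]) (by linarith only [r2]) (by linarith only [h2])
        exact fin2 h le_rfl (un_n hy)
    · rcases le_total x' (63 / 100) with h4 | h4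
      · have r1 := r1 (by linarith only [h4])
        rcases le_total 0 (t' - tt T x) with hy | hy
        · have h := Z2Bp (x := x) (T := T) (s := x') (k := t') (by linarith only [h0]) (by linarith only [h1]) (by linarith only [T0])
              (by linarith only [T1]) (by linarith only [h3]) (by linarith only [h4]) (by linarith only [q1, hy]) (by linarith only [t1])
              (by linarith only [hy]) (by linarith only [r1]) (by linarith only [r2]) (by linarith only [h0, h3])
          obtain ⟨m1, m2⟩ := cn_mid kr_6_2 (by norm_num) (by norm_num) (by norm_num)
            (a := 40 / 100 + x') (Y := t' - T) (by linarith only [h3]) (by linarith only [h4])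
            (by rw [abs_le]; constructor <;> linarith only [T1, q1, hy, T0, t1])
          rcases h with h | h
          · exact fin2 h m1 (un_p hy)
          · exact fin2 h m2 (un_p hy)
        · have h := Z2Bn (x := x) (T := T) (s := x') (k := t') (by linarith only [h0]) (by linarith only [h1]) (by linarith only [T0])
              (by linarith only [T1]) (by linarith only [h3]) (by linarith only [h4]) (by linarith only [r2, h3]) (by linarith only [t1])
              (by linarith only [hy]) (by linarith only [r1]) (by linarith only [r2]) (by linarith only [h0, h3])
          obtain ⟨m1, m2⟩ := cn_mid kr_6_2 (by norm_num) (by norm_num) (by norm_num)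
            (a := 40 / 100 + x') (Y := t' - T) (by linarith only [h3]) (by linarith only [h4])
            (by rw [abs_le]; constructor <;> linarith only [T1, r2, h3, T0, t1])
          rcases h with h | h
          · exact fin2 h m1 (un_n hy)
          · exact fin2 h m2 (un_n hy)
      · have r1' := r1' (by linarith only [h4])
        rcases le_total 0 (t' - tt T x) with hy | hy
        · have h := Z2Cp (x := x) (T := T) (s := x') (k := t') (by linarith only [h0]) (by linarith only [h1]) (by linarith only [T0])
              (by linarith only [T1]) (by linarith only [h4]) (by linarith only [x1]) (by linarith only [q1, hy]) (by linarith only [t1])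
              (by linarith only [hy]) (by linarith only [r1']) (by linarith only [r2]) (by linarith only [h0, h4])
          obtain ⟨m1, m2⟩ := cn_bey (40 / 100 + x') (t' - T)
          rcases h with h | h
          · exact fin2 h m1 (un_p hy)
          · exact fin2 h m2 (un_p hy)
        · have h := Z2Cn (x := x) (T := T) (s := x') (k := t') (by linarith only [h0]) (by linarith only [h1]) (by linarith only [T0])
              (by linarith only [T1]) (by linarith only [h4]) (by linarith only [x1]) (by linarith only [r2, h4]) (by linarith only [t1])
              (by linarith only [hy]) (by linarith only [r1']) (by linarith only [r2]) (by linarith only [h0, h4])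
          obtain ⟨m1, m2⟩ := cn_bey (40 / 100 + x') (t' - T)
          rcases h with h | h
          · exact fin2 h m1 (un_n hy)
          · exact fin2 h m2 (un_n hy)

theorem W1 (h0 : 75 / 100 ≤ x) (h1 : x ≤ 80 / 100) (h : R1 T x' t') :
    -F3 x T < gn1 (44 / 100) x T x' t' := by
  obtain ⟨T0, T1, x0, x1, t0, t1, s1, up, dn, r1, r2, hi⟩ := h
  obtain ⟨-, -, q3⟩ := tt_mem (x := x) (by linarith only [h0]) (by linarith only [h1]) T0 T1
  obtain ⟨q1, q2⟩ := tt_mem3 (x := x) (by linarith only [h0]) (by linarith only [h1]) T0 T1
  rcases le_total x' (16 / 100) with h2 | h2
  · obtain ⟨k, k1, k2, k3⟩ := ex_k (a := 16 / 100) (lo := -(993 / 10000)) (hi := 1450 / 10000)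
      (t' := t') (by linarith only [x0] : 0 < x') (by linarith only [x0, dn]) (by linarith only [up])
    have e : 100 / 16 * k * x' = t' := by linear_combination (100 / 16) * k3
    have h := W1a (x := x) (T := T) (s := x') (k := k) (by linarith only [h0]) (by linarith only [h1]) (by linarith only [T0])
      (by linarith only [T1]) (by linarith only [x0]) (by linarith only [h2]) (by linarith only [k1]) (by linarith only [k2])
      (by rw [e]; linarith only [s1])
    rw [e] at h
    exact fin1 h le_rfl le_rfl
  · rcases le_total (x + x') (94 / 100) with h3 | h3
    · have h := W1b (x := x) (T := T) (s := x') (k := t') (by linarith only [h0]) (by linarith only [h1]) (by linarith only [T0])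
          (by linarith only [T1]) (by linarith only [h2]) (by linarith only [h0, h3]) (by linarith only [t0]) (by linarith only [t1]) (by linarith only [s1])
          (by linarith only [h3])
      exact fin1 h le_rfl le_rfl
    · rcases le_total (x + x') (106 / 100) with h4 | h4
      · have h := W1c (x := x) (T := T) (s := x + x') (k := tt T x + t') (by linarith only [h0])
          (by linarith only [h1]) (by linarith only [T0]) (by linarith only [T1]) (by linarith only [h3]) (by linarith only [h4]) (by linarith only [t0, q1])
          (by rcases q3 with q3 | q3 <;> linarith only [s1, q3, t1, q2]) (by linarith only [s1]) (by linarith only [t0]) (by linarith only [t1])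
          (by linarith only [t1, h2])
        rw [show x + x' - x = x' by ring, show tt T x + t' - tt T x = t' by ring] at h
        exact fin1 h le_rfl (anti1c kr_6_187 (by norm_num) (by norm_num) (by linarith only [])
          (by linarith only [h3]) (by linarith only [h4])
          (by rw [abs_le]; constructor <;> first | linarith only [t0, q1, t1, q2] | (rcases q3 with q3 | q3 <;> linarith)))
      · rcases le_total x' (53 / 100) with h5 | h5
        · rcases le_total 0 (tt T x + t') with hy | hy
          · have h := Y1Ap (x := x) (T := T) (s := x') (k := t') (by linarith only [h0]) (by linarith only [h1])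
                (by linarith only [T0]) (by linarith only [T1]) (by linarith only [h1, h4]) (by linarith only [h5]) (by linarith only [t0])
                (by linarith only [t1]) (by linarith only [hy]) (by linarith only [s1]) (by linarith only [r1]) (by linarith only [r2])
                (by linarith only [h4])
            exact fin1 h le_rfl (un_p hy)
          · have h := Y1An (x := x) (T := T) (s := x') (k := t') (by linarith only [h0]) (by linarith only [h1])
                (by linarith only [T0]) (by linarith only [T1]) (by linarith only [h1, h4]) (by linarith only [h5]) (by linarith only [t0])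
                (by linarith only [t1]) (by linarith only [hy]) (by linarith only [s1]) (by linarith only [r1]) (by linarith only [r2])
                (by linarith only [h4])
            exact fin1 h le_rfl (un_n hy)
        · rcases le_total x' (59 / 100) with h6 | h6
          · rcases le_total 0 (tt T x + t') with hy | hy
            · have h := Y1Bp (x := x) (T := T) (s := x') (k := t') (by linarith only [h0]) (by linarith only [h1])
                  (by linarith only [T0]) (by linarith only [T1]) (by linarith only [h5]) (by linarith only [h6]) (by linarith only [t0])
                  (by linarith only [t1]) (by linarith only [hy]) (by linarith only [s1]) (by linarith only [r1]) (by linarith only [r2])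
                  (by linarith only [h0, h5])
              obtain ⟨m1, m2⟩ := cn_mid kr_6_187 (by norm_num) (by norm_num) (by norm_num)
                (a := 44 / 100 + x') (Y := T + t') (by linarith only [h5]) (by linarith only [h6])
                (by rw [abs_le]; constructor <;> linarith only [T0, t0, s1])
              rcases h with h | h
              · exact fin1 h m1 (un_p hy)
              · exact fin1 h m2 (un_p hy)
            · have h := Y1Bn (x := x) (T := T) (s := x') (k := t') (by linarith only [h0]) (by linarith only [h1])
                  (by linarith only [T0]) (by linarith only [T1]) (by linarith only [h5]) (by linarith only [h6]) (by linarith only [t0])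
                  (by linarith only [t1]) (by linarith only [hy]) (by linarith only [s1]) (by linarith only [r1]) (by linarith only [r2])
                  (by linarith only [h0, h5])
              obtain ⟨m1, m2⟩ := cn_mid kr_6_187 (by norm_num) (by norm_num) (by norm_num)
                (a := 44 / 100 + x') (Y := T + t') (by linarith only [h5]) (by linarith only [h6])
                (by rw [abs_le]; constructor <;> linarith only [T0, t0, s1])
              rcases h with h | h
              · exact fin1 h m1 (un_n hy)
              · exact fin1 h m2 (un_n hy)
          · rcases le_or_gt x' (70 / 100) with h7 | h7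
            · rcases le_total 0 (tt T x + t') with hy | hy
              · have h := Y1Cp (x := x) (T := T) (s := x') (k := t') (by linarith only [h0]) (by linarith only [h1])
                    (by linarith only [T0]) (by linarith only [T1]) (by linarith only [h6]) (by linarith only [h7]) (by linarith only [t0])
                    (by linarith only [t1]) (by linarith only [hy]) (by linarith only [s1]) (by linarith only [r1]) (by linarith only [r2])
                    (by linarith only [h0, h6])
                obtain ⟨m1, m2⟩ := cn_bey (44 / 100 + x') (T + t')
                rcases h with h | h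
                · exact fin1 h m1 (un_p hy)
                · exact fin1 h m2 (un_p hy)
              · have h := Y1Cn (x := x) (T := T) (s := x') (k := t') (by linarith only [h0]) (by linarith only [h1])
                    (by linarith only [T0]) (by linarith only [T1]) (by linarith only [h6]) (by linarith only [h7]) (by linarith only [t0])
                    (by linarith only [t1]) (by linarith only [hy]) (by linarith only [s1]) (by linarith only [r1]) (by linarith only [r2])
                    (by linarith only [h0, h6])
                obtain ⟨m1, m2⟩ := cn_bey (44 / 100 + x') (T + t')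
                rcases h with h | h
                · exact fin1 h m1 (un_n hy)
                · exact fin1 h m2 (un_n hy)
            · obtain ⟨i1, i2, i3, i4, i5⟩ := hi h7
              rcases le_total 0 (tt T x + t') with hy | hy
              · have h := Y1Dp (x := x) (T := T) (s := x') (k := t') (by linarith only [h0]) (by linarith only [h1])
                    (by linarith only [i3]) (by linarith only [i4]) (by linarith only [h7]) (by linarith only [x1]) (by linarith only [i1])
                    (by linarith only [r1, h7, i2]) (by linarith only [hy]) (by linarith only [T1, r1, h7, i2]) (by linarith only [i2])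
                obtain ⟨m1, m2⟩ := cn_bey (44 / 100 + x') (T + t')
                rcases h with h | h
                · exact fin1 h m1 (un_p hy)
                · exact fin1 h m2 (un_p hy)
              · have h := Y1Dn (x := x) (T := T) (s := x') (k := t') (by linarith only [h0]) (by linarith only [h1])
                    (by linarith only [i3]) (by linarith only [i4]) (by linarith only [h7]) (by linarith only [x1]) (by linarith only [i1])
                    (by linarith only [r1, h7, i2]) (by linarith only [hy]) (by linarith only [T1, r1, h7, i2]) (by linarith only [i2])
                obtain ⟨m1, m2⟩ := cn_bey (44 / 100 + x') (T + t')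
                rcases h with h | h
                · exact fin1 h m1 (un_n hy)
                · exact fin1 h m2 (un_n hy)

theorem W2 (h0 : 75 / 100 ≤ x) (h1 : x ≤ 80 / 100) (h : R2 T x' t') :
    F3 x T < gn2 (44 / 100) x T x' t' := by
  obtain ⟨T0, T1, x0, x1, t0, t1, up, dn, r1, r1', r2⟩ := h
  obtain ⟨-, -, q3⟩ := tt_mem (x := x) (by linarith only [h0]) (by linarith only [h1]) T0 T1
  obtain ⟨q1, q2⟩ := tt_mem3 (x := x) (by linarith only [h0]) (by linarith only [h1]) T0 T1
  rcases le_total x' (125 / 1000) with h2 | h2
  · obtain ⟨k, k1, k2, k3⟩ := ex_k (a := 1 / 8) (lo := -(1075 / 10000)) (hi := 960 / 10000)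
      (t' := t') (by linarith only [x0] : 0 < x') (by linarith only [dn]) (by linarith only [up])
    have e : 8 * k * x' = t' := by linear_combination (8) * k3
    have h := W2a (x := x) (T := T) (s := x') (k := k) (by linarith only [h0]) (by linarith only [h1]) (by linarith only [T0])
      (by linarith only [T1]) (by linarith only [x0]) (by linarith only [h2]) (by linarith only [k1]) (by linarith only [k2])
    rw [e] at h
    exact fin2 h le_rfl le_rfl
  · rcases le_total (x + x') (94 / 100) with h3 | h3
    · have h := W2b (x := x) (T := T) (s := x') (k := t') (by linarith only [h0]) (by linarith only [h1]) (by linarith only [T0])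
          (by linarith only [T1]) (by linarith only [h2]) (by linarith only [h0, h3]) (by linarith only [t0]) (by linarith only [t1]) (by linarith only [h3])
      exact fin2 h le_rfl le_rfl
    · rcases le_total (x + x') (106 / 100) with h4 | h4
      · have h := W2c (x := x) (T := T) (s := x + x') (k := t' - tt T x) (by linarith only [h0])
          (by linarith only [h1]) (by linarith only [T0]) (by linarith only [T1]) (by linarith only [h3]) (by linarith only [h4]) (by linarith only [t0, q2])
          (by linarith only [t1, q1]) (by linarith only [t0]) (by linarith only [t1])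
        rw [show x + x' - x = x' by ring, show t' - tt T x + tt T x = t' by ring] at h
        exact fin2 h le_rfl (anti1c kr_6_2 (by norm_num) (by norm_num) (by linarith only [])
          (by linarith only [h3]) (by linarith only [h4])
          (by rw [abs_le]; constructor <;> first | linarith only [t0, q2, t1, q1] | (rcases q3 with q3 | q3 <;> linarith)))
      · rcases le_total x' (53 / 100) with h5 | h5
        · have r1 := r1 (by linarith only [h5])
          rcases le_total 0 (t' - tt T x) with hy | hy
          · have h := Y2Ap (x := x) (T := T) (s := x') (k := t') (by linarith only [h0]) (by linarith only [h1])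
                (by linarith only [T0]) (by linarith only [T1]) (by linarith only [h1, h4]) (by linarith only [h5]) (by linarith only [q1, hy])
                (by linarith only [t1]) (by linarith only [hy]) (by linarith only [r1]) (by linarith only [r2]) (by linarith only [h4])
            exact fin2 h le_rfl (un_p hy)
          · have h := Y2An (x := x) (T := T) (s := x') (k := t') (by linarith only [h0]) (by linarith only [h1])
                (by linarith only [T0]) (by linarith only [T1]) (by linarith only [h1, h4]) (by linarith only [h5]) (by linarith only [t0])
                (by linarith only [t1]) (by linarith only [hy]) (by linarith only [r1]) (by linarith only [r2]) (by linarith only [h4])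
            exact fin2 h le_rfl (un_n hy)
        · rcases le_total x' (59 / 100) with h6 | h6
          · have r1 := r1 (by linarith only [h6])
            rcases le_total 0 (t' - tt T x) with hy | hy
            · have h := Y2Bp (x := x) (T := T) (s := x') (k := t') (by linarith only [h0]) (by linarith only [h1])
                  (by linarith only [T0]) (by linarith only [T1]) (by linarith only [h5]) (by linarith only [h6]) (by linarith only [q1, hy])
                  (by linarith only [t1]) (by linarith only [hy]) (by linarith only [r1]) (by linarith only [r2]) (by linarith only [h0, h5])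
              obtain ⟨m1, m2⟩ := cn_mid kr_6_2 (by norm_num) (by norm_num) (by norm_num)
                (a := 44 / 100 + x') (Y := t' - T) (by linarith only [h5]) (by linarith only [h6])
                (by rw [abs_le]; constructor <;> linarith only [T1, q1, hy, T0, t1])
              rcases h with h | h
              · exact fin2 h m1 (un_p hy)
              · exact fin2 h m2 (un_p hy)
            · have h := Y2Bn (x := x) (T := T) (s := x') (k := t') (by linarith only [h0]) (by linarith only [h1])
                  (by linarith only [T0]) (by linarith only [T1]) (by linarith only [h5]) (by linarith only [h6]) (by linarith only [r2, h5])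
                  (by linarith only [t1]) (by linarith only [hy]) (by linarith only [r1]) (by linarith only [r2]) (by linarith only [h0, h5])
              obtain ⟨m1, m2⟩ := cn_mid kr_6_2 (by norm_num) (by norm_num) (by norm_num)
                (a := 44 / 100 + x') (Y := t' - T) (by linarith only [h5]) (by linarith only [h6])
                (by rw [abs_le]; constructor <;> linarith only [T1, r2, h5, T0, t1])
              rcases h with h | h
              · exact fin2 h m1 (un_n hy)
              · exact fin2 h m2 (un_n hy)
          · have r1' := r1' (by linarith only [h6])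
            rcases le_total 0 (t' - tt T x) with hy | hy
            · have h := Y2Cp (x := x) (T := T) (s := x') (k := t') (by linarith only [h0]) (by linarith only [h1])
                  (by linarith only [T0]) (by linarith only [T1]) (by linarith only [h6]) (by linarith only [x1]) (by linarith only [q1, hy])
                  (by linarith only [t1]) (by linarith only [hy]) (by linarith only [r1']) (by linarith only [r2]) (by linarith only [h0, h6])
              obtain ⟨m1, m2⟩ := cn_bey (44 / 100 + x') (t' - T)
              rcases h with h | h
              · exact fin2 h m1 (un_p hy)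
              · exact fin2 h m2 (un_p hy)
            · have h := Y2Cn (x := x) (T := T) (s := x') (k := t') (by linarith only [h0]) (by linarith only [h1])
                  (by linarith only [T0]) (by linarith only [T1]) (by linarith only [h6]) (by linarith only [x1]) (by linarith only [r2, h6])
                  (by linarith only [t1]) (by linarith only [hy]) (by linarith only [r1']) (by linarith only [r2]) (by linarith only [h0, h6])
              obtain ⟨m1, m2⟩ := cn_bey (44 / 100 + x') (t' - T)
              rcases h with h | h
              · exact fin2 h m1 (un_n hy)
              · exact fin2 h m2 (un_n hy)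

end C12

end Pool.Agent.Work.MP_b30479_gt.G2
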