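import Pool.Agent.Work.MP_b30479_gt.G2.WMid

/-!
# The saddle point is critical, in the own frames
-/

namespace Pool.Agent.Work.MP_b30479_gt.G2

open Finset VOL Filter Topology

/-- the two derivatives of the growth rate of a ring run in the ring variable `ζ`; `w`, `w'`: the
hinges (`0` if absent) -/
noncomputable def RD1 (b : ℝ) (w w' ζ : ℂ) : ℝ := -(2 * Real.pi * b * ζ.im) +
  (LL (w + 1 / 2 + ζ) - LL (w + 1 / 2 - ζ)) + (LL (w' + 1 / 2 + ζ) - LL (w' + 1 / 2 - ζ))

noncomputable def RD2 (b : ℝ) (w w' ζ : ℂ) : ℝ := -(2 * Real.pi * (b * ζ.re + 1)) +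
  (YY (w + 1 / 2 + ζ) - YY (w + 1 / 2 - ζ)) + (YY (w' + 1 / 2 + ζ) - YY (w' + 1 / 2 - ζ))

theorem LL_half_sub (ζ : ℂ) : LL (0 + 1 / 2 + ζ) - LL (0 + 1 / 2 - ζ) = 0 := by
  have h := LL_one_sub (0 + 1 / 2 + ζ)
  rw [show (1 : ℂ) - (0 + 1 / 2 + ζ) = 0 + 1 / 2 - ζ by ring] at h
  rw [h, sub_self]

theorem YY_half_sub (ζ : ℂ) : YY (0 + 1 / 2 + ζ) - YY (0 + 1 / 2 - ζ) = 0 := by
  have h := YY_one_sub (0 + 1 / 2 + ζ)
  rw [show (1 : ℂ) - (0 + 1 / 2 + ζ) = 0 + 1 / 2 - ζ by ring] at h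
  rw [h, sub_self]

theorem side_ring_RD (b : ℤ) (l r : Bool) (m : ℝ) (x : Fin 3 → ℂ) (h0 : l = false → x 0 = 0)
    (h2 : r = false → x 2 = 0) :
    side .ring b l r 1 m x = RD1 b (x 0) (x 2) (x 1) + m * RD2 b (x 0) (x 2) (x 1) := by
  unfold side RD1 RD2
  rw [d1_ring_one, d2_ring_one]
  cases l
  · rw [h0 rfl]
    cases r
    · rw [h2 rfl, LL_half_sub, YY_half_sub]
      simp
    · rw [LL_half_sub, YY_half_sub]
      simp
  · cases r
    · rw [h2 rfl, LL_half_sub, YY_half_sub]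
      simp
    · simp

namespace SR

variable {M : ℕ} {b : Fin (M + 1) → ℤ} {zs : DD (tyW b) ⊕ ZZ (tyW b) → ℂ}
variable {y : DD (tyW b) ⊕ ZZ (tyW b) → ℝ}
variable {h h' : Fin M} {i j j' : Fin (M + 1)} {p : Fin 3}

/-- the saddle point is critical -/
structure Crit (b : Fin (M + 1) → ℤ) (zs : DD (tyW b) ⊕ ZZ (tyW b) → ℂ) : Prop where
  inn : ∀ k, (wdat (tyW b) b).form k zs ∈ strip
  dT : ∀ i, (wdat (tyW b) b).dT zs i = 0

theorem Crit.d (hC : Crit b zs) (j : DD (tyW b) ⊕ ZZ (tyW b)) (m : ℝ) :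
    (wdat (tyW b) b).d1 zs j + m * (wdat (tyW b) b).d2 zs j = 0 := by
  unfold Dat.d1 Dat.d2
  rw [DV_crit _ hC.inn hC.dT, DV_crit _ hC.inn hC.dT]
  ring

/-- own frame, inner discrete variable -/
theorem Crit.mid (hC : Crit b zs) (hb : ClassW b) (m : {i : Fin (M + 1) // (tyW b i).isMid = true})
    (q : ℝ) : side (tyW b m.1) ((b m.1).natAbs : ℤ) (decide (m.1 ≠ 0))
      (decide (m.1 ≠ Fin.last M)) 1 q (own (b m.1) (tyW b m.1) (xx (tyW b) m.1 zs)) = 0 := by
  have h1 := hC.d (.inl (.inr m)) (ofs (b m.1) q)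
  rw [rside_of_mid] at h1
  unfold rside at h1
  rw [side_mid_own (hb.ne _) m.2 (tyW_std b _), ofs_ofs] at h1
  exact h1

theorem Ys_own_zero (i : Fin (M + 1)) : own (b i) (tyW b i) (xx (tyW b) i zs) 0 = Ys b zs i 0 :=
  own_zero _ _ _

theorem Ys_own_two (i : Fin (M + 1)) : own (b i) (tyW b i) (xx (tyW b) i zs) 2 = Ys b zs i 2 :=
  own_two _ _ _

theorem Ys_own_one {i : Fin (M + 1)} (ht : tyW b i ≠ .ring) :
    own (b i) (tyW b i) (xx (tyW b) i zs) 1 = Ys b zs i 1 := own_one ht _ _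

theorem Zs_own {i : Fin (M + 1)} (ht : tyW b i = .ring) :
    own (b i) (tyW b i) (xx (tyW b) i zs) 1 = Zs b zs i := by
  unfold Zs
  rw [ht]
  exact own_ring _ _

/-- interior region with three crossings -/
theorem Crit.three (hC : Crit b zs) (hb : ClassW b) (hc : clsW b i = .three) (q : ℝ) :
    SM q (Ys b zs i 0) (Ys b zs i 1) (Ys b zs i 2) = 0 := by
  have ht := tyW_of_three hc
  have h3 := clsW_nat3 (Or.inl hc)
  have h1 := hC.mid hb ⟨i, tyW_isMid (Or.inl hc)⟩ q
  simp only at h1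
  rw [ht, side_threeL_SM (by omega)] at h1
  have e0 := Ys_own_zero (b := b) (zs := zs) i
  have e1 := Ys_own_one (b := b) (zs := zs) (i := i) (by rw [ht]; decide)
  have e2 := Ys_own_two (b := b) (zs := zs) i
  rw [ht] at e0 e1 e2
  rw [e0, e1, e2] at h1
  exact h1

/-- region with three crossings at an end -/
theorem Crit.threeE (hC : Crit b zs) (hb : ClassW b) (A : Adj h i p j) (hc : clsW b i = .threeE)
    (q : ℝ) : SM q (Ys b zs i p) (Ys b zs i 1) 0 = 0 := by
  have h3 := clsW_nat3 (Or.inr hc)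
  have he := clsW_end (Or.inr hc)
  have h1 := hC.mid hb ⟨i, tyW_isMid (Or.inr hc)⟩ q
  simp only at h1
  have e0 := Ys_own_zero (b := b) (zs := zs) i
  have e2 := Ys_own_two (b := b) (zs := zs) i
  have e5 := A.Ys_other (zs := zs) he
  cases A
  · have h0 : h.castSucc = 0 := by
      unfold isEnd at he
      rcases of_decide_eq_true he with h1 | h1
      · exact h1
      · exact absurd h1 (Fin.castSucc_lt_last h).ne
    have ht : tyW b h.castSucc = .threeR := by
      unfold tyW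
      rw [if_neg (by omega), if_neg (by omega), if_pos h3, if_pos h0]
    have e1 := Ys_own_one (b := b) (zs := zs) (i := h.castSucc) (by rw [ht]; decide)
    rw [ht] at e0 e1 e2
    rw [ht, side_threeR_SM (by omega), e0, e1, e2] at h1
    rw [show (2 : Fin 3).rev = 0 from rfl] at e5
    rw [e5] at h1
    exact h1
  · have ht : tyW b h.succ = .threeL := by
      unfold tyW
      rw [if_neg (by omega), if_neg (by omega), if_pos h3, if_neg (Fin.succ_ne_zero h)]
    have e1 := Ys_own_one (b := b) (zs := zs) (i := h.succ) (by rw [ht]; decide)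
    rw [ht] at e0 e1 e2
    rw [ht, side_threeL_SM (by omega), e0, e1, e2] at h1
    rw [show (0 : Fin 3).rev = 2 from rfl] at e5
    rw [e5] at h1
    exact h1

theorem Ys_zero_end : Ys b zs 0 0 = 0 := by
  unfold Ys
  rw [xx_left_zero, ofr_zero]

theorem Ys_last_end : Ys b zs (Fin.last M) 2 = 0 := by
  unfold Ys
  rw [xx_right_last, ofr_zero]

/-- ring -/
theorem Crit.ring (hC : Crit b zs) (v : ZZ (tyW b)) :
    RD1 ((b v.1).natAbs : ℝ) (Ys b zs v.1 0) (Ys b zs v.1 2) (Zs b zs v.1) = 0 ∧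
    RD2 ((b v.1).natAbs : ℝ) (Ys b zs v.1 0) (Ys b zs v.1 2) (Zs b zs v.1) = 0 := by
  have ht := tyW_ring v.2
  have key : ∀ q : ℝ, side .ring ((b v.1).natAbs : ℤ) (decide (v.1 ≠ 0))
      (decide (v.1 ≠ Fin.last M)) 1 q (own (b v.1) .ring (xx (tyW b) v.1 zs)) = 0 := by
    intro q
    have h1 := hC.d (.inr v) (ofs (b v.1) q)
    rw [rside_of_ring] at h1
    unfold rside at h1
    rw [ht] at h1
    unfold own
    by_cases h : 0 < b v.1
    · rw [if_pos h]
      rw [ofs_pos h] at h1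
      have e : ((b v.1).natAbs : ℤ) = b v.1 := by omega
      rw [e]
      exact h1
    · rw [if_neg h]
      have h2 := side_cj_ring (b := b v.1) (decide (v.1 ≠ 0)) (decide (v.1 ≠ Fin.last M))
        (ofs (b v.1) q) (xx (tyW b) v.1 zs)
      have e : ((b v.1).natAbs : ℤ) = -b v.1 := by omega
      have e2 : -ofs (b v.1) q = q := by
        unfold ofs
        rw [if_neg h]
        ring
      rw [e2, h1, neg_zero] at h2
      rw [e]
      exact h2
  have e0 := Ys_own_zero (b := b) (zs := zs) v.1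
  have e1 := Zs_own (b := b) (zs := zs) ht
  have e2 := Ys_own_two (b := b) (zs := zs) v.1
  rw [ht] at e0 e1 e2
  have k : ∀ q : ℝ, RD1 ((b v.1).natAbs : ℝ) (Ys b zs v.1 0) (Ys b zs v.1 2) (Zs b zs v.1) +
      q * RD2 ((b v.1).natAbs : ℝ) (Ys b zs v.1 0) (Ys b zs v.1 2) (Zs b zs v.1) = 0 := by
    intro q
    have h1 := key q
    rw [side_ring_RD, e0, e1, e2] at h1
    · simpa using h1
    · intro hl
      rw [e0]
      have : v.1 = 0 := by simpa using hl
      rw [this]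
      exact Ys_zero_end
    · intro hl
      rw [e2]
      have : v.1 = Fin.last M := by simpa using hl
      rw [this]
      exact Ys_last_end
  have k0 := k 0
  have k1 := k 1
  constructor <;> linarith

/-- the sides at a hinge cancel at the saddle point -/
theorem Crit.hinge (hC : Crit b zs) (h : Fin M) (q : ℝ) :
    rside (tyW b) b h.castSucc 2 q (xx (tyW b) h.castSucc zs) +
      rside (tyW b) b h.succ 0 q (xx (tyW b) h.succ zs) = 0 := by
  rw [← rside_of_hinge]
  exact hC.d _ _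

end SR

end Pool.Agent.Work.MP_b30479_gt.G2
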