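import Pool.Agent.Work.MP_b30479_gt.G2.C23R
import Pool.Agent.Work.MP_b30479_gt.G2.C12V
import Pool.Agent.Work.MP_b30479_gt.G2.WCrit

/-!
# Right ramps of the hinges `2 | 3`, `3 | 2`, `2 | 3e`, `2e | 3`, `3 | 2e`: the sides of `2`, `2e`
-/

set_option linter.unusedVariables false

namespace Pool.Agent.Work.MP_b30479_gt.G2

open Finset VOL Filter Topology NumU

namespace C23

/-- the other hinge of a digit `2` -/
structure P2 (x' t' : ℝ) : Prop where
  x0 : 7 / 100 ≤ x'
  x1 : x' ≤ 60 / 100
  t0 : -(985 / 10000) ≤ t'
  t1 : t' ≤ 96 / 1000
  up : t' ≤ 768 / 1000 * x'
  dn : -t' ≤ 86 / 100 * x'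
  r1 : t' ≤ 11 / 1000 + 320 / 1000 * (63 / 100 - x')
  r2 : -t' ≤ 340 / 1000 * (80 / 100 - x')

theorem glue {m T c bd : ℝ} {w v : ℂ} (P : P2 v.re v.im) (h0 : 30 / 100 ≤ w.re)
    (h1 : w.re ≤ 60 / 100) (hm : T ≤ 0 → 0 ≤ m) (hm' : 0 ≤ T → m ≤ 0)
    (hy : -(41 / 1000) ≤ w.im) (hy' : 94 / 100 ≤ w.re + v.re → w.im + v.im ≤ 14 / 100)
    (ha : v.re ≤ 125 / 1000 → ∀ k, -1075 / 10000 ≤ k → k ≤ 960 / 10000 →
      MR.s2 m w.re w.im v.re (8 * k * v.re) + c < bd)
    (hb : 125 / 1000 ≤ v.re → w.re + v.re ≤ 94 / 100 → MR.s2 m w.re w.im v.re v.im + c < bd)
    (hcp : T ≤ 0 → 94 / 100 ≤ w.re + v.re → w.re + v.re ≤ 106 / 100 →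
      MR.n2 0 1 m w.re w.im v.re v.im + c < bd)
    (hcn : 0 ≤ T → 94 / 100 ≤ w.re + v.re → w.re + v.re ≤ 106 / 100 →
      MR.n2 0 (-1) m w.re w.im v.re v.im + c < bd)
    (hdp : T ≤ 0 → 106 / 100 ≤ w.re + v.re → MR.b2 1 m w.re w.im v.re v.im + c < bd)
    (hdn : 0 ≤ T → 106 / 100 ≤ w.re + v.re → MR.b2 (-1) m w.re w.im v.re v.im + c < bd) :
    S2 1 m w v + c < bd := by
  obtain ⟨x0, x1, t0, t1, up, dn, r1, r2⟩ := P
  rcases le_total (w.re + v.re) (94 / 100) with hu | hu
  · rw [MR.S2_eq]
    · rcases le_total v.re (125 / 1000) with h | h
      · obtain ⟨k, k1, k2, k3⟩ := C12.ex_k (a := 1 / 8) (lo := -(1075 / 10000))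
          (hi := 960 / 10000) (t' := v.im) (by linarith only [x0] : 0 < v.re) (by linarith only [dn]) (by linarith only [up])
        have e : 8 * k * v.re = v.im := by linear_combination 8 * k3
        have := ha h k (by linarith only [k1]) k2
        rw [e] at this
        exact this
      · exact hb h hu
    · constructor <;> linarith only [h0, h1]
    · constructor <;> rw [Complex.add_re] <;> linarith only [h0, x0, hu]
  · have hw0 : 0 < w.re := by linarith only [h0]
    have hw1 : w.re < 1 := by linarith only [h1, hw0]
    rcases le_total (w.re + v.re) (106 / 100) with hu' | hu'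
    · have hL : LL (w + v) ≤ 0 := MR.LL_rect MR.kr_6_14 le_rfl (by norm_num)
        (by rw [Complex.add_re, abs_le]; constructor <;> linarith only [hu, hu'])
        (by rw [Complex.add_im, abs_le]; exact ⟨by linarith only [hy, t0, hw0, hw1], hy' hu⟩)
      have hY : |YY (w + v)| ≤ 1 * Real.pi := by
        rw [one_mul]
        exact MR.YY_abs_pi (by rw [Complex.add_re]; linarith only [hu, hw0, hw1]) (by rw [Complex.add_re]; linarith only [h1, x1, hw1])
      rcases le_total T 0 with hT | hT
      · have := MR.S2_near (s := 1) (by rw [mul_one, abs_of_nonneg (hm hT)]) hw0 hw1 hL hY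
        rw [mul_one] at this
        linarith only [this, hcp, hT, hu, hu', hcp hT hu hu']
      · have := MR.S2_near (s := -1) (by rw [abs_of_nonpos (hm' hT)]; ring) hw0 hw1 hL hY
        rw [mul_one] at this
        linarith only [this, hcn, hT, hu, hu', hcn hT hu hu']
    · rcases le_total T 0 with hT | hT
      · have := MR.S2_beyond (v := v) (s := 1) (by rw [mul_one, abs_of_nonneg (hm hT)]) hw0 hw1
          (by linarith only [hw0, hw1, hu']) (by linarith only [x1, hw0, hw1])
        linarith only [this, hdp, hT, hu', hdp hT hu']
      · have := MR.S2_beyond (v := v) (s := -1) (by rw [abs_of_nonpos (hm' hT)]; ring) hw0 hw1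
          (by linarith only [hw0, hw1, hu']) (by linarith only [x1, hw0, hw1])
        linarith only [this, hdn, hT, hu', hdn hT hu']

/-- `2 | 3` (slot `0` of the `3`) -/
theorem side27h {T : ℝ} {w v : ℂ} (T0 : -(5 / 1000) ≤ T) (T1 : T ≤ 57 / 1000) (h0 : 36 / 100 ≤ w.re)
    (h1 : w.re ≤ 37 / 100) (him : w.im = T * ((60 / 100 - w.re) / (27 / 100)))
    (P : P2 v.re v.im) :
    S2 1 (-T / (27 / 100)) w v + Real.pi / 2 * (-T / (27 / 100)) < -13 / 100 := by
  have e1 : -T / (27 / 100) = -100 / 27 * T := by ring
  have e2 : w.im = T * (100 / 27 * (6 / 10 - w.re)) := by rw [him]; ring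
  have b1 : 0 ≤ 100 / 27 * (6 / 10 - w.re) := by linarith only [h1]
  have b2 : 100 / 27 * (6 / 10 - w.re) ≤ 1 := by linarith only [h0]
  have b3 : -(41 / 1000) ≤ w.im := by rw [e2]; nlinarith only [T0, h0, h1]
  have b4 : w.im ≤ 57 / 1000 := by rw [e2]; nlinarith only [T1, h1, T0, h0]
  rw [e1]
  obtain ⟨x0, x1, t0, t1, up, dn, r1, r2⟩ := P
  have key := glue (m := -100 / 27 * T) (T := T) (c := -100 / 27 * T * (1 / 2 * Real.pi)) (bd := -13 / 100) (w := w) (v := v)
    ⟨x0, x1, t0, t1, up, dn, r1, r2⟩ (by linarith only [h0]) (by linarith only [h1]) (fun h => by linarith only [h])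
    (fun h => by linarith only [h]) b3 (fun h => by linarith only [h1, b4, t1, r1, h])
    (fun h k k1 k2 => by
      rw [e2]
      have := s27ha (x := w.re) (T := T) (s := v.re) (k := k) (by linarith only [h0]) (by linarith only [h1])
        (by linarith only [T0]) (by linarith only [T1]) (by linarith only [x0]) (by linarith only [h]) (by linarith only [k1]) (by linarith only [k2])
      try simp only [zero_div] at this
      linarith only [this])
    (fun h h' => by
      rw [e2]
      have := s27hb (x := w.re) (T := T) (s := v.re) (k := v.im) (by linarith only [h0]) (by linarith only [h1])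
        (by linarith only [T0]) (by linarith only [T1]) (by linarith only [h]) (by linarith only [h0, h']) (by linarith only [t0]) (by linarith only [t1])
        (by linarith only [h'])
      try simp only [zero_div] at this
      linarith only [this])
    (fun h h' h'' => by
      rw [e2]
      have := s27hcp (x := w.re) (T := T) (s := v.re) (k := v.im) (by linarith only [h0]) (by linarith only [h1])
        (by linarith only [T0]) (by linarith only [T1]) (by linarith only [h1, h']) (by linarith only [x1]) (by linarith only [h1, r2, h']) (by linarith only [t1])
        (by linarith only [h1, x1]) (by linarith only [h']) (by linarith only [r1]) (by linarith only [r2]) (by linarith only [h])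
      try simp only [zero_div] at this
      linarith only [this])
    (fun h h' h'' => by
      rw [e2]
      have := s27hcn (x := w.re) (T := T) (s := v.re) (k := v.im) (by linarith only [h0]) (by linarith only [h1])
        (by linarith only [h]) (by linarith only [T1]) (by linarith only [h1, h']) (by linarith only [x1]) (by linarith only [h1, r2, h']) (by linarith only [t1])
        (by linarith only [h1, x1]) (by linarith only [h']) (by linarith only [r1]) (by linarith only [r2]) (by linarith only [h])
      try simp only [zero_div] at this
      linarith only [this])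
    (fun h h' => by
      exfalso
      linarith only [h1, x1, h'])
    (fun h h' => by
      exfalso
      linarith only [h1, x1, h'])
  linarith only [key]

/-- `2 | 3` (slot `0` of the `3`) -/
theorem side25h {T : ℝ} {w v : ℂ} (T0 : -(5 / 1000) ≤ T) (T1 : T ≤ 57 / 1000) (h0 : 36 / 100 ≤ w.re)
    (h1 : w.re ≤ 37 / 100) (him : w.im = T * ((60 / 100 - w.re) / (25 / 100)))
    (P : P2 v.re v.im) :
    S2 1 (-T / (25 / 100)) w v + Real.pi / 2 * (-T / (25 / 100)) < -13 / 100 := by
  have e1 : -T / (25 / 100) = -100 / 25 * T := by ring
  have e2 : w.im = T * (100 / 25 * (6 / 10 - w.re)) := by rw [him]; ring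
  have b1 : 0 ≤ 100 / 25 * (6 / 10 - w.re) := by linarith only [h1]
  have b2 : 100 / 25 * (6 / 10 - w.re) ≤ 109 / 100 := by linarith only [h0]
  have b3 : -(41 / 1000) ≤ w.im := by rw [e2]; nlinarith only [T0, h0, h1]
  have b4 : w.im ≤ 62 / 1000 := by rw [e2]; nlinarith only [T1, h1, T0, h0]
  rw [e1]
  obtain ⟨x0, x1, t0, t1, up, dn, r1, r2⟩ := P
  have key := glue (m := -100 / 25 * T) (T := T) (c := -100 / 25 * T * (1 / 2 * Real.pi)) (bd := -13 / 100) (w := w) (v := v)
    ⟨x0, x1, t0, t1, up, dn, r1, r2⟩ (by linarith only [h0]) (by linarith only [h1]) (fun h => by linarith only [h])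
    (fun h => by linarith only [h]) b3 (fun h => by linarith only [h1, b4, t1, r1, h])
    (fun h k k1 k2 => by
      rw [e2]
      have := s25ha (x := w.re) (T := T) (s := v.re) (k := k) (by linarith only [h0]) (by linarith only [h1])
        (by linarith only [T0]) (by linarith only [T1]) (by linarith only [x0]) (by linarith only [h]) (by linarith only [k1]) (by linarith only [k2])
      try simp only [zero_div] at this
      linarith only [this])
    (fun h h' => by
      rw [e2]
      have := s25hb (x := w.re) (T := T) (s := v.re) (k := v.im) (by linarith only [h0]) (by linarith only [h1])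
        (by linarith only [T0]) (by linarith only [T1]) (by linarith only [h]) (by linarith only [h0, h']) (by linarith only [t0]) (by linarith only [t1])
        (by linarith only [h'])
      try simp only [zero_div] at this
      linarith only [this])
    (fun h h' h'' => by
      rw [e2]
      have := s25hcp (x := w.re) (T := T) (s := v.re) (k := v.im) (by linarith only [h0]) (by linarith only [h1])
        (by linarith only [T0]) (by linarith only [T1]) (by linarith only [h1, h']) (by linarith only [x1]) (by linarith only [h1, r2, h']) (by linarith only [t1])
        (by linarith only [h1, x1]) (by linarith only [h']) (by linarith only [r1]) (by linarith only [r2]) (by linarith only [h])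
      try simp only [zero_div] at this
      linarith only [this])
    (fun h h' h'' => by
      rw [e2]
      have := s25hcn (x := w.re) (T := T) (s := v.re) (k := v.im) (by linarith only [h0]) (by linarith only [h1])
        (by linarith only [h]) (by linarith only [T1]) (by linarith only [h1, h']) (by linarith only [x1]) (by linarith only [h1, r2, h']) (by linarith only [t1])
        (by linarith only [h1, x1]) (by linarith only [h']) (by linarith only [r1]) (by linarith only [r2]) (by linarith only [h])
      try simp only [zero_div] at this
      linarith only [this])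
    (fun h h' => by
      exfalso
      linarith only [h1, x1, h'])
    (fun h h' => by
      exfalso
      linarith only [h1, x1, h'])
  linarith only [key]

/-- `3 | 2` (slot `2` of the `3`) -/
theorem side30h {T : ℝ} {w v : ℂ} (T0 : -(5 / 1000) ≤ T) (T1 : T ≤ 57 / 1000) (h0 : 36 / 100 ≤ w.re)
    (h1 : w.re ≤ 37 / 100) (him : w.im = T * ((60 / 100 - w.re) / (30 / 100)))
    (P : P2 v.re v.im) :
    S2 1 (-T / (30 / 100)) w v + Real.pi / 2 * (-T / (30 / 100)) < -13 / 100 := by
  have e1 : -T / (30 / 100) = -100 / 30 * T := by ring
  have e2 : w.im = T * (100 / 30 * (6 / 10 - w.re)) := by rw [him]; ring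
  have b1 : 0 ≤ 100 / 30 * (6 / 10 - w.re) := by linarith only [h1]
  have b2 : 100 / 30 * (6 / 10 - w.re) ≤ 1 := by linarith only [h0]
  have b3 : -(41 / 1000) ≤ w.im := by rw [e2]; nlinarith only [T0, h0, h1]
  have b4 : w.im ≤ 57 / 1000 := by rw [e2]; nlinarith only [T1, h1, T0, h0]
  rw [e1]
  obtain ⟨x0, x1, t0, t1, up, dn, r1, r2⟩ := P
  have key := glue (m := -100 / 30 * T) (T := T) (c := -100 / 30 * T * (1 / 2 * Real.pi)) (bd := -13 / 100) (w := w) (v := v)
    ⟨x0, x1, t0, t1, up, dn, r1, r2⟩ (by linarith only [h0]) (by linarith only [h1]) (fun h => by linarith only [h])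
    (fun h => by linarith only [h]) b3 (fun h => by linarith only [h1, b4, t1, r1, h])
    (fun h k k1 k2 => by
      rw [e2]
      have := z30ha (x := w.re) (T := T) (s := v.re) (k := k) (by linarith only [h0]) (by linarith only [h1])
        (by linarith only [T0]) (by linarith only [T1]) (by linarith only [x0]) (by linarith only [h]) (by linarith only [k1]) (by linarith only [k2])
      try simp only [zero_div] at this
      linarith only [this])
    (fun h h' => by
      rw [e2]
      have := z30hb (x := w.re) (T := T) (s := v.re) (k := v.im) (by linarith only [h0]) (by linarith only [h1])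
        (by linarith only [T0]) (by linarith only [T1]) (by linarith only [h]) (by linarith only [h0, h']) (by linarith only [t0]) (by linarith only [t1])
        (by linarith only [h'])
      try simp only [zero_div] at this
      linarith only [this])
    (fun h h' h'' => by
      rw [e2]
      have := z30hcp (x := w.re) (T := T) (s := v.re) (k := v.im) (by linarith only [h0]) (by linarith only [h1])
        (by linarith only [T0]) (by linarith only [T1]) (by linarith only [h1, h']) (by linarith only [x1]) (by linarith only [h1, r2, h']) (by linarith only [t1])
        (by linarith only [h1, x1]) (by linarith only [h']) (by linarith only [r1]) (by linarith only [r2]) (by linarith only [h])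
      try simp only [zero_div] at this
      linarith only [this])
    (fun h h' h'' => by
      rw [e2]
      have := z30hcn (x := w.re) (T := T) (s := v.re) (k := v.im) (by linarith only [h0]) (by linarith only [h1])
        (by linarith only [h]) (by linarith only [T1]) (by linarith only [h1, h']) (by linarith only [x1]) (by linarith only [h1, r2, h']) (by linarith only [t1])
        (by linarith only [h1, x1]) (by linarith only [h']) (by linarith only [r1]) (by linarith only [r2]) (by linarith only [h])
      try simp only [zero_div] at this
      linarith only [this])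
    (fun h h' => by
      exfalso
      linarith only [h1, x1, h'])
    (fun h h' => by
      exfalso
      linarith only [h1, x1, h'])
  linarith only [key]

/-- `2 | 3` (slot `0` of the `3`), lower part -/
theorem side27i {T : ℝ} {w v : ℂ} (T0 : -(5 / 1000) ≤ T) (T1 : T ≤ 57 / 1000) (h0 : 33 / 100 ≤ w.re)
    (h1 : w.re ≤ 36 / 100) (him : w.im = T * ((60 / 100 - w.re) / (27 / 100)))
    (P : P2 v.re v.im) :
    S2 1 (-T / (27 / 100)) w v + Real.pi / 2 * (-T / (27 / 100)) < -20 / 1000 - 3 * (w.re - 330 / 1000) := by
  have e1 : -T / (27 / 100) = -100 / 27 * T := by ring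
  have e2 : w.im = T * (100 / 27 * (6 / 10 - w.re)) := by rw [him]; ring
  have b1 : 0 ≤ 100 / 27 * (6 / 10 - w.re) := by linarith only [h1]
  have b2 : 100 / 27 * (6 / 10 - w.re) ≤ 1 := by linarith only [h0]
  have b3 : -(41 / 1000) ≤ w.im := by rw [e2]; nlinarith only [T0, h0, h1]
  have b4 : w.im ≤ 57 / 1000 := by rw [e2]; nlinarith only [T1, T0, h0, h1]
  rw [e1]
  obtain ⟨x0, x1, t0, t1, up, dn, r1, r2⟩ := P
  have key := glue (m := -100 / 27 * T) (T := T) (c := -100 / 27 * T * (1 / 2 * Real.pi)) (bd := -20 / 1000 - 3 * (w.re - 330 / 1000)) (w := w) (v := v)
    ⟨x0, x1, t0, t1, up, dn, r1, r2⟩ (by linarith only [h0]) (by linarith only [h1]) (fun h => by linarith only [h])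
    (fun h => by linarith only [h]) b3 (fun h => by linarith only [h1, b4, t1, r1, h])
    (fun h k k1 k2 => by
      rw [e2]
      have := s27ia (x := w.re) (T := T) (s := v.re) (k := k) (by linarith only [h0]) (by linarith only [h1])
        (by linarith only [T0]) (by linarith only [T1]) (by linarith only [x0]) (by linarith only [h]) (by linarith only [k1]) (by linarith only [k2])
      try simp only [zero_div] at this
      linarith only [this])
    (fun h h' => by
      rw [e2]
      have := s27ib (x := w.re) (T := T) (s := v.re) (k := v.im) (by linarith only [h0]) (by linarith only [h1])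
        (by linarith only [T0]) (by linarith only [T1]) (by linarith only [h]) (by linarith only [x1]) (by linarith only [t0]) (by linarith only [t1])
        (by linarith only [h'])
      try simp only [zero_div] at this
      linarith only [this])
    (fun h h' h'' => by
      rw [e2]
      have := s27icp (x := w.re) (T := T) (s := v.re) (k := v.im) (by linarith only [h0]) (by linarith only [h1])
        (by linarith only [T0]) (by linarith only [T1]) (by linarith only [h1, h']) (by linarith only [x1]) (by linarith only [h1, r2, h']) (by linarith only [t1])
        (by linarith only [h1, x1]) (by linarith only [h']) (by linarith only [r1]) (by linarith only [r2]) (by linarith only [h])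
      try simp only [zero_div] at this
      linarith only [this])
    (fun h h' h'' => by
      rw [e2]
      have := s27icn (x := w.re) (T := T) (s := v.re) (k := v.im) (by linarith only [h0]) (by linarith only [h1])
        (by linarith only [h]) (by linarith only [T1]) (by linarith only [h1, h']) (by linarith only [x1]) (by linarith only [h1, r2, h']) (by linarith only [t1])
        (by linarith only [h1, x1]) (by linarith only [h']) (by linarith only [r1]) (by linarith only [r2]) (by linarith only [h])
      try simp only [zero_div] at this
      linarith only [this])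
    (fun h h' => by
      exfalso
      linarith only [h1, x1, h'])
    (fun h h' => by
      exfalso
      linarith only [h1, x1, h'])
  linarith only [key]

/-- `2 | 3` (slot `0` of the `3`), upper part -/
theorem side27j {T : ℝ} {w v : ℂ} (T0 : -(5 / 1000) ≤ T) (T1 : T ≤ 57 / 1000) (h0 : 37 / 100 ≤ w.re)
    (h1 : w.re ≤ 50 / 100) (him : w.im = T * ((60 / 100 - w.re) / (27 / 100)))
    (P : P2 v.re v.im) :
    S2 1 (-T / (27 / 100)) w v + Real.pi / 2 * (-T / (27 / 100)) < -14 / 100 := by
  have e1 : -T / (27 / 100) = -100 / 27 * T := by ring
  have e2 : w.im = T * (100 / 27 * (6 / 10 - w.re)) := by rw [him]; ring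
  have b1 : 0 ≤ 100 / 27 * (6 / 10 - w.re) := by linarith only [h1]
  have b2 : 100 / 27 * (6 / 10 - w.re) ≤ 1 := by linarith only [h0]
  have b3 : -(41 / 1000) ≤ w.im := by rw [e2]; nlinarith only [T0, h0, h1]
  have b4 : w.im ≤ 57 / 1000 := by rw [e2]; nlinarith only [T1, h1, T0, h0]
  rw [e1]
  obtain ⟨x0, x1, t0, t1, up, dn, r1, r2⟩ := P
  have key := glue (m := -100 / 27 * T) (T := T) (c := -100 / 27 * T * (1 / 2 * Real.pi)) (bd := -14 / 100) (w := w) (v := v)
    ⟨x0, x1, t0, t1, up, dn, r1, r2⟩ (by linarith only [h0]) (by linarith only [h1]) (fun h => by linarith only [h])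
    (fun h => by linarith only [h]) b3 (fun h => by linarith only [h1, b4, t1, r1, h])
    (fun h k k1 k2 => by
      rw [e2]
      have := s27ja (x := w.re) (T := T) (s := v.re) (k := k) (by linarith only [h0]) (by linarith only [h1])
        (by linarith only [T0]) (by linarith only [T1]) (by linarith only [x0]) (by linarith only [h]) (by linarith only [k1]) (by linarith only [k2])
      try simp only [zero_div] at this
      linarith only [this])
    (fun h h' => by
      rw [e2]
      have := s27jb (x := w.re) (T := T) (s := v.re) (k := v.im) (by linarith only [h0]) (by linarith only [h1])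
        (by linarith only [T0]) (by linarith only [T1]) (by linarith only [h]) (by linarith only [h0, h']) (by linarith only [t0]) (by linarith only [t1])
        (by linarith only [h'])
      try simp only [zero_div] at this
      linarith only [this])
    (fun h h' h'' => by
      rw [e2]
      have := s27jcp (x := w.re) (T := T) (s := v.re) (k := v.im) (by linarith only [h0]) (by linarith only [h1])
        (by linarith only [T0]) (by linarith only [T1]) (by linarith only [h1, h']) (by linarith only [x1]) (by linarith only [t0]) (by linarith only [t1])
        (by linarith only [h'']) (by linarith only [h']) (by linarith only [r1]) (by linarith only [r2]) (by linarith only [h])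
      try simp only [zero_div] at this
      linarith only [this])
    (fun h h' h'' => by
      rw [e2]
      have := s27jcn (x := w.re) (T := T) (s := v.re) (k := v.im) (by linarith only [h0]) (by linarith only [h1])
        (by linarith only [h]) (by linarith only [T1]) (by linarith only [h1, h']) (by linarith only [x1]) (by linarith only [t0]) (by linarith only [t1])
        (by linarith only [h'']) (by linarith only [h']) (by linarith only [r1]) (by linarith only [r2]) (by linarith only [h])
      try simp only [zero_div] at this
      linarith only [this])
    (fun h h' => by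
      rw [e2]
      have := s27jdp (x := w.re) (T := T) (s := v.re) (k := v.im) (by linarith only [h0]) (by linarith only [h1])
        (by linarith only [T0]) (by linarith only [T1]) (by linarith only [h1, h']) (by linarith only [x1]) (by linarith only [h1, r2, h']) (by linarith only [t1])
        (by linarith only [h']) (by linarith only [r1]) (by linarith only [r2]) (by linarith only [h])
      try simp only [zero_div] at this
      linarith only [this])
    (fun h h' => by
      rw [e2]
      have := s27jdn (x := w.re) (T := T) (s := v.re) (k := v.im) (by linarith only [h0]) (by linarith only [h1])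
        (by linarith only [h]) (by linarith only [T1]) (by linarith only [h1, h']) (by linarith only [x1]) (by linarith only [h1, r2, h']) (by linarith only [t1])
        (by linarith only [h']) (by linarith only [r1]) (by linarith only [r2]) (by linarith only [h])
      try simp only [zero_div] at this
      linarith only [this])
  linarith only [key]

/-- `2 | 3` (slot `0` of the `3`), `cr = 25/100` -/
theorem side25i {T : ℝ} {w v : ℂ} (T0 : -(5 / 1000) ≤ T) (T1 : T ≤ 57 / 1000) (h0 : 33 / 100 ≤ w.re)
    (h1 : w.re ≤ 36 / 100) (him : w.im = T * ((60 / 100 - w.re) / (25 / 100)))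
    (P : P2 v.re v.im) :
    S2 1 (-T / (25 / 100)) w v + Real.pi / 2 * (-T / (25 / 100)) < -20 / 1000 - 3 * (w.re - 330 / 1000) := by
  have e1 : -T / (25 / 100) = -100 / 25 * T := by ring
  have e2 : w.im = T * (100 / 25 * (6 / 10 - w.re)) := by rw [him]; ring
  have b1 : 0 ≤ 100 / 25 * (6 / 10 - w.re) := by linarith only [h1]
  have b2 : 100 / 25 * (6 / 10 - w.re) ≤ 109 / 100 := by linarith only [h0]
  have b3 : -(41 / 1000) ≤ w.im := by rw [e2]; nlinarith only [T0, h0, h1]
  have b4 : w.im ≤ 62 / 1000 := by rw [e2]; nlinarith only [T1, h1, T0, h0]
  rw [e1]
  obtain ⟨x0, x1, t0, t1, up, dn, r1, r2⟩ := P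
  have key := glue (m := -100 / 25 * T) (T := T) (c := -100 / 25 * T * (1 / 2 * Real.pi)) (bd := -20 / 1000 - 3 * (w.re - 330 / 1000)) (w := w) (v := v)
    ⟨x0, x1, t0, t1, up, dn, r1, r2⟩ (by linarith only [h0]) (by linarith only [h1]) (fun h => by linarith only [h])
    (fun h => by linarith only [h]) b3 (fun h => by linarith only [h1, b4, t1, r1, h])
    (fun h k k1 k2 => by
      rw [e2]
      have := s25ia (x := w.re) (T := T) (s := v.re) (k := k) (by linarith only [h0]) (by linarith only [h1])
        (by linarith only [T0]) (by linarith only [T1]) (by linarith only [x0]) (by linarith only [h]) (by linarith only [k1]) (by linarith only [k2])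
      try simp only [zero_div] at this
      linarith only [this])
    (fun h h' => by
      rw [e2]
      have := s25ib (x := w.re) (T := T) (s := v.re) (k := v.im) (by linarith only [h0]) (by linarith only [h1])
        (by linarith only [T0]) (by linarith only [T1]) (by linarith only [h]) (by linarith only [x1]) (by linarith only [t0]) (by linarith only [t1])
        (by linarith only [h'])
      try simp only [zero_div] at this
      linarith only [this])
    (fun h h' h'' => by
      rw [e2]
      have := s25icp (x := w.re) (T := T) (s := v.re) (k := v.im) (by linarith only [h0]) (by linarith only [h1])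
        (by linarith only [T0]) (by linarith only [T1]) (by linarith only [h1, h']) (by linarith only [x1]) (by linarith only [h1, r2, h']) (by linarith only [t1])
        (by linarith only [h1, x1]) (by linarith only [h']) (by linarith only [r1]) (by linarith only [r2]) (by linarith only [h])
      try simp only [zero_div] at this
      linarith only [this])
    (fun h h' h'' => by
      rw [e2]
      have := s25icn (x := w.re) (T := T) (s := v.re) (k := v.im) (by linarith only [h0]) (by linarith only [h1])
        (by linarith only [h]) (by linarith only [T1]) (by linarith only [h1, h']) (by linarith only [x1]) (by linarith only [h1, r2, h']) (by linarith only [t1])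
        (by linarith only [h1, x1]) (by linarith only [h']) (by linarith only [r1]) (by linarith only [r2]) (by linarith only [h])
      try simp only [zero_div] at this
      linarith only [this])
    (fun h h' => by
      exfalso
      linarith only [h1, x1, h'])
    (fun h h' => by
      exfalso
      linarith only [h1, x1, h'])
  linarith only [key]

/-- `2 | 3` (slot `0` of the `3`), `cr = 25/100` -/
theorem side25j {T : ℝ} {w v : ℂ} (T0 : -(5 / 1000) ≤ T) (T1 : T ≤ 57 / 1000) (h0 : 37 / 100 ≤ w.re)
    (h1 : w.re ≤ 50 / 100) (him : w.im = T * ((60 / 100 - w.re) / (25 / 100)))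
    (P : P2 v.re v.im) :
    S2 1 (-T / (25 / 100)) w v + Real.pi / 2 * (-T / (25 / 100)) < -14 / 100 := by
  have e1 : -T / (25 / 100) = -100 / 25 * T := by ring
  have e2 : w.im = T * (100 / 25 * (6 / 10 - w.re)) := by rw [him]; ring
  have b1 : 0 ≤ 100 / 25 * (6 / 10 - w.re) := by linarith only [h1]
  have b2 : 100 / 25 * (6 / 10 - w.re) ≤ 109 / 100 := by linarith only [h0]
  have b3 : -(41 / 1000) ≤ w.im := by rw [e2]; nlinarith only [T0, h0, h1]
  have b4 : w.im ≤ 62 / 1000 := by rw [e2]; nlinarith only [T1, h1, T0, h0]
  rw [e1]
  obtain ⟨x0, x1, t0, t1, up, dn, r1, r2⟩ := P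
  have key := glue (m := -100 / 25 * T) (T := T) (c := -100 / 25 * T * (1 / 2 * Real.pi)) (bd := -14 / 100) (w := w) (v := v)
    ⟨x0, x1, t0, t1, up, dn, r1, r2⟩ (by linarith only [h0]) (by linarith only [h1]) (fun h => by linarith only [h])
    (fun h => by linarith only [h]) b3 (fun h => by linarith only [h1, b4, t1, r1, h])
    (fun h k k1 k2 => by
      rw [e2]
      have := s25ja (x := w.re) (T := T) (s := v.re) (k := k) (by linarith only [h0]) (by linarith only [h1])
        (by linarith only [T0]) (by linarith only [T1]) (by linarith only [x0]) (by linarith only [h]) (by linarith only [k1]) (by linarith only [k2])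
      try simp only [zero_div] at this
      linarith only [this])
    (fun h h' => by
      rw [e2]
      have := s25jb (x := w.re) (T := T) (s := v.re) (k := v.im) (by linarith only [h0]) (by linarith only [h1])
        (by linarith only [T0]) (by linarith only [T1]) (by linarith only [h]) (by linarith only [h0, h']) (by linarith only [t0]) (by linarith only [t1])
        (by linarith only [h'])
      try simp only [zero_div] at this
      linarith only [this])
    (fun h h' h'' => by
      rw [e2]
      have := s25jcp (x := w.re) (T := T) (s := v.re) (k := v.im) (by linarith only [h0]) (by linarith only [h1])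
        (by linarith only [T0]) (by linarith only [T1]) (by linarith only [h1, h']) (by linarith only [x1]) (by linarith only [t0]) (by linarith only [t1])
        (by linarith only [h'']) (by linarith only [h']) (by linarith only [r1]) (by linarith only [r2]) (by linarith only [h])
      try simp only [zero_div] at this
      linarith only [this])
    (fun h h' h'' => by
      rw [e2]
      have := s25jcn (x := w.re) (T := T) (s := v.re) (k := v.im) (by linarith only [h0]) (by linarith only [h1])
        (by linarith only [h]) (by linarith only [T1]) (by linarith only [h1, h']) (by linarith only [x1]) (by linarith only [t0]) (by linarith only [t1])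
        (by linarith only [h'']) (by linarith only [h']) (by linarith only [r1]) (by linarith only [r2]) (by linarith only [h])
      try simp only [zero_div] at this
      linarith only [this])
    (fun h h' => by
      rw [e2]
      have := s25jdp (x := w.re) (T := T) (s := v.re) (k := v.im) (by linarith only [h0]) (by linarith only [h1])
        (by linarith only [T0]) (by linarith only [T1]) (by linarith only [h1, h']) (by linarith only [x1]) (by linarith only [h1, r2, h']) (by linarith only [t1])
        (by linarith only [h']) (by linarith only [r1]) (by linarith only [r2]) (by linarith only [h])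
      try simp only [zero_div] at this
      linarith only [this])
    (fun h h' => by
      rw [e2]
      have := s25jdn (x := w.re) (T := T) (s := v.re) (k := v.im) (by linarith only [h0]) (by linarith only [h1])
        (by linarith only [h]) (by linarith only [T1]) (by linarith only [h1, h']) (by linarith only [x1]) (by linarith only [h1, r2, h']) (by linarith only [t1])
        (by linarith only [h']) (by linarith only [r1]) (by linarith only [r2]) (by linarith only [h])
      try simp only [zero_div] at this
      linarith only [this])
  linarith only [key]

/-- `3 | 2` (slot `2` of the `3`) -/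
theorem side30i {T : ℝ} {w v : ℂ} (T0 : -(5 / 1000) ≤ T) (T1 : T ≤ 57 / 1000) (h0 : 30 / 100 ≤ w.re)
    (h1 : w.re ≤ 33 / 100) (him : w.im = T * ((60 / 100 - w.re) / (30 / 100)))
    (P : P2 v.re v.im) :
    S2 1 (-T / (30 / 100)) w v + Real.pi / 2 * (-T / (30 / 100)) < 120 / 1000 - 4 * (w.re - 300 / 1000) := by
  have e1 : -T / (30 / 100) = -100 / 30 * T := by ring
  have e2 : w.im = T * (100 / 30 * (6 / 10 - w.re)) := by rw [him]; ring
  have b1 : 0 ≤ 100 / 30 * (6 / 10 - w.re) := by linarith only [h1]
  have b2 : 100 / 30 * (6 / 10 - w.re) ≤ 1 := by linarith only [h0]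
  have b3 : -(41 / 1000) ≤ w.im := by rw [e2]; nlinarith only [T0, h0, h1]
  have b4 : w.im ≤ 57 / 1000 := by rw [e2]; nlinarith only [T1, T0, h0, h1]
  rw [e1]
  obtain ⟨x0, x1, t0, t1, up, dn, r1, r2⟩ := P
  have key := glue (m := -100 / 30 * T) (T := T) (c := -100 / 30 * T * (1 / 2 * Real.pi)) (bd := 120 / 1000 - 4 * (w.re - 300 / 1000)) (w := w) (v := v)
    ⟨x0, x1, t0, t1, up, dn, r1, r2⟩ (by linarith only [h0]) (by linarith only [h1]) (fun h => by linarith only [h])
    (fun h => by linarith only [h]) b3 (fun h => by linarith only [h1, x1, h])
    (fun h k k1 k2 => by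
      rw [e2]
      have := z30ia (x := w.re) (T := T) (s := v.re) (k := k) (by linarith only [h0]) (by linarith only [h1])
        (by linarith only [T0]) (by linarith only [T1]) (by linarith only [x0]) (by linarith only [h]) (by linarith only [k1]) (by linarith only [k2])
      try simp only [zero_div] at this
      linarith only [this])
    (fun h h' => by
      rw [e2]
      have := z30ib (x := w.re) (T := T) (s := v.re) (k := v.im) (by linarith only [h0]) (by linarith only [h1])
        (by linarith only [T0]) (by linarith only [T1]) (by linarith only [h]) (by linarith only [x1]) (by linarith only [t0]) (by linarith only [t1])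
        (by linarith only [h1, x1])
      try simp only [zero_div] at this
      linarith only [this])
    (fun h h' h'' => by
      exfalso
      linarith only [h1, x1, h'])
    (fun h h' h'' => by
      exfalso
      linarith only [h1, x1, h'])
    (fun h h' => by
      exfalso
      linarith only [h1, x1, h'])
    (fun h h' => by
      exfalso
      linarith only [h1, x1, h'])
  linarith only [key]

/-- `3 | 2` (slot `2` of the `3`) -/
theorem side30j {T : ℝ} {w v : ℂ} (T0 : -(5 / 1000) ≤ T) (T1 : T ≤ 57 / 1000) (h0 : 33 / 100 ≤ w.re)
    (h1 : w.re ≤ 36 / 100) (him : w.im = T * ((60 / 100 - w.re) / (30 / 100)))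
    (P : P2 v.re v.im) :
    S2 1 (-T / (30 / 100)) w v + Real.pi / 2 * (-T / (30 / 100)) < -20 / 1000 - 3 * (w.re - 330 / 1000) := by
  have e1 : -T / (30 / 100) = -100 / 30 * T := by ring
  have e2 : w.im = T * (100 / 30 * (6 / 10 - w.re)) := by rw [him]; ring
  have b1 : 0 ≤ 100 / 30 * (6 / 10 - w.re) := by linarith only [h1]
  have b2 : 100 / 30 * (6 / 10 - w.re) ≤ 1 := by linarith only [h0]
  have b3 : -(41 / 1000) ≤ w.im := by rw [e2]; nlinarith only [T0, h0, h1]
  have b4 : w.im ≤ 57 / 1000 := by rw [e2]; nlinarith only [T1, h1, T0, h0]
  rw [e1]
  obtain ⟨x0, x1, t0, t1, up, dn, r1, r2⟩ := P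
  have key := glue (m := -100 / 30 * T) (T := T) (c := -100 / 30 * T * (1 / 2 * Real.pi)) (bd := -20 / 1000 - 3 * (w.re - 330 / 1000)) (w := w) (v := v)
    ⟨x0, x1, t0, t1, up, dn, r1, r2⟩ (by linarith only [h0]) (by linarith only [h1]) (fun h => by linarith only [h])
    (fun h => by linarith only [h]) b3 (fun h => by linarith only [h1, b4, t1, r1, h])
    (fun h k k1 k2 => by
      rw [e2]
      have := z30ja (x := w.re) (T := T) (s := v.re) (k := k) (by linarith only [h0]) (by linarith only [h1])
        (by linarith only [T0]) (by linarith only [T1]) (by linarith only [x0]) (by linarith only [h]) (by linarith only [k1]) (by linarith only [k2])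
      try simp only [zero_div] at this
      linarith only [this])
    (fun h h' => by
      rw [e2]
      have := z30jb (x := w.re) (T := T) (s := v.re) (k := v.im) (by linarith only [h0]) (by linarith only [h1])
        (by linarith only [T0]) (by linarith only [T1]) (by linarith only [h]) (by linarith only [x1]) (by linarith only [t0]) (by linarith only [t1])
        (by linarith only [h'])
      try simp only [zero_div] at this
      linarith only [this])
    (fun h h' h'' => by
      rw [e2]
      have := z30jcp (x := w.re) (T := T) (s := v.re) (k := v.im) (by linarith only [h0]) (by linarith only [h1])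
        (by linarith only [T0]) (by linarith only [T1]) (by linarith only [h1, h']) (by linarith only [x1]) (by linarith only [h1, r2, h']) (by linarith only [t1])
        (by linarith only [h1, x1]) (by linarith only [h']) (by linarith only [r1]) (by linarith only [r2]) (by linarith only [h])
      try simp only [zero_div] at this
      linarith only [this])
    (fun h h' h'' => by
      rw [e2]
      have := z30jcn (x := w.re) (T := T) (s := v.re) (k := v.im) (by linarith only [h0]) (by linarith only [h1])
        (by linarith only [h]) (by linarith only [T1]) (by linarith only [h1, h']) (by linarith only [x1]) (by linarith only [h1, r2, h']) (by linarith only [t1])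
        (by linarith only [h1, x1]) (by linarith only [h']) (by linarith only [r1]) (by linarith only [r2]) (by linarith only [h])
      try simp only [zero_div] at this
      linarith only [this])
    (fun h h' => by
      exfalso
      linarith only [h1, x1, h'])
    (fun h h' => by
      exfalso
      linarith only [h1, x1, h'])
  linarith only [key]

/-- `3 | 2` (slot `2` of the `3`) -/
theorem side30k {T : ℝ} {w v : ℂ} (T0 : -(5 / 1000) ≤ T) (T1 : T ≤ 57 / 1000) (h0 : 37 / 100 ≤ w.re)
    (h1 : w.re ≤ 54 / 100) (him : w.im = T * ((60 / 100 - w.re) / (30 / 100)))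
    (P : P2 v.re v.im) :
    S2 1 (-T / (30 / 100)) w v + Real.pi / 2 * (-T / (30 / 100)) < -14 / 100 := by
  have e1 : -T / (30 / 100) = -100 / 30 * T := by ring
  have e2 : w.im = T * (100 / 30 * (6 / 10 - w.re)) := by rw [him]; ring
  have b1 : 0 ≤ 100 / 30 * (6 / 10 - w.re) := by linarith only [h1]
  have b2 : 100 / 30 * (6 / 10 - w.re) ≤ 77 / 100 := by linarith only [h0]
  have b3 : -(41 / 1000) ≤ w.im := by rw [e2]; nlinarith only [T0, h0, h1]
  have b4 : w.im ≤ 44 / 1000 := by rw [e2]; nlinarith only [T1, T0, h0, h1]
  rw [e1]
  obtain ⟨x0, x1, t0, t1, up, dn, r1, r2⟩ := P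
  have key := glue (m := -100 / 30 * T) (T := T) (c := -100 / 30 * T * (1 / 2 * Real.pi)) (bd := -14 / 100) (w := w) (v := v)
    ⟨x0, x1, t0, t1, up, dn, r1, r2⟩ (by linarith only [h0]) (by linarith only [h1]) (fun h => by linarith only [h])
    (fun h => by linarith only [h]) b3 (fun h => by linarith only [b4, t1])
    (fun h k k1 k2 => by
      rw [e2]
      have := z30ka (x := w.re) (T := T) (s := v.re) (k := k) (by linarith only [h0]) (by linarith only [h1])
        (by linarith only [T0]) (by linarith only [T1]) (by linarith only [x0]) (by linarith only [h]) (by linarith only [k1]) (by linarith only [k2])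
      try simp only [zero_div] at this
      linarith only [this])
    (fun h h' => by
      rw [e2]
      have := z30kb (x := w.re) (T := T) (s := v.re) (k := v.im) (by linarith only [h0]) (by linarith only [h1])
        (by linarith only [T0]) (by linarith only [T1]) (by linarith only [h]) (by linarith only [h0, h']) (by linarith only [t0]) (by linarith only [t1])
        (by linarith only [h'])
      try simp only [zero_div] at this
      linarith only [this])
    (fun h h' h'' => by
      rw [e2]
      have := z30kcp (x := w.re) (T := T) (s := v.re) (k := v.im) (by linarith only [h0]) (by linarith only [h1])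
        (by linarith only [T0]) (by linarith only [T1]) (by linarith only [h1, h']) (by linarith only [x1]) (by linarith only [t0]) (by linarith only [t1])
        (by linarith only [h'']) (by linarith only [h']) (by linarith only [r1]) (by linarith only [r2]) (by linarith only [h])
      try simp only [zero_div] at this
      linarith only [this])
    (fun h h' h'' => by
      rw [e2]
      have := z30kcn (x := w.re) (T := T) (s := v.re) (k := v.im) (by linarith only [h0]) (by linarith only [h1])
        (by linarith only [h]) (by linarith only [T1]) (by linarith only [h1, h']) (by linarith only [x1]) (by linarith only [t0]) (by linarith only [t1])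
        (by linarith only [h'']) (by linarith only [h']) (by linarith only [r1]) (by linarith only [r2]) (by linarith only [h])
      try simp only [zero_div] at this
      linarith only [this])
    (fun h h' => by
      rw [e2]
      have := z30kdp (x := w.re) (T := T) (s := v.re) (k := v.im) (by linarith only [h0]) (by linarith only [h1])
        (by linarith only [T0]) (by linarith only [T1]) (by linarith only [h1, h']) (by linarith only [x1]) (by linarith only [h1, r2, h']) (by linarith only [t1])
        (by linarith only [h']) (by linarith only [r1]) (by linarith only [r2]) (by linarith only [h])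
      try simp only [zero_div] at this
      linarith only [this])
    (fun h h' => by
      rw [e2]
      have := z30kdn (x := w.re) (T := T) (s := v.re) (k := v.im) (by linarith only [h0]) (by linarith only [h1])
        (by linarith only [h]) (by linarith only [T1]) (by linarith only [h1, h']) (by linarith only [x1]) (by linarith only [h1, r2, h']) (by linarith only [t1])
        (by linarith only [h']) (by linarith only [r1]) (by linarith only [r2]) (by linarith only [h])
      try simp only [zero_div] at this
      linarith only [this])
  linarith only [key]

/-- `2 | 3e`, lower part -/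
theorem sideEi {T : ℝ} {w v : ℂ} (T0 : -(13 / 1000) ≤ T) (T1 : T ≤ 26 / 1000) (h0 : 30 / 100 ≤ w.re)
    (h1 : w.re ≤ 40 / 100) (him : w.im = T * ((60 / 100 - w.re) / (30 / 100)))
    (P : P2 v.re v.im) :
    S2 1 (-T / (30 / 100)) w v < 25 / 100 := by
  have e1 : -T / (30 / 100) = -100 / 30 * T := by ring
  have e2 : w.im = T * (100 / 30 * (6 / 10 - w.re)) := by rw [him]; ring
  have b1 : 0 ≤ 100 / 30 * (6 / 10 - w.re) := by linarith only [h1]
  have b2 : 100 / 30 * (6 / 10 - w.re) ≤ 1 := by linarith only [h0]
  have b3 : -(41 / 1000) ≤ w.im := by rw [e2]; nlinarith only [T0, h0, h1]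
  have b4 : w.im ≤ 26 / 1000 := by rw [e2]; nlinarith only [T1, T0, h0, h1]
  rw [e1]
  obtain ⟨x0, x1, t0, t1, up, dn, r1, r2⟩ := P
  have key := glue (m := -100 / 30 * T) (T := T) (c := 0) (bd := 25 / 100) (w := w) (v := v)
    ⟨x0, x1, t0, t1, up, dn, r1, r2⟩ (by linarith only [h0]) (by linarith only [h1]) (fun h => by linarith only [h])
    (fun h => by linarith only [h]) b3 (fun h => by linarith only [b4, t1])
    (fun h k k1 k2 => by
      rw [e2]
      have := e30ia (x := w.re) (T := T) (s := v.re) (k := k) (by linarith only [h0]) (by linarith only [h1])
        (by linarith only [T0]) (by linarith only [T1]) (by linarith only [x0]) (by linarith only [h]) (by linarith only [k1]) (by linarith only [k2])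
      try simp only [zero_div] at this
      linarith only [this])
    (fun h h' => by
      rw [e2]
      have := e30ib (x := w.re) (T := T) (s := v.re) (k := v.im) (by linarith only [h0]) (by linarith only [h1])
        (by linarith only [T0]) (by linarith only [T1]) (by linarith only [h]) (by linarith only [x1]) (by linarith only [t0]) (by linarith only [t1])
        (by linarith only [h'])
      try simp only [zero_div] at this
      linarith only [this])
    (fun h h' h'' => by
      rw [e2]
      have := e30icp (x := w.re) (T := T) (s := v.re) (k := v.im) (by linarith only [h0]) (by linarith only [h1])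
        (by linarith only [T0]) (by linarith only [T1]) (by linarith only [h1, h']) (by linarith only [x1]) (by linarith only [h1, r2, h']) (by linarith only [t1])
        (by linarith only [h1, x1]) (by linarith only [h']) (by linarith only [r1]) (by linarith only [r2]) (by linarith only [h])
      try simp only [zero_div] at this
      linarith only [this])
    (fun h h' h'' => by
      rw [e2]
      have := e30icn (x := w.re) (T := T) (s := v.re) (k := v.im) (by linarith only [h0]) (by linarith only [h1])
        (by linarith only [h]) (by linarith only [T1]) (by linarith only [h1, h']) (by linarith only [x1]) (by linarith only [h1, r2, h']) (by linarith only [t1])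
        (by linarith only [h1, x1]) (by linarith only [h']) (by linarith only [r1]) (by linarith only [r2]) (by linarith only [h])
      try simp only [zero_div] at this
      linarith only [this])
    (fun h h' => by
      exfalso
      linarith only [h1, x1, h'])
    (fun h h' => by
      exfalso
      linarith only [h1, x1, h'])
  linarith only [key]

/-- `2 | 3e`, upper part -/
theorem sideEj {T : ℝ} {w v : ℂ} (T0 : -(13 / 1000) ≤ T) (T1 : T ≤ 26 / 1000) (h0 : 40 / 100 ≤ w.re)
    (h1 : w.re ≤ 60 / 100) (him : w.im = T * ((60 / 100 - w.re) / (30 / 100)))
    (P : P2 v.re v.im) :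
    S2 1 (-T / (30 / 100)) w v < -4 / 100 := by
  have e1 : -T / (30 / 100) = -100 / 30 * T := by ring
  have e2 : w.im = T * (100 / 30 * (6 / 10 - w.re)) := by rw [him]; ring
  have b1 : 0 ≤ 100 / 30 * (6 / 10 - w.re) := by linarith only [h1]
  have b2 : 100 / 30 * (6 / 10 - w.re) ≤ 1 := by linarith only [h0]
  have b3 : -(41 / 1000) ≤ w.im := by rw [e2]; nlinarith only [h0, T0, h1]
  have b4 : w.im ≤ 26 / 1000 := by rw [e2]; nlinarith only [T1, h1, T0, h0]
  rw [e1]
  obtain ⟨x0, x1, t0, t1, up, dn, r1, r2⟩ := P
  have key := glue (m := -100 / 30 * T) (T := T) (c := 0) (bd := -4 / 100) (w := w) (v := v)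
    ⟨x0, x1, t0, t1, up, dn, r1, r2⟩ (by linarith only [h0]) (by linarith only [h1]) (fun h => by linarith only [h])
    (fun h => by linarith only [h]) b3 (fun h => by linarith only [b4, t1])
    (fun h k k1 k2 => by
      rw [e2]
      have := e30ja (x := w.re) (T := T) (s := v.re) (k := k) (by linarith only [h0]) (by linarith only [h1])
        (by linarith only [T0]) (by linarith only [T1]) (by linarith only [x0]) (by linarith only [h]) (by linarith only [k1]) (by linarith only [k2])
      try simp only [zero_div] at this
      linarith only [this])
    (fun h h' => by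
      rw [e2]
      have := e30jb (x := w.re) (T := T) (s := v.re) (k := v.im) (by linarith only [h0]) (by linarith only [h1])
        (by linarith only [T0]) (by linarith only [T1]) (by linarith only [h]) (by linarith only [h0, h']) (by linarith only [t0]) (by linarith only [t1])
        (by linarith only [h'])
      try simp only [zero_div] at this
      linarith only [this])
    (fun h h' h'' => by
      rw [e2]
      have := e30jcp (x := w.re) (T := T) (s := v.re) (k := v.im) (by linarith only [h0]) (by linarith only [h1])
        (by linarith only [T0]) (by linarith only [T1]) (by linarith only [h1, h']) (by linarith only [x1]) (by linarith only [t0]) (by linarith only [t1])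
        (by linarith only [h'']) (by linarith only [h']) (by linarith only [r1]) (by linarith only [r2]) (by linarith only [h])
      try simp only [zero_div] at this
      linarith only [this])
    (fun h h' h'' => by
      rw [e2]
      have := e30jcn (x := w.re) (T := T) (s := v.re) (k := v.im) (by linarith only [h0]) (by linarith only [h1])
        (by linarith only [h]) (by linarith only [T1]) (by linarith only [h1, h']) (by linarith only [x1]) (by linarith only [t0]) (by linarith only [t1])
        (by linarith only [h'']) (by linarith only [h']) (by linarith only [r1]) (by linarith only [r2]) (by linarith only [h])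
      try simp only [zero_div] at this
      linarith only [this])
    (fun h h' => by
      rw [e2]
      have := e30jdp (x := w.re) (T := T) (s := v.re) (k := v.im) (by linarith only [h0]) (by linarith only [h1])
        (by linarith only [T0]) (by linarith only [T1]) (by linarith only [h1, h']) (by linarith only [x1]) (by linarith only [t0]) (by linarith only [t1])
        (by linarith only [h']) (by linarith only [r1]) (by linarith only [r2]) (by linarith only [h])
      try simp only [zero_div] at this
      linarith only [this])
    (fun h h' => by
      rw [e2]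
      have := e30jdn (x := w.re) (T := T) (s := v.re) (k := v.im) (by linarith only [h0]) (by linarith only [h1])
        (by linarith only [h]) (by linarith only [T1]) (by linarith only [h1, h']) (by linarith only [x1]) (by linarith only [t0]) (by linarith only [t1])
        (by linarith only [h']) (by linarith only [r1]) (by linarith only [r2]) (by linarith only [h])
      try simp only [zero_div] at this
      linarith only [this])
  linarith only [key]

/-! ### the end `2e` -/

def m30 : NumI.E := .mul (.q (-100) 30) (.var 1)
def t30 : NumI.E := .mul (.var 1) (.mul (.q 100 30) (.sub (.q 6 10) (.var 0)))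
def ee (n : ℤ) : NumI.E := .sub (.q n 100) (.add (MR.e2e m30 (.var 0) t30) (.mul m30 (.q 5 2)))

theorem rowe {x T : ℝ} (h1 : 30 / 100 ≤ x) (h1' : x ≤ 50 / 100) (h2 : 76 / 1000 ≤ T)
    (h2' : T ≤ 98 / 1000) : MR.s2e (-T / (30 / 100)) x (T * ((60 / 100 - x) / (30 / 100))) +
      5 / 2 * (-T / (30 / 100)) < -58 / 100 := by
  have h : NumI.chk [ee (-58)] 20 [NumI.V.of 1000 300 500, NumI.V.of 1000 76 98] = true := by decide +kernel
  have hp := NumI.pos_of_chk (NumI.chk2 h (by norm_num) (x := x) (y := T) (by norm_num; linarith only [h1])
    (by norm_num; linarith only [h1']) (by norm_num; linarith only [h2]) (by norm_num; linarith only [h2']))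
  simp only [ee, NumI.E.val, MR.e2e_val] at hp
  simp only [m30, t30, NumI.E.val, NumI.lkR] at hp
  push_cast at hp
  rw [show -T / (30 / 100) = -100 / 30 * T by ring,
    show T * ((60 / 100 - x) / (30 / 100)) = T * (100 / 30 * (6 / 10 - x)) by ring]
  linarith only [hp]

theorem rowe' {x T : ℝ} (h1 : 50 / 100 ≤ x) (h1' : x ≤ 54 / 100) (h2 : 76 / 1000 ≤ T)
    (h2' : T ≤ 98 / 1000) : MR.s2e (-T / (30 / 100)) x (T * ((60 / 100 - x) / (30 / 100))) +
      5 / 2 * (-T / (30 / 100)) < -48 / 100 := by
  have h : NumI.chk [ee (-48)] 20 [NumI.V.of 1000 500 540, NumI.V.of 1000 76 98] = true := by decide +kernel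
  have hp := NumI.pos_of_chk (NumI.chk2 h (by norm_num) (x := x) (y := T) (by norm_num; linarith only [h1])
    (by norm_num; linarith only [h1']) (by norm_num; linarith only [h2]) (by norm_num; linarith only [h2']))
  simp only [ee, NumI.E.val, MR.e2e_val] at hp
  simp only [m30, t30, NumI.E.val, NumI.lkR] at hp
  push_cast at hp
  rw [show -T / (30 / 100) = -100 / 30 * T by ring,
    show T * ((60 / 100 - x) / (30 / 100)) = T * (100 / 30 * (6 / 10 - x)) by ring]
  linarith only [hp]

end C23

end Pool.Agent.Work.MP_b30479_gt.G2
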