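import Pool.Agent.Work.MP_b30479_gt.G2.MRBase

/-!
# Sides of hinges near and beyond `Re u = 1`
-/

namespace Pool.Agent.Work.MP_b30479_gt.G2

open VOL NumI

namespace MR

/-! ### a rectangle around `1` on which `LL ≤ c` -/

/-- the condition for the rectangle `|Re u - 1| ≤ s0`, `|Im u| ≤ y0` -/
def Kr (s0 y0 c : ℝ) : Prop :=
  2 * Real.cosh (Real.pi * (2 * y0)) - 2 * Real.cos (Real.pi * (2 * s0)) ≤ Real.exp (2 * c)

section
open E

theorem kr_12_14 : Kr (12 / 100) (14 / 100) (16 / 100) := by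
  have h : chk [sub (exp (q 32 100)) (sub (mul (q 2 1) (cosh (mul pi (q 28 100))))
      (mul (q 2 1) (cosPi (q 24 100))))] 1 [V.of 1 0 0] = true := by decide +kernel
  have hp := pos_of_chk (chk1 h (by norm_num) (x := 0) (by norm_num) (by norm_num))
  unfold Kr
  simp only [val] at hp
  norm_num at hp ⊢
  linarith only [hp]

theorem kr_9_14 : Kr (9 / 100) (14 / 100) (7 / 100) := by
  have h : chk [sub (exp (q 14 100)) (sub (mul (q 2 1) (cosh (mul pi (q 28 100))))
      (mul (q 2 1) (cosPi (q 18 100))))] 1 [V.of 1 0 0] = true := by decide +kernel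
  have hp := pos_of_chk (chk1 h (by norm_num) (x := 0) (by norm_num) (by norm_num))
  unfold Kr
  simp only [val] at hp
  norm_num at hp ⊢
  linarith only [hp]

theorem kr_9_175 : Kr (9 / 100) (175 / 1000) (25 / 100) := by
  have h : chk [sub (exp (q 50 100)) (sub (mul (q 2 1) (cosh (mul pi (q 350 1000))))
      (mul (q 2 1) (cosPi (q 18 100))))] 1 [V.of 1 0 0] = true := by decide +kernel
  have hp := pos_of_chk (chk1 h (by norm_num) (x := 0) (by norm_num) (by norm_num))
  unfold Kr
  simp only [val] at hp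
  norm_num at hp ⊢
  linarith only [hp]

theorem kr_6_14 : Kr (6 / 100) (14 / 100) 0 := by
  have h : chk [sub (q 1 1) (sub (mul (q 2 1) (cosh (mul pi (q 28 100))))
      (mul (q 2 1) (cosPi (q 12 100))))] 1 [V.of 1 0 0] = true := by decide +kernel
  have hp := pos_of_chk (chk1 h (by norm_num) (x := 0) (by norm_num) (by norm_num))
  unfold Kr
  simp only [val] at hp
  rw [mul_zero, Real.exp_zero]
  norm_num at hp ⊢
  linarith only [hp]

end

theorem LL_rect {s0 y0 c : ℝ} (K : Kr s0 y0 c) (hc : 0 ≤ c) (h1 : s0 ≤ 1 / 2) {u : ℂ}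
    (h : |u.re - 1| ≤ s0) (hy : |u.im| ≤ y0) : LL u ≤ c := by
  have hp := Real.pi_pos
  have h3 := cosh_le_of hy
  have h5 : Real.cos (Real.pi * (2 * s0)) ≤ Real.cos (2 * Real.pi * u.re) := by
    have e : Real.cos (2 * Real.pi * u.re) = Real.cos (2 * Real.pi * |u.re - 1|) := by
      rw [← Real.cos_sub_two_pi, ← Real.cos_abs, ← abs_of_pos (by positivity : 0 < 2 * Real.pi),
        ← abs_mul, abs_of_pos (by positivity : 0 < 2 * Real.pi)]
      congr 2
      ring
    rw [e]
    apply Real.cos_le_cos_of_nonneg_of_le_pi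
    · positivity
    · nlinarith only [h1, hp]
    · nlinarith only [h, hp]
  have h4 := LL_le_log (u := u) (K := Real.exp (2 * c)) (Real.one_le_exp (by linarith only [hc])) (by
    unfold Kr at K
    linarith only [K, h3, h5])
  rw [Real.log_exp] at h4
  linarith only [h4]

theorem YY_abs_pi {u : ℂ} (h0 : 0 ≤ u.re) (h1 : u.re ≤ 3 / 2) : |YY u| ≤ Real.pi := by
  have hp := Real.pi_pos
  rcases le_total u.re 1 with h2 | h2
  · exact (YY_abs_le h0 h2).trans (by linarith only [hp])
  · have e := YY_add_one (u - 1)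
    rw [sub_add_cancel] at e
    have r1 : (u - 1).re = u.re - 1 := by simp
    have r2 : (u - 1).im = u.im := by simp
    rcases lt_trichotomy u.im 0 with h | h | h
    · rw [YY_neg (u := u - 1) (by rw [r2]; exact h), if_neg (by rw [r2]; exact not_lt.2 h.le),
        if_pos (by rw [r2]; exact h)] at e
      have k1 := Tr_le_half (s := -(u - 1).im) (x := (u - 1).re) (by rw [r2]; linarith only [h])
        (by rw [r1]; linarith only [h1])
      have k2 := pi_mul_le_Tr (s := -(u - 1).im) (x := (u - 1).re) (by rw [r1]; linarith only [h2])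
        (by rw [r1]; linarith only [h1]) (by rw [r2]; linarith only [h])
      have k3 : 0 ≤ Real.pi * (u - 1).re := mul_nonneg hp.le (by rw [r1]; linarith only [h2])
      rw [e, abs_le]
      constructor <;> linarith only [k1, hp, k2, k3]
    · rw [YY_zero h, abs_zero]
      exact hp.le
    · rw [YY_pos (u := u - 1) (by rw [r2]; exact h), if_pos (by rw [r2]; exact h)] at e
      have k1 := Tr_le_half (s := (u - 1).im) (x := (u - 1).re) (by rw [r2]; linarith only [h])
        (by rw [r1]; linarith only [h1])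
      have k2 := pi_mul_le_Tr (s := (u - 1).im) (x := (u - 1).re) (by rw [r1]; linarith only [h2])
        (by rw [r1]; linarith only [h1]) (by rw [r2]; linarith only [h])
      have k3 : 0 ≤ Real.pi * (u - 1).re := mul_nonneg hp.le (by rw [r1]; linarith only [h2])
      rw [e, abs_le]
      constructor <;> linarith only [hp, k2, k3, k1]

theorem mul_YY_le {m s h : ℝ} {u : ℂ} (hs : m * s = |m|) (hY : |YY u| ≤ h * Real.pi) :
    m * YY u ≤ m * (s * h * Real.pi) := by
  rw [mul_assoc, ← mul_assoc, hs]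
  refine (le_abs_self _).trans ?_
  rw [abs_mul]
  exact mul_le_mul_of_nonneg_left hY (abs_nonneg m)

/-- beyond `1` -/
theorem mul_YY_beyond {m s : ℝ} {u : ℂ} (hs : m * s = |m|) (h1 : 1 < u.re) (h2 : u.re < 2) :
    m * YY u ≤ m * (s * Real.pi - lnB (u.re - 1) u.im) := by
  have hp := Real.pi_pos
  have e := YY_add_one (u - 1)
  rw [sub_add_cancel] at e
  have r1 : (u - 1).re = u.re - 1 := by simp
  have r2 : (u - 1).im = u.im := by simp
  have h3 : YY (u - 1) = -lnB (u.re - 1) u.im := by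
    rw [Num.YY_lnB ⟨by rw [r1]; linarith only [h1], by rw [r1]; linarith only [h2]⟩, r1, r2]
  rw [e, h3, mul_add, mul_sub]
  have h4 : m * (if 0 < (u - 1).im then Real.pi else if (u - 1).im < 0 then -Real.pi else 0) ≤
      m * (s * Real.pi) := by
    rw [← mul_assoc, hs]
    refine (le_abs_self _).trans ?_
    rw [abs_mul]
    apply mul_le_mul_of_nonneg_left _ (abs_nonneg m)
    split_ifs
    · exact (abs_of_pos hp).le
    · rw [abs_neg]; exact (abs_of_pos hp).le
    · rw [abs_zero]; exact hp.le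
  linarith only [h4]

theorem LL_beyond {u : ℂ} (h1 : 1 < u.re) (h2 : u.re < 2) : LL u = lnA (u.re - 1) u.im := by
  have e := LL_add_one (u - 1)
  rw [sub_add_cancel] at e
  have r1 : (u - 1).re = u.re - 1 := by simp
  have r2 : (u - 1).im = u.im := by simp
  rw [e, Num.LL_lnA ⟨by rw [r1]; linarith only [h1], by rw [r1]; linarith only [h2]⟩, r1, r2]

/-! ### upper bounds of the sides -/

/-- `S1` with `LL u ≤ c`, `YY u` replaced by `r π` -/
noncomputable def n1 (c r m x t x' t' : ℝ) : ℝ :=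
  Real.pi * t' + c - lnA x t + m * (Real.pi * (x' - 1) + r * Real.pi + lnB x t)

/-- `S2` with `LL u ≤ c`, `YY u` replaced by `r π` -/
noncomputable def n2 (c r m x t x' t' : ℝ) : ℝ :=
  Real.pi * (t' - t) + c - 2 * lnA x t +
    m * (Real.pi * (x' - x - 1 / 2) + r * Real.pi + 2 * lnB x t)

/-- `S1` beyond `1` -/
noncomputable def b1 (s m x t x' t' : ℝ) : ℝ :=
  Real.pi * t' + lnA (x + x' - 1) (t + t') - lnA x t +
    m * (Real.pi * (x' - 1) + (s * Real.pi - lnB (x + x' - 1) (t + t')) + lnB x t)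

/-- `S2` beyond `1` -/
noncomputable def b2 (s m x t x' t' : ℝ) : ℝ :=
  Real.pi * (t' - t) + lnA (x + x' - 1) (t + t') - 2 * lnA x t +
    m * (Real.pi * (x' - x - 1 / 2) + (s * Real.pi - lnB (x + x' - 1) (t + t')) + 2 * lnB x t)

theorem S1_near {w v : ℂ} {m s c h : ℝ} (hs : m * s = |m|) (hw0 : 0 < w.re) (hw : w.re < 1)
    (hL : LL (w + v) ≤ c) (hY : |YY (w + v)| ≤ h * Real.pi) :
    S1 1 m w v ≤ n1 c (s * h) m w.re w.im v.re v.im := by
  have h4 := mul_YY_le hs hY
  unfold S1 n1
  rw [Num.LL_lnA ⟨hw0, hw⟩, Num.YY_lnB ⟨hw0, hw⟩]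
  linarith only [hL, h4]

theorem S2_near {w v : ℂ} {m s c h : ℝ} (hs : m * s = |m|) (hw0 : 0 < w.re) (hw : w.re < 1)
    (hL : LL (w + v) ≤ c) (hY : |YY (w + v)| ≤ h * Real.pi) :
    S2 1 m w v ≤ n2 c (s * h) m w.re w.im v.re v.im := by
  have h4 := mul_YY_le hs hY
  unfold S2 n2
  rw [Num.LL_lnA ⟨hw0, hw⟩, Num.YY_lnB ⟨hw0, hw⟩]
  linarith only [hL, h4]

theorem S1_beyond {w v : ℂ} {m s : ℝ} (hs : m * s = |m|) (hw0 : 0 < w.re) (hw : w.re < 1)
    (h1 : 1 < w.re + v.re) (h2 : w.re + v.re < 2) :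
    S1 1 m w v ≤ b1 s m w.re w.im v.re v.im := by
  have h4 := mul_YY_beyond (u := w + v) hs (by simpa using h1) (by simpa using h2)
  have h5 := LL_beyond (u := w + v) (by simpa using h1) (by simpa using h2)
  unfold S1 b1
  rw [Num.LL_lnA ⟨hw0, hw⟩, Num.YY_lnB ⟨hw0, hw⟩, h5]
  simp only [Complex.add_re, Complex.add_im] at h4 ⊢
  linarith only [h4]

theorem S2_beyond {w v : ℂ} {m s : ℝ} (hs : m * s = |m|) (hw0 : 0 < w.re) (hw : w.re < 1)
    (h1 : 1 < w.re + v.re) (h2 : w.re + v.re < 2) :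
    S2 1 m w v ≤ b2 s m w.re w.im v.re v.im := by
  have h4 := mul_YY_beyond (u := w + v) hs (by simpa using h1) (by simpa using h2)
  have h5 := LL_beyond (u := w + v) (by simpa using h1) (by simpa using h2)
  unfold S2 b2
  rw [Num.LL_lnA ⟨hw0, hw⟩, Num.YY_lnB ⟨hw0, hw⟩, h5]
  simp only [Complex.add_re, Complex.add_im] at h4 ⊢
  linarith only [h4]

/-! ### expressions -/

section
open E

def en1 (c r m x t x' t' : E) : E :=
  add (sub (add (mul pi t') c) (lnA x t))
    (mul m (add (add (mul pi (sub x' (q 1 1))) (mul r pi)) (lnB x t)))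

def en2 (c r m x t x' t' : E) : E :=
  add (sub (add (mul pi (sub t' t)) c) (mul (q 2 1) (lnA x t)))
    (mul m (add (add (mul pi (sub (sub x' x) (q 1 2))) (mul r pi)) (mul (q 2 1) (lnB x t))))

def eb1 (s m x t x' t' : E) : E :=
  add (sub (add (mul pi t') (lnA (sub (add x x') (q 1 1)) (add t t'))) (lnA x t))
    (mul m (add (add (mul pi (sub x' (q 1 1)))
      (sub (mul s pi) (lnB (sub (add x x') (q 1 1)) (add t t')))) (lnB x t)))

def eb2 (s m x t x' t' : E) : E :=
  add (sub (add (mul pi (sub t' t)) (lnA (sub (add x x') (q 1 1)) (add t t')))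
      (mul (q 2 1) (lnA x t)))
    (mul m (add (add (mul pi (sub (sub x' x) (q 1 2)))
      (sub (mul s pi) (lnB (sub (add x x') (q 1 1)) (add t t')))) (mul (q 2 1) (lnB x t))))

theorem en1_val (c r m x t x' t' : E) (xs : List ℝ) : (en1 c r m x t x' t').val xs =
    n1 (c.val xs) (r.val xs) (m.val xs) (x.val xs) (t.val xs) (x'.val xs) (t'.val xs) := by
  simp only [en1, val, n1]
  push_cast
  ring_nf

theorem en2_val (c r m x t x' t' : E) (xs : List ℝ) : (en2 c r m x t x' t').val xs =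
    n2 (c.val xs) (r.val xs) (m.val xs) (x.val xs) (t.val xs) (x'.val xs) (t'.val xs) := by
  simp only [en2, val, n2]
  push_cast
  ring_nf

theorem eb1_val (s m x t x' t' : E) (xs : List ℝ) : (eb1 s m x t x' t').val xs =
    b1 (s.val xs) (m.val xs) (x.val xs) (t.val xs) (x'.val xs) (t'.val xs) := by
  simp only [eb1, val, b1]
  push_cast
  ring

theorem eb2_val (s m x t x' t' : E) (xs : List ℝ) : (eb2 s m x t x' t').val xs =
    b2 (s.val xs) (m.val xs) (x.val xs) (t.val xs) (x'.val xs) (t'.val xs) := by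
  simp only [eb2, val, b2]
  push_cast
  ring

end

end MR

end Pool.Agent.Work.MP_b30479_gt.G2
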