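import Pool.Agent.Work.NumU.Tree
import Pool.Agent.Work.MP_b30479_gt.G2.MRX

/-!
# Right ramps of the hinges `2 | 3`, `3 | 2`, `2 | 3e`: rows for the side of the digit `2`

`T` is the height in the frame of the digit `2`; `s`, `k`: the other hinge.  Found with `NumU.cert`.
-/

set_option linter.unusedSimpArgs false
set_option linter.unusedVariables false
set_option linter.unusedTactic false

namespace Pool.Agent.Work.MP_b30479_gt.G2

namespace C23

open NumU
open NumU.E (emb)
open NumI (V)

/-- 9 boxes -/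
theorem s27ia {x T s k : ℝ} (a0 : 3300 / 10000 ≤ x) (b0 : x ≤ 3600 / 10000) (a1 : -50 / 10000 ≤ T) (b1 : T ≤ 570 / 10000)
    (a2 : 700 / 10000 ≤ s) (b2 : s ≤ 1250 / 10000) (a3 : -1075 / 10000 ≤ k) (b3 : k ≤ 960 / 10000)
    :
    0 < (((-20 / 1000) - ((300 / 100) * (x - (330 / 1000)))) - ((MR.s2 ((-100 / 27) * T) x (T *
      ((100 / 27) * ((6 / 10) - x))) s ((8 * k) * s)) + (((-100 / 27) * T) * ((1 / 2) *
      Real.pi)))) := by
  have h : chkT [(emb (.sub (.sub (.q (-20) 1000) (.mul (.q 300 100) (.sub (.var 0) (.q 330 1000)))) (.add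
      (MR.e2 (.mul (.q (-100) 27) (.var 1)) (.var 0) (.mul (.var 1) (.mul (.q 100 27) (.sub (.q 6
      10) (.var 0)))) (.var 2) (.mul (.mul (.q 8 1) (.var 3)) (.var 2))) (.mul (.mul (.q (-100)
      27) (.var 1)) (.mul (.q 1 2) .pi)))))] 22
      156835606907284784003
      [V.of 10000 3300 3600 0, V.of 10000 (-50) 570 0, V.of 10000 700 1250 0, V.of 10000 (-1075)
        960 0] = true := by
    decide +kernel
  obtain ⟨f, hf, hp⟩ := chkT4 h (by norm_num) (x := x) (y := T) (z := s) (w := k)
    (le_trans (by norm_num) a0) (le_trans b0 (by norm_num))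
    (le_trans (by norm_num) a1) (le_trans b1 (by norm_num))
    (le_trans (by norm_num) a2) (le_trans b2 (by norm_num))
    (le_trans (by norm_num) a3) (le_trans b3 (by norm_num))
  simp only [List.mem_cons, List.not_mem_nil, or_false] at hf
  subst hf
  simp only [MR.e2_val, MR.en2_val, MR.eb2_val, NumU.E.val, NumI.E.val, NumI.lkR] at hp
  push_cast at hp
  try simp only [div_one] at hp
  linarith only [hp]

/-- 54 boxes -/
theorem s27ib {x T s k : ℝ} (a0 : 3300 / 10000 ≤ x) (b0 : x ≤ 3600 / 10000) (a1 : -50 / 10000 ≤ T) (b1 : T ≤ 570 / 10000)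
    (a2 : 1250 / 10000 ≤ s) (b2 : s ≤ 6000 / 10000) (a3 : -985 / 10000 ≤ k) (b3 : k ≤ 960 / 10000)
    (c0 : (x + s) - (94 / 100) ≤ 0) :
    0 < (((-20 / 1000) - ((300 / 100) * (x - (330 / 1000)))) - ((MR.s2 ((-100 / 27) * T) x (T *
      ((100 / 27) * ((6 / 10) - x))) s k) + (((-100 / 27) * T) * ((1 / 2) * Real.pi)))) := by
  have h : chkT [(emb (.sub (.sub (.q (-20) 1000) (.mul (.q 300 100) (.sub (.var 0) (.q 330 1000)))) (.add
      (MR.e2 (.mul (.q (-100) 27) (.var 1)) (.var 0) (.mul (.var 1) (.mul (.q 100 27) (.sub (.q 6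
      10) (.var 0)))) (.var 2) (.var 3)) (.mul (.mul (.q (-100) 27) (.var 1)) (.mul (.q 1 2)
      .pi))))), (emb (.sub (.add (.var 0) (.var 2)) (.q 94 100)))] 22
      368504473618334958067827323346110852308797447612393502025209332853156306601135233557412236723014979606236403732058498511474492194
      [V.of 10000 3300 3600 0, V.of 10000 (-50) 570 0, V.of 10000 1250 6000 0, V.of 10000 (-985)
        960 0] = true := by
    decide +kernel
  obtain ⟨f, hf, hp⟩ := chkT4 h (by norm_num) (x := x) (y := T) (z := s) (w := k)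
    (le_trans (by norm_num) a0) (le_trans b0 (by norm_num))
    (le_trans (by norm_num) a1) (le_trans b1 (by norm_num))
    (le_trans (by norm_num) a2) (le_trans b2 (by norm_num))
    (le_trans (by norm_num) a3) (le_trans b3 (by norm_num))
  simp only [List.mem_cons, List.not_mem_nil, or_false] at hf
  rcases hf with rfl | rfl
  · simp only [MR.e2_val, MR.en2_val, MR.eb2_val, NumU.E.val, NumI.E.val, NumI.lkR] at hp
    push_cast at hp
    try simp only [div_one] at hp
    linarith only [hp]
  · simp only [MR.e2_val, MR.en2_val, MR.eb2_val, NumU.E.val, NumI.E.val, NumI.lkR] at hp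
    push_cast at hp
    try simp only [div_one] at hp
    exfalso
    linarith only [c0, hp]

/-- 1 boxes -/
theorem s27icp {x T s k : ℝ} (a0 : 3300 / 10000 ≤ x) (b0 : x ≤ 3600 / 10000) (a1 : -50 / 10000 ≤ T) (b1 : T ≤ 570 / 10000)
    (a2 : 5800 / 10000 ≤ s) (b2 : s ≤ 6000 / 10000) (a3 : -985 / 10000 ≤ k) (b3 : k ≤ 960 / 10000)
    (c0 : (x + s) - (106 / 100) ≤ 0) (c1 : (94 / 100) - (x + s) ≤ 0) (c2 : k - ((11 / 1000) +
    ((320 / 1000) * ((63 / 100) - s))) ≤ 0) (c3 : (-k) - ((340 / 1000) * ((80 / 100) - s)) ≤ 0)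
    (c4 : T ≤ 0) :
    0 < (((-20 / 1000) - ((300 / 100) * (x - (330 / 1000)))) - ((MR.n2 0 1 ((-100 / 27) * T) x
      (T * ((100 / 27) * ((6 / 10) - x))) s k) + (((-100 / 27) * T) * ((1 / 2) * Real.pi)))) := by
  have h : chkT [(emb (.sub (.sub (.q (-20) 1000) (.mul (.q 300 100) (.sub (.var 0) (.q 330 1000)))) (.add
      (MR.en2 (.q 0 1) (.q 1 1) (.mul (.q (-100) 27) (.var 1)) (.var 0) (.mul (.var 1) (.mul (.q
      100 27) (.sub (.q 6 10) (.var 0)))) (.var 2) (.var 3)) (.mul (.mul (.q (-100) 27) (.var 1))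
      (.mul (.q 1 2) .pi))))), (emb (.sub (.add (.var 0) (.var 2)) (.q 106 100))), (emb (.sub (.q
      94 100) (.add (.var 0) (.var 2)))), (emb (.sub (.var 3) (.add (.q 11 1000) (.mul (.q 320
      1000) (.sub (.q 63 100) (.var 2)))))), (emb (.sub (.neg (.var 3)) (.mul (.q 340 1000) (.sub
      (.q 80 100) (.var 2))))), (emb (.var 1))] 22
      8
      [V.of 10000 3300 3600 0, V.of 10000 (-50) 570 0, V.of 10000 5800 6000 0, V.of 10000 (-985)
        960 0] = true := by
    decide +kernel
  obtain ⟨f, hf, hp⟩ := chkT4 h (by norm_num) (x := x) (y := T) (z := s) (w := k)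
    (le_trans (by norm_num) a0) (le_trans b0 (by norm_num))
    (le_trans (by norm_num) a1) (le_trans b1 (by norm_num))
    (le_trans (by norm_num) a2) (le_trans b2 (by norm_num))
    (le_trans (by norm_num) a3) (le_trans b3 (by norm_num))
  simp only [List.mem_cons, List.not_mem_nil, or_false] at hf
  rcases hf with rfl | rfl | rfl | rfl | rfl | rfl
  · simp only [MR.e2_val, MR.en2_val, MR.eb2_val, NumU.E.val, NumI.E.val, NumI.lkR] at hp
    push_cast at hp
    try simp only [div_one] at hp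
    linarith only [hp]
  · simp only [MR.e2_val, MR.en2_val, MR.eb2_val, NumU.E.val, NumI.E.val, NumI.lkR] at hp
    push_cast at hp
    try simp only [div_one] at hp
    exfalso
    linarith only [b0, b2, hp]
  · simp only [MR.e2_val, MR.en2_val, MR.eb2_val, NumU.E.val, NumI.E.val, NumI.lkR] at hp
    push_cast at hp
    try simp only [div_one] at hp
    exfalso
    linarith only [c1, hp]
  · simp only [MR.e2_val, MR.en2_val, MR.eb2_val, NumU.E.val, NumI.E.val, NumI.lkR] at hp
    push_cast at hp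
    try simp only [div_one] at hp
    exfalso
    linarith only [c2, hp]
  · simp only [MR.e2_val, MR.en2_val, MR.eb2_val, NumU.E.val, NumI.E.val, NumI.lkR] at hp
    push_cast at hp
    try simp only [div_one] at hp
    exfalso
    linarith only [c3, hp]
  · simp only [MR.e2_val, MR.en2_val, MR.eb2_val, NumU.E.val, NumI.E.val, NumI.lkR] at hp
    push_cast at hp
    try simp only [div_one] at hp
    exfalso
    linarith only [c4, hp]

/-- 1 boxes -/
theorem s27icn {x T s k : ℝ} (a0 : 3300 / 10000 ≤ x) (b0 : x ≤ 3600 / 10000) (a1 : -50 / 10000 ≤ T) (b1 : T ≤ 570 / 10000)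
    (a2 : 5800 / 10000 ≤ s) (b2 : s ≤ 6000 / 10000) (a3 : -985 / 10000 ≤ k) (b3 : k ≤ 960 / 10000)
    (c0 : (x + s) - (106 / 100) ≤ 0) (c1 : (94 / 100) - (x + s) ≤ 0) (c2 : k - ((11 / 1000) +
    ((320 / 1000) * ((63 / 100) - s))) ≤ 0) (c3 : (-k) - ((340 / 1000) * ((80 / 100) - s)) ≤ 0)
    (c4 : -T ≤ 0) :
    0 < (((-20 / 1000) - ((300 / 100) * (x - (330 / 1000)))) - ((MR.n2 0 (-1) ((-100 / 27) * T)
      x (T * ((100 / 27) * ((6 / 10) - x))) s k) + (((-100 / 27) * T) * ((1 / 2) * Real.pi)))) := by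
  have h : chkT [(emb (.sub (.sub (.q (-20) 1000) (.mul (.q 300 100) (.sub (.var 0) (.q 330 1000)))) (.add
      (MR.en2 (.q 0 1) (.q (-1) 1) (.mul (.q (-100) 27) (.var 1)) (.var 0) (.mul (.var 1) (.mul
      (.q 100 27) (.sub (.q 6 10) (.var 0)))) (.var 2) (.var 3)) (.mul (.mul (.q (-100) 27) (.var
      1)) (.mul (.q 1 2) .pi))))), (emb (.sub (.add (.var 0) (.var 2)) (.q 106 100))), (emb (.sub
      (.q 94 100) (.add (.var 0) (.var 2)))), (emb (.sub (.var 3) (.add (.q 11 1000) (.mul (.q 320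
      1000) (.sub (.q 63 100) (.var 2)))))), (emb (.sub (.neg (.var 3)) (.mul (.q 340 1000) (.sub
      (.q 80 100) (.var 2))))), (emb (.neg (.var 1)))] 22
      8
      [V.of 10000 3300 3600 0, V.of 10000 (-50) 570 0, V.of 10000 5800 6000 0, V.of 10000 (-985)
        960 0] = true := by
    decide +kernel
  obtain ⟨f, hf, hp⟩ := chkT4 h (by norm_num) (x := x) (y := T) (z := s) (w := k)
    (le_trans (by norm_num) a0) (le_trans b0 (by norm_num))
    (le_trans (by norm_num) a1) (le_trans b1 (by norm_num))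
    (le_trans (by norm_num) a2) (le_trans b2 (by norm_num))
    (le_trans (by norm_num) a3) (le_trans b3 (by norm_num))
  simp only [List.mem_cons, List.not_mem_nil, or_false] at hf
  rcases hf with rfl | rfl | rfl | rfl | rfl | rfl
  · simp only [MR.e2_val, MR.en2_val, MR.eb2_val, NumU.E.val, NumI.E.val, NumI.lkR] at hp
    push_cast at hp
    try simp only [div_one] at hp
    linarith only [hp]
  · simp only [MR.e2_val, MR.en2_val, MR.eb2_val, NumU.E.val, NumI.E.val, NumI.lkR] at hp
    push_cast at hp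
    try simp only [div_one] at hp
    exfalso
    linarith only [b0, b2, hp]
  · simp only [MR.e2_val, MR.en2_val, MR.eb2_val, NumU.E.val, NumI.E.val, NumI.lkR] at hp
    push_cast at hp
    try simp only [div_one] at hp
    exfalso
    linarith only [c1, hp]
  · simp only [MR.e2_val, MR.en2_val, MR.eb2_val, NumU.E.val, NumI.E.val, NumI.lkR] at hp
    push_cast at hp
    try simp only [div_one] at hp
    exfalso
    linarith only [c2, hp]
  · simp only [MR.e2_val, MR.en2_val, MR.eb2_val, NumU.E.val, NumI.E.val, NumI.lkR] at hp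
    push_cast at hp
    try simp only [div_one] at hp
    exfalso
    linarith only [c3, hp]
  · simp only [MR.e2_val, MR.en2_val, MR.eb2_val, NumU.E.val, NumI.E.val, NumI.lkR] at hp
    push_cast at hp
    try simp only [div_one] at hp
    exfalso
    linarith only [c4, hp]

/-- 13 boxes -/
theorem s27ha {x T s k : ℝ} (a0 : 3600 / 10000 ≤ x) (b0 : x ≤ 3700 / 10000) (a1 : -50 / 10000 ≤ T) (b1 : T ≤ 570 / 10000)
    (a2 : 700 / 10000 ≤ s) (b2 : s ≤ 1250 / 10000) (a3 : -1075 / 10000 ≤ k) (b3 : k ≤ 960 / 10000)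
    :
    0 < ((-13 / 100) - ((MR.s2 ((-100 / 27) * T) x (T * ((100 / 27) * ((6 / 10) - x))) s ((8 *
      k) * s)) + (((-100 / 27) * T) * ((1 / 2) * Real.pi)))) := by
  have h : chkT [(emb (.sub (.q (-13) 100) (.add (MR.e2 (.mul (.q (-100) 27) (.var 1)) (.var 0) (.mul (.var
      1) (.mul (.q 100 27) (.sub (.q 6 10) (.var 0)))) (.var 2) (.mul (.mul (.q 8 1) (.var 3))
      (.var 2))) (.mul (.mul (.q (-100) 27) (.var 1)) (.mul (.q 1 2) .pi)))))] 22
      674223030373429377114879263363
      [V.of 10000 3600 3700 0, V.of 10000 (-50) 570 0, V.of 10000 700 1250 0, V.of 10000 (-1075)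
        960 0] = true := by
    decide +kernel
  obtain ⟨f, hf, hp⟩ := chkT4 h (by norm_num) (x := x) (y := T) (z := s) (w := k)
    (le_trans (by norm_num) a0) (le_trans b0 (by norm_num))
    (le_trans (by norm_num) a1) (le_trans b1 (by norm_num))
    (le_trans (by norm_num) a2) (le_trans b2 (by norm_num))
    (le_trans (by norm_num) a3) (le_trans b3 (by norm_num))
  simp only [List.mem_cons, List.not_mem_nil, or_false] at hf
  subst hf
  simp only [MR.e2_val, MR.en2_val, MR.eb2_val, NumU.E.val, NumI.E.val, NumI.lkR] at hp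
  push_cast at hp
  try simp only [div_one] at hp
  linarith only [hp]

/-- 41 boxes -/
theorem s27hb {x T s k : ℝ} (a0 : 3600 / 10000 ≤ x) (b0 : x ≤ 3700 / 10000) (a1 : -50 / 10000 ≤ T) (b1 : T ≤ 570 / 10000)
    (a2 : 1250 / 10000 ≤ s) (b2 : s ≤ 5800 / 10000) (a3 : -985 / 10000 ≤ k) (b3 : k ≤ 960 / 10000)
    (c0 : (x + s) - (94 / 100) ≤ 0) :
    0 < ((-13 / 100) - ((MR.s2 ((-100 / 27) * T) x (T * ((100 / 27) * ((6 / 10) - x))) s k) +
      (((-100 / 27) * T) * ((1 / 2) * Real.pi)))) := by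
  have h : chkT [(emb (.sub (.q (-13) 100) (.add (MR.e2 (.mul (.q (-100) 27) (.var 1)) (.var 0) (.mul (.var
      1) (.mul (.q 100 27) (.sub (.q 6 10) (.var 0)))) (.var 2) (.var 3)) (.mul (.mul (.q (-100)
      27) (.var 1)) (.mul (.q 1 2) .pi))))), (emb (.sub (.add (.var 0) (.var 2)) (.q 94 100)))] 22
      18168668581635092149988521609972221919994854737485326599076569433627694193110681613644161349813026
      [V.of 10000 3600 3700 0, V.of 10000 (-50) 570 0, V.of 10000 1250 5800 0, V.of 10000 (-985)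
        960 0] = true := by
    decide +kernel
  obtain ⟨f, hf, hp⟩ := chkT4 h (by norm_num) (x := x) (y := T) (z := s) (w := k)
    (le_trans (by norm_num) a0) (le_trans b0 (by norm_num))
    (le_trans (by norm_num) a1) (le_trans b1 (by norm_num))
    (le_trans (by norm_num) a2) (le_trans b2 (by norm_num))
    (le_trans (by norm_num) a3) (le_trans b3 (by norm_num))
  simp only [List.mem_cons, List.not_mem_nil, or_false] at hf
  rcases hf with rfl | rfl
  · simp only [MR.e2_val, MR.en2_val, MR.eb2_val, NumU.E.val, NumI.E.val, NumI.lkR] at hp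
    push_cast at hp
    try simp only [div_one] at hp
    linarith only [hp]
  · simp only [MR.e2_val, MR.en2_val, MR.eb2_val, NumU.E.val, NumI.E.val, NumI.lkR] at hp
    push_cast at hp
    try simp only [div_one] at hp
    exfalso
    linarith only [c0, hp]

/-- 1 boxes -/
theorem s27hcp {x T s k : ℝ} (a0 : 3600 / 10000 ≤ x) (b0 : x ≤ 3700 / 10000) (a1 : -50 / 10000 ≤ T) (b1 : T ≤ 570 / 10000)
    (a2 : 5700 / 10000 ≤ s) (b2 : s ≤ 6000 / 10000) (a3 : -985 / 10000 ≤ k) (b3 : k ≤ 960 / 10000)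
    (c0 : (x + s) - (106 / 100) ≤ 0) (c1 : (94 / 100) - (x + s) ≤ 0) (c2 : k - ((11 / 1000) +
    ((320 / 1000) * ((63 / 100) - s))) ≤ 0) (c3 : (-k) - ((340 / 1000) * ((80 / 100) - s)) ≤ 0)
    (c4 : T ≤ 0) :
    0 < ((-13 / 100) - ((MR.n2 0 1 ((-100 / 27) * T) x (T * ((100 / 27) * ((6 / 10) - x))) s k)
      + (((-100 / 27) * T) * ((1 / 2) * Real.pi)))) := by
  have h : chkT [(emb (.sub (.q (-13) 100) (.add (MR.en2 (.q 0 1) (.q 1 1) (.mul (.q (-100) 27) (.var 1))
      (.var 0) (.mul (.var 1) (.mul (.q 100 27) (.sub (.q 6 10) (.var 0)))) (.var 2) (.var 3))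
      (.mul (.mul (.q (-100) 27) (.var 1)) (.mul (.q 1 2) .pi))))), (emb (.sub (.add (.var 0)
      (.var 2)) (.q 106 100))), (emb (.sub (.q 94 100) (.add (.var 0) (.var 2)))), (emb (.sub
      (.var 3) (.add (.q 11 1000) (.mul (.q 320 1000) (.sub (.q 63 100) (.var 2)))))), (emb (.sub
      (.neg (.var 3)) (.mul (.q 340 1000) (.sub (.q 80 100) (.var 2))))), (emb (.var 1))] 22
      8
      [V.of 10000 3600 3700 0, V.of 10000 (-50) 570 0, V.of 10000 5700 6000 0, V.of 10000 (-985)
        960 0] = true := by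
    decide +kernel
  obtain ⟨f, hf, hp⟩ := chkT4 h (by norm_num) (x := x) (y := T) (z := s) (w := k)
    (le_trans (by norm_num) a0) (le_trans b0 (by norm_num))
    (le_trans (by norm_num) a1) (le_trans b1 (by norm_num))
    (le_trans (by norm_num) a2) (le_trans b2 (by norm_num))
    (le_trans (by norm_num) a3) (le_trans b3 (by norm_num))
  simp only [List.mem_cons, List.not_mem_nil, or_false] at hf
  rcases hf with rfl | rfl | rfl | rfl | rfl | rfl
  · simp only [MR.e2_val, MR.en2_val, MR.eb2_val, NumU.E.val, NumI.E.val, NumI.lkR] at hp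
    push_cast at hp
    try simp only [div_one] at hp
    linarith only [hp]
  · simp only [MR.e2_val, MR.en2_val, MR.eb2_val, NumU.E.val, NumI.E.val, NumI.lkR] at hp
    push_cast at hp
    try simp only [div_one] at hp
    exfalso
    linarith only [b0, b2, hp]
  · simp only [MR.e2_val, MR.en2_val, MR.eb2_val, NumU.E.val, NumI.E.val, NumI.lkR] at hp
    push_cast at hp
    try simp only [div_one] at hp
    exfalso
    linarith only [c1, hp]
  · simp only [MR.e2_val, MR.en2_val, MR.eb2_val, NumU.E.val, NumI.E.val, NumI.lkR] at hp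
    push_cast at hp
    try simp only [div_one] at hp
    exfalso
    linarith only [c2, hp]
  · simp only [MR.e2_val, MR.en2_val, MR.eb2_val, NumU.E.val, NumI.E.val, NumI.lkR] at hp
    push_cast at hp
    try simp only [div_one] at hp
    exfalso
    linarith only [c3, hp]
  · simp only [MR.e2_val, MR.en2_val, MR.eb2_val, NumU.E.val, NumI.E.val, NumI.lkR] at hp
    push_cast at hp
    try simp only [div_one] at hp
    exfalso
    linarith only [c4, hp]

/-- 1 boxes -/
theorem s27hcn {x T s k : ℝ} (a0 : 3600 / 10000 ≤ x) (b0 : x ≤ 3700 / 10000) (a1 : -50 / 10000 ≤ T) (b1 : T ≤ 570 / 10000)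
    (a2 : 5700 / 10000 ≤ s) (b2 : s ≤ 6000 / 10000) (a3 : -985 / 10000 ≤ k) (b3 : k ≤ 960 / 10000)
    (c0 : (x + s) - (106 / 100) ≤ 0) (c1 : (94 / 100) - (x + s) ≤ 0) (c2 : k - ((11 / 1000) +
    ((320 / 1000) * ((63 / 100) - s))) ≤ 0) (c3 : (-k) - ((340 / 1000) * ((80 / 100) - s)) ≤ 0)
    (c4 : -T ≤ 0) :
    0 < ((-13 / 100) - ((MR.n2 0 (-1) ((-100 / 27) * T) x (T * ((100 / 27) * ((6 / 10) - x))) s
      k) + (((-100 / 27) * T) * ((1 / 2) * Real.pi)))) := by
  have h : chkT [(emb (.sub (.q (-13) 100) (.add (MR.en2 (.q 0 1) (.q (-1) 1) (.mul (.q (-100) 27) (.var 1))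
      (.var 0) (.mul (.var 1) (.mul (.q 100 27) (.sub (.q 6 10) (.var 0)))) (.var 2) (.var 3))
      (.mul (.mul (.q (-100) 27) (.var 1)) (.mul (.q 1 2) .pi))))), (emb (.sub (.add (.var 0)
      (.var 2)) (.q 106 100))), (emb (.sub (.q 94 100) (.add (.var 0) (.var 2)))), (emb (.sub
      (.var 3) (.add (.q 11 1000) (.mul (.q 320 1000) (.sub (.q 63 100) (.var 2)))))), (emb (.sub
      (.neg (.var 3)) (.mul (.q 340 1000) (.sub (.q 80 100) (.var 2))))), (emb (.neg (.var 1)))] 22
      8
      [V.of 10000 3600 3700 0, V.of 10000 (-50) 570 0, V.of 10000 5700 6000 0, V.of 10000 (-985)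
        960 0] = true := by
    decide +kernel
  obtain ⟨f, hf, hp⟩ := chkT4 h (by norm_num) (x := x) (y := T) (z := s) (w := k)
    (le_trans (by norm_num) a0) (le_trans b0 (by norm_num))
    (le_trans (by norm_num) a1) (le_trans b1 (by norm_num))
    (le_trans (by norm_num) a2) (le_trans b2 (by norm_num))
    (le_trans (by norm_num) a3) (le_trans b3 (by norm_num))
  simp only [List.mem_cons, List.not_mem_nil, or_false] at hf
  rcases hf with rfl | rfl | rfl | rfl | rfl | rfl
  · simp only [MR.e2_val, MR.en2_val, MR.eb2_val, NumU.E.val, NumI.E.val, NumI.lkR] at hp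
    push_cast at hp
    try simp only [div_one] at hp
    linarith only [hp]
  · simp only [MR.e2_val, MR.en2_val, MR.eb2_val, NumU.E.val, NumI.E.val, NumI.lkR] at hp
    push_cast at hp
    try simp only [div_one] at hp
    exfalso
    linarith only [b0, b2, hp]
  · simp only [MR.e2_val, MR.en2_val, MR.eb2_val, NumU.E.val, NumI.E.val, NumI.lkR] at hp
    push_cast at hp
    try simp only [div_one] at hp
    exfalso
    linarith only [c1, hp]
  · simp only [MR.e2_val, MR.en2_val, MR.eb2_val, NumU.E.val, NumI.E.val, NumI.lkR] at hp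
    push_cast at hp
    try simp only [div_one] at hp
    exfalso
    linarith only [c2, hp]
  · simp only [MR.e2_val, MR.en2_val, MR.eb2_val, NumU.E.val, NumI.E.val, NumI.lkR] at hp
    push_cast at hp
    try simp only [div_one] at hp
    exfalso
    linarith only [c3, hp]
  · simp only [MR.e2_val, MR.en2_val, MR.eb2_val, NumU.E.val, NumI.E.val, NumI.lkR] at hp
    push_cast at hp
    try simp only [div_one] at hp
    exfalso
    linarith only [c4, hp]

/-- 16 boxes -/
theorem s27ja {x T s k : ℝ} (a0 : 3700 / 10000 ≤ x) (b0 : x ≤ 5000 / 10000) (a1 : -50 / 10000 ≤ T) (b1 : T ≤ 570 / 10000)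
    (a2 : 700 / 10000 ≤ s) (b2 : s ≤ 1250 / 10000) (a3 : -1075 / 10000 ≤ k) (b3 : k ≤ 960 / 10000)
    :
    0 < ((-14 / 100) - ((MR.s2 ((-100 / 27) * T) x (T * ((100 / 27) * ((6 / 10) - x))) s ((8 *
      k) * s)) + (((-100 / 27) * T) * ((1 / 2) * Real.pi)))) := by
  have h : chkT [(emb (.sub (.q (-14) 100) (.add (MR.e2 (.mul (.q (-100) 27) (.var 1)) (.var 0) (.mul (.var
      1) (.mul (.q 100 27) (.sub (.q 6 10) (.var 0)))) (.var 2) (.mul (.mul (.q 8 1) (.var 3))
      (.var 2))) (.mul (.mul (.q (-100) 27) (.var 1)) (.mul (.q 1 2) .pi)))))] 22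
      11301064816038379569026782344327477296
      [V.of 10000 3700 5000 0, V.of 10000 (-50) 570 0, V.of 10000 700 1250 0, V.of 10000 (-1075)
        960 0] = true := by
    decide +kernel
  obtain ⟨f, hf, hp⟩ := chkT4 h (by norm_num) (x := x) (y := T) (z := s) (w := k)
    (le_trans (by norm_num) a0) (le_trans b0 (by norm_num))
    (le_trans (by norm_num) a1) (le_trans b1 (by norm_num))
    (le_trans (by norm_num) a2) (le_trans b2 (by norm_num))
    (le_trans (by norm_num) a3) (le_trans b3 (by norm_num))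
  simp only [List.mem_cons, List.not_mem_nil, or_false] at hf
  subst hf
  simp only [MR.e2_val, MR.en2_val, MR.eb2_val, NumU.E.val, NumI.E.val, NumI.lkR] at hp
  push_cast at hp
  try simp only [div_one] at hp
  linarith only [hp]

/-- 148 boxes -/
theorem s27jb {x T s k : ℝ} (a0 : 3700 / 10000 ≤ x) (b0 : x ≤ 5000 / 10000) (a1 : -50 / 10000 ≤ T) (b1 : T ≤ 570 / 10000)
    (a2 : 1250 / 10000 ≤ s) (b2 : s ≤ 5700 / 10000) (a3 : -985 / 10000 ≤ k) (b3 : k ≤ 960 / 10000)
    (c0 : (x + s) - (94 / 100) ≤ 0) :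
    0 < ((-14 / 100) - ((MR.s2 ((-100 / 27) * T) x (T * ((100 / 27) * ((6 / 10) - x))) s k) +
      (((-100 / 27) * T) * ((1 / 2) * Real.pi)))) := by
  have h : chkT [(emb (.sub (.q (-14) 100) (.add (MR.e2 (.mul (.q (-100) 27) (.var 1)) (.var 0) (.mul (.var
      1) (.mul (.q 100 27) (.sub (.q 6 10) (.var 0)))) (.var 2) (.var 3)) (.mul (.mul (.q (-100)
      27) (.var 1)) (.mul (.q 1 2) .pi))))), (emb (.sub (.add (.var 0) (.var 2)) (.q 94 100)))] 22
      9852475940148154475406171615321525274516278915966131781135016126223415072761391093619941559862080465246582296238862569516977442349333860502231052276973778239947269731050970306222979180261423381397311067828619084346669918134120062974810102049793896898339243002189948131744794268030784423459373524809623497837768574492549989138867578762864958618967342592034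
      [V.of 10000 3700 5000 0, V.of 10000 (-50) 570 0, V.of 10000 1250 5700 0, V.of 10000 (-985)
        960 0] = true := by
    decide +kernel
  obtain ⟨f, hf, hp⟩ := chkT4 h (by norm_num) (x := x) (y := T) (z := s) (w := k)
    (le_trans (by norm_num) a0) (le_trans b0 (by norm_num))
    (le_trans (by norm_num) a1) (le_trans b1 (by norm_num))
    (le_trans (by norm_num) a2) (le_trans b2 (by norm_num))
    (le_trans (by norm_num) a3) (le_trans b3 (by norm_num))
  simp only [List.mem_cons, List.not_mem_nil, or_false] at hf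
  rcases hf with rfl | rfl
  · simp only [MR.e2_val, MR.en2_val, MR.eb2_val, NumU.E.val, NumI.E.val, NumI.lkR] at hp
    push_cast at hp
    try simp only [div_one] at hp
    linarith only [hp]
  · simp only [MR.e2_val, MR.en2_val, MR.eb2_val, NumU.E.val, NumI.E.val, NumI.lkR] at hp
    push_cast at hp
    try simp only [div_one] at hp
    exfalso
    linarith only [c0, hp]

/-- 1 boxes -/
theorem s27jcp {x T s k : ℝ} (a0 : 3700 / 10000 ≤ x) (b0 : x ≤ 5000 / 10000) (a1 : -50 / 10000 ≤ T) (b1 : T ≤ 570 / 10000)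
    (a2 : 4400 / 10000 ≤ s) (b2 : s ≤ 6000 / 10000) (a3 : -985 / 10000 ≤ k) (b3 : k ≤ 960 / 10000)
    (c0 : (x + s) - (106 / 100) ≤ 0) (c1 : (94 / 100) - (x + s) ≤ 0) (c2 : k - ((11 / 1000) +
    ((320 / 1000) * ((63 / 100) - s))) ≤ 0) (c3 : (-k) - ((340 / 1000) * ((80 / 100) - s)) ≤ 0)
    (c4 : T ≤ 0) :
    0 < ((-14 / 100) - ((MR.n2 0 1 ((-100 / 27) * T) x (T * ((100 / 27) * ((6 / 10) - x))) s k)
      + (((-100 / 27) * T) * ((1 / 2) * Real.pi)))) := by
  have h : chkT [(emb (.sub (.q (-14) 100) (.add (MR.en2 (.q 0 1) (.q 1 1) (.mul (.q (-100) 27) (.var 1))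
      (.var 0) (.mul (.var 1) (.mul (.q 100 27) (.sub (.q 6 10) (.var 0)))) (.var 2) (.var 3))
      (.mul (.mul (.q (-100) 27) (.var 1)) (.mul (.q 1 2) .pi))))), (emb (.sub (.add (.var 0)
      (.var 2)) (.q 106 100))), (emb (.sub (.q 94 100) (.add (.var 0) (.var 2)))), (emb (.sub
      (.var 3) (.add (.q 11 1000) (.mul (.q 320 1000) (.sub (.q 63 100) (.var 2)))))), (emb (.sub
      (.neg (.var 3)) (.mul (.q 340 1000) (.sub (.q 80 100) (.var 2))))), (emb (.var 1))] 22
      8
      [V.of 10000 3700 5000 0, V.of 10000 (-50) 570 0, V.of 10000 4400 6000 0, V.of 10000 (-985)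
        960 0] = true := by
    decide +kernel
  obtain ⟨f, hf, hp⟩ := chkT4 h (by norm_num) (x := x) (y := T) (z := s) (w := k)
    (le_trans (by norm_num) a0) (le_trans b0 (by norm_num))
    (le_trans (by norm_num) a1) (le_trans b1 (by norm_num))
    (le_trans (by norm_num) a2) (le_trans b2 (by norm_num))
    (le_trans (by norm_num) a3) (le_trans b3 (by norm_num))
  simp only [List.mem_cons, List.not_mem_nil, or_false] at hf
  rcases hf with rfl | rfl | rfl | rfl | rfl | rfl
  · simp only [MR.e2_val, MR.en2_val, MR.eb2_val, NumU.E.val, NumI.E.val, NumI.lkR] at hp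
    push_cast at hp
    try simp only [div_one] at hp
    linarith only [hp]
  · simp only [MR.e2_val, MR.en2_val, MR.eb2_val, NumU.E.val, NumI.E.val, NumI.lkR] at hp
    push_cast at hp
    try simp only [div_one] at hp
    exfalso
    linarith only [c0, hp]
  · simp only [MR.e2_val, MR.en2_val, MR.eb2_val, NumU.E.val, NumI.E.val, NumI.lkR] at hp
    push_cast at hp
    try simp only [div_one] at hp
    exfalso
    linarith only [c1, hp]
  · simp only [MR.e2_val, MR.en2_val, MR.eb2_val, NumU.E.val, NumI.E.val, NumI.lkR] at hp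
    push_cast at hp
    try simp only [div_one] at hp
    exfalso
    linarith only [c2, hp]
  · simp only [MR.e2_val, MR.en2_val, MR.eb2_val, NumU.E.val, NumI.E.val, NumI.lkR] at hp
    push_cast at hp
    try simp only [div_one] at hp
    exfalso
    linarith only [c3, hp]
  · simp only [MR.e2_val, MR.en2_val, MR.eb2_val, NumU.E.val, NumI.E.val, NumI.lkR] at hp
    push_cast at hp
    try simp only [div_one] at hp
    exfalso
    linarith only [c4, hp]

/-- 1 boxes -/
theorem s27jcn {x T s k : ℝ} (a0 : 3700 / 10000 ≤ x) (b0 : x ≤ 5000 / 10000) (a1 : -50 / 10000 ≤ T) (b1 : T ≤ 570 / 10000)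
    (a2 : 4400 / 10000 ≤ s) (b2 : s ≤ 6000 / 10000) (a3 : -985 / 10000 ≤ k) (b3 : k ≤ 960 / 10000)
    (c0 : (x + s) - (106 / 100) ≤ 0) (c1 : (94 / 100) - (x + s) ≤ 0) (c2 : k - ((11 / 1000) +
    ((320 / 1000) * ((63 / 100) - s))) ≤ 0) (c3 : (-k) - ((340 / 1000) * ((80 / 100) - s)) ≤ 0)
    (c4 : -T ≤ 0) :
    0 < ((-14 / 100) - ((MR.n2 0 (-1) ((-100 / 27) * T) x (T * ((100 / 27) * ((6 / 10) - x))) s
      k) + (((-100 / 27) * T) * ((1 / 2) * Real.pi)))) := by
  have h : chkT [(emb (.sub (.q (-14) 100) (.add (MR.en2 (.q 0 1) (.q (-1) 1) (.mul (.q (-100) 27) (.var 1))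
      (.var 0) (.mul (.var 1) (.mul (.q 100 27) (.sub (.q 6 10) (.var 0)))) (.var 2) (.var 3))
      (.mul (.mul (.q (-100) 27) (.var 1)) (.mul (.q 1 2) .pi))))), (emb (.sub (.add (.var 0)
      (.var 2)) (.q 106 100))), (emb (.sub (.q 94 100) (.add (.var 0) (.var 2)))), (emb (.sub
      (.var 3) (.add (.q 11 1000) (.mul (.q 320 1000) (.sub (.q 63 100) (.var 2)))))), (emb (.sub
      (.neg (.var 3)) (.mul (.q 340 1000) (.sub (.q 80 100) (.var 2))))), (emb (.neg (.var 1)))] 22
      8
      [V.of 10000 3700 5000 0, V.of 10000 (-50) 570 0, V.of 10000 4400 6000 0, V.of 10000 (-985)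
        960 0] = true := by
    decide +kernel
  obtain ⟨f, hf, hp⟩ := chkT4 h (by norm_num) (x := x) (y := T) (z := s) (w := k)
    (le_trans (by norm_num) a0) (le_trans b0 (by norm_num))
    (le_trans (by norm_num) a1) (le_trans b1 (by norm_num))
    (le_trans (by norm_num) a2) (le_trans b2 (by norm_num))
    (le_trans (by norm_num) a3) (le_trans b3 (by norm_num))
  simp only [List.mem_cons, List.not_mem_nil, or_false] at hf
  rcases hf with rfl | rfl | rfl | rfl | rfl | rfl
  · simp only [MR.e2_val, MR.en2_val, MR.eb2_val, NumU.E.val, NumI.E.val, NumI.lkR] at hp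
    push_cast at hp
    try simp only [div_one] at hp
    linarith only [hp]
  · simp only [MR.e2_val, MR.en2_val, MR.eb2_val, NumU.E.val, NumI.E.val, NumI.lkR] at hp
    push_cast at hp
    try simp only [div_one] at hp
    exfalso
    linarith only [c0, hp]
  · simp only [MR.e2_val, MR.en2_val, MR.eb2_val, NumU.E.val, NumI.E.val, NumI.lkR] at hp
    push_cast at hp
    try simp only [div_one] at hp
    exfalso
    linarith only [c1, hp]
  · simp only [MR.e2_val, MR.en2_val, MR.eb2_val, NumU.E.val, NumI.E.val, NumI.lkR] at hp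
    push_cast at hp
    try simp only [div_one] at hp
    exfalso
    linarith only [c2, hp]
  · simp only [MR.e2_val, MR.en2_val, MR.eb2_val, NumU.E.val, NumI.E.val, NumI.lkR] at hp
    push_cast at hp
    try simp only [div_one] at hp
    exfalso
    linarith only [c3, hp]
  · simp only [MR.e2_val, MR.en2_val, MR.eb2_val, NumU.E.val, NumI.E.val, NumI.lkR] at hp
    push_cast at hp
    try simp only [div_one] at hp
    exfalso
    linarith only [c4, hp]

/-- 18 boxes -/
theorem s27jdp {x T s k : ℝ} (a0 : 3700 / 10000 ≤ x) (b0 : x ≤ 5000 / 10000) (a1 : -50 / 10000 ≤ T) (b1 : T ≤ 570 / 10000)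
    (a2 : 5600 / 10000 ≤ s) (b2 : s ≤ 6000 / 10000) (a3 : -985 / 10000 ≤ k) (b3 : k ≤ 960 / 10000)
    (c0 : (106 / 100) - (x + s) ≤ 0) (c1 : k - ((11 / 1000) + ((320 / 1000) * ((63 / 100) - s))) ≤
    0) (c2 : (-k) - ((340 / 1000) * ((80 / 100) - s)) ≤ 0) (c3 : T ≤ 0) :
    0 < ((-14 / 100) - ((MR.b2 1 ((-100 / 27) * T) x (T * ((100 / 27) * ((6 / 10) - x))) s k) +
      (((-100 / 27) * T) * ((1 / 2) * Real.pi)))) := by
  have h : chkT [(emb (.sub (.q (-14) 100) (.add (MR.eb2 (.q 1 1) (.mul (.q (-100) 27) (.var 1)) (.var 0)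
      (.mul (.var 1) (.mul (.q 100 27) (.sub (.q 6 10) (.var 0)))) (.var 2) (.var 3)) (.mul (.mul
      (.q (-100) 27) (.var 1)) (.mul (.q 1 2) .pi))))), (emb (.sub (.q 106 100) (.add (.var 0)
      (.var 2)))), (emb (.sub (.var 3) (.add (.q 11 1000) (.mul (.q 320 1000) (.sub (.q 63 100)
      (.var 2)))))), (emb (.sub (.neg (.var 3)) (.mul (.q 340 1000) (.sub (.q 80 100) (.var
      2))))), (emb (.var 1))] 22
      1114946516211393323911969124423740969521552
      [V.of 10000 3700 5000 0, V.of 10000 (-50) 570 0, V.of 10000 5600 6000 0, V.of 10000 (-985)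
        960 0] = true := by
    decide +kernel
  obtain ⟨f, hf, hp⟩ := chkT4 h (by norm_num) (x := x) (y := T) (z := s) (w := k)
    (le_trans (by norm_num) a0) (le_trans b0 (by norm_num))
    (le_trans (by norm_num) a1) (le_trans b1 (by norm_num))
    (le_trans (by norm_num) a2) (le_trans b2 (by norm_num))
    (le_trans (by norm_num) a3) (le_trans b3 (by norm_num))
  simp only [List.mem_cons, List.not_mem_nil, or_false] at hf
  rcases hf with rfl | rfl | rfl | rfl | rfl
  · simp only [MR.e2_val, MR.en2_val, MR.eb2_val, NumU.E.val, NumI.E.val, NumI.lkR] at hp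
    push_cast at hp
    try simp only [div_one] at hp
    linarith only [hp]
  · simp only [MR.e2_val, MR.en2_val, MR.eb2_val, NumU.E.val, NumI.E.val, NumI.lkR] at hp
    push_cast at hp
    try simp only [div_one] at hp
    exfalso
    linarith only [c0, hp]
  · simp only [MR.e2_val, MR.en2_val, MR.eb2_val, NumU.E.val, NumI.E.val, NumI.lkR] at hp
    push_cast at hp
    try simp only [div_one] at hp
    exfalso
    linarith only [c1, hp]
  · simp only [MR.e2_val, MR.en2_val, MR.eb2_val, NumU.E.val, NumI.E.val, NumI.lkR] at hp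
    push_cast at hp
    try simp only [div_one] at hp
    exfalso
    linarith only [c2, hp]
  · simp only [MR.e2_val, MR.en2_val, MR.eb2_val, NumU.E.val, NumI.E.val, NumI.lkR] at hp
    push_cast at hp
    try simp only [div_one] at hp
    exfalso
    linarith only [c3, hp]

/-- 25 boxes -/
theorem s27jdn {x T s k : ℝ} (a0 : 3700 / 10000 ≤ x) (b0 : x ≤ 5000 / 10000) (a1 : -50 / 10000 ≤ T) (b1 : T ≤ 570 / 10000)
    (a2 : 5600 / 10000 ≤ s) (b2 : s ≤ 6000 / 10000) (a3 : -985 / 10000 ≤ k) (b3 : k ≤ 960 / 10000)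
    (c0 : (106 / 100) - (x + s) ≤ 0) (c1 : k - ((11 / 1000) + ((320 / 1000) * ((63 / 100) - s))) ≤
    0) (c2 : (-k) - ((340 / 1000) * ((80 / 100) - s)) ≤ 0) (c3 : -T ≤ 0) :
    0 < ((-14 / 100) - ((MR.b2 (-1) ((-100 / 27) * T) x (T * ((100 / 27) * ((6 / 10) - x))) s k)
      + (((-100 / 27) * T) * ((1 / 2) * Real.pi)))) := by
  have h : chkT [(emb (.sub (.q (-14) 100) (.add (MR.eb2 (.q (-1) 1) (.mul (.q (-100) 27) (.var 1)) (.var 0)
      (.mul (.var 1) (.mul (.q 100 27) (.sub (.q 6 10) (.var 0)))) (.var 2) (.var 3)) (.mul (.mul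
      (.q (-100) 27) (.var 1)) (.mul (.q 1 2) .pi))))), (emb (.sub (.q 106 100) (.add (.var 0)
      (.var 2)))), (emb (.sub (.var 3) (.add (.q 11 1000) (.mul (.q 320 1000) (.sub (.q 63 100)
      (.var 2)))))), (emb (.sub (.neg (.var 3)) (.mul (.q 340 1000) (.sub (.q 80 100) (.var
      2))))), (emb (.neg (.var 1)))] 22
      66111139848721747786291181597317333867954559086868466049168
      [V.of 10000 3700 5000 0, V.of 10000 (-50) 570 0, V.of 10000 5600 6000 0, V.of 10000 (-985)
        960 0] = true := by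
    decide +kernel
  obtain ⟨f, hf, hp⟩ := chkT4 h (by norm_num) (x := x) (y := T) (z := s) (w := k)
    (le_trans (by norm_num) a0) (le_trans b0 (by norm_num))
    (le_trans (by norm_num) a1) (le_trans b1 (by norm_num))
    (le_trans (by norm_num) a2) (le_trans b2 (by norm_num))
    (le_trans (by norm_num) a3) (le_trans b3 (by norm_num))
  simp only [List.mem_cons, List.not_mem_nil, or_false] at hf
  rcases hf with rfl | rfl | rfl | rfl | rfl
  · simp only [MR.e2_val, MR.en2_val, MR.eb2_val, NumU.E.val, NumI.E.val, NumI.lkR] at hp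
    push_cast at hp
    try simp only [div_one] at hp
    linarith only [hp]
  · simp only [MR.e2_val, MR.en2_val, MR.eb2_val, NumU.E.val, NumI.E.val, NumI.lkR] at hp
    push_cast at hp
    try simp only [div_one] at hp
    exfalso
    linarith only [c0, hp]
  · simp only [MR.e2_val, MR.en2_val, MR.eb2_val, NumU.E.val, NumI.E.val, NumI.lkR] at hp
    push_cast at hp
    try simp only [div_one] at hp
    exfalso
    linarith only [c1, hp]
  · simp only [MR.e2_val, MR.en2_val, MR.eb2_val, NumU.E.val, NumI.E.val, NumI.lkR] at hp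
    push_cast at hp
    try simp only [div_one] at hp
    exfalso
    linarith only [c2, hp]
  · simp only [MR.e2_val, MR.en2_val, MR.eb2_val, NumU.E.val, NumI.E.val, NumI.lkR] at hp
    push_cast at hp
    try simp only [div_one] at hp
    exfalso
    linarith only [c3, hp]

/-- 10 boxes -/
theorem s25ia {x T s k : ℝ} (a0 : 3300 / 10000 ≤ x) (b0 : x ≤ 3600 / 10000) (a1 : -50 / 10000 ≤ T) (b1 : T ≤ 570 / 10000)
    (a2 : 700 / 10000 ≤ s) (b2 : s ≤ 1250 / 10000) (a3 : -1075 / 10000 ≤ k) (b3 : k ≤ 960 / 10000)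
    :
    0 < (((-20 / 1000) - ((300 / 100) * (x - (330 / 1000)))) - ((MR.s2 ((-100 / 25) * T) x (T *
      ((100 / 25) * ((6 / 10) - x))) s ((8 * k) * s)) + (((-100 / 25) * T) * ((1 / 2) *
      Real.pi)))) := by
  have h : chkT [(emb (.sub (.sub (.q (-20) 1000) (.mul (.q 300 100) (.sub (.var 0) (.q 330 1000)))) (.add
      (MR.e2 (.mul (.q (-100) 25) (.var 1)) (.var 0) (.mul (.var 1) (.mul (.q 100 25) (.sub (.q 6
      10) (.var 0)))) (.var 2) (.mul (.mul (.q 8 1) (.var 3)) (.var 2))) (.mul (.mul (.q (-100)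
      25) (.var 1)) (.mul (.q 1 2) .pi)))))] 22
      40149915368430512538499
      [V.of 10000 3300 3600 0, V.of 10000 (-50) 570 0, V.of 10000 700 1250 0, V.of 10000 (-1075)
        960 0] = true := by
    decide +kernel
  obtain ⟨f, hf, hp⟩ := chkT4 h (by norm_num) (x := x) (y := T) (z := s) (w := k)
    (le_trans (by norm_num) a0) (le_trans b0 (by norm_num))
    (le_trans (by norm_num) a1) (le_trans b1 (by norm_num))
    (le_trans (by norm_num) a2) (le_trans b2 (by norm_num))
    (le_trans (by norm_num) a3) (le_trans b3 (by norm_num))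
  simp only [List.mem_cons, List.not_mem_nil, or_false] at hf
  subst hf
  simp only [MR.e2_val, MR.en2_val, MR.eb2_val, NumU.E.val, NumI.E.val, NumI.lkR] at hp
  push_cast at hp
  try simp only [div_one] at hp
  linarith only [hp]

/-- 59 boxes -/
theorem s25ib {x T s k : ℝ} (a0 : 3300 / 10000 ≤ x) (b0 : x ≤ 3600 / 10000) (a1 : -50 / 10000 ≤ T) (b1 : T ≤ 570 / 10000)
    (a2 : 1250 / 10000 ≤ s) (b2 : s ≤ 6000 / 10000) (a3 : -985 / 10000 ≤ k) (b3 : k ≤ 960 / 10000)
    (c0 : (x + s) - (94 / 100) ≤ 0) :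
    0 < (((-20 / 1000) - ((300 / 100) * (x - (330 / 1000)))) - ((MR.s2 ((-100 / 25) * T) x (T *
      ((100 / 25) * ((6 / 10) - x))) s k) + (((-100 / 25) * T) * ((1 / 2) * Real.pi)))) := by
  have h : chkT [(emb (.sub (.sub (.q (-20) 1000) (.mul (.q 300 100) (.sub (.var 0) (.q 330 1000)))) (.add
      (MR.e2 (.mul (.q (-100) 25) (.var 1)) (.var 0) (.mul (.var 1) (.mul (.q 100 25) (.sub (.q 6
      10) (.var 0)))) (.var 2) (.var 3)) (.mul (.mul (.q (-100) 25) (.var 1)) (.mul (.q 1 2)
      .pi))))), (emb (.sub (.add (.var 0) (.var 2)) (.q 94 100)))] 22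
      405174953630833518303961525183968687357681516584776779417007639921358170053895007015988589907805518433198157166875431181062328701827477111586
      [V.of 10000 3300 3600 0, V.of 10000 (-50) 570 0, V.of 10000 1250 6000 0, V.of 10000 (-985)
        960 0] = true := by
    decide +kernel
  obtain ⟨f, hf, hp⟩ := chkT4 h (by norm_num) (x := x) (y := T) (z := s) (w := k)
    (le_trans (by norm_num) a0) (le_trans b0 (by norm_num))
    (le_trans (by norm_num) a1) (le_trans b1 (by norm_num))
    (le_trans (by norm_num) a2) (le_trans b2 (by norm_num))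
    (le_trans (by norm_num) a3) (le_trans b3 (by norm_num))
  simp only [List.mem_cons, List.not_mem_nil, or_false] at hf
  rcases hf with rfl | rfl
  · simp only [MR.e2_val, MR.en2_val, MR.eb2_val, NumU.E.val, NumI.E.val, NumI.lkR] at hp
    push_cast at hp
    try simp only [div_one] at hp
    linarith only [hp]
  · simp only [MR.e2_val, MR.en2_val, MR.eb2_val, NumU.E.val, NumI.E.val, NumI.lkR] at hp
    push_cast at hp
    try simp only [div_one] at hp
    exfalso
    linarith only [c0, hp]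

/-- 1 boxes -/
theorem s25icp {x T s k : ℝ} (a0 : 3300 / 10000 ≤ x) (b0 : x ≤ 3600 / 10000) (a1 : -50 / 10000 ≤ T) (b1 : T ≤ 570 / 10000)
    (a2 : 5800 / 10000 ≤ s) (b2 : s ≤ 6000 / 10000) (a3 : -985 / 10000 ≤ k) (b3 : k ≤ 960 / 10000)
    (c0 : (x + s) - (106 / 100) ≤ 0) (c1 : (94 / 100) - (x + s) ≤ 0) (c2 : k - ((11 / 1000) +
    ((320 / 1000) * ((63 / 100) - s))) ≤ 0) (c3 : (-k) - ((340 / 1000) * ((80 / 100) - s)) ≤ 0)
    (c4 : T ≤ 0) :
    0 < (((-20 / 1000) - ((300 / 100) * (x - (330 / 1000)))) - ((MR.n2 0 1 ((-100 / 25) * T) x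
      (T * ((100 / 25) * ((6 / 10) - x))) s k) + (((-100 / 25) * T) * ((1 / 2) * Real.pi)))) := by
  have h : chkT [(emb (.sub (.sub (.q (-20) 1000) (.mul (.q 300 100) (.sub (.var 0) (.q 330 1000)))) (.add
      (MR.en2 (.q 0 1) (.q 1 1) (.mul (.q (-100) 25) (.var 1)) (.var 0) (.mul (.var 1) (.mul (.q
      100 25) (.sub (.q 6 10) (.var 0)))) (.var 2) (.var 3)) (.mul (.mul (.q (-100) 25) (.var 1))
      (.mul (.q 1 2) .pi))))), (emb (.sub (.add (.var 0) (.var 2)) (.q 106 100))), (emb (.sub (.q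
      94 100) (.add (.var 0) (.var 2)))), (emb (.sub (.var 3) (.add (.q 11 1000) (.mul (.q 320
      1000) (.sub (.q 63 100) (.var 2)))))), (emb (.sub (.neg (.var 3)) (.mul (.q 340 1000) (.sub
      (.q 80 100) (.var 2))))), (emb (.var 1))] 22
      8
      [V.of 10000 3300 3600 0, V.of 10000 (-50) 570 0, V.of 10000 5800 6000 0, V.of 10000 (-985)
        960 0] = true := by
    decide +kernel
  obtain ⟨f, hf, hp⟩ := chkT4 h (by norm_num) (x := x) (y := T) (z := s) (w := k)
    (le_trans (by norm_num) a0) (le_trans b0 (by norm_num))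
    (le_trans (by norm_num) a1) (le_trans b1 (by norm_num))
    (le_trans (by norm_num) a2) (le_trans b2 (by norm_num))
    (le_trans (by norm_num) a3) (le_trans b3 (by norm_num))
  simp only [List.mem_cons, List.not_mem_nil, or_false] at hf
  rcases hf with rfl | rfl | rfl | rfl | rfl | rfl
  · simp only [MR.e2_val, MR.en2_val, MR.eb2_val, NumU.E.val, NumI.E.val, NumI.lkR] at hp
    push_cast at hp
    try simp only [div_one] at hp
    linarith only [hp]
  · simp only [MR.e2_val, MR.en2_val, MR.eb2_val, NumU.E.val, NumI.E.val, NumI.lkR] at hp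
    push_cast at hp
    try simp only [div_one] at hp
    exfalso
    linarith only [b0, b2, hp]
  · simp only [MR.e2_val, MR.en2_val, MR.eb2_val, NumU.E.val, NumI.E.val, NumI.lkR] at hp
    push_cast at hp
    try simp only [div_one] at hp
    exfalso
    linarith only [c1, hp]
  · simp only [MR.e2_val, MR.en2_val, MR.eb2_val, NumU.E.val, NumI.E.val, NumI.lkR] at hp
    push_cast at hp
    try simp only [div_one] at hp
    exfalso
    linarith only [c2, hp]
  · simp only [MR.e2_val, MR.en2_val, MR.eb2_val, NumU.E.val, NumI.E.val, NumI.lkR] at hp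
    push_cast at hp
    try simp only [div_one] at hp
    exfalso
    linarith only [c3, hp]
  · simp only [MR.e2_val, MR.en2_val, MR.eb2_val, NumU.E.val, NumI.E.val, NumI.lkR] at hp
    push_cast at hp
    try simp only [div_one] at hp
    exfalso
    linarith only [c4, hp]

/-- 1 boxes -/
theorem s25icn {x T s k : ℝ} (a0 : 3300 / 10000 ≤ x) (b0 : x ≤ 3600 / 10000) (a1 : -50 / 10000 ≤ T) (b1 : T ≤ 570 / 10000)
    (a2 : 5800 / 10000 ≤ s) (b2 : s ≤ 6000 / 10000) (a3 : -985 / 10000 ≤ k) (b3 : k ≤ 960 / 10000)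
    (c0 : (x + s) - (106 / 100) ≤ 0) (c1 : (94 / 100) - (x + s) ≤ 0) (c2 : k - ((11 / 1000) +
    ((320 / 1000) * ((63 / 100) - s))) ≤ 0) (c3 : (-k) - ((340 / 1000) * ((80 / 100) - s)) ≤ 0)
    (c4 : -T ≤ 0) :
    0 < (((-20 / 1000) - ((300 / 100) * (x - (330 / 1000)))) - ((MR.n2 0 (-1) ((-100 / 25) * T)
      x (T * ((100 / 25) * ((6 / 10) - x))) s k) + (((-100 / 25) * T) * ((1 / 2) * Real.pi)))) := by
  have h : chkT [(emb (.sub (.sub (.q (-20) 1000) (.mul (.q 300 100) (.sub (.var 0) (.q 330 1000)))) (.add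
      (MR.en2 (.q 0 1) (.q (-1) 1) (.mul (.q (-100) 25) (.var 1)) (.var 0) (.mul (.var 1) (.mul
      (.q 100 25) (.sub (.q 6 10) (.var 0)))) (.var 2) (.var 3)) (.mul (.mul (.q (-100) 25) (.var
      1)) (.mul (.q 1 2) .pi))))), (emb (.sub (.add (.var 0) (.var 2)) (.q 106 100))), (emb (.sub
      (.q 94 100) (.add (.var 0) (.var 2)))), (emb (.sub (.var 3) (.add (.q 11 1000) (.mul (.q 320
      1000) (.sub (.q 63 100) (.var 2)))))), (emb (.sub (.neg (.var 3)) (.mul (.q 340 1000) (.sub
      (.q 80 100) (.var 2))))), (emb (.neg (.var 1)))] 22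
      8
      [V.of 10000 3300 3600 0, V.of 10000 (-50) 570 0, V.of 10000 5800 6000 0, V.of 10000 (-985)
        960 0] = true := by
    decide +kernel
  obtain ⟨f, hf, hp⟩ := chkT4 h (by norm_num) (x := x) (y := T) (z := s) (w := k)
    (le_trans (by norm_num) a0) (le_trans b0 (by norm_num))
    (le_trans (by norm_num) a1) (le_trans b1 (by norm_num))
    (le_trans (by norm_num) a2) (le_trans b2 (by norm_num))
    (le_trans (by norm_num) a3) (le_trans b3 (by norm_num))
  simp only [List.mem_cons, List.not_mem_nil, or_false] at hf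
  rcases hf with rfl | rfl | rfl | rfl | rfl | rfl
  · simp only [MR.e2_val, MR.en2_val, MR.eb2_val, NumU.E.val, NumI.E.val, NumI.lkR] at hp
    push_cast at hp
    try simp only [div_one] at hp
    linarith only [hp]
  · simp only [MR.e2_val, MR.en2_val, MR.eb2_val, NumU.E.val, NumI.E.val, NumI.lkR] at hp
    push_cast at hp
    try simp only [div_one] at hp
    exfalso
    linarith only [b0, b2, hp]
  · simp only [MR.e2_val, MR.en2_val, MR.eb2_val, NumU.E.val, NumI.E.val, NumI.lkR] at hp
    push_cast at hp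
    try simp only [div_one] at hp
    exfalso
    linarith only [c1, hp]
  · simp only [MR.e2_val, MR.en2_val, MR.eb2_val, NumU.E.val, NumI.E.val, NumI.lkR] at hp
    push_cast at hp
    try simp only [div_one] at hp
    exfalso
    linarith only [c2, hp]
  · simp only [MR.e2_val, MR.en2_val, MR.eb2_val, NumU.E.val, NumI.E.val, NumI.lkR] at hp
    push_cast at hp
    try simp only [div_one] at hp
    exfalso
    linarith only [c3, hp]
  · simp only [MR.e2_val, MR.en2_val, MR.eb2_val, NumU.E.val, NumI.E.val, NumI.lkR] at hp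
    push_cast at hp
    try simp only [div_one] at hp
    exfalso
    linarith only [c4, hp]

/-- 14 boxes -/
theorem s25ha {x T s k : ℝ} (a0 : 3600 / 10000 ≤ x) (b0 : x ≤ 3700 / 10000) (a1 : -50 / 10000 ≤ T) (b1 : T ≤ 570 / 10000)
    (a2 : 700 / 10000 ≤ s) (b2 : s ≤ 1250 / 10000) (a3 : -1075 / 10000 ≤ k) (b3 : k ≤ 960 / 10000)
    :
    0 < ((-13 / 100) - ((MR.s2 ((-100 / 25) * T) x (T * ((100 / 25) * ((6 / 10) - x))) s ((8 *
      k) * s)) + (((-100 / 25) * T) * ((1 / 2) * Real.pi)))) := by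
  have h : chkT [(emb (.sub (.q (-13) 100) (.add (MR.e2 (.mul (.q (-100) 25) (.var 1)) (.var 0) (.mul (.var
      1) (.mul (.q 100 25) (.sub (.q 6 10) (.var 0)))) (.var 2) (.mul (.mul (.q 8 1) (.var 3))
      (.var 2))) (.mul (.mul (.q (-100) 25) (.var 1)) (.mul (.q 1 2) .pi)))))] 22
      172680324398717003502816910869123
      [V.of 10000 3600 3700 0, V.of 10000 (-50) 570 0, V.of 10000 700 1250 0, V.of 10000 (-1075)
        960 0] = true := by
    decide +kernel
  obtain ⟨f, hf, hp⟩ := chkT4 h (by norm_num) (x := x) (y := T) (z := s) (w := k)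
    (le_trans (by norm_num) a0) (le_trans b0 (by norm_num))
    (le_trans (by norm_num) a1) (le_trans b1 (by norm_num))
    (le_trans (by norm_num) a2) (le_trans b2 (by norm_num))
    (le_trans (by norm_num) a3) (le_trans b3 (by norm_num))
  simp only [List.mem_cons, List.not_mem_nil, or_false] at hf
  subst hf
  simp only [MR.e2_val, MR.en2_val, MR.eb2_val, NumU.E.val, NumI.E.val, NumI.lkR] at hp
  push_cast at hp
  try simp only [div_one] at hp
  linarith only [hp]

/-- 41 boxes -/
theorem s25hb {x T s k : ℝ} (a0 : 3600 / 10000 ≤ x) (b0 : x ≤ 3700 / 10000) (a1 : -50 / 10000 ≤ T) (b1 : T ≤ 570 / 10000)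
    (a2 : 1250 / 10000 ≤ s) (b2 : s ≤ 5800 / 10000) (a3 : -985 / 10000 ≤ k) (b3 : k ≤ 960 / 10000)
    (c0 : (x + s) - (94 / 100) ≤ 0) :
    0 < ((-13 / 100) - ((MR.s2 ((-100 / 25) * T) x (T * ((100 / 25) * ((6 / 10) - x))) s k) +
      (((-100 / 25) * T) * ((1 / 2) * Real.pi)))) := by
  have h : chkT [(emb (.sub (.q (-13) 100) (.add (MR.e2 (.mul (.q (-100) 25) (.var 1)) (.var 0) (.mul (.var
      1) (.mul (.q 100 25) (.sub (.q 6 10) (.var 0)))) (.var 2) (.var 3)) (.mul (.mul (.q (-100)
      25) (.var 1)) (.mul (.q 1 2) .pi))))), (emb (.sub (.add (.var 0) (.var 2)) (.q 94 100)))] 22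
      18168668581696546741175813507610872852882143532594874907277474141169755928301331336390380408242978
      [V.of 10000 3600 3700 0, V.of 10000 (-50) 570 0, V.of 10000 1250 5800 0, V.of 10000 (-985)
        960 0] = true := by
    decide +kernel
  obtain ⟨f, hf, hp⟩ := chkT4 h (by norm_num) (x := x) (y := T) (z := s) (w := k)
    (le_trans (by norm_num) a0) (le_trans b0 (by norm_num))
    (le_trans (by norm_num) a1) (le_trans b1 (by norm_num))
    (le_trans (by norm_num) a2) (le_trans b2 (by norm_num))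
    (le_trans (by norm_num) a3) (le_trans b3 (by norm_num))
  simp only [List.mem_cons, List.not_mem_nil, or_false] at hf
  rcases hf with rfl | rfl
  · simp only [MR.e2_val, MR.en2_val, MR.eb2_val, NumU.E.val, NumI.E.val, NumI.lkR] at hp
    push_cast at hp
    try simp only [div_one] at hp
    linarith only [hp]
  · simp only [MR.e2_val, MR.en2_val, MR.eb2_val, NumU.E.val, NumI.E.val, NumI.lkR] at hp
    push_cast at hp
    try simp only [div_one] at hp
    exfalso
    linarith only [c0, hp]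

/-- 1 boxes -/
theorem s25hcp {x T s k : ℝ} (a0 : 3600 / 10000 ≤ x) (b0 : x ≤ 3700 / 10000) (a1 : -50 / 10000 ≤ T) (b1 : T ≤ 570 / 10000)
    (a2 : 5700 / 10000 ≤ s) (b2 : s ≤ 6000 / 10000) (a3 : -985 / 10000 ≤ k) (b3 : k ≤ 960 / 10000)
    (c0 : (x + s) - (106 / 100) ≤ 0) (c1 : (94 / 100) - (x + s) ≤ 0) (c2 : k - ((11 / 1000) +
    ((320 / 1000) * ((63 / 100) - s))) ≤ 0) (c3 : (-k) - ((340 / 1000) * ((80 / 100) - s)) ≤ 0)
    (c4 : T ≤ 0) :
    0 < ((-13 / 100) - ((MR.n2 0 1 ((-100 / 25) * T) x (T * ((100 / 25) * ((6 / 10) - x))) s k)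
      + (((-100 / 25) * T) * ((1 / 2) * Real.pi)))) := by
  have h : chkT [(emb (.sub (.q (-13) 100) (.add (MR.en2 (.q 0 1) (.q 1 1) (.mul (.q (-100) 25) (.var 1))
      (.var 0) (.mul (.var 1) (.mul (.q 100 25) (.sub (.q 6 10) (.var 0)))) (.var 2) (.var 3))
      (.mul (.mul (.q (-100) 25) (.var 1)) (.mul (.q 1 2) .pi))))), (emb (.sub (.add (.var 0)
      (.var 2)) (.q 106 100))), (emb (.sub (.q 94 100) (.add (.var 0) (.var 2)))), (emb (.sub
      (.var 3) (.add (.q 11 1000) (.mul (.q 320 1000) (.sub (.q 63 100) (.var 2)))))), (emb (.sub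
      (.neg (.var 3)) (.mul (.q 340 1000) (.sub (.q 80 100) (.var 2))))), (emb (.var 1))] 22
      8
      [V.of 10000 3600 3700 0, V.of 10000 (-50) 570 0, V.of 10000 5700 6000 0, V.of 10000 (-985)
        960 0] = true := by
    decide +kernel
  obtain ⟨f, hf, hp⟩ := chkT4 h (by norm_num) (x := x) (y := T) (z := s) (w := k)
    (le_trans (by norm_num) a0) (le_trans b0 (by norm_num))
    (le_trans (by norm_num) a1) (le_trans b1 (by norm_num))
    (le_trans (by norm_num) a2) (le_trans b2 (by norm_num))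
    (le_trans (by norm_num) a3) (le_trans b3 (by norm_num))
  simp only [List.mem_cons, List.not_mem_nil, or_false] at hf
  rcases hf with rfl | rfl | rfl | rfl | rfl | rfl
  · simp only [MR.e2_val, MR.en2_val, MR.eb2_val, NumU.E.val, NumI.E.val, NumI.lkR] at hp
    push_cast at hp
    try simp only [div_one] at hp
    linarith only [hp]
  · simp only [MR.e2_val, MR.en2_val, MR.eb2_val, NumU.E.val, NumI.E.val, NumI.lkR] at hp
    push_cast at hp
    try simp only [div_one] at hp
    exfalso
    linarith only [b0, b2, hp]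
  · simp only [MR.e2_val, MR.en2_val, MR.eb2_val, NumU.E.val, NumI.E.val, NumI.lkR] at hp
    push_cast at hp
    try simp only [div_one] at hp
    exfalso
    linarith only [c1, hp]
  · simp only [MR.e2_val, MR.en2_val, MR.eb2_val, NumU.E.val, NumI.E.val, NumI.lkR] at hp
    push_cast at hp
    try simp only [div_one] at hp
    exfalso
    linarith only [c2, hp]
  · simp only [MR.e2_val, MR.en2_val, MR.eb2_val, NumU.E.val, NumI.E.val, NumI.lkR] at hp
    push_cast at hp
    try simp only [div_one] at hp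
    exfalso
    linarith only [c3, hp]
  · simp only [MR.e2_val, MR.en2_val, MR.eb2_val, NumU.E.val, NumI.E.val, NumI.lkR] at hp
    push_cast at hp
    try simp only [div_one] at hp
    exfalso
    linarith only [c4, hp]

/-- 1 boxes -/
theorem s25hcn {x T s k : ℝ} (a0 : 3600 / 10000 ≤ x) (b0 : x ≤ 3700 / 10000) (a1 : -50 / 10000 ≤ T) (b1 : T ≤ 570 / 10000)
    (a2 : 5700 / 10000 ≤ s) (b2 : s ≤ 6000 / 10000) (a3 : -985 / 10000 ≤ k) (b3 : k ≤ 960 / 10000)
    (c0 : (x + s) - (106 / 100) ≤ 0) (c1 : (94 / 100) - (x + s) ≤ 0) (c2 : k - ((11 / 1000) +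
    ((320 / 1000) * ((63 / 100) - s))) ≤ 0) (c3 : (-k) - ((340 / 1000) * ((80 / 100) - s)) ≤ 0)
    (c4 : -T ≤ 0) :
    0 < ((-13 / 100) - ((MR.n2 0 (-1) ((-100 / 25) * T) x (T * ((100 / 25) * ((6 / 10) - x))) s
      k) + (((-100 / 25) * T) * ((1 / 2) * Real.pi)))) := by
  have h : chkT [(emb (.sub (.q (-13) 100) (.add (MR.en2 (.q 0 1) (.q (-1) 1) (.mul (.q (-100) 25) (.var 1))
      (.var 0) (.mul (.var 1) (.mul (.q 100 25) (.sub (.q 6 10) (.var 0)))) (.var 2) (.var 3))
      (.mul (.mul (.q (-100) 25) (.var 1)) (.mul (.q 1 2) .pi))))), (emb (.sub (.add (.var 0)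
      (.var 2)) (.q 106 100))), (emb (.sub (.q 94 100) (.add (.var 0) (.var 2)))), (emb (.sub
      (.var 3) (.add (.q 11 1000) (.mul (.q 320 1000) (.sub (.q 63 100) (.var 2)))))), (emb (.sub
      (.neg (.var 3)) (.mul (.q 340 1000) (.sub (.q 80 100) (.var 2))))), (emb (.neg (.var 1)))] 22
      8
      [V.of 10000 3600 3700 0, V.of 10000 (-50) 570 0, V.of 10000 5700 6000 0, V.of 10000 (-985)
        960 0] = true := by
    decide +kernel
  obtain ⟨f, hf, hp⟩ := chkT4 h (by norm_num) (x := x) (y := T) (z := s) (w := k)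
    (le_trans (by norm_num) a0) (le_trans b0 (by norm_num))
    (le_trans (by norm_num) a1) (le_trans b1 (by norm_num))
    (le_trans (by norm_num) a2) (le_trans b2 (by norm_num))
    (le_trans (by norm_num) a3) (le_trans b3 (by norm_num))
  simp only [List.mem_cons, List.not_mem_nil, or_false] at hf
  rcases hf with rfl | rfl | rfl | rfl | rfl | rfl
  · simp only [MR.e2_val, MR.en2_val, MR.eb2_val, NumU.E.val, NumI.E.val, NumI.lkR] at hp
    push_cast at hp
    try simp only [div_one] at hp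
    linarith only [hp]
  · simp only [MR.e2_val, MR.en2_val, MR.eb2_val, NumU.E.val, NumI.E.val, NumI.lkR] at hp
    push_cast at hp
    try simp only [div_one] at hp
    exfalso
    linarith only [b0, b2, hp]
  · simp only [MR.e2_val, MR.en2_val, MR.eb2_val, NumU.E.val, NumI.E.val, NumI.lkR] at hp
    push_cast at hp
    try simp only [div_one] at hp
    exfalso
    linarith only [c1, hp]
  · simp only [MR.e2_val, MR.en2_val, MR.eb2_val, NumU.E.val, NumI.E.val, NumI.lkR] at hp
    push_cast at hp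
    try simp only [div_one] at hp
    exfalso
    linarith only [c2, hp]
  · simp only [MR.e2_val, MR.en2_val, MR.eb2_val, NumU.E.val, NumI.E.val, NumI.lkR] at hp
    push_cast at hp
    try simp only [div_one] at hp
    exfalso
    linarith only [c3, hp]
  · simp only [MR.e2_val, MR.en2_val, MR.eb2_val, NumU.E.val, NumI.E.val, NumI.lkR] at hp
    push_cast at hp
    try simp only [div_one] at hp
    exfalso
    linarith only [c4, hp]

/-- 19 boxes -/
theorem s25ja {x T s k : ℝ} (a0 : 3700 / 10000 ≤ x) (b0 : x ≤ 5000 / 10000) (a1 : -50 / 10000 ≤ T) (b1 : T ≤ 570 / 10000)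
    (a2 : 700 / 10000 ≤ s) (b2 : s ≤ 1250 / 10000) (a3 : -1075 / 10000 ≤ k) (b3 : k ≤ 960 / 10000)
    :
    0 < ((-14 / 100) - ((MR.s2 ((-100 / 25) * T) x (T * ((100 / 25) * ((6 / 10) - x))) s ((8 *
      k) * s)) + (((-100 / 25) * T) * ((1 / 2) * Real.pi)))) := by
  have h : chkT [(emb (.sub (.q (-14) 100) (.add (MR.e2 (.mul (.q (-100) 25) (.var 1)) (.var 0) (.mul (.var
      1) (.mul (.q 100 25) (.sub (.q 6 10) (.var 0)))) (.var 2) (.mul (.mul (.q 8 1) (.var 3))
      (.var 2))) (.mul (.mul (.q (-100) 25) (.var 1)) (.mul (.q 1 2) .pi)))))] 22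
      189864013922624700598216627517485288459352112
      [V.of 10000 3700 5000 0, V.of 10000 (-50) 570 0, V.of 10000 700 1250 0, V.of 10000 (-1075)
        960 0] = true := by
    decide +kernel
  obtain ⟨f, hf, hp⟩ := chkT4 h (by norm_num) (x := x) (y := T) (z := s) (w := k)
    (le_trans (by norm_num) a0) (le_trans b0 (by norm_num))
    (le_trans (by norm_num) a1) (le_trans b1 (by norm_num))
    (le_trans (by norm_num) a2) (le_trans b2 (by norm_num))
    (le_trans (by norm_num) a3) (le_trans b3 (by norm_num))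
  simp only [List.mem_cons, List.not_mem_nil, or_false] at hf
  subst hf
  simp only [MR.e2_val, MR.en2_val, MR.eb2_val, NumU.E.val, NumI.E.val, NumI.lkR] at hp
  push_cast at hp
  try simp only [div_one] at hp
  linarith only [hp]

/-- 159 boxes -/
theorem s25jb {x T s k : ℝ} (a0 : 3700 / 10000 ≤ x) (b0 : x ≤ 5000 / 10000) (a1 : -50 / 10000 ≤ T) (b1 : T ≤ 570 / 10000)
    (a2 : 1250 / 10000 ≤ s) (b2 : s ≤ 5700 / 10000) (a3 : -985 / 10000 ≤ k) (b3 : k ≤ 960 / 10000)
    (c0 : (x + s) - (94 / 100) ≤ 0) :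
    0 < ((-14 / 100) - ((MR.s2 ((-100 / 25) * T) x (T * ((100 / 25) * ((6 / 10) - x))) s k) +
      (((-100 / 25) * T) * ((1 / 2) * Real.pi)))) := by
  have h : chkT [(emb (.sub (.q (-14) 100) (.add (MR.e2 (.mul (.q (-100) 25) (.var 1)) (.var 0) (.mul (.var
      1) (.mul (.q 100 25) (.sub (.q 6 10) (.var 0)))) (.var 2) (.var 3)) (.mul (.mul (.q (-100)
      25) (.var 1)) (.mul (.q 1 2) .pi))))), (emb (.sub (.add (.var 0) (.var 2)) (.q 94 100)))] 22
      3049193613101317578851198612341288033590181401112615955053541647983443681870106603887008299593909226333148651263078798731733095693132960858759664965651052802319148939658144960101620592776069147062978155026631309234626033763156628611116506946821434467489609193844474452819958026802692494805423690126011200722563367374546201351017095248433791823117251951914764281189632492869956153378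
      [V.of 10000 3700 5000 0, V.of 10000 (-50) 570 0, V.of 10000 1250 5700 0, V.of 10000 (-985)
        960 0] = true := by
    decide +kernel
  obtain ⟨f, hf, hp⟩ := chkT4 h (by norm_num) (x := x) (y := T) (z := s) (w := k)
    (le_trans (by norm_num) a0) (le_trans b0 (by norm_num))
    (le_trans (by norm_num) a1) (le_trans b1 (by norm_num))
    (le_trans (by norm_num) a2) (le_trans b2 (by norm_num))
    (le_trans (by norm_num) a3) (le_trans b3 (by norm_num))
  simp only [List.mem_cons, List.not_mem_nil, or_false] at hf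
  rcases hf with rfl | rfl
  · simp only [MR.e2_val, MR.en2_val, MR.eb2_val, NumU.E.val, NumI.E.val, NumI.lkR] at hp
    push_cast at hp
    try simp only [div_one] at hp
    linarith only [hp]
  · simp only [MR.e2_val, MR.en2_val, MR.eb2_val, NumU.E.val, NumI.E.val, NumI.lkR] at hp
    push_cast at hp
    try simp only [div_one] at hp
    exfalso
    linarith only [c0, hp]

/-- 1 boxes -/
theorem s25jcp {x T s k : ℝ} (a0 : 3700 / 10000 ≤ x) (b0 : x ≤ 5000 / 10000) (a1 : -50 / 10000 ≤ T) (b1 : T ≤ 570 / 10000)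
    (a2 : 4400 / 10000 ≤ s) (b2 : s ≤ 6000 / 10000) (a3 : -985 / 10000 ≤ k) (b3 : k ≤ 960 / 10000)
    (c0 : (x + s) - (106 / 100) ≤ 0) (c1 : (94 / 100) - (x + s) ≤ 0) (c2 : k - ((11 / 1000) +
    ((320 / 1000) * ((63 / 100) - s))) ≤ 0) (c3 : (-k) - ((340 / 1000) * ((80 / 100) - s)) ≤ 0)
    (c4 : T ≤ 0) :
    0 < ((-14 / 100) - ((MR.n2 0 1 ((-100 / 25) * T) x (T * ((100 / 25) * ((6 / 10) - x))) s k)
      + (((-100 / 25) * T) * ((1 / 2) * Real.pi)))) := by
  have h : chkT [(emb (.sub (.q (-14) 100) (.add (MR.en2 (.q 0 1) (.q 1 1) (.mul (.q (-100) 25) (.var 1))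
      (.var 0) (.mul (.var 1) (.mul (.q 100 25) (.sub (.q 6 10) (.var 0)))) (.var 2) (.var 3))
      (.mul (.mul (.q (-100) 25) (.var 1)) (.mul (.q 1 2) .pi))))), (emb (.sub (.add (.var 0)
      (.var 2)) (.q 106 100))), (emb (.sub (.q 94 100) (.add (.var 0) (.var 2)))), (emb (.sub
      (.var 3) (.add (.q 11 1000) (.mul (.q 320 1000) (.sub (.q 63 100) (.var 2)))))), (emb (.sub
      (.neg (.var 3)) (.mul (.q 340 1000) (.sub (.q 80 100) (.var 2))))), (emb (.var 1))] 22
      8
      [V.of 10000 3700 5000 0, V.of 10000 (-50) 570 0, V.of 10000 4400 6000 0, V.of 10000 (-985)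
        960 0] = true := by
    decide +kernel
  obtain ⟨f, hf, hp⟩ := chkT4 h (by norm_num) (x := x) (y := T) (z := s) (w := k)
    (le_trans (by norm_num) a0) (le_trans b0 (by norm_num))
    (le_trans (by norm_num) a1) (le_trans b1 (by norm_num))
    (le_trans (by norm_num) a2) (le_trans b2 (by norm_num))
    (le_trans (by norm_num) a3) (le_trans b3 (by norm_num))
  simp only [List.mem_cons, List.not_mem_nil, or_false] at hf
  rcases hf with rfl | rfl | rfl | rfl | rfl | rfl
  · simp only [MR.e2_val, MR.en2_val, MR.eb2_val, NumU.E.val, NumI.E.val, NumI.lkR] at hp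
    push_cast at hp
    try simp only [div_one] at hp
    linarith only [hp]
  · simp only [MR.e2_val, MR.en2_val, MR.eb2_val, NumU.E.val, NumI.E.val, NumI.lkR] at hp
    push_cast at hp
    try simp only [div_one] at hp
    exfalso
    linarith only [c0, hp]
  · simp only [MR.e2_val, MR.en2_val, MR.eb2_val, NumU.E.val, NumI.E.val, NumI.lkR] at hp
    push_cast at hp
    try simp only [div_one] at hp
    exfalso
    linarith only [c1, hp]
  · simp only [MR.e2_val, MR.en2_val, MR.eb2_val, NumU.E.val, NumI.E.val, NumI.lkR] at hp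
    push_cast at hp
    try simp only [div_one] at hp
    exfalso
    linarith only [c2, hp]
  · simp only [MR.e2_val, MR.en2_val, MR.eb2_val, NumU.E.val, NumI.E.val, NumI.lkR] at hp
    push_cast at hp
    try simp only [div_one] at hp
    exfalso
    linarith only [c3, hp]
  · simp only [MR.e2_val, MR.en2_val, MR.eb2_val, NumU.E.val, NumI.E.val, NumI.lkR] at hp
    push_cast at hp
    try simp only [div_one] at hp
    exfalso
    linarith only [c4, hp]

/-- 1 boxes -/
theorem s25jcn {x T s k : ℝ} (a0 : 3700 / 10000 ≤ x) (b0 : x ≤ 5000 / 10000) (a1 : -50 / 10000 ≤ T) (b1 : T ≤ 570 / 10000)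
    (a2 : 4400 / 10000 ≤ s) (b2 : s ≤ 6000 / 10000) (a3 : -985 / 10000 ≤ k) (b3 : k ≤ 960 / 10000)
    (c0 : (x + s) - (106 / 100) ≤ 0) (c1 : (94 / 100) - (x + s) ≤ 0) (c2 : k - ((11 / 1000) +
    ((320 / 1000) * ((63 / 100) - s))) ≤ 0) (c3 : (-k) - ((340 / 1000) * ((80 / 100) - s)) ≤ 0)
    (c4 : -T ≤ 0) :
    0 < ((-14 / 100) - ((MR.n2 0 (-1) ((-100 / 25) * T) x (T * ((100 / 25) * ((6 / 10) - x))) s
      k) + (((-100 / 25) * T) * ((1 / 2) * Real.pi)))) := by
  have h : chkT [(emb (.sub (.q (-14) 100) (.add (MR.en2 (.q 0 1) (.q (-1) 1) (.mul (.q (-100) 25) (.var 1))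
      (.var 0) (.mul (.var 1) (.mul (.q 100 25) (.sub (.q 6 10) (.var 0)))) (.var 2) (.var 3))
      (.mul (.mul (.q (-100) 25) (.var 1)) (.mul (.q 1 2) .pi))))), (emb (.sub (.add (.var 0)
      (.var 2)) (.q 106 100))), (emb (.sub (.q 94 100) (.add (.var 0) (.var 2)))), (emb (.sub
      (.var 3) (.add (.q 11 1000) (.mul (.q 320 1000) (.sub (.q 63 100) (.var 2)))))), (emb (.sub
      (.neg (.var 3)) (.mul (.q 340 1000) (.sub (.q 80 100) (.var 2))))), (emb (.neg (.var 1)))] 22
      8
      [V.of 10000 3700 5000 0, V.of 10000 (-50) 570 0, V.of 10000 4400 6000 0, V.of 10000 (-985)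
        960 0] = true := by
    decide +kernel
  obtain ⟨f, hf, hp⟩ := chkT4 h (by norm_num) (x := x) (y := T) (z := s) (w := k)
    (le_trans (by norm_num) a0) (le_trans b0 (by norm_num))
    (le_trans (by norm_num) a1) (le_trans b1 (by norm_num))
    (le_trans (by norm_num) a2) (le_trans b2 (by norm_num))
    (le_trans (by norm_num) a3) (le_trans b3 (by norm_num))
  simp only [List.mem_cons, List.not_mem_nil, or_false] at hf
  rcases hf with rfl | rfl | rfl | rfl | rfl | rfl
  · simp only [MR.e2_val, MR.en2_val, MR.eb2_val, NumU.E.val, NumI.E.val, NumI.lkR] at hp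
    push_cast at hp
    try simp only [div_one] at hp
    linarith only [hp]
  · simp only [MR.e2_val, MR.en2_val, MR.eb2_val, NumU.E.val, NumI.E.val, NumI.lkR] at hp
    push_cast at hp
    try simp only [div_one] at hp
    exfalso
    linarith only [c0, hp]
  · simp only [MR.e2_val, MR.en2_val, MR.eb2_val, NumU.E.val, NumI.E.val, NumI.lkR] at hp
    push_cast at hp
    try simp only [div_one] at hp
    exfalso
    linarith only [c1, hp]
  · simp only [MR.e2_val, MR.en2_val, MR.eb2_val, NumU.E.val, NumI.E.val, NumI.lkR] at hp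
    push_cast at hp
    try simp only [div_one] at hp
    exfalso
    linarith only [c2, hp]
  · simp only [MR.e2_val, MR.en2_val, MR.eb2_val, NumU.E.val, NumI.E.val, NumI.lkR] at hp
    push_cast at hp
    try simp only [div_one] at hp
    exfalso
    linarith only [c3, hp]
  · simp only [MR.e2_val, MR.en2_val, MR.eb2_val, NumU.E.val, NumI.E.val, NumI.lkR] at hp
    push_cast at hp
    try simp only [div_one] at hp
    exfalso
    linarith only [c4, hp]

/-- 18 boxes -/
theorem s25jdp {x T s k : ℝ} (a0 : 3700 / 10000 ≤ x) (b0 : x ≤ 5000 / 10000) (a1 : -50 / 10000 ≤ T) (b1 : T ≤ 570 / 10000)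
    (a2 : 5600 / 10000 ≤ s) (b2 : s ≤ 6000 / 10000) (a3 : -985 / 10000 ≤ k) (b3 : k ≤ 960 / 10000)
    (c0 : (106 / 100) - (x + s) ≤ 0) (c1 : k - ((11 / 1000) + ((320 / 1000) * ((63 / 100) - s))) ≤
    0) (c2 : (-k) - ((340 / 1000) * ((80 / 100) - s)) ≤ 0) (c3 : T ≤ 0) :
    0 < ((-14 / 100) - ((MR.b2 1 ((-100 / 25) * T) x (T * ((100 / 25) * ((6 / 10) - x))) s k) +
      (((-100 / 25) * T) * ((1 / 2) * Real.pi)))) := by
  have h : chkT [(emb (.sub (.q (-14) 100) (.add (MR.eb2 (.q 1 1) (.mul (.q (-100) 25) (.var 1)) (.var 0)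
      (.mul (.var 1) (.mul (.q 100 25) (.sub (.q 6 10) (.var 0)))) (.var 2) (.var 3)) (.mul (.mul
      (.q (-100) 25) (.var 1)) (.mul (.q 1 2) .pi))))), (emb (.sub (.q 106 100) (.add (.var 0)
      (.var 2)))), (emb (.sub (.var 3) (.add (.q 11 1000) (.mul (.q 320 1000) (.sub (.q 63 100)
      (.var 2)))))), (emb (.sub (.neg (.var 3)) (.mul (.q 340 1000) (.sub (.q 80 100) (.var
      2))))), (emb (.var 1))] 22
      1114946516211393323911969124423740969521552
      [V.of 10000 3700 5000 0, V.of 10000 (-50) 570 0, V.of 10000 5600 6000 0, V.of 10000 (-985)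
        960 0] = true := by
    decide +kernel
  obtain ⟨f, hf, hp⟩ := chkT4 h (by norm_num) (x := x) (y := T) (z := s) (w := k)
    (le_trans (by norm_num) a0) (le_trans b0 (by norm_num))
    (le_trans (by norm_num) a1) (le_trans b1 (by norm_num))
    (le_trans (by norm_num) a2) (le_trans b2 (by norm_num))
    (le_trans (by norm_num) a3) (le_trans b3 (by norm_num))
  simp only [List.mem_cons, List.not_mem_nil, or_false] at hf
  rcases hf with rfl | rfl | rfl | rfl | rfl
  · simp only [MR.e2_val, MR.en2_val, MR.eb2_val, NumU.E.val, NumI.E.val, NumI.lkR] at hp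
    push_cast at hp
    try simp only [div_one] at hp
    linarith only [hp]
  · simp only [MR.e2_val, MR.en2_val, MR.eb2_val, NumU.E.val, NumI.E.val, NumI.lkR] at hp
    push_cast at hp
    try simp only [div_one] at hp
    exfalso
    linarith only [c0, hp]
  · simp only [MR.e2_val, MR.en2_val, MR.eb2_val, NumU.E.val, NumI.E.val, NumI.lkR] at hp
    push_cast at hp
    try simp only [div_one] at hp
    exfalso
    linarith only [c1, hp]
  · simp only [MR.e2_val, MR.en2_val, MR.eb2_val, NumU.E.val, NumI.E.val, NumI.lkR] at hp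
    push_cast at hp
    try simp only [div_one] at hp
    exfalso
    linarith only [c2, hp]
  · simp only [MR.e2_val, MR.en2_val, MR.eb2_val, NumU.E.val, NumI.E.val, NumI.lkR] at hp
    push_cast at hp
    try simp only [div_one] at hp
    exfalso
    linarith only [c3, hp]

/-- 26 boxes -/
theorem s25jdn {x T s k : ℝ} (a0 : 3700 / 10000 ≤ x) (b0 : x ≤ 5000 / 10000) (a1 : -50 / 10000 ≤ T) (b1 : T ≤ 570 / 10000)
    (a2 : 5600 / 10000 ≤ s) (b2 : s ≤ 6000 / 10000) (a3 : -985 / 10000 ≤ k) (b3 : k ≤ 960 / 10000)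
    (c0 : (106 / 100) - (x + s) ≤ 0) (c1 : k - ((11 / 1000) + ((320 / 1000) * ((63 / 100) - s))) ≤
    0) (c2 : (-k) - ((340 / 1000) * ((80 / 100) - s)) ≤ 0) (c3 : -T ≤ 0) :
    0 < ((-14 / 100) - ((MR.b2 (-1) ((-100 / 25) * T) x (T * ((100 / 25) * ((6 / 10) - x))) s k)
      + (((-100 / 25) * T) * ((1 / 2) * Real.pi)))) := by
  have h : chkT [(emb (.sub (.q (-14) 100) (.add (MR.eb2 (.q (-1) 1) (.mul (.q (-100) 25) (.var 1)) (.var 0)
      (.mul (.var 1) (.mul (.q 100 25) (.sub (.q 6 10) (.var 0)))) (.var 2) (.var 3)) (.mul (.mul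
      (.q (-100) 25) (.var 1)) (.mul (.q 1 2) .pi))))), (emb (.sub (.q 106 100) (.add (.var 0)
      (.var 2)))), (emb (.sub (.var 3) (.add (.q 11 1000) (.mul (.q 320 1000) (.sub (.q 63 100)
      (.var 2)))))), (emb (.sub (.neg (.var 3)) (.mul (.q 340 1000) (.sub (.q 80 100) (.var
      2))))), (emb (.neg (.var 1)))] 22
      16923660169088114606615043419328234278338237404157652461232272
      [V.of 10000 3700 5000 0, V.of 10000 (-50) 570 0, V.of 10000 5600 6000 0, V.of 10000 (-985)
        960 0] = true := by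
    decide +kernel
  obtain ⟨f, hf, hp⟩ := chkT4 h (by norm_num) (x := x) (y := T) (z := s) (w := k)
    (le_trans (by norm_num) a0) (le_trans b0 (by norm_num))
    (le_trans (by norm_num) a1) (le_trans b1 (by norm_num))
    (le_trans (by norm_num) a2) (le_trans b2 (by norm_num))
    (le_trans (by norm_num) a3) (le_trans b3 (by norm_num))
  simp only [List.mem_cons, List.not_mem_nil, or_false] at hf
  rcases hf with rfl | rfl | rfl | rfl | rfl
  · simp only [MR.e2_val, MR.en2_val, MR.eb2_val, NumU.E.val, NumI.E.val, NumI.lkR] at hp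
    push_cast at hp
    try simp only [div_one] at hp
    linarith only [hp]
  · simp only [MR.e2_val, MR.en2_val, MR.eb2_val, NumU.E.val, NumI.E.val, NumI.lkR] at hp
    push_cast at hp
    try simp only [div_one] at hp
    exfalso
    linarith only [c0, hp]
  · simp only [MR.e2_val, MR.en2_val, MR.eb2_val, NumU.E.val, NumI.E.val, NumI.lkR] at hp
    push_cast at hp
    try simp only [div_one] at hp
    exfalso
    linarith only [c1, hp]
  · simp only [MR.e2_val, MR.en2_val, MR.eb2_val, NumU.E.val, NumI.E.val, NumI.lkR] at hp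
    push_cast at hp
    try simp only [div_one] at hp
    exfalso
    linarith only [c2, hp]
  · simp only [MR.e2_val, MR.en2_val, MR.eb2_val, NumU.E.val, NumI.E.val, NumI.lkR] at hp
    push_cast at hp
    try simp only [div_one] at hp
    exfalso
    linarith only [c3, hp]

/-- 7 boxes -/
theorem z30ia {x T s k : ℝ} (a0 : 3000 / 10000 ≤ x) (b0 : x ≤ 3300 / 10000) (a1 : -50 / 10000 ≤ T) (b1 : T ≤ 570 / 10000)
    (a2 : 700 / 10000 ≤ s) (b2 : s ≤ 1250 / 10000) (a3 : -1075 / 10000 ≤ k) (b3 : k ≤ 960 / 10000)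
    :
    0 < (((120 / 1000) - ((400 / 100) * (x - (300 / 1000)))) - ((MR.s2 ((-100 / 30) * T) x (T *
      ((100 / 30) * ((6 / 10) - x))) s ((8 * k) * s)) + (((-100 / 30) * T) * ((1 / 2) *
      Real.pi)))) := by
  have h : chkT [(emb (.sub (.sub (.q 120 1000) (.mul (.q 400 100) (.sub (.var 0) (.q 300 1000)))) (.add
      (MR.e2 (.mul (.q (-100) 30) (.var 1)) (.var 0) (.mul (.var 1) (.mul (.q 100 30) (.sub (.q 6
      10) (.var 0)))) (.var 2) (.mul (.mul (.q 8 1) (.var 3)) (.var 2))) (.mul (.mul (.q (-100)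
      30) (.var 1)) (.mul (.q 1 2) .pi)))))] 22
      2394197444796803
      [V.of 10000 3000 3300 0, V.of 10000 (-50) 570 0, V.of 10000 700 1250 0, V.of 10000 (-1075)
        960 0] = true := by
    decide +kernel
  obtain ⟨f, hf, hp⟩ := chkT4 h (by norm_num) (x := x) (y := T) (z := s) (w := k)
    (le_trans (by norm_num) a0) (le_trans b0 (by norm_num))
    (le_trans (by norm_num) a1) (le_trans b1 (by norm_num))
    (le_trans (by norm_num) a2) (le_trans b2 (by norm_num))
    (le_trans (by norm_num) a3) (le_trans b3 (by norm_num))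
  simp only [List.mem_cons, List.not_mem_nil, or_false] at hf
  subst hf
  simp only [MR.e2_val, MR.en2_val, MR.eb2_val, NumU.E.val, NumI.E.val, NumI.lkR] at hp
  push_cast at hp
  try simp only [div_one] at hp
  linarith only [hp]

/-- 37 boxes -/
theorem z30ib {x T s k : ℝ} (a0 : 3000 / 10000 ≤ x) (b0 : x ≤ 3300 / 10000) (a1 : -50 / 10000 ≤ T) (b1 : T ≤ 570 / 10000)
    (a2 : 1250 / 10000 ≤ s) (b2 : s ≤ 6000 / 10000) (a3 : -985 / 10000 ≤ k) (b3 : k ≤ 960 / 10000)
    (c0 : (x + s) - (94 / 100) ≤ 0) :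
    0 < (((120 / 1000) - ((400 / 100) * (x - (300 / 1000)))) - ((MR.s2 ((-100 / 30) * T) x (T *
      ((100 / 30) * ((6 / 10) - x))) s k) + (((-100 / 30) * T) * ((1 / 2) * Real.pi)))) := by
  have h : chkT [(emb (.sub (.sub (.q 120 1000) (.mul (.q 400 100) (.sub (.var 0) (.q 300 1000)))) (.add
      (MR.e2 (.mul (.q (-100) 30) (.var 1)) (.var 0) (.mul (.var 1) (.mul (.q 100 30) (.sub (.q 6
      10) (.var 0)))) (.var 2) (.var 3)) (.mul (.mul (.q (-100) 30) (.var 1)) (.mul (.q 1 2)
      .pi))))), (emb (.sub (.add (.var 0) (.var 2)) (.q 94 100)))] 22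
      4230222800210414403833372151035670620580304171723503607882189353021265391867684498670370
      [V.of 10000 3000 3300 0, V.of 10000 (-50) 570 0, V.of 10000 1250 6000 0, V.of 10000 (-985)
        960 0] = true := by
    decide +kernel
  obtain ⟨f, hf, hp⟩ := chkT4 h (by norm_num) (x := x) (y := T) (z := s) (w := k)
    (le_trans (by norm_num) a0) (le_trans b0 (by norm_num))
    (le_trans (by norm_num) a1) (le_trans b1 (by norm_num))
    (le_trans (by norm_num) a2) (le_trans b2 (by norm_num))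
    (le_trans (by norm_num) a3) (le_trans b3 (by norm_num))
  simp only [List.mem_cons, List.not_mem_nil, or_false] at hf
  rcases hf with rfl | rfl
  · simp only [MR.e2_val, MR.en2_val, MR.eb2_val, NumU.E.val, NumI.E.val, NumI.lkR] at hp
    push_cast at hp
    try simp only [div_one] at hp
    linarith only [hp]
  · simp only [MR.e2_val, MR.en2_val, MR.eb2_val, NumU.E.val, NumI.E.val, NumI.lkR] at hp
    push_cast at hp
    try simp only [div_one] at hp
    exfalso
    linarith only [b0, b2, hp]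

/-- 10 boxes -/
theorem z30ja {x T s k : ℝ} (a0 : 3300 / 10000 ≤ x) (b0 : x ≤ 3600 / 10000) (a1 : -50 / 10000 ≤ T) (b1 : T ≤ 570 / 10000)
    (a2 : 700 / 10000 ≤ s) (b2 : s ≤ 1250 / 10000) (a3 : -1075 / 10000 ≤ k) (b3 : k ≤ 960 / 10000)
    :
    0 < (((-20 / 1000) - ((300 / 100) * (x - (330 / 1000)))) - ((MR.s2 ((-100 / 30) * T) x (T *
      ((100 / 30) * ((6 / 10) - x))) s ((8 * k) * s)) + (((-100 / 30) * T) * ((1 / 2) *
      Real.pi)))) := by
  have h : chkT [(emb (.sub (.sub (.q (-20) 1000) (.mul (.q 300 100) (.sub (.var 0) (.q 330 1000)))) (.add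
      (MR.e2 (.mul (.q (-100) 30) (.var 1)) (.var 0) (.mul (.var 1) (.mul (.q 100 30) (.sub (.q 6
      10) (.var 0)))) (.var 2) (.mul (.mul (.q 8 1) (.var 3)) (.var 2))) (.mul (.mul (.q (-100)
      30) (.var 1)) (.mul (.q 1 2) .pi)))))] 22
      40205269106296674681475
      [V.of 10000 3300 3600 0, V.of 10000 (-50) 570 0, V.of 10000 700 1250 0, V.of 10000 (-1075)
        960 0] = true := by
    decide +kernel
  obtain ⟨f, hf, hp⟩ := chkT4 h (by norm_num) (x := x) (y := T) (z := s) (w := k)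
    (le_trans (by norm_num) a0) (le_trans b0 (by norm_num))
    (le_trans (by norm_num) a1) (le_trans b1 (by norm_num))
    (le_trans (by norm_num) a2) (le_trans b2 (by norm_num))
    (le_trans (by norm_num) a3) (le_trans b3 (by norm_num))
  simp only [List.mem_cons, List.not_mem_nil, or_false] at hf
  subst hf
  simp only [MR.e2_val, MR.en2_val, MR.eb2_val, NumU.E.val, NumI.E.val, NumI.lkR] at hp
  push_cast at hp
  try simp only [div_one] at hp
  linarith only [hp]

/-- 49 boxes -/
theorem z30jb {x T s k : ℝ} (a0 : 3300 / 10000 ≤ x) (b0 : x ≤ 3600 / 10000) (a1 : -50 / 10000 ≤ T) (b1 : T ≤ 570 / 10000)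
    (a2 : 1250 / 10000 ≤ s) (b2 : s ≤ 6000 / 10000) (a3 : -985 / 10000 ≤ k) (b3 : k ≤ 960 / 10000)
    (c0 : (x + s) - (94 / 100) ≤ 0) :
    0 < (((-20 / 1000) - ((300 / 100) * (x - (330 / 1000)))) - ((MR.s2 ((-100 / 30) * T) x (T *
      ((100 / 30) * ((6 / 10) - x))) s k) + (((-100 / 30) * T) * ((1 / 2) * Real.pi)))) := by
  have h : chkT [(emb (.sub (.sub (.q (-20) 1000) (.mul (.q 300 100) (.sub (.var 0) (.q 330 1000)))) (.add
      (MR.e2 (.mul (.q (-100) 30) (.var 1)) (.var 0) (.mul (.var 1) (.mul (.q 100 30) (.sub (.q 6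
      10) (.var 0)))) (.var 2) (.var 3)) (.mul (.mul (.q (-100) 30) (.var 1)) (.mul (.q 1 2)
      .pi))))), (emb (.sub (.add (.var 0) (.var 2)) (.q 94 100)))] 22
      335152866335497436761322448503191737803343176345584673368645061335523784266070909301832579515700099495902752238961442
      [V.of 10000 3300 3600 0, V.of 10000 (-50) 570 0, V.of 10000 1250 6000 0, V.of 10000 (-985)
        960 0] = true := by
    decide +kernel
  obtain ⟨f, hf, hp⟩ := chkT4 h (by norm_num) (x := x) (y := T) (z := s) (w := k)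
    (le_trans (by norm_num) a0) (le_trans b0 (by norm_num))
    (le_trans (by norm_num) a1) (le_trans b1 (by norm_num))
    (le_trans (by norm_num) a2) (le_trans b2 (by norm_num))
    (le_trans (by norm_num) a3) (le_trans b3 (by norm_num))
  simp only [List.mem_cons, List.not_mem_nil, or_false] at hf
  rcases hf with rfl | rfl
  · simp only [MR.e2_val, MR.en2_val, MR.eb2_val, NumU.E.val, NumI.E.val, NumI.lkR] at hp
    push_cast at hp
    try simp only [div_one] at hp
    linarith only [hp]
  · simp only [MR.e2_val, MR.en2_val, MR.eb2_val, NumU.E.val, NumI.E.val, NumI.lkR] at hp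
    push_cast at hp
    try simp only [div_one] at hp
    exfalso
    linarith only [c0, hp]

/-- 1 boxes -/
theorem z30jcp {x T s k : ℝ} (a0 : 3300 / 10000 ≤ x) (b0 : x ≤ 3600 / 10000) (a1 : -50 / 10000 ≤ T) (b1 : T ≤ 570 / 10000)
    (a2 : 5800 / 10000 ≤ s) (b2 : s ≤ 6000 / 10000) (a3 : -985 / 10000 ≤ k) (b3 : k ≤ 960 / 10000)
    (c0 : (x + s) - (106 / 100) ≤ 0) (c1 : (94 / 100) - (x + s) ≤ 0) (c2 : k - ((11 / 1000) +
    ((320 / 1000) * ((63 / 100) - s))) ≤ 0) (c3 : (-k) - ((340 / 1000) * ((80 / 100) - s)) ≤ 0)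
    (c4 : T ≤ 0) :
    0 < (((-20 / 1000) - ((300 / 100) * (x - (330 / 1000)))) - ((MR.n2 0 1 ((-100 / 30) * T) x
      (T * ((100 / 30) * ((6 / 10) - x))) s k) + (((-100 / 30) * T) * ((1 / 2) * Real.pi)))) := by
  have h : chkT [(emb (.sub (.sub (.q (-20) 1000) (.mul (.q 300 100) (.sub (.var 0) (.q 330 1000)))) (.add
      (MR.en2 (.q 0 1) (.q 1 1) (.mul (.q (-100) 30) (.var 1)) (.var 0) (.mul (.var 1) (.mul (.q
      100 30) (.sub (.q 6 10) (.var 0)))) (.var 2) (.var 3)) (.mul (.mul (.q (-100) 30) (.var 1))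
      (.mul (.q 1 2) .pi))))), (emb (.sub (.add (.var 0) (.var 2)) (.q 106 100))), (emb (.sub (.q
      94 100) (.add (.var 0) (.var 2)))), (emb (.sub (.var 3) (.add (.q 11 1000) (.mul (.q 320
      1000) (.sub (.q 63 100) (.var 2)))))), (emb (.sub (.neg (.var 3)) (.mul (.q 340 1000) (.sub
      (.q 80 100) (.var 2))))), (emb (.var 1))] 22
      8
      [V.of 10000 3300 3600 0, V.of 10000 (-50) 570 0, V.of 10000 5800 6000 0, V.of 10000 (-985)
        960 0] = true := by
    decide +kernel
  obtain ⟨f, hf, hp⟩ := chkT4 h (by norm_num) (x := x) (y := T) (z := s) (w := k)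
    (le_trans (by norm_num) a0) (le_trans b0 (by norm_num))
    (le_trans (by norm_num) a1) (le_trans b1 (by norm_num))
    (le_trans (by norm_num) a2) (le_trans b2 (by norm_num))
    (le_trans (by norm_num) a3) (le_trans b3 (by norm_num))
  simp only [List.mem_cons, List.not_mem_nil, or_false] at hf
  rcases hf with rfl | rfl | rfl | rfl | rfl | rfl
  · simp only [MR.e2_val, MR.en2_val, MR.eb2_val, NumU.E.val, NumI.E.val, NumI.lkR] at hp
    push_cast at hp
    try simp only [div_one] at hp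
    linarith only [hp]
  · simp only [MR.e2_val, MR.en2_val, MR.eb2_val, NumU.E.val, NumI.E.val, NumI.lkR] at hp
    push_cast at hp
    try simp only [div_one] at hp
    exfalso
    linarith only [b0, b2, hp]
  · simp only [MR.e2_val, MR.en2_val, MR.eb2_val, NumU.E.val, NumI.E.val, NumI.lkR] at hp
    push_cast at hp
    try simp only [div_one] at hp
    exfalso
    linarith only [c1, hp]
  · simp only [MR.e2_val, MR.en2_val, MR.eb2_val, NumU.E.val, NumI.E.val, NumI.lkR] at hp
    push_cast at hp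
    try simp only [div_one] at hp
    exfalso
    linarith only [c2, hp]
  · simp only [MR.e2_val, MR.en2_val, MR.eb2_val, NumU.E.val, NumI.E.val, NumI.lkR] at hp
    push_cast at hp
    try simp only [div_one] at hp
    exfalso
    linarith only [c3, hp]
  · simp only [MR.e2_val, MR.en2_val, MR.eb2_val, NumU.E.val, NumI.E.val, NumI.lkR] at hp
    push_cast at hp
    try simp only [div_one] at hp
    exfalso
    linarith only [c4, hp]

/-- 1 boxes -/
theorem z30jcn {x T s k : ℝ} (a0 : 3300 / 10000 ≤ x) (b0 : x ≤ 3600 / 10000) (a1 : -50 / 10000 ≤ T) (b1 : T ≤ 570 / 10000)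
    (a2 : 5800 / 10000 ≤ s) (b2 : s ≤ 6000 / 10000) (a3 : -985 / 10000 ≤ k) (b3 : k ≤ 960 / 10000)
    (c0 : (x + s) - (106 / 100) ≤ 0) (c1 : (94 / 100) - (x + s) ≤ 0) (c2 : k - ((11 / 1000) +
    ((320 / 1000) * ((63 / 100) - s))) ≤ 0) (c3 : (-k) - ((340 / 1000) * ((80 / 100) - s)) ≤ 0)
    (c4 : -T ≤ 0) :
    0 < (((-20 / 1000) - ((300 / 100) * (x - (330 / 1000)))) - ((MR.n2 0 (-1) ((-100 / 30) * T)
      x (T * ((100 / 30) * ((6 / 10) - x))) s k) + (((-100 / 30) * T) * ((1 / 2) * Real.pi)))) := by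
  have h : chkT [(emb (.sub (.sub (.q (-20) 1000) (.mul (.q 300 100) (.sub (.var 0) (.q 330 1000)))) (.add
      (MR.en2 (.q 0 1) (.q (-1) 1) (.mul (.q (-100) 30) (.var 1)) (.var 0) (.mul (.var 1) (.mul
      (.q 100 30) (.sub (.q 6 10) (.var 0)))) (.var 2) (.var 3)) (.mul (.mul (.q (-100) 30) (.var
      1)) (.mul (.q 1 2) .pi))))), (emb (.sub (.add (.var 0) (.var 2)) (.q 106 100))), (emb (.sub
      (.q 94 100) (.add (.var 0) (.var 2)))), (emb (.sub (.var 3) (.add (.q 11 1000) (.mul (.q 320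
      1000) (.sub (.q 63 100) (.var 2)))))), (emb (.sub (.neg (.var 3)) (.mul (.q 340 1000) (.sub
      (.q 80 100) (.var 2))))), (emb (.neg (.var 1)))] 22
      8
      [V.of 10000 3300 3600 0, V.of 10000 (-50) 570 0, V.of 10000 5800 6000 0, V.of 10000 (-985)
        960 0] = true := by
    decide +kernel
  obtain ⟨f, hf, hp⟩ := chkT4 h (by norm_num) (x := x) (y := T) (z := s) (w := k)
    (le_trans (by norm_num) a0) (le_trans b0 (by norm_num))
    (le_trans (by norm_num) a1) (le_trans b1 (by norm_num))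
    (le_trans (by norm_num) a2) (le_trans b2 (by norm_num))
    (le_trans (by norm_num) a3) (le_trans b3 (by norm_num))
  simp only [List.mem_cons, List.not_mem_nil, or_false] at hf
  rcases hf with rfl | rfl | rfl | rfl | rfl | rfl
  · simp only [MR.e2_val, MR.en2_val, MR.eb2_val, NumU.E.val, NumI.E.val, NumI.lkR] at hp
    push_cast at hp
    try simp only [div_one] at hp
    linarith only [hp]
  · simp only [MR.e2_val, MR.en2_val, MR.eb2_val, NumU.E.val, NumI.E.val, NumI.lkR] at hp
    push_cast at hp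
    try simp only [div_one] at hp
    exfalso
    linarith only [b0, b2, hp]
  · simp only [MR.e2_val, MR.en2_val, MR.eb2_val, NumU.E.val, NumI.E.val, NumI.lkR] at hp
    push_cast at hp
    try simp only [div_one] at hp
    exfalso
    linarith only [c1, hp]
  · simp only [MR.e2_val, MR.en2_val, MR.eb2_val, NumU.E.val, NumI.E.val, NumI.lkR] at hp
    push_cast at hp
    try simp only [div_one] at hp
    exfalso
    linarith only [c2, hp]
  · simp only [MR.e2_val, MR.en2_val, MR.eb2_val, NumU.E.val, NumI.E.val, NumI.lkR] at hp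
    push_cast at hp
    try simp only [div_one] at hp
    exfalso
    linarith only [c3, hp]
  · simp only [MR.e2_val, MR.en2_val, MR.eb2_val, NumU.E.val, NumI.E.val, NumI.lkR] at hp
    push_cast at hp
    try simp only [div_one] at hp
    exfalso
    linarith only [c4, hp]

/-- 13 boxes -/
theorem z30ha {x T s k : ℝ} (a0 : 3600 / 10000 ≤ x) (b0 : x ≤ 3700 / 10000) (a1 : -50 / 10000 ≤ T) (b1 : T ≤ 570 / 10000)
    (a2 : 700 / 10000 ≤ s) (b2 : s ≤ 1250 / 10000) (a3 : -1075 / 10000 ≤ k) (b3 : k ≤ 960 / 10000)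
    :
    0 < ((-13 / 100) - ((MR.s2 ((-100 / 30) * T) x (T * ((100 / 30) * ((6 / 10) - x))) s ((8 *
      k) * s)) + (((-100 / 30) * T) * ((1 / 2) * Real.pi)))) := by
  have h : chkT [(emb (.sub (.q (-13) 100) (.add (MR.e2 (.mul (.q (-100) 30) (.var 1)) (.var 0) (.mul (.var
      1) (.mul (.q 100 30) (.sub (.q 6 10) (.var 0)))) (.var 2) (.mul (.mul (.q 8 1) (.var 3))
      (.var 2))) (.mul (.mul (.q (-100) 30) (.var 1)) (.mul (.q 1 2) .pi)))))] 22
      675975142092254328268794331779
      [V.of 10000 3600 3700 0, V.of 10000 (-50) 570 0, V.of 10000 700 1250 0, V.of 10000 (-1075)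
        960 0] = true := by
    decide +kernel
  obtain ⟨f, hf, hp⟩ := chkT4 h (by norm_num) (x := x) (y := T) (z := s) (w := k)
    (le_trans (by norm_num) a0) (le_trans b0 (by norm_num))
    (le_trans (by norm_num) a1) (le_trans b1 (by norm_num))
    (le_trans (by norm_num) a2) (le_trans b2 (by norm_num))
    (le_trans (by norm_num) a3) (le_trans b3 (by norm_num))
  simp only [List.mem_cons, List.not_mem_nil, or_false] at hf
  subst hf
  simp only [MR.e2_val, MR.en2_val, MR.eb2_val, NumU.E.val, NumI.E.val, NumI.lkR] at hp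
  push_cast at hp
  try simp only [div_one] at hp
  linarith only [hp]

/-- 39 boxes -/
theorem z30hb {x T s k : ℝ} (a0 : 3600 / 10000 ≤ x) (b0 : x ≤ 3700 / 10000) (a1 : -50 / 10000 ≤ T) (b1 : T ≤ 570 / 10000)
    (a2 : 1250 / 10000 ≤ s) (b2 : s ≤ 5800 / 10000) (a3 : -985 / 10000 ≤ k) (b3 : k ≤ 960 / 10000)
    (c0 : (x + s) - (94 / 100) ≤ 0) :
    0 < ((-13 / 100) - ((MR.s2 ((-100 / 30) * T) x (T * ((100 / 30) * ((6 / 10) - x))) s k) +
      (((-100 / 30) * T) * ((1 / 2) * Real.pi)))) := by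
  have h : chkT [(emb (.sub (.q (-13) 100) (.add (MR.e2 (.mul (.q (-100) 30) (.var 1)) (.var 0) (.mul (.var
      1) (.mul (.q 100 30) (.sub (.q 6 10) (.var 0)))) (.var 2) (.var 3)) (.mul (.mul (.q (-100)
      30) (.var 1)) (.mul (.q 1 2) .pi))))), (emb (.sub (.add (.var 0) (.var 2)) (.q 94 100)))] 22
      277231881433640932464424463042789031546277956447952506424268291937468430765156748871688487714
      [V.of 10000 3600 3700 0, V.of 10000 (-50) 570 0, V.of 10000 1250 5800 0, V.of 10000 (-985)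
        960 0] = true := by
    decide +kernel
  obtain ⟨f, hf, hp⟩ := chkT4 h (by norm_num) (x := x) (y := T) (z := s) (w := k)
    (le_trans (by norm_num) a0) (le_trans b0 (by norm_num))
    (le_trans (by norm_num) a1) (le_trans b1 (by norm_num))
    (le_trans (by norm_num) a2) (le_trans b2 (by norm_num))
    (le_trans (by norm_num) a3) (le_trans b3 (by norm_num))
  simp only [List.mem_cons, List.not_mem_nil, or_false] at hf
  rcases hf with rfl | rfl
  · simp only [MR.e2_val, MR.en2_val, MR.eb2_val, NumU.E.val, NumI.E.val, NumI.lkR] at hp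
    push_cast at hp
    try simp only [div_one] at hp
    linarith only [hp]
  · simp only [MR.e2_val, MR.en2_val, MR.eb2_val, NumU.E.val, NumI.E.val, NumI.lkR] at hp
    push_cast at hp
    try simp only [div_one] at hp
    exfalso
    linarith only [c0, hp]

/-- 1 boxes -/
theorem z30hcp {x T s k : ℝ} (a0 : 3600 / 10000 ≤ x) (b0 : x ≤ 3700 / 10000) (a1 : -50 / 10000 ≤ T) (b1 : T ≤ 570 / 10000)
    (a2 : 5700 / 10000 ≤ s) (b2 : s ≤ 6000 / 10000) (a3 : -985 / 10000 ≤ k) (b3 : k ≤ 960 / 10000)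
    (c0 : (x + s) - (106 / 100) ≤ 0) (c1 : (94 / 100) - (x + s) ≤ 0) (c2 : k - ((11 / 1000) +
    ((320 / 1000) * ((63 / 100) - s))) ≤ 0) (c3 : (-k) - ((340 / 1000) * ((80 / 100) - s)) ≤ 0)
    (c4 : T ≤ 0) :
    0 < ((-13 / 100) - ((MR.n2 0 1 ((-100 / 30) * T) x (T * ((100 / 30) * ((6 / 10) - x))) s k)
      + (((-100 / 30) * T) * ((1 / 2) * Real.pi)))) := by
  have h : chkT [(emb (.sub (.q (-13) 100) (.add (MR.en2 (.q 0 1) (.q 1 1) (.mul (.q (-100) 30) (.var 1))
      (.var 0) (.mul (.var 1) (.mul (.q 100 30) (.sub (.q 6 10) (.var 0)))) (.var 2) (.var 3))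
      (.mul (.mul (.q (-100) 30) (.var 1)) (.mul (.q 1 2) .pi))))), (emb (.sub (.add (.var 0)
      (.var 2)) (.q 106 100))), (emb (.sub (.q 94 100) (.add (.var 0) (.var 2)))), (emb (.sub
      (.var 3) (.add (.q 11 1000) (.mul (.q 320 1000) (.sub (.q 63 100) (.var 2)))))), (emb (.sub
      (.neg (.var 3)) (.mul (.q 340 1000) (.sub (.q 80 100) (.var 2))))), (emb (.var 1))] 22
      8
      [V.of 10000 3600 3700 0, V.of 10000 (-50) 570 0, V.of 10000 5700 6000 0, V.of 10000 (-985)
        960 0] = true := by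
    decide +kernel
  obtain ⟨f, hf, hp⟩ := chkT4 h (by norm_num) (x := x) (y := T) (z := s) (w := k)
    (le_trans (by norm_num) a0) (le_trans b0 (by norm_num))
    (le_trans (by norm_num) a1) (le_trans b1 (by norm_num))
    (le_trans (by norm_num) a2) (le_trans b2 (by norm_num))
    (le_trans (by norm_num) a3) (le_trans b3 (by norm_num))
  simp only [List.mem_cons, List.not_mem_nil, or_false] at hf
  rcases hf with rfl | rfl | rfl | rfl | rfl | rfl
  · simp only [MR.e2_val, MR.en2_val, MR.eb2_val, NumU.E.val, NumI.E.val, NumI.lkR] at hp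
    push_cast at hp
    try simp only [div_one] at hp
    linarith only [hp]
  · simp only [MR.e2_val, MR.en2_val, MR.eb2_val, NumU.E.val, NumI.E.val, NumI.lkR] at hp
    push_cast at hp
    try simp only [div_one] at hp
    exfalso
    linarith only [b0, b2, hp]
  · simp only [MR.e2_val, MR.en2_val, MR.eb2_val, NumU.E.val, NumI.E.val, NumI.lkR] at hp
    push_cast at hp
    try simp only [div_one] at hp
    exfalso
    linarith only [c1, hp]
  · simp only [MR.e2_val, MR.en2_val, MR.eb2_val, NumU.E.val, NumI.E.val, NumI.lkR] at hp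
    push_cast at hp
    try simp only [div_one] at hp
    exfalso
    linarith only [c2, hp]
  · simp only [MR.e2_val, MR.en2_val, MR.eb2_val, NumU.E.val, NumI.E.val, NumI.lkR] at hp
    push_cast at hp
    try simp only [div_one] at hp
    exfalso
    linarith only [c3, hp]
  · simp only [MR.e2_val, MR.en2_val, MR.eb2_val, NumU.E.val, NumI.E.val, NumI.lkR] at hp
    push_cast at hp
    try simp only [div_one] at hp
    exfalso
    linarith only [c4, hp]

/-- 1 boxes -/
theorem z30hcn {x T s k : ℝ} (a0 : 3600 / 10000 ≤ x) (b0 : x ≤ 3700 / 10000) (a1 : -50 / 10000 ≤ T) (b1 : T ≤ 570 / 10000)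
    (a2 : 5700 / 10000 ≤ s) (b2 : s ≤ 6000 / 10000) (a3 : -985 / 10000 ≤ k) (b3 : k ≤ 960 / 10000)
    (c0 : (x + s) - (106 / 100) ≤ 0) (c1 : (94 / 100) - (x + s) ≤ 0) (c2 : k - ((11 / 1000) +
    ((320 / 1000) * ((63 / 100) - s))) ≤ 0) (c3 : (-k) - ((340 / 1000) * ((80 / 100) - s)) ≤ 0)
    (c4 : -T ≤ 0) :
    0 < ((-13 / 100) - ((MR.n2 0 (-1) ((-100 / 30) * T) x (T * ((100 / 30) * ((6 / 10) - x))) s
      k) + (((-100 / 30) * T) * ((1 / 2) * Real.pi)))) := by
  have h : chkT [(emb (.sub (.q (-13) 100) (.add (MR.en2 (.q 0 1) (.q (-1) 1) (.mul (.q (-100) 30) (.var 1))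
      (.var 0) (.mul (.var 1) (.mul (.q 100 30) (.sub (.q 6 10) (.var 0)))) (.var 2) (.var 3))
      (.mul (.mul (.q (-100) 30) (.var 1)) (.mul (.q 1 2) .pi))))), (emb (.sub (.add (.var 0)
      (.var 2)) (.q 106 100))), (emb (.sub (.q 94 100) (.add (.var 0) (.var 2)))), (emb (.sub
      (.var 3) (.add (.q 11 1000) (.mul (.q 320 1000) (.sub (.q 63 100) (.var 2)))))), (emb (.sub
      (.neg (.var 3)) (.mul (.q 340 1000) (.sub (.q 80 100) (.var 2))))), (emb (.neg (.var 1)))] 22
      8
      [V.of 10000 3600 3700 0, V.of 10000 (-50) 570 0, V.of 10000 5700 6000 0, V.of 10000 (-985)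
        960 0] = true := by
    decide +kernel
  obtain ⟨f, hf, hp⟩ := chkT4 h (by norm_num) (x := x) (y := T) (z := s) (w := k)
    (le_trans (by norm_num) a0) (le_trans b0 (by norm_num))
    (le_trans (by norm_num) a1) (le_trans b1 (by norm_num))
    (le_trans (by norm_num) a2) (le_trans b2 (by norm_num))
    (le_trans (by norm_num) a3) (le_trans b3 (by norm_num))
  simp only [List.mem_cons, List.not_mem_nil, or_false] at hf
  rcases hf with rfl | rfl | rfl | rfl | rfl | rfl
  · simp only [MR.e2_val, MR.en2_val, MR.eb2_val, NumU.E.val, NumI.E.val, NumI.lkR] at hp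
    push_cast at hp
    try simp only [div_one] at hp
    linarith only [hp]
  · simp only [MR.e2_val, MR.en2_val, MR.eb2_val, NumU.E.val, NumI.E.val, NumI.lkR] at hp
    push_cast at hp
    try simp only [div_one] at hp
    exfalso
    linarith only [b0, b2, hp]
  · simp only [MR.e2_val, MR.en2_val, MR.eb2_val, NumU.E.val, NumI.E.val, NumI.lkR] at hp
    push_cast at hp
    try simp only [div_one] at hp
    exfalso
    linarith only [c1, hp]
  · simp only [MR.e2_val, MR.en2_val, MR.eb2_val, NumU.E.val, NumI.E.val, NumI.lkR] at hp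
    push_cast at hp
    try simp only [div_one] at hp
    exfalso
    linarith only [c2, hp]
  · simp only [MR.e2_val, MR.en2_val, MR.eb2_val, NumU.E.val, NumI.E.val, NumI.lkR] at hp
    push_cast at hp
    try simp only [div_one] at hp
    exfalso
    linarith only [c3, hp]
  · simp only [MR.e2_val, MR.en2_val, MR.eb2_val, NumU.E.val, NumI.E.val, NumI.lkR] at hp
    push_cast at hp
    try simp only [div_one] at hp
    exfalso
    linarith only [c4, hp]

/-- 20 boxes -/
theorem z30ka {x T s k : ℝ} (a0 : 3700 / 10000 ≤ x) (b0 : x ≤ 5400 / 10000) (a1 : -50 / 10000 ≤ T) (b1 : T ≤ 570 / 10000)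
    (a2 : 700 / 10000 ≤ s) (b2 : s ≤ 1250 / 10000) (a3 : -1075 / 10000 ≤ k) (b3 : k ≤ 960 / 10000)
    :
    0 < ((-14 / 100) - ((MR.s2 ((-100 / 30) * T) x (T * ((100 / 30) * ((6 / 10) - x))) s ((8 *
      k) * s)) + (((-100 / 30) * T) * ((1 / 2) * Real.pi)))) := by
  have h : chkT [(emb (.sub (.q (-14) 100) (.add (MR.e2 (.mul (.q (-100) 30) (.var 1)) (.var 0) (.mul (.var
      1) (.mul (.q 100 30) (.sub (.q 6 10) (.var 0)))) (.var 2) (.mul (.mul (.q 8 1) (.var 3))
      (.var 2))) (.mul (.mul (.q (-100) 30) (.var 1)) (.mul (.q 1 2) .pi)))))] 22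
      48605176677838651014568223815996371269709858864
      [V.of 10000 3700 5400 0, V.of 10000 (-50) 570 0, V.of 10000 700 1250 0, V.of 10000 (-1075)
        960 0] = true := by
    decide +kernel
  obtain ⟨f, hf, hp⟩ := chkT4 h (by norm_num) (x := x) (y := T) (z := s) (w := k)
    (le_trans (by norm_num) a0) (le_trans b0 (by norm_num))
    (le_trans (by norm_num) a1) (le_trans b1 (by norm_num))
    (le_trans (by norm_num) a2) (le_trans b2 (by norm_num))
    (le_trans (by norm_num) a3) (le_trans b3 (by norm_num))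
  simp only [List.mem_cons, List.not_mem_nil, or_false] at hf
  subst hf
  simp only [MR.e2_val, MR.en2_val, MR.eb2_val, NumU.E.val, NumI.E.val, NumI.lkR] at hp
  push_cast at hp
  try simp only [div_one] at hp
  linarith only [hp]

/-- 165 boxes -/
theorem z30kb {x T s k : ℝ} (a0 : 3700 / 10000 ≤ x) (b0 : x ≤ 5400 / 10000) (a1 : -50 / 10000 ≤ T) (b1 : T ≤ 570 / 10000)
    (a2 : 1250 / 10000 ≤ s) (b2 : s ≤ 5700 / 10000) (a3 : -985 / 10000 ≤ k) (b3 : k ≤ 960 / 10000)
    (c0 : (x + s) - (94 / 100) ≤ 0) :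
    0 < ((-14 / 100) - ((MR.s2 ((-100 / 30) * T) x (T * ((100 / 30) * ((6 / 10) - x))) s k) +
      (((-100 / 30) * T) * ((1 / 2) * Real.pi)))) := by
  have h : chkT [(emb (.sub (.q (-14) 100) (.add (MR.e2 (.mul (.q (-100) 30) (.var 1)) (.var 0) (.mul (.var
      1) (.mul (.q 100 30) (.sub (.q 6 10) (.var 0)))) (.var 2) (.var 3)) (.mul (.mul (.q (-100)
      30) (.var 1)) (.mul (.q 1 2) .pi))))), (emb (.sub (.add (.var 0) (.var 2)) (.q 94 100)))] 22
      858271727607676626409138475030189977651411209559316644967320754287181255227935770724892899144524465100069855995955025520961317058912854744034830226642146912846561658154096454900439720226578807686633137716492882666124269551072122606719882881935687561362879960202905790756398294969751478745817917822646653877076874688834770088992858808515847563979452481659499186278851845650712680661838826228035618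
      [V.of 10000 3700 5400 0, V.of 10000 (-50) 570 0, V.of 10000 1250 5700 0, V.of 10000 (-985)
        960 0] = true := by
    decide +kernel
  obtain ⟨f, hf, hp⟩ := chkT4 h (by norm_num) (x := x) (y := T) (z := s) (w := k)
    (le_trans (by norm_num) a0) (le_trans b0 (by norm_num))
    (le_trans (by norm_num) a1) (le_trans b1 (by norm_num))
    (le_trans (by norm_num) a2) (le_trans b2 (by norm_num))
    (le_trans (by norm_num) a3) (le_trans b3 (by norm_num))
  simp only [List.mem_cons, List.not_mem_nil, or_false] at hf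
  rcases hf with rfl | rfl
  · simp only [MR.e2_val, MR.en2_val, MR.eb2_val, NumU.E.val, NumI.E.val, NumI.lkR] at hp
    push_cast at hp
    try simp only [div_one] at hp
    linarith only [hp]
  · simp only [MR.e2_val, MR.en2_val, MR.eb2_val, NumU.E.val, NumI.E.val, NumI.lkR] at hp
    push_cast at hp
    try simp only [div_one] at hp
    exfalso
    linarith only [c0, hp]

/-- 1 boxes -/
theorem z30kcp {x T s k : ℝ} (a0 : 3700 / 10000 ≤ x) (b0 : x ≤ 5400 / 10000) (a1 : -50 / 10000 ≤ T) (b1 : T ≤ 570 / 10000)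
    (a2 : 4000 / 10000 ≤ s) (b2 : s ≤ 6000 / 10000) (a3 : -985 / 10000 ≤ k) (b3 : k ≤ 960 / 10000)
    (c0 : (x + s) - (106 / 100) ≤ 0) (c1 : (94 / 100) - (x + s) ≤ 0) (c2 : k - ((11 / 1000) +
    ((320 / 1000) * ((63 / 100) - s))) ≤ 0) (c3 : (-k) - ((340 / 1000) * ((80 / 100) - s)) ≤ 0)
    (c4 : T ≤ 0) :
    0 < ((-14 / 100) - ((MR.n2 0 1 ((-100 / 30) * T) x (T * ((100 / 30) * ((6 / 10) - x))) s k)
      + (((-100 / 30) * T) * ((1 / 2) * Real.pi)))) := by
  have h : chkT [(emb (.sub (.q (-14) 100) (.add (MR.en2 (.q 0 1) (.q 1 1) (.mul (.q (-100) 30) (.var 1))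
      (.var 0) (.mul (.var 1) (.mul (.q 100 30) (.sub (.q 6 10) (.var 0)))) (.var 2) (.var 3))
      (.mul (.mul (.q (-100) 30) (.var 1)) (.mul (.q 1 2) .pi))))), (emb (.sub (.add (.var 0)
      (.var 2)) (.q 106 100))), (emb (.sub (.q 94 100) (.add (.var 0) (.var 2)))), (emb (.sub
      (.var 3) (.add (.q 11 1000) (.mul (.q 320 1000) (.sub (.q 63 100) (.var 2)))))), (emb (.sub
      (.neg (.var 3)) (.mul (.q 340 1000) (.sub (.q 80 100) (.var 2))))), (emb (.var 1))] 22
      8
      [V.of 10000 3700 5400 0, V.of 10000 (-50) 570 0, V.of 10000 4000 6000 0, V.of 10000 (-985)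
        960 0] = true := by
    decide +kernel
  obtain ⟨f, hf, hp⟩ := chkT4 h (by norm_num) (x := x) (y := T) (z := s) (w := k)
    (le_trans (by norm_num) a0) (le_trans b0 (by norm_num))
    (le_trans (by norm_num) a1) (le_trans b1 (by norm_num))
    (le_trans (by norm_num) a2) (le_trans b2 (by norm_num))
    (le_trans (by norm_num) a3) (le_trans b3 (by norm_num))
  simp only [List.mem_cons, List.not_mem_nil, or_false] at hf
  rcases hf with rfl | rfl | rfl | rfl | rfl | rfl
  · simp only [MR.e2_val, MR.en2_val, MR.eb2_val, NumU.E.val, NumI.E.val, NumI.lkR] at hp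
    push_cast at hp
    try simp only [div_one] at hp
    linarith only [hp]
  · simp only [MR.e2_val, MR.en2_val, MR.eb2_val, NumU.E.val, NumI.E.val, NumI.lkR] at hp
    push_cast at hp
    try simp only [div_one] at hp
    exfalso
    linarith only [c0, hp]
  · simp only [MR.e2_val, MR.en2_val, MR.eb2_val, NumU.E.val, NumI.E.val, NumI.lkR] at hp
    push_cast at hp
    try simp only [div_one] at hp
    exfalso
    linarith only [c1, hp]
  · simp only [MR.e2_val, MR.en2_val, MR.eb2_val, NumU.E.val, NumI.E.val, NumI.lkR] at hp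
    push_cast at hp
    try simp only [div_one] at hp
    exfalso
    linarith only [c2, hp]
  · simp only [MR.e2_val, MR.en2_val, MR.eb2_val, NumU.E.val, NumI.E.val, NumI.lkR] at hp
    push_cast at hp
    try simp only [div_one] at hp
    exfalso
    linarith only [c3, hp]
  · simp only [MR.e2_val, MR.en2_val, MR.eb2_val, NumU.E.val, NumI.E.val, NumI.lkR] at hp
    push_cast at hp
    try simp only [div_one] at hp
    exfalso
    linarith only [c4, hp]

/-- 1 boxes -/
theorem z30kcn {x T s k : ℝ} (a0 : 3700 / 10000 ≤ x) (b0 : x ≤ 5400 / 10000) (a1 : -50 / 10000 ≤ T) (b1 : T ≤ 570 / 10000)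
    (a2 : 4000 / 10000 ≤ s) (b2 : s ≤ 6000 / 10000) (a3 : -985 / 10000 ≤ k) (b3 : k ≤ 960 / 10000)
    (c0 : (x + s) - (106 / 100) ≤ 0) (c1 : (94 / 100) - (x + s) ≤ 0) (c2 : k - ((11 / 1000) +
    ((320 / 1000) * ((63 / 100) - s))) ≤ 0) (c3 : (-k) - ((340 / 1000) * ((80 / 100) - s)) ≤ 0)
    (c4 : -T ≤ 0) :
    0 < ((-14 / 100) - ((MR.n2 0 (-1) ((-100 / 30) * T) x (T * ((100 / 30) * ((6 / 10) - x))) s
      k) + (((-100 / 30) * T) * ((1 / 2) * Real.pi)))) := by
  have h : chkT [(emb (.sub (.q (-14) 100) (.add (MR.en2 (.q 0 1) (.q (-1) 1) (.mul (.q (-100) 30) (.var 1))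
      (.var 0) (.mul (.var 1) (.mul (.q 100 30) (.sub (.q 6 10) (.var 0)))) (.var 2) (.var 3))
      (.mul (.mul (.q (-100) 30) (.var 1)) (.mul (.q 1 2) .pi))))), (emb (.sub (.add (.var 0)
      (.var 2)) (.q 106 100))), (emb (.sub (.q 94 100) (.add (.var 0) (.var 2)))), (emb (.sub
      (.var 3) (.add (.q 11 1000) (.mul (.q 320 1000) (.sub (.q 63 100) (.var 2)))))), (emb (.sub
      (.neg (.var 3)) (.mul (.q 340 1000) (.sub (.q 80 100) (.var 2))))), (emb (.neg (.var 1)))] 22
      8
      [V.of 10000 3700 5400 0, V.of 10000 (-50) 570 0, V.of 10000 4000 6000 0, V.of 10000 (-985)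
        960 0] = true := by
    decide +kernel
  obtain ⟨f, hf, hp⟩ := chkT4 h (by norm_num) (x := x) (y := T) (z := s) (w := k)
    (le_trans (by norm_num) a0) (le_trans b0 (by norm_num))
    (le_trans (by norm_num) a1) (le_trans b1 (by norm_num))
    (le_trans (by norm_num) a2) (le_trans b2 (by norm_num))
    (le_trans (by norm_num) a3) (le_trans b3 (by norm_num))
  simp only [List.mem_cons, List.not_mem_nil, or_false] at hf
  rcases hf with rfl | rfl | rfl | rfl | rfl | rfl
  · simp only [MR.e2_val, MR.en2_val, MR.eb2_val, NumU.E.val, NumI.E.val, NumI.lkR] at hp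
    push_cast at hp
    try simp only [div_one] at hp
    linarith only [hp]
  · simp only [MR.e2_val, MR.en2_val, MR.eb2_val, NumU.E.val, NumI.E.val, NumI.lkR] at hp
    push_cast at hp
    try simp only [div_one] at hp
    exfalso
    linarith only [c0, hp]
  · simp only [MR.e2_val, MR.en2_val, MR.eb2_val, NumU.E.val, NumI.E.val, NumI.lkR] at hp
    push_cast at hp
    try simp only [div_one] at hp
    exfalso
    linarith only [c1, hp]
  · simp only [MR.e2_val, MR.en2_val, MR.eb2_val, NumU.E.val, NumI.E.val, NumI.lkR] at hp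
    push_cast at hp
    try simp only [div_one] at hp
    exfalso
    linarith only [c2, hp]
  · simp only [MR.e2_val, MR.en2_val, MR.eb2_val, NumU.E.val, NumI.E.val, NumI.lkR] at hp
    push_cast at hp
    try simp only [div_one] at hp
    exfalso
    linarith only [c3, hp]
  · simp only [MR.e2_val, MR.en2_val, MR.eb2_val, NumU.E.val, NumI.E.val, NumI.lkR] at hp
    push_cast at hp
    try simp only [div_one] at hp
    exfalso
    linarith only [c4, hp]

/-- 25 boxes -/
theorem z30kdp {x T s k : ℝ} (a0 : 3700 / 10000 ≤ x) (b0 : x ≤ 5400 / 10000) (a1 : -50 / 10000 ≤ T) (b1 : T ≤ 570 / 10000)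
    (a2 : 5200 / 10000 ≤ s) (b2 : s ≤ 6000 / 10000) (a3 : -985 / 10000 ≤ k) (b3 : k ≤ 960 / 10000)
    (c0 : (106 / 100) - (x + s) ≤ 0) (c1 : k - ((11 / 1000) + ((320 / 1000) * ((63 / 100) - s))) ≤
    0) (c2 : (-k) - ((340 / 1000) * ((80 / 100) - s)) ≤ 0) (c3 : T ≤ 0) :
    0 < ((-14 / 100) - ((MR.b2 1 ((-100 / 30) * T) x (T * ((100 / 30) * ((6 / 10) - x))) s k) +
      (((-100 / 30) * T) * ((1 / 2) * Real.pi)))) := by
  have h : chkT [(emb (.sub (.q (-14) 100) (.add (MR.eb2 (.q 1 1) (.mul (.q (-100) 30) (.var 1)) (.var 0)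
      (.mul (.var 1) (.mul (.q 100 30) (.sub (.q 6 10) (.var 0)))) (.var 2) (.var 3)) (.mul (.mul
      (.q (-100) 30) (.var 1)) (.mul (.q 1 2) .pi))))), (emb (.sub (.q 106 100) (.add (.var 0)
      (.var 2)))), (emb (.sub (.var 3) (.add (.q 11 1000) (.mul (.q 320 1000) (.sub (.q 63 100)
      (.var 2)))))), (emb (.sub (.neg (.var 3)) (.mul (.q 340 1000) (.sub (.q 80 100) (.var
      2))))), (emb (.var 1))] 22
      80343428570240230200139470673669974720930006897540073591184
      [V.of 10000 3700 5400 0, V.of 10000 (-50) 570 0, V.of 10000 5200 6000 0, V.of 10000 (-985)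
        960 0] = true := by
    decide +kernel
  obtain ⟨f, hf, hp⟩ := chkT4 h (by norm_num) (x := x) (y := T) (z := s) (w := k)
    (le_trans (by norm_num) a0) (le_trans b0 (by norm_num))
    (le_trans (by norm_num) a1) (le_trans b1 (by norm_num))
    (le_trans (by norm_num) a2) (le_trans b2 (by norm_num))
    (le_trans (by norm_num) a3) (le_trans b3 (by norm_num))
  simp only [List.mem_cons, List.not_mem_nil, or_false] at hf
  rcases hf with rfl | rfl | rfl | rfl | rfl
  · simp only [MR.e2_val, MR.en2_val, MR.eb2_val, NumU.E.val, NumI.E.val, NumI.lkR] at hp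
    push_cast at hp
    try simp only [div_one] at hp
    linarith only [hp]
  · simp only [MR.e2_val, MR.en2_val, MR.eb2_val, NumU.E.val, NumI.E.val, NumI.lkR] at hp
    push_cast at hp
    try simp only [div_one] at hp
    exfalso
    linarith only [c0, hp]
  · simp only [MR.e2_val, MR.en2_val, MR.eb2_val, NumU.E.val, NumI.E.val, NumI.lkR] at hp
    push_cast at hp
    try simp only [div_one] at hp
    exfalso
    linarith only [c1, hp]
  · simp only [MR.e2_val, MR.en2_val, MR.eb2_val, NumU.E.val, NumI.E.val, NumI.lkR] at hp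
    push_cast at hp
    try simp only [div_one] at hp
    exfalso
    linarith only [c2, hp]
  · simp only [MR.e2_val, MR.en2_val, MR.eb2_val, NumU.E.val, NumI.E.val, NumI.lkR] at hp
    push_cast at hp
    try simp only [div_one] at hp
    exfalso
    linarith only [c3, hp]

/-- 38 boxes -/
theorem z30kdn {x T s k : ℝ} (a0 : 3700 / 10000 ≤ x) (b0 : x ≤ 5400 / 10000) (a1 : -50 / 10000 ≤ T) (b1 : T ≤ 570 / 10000)
    (a2 : 5200 / 10000 ≤ s) (b2 : s ≤ 6000 / 10000) (a3 : -985 / 10000 ≤ k) (b3 : k ≤ 960 / 10000)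
    (c0 : (106 / 100) - (x + s) ≤ 0) (c1 : k - ((11 / 1000) + ((320 / 1000) * ((63 / 100) - s))) ≤
    0) (c2 : (-k) - ((340 / 1000) * ((80 / 100) - s)) ≤ 0) (c3 : -T ≤ 0) :
    0 < ((-14 / 100) - ((MR.b2 (-1) ((-100 / 30) * T) x (T * ((100 / 30) * ((6 / 10) - x))) s k)
      + (((-100 / 30) * T) * ((1 / 2) * Real.pi)))) := by
  have h : chkT [(emb (.sub (.q (-14) 100) (.add (MR.eb2 (.q (-1) 1) (.mul (.q (-100) 30) (.var 1)) (.var 0)
      (.mul (.var 1) (.mul (.q 100 30) (.sub (.q 6 10) (.var 0)))) (.var 2) (.var 3)) (.mul (.mul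
      (.q (-100) 30) (.var 1)) (.mul (.q 1 2) .pi))))), (emb (.sub (.q 106 100) (.add (.var 0)
      (.var 2)))), (emb (.sub (.var 3) (.add (.q 11 1000) (.mul (.q 320 1000) (.sub (.q 63 100)
      (.var 2)))))), (emb (.sub (.neg (.var 3)) (.mul (.q 340 1000) (.sub (.q 80 100) (.var
      2))))), (emb (.neg (.var 1)))] 22
      1341034114389848040327403610027751181734495759681085397121998122497100274708858275186619280
      [V.of 10000 3700 5400 0, V.of 10000 (-50) 570 0, V.of 10000 5200 6000 0, V.of 10000 (-985)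
        960 0] = true := by
    decide +kernel
  obtain ⟨f, hf, hp⟩ := chkT4 h (by norm_num) (x := x) (y := T) (z := s) (w := k)
    (le_trans (by norm_num) a0) (le_trans b0 (by norm_num))
    (le_trans (by norm_num) a1) (le_trans b1 (by norm_num))
    (le_trans (by norm_num) a2) (le_trans b2 (by norm_num))
    (le_trans (by norm_num) a3) (le_trans b3 (by norm_num))
  simp only [List.mem_cons, List.not_mem_nil, or_false] at hf
  rcases hf with rfl | rfl | rfl | rfl | rfl
  · simp only [MR.e2_val, MR.en2_val, MR.eb2_val, NumU.E.val, NumI.E.val, NumI.lkR] at hp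
    push_cast at hp
    try simp only [div_one] at hp
    linarith only [hp]
  · simp only [MR.e2_val, MR.en2_val, MR.eb2_val, NumU.E.val, NumI.E.val, NumI.lkR] at hp
    push_cast at hp
    try simp only [div_one] at hp
    exfalso
    linarith only [c0, hp]
  · simp only [MR.e2_val, MR.en2_val, MR.eb2_val, NumU.E.val, NumI.E.val, NumI.lkR] at hp
    push_cast at hp
    try simp only [div_one] at hp
    exfalso
    linarith only [c1, hp]
  · simp only [MR.e2_val, MR.en2_val, MR.eb2_val, NumU.E.val, NumI.E.val, NumI.lkR] at hp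
    push_cast at hp
    try simp only [div_one] at hp
    exfalso
    linarith only [c2, hp]
  · simp only [MR.e2_val, MR.en2_val, MR.eb2_val, NumU.E.val, NumI.E.val, NumI.lkR] at hp
    push_cast at hp
    try simp only [div_one] at hp
    exfalso
    linarith only [c3, hp]

/-- 4 boxes -/
theorem e30ia {x T s k : ℝ} (a0 : 3000 / 10000 ≤ x) (b0 : x ≤ 4000 / 10000) (a1 : -130 / 10000 ≤ T) (b1 : T ≤ 260 / 10000)
    (a2 : 700 / 10000 ≤ s) (b2 : s ≤ 1250 / 10000) (a3 : -1075 / 10000 ≤ k) (b3 : k ≤ 960 / 10000)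
    :
    0 < ((25 / 100) - (MR.s2 ((-100 / 30) * T) x (T * ((100 / 30) * ((6 / 10) - x))) s ((8 * k)
      * s))) := by
  have h : chkT [(emb (.sub (.q 25 100) (MR.e2 (.mul (.q (-100) 30) (.var 1)) (.var 0) (.mul (.var 1) (.mul
      (.q 100 30) (.sub (.q 6 10) (.var 0)))) (.var 2) (.mul (.mul (.q 8 1) (.var 3)) (.var
      2)))))] 22
      143132704
      [V.of 10000 3000 4000 0, V.of 10000 (-130) 260 0, V.of 10000 700 1250 0, V.of 10000
        (-1075) 960 0] = true := by
    decide +kernel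
  obtain ⟨f, hf, hp⟩ := chkT4 h (by norm_num) (x := x) (y := T) (z := s) (w := k)
    (le_trans (by norm_num) a0) (le_trans b0 (by norm_num))
    (le_trans (by norm_num) a1) (le_trans b1 (by norm_num))
    (le_trans (by norm_num) a2) (le_trans b2 (by norm_num))
    (le_trans (by norm_num) a3) (le_trans b3 (by norm_num))
  simp only [List.mem_cons, List.not_mem_nil, or_false] at hf
  subst hf
  simp only [MR.e2_val, MR.en2_val, MR.eb2_val, NumU.E.val, NumI.E.val, NumI.lkR] at hp
  push_cast at hp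
  try simp only [div_one] at hp
  linarith only [hp]

/-- 60 boxes -/
theorem e30ib {x T s k : ℝ} (a0 : 3000 / 10000 ≤ x) (b0 : x ≤ 4000 / 10000) (a1 : -130 / 10000 ≤ T) (b1 : T ≤ 260 / 10000)
    (a2 : 1250 / 10000 ≤ s) (b2 : s ≤ 6000 / 10000) (a3 : -985 / 10000 ≤ k) (b3 : k ≤ 960 / 10000)
    (c0 : (x + s) - (94 / 100) ≤ 0) :
    0 < ((25 / 100) - (MR.s2 ((-100 / 30) * T) x (T * ((100 / 30) * ((6 / 10) - x))) s k)) := by
  have h : chkT [(emb (.sub (.q 25 100) (MR.e2 (.mul (.q (-100) 30) (.var 1)) (.var 0) (.mul (.var 1) (.mul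
      (.q 100 30) (.sub (.q 6 10) (.var 0)))) (.var 2) (.var 3)))), (emb (.sub (.add (.var 0)
      (.var 2)) (.q 94 100)))] 22
      116237909866212215781392197194126048516473046327776605193694760423754476490088732454566598207934308680912704613426001213061870049149419245809698
      [V.of 10000 3000 4000 0, V.of 10000 (-130) 260 0, V.of 10000 1250 6000 0, V.of 10000
        (-985) 960 0] = true := by
    decide +kernel
  obtain ⟨f, hf, hp⟩ := chkT4 h (by norm_num) (x := x) (y := T) (z := s) (w := k)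
    (le_trans (by norm_num) a0) (le_trans b0 (by norm_num))
    (le_trans (by norm_num) a1) (le_trans b1 (by norm_num))
    (le_trans (by norm_num) a2) (le_trans b2 (by norm_num))
    (le_trans (by norm_num) a3) (le_trans b3 (by norm_num))
  simp only [List.mem_cons, List.not_mem_nil, or_false] at hf
  rcases hf with rfl | rfl
  · simp only [MR.e2_val, MR.en2_val, MR.eb2_val, NumU.E.val, NumI.E.val, NumI.lkR] at hp
    push_cast at hp
    try simp only [div_one] at hp
    linarith only [hp]
  · simp only [MR.e2_val, MR.en2_val, MR.eb2_val, NumU.E.val, NumI.E.val, NumI.lkR] at hp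
    push_cast at hp
    try simp only [div_one] at hp
    exfalso
    linarith only [c0, hp]

/-- 1 boxes -/
theorem e30icp {x T s k : ℝ} (a0 : 3000 / 10000 ≤ x) (b0 : x ≤ 4000 / 10000) (a1 : -130 / 10000 ≤ T) (b1 : T ≤ 260 / 10000)
    (a2 : 5400 / 10000 ≤ s) (b2 : s ≤ 6000 / 10000) (a3 : -985 / 10000 ≤ k) (b3 : k ≤ 960 / 10000)
    (c0 : (x + s) - (106 / 100) ≤ 0) (c1 : (94 / 100) - (x + s) ≤ 0) (c2 : k - ((11 / 1000) +
    ((320 / 1000) * ((63 / 100) - s))) ≤ 0) (c3 : (-k) - ((340 / 1000) * ((80 / 100) - s)) ≤ 0)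
    (c4 : T ≤ 0) :
    0 < ((25 / 100) - (MR.n2 0 1 ((-100 / 30) * T) x (T * ((100 / 30) * ((6 / 10) - x))) s k)) := by
  have h : chkT [(emb (.sub (.q 25 100) (MR.en2 (.q 0 1) (.q 1 1) (.mul (.q (-100) 30) (.var 1)) (.var 0)
      (.mul (.var 1) (.mul (.q 100 30) (.sub (.q 6 10) (.var 0)))) (.var 2) (.var 3)))), (emb
      (.sub (.add (.var 0) (.var 2)) (.q 106 100))), (emb (.sub (.q 94 100) (.add (.var 0) (.var
      2)))), (emb (.sub (.var 3) (.add (.q 11 1000) (.mul (.q 320 1000) (.sub (.q 63 100) (.var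
      2)))))), (emb (.sub (.neg (.var 3)) (.mul (.q 340 1000) (.sub (.q 80 100) (.var 2))))), (emb
      (.var 1))] 22
      8
      [V.of 10000 3000 4000 0, V.of 10000 (-130) 260 0, V.of 10000 5400 6000 0, V.of 10000
        (-985) 960 0] = true := by
    decide +kernel
  obtain ⟨f, hf, hp⟩ := chkT4 h (by norm_num) (x := x) (y := T) (z := s) (w := k)
    (le_trans (by norm_num) a0) (le_trans b0 (by norm_num))
    (le_trans (by norm_num) a1) (le_trans b1 (by norm_num))
    (le_trans (by norm_num) a2) (le_trans b2 (by norm_num))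
    (le_trans (by norm_num) a3) (le_trans b3 (by norm_num))
  simp only [List.mem_cons, List.not_mem_nil, or_false] at hf
  rcases hf with rfl | rfl | rfl | rfl | rfl | rfl
  · simp only [MR.e2_val, MR.en2_val, MR.eb2_val, NumU.E.val, NumI.E.val, NumI.lkR] at hp
    push_cast at hp
    try simp only [div_one] at hp
    linarith only [hp]
  · simp only [MR.e2_val, MR.en2_val, MR.eb2_val, NumU.E.val, NumI.E.val, NumI.lkR] at hp
    push_cast at hp
    try simp only [div_one] at hp
    exfalso
    linarith only [b0, b2, hp]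
  · simp only [MR.e2_val, MR.en2_val, MR.eb2_val, NumU.E.val, NumI.E.val, NumI.lkR] at hp
    push_cast at hp
    try simp only [div_one] at hp
    exfalso
    linarith only [c1, hp]
  · simp only [MR.e2_val, MR.en2_val, MR.eb2_val, NumU.E.val, NumI.E.val, NumI.lkR] at hp
    push_cast at hp
    try simp only [div_one] at hp
    exfalso
    linarith only [c2, hp]
  · simp only [MR.e2_val, MR.en2_val, MR.eb2_val, NumU.E.val, NumI.E.val, NumI.lkR] at hp
    push_cast at hp
    try simp only [div_one] at hp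
    exfalso
    linarith only [c3, hp]
  · simp only [MR.e2_val, MR.en2_val, MR.eb2_val, NumU.E.val, NumI.E.val, NumI.lkR] at hp
    push_cast at hp
    try simp only [div_one] at hp
    exfalso
    linarith only [c4, hp]

/-- 1 boxes -/
theorem e30icn {x T s k : ℝ} (a0 : 3000 / 10000 ≤ x) (b0 : x ≤ 4000 / 10000) (a1 : -130 / 10000 ≤ T) (b1 : T ≤ 260 / 10000)
    (a2 : 5400 / 10000 ≤ s) (b2 : s ≤ 6000 / 10000) (a3 : -985 / 10000 ≤ k) (b3 : k ≤ 960 / 10000)
    (c0 : (x + s) - (106 / 100) ≤ 0) (c1 : (94 / 100) - (x + s) ≤ 0) (c2 : k - ((11 / 1000) +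
    ((320 / 1000) * ((63 / 100) - s))) ≤ 0) (c3 : (-k) - ((340 / 1000) * ((80 / 100) - s)) ≤ 0)
    (c4 : -T ≤ 0) :
    0 < ((25 / 100) - (MR.n2 0 (-1) ((-100 / 30) * T) x (T * ((100 / 30) * ((6 / 10) - x))) s
      k)) := by
  have h : chkT [(emb (.sub (.q 25 100) (MR.en2 (.q 0 1) (.q (-1) 1) (.mul (.q (-100) 30) (.var 1)) (.var 0)
      (.mul (.var 1) (.mul (.q 100 30) (.sub (.q 6 10) (.var 0)))) (.var 2) (.var 3)))), (emb
      (.sub (.add (.var 0) (.var 2)) (.q 106 100))), (emb (.sub (.q 94 100) (.add (.var 0) (.var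
      2)))), (emb (.sub (.var 3) (.add (.q 11 1000) (.mul (.q 320 1000) (.sub (.q 63 100) (.var
      2)))))), (emb (.sub (.neg (.var 3)) (.mul (.q 340 1000) (.sub (.q 80 100) (.var 2))))), (emb
      (.neg (.var 1)))] 22
      8
      [V.of 10000 3000 4000 0, V.of 10000 (-130) 260 0, V.of 10000 5400 6000 0, V.of 10000
        (-985) 960 0] = true := by
    decide +kernel
  obtain ⟨f, hf, hp⟩ := chkT4 h (by norm_num) (x := x) (y := T) (z := s) (w := k)
    (le_trans (by norm_num) a0) (le_trans b0 (by norm_num))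
    (le_trans (by norm_num) a1) (le_trans b1 (by norm_num))
    (le_trans (by norm_num) a2) (le_trans b2 (by norm_num))
    (le_trans (by norm_num) a3) (le_trans b3 (by norm_num))
  simp only [List.mem_cons, List.not_mem_nil, or_false] at hf
  rcases hf with rfl | rfl | rfl | rfl | rfl | rfl
  · simp only [MR.e2_val, MR.en2_val, MR.eb2_val, NumU.E.val, NumI.E.val, NumI.lkR] at hp
    push_cast at hp
    try simp only [div_one] at hp
    linarith only [hp]
  · simp only [MR.e2_val, MR.en2_val, MR.eb2_val, NumU.E.val, NumI.E.val, NumI.lkR] at hp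
    push_cast at hp
    try simp only [div_one] at hp
    exfalso
    linarith only [b0, b2, hp]
  · simp only [MR.e2_val, MR.en2_val, MR.eb2_val, NumU.E.val, NumI.E.val, NumI.lkR] at hp
    push_cast at hp
    try simp only [div_one] at hp
    exfalso
    linarith only [c1, hp]
  · simp only [MR.e2_val, MR.en2_val, MR.eb2_val, NumU.E.val, NumI.E.val, NumI.lkR] at hp
    push_cast at hp
    try simp only [div_one] at hp
    exfalso
    linarith only [c2, hp]
  · simp only [MR.e2_val, MR.en2_val, MR.eb2_val, NumU.E.val, NumI.E.val, NumI.lkR] at hp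
    push_cast at hp
    try simp only [div_one] at hp
    exfalso
    linarith only [c3, hp]
  · simp only [MR.e2_val, MR.en2_val, MR.eb2_val, NumU.E.val, NumI.E.val, NumI.lkR] at hp
    push_cast at hp
    try simp only [div_one] at hp
    exfalso
    linarith only [c4, hp]

/-- 8 boxes -/
theorem e30ja {x T s k : ℝ} (a0 : 4000 / 10000 ≤ x) (b0 : x ≤ 6000 / 10000) (a1 : -130 / 10000 ≤ T) (b1 : T ≤ 260 / 10000)
    (a2 : 700 / 10000 ≤ s) (b2 : s ≤ 1250 / 10000) (a3 : -1075 / 10000 ≤ k) (b3 : k ≤ 960 / 10000)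
    :
    0 < ((-4 / 100) - (MR.s2 ((-100 / 30) * T) x (T * ((100 / 30) * ((6 / 10) - x))) s ((8 * k)
      * s))) := by
  have h : chkT [(emb (.sub (.q (-4) 100) (MR.e2 (.mul (.q (-100) 30) (.var 1)) (.var 0) (.mul (.var 1)
      (.mul (.q 100 30) (.sub (.q 6 10) (.var 0)))) (.var 2) (.mul (.mul (.q 8 1) (.var 3)) (.var
      2)))))] 22
      612634171744978992
      [V.of 10000 4000 6000 0, V.of 10000 (-130) 260 0, V.of 10000 700 1250 0, V.of 10000
        (-1075) 960 0] = true := by
    decide +kernel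
  obtain ⟨f, hf, hp⟩ := chkT4 h (by norm_num) (x := x) (y := T) (z := s) (w := k)
    (le_trans (by norm_num) a0) (le_trans b0 (by norm_num))
    (le_trans (by norm_num) a1) (le_trans b1 (by norm_num))
    (le_trans (by norm_num) a2) (le_trans b2 (by norm_num))
    (le_trans (by norm_num) a3) (le_trans b3 (by norm_num))
  simp only [List.mem_cons, List.not_mem_nil, or_false] at hf
  subst hf
  simp only [MR.e2_val, MR.en2_val, MR.eb2_val, NumU.E.val, NumI.E.val, NumI.lkR] at hp
  push_cast at hp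
  try simp only [div_one] at hp
  linarith only [hp]

/-- 154 boxes -/
theorem e30jb {x T s k : ℝ} (a0 : 4000 / 10000 ≤ x) (b0 : x ≤ 6000 / 10000) (a1 : -130 / 10000 ≤ T) (b1 : T ≤ 260 / 10000)
    (a2 : 1250 / 10000 ≤ s) (b2 : s ≤ 5400 / 10000) (a3 : -985 / 10000 ≤ k) (b3 : k ≤ 960 / 10000)
    (c0 : (x + s) - (94 / 100) ≤ 0) :
    0 < ((-4 / 100) - (MR.s2 ((-100 / 30) * T) x (T * ((100 / 30) * ((6 / 10) - x))) s k)) := by
  have h : chkT [(emb (.sub (.q (-4) 100) (MR.e2 (.mul (.q (-100) 30) (.var 1)) (.var 0) (.mul (.var 1)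
      (.mul (.q 100 30) (.sub (.q 6 10) (.var 0)))) (.var 2) (.var 3)))), (emb (.sub (.add (.var
      0) (.var 2)) (.q 94 100)))] 22
      2773230211996796404330771950744208405519457691461211847908899007941315124623802220338702706193280301496566559545614358834438823186641216950699854073814845587236285902197351247742215434330878615056206377956905742454378910245958138843526052035189653614735600498645462684901217768413374837174941553640697689119619302237641686208157240587570993061004711881256760028051288098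
      [V.of 10000 4000 6000 0, V.of 10000 (-130) 260 0, V.of 10000 1250 5400 0, V.of 10000
        (-985) 960 0] = true := by
    decide +kernel
  obtain ⟨f, hf, hp⟩ := chkT4 h (by norm_num) (x := x) (y := T) (z := s) (w := k)
    (le_trans (by norm_num) a0) (le_trans b0 (by norm_num))
    (le_trans (by norm_num) a1) (le_trans b1 (by norm_num))
    (le_trans (by norm_num) a2) (le_trans b2 (by norm_num))
    (le_trans (by norm_num) a3) (le_trans b3 (by norm_num))
  simp only [List.mem_cons, List.not_mem_nil, or_false] at hf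
  rcases hf with rfl | rfl
  · simp only [MR.e2_val, MR.en2_val, MR.eb2_val, NumU.E.val, NumI.E.val, NumI.lkR] at hp
    push_cast at hp
    try simp only [div_one] at hp
    linarith only [hp]
  · simp only [MR.e2_val, MR.en2_val, MR.eb2_val, NumU.E.val, NumI.E.val, NumI.lkR] at hp
    push_cast at hp
    try simp only [div_one] at hp
    exfalso
    linarith only [c0, hp]

/-- 1 boxes -/
theorem e30jcp {x T s k : ℝ} (a0 : 4000 / 10000 ≤ x) (b0 : x ≤ 6000 / 10000) (a1 : -130 / 10000 ≤ T) (b1 : T ≤ 260 / 10000)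
    (a2 : 3400 / 10000 ≤ s) (b2 : s ≤ 6000 / 10000) (a3 : -985 / 10000 ≤ k) (b3 : k ≤ 960 / 10000)
    (c0 : (x + s) - (106 / 100) ≤ 0) (c1 : (94 / 100) - (x + s) ≤ 0) (c2 : k - ((11 / 1000) +
    ((320 / 1000) * ((63 / 100) - s))) ≤ 0) (c3 : (-k) - ((340 / 1000) * ((80 / 100) - s)) ≤ 0)
    (c4 : T ≤ 0) :
    0 < ((-4 / 100) - (MR.n2 0 1 ((-100 / 30) * T) x (T * ((100 / 30) * ((6 / 10) - x))) s k)) := by
  have h : chkT [(emb (.sub (.q (-4) 100) (MR.en2 (.q 0 1) (.q 1 1) (.mul (.q (-100) 30) (.var 1)) (.var 0)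
      (.mul (.var 1) (.mul (.q 100 30) (.sub (.q 6 10) (.var 0)))) (.var 2) (.var 3)))), (emb
      (.sub (.add (.var 0) (.var 2)) (.q 106 100))), (emb (.sub (.q 94 100) (.add (.var 0) (.var
      2)))), (emb (.sub (.var 3) (.add (.q 11 1000) (.mul (.q 320 1000) (.sub (.q 63 100) (.var
      2)))))), (emb (.sub (.neg (.var 3)) (.mul (.q 340 1000) (.sub (.q 80 100) (.var 2))))), (emb
      (.var 1))] 22
      8
      [V.of 10000 4000 6000 0, V.of 10000 (-130) 260 0, V.of 10000 3400 6000 0, V.of 10000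
        (-985) 960 0] = true := by
    decide +kernel
  obtain ⟨f, hf, hp⟩ := chkT4 h (by norm_num) (x := x) (y := T) (z := s) (w := k)
    (le_trans (by norm_num) a0) (le_trans b0 (by norm_num))
    (le_trans (by norm_num) a1) (le_trans b1 (by norm_num))
    (le_trans (by norm_num) a2) (le_trans b2 (by norm_num))
    (le_trans (by norm_num) a3) (le_trans b3 (by norm_num))
  simp only [List.mem_cons, List.not_mem_nil, or_false] at hf
  rcases hf with rfl | rfl | rfl | rfl | rfl | rfl
  · simp only [MR.e2_val, MR.en2_val, MR.eb2_val, NumU.E.val, NumI.E.val, NumI.lkR] at hp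
    push_cast at hp
    try simp only [div_one] at hp
    linarith only [hp]
  · simp only [MR.e2_val, MR.en2_val, MR.eb2_val, NumU.E.val, NumI.E.val, NumI.lkR] at hp
    push_cast at hp
    try simp only [div_one] at hp
    exfalso
    linarith only [c0, hp]
  · simp only [MR.e2_val, MR.en2_val, MR.eb2_val, NumU.E.val, NumI.E.val, NumI.lkR] at hp
    push_cast at hp
    try simp only [div_one] at hp
    exfalso
    linarith only [c1, hp]
  · simp only [MR.e2_val, MR.en2_val, MR.eb2_val, NumU.E.val, NumI.E.val, NumI.lkR] at hp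
    push_cast at hp
    try simp only [div_one] at hp
    exfalso
    linarith only [c2, hp]
  · simp only [MR.e2_val, MR.en2_val, MR.eb2_val, NumU.E.val, NumI.E.val, NumI.lkR] at hp
    push_cast at hp
    try simp only [div_one] at hp
    exfalso
    linarith only [c3, hp]
  · simp only [MR.e2_val, MR.en2_val, MR.eb2_val, NumU.E.val, NumI.E.val, NumI.lkR] at hp
    push_cast at hp
    try simp only [div_one] at hp
    exfalso
    linarith only [c4, hp]

/-- 1 boxes -/
theorem e30jcn {x T s k : ℝ} (a0 : 4000 / 10000 ≤ x) (b0 : x ≤ 6000 / 10000) (a1 : -130 / 10000 ≤ T) (b1 : T ≤ 260 / 10000)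
    (a2 : 3400 / 10000 ≤ s) (b2 : s ≤ 6000 / 10000) (a3 : -985 / 10000 ≤ k) (b3 : k ≤ 960 / 10000)
    (c0 : (x + s) - (106 / 100) ≤ 0) (c1 : (94 / 100) - (x + s) ≤ 0) (c2 : k - ((11 / 1000) +
    ((320 / 1000) * ((63 / 100) - s))) ≤ 0) (c3 : (-k) - ((340 / 1000) * ((80 / 100) - s)) ≤ 0)
    (c4 : -T ≤ 0) :
    0 < ((-4 / 100) - (MR.n2 0 (-1) ((-100 / 30) * T) x (T * ((100 / 30) * ((6 / 10) - x))) s
      k)) := by
  have h : chkT [(emb (.sub (.q (-4) 100) (MR.en2 (.q 0 1) (.q (-1) 1) (.mul (.q (-100) 30) (.var 1)) (.var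
      0) (.mul (.var 1) (.mul (.q 100 30) (.sub (.q 6 10) (.var 0)))) (.var 2) (.var 3)))), (emb
      (.sub (.add (.var 0) (.var 2)) (.q 106 100))), (emb (.sub (.q 94 100) (.add (.var 0) (.var
      2)))), (emb (.sub (.var 3) (.add (.q 11 1000) (.mul (.q 320 1000) (.sub (.q 63 100) (.var
      2)))))), (emb (.sub (.neg (.var 3)) (.mul (.q 340 1000) (.sub (.q 80 100) (.var 2))))), (emb
      (.neg (.var 1)))] 22
      8
      [V.of 10000 4000 6000 0, V.of 10000 (-130) 260 0, V.of 10000 3400 6000 0, V.of 10000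
        (-985) 960 0] = true := by
    decide +kernel
  obtain ⟨f, hf, hp⟩ := chkT4 h (by norm_num) (x := x) (y := T) (z := s) (w := k)
    (le_trans (by norm_num) a0) (le_trans b0 (by norm_num))
    (le_trans (by norm_num) a1) (le_trans b1 (by norm_num))
    (le_trans (by norm_num) a2) (le_trans b2 (by norm_num))
    (le_trans (by norm_num) a3) (le_trans b3 (by norm_num))
  simp only [List.mem_cons, List.not_mem_nil, or_false] at hf
  rcases hf with rfl | rfl | rfl | rfl | rfl | rfl
  · simp only [MR.e2_val, MR.en2_val, MR.eb2_val, NumU.E.val, NumI.E.val, NumI.lkR] at hp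
    push_cast at hp
    try simp only [div_one] at hp
    linarith only [hp]
  · simp only [MR.e2_val, MR.en2_val, MR.eb2_val, NumU.E.val, NumI.E.val, NumI.lkR] at hp
    push_cast at hp
    try simp only [div_one] at hp
    exfalso
    linarith only [c0, hp]
  · simp only [MR.e2_val, MR.en2_val, MR.eb2_val, NumU.E.val, NumI.E.val, NumI.lkR] at hp
    push_cast at hp
    try simp only [div_one] at hp
    exfalso
    linarith only [c1, hp]
  · simp only [MR.e2_val, MR.en2_val, MR.eb2_val, NumU.E.val, NumI.E.val, NumI.lkR] at hp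
    push_cast at hp
    try simp only [div_one] at hp
    exfalso
    linarith only [c2, hp]
  · simp only [MR.e2_val, MR.en2_val, MR.eb2_val, NumU.E.val, NumI.E.val, NumI.lkR] at hp
    push_cast at hp
    try simp only [div_one] at hp
    exfalso
    linarith only [c3, hp]
  · simp only [MR.e2_val, MR.en2_val, MR.eb2_val, NumU.E.val, NumI.E.val, NumI.lkR] at hp
    push_cast at hp
    try simp only [div_one] at hp
    exfalso
    linarith only [c4, hp]

/-- 60 boxes -/
theorem e30jdp {x T s k : ℝ} (a0 : 4000 / 10000 ≤ x) (b0 : x ≤ 6000 / 10000) (a1 : -130 / 10000 ≤ T) (b1 : T ≤ 260 / 10000)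
    (a2 : 4600 / 10000 ≤ s) (b2 : s ≤ 6000 / 10000) (a3 : -985 / 10000 ≤ k) (b3 : k ≤ 960 / 10000)
    (c0 : (106 / 100) - (x + s) ≤ 0) (c1 : k - ((11 / 1000) + ((320 / 1000) * ((63 / 100) - s))) ≤
    0) (c2 : (-k) - ((340 / 1000) * ((80 / 100) - s)) ≤ 0) (c3 : T ≤ 0) :
    0 < ((-4 / 100) - (MR.b2 1 ((-100 / 30) * T) x (T * ((100 / 30) * ((6 / 10) - x))) s k)) := by
  have h : chkT [(emb (.sub (.q (-4) 100) (MR.eb2 (.q 1 1) (.mul (.q (-100) 30) (.var 1)) (.var 0) (.mul
      (.var 1) (.mul (.q 100 30) (.sub (.q 6 10) (.var 0)))) (.var 2) (.var 3)))), (emb (.sub (.q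
      106 100) (.add (.var 0) (.var 2)))), (emb (.sub (.var 3) (.add (.q 11 1000) (.mul (.q 320
      1000) (.sub (.q 63 100) (.var 2)))))), (emb (.sub (.neg (.var 3)) (.mul (.q 340 1000) (.sub
      (.q 80 100) (.var 2))))), (emb (.var 1))] 22
      152820662290797399550627613336981122236109197390881390820081096862431092875447028368388419173633361743258741690027898832997946283125080025240065
      [V.of 10000 4000 6000 0, V.of 10000 (-130) 260 0, V.of 10000 4600 6000 0, V.of 10000
        (-985) 960 0] = true := by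
    decide +kernel
  obtain ⟨f, hf, hp⟩ := chkT4 h (by norm_num) (x := x) (y := T) (z := s) (w := k)
    (le_trans (by norm_num) a0) (le_trans b0 (by norm_num))
    (le_trans (by norm_num) a1) (le_trans b1 (by norm_num))
    (le_trans (by norm_num) a2) (le_trans b2 (by norm_num))
    (le_trans (by norm_num) a3) (le_trans b3 (by norm_num))
  simp only [List.mem_cons, List.not_mem_nil, or_false] at hf
  rcases hf with rfl | rfl | rfl | rfl | rfl
  · simp only [MR.e2_val, MR.en2_val, MR.eb2_val, NumU.E.val, NumI.E.val, NumI.lkR] at hp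
    push_cast at hp
    try simp only [div_one] at hp
    linarith only [hp]
  · simp only [MR.e2_val, MR.en2_val, MR.eb2_val, NumU.E.val, NumI.E.val, NumI.lkR] at hp
    push_cast at hp
    try simp only [div_one] at hp
    exfalso
    linarith only [c0, hp]
  · simp only [MR.e2_val, MR.en2_val, MR.eb2_val, NumU.E.val, NumI.E.val, NumI.lkR] at hp
    push_cast at hp
    try simp only [div_one] at hp
    exfalso
    linarith only [c1, hp]
  · simp only [MR.e2_val, MR.en2_val, MR.eb2_val, NumU.E.val, NumI.E.val, NumI.lkR] at hp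
    push_cast at hp
    try simp only [div_one] at hp
    exfalso
    linarith only [c2, hp]
  · simp only [MR.e2_val, MR.en2_val, MR.eb2_val, NumU.E.val, NumI.E.val, NumI.lkR] at hp
    push_cast at hp
    try simp only [div_one] at hp
    exfalso
    linarith only [c3, hp]

/-- 70 boxes -/
theorem e30jdn {x T s k : ℝ} (a0 : 4000 / 10000 ≤ x) (b0 : x ≤ 6000 / 10000) (a1 : -130 / 10000 ≤ T) (b1 : T ≤ 260 / 10000)
    (a2 : 4600 / 10000 ≤ s) (b2 : s ≤ 6000 / 10000) (a3 : -985 / 10000 ≤ k) (b3 : k ≤ 960 / 10000)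
    (c0 : (106 / 100) - (x + s) ≤ 0) (c1 : k - ((11 / 1000) + ((320 / 1000) * ((63 / 100) - s))) ≤
    0) (c2 : (-k) - ((340 / 1000) * ((80 / 100) - s)) ≤ 0) (c3 : -T ≤ 0) :
    0 < ((-4 / 100) - (MR.b2 (-1) ((-100 / 30) * T) x (T * ((100 / 30) * ((6 / 10) - x))) s k)) := by
  have h : chkT [(emb (.sub (.q (-4) 100) (MR.eb2 (.q (-1) 1) (.mul (.q (-100) 30) (.var 1)) (.var 0) (.mul
      (.var 1) (.mul (.q 100 30) (.sub (.q 6 10) (.var 0)))) (.var 2) (.var 3)))), (emb (.sub (.q
      106 100) (.add (.var 0) (.var 2)))), (emb (.sub (.var 3) (.add (.q 11 1000) (.mul (.q 320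
      1000) (.sub (.q 63 100) (.var 2)))))), (emb (.sub (.neg (.var 3)) (.mul (.q 340 1000) (.sub
      (.q 80 100) (.var 2))))), (emb (.neg (.var 1)))] 22
      155260109077059788786925940584432571631805493281280783993987877493499336478098007133080410394322551540130041319165101199704486690937803049436048131100458004964547561760
      [V.of 10000 4000 6000 0, V.of 10000 (-130) 260 0, V.of 10000 4600 6000 0, V.of 10000
        (-985) 960 0] = true := by
    decide +kernel
  obtain ⟨f, hf, hp⟩ := chkT4 h (by norm_num) (x := x) (y := T) (z := s) (w := k)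
    (le_trans (by norm_num) a0) (le_trans b0 (by norm_num))
    (le_trans (by norm_num) a1) (le_trans b1 (by norm_num))
    (le_trans (by norm_num) a2) (le_trans b2 (by norm_num))
    (le_trans (by norm_num) a3) (le_trans b3 (by norm_num))
  simp only [List.mem_cons, List.not_mem_nil, or_false] at hf
  rcases hf with rfl | rfl | rfl | rfl | rfl
  · simp only [MR.e2_val, MR.en2_val, MR.eb2_val, NumU.E.val, NumI.E.val, NumI.lkR] at hp
    push_cast at hp
    try simp only [div_one] at hp
    linarith only [hp]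
  · simp only [MR.e2_val, MR.en2_val, MR.eb2_val, NumU.E.val, NumI.E.val, NumI.lkR] at hp
    push_cast at hp
    try simp only [div_one] at hp
    exfalso
    linarith only [c0, hp]
  · simp only [MR.e2_val, MR.en2_val, MR.eb2_val, NumU.E.val, NumI.E.val, NumI.lkR] at hp
    push_cast at hp
    try simp only [div_one] at hp
    exfalso
    linarith only [c1, hp]
  · simp only [MR.e2_val, MR.en2_val, MR.eb2_val, NumU.E.val, NumI.E.val, NumI.lkR] at hp
    push_cast at hp
    try simp only [div_one] at hp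
    exfalso
    linarith only [c2, hp]
  · simp only [MR.e2_val, MR.en2_val, MR.eb2_val, NumU.E.val, NumI.E.val, NumI.lkR] at hp
    push_cast at hp
    try simp only [div_one] at hp
    exfalso
    linarith only [c3, hp]

end C23

end Pool.Agent.Work.MP_b30479_gt.G2
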