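import Pool.Agent.Work.MP_b30479_gt.G2.CDefs
import Pool.Agent.Work.MP_b30479_gt.LT.Core

/-!
# The main integral and the intermediate statements of the analytic core
-/

namespace Pool.Agent.Work.MP_b30479_gt.G2

open Finset VOL MeasureTheory Filter Topology

variable {D Z K : Type} [Fintype D] [Fintype Z] [Fintype K] [DecidableEq D]

/-- the growth rate of `S.G` -/
noncomputable def Dat.V0 (S : Dat D Z K) (z : D ⊕ Z → ℂ) : ℝ :=
  (S.quad z).re + ∑ k, UU (S.form k z)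

/-- the exponent of the weights of the continuous variables -/
noncomputable def Dat.W (S : Dat D Z K) (z : D ⊕ Z → ℂ) : ℝ :=
  ∑ v, (Real.pi * Complex.I * S.b v * z (.inr v) ^ 2 + 2 * Real.pi * Complex.I * z (.inr v)).re

theorem Dat.V_eq (S : Dat D Z K) (z : D ⊕ Z → ℂ) : S.V z = S.V0 z + S.W z := by
  unfold Dat.V Dat.V0 Dat.W
  rw [Complex.add_re, Complex.re_sum]
  ring

/-- points of level `n` -/
structure InBox (n : ℕ) (z : D ⊕ Z → ℂ) : Prop where
  d0 : ∀ i, 0 ≤ (z (.inl i)).re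
  d1 : ∀ i, (z (.inl i)).re ≤ 1 - 1 / n
  c : ∀ v, |(z (.inr v)).re| < 1 / 2

/-- the last lattice point on the path -/
noncomputable def Par.m (P : Par D) (n : ℕ) (i : D) : ℕ := min ⌊P.XM i * n⌋₊ (n - 2)

/-- left end of the path of level `n` -/
noncomputable def ea (n : ℕ) : ℝ := (((0 : ℕ) : ℝ) + 1 / 2) / n

/-- right end of the path of level `n` -/
noncomputable def Par.eb (P : Par D) (n : ℕ) (i : D) : ℝ := ((P.m n i : ℝ) + 1 / 2) / n

/-- the path of level `n` -/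
noncomputable def Par.ga (P : Par D) (n : ℕ) (t : ℝ) (i : D) (x : ℝ) : ℂ :=
  pt (ea n) (P.eb n i) (P.cl i) (P.cr i) t x

/-- the density of the path of level `n` -/
noncomputable def Par.om (P : Par D) (n : ℕ) (t : ℝ) (i : D) (x : ℝ) : ℂ :=
  n * (1 + ((t * deriv (tr (ea n) (P.eb n i) (P.cl i) (P.cr i)) x : ℝ) : ℂ) * Complex.I)

/-- the box of the discrete variables -/
def Par.bx (P : Par D) (n : ℕ) : Set (D → ℝ) :=
  Set.univ.pi fun i => Set.Icc (ea n) (P.eb n i)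

/-- the point on the product of the main paths -/
noncomputable def Par.pz (P : Par D) (zs : D ⊕ Z → ℂ) (n : ℕ) (x : D → ℝ) (σ : Z → ℝ) :
    D ⊕ Z → ℂ :=
  Sum.elim (fun i => P.ga n (zs (.inl i)).im i (x i)) fun v => LT.zt (zs (.inr v)).im (σ v)

/-- the main integrand -/
noncomputable def Dat.F (S : Dat D Z K) (P : Par D) (zs : D ⊕ Z → ℂ) (n : ℕ) (x : D → ℝ)
    (σ : Z → ℝ) : ℂ :=
  (∏ i, P.om n (zs (.inl i)).im i (x i)) * (∏ v, LT.EE n (S.b v) (zs (.inr v)).im (σ v)) *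
    S.G n (P.pz zs n x σ)

/-- the main integral -/
noncomputable def Dat.main (S : Dat D Z K) (P : Par D) (zs : D ⊕ Z → ℂ) (n : ℕ) : ℂ :=
  ∫ σ in LT.cube Z, ∫ x in P.bx n, S.F P zs n x σ

end Pool.Agent.Work.MP_b30479_gt.G2
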