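import Pool.Agent.Work.MP_b30479_gt.G2.PnBd
import Pool.Agent.Work.MP_b30479_gt.LT.Cube

/-!
# State sums with discrete and continuous variables: definitions for the analytic core

`D`: discrete variables (lattice points `k / n`, `0 ≤ k < n`), `Z`: continuous variables (paths
`zt ρ σ`, weight `Ec n b`), `K`: factors `SE n (affine form)`.
-/

namespace Pool.Agent.Work.MP_b30479_gt.G2

open Finset VOL LT MeasureTheory Filter Topology

/-! ### the interpolating function and its growth -/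

/-- The interpolating function, holomorphic on `0 < Re u < 2`.  For all `k` one has
`SE n ((k + 1 / 2) / n) = fS n k / √n` (`0` for `k ≥ n`); for `k < n`:
`SE n ((n - k - 1 / 2) / n) = √n / fS n k`;
`PP n y ζ = SE n (y / n + 1 / 2 + ζ) * SE n (y / n + 1 / 2 - ζ)`; its growth rate is `UU`, a
continuous function on `ℂ`, equal to `(Fh u).re` for `0 < Re u < 1` (`UU_eq_Fh`),
`UU (u + 1) = UU u + π |Im u|`, `UU (1 - u) = -UU u`. -/
noncomputable def SE (n : ℕ) (u : ℂ) : ℂ := Pn n (u - 1 / (2 * n)) / ((√(n : ℝ) : ℝ) : ℂ)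

/-! ### paths of discrete variables -/

/-- trapezoid: `0` outside `[a, b]`, `1` on `[a + c, b - c']` -/
noncomputable def tr (a b c c' x : ℝ) : ℝ := max 0 (min 1 (min ((x - a) / c) ((b - x) / c')))

/-- the point of height `h * tr` above `x` -/
noncomputable def pt (a b c c' h x : ℝ) : ℂ := (x : ℂ) + ((h * tr a b c c' x : ℝ) : ℂ) * Complex.I

/-! ### data -/

/-- the data of a state sum -/
structure Dat (D Z K : Type) where
  /-- coefficients of the affine forms -/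
  A : K → D ⊕ Z → ℤ
  /-- constants of the affine forms -/
  a : K → ℝ
  /-- shifts (numerators of `1 / n`) -/
  c : K → ℝ
  /-- numbers of crossings -/
  b : Z → ℤ
  /-- quadratic part of the exponent -/
  q : D ⊕ Z → D ⊕ Z → ℂ
  /-- linear part of the exponent -/
  r : D ⊕ Z → ℂ
  /-- linear exponent of the amplitude -/
  e : D ⊕ Z → ℂ

variable {D Z K : Type} [Fintype D] [Fintype Z] [Fintype K] [DecidableEq D]

/-- affine forms -/
noncomputable def Dat.form (S : Dat D Z K) (k : K) (z : D ⊕ Z → ℂ) : ℂ :=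
  S.a k + ∑ i, S.A k i * z i

/-- the quadratic polynomial in the exponent -/
noncomputable def Dat.quad (S : Dat D Z K) (z : D ⊕ Z → ℂ) : ℂ :=
  ∑ i, ∑ j, S.q i j * z i * z j + ∑ i, S.r i * z i

/-- the summand without the weights of the continuous variables -/
noncomputable def Dat.G (S : Dat D Z K) (n : ℕ) (z : D ⊕ Z → ℂ) : ℂ :=
  Complex.exp (n * S.quad z + ∑ i, S.e i * z i) * ∏ k, SE n (S.form k z + (S.c k / n : ℝ))

/-- the integral over the continuous variables at lattice points -/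
noncomputable def Dat.I (S : Dat D Z K) (n : ℕ) (ρ : Z → ℝ) (y : D → Fin n) : ℂ :=
  ∫ σ in cube Z, (∏ v, EE n (S.b v) (ρ v) (σ v)) *
    S.G n (Sum.elim (fun i => (((y i : ℕ) : ℝ) / n : ℝ)) fun v => zt (ρ v) (σ v))

/-- the state sum -/
noncomputable def Dat.sum (S : Dat D Z K) (n : ℕ) (ρ : Z → ℝ) : ℂ := ∑ y : D → Fin n, S.I n ρ y

/-- the potential -/
noncomputable def Dat.T (S : Dat D Z K) (z : D ⊕ Z → ℂ) : ℂ :=
  S.quad z + ∑ v, (Real.pi * Complex.I * S.b v * z (.inr v) ^ 2 + 2 * Real.pi * Complex.I * z (.inr v)) +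
    ∑ k, Fh (S.form k z)

/-- the growth rate -/
noncomputable def Dat.V (S : Dat D Z K) (z : D ⊕ Z → ℂ) : ℝ :=
  (S.quad z + ∑ v, (Real.pi * Complex.I * S.b v * z (.inr v) ^ 2 +
    2 * Real.pi * Complex.I * z (.inr v))).re + ∑ k, UU (S.form k z)

/-- the derivative of the potential -/
noncomputable def Dat.dT (S : Dat D Z K) (z : D ⊕ Z → ℂ) (i : D ⊕ Z) : ℂ :=
  ∑ j, (S.q i j + S.q j i) * z j + S.r i +
    Sum.elim (fun _ => 0) (fun v => 2 * Real.pi * Complex.I * (S.b v * z (.inr v) + 1)) i +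
    ∑ k, S.A k i * ph (S.form k z)

/-- half the second derivative of the potential along a real direction -/
noncomputable def Dat.Q2 (S : Dat D Z K) (z : D ⊕ Z → ℂ) (X : D ⊕ Z → ℝ) : ℂ :=
  ∑ i, ∑ j, S.q i j * X i * X j + ∑ v, Real.pi * Complex.I * S.b v * (X (.inr v) : ℂ) ^ 2 +
    ∑ k, ph' (S.form k z) / 2 * (∑ i, S.A k i * (X i : ℂ)) ^ 2

/-- parameters of the paths: the path of the discrete variable `i` runs over `[0, XM i]` with ramps
`cl i`, `cr i`; the mode paths have heights `hu i`, `-hd i` -/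
structure Par (D : Type) where
  XM : D → ℝ
  cl : D → ℝ
  cr : D → ℝ
  hu : D → ℝ
  hd : D → ℝ

/-- points (with penalty) on the paths of a discrete variable -/
def Par.On (P : Par D) (t : ℝ) (i : D) (z : ℂ) (p : ℝ) : Prop :=
  ∃ x : ℝ, 0 ≤ x ∧ x ≤ P.XM i ∧
    ((z = pt 0 (P.XM i) (P.cl i) (P.cr i) t x ∧ p = 0) ∨
     (z = pt 0 (P.XM i) (P.cl i) (P.cr i) (P.hu i) x ∧ p = P.hu i * tr 0 (P.XM i) (P.cl i) (P.cr i) x) ∨
     (z = pt 0 (P.XM i) (P.cl i) (P.cr i) (-P.hd i) x ∧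
        p = P.hd i * tr 0 (P.XM i) (P.cl i) (P.cr i) x))

/-- admissible points with penalties; `R` is the set of the discrete variables in the tail
`[XM i, 1]`, `nb ⊇ R` the set of the variables which are kept real -/
structure Adm (S : Dat D Z K) (P : Par D) (zs : D ⊕ Z → ℂ) (R : Finset D) (nb : Finset (D ⊕ Z))
    (z : D ⊕ Z → ℂ) (p : D → ℝ) : Prop where
  /-- the tail -/
  tail : ∀ i ∈ R, (z (.inl i)).im = 0 ∧ P.XM i ≤ (z (.inl i)).re ∧ (z (.inl i)).re ≤ 1 ∧ p i = 0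
  /-- real discrete variables -/
  reD : ∀ i, i ∉ R → .inl i ∈ nb →
    (z (.inl i)).im = 0 ∧ 0 ≤ (z (.inl i)).re ∧ (z (.inl i)).re ≤ P.XM i ∧ p i = 0
  /-- real continuous variables -/
  reZ : ∀ v, .inr v ∈ nb → (z (.inr v)).im = 0 ∧ |(z (.inr v)).re| ≤ 1 / 2
  /-- discrete variables on their paths -/
  onD : ∀ i, .inl i ∉ nb → P.On (zs (.inl i)).im i (z (.inl i)) (p i)
  /-- continuous variables on their paths -/
  onZ : ∀ v, .inr v ∉ nb → ∃ σ : ℝ, |σ| ≤ 1 / 2 ∧ z (.inr v) = zt (zs (.inr v)).im σ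
  /-- the walls: a factor all of whose variables are real lattice points vanishes beyond `1` -/
  wall : ∀ k, (∀ v, S.A k (.inr v) = 0) → (∀ i, S.A k (.inl i) ≠ 0 → .inl i ∈ nb) →
    (S.form k z).re ≤ 1

/-- the hypotheses on the data -/
structure Dat.Ok (S : Dat D Z K) : Prop where
  /-- the arguments of all factors stay in `0 < Re < 2` -/
  range : ∀ n : ℕ, 1 ≤ n → ∀ z : D ⊕ Z → ℂ,
    (∀ i, 0 ≤ (z (.inl i)).re ∧ (z (.inl i)).re ≤ 1 - 1 / n) → (∀ v, |(z (.inr v)).re| < 1 / 2) →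
    ∀ k, 0 < (S.form k z).re + S.c k / n ∧ (S.form k z).re + S.c k / n < 2
  /-- the shifts are bounded -/
  shift : ∀ k, |S.c k| ≤ 1
  /-- factors without continuous variables have half integer arguments (over `n`) -/
  half : ∀ k, (∀ v, S.A k (.inr v) = 0) →
    (∃ m : ℤ, S.a k = m) ∧ (S.c k = 1 / 2 ∨ S.c k = -(1 / 2))
  /-- the integral at lattice points does not depend on the heights of the paths -/
  rho : ∀ n : ℕ, 4 ≤ n → Odd n → ∀ (y : D → Fin n) (ρ ρ' : Z → ℝ), (∀ v, 0 < ρ v) → (∀ v, 0 < ρ' v) →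
    S.I n ρ y = S.I n ρ' y

/-- the saddle point and the domination -/
structure Sadl (S : Dat D Z K) (P : Par D)
    (nb : Finset D → Finset (D ⊕ Z)) (zs : D ⊕ Z → ℂ) : Prop where
  /-- path parameters -/
  par : ∀ i, 0 < P.XM i ∧ P.XM i ≤ 1 ∧ 0 < P.cl i ∧ 0 < P.cr i ∧ P.cl i + P.cr i < P.XM i ∧
    0 < P.hu i ∧ 0 < P.hd i
  nb_empty : nb ∅ = ∅
  nb_sup : ∀ R : Finset D, ∀ i ∈ R, .inl i ∈ nb R
  /-- the saddle is on the flat parts of the paths -/
  flatD : ∀ i, P.cl i < (zs (.inl i)).re ∧ (zs (.inl i)).re < P.XM i - P.cr i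
  flatZ : ∀ v, |(zs (.inr v)).re| < 1 / 4 ∧ 0 < (zs (.inr v)).im
  inner : ∀ k, 0 < (S.form k zs).re ∧ (S.form k zs).re < 1
  crit : ∀ i, S.dT zs i = 0
  hess : ∀ X : D ⊕ Z → ℝ, X ≠ 0 → (S.Q2 zs X).re < 0
  /-- domination -/
  dom : ∀ R : Finset D, (∀ i ∈ R, P.XM i < 1) → ∀ (z : D ⊕ Z → ℂ) (p : D → ℝ),
    Adm S P zs R (nb R) z p → (R = ∅ → p = 0 → z ≠ zs) →
    S.V z - 2 * Real.pi * ∑ i, p i < (S.T zs).re

end Pool.Agent.Work.MP_b30479_gt.G2
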