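import Pool.Agent.Work.MP_b30479_gt.G2.LRK

/-!
# Floors of `1 | ring` and `2 | ring` at a large hinge `1 | 2`: the side of the ring

Slope `0`.  Variables `x`, `T = -Im w`, then `y = -σ`, `r = √ρ` (flat part of the path of the ring
variable) or `s = 1/2 + σ`, `ρ` (ramp).
-/

namespace Pool.Agent.Work.MP_b30479_gt.G2

open VOL NumI

namespace CF3

open LR

/-! ### flat part -/

noncomputable def fD (e x T y r : ℝ) : ℝ :=
  lnA (x + 1 / 2 - y) (r ^ 2 - T) + lnA (x + 1 / 2 + y) (r ^ 2 + T) - 2 * lnA x T - e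

noncomputable def fF (x T y r : ℝ) : ℝ :=
  lnA (x + 1 / 2 - y) (r ^ 2 - T) - lnA (x + 1 / 2 + y) (r ^ 2 + T) - 953 / 100 * r

theorem lnA_half (x y t : ℝ) : lnA (x + 1 / 2 + y) t = (1 : ℕ) / (2 : ℕ) * Real.log ((4 : ℕ) / (1 : ℕ) *
    (Real.sin (Real.pi * (x - ((1 : ℕ) / (2 : ℕ) - y))) ^ 2 + Real.sinh (Real.pi * t) ^ 2)) := by
  unfold lnA
  have e : Real.pi * (x + 1 / 2 + y) = Real.pi * (x - ((1 : ℕ) / (2 : ℕ) - y)) + Real.pi := by
    push_cast
    ring
  rw [e, Real.sin_add_pi, neg_sq]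
  push_cast
  rw [div_one]
  ring

/-- the leaf with the code `j` -/
def lf1 (j : ℕ) (eX X T Y R : F) (fa : F → Option F) : Bool :=
  let E := R.sqn
  posO' (o0 (fun au => o0 (fun av =>
    cond (Nat.beq j 40) (some ((au.sub av).sub (F.mulq 953 100 R)))
      (o0 (fun aw => some ((((au.add av).sub (aw.add aw)).sub eX).add
        (F.mulq j 10 ((au.sub av).sub (F.mulq 953 100 R))))) (F.lnA X T)))
    (fa (E.add T))) (F.lnA ((X.add (F.rat 1 2)).sub Y) (E.sub T)))

theorem lf1_sound {j : ℕ} {eX X T Y R : F} {fa : F → Option F} {ε : ℕ → ℝ} {e x t y r : ℝ}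
    (hε : ∀ i, |ε i| ≤ 1) (hX : X.Encl ε x) (hT : T.Encl ε t) (hY : Y.Encl ε y) (hR : R.Encl ε r)
    (he : eX.Encl ε e)
    (ha : ∀ {vt c : F}, vt.Encl ε (r ^ 2 + t) → fa vt = some c → c.Encl ε (lnA (x + 1 / 2 + y) (r ^ 2 + t)))
    (h : lf1 j eX X T Y R fa = true) (hF : j = 0 ∨ fF x t y r ≤ 0) : 0 < fD e x t y r := by
  have kE : (R.sqn).Encl ε (r ^ 2) := F.Encl.sqn hε hR
  have kh : (X.add (F.rat 1 2)).Encl ε (x + 1 / 2) := by
    have := F.Encl.add hX (F.Encl.rat 1 2 ε)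
    push_cast at this
    exact this
  have kux := F.Encl.sub kh hY
  have kut := F.Encl.sub kE hT
  have kvt := F.Encl.add kE hT
  unfold lf1 at h
  simp only at h
  set G := o0 (fun au => o0 (fun av =>
    cond (Nat.beq j 40) (some ((au.sub av).sub (F.mulq 953 100 R)))
      (o0 (fun aw => some ((((au.add av).sub (aw.add aw)).sub eX).add
        (F.mulq j 10 ((au.sub av).sub (F.mulq 953 100 R))))) (F.lnA X T)))
    (fa (R.sqn.add T))) (F.lnA ((X.add (F.rat 1 2)).sub Y) (R.sqn.sub T)) with hG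
  rcases hGc : G with _ | g
  · rw [hGc] at h
    exact absurd h (by simp [posO'])
  rw [hG] at hGc
  obtain ⟨au, hau, h1⟩ := o0_some hGc
  obtain ⟨av, hav, h1⟩ := o0_some h1
  have eau := F.Encl.lnA hε kux kut hau
  have eav := ha kvt hav
  have hpos : posF g = true := by
    have e : G = some g := by rw [hG]; exact hGc
    rw [e] at h
    exact h
  have kF := F.Encl.sub (F.Encl.sub eau eav) (F.Encl.mulq (n := 953) (d := 100) (by norm_num) hε hR)
  push_cast at kF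
  rcases hj : Nat.beq j 40 with _ | _
  · rw [hj, cond_false] at h1
    obtain ⟨aw, haw, h1⟩ := o0_some h1
    have eaw := F.Encl.lnA hε hX hT haw
    have kD := F.Encl.add (F.Encl.sub (F.Encl.sub (F.Encl.add eau eav) (F.Encl.add eaw eaw)) he)
      (F.Encl.mulq (n := j) (d := 10) (by norm_num) hε kF)
    have hp := posF_spec hε kD (by rw [← Option.some.inj h1] at hpos; exact hpos)
    have hj0 : (0 : ℝ) ≤ (j : ℝ) / (10 : ℕ) := by positivity
    have : (j : ℝ) / (10 : ℕ) * fF x t y r ≤ 0 := by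
      rcases hF with rfl | hF
      · simp
      · exact mul_nonpos_of_nonneg_of_nonpos hj0 hF
    unfold fF at this
    unfold fD
    linarith
  · rw [hj, cond_true] at h1
    have hp := posF_spec hε kF (by rw [← Option.some.inj h1] at hpos; exact hpos)
    rcases hF with rfl | hF
    · exact absurd hj (by decide)
    · unfold fF at hF
      linarith

/-- `g` evaluates `f` -/
def Ev2 (g : F → F → F) (f : ℝ → ℝ → ℝ) : Prop :=
  ∀ {X T : F} {ε : ℕ → ℝ} {x t : ℝ}, (∀ i, |ε i| ≤ 1) → X.Encl ε x → T.Encl ε t →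
    (g X T).Encl ε (f x t)

/-- test with the first order condition; code `k = 2 j + form` -/
def tC (eX : F → F → F) (k : ℕ) (X T Y R : F) : Bool :=
  cond (Nat.beq (Nat.mod k 2) 0)
    (lf1 (Nat.div k 2) (eX X T) X T Y R (F.lnA ((X.add (F.rat 1 2)).add Y)))
    (lf1 (Nat.div k 2) (eX X T) X T Y R (svA X ((F.rat 1 2).sub Y)))

/-- test without it; the code is the form -/
def tL (eX : F → F → F) (k : ℕ) (X T Y R : F) : Bool :=
  cond (Nat.beq k 0)
    (lf1 0 (eX X T) X T Y R (F.lnA ((X.add (F.rat 1 2)).add Y)))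
    (lf1 0 (eX X T) X T Y R (svA X ((F.rat 1 2).sub Y)))

def PC (e : ℝ → ℝ → ℝ) (x T y r : ℝ) : Prop := fF x T y r ≤ 0 → 0 < fD (e x T) x T y r
def PL (e : ℝ → ℝ → ℝ) (x T y r : ℝ) : Prop := 0 < fD (e x T) x T y r

theorem fa0 {X Y vt c : F} {ε : ℕ → ℝ} {x y t : ℝ} (hε : ∀ i, |ε i| ≤ 1) (hX : X.Encl ε x)
    (hY : Y.Encl ε y) (ht : vt.Encl ε t) (h : F.lnA ((X.add (F.rat 1 2)).add Y) vt = some c) :
    c.Encl ε (lnA (x + 1 / 2 + y) t) := by
  have kh : (X.add (F.rat 1 2)).Encl ε (x + 1 / 2) := by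
    have := F.Encl.add hX (F.Encl.rat 1 2 ε)
    push_cast at this
    exact this
  exact F.Encl.lnA hε (F.Encl.add kh hY) ht h

theorem fa1 {X Y vt c : F} {ε : ℕ → ℝ} {x y t : ℝ} (hε : ∀ i, |ε i| ≤ 1) (hX : X.Encl ε x)
    (hY : Y.Encl ε y) (ht : vt.Encl ε t) (h : svA X ((F.rat 1 2).sub Y) vt = some c) :
    c.Encl ε (lnA (x + 1 / 2 + y) t) := by
  rw [lnA_half]
  exact svA_sound hε hX (F.Encl.sub (F.Encl.rat 1 2 ε) hY) ht h

theorem tC_ok {eX : F → F → F} {e : ℝ → ℝ → ℝ} (he : Ev2 eX e) : TestOk (tC eX) (PC e) := by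
  intro k X T Y R ε x t y r hε hX hT hY hR h hF
  unfold tC at h
  rcases h0 : Nat.beq (Nat.mod k 2) 0 with _ | _
  · rw [h0, cond_false] at h
    exact lf1_sound hε hX hT hY hR (he hε hX hT) (fun h1 h2 => fa1 hε hX hY h1 h2) h (Or.inr hF)
  · rw [h0, cond_true] at h
    exact lf1_sound hε hX hT hY hR (he hε hX hT) (fun h1 h2 => fa0 hε hX hY h1 h2) h (Or.inr hF)

theorem tL_ok {eX : F → F → F} {e : ℝ → ℝ → ℝ} (he : Ev2 eX e) : TestOk (tL eX) (PL e) := by
  intro k X T Y R ε x t y r hε hX hT hY hR h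
  unfold tL at h
  rcases h0 : Nat.beq k 0 with _ | _
  · rw [h0, cond_false] at h
    exact lf1_sound hε hX hT hY hR (he hε hX hT) (fun h1 h2 => fa1 hε hX hY h1 h2) h (Or.inl rfl)
  · rw [h0, cond_true] at h
    exact lf1_sound hε hX hT hY hR (he hε hX hT) (fun h1 h2 => fa0 hε hX hY h1 h2) h (Or.inl rfl)

/-! ### ramp -/

noncomputable def rD0 (e x T s ρ : ℝ) : ℝ :=
  lnA (x + s) (4 * ρ * s - T) + vA x (T / x) s ρ - 2 * lnA x T - e

def lf2 (j : ℕ) (eX rS X T S R : F) (fa fb : F → Option F) : Bool :=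
  let r4 := F.mulq 4 1 R
  let eta := r4.mul S
  let ut := eta.sub T
  let vt := eta.add T
  let ux := X.add S
  posO' (o0 (fun au => o0 (fun bu => o0 (fun av => o0 (fun bv =>
    cond (Nat.beq j 40) (some ((au.sub av).add (r4.mul ((bv.sub bu).sub (F.pi.mul rS)))))
      (o0 (fun aw => some ((((au.add av).sub (aw.add aw)).sub eX).add
        (F.mulq j 10 ((au.sub av).add (r4.mul ((bv.sub bu).sub (F.pi.mul rS))))))) (F.lnA X T)))
    (fb vt)) (fa vt)) (F.lnB ux ut)) (F.lnA ux ut))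

theorem lf2_sound {j : ℕ} {eX rS X T S R : F} {fa fb : F → Option F} {ε : ℕ → ℝ}
    {e r x t s ρ : ℝ} (hε : ∀ i, |ε i| ≤ 1) (hx0 : 0 < x) (hX : X.Encl ε x) (hT : T.Encl ε t)
    (hS : S.Encl ε s) (hR : R.Encl ε ρ) (he : eX.Encl ε e) (hr : rS.Encl ε r)
    (ha : ∀ {vt c : F}, vt.Encl ε (4 * ρ * s + t / x * x) → fa vt = some c →
      c.Encl ε (vA x (t / x) s ρ))
    (hb : ∀ {vt c : F}, vt.Encl ε (4 * ρ * s + t / x * x) → fb vt = some c →
      c.Encl ε (vB x (t / x) s ρ))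
    (h : lf2 j eX rS X T S R fa fb = true) (hF : rF r 0 x (t / x) s ρ ≤ 0) : 0 < rD0 e x t s ρ := by
  have ex : t / x * x = t := div_mul_cancel₀ _ hx0.ne'
  rw [ex] at ha hb
  have k4 : (F.mulq 4 1 R).Encl ε (4 * ρ) := by
    have := F.Encl.mulq (n := 4) (d := 1) (by norm_num) hε hR
    push_cast at this
    rwa [div_one] at this
  have kE := F.Encl.mul hε k4 hS
  have kut := F.Encl.sub kE hT
  have kvt := F.Encl.add kE hT
  have kux := F.Encl.add hX hS
  unfold lf2 at h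
  simp only at h
  set r4 := F.mulq 4 1 R with hr4
  set G := o0 (fun au => o0 (fun bu => o0 (fun av => o0 (fun bv =>
    cond (Nat.beq j 40) (some ((au.sub av).add (r4.mul ((bv.sub bu).sub (F.pi.mul rS)))))
      (o0 (fun aw => some ((((au.add av).sub (aw.add aw)).sub eX).add
        (F.mulq j 10 ((au.sub av).add (r4.mul ((bv.sub bu).sub (F.pi.mul rS))))))) (F.lnA X T)))
    (fb ((r4.mul S).add T))) (fa ((r4.mul S).add T))) (F.lnB (X.add S) ((r4.mul S).sub T)))
    (F.lnA (X.add S) ((r4.mul S).sub T)) with hG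
  rcases hGc : G with _ | g
  · rw [hGc] at h
    exact absurd h (by simp [posO'])
  rw [hG] at hGc
  obtain ⟨au, hau, h1⟩ := o0_some hGc
  obtain ⟨bu, hbu, h1⟩ := o0_some h1
  obtain ⟨av, hav, h1⟩ := o0_some h1
  obtain ⟨bv, hbv, h1⟩ := o0_some h1
  have eau := F.Encl.lnA hε kux kut hau
  have ebu := F.Encl.lnB hε kux kut hbu
  have eav := ha kvt hav
  have ebv := hb kvt hbv
  have hpos : posF g = true := by
    have e : G = some g := by rw [hG]; exact hGc
    rw [e] at h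
    exact h
  have kF := F.Encl.add (F.Encl.sub eau eav) (F.Encl.mul hε k4
    (F.Encl.sub (F.Encl.sub ebv ebu) (F.Encl.mul hε (F.Encl.pi ε) hr)))
  rcases hj : Nat.beq j 40 with _ | _
  · rw [hj, cond_false] at h1
    obtain ⟨aw, haw, h1⟩ := o0_some h1
    have eaw := F.Encl.lnA hε hX hT haw
    have kD := F.Encl.add (F.Encl.sub (F.Encl.sub (F.Encl.add eau eav) (F.Encl.add eaw eaw)) he)
      (F.Encl.mulq (n := j) (d := 10) (by norm_num) hε kF)
    have hp := posF_spec hε kD (by rw [← Option.some.inj h1] at hpos; exact hpos)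
    have hj0 : (0 : ℝ) ≤ (j : ℝ) / (10 : ℕ) := by positivity
    have := mul_nonpos_of_nonneg_of_nonpos hj0 hF
    unfold rF at this
    rw [ex] at this
    unfold rD0
    linarith
  · rw [hj, cond_true] at h1
    have hp := posF_spec hε kF (by rw [← Option.some.inj h1] at hpos; exact hpos)
    unfold rF at hF
    rw [ex] at hF
    linarith

/-- the test with the code `k = 3 j + form` -/
def tR (eX : F → F → F) (rS : F → F) (k : ℕ) (X T S R : F) : Bool :=
  cond (Nat.beq (Nat.mod k 3) 0)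
    (cond (posF (S.sub X)) (lf2 (Nat.div k 3) (eX X T) (rS S) X T S R
      (F.lnA (S.sub X)) (F.lnB (S.sub X))) false)
    (cond (Nat.beq (Nat.mod k 3) 1)
      (lf2 (Nat.div k 3) (eX X T) (rS S) X T S R (svA X S) (svB X S))
      (cond (posF (X.sub S)) (lf2 (Nat.div k 3) (eX X T) (rS S) X T S R
        (F.lnA (X.sub S)) (fun vt => o1 (fun b => F.pi.sub b) (F.lnB (X.sub S) vt))) false))

/-- the property which the test proves -/
def PR (e : ℝ → ℝ → ℝ) (r : ℝ → ℝ) (x T s ρ : ℝ) : Prop :=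
  Dom x (T / x) s ρ → rF (r s) 0 x (T / x) s ρ ≤ 0 → 0 < rD0 (e x T) x T s ρ

theorem tR_ok {eX : F → F → F} {rS : F → F} {e : ℝ → ℝ → ℝ} {r : ℝ → ℝ} (he : Ev2 eX e)
    (hr : Ev rS r) : TestOk (tR eX rS) (PR e r) := by
  intro k X T S R ε x t s ρ hε hX hT hS hR h hD hF
  have hx0 := hD.x0
  unfold tR at h
  rcases h0 : Nat.beq (Nat.mod k 3) 0 with _ | _
  · rw [h0, cond_false] at h
    rcases h1 : Nat.beq (Nat.mod k 3) 1 with _ | _
    · rw [h1, cond_false] at h
      rcases h2 : posF (X.sub S) with _ | _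
      · rw [h2, cond_false] at h
        exact absurd h (by simp)
      · rw [h2, cond_true] at h
        have hs := posF_spec hε (F.Encl.sub hX hS) h2
        refine lf2_sound hε hx0 hX hT hS hR (he hε hX hT) (hr hε hS) ?_ ?_ h hF
        · intro vt c hv hc
          rw [vA_eq2]
          exact F.Encl.lnA hε (F.Encl.sub hX hS) hv hc
        · intro vt c hv hc
          rw [vB_eq2 hD hs]
          obtain ⟨b, hb, rfl⟩ := o1_some hc
          exact F.Encl.sub (F.Encl.pi ε) (F.Encl.lnB hε (F.Encl.sub hX hS) hv hb)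
    · rw [h1, cond_true] at h
      refine lf2_sound hε hx0 hX hT hS hR (he hε hX hT) (hr hε hS) ?_ ?_ h hF
      · intro vt c hv hc
        rw [vA_eq1]
        exact svA_sound hε hX hS hv hc
      · intro vt c hv hc
        rw [vB_eq1 hD]
        exact svB_sound hε hX hS hv hc
  · rw [h0, cond_true] at h
    rcases h2 : posF (S.sub X) with _ | _
    · rw [h2, cond_false] at h
      exact absurd h (by simp)
    · rw [h2, cond_true] at h
      have hs := posF_spec hε (F.Encl.sub hS hX) h2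
      refine lf2_sound hε hx0 hX hT hS hR (he hε hX hT) (hr hε hS) ?_ ?_ h hF
      · intro vt c hv hc
        rw [vA_eq]
        exact F.Encl.lnA hε (F.Encl.sub hS hX) hv hc
      · intro vt c hv hc
        rw [vB_eq hD hs]
        exact F.Encl.lnB hε (F.Encl.sub hS hX) hv hc

/-! ### lower bounds -/

/-- lower bound of the side of the ring at a hinge `1 | ring` -/
noncomputable def eA (x T : ℝ) : ℝ :=
  1930 / 1000 + 50 * (x * T) - (131 / 10 * x + (227 / 100 * T + 22 * T ^ 2))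

/-- lower bounds of the side of the ring at a hinge `2 | ring` -/
noncomputable def eB (x T : ℝ) : ℝ := 1790 / 1000 + 157 / 100 * T - 105 / 10 * x

def fA (X T : F) : F :=
  ((F.rat 1930 1000).add (F.mulq 50 1 (X.mul T))).sub
    ((F.mulq 131 10 X).add ((F.mulq 227 100 T).add (F.mulq 22 1 T.sqn)))

def fB (X T : F) : F := ((F.rat 1790 1000).add (F.mulq 157 100 T)).sub (F.mulq 105 10 X)

def fK (_ _ : F) : F := F.rat 35 100

theorem ev_fA : Ev2 fA eA := by
  intro X T ε x t hε hX hT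
  have k := F.Encl.sub (F.Encl.add (F.Encl.rat 1930 1000 ε)
    (F.Encl.mulq (n := 50) (d := 1) (by norm_num) hε (F.Encl.mul hε hX hT)))
    (F.Encl.add (F.Encl.mulq (n := 131) (d := 10) (by norm_num) hε hX)
      (F.Encl.add (F.Encl.mulq (n := 227) (d := 100) (by norm_num) hε hT)
        (F.Encl.mulq (n := 22) (d := 1) (by norm_num) hε (F.Encl.sqn hε hT))))
  have e : eA x t = ((1930 : ℕ) : ℝ) / ((1000 : ℕ) : ℝ) + ((50 : ℕ) : ℝ) / ((1 : ℕ) : ℝ) * (x * t) -
      (((131 : ℕ) : ℝ) / ((10 : ℕ) : ℝ) * x + (((227 : ℕ) : ℝ) / ((100 : ℕ) : ℝ) * t +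
        ((22 : ℕ) : ℝ) / ((1 : ℕ) : ℝ) * t ^ 2)) := by
    unfold eA
    push_cast
    ring
  rw [e]
  exact k

theorem ev_fB : Ev2 fB eB := by
  intro X T ε x t hε hX hT
  have k := F.Encl.sub (F.Encl.add (F.Encl.rat 1790 1000 ε)
    (F.Encl.mulq (n := 157) (d := 100) (by norm_num) hε hT))
    (F.Encl.mulq (n := 105) (d := 10) (by norm_num) hε hX)
  have e : eB x t = ((1790 : ℕ) : ℝ) / ((1000 : ℕ) : ℝ) + ((157 : ℕ) : ℝ) / ((100 : ℕ) : ℝ) * t -
      ((105 : ℕ) : ℝ) / ((10 : ℕ) : ℝ) * x := by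
    unfold eB
    push_cast
    ring
  rw [e]
  exact k

theorem ev_fK : Ev2 fK fun _ _ => 35 / 100 := by
  intro X T ε x t hε hX hT
  have k := F.Encl.rat 35 100 ε
  push_cast at k
  exact k

/-- `4 b s - (b - 2)` -/
def r4s (S : F) : F := (F.mulq 16 1 S).sub (F.rat 2 1)
def r5s (S : F) : F := (F.mulq 20 1 S).sub (F.rat 3 1)

theorem ev_r4s : Ev r4s fun s => 4 * 4 * s - (4 - 2) := by
  intro S ε s hε hS
  have k := F.Encl.sub (F.Encl.mulq (n := 16) (d := 1) (by norm_num) hε hS) (F.Encl.rat 2 1 ε)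
  have e : (4 * 4 * s - (4 - 2) : ℝ) = ((16 : ℕ) : ℝ) / ((1 : ℕ) : ℝ) * s - ((2 : ℕ) : ℝ) / ((1 : ℕ) : ℝ) := by
    push_cast
    ring
  show (r4s S).Encl ε (4 * 4 * s - (4 - 2))
  rw [e]
  exact k

theorem ev_r5s : Ev r5s fun s => 4 * 5 * s - (5 - 2) := by
  intro S ε s hε hS
  have k := F.Encl.sub (F.Encl.mulq (n := 20) (d := 1) (by norm_num) hε hS) (F.Encl.rat 3 1 ε)
  have e : (4 * 5 * s - (5 - 2) : ℝ) = ((20 : ℕ) : ℝ) / ((1 : ℕ) : ℝ) * s - ((3 : ℕ) : ℝ) / ((1 : ℕ) : ℝ) := by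
    push_cast
    ring
  show (r5s S).Encl ε (4 * 5 * s - (5 - 2))
  rw [e]
  exact k

end CF3

end Pool.Agent.Work.MP_b30479_gt.G2
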