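import Pool.Agent.Work.MP_b30479_gt.G2.Rng

/-!
# The kinds of the hinges of a ring

They replace `RKd`; new: hinges next to a digit `3` with a tiny positive height.
-/

namespace Pool.Agent.Work.MP_b30479_gt.G2

/-- the kinds of hinges of a ring: absent, next to a digit `1`, next to a `2` or `3`, next to a
ring, next to a `3` with a tiny positive height -/
inductive RKe
  | no | one | lo | rr | ps
  deriving DecidableEq

/-- the kinds with positive heights -/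
def RKe.up : RKe → Bool
  | .rr => true
  | .ps => true
  | _ => false

/-- the ranges of the heights (they depend on the number `b` of crossings), with the parameters of
the paths -/
def RKe.ok : RKe → ℝ → ℂ → Prop
  | .no, _, w => w = 0
  | .one, b, w => ∃ T cr : ℝ, -(158 / 1000) ≤ T ∧ T ≤ -(38 / 1000) ∧ (b < 5 → -(128 / 1000) ≤ T) ∧
      (b < 6 → -(138 / 1000) ≤ T) ∧ (29 / 100 ≤ cr ∧ cr ≤ 33 / 100) ∧
      RH w T (65 / 100) (16 / 100) cr
  | .lo, b, w => ∃ T cl cr : ℝ, -(131 / 1000) ≤ T ∧ T ≤ 0 ∧ (b < 5 → -(115 / 1000) ≤ T) ∧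
      (1 / 10 ≤ cl ∧ cl ≤ 13 / 100) ∧ (30 / 100 ≤ cr ∧ cr ≤ 34 / 100) ∧ RH w T (60 / 100) cl cr
  | .rr, b, w => ∃ T : ℝ, -(385 / 10000) ≤ T ∧ T ≤ 56 / 1000 ∧ (b < 5 → -(25 / 1000) ≤ T) ∧
      (5 ≤ b → T ≤ 465 / 10000) ∧ RH w T (1 / 2) (1 / 10) (2 / 100)
  | .ps, b, w => b = 4 ∧ 0 < w.im ∧ w.im ≤ 1 / 1000 ∧ w.im ≤ 1 / 100 * w.re ∧ w.re ≤ 1 / 2

/-- caps of the hinges with positive heights, `ρ`: the height of the ring variable -/
def RKe.cp : RKe → ℝ → ℂ → Prop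
  | .rr, _, w => w.re ≤ 27 / 100
  | .ps, ρ, _ => 4 / 100 ≤ ρ
  | _, _, _ => True

end Pool.Agent.Work.MP_b30479_gt.G2
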