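import Pool.Agent.Work.MP_b30479_gt.G2.RngA
import Pool.Agent.Work.MP_b30479_gt.G2.RngKd

/-!
# Ring sides: hinges next to a digit `2`, `3`, right ramp
-/

namespace Pool.Agent.Work.MP_b30479_gt.G2

open Finset VOL Filter Topology

variable {b ρ σ : ℝ} {w w' : ℂ} {k k' : RKe}

theorem RH.strip {T XM cl cr : ℝ} (h : RH w T XM cl cr) (hcl : 0 < cl) (hcr : 0 < cr)
    (hcc : cl + cr < XM) (hX : XM < 1) : w = 0 ∨ w ∈ strip := by
  rcases h.re0.eq_or_lt with h0 | h0
  · left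
    apply Complex.ext
    · simpa using h0.symm
    · rw [h.im, ← h0, tr_a hcl hcr hcc le_rfl hcl.le]
      simp
  · right
    exact ⟨h0, by linarith only [hX, h, h.reM]⟩

theorem RKe.ok.strip (h : k.ok b w) : w = 0 ∨ w ∈ strip := by
  cases k with
  | no => exact Or.inl h
  | one =>
    obtain ⟨T, cr, -, -, -, -, ⟨r1, r2⟩, hw⟩ := h
    exact hw.strip (by norm_num) (by linarith only [r1]) (by linarith only [r2]) (by norm_num)
  | lo =>
    obtain ⟨T, cl, cr, -, -, -, ⟨l1, l2⟩, ⟨r1, r2⟩, hw⟩ := h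
    exact hw.strip (by linarith only [l1]) (by linarith only [r1]) (by linarith only [l2, r2]) (by norm_num)
  | rr =>
    obtain ⟨T, -, -, -, -, hw⟩ := h
    exact hw.strip (by norm_num) (by norm_num) (by norm_num) (by norm_num)
  | ps =>
    obtain ⟨-, h1, -, h2, h3⟩ := h
    exact Or.inr ⟨by linarith only [h1, h2], by linarith only [h1, h2, h3]⟩

theorem tr_mem (XM cl cr x : ℝ) : 0 ≤ tr 0 XM cl cr x ∧ tr 0 XM cl cr x ≤ 1 :=
  ⟨le_max_left _ _, max_le zero_le_one (min_le_left _ _)⟩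

theorem RH.im_nonpos {T XM cl cr : ℝ} (h : RH w T XM cl cr) (hT : T ≤ 0) : w.im ≤ 0 := by
  rw [h.im]
  exact mul_nonpos_of_nonpos_of_nonneg hT (tr_mem _ _ _ _).1

theorem RH.im_ge {T XM cl cr : ℝ} (h : RH w T XM cl cr) (hT : T ≤ 0) : T ≤ w.im := by
  rw [h.im]
  have := tr_mem XM cl cr w.re
  nlinarith only [hT, this]

theorem RH.im_le {T XM cl cr : ℝ} (h : RH w T XM cl cr) (hT : 0 ≤ T) : w.im ≤ T := by
  rw [h.im]
  have := tr_mem XM cl cr w.re
  nlinarith only [hT, this]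

/-- height `≤ 0` for the kinds `no`, `one`, `lo` -/
theorem RKe.ok.im_nonpos (h : k.ok b w) (hk : k.up = false) : w.im ≤ 0 := by
  cases k with
  | no =>
    have h0 : w = 0 := h
    rw [h0]
    simp
  | one =>
    obtain ⟨T, cr, -, t, -, -, -, hw⟩ := h
    exact hw.im_nonpos (by linarith only [t])
  | lo =>
    obtain ⟨T, cl, cr, -, t, -, -, -, hw⟩ := h
    exact hw.im_nonpos t
  | rr => exact absurd hk (by simp [RKe.up])
  | ps => exact absurd hk (by simp [RKe.up])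

theorem RKe.ok.re_nonneg (h : k.ok b w) : 0 ≤ w.re := by
  cases k with
  | no =>
    have h0 : w = 0 := h
    rw [h0]
    simp
  | one =>
    obtain ⟨T, cr, -, -, -, -, -, hw⟩ := h
    exact hw.re0
  | lo =>
    obtain ⟨T, cl, cr, -, -, -, -, -, hw⟩ := h
    exact hw.re0
  | rr =>
    obtain ⟨T, -, -, -, -, hw⟩ := h
    exact hw.re0
  | ps =>
    obtain ⟨-, h1, -, h2, h3⟩ := h
    linarith only [h1, h2]

theorem RKe.ok.re_le (h : k.ok b w) : w.re ≤ 65 / 100 := by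
  cases k with
  | no =>
    have h0 : w = 0 := h
    rw [h0]
    norm_num
  | one =>
    obtain ⟨T, cr, -, -, -, -, -, hw⟩ := h
    exact hw.reM
  | lo =>
    obtain ⟨T, cl, cr, -, -, -, -, -, hw⟩ := h
    linarith only [hw, hw.reM]
  | rr =>
    obtain ⟨T, -, -, -, -, hw⟩ := h
    linarith only [hw, hw.reM]
  | ps =>
    obtain ⟨-, h1, -, h2, h3⟩ := h
    linarith only [h1, h2, h3]

/-- the ring variable is inside, if one of the heights is `≤ 0` -/
theorem RM.lt_half_one (h : RM b ρ w w' σ) (h1 : k.ok b w) (h2 : k'.ok b w')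
    (hq : w.im ≤ 0 ∨ w'.im ≤ 0) : |σ| < 1 / 2 :=
  h.lt_half_of h1.strip h2.strip (Or.inr hq)

end Pool.Agent.Work.MP_b30479_gt.G2
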