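import Pool.Agent.Work.MP_b30479_gt.G2.VHess

/-!
# Push-back along curves, at the level of the data
-/

namespace Pool.Agent.Work.MP_b30479_gt.G2

open Finset VOL Filter Topology

/-! ### continuity of the first derivatives -/

theorem continuousAt_LL {u : ℂ} (h : Complex.sin (Real.pi * u) ≠ 0) : ContinuousAt LL u := by
  have e : LL = fun u => Real.log ‖2 * Complex.sin (Real.pi * u)‖ := funext LL_eq
  rw [e]
  apply ContinuousAt.log
  · exact (by fun_prop : Continuous fun u : ℂ => ‖2 * Complex.sin (Real.pi * u)‖).continuousAt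
  · exact norm_ne_zero_iff.mpr (mul_ne_zero two_ne_zero h)

theorem continuousAt_YY {u : ℂ} (h : u.im ≠ 0 ∨ u ∈ strip) : ContinuousAt YY u := by
  rcases h with h | h
  · rcases lt_or_gt_of_ne h with h0 | h0
    · have h1 : ContinuousAt (fun u : ℂ => -(DT.Tr (-u.im) u.re - Real.pi / 2)) u := by
        have h2 := continuousAt_Tr (ρ := -u.im) (x := u.re) (by linarith)
        have h3 : ContinuousAt (fun u : ℂ => ((-u.im, u.re) : ℝ × ℝ)) u := by fun_prop
        exact ((ContinuousAt.comp (f := fun u : ℂ => ((-u.im, u.re) : ℝ × ℝ)) h2 h3).sub_const _).neg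
      refine h1.congr ?_
      filter_upwards [Complex.continuous_im.continuousAt.eventually (gt_mem_nhds h0)] with v hv
      unfold YY
      rw [if_neg (not_lt.2 hv.le), if_pos hv]
    · have h1 : ContinuousAt (fun u : ℂ => DT.Tr u.im u.re - Real.pi / 2) u := by
        have h2 := continuousAt_Tr (ρ := u.im) (x := u.re) (by linarith)
        have h3 : ContinuousAt (fun u : ℂ => ((u.im, u.re) : ℝ × ℝ)) u := by fun_prop
        exact (ContinuousAt.comp (f := fun u : ℂ => ((u.im, u.re) : ℝ × ℝ)) h2 h3).sub_const _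
      refine h1.congr ?_
      filter_upwards [Complex.continuous_im.continuousAt.eventually (lt_mem_nhds h0)] with v hv
      unfold YY
      rw [if_pos hv]
  · have h1 : ContinuousAt (fun u : ℂ => -(ph u).im) u :=
      (Complex.continuous_im.continuousAt.comp (hasDerivAt_ph h).continuousAt).neg
    refine h1.congr ?_
    filter_upwards [strip_open.mem_nhds h] with v hv
    rw [ph_im hv, neg_neg]

/-! ### right derivatives along curves -/

/-- a curve with a right derivative at `t` extends to a differentiable curve -/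
theorem exists_ext_within {E : Type*} [NormedAddCommGroup E] [NormedSpace ℝ E] {z : ℝ → E} {d : E}
    {t : ℝ} (hz : HasDerivWithinAt z d (Set.Ici t) t) :
    ∃ w : ℝ → E, (∀ s, t ≤ s → w s = z s) ∧ HasDerivAt w d t := by
  refine ⟨fun s => if t ≤ s then z s else z t + (s - t) • d, fun s hs => if_pos hs, ?_⟩
  have h1 : HasDerivWithinAt (fun s => if t ≤ s then z s else z t + (s - t) • d) d
      (Set.Ici t) t := by
    refine hz.congr (fun s hs => if_pos hs) (if_pos le_rfl)
  have h2 : HasDerivWithinAt (fun s => if t ≤ s then z s else z t + (s - t) • d) d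
      (Set.Iic t) t := by
    have h3 : HasDerivAt (fun s : ℝ => z t + (s - t) • d) d t := by
      have h4 : HasDerivAt (fun s : ℝ => z t + (s - t) • d) ((1 : ℝ) • d) t :=
        (((hasDerivAt_id' t).sub_const t).smul_const d).const_add (z t)
      simpa using h4
    refine h3.hasDerivWithinAt.congr (fun s hs => ?_) ?_
    · rcases lt_or_eq_of_le (show s ≤ t from hs) with h | h
      · exact if_neg (not_le.2 h)
      · subst h
        simp
    · simp
  have h3 := h2.union h1
  rwa [Set.Iic_union_Ici, hasDerivWithinAt_univ] at h3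

theorem cwa_sum {ι E : Type*} [Fintype ι] [NormedAddCommGroup E] {f : ι → ℝ → E} {s : Set ℝ} {t : ℝ}
    (h : ∀ i, ContinuousWithinAt (f i) s t) : ContinuousWithinAt (fun t => ∑ i, f i t) s t :=
  tendsto_finsetSum _ fun i _ => h i

variable {D Z K : Type} [Fintype D] [Fintype Z] [Fintype K]

/-- right derivative of `S.DV z X` along a curve -/
theorem hasDerivWithinAt_DV (S : Dat D Z K) {z : ℝ → D ⊕ Z → ℂ} {X Y : D ⊕ Z → ℂ} {t : ℝ}
    (hz : ∀ i, HasDerivWithinAt (fun t => z t i) (Y i) (Set.Ici t) t)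
    (h1 : ∀ k, (S.aff k X).re ≠ 0 → Complex.sin (Real.pi * S.form k (z t)) ≠ 0)
    (h2 : ∀ k, (S.aff k X).im ≠ 0 → (S.form k (z t)).im ≠ 0 ∨ S.form k (z t) ∈ strip) :
    HasDerivWithinAt (fun t => S.DV (z t) X) (S.HH (z t) X Y) (Set.Ici t) t := by
  choose w hw1 hw2 using fun i => exists_ext_within (hz i)
  have e : ∀ s, t ≤ s → (fun i => w i s) = z s := fun s hs => funext fun i => hw1 i s hs
  have h3 := hasDerivAt_DV S (z := fun s i => w i s) (X := X) (Y := Y) (t := t) hw2
    (by rw [e t le_rfl]; exact h1) (by rw [e t le_rfl]; exact h2)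
  rw [e t le_rfl] at h3
  exact h3.hasDerivWithinAt.congr (fun s hs => by rw [e s hs]) (by rw [e t le_rfl])

/-- continuity of `S.DV z X` along curves -/
theorem continuousWithinAt_DV (S : Dat D Z K) {z : ℝ → D ⊕ Z → ℂ} {X : D ⊕ Z → ℂ} {t : ℝ}
    {s : Set ℝ} (hz : ∀ i, ContinuousWithinAt (fun t => z t i) s t)
    (h1 : ∀ k, (S.aff k X).re ≠ 0 → Complex.sin (Real.pi * S.form k (z t)) ≠ 0)
    (h2 : ∀ k, (S.aff k X).im ≠ 0 → (S.form k (z t)).im ≠ 0 ∨ S.form k (z t) ∈ strip) :
    ContinuousWithinAt (fun t => S.DV (z t) X) s t := by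
  have hf : ∀ k, ContinuousWithinAt (fun t => S.form k (z t)) s t := by
    intro k
    unfold Dat.form
    exact continuousWithinAt_const.add (cwa_sum fun i => continuousWithinAt_const.mul (hz i))
  unfold Dat.DV
  refine ContinuousWithinAt.add ?_ ?_
  · unfold Dat.dqv
    apply Complex.continuous_re.continuousAt.comp_continuousWithinAt
    refine ((cwa_sum fun i => cwa_sum fun j => ?_).add continuousWithinAt_const).add
      (cwa_sum fun v => ?_)
    · exact continuousWithinAt_const.mul ((continuousWithinAt_const.mul (hz j)).add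
        ((hz i).mul continuousWithinAt_const))
    · exact (continuousWithinAt_const.mul ((continuousWithinAt_const.mul (hz (.inr v))).add
        continuousWithinAt_const)).mul continuousWithinAt_const
  · refine cwa_sum fun k => ?_
    refine ContinuousWithinAt.add ?_ ?_
    · by_cases hk : (S.aff k X).re = 0
      · rw [hk]
        simpa using continuousWithinAt_const
      · exact continuousWithinAt_const.mul (ContinuousAt.comp_continuousWithinAt
          (f := fun t => S.form k (z t)) (continuousAt_LL (h1 k hk)) (hf k))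
    · by_cases hk : (S.aff k X).im = 0
      · rw [hk]
        simpa using continuousWithinAt_const
      · exact continuousWithinAt_const.mul (ContinuousAt.comp_continuousWithinAt
          (f := fun t => S.form k (z t)) (continuousAt_YY (h2 k hk)) (hf k))

/-- a function with negative right derivatives decreases -/
theorem lt_of_right_deriv_neg {F F' : ℝ → ℝ} (hc : ContinuousOn F (Set.Icc 0 1))
    (hd : ∀ x ∈ Set.Ico (0 : ℝ) 1, HasDerivWithinAt F (F' x) (Set.Ici x) x)
    (hneg : ∀ x ∈ Set.Ico (0 : ℝ) 1, F' x < 0) : F 1 < F 0 := by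
  have key : ∀ a ∈ Set.Ico (0 : ℝ) 1, F 1 ≤ F a := by
    intro a ha
    have h := image_le_of_deriv_right_le_deriv_boundary (f := F) (f' := F') (a := a) (b := 1)
      (B := fun _ => F a) (B' := fun _ => 0)
      (hc.mono (Set.Icc_subset_Icc_left ha.1))
      (fun x hx => hd x ⟨ha.1.trans hx.1, hx.2⟩) le_rfl continuousOn_const
      (fun x _ => (hasDerivAt_const x (F a)).hasDerivWithinAt)
      (fun x hx => (hneg x ⟨ha.1.trans hx.1, hx.2⟩).le)
    exact h (Set.right_mem_Icc.2 ha.2.le)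
  have h0 : (0 : ℝ) ∈ Set.Ico (0 : ℝ) 1 := ⟨le_rfl, one_pos⟩
  have h1 := (hasDerivWithinAt_iff_tendsto_slope' (s := Set.Ioi (0 : ℝ)) (by simp)).1
    (hd 0 h0).Ioi_of_Ici
  have h2 : ∀ᶠ x in 𝓝[>] (0 : ℝ), slope F 0 x < 0 := h1.eventually (gt_mem_nhds (hneg 0 h0))
  have h3 : ∀ᶠ x in 𝓝[>] (0 : ℝ), x ∈ Set.Ioo (0 : ℝ) 1 := Ioo_mem_nhdsGT one_pos
  obtain ⟨x, hx1, hx2⟩ := (h2.and h3).exists
  rw [slope_def_field] at hx1
  have h4 : F x < F 0 := by
    by_contra hcon
    push Not at hcon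
    have : 0 ≤ (F x - F 0) / (x - 0) := div_nonneg (by linarith) (by linarith [hx2.1])
    linarith
  exact (key x ⟨hx2.1.le, hx2.2⟩).trans_lt h4

/-- **Push-back along a curve.** -/
theorem DV_lt_of_curve (S : Dat D Z K) {z Y : ℝ → D ⊕ Z → ℂ} {X : D ⊕ Z → ℂ}
    (hc : ∀ i, ContinuousOn (fun t => z t i) (Set.Icc 0 1))
    (hz : ∀ t ∈ Set.Ico (0 : ℝ) 1, ∀ i, HasDerivWithinAt (fun t => z t i) (Y t i) (Set.Ici t) t)
    (h1 : ∀ t ∈ Set.Icc (0 : ℝ) 1, ∀ k, (S.aff k X).re ≠ 0 →
      Complex.sin (Real.pi * S.form k (z t)) ≠ 0)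
    (h2 : ∀ t ∈ Set.Icc (0 : ℝ) 1, ∀ k, (S.aff k X).im ≠ 0 →
      (S.form k (z t)).im ≠ 0 ∨ S.form k (z t) ∈ strip)
    (hneg : ∀ t ∈ Set.Ico (0 : ℝ) 1, S.HH (z t) X (Y t) < 0) :
    S.DV (z 1) X < S.DV (z 0) X :=
  lt_of_right_deriv_neg (F := fun t => S.DV (z t) X) (F' := fun t => S.HH (z t) X (Y t))
    (fun t ht => continuousWithinAt_DV S (fun i => hc i t ht) (h1 t ht) (h2 t ht))
    (fun t ht => hasDerivWithinAt_DV S (hz t ht) (h1 t ⟨ht.1, ht.2.le⟩) (h2 t ⟨ht.1, ht.2.le⟩))
    hneg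

/-! ### linearity -/

omit [Fintype K] in
theorem aff_neg (S : Dat D Z K) (k : K) (X : D ⊕ Z → ℂ) : S.aff k (-X) = -S.aff k X := by
  unfold Dat.aff
  simp

theorem DV_neg (S : Dat D Z K) (z X : D ⊕ Z → ℂ) : S.DV z (-X) = -S.DV z X := by
  unfold Dat.DV Dat.dqv
  simp only [aff_neg, Pi.neg_apply, Complex.neg_re, Complex.neg_im, neg_mul, mul_neg,
    Finset.sum_neg_distrib, ← neg_add]

theorem HH_neg (S : Dat D Z K) (z X Y : D ⊕ Z → ℂ) : S.HH z (-X) Y = -S.HH z X Y := by
  unfold Dat.HH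
  simp only [aff_neg, Pi.neg_apply, Complex.neg_re, Complex.neg_im, neg_mul, mul_neg,
    Finset.sum_neg_distrib, ← neg_add]

/-- push-back in the other direction -/
theorem lt_DV_of_curve (S : Dat D Z K) {z Y : ℝ → D ⊕ Z → ℂ} {X : D ⊕ Z → ℂ}
    (hc : ∀ i, ContinuousOn (fun t => z t i) (Set.Icc 0 1))
    (hz : ∀ t ∈ Set.Ico (0 : ℝ) 1, ∀ i, HasDerivWithinAt (fun t => z t i) (Y t i) (Set.Ici t) t)
    (h1 : ∀ t ∈ Set.Icc (0 : ℝ) 1, ∀ k, (S.aff k X).re ≠ 0 →
      Complex.sin (Real.pi * S.form k (z t)) ≠ 0)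
    (h2 : ∀ t ∈ Set.Icc (0 : ℝ) 1, ∀ k, (S.aff k X).im ≠ 0 →
      (S.form k (z t)).im ≠ 0 ∨ S.form k (z t) ∈ strip)
    (hpos : ∀ t ∈ Set.Ico (0 : ℝ) 1, 0 < S.HH (z t) X (Y t)) :
    S.DV (z 0) X < S.DV (z 1) X := by
  have h := DV_lt_of_curve S (X := -X) hc hz
    (fun t ht k hk => h1 t ht k (by rw [aff_neg, Complex.neg_re, neg_ne_zero] at hk; exact hk))
    (fun t ht k hk => h2 t ht k (by rw [aff_neg, Complex.neg_im, neg_ne_zero] at hk; exact hk))
    (fun t ht => by rw [HH_neg, neg_neg_iff_pos]; exact hpos t ht)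
  rw [DV_neg, DV_neg, neg_lt_neg_iff] at h
  exact h

end Pool.Agent.Work.MP_b30479_gt.G2
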