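import Pool.Agent.Work.MP_b30479_gt.G2.SWordD
import Pool.Agent.Work.MP_b30479_gt.G2.MPWall

/-!
# Parameters of the paths of a word of the class `ClassW`

The only place where the numerical parameters are fixed.
-/

namespace Pool.Agent.Work.MP_b30479_gt.G2

namespace SR

/-- the class of a twist region seen from one of its hinges -/
inductive Cl
  | one | two | twoE | three | threeE | ring
  deriving DecidableEq

/-- the class of the twist region `a`; `e`: it is at an end of the word -/
def cls (a : ℤ) (e : Bool) : Cl :=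
  if a.natAbs = 1 then .one else if a.natAbs = 2 then (if e then .twoE else .two)
  else if a.natAbs = 3 then (if e then .threeE else .three) else .ring

/-- path parameters -/
structure HPar where
  XM : ℝ
  cl : ℝ
  cr : ℝ

/-- parameters of a hinge between a digit `±1` (on the left) and a region of class `B` (on the
right); `P` is the class of the left neighbour of the digit `±1` (not used at present) -/
noncomputable def hp1 (_ : Cl) : Cl → HPar
  | .one => ⟨80 / 100, 15 / 100, 20 / 100⟩
  | .two => ⟨80 / 100, 16 / 100, 29 / 100⟩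
  | .twoE => ⟨70 / 100, 14 / 100, 35 / 100⟩
  | .three => ⟨65 / 100, 13 / 100, 15 / 100⟩
  | .threeE => ⟨60 / 100, 14 / 100, 25 / 100⟩
  | .ring => ⟨65 / 100, 16 / 100, 29 / 100⟩

/-- parameters of a hinge between the regions of classes `A` and `B`; `P`, `Q` are the classes of
the outer neighbours -/
noncomputable def hp (P A B Q : Cl) : HPar :=
  match A, B with
  | .one, .one => if P = .one ∨ Q = .one then ⟨80 / 100, 15 / 100, 20 / 100⟩ else
      ⟨86 / 100, 15 / 100, 20 / 100⟩
  | .one, .two => hp1 P .two
  | .one, .twoE => hp1 P .twoE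
  | .one, .three => hp1 P .three
  | .one, .threeE => hp1 P .threeE
  | .one, .ring => hp1 P .ring
  | .two, .one => hp1 Q .two
  | .twoE, .one => hp1 Q .twoE
  | .three, .one => ⟨65 / 100, 15 / 100, 29 / 100⟩
  | .threeE, .one => hp1 Q .threeE
  | .ring, .one => hp1 Q .ring
  | .ring, .ring => ⟨50 / 100, 10 / 100, 2 / 100⟩
  | .two, .two => ⟨60 / 100, 10 / 100, 28 / 100⟩
  | .two, .twoE => ⟨60 / 100, 10 / 100, 33 / 100⟩
  | .twoE, .two => ⟨60 / 100, 10 / 100, 33 / 100⟩
  | .three, _ => ⟨60 / 100, 13 / 100, 30 / 100⟩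
  | .two, .three => ⟨60 / 100, 12 / 100, 27 / 100⟩
  | _, .three => ⟨60 / 100, 12 / 100, 30 / 100⟩
  | .threeE, .ring => ⟨60 / 100, 10 / 100, 34 / 100⟩
  | .ring, .threeE => ⟨60 / 100, 10 / 100, 34 / 100⟩
  | _, .ring => ⟨60 / 100, 125 / 1000, 30 / 100⟩
  | .ring, _ => ⟨60 / 100, 125 / 1000, 30 / 100⟩
  | _, _ => ⟨60 / 100, 10 / 100, 30 / 100⟩

/-- parameters of the inner variable of a region with three crossings -/
noncomputable def mp : Cl → HPar
  | .threeE => ⟨77 / 100, 1 / 10, 2 / 10⟩
  | _ => ⟨8 / 10, 5 / 100, 5 / 100⟩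

variable {M : ℕ} (b : Fin (M + 1) → ℤ)

/-- the twist region `i` is at an end of the word -/
def isEnd (i : Fin (M + 1)) : Bool := decide (i = 0 ∨ i = Fin.last M)

/-- class of the region `i` -/
def clsW (i : Fin (M + 1)) : Cl := cls (b i) (isEnd i)

/-- class of the region `n`; `.ring` outside the word -/
def clsN (n : ℕ) : Cl := if h : n < M + 1 then clsW b ⟨n, h⟩ else .ring

/-- class of the region to the left of the hinge `h`, next but one -/
def outL (h : Fin M) : Cl := if h.val = 0 then .ring else clsN b (h.val - 1)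

/-- class of the region to the right of the hinge `h`, next but one -/
def outR (h : Fin M) : Cl := clsN b (h.val + 2)

/-- parameters of the variables -/
noncomputable def par1 : DD (tyW b) → HPar
  | .inl h => hp (outL b h) (clsW b h.castSucc) (clsW b h.succ) (outR b h)
  | .inr m => mp (clsW b m.1)

/-- the parameters of the paths of the word `b` (`zs` is the saddle point) -/
noncomputable def wpar (zs : DD (tyW b) ⊕ ZZ (tyW b) → ℂ) : Par (DD (tyW b)) where
  XM i := (par1 b i).XM
  cl i := (par1 b i).cl
  cr i := (par1 b i).cr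
  hu i := if 0 < (zs (.inl i)).im then (zs (.inl i)).im else 1
  hd i := if (zs (.inl i)).im < 0 then -(zs (.inl i)).im else 1

/-- the parameters of the word `b` with given heights `H` of the paths which are not the main
paths; the main paths are those of `wpar` -/
noncomputable def wparH (H : DD (tyW b) → ℝ) (zs : DD (tyW b) ⊕ ZZ (tyW b) → ℂ) :
    Par (DD (tyW b)) :=
  { wpar b zs with
    hu := fun i => if 0 < (zs (.inl i)).im then (zs (.inl i)).im else H i
    hd := fun i => if (zs (.inl i)).im < 0 then -(zs (.inl i)).im else H i }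

theorem wparH_pos {H : DD (tyW b) → ℝ} (hH : ∀ i, 0 < H i) (zs : DD (tyW b) ⊕ ZZ (tyW b) → ℂ)
    (i : DD (tyW b)) : 0 < (wparH b H zs).hu i ∧ 0 < (wparH b H zs).hd i := by
  unfold wparH
  simp only
  constructor
  · split_ifs with h
    · exact h
    · exact hH i
  · split_ifs with h
    · linarith
    · exact hH i

theorem hp_good (P A B Q : Cl) :
    0 < (hp P A B Q).cl ∧ 0 < (hp P A B Q).cr ∧ (hp P A B Q).cl + (hp P A B Q).cr < (hp P A B Q).XM ∧
      (hp P A B Q).XM < 1 := by
  cases A <;> cases B <;> simp only [hp, hp1] <;> (try split_ifs) <;> norm_num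

theorem mp_good (A : Cl) : 0 < (mp A).cl ∧ 0 < (mp A).cr ∧ (mp A).cl + (mp A).cr < (mp A).XM ∧
    (mp A).XM < 1 := by
  cases A <;> norm_num [mp]

theorem par1_good (i : DD (tyW b)) : 0 < (par1 b i).cl ∧ 0 < (par1 b i).cr ∧
    (par1 b i).cl + (par1 b i).cr < (par1 b i).XM ∧ (par1 b i).XM < 1 := by
  rcases i with h | m
  · exact hp_good _ _ _ _
  · exact mp_good _

variable (zs : DD (tyW b) ⊕ ZZ (tyW b) → ℂ)

theorem wpar_good : (wpar b zs).Good := fun i =>
  ⟨(par1_good b i).1, (par1_good b i).2.1, (par1_good b i).2.2.1⟩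

theorem wpar_XM (i : DD (tyW b)) : (wpar b zs).XM i < 1 := (par1_good b i).2.2.2

theorem wpar_hu (i : DD (tyW b)) : 0 < (wpar b zs).hu i ∧ 0 < (wpar b zs).hd i := by
  unfold wpar
  simp only
  constructor
  · split_ifs with h
    · exact h
    · exact one_pos
  · split_ifs with h
    · linarith
    · exact one_pos

theorem tyW_std (i : Fin (M + 1)) : (tyW b i).Std := by
  unfold tyW
  split_ifs <;> trivial

/-- neighbours of type `one` have opposite signs -/
theorem tyW_one (hb : ClassW b) (h : Fin M) (h1 : tyW b h.castSucc = .one)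
    (_ : tyW b h.succ = .one) : sgb (b h.castSucc) + sgb (b h.succ) = 0 := by
  have a1 : (b h.castSucc).natAbs = 1 := by
    unfold tyW at h1
    split_ifs at h1 with h3
    exact h3
  have a2 := hb.same h
  have a3 : b h.castSucc * b h.succ ≤ 0 := by
    by_contra hcon
    have := (a2 (by omega)).1
    omega
  have n1 := hb.ne h.castSucc
  have n2 := hb.ne h.succ
  unfold sgb
  rcases lt_or_gt_of_ne n1 with c1 | c1 <;> rcases lt_or_gt_of_ne n2 with c2 | c2
  · exact absurd (mul_pos_of_neg_of_neg c1 c2) (by omega)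
  · rw [if_neg (by omega), if_pos c2]
    norm_num
  · rw [if_pos c1, if_neg (by omega)]
    norm_num
  · exact absurd (mul_pos c1 c2) (by omega)

end SR

end Pool.Agent.Work.MP_b30479_gt.G2
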