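import Pool.Agent.Work.MP_b30479_gt.G2.RLevT
import Pool.Agent.Work.MP_b30479_gt.G2.RngD
import Pool.Agent.Work.MP_b30479_gt.G2.WPar

/-!
# Ring sides: hinges next to a digit `2`, `3`, right ramp
-/

namespace Pool.Agent.Work.MP_b30479_gt.G2

open Finset VOL Filter Topology

variable {b ρ σ : ℝ} {w w' : ℂ} {k k' : RKe}

/-- the LL part for a hinge on `[3/10, 7/10]` -/
theorem LL_hinge_neg' (hρ : 0 < ρ) (hc : RCap b ρ) (hσ : |σ| < 1 / 2)
    (hx : 3 / 10 ≤ w.re) (hx' : w.re ≤ 7 / 10)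
    (h4 : b < 5 → |w.im| ≤ 125 / 1000) (h5 : |w.im| ≤ 158 / 1000) :
    LL (w + 1 / 2 + LT.zt ρ σ) + LL (w + 1 / 2 - LT.zt ρ σ) - 2 * LL w < 0 := by
  apply LL_lev_neg hx hx' hρ ?_ hσ
  rcases lt_or_ge b 5 with hb5 | hb5
  · right
    exact ⟨h4 hb5, hc.1⟩
  · left
    exact ⟨h5, by linarith only [hρ, hc, hb5, hc.2.1 hb5]⟩

/-- the YY part beyond `1/2`, ring variable far from `0` -/
theorem YY_hinge_right {x t τ η : ℝ} (hx : 1 / 2 ≤ x) (hx1 : x ≤ 3 / 4) (ht : t ≤ 0) (hτ : x - 1 / 2 ≤ τ)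
    (hτ' : τ ≤ 1 / 2) (hη : 0 < η) :
    YY ⟨x + 1 / 2 - τ, t + η⟩ + YY ⟨x + 1 / 2 + τ, t - η⟩ - 2 * YY ⟨x, t⟩ ≤ 0 := by
  have hpi := Real.pi_pos
  have hw : -(2 * YY ⟨x, t⟩) ≤ 2 * (Real.pi * (x - 1 / 2)) := by
    rcases ht.lt_or_eq with h | h
    · rw [YY_neg (u := ⟨x, t⟩) h]
      simp only
      have := Tr_le_pi_mul (s := -t) (x := x) hx (by linarith only [hx1]) (by linarith only [h])
      linarith only [this]
    · rw [YY_zero (u := ⟨x, t⟩) h]
      have : 0 ≤ Real.pi * (x - 1 / 2) := mul_nonneg hpi.le (by linarith only [hx])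
      linarith only [this]
  have hv : YY ⟨x + 1 / 2 + τ, t - η⟩ ≤ -(Real.pi / 2) - Real.pi * min (x - 1 / 2 + τ) (1 / 2) := by
    rw [YY_neg (u := ⟨x + 1 / 2 + τ, t - η⟩) (by simp only; linarith only [ht, hη])]
    simp only
    rw [show x + 1 / 2 + τ = (x - 1 / 2 + τ) + 1 by ring, Tr_add_one]
    rcases le_total (x - 1 / 2 + τ) (1 / 2) with h | h
    · rw [min_eq_left h]
      have := pi_mul_le_Tr (s := -(t - η)) (x := x - 1 / 2 + τ) (by linarith only [hx, hτ]) h (by linarith only [ht, hη])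
      linarith only [this]
    · rw [min_eq_right h]
      have := half_le_Tr (s := -(t - η)) (x := x - 1 / 2 + τ) (by linarith only [ht, hη]) h
      linarith only [this]
  have hu : YY ⟨x + 1 / 2 - τ, t + η⟩ ≤ Real.pi * (x - τ) := by
    have h0 : 0 ≤ Real.pi * (x - τ) := mul_nonneg hpi.le (by linarith only [hx, hτ'])
    rcases lt_trichotomy (t + η) 0 with h | h | h
    · rw [YY_neg (u := ⟨x + 1 / 2 - τ, t + η⟩) h]
      simp only
      have := half_le_Tr (s := -(t + η)) (x := x + 1 / 2 - τ) (by linarith only [h]) (by linarith only [hx, hτ'])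
      linarith only [h0, this]
    · rw [YY_zero (u := ⟨x + 1 / 2 - τ, t + η⟩) h]
      exact h0
    · rw [YY_pos (u := ⟨x + 1 / 2 - τ, t + η⟩) h]
      simp only
      have := Tr_le_pi_mul (s := t + η) (x := x + 1 / 2 - τ) (by linarith only [hx, hτ']) (by linarith only [hτ]) h
      linarith only [this]
  rcases le_total (x - 1 / 2 + τ) (1 / 2) with h | h
  · rw [min_eq_left h] at hv
    nlinarith only [hw, hv, hu, hτ, hpi]
  · rw [min_eq_right h] at hv
    nlinarith only [hw, hv, hu, hx1, hpi, hτ]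

/-- the YY part beyond `1/2`, ring variable near `0` -/
theorem YY_hinge_right' {x t τ η : ℝ} (hx : 1 / 2 ≤ x) (hx1 : x ≤ 1) (ht : t ≤ 0) (hτ : 0 ≤ τ)
    (hτ' : τ < x - 1 / 2) (hη : 0 < η) :
    YY ⟨x + 1 / 2 - τ, t + η⟩ + YY ⟨x + 1 / 2 + τ, t - η⟩ - 2 * YY ⟨x, t⟩ ≤
      Real.pi / 2 + 2 * (Real.pi * (x - 1 / 2)) := by
  have hpi := Real.pi_pos
  have hw : -(2 * YY ⟨x, t⟩) ≤ 2 * (Real.pi * (x - 1 / 2)) := by
    rcases ht.lt_or_eq with h | h
    · rw [YY_neg (u := ⟨x, t⟩) h]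
      simp only
      have := Tr_le_pi_mul (s := -t) (x := x) hx hx1 (by linarith only [h])
      linarith only [this]
    · rw [YY_zero (u := ⟨x, t⟩) h]
      have : 0 ≤ Real.pi * (x - 1 / 2) := mul_nonneg hpi.le (by linarith only [hτ, hτ'])
      linarith only [this]
  have hv : YY ⟨x + 1 / 2 + τ, t - η⟩ ≤ -(Real.pi / 2) := by
    rw [YY_neg (u := ⟨x + 1 / 2 + τ, t - η⟩) (by simp only; linarith only [ht, hη])]
    simp only
    have := Tr_mono (s := -(t - η)) (by linarith only [ht, hη]) (show 1 ≤ x + 1 / 2 + τ by linarith only [hτ, hτ'])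
    rw [Tr_one (by linarith only [ht, hη])] at this
    linarith only [this]
  have hu : YY ⟨x + 1 / 2 - τ, t + η⟩ ≤ Real.pi := by
    rcases lt_trichotomy (t + η) 0 with h | h | h
    · rw [YY_neg (u := ⟨x + 1 / 2 - τ, t + η⟩) h]
      simp only
      have := half_le_Tr (s := -(t + η)) (x := x + 1 / 2 - τ) (by linarith only [h]) (by linarith only [hτ'])
      linarith only [hpi, this]
    · rw [YY_zero (u := ⟨x + 1 / 2 - τ, t + η⟩) h]
      exact hpi.le
    · rw [YY_pos (u := ⟨x + 1 / 2 - τ, t + η⟩) h]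
      simp only
      rw [show x + 1 / 2 - τ = (x - 1 / 2 - τ) + 1 by ring, Tr_add_one]
      have := Tr_le_half (s := t + η) (x := x - 1 / 2 - τ) h (by linarith only [hx1, hτ])
      linarith only [this]
  linarith only [hw, hv, hu]

theorem mk_ztm1 (w : ℂ) (ρ σ : ℝ) : w + 1 / 2 + LT.zt ρ σ =
    ⟨w.re + 1 / 2 - -σ, w.im + ρ * LT.th σ⟩ := by
  rw [zt_eq]
  apply Complex.ext <;> simp

theorem mk_ztm2 (w : ℂ) (ρ σ : ℝ) : w + 1 / 2 - LT.zt ρ σ =
    ⟨w.re + 1 / 2 + -σ, w.im - ρ * LT.th σ⟩ := by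
  rw [zt_eq]
  apply Complex.ext <;> simp
  ring

section
open NumI NumI.E

private theorem c1 : (2 * Real.cosh (2 * Real.pi * (1045 / 10000)) - 2 * Real.cos (2 * Real.pi * (1 / 10))) *
    (2 * Real.cosh (2 * Real.pi * (144 / 1000)) - 2 * Real.cos (2 * Real.pi * (2 / 10))) ≤
    192 / 100 := by
  have g : chk [sub (q 192 100) (mul (sub (mul (q 2 1) (cosh (mul (mul (q 2 1) pi) (q 1045 10000))))
      (mul (q 2 1) (cosPi (q 2 10)))) (sub (mul (q 2 1) (cosh (mul (mul (q 2 1) pi) (q 144 1000))))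
      (mul (q 2 1) (cosPi (q 4 10)))))] 10 [V.of 1 0 0] = true := by
    decide +kernel
  have h := pos_of_chk (chk1 g (by norm_num) (x := 0) (by norm_num) (by norm_num))
  simp only [E.val] at h
  simp only [Int.cast_ofNat, Nat.cast_ofNat, Nat.cast_one, div_one] at h
  rw [show Real.pi * (2 / 10) = 2 * Real.pi * (1 / 10) by ring,
    show Real.pi * (4 / 10) = 2 * Real.pi * (2 / 10) by ring] at h
  linarith only [h]

private theorem c2 : (2 * Real.cosh (2 * Real.pi * (725 / 10000)) - 2 * Real.cos (2 * Real.pi * (1 / 10))) *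
    (2 * Real.cosh (2 * Real.pi * (117 / 1000)) - 2 * Real.cos (2 * Real.pi * (2 / 10))) ≤
    118 / 100 := by
  have g : chk [sub (q 118 100) (mul (sub (mul (q 2 1) (cosh (mul (mul (q 2 1) pi) (q 725 10000))))
      (mul (q 2 1) (cosPi (q 2 10)))) (sub (mul (q 2 1) (cosh (mul (mul (q 2 1) pi) (q 117 1000))))
      (mul (q 2 1) (cosPi (q 4 10)))))] 10 [V.of 1 0 0] = true := by
    decide +kernel
  have h := pos_of_chk (chk1 g (by norm_num) (x := 0) (by norm_num) (by norm_num))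
  simp only [E.val] at h
  simp only [Int.cast_ofNat, Nat.cast_ofNat, Nat.cast_one, div_one] at h
  rw [show Real.pi * (2 / 10) = 2 * Real.pi * (1 / 10) by ring,
    show Real.pi * (4 / 10) = 2 * Real.pi * (2 / 10) by ring] at h
  linarith only [h]

private theorem c3 : Real.cos (2 * Real.pi * (6 / 10)) ≤ -(809 / 1000) := by
  have g : chk [sub (neg (q 809 1000)) (cosPi (q 12 10))] 10 [V.of 1 0 0] = true := by
    decide +kernel
  have h := pos_of_chk (chk1 g (by norm_num) (x := 0) (by norm_num) (by norm_num))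
  simp only [E.val] at h
  simp only [Int.cast_ofNat, Nat.cast_ofNat] at h
  rw [show Real.pi * (12 / 10) = 2 * Real.pi * (6 / 10) by ring] at h
  linarith only [h]

private theorem c4 : Real.log (192 / 100) / 2 - Real.log (2 + 2 * (809 / 1000)) ≤ -(93 / 100) := by
  have g : chk [sub (neg (q 93 100)) (sub (mul (log (q 192 100)) (q 1 2)) (log (add (q 2 1) (mul (q 2 1) (q 809 1000)))))] 10 [V.of 1 0 0] = true := by
    decide +kernel
  have h := pos_of_chk (chk1 g (by norm_num) (x := 0) (by norm_num) (by norm_num))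
  simp only [E.val] at h
  simp only [Int.cast_ofNat, Nat.cast_ofNat, Int.cast_one, Nat.cast_one, div_one] at h
  linarith only [h]

private theorem c5 : Real.log (118 / 100) / 2 - Real.log (2 + 2 * (809 / 1000)) ≤ -(117 / 100) := by
  have g : chk [sub (neg (q 117 100)) (sub (mul (log (q 118 100)) (q 1 2)) (log (add (q 2 1) (mul (q 2 1) (q 809 1000)))))] 10 [V.of 1 0 0] = true := by
    decide +kernel
  have h := pos_of_chk (chk1 g (by norm_num) (x := 0) (by norm_num) (by norm_num))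
  simp only [E.val] at h
  simp only [Int.cast_ofNat, Nat.cast_ofNat, Int.cast_one, Nat.cast_one, div_one] at h
  linarith only [h]

end

/-- the LL part near `σ = 0` beyond `1/2` -/
theorem LL_right_le {x t τ η y1 y2 P L : ℝ} (hx : 1 / 2 ≤ x) (hx1 : x ≤ 6 / 10) (hτ : 0 ≤ τ)
    (hτ' : τ < x - 1 / 2) (h1 : |t + η| ≤ y1) (h2 : |t - η| ≤ y2) (hy : t - η ≠ 0)
    (hP : (2 * Real.cosh (2 * Real.pi * y1) - 2 * Real.cos (2 * Real.pi * (1 / 10))) *
    (2 * Real.cosh (2 * Real.pi * y2) - 2 * Real.cos (2 * Real.pi * (2 / 10))) ≤ P)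
    (hL : Real.log P / 2 - Real.log (2 + 2 * (809 / 1000)) ≤ L) :
    LL ⟨x + 1 / 2 - τ, t + η⟩ + LL ⟨x + 1 / 2 + τ, t - η⟩ - 2 * LL ⟨x, t⟩ ≤ L := by
  have hpi := Real.pi_pos
  have c0 : ∀ y Y : ℝ, |y| ≤ Y → Real.cosh (2 * Real.pi * y) ≤ Real.cosh (2 * Real.pi * Y) := by
    intro y Y h
    rw [Real.cosh_le_cosh, abs_mul (2 * Real.pi), abs_mul (2 * Real.pi),
      abs_of_pos (show 0 < 2 * Real.pi by positivity)]
    exact mul_le_mul_of_nonneg_left (h.trans (le_abs_self Y)) (by positivity)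
  have ku : 2 * Real.cosh (2 * Real.pi * (t + η)) - 2 * Real.cos (2 * Real.pi * (x + 1 / 2 - τ)) ≤
      2 * Real.cosh (2 * Real.pi * y1) - 2 * Real.cos (2 * Real.pi * (1 / 10)) := by
    have a1 := c0 _ _ h1
    have a2 : Real.cos (2 * Real.pi * (1 / 10)) ≤ Real.cos (2 * Real.pi * (x + 1 / 2 - τ)) := by
      rw [show 2 * Real.pi * (x + 1 / 2 - τ) = 2 * Real.pi * (x - 1 / 2 - τ) + 2 * Real.pi by ring,
        Real.cos_add_two_pi]
      apply Real.cos_le_cos_of_nonneg_of_le_pi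
      · have : 0 ≤ x - 1 / 2 - τ := by linarith only [hτ']
        positivity
      · nlinarith only [hpi]
      · nlinarith only [hx1, hpi, hτ]
    linarith only [a1, a2]
  have kv : 2 * Real.cosh (2 * Real.pi * (t - η)) - 2 * Real.cos (2 * Real.pi * (x + 1 / 2 + τ)) ≤
      2 * Real.cosh (2 * Real.pi * y2) - 2 * Real.cos (2 * Real.pi * (2 / 10)) := by
    have a1 := c0 _ _ h2
    have a2 : Real.cos (2 * Real.pi * (2 / 10)) ≤ Real.cos (2 * Real.pi * (x + 1 / 2 + τ)) := by
      rw [show 2 * Real.pi * (x + 1 / 2 + τ) = 2 * Real.pi * (x - 1 / 2 + τ) + 2 * Real.pi by ring,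
        Real.cos_add_two_pi]
      apply Real.cos_le_cos_of_nonneg_of_le_pi
      · have : 0 ≤ x - 1 / 2 + τ := by linarith only [hτ, hτ']
        positivity
      · nlinarith only [hpi]
      · nlinarith only [hx1, hpi, hτ']
    linarith only [a1, a2]
  have kw : 2 + 2 * (809 / 1000) ≤ 2 * Real.cosh (2 * Real.pi * t) - 2 * Real.cos (2 * Real.pi * x) := by
    have a1 := Real.one_le_cosh (2 * Real.pi * t)
    have a2 : Real.cos (2 * Real.pi * x) ≤ Real.cos (2 * Real.pi * (6 / 10)) := by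
      rw [← Real.cos_two_pi_sub (2 * Real.pi * x), ← Real.cos_two_pi_sub (2 * Real.pi * (6 / 10))]
      apply Real.cos_le_cos_of_nonneg_of_le_pi <;> nlinarith only [hpi, hx, hx1]
    linarith only [a1, a2, c3]
  have n1 : Complex.sin (Real.pi * (⟨x + 1 / 2 - τ, t + η⟩ : ℂ)) ≠ 0 := by
    intro hc
    rw [Complex.sin_eq_zero_iff] at hc
    obtain ⟨k, hk⟩ := hc
    have hk1 : (⟨x + 1 / 2 - τ, t + η⟩ : ℂ) = k := by
      have : (Real.pi : ℂ) ≠ 0 := by exact_mod_cast hpi.ne'
      apply mul_left_cancel₀ this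
      rw [hk]
      ring
    have hk2 := congrArg Complex.re hk1
    simp only [Complex.intCast_re] at hk2
    have a1 : (1 : ℝ) < k := by linarith only [hτ', hk2]
    have a2 : (k : ℝ) < 2 := by linarith only [hx1, hτ, hk2, a1]
    have a3 : (1 : ℤ) < k := by exact_mod_cast a1
    have a4 : k < (2 : ℤ) := by exact_mod_cast a2
    omega
  have p1 := cosh_sub_cos_pos n1
  have p2 := cosh_sub_cos_pos (sin_ne_of_im (u := ⟨x + 1 / 2 + τ, t - η⟩) (by simpa using hy))
  simp only at p1 p2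
  rw [LL_eq', LL_eq', LL_eq']
  simp only
  have q1 : 0 < 2 * Real.cosh (2 * Real.pi * (t + η)) - 2 * Real.cos (2 * Real.pi * (x + 1 / 2 - τ)) := by
    linarith only [p1]
  have q2 : 0 < 2 * Real.cosh (2 * Real.pi * (t - η)) - 2 * Real.cos (2 * Real.pi * (x + 1 / 2 + τ)) := by
    linarith only [p2]
  have l1 : Real.log (2 * Real.cosh (2 * Real.pi * (t + η)) - 2 * Real.cos (2 * Real.pi * (x + 1 / 2 - τ))) +
      Real.log (2 * Real.cosh (2 * Real.pi * (t - η)) - 2 * Real.cos (2 * Real.pi * (x + 1 / 2 + τ))) ≤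
      Real.log P := by
    rw [← Real.log_mul q1.ne' q2.ne']
    apply Real.log_le_log (mul_pos q1 q2)
    exact (mul_le_mul ku kv q2.le (q1.le.trans ku)).trans hP
  have l2 := Real.log_le_log (by norm_num) kw
  linarith only [hL, l1, l2]

/-- **right ramp next to a digit `2`, `3`** (`m = -T/cr ≥ 0`), shift `0` -/
theorem RM.right_lo (h : RM b ρ w w' σ) (hc : RCap b ρ) (h1 : RKe.lo.ok b w)
    (hσ : σ ≤ 0) (hs : |σ| < 1 / 2) {m : ℝ} (hm : 0 ≤ m) (hm4 : b < 5 → m ≤ 384 / 1000)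
    (hm5 : m ≤ 437 / 1000) (hx : 3 / 10 ≤ w.re) : S4 m w (LT.zt ρ σ) < 0 := by
  have hpi := Real.pi_pos
  have hpi4 := Real.pi_lt_d4
  have him := RKe.ok.im_nonpos h1 rfl
  obtain ⟨T, cl, cr, t1, t2, t3, ⟨l1, l2⟩, ⟨r1, r2⟩, hw⟩ := h1
  have hge := hw.im_ge t2
  have hη : 0 < ρ * LT.th σ := mul_pos h.ρ0 (th_pos hs)
  have hηρ : ρ * LT.th σ ≤ ρ := by
    have := mul_le_mul_of_nonneg_left (th_le_one σ) h.ρ0.le
    linarith only [this]
  have hxM := hw.reM
  have habs : |w.im| = -w.im := abs_of_nonpos him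
  have a1 := LL_hinge_neg' (b := b) h.ρ0 hc hs hx (by linarith only [hxM])
    (fun h5 => by rw [habs]; linarith only [t1, hge, t3, h5, t3 h5]) (by rw [habs]; linarith only [t1, hge])
  rcases le_total w.re (1 / 2) with hx2 | hx2
  · have a2 := YY_hinge_nonpos (x := w.re) (t := w.im) (σ := σ) (η := ρ * LT.th σ) hw.re0 hx2 him hσ
      (abs_le.mp h.mem).1 hη.le (re_im_eq w) (zt_eq ρ σ)
    have a3 := mul_nonpos_of_nonneg_of_nonpos hm a2
    unfold S4
    linarith only [a1, a3]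
  · rcases le_or_gt (w.re - 1 / 2) (-σ) with h3 | h3
    · have a2 := YY_hinge_right (x := w.re) (t := w.im) (τ := -σ) (η := ρ * LT.th σ) hx2 (by linarith only [hxM])
        him h3 (by linarith only [h, (abs_le.mp h.mem).1]) hη
      rw [← mk_ztm1, ← mk_ztm2] at a2
      have a3 := mul_nonpos_of_nonneg_of_nonpos hm a2
      unfold S4
      have e : (⟨w.re, w.im⟩ : ℂ) = w := Complex.eta w
      rw [e] at a3
      linarith only [a1, a3]
    · have a2 := YY_hinge_right' (x := w.re) (t := w.im) (τ := -σ) (η := ρ * LT.th σ) hx2 (by linarith only [hσ, hxM, h3])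
        him (by linarith only [hσ]) h3 hη
      -- the height on the ramp
      have hni := hw.neg_im_le t2 (by linarith only [hσ, r1, hxM, h3])
      have hfr : (60 / 100 - w.re) / cr ≤ 1 / 3 := by
        rw [div_le_iff₀ (by linarith only [hσ, r1, hxM, h3])]
        linarith only [hσ, r1, h3]
      have hfr0 : 0 ≤ (60 / 100 - w.re) / cr := div_nonneg (by linarith only [hxM]) (by linarith only [hσ, r1, hxM, h3])
      have k : ∀ a : ℝ, -T ≤ a → -w.im ≤ a / 3 := by
        intro a ha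
        have h0 : 0 ≤ -T := by linarith only [t2]
        have := mul_le_mul ha hfr hfr0 (h0.trans ha)
        linarith only [hni, this]
      have key : ∀ y1 y2 P L : ℝ, (2 * Real.cosh (2 * Real.pi * y1) - 2 * Real.cos (2 * Real.pi * (1 / 10))) *
          (2 * Real.cosh (2 * Real.pi * y2) - 2 * Real.cos (2 * Real.pi * (2 / 10))) ≤ P →
          Real.log P / 2 - Real.log (2 + 2 * (809 / 1000)) ≤ L → -w.im ≤ y1 → ρ ≤ y1 →
          -w.im + ρ ≤ y2 → m * (7 / 10 * Real.pi) + L < 0 → S4 m w (LT.zt ρ σ) < 0 := by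
        intro y1 y2 P L g1 g2 g3 g4 g5 g6
        have b1 := LL_right_le (x := w.re) (t := w.im) (τ := -σ) (η := ρ * LT.th σ) hx2 (by linarith only [hxM])
          (by linarith only [hσ]) h3 (y1 := y1) (y2 := y2)
          (by rw [abs_le]; constructor <;> linarith only [hη, g3, him, hηρ, g4]) (by rw [abs_le]; constructor <;> linarith only [hηρ, g5, him, hη])
          (by intro h0; linarith only [him, hη, h0]) g1 g2
        have e : (⟨w.re, w.im⟩ : ℂ) = w := Complex.eta w
        rw [← mk_ztm1, ← mk_ztm2, e] at a2 b1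
        have b2 : m * (YY (w + 1 / 2 + LT.zt ρ σ) + YY (w + 1 / 2 - LT.zt ρ σ) - 2 * YY w) ≤
            m * (7 / 10 * Real.pi) := by
          apply mul_le_mul_of_nonneg_left _ hm
          have : Real.pi * (w.re - 1 / 2) ≤ Real.pi * (1 / 10) :=
            mul_le_mul_of_nonneg_left (by linarith only [hxM]) hpi.le
          linarith only [a2, this]
        unfold S4
        linarith only [g6, b1, b2]
      rcases lt_or_ge b 5 with hb5 | hb5
      · have k1 := k (115 / 1000) (by linarith only [t3, hb5, t3 hb5])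
        have k2 := hc.1
        refine key (1045 / 10000) (144 / 1000) (192 / 100) (-(93 / 100)) c1 c4 (by linarith only [hη, hηρ, k1, k2]) k2
          (by linarith only [hη, hηρ, k1, k2]) ?_
        have := mul_le_mul (hm4 hb5) hpi4.le hpi.le (by norm_num)
        linarith only [hη, hηρ, k2, this]
      · have k1 := k (131 / 1000) (by linarith only [t1])
        have k2 := hc.2.1 hb5
        refine key (725 / 10000) (117 / 1000) (118 / 100) (-(117 / 100)) c2 c5 (by linarith only [hη, hηρ, k1, k2]) k2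
          (by linarith only [hη, hηρ, k1, k2]) ?_
        have := mul_le_mul hm5 hpi4.le hpi.le (by norm_num)
        linarith only [hη, hηρ, k2, this]

end Pool.Agent.Work.MP_b30479_gt.G2
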