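import Pool.Agent.Work.MP_b30479_gt.G2.GE3
import Pool.Agent.Work.MP_b30479_gt.G2.RngR

/-!
# Floors of `1 | ring` and `2 | ring` at a large hinge `1 | 2`: the side of the ring

`sideA`, `sideB`: lower bounds of the side of the ring at slope `0`.
-/

namespace Pool.Agent.Work.MP_b30479_gt.G2

open VOL NumI

namespace CF3



variable {b ρ σ x T e s : ℝ} {w w' ζ : ℂ} {k k' : RKe}

/-! ### numbers -/

section
open NumI.E

private def k0 (n : ℤ) : E := sub (sinPi (q n 100)) (mul (sinh (mul (mul (q 2 1) pi) (var 0)))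
  (sinh (mul (mul (q 2 1) pi) (var 1))))

private theorem k0_of {n : ℤ} {τ ρ : ℝ} (h : 0 < (k0 n).val [τ, ρ]) :
    Real.sinh (2 * Real.pi * τ) * Real.sinh (2 * Real.pi * ρ) ≤
      Real.sin (2 * Real.pi * ((n : ℝ) / 200)) := by
  simp only [k0, E.val, lkR_zero, lkR_one] at h
  simp only [Int.cast_ofNat, Nat.cast_ofNat, Int.cast_one, Nat.cast_one, div_one] at h
  have e : 2 * Real.pi * ((n : ℝ) / 200) = Real.pi * (n / 100) := by ring
  rw [e]
  linarith only [h]

private theorem K_lo4 {τ ρ : ℝ} (h0 : 0 ≤ τ) (h1 : τ ≤ 115 / 1000) (h2 : 0 ≤ ρ) (h3 : ρ ≤ 1089 / 10000) :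
    Real.sinh (2 * Real.pi * τ) * Real.sinh (2 * Real.pi * ρ) ≤
      Real.sin (2 * Real.pi * (1 / 10)) := by
  have g : chk [k0 20] 40 [V.of 10000 0 1150, V.of 10000 0 1089] = true := by decide +kernel
  have := k0_of (pos_of_chk (chk2 g (x := τ) (y := ρ) (by norm_num) (by simpa using h0)
    (by norm_num; linarith only [h1]) (by simpa using h2) (by norm_num; linarith only [h3])))
  norm_num at this ⊢
  linarith only [this]

private theorem K_lo5 {τ ρ : ℝ} (h0 : 0 ≤ τ) (h1 : τ ≤ 131 / 1000) (h2 : 0 ≤ ρ) (h3 : ρ ≤ 756 / 10000) :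
    Real.sinh (2 * Real.pi * τ) * Real.sinh (2 * Real.pi * ρ) ≤
      Real.sin (2 * Real.pi * (1 / 10)) := by
  have g : chk [k0 20] 40 [V.of 10000 0 1310, V.of 10000 0 756] = true := by decide +kernel
  have := k0_of (pos_of_chk (chk2 g (x := τ) (y := ρ) (by norm_num) (by simpa using h0)
    (by norm_num; linarith only [h1]) (by simpa using h2) (by norm_num; linarith only [h3])))
  norm_num at this ⊢
  linarith only [this]

private theorem K_rr4 {τ ρ : ℝ} (h0 : 0 ≤ τ) (h1 : τ ≤ 25 / 1000) (h2 : 0 ≤ ρ) (h3 : ρ ≤ 1089 / 10000) :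
    Real.sinh (2 * Real.pi * τ) * Real.sinh (2 * Real.pi * ρ) ≤
      Real.sin (2 * Real.pi * (2 / 100)) := by
  have g : chk [k0 4] 40 [V.of 10000 0 250, V.of 10000 0 1089] = true := by decide +kernel
  have := k0_of (pos_of_chk (chk2 g (x := τ) (y := ρ) (by norm_num) (by simpa using h0)
    (by norm_num; linarith only [h1]) (by simpa using h2) (by norm_num; linarith only [h3])))
  norm_num at this ⊢
  linarith only [this]

private theorem K_rr5 {τ ρ : ℝ} (h0 : 0 ≤ τ) (h1 : τ ≤ 385 / 10000) (h2 : 0 ≤ ρ) (h3 : ρ ≤ 756 / 10000) :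
    Real.sinh (2 * Real.pi * τ) * Real.sinh (2 * Real.pi * ρ) ≤
      Real.sin (2 * Real.pi * (2 / 100)) := by
  have g : chk [k0 4] 40 [V.of 10000 0 385, V.of 10000 0 756] = true := by decide +kernel
  have := k0_of (pos_of_chk (chk2 g (x := τ) (y := ρ) (by norm_num) (by simpa using h0)
    (by norm_num; linarith only [h1]) (by simpa using h2) (by norm_num; linarith only [h3])))
  norm_num at this ⊢
  linarith only [this]

private theorem K_one4 {τ ρ : ℝ} (h0 : 0 ≤ τ) (h1 : τ ≤ 128 / 1000) (h2 : 0 ≤ ρ) (h3 : ρ ≤ 1089 / 10000) :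
    Real.sinh (2 * Real.pi * τ) * Real.sinh (2 * Real.pi * ρ) ≤
      Real.sin (2 * Real.pi * (12 / 100)) := by
  have g : chk [k0 24] 40 [V.of 10000 0 1280, V.of 10000 0 1089] = true := by decide +kernel
  have := k0_of (pos_of_chk (chk2 g (x := τ) (y := ρ) (by norm_num) (by simpa using h0)
    (by norm_num; linarith only [h1]) (by simpa using h2) (by norm_num; linarith only [h3])))
  norm_num at this ⊢
  linarith only [this]

private theorem K_one5 {τ ρ : ℝ} (h0 : 0 ≤ τ) (h1 : τ ≤ 158 / 1000) (h2 : 0 ≤ ρ) (h3 : ρ ≤ 756 / 10000) :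
    Real.sinh (2 * Real.pi * τ) * Real.sinh (2 * Real.pi * ρ) ≤
      Real.sin (2 * Real.pi * (12 / 100)) := by
  have g : chk [k0 24] 40 [V.of 10000 0 1580, V.of 10000 0 756] = true := by decide +kernel
  have := k0_of (pos_of_chk (chk2 g (x := τ) (y := ρ) (by norm_num) (by simpa using h0)
    (by norm_num; linarith only [h1]) (by simpa using h2) (by norm_num; linarith only [h3])))
  norm_num at this ⊢
  linarith only [this]

private theorem K_sin : (24 : ℝ) / 25 ≤ Real.sin (Real.pi * (41 / 100)) := by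
  have g : chk [sub (sinPi (q 41 100)) (q 24 25)] 1 [V.of 1 0 0] = true := by decide +kernel
  have h := pos_of_chk (chk1 g (by norm_num) (x := 0) (by norm_num) (by norm_num))
  simp only [NumI.E.val] at h
  push_cast at h
  linarith only [h]

end

/-! ### the derivative of the other hinge on the flat part -/

theorem sin_sigma (h0 : -(1 / 4) ≤ σ) (h1 : σ ≤ -(205 / 1000)) :
    24 / 25 ≤ Real.sin (2 * Real.pi * -σ) := by
  have hpi := Real.pi_pos
  refine K_sin.trans ?_
  apply Real.sin_le_sin_of_le_of_le_pi_div_two <;> nlinarith only [hpi, h0, h1]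

/-- the condition at `25/24 ρ` is enough on the flat part -/
theorem PCond.flat {ρ' : ℝ} (h : PCond ρ' w) (hρ' : 25 / 24 * ρ = ρ') (hρ : 0 < ρ)
    (h0 : -(1 / 4) ≤ σ) (h1 : σ ≤ -(205 / 1000)) (ht : w.im ≤ 0) :
    Real.sinh (2 * Real.pi * -w.im) * Real.sinh (2 * Real.pi * ρ) ≤
      Real.sin (2 * Real.pi * w.re) * Real.sin (2 * Real.pi * -σ) := by
  have hpi := Real.pi_pos
  have e3 : Real.sinh (2 * Real.pi * ρ) ≤ 24 / 25 * Real.sinh (2 * Real.pi * ρ') := by
    have := sinh_mul_le (l := 24 / 25) (z := 2 * Real.pi * ρ') (by norm_num) (by norm_num)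
      (by rw [← hρ']; positivity)
    rwa [show 24 / 25 * (2 * Real.pi * ρ') = 2 * Real.pi * ρ by rw [← hρ']; ring] at this
  have e4 : 0 ≤ Real.sinh (2 * Real.pi * -w.im) := by
    rw [Real.sinh_nonneg_iff]
    have : 0 ≤ -w.im := by linarith only [ht]
    positivity
  have e5 : 0 ≤ Real.sinh (2 * Real.pi * ρ') := by
    rw [Real.sinh_nonneg_iff, ← hρ']
    positivity
  unfold PCond at h
  have e6 : 0 ≤ Real.sin (2 * Real.pi * w.re) := (mul_nonneg e4 e5).trans h
  have e7 := sin_sigma h0 h1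
  calc _ ≤ Real.sinh (2 * Real.pi * -w.im) * (24 / 25 * Real.sinh (2 * Real.pi * ρ')) :=
        mul_le_mul_of_nonneg_left e3 e4
    _ = 24 / 25 * (Real.sinh (2 * Real.pi * -w.im) * Real.sinh (2 * Real.pi * ρ')) := by ring
    _ ≤ 24 / 25 * Real.sin (2 * Real.pi * w.re) := mul_le_mul_of_nonneg_left h (by norm_num)
    _ ≤ _ := by
      rw [mul_comm]
      exact mul_le_mul_of_nonneg_left e7 e6

/-- the same for height `≥ 0` and `Re w ≤ 1/4 - σ` -/
theorem LL_ring_nonneg_pos {t η : ℝ} (hw : w = x + t * Complex.I) (hζ : ζ = σ + η * Complex.I)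
    (ht : 0 ≤ t) (hη : 0 ≤ η) (hx : 0 ≤ x) (hx' : x + σ ≤ 1 / 4) (h0 : -(1 / 4) ≤ σ) (h1 : σ ≤ 0) :
    0 ≤ LL (w + 1 / 2 + ζ) - LL (w + 1 / 2 - ζ) := by
  have hpi := Real.pi_pos
  have ui : (w + 1 / 2 + ζ).im = t + η := by rw [hw, hζ]; simp
  have ur : (w + 1 / 2 + ζ).re = x + 1 / 2 + σ := by rw [hw, hζ]; simp
  have vi : (w + 1 / 2 - ζ).im = t - η := by rw [hw, hζ]; simp
  have vr : (w + 1 / 2 - ζ).re = x + 1 / 2 - σ := by rw [hw, hζ]; simp
  have a1 : 0 ≤ Real.sinh (2 * Real.pi * t) * Real.sinh (2 * Real.pi * η) := by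
    apply mul_nonneg
    · rw [Real.sinh_nonneg_iff]
      positivity
    · rw [Real.sinh_nonneg_iff]
      positivity
  have a2 : 0 ≤ Real.sin (2 * Real.pi * x) * Real.sin (2 * Real.pi * -σ) := by
    apply mul_nonneg
    · apply Real.sin_nonneg_of_nonneg_of_le_pi
      · positivity
      · nlinarith only [hx', hpi, h0]
    · apply Real.sin_nonneg_of_nonneg_of_le_pi
      · have : 0 ≤ -σ := by linarith only [h1]
        positivity
      · nlinarith only [hpi, h0]
  rw [mul_neg, Real.sin_neg] at a2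
  rw [LL_eq', LL_eq', ui, ur, vi, vr]
  have e1 : Real.cos (2 * Real.pi * (x + 1 / 2 + σ)) =
      -(Real.cos (2 * Real.pi * x) * Real.cos (2 * Real.pi * σ) -
        Real.sin (2 * Real.pi * x) * Real.sin (2 * Real.pi * σ)) := by
    rw [show 2 * Real.pi * (x + 1 / 2 + σ) = 2 * Real.pi * x + 2 * Real.pi * σ + Real.pi by ring,
      Real.cos_add_pi, Real.cos_add]
  have e2 : Real.cos (2 * Real.pi * (x + 1 / 2 - σ)) =
      -(Real.cos (2 * Real.pi * x) * Real.cos (2 * Real.pi * σ) +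
        Real.sin (2 * Real.pi * x) * Real.sin (2 * Real.pi * σ)) := by
    rw [show 2 * Real.pi * (x + 1 / 2 - σ) = 2 * Real.pi * x - 2 * Real.pi * σ + Real.pi by ring,
      Real.cos_add_pi, Real.cos_sub]
  have e3 : Real.cosh (2 * Real.pi * (t + η)) = Real.cosh (2 * Real.pi * t) *
      Real.cosh (2 * Real.pi * η) + Real.sinh (2 * Real.pi * t) * Real.sinh (2 * Real.pi * η) := by
    rw [mul_add, Real.cosh_add]
  have e4 : Real.cosh (2 * Real.pi * (t - η)) = Real.cosh (2 * Real.pi * t) *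
      Real.cosh (2 * Real.pi * η) - Real.sinh (2 * Real.pi * t) * Real.sinh (2 * Real.pi * η) := by
    rw [mul_sub, Real.cosh_sub]
  have h3 := Real.one_le_cosh (2 * Real.pi * (t - η))
  have h4 := Real.one_le_cosh (2 * Real.pi * (t + η))
  have h2 := Real.cos_le_one (2 * Real.pi * (x + 1 / 2 - σ))
  have h5 : Real.cos (2 * Real.pi * (x + 1 / 2 + σ)) ≤ 0 := by
    apply Real.cos_nonpos_of_pi_div_two_le_of_le
    · nlinarith only [hx, hpi, h0]
    · nlinarith only [hx', hpi]
  rw [← sub_div]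
  apply div_nonneg _ (by norm_num)
  rw [sub_nonneg]
  rcases eq_or_lt_of_le (show 0 ≤ 2 * Real.cosh (2 * Real.pi * (t - η)) -
      2 * Real.cos (2 * Real.pi * (x + 1 / 2 - σ)) by linarith only [h3, h2]) with h6 | h6
  · rw [← h6, Real.log_zero]
    exact Real.log_nonneg (by linarith only [a1, e3, e4, h3, h5])
  · apply Real.log_le_log h6
    rw [e1, e2, e3, e4]
    linarith only [a1, a2]

/-- the derivative of a hinge `≤ .38` (`≤ .40`) is `≥ 0` -/
theorem D0_nonneg (hk : k.ok b w) (hc : RCap b ρ) (hb : 4 ≤ b) (hρ : 0 < ρ)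
    (h0 : -(1 / 4) ≤ σ) (h1 : σ ≤ -(205 / 1000)) (hx : k = .one → w.re ≤ 38 / 100)
    (hx' : k = .lo → w.re ≤ 40 / 100) (hp : k = .ps → w.re ≤ 40 / 100) (hr : k.cp ρ w) :
    0 ≤ Dm 0 w (LT.zt ρ σ) := by
  have hpi := Real.pi_pos
  obtain ⟨c4, c5, -, -, -⟩ := hc
  have hth : LT.th σ = 1 := th_of_le (by rw [abs_of_nonpos (by linarith only [hρ, h1, c4])]; linarith only [h0])
  have hz : LT.zt ρ σ = (σ : ℂ) + (ρ : ℂ) * Complex.I := by
    rw [zt_mk, hth, mul_one]
  have hρ' : 0 ≤ 25 / 24 * ρ := by positivity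
  cases k with
  | no =>
    have e0 : w = 0 := hk
    have h1 := LL_one_sub (0 + 1 / 2 + LT.zt ρ σ)
    rw [show (1 : ℂ) - (0 + 1 / 2 + LT.zt ρ σ) = 0 + 1 / 2 - LT.zt ρ σ by ring] at h1
    rw [e0]
    unfold Dm Dq
    rw [h1]
    simp
  | one =>
    have hx := hx rfl
    obtain ⟨T, cr, t1, t2, t3, t4, ⟨r1, r2⟩, hw⟩ := hk
    have him : w.im ≤ 0 := by
      rw [hw.im]
      exact mul_nonpos_of_nonpos_of_nonneg (by linarith only [hρ, c4, t2]) (le_max_left _ _)
    have hP : PCond (25 / 24 * ρ) w := by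
      refine PCond_start (c0 := 12 / 100) hρ' (by linarith only [hρ, c4, t2]) (by norm_num) (by norm_num)
        (by norm_num) (by linarith only [hρ, c4, r1]) (by linarith only [hρ, c4, r2]) hw (by linarith only [hx]) ?_
      rcases lt_or_ge b 5 with hb5 | hb5
      · exact K_one4 (by linarith only [hρ, c4, t2]) (by linarith only [t3, hb5, t3 hb5]) hρ' (by linarith only [hρ, c4])
      · exact K_one5 (by linarith only [hρ, c4, t2]) (by linarith only [t1]) hρ' (by linarith only [hρ, c5, hb5, c5 hb5])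
    exact Dm_nonneg le_rfl hw.re0 (by linarith only [hρ, c4, hx]) him (by linarith only [hρ, h1, c4]) (by linarith only [hρ, h0, c4]) hρ
      (PCond.flat hP rfl hρ h0 h1 him) hz
  | lo =>
    have hx := hx' rfl
    obtain ⟨T, cl, cr, t1, t2, t3, ⟨l1, l2⟩, ⟨r1, r2⟩, hw⟩ := hk
    have him : w.im ≤ 0 := by
      rw [hw.im]
      exact mul_nonpos_of_nonpos_of_nonneg t2 (le_max_left _ _)
    have hP : PCond (25 / 24 * ρ) w := by
      refine PCond_start (c0 := 1 / 10) hρ' t2 (by norm_num) l1 (by linarith only [hρ, c4, l2]) (by linarith only [hρ, c4, r1])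
        (by linarith only [hρ, c4, l2, r2]) hw (by linarith only [hx]) ?_
      rcases lt_or_ge b 5 with hb5 | hb5
      · exact K_lo4 (by linarith only [t2]) (by linarith only [t3, hb5, t3 hb5]) hρ' (by linarith only [hρ, c4])
      · exact K_lo5 (by linarith only [t2]) (by linarith only [t1]) hρ' (by linarith only [hρ, c5, hb5, c5 hb5])
    exact Dm_nonneg le_rfl hw.re0 (by linarith only [hρ, c4, hx]) him (by linarith only [hρ, h1, c4]) (by linarith only [hρ, h0, c4]) hρ
      (PCond.flat hP rfl hρ h0 h1 him) hz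
  | rr =>
    obtain ⟨T, t1, t2, t3, t5, hw⟩ := hk
    rcases le_or_gt T 0 with hT | hT
    · have him : w.im ≤ 0 := by
        rw [hw.im]
        exact mul_nonpos_of_nonpos_of_nonneg hT (le_max_left _ _)
      have hK : Real.sinh (2 * Real.pi * -T) * Real.sinh (2 * Real.pi * (25 / 24 * ρ)) ≤
          Real.sin (2 * Real.pi * (2 / 100)) := by
        rcases lt_or_ge b 5 with hb5 | hb5
        · exact K_rr4 (by linarith only [hT]) (by linarith only [t3, hb5, t3 hb5]) hρ' (by linarith only [hρ, c4])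
        · exact K_rr5 (by linarith only [hT]) (by linarith only [t1]) hρ' (by linarith only [hρ, c5, hb5, c5 hb5])
      have hP : PCond (25 / 24 * ρ) w := PCond_half hρ' hT (by norm_num) (by norm_num) (by norm_num)
        hw (hK.trans sin_cr_le) hK
      exact Dm_nonneg le_rfl hw.re0 hw.reM him (by linarith only [hρ, h1, c4]) (by linarith only [hρ, h0, c4]) hρ
        (PCond.flat hP rfl hρ h0 h1 him) hz
    · have him : 0 ≤ w.im := by
        rw [hw.im]
        exact mul_nonneg hT.le (le_max_left _ _)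
      have h2 := LL_ring_nonneg_pos (x := w.re) (t := w.im) (σ := σ) (η := ρ) (w := w)
        (ζ := LT.zt ρ σ) (re_im_eq w) hz him hρ.le hw.re0 (by
          have : w.re ≤ 27 / 100 := hr
          linarith only [h1, t2, hT, this]) h0 (by linarith only [h1, t2, hT])
      unfold Dm Dq
      simpa using h2
  | ps =>
    have hx := hp rfl
    obtain ⟨-, p1, -, p3, -⟩ := hk
    have h2 := LL_ring_nonneg_pos (x := w.re) (t := w.im) (σ := σ) (η := ρ) (w := w)
      (ζ := LT.zt ρ σ) (re_im_eq w) hz p1.le hρ.le (by linarith only [p1, p3]) (by linarith only [h1, hx, p1, p3]) h0 (by linarith only [h1, hx, p1, p3])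
    unfold Dm Dq
    simpa using h2

end CF3

end Pool.Agent.Work.MP_b30479_gt.G2
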