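import Pool.Agent.Work.MP_b30479_gt.G2.LRB0

/-!
# Left ramps of the hinges `1 | ring`, ring variable on the flat part

Variables `x`, `M = -m`, `y = -σ`, `r = √η`.
-/

namespace Pool.Agent.Work.MP_b30479_gt.G2

open VOL NumI

namespace LR

variable {m x : ℝ} {w ζ : ℂ}

noncomputable def fD (c e x m y r : ℝ) : ℝ :=
  lnA (x + 1 / 2 - y) (r ^ 2 - m * x) + lnA (x + 1 / 2 + y) (r ^ 2 + m * x) - 2 * lnA x (m * x) +
    (m * (lnB (x + 1 / 2 - y) (r ^ 2 - m * x) - lnB (x + 1 / 2 + y) (r ^ 2 + m * x) +
      2 * lnB x (m * x) - c) - e)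

noncomputable def fF (x m y r : ℝ) : ℝ :=
  lnA (x + 1 / 2 - y) (r ^ 2 - m * x) - lnA (x + 1 / 2 + y) (r ^ 2 + m * x) - 953 / 100 * r

/-- the leaf with the code `j` -/
def lfl (j : ℕ) (cX eX X M Y R : F) : Bool :=
  let T := M.mul X
  let E := R.sqn
  let h := X.add (F.rat 1 2)
  let ut := E.sub T
  let vt := E.add T
  let ux := h.sub Y
  let vx := h.add Y
  posO' (o0 (fun au => o0 (fun av =>
    cond (Nat.beq j 40) (some ((au.sub av).sub (F.mulq 953 100 R)))
      (o0 (fun bu => o0 (fun bv => o0 (fun aw => o0 (fun bw =>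
        some ((((au.add av).sub (aw.add aw)).add ((M.mul ((bu.sub bv).add
          ((bw.add bw).sub cX))).sub eX)).add (F.mulq j 10 ((au.sub av).sub (F.mulq 953 100 R)))))
        (F.lnB X T)) (F.lnA X T)) (F.lnB vx vt)) (F.lnB ux ut)))
    (F.lnA vx vt)) (F.lnA ux ut))

theorem lfl_sound {j : ℕ} {cX eX X M Y R : F} {ε : ℕ → ℝ} {c e x m y r : ℝ} (hε : ∀ i, |ε i| ≤ 1)
    (hX : X.Encl ε x) (hM : M.Encl ε m) (hY : Y.Encl ε y) (hR : R.Encl ε r) (hc : cX.Encl ε c)
    (he : eX.Encl ε e) (h : lfl j cX eX X M Y R = true) (hF : j = 0 ∨ fF x m y r ≤ 0) :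
    0 < fD c e x m y r := by
  have kT : (M.mul X).Encl ε (m * x) := F.Encl.mul hε hM hX
  have kE : (R.sqn).Encl ε (r ^ 2) := F.Encl.sqn hε hR
  have kh : (X.add (F.rat 1 2)).Encl ε (x + 1 / 2) := by
    have := F.Encl.add hX (F.Encl.rat 1 2 ε)
    push_cast at this
    exact this
  have kux := F.Encl.sub kh hY
  have kvx := F.Encl.add kh hY
  have kut := F.Encl.sub kE kT
  have kvt := F.Encl.add kE kT
  unfold lfl at h
  simp only at h
  set G := o0 (fun au => o0 (fun av =>
    cond (Nat.beq j 40) (some ((au.sub av).sub (F.mulq 953 100 R)))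
      (o0 (fun bu => o0 (fun bv => o0 (fun aw => o0 (fun bw =>
        some ((((au.add av).sub (aw.add aw)).add ((M.mul ((bu.sub bv).add
          ((bw.add bw).sub cX))).sub eX)).add (F.mulq j 10 ((au.sub av).sub (F.mulq 953 100 R)))))
        (F.lnB X (M.mul X))) (F.lnA X (M.mul X)))
        (F.lnB ((X.add (F.rat 1 2)).add Y) (R.sqn.add (M.mul X))))
        (F.lnB ((X.add (F.rat 1 2)).sub Y) (R.sqn.sub (M.mul X)))))
    (F.lnA ((X.add (F.rat 1 2)).add Y) (R.sqn.add (M.mul X))))
    (F.lnA ((X.add (F.rat 1 2)).sub Y) (R.sqn.sub (M.mul X))) with hG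
  rcases hGc : G with _ | g
  · rw [hGc] at h
    exact absurd h (by simp [posO'])
  rw [hG] at hGc
  obtain ⟨au, hau, h1⟩ := o0_some hGc
  obtain ⟨av, hav, h1⟩ := o0_some h1
  have eau := F.Encl.lnA hε kux kut hau
  have eav := F.Encl.lnA hε kvx kvt hav
  have hpos : posF g = true := by
    have e : G = some g := by rw [hG]; exact hGc
    rw [e] at h
    exact h
  have kF := F.Encl.sub (F.Encl.sub eau eav) (F.Encl.mulq (n := 953) (d := 100) (by norm_num) hε hR)
  push_cast at kF
  rcases hj : Nat.beq j 40 with _ | _
  · rw [hj, cond_false] at h1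
    obtain ⟨bu, hbu, h1⟩ := o0_some h1
    obtain ⟨bv, hbv, h1⟩ := o0_some h1
    obtain ⟨aw, haw, h1⟩ := o0_some h1
    obtain ⟨bw, hbw, h1⟩ := o0_some h1
    have ebu := F.Encl.lnB hε kux kut hbu
    have ebv := F.Encl.lnB hε kvx kvt hbv
    have eaw := F.Encl.lnA hε hX kT haw
    have ebw := F.Encl.lnB hε hX kT hbw
    have kD := F.Encl.add (F.Encl.add (F.Encl.sub (F.Encl.add eau eav) (F.Encl.add eaw eaw))
      (F.Encl.sub (F.Encl.mul hε hM (F.Encl.add (F.Encl.sub ebu ebv)
        (F.Encl.sub (F.Encl.add ebw ebw) hc))) he)) (F.Encl.mulq (n := j) (d := 10) (by norm_num) hε kF)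
    have hp := posF_spec hε kD (by rw [← Option.some.inj h1] at hpos; exact hpos)
    have hj0 : (0 : ℝ) ≤ (j : ℝ) / (10 : ℕ) := by positivity
    have : (j : ℝ) / (10 : ℕ) * fF x m y r ≤ 0 := by
      rcases hF with rfl | hF
      · simp
      · exact mul_nonpos_of_nonneg_of_nonpos hj0 hF
    unfold fF at this
    unfold fD
    linarith
  · rw [hj, cond_true] at h1
    have hp := posF_spec hε kF (by rw [← Option.some.inj h1] at hpos; exact hpos)
    rcases hF with rfl | hF
    · exact absurd hj (by decide)
    · unfold fF at hF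
      linarith

/-- test with the first order condition -/
def tstC (eX : F → F) (k : ℕ) (X M Y R : F) : Bool := lfl k (cB X) (eX X) X M Y R
/-- test without it -/
def tstL (eX : F → F) (_ : ℕ) (X M Y R : F) : Bool := lfl 0 (cB X) (eX X) X M Y R

def PrC (e : ℝ → ℝ) (x M y r : ℝ) : Prop := fF x M y r ≤ 0 → 0 < fD (Real.pi - 6 * x) (e x) x M y r
def PrL (e : ℝ → ℝ) (x M y r : ℝ) : Prop := 0 < fD (Real.pi - 6 * x) (e x) x M y r

theorem tstC_ok {eX : F → F} {e : ℝ → ℝ} (he : Ev eX e) : TestOk (tstC eX) (PrC e) := by
  intro k X M S R ε x m s ρ hε hX hM hS hR h hF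
  exact lfl_sound hε hX hM hS hR (ev_cB hε hX) (he hε hX) h (Or.inr hF)

theorem tstL_ok {eX : F → F} {e : ℝ → ℝ} (he : Ev eX e) : TestOk (tstL eX) (PrL e) := by
  intro k X M S R ε x m s ρ hε hX hM hS hR h
  exact lfl_sound hε hX hM hS hR (ev_cB hε hX) (he hε hX) h (Or.inl rfl)

/-! ### certificates -/

theorem cFL_1 : okB 10000 (tstL (eK 35 100)) 0 0 0 0 40 200 625 2375 6250 0 2500 0 3233
    0x10201080020208101040808000 = true := by
  decide +kernel

theorem cFL_2 : okB 10000 (tstL (eL 85 100 8 1)) 0 0 0 0 40 625 1200 2375 6250 0 2500 0 3233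
    0x408100030810180081000208082040610104080c00404042040610084080c00408001040800100 = true := by
  decide +kernel

theorem cFL_3 : okB 10000 (tstL (eL 27 100 26 10)) 0 0 0 0 40 200 1200 6250 9875 0 2500 0 3233
    0x4081000308102000600204060820400101020810184080c08408100030010203041020004042040610203021020304102010410203080820406042020000204061010404102030808004080020208100040400000 = true := by
  decide +kernel

theorem cFC_1 : okB 10000 (tstC (eK 35 100)) 0 0 0 0 40 200 965 2375 6250 0 2500 0 3233
    0x102030810084000c204000820208101840410101081018402102000410100081000404102000808000 = true := by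
  decide +kernel

theorem cFC_2 : okB 10000 (tstC (eL 1064 1000 74 10)) 0 0 0 0 40 965 1200 2375 6250 0 2500 0 3233
    0x1020400100030a140850410105080020200142000800202020c20408001820810102081420006102030210104080c2020010101 = true := by
  decide +kernel

theorem cFC_3 : okB 10000 (tstC (eL 1064 1000 74 10)) 0 0 0 0 40 1200 1600 2375 6250 0 2500 0 3233
    0x102000808204021010404102000808202000c20400100020810200061010a0c1400006141040410104080028500102000010103080840a001012c060c2020808084081000308082020a1400504b0184040c2020a1000906141050a0028100141040404202000c2040810083080818408002000a1408500141050800005040c202081000400101050a045030a082800a08184040450a001010c080808306102030810180041020400100830a140840414201021010508002010808003081018200102000808101 = true := by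
  decide +kernel

theorem cFC_4 : okB 10000 (tstC (eK 3 10)) 0 0 0 0 40 200 1000 6250 9875 0 2500 0 3233
    0x10204000c20402142810a0818504142800a04202001428108080030810184080c002081018408000020810185080428008081840a100030010203041020304042040800184080c084080c1040800104080c2020810181080800008101840410104080c202001020008082040400000 = true := by
  decide +kernel

theorem cFC_5 : okB 10000 (tstC (eL 84 100 54 10)) 0 0 0 0 40 1000 1600 6250 9875 0 2500 0 3233
    0x408082040008204041010408002020808003081400404142800a0820202102ac060c282080820400101040a00202580c18404040040800202040c20408002040000184081000008100040810200000c08408001010810204000018408100040800200080808302002050014280580c282001c2880000285021428000016030ab018500080ac060c18408100030a140850a040050a0428502000030410204000c2040210201000c104080c204060020400101820404204080020206102830808205580c18504101010808205580c18404102ac060c28208080840400184081000308102000210104080420208080050a04285020020502096030810002060c20406102030008004080c2040600204001018204102040800083081018408000040410204000c20208080850a002820a140050a0000504056030a10002060c2040610203000820406101020810200061020108082020a1408504b0184040c20506140850a001050400184081000304102030400080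 = true := by
  decide +kernel

end LR

end Pool.Agent.Work.MP_b30479_gt.G2
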