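import Pool.Agent.Work.MP_b30479_gt.G2.LRB
import Pool.Agent.Work.MP_b30479_gt.G2.LRF0

/-!
# Left ramps of the hinges `1 | ring`, ring variable on the flat part: `one_flatL`, `one_flatC`
-/

namespace Pool.Agent.Work.MP_b30479_gt.G2

open VOL NumI

namespace LR

variable {m x : ℝ} {w ζ : ℂ}

theorem uf_eq (hw : W x m w) {r : ℝ} (hr : r ^ 2 = ζ.im) :
    w + 1 / 2 + ζ = ⟨x + 1 / 2 - -ζ.re, r ^ 2 - -m * x⟩ := by
  apply Complex.ext
  · have h : ((1 : ℂ) / 2).re = 1 / 2 := by norm_num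
    simp only [Complex.add_re, h, hw.re]
    ring
  · have h : ((1 : ℂ) / 2).im = 0 := by norm_num
    simp only [Complex.add_im, h, hw.im, hr]
    ring

theorem vf_eq (hw : W x m w) {r : ℝ} (hr : r ^ 2 = ζ.im) :
    w + 1 / 2 - ζ = ⟨x + 1 / 2 + -ζ.re, -(r ^ 2 + -m * x)⟩ := by
  apply Complex.ext
  · have h : ((1 : ℂ) / 2).re = 1 / 2 := by norm_num
    simp only [Complex.sub_re, Complex.add_re, h, hw.re]
    ring
  · have h : ((1 : ℂ) / 2).im = 0 := by norm_num
    simp only [Complex.sub_im, Complex.add_im, h, hw.im, hr]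
    ring

theorem S4_fD (hw : W x m w) (hz : ZF ζ) {r : ℝ} (hr : r ^ 2 = ζ.im) (hx : x < 1 / 4) (c e : ℝ) :
    S4 m w ζ + c * m - e = fD c e x (-m) (-ζ.re) r := by
  have h1 := hw.pos
  have h2 := hz.lo
  have h3 := hz.hi
  have hw' : w ∈ strip := ⟨by rw [hw.re]; linarith only [h1], by rw [hw.re]; linarith only [hx, h1]⟩
  unfold S4 fD
  rw [uf_eq hw hr, vf_eq hw hr, LL_lnA' ⟨x + 1 / 2 - -ζ.re, _⟩, LL_lnA' ⟨x + 1 / 2 + -ζ.re, _⟩,
    Num.YY_lnB (u := ⟨x + 1 / 2 - -ζ.re, r ^ 2 - -m * x⟩) ⟨by simp only; linarith only [hx, h1, h2], by simp only; linarith only [hx, h1, h3]⟩,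
    Num.YY_lnB (u := ⟨x + 1 / 2 + -ζ.re, -(r ^ 2 + -m * x)⟩)
      ⟨by simp only; linarith only [hx, h1, h3], by simp only; linarith only [hx, h2]⟩,
    LL_lnA' w, Num.YY_lnB hw', hw.re, hw.im]
  simp only [lnA_neg, lnB_neg]
  have e1 : lnA x (m * x) = lnA x (-m * x) := by
    rw [neg_mul, lnA_neg]
  have e2 : lnB x (m * x) = -lnB x (-m * x) := by
    rw [neg_mul, lnB_neg, neg_neg]
  rw [e1, e2]
  ring

theorem Dm_fF (hw : W x m w) {r : ℝ} (hr : r ^ 2 = ζ.im) :
    Dm 0 w ζ - 953 / 100 * r = fF x (-m) (-ζ.re) r := by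
  unfold Dm Dq fF
  rw [uf_eq hw hr, vf_eq hw hr, LL_lnA' ⟨x + 1 / 2 - -ζ.re, _⟩, LL_lnA' ⟨x + 1 / 2 + -ζ.re, _⟩]
  simp only [lnA_neg]
  ring

theorem r_le {r : ℝ} (hz : ZF ζ) (hr : r ^ 2 = ζ.im) : r ≤ 3233 / 10000 := by
  have := hz.cap
  nlinarith only [hr, this]

/-- one box, with the first order condition -/
theorem boxC {eX : F → F} {e : ℝ → ℝ} (he : Ev eX e) {l0 h0 l1 h1 c : ℕ}
    (h : okB 10000 (tstC eX) 0 0 0 0 40 l0 h0 l1 h1 0 2500 0 3233 c = true)
    (hw : W x m w) (hz : ZF ζ) {r : ℝ} (hr0 : 0 ≤ r) (hr : r ^ 2 = ζ.im) (hx : x < 1 / 4)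
    (b0 : (l0 : ℝ) / 10000 ≤ x) (b0' : x ≤ (h0 : ℝ) / 10000)
    (b1 : (l1 : ℝ) / 10000 ≤ -m) (b1' : -m ≤ (h1 : ℝ) / 10000)
    (hF : Dm 0 w ζ ≤ 953 / 100 * r) : e x ≤ S4 m w ζ + (Real.pi - 6 * x) * m := by
  have hz1 := hz.lo
  have hz2 := hz.hi
  have hr1 := r_le hz hr
  have h1 := okB_sound0 (tstC_ok he) h b0 b0' b1 b1' (z := -ζ.re) (w := r)
    (by push_cast; linarith only [hz2]) (by push_cast; linarith only [hz1]) (by push_cast; linarith only [hr0]) (by push_cast; linarith only [hr1])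
    (by rw [← Dm_fF hw hr]; linarith only [hF])
  rw [← S4_fD hw hz hr hx] at h1
  linarith only [h1]

/-- one box -/
theorem boxL {eX : F → F} {e : ℝ → ℝ} (he : Ev eX e) {l0 h0 l1 h1 c : ℕ}
    (h : okB 10000 (tstL eX) 0 0 0 0 40 l0 h0 l1 h1 0 2500 0 3233 c = true)
    (hw : W x m w) (hz : ZF ζ) (hx : x < 1 / 4)
    (b0 : (l0 : ℝ) / 10000 ≤ x) (b0' : x ≤ (h0 : ℝ) / 10000)
    (b1 : (l1 : ℝ) / 10000 ≤ -m) (b1' : -m ≤ (h1 : ℝ) / 10000) :
    e x ≤ S4 m w ζ + (Real.pi - 6 * x) * m := by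
  have hz1 := hz.lo
  have hz2 := hz.hi
  have hr : Real.sqrt ζ.im ^ 2 = ζ.im := Real.sq_sqrt hz.pos.le
  have hr0 := Real.sqrt_nonneg ζ.im
  have hr1 := r_le hz hr
  have h1 : PrL e x (-m) (-ζ.re) (Real.sqrt ζ.im) := okB_sound0 (tstL_ok he) h b0 b0' b1 b1'
    (by push_cast; linarith only [hz2]) (by push_cast; linarith only [hz1]) (by push_cast; linarith only [hr0]) (by push_cast; linarith only [hr1])
  unfold PrL at h1
  rw [← S4_fD hw hz hr hx] at h1
  linarith only [h1]

/-- small `x` -/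
theorem flat_small (hw : W x m w) (hz : ZF ζ) (hm : m ≤ 0) (hm' : -(9875 / 10000) ≤ m)
    (hx : x ≤ 2 / 100) : 345 / 100 + Real.pi * m ≤ S4 m w ζ + (Real.pi - 6 * x) * m := by
  have h1 := flat_LL hw hz (by linarith only [hx])
  have h2 := LLw_02 hw hx hm hm'
  have h0 := hw.pos
  have h3 := YY_hinge_nonpos (x := x) (t := m * x) (σ := ζ.re) (η := ζ.im) h0.le (by linarith only [hx, h0])
    (mul_nonpos_of_nonpos_of_nonneg hm h0.le) hz.hi (by linarith only [hx, h0, hz, hz.lo]) hz.pos.le (w := w) (ζ := ζ) (by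
      apply Complex.ext <;> simp [hw.re, hw.im]) (by apply Complex.ext <;> simp)
  have h4 := mul_nonneg_of_nonpos_of_nonpos hm h3
  have h5 : 0 ≤ -(6 * x * m) := by nlinarith only [hm, h0]
  unfold S4
  nlinarith only [h1, h2, h4, h5]

theorem one_flatL (hw : W x m w) (hz : ZF ζ) (hm : m ≤ -(2375 / 10000)) (hm' : -(9875 / 10000) ≤ m)
    (hx : x ≤ 12 / 100) : eL0 x m ≤ S4 m w ζ + (Real.pi - 6 * x) * m := by
  have h0 := hw.pos
  have hx4 : x < 1 / 4 := by linarith only [hx, h0]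
  have hp := Real.pi_lt_d4
  rcases le_total x (2 / 100) with hx1 | hx1
  · have h5 := flat_small hw hz (by linarith only [hm, h0, hx1]) hm' hx1
    rcases le_or_gt (-(625 / 1000)) m with hm1 | hm1
    · exact (eL_le1 hm1).trans (by nlinarith only [h0, hp, hx1, h5, hm1, hm])
    · exact (eL_le6 hm1).trans (by nlinarith only [hm', h0, hp, hx1, h5, hm])
  rcases le_or_gt (-(625 / 1000)) m with hm1 | hm1
  · rcases le_total x (625 / 10000) with hx2 | hx2
    · have h5 := boxL (ev_eK 35 100) cFL_1 hw hz hx4 (by push_cast; linarith only [hx1]) (by push_cast; linarith only [hx2])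
        (by push_cast; linarith only [hm]) (by push_cast; linarith only [hm1])
      push_cast at h5
      exact (eL_le1 hm1).trans h5
    · have h5 := boxL (ev_eL (n := 85) (d := 100) (n' := 8) (d' := 1) (by norm_num)) cFL_2 hw hz hx4
        (by push_cast; linarith only [hx2]) (by push_cast; linarith only [hx]) (by push_cast; linarith only [hm])
        (by push_cast; linarith only [hm1])
      push_cast at h5
      exact (eL_le5 hm1).trans (by linarith only [h5])
  · have h5 := boxL (ev_eL (n := 27) (d := 100) (n' := 26) (d' := 10) (by norm_num)) cFL_3 hw hz hx4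
      (by push_cast; linarith only [hx1]) (by push_cast; linarith only [hx]) (by push_cast; linarith only [hm1])
      (by push_cast; linarith only [hm'])
    push_cast at h5
    exact (eL_le6 hm1).trans h5

theorem one_flatC {b : ℝ} (hw : W x m w) (hz : ZF ζ) (hm : m ≤ -(2375 / 10000))
    (hm' : -(9875 / 10000) ≤ m) (hx : x ≤ 16 / 100) (hb : b ^ 2 * ζ.im ≤ 23 / 10)
    (hF : -(2 * Real.pi * b * ζ.im) + Dm 0 w ζ ≤ 0) :
    eC x m ≤ S4 m w ζ + (Real.pi - 6 * x) * m := by
  have h0 := hw.pos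
  have hx4 : x < 1 / 4 := by linarith only [hx, h0]
  have hp := Real.pi_lt_d4
  have hp0 := Real.pi_pos
  rcases le_total x (2 / 100) with hx1 | hx1
  · have h5 := flat_small hw hz (by linarith only [hm, h0, hx1]) hm' hx1
    rcases le_or_gt (-(625 / 1000)) m with hm1 | hm1
    · exact (eC_le1 hm1).trans (by nlinarith only [h0, hp, hx1, h5, hm1, hm])
    · exact (eC_le3 hm1).trans (by nlinarith only [hm', h0, hp, hx1, h5, hm])
  have hr : Real.sqrt ζ.im ^ 2 = ζ.im := Real.sq_sqrt hz.pos.le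
  have hr0 := Real.sqrt_nonneg ζ.im
  have hG : Dm 0 w ζ ≤ 953 / 100 * Real.sqrt ζ.im := by
    set r := Real.sqrt ζ.im with hrd
    rw [← hr] at hF hb
    have h1 : (2 * Real.pi * (b * r)) ^ 2 ≤ (953 / 100) ^ 2 := by
      have e : (2 * Real.pi * (b * r)) ^ 2 = 4 * Real.pi ^ 2 * (b ^ 2 * r ^ 2) := by ring
      have e2 : Real.pi ^ 2 ≤ 3.1416 ^ 2 := pow_le_pow_left₀ hp0.le hp.le 2
      have e3 : 0 ≤ b ^ 2 * r ^ 2 := by positivity
      rw [e]
      have : 4 * Real.pi ^ 2 * (b ^ 2 * r ^ 2) ≤ 4 * 3.1416 ^ 2 * (23 / 10) :=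
        mul_le_mul (by linarith only [e2]) hb e3 (by norm_num)
      refine this.trans (by norm_num)
    have h2 : 2 * Real.pi * (b * r) ≤ 953 / 100 := (abs_le.mp (abs_le_of_sq_le_sq h1 (by norm_num))).2
    have h3 : 2 * Real.pi * b * r ^ 2 = 2 * Real.pi * (b * r) * r := by ring
    have h4 := mul_le_mul_of_nonneg_right h2 hr0
    linarith only [hF, h4]
  rcases le_or_gt (-(625 / 1000)) m with hm1 | hm1
  · rcases le_total x (965 / 10000) with hx2 | hx2
    · have h5 := boxC (ev_eK 35 100) cFC_1 hw hz hr0 hr hx4 (by push_cast; linarith only [hx1])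
        (by push_cast; linarith only [hx2]) (by push_cast; linarith only [hm]) (by push_cast; linarith only [hm1]) hG
      push_cast at h5
      exact (eC_le1 hm1).trans h5
    rcases le_total x (12 / 100) with hx3 | hx3
    · have h5 := boxC (ev_eL (n := 1064) (d := 1000) (n' := 74) (d' := 10) (by norm_num)) cFC_2 hw hz
        hr0 hr hx4 (by push_cast; linarith only [hx2]) (by push_cast; linarith only [hx3]) (by push_cast; linarith only [hm])
        (by push_cast; linarith only [hm1]) hG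
      push_cast at h5
      exact (eC_le2 hm1).trans h5
    · have h5 := boxC (ev_eL (n := 1064) (d := 1000) (n' := 74) (d' := 10) (by norm_num)) cFC_3 hw hz
        hr0 hr hx4 (by push_cast; linarith only [hx3]) (by push_cast; linarith only [hx]) (by push_cast; linarith only [hm])
        (by push_cast; linarith only [hm1]) hG
      push_cast at h5
      exact (eC_le2 hm1).trans h5
  · rcases le_total x (1 / 10) with hx2 | hx2
    · have h5 := boxC (ev_eK 3 10) cFC_4 hw hz hr0 hr hx4 (by push_cast; linarith only [hx1])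
        (by push_cast; linarith only [hx2]) (by push_cast; linarith only [hm1]) (by push_cast; linarith only [hm']) hG
      push_cast at h5
      exact (eC_le3 hm1).trans h5
    · have h5 := boxC (ev_eL (n := 84) (d := 100) (n' := 54) (d' := 10) (by norm_num)) cFC_5 hw hz
        hr0 hr hx4 (by push_cast; linarith only [hx2]) (by push_cast; linarith only [hx]) (by push_cast; linarith only [hm1])
        (by push_cast; linarith only [hm']) hG
      push_cast at h5
      exact (eC_le4 hm1).trans h5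

end LR

end Pool.Agent.Work.MP_b30479_gt.G2
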