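import Pool.Agent.Work.MP_b30479_gt.G2.RngL
import Pool.Agent.Work.MP_b30479_gt.G2.RngD

/-!
# Ring sides: the gain of the value move of a ring|ring hinge near `1/2`
-/

namespace Pool.Agent.Work.MP_b30479_gt.G2

open Finset VOL Filter Topology
open NumU (uu uu_neg uu_add_one uu_one_sub)

variable {x t σ η c a b s ρ T θ y K κ : ℝ} {w w' : ℂ} {k k' : RKe}

/-- the own derivative for a height below the ring variable -/
theorem Dm_own_ge (hρ : 0 < ρ) (hs : 0 < s) (hs' : s ≤ 1 / 4) (hx0 : s ≤ w.re) (hx : w.re ≤ 1 / 2)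
    (ht : 0 ≤ w.im) (hη : w.im < 4 * ρ * s) (hκ : κ ≤ 2 * w.re) (hκ' : κ ≤ 1 / 2 + w.re - s) :
    4 * Real.pi * ρ * κ ≤ Dm (4 * ρ) w (LT.zt ρ (-(1 / 2) + s)) := by
  have hpi := Real.pi_pos
  have η0 : 0 < 4 * ρ * s := by positivity
  have hv : Complex.sin (Real.pi * (⟨w.re + 1 - s, w.im - 4 * ρ * s⟩ : ℂ)) ≠ 0 :=
    sin_ne_02 (by linarith only [hs, hs', hx0]) (by linarith only [hs, hs', hx]) (Or.inl (by linarith only [hη]))
  have hLL : LL ⟨w.re + 1 - s, w.im - 4 * ρ * s⟩ ≤ LL ⟨w.re + s, w.im + 4 * ρ * s⟩ := by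
    have h1 := ring_arg_le (x := w.re) (t := w.im) (σ := -(1 / 2) + s) (η := 4 * ρ * s)
      (hs.le.trans hx0) hx ht (by linarith only [hs, hs']) (by linarith only [hs]) η0.le
    rw [show w.re + 1 / 2 - (-(1 / 2) + s) = w.re + 1 - s by ring,
      show w.re + 1 / 2 + (-(1 / 2) + s) = w.re + s by ring] at h1
    exact LL_mk_le hv h1
  rw [Dm_coord hs.le hs']
  have hYY : Real.pi * κ ≤ YY ⟨w.re + s, w.im + 4 * ρ * s⟩ - YY ⟨w.re + 1 - s, w.im - 4 * ρ * s⟩ := by
    rw [YY_mk_pos (by linarith only [ht, hη]), YY_mk_neg (by linarith only [hη]), show w.re + 1 - s = (w.re - s) + 1 by ring,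
      Tr_add_one]
    have k1 := pi_mul_le_Tr (s := -(w.im - 4 * ρ * s)) (x := w.re - s) (by linarith only [hx0]) (by linarith only [hs, hx])
      (by linarith only [hη])
    rcases le_total (w.re + s) (1 / 2) with h | h
    · have k2 := pi_mul_le_Tr (s := w.im + 4 * ρ * s) (x := w.re + s) (by linarith only [hs, hx0]) h (by linarith only [ht, hη])
      have k3 := mul_le_mul_of_nonneg_left hκ hpi.le
      linarith only [k1, k2, k3]
    · have k2 := half_le_Tr (s := w.im + 4 * ρ * s) (x := w.re + s) (by linarith only [ht, hη]) h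
      have k3 := mul_le_mul_of_nonneg_left hκ' hpi.le
      linarith only [k1, k2, k3]
  have := mul_le_mul_of_nonneg_left hYY (show 0 ≤ 4 * ρ by positivity)
  unfold Dq
  linarith only [hLL, this]

/-- the derivative of the other hinge -/
theorem RKe.ok.Dm_ge (hk : k.ok b w) (hb : 4 ≤ b) (hc : RCap b ρ) (hρ : 0 < ρ) (hs : 0 < s)
    (hs' : s ≤ 1 / 4) (hns : w + 1 / 2 - LT.zt ρ (-(1 / 2) + s) ≠ 1) :
    -(4 * Real.pi * ρ) ≤ Dm (4 * ρ) w (LT.zt ρ (-(1 / 2) + s)) ∨
      -(45 / 10 * s) ≤ Dm (4 * ρ) w (LT.zt ρ (-(1 / 2) + s)) := by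
  have hpi := Real.pi_pos
  have hpr : 0 < 4 * Real.pi * ρ := by positivity
  have c4 := hc.1
  have c5 := hc.2.1
  have ok_le : (k.up = true → w.im ≤ 0) → w.re ≤ 1 / 2 →
      -(4 * Real.pi * ρ) ≤ Dm (4 * ρ) w (LT.zt ρ (-(1 / 2) + s)) := fun h1 h2 => by
    have := (HOk_of hρ hb hc hk h1 h2).nonneg hρ (σ := -(1 / 2) + s) (by linarith only [hs]) (by linarith only [hs'])
    linarith only [hpr, this]
  have ok_ge : ∀ {T XM cl cr : ℝ}, RH w T XM cl cr → T ≤ 0 → 0 < cr → XM ≤ 65 / 100 → 1 / 2 ≤ w.re →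
      (b < 5 → -T / cr ≤ 128 / 290) → -T / cr ≤ 158 / 290 →
      -(45 / 10 * s) ≤ Dm (4 * ρ) w (LT.zt ρ (-(1 / 2) + s)) := by
    intro T XM cl cr hw hT hcr hX h2 hA hB
    have hni := hw.neg_im_le hT hcr
    have him := hw.im_nonpos hT
    have e : ∀ A : ℝ, -T / cr ≤ A → -w.im ≤ A * (65 / 100 - w.re) := by
      intro A hA
      have h3 : -T * ((XM - w.re) / cr) = -T / cr * (XM - w.re) := by ring
      have h4 : 0 ≤ -T / cr := div_nonneg (by linarith only [hT]) hcr.le
      rw [h3] at hni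
      have hXw := hw.reM
      calc -w.im ≤ -T / cr * (XM - w.re) := hni
        _ ≤ A * (65 / 100 - w.re) := mul_le_mul hA (by linarith only [hX]) (by linarith only [hXw]) (h4.trans hA)
    rcases lt_or_ge b 5 with hb5 | hb5
    · exact Dm_right_ge hρ c4 hs hs' h2 (hw.reM.trans hX) him (e _ (hA hb5))
        (RX4 h2 (hw.reM.trans hX))
    · exact Dm_right_ge hρ (c5 hb5) hs hs' h2 (hw.reM.trans hX) him (e _ hB)
        (RX5 h2 (hw.reM.trans hX))
  rcases le_total w.re (1 / 2) with hx | hx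
  · left
    rcases le_or_gt w.im 0 with h1 | h1
    · exact ok_le (fun _ => h1) hx
    · exact Dm_pos_ge hρ (by linarith only [hρ, c4]) hs hs' hk.re_nonneg hx h1.le hns
  · cases k with
    | no =>
      exfalso
      have h0 : w = 0 := hk
      rw [h0] at hx
      norm_num at hx
    | one =>
      right
      obtain ⟨T, cr, t1, t2, t3, -, ⟨r1, r2⟩, hw⟩ := hk
      refine ok_ge hw (by linarith only [hρ, c4, t2]) (by linarith only [hρ, c4, r1]) le_rfl hx (fun h5 => ?_) ?_
      · rw [div_le_iff₀ (by linarith only [hρ, c4, r1])]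
        linarith only [r1, t3, h5, t3 h5]
      · rw [div_le_iff₀ (by linarith only [hρ, c4, r1])]
        linarith only [t1, r1]
    | lo =>
      right
      obtain ⟨T, cl, cr, t1, t2, t3, ⟨l1, l2⟩, ⟨r1, r2⟩, hw⟩ := hk
      refine ok_ge hw t2 (by linarith only [hρ, c4, r1]) (by norm_num) hx (fun h5 => ?_) ?_
      · rw [div_le_iff₀ (by linarith only [hρ, c4, r1])]
        linarith only [hρ, c4, t1, r1, t3 h5]
      · rw [div_le_iff₀ (by linarith only [hρ, c4, r1])]
        linarith only [hρ, c4, t1, r1]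
    | rr =>
      left
      have hx2 : w.re = 1 / 2 := le_antisymm (by obtain ⟨T, -, -, -, -, hw⟩ := hk; exact hw.reM) hx
      rcases le_or_gt w.im 0 with h1 | h1
      · exact ok_le (fun _ => h1) hx2.le
      · exact Dm_pos_ge hρ (by linarith only [hρ, c4]) hs hs' hk.re_nonneg hx2.le h1.le hns
    | ps =>
      left
      have hk' := hk
      obtain ⟨-, h1, -, -, h2⟩ := hk'
      exact Dm_pos_ge hρ (by linarith only [hρ, c4]) hs hs' hk.re_nonneg h2 h1.le hns

/-- the condition of `gain_ramp_neg` from the first order condition -/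
theorem RM.gain_cond (h : RM b ρ w w' (-(1 / 2) + s)) (hc : RCap b ρ) (hx : 48 / 100 ≤ w.re)
    (hx' : w.re ≤ 1 / 2) (ht : 0 ≤ w.im) (hk : k'.ok b w') (hs : 0 < s) (hs' : s < 1 / 4) :
    4 * ρ * s ≤ w.im ∨ 116 / 1000 ≤ s ∨ (s ≤ 105 / 1000 ∧ ρ ≤ 357 / 1000 * s) ∨
      (105 / 1000 ≤ s ∧ ρ ≤ 42 / 1000) := by
  have hpi := Real.pi_pos
  have hpi3 := Real.pi_gt_three
  have hρ := h.ρ0
  have hb := h.b4
  rcases le_or_gt (4 * ρ * s) w.im with h1 | h1
  · exact Or.inl h1
  right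
  rcases le_or_gt (116 / 1000) s with h2 | h2
  · exact Or.inl h2
  right
  have foc := h.right_ramp (by linarith only [hs]) (by linarith only [hs, h2]) (by linarith only [hx, hs, h2]) (by linarith only [hx', hs, h2]) hk.re_nonneg
    (by linarith only [hs, h2, hk, hk.re_le])
  have hns := h.symm.ns (by linarith only [hs]) (by linarith only [hs, h2]) hk.re_nonneg (by linarith only [hs, h2, hk, hk.re_le])
    (by linarith only [hx, hs, h2]) (by linarith only [hx', hs, h2])
  have hd : 4 * Real.pi * ρ * (2 - 16 * s) ≤ -(4 * Real.pi * ρ * (2 + b + 4 * b * (-(1 / 2) + s))) := by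
    have : 2 - 16 * s ≤ -(2 + b + 4 * b * (-(1 / 2) + s)) := by nlinarith only [hs', hb]
    calc _ ≤ 4 * Real.pi * ρ * (-(2 + b + 4 * b * (-(1 / 2) + s))) :=
          mul_le_mul_of_nonneg_left this (by positivity)
      _ = _ := by ring
  have hκ : ∃ κ : ℝ, 0 < 1 + κ - 16 * s ∧ 4 * Real.pi * ρ * κ ≤ Dm (4 * ρ) w (LT.zt ρ (-(1 / 2) + s)) ∧
      98 / 100 - s - 2 / 100 ≤ κ ∧ (105 / 1000 ≤ s → 98 / 100 - s ≤ κ) := by
    rcases le_total s (2 / 100) with h3 | h3
    · exact ⟨96 / 100, by linarith only [hs, h3], Dm_own_ge hρ hs hs'.le (by linarith only [hx, hs, h3]) hx' ht h1 (by linarith only [hx])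
        (by linarith only [hx, h3]), by linarith only [hs], fun h4 => by linarith only [hs, h3, h4]⟩
    · exact ⟨98 / 100 - s, by linarith only [hs, h2], Dm_own_ge hρ hs hs'.le (by linarith only [hx, hs, h2]) hx' ht h1 (by linarith only [hx, h3])
        (by linarith only [hx]), by linarith only [hs, h2], fun h4 => by linarith only []⟩
  obtain ⟨κ, k1, k2, k3, k4⟩ := hκ
  rcases hk.Dm_ge hb hc hρ hs hs'.le hns with h3 | h3
  · exfalso
    have : 0 < 4 * Real.pi * ρ * (1 + κ - 16 * s) := by positivity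
    linarith only [foc, hd, k2, h3, this]
  · have h4 : 4 * Real.pi * ρ * (2 - 16 * s + κ) ≤ 45 / 10 * s := by linarith only [foc, hd, k2, h3]
    have h5 : ρ * (12 * (2 - 16 * s + κ)) ≤ 45 / 10 * s := by
      have : 0 ≤ ρ * (2 - 16 * s + κ) := mul_nonneg hρ.le (by linarith only [hs, h2, k1])
      nlinarith only [foc, hd, k2, h3, hs, hpi3, hpi]
    rcases le_total s (105 / 1000) with h6 | h6
    · left
      refine ⟨h6, ?_⟩
      have : ρ * (12 * (1175 / 1000)) ≤ ρ * (12 * (2 - 16 * s + κ)) := by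
        apply mul_le_mul_of_nonneg_left _ hρ.le
        linarith only [k3, h6]
      linarith only [hρ, h5, this]
    · right
      refine ⟨h6, ?_⟩
      have k5 := k4 h6
      have k6 := Real.pi_gt_d4
      have : ρ * (4 * Real.pi * (1008 / 1000)) ≤ 45 / 10 * s := by
        have : ρ * (4 * Real.pi * (1008 / 1000)) ≤ ρ * (4 * Real.pi * (2 - 16 * s + κ)) := by
          apply mul_le_mul_of_nonneg_left _ hρ.le
          apply mul_le_mul_of_nonneg_left _ (by positivity)
          linarith only [h2, k5]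
        linarith only [foc, hd, k2, h3, this]
      nlinarith only [k6, this, hs, h2, hs', hpi]

/-! ### the upper location, product form -/

theorem refl_le {w : ℂ} {σ η : ℝ} (hσ : 0 ≤ σ) (hσ' : σ ≤ 1 / 2) (hη : 0 ≤ η) (ht : w.im ≤ T) (hT : 0 ≤ T) :
    fR w (σ + η * Complex.I) ≤ fR w (-σ + η * Complex.I) + 2 * Real.pi * T := by
  have hpi := Real.pi_pos
  rcases le_or_gt w.im 0 with h | h
  · have := fR_reflect h hσ hη
    have : 0 ≤ 2 * Real.pi * T := by positivity
    linarith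
  · have h1 := fR_reflect_le (w := ⟨w.re, η⟩) hσ hσ' h.le
    rw [fR_fu, fR_fu] at h1 ⊢
    have e1 : ((σ : ℂ) + η * Complex.I).re = σ := by simp
    have e2 : ((σ : ℂ) + η * Complex.I).im = η := by simp
    have e3 : (-(σ : ℂ) + η * Complex.I).re = -σ := by simp
    have e4 : (-(σ : ℂ) + η * Complex.I).im = η := by simp
    have e5 : ((σ : ℂ) + w.im * Complex.I).re = σ := by simp
    have e6 : ((σ : ℂ) + w.im * Complex.I).im = w.im := by simp
    have e7 : (-(σ : ℂ) + w.im * Complex.I).re = -σ := by simp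
    have e8 : (-(σ : ℂ) + w.im * Complex.I).im = w.im := by simp
    rw [e1, e2, e3, e4]
    rw [e5, e6, e7, e8] at h1
    have h2 := fu_swap w.re w.im σ η
    have h3 := fu_swap w.re w.im (-σ) η
    have h4 := kp_le_one (⟨w.re, η⟩ : ℂ)
    have h5 : 2 * Real.pi * w.im * kp ⟨w.re, η⟩ ≤ 2 * Real.pi * T := by
      calc _ ≤ 2 * Real.pi * w.im * 1 := mul_le_mul_of_nonneg_left h4 (by positivity)
        _ ≤ _ := by
          rw [mul_one]
          exact mul_le_mul_of_nonneg_left ht (by positivity)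
    simp only at h1
    linarith only [h1, h2, h3, h5]

theorem RKe.ok.im_le (hk : k.ok b w) : w.im ≤ 56 / 1000 := by
  by_cases h : k.up = false
  · linarith only [hk, h, hk.im_nonpos h]
  · cases k with
    | no => exact absurd rfl h
    | one => exact absurd rfl h
    | lo => exact absurd rfl h
    | rr =>
      obtain ⟨T, -, t, -, -, hw⟩ := hk
      rcases le_total 0 T with hT | hT
      · exact (hw.im_le hT).trans t
      · linarith only [hw, hT, hw.im_nonpos hT]
    | ps => exact hk.2.2.1.trans (by norm_num)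

/-- the product of `ρ` and `σ` is small if `σ ≥ 0` -/
theorem RM.prod_le (h : RM b ρ w w' σ) (h1 : k.ok b w) (h2 : k'.ok b w') (hσ : |σ| < 1 / 2)
    (h0 : 0 ≤ σ) : ρ * σ ≤ 14 / 1000 := by
  have hpi := Real.pi_pos
  have hb := h.b4
  have hρ := h.ρ0
  have hq := h.le_quarter hσ
  have h3 := h.mx (-σ) (by rw [abs_neg]; exact hσ.le)
  have hth : LT.th σ = 1 := th_of_le (by rw [abs_of_nonneg h0]; exact hq)
  unfold rg at h3
  rw [zt_eq, zt_eq, th_neg, hth, mul_one, Complex.ofReal_neg] at h3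
  have a1 := refl_le (w := w) h0 (by linarith only [hq]) hρ.le h1.im_le (by norm_num)
  have a2 := refl_le (w := w') h0 (by linarith only [hq]) hρ.le h2.im_le (by norm_num)
  have a3 : 4 * Real.pi * b * (ρ * σ) ≤ 4 * Real.pi * (56 / 1000) := by linarith only [h3, a1, a2]
  have a4 : b * (ρ * σ) ≤ 56 / 1000 := by
    have : 4 * Real.pi * (b * (ρ * σ)) ≤ 4 * Real.pi * (56 / 1000) := by linarith only [h3, a1, a2]
    exact le_of_mul_le_mul_left this (by positivity)
  have a5 : 0 ≤ ρ * σ := mul_nonneg hρ.le h0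
  nlinarith only [a4, hb, a5]

/-! ### the gain -/

theorem lt_half_neg_iff {σ : ℝ} (hσ : |σ| < 1 / 2) : |(-σ)| < 1 / 2 := by rwa [abs_neg]

/-- height `≥ 0` -/
theorem RM.gain_pos (h : RM b ρ w w' σ) (hc : RCap b ρ) (hx : 48 / 100 ≤ w.re)
    (hx' : w.re ≤ 1 / 2) (ht : 0 ≤ w.im) (htT : w.im ≤ T) (hT : T ≤ 56 / 1000) (hk : k.ok b w)
    (hk' : k'.ok b w') (hσ : |σ| < 1 / 2) :
    fu w.re w.im σ (ρ * LT.th σ) < fu (105 / 1000) T σ (ρ * LT.th σ) := by
  have hρ := h.ρ0
  have hρ' := hc.1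
  have hσ' := abs_lt.mp hσ
  rcases le_or_gt σ 0 with h0 | h0
  · rcases le_or_gt (-(1 / 4)) σ with h1 | h1
    · have g := gain_flat_neg hx hx' ht htT hT hρ hρ' (s := -σ) (by linarith only [h0]) (by linarith only [h1])
      rw [th_of_le (by rw [abs_of_nonpos h0]; linarith only [h1]), mul_one]
      rwa [neg_neg] at g
    · obtain ⟨s, rfl⟩ : ∃ s : ℝ, σ = -(1 / 2) + s := ⟨σ + 1 / 2, by ring⟩
      have hs : 0 < s := by linarith only [hσ']
      rw [th_ramp hs.le (by linarith only [h1])]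
      exact gain_ramp_neg hx hx' ht htT hT hρ hρ' hs (by linarith only [h1])
        (h.gain_cond hc hx hx' ht hk' hs (by linarith only [h1]))
  · have hq := h.le_quarter hσ
    rw [th_of_le (by rw [abs_of_pos h0]; linarith only [hq]), mul_one]
    refine gain_flat_pos hx hx' ht htT hT hρ hρ' h0.le hq ?_
    rcases le_total σ (17 / 100) with h1 | h1
    · exact Or.inl h1
    · have := h.prod_le hk hk' hσ h0.le
      right; left
      nlinarith only [this, hρ, hρ', h1]

/-- height `≤ 0` -/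
theorem RM.gain_neg (h : RM b ρ w w' σ) (hc : RCap b ρ) (hx : 48 / 100 ≤ w.re)
    (hx' : w.re ≤ 1 / 2) (ht : w.im ≤ 0) (htT : T ≤ w.im) (hT : -(385 / 10000) ≤ T)
    (hT4 : b < 5 → -(25 / 1000) ≤ T) (hσ : |σ| < 1 / 2) :
    fu w.re w.im σ (ρ * LT.th σ) < fu (105 / 1000) T σ (ρ * LT.th σ) := by
  have hρ := h.ρ0
  have hρ' := hc.1
  have hσ' := abs_lt.mp hσ
  have hcc : (ρ ≤ 725 / 10000 ∧ -T ≤ 385 / 10000) ∨ (ρ ≤ 1045 / 10000 ∧ -T ≤ 25 / 1000) := by
    rcases lt_or_ge b 5 with hb | hb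
    · exact Or.inr ⟨hρ', by linarith only [hT4, hb, hT4 hb]⟩
    · exact Or.inl ⟨hc.2.1 hb, by linarith only [hT]⟩
  have e1 : fu w.re w.im σ (ρ * LT.th σ) = fu w.re (-w.im) (-σ) (ρ * LT.th (-σ)) := by
    rw [fu_mir, neg_neg, th_neg]
  have e2 : fu (105 / 1000) T σ (ρ * LT.th σ) = fu (105 / 1000) (-T) (-σ) (ρ * LT.th (-σ)) := by
    rw [fu_mir, neg_neg, th_neg]
  rw [e1, e2]
  have hq := h.le_quarter hσ
  rcases le_or_gt 0 σ with h0 | h0
  · rw [th_of_le (by rw [abs_neg, abs_of_nonneg h0]; linarith only [hq]), mul_one]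
    exact gain_flat_neg hx hx' (by linarith only [ht]) (by linarith only [htT]) (by linarith only [hT, hρ, hρ']) hρ hρ' h0 hq
  · rcases le_or_gt (-(1 / 4)) σ with h1 | h1
    · rw [th_of_le (by rw [abs_neg, abs_of_neg h0]; linarith only [h1]), mul_one]
      refine gain_flat_pos hx hx' (by linarith only [ht]) (by linarith only [htT]) (by linarith only [hT, hρ, hρ']) hρ hρ' (by linarith only [h0])
        (by linarith only [h1]) ?_
      rcases hcc with hc | hc
      · right; left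
        linarith only [hρ, hc, hc.1]
      · right; right
        exact hc.2
    · obtain ⟨s, rfl⟩ : ∃ s : ℝ, σ = -(1 / 2) + s := ⟨σ + 1 / 2, by ring⟩
      have hs : 0 < s := by linarith only [hσ']
      rw [th_neg, th_ramp hs.le (by linarith only [h1]), show -(-(1 / 2) + s) = 1 / 2 - s by ring]
      exact gain_ramp_pos hx hx' (by linarith only [ht]) (by linarith only [htT]) hρ hs (by linarith only [h1]) hcc

/-- the value of a ring increases if the ring|ring hinge is moved from `[.48, .5]` to `.105` -/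
theorem RM.gain (h : RM b ρ w w' σ) (hc : RCap b ρ) (hw : RH w T (1 / 2) (1 / 10) (2 / 100))
    (h1 : -(385 / 10000) ≤ T) (h2 : T ≤ 56 / 1000) (h3 : b < 5 → -(25 / 1000) ≤ T)
    (h4 : 5 ≤ b → T ≤ 465 / 10000) (hk' : k'.ok b w') (hx : 48 / 100 ≤ w.re) (hσ : |σ| < 1 / 2) :
    fR w (LT.zt ρ σ) < fR ⟨105 / 1000, T⟩ (LT.zt ρ σ) := by
  have hzr : (LT.zt ρ σ).re = σ := by simp [LT.zt]
  have hzi : (LT.zt ρ σ).im = ρ * LT.th σ := by simp [LT.zt]
  rw [fR_fu, fR_fu, hzr, hzi]
  rcases le_total 0 T with hT | hT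
  · have him : 0 ≤ w.im := by
      rw [hw.im]
      exact mul_nonneg hT (tr_mem _ _ _ _).1
    exact h.gain_pos hc hx hw.reM him (hw.im_le hT) h2 (k := .rr) ⟨T, h1, h2, h3, h4, hw⟩ hk' hσ
  · exact h.gain_neg hc hx hw.reM (hw.im_nonpos hT) (hw.im_ge hT) h1 h3 hσ

end Pool.Agent.Work.MP_b30479_gt.G2
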