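import Pool.Agent.Work.MP_b30479_gt.G2.RngPs
import Pool.Agent.Work.MP_b30479_gt.G2.RngM

/-!
# Ring sides: the cap of the ring|ring hinges, one ring
-/

namespace Pool.Agent.Work.MP_b30479_gt.G2

open Finset VOL Filter Topology
open NumU (uu uu_neg uu_add_one uu_one_sub UU_uu)

variable {x t σ η c a b s ρ T θ y K κ : ℝ} {w w' : ℂ} {k k' : RKe}

theorem fR_zt (w : ℂ) (ρ σ : ℝ) : fR w (LT.zt ρ σ) = fu w.re w.im σ (ρ * LT.th σ) := by
  rw [fR_fu]
  simp [LT.zt]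

/-- the ring variable at an end of its path -/
theorem fR_end (h : |σ| = 1 / 2) (w : ℂ) (ρ : ℝ) : fR w (LT.zt ρ σ) = Real.pi * |w.im| := by
  rcases (abs_eq (by norm_num : (0 : ℝ) ≤ 1 / 2)).mp h with h3 | h3
  · rw [h3, zt_half, fR_half]
  · rw [h3, zt_neg_half, fR_neg_half]

theorem rg_end (h : |σ| = 1 / 2) (b ρ : ℝ) (w w' : ℂ) :
    rg b ρ w w' σ = Real.pi * |w.im| + Real.pi * |w'.im| := by
  rcases (abs_eq (by norm_num : (0 : ℝ) ≤ 1 / 2)).mp h with h3 | h3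
  · rw [h3, rg_half]
  · rw [h3, rg_neg_half]

/-- the ranges of the heights of ring|ring hinges -/
def RRT (b T : ℝ) : Prop := -(385 / 10000) ≤ T ∧ T ≤ 56 / 1000 ∧ (b < 5 → -(25 / 1000) ≤ T) ∧
  (5 ≤ b → T ≤ 465 / 10000)

theorem RRT.ok (h : RRT b T) (hw : RH w T (1 / 2) (1 / 10) (2 / 100)) : RKe.ok .rr b w :=
  ⟨T, h.1, h.2.1, h.2.2.1, h.2.2.2, hw⟩

/-- both ends of the path: the ring has four crossings and positive heights -/
theorem RM.end_four (h : RM b ρ w w' σ) (h1 : k.ok b w) (h2 : k'.ok b w') (hσ : |σ| = 1 / 2) :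
    b = 4 ∧ 0 < w.im ∧ 0 < w'.im := by
  have hb := h.b4
  refine ⟨?_, ?_, ?_⟩
  · by_contra hne
    exact absurd (h.lt_half_of h1.strip h2.strip (Or.inl (lt_of_le_of_ne hb (Ne.symm hne))))
      (by rw [hσ]; exact lt_irrefl _)
  · by_contra hne
    exact absurd (h.lt_half_of h1.strip h2.strip (Or.inr (Or.inl (not_lt.1 hne))))
      (by rw [hσ]; exact lt_irrefl _)
  · by_contra hne
    exact absurd (h.lt_half_of h1.strip h2.strip (Or.inr (Or.inr (not_lt.1 hne))))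
      (by rw [hσ]; exact lt_irrefl _)

theorem RM.lt_or_end (h : RM b ρ w w' σ) : |σ| < 1 / 2 ∨ |σ| = 1 / 2 := h.mem.lt_or_eq

/-- **the gain**, `x > .48`, any place of the ring variable -/
theorem RM.gain' (h : RM b ρ w w' σ) (hc : RCap b ρ) (hw : RH w T (1 / 2) (1 / 10) (2 / 100))
    (hT : RRT b T) (hk' : k'.ok b w') (hx : 48 / 100 < w.re) :
    fR w (LT.zt ρ σ) < fR ⟨105 / 1000, T⟩ (LT.zt ρ σ) := by
  rcases h.lt_or_end with hσ | hσ
  · exact h.gain hc hw hT.1 hT.2.1 hT.2.2.1 hT.2.2.2 hk' hx.le hσ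
  · obtain ⟨-, h1, -⟩ := h.end_four (hT.ok hw) hk' hσ
    rw [fR_end hσ, fR_end hσ]
    have hT0 : 0 < T := by
      by_contra hcon
      linarith only [h1, hw, hcon, hw.im_nonpos (not_lt.1 hcon)]
    have him := hw.im
    rw [tr_c (by norm_num) (by norm_num) (by norm_num) (by linarith only [hx]) hw.reM] at him
    have h2 : w.im < T := by
      rw [him]
      have : (1 / 2 - w.re) / (2 / 100) < 1 := by
        rw [div_lt_one (by norm_num)]
        linarith only [hx]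
      nlinarith only [hx, hT0]
    rw [abs_of_pos h1]
    simp only
    rw [abs_of_pos hT0]
    exact mul_lt_mul_of_pos_left h2 Real.pi_pos

/-- level monotonicity for heights of both signs -/
theorem fu_down (ha : 27 / 100 ≤ a) (hab : a < b) (hb : b ≤ 7 / 10) (hT : |T| ≤ 56 / 1000)
    (hρ : 0 < ρ) (hρ' : ρ ≤ 1045 / 10000) (hσ : |σ| < 1 / 2) :
    fu b T σ (ρ * LT.th σ) < fu a T σ (ρ * LT.th σ) := by
  rcases le_total 0 T with h | h
  · rw [abs_of_nonneg h] at hT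
    exact fu_x_anti ha hab hb h hT hρ hρ' hσ
  · rw [abs_of_nonpos h] at hT
    have := fu_x_anti (t := -T) (σ := -σ) ha hab hb (by linarith only [h]) hT hρ hρ' (by rwa [abs_neg])
    rw [fu_mir, fu_mir, neg_neg, th_neg] at this
    exact this

/-- on the flat part -/
theorem RH.rr_flat (hw : RH w T (1 / 2) (1 / 10) (2 / 100)) (h0 : 1 / 10 ≤ w.re)
    (h1 : w.re ≤ 48 / 100) : w = ⟨w.re, T⟩ := by
  have him := hw.im
  rw [tr_b (by norm_num) (by norm_num) h0 (by linarith only [h1]), mul_one] at him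
  apply Complex.ext
  · rfl
  · exact him

/-- the move of the hinge to `.27` -/
theorem move27 (hρ : 0 < ρ) (hρ' : ρ ≤ 1045 / 10000) (hw : RH w T (1 / 2) (1 / 10) (2 / 100))
    (hT : |T| ≤ 56 / 1000) (h0 : 27 / 100 < w.re) (h1 : w.re ≤ 48 / 100) (hσ : |σ| < 1 / 2) :
    fR w (LT.zt ρ σ) < fR ⟨27 / 100, T⟩ (LT.zt ρ σ) := by
  rw [hw.rr_flat (by linarith only [hρ, hρ', h0]) h1, fR_zt, fR_zt]
  exact fu_down le_rfl h0 (by linarith only [hρ, hρ', h1]) hT hρ hρ' hσ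

theorem move27_end (hw : RH w T (1 / 2) (1 / 10) (2 / 100)) (h0 : 27 / 100 < w.re)
    (h1 : w.re ≤ 48 / 100) (hσ : |σ| = 1 / 2) (c : ℝ) :
    fR w (LT.zt ρ σ) = fR ⟨c, T⟩ (LT.zt ρ σ) := by
  rw [hw.rr_flat (by linarith only [h0]) h1, fR_end hσ, fR_end hσ]

theorem RRT.abs_le (h : RRT b T) : |T| ≤ 56 / 1000 := by
  rw [_root_.abs_le]
  constructor
  · linarith only [h, h.1]
  · exact h.2.1

/-- the data of a positive ring|ring hinge -/
theorem RKe.ok.of_pos (hk : k.ok b w) (h : 0 < w.im) (hx : k = .rr → w.re ≤ K)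
    (hx' : k = .ps → 1 / 2 ≤ K) :
    0 < w.re ∧ w.re ≤ K ∧ w.im ≤ 56 / 1000 ∧ w.im ≤ 56 / 100 * w.re := by
  by_cases hn : k.up = false
  · exact absurd h (not_lt.2 (hk.im_nonpos hn))
  cases k with
  | no => exact absurd rfl hn
  | one => exact absurd rfl hn
  | lo => exact absurd rfl hn
  | rr =>
    obtain ⟨T, h1, h2, -, -, hw⟩ := hk
    have hT0 : 0 < T := by
      by_contra hcon
      linarith only [h, hw, hcon, hw.im_nonpos (not_lt.1 hcon)]
    have h3 : tr 0 (1 / 2) (1 / 10) (2 / 100) w.re ≤ w.re / (1 / 10) := by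
      have h4 : 0 ≤ w.re / (1 / 10) := div_nonneg hw.re0 (by norm_num)
      unfold tr
      rw [sub_zero]
      refine max_le h4 ((min_le_right _ _).trans (min_le_left _ _))
    have h4 : w.im ≤ 56 / 100 * w.re := by
      rw [hw.im]
      calc T * tr 0 (1 / 2) (1 / 10) (2 / 100) w.re ≤ T * (w.re / (1 / 10)) :=
            mul_le_mul_of_nonneg_left h3 hT0.le
        _ ≤ 56 / 1000 * (w.re / (1 / 10)) :=
            mul_le_mul_of_nonneg_right h2 (div_nonneg hw.re0 (by norm_num))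
        _ = _ := by ring
    exact ⟨by linarith only [h, h4], hx rfl, (hw.im_le hT0.le).trans h2, h4⟩
  | ps =>
    obtain ⟨-, -, h1, h2, h3⟩ := hk
    exact ⟨by linarith only [h, h2], by linarith only [h3, hx', hx' rfl], by linarith only [h, h1], by linarith only [h, h2]⟩

/-- the value at `-1/4` -/
theorem RKe.ok.quarter_gt (hk : k.ok b w) (h : 0 < w.im) (hx : k.cp ρ w) (hρ : 0 < ρ)
    (hρ' : ρ ≤ 1045 / 10000) : Real.pi * w.im < fu w.re w.im (-(1 / 4)) ρ := by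
  by_cases hr : k = .ps
  · subst hr
    obtain ⟨-, -, h1, h2, h3⟩ := hk
    exact fu_quarter_ps (by linarith only [h, h2]) h3 h.le h1 h2 hx hρ'
  · obtain ⟨x0, x1, t1, t2⟩ := hk.of_pos h (K := 27 / 100) (fun hk => by subst hk; exact hx)
      (fun hk => absurd hk hr)
    exact fu_quarter_gt x0 x1 h.le t1 t2 hρ.le hρ'

/-- the value at `-1/4`, weaker caps -/
theorem RKe.ok.quarter_ge (hk : k.ok b w) (h : 0 < w.im) (hx : k = .rr → w.re ≤ 48 / 100)
    (hp : k = .ps → 4 / 100 ≤ ρ) (hρ : 0 < ρ) (hρ' : ρ ≤ 1045 / 10000) :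
    Real.pi * w.im - 16 / 100 < fu w.re w.im (-(1 / 4)) ρ := by
  by_cases hr : k = .ps
  · have := hk.quarter_gt (ρ := ρ) h (by subst hr; exact hp rfl) hρ hρ'
    linarith only [hρ, hρ', this]
  · obtain ⟨x0, x1, t1, t2⟩ := hk.of_pos h hx (fun hk => absurd hk hr)
    exact fu_quarter_ge x0 x1 h.le t1 t2 hρ hρ'

/-- **block move**: hinge to `.105`, ring variable to `-1/4` -/
theorem RM.block (h : RM b ρ w w' σ) (hc : RCap b ρ) (hw : RH w T (1 / 2) (1 / 10) (2 / 100))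
    (hT : RRT b T) (hk' : k'.ok b w') (hx' : k' = .rr → w'.re ≤ 48 / 100)
    (hp' : k' = .ps → 4 / 100 ≤ ρ) (hσ : |σ| = 1 / 2) :
    rg b ρ w w' σ < rg b ρ ⟨105 / 1000, T⟩ w' (-(1 / 4)) ∧ |w.im| ≤ |T| := by
  have hpi := Real.pi_pos
  obtain ⟨hb, h1, h2⟩ := h.end_four (hT.ok hw) hk' hσ
  have hρ := h.ρ0
  have hρ' := hc.1
  have hT0 : 0 < T := by
    by_contra hcon
    linarith only [h1, hw, hcon, hw.im_nonpos (not_lt.1 hcon)]
  have hwT := hw.im_le hT0.le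
  refine ⟨?_, by rw [abs_of_pos h1, abs_of_pos hT0]; exact hwT⟩
  have k1 := RV.r9 hT0.le hT.2.1 hρ.le hρ'
  have k2 := hk'.quarter_ge h2 hx' hp' hρ hρ'
  rw [rg_end hσ, abs_of_pos h1, abs_of_pos h2]
  unfold rg
  rw [fR_zt, fR_zt, th_of_le (by rw [abs_neg, abs_of_pos] <;> norm_num), mul_one, hb]
  simp only
  have k3 := mul_le_mul_of_nonneg_left hwT hpi.le
  have e : -(2 * Real.pi * ρ * (4 * (-(1 / 4)) + 1)) = 0 := by ring
  rw [e]
  linarith only [hρ, hρ', k1, k2, k3]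

/-- **the ring variable is not at an end**, once the ring|ring hinges are `≤ .27` -/
theorem RM.lt_half_four (h : RM b ρ w w' σ) (hc : RCap b ρ) (hk : k.ok b w) (hk' : k'.ok b w')
    (hx : k.cp ρ w) (hx' : k'.cp ρ w') : |σ| < 1 / 2 := by
  rcases h.lt_or_end with hσ | hσ
  · exact hσ
  · exfalso
    obtain ⟨hb, h1, h2⟩ := h.end_four hk hk' hσ
    have hρ := h.ρ0
    have hρ' := hc.1
    have k1 := hk.quarter_gt h1 hx hρ hρ'
    have k2 := hk'.quarter_gt h2 hx' hρ hρ'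
    have h3 := h.mx (-(1 / 4)) (by rw [abs_neg, abs_of_pos] <;> norm_num)
    rw [rg_end hσ, abs_of_pos h1, abs_of_pos h2] at h3
    unfold rg at h3
    rw [fR_zt, fR_zt, th_of_le (by rw [abs_neg, abs_of_pos] <;> norm_num), mul_one, hb] at h3
    have e : -(2 * Real.pi * ρ * (4 * (-(1 / 4)) + 1)) = 0 := by ring
    rw [e] at h3
    linarith only [k1, k2, h3]

end Pool.Agent.Work.MP_b30479_gt.G2
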