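import Pool.Agent.Work.MP_b30479_gt.G2.RngM

/-!
# Ring sides: positive heights, all derivatives in the ring variable are `≥ 0` at a maximiser
-/

namespace Pool.Agent.Work.MP_b30479_gt.G2

open Finset VOL Filter Topology
open NumU (uu uu_neg uu_add_one uu_one_sub UU_uu)

variable {x t σ η c a b s ρ T θ y K κ : ℝ} {w w' : ℂ} {k k' : RKe}

/-! ### below the ring variable -/

/-- `LL + m YY` increases along the direction `1 + i κ` in the first quadrant -/
theorem Dq_mono_dir {m κ x0 y0 l : ℝ} (hm : 0 ≤ m) (hκ : 0 ≤ κ) (hmκ : κ * m ≤ 1) (hl : 0 ≤ l)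
    (hx : 0 ≤ x0) (hx' : x0 + l ≤ 1 / 2) (hy : 0 < y0) :
    Dq m ⟨x0, y0⟩ ≤ Dq m ⟨x0 + l, y0 + κ * l⟩ := by
  have hpi := Real.pi_pos
  have hd : ∀ θ ∈ Set.Icc (0 : ℝ) l, HasDerivAt (fun θ => Dq m ⟨x0 + θ, y0 + κ * θ⟩)
      ((1 - κ * m) * CC ⟨x0 + θ, y0 + κ * θ⟩ + (m + κ) * SS ⟨x0 + θ, y0 + κ * θ⟩) θ := by
    intro θ hθ
    have hg : HasDerivAt (fun θ : ℝ => (⟨x0 + θ, y0 + κ * θ⟩ : ℂ)) (1 + κ * Complex.I) θ := by
      have h2 : HasDerivAt (fun θ : ℝ => ((x0 : ℂ) + y0 * Complex.I) + (θ : ℂ) * (1 + κ * Complex.I))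
          (1 + κ * Complex.I) θ := by
        simpa using ((Complex.ofRealCLM.hasDerivAt (x := θ)).mul_const (1 + κ * Complex.I)).const_add
          ((x0 : ℂ) + y0 * Complex.I)
      refine h2.congr_of_eventuallyEq (Filter.Eventually.of_forall fun s => ?_)
      apply Complex.ext
      · simp
      · simp
        ring
    have hi : 0 < (⟨x0 + θ, y0 + κ * θ⟩ : ℂ).im := by
      simp only
      have := mul_nonneg hκ hθ.1
      linarith only [hy, this]
    have k1 := hasDerivAt_LL hg (sin_ne_of_im hi.ne')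
    have k2 := hasDerivAt_YY_im hg hi.ne'
    unfold Dq
    refine (k1.add (k2.const_mul m)).congr_deriv ?_
    simp
    ring
  have hm' : MonotoneOn (fun θ => Dq m ⟨x0 + θ, y0 + κ * θ⟩) (Set.Icc 0 l) := by
    apply monotoneOn_of_deriv_nonneg (convex_Icc _ _)
    · exact fun θ hθ => (hd θ hθ).continuousAt.continuousWithinAt
    · intro θ hθ
      rw [interior_Icc] at hθ
      exact (hd θ ⟨hθ.1.le, hθ.2.le⟩).differentiableAt.differentiableWithinAt
    · intro θ hθ
      rw [interior_Icc] at hθ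
      rw [(hd θ ⟨hθ.1.le, hθ.2.le⟩).deriv]
      have hi : 0 < y0 + κ * θ := by
        have := mul_nonneg hκ hθ.1.le
        linarith only [hy, this]
      have hp := cosh_sub_cos_pos (sin_ne_of_im (u := ⟨x0 + θ, y0 + κ * θ⟩) (by simpa using hi.ne'))
      have c1 : 0 ≤ CC ⟨x0 + θ, y0 + κ * θ⟩ := by
        unfold CC
        apply mul_nonneg hpi.le
        apply div_nonneg _ hp.le
        simp only
        apply Real.sin_nonneg_of_nonneg_of_le_pi
        · have : 0 ≤ x0 + θ := by linarith only [hx, hθ, hθ.1]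
          positivity
        · nlinarith only [hx', hpi, hθ, hθ.2]
      have c2 : 0 ≤ SS ⟨x0 + θ, y0 + κ * θ⟩ := by
        unfold SS
        apply mul_nonneg hpi.le
        apply div_nonneg _ hp.le
        simp only
        rw [Real.sinh_nonneg_iff]
        positivity
      have c3 : 0 ≤ 1 - κ * m := by linarith only [hmκ]
      positivity
  have := hm' (Set.left_mem_Icc.2 hl) (Set.right_mem_Icc.2 hl) hl
  simpa using this

/-- reflection `u ↦ 1 - u` below the real axis -/
theorem Dq_refl {m a y : ℝ} (hy : 0 < y) : Dq m ⟨1 - a, -y⟩ = Dq m ⟨a, y⟩ := by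
  unfold Dq
  have e1 : LL ⟨1 - a, -y⟩ = LL ⟨a, y⟩ := by
    have e2 : (⟨1 - a, -y⟩ : ℂ) = -⟨a, y⟩ + 1 := by
      apply Complex.ext <;> simp
      ring
    rw [e2, LL_add_one, LL_neg]
  rw [e1, YY_mk_neg (by linarith only [hy]), YY_mk_pos hy, neg_neg, DT.Tr_one_sub hy]
  ring

/-- **the derivative in the ring variable, height below the ring variable** -/
theorem Dm_below (hρ : 0 < ρ) (hρ' : ρ ≤ 1045 / 10000) (hs : 0 < s) (hs' : s ≤ 1 / 4)
    (hx0 : 0 ≤ w.re) (hx : w.re ≤ 1 / 2) (ht : 0 ≤ w.im) (hη : w.im < 4 * ρ * s)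
    (hκ : w.im ≤ 56 / 100 * w.re) : 0 ≤ Dm (4 * ρ) w (LT.zt ρ (-(1 / 2) + s)) := by
  have hpi := Real.pi_pos
  rcases le_total s w.re with h1 | h1
  · have := Dm_own_ge (κ := 0) hρ hs hs' h1 hx ht hη (by linarith only [hs, h1]) (by linarith only [hρ, hρ', h1])
    linarith only [this]
  · have η0 : 0 < 4 * ρ * s := by positivity
    rw [Dm_coord hs.le hs', show w.re + 1 - s = 1 - (s - w.re) by ring,
      show w.im - 4 * ρ * s = -(4 * ρ * s - w.im) by ring, Dq_refl (by linarith only [hη])]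
    rcases hx0.eq_or_lt with h0 | h0
    · have ht0 : w.im = 0 := le_antisymm (by rw [← h0] at hκ; linarith only [hκ]) ht
      rw [ht0, ← h0]
      simp
    · have key := Dq_mono_dir (m := 4 * ρ) (κ := w.im / w.re) (x0 := s - w.re)
        (y0 := 4 * ρ * s - w.im) (l := 2 * w.re) (by positivity) (by positivity) (by
          have : w.im / w.re ≤ 56 / 100 := by
            rw [div_le_iff₀ h0]
            exact hκ
          have h4 : 0 ≤ w.im / w.re := by positivity
          nlinarith only [hρ', hρ, this]) (by linarith only [h0]) (by linarith only [h1]) (by linarith only [hs', h1]) (by linarith only [hη])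
      have e : w.im / w.re * (2 * w.re) = 2 * w.im := by field_simp
      rw [e, show s - w.re + 2 * w.re = w.re + s by ring,
        show 4 * ρ * s - w.im + 2 * w.im = w.im + 4 * ρ * s by ring] at key
      linarith only [key]

end Pool.Agent.Work.MP_b30479_gt.G2
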