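import Pool.Agent.Work.MP_b30479_gt.G2.RngG

/-!
# Ring sides: bounds for the other hinge on the ramp of the ring variable
-/

namespace Pool.Agent.Work.MP_b30479_gt.G2

open Finset VOL Filter Topology
open NumU (uu uu_neg uu_add_one uu_one_sub)

variable {x t σ η c a b s ρ T θ y K : ℝ} {w w' : ℂ} {k k' : RKe}

/-! ### coordinates on the ramp -/

theorem th_ramp {s : ℝ} (h0 : 0 ≤ s) (h1 : s ≤ 1 / 4) (ρ : ℝ) :
    ρ * LT.th (-(1 / 2) + s) = 4 * ρ * s := by
  have : |(-(1 / 2) + s)| = 1 / 2 - s := by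
    rw [abs_of_nonpos (by linarith only [h1])]
    ring
  rw [th_of_ge (by rw [this]; linarith only [h1]), this]
  ring

theorem Dm_coord {s : ℝ} (h0 : 0 ≤ s) (h1 : s ≤ 1 / 4) (m ρ : ℝ) (w : ℂ) :
    Dm m w (LT.zt ρ (-(1 / 2) + s)) = Dq m ⟨w.re + s, w.im + 4 * ρ * s⟩ -
      Dq m ⟨w.re + 1 - s, w.im - 4 * ρ * s⟩ := by
  unfold Dm
  have e1 : w + 1 / 2 + LT.zt ρ (-(1 / 2) + s) = ⟨w.re + s, w.im + 4 * ρ * s⟩ := by
    rw [zt_eq, th_ramp h0 h1]
    apply Complex.ext <;> simp
  have e2 : w + 1 / 2 - LT.zt ρ (-(1 / 2) + s) = ⟨w.re + 1 - s, w.im - 4 * ρ * s⟩ := by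
    rw [zt_eq, th_ramp h0 h1]
    apply Complex.ext <;> simp
    ring
  rw [e1, e2]

theorem LL_shift (x y s : ℝ) : LL ⟨x + 1 - s, y⟩ = LL ⟨x - s, y⟩ := by
  rw [← LL_add_one ⟨x - s, y⟩]
  congr 1
  apply Complex.ext <;> simp
  ring

theorem YY_shift_pos {y : ℝ} (x s : ℝ) (h : 0 < y) : YY ⟨x + 1 - s, y⟩ = YY ⟨x - s, y⟩ + Real.pi := by
  rw [YY_mk_pos h, YY_mk_pos h, show x + 1 - s = (x - s) + 1 by ring, Tr_add_one]
  ring

theorem YY_shift_neg {y : ℝ} (x s : ℝ) (h : y < 0) : YY ⟨x + 1 - s, y⟩ = YY ⟨x - s, y⟩ - Real.pi := by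
  rw [YY_mk_neg h, YY_mk_neg h, show x + 1 - s = (x - s) + 1 by ring, Tr_add_one]
  ring

theorem YY_mk_zero (x : ℝ) : YY ⟨x, 0⟩ = 0 := YY_zero rfl

/-! ### positive heights -/

/-- `LL + m YY` increases along the direction `1 + i m` in the first quadrant -/
theorem Dq_mono {m x0 y0 l : ℝ} (hm : 0 ≤ m) (hm1 : m ≤ 1) (hl : 0 ≤ l) (hx : 0 ≤ x0) (hx' : x0 + l ≤ 1 / 2)
    (hy : 0 < y0) : Dq m ⟨x0, y0⟩ ≤ Dq m ⟨x0 + l, y0 + m * l⟩ := by
  have hpi := Real.pi_pos
  have hd : ∀ θ ∈ Set.Icc (0 : ℝ) l, HasDerivAt (fun θ => Dq m ⟨x0 + θ, y0 + m * θ⟩)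
      ((1 - m ^ 2) * CC ⟨x0 + θ, y0 + m * θ⟩ + 2 * m * SS ⟨x0 + θ, y0 + m * θ⟩) θ := by
    intro θ hθ
    have hg : HasDerivAt (fun θ : ℝ => (⟨x0 + θ, y0 + m * θ⟩ : ℂ)) (1 + m * Complex.I) θ := by
      have h2 : HasDerivAt (fun θ : ℝ => ((x0 : ℂ) + y0 * Complex.I) + (θ : ℂ) * (1 + m * Complex.I))
          (1 + m * Complex.I) θ := by
        simpa using ((Complex.ofRealCLM.hasDerivAt (x := θ)).mul_const (1 + m * Complex.I)).const_add
          ((x0 : ℂ) + y0 * Complex.I)
      refine h2.congr_of_eventuallyEq (Filter.Eventually.of_forall fun s => ?_)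
      apply Complex.ext
      · simp
      · simp
        ring
    have hi : 0 < (⟨x0 + θ, y0 + m * θ⟩ : ℂ).im := by
      simp only
      have := mul_nonneg hm hθ.1
      linarith only [hy, this]
    have k1 := hasDerivAt_LL hg (sin_ne_of_im hi.ne')
    have k2 := hasDerivAt_YY_im hg hi.ne'
    unfold Dq
    refine (k1.add (k2.const_mul m)).congr_deriv ?_
    simp
    ring
  have hm' : MonotoneOn (fun θ => Dq m ⟨x0 + θ, y0 + m * θ⟩) (Set.Icc 0 l) := by
    apply monotoneOn_of_deriv_nonneg (convex_Icc _ _)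
    · exact fun θ hθ => (hd θ hθ).continuousAt.continuousWithinAt
    · intro θ hθ
      rw [interior_Icc] at hθ
      exact (hd θ ⟨hθ.1.le, hθ.2.le⟩).differentiableAt.differentiableWithinAt
    · intro θ hθ
      rw [interior_Icc] at hθ
      rw [(hd θ ⟨hθ.1.le, hθ.2.le⟩).deriv]
      have hi : 0 < y0 + m * θ := by
        have := mul_nonneg hm hθ.1.le
        linarith only [hy, this]
      have hp := cosh_sub_cos_pos (sin_ne_of_im (u := ⟨x0 + θ, y0 + m * θ⟩) (by simpa using hi.ne'))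
      have c1 : 0 ≤ CC ⟨x0 + θ, y0 + m * θ⟩ := by
        unfold CC
        apply mul_nonneg hpi.le
        apply div_nonneg _ hp.le
        simp only
        apply Real.sin_nonneg_of_nonneg_of_le_pi
        · have : 0 ≤ x0 + θ := by linarith only [hx, hθ, hθ.1]
          positivity
        · nlinarith only [hx', hpi, hθ, hθ.2]
      have c2 : 0 ≤ SS ⟨x0 + θ, y0 + m * θ⟩ := by
        unfold SS
        apply mul_nonneg hpi.le
        apply div_nonneg _ hp.le
        simp only
        rw [Real.sinh_nonneg_iff]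
        positivity
      have c3 : 0 ≤ 1 - m ^ 2 := by nlinarith only [hm1, hm]
      positivity
  have := hm' (Set.left_mem_Icc.2 hl) (Set.right_mem_Icc.2 hl) hl
  simpa using this

/-- **lower bound of the derivative in the ring variable, height `≥ 0`** -/
theorem Dm_pos_ge (hρ : 0 < ρ) (hρ' : ρ ≤ 1 / 8) (hs : 0 < s) (hs' : s ≤ 1 / 4) (hx0 : 0 ≤ w.re)
    (hx : w.re ≤ 1 / 2) (ht : 0 ≤ w.im) (hns : w + 1 / 2 - LT.zt ρ (-(1 / 2) + s) ≠ 1) :
    -(4 * Real.pi * ρ) ≤ Dm (4 * ρ) w (LT.zt ρ (-(1 / 2) + s)) := by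
  have hpi := Real.pi_pos
  have η0 : 0 < 4 * ρ * s := by positivity
  have hv : Complex.sin (Real.pi * (⟨w.re + 1 - s, w.im - 4 * ρ * s⟩ : ℂ)) ≠ 0 := by
    apply sin_ne_02 (by linarith only [hρ, hρ', hs', hx0]) (by linarith only [hρ, hρ', hs, hx])
    by_contra hcon
    push Not at hcon
    apply hns
    rw [zt_eq, th_ramp hs.le hs']
    apply Complex.ext
    · simp
      linarith only [hcon, hcon.2]
    · simp
      linarith only [hcon, hcon.1]
  have hLL : LL ⟨w.re + 1 - s, w.im - 4 * ρ * s⟩ ≤ LL ⟨w.re + s, w.im + 4 * ρ * s⟩ := by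
    have h1 := ring_arg_le (x := w.re) (t := w.im) (σ := -(1 / 2) + s) (η := 4 * ρ * s) hx0 hx ht
      (by linarith only [hρ, hρ', hs']) (by linarith only [hs]) η0.le
    rw [show w.re + 1 / 2 - (-(1 / 2) + s) = w.re + 1 - s by ring,
      show w.re + 1 / 2 + (-(1 / 2) + s) = w.re + s by ring] at h1
    exact LL_mk_le hv h1
  rw [Dm_coord hs.le hs']
  have hm0 : 0 ≤ 4 * ρ := by positivity
  have main : -Real.pi ≤ YY ⟨w.re + s, w.im + 4 * ρ * s⟩ - YY ⟨w.re + 1 - s, w.im - 4 * ρ * s⟩ →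
      -(4 * Real.pi * ρ) ≤ Dq (4 * ρ) ⟨w.re + s, w.im + 4 * ρ * s⟩ -
      Dq (4 * ρ) ⟨w.re + 1 - s, w.im - 4 * ρ * s⟩ := by
    intro h
    unfold Dq
    have := mul_le_mul_of_nonneg_left h hm0
    linarith only [hLL, this]
  have hu : -(Real.pi / 2) ≤ YY ⟨w.re + s, w.im + 4 * ρ * s⟩ := by
    rw [YY_mk_pos (by linarith only [ht, η0])]
    linarith only [ht, η0, hs, hx0, Tr_nonneg (s := w.im + 4 * ρ * s) (x := w.re + s) (by linarith only [ht, η0]) (by linarith only [hs, hx0])]
  rcases lt_trichotomy (w.im - 4 * ρ * s) 0 with h | h | h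
  · apply main
    rw [YY_mk_neg h]
    have := half_le_Tr (s := -(w.im - 4 * ρ * s)) (x := w.re + 1 - s) (by linarith only [h]) (by linarith only [hρ, hρ', hs', hx0])
    linarith only [hpi, hu, this]
  · apply main
    rw [h, YY_mk_zero]
    linarith only [hpi, hu]
  · rcases le_total w.re s with hxs | hxs
    · apply main
      rw [YY_mk_pos h]
      have := Tr_mono (s := w.im - 4 * ρ * s) h (show w.re + 1 - s ≤ 1 by linarith only [hxs])
      rw [Tr_one h] at this
      linarith only [hu, this]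
    · rcases le_total (1 / 2) (w.re + s) with h2 | h2
      · apply main
        rw [YY_shift_pos _ _ h, YY_mk_pos h, YY_mk_pos (by linarith only [η0, h])]
        have k1 := half_le_Tr (s := w.im + 4 * ρ * s) (x := w.re + s) (by linarith only [η0, h]) h2
        have k2 := Tr_le_half (s := w.im - 4 * ρ * s) (x := w.re - s) h (by linarith only [hs, hx])
        linarith only [k1, k2]
      · have key := Dq_mono (m := 4 * ρ) (x0 := w.re - s) (y0 := w.im - 4 * ρ * s) (l := 2 * s)
          (by positivity) (by linarith only [hρ, hρ']) (by linarith only [hs]) (by linarith only [hxs]) (by linarith only [h2]) h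
        rw [show w.re - s + 2 * s = w.re + s by ring,
          show w.im - 4 * ρ * s + 4 * ρ * (2 * s) = w.im + 4 * ρ * s by ring] at key
        unfold Dq at *
        rw [YY_shift_pos _ _ h, LL_shift]
        linarith only [key]

/-! ### beyond `1/2`, heights `≤ 0` -/

/-- the rows for `Dm_right_ge`: slope `A`, cap `R` -/
def RX (A R x : ℝ) : Prop :=
  (∀ s : ℝ, 3 / 100 ≤ s → s ≤ 1 / 4 →
    1 - Real.cos (2 * Real.pi * (x + s)) + 2 * (Real.sinh (2 * Real.pi * (A * (65 / 100 - x))) *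
      Real.sinh (2 * Real.pi * (4 * R * s)) - Real.sin (2 * Real.pi * x) *
      Real.sin (2 * Real.pi * s)) ≤ (1 - Real.cos (2 * Real.pi * (x + s))) * Real.exp (9 * s)) ∧
  4 * Real.sinh (2 * Real.pi * (A * (65 / 100 - x))) * Real.sinh (2 * Real.pi * R) -
      Real.sin (2 * Real.pi * x) * (2 * Real.pi) ≤ 45 / 10 * (1 - Real.cos (2 * Real.pi * (x + 3 / 100)))

section
open NumI NumI.E

/-- `x = var 0`, `s = var 1`; height `n/290 (65/100 - x)` -/
private def eS (n r : ℤ) : E := add (mul (sinh (mul (mul (q 2 1) pi) (mul (q n 290) (sub (q 65 100) (var 0)))))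
    (sinh (mul (mul (q 2 1) pi) (mul (mul (q 4 1) (q r 10000)) (var 1)))))
  (neg (mul (sinPi (mul (q 2 1) (var 0))) (sinPi (mul (q 2 1) (var 1)))))
private def eN : E := sub (q 1 1) (cosPi (mul (q 2 1) (add (var 0) (var 1))))
private def eX (n r : ℤ) : E := sub (mul eN (exp (mul (q 9 1) (var 1)))) (add eN (mul (q 2 1) (eS n r)))
private def eX0 (n r : ℤ) : E := sub (mul (q 45 10) (sub (q 1 1) (cosPi (mul (q 2 1) (add (var 0) (q 3 100))))))
      (sub (mul (mul (q 4 1) (sinh (mul (mul (q 2 1) pi) (mul (q n 290) (sub (q 65 100) (var 0))))))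
      (sinh (mul (mul (q 2 1) pi) (q r 10000)))) (mul (sinPi (mul (q 2 1) (var 0)))
      (mul (q 2 1) pi)))

private theorem RX_of {n r : ℤ} (c1 : chk [eX n r] 40 [V.of 10000 5000 6500, V.of 10000 300 2500] = true)
    (c2 : chk [eX0 n r] 40 [V.of 10000 5000 6500] = true) (h0 : 1 / 2 ≤ x) (h1 : x ≤ 65 / 100) :
    RX ((n : ℝ) / 290) ((r : ℝ) / 10000) x := by
  constructor
  · intro s h2 h3
    have hp := pos_of_chk (chk2 c1 (by norm_num) (x := x) (y := s)
      (by norm_num; linarith only [h0]) (by norm_num; linarith only [h1]) (by norm_num; linarith only [h2]) (by norm_num; linarith only [h3]))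
    simp only [eX, eN, eS, E.val, NumI.lkR] at hp
    simp only [Int.cast_ofNat, Nat.cast_ofNat, Int.cast_one, Nat.cast_one, div_one] at hp
    rw [show Real.pi * (2 * x) = 2 * Real.pi * x by ring, show Real.pi * (2 * s) = 2 * Real.pi * s by ring,
      show Real.pi * (2 * (x + s)) = 2 * Real.pi * (x + s) by ring] at hp
    linarith only [hp]
  · have hp := pos_of_chk (chk1 c2 (by norm_num) (x := x) (by norm_num; linarith only [h0]) (by norm_num; linarith only [h1]))
    simp only [eX0, E.val, NumI.lkR] at hp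
    simp only [Int.cast_ofNat, Nat.cast_ofNat, Int.cast_one, Nat.cast_one, div_one] at hp
    rw [show Real.pi * (2 * x) = 2 * Real.pi * x by ring,
      show Real.pi * (2 * (x + 3 / 100)) = 2 * Real.pi * (x + 3 / 100) by ring] at hp
    linarith only [hp]

theorem RX4 (h0 : 1 / 2 ≤ x) (h1 : x ≤ 65 / 100) : RX (128 / 290) (1045 / 10000) x := by
  have := RX_of (n := 128) (r := 1045) (by decide +kernel) (by decide +kernel) h0 h1
  simpa using this

theorem RX5 (h0 : 1 / 2 ≤ x) (h1 : x ≤ 65 / 100) : RX (158 / 290) (725 / 10000) x := by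
  have := RX_of (n := 158) (r := 725) (by decide +kernel) (by decide +kernel) h0 h1
  simpa using this

end

/-- **lower bound of the derivative in the ring variable beyond `1/2`, height `≤ 0`** -/
theorem Dm_right_ge {A R : ℝ} (hρ : 0 < ρ) (hρ' : ρ ≤ R) (hs : 0 < s) (hs' : s ≤ 1 / 4)
    (hx0 : 1 / 2 ≤ w.re) (hx : w.re ≤ 65 / 100) (ht : w.im ≤ 0)
    (ht' : -w.im ≤ A * (65 / 100 - w.re)) (hR : RX A R w.re) :
    -(45 / 10 * s) ≤ Dm (4 * ρ) w (LT.zt ρ (-(1 / 2) + s)) := by
  have hpi := Real.pi_pos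
  have η0 : 0 < 4 * ρ * s := by positivity
  rw [Dm_coord hs.le hs']
  unfold Dq
  rw [LL_shift]
  have hYY : 0 ≤ YY ⟨w.re + s, w.im + 4 * ρ * s⟩ - YY ⟨w.re + 1 - s, w.im - 4 * ρ * s⟩ := by
    have hv : YY ⟨w.re + 1 - s, w.im - 4 * ρ * s⟩ ≤ -(Real.pi / 2) := by
      rw [YY_mk_neg (by linarith only [ht, η0])]
      have := Tr_mono (s := -(w.im - 4 * ρ * s)) (by linarith only [ht, η0]) (show 1 ≤ w.re + 1 - s by linarith only [hs, hs', hx0])
      rw [Tr_one (by linarith only [ht, η0])] at this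
      linarith only [this]
    have hu : -(Real.pi / 2) ≤ YY ⟨w.re + s, w.im + 4 * ρ * s⟩ := by
      rcases lt_trichotomy (w.im + 4 * ρ * s) 0 with h | h | h
      · rw [YY_mk_neg h]
        have := Tr_mono (s := -(w.im + 4 * ρ * s)) (by linarith only [h]) (show w.re + s ≤ 1 by linarith only [hs, hs', hx])
        rw [Tr_one (by linarith only [h])] at this
        linarith only [this]
      · rw [h, YY_mk_zero]
        linarith only [hpi]
      · rw [YY_mk_pos h]
        linarith only [h, hs, hs', hx0, Tr_nonneg (s := w.im + 4 * ρ * s) (x := w.re + s) h (by linarith only [hs, hs', hx0])]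
    linarith only [hv, hu]
  have hm := mul_nonneg (show 0 ≤ 4 * ρ by positivity) hYY
  -- the logarithmic part
  have c1 := Real.one_le_cosh (2 * Real.pi * (w.im + 4 * ρ * s))
  set N := 1 - Real.cos (2 * Real.pi * (w.re + s)) with hN
  have hN0 : 0 < N := by
    have : Real.cos (2 * Real.pi * (w.re + s)) < 1 := by
      have h1 : 2 * Real.pi - 2 * Real.pi * (w.re + s) ≤ Real.pi := by nlinarith only [hs, hpi, hs', hx0]
      have h2 : 0 < 2 * Real.pi - 2 * Real.pi * (w.re + s) := by nlinarith only [hs, hpi, hs', hx]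
      rw [← Real.cos_two_pi_sub (2 * Real.pi * (w.re + s)), ← Real.cos_zero]
      exact Real.cos_lt_cos_of_nonneg_of_le_pi le_rfl h1 h2
    rw [hN]
    linarith only [this]
  set M := Real.cosh (2 * Real.pi * (w.im + 4 * ρ * s)) - Real.cos (2 * Real.pi * (w.re + s)) with hM
  have hNM : N ≤ M := by rw [hN, hM]; linarith only [c1]
  set D := Real.cosh (2 * Real.pi * (w.im - 4 * ρ * s)) - Real.cos (2 * Real.pi * (w.re - s)) with hD
  have hD0 : 0 < D := cosh_sub_cos_pos (u := ⟨w.re - s, w.im - 4 * ρ * s⟩)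
    (sin_ne_of_im (by simp only; linarith only [ht, η0]))
  have hDM : D = M + 2 * (Real.sinh (2 * Real.pi * -w.im) * Real.sinh (2 * Real.pi * (4 * ρ * s)) -
      Real.sin (2 * Real.pi * w.re) * Real.sin (2 * Real.pi * s)) := by
    rw [hD, hM, mul_add, mul_sub, mul_add, mul_sub, Real.cosh_add, Real.cosh_sub, Real.cos_add,
      Real.cos_sub, mul_neg, Real.sinh_neg]
    ring
  have hsin : Real.sin (2 * Real.pi * w.re) ≤ 0 := by
    have : 0 ≤ Real.sin (2 * Real.pi * w.re - Real.pi) := by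
      apply Real.sin_nonneg_of_nonneg_of_le_pi <;> nlinarith only [hs, hs', hx0, hpi, hx]
    rw [Real.sin_sub_pi] at this
    linarith only [this]
  have hss : 0 ≤ Real.sin (2 * Real.pi * s) := by
    apply Real.sin_nonneg_of_nonneg_of_le_pi
    · positivity
    · nlinarith only [hpi, hs']
  have hsh0 : 0 ≤ Real.sinh (2 * Real.pi * -w.im) := by
    rw [Real.sinh_nonneg_iff]
    have : 0 ≤ -w.im := by linarith only [ht]
    positivity
  have hsh1 : Real.sinh (2 * Real.pi * -w.im) ≤
      Real.sinh (2 * Real.pi * (A * (65 / 100 - w.re))) := by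
    rw [Real.sinh_le_sinh]
    exact mul_le_mul_of_nonneg_left ht' (by positivity)
  have hM0 : 0 < M := hN0.trans_le hNM
  have hLL : LL ⟨w.re + s, w.im + 4 * ρ * s⟩ - LL ⟨w.re - s, w.im - 4 * ρ * s⟩ =
      -(Real.log (D / M) / 2) := by
    rw [LL_eq', LL_eq']
    simp only
    rw [show 2 * Real.cosh (2 * Real.pi * (w.im + 4 * ρ * s)) - 2 * Real.cos (2 * Real.pi * (w.re + s)) = 2 * M by
      rw [hM]; ring, show 2 * Real.cosh (2 * Real.pi * (w.im - 4 * ρ * s)) - 2 * Real.cos (2 * Real.pi * (w.re - s)) =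
      2 * D by rw [hD]; ring, Real.log_mul two_ne_zero hM0.ne', Real.log_mul two_ne_zero hD0.ne',
      Real.log_div hD0.ne' hM0.ne']
    ring
  set S := Real.sinh (2 * Real.pi * -w.im) * Real.sinh (2 * Real.pi * (4 * ρ * s)) -
      Real.sin (2 * Real.pi * w.re) * Real.sin (2 * Real.pi * s) with hS
  have hη1 : 0 ≤ Real.sinh (2 * Real.pi * (4 * ρ * s)) := by
    rw [Real.sinh_nonneg_iff]; positivity
  have hS0 : 0 ≤ S := by
    have := mul_nonneg hsh0 hη1
    nlinarith only [this, hs, hs', hsin, hss]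
  have hDN : D / M ≤ 1 + 2 * S / N := by
    rw [hDM, add_div, div_self hM0.ne']
    have : 2 * S / M ≤ 2 * S / N := div_le_div_of_nonneg_left (by linarith only [hS0]) hN0 hNM
    linarith only [this]
  have hlog : Real.log (D / M) ≤ 9 * s := by
    rcases le_total s (3 / 100) with h3 | h3
    · have h1 := Real.log_le_sub_one_of_pos (div_pos hD0 hM0)
      have h2 : 2 * S / N ≤ 9 * s := by
        rw [div_le_iff₀ hN0]
        have r := hR.2
        have k1 : Real.sinh (2 * Real.pi * (4 * ρ * s)) ≤ 4 * s * Real.sinh (2 * Real.pi * R) := by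
          have a1 := sinh_mul_le (l := 4 * s) (z := 2 * Real.pi * ρ) (by linarith only [hs]) (by linarith only [hs, h3])
            (by positivity)
          rw [show 4 * s * (2 * Real.pi * ρ) = 2 * Real.pi * (4 * ρ * s) by ring] at a1
          refine a1.trans (mul_le_mul_of_nonneg_left ?_ (by linarith only [hs]))
          rw [Real.sinh_le_sinh]
          nlinarith only [hρ', hpi]
        have k2 : Real.sin (2 * Real.pi * s) ≤ 2 * Real.pi * s := Real.sin_le (by positivity)
        have k3 : Real.cos (2 * Real.pi * (w.re + s)) ≤ Real.cos (2 * Real.pi * (w.re + 3 / 100)) := by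
          rw [← Real.cos_two_pi_sub (2 * Real.pi * (w.re + s)), ← Real.cos_two_pi_sub (2 * Real.pi * (w.re + 3 / 100))]
          apply Real.cos_le_cos_of_nonneg_of_le_pi <;> nlinarith only [hs, hpi, hs', hx, hx0, h3]
        have k4 : 0 ≤ Real.sinh (2 * Real.pi * R) := by
          have : 0 ≤ R := hρ.le.trans hρ'
          rw [Real.sinh_nonneg_iff]; positivity
        have k5 : Real.sinh (2 * Real.pi * -w.im) * Real.sinh (2 * Real.pi * (4 * ρ * s)) ≤
            Real.sinh (2 * Real.pi * (A * (65 / 100 - w.re))) *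
              (4 * s * Real.sinh (2 * Real.pi * R)) :=
          mul_le_mul hsh1 k1 hη1 (hsh0.trans hsh1)
        have k6 : -Real.sin (2 * Real.pi * w.re) * Real.sin (2 * Real.pi * s) ≤
            -Real.sin (2 * Real.pi * w.re) * (2 * Real.pi * s) :=
          mul_le_mul_of_nonneg_left k2 (by linarith only [hsin])
        have k7 : S ≤ s * (4 * Real.sinh (2 * Real.pi * (A * (65 / 100 - w.re))) *
            Real.sinh (2 * Real.pi * R) - Real.sin (2 * Real.pi * w.re) * (2 * Real.pi)) := by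
          rw [hS]
          nlinarith only [k5, k6]
        have k8 := mul_le_mul_of_nonneg_left r hs.le
        have k9 : s * (45 / 10 * (1 - Real.cos (2 * Real.pi * (w.re + 3 / 100)))) ≤ s * (45 / 10 * N) := by
          apply mul_le_mul_of_nonneg_left _ hs.le
          rw [hN]
          linarith only [k3]
        linarith only [k5, k6, k8, k9]
      linarith only [hDN, h1, h2]
    · have r := hR.1 s h3 hs'
      have k1 : Real.sinh (2 * Real.pi * (4 * ρ * s)) ≤ Real.sinh (2 * Real.pi * (4 * R * s)) := by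
        rw [Real.sinh_le_sinh]
        apply mul_le_mul_of_nonneg_left _ (by positivity)
        nlinarith only [hρ', hs]
      have k2 : Real.sinh (2 * Real.pi * -w.im) * Real.sinh (2 * Real.pi * (4 * ρ * s)) ≤
          Real.sinh (2 * Real.pi * (A * (65 / 100 - w.re))) *
            Real.sinh (2 * Real.pi * (4 * R * s)) :=
        mul_le_mul hsh1 k1 hη1 (hsh0.trans hsh1)
      have h1 : 1 + 2 * S / N ≤ Real.exp (9 * s) := by
        rw [← sub_nonneg]
        have : Real.exp (9 * s) - (1 + 2 * S / N) = (N * Real.exp (9 * s) - (N + 2 * S)) / N := by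
          field_simp
        rw [this]
        apply div_nonneg _ hN0.le
        rw [hS, hN]
        linarith only [r, k2]
      calc Real.log (D / M) ≤ Real.log (Real.exp (9 * s)) :=
            Real.log_le_log (div_pos hD0 hM0) (hDN.trans h1)
        _ = 9 * s := Real.log_exp _
  linarith only [hm, hLL, hlog]

end Pool.Agent.Work.MP_b30479_gt.G2
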