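import Pool.Agent.Work.MP_b30479_gt.G2.RngPr
import Pool.Agent.Work.MP_b30479_gt.G2.RngK

/-!
# Ring sides: small hinges above the ring variable
-/

namespace Pool.Agent.Work.MP_b30479_gt.G2

open Finset VOL Filter Topology
open NumU (uu uu_neg uu_add_one uu_one_sub UU_uu)

variable {x t σ η c a b s ρ T θ y K κ : ℝ} {w w' : ℂ} {k k' : RKe}

/-- the height part above the ring variable -/
theorem YY_above_ge (h0 : 0 ≤ x) (hxs : x ≤ s) (hs' : s ≤ 1 / 4) (hη : 0 < η) (ht : η ≤ t) :
    -(Real.pi * (1 - 2 * s)) ≤ YY ⟨x + s, t + η⟩ - YY ⟨x + 1 - s, t - η⟩ := by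
  have hpi := Real.pi_pos
  have hu : Real.pi * (x + s) - Real.pi / 2 ≤ YY ⟨x + s, t + η⟩ := by
    rw [YY_mk_pos (by linarith only [hη, ht])]
    have := pi_mul_le_Tr (s := t + η) (x := x + s) (by linarith only [h0, hxs]) (by linarith only [hxs, hs']) (by linarith only [hη, ht])
    linarith only [this]
  have hv : YY ⟨x + 1 - s, t - η⟩ ≤ Real.pi / 2 - Real.pi * (s - x) := by
    rcases ht.eq_or_lt with h | h
    · rw [h, sub_self, YY_mk_zero]
      nlinarith only [hpi, h0, hs']
    · rw [YY_mk_pos (by linarith only [h]), show x + 1 - s = 1 - (s - x) by ring, DT.Tr_one_sub (by linarith only [h])]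
      have := pi_mul_le_Tr (s := t - η) (x := s - x) (by linarith only [hxs]) (by linarith only [h0, hs']) (by linarith only [h])
      linarith only [this]
  nlinarith only [hu, hv]

theorem self_le_sinh {z : ℝ} (h : 0 ≤ z) : z ≤ Real.sinh z := Real.self_le_sinh_iff.2 h

/-- **the derivative in the ring variable, small hinge above the ring variable** -/
theorem Dm_small_pos (hρ : 0 < ρ) (hs : 1 / 100 ≤ s) (hs' : s ≤ 1 / 4) (hx0 : 0 < w.re)
    (hx : w.re ≤ 32 / 100 * s) (hη : 4 * ρ * s ≤ w.im) (hκ : w.im ≤ 56 / 100 * w.re) :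
    0 < Dm (4 * ρ) w (LT.zt ρ (-(1 / 2) + s)) := by
  have hpi := Real.pi_pos
  have s0 : 0 < s := by linarith only [hx0, hx]
  rw [Dm_coord s0.le hs']
  unfold Dq
  rw [LL_shift]
  have hYY := YY_above_ge (x := w.re) (s := s) (η := 4 * ρ * s) (t := w.im) hx0.le (by linarith only [hx0, hx]) hs'
    (by positivity) hη
  set x := w.re with hxd
  set t := w.im with htd
  set η := 4 * ρ * s with hηd
  have η0 : 0 < η := by positivity
  have t0 : 0 < t := by linarith only [hη, η0]
  set C1 := Real.cosh (2 * Real.pi * (t + η)) - Real.cos (2 * Real.pi * (x + s)) with hC1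
  set C2 := Real.cosh (2 * Real.pi * (t - η)) - Real.cos (2 * Real.pi * (x - s)) with hC2
  have hC2p : 0 < C2 := by
    have h1 := Real.one_le_cosh (2 * Real.pi * (t - η))
    have h2 : Real.cos (2 * Real.pi * (x - s)) < 1 := by
      rw [← Real.cos_neg, ← Real.cos_zero]
      apply Real.cos_lt_cos_of_nonneg_of_le_pi le_rfl <;> nlinarith only [hpi, hs', hx0, s0, hx]
    rw [hC2]
    linarith only [h1, h2]
  have hdiff : C1 - C2 = 2 * (Real.sin (2 * Real.pi * s) * Real.sin (2 * Real.pi * x) +
      Real.sinh (2 * Real.pi * t) * Real.sinh (2 * Real.pi * η)) := by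
    rw [hC1, hC2, mul_add, mul_sub, mul_add, mul_sub, Real.cosh_add, Real.cosh_sub, Real.cos_add,
      Real.cos_sub]
    ring
  have hsum : C1 + C2 = 2 * (Real.cosh (2 * Real.pi * t) * Real.cosh (2 * Real.pi * η) -
      Real.cos (2 * Real.pi * s) * Real.cos (2 * Real.pi * x)) := by
    rw [hC1, hC2, mul_add, mul_sub, mul_add, mul_sub, Real.cosh_add, Real.cosh_sub, Real.cos_add,
      Real.cos_sub]
    ring
  -- numbers
  obtain ⟨r1, r2⟩ := rowR (s := s) (K := x / s) hs hs' (by positivity) (by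
    rw [div_le_iff₀ s0]; exact hx)
  have ex : x / s * s = x := by field_simp
  rw [ex] at r1 r2
  set B := (1 - 2 * s) * (Real.cosh (2 * Real.pi * (56 / 100 * x)) ^ 2 -
      Real.cos (2 * Real.pi * s) * Real.cos (2 * Real.pi * x)) with hB
  -- bounds
  have hS : 2 * Real.pi * x * (1 - 99 / 10 * x ^ 2) ≤ Real.sin (2 * Real.pi * x) := by
    have h1 := Real.sin_ge_sub_cube (x := 2 * Real.pi * x) (by positivity)
    have h2 : (2 * Real.pi * x) ^ 3 / 6 ≤ 2 * Real.pi * x * (99 / 10 * x ^ 2) := by
      have h3 : Real.pi ^ 2 ≤ 99 / 10 := by nlinarith only [hs', hx, hκ, hη, hρ, η0, hpi, Real.pi_lt_d4, Real.pi_gt_three]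
      have h4 : (2 * Real.pi * x) ^ 3 / 6 = 2 * Real.pi * x * ((2 / 3) * Real.pi ^ 2 * x ^ 2) := by ring
      rw [h4]
      apply mul_le_mul_of_nonneg_left _ (by positivity)
      have h5 : 0 ≤ x ^ 2 := by positivity
      nlinarith only [h3]
    linarith only [h1, h2]
  have hSs : 0 ≤ Real.sin (2 * Real.pi * s) := by
    apply Real.sin_nonneg_of_nonneg_of_le_pi
    · positivity
    · nlinarith only [hpi, hs']
  set N := Real.sin (2 * Real.pi * s) * Real.sin (2 * Real.pi * x) +
      Real.sinh (2 * Real.pi * t) * Real.sinh (2 * Real.pi * η) with hN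
  set D0 := Real.cosh (2 * Real.pi * t) * Real.cosh (2 * Real.pi * η) -
      Real.cos (2 * Real.pi * s) * Real.cos (2 * Real.pi * x) with hD0
  have hN1 : Real.sin (2 * Real.pi * s) * (2 * Real.pi * x * (1 - 99 / 10 * x ^ 2)) +
      (2 * Real.pi * t) * (2 * Real.pi * η) ≤ N := by
    have h1 := self_le_sinh (z := 2 * Real.pi * t) (by positivity)
    have h2 := self_le_sinh (z := 2 * Real.pi * η) (by positivity)
    have h3 : (2 * Real.pi * t) * (2 * Real.pi * η) ≤ Real.sinh (2 * Real.pi * t) *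
        Real.sinh (2 * Real.pi * η) := by
      apply mul_le_mul h1 h2 (by positivity) (h1.trans' (by positivity))
    have h4 := mul_le_mul_of_nonneg_left hS hSs
    linarith only [h3, h4]
  have hD1 : (1 - 2 * s) * D0 ≤ B := by
    rw [hB]
    apply mul_le_mul_of_nonneg_left _ (by linarith only [hs', hx, hκ, hη, η0])
    have h1 : Real.cosh (2 * Real.pi * t) ≤ Real.cosh (2 * Real.pi * (56 / 100 * x)) := by
      rw [Real.cosh_le_cosh, abs_of_pos (by positivity), abs_of_pos (by positivity)]
      nlinarith only [hpi, hκ]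
    have h2 : Real.cosh (2 * Real.pi * η) ≤ Real.cosh (2 * Real.pi * (56 / 100 * x)) := by
      rw [Real.cosh_le_cosh, abs_of_pos (by positivity), abs_of_pos (by positivity)]
      nlinarith only [hpi, hκ, hη]
    have h3 := Real.cosh_pos (2 * Real.pi * η)
    have h4 := Real.cosh_pos (2 * Real.pi * (56 / 100 * x))
    have h5 := mul_le_mul h1 h2 h3.le h4.le
    rw [hD0]
    nlinarith only [h5]
  have hsN : Real.pi * η * B < s * (Real.sin (2 * Real.pi * s) * (2 * Real.pi * x * (1 - 99 / 10 * x ^ 2)) +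
      (2 * Real.pi * t) * (2 * Real.pi * η)) := by
    -- at `η = t`
    set q := t / x with hq
    have hq0 : 0 ≤ q := by positivity
    have hq1 : q ≤ 56 / 100 := by rw [hq, div_le_iff₀ hx0]; exact hκ
    have hqx : t = q * x := by rw [hq]; field_simp
    have hBp : 0 < B := lt_of_le_of_lt (by positivity) r1
    have key : Real.pi * B * q < s * Real.sin (2 * Real.pi * s) * (2 * Real.pi * (1 - 99 / 10 * x ^ 2)) +
        4 * Real.pi ^ 2 * s * (q * q * x) := by
      have h1 : 0 ≤ (56 / 100 - q) * (B - 4 * Real.pi * (x * s) * (56 / 100 + q)) := by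
        apply mul_nonneg (by linarith only [hq1])
        have h2 : 4 * Real.pi * (x * s) * (56 / 100 + q) ≤ 4 * Real.pi * (x * s) * (112 / 100) := by
          apply mul_le_mul_of_nonneg_left _ (by positivity)
          linarith only [hq1]
        linarith only [r1, h2]
      have h3 : q * B < 2 * (s * Real.sin (2 * Real.pi * s)) * (1 - 99 / 10 * x ^ 2) +
          4 * Real.pi * (q * q * (x * s)) := by
        linarith only [r2, h1]
      have h4 := mul_lt_mul_of_pos_left h3 hpi
      calc Real.pi * B * q = Real.pi * (q * B) := by ring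
        _ < _ := h4
        _ = _ := by ring
    have key2 : Real.pi * B * t < s * Real.sin (2 * Real.pi * s) * (2 * Real.pi * x * (1 - 99 / 10 * x ^ 2)) +
        4 * Real.pi ^ 2 * s * (t * t) := by
      have h4 := mul_lt_mul_of_pos_right key hx0
      calc Real.pi * B * t = Real.pi * B * q * x := by rw [hqx]; ring
        _ < _ := h4
        _ = _ := by rw [hqx]; ring
    set P := s * Real.sin (2 * Real.pi * s) * (2 * Real.pi * x * (1 - 99 / 10 * x ^ 2)) with hP
    have hPp : 0 < P := by
      rw [hP]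
      have h1 : 0 < Real.sin (2 * Real.pi * s) := by
        apply Real.sin_pos_of_pos_of_lt_pi
        · positivity
        · nlinarith only [hpi, hs']
      have h2 : 0 < 1 - 99 / 10 * x ^ 2 := by nlinarith only [hs', hx, hκ, hη, hρ, η0, hs, hx0]
      positivity
    rcases le_total (4 * Real.pi ^ 2 * s * t - Real.pi * B) 0 with h1 | h1
    · have h2 : t * (4 * Real.pi ^ 2 * s * t - Real.pi * B) ≤ η * (4 * Real.pi ^ 2 * s * t - Real.pi * B) :=
        mul_le_mul_of_nonpos_right hη h1
      nlinarith only [key2, hP, h2]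
    · have h2 : 0 ≤ η * (4 * Real.pi ^ 2 * s * t - Real.pi * B) := mul_nonneg η0.le h1
      nlinarith only [hP, hPp, h2]
  have hNp : 0 < N := by
    have h1 : 0 ≤ Real.pi * η * B := by
      have : 0 < B := lt_of_le_of_lt (by positivity) r1
      positivity
    have h2 : 0 < s * N := by nlinarith only [hN1, hsN, h1, hs]
    exact (mul_pos_iff_of_pos_left s0).1 h2
  have hD0p : 0 < D0 := by linarith only [hC2p, hdiff, hsum, hNp]
  -- logarithms
  have hLL : LL ⟨x + s, t + η⟩ - LL ⟨x - s, t - η⟩ = Real.log (C1 / C2) / 2 := by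
    have hC1p : 0 < C1 := by linarith only [hC2p, hdiff, hNp]
    rw [LL_eq', LL_eq']
    simp only
    rw [show 2 * Real.cosh (2 * Real.pi * (t + η)) - 2 * Real.cos (2 * Real.pi * (x + s)) = 2 * C1 by
      rw [hC1]; ring, show 2 * Real.cosh (2 * Real.pi * (t - η)) - 2 * Real.cos (2 * Real.pi * (x - s)) =
      2 * C2 by rw [hC2]; ring, Real.log_mul two_ne_zero hC1p.ne', Real.log_mul two_ne_zero hC2p.ne',
      Real.log_div hC1p.ne' hC2p.ne']
    ring
  have hlog : N / D0 ≤ Real.log (C1 / C2) / 2 := by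
    have h1 := Real.le_log_one_add_of_nonneg (x := (C1 - C2) / C2) (by
      apply div_nonneg _ hC2p.le
      linarith only [hdiff, hNp])
    have e1 : 1 + (C1 - C2) / C2 = C1 / C2 := by field_simp; ring
    have e2 : 2 * ((C1 - C2) / C2) / ((C1 - C2) / C2 + 2) = 2 * (N / D0) := by
      have hs2 : C1 + C2 ≠ 0 := by linarith only [hC2p, hdiff, hNp]
      have e3 : (C1 - C2) / C2 + 2 = (C1 + C2) / C2 := by field_simp; ring
      rw [e3, show 2 * ((C1 - C2) / C2) / ((C1 + C2) / C2) = 2 * ((C1 - C2) / (C1 + C2)) by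
        field_simp, hdiff, hsum, mul_div_mul_left _ _ two_ne_zero]
    rw [e1, e2] at h1
    linarith only [h1]
  have hfin : η / s * (Real.pi * (1 - 2 * s)) < N / D0 := by
    rw [lt_div_iff₀ hD0p]
    have h1 : η / s * (Real.pi * (1 - 2 * s)) * D0 = Real.pi * η * ((1 - 2 * s) * D0) / s := by ring
    rw [h1, div_lt_iff₀ s0]
    have h2 : Real.pi * η * ((1 - 2 * s) * D0) ≤ Real.pi * η * B :=
      mul_le_mul_of_nonneg_left hD1 (by positivity)
    have h3 := mul_le_mul_of_nonneg_left hN1 s0.le
    linarith only [hsN, h2, h3]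
  have h4 : η / s = 4 * ρ := by rw [hηd]; field_simp
  rw [h4] at hfin
  have h5 := mul_le_mul_of_nonneg_left hYY (show 0 ≤ 4 * ρ by positivity)
  linarith only [hLL, hlog, hfin, h5]

end Pool.Agent.Work.MP_b30479_gt.G2
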