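import Pool.Agent.Work.MP_b30479_gt.G2.RngQ
import Pool.Agent.Work.MP_b30479_gt.G2.GE3
import Pool.Agent.Work.MP_b30479_gt.G2.RngO
import Pool.Agent.Work.MP_b30479_gt.G2.RngP
import Pool.Agent.Work.MP_b30479_gt.G2.RngP2

/-!
# Ring sides: all derivatives in the ring variable are `≥ 0` at a maximiser
-/

namespace Pool.Agent.Work.MP_b30479_gt.G2

open Finset VOL Filter Topology
open NumU (uu uu_neg uu_add_one uu_one_sub UU_uu)

variable {x t σ η c a b s ρ T θ y K κ : ℝ} {w w' : ℂ} {k k' : RKe}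

theorem zt_ramp (h0 : 0 ≤ s) (h1 : s ≤ 1 / 4) (ρ : ℝ) :
    LT.zt ρ (-(1 / 2) + s) = -(1 / 2) + s * (1 + ((4 * ρ : ℝ) : ℂ) * Complex.I) := by
  rw [zt_eq, th_ramp h0 h1]
  push_cast
  ring

/-- monotonicity along the ramp of the ring variable -/
theorem fR_ramp_mono (hρ : 0 < ρ) (hs : 0 < s) (hs' : s ≤ 1 / 4) (h0 : 0 ≤ w.re) (h1 : w.re ≤ 65 / 100)
    (hD : ∀ r, s < r → r < 1 / 4 → w.im ≠ 4 * ρ * r → 0 ≤ Dm (4 * ρ) w (LT.zt ρ (-(1 / 2) + r))) :
    fR w (LT.zt ρ (-(1 / 2) + s)) ≤ fR w (LT.zt ρ (-(1 / 4))) := by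
  have hq : LT.zt ρ (-(1 / 4)) = -(1 / 2) + ((1 / 4 : ℝ) : ℂ) * (1 + ((4 * ρ : ℝ) : ℂ) * Complex.I) := by
    rw [show (-(1 / 4) : ℝ) = -(1 / 2) + 1 / 4 by norm_num, zt_ramp (by norm_num) le_rfl]
  rw [hq, zt_ramp hs.le hs']
  refine mono_one (f := fun r : ℝ => fR w (-(1 / 2) + r * (1 + ((4 * ρ : ℝ) : ℂ) * Complex.I)))
    (f' := fun r : ℝ => Dm (4 * ρ) w (-(1 / 2) + r * (1 + ((4 * ρ : ℝ) : ℂ) * Complex.I)))
    (w.im / (4 * ρ)) hs' ?_ ?_
  · have := continuous_UU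
    unfold fR
    fun_prop
  · intro r hr hr' hne
    have hne' : w.im ≠ 4 * ρ * r := by
      intro hc
      apply hne
      rw [hc]
      field_simp
    have e1 : w + 1 / 2 + -(1 / 2) + (r : ℂ) * (((1 : ℝ) : ℂ) * (1 + ((4 * ρ : ℝ) : ℂ) * Complex.I)) =
        ⟨w.re + r, w.im + 4 * ρ * r⟩ := by
      apply Complex.ext <;> simp
      ring
    have e2 : w + 1 / 2 - -(1 / 2) + (r : ℂ) * (((-1 : ℝ) : ℂ) * (1 + ((4 * ρ : ℝ) : ℂ) * Complex.I)) =
        ⟨w.re + 1 - r, w.im - 4 * ρ * r⟩ := by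
      apply Complex.ext <;> simp
      · ring
      · ring
    constructor
    · refine hasDerivAt_fR (w := w) (ζ := -(1 / 2)) (m := 4 * ρ) (s := r) ?_ ?_
      · rw [e1]
        exact QQm_strip ⟨by simp only; linarith only [hs, h0, hr], by simp only; linarith only [hs, h1, hr, hr']⟩
      · rw [e2]
        exact ⟨sin_ne_of_im (by simp only; intro hc; apply hne'; linarith only [hc]),
          fun _ => Or.inl (by simp only; intro hc; apply hne'; linarith only [hc])⟩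
    · have := hD r hr hr' hne'
      rwa [zt_ramp (by linarith only [hs, hr]) hr'.le] at this

/-- the move of the ring variable from `-1/2 + s` to `-1/4`: the gain is `≥ 0`; it is large or the
derivative is `≥ 0` -/
structure Gd (ρ : ℝ) (w : ℂ) (s : ℝ) : Prop where
  gap : fR w (LT.zt ρ (-(1 / 2) + s)) ≤ fR w (LT.zt ρ (-(1 / 4)))
  alt : 0 ≤ Dm (4 * ρ) w (LT.zt ρ (-(1 / 2) + s)) ∨
    8 * Real.pi * ρ * s * (1 - 4 * s) < fR w (LT.zt ρ (-(1 / 4))) - fR w (LT.zt ρ (-(1 / 2) + s))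

theorem Gd.of_D (hρ : 0 < ρ) (hs : 0 < s) (hs' : s < 1 / 4) (h0 : 0 ≤ w.re) (h1 : w.re ≤ 65 / 100)
    (hne : w.re ≠ s ∨ w.im ≠ 4 * ρ * s)
    (hD : ∀ r, s ≤ r → r ≤ 1 / 4 → (w.re ≠ r ∨ w.im ≠ 4 * ρ * r) →
      0 ≤ Dm (4 * ρ) w (LT.zt ρ (-(1 / 2) + r))) : Gd ρ w s :=
  ⟨fR_ramp_mono hρ hs hs'.le h0 h1 fun r hr hr' hn => hD r hr.le hr'.le (Or.inr hn),
    Or.inl (hD s le_rfl hs'.le hne)⟩

theorem Gd.of_gap (hs : 0 < s) (hs' : s ≤ 1 / 4) (hρ : 0 < ρ)
    (h : 8 * Real.pi * ρ * s * (1 - 4 * s) <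
      fu w.re w.im (-(1 / 4)) ρ - fu w.re w.im (-(1 / 2) + s) (4 * ρ * s)) : Gd ρ w s := by
  have hpi := Real.pi_pos
  have e1 : fR w (LT.zt ρ (-(1 / 4))) = fu w.re w.im (-(1 / 4)) ρ := by
    rw [fR_zt, th_of_le (by rw [abs_neg, abs_of_pos] <;> norm_num), mul_one]
  have e2 : fR w (LT.zt ρ (-(1 / 2) + s)) = fu w.re w.im (-(1 / 2) + s) (4 * ρ * s) := by
    rw [fR_zt, th_ramp hs.le hs']
  have hK : 0 ≤ 8 * Real.pi * ρ * s * (1 - 4 * s) := by
    have : 0 ≤ 1 - 4 * s := by linarith only [hs']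
    positivity
  refine ⟨?_, Or.inr ?_⟩ <;> rw [e1, e2] <;> linarith only [h, hK]

theorem Gd.of_HOk (h : HOk ρ w) (hρ : 0 < ρ) (hs : 0 < s) (hs' : s < 1 / 4) : Gd ρ w s :=
  ⟨fR_ramp_mono hρ hs hs'.le h.re0 (by linarith only [hs, hs', h, h.re1]) fun r hr hr' _ =>
    h.nonneg hρ (by linarith only [hs, hr]) (by linarith only [hr']), Or.inl (h.nonneg hρ (by linarith only [hs]) (by linarith only [hs']))⟩

theorem zt_re (ρ c : ℝ) : (LT.zt ρ c).re = c := by simp [LT.zt]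

theorem zt_im (ρ c : ℝ) : (LT.zt ρ c).im = ρ * LT.th c := by simp [LT.zt]

/-- positive height -/
theorem Gd.of_pos (hρ : 0 < ρ) (hρ' : ρ ≤ 1045 / 10000) (hs : 0 < s) (hs' : s < 1 / 4) (h0 : 0 < w.re)
    (h1 : w.re ≤ 27 / 100) (ht0 : 0 ≤ w.im) (ht : w.im ≤ 56 / 1000) (ht' : w.im ≤ 56 / 100 * w.re)
    (hne : w.re ≠ s ∨ w.im ≠ 4 * ρ * s) : Gd ρ w s := by
  have hpi := Real.pi_pos
  have below : ∀ r, s ≤ r → r ≤ 1 / 4 → w.im < 4 * ρ * r →
      0 ≤ Dm (4 * ρ) w (LT.zt ρ (-(1 / 2) + r)) := fun r hr hr' h2 =>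
    Dm_below hρ hρ' (by linarith only [hs, hr]) hr' h0.le (by linarith only [hρ, hρ', h1]) ht0 h2 ht'
  have zi : ∀ r, 0 ≤ r → r ≤ 1 / 4 → (LT.zt ρ (-(1 / 2) + r)).im = 4 * ρ * r := fun r h2 h3 => by
    rw [zt_im, th_ramp h2 h3]
  rcases lt_or_ge w.im (4 * ρ * s) with h2 | h2
  · refine Gd.of_D hρ hs hs' h0.le (by linarith only [hρ, hρ', h1]) hne fun r hr hr' _ => below r hr hr' ?_
    have : 4 * ρ * s ≤ 4 * ρ * r := mul_le_mul_of_nonneg_left hr (by positivity)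
    linarith only [h2, this]
  · rcases le_or_gt w.re s with h3 | h3
    · rcases le_total s (1 / 100) with h4 | h4
      · exact Gd.of_gap hs hs'.le hρ (gap_tiny h0 ht' h4 h3 hρ h2)
      · refine Gd.of_D hρ hs hs' h0.le (by linarith only [hρ, hρ', h1]) hne fun r hr hr' hn => ?_
        rcases lt_or_ge w.im (4 * ρ * r) with h5 | h5
        · exact below r hr hr' h5
        · rcases le_total w.re (32 / 100 * r) with h6 | h6
          · exact (Dm_small_pos hρ (by linarith only [h4, hr]) hr' h0 h6 h5 ht').le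
          · exact (GE.gcw h6 (by linarith only [h3, hr]) ht ht' (by linarith only [h4, hr]) hr' hρ hρ' h5 hn rfl rfl (zt_re _ _)
              (zi r (by linarith only [hs, hr]) hr')).le
    · rcases le_total w.re (2 / 100) with h4 | h4
      · exact Gd.of_gap hs hs'.le hρ (gap_small h0 h4 ht' hs h3.le hρ h2)
      · rcases le_total s (1 / 8) with h5 | h5
        · exact Gd.of_gap hs hs'.le hρ (GE.gb1w h4 h1 ht ht' hs h5 h3.le hρ hρ' h2)
        · have e1 : fR w (LT.zt ρ (-(1 / 4))) = fu w.re w.im (-(1 / 4)) ρ := by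
            rw [fR_zt, th_of_le (by rw [abs_neg, abs_of_pos] <;> norm_num), mul_one]
          have e2 : fR w (LT.zt ρ (-(1 / 2) + s)) = fu w.re w.im (-(1 / 2) + s) (4 * ρ * s) := by
            rw [fR_zt, th_ramp hs.le hs'.le]
          have hL : 0 ≤ 8 * Real.pi * ρ * (8 * s - 1) := by
            have : 0 ≤ 8 * s - 1 := by linarith only [h5]
            positivity
          constructor
          · rcases le_total s (1 / 5) with h6 | h6
            · rw [e1, e2]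
              exact (GE.ge3a (by linarith only [hρ, hρ', h3, h5]) h1 ht hs h6 hρ hρ' h2).le
            · refine fR_ramp_mono hρ hs hs'.le h0.le (by linarith only [h1, h3, h6]) fun r hr hr' _ => ?_
              rcases lt_or_ge w.im (4 * ρ * r) with h7 | h7
              · exact below r hr.le hr'.le h7
              · exact (GE.ge3b (by linarith only [h3, h6, hr, hr']) h1 ht (by linarith only [h6, hr]) hr'.le hρ hρ' h7 rfl rfl (zt_re _ _)
                  (zi r (by linarith only [h6, hr, hr']) hr'.le)).le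
          · rcases le_total s (23 / 100) with h6 | h6
            · rcases GE.gb2 (by linarith only [hρ, hρ', h3, h5]) h1 ht h5 h6 h3.le hρ hρ' h2 hne rfl rfl (zt_re _ _)
                (zi s hs.le hs'.le) with h7 | h7
              · right
                rw [e1, e2]
                exact h7
              · left
                linarith only [hL, h7]
            · left
              have := GE.gb3 h1 ht h6 hs'.le h3.le hρ hρ' h2 hne rfl rfl (zt_re _ _) (zi s hs.le hs'.le)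
              linarith only [hL, this]

/-- the value comparison with `-1/4` -/
theorem RM.gap_le (h : RM b ρ w w' (-(1 / 2) + s)) (hs : 0 < s) (hs' : s ≤ 1 / 4) :
    (fR w (LT.zt ρ (-(1 / 4))) - fR w (LT.zt ρ (-(1 / 2) + s))) +
      (fR w' (LT.zt ρ (-(1 / 4))) - fR w' (LT.zt ρ (-(1 / 2) + s))) ≤
    8 * Real.pi * ρ * s * (1 - 4 * s) := by
  have hpi := Real.pi_pos
  have hρ := h.ρ0
  have hb := h.b4
  have h1 := h.mx (-(1 / 4)) (by rw [abs_neg, abs_of_pos] <;> norm_num)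
  unfold rg at h1
  rw [th_of_le (by rw [abs_neg, abs_of_pos] <;> norm_num), th_ramp hs.le hs'] at h1
  have h2 : 2 * Real.pi * (ρ * 1) * (b * (-(1 / 4)) + 1) - 2 * Real.pi * (4 * ρ * s) *
      (b * (-(1 / 2) + s) + 1) = 8 * Real.pi * ρ * s * (1 - 4 * s) -
      Real.pi / 2 * ρ * (b - 4) * (1 - 4 * s) ^ 2 := by ring
  have h3 : 0 ≤ Real.pi / 2 * ρ * (b - 4) * (1 - 4 * s) ^ 2 := by
    have : 0 ≤ b - 4 := by linarith only [hb]
    positivity
  linarith only [h1, h3]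

/-- **All derivatives in the ring variable are `≥ 0` at a maximiser on the ramp.** -/
theorem RM.Dm_nonneg (h : RM b ρ w w' (-(1 / 2) + s)) (hs : 0 < s) (hs' : s ≤ 1 / 4) (G : Gd ρ w s)
    (G' : Gd ρ w' s) : 0 ≤ Dm (4 * ρ) w (LT.zt ρ (-(1 / 2) + s)) ∧
      0 ≤ Dm (4 * ρ) w' (LT.zt ρ (-(1 / 2) + s)) := by
  have key := h.gap_le hs hs'
  constructor
  · rcases G.alt with h1 | h1
    · exact h1
    · exfalso
      linarith only [key, h1, G', G'.gap]
  · rcases G'.alt with h1 | h1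
    · exact h1
    · exfalso
      linarith only [key, h1, G, G.gap]

/-- tiny positive height -/
theorem Gd.of_ps (hρ : 4 / 100 ≤ ρ) (hρ' : ρ ≤ 1045 / 10000) (hs : 0 < s) (hs' : s < 1 / 4) (h0 : 0 < w.re)
    (h1 : w.re ≤ 1 / 2) (ht0 : 0 ≤ w.im) (ht : w.im ≤ 1 / 1000) (ht' : w.im ≤ 1 / 100 * w.re)
    (hne : w.re ≠ s ∨ w.im ≠ 4 * ρ * s) : Gd ρ w s := by
  have hρ0 : 0 < ρ := by linarith only [hρ, hs, hs']
  rcases le_or_gt w.re (27 / 100) with h2 | h2
  · exact Gd.of_pos hρ0 hρ' hs hs' h0 h2 ht0 (by linarith only [hρ', ht, hρ0]) (by linarith only [h0, ht']) hne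
  · rcases lt_or_ge w.im (4 * ρ * s) with h3 | h3
    · refine Gd.of_D hρ0 hs hs' h0.le (by linarith only [hρ', h1, hρ0]) hne fun r hr hr' _ =>
        Dm_below hρ0 hρ' (by linarith only [hs, hr]) hr' h0.le h1 ht0 ?_ (by linarith only [hρ', ht, hρ0, h2])
      have : 4 * ρ * s ≤ 4 * ρ * r := mul_le_mul_of_nonneg_left hr (by positivity)
      linarith only [h3, this]
    · exact Gd.of_gap hs hs'.le hρ0 (gap_ps h2.le h1 ht0 ht hρ hρ' hs hs' h3)

/-- the condition on a hinge -/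
theorem RKe.ok.gd (hk : k.ok b w) (hb : 4 ≤ b) (hc : RCap b ρ) (hρ : 0 < ρ) (hs : 0 < s) (hs' : s < 1 / 4)
    (hx : w.re ≤ 1 / 2) (hx' : k.cp ρ w) (hne : w + 1 / 2 - LT.zt ρ (-(1 / 2) + s) ≠ 1) :
    Gd ρ w s := by
  rcases le_or_gt w.im 0 with h1 | h1
  · exact Gd.of_HOk (HOk_of hρ hb hc hk (fun _ => h1) hx) hρ hs hs'
  · have hne' : w.re ≠ s ∨ w.im ≠ 4 * ρ * s := by
      by_contra hcon
      push Not at hcon
      apply hne
      rw [zt_eq, th_ramp hs.le hs'.le]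
      apply Complex.ext
      · simp
        rw [hcon.1]
        ring
      · simp
        rw [hcon.2]
        ring
    by_cases hr : k = .ps
    · subst hr
      obtain ⟨-, -, t1, t2, x1⟩ := hk
      exact Gd.of_ps hx' hc.1 hs hs' (by linarith only [h1, t2]) x1 h1.le t1 t2 hne'
    · obtain ⟨x0, x1, t1, t2⟩ := hk.of_pos h1 (K := 27 / 100) (fun hk => by subst hk; exact hx')
        (fun hk => absurd hk hr)
      exact Gd.of_pos hρ hc.1 hs hs' x0 x1 h1.le t1 t2 hne'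

/-- **Master theorem**: both derivatives are `≥ 0` if both hinges are `≤ 1/2` -/
theorem RM.master (h : RM b ρ w w' (-(1 / 2) + s)) (hc : RCap b ρ) (hk : k.ok b w) (hk' : k'.ok b w')
    (hs : 0 < s) (hs' : s < 1 / 4) (hx : w.re ≤ 1 / 2) (hx' : w'.re ≤ 1 / 2)
    (hr : k.cp ρ w) (hr' : k'.cp ρ w') :
    0 ≤ Dm (4 * ρ) w (LT.zt ρ (-(1 / 2) + s)) ∧ 0 ≤ Dm (4 * ρ) w' (LT.zt ρ (-(1 / 2) + s)) := by
  have hb := h.b4
  have hρ := h.ρ0
  have n1 := h.ns (by linarith only [hs]) (by linarith only [hs, hs']) hk.re_nonneg (by linarith only [hs, hs', hx]) hk'.re_nonneg (by linarith only [hs, hs', hx'])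
  have n2 := h.symm.ns (by linarith only [hs]) (by linarith only [hs, hs']) hk'.re_nonneg (by linarith only [hs, hs', hx']) hk.re_nonneg
    (by linarith only [hs, hs', hx])
  exact h.Dm_nonneg hs hs'.le (hk.gd hb hc hρ hs hs' hx hr n1) (hk'.gd hb hc hρ hs hs' hx' hr' n2)

/-- **Lower location of the ring variable.** -/
theorem RM.ge (h : RM b ρ w w' σ) (hc : RCap b ρ) (hk : k.ok b w) (hk' : k'.ok b w')
    (h0 : -(1 / 2) < σ) (hx : w.re ≤ 1 / 2) (hx' : w'.re ≤ 1 / 2)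
    (hr : k.cp ρ w) (hr' : k'.cp ρ w') :
    -(1 / 4) - 1 / (2 * b) ≤ σ := by
  by_contra hcon
  push Not at hcon
  have hb := h.b4
  have hρ := h.ρ0
  have hpi := Real.pi_pos
  have hb0 : 0 < 1 / (2 * b) := by positivity
  have hσ : σ < -(1 / 4) := by linarith only [hcon, hb0]
  have key := h.right_ramp h0 hσ hk.re_nonneg (by linarith only [h0, hx, hcon, hb0]) hk'.re_nonneg (by linarith only [h0, hx', hcon, hb0])
  obtain ⟨s, rfl⟩ : ∃ s : ℝ, σ = -(1 / 2) + s := ⟨σ + 1 / 2, by ring⟩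
  obtain ⟨a1, a2⟩ := h.master hc hk hk' (by linarith only [h0]) (by linarith only [hb0, hcon]) hx hx' hr hr'
  have a3 : 2 + b + 4 * b * (-(1 / 2) + s) < 0 := by
    have : 4 * b * (-(1 / 2) + s) < 4 * b * (-(1 / 4) - 1 / (2 * b)) :=
      mul_lt_mul_of_pos_left hcon (by positivity)
    have e : 4 * b * (-(1 / 4) - 1 / (2 * b)) = -b - 2 := by
      field_simp
      ring
    linarith only [this, e]
  have a4 : 0 < -(4 * Real.pi * ρ * (2 + b + 4 * b * (-(1 / 2) + s))) := by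
    have : 4 * Real.pi * ρ * (2 + b + 4 * b * (-(1 / 2) + s)) < 0 :=
      mul_neg_of_pos_of_neg (by positivity) a3
    linarith only [key, a1, a2, this]
  linarith only [key, a1, a2, a4]

/-- the derivative of one hinge is bounded, both hinges `≤ 1/2` -/
theorem RM.Dm_le (h : RM b ρ w w' (-(1 / 2) + s)) (hc : RCap b ρ) (hk : k.ok b w) (hk' : k'.ok b w')
    (hs : 0 < s) (hs' : s < 1 / 4) (hx : w.re ≤ 1 / 2) (hx' : w'.re ≤ 1 / 2)
    (hr : k.cp ρ w) (hr' : k'.cp ρ w') :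
    Dm (4 * ρ) w (LT.zt ρ (-(1 / 2) + s)) ≤ 4 * Real.pi * ρ * (2 - b * (1 - 4 * s)) := by
  have key := h.right_ramp (by linarith only [hs]) (by linarith only [hs']) hk.re_nonneg (by linarith only [hs, hs', hx]) hk'.re_nonneg
    (by linarith only [hs, hs', hx'])
  obtain ⟨-, a2⟩ := h.master hc hk hk' hs hs' hx hx' hr hr'
  have e : 4 * Real.pi * ρ * (2 + b + 4 * b * (-(1 / 2) + s)) =
      4 * Real.pi * ρ * (2 - b * (1 - 4 * s)) := by ring
  linarith only [key, a2]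

/-- **a positive ring|ring hinge to the right of the ring variable is below it** -/
theorem RM.height_le (h : RM b ρ w w' (-(1 / 2) + s)) (hc : RCap b ρ) (hk : k.ok b w) (hk' : k'.ok b w')
    (hs : 0 < s) (hs' : s < 1 / 4) (hx0 : 1 / 10 ≤ w.re) (hx2 : w.re ≤ 1 / 2) (hx' : w'.re ≤ 1 / 2)
    (hr : k.cp ρ w) (hr' : k'.cp ρ w') (hsx : s ≤ w.re) : w.im ≤ 4 * ρ * s := by
  have hpi := Real.pi_pos
  have hb := h.b4
  have hρ := h.ρ0
  by_contra hcon
  push Not at hcon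
  have ht0 : 0 < w.im := lt_trans (by positivity) hcon
  by_cases hps : k = .ps
  · subst hps
    obtain ⟨e4, -, t1, -, -⟩ := hk
    have hρ4 : 4 / 100 ≤ ρ := hr
    have hge := h.ge hc ⟨e4, ht0, t1, by linarith only [hx0, t1], hx2⟩ hk' (by linarith only [hs]) hx2 hx' (k := .ps) hρ4 hr'
    rw [e4] at hge
    have : 1 / 8 ≤ s := by linarith only [hge]
    have : 4 * (4 / 100) * (1 / 8) ≤ 4 * ρ * s := mul_le_mul (by linarith only [hρ4]) this (by norm_num) (by positivity)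
    linarith only [hcon, ht0, t1, this]
  obtain ⟨-, hx, t1, -⟩ := hk.of_pos ht0 (K := 27 / 100) (fun hk => by subst hk; exact hr)
    (fun hk => absurd hk hps)
  have n2 := h.symm.ns (by linarith only [hs]) (by linarith only [hs', ht0, t1]) hk'.re_nonneg (by linarith only [hs', hx', ht0, t1]) hk.re_nonneg
    (by linarith only [hs', hx2, ht0, t1])
  have G' := hk'.gd hb hc hρ hs hs' hx' hr' n2
  obtain ⟨-, a2⟩ := h.master hc hk hk' hs hs' (by linarith only [hx2]) hx' hr hr'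
  have hle := h.Dm_le hc hk hk' hs hs' (by linarith only [hx2]) hx' hr hr'
  have hgap := h.gap_le hs hs'.le
  have zi : (LT.zt ρ (-(1 / 2) + s)).im = 4 * ρ * s := by rw [zt_im, th_ramp hs.le hs'.le]
  have e1 : fR w (LT.zt ρ (-(1 / 4))) = fu w.re w.im (-(1 / 4)) ρ := by
    rw [fR_zt, th_of_le (by rw [abs_neg, abs_of_pos] <;> norm_num), mul_one]
  have e2 : fR w (LT.zt ρ (-(1 / 2) + s)) = fu w.re w.im (-(1 / 2) + s) (4 * ρ * s) := by
    rw [fR_zt, th_ramp hs.le hs'.le]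
  have hL : 4 * Real.pi * ρ * (2 - b * (1 - 4 * s)) ≤ 8 * Real.pi * ρ * (8 * s - 1) := by
    have h1 : 2 - b * (1 - 4 * s) ≤ 2 * (8 * s - 1) := by nlinarith only [hs', hb]
    calc _ ≤ 4 * Real.pi * ρ * (2 * (8 * s - 1)) := mul_le_mul_of_nonneg_left h1 (by positivity)
      _ = _ := by ring
  rcases le_total s (1 / 8) with h1 | h1
  · have := GE.gb1 hx0 hx t1 hs h1 hsx hρ hc.1 hcon.le
    rw [← e1, ← e2] at this
    linarith only [hgap, this, G', G'.gap]
  · rcases le_total s (23 / 100) with h2 | h2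
    · rcases GE.gb2 hx0 hx t1 h1 h2 hsx hρ hc.1 hcon.le (Or.inr hcon.ne') rfl rfl (zt_re _ _) zi with
        h3 | h3
      · rw [← e1, ← e2] at h3
        linarith only [hgap, h3, G', G'.gap]
      · linarith only [hle, hL, h3]
    · have := GE.gb3 hx t1 h2 hs'.le hsx hρ hc.1 hcon.le (Or.inr hcon.ne') rfl rfl (zt_re _ _) zi
      linarith only [hle, hL, this]

end Pool.Agent.Work.MP_b30479_gt.G2
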