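import Pool.Agent.Work.MP_b30479_gt.G2.LR0
import Pool.Agent.Work.MP_b30479_gt.G2.RngT

/-!
# Ring sides: left ramps at a maximiser
-/

namespace Pool.Agent.Work.MP_b30479_gt.G2

open Finset VOL Filter Topology

variable {x t σ η c a b s ρ T θ y K κ m l : ℝ} {w w' ζ : ℂ} {k k' : RKe}

/-- the derivative of a hinge `≥ 1/2` -/
theorem RKe.ok.Dm_ge_right (hk : k.ok b w) (hkr : k.up = false) (hc : RCap b ρ) (hρ : 0 < ρ)
    (hs : 0 < s) (hs' : s ≤ 1 / 4) (hx : 1 / 2 ≤ w.re) :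
    -(45 / 10 * s) ≤ Dm (4 * ρ) w (LT.zt ρ (-(1 / 2) + s)) := by
  have c4 := hc.1
  have c5 := hc.2.1
  have ok_ge : ∀ {T XM cl cr : ℝ}, RH w T XM cl cr → T ≤ 0 → 0 < cr → XM ≤ 65 / 100 → 1 / 2 ≤ w.re →
      (b < 5 → -T / cr ≤ 128 / 290) → -T / cr ≤ 158 / 290 →
      -(45 / 10 * s) ≤ Dm (4 * ρ) w (LT.zt ρ (-(1 / 2) + s)) := by
    intro T XM cl cr hw hT hcr hX h2 hA hB
    have hni := hw.neg_im_le hT hcr
    have him := hw.im_nonpos hT
    have e : ∀ A : ℝ, -T / cr ≤ A → -w.im ≤ A * (65 / 100 - w.re) := by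
      intro A hA
      have h3 : -T * ((XM - w.re) / cr) = -T / cr * (XM - w.re) := by ring
      have h4 : 0 ≤ -T / cr := div_nonneg (by linarith only [hT]) hcr.le
      rw [h3] at hni
      have hXw := hw.reM
      calc -w.im ≤ -T / cr * (XM - w.re) := hni
        _ ≤ A * (65 / 100 - w.re) := mul_le_mul hA (by linarith only [hX]) (by linarith only [hXw]) (h4.trans hA)
    rcases lt_or_ge b 5 with hb5 | hb5
    · exact Dm_right_ge hρ c4 hs hs' h2 (hw.reM.trans hX) him (e _ (hA hb5))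
        (RX4 h2 (hw.reM.trans hX))
    · exact Dm_right_ge hρ (c5 hb5) hs hs' h2 (hw.reM.trans hX) him (e _ hB)
        (RX5 h2 (hw.reM.trans hX))
  cases k with
  | no =>
    exfalso
    have h0 : w = 0 := hk
    rw [h0] at hx
    norm_num at hx
  | one =>
    obtain ⟨T, cr, t1, t2, t3, -, ⟨r1, r2⟩, hw⟩ := hk
    refine ok_ge hw (by linarith only [hρ, c4, t2]) (by linarith only [hρ, c4, r1]) le_rfl hx (fun h5 => ?_) ?_
    · rw [div_le_iff₀ (by linarith only [hρ, c4, r1])]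
      linarith only [r1, t3, h5, t3 h5]
    · rw [div_le_iff₀ (by linarith only [hρ, c4, r1])]
      linarith only [t1, r1]
  | lo =>
    obtain ⟨T, cl, cr, t1, t2, t3, ⟨l1, l2⟩, ⟨r1, r2⟩, hw⟩ := hk
    refine ok_ge hw t2 (by linarith only [hρ, c4, r1]) (by norm_num) hx (fun h5 => ?_) ?_
    · rw [div_le_iff₀ (by linarith only [hρ, c4, r1])]
      linarith only [hρ, c4, t1, r1, t3 h5]
    · rw [div_le_iff₀ (by linarith only [hρ, c4, r1])]
      linarith only [hρ, c4, t1, r1]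
  | rr => exact absurd hkr (by simp [RKe.up])
  | ps => exact absurd hkr (by simp [RKe.up])

/-- **The place of the ring variable**, seen from the hinge `w` (`≤ 27/100`) -/
inductive RPl (b ρ : ℝ) (w w' : ℂ) (σ : ℝ) : Prop
  | flat (h : LR.ZF (LT.zt ρ σ))
  | pos (s : ℝ) (e : σ = -(1 / 2) + s) (h : LR.ZR s ρ (LT.zt ρ σ)) (hs : 1 / 4 - 1 / (2 * b) ≤ s)
      (hF : Dm (4 * ρ) w (LT.zt ρ σ) ≤ 4 * Real.pi * ρ * (2 - b * (1 - 4 * s)))
  | far (s : ℝ) (e : σ = -(1 / 2) + s) (h : LR.ZR s ρ (LT.zt ρ σ)) (hF : LR.FX b s ρ w (LT.zt ρ σ))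
      (hx : 1 / 2 < w'.re)
  | tiny (s : ℝ) (e : σ = -(1 / 2) + s) (h0 : 0 < s) (h1 : s ≤ 1 / 16)
      (hF : Dm (4 * ρ) w (LT.zt ρ σ) ≤ 45 / 10 * s - 4 * Real.pi * ρ) (hx : 1 / 2 < w'.re)

theorem RM.place (h : RM b ρ w w' σ) (hc : RCap b ρ) (hk : k.ok b w) (hk' : k'.ok b w')
    (hσ : |σ| < 1 / 2) (h0 : σ ≤ 0) (hx : w.re ≤ 1 / 2) (hr : k.cp ρ w) (hr' : k'.cp ρ w') :
    RPl b ρ w w' σ := by
  have hpi := Real.pi_pos
  have hb := h.b4
  have hρ := h.ρ0
  have hσ' := abs_lt.1 hσ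
  rcases le_or_gt (-(1 / 4)) σ with h1 | h1
  · refine .flat ⟨by rw [zt_re]; exact h1, by rw [zt_re]; exact h0, ?_, ?_⟩
    · rw [zt_im, th_of_le (by rw [abs_of_nonpos h0]; linarith only [h1]), mul_one]
      exact hρ
    · rw [zt_im, th_of_le (by rw [abs_of_nonpos h0]; linarith only [h1]), mul_one]
      exact hc.1
  · obtain ⟨s, rfl⟩ : ∃ s : ℝ, σ = -(1 / 2) + s := ⟨σ + 1 / 2, by ring⟩
    have hs : 0 < s := by linarith only [hσ']
    have hs' : s < 1 / 4 := by linarith only [h1]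
    have zr : 1 / 16 ≤ s → LR.ZR s ρ (LT.zt ρ (-(1 / 2) + s)) := fun h2 =>
      ⟨zt_re _ _, by rw [zt_im, th_ramp hs.le hs'.le], hρ, h2, hs'.le⟩
    rcases le_or_gt w'.re (1 / 2) with h2 | h2
    · have h3 := h.ge hc hk hk' (by linarith only [hs]) hx h2 hr hr'
      have h4 : 1 / (2 * b) ≤ 1 / 8 := by
        rw [div_le_div_iff₀ (by positivity) (by norm_num)]
        linarith only [hb]
      exact .pos s rfl (zr (by linarith only [hs, h3, h4])) (by linarith only [h3]) (h.Dm_le hc hk hk' hs hs' hx h2 hr hr')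
    · have hkr : k'.up = false := by
        cases k' with
        | no => rfl
        | one => rfl
        | lo => rfl
        | rr => exact absurd hr' (by
            change ¬(w'.re ≤ 27 / 100)
            linarith only [h1, hs, h2])
        | ps => exact absurd hk'.2.2.2.2 (by linarith only [h2])
      have hD := hk'.Dm_ge_right hkr hc hρ hs hs'.le h2.le
      have key := h.right_ramp (by linarith only [hs]) (by linarith only [h1]) hk.re_nonneg (by linarith only [hx, h1, hs]) hk'.re_nonneg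
        (by linarith only [h1, hs, hk', hk'.re_le])
      have e : 4 * Real.pi * ρ * (2 + b + 4 * b * (-(1 / 2) + s)) =
          4 * Real.pi * ρ * (2 - b * (1 - 4 * s)) := by ring
      rw [e] at key
      rcases le_total (1 / 16) s with h3 | h3
      · refine .far s rfl (zr h3) ?_ h2
        unfold LR.FX
        linarith only [hD, key]
      · refine .tiny s rfl hs h3 ?_ h2
        have h4 : 4 * Real.pi * ρ * (2 - b * (1 - 4 * s)) ≤ 4 * Real.pi * ρ * (-1) := by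
          apply mul_le_mul_of_nonneg_left _ (by positivity)
          nlinarith only [h3, hb, h1]
        linarith only [hD, key, h4]

theorem gE_nonneg (h0 : 0 ≤ s) (h1 : s ≤ 1 / 4) : 0 ≤ LR.gE s := by
  unfold LR.gE
  split_ifs
  · norm_num
  · nlinarith only [h1, h0]

theorem FP_of (hρ : 0 < ρ) (h0 : 0 ≤ s) (h1 : s ≤ 1 / 4)
    (hF : Dm (4 * ρ) w ζ ≤ 4 * Real.pi * ρ * (2 - b * (1 - 4 * s))) : LR.FP b s ρ w ζ := by
  have hpi := Real.pi_pos
  unfold LR.FP
  have : 0 ≤ 4 * Real.pi * ρ * LR.gE s := mul_nonneg (by positivity) (gE_nonneg h0 h1)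
  linarith only [hF, this]

/-- the two logarithms near the end, height `≤ 0` -/
theorem tiny_neg (hρ : 0 < ρ) (hs : 0 < s) (hs' : s ≤ 1 / 16) (H : HOk ρ w)
    (hF : Dm (4 * ρ) w (LT.zt ρ (-(1 / 2) + s)) ≤ 45 / 10 * s - 4 * Real.pi * ρ) :
    LL ⟨w.re + s, w.im + 4 * ρ * s⟩ - LL ⟨w.re - s, w.im - 4 * ρ * s⟩ ≤ 45 / 10 * s ∧
      ρ ≤ 36 / 100 * s := by
  have hpi := Real.pi_pos
  have hpi4 := Real.pi_gt_d4
  have hD := H.nonneg hρ (σ := -(1 / 2) + s) (by linarith only [hs]) (by linarith only [hs, hs'])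
  constructor
  · have hY := YY_ring_nonneg (x := w.re) (t := w.im) (σ := -(1 / 2) + s) (η := 4 * ρ * s) H.re0 H.re1
      H.im (by linarith only [hs, hs']) (by linarith only [hs]) (by positivity) (re_im_eq w) (ζ := LT.zt ρ (-(1 / 2) + s)) (by
        rw [zt_eq, th_ramp hs.le (by linarith only [hs, hs'])])
    unfold Dm Dq at hF
    have e1 : w + 1 / 2 + LT.zt ρ (-(1 / 2) + s) = ⟨w.re + s, w.im + 4 * ρ * s⟩ := by
      rw [zt_eq, th_ramp hs.le (by linarith only [hs, hs'])]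
      apply Complex.ext <;> simp
    have e2 : w + 1 / 2 - LT.zt ρ (-(1 / 2) + s) = ⟨w.re + 1 - s, w.im - 4 * ρ * s⟩ := by
      rw [zt_eq, th_ramp hs.le (by linarith only [hs, hs'])]
      apply Complex.ext <;> simp
      ring
    rw [e1, e2] at hF hY
    rw [LL_shift] at hF
    have := mul_nonneg (show 0 ≤ 4 * ρ by positivity) hY
    have : 0 ≤ 4 * Real.pi * ρ := by positivity
    linarith
  · have : 4 * Real.pi * ρ ≤ 45 / 10 * s := by linarith only [hF, hD]
    nlinarith only [hF, hD, hρ, hs, hs', hpi4]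

/-- `Dq m - (1 - m ^ 2) LL` increases along the direction `1 + i m` in the first quadrant -/
theorem Dq_LL_mono {m x0 y0 l : ℝ} (hm : 0 ≤ m) (hl : 0 ≤ l) (hx : 0 ≤ x0) (hx' : x0 + l ≤ 1 / 2)
    (hy : 0 < y0) : Dq m ⟨x0, y0⟩ - (1 - m ^ 2) * LL ⟨x0, y0⟩ ≤
      Dq m ⟨x0 + l, y0 + m * l⟩ - (1 - m ^ 2) * LL ⟨x0 + l, y0 + m * l⟩ := by
  have hpi := Real.pi_pos
  have hd : ∀ θ ∈ Set.Icc (0 : ℝ) l, HasDerivAt (fun θ => Dq m ⟨x0 + θ, y0 + m * θ⟩ -
      (1 - m ^ 2) * LL ⟨x0 + θ, y0 + m * θ⟩) (m * (1 + m ^ 2) * SS ⟨x0 + θ, y0 + m * θ⟩) θ := by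
    intro θ hθ
    have hg : HasDerivAt (fun θ : ℝ => (⟨x0 + θ, y0 + m * θ⟩ : ℂ)) (1 + m * Complex.I) θ := by
      have h2 : HasDerivAt (fun θ : ℝ => ((x0 : ℂ) + y0 * Complex.I) + (θ : ℂ) * (1 + m * Complex.I))
          (1 + m * Complex.I) θ := by
        simpa using ((Complex.ofRealCLM.hasDerivAt (x := θ)).mul_const (1 + m * Complex.I)).const_add
          ((x0 : ℂ) + y0 * Complex.I)
      refine h2.congr_of_eventuallyEq (Filter.Eventually.of_forall fun s => ?_)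
      apply Complex.ext
      · simp
      · simp
        ring
    have hi : 0 < (⟨x0 + θ, y0 + m * θ⟩ : ℂ).im := by
      simp only
      have := mul_nonneg hm hθ.1
      linarith only [hy, this]
    have k1 := hasDerivAt_LL hg (sin_ne_of_im hi.ne')
    have k2 := hasDerivAt_YY_im hg hi.ne'
    unfold Dq
    refine ((k1.add (k2.const_mul m)).sub (k1.const_mul (1 - m ^ 2))).congr_deriv ?_
    simp
    ring
  have hm' : MonotoneOn (fun θ => Dq m ⟨x0 + θ, y0 + m * θ⟩ -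
      (1 - m ^ 2) * LL ⟨x0 + θ, y0 + m * θ⟩) (Set.Icc 0 l) := by
    apply monotoneOn_of_deriv_nonneg (convex_Icc _ _)
    · exact fun θ hθ => (hd θ hθ).continuousAt.continuousWithinAt
    · intro θ hθ
      rw [interior_Icc] at hθ
      exact (hd θ ⟨hθ.1.le, hθ.2.le⟩).differentiableAt.differentiableWithinAt
    · intro θ hθ
      rw [interior_Icc] at hθ
      rw [(hd θ ⟨hθ.1.le, hθ.2.le⟩).deriv]
      have hi : 0 < y0 + m * θ := by
        have := mul_nonneg hm hθ.1.le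
        linarith only [hy, this]
      have hp := cosh_sub_cos_pos (sin_ne_of_im (u := ⟨x0 + θ, y0 + m * θ⟩) (by simpa using hi.ne'))
      have c2 : 0 ≤ SS ⟨x0 + θ, y0 + m * θ⟩ := by
        unfold SS
        apply mul_nonneg hpi.le
        apply div_nonneg _ hp.le
        simp only
        rw [Real.sinh_nonneg_iff]
        positivity
      positivity
  have := hm' (Set.left_mem_Icc.2 hl) (Set.right_mem_Icc.2 hl) hl
  simpa using this

/-- the two logarithms near the end, height `≥ 0` -/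
theorem tiny_pos (hρ : 0 < ρ) (hρ' : ρ ≤ 1045 / 10000) (hs : 0 < s) (hs' : s ≤ 1 / 16) (h0 : 0 ≤ w.re)
    (h1 : w.re ≤ 1 / 4) (ht : 0 ≤ w.im)
    (hF : Dm (4 * ρ) w (LT.zt ρ (-(1 / 2) + s)) ≤ 45 / 10 * s - 4 * Real.pi * ρ) :
    LL ⟨w.re + s, w.im + 4 * ρ * s⟩ - LL ⟨w.re - s, w.im - 4 * ρ * s⟩ ≤ 55 / 10 * s := by
  have hpi := Real.pi_pos
  have η0 : 0 < 4 * ρ * s := by positivity
  rw [Dm_coord hs.le (by linarith only [hs, hs'])] at hF
  have huY : -(Real.pi / 2) ≤ YY ⟨w.re + s, w.im + 4 * ρ * s⟩ :=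
    YY_ge_neg_half (by simp only; linarith only [hs, h0]) (by simp only; linarith only [hs, hs', h1])
  -- if `YY v ≤ π / 2`
  have key : YY ⟨w.re + 1 - s, w.im - 4 * ρ * s⟩ ≤ Real.pi / 2 →
      LL ⟨w.re + s, w.im + 4 * ρ * s⟩ - LL ⟨w.re - s, w.im - 4 * ρ * s⟩ ≤ 55 / 10 * s := by
    intro hY
    unfold Dq at hF
    rw [LL_shift] at hF
    have : 4 * ρ * (-Real.pi) ≤ 4 * ρ * (YY ⟨w.re + s, w.im + 4 * ρ * s⟩ -
        YY ⟨w.re + 1 - s, w.im - 4 * ρ * s⟩) := by
      apply mul_le_mul_of_nonneg_left _ (by positivity)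
      linarith only [huY, hY]
    linarith only [hs, hF, this]
  rcases lt_trichotomy (w.im - 4 * ρ * s) 0 with h | h | h
  · apply key
    rw [YY_mk_neg h]
    have := Tr_nonneg (s := -(w.im - 4 * ρ * s)) (x := w.re + 1 - s) (by linarith only [h]) (by linarith only [hs, hs', h0])
    linarith only [this]
  · apply key
    rw [h, YY_mk_zero]
    positivity
  · rcases le_or_gt w.re s with h2 | h2
    · apply key
      rw [YY_mk_pos h]
      have := Tr_mono (s := w.im - 4 * ρ * s) h (show w.re + 1 - s ≤ 1 by linarith only [h2])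
      rw [Tr_one h] at this
      linarith only [this]
    · have k1 := Dq_LL_mono (m := 4 * ρ) (x0 := w.re - s) (y0 := w.im - 4 * ρ * s) (l := 2 * s)
        (by positivity) (by positivity) (by linarith only [h2]) (by linarith only [hs, hs', h1]) h
      rw [show w.re - s + 2 * s = w.re + s by ring, show w.im - 4 * ρ * s + 4 * ρ * (2 * s) =
        w.im + 4 * ρ * s by ring] at k1
      have k2 : Dq (4 * ρ) ⟨w.re + 1 - s, w.im - 4 * ρ * s⟩ =
          Dq (4 * ρ) ⟨w.re - s, w.im - 4 * ρ * s⟩ + 4 * Real.pi * ρ := by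
        unfold Dq
        rw [LL_shift, YY_mk_pos h, YY_mk_pos h, show w.re + 1 - s = (w.re - s) + 1 by ring, Tr_add_one]
        ring
      rw [k2] at hF
      have k3 : (1 - (4 * ρ) ^ 2) * (LL ⟨w.re + s, w.im + 4 * ρ * s⟩ -
          LL ⟨w.re - s, w.im - 4 * ρ * s⟩) ≤ 45 / 10 * s := by
        linarith only [hF, k1]
      by_contra hcon
      push Not at hcon
      have k4 : 82 / 100 ≤ 1 - (4 * ρ) ^ 2 := by nlinarith only [hρ', hρ]
      have k5 : 0 < LL ⟨w.re + s, w.im + 4 * ρ * s⟩ - LL ⟨w.re - s, w.im - 4 * ρ * s⟩ := by linarith only [hs, hcon]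
      nlinarith only [hs, hF, k1, hρ', η0, hcon, hs', k4]

end Pool.Agent.Work.MP_b30479_gt.G2
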