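import Pool.Agent.Work.MP_b30479_gt.G2.CF3C
import Pool.Agent.Work.MP_b30479_gt.G2.CF3B
import Pool.Agent.Work.MP_b30479_gt.G2.LRF
import Pool.Agent.Work.MP_b30479_gt.G2.RngW

/-!
# Floors of `1 | ring` and `2 | ring` at a large hinge `1 | 2`: the side of the ring

`sideA`, `sideB`: lower bounds of the side of the ring at slope `0`.
-/

namespace Pool.Agent.Work.MP_b30479_gt.G2

open VOL NumI

namespace CF3

open LR

variable {b ρ σ x T s : ℝ} {w w' ζ : ℂ} {k k' : RKe}

/-- the place of the ring variable with the first order conditions -/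
inductive Pl (b ρ : ℝ) (w : ℂ) (σ : ℝ) : Prop
  | lo (h : ZF (LT.zt ρ σ)) (h1 : -(205 / 1000) ≤ σ)
  | hi (h : ZF (LT.zt ρ σ)) (h1 : σ ≤ -(205 / 1000))
      (hF : Dm 0 w (LT.zt ρ σ) ≤ 953 / 100 * Real.sqrt (LT.zt ρ σ).im)
  | ramp (s : ℝ) (e : σ = -(1 / 2) + s) (h : ZR s ρ (LT.zt ρ σ)) (hs : 1 / 4 - 1 / (2 * b) ≤ s)
      (hF : Dm (4 * ρ) w (LT.zt ρ σ) ≤ 4 * Real.pi * ρ * (2 - b * (1 - 4 * s)))

theorem sqrt_bd {D : ℝ} (hη : 0 < ρ) (hb : b ^ 2 * ρ ≤ 23 / 10)
    (hF : -(2 * Real.pi * b * ρ) + D ≤ 0) : D ≤ 953 / 100 * Real.sqrt ρ := by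
  have hp := Real.pi_lt_d4
  have hp0 := Real.pi_pos
  have hr : Real.sqrt ρ ^ 2 = ρ := Real.sq_sqrt hη.le
  have hr0 := Real.sqrt_nonneg ρ
  set r := Real.sqrt ρ with hrd
  rw [← hr] at hF hb
  have h1 : (2 * Real.pi * (b * r)) ^ 2 ≤ (953 / 100) ^ 2 := by
    have e : (2 * Real.pi * (b * r)) ^ 2 = 4 * Real.pi ^ 2 * (b ^ 2 * r ^ 2) := by ring
    have e2 : Real.pi ^ 2 ≤ 3.1416 ^ 2 := pow_le_pow_left₀ hp0.le hp.le 2
    have e3 : 0 ≤ b ^ 2 * r ^ 2 := by positivity
    rw [e]
    have : 4 * Real.pi ^ 2 * (b ^ 2 * r ^ 2) ≤ 4 * 3.1416 ^ 2 * (23 / 10) :=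
      mul_le_mul (by linarith only [e2]) hb e3 (by norm_num)
    refine this.trans (by norm_num)
  have h2 : 2 * Real.pi * (b * r) ≤ 953 / 100 := (abs_le.mp (abs_le_of_sq_le_sq h1 (by norm_num))).2
  have h3 : 2 * Real.pi * b * r ^ 2 = 2 * Real.pi * (b * r) * r := by ring
  have h4 := mul_le_mul_of_nonneg_right h2 hr0
  linarith only [hF, h4]

/-- the hinges of the ring are `≤ .38`, `≤ .40`, `≤ .27` -/
theorem place (h : RM b ρ w w' σ) (hc : RCap b ρ) (hbρ : b ^ 2 * ρ ≤ 23 / 10) (hk : k.ok b w)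
    (hk' : k'.ok b w') (hσ : |σ| < 1 / 2) (h0 : σ ≤ 0) (hx : w.re ≤ 1 / 4)
    (hx1 : k' = .one → w'.re ≤ 38 / 100) (hx2 : w'.re ≤ 40 / 100)
    (hr : k.cp ρ w) (hr' : k'.cp ρ w') : Pl b ρ w σ := by
  have hρ := h.ρ0
  cases h.place hc hk hk' hσ h0 (by linarith only [hx]) hr hr' with
  | flat hz =>
    have hs : -(1 / 4) ≤ σ := by
      have := hz.lo
      rwa [zt_re] at this
    rcases le_or_gt (-(205 / 1000)) σ with h1 | h1
    · exact .lo hz h1
    · refine .hi hz h1.le ?_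
      have key := h.right_flat hs h0 hk.re_nonneg (by linarith only [hx, h1]) hk'.re_nonneg (by linarith only [hx2, h1])
      have h2 := D0_nonneg hk' hc h.b4 hρ hs h1.le hx1 (fun _ => hx2) (fun _ => hx2) hr'
      have e : (LT.zt ρ σ).im = ρ := by
        rw [zt_im, th_of_le (by rw [abs_of_nonpos h0]; linarith only [hs]), mul_one]
      rw [e]
      exact sqrt_bd hρ hbρ (by linarith only [key, h2])
  | pos s e hz hs hF => exact .ramp s e hz hs hF
  | far s e hz hF hx' => linarith only [hx2, hx']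
  | tiny s e h0 h1 hF hx' => linarith only [hx2, h0, h1, hx']

theorem uf_eq' {r : ℝ} (hre : w.re = x) (him : w.im = -T) (hr : r ^ 2 = ζ.im) :
    w + 1 / 2 + ζ = ⟨x + 1 / 2 - -ζ.re, r ^ 2 - T⟩ := by
  apply Complex.ext
  · have h : ((1 : ℂ) / 2).re = 1 / 2 := by norm_num
    simp only [Complex.add_re, h, hre]
    ring
  · have h : ((1 : ℂ) / 2).im = 0 := by norm_num
    simp only [Complex.add_im, h, him, hr]
    ring

theorem vf_eq' {r : ℝ} (hre : w.re = x) (him : w.im = -T) (hr : r ^ 2 = ζ.im) :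
    w + 1 / 2 - ζ = ⟨x + 1 / 2 + -ζ.re, -(r ^ 2 + T)⟩ := by
  apply Complex.ext
  · have h : ((1 : ℂ) / 2).re = 1 / 2 := by norm_num
    simp only [Complex.sub_re, Complex.add_re, h, hre]
    ring
  · have h : ((1 : ℂ) / 2).im = 0 := by norm_num
    simp only [Complex.sub_im, Complex.add_im, h, him, hr]
    ring

theorem S0_fD {r : ℝ} (hre : w.re = x) (him : w.im = -T) (hr : r ^ 2 = ζ.im) (e : ℝ) :
    S4 0 w ζ - e = fD e x T (-ζ.re) r := by
  unfold S4 fD
  rw [uf_eq' hre him hr, vf_eq' hre him hr, LL_lnA' ⟨x + 1 / 2 - -ζ.re, _⟩,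
    LL_lnA' ⟨x + 1 / 2 + -ζ.re, _⟩, LL_lnA' w, hre, him]
  simp only [lnA_neg]
  ring

theorem Dm_fF' {r : ℝ} (hre : w.re = x) (him : w.im = -T) (hr : r ^ 2 = ζ.im) :
    Dm 0 w ζ - 953 / 100 * r = fF x T (-ζ.re) r := by
  unfold Dm Dq fF
  rw [uf_eq' hre him hr, vf_eq' hre him hr, LL_lnA' ⟨x + 1 / 2 - -ζ.re, _⟩,
    LL_lnA' ⟨x + 1 / 2 + -ζ.re, _⟩]
  simp only [lnA_neg]
  ring

/-- one box, first half of the flat part -/
theorem boxL {eX : F → F → F} {e : ℝ → ℝ → ℝ} (he : Ev2 eX e) {l0 h0 l1 h1 c : ℕ}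
    (h : okB 10000 (tL eX) 0 0 0 0 40 l0 h0 l1 h1 0 2050 0 3233 c = true)
    (hre : w.re = x) (him : w.im = -T) (hz : ZF ζ) (hσ : -(205 / 1000) ≤ ζ.re)
    (b0 : (l0 : ℝ) / 10000 ≤ x) (b0' : x ≤ (h0 : ℝ) / 10000)
    (b1 : (l1 : ℝ) / 10000 ≤ T) (b1' : T ≤ (h1 : ℝ) / 10000) : e x T ≤ S4 0 w ζ := by
  have hz2 := hz.hi
  have hr : Real.sqrt ζ.im ^ 2 = ζ.im := Real.sq_sqrt hz.pos.le
  have hr0 := Real.sqrt_nonneg ζ.im
  have hr1 := r_le hz hr
  have h1 : PL e x T (-ζ.re) (Real.sqrt ζ.im) := okB_sound0 (tL_ok he) h b0 b0' b1 b1'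
    (by push_cast; linarith only [hz2]) (by push_cast; linarith only [hσ]) (by push_cast; linarith only [hr0]) (by push_cast; linarith only [hr1])
  unfold PL at h1
  rw [← S0_fD hre him hr] at h1
  linarith only [h1]

/-- one box, second half of the flat part -/
theorem boxC {eX : F → F → F} {e : ℝ → ℝ → ℝ} (he : Ev2 eX e) {l0 h0 l1 h1 c : ℕ}
    (h : okB 10000 (tC eX) 0 0 0 0 40 l0 h0 l1 h1 2050 2500 0 3233 c = true)
    (hre : w.re = x) (him : w.im = -T) (hz : ZF ζ) (hσ : ζ.re ≤ -(205 / 1000))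
    (b0 : (l0 : ℝ) / 10000 ≤ x) (b0' : x ≤ (h0 : ℝ) / 10000)
    (b1 : (l1 : ℝ) / 10000 ≤ T) (b1' : T ≤ (h1 : ℝ) / 10000)
    (hF : Dm 0 w ζ ≤ 953 / 100 * Real.sqrt ζ.im) : e x T ≤ S4 0 w ζ := by
  have hz1 := hz.lo
  have hr : Real.sqrt ζ.im ^ 2 = ζ.im := Real.sq_sqrt hz.pos.le
  have hr0 := Real.sqrt_nonneg ζ.im
  have hr1 := r_le hz hr
  have h1 : PC e x T (-ζ.re) (Real.sqrt ζ.im) := okB_sound0 (tC_ok he) h b0 b0' b1 b1'
    (by push_cast; linarith only [hσ]) (by push_cast; linarith only [hz1]) (by push_cast; linarith only [hr0]) (by push_cast; linarith only [hr1])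
  have h2 := h1 (by rw [← Dm_fF' hre him hr]; linarith only [hF])
  rw [← S0_fD hre him hr] at h2
  linarith only [h2]

/-- one box on the ramp -/
theorem boxR {eX : F → F → F} {e : ℝ → ℝ → ℝ} {rS : F → F} {r : ℝ → ℝ} (he : Ev2 eX e)
    (hr : Ev rS r) {l0 h0 l1 h1 l2 h3 c : ℕ}
    (h : okB 10000 (tR eX rS) 0 0 0 0 40 l0 h0 l1 h1 l2 2500 0 h3 c = true)
    (hre : w.re = x) (him : w.im = -T) (hx0 : 0 < x) (hx : x < 1 / 4) (hT : 0 < T) (hz : ZR s ρ ζ)
    (b0 : (l0 : ℝ) / 10000 ≤ x) (b0' : x ≤ (h0 : ℝ) / 10000)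
    (b1 : (l1 : ℝ) / 10000 ≤ T) (b1' : T ≤ (h1 : ℝ) / 10000)
    (b2 : (l2 : ℝ) / 10000 ≤ s) (b3 : ρ ≤ (h3 : ℝ) / 10000)
    (hF : Dm (4 * ρ) w ζ ≤ 4 * ρ * (Real.pi * r s)) : e x T ≤ S4 0 w ζ := by
  have hW : W x (-(T / x)) w := ⟨hre, by rw [him]; field_simp, hx0⟩
  have hm : -(T / x) < 0 := by
    have := div_pos hT hx0
    linarith only [this]
  have hz2 := hz.hi
  have hz3 := hz.pos
  have h1 : PR e r x T s ρ := okB_sound0 (tR_ok he hr) h b0 b0' b1 b1'
    b2 (by push_cast; linarith only [hz2]) (by push_cast; linarith only [hz3]) b3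
  have hD := LR.dom hW hz hx hm
  rw [neg_neg] at hD
  have hF' := Dm_rF hW hz hx (r s) 0
  rw [neg_neg] at hF'
  have h2 := h1 hD (by rw [← hF']; linarith only [hF])
  have ex : T / x * x = T := div_mul_cancel₀ _ hx0.ne'
  have e1 : S4 0 w ζ - e x T = rD0 (e x T) x T s ρ := by
    unfold S4 rD0
    rw [u_eq hW hz, v_eq hW hz, LL_lnA' ⟨x + s, _⟩, LL_lnA' w, hre, him]
    simp only [neg_neg, lnA_neg, ex]
    unfold vA
    ring
  rw [← e1] at h2
  linarith only [h2]

/-- the bound of the first order condition on the ramp -/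
theorem FR {D a : ℝ} (hρ : 0 < ρ) (hs : s ≤ 1 / 4) (hb : a ≤ b)
    (hF : D ≤ 4 * Real.pi * ρ * (2 - b * (1 - 4 * s))) :
    D ≤ 4 * ρ * (Real.pi * (4 * a * s - (a - 2))) := by
  have hpi := Real.pi_pos
  refine hF.trans ?_
  have e : 4 * ρ * (Real.pi * (4 * a * s - (a - 2))) = 4 * Real.pi * ρ * (2 - a * (1 - 4 * s)) := by
    ring
  rw [e]
  apply mul_le_mul_of_nonneg_left _ (by positivity)
  nlinarith only [hs, hb]

theorem s_ge {a c : ℝ} (ha : 0 < a) (hb : a ≤ b) (hs : 1 / 4 - 1 / (2 * b) ≤ s)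
    (hc : c = 1 / 4 - 1 / (2 * a)) : c ≤ s := by
  rw [hc]
  have : 1 / (2 * b) ≤ 1 / (2 * a) := one_div_le_one_div_of_le (by linarith only [ha]) (by linarith only [hb])
  linarith only [hs, this]

/-- **The side of the ring at a hinge `1 | ring`** -/
theorem sideA (P : Pl b ρ w σ) (hb : 4 ≤ b) (hc : RCap b ρ) (hre : w.re = x) (him : w.im = -T)
    (x0 : 16 / 100 ≤ x) (x1 : x ≤ 228 / 1000) (t0 : 63 / 1000 ≤ T) (t1 : T ≤ 145 / 1000)
    (t4 : b < 5 → T ≤ 128 / 1000) : eA x T ≤ S4 0 w (LT.zt ρ σ) := by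
  cases P with
  | lo h h1 =>
    exact boxL ev_fA caL hre him h (by rw [zt_re]; exact h1) (by push_cast; linarith only [x0])
      (by push_cast; linarith only [x1]) (by push_cast; linarith only [t0]) (by push_cast; linarith only [t1])
  | hi h h1 hF =>
    exact boxC ev_fA caC hre him h (by rw [zt_re]; exact h1) (by push_cast; linarith only [x0])
      (by push_cast; linarith only [x1]) (by push_cast; linarith only [t0]) (by push_cast; linarith only [t1]) hF
  | ramp s e h hs hF =>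
    have hs1 := h.hi
    rcases lt_or_ge b 5 with h5 | h5
    · have hs2 := s_ge (c := 1 / 8) (by norm_num) hb hs (by norm_num)
      exact boxR ev_fA ev_r4s caR4 hre him (by linarith only [x0]) (by linarith only [x1]) (by linarith only [t0]) h
        (by push_cast; linarith only [x0]) (by push_cast; linarith only [x1]) (by push_cast; linarith only [t0])
        (by push_cast; linarith only [t4, h5, t4 h5]) (by push_cast; linarith only [hs2]) (by push_cast; linarith only [hc, hc.1])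
        (FR h.pos hs1 hb hF)
    · have hs2 := s_ge (c := 15 / 100) (by norm_num) h5 hs (by norm_num)
      exact boxR ev_fA ev_r5s caR5 hre him (by linarith only [x0]) (by linarith only [x1]) (by linarith only [t0]) h
        (by push_cast; linarith only [x0]) (by push_cast; linarith only [x1]) (by push_cast; linarith only [t0])
        (by push_cast; linarith only [t1]) (by push_cast; linarith only [hs2]) (by push_cast; linarith only [hc, h5, hc.2.1 h5])
        (FR h.pos hs1 h5 hF)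

/-- **The side of the ring at a hinge `2 | ring`** -/
theorem sideB1 (P : Pl b ρ w σ) (hb : 4 ≤ b) (hc : RCap b ρ) (hre : w.re = x) (him : w.im = -T)
    (x0 : 125 / 1000 ≤ x) (x1 : x ≤ 145 / 1000) (t0 : 10 / 1000 ≤ T) (t1 : T ≤ 96 / 1000) :
    35 / 100 ≤ S4 0 w (LT.zt ρ σ) := by
  cases P with
  | lo h h1 =>
    exact boxL (e := fun _ _ => 35 / 100) (x := x) (T := T) ev_fK cbL1 hre him h (by rw [zt_re]; exact h1) (by push_cast; linarith only [x0])
      (by push_cast; linarith only [x1]) (by push_cast; linarith only [t0]) (by push_cast; linarith only [t1])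
  | hi h h1 hF =>
    exact boxC (e := fun _ _ => 35 / 100) (x := x) (T := T) ev_fK cbC1 hre him h (by rw [zt_re]; exact h1) (by push_cast; linarith only [x0])
      (by push_cast; linarith only [x1]) (by push_cast; linarith only [t0]) (by push_cast; linarith only [t1]) hF
  | ramp s e h hs hF =>
    have hs1 := h.hi
    rcases lt_or_ge b 5 with h5 | h5
    · have hs2 := s_ge (c := 1 / 8) (by norm_num) hb hs (by norm_num)
      exact boxR (e := fun _ _ => 35 / 100) (x := x) (T := T) ev_fK ev_r4s cbR41 hre him (by linarith only [x0]) (by linarith only [x1]) (by linarith only [t0]) h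
        (by push_cast; linarith only [x0]) (by push_cast; linarith only [x1]) (by push_cast; linarith only [t0])
        (by push_cast; linarith only [t1]) (by push_cast; linarith only [hs2]) (by push_cast; linarith only [hc, hc.1])
        (FR h.pos hs1 hb hF)
    · have hs2 := s_ge (c := 15 / 100) (by norm_num) h5 hs (by norm_num)
      exact boxR (e := fun _ _ => 35 / 100) (x := x) (T := T) ev_fK ev_r5s cbR51 hre him (by linarith only [x0]) (by linarith only [x1]) (by linarith only [t0]) h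
        (by push_cast; linarith only [x0]) (by push_cast; linarith only [x1]) (by push_cast; linarith only [t0])
        (by push_cast; linarith only [t1]) (by push_cast; linarith only [hs2]) (by push_cast; linarith only [hc, h5, hc.2.1 h5])
        (FR h.pos hs1 h5 hF)

theorem sideB2 (P : Pl b ρ w σ) (hb : 4 ≤ b) (hc : RCap b ρ) (hre : w.re = x) (him : w.im = -T)
    (x0 : 145 / 1000 ≤ x) (x1 : x ≤ 165 / 1000) (t0 : 10 / 1000 ≤ T) (t1 : T ≤ 96 / 1000) :
    eB x T ≤ S4 0 w (LT.zt ρ σ) := by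
  cases P with
  | lo h h1 =>
    exact boxL ev_fB cbL2 hre him h (by rw [zt_re]; exact h1) (by push_cast; linarith only [x0])
      (by push_cast; linarith only [x1]) (by push_cast; linarith only [t0]) (by push_cast; linarith only [t1])
  | hi h h1 hF =>
    exact boxC ev_fB cbC2 hre him h (by rw [zt_re]; exact h1) (by push_cast; linarith only [x0])
      (by push_cast; linarith only [x1]) (by push_cast; linarith only [t0]) (by push_cast; linarith only [t1]) hF
  | ramp s e h hs hF =>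
    have hs1 := h.hi
    rcases lt_or_ge b 5 with h5 | h5
    · have hs2 := s_ge (c := 1 / 8) (by norm_num) hb hs (by norm_num)
      exact boxR ev_fB ev_r4s cbR42 hre him (by linarith only [x0]) (by linarith only [x1]) (by linarith only [t0]) h
        (by push_cast; linarith only [x0]) (by push_cast; linarith only [x1]) (by push_cast; linarith only [t0])
        (by push_cast; linarith only [t1]) (by push_cast; linarith only [hs2]) (by push_cast; linarith only [hc, hc.1])
        (FR h.pos hs1 hb hF)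
    · have hs2 := s_ge (c := 15 / 100) (by norm_num) h5 hs (by norm_num)
      exact boxR ev_fB ev_r5s cbR52 hre him (by linarith only [x0]) (by linarith only [x1]) (by linarith only [t0]) h
        (by push_cast; linarith only [x0]) (by push_cast; linarith only [x1]) (by push_cast; linarith only [t0])
        (by push_cast; linarith only [t1]) (by push_cast; linarith only [hs2]) (by push_cast; linarith only [hc, h5, hc.2.1 h5])
        (FR h.pos hs1 h5 hF)

/-- `b ^ 2 ρ ≤ 2.3` -/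
theorem rcap_sq {n : ℕ} (h4 : 4 ≤ n) (hρ : 0 ≤ ρ) (h : RCap (n : ℝ) ρ) :
    (n : ℝ) ^ 2 * ρ ≤ 23 / 10 := by
  obtain ⟨c4, c5, c6, c7, c8⟩ := h
  rcases (show n = 4 ∨ n = 5 ∨ n = 6 ∨ n = 7 ∨ 8 ≤ n by omega) with e | e | e | e | e
  · subst e
    norm_num
    linarith only [c4]
  · subst e
    have := c5 (by norm_num)
    norm_num
    linarith only [this]
  · subst e
    have := c6 (by norm_num)
    norm_num
    linarith only [this]
  · subst e
    have := c7 (by norm_num)
    norm_num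
    linarith only [this]
  · exact c8 (by exact_mod_cast e)

end CF3

end Pool.Agent.Work.MP_b30479_gt.G2
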