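import Pool.Agent.Work.MP_b30479_gt.G2.CF3A

/-!
# Floors of `1 | ring` and `2 | ring` at a large hinge `1 | 2`: the digit side

Variables `x` (the hinge of the ring), `T` (its height, seen from the digit), `K` (the height of the
hinge `1 | 2`, seen from the `1`), `X` (the hinge `1 | 2`); slope `0`.
-/

namespace Pool.Agent.Work.MP_b30479_gt.G2

open VOL NumI

namespace CF3

open LR

def xsF (T K : F) : F := (F.rat 182 1000).add ((F.mulq 3 10 K).add (F.mulq 2 10 T))

def tA (k : ℕ) (X T K W : F) : Bool :=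
  cond (Nat.beq k 40) (posF (X.sub (xsF T K)))
  (cond (Nat.beq k 41) (posF ((F.rat 94 1000).sub (T.add K)))
  (cond (Nat.beq k 42) (posF ((T.add K).sub (F.rat 187 1000)))
  (posO' (o0 (fun au => o0 (fun aw =>
    some ((((F.pi.mul K).add (au.sub aw)).add (fA X T)).add (F.mulq k 2 (X.sub (xsF T K)))))
    (F.lnA X T)) (F.lnA (X.add W) (T.add K))))))

def tB (eX : F → F → F) (_ : ℕ) (X T K W : F) : Bool :=
  posO' (o0 (fun au => o0 (fun aw =>
    some ((au.sub ((F.pi.mul (K.add T)).add (aw.add aw))).add (eX X T)))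
    (F.lnA X T)) (F.lnA (X.add W) (T.sub K)))

def PA (x T K X : ℝ) : Prop := x ≤ 182 / 1000 + (3 / 10 * K + 2 / 10 * T) → 94 / 1000 ≤ T + K →
  T + K ≤ 187 / 1000 → 0 < Real.pi * K + (lnA (x + X) (T + K) - lnA x T) + eA x T

def PB (e : ℝ → ℝ → ℝ) (x T K X : ℝ) : Prop :=
  0 < lnA (x + X) (T - K) - (Real.pi * (K + T) + (lnA x T + lnA x T)) + e x T

theorem xsF_ok {T K : F} {ε : ℕ → ℝ} {t k : ℝ} (hε : ∀ i, |ε i| ≤ 1) (hT : T.Encl ε t)
    (hK : K.Encl ε k) : (xsF T K).Encl ε (182 / 1000 + (3 / 10 * k + 2 / 10 * t)) := by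
  have := F.Encl.add (F.Encl.rat 182 1000 ε) (F.Encl.add
    (F.Encl.mulq (n := 3) (d := 10) (by norm_num) hε hK)
    (F.Encl.mulq (n := 2) (d := 10) (by norm_num) hε hT))
  push_cast at this
  exact this

theorem tA_ok : TestOk tA PA := by
  intro k X T K W ε x t kk xx hε hX hT hK hW h h1 h2 h3
  have kx := F.Encl.sub hX (xsF_ok hε hT hK)
  have ktk := F.Encl.add hT hK
  unfold tA at h
  rcases c0 : Nat.beq k 40 with _ | _
  · rw [c0, cond_false] at h
    rcases c1 : Nat.beq k 41 with _ | _
    · rw [c1, cond_false] at h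
      rcases c2 : Nat.beq k 42 with _ | _
      · rw [c2, cond_false] at h
        set G := o0 (fun au => o0 (fun aw =>
          some ((((F.pi.mul K).add (au.sub aw)).add (fA X T)).add (F.mulq k 2 (X.sub (xsF T K)))))
          (F.lnA X T)) (F.lnA (X.add W) (T.add K)) with hG
        rcases hGc : G with _ | g
        · rw [hGc] at h
          exact absurd h (by simp [posO'])
        have hpos : posF g = true := by
          rw [hGc] at h
          exact h
        rw [hG] at hGc
        obtain ⟨au, hau, g1⟩ := o0_some hGc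
        obtain ⟨aw, haw, g1⟩ := o0_some g1
        have eau := F.Encl.lnA hε (F.Encl.add hX hW) ktk hau
        have eaw := F.Encl.lnA hε hX hT haw
        have kD := F.Encl.add (F.Encl.add (F.Encl.add (F.Encl.mul hε (F.Encl.pi ε) hK)
          (F.Encl.sub eau eaw)) (ev_fA hε hX hT)) (F.Encl.mulq (n := k) (d := 2) (by norm_num) hε kx)
        have hp := posF_spec hε kD (by rw [← Option.some.inj g1] at hpos; exact hpos)
        have hj0 : (0 : ℝ) ≤ (k : ℝ) / (2 : ℕ) := by positivity
        have := mul_nonpos_of_nonneg_of_nonpos hj0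
          (show x - (182 / 1000 + (3 / 10 * kk + 2 / 10 * t)) ≤ 0 by linarith only [h1])
        linarith only [hp, this]
      · rw [c2, cond_true] at h
        have h187 := F.Encl.rat 187 1000 ε
        push_cast at h187
        have := posF_spec hε (F.Encl.sub ktk h187) h
        linarith only [h3, this]
    · rw [c1, cond_true] at h
      have h94 := F.Encl.rat 94 1000 ε
      push_cast at h94
      have := posF_spec hε (F.Encl.sub h94 ktk) h
      linarith only [h2, this]
  · rw [c0, cond_true] at h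
    have := posF_spec hε kx h
    linarith only [h1, this]

theorem tB_ok {eX : F → F → F} {e : ℝ → ℝ → ℝ} (he : Ev2 eX e) : TestOk (tB eX) (PB e) := by
  intro k X T K W ε x t kk xx hε hX hT hK hW h
  unfold tB at h
  set G := o0 (fun au => o0 (fun aw =>
    some ((au.sub ((F.pi.mul (K.add T)).add (aw.add aw))).add (eX X T)))
    (F.lnA X T)) (F.lnA (X.add W) (T.sub K)) with hG
  rcases hGc : G with _ | g
  · rw [hGc] at h
    exact absurd h (by simp [posO'])
  have hpos : posF g = true := by
    rw [hGc] at h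
    exact h
  rw [hG] at hGc
  obtain ⟨au, hau, g1⟩ := o0_some hGc
  obtain ⟨aw, haw, g1⟩ := o0_some g1
  have eau := F.Encl.lnA hε (F.Encl.add hX hW) (F.Encl.sub hT hK) hau
  have eaw := F.Encl.lnA hε hX hT haw
  have kD := F.Encl.add (F.Encl.sub eau (F.Encl.add (F.Encl.mul hε (F.Encl.pi ε)
    (F.Encl.add hK hT)) (F.Encl.add eaw eaw))) (he hε hX hT)
  exact posF_spec hε kD (by rw [← Option.some.inj g1] at hpos; exact hpos)

/-! ### certificates -/

theorem cdA : okB 10000 tA 0 0 1000 0 40 1600 2280 630 1450 920 1800 4950 5100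
    0x21408c0812e600a442000800854080 = true := by
  decide +kernel

theorem cdB1 : okB 10000 (tB fK) 0 0 1000 0 40 1250 1450 100 960 820 1985 4950 5100
    0x10200 = true := by
  decide +kernel

theorem cdB2 : okB 10000 (tB fB) 0 0 1000 0 40 1450 1550 100 960 820 1985 4950 5100
    0x102020804201 = true := by
  decide +kernel

theorem cdB3 : okB 10000 (tB fB) 0 0 1000 0 40 1550 1650 100 750 820 1800 4950 5100
    0x40808201 = true := by
  decide +kernel

/-! ### rows -/

variable {x T K X : ℝ}

theorem rowA (x0 : 16 / 100 ≤ x) (x1 : x ≤ 182 / 1000 + 3 / 10 * K + 2 / 10 * T)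
    (t0 : 63 / 1000 ≤ T) (t1 : T ≤ 145 / 1000) (k0 : -(8 / 1000) ≤ K) (k1 : K ≤ 80 / 1000)
    (s0 : 94 / 1000 ≤ T + K) (s1 : T + K ≤ 187 / 1000) (X0 : 495 / 1000 ≤ X) (X1 : X ≤ 51 / 100) :
    0 < Real.pi * K + (lnA (x + X) (T + K) - lnA x T) + eA x T := by
  have h : PA x T K X := okB_sound (by norm_num) tA_ok cdA (by push_cast; linarith only [x0])
    (by push_cast; linarith only [x1, k1, s1]) (by push_cast; linarith only [t0]) (by push_cast; linarith only [t1])
    (by push_cast; linarith only [k0]) (by push_cast; linarith only [k1]) (by push_cast; linarith only [X0])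
    (by push_cast; linarith only [X1])
  exact h (by linarith only [x1]) s0 s1

theorem rowB1 (x0 : 125 / 1000 ≤ x) (x1 : x ≤ 145 / 1000)
    (t0 : 10 / 1000 ≤ T) (t1 : T ≤ 96 / 1000) (k0 : -(18 / 1000) ≤ K) (k1 : K ≤ 985 / 10000)
    (X0 : 495 / 1000 ≤ X) (X1 : X ≤ 51 / 100) :
    0 < lnA (x + X) (T - K) - (Real.pi * (K + T) + (lnA x T + lnA x T)) + 35 / 100 := by
  have h : PB (fun _ _ => 35 / 100) x T K X := okB_sound (by norm_num) (tB_ok ev_fK) cdB1
    (by push_cast; linarith only [x0]) (by push_cast; linarith only [x1]) (by push_cast; linarith only [t0])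
    (by push_cast; linarith only [t1]) (by push_cast; linarith only [k0]) (by push_cast; linarith only [k1])
    (by push_cast; linarith only [X0]) (by push_cast; linarith only [X1])
  exact h

theorem rowB2 (x0 : 145 / 1000 ≤ x) (x1 : x ≤ 155 / 1000)
    (t0 : 10 / 1000 ≤ T) (t1 : T ≤ 96 / 1000) (k0 : -(18 / 1000) ≤ K) (k1 : K ≤ 985 / 10000)
    (X0 : 495 / 1000 ≤ X) (X1 : X ≤ 51 / 100) :
    0 < lnA (x + X) (T - K) - (Real.pi * (K + T) + (lnA x T + lnA x T)) + eB x T := by
  have h : PB eB x T K X := okB_sound (by norm_num) (tB_ok ev_fB) cdB2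
    (by push_cast; linarith only [x0]) (by push_cast; linarith only [x1]) (by push_cast; linarith only [t0])
    (by push_cast; linarith only [t1]) (by push_cast; linarith only [k0]) (by push_cast; linarith only [k1])
    (by push_cast; linarith only [X0]) (by push_cast; linarith only [X1])
  exact h

theorem rowB3 (x0 : 155 / 1000 ≤ x) (x1 : x ≤ 165 / 1000)
    (t0 : 10 / 1000 ≤ T) (t1 : T ≤ 75 / 1000) (k0 : -(18 / 1000) ≤ K) (k1 : K ≤ 80 / 1000)
    (X0 : 495 / 1000 ≤ X) (X1 : X ≤ 51 / 100) :
    0 < lnA (x + X) (T - K) - (Real.pi * (K + T) + (lnA x T + lnA x T)) + eB x T := by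
  have h : PB eB x T K X := okB_sound (by norm_num) (tB_ok ev_fB) cdB3
    (by push_cast; linarith only [x0]) (by push_cast; linarith only [x1]) (by push_cast; linarith only [t0])
    (by push_cast; linarith only [t1]) (by push_cast; linarith only [k0]) (by push_cast; linarith only [k1])
    (by push_cast; linarith only [X0]) (by push_cast; linarith only [X1])
  exact h

end CF3

end Pool.Agent.Work.MP_b30479_gt.G2
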