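import Pool.Agent.Work.MP_b30479_gt.G2.MPSym
import Pool.Agent.Work.MP_b30479_gt.G2.WPar

/-!
# The table of the location of the saddle point

The only place where the boxes are fixed.  Every box is given in the own frame of the left region.
-/

namespace Pool.Agent.Work.MP_b30479_gt.G2

namespace SR

/-- a box: `x0 ≤ Re ≤ x1`, `t0 ≤ Im ≤ t1` -/
structure Box where
  x0 : ℝ
  x1 : ℝ
  t0 : ℝ
  t1 : ℝ

/-- a point is in the box -/
def Box.In (B : Box) (z : ℂ) : Prop := B.x0 ≤ z.re ∧ z.re ≤ B.x1 ∧ B.t0 ≤ z.im ∧ z.im ≤ B.t1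

/-- the complex conjugate box -/
noncomputable def Box.neg (B : Box) : Box := ⟨B.x0, B.x1, -B.t1, -B.t0⟩

theorem Box.neg_neg (B : Box) : B.neg.neg = B := by simp [Box.neg]

theorem Box.in_neg (B : Box) (z : ℂ) : B.neg.In (starRingEnd ℂ z) ↔ B.In z := by
  unfold Box.In Box.neg
  simp only [Complex.conj_re, Complex.conj_im, neg_le_neg_iff]
  tauto

/-- box of the hinge between the regions of class `A` (left) and `B` (right) in the own frame of the
left region; `ss`: equal signs -/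
noncomputable def hbox : Cl → Cl → Bool → Box
  | .one, .one, _ => ⟨275 / 1000, 1 / 2, -(118 / 1000), 118 / 1000⟩
  | .one, .two, _ => ⟨236 / 1000, 392 / 1000, -(18 / 1000), 985 / 10000⟩
  | .two, .one, _ => ⟨236 / 1000, 392 / 1000, -(985 / 10000), 18 / 1000⟩
  | .one, .twoE, _ => ⟨217 / 1000, 311 / 1000, -(66 / 1000), 1 / 1000⟩
  | .twoE, .one, _ => ⟨217 / 1000, 311 / 1000, -(1 / 1000), 66 / 1000⟩
  | .one, .three, _ => ⟨226 / 1000, 314 / 1000, 21 / 1000, 1145 / 10000⟩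
  | .three, .one, _ => ⟨226 / 1000, 314 / 1000, -(1145 / 10000), -(21 / 1000)⟩
  | .one, .threeE, _ => ⟨212 / 1000, 274 / 1000, 10 / 1000, 78 / 1000⟩
  | .threeE, .one, _ => ⟨212 / 1000, 274 / 1000, -(78 / 1000), -(10 / 1000)⟩
  | .one, .ring, _ => ⟨214 / 1000, 298 / 1000, 38 / 1000, 158 / 1000⟩
  | .ring, .one, _ => ⟨214 / 1000, 298 / 1000, -(158 / 1000), -(38 / 1000)⟩
  | .two, .two, _ => ⟨200 / 1000, 298 / 1000, -(41 / 1000), 41 / 1000⟩
  | .twoE, .two, _ => ⟨183 / 1000, 228 / 1000, 45 / 1000, 85 / 1000⟩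
  | .two, .twoE, _ => ⟨183 / 1000, 228 / 1000, -(85 / 1000), -(45 / 1000)⟩
  | .twoE, .twoE, _ => ⟨165 / 1000, 168 / 1000, -(1 / 1000), 1 / 1000⟩
  | .twoE, .three, _ => ⟨174 / 1000, 197 / 1000, 76 / 1000, 98 / 1000⟩
  | .three, .twoE, _ => ⟨174 / 1000, 197 / 1000, -(98 / 1000), -(76 / 1000)⟩
  | .twoE, .threeE, _ => ⟨162 / 1000, 166 / 1000, 65 / 1000, 69 / 1000⟩
  | .threeE, .twoE, _ => ⟨162 / 1000, 166 / 1000, -(69 / 1000), -(65 / 1000)⟩
  | .twoE, .ring, _ => ⟨164 / 1000, 186 / 1000, 88 / 1000, 131 / 1000⟩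
  | .ring, .twoE, _ => ⟨164 / 1000, 186 / 1000, -(131 / 1000), -(88 / 1000)⟩
  | .two, .three, _ => ⟨195 / 1000, 264 / 1000, -(5 / 1000), 57 / 1000⟩
  | .three, .two, _ => ⟨195 / 1000, 264 / 1000, -(57 / 1000), 5 / 1000⟩
  | .two, .threeE, _ => ⟨181 / 1000, 227 / 1000, -(13 / 1000), 26 / 1000⟩
  | .threeE, .two, _ => ⟨181 / 1000, 227 / 1000, -(26 / 1000), 13 / 1000⟩
  | .two, .ring, _ => ⟨186 / 1000, 252 / 1000, 10 / 1000, 96 / 1000⟩
  | .ring, .two, _ => ⟨186 / 1000, 252 / 1000, -(96 / 1000), -(10 / 1000)⟩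
  | .threeE, .three, _ => ⟨179 / 1000, 201 / 1000, 5 / 1000, 28 / 1000⟩
  | .three, .threeE, _ => ⟨179 / 1000, 201 / 1000, -(28 / 1000), -(5 / 1000)⟩
  | .threeE, .threeE, _ => ⟨165 / 1000, 168 / 1000, -(1 / 1000), 1 / 1000⟩
  | .threeE, .ring, _ => ⟨171 / 1000, 195 / 1000, 18 / 1000, 58 / 1000⟩
  | .ring, .threeE, _ => ⟨171 / 1000, 195 / 1000, -(58 / 1000), -(18 / 1000)⟩
  | .three, .three, _ => ⟨195 / 1000, 237 / 1000, -(22 / 1000), 22 / 1000⟩
  | .three, .ring, _ => ⟨188 / 1000, 234 / 1000, -(4 / 1000), 57 / 1000⟩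
  | .ring, .three, _ => ⟨188 / 1000, 234 / 1000, -(57 / 1000), 4 / 1000⟩
  | .ring, .ring, false => ⟨182 / 1000, 252 / 1000, -(385 / 10000), 385 / 10000⟩
  | .ring, .ring, true => ⟨170 / 1000, 252 / 1000, -(1 / 1000), 59 / 1000⟩

/-- box of the inner variable of an interior region with three crossings whose left neighbour has
class `A`, in its own frame -/
noncomputable def mbox : Cl → Box
  | _ => ⟨325 / 1000, 512 / 1000, -(160 / 1000), 15 / 1000⟩

/-- box of the inner variable of a region with three crossings at an end -/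
noncomputable def mboxE : Box := ⟨301 / 1000, 4215 / 10000, -(45 / 1000), 59 / 1000⟩

/-- box of the variable of a ring with `n` crossings, in its own frame; `e`: at an end -/
noncomputable def zbox (n : ℕ) (e : Bool) : Box :=
  if n = 4 then (if e then ⟨-(248 / 1000), -(186 / 1000), 0, 65 / 1000⟩
    else ⟨-(226 / 1000), -(144 / 1000), 0, 1045 / 10000⟩)
  else if n = 5 then (if e then ⟨-(206 / 1000), -(158 / 1000), 0, 43 / 1000⟩
    else ⟨-(194 / 1000), -(127 / 1000), 0, 725 / 10000⟩)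
  else if n = 6 then (if e then ⟨-(174 / 1000), -(136 / 1000), 0, 30 / 1000⟩
    else ⟨-(168 / 1000), -(109 / 1000), 0, 52 / 1000⟩)
  else if n = 7 then (if e then ⟨-(155 / 1000), -(118 / 1000), 0, 22 / 1000⟩
    else ⟨-(150 / 1000), -(97 / 1000), 0, 40 / 1000⟩)
  else (if e then ⟨-(155 / 1000), 0, 0, 11 / 10 / (n : ℝ) ^ 2⟩
    else ⟨-(155 / 1000), 0, 0, 23 / 10 / (n : ℝ) ^ 2⟩)

variable {M : ℕ} (b : Fin (M + 1) → ℤ)

/-- the two regions at the hinge `h` have equal signs -/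
def ssW (h : Fin M) : Bool := decide (0 < b h.castSucc * b h.succ)

/-- **Location of the saddle point.** -/
structure Loc (zs : DD (tyW b) ⊕ ZZ (tyW b) → ℂ) : Prop where
  hinge : ∀ h : Fin M, (hbox (clsW b h.castSucc) (clsW b h.succ) (ssW b h)).In
    (ofr (b h.castSucc) (zs (.inl (.inl h))))
  /-- the hinge `1 | 1` is strictly to the left of `1/2` -/
  half : ∀ h : Fin M, (zs (.inl (.inl h))).re < 1 / 2
  mid : ∀ m : {i : Fin (M + 1) // (tyW b i).isMid = true}, isEnd m.1 = false → ∀ h : Fin M,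
    h.succ = m.1 → (mbox (clsW b h.castSucc)).In (ofr (b m.1) (zs (.inl (.inr m))))
  midE : ∀ m : {i : Fin (M + 1) // (tyW b i).isMid = true}, isEnd m.1 = true →
    mboxE.In (ofr (b m.1) (zs (.inl (.inr m))))
  ring : ∀ v : ZZ (tyW b), (zbox (b v.1).natAbs (isEnd v.1)).In (ofz (b v.1) (zs (.inr v)))
  /-- the height of a ring variable is positive -/
  rpos : ∀ v : ZZ (tyW b), 0 < (zs (.inr v)).im

/-- `hbox` seen from the right region, opposite signs -/
theorem hbox_swap (A B : Cl) : hbox B A false = (hbox A B false).neg := by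
  cases A <;> cases B <;> simp [hbox, Box.neg]

theorem hbox_swap_same : hbox .ring .ring true = hbox .ring .ring true := rfl

end SR

end Pool.Agent.Work.MP_b30479_gt.G2
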