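import Pool.Agent.Work.MP_b30479_gt.G2.SWordD

/-!
# The local data of the hinges and of the rings of a word

`HDt`: data of a hinge between two rings of the merged word in the frame of the first ring, with a
family `K` of sets for the ring values; `RDt`, `RDe`: data of an inner ring and of an end ring in
its own frame.  `hdt`, `rdt`, `rde_first`, `rde_last`: every word of the class gives these data;
`HDt.rev`: the reversed word.
-/

namespace Pool.Agent.Work.MP_b30479_gt.G2

open Complex Set Filter Topology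
open scoped ComplexConjugate

/-! ### the own frame -/

/-- the own frame of a ring of sign `s` -/
noncomputable def fz (s : ℝ) (z : ℂ) : ℂ := if s = 1 then z else conj z

lemma fz_one (z : ℂ) : fz 1 z = z := by simp [fz]

lemma fz_neg (z : ℂ) : fz (-1) z = conj z := by
  have : (-1 : ℝ) ≠ 1 := by norm_num
  simp [fz, this]

lemma fz_fz (s : ℝ) (z : ℂ) : fz s (fz s z) = z := by
  unfold fz
  split_ifs <;> simp

lemma fz_re (s : ℝ) (z : ℂ) : (fz s z).re = z.re := by
  unfold fz
  split_ifs <;> simp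

lemma fz_mem {s t : ℝ} (hs : s = 1 ∨ s = -1) (ht : t = 1 ∨ t = -1) {K : Set ℂ} {z : ℂ}
    (h : z ∈ frS t K) : fz s z ∈ frS (s * t) K := by
  rcases hs with rfl | rfl <;> rcases ht with rfl | rfl
  · rw [fz_one, mul_one]
    exact h
  · rw [fz_one, one_mul]
    exact h
  · rw [fz_neg, mul_one, frS_neg]
    rw [frS_one] at h
    show conj (conj z) ∈ K
    rwa [Complex.conj_conj]
  · rw [fz_neg, show (-1 : ℝ) * -1 = 1 by norm_num, frS_one]
    rw [frS_neg] at h
    exact h

lemma frS_frS {s : ℝ} (hs : s = 1 ∨ s = -1) (K : Set ℂ) : frS s (frS s K) = K := by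
  rcases hs with rfl | rfl
  · rw [frS_one, frS_one]
  · rw [frS_neg, frS_neg]
    ext z
    show conj (conj z) ∈ K ↔ z ∈ K
    rw [Complex.conj_conj]

lemma conj_arctan (z : ℂ) : Complex.arctan (conj z) = conj (Complex.arctan z) := by
  have hX : (1 + conj z * I) / (1 - conj z * I) = conj (((1 + z * I) / (1 - z * I))⁻¹) := by
    rw [inv_div, map_div₀, map_sub, map_add, map_mul, map_one, Complex.conj_I]
    congr 1 <;> ring
  unfold Complex.arctan
  rw [hX, map_mul, map_div₀, map_neg, Complex.conj_I]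
  set X := (1 + z * I) / (1 - z * I)
  have key : Complex.log (conj X⁻¹) = -conj (Complex.log X) := by
    by_cases h : X.arg = Real.pi
    · have h2 : X⁻¹.arg = Real.pi := by
        rw [Complex.arg_inv, if_pos h]
      have e1 : conj X = X := by
        have h3 := (Complex.arg_eq_pi_iff.1 h).2
        exact Complex.conj_eq_iff_im.2 h3
      rw [map_inv₀, e1]
      have hX0 : X ≠ 0 := by
        intro h0
        rw [h0, Complex.arg_zero] at h
        exact Real.pi_pos.ne h
      apply Complex.ext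
      · rw [Complex.log_re, Complex.neg_re, Complex.conj_re, Complex.log_re, norm_inv, Real.log_inv]
      · rw [Complex.log_im, Complex.neg_im, Complex.conj_im, Complex.log_im, h2, h]
        ring
    · have h2 : X⁻¹.arg ≠ Real.pi := by
        rw [Complex.arg_inv, if_neg h]
        intro h3
        have := Complex.neg_pi_lt_arg X
        linarith
      rw [Complex.log_conj _ h2, Complex.log_inv _ h, map_neg]
  rw [key]
  have h2 : (starRingEnd ℂ) 2 = 2 := map_ofNat (starRingEnd ℂ) 2
  rw [h2]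
  ring

lemma acot2_conj (R : ℂ) : acot2 (conj R) = conj (acot2 R) := by
  unfold acot2
  have h2 : (starRingEnd ℂ) 2 = 2 := map_ofNat (starRingEnd ℂ) 2
  rw [conj_arctan, map_sub, map_div₀, map_div₀, map_one, h2, Complex.conj_ofReal]

lemma acot2_fz (s : ℝ) (R : ℂ) : acot2 (fz s R) = fz s (acot2 R) := by
  unfold fz
  split_ifs
  · rfl
  · exact acot2_conj R

lemma Rs_conj (j R τ : ℂ) : Rs (conj j) (conj R) (conj τ) = conj (Rs j R τ) := by
  unfold Rs
  rw [map_div₀, map_add, map_add, map_mul, map_pow]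

lemma Rs_neg (j R τ : ℂ) : Rs j R (-τ) = Rs j R τ := by
  unfold Rs
  rw [neg_sq]

lemma RE.conj {j : ℂ} {B : ℕ} {R R' τ : ℂ} (h : RE j B R R' τ) :
    RE (conj j) B (conj R) (conj R') (conj τ) := by
  unfold RE at h ⊢
  have := congrArg (starRingEnd ℂ) h
  simpa only [map_mul, map_add, map_sub, map_pow, map_one] using this

lemma RE1.conj {j : ℂ} {B : ℕ} {R τ : ℂ} (h : RE1 j B R τ) :
    RE1 (conj j) B (conj R) (conj τ) := by
  unfold RE1 at h ⊢
  have := congrArg (starRingEnd ℂ) h
  simpa only [map_mul, map_add, map_sub, map_pow, map_one] using this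

/-! ### the ring polynomial -/

/-- `(1 + j τ) ^ B = a_B + b_B j τ` with `τ ^ 2 = T` -/
noncomputable def cab (T : ℂ) : ℕ → ℂ × ℂ
  | 0 => (1, 0)
  | n + 1 => ((cab T n).1 - T * (cab T n).2, (cab T n).1 + (cab T n).2)

/-- the ring polynomial -/
noncomputable def DB (j : ℂ) (B : ℕ) (R q : ℂ) : ℂ :=
  2 * (j * R * (cab (q - 1) B).2 - (cab (q - 1) B).1)

lemma cab_pow {j τ T : ℂ} (hj : j * j = -1) (hT : τ ^ 2 = T) (B : ℕ) :
    (1 + j * τ) ^ B = (cab T B).1 + (cab T B).2 * (j * τ) ∧
      (1 - j * τ) ^ B = (cab T B).1 - (cab T B).2 * (j * τ) := by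
  induction B with
  | zero => simp [cab]
  | succ n ih =>
    obtain ⟨h1, h2⟩ := ih
    have h3 : (j * τ) * (j * τ) = -T := by
      linear_combination τ ^ 2 * hj - hT
    constructor
    · rw [pow_succ, h1]
      simp only [cab]
      linear_combination (cab T n).2 * h3
    · rw [pow_succ, h2]
      simp only [cab]
      linear_combination (cab T n).2 * h3

lemma cab_norm {j τ T : ℂ} (hj : j * j = -1) (hT : τ ^ 2 = T) (B : ℕ) :
    (cab T B).1 ^ 2 + T * (cab T B).2 ^ 2 = (1 + T) ^ B := by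
  obtain ⟨h1, h2⟩ := cab_pow hj hT B
  have h3 : (1 + j * τ) ^ B * (1 - j * τ) ^ B = (1 + T) ^ B := by
    rw [← mul_pow]
    congr 1
    linear_combination (-τ ^ 2) * hj + hT
  rw [← h3, h1, h2]
  linear_combination ((cab T B).2 ^ 2 * τ ^ 2) * hj - (cab T B).2 ^ 2 * hT

/-- the linear form of the ring relation -/
lemma RE_lin {j : ℂ} {B : ℕ} {R R' τ q : ℂ} (hj : j * j = -1) (hτ : τ ≠ 0) (hq : q = 1 + τ ^ 2)
    (h : RE j B R R' τ) :
    R' * ((cab (q - 1) B).1 - R * (j * (cab (q - 1) B).2)) =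
      (q - 1) * (j * (cab (q - 1) B).2) - R * (cab (q - 1) B).1 := by
  obtain ⟨h1, h2⟩ := cab_pow (T := q - 1) hj (by rw [hq]; ring) B
  unfold RE at h
  rw [h1, h2] at h
  apply mul_left_cancel₀ (mul_ne_zero two_ne_zero hτ)
  set a := (cab (q - 1) B).1
  set c := (cab (q - 1) B).2
  rw [hq]
  linear_combination h

/-- the outer port of a ring from the hinge and the own value -/
lemma DB_sq {j : ℂ} {B : ℕ} {R R' τ q q' q'' : ℂ} (hj : j * j = -1) (hτ : τ ≠ 0)
    (hq : q = 1 + τ ^ 2) (hR : R ^ 2 + 1 = q + q') (hR' : R' ^ 2 + 1 = q + q'')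
    (h : RE j B R R' τ) : q'' * DB j B R q ^ 2 = 4 * q' * q ^ B := by
  have h1 := RE_lin hj hτ hq h
  have h2 := cab_norm (T := q - 1) hj (by rw [hq]; ring) B
  rw [show 1 + (q - 1) = q by ring] at h2
  unfold DB
  set a := (cab (q - 1) B).1
  set c := (cab (q - 1) B).2
  have e1 : q'' = R' ^ 2 - (q - 1) := by linear_combination -hR'
  have e2 : q' = R ^ 2 - (q - 1) := by linear_combination -hR
  have h3 : (R' * (a - R * (j * c))) ^ 2 = ((q - 1) * (j * c) - R * a) ^ 2 := by rw [h1]
  rw [e1, e2]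
  have e3 : (j * c) ^ 2 = -c ^ 2 := by linear_combination c ^ 2 * hj
  calc (R' ^ 2 - (q - 1)) * (2 * (j * R * c - a)) ^ 2 =
      4 * (R' * (a - R * (j * c))) ^ 2 - 4 * (q - 1) * (a - R * (j * c)) ^ 2 := by ring
    _ = 4 * (((q - 1) * (j * c) - R * a) ^ 2 - (q - 1) * (a - R * (j * c)) ^ 2) := by rw [h3]; ring
    _ = 4 * (R ^ 2 - (q - 1)) * (a ^ 2 - (q - 1) * (j * c) ^ 2) := by ring
    _ = 4 * (R ^ 2 - (q - 1)) * (a ^ 2 + (q - 1) * c ^ 2) := by rw [e3]; ring
    _ = _ := by rw [h2]

/-- the equation of an end ring -/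
lemma DB_zero {j : ℂ} {B : ℕ} {R τ q : ℂ} (hj : j * j = -1) (hτ : τ ≠ 0)
    (hq : q = 1 + τ ^ 2) (h : RE1 j B R τ) : DB j B R q = 0 := by
  obtain ⟨h1, h2⟩ := cab_pow (T := q - 1) hj (by rw [hq]; ring) B
  unfold RE1 at h
  rw [h1, h2] at h
  unfold DB
  apply mul_left_cancel₀ hτ
  set a := (cab (q - 1) B).1
  set c := (cab (q - 1) B).2
  linear_combination -h

lemma cab_conj (T : ℂ) (B : ℕ) : cab (conj T) B = (conj (cab T B).1, conj (cab T B).2) := by
  induction B with
  | zero => simp [cab]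
  | succ n ih =>
    simp only [cab]
    rw [ih]
    simp only [map_sub, map_add, map_mul]

lemma DB_conj (j : ℂ) (B : ℕ) (R q : ℂ) : DB (conj j) B (conj R) (conj q) = conj (DB j B R q) := by
  unfold DB
  have h2 : (starRingEnd ℂ) 2 = 2 := map_ofNat (starRingEnd ℂ) 2
  have h3 : conj q - 1 = conj (q - 1) := by simp
  rw [h3, cab_conj]
  simp only [map_mul, map_sub, h2]

/-! ### side kinds -/

/-- side kinds of a ring: no neighbour; neighbour of opposite sign; neighbour of equal sign, not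
split (both digits are at least `4`); neighbour of equal sign, split by an absorbed digit `±1` -/
inductive SK
  | e | a | z | s
  deriving DecidableEq

namespace SK

/-- number of absorbed digits -/
def u : SK → ℕ
  | .s => 1
  | _ => 0

/-- number of neighbours of opposite sign -/
def na : SK → ℕ
  | .a => 1
  | _ => 0

/-- number of neighbours of equal sign -/
def ns : SK → ℕ
  | .z => 1
  | .s => 1
  | _ => 0

/-- relative sign -/
noncomputable def sgn : SK → ℝ
  | .a => -1
  | _ => 1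

lemma sgn_or (x : SK) : x.sgn = 1 ∨ x.sgn = -1 := by
  cases x
  · exact Or.inl rfl
  · exact Or.inr rfl
  · exact Or.inl rfl
  · exact Or.inl rfl

end SK

/-- the number of crossings of a ring with the digit `d` -/
def crs (d : ℕ) (l r : SK) : ℕ := d + l.u + r.u

/-- the type of a ring -/
def rty (d : ℕ) (l r : SK) : RT := rtype (crs d l r) (l.na + r.na) (l.ns + r.ns)

/-- the possible rings -/
structure ROK (d : ℕ) (l r : SK) : Prop where
  pos : 1 ≤ d
  ends : l = .e → r ≠ .e
  one : d = 1 → (l = .s ∨ r = .s) ∧ l ≠ .e ∧ r ≠ .e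
  zl : l = .z → 4 ≤ d
  zr : r = .z → 4 ≤ d

/-- the possible hinges of kind `x` between the rings `(d, l, x)` and `(d', x, l')` -/
structure HOK (x : SK) (d : ℕ) (l : SK) (d' : ℕ) (l' : SK) : Prop where
  ne : x ≠ .e
  left : ROK d l x
  right : ROK d' x l'
  abs : x = .s → 3 ≤ crs d l x ∨ 3 ≤ crs d' x l'
  one : x = .s → d ≤ 2 ∨ d' ≤ 2
  opp : x = .a → 2 ≤ d ∨ 2 ≤ d'

lemma crs_symm (d : ℕ) (l r : SK) : crs d l r = crs d r l := by
  unfold crs
  omega

lemma rty_symm (d : ℕ) (l r : SK) : rty d l r = rty d r l := by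
  unfold rty
  rw [crs_symm, add_comm l.na, add_comm l.ns]

lemma ROK.symm {d : ℕ} {l r : SK} (h : ROK d l r) : ROK d r l :=
  ⟨h.pos, fun h1 h2 => h.ends h2 h1, fun h1 => by
    obtain ⟨h2, h3, h4⟩ := h.one h1
    exact ⟨h2.symm, h4, h3⟩, h.zr, h.zl⟩

lemma HOK.symm {x : SK} {d : ℕ} {l : SK} {d' : ℕ} {l' : SK} (h : HOK x d l d' l') :
    HOK x d' l' d l := by
  refine ⟨h.ne, h.right.symm, h.left.symm, fun h1 => ?_, fun h1 => (h.one h1).symm,
    fun h1 => (h.opp h1).symm⟩
  rw [crs_symm d' l' x, crs_symm d x l]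
  exact (h.abs h1).symm

lemma ROK.crs_ge {d : ℕ} {l r : SK} (h : ROK d l r) : 2 ≤ crs d l r := by
  have h1 := h.pos
  unfold crs
  rcases h1.eq_or_lt with h2 | h2
  · rcases (h.one h2.symm).1 with h3 | h3 <;> rw [h3] <;> simp only [SK.u] <;> omega
  · omega

namespace SR

variable {M : ℕ} (b : Fin (M + 1) → ℤ)

/-- the digit without its sign -/
def dg (n : ℕ) : ℕ := (bb b n).natAbs

/-- the kind of the right side of the ring `n` -/
def rk (n : ℕ) : SK :=
  if M ≤ n then .e else if us b (n + 1) then .s else if 0 < bb b n * bb b (n + 1) then .z else .a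

/-- the kind of the left side of the ring `n` -/
def lk (n : ℕ) : SK :=
  if n = 0 then .e else if us b (n - 1) then .s else if 0 < bb b n * bb b (n - 1) then .z else .a

variable {b}

lemma rk_e {n : ℕ} (h : M ≤ n) : rk b n = .e := by
  unfold rk
  rw [if_pos h]

lemma rk_s {n : ℕ} (h : n < M) (hu : us b (n + 1) = true) : rk b n = .s := by
  unfold rk
  rw [if_neg (by omega), if_pos hu]

lemma rk_f {n : ℕ} (h : n < M) (hu : us b (n + 1) = false) :
    rk b n = if 0 < bb b n * bb b (n + 1) then .z else .a := by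
  unfold rk
  rw [if_neg (by omega), if_neg (by rw [hu]; decide)]

lemma lk_e : lk b 0 = .e := by
  unfold lk
  rw [if_pos rfl]

lemma lk_s {n : ℕ} (h : 0 < n) (hu : us b (n - 1) = true) : lk b n = .s := by
  unfold lk
  rw [if_neg (by omega), if_pos hu]

lemma lk_f {n : ℕ} (h : 0 < n) (hu : us b (n - 1) = false) :
    lk b n = if 0 < bb b n * bb b (n - 1) then .z else .a := by
  unfold lk
  rw [if_neg (by omega), if_neg (by rw [hu]; decide)]

lemma rk_ne_e {n : ℕ} (h : n < M) : rk b n ≠ .e := by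
  unfold rk
  rw [if_neg (by omega)]
  split_ifs <;> decide

lemma lk_ne_e {n : ℕ} (h : 0 < n) : lk b n ≠ .e := by
  unfold lk
  rw [if_neg (by omega)]
  split_ifs <;> decide

variable (hb : ClassW b)
include hb

/-- the two rings at a hinge see the same kind -/
lemma lk_rn {n : ℕ} (h : n < M) (hu : us b n = false) : lk b (rn b n) = rk b n := by
  have h1 := rn_spec hb h hu
  by_cases h2 : us b (n + 1) = true
  · have h3 : rn b n = n + 2 := by
      unfold rn
      rw [if_pos h2]
    rw [h3, rk_s h h2, lk_s (by omega) (by rwa [show n + 2 - 1 = n + 1 by omega])]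
  · rw [Bool.not_eq_true] at h2
    have h3 : rn b n = n + 1 := by
      unfold rn
      rw [if_neg (by rw [h2]; decide)]
    rw [h3, rk_f h h2, lk_f (by omega) (by rwa [show n + 1 - 1 = n by omega]),
      show n + 1 - 1 = n by omega, mul_comm]

lemma rk_ln {n : ℕ} (h : 0 < n) (hu : us b n = false) (hn : n ≤ M) : rk b (ln b n) = lk b n := by
  have h1 := ln_spec hb h hu
  have h2 := lk_rn hb (n := ln b n) (by omega) h1.2.1
  rw [h1.2.2] at h2
  exact h2.symm

/-- an unsplit hinge has a right digit of at least `2` -/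
lemma two_le_right {n : ℕ} (h : n < M) (hu : us b n = false) (hu' : us b (n + 1) = false) :
    2 ≤ dg b (n + 1) := by
  have h0 : (bb b (n + 1)).natAbs ≠ 0 := Int.natAbs_ne_zero.2 (bb_ne hb (by omega))
  unfold dg
  by_contra hc
  have h1 : (bb b (n + 1)).natAbs = 1 := by omega
  have h2 := us_succ (b := b) n
  rw [decide_eq_true h1, hu, hu'] at h2
  simp at h2

/-- a ring with the digit `±1` has an absorbed digit on its left -/
lemma us_of_one {n : ℕ} (hn : n ≤ M) (hu : us b n = false) (h1 : dg b n = 1) :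
    0 < n ∧ us b (n - 1) = true := by
  unfold dg at h1
  have hn0 : n ≠ 0 := by
    rintro rfl
    have := bb_zero hb
    omega
  obtain ⟨m, rfl⟩ := Nat.exists_eq_succ_of_ne_zero hn0
  refine ⟨by omega, ?_⟩
  rw [show m.succ - 1 = m by omega]
  by_contra hc
  rw [Bool.not_eq_true] at hc
  have := two_le_right hb (n := m) (by omega) hc hu
  unfold dg at this
  simp only [Nat.succ_eq_add_one] at h1
  omega

lemma rk_z {n : ℕ} (h : rk b n = .z) : n < M ∧ us b (n + 1) = false ∧ 4 ≤ dg b n ∧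
    4 ≤ dg b (n + 1) ∧ 0 < bb b n * bb b (n + 1) := by
  unfold rk at h
  split_ifs at h with h1 h2 h3
  have h4 := bb_same hb (by omega) h3
  exact ⟨by omega, by simpa using h2, h4.1, h4.2, h3⟩

lemma lk_z {n : ℕ} (h : lk b n = .z) (hn : n ≤ M) : 0 < n ∧ us b (n - 1) = false ∧ 4 ≤ dg b n ∧
    4 ≤ dg b (n - 1) ∧ 0 < bb b n * bb b (n - 1) := by
  unfold lk at h
  split_ifs at h with h1 h2 h3
  obtain ⟨m, rfl⟩ := Nat.exists_eq_succ_of_ne_zero h1
  simp only [Nat.succ_eq_add_one] at *
  have h4 := bb_same hb (n := m) (by omega) (by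
    rw [mul_comm]
    rwa [show m + 1 - 1 = m by omega] at h3)
  refine ⟨by omega, by simpa using h2, h4.2, ?_, h3⟩
  rw [show m + 1 - 1 = m by omega]
  exact h4.1

/-- the rings of a word are possible -/
theorem rok {n : ℕ} (hn : n ≤ M) (hu : us b n = false) (hM : 1 ≤ M) :
    ROK (dg b n) (lk b n) (rk b n) := by
  have h0 : (bb b n).natAbs ≠ 0 := Int.natAbs_ne_zero.2 (bb_ne hb hn)
  refine ⟨by unfold dg; omega, ?_, ?_, fun h => (lk_z hb h hn).2.2.1, fun h => (rk_z hb h).2.2.1⟩
  · intro h1 h2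
    have h3 : n = 0 := by
      by_contra hc
      exact lk_ne_e (by omega) h1
    have h4 : M ≤ n := by
      by_contra hc
      exact rk_ne_e (by omega) h2
    omega
  · intro h1
    obtain ⟨h2, h3⟩ := us_of_one hb hn hu h1
    have h4 : n < M := by
      by_contra hc
      have h5 : n = M := by omega
      have := bb_last hb
      unfold dg at h1
      rw [h5] at h1
      omega
    exact ⟨Or.inl (lk_s h2 h3), lk_ne_e h2, rk_ne_e h4⟩

/-- the hinges of a word are possible -/
theorem hok {n : ℕ} (hn : n < M) (hu : us b n = false) :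
    HOK (rk b n) (dg b n) (lk b n) (dg b (rn b n)) (rk b (rn b n)) := by
  have h1 := rn_spec hb hn hu
  have hM : 1 ≤ M := by omega
  have r1 := rok hb hn.le hu hM
  have r2 := rok hb h1.2.1 h1.2.2.1 hM
  rw [lk_rn hb hn hu] at r2
  refine ⟨rk_ne_e hn, r1, r2, fun h => Or.inl ?_, fun h => ?_, fun h => Or.inr ?_⟩
  · rw [h]
    unfold crs
    have h2 : 0 < (bb b n).natAbs := Nat.pos_of_ne_zero (Int.natAbs_ne_zero.2 (bb_ne hb hn.le))
    by_cases h3 : dg b n = 1
    · obtain ⟨h4, h5⟩ := us_of_one hb hn.le hu h3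
      rw [lk_s h4 h5, h3]
      simp only [SK.u]
      omega
    · have : 2 ≤ dg b n := by unfold dg at h3 ⊢; omega
      simp only [SK.u]
      omega
  · have h2 : us b (n + 1) = true := by
      by_contra hc
      rw [Bool.not_eq_true] at hc
      rw [rk_f hn hc] at h
      split_ifs at h
    have h3 : rn b n = n + 2 := by
      unfold rn
      rw [if_pos h2]
    have h4 := (us_true h2).2.1
    have h5 := us_lt hb h2
    rw [h3]
    unfold dg
    rw [bb_lt (by omega : n + 1 < M + 1)] at h4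
    rw [bb_lt (by omega : n < M + 1), bb_lt (by omega : n + 2 < M + 1)]
    exact hb.one n (by omega) h4
  · have h2 : us b (n + 1) = false := by
      by_contra hc
      rw [Bool.not_eq_false] at hc
      rw [rk_s hn hc] at h
      exact absurd h (by decide)
    have h3 : rn b n = n + 1 := by
      unfold rn
      rw [if_neg (by rw [h2]; decide)]
    rw [h3]
    exact two_le_right hb hn hu h2

/-- relative signs -/
lemma sg_rk {n : ℕ} (hn : n < M) (hu : us b n = false) :
    sg b n * sg b (rn b n) = (rk b n).sgn := by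
  have h1 := rn_spec hb hn hu
  have h0 := bb_ne hb hn.le
  have h0' := bb_ne hb h1.2.1
  have hp : 0 < bb b n * bb b (rn b n) → sg b n * sg b (rn b n) = 1 := by
    intro h2
    unfold sg
    rcases lt_or_gt_of_ne h0 with h5 | h5
    · have h6 : bb b (rn b n) < 0 := by nlinarith
      rw [if_neg (by omega), if_neg (by omega)]
      norm_num
    · have h6 : 0 < bb b (rn b n) := (mul_pos_iff_of_pos_left h5).1 h2
      rw [if_pos h5, if_pos h6]
      norm_num
  have hm : ¬ 0 < bb b n * bb b (rn b n) → sg b n * sg b (rn b n) = -1 := by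
    intro h2
    unfold sg
    rcases lt_or_gt_of_ne h0 with h5 | h5
    · have h6 : 0 < bb b (rn b n) := by
        by_contra hc
        have : bb b (rn b n) < 0 := by omega
        exact h2 (mul_pos_of_neg_of_neg h5 this)
      rw [if_neg (by omega), if_pos h6]
      norm_num
    · have h6 : bb b (rn b n) < 0 := by
        by_contra hc
        have : 0 < bb b (rn b n) := by omega
        exact h2 (mul_pos h5 this)
      rw [if_pos h5, if_neg (by omega)]
      norm_num
  by_cases h2 : us b (n + 1) = true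
  · have h3 : rn b n = n + 2 := by
      unfold rn
      rw [if_pos h2]
    rw [rk_s hn h2]
    exact hp (by rw [h3]; exact sign_across hb h2)
  · rw [Bool.not_eq_true] at h2
    have h3 : rn b n = n + 1 := by
      unfold rn
      rw [if_neg (by rw [h2]; decide)]
    rw [rk_f hn h2]
    rw [← h3]
    split_ifs with h4
    · exact hp h4
    · exact hm h4

lemma lr_lk (n : ℕ) : lr b n = match lk b n with
    | .e => .e | .a => .a | .z => .s | .s => .s := by
  by_cases h0 : n = 0
  · subst h0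
    rw [lk_e, lr_zero]
  · have h0' : 0 < n := by omega
    rw [lr_eq h0']
    by_cases h2 : us b (n - 1) = true
    · rw [lk_s h0' h2]
      have h3 : ln b n = n - 2 := by
        unfold ln
        rw [if_pos h2]
      have h4 := us_lt hb h2
      obtain ⟨m, rfl⟩ : ∃ m, n = m + 2 := ⟨n - 2, by omega⟩
      rw [show m + 2 - 1 = m + 1 by omega] at h2
      have := sign_across hb h2
      rw [h3, show m + 2 - 2 = m by omega, mul_comm, if_pos this]
    · rw [Bool.not_eq_true] at h2
      have h3 : ln b n = n - 1 := by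
        unfold ln
        rw [if_neg (by rw [h2]; decide)]
      rw [lk_f h0' h2, h3]
      split_ifs <;> rfl

lemma rr_rk (n : ℕ) : rr b n = match rk b n with
    | .e => .e | .a => .a | .z => .s | .s => .s := by
  by_cases h0 : M ≤ n
  · rw [rk_e h0]
    unfold rr
    rw [if_pos h0]
  · have h0' : n < M := by omega
    rw [rr_eq h0']
    by_cases h2 : us b (n + 1) = true
    · rw [rk_s h0' h2]
      have h3 : rn b n = n + 2 := by
        unfold rn
        rw [if_pos h2]
      rw [h3, if_pos (sign_across hb h2)]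
    · rw [Bool.not_eq_true] at h2
      have h3 : rn b n = n + 1 := by
        unfold rn
        rw [if_neg (by rw [h2]; decide)]
      rw [rk_f h0' h2, h3]
      split_ifs <;> rfl

theorem BB_crs {n : ℕ} (hn : n ≤ M) (hu : us b n = false) :
    BB b n = crs (dg b n) (lk b n) (rk b n) := by
  unfold BB crs dg
  congr 1
  · congr 1
    by_cases h0 : n = 0
    · subst h0
      rw [lk_e]
      rfl
    · by_cases h2 : us b (n - 1) = true
      · rw [lk_s (by omega) h2, h2]
        rfl
      · rw [Bool.not_eq_true] at h2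
        rw [lk_f (by omega) h2, h2]
        split_ifs <;> rfl
  · by_cases h0 : M ≤ n
    · rw [rk_e h0, us_of_ge hb (by omega)]
      rfl
    · by_cases h2 : us b (n + 1) = true
      · rw [rk_s (by omega) h2, h2]
        rfl
      · rw [Bool.not_eq_true] at h2
        rw [rk_f (by omega) h2, h2]
        split_ifs <;> rfl

theorem ty_rty {n : ℕ} (hn : n ≤ M) (hu : us b n = false) :
    ty b n = rty (dg b n) (lk b n) (rk b n) := by
  unfold ty rty
  rw [BB_crs hb hn hu]
  unfold na ns
  rw [lr_lk hb, rr_rk hb]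
  cases lk b n <;> cases rk b n <;> rfl

end SR

/-! ### the ring relations before the splitting -/

namespace SR

variable {M : ℕ} {b : Fin (M + 1) → ℤ} {w : ℕ → ℂ}
variable (hb : ClassW b) (F : RingFacts) (hw : Sol b w)
include hb F hw

/-- the ring relation of an inner ring before the splitting -/
theorem merged_inner {n : ℕ} (h0 : 0 < n) (hn : n < M) (hu : us b n = false) :
    RE (jj (bb b n)) (BB b n) (R0 b w (ln b n)) (R0 b w n) (tau b w n) := by
  have h1 := ln_spec hb h0 hu
  have h1' := rn_spec hb hn hu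
  have h6 := hw.hingeL (ln b n) (by omega) h1.2.1
  rw [h1.2.2] at h6
  have h7 : 0 < (RR (w n) (Complex.cos (w (ln b n)))).re := by
    unfold r0 at h6
    linarith
  have h2 := RE_of_QQ (sg_or (b := b) n) (w := w n) (k := Complex.cos (w (ln b n)))
    (k' := Complex.cos (w (rn b n))) h7 (R0_re hw hn hu) (hw.re0 n hn.le hu).le
    (hw.re1 n hn.le hu).le (cos_ne F hw hn.le hu) (cos_re F hw (by omega) h1.2.1)
    (cos_re F hw h1'.2.1 h1'.2.2.1) (hw.inner n h0 hn hu)
  rw [← jj_sg, left_hinge hb F hw h0 hn.le hu] at h2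
  exact h2

/-- the ring relation of the first ring before the splitting -/
theorem merged_first (hM : 1 ≤ M) : RE1 (jj (bb b 0)) (BB b 0) (R0 b w 0) (tau b w 0) := by
  have hu : us b 0 = false := rfl
  have h1 := rn_spec hb (n := 0) (by omega) hu
  have h2 := RE1_of_QQ (sg_or (b := b) 0) (w := w 0) (k := Complex.cos (w (rn b 0)))
    (R0_re hw (by omega) hu) (hw.re0 0 (by omega) hu).le (hw.re1 0 (by omega) hu).le
    (cos_ne F hw (by omega) hu) (cos_re F hw h1.2.1 h1.2.2.1) hw.first
  rw [← jj_sg] at h2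
  exact h2

/-- the ring relation of the last ring before the splitting -/
theorem merged_last (hM : 1 ≤ M) :
    RE1 (jj (bb b M)) (BB b M) (R0 b w (ln b M)) (tau b w M) := by
  have hu : us b M = false := us_of_ge hb le_rfl
  have h1 := ln_spec hb (n := M) (by omega) hu
  have hlM : ln b M < M := h1.1
  have h6 := hw.hingeL (ln b M) hlM h1.2.1
  rw [h1.2.2] at h6
  have h7 : 0 < (RR (w M) (Complex.cos (w (ln b M)))).re := by
    unfold r0 at h6
    linarith
  have h2 := RE1_of_QQ (sg_or (b := b) M) (w := w M) (k := Complex.cos (w (ln b M)))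
    h7 (hw.re0 M le_rfl hu).le (hw.re1 M le_rfl hu).le
    (cos_ne F hw le_rfl hu) (cos_re F hw (by omega) h1.2.1) hw.last
  rw [← jj_sg, left_hinge hb F hw (by omega) le_rfl hu] at h2
  exact h2

end SR

namespace SR

/-! ### families of sets -/

/-- a family of sets for the ring values: digit, kinds of the two sides -/
structure KFam where
  K : ℕ → SK → SK → Set ℂ
  symm : ∀ d l r, K d l r = K d r l

/-- the typed polygons -/
def K0 : KFam where
  K d l r := PolyU (vt (rty d l r))
  symm d l r := by rw [rty_symm]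

/-- the possible values of the neighbour of kind `x` of a ring with the digit `d₀` and `B`
crossings -/
def port (K : KFam) (d₀ B : ℕ) : SK → Option (Set ℂ)
  | .e => none
  | .a => some (frS (-1) {k | ∃ d l, ROK d l .a ∧ (2 ≤ d₀ ∨ 2 ≤ d) ∧ k ∈ K.K d l .a})
  | .z => some {k | ∃ d l, ROK d l .z ∧ k ∈ K.K d l .z}
  | .s => some {k | ∃ d l, ROK d l .s ∧ (3 ≤ B ∨ 3 ≤ crs d l .s) ∧ (d₀ ≤ 2 ∨ d ≤ 2) ∧
      k ∈ K.K d l .s}

/-- the equation of a ring with the hinge `R`, the own value `q = 1 / k ^ 2`, the value `q'` at the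
hinge `R` and the set `P` of the values on the other side -/
def Out (j : ℂ) (B : ℕ) (R q q' : ℂ) : Option (Set ℂ) → Prop
  | none => DB j B R q = 0
  | some S => ∃ k ∈ S, k ^ 2 * (4 * q' * q ^ B) = DB j B R q ^ 2

/-- the data of a hinge of kind `x` between the rings `(d, l, x)` and `(d', x, l')`, in the frame of
the first ring -/
structure HDt (K : KFam) (x : SK) (d : ℕ) (l : SK) (d' : ℕ) (l' : SK) (R k k' : ℂ) : Prop where
  ok : HOK x d l d' l'
  Rre : r0 < R.re
  kre : 0 < k.re
  kre' : 0 < k'.re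
  mem : k ∈ K.K d l x
  mem' : k' ∈ frS x.sgn (K.K d' x l')
  hinge : R ^ 2 + 1 = 1 / k ^ 2 + 1 / k' ^ 2
  out : Out I (crs d l x) R (1 / k ^ 2) (1 / k' ^ 2) (port K d (crs d l x) l)
  out' : Out (x.sgn * I) (crs d' x l') R (1 / k' ^ 2) (1 / k ^ 2)
    ((port K d' (crs d' x l') l').map (frS x.sgn))

/-- the data of an inner ring in its own frame; neighbours `(dl, ll, l)` and `(dr, r, lr)` -/
structure RDt (K : KFam) (d : ℕ) (l r : SK) (dl : ℕ) (ll : SK) (dr : ℕ) (rr : SK)
    (w kl kr : ℂ) : Prop where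
  left : HDt K l d r dl ll (RR w kl) (Complex.cos w) kl
  right : HDt K r d l dr rr (RR w kr) (Complex.cos w) kr
  w0 : 0 < w.re
  w1 : w.re < 3 / 2
  wi : |w.im| < 2
  eq : (crs d l r : ℂ) * w - Real.pi + I * (QQ w kl + QQ w kr) = 0

/-- the data of an end ring in its own frame; neighbour `(dr, r, rr)` -/
structure RDe (K : KFam) (d : ℕ) (r : SK) (dr : ℕ) (rr : SK) (w kr : ℂ) : Prop where
  right : HDt K r d .e dr rr (RR w kr) (Complex.cos w) kr
  w0 : 0 < w.re
  w1 : w.re < 3 / 2
  wi : |w.im| < 2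
  eq : (crs d .e r : ℂ) * w - Real.pi + I * QQ w kr = 0

/-! ### algebra -/

lemma Out.conj {j : ℂ} {B : ℕ} {R q q' : ℂ} {P : Option (Set ℂ)} (h : Out j B R q q' P) :
    Out (conj j) B (conj R) (conj q) (conj q') (P.map (frS (-1))) := by
  cases P with
  | none =>
    simp only [Out, Option.map_none] at h ⊢
    rw [DB_conj, h, map_zero]
  | some S =>
    simp only [Out, Option.map_some] at h ⊢
    obtain ⟨k, hk, h2⟩ := h
    refine ⟨conj k, ?_, ?_⟩
    · rw [frS_neg]
      show conj (conj k) ∈ S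
      rwa [Complex.conj_conj]
    · have h4 : (starRingEnd ℂ) 4 = 4 := map_ofNat (starRingEnd ℂ) 4
      have h5 := congrArg (starRingEnd ℂ) h2
      rw [DB_conj]
      simpa only [map_mul, map_pow, h4] using h5

lemma Out.mono {j : ℂ} {B : ℕ} {R q q' : ℂ} {S S' : Set ℂ} (h : Out j B R q q' (some S))
    (hS : S ⊆ S') : Out j B R q q' (some S') := by
  obtain ⟨k, hk, h2⟩ := h
  exact ⟨k, hS hk, h2⟩

lemma map_frS_one (P : Option (Set ℂ)) : P.map (frS 1) = P := by
  have : frS 1 = id := by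
    funext K
    rw [frS_one]
    rfl
  rw [this, Option.map_id]
  rfl

lemma map_frS_frS {s : ℝ} (hs : s = 1 ∨ s = -1) (P : Option (Set ℂ)) :
    (P.map (frS s)).map (frS s) = P := by
  cases P with
  | none => rfl
  | some S =>
    simp only [Option.map_some]
    rw [frS_frS hs]

lemma fz_mul {s t : ℝ} (hs : s = 1 ∨ s = -1) (ht : t = 1 ∨ t = -1) (z : ℂ) :
    fz (s * t) z = fz s (fz t z) := by
  rcases hs with rfl | rfl <;> rcases ht with rfl | rfl
  · rw [mul_one, fz_one, fz_one]
  · rw [one_mul, fz_one]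
  · rw [mul_one, fz_one]
  · rw [show (-1 : ℝ) * -1 = 1 by norm_num, fz_one, fz_neg, fz_neg, Complex.conj_conj]

lemma frS_mul {s t : ℝ} (hs : s = 1 ∨ s = -1) (ht : t = 1 ∨ t = -1) (K : Set ℂ) :
    frS (s * t) K = frS s (frS t K) := by
  rcases hs with rfl | rfl <;> rcases ht with rfl | rfl
  · rw [mul_one, frS_one, frS_one]
  · rw [one_mul, frS_one]
  · rw [mul_one, frS_one]
  · rw [show (-1 : ℝ) * -1 = 1 by norm_num, frS_frS (Or.inr rfl), frS_one]

lemma map_frS_mul {s t : ℝ} (hs : s = 1 ∨ s = -1) (ht : t = 1 ∨ t = -1) (P : Option (Set ℂ)) :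
    P.map (frS (s * t)) = (P.map (frS t)).map (frS s) := by
  cases P with
  | none => rfl
  | some S =>
    simp only [Option.map_some]
    rw [frS_mul hs ht]

lemma fz_mem' {s : ℝ} (hs : s = 1 ∨ s = -1) {K : Set ℂ} {z : ℂ} (h : z ∈ frS s K) :
    fz s z ∈ K := by
  have := fz_mem hs hs h
  rcases hs with rfl | rfl
  · rwa [one_mul, frS_one] at this
  · rwa [show (-1 : ℝ) * -1 = 1 by norm_num, frS_one] at this

lemma mem_frS {s : ℝ} (hs : s = 1 ∨ s = -1) {K : Set ℂ} {z : ℂ} (h : z ∈ K) :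
    fz s z ∈ frS s K := by
  rcases hs with rfl | rfl
  · rwa [fz_one, frS_one]
  · rw [fz_neg, frS_neg]
    show conj (conj z) ∈ K
    rwa [Complex.conj_conj]

lemma Out.fz {s t : ℝ} (hs : s = 1 ∨ s = -1) {B : ℕ} {R q q' : ℂ}
    {P : Option (Set ℂ)} (h : Out (t * I) B R q q' P) :
    Out (((s * t : ℝ) : ℂ) * I) B (fz s R) (fz s q) (fz s q') (P.map (frS s)) := by
  rcases hs with rfl | rfl
  · rw [one_mul, fz_one, fz_one, fz_one, map_frS_one]
    exact h
  · have h2 := h.conj
    rw [map_mul, Complex.conj_I, Complex.conj_ofReal] at h2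
    rw [fz_neg, fz_neg, fz_neg]
    rw [show (((-1 * t : ℝ) : ℂ)) * I = (t : ℂ) * -I by push_cast; ring]
    exact h2

lemma fz_inv_sq {s : ℝ} (k : ℂ) : fz s (1 / k ^ 2) = 1 / fz s k ^ 2 := by
  unfold fz
  split_ifs
  · rfl
  · rw [map_div₀, map_pow, map_one]

/-- the reversed word -/
theorem HDt.rev {K : KFam} {x : SK} {d : ℕ} {l : SK} {d' : ℕ} {l' : SK} {R k k' : ℂ}
    (h : HDt K x d l d' l' R k k') :
    HDt K x d' l' d l (fz x.sgn R) (fz x.sgn k') (fz x.sgn k) := by
  have hs := x.sgn_or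
  have hss : x.sgn * x.sgn = 1 := by rcases hs with h | h <;> rw [h] <;> norm_num
  refine ⟨h.ok.symm, by rw [fz_re]; exact h.Rre, by rw [fz_re]; exact h.kre',
    by rw [fz_re]; exact h.kre, ?_, ?_, ?_, ?_, ?_⟩
  · rw [K.symm]
    exact fz_mem' hs h.mem'
  · rw [K.symm]
    exact mem_frS hs h.mem
  · have := congrArg (fz x.sgn) h.hinge
    rw [← fz_inv_sq, ← fz_inv_sq]
    rcases hs with h2 | h2
    · rw [h2, fz_one] at *
      rw [fz_one, fz_one] at *
      rw [h.hinge]
      ring
    · rw [h2, fz_neg] at *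
      rw [fz_neg, fz_neg] at *
      rw [← map_add, add_comm (1 / k' ^ 2), ← h.hinge, map_add, map_pow, map_one]
  · have h2 := h.out'.fz hs
    rw [hss, fz_inv_sq, fz_inv_sq, map_frS_frS hs, Complex.ofReal_one, one_mul] at h2
    rw [crs_symm]
    exact h2
  · have h1 := h.out
    rw [show I = ((1 : ℝ) : ℂ) * I by simp] at h1
    have h2 := h1.fz hs
    rw [mul_one, fz_inv_sq, fz_inv_sq] at h2
    rw [crs_symm]
    exact h2

/-! ### ring relations -/

lemma RE_neg {j : ℂ} {B : ℕ} {R R' τ : ℂ} (h : RE j B R R' (-τ)) : RE j B R R' τ := by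
  unfold RE at h ⊢
  rw [show R + -τ = R - τ by ring, show R' + -τ = R' - τ by ring, show R - -τ = R + τ by ring,
    show R' - -τ = R' + τ by ring, show 1 - j * -τ = 1 + j * τ by ring,
    show 1 + j * -τ = 1 - j * τ by ring] at h
  exact h.symm

lemma RE1_neg {j : ℂ} {B : ℕ} {R τ : ℂ} (h : RE1 j B R (-τ)) : RE1 j B R τ := by
  unfold RE1 at h ⊢
  rw [show R + -τ = R - τ by ring, show R - -τ = R + τ by ring, show 1 - j * -τ = 1 + j * τ by ring,
    show 1 + j * -τ = 1 - j * τ by ring] at h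
  exact h.symm

/-- splitting off one crossing of a ring with the value `k` at the hinge `R` -/
noncomputable def Sp (R k : ℂ) : ℂ := (I * R + (1 / k ^ 2 - 1)) / (R + I)

/-- the cotangent of the word hinge at a side of kind `x` of the ring with the value `k`; `R`: the
hinge before the splitting -/
noncomputable def Hq (x : SK) (R k : ℂ) : ℂ := if x = .s then Sp R k else R

lemma Hq_s (R k : ℂ) : Hq .s R k = Sp R k := by
  unfold Hq
  rw [if_pos rfl]

lemma Hq_of_ne {x : SK} (h : x ≠ .s) (R k : ℂ) : Hq x R k = R := by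
  unfold Hq
  rw [if_neg h]

lemma Rs_Sp {w : ℂ} (hc : Complex.cos w ≠ 0) (R : ℂ) :
    Rs I R (Complex.tan w) = Sp R (Complex.cos w) := by
  unfold Rs Sp
  rw [← one_add_tan_sq hc]
  congr 1
  ring

lemma add_I_ne {R : ℂ} (hR : r0 < R.re) : R + I ≠ 0 := by
  intro h
  have := congrArg Complex.re h
  simp only [Complex.add_re, Complex.I_re, Complex.zero_re] at this
  unfold r0 at hR
  linarith

/-- `(R₁ - i) (R + i) = 1 / k ^ 2` -/
lemma Sp_sub {R k : ℂ} (h : R + I ≠ 0) : (Sp R k - I) * (R + I) = 1 / k ^ 2 := by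
  unfold Sp
  rw [sub_mul, div_mul_cancel₀ _ h]
  linear_combination -Complex.I_mul_I

lemma Sp_ne_I {R k : ℂ} (h : R + I ≠ 0) (hk : k ≠ 0) : Sp R k ≠ I := by
  intro h2
  have h3 := Sp_sub (k := k) h
  rw [h2, sub_self, zero_mul] at h3
  exact one_div_ne_zero (pow_ne_zero 2 hk) h3.symm

lemma Hq_RE {x : SK} {B : ℕ} {R R' w : ℂ} (hR : r0 < R.re) (hc : Complex.cos w ≠ 0)
    (h : RE I (B + x.u) R R' (Complex.tan w)) :
    RE I B (Hq x R (Complex.cos w)) R' (Complex.tan w) := by
  cases x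
  · exact h
  · exact h
  · exact h
  · rw [Hq_s, ← Rs_Sp hc]
    exact RE_split Complex.I_mul_I (add_I_ne hR) h

lemma Hq_RE1 {x : SK} {B : ℕ} {R w : ℂ} (hR : r0 < R.re) (hc : Complex.cos w ≠ 0)
    (h : RE1 I (B + x.u) R (Complex.tan w)) :
    RE1 I B (Hq x R (Complex.cos w)) (Complex.tan w) := by
  cases x
  · exact h
  · exact h
  · exact h
  · rw [Hq_s, ← Rs_Sp hc]
    exact RE1_split Complex.I_mul_I (add_I_ne hR) h

section
variable {K : KFam} {d : ℕ} {l r : SK} {dl : ℕ} {ll : SK} {dr : ℕ} {rr : SK} {w kl kr : ℂ}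

lemma r0_pos : 0 < r0 := by
  unfold r0
  norm_num

lemma RDt.tan_re (h : RDt K d l r dl ll dr rr w kl kr) : 0 < (Complex.tan w).re :=
  tan_re_pos h.w0 h.w1.le

lemma RDt.cos_ne (h : RDt K d l r dl ll dr rr w kl kr) : Complex.cos w ≠ 0 :=
  cos_ne_of h.left.kre

/-- the ring relation before the splitting -/
theorem RDt.re (h : RDt K d l r dl ll dr rr w kl kr) :
    RE I (crs d l r) (RR w kl) (RR w kr) (Complex.tan w) := by
  have h2 := RE_of_QQ (B := crs d l r) (Or.inl rfl) (r0_pos.trans h.left.Rre)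
    (r0_pos.trans h.right.Rre) h.w0.le h.w1.le h.cos_ne h.left.kre' h.right.kre'
    (by rw [Complex.ofReal_one, mul_one]; exact h.eq)
  rw [Complex.ofReal_one, one_mul, neg_one_mul] at h2
  exact RE_neg h2

/-- the ring relation after the splitting -/
theorem RDt.reH (h : RDt K d l r dl ll dr rr w kl kr) :
    RE I d (Hq l (RR w kl) (Complex.cos w)) (Hq r (RR w kr) (Complex.cos w)) (Complex.tan w) := by
  have h2 := h.re
  unfold crs at h2
  have h3 := (Hq_RE h.right.Rre h.cos_ne h2.symm).symm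
  exact Hq_RE h.left.Rre h.cos_ne h3

lemma RDe.tan_re (h : RDe K d r dr rr w kr) : 0 < (Complex.tan w).re :=
  tan_re_pos h.w0 h.w1.le

lemma RDe.cos_ne (h : RDe K d r dr rr w kr) : Complex.cos w ≠ 0 :=
  cos_ne_of h.right.kre

theorem RDe.re (h : RDe K d r dr rr w kr) :
    RE1 I (crs d .e r) (RR w kr) (Complex.tan w) := by
  have h2 := RE1_of_QQ (B := crs d .e r) (Or.inl rfl) (r0_pos.trans h.right.Rre)
    h.w0.le h.w1.le h.cos_ne h.right.kre'
    (by rw [Complex.ofReal_one, mul_one]; exact h.eq)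
  rw [Complex.ofReal_one, one_mul, neg_one_mul] at h2
  exact RE1_neg h2

theorem RDe.reH (h : RDe K d r dr rr w kr) :
    RE1 I d (Hq r (RR w kr) (Complex.cos w)) (Complex.tan w) := by
  have h2 := h.re
  unfold crs at h2
  exact Hq_RE1 h.right.Rre h.cos_ne h2

end

/-! ### the data of a word -/

section word

variable {M : ℕ} {b : Fin (M + 1) → ℤ} {w : ℕ → ℂ}

/-- the family of sets contains the ring values of the word -/
def Snd (K : KFam) (b : Fin (M + 1) → ℤ) (w : ℕ → ℂ) : Prop :=
  ∀ n ≤ M, us b n = false → fz (sg b n) (Complex.cos (w n)) ∈ K.K (dg b n) (lk b n) (rk b n)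

lemma sg_mul_self (n : ℕ) : sg b n * sg b n = 1 := by
  rcases sg_or (b := b) n with h | h <;> rw [h] <;> norm_num

variable (hb : ClassW b) (F : RingFacts) (hw : Sol b w)
include hb hw

theorem snd_K0 : Snd K0 b w := by
  intro n hn hu
  have h := fz_mem' (sg_or (b := b) n) (hw.mem n hn hu)
  rw [ty_rty hb hn hu] at h
  exact h

omit hw in
/-- the value of the neighbour on the left lies in the port set -/
lemma mem_port_left {K : KFam} (hK : Snd K b w) {n : ℕ} (h0 : 0 < n) (hn : n ≤ M)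
    (hu : us b n = false) : ∃ S, port K (dg b n) (BB b n) (lk b n) = some S ∧
      fz (sg b n) (Complex.cos (w (ln b n))) ∈ S := by
  have h1 := ln_spec hb h0 hu
  have hM : 1 ≤ M := by omega
  have hl : ln b n < M := by omega
  have h2 := hK (ln b n) (by omega) h1.2.1
  have h3 := rok hb (n := ln b n) (by omega) h1.2.1 hM
  have h4 := sg_rk hb hl h1.2.1
  have h5 := hok hb hl h1.2.1
  rw [h1.2.2] at h4 h5
  rw [rk_ln hb h0 hu hn] at h2 h3 h4 h5
  have hB := BB_crs hb hn hu
  have hss : sg b n = (lk b n).sgn * sg b (ln b n) := by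
    rw [← h4]
    have := sg_mul_self (b := b) (ln b n)
    linear_combination (-sg b n) * this
  have hz : fz (sg b n) (Complex.cos (w (ln b n))) =
      fz (lk b n).sgn (fz (sg b (ln b n)) (Complex.cos (w (ln b n)))) := by
    rw [hss]
    exact fz_mul (SK.sgn_or _) (sg_or _) _
  rw [hz]
  cases hk : lk b n
  · exact absurd hk (lk_ne_e h0)
  · rw [hk] at h2 h3 h5
    exact ⟨_, rfl, mem_frS (Or.inr rfl) ⟨_, _, h3, (h5.opp rfl).symm, h2⟩⟩
  · rw [hk] at h2 h3
    refine ⟨_, rfl, ?_⟩
    show fz 1 _ ∈ _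
    rw [fz_one]
    exact ⟨_, _, h3, h2⟩
  · rw [hk] at h2 h3 h5
    refine ⟨_, rfl, ?_⟩
    show fz 1 _ ∈ _
    rw [fz_one]
    refine ⟨_, _, h3, ?_, (h5.one rfl).symm, h2⟩
    have := (h5.abs rfl).symm
    rwa [← hk, ← hB, hk] at this

omit hw in
/-- the value of the neighbour on the right lies in the port set -/
lemma mem_port_right {K : KFam} (hK : Snd K b w) {n : ℕ} (hn : n < M)
    (hu : us b n = false) : ∃ S, port K (dg b n) (BB b n) (rk b n) = some S ∧
      fz (sg b n) (Complex.cos (w (rn b n))) ∈ S := by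
  have h1 := rn_spec hb hn hu
  have hM : 1 ≤ M := by omega
  have h2 := hK (rn b n) h1.2.1 h1.2.2.1
  have h3 := (rok hb (n := rn b n) h1.2.1 h1.2.2.1 hM).symm
  have h4 := sg_rk hb hn hu
  have h5 := hok hb hn hu
  rw [lk_rn hb hn hu] at h3
  rw [lk_rn hb hn hu, K.symm] at h2
  have hB := BB_crs hb hn.le hu
  have hss : sg b n = (rk b n).sgn * sg b (rn b n) := by
    rw [← h4]
    have := sg_mul_self (b := b) (rn b n)
    linear_combination (-sg b n) * this
  have hz : fz (sg b n) (Complex.cos (w (rn b n))) =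
      fz (rk b n).sgn (fz (sg b (rn b n)) (Complex.cos (w (rn b n)))) := by
    conv_lhs => rw [hss]
    exact fz_mul (SK.sgn_or _) (sg_or _) _
  rw [hz]
  cases hk : rk b n
  · exact absurd hk (rk_ne_e hn)
  · rw [hk] at h2 h3 h5
    exact ⟨_, rfl, mem_frS (Or.inr rfl) ⟨_, _, h3, h5.opp rfl, h2⟩⟩
  · rw [hk] at h2 h3
    refine ⟨_, rfl, ?_⟩
    show fz 1 _ ∈ _
    rw [fz_one]
    exact ⟨_, _, h3, h2⟩
  · rw [hk] at h2 h3 h5
    refine ⟨_, rfl, ?_⟩
    show fz 1 _ ∈ _
    rw [fz_one]
    refine ⟨_, _, h3, ?_, h5.one rfl, h2⟩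
    have := h5.abs rfl
    rw [crs_symm (dg b (rn b n))] at this
    rwa [← hk, ← hB, hk] at this

include F

omit hb in
lemma cos_sq_tau {n : ℕ} (hn : n ≤ M) (hu : us b n = false) :
    1 / Complex.cos (w n) ^ 2 = 1 + tau b w n ^ 2 := by
  rw [tau_sq, one_add_tan_sq (cos_ne F hw hn hu)]

/-- the equation of the ring `n` at its right hinge -/
lemma out_left {K : KFam} (hK : Snd K b w) {n : ℕ} (hn : n < M) (hu : us b n = false) :
    Out ((sg b n : ℂ) * I) (BB b n) (R0 b w n) (1 / Complex.cos (w n) ^ 2)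
      (1 / Complex.cos (w (rn b n)) ^ 2) ((port K (dg b n) (BB b n) (lk b n)).map (frS (sg b n))) := by
  have h1' := rn_spec hb hn hu
  have hj := jj_sq (bb b n)
  have hτ := tau_ne hw hn.le hu
  have hq := cos_sq_tau F hw hn.le hu
  have hq' := cos_sq_tau F hw h1'.2.1 h1'.2.2.1
  by_cases h0 : n = 0
  · subst h0
    rw [lk_e]
    show DB _ _ _ _ = 0
    rw [← jj_sg]
    exact DB_zero hj hτ hq (merged_first hb F hw (by omega))
  · have h0' : 0 < n := by omega
    obtain ⟨S, hS, hm⟩ := mem_port_left hb hK h0' hn.le hu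
    have h1 := ln_spec hb h0' hu
    rw [hS]
    refine ⟨Complex.cos (w (ln b n)), ?_, ?_⟩
    · have := mem_frS (sg_or (b := b) n) hm
      rwa [fz_fz] at this
    · have hR := R0_sq hb F hw hn hu
      have hR' := R0_sq hb F hw (n := ln b n) (by omega) h1.2.1
      rw [h1.2.2] at hR'
      have hql := cos_sq_tau F hw (n := ln b n) (by omega) h1.2.1
      have h3 := DB_sq (q := 1 / Complex.cos (w n) ^ 2) (q' := 1 / Complex.cos (w (rn b n)) ^ 2)
        (q'' := 1 / Complex.cos (w (ln b n)) ^ 2) hj hτ hq (by rw [hq, hq', hR]; ring)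
        (by rw [hq, hql, hR']; ring) (merged_inner hb F hw h0' hn hu).symm
      have hc := cos_ne F hw (n := ln b n) (by omega) h1.2.1
      rw [← jj_sg, ← h3, ← mul_assoc, mul_one_div_cancel (pow_ne_zero 2 hc), one_mul]

/-- the equation of the ring `n` at its left hinge -/
lemma out_right {K : KFam} (hK : Snd K b w) {n : ℕ} (h0 : 0 < n) (hn : n ≤ M)
    (hu : us b n = false) :
    Out ((sg b n : ℂ) * I) (BB b n) (R0 b w (ln b n)) (1 / Complex.cos (w n) ^ 2)
      (1 / Complex.cos (w (ln b n)) ^ 2) ((port K (dg b n) (BB b n) (rk b n)).map (frS (sg b n))) := by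
  have h1 := ln_spec hb h0 hu
  have hj := jj_sq (bb b n)
  have hτ := tau_ne hw hn hu
  have hq := cos_sq_tau F hw hn hu
  have hql := cos_sq_tau F hw (n := ln b n) (by omega) h1.2.1
  by_cases hM : n = M
  · rw [rk_e (by omega)]
    show DB _ _ _ _ = 0
    rw [← jj_sg]
    have h2 : RE1 (jj (bb b n)) (BB b n) (R0 b w (ln b n)) (tau b w n) := by
      rw [hM]
      exact merged_last hb F hw (by omega)
    exact DB_zero hj hτ hq h2
  · have hM' : n < M := by omega
    obtain ⟨S, hS, hm⟩ := mem_port_right hb hK hM' hu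
    have h1' := rn_spec hb hM' hu
    rw [hS]
    refine ⟨Complex.cos (w (rn b n)), ?_, ?_⟩
    · have := mem_frS (sg_or (b := b) n) hm
      rwa [fz_fz] at this
    · have hR := R0_sq hb F hw hM' hu
      have hR' := R0_sq hb F hw (n := ln b n) (by omega) h1.2.1
      rw [h1.2.2] at hR'
      have hq' := cos_sq_tau F hw h1'.2.1 h1'.2.2.1
      have h3 := DB_sq (q := 1 / Complex.cos (w n) ^ 2) (q' := 1 / Complex.cos (w (ln b n)) ^ 2)
        (q'' := 1 / Complex.cos (w (rn b n)) ^ 2) hj hτ hq (by rw [hq, hql, hR']; ring)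
        (by rw [hq, hq', hR]; ring) (merged_inner hb F hw h0 hM' hu)
      have hc := cos_ne F hw h1'.2.1 h1'.2.2.1
      rw [← jj_sg, ← h3, ← mul_assoc, mul_one_div_cancel (pow_ne_zero 2 hc), one_mul]

/-- **The data of every hinge of a word**, in the frame of its left ring. -/
theorem hdt {K : KFam} (hK : Snd K b w) {n : ℕ} (hn : n < M) (hu : us b n = false) :
    HDt K (rk b n) (dg b n) (lk b n) (dg b (rn b n)) (rk b (rn b n)) (fz (sg b n) (R0 b w n))
      (fz (sg b n) (Complex.cos (w n))) (fz (sg b n) (Complex.cos (w (rn b n)))) := by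
  have h1 := rn_spec hb hn hu
  have hs := sg_or (b := b) n
  have hs' := sg_or (b := b) (rn b n)
  have hrs := sg_rk hb hn hu
  refine ⟨hok hb hn hu, by rw [fz_re]; exact hw.hingeR n hn hu,
    by rw [fz_re]; exact cos_re F hw hn.le hu, by rw [fz_re]; exact cos_re F hw h1.2.1 h1.2.2.1,
    hK n hn.le hu, ?_, ?_, ?_, ?_⟩
  · have h2 := hK (rn b n) h1.2.1 h1.2.2.1
    rw [lk_rn hb hn hu] at h2
    have h3 := mem_frS (SK.sgn_or (rk b n)) h2
    rw [← fz_mul (SK.sgn_or _) hs', ← hrs, mul_assoc, sg_mul_self, mul_one] at h3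
    rwa [← hrs]
  · have hR := R0_sq hb F hw hn hu
    have hq := cos_sq_tau F hw hn.le hu
    have hq' := cos_sq_tau F hw h1.2.1 h1.2.2.1
    have h2 : R0 b w n ^ 2 + 1 = 1 / Complex.cos (w n) ^ 2 + 1 / Complex.cos (w (rn b n)) ^ 2 := by
      rw [hq, hq', hR]
      ring
    have h3 := congrArg (fz (sg b n)) h2
    rw [← fz_inv_sq, ← fz_inv_sq]
    rcases hs with h4 | h4
    · rw [h4] at h3 ⊢
      simpa only [fz_one] using h3
    · rw [h4] at h3 ⊢
      simpa only [fz_neg, map_add, map_pow, map_one] using h3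
  · have h2 := (out_left hb F hw hK hn hu).fz hs
    rw [sg_mul_self, fz_inv_sq, fz_inv_sq, map_frS_frS hs, Complex.ofReal_one, one_mul,
      BB_crs hb hn.le hu] at h2
    exact h2
  · have h2 := (out_right hb F hw hK (n := rn b n) (by omega) h1.2.1 h1.2.2.1).fz hs
    rw [h1.2.2.2, hrs, fz_inv_sq, fz_inv_sq, BB_crs hb h1.2.1 h1.2.2.1,
      lk_rn hb hn hu] at h2
    rw [← hrs] at h2 ⊢
    rw [map_frS_mul hs hs']
    exact h2

end word

/-! ### rings of a word -/

section word2

variable {M : ℕ} {b : Fin (M + 1) → ℤ} {w : ℕ → ℂ}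

lemma fz_cos {s : ℝ} (z : ℂ) : fz s (Complex.cos z) = Complex.cos (fz s z) := by
  unfold fz
  split_ifs
  · rfl
  · exact (Complex.cos_conj z).symm

/-- splitting in the own frame -/
lemma fz_Rs (n : ℕ) (R : ℂ) : fz (sg b n) (Rs (jj (bb b n)) R (tau b w n)) =
    Rs I (fz (sg b n) R) (Complex.tan (fz (sg b n) (w n))) := by
  rw [jj_sg]
  unfold tau
  rcases sg_or (b := b) n with h | h
  · rw [h]
    simp only [fz_one]
    push_cast
    rw [one_mul, neg_one_mul, Rs_neg]
  · rw [h]
    simp only [fz_neg]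
    rw [← Rs_conj, Complex.tan_conj]
    simp

variable (hb : ClassW b) (F : RingFacts) (hw : Sol b w)

include F hw in
/-- splitting in the own frame -/
lemma fz_Sp {n : ℕ} (hn : n ≤ M) (hu : us b n = false) (R : ℂ) :
    fz (sg b n) (Rs (jj (bb b n)) R (tau b w n)) =
      Sp (fz (sg b n) R) (fz (sg b n) (Complex.cos (w n))) := by
  have hc : Complex.cos (fz (sg b n) (w n)) ≠ 0 := by
    rw [← fz_cos]
    intro h
    have h2 := cos_re F hw hn hu
    rw [← fz_re (sg b n), h] at h2
    exact lt_irrefl _ h2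
  rw [fz_Rs, Rs_Sp hc, fz_cos]

include F hw in
/-- the word hinge on the right of a ring -/
lemma fz_Rh_right {n : ℕ} (hn : n < M) (hu : us b n = false) :
    fz (sg b n) (Rh b w n) =
      Hq (rk b n) (fz (sg b n) (R0 b w n)) (fz (sg b n) (Complex.cos (w n))) := by
  by_cases h2 : us b (n + 1) = true
  · rw [Rh_true h2, rk_s hn h2, Hq_s, fz_Sp F hw hn.le hu]
  · rw [Bool.not_eq_true] at h2
    rw [Rh_false h2 hu, Hq_of_ne]
    rw [rk_f hn h2]
    split_ifs <;> decide

include hb F hw in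
/-- the word hinge on the left of a ring -/
lemma fz_Rh_left {n : ℕ} (h0 : 0 < n) (hn : n ≤ M) (hu : us b n = false) :
    fz (sg b n) (Rh b w (n - 1)) =
      Hq (lk b n) (fz (sg b n) (R0 b w (ln b n))) (fz (sg b n) (Complex.cos (w n))) := by
  by_cases h2 : us b (n - 1) = true
  · have h4 := us_lt hb h2
    obtain ⟨m, rfl⟩ : ∃ m, n = m + 2 := ⟨n - 2, by omega⟩
    have hl : ln b (m + 2) = m := by
      unfold ln
      rw [if_pos h2]
      omega
    have h2' := h2
    rw [show m + 2 - 1 = m + 1 by omega] at h2' ⊢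
    rw [Rh_left h2', lk_s (by omega) h2, hl, Hq_s, fz_Sp F hw hn hu]
  · rw [Bool.not_eq_true] at h2
    have hl : ln b n = n - 1 := by
      unfold ln
      rw [if_neg (by rw [h2]; decide)]
    rw [Rh_false (n := n - 1) (by rwa [show n - 1 + 1 = n by omega]) h2, hl, Hq_of_ne]
    rw [lk_f h0 h2]
    split_ifs <;> decide

include hw in
/-- the hinge of the left side in terms of the ring -/
lemma fz_R0_right {n : ℕ} (hn : n < M) (hu : us b n = false) :
    fz (sg b n) (R0 b w n) = RR (fz (sg b n) (w n)) (fz (sg b n) (Complex.cos (w (rn b n)))) := by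
  rcases sg_or (b := b) n with h | h
  · rw [h]
    simp only [fz_one]
    rfl
  · rw [h]
    simp only [fz_neg]
    rw [RR_conj (R0_re hw hn hu)]
    rfl

include hb F hw in
lemma fz_R0_left {n : ℕ} (h0 : 0 < n) (hn : n ≤ M) (hu : us b n = false) :
    fz (sg b n) (R0 b w (ln b n)) =
      RR (fz (sg b n) (w n)) (fz (sg b n) (Complex.cos (w (ln b n)))) := by
  have h1 := ln_spec hb h0 hu
  have hl := left_hinge hb F hw h0 hn hu
  have hR : 0 < (RR (w n) (Complex.cos (w (ln b n)))).re := by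
    rw [hl]
    exact R0_re hw (by omega) h1.2.1
  rw [← hl]
  rcases sg_or (b := b) n with h | h
  · rw [h]
    simp only [fz_one]
  · rw [h]
    simp only [fz_neg]
    rw [RR_conj hR]

lemma fz_QQ {s : ℝ} (hs : s = 1 ∨ s = -1) {w k : ℂ} (h : 0 < (RR w k).re) (h0 : 0 ≤ w.re)
    (h1 : w.re ≤ 3 / 2) (hk : 0 < k.re) : QQ (fz s w) (fz s k) = fz s (QQ w k) := by
  rcases hs with rfl | rfl
  · simp only [fz_one]
  · simp only [fz_neg]
    exact QQ_conj h h0 h1 hk

/-- the ring equation in the own frame -/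
lemma fz_eq {s : ℝ} (hs : s = 1 ∨ s = -1) {B : ℕ} {w Q : ℂ}
    (h : (B : ℂ) * w - Real.pi + I * s * Q = 0) :
    (B : ℂ) * fz s w - Real.pi + I * fz s Q = 0 := by
  rcases hs with rfl | rfl
  · simp only [fz_one]
    push_cast at h
    rw [mul_one] at h
    exact h
  · simp only [fz_neg]
    have h2 := congrArg (starRingEnd ℂ) h
    simp only [map_add, map_sub, map_mul, Complex.conj_ofReal, Complex.conj_natCast,
      Complex.conj_I, map_zero] at h2
    push_cast at h2
    linear_combination h2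

lemma fz_add {s : ℝ} (x y : ℂ) : fz s (x + y) = fz s x + fz s y := by
  unfold fz
  split_ifs
  · rfl
  · exact map_add _ _ _

lemma fz_abs_im (s : ℝ) (z : ℂ) : |(fz s z).im| = |z.im| := by
  unfold fz
  split_ifs
  · rfl
  · rw [Complex.conj_im, abs_neg]

include hb F hw

/-- the left hinge of a ring, seen from the ring -/
theorem hdt_left {K : KFam} (hK : Snd K b w) {n : ℕ} (h0 : 0 < n) (hn : n ≤ M)
    (hu : us b n = false) :
    HDt K (lk b n) (dg b n) (rk b n) (dg b (ln b n)) (lk b (ln b n))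
      (RR (fz (sg b n) (w n)) (fz (sg b n) (Complex.cos (w (ln b n)))))
      (Complex.cos (fz (sg b n) (w n))) (fz (sg b n) (Complex.cos (w (ln b n)))) := by
  have h1 := ln_spec hb h0 hu
  have h2 := (hdt hb F hw hK (n := ln b n) (by omega) h1.2.1).rev
  have hrs := sg_rk hb (n := ln b n) (by omega) h1.2.1
  rw [h1.2.2] at h2 hrs
  rw [rk_ln hb h0 hu hn] at h2 hrs
  have hss : (lk b n).sgn * sg b (ln b n) = sg b n := by
    rw [← hrs]
    have := sg_mul_self (b := b) (ln b n)
    linear_combination (sg b n) * this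
  rw [← fz_mul (SK.sgn_or _) (sg_or _), ← fz_mul (SK.sgn_or _) (sg_or _),
    ← fz_mul (SK.sgn_or _) (sg_or _), hss, fz_R0_left hb F hw h0 hn hu, fz_cos (w n)] at h2
  exact h2

/-- the right hinge of a ring, seen from the ring -/
theorem hdt_right {K : KFam} (hK : Snd K b w) {n : ℕ} (hn : n < M) (hu : us b n = false) :
    HDt K (rk b n) (dg b n) (lk b n) (dg b (rn b n)) (rk b (rn b n))
      (RR (fz (sg b n) (w n)) (fz (sg b n) (Complex.cos (w (rn b n)))))
      (Complex.cos (fz (sg b n) (w n))) (fz (sg b n) (Complex.cos (w (rn b n)))) := by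
  have h2 := hdt hb F hw hK hn hu
  rw [fz_R0_right hw hn hu, fz_cos (w n)] at h2
  exact h2

/-- **The data of an inner ring of a word.** -/
theorem rdt {K : KFam} (hK : Snd K b w) {n : ℕ} (h0 : 0 < n) (hn : n < M) (hu : us b n = false) :
    RDt K (dg b n) (lk b n) (rk b n) (dg b (ln b n)) (lk b (ln b n)) (dg b (rn b n))
      (rk b (rn b n)) (fz (sg b n) (w n)) (fz (sg b n) (Complex.cos (w (ln b n))))
      (fz (sg b n) (Complex.cos (w (rn b n)))) := by
  have h1 := ln_spec hb h0 hu
  have h1' := rn_spec hb hn hu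
  have hs := sg_or (b := b) n
  have hl := left_hinge hb F hw h0 hn.le hu
  have hR : 0 < (RR (w n) (Complex.cos (w (ln b n)))).re := by
    rw [hl]
    exact R0_re hw (by omega) h1.2.1
  refine ⟨hdt_left hb F hw hK h0 hn.le hu, hdt_right hb F hw hK hn hu,
    by rw [fz_re]; exact hw.re0 n hn.le hu, by rw [fz_re]; exact hw.re1 n hn.le hu,
    by rw [fz_abs_im]; exact hw.im n hn.le hu, ?_⟩
  rw [fz_QQ hs hR (hw.re0 n hn.le hu).le (hw.re1 n hn.le hu).le (cos_re F hw (by omega) h1.2.1),
    fz_QQ hs (R0_re hw hn hu) (hw.re0 n hn.le hu).le (hw.re1 n hn.le hu).le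
      (cos_re F hw h1'.2.1 h1'.2.2.1), ← fz_add, ← BB_crs hb hn.le hu]
  exact fz_eq hs (hw.inner n h0 hn hu)

/-- **The data of the first ring of a word.** -/
theorem rde_first {K : KFam} (hK : Snd K b w) (hM : 1 ≤ M) :
    RDe K (dg b 0) (rk b 0) (dg b (rn b 0)) (rk b (rn b 0)) (fz (sg b 0) (w 0))
      (fz (sg b 0) (Complex.cos (w (rn b 0)))) := by
  have hu : us b 0 = false := rfl
  have hn : 0 < M := hM
  have h1' := rn_spec hb hn hu
  have hs := sg_or (b := b) 0
  have h2 := hdt_right hb F hw hK hn hu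
  rw [lk_e] at h2
  refine ⟨h2,
    by rw [fz_re]; exact hw.re0 0 hn.le hu, by rw [fz_re]; exact hw.re1 0 hn.le hu,
    by rw [fz_abs_im]; exact hw.im 0 hn.le hu, ?_⟩
  rw [fz_QQ hs (R0_re hw hn hu) (hw.re0 0 hn.le hu).le (hw.re1 0 hn.le hu).le
      (cos_re F hw h1'.2.1 h1'.2.2.1)]
  have h3 := BB_crs hb hn.le hu
  rw [lk_e] at h3
  rw [← h3]
  exact fz_eq hs hw.first

/-- **The data of the last ring of a word.** -/
theorem rde_last {K : KFam} (hK : Snd K b w) (hM : 1 ≤ M) :
    RDe K (dg b M) (lk b M) (dg b (ln b M)) (lk b (ln b M)) (fz (sg b M) (w M))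
      (fz (sg b M) (Complex.cos (w (ln b M)))) := by
  have hu : us b M = false := us_of_ge hb le_rfl
  have h0 : 0 < M := hM
  have h1 := ln_spec hb h0 hu
  have hs := sg_or (b := b) M
  have h2 := hdt_left hb F hw hK h0 le_rfl hu
  rw [rk_e le_rfl] at h2
  have hl := left_hinge hb F hw h0 le_rfl hu
  have hR : 0 < (RR (w M) (Complex.cos (w (ln b M)))).re := by
    rw [hl]
    exact R0_re hw (by omega) h1.2.1
  refine ⟨h2,
    by rw [fz_re]; exact hw.re0 M le_rfl hu, by rw [fz_re]; exact hw.re1 M le_rfl hu,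
    by rw [fz_abs_im]; exact hw.im M le_rfl hu, ?_⟩
  rw [fz_QQ hs hR (hw.re0 M le_rfl hu).le (hw.re1 M le_rfl hu).le
      (cos_re F hw (by omega) h1.2.1)]
  have h3 := BB_crs hb le_rfl hu
  rw [rk_e le_rfl, crs_symm] at h3
  rw [← h3]
  exact fz_eq hs hw.last

end word2

end SR

end Pool.Agent.Work.MP_b30479_gt.G2
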