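import Pool.Agent.Work.MP_b30479_gt.G2.SWordI
import Pool.Agent.Work.MP_b30479_gt.G2.WLoc

/-!
# The location table of a word from box statements about single hinges and rings
-/

namespace Pool.Agent.Work.MP_b30479_gt.G2

open Complex Set Filter Topology VOL
open scoped ComplexConjugate

namespace SR

/-- the class of the ring with the digit `d` whose other side has the kind `l` -/
def cK (d : ℕ) (l : SK) : Cl :=
  if d = 1 then .one else if d = 2 then (if l = .e then .twoE else .two)
  else if d = 3 then (if l = .e then .threeE else .three) else .ring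

/-- The box statements about single hinges and rings. -/
structure BoxRows (K : KFam) : Prop where
  /-- hinges which are not split -/
  un : ∀ {x d l d' l' R k k'}, x ≠ .s → HDt K x d l d' l' R k k' →
    (hbox (cK d l) (cK d' l') (decide (x = .z))).In (acot2 R)
  /-- split hinges, in the frame of the ring -/
  sp : ∀ {d l d' l' R k k'}, HDt K .s d l d' l' R k k' →
    (hbox (cK d l) .one false).In (acot2 (Sp R k)) ∧ (acot2 (Sp R k)).re < 1 / 2
  mid : ∀ {l r dl ll dr rr w kl kr}, RDt K 3 l r dl ll dr rr w kl kr →
    (mbox (if l = .s then .one else cK dl ll)).In (mH l (RR w kl) (Complex.cos w))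
  midE : ∀ {r dr rr w kr}, RDe K 3 r dr rr w kr →
    mboxE.In (mH r (RR w kr) (Complex.cos w))
  ring : ∀ {d l r dl ll dr rr w kl kr}, 4 ≤ d → RDt K d l r dl ll dr rr w kl kr →
    (zbox d false).In (zeta w) ∧ 0 < (zeta w).im
  ringE : ∀ {d r dr rr w kr}, 4 ≤ d → RDe K d r dr rr w kr →
    (zbox d true).In (zeta w) ∧ 0 < (zeta w).im

/-- the box of a hinge of kind `x` in the frame of the first ring -/
noncomputable def kbox (x : SK) (d : ℕ) (l : SK) (d' : ℕ) (l' : SK) : Box :=
  if x = .s then hbox (cK d l) .one false else hbox (cK d l) (cK d' l') (decide (x = .z))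

lemma BoxRows.box {K : KFam} (Bx : BoxRows K) {x : SK} {d : ℕ} {l : SK} {d' : ℕ} {l' : SK}
    {R k k' : ℂ} (h : HDt K x d l d' l' R k k') : (kbox x d l d' l').In (yH x R k) := by
  unfold kbox yH
  by_cases hx : x = .s
  · subst hx
    rw [if_pos rfl, Hq_s]
    exact (Bx.sp h).1
  · rw [if_neg hx, Hq_of_ne hx]
    exact Bx.un hx h

/-- all boxes lie in `[0, 1/2]` -/
lemma hbox_le (A B : Cl) (s : Bool) : 16 / 100 ≤ (hbox A B s).x0 ∧ (hbox A B s).x1 ≤ 1 / 2 := by
  cases A <;> cases B <;> cases s <;> norm_num [hbox]

lemma hbox_lt {A B : Cl} (s : Bool) (h : A ≠ .one ∨ B ≠ .one) : (hbox A B s).x1 < 1 / 2 := by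
  by_cases h2 : A = .one ∧ B = .one
  · obtain ⟨rfl, rfl⟩ := h2
    exact absurd rfl (h.elim id id)
  · revert h2
    cases A <;> cases B <;> cases s <;> norm_num [hbox]

lemma BoxRows.half {K : KFam} (Bx : BoxRows K) {x : SK} {d : ℕ} {l : SK} {d' : ℕ} {l' : SK}
    {R k k' : ℂ} (h : HDt K x d l d' l' R k k') :
    0 < (yH x R k).re ∧ (yH x R k).re < 1 / 2 := by
  have h1 := Bx.box h
  unfold kbox at h1
  by_cases hx : x = .s
  · subst hx
    rw [if_pos rfl] at h1
    have h2 := hbox_le (cK d l) .one false
    refine ⟨by linarith [h1.1, h2.1], ?_⟩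
    unfold yH
    rw [Hq_s]
    exact (Bx.sp h).2
  · rw [if_neg hx] at h1
    have h2 := hbox_le (cK d l) (cK d' l') (decide (x = .z))
    refine ⟨by linarith [h1.1, h2.1], ?_⟩
    have h3 : cK d l ≠ .one ∨ cK d' l' ≠ .one := by
      by_contra hc
      push Not at hc
      have e1 : d = 1 := by
        by_contra hd
        have := hc.1
        unfold cK at this
        split_ifs at this
      have e2 : d' = 1 := by
        by_contra hd
        have := hc.2
        unfold cK at this
        split_ifs at this
      cases x
      · exact h.ok.ne rfl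
      · have := h.ok.opp rfl
        omega
      · have := h.ok.left.zr rfl
        omega
      · exact hx rfl
    linarith [h1.2.1, hbox_lt (decide (x = .z)) h3]

section word5

variable {M : ℕ} {b : Fin (M + 1) → ℤ} {w : ℕ → ℂ}

lemma ofr_fz {i : Fin (M + 1)} (z : ℂ) : ofr (b i) z = fz (sg b i.val) z := by
  unfold ofr fz sg
  rw [bb_val]
  by_cases h : 0 < b i
  · rw [if_pos h, if_pos h, if_pos rfl]
  · rw [if_neg h, if_neg h, if_neg (by norm_num)]

lemma clsW_eq {i : Fin (M + 1)} (l : SK) (hl : l = .e ↔ (i.val = 0 ∨ i.val = M)) :
    clsW b i = cK (dg b i.val) l := by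
  unfold clsW cls cK
  rw [dg_val]
  have he : isEnd i = true ↔ l = .e := by
    unfold isEnd
    rw [decide_eq_true_iff, hl]
    constructor
    · rintro (h | h)
      · left; rw [h]; rfl
      · right; rw [h]; rfl
    · rintro (h | h)
      · left; exact Fin.ext h
      · right; exact Fin.ext h
  by_cases h : l = .e
  · simp only [he.2 h, h, if_true]
  · have h2 : isEnd i = false := by
      rw [← Bool.not_eq_true]
      exact fun h3 => h (he.1 h3)
    simp only [h2, h, Bool.false_eq_true, if_false]

lemma hbox_one_right (A : Cl) (s : Bool) : hbox A .one s = hbox A .one false := by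
  cases A <;> cases s <;> rfl

lemma hbox_one_left (A : Cl) (s : Bool) : hbox .one A s = hbox .one A false := by
  cases A <;> cases s <;> rfl

lemma clsW_one {i : Fin (M + 1)} (h : (b i).natAbs = 1) : clsW b i = .one := by
  unfold clsW cls
  rw [if_pos h]

variable (hb : ClassW b) (F : RingFacts) (hw : Sol b w)
include hb F hw

/-- the hinges of the word in their boxes -/
theorem hinge_box {K : KFam} (hK : Snd K b w) (Bx : BoxRows K) (h : Fin M) :
    (hbox (clsW b h.castSucc) (clsW b h.succ) (ssW b h)).In
      (ofr (b h.castSucc) (zsW b w (.inl (.inl h)))) ∧ (zsW b w (.inl (.inl h))).re < 1 / 2 := by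
  have hn := h.2
  have hc : h.castSucc.val = h.val := rfl
  have hs' : h.succ.val = h.val + 1 := by simp
  have ez : zsW b w (.inl (.inl h)) = acot2 (Rh b w h.val) := rfl
  rw [ez, ofr_fz, hc]
  by_cases hu : us b h.val = true
  · -- the left region is an absorbed digit
    obtain ⟨h1, h2, h3, h4⟩ := us_true hu
    have hH := hdt_left hb F hw hK (n := h.val + 1) (by omega) (by omega) h4
    have hk : lk b (h.val + 1) = .s := lk_s (by omega) (by rwa [show h.val + 1 - 1 = h.val by omega])
    rw [hk] at hH
    have hB := Bx.sp hH
    have ey := own_y_left hb F hw (n := h.val + 1) (by omega) (by omega) h4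
    rw [show h.val + 1 - 1 = h.val by omega, hk] at ey
    unfold yH at ey
    rw [Hq_s] at ey
    have e1 : (b h.castSucc).natAbs = 1 := by
      rw [← bb_val (b := b)]
      exact h2
    have e2 : clsW b h.succ = cK (dg b (h.val + 1)) (rk b (h.val + 1)) := by
      rw [← hs']
      refine clsW_eq _ ?_
      rw [hs']
      constructor
      · intro h5
        right
        by_contra hc
        exact rk_ne_e (by omega) h5
      · rintro (h5 | h5)
        · omega
        · exact rk_e (by omega)
    have hop : sg b h.val = -sg b (h.val + 1) := by
      have h5 := us_lt hb hu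
      have h6 := bb_opp hb (n := h.val) (by omega) (Or.inl (by omega))
      unfold sg
      rcases lt_or_gt_of_ne (bb_ne hb (by omega : h.val ≤ M)) with h7 | h7
      · have h8 : 0 < bb b (h.val + 1) := by
          by_contra hc
          have := mul_nonneg_of_nonpos_of_nonpos h7.le (not_lt.1 hc)
          omega
        rw [if_neg (by omega), if_pos h8]
      · have h8 : ¬ 0 < bb b (h.val + 1) := by
          intro hc
          have := mul_pos h7 hc
          omega
        rw [if_pos h7, if_neg h8, neg_neg]
    have ef : fz (sg b h.val) (acot2 (Rh b w h.val)) =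
        conj (fz (sg b (h.val + 1)) (acot2 (Rh b w h.val))) := by
      rw [hop]
      rcases sg_or (b := b) (h.val + 1) with h5 | h5
      · rw [h5, fz_neg, fz_one]
      · rw [h5, neg_neg, fz_neg, fz_one, Complex.conj_conj]
    rw [clsW_one e1, e2, hbox_one_left, hbox_swap, ef, Box.in_neg, ey]
    refine ⟨hB.1, ?_⟩
    rw [← fz_re (sg b (h.val + 1)), ey]
    exact hB.2
  · rw [Bool.not_eq_true] at hu
    have e1 : clsW b h.castSucc = cK (dg b h.val) (lk b h.val) := by
      have := clsW_eq (b := b) (i := h.castSucc) (lk b h.val) (by
        rw [hc]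
        constructor
        · intro h5
          left
          by_contra hc
          exact lk_ne_e (by omega) h5
        · rintro (h5 | h5)
          · rw [h5]
            exact lk_e
          · omega)
      rw [hc] at this
      exact this
    have hH := hdt_right hb F hw hK (n := h.val) hn hu
    have ey := own_y_right F hw (n := h.val) hn hu
    have hhalf := Bx.half hH
    have hy : (acot2 (Rh b w h.val)).re =
        (yH (rk b h.val) (RR (oW b w h.val) (oR b w h.val)) (Complex.cos (oW b w h.val))).re := by
      rw [← ey, fz_re]
    refine ⟨?_, by rw [hy]; exact hhalf.2⟩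
    rw [ey, e1]
    by_cases h1 : us b (h.val + 1) = true
    · have hk := rk_s hn h1
      rw [hk] at hH ⊢
      have hB := (Bx.sp hH).1
      have e2 : (b h.succ).natAbs = 1 := by
        rw [← bb_val (b := b), hs']
        exact (us_true h1).2.1
      rw [clsW_one e2, hbox_one_right]
      unfold yH
      rw [Hq_s]
      exact hB
    · rw [Bool.not_eq_true] at h1
      have hrn : rn b h.val = h.val + 1 := by
        unfold rn
        rw [if_neg (by rw [h1]; decide)]
      have hns : rk b h.val ≠ .s := by
        rw [rk_f hn h1]
        split_ifs <;> decide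
      have hB := Bx.un hns hH
      have e2 : clsW b h.succ = cK (dg b (rn b h.val)) (rk b (rn b h.val)) := by
        rw [hrn, ← hs']
        refine clsW_eq _ ?_
        rw [hs']
        constructor
        · intro h5
          right
          by_contra hc
          exact rk_ne_e (by omega) h5
        · rintro (h5 | h5)
          · omega
          · exact rk_e (by omega)
      have e3 : ssW b h = decide (rk b h.val = .z) := by
        unfold ssW
        rw [rk_f hn h1, ← bb_val (b := b), ← bb_val (b := b), hc, hs']
        by_cases h5 : 0 < bb b h.val * bb b (h.val + 1)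
        · simp [h5]
        · simp [h5]
      rw [e2, e3]
      unfold yH
      rw [Hq_of_ne hns]
      exact hB

/-- **The location table of a word.** -/
theorem loc_of_boxes (hM : 1 ≤ M) {K : KFam} (hK : Snd K b w) (Bx : BoxRows K) :
    Loc b (zsW b w) := by
  have hmid : ∀ m : {i : Fin (M + 1) // (tyW b i).isMid = true}, (b m.1).natAbs = 3 := by
    rintro ⟨i, hm⟩
    show (b i).natAbs = 3
    have hm' := hm
    unfold tyW at hm'
    split_ifs at hm' with h1 h2 h3 h4
    · exact absurd hm' (by decide)
    · exact absurd hm' (by decide)
    · exact h3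
    · exact h3
    · exact absurd hm' (by decide)
  have hringd : ∀ v : ZZ (tyW b), 4 ≤ (b v.1).natAbs := by
    rintro ⟨i, hm⟩
    show 4 ≤ (b i).natAbs
    have h0 := hb.ne i
    have hm' := hm
    unfold tyW at hm'
    split_ifs at hm' with h1 h2 h3 h4
    · exact absurd hm' (by decide)
    · exact absurd hm' (by decide)
    · exact absurd hm' (by decide)
    · exact absurd hm' (by decide)
    · omega
  have hring : ∀ v : ZZ (tyW b), (zbox (b v.1).natAbs (isEnd v.1)).In (zeta (oW b w v.1.val)) ∧
      0 < (zeta (oW b w v.1.val)).im := by
    intro v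
    have h4 := hringd v
    have hi := v.1.2
    have hu : us b v.1.val = false := us_of_abs (by omega)
    have hd := dg_val (b := b) v.1
    by_cases h0 : v.1.val = 0
    · have e : isEnd v.1 = true := by
        unfold isEnd
        rw [decide_eq_true_iff]
        exact Or.inl (Fin.ext h0)
      rw [e]
      have hE : RDe K (dg b 0) (rk b 0) (dg b (rn b 0)) (rk b (rn b 0)) (oW b w 0) (oR b w 0) :=
        rde_first hb F hw hK hM
      rw [h0] at hd
      have := Bx.ringE (by omega) hE
      rw [hd] at this
      rw [h0]
      exact this
    · by_cases h1 : v.1.val = M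
      · have e : isEnd v.1 = true := by
          unfold isEnd
          rw [decide_eq_true_iff]
          exact Or.inr (Fin.ext h1)
        rw [e]
        have hE : RDe K (dg b v.1.val) (lk b v.1.val) (dg b (ln b v.1.val))
            (lk b (ln b v.1.val)) (oW b w v.1.val) (oL b w v.1.val) := by
          unfold oW oL
          rw [h1]
          exact rde_last hb F hw hK hM
        have := Bx.ringE (by omega) hE
        rw [hd] at this
        exact this
      · have e : isEnd v.1 = false := by
          unfold isEnd
          rw [decide_eq_false_iff_not]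
          rintro (h5 | h5)
          · exact h0 (by rw [h5]; rfl)
          · exact h1 (by rw [h5]; rfl)
        rw [e]
        have hE : RDt K (dg b v.1.val) (lk b v.1.val) (rk b v.1.val) (dg b (ln b v.1.val))
            (lk b (ln b v.1.val)) (dg b (rn b v.1.val)) (rk b (rn b v.1.val)) (oW b w v.1.val)
            (oL b w v.1.val) (oR b w v.1.val) := rdt hb F hw hK (by omega) (by omega) hu
        have := Bx.ring (by omega) hE
        rw [hd] at this
        exact this
  have hzs : ∀ v : ZZ (tyW b), zsW b w (.inr v) =
      if sg b v.1.val = 1 then zeta (oW b w v.1.val) else -conj (zeta (oW b w v.1.val)) := by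
    intro v
    exact zeta_own v.1.val
  refine ⟨fun h => (hinge_box hb F hw hK Bx h).1, fun h => (hinge_box hb F hw hK Bx h).2,
    ?_, ?_, ?_, ?_⟩
  · intro m he h hm
    have h3 := hmid m
    have hi := m.1.2
    have hv : m.1.val = h.val + 1 := by
      rw [← hm]
      simp
    have hh := h.2
    have hd := dg_val (b := b) m.1
    rw [h3] at hd
    have hM' : m.1.val < M := by
      by_contra hc
      have : isEnd m.1 = true := by
        unfold isEnd
        rw [decide_eq_true_iff]
        exact Or.inr (Fin.ext (by show m.1.val = M; omega))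
      rw [he] at this
      exact absurd this (by decide)
    have h0 : 0 < m.1.val := by omega
    have hu : us b m.1.val = false := us_of_abs (by omega)
    have hE : RDt K (dg b m.1.val) (lk b m.1.val) (rk b m.1.val) (dg b (ln b m.1.val))
        (lk b (ln b m.1.val)) (dg b (rn b m.1.val)) (rk b (rn b m.1.val)) (oW b w m.1.val)
        (oL b w m.1.val) (oR b w m.1.val) := rdt hb F hw hK h0 hM' hu
    rw [hd] at hE
    have hB := Bx.mid hE
    have ez : zsW b w (.inl (.inr m)) = acot2 (Rm b w m.1.val) := rfl
    rw [ez, ofr_fz, ← acot2_fz, own_mid hb F hw h0 hM'.le hu]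
    have ec : clsW b h.castSucc = if lk b m.1.val = .s then .one
        else cK (dg b (ln b m.1.val)) (lk b (ln b m.1.val)) := by
      have hc : h.castSucc.val = h.val := rfl
      by_cases h5 : us b (m.1.val - 1) = true
      · rw [if_pos (lk_s h0 h5)]
        apply clsW_one
        rw [← bb_val (b := b), hc]
        have := (us_true h5).2.1
        rwa [show m.1.val - 1 = h.val by omega] at this
      · rw [Bool.not_eq_true] at h5
        have hln : ln b m.1.val = h.val := by
          unfold ln
          rw [if_neg (by rw [h5]; decide)]
          omega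
        rw [if_neg (by rw [lk_f h0 h5]; split_ifs <;> decide), hln]
        have := clsW_eq (b := b) (i := h.castSucc) (lk b h.val) (by
          rw [hc]
          constructor
          · intro h6
            left
            by_contra hc
            exact lk_ne_e (by omega) h6
          · rintro (h6 | h6)
            · rw [h6]
              exact lk_e
            · omega)
        rw [hc] at this
        exact this
    rw [ec]
    exact hB
  · intro m he
    have h3 := hmid m
    have hi := m.1.2
    have hd := dg_val (b := b) m.1
    rw [h3] at hd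
    have hu : us b m.1.val = false := us_of_abs (by omega)
    have ez : zsW b w (.inl (.inr m)) = acot2 (Rm b w m.1.val) := rfl
    rw [ez, ofr_fz, ← acot2_fz]
    by_cases h0 : m.1.val = 0
    · rw [h0] at hd ⊢
      rw [own_mid0 F hw hM]
      have hE : RDe K (dg b 0) (rk b 0) (dg b (rn b 0)) (rk b (rn b 0)) (oW b w 0) (oR b w 0) :=
        rde_first hb F hw hK hM
      rw [hd] at hE
      exact Bx.midE hE
    · have h1 : m.1.val = M := by
        unfold isEnd at he
        rw [decide_eq_true_iff] at he
        rcases he with he | he
        · exact absurd (by rw [he]; rfl) h0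
        · rw [he]
          rfl
      rw [own_mid hb F hw (by omega) (by omega) hu]
      have hE : RDe K (dg b m.1.val) (lk b m.1.val) (dg b (ln b m.1.val))
          (lk b (ln b m.1.val)) (oW b w m.1.val) (oL b w m.1.val) := by
        unfold oW oL
        rw [h1]
        exact rde_last hb F hw hK hM
      rw [hd] at hE
      exact Bx.midE hE
  · intro v
    have h1 := (hring v).1
    have e : ofz (b v.1) (zsW b w (.inr v)) = zeta (oW b w v.1.val) := by
      rw [hzs]
      unfold ofz sg
      rw [bb_val (b := b)]
      by_cases h : 0 < b v.1
      · rw [if_pos h, if_pos h, if_pos rfl]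
      · rw [if_neg h, if_neg h, if_neg (by norm_num), map_neg, neg_neg, Complex.conj_conj]
    rw [e]
    exact h1
  · intro v
    have h2 := (hring v).2
    rw [hzs]
    split_ifs
    · exact h2
    · rw [Complex.neg_im, Complex.conj_im, neg_neg]
      exact h2

end word5

end SR

end Pool.Agent.Work.MP_b30479_gt.G2
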