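import Pool.Agent.Work.MP_b30479_gt.G2.PnBd
import Pool.Agent.Work.MP_b30479_gt.VC.AbelPlana

/-!
# Derivatives of `UU` along paths
-/

namespace Pool.Agent.Work.MP_b30479_gt.G2

open Finset VOL Filter Topology

theorem continuousAt_Tr {ρ x : ℝ} (hρ : 0 < ρ) :
    ContinuousAt (fun p : ℝ × ℝ => DT.Tr p.1 p.2) (ρ, x) := by
  have h1 : (fun p : ℝ × ℝ => DT.Tr p.1 p.2) =
      fun p => Real.pi * p.2 - (Complex.log (1 - DT.LrDer.qq p.1 p.2)).im := by
    funext p
    rw [DT.LrDer.Tr_eq]
  rw [h1]
  have h2 : Continuous fun p : ℝ × ℝ => 1 - DT.LrDer.qq p.1 p.2 := by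
    unfold DT.LrDer.qq
    fun_prop
  have h3 := (h2.continuousAt (x := (ρ, x))).clog (DT.LrDer.one_sub_qq_mem hρ)
  exact (by fun_prop : Continuous fun p : ℝ × ℝ => Real.pi * p.2).continuousAt.sub
    (Complex.continuous_im.continuousAt.comp h3)

theorem continuousAt_el {ρ x : ℝ} (hρ : ρ ≠ 0) :
    ContinuousAt (fun p : ℝ × ℝ => DT.el p.1 p.2) (ρ, x) := by
  unfold DT.el
  have h2 : Continuous fun p : ℝ × ℝ =>
      2 * Real.cosh (2 * Real.pi * p.1) - 2 * Real.cos (2 * Real.pi * p.2) := by
    fun_prop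
  exact ((h2.continuousAt (x := (ρ, x))).log (DT.el_arg_pos hρ).ne').div_const _

/-- joint derivative of `Lr` -/
theorem hasDerivAt_Lr_comp {r X : ℝ → ℝ} {r' X' t : ℝ} (hr : HasDerivAt r r' t)
    (hX : HasDerivAt X X' t) (h0 : 0 < r t) :
    HasDerivAt (fun t => DT.Lr (r t) (X t)) (r' * DT.Tr (r t) (X t) + X' * DT.el (r t) (X t)) t := by
  have hev : ∀ᶠ v : ℝ × ℝ in 𝓝 (r t, X t), 0 < v.1 :=
    continuous_fst.continuousAt.eventually (lt_mem_nhds h0)
  have key := hasStrictFDerivAt_uncurry_coprod (𝕜 := ℝ) (u := (r t, X t)) (f := DT.Lr)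
    (f₁ := fun ρ x => ContinuousLinearMap.toSpanSingleton ℝ (DT.Tr ρ x))
    (f₂ := fun ρ x => ContinuousLinearMap.toSpanSingleton ℝ (DT.el ρ x))
    (by
      filter_upwards [hev] with v hv
      exact (DT.hasDerivAt_Lr_left hv).hasFDerivAt)
    (by
      filter_upwards [hev] with v hv
      exact (DT.hasDerivAt_Lr hv).hasFDerivAt)
    (by
      have := (ContinuousLinearMap.toSpanSingletonCLE (𝕜 := ℝ) (E := ℝ)).continuous.continuousAt.comp
        (continuousAt_Tr (x := X t) h0)
      exact this)
    (by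
      have := (ContinuousLinearMap.toSpanSingletonCLE (𝕜 := ℝ) (E := ℝ)).continuous.continuousAt.comp
        (continuousAt_el (x := X t) h0.ne')
      exact this)
  have h1 := key.hasFDerivAt.comp_hasDerivAt t (hr.prodMk hX)
  refine h1.congr_deriv ?_
  simp [ContinuousLinearMap.coprod_apply, Function.HasUncurry.uncurry]

/-- the derivative of `UU` in the horizontal direction -/
noncomputable def LL (u : ℂ) : ℝ := DT.el |u.im| u.re

/-- the derivative of `UU` in the vertical direction -/
noncomputable def YY (u : ℂ) : ℝ :=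
  if 0 < u.im then DT.Tr u.im u.re - Real.pi / 2
  else if u.im < 0 then -(DT.Tr (-u.im) u.re - Real.pi / 2) else 0

theorem LL_eq (u : ℂ) : LL u = Real.log ‖2 * Complex.sin (Real.pi * u)‖ := by
  have h1 : DT.el |u.im| u.re = DT.el u.im u.re := by
    unfold DT.el
    rcases abs_choice u.im with h | h <;> rw [h]
    rw [mul_neg, Real.cosh_neg]
  rw [LL, h1, DT.el_eq, Complex.re_add_im]

theorem LL_eq' (u : ℂ) : LL u =
    Real.log (2 * Real.cosh (2 * Real.pi * u.im) - 2 * Real.cos (2 * Real.pi * u.re)) / 2 := by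
  have h1 : DT.el |u.im| u.re = DT.el u.im u.re := by
    unfold DT.el
    rcases abs_choice u.im with h | h <;> rw [h]
    rw [mul_neg, Real.cosh_neg]
  rw [LL, h1]
  rfl

/-- derivative of `UU` along a curve, away from the real axis -/
theorem hasDerivAt_UU_im {g : ℝ → ℂ} {d : ℂ} {t : ℝ} (hg : HasDerivAt g d t) (h0 : (g t).im ≠ 0) :
    HasDerivAt (fun t => UU (g t)) (d.re * LL (g t) + d.im * YY (g t)) t := by
  have hre : HasDerivAt (fun t => (g t).re) d.re t :=
    Complex.reCLM.hasFDerivAt.comp_hasDerivAt t hg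
  have him : HasDerivAt (fun t => (g t).im) d.im t :=
    Complex.imCLM.hasFDerivAt.comp_hasDerivAt t hg
  rcases lt_or_gt_of_ne h0 with h | h
  · have h1 := hasDerivAt_Lr_comp him.fun_neg hre (by linarith : 0 < -(g t).im)
    have h2 := h1.sub ((him.fun_neg.const_mul Real.pi).div_const 2)
    have hev : (fun t => UU (g t)) =ᶠ[𝓝 t] fun t => DT.Lr (-(g t).im) (g t).re -
        Real.pi * -(g t).im / 2 := by
      filter_upwards [him.continuousAt.eventually (gt_mem_nhds h)] with s hs
      unfold UU
      rw [abs_of_neg hs]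
    refine (h2.congr_of_eventuallyEq hev).congr_deriv ?_
    unfold YY LL
    rw [if_neg (not_lt.mpr h.le), if_pos h, abs_of_neg h]
    ring
  · have h1 := hasDerivAt_Lr_comp him hre h
    have h2 := h1.sub ((him.const_mul Real.pi).div_const 2)
    have hev : (fun t => UU (g t)) =ᶠ[𝓝 t] fun t => DT.Lr (g t).im (g t).re -
        Real.pi * (g t).im / 2 := by
      filter_upwards [him.continuousAt.eventually (lt_mem_nhds h)] with s hs
      unfold UU
      rw [abs_of_pos hs]
    refine (h2.congr_of_eventuallyEq hev).congr_deriv ?_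
    unfold YY LL
    rw [if_pos h, abs_of_pos h]
    ring

theorem hasDerivAt_UU_Fh {g : ℝ → ℂ} {d : ℂ} {t : ℝ} (hg : HasDerivAt g d t) (h0 : g t ∈ strip) :
    HasDerivAt (fun t => UU (g t)) (ph (g t) * d).re t := by
  have h1 := (hasDerivAt_Fh h0).comp t hg
  have h2 : HasDerivAt (fun t => (Fh (g t)).re) (ph (g t) * d).re t :=
    Complex.reCLM.hasFDerivAt.comp_hasDerivAt t h1
  refine h2.congr_of_eventuallyEq ?_
  filter_upwards [hg.continuousAt.eventually (strip_open.mem_nhds h0)] with s hs
  exact UU_eq_Fh hs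

theorem ph_re {u : ℂ} : (ph u).re = LL u := by
  rw [LL_eq, ph, Complex.log_re]

theorem ph_im {u : ℂ} (h0 : u ∈ strip) : (ph u).im = -YY u := by
  by_cases h : u.im = 0
  · have h1 : YY u = 0 := by
      unfold YY
      rw [h]
      simp
    rw [h1, neg_zero, ph, Complex.log_im, Complex.arg_eq_zero_iff]
    have h2 : u = (u.re : ℂ) := by
      apply Complex.ext
      · simp
      · simpa using h
    have h3 : 2 * Complex.sin (Real.pi * u) = ((2 * Real.sin (Real.pi * u.re) : ℝ) : ℂ) := by
      rw [h2]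
      push_cast
      simp
    rw [h3, Complex.ofReal_re, Complex.ofReal_im]
    refine ⟨?_, rfl⟩
    have h4 : 0 < Real.sin (Real.pi * u.re) := by
      apply Real.sin_pos_of_pos_of_lt_pi
      · exact mul_pos Real.pi_pos h0.1
      · have := mul_lt_mul_of_pos_left h0.2 Real.pi_pos
        linarith
    linarith
  · have h1 : HasDerivAt (fun t : ℝ => u + t * Complex.I) Complex.I 0 := by
      have := ((Complex.ofRealCLM.hasDerivAt (x := (0 : ℝ))).mul_const Complex.I).const_add u
      simpa using this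
    have e0 : u + ((0 : ℝ) : ℂ) * Complex.I = u := by simp
    have h2 := hasDerivAt_UU_im h1 (by rw [e0]; exact h)
    have h3 := hasDerivAt_UU_Fh h1 (by rw [e0]; exact h0)
    have h4 := h2.unique h3
    rw [e0] at h4
    simp only [Complex.I_re, Complex.I_im, Complex.mul_re, zero_mul, one_mul, zero_add, mul_zero,
      mul_one, zero_sub] at h4
    linarith

/-- **Derivative of `UU` along a curve**, off the real points outside `(0, 1)`. -/
theorem hasDerivAt_UU {g : ℝ → ℂ} {d : ℂ} {t : ℝ} (hg : HasDerivAt g d t)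
    (h0 : (g t).im ≠ 0 ∨ g t ∈ strip) :
    HasDerivAt (fun t => UU (g t)) (d.re * LL (g t) + d.im * YY (g t)) t := by
  rcases h0 with h0 | h0
  · exact hasDerivAt_UU_im hg h0
  · refine (hasDerivAt_UU_Fh hg h0).congr_deriv ?_
    rw [Complex.mul_re, ph_re, ph_im h0]
    ring

/-- **Derivative of `UU` in horizontal direction**, off the integers. -/
theorem hasDerivAt_UU_level (u : ℂ) (a x : ℝ) (h0 : Complex.sin (Real.pi * (u + (a * x : ℝ))) ≠ 0) :
    HasDerivAt (fun x : ℝ => UU (u + (a * x : ℝ))) (a * LL (u + (a * x : ℝ))) x := by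
  by_cases h : u.im = 0
  · have e1 : (fun x : ℝ => UU (u + (a * x : ℝ))) = fun x => DT.Lr 0 (u.re + a * x) := by
      funext x
      unfold UU
      rw [Complex.add_im, Complex.ofReal_im, h, Complex.add_re, Complex.ofReal_re]
      simp
    have h1 : Real.sin (Real.pi * (u.re + a * x)) ≠ 0 := by
      intro hc
      apply h0
      have h2 : u = (u.re : ℂ) := by
        apply Complex.ext
        · simp
        · simpa using h
      rw [h2, ← Complex.ofReal_add, ← Complex.ofReal_mul, ← Complex.ofReal_sin, hc]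
      simp
    have h2 := (DT.hasDerivAt_Lr_zero h1).comp x
      (((hasDerivAt_id x).const_mul a).const_add u.re)
    rw [e1]
    refine h2.congr_deriv ?_
    unfold LL
    rw [Complex.add_im, Complex.ofReal_im, h, Complex.add_re, Complex.ofReal_re]
    simp [mul_comm]
  · have h1 : HasDerivAt (fun x : ℝ => u + (a * x : ℝ)) (a : ℂ) x := by
      have := ((hasDerivAt_id x).const_mul a).ofReal_comp.const_add u
      simpa using this
    have h2 := hasDerivAt_UU_im h1 (by
      rw [Complex.add_im, Complex.ofReal_im, add_zero]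
      exact h)
    refine h2.congr_deriv ?_
    simp

/-- the second derivative of `UU` in the horizontal direction, the real part of `π cot (π u)` -/
noncomputable def CC (u : ℂ) : ℝ :=
  Real.pi * (Real.sin (2 * Real.pi * u.re) /
    (Real.cosh (2 * Real.pi * u.im) - Real.cos (2 * Real.pi * u.re)))

theorem hasDerivAt_LL_level (u : ℂ) (a x : ℝ) (h0 : Complex.sin (Real.pi * (u + (a * x : ℝ))) ≠ 0) :
    HasDerivAt (fun x : ℝ => LL (u + (a * x : ℝ))) (a * CC (u + (a * x : ℝ))) x := by
  have e1 : (fun x : ℝ => LL (u + (a * x : ℝ))) = fun x => DT.el |u.im| (u.re + a * x) := by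
    funext x
    unfold LL
    rw [Complex.add_im, Complex.ofReal_im, add_zero, Complex.add_re, Complex.ofReal_re]
  have e2 : CC (u + (a * x : ℝ)) = Real.pi * (Real.sin (2 * Real.pi * (u.re + a * x)) /
      (Real.cosh (2 * Real.pi * |u.im|) - Real.cos (2 * Real.pi * (u.re + a * x)))) := by
    unfold CC
    rw [Complex.add_im, Complex.ofReal_im, add_zero, Complex.add_re, Complex.ofReal_re]
    rcases abs_choice u.im with h | h <;> rw [h]
    rw [mul_neg, Real.cosh_neg]
  rw [e1, e2]
  have hx := ((hasDerivAt_id x).const_mul a).const_add u.re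
  by_cases h : u.im = 0
  · have h1 : Real.sin (Real.pi * (u.re + a * x)) ≠ 0 := by
      intro hc
      apply h0
      have h2 : u = (u.re : ℂ) := by
        apply Complex.ext
        · simp
        · simpa using h
      rw [h2, ← Complex.ofReal_add, ← Complex.ofReal_mul, ← Complex.ofReal_sin, hc]
      simp
    rw [h, abs_zero]
    have h2 := (DT.hasDerivAt_el_zero h1).comp x hx
    refine h2.congr_deriv ?_
    have h3 : Real.sin (2 * Real.pi * (u.re + a * x)) = 2 * Real.sin (Real.pi * (u.re + a * x)) *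
        Real.cos (Real.pi * (u.re + a * x)) := by
      rw [mul_assoc 2 Real.pi, Real.sin_two_mul]
    have h4 : Real.cos (2 * Real.pi * (u.re + a * x)) =
        1 - 2 * Real.sin (Real.pi * (u.re + a * x)) ^ 2 := by
      rw [mul_assoc 2 Real.pi, Real.cos_two_mul, Real.cos_sq']
      ring
    rw [h3, h4, mul_zero, Real.cosh_zero]
    field_simp
    ring
  · have h2 := (DT.hasDerivAt_el (v := u.re + a * x) (abs_pos.mpr h)).comp x hx
    refine h2.congr_deriv ?_
    simp only [DT.rr]
    ring

end Pool.Agent.Work.MP_b30479_gt.G2
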