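import Pool.Agent.Work.MP_b30479_gt.G2.SZb

/-!
# The location of the saddle point of a word from statements about single hinges and rings
-/

namespace Pool.Agent.Work.MP_b30479_gt.G2

open Complex Set Filter Topology VOL
open scoped ComplexConjugate

/-! ### conjugation of the local conditions -/

lemma ph'_conj (z : ℂ) : ph' (conj z) = conj (ph' z) := by
  unfold ph'
  have h : (Real.pi : ℂ) * conj z = conj ((Real.pi : ℂ) * z) := by
    rw [map_mul, Complex.conj_ofReal]
  rw [h, Complex.cos_conj, Complex.sin_conj, map_div₀, map_mul, Complex.conj_ofReal]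

lemma hc_conj (z : ℂ) : hc (conj z) = hc z := by
  unfold hc
  rw [Complex.conj_re, Complex.conj_im, abs_neg]

lemma jj_neg {b : ℤ} (hb : b ≠ 0) : jj (-b) = -jj b := by
  unfold jj
  rcases lt_or_gt_of_ne hb with h | h
  · rw [if_pos (by omega), if_neg (by omega)]
    ring
  · rw [if_neg (by omega), if_pos h]
    ring

lemma jj_conj (b : ℤ) : conj (jj b) = -jj b := by
  unfold jj
  split_ifs <;> simp

lemma K1s.conj {b : ℤ} (hb : b ≠ 0) {w w' : ℂ} (h0 : 0 < w.re) (h1 : w.re < 1 / 2)
    (h0' : 0 < w'.re) (h1' : w'.re < 1 / 2) (h : K1s b w w') :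
    K1s (-b) (conj w) (conj w') := by
  unfold K1s at h ⊢
  have s1 : w + w' ∈ strip := ⟨by simp only [Complex.add_re]; linarith only [h0, h0'],
    by simp only [Complex.add_re]; linarith only [h1, h1']⟩
  have s2 : 1 - w ∈ strip := ⟨by simp only [Complex.sub_re, Complex.one_re]; linarith only [h0, h1],
    by simp only [Complex.sub_re, Complex.one_re]; linarith only [h0]⟩
  have e : jj (-b) * (Real.pi * (1 - conj w')) + ph (conj w + conj w') - ph (1 - conj w) =
      conj (jj b * (Real.pi * (1 - w')) + ph (w + w') - ph (1 - w)) := by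
    rw [← map_add, ph_conj s1, show (1 : ℂ) - conj w = conj (1 - w) by simp, ph_conj s2, jj_neg hb]
    simp only [map_add, map_sub, map_mul, map_one, Complex.conj_ofReal, jj_conj]
  rw [e, Complex.conj_im, abs_neg]
  exact h

lemma K1s.of_sign {b c : ℤ} (h : 0 < b ↔ 0 < c) {w w' : ℂ} (hK : K1s b w w') : K1s c w w' := by
  have e : jj b = jj c := by
    unfold jj
    by_cases h1 : 0 < b
    · rw [if_pos h1, if_pos (h.1 h1)]
    · rw [if_neg h1, if_neg (fun h2 => h1 (h.2 h2))]
  unfold K1s at hK ⊢
  rwa [← e]

lemma K2.conj {w w' : ℂ} (h : K2 w w') : K2 (conj w) (conj w') := by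
  unfold K2 at h ⊢
  rw [← map_add, hc_conj, hc_conj, Complex.conj_re, Complex.conj_re]
  exact h

lemma Hg.conj {w : ℂ} (h : Hg w) : Hg (conj w) := by
  unfold Hg at h ⊢
  rw [ph'_conj, Complex.conj_re, Complex.conj_im, abs_neg]
  exact h

lemma Hl.conj {w l : ℂ} (h : Hl w l) : Hl (conj w) (conj l) := by
  unfold Hl at h ⊢
  rw [← map_sub, ph'_conj, ph'_conj, ph'_conj]
  simp only [Complex.conj_re]
  exact h

lemma KZ.conj {w ζ : ℂ} (h : KZ w ζ) : KZ (conj w) (-conj ζ) := by
  unfold KZ at h ⊢
  rw [hc_conj, Complex.neg_re, Complex.conj_re, Complex.conj_re, abs_neg]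
  exact h

lemma Hr.conj {w ζ : ℂ} (h : Hr w ζ) : Hr (conj w) (-conj ζ) := by
  unfold Hr at h ⊢
  have h2 : (starRingEnd ℂ) 2 = 2 := map_ofNat (starRingEnd ℂ) 2
  have e1 : conj w + 1 / 2 + -conj ζ = conj (w + 1 / 2 - ζ) := by
    simp only [map_add, map_sub, map_div₀, map_one, h2]
    ring
  have e2 : conj w + 1 / 2 - -conj ζ = conj (w + 1 / 2 + ζ) := by
    simp only [map_add, map_div₀, map_one, h2]
    ring
  rw [e1, e2, ph'_conj, ph'_conj, ph'_conj]
  simp only [Complex.conj_re]
  obtain ⟨h3, h4⟩ := h
  constructor <;> linarith only [h3, h4]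

section
variable {T : Typ} {b c : ℤ} {l r : Bool} {x x' : Fin 3 → ℂ}

lemma RunOk.congr (h : RunOk b T l r x) (hbc : 0 < b ↔ 0 < c) (h0 : x' 0 = x 0) (h2 : x' 2 = x 2)
    (h1 : T.isMid = true ∨ T.isRing = true → x' 1 = x 1) : RunOk c T l r x' := by
  cases T
  case one =>
    cases l <;> cases r <;> simp only [RunOk, h0, h2] at h ⊢
    exact ⟨h.1, h.2.1, h.2.2.1, h.2.2.2.1, h.2.2.2.2.1.of_sign hbc, h.2.2.2.2.2.1.of_sign hbc,
      h.2.2.2.2.2.2⟩
  case two => cases l <;> cases r <;> simp only [RunOk, h0, h2] at h ⊢ <;> exact h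
  case threeL =>
    have h1' := h1 (Or.inl rfl)
    cases l <;> cases r <;> simp only [RunOk, h0, h2, h1'] at h ⊢ <;> exact h
  case threeR =>
    have h1' := h1 (Or.inl rfl)
    cases l <;> cases r <;> simp only [RunOk, h0, h2, h1'] at h ⊢ <;> exact h
  case ring =>
    have h1' := h1 (Or.inr rfl)
    simp only [RunOk, h0, h2, h1'] at h ⊢
    exact h
  all_goals cases l <;> cases r <;> simp only [RunOk] at h

lemma RunOk.conj (h : RunOk b T l r x) (hb : b ≠ 0) (h0 : x' 0 = conj (x 0))
    (h2 : x' 2 = conj (x 2)) (h1 : T.isMid = true → x' 1 = conj (x 1))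
    (h1' : T.isRing = true → x' 1 = -conj (x 1)) : RunOk (-b) T l r x' := by
  cases T
  case one =>
    cases l <;> cases r <;> simp only [RunOk] at h ⊢
    rw [h0, h2]
    obtain ⟨a1, a2, a3, a4, a5, a6, a7⟩ := h
    refine ⟨by rwa [Complex.conj_re], by rwa [Complex.conj_re], by rwa [Complex.conj_re],
      by rwa [Complex.conj_re], a5.conj hb a1 a2 a3 a4, a6.conj hb a3 a4 a1 a2, ?_⟩
    rcases a7 with a7 | a7
    · exact Or.inl ⟨a7.1.conj, a7.2.conj⟩
    · right
      rwa [Complex.conj_re, Complex.conj_re]
  case two =>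
    cases l <;> cases r <;> simp only [RunOk] at h ⊢
    · rw [h0, h2, Complex.conj_re]
      exact ⟨by rw [h.1, map_zero], h.2⟩
    · rw [h0, h2, Complex.conj_re]
      exact ⟨by rw [h.1, map_zero], h.2⟩
    · rw [h0, h2]
      exact ⟨h.1.conj, h.2.1.conj, h.2.2.1.conj, h.2.2.2.conj⟩
  case threeL =>
    have h3 := h1 rfl
    cases l <;> cases r <;> simp only [RunOk] at h ⊢
    · rw [h0, h2, h3]
      simp only [Complex.conj_re]
      exact ⟨by rw [h.1, map_zero], h.2⟩
    · rw [h0, h2, h3]
      simp only [Complex.conj_re]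
      exact ⟨h.1.conj, h.2⟩
  case threeR =>
    have h3 := h1 rfl
    cases l <;> cases r <;> simp only [RunOk] at h ⊢
    · rw [h0, h2, h3]
      simp only [Complex.conj_re]
      exact ⟨by rw [h.1, map_zero], h.2⟩
    · rw [h0, h2, h3]
      simp only [Complex.conj_re]
      exact ⟨h.1.conj, h.2⟩
  case ring =>
    have h3 := h1' rfl
    simp only [RunOk] at h ⊢
    rw [h0, h2, h3]
    exact ⟨h.1, fun hl => ⟨(h.2.1 hl).1.conj, (h.2.1 hl).2.conj⟩,
      fun hr => ⟨(h.2.2 hr).1.conj, (h.2.2 hr).2.conj⟩⟩
  all_goals cases l <;> cases r <;> simp only [RunOk] at h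

end

/-! ### statements about single hinges and rings -/

namespace SR

/-- the word hinge at a side of kind `x` of the ring with the value `k` -/
noncomputable def yH (x : SK) (R k : ℂ) : ℂ := acot2 (Hq x R k)

/-- the inner variable of a ring with the digit `3`, seen from a side of kind `x` -/
noncomputable def mH (x : SK) (R k : ℂ) : ℂ := acot2 (Sp (Hq x R k) k)

/-- the ring variable in the own frame -/
noncomputable def zeta (w : ℂ) : ℂ := -w / Real.pi

/-- the one-sided part of the conditions for a digit of at least `4`; `k`: the neighbour -/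
def ZSide (x : SK) (w k : ℂ) : Prop :=
  KZ (yH x (RR w k) (Complex.cos w)) (zeta w) ∧ Hr (yH x (RR w k) (Complex.cos w)) (zeta w)

/-- The statements about single hinges and rings, for a family `K` of sets, which give the location
of the saddle point of every word. -/
structure Rows (K : KFam) : Prop where
  /-- split hinges -/
  ne : ∀ {d l d' l' R k k'}, HDt K .s d l d' l' R k k' → Sp R k ≠ -I
  /-- an absorbed digit -/
  absd : ∀ {d l d' l' R k k'}, HDt K .s d l d' l' R k k' →
    RunOk (-1) .one true true ![yH .s R k, 0, yH .s R k']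
  one : ∀ {l r dl ll dr rr w kl kr}, RDt K 1 l r dl ll dr rr w kl kr →
    RunOk 1 .one true true ![yH l (RR w kl) (Complex.cos w), 0, yH r (RR w kr) (Complex.cos w)]
  two : ∀ {l r dl ll dr rr w kl kr}, RDt K 2 l r dl ll dr rr w kl kr →
    RunOk 1 .two true true ![yH l (RR w kl) (Complex.cos w), 0, yH r (RR w kr) (Complex.cos w)]
  twoE : ∀ {r dr rr w kr}, RDe K 2 r dr rr w kr →
    0 < (yH r (RR w kr) (Complex.cos w)).re ∧ (yH r (RR w kr) (Complex.cos w)).re < 1 / 2
  three : ∀ {l r dl ll dr rr w kl kr}, RDt K 3 l r dl ll dr rr w kl kr →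
    RunOk 1 .threeL true true ![yH l (RR w kl) (Complex.cos w), mH l (RR w kl) (Complex.cos w),
      yH r (RR w kr) (Complex.cos w)] ∧
    0 ≤ (yH l (RR w kl) (Complex.cos w)).re + (mH l (RR w kl) (Complex.cos w)).re -
      (yH r (RR w kr) (Complex.cos w)).re ∧
    (yH l (RR w kl) (Complex.cos w)).re + (mH l (RR w kl) (Complex.cos w)).re -
      (yH r (RR w kr) (Complex.cos w)).re ≤ 1
  threeE : ∀ {r dr rr w kr}, RDe K 3 r dr rr w kr →
    0 < (yH r (RR w kr) (Complex.cos w)).re ∧ (yH r (RR w kr) (Complex.cos w)).re < 1 / 2 ∧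
    0 < (mH r (RR w kr) (Complex.cos w)).re - (yH r (RR w kr) (Complex.cos w)).re ∧
    (mH r (RR w kr) (Complex.cos w)).re - (yH r (RR w kr) (Complex.cos w)).re < 1 / 2 ∧
    (yH r (RR w kr) (Complex.cos w)).re + (mH r (RR w kr) (Complex.cos w)).re ≤ 1
  ring : ∀ {d l r dl ll dr rr w kl kr}, 4 ≤ d → RDt K d l r dl ll dr rr w kl kr → ZSide l w kl
  ringE : ∀ {d r dr rr w kr}, 4 ≤ d → RDe K d r dr rr w kr → ZSide r w kr

/-- the refinement of a family of sets -/
structure Refine (K K' : KFam) : Prop where
  inner : ∀ {d l r dl ll dr rr w kl kr}, RDt K d l r dl ll dr rr w kl kr →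
    Complex.cos w ∈ K'.K d l r
  ends : ∀ {d r dr rr w kr}, RDe K d r dr rr w kr → Complex.cos w ∈ K'.K d .e r

theorem RDt.symm {K : KFam} {d : ℕ} {l r : SK} {dl : ℕ} {ll : SK} {dr : ℕ} {rr : SK}
    {w kl kr : ℂ} (h : RDt K d l r dl ll dr rr w kl kr) :
    RDt K d r l dr rr dl ll w kr kl :=
  ⟨h.right, h.left, h.w0, h.w1, h.wi, by rw [crs_symm, add_comm (QQ w kr)]; exact h.eq⟩

section word3

variable {M : ℕ} {b : Fin (M + 1) → ℤ} {w : ℕ → ℂ}
variable (hb : ClassW b) (F : RingFacts) (hw : Sol b w)
include hb F hw

/-- the second round -/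
theorem Snd.refine (hM : 1 ≤ M) {K K' : KFam} (h : Refine K K') (hK : Snd K b w) :
    Snd K' b w := by
  intro n hn hu
  rw [fz_cos]
  by_cases h0 : n = 0
  · subst h0
    rw [lk_e]
    exact h.ends (rde_first hb F hw hK hM)
  · by_cases h1 : n = M
    · have h2 := h.ends (rde_last hb F hw hK hM)
      have h3 : rk b n = .e := rk_e (by omega)
      rw [h3, K'.symm, h1]
      exact h2
    · exact h.inner (rdt hb F hw hK (by omega) (by omega) hu)

end word3

lemma RunOk_fz {T : Typ} {b c : ℤ} (hb : b ≠ 0) {l r : Bool} {s : ℝ} (hs : s = 1 ∨ s = -1)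
    (hc : s = 1 → (0 < b ↔ 0 < c)) (hc' : s = -1 → (0 < -b ↔ 0 < c)) {x xo : Fin 3 → ℂ}
    (h : RunOk b T l r xo) (h0 : fz s (x 0) = xo 0) (h2 : fz s (x 2) = xo 2)
    (h1 : T.isMid = true → fz s (x 1) = xo 1)
    (h1' : T.isRing = true → x 1 = if s = 1 then xo 1 else -conj (xo 1)) : RunOk c T l r x := by
  rcases hs with rfl | rfl
  · rw [fz_one] at h0 h2
    refine h.congr (hc rfl) h0 h2 ?_
    rintro (h3 | h3)
    · have := h1 h3
      rwa [fz_one] at this
    · have := h1' h3
      rwa [if_pos rfl] at this
  · rw [fz_neg] at h0 h2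
    have h4 : RunOk (-b) T l r x := by
      refine h.conj hb (by rw [← h0, Complex.conj_conj]) (by rw [← h2, Complex.conj_conj])
        (fun h3 => ?_) (fun h3 => ?_)
      · have := h1 h3
        rw [fz_neg] at this
        rw [← this, Complex.conj_conj]
      · have := h1' h3
        rwa [if_neg (by norm_num)] at this
    exact h4.congr (hc' rfl) rfl rfl fun _ => rfl

lemma fz_ne {s : ℝ} {z : ℂ} (h : fz s z ≠ I ∧ fz s z ≠ -I) : z ≠ I ∧ z ≠ -I := by
  unfold fz at h
  split_ifs at h with hs
  · exact h
  · constructor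
    · intro h2
      exact h.2 (by rw [h2, Complex.conj_I])
    · intro h2
      exact h.1 (by rw [h2, map_neg, Complex.conj_I, neg_neg])

section rows
variable {K : KFam} (Rw : Rows K)
include Rw

lemma Rows.hq_ne {x : SK} {d : ℕ} {l : SK} {d' : ℕ} {l' : SK} {R k k' : ℂ}
    (h : HDt K x d l d' l' R k k') : Hq x R k ≠ I ∧ Hq x R k ≠ -I := by
  have hR : 0 < R.re := r0_pos.trans h.Rre
  have hk : k ≠ 0 := fun h0 => by
    have := h.kre
    rw [h0] at this
    exact lt_irrefl _ this
  by_cases hx : x = .s
  · subst hx
    rw [Hq_s]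
    exact ⟨Sp_ne_I (add_I_ne h.Rre) hk, Rw.ne h⟩
  · rw [Hq_of_ne hx]
    exact ne_I_of_re hR

end rows

section word4

variable {M : ℕ} {b : Fin (M + 1) → ℤ} {w : ℕ → ℂ}

/-- the values of the ring `n` and of its neighbours in its own frame -/
noncomputable def oW (b : Fin (M + 1) → ℤ) (w : ℕ → ℂ) (n : ℕ) : ℂ := fz (sg b n) (w n)
noncomputable def oL (b : Fin (M + 1) → ℤ) (w : ℕ → ℂ) (n : ℕ) : ℂ :=
  fz (sg b n) (Complex.cos (w (ln b n)))
noncomputable def oR (b : Fin (M + 1) → ℤ) (w : ℕ → ℂ) (n : ℕ) : ℂ :=
  fz (sg b n) (Complex.cos (w (rn b n)))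

section
variable (hb : ClassW b) (F : RingFacts) (hw : Sol b w)
include hb F hw

omit hb in
lemma own_right {n : ℕ} (hn : n < M) (hu : us b n = false) :
    fz (sg b n) (Rh b w n) = Hq (rk b n) (RR (oW b w n) (oR b w n)) (Complex.cos (oW b w n)) := by
  rw [fz_Rh_right F hw hn hu, fz_R0_right hw hn hu, fz_cos (w n)]
  rfl

lemma own_left {n : ℕ} (h0 : 0 < n) (hn : n ≤ M) (hu : us b n = false) :
    fz (sg b n) (Rh b w (n - 1)) =
      Hq (lk b n) (RR (oW b w n) (oL b w n)) (Complex.cos (oW b w n)) := by
  rw [fz_Rh_left hb F hw h0 hn hu, fz_R0_left hb F hw h0 hn hu, fz_cos (w n)]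
  rfl

omit hb in
lemma own_y_right {n : ℕ} (hn : n < M) (hu : us b n = false) :
    fz (sg b n) (acot2 (Rh b w n)) =
      yH (rk b n) (RR (oW b w n) (oR b w n)) (Complex.cos (oW b w n)) := by
  rw [← acot2_fz, own_right F hw hn hu]
  rfl

lemma own_y_left {n : ℕ} (h0 : 0 < n) (hn : n ≤ M) (hu : us b n = false) :
    fz (sg b n) (acot2 (Rh b w (n - 1))) =
      yH (lk b n) (RR (oW b w n) (oL b w n)) (Complex.cos (oW b w n)) := by
  rw [← acot2_fz, own_left hb F hw h0 hn hu]
  rfl

/-- the inner variable -/
lemma own_mid {n : ℕ} (h0 : 0 < n) (hn : n ≤ M) (hu : us b n = false) :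
    fz (sg b n) (Rm b w n) =
      Sp (Hq (lk b n) (RR (oW b w n) (oL b w n)) (Complex.cos (oW b w n)))
        (Complex.cos (oW b w n)) := by
  unfold Rm
  rw [if_neg (by omega), fz_Sp F hw hn hu, own_left hb F hw h0 hn hu, fz_cos (w n)]
  rfl

omit hb in
lemma own_mid0 (hM : 1 ≤ M) :
    fz (sg b 0) (Rm b w 0) =
      Sp (Hq (rk b 0) (RR (oW b w 0) (oR b w 0)) (Complex.cos (oW b w 0)))
        (Complex.cos (oW b w 0)) := by
  unfold Rm
  rw [if_pos rfl, fz_Sp F hw (by omega) rfl, own_right F hw (by omega) rfl, fz_cos (w 0)]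
  rfl

section
variable {K : KFam} (hK : Snd K b w) (Rw : Rows K)
include hK Rw

theorem hinge_ne {n : ℕ} (hn : n < M) : Rh b w n ≠ I ∧ Rh b w n ≠ -I := by
  by_cases hu : us b n = true
  · have h1 := us_true hu
    have h2 := Rw.hq_ne (hdt_left hb F hw hK (n := n + 1) (by omega) (by omega) h1.2.2.2)
    have h3 := own_left hb F hw (n := n + 1) (by omega) (by omega) h1.2.2.2
    rw [show n + 1 - 1 = n by omega] at h3
    apply fz_ne (s := sg b (n + 1))
    rw [h3]
    exact h2
  · rw [Bool.not_eq_true] at hu
    have h2 := Rw.hq_ne (hdt_right hb F hw hK hn hu)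
    apply fz_ne (s := sg b n)
    rw [own_right F hw hn hu]
    exact h2

theorem mid_ne' (hM : 1 ≤ M) {n : ℕ} (hn : n ≤ M) (h3 : dg b n = 3) :
    Rm b w n ≠ I ∧ Rm b w n ≠ -I := by
  have hu : us b n = false := by
    by_contra hc
    rw [Bool.not_eq_false] at hc
    have := (us_true hc).2.1
    unfold dg at h3
    omega
  have h3' : (bb b n).natAbs = 3 := h3
  have hj := jj_sq (bb b n)
  have hτ := tau_ne hw (n := n) hn hu
  have hq0 : 1 + tau b w n ^ 2 ≠ 0 := by
    rw [← cos_sq_tau F hw hn hu]
    exact one_div_ne_zero (pow_ne_zero 2 (cos_ne F hw hn hu))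
  -- hinges are not `-j`
  have hne : ∀ m < M, Rh b w m + jj (bb b n) ≠ 0 := by
    intro m hm h
    obtain ⟨h1, h2⟩ := hinge_ne hb F hw hK Rw hm
    have h3 : Rh b w m = -jj (bb b n) := by linear_combination h
    unfold jj at h3
    split_ifs at h3
    · exact h2 (by rw [h3]; ring)
    · exact h1 (by rw [h3]; ring)
  have hj0 : jj (bb b n) ≠ 0 := jj_ne _
  -- reduce to `± j`
  suffices h : Rm b w n - jj (bb b n) ≠ 0 ∧ Rm b w n + jj (bb b n) ≠ 0 by
    unfold jj at h
    split_ifs at h
    · exact ⟨fun h4 => h.1 (by rw [h4]; ring), fun h4 => h.2 (by rw [h4]; ring)⟩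
    · exact ⟨fun h4 => h.2 (by rw [h4]; ring), fun h4 => h.1 (by rw [h4]; ring)⟩
  by_cases h0 : n = 0
  · subst h0
    have hr := ring_first hb F hw hM
    rw [h3'] at hr
    have hRm : Rm b w 0 = Rs (jj (bb b 0)) (Rh b w 0) (tau b w 0) := by
      unfold Rm
      rw [if_pos rfl]
    obtain ⟨q1, q2⟩ := RE1_three hj (hne 0 (by omega)) hτ hr
    rw [← hRm] at q1 q2
    constructor
    · intro h
      rw [h, zero_mul] at q1
      exact hq0 q1.symm
    · intro h
      rw [h, mul_zero] at q2
      exact hq0 q2
  · have hRm : Rm b w n = Rs (jj (bb b n)) (Rh b w (n - 1)) (tau b w n) := by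
      unfold Rm
      rw [if_neg h0]
    by_cases h1 : n = M
    · have hr : RE1 (jj (bb b n)) (bb b n).natAbs (Rh b w (n - 1)) (tau b w n) := by
        rw [h1]
        exact ring_last hb F hw hM
      rw [h3'] at hr
      obtain ⟨q1, q2⟩ := RE1_three hj (hne (n - 1) (by omega)) hτ hr
      rw [← hRm] at q1 q2
      constructor
      · intro h
        rw [h, zero_mul] at q1
        exact hq0 q1.symm
      · intro h
        rw [h, mul_zero] at q2
        exact hq0 q2
    · have hr := ring_inner hb F hw (n := n) (by omega) (by omega) hu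
      rw [h3'] at hr
      obtain ⟨q1, q2⟩ := RE_three hj (hne (n - 1) (by omega)) hτ hr
      rw [← hRm] at q1 q2
      constructor
      · intro h
        rw [h, zero_mul] at q1
        exact hq0 q1.symm
      · intro h
        rw [h, zero_mul, mul_zero] at q2
        rcases mul_eq_zero.1 q2 with h4 | h4
        · exact hq0 h4
        · exact hne n (by omega) (by linear_combination h4 - h)

end

end

lemma zeta_own (n : ℕ) : -(sg b n : ℂ) * w n / Real.pi =
    if sg b n = 1 then zeta (oW b w n) else -conj (zeta (oW b w n)) := by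
  unfold zeta oW
  rcases sg_or (b := b) n with h | h
  · rw [h, if_pos rfl, fz_one]
    push_cast
    ring
  · rw [h, if_neg (by norm_num), fz_neg]
    rw [map_div₀, map_neg, Complex.conj_conj, Complex.conj_ofReal]
    push_cast
    ring

lemma dg_val (i : Fin (M + 1)) : dg b i.val = (b i).natAbs := by
  unfold dg
  rw [bb_val]

section
variable (hb : ClassW b) (F : RingFacts) (hw : Sol b w) (hM : 1 ≤ M) {K : KFam}
  (hK : Snd K b w) (Rw : Rows K)
include hb F hw hM hK Rw

theorem run_all (i : Fin (M + 1)) :
    RunOk (b i) (tyW b i) (fl i) (fr i) (xx (tyW b) i (zsW b w)) := by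
  have hi := i.2
  have hsg1 : sg b i.val = 1 → ((0 : ℤ) < 1 ↔ 0 < b i) := by
    intro h
    unfold sg at h
    rw [bb_val] at h
    split_ifs at h with h1
    · exact ⟨fun _ => h1, fun _ => one_pos⟩
    · norm_num at h
  have hsg2 : sg b i.val = -1 → ((0 : ℤ) < -1 ↔ 0 < b i) := by
    intro h
    unfold sg at h
    rw [bb_val] at h
    split_ifs at h with h1
    · norm_num at h
    · exact ⟨fun h2 => absurd h2 (by norm_num), fun h2 => absurd h2 h1⟩
  have hfl0 : i.val = 0 → fl i = false := fun h => by
    have : i = 0 := Fin.ext h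
    simp [fl, this]
  have hfl1 : 0 < i.val → fl i = true := fun h => by
    have : i ≠ 0 := fun h2 => by rw [h2] at h; simp at h
    simp [fl, this]
  have hfr0 : i.val = M → fr i = false := fun h => by
    have : i = Fin.last M := Fin.ext h
    simp [fr, this]
  have hfr1 : i.val < M → fr i = true := fun h => by
    have : i ≠ Fin.last M := fun h2 => by rw [h2] at h; simp at h
    simp [fr, this]
  have hx0 : i.val = 0 → xx (tyW b) i (zsW b w) 0 = 0 := fun h => by
    have : i = 0 := Fin.ext h
    rw [this]
    exact x_left0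
  have hxM : i.val = M → xx (tyW b) i (zsW b w) 2 = 0 := fun h => by
    have : i = Fin.last M := Fin.ext h
    rw [this]
    exact x_rightM
  have hd := dg_val (b := b) i
  by_cases hu : us b i.val = true
  · -- absorbed
    obtain ⟨h1, h2, h3, h4⟩ := us_true hu
    have h5 := us_lt hb hu
    obtain ⟨m, hm⟩ : ∃ m, i.val = m + 1 := ⟨i.val - 1, by omega⟩
    rw [hm] at hu h3 h4 h5
    rw [show m + 1 - 1 = m by omega] at h3
    rw [bb_val] at h2
    have ht : tyW b i = .one := by unfold tyW; rw [if_pos h2]
    have hxl := x_left (b := b) (w := w) (i := i) (by omega)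
    have hxr := x_right (b := b) (w := w) (i := i) (by omega)
    rw [hfl1 (by omega), hfr1 (by omega)]
    rw [hm] at hxl hxr
    rw [show m + 1 - 1 = m by omega] at hxl
    have hrk : rk b m = .s := rk_s (by omega) hu
    have hrn : rn b m = m + 2 := by
      unfold rn
      rw [if_pos hu]
    have hH := hdt_right hb F hw hK (n := m) (by omega) h3
    rw [hrk] at hH
    have hR := Rw.absd hH
    have hsg : sg b m * sg b (m + 2) = 1 := by
      have := sg_rk hb (n := m) (by omega) h3
      rw [hrk, hrn] at this
      exact this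
    have hss : sg b (m + 2) = sg b m := by
      rcases sg_or (b := b) m with h | h <;> rcases sg_or (b := b) (m + 2) with h' | h' <;>
        rw [h, h'] at hsg ⊢ <;> norm_num at hsg
    have e0 := own_y_right F hw (n := m) (by omega) h3
    have e2 := own_y_left hb F hw (n := m + 2) (by omega) (by omega) (by simpa using h4)
    rw [show m + 2 - 1 = m + 1 by omega, hss] at e2
    have hlk : lk b (m + 2) = .s := lk_s (by omega) (by rwa [show m + 2 - 1 = m + 1 by omega])
    have hln : ln b (m + 2) = m := by
      unfold ln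
      rw [show m + 2 - 1 = m + 1 by omega, if_pos hu]
      omega
    rw [ht]
    rw [ht] at *
    have hbi : b i = bb b (m + 1) := by rw [← hm, bb_val]
    have hopp : bb b m * bb b (m + 1) < 0 := bb_opp hb (by omega) (Or.inr (by rw [← hbi]; omega))
    refine RunOk_fz (b := -1) (by norm_num) (sg_or (b := b) m) (fun h => ?_) (fun h => ?_) hR ?_ ?_
      (fun h => absurd h (by decide)) (fun h => absurd h (by decide))
    · rw [hbi]
      unfold sg at h
      split_ifs at h with h6
      · constructor
        · intro h7
          norm_num at h7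
        · intro h7
          have := mul_pos h6 h7
          omega
      · norm_num at h
    · rw [hbi]
      unfold sg at h
      split_ifs at h with h6
      · norm_num at h
      · constructor
        · intro _
          by_contra h7
          have := mul_nonneg_of_nonpos_of_nonpos (not_lt.1 h6) (not_lt.1 h7)
          omega
        · intro _
          norm_num
    · rw [hxl, e0, hrk]
      rfl
    · rw [hxr, e2, hlk]
      have eR : RR (oW b w (m + 2)) (oL b w (m + 2)) =
          RR (fz (sg b m) (w m)) (fz (sg b m) (Complex.cos (w (rn b m)))) := by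
        unfold oW oL
        rw [← fz_R0_left hb F hw (by omega) (by omega) (by simpa using h4), hln, hss,
          fz_R0_right hw (by omega) h3]
      have eC : Complex.cos (oW b w (m + 2)) = fz (sg b m) (Complex.cos (w (rn b m))) := by
        unfold oW
        rw [hss, ← fz_cos, hrn]
      rw [eR, eC]
      rfl
  · rw [Bool.not_eq_true] at hu
    have hs := sg_or (b := b) i.val
    by_cases hi0 : i.val = 0
    · -- the first ring
      have hiM : i.val < M := by omega
      have hE := rde_first hb F hw hK hM
      have e0 : i = 0 := Fin.ext hi0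
      have h2d : 2 ≤ dg b 0 := bb_zero hb
      have ey := own_y_right F hw (n := i.val) hiM hu
      have hxr := x_right (b := b) (w := w) hiM
      have hxl := hx0 hi0
      rw [hfl0 hi0, hfr1 hiM]
      rw [hi0] at hd ey hxr hs hsg1 hsg2
      by_cases h2 : dg b 0 = 2
      · have ht : tyW b i = .two := by
          unfold tyW
          rw [← hd, h2]
          rfl
        rw [h2] at hE
        have hR := Rw.twoE hE
        have e2 : (xx (tyW b) i (zsW b w) 2).re =
            (yH (rk b 0) (RR (oW b w 0) (oR b w 0)) (Complex.cos (oW b w 0))).re := by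
          rw [hxr, ← ey, fz_re]
        rw [ht] at *
        simp only [RunOk]
        refine ⟨hxl, ?_, ?_⟩
        · rw [e2]
          exact hR.1
        · rw [e2]
          exact hR.2
      · by_cases h3 : dg b 0 = 3
        · have ht : tyW b i = .threeR := by
            unfold tyW
            rw [← hd, h3, if_pos e0]
            rfl
          rw [h3] at hE
          have hR := Rw.threeE hE
          have e2 : (xx (tyW b) i (zsW b w) 2).re =
              (yH (rk b 0) (RR (oW b w 0) (oR b w 0)) (Complex.cos (oW b w 0))).re := by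
            rw [hxr, ← ey, fz_re]
          have e1 : (xx (tyW b) i (zsW b w) 1).re =
              (mH (rk b 0) (RR (oW b w 0) (oR b w 0)) (Complex.cos (oW b w 0))).re := by
            rw [x_mid (b := b) (w := w) (by rw [ht]; rfl), hi0]
            unfold mH
            rw [← own_mid0 F hw hM, acot2_fz, fz_re]
          rw [ht] at *
          simp only [RunOk]
          refine ⟨hxl, ?_, ?_, ?_, ?_⟩
          · rw [e2]; exact hR.1
          · rw [e2]; exact hR.2.1
          · rw [e1, e2]; exact hR.2.2.1
          · rw [e1, e2]; exact hR.2.2.2.1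
        · have ht : tyW b i = .ring := by
            unfold tyW
            rw [← hd, if_neg (by omega), if_neg h2, if_neg h3]
          have hR := Rw.ringE (by omega) hE
          have hx1 := x_ring (b := b) (w := w) (i := i) (by rw [ht]; rfl)
          rw [hi0, zeta_own] at hx1
          rw [ht] at *
          refine RunOk_fz (b := 1) (by norm_num) (T := .ring) (s := sg b 0) hs hsg1 hsg2 (xo := ![0, zeta (oW b w 0),
            yH (rk b 0) (RR (oW b w 0) (oR b w 0)) (Complex.cos (oW b w 0))])
            ⟨Or.inr rfl, fun h => absurd h (by decide), fun _ => hR⟩ ?_ ?_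
            (fun h => absurd h (by decide)) (fun _ => hx1)
          · rw [hxl]
            unfold fz
            split_ifs <;> simp
          · rw [hxr]
            exact ey
    · have hi0' : 0 < i.val := by omega
      have hxl := x_left (b := b) (w := w) hi0'
      have eyl := own_y_left hb F hw (n := i.val) hi0' (by omega) hu
      rw [hfl1 hi0']
      have e0 : i ≠ 0 := fun h => hi0 (by rw [h]; simp)
      by_cases hiM : i.val = M
      · -- the last ring
        have hE := rde_last hb F hw hK hM
        have hxr := hxM hiM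
        have h2d : 2 ≤ dg b i.val := by
          rw [hd]
          have h := hb.last
          have : i = Fin.last M := Fin.ext hiM
          rw [this]
          exact h
        rw [hfr0 hiM]
        have hE' : RDe K (dg b i.val) (lk b i.val) (dg b (ln b i.val)) (lk b (ln b i.val))
            (oW b w i.val) (oL b w i.val) := by
          unfold oW oL
          rw [hiM]
          exact hE
        by_cases h2 : dg b i.val = 2
        · have ht : tyW b i = .two := by
            unfold tyW
            rw [← hd, h2]
            rfl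
          rw [h2] at hE'
          have hR := Rw.twoE hE'
          have e2 : (xx (tyW b) i (zsW b w) 0).re = (yH (lk b i.val)
              (RR (oW b w i.val) (oL b w i.val)) (Complex.cos (oW b w i.val))).re := by
            rw [hxl, ← eyl, fz_re]
          rw [ht] at *
          simp only [RunOk]
          refine ⟨hxr, ?_, ?_⟩
          · rw [e2]
            exact hR.1
          · rw [e2]
            exact hR.2
        · by_cases h3 : dg b i.val = 3
          · have ht : tyW b i = .threeL := by
              unfold tyW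
              rw [← hd, h3, if_neg e0]
              rfl
            rw [h3] at hE'
            have hR := Rw.threeE hE'
            have e2 : (xx (tyW b) i (zsW b w) 0).re = (yH (lk b i.val)
                (RR (oW b w i.val) (oL b w i.val)) (Complex.cos (oW b w i.val))).re := by
              rw [hxl, ← eyl, fz_re]
            have e1 : (xx (tyW b) i (zsW b w) 1).re = (mH (lk b i.val)
                (RR (oW b w i.val) (oL b w i.val)) (Complex.cos (oW b w i.val))).re := by
              rw [x_mid (b := b) (w := w) (by rw [ht]; rfl)]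
              unfold mH
              rw [← own_mid hb F hw hi0' (by omega) hu, acot2_fz, fz_re]
            rw [ht] at *
            simp only [RunOk]
            refine ⟨hxr, ?_, ?_, ?_, ?_⟩
            · rw [e2]; exact hR.1
            · rw [e2]; exact hR.2.1
            · rw [e1, e2]; exact hR.2.2.1
            · rw [e1, e2]; exact hR.2.2.2.1
          · have ht : tyW b i = .ring := by
              unfold tyW
              rw [← hd, if_neg (by omega), if_neg h2, if_neg h3]
            have hR := Rw.ringE (by omega) hE'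
            have hx1 := x_ring (b := b) (w := w) (i := i) (by rw [ht]; rfl)
            rw [zeta_own] at hx1
            rw [ht] at *
            refine RunOk_fz (b := 1) (by norm_num) (T := .ring) (s := sg b i.val) hs hsg1 hsg2 (xo := ![yH (lk b i.val)
              (RR (oW b w i.val) (oL b w i.val)) (Complex.cos (oW b w i.val)),
              zeta (oW b w i.val), 0])
              ⟨Or.inl rfl, fun _ => hR, fun h => absurd h (by decide)⟩ ?_ ?_
              (fun h => absurd h (by decide)) (fun _ => hx1)
            · rw [hxl]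
              exact eyl
            · rw [hxr]
              unfold fz
              split_ifs <;> simp
      · -- inner rings
        have hiM' : i.val < M := by omega
        have hxr := x_right (b := b) (w := w) hiM'
        have eyr := own_y_right F hw (n := i.val) hiM' hu
        rw [hfr1 hiM']
        have hE : RDt K (dg b i.val) (lk b i.val) (rk b i.val) (dg b (ln b i.val))
            (lk b (ln b i.val)) (dg b (rn b i.val)) (rk b (rn b i.val)) (oW b w i.val)
            (oL b w i.val) (oR b w i.val) := rdt hb F hw hK hi0' hiM' hu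
        have h1d : 1 ≤ dg b i.val := hE.right.ok.left.pos
        by_cases h1 : dg b i.val = 1
        · have ht : tyW b i = .one := by
            unfold tyW
            rw [← hd, h1]
            rfl
          rw [h1] at hE
          have hR := Rw.one hE
          rw [ht] at *
          refine RunOk_fz (by norm_num) hs hsg1 hsg2 hR ?_ ?_ (fun h => absurd h (by decide))
            (fun h => absurd h (by decide))
          · rw [hxl]
            exact eyl
          · rw [hxr]
            exact eyr
        · by_cases h2 : dg b i.val = 2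
          · have ht : tyW b i = .two := by
              unfold tyW
              rw [← hd, h2]
              rfl
            rw [h2] at hE
            have hR := Rw.two hE
            rw [ht] at *
            refine RunOk_fz (by norm_num) hs hsg1 hsg2 hR ?_ ?_ (fun h => absurd h (by decide))
              (fun h => absurd h (by decide))
            · rw [hxl]
              exact eyl
            · rw [hxr]
              exact eyr
          · by_cases h3 : dg b i.val = 3
            · have ht : tyW b i = .threeL := by
                unfold tyW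
                rw [← hd, h3, if_neg e0]
                rfl
              rw [h3] at hE
              have hR := Rw.three hE
              have hxm := x_mid (b := b) (w := w) (i := i) (by rw [ht]; rfl)
              rw [ht] at *
              refine RunOk_fz (by norm_num) hs hsg1 hsg2 hR.1 ?_ ?_ (fun _ => ?_) (fun h => absurd h (by decide))
              · rw [hxl]
                exact eyl
              · rw [hxr]
                exact eyr
              · rw [hxm, ← acot2_fz, own_mid hb F hw hi0' (by omega) hu]
                rfl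
            · have ht : tyW b i = .ring := by
                unfold tyW
                rw [← hd, if_neg h1, if_neg h2, if_neg h3]
              have hR := Rw.ring (by omega) hE
              have hR' := Rw.ring (by omega) hE.symm
              have hx1 := x_ring (b := b) (w := w) (i := i) (by rw [ht]; rfl)
              rw [zeta_own] at hx1
              rw [ht] at *
              refine RunOk_fz (b := 1) (by norm_num) (T := .ring) (s := sg b i.val) hs hsg1 hsg2 (xo := ![yH (lk b i.val)
                (RR (oW b w i.val) (oL b w i.val)) (Complex.cos (oW b w i.val)),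
                zeta (oW b w i.val), yH (rk b i.val)
                (RR (oW b w i.val) (oR b w i.val)) (Complex.cos (oW b w i.val))])
                ⟨Or.inl rfl, fun _ => hR, fun _ => hR'⟩ ?_ ?_
                (fun h => absurd h (by decide)) (fun _ => hx1)
              · rw [hxl]
                exact eyl
              · rw [hxr]
                exact eyr

theorem midL_all (i : Fin (M + 1)) (ht : tyW b i = .threeL) :
    0 ≤ (xx (tyW b) i (zsW b w) 0 + xx (tyW b) i (zsW b w) 1 - xx (tyW b) i (zsW b w) 2).re ∧
    (xx (tyW b) i (zsW b w) 0 + xx (tyW b) i (zsW b w) 1 - xx (tyW b) i (zsW b w) 2).re ≤ 1 := by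
  have hd := dg_val (b := b) i
  have hi := i.2
  have h3 : (b i).natAbs = 3 ∧ i ≠ 0 := by
    unfold tyW at ht
    split_ifs at ht with h1 h2 h3 h4
    exact ⟨h3, h4⟩
  have hi0 : 0 < i.val := by
    by_contra hc
    exact h3.2 (Fin.ext (by show i.val = 0; omega))
  have hu : us b i.val = false := us_of_abs (by omega)
  have hxl := x_left (b := b) (w := w) hi0
  have eyl := own_y_left hb F hw (n := i.val) hi0 (by omega) hu
  have hxm := x_mid (b := b) (w := w) (i := i) (by rw [ht]; rfl)
  have e0 : (xx (tyW b) i (zsW b w) 0).re = (yH (lk b i.val)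
      (RR (oW b w i.val) (oL b w i.val)) (Complex.cos (oW b w i.val))).re := by
    rw [hxl, ← eyl, fz_re]
  have e1 : (xx (tyW b) i (zsW b w) 1).re = (mH (lk b i.val)
      (RR (oW b w i.val) (oL b w i.val)) (Complex.cos (oW b w i.val))).re := by
    rw [hxm]
    unfold mH
    rw [← own_mid hb F hw hi0 (by omega) hu, acot2_fz, fz_re]
  rw [Complex.sub_re, Complex.add_re, e0, e1]
  rw [h3.1] at hd
  by_cases hiM : i.val = M
  · have hxr : xx (tyW b) i (zsW b w) 2 = 0 := by
      have : i = Fin.last M := Fin.ext hiM
      rw [this]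
      exact x_rightM
    have hE : RDe K (dg b i.val) (lk b i.val) (dg b (ln b i.val)) (lk b (ln b i.val))
        (oW b w i.val) (oL b w i.val) := by
      have hE := rde_last hb F hw hK hM
      unfold oW oL
      rw [hiM]
      exact hE
    rw [hd] at hE
    have hR := Rw.threeE hE
    rw [hxr, Complex.zero_re, sub_zero]
    exact ⟨by linarith only [hR, hR.1, hR.2.2.1], hR.2.2.2.2⟩
  · have hiM' : i.val < M := by omega
    have eyr := own_y_right F hw (n := i.val) hiM' hu
    have e2 : (xx (tyW b) i (zsW b w) 2).re = (yH (rk b i.val)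
        (RR (oW b w i.val) (oR b w i.val)) (Complex.cos (oW b w i.val))).re := by
      rw [x_right (b := b) (w := w) hiM', ← eyr, fz_re]
    have hE : RDt K (dg b i.val) (lk b i.val) (rk b i.val) (dg b (ln b i.val))
        (lk b (ln b i.val)) (dg b (rn b i.val)) (rk b (rn b i.val)) (oW b w i.val)
        (oL b w i.val) (oR b w i.val) := rdt hb F hw hK hi0 hiM' hu
    rw [hd] at hE
    rw [e2]
    exact (Rw.three hE).2

theorem midR_all (i : Fin (M + 1)) (ht : tyW b i = .threeR) :
    0 ≤ (xx (tyW b) i (zsW b w) 2 + xx (tyW b) i (zsW b w) 1 - xx (tyW b) i (zsW b w) 0).re ∧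
    (xx (tyW b) i (zsW b w) 2 + xx (tyW b) i (zsW b w) 1 - xx (tyW b) i (zsW b w) 0).re ≤ 1 := by
  have hd := dg_val (b := b) i
  have h3 : (b i).natAbs = 3 ∧ i = 0 := by
    unfold tyW at ht
    split_ifs at ht with h1 h2 h3 h4
    exact ⟨h3, h4⟩
  have hi0 : i.val = 0 := by rw [h3.2]; rfl
  have hu : us b 0 = false := rfl
  have hxl : xx (tyW b) i (zsW b w) 0 = 0 := by
    rw [h3.2]
    exact x_left0
  have hxr := x_right (b := b) (w := w) (i := i) (by omega)
  have hxm := x_mid (b := b) (w := w) (i := i) (by rw [ht]; rfl)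
  have eyr := own_y_right F hw (n := 0) (by omega) hu
  rw [hi0] at hd hxr hxm
  have hE : RDe K (dg b 0) (rk b 0) (dg b (rn b 0)) (rk b (rn b 0)) (oW b w 0) (oR b w 0) :=
    rde_first hb F hw hK hM
  rw [hd, h3.1] at hE
  have hR := Rw.threeE hE
  have e2 : (xx (tyW b) i (zsW b w) 2).re =
      (yH (rk b 0) (RR (oW b w 0) (oR b w 0)) (Complex.cos (oW b w 0))).re := by
    rw [hxr, ← eyr, fz_re]
  have e1 : (xx (tyW b) i (zsW b w) 1).re =
      (mH (rk b 0) (RR (oW b w 0) (oR b w 0)) (Complex.cos (oW b w 0))).re := by
    rw [hxm]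
    unfold mH
    rw [← own_mid0 F hw hM, acot2_fz, fz_re]
  rw [Complex.sub_re, Complex.add_re, hxl, Complex.zero_re, sub_zero, e1, e2]
  exact ⟨by linarith only [hR, hR.1, hR.2.2.1], hR.2.2.2.2⟩

omit hM Rw in
/-- a one-sided statement about rings holds on the left side of every ring of a word -/
theorem left_side {P : ℕ → SK → ℂ → ℂ → Prop} {n : ℕ} (h0 : 0 < n) (hn : n ≤ M)
    (hu : us b n = false)
    (h1 : ∀ {d l r dl ll dr rr w kl kr}, RDt K d l r dl ll dr rr w kl kr → P d l w kl)
    (h2 : ∀ {d r dr rr w kr}, RDe K d r dr rr w kr → P d r w kr) :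
    P (dg b n) (lk b n) (oW b w n) (oL b w n) := by
  by_cases hM' : n = M
  · have hE := rde_last hb F hw hK (by omega)
    unfold oW oL
    rw [hM']
    exact h2 hE
  · exact h1 (rdt hb F hw hK h0 (by omega) hu)

omit hM Rw in
/-- a one-sided statement about rings holds on the right side of every ring of a word -/
theorem right_side {P : ℕ → SK → ℂ → ℂ → Prop} {n : ℕ} (hn : n < M)
    (hu : us b n = false)
    (h1 : ∀ {d l r dl ll dr rr w kl kr}, RDt K d l r dl ll dr rr w kl kr → P d l w kl)
    (h2 : ∀ {d r dr rr w kr}, RDe K d r dr rr w kr → P d r w kr) :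
    P (dg b n) (rk b n) (oW b w n) (oR b w n) := by
  by_cases h0 : n = 0
  · subst h0
    exact h2 (rde_first hb F hw hK (by omega))
  · exact h1 (rdt hb F hw hK (by omega) hn hu).symm

/-- **The location of the saddle point of a word** from statements about single hinges and
rings. -/
theorem locOK_of_rows : LocOK b w := by
  refine ⟨fun n hn => hinge_ne hb F hw hK Rw hn, fun i h3 => ?_, run_all hb F hw hM hK Rw,
    midL_all hb F hw hM hK Rw, midR_all hb F hw hM hK Rw, ?_, ?_⟩
  · have hi := i.2
    refine mid_ne' hb F hw hK Rw hM (by omega) ?_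
    rw [dg_val]
    exact h3
  · exact pl_all hb F hw
  · exact pr_all hb F hw

end

end word4

end SR

end Pool.Agent.Work.MP_b30479_gt.G2
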