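import Pool.Agent.Work.MP_b30479_gt.G2.SZ10
import Pool.Agent.Work.MP_b30479_gt.G2.SWordI
import Pool.Agent.Work.MP_b30479_gt.G2.WLoc

/-!
# Rings with at least eight crossings: the box of the ring variable
-/

namespace Pool.Agent.Work.MP_b30479_gt.G2

open Complex Set SQ KB
open scoped ComplexConjugate

namespace Z8

open SR

section
variable {B : ℕ} {x y : SK} {w Q Q' : ℂ}

/-- bounds for `B Re w` -/
lemma Rg.reB (R : Rg B x y w Q Q') {χ ψ θ φ μ ν : ℝ} (hX : (Complex.tan w).re ≤ χ)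
    (hY : -(Complex.tan w).im ≤ ψ)
    (h0 : 0 ≤ θ) (h1 : θ ≤ 1)
    (h3 : 676 / 1000 * χ ≤ θ - θ ^ 3 / 6) (g0 : 0 ≤ φ) (g1 : φ ≤ 1)
    (g3 : 33 / 100 * χ ≤ φ - φ ^ 3 / 6)
    (hψ : ψ ≤ 4 * χ) (hμ0 : 0 ≤ μ) (hμ1 : μ ≤ 1)
    (hμ : 676 / 1000 * χ + 831 / 1000 * ψ ≤ μ - μ ^ 3 / 6) (hν0 : 0 ≤ ν) (hν1 : ν ≤ 1)
    (hν : ψ ≤ ν - ν ^ 3 / 6) :
    (B : ℝ) * w.re ≤ Real.pi + ((nS x + nS y) * θ + (nZ x + nZ y) * φ) ∧
      Real.pi - ((nA x + nA y) * μ + (nS x + nS y + (nZ x + nZ y)) * ν) ≤ B * w.re := by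
  have f1 := R.sd.fa (t := .t8) rfl R.mem R.h0 R.h1
  have f2 := R.sd'.fa (t := .t8) rfl R.mem R.h0 R.h1
  have b1 := fa_im_le f1 h0 h1 (by linarith only [hX, h3]) g0 g1 (by linarith only [hX, g3])
  have b2 := fa_im_le f2 h0 h1 (by linarith only [hX, h3]) g0 g1 (by linarith only [hX, g3])
  have c1 := R.sd.ge (t := .t8) rfl R.mem R.h0 R.h1 hX hY hψ hμ0 hμ1 hμ hν0 hν1 hν
  have c2 := R.sd'.ge (t := .t8) rfl R.mem R.h0 R.h1 hX hY hψ hμ0 hμ1 hμ hν0 hν1 hν
  rw [R.re_eq]
  constructor <;> linarith only [b1, b2, c1, c2]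

/-- the real part at a side with an unsplit neighbour of equal sign -/
lemma re_Z (h : Sd .z w Q) (hm : Complex.cos w ∈ Poly (vt .t8)) (h0 : 0 < w.re)
    (h1 : w.re ≤ 3 / 2) {τ v : ℝ} (hT : (Complex.tan w).re ^ 2 + (Complex.tan w).im ^ 2 ≤ τ)
    (hv : 0 ≤ v) (h2 : τ < (v + v ^ 3 / 6) ^ 2) : Q.re ≤ v := by
  obtain ⟨k, hH, s1, s2, g1, g2, g3, g4, g5, g6⟩ := h.parts (t := .t8) rfl hm h0 h1 (by decide)
  have hk := (g5 (by decide)).2
  obtain ⟨z1, z2⟩ := g6 rfl
  rw [if_pos rfl, abs_of_nonneg hk] at g3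
  have e1 : Real.sinh Q.re ^ 2 + Real.sin Q.im ^ 2 =
      ((Complex.tan w).re ^ 2 + (Complex.tan w).im ^ 2) * (k.re ^ 2 + k.im ^ 2) := by
    have e2 : ((Complex.tan w).re ^ 2 + (Complex.tan w).im ^ 2) * (k.re ^ 2 + k.im ^ 2) =
        (Complex.tan w * k).re ^ 2 + (Complex.tan w * k).im ^ 2 := by
      rw [Complex.mul_re, Complex.mul_im]; ring
    rw [e2, s1, s2]
    have a1 := Real.cosh_sq Q.re
    have a2 := Real.sin_sq_add_cos_sq Q.im
    rw [mul_pow, mul_pow, a1]
    linear_combination (-(Real.sinh Q.re ^ 2)) * a2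
  have e3 : k.re ^ 2 + k.im ^ 2 ≤ 1 := by nlinarith only [z2, g1, hk, g3]
  have e4 : Real.sinh Q.re ^ 2 ≤ τ := by
    have a1 : 0 ≤ (Complex.tan w).re ^ 2 + (Complex.tan w).im ^ 2 := by positivity
    have a2 := mul_le_mul_of_nonneg_left e3 a1
    have a3 := sq_nonneg (Real.sin Q.im)
    linarith only [hT, e1, a2, a3]
  exact (le_abs_self _).trans (le_of_sinh hv e4 h2).le

/-- bound of `|tan w|` -/
lemma Rg.tn_le (R : Rg B x y w Q Q') {A E S H τ : ℝ} (hA : w.re ≤ A) (hA1 : A ≤ 1)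
    (hE : -w.im ≤ E) (hE1 : E ≤ 1)
    (hS : (A - A ^ 3 / 6 + A ^ 5 / 100) ^ 2 ≤ S) (hS2 : S ≤ 1 / 2)
    (hH : (E + E ^ 3 / 6 + E ^ 4 * (5 / 96)) ^ 2 ≤ H)
    (hτ : S + H ≤ τ * (1 - S + H)) :
    (Complex.tan w).re ^ 2 + (Complex.tan w).im ^ 2 ≤ τ := by
  have h := R.step (A := A) (E := E) (S := S) (H := H) (τ := τ) (v := 1 + |τ| * 10) (χ := 1)
    (θ := 1) (φ := 1) hA hA1 hE hE1 hS hS2 hH hτ (by linarith only [hS2]) (by norm_num) (by positivity) ?_
    (by norm_num) (by norm_num) (by norm_num) (by norm_num) (by norm_num) (by norm_num)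
  · exact h.2.2.1
  · have h1 := abs_nonneg τ
    have h2 := le_abs_self τ
    have h3 : (1 + |τ| * 10) ^ 2 ≤ (1 + |τ| * 10 + (1 + |τ| * 10) ^ 3 / 6) ^ 2 := by
      apply pow_le_pow_left₀ (by positivity)
      have : 0 ≤ (1 + |τ| * 10) ^ 3 / 6 := by positivity
      linarith only [this]
    nlinarith only [h1, h2, h3]

end

/-- the sharper height of a ring with a split side and an unsplit side of equal sign -/
lemma im_zs {B : ℕ} {w Q Q' : ℂ} (R : Rg B .z .s w Q Q') :
    (B : ℝ) * -w.im ≤ 10050 / 10000 := by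
  have F := fin_zs R
  have hB : (8 : ℝ) ≤ B := by exact_mod_cast R.B8
  have hi := R.im_nonpos
  have e1 := R.im_eq
  have f2 := R.sd'.fa (t := .t8) rfl R.mem R.h0 R.h1
  have a1 := re_Z (v := 4888 / 10000) R.sd R.mem R.h0 R.h1 F.tn (by norm_num) (by norm_num)
  have a2 := fa_re_le (v := 5209 / 10000) f2 (fun h => absurd h (by decide)) F.tn (by norm_num)
    (by norm_num)
  norm_num [nE] at a2
  have a3 : -w.im ≤ 12622 / 100000 := by nlinarith only [hB, e1, a1, a2]
  have t := R.tn_le (A := 45543 / 100000) (E := 12622 / 100000) (S := 19350 / 100000)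
    (H := 1603 / 100000) (τ := 25478 / 100000) F.re_le (by norm_num) a3 (by norm_num)
    (by norm_num) (by norm_num) (by norm_num) (by norm_num)
  have b1 := re_Z (v := 4859 / 10000) R.sd R.mem R.h0 R.h1 t (by norm_num) (by norm_num)
  have b2 := fa_re_le (v := 5178 / 10000) f2 (fun h => absurd h (by decide)) t (by norm_num)
    (by norm_num)
  norm_num [nE] at b2
  linarith only [e1, b1, b2]

/-! ### the box of the ring variable -/

lemma zeta_re (w : ℂ) : (zeta w).re = -(w.re / Real.pi) := by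
  unfold zeta
  rw [Complex.div_ofReal_re, Complex.neg_re, neg_div]

lemma zeta_im (w : ℂ) : (zeta w).im = -w.im / Real.pi := by
  unfold zeta
  rw [Complex.div_ofReal_im, Complex.neg_im]

lemma in_box {w : ℂ} {Bx : Box} (h1 : -Bx.x0 * Real.pi ≥ w.re) (h2 : -Bx.x1 * Real.pi ≤ w.re)
    (h3 : Bx.t0 = 0) (h4 : -w.im ≤ Bx.t1 * Real.pi) (h5 : 0 ≤ -w.im) : Bx.In (zeta w) := by
  have hpi := Real.pi_pos
  unfold Box.In
  rw [zeta_re, zeta_im, h3]
  refine ⟨?_, ?_, div_nonneg h5 hpi.le, ?_⟩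
  · have : w.re / Real.pi ≤ -Bx.x0 := by rw [div_le_iff₀ hpi]; exact h1
    linarith only [this]
  · have : -Bx.x1 ≤ w.re / Real.pi := by rw [le_div_iff₀ hpi]; exact h2
    linarith only [this]
  · rw [div_le_iff₀ hpi]; exact h4

lemma Rg.im_pos {B : ℕ} {x y : SK} {w Q Q' : ℂ} (R : Rg B x y w Q Q')
    (h : 0 < (Complex.cos w).im) : 0 < -w.im := by
  have hs0 : 0 < Real.sin w.re := Real.sin_pos_of_pos_of_lt_pi R.h0
    (by linarith only [R, Real.pi_gt_three, R.h1])
  rw [(cos_parts w).2] at h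
  by_contra hc
  push Not at hc
  have : 0 ≤ Real.sinh w.im := Real.sinh_nonneg_iff.2 (by linarith only [hc])
  have := mul_nonneg hs0.le this
  linarith only [h, this]

lemma zbox_big {d : ℕ} (hd : 8 ≤ d) (e : Bool) : zbox d e =
    if e then ⟨-(155 / 1000), 0, 0, 11 / 10 / (d : ℝ) ^ 2⟩
    else ⟨-(155 / 1000), 0, 0, 23 / 10 / (d : ℝ) ^ 2⟩ := by
  unfold zbox
  rw [if_neg (by omega), if_neg (by omega), if_neg (by omega), if_neg (by omega)]

section
variable {B : ℕ} {x y : SK} {w Q Q' : ℂ}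

/-- the box of a ring with the digit `d`, in terms of the two sides -/
def Bx (d : ℕ) (e : Bool) (w : ℂ) : Prop := (zbox d e).In (zeta w)

lemma bx_inner {d : ℕ} (hd : 8 ≤ d) (R : Rg B x y w Q Q') (h0 : w.re ≤ 4845 / 10000)
    (h1 : (d : ℝ) ^ 2 * -w.im ≤ 2 * (115 / 100) * Real.pi) : Bx d false w := by
  have hpi := Real.pi_gt_d2
  have hd' : (8 : ℝ) ≤ d := by exact_mod_cast hd
  have hd2 : (0 : ℝ) < (d : ℝ) ^ 2 := by positivity
  unfold Bx
  rw [zbox_big hd]
  refine in_box ?_ ?_ rfl ?_ (by linarith only [R, R.im_nonpos])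
  · norm_num; linarith only [h0, hpi]
  · norm_num; exact R.h0.le
  · show -w.im ≤ 23 / 10 / (d : ℝ) ^ 2 * Real.pi
    rw [div_mul_eq_mul_div, le_div_iff₀ hd2]
    linarith only [h1]

lemma bx_end {d : ℕ} (hd : 8 ≤ d) (R : Rg B x y w Q Q') (h0 : w.re ≤ 4845 / 10000)
    (h1 : (d : ℝ) ^ 2 * -w.im ≤ 1 * (11 / 10) * Real.pi) : Bx d true w := by
  have hpi := Real.pi_gt_d2
  have hd' : (8 : ℝ) ≤ d := by exact_mod_cast hd
  have hd2 : (0 : ℝ) < (d : ℝ) ^ 2 := by positivity
  unfold Bx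
  rw [zbox_big hd]
  refine in_box ?_ ?_ rfl ?_ (by linarith only [R, R.im_nonpos])
  · norm_num; linarith only [h0, hpi]
  · norm_num; exact R.h0.le
  · show -w.im ≤ 11 / 10 / (d : ℝ) ^ 2 * Real.pi
    rw [div_mul_eq_mul_div, le_div_iff₀ hd2]
    linarith only [h1]

end

/-- inner rings -/
theorem ring_big {B d : ℕ} {x y : SK} {w Q Q' : ℂ} (R : Rg B x y w Q Q') (hx : x ≠ .e)
    (hy : y ≠ .e) (hB : B = d + x.u + y.u) (hd : 8 ≤ d) : Bx d false w := by
  have hR := R.symm
  have hB' : B = d + y.u + x.u := by omega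
  cases x <;> cases y
  · exact absurd rfl hx
  · exact absurd rfl hx
  · exact absurd rfl hx
  · exact absurd rfl hx
  · exact absurd rfl hy
  · exact bx_inner hd R (by linarith only [R, (fin_aa R).re_le]) (rho_aa R hd hB)
  · exact bx_inner hd R (by linarith only [R, (fin_az R).re_le]) (rho_az R hd hB)
  · exact bx_inner hd R (by linarith only [R, (fin_as R).re_le]) (rho_as R hd hB)
  · exact absurd rfl hy
  · exact bx_inner hd R (by linarith only [hR, (fin_az hR).re_le]) (rho_az hR hd hB')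
  · exact bx_inner hd R (by linarith only [R, (fin_zz R).re_le]) (rho_zz R hd hB)
  · exact bx_inner hd R (by linarith only [R, (fin_zs R).re_le]) (rho_zs R hd hB)
  · exact absurd rfl hy
  · exact bx_inner hd R (by linarith only [hR, (fin_as hR).re_le]) (rho_as hR hd hB')
  · exact bx_inner hd R (by linarith only [hR, (fin_zs hR).re_le]) (rho_zs hR hd hB')
  · exact bx_inner hd R (by linarith only [R, (fin_ss R).re_le]) (rho_ss R hd hB)

/-- end rings -/
theorem end_big {B d : ℕ} {y : SK} {w Q Q' : ℂ} (R : Rg B .e y w Q Q')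
    (hy : y ≠ .e) (hB : B = d + SK.u .e + y.u) (hd : 8 ≤ d) : Bx d true w := by
  cases y
  · exact absurd rfl hy
  · exact bx_end hd R (by linarith only [R, (fin_ea R).re_le]) (rho_ea R hd hB)
  · exact bx_end hd R (by linarith only [R, (fin_ez R).re_le]) (rho_ez R hd hB)
  · exact bx_end hd R (by linarith only [R, (fin_es R).re_le]) (rho_es R hd hB)

lemma bx7_as {w Q Q' : ℂ} (R : Rg 8 .a .s w Q Q') : Bx 7 false w := by
  have hpi := Real.pi_gt_d4
  have hpi2 := Real.pi_lt_d4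
  have F := fin_as R
  have h := R.reB (θ := 3179 / 10000) (φ := 1533 / 10000) (μ := 4565 / 10000) (ν := 1545 / 10000) F.tr F.ti
    (by norm_num) (by norm_num) (by norm_num) (by norm_num) (by norm_num) (by norm_num)
    (by norm_num) (by norm_num) (by norm_num) (by norm_num) (by norm_num) (by norm_num) (by norm_num)
  have h2 := F.imB
  have h3 := F.re_le
  have h4 := R.im_nonpos
  norm_num [nS, nZ, nA, nE] at h h2
  unfold Bx zbox
  norm_num
  refine in_box ?_ ?_ rfl ?_ (by linarith only [h4])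
  · norm_num; linarith only [hpi, h]
  · norm_num; linarith only [hpi, hpi2, h]
  · norm_num; linarith only [hpi, hpi2, h2]

lemma bx7_zs {w Q Q' : ℂ} (R : Rg 8 .z .s w Q Q') : Bx 7 false w := by
  have hpi := Real.pi_gt_d4
  have hpi2 := Real.pi_lt_d4
  have F := fin_zs R
  have h := R.reB (θ := 3389 / 10000) (φ := 1631 / 10000) (μ := 4980 / 10000) (ν := 1690 / 10000) F.tr F.ti
    (by norm_num) (by norm_num) (by norm_num) (by norm_num) (by norm_num) (by norm_num)
    (by norm_num) (by norm_num) (by norm_num) (by norm_num) (by norm_num) (by norm_num) (by norm_num)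
  have h2 := im_zs R
  have h3 := F.re_le
  have h4 := R.im_nonpos
  norm_num [nS, nZ, nA, nE] at h h2
  unfold Bx zbox
  norm_num
  refine in_box ?_ ?_ rfl ?_ (by linarith only [h4])
  · norm_num; linarith only [hpi, hpi2, h3]
  · norm_num; linarith only [hpi, hpi2, h]
  · norm_num; linarith only [hpi, hpi2, h2]

lemma bx7_ss {w Q Q' : ℂ} (R : Rg 9 .s .s w Q Q') : Bx 7 false w := by
  have hpi := Real.pi_gt_d4
  have hpi2 := Real.pi_lt_d4
  have F := fin_ss R
  have h := R.reB (θ := 3671 / 10000) (φ := 1762 / 10000) (μ := 5500 / 10000) (ν := 1894 / 10000) F.tr F.ti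
    (by norm_num) (by norm_num) (by norm_num) (by norm_num) (by norm_num) (by norm_num)
    (by norm_num) (by norm_num) (by norm_num) (by norm_num) (by norm_num) (by norm_num) (by norm_num)
  have h2 := F.imB
  have h3 := F.re_le
  have h4 := R.im_nonpos
  norm_num [nS, nZ, nA, nE] at h h2
  unfold Bx zbox
  norm_num
  refine in_box ?_ ?_ rfl ?_ (by linarith only [h4])
  · norm_num; linarith only [hpi, hpi2, h]
  · norm_num; linarith only [hpi, hpi2, h]
  · norm_num; linarith only [hpi, hpi2, h2]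

lemma bx7_es {w Q Q' : ℂ} (R : Rg 8 .e .s w Q Q') : Bx 7 true w := by
  have hpi := Real.pi_gt_d4
  have hpi2 := Real.pi_lt_d4
  have F := fin_es R
  have h := R.reB (θ := 3179 / 10000) (φ := 1533 / 10000) (μ := 4565 / 10000) (ν := 1545 / 10000) F.tr F.ti
    (by norm_num) (by norm_num) (by norm_num) (by norm_num) (by norm_num) (by norm_num)
    (by norm_num) (by norm_num) (by norm_num) (by norm_num) (by norm_num) (by norm_num) (by norm_num)
  have h2 := F.imB
  have h3 := F.re_le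
  have h4 := R.im_nonpos
  norm_num [nS, nZ, nA, nE] at h h2
  unfold Bx zbox
  norm_num
  refine in_box ?_ ?_ rfl ?_ (by linarith only [h4])
  · norm_num; linarith only [hpi, h]
  · norm_num; linarith only [hpi, hpi2, h]
  · norm_num; linarith only [hpi, hpi2, h2]

lemma bx6_ss {w Q Q' : ℂ} (R : Rg 8 .s .s w Q Q') : Bx 6 false w := by
  have hpi := Real.pi_gt_d4
  have hpi2 := Real.pi_lt_d4
  have F := fin_ss R
  have h := R.reB (θ := 3671 / 10000) (φ := 1762 / 10000) (μ := 5500 / 10000) (ν := 1894 / 10000) F.tr F.ti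
    (by norm_num) (by norm_num) (by norm_num) (by norm_num) (by norm_num) (by norm_num)
    (by norm_num) (by norm_num) (by norm_num) (by norm_num) (by norm_num) (by norm_num) (by norm_num)
  have h2 := F.imB
  have h3 := F.re_le
  have h4 := R.im_nonpos
  norm_num [nS, nZ, nA, nE] at h h2
  unfold Bx zbox
  norm_num
  refine in_box ?_ ?_ rfl ?_ (by linarith only [h4])
  · norm_num; linarith only [hpi, hpi2, h3]
  · norm_num; linarith only [hpi, hpi2, h]
  · norm_num; linarith only [hpi, hpi2, h2]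

end Z8

namespace SR

open Z8

/-- the box of the variable of an inner ring with at least eight crossings -/
theorem ring8 {K : KFam} (hK : K.Le K0) {d : ℕ} {l r : SK} {dl : ℕ} {ll : SK} {dr : ℕ} {rr : SK}
    {w kl kr : ℂ} (h : RDt K d l r dl ll dr rr w kl kr) (h8 : 8 ≤ crs d l r) :
    (zbox d false).In (zeta w) ∧ 0 < (zeta w).im := by
  have R := rg_of (h.mono hK) h8
  have hi := R.im_pos (K0_im (h.mono hK).right.mem h8)
  have hl := h.left.ok.ne
  have hr := h.right.ok.ne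
  refine ⟨?_, by rw [zeta_im]; exact div_pos hi Real.pi_pos⟩
  by_cases hd : 8 ≤ d
  · exact ring_big R hl hr rfl hd
  · have hR := R.symm
    unfold crs at h8 R hR
    cases l <;> cases r <;> simp only [SK.u] at h8 R hR
    all_goals first
      | exact absurd rfl hl
      | exact absurd rfl hr
      | (exfalso; omega)
      | skip
    · obtain rfl : d = 7 := by omega
      exact bx7_as R
    · obtain rfl : d = 7 := by omega
      exact bx7_zs R
    · obtain rfl : d = 7 := by omega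
      exact bx7_as hR
    · obtain rfl : d = 7 := by omega
      exact bx7_zs hR
    · obtain rfl | rfl : d = 7 ∨ d = 6 := by omega
      · exact bx7_ss R
      · exact bx6_ss R

/-- the box of the variable of an end ring with at least eight crossings -/
theorem end8 {K : KFam} (hK : K.Le K0) {d : ℕ} {r : SK} {dr : ℕ} {rr : SK}
    {w kr : ℂ} (h : RDe K d r dr rr w kr) (h8 : 8 ≤ crs d .e r) :
    (zbox d true).In (zeta w) ∧ 0 < (zeta w).im := by
  have R := rge_of (h.mono hK) h8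
  have hi := R.im_pos (K0_im (h.mono hK).right.mem h8)
  have hr := h.right.ok.ne
  refine ⟨?_, by rw [zeta_im]; exact div_pos hi Real.pi_pos⟩
  by_cases hd : 8 ≤ d
  · exact end_big R hr rfl hd
  · unfold crs at h8 R
    cases r <;> simp only [SK.u] at h8 R
    all_goals first
      | exact absurd rfl hr
      | (exfalso; omega)
      | skip
    obtain rfl : d = 7 := by omega
    exact bx7_es R

end SR

end Pool.Agent.Work.MP_b30479_gt.G2
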