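import Pool.Agent.Work.MP_b30479_gt.G2.SWordJ

/-!
# Small lemmas about classes and hinges
-/

namespace Pool.Agent.Work.MP_b30479_gt.G2

open Complex Set Filter Topology VOL
open scoped ComplexConjugate

namespace SR

lemma cK_ring {d : ℕ} (h : 4 ≤ d) (l : SK) : cK d l = .ring := by
  unfold cK
  rw [if_neg (by omega), if_neg (by omega), if_neg (by omega)]

lemma cK_one {d : ℕ} {l : SK} (h : cK d l = .one) : d = 1 := by
  unfold cK at h
  split_ifs at h with h1
  exact h1

lemma cK_two {d : ℕ} {l : SK} (h : cK d l = .two) : d = 2 ∧ l ≠ .e := by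
  unfold cK at h
  split_ifs at h with h1 h2 h3
  exact ⟨h2, h3⟩

lemma yH_s (R k : ℂ) : yH .s R k = acot2 (Sp R k) := by
  unfold yH
  rw [Hq_s]

lemma yH_ne {x : SK} (h : x ≠ .s) (R k : ℂ) : yH x R k = acot2 R := by
  unfold yH
  rw [Hq_of_ne h]

end SR

end Pool.Agent.Work.MP_b30479_gt.G2
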