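import Pool.Agent.Work.MP_b30479_gt.G2.SWordK
import Pool.Agent.Work.MP_b30479_gt.G2.SWordCk

/-!
# The conditions at a digit of at least `4` from boxes
-/

namespace Pool.Agent.Work.MP_b30479_gt.G2

open Complex Set Filter Topology VOL
open scoped ComplexConjugate

namespace SR

/-- real part of the tangent -/
noncomputable def TT (x t : ℝ) : ℝ := Real.sin (Real.pi * x) * Real.cos (Real.pi * x) /
  (Real.cos (Real.pi * x) ^ 2 + Real.sinh (Real.pi * t) ^ 2)

lemma PP_half (x t : ℝ) : NumI.PP (x + 1 / 2) t = -TT x t := by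
  unfold NumI.PP NumI.MM TT
  have e1 : Real.sin (Real.pi * (x + 1 / 2)) = Real.cos (Real.pi * x) := by
    rw [show Real.pi * (x + 1 / 2) = Real.pi * x + Real.pi / 2 by ring, Real.sin_add_pi_div_two]
  have e2 : Real.cos (Real.pi * (x + 1 / 2)) = -Real.sin (Real.pi * x) := by
    rw [show Real.pi * (x + 1 / 2) = Real.pi * x + Real.pi / 2 by ring, Real.cos_add_pi_div_two]
  rw [e1, e2, mul_neg, neg_div, mul_comm (Real.cos (Real.pi * x))]

section ang
variable {x t : ℝ}

lemma cos_pi_pos' (h : |x| < 1 / 2) : 0 < Real.cos (Real.pi * x) := by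
  have h1 := abs_lt.1 h
  have hpi := Real.pi_pos
  exact Real.cos_pos_of_mem_Ioo ⟨by nlinarith only [h1, hpi], by nlinarith only [h1, hpi]⟩

lemma TT_nonneg (h0 : 0 ≤ x) (h1 : x < 1 / 2) : 0 ≤ TT x t := by
  have hc := cos_pi_pos' (x := x) (by rw [abs_of_nonneg h0]; exact h1)
  have hpi := Real.pi_pos
  have hs : 0 ≤ Real.sin (Real.pi * x) := Real.sin_nonneg_of_nonneg_of_le_pi (by positivity)
    (by nlinarith only [hpi, h1])
  unfold TT
  positivity

/-- a lower bound of the tangent to the left of `0` -/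
lemma TT_ge {c : ℝ} (h0 : x ≤ 0) (h1 : -(1 / 2) < x)
    (hc : Real.sin (Real.pi * -x) ≤ c * Real.cos (Real.pi * -x)) : -c ≤ TT x t := by
  have hcp := cos_pi_pos' (x := x) (by rw [abs_of_nonpos h0]; linarith only [h1])
  have e1 : Real.sin (Real.pi * -x) = -Real.sin (Real.pi * x) := by rw [mul_neg, Real.sin_neg]
  have e2 : Real.cos (Real.pi * -x) = Real.cos (Real.pi * x) := by rw [mul_neg, Real.cos_neg]
  rw [e1, e2] at hc
  have hpi := Real.pi_pos
  have hs : 0 ≤ -Real.sin (Real.pi * x) := by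
    rw [← e1]
    exact Real.sin_nonneg_of_nonneg_of_le_pi (by nlinarith only [h0, hpi]) (by nlinarith only [hpi, h1])
  have hc0 : 0 ≤ c := by
    by_contra hn
    push Not at hn
    nlinarith only [hc, hs, hcp, hn]
  unfold TT
  rw [le_div_iff₀ (by positivity)]
  have h3 : 0 ≤ c * Real.sinh (Real.pi * t) ^ 2 := by positivity
  nlinarith only [h3, hc, hcp]

end ang

section num

open NumI NumI.E

def eT (c : ℤ) : E := sub (mul (q c 10000) (cosPi (var 0))) (sinPi (var 0))
def ePP (r : ℤ) : E := sub (mul (sinPi (var 0)) (cosPi (var 0)))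
  (mul (q r 10000) (add (sq (sinPi (var 0))) (sq (sinh (mul pi (var 1))))))
def eTT (p : ℤ) : E := sub (mul (sinPi (var 0)) (cosPi (var 0)))
  (mul (q p 10000) (add (sq (cosPi (var 0))) (sq (sinh (mul pi (var 1))))))
def eHC (T : ℤ) : E := sub (mul (q 2400 10000) (sinPi (var 0))) (mul (q T 10000) (cosPi (var 0)))

/-- the check of a box; unit `1/10000`: `X0 ≤ x ≤ X1`, `|t| ≤ T`, `S0 ≤ |σ| ≤ S1`, `|t - ρ| ≤ P` -/
def zchk (X0 X1 T S0 S1 P c p r : ℤ) : Bool :=
  chk [eT c] 40 [V.of 10000 0 (S1 - X0)] &&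
  chk [ePP r] 40 [V.of 10000 X0 X1, V.of 10000 0 T] &&
  chk [eTT p] 40 [V.of 10000 (X0 + S0) (X1 + S1), V.of 10000 0 P] &&
  chk [eHC T] 40 [V.of 10000 X0 X1] &&
  decide (0 < X0 ∧ X1 + S1 < 5000 ∧ S1 ≤ 2500 ∧ 0 ≤ S0 ∧ 0 ≤ T ∧ 0 ≤ c ∧ c < p ∧ 0 < r ∧
    2 * p * c < r * (p - c) ∧ X0 ≤ S1)

lemma sq_sinh_abs (t : ℝ) : Real.sinh (Real.pi * |t|) ^ 2 = Real.sinh (Real.pi * t) ^ 2 := by
  rcases abs_choice t with h | h <;> rw [h]
  rw [mul_neg, Real.sinh_neg, neg_sq]

/-- **The conditions in a box.** -/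
theorem zside_of_chk {X0 X1 T S0 S1 P c p r : ℤ} (h : zchk X0 X1 T S0 S1 P c p r = true)
    {y ζ : ℂ} (x0 : (X0 : ℝ) / 10000 ≤ y.re) (x1 : y.re ≤ (X1 : ℝ) / 10000)
    (ht : |y.im| ≤ (T : ℝ) / 10000) (s0 : (S0 : ℝ) / 10000 ≤ -ζ.re)
    (s1 : -ζ.re ≤ (S1 : ℝ) / 10000) (hP : |y.im - ζ.im| ≤ (P : ℝ) / 10000) :
    KZ y ζ ∧ Hr y ζ := by
  unfold zchk at h
  simp only [Bool.and_eq_true, decide_eq_true_iff] at h
  obtain ⟨⟨⟨⟨k1, k2⟩, k3⟩, k4⟩, d1, d2, d3, d4, d5, d6, d7, d8, d9, d10⟩ := h
  have hpi := Real.pi_pos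
  have c1 : (0 : ℝ) < X0 := by exact_mod_cast d1
  have c2 : (X1 : ℝ) + S1 < 5000 := by exact_mod_cast d2
  have c3 : (S1 : ℝ) ≤ 2500 := by exact_mod_cast d3
  have c4 : (0 : ℝ) ≤ S0 := by exact_mod_cast d4
  have c5 : (0 : ℝ) ≤ T := by exact_mod_cast d5
  have c6 : (0 : ℝ) ≤ c := by exact_mod_cast d6
  have c7 : (c : ℝ) < p := by exact_mod_cast d7
  have c8 : (0 : ℝ) < r := by exact_mod_cast d8
  have c9 : 2 * (p : ℝ) * c < r * (p - c) := by exact_mod_cast d9
  have c10 : (X0 : ℝ) ≤ S1 := by exact_mod_cast d10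
  have g0 : 0 < (X0 : ℝ) / 10000 := by positivity
  have g1 : (X1 : ℝ) / 10000 + S1 / 10000 < 1 / 2 := by
    rw [← add_div, div_lt_div_iff₀ (by norm_num) (by norm_num)]
    linarith only [c2]
  have g2 : (0 : ℝ) ≤ S0 / 10000 := by positivity
  have hσ : |ζ.re| = -ζ.re := abs_of_nonpos (by linarith only [s0, c4])
  -- the bound of the tangent on the left
  have b1 : -((c : ℝ) / 10000) ≤ TT (y.re + ζ.re) (y.im + ζ.im) := by
    rcases le_or_gt 0 (y.re + ζ.re) with hx | hx
    · have := TT_nonneg (t := y.im + ζ.im) hx (by linarith only [x1, s0, s1, c2, c4])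
      have : (0 : ℝ) ≤ c / 10000 := by positivity
      linarith
    · refine TT_ge hx.le (by linarith only [x0, s1, c1, c3, hx]) ?_
      have := pos_of_chk (chk1 k1 (by norm_num) (x := -(y.re + ζ.re)) (by push_cast; linarith only [hx])
        (by push_cast; rw [sub_div]; linarith only [x0, s1]))
      simp only [eT, E.val, lkR_zero] at this
      push_cast at this
      linarith only [this]
  -- the bound of the tangent on the right
  have b2 : (p : ℝ) / 10000 ≤ TT (y.re - ζ.re) (y.im - ζ.im) := by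
    have hc := cos_pi_pos' (x := y.re - ζ.re) (by rw [abs_lt]; constructor <;> linarith only [x0, s0, c1, c4, x1, s1, c2])
    have := pos_of_chk (chk2 k3 (by norm_num) (x := y.re - ζ.re) (y := |y.im - ζ.im|)
      (by push_cast; rw [add_div]; linarith only [x0, s0]) (by push_cast; rw [add_div]; linarith only [x1, s1])
      (by push_cast; rw [zero_div]; exact abs_nonneg _) hP)
    simp only [eTT, E.val, lkR_zero, lkR_one] at this
    rw [sq_sinh_abs] at this
    unfold TT
    rw [le_div_iff₀ (by positivity)]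
    push_cast at this
    linarith only [this]
  -- the bound of the cotangent
  have b3 : (r : ℝ) / 10000 ≤ NumI.PP y.re y.im := by
    have hM := NumI.MM_pos (t := y.im) (sin_pi_pos' (x := y.re) (by linarith only [x0, c1]) (by linarith only [x1, s0, s1, c2, c4]))
    have := pos_of_chk (chk2 k2 (by norm_num) (x := y.re) (y := |y.im|) x0 x1
      (by push_cast; rw [zero_div]; exact abs_nonneg _) ht)
    simp only [ePP, E.val, lkR_zero, lkR_one] at this
    rw [sq_sinh_abs] at this
    unfold NumI.PP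
    rw [le_div_iff₀ hM]
    unfold NumI.MM
    push_cast at this
    linarith only [this]
  have b4 : hc y < 24 / 100 := by
    have hs := sin_pi_pos' (x := y.re) (by linarith only [x0, c1]) (by linarith only [x1, s0, s1, c2, c4])
    have hcc : 0 < Real.cos (Real.pi * y.re) :=
      cos_pi_pos' (by rw [abs_of_pos (by linarith only [x0, c1])]; linarith only [x1, s0, s1, c2, c4])
    have := pos_of_chk (chk1 k4 (by norm_num) (x := y.re) x0 x1)
    simp only [eHC, E.val, lkR_zero] at this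
    unfold hc
    rw [abs_div, abs_of_pos hs, abs_of_pos hcc, ← mul_div_assoc, div_lt_iff₀ hs]
    have h2 := mul_le_mul_of_nonneg_right ht hcc.le
    push_cast at this
    linarith only [h2, this]
  refine ⟨⟨by linarith only [x0, c1], by rw [hσ]; linarith only [x1, s1, c2], Or.inr ?_⟩, ?_⟩
  · rw [hσ]
    have : (S1 : ℝ) / 10000 ≤ 25 / 100 := by
      rw [div_le_div_iff₀ (by norm_num) (by norm_num)]
      linarith only [c3]
    linarith only [s1, c3, b4]
  · -- the second derivative
    have e1 : (ph' (y + 1 / 2 + ζ)).re = -(Real.pi * TT (y.re + ζ.re) (y.im + ζ.im)) := by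
      rw [ph'_re_PP ⟨by simp; linarith only [x0, s1, c1, c3], by simp; linarith only [x1, s0, s1, c2, c4]⟩]
      have e : (y + 1 / 2 + ζ).re = (y.re + ζ.re) + 1 / 2 := by
        simp
        ring
      have e' : (y + 1 / 2 + ζ).im = y.im + ζ.im := by simp
      rw [e, e', PP_half]
      ring
    have e2 : (ph' (y + 1 / 2 - ζ)).re = -(Real.pi * TT (y.re - ζ.re) (y.im - ζ.im)) := by
      rw [ph'_re_PP ⟨by simp; linarith only [x0, s0, c1, c4], by simp; linarith only [x1, s1, c2]⟩]
      have e : (y + 1 / 2 - ζ).re = (y.re - ζ.re) + 1 / 2 := by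
        simp
        ring
      have e' : (y + 1 / 2 - ζ).im = y.im - ζ.im := by simp
      rw [e, e', PP_half]
      ring
    have e3 : (ph' y).re = Real.pi * NumI.PP y.re y.im :=
      ph'_re_PP ⟨by linarith only [x0, c1], by linarith only [x1, s0, s1, c2, c4]⟩
    unfold Hr
    rw [e1, e2, e3]
    set A := TT (y.re + ζ.re) (y.im + ζ.im)
    set B := TT (y.re - ζ.re) (y.im - ζ.im)
    set C := NumI.PP y.re y.im
    have q1 : 0 < (p - c : ℝ) / 10000 := div_pos (by linarith only [c7]) (by norm_num)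
    have q2 : (p - c : ℝ) / 10000 ≤ A + B := by rw [sub_div]; linarith only [b1, b2]
    have q3 : 0 < A + B := by linarith only [c7, b1, b2]
    constructor
    · have : 0 < Real.pi * (A + B) := by positivity
      linarith only [this]
    · have hC : 0 < C := lt_of_lt_of_le (by positivity) b3
      have hp : (0 : ℝ) < p := by linarith only [c6, c7]
      have hB : 0 < B := lt_of_lt_of_le (by positivity) b2
      -- `2 A B + C (A + B) > 0`
      have key : 0 < 2 * A * B + C * (A + B) := by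
        have t1 : -((c : ℝ) / 10000) * (2 * B + C) ≤ A * (2 * B + C) :=
          mul_le_mul_of_nonneg_right b1 (by positivity)
        -- `(C - 2 c) B > c C`
        have hr2 : 2 * (c : ℝ) < r := by
          by_contra hn
          push Not at hn
          have := mul_le_mul_of_nonneg_right hn (by linarith only [c7] : (0 : ℝ) ≤ p - c)
          nlinarith only [c9, this, c6]
        have t2 : ((r : ℝ) / 10000 - 2 * (c / 10000)) * (p / 10000) ≤
            (C - 2 * (c / 10000)) * B := by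
          apply mul_le_mul _ b2 (by positivity)
          · have : 0 ≤ ((r : ℝ) - 2 * c) / 10000 := by
              apply div_nonneg _ (by norm_num)
              linarith only [hr2]
            rw [sub_div, mul_div_assoc] at this
            linarith only [b3, hr2]
          · linarith only [b3]
        have t3 : 0 < C * (B - c / 10000) - 2 * (c / 10000) * B := by
          have u1 : 0 < C - 2 * ((c : ℝ) / 10000) := by
            have : 0 < ((r : ℝ) - 2 * c) / 10000 := div_pos (by linarith only [hr2]) (by norm_num)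
            rw [sub_div, mul_div_assoc] at this
            linarith only [b3, hr2]
          have u2 : (C - 2 * ((c : ℝ) / 10000)) * (p / 10000) ≤
              (C - 2 * (c / 10000)) * B := mul_le_mul_of_nonneg_left b2 u1.le
          have u3 : C * ((p : ℝ) / 10000 - c / 10000) ≥ (r / 10000) * (p / 10000 - c / 10000) := by
            apply mul_le_mul_of_nonneg_right b3
            rw [← sub_div]
            exact q1.le
          have u4 : 0 < (r : ℝ) / 10000 * (p / 10000 - c / 10000) -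
              2 * (c / 10000) * (p / 10000) := by
            have : (r : ℝ) / 10000 * (p / 10000 - c / 10000) - 2 * (c / 10000) * (p / 10000) =
                (r * (p - c) - 2 * p * c) / 100000000 := by ring
            rw [this]
            apply div_pos _ (by norm_num)
            linarith only [c9]
          nlinarith only [c9, u2, u3]
        nlinarith only [t1, t3]
      have : 0 < Real.pi ^ 2 * (2 * (2 * A * B + C * (A + B))) := by positivity
      nlinarith only [this]

end num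

/-- the simple case -/
theorem zside_easy {y ζ : ℂ} (h : |ζ.re| < y.re) (h1 : y.re + |ζ.re| < 1 / 2) :
    KZ y ζ ∧ Hr y ζ := by
  have h0 := abs_nonneg ζ.re
  exact ⟨⟨by linarith only [h, h0], h1, Or.inl h.le⟩, Hr_of (by linarith only [h, h0]) (by linarith only [h1, h0]) h (by linarith only [h1])⟩

/-! ### the boxes -/

section boxes

variable {y ζ : ℂ}

/-- digits `5`, `6` -/
theorem zside56 {B : Cl} {s : Bool} (hB : B ≠ .one) (hy : (hbox .ring B s).In y)
    (s0 : 109 / 1000 ≤ -ζ.re) (s1 : -ζ.re ≤ 206 / 1000) (r0 : 0 ≤ ζ.im)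
    (r1 : ζ.im ≤ 725 / 10000) : KZ y ζ ∧ Hr y ζ := by
  obtain ⟨h1, h2, h3, h4⟩ := hy
  have f : ∀ {P : ℝ}, -P ≤ y.im - ζ.im → y.im - ζ.im ≤ P → |y.im - ζ.im| ≤ P :=
    fun h h' => abs_le.2 ⟨h, h'⟩
  cases B
  case one => exact absurd rfl hB
  case two =>
    simp only [hbox] at h1 h2 h3 h4
    refine zside_of_chk (X0 := 1860) (X1 := 2520) (T := 960) (S0 := 1090) (S1 := 2060) (P := 1685)
      (c := 650) (p := 3900) (r := 8200) (by decide +kernel) ?_ ?_ (abs_le.2 ⟨?_, ?_⟩) ?_ ?_
      (abs_le.2 ⟨?_, ?_⟩) <;> norm_num <;> linarith only [h1, h2, h3, h4, s0, s1, r1, r0]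
  case twoE =>
    simp only [hbox] at h1 h2 h3 h4
    refine zside_of_chk (X0 := 1640) (X1 := 1860) (T := 1310) (S0 := 1090) (S1 := 2060) (P := 2035)
      (c := 1350) (p := 5300) (r := 9400) (by decide +kernel) ?_ ?_ (abs_le.2 ⟨?_, ?_⟩) ?_ ?_
      (abs_le.2 ⟨?_, ?_⟩) <;> norm_num <;> linarith only [h1, h2, h3, h4, s0, s1, r1, r0]
  case three =>
    simp only [hbox] at h1 h2 h3 h4
    refine zside_of_chk (X0 := 1880) (X1 := 2340) (T := 570) (S0 := 1090) (S1 := 2060) (P := 1295)
      (c := 590) (p := 8500) (r := 10200) (by decide +kernel) ?_ ?_ (abs_le.2 ⟨?_, ?_⟩) ?_ ?_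
      (abs_le.2 ⟨?_, ?_⟩) <;> norm_num <;> linarith only [h1, h2, h3, h4, s0, s1, r1, r0]
  case threeE =>
    simp only [hbox] at h1 h2 h3 h4
    refine zside_of_chk (X0 := 1710) (X1 := 1950) (T := 580) (S0 := 1090) (S1 := 2060) (P := 1305)
      (c := 1130) (p := 8200) (r := 12700) (by decide +kernel) ?_ ?_ (abs_le.2 ⟨?_, ?_⟩) ?_ ?_
      (abs_le.2 ⟨?_, ?_⟩) <;> norm_num <;> linarith only [h1, h2, h3, h4, s0, s1, r1, r0]
  case ring =>
    cases s
    · simp only [hbox] at h1 h2 h3 h4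
      refine zside_of_chk (X0 := 1820) (X1 := 2520) (T := 385) (S0 := 1090) (S1 := 2060)
        (P := 1110) (c := 780) (p := 8800) (r := 9500) (by decide +kernel) ?_ ?_
        (abs_le.2 ⟨?_, ?_⟩) ?_ ?_ (abs_le.2 ⟨?_, ?_⟩) <;> norm_num <;> linarith only [h1, h2, h3, h4, s0, s1, r1, r0]
    · simp only [hbox] at h1 h2 h3 h4
      refine zside_of_chk (X0 := 1700) (X1 := 2520) (T := 590) (S0 := 1090) (S1 := 2060)
        (P := 735) (c := 1160) (p := 10300) (r := 9100) (by decide +kernel) ?_ ?_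
        (abs_le.2 ⟨?_, ?_⟩) ?_ ?_ (abs_le.2 ⟨?_, ?_⟩) <;> norm_num <;> linarith only [h1, h2, h3, h4, s0, s1, r1, r0]

/-- the digit `4`, inside -/
theorem zside4 {B : Cl} {s : Bool} (hB : B = .one → y.re ≤ 268 / 1000)
    (hy : (hbox .ring B s).In y) (s0 : 144 / 1000 ≤ -ζ.re) (s1 : -ζ.re ≤ 22 / 100)
    (r0 : 0 ≤ ζ.im) (r1 : ζ.im ≤ 1045 / 10000) : KZ y ζ ∧ Hr y ζ := by
  obtain ⟨h1, h2, h3, h4⟩ := hy
  cases B
  case one =>
    have hB' := hB rfl
    simp only [hbox] at h1 h2 h3 h4
    refine zside_of_chk (X0 := 2140) (X1 := 2680) (T := 1580) (S0 := 1440) (S1 := 2200) (P := 2625)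
      (c := 200) (p := 430) (r := 5950) (by decide +kernel) ?_ ?_ (abs_le.2 ⟨?_, ?_⟩) ?_ ?_
      (abs_le.2 ⟨?_, ?_⟩) <;> norm_num <;> linarith only [h1, hB', h3, h4, s0, s1, r1, r0]
  case two =>
    simp only [hbox] at h1 h2 h3 h4
    refine zside_of_chk (X0 := 1860) (X1 := 2520) (T := 960) (S0 := 1440) (S1 := 2200) (P := 2005)
      (c := 1080) (p := 1880) (r := 8300) (by decide +kernel) ?_ ?_ (abs_le.2 ⟨?_, ?_⟩) ?_ ?_
      (abs_le.2 ⟨?_, ?_⟩) <;> norm_num <;> linarith only [h1, h2, h3, h4, s0, s1, r1, r0]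
  case twoE =>
    simp only [hbox] at h1 h2 h3 h4
    refine zside_of_chk (X0 := 1640) (X1 := 1860) (T := 1310) (S0 := 1440) (S1 := 2200) (P := 2355)
      (c := 1790) (p := 3700) (r := 9500) (by decide +kernel) ?_ ?_ (abs_le.2 ⟨?_, ?_⟩) ?_ ?_
      (abs_le.2 ⟨?_, ?_⟩) <;> norm_num <;> linarith only [h1, h2, h3, h4, s0, s1, r1, r0]
  case three =>
    simp only [hbox] at h1 h2 h3 h4
    refine zside_of_chk (X0 := 1880) (X1 := 2340) (T := 570) (S0 := 1440) (S1 := 2200) (P := 1615)
      (c := 1020) (p := 4650) (r := 10200) (by decide +kernel) ?_ ?_ (abs_le.2 ⟨?_, ?_⟩) ?_ ?_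
      (abs_le.2 ⟨?_, ?_⟩) <;> norm_num <;> linarith only [h1, h2, h3, h4, s0, s1, r1, r0]
  case threeE =>
    simp only [hbox] at h1 h2 h3 h4
    refine zside_of_chk (X0 := 1710) (X1 := 1950) (T := 580) (S0 := 1440) (S1 := 2200) (P := 1625)
      (c := 1560) (p := 7100) (r := 12800) (by decide +kernel) ?_ ?_ (abs_le.2 ⟨?_, ?_⟩) ?_ ?_
      (abs_le.2 ⟨?_, ?_⟩) <;> norm_num <;> linarith only [h1, h2, h3, h4, s0, s1, r1, r0]
  case ring =>
    cases s
    · simp only [hbox] at h1 h2 h3 h4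
      refine zside_of_chk (X0 := 1820) (X1 := 2520) (T := 385) (S0 := 1440) (S1 := 2200)
        (P := 1430) (c := 1210) (p := 3850) (r := 9500) (by decide +kernel) ?_ ?_
        (abs_le.2 ⟨?_, ?_⟩) ?_ ?_ (abs_le.2 ⟨?_, ?_⟩) <;> norm_num <;> linarith only [h1, h2, h3, h4, s0, s1, r1, r0]
    · simp only [hbox] at h1 h2 h3 h4
      refine zside_of_chk (X0 := 1700) (X1 := 2520) (T := 590) (S0 := 1440) (S1 := 2200)
        (P := 1055) (c := 1590) (p := 7000) (r := 9100) (by decide +kernel) ?_ ?_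
        (abs_le.2 ⟨?_, ?_⟩) ?_ ?_ (abs_le.2 ⟨?_, ?_⟩) <;> norm_num <;> linarith only [h1, h2, h3, h4, s0, s1, r1, r0]

/-- the digit `4` at an end, the other region has the opposite sign -/
theorem zside4e {B : Cl} (hB : B = .one → y.re ≤ 247 / 1000) (hB2 : B = .two → y.re ≤ 24 / 100)
    (hy : (hbox .ring B false).In y) (s0 : 186 / 1000 ≤ -ζ.re) (s1 : -ζ.re ≤ 2345 / 10000)
    (r0 : 0 ≤ ζ.im) (r1 : ζ.im ≤ 65 / 1000) : KZ y ζ ∧ Hr y ζ := by
  obtain ⟨h1, h2, h3, h4⟩ := hy
  cases B
  case one =>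
    have hB' := hB rfl
    simp only [hbox] at h1 h2 h3 h4
    refine zside_of_chk (X0 := 2140) (X1 := 2470) (T := 1580) (S0 := 1860) (S1 := 2345) (P := 2230)
      (c := 650) (p := 980) (r := 6530) (by decide +kernel) ?_ ?_ (abs_le.2 ⟨?_, ?_⟩) ?_ ?_
      (abs_le.2 ⟨?_, ?_⟩) <;> norm_num <;> linarith only [h1, hB', h3, h4, s0, s1, r1, r0]
  case two =>
    have hB' := hB2 rfl
    simp only [hbox] at h1 h2 h3 h4
    refine zside_of_chk (X0 := 1860) (X1 := 2400) (T := 960) (S0 := 1860) (S1 := 2345) (P := 1610)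
      (c := 1540) (p := 2780) (r := 8820) (by decide +kernel) ?_ ?_ (abs_le.2 ⟨?_, ?_⟩) ?_ ?_
      (abs_le.2 ⟨?_, ?_⟩) <;> norm_num <;> linarith only [h1, hB', h3, h4, s0, s1, r1, r0]
  case twoE =>
    simp only [hbox] at h1 h2 h3 h4
    refine zside_of_chk (X0 := 1640) (X1 := 1860) (T := 1310) (S0 := 1860) (S1 := 2345) (P := 1960)
      (c := 2260) (p := 4860) (r := 9500) (by decide +kernel) ?_ ?_ (abs_le.2 ⟨?_, ?_⟩) ?_ ?_
      (abs_le.2 ⟨?_, ?_⟩) <;> norm_num <;> linarith only [h1, h2, h3, h4, s0, s1, r1, r0]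
  case three =>
    simp only [hbox] at h1 h2 h3 h4
    refine zside_of_chk (X0 := 1880) (X1 := 2340) (T := 570) (S0 := 1860) (S1 := 2345) (P := 1220)
      (c := 1480) (p := 5900) (r := 10200) (by decide +kernel) ?_ ?_ (abs_le.2 ⟨?_, ?_⟩) ?_ ?_
      (abs_le.2 ⟨?_, ?_⟩) <;> norm_num <;> linarith only [h1, h2, h3, h4, s0, s1, r1, r0]
  case threeE =>
    simp only [hbox] at h1 h2 h3 h4
    refine zside_of_chk (X0 := 1710) (X1 := 1950) (T := 580) (S0 := 1860) (S1 := 2345) (P := 1230)
      (c := 2030) (p := 10300) (r := 12800) (by decide +kernel) ?_ ?_ (abs_le.2 ⟨?_, ?_⟩) ?_ ?_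
      (abs_le.2 ⟨?_, ?_⟩) <;> norm_num <;> linarith only [h1, h2, h3, h4, s0, s1, r1, r0]
  case ring =>
    simp only [hbox] at h1 h2 h3 h4
    refine zside_of_chk (X0 := 1820) (X1 := 2520) (T := 385) (S0 := 1860) (S1 := 2345)
      (P := 1035) (c := 1670) (p := 3750) (r := 9500) (by decide +kernel) ?_ ?_
      (abs_le.2 ⟨?_, ?_⟩) ?_ ?_ (abs_le.2 ⟨?_, ?_⟩) <;> norm_num <;> linarith only [h1, h2, h3, h4, s0, s1, r1, r0]

/-- the digit `4` at an end, the other region has the same sign -/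
theorem zside4z (hx : y.re ≤ 24 / 100) (hy : (hbox .ring .ring true).In y)
    (s0 : 186 / 1000 ≤ -ζ.re) (s1 : -ζ.re ≤ 248 / 1000)
    (r0 : 0 ≤ ζ.im) (r1 : ζ.im ≤ 65 / 1000) : KZ y ζ ∧ Hr y ζ := by
  obtain ⟨h1, h2, h3, h4⟩ := hy
  simp only [hbox] at h1 h2 h3 h4
  refine zside_of_chk (X0 := 1700) (X1 := 2400) (T := 590) (S0 := 1860) (S1 := 2480)
    (P := 660) (c := 2510) (p := 8200) (r := 9850) (by decide +kernel) ?_ ?_
    (abs_le.2 ⟨?_, ?_⟩) ?_ ?_ (abs_le.2 ⟨?_, ?_⟩) <;> norm_num <;> linarith only [h1, hx, h3, h4, s0, s1, r1, r0]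

end boxes

/-! ### the rows -/

/-- The statements about digits `4`, `5` which are needed besides the boxes.  -/
structure ZRows (K : KFam) : Prop where
  sE4a : ∀ {dr rr w kr}, RDe K 4 .a dr rr w kr → |(zeta w).re| ≤ 2345 / 10000
  sE4s : ∀ {dr rr w kr}, RDe K 4 .s dr rr w kr → |(zeta w).re| ≤ 2185 / 10000
  sE5 : ∀ {r dr rr w kr}, RDe K 5 r dr rr w kr → r ≠ .z → |(zeta w).re| ≤ 195 / 1000
  s4s : ∀ {r dl ll dr rr w kl kr}, RDt K 4 .s r dl ll dr rr w kl kr →
    |(zeta w).re| ≤ (if r = .z then 203 / 1000 else 200 / 1000)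
  s4 : ∀ {l r dl ll dr rr w kl kr}, RDt K 4 l r dl ll dr rr w kl kr → |(zeta w).re| ≤ 22 / 100
  y41 : ∀ {l l' R k k'}, HDt K .a 4 l 1 l' R k k' → (acot2 R).re ≤ 268 / 1000
  y41e : ∀ {l' R k k'}, HDt K .a 4 .e 1 l' R k k' → (acot2 R).re ≤ 247 / 1000
  y42e : ∀ {l' R k k'}, HDt K .a 4 .e 2 l' R k k' → l' ≠ .e → (acot2 R).re ≤ 24 / 100
  y4z : ∀ {d' l' R k k'}, HDt K .z 4 .e d' l' R k k' → (acot2 R).re ≤ 24 / 100
  y4s : ∀ {d' l' R k k'}, HDt K .s 4 .z d' l' R k k' → (acot2 (Sp R k)).re ≤ 2969 / 10000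
  y4se : ∀ {d' l' R k k'}, HDt K .s 4 .e d' l' R k k' →
    216 / 1000 ≤ (acot2 (Sp R k)).re ∧ (acot2 (Sp R k)).re ≤ 278 / 1000

/-- digits of at least `7` -/
lemma zbox7 {n : ℕ} (h : 7 ≤ n) {e : Bool} {z : ℂ} (hz : (zbox n e).In z) :
    |z.re| ≤ 155 / 1000 := by
  unfold zbox at hz
  rw [if_neg (by omega), if_neg (by omega), if_neg (by omega)] at hz
  rw [abs_le]
  split_ifs at hz <;> obtain ⟨h1, h2, h3, h4⟩ := hz <;> simp only at h1 h2 <;>
    constructor <;> linarith only [h1, h2]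

lemma zbox56 {n : ℕ} (h : n = 5 ∨ n = 6) {e : Bool} {z : ℂ} (hz : (zbox n e).In z) :
    109 / 1000 ≤ -z.re ∧ -z.re ≤ 206 / 1000 ∧ 0 ≤ z.im ∧ z.im ≤ 725 / 10000 := by
  unfold zbox at hz
  rcases h with rfl | rfl <;> norm_num at hz <;> split_ifs at hz <;>
    obtain ⟨h1, h2, h3, h4⟩ := hz <;> simp only at h1 h2 h3 h4 <;>
    refine ⟨?_, ?_, ?_, ?_⟩ <;> linarith only [h2, h1, h3, h4]

lemma zbox4 {e : Bool} {z : ℂ} (hz : (zbox 4 e).In z) :
    144 / 1000 ≤ -z.re ∧ 0 ≤ z.im ∧ z.im ≤ 1045 / 10000 := by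
  unfold zbox at hz
  rw [if_pos rfl] at hz
  split_ifs at hz <;> obtain ⟨h1, h2, h3, h4⟩ := hz <;> simp only at h1 h2 h3 h4 <;>
    refine ⟨?_, ?_, ?_⟩ <;> linarith only [h2, h3, h4]

lemma zbox4e {z : ℂ} (hz : (zbox 4 true).In z) :
    186 / 1000 ≤ -z.re ∧ -z.re ≤ 248 / 1000 ∧ 0 ≤ z.im ∧ z.im ≤ 65 / 1000 := by
  unfold zbox at hz
  rw [if_pos rfl, if_pos rfl] at hz
  obtain ⟨h1, h2, h3, h4⟩ := hz
  simp only at h1 h2 h3 h4
  refine ⟨?_, ?_, ?_, ?_⟩ <;> linarith only [h2, h1, h3, h4]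

/-- the hinge next to a ring, with the box -/
lemma ring_hinge {K : KFam} (Bx : BoxRows K) {x : SK} {d : ℕ} {l : SK} {d' : ℕ} {l' : SK}
    {R k k' : ℂ} (hd : 4 ≤ d) (h : HDt K x d l d' l' R k k') :
    (x = .s ∧ (hbox .ring .one false).In (acot2 (Sp R k))) ∨
    (x ≠ .s ∧ (hbox .ring (cK d' l') (decide (x = .z))).In (acot2 R)) := by
  by_cases hx : x = .s
  · left
    subst hx
    have := (Bx.sp h).1
    rw [cK_ring hd] at this
    exact ⟨rfl, this⟩
  · right
    have := Bx.un hx h
    rw [cK_ring hd] at this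
    exact ⟨hx, this⟩

/-- **The conditions at a digit of at least `4`, inside.** -/
theorem hZ_of {K : KFam} (Bx : BoxRows K) (Z : ZRows K) {d : ℕ} {l r : SK} {dl : ℕ} {ll : SK}
    {dr : ℕ} {rr : SK} {w kl kr : ℂ} (hd : 4 ≤ d) (h : RDt K d l r dl ll dr rr w kl kr) :
    ZSide l w kl := by
  have hz := (Bx.ring hd h).1
  unfold ZSide
  rcases ring_hinge Bx hd h.left with ⟨rfl, hy⟩ | ⟨hl, hy⟩
  · rw [yH_s]
    obtain ⟨h1, h2, h3, h4⟩ := hy
    simp only [hbox] at h1 h2 h3 h4
    by_cases h4' : d = 4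
    · subst h4'
      have g1 := Z.s4s h
      by_cases hr : r = .z
      · subst hr
        rw [if_pos rfl] at g1
        have g2 := Z.y4s h.left
        exact zside_easy (by linarith only [h1, g1]) (by linarith only [g1, g2])
      · rw [if_neg hr] at g1
        exact zside_easy (by linarith only [h1, g1]) (by linarith only [h2, g1])
    · have : |(zeta w).re| ≤ 194 / 1000 := by
        by_cases h7 : 7 ≤ d
        · linarith only [h7, hz, zbox7 h7 hz]
        · have h56 : d = 5 ∨ d = 6 := by omega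
          unfold zbox at hz
          rw [abs_le]
          rcases h56 with rfl | rfl <;> norm_num at hz <;> obtain ⟨z1, z2, z3, z4⟩ := hz <;>
            simp only at z1 z2 <;> constructor <;> linarith only [z1, z2]
      exact zside_easy (by linarith only [h1, this]) (by linarith only [h2, this])
  · rw [yH_ne hl]
    have hlz : l = .z → cK dl ll = .ring := fun h0 => cK_ring (h.left.ok.right.zl h0) ll
    by_cases h4' : d = 4
    · subst h4'
      obtain ⟨z1, z2, z3⟩ := zbox4 hz
      have g1 := Z.s4 h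
      have g1' := (abs_le.1 g1).1
      refine zside4 (fun h0 => ?_) hy z1 (by linarith only [g1']) z2 z3
      have hla : l = .a := by
        cases l
        · exact absurd rfl h.left.ok.ne
        · rfl
        · rw [hlz rfl] at h0
          exact absurd h0 (by decide)
        · exact absurd rfl hl
      subst hla
      rw [cK_one h0] at h
      exact Z.y41 h.left
    · by_cases h7 : 7 ≤ d
      · have z0 := zbox7 h7 hz
        obtain ⟨h1, h2, h3, h4⟩ := hy
        have hx : 164 / 1000 ≤ (acot2 (RR w kl)).re ∧ (acot2 (RR w kl)).re ≤ 298 / 1000 := by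
          generalize cK dl ll = B at *
          generalize decide (l = .z) = s at *
          cases B <;> cases s <;> simp only [hbox] at h1 h2 <;> constructor <;> linarith only [h1, h2]
        exact zside_easy (by linarith only [z0, hx, hx.1]) (by linarith only [z0, hx, hx.2])
      · have h56 : d = 5 ∨ d = 6 := by omega
        by_cases hB : cK dl ll = .one
        · rw [hB] at hy
          obtain ⟨h1, h2, h3, h4⟩ := hy
          have hx : 214 / 1000 ≤ (acot2 (RR w kl)).re ∧ (acot2 (RR w kl)).re ≤ 298 / 1000 := by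
            generalize decide (l = .z) = s at *
            cases s <;> simp only [hbox] at h1 h2 <;> constructor <;> linarith only [h1, h2]
          have : |(zeta w).re| ≤ 194 / 1000 := by
            unfold zbox at hz
            rw [abs_le]
            rcases h56 with rfl | rfl <;> norm_num at hz <;> obtain ⟨z1, z2, z3, z4⟩ := hz <;>
              simp only at z1 z2 <;> constructor <;> linarith only [z1, z2]
          exact zside_easy (by linarith only [hx, this, hx.1]) (by linarith only [hx, this, hx.2])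
        · obtain ⟨z1, z2, z3, z4⟩ := zbox56 h56 hz
          exact zside56 hB hy z1 z2 z3 z4

/-- **The conditions at a digit of at least `4`, at an end.** -/
theorem hZe_of {K : KFam} (Bx : BoxRows K) (Z : ZRows K) {d : ℕ} {r : SK}
    {dr : ℕ} {rr : SK} {w kr : ℂ} (hd : 4 ≤ d) (h : RDe K d r dr rr w kr) :
    ZSide r w kr := by
  have hz := (Bx.ringE hd h).1
  unfold ZSide
  rcases ring_hinge Bx hd h.right with ⟨rfl, hy⟩ | ⟨hl, hy⟩
  · rw [yH_s]
    obtain ⟨h1, h2, h3, h4⟩ := hy
    simp only [hbox] at h1 h2 h3 h4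
    by_cases h4' : d = 4
    · subst h4'
      have g1 := (abs_le.1 (Z.sE4s h)).1
      have g2 := Z.y4se h.right
      obtain ⟨z1, z2, z3, z4⟩ := zbox4e hz
      refine zside_of_chk (X0 := 2160) (X1 := 2780) (T := 1580) (S0 := 1860) (S1 := 2185)
        (P := 2230) (c := 85) (p := 180) (r := 5650) (by decide +kernel) ?_ ?_ (abs_le.2 ⟨?_, ?_⟩)
        ?_ ?_ (abs_le.2 ⟨?_, ?_⟩) <;> norm_num <;> linarith only [g2, h3, h4, z1, g1, z4, z3]
    · have : |(zeta w).re| ≤ 195 / 1000 := by
        by_cases h7 : 7 ≤ d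
        · linarith only [h7, hz, zbox7 h7 hz]
        · by_cases h5 : d = 5
          · subst h5
            exact Z.sE5 h (by decide)
          · have h6 : d = 6 := by omega
            subst h6
            unfold zbox at hz
            rw [abs_le]
            norm_num at hz
            obtain ⟨z1, z2, z3, z4⟩ := hz
            simp only at z1 z2
            constructor <;> linarith only [z1, z2]
      exact zside_easy (by linarith only [h1, this]) (by linarith only [h2, this])
  · rw [yH_ne hl]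
    have hlz : r = .z → cK dr rr = .ring := fun h0 => cK_ring (h.right.ok.right.zl h0) rr
    by_cases h4' : d = 4
    · subst h4'
      obtain ⟨z1, z2, z3, z4⟩ := zbox4e hz
      by_cases hrz : r = .z
      · subst hrz
        rw [hlz rfl] at hy
        exact zside4z (Z.y4z h.right) hy z1 z2 z3 z4
      · have hra : r = .a := by
          cases r
          · exact absurd rfl h.right.ok.ne
          · rfl
          · exact absurd rfl hrz
          · exact absurd rfl hl
        subst hra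
        have g1' := (abs_le.1 (Z.sE4a h)).1
        refine zside4e (fun h0 => ?_) (fun h0 => ?_) hy z1 (by linarith only [g1']) z3 z4
        · rw [cK_one h0] at h
          exact Z.y41e h.right
        · rw [(cK_two h0).1] at h
          exact Z.y42e h.right (cK_two h0).2
    · by_cases h7 : 7 ≤ d
      · have z0 := zbox7 h7 hz
        obtain ⟨h1, h2, h3, h4⟩ := hy
        have hx : 164 / 1000 ≤ (acot2 (RR w kr)).re ∧ (acot2 (RR w kr)).re ≤ 298 / 1000 := by
          generalize cK dr rr = B at *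
          generalize decide (r = .z) = s at *
          cases B <;> cases s <;> simp only [hbox] at h1 h2 <;> constructor <;> linarith only [h1, h2]
        exact zside_easy (by linarith only [z0, hx, hx.1]) (by linarith only [z0, hx, hx.2])
      · have h56 : d = 5 ∨ d = 6 := by omega
        by_cases hB : cK dr rr = .one
        · have hrz : r ≠ .z := fun h0 => by
            rw [hlz h0] at hB
            exact absurd hB (by decide)
          rw [hB] at hy
          obtain ⟨h1, h2, h3, h4⟩ := hy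
          have hx : 214 / 1000 ≤ (acot2 (RR w kr)).re ∧ (acot2 (RR w kr)).re ≤ 298 / 1000 := by
            generalize decide (r = .z) = s at *
            cases s <;> simp only [hbox] at h1 h2 <;> constructor <;> linarith only [h1, h2]
          have : |(zeta w).re| ≤ 195 / 1000 := by
            rcases h56 with rfl | rfl
            · exact Z.sE5 h hrz
            · unfold zbox at hz
              rw [abs_le]
              norm_num at hz
              obtain ⟨z1, z2, z3, z4⟩ := hz
              simp only at z1 z2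
              constructor <;> linarith only [z1, z2]
          exact zside_easy (by linarith only [hx, this, hx.1]) (by linarith only [hx, this, hx.2])
        · obtain ⟨z1, z2, z3, z4⟩ := zbox56 h56 hz
          exact zside56 hB hy z1 z2 z3 z4

end SR

end Pool.Agent.Work.MP_b30479_gt.G2
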