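import Mathlib

/-!
# The typed polygons of the ring values

Own frame (positive twist region, `w = α - i η`, `κ = cos w` in the upper half plane). All polygons
are given by their vertices in counterclockwise order, in units of `1 / 1000`.
-/

namespace Pool.Agent.Work.MP_b30479_gt.G2

/-- cross product of `q - p` and `1000 z - p` -/
def cr (p q : ℤ × ℤ) (z : ℂ) : ℝ :=
  ((q.1 - p.1 : ℤ) : ℝ) * (1000 * z.im - (p.2 : ℝ)) -
    ((q.2 - p.2 : ℤ) : ℝ) * (1000 * z.re - (p.1 : ℝ))

/-- the edges of the closed polygon with the vertices `V` -/
def edges (V : List (ℤ × ℤ)) : List ((ℤ × ℤ) × (ℤ × ℤ)) := V.zip (V.rotate 1)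

/-- the closed polygon with vertices `V` (counterclockwise, in units of `1 / 1000`) -/
def Poly (V : List (ℤ × ℤ)) : Set ℂ := {z | ∀ e ∈ edges V, 0 ≤ cr e.1 e.2 z}

/-- its interior -/
def PolyU (V : List (ℤ × ℤ)) : Set ℂ := {z | ∀ e ∈ edges V, 0 < cr e.1 e.2 z}

/-- mirror image in the real axis -/
def mir (V : List (ℤ × ℤ)) : List (ℤ × ℤ) := (V.map fun p => (p.1, -p.2)).reverse

/-- ring types: number of crossings, then `a` = neighbour of opposite sign, `s` = neighbour of equal
sign; `t2e`, `t3e` end rings -/
inductive RT
  | t2aa | t2as | t2e | t3aa | t3as | t3ss | t3ae | t3se | t4 | t5 | t6 | t7 | t8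
  deriving DecidableEq

/-- the type of a ring with `b` crossings, `na` neighbours of opposite sign and `ns` neighbours of
equal sign -/
def rtype (b na ns : ℕ) : RT :=
  if b ≤ 2 then (if na = 2 then .t2aa else if ns = 1 then .t2as else .t2e)
  else if b = 3 then
    (if na = 2 then .t3aa else if na = 1 then (if ns = 1 then .t3as else .t3ae)
      else if ns = 2 then .t3ss else .t3se)
  else if b = 4 then .t4 else if b = 5 then .t5 else if b = 6 then .t6 else if b = 7 then .t7
  else .t8

/-- the vertices -/
def vt : RT → List (ℤ × ℤ)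
  | .t2aa => [(598, 237), (672, 185), (843, 185), (874, 504), (748, 508), (598, 380)]
  | .t2as => [(528, 357), (640, 277), (852, 277), (874, 504), (831, 675), (733, 675), (528, 503)]
  | .t2e => [(420, 247), (485, 200), (653, 200), (664, 313), (586, 508), (497, 508), (420, 444)]
  | .t3aa => [(714, 139), (762, 105), (862, 105), (873, 219), (852, 299), (794, 299), (714, 231)]
  | .t3as => [(659, 217), (722, 172), (853, 172), (862, 264), (826, 401), (766, 401), (659, 310)]
  | .t3ss => [(637, 342), (733, 274), (855, 274), (856, 294), (808, 487), (789, 539), (733, 539),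
      (637, 455)]
  | .t3ae => [(614, 117), (649, 91), (739, 91), (745, 153), (703, 258), (658, 258), (614, 220)]
  | .t3se => [(501, 240), (536, 215), (666, 215), (669, 252), (628, 356), (550, 356), (501, 314)]
  | .t4 => [(660, 115), (760, 38), (900, 38), (920, 120), (830, 330), (770, 330), (660, 230)]
  | .t5 => [(720, 70), (800, 10), (940, 10), (955, 110), (900, 250), (800, 250), (720, 190)]
  | .t6 => [(790, 45), (850, 4), (960, 4), (963, 90), (920, 200), (830, 200), (790, 150)]
  | .t7 => [(830, 30), (870, 1), (955, 1), (965, 50), (935, 130), (860, 130), (830, 110)]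
  | .t8 => [(800, 0), (1000, 0), (900, 250), (800, 250)]

/-- ports: all types (mirrored for a neighbour of opposite sign) -/
def pA : List (ℤ × ℤ) :=
  [(420, 246), (766, 0), (1000, 0), (831, 676), (730, 676), (500, 515), (420, 445)]

/-- ports: all types which have a neighbour of equal sign (neighbour of equal sign, own digit at
least `3`) -/
def pS : List (ℤ × ℤ) := [(500, 220), (800, 0), (1000, 0), (831, 676), (732, 676), (500, 480)]

/-- ports: digit at least `3` and a neighbour of equal sign (neighbour of equal sign of a `2`) -/
def pT : List (ℤ × ℤ) := [(500, 220), (800, 0), (1000, 0), (787, 545), (737, 545), (500, 340)]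

/-- lower bound for `Re R` in the continuation -/
noncomputable def r0 : ℝ := 1 / 100

end Pool.Agent.Work.MP_b30479_gt.G2
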