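import Pool.Agent.Work.MP_b30479_gt.G2.SStart2
import Pool.Agent.Work.MP_b30479_gt.G2.S2Poly
import Pool.Agent.Work.NumI.Expr

/-!
# The start of the continuation lies in the typed polygons
-/

namespace Pool.Agent.Work.MP_b30479_gt.G2

open Complex

/-- `cosh Q = 1 / cos w` at the start -/
theorem cosh_QQ_one {w : ℂ} (hc : 0 < (Complex.cos w).re) (hR : RR w 1 = 1 / Complex.cos w) :
    Complex.cosh (QQ w 1) = 1 / Complex.cos w := by
  have hc0 : Complex.cos w ≠ 0 := cos_ne_of hc
  have h1 := Complex.sin_sq_add_cos_sq w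
  have h2 : (Complex.sin w + 1) * (1 - Complex.sin w) = Complex.cos w ^ 2 := by
    linear_combination -h1
  have h3 : Complex.sin w + 1 ≠ 0 := fun h => by
    rw [h, zero_mul] at h2
    exact pow_ne_zero 2 hc0 h2.symm
  have hne : Complex.tan w + RR w 1 ≠ 0 := by
    rw [hR, Complex.tan_eq_sin_div_cos, ← add_div]
    exact div_ne_zero h3 hc0
  have e1 : cexp (QQ w 1) = (Complex.sin w + 1) / Complex.cos w := by
    unfold QQ
    rw [Complex.log_one, add_zero, Complex.exp_log hne, hR, Complex.tan_eq_sin_div_cos, ← add_div]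
  have e2 : cexp (-QQ w 1) = (1 - Complex.sin w) / Complex.cos w := by
    rw [Complex.exp_neg, e1, inv_div, div_eq_div_iff h3 hc0]
    linear_combination -h2
  unfold Complex.cosh
  rw [e1, e2]
  ring

lemma cos_parts (x y : ℝ) : Complex.cos ((x : ℂ) + (y : ℂ) * I) =
    ((Real.cos x * Real.cosh y : ℝ) : ℂ) + ((-(Real.sin x * Real.sinh y) : ℝ) : ℂ) * I := by
  rw [Complex.cos_add_mul_I, ← ofReal_cos, ← ofReal_cosh, ← ofReal_sin, ← ofReal_sinh]
  push_cast
  ring

lemma re_parts (x y : ℝ) : ((x : ℂ) + (y : ℂ) * I).re = x := by simp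

lemma im_parts (x y : ℝ) : ((x : ℂ) + (y : ℂ) * I).im = y := by simp

/-- the two real start equations -/
theorem start_eqs {b m : ℝ} (hm : 0 < m) {w : ℂ} (hc : 0 < (Complex.cos w).re)
    (hR : RR w 1 = 1 / Complex.cos w) (h : b * w - Real.pi + I * (m * QQ w 1) = 0)
    (h0 : 0 < w.re) (h1 : w.re < Real.pi / 2)
    (h2 : Real.sinh (-w.im) = Real.cos w.re * Real.tan ((Real.pi - b * w.re) / m))
    (h3 : 0 < (Real.pi - b * w.re) / m) (h4 : (Real.pi - b * w.re) / m < Real.pi / 2) :
    Real.sinh (b / m * -w.im) * Real.cosh (-w.im) = Real.sin w.re * Real.cosh (b / m * -w.im) ∧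
      Real.sinh (-w.im) * Real.cos ((Real.pi - b * w.re) / m) =
        Real.cos w.re * Real.sin ((Real.pi - b * w.re) / m) := by
  have hpi := Real.pi_pos
  set α := w.re with hα
  set η := -w.im with hη
  set φ := (Real.pi - b * α) / m with hφ
  have hcφ : 0 < Real.cos φ := Real.cos_pos_of_mem_Ioo ⟨by linarith only [h0, h1, h3], h4⟩
  have hsφ : 0 < Real.sin φ := Real.sin_pos_of_pos_of_lt_pi h3 (by linarith only [h0, h1, h4])
  have hcα : 0 < Real.cos α := Real.cos_pos_of_mem_Ioo ⟨by linarith only [h0, h1], h1⟩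
  have e2 : Real.sinh η * Real.cos φ = Real.cos α * Real.sin φ := by
    rw [h2, Real.tan_eq_sin_div_cos]
    field_simp
  refine ⟨?_, e2⟩
  have hQ : QQ w 1 = ((b / m * η : ℝ) : ℂ) + ((-φ : ℝ) : ℂ) * I := by
    have hm' : (m : ℂ) ≠ 0 := by exact_mod_cast hm.ne'
    have hw : w = (α : ℂ) + ((-η : ℝ) : ℂ) * I := by
      rw [hη, neg_neg]
      exact (re_add_im w).symm
    have h5 : I * (m * QQ w 1) = Real.pi - b * w := by linear_combination h
    have h6 : (m : ℂ) * QQ w 1 = -I * (Real.pi - b * w) := by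
      rw [← h5]
      linear_combination (m * QQ w 1) * I_sq
    rw [← mul_right_inj' hm', h6, hw, hφ]
    push_cast
    field_simp
    linear_combination (-(b : ℂ) * η) * I_sq
  have hcosh := cosh_QQ_one hc hR
  have hcw : Complex.cos w = ((Real.cos α * Real.cosh η : ℝ) : ℂ) +
      ((Real.sin α * Real.sinh η : ℝ) : ℂ) * I := by
    have hw : w = (α : ℂ) + ((-η : ℝ) : ℂ) * I := by
      rw [hη, neg_neg]
      exact (re_add_im w).symm
    rw [hw, cos_parts, Real.cosh_neg, Real.sinh_neg]
    push_cast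
    ring
  have hcQ : Complex.cosh (QQ w 1) = ((Real.cosh (b / m * η) * Real.cos φ : ℝ) : ℂ) +
      ((-(Real.sinh (b / m * η) * Real.sin φ) : ℝ) : ℂ) * I := by
    rw [hQ, Complex.cosh_add, Complex.cosh_mul_I, Complex.sinh_mul_I, ← ofReal_cos, ← ofReal_cosh,
      ← ofReal_sin, ← ofReal_sinh, Real.cos_neg, Real.sin_neg]
    push_cast
    ring
  have hc0 : Complex.cos w ≠ 0 := cos_ne_of hc
  have h7 : Complex.cosh (QQ w 1) * Complex.cos w = 1 := by
    rw [hcosh]
    field_simp
  rw [hcQ, hcw] at h7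
  have h8 := congrArg Complex.im h7
  rw [mul_im, re_parts, im_parts, re_parts, im_parts, one_im] at h8
  -- sin α sinh η cosh q cos φ = cos α cosh η sinh q sin φ
  have h9 : Real.cos α * Real.sin φ *
      (Real.sinh (b / m * η) * Real.cosh η - Real.sin α * Real.cosh (b / m * η)) = 0 := by
    have : Real.cos α * Real.sin φ * (Real.sin α * Real.cosh (b / m * η)) =
        Real.sinh η * Real.cos φ * (Real.sin α * Real.cosh (b / m * η)) := by rw [e2]
    linear_combination (-1 : ℝ) * h8 - this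
  rcases mul_eq_zero.1 h9 with h10 | h10
  · exact absurd h10 (mul_pos hcα hsφ).ne'
  · linarith only [h10]

section engine

open Pool.Agent.Work.NumI Pool.Agent.Work.NumI.E

/-- first start equation; `var 0 = α / π`, `var 1 = η` -/
def st1 (b m : ℕ) : E :=
  sub (mul (sinh (mul (q b m) (var 1))) (cosh (var 1)))
    (mul (sinPi (var 0)) (cosh (mul (q b m) (var 1))))

/-- second start equation -/
def st2 (b m : ℕ) : E :=
  sub (mul (sinh (var 1)) (cosPi (mul (q 1 m) (sub (q 1 1) (mul (q b 1) (var 0))))))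
    (mul (cosPi (var 0)) (sinPi (mul (q 1 m) (sub (q 1 1) (mul (q b 1) (var 0))))))

/-- `Re cos w` -/
def stx : E := mul (cosPi (var 0)) (cosh (var 1))

/-- `Im cos w` -/
def sty : E := mul (sinPi (var 0)) (sinh (var 1))

/-- the edge `e` -/
def ste (e : (ℤ × ℤ) × (ℤ × ℤ)) : E :=
  sub (mul (q (e.2.1 - e.1.1) 1000) (sub sty (q e.1.2 1000)))
    (mul (q (e.2.2 - e.1.2) 1000) (sub stx (q e.1.1 1000)))

/-- the list of the certificate -/
def stL (b m : ℕ) (e : (ℤ × ℤ) × (ℤ × ℤ)) : List E :=
  [st1 b m, neg (st1 b m), st2 b m, neg (st2 b m), ste e]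

/-- the certificate for all edges -/
def stC (b m : ℕ) (T : RT) : Bool :=
  (edges (vt T)).all fun e => chk (stL b m e) 30 [V.of (2 * b) (2 - m) 2, V.of 10 0 9]

theorem stC_spec {b m : ℕ} (hb : 0 < b) {T : RT} (hT : stC b m T = true) {α η : ℝ}
    (h1 : (2 - m : ℝ) / (2 * b) ≤ α / Real.pi) (h2 : α / Real.pi ≤ 2 / (2 * b))
    (h3 : 0 ≤ η) (h4 : η ≤ 9 / 10)
    (e1 : Real.sinh ((b : ℝ) / m * η) * Real.cosh η = Real.sin α * Real.cosh ((b : ℝ) / m * η))
    (e2 : Real.sinh η * Real.cos ((Real.pi - b * α) / m) =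
        Real.cos α * Real.sin ((Real.pi - b * α) / m)) {z : ℂ}
    (hx : z.re = Real.cos α * Real.cosh η) (hy : z.im = Real.sin α * Real.sinh η) :
    z ∈ PolyU (vt T) := by
  have hpi := Real.pi_pos
  intro e he
  have h := List.all_eq_true.1 hT e he
  have a1 : Real.pi * (α / Real.pi) = α := by field_simp
  have a2 : Real.pi * (1 / m * (1 - b * (α / Real.pi))) = (Real.pi - b * α) / m := by
    field_simp
  obtain ⟨e', he', hp⟩ := chk_sound h (xs := [α / Real.pi, η])
    (List.Forall₂.cons (V.of_mem (by positivity) (by push_cast; exact h1) (by push_cast; exact h2))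
    (List.Forall₂.cons (V.of_mem (by norm_num) (by push_cast; simpa using h3)
      (by push_cast; exact h4)) List.Forall₂.nil))
  have v1 : (st1 b m).val [α / Real.pi, η] = 0 := by
    simp only [st1, val, lkR_zero, lkR_one, a1]
    push_cast
    linarith only [e1]
  have v2 : (st2 b m).val [α / Real.pi, η] = 0 := by
    simp only [st2, val, lkR_zero, lkR_one, a1]
    push_cast
    rw [div_one, div_one, a2]
    linarith only [e2]
  simp only [stL, List.mem_cons, List.not_mem_nil, or_false] at he'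
  rcases he' with rfl | rfl | rfl | rfl | rfl
  · rw [v1] at hp; exact absurd hp (lt_irrefl _)
  · simp only [val, v1, neg_zero] at hp; exact absurd hp (lt_irrefl _)
  · rw [v2] at hp; exact absurd hp (lt_irrefl _)
  · simp only [val, v2, neg_zero] at hp; exact absurd hp (lt_irrefl _)
  · simp only [ste, stx, sty, val, lkR_zero, lkR_one, a1] at hp
    unfold cr
    rw [hx, hy]
    push_cast at hp ⊢
    linarith only [hp]

end engine

lemma inv_re_ge {z : ℂ} (h0 : 0 < z.re) (h1 : 1 / 4 < ‖z ^ 2‖) (h2 : ‖z ^ 2‖ < 1)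
    (h3 : 0 < (z ^ 2).re) : 1 / 3 ≤ (1 / z).re := by
  rw [norm_pow, ← Complex.normSq_eq_norm_sq] at h1 h2
  rw [one_div z, Complex.inv_re, le_div_iff₀ (by linarith only [h1, h2])]
  have h4 : (z ^ 2).re = z.re ^ 2 - z.im ^ 2 := by
    rw [pow_two, mul_re]
    ring
  have h5 : Complex.normSq z = z.re ^ 2 + z.im ^ 2 := by
    rw [Complex.normSq_apply]
    ring
  rw [h4] at h3
  have h6 : 1 / 3 < z.re := by
    by_contra hc
    push Not at hc
    have h7 : z.re ^ 2 ≤ (1 / 3) ^ 2 := pow_le_pow_left₀ h0.le hc 2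
    norm_num at h7
    linarith only [h0, h1, h3, h5, hc, h7]
  linarith only [h2, h6]

/-- start, `b ≥ 3`, any set which contains the solution -/
theorem start_gen {b m : ℕ} (hb : 3 ≤ b) (hm : m = 1 ∨ m = 2) {S : Set ℂ}
    (hS : ∀ z : ℂ, ∀ α η : ℝ, 0 < α → α < Real.pi / b → 0 < η → Real.sinh η < Real.sin α →
      (2 - m : ℝ) / (2 * b) ≤ α / Real.pi →
      Real.sinh ((b : ℝ) / m * η) * Real.cosh η = Real.sin α * Real.cosh ((b : ℝ) / m * η) →
      Real.sinh η * Real.cos ((Real.pi - b * α) / m) =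
        Real.cos α * Real.sin ((Real.pi - b * α) / m) →
      z.re = Real.cos α * Real.cosh η → z.im = Real.sin α * Real.sinh η → z ∈ S) :
    ∃ w : ℂ, 0 ≤ w.re ∧ w.re ≤ 3 / 2 ∧ |w.im| ≤ 2 ∧ Complex.cos w ∈ S ∧ r0 ≤ (RR w 1).re ∧
      (b : ℂ) * w - Real.pi + I * (m * QQ w 1) = 0 := by
  have hpi := Real.pi_pos
  have hpi4 := Real.pi_lt_four
  have hb' : (3 : ℝ) ≤ b := by exact_mod_cast hb
  have hb0 : (0 : ℝ) < b := by linarith only [hb']
  have hm1 : (1 : ℝ) ≤ m := by rcases hm with rfl | rfl <;> norm_num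
  have hm2 : (m : ℝ) ≤ 2 := by rcases hm with rfl | rfl <;> norm_num
  have hm0 : (0 : ℝ) < m := by linarith only [hm1]
  obtain ⟨w, a1, a2, a3, a4, a5, a6, a7, a8, a9, a10, a11, a12, a13, a14, a15⟩ :=
    ring_start hm1 hm2 hb'
  have hpb : Real.pi / b ≤ Real.pi / 3 := div_le_div_of_nonneg_left hpi.le (by norm_num) hb'
  have hpi3 : Real.pi / 3 < 3 / 2 := by linarith only [hpi4, a1, a2, hpb]
  have hsin : Real.sin w.re ≤ 1 := Real.sin_le_one _
  have him : -w.im < 1 := by
    have := Real.self_le_sinh_iff.2 (by linarith only [a3] : 0 ≤ -w.im)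
    linarith only [a4, hsin, this]
  obtain ⟨e1, e2⟩ := start_eqs (b := (b : ℝ)) (m := (m : ℝ)) hm0 a5 a6 (by exact_mod_cast a8)
    a1 (by linarith only [a1, a2, hpb]) a13 a14 a15
  refine ⟨w, a1.le, by linarith only [hpi4, a2, a3, hpb, him], by rw [abs_le]; constructor <;> linarith only [a3, him], ?_, ?_,
    by exact_mod_cast a8⟩
  · refine hS _ w.re (-w.im) a1 a2 (by linarith only [a3]) a4 ?_ e1 e2 ?_ ?_
    · rw [div_le_div_iff₀ (by linarith only [hb', a3, him]) hpi]
      rw [div_lt_iff₀ hm0] at a15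
      nlinarith only [a15]
    · conv_lhs => rw [← re_add_im w]
      rw [cos_parts, re_parts, Real.cosh_neg]
    · conv_lhs => rw [← re_add_im w]
      rw [cos_parts, im_parts, Real.sinh_neg]
      ring
  · rw [a6]
    have := inv_re_ge a5 a9 a10 a11
    unfold r0
    linarith only [a3, him, this]

/-- `3 ≤ b ≤ 7` -/
theorem start_loc {b m : ℕ} (hb : 3 ≤ b) (hm : m = 1 ∨ m = 2) {T : RT} (hT : stC b m T = true) :
    ∃ w : ℂ, 0 ≤ w.re ∧ w.re ≤ 3 / 2 ∧ |w.im| ≤ 2 ∧ Complex.cos w ∈ PolyU (vt T) ∧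
      r0 ≤ (RR w 1).re ∧ (b : ℂ) * w - Real.pi + I * (m * QQ w 1) = 0 := by
  have hpi := Real.pi_pos
  have hb' : (3 : ℝ) ≤ b := by exact_mod_cast hb
  have hb0 : (0 : ℝ) < b := by linarith only [hb']
  refine start_gen hb hm fun z α η h1 h2 h3 h4 h5 e1 e2 hx hy => ?_
  have hsin : Real.sin α ≤ √3 / 2 := by
    have hpb : Real.pi / b ≤ Real.pi / 3 := div_le_div_of_nonneg_left hpi.le (by norm_num) hb'
    have := Real.sin_le_sin_of_le_of_le_pi_div_two (x := α) (y := Real.pi / 3) (by linarith only [h1, h2, hpb])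
      (by linarith only [h1, h2, hpb]) (by linarith only [h2, hpb])
    rwa [Real.sin_pi_div_three] at this
  have h6 : √3 < 1.8 := by
    rw [Real.sqrt_lt' (by norm_num)]
    norm_num
  have h7 := Real.self_le_sinh_iff.2 h3.le
  refine stC_spec (by omega) hT h5 ?_ h3.le (by norm_num at h6; linarith only [h4, hsin, h7, h6]) e1 e2 hx hy
  rw [div_le_div_iff₀ hpi (by linarith only [hb', h3, h4, hsin, h6, h7])]
  rw [lt_div_iff₀ hb0] at h2
  linarith only [h2]

/-- `b ≥ 8` -/
theorem start_eight {b m : ℕ} (hb : 8 ≤ b) (hm : m = 1 ∨ m = 2) :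
    ∃ w : ℂ, 0 ≤ w.re ∧ w.re ≤ 3 / 2 ∧ |w.im| ≤ 2 ∧ Complex.cos w ∈ PolyU (vt .t8) ∧
      r0 ≤ (RR w 1).re ∧ (b : ℂ) * w - Real.pi + I * (m * QQ w 1) = 0 := by
  have hpi := Real.pi_pos
  have hpi3 := Real.pi_gt_three
  have hpi2 := Real.pi_lt_d2
  have hb' : (8 : ℝ) ≤ b := by exact_mod_cast hb
  have hb0 : (0 : ℝ) < b := by linarith only [hpi3, hpi2, hb']
  have hm2 : (m : ℝ) ≤ 2 := by rcases hm with rfl | rfl <;> norm_num
  have hm0 : (0 : ℝ) < m := by rcases hm with rfl | rfl <;> norm_num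
  refine start_gen (by omega) hm fun z α η h1 h2 h3 h4 h5 e1 e2 hx hy => ?_
  have hα : α < 0.4 := by
    have : Real.pi / b ≤ Real.pi / 8 := div_le_div_of_nonneg_left hpi.le (by norm_num) hb'
    linarith only [hpi3, hpi2, h2, this]
  have hs0 : 0 < Real.sin α := Real.sin_pos_of_pos_of_lt_pi h1 (by linarith only [hpi3, hpi2, hα])
  have hs1 : Real.sin α < α := Real.sin_lt h1
  have hc1 : 1 - α ^ 2 / 2 ≤ Real.cos α := Real.one_sub_sq_div_two_le_cos
  have hq4 : 4 * η ≤ (b : ℝ) / m * η := by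
    have : (4 : ℝ) ≤ b / m := by
      rw [le_div_iff₀ hm0]
      linarith only [hb', hm2]
    exact mul_le_mul_of_nonneg_right this h3.le
  set q := (b : ℝ) / m * η with hq
  have hq0 : 0 < q := by linarith only [h3, hq4]
  have hsq : Real.sinh q ≤ Real.sin α * Real.cosh q := by
    have : 1 ≤ Real.cosh η := Real.one_le_cosh η
    have h0 : 0 < Real.sinh q := Real.sinh_pos_iff.2 hq0
    nlinarith only [e1, hpi3, hpi2, this, h0]
  have hch1 : Real.cosh 1 < 1.55 := by
    have h8 := Real.exp_one_lt_d9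
    have h9 := Real.exp_one_gt_d9
    have h10 : Real.exp (-1) < 0.37 := by
      rw [Real.exp_neg, inv_lt_comm₀ (Real.exp_pos _) (by norm_num)]
      refine lt_of_le_of_lt ?_ h9
      norm_num
    rw [Real.cosh_eq]
    norm_num at h8 h10 ⊢
    linarith only [hpi3, hpi2, h8, h10]
  have hsh1 : 1 < Real.sinh 1 := Real.self_lt_sinh_iff.2 one_pos
  have hq1 : q < 1 := by
    by_contra hc
    push Not at hc
    have h8 : Real.tanh 1 ≤ Real.tanh q := by
      rcases hc.lt_or_eq with h | h
      · exact (tanh_lt h).le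
      · rw [h]
    have h9 : Real.tanh q ≤ Real.sin α := by
      rw [Real.tanh_eq_sinh_div_cosh, div_le_iff₀ (Real.cosh_pos _)]
      exact hsq
    have h10 : 0.5 < Real.tanh 1 := by
      rw [Real.tanh_eq_sinh_div_cosh, lt_div_iff₀ (Real.cosh_pos _)]
      linarith only [hpi3, hpi2, hch1, hsh1]
    linarith only [hpi3, hpi2, hα, hs1, h8, h9, h10]
  have hcq : Real.cosh q < 1.55 := lt_of_le_of_lt (Real.cosh_le_cosh.2 (by
    rw [abs_of_pos hq0, abs_one]
    exact hq1.le)) hch1
  have hsq2 : Real.sinh q ≤ 1.55 * α := by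
    refine hsq.trans ?_
    nlinarith only [hpi3, hs1, hpi2, hs0, hcq]
  have hs4 : 4 * Real.sinh η ≤ Real.sinh q := by
    have h8 : Real.sinh (4 * η) ≤ Real.sinh q := Real.sinh_le_sinh.2 hq4
    have h9 : Real.sinh (4 * η) = 2 * (2 * Real.sinh η * Real.cosh η) * Real.cosh (2 * η) := by
      rw [← Real.sinh_two_mul, ← Real.sinh_two_mul]
      ring_nf
    have h10 : 1 ≤ Real.cosh η := Real.one_le_cosh η
    have h11 : 1 ≤ Real.cosh (2 * η) := Real.one_le_cosh _
    have h12 : 0 < Real.sinh η := Real.sinh_pos_iff.2 h3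
    have h13 : 2 * Real.sinh η ≤ 2 * Real.sinh η * Real.cosh η := by nlinarith only [hpi3, hpi2, h10, h12]
    nlinarith only [e1, hsq, h8, h9, hpi3, hpi2, h10, h11, h12, h13]
  have hsη : Real.sinh η ≤ 0.3875 * α := by linarith only [hsq2, hs4]
  have hsη0 : 0 < Real.sinh η := Real.sinh_pos_iff.2 h3
  have hα2 : 0 < α ^ 2 := by positivity
  have hα3 : α ^ 2 < 0.16 := by
    have := pow_lt_pow_left₀ hα h1.le two_ne_zero
    norm_num at this ⊢
    exact this
  have hcη : Real.cosh η ≤ 1 + 0.0752 * α ^ 2 := by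
    have h8 := Real.cosh_sq η
    have h9 : Real.sinh η ^ 2 ≤ (0.3875 * α) ^ 2 := pow_le_pow_left₀ hsη0.le hsη 2
    refine abs_le_of_sq_le_sq' ?_ (by positivity) |>.2
    nlinarith only [hα2, h8, h9]
  have hcη1 : 1 ≤ Real.cosh η := Real.one_le_cosh η
  have hc2 : Real.cos α ≤ 1 - 0.49 * α ^ 2 := by
    have h8 := (abs_le.1 (Real.cos_bound (x := α) (by rw [abs_of_pos h1]; linarith only [h4, hα, hs1, hsη0]))).2
    rw [abs_of_pos h1] at h8
    have h9 : α ^ 4 ≤ 0.16 * α ^ 2 := by
      have : α ^ 4 = α ^ 2 * α ^ 2 := by ring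
      rw [this]
      exact mul_le_mul_of_nonneg_right hα3.le hα2.le
    linarith only [hα2, h8, h9]
  have hc3 : 0 < Real.cos α := by linarith only [h4, hα, hs1, hc1, hsη0, hα3]
  have hX1 : z.re ≤ 1 - 0.4 * α ^ 2 := by
    rw [hx]
    have h8 : 0 ≤ 1 - 0.49 * α ^ 2 := by linarith only [h4, hα, hs1, hsη0, hα3]
    calc Real.cos α * Real.cosh η ≤ (1 - 0.49 * α ^ 2) * (1 + 0.0752 * α ^ 2) := by gcongr
      _ ≤ 1 - 0.4 * α ^ 2 := by nlinarith only [hα2]
  have hX0 : 0.9 < z.re := by
    rw [hx]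
    nlinarith only [hc1, hα3, hcη1, hcη]
  have hY0 : 0 < z.im := by
    rw [hy]
    positivity
  have hY1 : z.im ≤ 0.3875 * α ^ 2 := by
    rw [hy]
    calc Real.sin α * Real.sinh η ≤ α * (0.3875 * α) := by gcongr
      _ = _ := by ring
  intro e he
  simp only [edges, vt, List.rotate_cons_succ, List.rotate_zero, List.cons_append, List.nil_append,
    List.zip_cons_cons, List.zip_nil_right, List.mem_cons, List.not_mem_nil, or_false] at he
  rcases he with rfl | rfl | rfl | rfl <;> unfold cr <;> push_cast <;> linarith only [hY0, hX1, hY1, hα3, hX0]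

lemma mem_Poly_of {V : List (ℤ × ℤ)} {z : ℂ} (h : z ∈ PolyU V) : z ∈ Poly V :=
  fun e he => (h e he).le

/-- the start values are inside the polygons -/
theorem start_mem {b na ns : ℕ} (hb : 2 ≤ b) (h1 : 1 ≤ na + ns) (h2 : na + ns ≤ 2)
    (h3 : b = 2 → 1 ≤ na) :
    ∃ w : ℂ, 0 ≤ w.re ∧ w.re ≤ 3 / 2 ∧ |w.im| ≤ 2 ∧ Complex.cos w ∈ PolyU (vt (rtype b na ns)) ∧
      r0 ≤ (RR w 1).re ∧ (b : ℂ) * w - Real.pi + I * ((na + ns : ℕ) * QQ w 1) = 0 := by
  rcases Nat.lt_or_ge b 3 with hb2 | hb3
  · have hb2' : b = 2 := by omega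
    subst hb2'
    have h4 := h3 rfl
    rcases Nat.lt_or_ge (na + ns) 2 with h5 | h5
    · have e1 : na = 1 := by omega
      have e2 : ns = 0 := by omega
      subst e1 e2
      obtain ⟨w, a1, a2, a3, a4, a5, a6, a7, a8⟩ := two_end_start
      have hpi := Real.pi_gt_three
      have him : |w.im| ≤ 2 := by rw [abs_le]; constructor <;> linarith only [a3, a4]
      have hre : w.re ≤ 3 / 2 := by
        by_contra hc
        push Not at hc
        have h6 : (Complex.cos w).re = Real.cos w.re * Real.cosh w.im := by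
          conv_lhs => rw [← re_add_im w]
          rw [cos_parts, re_parts]
        have h7 : (Complex.cos w).re = 1 / 2 := by
          rw [a5]
          simp
        have h8 : Real.cos w.re ≤ 1 / 10 := by
          have h9 : Real.cos w.re ≤ Real.cos (3 / 2) :=
            Real.cos_le_cos_of_nonneg_of_le_pi (by norm_num) (by linarith only [a2, a3, a4, hc]) hc.le
          have h10 : Real.cos (3 / 2) = Real.sin (Real.pi / 2 - 3 / 2) := by
            rw [Real.sin_pi_div_two_sub]
          have h11 : Real.sin (Real.pi / 2 - 3 / 2) ≤ Real.pi / 2 - 3 / 2 :=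
            Real.sin_le (by linarith only [a2, hc])
          have h12 := Real.pi_lt_d2
          linarith only [a2, hc, h9, h10, h11, h12]
        have h13 : Real.cosh w.im ≤ 1.6 := by
          have h14 : Real.cosh w.im ≤ Real.cosh 1 := Real.cosh_le_cosh.2 (by
            rw [abs_of_neg a3, abs_one]
            linarith only [a4])
          have h15 := Real.exp_one_lt_d9
          have h16 : Real.exp (-1) ≤ 1 := by
            rw [Real.exp_le_one_iff]
            norm_num
          rw [Real.cosh_eq 1] at h14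
          have h17 : Real.exp (-1) < 0.4 := by
            rw [Real.exp_neg, inv_lt_comm₀ (Real.exp_pos _) (by norm_num)]
            refine lt_of_le_of_lt ?_ Real.exp_one_gt_d9
            norm_num
          norm_num at h15 h17 ⊢
          linarith only [a3, a4, h14, h15, h17]
        have h18 : 0 < Real.cos w.re := Real.cos_pos_of_mem_Ioo ⟨by linarith only [a2, a3, a4, hc], a2⟩
        have h19 : Real.cos w.re * Real.cosh w.im ≤ 1 / 10 * 1.6 := by
          have := Real.cosh_pos w.im
          gcongr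
        rw [h6] at h7
        norm_num at h19
        linarith only [h7, h8, h18, h19]
      refine ⟨w, a1.le, hre, him, ?_, ?_, ?_⟩
      · rw [a5]
        have hz : ((1 + I) / 2 : ℂ).re = 1 / 2 := by simp
        have hz' : ((1 + I) / 2 : ℂ).im = 1 / 2 := by simp
        intro e he
        simp only [edges, rtype, vt, List.rotate_cons_succ, List.rotate_zero, List.cons_append,
          List.nil_append, List.zip_cons_cons, List.zip_nil_right, List.mem_cons,
          List.not_mem_nil, or_false, le_refl, if_true, OfNat.one_ne_ofNat, if_false,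
          OfNat.zero_ne_ofNat, zero_ne_one] at he
        rcases he with rfl | rfl | rfl | rfl | rfl | rfl | rfl <;> unfold cr <;>
          rw [hz, hz'] <;> norm_num
      · rw [a6, a5]
        have : (1 / ((1 + I) / 2) : ℂ) = 1 - I := by
          rw [div_eq_iff (by
            intro h
            have := congrArg Complex.re h
            simp at this)]
          linear_combination (1 / 2 : ℂ) * I_sq
        rw [this]
        unfold r0
        norm_num
      · push_cast at a8 ⊢
        exact a8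
    · have e0 : na + ns = 2 := by omega
      obtain ⟨w, a1, a2, a3, a5, a6, a7, a8⟩ := two_start
      have hpi := Real.pi_gt_three
      have hpi2 := Real.pi_lt_d2
      have h61 : (1.732 : ℝ) < √3 := by
        rw [Real.lt_sqrt (by norm_num)]
        norm_num
      have h62 : √3 < (1.7321 : ℝ) := by
        rw [Real.sqrt_lt' (by norm_num)]
        norm_num
      have hz : (((√3 / 2 : ℝ) : ℂ) + ((1 / 2 : ℝ) : ℂ) * I).re = √3 / 2 := re_parts _ _
      have hz' : (((√3 / 2 : ℝ) : ℂ) + ((1 / 2 : ℝ) : ℂ) * I).im = 1 / 2 := im_parts _ _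
      refine ⟨w, by rw [a1]; positivity, by rw [a1]; linarith only [hpi2, h61, h62],
        by rw [abs_le]; constructor <;> linarith only [a3, h61, h62, a2], ?_, ?_, ?_⟩
      · rw [a5]
        have hcase : (na = 2 ∧ ns = 0) ∨ (na = 1 ∧ ns = 1) := by omega
        rcases hcase with ⟨rfl, rfl⟩ | ⟨rfl, rfl⟩
        · intro e he
          simp only [edges, rtype, vt, List.rotate_cons_succ, List.rotate_zero, List.cons_append,
            List.nil_append, List.zip_cons_cons, List.zip_nil_right, List.mem_cons,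
            List.not_mem_nil, or_false, le_refl, if_true] at he
          rcases he with rfl | rfl | rfl | rfl | rfl | rfl <;> unfold cr <;>
            rw [hz, hz'] <;> norm_num at h61 h62 ⊢ <;> linarith only [h61, h62]
        · intro e he
          simp only [edges, rtype, vt, List.rotate_cons_succ, List.rotate_zero, List.cons_append,
            List.nil_append, List.zip_cons_cons, List.zip_nil_right, List.mem_cons,
            List.not_mem_nil, or_false, le_refl, if_true, OfNat.one_ne_ofNat, if_false] at he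
          rcases he with rfl | rfl | rfl | rfl | rfl | rfl | rfl <;> unfold cr <;>
            rw [hz, hz'] <;> norm_num at h61 h62 ⊢ <;> linarith only [h61, h62]
      · rw [a6, one_div, Complex.inv_re, a5, hz]
        have : Complex.normSq (((√3 / 2 : ℝ) : ℂ) + ((1 / 2 : ℝ) : ℂ) * I) = 1 := by
          rw [Complex.normSq_apply, hz, hz']
          have := Real.mul_self_sqrt (show (0 : ℝ) ≤ 3 by norm_num)
          linarith only [this]
        rw [this]
        unfold r0
        linarith only [h61, h62]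
      · rw [e0]
        push_cast
        exact a8
  · have hm : na + ns = 1 ∨ na + ns = 2 := by omega
    have hr : rtype b na ns = if b = 3 then
        (if na = 2 then .t3aa else if na = 1 then (if ns = 1 then .t3as else .t3ae)
          else if ns = 2 then .t3ss else .t3se)
        else if b = 4 then .t4 else if b = 5 then .t5 else if b = 6 then .t6 else
          if b = 7 then .t7 else .t8 := by
      unfold rtype
      rw [if_neg (by omega)]
    rw [hr]
    rcases Nat.lt_or_ge b 8 with h8 | h8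
    · have hcase : b = 3 ∨ b = 4 ∨ b = 5 ∨ b = 6 ∨ b = 7 := by omega
      rcases hcase with rfl | rfl | rfl | rfl | rfl
      · rcases hm with hm | hm
        · have hc2 : (na = 1 ∧ ns = 0) ∨ (na = 0 ∧ ns = 1) := by omega
          rcases hc2 with ⟨rfl, rfl⟩ | ⟨rfl, rfl⟩
          · exact start_loc le_rfl (Or.inl rfl) (T := .t3ae) (by decide +kernel)
          · exact start_loc le_rfl (Or.inl rfl) (T := .t3se) (by decide +kernel)
        · have hc2 : (na = 2 ∧ ns = 0) ∨ (na = 1 ∧ ns = 1) ∨ (na = 0 ∧ ns = 2) := by omega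
          rcases hc2 with ⟨rfl, rfl⟩ | ⟨rfl, rfl⟩ | ⟨rfl, rfl⟩
          · exact start_loc le_rfl (Or.inr rfl) (T := .t3aa) (by decide +kernel)
          · exact start_loc le_rfl (Or.inr rfl) (T := .t3as) (by decide +kernel)
          · exact start_loc le_rfl (Or.inr rfl) (T := .t3ss) (by decide +kernel)
      · rcases hm with hm | hm <;> rw [hm]
        · exact start_loc (by norm_num) (Or.inl rfl) (T := .t4) (by decide +kernel)
        · exact start_loc (by norm_num) (Or.inr rfl) (T := .t4) (by decide +kernel)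
      · rcases hm with hm | hm <;> rw [hm]
        · exact start_loc (by norm_num) (Or.inl rfl) (T := .t5) (by decide +kernel)
        · exact start_loc (by norm_num) (Or.inr rfl) (T := .t5) (by decide +kernel)
      · rcases hm with hm | hm <;> rw [hm]
        · exact start_loc (by norm_num) (Or.inl rfl) (T := .t6) (by decide +kernel)
        · exact start_loc (by norm_num) (Or.inr rfl) (T := .t6) (by decide +kernel)
      · rcases hm with hm | hm <;> rw [hm]
        · exact start_loc (by norm_num) (Or.inl rfl) (T := .t7) (by decide +kernel)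
        · exact start_loc (by norm_num) (Or.inr rfl) (T := .t7) (by decide +kernel)
    · rw [if_neg (by omega), if_neg (by omega), if_neg (by omega), if_neg (by omega),
        if_neg (by omega)]
      rcases hm with hm | hm <;> rw [hm]
      · exact start_eight h8 (Or.inl rfl)
      · exact start_eight h8 (Or.inr rfl)

/-- field `start1` of `RingFacts` -/
theorem start_one (B na ns : ℕ) (hB : 2 ≤ B) (h : na + ns = 1) (h2 : B = 2 → ns = 0) :
    ∃ w : ℂ, 0 ≤ w.re ∧ w.re ≤ 3 / 2 ∧ |w.im| ≤ 2 ∧ Complex.cos w ∈ Poly (vt (rtype B na ns)) ∧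
      r0 ≤ (RR w 1).re ∧ ((B : ℝ) : ℂ) * w - Real.pi + I * QQ w 1 = 0 := by
  obtain ⟨w, a1, a2, a3, a4, a5, a6⟩ := start_mem hB h.ge (by omega)
    (fun h3 => by have := h2 h3; omega)
  refine ⟨w, a1, a2, a3, mem_Poly_of a4, a5, ?_⟩
  rw [h] at a6
  push_cast at a6 ⊢
  rw [one_mul] at a6
  exact a6

/-- field `start2` of `RingFacts` -/
theorem start_two (B na ns : ℕ) (hB : 2 ≤ B) (h : na + ns = 2) (h2 : B = 2 → ns ≤ 1) :
    ∃ w : ℂ, 0 ≤ w.re ∧ w.re ≤ 3 / 2 ∧ |w.im| ≤ 2 ∧ Complex.cos w ∈ Poly (vt (rtype B na ns)) ∧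
      r0 ≤ (RR w 1).re ∧ ((B : ℝ) : ℂ) * w - Real.pi + I * (2 * QQ w 1) = 0 := by
  obtain ⟨w, a1, a2, a3, a4, a5, a6⟩ := start_mem hB (by omega) h.le
    (fun h3 => by have := h2 h3; omega)
  refine ⟨w, a1, a2, a3, mem_Poly_of a4, a5, ?_⟩
  rw [h] at a6
  push_cast at a6 ⊢
  exact a6

end Pool.Agent.Work.MP_b30479_gt.G2
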