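import Pool.Agent.Work.MP_b30479_gt.G2.SRingG
import Pool.Agent.Work.MP_b30479_gt.G2.SStart3

/-!
# The facts about single rings, from the location part
-/

namespace Pool.Agent.Work.MP_b30479_gt.G2

open Complex Set KB

/-- the location part of `Ring1` -/
def Loc1 (b : ℝ) (K U P : Set ℂ) (r : ℝ) : Prop :=
  ∀ k ∈ P, ∀ w : ℂ, 0 ≤ w.re → w.re ≤ 3 / 2 → |w.im| ≤ 2 → Complex.cos w ∈ K → r ≤ (RR w k).re →
    b * w - Real.pi + I * QQ w k = 0 →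
    0 < w.re ∧ w.re < 3 / 2 ∧ |w.im| < 2 ∧ Complex.cos w ∈ U ∧ r < (RR w k).re

/-- the location part of `Ring2` -/
def Loc2 (b : ℝ) (K U P P' : Set ℂ) (r : ℝ) : Prop :=
  ∀ k ∈ P, ∀ k' ∈ P', ∀ w : ℂ, 0 ≤ w.re → w.re ≤ 3 / 2 → |w.im| ≤ 2 → Complex.cos w ∈ K →
    r ≤ (RR w k).re → r ≤ (RR w k').re →
    b * w - Real.pi + I * (QQ w k + QQ w k') = 0 →
    0 < w.re ∧ w.re < 3 / 2 ∧ |w.im| < 2 ∧ Complex.cos w ∈ U ∧ r < (RR w k).re ∧
      r < (RR w k').re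

/-- the location facts -/
structure LocFacts : Prop where
  end_a : ∀ B : ℕ, 2 ≤ B → Loc1 B (Poly (vt (rtype B 1 0))) (PolyU (vt (rtype B 1 0)))
    (frS (-1) (Poly pA)) r0
  end_s : ∀ B : ℕ, 3 ≤ B → Loc1 B (Poly (vt (rtype B 0 1))) (PolyU (vt (rtype B 0 1)))
    (Poly pS) r0
  aa : ∀ B : ℕ, 2 ≤ B → Loc2 B (Poly (vt (rtype B 2 0))) (PolyU (vt (rtype B 2 0)))
    (frS (-1) (Poly pA)) (frS (-1) (Poly pA)) r0
  as2 : Loc2 2 (Poly (vt (rtype 2 1 1))) (PolyU (vt (rtype 2 1 1)))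
    (frS (-1) (Poly pA)) (Poly pT) r0
  as3 : ∀ B : ℕ, 3 ≤ B → Loc2 B (Poly (vt (rtype B 1 1))) (PolyU (vt (rtype B 1 1)))
    (frS (-1) (Poly pA)) (Poly pS) r0
  ss : ∀ B : ℕ, 3 ≤ B → Loc2 B (Poly (vt (rtype B 0 2))) (PolyU (vt (rtype B 0 2)))
    (Poly pS) (Poly pS) r0

lemma Loc1.ring {b : ℝ} {K U P : Set ℂ} {r : ℝ} (hr : 0 < r) (h : Loc1 b K U P r)
    (hk : ∀ k ∈ P, ∀ w : ℂ, Complex.cos w ∈ K → 0 < (RR w k).re →
      b * w - Real.pi + I * QQ w k = 0 → Kap1 b w k) : Ring1 b K U P r := by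
  intro k hk0 w h0 h1 h2 h3 h4 h5
  obtain ⟨c1, c2, c3, c4, c5⟩ := h k hk0 w h0 h1 h2 h3 h4 h5
  exact ⟨c1, c2, c3, c4, c5, hk k hk0 w h3 (hr.trans_le h4) h5⟩

lemma Loc2.ring {b : ℝ} {K U P P' : Set ℂ} {r : ℝ} (hr : 0 < r) (h : Loc2 b K U P P' r)
    (hk : ∀ k ∈ P, ∀ k' ∈ P', ∀ w : ℂ, Complex.cos w ∈ K → 0 < (RR w k).re → 0 < (RR w k').re →
      b * w - Real.pi + I * (QQ w k + QQ w k') = 0 → Kap2 b w k k') : Ring2 b K U P P' r := by
  intro k hk0 k' hk0' w h0 h1 h2 h3 h4 h5 h6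
  obtain ⟨c1, c2, c3, c4, c5, c6⟩ := h k hk0 k' hk0' w h0 h1 h2 h3 h4 h5 h6
  exact ⟨c1, c2, c3, c4, c5, c6, hk k hk0 k' hk0' w h3 (hr.trans_le h4) (hr.trans_le h5) h6⟩

lemma r0_pos : 0 < r0 := by unfold r0; norm_num

/-- all facts about single rings from the location part and the start values -/
theorem ringFacts_of (h : LocFacts)
    (start1 : ∀ B na ns : ℕ, 2 ≤ B → na + ns = 1 → (B = 2 → ns = 0) →
      ∃ w : ℂ, 0 ≤ w.re ∧ w.re ≤ 3 / 2 ∧ |w.im| ≤ 2 ∧ Complex.cos w ∈ Poly (vt (rtype B na ns)) ∧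
        r0 ≤ (RR w 1).re ∧ ((B : ℝ) : ℂ) * w - Real.pi + I * QQ w 1 = 0)
    (start2 : ∀ B na ns : ℕ, 2 ≤ B → na + ns = 2 → (B = 2 → ns ≤ 1) →
      ∃ w : ℂ, 0 ≤ w.re ∧ w.re ≤ 3 / 2 ∧ |w.im| ≤ 2 ∧ Complex.cos w ∈ Poly (vt (rtype B na ns)) ∧
        r0 ≤ (RR w 1).re ∧ ((B : ℝ) : ℂ) * w - Real.pi + I * (2 * QQ w 1) = 0) : RingFacts where
  closed t := poly_closed _
  re_pos := poly_re_pos
  isOpen t := polyU_open _
  sub t := polyU_sub _
  starA := KB.starA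
  starS := KB.starS
  starT := KB.starT
  end_a B hB := by
    refine (h.end_a B hB).ring r0_pos fun k hk w hw hR he => ?_
    rcases Nat.lt_or_ge B 3 with h3 | h3
    · have h2 : B = 2 := by omega
      subst h2
      exact_mod_cast kap_end_a2 hw hk hR (by exact_mod_cast he)
    · exact kap_end_a h3 hw hk hR
  end_s B hB := (h.end_s B hB).ring r0_pos fun k hk w hw hR _ => kap_end_s hB hw hk hR
  aa B hB := by
    refine (h.aa B hB).ring r0_pos fun k hk k' hk' w hw hR hR' he => ?_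
    rcases Nat.lt_or_ge B 3 with h3 | h3
    · have h2 : B = 2 := by omega
      subst h2
      exact_mod_cast kap_aa2 hw hk hk' hR hR' (by exact_mod_cast he)
    · exact kap_int_aa h3 hw hk hk' hR hR'
  as2 := by
    refine h.as2.ring r0_pos fun k hk k' hk' w hw hR hR' he => ?_
    exact kap_as2 hw hk hk' hR hR' he
  as3 B hB := (h.as3 B hB).ring r0_pos fun k hk k' hk' w hw hR hR' he =>
    kap_int_as hB hw hk hk' hR hR' he
  ss B hB := (h.ss B hB).ring r0_pos fun k hk k' hk' w hw hR hR' _ =>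
    kap_int_ss hB hw hk hk' hR hR'
  start1 := start1
  start2 := start2

/-- all facts about single rings from the location part -/
theorem ringFacts_of_loc (h : LocFacts) : RingFacts := ringFacts_of h start_one start_two

end Pool.Agent.Work.MP_b30479_gt.G2
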