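import Pool.Agent.Work.MP_b30479_gt.G2.S2Ring
import Pool.Agent.Work.MP_b30479_gt.G2.SRingH

/-!
# All facts about single rings
-/

namespace Pool.Agent.Work.MP_b30479_gt.G2

/-- the location part -/
theorem locFacts : LocFacts where
  end_a _ hB := SL.loc_end_a hB
  end_s _ hB := SL.loc_end_s hB
  aa _ hB := SL.loc_aa hB
  as2 := by exact_mod_cast SL.loc_as2
  as3 _ hB := SL.loc_as3 hB
  ss _ hB := SL.loc_ss hB

/-- all facts about single rings -/
theorem ringFacts : RingFacts := ringFacts_of_loc locFacts

end Pool.Agent.Work.MP_b30479_gt.G2
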