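import Pool.Agent.Work.MP_b30479_gt.G2.S2Cert

/-!
# Certificates of `S2Cert` in pieces

The check of a tree from the checks of its subtrees.
-/

namespace Pool.Agent.Work.MP_b30479_gt.G2.SC

variable {c c' : Cfg} {p q m : ℕ × ℕ} {V0 V1 V2 W W1 W2 : List (ℕ × ℕ)} {t t1 t2 : CT} {ax : Bool}
  {n : ℕ}

theorem chkT_rel0 (h : an (shp V0) (relc V0 W) = true) (h1 : chkT c c' t p q W V1 V2 = true) :
    chkT c c' (.rel0 W t) p q V0 V1 V2 = true := by
  change an (shp V0) (an (relc V0 W) (chkT c c' t p q W V1 V2)) = true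
  rw [an_iff] at h ⊢
  exact ⟨h.1, an_iff.2 ⟨h.2, h1⟩⟩

theorem chkT_rel1 (h : an (shp V1) (relc V1 W) = true) (h1 : chkT c c' t p q V0 W V2 = true) :
    chkT c c' (.rel1 W t) p q V0 V1 V2 = true := by
  change an (shp V1) (an (relc V1 W) (chkT c c' t p q V0 W V2)) = true
  rw [an_iff] at h ⊢
  exact ⟨h.1, an_iff.2 ⟨h.2, h1⟩⟩

theorem chkT_rel2 (h : an (shp V2) (relc V2 W) = true) (h1 : chkT c c' t p q V0 V1 W = true) :
    chkT c c' (.rel2 W t) p q V0 V1 V2 = true := by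
  change an (shp V2) (an (relc V2 W) (chkT c c' t p q V0 V1 W)) = true
  rw [an_iff] at h ⊢
  exact ⟨h.1, an_iff.2 ⟨h.2, h1⟩⟩

theorem chkT_seg (h : mid p q m = true) (h1 : chkT c c' t1 p m V0 V1 V2 = true)
    (h2 : chkT c c' t2 m q V0 V1 V2 = true) :
    chkT c c' (.seg m t1 t2) p q V0 V1 V2 = true := by
  change an (mid p q m) (an (chkT c c' t1 p m V0 V1 V2) (chkT c c' t2 m q V0 V1 V2)) = true
  rw [an_iff]
  exact ⟨h, an_iff.2 ⟨h1, h2⟩⟩

theorem chkT_cut0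
    (h : an (shp V0) (an (child ax true n V0 W1) (child ax false n V0 W2)) = true)
    (h1 : chkT c c' t1 p q W1 V1 V2 = true) (h2 : chkT c c' t2 p q W2 V1 V2 = true) :
    chkT c c' (.cut0 ax n W1 W2 t1 t2) p q V0 V1 V2 = true := by
  change an (shp V0) (an (child ax true n V0 W1) (an (child ax false n V0 W2)
    (an (chkT c c' t1 p q W1 V1 V2) (chkT c c' t2 p q W2 V1 V2)))) = true
  rw [an_iff, an_iff] at h
  exact an_iff.2 ⟨h.1, an_iff.2 ⟨h.2.1, an_iff.2 ⟨h.2.2, an_iff.2 ⟨h1, h2⟩⟩⟩⟩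

theorem chkT_cut1
    (h : an (shp V1) (an (child ax true n V1 W1) (child ax false n V1 W2)) = true)
    (h1 : chkT c c' t1 p q V0 W1 V2 = true) (h2 : chkT c c' t2 p q V0 W2 V2 = true) :
    chkT c c' (.cut1 ax n W1 W2 t1 t2) p q V0 V1 V2 = true := by
  change an (shp V1) (an (child ax true n V1 W1) (an (child ax false n V1 W2)
    (an (chkT c c' t1 p q V0 W1 V2) (chkT c c' t2 p q V0 W2 V2)))) = true
  rw [an_iff, an_iff] at h
  exact an_iff.2 ⟨h.1, an_iff.2 ⟨h.2.1, an_iff.2 ⟨h.2.2, an_iff.2 ⟨h1, h2⟩⟩⟩⟩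

theorem chkT_cut2
    (h : an (shp V2) (an (child ax true n V2 W1) (child ax false n V2 W2)) = true)
    (h1 : chkT c c' t1 p q V0 V1 W1 = true) (h2 : chkT c c' t2 p q V0 V1 W2 = true) :
    chkT c c' (.cut2 ax n W1 W2 t1 t2) p q V0 V1 V2 = true := by
  change an (shp V2) (an (child ax true n V2 W1) (an (child ax false n V2 W2)
    (an (chkT c c' t1 p q V0 V1 W1) (chkT c c' t2 p q V0 V1 W2)))) = true
  rw [an_iff, an_iff] at h
  exact an_iff.2 ⟨h.1, an_iff.2 ⟨h.2.1, an_iff.2 ⟨h.2.2, an_iff.2 ⟨h1, h2⟩⟩⟩⟩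

end Pool.Agent.Work.MP_b30479_gt.G2.SC
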