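import Pool.Agent.Work.MP_b30479_gt.G2.S2CfgA

/-!
# Tensors of the ring equations with 5, 6, 7 crossings
-/

set_option linter.unusedSimpArgs false
set_option linter.unusedTactic false
set_option linter.unreachableTactic false

namespace Pool.Agent.Work.MP_b30479_gt.G2.SC

/-- coefficients -/
def gF5mm (i : ℕ) : G4 :=
  if i = 2 then ⟨0, 5411658792960000000000000000000000000, 0, 0⟩ else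
  if i = 6 then ⟨0, 5411658792960000000000000000000000000, 0, 0⟩ else
  if i = 13 then ⟨84557168640000000000000000000000, 0, 0, 0⟩ else
  if i = 18 then ⟨120259084288000000000000000000000000, 0, 0, 0⟩ else
  if i = 31 then ⟨0, 110100480000000000000000, 0, 0⟩ else
  if i = 36 then ⟨0, 2415919104000000000000000000, 0, 0⟩ else
  if i = 49 then ⟨163840000000000, 0, 0, 0⟩ else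
  if i = 54 then ⟨69206016000000000000, 0, 0, 0⟩ else
  if i = 72 then ⟨0, 2752512000000, 0, 0⟩ else
  if i = 90 then ⟨322560, 0, 0, 0⟩ else
  ⟨0, 0, 0, 0⟩

/-- configuration -/
def cF5mm : Cfg := ⟨10, 0, 2, 1, 9, 9, 3, false, true, true, [⟨0, 0, 0, 0⟩, ⟨0, 0, 0, 0⟩, ⟨0,
    5411658792960000000000000000000000000, 0, 0⟩, ⟨0, 0, 0, 0⟩, ⟨0, 0, 0, 0⟩, ⟨0, 0, 0, 0⟩, ⟨0,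
    5411658792960000000000000000000000000, 0, 0⟩, ⟨0, 0, 0, 0⟩, ⟨0, 0, 0, 0⟩, ⟨0, 0, 0, 0⟩, ⟨0, 0,
    0, 0⟩, ⟨0, 0, 0, 0⟩, ⟨0, 0, 0, 0⟩, ⟨84557168640000000000000000000000, 0, 0, 0⟩, ⟨0, 0, 0, 0⟩,
    ⟨0, 0, 0, 0⟩, ⟨0, 0, 0, 0⟩, ⟨0, 0, 0, 0⟩, ⟨120259084288000000000000000000000000, 0, 0, 0⟩, ⟨0,
    0, 0, 0⟩, ⟨0, 0, 0, 0⟩, ⟨0, 0, 0, 0⟩, ⟨0, 0, 0, 0⟩, ⟨0, 0, 0, 0⟩, ⟨0, 0, 0, 0⟩, ⟨0, 0, 0, 0⟩,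
    ⟨0, 0, 0, 0⟩, ⟨0, 0, 0, 0⟩, ⟨0, 0, 0, 0⟩, ⟨0, 0, 0, 0⟩, ⟨0, 0, 0, 0⟩, ⟨0,
    110100480000000000000000, 0, 0⟩, ⟨0, 0, 0, 0⟩, ⟨0, 0, 0, 0⟩, ⟨0, 0, 0, 0⟩, ⟨0, 0, 0, 0⟩, ⟨0,
    2415919104000000000000000000, 0, 0⟩, ⟨0, 0, 0, 0⟩, ⟨0, 0, 0, 0⟩, ⟨0, 0, 0, 0⟩, ⟨0, 0, 0, 0⟩,
    ⟨0, 0, 0, 0⟩, ⟨0, 0, 0, 0⟩, ⟨0, 0, 0, 0⟩, ⟨0, 0, 0, 0⟩, ⟨0, 0, 0, 0⟩, ⟨0, 0, 0, 0⟩, ⟨0, 0, 0,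
    0⟩, ⟨0, 0, 0, 0⟩, ⟨163840000000000, 0, 0, 0⟩, ⟨0, 0, 0, 0⟩, ⟨0, 0, 0, 0⟩, ⟨0, 0, 0, 0⟩, ⟨0, 0,
    0, 0⟩, ⟨69206016000000000000, 0, 0, 0⟩, ⟨0, 0, 0, 0⟩, ⟨0, 0, 0, 0⟩, ⟨0, 0, 0, 0⟩, ⟨0, 0, 0,
    0⟩, ⟨0, 0, 0, 0⟩, ⟨0, 0, 0, 0⟩, ⟨0, 0, 0, 0⟩, ⟨0, 0, 0, 0⟩, ⟨0, 0, 0, 0⟩, ⟨0, 0, 0, 0⟩, ⟨0, 0,
    0, 0⟩, ⟨0, 0, 0, 0⟩, ⟨0, 0, 0, 0⟩, ⟨0, 0, 0, 0⟩, ⟨0, 0, 0, 0⟩, ⟨0, 0, 0, 0⟩, ⟨0, 0, 0, 0⟩, ⟨0,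
    2752512000000, 0, 0⟩, ⟨0, 0, 0, 0⟩, ⟨0, 0, 0, 0⟩, ⟨0, 0, 0, 0⟩, ⟨0, 0, 0, 0⟩, ⟨0, 0, 0, 0⟩,
    ⟨0, 0, 0, 0⟩, ⟨0, 0, 0, 0⟩, ⟨0, 0, 0, 0⟩, ⟨0, 0, 0, 0⟩, ⟨0, 0, 0, 0⟩, ⟨0, 0, 0, 0⟩, ⟨0, 0, 0,
    0⟩, ⟨0, 0, 0, 0⟩, ⟨0, 0, 0, 0⟩, ⟨0, 0, 0, 0⟩, ⟨0, 0, 0, 0⟩, ⟨0, 0, 0, 0⟩, ⟨322560, 0, 0, 0⟩,
    ⟨0, 0, 0, 0⟩, ⟨0, 0, 0, 0⟩, ⟨0, 0, 0, 0⟩, ⟨0, 0, 0, 0⟩, ⟨0, 0, 0, 0⟩, ⟨0, 0, 0, 0⟩, ⟨0, 0, 0,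
    0⟩, ⟨0, 0, 0, 0⟩]⟩

lemma rpF5mm : Rp cF5mm.L (fun i => (gF5mm i).v) := by
  have h : cF5mm.L = (List.range 99).map gF5mm := by rfl
  rw [h]
  exact rp_map _ _

lemma evF5mm {z k l Z0 Z1 Z2 : ℂ} (h1 : mr true Z1 = Complex.I * (16000 * k))
    (h2 : mr true Z2 = Complex.I * (16000 * l)) :
    app (slots cF5mm (16000 * z) Z0 Z1 Z2) (fun i => (gF5mm i).v) 0 =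
      1385384650997760000000000000000000000000000000 * (k ^ 2 + l ^ 2 - 2 * k * l * (16 * z ^ 5 - 20 * z ^ 3 + 5 * z) + (z * (16 * z ^ 4 - 12 * z ^ 2 + 1)) ^ 2) := by
  rw [app_slots]
  simp only [cF5mm, Finset.sum_range_succ, Finset.sum_range_zero, Nat.reduceAdd, Nat.reduceMul,
    zero_add, add_zero, gF5mm, Nat.reduceEqDiff, if_true, if_false, v_zero, v_re, v_neg, v_im, v_imn,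
    mul_zero, h1, h2, Nat.cast_zero, OfNat.ofNat_ne_zero, OfNat.ofNat_eq_ofNat, Nat.reduceEqDiff, Nat.cast_ofNat]
  simp only [Nat.choose, Nat.reduceAdd, pow_zero, pow_one, mul_one, one_mul, Nat.cast_one,
    Nat.cast_ofNat, mul_pow, Complex.I_sq]
  ring_nf
  try simp only [Complex.I_sq, Complex.I_pow_three, Complex.I_pow_four, I5, I6, I7, I8]
  try ring

/-- coefficients -/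
def gF5mn (i : ℕ) : G4 :=
  if i = 2 then ⟨5411658792960000000000000000000000000, 0, 0, 0⟩ else
  if i = 6 then ⟨0, 5411658792960000000000000000000000000, 0, 0⟩ else
  if i = 13 then ⟨0, 0, 84557168640000000000000000000000, 0⟩ else
  if i = 18 then ⟨120259084288000000000000000000000000, 0, 0, 0⟩ else
  if i = 31 then ⟨0, 0, 0, 110100480000000000000000⟩ else
  if i = 36 then ⟨0, 2415919104000000000000000000, 0, 0⟩ else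
  if i = 49 then ⟨0, 0, 163840000000000, 0⟩ else
  if i = 54 then ⟨69206016000000000000, 0, 0, 0⟩ else
  if i = 72 then ⟨0, 2752512000000, 0, 0⟩ else
  if i = 90 then ⟨322560, 0, 0, 0⟩ else
  ⟨0, 0, 0, 0⟩

/-- configuration -/
def cF5mn : Cfg := ⟨10, 0, 2, 1, 9, 9, 3, false, true, false, [⟨0, 0, 0, 0⟩, ⟨0, 0, 0, 0⟩,
    ⟨5411658792960000000000000000000000000, 0, 0, 0⟩, ⟨0, 0, 0, 0⟩, ⟨0, 0, 0, 0⟩, ⟨0, 0, 0, 0⟩,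
    ⟨0, 5411658792960000000000000000000000000, 0, 0⟩, ⟨0, 0, 0, 0⟩, ⟨0, 0, 0, 0⟩, ⟨0, 0, 0, 0⟩,
    ⟨0, 0, 0, 0⟩, ⟨0, 0, 0, 0⟩, ⟨0, 0, 0, 0⟩, ⟨0, 0, 84557168640000000000000000000000, 0⟩, ⟨0, 0,
    0, 0⟩, ⟨0, 0, 0, 0⟩, ⟨0, 0, 0, 0⟩, ⟨0, 0, 0, 0⟩, ⟨120259084288000000000000000000000000, 0, 0,
    0⟩, ⟨0, 0, 0, 0⟩, ⟨0, 0, 0, 0⟩, ⟨0, 0, 0, 0⟩, ⟨0, 0, 0, 0⟩, ⟨0, 0, 0, 0⟩, ⟨0, 0, 0, 0⟩, ⟨0, 0,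
    0, 0⟩, ⟨0, 0, 0, 0⟩, ⟨0, 0, 0, 0⟩, ⟨0, 0, 0, 0⟩, ⟨0, 0, 0, 0⟩, ⟨0, 0, 0, 0⟩, ⟨0, 0, 0,
    110100480000000000000000⟩, ⟨0, 0, 0, 0⟩, ⟨0, 0, 0, 0⟩, ⟨0, 0, 0, 0⟩, ⟨0, 0, 0, 0⟩, ⟨0,
    2415919104000000000000000000, 0, 0⟩, ⟨0, 0, 0, 0⟩, ⟨0, 0, 0, 0⟩, ⟨0, 0, 0, 0⟩, ⟨0, 0, 0, 0⟩,
    ⟨0, 0, 0, 0⟩, ⟨0, 0, 0, 0⟩, ⟨0, 0, 0, 0⟩, ⟨0, 0, 0, 0⟩, ⟨0, 0, 0, 0⟩, ⟨0, 0, 0, 0⟩, ⟨0, 0, 0,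
    0⟩, ⟨0, 0, 0, 0⟩, ⟨0, 0, 163840000000000, 0⟩, ⟨0, 0, 0, 0⟩, ⟨0, 0, 0, 0⟩, ⟨0, 0, 0, 0⟩, ⟨0, 0,
    0, 0⟩, ⟨69206016000000000000, 0, 0, 0⟩, ⟨0, 0, 0, 0⟩, ⟨0, 0, 0, 0⟩, ⟨0, 0, 0, 0⟩, ⟨0, 0, 0,
    0⟩, ⟨0, 0, 0, 0⟩, ⟨0, 0, 0, 0⟩, ⟨0, 0, 0, 0⟩, ⟨0, 0, 0, 0⟩, ⟨0, 0, 0, 0⟩, ⟨0, 0, 0, 0⟩, ⟨0, 0,
    0, 0⟩, ⟨0, 0, 0, 0⟩, ⟨0, 0, 0, 0⟩, ⟨0, 0, 0, 0⟩, ⟨0, 0, 0, 0⟩, ⟨0, 0, 0, 0⟩, ⟨0, 0, 0, 0⟩, ⟨0,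
    2752512000000, 0, 0⟩, ⟨0, 0, 0, 0⟩, ⟨0, 0, 0, 0⟩, ⟨0, 0, 0, 0⟩, ⟨0, 0, 0, 0⟩, ⟨0, 0, 0, 0⟩,
    ⟨0, 0, 0, 0⟩, ⟨0, 0, 0, 0⟩, ⟨0, 0, 0, 0⟩, ⟨0, 0, 0, 0⟩, ⟨0, 0, 0, 0⟩, ⟨0, 0, 0, 0⟩, ⟨0, 0, 0,
    0⟩, ⟨0, 0, 0, 0⟩, ⟨0, 0, 0, 0⟩, ⟨0, 0, 0, 0⟩, ⟨0, 0, 0, 0⟩, ⟨0, 0, 0, 0⟩, ⟨322560, 0, 0, 0⟩,
    ⟨0, 0, 0, 0⟩, ⟨0, 0, 0, 0⟩, ⟨0, 0, 0, 0⟩, ⟨0, 0, 0, 0⟩, ⟨0, 0, 0, 0⟩, ⟨0, 0, 0, 0⟩, ⟨0, 0, 0,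
    0⟩, ⟨0, 0, 0, 0⟩]⟩

lemma rpF5mn : Rp cF5mn.L (fun i => (gF5mn i).v) := by
  have h : cF5mn.L = (List.range 99).map gF5mn := by rfl
  rw [h]
  exact rp_map _ _

lemma evF5mn {z k l Z0 Z1 Z2 : ℂ} (h1 : mr true Z1 = Complex.I * (16000 * k))
    (h2 : mr false Z2 = 16000 * l) :
    app (slots cF5mn (16000 * z) Z0 Z1 Z2) (fun i => (gF5mn i).v) 0 =
      1385384650997760000000000000000000000000000000 * (k ^ 2 + l ^ 2 - 2 * k * l * (16 * z ^ 5 - 20 * z ^ 3 + 5 * z) + (z * (16 * z ^ 4 - 12 * z ^ 2 + 1)) ^ 2) := by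
  rw [app_slots]
  simp only [cF5mn, Finset.sum_range_succ, Finset.sum_range_zero, Nat.reduceAdd, Nat.reduceMul,
    zero_add, add_zero, gF5mn, Nat.reduceEqDiff, if_true, if_false, v_zero, v_re, v_neg, v_im, v_imn,
    mul_zero, h1, h2, Nat.cast_zero, OfNat.ofNat_ne_zero, OfNat.ofNat_eq_ofNat, Nat.reduceEqDiff, Nat.cast_ofNat]
  simp only [Nat.choose, Nat.reduceAdd, pow_zero, pow_one, mul_one, one_mul, Nat.cast_one,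
    Nat.cast_ofNat, mul_pow, Complex.I_sq]
  ring_nf
  try simp only [Complex.I_sq, Complex.I_pow_three, Complex.I_pow_four, I5, I6, I7, I8]
  try ring

/-- coefficients -/
def gF5nn (i : ℕ) : G4 :=
  if i = 2 then ⟨5411658792960000000000000000000000000, 0, 0, 0⟩ else
  if i = 6 then ⟨5411658792960000000000000000000000000, 0, 0, 0⟩ else
  if i = 13 then ⟨0, 84557168640000000000000000000000, 0, 0⟩ else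
  if i = 18 then ⟨120259084288000000000000000000000000, 0, 0, 0⟩ else
  if i = 31 then ⟨110100480000000000000000, 0, 0, 0⟩ else
  if i = 36 then ⟨0, 2415919104000000000000000000, 0, 0⟩ else
  if i = 49 then ⟨0, 163840000000000, 0, 0⟩ else
  if i = 54 then ⟨69206016000000000000, 0, 0, 0⟩ else
  if i = 72 then ⟨0, 2752512000000, 0, 0⟩ else
  if i = 90 then ⟨322560, 0, 0, 0⟩ else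
  ⟨0, 0, 0, 0⟩

/-- configuration -/
def cF5nn : Cfg := ⟨10, 0, 2, 1, 9, 9, 3, false, false, false, [⟨0, 0, 0, 0⟩, ⟨0, 0, 0, 0⟩,
    ⟨5411658792960000000000000000000000000, 0, 0, 0⟩, ⟨0, 0, 0, 0⟩, ⟨0, 0, 0, 0⟩, ⟨0, 0, 0, 0⟩,
    ⟨5411658792960000000000000000000000000, 0, 0, 0⟩, ⟨0, 0, 0, 0⟩, ⟨0, 0, 0, 0⟩, ⟨0, 0, 0, 0⟩,
    ⟨0, 0, 0, 0⟩, ⟨0, 0, 0, 0⟩, ⟨0, 0, 0, 0⟩, ⟨0, 84557168640000000000000000000000, 0, 0⟩, ⟨0, 0,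
    0, 0⟩, ⟨0, 0, 0, 0⟩, ⟨0, 0, 0, 0⟩, ⟨0, 0, 0, 0⟩, ⟨120259084288000000000000000000000000, 0, 0,
    0⟩, ⟨0, 0, 0, 0⟩, ⟨0, 0, 0, 0⟩, ⟨0, 0, 0, 0⟩, ⟨0, 0, 0, 0⟩, ⟨0, 0, 0, 0⟩, ⟨0, 0, 0, 0⟩, ⟨0, 0,
    0, 0⟩, ⟨0, 0, 0, 0⟩, ⟨0, 0, 0, 0⟩, ⟨0, 0, 0, 0⟩, ⟨0, 0, 0, 0⟩, ⟨0, 0, 0, 0⟩,
    ⟨110100480000000000000000, 0, 0, 0⟩, ⟨0, 0, 0, 0⟩, ⟨0, 0, 0, 0⟩, ⟨0, 0, 0, 0⟩, ⟨0, 0, 0, 0⟩,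
    ⟨0, 2415919104000000000000000000, 0, 0⟩, ⟨0, 0, 0, 0⟩, ⟨0, 0, 0, 0⟩, ⟨0, 0, 0, 0⟩, ⟨0, 0, 0,
    0⟩, ⟨0, 0, 0, 0⟩, ⟨0, 0, 0, 0⟩, ⟨0, 0, 0, 0⟩, ⟨0, 0, 0, 0⟩, ⟨0, 0, 0, 0⟩, ⟨0, 0, 0, 0⟩, ⟨0, 0,
    0, 0⟩, ⟨0, 0, 0, 0⟩, ⟨0, 163840000000000, 0, 0⟩, ⟨0, 0, 0, 0⟩, ⟨0, 0, 0, 0⟩, ⟨0, 0, 0, 0⟩, ⟨0,
    0, 0, 0⟩, ⟨69206016000000000000, 0, 0, 0⟩, ⟨0, 0, 0, 0⟩, ⟨0, 0, 0, 0⟩, ⟨0, 0, 0, 0⟩, ⟨0, 0, 0,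
    0⟩, ⟨0, 0, 0, 0⟩, ⟨0, 0, 0, 0⟩, ⟨0, 0, 0, 0⟩, ⟨0, 0, 0, 0⟩, ⟨0, 0, 0, 0⟩, ⟨0, 0, 0, 0⟩, ⟨0, 0,
    0, 0⟩, ⟨0, 0, 0, 0⟩, ⟨0, 0, 0, 0⟩, ⟨0, 0, 0, 0⟩, ⟨0, 0, 0, 0⟩, ⟨0, 0, 0, 0⟩, ⟨0, 0, 0, 0⟩, ⟨0,
    2752512000000, 0, 0⟩, ⟨0, 0, 0, 0⟩, ⟨0, 0, 0, 0⟩, ⟨0, 0, 0, 0⟩, ⟨0, 0, 0, 0⟩, ⟨0, 0, 0, 0⟩,
    ⟨0, 0, 0, 0⟩, ⟨0, 0, 0, 0⟩, ⟨0, 0, 0, 0⟩, ⟨0, 0, 0, 0⟩, ⟨0, 0, 0, 0⟩, ⟨0, 0, 0, 0⟩, ⟨0, 0, 0,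
    0⟩, ⟨0, 0, 0, 0⟩, ⟨0, 0, 0, 0⟩, ⟨0, 0, 0, 0⟩, ⟨0, 0, 0, 0⟩, ⟨0, 0, 0, 0⟩, ⟨322560, 0, 0, 0⟩,
    ⟨0, 0, 0, 0⟩, ⟨0, 0, 0, 0⟩, ⟨0, 0, 0, 0⟩, ⟨0, 0, 0, 0⟩, ⟨0, 0, 0, 0⟩, ⟨0, 0, 0, 0⟩, ⟨0, 0, 0,
    0⟩, ⟨0, 0, 0, 0⟩]⟩

lemma rpF5nn : Rp cF5nn.L (fun i => (gF5nn i).v) := by
  have h : cF5nn.L = (List.range 99).map gF5nn := by rfl
  rw [h]
  exact rp_map _ _

lemma evF5nn {z k l Z0 Z1 Z2 : ℂ} (h1 : mr false Z1 = 16000 * k)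
    (h2 : mr false Z2 = 16000 * l) :
    app (slots cF5nn (16000 * z) Z0 Z1 Z2) (fun i => (gF5nn i).v) 0 =
      1385384650997760000000000000000000000000000000 * (k ^ 2 + l ^ 2 - 2 * k * l * (16 * z ^ 5 - 20 * z ^ 3 + 5 * z) + (z * (16 * z ^ 4 - 12 * z ^ 2 + 1)) ^ 2) := by
  rw [app_slots]
  simp only [cF5nn, Finset.sum_range_succ, Finset.sum_range_zero, Nat.reduceAdd, Nat.reduceMul,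
    zero_add, add_zero, gF5nn, Nat.reduceEqDiff, if_true, if_false, v_zero, v_re, v_neg, v_im, v_imn,
    mul_zero, h1, h2, Nat.cast_zero, OfNat.ofNat_ne_zero, OfNat.ofNat_eq_ofNat, Nat.reduceEqDiff, Nat.cast_ofNat]
  simp only [Nat.choose, Nat.reduceAdd, pow_zero, pow_one, mul_one, one_mul, Nat.cast_one,
    Nat.cast_ofNat, mul_pow, Complex.I_sq]
  ring_nf
  try simp only [Complex.I_sq, Complex.I_pow_three, Complex.I_pow_four, I5, I6, I7, I8]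
  try ring

/-- coefficients -/
def gG5m (i : ℕ) : G4 :=
  if i = 1 then ⟨0, 0, 0, 327680000000000000⟩ else
  if i = 2 then ⟨0, 0, 65536000000000000, 0⟩ else
  if i = 6 then ⟨0, 0, 0, 1536000000⟩ else
  if i = 10 then ⟨0, 0, 80, 0⟩ else
  ⟨0, 0, 0, 0⟩

/-- configuration -/
def cG5m : Cfg := ⟨5, 0, 0, 0, 2, 2, 2, false, false, true, [⟨0, 0, 0, 0⟩, ⟨0, 0, 0,
    327680000000000000⟩, ⟨0, 0, 65536000000000000, 0⟩, ⟨0, 0, 0, 0⟩, ⟨0, 0, 0, 0⟩, ⟨0, 0, 0, 0⟩,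
    ⟨0, 0, 0, 1536000000⟩, ⟨0, 0, 0, 0⟩, ⟨0, 0, 0, 0⟩, ⟨0, 0, 0, 0⟩, ⟨0, 0, 80, 0⟩, ⟨0, 0, 0, 0⟩]⟩

lemma rpG5m : Rp cG5m.L (fun i => (gG5m i).v) := by
  have h : cG5m.L = (List.range 12).map gG5m := by rfl
  rw [h]
  exact rp_map _ _

lemma evG5m {z k Z0 Z1 Z2 : ℂ} (h2 : mr true Z2 = Complex.I * (16000 * k)) :
    app (slots cG5m (16000 * z) Z0 Z1 Z2) (fun i => (gG5m i).v) 0 =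
      5242880000000000000000 * (k + Complex.I * z * (16 * z ^ 4 - 12 * z ^ 2 + 1)) := by
  rw [app_slots]
  simp only [cG5m, Finset.sum_range_succ, Finset.sum_range_zero, Nat.reduceAdd, Nat.reduceMul,
    zero_add, add_zero, gG5m, Nat.reduceEqDiff, if_true, if_false, v_zero, v_re, v_neg, v_im, v_imn,
    mul_zero, h2, Nat.cast_zero, OfNat.ofNat_ne_zero, OfNat.ofNat_eq_ofNat, Nat.reduceEqDiff, Nat.cast_ofNat]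
  simp only [Nat.choose, Nat.reduceAdd, pow_zero, pow_one, mul_one, one_mul, Nat.cast_one,
    Nat.cast_ofNat, mul_pow, Complex.I_sq]
  ring_nf
  try simp only [Complex.I_sq, Complex.I_pow_three, Complex.I_pow_four, I5, I6, I7, I8]
  try ring

/-- coefficients -/
def gG5n (i : ℕ) : G4 :=
  if i = 1 then ⟨327680000000000000, 0, 0, 0⟩ else
  if i = 2 then ⟨0, 0, 65536000000000000, 0⟩ else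
  if i = 6 then ⟨0, 0, 0, 1536000000⟩ else
  if i = 10 then ⟨0, 0, 80, 0⟩ else
  ⟨0, 0, 0, 0⟩

/-- configuration -/
def cG5n : Cfg := ⟨5, 0, 0, 0, 2, 2, 2, false, false, false, [⟨0, 0, 0, 0⟩, ⟨327680000000000000,
    0, 0, 0⟩, ⟨0, 0, 65536000000000000, 0⟩, ⟨0, 0, 0, 0⟩, ⟨0, 0, 0, 0⟩, ⟨0, 0, 0, 0⟩, ⟨0, 0, 0,
    1536000000⟩, ⟨0, 0, 0, 0⟩, ⟨0, 0, 0, 0⟩, ⟨0, 0, 0, 0⟩, ⟨0, 0, 80, 0⟩, ⟨0, 0, 0, 0⟩]⟩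

lemma rpG5n : Rp cG5n.L (fun i => (gG5n i).v) := by
  have h : cG5n.L = (List.range 12).map gG5n := by rfl
  rw [h]
  exact rp_map _ _

lemma evG5n {z k Z0 Z1 Z2 : ℂ} (h2 : mr false Z2 = 16000 * k) :
    app (slots cG5n (16000 * z) Z0 Z1 Z2) (fun i => (gG5n i).v) 0 =
      5242880000000000000000 * (k + Complex.I * z * (16 * z ^ 4 - 12 * z ^ 2 + 1)) := by
  rw [app_slots]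
  simp only [cG5n, Finset.sum_range_succ, Finset.sum_range_zero, Nat.reduceAdd, Nat.reduceMul,
    zero_add, add_zero, gG5n, Nat.reduceEqDiff, if_true, if_false, v_zero, v_re, v_neg, v_im, v_imn,
    mul_zero, h2, Nat.cast_zero, OfNat.ofNat_ne_zero, OfNat.ofNat_eq_ofNat, Nat.reduceEqDiff, Nat.cast_ofNat]
  simp only [Nat.choose, Nat.reduceAdd, pow_zero, pow_one, mul_one, one_mul, Nat.cast_one,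
    Nat.cast_ofNat, mul_pow, Complex.I_sq]
  ring_nf
  try simp only [Complex.I_sq, Complex.I_pow_three, Complex.I_pow_four, I5, I6, I7, I8]
  try ring

/-- coefficients -/
def gF6mm (i : ℕ) : G4 :=
  if i = 2 then ⟨0, 7619615580487680000000000000000000000000000000, 0, 0⟩ else
  if i = 4 then ⟨0, 3809807790243840000000000000000000000000000000, 0, 0⟩ else
  if i = 6 then ⟨0, 7619615580487680000000000000000000000000000000, 0, 0⟩ else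
  if i = 22 then ⟨4058744094720000000000000000000000000, 0, 0, 0⟩ else
  if i = 36 then ⟨2164663517184000000000000000000000000, 0, 0, 0⟩ else
  if i = 40 then ⟨0, 5637144576000000000000000000, 0, 0⟩ else
  if i = 54 then ⟨0, 48318382080000000000000000000, 0, 0⟩ else
  if i = 58 then ⟨7864320000000000000, 0, 0, 0⟩ else
  if i = 72 then ⟨1291845632000000000000, 0, 0, 0⟩ else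
  if i = 90 then ⟨0, 55050240000000, 0, 0⟩ else
  if i = 108 then ⟨7096320, 0, 0, 0⟩ else
  ⟨0, 0, 0, 0⟩

/-- configuration -/
def cF6mm : Cfg := ⟨12, 0, 2, 1, 9, 9, 3, false, true, true, [⟨0, 0, 0, 0⟩, ⟨0, 0, 0, 0⟩, ⟨0,
    7619615580487680000000000000000000000000000000, 0, 0⟩, ⟨0, 0, 0, 0⟩, ⟨0,
    3809807790243840000000000000000000000000000000, 0, 0⟩, ⟨0, 0, 0, 0⟩, ⟨0,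
    7619615580487680000000000000000000000000000000, 0, 0⟩, ⟨0, 0, 0, 0⟩, ⟨0, 0, 0, 0⟩, ⟨0, 0, 0,
    0⟩, ⟨0, 0, 0, 0⟩, ⟨0, 0, 0, 0⟩, ⟨0, 0, 0, 0⟩, ⟨0, 0, 0, 0⟩, ⟨0, 0, 0, 0⟩, ⟨0, 0, 0, 0⟩, ⟨0, 0,
    0, 0⟩, ⟨0, 0, 0, 0⟩, ⟨0, 0, 0, 0⟩, ⟨0, 0, 0, 0⟩, ⟨0, 0, 0, 0⟩, ⟨0, 0, 0, 0⟩,
    ⟨4058744094720000000000000000000000000, 0, 0, 0⟩, ⟨0, 0, 0, 0⟩, ⟨0, 0, 0, 0⟩, ⟨0, 0, 0, 0⟩,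
    ⟨0, 0, 0, 0⟩, ⟨0, 0, 0, 0⟩, ⟨0, 0, 0, 0⟩, ⟨0, 0, 0, 0⟩, ⟨0, 0, 0, 0⟩, ⟨0, 0, 0, 0⟩, ⟨0, 0, 0,
    0⟩, ⟨0, 0, 0, 0⟩, ⟨0, 0, 0, 0⟩, ⟨0, 0, 0, 0⟩, ⟨2164663517184000000000000000000000000, 0, 0,
    0⟩, ⟨0, 0, 0, 0⟩, ⟨0, 0, 0, 0⟩, ⟨0, 0, 0, 0⟩, ⟨0, 5637144576000000000000000000, 0, 0⟩, ⟨0, 0,
    0, 0⟩, ⟨0, 0, 0, 0⟩, ⟨0, 0, 0, 0⟩, ⟨0, 0, 0, 0⟩, ⟨0, 0, 0, 0⟩, ⟨0, 0, 0, 0⟩, ⟨0, 0, 0, 0⟩, ⟨0,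
    0, 0, 0⟩, ⟨0, 0, 0, 0⟩, ⟨0, 0, 0, 0⟩, ⟨0, 0, 0, 0⟩, ⟨0, 0, 0, 0⟩, ⟨0, 0, 0, 0⟩, ⟨0,
    48318382080000000000000000000, 0, 0⟩, ⟨0, 0, 0, 0⟩, ⟨0, 0, 0, 0⟩, ⟨0, 0, 0, 0⟩,
    ⟨7864320000000000000, 0, 0, 0⟩, ⟨0, 0, 0, 0⟩, ⟨0, 0, 0, 0⟩, ⟨0, 0, 0, 0⟩, ⟨0, 0, 0, 0⟩, ⟨0, 0,
    0, 0⟩, ⟨0, 0, 0, 0⟩, ⟨0, 0, 0, 0⟩, ⟨0, 0, 0, 0⟩, ⟨0, 0, 0, 0⟩, ⟨0, 0, 0, 0⟩, ⟨0, 0, 0, 0⟩, ⟨0,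
    0, 0, 0⟩, ⟨0, 0, 0, 0⟩, ⟨1291845632000000000000, 0, 0, 0⟩, ⟨0, 0, 0, 0⟩, ⟨0, 0, 0, 0⟩, ⟨0, 0,
    0, 0⟩, ⟨0, 0, 0, 0⟩, ⟨0, 0, 0, 0⟩, ⟨0, 0, 0, 0⟩, ⟨0, 0, 0, 0⟩, ⟨0, 0, 0, 0⟩, ⟨0, 0, 0, 0⟩, ⟨0,
    0, 0, 0⟩, ⟨0, 0, 0, 0⟩, ⟨0, 0, 0, 0⟩, ⟨0, 0, 0, 0⟩, ⟨0, 0, 0, 0⟩, ⟨0, 0, 0, 0⟩, ⟨0, 0, 0, 0⟩,
    ⟨0, 0, 0, 0⟩, ⟨0, 55050240000000, 0, 0⟩, ⟨0, 0, 0, 0⟩, ⟨0, 0, 0, 0⟩, ⟨0, 0, 0, 0⟩, ⟨0, 0, 0,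
    0⟩, ⟨0, 0, 0, 0⟩, ⟨0, 0, 0, 0⟩, ⟨0, 0, 0, 0⟩, ⟨0, 0, 0, 0⟩, ⟨0, 0, 0, 0⟩, ⟨0, 0, 0, 0⟩, ⟨0, 0,
    0, 0⟩, ⟨0, 0, 0, 0⟩, ⟨0, 0, 0, 0⟩, ⟨0, 0, 0, 0⟩, ⟨0, 0, 0, 0⟩, ⟨0, 0, 0, 0⟩, ⟨0, 0, 0, 0⟩,
    ⟨7096320, 0, 0, 0⟩, ⟨0, 0, 0, 0⟩, ⟨0, 0, 0, 0⟩, ⟨0, 0, 0, 0⟩, ⟨0, 0, 0, 0⟩, ⟨0, 0, 0, 0⟩, ⟨0,
    0, 0, 0⟩, ⟨0, 0, 0, 0⟩, ⟨0, 0, 0, 0⟩]⟩

lemma rpF6mm : Rp cF6mm.L (fun i => (gF6mm i).v) := by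
  have h : cF6mm.L = (List.range 117).map gF6mm := by rfl
  rw [h]
  exact rp_map _ _

lemma evF6mm {z k l Z0 Z1 Z2 : ℂ} (h1 : mr true Z1 = Complex.I * (16000 * k))
    (h2 : mr true Z2 = Complex.I * (16000 * l)) :
    app (slots cF6mm (16000 * z) Z0 Z1 Z2) (fun i => (gF6mm i).v) 0 =
      1950621588604846080000000000000000000000000000000000000 * (k ^ 2 + l ^ 2 - 2 * k * l * (32 * z ^ 6 - 48 * z ^ 4 + 18 * z ^ 2 - 1) + (z * (32 * z ^ 5 - 32 * z ^ 3 + 6 * z)) ^ 2) := by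
  rw [app_slots]
  simp only [cF6mm, Finset.sum_range_succ, Finset.sum_range_zero, Nat.reduceAdd, Nat.reduceMul,
    zero_add, add_zero, gF6mm, Nat.reduceEqDiff, if_true, if_false, v_zero, v_re, v_neg, v_im, v_imn,
    mul_zero, h1, h2, Nat.cast_zero, OfNat.ofNat_ne_zero, OfNat.ofNat_eq_ofNat, Nat.reduceEqDiff, Nat.cast_ofNat]
  simp only [Nat.choose, Nat.reduceAdd, pow_zero, pow_one, mul_one, one_mul, Nat.cast_one,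
    Nat.cast_ofNat, mul_pow, Complex.I_sq]
  ring_nf
  try simp only [Complex.I_sq, Complex.I_pow_three, Complex.I_pow_four, I5, I6, I7, I8]
  try ring

/-- coefficients -/
def gF6mn (i : ℕ) : G4 :=
  if i = 2 then ⟨7619615580487680000000000000000000000000000000, 0, 0, 0⟩ else
  if i = 4 then ⟨0, 0, 0, 3809807790243840000000000000000000000000000000⟩ else
  if i = 6 then ⟨0, 7619615580487680000000000000000000000000000000, 0, 0⟩ else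
  if i = 22 then ⟨0, 0, 4058744094720000000000000000000000000, 0⟩ else
  if i = 36 then ⟨2164663517184000000000000000000000000, 0, 0, 0⟩ else
  if i = 40 then ⟨0, 0, 0, 5637144576000000000000000000⟩ else
  if i = 54 then ⟨0, 48318382080000000000000000000, 0, 0⟩ else
  if i = 58 then ⟨0, 0, 7864320000000000000, 0⟩ else
  if i = 72 then ⟨1291845632000000000000, 0, 0, 0⟩ else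
  if i = 90 then ⟨0, 55050240000000, 0, 0⟩ else
  if i = 108 then ⟨7096320, 0, 0, 0⟩ else
  ⟨0, 0, 0, 0⟩

/-- configuration -/
def cF6mn : Cfg := ⟨12, 0, 2, 1, 9, 9, 3, false, true, false, [⟨0, 0, 0, 0⟩, ⟨0, 0, 0, 0⟩,
    ⟨7619615580487680000000000000000000000000000000, 0, 0, 0⟩, ⟨0, 0, 0, 0⟩, ⟨0, 0, 0,
    3809807790243840000000000000000000000000000000⟩, ⟨0, 0, 0, 0⟩, ⟨0,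
    7619615580487680000000000000000000000000000000, 0, 0⟩, ⟨0, 0, 0, 0⟩, ⟨0, 0, 0, 0⟩, ⟨0, 0, 0,
    0⟩, ⟨0, 0, 0, 0⟩, ⟨0, 0, 0, 0⟩, ⟨0, 0, 0, 0⟩, ⟨0, 0, 0, 0⟩, ⟨0, 0, 0, 0⟩, ⟨0, 0, 0, 0⟩, ⟨0, 0,
    0, 0⟩, ⟨0, 0, 0, 0⟩, ⟨0, 0, 0, 0⟩, ⟨0, 0, 0, 0⟩, ⟨0, 0, 0, 0⟩, ⟨0, 0, 0, 0⟩, ⟨0, 0,
    4058744094720000000000000000000000000, 0⟩, ⟨0, 0, 0, 0⟩, ⟨0, 0, 0, 0⟩, ⟨0, 0, 0, 0⟩, ⟨0, 0, 0,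
    0⟩, ⟨0, 0, 0, 0⟩, ⟨0, 0, 0, 0⟩, ⟨0, 0, 0, 0⟩, ⟨0, 0, 0, 0⟩, ⟨0, 0, 0, 0⟩, ⟨0, 0, 0, 0⟩, ⟨0, 0,
    0, 0⟩, ⟨0, 0, 0, 0⟩, ⟨0, 0, 0, 0⟩, ⟨2164663517184000000000000000000000000, 0, 0, 0⟩, ⟨0, 0, 0,
    0⟩, ⟨0, 0, 0, 0⟩, ⟨0, 0, 0, 0⟩, ⟨0, 0, 0, 5637144576000000000000000000⟩, ⟨0, 0, 0, 0⟩, ⟨0, 0,
    0, 0⟩, ⟨0, 0, 0, 0⟩, ⟨0, 0, 0, 0⟩, ⟨0, 0, 0, 0⟩, ⟨0, 0, 0, 0⟩, ⟨0, 0, 0, 0⟩, ⟨0, 0, 0, 0⟩, ⟨0,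
    0, 0, 0⟩, ⟨0, 0, 0, 0⟩, ⟨0, 0, 0, 0⟩, ⟨0, 0, 0, 0⟩, ⟨0, 0, 0, 0⟩, ⟨0,
    48318382080000000000000000000, 0, 0⟩, ⟨0, 0, 0, 0⟩, ⟨0, 0, 0, 0⟩, ⟨0, 0, 0, 0⟩, ⟨0, 0,
    7864320000000000000, 0⟩, ⟨0, 0, 0, 0⟩, ⟨0, 0, 0, 0⟩, ⟨0, 0, 0, 0⟩, ⟨0, 0, 0, 0⟩, ⟨0, 0, 0, 0⟩,
    ⟨0, 0, 0, 0⟩, ⟨0, 0, 0, 0⟩, ⟨0, 0, 0, 0⟩, ⟨0, 0, 0, 0⟩, ⟨0, 0, 0, 0⟩, ⟨0, 0, 0, 0⟩, ⟨0, 0, 0,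
    0⟩, ⟨0, 0, 0, 0⟩, ⟨1291845632000000000000, 0, 0, 0⟩, ⟨0, 0, 0, 0⟩, ⟨0, 0, 0, 0⟩, ⟨0, 0, 0, 0⟩,
    ⟨0, 0, 0, 0⟩, ⟨0, 0, 0, 0⟩, ⟨0, 0, 0, 0⟩, ⟨0, 0, 0, 0⟩, ⟨0, 0, 0, 0⟩, ⟨0, 0, 0, 0⟩, ⟨0, 0, 0,
    0⟩, ⟨0, 0, 0, 0⟩, ⟨0, 0, 0, 0⟩, ⟨0, 0, 0, 0⟩, ⟨0, 0, 0, 0⟩, ⟨0, 0, 0, 0⟩, ⟨0, 0, 0, 0⟩, ⟨0, 0,
    0, 0⟩, ⟨0, 55050240000000, 0, 0⟩, ⟨0, 0, 0, 0⟩, ⟨0, 0, 0, 0⟩, ⟨0, 0, 0, 0⟩, ⟨0, 0, 0, 0⟩, ⟨0,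
    0, 0, 0⟩, ⟨0, 0, 0, 0⟩, ⟨0, 0, 0, 0⟩, ⟨0, 0, 0, 0⟩, ⟨0, 0, 0, 0⟩, ⟨0, 0, 0, 0⟩, ⟨0, 0, 0, 0⟩,
    ⟨0, 0, 0, 0⟩, ⟨0, 0, 0, 0⟩, ⟨0, 0, 0, 0⟩, ⟨0, 0, 0, 0⟩, ⟨0, 0, 0, 0⟩, ⟨0, 0, 0, 0⟩, ⟨7096320,
    0, 0, 0⟩, ⟨0, 0, 0, 0⟩, ⟨0, 0, 0, 0⟩, ⟨0, 0, 0, 0⟩, ⟨0, 0, 0, 0⟩, ⟨0, 0, 0, 0⟩, ⟨0, 0, 0, 0⟩,
    ⟨0, 0, 0, 0⟩, ⟨0, 0, 0, 0⟩]⟩

lemma rpF6mn : Rp cF6mn.L (fun i => (gF6mn i).v) := by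
  have h : cF6mn.L = (List.range 117).map gF6mn := by rfl
  rw [h]
  exact rp_map _ _

lemma evF6mn {z k l Z0 Z1 Z2 : ℂ} (h1 : mr true Z1 = Complex.I * (16000 * k))
    (h2 : mr false Z2 = 16000 * l) :
    app (slots cF6mn (16000 * z) Z0 Z1 Z2) (fun i => (gF6mn i).v) 0 =
      1950621588604846080000000000000000000000000000000000000 * (k ^ 2 + l ^ 2 - 2 * k * l * (32 * z ^ 6 - 48 * z ^ 4 + 18 * z ^ 2 - 1) + (z * (32 * z ^ 5 - 32 * z ^ 3 + 6 * z)) ^ 2) := by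
  rw [app_slots]
  simp only [cF6mn, Finset.sum_range_succ, Finset.sum_range_zero, Nat.reduceAdd, Nat.reduceMul,
    zero_add, add_zero, gF6mn, Nat.reduceEqDiff, if_true, if_false, v_zero, v_re, v_neg, v_im, v_imn,
    mul_zero, h1, h2, Nat.cast_zero, OfNat.ofNat_ne_zero, OfNat.ofNat_eq_ofNat, Nat.reduceEqDiff, Nat.cast_ofNat]
  simp only [Nat.choose, Nat.reduceAdd, pow_zero, pow_one, mul_one, one_mul, Nat.cast_one,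
    Nat.cast_ofNat, mul_pow, Complex.I_sq]
  ring_nf
  try simp only [Complex.I_sq, Complex.I_pow_three, Complex.I_pow_four, I5, I6, I7, I8]
  try ring

/-- coefficients -/
def gF6nn (i : ℕ) : G4 :=
  if i = 2 then ⟨7619615580487680000000000000000000000000000000, 0, 0, 0⟩ else
  if i = 4 then ⟨3809807790243840000000000000000000000000000000, 0, 0, 0⟩ else
  if i = 6 then ⟨7619615580487680000000000000000000000000000000, 0, 0, 0⟩ else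
  if i = 22 then ⟨0, 4058744094720000000000000000000000000, 0, 0⟩ else
  if i = 36 then ⟨2164663517184000000000000000000000000, 0, 0, 0⟩ else
  if i = 40 then ⟨5637144576000000000000000000, 0, 0, 0⟩ else
  if i = 54 then ⟨0, 48318382080000000000000000000, 0, 0⟩ else
  if i = 58 then ⟨0, 7864320000000000000, 0, 0⟩ else
  if i = 72 then ⟨1291845632000000000000, 0, 0, 0⟩ else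
  if i = 90 then ⟨0, 55050240000000, 0, 0⟩ else
  if i = 108 then ⟨7096320, 0, 0, 0⟩ else
  ⟨0, 0, 0, 0⟩

/-- configuration -/
def cF6nn : Cfg := ⟨12, 0, 2, 1, 9, 9, 3, false, false, false, [⟨0, 0, 0, 0⟩, ⟨0, 0, 0, 0⟩,
    ⟨7619615580487680000000000000000000000000000000, 0, 0, 0⟩, ⟨0, 0, 0, 0⟩,
    ⟨3809807790243840000000000000000000000000000000, 0, 0, 0⟩, ⟨0, 0, 0, 0⟩,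
    ⟨7619615580487680000000000000000000000000000000, 0, 0, 0⟩, ⟨0, 0, 0, 0⟩, ⟨0, 0, 0, 0⟩, ⟨0, 0,
    0, 0⟩, ⟨0, 0, 0, 0⟩, ⟨0, 0, 0, 0⟩, ⟨0, 0, 0, 0⟩, ⟨0, 0, 0, 0⟩, ⟨0, 0, 0, 0⟩, ⟨0, 0, 0, 0⟩, ⟨0,
    0, 0, 0⟩, ⟨0, 0, 0, 0⟩, ⟨0, 0, 0, 0⟩, ⟨0, 0, 0, 0⟩, ⟨0, 0, 0, 0⟩, ⟨0, 0, 0, 0⟩, ⟨0,
    4058744094720000000000000000000000000, 0, 0⟩, ⟨0, 0, 0, 0⟩, ⟨0, 0, 0, 0⟩, ⟨0, 0, 0, 0⟩, ⟨0, 0,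
    0, 0⟩, ⟨0, 0, 0, 0⟩, ⟨0, 0, 0, 0⟩, ⟨0, 0, 0, 0⟩, ⟨0, 0, 0, 0⟩, ⟨0, 0, 0, 0⟩, ⟨0, 0, 0, 0⟩, ⟨0,
    0, 0, 0⟩, ⟨0, 0, 0, 0⟩, ⟨0, 0, 0, 0⟩, ⟨2164663517184000000000000000000000000, 0, 0, 0⟩, ⟨0, 0,
    0, 0⟩, ⟨0, 0, 0, 0⟩, ⟨0, 0, 0, 0⟩, ⟨5637144576000000000000000000, 0, 0, 0⟩, ⟨0, 0, 0, 0⟩, ⟨0,
    0, 0, 0⟩, ⟨0, 0, 0, 0⟩, ⟨0, 0, 0, 0⟩, ⟨0, 0, 0, 0⟩, ⟨0, 0, 0, 0⟩, ⟨0, 0, 0, 0⟩, ⟨0, 0, 0, 0⟩,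
    ⟨0, 0, 0, 0⟩, ⟨0, 0, 0, 0⟩, ⟨0, 0, 0, 0⟩, ⟨0, 0, 0, 0⟩, ⟨0, 0, 0, 0⟩, ⟨0,
    48318382080000000000000000000, 0, 0⟩, ⟨0, 0, 0, 0⟩, ⟨0, 0, 0, 0⟩, ⟨0, 0, 0, 0⟩, ⟨0,
    7864320000000000000, 0, 0⟩, ⟨0, 0, 0, 0⟩, ⟨0, 0, 0, 0⟩, ⟨0, 0, 0, 0⟩, ⟨0, 0, 0, 0⟩, ⟨0, 0, 0,
    0⟩, ⟨0, 0, 0, 0⟩, ⟨0, 0, 0, 0⟩, ⟨0, 0, 0, 0⟩, ⟨0, 0, 0, 0⟩, ⟨0, 0, 0, 0⟩, ⟨0, 0, 0, 0⟩, ⟨0, 0,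
    0, 0⟩, ⟨0, 0, 0, 0⟩, ⟨1291845632000000000000, 0, 0, 0⟩, ⟨0, 0, 0, 0⟩, ⟨0, 0, 0, 0⟩, ⟨0, 0, 0,
    0⟩, ⟨0, 0, 0, 0⟩, ⟨0, 0, 0, 0⟩, ⟨0, 0, 0, 0⟩, ⟨0, 0, 0, 0⟩, ⟨0, 0, 0, 0⟩, ⟨0, 0, 0, 0⟩, ⟨0, 0,
    0, 0⟩, ⟨0, 0, 0, 0⟩, ⟨0, 0, 0, 0⟩, ⟨0, 0, 0, 0⟩, ⟨0, 0, 0, 0⟩, ⟨0, 0, 0, 0⟩, ⟨0, 0, 0, 0⟩, ⟨0,
    0, 0, 0⟩, ⟨0, 55050240000000, 0, 0⟩, ⟨0, 0, 0, 0⟩, ⟨0, 0, 0, 0⟩, ⟨0, 0, 0, 0⟩, ⟨0, 0, 0, 0⟩,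
    ⟨0, 0, 0, 0⟩, ⟨0, 0, 0, 0⟩, ⟨0, 0, 0, 0⟩, ⟨0, 0, 0, 0⟩, ⟨0, 0, 0, 0⟩, ⟨0, 0, 0, 0⟩, ⟨0, 0, 0,
    0⟩, ⟨0, 0, 0, 0⟩, ⟨0, 0, 0, 0⟩, ⟨0, 0, 0, 0⟩, ⟨0, 0, 0, 0⟩, ⟨0, 0, 0, 0⟩, ⟨0, 0, 0, 0⟩,
    ⟨7096320, 0, 0, 0⟩, ⟨0, 0, 0, 0⟩, ⟨0, 0, 0, 0⟩, ⟨0, 0, 0, 0⟩, ⟨0, 0, 0, 0⟩, ⟨0, 0, 0, 0⟩, ⟨0,
    0, 0, 0⟩, ⟨0, 0, 0, 0⟩, ⟨0, 0, 0, 0⟩]⟩

lemma rpF6nn : Rp cF6nn.L (fun i => (gF6nn i).v) := by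
  have h : cF6nn.L = (List.range 117).map gF6nn := by rfl
  rw [h]
  exact rp_map _ _

lemma evF6nn {z k l Z0 Z1 Z2 : ℂ} (h1 : mr false Z1 = 16000 * k)
    (h2 : mr false Z2 = 16000 * l) :
    app (slots cF6nn (16000 * z) Z0 Z1 Z2) (fun i => (gF6nn i).v) 0 =
      1950621588604846080000000000000000000000000000000000000 * (k ^ 2 + l ^ 2 - 2 * k * l * (32 * z ^ 6 - 48 * z ^ 4 + 18 * z ^ 2 - 1) + (z * (32 * z ^ 5 - 32 * z ^ 3 + 6 * z)) ^ 2) := by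
  rw [app_slots]
  simp only [cF6nn, Finset.sum_range_succ, Finset.sum_range_zero, Nat.reduceAdd, Nat.reduceMul,
    zero_add, add_zero, gF6nn, Nat.reduceEqDiff, if_true, if_false, v_zero, v_re, v_neg, v_im, v_imn,
    mul_zero, h1, h2, Nat.cast_zero, OfNat.ofNat_ne_zero, OfNat.ofNat_eq_ofNat, Nat.reduceEqDiff, Nat.cast_ofNat]
  simp only [Nat.choose, Nat.reduceAdd, pow_zero, pow_one, mul_one, one_mul, Nat.cast_one,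
    Nat.cast_ofNat, mul_pow, Complex.I_sq]
  ring_nf
  try simp only [Complex.I_sq, Complex.I_pow_three, Complex.I_pow_four, I5, I6, I7, I8]
  try ring

/-- coefficients -/
def gG6m (i : ℕ) : G4 :=
  if i = 1 then ⟨0, 0, 0, 15728640000000000000000⟩ else
  if i = 4 then ⟨0, 0, 393216000000000000, 0⟩ else
  if i = 8 then ⟨0, 0, 0, 8192000000⟩ else
  if i = 12 then ⟨0, 0, 480, 0⟩ else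
  ⟨0, 0, 0, 0⟩

/-- configuration -/
def cG6m : Cfg := ⟨6, 0, 0, 0, 2, 2, 2, false, false, true, [⟨0, 0, 0, 0⟩, ⟨0, 0, 0,
    15728640000000000000000⟩, ⟨0, 0, 0, 0⟩, ⟨0, 0, 0, 0⟩, ⟨0, 0, 393216000000000000, 0⟩, ⟨0, 0, 0,
    0⟩, ⟨0, 0, 0, 0⟩, ⟨0, 0, 0, 0⟩, ⟨0, 0, 0, 8192000000⟩, ⟨0, 0, 0, 0⟩, ⟨0, 0, 0, 0⟩, ⟨0, 0, 0,
    0⟩, ⟨0, 0, 480, 0⟩, ⟨0, 0, 0, 0⟩]⟩

lemma rpG6m : Rp cG6m.L (fun i => (gG6m i).v) := by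
  have h : cG6m.L = (List.range 14).map gG6m := by rfl
  rw [h]
  exact rp_map _ _

lemma evG6m {z k Z0 Z1 Z2 : ℂ} (h2 : mr true Z2 = Complex.I * (16000 * k)) :
    app (slots cG6m (16000 * z) Z0 Z1 Z2) (fun i => (gG6m i).v) 0 =
      251658240000000000000000000 * (k + Complex.I * z * (32 * z ^ 5 - 32 * z ^ 3 + 6 * z)) := by
  rw [app_slots]
  simp only [cG6m, Finset.sum_range_succ, Finset.sum_range_zero, Nat.reduceAdd, Nat.reduceMul,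
    zero_add, add_zero, gG6m, Nat.reduceEqDiff, if_true, if_false, v_zero, v_re, v_neg, v_im, v_imn,
    mul_zero, h2, Nat.cast_zero, OfNat.ofNat_ne_zero, OfNat.ofNat_eq_ofNat, Nat.reduceEqDiff, Nat.cast_ofNat]
  simp only [Nat.choose, Nat.reduceAdd, pow_zero, pow_one, mul_one, one_mul, Nat.cast_one,
    Nat.cast_ofNat, mul_pow, Complex.I_sq]
  ring_nf
  try simp only [Complex.I_sq, Complex.I_pow_three, Complex.I_pow_four, I5, I6, I7, I8]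
  try ring

/-- coefficients -/
def gG6n (i : ℕ) : G4 :=
  if i = 1 then ⟨15728640000000000000000, 0, 0, 0⟩ else
  if i = 4 then ⟨0, 0, 393216000000000000, 0⟩ else
  if i = 8 then ⟨0, 0, 0, 8192000000⟩ else
  if i = 12 then ⟨0, 0, 480, 0⟩ else
  ⟨0, 0, 0, 0⟩

/-- configuration -/
def cG6n : Cfg := ⟨6, 0, 0, 0, 2, 2, 2, false, false, false, [⟨0, 0, 0, 0⟩,
    ⟨15728640000000000000000, 0, 0, 0⟩, ⟨0, 0, 0, 0⟩, ⟨0, 0, 0, 0⟩, ⟨0, 0, 393216000000000000, 0⟩,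
    ⟨0, 0, 0, 0⟩, ⟨0, 0, 0, 0⟩, ⟨0, 0, 0, 0⟩, ⟨0, 0, 0, 8192000000⟩, ⟨0, 0, 0, 0⟩, ⟨0, 0, 0, 0⟩,
    ⟨0, 0, 0, 0⟩, ⟨0, 0, 480, 0⟩, ⟨0, 0, 0, 0⟩]⟩

lemma rpG6n : Rp cG6n.L (fun i => (gG6n i).v) := by
  have h : cG6n.L = (List.range 14).map gG6n := by rfl
  rw [h]
  exact rp_map _ _

lemma evG6n {z k Z0 Z1 Z2 : ℂ} (h2 : mr false Z2 = 16000 * k) :
    app (slots cG6n (16000 * z) Z0 Z1 Z2) (fun i => (gG6n i).v) 0 =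
      251658240000000000000000000 * (k + Complex.I * z * (32 * z ^ 5 - 32 * z ^ 3 + 6 * z)) := by
  rw [app_slots]
  simp only [cG6n, Finset.sum_range_succ, Finset.sum_range_zero, Nat.reduceAdd, Nat.reduceMul,
    zero_add, add_zero, gG6n, Nat.reduceEqDiff, if_true, if_false, v_zero, v_re, v_neg, v_im, v_imn,
    mul_zero, h2, Nat.cast_zero, OfNat.ofNat_ne_zero, OfNat.ofNat_eq_ofNat, Nat.reduceEqDiff, Nat.cast_ofNat]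
  simp only [Nat.choose, Nat.reduceAdd, pow_zero, pow_one, mul_one, one_mul, Nat.cast_one,
    Nat.cast_ofNat, mul_pow, Complex.I_sq]
  ring_nf
  try simp only [Complex.I_sq, Complex.I_pow_three, Complex.I_pow_four, I5, I6, I7, I8]
  try ring

/-- coefficients -/
def gF7mm (i : ℕ) : G4 :=
  if i = 2 then ⟨0, 3381077420248399872000000000000000000000000000000000000, 0, 0⟩ else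
  if i = 6 then ⟨0, 3381077420248399872000000000000000000000000000000000000, 0, 0⟩ else
  if i = 13 then ⟨0, 52829334691381248000000000000000000000000000000000, 0, 0⟩ else
  if i = 18 then ⟨37154696925806592000000000000000000000000000000000000, 0, 0, 0⟩ else
  if i = 31 then ⟨63496796504064000000000000000000000000000, 0, 0, 0⟩ else
  if i = 36 then ⟨0, 633318697598976000000000000000000000000000000, 0, 0⟩ else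
  if i = 49 then ⟨0, 90194313216000000000000000000000, 0, 0⟩ else
  if i = 54 then ⟨12644383719424000000000000000000000000, 0, 0, 0⟩ else
  if i = 67 then ⟨117440512000000000000000, 0, 0, 0⟩ else
  if i = 72 then ⟨0, 266287972352000000000000000000, 0, 0⟩ else
  if i = 90 then ⟨7449083904000000000000, 0, 0, 0⟩ else
  if i = 108 then ⟨0, 346030080000000, 0, 0⟩ else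
  if i = 126 then ⟨49201152, 0, 0, 0⟩ else
  ⟨0, 0, 0, 0⟩

/-- configuration -/
def cF7mm : Cfg := ⟨14, 0, 2, 1, 9, 9, 3, false, true, true, [⟨0, 0, 0, 0⟩, ⟨0, 0, 0, 0⟩, ⟨0,
    3381077420248399872000000000000000000000000000000000000, 0, 0⟩, ⟨0, 0, 0, 0⟩, ⟨0, 0, 0, 0⟩,
    ⟨0, 0, 0, 0⟩, ⟨0, 3381077420248399872000000000000000000000000000000000000, 0, 0⟩, ⟨0, 0, 0,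
    0⟩, ⟨0, 0, 0, 0⟩, ⟨0, 0, 0, 0⟩, ⟨0, 0, 0, 0⟩, ⟨0, 0, 0, 0⟩, ⟨0, 0, 0, 0⟩, ⟨0,
    52829334691381248000000000000000000000000000000000, 0, 0⟩, ⟨0, 0, 0, 0⟩, ⟨0, 0, 0, 0⟩, ⟨0, 0,
    0, 0⟩, ⟨0, 0, 0, 0⟩, ⟨37154696925806592000000000000000000000000000000000000, 0, 0, 0⟩, ⟨0, 0,
    0, 0⟩, ⟨0, 0, 0, 0⟩, ⟨0, 0, 0, 0⟩, ⟨0, 0, 0, 0⟩, ⟨0, 0, 0, 0⟩, ⟨0, 0, 0, 0⟩, ⟨0, 0, 0, 0⟩, ⟨0,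
    0, 0, 0⟩, ⟨0, 0, 0, 0⟩, ⟨0, 0, 0, 0⟩, ⟨0, 0, 0, 0⟩, ⟨0, 0, 0, 0⟩,
    ⟨63496796504064000000000000000000000000000, 0, 0, 0⟩, ⟨0, 0, 0, 0⟩, ⟨0, 0, 0, 0⟩, ⟨0, 0, 0,
    0⟩, ⟨0, 0, 0, 0⟩, ⟨0, 633318697598976000000000000000000000000000000, 0, 0⟩, ⟨0, 0, 0, 0⟩, ⟨0,
    0, 0, 0⟩, ⟨0, 0, 0, 0⟩, ⟨0, 0, 0, 0⟩, ⟨0, 0, 0, 0⟩, ⟨0, 0, 0, 0⟩, ⟨0, 0, 0, 0⟩, ⟨0, 0, 0, 0⟩,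
    ⟨0, 0, 0, 0⟩, ⟨0, 0, 0, 0⟩, ⟨0, 0, 0, 0⟩, ⟨0, 0, 0, 0⟩, ⟨0, 90194313216000000000000000000000,
    0, 0⟩, ⟨0, 0, 0, 0⟩, ⟨0, 0, 0, 0⟩, ⟨0, 0, 0, 0⟩, ⟨0, 0, 0, 0⟩,
    ⟨12644383719424000000000000000000000000, 0, 0, 0⟩, ⟨0, 0, 0, 0⟩, ⟨0, 0, 0, 0⟩, ⟨0, 0, 0, 0⟩,
    ⟨0, 0, 0, 0⟩, ⟨0, 0, 0, 0⟩, ⟨0, 0, 0, 0⟩, ⟨0, 0, 0, 0⟩, ⟨0, 0, 0, 0⟩, ⟨0, 0, 0, 0⟩, ⟨0, 0, 0,
    0⟩, ⟨0, 0, 0, 0⟩, ⟨0, 0, 0, 0⟩, ⟨117440512000000000000000, 0, 0, 0⟩, ⟨0, 0, 0, 0⟩, ⟨0, 0, 0,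
    0⟩, ⟨0, 0, 0, 0⟩, ⟨0, 0, 0, 0⟩, ⟨0, 266287972352000000000000000000, 0, 0⟩, ⟨0, 0, 0, 0⟩, ⟨0,
    0, 0, 0⟩, ⟨0, 0, 0, 0⟩, ⟨0, 0, 0, 0⟩, ⟨0, 0, 0, 0⟩, ⟨0, 0, 0, 0⟩, ⟨0, 0, 0, 0⟩, ⟨0, 0, 0, 0⟩,
    ⟨0, 0, 0, 0⟩, ⟨0, 0, 0, 0⟩, ⟨0, 0, 0, 0⟩, ⟨0, 0, 0, 0⟩, ⟨0, 0, 0, 0⟩, ⟨0, 0, 0, 0⟩, ⟨0, 0, 0,
    0⟩, ⟨0, 0, 0, 0⟩, ⟨0, 0, 0, 0⟩, ⟨7449083904000000000000, 0, 0, 0⟩, ⟨0, 0, 0, 0⟩, ⟨0, 0, 0, 0⟩,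
    ⟨0, 0, 0, 0⟩, ⟨0, 0, 0, 0⟩, ⟨0, 0, 0, 0⟩, ⟨0, 0, 0, 0⟩, ⟨0, 0, 0, 0⟩, ⟨0, 0, 0, 0⟩, ⟨0, 0, 0,
    0⟩, ⟨0, 0, 0, 0⟩, ⟨0, 0, 0, 0⟩, ⟨0, 0, 0, 0⟩, ⟨0, 0, 0, 0⟩, ⟨0, 0, 0, 0⟩, ⟨0, 0, 0, 0⟩, ⟨0, 0,
    0, 0⟩, ⟨0, 0, 0, 0⟩, ⟨0, 346030080000000, 0, 0⟩, ⟨0, 0, 0, 0⟩, ⟨0, 0, 0, 0⟩, ⟨0, 0, 0, 0⟩, ⟨0,
    0, 0, 0⟩, ⟨0, 0, 0, 0⟩, ⟨0, 0, 0, 0⟩, ⟨0, 0, 0, 0⟩, ⟨0, 0, 0, 0⟩, ⟨0, 0, 0, 0⟩, ⟨0, 0, 0, 0⟩,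
    ⟨0, 0, 0, 0⟩, ⟨0, 0, 0, 0⟩, ⟨0, 0, 0, 0⟩, ⟨0, 0, 0, 0⟩, ⟨0, 0, 0, 0⟩, ⟨0, 0, 0, 0⟩, ⟨0, 0, 0,
    0⟩, ⟨49201152, 0, 0, 0⟩, ⟨0, 0, 0, 0⟩, ⟨0, 0, 0, 0⟩, ⟨0, 0, 0, 0⟩, ⟨0, 0, 0, 0⟩, ⟨0, 0, 0, 0⟩,
    ⟨0, 0, 0, 0⟩, ⟨0, 0, 0, 0⟩, ⟨0, 0, 0, 0⟩]⟩

lemma rpF7mm : Rp cF7mm.L (fun i => (gF7mm i).v) := by
  have h : cF7mm.L = (List.range 135).map gF7mm := by rfl
  rw [h]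
  exact rp_map _ _

lemma evF7mm {z k l Z0 Z1 Z2 : ℂ} (h1 : mr true Z1 = Complex.I * (16000 * k))
    (h2 : mr true Z2 = Complex.I * (16000 * l)) :
    app (slots cF7mm (16000 * z) Z0 Z1 Z2) (fun i => (gF7mm i).v) 0 =
      865555819583590367232000000000000000000000000000000000000000000 * (k ^ 2 + l ^ 2 - 2 * k * l * (64 * z ^ 7 - 112 * z ^ 5 + 56 * z ^ 3 - 7 * z) + (z * (64 * z ^ 6 - 80 * z ^ 4 + 24 * z ^ 2 - 1)) ^ 2) := by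
  rw [app_slots]
  simp only [cF7mm, Finset.sum_range_succ, Finset.sum_range_zero, Nat.reduceAdd, Nat.reduceMul,
    zero_add, add_zero, gF7mm, Nat.reduceEqDiff, if_true, if_false, v_zero, v_re, v_neg, v_im, v_imn,
    mul_zero, h1, h2, Nat.cast_zero, OfNat.ofNat_ne_zero, OfNat.ofNat_eq_ofNat, Nat.reduceEqDiff, Nat.cast_ofNat]
  simp only [Nat.choose, Nat.reduceAdd, pow_zero, pow_one, mul_one, one_mul, Nat.cast_one,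
    Nat.cast_ofNat, mul_pow, Complex.I_sq]
  ring_nf
  try simp only [Complex.I_sq, Complex.I_pow_three, Complex.I_pow_four, I5, I6, I7, I8]
  try ring

/-- coefficients -/
def gF7mn (i : ℕ) : G4 :=
  if i = 2 then ⟨3381077420248399872000000000000000000000000000000000000, 0, 0, 0⟩ else
  if i = 6 then ⟨0, 3381077420248399872000000000000000000000000000000000000, 0, 0⟩ else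
  if i = 13 then ⟨0, 0, 0, 52829334691381248000000000000000000000000000000000⟩ else
  if i = 18 then ⟨37154696925806592000000000000000000000000000000000000, 0, 0, 0⟩ else
  if i = 31 then ⟨0, 0, 63496796504064000000000000000000000000000, 0⟩ else
  if i = 36 then ⟨0, 633318697598976000000000000000000000000000000, 0, 0⟩ else
  if i = 49 then ⟨0, 0, 0, 90194313216000000000000000000000⟩ else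
  if i = 54 then ⟨12644383719424000000000000000000000000, 0, 0, 0⟩ else
  if i = 67 then ⟨0, 0, 117440512000000000000000, 0⟩ else
  if i = 72 then ⟨0, 266287972352000000000000000000, 0, 0⟩ else
  if i = 90 then ⟨7449083904000000000000, 0, 0, 0⟩ else
  if i = 108 then ⟨0, 346030080000000, 0, 0⟩ else
  if i = 126 then ⟨49201152, 0, 0, 0⟩ else
  ⟨0, 0, 0, 0⟩

/-- configuration -/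
def cF7mn : Cfg := ⟨14, 0, 2, 1, 9, 9, 3, false, true, false, [⟨0, 0, 0, 0⟩, ⟨0, 0, 0, 0⟩,
    ⟨3381077420248399872000000000000000000000000000000000000, 0, 0, 0⟩, ⟨0, 0, 0, 0⟩, ⟨0, 0, 0,
    0⟩, ⟨0, 0, 0, 0⟩, ⟨0, 3381077420248399872000000000000000000000000000000000000, 0, 0⟩, ⟨0, 0,
    0, 0⟩, ⟨0, 0, 0, 0⟩, ⟨0, 0, 0, 0⟩, ⟨0, 0, 0, 0⟩, ⟨0, 0, 0, 0⟩, ⟨0, 0, 0, 0⟩, ⟨0, 0, 0,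
    52829334691381248000000000000000000000000000000000⟩, ⟨0, 0, 0, 0⟩, ⟨0, 0, 0, 0⟩, ⟨0, 0, 0, 0⟩,
    ⟨0, 0, 0, 0⟩, ⟨37154696925806592000000000000000000000000000000000000, 0, 0, 0⟩, ⟨0, 0, 0, 0⟩,
    ⟨0, 0, 0, 0⟩, ⟨0, 0, 0, 0⟩, ⟨0, 0, 0, 0⟩, ⟨0, 0, 0, 0⟩, ⟨0, 0, 0, 0⟩, ⟨0, 0, 0, 0⟩, ⟨0, 0, 0,
    0⟩, ⟨0, 0, 0, 0⟩, ⟨0, 0, 0, 0⟩, ⟨0, 0, 0, 0⟩, ⟨0, 0, 0, 0⟩, ⟨0, 0,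
    63496796504064000000000000000000000000000, 0⟩, ⟨0, 0, 0, 0⟩, ⟨0, 0, 0, 0⟩, ⟨0, 0, 0, 0⟩, ⟨0,
    0, 0, 0⟩, ⟨0, 633318697598976000000000000000000000000000000, 0, 0⟩, ⟨0, 0, 0, 0⟩, ⟨0, 0, 0,
    0⟩, ⟨0, 0, 0, 0⟩, ⟨0, 0, 0, 0⟩, ⟨0, 0, 0, 0⟩, ⟨0, 0, 0, 0⟩, ⟨0, 0, 0, 0⟩, ⟨0, 0, 0, 0⟩, ⟨0, 0,
    0, 0⟩, ⟨0, 0, 0, 0⟩, ⟨0, 0, 0, 0⟩, ⟨0, 0, 0, 0⟩, ⟨0, 0, 0, 90194313216000000000000000000000⟩,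
    ⟨0, 0, 0, 0⟩, ⟨0, 0, 0, 0⟩, ⟨0, 0, 0, 0⟩, ⟨0, 0, 0, 0⟩,
    ⟨12644383719424000000000000000000000000, 0, 0, 0⟩, ⟨0, 0, 0, 0⟩, ⟨0, 0, 0, 0⟩, ⟨0, 0, 0, 0⟩,
    ⟨0, 0, 0, 0⟩, ⟨0, 0, 0, 0⟩, ⟨0, 0, 0, 0⟩, ⟨0, 0, 0, 0⟩, ⟨0, 0, 0, 0⟩, ⟨0, 0, 0, 0⟩, ⟨0, 0, 0,
    0⟩, ⟨0, 0, 0, 0⟩, ⟨0, 0, 0, 0⟩, ⟨0, 0, 117440512000000000000000, 0⟩, ⟨0, 0, 0, 0⟩, ⟨0, 0, 0,
    0⟩, ⟨0, 0, 0, 0⟩, ⟨0, 0, 0, 0⟩, ⟨0, 266287972352000000000000000000, 0, 0⟩, ⟨0, 0, 0, 0⟩, ⟨0,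
    0, 0, 0⟩, ⟨0, 0, 0, 0⟩, ⟨0, 0, 0, 0⟩, ⟨0, 0, 0, 0⟩, ⟨0, 0, 0, 0⟩, ⟨0, 0, 0, 0⟩, ⟨0, 0, 0, 0⟩,
    ⟨0, 0, 0, 0⟩, ⟨0, 0, 0, 0⟩, ⟨0, 0, 0, 0⟩, ⟨0, 0, 0, 0⟩, ⟨0, 0, 0, 0⟩, ⟨0, 0, 0, 0⟩, ⟨0, 0, 0,
    0⟩, ⟨0, 0, 0, 0⟩, ⟨0, 0, 0, 0⟩, ⟨7449083904000000000000, 0, 0, 0⟩, ⟨0, 0, 0, 0⟩, ⟨0, 0, 0, 0⟩,
    ⟨0, 0, 0, 0⟩, ⟨0, 0, 0, 0⟩, ⟨0, 0, 0, 0⟩, ⟨0, 0, 0, 0⟩, ⟨0, 0, 0, 0⟩, ⟨0, 0, 0, 0⟩, ⟨0, 0, 0,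
    0⟩, ⟨0, 0, 0, 0⟩, ⟨0, 0, 0, 0⟩, ⟨0, 0, 0, 0⟩, ⟨0, 0, 0, 0⟩, ⟨0, 0, 0, 0⟩, ⟨0, 0, 0, 0⟩, ⟨0, 0,
    0, 0⟩, ⟨0, 0, 0, 0⟩, ⟨0, 346030080000000, 0, 0⟩, ⟨0, 0, 0, 0⟩, ⟨0, 0, 0, 0⟩, ⟨0, 0, 0, 0⟩, ⟨0,
    0, 0, 0⟩, ⟨0, 0, 0, 0⟩, ⟨0, 0, 0, 0⟩, ⟨0, 0, 0, 0⟩, ⟨0, 0, 0, 0⟩, ⟨0, 0, 0, 0⟩, ⟨0, 0, 0, 0⟩,
    ⟨0, 0, 0, 0⟩, ⟨0, 0, 0, 0⟩, ⟨0, 0, 0, 0⟩, ⟨0, 0, 0, 0⟩, ⟨0, 0, 0, 0⟩, ⟨0, 0, 0, 0⟩, ⟨0, 0, 0,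
    0⟩, ⟨49201152, 0, 0, 0⟩, ⟨0, 0, 0, 0⟩, ⟨0, 0, 0, 0⟩, ⟨0, 0, 0, 0⟩, ⟨0, 0, 0, 0⟩, ⟨0, 0, 0, 0⟩,
    ⟨0, 0, 0, 0⟩, ⟨0, 0, 0, 0⟩, ⟨0, 0, 0, 0⟩]⟩

lemma rpF7mn : Rp cF7mn.L (fun i => (gF7mn i).v) := by
  have h : cF7mn.L = (List.range 135).map gF7mn := by rfl
  rw [h]
  exact rp_map _ _

lemma evF7mn {z k l Z0 Z1 Z2 : ℂ} (h1 : mr true Z1 = Complex.I * (16000 * k))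
    (h2 : mr false Z2 = 16000 * l) :
    app (slots cF7mn (16000 * z) Z0 Z1 Z2) (fun i => (gF7mn i).v) 0 =
      865555819583590367232000000000000000000000000000000000000000000 * (k ^ 2 + l ^ 2 - 2 * k * l * (64 * z ^ 7 - 112 * z ^ 5 + 56 * z ^ 3 - 7 * z) + (z * (64 * z ^ 6 - 80 * z ^ 4 + 24 * z ^ 2 - 1)) ^ 2) := by
  rw [app_slots]
  simp only [cF7mn, Finset.sum_range_succ, Finset.sum_range_zero, Nat.reduceAdd, Nat.reduceMul,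
    zero_add, add_zero, gF7mn, Nat.reduceEqDiff, if_true, if_false, v_zero, v_re, v_neg, v_im, v_imn,
    mul_zero, h1, h2, Nat.cast_zero, OfNat.ofNat_ne_zero, OfNat.ofNat_eq_ofNat, Nat.reduceEqDiff, Nat.cast_ofNat]
  simp only [Nat.choose, Nat.reduceAdd, pow_zero, pow_one, mul_one, one_mul, Nat.cast_one,
    Nat.cast_ofNat, mul_pow, Complex.I_sq]
  ring_nf
  try simp only [Complex.I_sq, Complex.I_pow_three, Complex.I_pow_four, I5, I6, I7, I8]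
  try ring

/-- coefficients -/
def gF7nn (i : ℕ) : G4 :=
  if i = 2 then ⟨3381077420248399872000000000000000000000000000000000000, 0, 0, 0⟩ else
  if i = 6 then ⟨3381077420248399872000000000000000000000000000000000000, 0, 0, 0⟩ else
  if i = 13 then ⟨52829334691381248000000000000000000000000000000000, 0, 0, 0⟩ else
  if i = 18 then ⟨37154696925806592000000000000000000000000000000000000, 0, 0, 0⟩ else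
  if i = 31 then ⟨0, 63496796504064000000000000000000000000000, 0, 0⟩ else
  if i = 36 then ⟨0, 633318697598976000000000000000000000000000000, 0, 0⟩ else
  if i = 49 then ⟨90194313216000000000000000000000, 0, 0, 0⟩ else
  if i = 54 then ⟨12644383719424000000000000000000000000, 0, 0, 0⟩ else
  if i = 67 then ⟨0, 117440512000000000000000, 0, 0⟩ else
  if i = 72 then ⟨0, 266287972352000000000000000000, 0, 0⟩ else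
  if i = 90 then ⟨7449083904000000000000, 0, 0, 0⟩ else
  if i = 108 then ⟨0, 346030080000000, 0, 0⟩ else
  if i = 126 then ⟨49201152, 0, 0, 0⟩ else
  ⟨0, 0, 0, 0⟩

/-- configuration -/
def cF7nn : Cfg := ⟨14, 0, 2, 1, 9, 9, 3, false, false, false, [⟨0, 0, 0, 0⟩, ⟨0, 0, 0, 0⟩,
    ⟨3381077420248399872000000000000000000000000000000000000, 0, 0, 0⟩, ⟨0, 0, 0, 0⟩, ⟨0, 0, 0,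
    0⟩, ⟨0, 0, 0, 0⟩, ⟨3381077420248399872000000000000000000000000000000000000, 0, 0, 0⟩, ⟨0, 0,
    0, 0⟩, ⟨0, 0, 0, 0⟩, ⟨0, 0, 0, 0⟩, ⟨0, 0, 0, 0⟩, ⟨0, 0, 0, 0⟩, ⟨0, 0, 0, 0⟩,
    ⟨52829334691381248000000000000000000000000000000000, 0, 0, 0⟩, ⟨0, 0, 0, 0⟩, ⟨0, 0, 0, 0⟩, ⟨0,
    0, 0, 0⟩, ⟨0, 0, 0, 0⟩, ⟨37154696925806592000000000000000000000000000000000000, 0, 0, 0⟩, ⟨0,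
    0, 0, 0⟩, ⟨0, 0, 0, 0⟩, ⟨0, 0, 0, 0⟩, ⟨0, 0, 0, 0⟩, ⟨0, 0, 0, 0⟩, ⟨0, 0, 0, 0⟩, ⟨0, 0, 0, 0⟩,
    ⟨0, 0, 0, 0⟩, ⟨0, 0, 0, 0⟩, ⟨0, 0, 0, 0⟩, ⟨0, 0, 0, 0⟩, ⟨0, 0, 0, 0⟩, ⟨0,
    63496796504064000000000000000000000000000, 0, 0⟩, ⟨0, 0, 0, 0⟩, ⟨0, 0, 0, 0⟩, ⟨0, 0, 0, 0⟩,
    ⟨0, 0, 0, 0⟩, ⟨0, 633318697598976000000000000000000000000000000, 0, 0⟩, ⟨0, 0, 0, 0⟩, ⟨0, 0,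
    0, 0⟩, ⟨0, 0, 0, 0⟩, ⟨0, 0, 0, 0⟩, ⟨0, 0, 0, 0⟩, ⟨0, 0, 0, 0⟩, ⟨0, 0, 0, 0⟩, ⟨0, 0, 0, 0⟩, ⟨0,
    0, 0, 0⟩, ⟨0, 0, 0, 0⟩, ⟨0, 0, 0, 0⟩, ⟨0, 0, 0, 0⟩, ⟨90194313216000000000000000000000, 0, 0,
    0⟩, ⟨0, 0, 0, 0⟩, ⟨0, 0, 0, 0⟩, ⟨0, 0, 0, 0⟩, ⟨0, 0, 0, 0⟩,
    ⟨12644383719424000000000000000000000000, 0, 0, 0⟩, ⟨0, 0, 0, 0⟩, ⟨0, 0, 0, 0⟩, ⟨0, 0, 0, 0⟩,
    ⟨0, 0, 0, 0⟩, ⟨0, 0, 0, 0⟩, ⟨0, 0, 0, 0⟩, ⟨0, 0, 0, 0⟩, ⟨0, 0, 0, 0⟩, ⟨0, 0, 0, 0⟩, ⟨0, 0, 0,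
    0⟩, ⟨0, 0, 0, 0⟩, ⟨0, 0, 0, 0⟩, ⟨0, 117440512000000000000000, 0, 0⟩, ⟨0, 0, 0, 0⟩, ⟨0, 0, 0,
    0⟩, ⟨0, 0, 0, 0⟩, ⟨0, 0, 0, 0⟩, ⟨0, 266287972352000000000000000000, 0, 0⟩, ⟨0, 0, 0, 0⟩, ⟨0,
    0, 0, 0⟩, ⟨0, 0, 0, 0⟩, ⟨0, 0, 0, 0⟩, ⟨0, 0, 0, 0⟩, ⟨0, 0, 0, 0⟩, ⟨0, 0, 0, 0⟩, ⟨0, 0, 0, 0⟩,
    ⟨0, 0, 0, 0⟩, ⟨0, 0, 0, 0⟩, ⟨0, 0, 0, 0⟩, ⟨0, 0, 0, 0⟩, ⟨0, 0, 0, 0⟩, ⟨0, 0, 0, 0⟩, ⟨0, 0, 0,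
    0⟩, ⟨0, 0, 0, 0⟩, ⟨0, 0, 0, 0⟩, ⟨7449083904000000000000, 0, 0, 0⟩, ⟨0, 0, 0, 0⟩, ⟨0, 0, 0, 0⟩,
    ⟨0, 0, 0, 0⟩, ⟨0, 0, 0, 0⟩, ⟨0, 0, 0, 0⟩, ⟨0, 0, 0, 0⟩, ⟨0, 0, 0, 0⟩, ⟨0, 0, 0, 0⟩, ⟨0, 0, 0,
    0⟩, ⟨0, 0, 0, 0⟩, ⟨0, 0, 0, 0⟩, ⟨0, 0, 0, 0⟩, ⟨0, 0, 0, 0⟩, ⟨0, 0, 0, 0⟩, ⟨0, 0, 0, 0⟩, ⟨0, 0,
    0, 0⟩, ⟨0, 0, 0, 0⟩, ⟨0, 346030080000000, 0, 0⟩, ⟨0, 0, 0, 0⟩, ⟨0, 0, 0, 0⟩, ⟨0, 0, 0, 0⟩, ⟨0,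
    0, 0, 0⟩, ⟨0, 0, 0, 0⟩, ⟨0, 0, 0, 0⟩, ⟨0, 0, 0, 0⟩, ⟨0, 0, 0, 0⟩, ⟨0, 0, 0, 0⟩, ⟨0, 0, 0, 0⟩,
    ⟨0, 0, 0, 0⟩, ⟨0, 0, 0, 0⟩, ⟨0, 0, 0, 0⟩, ⟨0, 0, 0, 0⟩, ⟨0, 0, 0, 0⟩, ⟨0, 0, 0, 0⟩, ⟨0, 0, 0,
    0⟩, ⟨49201152, 0, 0, 0⟩, ⟨0, 0, 0, 0⟩, ⟨0, 0, 0, 0⟩, ⟨0, 0, 0, 0⟩, ⟨0, 0, 0, 0⟩, ⟨0, 0, 0, 0⟩,
    ⟨0, 0, 0, 0⟩, ⟨0, 0, 0, 0⟩, ⟨0, 0, 0, 0⟩]⟩

lemma rpF7nn : Rp cF7nn.L (fun i => (gF7nn i).v) := by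
  have h : cF7nn.L = (List.range 135).map gF7nn := by rfl
  rw [h]
  exact rp_map _ _

lemma evF7nn {z k l Z0 Z1 Z2 : ℂ} (h1 : mr false Z1 = 16000 * k)
    (h2 : mr false Z2 = 16000 * l) :
    app (slots cF7nn (16000 * z) Z0 Z1 Z2) (fun i => (gF7nn i).v) 0 =
      865555819583590367232000000000000000000000000000000000000000000 * (k ^ 2 + l ^ 2 - 2 * k * l * (64 * z ^ 7 - 112 * z ^ 5 + 56 * z ^ 3 - 7 * z) + (z * (64 * z ^ 6 - 80 * z ^ 4 + 24 * z ^ 2 - 1)) ^ 2) := by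
  rw [app_slots]
  simp only [cF7nn, Finset.sum_range_succ, Finset.sum_range_zero, Nat.reduceAdd, Nat.reduceMul,
    zero_add, add_zero, gF7nn, Nat.reduceEqDiff, if_true, if_false, v_zero, v_re, v_neg, v_im, v_imn,
    mul_zero, h1, h2, Nat.cast_zero, OfNat.ofNat_ne_zero, OfNat.ofNat_eq_ofNat, Nat.reduceEqDiff, Nat.cast_ofNat]
  simp only [Nat.choose, Nat.reduceAdd, pow_zero, pow_one, mul_one, one_mul, Nat.cast_one,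
    Nat.cast_ofNat, mul_pow, Complex.I_sq]
  ring_nf
  try simp only [Complex.I_sq, Complex.I_pow_three, Complex.I_pow_four, I5, I6, I7, I8]
  try ring

/-- coefficients -/
def gG7m (i : ℕ) : G4 :=
  if i = 1 then ⟨0, 0, 0, 1761607680000000000000000000⟩ else
  if i = 2 then ⟨0, 0, 0, 251658240000000000000000000⟩ else
  if i = 6 then ⟨0, 0, 4718592000000000000, 0⟩ else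
  if i = 10 then ⟨0, 0, 0, 102400000000⟩ else
  if i = 14 then ⟨0, 0, 6720, 0⟩ else
  ⟨0, 0, 0, 0⟩

/-- configuration -/
def cG7m : Cfg := ⟨7, 0, 0, 0, 2, 2, 2, false, false, true, [⟨0, 0, 0, 0⟩, ⟨0, 0, 0,
    1761607680000000000000000000⟩, ⟨0, 0, 0, 251658240000000000000000000⟩, ⟨0, 0, 0, 0⟩, ⟨0, 0, 0,
    0⟩, ⟨0, 0, 0, 0⟩, ⟨0, 0, 4718592000000000000, 0⟩, ⟨0, 0, 0, 0⟩, ⟨0, 0, 0, 0⟩, ⟨0, 0, 0, 0⟩,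
    ⟨0, 0, 0, 102400000000⟩, ⟨0, 0, 0, 0⟩, ⟨0, 0, 0, 0⟩, ⟨0, 0, 0, 0⟩, ⟨0, 0, 6720, 0⟩, ⟨0, 0, 0,
    0⟩]⟩

lemma rpG7m : Rp cG7m.L (fun i => (gG7m i).v) := by
  have h : cG7m.L = (List.range 16).map gG7m := by rfl
  rw [h]
  exact rp_map _ _

lemma evG7m {z k Z0 Z1 Z2 : ℂ} (h2 : mr true Z2 = Complex.I * (16000 * k)) :
    app (slots cG7m (16000 * z) Z0 Z1 Z2) (fun i => (gG7m i).v) 0 =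
      28185722880000000000000000000000 * (k + Complex.I * z * (64 * z ^ 6 - 80 * z ^ 4 + 24 * z ^ 2 - 1)) := by
  rw [app_slots]
  simp only [cG7m, Finset.sum_range_succ, Finset.sum_range_zero, Nat.reduceAdd, Nat.reduceMul,
    zero_add, add_zero, gG7m, Nat.reduceEqDiff, if_true, if_false, v_zero, v_re, v_neg, v_im, v_imn,
    mul_zero, h2, Nat.cast_zero, OfNat.ofNat_ne_zero, OfNat.ofNat_eq_ofNat, Nat.reduceEqDiff, Nat.cast_ofNat]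
  simp only [Nat.choose, Nat.reduceAdd, pow_zero, pow_one, mul_one, one_mul, Nat.cast_one,
    Nat.cast_ofNat, mul_pow, Complex.I_sq]
  ring_nf
  try simp only [Complex.I_sq, Complex.I_pow_three, Complex.I_pow_four, I5, I6, I7, I8]
  try ring

/-- coefficients -/
def gG7n (i : ℕ) : G4 :=
  if i = 1 then ⟨1761607680000000000000000000, 0, 0, 0⟩ else
  if i = 2 then ⟨0, 0, 0, 251658240000000000000000000⟩ else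
  if i = 6 then ⟨0, 0, 4718592000000000000, 0⟩ else
  if i = 10 then ⟨0, 0, 0, 102400000000⟩ else
  if i = 14 then ⟨0, 0, 6720, 0⟩ else
  ⟨0, 0, 0, 0⟩

/-- configuration -/
def cG7n : Cfg := ⟨7, 0, 0, 0, 2, 2, 2, false, false, false, [⟨0, 0, 0, 0⟩,
    ⟨1761607680000000000000000000, 0, 0, 0⟩, ⟨0, 0, 0, 251658240000000000000000000⟩, ⟨0, 0, 0, 0⟩,
    ⟨0, 0, 0, 0⟩, ⟨0, 0, 0, 0⟩, ⟨0, 0, 4718592000000000000, 0⟩, ⟨0, 0, 0, 0⟩, ⟨0, 0, 0, 0⟩, ⟨0, 0,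
    0, 0⟩, ⟨0, 0, 0, 102400000000⟩, ⟨0, 0, 0, 0⟩, ⟨0, 0, 0, 0⟩, ⟨0, 0, 0, 0⟩, ⟨0, 0, 6720, 0⟩, ⟨0,
    0, 0, 0⟩]⟩

lemma rpG7n : Rp cG7n.L (fun i => (gG7n i).v) := by
  have h : cG7n.L = (List.range 16).map gG7n := by rfl
  rw [h]
  exact rp_map _ _

lemma evG7n {z k Z0 Z1 Z2 : ℂ} (h2 : mr false Z2 = 16000 * k) :
    app (slots cG7n (16000 * z) Z0 Z1 Z2) (fun i => (gG7n i).v) 0 =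
      28185722880000000000000000000000 * (k + Complex.I * z * (64 * z ^ 6 - 80 * z ^ 4 + 24 * z ^ 2 - 1)) := by
  rw [app_slots]
  simp only [cG7n, Finset.sum_range_succ, Finset.sum_range_zero, Nat.reduceAdd, Nat.reduceMul,
    zero_add, add_zero, gG7n, Nat.reduceEqDiff, if_true, if_false, v_zero, v_re, v_neg, v_im, v_imn,
    mul_zero, h2, Nat.cast_zero, OfNat.ofNat_ne_zero, OfNat.ofNat_eq_ofNat, Nat.reduceEqDiff, Nat.cast_ofNat]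
  simp only [Nat.choose, Nat.reduceAdd, pow_zero, pow_one, mul_one, one_mul, Nat.cast_one,
    Nat.cast_ofNat, mul_pow, Complex.I_sq]
  ring_nf
  try simp only [Complex.I_sq, Complex.I_pow_three, Complex.I_pow_four, I5, I6, I7, I8]
  try ring

end Pool.Agent.Work.MP_b30479_gt.G2.SC
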