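import Pool.Agent.Work.MP_b30479_gt.G2.SRefV
import Pool.Agent.Work.MP_b30479_gt.G2.S2CfgB
import Pool.Agent.Work.MP_b30479_gt.G2.S2CertS

/-!
# Refined rings, round 1, 7 crossings

Generated certificates (see `S2Cert`).
-/

set_option linter.style.longLine false

namespace Pool.Agent.Work.MP_b30479_gt.G2.SC

open scoped ComplexConjugate

/-- edges -/
def L1_7ea : List ((ℕ × ℕ) × (ℕ × ℕ)) :=
  [((14528, 176), (14608, 144)), ((14608, 144), (14736, 256)), ((14736, 256), (14752, 288)),
      ((14752, 288), (14512, 448)), ((14512, 448), (14464, 384)), ((14464, 384), (14528, 176))]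

/-- tree -/
def T1_7ea_0 : CT :=
  .rel2 [(6720, 3952), (12184, 0), (16000, 0), (6720, 37136)] (.leaf ⟨39, 0, 9, 0⟩)

theorem ok1_7ea_0 :
    chkT cG7m cG7m T1_7ea_0 (14528, 176) (14608, 144) dum dum n1_A2 = true := by
  decide +kernel

/-- tree -/
def T1_7ea_1 : CT :=
  .rel2 [(6716, 0), (16000, 0), (13064, 11746), (6719, 7256)] (.leaf ⟨3, 0, 0, 4⟩)

theorem ok1_7ea_1 :
    chkT cG7m cG7m T1_7ea_1 (14608, 144) (14736, 256) dum dum n1_A2 = true := by
  decide +kernel

/-- tree -/
def T1_7ea_2 : CT :=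
  .rel2 [(6718, 0), (16000, 0), (13296, 10816), (6718, 10749)] (.leaf ⟨0, 0, 0, 1⟩)

theorem ok1_7ea_2 :
    chkT cG7m cG7m T1_7ea_2 (14736, 256) (14752, 288) dum dum n1_A2 = true := by
  decide +kernel

/-- tree -/
def T1_7ea_3 : CT :=
  .cut2 false 11360 [(6720, 3952), (7760, 3200), (11360, 800), (11360, 10540), (7952, 8128), (6720,
      7104)] [(11360, 800), (12560, 0), (16000, 0), (13296, 10816), (11728, 10800), (11360, 10540)]
      (.rel2 [(11360, 800), (11360, 10540), (4269, 5523)] (.leaf ⟨0, 1, 0, 0⟩)) (.seg (14632, 368)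
      (.rel2 [(11360, 800), (12560, 0), (16000, 0), (13296, 10816), (11359, 10797)] (.leaf ⟨0, 19,
      0, 6⟩)) (.rel2 [(16000, 0), (11358, 18568), (11359, 0)] (.leaf ⟨0, 39, 0, 9⟩)))

theorem ok1_7ea_3 :
    chkT cG7m cG7m T1_7ea_3 (14752, 288) (14512, 448) dum dum n1_A2 = true := by
  decide +kernel

/-- tree -/
def T1_7ea_4 : CT :=
  .rel2 [(16000, 0), (6719, 37131), (6718, 0)] (.leaf ⟨0, 1, 5, 0⟩)

theorem ok1_7ea_4 :
    chkT cG7m cG7m T1_7ea_4 (14512, 448) (14464, 384) dum dum n1_A2 = true := by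
  decide +kernel

/-- tree -/
def T1_7ea_5 : CT :=
  .rel2 [(12560, 0), (16000, 0), (13064, 11746), (4271, 5525)] (.leaf ⟨11, 0, 17, 0⟩)

theorem ok1_7ea_5 :
    chkT cG7m cG7m T1_7ea_5 (14464, 384) (14528, 176) dum dum n1_A2 = true := by
  decide +kernel

theorem fr1_7ea {z k : ℂ} (hz : OnE v1_7ea z) (hk : conj k ∈ Poly p1_A2) :
    k + Complex.I * z * (64 * z ^ 6 - 80 * z ^ 4 + 24 * z ^ 2 - 1) ≠ 0 := by
  have h := edge_use rpG7m (E := L1_7ea) (V0 := dum) (V1 := dum) (V2 := n1_A2) (fun e he => by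
    simp only [L1_7ea, List.mem_cons, List.not_mem_nil, or_false] at he
    rcases he with rfl | rfl | rfl | rfl | rfl | rfl
    exacts [⟨_, ok1_7ea_0⟩, ⟨_, ok1_7ea_1⟩, ⟨_, ok1_7ea_2⟩, ⟨_, ok1_7ea_3⟩, ⟨_, ok1_7ea_4⟩, ⟨_,
        ok1_7ea_5⟩]) (V := v1_7ea) (by decide) hz zero_dum zero_dum (rg1_A2 hk)
  rw [evG7m (mr_true k)] at h
  exact fun h0 => h (by rw [h0, mul_zero])

/-- edges -/
def L1_7ez : List ((ℕ × ℕ) × (ℕ × ℕ)) :=
  [((14320, 432), (14352, 336)), ((14352, 336), (14400, 304)), ((14400, 304), (14480, 336)),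
      ((14480, 336), (14528, 448)), ((14528, 448), (14432, 464)), ((14432, 464), (14320, 432))]

/-- tree -/
def T1_7ez_0 : CT :=
  .rel2 [(17900, 0), (12853, 5768), (6517, 0)] (.leaf ⟨5, 0, 6, 0⟩)

theorem ok1_7ez_0 :
    chkT cG7n cG7n T1_7ez_0 (14320, 432) (14352, 336) dum dum n1_Z = true := by
  decide +kernel

/-- tree -/
def T1_7ez_1 : CT :=
  .rel2 [(10559, 0), (17900, 0), (10560, 8389)] (.leaf ⟨1, 0, 0, 0⟩)

theorem ok1_7ez_1 :
    chkT cG7n cG7n T1_7ez_1 (14352, 336) (14400, 304) dum dum n1_Z = true := by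
  decide +kernel

/-- tree -/
def T1_7ez_2 : CT :=
  .rel2 [(10560, 1840), (12800, 0), (17900, 0), (10557, 8392)] (.leaf ⟨2, 0, 0, 2⟩)

theorem ok1_7ez_2 :
    chkT cG7n cG7n T1_7ez_2 (14400, 304) (14480, 336) dum dum n1_Z = true := by
  decide +kernel

/-- tree -/
def T1_7ez_3 : CT :=
  .rel2 [(16000, 0), (10556, 13610), (10559, 0)] (.leaf ⟨0, 0, 0, 1⟩)

theorem ok1_7ez_3 :
    chkT cG7n cG7n T1_7ez_3 (14480, 336) (14528, 448) dum dum n1_Z = true := by
  decide +kernel

/-- tree -/
def T1_7ez_4 : CT :=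
  .rel2 [(6515, 0), (16000, 0), (13468, 6330)] (.leaf ⟨0, 19, 6, 0⟩)

theorem ok1_7ez_4 :
    chkT cG7n cG7n T1_7ez_4 (14528, 448) (14432, 464) dum dum n1_Z = true := by
  decide +kernel

/-- tree -/
def T1_7ez_5 : CT :=
  .rel2 [(10559, 0), (17900, 0), (10558, 8391)] (.leaf ⟨0, 9, 8, 0⟩)

theorem ok1_7ez_5 :
    chkT cG7n cG7n T1_7ez_5 (14432, 464) (14320, 432) dum dum n1_Z = true := by
  decide +kernel

theorem fr1_7ez {z k : ℂ} (hz : OnE v1_7ez z) (hk : k ∈ Poly p1_Z) :
    k + Complex.I * z * (64 * z ^ 6 - 80 * z ^ 4 + 24 * z ^ 2 - 1) ≠ 0 := by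
  have h := edge_use rpG7n (E := L1_7ez) (V0 := dum) (V1 := dum) (V2 := n1_Z) (fun e he => by
    simp only [L1_7ez, List.mem_cons, List.not_mem_nil, or_false] at he
    rcases he with rfl | rfl | rfl | rfl | rfl | rfl
    exacts [⟨_, ok1_7ez_0⟩, ⟨_, ok1_7ez_1⟩, ⟨_, ok1_7ez_2⟩, ⟨_, ok1_7ez_3⟩, ⟨_, ok1_7ez_4⟩, ⟨_,
        ok1_7ez_5⟩]) (V := v1_7ez) (by decide) hz zero_dum zero_dum (rg1_Z hk)
  rw [evG7n (mr_false k)] at h
  exact fun h0 => h (by rw [h0, mul_zero])

/-- edges -/
def L1_7es : List ((ℕ × ℕ) × (ℕ × ℕ)) :=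
  [((14160, 448), (14192, 320)), ((14192, 320), (14320, 240)), ((14320, 240), (14496, 368)),
      ((14496, 368), (14496, 432)), ((14496, 432), (14144, 544)), ((14144, 544), (14160, 448))]

/-- tree -/
def T1_7es_0 : CT :=
  .rel2 [(8448, 8048), (7383, 605), (15859, 608), (13023, 11887)] (.leaf ⟨5, 0, 6, 0⟩)

theorem ok1_7es_0 :
    chkT cG7n cG7n T1_7es_0 (14160, 448) (14192, 320) dum dum n1_S3 = true := by
  decide +kernel

/-- tree -/
def T1_7es_1 : CT :=
  .rel2 [(15859, 608), (13023, 11887), (8448, 8048), (7383, 605)] (.leaf ⟨39, 0, 9, 0⟩)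

theorem ok1_7es_1 :
    chkT cG7n cG7n T1_7es_1 (14192, 320) (14320, 240) dum dum n1_S3 = true := by
  decide +kernel

/-- tree -/
def T1_7es_2 : CT :=
  .rel2 [(12112, 608), (15859, 608), (13023, 11887), (5652, 5703)] (.leaf ⟨3, 0, 0, 4⟩)

theorem ok1_7es_2 :
    chkT cG7n cG7n T1_7es_2 (14320, 240) (14496, 368) dum dum n1_S3 = true := by
  decide +kernel

/-- tree -/
def T1_7es_3 : CT :=
  .rel2 [(7383, 607), (14880, 608), (11456, 29102)] (.leaf ⟨0, 1, 0, 3⟩)

theorem ok1_7es_3 :
    chkT cG7n cG7n T1_7es_3 (14496, 368) (14496, 432) dum dum n1_S3 = true := by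
  decide +kernel

/-- tree -/
def T1_7es_4 : CT :=
  .cut2 false 11440 [(8016, 3840), (11440, 1138), (11440, 10559), (8448, 8048), (8016, 5024)]
      [(11440, 1138), (12112, 608), (14880, 608), (13984, 8064), (13296, 10800), (11728, 10800),
      (11440, 10559)] (.rel2 [(11440, 1138), (11440, 10559), (5653, 5703)] (.leaf ⟨0, 1, 0, 0⟩))
      (.seg (14320, 488) (.rel2 [(11440, 10559), (11439, 607), (14880, 608), (13984, 8064), (13023,
      11886)] (.leaf ⟨0, 79, 13, 0⟩)) (.cut2 true 5696 [(11440, 1138), (12112, 608), (14880, 608),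
      (14269, 5696), (11440, 5696)] [(14269, 5696), (13984, 8064), (13296, 10800), (11728, 10800),
      (11440, 10559), (11440, 5696)] (.rel2 [(14880, 608), (14269, 5696), (11440, 5696), (11439,
      607)] (.leaf ⟨0, 0, 1, 0⟩)) (.seg (14232, 516) (.rel2 [(13296, 10800), (11439, 10800), (11440,
      5696), (14580, 5695)] (.leaf ⟨0, 39, 9, 0⟩)) (.rel2 [(5627, 5695), (14580, 5695), (13024,
      11885)] (.leaf ⟨0, 19, 6, 0⟩)))))

theorem ok1_7es_4 :
    chkT cG7n cG7n T1_7es_4 (14496, 432) (14144, 544) dum dum n1_S3 = true := by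
  decide +kernel

/-- tree -/
def T1_7es_5 : CT :=
  .rel2 [(8448, 8048), (7383, 605), (15859, 608), (13023, 11887)] (.leaf ⟨3, 0, 4, 0⟩)

theorem ok1_7es_5 :
    chkT cG7n cG7n T1_7es_5 (14144, 544) (14160, 448) dum dum n1_S3 = true := by
  decide +kernel

theorem fr1_7es {z k : ℂ} (hz : OnE v1_7es z) (hk : k ∈ Poly p1_S3) :
    k + Complex.I * z * (64 * z ^ 6 - 80 * z ^ 4 + 24 * z ^ 2 - 1) ≠ 0 := by
  have h := edge_use rpG7n (E := L1_7es) (V0 := dum) (V1 := dum) (V2 := n1_S3) (fun e he => by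
    simp only [L1_7es, List.mem_cons, List.not_mem_nil, or_false] at he
    rcases he with rfl | rfl | rfl | rfl | rfl | rfl
    exacts [⟨_, ok1_7es_0⟩, ⟨_, ok1_7es_1⟩, ⟨_, ok1_7es_2⟩, ⟨_, ok1_7es_3⟩, ⟨_, ok1_7es_4⟩, ⟨_,
        ok1_7es_5⟩]) (V := v1_7es) (by decide) hz zero_dum zero_dum (rg1_S3 hk)
  rw [evG7n (mr_false k)] at h
  exact fun h0 => h (by rw [h0, mul_zero])

/-- edges -/
def L1_7aa : List ((ℕ × ℕ) × (ℕ × ℕ)) :=
  [((14640, 480), (14672, 304)), ((14672, 304), (14816, 256)), ((14816, 256), (15056, 400)),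
      ((15056, 400), (14768, 784)), ((14768, 784), (14752, 768)), ((14752, 768), (14640, 640)),
      ((14640, 640), (14640, 480))]

/-- tree -/
def T1_7aa_0 : CT :=
  .cut1 true 5408 [(6720, 3952), (7760, 3200), (12560, 0), (16000, 0), (14648, 5408), (6720, 5408)]
      [(14648, 5408), (13296, 10816), (11728, 10800), (7952, 8128), (6720, 7104), (6720, 5408)]
      (.cut2 true 5408 [(6720, 3952), (7760, 3200), (12560, 0), (16000, 0), (14648, 5408), (6720,
      5408)] [(14648, 5408), (13296, 10816), (11728, 10800), (7952, 8128), (6720, 7104), (6720,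
      5408)] (.cut2 false 11360 [(6720, 3952), (7760, 3200), (11360, 800), (11360, 5408), (6720,
      5408)] [(11360, 800), (12560, 0), (16000, 0), (14648, 5408), (11360, 5408)] (.cut1 false 11360
      [(6720, 3952), (7760, 3200), (11360, 800), (11360, 5408), (6720, 5408)] [(11360, 800), (12560,
      0), (16000, 0), (14648, 5408), (11360, 5408)] (.cut2 false 9040 [(6720, 3952), (7760, 3200),
      (9040, 2346), (9040, 5408), (6720, 5408)] [(9040, 2346), (11360, 800), (11360, 5408), (9040,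
      5408)] (.cut1 false 9040 [(6720, 3952), (7760, 3200), (9040, 2346), (9040, 5408), (6720,
      5408)] [(9040, 2346), (11360, 800), (11360, 5408), (9040, 5408)] (.rel1 [(9040, 2346), (9040,
      5408), (6720, 5408), (6719, 3892)] (.leaf ⟨2, 0, 12, 0⟩)) (.rel2 [(9040, 5408), (6720, 5408),
      (6720, 3952), (9040, 2273)] (.leaf ⟨1, 0, 3, 0⟩))) (.leaf ⟨4, 0, 11, 0⟩)) (.rel1 [(11360,
      800), (12560, 0), (16000, 0), (11360, 18560)] (.rel2 [(11360, 800), (11360, 5408), (6720,
      5408), (6719, 3892)] (.leaf ⟨1, 0, 2, 0⟩)))) (.rel1 [(6720, 3952), (7760, 3200), (12560, 0),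
      (16000, 0), (6720, 37120)] (.rel2 [(11360, 800), (12560, 0), (16000, 0), (11360, 18560)]
      (.rel1 [(12560, 0), (16000, 0), (6720, 37120), (6719, 3892)] (.leaf ⟨1, 0, 2, 0⟩))))) (.rel1
      [(6720, 3952), (7760, 3200), (12560, 0), (16000, 0), (6720, 37120)] (.rel2 [(7952, 8128),
      (6720, 7104), (6720, 5408), (14648, 5408), (13064, 11746)] (.rel1 [(12560, 0), (16000, 0),
      (6720, 37120), (6719, 3892)] (.rel2 [(6720, 5408), (14648, 5408), (13064, 11746), (6719,
      7256)] (.leaf ⟨0, 0, 1, 0⟩)))))) (.rel1 [(7952, 8128), (6720, 7104), (6720, 5408), (14648,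
      5408), (13064, 11746)] (.rel2 [(7952, 8128), (6720, 7104), (6720, 3952), (7760, 3200), (12560,
      0), (16000, 0), (13064, 11746)] (.rel1 [(6720, 5408), (14648, 5408), (13064, 11746), (6719,
      7256)] (.rel2 [(6719, 3892), (12560, 0), (16000, 0), (6719, 37131)] (.leaf ⟨0, 0, 1, 0⟩)))))

theorem ok1_7aa_0 :
    chkT cF7mm cF7mm T1_7aa_0 (14640, 480) (14672, 304) dum n1_A2 n1_A2 = true := by
  decide +kernel

/-- tree -/
def T1_7aa_1 : CT :=
  .rel1 [(16000, 0), (13296, 10816), (11728, 10800), (7952, 8128), (6720, 7104), (6720, 3952),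
      (12184, 0)] (.rel2 [(16000, 0), (13296, 10816), (11728, 10800), (7952, 8128), (6720, 7104),
      (6720, 3952), (12184, 0)] (.rel1 [(7952, 8128), (6720, 7104), (6720, 3952), (12184, 0),
      (16000, 0), (13064, 11746)] (.rel2 [(7952, 8128), (6720, 7104), (6720, 3952), (12184, 0),
      (16000, 0), (13064, 11746)] (.rel1 [(6720, 7104), (6720, 3952), (12184, 0), (16000, 0),
      (12934, 12269)] (.rel2 [(6720, 7104), (6720, 3952), (12184, 0), (16000, 0), (12934, 12269)]
      (.leaf ⟨9, 0, 8, 0⟩))))))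

theorem ok1_7aa_1 :
    chkT cF7mm cF7mm T1_7aa_1 (14672, 304) (14816, 256) dum n1_A2 n1_A2 = true := by
  decide +kernel

/-- tree -/
def T1_7aa_2 : CT :=
  .seg (14936, 328) (.rel1 [(16000, 0), (13296, 10816), (11728, 10800), (7952, 8128), (6720, 7104),
      (6720, 3952), (12184, 0)] (.rel2 [(12560, 0), (16000, 0), (13296, 10816), (11728, 10800),
      (7952, 8128), (6720, 7104), (6719, 3892)] (.rel1 [(16000, 0), (13296, 10816), (11728, 10800),
      (7952, 8128), (6720, 7104), (6719, 0)] (.rel2 [(16000, 0), (13296, 10816), (11728, 10800),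
      (7952, 8128), (6720, 7104), (6716, 0)] (.rel1 [(7952, 8128), (6720, 7104), (6719, 0), (16000,
      0), (13064, 11746)] (.rel2 [(7952, 8128), (6720, 7104), (6716, 0), (16000, 0), (13064, 11746)]
      (.rel1 [(6719, 0), (16000, 0), (13064, 11746), (6719, 7256)] (.rel2 [(6716, 0), (16000, 0),
      (13064, 11746), (6719, 7256)] (.leaf ⟨1, 0, 0, 0⟩))))))))) (.rel1 [(12560, 0), (16000, 0),
      (13296, 10816), (11728, 10800), (7952, 8128), (6720, 7104), (6719, 3892)] (.rel2 [(12560, 0),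
      (16000, 0), (13296, 10816), (11728, 10800), (7952, 8128), (6720, 7104), (6719, 3892)] (.rel1
      [(12560, 0), (16000, 0), (13296, 10816), (11728, 10800), (7952, 8128), (4573, 5320)] (.rel2
      [(12560, 0), (16000, 0), (13296, 10816), (11728, 10800), (7952, 8128), (4573, 5320)] (.rel1
      [(12560, 0), (16000, 0), (13296, 10816), (11728, 10800), (4268, 5522)] (.rel2 [(12560, 0),
      (16000, 0), (13296, 10816), (11728, 10800), (4268, 5522)] (.rel1 [(4268, 5522), (12560, 0),
      (16000, 0), (13064, 11746)] (.leaf ⟨79, 0, 0, 13⟩))))))))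

theorem ok1_7aa_2 :
    chkT cF7mm cF7mm T1_7aa_2 (14816, 256) (15056, 400) dum n1_A2 n1_A2 = true := by
  decide +kernel

/-- tree -/
def T1_7aa_3 : CT :=
  .seg (14912, 592) (.seg (14984, 496) (.rel1 [(12560, 0), (16000, 0), (13296, 10816), (11728,
      10800), (7952, 8128), (6720, 7104), (6719, 3892)] (.rel2 [(12560, 0), (16000, 0), (13296,
      10816), (11728, 10800), (7952, 8128), (6720, 7104), (6719, 3892)] (.rel1 [(6720, 7104), (6719,
      3892), (12560, 0), (16000, 0), (13296, 10816), (11158, 10795)] (.rel2 [(6720, 7104), (6719,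
      3892), (12560, 0), (16000, 0), (13296, 10816), (11158, 10795)] (.rel1 [(12560, 0), (16000, 0),
      (13296, 10816), (11158, 10795), (4574, 5320)] (.rel2 [(12560, 0), (16000, 0), (13296, 10816),
      (11158, 10795), (4574, 5320)] (.rel1 [(4574, 5320), (12560, 0), (16000, 0), (12932, 12272)]
      (.rel2 [(4574, 5320), (12560, 0), (16000, 0), (12932, 12272)] (.leaf ⟨0, 3, 0, 7⟩)))))))))
      (.rel1 [(12560, 0), (16000, 0), (13296, 10816), (11728, 10800), (7952, 8128), (6720, 7104),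
      (6719, 3892)] (.rel2 [(12560, 0), (16000, 0), (13296, 10816), (11728, 10800), (7952, 8128),
      (6720, 7104), (6719, 3892)] (.rel1 [(6720, 7104), (6719, 3892), (12560, 0), (16000, 0),
      (13296, 10816), (11158, 10795)] (.rel2 [(6720, 7104), (6719, 3892), (12560, 0), (16000, 0),
      (13296, 10816), (11158, 10795)] (.rel1 [(6719, 3892), (12560, 0), (16000, 0), (13296, 10816),
      (6720, 10752)] (.rel2 [(12560, 0), (16000, 0), (13296, 10816), (11158, 10795), (4574, 5320)]
      (.rel1 [(16000, 0), (13296, 10816), (6720, 10752), (6717, 0)] (.rel2 [(4574, 5320), (12560,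
      0), (16000, 0), (12932, 12272)] (.leaf ⟨0, 5, 0, 6⟩)))))))))) (.seg (14840, 688) (.rel1
      [(12560, 0), (16000, 0), (13296, 10816), (11728, 10800), (7952, 8128), (6720, 7104), (6719,
      3892)] (.rel2 [(7760, 3200), (12560, 0), (16000, 0), (13296, 10816), (11728, 10800), (7952,
      8128), (4691, 5418)] (.rel1 [(6720, 7104), (6719, 3892), (12560, 0), (16000, 0), (13296,
      10816), (11158, 10795)] (.rel2 [(7760, 3200), (12560, 0), (16000, 0), (13296, 10816), (11728,
      10800), (4408, 5621)] (.rel1 [(12560, 0), (16000, 0), (13296, 10816), (11158, 10795), (4574,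
      5320)] (.rel2 [(16000, 0), (13296, 10816), (11728, 10800), (4408, 5621), (12189, 0)] (.rel1
      [(4574, 5320), (12560, 0), (16000, 0), (12932, 12272)] (.rel2 [(4408, 5621), (12189, 0),
      (16000, 0), (13064, 11746)] (.leaf ⟨0, 17, 0, 11⟩))))))))) (.rel1 [(12560, 0), (16000, 0),
      (13296, 10816), (11728, 10800), (7952, 8128), (6720, 7104), (6719, 3892)] (.rel2 [(16000, 0),
      (13296, 10816), (11728, 10800), (7952, 8128), (6720, 7104), (6720, 3952), (12184, 0)] (.rel1
      [(6720, 7104), (6719, 3892), (12560, 0), (16000, 0), (13296, 10816), (11158, 10795)] (.rel2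
      [(6720, 7104), (6720, 3952), (12184, 0), (16000, 0), (13296, 10816), (11158, 10795)] (.rel1
      [(12560, 0), (16000, 0), (13296, 10816), (11158, 10795), (4574, 5320)] (.rel2 [(16000, 0),
      (13296, 10816), (11158, 10795), (6720, 7104), (6719, 0)] (.rel1 [(4574, 5320), (12560, 0),
      (16000, 0), (12932, 12272)] (.rel2 [(6719, 0), (16000, 0), (6724, 37104)] (.leaf ⟨0, 19, 0,
      6⟩))))))))))

theorem ok1_7aa_3 :
    chkT cF7mm cF7mm T1_7aa_3 (15056, 400) (14768, 784) dum n1_A2 n1_A2 = true := by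
  decide +kernel

/-- tree -/
def T1_7aa_4 : CT :=
  .rel1 [(6720, 7104), (6720, 3952), (7760, 3200), (12560, 0), (16000, 0), (13296, 10816), (11158,
      10795)] (.rel2 [(12560, 0), (16000, 0), (13296, 10816), (11728, 10800), (7952, 8128), (6720,
      7104), (6719, 3892)] (.rel1 [(7760, 3200), (12560, 0), (16000, 0), (13296, 10816), (11158,
      10795), (4691, 5417)] (.rel2 [(7952, 8128), (6720, 7104), (6719, 3892), (12560, 0), (16000,
      0), (13064, 11746)] (.rel1 [(4691, 5417), (7760, 3200), (12560, 0), (16000, 0), (12932,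
      12272)] (.rel2 [(6720, 7104), (6719, 3892), (12560, 0), (16000, 0), (12934, 12269)] (.rel1
      [(12560, 0), (16000, 0), (12932, 12272), (4575, 5321)] (.rel2 [(12560, 0), (16000, 0), (12934,
      12269), (4573, 5320)] (.leaf ⟨0, 1, 2, 0⟩))))))))

theorem ok1_7aa_4 :
    chkT cF7mm cF7mm T1_7aa_4 (14768, 784) (14752, 768) dum n1_A2 n1_A2 = true := by
  decide +kernel

/-- tree -/
def T1_7aa_5 : CT :=
  .rel1 [(12560, 0), (16000, 0), (13296, 10816), (11728, 10800), (7952, 8128), (6720, 7104), (6719,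
      3892)] (.rel2 [(12560, 0), (16000, 0), (13296, 10816), (11728, 10800), (7952, 8128), (6720,
      7104), (6719, 3892)] (.rel1 [(7952, 8128), (6720, 7104), (6719, 3892), (12560, 0), (16000, 0),
      (13064, 11746)] (.rel2 [(7952, 8128), (6720, 7104), (6719, 3892), (12560, 0), (16000, 0),
      (13064, 11746)] (.rel1 [(6719, 3892), (12560, 0), (16000, 0), (13064, 11746), (6719, 7256)]
      (.rel2 [(6719, 3892), (12560, 0), (16000, 0), (13064, 11746), (6719, 7256)] (.rel1 [(6719,
      3892), (12560, 0), (16000, 0), (6719, 37131)] (.rel2 [(6719, 3892), (12560, 0), (16000, 0),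
      (6719, 37131)] (.rel1 [(16000, 0), (6719, 37131), (6718, 0)] (.leaf ⟨0, 3, 40, 0⟩)))))))))

theorem ok1_7aa_5 :
    chkT cF7mm cF7mm T1_7aa_5 (14752, 768) (14640, 640) dum n1_A2 n1_A2 = true := by
  decide +kernel

/-- tree -/
def T1_7aa_6 : CT :=
  .cut1 true 5408 [(6720, 3952), (7760, 3200), (12560, 0), (16000, 0), (14648, 5408), (6720, 5408)]
      [(14648, 5408), (13296, 10816), (11728, 10800), (7952, 8128), (6720, 7104), (6720, 5408)]
      (.cut2 true 5408 [(6720, 3952), (7760, 3200), (12560, 0), (16000, 0), (14648, 5408), (6720,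
      5408)] [(14648, 5408), (13296, 10816), (11728, 10800), (7952, 8128), (6720, 7104), (6720,
      5408)] (.cut1 true 2704 [(8504, 2704), (12560, 0), (16000, 0), (15324, 2704)] [(6720, 3952),
      (7760, 3200), (8504, 2704), (15324, 2704), (14648, 5408), (6720, 5408)] (.cut2 true 2704
      [(8504, 2704), (12560, 0), (16000, 0), (15324, 2704)] [(6720, 3952), (7760, 3200), (8504,
      2704), (15324, 2704), (14648, 5408), (6720, 5408)] (.cut1 true 1344 [(10544, 1344), (12560,
      0), (16000, 0), (15664, 1344)] [(8504, 2704), (10544, 1344), (15664, 1344), (15324, 2704)]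
      (.leaf ⟨1, 0, 2, 0⟩) (.leaf ⟨2, 0, 5, 0⟩)) (.rel2 [(8504, 2704), (15324, 2704), (6720, 37120),
      (6719, 3892)] (.leaf ⟨1, 0, 5, 0⟩))) (.rel1 [(6720, 3952), (7760, 3200), (8504, 2704), (15324,
      2704), (6720, 37120)] (.rel2 [(12560, 0), (16000, 0), (14648, 5408), (6720, 5408), (6719,
      3892)] (.rel1 [(8504, 2704), (15324, 2704), (6720, 37120), (6719, 3892)] (.rel2 [(12560, 0),
      (16000, 0), (14648, 5408), (4442, 5408)] (.leaf ⟨2, 0, 12, 0⟩)))))) (.rel1 [(16000, 0),
      (14648, 5408), (6720, 5408), (6720, 3952), (12184, 0)] (.rel2 [(7952, 8128), (6720, 7104),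
      (6720, 5408), (14648, 5408), (13064, 11746)] (.rel1 [(6720, 3952), (12184, 0), (16000, 0),
      (6720, 37120)] (.rel2 [(6720, 5408), (14648, 5408), (13064, 11746), (6719, 7256)] (.rel1
      [(16000, 0), (6720, 37120), (6719, 0)] (.rel2 [(14648, 5408), (13064, 11746), (4106, 5407)]
      (.leaf ⟨0, 1, 3, 0⟩)))))))) (.rel1 [(7952, 8128), (6720, 7104), (6720, 5408), (14648, 5408),
      (13064, 11746)] (.rel2 [(16000, 0), (13296, 10816), (11728, 10800), (7952, 8128), (6720,
      7104), (6720, 3952), (12184, 0)] (.rel1 [(6720, 5408), (14648, 5408), (13064, 11746), (6719,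
      7256)] (.rel2 [(7952, 8128), (6720, 7104), (6720, 3952), (12184, 0), (16000, 0), (13064,
      11746)] (.rel1 [(14648, 5408), (13064, 11746), (4106, 5407)] (.rel2 [(16000, 0), (6720,
      37136), (6719, 0)] (.leaf ⟨0, 1, 3, 0⟩)))))))

theorem ok1_7aa_6 :
    chkT cF7mm cF7mm T1_7aa_6 (14640, 640) (14640, 480) dum n1_A2 n1_A2 = true := by
  decide +kernel

theorem fr1_7aa {z k l : ℂ} (hz : OnE v1_7aa z) (hk : conj k ∈ Poly p1_A2)
    (hl : conj l ∈ Poly p1_A2) :
    k ^ 2 + l ^ 2 - 2 * k * l * (64 * z ^ 7 - 112 * z ^ 5 + 56 * z ^ 3 - 7 * z) + (z * (64 * z ^ 6 -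
        80 * z ^ 4 + 24 * z ^ 2 - 1)) ^ 2 ≠ 0 := by
  have h := edge_use rpF7mm (E := L1_7aa) (V0 := dum) (V1 := n1_A2) (V2 := n1_A2) (fun e he => by
    simp only [L1_7aa, List.mem_cons, List.not_mem_nil, or_false] at he
    rcases he with rfl | rfl | rfl | rfl | rfl | rfl | rfl
    exacts [⟨_, ok1_7aa_0⟩, ⟨_, ok1_7aa_1⟩, ⟨_, ok1_7aa_2⟩, ⟨_, ok1_7aa_3⟩, ⟨_, ok1_7aa_4⟩, ⟨_,
        ok1_7aa_5⟩, ⟨_, ok1_7aa_6⟩]) (V := v1_7aa) (by decide) hz zero_dum (rg1_A2 hk) (rg1_A2 hl)
  rw [evF7mm (mr_true k) (mr_true l)] at h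
  exact fun h0 => h (by rw [h0, mul_zero])

/-- edges -/
def L1_7az : List ((ℕ × ℕ) × (ℕ × ℕ)) :=
  [((14528, 480), (14672, 400)), ((14672, 400), (14816, 464)), ((14816, 464), (14928, 544)),
      ((14928, 544), (14768, 784)), ((14768, 784), (14640, 848)), ((14640, 848), (14528, 736)),
      ((14528, 736), (14528, 480))]

/-- tree -/
def T1_7az_0 : CT :=
  .cut1 false 11360 [(6720, 3952), (7760, 3200), (11360, 800), (11360, 10540), (7952, 8128), (6720,
      7104)] [(11360, 800), (12560, 0), (16000, 0), (13296, 10816), (11728, 10800), (11360, 10540)]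
      (.cut2 false 13280 [(10560, 1840), (12800, 0), (13280, 0), (13280, 5280), (12320, 5280),
      (10560, 3680)] [(13280, 0), (16000, 0), (14400, 4000), (13280, 5280)] (.cut1 false 9040
      [(6720, 3952), (7760, 3200), (9040, 2346), (9040, 8899), (7952, 8128), (6720, 7104)] [(9040,
      2346), (11360, 800), (11360, 10540), (9040, 8899)] (.cut2 false 11920 [(10560, 1840), (11920,
      722), (11920, 4917), (10560, 3680)] [(11920, 722), (12800, 0), (13280, 0), (13280, 5280),
      (12320, 5280), (11920, 4917)] (.cut1 false 7872 [(6720, 3952), (7760, 3200), (7872, 3125),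
      (7872, 8062), (6720, 7104)] [(7872, 3125), (9040, 2346), (9040, 8899), (7952, 8128), (7872,
      8062)] (.cut1 true 5584 [(6720, 3952), (7760, 3200), (7872, 3125), (7872, 5584), (6720, 5584)]
      [(7872, 5584), (7872, 8062), (6720, 7104), (6720, 5584)] (.rel1 [(7872, 5584), (6720, 5584),
      (6720, 3952), (7872, 3118)] (.leaf ⟨79, 0, 13, 0⟩)) (.leaf ⟨19, 0, 6, 0⟩)) (.rel1 [(7872,
      8062), (7872, 3125), (9040, 2346), (9040, 9026)] (.rel2 [(11920, 722), (11920, 4917), (9496,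
      2713)] (.leaf ⟨39, 0, 9, 0⟩)))) (.rel1 [(9040, 8899), (7952, 8128), (6720, 7104), (6720,
      3952), (9040, 2273)] (.rel2 [(11920, 4917), (11920, 722), (12800, 0), (13280, 0), (13280,
      6152)] (.rel1 [(6720, 7104), (6720, 3952), (9040, 2273), (9040, 9033)] (.rel2 [(13280, 0),
      (13280, 6152), (11920, 4917), (11919, 0)] (.leaf ⟨19, 0, 6, 0⟩)))))) (.rel2 [(13280, 0),
      (13280, 6153), (10560, 3680), (10559, 0)] (.leaf ⟨11, 0, 5, 0⟩))) (.rel1 [(11360, 10540),
      (7952, 8128), (6720, 7104), (6720, 3952), (11360, 595)] (.rel2 [(13280, 5280), (13280, 0),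
      (17900, 0)] (.rel1 [(11360, 595), (11360, 10961), (4691, 5418)] (.leaf ⟨19, 0, 6, 0⟩)))))
      (.rel1 [(11360, 10540), (11360, 800), (12560, 0), (16000, 0), (13064, 11744)] (.rel2 [(10560,
      3680), (10560, 1840), (12800, 0), (16000, 0), (14400, 4000), (12853, 5768)] (.rel1 [(11360,
      800), (12560, 0), (16000, 0), (11360, 18560)] (.rel2 [(12853, 5768), (10560, 3680), (10560,
      1840), (12800, 0), (17900, 0)] (.rel1 [(16000, 0), (11360, 18560), (11359, 0)] (.rel2 [(12800,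
      0), (17900, 0), (12853, 5768), (9496, 2712)] (.leaf ⟨11, 0, 5, 0⟩)))))))

theorem ok1_7az_0 :
    chkT cF7mn cF7mn T1_7az_0 (14528, 480) (14672, 400) dum n1_A2 n1_Z = true := by
  decide +kernel

/-- tree -/
def T1_7az_1 : CT :=
  .rel1 [(12560, 0), (16000, 0), (13296, 10816), (11728, 10800), (7952, 8128), (6720, 7104), (6719,
      3892)] (.rel2 [(13280, 5280), (12320, 5280), (10560, 3680), (10560, 1840), (12800, 0), (17900,
      0)] (.rel1 [(16000, 0), (13296, 10816), (11728, 10800), (7952, 8128), (6720, 7104), (6716, 0)]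
      (.rel2 [(10560, 3680), (10560, 1840), (12800, 0), (17900, 0), (12853, 5768)] (.rel1 [(6716,
      0), (16000, 0), (13296, 10816), (11728, 10800), (6719, 7256)] (.rel2 [(10560, 1840), (12800,
      0), (17900, 0), (10559, 8390)] (.rel1 [(6719, 7256), (6716, 0), (16000, 0), (13064, 11746)]
      (.leaf ⟨7, 0, 0, 4⟩)))))))

theorem ok1_7az_1 :
    chkT cF7mn cF7mn T1_7az_1 (14672, 400) (14816, 464) dum n1_A2 n1_Z = true := by
  decide +kernel

/-- tree -/
def T1_7az_2 : CT :=
  .rel1 [(12560, 0), (16000, 0), (13296, 10816), (11728, 10800), (7952, 8128), (6720, 7104), (6719,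
      3892)] (.rel2 [(13280, 5280), (12320, 5280), (10560, 3680), (10560, 1840), (12800, 0), (17900,
      0)] (.rel1 [(6719, 3892), (12560, 0), (16000, 0), (13296, 10816), (11728, 10800), (6719,
      7256)] (.rel2 [(10560, 3680), (10560, 1840), (12800, 0), (17900, 0), (12853, 5768)] (.rel1
      [(16000, 0), (13296, 10816), (11728, 10800), (6719, 7256), (6718, 0)] (.rel2 [(12800, 0),
      (17900, 0), (12853, 5768), (9496, 2712)] (.leaf ⟨6, 0, 0, 5⟩))))))

theorem ok1_7az_2 :
    chkT cF7mn cF7mn T1_7az_2 (14816, 464) (14928, 544) dum n1_A2 n1_Z = true := by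
  decide +kernel

/-- tree -/
def T1_7az_3 : CT :=
  .seg (14848, 664) (.cut1 true 5408 [(6720, 3952), (7760, 3200), (12560, 0), (16000, 0), (14648,
      5408), (6720, 5408)] [(14648, 5408), (13296, 10816), (11728, 10800), (7952, 8128), (6720,
      7104), (6720, 5408)] (.rel1 [(16000, 0), (14648, 5408), (6720, 5408), (6720, 3952), (12184,
      0)] (.rel2 [(12320, 5280), (10560, 3680), (10560, 1840), (12800, 0), (16000, 0), (13888,
      5280)] (.rel1 [(16000, 0), (14648, 5408), (6720, 5408), (6719, 0)] (.rel2 [(16000, 0), (13470,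
      6326), (6511, 0)] (.leaf ⟨0, 0, 0, 1⟩))))) (.cut1 false 10672 [(10672, 10053), (7952, 8128),
      (6720, 7104), (6720, 5408), (10672, 5408)] [(14648, 5408), (13296, 10816), (11728, 10800),
      (10672, 10053), (10672, 5408)] (.rel1 [(6720, 5408), (10672, 5408), (10672, 10053), (6719,
      7256)] (.rel2 [(16000, 0), (14400, 4000), (13280, 5280), (12320, 5280), (10560, 3680), (10559,
      0)] (.rel1 [(10672, 5408), (10672, 10053), (4106, 5408)] (.rel2 [(16000, 0), (13470, 6326),
      (6511, 0)] (.leaf ⟨0, 2, 0, 2⟩))))) (.seg (14888, 604) (.rel1 [(10672, 5408), (14648, 5408),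
      (13296, 10816), (10671, 10790)] (.rel2 [(10559, 0), (16000, 0), (10559, 13603)] (.leaf ⟨0, 2,
      0, 2⟩))) (.rel1 [(10672, 5408), (14648, 5408), (13296, 10816), (10671, 10790)] (.rel2 [(16000,
      0), (14400, 4000), (13280, 5280), (12320, 5280), (10560, 3680), (10559, 0)] (.rel1 [(10672,
      5408), (14648, 5408), (10669, 21324)] (.rel2 [(10559, 0), (16000, 0), (10559, 13603)] (.leaf
      ⟨0, 7, 0, 4⟩)))))))) (.cut1 false 11360 [(6720, 3952), (7760, 3200), (11360, 800), (11360,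
      10540), (7952, 8128), (6720, 7104)] [(11360, 800), (12560, 0), (16000, 0), (13296, 10816),
      (11728, 10800), (11360, 10540)] (.rel1 [(11360, 800), (11360, 10540), (7952, 8128), (6720,
      7104), (6719, 3892)] (.rel2 [(16000, 0), (14400, 4000), (13280, 5280), (12320, 5280), (10560,
      3680), (10559, 0)] (.rel1 [(6719, 3892), (11360, 800), (11360, 10540), (6719, 7256)] (.rel2
      [(10559, 0), (16000, 0), (14400, 4000), (13280, 5280), (10559, 5280)] (.rel1 [(11360, 800),
      (11360, 10540), (4269, 5523)] (.rel2 [(10559, 0), (16000, 0), (10557, 13608)] (.leaf ⟨0, 1, 0,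
      0⟩))))))) (.cut2 false 13280 [(10560, 1840), (12800, 0), (13280, 0), (13280, 5280), (12320,
      5280), (10560, 3680)] [(13280, 0), (16000, 0), (14400, 4000), (13280, 5280)] (.rel1 [(11360,
      800), (12560, 0), (16000, 0), (13296, 10816), (11359, 10797)] (.rel2 [(13280, 0), (13280,
      5280), (12320, 5280), (10560, 3680), (10559, 0)] (.rel1 [(11360, 800), (12560, 0), (16000, 0),
      (11358, 18568)] (.rel2 [(10559, 0), (13280, 0), (13280, 5280), (10559, 5280)] (.rel1 [(16000,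
      0), (11358, 18568), (11359, 0)] (.leaf ⟨0, 7, 0, 4⟩)))))) (.cut1 true 5408 [(11360, 800),
      (12560, 0), (16000, 0), (14648, 5408), (11360, 5408)] [(14648, 5408), (13296, 10816), (11728,
      10800), (11360, 10540), (11360, 5408)] (.rel1 [(12560, 0), (16000, 0), (14648, 5408), (4447,
      5408)] (.rel2 [(13280, 0), (16000, 0), (13280, 6800)] (.leaf ⟨0, 37, 0, 15⟩))) (.rel1 [(11360,
      5408), (14648, 5408), (13296, 10816), (11359, 10797)] (.rel2 [(13280, 0), (16000, 0), (13280,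
      6800)] (.leaf ⟨0, 1, 0, 0⟩))))))

theorem ok1_7az_3 :
    chkT cF7mn cF7mn T1_7az_3 (14928, 544) (14768, 784) dum n1_A2 n1_Z = true := by
  decide +kernel

/-- tree -/
def T1_7az_4 : CT :=
  .rel1 [(12560, 0), (16000, 0), (13296, 10816), (11728, 10800), (7952, 8128), (6720, 7104), (6719,
      3892)] (.rel2 [(10560, 3680), (10560, 1840), (12800, 0), (16000, 0), (14400, 4000), (12853,
      5768)] (.rel1 [(7952, 8128), (6720, 7104), (6719, 3892), (12560, 0), (16000, 0), (13064,
      11746)] (.rel2 [(12800, 0), (16000, 0), (14400, 4000), (12853, 5768), (9496, 2712)] (.rel1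
      [(12560, 0), (16000, 0), (13064, 11746), (7952, 8128), (4573, 5320)] (.rel2 [(16000, 0),
      (14400, 4000), (12853, 5768), (6515, 0)] (.rel1 [(4573, 5320), (12560, 0), (16000, 0), (12934,
      12269)] (.rel2 [(6515, 0), (16000, 0), (13468, 6330)] (.leaf ⟨0, 37, 15, 0⟩))))))))

theorem ok1_7az_4 :
    chkT cF7mn cF7mn T1_7az_4 (14768, 784) (14640, 848) dum n1_A2 n1_Z = true := by
  decide +kernel

/-- tree -/
def T1_7az_5 : CT :=
  .rel1 [(7952, 8128), (6720, 7104), (6720, 3952), (7760, 3200), (12560, 0), (16000, 0), (13064,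
      11746)] (.rel2 [(16000, 0), (14400, 4000), (13280, 5280), (12320, 5280), (10560, 3680),
      (10559, 0)] (.rel1 [(6720, 3952), (7760, 3200), (12560, 0), (16000, 0), (13064, 11746), (6719,
      7256)] (.rel2 [(16000, 0), (14400, 4000), (13280, 5280), (12320, 5280), (6511, 0)] (.rel1
      [(12560, 0), (16000, 0), (13064, 11746), (6719, 7256), (6719, 3892)] (.rel2 [(13280, 5280),
      (12320, 5280), (6511, 0), (17900, 0)] (.rel1 [(16000, 0), (6719, 37131), (6718, 0)] (.leaf ⟨1,
      0, 5, 0⟩)))))))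

theorem ok1_7az_5 :
    chkT cF7mn cF7mn T1_7az_5 (14640, 848) (14528, 736) dum n1_A2 n1_Z = true := by
  decide +kernel

/-- tree -/
def T1_7az_6 : CT :=
  .rel1 [(7952, 8128), (6720, 7104), (6720, 3952), (7760, 3200), (12560, 0), (16000, 0), (13064,
      11746)] (.rel2 [(16000, 0), (14400, 4000), (13280, 5280), (12320, 5280), (10560, 3680),
      (10559, 0)] (.rel1 [(6720, 3952), (7760, 3200), (12560, 0), (16000, 0), (13064, 11746), (6719,
      7256)] (.rel2 [(13280, 5280), (12320, 5280), (10560, 3680), (10559, 0), (17900, 0)] (.rel1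
      [(6719, 3892), (12560, 0), (16000, 0), (6719, 37131)] (.leaf ⟨8, 0, 9, 0⟩)))))

theorem ok1_7az_6 :
    chkT cF7mn cF7mn T1_7az_6 (14528, 736) (14528, 480) dum n1_A2 n1_Z = true := by
  decide +kernel

theorem fr1_7az {z k l : ℂ} (hz : OnE v1_7az z) (hk : conj k ∈ Poly p1_A2)
    (hl : l ∈ Poly p1_Z) :
    k ^ 2 + l ^ 2 - 2 * k * l * (64 * z ^ 7 - 112 * z ^ 5 + 56 * z ^ 3 - 7 * z) + (z * (64 * z ^ 6 -
        80 * z ^ 4 + 24 * z ^ 2 - 1)) ^ 2 ≠ 0 := by
  have h := edge_use rpF7mn (E := L1_7az) (V0 := dum) (V1 := n1_A2) (V2 := n1_Z) (fun e he => by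
    simp only [L1_7az, List.mem_cons, List.not_mem_nil, or_false] at he
    rcases he with rfl | rfl | rfl | rfl | rfl | rfl | rfl
    exacts [⟨_, ok1_7az_0⟩, ⟨_, ok1_7az_1⟩, ⟨_, ok1_7az_2⟩, ⟨_, ok1_7az_3⟩, ⟨_, ok1_7az_4⟩, ⟨_,
        ok1_7az_5⟩, ⟨_, ok1_7az_6⟩]) (V := v1_7az) (by decide) hz zero_dum (rg1_A2 hk) (rg1_Z hl)
  rw [evF7mn (mr_true k) (mr_false l)] at h
  exact fun h0 => h (by rw [h0, mul_zero])

/-- edges -/
def L1_7as : List ((ℕ × ℕ) × (ℕ × ℕ)) :=
  [((14384, 480), (14576, 368)), ((14576, 368), (14832, 480)), ((14832, 480), (14912, 592)),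
      ((14912, 592), (14544, 976)), ((14544, 976), (14416, 864)), ((14416, 864), (14400, 752)),
      ((14400, 752), (14384, 480))]

/-- tree -/
def T1_7as_0 : CT :=
  .cut1 false 11360 [(6720, 3952), (7760, 3200), (11360, 800), (11360, 10540), (7952, 8128), (6720,
      7104)] [(11360, 800), (12560, 0), (16000, 0), (13296, 10816), (11728, 10800), (11360, 10540)]
      (.cut2 false 11440 [(8016, 3840), (11440, 1138), (11440, 10559), (8448, 8048), (8016, 5024)]
      [(11440, 1138), (12112, 608), (14880, 608), (13984, 8064), (13296, 10800), (11728, 10800),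
      (11440, 10559)] (.cut2 true 5840 [(8016, 3840), (11440, 1138), (11440, 5840), (8132, 5840),
      (8016, 5024)] [(11440, 5840), (11440, 10559), (8448, 8048), (8132, 5840)] (.cut2 false 9728
      [(8016, 3840), (9728, 2489), (9728, 5840), (8132, 5840), (8016, 5024)] [(9728, 2489), (11440,
      1138), (11440, 5840), (9728, 5840)] (.cut1 false 9040 [(6720, 3952), (7760, 3200), (9040,
      2346), (9040, 8899), (7952, 8128), (6720, 7104)] [(9040, 2346), (11360, 800), (11360, 10540),
      (9040, 8899)] (.cut1 true 5616 [(6720, 3952), (7760, 3200), (9040, 2346), (9040, 5616), (6720,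
      5616)] [(9040, 5616), (9040, 8899), (7952, 8128), (6720, 7104), (6720, 5616)] (.rel1 [(9040,
      5616), (6720, 5616), (6720, 3952), (9040, 2273)] (.rel2 [(8016, 3840), (9728, 2489), (9728,
      5840), (8015, 5840)] (.leaf ⟨1, 0, 0, 0⟩))) (.rel1 [(6720, 7104), (6720, 5616), (9040, 5616),
      (9040, 9033)] (.rel2 [(9728, 2489), (9728, 5840), (8132, 5840), (7863, 3958)] (.leaf ⟨19, 0,
      6, 0⟩)))) (.rel2 [(7863, 3958), (9728, 2489), (9728, 17007)] (.leaf ⟨79, 0, 0, 13⟩))) (.rel1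
      [(6720, 7104), (6720, 3952), (11360, 595), (11360, 10961)] (.leaf ⟨1, 0, 0, 0⟩))) (.rel1
      [(6720, 7104), (6720, 3952), (11360, 595), (11360, 10961)] (.leaf ⟨1, 0, 0, 0⟩))) (.rel1
      [(11360, 10540), (7952, 8128), (6720, 7104), (6720, 3952), (11360, 595)] (.rel2 [(13296,
      10800), (11728, 10800), (11440, 10559), (11440, 1138), (12112, 608), (15859, 608)] (.rel1
      [(6720, 7104), (6720, 3952), (11360, 595), (11360, 10961)] (.rel2 [(11440, 10559), (11440,
      1138), (12112, 608), (15859, 608), (13023, 11886)] (.rel1 [(11360, 595), (11360, 10961),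
      (4691, 5418)] (.rel2 [(15859, 608), (13023, 11886), (11440, 10559), (11439, 607)] (.leaf ⟨1,
      0, 0, 0⟩)))))))) (.rel1 [(11360, 10540), (11360, 800), (12560, 0), (16000, 0), (13064, 11744)]
      (.rel2 [(13296, 10800), (11728, 10800), (8448, 8048), (8016, 5024), (8016, 3840), (12112,
      608), (15859, 608)] (.rel1 [(11360, 800), (12560, 0), (16000, 0), (11360, 18560)] (.rel2
      [(8448, 8048), (8016, 5024), (8016, 3840), (12112, 608), (15859, 608), (13023, 11887)] (.rel1
      [(16000, 0), (11360, 18560), (11359, 0)] (.rel2 [(15859, 608), (13023, 11887), (8448, 8048),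
      (7381, 607)] (.leaf ⟨19, 0, 6, 0⟩)))))))

theorem ok1_7as_0 :
    chkT cF7mn cF7mn T1_7as_0 (14384, 480) (14576, 368) dum n1_A2 n1_S3 = true := by
  decide +kernel

/-- tree -/
def T1_7as_1 : CT :=
  .rel1 [(12560, 0), (16000, 0), (13296, 10816), (11728, 10800), (7952, 8128), (6720, 7104), (6719,
      3892)] (.rel2 [(13296, 10800), (11728, 10800), (8448, 8048), (8016, 5024), (8016, 3840),
      (12112, 608), (15859, 608)] (.rel1 [(16000, 0), (13296, 10816), (11728, 10800), (7952, 8128),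
      (6720, 7104), (6716, 0)] (.rel2 [(8448, 8048), (8016, 5024), (8016, 3840), (12112, 608),
      (15859, 608), (13023, 11887)] (.rel1 [(7952, 8128), (6720, 7104), (6716, 0), (16000, 0),
      (13064, 11746)] (.rel2 [(8016, 3840), (12112, 608), (15859, 608), (13023, 11887), (8015,
      7685)] (.rel1 [(6716, 0), (16000, 0), (13064, 11746), (6719, 7256)] (.leaf ⟨7, 0, 0, 4⟩)))))))

theorem ok1_7as_1 :
    chkT cF7mn cF7mn T1_7as_1 (14576, 368) (14832, 480) dum n1_A2 n1_S3 = true := by
  decide +kernel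

/-- tree -/
def T1_7as_2 : CT :=
  .rel1 [(16000, 0), (13296, 10816), (11728, 10800), (7952, 8128), (6720, 7104), (6720, 3952),
      (12184, 0)] (.rel2 [(14880, 608), (13984, 8064), (13296, 10800), (11728, 10800), (8448, 8048),
      (8016, 5024), (8015, 607)] (.rel1 [(6720, 3952), (12184, 0), (16000, 0), (13296, 10816),
      (11728, 10800), (6719, 7256)] (.rel2 [(11728, 10800), (8448, 8048), (8016, 5024), (8015, 607),
      (14880, 608), (13655, 10802)] (.rel1 [(16000, 0), (13296, 10816), (11728, 10800), (6719,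
      7256), (6720, 0)] (.rel2 [(8016, 5024), (8015, 607), (14880, 608), (13655, 10802), (8839,
      10798)] (.rel1 [(6720, 0), (16000, 0), (13296, 10816), (6717, 10749)] (.rel2 [(14880, 608),
      (13655, 10802), (8839, 10798), (7385, 605)] (.leaf ⟨1, 0, 0, 2⟩))))))))

theorem ok1_7as_2 :
    chkT cF7mn cF7mn T1_7as_2 (14832, 480) (14912, 592) dum n1_A2 n1_S3 = true := by
  decide +kernel

/-- tree -/
def T1_7as_3 : CT :=
  .seg (14728, 784) (.seg (14820, 688) (.rel1 [(12560, 0), (16000, 0), (13296, 10816), (11728,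
      10800), (7952, 8128), (6720, 7104), (6719, 3892)] (.rel2 [(11728, 10800), (8448, 8048), (8016,
      5024), (8016, 3840), (12112, 608), (14880, 608), (13655, 10802)] (.rel1 [(6720, 7104), (6719,
      3892), (12560, 0), (16000, 0), (13296, 10816), (11158, 10795)] (.rel2 [(8448, 8048), (8016,
      5024), (8016, 3840), (12112, 608), (14880, 608), (13479, 12270)] (.rel1 [(12560, 0), (16000,
      0), (13296, 10816), (11158, 10795), (4574, 5320)] (.rel2 [(8016, 3840), (12112, 608), (14880,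
      608), (13479, 12270), (8015, 7685)] (.rel1 [(4574, 5320), (12560, 0), (16000, 0), (12932,
      12272)] (.rel2 [(8015, 607), (14880, 608), (8015, 57753)] (.leaf ⟨0, 4, 0, 3⟩))))))))) (.rel1
      [(12560, 0), (16000, 0), (13296, 10816), (11728, 10800), (7952, 8128), (6720, 7104), (6719,
      3892)] (.rel2 [(14880, 608), (13984, 8064), (13296, 10800), (11728, 10800), (8448, 8048),
      (8016, 5024), (8015, 607)] (.rel1 [(7952, 8128), (6720, 7104), (6719, 3892), (12560, 0),
      (16000, 0), (13064, 11746)] (.rel2 [(11728, 10800), (8448, 8048), (8016, 5024), (8015, 607),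
      (14880, 608), (13655, 10802)] (.rel1 [(6719, 3892), (12560, 0), (16000, 0), (13064, 11746),
      (6719, 7256)] (.rel2 [(8016, 5024), (8015, 607), (14880, 608), (13655, 10802), (8839, 10798)]
      (.rel1 [(16000, 0), (13064, 11746), (6719, 7256), (6718, 0)] (.rel2 [(14880, 608), (13655,
      10802), (8839, 10798), (7385, 605)] (.leaf ⟨0, 39, 0, 9⟩)))))))))) (.seg (14636, 880) (.cut1
      false 11360 [(6720, 3952), (7760, 3200), (11360, 800), (11360, 10540), (7952, 8128), (6720,
      7104)] [(11360, 800), (12560, 0), (16000, 0), (13296, 10816), (11728, 10800), (11360, 10540)]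
      (.rel1 [(11360, 800), (11360, 10540), (7952, 8128), (6720, 7104), (6719, 3892)] (.rel2
      [(14880, 608), (13984, 8064), (13296, 10800), (11728, 10800), (8448, 8048), (8016, 5024),
      (8015, 607)] (.rel1 [(6719, 3892), (11360, 800), (11360, 10540), (6719, 7256)] (.rel2 [(8016,
      5024), (8015, 607), (14880, 608), (13984, 8064), (13296, 10800), (8840, 10800)] (.rel1
      [(11360, 800), (11360, 10540), (4269, 5523)] (.rel2 [(7384, 605), (14880, 608), (11455,
      29111)] (.leaf ⟨0, 1, 0, 0⟩))))))) (.cut2 false 11440 [(8016, 3840), (11440, 1138), (11440,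
      10559), (8448, 8048), (8016, 5024)] [(11440, 1138), (12112, 608), (14880, 608), (13984, 8064),
      (13296, 10800), (11728, 10800), (11440, 10559)] (.rel1 [(11360, 800), (12560, 0), (16000, 0),
      (13296, 10816), (11359, 10797)] (.rel2 [(8016, 3840), (11440, 1138), (11440, 10559), (8015,
      7685)] (.rel1 [(11360, 800), (12560, 0), (16000, 0), (11358, 18568)] (.rel2 [(11440, 1138),
      (11440, 10559), (5653, 5703)] (.rel1 [(16000, 0), (11358, 18568), (11359, 0)] (.leaf ⟨0, 1, 0,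
      0⟩)))))) (.cut1 true 5408 [(11360, 800), (12560, 0), (16000, 0), (14648, 5408), (11360, 5408)]
      [(14648, 5408), (13296, 10816), (11728, 10800), (11360, 10540), (11360, 5408)] (.cut1 false
      13680 [(11360, 800), (12560, 0), (13680, 0), (13680, 5408), (11360, 5408)] [(13680, 0),
      (16000, 0), (14648, 5408), (13680, 5408)] (.rel1 [(13680, 0), (13680, 5408), (11360, 5408),
      (11359, 0)] (.rel2 [(11439, 607), (14880, 608), (11439, 29243)] (.leaf ⟨0, 1, 0, 0⟩))) (.seg
      (14682, 832) (.cut2 true 5696 [(11440, 1138), (12112, 608), (14880, 608), (14269, 5696),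
      (11440, 5696)] [(14269, 5696), (13984, 8064), (13296, 10800), (11728, 10800), (11440, 10559),
      (11440, 5696)] (.rel1 [(13680, 0), (16000, 0), (13680, 9280)] (.rel2 [(14880, 608), (14269,
      5696), (11440, 5696), (11439, 607)] (.leaf ⟨0, 79, 13, 0⟩))) (.rel1 [(13680, 0), (16000, 0),
      (13680, 9280)] (.rel2 [(5637, 5695), (14269, 5696), (13478, 12269)] (.leaf ⟨0, 1, 0, 0⟩))))
      (.rel1 [(13680, 0), (16000, 0), (13680, 9280)] (.rel2 [(11439, 10800), (11439, 607), (14880,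
      608), (13655, 10802)] (.leaf ⟨0, 39, 9, 0⟩))))) (.rel1 [(11360, 10540), (11360, 5408), (14648,
      5408), (13064, 11744)] (.rel2 [(14880, 608), (13984, 8064), (13296, 10800), (11728, 10800),
      (11440, 10559), (11439, 607)] (.rel1 [(14648, 5408), (13064, 11744), (4095, 5407)] (.rel2
      [(11439, 10800), (11439, 607), (14880, 608), (13655, 10802)] (.leaf ⟨0, 1, 0, 0⟩))))))))
      (.rel1 [(16000, 0), (13296, 10816), (11728, 10800), (7952, 8128), (6720, 7104), (6720, 3952),
      (12184, 0)] (.rel2 [(14880, 608), (13984, 8064), (13296, 10800), (11728, 10800), (8448, 8048),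
      (8016, 5024), (8015, 607)] (.rel1 [(7952, 8128), (6720, 7104), (6720, 3952), (12184, 0),
      (16000, 0), (13064, 11746)] (.rel2 [(8016, 5024), (8015, 607), (14880, 608), (13984, 8064),
      (13296, 10800), (8840, 10800)] (.rel1 [(6720, 3952), (12184, 0), (16000, 0), (13064, 11746),
      (6719, 7256)] (.rel2 [(14880, 608), (13984, 8064), (13296, 10800), (8840, 10800), (7384, 605)]
      (.rel1 [(16000, 0), (13064, 11746), (6719, 7256), (6720, 0)] (.rel2 [(13296, 10800), (8840,
      10800), (7384, 605), (15859, 608)] (.leaf ⟨0, 11, 5, 0⟩))))))))))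

theorem ok1_7as_3 :
    chkT cF7mn cF7mn T1_7as_3 (14912, 592) (14544, 976) dum n1_A2 n1_S3 = true := by
  decide +kernel

/-- tree -/
def T1_7as_4 : CT :=
  .rel1 [(12560, 0), (16000, 0), (13296, 10816), (11728, 10800), (7952, 8128), (6720, 7104), (6719,
      3892)] (.rel2 [(14880, 608), (13984, 8064), (13296, 10800), (11728, 10800), (8448, 8048),
      (8016, 5024), (8015, 607)] (.rel1 [(7952, 8128), (6720, 7104), (6719, 3892), (12560, 0),
      (16000, 0), (13064, 11746)] (.rel2 [(14880, 608), (13984, 8064), (13296, 10800), (11728,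
      10800), (8448, 8048), (7383, 605)] (.rel1 [(6719, 3892), (12560, 0), (16000, 0), (13064,
      11746), (6719, 7256)] (.rel2 [(13296, 10800), (11728, 10800), (8448, 8048), (7383, 605),
      (15859, 608)] (.rel1 [(16000, 0), (6719, 37131), (6718, 0)] (.leaf ⟨1, 0, 2, 0⟩)))))))

theorem ok1_7as_4 :
    chkT cF7mn cF7mn T1_7as_4 (14544, 976) (14416, 864) dum n1_A2 n1_S3 = true := by
  decide +kernel

/-- tree -/
def T1_7as_5 : CT :=
  .rel1 [(7952, 8128), (6720, 7104), (6720, 3952), (7760, 3200), (12560, 0), (16000, 0), (13064,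
      11746)] (.rel2 [(11728, 10800), (8448, 8048), (8016, 5024), (8016, 3840), (12112, 608),
      (14880, 608), (13655, 10802)] (.rel1 [(6720, 3952), (7760, 3200), (12560, 0), (16000, 0),
      (13064, 11746), (6719, 7256)] (.rel2 [(14880, 608), (13655, 10802), (11728, 10800), (8448,
      8048), (7383, 605)] (.leaf ⟨69, 0, 40, 0⟩))))

theorem ok1_7as_5 :
    chkT cF7mn cF7mn T1_7as_5 (14416, 864) (14400, 752) dum n1_A2 n1_S3 = true := by
  decide +kernel

/-- tree -/
def T1_7as_6 : CT :=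
  .cut1 true 5408 [(6720, 3952), (7760, 3200), (12560, 0), (16000, 0), (14648, 5408), (6720, 5408)]
      [(14648, 5408), (13296, 10816), (11728, 10800), (7952, 8128), (6720, 7104), (6720, 5408)]
      (.cut2 true 5696 [(8016, 3840), (12112, 608), (14880, 608), (14269, 5696), (8112, 5696),
      (8016, 5024)] [(14269, 5696), (13984, 8064), (13296, 10800), (11728, 10800), (8448, 8048),
      (8112, 5696)] (.rel1 [(12560, 0), (16000, 0), (14648, 5408), (6720, 5408), (6719, 3892)]
      (.rel2 [(14880, 608), (14269, 5696), (8112, 5696), (8016, 5024), (8015, 607)] (.rel1 [(12560,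
      0), (16000, 0), (14648, 5408), (4442, 5408)] (.rel2 [(14880, 608), (14269, 5696), (8112,
      5696), (7383, 605)] (.leaf ⟨2, 0, 2, 0⟩))))) (.cut1 true 2704 [(8504, 2704), (12560, 0),
      (16000, 0), (15324, 2704)] [(6720, 3952), (7760, 3200), (8504, 2704), (15324, 2704), (14648,
      5408), (6720, 5408)] (.cut1 true 1344 [(10544, 1344), (12560, 0), (16000, 0), (15664, 1344)]
      [(8504, 2704), (10544, 1344), (15664, 1344), (15324, 2704)] (.rel2 [(8448, 8048), (8112,
      5696), (14580, 5695), (13023, 11887)] (.leaf ⟨35, 0, 19, 0⟩)) (.rel2 [(11728, 10800), (8448,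
      8048), (8112, 5696), (14269, 5696), (13655, 10800)] (.leaf ⟨34, 0, 21, 0⟩))) (.rel1 [(8504,
      2704), (15324, 2704), (14648, 5408), (6720, 5408), (6719, 3892)] (.rel2 [(13296, 10800),
      (11728, 10800), (8448, 8048), (8112, 5696), (14580, 5695)] (.rel1 [(8504, 2704), (15324,
      2704), (14648, 5408), (4440, 5408)] (.leaf ⟨10, 0, 7, 0⟩)))))) (.rel1 [(7952, 8128), (6720,
      7104), (6720, 5408), (14648, 5408), (13064, 11746)] (.rel2 [(14880, 608), (13984, 8064),
      (13296, 10800), (11728, 10800), (8448, 8048), (8016, 5024), (8015, 607)] (.rel1 [(6720, 5408),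
      (14648, 5408), (13064, 11746), (6719, 7256)] (.rel2 [(13296, 10800), (11728, 10800), (8448,
      8048), (8016, 5024), (8015, 607), (15859, 608)] (.rel1 [(14648, 5408), (13064, 11746), (4106,
      5407)] (.rel2 [(8448, 8048), (7383, 605), (15859, 608), (13023, 11887)] (.leaf ⟨4, 0, 3,
      0⟩)))))))

theorem ok1_7as_6 :
    chkT cF7mn cF7mn T1_7as_6 (14400, 752) (14384, 480) dum n1_A2 n1_S3 = true := by
  decide +kernel

theorem fr1_7as {z k l : ℂ} (hz : OnE v1_7as z) (hk : conj k ∈ Poly p1_A2)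
    (hl : l ∈ Poly p1_S3) :
    k ^ 2 + l ^ 2 - 2 * k * l * (64 * z ^ 7 - 112 * z ^ 5 + 56 * z ^ 3 - 7 * z) + (z * (64 * z ^ 6 -
        80 * z ^ 4 + 24 * z ^ 2 - 1)) ^ 2 ≠ 0 := by
  have h := edge_use rpF7mn (E := L1_7as) (V0 := dum) (V1 := n1_A2) (V2 := n1_S3) (fun e he => by
    simp only [L1_7as, List.mem_cons, List.not_mem_nil, or_false] at he
    rcases he with rfl | rfl | rfl | rfl | rfl | rfl | rfl
    exacts [⟨_, ok1_7as_0⟩, ⟨_, ok1_7as_1⟩, ⟨_, ok1_7as_2⟩, ⟨_, ok1_7as_3⟩, ⟨_, ok1_7as_4⟩, ⟨_,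
        ok1_7as_5⟩, ⟨_, ok1_7as_6⟩]) (V := v1_7as) (by decide) hz zero_dum (rg1_A2 hk) (rg1_S3 hl)
  rw [evF7mn (mr_true k) (mr_false l)] at h
  exact fun h0 => h (by rw [h0, mul_zero])

/-- edges -/
def L1_7zz : List ((ℕ × ℕ) × (ℕ × ℕ)) :=
  [((14416, 672), (14528, 608)), ((14528, 608), (14672, 656)), ((14672, 656), (14784, 768)),
      ((14784, 768), (14624, 864)), ((14624, 864), (14480, 896)), ((14480, 896), (14416, 864)),
      ((14416, 864), (14416, 672))]

/-- tree -/
def T1_7zz_0 : CT :=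
  .rel1 [(13280, 5280), (12320, 5280), (10560, 3680), (10560, 1840), (12800, 0), (17900, 0)] (.rel2
      [(13280, 5280), (12320, 5280), (10560, 3680), (10560, 1840), (12800, 0), (17900, 0)] (.rel1
      [(10560, 3680), (10560, 1840), (12800, 0), (17900, 0), (12853, 5768)] (.rel2 [(10560, 3680),
      (10560, 1840), (12800, 0), (17900, 0), (12853, 5768)] (.rel1 [(10560, 1840), (12800, 0),
      (17900, 0), (10559, 8390)] (.leaf ⟨37, 0, 0, 15⟩)))))

theorem ok1_7zz_0 :
    chkT cF7nn cF7nn T1_7zz_0 (14416, 672) (14528, 608) dum n1_Z n1_Z = true := by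
  decide +kernel

/-- tree -/
def T1_7zz_1 : CT :=
  .rel1 [(13280, 5280), (12320, 5280), (10560, 3680), (10560, 1840), (12800, 0), (17900, 0)] (.rel2
      [(13280, 5280), (12320, 5280), (10560, 3680), (10560, 1840), (12800, 0), (17900, 0)] (.rel1
      [(10560, 3680), (10560, 1840), (12800, 0), (17900, 0), (12853, 5768)] (.rel2 [(10560, 3680),
      (10560, 1840), (12800, 0), (17900, 0), (12853, 5768)] (.rel1 [(10560, 1840), (12800, 0),
      (17900, 0), (10559, 8390)] (.rel2 [(10560, 1840), (12800, 0), (17900, 0), (10559, 8390)]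
      (.leaf ⟨3, 0, 0, 4⟩))))))

theorem ok1_7zz_1 :
    chkT cF7nn cF7nn T1_7zz_1 (14528, 608) (14672, 656) dum n1_Z n1_Z = true := by
  decide +kernel

/-- tree -/
def T1_7zz_2 : CT :=
  .rel1 [(12320, 5280), (10560, 3680), (10560, 1840), (12800, 0), (16000, 0), (13888, 5280)] (.rel2
      [(12320, 5280), (10560, 3680), (10560, 1840), (12800, 0), (16000, 0), (13888, 5280)] (.rel1
      [(10560, 1840), (12800, 0), (16000, 0), (13888, 5280), (10559, 5280)] (.rel2 [(10560, 1840),
      (12800, 0), (16000, 0), (13888, 5280), (10559, 5280)] (.rel1 [(12800, 0), (16000, 0), (13888,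
      5280), (6371, 5280)] (.rel2 [(16000, 0), (10556, 13610), (10559, 0)] (.leaf ⟨1, 0, 0, 8⟩))))))

theorem ok1_7zz_2 :
    chkT cF7nn cF7nn T1_7zz_2 (14672, 656) (14784, 768) dum n1_Z n1_Z = true := by
  decide +kernel

/-- tree -/
def T1_7zz_3 : CT :=
  .seg (14704, 816) (.rel1 [(12800, 0), (16000, 0), (14400, 4000), (13280, 5280), (12320, 5280),
      (9495, 2712)] (.rel2 [(16000, 0), (14400, 4000), (13280, 5280), (12320, 5280), (10560, 3680),
      (10559, 0)] (.rel1 [(9495, 2712), (12800, 0), (16000, 0), (14400, 4000), (12853, 5768)] (.rel2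
      [(10560, 3680), (10559, 0), (16000, 0), (14400, 4000), (12853, 5768)] (.rel1 [(16000, 0),
      (14400, 4000), (12853, 5768), (6513, 0)] (.rel2 [(16000, 0), (14400, 4000), (12853, 5768),
      (6517, 0)] (.rel1 [(6513, 0), (16000, 0), (13468, 6330)] (.rel2 [(6517, 0), (16000, 0),
      (13468, 6330)] (.leaf ⟨0, 39, 9, 0⟩))))))))) (.rel1 [(16000, 0), (14400, 4000), (13280, 5280),
      (12320, 5280), (10560, 3680), (10559, 0)] (.rel2 [(16000, 0), (14400, 4000), (13280, 5280),
      (12320, 5280), (10560, 3680), (10559, 0)] (.rel1 [(10560, 3680), (10559, 0), (16000, 0),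
      (14400, 4000), (12853, 5768)] (.rel2 [(10559, 0), (16000, 0), (14400, 4000), (13280, 5280),
      (10559, 5280)] (.rel1 [(16000, 0), (14400, 4000), (12853, 5768), (6517, 0)] (.rel2 [(10559,
      0), (16000, 0), (14400, 4000), (10558, 8391)] (.rel1 [(6517, 0), (16000, 0), (13468, 6330)]
      (.leaf ⟨0, 11, 5, 0⟩))))))))

theorem ok1_7zz_3 :
    chkT cF7nn cF7nn T1_7zz_3 (14784, 768) (14624, 864) dum n1_Z n1_Z = true := by
  decide +kernel

/-- tree -/
def T1_7zz_4 : CT :=
  .rel1 [(10560, 1840), (12800, 0), (16000, 0), (14400, 4000), (13280, 5280), (10559, 5280)] (.rel2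
      [(16000, 0), (14400, 4000), (13280, 5280), (12320, 5280), (10560, 3680), (10559, 0)] (.rel1
      [(16000, 0), (14400, 4000), (13280, 5280), (10559, 5280), (10559, 0)] (.rel2 [(10559, 0),
      (16000, 0), (14400, 4000), (13280, 5280), (10559, 5280)] (.rel1 [(10559, 0), (16000, 0),
      (14400, 4000), (10558, 8391)] (.rel2 [(10559, 0), (16000, 0), (14400, 4000), (10558, 8391)]
      (.leaf ⟨0, 47, 65, 0⟩))))))

theorem ok1_7zz_4 :
    chkT cF7nn cF7nn T1_7zz_4 (14624, 864) (14480, 896) dum n1_Z n1_Z = true := by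
  decide +kernel

/-- tree -/
def T1_7zz_5 : CT :=
  .rel1 [(13280, 5280), (12320, 5280), (10560, 3680), (10560, 1840), (12800, 0), (17900, 0)] (.rel2
      [(16000, 0), (14400, 4000), (13280, 5280), (12320, 5280), (10560, 3680), (10559, 0)] (.rel1
      [(17900, 0), (13280, 5280), (12320, 5280), (10560, 3680), (10559, 0)] (.rel2 [(13280, 5280),
      (12320, 5280), (10560, 3680), (10559, 0), (17900, 0)] (.rel1 [(17900, 0), (13280, 5280),
      (12320, 5280), (6511, 0)] (.rel2 [(17900, 0), (13280, 5280), (12320, 5280), (6511, 0)] (.leaf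
      ⟨1, 0, 3, 0⟩))))))

theorem ok1_7zz_5 :
    chkT cF7nn cF7nn T1_7zz_5 (14480, 896) (14416, 864) dum n1_Z n1_Z = true := by
  decide +kernel

/-- tree -/
def T1_7zz_6 : CT :=
  .rel1 [(16000, 0), (14400, 4000), (13280, 5280), (12320, 5280), (10560, 3680), (10559, 0)] (.rel2
      [(16000, 0), (14400, 4000), (13280, 5280), (12320, 5280), (10560, 3680), (10559, 0)] (.rel1
      [(13280, 5280), (12320, 5280), (10560, 3680), (10559, 0), (17900, 0)] (.rel2 [(13280, 5280),
      (12320, 5280), (10560, 3680), (10559, 0), (17900, 0)] (.rel1 [(10560, 3680), (10559, 0),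
      (17900, 0), (12853, 5768)] (.rel2 [(10560, 3680), (10559, 0), (17900, 0), (12853, 5768)]
      (.leaf ⟨11, 0, 5, 0⟩))))))

theorem ok1_7zz_6 :
    chkT cF7nn cF7nn T1_7zz_6 (14416, 864) (14416, 672) dum n1_Z n1_Z = true := by
  decide +kernel

theorem fr1_7zz {z k l : ℂ} (hz : OnE v1_7zz z) (hk : k ∈ Poly p1_Z)
    (hl : l ∈ Poly p1_Z) :
    k ^ 2 + l ^ 2 - 2 * k * l * (64 * z ^ 7 - 112 * z ^ 5 + 56 * z ^ 3 - 7 * z) + (z * (64 * z ^ 6 -
        80 * z ^ 4 + 24 * z ^ 2 - 1)) ^ 2 ≠ 0 := by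
  have h := edge_use rpF7nn (E := L1_7zz) (V0 := dum) (V1 := n1_Z) (V2 := n1_Z) (fun e he => by
    simp only [L1_7zz, List.mem_cons, List.not_mem_nil, or_false] at he
    rcases he with rfl | rfl | rfl | rfl | rfl | rfl | rfl
    exacts [⟨_, ok1_7zz_0⟩, ⟨_, ok1_7zz_1⟩, ⟨_, ok1_7zz_2⟩, ⟨_, ok1_7zz_3⟩, ⟨_, ok1_7zz_4⟩, ⟨_,
        ok1_7zz_5⟩, ⟨_, ok1_7zz_6⟩]) (V := v1_7zz) (by decide) hz zero_dum (rg1_Z hk) (rg1_Z hl)
  rw [evF7nn (mr_false k) (mr_false l)] at h
  exact fun h0 => h (by rw [h0, mul_zero])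

/-- edges -/
def L1_7zs : List ((ℕ × ℕ) × (ℕ × ℕ)) :=
  [((14416, 592), (14640, 640)), ((14640, 640), (14752, 768)), ((14752, 768), (14560, 944)),
      ((14560, 944), (14384, 1056)), ((14384, 1056), (14256, 960)), ((14256, 960), (14256, 688)),
      ((14256, 688), (14416, 592))]

/-- tree -/
def T1_7zs_0 : CT :=
  .rel1 [(13280, 5280), (12320, 5280), (10560, 3680), (10560, 1840), (12800, 0), (17900, 0)] (.rel2
      [(13296, 10800), (11728, 10800), (8448, 8048), (8016, 5024), (8016, 3840), (12112, 608),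
      (15859, 608)] (.rel1 [(10560, 3680), (10560, 1840), (12800, 0), (17900, 0), (12853, 5768)]
      (.rel2 [(8448, 8048), (8016, 5024), (8016, 3840), (12112, 608), (15859, 608), (13023, 11887)]
      (.rel1 [(10560, 1840), (12800, 0), (17900, 0), (10559, 8390)] (.rel2 [(8016, 3840), (12112,
      608), (15859, 608), (13023, 11887), (8015, 7685)] (.leaf ⟨6, 0, 0, 10⟩))))))

theorem ok1_7zs_0 :
    chkT cF7nn cF7nn T1_7zs_0 (14416, 592) (14640, 640) dum n1_Z n1_S3 = true := by
  decide +kernel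

/-- tree -/
def T1_7zs_1 : CT :=
  .rel1 [(10560, 3680), (10560, 1840), (12800, 0), (16000, 0), (14400, 4000), (12853, 5768)] (.rel2
      [(8448, 8048), (8016, 5024), (8016, 3840), (12112, 608), (14880, 608), (13984, 8064), (13023,
      11887)] (.rel1 [(12800, 0), (16000, 0), (14400, 4000), (12853, 5768), (9496, 2712)] (.rel2
      [(8016, 3840), (12112, 608), (14880, 608), (13984, 8064), (13023, 11887), (8015, 7685)] (.rel1
      [(9496, 2712), (12800, 0), (16000, 0), (13468, 6330)] (.rel2 [(12112, 608), (14880, 608),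
      (13984, 8064), (13023, 11887), (5652, 5703)] (.rel1 [(16000, 0), (13468, 6330), (6517, 0)]
      (.rel2 [(5652, 5703), (12112, 608), (14880, 608), (13479, 12270)] (.leaf ⟨0, 0, 0, 1⟩))))))))

theorem ok1_7zs_1 :
    chkT cF7nn cF7nn T1_7zs_1 (14640, 640) (14752, 768) dum n1_Z n1_S3 = true := by
  decide +kernel

/-- tree -/
def T1_7zs_2 : CT :=
  .seg (14656, 856) (.cut2 true 5696 [(8016, 3840), (12112, 608), (14880, 608), (14269, 5696),
      (8112, 5696), (8016, 5024)] [(14269, 5696), (13984, 8064), (13296, 10800), (11728, 10800),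
      (8448, 8048), (8112, 5696)] (.rel1 [(16000, 0), (14400, 4000), (13280, 5280), (12320, 5280),
      (10560, 3680), (10559, 0)] (.rel2 [(14880, 608), (14269, 5696), (8112, 5696), (8016, 5024),
      (8015, 607)] (.rel1 [(12320, 5280), (10560, 3680), (10559, 0), (16000, 0), (13888, 5280)]
      (.rel2 [(8015, 607), (14880, 608), (14269, 5696), (8015, 5696)] (.rel1 [(10559, 0), (16000,
      0), (10559, 13603)] (.leaf ⟨0, 79, 13, 0⟩)))))) (.rel1 [(10560, 1840), (12800, 0), (16000, 0),
      (14400, 4000), (13280, 5280), (10559, 5280)] (.rel2 [(8448, 8048), (8112, 5696), (14269,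
      5696), (13984, 8064), (13023, 11887)] (.rel1 [(10559, 5280), (10560, 1840), (12800, 0),
      (16000, 0), (13888, 5280)] (.rel2 [(8448, 8048), (8112, 5696), (14269, 5696), (13478, 12269)]
      (.rel1 [(10560, 1840), (12800, 0), (16000, 0), (10556, 13610)] (.rel2 [(14269, 5696), (13478,
      12269), (5644, 5695)] (.rel1 [(16000, 0), (10556, 13610), (10559, 0)] (.leaf ⟨0, 1, 0,
      2⟩))))))))) (.rel1 [(16000, 0), (14400, 4000), (13280, 5280), (12320, 5280), (10560, 3680),
      (10559, 0)] (.rel2 [(14880, 608), (13984, 8064), (13296, 10800), (11728, 10800), (8448, 8048),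
      (8016, 5024), (8015, 607)] (.rel1 [(12320, 5280), (10560, 3680), (10559, 0), (16000, 0),
      (13888, 5280)] (.rel2 [(8016, 5024), (8015, 607), (14880, 608), (13984, 8064), (13296, 10800),
      (8840, 10800)] (.rel1 [(10559, 0), (16000, 0), (13888, 5280), (10559, 5280)] (.rel2 [(14880,
      608), (13984, 8064), (13296, 10800), (8840, 10800), (7384, 605)] (.rel1 [(10559, 0), (16000,
      0), (10559, 13603)] (.leaf ⟨0, 37, 15, 0⟩))))))))

theorem ok1_7zs_2 :
    chkT cF7nn cF7nn T1_7zs_2 (14752, 768) (14560, 944) dum n1_Z n1_S3 = true := by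
  decide +kernel

/-- tree -/
def T1_7zs_3 : CT :=
  .cut2 true 5696 [(8016, 3840), (12112, 608), (14880, 608), (14269, 5696), (8112, 5696), (8016,
      5024)] [(14269, 5696), (13984, 8064), (13296, 10800), (11728, 10800), (8448, 8048), (8112,
      5696)] (.rel1 [(16000, 0), (14400, 4000), (13280, 5280), (12320, 5280), (10560, 3680), (10559,
      0)] (.rel2 [(14880, 608), (14269, 5696), (8112, 5696), (8016, 5024), (8015, 607)] (.rel1
      [(10559, 0), (16000, 0), (14400, 4000), (13280, 5280), (10559, 5280)] (.rel2 [(8015, 607),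
      (14880, 608), (14269, 5696), (8015, 5696)] (.rel1 [(10559, 0), (16000, 0), (10559, 13603)]
      (.leaf ⟨0, 2, 2, 0⟩)))))) (.seg (14472, 1000) (.rel1 [(16000, 0), (14400, 4000), (13280,
      5280), (12320, 5280), (10560, 3680), (10559, 0)] (.rel2 [(13296, 10800), (11728, 10800),
      (8448, 8048), (8112, 5696), (14580, 5695)] (.rel1 [(10560, 3680), (10559, 0), (16000, 0),
      (14400, 4000), (12853, 5768)] (.rel2 [(8112, 5696), (14580, 5695), (13296, 10800), (8840,
      10800)] (.rel1 [(6517, 0), (16000, 0), (13468, 6330)] (.leaf ⟨0, 2, 2, 0⟩)))))) (.rel1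
      [(16000, 0), (14400, 4000), (13280, 5280), (12320, 5280), (10560, 3680), (10559, 0)] (.rel2
      [(13296, 10800), (11728, 10800), (8448, 8048), (8112, 5696), (14580, 5695)] (.rel1 [(10559,
      0), (16000, 0), (14400, 4000), (13280, 5280), (10559, 5280)] (.rel2 [(8112, 5696), (14580,
      5695), (13296, 10800), (8840, 10800)] (.rel1 [(10559, 0), (16000, 0), (14400, 4000), (10558,
      8391)] (.leaf ⟨0, 3, 4, 0⟩)))))))

theorem ok1_7zs_3 :
    chkT cF7nn cF7nn T1_7zs_3 (14560, 944) (14384, 1056) dum n1_Z n1_S3 = true := by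
  decide +kernel

/-- tree -/
def T1_7zs_4 : CT :=
  .rel1 [(16000, 0), (14400, 4000), (13280, 5280), (12320, 5280), (10560, 3680), (10559, 0)] (.rel2
      [(14880, 608), (13984, 8064), (13296, 10800), (11728, 10800), (8448, 8048), (8016, 5024),
      (8015, 607)] (.rel1 [(13280, 5280), (12320, 5280), (10560, 3680), (10559, 0), (17900, 0)]
      (.rel2 [(13296, 10800), (11728, 10800), (8448, 8048), (8016, 5024), (8015, 607), (15859, 608)]
      (.rel1 [(17900, 0), (13280, 5280), (12320, 5280), (6511, 0)] (.rel2 [(8015, 607), (15859,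
      608), (13296, 10800), (8014, 10800)] (.leaf ⟨3, 0, 4, 0⟩))))))

theorem ok1_7zs_4 :
    chkT cF7nn cF7nn T1_7zs_4 (14384, 1056) (14256, 960) dum n1_Z n1_S3 = true := by
  decide +kernel

/-- tree -/
def T1_7zs_5 : CT :=
  .rel1 [(16000, 0), (14400, 4000), (13280, 5280), (12320, 5280), (10560, 3680), (10559, 0)] (.rel2
      [(14880, 608), (13984, 8064), (13296, 10800), (11728, 10800), (8448, 8048), (8016, 5024),
      (8015, 607)] (.rel1 [(13280, 5280), (12320, 5280), (10560, 3680), (10559, 0), (17900, 0)]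
      (.rel2 [(13296, 10800), (11728, 10800), (8448, 8048), (8016, 5024), (8015, 607), (15859, 608)]
      (.rel1 [(10560, 3680), (10559, 0), (17900, 0), (12853, 5768)] (.rel2 [(8448, 8048), (7383,
      605), (15859, 608), (13023, 11887)] (.leaf ⟨79, 0, 13, 0⟩))))))

theorem ok1_7zs_5 :
    chkT cF7nn cF7nn T1_7zs_5 (14256, 960) (14256, 688) dum n1_Z n1_S3 = true := by
  decide +kernel

/-- tree -/
def T1_7zs_6 : CT :=
  .rel1 [(13280, 5280), (12320, 5280), (10560, 3680), (10560, 1840), (12800, 0), (17900, 0)] (.rel2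
      [(13296, 10800), (11728, 10800), (8448, 8048), (8016, 5024), (8016, 3840), (12112, 608),
      (15859, 608)] (.rel1 [(10560, 3680), (10560, 1840), (12800, 0), (17900, 0), (12853, 5768)]
      (.rel2 [(8448, 8048), (8016, 5024), (8016, 3840), (12112, 608), (15859, 608), (13023, 11887)]
      (.rel1 [(17900, 0), (12853, 5768), (10560, 3680), (10559, 0)] (.leaf ⟨75, 0, 0, 28⟩)))))

theorem ok1_7zs_6 :
    chkT cF7nn cF7nn T1_7zs_6 (14256, 688) (14416, 592) dum n1_Z n1_S3 = true := by
  decide +kernel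

theorem fr1_7zs {z k l : ℂ} (hz : OnE v1_7zs z) (hk : k ∈ Poly p1_Z)
    (hl : l ∈ Poly p1_S3) :
    k ^ 2 + l ^ 2 - 2 * k * l * (64 * z ^ 7 - 112 * z ^ 5 + 56 * z ^ 3 - 7 * z) + (z * (64 * z ^ 6 -
        80 * z ^ 4 + 24 * z ^ 2 - 1)) ^ 2 ≠ 0 := by
  have h := edge_use rpF7nn (E := L1_7zs) (V0 := dum) (V1 := n1_Z) (V2 := n1_S3) (fun e he => by
    simp only [L1_7zs, List.mem_cons, List.not_mem_nil, or_false] at he
    rcases he with rfl | rfl | rfl | rfl | rfl | rfl | rfl
    exacts [⟨_, ok1_7zs_0⟩, ⟨_, ok1_7zs_1⟩, ⟨_, ok1_7zs_2⟩, ⟨_, ok1_7zs_3⟩, ⟨_, ok1_7zs_4⟩, ⟨_,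
        ok1_7zs_5⟩, ⟨_, ok1_7zs_6⟩]) (V := v1_7zs) (by decide) hz zero_dum (rg1_Z hk) (rg1_S3 hl)
  rw [evF7nn (mr_false k) (mr_false l)] at h
  exact fun h0 => h (by rw [h0, mul_zero])

/-- edges -/
def L1_7ss : List ((ℕ × ℕ) × (ℕ × ℕ)) :=
  [((14288, 544), (14656, 656)), ((14656, 656), (14736, 752)), ((14736, 752), (14240, 1216)),
      ((14240, 1216), (14144, 1152)), ((14144, 1152), (14112, 1072)), ((14112, 1072), (14064, 784)),
      ((14064, 784), (14288, 544))]

/-- tree -/
def T1_7ss_0 : CT :=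
  .cut1 true 5696 [(8016, 3840), (12112, 608), (14880, 608), (14269, 5696), (8112, 5696), (8016,
      5024)] [(14269, 5696), (13984, 8064), (13296, 10800), (11728, 10800), (8448, 8048), (8112,
      5696)] (.cut2 true 5696 [(8016, 3840), (12112, 608), (14880, 608), (14269, 5696), (8112,
      5696), (8016, 5024)] [(14269, 5696), (13984, 8064), (13296, 10800), (11728, 10800), (8448,
      8048), (8112, 5696)] (.cut1 true 3152 [(8887, 3152), (12112, 608), (14880, 608), (14575,
      3152)] [(8016, 3840), (8887, 3152), (14575, 3152), (14269, 5696), (8112, 5696), (8016, 5024)]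
      (.cut1 true 1872 [(10509, 1872), (12112, 608), (14880, 608), (14729, 1872)] [(8887, 3152),
      (10509, 1872), (14729, 1872), (14575, 3152)] (.rel2 [(12112, 608), (14880, 608), (11457,
      29113), (7863, 3958)] (.leaf ⟨4, 0, 0, 7⟩)) (.rel2 [(8016, 3840), (12112, 608), (14880, 608),
      (8016, 57768)] (.leaf ⟨5, 0, 0, 11⟩))) (.rel1 [(8016, 3840), (8887, 3152), (14575, 3152),
      (14269, 5696), (8015, 5696)] (.rel2 [(8016, 3840), (12112, 608), (14880, 608), (8016, 57768)]
      (.leaf ⟨2, 0, 0, 5⟩)))) (.rel1 [(8016, 5024), (8016, 3840), (12112, 608), (14880, 608),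
      (11457, 29113)] (.rel2 [(8112, 5696), (14269, 5696), (13984, 8064), (13296, 10800), (8840,
      10800)] (.rel1 [(12112, 608), (14880, 608), (11457, 29113), (7863, 3958)] (.rel2 [(13296,
      10800), (8840, 10800), (8112, 5696), (14580, 5695)] (.leaf ⟨1, 0, 0, 2⟩)))))) (.rel1 [(13296,
      10800), (11728, 10800), (8448, 8048), (8112, 5696), (14580, 5695)] (.rel2 [(13296, 10800),
      (11728, 10800), (8448, 8048), (8016, 5024), (8016, 3840), (12112, 608), (15859, 608)] (.rel1
      [(8448, 8048), (8112, 5696), (14580, 5695), (13023, 11887)] (.rel2 [(8448, 8048), (8016,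
      5024), (8016, 3840), (12112, 608), (15859, 608), (13023, 11887)] (.rel1 [(8112, 5696), (14580,
      5695), (10455, 22100)] (.rel2 [(12112, 608), (15859, 608), (13023, 11887), (5652, 5703)]
      (.leaf ⟨0, 0, 0, 1⟩)))))))

theorem ok1_7ss_0 :
    chkT cF7nn cF7nn T1_7ss_0 (14288, 544) (14656, 656) dum n1_S3 n1_S3 = true := by
  decide +kernel

/-- tree -/
def T1_7ss_1 : CT :=
  .rel1 [(8448, 8048), (8016, 5024), (8016, 3840), (12112, 608), (14880, 608), (13984, 8064),
      (13023, 11887)] (.rel2 [(11728, 10800), (8448, 8048), (8016, 5024), (8016, 3840), (12112,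
      608), (14880, 608), (13655, 10802)] (.rel1 [(8016, 3840), (12112, 608), (14880, 608), (13984,
      8064), (13023, 11887), (8015, 7685)] (.rel2 [(8016, 5024), (8016, 3840), (12112, 608), (14880,
      608), (13655, 10802), (8839, 10798)] (.rel1 [(8015, 7685), (8016, 3840), (12112, 608), (14880,
      608), (13479, 12270)] (.rel2 [(12112, 608), (14880, 608), (13655, 10802), (8839, 10798),
      (7863, 3958)] (.rel1 [(12112, 608), (14880, 608), (13479, 12270), (5652, 5703)] (.rel2 [(7383,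
      607), (14880, 608), (11455, 29110)] (.leaf ⟨0, 0, 0, 1⟩))))))))

theorem ok1_7ss_1 :
    chkT cF7nn cF7nn T1_7ss_1 (14656, 656) (14736, 752) dum n1_S3 n1_S3 = true := by
  decide +kernel

/-- tree -/
def T1_7ss_2 : CT :=
  .seg (14488, 984) (.seg (14612, 868) (.rel1 [(14880, 608), (13984, 8064), (13296, 10800), (11728,
      10800), (8448, 8048), (8016, 5024), (8015, 607)] (.rel2 [(14880, 608), (13984, 8064), (13296,
      10800), (11728, 10800), (8448, 8048), (8016, 5024), (8015, 607)] (.rel1 [(8448, 8048), (8016,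
      5024), (8015, 607), (14880, 608), (13984, 8064), (13023, 11887)] (.rel2 [(8448, 8048), (8016,
      5024), (8015, 607), (14880, 608), (13984, 8064), (13023, 11887)] (.rel1 [(8015, 607), (14880,
      608), (13984, 8064), (13023, 11887), (8015, 7685)] (.rel2 [(8015, 607), (14880, 608), (13984,
      8064), (13023, 11887), (8015, 7685)] (.rel1 [(8015, 607), (14880, 608), (13984, 8064), (8015,
      31810)] (.rel2 [(8015, 607), (14880, 608), (13984, 8064), (8015, 31810)] (.leaf ⟨0, 79, 13,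
      0⟩))))))))) (.rel1 [(14880, 608), (13984, 8064), (13296, 10800), (11728, 10800), (8448, 8048),
      (8016, 5024), (8015, 607)] (.rel2 [(14880, 608), (13984, 8064), (13296, 10800), (11728,
      10800), (8448, 8048), (8016, 5024), (8015, 607)] (.rel1 [(8016, 5024), (8015, 607), (14880,
      608), (13984, 8064), (13296, 10800), (8840, 10800)] (.rel2 [(8016, 5024), (8015, 607), (14880,
      608), (13984, 8064), (13296, 10800), (8840, 10800)] (.rel1 [(14880, 608), (13984, 8064),
      (13296, 10800), (8840, 10800), (7384, 605)] (.rel2 [(14880, 608), (13984, 8064), (13296,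
      10800), (8840, 10800), (7384, 605)] (.leaf ⟨0, 18, 9, 0⟩)))))))) (.seg (14364, 1100) (.rel1
      [(14880, 608), (13984, 8064), (13296, 10800), (11728, 10800), (8448, 8048), (8016, 5024),
      (8015, 607)] (.rel2 [(8016, 3840), (12112, 608), (14880, 608), (13984, 8064), (13296, 10800),
      (11728, 10800), (8015, 7685)] (.rel1 [(14880, 608), (13984, 8064), (13296, 10800), (11728,
      10800), (8448, 8048), (7383, 605)] (.rel2 [(8016, 3840), (12112, 608), (14880, 608), (13984,
      8064), (13296, 10800), (8013, 10800)] (.rel1 [(7383, 605), (14880, 608), (13984, 8064),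
      (13296, 10800), (8840, 10800)] (.rel2 [(14880, 608), (13984, 8064), (13296, 10800), (8013,
      10800), (8016, 607)] (.leaf ⟨0, 29, 28, 0⟩))))))) (.cut1 true 5696 [(8016, 3840), (12112,
      608), (14880, 608), (14269, 5696), (8112, 5696), (8016, 5024)] [(14269, 5696), (13984, 8064),
      (13296, 10800), (11728, 10800), (8448, 8048), (8112, 5696)] (.rel1 [(12112, 608), (14880,
      608), (14269, 5696), (8112, 5696), (7862, 3958)] (.rel2 [(14880, 608), (13984, 8064), (13296,
      10800), (11728, 10800), (8448, 8048), (8016, 5024), (8015, 607)] (.rel1 [(14880, 608), (14269,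
      5696), (8112, 5696), (7379, 607)] (.rel2 [(7383, 605), (15859, 608), (13296, 10800), (8840,
      10800)] (.leaf ⟨0, 0, 1, 0⟩))))) (.cut2 true 5696 [(8016, 3840), (12112, 608), (14880, 608),
      (14269, 5696), (8112, 5696), (8016, 5024)] [(14269, 5696), (13984, 8064), (13296, 10800),
      (11728, 10800), (8448, 8048), (8112, 5696)] (.rel1 [(13296, 10800), (11728, 10800), (8448,
      8048), (8112, 5696), (14580, 5695)] (.rel2 [(14880, 608), (14269, 5696), (8112, 5696), (8016,
      5024), (8015, 607)] (.rel1 [(14580, 5695), (13296, 10800), (11728, 10800), (5644, 5696)]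
      (.rel2 [(14880, 608), (14269, 5696), (8112, 5696), (7383, 605)] (.rel1 [(5644, 5696), (14580,
      5695), (13023, 11887)] (.leaf ⟨0, 0, 1, 0⟩)))))) (.cut1 false 11184 [(11184, 10344), (8448,
      8048), (8112, 5696), (11184, 5696)] [(14269, 5696), (13984, 8064), (13296, 10800), (11728,
      10800), (11184, 10344), (11184, 5696)] (.rel1 [(11184, 5696), (11184, 10344), (5644, 5695)]
      (.rel2 [(13296, 10800), (8840, 10800), (8112, 5696), (14580, 5695)] (.leaf ⟨0, 1, 2, 0⟩)))
      (.cut2 false 11184 [(11184, 10344), (8448, 8048), (8112, 5696), (11184, 5696)] [(14269, 5696),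
      (13984, 8064), (13296, 10800), (11728, 10800), (11184, 10344), (11184, 5696)] (.rel1 [(11184,
      5696), (14269, 5696), (13984, 8064), (13296, 10800), (11183, 10800)] (.rel2 [(11184, 5696),
      (11184, 10344), (5644, 5695)] (.rel1 [(11184, 5696), (14580, 5695), (11181, 19209)] (.leaf ⟨0,
      1, 2, 0⟩)))) (.seg (14302, 1158) (.rel1 [(11184, 5696), (14269, 5696), (13984, 8064), (13296,
      10800), (11183, 10800)] (.rel2 [(11184, 5696), (14269, 5696), (13984, 8064), (13296, 10800),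
      (11183, 10800)] (.rel1 [(13296, 10800), (11183, 10800), (11184, 5696), (14580, 5695)] (.rel2
      [(13296, 10800), (11183, 10800), (11184, 5696), (14580, 5695)] (.leaf ⟨0, 7, 10, 0⟩)))))
      (.rel1 [(11184, 5696), (14269, 5696), (13984, 8064), (13296, 10800), (11183, 10800)] (.rel2
      [(11184, 5696), (14269, 5696), (13984, 8064), (13296, 10800), (11183, 10800)] (.rel1 [(13296,
      10800), (11183, 10800), (11184, 5696), (14580, 5695)] (.rel2 [(13296, 10800), (11183, 10800),
      (11184, 5696), (14580, 5695)] (.leaf ⟨0, 1, 2, 0⟩)))))))))))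

theorem ok1_7ss_2 :
    chkT cF7nn cF7nn T1_7ss_2 (14736, 752) (14240, 1216) dum n1_S3 n1_S3 = true := by
  decide +kernel

/-- tree -/
def T1_7ss_3 : CT :=
  .rel1 [(13296, 10800), (11728, 10800), (8448, 8048), (8016, 5024), (8016, 3840), (12112, 608),
      (15859, 608)] (.rel2 [(8016, 3840), (12112, 608), (14880, 608), (13984, 8064), (13296, 10800),
      (11728, 10800), (8015, 7685)] (.rel1 [(12112, 608), (15859, 608), (13296, 10800), (11728,
      10800), (8448, 8048), (7862, 3958)] (.rel2 [(12112, 608), (14880, 608), (13984, 8064), (13296,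
      10800), (11728, 10800), (5652, 5703)] (.rel1 [(12112, 608), (15859, 608), (13296, 10800),
      (11728, 10800), (5649, 5700)] (.rel2 [(13296, 10800), (11728, 10800), (5652, 5703), (12112,
      608), (15859, 608)] (.leaf ⟨4, 0, 3, 0⟩))))))

theorem ok1_7ss_3 :
    chkT cF7nn cF7nn T1_7ss_3 (14240, 1216) (14144, 1152) dum n1_S3 n1_S3 = true := by
  decide +kernel

/-- tree -/
def T1_7ss_4 : CT :=
  .rel1 [(14880, 608), (13984, 8064), (13296, 10800), (11728, 10800), (8448, 8048), (8016, 5024),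
      (8015, 607)] (.rel2 [(14880, 608), (13984, 8064), (13296, 10800), (11728, 10800), (8448,
      8048), (8016, 5024), (8015, 607)] (.rel1 [(13296, 10800), (11728, 10800), (8448, 8048), (8016,
      5024), (8015, 607), (15859, 608)] (.rel2 [(13296, 10800), (11728, 10800), (8448, 8048), (8016,
      5024), (8015, 607), (15859, 608)] (.rel1 [(15859, 608), (13296, 10800), (11728, 10800), (8448,
      8048), (7383, 605)] (.rel2 [(15859, 608), (13296, 10800), (11728, 10800), (8448, 8048), (7383,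
      605)] (.leaf ⟨1, 0, 0, 0⟩))))))

theorem ok1_7ss_4 :
    chkT cF7nn cF7nn T1_7ss_4 (14144, 1152) (14112, 1072) dum n1_S3 n1_S3 = true := by
  decide +kernel

/-- tree -/
def T1_7ss_5_1 : CT :=
  .rel1 [(12112, 608), (14880, 608), (14269, 5696), (8112, 5696), (7862, 3958)] (.rel2 [(14880,
      608), (13984, 8064), (13296, 10800), (11728, 10800), (8448, 8048), (8016, 5024), (8015, 607)]
      (.rel1 [(14880, 608), (14269, 5696), (8112, 5696), (7379, 607)] (.rel2 [(8448, 8048), (7383,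
      605), (14880, 608), (13479, 12270)] (.leaf ⟨1, 0, 0, 0⟩))))

theorem ok1_7ss_5_q0 :
    chkT cF7nn cF7nn T1_7ss_5_1 (14112, 1072) (14064, 784) dum [(8016, 3840), (12112, 608), (14880,
        608), (14269, 5696), (8112, 5696), (8016, 5024)] n1_S3 = true := by
  decide +kernel

/-- tree -/
def T1_7ss_5_3 : CT :=
  .rel1 [(13296, 10800), (11728, 10800), (8448, 8048), (8112, 5696), (14580, 5695)] (.rel2 [(14880,
      608), (14269, 5696), (8112, 5696), (8016, 5024), (8015, 607)] (.rel1 [(14580, 5695), (13296,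
      10800), (11728, 10800), (5644, 5696)] (.rel2 [(14880, 608), (14269, 5696), (8112, 5696),
      (7383, 605)] (.rel1 [(5644, 5696), (14580, 5695), (13023, 11887)] (.leaf ⟨1, 0, 0, 0⟩)))))

theorem ok1_7ss_5_q1 :
    chkT cF7nn cF7nn T1_7ss_5_3 (14112, 1072) (14064, 784) dum [(14269, 5696), (13984, 8064),
        (13296, 10800), (11728, 10800), (8448, 8048), (8112, 5696)] [(8016, 3840), (12112, 608),
        (14880, 608), (14269, 5696), (8112, 5696), (8016, 5024)] = true := by
  decide +kernel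

/-- tree -/
def T1_7ss_5_7 : CT :=
  .rel2 [(5644, 5696), (14580, 5695), (13023, 11887)] (.leaf ⟨1, 0, 0, 0⟩)

theorem ok1_7ss_5_q2 :
    chkT cF7nn cF7nn T1_7ss_5_7 (14112, 1072) (14064, 784) dum [(8443, 8016), (8112, 5696), (11184,
        5696), (11184, 8016)] [(14269, 5696), (13984, 8064), (13296, 10800), (11728, 10800), (8448,
        8048), (8112, 5696)] = true := by
  decide +kernel

/-- tree -/
def T1_7ss_5_11 : CT :=
  .rel1 [(11184, 8016), (11184, 10344), (8408, 8015)] (.leaf ⟨1, 0, 0, 0⟩)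

theorem ok1_7ss_5_q3 :
    chkT cF7nn cF7nn T1_7ss_5_11 (14112, 1072) (14064, 784) dum [(11184, 10344), (8448, 8048),
        (8443, 8016), (11184, 8016)] [(8443, 8016), (8112, 5696), (11184, 5696), (11184, 8016)] =
        true := by
  decide +kernel

/-- tree -/
def T1_7ss_5_13 : CT :=
  .cut2 false 9808 [(9808, 9190), (8448, 8048), (8443, 8016), (9808, 8016)] [(11184, 10344), (9808,
      9190), (9808, 8016), (11184, 8016)] (.rel1 [(9808, 8016), (9808, 9190), (8408, 8015)] (.rel2
      [(9808, 8016), (9808, 9190), (8408, 8015)] (.leaf ⟨1, 0, 0, 0⟩))) (.seg (14088, 928) (.rel1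
      [(9808, 8016), (9808, 9190), (8408, 8015)] (.rel2 [(11184, 8016), (11184, 10344), (8407,
      8016)] (.leaf ⟨1, 0, 0, 0⟩))) (.seg (14076, 856) (.cut1 false 9120 [(9120, 8613), (8448,
      8048), (8443, 8016), (9120, 8016)] [(9808, 9190), (9120, 8613), (9120, 8016), (9808, 8016)]
      (.rel1 [(9120, 8016), (9120, 8613), (8408, 8015)] (.rel2 [(11184, 8016), (11184, 10344),
      (8407, 8016)] (.leaf ⟨1, 0, 0, 0⟩))) (.cut2 false 10496 [(10496, 9767), (9808, 9190), (9808,
      8016), (10496, 8016)] [(11184, 10344), (10496, 9767), (10496, 8016), (11184, 8016)] (.rel1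
      [(9808, 8016), (9808, 9190), (8407, 8016)] (.rel2 [(10496, 8016), (10496, 9767), (8407,
      8016)] (.leaf ⟨1, 0, 0, 0⟩))) (.rel1 [(9808, 8016), (9808, 9190), (8407, 8016)] (.rel2
      [(11184, 8016), (11184, 10344), (8407, 8016)] (.leaf ⟨1, 0, 0, 0⟩))))) (.rel1 [(9808, 8016),
      (9808, 9190), (8408, 8015)] (.leaf ⟨2, 0, 0, 2⟩))))

theorem ok1_7ss_5_q4 :
    chkT cF7nn cF7nn T1_7ss_5_13 (14112, 1072) (14064, 784) dum [(9808, 9190), (8448, 8048), (8443,
        8016), (9808, 8016)] [(11184, 10344), (8448, 8048), (8443, 8016), (11184, 8016)] = true :=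
        by
  decide +kernel

/-- tree -/
def T1_7ss_5_14 : CT :=
  .cut2 true 9168 [(9782, 9168), (8448, 8048), (8443, 8016), (11184, 8016), (11184, 9168)] [(11184,
      10344), (9782, 9168), (11184, 9168)] (.seg (14088, 928) (.rel1 [(11184, 8016), (11184,
      10344), (8407, 8016)] (.rel2 [(11184, 8016), (11184, 9168), (9782, 9168), (8408, 8015)]
      (.leaf ⟨1, 0, 0, 0⟩))) (.seg (14076, 856) (.cut2 false 9808 [(9782, 9168), (8448, 8048),
      (8443, 8016), (9808, 8016), (9808, 9168)] [(9808, 8016), (11184, 8016), (11184, 9168), (9808,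
      9168)] (.cut1 false 10496 [(10496, 9767), (9808, 9190), (9808, 8016), (10496, 8016)] [(11184,
      10344), (10496, 9767), (10496, 8016), (11184, 8016)] (.rel1 [(10496, 8016), (10496, 9767),
      (8407, 8016)] (.rel2 [(8408, 8015), (9808, 8016), (9808, 9190)] (.leaf ⟨1, 0, 0, 0⟩))) (.rel1
      [(11184, 8016), (11184, 10344), (8407, 8016)] (.rel2 [(8408, 8015), (9808, 8016), (9808,
      9190)] (.leaf ⟨1, 0, 0, 0⟩)))) (.rel1 [(11184, 8016), (11184, 10344), (8407, 8016)] (.leaf
      ⟨1, 0, 0, 0⟩))) (.rel2 [(11184, 8016), (11184, 10346), (8408, 8015)] (.leaf ⟨2, 0, 0, 2⟩))))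
      (.seg (14088, 928) (.cut2 false 10480 [(10480, 9754), (9782, 9168), (10480, 9168)] [(11184,
      10344), (10480, 9754), (10480, 9168), (11184, 9168)] (.seg (14100, 1000) (.rel1 [(11184,
      8016), (11184, 10344), (8407, 8016)] (.leaf ⟨1, 0, 0, 0⟩)) (.cut1 false 10496 [(10496, 9767),
      (9808, 9190), (9808, 8016), (10496, 8016)] [(11184, 10344), (10496, 9767), (10496, 8016),
      (11184, 8016)] (.cut1 true 8880 [(9808, 8880), (9808, 8016), (10496, 8016), (10496, 8880)]
      [(10496, 9767), (9808, 9190), (9808, 8880), (10496, 8880)] (.leaf ⟨1, 0, 0, 0⟩) (.seg (14094,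
      964) (.rel1 [(10496, 8880), (10496, 9767), (9437, 8879)] (.leaf ⟨1, 0, 0, 0⟩)) (.leaf ⟨79, 0,
      0, 13⟩))) (.leaf ⟨79, 0, 0, 13⟩))) (.seg (14100, 1000) (.cut1 true 9168 [(9808, 9168), (9808,
      8016), (11184, 8016), (11184, 9168)] [(11184, 10344), (9808, 9190), (9808, 9168), (11184,
      9168)] (.rel2 [(11184, 9168), (11184, 10344), (9779, 9167)] (.leaf ⟨1, 0, 0, 0⟩)) (.cut1
      false 10496 [(10496, 9767), (9808, 9190), (9808, 9168), (10496, 9168)] [(11184, 10344),
      (10496, 9767), (10496, 9168), (11184, 9168)] (.rel1 [(10496, 9168), (10496, 9767), (9780,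
      9167)] (.rel2 [(11184, 9168), (11184, 10344), (9779, 9167)] (.leaf ⟨1, 0, 0, 0⟩))) (.leaf
      ⟨79, 0, 0, 13⟩))) (.leaf ⟨79, 0, 0, 13⟩))) (.leaf ⟨2, 0, 0, 2⟩))

theorem ok1_7ss_5_q5 :
    chkT cF7nn cF7nn T1_7ss_5_14 (14112, 1072) (14064, 784) dum [(11184, 10344), (9808, 9190),
        (9808, 8016), (11184, 8016)] [(11184, 10344), (8448, 8048), (8443, 8016), (11184, 8016)] =
        true := by
  decide +kernel

/-- tree -/
def T1_7ss_5_12 : CT := .cut1 false 9808 [(9808, 9190), (8448, 8048), (8443, 8016), (9808, 8016)]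
    [(11184, 10344), (9808, 9190), (9808, 8016), (11184, 8016)] T1_7ss_5_13 T1_7ss_5_14

theorem ok1_7ss_5_r6 :
    chkT cF7nn cF7nn T1_7ss_5_12 (14112, 1072) (14064, 784) dum [(11184, 10344), (8448, 8048),
        (8443, 8016), (11184, 8016)] [(11184, 10344), (8448, 8048), (8443, 8016), (11184, 8016)] =
        true :=
  chkT_cut1 (by decide +kernel)
    ok1_7ss_5_q4
    ok1_7ss_5_q5

/-- tree -/
def T1_7ss_5_9 : CT := .cut2 true 8016 [(8443, 8016), (8112, 5696), (11184, 5696), (11184, 8016)]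
    [(11184, 10344), (8448, 8048), (8443, 8016), (11184, 8016)] T1_7ss_5_11 T1_7ss_5_12

theorem ok1_7ss_5_r7 :
    chkT cF7nn cF7nn T1_7ss_5_9 (14112, 1072) (14064, 784) dum [(11184, 10344), (8448, 8048),
        (8443, 8016), (11184, 8016)] [(11184, 10344), (8448, 8048), (8112, 5696), (11184, 5696)] =
        true :=
  chkT_cut2 (by decide +kernel)
    ok1_7ss_5_q3
    ok1_7ss_5_r6

/-- tree -/
def T1_7ss_5_10 : CT :=
  .seg (14088, 928) (.cut2 true 8240 [(14269, 5696), (13984, 8064), (13940, 8240), (11184, 8240),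
      (11184, 5696)] [(13940, 8240), (13296, 10800), (11728, 10800), (11184, 10344), (11184, 8240)]
      (.rel1 [(11184, 8016), (11184, 10344), (8408, 8015)] (.rel2 [(13940, 8240), (11184, 8240),
      (11184, 5696), (14576, 5696)] (.leaf ⟨1, 0, 0, 0⟩))) (.cut2 false 12560 [(12560, 10800),
      (11728, 10800), (11184, 10344), (11184, 8240), (12560, 8240)] [(13940, 8240), (13296, 10800),
      (12560, 10800), (12560, 8240)] (.cut2 true 9520 [(11184, 9520), (11184, 8240), (12560, 8240),
      (12560, 9520)] [(12560, 10800), (11728, 10800), (11184, 10344), (11184, 9520), (12560, 9520)]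
      (.rel1 [(11184, 8016), (11184, 10344), (8408, 8015)] (.leaf ⟨1, 0, 0, 0⟩)) (.cut1 false 9808
      [(9808, 9190), (8448, 8048), (8443, 8016), (9808, 8016)] [(11184, 10344), (9808, 9190),
      (9808, 8016), (11184, 8016)] (.seg (14100, 1000) (.rel1 [(9808, 8016), (9808, 9190), (8408,
      8015)] (.rel2 [(10199, 9519), (12560, 9520), (12560, 11498)] (.leaf ⟨1, 0, 0, 0⟩))) (.cut2
      false 11872 [(11872, 10800), (11728, 10800), (11184, 10344), (11184, 9520), (11872, 9520)]
      [(12560, 10800), (11872, 10800), (11872, 9520), (12560, 9520)] (.cut1 false 9120 [(9120,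
      8613), (8448, 8048), (8443, 8016), (9120, 8016)] [(9808, 9190), (9120, 8613), (9120, 8016),
      (9808, 8016)] (.rel1 [(9120, 8016), (9120, 8613), (8408, 8015)] (.rel2 [(11872, 9520),
      (11872, 10921), (10200, 9519)] (.leaf ⟨1, 0, 0, 0⟩))) (.rel2 [(11184, 10344), (11184, 9520),
      (11872, 9520), (11872, 10921)] (.leaf ⟨79, 0, 0, 13⟩))) (.rel1 [(9808, 8016), (9808, 9190),
      (8408, 8015)] (.leaf ⟨39, 0, 0, 9⟩)))) (.rel2 [(11184, 10344), (11184, 9520), (12560, 9520),
      (12560, 11498)] (.leaf ⟨79, 0, 0, 13⟩)))) (.rel1 [(11184, 8016), (11184, 10344), (8408,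
      8015)] (.leaf ⟨1, 0, 0, 0⟩)))) (.rel1 [(11184, 8016), (11184, 10344), (8408, 8015)] (.rel2
      [(11184, 10344), (11184, 5696), (14580, 5695), (13023, 11886)] (.leaf ⟨4, 0, 0, 3⟩)))

theorem ok1_7ss_5_q8 :
    chkT cF7nn cF7nn T1_7ss_5_10 (14112, 1072) (14064, 784) dum [(11184, 10344), (8448, 8048),
        (8443, 8016), (11184, 8016)] [(14269, 5696), (13984, 8064), (13296, 10800), (11728, 10800),
        (11184, 10344), (11184, 5696)] = true := by
  decide +kernel

/-- tree -/
def T1_7ss_5_8 : CT := .cut2 false 11184 [(11184, 10344), (8448, 8048), (8112, 5696), (11184,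
    5696)] [(14269, 5696), (13984, 8064), (13296, 10800), (11728, 10800), (11184, 10344), (11184,
    5696)] T1_7ss_5_9 T1_7ss_5_10

theorem ok1_7ss_5_r9 :
    chkT cF7nn cF7nn T1_7ss_5_8 (14112, 1072) (14064, 784) dum [(11184, 10344), (8448, 8048),
        (8443, 8016), (11184, 8016)] [(14269, 5696), (13984, 8064), (13296, 10800), (11728, 10800),
        (8448, 8048), (8112, 5696)] = true :=
  chkT_cut2 (by decide +kernel)
    ok1_7ss_5_r7
    ok1_7ss_5_q8

/-- tree -/
def T1_7ss_5_5 : CT := .cut1 true 8016 [(8443, 8016), (8112, 5696), (11184, 5696), (11184, 8016)]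
    [(11184, 10344), (8448, 8048), (8443, 8016), (11184, 8016)] T1_7ss_5_7 T1_7ss_5_8

theorem ok1_7ss_5_r10 :
    chkT cF7nn cF7nn T1_7ss_5_5 (14112, 1072) (14064, 784) dum [(11184, 10344), (8448, 8048),
        (8112, 5696), (11184, 5696)] [(14269, 5696), (13984, 8064), (13296, 10800), (11728, 10800),
        (8448, 8048), (8112, 5696)] = true :=
  chkT_cut1 (by decide +kernel)
    ok1_7ss_5_q2
    ok1_7ss_5_r9

/-- tree -/
def T1_7ss_5_6 : CT :=
  .cut2 false 11184 [(11184, 10344), (8448, 8048), (8112, 5696), (11184, 5696)] [(14269, 5696),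
      (13984, 8064), (13296, 10800), (11728, 10800), (11184, 10344), (11184, 5696)] (.seg (14088,
      928) (.cut1 true 8240 [(14269, 5696), (13984, 8064), (13940, 8240), (11184, 8240), (11184,
      5696)] [(13940, 8240), (13296, 10800), (11728, 10800), (11184, 10344), (11184, 8240)] (.rel1
      [(13940, 8240), (11184, 8240), (11184, 5696), (14576, 5696)] (.rel2 [(11184, 5696), (11184,
      10344), (5644, 5695)] (.leaf ⟨1, 0, 0, 0⟩))) (.cut1 false 12560 [(12560, 10800), (11728,
      10800), (11184, 10344), (11184, 8240), (12560, 8240)] [(13940, 8240), (13296, 10800), (12560,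
      10800), (12560, 8240)] (.cut1 true 9520 [(11184, 9520), (11184, 8240), (12560, 8240), (12560,
      9520)] [(12560, 10800), (11728, 10800), (11184, 10344), (11184, 9520), (12560, 9520)] (.rel2
      [(11184, 5696), (11184, 10344), (5644, 5695)] (.leaf ⟨1, 0, 0, 0⟩)) (.cut2 true 8016 [(8443,
      8016), (8112, 5696), (11184, 5696), (11184, 8016)] [(11184, 10344), (8448, 8048), (8443,
      8016), (11184, 8016)] (.rel1 [(10199, 9519), (12560, 9520), (12560, 11498)] (.leaf ⟨1, 0, 0,
      0⟩)) (.cut2 false 9808 [(9808, 9190), (8448, 8048), (8443, 8016), (9808, 8016)] [(11184,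
      10344), (9808, 9190), (9808, 8016), (11184, 8016)] (.seg (14100, 1000) (.rel1 [(12560, 9520),
      (12560, 10800), (11728, 10800), (10199, 9519)] (.rel2 [(9808, 8016), (9808, 9190), (8408,
      8015)] (.rel1 [(10199, 9519), (12560, 9520), (12560, 11498)] (.leaf ⟨1, 0, 0, 0⟩)))) (.cut1
      false 11872 [(11872, 10800), (11728, 10800), (11184, 10344), (11184, 9520), (11872, 9520)]
      [(12560, 10800), (11872, 10800), (11872, 9520), (12560, 9520)] (.cut2 false 9120 [(9120,
      8613), (8448, 8048), (8443, 8016), (9120, 8016)] [(9808, 9190), (9120, 8613), (9120, 8016),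
      (9808, 8016)] (.rel1 [(11184, 10344), (11184, 9520), (11872, 9520), (11872, 10921)] (.rel2
      [(9120, 8016), (9120, 8613), (8408, 8015)] (.rel1 [(11872, 9520), (11872, 10921), (10200,
      9519)] (.leaf ⟨1, 0, 0, 0⟩)))) (.rel1 [(11184, 10344), (11184, 9520), (11872, 9520), (11872,
      10921)] (.leaf ⟨79, 0, 0, 13⟩))) (.rel2 [(9808, 8016), (9808, 9190), (8408, 8015)] (.leaf
      ⟨39, 0, 0, 9⟩)))) (.rel1 [(11184, 10344), (11184, 9520), (12560, 9520), (12560, 11498)]
      (.leaf ⟨79, 0, 0, 13⟩))))) (.rel2 [(11184, 5696), (11184, 10344), (5644, 5695)] (.leaf ⟨1, 0,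
      0, 0⟩)))) (.rel1 [(11184, 10344), (11184, 5696), (14269, 5696), (13479, 12268)] (.leaf ⟨4, 0,
      0, 3⟩))) (.rel1 [(11728, 10800), (11184, 10344), (11184, 5696), (14269, 5696), (13655,
      10800)] (.rel2 [(13296, 10800), (11728, 10800), (11184, 10344), (11184, 5696), (14580, 5695)]
      (.rel1 [(11184, 10344), (11184, 5696), (14269, 5696), (13479, 12268)] (.rel2 [(11184, 10344),
      (11184, 5696), (14580, 5695), (13023, 11886)] (.leaf ⟨4, 0, 0, 3⟩)))))

theorem ok1_7ss_5_q11 :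
    chkT cF7nn cF7nn T1_7ss_5_6 (14112, 1072) (14064, 784) dum [(14269, 5696), (13984, 8064),
        (13296, 10800), (11728, 10800), (11184, 10344), (11184, 5696)] [(14269, 5696), (13984,
        8064), (13296, 10800), (11728, 10800), (8448, 8048), (8112, 5696)] = true := by
  decide +kernel

/-- tree -/
def T1_7ss_5_4 : CT := .cut1 false 11184 [(11184, 10344), (8448, 8048), (8112, 5696), (11184,
    5696)] [(14269, 5696), (13984, 8064), (13296, 10800), (11728, 10800), (11184, 10344), (11184,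
    5696)] T1_7ss_5_5 T1_7ss_5_6

theorem ok1_7ss_5_r12 :
    chkT cF7nn cF7nn T1_7ss_5_4 (14112, 1072) (14064, 784) dum [(14269, 5696), (13984, 8064),
        (13296, 10800), (11728, 10800), (8448, 8048), (8112, 5696)] [(14269, 5696), (13984, 8064),
        (13296, 10800), (11728, 10800), (8448, 8048), (8112, 5696)] = true :=
  chkT_cut1 (by decide +kernel)
    ok1_7ss_5_r10
    ok1_7ss_5_q11

/-- tree -/
def T1_7ss_5_2 : CT := .cut2 true 5696 [(8016, 3840), (12112, 608), (14880, 608), (14269, 5696),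
    (8112, 5696), (8016, 5024)] [(14269, 5696), (13984, 8064), (13296, 10800), (11728, 10800),
    (8448, 8048), (8112, 5696)] T1_7ss_5_3 T1_7ss_5_4

theorem ok1_7ss_5_r13 :
    chkT cF7nn cF7nn T1_7ss_5_2 (14112, 1072) (14064, 784) dum [(14269, 5696), (13984, 8064),
        (13296, 10800), (11728, 10800), (8448, 8048), (8112, 5696)] n1_S3 = true :=
  chkT_cut2 (by decide +kernel)
    ok1_7ss_5_q1
    ok1_7ss_5_r12

/-- tree -/
def T1_7ss_5 : CT := .cut1 true 5696 [(8016, 3840), (12112, 608), (14880, 608), (14269, 5696),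
    (8112, 5696), (8016, 5024)] [(14269, 5696), (13984, 8064), (13296, 10800), (11728, 10800),
    (8448, 8048), (8112, 5696)] T1_7ss_5_1 T1_7ss_5_2

theorem ok1_7ss_5 :
    chkT cF7nn cF7nn T1_7ss_5 (14112, 1072) (14064, 784) dum n1_S3 n1_S3 = true :=
  chkT_cut1 (by decide +kernel)
    ok1_7ss_5_q0
    ok1_7ss_5_r13

/-- tree -/
def T1_7ss_6 : CT :=
  .cut2 false 11440 [(8016, 3840), (11440, 1138), (11440, 10559), (8448, 8048), (8016, 5024)]
      [(11440, 1138), (12112, 608), (14880, 608), (13984, 8064), (13296, 10800), (11728, 10800),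
      (11440, 10559)] (.cut1 false 11440 [(8016, 3840), (11440, 1138), (11440, 10559), (8448, 8048),
      (8016, 5024)] [(11440, 1138), (12112, 608), (14880, 608), (13984, 8064), (13296, 10800),
      (11728, 10800), (11440, 10559)] (.cut1 false 9728 [(8016, 3840), (9728, 2489), (9728, 9123),
      (8448, 8048), (8016, 5024)] [(9728, 2489), (11440, 1138), (11440, 10559), (9728, 9123)] (.cut2
      false 9728 [(8016, 3840), (9728, 2489), (9728, 9123), (8448, 8048), (8016, 5024)] [(9728,
      2489), (11440, 1138), (11440, 10559), (9728, 9123)] (.cut1 true 5792 [(8016, 3840), (9728,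
      2489), (9728, 5792), (8125, 5792), (8016, 5024)] [(9728, 5792), (9728, 9123), (8448, 8048),
      (8125, 5792)] (.rel1 [(9728, 2489), (9728, 5792), (8125, 5792), (7863, 3958)] (.rel2 [(9728,
      2489), (9728, 9123), (8448, 8048), (7862, 3958)] (.leaf ⟨7, 0, 0, 4⟩))) (.cut1 false 8912
      [(8912, 8438), (8448, 8048), (8125, 5792), (8912, 5792)] [(9728, 5792), (9728, 9123), (8912,
      8438), (8912, 5792)] (.cut2 false 8864 [(8016, 3840), (8864, 3170), (8864, 8398), (8448,
      8048), (8016, 5024)] [(8864, 3170), (9728, 2489), (9728, 9123), (8864, 8398)] (.cut2 true 5776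
      [(8016, 3840), (8864, 3170), (8864, 5776), (8123, 5776), (8016, 5024)] [(8864, 5776), (8864,
      8398), (8448, 8048), (8123, 5776)] (.rel2 [(8864, 3170), (8864, 5776), (8123, 5776), (7863,
      3958)] (.leaf ⟨7, 0, 0, 4⟩)) (.leaf ⟨4, 0, 0, 3⟩)) (.rel1 [(8125, 5792), (8912, 5792), (8912,
      11289)] (.leaf ⟨6, 0, 0, 5⟩))) (.rel2 [(9728, 2489), (9728, 9123), (8448, 8048), (7862, 3958)]
      (.leaf ⟨4, 0, 0, 3⟩)))) (.rel1 [(7862, 3958), (9728, 2489), (9728, 16982)] (.leaf ⟨9, 0, 0,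
      8⟩))) (.rel2 [(11440, 1138), (11440, 10559), (8448, 8048), (7862, 3958)] (.leaf ⟨4, 0, 0,
      3⟩))) (.rel1 [(13296, 10800), (11728, 10800), (11440, 10559), (11440, 1138), (12112, 608),
      (15859, 608)] (.rel2 [(11440, 1138), (11440, 10559), (8448, 8048), (7862, 3958)] (.rel1
      [(11440, 10559), (11440, 1138), (12112, 608), (15859, 608), (13023, 11886)] (.rel2 [(11440,
      1138), (11440, 10559), (5649, 5699)] (.rel1 [(15859, 608), (13023, 11886), (11440, 10559),
      (11439, 607)] (.leaf ⟨4, 0, 0, 3⟩))))))) (.rel1 [(8448, 8048), (8016, 5024), (8016, 3840),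
      (12112, 608), (14880, 608), (13984, 8064), (13023, 11887)] (.rel2 [(13296, 10800), (11728,
      10800), (11440, 10559), (11440, 1138), (12112, 608), (15859, 608)] (.rel1 [(13023, 11887),
      (8448, 8048), (8016, 5024), (8016, 3840), (12112, 608), (15859, 607)] (.rel2 [(11440, 10559),
      (11440, 1138), (12112, 608), (15859, 608), (13023, 11886)] (.rel1 [(12112, 608), (15859, 607),
      (13023, 11887), (8448, 8048), (7862, 3958)] (.rel2 [(15859, 608), (13023, 11886), (11440,
      10559), (11439, 607)] (.rel1 [(15859, 607), (13023, 11887), (8448, 8048), (7381, 608)] (.leaf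
      ⟨7, 0, 0, 4⟩))))))))

theorem ok1_7ss_6 :
    chkT cF7nn cF7nn T1_7ss_6 (14064, 784) (14288, 544) dum n1_S3 n1_S3 = true := by
  decide +kernel

theorem fr1_7ss {z k l : ℂ} (hz : OnE v1_7ss z) (hk : k ∈ Poly p1_S3)
    (hl : l ∈ Poly p1_S3) :
    k ^ 2 + l ^ 2 - 2 * k * l * (64 * z ^ 7 - 112 * z ^ 5 + 56 * z ^ 3 - 7 * z) + (z * (64 * z ^ 6 -
        80 * z ^ 4 + 24 * z ^ 2 - 1)) ^ 2 ≠ 0 := by
  have h := edge_use rpF7nn (E := L1_7ss) (V0 := dum) (V1 := n1_S3) (V2 := n1_S3) (fun e he => by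
    simp only [L1_7ss, List.mem_cons, List.not_mem_nil, or_false] at he
    rcases he with rfl | rfl | rfl | rfl | rfl | rfl | rfl
    exacts [⟨_, ok1_7ss_0⟩, ⟨_, ok1_7ss_1⟩, ⟨_, ok1_7ss_2⟩, ⟨_, ok1_7ss_3⟩, ⟨_, ok1_7ss_4⟩, ⟨_,
        ok1_7ss_5⟩, ⟨_, ok1_7ss_6⟩]) (V := v1_7ss) (by decide) hz zero_dum (rg1_S3 hk) (rg1_S3 hl)
  rw [evF7nn (mr_false k) (mr_false l)] at h
  exact fun h0 => h (by rw [h0, mul_zero])

end Pool.Agent.Work.MP_b30479_gt.G2.SC
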