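import Pool.Agent.Work.MP_b30479_gt.G2.SRefV
import Pool.Agent.Work.MP_b30479_gt.G2.S2CfgB

/-!
# Refined rings, round 2, 7 crossings

Generated certificates (see `S2Cert`).
-/

set_option linter.style.longLine false

namespace Pool.Agent.Work.MP_b30479_gt.G2.SC

open scoped ComplexConjugate

/-- edges -/
def L2_7ea : List ((ℕ × ℕ) × (ℕ × ℕ)) :=
  [((14480, 368), (14496, 272)), ((14496, 272), (14544, 160)), ((14544, 160), (14640, 160)),
      ((14640, 160), (14752, 288)), ((14752, 288), (14512, 448)), ((14512, 448), (14480, 368))]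

/-- tree -/
def T2_7ea_0 : CT :=
  .rel2 [(14512, 0), (16000, 0), (8124, 29701), (6689, 2792)] (.leaf ⟨1, 0, 3, 0⟩)

theorem ok2_7ea_0 :
    chkT cG7m cG7m T2_7ea_0 (14480, 368) (14496, 272) dum dum n2_A2 = true := by
  decide +kernel

/-- tree -/
def T2_7ea_1 : CT :=
  .rel2 [(6752, 3952), (10704, 1360), (14512, 0), (16000, 0), (8124, 29701)] (.leaf ⟨3, 0, 4, 0⟩)

theorem ok2_7ea_1 :
    chkT cG7m cG7m T2_7ea_1 (14496, 272) (14544, 160) dum dum n2_A2 = true := by
  decide +kernel

/-- tree -/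
def T2_7ea_2 : CT :=
  .rel2 [(16000, 0), (12643, 12660), (6912, 6928), (6535, 0)] (.leaf ⟨39, 0, 0, 9⟩)

theorem ok2_7ea_2 :
    chkT cG7m cG7m T2_7ea_2 (14544, 160) (14640, 160) dum dum n2_A2 = true := by
  decide +kernel

/-- tree -/
def T2_7ea_3 : CT :=
  .rel2 [(16000, 0), (13136, 10800), (11312, 10368), (6928, 7255), (6536, 0)] (.leaf ⟨4, 0, 0, 7⟩)

theorem ok2_7ea_3 :
    chkT cG7m cG7m T2_7ea_3 (14640, 160) (14752, 288) dum dum n2_A2 = true := by
  decide +kernel

/-- tree -/
def T2_7ea_4 : CT :=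
  .cut2 false 11376 [(6752, 3952), (10704, 1360), (11376, 1120), (11376, 10384), (11312, 10368),
      (8000, 8016), (6912, 6928)] [(11376, 1120), (14512, 0), (16000, 0), (13136, 10800), (11376,
      10384)] (.rel2 [(3804, 3820), (11376, 1120), (11376, 11394)] (.leaf ⟨0, 1, 0, 0⟩)) (.seg
      (14632, 368) (.rel2 [(16000, 0), (13136, 10800), (11376, 10384), (11375, 0)] (.leaf ⟨0, 19, 0,
      6⟩)) (.rel2 [(16000, 0), (13136, 10800), (11376, 10384), (11375, 0)] (.leaf ⟨0, 39, 0, 9⟩)))

theorem ok2_7ea_4 :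
    chkT cG7m cG7m T2_7ea_4 (14752, 288) (14512, 448) dum dum n2_A2 = true := by
  decide +kernel

/-- tree -/
def T2_7ea_5 : CT :=
  .rel2 [(16000, 0), (8133, 29667), (6536, 0)] (.leaf ⟨0, 0, 1, 0⟩)

theorem ok2_7ea_5 :
    chkT cG7m cG7m T2_7ea_5 (14512, 448) (14480, 368) dum dum n2_A2 = true := by
  decide +kernel

theorem fr2_7ea {z k : ℂ} (hz : OnE v2_7ea z) (hk : conj k ∈ Poly p2_A2) :
    k + Complex.I * z * (64 * z ^ 6 - 80 * z ^ 4 + 24 * z ^ 2 - 1) ≠ 0 := by
  have h := edge_use rpG7m (E := L2_7ea) (V0 := dum) (V1 := dum) (V2 := n2_A2) (fun e he => by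
    simp only [L2_7ea, List.mem_cons, List.not_mem_nil, or_false] at he
    rcases he with rfl | rfl | rfl | rfl | rfl | rfl
    exacts [⟨_, ok2_7ea_0⟩, ⟨_, ok2_7ea_1⟩, ⟨_, ok2_7ea_2⟩, ⟨_, ok2_7ea_3⟩, ⟨_, ok2_7ea_4⟩, ⟨_,
        ok2_7ea_5⟩]) (V := v2_7ea) (by decide) hz zero_dum zero_dum (rg2_A2 hk)
  rw [evG7m (mr_true k)] at h
  exact fun h0 => h (by rw [h0, mul_zero])

/-- edges -/
def L2_7ez : List ((ℕ × ℕ) × (ℕ × ℕ)) :=
  [((14416, 320), (14496, 384)), ((14496, 384), (14528, 448)), ((14528, 448), (14384, 416)),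
      ((14384, 416), (14368, 400)), ((14368, 400), (14416, 320))]

/-- tree -/
def T2_7ez_0 : CT :=
  .rel2 [(14352, 0), (17760, 0), (12892, 3787), (11203, 1931)] (.leaf ⟨4, 0, 0, 7⟩)

theorem ok2_7ez_0 :
    chkT cG7n cG7n T2_7ez_0 (14416, 320) (14496, 384) dum dum n2_Z = true := by
  decide +kernel

/-- tree -/
def T2_7ez_1 : CT :=
  .rel2 [(16000, 0), (11768, 5435), (11240, 0)] (.leaf ⟨0, 0, 0, 1⟩)

theorem ok2_7ez_1 :
    chkT cG7n cG7n T2_7ez_1 (14496, 384) (14528, 448) dum dum n2_Z = true := by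
  decide +kernel

/-- tree -/
def T2_7ez_2 : CT :=
  .rel2 [(9446, 0), (16000, 0), (12977, 3882)] (.leaf ⟨0, 4, 3, 0⟩)

theorem ok2_7ez_2 :
    chkT cG7n cG7n T2_7ez_2 (14528, 448) (14384, 416) dum dum n2_Z = true := by
  decide +kernel

/-- tree -/
def T2_7ez_3 : CT :=
  .rel2 [(9441, 0), (16000, 0), (12978, 3881)] (.leaf ⟨0, 0, 1, 0⟩)

theorem ok2_7ez_3 :
    chkT cG7n cG7n T2_7ez_3 (14384, 416) (14368, 400) dum dum n2_Z = true := by
  decide +kernel

/-- tree -/
def T2_7ez_4 : CT :=
  .rel2 [(17760, 0), (12892, 3787), (9446, 0)] (.leaf ⟨2, 0, 2, 0⟩)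

theorem ok2_7ez_4 :
    chkT cG7n cG7n T2_7ez_4 (14368, 400) (14416, 320) dum dum n2_Z = true := by
  decide +kernel

theorem fr2_7ez {z k : ℂ} (hz : OnE v2_7ez z) (hk : k ∈ Poly p2_Z) :
    k + Complex.I * z * (64 * z ^ 6 - 80 * z ^ 4 + 24 * z ^ 2 - 1) ≠ 0 := by
  have h := edge_use rpG7n (E := L2_7ez) (V0 := dum) (V1 := dum) (V2 := n2_Z) (fun e he => by
    simp only [L2_7ez, List.mem_cons, List.not_mem_nil, or_false] at he
    rcases he with rfl | rfl | rfl | rfl | rfl
    exacts [⟨_, ok2_7ez_0⟩, ⟨_, ok2_7ez_1⟩, ⟨_, ok2_7ez_2⟩, ⟨_, ok2_7ez_3⟩, ⟨_, ok2_7ez_4⟩]) (V :=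
        v2_7ez) (by decide) hz zero_dum zero_dum (rg2_Z hk)
  rw [evG7n (mr_false k)] at h
  exact fun h0 => h (by rw [h0, mul_zero])

/-- edges -/
def L2_7es : List ((ℕ × ℕ) × (ℕ × ℕ)) :=
  [((14224, 288), (14336, 256)), ((14336, 256), (14352, 272)), ((14352, 272), (14448, 416)),
      ((14448, 416), (14192, 544)), ((14192, 544), (14160, 448)), ((14160, 448), (14224, 288))]

/-- tree -/
def T2_7es_0 : CT :=
  .rel2 [(13792, 2480), (14393, 43772), (7997, 3658)] (.leaf ⟨1, 0, 0, 0⟩)

theorem ok2_7es_0 :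
    chkT cG7n cG7n T2_7es_0 (14224, 288) (14336, 256) dum dum n2_S3 = true := by
  decide +kernel

/-- tree -/
def T2_7es_1 : CT :=
  .rel2 [(13792, 2480), (13947, 13110), (5374, 4192)] (.leaf ⟨1, 0, 0, 5⟩)

theorem ok2_7es_1 :
    chkT cG7n cG7n T2_7es_1 (14336, 256) (14352, 272) dum dum n2_S3 = true := by
  decide +kernel

/-- tree -/
def T2_7es_2 : CT :=
  .rel2 [(13792, 2480), (13947, 13110), (5374, 4192)] (.leaf ⟨1, 0, 0, 5⟩)

theorem ok2_7es_2 :
    chkT cG7n cG7n T2_7es_2 (14352, 272) (14448, 416) dum dum n2_S3 = true := by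
  decide +kernel

/-- tree -/
def T2_7es_3 : CT :=
  .cut2 false 11008 [(8160, 4672), (8448, 3568), (11008, 3046), (11008, 10052), (8928, 7888), (8464,
      6576)] [(11008, 3046), (13792, 2480), (13872, 7984), (13088, 10752), (11312, 10368), (11008,
      10052)] (.rel2 [(11008, 3046), (11008, 10052), (5372, 4190)] (.leaf ⟨0, 1, 0, 0⟩)) (.seg
      (14320, 480) (.rel2 [(5370, 4190), (13792, 2480), (13947, 13108)] (.leaf ⟨0, 1, 0, 0⟩)) (.rel2
      [(13792, 2480), (13872, 7984), (12768, 11882), (5370, 4190)] (.leaf ⟨0, 79, 13, 0⟩)))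

theorem ok2_7es_3 :
    chkT cG7n cG7n T2_7es_3 (14448, 416) (14192, 544) dum dum n2_S3 = true := by
  decide +kernel

/-- tree -/
def T2_7es_4 : CT :=
  .rel2 [(15532, 2125), (13088, 10752), (11312, 10368), (5373, 4191)] (.leaf ⟨1, 0, 5, 0⟩)

theorem ok2_7es_4 :
    chkT cG7n cG7n T2_7es_4 (14192, 544) (14160, 448) dum dum n2_S3 = true := by
  decide +kernel

/-- tree -/
def T2_7es_5 : CT :=
  .rel2 [(15532, 2125), (12768, 11883), (5372, 4189)] (.leaf ⟨2, 0, 2, 0⟩)

theorem ok2_7es_5 :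
    chkT cG7n cG7n T2_7es_5 (14160, 448) (14224, 288) dum dum n2_S3 = true := by
  decide +kernel

theorem fr2_7es {z k : ℂ} (hz : OnE v2_7es z) (hk : k ∈ Poly p2_S3) :
    k + Complex.I * z * (64 * z ^ 6 - 80 * z ^ 4 + 24 * z ^ 2 - 1) ≠ 0 := by
  have h := edge_use rpG7n (E := L2_7es) (V0 := dum) (V1 := dum) (V2 := n2_S3) (fun e he => by
    simp only [L2_7es, List.mem_cons, List.not_mem_nil, or_false] at he
    rcases he with rfl | rfl | rfl | rfl | rfl | rfl
    exacts [⟨_, ok2_7es_0⟩, ⟨_, ok2_7es_1⟩, ⟨_, ok2_7es_2⟩, ⟨_, ok2_7es_3⟩, ⟨_, ok2_7es_4⟩, ⟨_,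
        ok2_7es_5⟩]) (V := v2_7es) (by decide) hz zero_dum zero_dum (rg2_S3 hk)
  rw [evG7n (mr_false k)] at h
  exact fun h0 => h (by rw [h0, mul_zero])

/-- edges -/
def L2_7aa : List ((ℕ × ℕ) × (ℕ × ℕ)) :=
  [((14640, 544), (14672, 304)), ((14672, 304), (14800, 256)), ((14800, 256), (15040, 400)),
      ((15040, 400), (14752, 816)), ((14752, 816), (14640, 544))]

/-- tree -/
def T2_7aa_0 : CT :=
  .cut1 true 5392 [(6752, 3952), (10704, 1360), (14512, 0), (16000, 0), (14571, 5392), (6829, 5392)]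
      [(14571, 5392), (13136, 10800), (11312, 10368), (8000, 8016), (6912, 6928), (6829, 5392)]
      (.cut2 true 5392 [(6752, 3952), (10704, 1360), (14512, 0), (16000, 0), (14571, 5392), (6829,
      5392)] [(14571, 5392), (13136, 10800), (11312, 10368), (8000, 8016), (6912, 6928), (6829,
      5392)] (.cut1 false 11376 [(6752, 3952), (10704, 1360), (11376, 1120), (11376, 5392), (6829,
      5392)] [(11376, 1120), (14512, 0), (16000, 0), (14571, 5392), (11376, 5392)] (.cut2 false
      11376 [(6752, 3952), (10704, 1360), (11376, 1120), (11376, 5392), (6829, 5392)] [(11376,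
      1120), (14512, 0), (16000, 0), (14571, 5392), (11376, 5392)] (.cut1 false 9056 [(6752, 3952),
      (9056, 2440), (9056, 5392), (6829, 5392)] [(9056, 2440), (10704, 1360), (11376, 1120), (11376,
      5392), (9056, 5392)] (.cut2 false 9056 [(6752, 3952), (9056, 2440), (9056, 5392), (6829,
      5392)] [(9056, 2440), (10704, 1360), (11376, 1120), (11376, 5392), (9056, 5392)] (.seg (14656,
      424) (.rel1 [(6752, 3952), (9056, 2440), (9056, 47040)] (.rel2 [(6752, 3952), (9056, 2440),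
      (9056, 47040)] (.leaf ⟨0, 0, 1, 0⟩))) (.rel1 [(6752, 3952), (9056, 2440), (9056, 47040)]
      (.rel2 [(6752, 3952), (9056, 2440), (9056, 47040)] (.leaf ⟨3, 0, 20, 0⟩)))) (.rel1 [(6752,
      3952), (9056, 2440), (9056, 47040)] (.leaf ⟨2, 0, 8, 0⟩))) (.cut1 true 3248 [(9056, 2440),
      (10704, 1360), (11376, 1120), (11376, 3248), (9056, 3248)] [(11376, 3248), (11376, 5392),
      (9056, 5392), (9056, 3248)] (.cut2 false 9056 [(6752, 3952), (9056, 2440), (9056, 5392),
      (6829, 5392)] [(9056, 2440), (10704, 1360), (11376, 1120), (11376, 5392), (9056, 5392)] (.rel2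
      [(6752, 3952), (9056, 2440), (9056, 47040)] (.leaf ⟨2, 0, 8, 0⟩)) (.rel1 [(11376, 3248),
      (9056, 3248), (9056, 2440), (11376, 918)] (.rel2 [(11376, 5392), (9056, 5392), (9056, 2440),
      (11376, 918)] (.leaf ⟨2, 0, 5, 0⟩)))) (.rel2 [(11376, 918), (11376, 5392), (4556, 5392)]
      (.leaf ⟨1, 0, 5, 0⟩)))) (.rel1 [(11376, 5392), (6829, 5392), (6752, 3952), (11376, 918)]
      (.rel2 [(11376, 1120), (14512, 0), (16000, 0), (11376, 17448)] (.rel1 [(11376, 918), (11376,
      5392), (4556, 5392)] (.leaf ⟨1, 0, 3, 0⟩))))) (.rel1 [(11376, 1120), (14512, 0), (16000, 0),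
      (11376, 17448)] (.rel2 [(10704, 1360), (14512, 0), (16000, 0), (14571, 5392), (4555, 5392)]
      (.leaf ⟨1, 0, 3, 0⟩)))) (.rel1 [(14512, 0), (16000, 0), (14571, 5392), (6829, 5392), (6689,
      2792)] (.rel2 [(8000, 8016), (6912, 6928), (6829, 5392), (14571, 5392), (12943, 11528)] (.rel1
      [(6689, 2792), (14512, 0), (16000, 0), (8136, 29673)] (.rel2 [(6829, 5392), (14571, 5392),
      (12943, 11528), (6928, 7255)] (.leaf ⟨0, 0, 1, 0⟩)))))) (.rel1 [(8000, 8016), (6912, 6928),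
      (6829, 5392), (14571, 5392), (12943, 11528)] (.rel2 [(8000, 8016), (6912, 6928), (6752, 3952),
      (10704, 1360), (14512, 0), (16000, 0), (12943, 11528)] (.rel1 [(6829, 5392), (14571, 5392),
      (12943, 11528), (6928, 7255)] (.rel2 [(6752, 3952), (10704, 1360), (14512, 0), (16000, 0),
      (12943, 11528), (6928, 7255)] (.rel1 [(14571, 5392), (12943, 11528), (4304, 5391)] (.rel2
      [(6752, 3952), (10704, 1360), (14512, 0), (16000, 0), (8124, 29701)] (.leaf ⟨0, 1, 40,
      0⟩)))))))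

theorem ok2_7aa_0 :
    chkT cF7mm cF7mm T2_7aa_0 (14640, 544) (14672, 304) dum n2_A2 n2_A2 = true := by
  decide +kernel

/-- tree -/
def T2_7aa_1 : CT :=
  .rel1 [(8000, 8016), (6912, 6928), (6752, 3952), (10704, 1360), (14512, 0), (16000, 0), (12943,
      11528)] (.rel2 [(8000, 8016), (6912, 6928), (6752, 3952), (10704, 1360), (14512, 0), (16000,
      0), (12943, 11528)] (.rel1 [(6912, 6928), (6752, 3952), (10704, 1360), (14512, 0), (16000, 0),
      (12643, 12660)] (.rel2 [(6912, 6928), (6752, 3952), (10704, 1360), (14512, 0), (16000, 0),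
      (12643, 12660)] (.rel1 [(14512, 0), (16000, 0), (12643, 12660), (6912, 6928), (6688, 2792)]
      (.rel2 [(14512, 0), (16000, 0), (12643, 12660), (6912, 6928), (6688, 2792)] (.leaf ⟨10, 0, 7,
      0⟩))))))

theorem ok2_7aa_1 :
    chkT cF7mm cF7mm T2_7aa_1 (14672, 304) (14800, 256) dum n2_A2 n2_A2 = true := by
  decide +kernel

/-- tree -/
def T2_7aa_2 : CT :=
  .seg (14920, 328) (.rel1 [(14512, 0), (16000, 0), (13136, 10800), (11312, 10368), (8000, 8016),
      (6912, 6928), (6688, 2792)] (.rel2 [(14512, 0), (16000, 0), (13136, 10800), (11312, 10368),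
      (8000, 8016), (6912, 6928), (6688, 2792)] (.rel1 [(14512, 0), (16000, 0), (13136, 10800),
      (11312, 10368), (8000, 8016), (3803, 3819)] (.rel2 [(14512, 0), (16000, 0), (13136, 10800),
      (11312, 10368), (8000, 8016), (3803, 3819)] (.rel1 [(8000, 8016), (3803, 3819), (14512, 0),
      (16000, 0), (12943, 11528)] (.rel2 [(8000, 8016), (3803, 3819), (14512, 0), (16000, 0),
      (12943, 11528)] (.leaf ⟨1, 0, 0, 0⟩))))))) (.rel1 [(14512, 0), (16000, 0), (13136, 10800),
      (11312, 10368), (8000, 8016), (6912, 6928), (6688, 2792)] (.rel2 [(10704, 1360), (14512, 0),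
      (16000, 0), (13136, 10800), (11312, 10368), (8000, 8016), (5050, 5066)] (.rel1 [(16000, 0),
      (13136, 10800), (11312, 10368), (8000, 8016), (6912, 6928), (6535, 0)] (.rel2 [(10704, 1360),
      (14512, 0), (16000, 0), (13136, 10800), (11312, 10368), (4422, 5476)] (.rel1 [(6535, 0),
      (16000, 0), (13136, 10800), (11312, 10368), (6928, 7255)] (.rel2 [(16000, 0), (13136, 10800),
      (11312, 10368), (4422, 5476), (12778, 0)] (.leaf ⟨79, 0, 0, 13⟩)))))))

theorem ok2_7aa_2 :
    chkT cF7mm cF7mm T2_7aa_2 (14800, 256) (15040, 400) dum n2_A2 n2_A2 = true := by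
  decide +kernel

/-- tree -/
def T2_7aa_3 : CT :=
  .seg (14896, 608) (.seg (14968, 504) (.rel1 [(14512, 0), (16000, 0), (13136, 10800), (11312,
      10368), (8000, 8016), (6912, 6928), (6688, 2792)] (.rel2 [(14512, 0), (16000, 0), (13136,
      10800), (11312, 10368), (8000, 8016), (6912, 6928), (6688, 2792)] (.rel1 [(6912, 6928), (6688,
      2792), (14512, 0), (16000, 0), (13136, 10800), (10053, 10070)] (.rel2 [(6912, 6928), (6688,
      2792), (14512, 0), (16000, 0), (13136, 10800), (10053, 10070)] (.rel1 [(16000, 0), (13136,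
      10800), (10053, 10070), (6912, 6928), (6535, 0)] (.rel2 [(16000, 0), (13136, 10800), (10053,
      10070), (6912, 6928), (6535, 0)] (.rel1 [(6535, 0), (16000, 0), (13136, 10800), (7043, 9358)]
      (.rel2 [(6535, 0), (16000, 0), (13136, 10800), (7043, 9358)] (.leaf ⟨0, 3, 0, 7⟩)))))))))
      (.rel1 [(10704, 1360), (14512, 0), (16000, 0), (13136, 10800), (11312, 10368), (8000, 8016),
      (5050, 5066)] (.rel2 [(14512, 0), (16000, 0), (13136, 10800), (11312, 10368), (8000, 8016),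
      (6912, 6928), (6688, 2792)] (.rel1 [(16000, 0), (13136, 10800), (11312, 10368), (8000, 8016),
      (5050, 5066), (12777, 0)] (.rel2 [(6688, 2792), (14512, 0), (16000, 0), (13136, 10800),
      (11312, 10368), (6928, 7255)] (.rel1 [(5050, 5066), (12777, 0), (16000, 0), (13136, 10800),
      (10053, 10070)] (.rel2 [(16000, 0), (13136, 10800), (11312, 10368), (6928, 7255), (6536, 0)]
      (.rel1 [(12777, 0), (16000, 0), (13136, 10800), (769, 7872)] (.rel2 [(6536, 0), (16000, 0),
      (13136, 10800), (7040, 9357)] (.leaf ⟨0, 5, 0, 6⟩)))))))))) (.seg (14824, 712) (.rel1 [(6752,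
      3952), (10704, 1360), (14512, 0), (16000, 0), (13136, 10800), (11312, 10368), (6928, 7255)]
      (.rel2 [(14512, 0), (16000, 0), (13136, 10800), (11312, 10368), (8000, 8016), (6912, 6928),
      (6688, 2792)] (.rel1 [(14512, 0), (16000, 0), (13136, 10800), (11312, 10368), (6928, 7255),
      (6689, 2792)] (.rel2 [(6912, 6928), (6688, 2792), (14512, 0), (16000, 0), (13136, 10800),
      (10053, 10070)] (.rel1 [(6689, 2792), (14512, 0), (16000, 0), (13136, 10800), (7039, 9356)]
      (.rel2 [(14512, 0), (16000, 0), (13136, 10800), (10053, 10070), (3804, 3820)] (.rel1 [(16000,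
      0), (13136, 10800), (7039, 9356), (6539, 0)] (.rel2 [(3804, 3820), (14512, 0), (16000, 0),
      (12643, 12661)] (.leaf ⟨0, 7, 0, 4⟩))))))))) (.rel1 [(14512, 0), (16000, 0), (13136, 10800),
      (11312, 10368), (8000, 8016), (6912, 6928), (6688, 2792)] (.rel2 [(14512, 0), (16000, 0),
      (13136, 10800), (11312, 10368), (8000, 8016), (6912, 6928), (6688, 2792)] (.rel1 [(6912,
      6928), (6688, 2792), (14512, 0), (16000, 0), (13136, 10800), (10053, 10070)] (.rel2 [(16000,
      0), (13136, 10800), (11312, 10368), (8000, 8016), (6912, 6928), (6535, 0)] (.rel1 [(14512, 0),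
      (16000, 0), (13136, 10800), (10053, 10070), (3804, 3820)] (.rel2 [(6912, 6928), (6535, 0),
      (16000, 0), (13136, 10800), (10053, 10070)] (.rel1 [(3804, 3820), (14512, 0), (16000, 0),
      (12643, 12661)] (.rel2 [(6912, 6928), (6535, 0), (16000, 0), (12643, 12661)] (.leaf ⟨0, 19, 0,
      6⟩))))))))))

theorem ok2_7aa_3 :
    chkT cF7mm cF7mm T2_7aa_3 (15040, 400) (14752, 816) dum n2_A2 n2_A2 = true := by
  decide +kernel

/-- tree -/
def T2_7aa_4 : CT :=
  .rel1 [(8000, 8016), (6912, 6928), (6752, 3952), (10704, 1360), (14512, 0), (16000, 0), (12943,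
      11528)] (.rel2 [(6912, 6928), (6752, 3952), (10704, 1360), (14512, 0), (16000, 0), (13136,
      10800), (10053, 10070)] (.rel1 [(6752, 3952), (10704, 1360), (14512, 0), (16000, 0), (12943,
      11528), (6928, 7255)] (.rel2 [(6752, 3952), (10704, 1360), (14512, 0), (16000, 0), (13136,
      10800), (7041, 9357)] (.rel1 [(6752, 3952), (10704, 1360), (14512, 0), (16000, 0), (8124,
      29701)] (.rel2 [(6752, 3952), (10704, 1360), (14512, 0), (16000, 0), (8128, 29687)] (.leaf ⟨8,
      0, 39, 0⟩))))))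

theorem ok2_7aa_4 :
    chkT cF7mm cF7mm T2_7aa_4 (14752, 816) (14640, 544) dum n2_A2 n2_A2 = true := by
  decide +kernel

theorem fr2_7aa {z k l : ℂ} (hz : OnE v2_7aa z) (hk : conj k ∈ Poly p2_A2)
    (hl : conj l ∈ Poly p2_A2) :
    k ^ 2 + l ^ 2 - 2 * k * l * (64 * z ^ 7 - 112 * z ^ 5 + 56 * z ^ 3 - 7 * z) + (z * (64 * z ^ 6 -
        80 * z ^ 4 + 24 * z ^ 2 - 1)) ^ 2 ≠ 0 := by
  have h := edge_use rpF7mm (E := L2_7aa) (V0 := dum) (V1 := n2_A2) (V2 := n2_A2) (fun e he => by
    simp only [L2_7aa, List.mem_cons, List.not_mem_nil, or_false] at he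
    rcases he with rfl | rfl | rfl | rfl | rfl
    exacts [⟨_, ok2_7aa_0⟩, ⟨_, ok2_7aa_1⟩, ⟨_, ok2_7aa_2⟩, ⟨_, ok2_7aa_3⟩, ⟨_, ok2_7aa_4⟩]) (V :=
        v2_7aa) (by decide) hz zero_dum (rg2_A2 hk) (rg2_A2 hl)
  rw [evF7mm (mr_true k) (mr_true l)] at h
  exact fun h0 => h (by rw [h0, mul_zero])

/-- edges -/
def L2_7az : List ((ℕ × ℕ) × (ℕ × ℕ)) :=
  [((14592, 464), (14672, 432)), ((14672, 432), (14720, 448)), ((14720, 448), (14928, 544)),
      ((14928, 544), (14768, 784)), ((14768, 784), (14608, 800)), ((14608, 800), (14560, 576)),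
      ((14560, 576), (14592, 464))]

/-- tree -/
def T2_7az_0 : CT :=
  .rel1 [(8000, 8016), (6912, 6928), (6752, 3952), (10704, 1360), (14512, 0), (16000, 0), (12943,
      11528)] (.rel2 [(16000, 0), (13296, 3472), (13008, 3696), (12768, 3648), (11456, 2208),
      (11424, 1872), (13295, 0)] (.rel1 [(6912, 6928), (6752, 3952), (10704, 1360), (14512, 0),
      (16000, 0), (12643, 12660)] (.rel2 [(13008, 3696), (12768, 3648), (11456, 2208), (11424,
      1872), (13295, 0), (17760, 0)] (.rel1 [(14512, 0), (16000, 0), (12643, 12660), (6912, 6928),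
      (6688, 2792)] (.rel2 [(11456, 2208), (11424, 1872), (13295, 0), (17760, 0), (12892, 3787)]
      (.leaf ⟨79, 0, 13, 0⟩))))))

theorem ok2_7az_0 :
    chkT cF7mn cF7mn T2_7az_0 (14592, 464) (14672, 432) dum n2_A2 n2_Z = true := by
  decide +kernel

/-- tree -/
def T2_7az_1 : CT :=
  .rel1 [(14512, 0), (16000, 0), (13136, 10800), (11312, 10368), (8000, 8016), (6912, 6928), (6688,
      2792)] (.rel2 [(13008, 3696), (12768, 3648), (11456, 2208), (11424, 1872), (11616, 1680),
      (14352, 0), (17760, 0)] (.rel1 [(16000, 0), (13136, 10800), (11312, 10368), (8000, 8016),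
      (6912, 6928), (6535, 0)] (.rel2 [(11456, 2208), (11424, 1872), (11616, 1680), (14352, 0),
      (17760, 0), (12892, 3787)] (.rel1 [(8000, 8016), (6912, 6928), (6535, 0), (16000, 0), (12943,
      11528)] (.rel2 [(11424, 1872), (11616, 1680), (14352, 0), (17760, 0), (11694, 4719)] (.rel1
      [(6535, 0), (16000, 0), (12943, 11528), (6928, 7255)] (.rel2 [(14352, 0), (17760, 0), (11694,
      4719), (11416, 1800)] (.leaf ⟨7, 0, 0, 4⟩))))))))

theorem ok2_7az_1 :
    chkT cF7mn cF7mn T2_7az_1 (14672, 432) (14720, 448) dum n2_A2 n2_Z = true := by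
  decide +kernel

/-- tree -/
def T2_7az_2 : CT :=
  .rel1 [(14512, 0), (16000, 0), (13136, 10800), (11312, 10368), (8000, 8016), (6912, 6928), (6688,
      2792)] (.rel2 [(13008, 3696), (12768, 3648), (11456, 2208), (11424, 1872), (11616, 1680),
      (14352, 0), (17760, 0)] (.rel1 [(16000, 0), (13136, 10800), (11312, 10368), (8000, 8016),
      (6912, 6928), (6535, 0)] (.rel2 [(11456, 2208), (11424, 1872), (11616, 1680), (14352, 0),
      (17760, 0), (12892, 3787)] (.rel1 [(6535, 0), (16000, 0), (13136, 10800), (11312, 10368),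
      (6928, 7255)] (.rel2 [(11616, 1680), (14352, 0), (17760, 0), (12892, 3787), (11279, 2014)]
      (.rel1 [(6928, 7255), (6535, 0), (16000, 0), (12943, 11528)] (.rel2 [(14352, 0), (17760, 0),
      (12892, 3787), (11203, 1931)] (.leaf ⟨7, 0, 0, 4⟩))))))))

theorem ok2_7az_2 :
    chkT cF7mn cF7mn T2_7az_2 (14720, 448) (14928, 544) dum n2_A2 n2_Z = true := by
  decide +kernel

/-- tree -/
def T2_7az_3 : CT :=
  .seg (14848, 664) (.rel1 [(14512, 0), (16000, 0), (13136, 10800), (11312, 10368), (8000, 8016),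
      (6912, 6928), (6688, 2792)] (.rel2 [(14352, 0), (16000, 0), (13296, 3472), (13008, 3696),
      (12768, 3648), (11456, 2208), (11416, 1800)] (.rel1 [(6912, 6928), (6688, 2792), (14512, 0),
      (16000, 0), (13136, 10800), (10053, 10070)] (.rel2 [(12768, 3648), (11456, 2208), (11416,
      1800), (14352, 0), (16000, 0), (13106, 3716)] (.rel1 [(14512, 0), (16000, 0), (13136, 10800),
      (10053, 10070), (3804, 3820)] (.rel2 [(11240, 0), (16000, 0), (11769, 5433)] (.leaf ⟨0, 9, 0,
      8⟩))))))) (.cut1 false 11376 [(6752, 3952), (10704, 1360), (11376, 1120), (11376, 10384),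
      (11312, 10368), (8000, 8016), (6912, 6928)] [(11376, 1120), (14512, 0), (16000, 0), (13136,
      10800), (11376, 10384)] (.rel1 [(11376, 1120), (11376, 10384), (11312, 10368), (8000, 8016),
      (6912, 6928), (6688, 2792)] (.rel2 [(14352, 0), (16000, 0), (13296, 3472), (13008, 3696),
      (12768, 3648), (11456, 2208), (11416, 1800)] (.rel1 [(6912, 6928), (6688, 2792), (11376,
      1120), (11376, 10384), (10031, 10048)] (.rel2 [(12768, 3648), (11456, 2208), (11416, 1800),
      (14352, 0), (16000, 0), (13106, 3716)] (.rel1 [(11376, 1120), (11376, 10384), (10031, 10048),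
      (3804, 3820)] (.rel2 [(11416, 1800), (14352, 0), (16000, 0), (13106, 3716), (11572, 3408)]
      (.rel1 [(3804, 3820), (11376, 1120), (11376, 11394)] (.rel2 [(11240, 0), (16000, 0), (11769,
      5433)] (.leaf ⟨0, 1, 0, 0⟩))))))))) (.cut1 true 5392 [(11376, 1120), (14512, 0), (16000, 0),
      (14571, 5392), (11376, 5392)] [(14571, 5392), (13136, 10800), (11376, 10384), (11376, 5392)]
      (.rel1 [(16000, 0), (14571, 5392), (11376, 5392), (11375, 0)] (.rel2 [(11240, 0), (16000, 0),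
      (11769, 5433)] (.leaf ⟨0, 37, 0, 15⟩))) (.rel1 [(11376, 5392), (14571, 5392), (11376, 17433)]
      (.rel2 [(9446, 0), (16000, 0), (12977, 3882)] (.leaf ⟨0, 1, 0, 0⟩)))))

theorem ok2_7az_3 :
    chkT cF7mn cF7mn T2_7az_3 (14928, 544) (14768, 784) dum n2_A2 n2_Z = true := by
  decide +kernel

/-- tree -/
def T2_7az_4 : CT :=
  .cut1 true 5392 [(6752, 3952), (10704, 1360), (14512, 0), (16000, 0), (14571, 5392), (6829, 5392)]
      [(14571, 5392), (13136, 10800), (11312, 10368), (8000, 8016), (6912, 6928), (6829, 5392)]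
      (.cut1 false 11376 [(6752, 3952), (10704, 1360), (11376, 1120), (11376, 5392), (6829, 5392)]
      [(11376, 1120), (14512, 0), (16000, 0), (14571, 5392), (11376, 5392)] (.rel1 [(11376, 1120),
      (11376, 5392), (6829, 5392), (6689, 2792)] (.rel2 [(11240, 0), (16000, 0), (11769, 5433)]
      (.leaf ⟨0, 2, 2, 0⟩))) (.cut1 true 2688 [(11376, 1120), (14512, 0), (16000, 0), (15288, 2688),
      (11376, 2688)] [(15288, 2688), (14571, 5392), (11376, 5392), (11376, 2688)] (.seg (14688, 792)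
      (.rel1 [(16000, 0), (15288, 2688), (11376, 2688), (11375, 0)] (.rel2 [(9446, 0), (16000, 0),
      (12977, 3882)] (.leaf ⟨0, 4, 3, 0⟩))) (.rel1 [(16000, 0), (15288, 2688), (11376, 2688),
      (11375, 0)] (.rel2 [(11240, 0), (16000, 0), (11767, 5436)] (.leaf ⟨0, 2, 2, 0⟩)))) (.rel1
      [(11376, 2688), (15288, 2688), (11376, 17442)] (.rel2 [(11240, 0), (16000, 0), (11769, 5433)]
      (.leaf ⟨0, 2, 2, 0⟩))))) (.rel1 [(6912, 6928), (6829, 5392), (14571, 5392), (13136, 10800),
      (10053, 10070)] (.rel2 [(14352, 0), (16000, 0), (13296, 3472), (13008, 3696), (12768, 3648),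
      (11456, 2208), (11416, 1800)] (.rel1 [(6912, 6928), (6829, 5392), (14571, 5392), (12642,
      12662)] (.rel2 [(14352, 0), (16000, 0), (13296, 3472), (13008, 3696), (12768, 3648), (11202,
      1930)] (.rel1 [(6829, 5392), (14571, 5392), (8139, 29635)] (.rel2 [(9441, 0), (16000, 0),
      (12978, 3881)] (.leaf ⟨0, 1, 2, 0⟩)))))))

theorem ok2_7az_4 :
    chkT cF7mn cF7mn T2_7az_4 (14768, 784) (14608, 800) dum n2_A2 n2_Z = true := by
  decide +kernel

/-- tree -/
def T2_7az_5 : CT :=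
  .rel1 [(6752, 3952), (10704, 1360), (14512, 0), (16000, 0), (13136, 10800), (11312, 10368), (6928,
      7255)] (.rel2 [(16000, 0), (13296, 3472), (13008, 3696), (12768, 3648), (11456, 2208), (11424,
      1872), (13295, 0)] (.rel1 [(6928, 7255), (6752, 3952), (10704, 1360), (14512, 0), (16000, 0),
      (12943, 11528)] (.rel2 [(13008, 3696), (12768, 3648), (11456, 2208), (11424, 1872), (13295,
      0), (17760, 0)] (.rel1 [(6752, 3952), (10704, 1360), (14512, 0), (16000, 0), (8124, 29701)]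
      (.rel2 [(9442, 0), (17760, 0), (12892, 3787)] (.leaf ⟨4, 0, 7, 0⟩))))))

theorem ok2_7az_5 :
    chkT cF7mn cF7mn T2_7az_5 (14608, 800) (14560, 576) dum n2_A2 n2_Z = true := by
  decide +kernel

/-- tree -/
def T2_7az_6 : CT :=
  .rel1 [(8000, 8016), (6912, 6928), (6752, 3952), (10704, 1360), (14512, 0), (16000, 0), (12943,
      11528)] (.rel2 [(14352, 0), (16000, 0), (13296, 3472), (13008, 3696), (12768, 3648), (11456,
      2208), (11416, 1800)] (.rel1 [(6752, 3952), (10704, 1360), (14512, 0), (16000, 0), (12943,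
      11528), (6928, 7255)] (.rel2 [(13008, 3696), (12768, 3648), (11456, 2208), (11416, 1800),
      (14352, 0), (17760, 0)] (.rel1 [(6752, 3952), (10704, 1360), (14512, 0), (16000, 0), (8124,
      29701)] (.rel2 [(17760, 0), (12892, 3787), (9446, 0)] (.leaf ⟨25, 0, 31, 0⟩))))))

theorem ok2_7az_6 :
    chkT cF7mn cF7mn T2_7az_6 (14560, 576) (14592, 464) dum n2_A2 n2_Z = true := by
  decide +kernel

theorem fr2_7az {z k l : ℂ} (hz : OnE v2_7az z) (hk : conj k ∈ Poly p2_A2)
    (hl : l ∈ Poly p2_Z) :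
    k ^ 2 + l ^ 2 - 2 * k * l * (64 * z ^ 7 - 112 * z ^ 5 + 56 * z ^ 3 - 7 * z) + (z * (64 * z ^ 6 -
        80 * z ^ 4 + 24 * z ^ 2 - 1)) ^ 2 ≠ 0 := by
  have h := edge_use rpF7mn (E := L2_7az) (V0 := dum) (V1 := n2_A2) (V2 := n2_Z) (fun e he => by
    simp only [L2_7az, List.mem_cons, List.not_mem_nil, or_false] at he
    rcases he with rfl | rfl | rfl | rfl | rfl | rfl | rfl
    exacts [⟨_, ok2_7az_0⟩, ⟨_, ok2_7az_1⟩, ⟨_, ok2_7az_2⟩, ⟨_, ok2_7az_3⟩, ⟨_, ok2_7az_4⟩, ⟨_,
        ok2_7az_5⟩, ⟨_, ok2_7az_6⟩]) (V := v2_7az) (by decide) hz zero_dum (rg2_A2 hk) (rg2_Z hl)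
  rw [evF7mn (mr_true k) (mr_false l)] at h
  exact fun h0 => h (by rw [h0, mul_zero])

/-- edges -/
def L2_7as : List ((ℕ × ℕ) × (ℕ × ℕ)) :=
  [((14400, 560), (14432, 448)), ((14432, 448), (14640, 368)), ((14640, 368), (14848, 560)),
      ((14848, 560), (14560, 976)), ((14560, 976), (14464, 896)), ((14464, 896), (14400, 752)),
      ((14400, 752), (14400, 560))]

/-- tree -/
def T2_7as_0 : CT :=
  .rel1 [(8000, 8016), (6912, 6928), (6752, 3952), (10704, 1360), (14512, 0), (16000, 0), (12943,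
      11528)] (.rel2 [(13792, 2480), (13872, 7984), (13088, 10752), (11312, 10368), (8928, 7888),
      (8464, 6576), (7997, 3658)] (.rel1 [(6752, 3952), (10704, 1360), (14512, 0), (16000, 0),
      (12943, 11528), (6928, 7255)] (.rel2 [(8928, 7888), (7468, 3764), (15532, 2125), (12768,
      11883)] (.leaf ⟨11, 0, 5, 0⟩))))

theorem ok2_7as_0 :
    chkT cF7mn cF7mn T2_7as_0 (14400, 560) (14432, 448) dum n2_A2 n2_S3 = true := by
  decide +kernel

/-- tree -/
def T2_7as_1 : CT :=
  .rel1 [(8000, 8016), (6912, 6928), (6752, 3952), (10704, 1360), (14512, 0), (16000, 0), (12943,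
      11528)] (.rel2 [(13088, 10752), (11312, 10368), (8928, 7888), (8464, 6576), (8160, 4672),
      (8448, 3568), (15532, 2124)] (.rel1 [(6912, 6928), (6752, 3952), (10704, 1360), (14512, 0),
      (16000, 0), (12643, 12660)] (.rel2 [(8160, 4672), (8448, 3568), (15532, 2124), (12768, 11883),
      (8621, 7569)] (.leaf ⟨1, 0, 0, 0⟩))))

theorem ok2_7as_1 :
    chkT cF7mn cF7mn T2_7as_1 (14432, 448) (14640, 368) dum n2_A2 n2_S3 = true := by
  decide +kernel

/-- tree -/
def T2_7as_2 : CT :=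
  .rel1 [(14512, 0), (16000, 0), (13136, 10800), (11312, 10368), (8000, 8016), (6912, 6928), (6688,
      2792)] (.rel2 [(13088, 10752), (11312, 10368), (8928, 7888), (8464, 6576), (8160, 4672),
      (8448, 3568), (15532, 2124)] (.rel1 [(6688, 2792), (14512, 0), (16000, 0), (13136, 10800),
      (11312, 10368), (6928, 7255)] (.rel2 [(8928, 7888), (8464, 6576), (8160, 4672), (8448, 3568),
      (15532, 2124), (12768, 11883)] (.rel1 [(16000, 0), (13136, 10800), (11312, 10368), (6928,
      7255), (6536, 0)] (.rel2 [(8448, 3568), (15532, 2124), (12768, 11883), (7662, 6572)] (.leaf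
      ⟨5, 0, 0, 6⟩))))))

theorem ok2_7as_2 :
    chkT cF7mn cF7mn T2_7as_2 (14640, 368) (14848, 560) dum n2_A2 n2_S3 = true := by
  decide +kernel

/-- tree -/
def T2_7as_3 : CT :=
  .seg (14704, 768) (.seg (14776, 664) (.cut1 true 5392 [(6752, 3952), (10704, 1360), (14512, 0),
      (16000, 0), (14571, 5392), (6829, 5392)] [(14571, 5392), (13136, 10800), (11312, 10368),
      (8000, 8016), (6912, 6928), (6829, 5392)] (.rel1 [(14512, 0), (16000, 0), (14571, 5392),
      (6829, 5392), (6689, 2792)] (.rel2 [(8160, 4672), (8448, 3568), (13792, 2480), (13872, 7984),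
      (13088, 10752), (11312, 10368), (8621, 7569)] (.rel1 [(16000, 0), (14571, 5392), (6829, 5392),
      (6537, 0)] (.rel2 [(7997, 3658), (13792, 2480), (13915, 10931), (8986, 9865)] (.leaf ⟨0, 0, 0,
      1⟩))))) (.rel1 [(6912, 6928), (6829, 5392), (14571, 5392), (13136, 10800), (10053, 10070)]
      (.rel2 [(13792, 2480), (13872, 7984), (13088, 10752), (11312, 10368), (8928, 7888), (8464,
      6576), (7997, 3658)] (.rel1 [(14571, 5392), (13136, 10800), (10053, 10070), (5375, 5391)]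
      (.rel2 [(9679, 10015), (7469, 3763), (13792, 2480), (13915, 10931)] (.leaf ⟨0, 33, 0,
      23⟩)))))) (.cut1 true 5392 [(6752, 3952), (10704, 1360), (14512, 0), (16000, 0), (14571,
      5392), (6829, 5392)] [(14571, 5392), (13136, 10800), (11312, 10368), (8000, 8016), (6912,
      6928), (6829, 5392)] (.rel1 [(14512, 0), (16000, 0), (14571, 5392), (6829, 5392), (6689,
      2792)] (.rel2 [(13792, 2480), (13872, 7984), (13088, 10752), (11312, 10368), (8928, 7888),
      (8464, 6576), (7997, 3658)] (.rel1 [(16000, 0), (14571, 5392), (6829, 5392), (6537, 0)] (.rel2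
      [(13792, 2480), (13915, 10931), (9679, 10015), (7469, 3763)] (.leaf ⟨0, 19, 0, 6⟩))))) (.rel1
      [(8000, 8016), (6912, 6928), (6829, 5392), (14571, 5392), (12943, 11528)] (.rel2 [(13792,
      2480), (13872, 7984), (13088, 10752), (11312, 10368), (8928, 7888), (8464, 6576), (7997,
      3658)] (.rel1 [(6829, 5392), (14571, 5392), (12943, 11528), (6928, 7255)] (.rel2 [(8928,
      7888), (8464, 6576), (7997, 3658), (13792, 2480), (13872, 7984), (12768, 11883)] (.rel1
      [(14571, 5392), (12943, 11528), (4304, 5391)] (.rel2 [(7997, 3658), (13792, 2480), (13872,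
      7984), (10558, 19689)] (.leaf ⟨0, 19, 0, 6⟩))))))))) (.seg (14632, 872) (.rel1 [(14512, 0),
      (16000, 0), (13136, 10800), (11312, 10368), (8000, 8016), (6912, 6928), (6688, 2792)] (.rel2
      [(13792, 2480), (13872, 7984), (13088, 10752), (11312, 10368), (8928, 7888), (8464, 6576),
      (7997, 3658)] (.rel1 [(8000, 8016), (6912, 6928), (6688, 2792), (14512, 0), (16000, 0),
      (12943, 11528)] (.rel2 [(8928, 7888), (8464, 6576), (7997, 3658), (13792, 2480), (13872,
      7984), (12768, 11883)] (.rel1 [(6688, 2792), (14512, 0), (16000, 0), (12943, 11528), (6928,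
      7255)] (.rel2 [(7997, 3658), (13792, 2480), (13872, 7984), (12768, 11883), (8622, 7570)]
      (.rel1 [(16000, 0), (12943, 11528), (6928, 7255), (6536, 0)] (.rel2 [(7997, 3658), (13792,
      2480), (13872, 7984), (10558, 19689)] (.leaf ⟨0, 1, 0, 0⟩))))))))) (.rel1 [(14512, 0), (16000,
      0), (13136, 10800), (11312, 10368), (8000, 8016), (6912, 6928), (6688, 2792)] (.rel2 [(13792,
      2480), (13872, 7984), (13088, 10752), (11312, 10368), (8928, 7888), (8464, 6576), (7997,
      3658)] (.rel1 [(8000, 8016), (6912, 6928), (6688, 2792), (14512, 0), (16000, 0), (12943,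
      11528)] (.rel2 [(8464, 6576), (7997, 3658), (13792, 2480), (13872, 7984), (13088, 10752),
      (9679, 10015)] (.rel1 [(6688, 2792), (14512, 0), (16000, 0), (12943, 11528), (6928, 7255)]
      (.rel2 [(13792, 2480), (13872, 7984), (13088, 10752), (9679, 10015), (7469, 3763)] (.rel1
      [(16000, 0), (12943, 11528), (6928, 7255), (6536, 0)] (.rel2 [(9679, 10015), (7469, 3763),
      (13792, 2480), (13915, 10931)] (.leaf ⟨0, 39, 9, 0⟩))))))))))

theorem ok2_7as_3 :
    chkT cF7mn cF7mn T2_7as_3 (14848, 560) (14560, 976) dum n2_A2 n2_S3 = true := by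
  decide +kernel

/-- tree -/
def T2_7as_4 : CT :=
  .rel1 [(8000, 8016), (6912, 6928), (6752, 3952), (10704, 1360), (14512, 0), (16000, 0), (12943,
      11528)] (.rel2 [(13792, 2480), (13872, 7984), (13088, 10752), (11312, 10368), (8928, 7888),
      (8464, 6576), (7997, 3658)] (.rel1 [(6752, 3952), (10704, 1360), (14512, 0), (16000, 0),
      (12943, 11528), (6928, 7255)] (.rel2 [(8464, 6576), (7997, 3658), (13792, 2480), (13872,
      7984), (13088, 10752), (9679, 10015)] (.rel1 [(14512, 0), (16000, 0), (12943, 11528), (6928,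
      7255), (6689, 2792)] (.rel2 [(13792, 2480), (13872, 7984), (13088, 10752), (9679, 10015),
      (7469, 3763)] (.rel1 [(6689, 2792), (14512, 0), (16000, 0), (8129, 29683)] (.rel2 [(13088,
      10752), (9679, 10015), (7469, 3763), (15531, 2127)] (.rel1 [(16000, 0), (8129, 29683), (6538,
      0)] (.leaf ⟨2, 0, 5, 0⟩)))))))))

theorem ok2_7as_4 :
    chkT cF7mn cF7mn T2_7as_4 (14560, 976) (14464, 896) dum n2_A2 n2_S3 = true := by
  decide +kernel

/-- tree -/
def T2_7as_5 : CT :=
  .rel1 [(8000, 8016), (6912, 6928), (6752, 3952), (10704, 1360), (14512, 0), (16000, 0), (12943,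
      11528)] (.rel2 [(13088, 10752), (11312, 10368), (8928, 7888), (8464, 6576), (8160, 4672),
      (8448, 3568), (15532, 2124)] (.rel1 [(6912, 6928), (6752, 3952), (10704, 1360), (14512, 0),
      (16000, 0), (12643, 12660)] (.rel2 [(8160, 4672), (8448, 3568), (15532, 2124), (13088, 10752),
      (11312, 10368), (8621, 7569)] (.rel1 [(6752, 3952), (10704, 1360), (14512, 0), (16000, 0),
      (8134, 29665)] (.rel2 [(15532, 2124), (13088, 10752), (11312, 10368), (8621, 7569), (7997,
      3658)] (.rel1 [(14512, 0), (16000, 0), (8134, 29665), (6688, 2792)] (.rel2 [(15532, 2124),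
      (13088, 10752), (11312, 10368), (5373, 4191)] (.leaf ⟨2, 0, 2, 0⟩))))))))

theorem ok2_7as_5 :
    chkT cF7mn cF7mn T2_7as_5 (14464, 896) (14400, 752) dum n2_A2 n2_S3 = true := by
  decide +kernel

/-- tree -/
def T2_7as_6 : CT :=
  .rel1 [(8000, 8016), (6912, 6928), (6752, 3952), (10704, 1360), (14512, 0), (16000, 0), (12943,
      11528)] (.rel2 [(13792, 2480), (13872, 7984), (13088, 10752), (11312, 10368), (8928, 7888),
      (8464, 6576), (7997, 3658)] (.rel1 [(6752, 3952), (10704, 1360), (14512, 0), (16000, 0),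
      (12943, 11528), (6928, 7255)] (.rel2 [(13088, 10752), (11312, 10368), (8928, 7888), (8464,
      6576), (7997, 3658), (15532, 2125)] (.rel1 [(6752, 3952), (10704, 1360), (14512, 0), (16000,
      0), (8124, 29701)] (.rel2 [(7997, 3658), (15532, 2125), (13088, 10752), (11312, 10368), (8622,
      7570)] (.leaf ⟨34, 0, 21, 0⟩))))))

theorem ok2_7as_6 :
    chkT cF7mn cF7mn T2_7as_6 (14400, 752) (14400, 560) dum n2_A2 n2_S3 = true := by
  decide +kernel

theorem fr2_7as {z k l : ℂ} (hz : OnE v2_7as z) (hk : conj k ∈ Poly p2_A2)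
    (hl : l ∈ Poly p2_S3) :
    k ^ 2 + l ^ 2 - 2 * k * l * (64 * z ^ 7 - 112 * z ^ 5 + 56 * z ^ 3 - 7 * z) + (z * (64 * z ^ 6 -
        80 * z ^ 4 + 24 * z ^ 2 - 1)) ^ 2 ≠ 0 := by
  have h := edge_use rpF7mn (E := L2_7as) (V0 := dum) (V1 := n2_A2) (V2 := n2_S3) (fun e he => by
    simp only [L2_7as, List.mem_cons, List.not_mem_nil, or_false] at he
    rcases he with rfl | rfl | rfl | rfl | rfl | rfl | rfl
    exacts [⟨_, ok2_7as_0⟩, ⟨_, ok2_7as_1⟩, ⟨_, ok2_7as_2⟩, ⟨_, ok2_7as_3⟩, ⟨_, ok2_7as_4⟩, ⟨_,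
        ok2_7as_5⟩, ⟨_, ok2_7as_6⟩]) (V := v2_7as) (by decide) hz zero_dum (rg2_A2 hk) (rg2_S3 hl)
  rw [evF7mn (mr_true k) (mr_false l)] at h
  exact fun h0 => h (by rw [h0, mul_zero])

/-- edges -/
def L2_7zz : List ((ℕ × ℕ) × (ℕ × ℕ)) :=
  [((14496, 752), (14528, 656)), ((14528, 656), (14608, 672)), ((14608, 672), (14752, 720)),
      ((14752, 720), (14784, 784)), ((14784, 784), (14512, 816)), ((14512, 816), (14496, 752))]

/-- tree -/
def T2_7zz_0 : CT :=
  .rel1 [(14352, 0), (16000, 0), (13296, 3472), (13008, 3696), (12768, 3648), (11456, 2208), (11416,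
      1800)] (.rel2 [(14352, 0), (16000, 0), (13296, 3472), (13008, 3696), (12768, 3648), (11456,
      2208), (11416, 1800)] (.rel1 [(13008, 3696), (12768, 3648), (11456, 2208), (11416, 1800),
      (14352, 0), (17760, 0)] (.rel2 [(13008, 3696), (12768, 3648), (11456, 2208), (11416, 1800),
      (14352, 0), (17760, 0)] (.rel1 [(17760, 0), (13008, 3696), (12768, 3648), (11456, 2208),
      (11238, 0)] (.rel2 [(17760, 0), (13008, 3696), (12768, 3648), (11456, 2208), (11238, 0)]
      (.rel1 [(11456, 2208), (11238, 0), (17760, 0), (12892, 3787)] (.rel2 [(11456, 2208), (11238,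
      0), (17760, 0), (12892, 3787)] (.leaf ⟨11, 0, 5, 0⟩))))))))

theorem ok2_7zz_0 :
    chkT cF7nn cF7nn T2_7zz_0 (14496, 752) (14528, 656) dum n2_Z n2_Z = true := by
  decide +kernel

/-- tree -/
def T2_7zz_1 : CT :=
  .rel1 [(13008, 3696), (12768, 3648), (11456, 2208), (11424, 1872), (11616, 1680), (14352, 0),
      (17760, 0)] (.rel2 [(13008, 3696), (12768, 3648), (11456, 2208), (11424, 1872), (11616, 1680),
      (14352, 0), (17760, 0)] (.rel1 [(11456, 2208), (11424, 1872), (11616, 1680), (14352, 0),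
      (17760, 0), (12892, 3787)] (.rel2 [(11456, 2208), (11424, 1872), (11616, 1680), (14352, 0),
      (17760, 0), (12892, 3787)] (.rel1 [(11424, 1872), (11616, 1680), (14352, 0), (17760, 0),
      (11694, 4719)] (.rel2 [(11424, 1872), (11616, 1680), (14352, 0), (17760, 0), (11694, 4719)]
      (.rel1 [(14352, 0), (17760, 0), (11694, 4719), (11416, 1800)] (.rel2 [(14352, 0), (17760, 0),
      (11694, 4719), (11416, 1800)] (.leaf ⟨4, 0, 0, 7⟩))))))))

theorem ok2_7zz_1 :
    chkT cF7nn cF7nn T2_7zz_1 (14528, 656) (14608, 672) dum n2_Z n2_Z = true := by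
  decide +kernel

/-- tree -/
def T2_7zz_2 : CT :=
  .rel1 [(13008, 3696), (12768, 3648), (11456, 2208), (11424, 1872), (11616, 1680), (14352, 0),
      (17760, 0)] (.rel2 [(13008, 3696), (12768, 3648), (11456, 2208), (11424, 1872), (11616, 1680),
      (14352, 0), (17760, 0)] (.rel1 [(11424, 1872), (11616, 1680), (14352, 0), (17760, 0), (13008,
      3696), (11569, 3409)] (.rel2 [(11456, 2208), (11424, 1872), (11616, 1680), (14352, 0), (17760,
      0), (12892, 3787)] (.rel1 [(11424, 1872), (11616, 1680), (14352, 0), (17760, 0), (11691,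
      4721)] (.rel2 [(11616, 1680), (14352, 0), (17760, 0), (12892, 3787), (11279, 2014)] (.rel1
      [(14352, 0), (17760, 0), (11691, 4721), (11416, 1800)] (.rel2 [(14352, 0), (17760, 0), (12892,
      3787), (11203, 1931)] (.leaf ⟨4, 0, 0, 7⟩))))))))

theorem ok2_7zz_2 :
    chkT cF7nn cF7nn T2_7zz_2 (14608, 672) (14752, 720) dum n2_Z n2_Z = true := by
  decide +kernel

/-- tree -/
def T2_7zz_3 : CT :=
  .rel1 [(14352, 0), (16000, 0), (13296, 3472), (13008, 3696), (12768, 3648), (11456, 2208), (11416,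
      1800)] (.rel2 [(14352, 0), (16000, 0), (13296, 3472), (13008, 3696), (12768, 3648), (11456,
      2208), (11416, 1800)] (.rel1 [(11456, 2208), (11416, 1800), (14352, 0), (16000, 0), (13296,
      3472), (12892, 3787)] (.rel2 [(12768, 3648), (11456, 2208), (11416, 1800), (14352, 0), (16000,
      0), (13106, 3716)] (.rel1 [(14352, 0), (16000, 0), (13296, 3472), (12892, 3787), (11202,
      1929)] (.rel2 [(11416, 1800), (14352, 0), (16000, 0), (13106, 3716), (11572, 3408)] (.rel1
      [(11202, 1929), (14352, 0), (16000, 0), (12977, 3882)] (.rel2 [(11416, 1800), (14352, 0),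
      (16000, 0), (11768, 5435)] (.rel1 [(16000, 0), (12977, 3882), (9447, 0)] (.rel2 [(16000, 0),
      (11768, 5435), (11240, 0)] (.leaf ⟨0, 1, 0, 5⟩))))))))))

theorem ok2_7zz_3 :
    chkT cF7nn cF7nn T2_7zz_3 (14752, 720) (14784, 784) dum n2_Z n2_Z = true := by
  decide +kernel

/-- tree -/
def T2_7zz_4 : CT :=
  .seg (14648, 800) (.rel1 [(14352, 0), (16000, 0), (13296, 3472), (13008, 3696), (12768, 3648),
      (11456, 2208), (11416, 1800)] (.rel2 [(16000, 0), (13296, 3472), (13008, 3696), (12768, 3648),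
      (11456, 2208), (11424, 1872), (13295, 0)] (.rel1 [(11456, 2208), (11416, 1800), (14352, 0),
      (16000, 0), (13296, 3472), (12892, 3787)] (.rel2 [(11456, 2208), (11424, 1872), (13295, 0),
      (16000, 0), (13296, 3472), (12892, 3787)] (.rel1 [(16000, 0), (13296, 3472), (12892, 3787),
      (11456, 2208), (11238, 0)] (.rel2 [(13295, 0), (16000, 0), (13296, 3472), (12892, 3787),
      (11279, 2014)] (.rel1 [(11238, 0), (16000, 0), (13296, 3472), (11702, 4715)] (.rel2 [(11279,
      2014), (13295, 0), (16000, 0), (12977, 3882)] (.rel1 [(11238, 0), (16000, 0), (11772, 5429)]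
      (.rel2 [(16000, 0), (12977, 3882), (9447, 0)] (.leaf ⟨0, 4, 3, 0⟩))))))))))) (.rel1 [(14352,
      0), (16000, 0), (13296, 3472), (13008, 3696), (12768, 3648), (11456, 2208), (11416, 1800)]
      (.rel2 [(14352, 0), (16000, 0), (13296, 3472), (13008, 3696), (12768, 3648), (11456, 2208),
      (11416, 1800)] (.rel1 [(11456, 2208), (11416, 1800), (14352, 0), (16000, 0), (13296, 3472),
      (12892, 3787)] (.rel2 [(11456, 2208), (11416, 1800), (14352, 0), (16000, 0), (13296, 3472),
      (12892, 3787)] (.rel1 [(14352, 0), (16000, 0), (13296, 3472), (12892, 3787), (11202, 1929)]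
      (.rel2 [(14352, 0), (16000, 0), (13296, 3472), (12892, 3787), (11202, 1929)] (.rel1 [(16000,
      0), (13296, 3472), (12892, 3787), (9446, 0)] (.rel2 [(16000, 0), (13296, 3472), (12892, 3787),
      (9446, 0)] (.rel1 [(9446, 0), (16000, 0), (12977, 3882)] (.rel2 [(9446, 0), (16000, 0),
      (12977, 3882)] (.leaf ⟨0, 5, 6, 0⟩)))))))))))

theorem ok2_7zz_4 :
    chkT cF7nn cF7nn T2_7zz_4 (14784, 784) (14512, 816) dum n2_Z n2_Z = true := by
  decide +kernel

/-- tree -/
def T2_7zz_5 : CT :=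
  .rel1 [(13008, 3696), (12768, 3648), (11456, 2208), (11424, 1872), (11616, 1680), (14352, 0),
      (17760, 0)] (.rel2 [(14352, 0), (16000, 0), (13296, 3472), (13008, 3696), (12768, 3648),
      (11456, 2208), (11416, 1800)] (.rel1 [(14352, 0), (17760, 0), (13008, 3696), (12768, 3648),
      (11456, 2208), (11416, 1800)] (.rel2 [(12768, 3648), (11456, 2208), (11416, 1800), (14352, 0),
      (16000, 0), (13106, 3716)] (.rel1 [(17760, 0), (13008, 3696), (12768, 3648), (11456, 2208),
      (11238, 0)] (.rel2 [(16000, 0), (13106, 3716), (12768, 3648), (11456, 2208), (11238, 0)]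
      (.rel1 [(17760, 0), (13008, 3696), (12768, 3648), (9443, 0)] (.rel2 [(16000, 0), (13106,
      3716), (12768, 3648), (9443, 0)] (.rel1 [(9443, 0), (17760, 0), (12892, 3787)] (.rel2 [(9443,
      0), (16000, 0), (12978, 3881)] (.leaf ⟨2, 0, 2, 0⟩))))))))))

theorem ok2_7zz_5 :
    chkT cF7nn cF7nn T2_7zz_5 (14512, 816) (14496, 752) dum n2_Z n2_Z = true := by
  decide +kernel

theorem fr2_7zz {z k l : ℂ} (hz : OnE v2_7zz z) (hk : k ∈ Poly p2_Z)
    (hl : l ∈ Poly p2_Z) :
    k ^ 2 + l ^ 2 - 2 * k * l * (64 * z ^ 7 - 112 * z ^ 5 + 56 * z ^ 3 - 7 * z) + (z * (64 * z ^ 6 -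
        80 * z ^ 4 + 24 * z ^ 2 - 1)) ^ 2 ≠ 0 := by
  have h := edge_use rpF7nn (E := L2_7zz) (V0 := dum) (V1 := n2_Z) (V2 := n2_Z) (fun e he => by
    simp only [L2_7zz, List.mem_cons, List.not_mem_nil, or_false] at he
    rcases he with rfl | rfl | rfl | rfl | rfl | rfl
    exacts [⟨_, ok2_7zz_0⟩, ⟨_, ok2_7zz_1⟩, ⟨_, ok2_7zz_2⟩, ⟨_, ok2_7zz_3⟩, ⟨_, ok2_7zz_4⟩, ⟨_,
        ok2_7zz_5⟩]) (V := v2_7zz) (by decide) hz zero_dum (rg2_Z hk) (rg2_Z hl)
  rw [evF7nn (mr_false k) (mr_false l)] at h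
  exact fun h0 => h (by rw [h0, mul_zero])

/-- edges -/
def L2_7zs : List ((ℕ × ℕ) × (ℕ × ℕ)) :=
  [((14320, 768), (14352, 688)), ((14352, 688), (14432, 608)), ((14432, 608), (14544, 656)),
      ((14544, 656), (14704, 768)), ((14704, 768), (14576, 944)), ((14576, 944), (14336, 992)),
      ((14336, 992), (14320, 768))]

/-- tree -/
def T2_7zs_0 : CT :=
  .rel1 [(16000, 0), (13296, 3472), (13008, 3696), (12768, 3648), (11456, 2208), (11424, 1872),
      (13295, 0)] (.rel2 [(13792, 2480), (13872, 7984), (13088, 10752), (11312, 10368), (8928,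
      7888), (8464, 6576), (7997, 3658)] (.rel1 [(13008, 3696), (12768, 3648), (11456, 2208),
      (11424, 1872), (13295, 0), (17760, 0)] (.rel2 [(13088, 10752), (11312, 10368), (8928, 7888),
      (8464, 6576), (7997, 3658), (15532, 2125)] (.rel1 [(11456, 2208), (11424, 1872), (13295, 0),
      (17760, 0), (12892, 3787)] (.rel2 [(8928, 7888), (8464, 6576), (7997, 3658), (15532, 2125),
      (12768, 11883)] (.rel1 [(17760, 0), (12892, 3787), (11456, 2208), (11244, 0)] (.rel2 [(15532,
      2125), (12768, 11883), (8928, 7888), (7468, 3764)] (.leaf ⟨1, 0, 0, 0⟩))))))))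

theorem ok2_7zs_0 :
    chkT cF7nn cF7nn T2_7zs_0 (14320, 768) (14352, 688) dum n2_Z n2_S3 = true := by
  decide +kernel

/-- tree -/
def T2_7zs_1 : CT :=
  .rel1 [(16000, 0), (13296, 3472), (13008, 3696), (12768, 3648), (11456, 2208), (11424, 1872),
      (13295, 0)] (.rel2 [(11312, 10368), (8928, 7888), (8464, 6576), (8160, 4672), (8448, 3568),
      (13792, 2480), (13915, 10931)] (.rel1 [(12768, 3648), (11456, 2208), (11424, 1872), (13295,
      0), (16000, 0), (13106, 3716)] (.rel2 [(8928, 7888), (8464, 6576), (8160, 4672), (8448, 3568),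
      (13792, 2480), (13947, 13110)] (.rel1 [(11456, 2208), (11424, 1872), (13295, 0), (16000, 0),
      (12978, 3881)] (.rel2 [(8160, 4672), (8448, 3568), (13792, 2480), (13947, 13110), (8621,
      7569)] (.rel1 [(16000, 0), (12978, 3881), (11456, 2208), (11244, 0)] (.rel2 [(13792, 2480),
      (13947, 13110), (8621, 7569), (7997, 3658)] (.leaf ⟨39, 0, 0, 9⟩))))))))

theorem ok2_7zs_1 :
    chkT cF7nn cF7nn T2_7zs_1 (14352, 688) (14432, 608) dum n2_Z n2_S3 = true := by
  decide +kernel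

/-- tree -/
def T2_7zs_2 : CT :=
  .rel1 [(13008, 3696), (12768, 3648), (11456, 2208), (11424, 1872), (11616, 1680), (14352, 0),
      (17760, 0)] (.rel2 [(13088, 10752), (11312, 10368), (8928, 7888), (8464, 6576), (8160, 4672),
      (8448, 3568), (15532, 2124)] (.rel1 [(11456, 2208), (11424, 1872), (11616, 1680), (14352, 0),
      (17760, 0), (12892, 3787)] (.rel2 [(8928, 7888), (8464, 6576), (8160, 4672), (8448, 3568),
      (15532, 2124), (12768, 11883)] (.rel1 [(11616, 1680), (14352, 0), (17760, 0), (12892, 3787),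
      (11279, 2014)] (.rel2 [(8160, 4672), (8448, 3568), (15532, 2124), (12768, 11883), (8621,
      7569)] (.rel1 [(14352, 0), (17760, 0), (12892, 3787), (11203, 1931)] (.rel2 [(8448, 3568),
      (15532, 2124), (12768, 11883), (7662, 6572)] (.leaf ⟨1, 0, 0, 3⟩))))))))

theorem ok2_7zs_2 :
    chkT cF7nn cF7nn T2_7zs_2 (14432, 608) (14544, 656) dum n2_Z n2_S3 = true := by
  decide +kernel

/-- tree -/
def T2_7zs_3 : CT :=
  .rel1 [(14352, 0), (16000, 0), (13296, 3472), (13008, 3696), (12768, 3648), (11456, 2208), (11416,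
      1800)] (.rel2 [(11312, 10368), (8928, 7888), (8464, 6576), (8160, 4672), (8448, 3568), (13792,
      2480), (13915, 10931)] (.rel1 [(11456, 2208), (11416, 1800), (14352, 0), (16000, 0), (13296,
      3472), (12892, 3787)] (.rel2 [(8464, 6576), (8160, 4672), (8448, 3568), (13792, 2480), (13915,
      10931), (9679, 10015)] (.rel1 [(14352, 0), (16000, 0), (13296, 3472), (12892, 3787), (11202,
      1929)] (.rel2 [(8160, 4672), (8448, 3568), (13792, 2480), (13915, 10931), (8988, 9866)] (.rel1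
      [(11202, 1929), (14352, 0), (16000, 0), (12977, 3882)] (.rel2 [(8448, 3568), (13792, 2480),
      (13915, 10931), (6920, 9419)] (.leaf ⟨1, 0, 0, 5⟩))))))))

theorem ok2_7zs_3 :
    chkT cF7nn cF7nn T2_7zs_3 (14544, 656) (14704, 768) dum n2_Z n2_S3 = true := by
  decide +kernel

/-- tree -/
def T2_7zs_4 : CT :=
  .seg (14640, 856) (.rel1 [(14352, 0), (16000, 0), (13296, 3472), (13008, 3696), (12768, 3648),
      (11456, 2208), (11416, 1800)] (.rel2 [(13792, 2480), (13872, 7984), (13088, 10752), (11312,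
      10368), (8928, 7888), (8464, 6576), (7997, 3658)] (.rel1 [(12768, 3648), (11456, 2208),
      (11416, 1800), (14352, 0), (16000, 0), (13106, 3716)] (.rel2 [(8928, 7888), (8464, 6576),
      (7997, 3658), (13792, 2480), (13872, 7984), (12768, 11883)] (.rel1 [(11416, 1800), (14352, 0),
      (16000, 0), (13106, 3716), (11572, 3408)] (.rel2 [(7997, 3658), (13792, 2480), (13872, 7984),
      (12768, 11883), (8622, 7570)] (.rel1 [(16000, 0), (13106, 3716), (11572, 3408), (11240, 0)]
      (.rel2 [(7997, 3658), (13792, 2480), (13872, 7984), (10558, 19689)] (.rel1 [(11240, 0),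
      (16000, 0), (11769, 5433)] (.leaf ⟨0, 1, 0, 0⟩)))))))))) (.rel1 [(11616, 1680), (14352, 0),
      (16000, 0), (13296, 3472), (13008, 3696), (12768, 3648), (11279, 2014)] (.rel2 [(13792, 2480),
      (13872, 7984), (13088, 10752), (11312, 10368), (8928, 7888), (8464, 6576), (7997, 3658)]
      (.rel1 [(11279, 2014), (11616, 1680), (14352, 0), (16000, 0), (13296, 3472), (12892, 3787)]
      (.rel2 [(8928, 7888), (8464, 6576), (7997, 3658), (13792, 2480), (13872, 7984), (12768,
      11883)] (.rel1 [(14352, 0), (16000, 0), (13296, 3472), (12892, 3787), (11203, 1931)] (.rel2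
      [(7997, 3658), (13792, 2480), (13872, 7984), (12768, 11883), (8622, 7570)] (.rel1 [(11203,
      1931), (14352, 0), (16000, 0), (12977, 3882)] (.rel2 [(7997, 3658), (13792, 2480), (13872,
      7984), (10558, 19689)] (.rel1 [(16000, 0), (12977, 3882), (9446, 0)] (.leaf ⟨0, 39, 9,
      0⟩))))))))))

theorem ok2_7zs_4 :
    chkT cF7nn cF7nn T2_7zs_4 (14704, 768) (14576, 944) dum n2_Z n2_S3 = true := by
  decide +kernel

/-- tree -/
def T2_7zs_5 : CT :=
  .cut2 true 6608 [(8160, 4672), (8448, 3568), (13792, 2480), (13852, 6608), (8475, 6608), (8464,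
      6576)] [(13852, 6608), (13872, 7984), (13088, 10752), (11312, 10368), (8928, 7888), (8475,
      6608)] (.rel1 [(14352, 0), (16000, 0), (13296, 3472), (13008, 3696), (12768, 3648), (11456,
      2208), (11416, 1800)] (.rel2 [(13792, 2480), (13852, 6608), (8475, 6608), (8464, 6576), (7997,
      3658)] (.rel1 [(11416, 1800), (14352, 0), (16000, 0), (13296, 3472), (13008, 3696), (11572,
      3409)] (.rel2 [(7997, 3658), (13792, 2480), (13852, 6608), (8468, 6608)] (.rel1 [(11240, 0),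
      (16000, 0), (11769, 5433)] (.leaf ⟨0, 1, 2, 0⟩)))))) (.seg (14456, 968) (.rel1 [(14352, 0),
      (16000, 0), (13296, 3472), (13008, 3696), (12768, 3648), (11456, 2208), (11416, 1800)] (.rel2
      [(13088, 10752), (11312, 10368), (8928, 7888), (8475, 6608), (14262, 6608)] (.rel1 [(11456,
      2208), (11416, 1800), (14352, 0), (16000, 0), (13296, 3472), (12892, 3787)] (.rel2 [(8475,
      6608), (14262, 6608), (13088, 10752), (9679, 10015)] (.rel1 [(9446, 0), (16000, 0), (12977,
      3882)] (.leaf ⟨0, 1, 2, 0⟩)))))) (.rel1 [(14352, 0), (16000, 0), (13296, 3472), (13008, 3696),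
      (12768, 3648), (11456, 2208), (11416, 1800)] (.rel2 [(13088, 10752), (11312, 10368), (8928,
      7888), (8475, 6608), (14262, 6608)] (.rel1 [(11456, 2208), (11416, 1800), (14352, 0), (16000,
      0), (13296, 3472), (12892, 3787)] (.rel2 [(8475, 6608), (14262, 6608), (13088, 10752), (9679,
      10015)] (.rel1 [(16000, 0), (13296, 3472), (12892, 3787), (9446, 0)] (.leaf ⟨0, 11, 38,
      0⟩)))))))

theorem ok2_7zs_5 :
    chkT cF7nn cF7nn T2_7zs_5 (14576, 944) (14336, 992) dum n2_Z n2_S3 = true := by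
  decide +kernel

/-- tree -/
def T2_7zs_6 : CT :=
  .rel1 [(12768, 3648), (11456, 2208), (11424, 1872), (11616, 1680), (14352, 0), (16000, 0), (13106,
      3716)] (.rel2 [(13792, 2480), (13872, 7984), (13088, 10752), (11312, 10368), (8928, 7888),
      (8464, 6576), (7997, 3658)] (.rel1 [(11616, 1680), (14352, 0), (16000, 0), (13106, 3716),
      (12768, 3648), (11279, 2014)] (.rel2 [(13088, 10752), (11312, 10368), (8928, 7888), (8464,
      6576), (7997, 3658), (15532, 2125)] (.rel1 [(16000, 0), (13106, 3716), (12768, 3648), (11279,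
      2014), (13310, 0)] (.rel2 [(15532, 2125), (13088, 10752), (11312, 10368), (8928, 7888), (7468,
      3764)] (.rel1 [(16000, 0), (13106, 3716), (12768, 3648), (9442, 0)] (.rel2 [(8928, 7888),
      (7468, 3764), (15532, 2125), (12768, 11883)] (.leaf ⟨39, 0, 9, 0⟩))))))))

theorem ok2_7zs_6 :
    chkT cF7nn cF7nn T2_7zs_6 (14336, 992) (14320, 768) dum n2_Z n2_S3 = true := by
  decide +kernel

theorem fr2_7zs {z k l : ℂ} (hz : OnE v2_7zs z) (hk : k ∈ Poly p2_Z)
    (hl : l ∈ Poly p2_S3) :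
    k ^ 2 + l ^ 2 - 2 * k * l * (64 * z ^ 7 - 112 * z ^ 5 + 56 * z ^ 3 - 7 * z) + (z * (64 * z ^ 6 -
        80 * z ^ 4 + 24 * z ^ 2 - 1)) ^ 2 ≠ 0 := by
  have h := edge_use rpF7nn (E := L2_7zs) (V0 := dum) (V1 := n2_Z) (V2 := n2_S3) (fun e he => by
    simp only [L2_7zs, List.mem_cons, List.not_mem_nil, or_false] at he
    rcases he with rfl | rfl | rfl | rfl | rfl | rfl | rfl
    exacts [⟨_, ok2_7zs_0⟩, ⟨_, ok2_7zs_1⟩, ⟨_, ok2_7zs_2⟩, ⟨_, ok2_7zs_3⟩, ⟨_, ok2_7zs_4⟩, ⟨_,
        ok2_7zs_5⟩, ⟨_, ok2_7zs_6⟩]) (V := v2_7zs) (by decide) hz zero_dum (rg2_Z hk) (rg2_S3 hl)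
  rw [evF7nn (mr_false k) (mr_false l)] at h
  exact fun h0 => h (by rw [h0, mul_zero])

/-- edges -/
def L2_7ss : List ((ℕ × ℕ) × (ℕ × ℕ)) :=
  [((14176, 688), (14256, 608)), ((14256, 608), (14336, 560)), ((14336, 560), (14624, 784)),
      ((14624, 784), (14256, 1216)), ((14256, 1216), (14128, 1104)), ((14128, 1104), (14096, 816)),
      ((14096, 816), (14176, 688))]

/-- tree -/
def T2_7ss_0 : CT :=
  .rel1 [(11312, 10368), (8928, 7888), (8464, 6576), (8160, 4672), (8448, 3568), (13792, 2480),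
      (13915, 10931)] (.rel2 [(8928, 7888), (8464, 6576), (8160, 4672), (8448, 3568), (13792, 2480),
      (13872, 7984), (12768, 11883)] (.rel1 [(8928, 7888), (8464, 6576), (8160, 4672), (8448, 3568),
      (13792, 2480), (13947, 13110)] (.rel2 [(12768, 11883), (8928, 7888), (8464, 6576), (8160,
      4672), (8448, 3568), (15531, 2125)] (.rel1 [(8160, 4672), (8448, 3568), (13792, 2480), (13947,
      13110), (8621, 7569)] (.rel2 [(8464, 6576), (8160, 4672), (8448, 3568), (15531, 2125), (11689,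
      15695)] (.leaf ⟨34, 0, 0, 21⟩))))))

theorem ok2_7ss_0 :
    chkT cF7nn cF7nn T2_7ss_0 (14176, 688) (14256, 608) dum n2_S3 n2_S3 = true := by
  decide +kernel

/-- tree -/
def T2_7ss_1 : CT :=
  .rel1 [(8928, 7888), (8464, 6576), (8160, 4672), (8448, 3568), (13792, 2480), (13872, 7984),
      (12768, 11883)] (.rel2 [(13088, 10752), (11312, 10368), (8928, 7888), (8464, 6576), (8160,
      4672), (8448, 3568), (15532, 2124)] (.rel1 [(12768, 11883), (8928, 7888), (8464, 6576), (8160,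
      4672), (8448, 3568), (15531, 2125)] (.rel2 [(8464, 6576), (8160, 4672), (8448, 3568), (15532,
      2124), (13088, 10752), (9679, 10015)] (.rel1 [(8160, 4672), (8448, 3568), (15531, 2125),
      (12768, 11883), (8621, 7569)] (.rel2 [(8448, 3568), (15532, 2124), (11687, 15699), (8002,
      5271)] (.leaf ⟨6, 0, 0, 5⟩))))))

theorem ok2_7ss_1 :
    chkT cF7nn cF7nn T2_7ss_1 (14256, 608) (14336, 560) dum n2_S3 n2_S3 = true := by
  decide +kernel

/-- tree -/
def T2_7ss_2 : CT :=
  .rel1 [(11312, 10368), (8928, 7888), (8464, 6576), (8160, 4672), (8448, 3568), (13792, 2480),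
      (13915, 10931)] (.rel2 [(11312, 10368), (8928, 7888), (8464, 6576), (8160, 4672), (8448,
      3568), (13792, 2480), (13915, 10931)] (.rel1 [(8464, 6576), (8160, 4672), (8448, 3568),
      (13792, 2480), (13915, 10931), (9679, 10015)] (.rel2 [(8464, 6576), (8160, 4672), (8448,
      3568), (13792, 2480), (13915, 10931), (9679, 10015)] (.rel1 [(8448, 3568), (13792, 2480),
      (13915, 10931), (9679, 10015), (8002, 5271)] (.rel2 [(8448, 3568), (13792, 2480), (13915,
      10931), (9679, 10015), (8002, 5271)] (.rel1 [(8448, 3568), (13792, 2480), (13915, 10931),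
      (6915, 9418)] (.rel2 [(8448, 3568), (13792, 2480), (13915, 10931), (6915, 9418)] (.leaf ⟨0, 1,
      0, 12⟩))))))))

theorem ok2_7ss_2 :
    chkT cF7nn cF7nn T2_7ss_2 (14336, 560) (14624, 784) dum n2_S3 n2_S3 = true := by
  decide +kernel

/-- tree -/
def T2_7ss_3 : CT :=
  .seg (14440, 1000) (.seg (14532, 892) (.rel1 [(8928, 7888), (8464, 6576), (8160, 4672), (8448,
      3568), (13792, 2480), (13872, 7984), (12768, 11883)] (.rel2 [(8448, 3568), (13792, 2480),
      (13872, 7984), (13088, 10752), (11312, 10368), (8928, 7888), (8002, 5272)] (.rel1 [(8448,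
      3568), (13792, 2480), (13872, 7984), (12768, 11883), (8928, 7888), (8002, 5272)] (.rel2
      [(13792, 2480), (13872, 7984), (13088, 10752), (11312, 10368), (8928, 7888), (7468, 3766)]
      (.rel1 [(8448, 3568), (13792, 2480), (13872, 7984), (12768, 11883), (7661, 6570)] (.rel2
      [(13792, 2480), (13872, 7984), (13088, 10752), (11312, 10368), (5373, 4190)] (.rel1 [(13792,
      2480), (13872, 7984), (12768, 11883), (5375, 4192)] (.rel2 [(5373, 4190), (13792, 2480),
      (13872, 7984), (12768, 11883)] (.rel1 [(5375, 4192), (13792, 2480), (13947, 13110)] (.rel2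
      [(5373, 4190), (13792, 2480), (13947, 13110)] (.leaf ⟨0, 79, 13, 0⟩))))))))))) (.rel1 [(13792,
      2480), (13872, 7984), (13088, 10752), (11312, 10368), (8928, 7888), (8464, 6576), (7997,
      3658)] (.rel2 [(8160, 4672), (8448, 3568), (13792, 2480), (13872, 7984), (13088, 10752),
      (11312, 10368), (8621, 7569)] (.rel1 [(7997, 3658), (13792, 2480), (13872, 7984), (13088,
      10752), (11312, 10368), (8622, 7570)] (.rel2 [(13792, 2480), (13872, 7984), (13088, 10752),
      (11312, 10368), (8621, 7569), (7997, 3658)] (.rel1 [(13792, 2480), (13872, 7984), (13088,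
      10752), (11312, 10368), (5372, 4190)] (.rel2 [(13792, 2480), (13872, 7984), (13088, 10752),
      (11312, 10368), (5372, 4190)] (.rel1 [(5372, 4190), (13792, 2480), (13872, 7984), (12768,
      11883)] (.rel2 [(5372, 4190), (13792, 2480), (13872, 7984), (12768, 11883)] (.leaf ⟨0, 11, 5,
      0⟩)))))))))) (.seg (14348, 1108) (.cut1 false 11008 [(8160, 4672), (8448, 3568), (11008,
      3046), (11008, 10052), (8928, 7888), (8464, 6576)] [(11008, 3046), (13792, 2480), (13872,
      7984), (13088, 10752), (11312, 10368), (11008, 10052)] (.rel1 [(11008, 3046), (11008, 10052),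
      (8928, 7888), (8464, 6576), (7997, 3658)] (.rel2 [(13792, 2480), (13872, 7984), (13088,
      10752), (11312, 10368), (8928, 7888), (8464, 6576), (7997, 3658)] (.rel1 [(7997, 3658),
      (11008, 3046), (11008, 10052), (8622, 7570)] (.rel2 [(7997, 3658), (13792, 2480), (13872,
      7984), (13088, 10752), (11312, 10368), (8622, 7570)] (.rel1 [(11008, 3046), (11008, 10052),
      (5372, 4190)] (.rel2 [(12768, 11883), (5372, 4190), (15531, 2125)] (.leaf ⟨0, 2, 2, 0⟩)))))))
      (.cut2 false 11008 [(8160, 4672), (8448, 3568), (11008, 3046), (11008, 10052), (8928, 7888),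
      (8464, 6576)] [(11008, 3046), (13792, 2480), (13872, 7984), (13088, 10752), (11312, 10368),
      (11008, 10052)] (.rel1 [(13792, 2480), (13872, 7984), (13088, 10752), (11312, 10368), (5369,
      4191)] (.rel2 [(8448, 3568), (11008, 3046), (11008, 10052), (8928, 7888), (8002, 5272)] (.rel1
      [(5369, 4191), (13792, 2480), (13872, 7984), (12768, 11882)] (.rel2 [(8448, 3568), (11008,
      3046), (11008, 10052), (7661, 6570)] (.rel1 [(12768, 11882), (5369, 4191), (15532, 2125)]
      (.rel2 [(11008, 3046), (11008, 10052), (5376, 4193)] (.leaf ⟨0, 2, 2, 0⟩))))))) (.seg (14394,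
      1054) (.rel1 [(11008, 10052), (11008, 3046), (13792, 2480), (13872, 7984), (12768, 11882)]
      (.rel2 [(11008, 10052), (11008, 3046), (13792, 2480), (13872, 7984), (12768, 11882)] (.rel1
      [(13792, 2480), (13872, 7984), (12768, 11882), (5370, 4190)] (.rel2 [(13792, 2480), (13872,
      7984), (12768, 11882), (5370, 4190)] (.leaf ⟨0, 4, 3, 0⟩))))) (.rel1 [(11008, 3046), (13792,
      2480), (13872, 7984), (13088, 10752), (11007, 10303)] (.rel2 [(11008, 3046), (13792, 2480),
      (13872, 7984), (13088, 10752), (11007, 10303)] (.leaf ⟨0, 2, 2, 0⟩)))))) (.rel1 [(13792,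
      2480), (13872, 7984), (13088, 10752), (11312, 10368), (8928, 7888), (8464, 6576), (7997,
      3658)] (.rel2 [(13792, 2480), (13872, 7984), (13088, 10752), (11312, 10368), (8928, 7888),
      (8464, 6576), (7997, 3658)] (.rel1 [(8464, 6576), (7997, 3658), (13792, 2480), (13872, 7984),
      (13088, 10752), (9679, 10015)] (.rel2 [(13792, 2480), (13872, 7984), (13088, 10752), (11312,
      10368), (8928, 7888), (7468, 3764)] (.rel1 [(7997, 3658), (13792, 2480), (13872, 7984),
      (13088, 10752), (8989, 9866)] (.rel2 [(13792, 2480), (13872, 7984), (13088, 10752), (11312,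
      10368), (5371, 4188)] (.rel1 [(13088, 10752), (8989, 9866), (7997, 3658), (15532, 2125)]
      (.rel2 [(5371, 4188), (15531, 2127), (12768, 11883)] (.leaf ⟨0, 4, 7, 0⟩))))))))))

theorem ok2_7ss_3 :
    chkT cF7nn cF7nn T2_7ss_3 (14624, 784) (14256, 1216) dum n2_S3 n2_S3 = true := by
  decide +kernel

/-- tree -/
def T2_7ss_4 : CT :=
  .rel1 [(13792, 2480), (13872, 7984), (13088, 10752), (11312, 10368), (8928, 7888), (8464, 6576),
      (7997, 3658)] (.rel2 [(13792, 2480), (13872, 7984), (13088, 10752), (11312, 10368), (8928,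
      7888), (8464, 6576), (7997, 3658)] (.rel1 [(13088, 10752), (11312, 10368), (8928, 7888),
      (8464, 6576), (7997, 3658), (15532, 2125)] (.rel2 [(13088, 10752), (11312, 10368), (8928,
      7888), (8464, 6576), (7997, 3658), (15532, 2125)] (.rel1 [(7997, 3658), (15532, 2125), (13088,
      10752), (11312, 10368), (8622, 7570)] (.rel2 [(7997, 3658), (15532, 2125), (13088, 10752),
      (11312, 10368), (8622, 7570)] (.rel1 [(15532, 2125), (13088, 10752), (11312, 10368), (5373,
      4191)] (.rel2 [(15532, 2125), (13088, 10752), (11312, 10368), (5373, 4191)] (.leaf ⟨7, 0, 4,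
      0⟩))))))))

theorem ok2_7ss_4 :
    chkT cF7nn cF7nn T2_7ss_4 (14256, 1216) (14128, 1104) dum n2_S3 n2_S3 = true := by
  decide +kernel

/-- tree -/
def T2_7ss_5 : CT :=
  .cut1 true 6608 [(8160, 4672), (8448, 3568), (13792, 2480), (13852, 6608), (8475, 6608), (8464,
      6576)] [(13852, 6608), (13872, 7984), (13088, 10752), (11312, 10368), (8928, 7888), (8475,
      6608)] (.rel1 [(13792, 2480), (13852, 6608), (8475, 6608), (8464, 6576), (7997, 3658)] (.rel2
      [(13792, 2480), (13872, 7984), (13088, 10752), (11312, 10368), (8928, 7888), (8464, 6576),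
      (7997, 3658)] (.rel1 [(13792, 2480), (13852, 6608), (8475, 6608), (7494, 3758)] (.rel2 [(5371,
      4188), (15532, 2125), (12768, 11883)] (.leaf ⟨1, 0, 0, 0⟩))))) (.cut2 true 6608 [(8160, 4672),
      (8448, 3568), (13792, 2480), (13852, 6608), (8475, 6608), (8464, 6576)] [(13852, 6608),
      (13872, 7984), (13088, 10752), (11312, 10368), (8928, 7888), (8475, 6608)] (.rel1 [(13088,
      10752), (11312, 10368), (8928, 7888), (8475, 6608), (14262, 6608)] (.rel2 [(13792, 2480),
      (13852, 6608), (8475, 6608), (8464, 6576), (7997, 3658)] (.rel1 [(14262, 6608), (13088,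
      10752), (11312, 10368), (7696, 6607)] (.rel2 [(13792, 2480), (13852, 6608), (8475, 6608),
      (7494, 3758)] (.rel1 [(7696, 6607), (14262, 6608), (12768, 11883)] (.leaf ⟨1, 0, 0, 0⟩))))))
      (.cut1 true 8672 [(13852, 6608), (13872, 7984), (13678, 8672), (9681, 8672), (8928, 7888),
      (8475, 6608)] [(13678, 8672), (13088, 10752), (11312, 10368), (9681, 8672)] (.cut1 false 11168
      [(11168, 8672), (9681, 8672), (8928, 7888), (8475, 6608), (11168, 6608)] [(13852, 6608),
      (13872, 7984), (13678, 8672), (11168, 8672), (11168, 6608)] (.cut2 true 8672 [(13852, 6608),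
      (13872, 7984), (13678, 8672), (9681, 8672), (8928, 7888), (8475, 6608)] [(13678, 8672),
      (13088, 10752), (11312, 10368), (9681, 8672)] (.rel1 [(11168, 6608), (11168, 8672), (9681,
      8672), (7697, 6607)] (.rel2 [(14260, 6608), (13678, 8672), (9681, 8672), (7697, 6607)] (.leaf
      ⟨1, 0, 0, 0⟩))) (.cut2 false 11664 [(11664, 10445), (11312, 10368), (9681, 8672), (11664,
      8672)] [(13678, 8672), (13088, 10752), (11664, 10445), (11664, 8672)] (.seg (14112, 960)
      (.rel1 [(11168, 6608), (11168, 8672), (9681, 8672), (7697, 6607)] (.leaf ⟨1, 0, 0, 0⟩)) (.cut2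
      true 9552 [(10527, 9552), (9681, 8672), (11664, 8672), (11664, 9552)] [(11664, 10445), (11312,
      10368), (10527, 9552), (11664, 9552)] (.rel1 [(11168, 6608), (11168, 8672), (9681, 8672),
      (7697, 6607)] (.leaf ⟨1, 0, 0, 0⟩)) (.rel1 [(8928, 7888), (8475, 6608), (11168, 6608), (11168,
      10221)] (.rel2 [(10527, 9552), (11664, 9552), (11664, 10734)] (.rel1 [(11168, 6608), (11168,
      10221), (7698, 6607)] (.leaf ⟨79, 0, 0, 13⟩)))))) (.rel1 [(7697, 6607), (11168, 6608), (11168,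
      10220)] (.leaf ⟨79, 0, 0, 13⟩)))) (.rel1 [(13678, 8672), (11168, 8672), (11168, 6608), (14260,
      6608)] (.rel2 [(7696, 6607), (14262, 6608), (12768, 11883)] (.leaf ⟨1, 0, 0, 0⟩)))) (.cut1
      false 11664 [(11664, 10445), (11312, 10368), (9681, 8672), (11664, 8672)] [(13678, 8672),
      (13088, 10752), (11664, 10445), (11664, 8672)] (.cut2 true 8672 [(13852, 6608), (13872, 7984),
      (13678, 8672), (9681, 8672), (8928, 7888), (8475, 6608)] [(13678, 8672), (13088, 10752),
      (11312, 10368), (9681, 8672)] (.cut2 false 11168 [(11168, 8672), (9681, 8672), (8928, 7888),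
      (8475, 6608), (11168, 6608)] [(13852, 6608), (13872, 7984), (13678, 8672), (11168, 8672),
      (11168, 6608)] (.seg (14112, 960) (.rel2 [(11168, 6608), (11168, 8672), (9681, 8672), (7697,
      6607)] (.leaf ⟨1, 0, 0, 0⟩)) (.cut1 true 9552 [(10527, 9552), (9681, 8672), (11664, 8672),
      (11664, 9552)] [(11664, 10445), (11312, 10368), (10527, 9552), (11664, 9552)] (.rel2 [(11168,
      6608), (11168, 8672), (9681, 8672), (7697, 6607)] (.leaf ⟨1, 0, 0, 0⟩)) (.rel1 [(10527, 9552),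
      (11664, 9552), (11664, 10734)] (.rel2 [(11168, 6608), (11168, 10221), (7698, 6607)] (.leaf
      ⟨79, 0, 0, 13⟩))))) (.rel1 [(9681, 8672), (11664, 8672), (11664, 10735)] (.rel2 [(13678,
      8672), (11168, 8672), (11168, 6608), (14260, 6608)] (.leaf ⟨1, 0, 0, 0⟩)))) (.rel1 [(9681,
      8672), (11664, 8672), (11664, 10735)] (.rel2 [(9681, 8672), (13678, 8672), (12768, 11883)]
      (.leaf ⟨79, 0, 0, 13⟩)))) (.rel2 [(14262, 6608), (12768, 11883), (7696, 6607)] (.leaf ⟨79, 0,
      0, 13⟩)))))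

theorem ok2_7ss_5 :
    chkT cF7nn cF7nn T2_7ss_5 (14128, 1104) (14096, 816) dum n2_S3 n2_S3 = true := by
  decide +kernel

/-- tree -/
def T2_7ss_6 : CT :=
  .rel1 [(13088, 10752), (11312, 10368), (8928, 7888), (8464, 6576), (8160, 4672), (8448, 3568),
      (15532, 2124)] (.rel2 [(13088, 10752), (11312, 10368), (8928, 7888), (8464, 6576), (8160,
      4672), (8448, 3568), (15532, 2124)] (.rel1 [(8928, 7888), (8464, 6576), (8160, 4672), (8448,
      3568), (15532, 2124), (12768, 11883)] (.rel2 [(8928, 7888), (8464, 6576), (8160, 4672), (8448,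
      3568), (15532, 2124), (12768, 11883)] (.rel1 [(15532, 2124), (12768, 11883), (8928, 7888),
      (8464, 6576), (7997, 3658)] (.rel2 [(15532, 2124), (12768, 11883), (8928, 7888), (8464, 6576),
      (7997, 3658)] (.rel1 [(15532, 2124), (12768, 11883), (8928, 7888), (7468, 3764)] (.leaf ⟨11,
      0, 0, 5⟩)))))))

theorem ok2_7ss_6 :
    chkT cF7nn cF7nn T2_7ss_6 (14096, 816) (14176, 688) dum n2_S3 n2_S3 = true := by
  decide +kernel

theorem fr2_7ss {z k l : ℂ} (hz : OnE v2_7ss z) (hk : k ∈ Poly p2_S3)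
    (hl : l ∈ Poly p2_S3) :
    k ^ 2 + l ^ 2 - 2 * k * l * (64 * z ^ 7 - 112 * z ^ 5 + 56 * z ^ 3 - 7 * z) + (z * (64 * z ^ 6 -
        80 * z ^ 4 + 24 * z ^ 2 - 1)) ^ 2 ≠ 0 := by
  have h := edge_use rpF7nn (E := L2_7ss) (V0 := dum) (V1 := n2_S3) (V2 := n2_S3) (fun e he => by
    simp only [L2_7ss, List.mem_cons, List.not_mem_nil, or_false] at he
    rcases he with rfl | rfl | rfl | rfl | rfl | rfl | rfl
    exacts [⟨_, ok2_7ss_0⟩, ⟨_, ok2_7ss_1⟩, ⟨_, ok2_7ss_2⟩, ⟨_, ok2_7ss_3⟩, ⟨_, ok2_7ss_4⟩, ⟨_,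
        ok2_7ss_5⟩, ⟨_, ok2_7ss_6⟩]) (V := v2_7ss) (by decide) hz zero_dum (rg2_S3 hk) (rg2_S3 hl)
  rw [evF7nn (mr_false k) (mr_false l)] at h
  exact fun h0 => h (by rw [h0, mul_zero])

end Pool.Agent.Work.MP_b30479_gt.G2.SC
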