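import Pool.Agent.Work.MP_b30479_gt.G2.SRefV
import Pool.Agent.Work.MP_b30479_gt.G2.S2CfgB
import Pool.Agent.Work.MP_b30479_gt.G2.S2CertS

/-!
# Refined rings, round 3, 7 crossings

Generated certificates (see `S2Cert`).
-/

set_option linter.style.longLine false

namespace Pool.Agent.Work.MP_b30479_gt.G2.SC

open scoped ComplexConjugate

/-- edges -/
def L3_7ea : List ((ℕ × ℕ) × (ℕ × ℕ)) :=
  [((14512, 192), (14560, 160)), ((14560, 160), (14640, 176)), ((14640, 176), (14752, 288)),
      ((14752, 288), (14512, 448)), ((14512, 448), (14480, 384)), ((14480, 384), (14512, 192))]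

/-- tree -/
def T3_7ea_0 : CT :=
  .rel2 [(6848, 3888), (10720, 1344), (14480, 0), (16000, 0), (13001, 11341), (6792, 7219)] (.leaf
      ⟨7, 0, 4, 0⟩)

theorem ok3_7ea_0 :
    chkT cG7m cG7m T3_7ea_0 (14512, 192) (14560, 160) dum dum n3_A2 = true := by
  decide +kernel

/-- tree -/
def T3_7ea_1 : CT :=
  .rel2 [(6816, 5856), (6906, 0), (16000, 0), (11596, 16656)] (.leaf ⟨19, 0, 0, 6⟩)

theorem ok3_7ea_1 :
    chkT cG7m cG7m T3_7ea_1 (14560, 160) (14640, 176) dum dum n3_A2 = true := by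
  decide +kernel

/-- tree -/
def T3_7ea_2 : CT :=
  .rel2 [(7680, 7808), (4222, 0), (16000, 0), (13001, 11341)] (.leaf ⟨11, 0, 0, 17⟩)

theorem ok3_7ea_2 :
    chkT cG7m cG7m T3_7ea_2 (14640, 176) (14752, 288) dum dum n3_A2 = true := by
  decide +kernel

/-- tree -/
def T3_7ea_3 : CT :=
  .cut2 false 11408 [(6848, 3888), (10720, 1344), (11408, 1098), (11408, 10283), (7680, 7808),
      (6816, 5856)] [(11408, 1098), (14480, 0), (16000, 0), (13152, 10768), (11440, 10304), (11408,
      10283)] (.rel2 [(11408, 1098), (11408, 10283), (2408, 4310)] (.leaf ⟨0, 1, 0, 0⟩)) (.seg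
      (14632, 368) (.rel2 [(11407, 0), (16000, 0), (11407, 17366)] (.leaf ⟨0, 77, 0, 22⟩)) (.rel2
      [(2345, 4336), (14480, 0), (16000, 0), (13004, 11331)] (.leaf ⟨0, 39, 0, 9⟩)))

theorem ok3_7ea_3 :
    chkT cG7m cG7m T3_7ea_3 (14752, 288) (14512, 448) dum dum n3_A2 = true := by
  decide +kernel

/-- tree -/
def T3_7ea_4 : CT :=
  .rel2 [(16000, 0), (6323, 36595), (6907, 0)] (.leaf ⟨0, 1, 8, 0⟩)

theorem ok3_7ea_4 :
    chkT cG7m cG7m T3_7ea_4 (14512, 448) (14480, 384) dum dum n3_A2 = true := by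
  decide +kernel

/-- tree -/
def T3_7ea_5 : CT :=
  .rel2 [(10720, 1344), (14480, 0), (16000, 0), (13001, 11341), (4297, 5563)] (.leaf ⟨1, 0, 2, 0⟩)

theorem ok3_7ea_5 :
    chkT cG7m cG7m T3_7ea_5 (14480, 384) (14512, 192) dum dum n3_A2 = true := by
  decide +kernel

theorem fr3_7ea {z k : ℂ} (hz : OnE v3_7ea z) (hk : conj k ∈ Poly p3_A2) :
    k + Complex.I * z * (64 * z ^ 6 - 80 * z ^ 4 + 24 * z ^ 2 - 1) ≠ 0 := by
  have h := edge_use rpG7m (E := L3_7ea) (V0 := dum) (V1 := dum) (V2 := n3_A2) (fun e he => by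
    simp only [L3_7ea, List.mem_cons, List.not_mem_nil, or_false] at he
    rcases he with rfl | rfl | rfl | rfl | rfl | rfl
    exacts [⟨_, ok3_7ea_0⟩, ⟨_, ok3_7ea_1⟩, ⟨_, ok3_7ea_2⟩, ⟨_, ok3_7ea_3⟩, ⟨_, ok3_7ea_4⟩, ⟨_,
        ok3_7ea_5⟩]) (V := v3_7ea) (by decide) hz zero_dum zero_dum (rg3_A2 hk)
  rw [evG7m (mr_true k)] at h
  exact fun h0 => h (by rw [h0, mul_zero])

/-- edges -/
def L3_7ez : List ((ℕ × ℕ) × (ℕ × ℕ)) :=
  [((14384, 400), (14416, 336)), ((14416, 336), (14528, 416)), ((14528, 416), (14528, 448)),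
      ((14528, 448), (14400, 416)), ((14400, 416), (14384, 400))]

/-- tree -/
def T3_7ez_0 : CT :=
  .rel2 [(18064, 0), (13016, 3366), (9295, 0)] (.leaf ⟨2, 0, 2, 0⟩)

theorem ok3_7ez_0 :
    chkT cG7n cG7n T3_7ez_0 (14384, 400) (14416, 336) dum dum n3_Z = true := by
  decide +kernel

/-- tree -/
def T3_7ez_1 : CT :=
  .rel2 [(11680, 1760), (14352, 0), (18064, 0), (11195, 4581)] (.leaf ⟨11, 0, 0, 17⟩)

theorem ok3_7ez_1 :
    chkT cG7n cG7n T3_7ez_1 (14416, 336) (14528, 416) dum dum n3_Z = true := by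
  decide +kernel

/-- tree -/
def T3_7ez_2 : CT :=
  .rel2 [(16000, 0), (13240, 3524), (8582, 0)] (.leaf ⟨0, 1, 0, 2⟩)

theorem ok3_7ez_2 :
    chkT cG7n cG7n T3_7ez_2 (14528, 416) (14528, 448) dum dum n3_Z = true := by
  decide +kernel

/-- tree -/
def T3_7ez_3 : CT :=
  .rel2 [(11980, 0), (16000, 0), (10853, 6571)] (.leaf ⟨0, 4, 3, 0⟩)

theorem ok3_7ez_3 :
    chkT cG7n cG7n T3_7ez_3 (14528, 448) (14400, 416) dum dum n3_Z = true := by
  decide +kernel

/-- tree -/
def T3_7ez_4 : CT :=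
  .rel2 [(13024, 3360), (8541, 0), (18064, 0)] (.leaf ⟨0, 0, 1, 0⟩)

theorem ok3_7ez_4 :
    chkT cG7n cG7n T3_7ez_4 (14400, 416) (14384, 400) dum dum n3_Z = true := by
  decide +kernel

theorem fr3_7ez {z k : ℂ} (hz : OnE v3_7ez z) (hk : k ∈ Poly p3_Z) :
    k + Complex.I * z * (64 * z ^ 6 - 80 * z ^ 4 + 24 * z ^ 2 - 1) ≠ 0 := by
  have h := edge_use rpG7n (E := L3_7ez) (V0 := dum) (V1 := dum) (V2 := n3_Z) (fun e he => by
    simp only [L3_7ez, List.mem_cons, List.not_mem_nil, or_false] at he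
    rcases he with rfl | rfl | rfl | rfl | rfl
    exacts [⟨_, ok3_7ez_0⟩, ⟨_, ok3_7ez_1⟩, ⟨_, ok3_7ez_2⟩, ⟨_, ok3_7ez_3⟩, ⟨_, ok3_7ez_4⟩]) (V :=
        v3_7ez) (by decide) hz zero_dum zero_dum (rg3_Z hk)
  rw [evG7n (mr_false k)] at h
  exact fun h0 => h (by rw [h0, mul_zero])

/-- edges -/
def L3_7es : List ((ℕ × ℕ) × (ℕ × ℕ)) :=
  [((14160, 480), (14208, 320)), ((14208, 320), (14336, 256)), ((14336, 256), (14448, 416)),
      ((14448, 416), (14288, 496)), ((14288, 496), (14192, 528)), ((14192, 528), (14160, 480))]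

/-- tree -/
def T3_7es_0 : CT :=
  .rel2 [(5330, 4233), (13792, 2544), (13943, 12792)] (.leaf ⟨2, 0, 2, 0⟩)

theorem ok3_7es_0 :
    chkT cG7n cG7n T3_7es_0 (14160, 480) (14208, 320) dum dum n3_S3 = true := by
  decide +kernel

/-- tree -/
def T3_7es_1 : CT :=
  .rel2 [(15557, 2190), (11487, 16191), (8544, 6592), (8104, 3680)] (.leaf ⟨79, 0, 13, 0⟩)

theorem ok3_7es_1 :
    chkT cG7n cG7n T3_7es_1 (14208, 320) (14336, 256) dum dum n3_S3 = true := by
  decide +kernel

/-- tree -/
def T3_7es_2 : CT :=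
  .rel2 [(13792, 2544), (14120, 24795), (7676, 3765)] (.leaf ⟨1, 0, 0, 5⟩)

theorem ok3_7es_2 :
    chkT cG7n cG7n T3_7es_2 (14336, 256) (14448, 416) dum dum n3_S3 = true := by
  decide +kernel

/-- tree -/
def T3_7es_3 : CT :=
  .rel2 [(8104, 3680), (13792, 2544), (13872, 7984), (10502, 19584)] (.leaf ⟨0, 1, 0, 0⟩)

theorem ok3_7es_3 :
    chkT cG7n cG7n T3_7es_3 (14448, 416) (14288, 496) dum dum n3_S3 = true := by
  decide +kernel

/-- tree -/
def T3_7es_4 : CT :=
  .rel2 [(11486, 16195), (7677, 3764), (15556, 2191)] (.leaf ⟨0, 77, 22, 0⟩)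

theorem ok3_7es_4 :
    chkT cG7n cG7n T3_7es_4 (14288, 496) (14192, 528) dum dum n3_S3 = true := by
  decide +kernel

/-- tree -/
def T3_7es_5 : CT :=
  .rel2 [(15557, 2190), (13072, 10736), (11440, 10304), (5329, 4234)] (.leaf ⟨0, 0, 1, 0⟩)

theorem ok3_7es_5 :
    chkT cG7n cG7n T3_7es_5 (14192, 528) (14160, 480) dum dum n3_S3 = true := by
  decide +kernel

theorem fr3_7es {z k : ℂ} (hz : OnE v3_7es z) (hk : k ∈ Poly p3_S3) :
    k + Complex.I * z * (64 * z ^ 6 - 80 * z ^ 4 + 24 * z ^ 2 - 1) ≠ 0 := by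
  have h := edge_use rpG7n (E := L3_7es) (V0 := dum) (V1 := dum) (V2 := n3_S3) (fun e he => by
    simp only [L3_7es, List.mem_cons, List.not_mem_nil, or_false] at he
    rcases he with rfl | rfl | rfl | rfl | rfl | rfl
    exacts [⟨_, ok3_7es_0⟩, ⟨_, ok3_7es_1⟩, ⟨_, ok3_7es_2⟩, ⟨_, ok3_7es_3⟩, ⟨_, ok3_7es_4⟩, ⟨_,
        ok3_7es_5⟩]) (V := v3_7es) (by decide) hz zero_dum zero_dum (rg3_S3 hk)
  rw [evG7n (mr_false k)] at h
  exact fun h0 => h (by rw [h0, mul_zero])

/-- edges -/
def L3_7aa : List ((ℕ × ℕ) × (ℕ × ℕ)) :=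
  [((14672, 304), (14800, 272)), ((14800, 272), (14848, 288)), ((14848, 288), (15040, 400)),
      ((15040, 400), (14768, 784)), ((14768, 784), (14720, 736)), ((14720, 736), (14640, 544)),
      ((14640, 544), (14672, 304))]

/-- tree -/
def T3_7aa_0 : CT :=
  .rel1 [(7680, 7808), (6816, 5856), (6848, 3888), (10720, 1344), (14480, 0), (16000, 0), (13001,
      11341)] (.rel2 [(7680, 7808), (6816, 5856), (6848, 3888), (10720, 1344), (14480, 0), (16000,
      0), (13001, 11341)] (.rel1 [(6816, 5856), (6848, 3888), (10720, 1344), (14480, 0), (16000, 0),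
      (11596, 16656)] (.rel2 [(6816, 5856), (6848, 3888), (10720, 1344), (14480, 0), (16000, 0),
      (11596, 16656)] (.rel1 [(14480, 0), (16000, 0), (11596, 16656), (6816, 5856), (6865, 2720)]
      (.rel2 [(14480, 0), (16000, 0), (11596, 16656), (6816, 5856), (6865, 2720)] (.leaf ⟨10, 0, 7,
      0⟩))))))

theorem ok3_7aa_0 :
    chkT cF7mm cF7mm T3_7aa_0 (14672, 304) (14800, 272) dum n3_A2 n3_A2 = true := by
  decide +kernel

/-- tree -/
def T3_7aa_1 : CT :=
  .rel1 [(14480, 0), (16000, 0), (13152, 10768), (11440, 10304), (7680, 7808), (6816, 5856), (6865,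
      2720)] (.rel2 [(14480, 0), (16000, 0), (13152, 10768), (11440, 10304), (7680, 7808), (6816,
      5856), (6865, 2720)] (.rel1 [(7680, 7808), (6816, 5856), (6865, 2720), (14480, 0), (16000, 0),
      (13001, 11341)] (.rel2 [(7680, 7808), (6816, 5856), (6865, 2720), (14480, 0), (16000, 0),
      (13001, 11341)] (.rel1 [(16000, 0), (13001, 11341), (7680, 7808), (6816, 5856), (6906, 0)]
      (.rel2 [(16000, 0), (13001, 11341), (7680, 7808), (6816, 5856), (6906, 0)] (.rel1 [(16000, 0),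
      (13001, 11341), (7680, 7808), (4223, 0)] (.rel2 [(16000, 0), (13001, 11341), (7680, 7808),
      (4223, 0)] (.leaf ⟨39, 0, 9, 0⟩))))))))

theorem ok3_7aa_1 :
    chkT cF7mm cF7mm T3_7aa_1 (14800, 272) (14848, 288) dum n3_A2 n3_A2 = true := by
  decide +kernel

/-- tree -/
def T3_7aa_2 : CT :=
  .cut1 true 5376 [(6848, 3888), (10720, 1344), (14480, 0), (16000, 0), (14579, 5376), (6823, 5376)]
      [(14579, 5376), (13152, 10768), (11440, 10304), (7680, 7808), (6816, 5856), (6823, 5376)]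
      (.rel1 [(14480, 0), (16000, 0), (14579, 5376), (6823, 5376), (6866, 2720)] (.rel2 [(14480, 0),
      (16000, 0), (13152, 10768), (11440, 10304), (7680, 7808), (6816, 5856), (6865, 2720)] (.rel1
      [(16000, 0), (14579, 5376), (6823, 5376), (6909, 0)] (.rel2 [(4222, 0), (16000, 0), (13152,
      10768), (8422, 9487)] (.leaf ⟨7, 0, 0, 4⟩))))) (.cut2 true 5376 [(6848, 3888), (10720, 1344),
      (14480, 0), (16000, 0), (14579, 5376), (6823, 5376)] [(14579, 5376), (13152, 10768), (11440,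
      10304), (7680, 7808), (6816, 5856), (6823, 5376)] (.rel1 [(14579, 5376), (13152, 10768),
      (11440, 10304), (7680, 7808), (6602, 5375)] (.rel2 [(14480, 0), (16000, 0), (14579, 5376),
      (6823, 5376), (6866, 2720)] (.rel1 [(14579, 5376), (13152, 10768), (11440, 10304), (4013,
      5374)] (.rel2 [(16000, 0), (14579, 5376), (6823, 5376), (6909, 0)] (.rel1 [(4013, 5374),
      (14579, 5376), (13001, 11341)] (.leaf ⟨11, 0, 0, 5⟩)))))) (.seg (14944, 344) (.seg (14896,
      316) (.rel1 [(14579, 5376), (13152, 10768), (11440, 10304), (7680, 7808), (6602, 5375)] (.rel2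
      [(14579, 5376), (13152, 10768), (11440, 10304), (7680, 7808), (6602, 5375)] (.rel1 [(7680,
      7808), (6602, 5375), (14579, 5376), (13001, 11341)] (.rel2 [(7680, 7808), (6602, 5375),
      (14579, 5376), (13001, 11341)] (.leaf ⟨1, 0, 0, 0⟩))))) (.rel1 [(14579, 5376), (13152, 10768),
      (11440, 10304), (7680, 7808), (6602, 5375)] (.rel2 [(14579, 5376), (13152, 10768), (11440,
      10304), (7680, 7808), (6602, 5375)] (.rel1 [(7680, 7808), (6602, 5375), (14579, 5376), (13001,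
      11341)] (.rel2 [(14579, 5376), (13152, 10768), (11440, 10304), (4013, 5374)] (.rel1 [(14579,
      5376), (13001, 11341), (4014, 5374)] (.rel2 [(4013, 5374), (14579, 5376), (13001, 11341)]
      (.leaf ⟨79, 0, 0, 13⟩)))))))) (.rel1 [(14579, 5376), (13152, 10768), (11440, 10304), (7680,
      7808), (6602, 5375)] (.rel2 [(14579, 5376), (13152, 10768), (11440, 10304), (7680, 7808),
      (6602, 5375)] (.rel1 [(14579, 5376), (13152, 10768), (11440, 10304), (4013, 5374)] (.rel2
      [(14579, 5376), (13152, 10768), (11440, 10304), (4013, 5374)] (.rel1 [(4013, 5374), (14579,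
      5376), (13001, 11341)] (.rel2 [(4013, 5374), (14579, 5376), (13001, 11341)] (.leaf ⟨79, 0, 0,
      13⟩)))))))))

theorem ok3_7aa_2 :
    chkT cF7mm cF7mm T3_7aa_2 (14848, 288) (15040, 400) dum n3_A2 n3_A2 = true := by
  decide +kernel

/-- tree -/
def T3_7aa_3 : CT :=
  .seg (14904, 592) (.seg (14972, 496) (.rel1 [(14480, 0), (16000, 0), (13152, 10768), (11440,
      10304), (7680, 7808), (6816, 5856), (6865, 2720)] (.rel2 [(6848, 3888), (10720, 1344), (14480,
      0), (16000, 0), (13152, 10768), (11440, 10304), (6792, 7219)] (.rel1 [(6816, 5856), (6865,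
      2720), (14480, 0), (16000, 0), (13152, 10768), (8421, 9486)] (.rel2 [(14480, 0), (16000, 0),
      (13152, 10768), (11440, 10304), (6792, 7219), (6866, 2720)] (.rel1 [(14480, 0), (16000, 0),
      (13152, 10768), (8421, 9486), (5624, 3161)] (.rel2 [(6866, 2720), (14480, 0), (16000, 0),
      (13152, 10768), (6761, 9036)] (.rel1 [(16000, 0), (13152, 10768), (8421, 9486), (4225, 0)]
      (.rel2 [(16000, 0), (13152, 10768), (6761, 9036), (6910, 0)] (.leaf ⟨0, 3, 0, 7⟩)))))))))
      (.rel1 [(14480, 0), (16000, 0), (13152, 10768), (11440, 10304), (7680, 7808), (6816, 5856),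
      (6865, 2720)] (.rel2 [(14480, 0), (16000, 0), (13152, 10768), (11440, 10304), (7680, 7808),
      (6816, 5856), (6865, 2720)] (.rel1 [(6816, 5856), (6865, 2720), (14480, 0), (16000, 0),
      (13152, 10768), (8421, 9486)] (.rel2 [(6816, 5856), (6865, 2720), (14480, 0), (16000, 0),
      (13152, 10768), (8421, 9486)] (.rel1 [(14480, 0), (16000, 0), (13152, 10768), (8421, 9486),
      (5624, 3161)] (.rel2 [(14480, 0), (16000, 0), (13152, 10768), (8421, 9486), (5624, 3161)]
      (.rel1 [(16000, 0), (13152, 10768), (8421, 9486), (4225, 0)] (.rel2 [(16000, 0), (13152,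
      10768), (8421, 9486), (4225, 0)] (.leaf ⟨0, 25, 0, 31⟩)))))))))) (.seg (14836, 688) (.rel1
      [(14480, 0), (16000, 0), (13152, 10768), (11440, 10304), (7680, 7808), (6816, 5856), (6865,
      2720)] (.rel2 [(14480, 0), (16000, 0), (13152, 10768), (11440, 10304), (7680, 7808), (6816,
      5856), (6865, 2720)] (.rel1 [(6816, 5856), (6865, 2720), (14480, 0), (16000, 0), (13152,
      10768), (8421, 9486)] (.rel2 [(6816, 5856), (6865, 2720), (14480, 0), (16000, 0), (13152,
      10768), (8421, 9486)] (.rel1 [(14480, 0), (16000, 0), (13152, 10768), (8421, 9486), (5624,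
      3161)] (.rel2 [(14480, 0), (16000, 0), (13152, 10768), (8421, 9486), (5624, 3161)] (.rel1
      [(16000, 0), (13152, 10768), (8421, 9486), (4225, 0)] (.rel2 [(16000, 0), (13152, 10768),
      (8421, 9486), (4225, 0)] (.leaf ⟨0, 10, 0, 7⟩))))))))) (.rel1 [(14480, 0), (16000, 0), (13152,
      10768), (11440, 10304), (7680, 7808), (6816, 5856), (6865, 2720)] (.rel2 [(14480, 0), (16000,
      0), (13152, 10768), (11440, 10304), (7680, 7808), (6816, 5856), (6865, 2720)] (.rel1 [(6816,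
      5856), (6865, 2720), (14480, 0), (16000, 0), (13152, 10768), (8421, 9486)] (.rel2 [(6865,
      2720), (14480, 0), (16000, 0), (13152, 10768), (11440, 10304), (6793, 7220)] (.rel1 [(6865,
      2720), (14480, 0), (16000, 0), (13152, 10768), (6765, 9038)] (.rel2 [(16000, 0), (13152,
      10768), (11440, 10304), (6793, 7220), (6907, 0)] (.rel1 [(16000, 0), (13152, 10768), (6765,
      9038), (6907, 0)] (.rel2 [(6907, 0), (16000, 0), (6324, 36584)] (.leaf ⟨0, 76, 0,
      25⟩))))))))))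

theorem ok3_7aa_3 :
    chkT cF7mm cF7mm T3_7aa_3 (15040, 400) (14768, 784) dum n3_A2 n3_A2 = true := by
  decide +kernel

/-- tree -/
def T3_7aa_4 : CT :=
  .rel1 [(14480, 0), (16000, 0), (13152, 10768), (11440, 10304), (7680, 7808), (6816, 5856), (6865,
      2720)] (.rel2 [(14480, 0), (16000, 0), (13152, 10768), (11440, 10304), (7680, 7808), (6816,
      5856), (6865, 2720)] (.rel1 [(7680, 7808), (6816, 5856), (6865, 2720), (14480, 0), (16000, 0),
      (13001, 11341)] (.rel2 [(7680, 7808), (6816, 5856), (6865, 2720), (14480, 0), (16000, 0),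
      (13001, 11341)] (.rel1 [(6865, 2720), (14480, 0), (16000, 0), (13001, 11341), (6793, 7220)]
      (.rel2 [(14480, 0), (16000, 0), (13001, 11341), (7680, 7808), (5623, 3162)] (.rel1 [(6865,
      2720), (14480, 0), (16000, 0), (6323, 36595)] (.rel2 [(5623, 3162), (14480, 0), (16000, 0),
      (11596, 16655)] (.rel1 [(16000, 0), (6323, 36595), (6907, 0)] (.rel2 [(16000, 0), (11596,
      16655), (4222, 0)] (.leaf ⟨0, 1, 5, 0⟩))))))))))

theorem ok3_7aa_4 :
    chkT cF7mm cF7mm T3_7aa_4 (14768, 784) (14720, 736) dum n3_A2 n3_A2 = true := by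
  decide +kernel

/-- tree -/
def T3_7aa_5 : CT :=
  .rel1 [(7680, 7808), (6816, 5856), (6848, 3888), (10720, 1344), (14480, 0), (16000, 0), (13001,
      11341)] (.rel2 [(7680, 7808), (6816, 5856), (6848, 3888), (10720, 1344), (14480, 0), (16000,
      0), (13001, 11341)] (.rel1 [(6848, 3888), (10720, 1344), (14480, 0), (16000, 0), (13001,
      11341), (6792, 7219)] (.rel2 [(6848, 3888), (10720, 1344), (14480, 0), (16000, 0), (13001,
      11341), (6792, 7219)] (.leaf ⟨17, 0, 78, 0⟩))))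

theorem ok3_7aa_5 :
    chkT cF7mm cF7mm T3_7aa_5 (14720, 736) (14640, 544) dum n3_A2 n3_A2 = true := by
  decide +kernel

/-- tree -/
def T3_7aa_6 : CT :=
  .cut1 true 5376 [(6848, 3888), (10720, 1344), (14480, 0), (16000, 0), (14579, 5376), (6823, 5376)]
      [(14579, 5376), (13152, 10768), (11440, 10304), (7680, 7808), (6816, 5856), (6823, 5376)]
      (.cut2 true 5376 [(6848, 3888), (10720, 1344), (14480, 0), (16000, 0), (14579, 5376), (6823,
      5376)] [(14579, 5376), (13152, 10768), (11440, 10304), (7680, 7808), (6816, 5856), (6823,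
      5376)] (.cut1 false 11408 [(6848, 3888), (10720, 1344), (11408, 1098), (11408, 5376), (6823,
      5376)] [(11408, 1098), (14480, 0), (16000, 0), (14579, 5376), (11408, 5376)] (.cut2 false
      11408 [(6848, 3888), (10720, 1344), (11408, 1098), (11408, 5376), (6823, 5376)] [(11408,
      1098), (14480, 0), (16000, 0), (14579, 5376), (11408, 5376)] (.cut1 false 9104 [(6848, 3888),
      (9104, 2405), (9104, 5376), (6823, 5376)] [(9104, 2405), (10720, 1344), (11408, 1098), (11408,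
      5376), (9104, 5376)] (.cut2 false 9104 [(6848, 3888), (9104, 2405), (9104, 5376), (6823,
      5376)] [(9104, 2405), (10720, 1344), (11408, 1098), (11408, 5376), (9104, 5376)] (.seg (14656,
      424) (.rel1 [(9104, 2405), (9104, 5376), (4583, 5376)] (.rel2 [(9104, 2405), (9104, 5376),
      (4583, 5376)] (.leaf ⟨0, 0, 1, 0⟩))) (.leaf ⟨2, 0, 12, 0⟩)) (.leaf ⟨5, 0, 19, 0⟩)) (.cut1 true
      3232 [(9104, 2405), (10720, 1344), (11408, 1098), (11408, 3232), (9104, 3232)] [(11408, 3232),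
      (11408, 5376), (9104, 5376), (9104, 3232)] (.cut2 false 9104 [(6848, 3888), (9104, 2405),
      (9104, 5376), (6823, 5376)] [(9104, 2405), (10720, 1344), (11408, 1098), (11408, 5376), (9104,
      5376)] (.leaf ⟨5, 0, 19, 0⟩) (.rel1 [(11408, 3232), (9104, 3232), (9104, 2405), (11408, 891)]
      (.rel2 [(11408, 5376), (9104, 5376), (9104, 2405), (11408, 891)] (.leaf ⟨2, 0, 5, 0⟩))))
      (.rel2 [(11408, 890), (11408, 5376), (4583, 5376)] (.leaf ⟨1, 0, 5, 0⟩)))) (.rel1 [(11408,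
      5376), (6823, 5376), (6848, 3888), (11408, 890)] (.rel2 [(11408, 1098), (14480, 0), (16000,
      0), (11408, 17373)] (.rel1 [(11408, 890), (11408, 5376), (4583, 5376)] (.leaf ⟨1, 0, 3,
      0⟩))))) (.rel1 [(11408, 1098), (14480, 0), (16000, 0), (11408, 17373)] (.rel2 [(10720, 1344),
      (14480, 0), (16000, 0), (14579, 5376), (4582, 5376)] (.leaf ⟨1, 0, 3, 0⟩)))) (.rel1 [(14480,
      0), (16000, 0), (14579, 5376), (6823, 5376), (6866, 2720)] (.rel2 [(14579, 5376), (11595,
      16656), (6602, 5375)] (.leaf ⟨0, 0, 1, 0⟩)))) (.rel1 [(7680, 7808), (6816, 5856), (6823,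
      5376), (14579, 5376), (13001, 11341)] (.rel2 [(7680, 7808), (6816, 5856), (6848, 3888),
      (10720, 1344), (14480, 0), (16000, 0), (13001, 11341)] (.rel1 [(6823, 5376), (14579, 5376),
      (13001, 11341), (6795, 7221)] (.rel2 [(14480, 0), (16000, 0), (13001, 11341), (6792, 7219),
      (6866, 2720)] (.leaf ⟨0, 0, 1, 0⟩)))))

theorem ok3_7aa_6 :
    chkT cF7mm cF7mm T3_7aa_6 (14640, 544) (14672, 304) dum n3_A2 n3_A2 = true := by
  decide +kernel

theorem fr3_7aa {z k l : ℂ} (hz : OnE v3_7aa z) (hk : conj k ∈ Poly p3_A2)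
    (hl : conj l ∈ Poly p3_A2) :
    k ^ 2 + l ^ 2 - 2 * k * l * (64 * z ^ 7 - 112 * z ^ 5 + 56 * z ^ 3 - 7 * z) + (z * (64 * z ^ 6 -
        80 * z ^ 4 + 24 * z ^ 2 - 1)) ^ 2 ≠ 0 := by
  have h := edge_use rpF7mm (E := L3_7aa) (V0 := dum) (V1 := n3_A2) (V2 := n3_A2) (fun e he => by
    simp only [L3_7aa, List.mem_cons, List.not_mem_nil, or_false] at he
    rcases he with rfl | rfl | rfl | rfl | rfl | rfl | rfl
    exacts [⟨_, ok3_7aa_0⟩, ⟨_, ok3_7aa_1⟩, ⟨_, ok3_7aa_2⟩, ⟨_, ok3_7aa_3⟩, ⟨_, ok3_7aa_4⟩, ⟨_,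
        ok3_7aa_5⟩, ⟨_, ok3_7aa_6⟩]) (V := v3_7aa) (by decide) hz zero_dum (rg3_A2 hk) (rg3_A2 hl)
  rw [evF7mm (mr_true k) (mr_true l)] at h
  exact fun h0 => h (by rw [h0, mul_zero])

/-- edges -/
def L3_7az : List ((ℕ × ℕ) × (ℕ × ℕ)) :=
  [((14576, 480), (14672, 432)), ((14672, 432), (14832, 496)), ((14832, 496), (14912, 560)),
      ((14912, 560), (14768, 784)), ((14768, 784), (14656, 800)), ((14656, 800), (14592, 704)),
      ((14592, 704), (14576, 480))]

/-- tree -/
def T3_7az_0 : CT :=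
  .rel1 [(7680, 7808), (6816, 5856), (6848, 3888), (10720, 1344), (14480, 0), (16000, 0), (13001,
      11341)] (.rel2 [(13024, 3360), (12960, 3312), (11648, 2128), (11664, 1856), (11680, 1760),
      (14352, 0), (18064, 0)] (.rel1 [(6816, 5856), (6848, 3888), (10720, 1344), (14480, 0), (16000,
      0), (11596, 16656)] (.rel2 [(11648, 2128), (11664, 1856), (11680, 1760), (14352, 0), (18064,
      0), (13016, 3366)] (.rel1 [(14480, 0), (16000, 0), (11596, 16656), (6816, 5856), (6865, 2720)]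
      (.rel2 [(18064, 0), (13016, 3366), (11648, 2128), (11764, 0)] (.leaf ⟨39, 0, 9, 0⟩))))))

theorem ok3_7az_0 :
    chkT cF7mn cF7mn T3_7az_0 (14576, 480) (14672, 432) dum n3_A2 n3_Z = true := by
  decide +kernel

/-- tree -/
def T3_7az_1 : CT :=
  .rel1 [(14480, 0), (16000, 0), (13152, 10768), (11440, 10304), (7680, 7808), (6816, 5856), (6865,
      2720)] (.rel2 [(11680, 1760), (14352, 0), (16000, 0), (13744, 2880), (13024, 3360), (12960,
      3312), (11621, 2104)] (.rel1 [(16000, 0), (13152, 10768), (11440, 10304), (7680, 7808), (6816,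
      5856), (6906, 0)] (.rel2 [(13024, 3360), (12960, 3312), (11621, 2104), (11680, 1760), (14352,
      0), (18064, 0)] (.rel1 [(16000, 0), (13152, 10768), (11440, 10304), (7680, 7808), (4223, 0)]
      (.rel2 [(11621, 2104), (11680, 1760), (14352, 0), (18064, 0), (13016, 3366)] (.rel1 [(7680,
      7808), (4223, 0), (16000, 0), (13001, 11341)] (.rel2 [(11680, 1760), (14352, 0), (18064, 0),
      (11195, 4581)] (.leaf ⟨7, 0, 0, 4⟩))))))))

theorem ok3_7az_1 :
    chkT cF7mn cF7mn T3_7az_1 (14672, 432) (14832, 496) dum n3_A2 n3_Z = true := by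
  decide +kernel

/-- tree -/
def T3_7az_2 : CT :=
  .rel1 [(6848, 3888), (10720, 1344), (14480, 0), (16000, 0), (13152, 10768), (11440, 10304), (6792,
      7219)] (.rel2 [(11680, 1760), (14352, 0), (16000, 0), (13744, 2880), (13024, 3360), (12960,
      3312), (11621, 2104)] (.rel1 [(10720, 1344), (14480, 0), (16000, 0), (13152, 10768), (11440,
      10304), (4296, 5563)] (.rel2 [(11621, 2104), (11680, 1760), (14352, 0), (16000, 0), (13744,
      2880), (13016, 3366)] (.rel1 [(16000, 0), (13152, 10768), (11440, 10304), (4296, 5563),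
      (12765, 0)] (.rel2 [(11621, 2104), (11680, 1760), (14352, 0), (16000, 0), (13219, 3551)]
      (.rel1 [(12765, 0), (16000, 0), (13152, 10768), (1272, 7549)] (.rel2 [(14352, 0), (16000, 0),
      (13219, 3551), (11424, 1926)] (.leaf ⟨8, 0, 0, 9⟩))))))))

theorem ok3_7az_2 :
    chkT cF7mn cF7mn T3_7az_2 (14832, 496) (14912, 560) dum n3_A2 n3_Z = true := by
  decide +kernel

/-- tree -/
def T3_7az_3 : CT :=
  .seg (14840, 672) (.cut1 true 5376 [(6848, 3888), (10720, 1344), (14480, 0), (16000, 0), (14579,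
      5376), (6823, 5376)] [(14579, 5376), (13152, 10768), (11440, 10304), (7680, 7808), (6816,
      5856), (6823, 5376)] (.rel1 [(10720, 1344), (14480, 0), (16000, 0), (14579, 5376), (4582,
      5376)] (.rel2 [(14352, 0), (16000, 0), (13744, 2880), (13024, 3360), (12960, 3312), (11648,
      2128), (11668, 1766)] (.rel1 [(16000, 0), (14579, 5376), (4582, 5376), (12765, 0)] (.rel2
      [(16000, 0), (13219, 3551), (9297, 0)] (.leaf ⟨0, 1, 0, 2⟩))))) (.rel1 [(6816, 5856), (6823,
      5376), (14579, 5376), (13152, 10768), (8421, 9486)] (.rel2 [(11680, 1760), (14352, 0), (16000,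
      0), (13744, 2880), (13024, 3360), (12960, 3312), (11621, 2104)] (.rel1 [(14579, 5376), (13152,
      10768), (8421, 9486), (6602, 5375)] (.rel2 [(11980, 0), (16000, 0), (10853, 6572)] (.leaf ⟨0,
      6, 0, 5⟩)))))) (.cut1 false 11408 [(6848, 3888), (10720, 1344), (11408, 1098), (11408, 10283),
      (7680, 7808), (6816, 5856)] [(11408, 1098), (14480, 0), (16000, 0), (13152, 10768), (11440,
      10304), (11408, 10283)] (.rel1 [(11408, 1098), (11408, 10283), (7680, 7808), (6816, 5856),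
      (6865, 2720)] (.rel2 [(11680, 1760), (14352, 0), (16000, 0), (13744, 2880), (13024, 3360),
      (12960, 3312), (11621, 2104)] (.rel1 [(11408, 1098), (11408, 10283), (7680, 7808), (5623,
      3162)] (.rel2 [(16000, 0), (13744, 2880), (13024, 3360), (12960, 3312), (11621, 2104), (11980,
      0)] (.rel1 [(11408, 1098), (11408, 10283), (2408, 4308)] (.rel2 [(9294, 0), (16000, 0),
      (13219, 3551)] (.leaf ⟨0, 1, 0, 0⟩))))))) (.cut1 true 5376 [(11408, 1098), (14480, 0), (16000,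
      0), (14579, 5376), (11408, 5376)] [(14579, 5376), (13152, 10768), (11440, 10304), (11408,
      10283), (11408, 5376)] (.rel1 [(16000, 0), (14579, 5376), (11408, 5376), (11407, 0)] (.rel2
      [(11980, 0), (16000, 0), (10853, 6572)] (.leaf ⟨0, 37, 0, 15⟩))) (.rel1 [(11408, 10283),
      (11408, 5376), (14579, 5376), (13004, 11331)] (.rel2 [(11680, 1760), (14352, 0), (16000, 0),
      (13744, 2880), (13024, 3360), (12960, 3312), (11621, 2104)] (.rel1 [(14579, 5376), (13004,
      11331), (3934, 5376)] (.rel2 [(11984, 0), (16000, 0), (10843, 6584)] (.leaf ⟨0, 1, 0,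
      0⟩)))))))

theorem ok3_7az_3 :
    chkT cF7mn cF7mn T3_7az_3 (14912, 560) (14768, 784) dum n3_A2 n3_Z = true := by
  decide +kernel

/-- tree -/
def T3_7az_4 : CT :=
  .rel1 [(14480, 0), (16000, 0), (13152, 10768), (11440, 10304), (7680, 7808), (6816, 5856), (6865,
      2720)] (.rel2 [(11680, 1760), (14352, 0), (16000, 0), (13744, 2880), (13024, 3360), (12960,
      3312), (11621, 2104)] (.rel1 [(7680, 7808), (6816, 5856), (6865, 2720), (14480, 0), (16000,
      0), (13001, 11341)] (.rel2 [(16000, 0), (13744, 2880), (13024, 3360), (12960, 3312), (11621,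
      2104), (11980, 0)] (.rel1 [(14480, 0), (16000, 0), (13001, 11341), (7680, 7808), (5623, 3162)]
      (.rel2 [(11621, 2104), (11980, 0), (16000, 0), (13744, 2880), (13016, 3366)] (.rel1 [(5623,
      3162), (14480, 0), (16000, 0), (11596, 16655)] (.rel2 [(16000, 0), (13744, 2880), (13016,
      3366), (9294, 0)] (.rel1 [(16000, 0), (11596, 16655), (4222, 0)] (.rel2 [(9294, 0), (16000,
      0), (13219, 3551)] (.leaf ⟨0, 4, 3, 0⟩))))))))))

theorem ok3_7az_4 :
    chkT cF7mn cF7mn T3_7az_4 (14768, 784) (14656, 800) dum n3_A2 n3_Z = true := by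
  decide +kernel

/-- tree -/
def T3_7az_5 : CT :=
  .rel1 [(7680, 7808), (6816, 5856), (6848, 3888), (10720, 1344), (14480, 0), (16000, 0), (13001,
      11341)] (.rel2 [(11680, 1760), (14352, 0), (16000, 0), (13744, 2880), (13024, 3360), (12960,
      3312), (11621, 2104)] (.rel1 [(6848, 3888), (10720, 1344), (14480, 0), (16000, 0), (13001,
      11341), (6792, 7219)] (.rel2 [(11680, 1760), (14352, 0), (16000, 0), (13744, 2880), (13024,
      3360), (11589, 2284)] (.rel1 [(10720, 1344), (14480, 0), (16000, 0), (13001, 11341), (4297,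
      5563)] (.rel2 [(16000, 0), (13744, 2880), (13024, 3360), (11589, 2284), (11984, 0)] (.rel1
      [(14480, 0), (16000, 0), (13001, 11341), (2412, 4312)] (.rel2 [(18064, 0), (13024, 3360),
      (8541, 0)] (.leaf ⟨1, 0, 3, 0⟩))))))))

theorem ok3_7az_5 :
    chkT cF7mn cF7mn T3_7az_5 (14656, 800) (14592, 704) dum n3_A2 n3_Z = true := by
  decide +kernel

/-- tree -/
def T3_7az_6 : CT :=
  .rel1 [(7680, 7808), (6816, 5856), (6848, 3888), (10720, 1344), (14480, 0), (16000, 0), (13001,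
      11341)] (.rel2 [(14352, 0), (16000, 0), (13744, 2880), (13024, 3360), (12960, 3312), (11648,
      2128), (11668, 1766)] (.rel1 [(6848, 3888), (10720, 1344), (14480, 0), (16000, 0), (13001,
      11341), (6792, 7219)] (.rel2 [(18064, 0), (13016, 3366), (9295, 0)] (.leaf ⟨11, 0, 17, 0⟩))))

theorem ok3_7az_6 :
    chkT cF7mn cF7mn T3_7az_6 (14592, 704) (14576, 480) dum n3_A2 n3_Z = true := by
  decide +kernel

theorem fr3_7az {z k l : ℂ} (hz : OnE v3_7az z) (hk : conj k ∈ Poly p3_A2)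
    (hl : l ∈ Poly p3_Z) :
    k ^ 2 + l ^ 2 - 2 * k * l * (64 * z ^ 7 - 112 * z ^ 5 + 56 * z ^ 3 - 7 * z) + (z * (64 * z ^ 6 -
        80 * z ^ 4 + 24 * z ^ 2 - 1)) ^ 2 ≠ 0 := by
  have h := edge_use rpF7mn (E := L3_7az) (V0 := dum) (V1 := n3_A2) (V2 := n3_Z) (fun e he => by
    simp only [L3_7az, List.mem_cons, List.not_mem_nil, or_false] at he
    rcases he with rfl | rfl | rfl | rfl | rfl | rfl | rfl
    exacts [⟨_, ok3_7az_0⟩, ⟨_, ok3_7az_1⟩, ⟨_, ok3_7az_2⟩, ⟨_, ok3_7az_3⟩, ⟨_, ok3_7az_4⟩, ⟨_,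
        ok3_7az_5⟩, ⟨_, ok3_7az_6⟩]) (V := v3_7az) (by decide) hz zero_dum (rg3_A2 hk) (rg3_Z hl)
  rw [evF7mn (mr_true k) (mr_false l)] at h
  exact fun h0 => h (by rw [h0, mul_zero])

/-- edges -/
def L3_7as : List ((ℕ × ℕ) × (ℕ × ℕ)) :=
  [((14416, 496), (14512, 400)), ((14512, 400), (14656, 400)), ((14656, 400), (14848, 560)),
      ((14848, 560), (14544, 992)), ((14544, 992), (14448, 864)), ((14448, 864), (14384, 672)),
      ((14384, 672), (14416, 496))]

/-- tree -/
def T3_7as_0 : CT :=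
  .rel1 [(7680, 7808), (6816, 5856), (6848, 3888), (10720, 1344), (14480, 0), (16000, 0), (13001,
      11341)] (.rel2 [(13072, 10736), (11440, 10304), (8912, 7792), (8544, 6592), (8240, 4576),
      (8512, 3600), (15557, 2190)] (.rel1 [(6816, 5856), (6848, 3888), (10720, 1344), (14480, 0),
      (16000, 0), (11596, 16656)] (.rel2 [(15557, 2190), (12804, 11660), (8912, 7792), (7676, 3764)]
      (.leaf ⟨39, 0, 9, 0⟩))))

theorem ok3_7as_0 :
    chkT cF7mn cF7mn T3_7as_0 (14416, 496) (14512, 400) dum n3_A2 n3_S3 = true := by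
  decide +kernel

/-- tree -/
def T3_7as_1 : CT :=
  .rel1 [(14480, 0), (16000, 0), (13152, 10768), (11440, 10304), (7680, 7808), (6816, 5856), (6865,
      2720)] (.rel2 [(13072, 10736), (11440, 10304), (8912, 7792), (8544, 6592), (8240, 4576),
      (8512, 3600), (15557, 2190)] (.rel1 [(7680, 7808), (6816, 5856), (6865, 2720), (14480, 0),
      (16000, 0), (13001, 11341)] (.rel2 [(8240, 4576), (8512, 3600), (15557, 2190), (13072, 10736),
      (11440, 10304), (8690, 7572)] (.rel1 [(16000, 0), (13001, 11341), (7680, 7808), (6816, 5856),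
      (6906, 0)] (.rel2 [(8512, 3600), (15557, 2190), (12804, 11660), (7682, 6571)] (.leaf ⟨39, 0,
      0, 9⟩))))))

theorem ok3_7as_1 :
    chkT cF7mn cF7mn T3_7as_1 (14512, 400) (14656, 400) dum n3_A2 n3_S3 = true := by
  decide +kernel

/-- tree -/
def T3_7as_2 : CT :=
  .rel1 [(14480, 0), (16000, 0), (13152, 10768), (11440, 10304), (7680, 7808), (6816, 5856), (6865,
      2720)] (.rel2 [(13072, 10736), (11440, 10304), (8912, 7792), (8544, 6592), (8240, 4576),
      (8512, 3600), (15557, 2190)] (.rel1 [(6865, 2720), (14480, 0), (16000, 0), (13152, 10768),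
      (11440, 10304), (6793, 7220)] (.rel2 [(8912, 7792), (8544, 6592), (8240, 4576), (8512, 3600),
      (15557, 2190), (12804, 11660)] (.rel1 [(16000, 0), (13152, 10768), (11440, 10304), (6793,
      7220), (6907, 0)] (.rel2 [(15557, 2190), (10496, 19600), (8104, 3680)] (.leaf ⟨27, 0, 0,
      30⟩))))))

theorem ok3_7as_2 :
    chkT cF7mn cF7mn T3_7as_2 (14656, 400) (14848, 560) dum n3_A2 n3_S3 = true := by
  decide +kernel

/-- tree -/
def T3_7as_3_3 : CT :=
  .rel1 [(11408, 1098), (11408, 10283), (7680, 7808), (6816, 5856), (6865, 2720)] (.rel2 [(13792,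
      2544), (13872, 7984), (13072, 10736), (11440, 10304), (8912, 7792), (8544, 6592), (8104,
      3680)] (.rel1 [(6865, 2720), (11408, 1098), (11408, 10283), (6793, 7220)] (.rel2 [(8912,
      7792), (8544, 6592), (8104, 3680), (13792, 2544), (13872, 7984), (12804, 11660)] (.rel1
      [(11408, 1098), (11408, 10283), (2408, 4310)] (.rel2 [(10502, 19584), (8104, 3680), (15555,
      2191)] (.leaf ⟨0, 37, 0, 15⟩))))))

theorem ok3_7as_3_q0 :
    chkT cF7mn cF7mn T3_7as_3_3 (14848, 560) (14696, 776) dum [(6848, 3888), (10720, 1344), (11408,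
        1098), (11408, 10283), (7680, 7808), (6816, 5856)] n3_S3 = true := by
  decide +kernel

/-- tree -/
def T3_7as_3_5 : CT :=
  .rel1 [(16000, 0), (13152, 10768), (11440, 10304), (11408, 10283), (11407, 0)] (.rel2 [(11056,
      3091), (11056, 9923), (8912, 7792), (8544, 6592), (8104, 3680)] (.rel1 [(11407, 0), (16000,
      0), (13152, 10768), (11407, 10296)] (.rel2 [(8104, 3680), (11056, 3091), (11056, 9923),
      (8691, 7573)] (.rel1 [(11407, 0), (16000, 0), (11407, 17366)] (.rel2 [(11056, 3091), (11056,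
      9923), (5329, 4233)] (.leaf ⟨0, 11, 0, 5⟩))))))

theorem ok3_7as_3_q1 :
    chkT cF7mn cF7mn T3_7as_3_5 (14848, 560) (14696, 776) dum [(11408, 1098), (14480, 0), (16000,
        0), (13152, 10768), (11440, 10304), (11408, 10283)] [(8240, 4576), (8512, 3600), (11056,
        3091), (11056, 9923), (8912, 7792), (8544, 6592)] = true := by
  decide +kernel

/-- tree -/
def T3_7as_3_7 : CT :=
  .seg (14772, 668) (.rel1 [(16000, 0), (14579, 5376), (11408, 5376), (11407, 0)] (.rel2 [(11055,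
      10203), (11056, 3091), (13792, 2544), (13916, 10960)] (.leaf ⟨0, 0, 0, 1⟩))) (.cut2 true 6640
      [(11056, 3091), (13792, 2544), (13853, 6640), (11056, 6640)] [(13853, 6640), (13872, 7984),
      (13072, 10736), (11440, 10304), (11056, 9923), (11056, 6640)] (.seg (14734, 722) (.rel1
      [(16000, 0), (14579, 5376), (11408, 5376), (11407, 0)] (.leaf ⟨0, 11, 0, 5⟩)) (.rel1 [(16000,
      0), (14579, 5376), (11408, 5376), (11407, 0)] (.leaf ⟨0, 39, 0, 9⟩))) (.rel1 [(16000, 0),
      (14579, 5376), (11408, 5376), (11407, 0)] (.rel2 [(11056, 6640), (13853, 6640), (13915,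
      10960), (11055, 10202)] (.leaf ⟨0, 4, 0, 3⟩))))

theorem ok3_7as_3_q2 :
    chkT cF7mn cF7mn T3_7as_3_7 (14848, 560) (14696, 776) dum [(11408, 1098), (14480, 0), (16000,
        0), (14579, 5376), (11408, 5376)] [(11056, 3091), (13792, 2544), (13872, 7984), (13072,
        10736), (11440, 10304), (11056, 9923)] = true := by
  decide +kernel

/-- tree -/
def T3_7as_3_8 : CT :=
  .seg (14772, 668) (.seg (14810, 614) (.rel1 [(11408, 5376), (14579, 5376), (13152, 10768),
      (11407, 10296)] (.rel2 [(13792, 2544), (13943, 12789), (5326, 4235)] (.leaf ⟨0, 4, 0, 3⟩)))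
      (.rel1 [(14579, 5376), (13152, 10768), (11440, 10304), (3929, 5375)] (.rel2 [(11440, 10304),
      (11056, 9923), (11056, 3091), (13792, 2544), (13916, 10960)] (.rel1 [(3929, 5375), (14579,
      5376), (13004, 11331)] (.rel2 [(11056, 3091), (13792, 2544), (13916, 10960), (11055, 10202)]
      (.leaf ⟨0, 7, 0, 4⟩)))))) (.rel1 [(11408, 10283), (11408, 5376), (14579, 5376), (13004,
      11331)] (.rel2 [(11056, 3091), (13792, 2544), (13872, 7984), (13072, 10736), (11055, 10203)]
      (.rel1 [(14579, 5376), (13004, 11331), (3934, 5376)] (.rel2 [(11055, 10203), (11056, 3091),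
      (13792, 2544), (13916, 10960)] (.leaf ⟨0, 19, 0, 6⟩)))))

theorem ok3_7as_3_q3 :
    chkT cF7mn cF7mn T3_7as_3_8 (14848, 560) (14696, 776) dum [(14579, 5376), (13152, 10768),
        (11440, 10304), (11408, 10283), (11408, 5376)] [(11056, 3091), (13792, 2544), (13872,
        7984), (13072, 10736), (11440, 10304), (11056, 9923)] = true := by
  decide +kernel

/-- tree -/
def T3_7as_3_6 : CT := .cut1 true 5376 [(11408, 1098), (14480, 0), (16000, 0), (14579, 5376),
    (11408, 5376)] [(14579, 5376), (13152, 10768), (11440, 10304), (11408, 10283), (11408, 5376)]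
    T3_7as_3_7 T3_7as_3_8

theorem ok3_7as_3_r4 :
    chkT cF7mn cF7mn T3_7as_3_6 (14848, 560) (14696, 776) dum [(11408, 1098), (14480, 0), (16000,
        0), (13152, 10768), (11440, 10304), (11408, 10283)] [(11056, 3091), (13792, 2544), (13872,
        7984), (13072, 10736), (11440, 10304), (11056, 9923)] = true :=
  chkT_cut1 (by decide +kernel)
    ok3_7as_3_q2
    ok3_7as_3_q3

/-- tree -/
def T3_7as_3_4 : CT := .cut2 false 11056 [(8240, 4576), (8512, 3600), (11056, 3091), (11056, 9923),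
    (8912, 7792), (8544, 6592)] [(11056, 3091), (13792, 2544), (13872, 7984), (13072, 10736),
    (11440, 10304), (11056, 9923)] T3_7as_3_5 T3_7as_3_6

theorem ok3_7as_3_r5 :
    chkT cF7mn cF7mn T3_7as_3_4 (14848, 560) (14696, 776) dum [(11408, 1098), (14480, 0), (16000,
        0), (13152, 10768), (11440, 10304), (11408, 10283)] n3_S3 = true :=
  chkT_cut2 (by decide +kernel)
    ok3_7as_3_q1
    ok3_7as_3_r4

/-- tree -/
def T3_7as_3_1 : CT := .cut1 false 11408 [(6848, 3888), (10720, 1344), (11408, 1098), (11408,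
    10283), (7680, 7808), (6816, 5856)] [(11408, 1098), (14480, 0), (16000, 0), (13152, 10768),
    (11440, 10304), (11408, 10283)] T3_7as_3_3 T3_7as_3_4

theorem ok3_7as_3_r6 :
    chkT cF7mn cF7mn T3_7as_3_1 (14848, 560) (14696, 776) dum n3_A2 n3_S3 = true :=
  chkT_cut1 (by decide +kernel)
    ok3_7as_3_q0
    ok3_7as_3_r5

/-- tree -/
def T3_7as_3_2 : CT :=
  .seg (14620, 884) (.rel1 [(7680, 7808), (6816, 5856), (6848, 3888), (10720, 1344), (14480, 0),
      (16000, 0), (13001, 11341)] (.rel2 [(8912, 7792), (8544, 6592), (8240, 4576), (8512, 3600),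
      (13792, 2544), (13872, 7984), (12804, 11660)] (.rel1 [(10720, 1344), (14480, 0), (16000, 0),
      (13001, 11341), (7680, 7808), (6147, 4346)] (.rel2 [(8240, 4576), (8512, 3600), (13792,
      2544), (13872, 7984), (12804, 11660), (8690, 7572)] (.rel1 [(6147, 4346), (10720, 1344),
      (14480, 0), (16000, 0), (11597, 16654)] (.rel2 [(8240, 4576), (8512, 3600), (13792, 2544),
      (13872, 7984), (10497, 19603)] (.rel1 [(14480, 0), (16000, 0), (11597, 16654), (5623, 3164)]
      (.rel2 [(13792, 2544), (13872, 7984), (10497, 19603), (8104, 3680)] (.rel1 [(16000, 0),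
      (11597, 16654), (4220, 0)] (.leaf ⟨0, 1, 0, 0⟩)))))))))) (.rel1 [(14480, 0), (16000, 0),
      (13152, 10768), (11440, 10304), (7680, 7808), (6816, 5856), (6865, 2720)] (.rel2 [(8544,
      6592), (8240, 4576), (8512, 3600), (13792, 2544), (13872, 7984), (13072, 10736), (9526,
      9798)] (.rel1 [(7680, 7808), (6816, 5856), (6865, 2720), (14480, 0), (16000, 0), (13001,
      11341)] (.rel2 [(13792, 2544), (13872, 7984), (13072, 10736), (9526, 9798), (8544, 6592),
      (8104, 3680)] (.rel1 [(6865, 2720), (14480, 0), (16000, 0), (13001, 11341), (6793, 7220)]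
      (.rel2 [(13792, 2544), (13872, 7984), (13072, 10736), (9526, 9798), (7677, 3764)] (.rel1
      [(16000, 0), (13001, 11341), (6793, 7220), (6907, 0)] (.rel2 [(7677, 3764), (13792, 2544),
      (13872, 7984), (11486, 16195)] (.leaf ⟨0, 11, 5, 0⟩)))))))))

theorem ok3_7as_3_q7 :
    chkT cF7mn cF7mn T3_7as_3_2 (14696, 776) (14544, 992) dum n3_A2 n3_S3 = true := by
  decide +kernel

/-- tree -/
def T3_7as_3 : CT := .seg (14696, 776) T3_7as_3_1 T3_7as_3_2

theorem ok3_7as_3 :
    chkT cF7mn cF7mn T3_7as_3 (14848, 560) (14544, 992) dum n3_A2 n3_S3 = true :=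
  chkT_seg (by decide +kernel)
    ok3_7as_3_r6
    ok3_7as_3_q7

/-- tree -/
def T3_7as_4 : CT :=
  .rel1 [(14480, 0), (16000, 0), (13152, 10768), (11440, 10304), (7680, 7808), (6816, 5856), (6865,
      2720)] (.rel2 [(13792, 2544), (13872, 7984), (13072, 10736), (11440, 10304), (8912, 7792),
      (8544, 6592), (8104, 3680)] (.rel1 [(6816, 5856), (6865, 2720), (14480, 0), (16000, 0),
      (13152, 10768), (8421, 9486)] (.rel2 [(13072, 10736), (11440, 10304), (8912, 7792), (8544,
      6592), (8104, 3680), (15557, 2190)] (.rel1 [(6865, 2720), (14480, 0), (16000, 0), (13152,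
      10768), (6765, 9038)] (.rel2 [(15557, 2190), (13072, 10736), (11440, 10304), (5329, 4234)]
      (.leaf ⟨3, 0, 4, 0⟩))))))

theorem ok3_7as_4 :
    chkT cF7mn cF7mn T3_7as_4 (14544, 992) (14448, 864) dum n3_A2 n3_S3 = true := by
  decide +kernel

/-- tree -/
def T3_7as_5 : CT :=
  .rel1 [(6816, 5856), (6848, 3888), (10720, 1344), (14480, 0), (16000, 0), (13152, 10768), (8421,
      9486)] (.rel2 [(13072, 10736), (11440, 10304), (8912, 7792), (8544, 6592), (8240, 4576),
      (8512, 3600), (15557, 2190)] (.rel1 [(10720, 1344), (14480, 0), (16000, 0), (13152, 10768),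
      (8421, 9486), (6147, 4346)] (.rel2 [(8240, 4576), (8512, 3600), (15557, 2190), (13072, 10736),
      (11440, 10304), (8690, 7572)] (.rel1 [(6147, 4346), (10720, 1344), (14480, 0), (16000, 0),
      (11594, 16659)] (.rel2 [(8512, 3600), (15557, 2190), (13072, 10736), (11440, 10304), (7682,
      6571)] (.rel1 [(14480, 0), (16000, 0), (11594, 16659), (5623, 3164)] (.rel2 [(15557, 2190),
      (13072, 10736), (11440, 10304), (5330, 4235)] (.leaf ⟨29, 0, 28, 0⟩))))))))

theorem ok3_7as_5 :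
    chkT cF7mn cF7mn T3_7as_5 (14448, 864) (14384, 672) dum n3_A2 n3_S3 = true := by
  decide +kernel

/-- tree -/
def T3_7as_6 : CT :=
  .rel1 [(7680, 7808), (6816, 5856), (6848, 3888), (10720, 1344), (14480, 0), (16000, 0), (13001,
      11341)] (.rel2 [(13792, 2544), (13872, 7984), (13072, 10736), (11440, 10304), (8912, 7792),
      (8544, 6592), (8104, 3680)] (.rel1 [(6848, 3888), (10720, 1344), (14480, 0), (16000, 0),
      (13001, 11341), (6792, 7219)] (.rel2 [(8912, 7792), (7676, 3764), (15557, 2190), (12804,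
      11660)] (.leaf ⟨7, 0, 4, 0⟩))))

theorem ok3_7as_6 :
    chkT cF7mn cF7mn T3_7as_6 (14384, 672) (14416, 496) dum n3_A2 n3_S3 = true := by
  decide +kernel

theorem fr3_7as {z k l : ℂ} (hz : OnE v3_7as z) (hk : conj k ∈ Poly p3_A2)
    (hl : l ∈ Poly p3_S3) :
    k ^ 2 + l ^ 2 - 2 * k * l * (64 * z ^ 7 - 112 * z ^ 5 + 56 * z ^ 3 - 7 * z) + (z * (64 * z ^ 6 -
        80 * z ^ 4 + 24 * z ^ 2 - 1)) ^ 2 ≠ 0 := by
  have h := edge_use rpF7mn (E := L3_7as) (V0 := dum) (V1 := n3_A2) (V2 := n3_S3) (fun e he => by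
    simp only [L3_7as, List.mem_cons, List.not_mem_nil, or_false] at he
    rcases he with rfl | rfl | rfl | rfl | rfl | rfl | rfl
    exacts [⟨_, ok3_7as_0⟩, ⟨_, ok3_7as_1⟩, ⟨_, ok3_7as_2⟩, ⟨_, ok3_7as_3⟩, ⟨_, ok3_7as_4⟩, ⟨_,
        ok3_7as_5⟩, ⟨_, ok3_7as_6⟩]) (V := v3_7as) (by decide) hz zero_dum (rg3_A2 hk) (rg3_S3 hl)
  rw [evF7mn (mr_true k) (mr_false l)] at h
  exact fun h0 => h (by rw [h0, mul_zero])

/-- edges -/
def L3_7zz : List ((ℕ × ℕ) × (ℕ × ℕ)) :=
  [((14528, 656), (14704, 704)), ((14704, 704), (14816, 768)), ((14816, 768), (14528, 816)),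
      ((14528, 816), (14528, 656))]

/-- tree -/
def T3_7zz_0 : CT :=
  .rel1 [(11680, 1760), (14352, 0), (16000, 0), (13744, 2880), (13024, 3360), (12960, 3312), (11621,
      2104)] (.rel2 [(11680, 1760), (14352, 0), (16000, 0), (13744, 2880), (13024, 3360), (12960,
      3312), (11621, 2104)] (.rel1 [(13024, 3360), (12960, 3312), (11621, 2104), (11680, 1760),
      (14352, 0), (18064, 0)] (.rel2 [(13024, 3360), (12960, 3312), (11621, 2104), (11680, 1760),
      (14352, 0), (18064, 0)] (.rel1 [(11621, 2104), (11680, 1760), (14352, 0), (18064, 0), (13016,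
      3366)] (.rel2 [(11621, 2104), (11680, 1760), (14352, 0), (18064, 0), (13016, 3366)] (.rel1
      [(11680, 1760), (14352, 0), (18064, 0), (11195, 4581)] (.rel2 [(11680, 1760), (14352, 0),
      (18064, 0), (11195, 4581)] (.leaf ⟨6, 0, 0, 10⟩))))))))

theorem ok3_7zz_0 :
    chkT cF7nn cF7nn T3_7zz_0 (14528, 656) (14704, 704) dum n3_Z n3_Z = true := by
  decide +kernel

/-- tree -/
def T3_7zz_1 : CT :=
  .rel1 [(11680, 1760), (14352, 0), (16000, 0), (13744, 2880), (13024, 3360), (12960, 3312), (11621,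
      2104)] (.rel2 [(11680, 1760), (14352, 0), (16000, 0), (13744, 2880), (13024, 3360), (12960,
      3312), (11621, 2104)] (.rel1 [(12960, 3312), (11621, 2104), (11680, 1760), (14352, 0), (16000,
      0), (13240, 3524)] (.rel2 [(11680, 1760), (14352, 0), (16000, 0), (13744, 2880), (13024,
      3360), (11589, 2284)] (.rel1 [(11680, 1760), (14352, 0), (16000, 0), (13240, 3524), (11590,
      2275)] (.rel2 [(11680, 1760), (14352, 0), (16000, 0), (13744, 2880), (11188, 4584)] (.rel1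
      [(11680, 1760), (14352, 0), (16000, 0), (10835, 6595)] (.rel2 [(11680, 1760), (14352, 0),
      (16000, 0), (10838, 6590)] (.leaf ⟨1, 0, 0, 3⟩))))))))

theorem ok3_7zz_1 :
    chkT cF7nn cF7nn T3_7zz_1 (14704, 704) (14816, 768) dum n3_Z n3_Z = true := by
  decide +kernel

/-- tree -/
def T3_7zz_2 : CT :=
  .seg (14672, 792) (.seg (14744, 780) (.rel1 [(16000, 0), (13744, 2880), (13024, 3360), (12960,
      3312), (11648, 2128), (11664, 1856), (11972, 0)] (.rel2 [(11664, 1856), (11680, 1760), (14352,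
      0), (16000, 0), (13744, 2880), (13024, 3360), (11635, 2319)] (.rel1 [(11648, 2128), (11664,
      1856), (11972, 0), (16000, 0), (13744, 2880), (13016, 3366)] (.rel2 [(16000, 0), (13744,
      2880), (13024, 3360), (11635, 2319), (11664, 1856), (11972, 0)] (.rel1 [(11664, 1856), (11972,
      0), (16000, 0), (13744, 2880), (11515, 4369)] (.rel2 [(16000, 0), (13744, 2880), (13024,
      3360), (11635, 2319), (11779, 0)] (.rel1 [(16000, 0), (13744, 2880), (11515, 4369), (11773,
      0)] (.rel2 [(11779, 0), (16000, 0), (13744, 2880), (11506, 4372)] (.rel1 [(11773, 0), (16000,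
      0), (11427, 5838)] (.rel2 [(11779, 0), (16000, 0), (11413, 5856)] (.leaf ⟨0, 7, 4,
      0⟩))))))))))) (.rel1 [(14352, 0), (16000, 0), (13744, 2880), (13024, 3360), (12960, 3312),
      (11648, 2128), (11668, 1766)] (.rel2 [(11680, 1760), (14352, 0), (16000, 0), (13744, 2880),
      (13024, 3360), (12960, 3312), (11621, 2104)] (.rel1 [(11648, 2128), (11668, 1766), (14352, 0),
      (16000, 0), (13744, 2880), (13016, 3366)] (.rel2 [(11621, 2104), (11680, 1760), (14352, 0),
      (16000, 0), (13744, 2880), (13016, 3366)] (.rel1 [(11668, 1766), (14352, 0), (16000, 0),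
      (13744, 2880), (11523, 4363)] (.rel2 [(16000, 0), (13744, 2880), (13016, 3366), (11621, 2104),
      (11980, 0)] (.rel1 [(16000, 0), (13744, 2880), (11523, 4363), (11765, 0)] (.rel2 [(11980, 0),
      (16000, 0), (13744, 2880), (11197, 4581)] (.rel1 [(11765, 0), (16000, 0), (11441, 5820)]
      (.rel2 [(11980, 0), (16000, 0), (10857, 6566)] (.leaf ⟨0, 10, 7, 0⟩)))))))))))) (.rel1
      [(11680, 1760), (14352, 0), (16000, 0), (13744, 2880), (13024, 3360), (12960, 3312), (11621,
      2104)] (.rel2 [(11680, 1760), (14352, 0), (16000, 0), (13744, 2880), (13024, 3360), (12960,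
      3312), (11621, 2104)] (.rel1 [(16000, 0), (13744, 2880), (13024, 3360), (12960, 3312), (11621,
      2104), (11980, 0)] (.rel2 [(16000, 0), (13744, 2880), (13024, 3360), (12960, 3312), (11621,
      2104), (11980, 0)] (.rel1 [(11621, 2104), (11980, 0), (16000, 0), (13744, 2880), (13016,
      3366)] (.rel2 [(11621, 2104), (11980, 0), (16000, 0), (13744, 2880), (13016, 3366)] (.rel1
      [(16000, 0), (13744, 2880), (13016, 3366), (9294, 0)] (.rel2 [(16000, 0), (13744, 2880),
      (13016, 3366), (9294, 0)] (.leaf ⟨0, 55, 58, 0⟩)))))))))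

theorem ok3_7zz_2 :
    chkT cF7nn cF7nn T3_7zz_2 (14816, 768) (14528, 816) dum n3_Z n3_Z = true := by
  decide +kernel

/-- tree -/
def T3_7zz_3 : CT :=
  .rel1 [(14352, 0), (16000, 0), (13744, 2880), (13024, 3360), (12960, 3312), (11648, 2128), (11668,
      1766)] (.rel2 [(14352, 0), (16000, 0), (13744, 2880), (13024, 3360), (12960, 3312), (11648,
      2128), (11668, 1766)] (.rel1 [(13024, 3360), (12960, 3312), (11648, 2128), (11668, 1766),
      (14352, 0), (18064, 0)] (.rel2 [(13024, 3360), (12960, 3312), (11648, 2128), (11668, 1766),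
      (14352, 0), (18064, 0)] (.rel1 [(18064, 0), (13024, 3360), (12960, 3312), (11648, 2128),
      (11764, 0)] (.rel2 [(18064, 0), (13024, 3360), (12960, 3312), (11648, 2128), (11764, 0)]
      (.rel1 [(11648, 2128), (11764, 0), (18064, 0), (13016, 3366)] (.rel2 [(11648, 2128), (11764,
      0), (18064, 0), (13016, 3366)] (.rel1 [(18064, 0), (13016, 3366), (9295, 0)] (.leaf ⟨4, 0, 3,
      0⟩)))))))))

theorem ok3_7zz_3 :
    chkT cF7nn cF7nn T3_7zz_3 (14528, 816) (14528, 656) dum n3_Z n3_Z = true := by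
  decide +kernel

theorem fr3_7zz {z k l : ℂ} (hz : OnE v3_7zz z) (hk : k ∈ Poly p3_Z)
    (hl : l ∈ Poly p3_Z) :
    k ^ 2 + l ^ 2 - 2 * k * l * (64 * z ^ 7 - 112 * z ^ 5 + 56 * z ^ 3 - 7 * z) + (z * (64 * z ^ 6 -
        80 * z ^ 4 + 24 * z ^ 2 - 1)) ^ 2 ≠ 0 := by
  have h := edge_use rpF7nn (E := L3_7zz) (V0 := dum) (V1 := n3_Z) (V2 := n3_Z) (fun e he => by
    simp only [L3_7zz, List.mem_cons, List.not_mem_nil, or_false] at he
    rcases he with rfl | rfl | rfl | rfl
    exacts [⟨_, ok3_7zz_0⟩, ⟨_, ok3_7zz_1⟩, ⟨_, ok3_7zz_2⟩, ⟨_, ok3_7zz_3⟩]) (V := v3_7zz) (by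
        decide) hz zero_dum (rg3_Z hk) (rg3_Z hl)
  rw [evF7nn (mr_false k) (mr_false l)] at h
  exact fun h0 => h (by rw [h0, mul_zero])

/-- edges -/
def L3_7zs : List ((ℕ × ℕ) × (ℕ × ℕ)) :=
  [((14336, 752), (14368, 672)), ((14368, 672), (14448, 624)), ((14448, 624), (14576, 672)),
      ((14576, 672), (14704, 784)), ((14704, 784), (14560, 944)), ((14560, 944), (14352, 992)),
      ((14352, 992), (14336, 752))]

/-- tree -/
def T3_7zs_0 : CT :=
  .rel1 [(14352, 0), (16000, 0), (13744, 2880), (13024, 3360), (12960, 3312), (11648, 2128), (11668,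
      1766)] (.rel2 [(13792, 2544), (13872, 7984), (13072, 10736), (11440, 10304), (8912, 7792),
      (8544, 6592), (8104, 3680)] (.rel1 [(13024, 3360), (12960, 3312), (11648, 2128), (11668,
      1766), (14352, 0), (18064, 0)] (.rel2 [(13072, 10736), (11440, 10304), (8912, 7792), (8544,
      6592), (8104, 3680), (15557, 2190)] (.rel1 [(11648, 2128), (11668, 1766), (14352, 0), (18064,
      0), (13016, 3366)] (.rel2 [(8912, 7792), (8544, 6592), (8104, 3680), (15557, 2190), (12804,
      11660)] (.rel1 [(18064, 0), (13016, 3366), (11648, 2128), (11764, 0)] (.rel2 [(15557, 2190),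
      (12804, 11660), (8912, 7792), (7676, 3764)] (.leaf ⟨1, 0, 0, 0⟩))))))))

theorem ok3_7zs_0 :
    chkT cF7nn cF7nn T3_7zs_0 (14336, 752) (14368, 672) dum n3_Z n3_S3 = true := by
  decide +kernel

/-- tree -/
def T3_7zs_1 : CT :=
  .rel1 [(13024, 3360), (12960, 3312), (11648, 2128), (11664, 1856), (11680, 1760), (14352, 0),
      (18064, 0)] (.rel2 [(13072, 10736), (11440, 10304), (8912, 7792), (8544, 6592), (8240, 4576),
      (8512, 3600), (15557, 2190)] (.rel1 [(11648, 2128), (11664, 1856), (11680, 1760), (14352, 0),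
      (18064, 0), (13016, 3366)] (.rel2 [(8912, 7792), (8544, 6592), (8240, 4576), (8512, 3600),
      (15557, 2190), (12804, 11660)] (.rel1 [(14352, 0), (18064, 0), (13016, 3366), (11648, 2128),
      (11668, 1766)] (.rel2 [(8240, 4576), (8512, 3600), (15557, 2190), (12804, 11660), (8690,
      7572)] (.rel1 [(11668, 1766), (14352, 0), (18064, 0), (11523, 4362)] (.rel2 [(8240, 4576),
      (8512, 3600), (15557, 2190), (10496, 19600)] (.leaf ⟨7, 0, 0, 4⟩))))))))

theorem ok3_7zs_1 :
    chkT cF7nn cF7nn T3_7zs_1 (14368, 672) (14448, 624) dum n3_Z n3_S3 = true := by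
  decide +kernel

/-- tree -/
def T3_7zs_2 : CT :=
  .rel1 [(11680, 1760), (14352, 0), (16000, 0), (13744, 2880), (13024, 3360), (12960, 3312), (11621,
      2104)] (.rel2 [(13072, 10736), (11440, 10304), (8912, 7792), (8544, 6592), (8240, 4576),
      (8512, 3600), (15557, 2190)] (.rel1 [(13024, 3360), (12960, 3312), (11621, 2104), (11680,
      1760), (14352, 0), (18064, 0)] (.rel2 [(8912, 7792), (8544, 6592), (8240, 4576), (8512, 3600),
      (15557, 2190), (12804, 11660)] (.rel1 [(11621, 2104), (11680, 1760), (14352, 0), (18064, 0),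
      (13016, 3366)] (.rel2 [(8240, 4576), (8512, 3600), (15557, 2190), (12804, 11660), (8690,
      7572)] (.rel1 [(11680, 1760), (14352, 0), (18064, 0), (11195, 4581)] (.rel2 [(8240, 4576),
      (8512, 3600), (15557, 2190), (10496, 19600)] (.leaf ⟨2, 0, 0, 5⟩))))))))

theorem ok3_7zs_2 :
    chkT cF7nn cF7nn T3_7zs_2 (14448, 624) (14576, 672) dum n3_Z n3_S3 = true := by
  decide +kernel

/-- tree -/
def T3_7zs_3 : CT :=
  .rel1 [(14352, 0), (16000, 0), (13744, 2880), (13024, 3360), (12960, 3312), (11648, 2128), (11668,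
      1766)] (.rel2 [(13792, 2544), (13872, 7984), (13072, 10736), (11440, 10304), (8912, 7792),
      (8544, 6592), (8104, 3680)] (.rel1 [(13024, 3360), (12960, 3312), (11648, 2128), (11668,
      1766), (14352, 0), (18064, 0)] (.rel2 [(11440, 10304), (8912, 7792), (8544, 6592), (8104,
      3680), (13792, 2544), (13916, 10960)] (.rel1 [(11648, 2128), (11668, 1766), (14352, 0),
      (18064, 0), (13016, 3366)] (.rel2 [(8544, 6592), (8104, 3680), (13792, 2544), (13916, 10960),
      (9525, 9797)] (.rel1 [(14352, 0), (18064, 0), (13016, 3366), (11423, 1925)] (.rel2 [(7677,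
      3763), (13792, 2544), (14120, 24801)] (.leaf ⟨1, 0, 0, 12⟩))))))))

theorem ok3_7zs_3 :
    chkT cF7nn cF7nn T3_7zs_3 (14576, 672) (14704, 784) dum n3_Z n3_S3 = true := by
  decide +kernel

/-- tree -/
def T3_7zs_4 : CT :=
  .seg (14632, 864) (.rel1 [(11680, 1760), (14352, 0), (16000, 0), (13744, 2880), (13024, 3360),
      (12960, 3312), (11621, 2104)] (.rel2 [(13792, 2544), (13872, 7984), (13072, 10736), (11440,
      10304), (8912, 7792), (8544, 6592), (8104, 3680)] (.rel1 [(16000, 0), (13744, 2880), (13024,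
      3360), (12960, 3312), (11621, 2104), (11980, 0)] (.rel2 [(8912, 7792), (8544, 6592), (8104,
      3680), (13792, 2544), (13872, 7984), (12804, 11660)] (.rel1 [(12960, 3312), (11621, 2104),
      (11980, 0), (16000, 0), (13240, 3524)] (.rel2 [(8104, 3680), (13792, 2544), (13872, 7984),
      (12804, 11660), (8691, 7573)] (.rel1 [(11980, 0), (16000, 0), (13240, 3524), (11590, 2275)]
      (.rel2 [(8104, 3680), (13792, 2544), (13872, 7984), (10502, 19584)] (.rel1 [(11980, 0),
      (16000, 0), (10853, 6572)] (.leaf ⟨0, 1, 0, 0⟩)))))))))) (.rel1 [(11680, 1760), (14352, 0),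
      (16000, 0), (13744, 2880), (13024, 3360), (12960, 3312), (11621, 2104)] (.rel2 [(13792, 2544),
      (13872, 7984), (13072, 10736), (11440, 10304), (8912, 7792), (8544, 6592), (8104, 3680)]
      (.rel1 [(16000, 0), (13744, 2880), (13024, 3360), (12960, 3312), (11621, 2104), (11980, 0)]
      (.rel2 [(8912, 7792), (8544, 6592), (8104, 3680), (13792, 2544), (13872, 7984), (12804,
      11660)] (.rel1 [(12960, 3312), (11621, 2104), (11980, 0), (16000, 0), (13240, 3524)] (.rel2
      [(8104, 3680), (13792, 2544), (13872, 7984), (12804, 11660), (8691, 7573)] (.rel1 [(11980, 0),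
      (16000, 0), (13240, 3524), (11590, 2275)] (.rel2 [(8104, 3680), (13792, 2544), (13872, 7984),
      (10502, 19584)] (.rel1 [(11980, 0), (16000, 0), (10853, 6572)] (.leaf ⟨0, 19, 6, 0⟩))))))))))

theorem ok3_7zs_4 :
    chkT cF7nn cF7nn T3_7zs_4 (14704, 784) (14560, 944) dum n3_Z n3_S3 = true := by
  decide +kernel

/-- tree -/
def T3_7zs_5 : CT :=
  .cut2 true 6640 [(8240, 4576), (8512, 3600), (13792, 2544), (13853, 6640), (8558, 6640), (8544,
      6592)] [(13853, 6640), (13872, 7984), (13072, 10736), (11440, 10304), (8912, 7792), (8558,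
      6640)] (.rel1 [(11680, 1760), (14352, 0), (16000, 0), (13744, 2880), (13024, 3360), (12960,
      3312), (11621, 2104)] (.rel2 [(8512, 3600), (13792, 2544), (13853, 6640), (8558, 6640), (8100,
      5072)] (.rel1 [(16000, 0), (13744, 2880), (13024, 3360), (12960, 3312), (11621, 2104), (11980,
      0)] (.rel2 [(13792, 2544), (13853, 6640), (8558, 6640), (7715, 3758)] (.rel1 [(8541, 0),
      (16000, 0), (13240, 3524)] (.leaf ⟨0, 0, 1, 0⟩)))))) (.seg (14456, 968) (.rel1 [(11648, 2128),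
      (11664, 1856), (11680, 1760), (14352, 0), (16000, 0), (13744, 2880), (13016, 3366)] (.rel2
      [(13072, 10736), (11440, 10304), (8912, 7792), (8558, 6640), (14263, 6639)] (.rel1 [(14352,
      0), (16000, 0), (13744, 2880), (13016, 3366), (11648, 2128), (11668, 1766)] (.rel2 [(8558,
      6640), (14263, 6639), (13072, 10736), (9527, 9798)] (.rel1 [(16000, 0), (13744, 2880), (11523,
      4363), (11765, 0)] (.leaf ⟨0, 1, 2, 0⟩)))))) (.rel1 [(11680, 1760), (14352, 0), (16000, 0),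
      (13744, 2880), (13024, 3360), (12960, 3312), (11621, 2104)] (.rel2 [(13072, 10736), (11440,
      10304), (8912, 7792), (8558, 6640), (14263, 6639)] (.rel1 [(16000, 0), (13744, 2880), (13024,
      3360), (12960, 3312), (11621, 2104), (11980, 0)] (.rel2 [(8558, 6640), (14263, 6639), (13072,
      10736), (9527, 9798)] (.rel1 [(9294, 0), (16000, 0), (13219, 3551)] (.leaf ⟨0, 1, 3, 0⟩)))))))

theorem ok3_7zs_5 :
    chkT cF7nn cF7nn T3_7zs_5 (14560, 944) (14352, 992) dum n3_Z n3_S3 = true := by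
  decide +kernel

/-- tree -/
def T3_7zs_6 : CT :=
  .rel1 [(16000, 0), (13744, 2880), (13024, 3360), (12960, 3312), (11648, 2128), (11664, 1856),
      (11972, 0)] (.rel2 [(13072, 10736), (11440, 10304), (8912, 7792), (8544, 6592), (8240, 4576),
      (8512, 3600), (15557, 2190)] (.rel1 [(13024, 3360), (12960, 3312), (11648, 2128), (11664,
      1856), (11972, 0), (18064, 0)] (.rel2 [(15557, 2190), (13072, 10736), (11440, 10304), (8912,
      7792), (8544, 6592), (8104, 3680)] (.rel1 [(18064, 0), (13024, 3360), (12960, 3312), (11648,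
      2128), (11772, 0)] (.rel2 [(15557, 2190), (13072, 10736), (11440, 10304), (8912, 7792), (7676,
      3764)] (.rel1 [(18064, 0), (13016, 3366), (9295, 0)] (.leaf ⟨77, 0, 22, 0⟩)))))))

theorem ok3_7zs_6 :
    chkT cF7nn cF7nn T3_7zs_6 (14352, 992) (14336, 752) dum n3_Z n3_S3 = true := by
  decide +kernel

theorem fr3_7zs {z k l : ℂ} (hz : OnE v3_7zs z) (hk : k ∈ Poly p3_Z)
    (hl : l ∈ Poly p3_S3) :
    k ^ 2 + l ^ 2 - 2 * k * l * (64 * z ^ 7 - 112 * z ^ 5 + 56 * z ^ 3 - 7 * z) + (z * (64 * z ^ 6 -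
        80 * z ^ 4 + 24 * z ^ 2 - 1)) ^ 2 ≠ 0 := by
  have h := edge_use rpF7nn (E := L3_7zs) (V0 := dum) (V1 := n3_Z) (V2 := n3_S3) (fun e he => by
    simp only [L3_7zs, List.mem_cons, List.not_mem_nil, or_false] at he
    rcases he with rfl | rfl | rfl | rfl | rfl | rfl | rfl
    exacts [⟨_, ok3_7zs_0⟩, ⟨_, ok3_7zs_1⟩, ⟨_, ok3_7zs_2⟩, ⟨_, ok3_7zs_3⟩, ⟨_, ok3_7zs_4⟩, ⟨_,
        ok3_7zs_5⟩, ⟨_, ok3_7zs_6⟩]) (V := v3_7zs) (by decide) hz zero_dum (rg3_Z hk) (rg3_S3 hl)
  rw [evF7nn (mr_false k) (mr_false l)] at h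
  exact fun h0 => h (by rw [h0, mul_zero])

/-- edges -/
def L3_7ss : List ((ℕ × ℕ) × (ℕ × ℕ)) :=
  [((14112, 784), (14224, 640)), ((14224, 640), (14336, 560)), ((14336, 560), (14608, 784)),
      ((14608, 784), (14256, 1232)), ((14256, 1232), (14128, 1088)), ((14128, 1088), (14112, 784))]

/-- tree -/
def T3_7ss_0 : CT :=
  .rel1 [(13072, 10736), (11440, 10304), (8912, 7792), (8544, 6592), (8240, 4576), (8512, 3600),
      (15557, 2190)] (.rel2 [(13072, 10736), (11440, 10304), (8912, 7792), (8544, 6592), (8240,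
      4576), (8512, 3600), (15557, 2190)] (.rel1 [(8912, 7792), (8544, 6592), (8240, 4576), (8512,
      3600), (15557, 2190), (12804, 11660)] (.rel2 [(8912, 7792), (8544, 6592), (8240, 4576), (8512,
      3600), (15557, 2190), (12804, 11660)] (.rel1 [(15557, 2190), (12804, 11660), (8912, 7792),
      (8544, 6592), (8104, 3680)] (.rel2 [(15557, 2190), (12804, 11660), (8912, 7792), (8544, 6592),
      (8104, 3680)] (.leaf ⟨18, 0, 0, 9⟩))))))

theorem ok3_7ss_0 :
    chkT cF7nn cF7nn T3_7ss_0 (14112, 784) (14224, 640) dum n3_S3 n3_S3 = true := by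
  decide +kernel

/-- tree -/
def T3_7ss_1 : CT :=
  .rel1 [(11440, 10304), (8912, 7792), (8544, 6592), (8240, 4576), (8512, 3600), (13792, 2544),
      (13916, 10960)] (.rel2 [(13072, 10736), (11440, 10304), (8912, 7792), (8544, 6592), (8240,
      4576), (8512, 3600), (15557, 2190)] (.rel1 [(8912, 7792), (8544, 6592), (8240, 4576), (8512,
      3600), (13792, 2544), (13943, 12792)] (.rel2 [(8912, 7792), (8544, 6592), (8240, 4576), (8512,
      3600), (15557, 2190), (12804, 11660)] (.rel1 [(8240, 4576), (8512, 3600), (13792, 2544),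
      (13943, 12792), (8690, 7572)] (.rel2 [(8240, 4576), (8512, 3600), (15557, 2190), (12804,
      11660), (8690, 7572)] (.rel1 [(13792, 2544), (13943, 12792), (8690, 7572), (8104, 3680)]
      (.leaf ⟨7, 0, 0, 4⟩)))))))

theorem ok3_7ss_1 :
    chkT cF7nn cF7nn T3_7ss_1 (14224, 640) (14336, 560) dum n3_S3 n3_S3 = true := by
  decide +kernel

/-- tree -/
def T3_7ss_2 : CT :=
  .rel1 [(11440, 10304), (8912, 7792), (8544, 6592), (8240, 4576), (8512, 3600), (13792, 2544),
      (13916, 10960)] (.rel2 [(11440, 10304), (8912, 7792), (8544, 6592), (8240, 4576), (8512,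
      3600), (13792, 2544), (13916, 10960)] (.rel1 [(8544, 6592), (8240, 4576), (8512, 3600),
      (13792, 2544), (13916, 10960), (9525, 9797)] (.rel2 [(8544, 6592), (8240, 4576), (8512, 3600),
      (13792, 2544), (13916, 10960), (9525, 9797)] (.rel1 [(8512, 3600), (13792, 2544), (13916,
      10960), (9525, 9797), (8089, 5110)] (.rel2 [(8512, 3600), (13792, 2544), (13916, 10960),
      (9525, 9797), (8089, 5110)] (.rel1 [(8089, 5110), (8512, 3600), (13792, 2544), (14120, 24795)]
      (.rel2 [(8089, 5110), (8512, 3600), (13792, 2544), (14120, 24795)] (.rel1 [(13792, 2544),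
      (14120, 24795), (7676, 3765)] (.leaf ⟨0, 1, 0, 12⟩)))))))))

theorem ok3_7ss_2 :
    chkT cF7nn cF7nn T3_7ss_2 (14336, 560) (14608, 784) dum n3_S3 n3_S3 = true := by
  decide +kernel

/-- tree -/
def T3_7ss_3 : CT :=
  .seg (14432, 1008) (.seg (14520, 896) (.cut1 false 11056 [(8240, 4576), (8512, 3600), (11056,
      3091), (11056, 9923), (8912, 7792), (8544, 6592)] [(11056, 3091), (13792, 2544), (13872,
      7984), (13072, 10736), (11440, 10304), (11056, 9923)] (.rel1 [(11056, 3091), (11056, 9923),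
      (8912, 7792), (8544, 6592), (8104, 3680)] (.rel2 [(13792, 2544), (13872, 7984), (13072,
      10736), (11440, 10304), (8912, 7792), (8544, 6592), (8104, 3680)] (.rel1 [(8104, 3680),
      (11056, 3091), (11056, 9923), (8691, 7573)] (.rel2 [(8912, 7792), (8544, 6592), (8104, 3680),
      (13792, 2544), (13872, 7984), (12804, 11660)] (.rel1 [(11056, 3091), (11056, 9923), (5329,
      4233)] (.rel2 [(10502, 19584), (8104, 3680), (15555, 2191)] (.leaf ⟨0, 19, 6, 0⟩))))))) (.cut2
      false 11056 [(8240, 4576), (8512, 3600), (11056, 3091), (11056, 9923), (8912, 7792), (8544,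
      6592)] [(11056, 3091), (13792, 2544), (13872, 7984), (13072, 10736), (11440, 10304), (11056,
      9923)] (.rel1 [(11056, 9923), (11056, 3091), (13792, 2544), (13872, 7984), (12804, 11658)]
      (.rel2 [(11056, 3091), (11056, 9923), (8912, 7792), (8544, 6592), (8104, 3680)] (.rel1
      [(13792, 2544), (13872, 7984), (12804, 11658), (5325, 4235)] (.rel2 [(8104, 3680), (11056,
      3091), (11056, 9923), (8691, 7573)] (.rel1 [(5325, 4235), (13792, 2544), (13943, 12789)]
      (.rel2 [(11056, 3091), (11056, 9923), (5329, 4233)] (.leaf ⟨0, 1, 0, 0⟩))))))) (.seg (14564,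
      840) (.cut1 true 6640 [(11056, 3091), (13792, 2544), (13853, 6640), (11056, 6640)] [(13853,
      6640), (13872, 7984), (13072, 10736), (11440, 10304), (11056, 9923), (11056, 6640)] (.cut2
      true 6640 [(11056, 3091), (13792, 2544), (13853, 6640), (11056, 6640)] [(13853, 6640), (13872,
      7984), (13072, 10736), (11440, 10304), (11056, 9923), (11056, 6640)] (.leaf ⟨0, 79, 13, 0⟩)
      (.rel2 [(11056, 6640), (13853, 6640), (13915, 10960), (11055, 10202)] (.leaf ⟨0, 1, 0, 2⟩)))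
      (.rel1 [(11440, 10304), (11056, 9923), (11056, 6640), (13853, 6640), (13915, 10960)] (.rel2
      [(11440, 10304), (11056, 9923), (11056, 3091), (13792, 2544), (13916, 10960)] (.rel1 [(11056,
      6640), (13853, 6640), (13915, 10960), (11055, 10202)] (.rel2 [(11056, 3091), (13792, 2544),
      (13916, 10960), (11055, 10202)] (.leaf ⟨0, 1, 0, 2⟩)))))) (.rel1 [(13792, 2544), (13872,
      7984), (13072, 10736), (11440, 10304), (5324, 4236)] (.rel2 [(11056, 3091), (13792, 2544),
      (13872, 7984), (13072, 10736), (11055, 10203)] (.rel1 [(5324, 4236), (13792, 2544), (13872,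
      7984), (12804, 11658)] (.rel2 [(11055, 10203), (11056, 3091), (13792, 2544), (13916, 10960)]
      (.leaf ⟨0, 39, 9, 0⟩)))))))) (.rel1 [(13792, 2544), (13872, 7984), (13072, 10736), (11440,
      10304), (8912, 7792), (8544, 6592), (8104, 3680)] (.rel2 [(13792, 2544), (13872, 7984),
      (13072, 10736), (11440, 10304), (8912, 7792), (8544, 6592), (8104, 3680)] (.rel1 [(8912,
      7792), (8544, 6592), (8104, 3680), (13792, 2544), (13872, 7984), (12804, 11660)] (.rel2
      [(8912, 7792), (8544, 6592), (8104, 3680), (13792, 2544), (13872, 7984), (12804, 11660)]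
      (.rel1 [(8104, 3680), (13792, 2544), (13872, 7984), (12804, 11660), (8691, 7573)] (.rel2
      [(8104, 3680), (13792, 2544), (13872, 7984), (12804, 11660), (8691, 7573)] (.rel1 [(13792,
      2544), (13872, 7984), (12804, 11660), (5329, 4233)] (.rel2 [(8104, 3680), (13792, 2544),
      (13872, 7984), (10502, 19584)] (.leaf ⟨0, 36, 17, 0⟩)))))))))) (.seg (14344, 1120) (.rel1
      [(13792, 2544), (13872, 7984), (13072, 10736), (11440, 10304), (8912, 7792), (8544, 6592),
      (8104, 3680)] (.rel2 [(13792, 2544), (13872, 7984), (13072, 10736), (11440, 10304), (8912,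
      7792), (8544, 6592), (8104, 3680)] (.rel1 [(8912, 7792), (8544, 6592), (8104, 3680), (13792,
      2544), (13872, 7984), (12804, 11660)] (.rel2 [(8912, 7792), (8544, 6592), (8104, 3680),
      (13792, 2544), (13872, 7984), (12804, 11660)] (.rel1 [(8104, 3680), (13792, 2544), (13872,
      7984), (12804, 11660), (8691, 7573)] (.rel2 [(8104, 3680), (13792, 2544), (13872, 7984),
      (12804, 11660), (8691, 7573)] (.rel1 [(8104, 3680), (13792, 2544), (13872, 7984), (10502,
      19584)] (.rel2 [(8104, 3680), (13792, 2544), (13872, 7984), (10502, 19584)] (.leaf ⟨0, 6, 5,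
      0⟩))))))))) (.rel1 [(8544, 6592), (8240, 4576), (8512, 3600), (13792, 2544), (13872, 7984),
      (13072, 10736), (9526, 9798)] (.rel2 [(13792, 2544), (13872, 7984), (13072, 10736), (11440,
      10304), (8912, 7792), (8544, 6592), (8104, 3680)] (.rel1 [(8512, 3600), (13792, 2544), (13872,
      7984), (13072, 10736), (9526, 9798), (8089, 5110)] (.rel2 [(13792, 2544), (13872, 7984),
      (13072, 10736), (11440, 10304), (8912, 7792), (7676, 3764)] (.rel1 [(8512, 3600), (13792,
      2544), (13872, 7984), (13072, 10736), (6964, 9121)] (.rel2 [(7676, 3764), (13792, 2544),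
      (13872, 7984), (13072, 10736), (9526, 9798)] (.rel1 [(13072, 10736), (6964, 9121), (8512,
      3600), (15557, 2190)] (.rel2 [(13072, 10736), (9526, 9798), (7676, 3764), (15556, 2192)]
      (.leaf ⟨0, 1, 2, 0⟩))))))))))

theorem ok3_7ss_3 :
    chkT cF7nn cF7nn T3_7ss_3 (14608, 784) (14256, 1232) dum n3_S3 n3_S3 = true := by
  decide +kernel

/-- tree -/
def T3_7ss_4 : CT :=
  .rel1 [(13792, 2544), (13872, 7984), (13072, 10736), (11440, 10304), (8912, 7792), (8544, 6592),
      (8104, 3680)] (.rel2 [(13792, 2544), (13872, 7984), (13072, 10736), (11440, 10304), (8912,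
      7792), (8544, 6592), (8104, 3680)] (.rel1 [(13072, 10736), (11440, 10304), (8912, 7792),
      (8544, 6592), (8104, 3680), (15557, 2190)] (.rel2 [(8104, 3680), (13792, 2544), (13872, 7984),
      (13072, 10736), (11440, 10304), (8691, 7573)] (.rel1 [(8104, 3680), (15557, 2190), (13072,
      10736), (11440, 10304), (8691, 7573)] (.rel2 [(13072, 10736), (11440, 10304), (8691, 7573),
      (8104, 3680), (15557, 2190)] (.rel1 [(15557, 2190), (13072, 10736), (11440, 10304), (5329,
      4234)] (.rel2 [(15557, 2190), (13072, 10736), (11440, 10304), (5329, 4234)] (.leaf ⟨11, 0, 5,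
      0⟩))))))))

theorem ok3_7ss_4 :
    chkT cF7nn cF7nn T3_7ss_4 (14256, 1232) (14128, 1088) dum n3_S3 n3_S3 = true := by
  decide +kernel

/-- tree -/
def T3_7ss_5_1 : CT :=
  .rel1 [(13792, 2544), (13853, 6640), (8558, 6640), (8544, 6592), (8104, 3680)] (.rel2 [(13792,
      2544), (13872, 7984), (13072, 10736), (11440, 10304), (8912, 7792), (8544, 6592), (8104,
      3680)] (.rel1 [(13792, 2544), (13853, 6640), (8558, 6640), (7716, 3756)] (.rel2 [(5328,
      4231), (15557, 2190), (12804, 11660)] (.leaf ⟨1, 0, 0, 0⟩))))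

theorem ok3_7ss_5_q0 :
    chkT cF7nn cF7nn T3_7ss_5_1 (14128, 1088) (14112, 784) dum [(8240, 4576), (8512, 3600), (13792,
        2544), (13853, 6640), (8558, 6640), (8544, 6592)] n3_S3 = true := by
  decide +kernel

/-- tree -/
def T3_7ss_5_3 : CT :=
  .rel1 [(13072, 10736), (11440, 10304), (8912, 7792), (8558, 6640), (14263, 6639)] (.rel2 [(13792,
      2544), (13853, 6640), (8558, 6640), (8544, 6592), (8104, 3680)] (.rel1 [(14263, 6639),
      (13072, 10736), (11440, 10304), (7751, 6639)] (.rel2 [(13792, 2544), (13853, 6640), (8558,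
      6640), (7716, 3756)] (.rel1 [(7751, 6639), (14263, 6639), (12804, 11660)] (.leaf ⟨1, 0, 0,
      0⟩)))))

theorem ok3_7ss_5_q1 :
    chkT cF7nn cF7nn T3_7ss_5_3 (14128, 1088) (14112, 784) dum [(13853, 6640), (13872, 7984),
        (13072, 10736), (11440, 10304), (8912, 7792), (8558, 6640)] [(8240, 4576), (8512, 3600),
        (13792, 2544), (13853, 6640), (8558, 6640), (8544, 6592)] = true := by
  decide +kernel

/-- tree -/
def T3_7ss_5_11 : CT :=
  .seg (14120, 936) (.rel1 [(9872, 6640), (9872, 8747), (7752, 6639)] (.rel2 [(9872, 6640), (9872,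
      8747), (7752, 6639)] (.leaf ⟨0, 0, 1, 0⟩))) (.cut1 true 7680 [(8877, 7680), (8558, 6640),
      (9872, 6640), (9872, 7680)] [(9872, 8747), (8912, 7792), (8877, 7680), (9872, 7680)] (.rel2
      [(9872, 6640), (9872, 8747), (7752, 6639)] (.leaf ⟨1, 0, 0, 0⟩)) (.cut2 true 7680 [(8877,
      7680), (8558, 6640), (9872, 6640), (9872, 7680)] [(9872, 8747), (8912, 7792), (8877, 7680),
      (9872, 7680)] (.rel1 [(9872, 7680), (9872, 8747), (8798, 7679)] (.leaf ⟨1, 0, 0, 0⟩)) (.seg
      (14116, 860) (.rel1 [(9872, 7680), (9872, 8747), (8798, 7679)] (.rel2 [(9872, 7680), (9872,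
      8747), (8798, 7679)] (.leaf ⟨1, 0, 0, 0⟩))) (.cut1 true 8208 [(9330, 8208), (8912, 7792),
      (8877, 7680), (9872, 7680), (9872, 8208)] [(9872, 8747), (9330, 8208), (9872, 8208)] (.rel1
      [(9872, 7680), (9872, 8208), (9330, 8208), (8798, 7679)] (.rel2 [(9872, 7680), (9872, 8747),
      (8798, 7679)] (.leaf ⟨1, 0, 0, 0⟩))) (.seg (14114, 822) (.cut2 false 9360 [(9360, 8238),
      (8912, 7792), (8877, 7680), (9360, 7680)] [(9872, 8747), (9360, 8238), (9360, 7680), (9872,
      7680)] (.rel2 [(9360, 7680), (9360, 8238), (8798, 7679)] (.leaf ⟨1, 0, 0, 0⟩)) (.leaf ⟨19, 0,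
      0, 6⟩)) (.rel2 [(9872, 7680), (9872, 8747), (8798, 7679)] (.leaf ⟨7, 0, 0, 4⟩)))))))

theorem ok3_7ss_5_q2 :
    chkT cF7nn cF7nn T3_7ss_5_11 (14128, 1088) (14112, 784) dum [(9872, 8747), (8912, 7792), (8558,
        6640), (9872, 6640)] [(9872, 8747), (8912, 7792), (8558, 6640), (9872, 6640)] = true := by
  decide +kernel

/-- tree -/
def T3_7ss_5_13 : CT :=
  .rel2 [(9872, 6640), (9872, 8747), (7752, 6639)] (.leaf ⟨1, 0, 0, 0⟩)

theorem ok3_7ss_5_q3 :
    chkT cF7nn cF7nn T3_7ss_5_13 (14128, 1088) (14112, 784) dum [(9872, 8352), (9872, 6640),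
        (11200, 6640), (11200, 8352)] [(9872, 8747), (8912, 7792), (8558, 6640), (9872, 6640)] =
        true := by
  decide +kernel

/-- tree -/
def T3_7ss_5_15 : CT :=
  .seg (14124, 1012) (.rel1 [(11200, 8352), (11200, 10066), (9473, 8351)] (.rel2 [(9872, 6640),
      (9872, 8747), (7752, 6639)] (.leaf ⟨0, 0, 1, 0⟩))) (.cut2 true 7680 [(8877, 7680), (8558,
      6640), (9872, 6640), (9872, 7680)] [(9872, 8747), (8912, 7792), (8877, 7680), (9872, 7680)]
      (.rel1 [(11200, 8352), (11200, 10066), (9473, 8351)] (.leaf ⟨2, 0, 2, 0⟩)) (.cut1 true 9200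
      [(10328, 9200), (9872, 8747), (9872, 8352), (11200, 8352), (11200, 9200)] [(11200, 10066),
      (10328, 9200), (11200, 9200)] (.rel1 [(11200, 8352), (11200, 9200), (10328, 9200), (9473,
      8351)] (.rel2 [(9872, 7680), (9872, 8747), (8798, 7679)] (.leaf ⟨4, 0, 3, 0⟩))) (.seg (14122,
      974) (.rel2 [(9872, 7680), (9872, 8747), (8798, 7679)] (.leaf ⟨1, 0, 0, 0⟩)) (.cut2 true 8208
      [(9330, 8208), (8912, 7792), (8877, 7680), (9872, 7680), (9872, 8208)] [(9872, 8747), (9330,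
      8208), (9872, 8208)] (.rel2 [(9872, 7680), (9872, 8208), (9330, 8208), (8798, 7679)] (.leaf
      ⟨1, 0, 0, 0⟩)) (.cut1 true 9632 [(10762, 9632), (10328, 9200), (11200, 9200), (11200, 9632)]
      [(11200, 10066), (10762, 9632), (11200, 9632)] (.leaf ⟨1, 0, 0, 0⟩) (.leaf ⟨79, 0, 0,
      13⟩))))))

theorem ok3_7ss_5_q4 :
    chkT cF7nn cF7nn T3_7ss_5_15 (14128, 1088) (14120, 936) dum [(11200, 10066), (9872, 8747),
        (9872, 8352), (11200, 8352)] [(9872, 8747), (8912, 7792), (8558, 6640), (9872, 6640)] =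
        true := by
  decide +kernel

/-- tree -/
def T3_7ss_5_19 : CT :=
  .cut2 true 7680 [(8877, 7680), (8558, 6640), (9872, 6640), (9872, 7680)] [(9872, 8747), (8912,
      7792), (8877, 7680), (9872, 7680)] (.rel1 [(9473, 8351), (11200, 8352), (11200, 10066)]
      (.leaf ⟨1, 0, 0, 0⟩)) (.cut1 false 10528 [(10328, 9200), (9872, 8747), (9872, 8352), (10528,
      8352), (10528, 9200)] [(10528, 8352), (11200, 8352), (11200, 9200), (10528, 9200)] (.seg
      (14118, 898) (.cut2 true 8208 [(9330, 8208), (8912, 7792), (8877, 7680), (9872, 7680), (9872,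
      8208)] [(9872, 8747), (9330, 8208), (9872, 8208)] (.rel1 [(10528, 8352), (10528, 9200),
      (10328, 9200), (9473, 8351)] (.rel2 [(9872, 7680), (9872, 8208), (9330, 8208), (8798, 7679)]
      (.rel1 [(9473, 8351), (10528, 8352), (10528, 9399)] (.leaf ⟨1, 0, 0, 0⟩)))) (.cut1 true 8768
      [(9893, 8768), (9872, 8747), (9872, 8352), (10528, 8352), (10528, 8768)] [(10328, 9200),
      (9893, 8768), (10528, 8768), (10528, 9200)] (.rel1 [(10528, 8352), (10528, 8768), (9893,
      8768), (9476, 8351)] (.leaf ⟨1, 0, 0, 0⟩)) (.seg (14119, 917) (.rel1 [(9893, 8768), (10528,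
      8768), (10528, 9399)] (.leaf ⟨1, 0, 0, 0⟩)) (.cut2 false 9600 [(9600, 8477), (9330, 8208),
      (9600, 8208)] [(9872, 8747), (9600, 8477), (9600, 8208), (9872, 8208)] (.rel1 [(9893, 8768),
      (10528, 8768), (10528, 9399)] (.leaf ⟨1, 0, 0, 0⟩)) (.rel1 [(9893, 8768), (10528, 8768),
      (10528, 9399)] (.leaf ⟨79, 0, 0, 13⟩)))))) (.cut2 true 8208 [(9330, 8208), (8912, 7792),
      (8877, 7680), (9872, 7680), (9872, 8208)] [(9872, 8747), (9330, 8208), (9872, 8208)] (.rel1
      [(10528, 8352), (10528, 9200), (10328, 9200), (9473, 8351)] (.rel2 [(9872, 7680), (9872,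
      8208), (9330, 8208), (8798, 7679)] (.leaf ⟨1, 0, 0, 0⟩))) (.rel1 [(9872, 8747), (9872, 8352),
      (10528, 8352), (10528, 9399)] (.leaf ⟨79, 0, 0, 13⟩)))) (.rel2 [(9872, 7680), (9872, 8747),
      (8798, 7679)] (.leaf ⟨1, 0, 0, 0⟩)))

theorem ok3_7ss_5_q5 :
    chkT cF7nn cF7nn T3_7ss_5_19 (14120, 936) (14116, 860) dum [(10328, 9200), (9872, 8747), (9872,
        8352), (11200, 8352), (11200, 9200)] [(9872, 8747), (8912, 7792), (8558, 6640), (9872,
        6640)] = true := by
  decide +kernel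

/-- tree -/
def T3_7ss_5_20 : CT :=
  .seg (14118, 898) (.cut2 true 7680 [(8877, 7680), (8558, 6640), (9872, 6640), (9872, 7680)]
      [(9872, 8747), (8912, 7792), (8877, 7680), (9872, 7680)] (.leaf ⟨1, 0, 0, 0⟩) (.cut2 true
      8208 [(9330, 8208), (8912, 7792), (8877, 7680), (9872, 7680), (9872, 8208)] [(9872, 8747),
      (9330, 8208), (9872, 8208)] (.cut1 false 10752 [(10752, 9622), (10328, 9200), (10752, 9200)]
      [(11200, 10066), (10752, 9622), (10752, 9200), (11200, 9200)] (.rel2 [(9872, 7680), (9872,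
      8208), (9330, 8208), (8798, 7679)] (.leaf ⟨1, 0, 0, 0⟩)) (.rel2 [(8798, 7679), (9872, 7680),
      (9872, 8747)] (.leaf ⟨79, 0, 0, 13⟩))) (.leaf ⟨79, 0, 0, 13⟩))) (.leaf ⟨39, 0, 0, 9⟩)

theorem ok3_7ss_5_q6 :
    chkT cF7nn cF7nn T3_7ss_5_20 (14120, 936) (14116, 860) dum [(11200, 10066), (10328, 9200),
        (11200, 9200)] [(9872, 8747), (8912, 7792), (8558, 6640), (9872, 6640)] = true := by
  decide +kernel

/-- tree -/
def T3_7ss_5_17 : CT := .cut1 true 9200 [(10328, 9200), (9872, 8747), (9872, 8352), (11200, 8352),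
    (11200, 9200)] [(11200, 10066), (10328, 9200), (11200, 9200)] T3_7ss_5_19 T3_7ss_5_20

theorem ok3_7ss_5_r7 :
    chkT cF7nn cF7nn T3_7ss_5_17 (14120, 936) (14116, 860) dum [(11200, 10066), (9872, 8747),
        (9872, 8352), (11200, 8352)] [(9872, 8747), (8912, 7792), (8558, 6640), (9872, 6640)] =
        true :=
  chkT_cut1 (by decide +kernel)
    ok3_7ss_5_q5
    ok3_7ss_5_q6

/-- tree -/
def T3_7ss_5_18 : CT :=
  .rel1 [(11200, 8352), (11200, 10066), (9473, 8351)] (.leaf ⟨79, 0, 0, 13⟩)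

theorem ok3_7ss_5_q8 :
    chkT cF7nn cF7nn T3_7ss_5_18 (14116, 860) (14112, 784) dum [(11200, 10066), (9872, 8747),
        (9872, 8352), (11200, 8352)] [(9872, 8747), (8912, 7792), (8558, 6640), (9872, 6640)] =
        true := by
  decide +kernel

/-- tree -/
def T3_7ss_5_16 : CT := .seg (14116, 860) T3_7ss_5_17 T3_7ss_5_18

theorem ok3_7ss_5_r9 :
    chkT cF7nn cF7nn T3_7ss_5_16 (14120, 936) (14112, 784) dum [(11200, 10066), (9872, 8747),
        (9872, 8352), (11200, 8352)] [(9872, 8747), (8912, 7792), (8558, 6640), (9872, 6640)] =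
        true :=
  chkT_seg (by decide +kernel)
    ok3_7ss_5_r7
    ok3_7ss_5_q8

/-- tree -/
def T3_7ss_5_14 : CT := .seg (14120, 936) T3_7ss_5_15 T3_7ss_5_16

theorem ok3_7ss_5_r10 :
    chkT cF7nn cF7nn T3_7ss_5_14 (14128, 1088) (14112, 784) dum [(11200, 10066), (9872, 8747),
        (9872, 8352), (11200, 8352)] [(9872, 8747), (8912, 7792), (8558, 6640), (9872, 6640)] =
        true :=
  chkT_seg (by decide +kernel)
    ok3_7ss_5_q4
    ok3_7ss_5_r9

/-- tree -/
def T3_7ss_5_12 : CT := .cut1 true 8352 [(9872, 8352), (9872, 6640), (11200, 6640), (11200, 8352)]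
    [(11200, 10066), (9872, 8747), (9872, 8352), (11200, 8352)] T3_7ss_5_13 T3_7ss_5_14

theorem ok3_7ss_5_r11 :
    chkT cF7nn cF7nn T3_7ss_5_12 (14128, 1088) (14112, 784) dum [(11200, 10066), (9872, 8747),
        (9872, 6640), (11200, 6640)] [(9872, 8747), (8912, 7792), (8558, 6640), (9872, 6640)] =
        true :=
  chkT_cut1 (by decide +kernel)
    ok3_7ss_5_q3
    ok3_7ss_5_r10

/-- tree -/
def T3_7ss_5_9 : CT := .cut1 false 9872 [(9872, 8747), (8912, 7792), (8558, 6640), (9872, 6640)]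
    [(11200, 10066), (9872, 8747), (9872, 6640), (11200, 6640)] T3_7ss_5_11 T3_7ss_5_12

theorem ok3_7ss_5_r12 :
    chkT cF7nn cF7nn T3_7ss_5_9 (14128, 1088) (14112, 784) dum [(11200, 10066), (8912, 7792),
        (8558, 6640), (11200, 6640)] [(9872, 8747), (8912, 7792), (8558, 6640), (9872, 6640)] =
        true :=
  chkT_cut1 (by decide +kernel)
    ok3_7ss_5_q2
    ok3_7ss_5_r11

/-- tree -/
def T3_7ss_5_21 : CT :=
  .rel1 [(11200, 6640), (11200, 10066), (7751, 6639)] (.leaf ⟨1, 0, 0, 0⟩)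

theorem ok3_7ss_5_q13 :
    chkT cF7nn cF7nn T3_7ss_5_21 (14128, 1088) (14112, 784) dum [(11200, 10066), (8912, 7792),
        (8558, 6640), (11200, 6640)] [(9872, 8352), (9872, 6640), (11200, 6640), (11200, 8352)] =
        true := by
  decide +kernel

/-- tree -/
def T3_7ss_5_25 : CT :=
  .seg (14124, 1012) (.rel1 [(9872, 6640), (9872, 8747), (7752, 6639)] (.rel2 [(11200, 8352),
      (11200, 10066), (9473, 8351)] (.leaf ⟨0, 0, 1, 0⟩))) (.cut1 true 7680 [(8877, 7680), (8558,
      6640), (9872, 6640), (9872, 7680)] [(9872, 8747), (8912, 7792), (8877, 7680), (9872, 7680)]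
      (.rel2 [(11200, 8352), (11200, 10066), (9473, 8351)] (.leaf ⟨2, 0, 2, 0⟩)) (.cut2 true 9200
      [(10328, 9200), (9872, 8747), (9872, 8352), (11200, 8352), (11200, 9200)] [(11200, 10066),
      (10328, 9200), (11200, 9200)] (.rel1 [(9872, 7680), (9872, 8747), (8798, 7679)] (.rel2
      [(11200, 8352), (11200, 9200), (10328, 9200), (9473, 8351)] (.leaf ⟨4, 0, 3, 0⟩))) (.seg
      (14122, 974) (.rel1 [(9872, 7680), (9872, 8747), (8798, 7679)] (.leaf ⟨1, 0, 0, 0⟩)) (.cut1
      true 8208 [(9330, 8208), (8912, 7792), (8877, 7680), (9872, 7680), (9872, 8208)] [(9872,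
      8747), (9330, 8208), (9872, 8208)] (.rel1 [(9872, 7680), (9872, 8208), (9330, 8208), (8798,
      7679)] (.leaf ⟨1, 0, 0, 0⟩)) (.cut2 true 9632 [(10762, 9632), (10328, 9200), (11200, 9200),
      (11200, 9632)] [(11200, 10066), (10762, 9632), (11200, 9632)] (.leaf ⟨1, 0, 0, 0⟩) (.leaf
      ⟨79, 0, 0, 13⟩))))))

theorem ok3_7ss_5_q14 :
    chkT cF7nn cF7nn T3_7ss_5_25 (14128, 1088) (14120, 936) dum [(9872, 8747), (8912, 7792), (8558,
        6640), (9872, 6640)] [(11200, 10066), (9872, 8747), (9872, 8352), (11200, 8352)] = true :=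
        by
  decide +kernel

/-- tree -/
def T3_7ss_5_29 : CT :=
  .cut1 true 7680 [(8877, 7680), (8558, 6640), (9872, 6640), (9872, 7680)] [(9872, 8747), (8912,
      7792), (8877, 7680), (9872, 7680)] (.rel2 [(9473, 8351), (11200, 8352), (11200, 10066)]
      (.leaf ⟨1, 0, 0, 0⟩)) (.cut2 false 10528 [(10328, 9200), (9872, 8747), (9872, 8352), (10528,
      8352), (10528, 9200)] [(10528, 8352), (11200, 8352), (11200, 9200), (10528, 9200)] (.seg
      (14118, 898) (.cut1 true 8208 [(9330, 8208), (8912, 7792), (8877, 7680), (9872, 7680), (9872,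
      8208)] [(9872, 8747), (9330, 8208), (9872, 8208)] (.rel1 [(9872, 7680), (9872, 8208), (9330,
      8208), (8798, 7679)] (.rel2 [(10528, 8352), (10528, 9200), (10328, 9200), (9473, 8351)]
      (.rel1 [(8798, 7679), (9872, 7680), (9872, 8747)] (.leaf ⟨1, 0, 0, 0⟩)))) (.cut2 true 8768
      [(9893, 8768), (9872, 8747), (9872, 8352), (10528, 8352), (10528, 8768)] [(10328, 9200),
      (9893, 8768), (10528, 8768), (10528, 9200)] (.rel2 [(10528, 8352), (10528, 8768), (9893,
      8768), (9476, 8351)] (.leaf ⟨1, 0, 0, 0⟩)) (.seg (14119, 917) (.rel2 [(9893, 8768), (10528,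
      8768), (10528, 9399)] (.leaf ⟨1, 0, 0, 0⟩)) (.cut1 false 9600 [(9600, 8477), (9330, 8208),
      (9600, 8208)] [(9872, 8747), (9600, 8477), (9600, 8208), (9872, 8208)] (.rel2 [(9893, 8768),
      (10528, 8768), (10528, 9399)] (.leaf ⟨1, 0, 0, 0⟩)) (.rel2 [(9893, 8768), (10528, 8768),
      (10528, 9399)] (.leaf ⟨79, 0, 0, 13⟩)))))) (.cut1 true 8208 [(9330, 8208), (8912, 7792),
      (8877, 7680), (9872, 7680), (9872, 8208)] [(9872, 8747), (9330, 8208), (9872, 8208)] (.rel1
      [(9872, 7680), (9872, 8208), (9330, 8208), (8798, 7679)] (.rel2 [(10528, 8352), (10528,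
      9200), (10328, 9200), (9473, 8351)] (.leaf ⟨1, 0, 0, 0⟩))) (.rel2 [(9872, 8747), (9872,
      8352), (10528, 8352), (10528, 9399)] (.leaf ⟨79, 0, 0, 13⟩)))) (.rel1 [(9872, 7680), (9872,
      8747), (8798, 7679)] (.leaf ⟨1, 0, 0, 0⟩)))

theorem ok3_7ss_5_q15 :
    chkT cF7nn cF7nn T3_7ss_5_29 (14120, 936) (14116, 860) dum [(9872, 8747), (8912, 7792), (8558,
        6640), (9872, 6640)] [(10328, 9200), (9872, 8747), (9872, 8352), (11200, 8352), (11200,
        9200)] = true := by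
  decide +kernel

/-- tree -/
def T3_7ss_5_30 : CT :=
  .seg (14118, 898) (.cut1 true 7680 [(8877, 7680), (8558, 6640), (9872, 6640), (9872, 7680)]
      [(9872, 8747), (8912, 7792), (8877, 7680), (9872, 7680)] (.leaf ⟨1, 0, 0, 0⟩) (.cut1 true
      8208 [(9330, 8208), (8912, 7792), (8877, 7680), (9872, 7680), (9872, 8208)] [(9872, 8747),
      (9330, 8208), (9872, 8208)] (.cut2 false 10752 [(10752, 9622), (10328, 9200), (10752, 9200)]
      [(11200, 10066), (10752, 9622), (10752, 9200), (11200, 9200)] (.rel1 [(9872, 7680), (9872,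
      8208), (9330, 8208), (8798, 7679)] (.leaf ⟨1, 0, 0, 0⟩)) (.rel1 [(8798, 7679), (9872, 7680),
      (9872, 8747)] (.leaf ⟨79, 0, 0, 13⟩))) (.leaf ⟨79, 0, 0, 13⟩))) (.leaf ⟨39, 0, 0, 9⟩)

theorem ok3_7ss_5_q16 :
    chkT cF7nn cF7nn T3_7ss_5_30 (14120, 936) (14116, 860) dum [(9872, 8747), (8912, 7792), (8558,
        6640), (9872, 6640)] [(11200, 10066), (10328, 9200), (11200, 9200)] = true := by
  decide +kernel

/-- tree -/
def T3_7ss_5_27 : CT := .cut2 true 9200 [(10328, 9200), (9872, 8747), (9872, 8352), (11200, 8352),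
    (11200, 9200)] [(11200, 10066), (10328, 9200), (11200, 9200)] T3_7ss_5_29 T3_7ss_5_30

theorem ok3_7ss_5_r17 :
    chkT cF7nn cF7nn T3_7ss_5_27 (14120, 936) (14116, 860) dum [(9872, 8747), (8912, 7792), (8558,
        6640), (9872, 6640)] [(11200, 10066), (9872, 8747), (9872, 8352), (11200, 8352)] = true :=
  chkT_cut2 (by decide +kernel)
    ok3_7ss_5_q15
    ok3_7ss_5_q16

/-- tree -/
def T3_7ss_5_28 : CT :=
  .rel2 [(11200, 8352), (11200, 10066), (9473, 8351)] (.leaf ⟨79, 0, 0, 13⟩)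

theorem ok3_7ss_5_q18 :
    chkT cF7nn cF7nn T3_7ss_5_28 (14116, 860) (14112, 784) dum [(9872, 8747), (8912, 7792), (8558,
        6640), (9872, 6640)] [(11200, 10066), (9872, 8747), (9872, 8352), (11200, 8352)] = true :=
        by
  decide +kernel

/-- tree -/
def T3_7ss_5_26 : CT := .seg (14116, 860) T3_7ss_5_27 T3_7ss_5_28

theorem ok3_7ss_5_r19 :
    chkT cF7nn cF7nn T3_7ss_5_26 (14120, 936) (14112, 784) dum [(9872, 8747), (8912, 7792), (8558,
        6640), (9872, 6640)] [(11200, 10066), (9872, 8747), (9872, 8352), (11200, 8352)] = true :=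
  chkT_seg (by decide +kernel)
    ok3_7ss_5_r17
    ok3_7ss_5_q18

/-- tree -/
def T3_7ss_5_23 : CT := .seg (14120, 936) T3_7ss_5_25 T3_7ss_5_26

theorem ok3_7ss_5_r20 :
    chkT cF7nn cF7nn T3_7ss_5_23 (14128, 1088) (14112, 784) dum [(9872, 8747), (8912, 7792), (8558,
        6640), (9872, 6640)] [(11200, 10066), (9872, 8747), (9872, 8352), (11200, 8352)] = true :=
  chkT_seg (by decide +kernel)
    ok3_7ss_5_q14
    ok3_7ss_5_r19

/-- tree -/
def T3_7ss_5_24 : CT :=
  .cut1 true 8352 [(9872, 8352), (9872, 6640), (11200, 6640), (11200, 8352)] [(11200, 10066),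
      (9872, 8747), (9872, 8352), (11200, 8352)] (.rel2 [(11200, 8352), (11200, 10066), (9473,
      8351)] (.leaf ⟨1, 0, 0, 0⟩)) (.seg (14120, 936) (.leaf ⟨79, 0, 0, 13⟩) (.leaf ⟨79, 0, 0, 13⟩))

theorem ok3_7ss_5_q21 :
    chkT cF7nn cF7nn T3_7ss_5_24 (14128, 1088) (14112, 784) dum [(11200, 10066), (9872, 8747),
        (9872, 6640), (11200, 6640)] [(11200, 10066), (9872, 8747), (9872, 8352), (11200, 8352)] =
        true := by
  decide +kernel

/-- tree -/
def T3_7ss_5_22 : CT := .cut1 false 9872 [(9872, 8747), (8912, 7792), (8558, 6640), (9872, 6640)]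
    [(11200, 10066), (9872, 8747), (9872, 6640), (11200, 6640)] T3_7ss_5_23 T3_7ss_5_24

theorem ok3_7ss_5_r22 :
    chkT cF7nn cF7nn T3_7ss_5_22 (14128, 1088) (14112, 784) dum [(11200, 10066), (8912, 7792),
        (8558, 6640), (11200, 6640)] [(11200, 10066), (9872, 8747), (9872, 8352), (11200, 8352)] =
        true :=
  chkT_cut1 (by decide +kernel)
    ok3_7ss_5_r20
    ok3_7ss_5_q21

/-- tree -/
def T3_7ss_5_10 : CT := .cut2 true 8352 [(9872, 8352), (9872, 6640), (11200, 6640), (11200, 8352)]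
    [(11200, 10066), (9872, 8747), (9872, 8352), (11200, 8352)] T3_7ss_5_21 T3_7ss_5_22

theorem ok3_7ss_5_r23 :
    chkT cF7nn cF7nn T3_7ss_5_10 (14128, 1088) (14112, 784) dum [(11200, 10066), (8912, 7792),
        (8558, 6640), (11200, 6640)] [(11200, 10066), (9872, 8747), (9872, 6640), (11200, 6640)] =
        true :=
  chkT_cut2 (by decide +kernel)
    ok3_7ss_5_q13
    ok3_7ss_5_r22

/-- tree -/
def T3_7ss_5_7 : CT := .cut2 false 9872 [(9872, 8747), (8912, 7792), (8558, 6640), (9872, 6640)]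
    [(11200, 10066), (9872, 8747), (9872, 6640), (11200, 6640)] T3_7ss_5_9 T3_7ss_5_10

theorem ok3_7ss_5_r24 :
    chkT cF7nn cF7nn T3_7ss_5_7 (14128, 1088) (14112, 784) dum [(11200, 10066), (8912, 7792),
        (8558, 6640), (11200, 6640)] [(11200, 10066), (8912, 7792), (8558, 6640), (11200, 6640)] =
        true :=
  chkT_cut2 (by decide +kernel)
    ok3_7ss_5_r12
    ok3_7ss_5_r23

/-- tree -/
def T3_7ss_5_8 : CT :=
  .rel2 [(11200, 10066), (11200, 6640), (14263, 6639), (12804, 11658)] (.leaf ⟨79, 0, 0, 13⟩)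

theorem ok3_7ss_5_q25 :
    chkT cF7nn cF7nn T3_7ss_5_8 (14128, 1088) (14112, 784) dum [(11200, 10066), (8912, 7792),
        (8558, 6640), (11200, 6640)] [(13853, 6640), (13872, 7984), (13072, 10736), (11440, 10304),
        (11200, 10066), (11200, 6640)] = true := by
  decide +kernel

/-- tree -/
def T3_7ss_5_5 : CT := .cut2 false 11200 [(11200, 10066), (8912, 7792), (8558, 6640), (11200,
    6640)] [(13853, 6640), (13872, 7984), (13072, 10736), (11440, 10304), (11200, 10066), (11200,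
    6640)] T3_7ss_5_7 T3_7ss_5_8

theorem ok3_7ss_5_r26 :
    chkT cF7nn cF7nn T3_7ss_5_5 (14128, 1088) (14112, 784) dum [(11200, 10066), (8912, 7792),
        (8558, 6640), (11200, 6640)] [(13853, 6640), (13872, 7984), (13072, 10736), (11440, 10304),
        (8912, 7792), (8558, 6640)] = true :=
  chkT_cut2 (by decide +kernel)
    ok3_7ss_5_r24
    ok3_7ss_5_q25

/-- tree -/
def T3_7ss_5_6 : CT :=
  .rel1 [(13072, 10736), (11440, 10304), (11200, 10066), (11200, 6640), (14263, 6639)] (.rel2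
      [(13072, 10736), (11440, 10304), (8912, 7792), (8558, 6640), (14263, 6639)] (.rel1 [(11200,
      10066), (11200, 6640), (14263, 6639), (12804, 11658)] (.rel2 [(8912, 7792), (8558, 6640),
      (14263, 6639), (12804, 11660)] (.leaf ⟨79, 0, 0, 13⟩))))

theorem ok3_7ss_5_q27 :
    chkT cF7nn cF7nn T3_7ss_5_6 (14128, 1088) (14112, 784) dum [(13853, 6640), (13872, 7984),
        (13072, 10736), (11440, 10304), (11200, 10066), (11200, 6640)] [(13853, 6640), (13872,
        7984), (13072, 10736), (11440, 10304), (8912, 7792), (8558, 6640)] = true := by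
  decide +kernel

/-- tree -/
def T3_7ss_5_4 : CT := .cut1 false 11200 [(11200, 10066), (8912, 7792), (8558, 6640), (11200,
    6640)] [(13853, 6640), (13872, 7984), (13072, 10736), (11440, 10304), (11200, 10066), (11200,
    6640)] T3_7ss_5_5 T3_7ss_5_6

theorem ok3_7ss_5_r28 :
    chkT cF7nn cF7nn T3_7ss_5_4 (14128, 1088) (14112, 784) dum [(13853, 6640), (13872, 7984),
        (13072, 10736), (11440, 10304), (8912, 7792), (8558, 6640)] [(13853, 6640), (13872, 7984),
        (13072, 10736), (11440, 10304), (8912, 7792), (8558, 6640)] = true :=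
  chkT_cut1 (by decide +kernel)
    ok3_7ss_5_r26
    ok3_7ss_5_q27

/-- tree -/
def T3_7ss_5_2 : CT := .cut2 true 6640 [(8240, 4576), (8512, 3600), (13792, 2544), (13853, 6640),
    (8558, 6640), (8544, 6592)] [(13853, 6640), (13872, 7984), (13072, 10736), (11440, 10304),
    (8912, 7792), (8558, 6640)] T3_7ss_5_3 T3_7ss_5_4

theorem ok3_7ss_5_r29 :
    chkT cF7nn cF7nn T3_7ss_5_2 (14128, 1088) (14112, 784) dum [(13853, 6640), (13872, 7984),
        (13072, 10736), (11440, 10304), (8912, 7792), (8558, 6640)] n3_S3 = true :=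
  chkT_cut2 (by decide +kernel)
    ok3_7ss_5_q1
    ok3_7ss_5_r28

/-- tree -/
def T3_7ss_5 : CT := .cut1 true 6640 [(8240, 4576), (8512, 3600), (13792, 2544), (13853, 6640),
    (8558, 6640), (8544, 6592)] [(13853, 6640), (13872, 7984), (13072, 10736), (11440, 10304),
    (8912, 7792), (8558, 6640)] T3_7ss_5_1 T3_7ss_5_2

theorem ok3_7ss_5 :
    chkT cF7nn cF7nn T3_7ss_5 (14128, 1088) (14112, 784) dum n3_S3 n3_S3 = true :=
  chkT_cut1 (by decide +kernel)
    ok3_7ss_5_q0
    ok3_7ss_5_r29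

theorem fr3_7ss {z k l : ℂ} (hz : OnE v3_7ss z) (hk : k ∈ Poly p3_S3)
    (hl : l ∈ Poly p3_S3) :
    k ^ 2 + l ^ 2 - 2 * k * l * (64 * z ^ 7 - 112 * z ^ 5 + 56 * z ^ 3 - 7 * z) + (z * (64 * z ^ 6 -
        80 * z ^ 4 + 24 * z ^ 2 - 1)) ^ 2 ≠ 0 := by
  have h := edge_use rpF7nn (E := L3_7ss) (V0 := dum) (V1 := n3_S3) (V2 := n3_S3) (fun e he => by
    simp only [L3_7ss, List.mem_cons, List.not_mem_nil, or_false] at he
    rcases he with rfl | rfl | rfl | rfl | rfl | rfl
    exacts [⟨_, ok3_7ss_0⟩, ⟨_, ok3_7ss_1⟩, ⟨_, ok3_7ss_2⟩, ⟨_, ok3_7ss_3⟩, ⟨_, ok3_7ss_4⟩, ⟨_,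
        ok3_7ss_5⟩]) (V := v3_7ss) (by decide) hz zero_dum (rg3_S3 hk) (rg3_S3 hl)
  rw [evF7nn (mr_false k) (mr_false l)] at h
  exact fun h0 => h (by rw [h0, mul_zero])

end Pool.Agent.Work.MP_b30479_gt.G2.SC
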