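import Pool.Agent.Work.MP_b30479_gt.G2.S2Cert

/-!
# Evaluation of the tensor form
-/

namespace Pool.Agent.Work.MP_b30479_gt.G2.SC

open Finset

lemma app_rep (B : ℕ) (z : ℂ) : ∀ (d : ℕ) (a : ℕ → ℂ) (i : ℕ),
    app (List.replicate d (B, z)) a i =
      ∑ k ∈ range (d + 1), (d.choose k : ℂ) * z ^ k * a (i + k * B) := by
  intro d
  induction d with
  | zero => intro a i; simp [app]
  | succ d ih =>
    intro a i
    rw [List.replicate_succ]
    show app (List.replicate d (B, z)) (sc B z a) i = _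
    rw [ih]
    have e1 : ∑ k ∈ range (d + 1), (d.choose k : ℂ) * z ^ k * sc B z a (i + k * B) =
        ∑ k ∈ range (d + 1), (d.choose k : ℂ) * z ^ k * a (i + k * B) +
        ∑ k ∈ range (d + 1), (d.choose k : ℂ) * z ^ (k + 1) * a (i + (k + 1) * B) := by
      rw [← Finset.sum_add_distrib]
      refine Finset.sum_congr rfl fun k _ => ?_
      simp only [sc]
      rw [show i + k * B + B = i + (k + 1) * B by ring]
      ring
    have e2 : ∑ k ∈ range (d + 1), (d.choose k : ℂ) * z ^ k * a (i + k * B) =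
        ∑ k ∈ range (d + 1), (d.choose (k + 1) : ℂ) * z ^ (k + 1) * a (i + (k + 1) * B) + a i := by
      have : ∑ k ∈ range (d + 2), (d.choose k : ℂ) * z ^ k * a (i + k * B) =
          ∑ k ∈ range (d + 1), (d.choose k : ℂ) * z ^ k * a (i + k * B) := by
        rw [Finset.sum_range_succ _ (d + 1), Nat.choose_succ_self]
        simp
      rw [← this, Finset.sum_range_succ' _ (d + 1)]
      simp
    rw [e1, e2, Finset.sum_range_succ' _ (d + 1)]
    simp only [Nat.choose_succ_succ, Nat.cast_add, Nat.choose_zero_right, Nat.cast_one, pow_zero,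
      one_mul, mul_one, zero_mul, add_zero]
    rw [add_assoc, add_comm (a i), ← add_assoc, ← Finset.sum_add_distrib]
    congr 1
    refine Finset.sum_congr rfl fun k _ => ?_
    ring

/-- the value of the tensor form -/
theorem app_slots (c : Cfg) (S Z0 Z1 Z2 : ℂ) (a : ℕ → ℂ) : app (slots c S Z0 Z1 Z2) a 0 =
    ∑ k3 ∈ range (c.d2 + 1 + 1), ((c.d2 + 1).choose k3 : ℂ) * mr c.m2 Z2 ^ k3 *
    ∑ k2 ∈ range (c.d1 + 1), (c.d1.choose k2 : ℂ) * mr c.m1 Z1 ^ k2 *
    ∑ k1 ∈ range (c.d0 + 1), (c.d0.choose k1 : ℂ) * mr c.m0 Z0 ^ k1 *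
    ∑ k0 ∈ range (c.ds + 1), (c.ds.choose k0 : ℂ) * S ^ k0 *
      a (0 + k3 * 1 + k2 * c.B1 + k1 * c.B0 + k0 * c.Bs) := by
  rw [slots, List.append_nil, app_append, app_append, app_append, app_rep]
  refine Finset.sum_congr rfl fun k3 _ => ?_
  rw [app_rep]
  congr 1
  refine Finset.sum_congr rfl fun k2 _ => ?_
  rw [app_rep]
  congr 1
  refine Finset.sum_congr rfl fun k1 _ => ?_
  rw [app_rep]

lemma rp_map (n : ℕ) (g : ℕ → G4) : Rp ((List.range n).map g) (fun i => (g i).v) := by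
  intro i h
  rw [List.getElem_map, List.getElem_range]

lemma v_zero : (⟨0, 0, 0, 0⟩ : G4).v = 0 := by
  apply Complex.ext <;> simp [G4.v]

lemma v_re (n : ℕ) : (⟨n, 0, 0, 0⟩ : G4).v = (n : ℂ) := by
  apply Complex.ext <;> simp [G4.v]

lemma v_neg (n : ℕ) : (⟨0, n, 0, 0⟩ : G4).v = -(n : ℂ) := by
  apply Complex.ext <;> simp [G4.v]

lemma v_im (n : ℕ) : (⟨0, 0, n, 0⟩ : G4).v = (n : ℂ) * Complex.I := by
  apply Complex.ext <;> simp [G4.v]

lemma v_imn (n : ℕ) : (⟨0, 0, 0, n⟩ : G4).v = -((n : ℂ) * Complex.I) := by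
  apply Complex.ext <;> simp [G4.v]

end Pool.Agent.Work.MP_b30479_gt.G2.SC
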