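import Pool.Agent.Work.MP_b30479_gt.G2.S2Base
import Pool.Agent.Work.MP_b30479_gt.G2.S2Eval

/-!
# The ring values for the central ports

The centers are `1` and `kst = (15 + 8 i) / 20`. The solution `z` of the ring equation with the
central ports is in a small box (units `1 / 16000`).
-/

set_option linter.unusedSimpArgs false
set_option linter.unusedTactic false
set_option linter.unreachableTactic false
set_option linter.style.longLine false

namespace Pool.Agent.Work.MP_b30479_gt.G2.SC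

lemma zero_Sg : (0 : ℂ) ∈ Sg (0, 0) (0, 0) := by
  refine ⟨1, 0, zero_le_one, le_rfl, by norm_num, ?_⟩
  apply Complex.ext <;> simp [pv]

/-- a half plane part of a polygon contains no zero -/
lemma half_use {c : Cfg} {a : ℕ → ℂ} (hL : Rp c.L a) {V W : List (ℕ × ℕ)} (hV : shp V = true)
    {ax up : Bool} {m : ℕ} (hW : child ax up m V W = true) {T : CT}
    (hT : chkT c c T (0, 0) (0, 0) dum dum W = true) {Z : ℂ} (hZ : Z ∈ Rg V)
    (h0 : app (slots c 0 0 0 Z) a 0 = 0) : ¬ HP ax up m Z := fun h => by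
  rcases chkT_sound hL hL T (0, 0) (0, 0) dum dum W hT 0 0 0 Z zero_Sg zero_dum zero_dum
    (child_sound hV hW hZ h) with h1 | h1 <;> exact h1 h0

lemma v_pp (n m : ℕ) : (⟨n, 0, m, 0⟩ : G4).v = (n : ℂ) + (m : ℂ) * Complex.I := by
  apply Complex.ext <;> simp [G4.v]

lemma v_pm (n m : ℕ) : (⟨n, 0, 0, m⟩ : G4).v = (n : ℂ) - (m : ℂ) * Complex.I := by
  apply Complex.ext <;> simp [G4.v]

lemma v_mp (n m : ℕ) : (⟨0, n, m, 0⟩ : G4).v = -(n : ℂ) + (m : ℂ) * Complex.I := by
  apply Complex.ext <;> simp [G4.v]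

lemma v_mm (n m : ℕ) : (⟨0, n, 0, m⟩ : G4).v = -(n : ℂ) - (m : ℂ) * Complex.I := by
  apply Complex.ext <;> simp [G4.v]

/-- scaled polygon -/
def nK2aa : List (ℕ × ℕ) :=
  [(9568, 3792), (10752, 2960), (13488, 2960), (13984, 8064), (11968, 8128), (9568, 6080)]

lemma rgK2aa {k : ℂ} (h : k ∈ Poly (vt .t2aa)) : 16000 * k ∈ Rg nK2aa := rg_of_poly (by decide) h

/-- scaled polygon -/
def nK2as : List (ℕ × ℕ) :=
  [(8448, 5712), (10240, 4432), (13632, 4432), (13984, 8064), (13296, 10800), (11728, 10800), (8448,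
      8048)]

lemma rgK2as {k : ℂ} (h : k ∈ Poly (vt .t2as)) : 16000 * k ∈ Rg nK2as := rg_of_poly (by decide) h

/-- scaled polygon -/
def nK2e : List (ℕ × ℕ) :=
  [(6720, 3952), (7760, 3200), (10448, 3200), (10624, 5008), (9376, 8128), (7952, 8128), (6720,
      7104)]

lemma rgK2e {k : ℂ} (h : k ∈ Poly (vt .t2e)) : 16000 * k ∈ Rg nK2e := rg_of_poly (by decide) h

/-- scaled polygon -/
def nK3aa : List (ℕ × ℕ) :=
  [(11424, 2224), (12192, 1680), (13792, 1680), (13968, 3504), (13632, 4784), (12704, 4784), (11424,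
      3696)]

lemma rgK3aa {k : ℂ} (h : k ∈ Poly (vt .t3aa)) : 16000 * k ∈ Rg nK3aa := rg_of_poly (by decide) h

/-- scaled polygon -/
def nK3as : List (ℕ × ℕ) :=
  [(10544, 3472), (11552, 2752), (13648, 2752), (13792, 4224), (13216, 6416), (12256, 6416), (10544,
      4960)]

lemma rgK3as {k : ℂ} (h : k ∈ Poly (vt .t3as)) : 16000 * k ∈ Rg nK3as := rg_of_poly (by decide) h

/-- scaled polygon -/
def nK3ss : List (ℕ × ℕ) :=
  [(10192, 5472), (11728, 4384), (13680, 4384), (13696, 4704), (12928, 7792), (12624, 8624), (11728,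
      8624), (10192, 7280)]

lemma rgK3ss {k : ℂ} (h : k ∈ Poly (vt .t3ss)) : 16000 * k ∈ Rg nK3ss := rg_of_poly (by decide) h

/-- scaled polygon -/
def nK3ae : List (ℕ × ℕ) :=
  [(9824, 1872), (10384, 1456), (11824, 1456), (11920, 2448), (11248, 4128), (10528, 4128), (9824,
      3520)]

lemma rgK3ae {k : ℂ} (h : k ∈ Poly (vt .t3ae)) : 16000 * k ∈ Rg nK3ae := rg_of_poly (by decide) h

/-- scaled polygon -/
def nK3se : List (ℕ × ℕ) :=
  [(8016, 3840), (8576, 3440), (10656, 3440), (10704, 4032), (10048, 5696), (8800, 5696), (8016,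
      5024)]

lemma rgK3se {k : ℂ} (h : k ∈ Poly (vt .t3se)) : 16000 * k ∈ Rg nK3se := rg_of_poly (by decide) h

/-- scaled polygon -/
def nK4 : List (ℕ × ℕ) :=
  [(10560, 1840), (12160, 608), (14400, 608), (14720, 1920), (13280, 5280), (12320, 5280), (10560,
      3680)]

lemma rgK4 {k : ℂ} (h : k ∈ Poly (vt .t4)) : 16000 * k ∈ Rg nK4 := rg_of_poly (by decide) h

/-- scaled polygon -/
def nK5 : List (ℕ × ℕ) :=
  [(11520, 1120), (12800, 160), (15040, 160), (15280, 1760), (14400, 4000), (12800, 4000), (11520,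
      3040)]

lemma rgK5 {k : ℂ} (h : k ∈ Poly (vt .t5)) : 16000 * k ∈ Rg nK5 := rg_of_poly (by decide) h

/-- scaled polygon -/
def nK6 : List (ℕ × ℕ) :=
  [(12640, 720), (13600, 64), (15360, 64), (15408, 1440), (14720, 3200), (13280, 3200), (12640,
      2400)]

lemma rgK6 {k : ℂ} (h : k ∈ Poly (vt .t6)) : 16000 * k ∈ Rg nK6 := rg_of_poly (by decide) h

/-- scaled polygon -/
def nK7 : List (ℕ × ℕ) :=
  [(13280, 480), (13920, 16), (15280, 16), (15440, 800), (14960, 2080), (13760, 2080), (13280,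
      1760)]

lemma rgK7 {k : ℂ} (h : k ∈ Poly (vt .t7)) : 16000 * k ∈ Rg nK7 := rg_of_poly (by decide) h

/-- coefficients -/
def gH2o1 (i : ℕ) : G4 :=
  if i = 0 then ⟨128000000, 0, 0, 0⟩ else
  if i = 2 then ⟨0, 0, 1, 0⟩ else
  ⟨0, 0, 0, 0⟩

/-- configuration -/
def cH2o1 : Cfg := ⟨0, 0, 0, 1, 1, 1, 1, false, false, false,
  [⟨128000000, 0, 0, 0⟩, ⟨0, 0, 0, 0⟩, ⟨0, 0, 1, 0⟩]⟩

lemma rpH2o1 : Rp cH2o1.L (fun i => (gH2o1 i).v) := by
  have h : cH2o1.L = (List.range 3).map gH2o1 := by rfl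
  rw [h]
  exact rp_map _ _

lemma evH2o1 (z : ℂ) : app (slots cH2o1 0 0 0 (16000 * z)) (fun i => (gH2o1 i).v) 0 =
      128000000 * (1 + Complex.I * z * (2 * z)) := by
  rw [app_slots]
  simp only [cH2o1, Finset.sum_range_succ, Finset.sum_range_zero, Nat.reduceAdd, Nat.reduceMul,
    zero_add, add_zero, gH2o1, Nat.reduceEqDiff, if_true, if_false, v_zero, v_re, v_neg, v_im,
        v_imn,
    v_pp, v_pm, v_mp, v_mm, mul_zero, mr_false, Nat.cast_zero, OfNat.ofNat_ne_zero,
    OfNat.ofNat_eq_ofNat, Nat.reduceEqDiff, Nat.cast_ofNat, pow_zero, mul_one, Nat.choose_self,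
    Nat.choose_zero_right, Nat.cast_one, one_mul]
  simp only [Nat.choose, Nat.reduceAdd, pow_zero, pow_one, mul_one, one_mul, Nat.cast_one,
    Nat.cast_ofNat, mul_pow]
  ring

/-- tree -/
def TH2eo1_0 : CT :=
  .cut2 true 6896 [(6720, 3952), (7760, 3200), (7999, 3200), (7999, 6896), (6720, 6896)] [(7999,
      6896), (7999, 8128), (7952, 8128), (6720, 7104), (6720, 6896)] (.rel2 [(7999, 3200), (7999,
      6896), (6720, 6896), (6719, 3199)] (.leaf ⟨1, 0, 0, 0⟩)) (.cut2 true 7820 [(7999, 6896),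
      (7999, 7820), (7581, 7820), (6720, 7104), (6720, 6896)] [(7999, 7820), (7999, 8128), (7952,
      8128), (7581, 7820)] (.rel2 [(7999, 6896), (7999, 7820), (7581, 7820), (6468, 6895)] (.leaf
      ⟨1, 0, 0, 0⟩)) (.leaf ⟨2, 0, 2, 0⟩))

theorem okH2eo1_0 :
    chkT cH2o1 cH2o1 TH2eo1_0 (0, 0) (0, 0) dum dum [(6720, 3952), (7760, 3200), (7999, 3200),
        (7999, 8128), (7952, 8128), (6720, 7104)] = true := by
  decide +kernel

/-- tree -/
def TH2eo1_1 : CT :=
  .cut2 true 6896 [(8002, 3200), (10448, 3200), (10624, 5008), (9869, 6896), (8002, 6896)] [(9869,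
      6896), (9376, 8128), (8002, 8128), (8002, 6896)] (.rel2 [(9869, 6896), (8002, 6896), (8002,
      3200), (11348, 3199)] (.leaf ⟨0, 0, 0, 1⟩)) (.cut2 true 7820 [(9869, 6896), (9500, 7820),
      (8002, 7820), (8002, 6896)] [(9500, 7820), (9376, 8128), (8002, 8128), (8002, 7820)] (.leaf
      ⟨0, 0, 0, 1⟩) (.cut2 true 7897 [(9500, 7820), (9469, 7897), (8002, 7897), (8002, 7820)]
      [(9469, 7897), (9376, 8128), (8002, 8128), (8002, 7897)] (.leaf ⟨0, 0, 0, 1⟩) (.leaf ⟨0, 2, 0,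
      2⟩)))

theorem okH2eo1_1 :
    chkT cH2o1 cH2o1 TH2eo1_1 (0, 0) (0, 0) dum dum [(8002, 3200), (10448, 3200), (10624, 5008),
        (9376, 8128), (8002, 8128)] = true := by
  decide +kernel

/-- tree -/
def TH2eo1_2 : CT :=
  .cut2 true 6799 [(6720, 3952), (7760, 3200), (10448, 3200), (10624, 5008), (9908, 6799), (6720,
      6799)] [(9908, 6799), (9428, 7999), (7796, 7999), (6720, 7104), (6720, 6799)] (.rel2 [(9908,
      6799), (6720, 6799), (6719, 3198), (11347, 3200)] (.leaf ⟨1, 0, 0, 2⟩)) (.cut2 true 7699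
      [(9908, 6799), (9548, 7699), (7435, 7699), (6720, 7104), (6720, 6799)] [(9548, 7699), (9428,
      7999), (7796, 7999), (7435, 7699)] (.rel2 [(9908, 6799), (9548, 7699), (7435, 7699), (6352,
      6798)] (.leaf ⟨1, 0, 0, 2⟩)) (.cut2 false 7963 [(7963, 7999), (7796, 7999), (7435, 7699),
      (7963, 7699)] [(9548, 7699), (9428, 7999), (7963, 7999), (7963, 7699)] (.rel2 [(7435, 7699),
      (7963, 7699), (7963, 8138)] (.leaf ⟨2, 0, 2, 0⟩)) (.leaf ⟨28, 0, 0, 29⟩)))

theorem okH2eo1_2 :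
    chkT cH2o1 cH2o1 TH2eo1_2 (0, 0) (0, 0) dum dum [(6720, 3952), (7760, 3200), (10448, 3200),
        (10624, 5008), (9428, 7999), (7796, 7999), (6720, 7104)] = true := by
  decide +kernel

/-- tree -/
def TH2eo1_3 : CT :=
  .cut2 false 8206 [(8206, 8128), (7952, 8128), (7800, 8002), (8206, 8002)] [(9427, 8002), (9376,
      8128), (8206, 8128), (8206, 8002)] (.cut2 false 7901 [(7901, 8086), (7800, 8002), (7901,
      8002)] [(8206, 8128), (7952, 8128), (7901, 8086), (7901, 8002), (8206, 8002)] (.leaf ⟨0, 0, 1,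
      0⟩) (.rel2 [(7901, 8086), (7901, 8002), (8206, 8002), (8206, 8338)] (.leaf ⟨0, 2, 2, 0⟩)))
      (.rel2 [(8206, 8002), (9427, 8002), (8206, 11019)] (.leaf ⟨0, 1, 0, 0⟩))

theorem okH2eo1_3 :
    chkT cH2o1 cH2o1 TH2eo1_3 (0, 0) (0, 0) dum dum [(9427, 8002), (9376, 8128), (7952, 8128),
        (7800, 8002)] = true := by
  decide +kernel

theorem stH2eo1 {z : ℂ} (hz : z ∈ Poly (vt .t2e)) (h : 1 + Complex.I * z * (2 * z) = 0) :
    (7999 < 16000 * z.re ∧ 16000 * z.re < 8002) ∧ 7999 < 16000 * z.im ∧ 16000 * z.im < 8002 := by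
  have h0 : app (slots cH2o1 0 0 0 (16000 * z)) (fun i => (gH2o1 i).v) 0 = 0 := by
    rw [evH2o1, h, mul_zero]
  have hZ := rgK2e hz
  have hs : shp nK2e = true := by decide +kernel
  have a0 := half_use rpH2o1 hs (ax := false) (up := true) (m := 7999) (by decide +kernel) okH2eo1_0
      hZ h0
  have a1 := half_use rpH2o1 hs (ax := false) (up := false) (m := 8002) (by decide +kernel)
      okH2eo1_1 hZ h0
  have a2 := half_use rpH2o1 hs (ax := true) (up := true) (m := 7999) (by decide +kernel) okH2eo1_2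
      hZ h0
  have a3 := half_use rpH2o1 hs (ax := true) (up := false) (m := 8002) (by decide +kernel) okH2eo1_3
      hZ h0
  simp only [HP, not_le, Complex.mul_re, Complex.mul_im, Complex.re_ofNat, Complex.im_ofNat,
    zero_mul, sub_zero, add_zero] at a0 a1 a2 a3
  push_cast at a0 a1 a2 a3
  exact ⟨⟨a0, a1⟩, a2, a3⟩

/-- coefficients -/
def gH2p11 (i : ℕ) : G4 :=
  if i = 0 then ⟨196608000000000000, 0, 0, 0⟩ else
  if i = 2 then ⟨0, 128000000, 0, 0⟩ else
  if i = 4 then ⟨3, 0, 0, 0⟩ else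
  ⟨0, 0, 0, 0⟩

/-- configuration -/
def cH2p11 : Cfg := ⟨0, 0, 0, 3, 1, 1, 1, false, false, false,
  [⟨196608000000000000, 0, 0, 0⟩, ⟨0, 0, 0, 0⟩, ⟨0, 128000000, 0, 0⟩, ⟨0, 0, 0, 0⟩, ⟨3, 0, 0, 0⟩]⟩

lemma rpH2p11 : Rp cH2p11.L (fun i => (gH2p11 i).v) := by
  have h : cH2p11.L = (List.range 5).map gH2p11 := by rfl
  rw [h]
  exact rp_map _ _

lemma evH2p11 (z : ℂ) : app (slots cH2p11 0 0 0 (16000 * z)) (fun i => (gH2p11 i).v) 0 =
      98304000000000000 * (z ^ 2 * (1 + (2 * z ^ 2 - 1)) + 2 * (1 - z ^ 2)) := by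
  rw [app_slots]
  simp only [cH2p11, Finset.sum_range_succ, Finset.sum_range_zero, Nat.reduceAdd, Nat.reduceMul,
    zero_add, add_zero, gH2p11, Nat.reduceEqDiff, if_true, if_false, v_zero, v_re, v_neg, v_im,
        v_imn,
    v_pp, v_pm, v_mp, v_mm, mul_zero, mr_false, Nat.cast_zero, OfNat.ofNat_ne_zero,
    OfNat.ofNat_eq_ofNat, Nat.reduceEqDiff, Nat.cast_ofNat, pow_zero, mul_one, Nat.choose_self,
    Nat.choose_zero_right, Nat.cast_one, one_mul]
  simp only [Nat.choose, Nat.reduceAdd, pow_zero, pow_one, mul_one, one_mul, Nat.cast_one,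
    Nat.cast_ofNat, mul_pow]
  ring

/-- tree -/
def TH2aap11_0 : CT :=
  .rel2 [(13488, 2960), (13855, 6736), (13855, 8069), (11968, 8128), (5908, 2957)] (.leaf ⟨6, 0, 10,
      0⟩)

theorem okH2aap11_0 :
    chkT cH2p11 cH2p11 TH2aap11_0 (0, 0) (0, 0) dum dum [(9568, 3792), (10752, 2960), (13488, 2960),
        (13855, 6736), (13855, 8069), (11968, 8128), (9568, 6080)] = true := by
  decide +kernel

/-- tree -/
def TH2aap11_1 : CT :=
  .cut2 true 7742 [(13858, 6767), (13953, 7742), (13858, 7742)] [(13953, 7742), (13984, 8064),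
      (13858, 8068), (13858, 7742)] (.leaf ⟨1, 0, 0, 0⟩) (.cut2 true 7905 [(13953, 7742), (13969,
      7905), (13858, 7905), (13858, 7742)] [(13969, 7905), (13984, 8064), (13858, 8068), (13858,
      7905)] (.rel2 [(13969, 7905), (13858, 7905), (13858, 6773)] (.leaf ⟨0, 0, 0, 1⟩)) (.rel2
      [(13858, 8068), (13858, 7905), (18993, 7905)] (.leaf ⟨0, 4, 0, 7⟩)))

theorem okH2aap11_1 :
    chkT cH2p11 cH2p11 TH2aap11_1 (0, 0) (0, 0) dum dum [(13858, 6767), (13984, 8064), (13858,
        8068)] = true := by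
  decide +kernel

/-- tree -/
def TH2aap11_2 : CT :=
  .cut2 true 6739 [(9568, 3792), (10752, 2960), (13488, 2960), (13856, 6739), (10339, 6739), (9568,
      6080)] [(13856, 6739), (13978, 7999), (11816, 7999), (10339, 6739)] (.rel2 [(13313, 1161),
      (13856, 6739), (5366, 6739)] (.leaf ⟨1, 0, 0, 0⟩)) (.cut2 true 7684 [(13856, 6739), (13948,
      7684), (11446, 7684), (10339, 6739)] [(13948, 7684), (13978, 7999), (11816, 7999), (11446,
      7684)] (.leaf ⟨1, 0, 0, 0⟩) (.cut2 false 13345 [(13345, 7999), (11816, 7999), (11446, 7684),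
      (13345, 7684)] [(13948, 7684), (13978, 7999), (13345, 7999), (13345, 7684)] (.rel2 [(11446,
      7684), (13345, 7684), (13345, 9301)] (.leaf ⟨0, 0, 1, 0⟩)) (.cut2 false 13661 [(13661, 7999),
      (13345, 7999), (13345, 7684), (13661, 7684)] [(13948, 7684), (13978, 7999), (13661, 7999),
      (13661, 7684)] (.leaf ⟨1, 0, 0, 0⟩) (.rel2 [(13978, 7999), (13661, 7999), (13661, 4669)]
      (.leaf ⟨7, 0, 0, 4⟩)))))

theorem okH2aap11_2 :
    chkT cH2p11 cH2p11 TH2aap11_2 (0, 0) (0, 0) dum dum [(9568, 3792), (10752, 2960), (13488, 2960),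
        (13978, 7999), (11816, 7999), (9568, 6080)] = true := by
  decide +kernel

/-- tree -/
def TH2aap11_3 : CT :=
  .cut2 false 13443 [(13443, 8082), (11968, 8128), (11820, 8002), (13443, 8002)] [(13978, 8002),
      (13984, 8064), (13443, 8082), (13443, 8002)] (.rel2 [(11820, 8002), (13443, 8002), (13443,
      9384)] (.leaf ⟨0, 0, 1, 0⟩)) (.cut2 false 13848 [(13848, 8069), (13443, 8082), (13443, 8002),
      (13848, 8002)] [(13978, 8002), (13984, 8064), (13848, 8069), (13848, 8002)] (.leaf ⟨0, 0, 1,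
      0⟩) (.rel2 [(13848, 8069), (13848, 8002), (15671, 8002)] (.leaf ⟨0, 19, 6, 0⟩)))

theorem okH2aap11_3 :
    chkT cH2p11 cH2p11 TH2aap11_3 (0, 0) (0, 0) dum dum [(13978, 8002), (13984, 8064), (11968,
        8128), (11820, 8002)] = true := by
  decide +kernel

theorem stH2aap11 {z : ℂ} (hz : z ∈ Poly (vt .t2aa)) (h : z ^ 2 * (1 + (2 * z ^ 2 - 1)) + 2 * (1 - z
    ^ 2) = 0) :
    (13855 < 16000 * z.re ∧ 16000 * z.re < 13858) ∧ 7999 < 16000 * z.im ∧ 16000 * z.im < 8002 := by
  have h0 : app (slots cH2p11 0 0 0 (16000 * z)) (fun i => (gH2p11 i).v) 0 = 0 := by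
    rw [evH2p11, h, mul_zero]
  have hZ := rgK2aa hz
  have hs : shp nK2aa = true := by decide +kernel
  have a0 := half_use rpH2p11 hs (ax := false) (up := true) (m := 13855) (by decide +kernel)
      okH2aap11_0 hZ h0
  have a1 := half_use rpH2p11 hs (ax := false) (up := false) (m := 13858) (by decide +kernel)
      okH2aap11_1 hZ h0
  have a2 := half_use rpH2p11 hs (ax := true) (up := true) (m := 7999) (by decide +kernel)
      okH2aap11_2 hZ h0
  have a3 := half_use rpH2p11 hs (ax := true) (up := false) (m := 8002) (by decide +kernel)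
      okH2aap11_3 hZ h0
  simp only [HP, not_le, Complex.mul_re, Complex.mul_im, Complex.re_ofNat, Complex.im_ofNat,
    zero_mul, sub_zero, add_zero] at a0 a1 a2 a3
  push_cast at a0 a1 a2 a3
  exact ⟨⟨a0, a1⟩, a2, a3⟩

/-- tree -/
def TH2asp11_0 : CT :=
  .cut2 false 12503 [(8448, 5712), (10240, 4432), (12503, 4432), (12503, 10800), (11728, 10800),
      (8448, 8048)] [(12503, 4432), (13632, 4432), (13855, 6732), (13855, 8577), (13296, 10800),
      (12503, 10800)] (.rel2 [(8447, 4431), (12503, 4432), (12503, 10800), (8447, 10800)] (.leaf ⟨1,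
      0, 2, 0⟩)) (.cut2 false 13517 [(12503, 4432), (13517, 4432), (13517, 9922), (13296, 10800),
      (12503, 10800)] [(13517, 4432), (13632, 4432), (13855, 6732), (13855, 8577), (13517, 9922)]
      (.rel2 [(12503, 4432), (13517, 4432), (13517, 9922), (12503, 13951)] (.leaf ⟨1, 0, 2, 0⟩))
      (.cut2 false 13770 [(13517, 4432), (13632, 4432), (13770, 5855), (13770, 8916), (13517, 9922)]
      [(13770, 5855), (13855, 6732), (13855, 8577), (13770, 8916)] (.rel2 [(13770, 5855), (13770,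
      8916), (13517, 9922), (13517, 3245)] (.leaf ⟨3, 0, 4, 0⟩)) (.cut2 false 13833 [(13770, 5855),
      (13833, 6505), (13833, 8665), (13770, 8916)] [(13833, 6505), (13855, 6732), (13855, 8577),
      (13833, 8665)] (.leaf ⟨4, 0, 7, 0⟩) (.cut2 true 7585 [(13833, 6505), (13855, 6732), (13855,
      7585), (13833, 7585)] [(13855, 7585), (13855, 8577), (13833, 8665), (13833, 7585)] (.rel2
      [(13833, 7585), (13833, 6505), (13938, 7585)] (.leaf ⟨1, 0, 0, 0⟩)) (.cut2 true 8125 [(13855,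
      7585), (13855, 8125), (13833, 8125), (13833, 7585)] [(13855, 8125), (13855, 8577), (13833,
      8665), (13833, 8125)] (.leaf ⟨10, 0, 17, 0⟩) (.rel2 [(13833, 8665), (13833, 8125), (13968,
      8125)] (.leaf ⟨0, 1, 0, 0⟩)))))))

theorem okH2asp11_0 :
    chkT cH2p11 cH2p11 TH2asp11_0 (0, 0) (0, 0) dum dum [(8448, 5712), (10240, 4432), (13632, 4432),
        (13855, 6732), (13855, 8577), (13296, 10800), (11728, 10800), (8448, 8048)] = true := by
  decide +kernel

/-- tree -/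
def TH2asp11_1 : CT :=
  .cut2 false 13889 [(13858, 6763), (13889, 7083), (13889, 8443), (13858, 8566)] [(13889, 7083),
      (13984, 8064), (13889, 8443)] (.cut2 true 7664 [(13858, 6763), (13889, 7083), (13889, 7664),
      (13858, 7664)] [(13889, 7664), (13889, 8443), (13858, 8566), (13858, 7664)] (.rel2 [(13858,
      7664), (13858, 6763), (13946, 7664)] (.leaf ⟨1, 0, 0, 0⟩)) (.cut2 true 8115 [(13889, 7664),
      (13889, 8115), (13858, 8115), (13858, 7664)] [(13889, 8115), (13889, 8443), (13858, 8566),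
      (13858, 8115)] (.cut2 true 8002 [(13889, 7664), (13889, 8002), (13858, 8002), (13858, 7664)]
      [(13889, 8002), (13889, 8115), (13858, 8115), (13858, 8002)] (.leaf ⟨0, 0, 0, 1⟩) (.leaf ⟨0,
      1, 0, 0⟩)) (.rel2 [(13858, 8566), (13858, 8115), (13972, 8114)] (.leaf ⟨0, 1, 0, 0⟩)))) (.leaf
      ⟨0, 37, 0, 71⟩)

theorem okH2asp11_1 :
    chkT cH2p11 cH2p11 TH2asp11_1 (0, 0) (0, 0) dum dum [(13858, 6763), (13984, 8064), (13858,
        8566)] = true := by
  decide +kernel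

/-- tree -/
def TH2asp11_2 : CT :=
  .cut2 false 12595 [(8448, 5712), (10240, 4432), (12595, 4432), (12595, 7999), (8448, 7999)]
      [(12595, 4432), (13632, 4432), (13978, 7999), (12595, 7999)] (.rel2 [(12595, 7999), (5245,
      7999), (12595, 2749)] (.leaf ⟨1, 0, 0, 0⟩)) (.cut2 false 13632 [(12595, 4432), (13632, 4432),
      (13632, 7999), (12595, 7999)] [(13632, 4432), (13978, 7999), (13632, 7999)] (.leaf ⟨1, 0, 0,
      0⟩) (.leaf ⟨7, 0, 0, 4⟩))

theorem okH2asp11_2 :
    chkT cH2p11 cH2p11 TH2asp11_2 (0, 0) (0, 0) dum dum [(8448, 5712), (10240, 4432), (13632, 4432),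
        (13978, 7999), (8448, 7999)] = true := by
  decide +kernel

/-- tree -/
def TH2asp11_3 : CT :=
  .cut2 false 12600 [(12600, 10800), (11728, 10800), (8448, 8048), (8448, 8002), (12600, 8002)]
      [(13978, 8002), (13984, 8064), (13296, 10800), (12600, 10800), (12600, 8002)] (.rel2 [(8448,
      8002), (12600, 8002), (12600, 10800), (8447, 10800)] (.leaf ⟨0, 0, 1, 0⟩)) (.cut2 false 13638
      [(13638, 9440), (13296, 10800), (12600, 10800), (12600, 8002), (13638, 8002)] [(13978, 8002),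
      (13984, 8064), (13638, 9440), (13638, 8002)] (.rel2 [(12600, 8002), (13638, 8002), (13638,
      9440), (12600, 13568)] (.leaf ⟨0, 0, 1, 0⟩)) (.cut2 false 13811 [(13811, 8752), (13638, 9440),
      (13638, 8002), (13811, 8002)] [(13978, 8002), (13984, 8064), (13811, 8752), (13811, 8002)]
      (.leaf ⟨0, 0, 1, 0⟩) (.rel2 [(13811, 8752), (13811, 8002), (14000, 8001)] (.leaf ⟨0, 35, 19,
      0⟩))))

theorem okH2asp11_3 :
    chkT cH2p11 cH2p11 TH2asp11_3 (0, 0) (0, 0) dum dum [(13978, 8002), (13984, 8064), (13296,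
        10800), (11728, 10800), (8448, 8048), (8448, 8002)] = true := by
  decide +kernel

theorem stH2asp11 {z : ℂ} (hz : z ∈ Poly (vt .t2as)) (h : z ^ 2 * (1 + (2 * z ^ 2 - 1)) + 2 * (1 - z
    ^ 2) = 0) :
    (13855 < 16000 * z.re ∧ 16000 * z.re < 13858) ∧ 7999 < 16000 * z.im ∧ 16000 * z.im < 8002 := by
  have h0 : app (slots cH2p11 0 0 0 (16000 * z)) (fun i => (gH2p11 i).v) 0 = 0 := by
    rw [evH2p11, h, mul_zero]
  have hZ := rgK2as hz
  have hs : shp nK2as = true := by decide +kernel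
  have a0 := half_use rpH2p11 hs (ax := false) (up := true) (m := 13855) (by decide +kernel)
      okH2asp11_0 hZ h0
  have a1 := half_use rpH2p11 hs (ax := false) (up := false) (m := 13858) (by decide +kernel)
      okH2asp11_1 hZ h0
  have a2 := half_use rpH2p11 hs (ax := true) (up := true) (m := 7999) (by decide +kernel)
      okH2asp11_2 hZ h0
  have a3 := half_use rpH2p11 hs (ax := true) (up := false) (m := 8002) (by decide +kernel)
      okH2asp11_3 hZ h0
  simp only [HP, not_le, Complex.mul_re, Complex.mul_im, Complex.re_ofNat, Complex.im_ofNat,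
    zero_mul, sub_zero, add_zero] at a0 a1 a2 a3
  push_cast at a0 a1 a2 a3
  exact ⟨⟨a0, a1⟩, a2, a3⟩

/-- coefficients -/
def gH3o1 (i : ℕ) : G4 :=
  if i = 0 then ⟨3072000000000, 0, 0, 0⟩ else
  if i = 1 then ⟨0, 0, 0, 64000000⟩ else
  if i = 3 then ⟨0, 0, 3, 0⟩ else
  ⟨0, 0, 0, 0⟩

/-- configuration -/
def cH3o1 : Cfg := ⟨0, 0, 0, 2, 1, 1, 1, false, false, false,
  [⟨3072000000000, 0, 0, 0⟩, ⟨0, 0, 0, 64000000⟩, ⟨0, 0, 0, 0⟩, ⟨0, 0, 3, 0⟩]⟩

lemma rpH3o1 : Rp cH3o1.L (fun i => (gH3o1 i).v) := by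
  have h : cH3o1.L = (List.range 4).map gH3o1 := by rfl
  rw [h]
  exact rp_map _ _

lemma evH3o1 (z : ℂ) : app (slots cH3o1 0 0 0 (16000 * z)) (fun i => (gH3o1 i).v) 0 =
      3072000000000 * (1 + Complex.I * z * (4 * z ^ 2 - 1)) := by
  rw [app_slots]
  simp only [cH3o1, Finset.sum_range_succ, Finset.sum_range_zero, Nat.reduceAdd, Nat.reduceMul,
    zero_add, add_zero, gH3o1, Nat.reduceEqDiff, if_true, if_false, v_zero, v_re, v_neg, v_im,
        v_imn,
    v_pp, v_pm, v_mp, v_mm, mul_zero, mr_false, Nat.cast_zero, OfNat.ofNat_ne_zero,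
    OfNat.ofNat_eq_ofNat, Nat.reduceEqDiff, Nat.cast_ofNat, pow_zero, mul_one, Nat.choose_self,
    Nat.choose_zero_right, Nat.cast_one, one_mul]
  simp only [Nat.choose, Nat.reduceAdd, pow_zero, pow_one, mul_one, one_mul, Nat.cast_one,
    Nat.cast_ofNat, mul_pow]
  ring

/-- tree -/
def TH3aeo1_0 : CT :=
  .cut2 true 3460 [(9824, 1872), (10384, 1456), (10582, 1456), (10582, 3460), (9824, 3460)] [(10582,
      3460), (10582, 4128), (10528, 4128), (9824, 3520), (9824, 3460)] (.rel2 [(10582, 1456),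
      (10582, 3460), (9824, 3460), (9823, 1455)] (.leaf ⟨1, 0, 0, 0⟩)) (.cut2 true 3961 [(10582,
      3460), (10582, 3961), (10334, 3961), (9824, 3520), (9824, 3460)] [(10582, 3961), (10582,
      4128), (10528, 4128), (10334, 3961)] (.rel2 [(10582, 3460), (10582, 3961), (10334, 3961),
      (9753, 3459)] (.leaf ⟨1, 0, 0, 0⟩)) (.rel2 [(10334, 3961), (10582, 3961), (10582, 4175)]
      (.leaf ⟨9, 0, 8, 0⟩)))

theorem okH3aeo1_0 :
    chkT cH3o1 cH3o1 TH3aeo1_0 (0, 0) (0, 0) dum dum [(9824, 1872), (10384, 1456), (10582, 1456),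
        (10582, 4128), (10528, 4128), (9824, 3520)] = true := by
  decide +kernel

/-- tree -/
def TH3aeo1_1 : CT :=
  .cut2 true 3460 [(10585, 1456), (11824, 1456), (11920, 2448), (11516, 3460), (10585, 3460)]
      [(11516, 3460), (11248, 4128), (10585, 4128), (10585, 3460)] (.rel2 [(11516, 3460), (10585,
      3460), (10585, 1456), (12317, 1455)] (.leaf ⟨0, 0, 0, 1⟩)) (.cut2 true 3961 [(11516, 3460),
      (11315, 3961), (10585, 3961), (10585, 3460)] [(11315, 3961), (11248, 4128), (10585, 4128),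
      (10585, 3961)] (.leaf ⟨0, 0, 0, 1⟩) (.leaf ⟨0, 6, 0, 5⟩))

theorem okH3aeo1_1 :
    chkT cH3o1 cH3o1 TH3aeo1_1 (0, 0) (0, 0) dum dum [(10585, 1456), (11824, 1456), (11920, 2448),
        (11248, 4128), (10585, 4128)] = true := by
  decide +kernel

/-- tree -/
def TH3aeo1_2 : CT :=
  .cut2 true 3363 [(9824, 1872), (10384, 1456), (11824, 1456), (11920, 2448), (11555, 3363), (9824,
      3363)] [(11555, 3363), (11300, 3999), (10378, 3999), (9824, 3520), (9824, 3363)] (.rel2
      [(11555, 3363), (9824, 3363), (9823, 1455), (12316, 1456)] (.leaf ⟨1, 0, 0, 2⟩)) (.cut2 false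
      10689 [(10689, 3999), (10378, 3999), (9824, 3520), (9824, 3363), (10689, 3363)] [(11555,
      3363), (11300, 3999), (10689, 3999), (10689, 3363)] (.rel2 [(10689, 3363), (10689, 3999),
      (10378, 3999), (9641, 3362)] (.leaf ⟨8, 0, 0, 9⟩)) (.rel2 [(10689, 3363), (11555, 3363),
      (10689, 5523)] (.leaf ⟨0, 4, 0, 3⟩)))

theorem okH3aeo1_2 :
    chkT cH3o1 cH3o1 TH3aeo1_2 (0, 0) (0, 0) dum dum [(9824, 1872), (10384, 1456), (11824, 1456),
        (11920, 2448), (11300, 3999), (10378, 3999), (9824, 3520)] = true := by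
  decide +kernel

/-- tree -/
def TH3aeo1_3 : CT :=
  .cut2 false 10611 [(10611, 4128), (10528, 4128), (10382, 4002), (10611, 4002)] [(11299, 4002),
      (11248, 4128), (10611, 4128), (10611, 4002)] (.rel2 [(10382, 4002), (10611, 4002), (10611,
      4200)] (.leaf ⟨0, 5, 6, 0⟩)) (.rel2 [(10611, 4002), (11299, 4002), (10611, 5702)] (.leaf ⟨0,
      1, 0, 0⟩))

theorem okH3aeo1_3 :
    chkT cH3o1 cH3o1 TH3aeo1_3 (0, 0) (0, 0) dum dum [(11299, 4002), (11248, 4128), (10528, 4128),
        (10382, 4002)] = true := by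
  decide +kernel

theorem stH3aeo1 {z : ℂ} (hz : z ∈ Poly (vt .t3ae)) (h : 1 + Complex.I * z * (4 * z ^ 2 - 1) = 0) :
    (10582 < 16000 * z.re ∧ 16000 * z.re < 10585) ∧ 3999 < 16000 * z.im ∧ 16000 * z.im < 4002 := by
  have h0 : app (slots cH3o1 0 0 0 (16000 * z)) (fun i => (gH3o1 i).v) 0 = 0 := by
    rw [evH3o1, h, mul_zero]
  have hZ := rgK3ae hz
  have hs : shp nK3ae = true := by decide +kernel
  have a0 := half_use rpH3o1 hs (ax := false) (up := true) (m := 10582) (by decide +kernel)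
      okH3aeo1_0 hZ h0
  have a1 := half_use rpH3o1 hs (ax := false) (up := false) (m := 10585) (by decide +kernel)
      okH3aeo1_1 hZ h0
  have a2 := half_use rpH3o1 hs (ax := true) (up := true) (m := 3999) (by decide +kernel) okH3aeo1_2
      hZ h0
  have a3 := half_use rpH3o1 hs (ax := true) (up := false) (m := 4002) (by decide +kernel)
      okH3aeo1_3 hZ h0
  simp only [HP, not_le, Complex.mul_re, Complex.mul_im, Complex.re_ofNat, Complex.im_ofNat,
    zero_mul, sub_zero, add_zero] at a0 a1 a2 a3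
  push_cast at a0 a1 a2 a3
  exact ⟨⟨a0, a1⟩, a2, a3⟩

/-- tree -/
def TH3seo1_0 : CT :=
  .cut2 true 4004 [(8016, 3840), (8576, 3440), (10582, 3440), (10582, 4004), (8016, 4004)] [(10582,
      4004), (10582, 4342), (10048, 5696), (8800, 5696), (8016, 5024), (8016, 4004)] (.rel2 [(10582,
      4004), (7785, 4004), (10582, 2008)] (.leaf ⟨4, 0, 3, 0⟩)) (.rel2 [(8016, 4004), (10582, 4004),
      (10582, 4342), (8016, 10853)] (.leaf ⟨0, 0, 1, 0⟩))

theorem okH3seo1_0 :
    chkT cH3o1 cH3o1 TH3seo1_0 (0, 0) (0, 0) dum dum [(8016, 3840), (8576, 3440), (10582, 3440),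
        (10582, 4342), (10048, 5696), (8800, 5696), (8016, 5024)] = true := by
  decide +kernel

/-- tree -/
def TH3seo1_1 : CT :=
  .cut2 false 10614 [(10585, 3440), (10614, 3440), (10614, 4261), (10585, 4334)] [(10614, 3440),
      (10656, 3440), (10704, 4032), (10614, 4261)] (.cut2 true 3887 [(10585, 3440), (10614, 3440),
      (10614, 3887), (10585, 3887)] [(10614, 3887), (10614, 4261), (10585, 4334), (10585, 3887)]
      (.leaf ⟨0, 0, 0, 1⟩) (.cut2 true 3998 [(10614, 3887), (10614, 3998), (10585, 3998), (10585,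
      3887)] [(10614, 3998), (10614, 4261), (10585, 4334), (10585, 3998)] (.leaf ⟨0, 0, 0, 1⟩)
      (.rel2 [(10585, 4334), (10585, 3998), (10719, 3997)] (.leaf ⟨0, 7, 0, 4⟩)))) (.rel2 [(10614,
      4261), (10614, 3440), (10937, 3440)] (.leaf ⟨0, 2, 0, 2⟩))

theorem okH3seo1_1 :
    chkT cH3o1 cH3o1 TH3seo1_1 (0, 0) (0, 0) dum dum [(10585, 3440), (10656, 3440), (10704, 4032),
        (10585, 4334)] = true := by
  decide +kernel

/-- tree -/
def TH3seo1_2 : CT :=
  .cut2 false 10030 [(8016, 3840), (8576, 3440), (10030, 3440), (10030, 3999), (8016, 3999)]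
      [(10030, 3440), (10656, 3440), (10702, 3999), (10030, 3999)] (.rel2 [(10030, 3999), (7792,
      3999), (10030, 2402)] (.leaf ⟨1, 0, 0, 0⟩)) (.cut2 false 10366 [(10030, 3440), (10366, 3440),
      (10366, 3999), (10030, 3999)] [(10366, 3440), (10656, 3440), (10702, 3999), (10366, 3999)]
      (.leaf ⟨1, 0, 0, 0⟩) (.leaf ⟨8, 0, 0, 9⟩))

theorem okH3seo1_2 :
    chkT cH3o1 cH3o1 TH3seo1_2 (0, 0) (0, 0) dum dum [(8016, 3840), (8576, 3440), (10656, 3440),
        (10702, 3999), (8016, 3999)] = true := by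
  decide +kernel

/-- tree -/
def TH3seo1_3 : CT :=
  .cut2 false 10032 [(10032, 5696), (8800, 5696), (8016, 5024), (8016, 4002), (10032, 4002)]
      [(10702, 4002), (10704, 4032), (10048, 5696), (10032, 5696), (10032, 4002)] (.rel2 [(8016,
      4002), (10032, 4002), (10032, 5696), (8015, 5696)] (.leaf ⟨0, 0, 1, 0⟩)) (.cut2 false 10536
      [(10536, 4459), (10048, 5696), (10032, 5696), (10032, 4002), (10536, 4002)] [(10702, 4002),
      (10704, 4032), (10536, 4459), (10536, 4002)] (.rel2 [(10032, 4002), (10536, 4002), (10536,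
      4459), (10032, 5737)] (.leaf ⟨0, 0, 1, 0⟩)) (.rel2 [(10536, 4459), (10536, 4002), (10716,
      4002)] (.leaf ⟨0, 8, 9, 0⟩)))

theorem okH3seo1_3 :
    chkT cH3o1 cH3o1 TH3seo1_3 (0, 0) (0, 0) dum dum [(10702, 4002), (10704, 4032), (10048, 5696),
        (8800, 5696), (8016, 5024), (8016, 4002)] = true := by
  decide +kernel

theorem stH3seo1 {z : ℂ} (hz : z ∈ Poly (vt .t3se)) (h : 1 + Complex.I * z * (4 * z ^ 2 - 1) = 0) :
    (10582 < 16000 * z.re ∧ 16000 * z.re < 10585) ∧ 3999 < 16000 * z.im ∧ 16000 * z.im < 4002 := by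
  have h0 : app (slots cH3o1 0 0 0 (16000 * z)) (fun i => (gH3o1 i).v) 0 = 0 := by
    rw [evH3o1, h, mul_zero]
  have hZ := rgK3se hz
  have hs : shp nK3se = true := by decide +kernel
  have a0 := half_use rpH3o1 hs (ax := false) (up := true) (m := 10582) (by decide +kernel)
      okH3seo1_0 hZ h0
  have a1 := half_use rpH3o1 hs (ax := false) (up := false) (m := 10585) (by decide +kernel)
      okH3seo1_1 hZ h0
  have a2 := half_use rpH3o1 hs (ax := true) (up := true) (m := 3999) (by decide +kernel) okH3seo1_2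
      hZ h0
  have a3 := half_use rpH3o1 hs (ax := true) (up := false) (m := 4002) (by decide +kernel)
      okH3seo1_3 hZ h0
  simp only [HP, not_le, Complex.mul_re, Complex.mul_im, Complex.re_ofNat, Complex.im_ofNat,
    zero_mul, sub_zero, add_zero] at a0 a1 a2 a3
  push_cast at a0 a1 a2 a3
  exact ⟨⟨a0, a1⟩, a2, a3⟩

/-- coefficients -/
def gH3p11 (i : ℕ) : G4 :=
  if i = 0 then ⟨524288000000000000000, 0, 0, 0⟩ else
  if i = 2 then ⟨0, 102400000000, 0, 0⟩ else
  if i = 3 then ⟨0, 19200000, 0, 0⟩ else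
  if i = 5 then ⟨1, 0, 0, 0⟩ else
  ⟨0, 0, 0, 0⟩

/-- configuration -/
def cH3p11 : Cfg := ⟨0, 0, 0, 4, 1, 1, 1, false, false, false,
  [⟨524288000000000000000, 0, 0, 0⟩, ⟨0, 0, 0, 0⟩, ⟨0, 102400000000, 0, 0⟩, ⟨0, 19200000, 0, 0⟩, ⟨0,
      0, 0, 0⟩, ⟨1, 0, 0, 0⟩]⟩

lemma rpH3p11 : Rp cH3p11.L (fun i => (gH3p11 i).v) := by
  have h : cH3p11.L = (List.range 6).map gH3p11 := by rfl
  rw [h]
  exact rp_map _ _

lemma evH3p11 (z : ℂ) : app (slots cH3p11 0 0 0 (16000 * z)) (fun i => (gH3p11 i).v) 0 =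
      262144000000000000000 * (z ^ 2 * (1 + (4 * z ^ 3 - 3 * z)) + 2 * (1 - z ^ 2)) := by
  rw [app_slots]
  simp only [cH3p11, Finset.sum_range_succ, Finset.sum_range_zero, Nat.reduceAdd, Nat.reduceMul,
    zero_add, add_zero, gH3p11, Nat.reduceEqDiff, if_true, if_false, v_zero, v_re, v_neg, v_im,
        v_imn,
    v_pp, v_pm, v_mp, v_mm, mul_zero, mr_false, Nat.cast_zero, OfNat.ofNat_ne_zero,
    OfNat.ofNat_eq_ofNat, Nat.reduceEqDiff, Nat.cast_ofNat, pow_zero, mul_one, Nat.choose_self,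
    Nat.choose_zero_right, Nat.cast_one, one_mul]
  simp only [Nat.choose, Nat.reduceAdd, pow_zero, pow_one, mul_one, one_mul, Nat.cast_one,
    Nat.cast_ofNat, mul_pow]
  ring

/-- tree -/
def TH3aap11_0 : CT :=
  .cut2 true 4008 [(11424, 2224), (12192, 1680), (13550, 1680), (13550, 4008), (11791, 4008),
      (11424, 3696)] [(13550, 4008), (13550, 4784), (12704, 4784), (11791, 4008)] (.rel2 [(13550,
      717), (13550, 4008), (8900, 4008)] (.leaf ⟨1, 0, 0, 0⟩)) (.cut2 true 4396 [(13550, 4008),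
      (13550, 4396), (12247, 4396), (11791, 4008)] [(13550, 4396), (13550, 4784), (12704, 4784),
      (12247, 4396)] (.leaf ⟨1, 0, 0, 0⟩) (.leaf ⟨4, 0, 7, 0⟩))

theorem okH3aap11_0 :
    chkT cH3p11 cH3p11 TH3aap11_0 (0, 0) (0, 0) dum dum [(11424, 2224), (12192, 1680), (13550,
        1680), (13550, 4784), (12704, 4784), (11424, 3696)] = true := by
  decide +kernel

/-- tree -/
def TH3aap11_1 : CT :=
  .cut2 true 4008 [(13553, 1680), (13792, 1680), (13968, 3504), (13836, 4008), (13553, 4008)]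
      [(13836, 4008), (13632, 4784), (13553, 4784), (13553, 4008)] (.rel2 [(13836, 4008), (13553,
      4008), (13553, 1680), (14446, 1679)] (.leaf ⟨1, 0, 0, 0⟩)) (.cut2 true 4590 [(13836, 4008),
      (13683, 4590), (13553, 4590), (13553, 4008)] [(13683, 4590), (13632, 4784), (13553, 4784),
      (13553, 4590)] (.leaf ⟨0, 0, 0, 1⟩) (.leaf ⟨0, 10, 0, 17⟩))

theorem okH3aap11_1 :
    chkT cH3p11 cH3p11 TH3aap11_1 (0, 0) (0, 0) dum dum [(13553, 1680), (13792, 1680), (13968,
        3504), (13632, 4784), (13553, 4784)] = true := by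
  decide +kernel

/-- tree -/
def TH3aap11_2 : CT :=
  .cut2 false 13332 [(11424, 2224), (12192, 1680), (13332, 1680), (13332, 4648), (12544, 4648),
      (11424, 3696)] [(13332, 1680), (13792, 1680), (13968, 3504), (13668, 4648), (13332, 4648)]
      (.rel2 [(9045, 1674), (13332, 1680), (13332, 5318)] (.leaf ⟨1, 0, 2, 0⟩)) (.rel2 [(13668,
      4648), (13332, 4648), (13332, 1680), (14447, 1679)] (.leaf ⟨7, 0, 0, 4⟩))

theorem okH3aap11_2 :
    chkT cH3p11 cH3p11 TH3aap11_2 (0, 0) (0, 0) dum dum [(11424, 2224), (12192, 1680), (13792,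
        1680), (13968, 3504), (13668, 4648), (12544, 4648), (11424, 3696)] = true := by
  decide +kernel

/-- tree -/
def TH3aap11_3 : CT :=
  .cut2 false 13387 [(13387, 4784), (12704, 4784), (12547, 4651), (13387, 4651)] [(13667, 4651),
      (13632, 4784), (13387, 4784), (13387, 4651)] (.rel2 [(12547, 4651), (13387, 4651), (13387,
      5363)] (.leaf ⟨0, 0, 1, 0⟩)) (.cut2 false 13527 [(13527, 4784), (13387, 4784), (13387, 4651),
      (13527, 4651)] [(13667, 4651), (13632, 4784), (13527, 4784), (13527, 4651)] (.leaf ⟨0, 0, 1,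
      0⟩) (.rel2 [(13527, 4651), (13667, 4651), (13527, 5183)] (.leaf ⟨0, 35, 19, 0⟩)))

theorem okH3aap11_3 :
    chkT cH3p11 cH3p11 TH3aap11_3 (0, 0) (0, 0) dum dum [(13667, 4651), (13632, 4784), (12704,
        4784), (12547, 4651)] = true := by
  decide +kernel

theorem stH3aap11 {z : ℂ} (hz : z ∈ Poly (vt .t3aa)) (h : z ^ 2 * (1 + (4 * z ^ 3 - 3 * z)) + 2 * (1
    - z ^ 2) = 0) :
    (13550 < 16000 * z.re ∧ 16000 * z.re < 13553) ∧ 4648 < 16000 * z.im ∧ 16000 * z.im < 4651 := by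
  have h0 : app (slots cH3p11 0 0 0 (16000 * z)) (fun i => (gH3p11 i).v) 0 = 0 := by
    rw [evH3p11, h, mul_zero]
  have hZ := rgK3aa hz
  have hs : shp nK3aa = true := by decide +kernel
  have a0 := half_use rpH3p11 hs (ax := false) (up := true) (m := 13550) (by decide +kernel)
      okH3aap11_0 hZ h0
  have a1 := half_use rpH3p11 hs (ax := false) (up := false) (m := 13553) (by decide +kernel)
      okH3aap11_1 hZ h0
  have a2 := half_use rpH3p11 hs (ax := true) (up := true) (m := 4648) (by decide +kernel)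
      okH3aap11_2 hZ h0
  have a3 := half_use rpH3p11 hs (ax := true) (up := false) (m := 4651) (by decide +kernel)
      okH3aap11_3 hZ h0
  simp only [HP, not_le, Complex.mul_re, Complex.mul_im, Complex.re_ofNat, Complex.im_ofNat,
    zero_mul, sub_zero, add_zero] at a0 a1 a2 a3
  push_cast at a0 a1 a2 a3
  exact ⟨⟨a0, a1⟩, a2, a3⟩

/-- tree -/
def TH3asp11_0 : CT :=
  .cut2 true 4584 [(10544, 3472), (11552, 2752), (13550, 2752), (13550, 4584), (10544, 4584)]
      [(13550, 4584), (13550, 5145), (13216, 6416), (12256, 6416), (10544, 4960), (10544, 4584)]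
      (.rel2 [(13550, 2752), (13550, 4584), (10544, 4584), (10543, 2751)] (.leaf ⟨1, 0, 0, 0⟩))
      (.rel2 [(13550, 4584), (13550, 5145), (13041, 7084), (10100, 4583)] (.leaf ⟨19, 0, 35, 0⟩))

theorem okH3asp11_0 :
    chkT cH3p11 cH3p11 TH3asp11_0 (0, 0) (0, 0) dum dum [(10544, 3472), (11552, 2752), (13550,
        2752), (13550, 5145), (13216, 6416), (12256, 6416), (10544, 4960)] = true := by
  decide +kernel

/-- tree -/
def TH3asp11_1 : CT :=
  .cut2 true 4538 [(13553, 2752), (13648, 2752), (13792, 4224), (13710, 4538), (13553, 4538)]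
      [(13710, 4538), (13553, 5134), (13553, 4538)] (.rel2 [(13710, 4538), (13553, 4538), (13553,
      2752), (14177, 2751)] (.leaf ⟨0, 0, 0, 1⟩)) (.cut2 true 4687 [(13710, 4538), (13671, 4687),
      (13553, 4687), (13553, 4538)] [(13671, 4687), (13553, 5134), (13553, 4687)] (.leaf ⟨0, 19, 0,
      35⟩) (.leaf ⟨0, 1, 0, 0⟩))

theorem okH3asp11_1 :
    chkT cH3p11 cH3p11 TH3asp11_1 (0, 0) (0, 0) dum dum [(13553, 2752), (13648, 2752), (13792,
        4224), (13553, 5134)] = true := by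
  decide +kernel

/-- tree -/
def TH3asp11_2 : CT :=
  .cut2 false 12980 [(10544, 3472), (11552, 2752), (12980, 2752), (12980, 4648), (10544, 4648)]
      [(12980, 2752), (13648, 2752), (13792, 4224), (13681, 4648), (12980, 4648)] (.rel2 [(12980,
      2752), (12980, 4648), (10544, 4648), (10543, 2751)] (.leaf ⟨1, 0, 0, 0⟩)) (.cut2 false 13183
      [(12980, 2752), (13183, 2752), (13183, 4648), (12980, 4648)] [(13183, 2752), (13648, 2752),
      (13792, 4224), (13681, 4648), (13183, 4648)] (.leaf ⟨1, 0, 0, 0⟩) (.rel2 [(13681, 4648),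
      (13183, 4648), (13183, 2752), (14178, 2751)] (.leaf ⟨70, 0, 0, 39⟩)))

theorem okH3asp11_2 :
    chkT cH3p11 cH3p11 TH3asp11_2 (0, 0) (0, 0) dum dum [(10544, 3472), (11552, 2752), (13648,
        2752), (13792, 4224), (13681, 4648), (10544, 4648)] = true := by
  decide +kernel

/-- tree -/
def TH3asp11_3 : CT :=
  .cut2 false 12896 [(12896, 6416), (12256, 6416), (10544, 4960), (10544, 4651), (12896, 4651)]
      [(13680, 4651), (13216, 6416), (12896, 6416), (12896, 4651)] (.rel2 [(10544, 4651), (12896,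
      4651), (12896, 6416), (10543, 6416)] (.leaf ⟨0, 0, 1, 0⟩)) (.cut2 false 13484 [(13484, 5397),
      (13216, 6416), (12896, 6416), (12896, 4651), (13484, 4651)] [(13680, 4651), (13484, 5397),
      (13484, 4651)] (.rel2 [(12896, 4651), (13484, 4651), (13484, 5397), (12896, 7633)] (.leaf ⟨0,
      0, 1, 0⟩)) (.cut2 false 13533 [(13533, 5211), (13484, 5397), (13484, 4651), (13533, 4651)]
      [(13680, 4651), (13533, 5211), (13533, 4651)] (.leaf ⟨0, 0, 1, 0⟩) (.leaf ⟨0, 18, 9, 0⟩)))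

theorem okH3asp11_3 :
    chkT cH3p11 cH3p11 TH3asp11_3 (0, 0) (0, 0) dum dum [(13680, 4651), (13216, 6416), (12256,
        6416), (10544, 4960), (10544, 4651)] = true := by
  decide +kernel

theorem stH3asp11 {z : ℂ} (hz : z ∈ Poly (vt .t3as)) (h : z ^ 2 * (1 + (4 * z ^ 3 - 3 * z)) + 2 * (1
    - z ^ 2) = 0) :
    (13550 < 16000 * z.re ∧ 16000 * z.re < 13553) ∧ 4648 < 16000 * z.im ∧ 16000 * z.im < 4651 := by
  have h0 : app (slots cH3p11 0 0 0 (16000 * z)) (fun i => (gH3p11 i).v) 0 = 0 := by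
    rw [evH3p11, h, mul_zero]
  have hZ := rgK3as hz
  have hs : shp nK3as = true := by decide +kernel
  have a0 := half_use rpH3p11 hs (ax := false) (up := true) (m := 13550) (by decide +kernel)
      okH3asp11_0 hZ h0
  have a1 := half_use rpH3p11 hs (ax := false) (up := false) (m := 13553) (by decide +kernel)
      okH3asp11_1 hZ h0
  have a2 := half_use rpH3p11 hs (ax := true) (up := true) (m := 4648) (by decide +kernel)
      okH3asp11_2 hZ h0
  have a3 := half_use rpH3p11 hs (ax := true) (up := false) (m := 4651) (by decide +kernel)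
      okH3asp11_3 hZ h0
  simp only [HP, not_le, Complex.mul_re, Complex.mul_im, Complex.re_ofNat, Complex.im_ofNat,
    zero_mul, sub_zero, add_zero] at a0 a1 a2 a3
  push_cast at a0 a1 a2 a3
  exact ⟨⟨a0, a1⟩, a2, a3⟩

/-- tree -/
def TH3ssp11_0 : CT :=
  .cut2 false 12710 [(10192, 5472), (11728, 4384), (12710, 4384), (12710, 8389), (12624, 8624),
      (11728, 8624), (10192, 7280)] [(12710, 4384), (13550, 4384), (13550, 5292), (12928, 7792),
      (12710, 8389)] (.rel2 [(12710, 4384), (12710, 9485), (6882, 4383)] (.leaf ⟨0, 0, 1, 0⟩))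
      (.cut2 false 13340 [(12710, 4384), (13340, 4384), (13340, 6137), (12928, 7792), (12710, 8389)]
      [(13340, 4384), (13550, 4384), (13550, 5292), (13340, 6137)] (.rel2 [(12710, 4384), (13340,
      4384), (13340, 6137), (12710, 8668)] (.leaf ⟨0, 0, 1, 0⟩)) (.cut2 false 13497 [(13340, 4384),
      (13497, 4384), (13497, 5506), (13340, 6137)] [(13497, 4384), (13550, 4384), (13550, 5292),
      (13497, 5506)] (.leaf ⟨1, 0, 2, 0⟩) (.cut2 true 4664 [(13497, 4384), (13550, 4384), (13550,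
      4664), (13497, 4664)] [(13550, 4664), (13550, 5292), (13497, 5506), (13497, 4664)] (.leaf ⟨4,
      0, 7, 0⟩) (.rel2 [(13497, 5506), (13497, 4664), (13706, 4663)] (.leaf ⟨0, 7, 4, 0⟩)))))

theorem okH3ssp11_0 :
    chkT cH3p11 cH3p11 TH3ssp11_0 (0, 0) (0, 0) dum dum [(10192, 5472), (11728, 4384), (13550,
        4384), (13550, 5292), (12928, 7792), (12624, 8624), (11728, 8624), (10192, 7280)] = true :=
        by
  decide +kernel

/-- tree -/
def TH3ssp11_1 : CT :=
  .cut2 false 13588 [(13553, 4384), (13588, 4384), (13588, 5139), (13553, 5279)] [(13588, 4384),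
      (13680, 4384), (13696, 4704), (13588, 5139)] (.cut2 true 4831 [(13553, 4384), (13588, 4384),
      (13588, 4831), (13553, 4831)] [(13588, 4831), (13588, 5139), (13553, 5279), (13553, 4831)]
      (.cut2 true 4607 [(13553, 4384), (13588, 4384), (13588, 4607), (13553, 4607)] [(13588, 4607),
      (13588, 4831), (13553, 4831), (13553, 4607)] (.leaf ⟨0, 0, 0, 1⟩) (.leaf ⟨0, 6, 0, 10⟩))
      (.rel2 [(13553, 5279), (13553, 4831), (13665, 4831)] (.leaf ⟨0, 1, 0, 0⟩))) (.rel2 [(13588,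
      5139), (13588, 4384), (13776, 4383)] (.leaf ⟨0, 4, 0, 7⟩))

theorem okH3ssp11_1 :
    chkT cH3p11 cH3p11 TH3ssp11_1 (0, 0) (0, 0) dum dum [(13553, 4384), (13680, 4384), (13696,
        4704), (13553, 5279)] = true := by
  decide +kernel

/-- tree -/
def TH3ssp11_2 : CT :=
  .cut2 false 13109 [(11355, 4648), (11728, 4384), (13109, 4384), (13109, 4648)] [(13109, 4384),
      (13680, 4384), (13694, 4648), (13109, 4648)] (.rel2 [(13109, 4648), (11355, 4648), (13109,
      3405)] (.leaf ⟨1, 0, 0, 0⟩)) (.cut2 false 13255 [(13109, 4384), (13255, 4384), (13255, 4648),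
      (13109, 4648)] [(13255, 4384), (13680, 4384), (13694, 4648), (13255, 4648)] (.leaf ⟨1, 0, 0,
      0⟩) (.leaf ⟨7, 0, 0, 4⟩))

theorem okH3ssp11_2 :
    chkT cH3p11 cH3p11 TH3ssp11_2 (0, 0) (0, 0) dum dum [(11355, 4648), (11728, 4384), (13680,
        4384), (13694, 4648)] = true := by
  decide +kernel

/-- tree -/
def TH3ssp11_3 : CT :=
  .cut2 false 12820 [(10192, 5472), (11351, 4651), (12820, 4651), (12820, 8088), (12624, 8624),
      (11728, 8624), (10192, 7280)] [(12820, 4651), (13694, 4651), (13696, 4704), (12928, 7792),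
      (12820, 8088)] (.rel2 [(12820, 4651), (12820, 8624), (10191, 8624), (10191, 4650)] (.leaf ⟨0,
      0, 1, 0⟩)) (.cut2 false 13477 [(12820, 4651), (13477, 4651), (13477, 5585), (12928, 7792),
      (12820, 8088)] [(13477, 4651), (13694, 4651), (13696, 4704), (13477, 5585)] (.rel2 [(12820,
      4651), (13477, 4651), (13477, 5585), (12820, 8227)] (.leaf ⟨0, 0, 1, 0⟩)) (.cut2 false 13531
      [(13477, 4651), (13531, 4651), (13531, 5368), (13477, 5585)] [(13531, 4651), (13694, 4651),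
      (13696, 4704), (13531, 5368)] (.leaf ⟨0, 0, 1, 0⟩) (.rel2 [(13531, 5368), (13531, 4651),
      (13710, 4650)] (.leaf ⟨0, 18, 9, 0⟩))))

theorem okH3ssp11_3 :
    chkT cH3p11 cH3p11 TH3ssp11_3 (0, 0) (0, 0) dum dum [(10192, 5472), (11351, 4651), (13694,
        4651), (13696, 4704), (12928, 7792), (12624, 8624), (11728, 8624), (10192, 7280)] = true :=
        by
  decide +kernel

theorem stH3ssp11 {z : ℂ} (hz : z ∈ Poly (vt .t3ss)) (h : z ^ 2 * (1 + (4 * z ^ 3 - 3 * z)) + 2 * (1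
    - z ^ 2) = 0) :
    (13550 < 16000 * z.re ∧ 16000 * z.re < 13553) ∧ 4648 < 16000 * z.im ∧ 16000 * z.im < 4651 := by
  have h0 : app (slots cH3p11 0 0 0 (16000 * z)) (fun i => (gH3p11 i).v) 0 = 0 := by
    rw [evH3p11, h, mul_zero]
  have hZ := rgK3ss hz
  have hs : shp nK3ss = true := by decide +kernel
  have a0 := half_use rpH3p11 hs (ax := false) (up := true) (m := 13550) (by decide +kernel)
      okH3ssp11_0 hZ h0
  have a1 := half_use rpH3p11 hs (ax := false) (up := false) (m := 13553) (by decide +kernel)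
      okH3ssp11_1 hZ h0
  have a2 := half_use rpH3p11 hs (ax := true) (up := true) (m := 4648) (by decide +kernel)
      okH3ssp11_2 hZ h0
  have a3 := half_use rpH3p11 hs (ax := true) (up := false) (m := 4651) (by decide +kernel)
      okH3ssp11_3 hZ h0
  simp only [HP, not_le, Complex.mul_re, Complex.mul_im, Complex.re_ofNat, Complex.im_ofNat,
    zero_mul, sub_zero, add_zero] at a0 a1 a2 a3
  push_cast at a0 a1 a2 a3
  exact ⟨⟨a0, a1⟩, a2, a3⟩

/-- coefficients -/
def gH4o1 (i : ℕ) : G4 :=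
  if i = 0 then ⟨24576000000000000, 0, 0, 0⟩ else
  if i = 2 then ⟨0, 0, 0, 64000000⟩ else
  if i = 4 then ⟨0, 0, 3, 0⟩ else
  ⟨0, 0, 0, 0⟩

/-- configuration -/
def cH4o1 : Cfg := ⟨0, 0, 0, 3, 1, 1, 1, false, false, false,
  [⟨24576000000000000, 0, 0, 0⟩, ⟨0, 0, 0, 0⟩, ⟨0, 0, 0, 64000000⟩, ⟨0, 0, 0, 0⟩, ⟨0, 0, 3, 0⟩]⟩

lemma rpH4o1 : Rp cH4o1.L (fun i => (gH4o1 i).v) := by
  have h : cH4o1.L = (List.range 5).map gH4o1 := by rfl
  rw [h]
  exact rp_map _ _

lemma evH4o1 (z : ℂ) : app (slots cH4o1 0 0 0 (16000 * z)) (fun i => (gH4o1 i).v) 0 =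
      24576000000000000 * (1 + Complex.I * z * (8 * z ^ 3 - 4 * z)) := by
  rw [app_slots]
  simp only [cH4o1, Finset.sum_range_succ, Finset.sum_range_zero, Nat.reduceAdd, Nat.reduceMul,
    zero_add, add_zero, gH4o1, Nat.reduceEqDiff, if_true, if_false, v_zero, v_re, v_neg, v_im,
        v_imn,
    v_pp, v_pm, v_mp, v_mm, mul_zero, mr_false, Nat.cast_zero, OfNat.ofNat_ne_zero,
    OfNat.ofNat_eq_ofNat, Nat.reduceEqDiff, Nat.cast_ofNat, pow_zero, mul_one, Nat.choose_self,
    Nat.choose_zero_right, Nat.cast_one, one_mul]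
  simp only [Nat.choose, Nat.reduceAdd, pow_zero, pow_one, mul_one, one_mul, Nat.cast_one,
    Nat.cast_ofNat, mul_pow]
  ring

/-- tree -/
def TH4o1_0 : CT :=
  .cut2 false 11813 [(10560, 1840), (11813, 875), (11813, 4820), (10560, 3680)] [(11813, 875),
      (12160, 608), (12231, 608), (12231, 5200), (11813, 4820)] (.rel2 [(11813, 875), (11813, 4820),
      (9463, 2682)] (.leaf ⟨1, 0, 2, 0⟩)) (.cut2 true 2904 [(11813, 875), (12160, 608), (12231,
      608), (12231, 2904), (11813, 2904)] [(12231, 2904), (12231, 5200), (11813, 4820), (11813,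
      2904)] (.cut2 false 12126 [(11813, 875), (12126, 634), (12126, 2904), (11813, 2904)] [(12126,
      634), (12160, 608), (12231, 608), (12231, 2904), (12126, 2904)] (.rel2 [(12126, 634), (12126,
      2904), (9176, 2904)] (.leaf ⟨2, 0, 2, 0⟩)) (.cut2 true 1756 [(12126, 634), (12160, 608),
      (12231, 608), (12231, 1756), (12126, 1756)] [(12231, 1756), (12231, 2904), (12126, 2904),
      (12126, 1756)] (.rel2 [(12231, 608), (12231, 1756), (12126, 1756), (12125, 607)] (.leaf ⟨1, 0,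
      0, 0⟩)) (.cut2 true 2043 [(12231, 1756), (12231, 2043), (12126, 2043), (12126, 1756)] [(12231,
      2043), (12231, 2904), (12126, 2904), (12126, 2043)] (.leaf ⟨1, 0, 0, 0⟩) (.leaf ⟨3, 0, 4,
      0⟩)))) (.rel2 [(12231, 2904), (12231, 5200), (9704, 2903)] (.leaf ⟨0, 0, 1, 0⟩)))

theorem okH4o1_0 :
    chkT cH4o1 cH4o1 TH4o1_0 (0, 0) (0, 0) dum dum [(10560, 1840), (12160, 608), (12231, 608),
        (12231, 5200), (10560, 3680)] = true := by
  decide +kernel

/-- tree -/
def TH4o1_1 : CT :=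
  .cut2 true 2944 [(12234, 608), (14400, 608), (14720, 1920), (14282, 2944), (12234, 2944)] [(14282,
      2944), (13280, 5280), (12320, 5280), (12234, 5202), (12234, 2944)] (.cut2 false 12855 [(12234,
      608), (12855, 608), (12855, 2944), (12234, 2944)] [(12855, 608), (14400, 608), (14720, 1920),
      (14282, 2944), (12855, 2944)] (.cut2 true 1776 [(12234, 608), (12855, 608), (12855, 1776),
      (12234, 1776)] [(12855, 1776), (12855, 2944), (12234, 2944), (12234, 1776)] (.leaf ⟨0, 0, 0,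
      1⟩) (.cut2 true 2068 [(12855, 1776), (12855, 2068), (12234, 2068), (12234, 1776)] [(12855,
      2068), (12855, 2944), (12234, 2944), (12234, 2068)] (.leaf ⟨0, 3, 0, 4⟩) (.leaf ⟨0, 1, 0,
      0⟩))) (.rel2 [(12855, 2944), (12855, 608), (14400, 608), (14970, 2944)] (.leaf ⟨0, 1, 0, 2⟩)))
      (.rel2 [(12234, 2944), (14282, 2944), (12234, 7720)] (.leaf ⟨0, 2, 2, 0⟩))

theorem okH4o1_1 :
    chkT cH4o1 cH4o1 TH4o1_1 (0, 0) (0, 0) dum dum [(12234, 608), (14400, 608), (14720, 1920),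
        (13280, 5280), (12320, 5280), (12234, 5202)] = true := by
  decide +kernel

/-- tree -/
def TH4o1_2 : CT :=
  .cut2 true 1693 [(10750, 1693), (12160, 608), (14400, 608), (14665, 1693)] [(10560, 1840), (10750,
      1693), (14665, 1693), (14720, 1920), (14663, 2055), (10560, 2055)] (.leaf ⟨2, 0, 0, 2⟩) (.cut2
      true 1964 [(10560, 1840), (10750, 1693), (14665, 1693), (14720, 1920), (14702, 1964), (10560,
      1964)] [(14702, 1964), (14663, 2055), (10560, 2055), (10560, 1964)] (.rel2 [(14702, 1964),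
      (10560, 1964), (10559, 1692), (14813, 1693)] (.leaf ⟨4, 0, 0, 3⟩)) (.cut2 false 12631 [(12631,
      2055), (10560, 2055), (10560, 1964), (12631, 1964)] [(14702, 1964), (14663, 2055), (12631,
      2055), (12631, 1964)] (.cut2 false 12113 [(12113, 2055), (10560, 2055), (10560, 1964), (12113,
      1964)] [(12631, 2055), (12113, 2055), (12113, 1964), (12631, 1964)] (.leaf ⟨1, 0, 0, 0⟩)
      (.leaf ⟨9, 0, 0, 8⟩)) (.rel2 [(12631, 1964), (14702, 1964), (12631, 6797)] (.leaf ⟨0, 1, 0,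
      0⟩))))

theorem okH4o1_2 :
    chkT cH4o1 cH4o1 TH4o1_2 (0, 0) (0, 0) dum dum [(10560, 1840), (12160, 608), (14400, 608),
        (14720, 1920), (14663, 2055), (10560, 2055)] = true := by
  decide +kernel

/-- tree -/
def TH4o1_3 : CT :=
  .cut2 true 2863 [(14661, 2058), (14316, 2863), (10560, 2863), (10560, 2058)] [(14316, 2863),
      (13280, 5280), (12320, 5280), (10560, 3680), (10560, 2863)] (.cut2 false 12610 [(12610, 2863),
      (10560, 2863), (10560, 2058), (12610, 2058)] [(14661, 2058), (14316, 2863), (12610, 2863),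
      (12610, 2058)] (.cut2 false 12097 [(12097, 2863), (10560, 2863), (10560, 2058), (12097, 2058)]
      [(12610, 2863), (12097, 2863), (12097, 2058), (12610, 2058)] (.leaf ⟨0, 0, 1, 0⟩) (.cut2 false
      12225 [(12225, 2863), (12097, 2863), (12097, 2058), (12225, 2058)] [(12610, 2863), (12225,
      2863), (12225, 2058), (12610, 2058)] (.leaf ⟨0, 0, 1, 0⟩) (.leaf ⟨0, 4, 3, 0⟩))) (.rel2
      [(12610, 2058), (14661, 2058), (12610, 6844)] (.leaf ⟨0, 1, 0, 0⟩))) (.rel2 [(14316, 2863),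
      (13010, 5910), (9661, 2862)] (.leaf ⟨0, 2, 2, 0⟩))

theorem okH4o1_3 :
    chkT cH4o1 cH4o1 TH4o1_3 (0, 0) (0, 0) dum dum [(14661, 2058), (13280, 5280), (12320, 5280),
        (10560, 3680), (10560, 2058)] = true := by
  decide +kernel

theorem stH4o1 {z : ℂ} (hz : z ∈ Poly (vt .t4)) (h : 1 + Complex.I * z * (8 * z ^ 3 - 4 * z) = 0) :
    (12231 < 16000 * z.re ∧ 16000 * z.re < 12234) ∧ 2055 < 16000 * z.im ∧ 16000 * z.im < 2058 := by
  have h0 : app (slots cH4o1 0 0 0 (16000 * z)) (fun i => (gH4o1 i).v) 0 = 0 := by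
    rw [evH4o1, h, mul_zero]
  have hZ := rgK4 hz
  have hs : shp nK4 = true := by decide +kernel
  have a0 := half_use rpH4o1 hs (ax := false) (up := true) (m := 12231) (by decide +kernel) okH4o1_0
      hZ h0
  have a1 := half_use rpH4o1 hs (ax := false) (up := false) (m := 12234) (by decide +kernel)
      okH4o1_1 hZ h0
  have a2 := half_use rpH4o1 hs (ax := true) (up := true) (m := 2055) (by decide +kernel) okH4o1_2
      hZ h0
  have a3 := half_use rpH4o1 hs (ax := true) (up := false) (m := 2058) (by decide +kernel) okH4o1_3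
      hZ h0
  simp only [HP, not_le, Complex.mul_re, Complex.mul_im, Complex.re_ofNat, Complex.im_ofNat,
    zero_mul, sub_zero, add_zero] at a0 a1 a2 a3
  push_cast at a0 a1 a2 a3
  exact ⟨⟨a0, a1⟩, a2, a3⟩

/-- coefficients -/
def gH4ok (i : ℕ) : G4 :=
  if i = 0 then ⟨18432000000000000, 0, 9830400000000000, 0⟩ else
  if i = 2 then ⟨0, 0, 0, 64000000⟩ else
  if i = 4 then ⟨0, 0, 3, 0⟩ else
  ⟨0, 0, 0, 0⟩

/-- configuration -/
def cH4ok : Cfg := ⟨0, 0, 0, 3, 1, 1, 1, false, false, false,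
  [⟨18432000000000000, 0, 9830400000000000, 0⟩, ⟨0, 0, 0, 0⟩, ⟨0, 0, 0, 64000000⟩, ⟨0, 0, 0, 0⟩, ⟨0,
      0, 3, 0⟩]⟩

lemma rpH4ok : Rp cH4ok.L (fun i => (gH4ok i).v) := by
  have h : cH4ok.L = (List.range 5).map gH4ok := by rfl
  rw [h]
  exact rp_map _ _

lemma evH4ok (z : ℂ) : app (slots cH4ok 0 0 0 (16000 * z)) (fun i => (gH4ok i).v) 0 =
      1228800000000000 * (15 + 8 * Complex.I + 20 * (Complex.I * z * (8 * z ^ 3 - 4 * z))) := by
  rw [app_slots]
  simp only [cH4ok, Finset.sum_range_succ, Finset.sum_range_zero, Nat.reduceAdd, Nat.reduceMul,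
    zero_add, add_zero, gH4ok, Nat.reduceEqDiff, if_true, if_false, v_zero, v_re, v_neg, v_im,
        v_imn,
    v_pp, v_pm, v_mp, v_mm, mul_zero, mr_false, Nat.cast_zero, OfNat.ofNat_ne_zero,
    OfNat.ofNat_eq_ofNat, Nat.reduceEqDiff, Nat.cast_ofNat, pow_zero, mul_one, Nat.choose_self,
    Nat.choose_zero_right, Nat.cast_one, one_mul]
  simp only [Nat.choose, Nat.reduceAdd, pow_zero, pow_one, mul_one, one_mul, Nat.cast_one,
    Nat.cast_ofNat, mul_pow]
  ring

/-- tree -/
def TH4ok_0 : CT :=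
  .cut2 false 11139 [(10560, 1840), (11139, 1393), (11139, 4207), (10560, 3680)] [(11139, 1393),
      (11333, 1244), (11333, 4383), (11139, 4207)] (.rel2 [(11139, 1393), (11139, 4207), (9465,
      2684)] (.leaf ⟨2, 0, 2, 0⟩)) (.cut2 true 2813 [(11139, 1393), (11333, 1244), (11333, 2813),
      (11139, 2813)] [(11333, 2813), (11333, 4383), (11139, 4207), (11139, 2813)] (.cut2 false 11284
      [(11139, 1393), (11284, 1281), (11284, 2813), (11139, 2813)] [(11284, 1281), (11333, 1244),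
      (11333, 2813), (11284, 2813)] (.rel2 [(11284, 1281), (11284, 2813), (9299, 2813)] (.leaf ⟨4,
      0, 3, 0⟩)) (.cut2 true 2028 [(11284, 1281), (11333, 1244), (11333, 2028), (11284, 2028)]
      [(11333, 2028), (11333, 2813), (11284, 2813), (11284, 2028)] (.rel2 [(11333, 1244), (11333,
      2028), (10293, 2028)] (.leaf ⟨1, 0, 0, 0⟩)) (.cut2 true 2224 [(11333, 2028), (11333, 2224),
      (11284, 2224), (11284, 2028)] [(11333, 2224), (11333, 2813), (11284, 2813), (11284, 2224)]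
      (.leaf ⟨1, 0, 0, 0⟩) (.leaf ⟨31, 0, 25, 0⟩)))) (.rel2 [(11333, 2813), (11333, 4383), (9601,
      2812)] (.leaf ⟨0, 0, 1, 0⟩)))

theorem okH4ok_0 :
    chkT cH4ok cH4ok TH4ok_0 (0, 0) (0, 0) dum dum [(10560, 1840), (11333, 1244), (11333, 4383),
        (10560, 3680)] = true := by
  decide +kernel

/-- tree -/
def TH4ok_1 : CT :=
  .cut2 true 2944 [(11336, 1242), (12160, 608), (14400, 608), (14720, 1920), (14282, 2944), (11336,
      2944)] [(14282, 2944), (13280, 5280), (12320, 5280), (11336, 4386), (11336, 2944)] (.cut2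
      false 12182 [(11336, 1242), (12160, 608), (12182, 608), (12182, 2944), (11336, 2944)] [(12182,
      608), (14400, 608), (14720, 1920), (14282, 2944), (12182, 2944)] (.cut2 false 11547 [(11336,
      1242), (11547, 1079), (11547, 2944), (11336, 2944)] [(11547, 1079), (12160, 608), (12182,
      608), (12182, 2944), (11547, 2944)] (.cut2 true 2011 [(11336, 1242), (11547, 1079), (11547,
      2011), (11336, 2011)] [(11547, 2011), (11547, 2944), (11336, 2944), (11336, 2011)] (.rel2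
      [(11547, 1079), (11547, 2011), (10339, 2011)] (.leaf ⟨2, 0, 0, 2⟩)) (.cut2 false 11388
      [(11388, 2944), (11336, 2944), (11336, 2011), (11388, 2011)] [(11547, 2011), (11547, 2944),
      (11388, 2944), (11388, 2011)] (.cut2 true 2477 [(11336, 2477), (11336, 2011), (11388, 2011),
      (11388, 2477)] [(11388, 2944), (11336, 2944), (11336, 2477), (11388, 2477)] (.cut2 false 11349
      [(11336, 2477), (11336, 2011), (11349, 2011), (11349, 2477)] [(11349, 2011), (11388, 2011),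
      (11388, 2477), (11349, 2477)] (.cut2 true 2244 [(11336, 2244), (11336, 2011), (11349, 2011),
      (11349, 2244)] [(11336, 2477), (11336, 2244), (11349, 2244), (11349, 2477)] (.leaf ⟨0, 0, 0,
      1⟩) (.cut2 true 2360 [(11336, 2360), (11336, 2244), (11349, 2244), (11349, 2360)] [(11336,
      2477), (11336, 2360), (11349, 2360), (11349, 2477)] (.leaf ⟨0, 4, 0, 3⟩) (.leaf ⟨0, 0, 1,
      0⟩))) (.leaf ⟨0, 31, 0, 25⟩)) (.leaf ⟨0, 0, 1, 0⟩)) (.leaf ⟨0, 10, 0, 7⟩))) (.rel2 [(12182,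
      2944), (11547, 2944), (11547, 1079), (12182, 590)] (.leaf ⟨0, 2, 0, 2⟩))) (.rel2 [(14282,
      2944), (12182, 2944), (12182, 608), (15282, 607)] (.leaf ⟨0, 1, 0, 2⟩))) (.rel2 [(11336,
      2944), (14282, 2944), (11336, 9815)] (.leaf ⟨0, 2, 2, 0⟩))

theorem okH4ok_1 :
    chkT cH4ok cH4ok TH4ok_1 (0, 0) (0, 0) dum dum [(11336, 1242), (12160, 608), (14400, 608),
        (14720, 1920), (13280, 5280), (12320, 5280), (11336, 4386)] = true := by
  decide +kernel

/-- tree -/
def TH4ok_2 : CT :=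
  .cut2 false 11600 [(10560, 1840), (11600, 1039), (11600, 2286), (10560, 2286)] [(11600, 1039),
      (12160, 608), (14400, 608), (14720, 1920), (14564, 2286), (11600, 2286)] (.cut2 false 11340
      [(10560, 1840), (11340, 1239), (11340, 2286), (10560, 2286)] [(11340, 1239), (11600, 1039),
      (11600, 2286), (11340, 2286)] (.rel2 [(11340, 1239), (11340, 2286), (9980, 2286)] (.leaf ⟨2,
      0, 0, 2⟩)) (.leaf ⟨0, 0, 0, 1⟩)) (.rel2 [(15280, 607), (14564, 2286), (11600, 2286), (11599,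
      607)] (.leaf ⟨0, 0, 0, 1⟩))

theorem okH4ok_2 :
    chkT cH4ok cH4ok TH4ok_2 (0, 0) (0, 0) dum dum [(10560, 1840), (12160, 608), (14400, 608),
        (14720, 1920), (14564, 2286), (10560, 2286)] = true := by
  decide +kernel

/-- tree -/
def TH4ok_3 : CT :=
  .cut2 false 11560 [(11560, 4590), (10560, 3680), (10560, 2289), (11560, 2289)] [(14562, 2289),
      (13280, 5280), (12320, 5280), (11560, 4590), (11560, 2289)] (.cut2 false 11310 [(11310, 4363),
      (10560, 3680), (10560, 2289), (11310, 2289)] [(11560, 4590), (11310, 4363), (11310, 2289),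
      (11560, 2289)] (.rel2 [(11310, 2289), (11310, 4363), (9031, 2288)] (.leaf ⟨0, 0, 1, 0⟩))
      (.leaf ⟨0, 5, 6, 0⟩)) (.rel2 [(11560, 2289), (14562, 2289), (11560, 9294)] (.leaf ⟨0, 7, 4,
      0⟩))

theorem okH4ok_3 :
    chkT cH4ok cH4ok TH4ok_3 (0, 0) (0, 0) dum dum [(14562, 2289), (13280, 5280), (12320, 5280),
        (10560, 3680), (10560, 2289)] = true := by
  decide +kernel

theorem stH4ok {z : ℂ} (hz : z ∈ Poly (vt .t4)) (h : 15 + 8 * Complex.I + 20 * (Complex.I * z * (8 *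
    z ^ 3 - 4 * z)) = 0) :
    (11333 < 16000 * z.re ∧ 16000 * z.re < 11336) ∧ 2286 < 16000 * z.im ∧ 16000 * z.im < 2289 := by
  have h0 : app (slots cH4ok 0 0 0 (16000 * z)) (fun i => (gH4ok i).v) 0 = 0 := by
    rw [evH4ok, h, mul_zero]
  have hZ := rgK4 hz
  have hs : shp nK4 = true := by decide +kernel
  have a0 := half_use rpH4ok hs (ax := false) (up := true) (m := 11333) (by decide +kernel) okH4ok_0
      hZ h0
  have a1 := half_use rpH4ok hs (ax := false) (up := false) (m := 11336) (by decide +kernel)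
      okH4ok_1 hZ h0
  have a2 := half_use rpH4ok hs (ax := true) (up := true) (m := 2286) (by decide +kernel) okH4ok_2
      hZ h0
  have a3 := half_use rpH4ok hs (ax := true) (up := false) (m := 2289) (by decide +kernel) okH4ok_3
      hZ h0
  simp only [HP, not_le, Complex.mul_re, Complex.mul_im, Complex.re_ofNat, Complex.im_ofNat,
    zero_mul, sub_zero, add_zero] at a0 a1 a2 a3
  push_cast at a0 a1 a2 a3
  exact ⟨⟨a0, a1⟩, a2, a3⟩

/-- coefficients -/
def gH4p11 (i : ℕ) : G4 :=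
  if i = 0 then ⟨12582912000000000000000000, 0, 0, 0⟩ else
  if i = 4 then ⟨0, 51200000, 0, 0⟩ else
  if i = 6 then ⟨3, 0, 0, 0⟩ else
  ⟨0, 0, 0, 0⟩

/-- configuration -/
def cH4p11 : Cfg := ⟨0, 0, 0, 5, 1, 1, 1, false, false, false,
  [⟨12582912000000000000000000, 0, 0, 0⟩, ⟨0, 0, 0, 0⟩, ⟨0, 0, 0, 0⟩, ⟨0, 0, 0, 0⟩, ⟨0, 51200000, 0,
      0⟩, ⟨0, 0, 0, 0⟩, ⟨3, 0, 0, 0⟩]⟩

lemma rpH4p11 : Rp cH4p11.L (fun i => (gH4p11 i).v) := by
  have h : cH4p11.L = (List.range 7).map gH4p11 := by rfl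
  rw [h]
  exact rp_map _ _

lemma evH4p11 (z : ℂ) : app (slots cH4p11 0 0 0 (16000 * z)) (fun i => (gH4p11 i).v) 0 =
      6291456000000000000000000 * (z ^ 2 * (1 + (8 * z ^ 4 - 8 * z ^ 2 + 1)) + 2 * (1 - z ^ 2)) :=
          by
  rw [app_slots]
  simp only [cH4p11, Finset.sum_range_succ, Finset.sum_range_zero, Nat.reduceAdd, Nat.reduceMul,
    zero_add, add_zero, gH4p11, Nat.reduceEqDiff, if_true, if_false, v_zero, v_re, v_neg, v_im,
        v_imn,
    v_pp, v_pm, v_mp, v_mm, mul_zero, mr_false, Nat.cast_zero, OfNat.ofNat_ne_zero,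
    OfNat.ofNat_eq_ofNat, Nat.reduceEqDiff, Nat.cast_ofNat, pow_zero, mul_one, Nat.choose_self,
    Nat.choose_zero_right, Nat.cast_one, one_mul]
  simp only [Nat.choose, Nat.reduceAdd, pow_zero, pow_one, mul_one, one_mul, Nat.cast_one,
    Nat.cast_ofNat, mul_pow]
  ring

/-- tree -/
def TH4p11_0 : CT :=
  .cut2 false 12967 [(10560, 1840), (12160, 608), (12967, 608), (12967, 5280), (12320, 5280),
      (10560, 3680)] [(12967, 608), (13770, 608), (13770, 4137), (13280, 5280), (12967, 5280)]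
      (.rel2 [(10559, 607), (12967, 608), (12967, 5280), (10559, 5280)] (.leaf ⟨1, 0, 2, 0⟩)) (.cut2
      false 13569 [(12967, 608), (13569, 608), (13569, 4606), (13280, 5280), (12967, 5280)] [(13569,
      608), (13770, 608), (13770, 4137), (13569, 4606)] (.rel2 [(12967, 608), (13569, 608), (13569,
      4606), (12967, 6010)] (.leaf ⟨1, 0, 2, 0⟩)) (.cut2 true 2607 [(13569, 608), (13770, 608),
      (13770, 2607), (13569, 2607)] [(13770, 2607), (13770, 4137), (13569, 4606), (13569, 2607)]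
      (.leaf ⟨1, 0, 0, 0⟩) (.cut2 true 3106 [(13770, 2607), (13770, 3106), (13569, 3106), (13569,
      2607)] [(13770, 3106), (13770, 4137), (13569, 4606), (13569, 3106)] (.cut2 true 2981 [(13770,
      2607), (13770, 2981), (13569, 2981), (13569, 2607)] [(13770, 2981), (13770, 3106), (13569,
      3106), (13569, 2981)] (.leaf ⟨1, 0, 2, 0⟩) (.leaf ⟨0, 0, 1, 0⟩)) (.rel2 [(13569, 4606),
      (13569, 3106), (14212, 3106)] (.leaf ⟨0, 1, 0, 0⟩)))))

theorem okH4p11_0 :
    chkT cH4p11 cH4p11 TH4p11_0 (0, 0) (0, 0) dum dum [(10560, 1840), (12160, 608), (13770, 608),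
        (13770, 4137), (13280, 5280), (12320, 5280), (10560, 3680)] = true := by
  decide +kernel

/-- tree -/
def TH4p11_1 : CT :=
  .cut2 true 2369 [(13773, 608), (14400, 608), (14720, 1920), (14528, 2369), (13773, 2369)] [(14528,
      2369), (13773, 4130), (13773, 2369)] (.rel2 [(14528, 2369), (13773, 2369), (13773, 608),
      (15282, 607)] (.leaf ⟨1, 0, 0, 0⟩)) (.cut2 false 13961 [(13961, 3692), (13773, 4130), (13773,
      2369), (13961, 2369)] [(14528, 2369), (13961, 3692), (13961, 2369)] (.cut2 true 3249 [(13773,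
      3249), (13773, 2369), (13961, 2369), (13961, 3249)] [(13961, 3692), (13773, 4130), (13773,
      3249), (13961, 3249)] (.cut2 true 2809 [(13773, 2809), (13773, 2369), (13961, 2369), (13961,
      2809)] [(13773, 3249), (13773, 2809), (13961, 2809), (13961, 3249)] (.leaf ⟨0, 0, 0, 1⟩)
      (.leaf ⟨0, 7, 0, 10⟩)) (.rel2 [(13773, 4130), (13773, 3249), (14152, 3248)] (.leaf ⟨0, 1, 0,
      0⟩))) (.leaf ⟨0, 1, 0, 2⟩))

theorem okH4p11_1 :
    chkT cH4p11 cH4p11 TH4p11_1 (0, 0) (0, 0) dum dum [(13773, 608), (14400, 608), (14720, 1920),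
        (13773, 4130)] = true := by
  decide +kernel

/-- tree -/
def TH4p11_2 : CT :=
  .cut2 false 13680 [(10560, 1840), (12160, 608), (13680, 608), (13680, 2816), (10560, 2816)]
      [(13680, 608), (14400, 608), (14720, 1920), (14336, 2816), (13680, 2816)] (.rel2 [(13680,
      608), (13680, 2816), (10560, 2816), (10559, 607)] (.leaf ⟨1, 0, 0, 0⟩)) (.cut2 false 14200
      [(13680, 608), (14200, 608), (14200, 2816), (13680, 2816)] [(14200, 608), (14400, 608),
      (14720, 1920), (14336, 2816), (14200, 2816)] (.leaf ⟨18, 0, 0, 9⟩) (.rel2 [(14200, 2816),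
      (14200, 608), (14400, 608), (14939, 2816)] (.leaf ⟨1, 0, 0, 2⟩)))

theorem okH4p11_2 :
    chkT cH4p11 cH4p11 TH4p11_2 (0, 0) (0, 0) dum dum [(10560, 1840), (12160, 608), (14400, 608),
        (14720, 1920), (14336, 2816), (10560, 2816)] = true := by
  decide +kernel

/-- tree -/
def TH4p11_3 : CT :=
  .cut2 false 13391 [(13391, 5022), (13280, 5280), (12320, 5280), (10560, 3680), (10560, 2819),
      (13391, 2819)] [(14335, 2819), (13391, 5022), (13391, 2819)] (.rel2 [(10559, 5280), (10560,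
      2819), (13391, 2819), (13391, 5280)] (.leaf ⟨0, 0, 1, 0⟩)) (.cut2 true 3369 [(14335, 2819),
      (14100, 3369), (13391, 3369), (13391, 2819)] [(14100, 3369), (13391, 5022), (13391, 3369)]
      (.cut2 true 2956 [(14335, 2819), (14277, 2956), (13391, 2956), (13391, 2819)] [(14277, 2956),
      (14100, 3369), (13391, 3369), (13391, 2956)] (.cut2 false 13863 [(13863, 2956), (13391, 2956),
      (13391, 2819), (13863, 2819)] [(14335, 2819), (14277, 2956), (13863, 2956), (13863, 2819)]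
      (.cut2 false 13745 [(13745, 2956), (13391, 2956), (13391, 2819), (13745, 2819)] [(13863,
      2956), (13745, 2956), (13745, 2819), (13863, 2819)] (.leaf ⟨0, 0, 1, 0⟩) (.leaf ⟨0, 11, 5,
      0⟩)) (.rel2 [(13863, 2819), (14335, 2819), (13863, 3934)] (.leaf ⟨0, 1, 0, 0⟩))) (.rel2
      [(13391, 2956), (14277, 2956), (13391, 5024)] (.leaf ⟨0, 7, 4, 0⟩))) (.leaf ⟨0, 1, 0, 0⟩))

theorem okH4p11_3 :
    chkT cH4p11 cH4p11 TH4p11_3 (0, 0) (0, 0) dum dum [(14335, 2819), (13280, 5280), (12320, 5280),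
        (10560, 3680), (10560, 2819)] = true := by
  decide +kernel

theorem stH4p11 {z : ℂ} (hz : z ∈ Poly (vt .t4)) (h : z ^ 2 * (1 + (8 * z ^ 4 - 8 * z ^ 2 + 1)) + 2
    * (1 - z ^ 2) = 0) :
    (13770 < 16000 * z.re ∧ 16000 * z.re < 13773) ∧ 2816 < 16000 * z.im ∧ 16000 * z.im < 2819 := by
  have h0 : app (slots cH4p11 0 0 0 (16000 * z)) (fun i => (gH4p11 i).v) 0 = 0 := by
    rw [evH4p11, h, mul_zero]
  have hZ := rgK4 hz
  have hs : shp nK4 = true := by decide +kernel
  have a0 := half_use rpH4p11 hs (ax := false) (up := true) (m := 13770) (by decide +kernel)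
      okH4p11_0 hZ h0
  have a1 := half_use rpH4p11 hs (ax := false) (up := false) (m := 13773) (by decide +kernel)
      okH4p11_1 hZ h0
  have a2 := half_use rpH4p11 hs (ax := true) (up := true) (m := 2816) (by decide +kernel) okH4p11_2
      hZ h0
  have a3 := half_use rpH4p11 hs (ax := true) (up := false) (m := 2819) (by decide +kernel)
      okH4p11_3 hZ h0
  simp only [HP, not_le, Complex.mul_re, Complex.mul_im, Complex.re_ofNat, Complex.im_ofNat,
    zero_mul, sub_zero, add_zero] at a0 a1 a2 a3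
  push_cast at a0 a1 a2 a3
  exact ⟨⟨a0, a1⟩, a2, a3⟩

/-- coefficients -/
def gH4p1k (i : ℕ) : G4 :=
  if i = 0 then ⟨0, 45801799680000000000000000000000, 0, 93952409600000000000000000000000⟩ else
  if i = 2 then ⟨786432000000000000000000, 0, 419430400000000000000000, 0⟩ else
  if i = 4 then ⟨409600000000000, 0, 0, 655360000000000⟩ else
  if i = 6 then ⟨0, 64000000, 0, 0⟩ else
  if i = 8 then ⟨7, 0, 0, 0⟩ else
  ⟨0, 0, 0, 0⟩

/-- configuration -/
def cH4p1k : Cfg := ⟨0, 0, 0, 7, 1, 1, 1, false, false, false,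
  [⟨0, 45801799680000000000000000000000, 0, 93952409600000000000000000000000⟩, ⟨0, 0, 0, 0⟩,
      ⟨786432000000000000000000, 0, 419430400000000000000000, 0⟩, ⟨0, 0, 0, 0⟩, ⟨409600000000000, 0,
      0, 655360000000000⟩, ⟨0, 0, 0, 0⟩, ⟨0, 64000000, 0, 0⟩, ⟨0, 0, 0, 0⟩, ⟨7, 0, 0, 0⟩]⟩

lemma rpH4p1k : Rp cH4p1k.L (fun i => (gH4p1k i).v) := by
  have h : cH4p1k.L = (List.range 9).map gH4p1k := by rfl
  rw [h]
  exact rp_map _ _

lemma evH4p1k (z : ℂ) : app (slots cH4p1k 0 0 0 (16000 * z)) (fun i => (gH4p1k i).v) 0 =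
      1174405120000000000000000000000 * (561 + 240 * Complex.I - (600 + 320 * Complex.I) * (8 * z ^
          4 - 8 * z ^ 2 + 1) + 400 * (z * (8 * z ^ 3 - 4 * z)) ^ 2) := by
  rw [app_slots]
  simp only [cH4p1k, Finset.sum_range_succ, Finset.sum_range_zero, Nat.reduceAdd, Nat.reduceMul,
    zero_add, add_zero, gH4p1k, Nat.reduceEqDiff, if_true, if_false, v_zero, v_re, v_neg, v_im,
        v_imn,
    v_pp, v_pm, v_mp, v_mm, mul_zero, mr_false, Nat.cast_zero, OfNat.ofNat_ne_zero,
    OfNat.ofNat_eq_ofNat, Nat.reduceEqDiff, Nat.cast_ofNat, pow_zero, mul_one, Nat.choose_self,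
    Nat.choose_zero_right, Nat.cast_one, one_mul]
  simp only [Nat.choose, Nat.reduceAdd, pow_zero, pow_one, mul_one, one_mul, Nat.cast_one,
    Nat.cast_ofNat, mul_pow]
  ring

/-- tree -/
def TH4p1k_0 : CT :=
  .cut2 false 12600 [(10560, 1840), (12160, 608), (12600, 608), (12600, 5280), (12320, 5280),
      (10560, 3680)] [(12600, 608), (13280, 608), (13280, 5280), (12600, 5280)] (.rel2 [(10559,
      607), (12600, 608), (12600, 5280), (10559, 5280)] (.leaf ⟨1, 0, 0, 0⟩)) (.cut2 true 2944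
      [(12600, 608), (13280, 608), (13280, 2944), (12600, 2944)] [(13280, 2944), (13280, 5280),
      (12600, 5280), (12600, 2944)] (.leaf ⟨1, 0, 0, 0⟩) (.cut2 true 3528 [(13280, 2944), (13280,
      3528), (12600, 3528), (12600, 2944)] [(13280, 3528), (13280, 5280), (12600, 5280), (12600,
      3528)] (.cut2 true 3236 [(13280, 2944), (13280, 3236), (12600, 3236), (12600, 2944)] [(13280,
      3236), (13280, 3528), (12600, 3528), (12600, 3236)] (.leaf ⟨1, 0, 0, 0⟩) (.leaf ⟨19, 0, 6,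
      0⟩)) (.leaf ⟨0, 0, 1, 0⟩)))

theorem okH4p1k_0 :
    chkT cH4p1k cH4p1k TH4p1k_0 (0, 0) (0, 0) dum dum [(10560, 1840), (12160, 608), (13280, 608),
        (13280, 5280), (12320, 5280), (10560, 3680)] = true := by
  decide +kernel

/-- tree -/
def TH4p1k_1 : CT :=
  .cut2 true 2940 [(13283, 608), (14400, 608), (14720, 1920), (14283, 2940), (13283, 2940)] [(14283,
      2940), (13283, 5273), (13283, 2940)] (.rel2 [(13283, 2940), (13283, 608), (14400, 608),
      (14969, 2940)] (.leaf ⟨0, 0, 0, 1⟩)) (.cut2 true 3523 [(14283, 2940), (14034, 3523), (13283,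
      3523), (13283, 2940)] [(14034, 3523), (13283, 5273), (13283, 3523)] (.cut2 false 13533
      [(13533, 3523), (13283, 3523), (13283, 2940), (13533, 2940)] [(14283, 2940), (14034, 3523),
      (13533, 3523), (13533, 2940)] (.cut2 false 13345 [(13345, 3523), (13283, 3523), (13283, 2940),
      (13345, 2940)] [(13533, 3523), (13345, 3523), (13345, 2940), (13533, 2940)] (.cut2 true 3231
      [(13283, 3231), (13283, 2940), (13345, 2940), (13345, 3231)] [(13345, 3523), (13283, 3523),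
      (13283, 3231), (13345, 3231)] (.leaf ⟨0, 0, 0, 1⟩) (.cut2 true 3304 [(13283, 3304), (13283,
      3231), (13345, 3231), (13345, 3304)] [(13345, 3523), (13283, 3523), (13283, 3304), (13345,
      3304)] (.leaf ⟨0, 0, 0, 1⟩) (.leaf ⟨0, 1, 0, 0⟩))) (.leaf ⟨0, 11, 0, 5⟩)) (.rel2 [(13533,
      2940), (14283, 2940), (13533, 4697)] (.leaf ⟨0, 1, 0, 0⟩))) (.leaf ⟨0, 1, 2, 0⟩))

theorem okH4p1k_1 :
    chkT cH4p1k cH4p1k TH4p1k_1 (0, 0) (0, 0) dum dum [(13283, 608), (14400, 608), (14720, 1920),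
        (13283, 5273)] = true := by
  decide +kernel

/-- tree -/
def TH4p1k_2 : CT :=
  .cut2 true 2632 [(10560, 1840), (12160, 608), (14400, 608), (14720, 1920), (14416, 2632), (10560,
      2632)] [(14416, 2632), (14126, 3307), (10560, 3307), (10560, 2632)] (.rel2 [(14416, 2632),
      (10560, 2632), (10559, 607), (15281, 607)] (.leaf ⟨0, 0, 0, 1⟩)) (.cut2 true 3138 [(14416,
      2632), (14199, 3138), (10560, 3138), (10560, 2632)] [(14199, 3138), (14126, 3307), (10560,
      3307), (10560, 3138)] (.leaf ⟨1, 0, 0, 2⟩) (.cut2 false 13289 [(13289, 3307), (10560, 3307),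
      (10560, 3138), (13289, 3138)] [(14199, 3138), (14126, 3307), (13289, 3307), (13289, 3138)]
      (.leaf ⟨1, 0, 0, 2⟩) (.leaf ⟨0, 0, 0, 1⟩)))

theorem okH4p1k_2 :
    chkT cH4p1k cH4p1k TH4p1k_2 (0, 0) (0, 0) dum dum [(10560, 1840), (12160, 608), (14400, 608),
        (14720, 1920), (14126, 3307), (10560, 3307)] = true := by
  decide +kernel

/-- tree -/
def TH4p1k_3 : CT :=
  .cut2 false 13233 [(13233, 5280), (12320, 5280), (10560, 3680), (10560, 3310), (13233, 3310)]
      [(14125, 3310), (13280, 5280), (13233, 5280), (13233, 3310)] (.rel2 [(10560, 3310), (13233,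
      3310), (13233, 5280), (10559, 5280)] (.leaf ⟨2, 0, 2, 0⟩)) (.cut2 true 3802 [(14125, 3310),
      (13914, 3802), (13233, 3802), (13233, 3310)] [(13914, 3802), (13280, 5280), (13233, 5280),
      (13233, 3802)] (.cut2 false 13456 [(13456, 3802), (13233, 3802), (13233, 3310), (13456, 3310)]
      [(14125, 3310), (13914, 3802), (13456, 3802), (13456, 3310)] (.cut2 false 13288 [(13288,
      3802), (13233, 3802), (13233, 3310), (13288, 3310)] [(13456, 3802), (13288, 3802), (13288,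
      3310), (13456, 3310)] (.leaf ⟨0, 1, 5, 0⟩) (.leaf ⟨0, 2, 2, 0⟩)) (.rel2 [(13456, 3310),
      (14125, 3310), (13456, 4870)] (.leaf ⟨0, 2, 2, 0⟩))) (.rel2 [(13233, 3802), (13914, 3802),
      (13233, 5390)] (.leaf ⟨0, 0, 1, 0⟩)))

theorem okH4p1k_3 :
    chkT cH4p1k cH4p1k TH4p1k_3 (0, 0) (0, 0) dum dum [(14125, 3310), (13280, 5280), (12320, 5280),
        (10560, 3680), (10560, 3310)] = true := by
  decide +kernel

theorem stH4p1k {z : ℂ} (hz : z ∈ Poly (vt .t4)) (h : 561 + 240 * Complex.I - (600 + 320 *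
    Complex.I) * (8 * z ^ 4 - 8 * z ^ 2 + 1) + 400 * (z * (8 * z ^ 3 - 4 * z)) ^ 2 = 0) :
    (13280 < 16000 * z.re ∧ 16000 * z.re < 13283) ∧ 3307 < 16000 * z.im ∧ 16000 * z.im < 3310 := by
  have h0 : app (slots cH4p1k 0 0 0 (16000 * z)) (fun i => (gH4p1k i).v) 0 = 0 := by
    rw [evH4p1k, h, mul_zero]
  have hZ := rgK4 hz
  have hs : shp nK4 = true := by decide +kernel
  have a0 := half_use rpH4p1k hs (ax := false) (up := true) (m := 13280) (by decide +kernel)
      okH4p1k_0 hZ h0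
  have a1 := half_use rpH4p1k hs (ax := false) (up := false) (m := 13283) (by decide +kernel)
      okH4p1k_1 hZ h0
  have a2 := half_use rpH4p1k hs (ax := true) (up := true) (m := 3307) (by decide +kernel) okH4p1k_2
      hZ h0
  have a3 := half_use rpH4p1k hs (ax := true) (up := false) (m := 3310) (by decide +kernel)
      okH4p1k_3 hZ h0
  simp only [HP, not_le, Complex.mul_re, Complex.mul_im, Complex.re_ofNat, Complex.im_ofNat,
    zero_mul, sub_zero, add_zero] at a0 a1 a2 a3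
  push_cast at a0 a1 a2 a3
  exact ⟨⟨a0, a1⟩, a2, a3⟩

/-- coefficients -/
def gH5o1 (i : ℕ) : G4 :=
  if i = 0 then ⟨65536000000000000000, 0, 0, 0⟩ else
  if i = 1 then ⟨0, 0, 819200000000000, 0⟩ else
  if i = 3 then ⟨0, 0, 0, 19200000⟩ else
  if i = 5 then ⟨0, 0, 1, 0⟩ else
  ⟨0, 0, 0, 0⟩

/-- configuration -/
def cH5o1 : Cfg := ⟨0, 0, 0, 4, 1, 1, 1, false, false, false,
  [⟨65536000000000000000, 0, 0, 0⟩, ⟨0, 0, 819200000000000, 0⟩, ⟨0, 0, 0, 0⟩, ⟨0, 0, 0, 19200000⟩,
      ⟨0, 0, 0, 0⟩, ⟨0, 0, 1, 0⟩]⟩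

lemma rpH5o1 : Rp cH5o1.L (fun i => (gH5o1 i).v) := by
  have h : cH5o1.L = (List.range 6).map gH5o1 := by rfl
  rw [h]
  exact rp_map _ _

lemma evH5o1 (z : ℂ) : app (slots cH5o1 0 0 0 (16000 * z)) (fun i => (gH5o1 i).v) 0 =
      65536000000000000000 * (1 + Complex.I * z * (16 * z ^ 4 - 12 * z ^ 2 + 1)) := by
  rw [app_slots]
  simp only [cH5o1, Finset.sum_range_succ, Finset.sum_range_zero, Nat.reduceAdd, Nat.reduceMul,
    zero_add, add_zero, gH5o1, Nat.reduceEqDiff, if_true, if_false, v_zero, v_re, v_neg, v_im,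
        v_imn,
    v_pp, v_pm, v_mp, v_mm, mul_zero, mr_false, Nat.cast_zero, OfNat.ofNat_ne_zero,
    OfNat.ofNat_eq_ofNat, Nat.reduceEqDiff, Nat.cast_ofNat, pow_zero, mul_one, Nat.choose_self,
    Nat.choose_zero_right, Nat.cast_one, one_mul]
  simp only [Nat.choose, Nat.reduceAdd, pow_zero, pow_one, mul_one, one_mul, Nat.cast_one,
    Nat.cast_ofNat, mul_pow]
  ring

/-- tree -/
def TH5o1_0 : CT :=
  .cut2 true 1120 [(11520, 1120), (12800, 160), (13328, 160), (13328, 1120)] [(11520, 1120), (13328,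
      1120), (13328, 4000), (12800, 4000), (11520, 3040)] (.leaf ⟨1, 0, 0, 0⟩) (.rel2 [(11520,
      1120), (13328, 1120), (13328, 4000), (11519, 4000)] (.leaf ⟨6, 0, 10, 0⟩))

theorem okH5o1_0 :
    chkT cH5o1 cH5o1 TH5o1_0 (0, 0) (0, 0) dum dum [(11520, 1120), (12800, 160), (13328, 160),
        (13328, 4000), (12800, 4000), (11520, 3040)] = true := by
  decide +kernel

/-- tree -/
def TH5o1_1 : CT :=
  .cut2 true 2080 [(13331, 160), (15040, 160), (15280, 1760), (15155, 2080), (13331, 2080)] [(15155,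
      2080), (14400, 4000), (13331, 4000), (13331, 2080)] (.cut2 false 13818 [(13331, 160), (13818,
      160), (13818, 2080), (13331, 2080)] [(13818, 160), (15040, 160), (15280, 1760), (15155, 2080),
      (13818, 2080)] (.cut2 true 1120 [(13331, 160), (13818, 160), (13818, 1120), (13331, 1120)]
      [(13818, 1120), (13818, 2080), (13331, 2080), (13331, 1120)] (.leaf ⟨0, 0, 0, 1⟩) (.cut2 true
      1360 [(13818, 1120), (13818, 1360), (13331, 1360), (13331, 1120)] [(13818, 1360), (13818,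
      2080), (13331, 2080), (13331, 1360)] (.leaf ⟨0, 49, 0, 63⟩) (.leaf ⟨0, 1, 0, 0⟩))) (.rel2
      [(15155, 2080), (13818, 2080), (13818, 160), (15905, 160)] (.leaf ⟨0, 1, 0, 2⟩))) (.rel2
      [(13331, 2080), (15155, 2080), (13331, 6719)] (.leaf ⟨0, 2, 2, 0⟩))

theorem okH5o1_1 :
    chkT cH5o1 cH5o1 TH5o1_1 (0, 0) (0, 0) dum dum [(13331, 160), (15040, 160), (15280, 1760),
        (14400, 4000), (13331, 4000)] = true := by
  decide +kernel

/-- tree -/
def TH5o1_2 : CT :=
  .cut2 false 13353 [(11520, 1120), (12800, 160), (13353, 160), (13353, 1138), (11520, 1138)]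
      [(13353, 160), (15040, 160), (15187, 1138), (13353, 1138)] (.rel2 [(13353, 160), (13353,
      1138), (11520, 1138), (11519, 159)] (.leaf ⟨17, 0, 0, 11⟩)) (.leaf ⟨0, 0, 0, 1⟩)

theorem okH5o1_2 :
    chkT cH5o1 cH5o1 TH5o1_2 (0, 0) (0, 0) dum dum [(11520, 1120), (12800, 160), (15040, 160),
        (15187, 1138), (11520, 1138)] = true := by
  decide +kernel

/-- tree -/
def TH5o1_3 : CT :=
  .cut2 true 1855 [(15188, 1141), (15280, 1760), (15243, 1855), (11520, 1855), (11520, 1141)]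
      [(15243, 1855), (14400, 4000), (12800, 4000), (11520, 3040), (11520, 1855)] (.cut2 false 13400
      [(13400, 1855), (11520, 1855), (11520, 1141), (13400, 1141)] [(15188, 1141), (15280, 1760),
      (15243, 1855), (13400, 1855), (13400, 1141)] (.cut2 false 12930 [(12930, 1855), (11520, 1855),
      (11520, 1141), (12930, 1141)] [(13400, 1855), (12930, 1855), (12930, 1141), (13400, 1141)]
      (.leaf ⟨0, 0, 1, 0⟩) (.cut2 false 13165 [(13165, 1855), (12930, 1855), (12930, 1141), (13165,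
      1141)] [(13400, 1855), (13165, 1855), (13165, 1141), (13400, 1141)] (.leaf ⟨0, 0, 1, 0⟩)
      (.leaf ⟨0, 10, 7, 0⟩))) (.rel2 [(13400, 1855), (13400, 1141), (15188, 1141), (15295, 1855)]
      (.leaf ⟨0, 1, 0, 0⟩))) (.rel2 [(15243, 1855), (14036, 4927), (9939, 1855)] (.leaf ⟨0, 3, 4,
      0⟩))

theorem okH5o1_3 :
    chkT cH5o1 cH5o1 TH5o1_3 (0, 0) (0, 0) dum dum [(15188, 1141), (15280, 1760), (14400, 4000),
        (12800, 4000), (11520, 3040), (11520, 1141)] = true := by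
  decide +kernel

theorem stH5o1 {z : ℂ} (hz : z ∈ Poly (vt .t5)) (h : 1 + Complex.I * z * (16 * z ^ 4 - 12 * z ^ 2 +
    1) = 0) :
    (13328 < 16000 * z.re ∧ 16000 * z.re < 13331) ∧ 1138 < 16000 * z.im ∧ 16000 * z.im < 1141 := by
  have h0 : app (slots cH5o1 0 0 0 (16000 * z)) (fun i => (gH5o1 i).v) 0 = 0 := by
    rw [evH5o1, h, mul_zero]
  have hZ := rgK5 hz
  have hs : shp nK5 = true := by decide +kernel
  have a0 := half_use rpH5o1 hs (ax := false) (up := true) (m := 13328) (by decide +kernel) okH5o1_0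
      hZ h0
  have a1 := half_use rpH5o1 hs (ax := false) (up := false) (m := 13331) (by decide +kernel)
      okH5o1_1 hZ h0
  have a2 := half_use rpH5o1 hs (ax := true) (up := true) (m := 1138) (by decide +kernel) okH5o1_2
      hZ h0
  have a3 := half_use rpH5o1 hs (ax := true) (up := false) (m := 1141) (by decide +kernel) okH5o1_3
      hZ h0
  simp only [HP, not_le, Complex.mul_re, Complex.mul_im, Complex.re_ofNat, Complex.im_ofNat,
    zero_mul, sub_zero, add_zero] at a0 a1 a2 a3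
  push_cast at a0 a1 a2 a3
  exact ⟨⟨a0, a1⟩, a2, a3⟩

/-- coefficients -/
def gH5ok (i : ℕ) : G4 :=
  if i = 0 then ⟨49152000000000000000, 0, 26214400000000000000, 0⟩ else
  if i = 1 then ⟨0, 0, 819200000000000, 0⟩ else
  if i = 3 then ⟨0, 0, 0, 19200000⟩ else
  if i = 5 then ⟨0, 0, 1, 0⟩ else
  ⟨0, 0, 0, 0⟩

/-- configuration -/
def cH5ok : Cfg := ⟨0, 0, 0, 4, 1, 1, 1, false, false, false,
  [⟨49152000000000000000, 0, 26214400000000000000, 0⟩, ⟨0, 0, 819200000000000, 0⟩, ⟨0, 0, 0, 0⟩, ⟨0,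
      0, 0, 19200000⟩, ⟨0, 0, 0, 0⟩, ⟨0, 0, 1, 0⟩]⟩

lemma rpH5ok : Rp cH5ok.L (fun i => (gH5ok i).v) := by
  have h : cH5ok.L = (List.range 6).map gH5ok := by rfl
  rw [h]
  exact rp_map _ _

lemma evH5ok (z : ℂ) : app (slots cH5ok 0 0 0 (16000 * z)) (fun i => (gH5ok i).v) 0 =
      3276800000000000000 * (15 + 8 * Complex.I + 20 * (Complex.I * z * (16 * z ^ 4 - 12 * z ^ 2 +
          1))) := by
  rw [app_slots]
  simp only [cH5ok, Finset.sum_range_succ, Finset.sum_range_zero, Nat.reduceAdd, Nat.reduceMul,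
    zero_add, add_zero, gH5ok, Nat.reduceEqDiff, if_true, if_false, v_zero, v_re, v_neg, v_im,
        v_imn,
    v_pp, v_pm, v_mp, v_mm, mul_zero, mr_false, Nat.cast_zero, OfNat.ofNat_ne_zero,
    OfNat.ofNat_eq_ofNat, Nat.reduceEqDiff, Nat.cast_ofNat, pow_zero, mul_one, Nat.choose_self,
    Nat.choose_zero_right, Nat.cast_one, one_mul]
  simp only [Nat.choose, Nat.reduceAdd, pow_zero, pow_one, mul_one, one_mul, Nat.cast_one,
    Nat.cast_ofNat, mul_pow]
  ring

/-- tree -/
def TH5ok_0 : CT :=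
  .cut2 false 12466 [(11520, 1120), (12466, 410), (12466, 3750), (11520, 3040)] [(12466, 410),
      (12782, 173), (12782, 3987), (12466, 3750)] (.rel2 [(12466, 410), (12466, 3750), (10239,
      2079)] (.leaf ⟨1, 0, 2, 0⟩)) (.cut2 true 2080 [(12466, 410), (12782, 173), (12782, 2080),
      (12466, 2080)] [(12782, 2080), (12782, 3987), (12466, 3750), (12466, 2080)] (.cut2 false 12703
      [(12466, 410), (12703, 232), (12703, 2080), (12466, 2080)] [(12703, 232), (12782, 173),
      (12782, 2080), (12703, 2080)] (.rel2 [(12703, 232), (12703, 2080), (10241, 2080)] (.leaf ⟨2,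
      0, 2, 0⟩)) (.cut2 true 1126 [(12703, 232), (12782, 173), (12782, 1126), (12703, 1126)]
      [(12782, 1126), (12782, 2080), (12703, 2080), (12703, 1126)] (.rel2 [(12782, 173), (12782,
      1126), (11504, 1126)] (.leaf ⟨1, 0, 0, 0⟩)) (.cut2 true 1841 [(12782, 1126), (12782, 1841),
      (12703, 1841), (12703, 1126)] [(12782, 1841), (12782, 2080), (12703, 2080), (12703, 1841)]
      (.leaf ⟨49, 0, 63, 0⟩) (.leaf ⟨0, 0, 1, 0⟩)))) (.rel2 [(12782, 2080), (12782, 3987), (10238,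
      2079)] (.leaf ⟨0, 0, 1, 0⟩)))

theorem okH5ok_0 :
    chkT cH5ok cH5ok TH5ok_0 (0, 0) (0, 0) dum dum [(11520, 1120), (12782, 173), (12782, 3987),
        (11520, 3040)] = true := by
  decide +kernel

/-- tree -/
def TH5ok_1 : CT :=
  .cut2 true 2080 [(12785, 171), (12800, 160), (15040, 160), (15280, 1760), (15155, 2080), (12785,
      2080)] [(15155, 2080), (14400, 4000), (12800, 4000), (12785, 3989), (12785, 2080)] (.cut2
      false 13408 [(12785, 171), (12800, 160), (13408, 160), (13408, 2080), (12785, 2080)] [(13408,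
      160), (15040, 160), (15280, 1760), (15155, 2080), (13408, 2080)] (.cut2 true 1120 [(12785,
      171), (12800, 160), (13408, 160), (13408, 1120), (12785, 1120)] [(13408, 1120), (13408, 2080),
      (12785, 2080), (12785, 1120)] (.rel2 [(13408, 160), (13408, 1120), (12785, 1120), (12784,
      158)] (.leaf ⟨0, 0, 0, 1⟩)) (.cut2 true 1360 [(13408, 1120), (13408, 1360), (12785, 1360),
      (12785, 1120)] [(13408, 1360), (13408, 2080), (12785, 2080), (12785, 1360)] (.cut2 true 1180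
      [(13408, 1120), (13408, 1180), (12785, 1180), (12785, 1120)] [(13408, 1180), (13408, 1360),
      (12785, 1360), (12785, 1180)] (.leaf ⟨0, 0, 0, 1⟩) (.leaf ⟨0, 2, 0, 2⟩)) (.leaf ⟨0, 1, 0,
      0⟩))) (.rel2 [(15155, 2080), (13408, 2080), (13408, 160), (15905, 160)] (.leaf ⟨0, 1, 0, 2⟩)))
      (.rel2 [(12785, 2080), (15155, 2080), (12785, 8109)] (.leaf ⟨0, 2, 2, 0⟩))

theorem okH5ok_1 :
    chkT cH5ok cH5ok TH5ok_1 (0, 0) (0, 0) dum dum [(12785, 171), (12800, 160), (15040, 160),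
        (15280, 1760), (14400, 4000), (12800, 4000), (12785, 3989)] = true := by
  decide +kernel

/-- tree -/
def TH5ok_2 : CT :=
  .cut2 false 13357 [(11520, 1120), (12800, 160), (13357, 160), (13357, 1184), (11520, 1184)]
      [(13357, 160), (15040, 160), (15194, 1184), (13357, 1184)] (.cut2 true 928 [(11776, 928),
      (12800, 160), (13357, 160), (13357, 928)] [(11520, 1120), (11776, 928), (13357, 928), (13357,
      1184), (11520, 1184)] (.leaf ⟨2, 0, 0, 2⟩) (.cut2 true 1120 [(11520, 1120), (11776, 928),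
      (13357, 928), (13357, 1120)] [(11520, 1120), (13357, 1120), (13357, 1184), (11520, 1184)]
      (.leaf ⟨4, 0, 0, 3⟩) (.cut2 true 1168 [(11520, 1120), (13357, 1120), (13357, 1168), (11520,
      1168)] [(13357, 1168), (13357, 1184), (11520, 1184), (11520, 1168)] (.leaf ⟨6, 0, 0, 5⟩)
      (.cut2 false 12438 [(12438, 1184), (11520, 1184), (11520, 1168), (12438, 1168)] [(13357,
      1168), (13357, 1184), (12438, 1184), (12438, 1168)] (.leaf ⟨1, 0, 0, 0⟩) (.cut2 false 12897
      [(12897, 1184), (12438, 1184), (12438, 1168), (12897, 1168)] [(13357, 1168), (13357, 1184),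
      (12897, 1184), (12897, 1168)] (.leaf ⟨6, 0, 0, 5⟩) (.leaf ⟨0, 0, 0, 1⟩)))))) (.leaf ⟨0, 0, 0,
      1⟩)

theorem okH5ok_2 :
    chkT cH5ok cH5ok TH5ok_2 (0, 0) (0, 0) dum dum [(11520, 1120), (12800, 160), (15040, 160),
        (15194, 1184), (11520, 1184)] = true := by
  decide +kernel

/-- tree -/
def TH5ok_3 : CT :=
  .cut2 true 1890 [(15195, 1187), (15280, 1760), (15229, 1890), (11520, 1890), (11520, 1187)]
      [(15229, 1890), (14400, 4000), (12800, 4000), (11520, 3040), (11520, 1890)] (.cut2 false 13400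
      [(13400, 1890), (11520, 1890), (11520, 1187), (13400, 1187)] [(15195, 1187), (15280, 1760),
      (15229, 1890), (13400, 1890), (13400, 1187)] (.cut2 true 1362 [(11520, 1362), (11520, 1187),
      (13400, 1187), (13400, 1362)] [(13400, 1890), (11520, 1890), (11520, 1362), (13400, 1362)]
      (.cut2 false 12460 [(11520, 1362), (11520, 1187), (12460, 1187), (12460, 1362)] [(12460,
      1187), (13400, 1187), (13400, 1362), (12460, 1362)] (.leaf ⟨0, 0, 1, 0⟩) (.cut2 true 1230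
      [(12460, 1187), (13400, 1187), (13400, 1230), (12460, 1230)] [(13400, 1230), (13400, 1362),
      (12460, 1362), (12460, 1230)] (.cut2 false 12930 [(12460, 1187), (12930, 1187), (12930, 1230),
      (12460, 1230)] [(12930, 1187), (13400, 1187), (13400, 1230), (12930, 1230)] (.cut2 false 12812
      [(12460, 1187), (12812, 1187), (12812, 1230), (12460, 1230)] [(12812, 1187), (12930, 1187),
      (12930, 1230), (12812, 1230)] (.leaf ⟨0, 59, 54, 0⟩) (.leaf ⟨0, 1, 0, 0⟩)) (.leaf ⟨0, 1, 0,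
      0⟩)) (.leaf ⟨0, 4, 3, 0⟩))) (.leaf ⟨0, 2, 2, 0⟩)) (.rel2 [(13400, 1890), (13400, 1187),
      (15195, 1187), (15300, 1890)] (.leaf ⟨0, 1, 0, 0⟩))) (.rel2 [(11520, 3040), (11520, 1890),
      (15229, 1890), (14036, 4927)] (.leaf ⟨0, 2, 2, 0⟩))

theorem okH5ok_3 :
    chkT cH5ok cH5ok TH5ok_3 (0, 0) (0, 0) dum dum [(15195, 1187), (15280, 1760), (14400, 4000),
        (12800, 4000), (11520, 3040), (11520, 1187)] = true := by
  decide +kernel

theorem stH5ok {z : ℂ} (hz : z ∈ Poly (vt .t5)) (h : 15 + 8 * Complex.I + 20 * (Complex.I * z * (16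
    * z ^ 4 - 12 * z ^ 2 + 1)) = 0) :
    (12782 < 16000 * z.re ∧ 16000 * z.re < 12785) ∧ 1184 < 16000 * z.im ∧ 16000 * z.im < 1187 := by
  have h0 : app (slots cH5ok 0 0 0 (16000 * z)) (fun i => (gH5ok i).v) 0 = 0 := by
    rw [evH5ok, h, mul_zero]
  have hZ := rgK5 hz
  have hs : shp nK5 = true := by decide +kernel
  have a0 := half_use rpH5ok hs (ax := false) (up := true) (m := 12782) (by decide +kernel) okH5ok_0
      hZ h0
  have a1 := half_use rpH5ok hs (ax := false) (up := false) (m := 12785) (by decide +kernel)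
      okH5ok_1 hZ h0
  have a2 := half_use rpH5ok hs (ax := true) (up := true) (m := 1184) (by decide +kernel) okH5ok_2
      hZ h0
  have a3 := half_use rpH5ok hs (ax := true) (up := false) (m := 1187) (by decide +kernel) okH5ok_3
      hZ h0
  simp only [HP, not_le, Complex.mul_re, Complex.mul_im, Complex.re_ofNat, Complex.im_ofNat,
    zero_mul, sub_zero, add_zero] at a0 a1 a2 a3
  push_cast at a0 a1 a2 a3
  exact ⟨⟨a0, a1⟩, a2, a3⟩

/-- coefficients -/
def gH5p11 (i : ℕ) : G4 :=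
  if i = 0 then ⟨704643072000000000000000000000, 0, 0, 0⟩ else
  if i = 2 then ⟨0, 65536000000000000000, 0, 0⟩ else
  if i = 3 then ⟨12288000000000000, 0, 0, 0⟩ else
  if i = 5 then ⟨0, 320000000, 0, 0⟩ else
  if i = 7 then ⟨21, 0, 0, 0⟩ else
  ⟨0, 0, 0, 0⟩

/-- configuration -/
def cH5p11 : Cfg := ⟨0, 0, 0, 6, 1, 1, 1, false, false, false,
  [⟨704643072000000000000000000000, 0, 0, 0⟩, ⟨0, 0, 0, 0⟩, ⟨0, 65536000000000000000, 0, 0⟩,
      ⟨12288000000000000, 0, 0, 0⟩, ⟨0, 0, 0, 0⟩, ⟨0, 320000000, 0, 0⟩, ⟨0, 0, 0, 0⟩, ⟨21, 0, 0,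
      0⟩]⟩

lemma rpH5p11 : Rp cH5p11.L (fun i => (gH5p11 i).v) := by
  have h : cH5p11.L = (List.range 8).map gH5p11 := by rfl
  rw [h]
  exact rp_map _ _

lemma evH5p11 (z : ℂ) : app (slots cH5p11 0 0 0 (16000 * z)) (fun i => (gH5p11 i).v) 0 =
      352321536000000000000000000000 * (z ^ 2 * (1 + (16 * z ^ 5 - 20 * z ^ 3 + 5 * z)) + 2 * (1 - z
          ^ 2)) := by
  rw [app_slots]
  simp only [cH5p11, Finset.sum_range_succ, Finset.sum_range_zero, Nat.reduceAdd, Nat.reduceMul,
    zero_add, add_zero, gH5p11, Nat.reduceEqDiff, if_true, if_false, v_zero, v_re, v_neg, v_im,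
        v_imn,
    v_pp, v_pm, v_mp, v_mm, mul_zero, mr_false, Nat.cast_zero, OfNat.ofNat_ne_zero,
    OfNat.ofNat_eq_ofNat, Nat.reduceEqDiff, Nat.cast_ofNat, pow_zero, mul_one, Nat.choose_self,
    Nat.choose_zero_right, Nat.cast_one, one_mul]
  simp only [Nat.choose, Nat.reduceAdd, pow_zero, pow_one, mul_one, one_mul, Nat.cast_one,
    Nat.cast_ofNat, mul_pow]
  ring

/-- tree -/
def TH5p11_0 : CT :=
  .cut2 false 13479 [(11520, 1120), (12800, 160), (13479, 160), (13479, 4000), (12800, 4000),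
      (11520, 3040)] [(13479, 160), (14132, 160), (14132, 4000), (13479, 4000)] (.rel2 [(12800,
      160), (13479, 160), (13479, 4000), (7679, 4000)] (.leaf ⟨1, 0, 2, 0⟩)) (.cut2 false 13968
      [(13479, 160), (13968, 160), (13968, 4000), (13479, 4000)] [(13968, 160), (14132, 160),
      (14132, 4000), (13968, 4000)] (.leaf ⟨1, 0, 2, 0⟩) (.cut2 true 2080 [(13968, 160), (14132,
      160), (14132, 2080), (13968, 2080)] [(14132, 2080), (14132, 4000), (13968, 4000), (13968,
      2080)] (.cut2 true 1600 [(13968, 160), (14132, 160), (14132, 1600), (13968, 1600)] [(14132,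
      1600), (14132, 2080), (13968, 2080), (13968, 1600)] (.leaf ⟨1, 0, 0, 0⟩) (.cut2 true 1960
      [(14132, 1600), (14132, 1960), (13968, 1960), (13968, 1600)] [(14132, 1960), (14132, 2080),
      (13968, 2080), (13968, 1960)] (.leaf ⟨2, 0, 5, 0⟩) (.leaf ⟨0, 0, 1, 0⟩))) (.leaf ⟨0, 1, 0,
      0⟩)))

theorem okH5p11_0 :
    chkT cH5p11 cH5p11 TH5p11_0 (0, 0) (0, 0) dum dum [(11520, 1120), (12800, 160), (14132, 160),
        (14132, 4000), (12800, 4000), (11520, 3040)] = true := by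
  decide +kernel

/-- tree -/
def TH5p11_1 : CT :=
  .cut2 true 2080 [(14135, 160), (15040, 160), (15280, 1760), (15155, 2080), (14135, 2080)] [(15155,
      2080), (14400, 4000), (14135, 4000), (14135, 2080)] (.cut2 true 1600 [(14135, 160), (15040,
      160), (15256, 1600), (14135, 1600)] [(15256, 1600), (15280, 1760), (15155, 2080), (14135,
      2080), (14135, 1600)] (.leaf ⟨1, 0, 0, 2⟩) (.cut2 false 14421 [(14421, 2080), (14135, 2080),
      (14135, 1600), (14421, 1600)] [(15256, 1600), (15280, 1760), (15155, 2080), (14421, 2080),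
      (14421, 1600)] (.cut2 false 14206 [(14206, 2080), (14135, 2080), (14135, 1600), (14206, 1600)]
      [(14421, 2080), (14206, 2080), (14206, 1600), (14421, 1600)] (.cut2 false 14152 [(14152,
      2080), (14135, 2080), (14135, 1600), (14152, 1600)] [(14206, 2080), (14152, 2080), (14152,
      1600), (14206, 1600)] (.cut2 true 1840 [(14135, 1840), (14135, 1600), (14152, 1600), (14152,
      1840)] [(14152, 2080), (14135, 2080), (14135, 1840), (14152, 1840)] (.cut2 true 1780 [(14135,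
      1780), (14135, 1600), (14152, 1600), (14152, 1780)] [(14135, 1840), (14135, 1780), (14152,
      1780), (14152, 1840)] (.leaf ⟨0, 7, 0, 19⟩) (.leaf ⟨0, 1, 0, 0⟩)) (.leaf ⟨0, 1, 0, 0⟩)) (.leaf
      ⟨0, 5, 0, 11⟩)) (.leaf ⟨0, 1, 0, 2⟩)) (.rel2 [(14421, 1600), (15343, 1599), (14421, 3958)]
      (.leaf ⟨0, 4, 0, 3⟩)))) (.rel2 [(14135, 2080), (15155, 2080), (14135, 4674)] (.leaf ⟨0, 1, 0,
      0⟩))

theorem okH5p11_1 :
    chkT cH5p11 cH5p11 TH5p11_1 (0, 0) (0, 0) dum dum [(14135, 160), (15040, 160), (15280, 1760),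
        (14400, 4000), (14135, 4000)] = true := by
  decide +kernel

/-- tree -/
def TH5p11_2 : CT :=
  .cut2 true 1359 [(11520, 1120), (12800, 160), (15040, 160), (15220, 1359), (11520, 1359)] [(15220,
      1359), (15280, 1759), (11520, 1759), (11520, 1359)] (.rel2 [(15040, 160), (15220, 1359),
      (11520, 1359), (11519, 159)] (.leaf ⟨1, 0, 0, 0⟩)) (.cut2 false 13400 [(13400, 1759), (11520,
      1759), (11520, 1359), (13400, 1359)] [(15220, 1359), (15280, 1759), (13400, 1759), (13400,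
      1359)] (.leaf ⟨1, 0, 0, 0⟩) (.cut2 true 1659 [(15220, 1359), (15265, 1659), (13400, 1659),
      (13400, 1359)] [(15265, 1659), (15280, 1759), (13400, 1759), (13400, 1659)] (.leaf ⟨7, 0, 0,
      4⟩) (.cut2 false 14340 [(14340, 1759), (13400, 1759), (13400, 1659), (14340, 1659)] [(15265,
      1659), (15280, 1759), (14340, 1759), (14340, 1659)] (.cut2 false 14105 [(14105, 1759), (13400,
      1759), (13400, 1659), (14105, 1659)] [(14340, 1759), (14105, 1759), (14105, 1659), (14340,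
      1659)] (.leaf ⟨1, 0, 0, 0⟩) (.leaf ⟨11, 0, 0, 5⟩)) (.leaf ⟨0, 0, 0, 1⟩))))

theorem okH5p11_2 :
    chkT cH5p11 cH5p11 TH5p11_2 (0, 0) (0, 0) dum dum [(11520, 1120), (12800, 160), (15040, 160),
        (15280, 1759), (11520, 1759)] = true := by
  decide +kernel

/-- tree -/
def TH5p11_3 : CT :=
  .cut2 false 13400 [(13400, 4000), (12800, 4000), (11520, 3040), (11520, 1762), (13400, 1762)]
      [(15280, 1762), (14400, 4000), (13400, 4000), (13400, 1762)] (.rel2 [(11520, 1762), (13400,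
      1762), (13400, 4000), (11519, 4000)] (.leaf ⟨0, 0, 1, 0⟩)) (.cut2 true 2321 [(15280, 1762),
      (15061, 2321), (13400, 2321), (13400, 1762)] [(15061, 2321), (14400, 4000), (13400, 4000),
      (13400, 2321)] (.cut2 false 14340 [(14340, 2321), (13400, 2321), (13400, 1762), (14340, 1762)]
      [(15280, 1762), (15061, 2321), (14340, 2321), (14340, 1762)] (.cut2 false 14105 [(14105,
      2321), (13400, 2321), (13400, 1762), (14105, 1762)] [(14340, 2321), (14105, 2321), (14105,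
      1762), (14340, 1762)] (.leaf ⟨0, 0, 1, 0⟩) (.cut2 false 14163 [(14163, 2321), (14105, 2321),
      (14105, 1762), (14163, 1762)] [(14340, 2321), (14163, 2321), (14163, 1762), (14340, 1762)]
      (.leaf ⟨0, 37, 15, 0⟩) (.leaf ⟨0, 1, 0, 0⟩))) (.rel2 [(14340, 1762), (15280, 1762), (14340,
      4162)] (.leaf ⟨0, 7, 0, 4⟩))) (.rel2 [(13400, 2321), (15061, 2321), (13400, 6541)] (.leaf ⟨0,
      4, 3, 0⟩)))

theorem okH5p11_3 :
    chkT cH5p11 cH5p11 TH5p11_3 (0, 0) (0, 0) dum dum [(15280, 1762), (14400, 4000), (12800, 4000),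
        (11520, 3040), (11520, 1762)] = true := by
  decide +kernel

theorem stH5p11 {z : ℂ} (hz : z ∈ Poly (vt .t5)) (h : z ^ 2 * (1 + (16 * z ^ 5 - 20 * z ^ 3 + 5 *
    z)) + 2 * (1 - z ^ 2) = 0) :
    (14132 < 16000 * z.re ∧ 16000 * z.re < 14135) ∧ 1759 < 16000 * z.im ∧ 16000 * z.im < 1762 := by
  have h0 : app (slots cH5p11 0 0 0 (16000 * z)) (fun i => (gH5p11 i).v) 0 = 0 := by
    rw [evH5p11, h, mul_zero]
  have hZ := rgK5 hz
  have hs : shp nK5 = true := by decide +kernel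
  have a0 := half_use rpH5p11 hs (ax := false) (up := true) (m := 14132) (by decide +kernel)
      okH5p11_0 hZ h0
  have a1 := half_use rpH5p11 hs (ax := false) (up := false) (m := 14135) (by decide +kernel)
      okH5p11_1 hZ h0
  have a2 := half_use rpH5p11 hs (ax := true) (up := true) (m := 1759) (by decide +kernel) okH5p11_2
      hZ h0
  have a3 := half_use rpH5p11 hs (ax := true) (up := false) (m := 1762) (by decide +kernel)
      okH5p11_3 hZ h0
  simp only [HP, not_le, Complex.mul_re, Complex.mul_im, Complex.re_ofNat, Complex.im_ofNat,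
    zero_mul, sub_zero, add_zero] at a0 a1 a2 a3
  push_cast at a0 a1 a2 a3
  exact ⟨⟨a0, a1⟩, a2, a3⟩

/-- coefficients -/
def gH5p1k (i : ℕ) : G4 :=
  if i = 0 then ⟨379492572856320000000000000000000000000000, 0,
      162349763788800000000000000000000000000000, 0⟩ else
  if i = 1 then ⟨0, 12683575296000000000000000000000000000, 0,
      6764573491200000000000000000000000000⟩ else
  if i = 2 then ⟨23488102400000000000000000000000, 0, 0, 0⟩ else
  if i = 3 then ⟨16515072000000000000000000000, 0, 8808038400000000000000000000, 0⟩ else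
  if i = 4 then ⟨0, 471859200000000000000000, 0, 0⟩ else
  if i = 5 then ⟨0, 24576000000000000000, 0, 13107200000000000000⟩ else
  if i = 6 then ⟨13516800000000000, 0, 0, 0⟩ else
  if i = 8 then ⟨0, 537600000, 0, 0⟩ else
  if i = 10 then ⟨63, 0, 0, 0⟩ else
  ⟨0, 0, 0, 0⟩

/-- configuration -/
def cH5p1k : Cfg := ⟨0, 0, 0, 9, 1, 1, 1, false, false, false,
  [⟨379492572856320000000000000000000000000000, 0, 162349763788800000000000000000000000000000, 0⟩,
      ⟨0, 12683575296000000000000000000000000000, 0, 6764573491200000000000000000000000000⟩,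
      ⟨23488102400000000000000000000000, 0, 0, 0⟩, ⟨16515072000000000000000000000, 0,
      8808038400000000000000000000, 0⟩, ⟨0, 471859200000000000000000, 0, 0⟩, ⟨0,
      24576000000000000000, 0, 13107200000000000000⟩, ⟨13516800000000000, 0, 0, 0⟩, ⟨0, 0, 0, 0⟩,
      ⟨0, 537600000, 0, 0⟩, ⟨0, 0, 0, 0⟩, ⟨63, 0, 0, 0⟩]⟩

lemma rpH5p1k : Rp cH5p1k.L (fun i => (gH5p1k i).v) := by
  have h : cH5p1k.L = (List.range 11).map gH5p1k := by rfl
  rw [h]
  exact rp_map _ _

lemma evH5p1k (z : ℂ) : app (slots cH5p1k 0 0 0 (16000 * z)) (fun i => (gH5p1k i).v) 0 =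
      676457349120000000000000000000000000000 * (561 + 240 * Complex.I - (600 + 320 * Complex.I) *
          (16 * z ^ 5 - 20 * z ^ 3 + 5 * z) + 400 * (z * (16 * z ^ 4 - 12 * z ^ 2 + 1)) ^ 2) := by
  rw [app_slots]
  simp only [cH5p1k, Finset.sum_range_succ, Finset.sum_range_zero, Nat.reduceAdd, Nat.reduceMul,
    zero_add, add_zero, gH5p1k, Nat.reduceEqDiff, if_true, if_false, v_zero, v_re, v_neg, v_im,
        v_imn,
    v_pp, v_pm, v_mp, v_mm, mul_zero, mr_false, Nat.cast_zero, OfNat.ofNat_ne_zero,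
    OfNat.ofNat_eq_ofNat, Nat.reduceEqDiff, Nat.cast_ofNat, pow_zero, mul_one, Nat.choose_self,
    Nat.choose_zero_right, Nat.cast_one, one_mul]
  simp only [Nat.choose, Nat.reduceAdd, pow_zero, pow_one, mul_one, one_mul, Nat.cast_one,
    Nat.cast_ofNat, mul_pow]
  ring

/-- tree -/
def TH5p1k_0 : CT :=
  .cut2 false 13206 [(11520, 1120), (12800, 160), (13206, 160), (13206, 4000), (12800, 4000),
      (11520, 3040)] [(13206, 160), (13768, 160), (13768, 4000), (13206, 4000)] (.rel2 [(11519,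
      159), (13206, 160), (13206, 4000), (11519, 4000)] (.leaf ⟨1, 0, 0, 0⟩)) (.cut2 true 2080
      [(13206, 160), (13768, 160), (13768, 2080), (13206, 2080)] [(13768, 2080), (13768, 4000),
      (13206, 4000), (13206, 2080)] (.cut2 true 1600 [(13206, 160), (13768, 160), (13768, 1600),
      (13206, 1600)] [(13768, 1600), (13768, 2080), (13206, 2080), (13206, 1600)] (.leaf ⟨1, 0, 0,
      0⟩) (.cut2 true 1720 [(13768, 1600), (13768, 1720), (13206, 1720), (13206, 1600)] [(13768,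
      1720), (13768, 2080), (13206, 2080), (13206, 1720)] (.leaf ⟨1, 0, 0, 0⟩) (.leaf ⟨76, 0, 25,
      0⟩))) (.leaf ⟨0, 0, 1, 0⟩))

theorem okH5p1k_0 :
    chkT cH5p1k cH5p1k TH5p1k_0 (0, 0) (0, 0) dum dum [(11520, 1120), (12800, 160), (13768, 160),
        (13768, 4000), (12800, 4000), (11520, 3040)] = true := by
  decide +kernel

/-- tree -/
def TH5p1k_1 : CT :=
  .cut2 true 2080 [(13771, 160), (15040, 160), (15280, 1760), (15155, 2080), (13771, 2080)] [(15155,
      2080), (14400, 4000), (13771, 4000), (13771, 2080)] (.cut2 true 1600 [(13771, 160), (15040,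
      160), (15256, 1600), (13771, 1600)] [(15256, 1600), (15280, 1760), (15155, 2080), (13771,
      2080), (13771, 1600)] (.leaf ⟨0, 0, 0, 1⟩) (.cut2 true 1960 [(15256, 1600), (15280, 1760),
      (15202, 1960), (13771, 1960), (13771, 1600)] [(15202, 1960), (15155, 2080), (13771, 2080),
      (13771, 1960)] (.rel2 [(15202, 1960), (13771, 1960), (13771, 1600), (15343, 1599)] (.leaf ⟨0,
      0, 0, 1⟩)) (.cut2 true 1990 [(15202, 1960), (15191, 1990), (13771, 1990), (13771, 1960)]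
      [(15191, 1990), (15155, 2080), (13771, 2080), (13771, 1990)] (.leaf ⟨0, 0, 0, 1⟩) (.leaf ⟨0,
      19, 0, 6⟩)))) (.leaf ⟨0, 4, 3, 0⟩)

theorem okH5p1k_1 :
    chkT cH5p1k cH5p1k TH5p1k_1 (0, 0) (0, 0) dum dum [(13771, 160), (15040, 160), (15280, 1760),
        (14400, 4000), (13771, 4000)] = true := by
  decide +kernel

/-- tree -/
def TH5p1k_2 : CT :=
  .cut2 true 1543 [(11520, 1120), (12800, 160), (15040, 160), (15248, 1543), (11520, 1543)] [(15248,
      1543), (15280, 1760), (15184, 2005), (11520, 2005), (11520, 1543)] (.rel2 [(15040, 160),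
      (15248, 1543), (11520, 1543), (11519, 159)] (.leaf ⟨1, 0, 0, 2⟩)) (.cut2 false 13400 [(13400,
      2005), (11520, 2005), (11520, 1543), (13400, 1543)] [(15248, 1543), (15280, 1760), (15184,
      2005), (13400, 2005), (13400, 1543)] (.leaf ⟨1, 0, 0, 0⟩) (.cut2 false 13870 [(13870, 2005),
      (13400, 2005), (13400, 1543), (13870, 1543)] [(15248, 1543), (15280, 1760), (15184, 2005),
      (13870, 2005), (13870, 1543)] (.cut2 false 13517 [(13517, 2005), (13400, 2005), (13400, 1543),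
      (13517, 1543)] [(13870, 2005), (13517, 2005), (13517, 1543), (13870, 1543)] (.leaf ⟨1, 0, 0,
      0⟩) (.leaf ⟨4, 0, 0, 11⟩)) (.rel2 [(15184, 2005), (13870, 2005), (13870, 1543), (15366, 1542)]
      (.leaf ⟨0, 0, 0, 1⟩))))

theorem okH5p1k_2 :
    chkT cH5p1k cH5p1k TH5p1k_2 (0, 0) (0, 0) dum dum [(11520, 1120), (12800, 160), (15040, 160),
        (15280, 1760), (15184, 2005), (11520, 2005)] = true := by
  decide +kernel

/-- tree -/
def TH5p1k_3 : CT :=
  .cut2 false 13351 [(13351, 4000), (12800, 4000), (11520, 3040), (11520, 2008), (13351, 2008)]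
      [(15183, 2008), (14400, 4000), (13351, 4000), (13351, 2008)] (.rel2 [(13351, 2008), (13351,
      4414), (10143, 2007)] (.leaf ⟨1, 0, 0, 0⟩)) (.cut2 true 2506 [(15183, 2008), (14988, 2506),
      (13351, 2506), (13351, 2008)] [(14988, 2506), (14400, 4000), (13351, 4000), (13351, 2506)]
      (.cut2 false 13809 [(13809, 2506), (13351, 2506), (13351, 2008), (13809, 2008)] [(15183,
      2008), (14988, 2506), (13809, 2506), (13809, 2008)] (.cut2 false 13694 [(13694, 2506), (13351,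
      2506), (13351, 2008), (13694, 2008)] [(13809, 2506), (13694, 2506), (13694, 2008), (13809,
      2008)] (.leaf ⟨1, 0, 2, 0⟩) (.leaf ⟨0, 1, 3, 0⟩)) (.leaf ⟨0, 1, 0, 0⟩)) (.leaf ⟨0, 1, 2, 0⟩))

theorem okH5p1k_3 :
    chkT cH5p1k cH5p1k TH5p1k_3 (0, 0) (0, 0) dum dum [(15183, 2008), (14400, 4000), (12800, 4000),
        (11520, 3040), (11520, 2008)] = true := by
  decide +kernel

theorem stH5p1k {z : ℂ} (hz : z ∈ Poly (vt .t5)) (h : 561 + 240 * Complex.I - (600 + 320 *
    Complex.I) * (16 * z ^ 5 - 20 * z ^ 3 + 5 * z) + 400 * (z * (16 * z ^ 4 - 12 * z ^ 2 + 1)) ^ 2 =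
    0) :
    (13768 < 16000 * z.re ∧ 16000 * z.re < 13771) ∧ 2005 < 16000 * z.im ∧ 16000 * z.im < 2008 := by
  have h0 : app (slots cH5p1k 0 0 0 (16000 * z)) (fun i => (gH5p1k i).v) 0 = 0 := by
    rw [evH5p1k, h, mul_zero]
  have hZ := rgK5 hz
  have hs : shp nK5 = true := by decide +kernel
  have a0 := half_use rpH5p1k hs (ax := false) (up := true) (m := 13768) (by decide +kernel)
      okH5p1k_0 hZ h0
  have a1 := half_use rpH5p1k hs (ax := false) (up := false) (m := 13771) (by decide +kernel)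
      okH5p1k_1 hZ h0
  have a2 := half_use rpH5p1k hs (ax := true) (up := true) (m := 2005) (by decide +kernel) okH5p1k_2
      hZ h0
  have a3 := half_use rpH5p1k hs (ax := true) (up := false) (m := 2008) (by decide +kernel)
      okH5p1k_3 hZ h0
  simp only [HP, not_le, Complex.mul_re, Complex.mul_im, Complex.re_ofNat, Complex.im_ofNat,
    zero_mul, sub_zero, add_zero] at a0 a1 a2 a3
  push_cast at a0 a1 a2 a3
  exact ⟨⟨a0, a1⟩, a2, a3⟩

/-- coefficients -/
def gH5pkk (i : ℕ) : G4 :=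
  if i = 0 then ⟨283618836480000000000000000000, 0, 422785843200000000000000000000, 0⟩ else
  if i = 2 then ⟨12779520000000000000, 0, 0, 78643200000000000000⟩ else
  if i = 3 then ⟨12288000000000000, 0, 0, 0⟩ else
  if i = 5 then ⟨0, 320000000, 0, 0⟩ else
  if i = 7 then ⟨21, 0, 0, 0⟩ else
  ⟨0, 0, 0, 0⟩

/-- configuration -/
def cH5pkk : Cfg := ⟨0, 0, 0, 6, 1, 1, 1, false, false, false,
  [⟨283618836480000000000000000000, 0, 422785843200000000000000000000, 0⟩, ⟨0, 0, 0, 0⟩,
      ⟨12779520000000000000, 0, 0, 78643200000000000000⟩, ⟨12288000000000000, 0, 0, 0⟩, ⟨0, 0, 0,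
      0⟩, ⟨0, 320000000, 0, 0⟩, ⟨0, 0, 0, 0⟩, ⟨21, 0, 0, 0⟩]⟩

lemma rpH5pkk : Rp cH5pkk.L (fun i => (gH5pkk i).v) := by
  have h : cH5pkk.L = (List.range 8).map gH5pkk := by rfl
  rw [h]
  exact rp_map _ _

lemma evH5pkk (z : ℂ) : app (slots cH5pkk 0 0 0 (16000 * z)) (fun i => (gH5pkk i).v) 0 =
      1761607680000000000000000000 * (200 * (z ^ 2 * (1 + (16 * z ^ 5 - 20 * z ^ 3 + 5 * z))) + (161
          + 240 * Complex.I) * (1 - z ^ 2)) := by
  rw [app_slots]
  simp only [cH5pkk, Finset.sum_range_succ, Finset.sum_range_zero, Nat.reduceAdd, Nat.reduceMul,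
    zero_add, add_zero, gH5pkk, Nat.reduceEqDiff, if_true, if_false, v_zero, v_re, v_neg, v_im,
        v_imn,
    v_pp, v_pm, v_mp, v_mm, mul_zero, mr_false, Nat.cast_zero, OfNat.ofNat_ne_zero,
    OfNat.ofNat_eq_ofNat, Nat.reduceEqDiff, Nat.cast_ofNat, pow_zero, mul_one, Nat.choose_self,
    Nat.choose_zero_right, Nat.cast_one, one_mul]
  simp only [Nat.choose, Nat.reduceAdd, pow_zero, pow_one, mul_one, one_mul, Nat.cast_one,
    Nat.cast_ofNat, mul_pow]
  ring

/-- tree -/
def TH5pkk_0 : CT :=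
  .cut2 false 12864 [(11520, 1120), (12800, 160), (12864, 160), (12864, 4000), (12800, 4000),
      (11520, 3040)] [(12864, 160), (13313, 160), (13313, 4000), (12864, 4000)] (.rel2 [(11519,
      159), (12864, 160), (12864, 4000), (11519, 4000)] (.leaf ⟨1, 0, 0, 0⟩)) (.cut2 false 13200
      [(12864, 160), (13200, 160), (13200, 4000), (12864, 4000)] [(13200, 160), (13313, 160),
      (13313, 4000), (13200, 4000)] (.leaf ⟨7, 0, 4, 0⟩) (.cut2 true 2080 [(13200, 160), (13313,
      160), (13313, 2080), (13200, 2080)] [(13313, 2080), (13313, 4000), (13200, 4000), (13200,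
      2080)] (.leaf ⟨0, 0, 0, 1⟩) (.cut2 true 2560 [(13313, 2080), (13313, 2560), (13200, 2560),
      (13200, 2080)] [(13313, 2560), (13313, 4000), (13200, 4000), (13200, 2560)] (.cut2 true 2440
      [(13313, 2080), (13313, 2440), (13200, 2440), (13200, 2080)] [(13313, 2440), (13313, 2560),
      (13200, 2560), (13200, 2440)] (.leaf ⟨7, 0, 4, 0⟩) (.leaf ⟨0, 0, 1, 0⟩)) (.leaf ⟨0, 0, 1,
      0⟩))))

theorem okH5pkk_0 :
    chkT cH5pkk cH5pkk TH5pkk_0 (0, 0) (0, 0) dum dum [(11520, 1120), (12800, 160), (13313, 160),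
        (13313, 4000), (12800, 4000), (11520, 3040)] = true := by
  decide +kernel

/-- tree -/
def TH5pkk_1 : CT :=
  .cut2 true 2080 [(13316, 160), (15040, 160), (15280, 1760), (15155, 2080), (13316, 2080)] [(15155,
      2080), (14400, 4000), (13316, 4000), (13316, 2080)] (.rel2 [(13316, 2080), (13316, 160),
      (15040, 160), (15328, 2080)] (.leaf ⟨0, 0, 0, 1⟩)) (.cut2 true 2560 [(15155, 2080), (14967,
      2560), (13316, 2560), (13316, 2080)] [(14967, 2560), (14400, 4000), (13316, 4000), (13316,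
      2560)] (.cut2 true 2320 [(15155, 2080), (15061, 2320), (13316, 2320), (13316, 2080)] [(15061,
      2320), (14967, 2560), (13316, 2560), (13316, 2320)] (.leaf ⟨0, 34, 0, 21⟩) (.rel2 [(13316,
      2320), (15061, 2320), (13316, 6776)] (.leaf ⟨0, 11, 5, 0⟩))) (.rel2 [(13316, 2560), (14967,
      2560), (13316, 6754)] (.leaf ⟨0, 4, 3, 0⟩)))

theorem okH5pkk_1 :
    chkT cH5pkk cH5pkk TH5pkk_1 (0, 0) (0, 0) dum dum [(13316, 160), (15040, 160), (15280, 1760),
        (14400, 4000), (13316, 4000)] = true := by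
  decide +kernel

/-- tree -/
def TH5pkk_2 : CT :=
  .cut2 true 1761 [(11520, 1120), (12800, 160), (15040, 160), (15280, 1760), (15280, 1761), (11520,
      1761)] [(15280, 1761), (15070, 2295), (11520, 2295), (11520, 1761)] (.rel2 [(15280, 1761),
      (11520, 1761), (11519, 159), (15280, 159)] (.leaf ⟨1, 0, 0, 2⟩)) (.cut2 false 13400 [(13400,
      2295), (11520, 2295), (11520, 1761), (13400, 1761)] [(15280, 1761), (15070, 2295), (13400,
      2295), (13400, 1761)] (.cut2 false 12930 [(12930, 2295), (11520, 2295), (11520, 1761), (12930,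
      1761)] [(13400, 2295), (12930, 2295), (12930, 1761), (13400, 1761)] (.leaf ⟨1, 0, 0, 0⟩)
      (.leaf ⟨4, 0, 0, 7⟩)) (.leaf ⟨0, 0, 0, 1⟩))

theorem okH5pkk_2 :
    chkT cH5pkk cH5pkk TH5pkk_2 (0, 0) (0, 0) dum dum [(11520, 1120), (12800, 160), (15040, 160),
        (15280, 1760), (15070, 2295), (11520, 2295)] = true := by
  decide +kernel

/-- tree -/
def TH5pkk_3 : CT :=
  .cut2 false 13294 [(13294, 4000), (12800, 4000), (11520, 3040), (11520, 2298), (13294, 2298)]
      [(15069, 2298), (14400, 4000), (13294, 4000), (13294, 2298)] (.rel2 [(11520, 2298), (13294,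
      2298), (13294, 4000), (11519, 4000)] (.leaf ⟨1, 0, 2, 0⟩)) (.cut2 false 13737 [(13737, 4000),
      (13294, 4000), (13294, 2298), (13737, 2298)] [(15069, 2298), (14400, 4000), (13737, 4000),
      (13737, 2298)] (.cut2 false 13404 [(13404, 4000), (13294, 4000), (13294, 2298), (13404, 2298)]
      [(13737, 4000), (13404, 4000), (13404, 2298), (13737, 2298)] (.leaf ⟨0, 6, 10, 0⟩) (.leaf ⟨0,
      1, 0, 0⟩)) (.rel2 [(13737, 2298), (15069, 2298), (13737, 5687)] (.leaf ⟨0, 19, 6, 0⟩)))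

theorem okH5pkk_3 :
    chkT cH5pkk cH5pkk TH5pkk_3 (0, 0) (0, 0) dum dum [(15069, 2298), (14400, 4000), (12800, 4000),
        (11520, 3040), (11520, 2298)] = true := by
  decide +kernel

theorem stH5pkk {z : ℂ} (hz : z ∈ Poly (vt .t5)) (h : 200 * (z ^ 2 * (1 + (16 * z ^ 5 - 20 * z ^ 3 +
    5 * z))) + (161 + 240 * Complex.I) * (1 - z ^ 2) = 0) :
    (13313 < 16000 * z.re ∧ 16000 * z.re < 13316) ∧ 2295 < 16000 * z.im ∧ 16000 * z.im < 2298 := by
  have h0 : app (slots cH5pkk 0 0 0 (16000 * z)) (fun i => (gH5pkk i).v) 0 = 0 := by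
    rw [evH5pkk, h, mul_zero]
  have hZ := rgK5 hz
  have hs : shp nK5 = true := by decide +kernel
  have a0 := half_use rpH5pkk hs (ax := false) (up := true) (m := 13313) (by decide +kernel)
      okH5pkk_0 hZ h0
  have a1 := half_use rpH5pkk hs (ax := false) (up := false) (m := 13316) (by decide +kernel)
      okH5pkk_1 hZ h0
  have a2 := half_use rpH5pkk hs (ax := true) (up := true) (m := 2295) (by decide +kernel) okH5pkk_2
      hZ h0
  have a3 := half_use rpH5pkk hs (ax := true) (up := false) (m := 2298) (by decide +kernel)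
      okH5pkk_3 hZ h0
  simp only [HP, not_le, Complex.mul_re, Complex.mul_im, Complex.re_ofNat, Complex.im_ofNat,
    zero_mul, sub_zero, add_zero] at a0 a1 a2 a3
  push_cast at a0 a1 a2 a3
  exact ⟨⟨a0, a1⟩, a2, a3⟩

/-- coefficients -/
def gH6o1 (i : ℕ) : G4 :=
  if i = 0 then ⟨1572864000000000000000000, 0, 0, 0⟩ else
  if i = 2 then ⟨0, 0, 2457600000000000, 0⟩ else
  if i = 4 then ⟨0, 0, 0, 51200000⟩ else
  if i = 6 then ⟨0, 0, 3, 0⟩ else
  ⟨0, 0, 0, 0⟩

/-- configuration -/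
def cH6o1 : Cfg := ⟨0, 0, 0, 5, 1, 1, 1, false, false, false,
  [⟨1572864000000000000000000, 0, 0, 0⟩, ⟨0, 0, 0, 0⟩, ⟨0, 0, 2457600000000000, 0⟩, ⟨0, 0, 0, 0⟩,
      ⟨0, 0, 0, 51200000⟩, ⟨0, 0, 0, 0⟩, ⟨0, 0, 3, 0⟩]⟩

lemma rpH6o1 : Rp cH6o1.L (fun i => (gH6o1 i).v) := by
  have h : cH6o1.L = (List.range 7).map gH6o1 := by rfl
  rw [h]
  exact rp_map _ _

lemma evH6o1 (z : ℂ) : app (slots cH6o1 0 0 0 (16000 * z)) (fun i => (gH6o1 i).v) 0 =
      1572864000000000000000000 * (1 + Complex.I * z * (32 * z ^ 5 - 32 * z ^ 3 + 6 * z)) := by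
  rw [app_slots]
  simp only [cH6o1, Finset.sum_range_succ, Finset.sum_range_zero, Nat.reduceAdd, Nat.reduceMul,
    zero_add, add_zero, gH6o1, Nat.reduceEqDiff, if_true, if_false, v_zero, v_re, v_neg, v_im,
        v_imn,
    v_pp, v_pm, v_mp, v_mm, mul_zero, mr_false, Nat.cast_zero, OfNat.ofNat_ne_zero,
    OfNat.ofNat_eq_ofNat, Nat.reduceEqDiff, Nat.cast_ofNat, pow_zero, mul_one, Nat.choose_self,
    Nat.choose_zero_right, Nat.cast_one, one_mul]
  simp only [Nat.choose, Nat.reduceAdd, pow_zero, pow_one, mul_one, one_mul, Nat.cast_one,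
    Nat.cast_ofNat, mul_pow]
  ring

/-- tree -/
def TH6o1_0 : CT :=
  .cut2 true 848 [(12640, 720), (13600, 64), (14041, 64), (14041, 848), (12640, 848)] [(14041, 848),
      (14041, 3200), (13280, 3200), (12640, 2400), (12640, 848)] (.cut2 true 652 [(12739, 652),
      (13600, 64), (14041, 64), (14041, 652)] [(12640, 720), (12739, 652), (14041, 652), (14041,
      848), (12640, 848)] (.leaf ⟨1, 0, 0, 0⟩) (.rel2 [(14041, 652), (14041, 848), (12640, 848),
      (12639, 651)] (.leaf ⟨1, 0, 2, 0⟩))) (.rel2 [(14041, 848), (14041, 4152), (11397, 847)] (.leaf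
      ⟨0, 0, 1, 0⟩))

theorem okH6o1_0 :
    chkT cH6o1 cH6o1 TH6o1_0 (0, 0) (0, 0) dum dum [(12640, 720), (13600, 64), (14041, 64), (14041,
        3200), (13280, 3200), (12640, 2400)] = true := by
  decide +kernel

/-- tree -/
def TH6o1_1 : CT :=
  .cut2 true 848 [(14044, 64), (15360, 64), (15388, 848), (14044, 848)] [(15388, 848), (15408,
      1440), (14720, 3200), (14044, 3200), (14044, 848)] (.cut2 true 652 [(14044, 64), (15360, 64),
      (15381, 652), (14044, 652)] [(15381, 652), (15388, 848), (14044, 848), (14044, 652)] (.leaf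
      ⟨0, 0, 0, 1⟩) (.cut2 true 701 [(15381, 652), (15383, 701), (14044, 701), (14044, 652)]
      [(15383, 701), (15388, 848), (14044, 848), (14044, 701)] (.leaf ⟨0, 1, 0, 2⟩) (.leaf ⟨0, 1, 0,
      0⟩))) (.rel2 [(14044, 3200), (14044, 848), (15388, 848), (15468, 3200)] (.leaf ⟨0, 1, 0, 0⟩))

theorem okH6o1_1 :
    chkT cH6o1 cH6o1 TH6o1_1 (0, 0) (0, 0) dum dum [(14044, 64), (15360, 64), (15408, 1440), (14720,
        3200), (14044, 3200)] = true := by
  decide +kernel

/-- tree -/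
def TH6o1_2 : CT :=
  .cut2 false 14038 [(12695, 682), (13600, 64), (14038, 64), (14038, 682)] [(14038, 64), (15360,
      64), (15382, 682), (14038, 682)] (.leaf ⟨1, 0, 0, 0⟩) (.leaf ⟨2, 0, 0, 2⟩)

theorem okH6o1_2 :
    chkT cH6o1 cH6o1 TH6o1_2 (0, 0) (0, 0) dum dum [(12695, 682), (13600, 64), (15360, 64), (15382,
        682)] = true := by
  decide +kernel

/-- tree -/
def TH6o1_3 : CT :=
  .cut2 true 1313 [(12640, 720), (12691, 685), (15382, 685), (15404, 1313), (12640, 1313)] [(15404,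
      1313), (15408, 1440), (14720, 3200), (13280, 3200), (12640, 2400), (12640, 1313)] (.cut2 false
      14022 [(12640, 720), (12691, 685), (14022, 685), (14022, 1313), (12640, 1313)] [(14022, 685),
      (15382, 685), (15404, 1313), (14022, 1313)] (.rel2 [(14022, 685), (14022, 1313), (12640,
      1313), (12639, 684)] (.leaf ⟨0, 0, 1, 0⟩)) (.cut2 false 14367 [(14022, 685), (14367, 685),
      (14367, 1313), (14022, 1313)] [(14367, 685), (15382, 685), (15404, 1313), (14367, 1313)]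
      (.leaf ⟨0, 18, 9, 0⟩) (.leaf ⟨0, 1, 0, 0⟩))) (.rel2 [(15404, 1313), (15555, 6044), (11769,
      1312)] (.leaf ⟨0, 2, 2, 0⟩))

theorem okH6o1_3 :
    chkT cH6o1 cH6o1 TH6o1_3 (0, 0) (0, 0) dum dum [(12640, 720), (12691, 685), (15382, 685),
        (15408, 1440), (14720, 3200), (13280, 3200), (12640, 2400)] = true := by
  decide +kernel

theorem stH6o1 {z : ℂ} (hz : z ∈ Poly (vt .t6)) (h : 1 + Complex.I * z * (32 * z ^ 5 - 32 * z ^ 3 +
    6 * z) = 0) :
    (14041 < 16000 * z.re ∧ 16000 * z.re < 14044) ∧ 682 < 16000 * z.im ∧ 16000 * z.im < 685 := by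
  have h0 : app (slots cH6o1 0 0 0 (16000 * z)) (fun i => (gH6o1 i).v) 0 = 0 := by
    rw [evH6o1, h, mul_zero]
  have hZ := rgK6 hz
  have hs : shp nK6 = true := by decide +kernel
  have a0 := half_use rpH6o1 hs (ax := false) (up := true) (m := 14041) (by decide +kernel) okH6o1_0
      hZ h0
  have a1 := half_use rpH6o1 hs (ax := false) (up := false) (m := 14044) (by decide +kernel)
      okH6o1_1 hZ h0
  have a2 := half_use rpH6o1 hs (ax := true) (up := true) (m := 682) (by decide +kernel) okH6o1_2 hZ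
      h0
  have a3 := half_use rpH6o1 hs (ax := true) (up := false) (m := 685) (by decide +kernel) okH6o1_3
      hZ h0
  simp only [HP, not_le, Complex.mul_re, Complex.mul_im, Complex.re_ofNat, Complex.im_ofNat,
    zero_mul, sub_zero, add_zero] at a0 a1 a2 a3
  push_cast at a0 a1 a2 a3
  exact ⟨⟨a0, a1⟩, a2, a3⟩

/-- coefficients -/
def gH6ok (i : ℕ) : G4 :=
  if i = 0 then ⟨1179648000000000000000000, 0, 629145600000000000000000, 0⟩ else
  if i = 2 then ⟨0, 0, 2457600000000000, 0⟩ else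
  if i = 4 then ⟨0, 0, 0, 51200000⟩ else
  if i = 6 then ⟨0, 0, 3, 0⟩ else
  ⟨0, 0, 0, 0⟩

/-- configuration -/
def cH6ok : Cfg := ⟨0, 0, 0, 5, 1, 1, 1, false, false, false,
  [⟨1179648000000000000000000, 0, 629145600000000000000000, 0⟩, ⟨0, 0, 0, 0⟩, ⟨0, 0,
      2457600000000000, 0⟩, ⟨0, 0, 0, 0⟩, ⟨0, 0, 0, 51200000⟩, ⟨0, 0, 0, 0⟩, ⟨0, 0, 3, 0⟩]⟩

lemma rpH6ok : Rp cH6ok.L (fun i => (gH6ok i).v) := by
  have h : cH6ok.L = (List.range 7).map gH6ok := by rfl
  rw [h]
  exact rp_map _ _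

lemma evH6ok (z : ℂ) : app (slots cH6ok 0 0 0 (16000 * z)) (fun i => (gH6ok i).v) 0 =
      78643200000000000000000 * (15 + 8 * Complex.I + 20 * (Complex.I * z * (32 * z ^ 5 - 32 * z ^ 3
          + 6 * z))) := by
  rw [app_slots]
  simp only [cH6ok, Finset.sum_range_succ, Finset.sum_range_zero, Nat.reduceAdd, Nat.reduceMul,
    zero_add, add_zero, gH6ok, Nat.reduceEqDiff, if_true, if_false, v_zero, v_re, v_neg, v_im,
        v_imn,
    v_pp, v_pm, v_mp, v_mm, mul_zero, mr_false, Nat.cast_zero, OfNat.ofNat_ne_zero,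
    OfNat.ofNat_eq_ofNat, Nat.reduceEqDiff, Nat.cast_ofNat, pow_zero, mul_one, Nat.choose_self,
    Nat.choose_zero_right, Nat.cast_one, one_mul]
  simp only [Nat.choose, Nat.reduceAdd, pow_zero, pow_one, mul_one, one_mul, Nat.cast_one,
    Nat.cast_ofNat, mul_pow]
  ring

/-- tree -/
def TH6ok_0 : CT :=
  .cut2 true 848 [(12640, 720), (13600, 64), (13705, 64), (13705, 848), (12640, 848)] [(13705, 848),
      (13705, 3200), (13280, 3200), (12640, 2400), (12640, 848)] (.cut2 true 652 [(12739, 652),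
      (13600, 64), (13705, 64), (13705, 652)] [(12640, 720), (12739, 652), (13705, 652), (13705,
      848), (12640, 848)] (.leaf ⟨1, 0, 0, 0⟩) (.rel2 [(13705, 652), (13705, 848), (12640, 848),
      (12639, 651)] (.leaf ⟨4, 0, 7, 0⟩))) (.rel2 [(13705, 848), (13705, 3732), (11398, 847)] (.leaf
      ⟨0, 0, 1, 0⟩))

theorem okH6ok_0 :
    chkT cH6ok cH6ok TH6ok_0 (0, 0) (0, 0) dum dum [(12640, 720), (13600, 64), (13705, 64), (13705,
        3200), (13280, 3200), (12640, 2400)] = true := by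
  decide +kernel

/-- tree -/
def TH6ok_1 : CT :=
  .cut2 true 848 [(13708, 64), (15360, 64), (15388, 848), (13708, 848)] [(15388, 848), (15408,
      1440), (14720, 3200), (13708, 3200), (13708, 848)] (.cut2 true 652 [(13708, 64), (15360, 64),
      (15381, 652), (13708, 652)] [(15381, 652), (15388, 848), (13708, 848), (13708, 652)] (.leaf
      ⟨0, 0, 0, 1⟩) (.cut2 true 799 [(15381, 652), (15387, 799), (13708, 799), (13708, 652)]
      [(15387, 799), (15388, 848), (13708, 848), (13708, 799)] (.leaf ⟨0, 7, 0, 10⟩) (.leaf ⟨0, 1,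
      0, 0⟩))) (.rel2 [(13708, 3200), (13708, 848), (15388, 848), (15468, 3200)] (.leaf ⟨0, 1, 0,
      0⟩))

theorem okH6ok_1 :
    chkT cH6ok cH6ok TH6ok_1 (0, 0) (0, 0) dum dum [(13708, 64), (15360, 64), (15408, 1440), (14720,
        3200), (13708, 3200)] = true := by
  decide +kernel

/-- tree -/
def TH6ok_2 : CT :=
  .cut2 true 518 [(12935, 518), (13600, 64), (15360, 64), (15377, 518)] [(12713, 670), (12935, 518),
      (15377, 518), (15382, 670)] (.leaf ⟨4, 0, 0, 3⟩) (.cut2 true 632 [(12768, 632), (12935, 518),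
      (15377, 518), (15381, 632)] [(12713, 670), (12768, 632), (15381, 632), (15382, 670)] (.leaf
      ⟨7, 0, 0, 4⟩) (.cut2 false 14047 [(12713, 670), (12768, 632), (14047, 632), (14047, 670)]
      [(14047, 632), (15381, 632), (15382, 670), (14047, 670)] (.cut2 false 13713 [(12713, 670),
      (12768, 632), (13713, 632), (13713, 670)] [(13713, 632), (14047, 632), (14047, 670), (13713,
      670)] (.leaf ⟨7, 0, 0, 4⟩) (.leaf ⟨0, 0, 0, 1⟩)) (.leaf ⟨0, 0, 0, 1⟩)))

theorem okH6ok_2 :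
    chkT cH6ok cH6ok TH6ok_2 (0, 0) (0, 0) dum dum [(12713, 670), (13600, 64), (15360, 64), (15382,
        670)] = true := by
  decide +kernel

/-- tree -/
def TH6ok_3 : CT :=
  .cut2 true 1304 [(12640, 720), (12708, 673), (15382, 673), (15404, 1304), (12640, 1304)] [(15404,
      1304), (15408, 1440), (14720, 3200), (13280, 3200), (12640, 2400), (12640, 1304)] (.cut2 false
      14022 [(12640, 720), (12708, 673), (14022, 673), (14022, 1304), (12640, 1304)] [(14022, 673),
      (15382, 673), (15404, 1304), (14022, 1304)] (.cut2 false 13676 [(12640, 720), (12708, 673),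
      (13676, 673), (13676, 1304), (12640, 1304)] [(13676, 673), (14022, 673), (14022, 1304),
      (13676, 1304)] (.rel2 [(13676, 673), (13676, 1304), (12640, 1304), (12639, 672)] (.leaf ⟨0, 0,
      1, 0⟩)) (.leaf ⟨0, 7, 4, 0⟩)) (.leaf ⟨0, 1, 0, 0⟩)) (.rel2 [(15404, 1304), (15544, 6030),
      (11762, 1303)] (.leaf ⟨0, 3, 4, 0⟩))

theorem okH6ok_3 :
    chkT cH6ok cH6ok TH6ok_3 (0, 0) (0, 0) dum dum [(12640, 720), (12708, 673), (15382, 673),
        (15408, 1440), (14720, 3200), (13280, 3200), (12640, 2400)] = true := by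
  decide +kernel

theorem stH6ok {z : ℂ} (hz : z ∈ Poly (vt .t6)) (h : 15 + 8 * Complex.I + 20 * (Complex.I * z * (32
    * z ^ 5 - 32 * z ^ 3 + 6 * z)) = 0) :
    (13705 < 16000 * z.re ∧ 16000 * z.re < 13708) ∧ 670 < 16000 * z.im ∧ 16000 * z.im < 673 := by
  have h0 : app (slots cH6ok 0 0 0 (16000 * z)) (fun i => (gH6ok i).v) 0 = 0 := by
    rw [evH6ok, h, mul_zero]
  have hZ := rgK6 hz
  have hs : shp nK6 = true := by decide +kernel
  have a0 := half_use rpH6ok hs (ax := false) (up := true) (m := 13705) (by decide +kernel) okH6ok_0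
      hZ h0
  have a1 := half_use rpH6ok hs (ax := false) (up := false) (m := 13708) (by decide +kernel)
      okH6ok_1 hZ h0
  have a2 := half_use rpH6ok hs (ax := true) (up := true) (m := 670) (by decide +kernel) okH6ok_2 hZ
      h0
  have a3 := half_use rpH6ok hs (ax := true) (up := false) (m := 673) (by decide +kernel) okH6ok_3
      hZ h0
  simp only [HP, not_le, Complex.mul_re, Complex.mul_im, Complex.re_ofNat, Complex.im_ofNat,
    zero_mul, sub_zero, add_zero] at a0 a1 a2 a3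
  push_cast at a0 a1 a2 a3
  exact ⟨⟨a0, a1⟩, a2, a3⟩

/-- coefficients -/
def gH6p11 (i : ℕ) : G4 :=
  if i = 0 then ⟨1879048192000000000000000000000000, 0, 0, 0⟩ else
  if i = 2 then ⟨0, 262144000000000000000000, 0, 0⟩ else
  if i = 4 then ⟨3686400000000000, 0, 0, 0⟩ else
  if i = 6 then ⟨0, 96000000, 0, 0⟩ else
  if i = 8 then ⟨7, 0, 0, 0⟩ else
  ⟨0, 0, 0, 0⟩

/-- configuration -/
def cH6p11 : Cfg := ⟨0, 0, 0, 7, 1, 1, 1, false, false, false,
  [⟨1879048192000000000000000000000000, 0, 0, 0⟩, ⟨0, 0, 0, 0⟩, ⟨0, 262144000000000000000000, 0, 0⟩,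
      ⟨0, 0, 0, 0⟩, ⟨3686400000000000, 0, 0, 0⟩, ⟨0, 0, 0, 0⟩, ⟨0, 96000000, 0, 0⟩, ⟨0, 0, 0, 0⟩,
      ⟨7, 0, 0, 0⟩]⟩

lemma rpH6p11 : Rp cH6p11.L (fun i => (gH6p11 i).v) := by
  have h : cH6p11.L = (List.range 9).map gH6p11 := by rfl
  rw [h]
  exact rp_map _ _

lemma evH6p11 (z : ℂ) : app (slots cH6p11 0 0 0 (16000 * z)) (fun i => (gH6p11 i).v) 0 =
      939524096000000000000000000000000 * (z ^ 2 * (1 + (32 * z ^ 6 - 48 * z ^ 4 + 18 * z ^ 2 - 1))
          + 2 * (1 - z ^ 2)) := by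
  rw [app_slots]
  simp only [cH6p11, Finset.sum_range_succ, Finset.sum_range_zero, Nat.reduceAdd, Nat.reduceMul,
    zero_add, add_zero, gH6p11, Nat.reduceEqDiff, if_true, if_false, v_zero, v_re, v_neg, v_im,
        v_imn,
    v_pp, v_pm, v_mp, v_mm, mul_zero, mr_false, Nat.cast_zero, OfNat.ofNat_ne_zero,
    OfNat.ofNat_eq_ofNat, Nat.reduceEqDiff, Nat.cast_ofNat, pow_zero, mul_one, Nat.choose_self,
    Nat.choose_zero_right, Nat.cast_one, one_mul]
  simp only [Nat.choose, Nat.reduceAdd, pow_zero, pow_one, mul_one, one_mul, Nat.cast_one,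
    Nat.cast_ofNat, mul_pow]
  ring

/-- tree -/
def TH6p11_0 : CT :=
  .cut2 false 14020 [(12640, 720), (13600, 64), (14020, 64), (14020, 3200), (13280, 3200), (12640,
      2400)] [(14020, 64), (14481, 64), (14481, 3200), (14020, 3200)] (.rel2 [(14020, 64), (14020,
      3200), (12639, 3200), (12639, 63)] (.leaf ⟨1, 0, 2, 0⟩)) (.cut2 false 14365 [(14020, 64),
      (14365, 64), (14365, 3200), (14020, 3200)] [(14365, 64), (14481, 64), (14481, 3200), (14365,
      3200)] (.leaf ⟨1, 0, 2, 0⟩) (.cut2 true 1632 [(14365, 64), (14481, 64), (14481, 1632), (14365,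
      1632)] [(14481, 1632), (14481, 3200), (14365, 3200), (14365, 1632)] (.cut2 true 848 [(14365,
      64), (14481, 64), (14481, 848), (14365, 848)] [(14481, 848), (14481, 1632), (14365, 1632),
      (14365, 848)] (.leaf ⟨1, 0, 0, 0⟩) (.cut2 true 1240 [(14481, 848), (14481, 1240), (14365,
      1240), (14365, 848)] [(14481, 1240), (14481, 1632), (14365, 1632), (14365, 1240)] (.leaf ⟨4,
      0, 11, 0⟩) (.leaf ⟨0, 0, 1, 0⟩))) (.leaf ⟨0, 1, 0, 0⟩)))

theorem okH6p11_0 :
    chkT cH6p11 cH6p11 TH6p11_0 (0, 0) (0, 0) dum dum [(12640, 720), (13600, 64), (14481, 64),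
        (14481, 3200), (13280, 3200), (12640, 2400)] = true := by
  decide +kernel

/-- tree -/
def TH6p11_1 : CT :=
  .cut2 true 1632 [(14484, 64), (15360, 64), (15408, 1440), (15333, 1632), (14484, 1632)] [(15333,
      1632), (14720, 3200), (14484, 3200), (14484, 1632)] (.cut2 false 14715 [(14484, 64), (14715,
      64), (14715, 1632), (14484, 1632)] [(14715, 64), (15360, 64), (15408, 1440), (15333, 1632),
      (14715, 1632)] (.cut2 true 848 [(14484, 64), (14715, 64), (14715, 848), (14484, 848)] [(14715,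
      848), (14715, 1632), (14484, 1632), (14484, 848)] (.leaf ⟨1, 0, 0, 0⟩) (.cut2 false 14541
      [(14541, 1632), (14484, 1632), (14484, 848), (14541, 848)] [(14715, 848), (14715, 1632),
      (14541, 1632), (14541, 848)] (.cut2 true 1240 [(14484, 1240), (14484, 848), (14541, 848),
      (14541, 1240)] [(14541, 1632), (14484, 1632), (14484, 1240), (14541, 1240)] (.cut2 true 1142
      [(14484, 1142), (14484, 848), (14541, 848), (14541, 1142)] [(14484, 1240), (14484, 1142),
      (14541, 1142), (14541, 1240)] (.leaf ⟨0, 0, 0, 1⟩) (.leaf ⟨0, 1, 0, 0⟩)) (.leaf ⟨0, 1, 0, 0⟩))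
      (.leaf ⟨0, 2, 0, 5⟩))) (.rel2 [(15333, 1632), (14715, 1632), (14715, 64), (15946, 63)] (.leaf
      ⟨0, 0, 0, 1⟩))) (.rel2 [(14484, 1632), (15333, 1632), (14484, 3804)] (.leaf ⟨0, 1, 0, 0⟩))

theorem okH6p11_1 :
    chkT cH6p11 cH6p11 TH6p11_1 (0, 0) (0, 0) dum dum [(14484, 64), (15360, 64), (15408, 1440),
        (14720, 3200), (14484, 3200)] = true := by
  decide +kernel

/-- tree -/
def TH6p11_2 : CT :=
  .cut2 true 871 [(12640, 720), (13600, 64), (15360, 64), (15389, 871), (12640, 871)] [(15389, 871),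
      (15398, 1140), (12640, 1140), (12640, 871)] (.rel2 [(15360, 64), (15389, 871), (12640, 871),
      (12639, 63)] (.leaf ⟨1, 0, 0, 0⟩)) (.cut2 false 14019 [(14019, 1140), (12640, 1140), (12640,
      871), (14019, 871)] [(15389, 871), (15398, 1140), (14019, 1140), (14019, 871)] (.leaf ⟨1, 0,
      0, 0⟩) (.cut2 true 1072 [(15389, 871), (15396, 1072), (14019, 1072), (14019, 871)] [(15396,
      1072), (15398, 1140), (14019, 1140), (14019, 1072)] (.leaf ⟨7, 0, 0, 4⟩) (.cut2 false 14708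
      [(14708, 1140), (14019, 1140), (14019, 1072), (14708, 1072)] [(15396, 1072), (15398, 1140),
      (14708, 1140), (14708, 1072)] (.cut2 false 14363 [(14363, 1140), (14019, 1140), (14019, 1072),
      (14363, 1072)] [(14708, 1140), (14363, 1140), (14363, 1072), (14708, 1072)] (.leaf ⟨0, 0, 1,
      0⟩) (.leaf ⟨75, 0, 0, 28⟩)) (.leaf ⟨0, 0, 0, 1⟩))))

theorem okH6p11_2 :
    chkT cH6p11 cH6p11 TH6p11_2 (0, 0) (0, 0) dum dum [(12640, 720), (13600, 64), (15360, 64),
        (15398, 1140), (12640, 1140)] = true := by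
  decide +kernel

/-- tree -/
def TH6p11_3 : CT :=
  .cut2 false 14024 [(14024, 3200), (13280, 3200), (12640, 2400), (12640, 1143), (14024, 1143)]
      [(15398, 1143), (15408, 1440), (14720, 3200), (14024, 3200), (14024, 1143)] (.rel2 [(12640,
      1143), (14024, 1143), (14024, 3200), (12639, 3200)] (.leaf ⟨0, 0, 1, 0⟩)) (.cut2 true 1657
      [(15398, 1143), (15408, 1440), (15324, 1657), (14024, 1657), (14024, 1143)] [(15324, 1657),
      (14720, 3200), (14024, 3200), (14024, 1657)] (.cut2 false 14716 [(14716, 1657), (14024, 1657),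
      (14024, 1143), (14716, 1143)] [(15398, 1143), (15408, 1440), (15324, 1657), (14716, 1657),
      (14716, 1143)] (.cut2 true 1271 [(14024, 1271), (14024, 1143), (14716, 1143), (14716, 1271)]
      [(14716, 1657), (14024, 1657), (14024, 1271), (14716, 1271)] (.cut2 false 14370 [(14024,
      1271), (14024, 1143), (14370, 1143), (14370, 1271)] [(14370, 1143), (14716, 1143), (14716,
      1271), (14370, 1271)] (.leaf ⟨0, 0, 1, 0⟩) (.cut2 true 1175 [(14370, 1143), (14716, 1143),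
      (14716, 1175), (14370, 1175)] [(14716, 1175), (14716, 1271), (14370, 1271), (14370, 1175)]
      (.cut2 false 14543 [(14370, 1143), (14543, 1143), (14543, 1175), (14370, 1175)] [(14543,
      1143), (14716, 1143), (14716, 1175), (14543, 1175)] (.cut2 false 14456 [(14370, 1143), (14456,
      1143), (14456, 1175), (14370, 1175)] [(14456, 1143), (14543, 1143), (14543, 1175), (14456,
      1175)] (.leaf ⟨0, 0, 1, 0⟩) (.leaf ⟨0, 76, 25, 0⟩)) (.leaf ⟨0, 0, 0, 1⟩)) (.leaf ⟨0, 19, 6,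
      0⟩))) (.leaf ⟨0, 4, 3, 0⟩)) (.rel2 [(14716, 1657), (14716, 1143), (15398, 1143), (15416,
      1657)] (.leaf ⟨0, 1, 0, 2⟩))) (.rel2 [(14024, 1657), (15324, 1657), (14024, 4979)] (.leaf ⟨0,
      4, 3, 0⟩)))

theorem okH6p11_3 :
    chkT cH6p11 cH6p11 TH6p11_3 (0, 0) (0, 0) dum dum [(15398, 1143), (15408, 1440), (14720, 3200),
        (13280, 3200), (12640, 2400), (12640, 1143)] = true := by
  decide +kernel

theorem stH6p11 {z : ℂ} (hz : z ∈ Poly (vt .t6)) (h : z ^ 2 * (1 + (32 * z ^ 6 - 48 * z ^ 4 + 18 * z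
    ^ 2 - 1)) + 2 * (1 - z ^ 2) = 0) :
    (14481 < 16000 * z.re ∧ 16000 * z.re < 14484) ∧ 1140 < 16000 * z.im ∧ 16000 * z.im < 1143 := by
  have h0 : app (slots cH6p11 0 0 0 (16000 * z)) (fun i => (gH6p11 i).v) 0 = 0 := by
    rw [evH6p11, h, mul_zero]
  have hZ := rgK6 hz
  have hs : shp nK6 = true := by decide +kernel
  have a0 := half_use rpH6p11 hs (ax := false) (up := true) (m := 14481) (by decide +kernel)
      okH6p11_0 hZ h0
  have a1 := half_use rpH6p11 hs (ax := false) (up := false) (m := 14484) (by decide +kernel)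
      okH6p11_1 hZ h0
  have a2 := half_use rpH6p11 hs (ax := true) (up := true) (m := 1140) (by decide +kernel) okH6p11_2
      hZ h0
  have a3 := half_use rpH6p11 hs (ax := true) (up := false) (m := 1143) (by decide +kernel)
      okH6p11_3 hZ h0
  simp only [HP, not_le, Complex.mul_re, Complex.mul_im, Complex.re_ofNat, Complex.im_ofNat,
    zero_mul, sub_zero, add_zero] at a0 a1 a2 a3
  push_cast at a0 a1 a2 a3
  exact ⟨⟨a0, a1⟩, a2, a3⟩

/-- coefficients -/
def gH6p1k (i : ℕ) : G4 :=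
  if i = 0 then ⟨552898355559137280000000000000000000000000000000000, 0,
      266686545317068800000000000000000000000000000000000, 0⟩ else
  if i = 2 then ⟨0, 304405807104000000000000000000000000000000, 0,
      162349763788800000000000000000000000000000⟩ else
  if i = 4 then ⟨634178764800000000000000000000000, 0, 225485783040000000000000000000000, 0⟩ else
  if i = 6 then ⟨0, 5308416000000000000000000, 0, 314572800000000000000000⟩ else
  if i = 8 then ⟨126156800000000000, 0, 0, 0⟩ else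
  if i = 10 then ⟨0, 5376000000, 0, 0⟩ else
  if i = 12 then ⟨693, 0, 0, 0⟩ else
  ⟨0, 0, 0, 0⟩

/-- configuration -/
def cH6p1k : Cfg := ⟨0, 0, 0, 11, 1, 1, 1, false, false, false,
  [⟨552898355559137280000000000000000000000000000000000, 0,
      266686545317068800000000000000000000000000000000000, 0⟩, ⟨0, 0, 0, 0⟩, ⟨0,
      304405807104000000000000000000000000000000, 0, 162349763788800000000000000000000000000000⟩,
      ⟨0, 0, 0, 0⟩, ⟨634178764800000000000000000000000, 0, 225485783040000000000000000000000, 0⟩,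
      ⟨0, 0, 0, 0⟩, ⟨0, 5308416000000000000000000, 0, 314572800000000000000000⟩, ⟨0, 0, 0, 0⟩,
      ⟨126156800000000000, 0, 0, 0⟩, ⟨0, 0, 0, 0⟩, ⟨0, 5376000000, 0, 0⟩, ⟨0, 0, 0, 0⟩, ⟨693, 0, 0,
      0⟩]⟩

lemma rpH6p1k : Rp cH6p1k.L (fun i => (gH6p1k i).v) := by
  have h : cH6p1k.L = (List.range 13).map gH6p1k := by rfl
  rw [h]
  exact rp_map _ _

lemma evH6p1k (z : ℂ) : app (slots cH6p1k 0 0 0 (16000 * z)) (fun i => (gH6p1k i).v) 0 =
      476225973780480000000000000000000000000000000000 * (561 + 240 * Complex.I - (600 + 320 *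
          Complex.I) * (32 * z ^ 6 - 48 * z ^ 4 + 18 * z ^ 2 - 1) + 400 * (z * (32 * z ^ 5 - 32 * z
          ^ 3 + 6 * z)) ^ 2) := by
  rw [app_slots]
  simp only [cH6p1k, Finset.sum_range_succ, Finset.sum_range_zero, Nat.reduceAdd, Nat.reduceMul,
    zero_add, add_zero, gH6p1k, Nat.reduceEqDiff, if_true, if_false, v_zero, v_re, v_neg, v_im,
        v_imn,
    v_pp, v_pm, v_mp, v_mm, mul_zero, mr_false, Nat.cast_zero, OfNat.ofNat_ne_zero,
    OfNat.ofNat_eq_ofNat, Nat.reduceEqDiff, Nat.cast_ofNat, pow_zero, mul_one, Nat.choose_self,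
    Nat.choose_zero_right, Nat.cast_one, one_mul]
  simp only [Nat.choose, Nat.reduceAdd, pow_zero, pow_one, mul_one, one_mul, Nat.cast_one,
    Nat.cast_ofNat, mul_pow]
  ring

/-- tree -/
def TH6p1k_0 : CT :=
  .cut2 false 13824 [(12640, 720), (13600, 64), (13824, 64), (13824, 3200), (13280, 3200), (12640,
      2400)] [(13824, 64), (14219, 64), (14219, 3200), (13824, 3200)] (.rel2 [(13824, 64), (13824,
      3880), (10768, 60)] (.leaf ⟨1, 0, 0, 0⟩)) (.cut2 true 1632 [(13824, 64), (14219, 64), (14219,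
      1632), (13824, 1632)] [(14219, 1632), (14219, 3200), (13824, 3200), (13824, 1632)] (.cut2 true
      1240 [(13824, 64), (14219, 64), (14219, 1240), (13824, 1240)] [(14219, 1240), (14219, 1632),
      (13824, 1632), (13824, 1240)] (.leaf ⟨1, 0, 0, 0⟩) (.leaf ⟨11, 0, 5, 0⟩)) (.leaf ⟨0, 0, 1,
      0⟩))

theorem okH6p1k_0 :
    chkT cH6p1k cH6p1k TH6p1k_0 (0, 0) (0, 0) dum dum [(12640, 720), (13600, 64), (14219, 64),
        (14219, 3200), (13280, 3200), (12640, 2400)] = true := by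
  decide +kernel

/-- tree -/
def TH6p1k_1 : CT :=
  .cut2 true 1632 [(14222, 64), (15360, 64), (15408, 1440), (15333, 1632), (14222, 1632)] [(15333,
      1632), (14720, 3200), (14222, 3200), (14222, 1632)] (.cut2 true 1240 [(14222, 64), (15360,
      64), (15402, 1240), (14222, 1240)] [(15402, 1240), (15408, 1440), (15333, 1632), (14222,
      1632), (14222, 1240)] (.leaf ⟨0, 0, 0, 1⟩) (.cut2 true 1338 [(15402, 1240), (15405, 1338),
      (14222, 1338), (14222, 1240)] [(15405, 1338), (15408, 1440), (15333, 1632), (14222, 1632),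
      (14222, 1338)] (.leaf ⟨0, 37, 0, 15⟩) (.rel2 [(14222, 1632), (14222, 1338), (15405, 1338),
      (15414, 1632)] (.leaf ⟨0, 1, 0, 0⟩)))) (.leaf ⟨0, 3, 4, 0⟩)

theorem okH6p1k_1 :
    chkT cH6p1k cH6p1k TH6p1k_1 (0, 0) (0, 0) dum dum [(14222, 64), (15360, 64), (15408, 1440),
        (14720, 3200), (14222, 3200)] = true := by
  decide +kernel

/-- tree -/
def TH6p1k_2 : CT :=
  .cut2 true 960 [(12640, 720), (13600, 64), (15360, 64), (15392, 960), (12640, 960)] [(15392, 960),
      (15402, 1259), (12640, 1259), (12640, 960)] (.rel2 [(15360, 64), (15392, 960), (12640, 960),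
      (12639, 63)] (.leaf ⟨1, 0, 0, 2⟩)) (.cut2 false 14021 [(14021, 1259), (12640, 1259), (12640,
      960), (14021, 960)] [(15392, 960), (15402, 1259), (14021, 1259), (14021, 960)] (.leaf ⟨1, 0,
      0, 0⟩) (.cut2 false 14366 [(14366, 1259), (14021, 1259), (14021, 960), (14366, 960)] [(15392,
      960), (15402, 1259), (14366, 1259), (14366, 960)] (.cut2 false 14107 [(14107, 1259), (14021,
      1259), (14021, 960), (14107, 960)] [(14366, 1259), (14107, 1259), (14107, 960), (14366, 960)]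
      (.leaf ⟨1, 0, 0, 0⟩) (.leaf ⟨5, 0, 0, 11⟩)) (.leaf ⟨0, 0, 0, 1⟩)))

theorem okH6p1k_2 :
    chkT cH6p1k cH6p1k TH6p1k_2 (0, 0) (0, 0) dum dum [(12640, 720), (13600, 64), (15360, 64),
        (15402, 1259), (12640, 1259)] = true := by
  decide +kernel

/-- tree -/
def TH6p1k_3 : CT :=
  .cut2 false 14024 [(14024, 3200), (13280, 3200), (12640, 2400), (12640, 1262), (14024, 1262)]
      [(15402, 1262), (15408, 1440), (14720, 3200), (14024, 3200), (14024, 1262)] (.rel2 [(14024,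
      1262), (14024, 4130), (11728, 1261)] (.leaf ⟨1, 0, 0, 0⟩)) (.cut2 true 1746 [(15402, 1262),
      (15408, 1440), (15289, 1746), (14024, 1746), (14024, 1262)] [(15289, 1746), (14720, 3200),
      (14024, 3200), (14024, 1746)] (.cut2 false 14370 [(14370, 1746), (14024, 1746), (14024, 1262),
      (14370, 1262)] [(15402, 1262), (15408, 1440), (15289, 1746), (14370, 1746), (14370, 1262)]
      (.cut2 true 1383 [(14024, 1383), (14024, 1262), (14370, 1262), (14370, 1383)] [(14370, 1746),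
      (14024, 1746), (14024, 1383), (14370, 1383)] (.cut2 true 1292 [(14024, 1292), (14024, 1262),
      (14370, 1262), (14370, 1292)] [(14024, 1383), (14024, 1292), (14370, 1292), (14370, 1383)]
      (.cut2 false 14197 [(14024, 1292), (14024, 1262), (14197, 1262), (14197, 1292)] [(14197,
      1262), (14370, 1262), (14370, 1292), (14197, 1292)] (.leaf ⟨0, 0, 1, 0⟩) (.cut2 false 14326
      [(14197, 1262), (14326, 1262), (14326, 1292), (14197, 1292)] [(14326, 1262), (14370, 1262),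
      (14370, 1292), (14326, 1292)] (.leaf ⟨0, 19, 35, 0⟩) (.leaf ⟨0, 1, 0, 0⟩))) (.leaf ⟨0, 1, 3,
      0⟩)) (.leaf ⟨0, 0, 1, 0⟩)) (.rel2 [(14370, 1746), (14370, 1262), (15402, 1262), (15419, 1746)]
      (.leaf ⟨0, 1, 0, 0⟩))) (.leaf ⟨0, 1, 2, 0⟩))

theorem okH6p1k_3 :
    chkT cH6p1k cH6p1k TH6p1k_3 (0, 0) (0, 0) dum dum [(15402, 1262), (15408, 1440), (14720, 3200),
        (13280, 3200), (12640, 2400), (12640, 1262)] = true := by
  decide +kernel

theorem stH6p1k {z : ℂ} (hz : z ∈ Poly (vt .t6)) (h : 561 + 240 * Complex.I - (600 + 320 *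
    Complex.I) * (32 * z ^ 6 - 48 * z ^ 4 + 18 * z ^ 2 - 1) + 400 * (z * (32 * z ^ 5 - 32 * z ^ 3 +
    6 * z)) ^ 2 = 0) :
    (14219 < 16000 * z.re ∧ 16000 * z.re < 14222) ∧ 1259 < 16000 * z.im ∧ 16000 * z.im < 1262 := by
  have h0 : app (slots cH6p1k 0 0 0 (16000 * z)) (fun i => (gH6p1k i).v) 0 = 0 := by
    rw [evH6p1k, h, mul_zero]
  have hZ := rgK6 hz
  have hs : shp nK6 = true := by decide +kernel
  have a0 := half_use rpH6p1k hs (ax := false) (up := true) (m := 14219) (by decide +kernel)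
      okH6p1k_0 hZ h0
  have a1 := half_use rpH6p1k hs (ax := false) (up := false) (m := 14222) (by decide +kernel)
      okH6p1k_1 hZ h0
  have a2 := half_use rpH6p1k hs (ax := true) (up := true) (m := 1259) (by decide +kernel) okH6p1k_2
      hZ h0
  have a3 := half_use rpH6p1k hs (ax := true) (up := false) (m := 1262) (by decide +kernel)
      okH6p1k_3 hZ h0
  simp only [HP, not_le, Complex.mul_re, Complex.mul_im, Complex.re_ofNat, Complex.im_ofNat,
    zero_mul, sub_zero, add_zero] at a0 a1 a2 a3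
  push_cast at a0 a1 a2 a3
  exact ⟨⟨a0, a1⟩, a2, a3⟩

/-- coefficients -/
def gH6pkk (i : ℕ) : G4 :=
  if i = 0 then ⟨756316897280000000000000000000000, 0, 1127428915200000000000000000000000, 0⟩ else
  if i = 2 then ⟨0, 105512960000000000000000, 0, 157286400000000000000000⟩ else
  if i = 4 then ⟨3686400000000000, 0, 0, 0⟩ else
  if i = 6 then ⟨0, 96000000, 0, 0⟩ else
  if i = 8 then ⟨7, 0, 0, 0⟩ else
  ⟨0, 0, 0, 0⟩

/-- configuration -/
def cH6pkk : Cfg := ⟨0, 0, 0, 7, 1, 1, 1, false, false, false,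
  [⟨756316897280000000000000000000000, 0, 1127428915200000000000000000000000, 0⟩, ⟨0, 0, 0, 0⟩, ⟨0,
      105512960000000000000000, 0, 157286400000000000000000⟩, ⟨0, 0, 0, 0⟩, ⟨3686400000000000, 0, 0,
      0⟩, ⟨0, 0, 0, 0⟩, ⟨0, 96000000, 0, 0⟩, ⟨0, 0, 0, 0⟩, ⟨7, 0, 0, 0⟩]⟩

lemma rpH6pkk : Rp cH6pkk.L (fun i => (gH6pkk i).v) := by
  have h : cH6pkk.L = (List.range 9).map gH6pkk := by rfl
  rw [h]
  exact rp_map _ _

lemma evH6pkk (z : ℂ) : app (slots cH6pkk 0 0 0 (16000 * z)) (fun i => (gH6pkk i).v) 0 =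
      4697620480000000000000000000000 * (200 * (z ^ 2 * (1 + (32 * z ^ 6 - 48 * z ^ 4 + 18 * z ^ 2 -
          1))) + (161 + 240 * Complex.I) * (1 - z ^ 2)) := by
  rw [app_slots]
  simp only [cH6pkk, Finset.sum_range_succ, Finset.sum_range_zero, Nat.reduceAdd, Nat.reduceMul,
    zero_add, add_zero, gH6pkk, Nat.reduceEqDiff, if_true, if_false, v_zero, v_re, v_neg, v_im,
        v_imn,
    v_pp, v_pm, v_mp, v_mm, mul_zero, mr_false, Nat.cast_zero, OfNat.ofNat_ne_zero,
    OfNat.ofNat_eq_ofNat, Nat.reduceEqDiff, Nat.cast_ofNat, pow_zero, mul_one, Nat.choose_self,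
    Nat.choose_zero_right, Nat.cast_one, one_mul]
  simp only [Nat.choose, Nat.reduceAdd, pow_zero, pow_one, mul_one, one_mul, Nat.cast_one,
    Nat.cast_ofNat, mul_pow]
  ring

/-- tree -/
def TH6pkk_0 : CT :=
  .cut2 false 13582 [(12640, 720), (13582, 76), (13582, 3200), (13280, 3200), (12640, 2400)]
      [(13582, 76), (13600, 64), (13896, 64), (13896, 3200), (13582, 3200)] (.rel2 [(13582, 76),
      (13582, 3200), (9011, 3200)] (.leaf ⟨7, 0, 4, 0⟩)) (.cut2 false 13817 [(13582, 76), (13600,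
      64), (13817, 64), (13817, 3200), (13582, 3200)] [(13817, 64), (13896, 64), (13896, 3200),
      (13817, 3200)] (.rel2 [(13817, 64), (13817, 3200), (13582, 3200), (13581, 63)] (.leaf ⟨17, 0,
      11, 0⟩)) (.cut2 true 1632 [(13817, 64), (13896, 64), (13896, 1632), (13817, 1632)] [(13896,
      1632), (13896, 3200), (13817, 3200), (13817, 1632)] (.cut2 true 1240 [(13817, 64), (13896,
      64), (13896, 1240), (13817, 1240)] [(13896, 1240), (13896, 1632), (13817, 1632), (13817,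
      1240)] (.leaf ⟨1, 0, 0, 0⟩) (.leaf ⟨10, 0, 7, 0⟩)) (.leaf ⟨0, 0, 1, 0⟩)))

theorem okH6pkk_0 :
    chkT cH6pkk cH6pkk TH6pkk_0 (0, 0) (0, 0) dum dum [(12640, 720), (13600, 64), (13896, 64),
        (13896, 3200), (13280, 3200), (12640, 2400)] = true := by
  decide +kernel

/-- tree -/
def TH6pkk_1 : CT :=
  .cut2 true 1632 [(13899, 64), (15360, 64), (15408, 1440), (15333, 1632), (13899, 1632)] [(15333,
      1632), (14720, 3200), (13899, 3200), (13899, 1632)] (.cut2 true 1240 [(13899, 64), (15360,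
      64), (15402, 1240), (13899, 1240)] [(15402, 1240), (15408, 1440), (15333, 1632), (13899,
      1632), (13899, 1240)] (.leaf ⟨1, 0, 0, 2⟩) (.cut2 false 14276 [(14276, 1632), (13899, 1632),
      (13899, 1240), (14276, 1240)] [(15402, 1240), (15408, 1440), (15333, 1632), (14276, 1632),
      (14276, 1240)] (.cut2 false 13993 [(13993, 1632), (13899, 1632), (13899, 1240), (13993, 1240)]
      [(14276, 1632), (13993, 1632), (13993, 1240), (14276, 1240)] (.cut2 false 13922 [(13922,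
      1632), (13899, 1632), (13899, 1240), (13922, 1240)] [(13993, 1632), (13922, 1632), (13922,
      1240), (13993, 1240)] (.cut2 true 1436 [(13899, 1436), (13899, 1240), (13922, 1240), (13922,
      1436)] [(13922, 1632), (13899, 1632), (13899, 1436), (13922, 1436)] (.cut2 true 1338 [(13899,
      1338), (13899, 1240), (13922, 1240), (13922, 1338)] [(13899, 1436), (13899, 1338), (13922,
      1338), (13922, 1436)] (.leaf ⟨0, 0, 0, 1⟩) (.leaf ⟨0, 65, 0, 47⟩)) (.leaf ⟨0, 1, 0, 0⟩))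
      (.leaf ⟨0, 4, 0, 3⟩)) (.leaf ⟨0, 2, 0, 2⟩)) (.rel2 [(14276, 1632), (14276, 1240), (15402,
      1240), (15414, 1632)] (.leaf ⟨0, 1, 0, 2⟩)))) (.rel2 [(13899, 1632), (15333, 1632), (13899,
      5301)] (.leaf ⟨0, 11, 5, 0⟩))

theorem okH6pkk_1 :
    chkT cH6pkk cH6pkk TH6pkk_1 (0, 0) (0, 0) dum dum [(13899, 64), (15360, 64), (15408, 1440),
        (14720, 3200), (13899, 3200)] = true := by
  decide +kernel

/-- tree -/
def TH6pkk_2 : CT :=
  .cut2 true 1060 [(12640, 720), (13600, 64), (15360, 64), (15396, 1060), (12640, 1060)] [(15396,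
      1060), (15407, 1393), (12640, 1393), (12640, 1060)] (.rel2 [(15360, 64), (15396, 1060),
      (12640, 1060), (12639, 63)] (.leaf ⟨1, 0, 0, 2⟩)) (.cut2 false 14023 [(14023, 1393), (12640,
      1393), (12640, 1060), (14023, 1060)] [(15396, 1060), (15407, 1393), (14023, 1393), (14023,
      1060)] (.cut2 false 13677 [(13677, 1393), (12640, 1393), (12640, 1060), (13677, 1060)]
      [(14023, 1393), (13677, 1393), (13677, 1060), (14023, 1060)] (.leaf ⟨1, 0, 0, 0⟩) (.cut2 false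
      13763 [(13763, 1393), (13677, 1393), (13677, 1060), (13763, 1060)] [(14023, 1393), (13763,
      1393), (13763, 1060), (14023, 1060)] (.leaf ⟨1, 0, 0, 0⟩) (.leaf ⟨7, 0, 0, 10⟩))) (.leaf ⟨0,
      0, 0, 1⟩))

theorem okH6pkk_2 :
    chkT cH6pkk cH6pkk TH6pkk_2 (0, 0) (0, 0) dum dum [(12640, 720), (13600, 64), (15360, 64),
        (15407, 1393), (12640, 1393)] = true := by
  decide +kernel

/-- tree -/
def TH6pkk_3 : CT :=
  .cut2 false 14024 [(14024, 3200), (13280, 3200), (12640, 2400), (12640, 1396), (14024, 1396)]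
      [(15407, 1396), (15408, 1440), (14720, 3200), (14024, 3200), (14024, 1396)] (.cut2 false 13678
      [(13678, 3200), (13280, 3200), (12640, 2400), (12640, 1396), (13678, 1396)] [(14024, 3200),
      (13678, 3200), (13678, 1396), (14024, 1396)] (.rel2 [(12640, 1396), (13678, 1396), (13678,
      3200), (12639, 3200)] (.leaf ⟨1, 0, 2, 0⟩)) (.cut2 true 1847 [(13678, 1847), (13678, 1396),
      (14024, 1396), (14024, 1847)] [(14024, 3200), (13678, 3200), (13678, 1847), (14024, 1847)]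
      (.cut2 true 1508 [(13678, 1508), (13678, 1396), (14024, 1396), (14024, 1508)] [(13678, 1847),
      (13678, 1508), (14024, 1508), (14024, 1847)] (.cut2 true 1424 [(13678, 1424), (13678, 1396),
      (14024, 1396), (14024, 1424)] [(13678, 1508), (13678, 1424), (14024, 1424), (14024, 1508)]
      (.cut2 false 13851 [(13678, 1424), (13678, 1396), (13851, 1396), (13851, 1424)] [(13851,
      1396), (14024, 1396), (14024, 1424), (13851, 1424)] (.leaf ⟨0, 0, 1, 0⟩) (.cut2 false 13937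
      [(13851, 1396), (13937, 1396), (13937, 1424), (13851, 1424)] [(13937, 1396), (14024, 1396),
      (14024, 1424), (13937, 1424)] (.leaf ⟨0, 7, 10, 0⟩) (.leaf ⟨0, 1, 0, 0⟩))) (.leaf ⟨0, 4, 7,
      0⟩)) (.leaf ⟨0, 1, 2, 0⟩)) (.leaf ⟨0, 0, 1, 0⟩))) (.rel2 [(14024, 3200), (14024, 1396),
      (15407, 1396), (15448, 3200)] (.leaf ⟨0, 1, 0, 0⟩))

theorem okH6pkk_3 :
    chkT cH6pkk cH6pkk TH6pkk_3 (0, 0) (0, 0) dum dum [(15407, 1396), (15408, 1440), (14720, 3200),
        (13280, 3200), (12640, 2400), (12640, 1396)] = true := by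
  decide +kernel

theorem stH6pkk {z : ℂ} (hz : z ∈ Poly (vt .t6)) (h : 200 * (z ^ 2 * (1 + (32 * z ^ 6 - 48 * z ^ 4 +
    18 * z ^ 2 - 1))) + (161 + 240 * Complex.I) * (1 - z ^ 2) = 0) :
    (13896 < 16000 * z.re ∧ 16000 * z.re < 13899) ∧ 1393 < 16000 * z.im ∧ 16000 * z.im < 1396 := by
  have h0 : app (slots cH6pkk 0 0 0 (16000 * z)) (fun i => (gH6pkk i).v) 0 = 0 := by
    rw [evH6pkk, h, mul_zero]
  have hZ := rgK6 hz
  have hs : shp nK6 = true := by decide +kernel
  have a0 := half_use rpH6pkk hs (ax := false) (up := true) (m := 13896) (by decide +kernel)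
      okH6pkk_0 hZ h0
  have a1 := half_use rpH6pkk hs (ax := false) (up := false) (m := 13899) (by decide +kernel)
      okH6pkk_1 hZ h0
  have a2 := half_use rpH6pkk hs (ax := true) (up := true) (m := 1393) (by decide +kernel) okH6pkk_2
      hZ h0
  have a3 := half_use rpH6pkk hs (ax := true) (up := false) (m := 1396) (by decide +kernel)
      okH6pkk_3 hZ h0
  simp only [HP, not_le, Complex.mul_re, Complex.mul_im, Complex.re_ofNat, Complex.im_ofNat,
    zero_mul, sub_zero, add_zero] at a0 a1 a2 a3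
  push_cast at a0 a1 a2 a3
  exact ⟨⟨a0, a1⟩, a2, a3⟩

/-- coefficients -/
def gH7o1 (i : ℕ) : G4 :=
  if i = 0 then ⟨88080384000000000000000000000, 0, 0, 0⟩ else
  if i = 1 then ⟨0, 0, 0, 786432000000000000000000⟩ else
  if i = 3 then ⟨0, 0, 14745600000000000, 0⟩ else
  if i = 5 then ⟨0, 0, 0, 320000000⟩ else
  if i = 7 then ⟨0, 0, 21, 0⟩ else
  ⟨0, 0, 0, 0⟩

/-- configuration -/
def cH7o1 : Cfg := ⟨0, 0, 0, 6, 1, 1, 1, false, false, false,
  [⟨88080384000000000000000000000, 0, 0, 0⟩, ⟨0, 0, 0, 786432000000000000000000⟩, ⟨0, 0, 0, 0⟩, ⟨0,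
      0, 14745600000000000, 0⟩, ⟨0, 0, 0, 0⟩, ⟨0, 0, 0, 320000000⟩, ⟨0, 0, 0, 0⟩, ⟨0, 0, 21, 0⟩]⟩

lemma rpH7o1 : Rp cH7o1.L (fun i => (gH7o1 i).v) := by
  have h : cH7o1.L = (List.range 8).map gH7o1 := by rfl
  rw [h]
  exact rp_map _ _

lemma evH7o1 (z : ℂ) : app (slots cH7o1 0 0 0 (16000 * z)) (fun i => (gH7o1 i).v) 0 =
      88080384000000000000000000000 * (1 + Complex.I * z * (64 * z ^ 6 - 80 * z ^ 4 + 24 * z ^ 2 -
          1)) := by
  rw [app_slots]
  simp only [cH7o1, Finset.sum_range_succ, Finset.sum_range_zero, Nat.reduceAdd, Nat.reduceMul,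
    zero_add, add_zero, gH7o1, Nat.reduceEqDiff, if_true, if_false, v_zero, v_re, v_neg, v_im,
        v_imn,
    v_pp, v_pm, v_mp, v_mm, mul_zero, mr_false, Nat.cast_zero, OfNat.ofNat_ne_zero,
    OfNat.ofNat_eq_ofNat, Nat.reduceEqDiff, Nat.cast_ofNat, pow_zero, mul_one, Nat.choose_self,
    Nat.choose_zero_right, Nat.cast_one, one_mul]
  simp only [Nat.choose, Nat.reduceAdd, pow_zero, pow_one, mul_one, one_mul, Nat.cast_one,
    Nat.cast_ofNat, mul_pow]
  ring

/-- tree -/
def TH7o1_0 : CT :=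
  .cut2 true 532 [(13280, 480), (13920, 16), (14514, 16), (14514, 532), (13280, 532)] [(14514, 532),
      (14514, 2080), (13760, 2080), (13280, 1760), (13280, 532)] (.cut2 true 274 [(13564, 274),
      (13920, 16), (14514, 16), (14514, 274)] [(13280, 480), (13564, 274), (14514, 274), (14514,
      532), (13280, 532)] (.leaf ⟨1, 0, 0, 0⟩) (.rel2 [(14514, 274), (14514, 532), (13280, 532),
      (13279, 273)] (.leaf ⟨5, 0, 11, 0⟩))) (.rel2 [(13280, 532), (14514, 532), (14514, 2080),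
      (13279, 2080)] (.leaf ⟨0, 0, 1, 0⟩))

theorem okH7o1_0 :
    chkT cH7o1 cH7o1 TH7o1_0 (0, 0) (0, 0) dum dum [(13280, 480), (13920, 16), (14514, 16), (14514,
        2080), (13760, 2080), (13280, 1760)] = true := by
  decide +kernel

/-- tree -/
def TH7o1_1 : CT :=
  .cut2 true 532 [(14517, 16), (15280, 16), (15386, 532), (14517, 532)] [(15386, 532), (15440, 800),
      (14960, 2080), (14517, 2080), (14517, 532)] (.cut2 true 403 [(14517, 16), (15280, 16), (15360,
      403), (14517, 403)] [(15360, 403), (15386, 532), (14517, 532), (14517, 403)] (.leaf ⟨0, 0, 0,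
      1⟩) (.cut2 true 435 [(15360, 403), (15367, 435), (14517, 435), (14517, 403)] [(15367, 435),
      (15386, 532), (14517, 532), (14517, 435)] (.leaf ⟨0, 0, 0, 1⟩) (.leaf ⟨0, 3, 0, 4⟩))) (.rel2
      [(14517, 2080), (14517, 532), (15386, 532), (15698, 2080)] (.leaf ⟨0, 1, 0, 0⟩))

theorem okH7o1_1 :
    chkT cH7o1 cH7o1 TH7o1_1 (0, 0) (0, 0) dum dum [(14517, 16), (15280, 16), (15440, 800), (14960,
        2080), (14517, 2080)] = true := by
  decide +kernel

/-- tree -/
def TH7o1_2 : CT :=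
  .cut2 true 332 [(13483, 332), (13920, 16), (15280, 16), (15346, 332)] [(13337, 438), (13483, 332),
      (15346, 332), (15367, 438)] (.leaf ⟨7, 0, 0, 4⟩) (.cut2 true 411 [(13374, 411), (13483, 332),
      (15346, 332), (15362, 411)] [(13337, 438), (13374, 411), (15362, 411), (15367, 438)] (.leaf
      ⟨11, 0, 0, 5⟩) (.cut2 false 14352 [(13337, 438), (13374, 411), (14352, 411), (14352, 438)]
      [(14352, 411), (15362, 411), (15367, 438), (14352, 438)] (.leaf ⟨0, 0, 1, 0⟩) (.cut2 false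
      14859 [(14352, 411), (14859, 411), (14859, 438), (14352, 438)] [(14859, 411), (15362, 411),
      (15367, 438), (14859, 438)] (.leaf ⟨11, 0, 0, 5⟩) (.leaf ⟨0, 0, 0, 1⟩))))

theorem okH7o1_2 :
    chkT cH7o1 cH7o1 TH7o1_2 (0, 0) (0, 0) dum dum [(13337, 438), (13920, 16), (15280, 16), (15367,
        438)] = true := by
  decide +kernel

/-- tree -/
def TH7o1_3 : CT :=
  .cut2 true 850 [(13280, 480), (13333, 441), (15367, 441), (15440, 800), (15422, 850), (13280,
      850)] [(15422, 850), (14960, 2080), (13760, 2080), (13280, 1760), (13280, 850)] (.cut2 false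
      14360 [(13280, 480), (13333, 441), (14360, 441), (14360, 850), (13280, 850)] [(14360, 441),
      (15367, 441), (15440, 800), (15422, 850), (14360, 850)] (.rel2 [(14360, 441), (14360, 850),
      (13280, 850), (13279, 440)] (.leaf ⟨0, 0, 1, 0⟩)) (.cut2 false 14630 [(14360, 441), (14630,
      441), (14630, 850), (14360, 850)] [(14630, 441), (15367, 441), (15440, 800), (15422, 850),
      (14630, 850)] (.cut2 false 14495 [(14360, 441), (14495, 441), (14495, 850), (14360, 850)]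
      [(14495, 441), (14630, 441), (14630, 850), (14495, 850)] (.leaf ⟨0, 0, 1, 0⟩) (.leaf ⟨0, 37,
      15, 0⟩)) (.rel2 [(14630, 850), (14630, 441), (15367, 441), (15451, 850)] (.leaf ⟨0, 1, 0,
      0⟩)))) (.rel2 [(15422, 850), (14720, 2720), (11914, 850)] (.leaf ⟨0, 3, 4, 0⟩))

theorem okH7o1_3 :
    chkT cH7o1 cH7o1 TH7o1_3 (0, 0) (0, 0) dum dum [(13280, 480), (13333, 441), (15367, 441),
        (15440, 800), (14960, 2080), (13760, 2080), (13280, 1760)] = true := by
  decide +kernel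

theorem stH7o1 {z : ℂ} (hz : z ∈ Poly (vt .t7)) (h : 1 + Complex.I * z * (64 * z ^ 6 - 80 * z ^ 4 +
    24 * z ^ 2 - 1) = 0) :
    (14514 < 16000 * z.re ∧ 16000 * z.re < 14517) ∧ 438 < 16000 * z.im ∧ 16000 * z.im < 441 := by
  have h0 : app (slots cH7o1 0 0 0 (16000 * z)) (fun i => (gH7o1 i).v) 0 = 0 := by
    rw [evH7o1, h, mul_zero]
  have hZ := rgK7 hz
  have hs : shp nK7 = true := by decide +kernel
  have a0 := half_use rpH7o1 hs (ax := false) (up := true) (m := 14514) (by decide +kernel) okH7o1_0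
      hZ h0
  have a1 := half_use rpH7o1 hs (ax := false) (up := false) (m := 14517) (by decide +kernel)
      okH7o1_1 hZ h0
  have a2 := half_use rpH7o1 hs (ax := true) (up := true) (m := 438) (by decide +kernel) okH7o1_2 hZ
      h0
  have a3 := half_use rpH7o1 hs (ax := true) (up := false) (m := 441) (by decide +kernel) okH7o1_3
      hZ h0
  simp only [HP, not_le, Complex.mul_re, Complex.mul_im, Complex.re_ofNat, Complex.im_ofNat,
    zero_mul, sub_zero, add_zero] at a0 a1 a2 a3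
  push_cast at a0 a1 a2 a3
  exact ⟨⟨a0, a1⟩, a2, a3⟩

/-- coefficients -/
def gH7ok (i : ℕ) : G4 :=
  if i = 0 then ⟨66060288000000000000000000000, 0, 35232153600000000000000000000, 0⟩ else
  if i = 1 then ⟨0, 0, 0, 786432000000000000000000⟩ else
  if i = 3 then ⟨0, 0, 14745600000000000, 0⟩ else
  if i = 5 then ⟨0, 0, 0, 320000000⟩ else
  if i = 7 then ⟨0, 0, 21, 0⟩ else
  ⟨0, 0, 0, 0⟩

/-- configuration -/
def cH7ok : Cfg := ⟨0, 0, 0, 6, 1, 1, 1, false, false, false,
  [⟨66060288000000000000000000000, 0, 35232153600000000000000000000, 0⟩, ⟨0, 0, 0,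
      786432000000000000000000⟩, ⟨0, 0, 0, 0⟩, ⟨0, 0, 14745600000000000, 0⟩, ⟨0, 0, 0, 0⟩, ⟨0, 0, 0,
      320000000⟩, ⟨0, 0, 0, 0⟩, ⟨0, 0, 21, 0⟩]⟩

lemma rpH7ok : Rp cH7ok.L (fun i => (gH7ok i).v) := by
  have h : cH7ok.L = (List.range 8).map gH7ok := by rfl
  rw [h]
  exact rp_map _ _

lemma evH7ok (z : ℂ) : app (slots cH7ok 0 0 0 (16000 * z)) (fun i => (gH7ok i).v) 0 =
      4404019200000000000000000000 * (15 + 8 * Complex.I + 20 * (Complex.I * z * (64 * z ^ 6 - 80 *
          z ^ 4 + 24 * z ^ 2 - 1))) := by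
  rw [app_slots]
  simp only [cH7ok, Finset.sum_range_succ, Finset.sum_range_zero, Nat.reduceAdd, Nat.reduceMul,
    zero_add, add_zero, gH7ok, Nat.reduceEqDiff, if_true, if_false, v_zero, v_re, v_neg, v_im,
        v_imn,
    v_pp, v_pm, v_mp, v_mm, mul_zero, mr_false, Nat.cast_zero, OfNat.ofNat_ne_zero,
    OfNat.ofNat_eq_ofNat, Nat.reduceEqDiff, Nat.cast_ofNat, pow_zero, mul_one, Nat.choose_self,
    Nat.choose_zero_right, Nat.cast_one, one_mul]
  simp only [Nat.choose, Nat.reduceAdd, pow_zero, pow_one, mul_one, one_mul, Nat.cast_one,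
    Nat.cast_ofNat, mul_pow]
  ring

/-- tree -/
def TH7ok_0 : CT :=
  .cut2 true 532 [(13280, 480), (13920, 16), (14298, 16), (14298, 532), (13280, 532)] [(14298, 532),
      (14298, 2080), (13760, 2080), (13280, 1760), (13280, 532)] (.cut2 true 274 [(13564, 274),
      (13920, 16), (14298, 16), (14298, 274)] [(13280, 480), (13564, 274), (14298, 274), (14298,
      532), (13280, 532)] (.leaf ⟨1, 0, 0, 0⟩) (.rel2 [(14298, 274), (14298, 532), (13280, 532),
      (13279, 273)] (.leaf ⟨1, 0, 2, 0⟩))) (.rel2 [(14298, 532), (14298, 2439), (11437, 531)] (.leaf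
      ⟨0, 0, 1, 0⟩))

theorem okH7ok_0 :
    chkT cH7ok cH7ok TH7ok_0 (0, 0) (0, 0) dum dum [(13280, 480), (13920, 16), (14298, 16), (14298,
        2080), (13760, 2080), (13280, 1760)] = true := by
  decide +kernel

/-- tree -/
def TH7ok_1 : CT :=
  .cut2 true 532 [(14301, 16), (15280, 16), (15386, 532), (14301, 532)] [(15386, 532), (15440, 800),
      (14960, 2080), (14301, 2080), (14301, 532)] (.cut2 true 403 [(14301, 16), (15280, 16), (15360,
      403), (14301, 403)] [(15360, 403), (15386, 532), (14301, 532), (14301, 403)] (.leaf ⟨0, 0, 0,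
      1⟩) (.leaf ⟨0, 4, 0, 7⟩)) (.rel2 [(14301, 2080), (14301, 532), (15386, 532), (15698, 2080)]
      (.leaf ⟨0, 1, 0, 0⟩))

theorem okH7ok_1 :
    chkT cH7ok cH7ok TH7ok_1 (0, 0) (0, 0) dum dum [(14301, 16), (15280, 16), (15440, 800), (14960,
        2080), (14301, 2080)] = true := by
  decide +kernel

/-- tree -/
def TH7ok_2 : CT :=
  .cut2 false 14368 [(13375, 411), (13920, 16), (14368, 16), (14368, 411)] [(14368, 16), (15280,
      16), (15361, 411), (14368, 411)] (.leaf ⟨11, 0, 0, 5⟩) (.leaf ⟨0, 0, 0, 1⟩)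

theorem okH7ok_2 :
    chkT cH7ok cH7ok TH7ok_2 (0, 0) (0, 0) dum dum [(13375, 411), (13920, 16), (15280, 16), (15361,
        411)] = true := by
  decide +kernel

/-- tree -/
def TH7ok_3 : CT :=
  .cut2 true 830 [(13280, 480), (13371, 414), (15362, 414), (15440, 800), (15429, 830), (13280,
      830)] [(15429, 830), (14960, 2080), (13760, 2080), (13280, 1760), (13280, 830)] (.cut2 false
      14360 [(13280, 480), (13371, 414), (14360, 414), (14360, 830), (13280, 830)] [(14360, 414),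
      (15362, 414), (15440, 800), (15429, 830), (14360, 830)] (.cut2 false 14090 [(13280, 480),
      (13371, 414), (14090, 414), (14090, 830), (13280, 830)] [(14090, 414), (14360, 414), (14360,
      830), (14090, 830)] (.rel2 [(14090, 414), (14090, 830), (13280, 830), (13279, 413)] (.leaf ⟨0,
      0, 1, 0⟩)) (.cut2 false 14225 [(14090, 414), (14225, 414), (14225, 830), (14090, 830)]
      [(14225, 414), (14360, 414), (14360, 830), (14225, 830)] (.leaf ⟨0, 0, 1, 0⟩) (.leaf ⟨0, 36,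
      17, 0⟩))) (.rel2 [(14360, 830), (14360, 414), (15362, 414), (15447, 830)] (.leaf ⟨0, 1, 0,
      0⟩))) (.rel2 [(13280, 1760), (13280, 830), (15429, 830), (14720, 2720)] (.leaf ⟨0, 2, 2, 0⟩))

theorem okH7ok_3 :
    chkT cH7ok cH7ok TH7ok_3 (0, 0) (0, 0) dum dum [(13280, 480), (13371, 414), (15362, 414),
        (15440, 800), (14960, 2080), (13760, 2080), (13280, 1760)] = true := by
  decide +kernel

theorem stH7ok {z : ℂ} (hz : z ∈ Poly (vt .t7)) (h : 15 + 8 * Complex.I + 20 * (Complex.I * z * (64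
    * z ^ 6 - 80 * z ^ 4 + 24 * z ^ 2 - 1)) = 0) :
    (14298 < 16000 * z.re ∧ 16000 * z.re < 14301) ∧ 411 < 16000 * z.im ∧ 16000 * z.im < 414 := by
  have h0 : app (slots cH7ok 0 0 0 (16000 * z)) (fun i => (gH7ok i).v) 0 = 0 := by
    rw [evH7ok, h, mul_zero]
  have hZ := rgK7 hz
  have hs : shp nK7 = true := by decide +kernel
  have a0 := half_use rpH7ok hs (ax := false) (up := true) (m := 14298) (by decide +kernel) okH7ok_0
      hZ h0
  have a1 := half_use rpH7ok hs (ax := false) (up := false) (m := 14301) (by decide +kernel)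
      okH7ok_1 hZ h0
  have a2 := half_use rpH7ok hs (ax := true) (up := true) (m := 411) (by decide +kernel) okH7ok_2 hZ
      h0
  have a3 := half_use rpH7ok hs (ax := true) (up := false) (m := 414) (by decide +kernel) okH7ok_3
      hZ h0
  simp only [HP, not_le, Complex.mul_re, Complex.mul_im, Complex.re_ofNat, Complex.im_ofNat,
    zero_mul, sub_zero, add_zero] at a0 a1 a2 a3
  push_cast at a0 a1 a2 a3
  exact ⟨⟨a0, a1⟩, a2, a3⟩

/-- coefficients -/
def gH7p11 (i : ℕ) : G4 :=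
  if i = 0 then ⟨19327352832000000000000000000000000000, 0, 0, 0⟩ else
  if i = 2 then ⟨0, 1048576000000000000000000000, 0, 0⟩ else
  if i = 3 then ⟨0, 196608000000000000000000, 0, 0⟩ else
  if i = 5 then ⟨4096000000000000, 0, 0, 0⟩ else
  if i = 7 then ⟨0, 112000000, 0, 0⟩ else
  if i = 9 then ⟨9, 0, 0, 0⟩ else
  ⟨0, 0, 0, 0⟩

/-- configuration -/
def cH7p11 : Cfg := ⟨0, 0, 0, 8, 1, 1, 1, false, false, false,
  [⟨19327352832000000000000000000000000000, 0, 0, 0⟩, ⟨0, 0, 0, 0⟩, ⟨0,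
      1048576000000000000000000000, 0, 0⟩, ⟨0, 196608000000000000000000, 0, 0⟩, ⟨0, 0, 0, 0⟩,
      ⟨4096000000000000, 0, 0, 0⟩, ⟨0, 0, 0, 0⟩, ⟨0, 112000000, 0, 0⟩, ⟨0, 0, 0, 0⟩, ⟨9, 0, 0, 0⟩]⟩

lemma rpH7p11 : Rp cH7p11.L (fun i => (gH7p11 i).v) := by
  have h : cH7p11.L = (List.range 10).map gH7p11 := by rfl
  rw [h]
  exact rp_map _ _

lemma evH7p11 (z : ℂ) : app (slots cH7p11 0 0 0 (16000 * z)) (fun i => (gH7p11 i).v) 0 =
      9663676416000000000000000000000000000 * (z ^ 2 * (1 + (64 * z ^ 7 - 112 * z ^ 5 + 56 * z ^ 3 -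
          7 * z)) + 2 * (1 - z ^ 2)) := by
  rw [app_slots]
  simp only [cH7p11, Finset.sum_range_succ, Finset.sum_range_zero, Nat.reduceAdd, Nat.reduceMul,
    zero_add, add_zero, gH7p11, Nat.reduceEqDiff, if_true, if_false, v_zero, v_re, v_neg, v_im,
        v_imn,
    v_pp, v_pm, v_mp, v_mm, mul_zero, mr_false, Nat.cast_zero, OfNat.ofNat_ne_zero,
    OfNat.ofNat_eq_ofNat, Nat.reduceEqDiff, Nat.cast_ofNat, pow_zero, mul_one, Nat.choose_self,
    Nat.choose_zero_right, Nat.cast_one, one_mul]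
  simp only [Nat.choose, Nat.reduceAdd, pow_zero, pow_one, mul_one, one_mul, Nat.cast_one,
    Nat.cast_ofNat, mul_pow]
  ring

/-- tree -/
def TH7p11_0 : CT :=
  .cut2 false 14396 [(13280, 480), (13920, 16), (14396, 16), (14396, 2080), (13760, 2080), (13280,
      1760)] [(14396, 16), (14769, 16), (14769, 2080), (14396, 2080)] (.rel2 [(13920, 16), (14396,
      16), (14396, 2080), (11072, 2080)] (.leaf ⟨1, 0, 2, 0⟩)) (.cut2 false 14675 [(14396, 16),
      (14675, 16), (14675, 2080), (14396, 2080)] [(14675, 16), (14769, 16), (14769, 2080), (14675,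
      2080)] (.leaf ⟨1, 0, 2, 0⟩) (.cut2 true 1048 [(14675, 16), (14769, 16), (14769, 1048), (14675,
      1048)] [(14769, 1048), (14769, 2080), (14675, 2080), (14675, 1048)] (.cut2 true 790 [(14675,
      16), (14769, 16), (14769, 790), (14675, 790)] [(14769, 790), (14769, 1048), (14675, 1048),
      (14675, 790)] (.leaf ⟨1, 0, 3, 0⟩) (.leaf ⟨0, 0, 1, 0⟩)) (.leaf ⟨0, 1, 0, 0⟩)))

theorem okH7p11_0 :
    chkT cH7p11 cH7p11 TH7p11_0 (0, 0) (0, 0) dum dum [(13280, 480), (13920, 16), (14769, 16),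
        (14769, 2080), (13760, 2080), (13280, 1760)] = true := by
  decide +kernel

/-- tree -/
def TH7p11_1 : CT :=
  .cut2 true 1048 [(14772, 16), (15280, 16), (15440, 800), (15347, 1048), (14772, 1048)] [(15347,
      1048), (14960, 2080), (14772, 2080), (14772, 1048)] (.cut2 false 14939 [(14772, 16), (14939,
      16), (14939, 1048), (14772, 1048)] [(14939, 16), (15280, 16), (15440, 800), (15347, 1048),
      (14939, 1048)] (.cut2 true 532 [(14772, 16), (14939, 16), (14939, 532), (14772, 532)] [(14939,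
      532), (14939, 1048), (14772, 1048), (14772, 532)] (.leaf ⟨1, 0, 0, 0⟩) (.cut2 false 14813
      [(14813, 1048), (14772, 1048), (14772, 532), (14813, 532)] [(14939, 532), (14939, 1048),
      (14813, 1048), (14813, 532)] (.cut2 true 790 [(14772, 790), (14772, 532), (14813, 532),
      (14813, 790)] [(14813, 1048), (14772, 1048), (14772, 790), (14813, 790)] (.cut2 true 596
      [(14772, 596), (14772, 532), (14813, 532), (14813, 596)] [(14772, 790), (14772, 596), (14813,
      596), (14813, 790)] (.leaf ⟨1, 0, 0, 0⟩) (.leaf ⟨0, 9, 0, 39⟩)) (.leaf ⟨0, 1, 0, 0⟩)) (.leaf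
      ⟨0, 1, 0, 3⟩))) (.rel2 [(15347, 1048), (14939, 1048), (14939, 16), (15734, 16)] (.leaf ⟨1, 0,
      0, 5⟩))) (.rel2 [(14772, 1048), (15347, 1048), (14772, 2582)] (.leaf ⟨0, 1, 0, 0⟩))

theorem okH7p11_1 :
    chkT cH7p11 cH7p11 TH7p11_1 (0, 0) (0, 0) dum dum [(14772, 16), (15280, 16), (15440, 800),
        (14960, 2080), (14772, 2080)] = true := by
  decide +kernel

/-- tree -/
def TH7p11_2 : CT :=
  .cut2 true 580 [(13280, 480), (13920, 16), (15280, 16), (15396, 580), (13280, 580)] [(15396, 580),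
      (15434, 769), (13280, 769), (13280, 580)] (.rel2 [(15280, 16), (15396, 580), (13280, 580),
      (13279, 15)] (.leaf ⟨1, 0, 0, 0⟩)) (.cut2 false 14357 [(14357, 769), (13280, 769), (13280,
      580), (14357, 580)] [(15396, 580), (15434, 769), (14357, 769), (14357, 580)] (.leaf ⟨1, 0, 0,
      0⟩) (.cut2 true 721 [(15396, 580), (15425, 721), (14357, 721), (14357, 580)] [(15425, 721),
      (15434, 769), (14357, 769), (14357, 721)] (.leaf ⟨11, 0, 0, 5⟩) (.cut2 false 14895 [(14895,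
      769), (14357, 769), (14357, 721), (14895, 721)] [(15425, 721), (15434, 769), (14895, 769),
      (14895, 721)] (.cut2 false 14760 [(14760, 769), (14357, 769), (14357, 721), (14760, 721)]
      [(14895, 769), (14760, 769), (14760, 721), (14895, 721)] (.leaf ⟨1, 0, 0, 0⟩) (.leaf ⟨19, 0,
      0, 6⟩)) (.leaf ⟨0, 0, 0, 1⟩))))

theorem okH7p11_2 :
    chkT cH7p11 cH7p11 TH7p11_2 (0, 0) (0, 0) dum dum [(13280, 480), (13920, 16), (15280, 16),
        (15434, 769), (13280, 769)] = true := by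
  decide +kernel

/-- tree -/
def TH7p11_3 : CT :=
  .cut2 false 14360 [(14360, 2080), (13760, 2080), (13280, 1760), (13280, 772), (14360, 772)]
      [(15435, 772), (15440, 800), (14960, 2080), (14360, 2080), (14360, 772)] (.rel2 [(13280, 772),
      (14360, 772), (14360, 2080), (13279, 2080)] (.leaf ⟨0, 0, 1, 0⟩)) (.cut2 true 1099 [(15435,
      772), (15440, 800), (15328, 1099), (14360, 1099), (14360, 772)] [(15328, 1099), (14960, 2080),
      (14360, 2080), (14360, 1099)] (.cut2 false 14900 [(14900, 1099), (14360, 1099), (14360, 772),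
      (14900, 772)] [(15435, 772), (15440, 800), (15328, 1099), (14900, 1099), (14900, 772)] (.cut2
      false 14765 [(14765, 1099), (14360, 1099), (14360, 772), (14765, 772)] [(14900, 1099), (14765,
      1099), (14765, 772), (14900, 772)] (.leaf ⟨0, 0, 1, 0⟩) (.leaf ⟨0, 79, 13, 0⟩)) (.rel2
      [(14900, 1099), (14900, 772), (15435, 772), (15494, 1099)] (.leaf ⟨0, 1, 0, 2⟩))) (.rel2
      [(14360, 1099), (15328, 1099), (14360, 3680)] (.leaf ⟨0, 7, 4, 0⟩)))

theorem okH7p11_3 :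
    chkT cH7p11 cH7p11 TH7p11_3 (0, 0) (0, 0) dum dum [(15435, 772), (15440, 800), (14960, 2080),
        (13760, 2080), (13280, 1760), (13280, 772)] = true := by
  decide +kernel

theorem stH7p11 {z : ℂ} (hz : z ∈ Poly (vt .t7)) (h : z ^ 2 * (1 + (64 * z ^ 7 - 112 * z ^ 5 + 56 *
    z ^ 3 - 7 * z)) + 2 * (1 - z ^ 2) = 0) :
    (14769 < 16000 * z.re ∧ 16000 * z.re < 14772) ∧ 769 < 16000 * z.im ∧ 16000 * z.im < 772 := by
  have h0 : app (slots cH7p11 0 0 0 (16000 * z)) (fun i => (gH7p11 i).v) 0 = 0 := by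
    rw [evH7p11, h, mul_zero]
  have hZ := rgK7 hz
  have hs : shp nK7 = true := by decide +kernel
  have a0 := half_use rpH7p11 hs (ax := false) (up := true) (m := 14769) (by decide +kernel)
      okH7p11_0 hZ h0
  have a1 := half_use rpH7p11 hs (ax := false) (up := false) (m := 14772) (by decide +kernel)
      okH7p11_1 hZ h0
  have a2 := half_use rpH7p11 hs (ax := true) (up := true) (m := 769) (by decide +kernel) okH7p11_2
      hZ h0
  have a3 := half_use rpH7p11 hs (ax := true) (up := false) (m := 772) (by decide +kernel) okH7p11_3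
      hZ h0
  simp only [HP, not_le, Complex.mul_re, Complex.mul_im, Complex.re_ofNat, Complex.im_ofNat,
    zero_mul, sub_zero, add_zero] at a0 a1 a2 a3
  push_cast at a0 a1 a2 a3
  exact ⟨⟨a0, a1⟩, a2, a3⟩

/-- coefficients -/
def gH7p1k (i : ℕ) : G4 :=
  if i = 0 then ⟨74093141904662200320000000000000000000000000000000000000000, 0,
      31697600814828748800000000000000000000000000000000000000000, 0⟩ else
  if i = 1 then ⟨2476375063658496000000000000000000000000000000000000000, 0,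
      1320733367284531200000000000000000000000000000000000000, 0⟩ else
  if i = 2 then ⟨2267742732288000000000000000000000000000000000000, 0, 0, 0⟩ else
  if i = 3 then ⟨0, 2976412336128000000000000000000000000000000000, 0,
      1587419912601600000000000000000000000000000000⟩ else
  if i = 4 then ⟨0, 38654705664000000000000000000000000000000, 0, 0⟩ else
  if i = 5 then ⟨4227858432000000000000000000000000000, 0, 2254857830400000000000000000000000000, 0⟩
      else
  if i = 6 then ⟨771751936000000000000000000000000, 0, 0, 0⟩ else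
  if i = 7 then ⟨0, 5505024000000000000000000000, 0, 2936012800000000000000000000⟩ else
  if i = 8 then ⟨0, 16252928000000000000000000, 0, 0⟩ else
  if i = 10 then ⟨454656000000000000, 0, 0, 0⟩ else
  if i = 12 then ⟨0, 21120000000, 0, 0⟩ else
  if i = 14 then ⟨3003, 0, 0, 0⟩ else
  ⟨0, 0, 0, 0⟩

/-- configuration -/
def cH7p1k : Cfg := ⟨0, 0, 0, 13, 1, 1, 1, false, false, false,
  [⟨74093141904662200320000000000000000000000000000000000000000, 0,
      31697600814828748800000000000000000000000000000000000000000, 0⟩,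
      ⟨2476375063658496000000000000000000000000000000000000000, 0,
      1320733367284531200000000000000000000000000000000000000, 0⟩,
      ⟨2267742732288000000000000000000000000000000000000, 0, 0, 0⟩, ⟨0,
      2976412336128000000000000000000000000000000000, 0,
      1587419912601600000000000000000000000000000000⟩, ⟨0,
      38654705664000000000000000000000000000000, 0, 0⟩, ⟨4227858432000000000000000000000000000, 0,
      2254857830400000000000000000000000000, 0⟩, ⟨771751936000000000000000000000000, 0, 0, 0⟩, ⟨0,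
      5505024000000000000000000000, 0, 2936012800000000000000000000⟩, ⟨0,
      16252928000000000000000000, 0, 0⟩, ⟨0, 0, 0, 0⟩, ⟨454656000000000000, 0, 0, 0⟩, ⟨0, 0, 0, 0⟩,
      ⟨0, 21120000000, 0, 0⟩, ⟨0, 0, 0, 0⟩, ⟨3003, 0, 0, 0⟩]⟩

lemma rpH7p1k : Rp cH7p1k.L (fun i => (gH7p1k i).v) := by
  have h : cH7p1k.L = (List.range 15).map gH7p1k := by rfl
  rw [h]
  exact rp_map _ _

lemma evH7p1k (z : ℂ) : app (slots cH7p1k 0 0 0 (16000 * z)) (fun i => (gH7p1k i).v) 0 =
      132073336728453120000000000000000000000000000000000000000 * (561 + 240 * Complex.I - (600 +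
          320 * Complex.I) * (64 * z ^ 7 - 112 * z ^ 5 + 56 * z ^ 3 - 7 * z) + 400 * (z * (64 * z ^
          6 - 80 * z ^ 4 + 24 * z ^ 2 - 1)) ^ 2) := by
  rw [app_slots]
  simp only [cH7p1k, Finset.sum_range_succ, Finset.sum_range_zero, Nat.reduceAdd, Nat.reduceMul,
    zero_add, add_zero, gH7p1k, Nat.reduceEqDiff, if_true, if_false, v_zero, v_re, v_neg, v_im,
        v_imn,
    v_pp, v_pm, v_mp, v_mm, mul_zero, mr_false, Nat.cast_zero, OfNat.ofNat_ne_zero,
    OfNat.ofNat_eq_ofNat, Nat.reduceEqDiff, Nat.cast_ofNat, pow_zero, mul_one, Nat.choose_self,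
    Nat.choose_zero_right, Nat.cast_one, one_mul]
  simp only [Nat.choose, Nat.reduceAdd, pow_zero, pow_one, mul_one, one_mul, Nat.cast_one,
    Nat.cast_ofNat, mul_pow]
  ring

/-- tree -/
def TH7p1k_0 : CT :=
  .cut2 false 14257 [(13280, 480), (13920, 16), (14257, 16), (14257, 2080), (13760, 2080), (13280,
      1760)] [(14257, 16), (14583, 16), (14583, 2080), (14257, 2080)] (.rel2 [(14257, 16), (14257,
      2412), (10660, 12)] (.leaf ⟨1, 0, 0, 0⟩)) (.cut2 false 14501 [(14257, 16), (14501, 16),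
      (14501, 2080), (14257, 2080)] [(14501, 16), (14583, 16), (14583, 2080), (14501, 2080)] (.leaf
      ⟨4, 0, 3, 0⟩) (.cut2 true 1048 [(14501, 16), (14583, 16), (14583, 1048), (14501, 1048)]
      [(14583, 1048), (14583, 2080), (14501, 2080), (14501, 1048)] (.cut2 true 790 [(14501, 16),
      (14583, 16), (14583, 790), (14501, 790)] [(14583, 790), (14583, 1048), (14501, 1048), (14501,
      790)] (.leaf ⟨1, 0, 0, 0⟩) (.leaf ⟨17, 0, 11, 0⟩)) (.leaf ⟨0, 0, 1, 0⟩)))

theorem okH7p1k_0 :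
    chkT cH7p1k cH7p1k TH7p1k_0 (0, 0) (0, 0) dum dum [(13280, 480), (13920, 16), (14583, 16),
        (14583, 2080), (13760, 2080), (13280, 1760)] = true := by
  decide +kernel

/-- tree -/
def TH7p1k_1 : CT :=
  .cut2 true 1048 [(14586, 16), (15280, 16), (15440, 800), (15347, 1048), (14586, 1048)] [(15347,
      1048), (14960, 2080), (14586, 2080), (14586, 1048)] (.cut2 true 790 [(14586, 16), (15280, 16),
      (15438, 790), (14586, 790)] [(15438, 790), (15440, 800), (15347, 1048), (14586, 1048), (14586,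
      790)] (.leaf ⟨1, 0, 0, 2⟩) (.cut2 true 854 [(15438, 790), (15440, 800), (15420, 854), (14586,
      854), (14586, 790)] [(15420, 854), (15347, 1048), (14586, 1048), (14586, 854)] (.rel2 [(15420,
      854), (14586, 854), (14586, 790), (15444, 790)] (.leaf ⟨0, 17, 0, 11⟩)) (.leaf ⟨0, 1, 0, 0⟩)))
      (.leaf ⟨0, 2, 2, 0⟩)

theorem okH7p1k_1 :
    chkT cH7p1k cH7p1k TH7p1k_1 (0, 0) (0, 0) dum dum [(14586, 16), (15280, 16), (15440, 800),
        (14960, 2080), (14586, 2080)] = true := by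
  decide +kernel

/-- tree -/
def TH7p1k_2 : CT :=
  .cut2 true 622 [(13280, 480), (13920, 16), (15280, 16), (15404, 622), (13280, 622)] [(15404, 622),
      (15440, 800), (15431, 824), (13280, 824), (13280, 622)] (.rel2 [(15280, 16), (15404, 622),
      (13280, 622), (13279, 15)] (.leaf ⟨1, 0, 0, 2⟩)) (.cut2 false 14360 [(14360, 824), (13280,
      824), (13280, 622), (14360, 622)] [(15404, 622), (15440, 800), (15431, 824), (14360, 824),
      (14360, 622)] (.leaf ⟨1, 0, 0, 0⟩) (.cut2 false 14630 [(14630, 824), (14360, 824), (14360,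
      622), (14630, 622)] [(15404, 622), (15440, 800), (15431, 824), (14630, 824), (14630, 622)]
      (.leaf ⟨4, 0, 0, 7⟩) (.rel2 [(15431, 824), (14630, 824), (14630, 622), (15507, 622)] (.leaf
      ⟨0, 0, 0, 1⟩))))

theorem okH7p1k_2 :
    chkT cH7p1k cH7p1k TH7p1k_2 (0, 0) (0, 0) dum dum [(13280, 480), (13920, 16), (15280, 16),
        (15440, 800), (15431, 824), (13280, 824)] = true := by
  decide +kernel

/-- tree -/
def TH7p1k_3 : CT :=
  .cut2 false 14355 [(14355, 2080), (13760, 2080), (13280, 1760), (13280, 827), (14355, 827)]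
      [(15430, 827), (14960, 2080), (14355, 2080), (14355, 827)] (.rel2 [(14355, 827), (14355,
      2477), (11880, 827)] (.leaf ⟨1, 0, 0, 0⟩)) (.cut2 true 1140 [(15430, 827), (15313, 1140),
      (14355, 1140), (14355, 827)] [(15313, 1140), (14960, 2080), (14355, 2080), (14355, 1140)]
      (.cut2 false 14623 [(14623, 1140), (14355, 1140), (14355, 827), (14623, 827)] [(15430, 827),
      (15313, 1140), (14623, 1140), (14623, 827)] (.cut2 false 14556 [(14556, 1140), (14355, 1140),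
      (14355, 827), (14556, 827)] [(14623, 1140), (14556, 1140), (14556, 827), (14623, 827)] (.leaf
      ⟨0, 0, 1, 0⟩) (.leaf ⟨0, 21, 34, 0⟩)) (.leaf ⟨0, 1, 0, 0⟩)) (.leaf ⟨0, 1, 2, 0⟩))

theorem okH7p1k_3 :
    chkT cH7p1k cH7p1k TH7p1k_3 (0, 0) (0, 0) dum dum [(15430, 827), (14960, 2080), (13760, 2080),
        (13280, 1760), (13280, 827)] = true := by
  decide +kernel

theorem stH7p1k {z : ℂ} (hz : z ∈ Poly (vt .t7)) (h : 561 + 240 * Complex.I - (600 + 320 *
    Complex.I) * (64 * z ^ 7 - 112 * z ^ 5 + 56 * z ^ 3 - 7 * z) + 400 * (z * (64 * z ^ 6 - 80 * z ^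
    4 + 24 * z ^ 2 - 1)) ^ 2 = 0) :
    (14583 < 16000 * z.re ∧ 16000 * z.re < 14586) ∧ 824 < 16000 * z.im ∧ 16000 * z.im < 827 := by
  have h0 : app (slots cH7p1k 0 0 0 (16000 * z)) (fun i => (gH7p1k i).v) 0 = 0 := by
    rw [evH7p1k, h, mul_zero]
  have hZ := rgK7 hz
  have hs : shp nK7 = true := by decide +kernel
  have a0 := half_use rpH7p1k hs (ax := false) (up := true) (m := 14583) (by decide +kernel)
      okH7p1k_0 hZ h0
  have a1 := half_use rpH7p1k hs (ax := false) (up := false) (m := 14586) (by decide +kernel)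
      okH7p1k_1 hZ h0
  have a2 := half_use rpH7p1k hs (ax := true) (up := true) (m := 824) (by decide +kernel) okH7p1k_2
      hZ h0
  have a3 := half_use rpH7p1k hs (ax := true) (up := false) (m := 827) (by decide +kernel) okH7p1k_3
      hZ h0
  simp only [HP, not_le, Complex.mul_re, Complex.mul_im, Complex.re_ofNat, Complex.im_ofNat,
    zero_mul, sub_zero, add_zero] at a0 a1 a2 a3
  push_cast at a0 a1 a2 a3
  exact ⟨⟨a0, a1⟩, a2, a3⟩

/-- coefficients -/
def gH7pkk (i : ℕ) : G4 :=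
  if i = 0 then ⟨7779259514880000000000000000000000000, 0, 11596411699200000000000000000000000000,
      0⟩ else
  if i = 2 then ⟨204472320000000000000000000, 0, 0, 1258291200000000000000000000⟩ else
  if i = 3 then ⟨0, 196608000000000000000000, 0, 0⟩ else
  if i = 5 then ⟨4096000000000000, 0, 0, 0⟩ else
  if i = 7 then ⟨0, 112000000, 0, 0⟩ else
  if i = 9 then ⟨9, 0, 0, 0⟩ else
  ⟨0, 0, 0, 0⟩

/-- configuration -/
def cH7pkk : Cfg := ⟨0, 0, 0, 8, 1, 1, 1, false, false, false,
  [⟨7779259514880000000000000000000000000, 0, 11596411699200000000000000000000000000, 0⟩, ⟨0, 0, 0,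
      0⟩, ⟨204472320000000000000000000, 0, 0, 1258291200000000000000000000⟩, ⟨0,
      196608000000000000000000, 0, 0⟩, ⟨0, 0, 0, 0⟩, ⟨4096000000000000, 0, 0, 0⟩, ⟨0, 0, 0, 0⟩, ⟨0,
      112000000, 0, 0⟩, ⟨0, 0, 0, 0⟩, ⟨9, 0, 0, 0⟩]⟩

lemma rpH7pkk : Rp cH7pkk.L (fun i => (gH7pkk i).v) := by
  have h : cH7pkk.L = (List.range 10).map gH7pkk := by rfl
  rw [h]
  exact rp_map _ _

lemma evH7pkk (z : ℂ) : app (slots cH7pkk 0 0 0 (16000 * z)) (fun i => (gH7pkk i).v) 0 =
      48318382080000000000000000000000000 * (200 * (z ^ 2 * (1 + (64 * z ^ 7 - 112 * z ^ 5 + 56 * z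
          ^ 3 - 7 * z))) + (161 + 240 * Complex.I) * (1 - z ^ 2)) := by
  rw [app_slots]
  simp only [cH7pkk, Finset.sum_range_succ, Finset.sum_range_zero, Nat.reduceAdd, Nat.reduceMul,
    zero_add, add_zero, gH7pkk, Nat.reduceEqDiff, if_true, if_false, v_zero, v_re, v_neg, v_im,
        v_imn,
    v_pp, v_pm, v_mp, v_mm, mul_zero, mr_false, Nat.cast_zero, OfNat.ofNat_ne_zero,
    OfNat.ofNat_eq_ofNat, Nat.reduceEqDiff, Nat.cast_ofNat, pow_zero, mul_one, Nat.choose_self,
    Nat.choose_zero_right, Nat.cast_one, one_mul]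
  simp only [Nat.choose, Nat.reduceAdd, pow_zero, pow_one, mul_one, one_mul, Nat.cast_one,
    Nat.cast_ofNat, mul_pow]
  ring

/-- tree -/
def TH7pkk_0 : CT :=
  .cut2 false 14088 [(13280, 480), (13920, 16), (14088, 16), (14088, 2080), (13760, 2080), (13280,
      1760)] [(14088, 16), (14358, 16), (14358, 2080), (14088, 2080)] (.rel2 [(13279, 15), (14088,
      16), (14088, 2080), (13279, 2080)] (.leaf ⟨7, 0, 4, 0⟩)) (.cut2 false 14290 [(14088, 16),
      (14290, 16), (14290, 2080), (14088, 2080)] [(14290, 16), (14358, 16), (14358, 2080), (14290,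
      2080)] (.leaf ⟨17, 0, 11, 0⟩) (.cut2 true 1048 [(14290, 16), (14358, 16), (14358, 1048),
      (14290, 1048)] [(14358, 1048), (14358, 2080), (14290, 2080), (14290, 1048)] (.cut2 true 790
      [(14290, 16), (14358, 16), (14358, 790), (14290, 790)] [(14358, 790), (14358, 1048), (14290,
      1048), (14290, 790)] (.leaf ⟨1, 0, 0, 0⟩) (.leaf ⟨6, 0, 5, 0⟩)) (.leaf ⟨0, 0, 1, 0⟩)))

theorem okH7pkk_0 :
    chkT cH7pkk cH7pkk TH7pkk_0 (0, 0) (0, 0) dum dum [(13280, 480), (13920, 16), (14358, 16),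
        (14358, 2080), (13760, 2080), (13280, 1760)] = true := by
  decide +kernel

/-- tree -/
def TH7pkk_1 : CT :=
  .cut2 true 1048 [(14361, 16), (15280, 16), (15440, 800), (15347, 1048), (14361, 1048)] [(15347,
      1048), (14960, 2080), (14361, 2080), (14361, 1048)] (.cut2 true 790 [(14361, 16), (15280, 16),
      (15438, 790), (14361, 790)] [(15438, 790), (15440, 800), (15347, 1048), (14361, 1048), (14361,
      790)] (.leaf ⟨0, 0, 0, 1⟩) (.cut2 true 854 [(15438, 790), (15440, 800), (15420, 854), (14361,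
      854), (14361, 790)] [(15420, 854), (15347, 1048), (14361, 1048), (14361, 854)] (.rel2 [(15420,
      854), (14361, 854), (14361, 790), (15444, 790)] (.leaf ⟨0, 0, 0, 1⟩)) (.leaf ⟨0, 31, 0, 25⟩)))
      (.rel2 [(14361, 1048), (15347, 1048), (14361, 3678)] (.leaf ⟨0, 19, 6, 0⟩))

theorem okH7pkk_1 :
    chkT cH7pkk cH7pkk TH7pkk_1 (0, 0) (0, 0) dum dum [(14361, 16), (15280, 16), (15440, 800),
        (14960, 2080), (14361, 2080)] = true := by
  decide +kernel

/-- tree -/
def TH7pkk_2 : CT :=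
  .cut2 false 14360 [(13280, 480), (13920, 16), (14360, 16), (14360, 882), (13280, 882)] [(14360,
      16), (15280, 16), (15440, 800), (15410, 882), (14360, 882)] (.rel2 [(14360, 16), (14360, 882),
      (13280, 882), (13279, 15)] (.leaf ⟨1, 0, 0, 0⟩)) (.rel2 [(14360, 882), (14360, 16), (15280,
      16), (15457, 882)] (.leaf ⟨0, 0, 0, 1⟩))

theorem okH7pkk_2 :
    chkT cH7pkk cH7pkk TH7pkk_2 (0, 0) (0, 0) dum dum [(13280, 480), (13920, 16), (15280, 16),
        (15440, 800), (15410, 882), (13280, 882)] = true := by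
  decide +kernel

/-- tree -/
def TH7pkk_3 : CT :=
  .cut2 false 14344 [(14344, 2080), (13760, 2080), (13280, 1760), (13280, 885), (14344, 885)]
      [(15409, 885), (14960, 2080), (14344, 2080), (14344, 885)] (.rel2 [(13280, 885), (14344, 885),
      (14344, 2080), (13279, 2080)] (.leaf ⟨1, 0, 2, 0⟩)) (.cut2 false 14610 [(14610, 2080), (14344,
      2080), (14344, 885), (14610, 885)] [(15409, 885), (14960, 2080), (14610, 2080), (14610, 885)]
      (.cut2 false 14410 [(14410, 2080), (14344, 2080), (14344, 885), (14410, 885)] [(14610, 2080),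
      (14410, 2080), (14410, 885), (14610, 885)] (.leaf ⟨0, 28, 29, 0⟩) (.leaf ⟨0, 1, 0, 0⟩)) (.rel2
      [(14610, 885), (15409, 885), (14610, 3012)] (.leaf ⟨0, 1, 0, 0⟩)))

theorem okH7pkk_3 :
    chkT cH7pkk cH7pkk TH7pkk_3 (0, 0) (0, 0) dum dum [(15409, 885), (14960, 2080), (13760, 2080),
        (13280, 1760), (13280, 885)] = true := by
  decide +kernel

theorem stH7pkk {z : ℂ} (hz : z ∈ Poly (vt .t7)) (h : 200 * (z ^ 2 * (1 + (64 * z ^ 7 - 112 * z ^ 5
    + 56 * z ^ 3 - 7 * z))) + (161 + 240 * Complex.I) * (1 - z ^ 2) = 0) :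
    (14358 < 16000 * z.re ∧ 16000 * z.re < 14361) ∧ 882 < 16000 * z.im ∧ 16000 * z.im < 885 := by
  have h0 : app (slots cH7pkk 0 0 0 (16000 * z)) (fun i => (gH7pkk i).v) 0 = 0 := by
    rw [evH7pkk, h, mul_zero]
  have hZ := rgK7 hz
  have hs : shp nK7 = true := by decide +kernel
  have a0 := half_use rpH7pkk hs (ax := false) (up := true) (m := 14358) (by decide +kernel)
      okH7pkk_0 hZ h0
  have a1 := half_use rpH7pkk hs (ax := false) (up := false) (m := 14361) (by decide +kernel)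
      okH7pkk_1 hZ h0
  have a2 := half_use rpH7pkk hs (ax := true) (up := true) (m := 882) (by decide +kernel) okH7pkk_2
      hZ h0
  have a3 := half_use rpH7pkk hs (ax := true) (up := false) (m := 885) (by decide +kernel) okH7pkk_3
      hZ h0
  simp only [HP, not_le, Complex.mul_re, Complex.mul_im, Complex.re_ofNat, Complex.im_ofNat,
    zero_mul, sub_zero, add_zero] at a0 a1 a2 a3
  push_cast at a0 a1 a2 a3
  exact ⟨⟨a0, a1⟩, a2, a3⟩

end Pool.Agent.Work.MP_b30479_gt.G2.SC
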