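import Pool.Agent.Work.MP_b30479_gt.G2.SRefG
import Pool.Agent.Work.MP_b30479_gt.G2.SRefS
import Pool.Agent.Work.MP_b30479_gt.G2.S2Final
import Pool.Agent.Work.MP_b30479_gt.G2.SRefD1A
import Pool.Agent.Work.MP_b30479_gt.G2.SRefD1B
import Pool.Agent.Work.MP_b30479_gt.G2.SRefD1C
import Pool.Agent.Work.MP_b30479_gt.G2.SRefD1D
import Pool.Agent.Work.MP_b30479_gt.G2.SRefD1E
import Pool.Agent.Work.MP_b30479_gt.G2.SRefD1F
import Pool.Agent.Work.MP_b30479_gt.G2.SRefD1G
import Pool.Agent.Work.MP_b30479_gt.G2.SRefD2A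
import Pool.Agent.Work.MP_b30479_gt.G2.SRefD2B
import Pool.Agent.Work.MP_b30479_gt.G2.SRefD2C
import Pool.Agent.Work.MP_b30479_gt.G2.SRefD2D
import Pool.Agent.Work.MP_b30479_gt.G2.SRefD2E
import Pool.Agent.Work.MP_b30479_gt.G2.SRefD2F
import Pool.Agent.Work.MP_b30479_gt.G2.SRefD2G
import Pool.Agent.Work.MP_b30479_gt.G2.SRefD3A
import Pool.Agent.Work.MP_b30479_gt.G2.SRefD3B
import Pool.Agent.Work.MP_b30479_gt.G2.SRefD3C
import Pool.Agent.Work.MP_b30479_gt.G2.SRefD3D
import Pool.Agent.Work.MP_b30479_gt.G2.SRefD3E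
import Pool.Agent.Work.MP_b30479_gt.G2.SRefD3F
import Pool.Agent.Work.MP_b30479_gt.G2.SRefD3G

/-!
# Refined location of the rings with `2, …, 7` crossings: all statements of the three rounds
-/

set_option linter.style.longLine false

namespace Pool.Agent.Work.MP_b30479_gt.G2

open Complex Set SC
open scoped ComplexConjugate

/-- the second center -/
noncomputable def kst : ℂ := ⟨3 / 4, 2 / 5⟩

lemma kst_eq : 20 * kst = 15 + 8 * I := by
  apply Complex.ext
  · simp only [kst, Complex.mul_re, Complex.re_ofNat, Complex.im_ofNat, Complex.add_re, Complex.I_re,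
      Complex.I_im]
    norm_num
  · simp only [kst, Complex.mul_im, Complex.re_ofNat, Complex.im_ofNat, Complex.add_im, Complex.I_re,
      Complex.I_im]
    norm_num

lemma one_in {V : List (ℤ × ℤ)} (h : ptIn (1000, 0) V = true) : (1 : ℂ) ∈ Poly V :=
  pt_mem h (by norm_num) (by norm_num)

lemma kst_in {V : List (ℤ × ℤ)} (h : ptIn (750, 400) V = true) : kst ∈ Poly V :=
  pt_mem h (by norm_num [kst]) (by norm_num [kst])

lemma one_inF {V : List (ℤ × ℤ)} (h : ptIn (1000, 0) V = true) : (1 : ℂ) ∈ frS (-1) (Poly V) := by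
  rw [frS_neg]
  show conj (1 : ℂ) ∈ Poly V
  rw [map_one]
  exact one_in h

lemma memF {K : Set ℂ} {k : ℂ} (h : k ∈ frS (-1) K) : conj k ∈ K := by
  rw [frS_neg] at h
  exact h

lemma rePS {V : List (ℤ × ℤ)} (h : inOK V pS = true) : ∀ k ∈ Poly V, 0 < k.re := fun k hk =>
  lt_of_lt_of_le (by norm_num) (SL.PS k (poly_in h hk)).re

lemma rePF {V : List (ℤ × ℤ)} (h : inOK V pA = true) : ∀ k ∈ frS (-1) (Poly V), 0 < k.re :=
  fun k hk => lt_of_lt_of_le (by norm_num) (SL.PA k (frS_mono (poly_in h) hk)).re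

/-- algebra of the centers -/
lemma c_ok {x : ℂ} (h : kst + x = 0) : 15 + 8 * I + 20 * x = 0 := by
  linear_combination 20 * h - kst_eq

lemma c_p1k {C X : ℂ} (h : (1 : ℂ) ^ 2 + kst ^ 2 - 2 * 1 * kst * C + X = 0) :
    561 + 240 * I - (600 + 320 * I) * C + 400 * X = 0 := by
  have e := kst_eq
  linear_combination 400 * h - (20 * kst + 15 + 8 * I - 40 * C) * e - 64 * I_sq

lemma c_pkk {C z : ℂ} (h : z ^ 2 * (1 + C) + 2 * kst ^ 2 * (1 - z ^ 2) = 0) :
    200 * (z ^ 2 * (1 + C)) + (161 + 240 * I) * (1 - z ^ 2) = 0 := by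
  have e := kst_eq
  linear_combination 200 * h - (1 - z ^ 2) * (20 * kst + 15 + 8 * I) * e - 64 * (1 - z ^ 2) * I_sq

lemma c_p11 {C z : ℂ} (h : z ^ 2 * (1 + C) + 2 * (1 : ℂ) ^ 2 * (1 - z ^ 2) = 0) :
    z ^ 2 * (1 + C) + 2 * (1 - z ^ 2) = 0 := by
  rw [one_pow, mul_one] at h
  exact h

lemma cB2 (w : ℂ) : Complex.cos (((2 : ℕ) : ℝ) * w) = (fun z : ℂ => 2 * z ^ 2 - 1) (Complex.cos w) ∧
    Complex.sin (((2 : ℕ) : ℝ) * w) = Complex.sin w * (fun z : ℂ => 2 * z) (Complex.cos w) := by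
  exact_mod_cast SL.cs2 w

lemma cB3 (w : ℂ) : Complex.cos (((3 : ℕ) : ℝ) * w) = (fun z : ℂ => 4 * z ^ 3 - 3 * z) (Complex.cos w) ∧
    Complex.sin (((3 : ℕ) : ℝ) * w) = Complex.sin w * (fun z : ℂ => 4 * z ^ 2 - 1) (Complex.cos w) := by
  exact_mod_cast SL.cs3 w

lemma cB4 (w : ℂ) : Complex.cos (((4 : ℕ) : ℝ) * w) = (fun z : ℂ => 8 * z ^ 4 - 8 * z ^ 2 + 1) (Complex.cos w) ∧
    Complex.sin (((4 : ℕ) : ℝ) * w) = Complex.sin w * (fun z : ℂ => 8 * z ^ 3 - 4 * z) (Complex.cos w) := by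
  exact_mod_cast SL.cs4 w

lemma cB5 (w : ℂ) : Complex.cos (((5 : ℕ) : ℝ) * w) = (fun z : ℂ => 16 * z ^ 5 - 20 * z ^ 3 + 5 * z) (Complex.cos w) ∧
    Complex.sin (((5 : ℕ) : ℝ) * w) = Complex.sin w * (fun z : ℂ => 16 * z ^ 4 - 12 * z ^ 2 + 1) (Complex.cos w) := by
  exact_mod_cast SL.cs5 w

lemma cB6 (w : ℂ) : Complex.cos (((6 : ℕ) : ℝ) * w) = (fun z : ℂ => 32 * z ^ 6 - 48 * z ^ 4 + 18 * z ^ 2 - 1) (Complex.cos w) ∧
    Complex.sin (((6 : ℕ) : ℝ) * w) = Complex.sin w * (fun z : ℂ => 32 * z ^ 5 - 32 * z ^ 3 + 6 * z) (Complex.cos w) := by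
  exact_mod_cast SL.cs6 w

lemma cB7 (w : ℂ) : Complex.cos (((7 : ℕ) : ℝ) * w) = (fun z : ℂ => 64 * z ^ 7 - 112 * z ^ 5 + 56 * z ^ 3 - 7 * z) (Complex.cos w) ∧
    Complex.sin (((7 : ℕ) : ℝ) * w) = Complex.sin w * (fun z : ℂ => 64 * z ^ 6 - 80 * z ^ 4 + 24 * z ^ 2 - 1) (Complex.cos w) := by
  exact_mod_cast SL.cs7 w

/-! ### round 1 -/

theorem rf1_2ea : Rf1 ((2 : ℕ) : ℝ) .t2e (frS (-1) (Poly p1_A2)) v1_2ea :=
  rf1_of (C := fun z => 2 * z ^ 2 - 1) (U := fun z => 2 * z) cB2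
    (ringFacts.end_a 2 (by norm_num)) (frS_mono (poly_in (by decide))) (one_inF (by decide)) (starC_frS (starC_poly (one_in (by decide)))) (rePF (by decide)) (by decide)
    (fun _ _ hz hk => fr1_2ea hz (memF hk))
    (fun _ hz h => box_polyU (x1 := 7999) (x2 := 8002) (y1 := 7999) (y2 := 8002)
      (by decide) (by exact_mod_cast stH2eo1 hz h))

theorem rf1_2aa : Rf2 ((2 : ℕ) : ℝ) .t2aa (frS (-1) (Poly p1_A2))
    (frS (-1) (Poly p1_A2)) v1_2aa :=
  rf2_of (C := fun z => 2 * z ^ 2 - 1) (U := fun z => 2 * z) cB2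
    (ringFacts.aa 2 (by norm_num)) (frS_mono (poly_in (by decide))) (frS_mono (poly_in (by decide))) (one_inF (by decide)) (one_inF (by decide))
    (starC_frS (starC_poly (one_in (by decide)))) (starC_frS (starC_poly (one_in (by decide)))) (rePF (by decide)) (rePF (by decide)) (by decide)
    (fun _ _ _ hz hk hl => fr1_2aa hz (memF hk) (memF hl))
    (fun _ hz h h2 => box_polyU (x1 := 13855) (x2 := 13858) (y1 := 7999) (y2 := 8002)
      (by decide) (by exact_mod_cast stH2aap11 hz (c_p11 (h2 rfl))))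

theorem rf1_2as : Rf2 ((2 : ℕ) : ℝ) .t2as (frS (-1) (Poly p1_A1))
    (Poly p1_ST) v1_2as :=
  rf2_of (C := fun z => 2 * z ^ 2 - 1) (U := fun z => 2 * z) cB2
    (by exact_mod_cast ringFacts.as2) (frS_mono (poly_in (by decide))) (poly_in (by decide)) (one_inF (by decide)) (one_in (by decide))
    (starC_frS (starC_poly (one_in (by decide)))) (starC_poly (one_in (by decide))) (rePF (by decide)) (rePS (by decide)) (by decide)
    (fun _ _ _ hz hk hl => fr1_2as hz (memF hk) hl)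
    (fun _ hz h h2 => box_polyU (x1 := 13855) (x2 := 13858) (y1 := 7999) (y2 := 8002)
      (by decide) (by exact_mod_cast stH2asp11 hz (c_p11 (h2 rfl))))

theorem rf1_3ea : Rf1 ((3 : ℕ) : ℝ) .t3ae (frS (-1) (Poly p1_A2)) v1_3ea :=
  rf1_of (C := fun z => 4 * z ^ 3 - 3 * z) (U := fun z => 4 * z ^ 2 - 1) cB3
    (ringFacts.end_a 3 (by norm_num)) (frS_mono (poly_in (by decide))) (one_inF (by decide)) (starC_frS (starC_poly (one_in (by decide)))) (rePF (by decide)) (by decide)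
    (fun _ _ hz hk => fr1_3ea hz (memF hk))
    (fun _ hz h => box_polyU (x1 := 10582) (x2 := 10585) (y1 := 3999) (y2 := 4002)
      (by decide) (by exact_mod_cast stH3aeo1 hz h))

theorem rf1_3es : Rf1 ((3 : ℕ) : ℝ) .t3se (Poly p1_S2) v1_3es :=
  rf1_of (C := fun z => 4 * z ^ 3 - 3 * z) (U := fun z => 4 * z ^ 2 - 1) cB3
    (ringFacts.end_s 3 (by norm_num)) (poly_in (by decide)) (one_in (by decide)) (starC_poly (one_in (by decide))) (rePS (by decide)) (by decide)
    (fun _ _ hz hk => fr1_3es hz hk)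
    (fun _ hz h => box_polyU (x1 := 10582) (x2 := 10585) (y1 := 3999) (y2 := 4002)
      (by decide) (by exact_mod_cast stH3seo1 hz h))

theorem rf1_3aa : Rf2 ((3 : ℕ) : ℝ) .t3aa (frS (-1) (Poly p1_A2))
    (frS (-1) (Poly p1_A2)) v1_3aa :=
  rf2_of (C := fun z => 4 * z ^ 3 - 3 * z) (U := fun z => 4 * z ^ 2 - 1) cB3
    (ringFacts.aa 3 (by norm_num)) (frS_mono (poly_in (by decide))) (frS_mono (poly_in (by decide))) (one_inF (by decide)) (one_inF (by decide))
    (starC_frS (starC_poly (one_in (by decide)))) (starC_frS (starC_poly (one_in (by decide)))) (rePF (by decide)) (rePF (by decide)) (by decide)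
    (fun _ _ _ hz hk hl => fr1_3aa hz (memF hk) (memF hl))
    (fun _ hz h h2 => box_polyU (x1 := 13550) (x2 := 13553) (y1 := 4648) (y2 := 4651)
      (by decide) (by exact_mod_cast stH3aap11 hz (c_p11 (h2 rfl))))

theorem rf1_3as : Rf2 ((3 : ℕ) : ℝ) .t3as (frS (-1) (Poly p1_A2))
    (Poly p1_S2) v1_3as :=
  rf2_of (C := fun z => 4 * z ^ 3 - 3 * z) (U := fun z => 4 * z ^ 2 - 1) cB3
    (ringFacts.as3 3 (by norm_num)) (frS_mono (poly_in (by decide))) (poly_in (by decide)) (one_inF (by decide)) (one_in (by decide))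
    (starC_frS (starC_poly (one_in (by decide)))) (starC_poly (one_in (by decide))) (rePF (by decide)) (rePS (by decide)) (by decide)
    (fun _ _ _ hz hk hl => fr1_3as hz (memF hk) hl)
    (fun _ hz h h2 => box_polyU (x1 := 13550) (x2 := 13553) (y1 := 4648) (y2 := 4651)
      (by decide) (by exact_mod_cast stH3asp11 hz (c_p11 (h2 rfl))))

theorem rf1_3ss : Rf2 ((3 : ℕ) : ℝ) .t3ss (Poly p1_S2)
    (Poly p1_S2) v1_3ss :=
  rf2_of (C := fun z => 4 * z ^ 3 - 3 * z) (U := fun z => 4 * z ^ 2 - 1) cB3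
    (ringFacts.ss 3 (by norm_num)) (poly_in (by decide)) (poly_in (by decide)) (one_in (by decide)) (one_in (by decide))
    (starC_poly (one_in (by decide))) (starC_poly (one_in (by decide))) (rePS (by decide)) (rePS (by decide)) (by decide)
    (fun _ _ _ hz hk hl => fr1_3ss hz hk hl)
    (fun _ hz h h2 => box_polyU (x1 := 13550) (x2 := 13553) (y1 := 4648) (y2 := 4651)
      (by decide) (by exact_mod_cast stH3ssp11 hz (c_p11 (h2 rfl))))

theorem rf1_4ea : Rf1 ((4 : ℕ) : ℝ) .t4 (frS (-1) (Poly p1_A2)) v1_4ea :=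
  rf1_of (C := fun z => 8 * z ^ 4 - 8 * z ^ 2 + 1) (U := fun z => 8 * z ^ 3 - 4 * z) cB4
    (ringFacts.end_a 4 (by norm_num)) (frS_mono (poly_in (by decide))) (one_inF (by decide)) (starC_frS (starC_poly (one_in (by decide)))) (rePF (by decide)) (by decide)
    (fun _ _ hz hk => fr1_4ea hz (memF hk))
    (fun _ hz h => box_polyU (x1 := 12231) (x2 := 12234) (y1 := 2055) (y2 := 2058)
      (by decide) (by exact_mod_cast stH4o1 hz h))

theorem rf1_4ez : Rf1 ((4 : ℕ) : ℝ) .t4 (Poly p1_Z) v1_4ez :=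
  rf1_of (C := fun z => 8 * z ^ 4 - 8 * z ^ 2 + 1) (U := fun z => 8 * z ^ 3 - 4 * z) cB4
    (ringFacts.end_s 4 (by norm_num)) (poly_in (by decide)) (one_in (by decide)) (starC_poly (one_in (by decide))) (rePS (by decide)) (by decide)
    (fun _ _ hz hk => fr1_4ez hz hk)
    (fun _ hz h => box_polyU (x1 := 12231) (x2 := 12234) (y1 := 2055) (y2 := 2058)
      (by decide) (by exact_mod_cast stH4o1 hz h))

theorem rf1_4es : Rf1 ((4 : ℕ) : ℝ) .t4 (Poly p1_S3) v1_4es :=
  rf1_of (C := fun z => 8 * z ^ 4 - 8 * z ^ 2 + 1) (U := fun z => 8 * z ^ 3 - 4 * z) cB4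
    (ringFacts.end_s 4 (by norm_num)) (poly_in (by decide)) (kst_in (by decide)) (starC_poly (kst_in (by decide))) (rePS (by decide)) (by decide)
    (fun _ _ hz hk => fr1_4es hz hk)
    (fun _ hz h => box_polyU (x1 := 11333) (x2 := 11336) (y1 := 2286) (y2 := 2289)
      (by decide) (by exact_mod_cast stH4ok hz (c_ok h)))

theorem rf1_4aa : Rf2 ((4 : ℕ) : ℝ) .t4 (frS (-1) (Poly p1_A2))
    (frS (-1) (Poly p1_A2)) v1_4aa :=
  rf2_of (C := fun z => 8 * z ^ 4 - 8 * z ^ 2 + 1) (U := fun z => 8 * z ^ 3 - 4 * z) cB4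
    (ringFacts.aa 4 (by norm_num)) (frS_mono (poly_in (by decide))) (frS_mono (poly_in (by decide))) (one_inF (by decide)) (one_inF (by decide))
    (starC_frS (starC_poly (one_in (by decide)))) (starC_frS (starC_poly (one_in (by decide)))) (rePF (by decide)) (rePF (by decide)) (by decide)
    (fun _ _ _ hz hk hl => fr1_4aa hz (memF hk) (memF hl))
    (fun _ hz h h2 => box_polyU (x1 := 13770) (x2 := 13773) (y1 := 2816) (y2 := 2819)
      (by decide) (by exact_mod_cast stH4p11 hz (c_p11 (h2 rfl))))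

theorem rf1_4az : Rf2 ((4 : ℕ) : ℝ) .t4 (frS (-1) (Poly p1_A2))
    (Poly p1_Z) v1_4az :=
  rf2_of (C := fun z => 8 * z ^ 4 - 8 * z ^ 2 + 1) (U := fun z => 8 * z ^ 3 - 4 * z) cB4
    (ringFacts.as3 4 (by norm_num)) (frS_mono (poly_in (by decide))) (poly_in (by decide)) (one_inF (by decide)) (one_in (by decide))
    (starC_frS (starC_poly (one_in (by decide)))) (starC_poly (one_in (by decide))) (rePF (by decide)) (rePS (by decide)) (by decide)
    (fun _ _ _ hz hk hl => fr1_4az hz (memF hk) hl)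
    (fun _ hz h h2 => box_polyU (x1 := 13770) (x2 := 13773) (y1 := 2816) (y2 := 2819)
      (by decide) (by exact_mod_cast stH4p11 hz (c_p11 (h2 rfl))))

theorem rf1_4as : Rf2 ((4 : ℕ) : ℝ) .t4 (frS (-1) (Poly p1_A2))
    (Poly p1_S3) v1_4as :=
  rf2_of (C := fun z => 8 * z ^ 4 - 8 * z ^ 2 + 1) (U := fun z => 8 * z ^ 3 - 4 * z) cB4
    (ringFacts.as3 4 (by norm_num)) (frS_mono (poly_in (by decide))) (poly_in (by decide)) (one_inF (by decide)) (kst_in (by decide))
    (starC_frS (starC_poly (one_in (by decide)))) (starC_poly (kst_in (by decide))) (rePF (by decide)) (rePS (by decide)) (by decide)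
    (fun _ _ _ hz hk hl => fr1_4as hz (memF hk) hl)
    (fun _ hz h h2 => box_polyU (x1 := 13280) (x2 := 13283) (y1 := 3307) (y2 := 3310)
      (by decide) (by exact_mod_cast stH4p1k hz (c_p1k h)))

theorem rf1_4zz : Rf2 ((4 : ℕ) : ℝ) .t4 (Poly p1_Z)
    (Poly p1_Z) v1_4zz :=
  rf2_of (C := fun z => 8 * z ^ 4 - 8 * z ^ 2 + 1) (U := fun z => 8 * z ^ 3 - 4 * z) cB4
    (ringFacts.ss 4 (by norm_num)) (poly_in (by decide)) (poly_in (by decide)) (one_in (by decide)) (one_in (by decide))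
    (starC_poly (one_in (by decide))) (starC_poly (one_in (by decide))) (rePS (by decide)) (rePS (by decide)) (by decide)
    (fun _ _ _ hz hk hl => fr1_4zz hz hk hl)
    (fun _ hz h h2 => box_polyU (x1 := 13770) (x2 := 13773) (y1 := 2816) (y2 := 2819)
      (by decide) (by exact_mod_cast stH4p11 hz (c_p11 (h2 rfl))))

theorem rf1_4ss : Rf2 ((4 : ℕ) : ℝ) .t4 (Poly p1_S2)
    (Poly p1_S2) v1_4ss :=
  rf2_of (C := fun z => 8 * z ^ 4 - 8 * z ^ 2 + 1) (U := fun z => 8 * z ^ 3 - 4 * z) cB4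
    (ringFacts.ss 4 (by norm_num)) (poly_in (by decide)) (poly_in (by decide)) (one_in (by decide)) (one_in (by decide))
    (starC_poly (one_in (by decide))) (starC_poly (one_in (by decide))) (rePS (by decide)) (rePS (by decide)) (by decide)
    (fun _ _ _ hz hk hl => fr1_4ss hz hk hl)
    (fun _ hz h h2 => box_polyU (x1 := 13770) (x2 := 13773) (y1 := 2816) (y2 := 2819)
      (by decide) (by exact_mod_cast stH4p11 hz (c_p11 (h2 rfl))))

theorem rf1_5ea : Rf1 ((5 : ℕ) : ℝ) .t5 (frS (-1) (Poly p1_A2)) v1_5ea :=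
  rf1_of (C := fun z => 16 * z ^ 5 - 20 * z ^ 3 + 5 * z) (U := fun z => 16 * z ^ 4 - 12 * z ^ 2 + 1) cB5
    (ringFacts.end_a 5 (by norm_num)) (frS_mono (poly_in (by decide))) (one_inF (by decide)) (starC_frS (starC_poly (one_in (by decide)))) (rePF (by decide)) (by decide)
    (fun _ _ hz hk => fr1_5ea hz (memF hk))
    (fun _ hz h => box_polyU (x1 := 13328) (x2 := 13331) (y1 := 1138) (y2 := 1141)
      (by decide) (by exact_mod_cast stH5o1 hz h))

theorem rf1_5ez : Rf1 ((5 : ℕ) : ℝ) .t5 (Poly p1_Z) v1_5ez :=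
  rf1_of (C := fun z => 16 * z ^ 5 - 20 * z ^ 3 + 5 * z) (U := fun z => 16 * z ^ 4 - 12 * z ^ 2 + 1) cB5
    (ringFacts.end_s 5 (by norm_num)) (poly_in (by decide)) (one_in (by decide)) (starC_poly (one_in (by decide))) (rePS (by decide)) (by decide)
    (fun _ _ hz hk => fr1_5ez hz hk)
    (fun _ hz h => box_polyU (x1 := 13328) (x2 := 13331) (y1 := 1138) (y2 := 1141)
      (by decide) (by exact_mod_cast stH5o1 hz h))

theorem rf1_5es : Rf1 ((5 : ℕ) : ℝ) .t5 (Poly p1_S3) v1_5es :=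
  rf1_of (C := fun z => 16 * z ^ 5 - 20 * z ^ 3 + 5 * z) (U := fun z => 16 * z ^ 4 - 12 * z ^ 2 + 1) cB5
    (ringFacts.end_s 5 (by norm_num)) (poly_in (by decide)) (kst_in (by decide)) (starC_poly (kst_in (by decide))) (rePS (by decide)) (by decide)
    (fun _ _ hz hk => fr1_5es hz hk)
    (fun _ hz h => box_polyU (x1 := 12782) (x2 := 12785) (y1 := 1184) (y2 := 1187)
      (by decide) (by exact_mod_cast stH5ok hz (c_ok h)))

theorem rf1_5aa : Rf2 ((5 : ℕ) : ℝ) .t5 (frS (-1) (Poly p1_A2))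
    (frS (-1) (Poly p1_A2)) v1_5aa :=
  rf2_of (C := fun z => 16 * z ^ 5 - 20 * z ^ 3 + 5 * z) (U := fun z => 16 * z ^ 4 - 12 * z ^ 2 + 1) cB5
    (ringFacts.aa 5 (by norm_num)) (frS_mono (poly_in (by decide))) (frS_mono (poly_in (by decide))) (one_inF (by decide)) (one_inF (by decide))
    (starC_frS (starC_poly (one_in (by decide)))) (starC_frS (starC_poly (one_in (by decide)))) (rePF (by decide)) (rePF (by decide)) (by decide)
    (fun _ _ _ hz hk hl => fr1_5aa hz (memF hk) (memF hl))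
    (fun _ hz h h2 => box_polyU (x1 := 14132) (x2 := 14135) (y1 := 1759) (y2 := 1762)
      (by decide) (by exact_mod_cast stH5p11 hz (c_p11 (h2 rfl))))

theorem rf1_5az : Rf2 ((5 : ℕ) : ℝ) .t5 (frS (-1) (Poly p1_A2))
    (Poly p1_Z) v1_5az :=
  rf2_of (C := fun z => 16 * z ^ 5 - 20 * z ^ 3 + 5 * z) (U := fun z => 16 * z ^ 4 - 12 * z ^ 2 + 1) cB5
    (ringFacts.as3 5 (by norm_num)) (frS_mono (poly_in (by decide))) (poly_in (by decide)) (one_inF (by decide)) (one_in (by decide))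
    (starC_frS (starC_poly (one_in (by decide)))) (starC_poly (one_in (by decide))) (rePF (by decide)) (rePS (by decide)) (by decide)
    (fun _ _ _ hz hk hl => fr1_5az hz (memF hk) hl)
    (fun _ hz h h2 => box_polyU (x1 := 14132) (x2 := 14135) (y1 := 1759) (y2 := 1762)
      (by decide) (by exact_mod_cast stH5p11 hz (c_p11 (h2 rfl))))

theorem rf1_5as : Rf2 ((5 : ℕ) : ℝ) .t5 (frS (-1) (Poly p1_A2))
    (Poly p1_S3) v1_5as :=
  rf2_of (C := fun z => 16 * z ^ 5 - 20 * z ^ 3 + 5 * z) (U := fun z => 16 * z ^ 4 - 12 * z ^ 2 + 1) cB5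
    (ringFacts.as3 5 (by norm_num)) (frS_mono (poly_in (by decide))) (poly_in (by decide)) (one_inF (by decide)) (kst_in (by decide))
    (starC_frS (starC_poly (one_in (by decide)))) (starC_poly (kst_in (by decide))) (rePF (by decide)) (rePS (by decide)) (by decide)
    (fun _ _ _ hz hk hl => fr1_5as hz (memF hk) hl)
    (fun _ hz h h2 => box_polyU (x1 := 13768) (x2 := 13771) (y1 := 2005) (y2 := 2008)
      (by decide) (by exact_mod_cast stH5p1k hz (c_p1k h)))

theorem rf1_5zz : Rf2 ((5 : ℕ) : ℝ) .t5 (Poly p1_Z)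
    (Poly p1_Z) v1_5zz :=
  rf2_of (C := fun z => 16 * z ^ 5 - 20 * z ^ 3 + 5 * z) (U := fun z => 16 * z ^ 4 - 12 * z ^ 2 + 1) cB5
    (ringFacts.ss 5 (by norm_num)) (poly_in (by decide)) (poly_in (by decide)) (one_in (by decide)) (one_in (by decide))
    (starC_poly (one_in (by decide))) (starC_poly (one_in (by decide))) (rePS (by decide)) (rePS (by decide)) (by decide)
    (fun _ _ _ hz hk hl => fr1_5zz hz hk hl)
    (fun _ hz h h2 => box_polyU (x1 := 14132) (x2 := 14135) (y1 := 1759) (y2 := 1762)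
      (by decide) (by exact_mod_cast stH5p11 hz (c_p11 (h2 rfl))))

theorem rf1_5zs : Rf2 ((5 : ℕ) : ℝ) .t5 (Poly p1_Z)
    (Poly p1_S3) v1_5zs :=
  rf2_of (C := fun z => 16 * z ^ 5 - 20 * z ^ 3 + 5 * z) (U := fun z => 16 * z ^ 4 - 12 * z ^ 2 + 1) cB5
    (ringFacts.ss 5 (by norm_num)) (poly_in (by decide)) (poly_in (by decide)) (one_in (by decide)) (kst_in (by decide))
    (starC_poly (one_in (by decide))) (starC_poly (kst_in (by decide))) (rePS (by decide)) (rePS (by decide)) (by decide)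
    (fun _ _ _ hz hk hl => fr1_5zs hz hk hl)
    (fun _ hz h h2 => box_polyU (x1 := 13768) (x2 := 13771) (y1 := 2005) (y2 := 2008)
      (by decide) (by exact_mod_cast stH5p1k hz (c_p1k h)))

theorem rf1_5ss : Rf2 ((5 : ℕ) : ℝ) .t5 (Poly p1_S3)
    (Poly p1_S3) v1_5ss :=
  rf2_of (C := fun z => 16 * z ^ 5 - 20 * z ^ 3 + 5 * z) (U := fun z => 16 * z ^ 4 - 12 * z ^ 2 + 1) cB5
    (ringFacts.ss 5 (by norm_num)) (poly_in (by decide)) (poly_in (by decide)) (kst_in (by decide)) (kst_in (by decide))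
    (starC_poly (kst_in (by decide))) (starC_poly (kst_in (by decide))) (rePS (by decide)) (rePS (by decide)) (by decide)
    (fun _ _ _ hz hk hl => fr1_5ss hz hk hl)
    (fun _ hz h h2 => box_polyU (x1 := 13313) (x2 := 13316) (y1 := 2295) (y2 := 2298)
      (by decide) (by exact_mod_cast stH5pkk hz (c_pkk (h2 rfl))))

theorem rf1_6ea : Rf1 ((6 : ℕ) : ℝ) .t6 (frS (-1) (Poly p1_A2)) v1_6ea :=
  rf1_of (C := fun z => 32 * z ^ 6 - 48 * z ^ 4 + 18 * z ^ 2 - 1) (U := fun z => 32 * z ^ 5 - 32 * z ^ 3 + 6 * z) cB6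
    (ringFacts.end_a 6 (by norm_num)) (frS_mono (poly_in (by decide))) (one_inF (by decide)) (starC_frS (starC_poly (one_in (by decide)))) (rePF (by decide)) (by decide)
    (fun _ _ hz hk => fr1_6ea hz (memF hk))
    (fun _ hz h => box_polyU (x1 := 14041) (x2 := 14044) (y1 := 682) (y2 := 685)
      (by decide) (by exact_mod_cast stH6o1 hz h))

theorem rf1_6ez : Rf1 ((6 : ℕ) : ℝ) .t6 (Poly p1_Z) v1_6ez :=
  rf1_of (C := fun z => 32 * z ^ 6 - 48 * z ^ 4 + 18 * z ^ 2 - 1) (U := fun z => 32 * z ^ 5 - 32 * z ^ 3 + 6 * z) cB6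
    (ringFacts.end_s 6 (by norm_num)) (poly_in (by decide)) (one_in (by decide)) (starC_poly (one_in (by decide))) (rePS (by decide)) (by decide)
    (fun _ _ hz hk => fr1_6ez hz hk)
    (fun _ hz h => box_polyU (x1 := 14041) (x2 := 14044) (y1 := 682) (y2 := 685)
      (by decide) (by exact_mod_cast stH6o1 hz h))

theorem rf1_6es : Rf1 ((6 : ℕ) : ℝ) .t6 (Poly p1_S3) v1_6es :=
  rf1_of (C := fun z => 32 * z ^ 6 - 48 * z ^ 4 + 18 * z ^ 2 - 1) (U := fun z => 32 * z ^ 5 - 32 * z ^ 3 + 6 * z) cB6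
    (ringFacts.end_s 6 (by norm_num)) (poly_in (by decide)) (kst_in (by decide)) (starC_poly (kst_in (by decide))) (rePS (by decide)) (by decide)
    (fun _ _ hz hk => fr1_6es hz hk)
    (fun _ hz h => box_polyU (x1 := 13705) (x2 := 13708) (y1 := 670) (y2 := 673)
      (by decide) (by exact_mod_cast stH6ok hz (c_ok h)))

theorem rf1_6aa : Rf2 ((6 : ℕ) : ℝ) .t6 (frS (-1) (Poly p1_A2))
    (frS (-1) (Poly p1_A2)) v1_6aa :=
  rf2_of (C := fun z => 32 * z ^ 6 - 48 * z ^ 4 + 18 * z ^ 2 - 1) (U := fun z => 32 * z ^ 5 - 32 * z ^ 3 + 6 * z) cB6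
    (ringFacts.aa 6 (by norm_num)) (frS_mono (poly_in (by decide))) (frS_mono (poly_in (by decide))) (one_inF (by decide)) (one_inF (by decide))
    (starC_frS (starC_poly (one_in (by decide)))) (starC_frS (starC_poly (one_in (by decide)))) (rePF (by decide)) (rePF (by decide)) (by decide)
    (fun _ _ _ hz hk hl => fr1_6aa hz (memF hk) (memF hl))
    (fun _ hz h h2 => box_polyU (x1 := 14481) (x2 := 14484) (y1 := 1140) (y2 := 1143)
      (by decide) (by exact_mod_cast stH6p11 hz (c_p11 (h2 rfl))))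

theorem rf1_6az : Rf2 ((6 : ℕ) : ℝ) .t6 (frS (-1) (Poly p1_A2))
    (Poly p1_Z) v1_6az :=
  rf2_of (C := fun z => 32 * z ^ 6 - 48 * z ^ 4 + 18 * z ^ 2 - 1) (U := fun z => 32 * z ^ 5 - 32 * z ^ 3 + 6 * z) cB6
    (ringFacts.as3 6 (by norm_num)) (frS_mono (poly_in (by decide))) (poly_in (by decide)) (one_inF (by decide)) (one_in (by decide))
    (starC_frS (starC_poly (one_in (by decide)))) (starC_poly (one_in (by decide))) (rePF (by decide)) (rePS (by decide)) (by decide)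
    (fun _ _ _ hz hk hl => fr1_6az hz (memF hk) hl)
    (fun _ hz h h2 => box_polyU (x1 := 14481) (x2 := 14484) (y1 := 1140) (y2 := 1143)
      (by decide) (by exact_mod_cast stH6p11 hz (c_p11 (h2 rfl))))

theorem rf1_6as : Rf2 ((6 : ℕ) : ℝ) .t6 (frS (-1) (Poly p1_A2))
    (Poly p1_S3) v1_6as :=
  rf2_of (C := fun z => 32 * z ^ 6 - 48 * z ^ 4 + 18 * z ^ 2 - 1) (U := fun z => 32 * z ^ 5 - 32 * z ^ 3 + 6 * z) cB6
    (ringFacts.as3 6 (by norm_num)) (frS_mono (poly_in (by decide))) (poly_in (by decide)) (one_inF (by decide)) (kst_in (by decide))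
    (starC_frS (starC_poly (one_in (by decide)))) (starC_poly (kst_in (by decide))) (rePF (by decide)) (rePS (by decide)) (by decide)
    (fun _ _ _ hz hk hl => fr1_6as hz (memF hk) hl)
    (fun _ hz h h2 => box_polyU (x1 := 14219) (x2 := 14222) (y1 := 1259) (y2 := 1262)
      (by decide) (by exact_mod_cast stH6p1k hz (c_p1k h)))

theorem rf1_6zz : Rf2 ((6 : ℕ) : ℝ) .t6 (Poly p1_Z)
    (Poly p1_Z) v1_6zz :=
  rf2_of (C := fun z => 32 * z ^ 6 - 48 * z ^ 4 + 18 * z ^ 2 - 1) (U := fun z => 32 * z ^ 5 - 32 * z ^ 3 + 6 * z) cB6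
    (ringFacts.ss 6 (by norm_num)) (poly_in (by decide)) (poly_in (by decide)) (one_in (by decide)) (one_in (by decide))
    (starC_poly (one_in (by decide))) (starC_poly (one_in (by decide))) (rePS (by decide)) (rePS (by decide)) (by decide)
    (fun _ _ _ hz hk hl => fr1_6zz hz hk hl)
    (fun _ hz h h2 => box_polyU (x1 := 14481) (x2 := 14484) (y1 := 1140) (y2 := 1143)
      (by decide) (by exact_mod_cast stH6p11 hz (c_p11 (h2 rfl))))

theorem rf1_6zs : Rf2 ((6 : ℕ) : ℝ) .t6 (Poly p1_Z)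
    (Poly p1_S3) v1_6zs :=
  rf2_of (C := fun z => 32 * z ^ 6 - 48 * z ^ 4 + 18 * z ^ 2 - 1) (U := fun z => 32 * z ^ 5 - 32 * z ^ 3 + 6 * z) cB6
    (ringFacts.ss 6 (by norm_num)) (poly_in (by decide)) (poly_in (by decide)) (one_in (by decide)) (kst_in (by decide))
    (starC_poly (one_in (by decide))) (starC_poly (kst_in (by decide))) (rePS (by decide)) (rePS (by decide)) (by decide)
    (fun _ _ _ hz hk hl => fr1_6zs hz hk hl)
    (fun _ hz h h2 => box_polyU (x1 := 14219) (x2 := 14222) (y1 := 1259) (y2 := 1262)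
      (by decide) (by exact_mod_cast stH6p1k hz (c_p1k h)))

theorem rf1_6ss : Rf2 ((6 : ℕ) : ℝ) .t6 (Poly p1_S3)
    (Poly p1_S3) v1_6ss :=
  rf2_of (C := fun z => 32 * z ^ 6 - 48 * z ^ 4 + 18 * z ^ 2 - 1) (U := fun z => 32 * z ^ 5 - 32 * z ^ 3 + 6 * z) cB6
    (ringFacts.ss 6 (by norm_num)) (poly_in (by decide)) (poly_in (by decide)) (kst_in (by decide)) (kst_in (by decide))
    (starC_poly (kst_in (by decide))) (starC_poly (kst_in (by decide))) (rePS (by decide)) (rePS (by decide)) (by decide)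
    (fun _ _ _ hz hk hl => fr1_6ss hz hk hl)
    (fun _ hz h h2 => box_polyU (x1 := 13896) (x2 := 13899) (y1 := 1393) (y2 := 1396)
      (by decide) (by exact_mod_cast stH6pkk hz (c_pkk (h2 rfl))))

theorem rf1_7ea : Rf1 ((7 : ℕ) : ℝ) .t7 (frS (-1) (Poly p1_A2)) v1_7ea :=
  rf1_of (C := fun z => 64 * z ^ 7 - 112 * z ^ 5 + 56 * z ^ 3 - 7 * z) (U := fun z => 64 * z ^ 6 - 80 * z ^ 4 + 24 * z ^ 2 - 1) cB7
    (ringFacts.end_a 7 (by norm_num)) (frS_mono (poly_in (by decide))) (one_inF (by decide)) (starC_frS (starC_poly (one_in (by decide)))) (rePF (by decide)) (by decide)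
    (fun _ _ hz hk => fr1_7ea hz (memF hk))
    (fun _ hz h => box_polyU (x1 := 14514) (x2 := 14517) (y1 := 438) (y2 := 441)
      (by decide) (by exact_mod_cast stH7o1 hz h))

theorem rf1_7ez : Rf1 ((7 : ℕ) : ℝ) .t7 (Poly p1_Z) v1_7ez :=
  rf1_of (C := fun z => 64 * z ^ 7 - 112 * z ^ 5 + 56 * z ^ 3 - 7 * z) (U := fun z => 64 * z ^ 6 - 80 * z ^ 4 + 24 * z ^ 2 - 1) cB7
    (ringFacts.end_s 7 (by norm_num)) (poly_in (by decide)) (one_in (by decide)) (starC_poly (one_in (by decide))) (rePS (by decide)) (by decide)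
    (fun _ _ hz hk => fr1_7ez hz hk)
    (fun _ hz h => box_polyU (x1 := 14514) (x2 := 14517) (y1 := 438) (y2 := 441)
      (by decide) (by exact_mod_cast stH7o1 hz h))

theorem rf1_7es : Rf1 ((7 : ℕ) : ℝ) .t7 (Poly p1_S3) v1_7es :=
  rf1_of (C := fun z => 64 * z ^ 7 - 112 * z ^ 5 + 56 * z ^ 3 - 7 * z) (U := fun z => 64 * z ^ 6 - 80 * z ^ 4 + 24 * z ^ 2 - 1) cB7
    (ringFacts.end_s 7 (by norm_num)) (poly_in (by decide)) (kst_in (by decide)) (starC_poly (kst_in (by decide))) (rePS (by decide)) (by decide)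
    (fun _ _ hz hk => fr1_7es hz hk)
    (fun _ hz h => box_polyU (x1 := 14298) (x2 := 14301) (y1 := 411) (y2 := 414)
      (by decide) (by exact_mod_cast stH7ok hz (c_ok h)))

theorem rf1_7aa : Rf2 ((7 : ℕ) : ℝ) .t7 (frS (-1) (Poly p1_A2))
    (frS (-1) (Poly p1_A2)) v1_7aa :=
  rf2_of (C := fun z => 64 * z ^ 7 - 112 * z ^ 5 + 56 * z ^ 3 - 7 * z) (U := fun z => 64 * z ^ 6 - 80 * z ^ 4 + 24 * z ^ 2 - 1) cB7
    (ringFacts.aa 7 (by norm_num)) (frS_mono (poly_in (by decide))) (frS_mono (poly_in (by decide))) (one_inF (by decide)) (one_inF (by decide))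
    (starC_frS (starC_poly (one_in (by decide)))) (starC_frS (starC_poly (one_in (by decide)))) (rePF (by decide)) (rePF (by decide)) (by decide)
    (fun _ _ _ hz hk hl => fr1_7aa hz (memF hk) (memF hl))
    (fun _ hz h h2 => box_polyU (x1 := 14769) (x2 := 14772) (y1 := 769) (y2 := 772)
      (by decide) (by exact_mod_cast stH7p11 hz (c_p11 (h2 rfl))))

theorem rf1_7az : Rf2 ((7 : ℕ) : ℝ) .t7 (frS (-1) (Poly p1_A2))
    (Poly p1_Z) v1_7az :=
  rf2_of (C := fun z => 64 * z ^ 7 - 112 * z ^ 5 + 56 * z ^ 3 - 7 * z) (U := fun z => 64 * z ^ 6 - 80 * z ^ 4 + 24 * z ^ 2 - 1) cB7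
    (ringFacts.as3 7 (by norm_num)) (frS_mono (poly_in (by decide))) (poly_in (by decide)) (one_inF (by decide)) (one_in (by decide))
    (starC_frS (starC_poly (one_in (by decide)))) (starC_poly (one_in (by decide))) (rePF (by decide)) (rePS (by decide)) (by decide)
    (fun _ _ _ hz hk hl => fr1_7az hz (memF hk) hl)
    (fun _ hz h h2 => box_polyU (x1 := 14769) (x2 := 14772) (y1 := 769) (y2 := 772)
      (by decide) (by exact_mod_cast stH7p11 hz (c_p11 (h2 rfl))))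

theorem rf1_7as : Rf2 ((7 : ℕ) : ℝ) .t7 (frS (-1) (Poly p1_A2))
    (Poly p1_S3) v1_7as :=
  rf2_of (C := fun z => 64 * z ^ 7 - 112 * z ^ 5 + 56 * z ^ 3 - 7 * z) (U := fun z => 64 * z ^ 6 - 80 * z ^ 4 + 24 * z ^ 2 - 1) cB7
    (ringFacts.as3 7 (by norm_num)) (frS_mono (poly_in (by decide))) (poly_in (by decide)) (one_inF (by decide)) (kst_in (by decide))
    (starC_frS (starC_poly (one_in (by decide)))) (starC_poly (kst_in (by decide))) (rePF (by decide)) (rePS (by decide)) (by decide)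
    (fun _ _ _ hz hk hl => fr1_7as hz (memF hk) hl)
    (fun _ hz h h2 => box_polyU (x1 := 14583) (x2 := 14586) (y1 := 824) (y2 := 827)
      (by decide) (by exact_mod_cast stH7p1k hz (c_p1k h)))

theorem rf1_7zz : Rf2 ((7 : ℕ) : ℝ) .t7 (Poly p1_Z)
    (Poly p1_Z) v1_7zz :=
  rf2_of (C := fun z => 64 * z ^ 7 - 112 * z ^ 5 + 56 * z ^ 3 - 7 * z) (U := fun z => 64 * z ^ 6 - 80 * z ^ 4 + 24 * z ^ 2 - 1) cB7
    (ringFacts.ss 7 (by norm_num)) (poly_in (by decide)) (poly_in (by decide)) (one_in (by decide)) (one_in (by decide))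
    (starC_poly (one_in (by decide))) (starC_poly (one_in (by decide))) (rePS (by decide)) (rePS (by decide)) (by decide)
    (fun _ _ _ hz hk hl => fr1_7zz hz hk hl)
    (fun _ hz h h2 => box_polyU (x1 := 14769) (x2 := 14772) (y1 := 769) (y2 := 772)
      (by decide) (by exact_mod_cast stH7p11 hz (c_p11 (h2 rfl))))

theorem rf1_7zs : Rf2 ((7 : ℕ) : ℝ) .t7 (Poly p1_Z)
    (Poly p1_S3) v1_7zs :=
  rf2_of (C := fun z => 64 * z ^ 7 - 112 * z ^ 5 + 56 * z ^ 3 - 7 * z) (U := fun z => 64 * z ^ 6 - 80 * z ^ 4 + 24 * z ^ 2 - 1) cB7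
    (ringFacts.ss 7 (by norm_num)) (poly_in (by decide)) (poly_in (by decide)) (one_in (by decide)) (kst_in (by decide))
    (starC_poly (one_in (by decide))) (starC_poly (kst_in (by decide))) (rePS (by decide)) (rePS (by decide)) (by decide)
    (fun _ _ _ hz hk hl => fr1_7zs hz hk hl)
    (fun _ hz h h2 => box_polyU (x1 := 14583) (x2 := 14586) (y1 := 824) (y2 := 827)
      (by decide) (by exact_mod_cast stH7p1k hz (c_p1k h)))

theorem rf1_7ss : Rf2 ((7 : ℕ) : ℝ) .t7 (Poly p1_S3)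
    (Poly p1_S3) v1_7ss :=
  rf2_of (C := fun z => 64 * z ^ 7 - 112 * z ^ 5 + 56 * z ^ 3 - 7 * z) (U := fun z => 64 * z ^ 6 - 80 * z ^ 4 + 24 * z ^ 2 - 1) cB7
    (ringFacts.ss 7 (by norm_num)) (poly_in (by decide)) (poly_in (by decide)) (kst_in (by decide)) (kst_in (by decide))
    (starC_poly (kst_in (by decide))) (starC_poly (kst_in (by decide))) (rePS (by decide)) (rePS (by decide)) (by decide)
    (fun _ _ _ hz hk hl => fr1_7ss hz hk hl)
    (fun _ hz h h2 => box_polyU (x1 := 14358) (x2 := 14361) (y1 := 882) (y2 := 885)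
      (by decide) (by exact_mod_cast stH7pkk hz (c_pkk (h2 rfl))))

/-! ### round 2 -/

theorem rf2_2ea : Rf1 ((2 : ℕ) : ℝ) .t2e (frS (-1) (Poly p2_A2)) v2_2ea :=
  rf1_of (C := fun z => 2 * z ^ 2 - 1) (U := fun z => 2 * z) cB2
    (ringFacts.end_a 2 (by norm_num)) (frS_mono (poly_in (by decide))) (one_inF (by decide)) (starC_frS (starC_poly (one_in (by decide)))) (rePF (by decide)) (by decide)
    (fun _ _ hz hk => fr2_2ea hz (memF hk))
    (fun _ hz h => box_polyU (x1 := 7999) (x2 := 8002) (y1 := 7999) (y2 := 8002)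
      (by decide) (by exact_mod_cast stH2eo1 hz h))

theorem rf2_2aa : Rf2 ((2 : ℕ) : ℝ) .t2aa (frS (-1) (Poly p2_A2))
    (frS (-1) (Poly p2_A2)) v2_2aa :=
  rf2_of (C := fun z => 2 * z ^ 2 - 1) (U := fun z => 2 * z) cB2
    (ringFacts.aa 2 (by norm_num)) (frS_mono (poly_in (by decide))) (frS_mono (poly_in (by decide))) (one_inF (by decide)) (one_inF (by decide))
    (starC_frS (starC_poly (one_in (by decide)))) (starC_frS (starC_poly (one_in (by decide)))) (rePF (by decide)) (rePF (by decide)) (by decide)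
    (fun _ _ _ hz hk hl => fr2_2aa hz (memF hk) (memF hl))
    (fun _ hz h h2 => box_polyU (x1 := 13855) (x2 := 13858) (y1 := 7999) (y2 := 8002)
      (by decide) (by exact_mod_cast stH2aap11 hz (c_p11 (h2 rfl))))

theorem rf2_2as : Rf2 ((2 : ℕ) : ℝ) .t2as (frS (-1) (Poly p2_A1))
    (Poly p2_ST) v2_2as :=
  rf2_of (C := fun z => 2 * z ^ 2 - 1) (U := fun z => 2 * z) cB2
    (by exact_mod_cast ringFacts.as2) (frS_mono (poly_in (by decide))) (poly_in (by decide)) (one_inF (by decide)) (one_in (by decide))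
    (starC_frS (starC_poly (one_in (by decide)))) (starC_poly (one_in (by decide))) (rePF (by decide)) (rePS (by decide)) (by decide)
    (fun _ _ _ hz hk hl => fr2_2as hz (memF hk) hl)
    (fun _ hz h h2 => box_polyU (x1 := 13855) (x2 := 13858) (y1 := 7999) (y2 := 8002)
      (by decide) (by exact_mod_cast stH2asp11 hz (c_p11 (h2 rfl))))

theorem rf2_3ea : Rf1 ((3 : ℕ) : ℝ) .t3ae (frS (-1) (Poly p2_A2)) v2_3ea :=
  rf1_of (C := fun z => 4 * z ^ 3 - 3 * z) (U := fun z => 4 * z ^ 2 - 1) cB3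
    (ringFacts.end_a 3 (by norm_num)) (frS_mono (poly_in (by decide))) (one_inF (by decide)) (starC_frS (starC_poly (one_in (by decide)))) (rePF (by decide)) (by decide)
    (fun _ _ hz hk => fr2_3ea hz (memF hk))
    (fun _ hz h => box_polyU (x1 := 10582) (x2 := 10585) (y1 := 3999) (y2 := 4002)
      (by decide) (by exact_mod_cast stH3aeo1 hz h))

theorem rf2_3es : Rf1 ((3 : ℕ) : ℝ) .t3se (Poly p2_S2) v2_3es :=
  rf1_of (C := fun z => 4 * z ^ 3 - 3 * z) (U := fun z => 4 * z ^ 2 - 1) cB3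
    (ringFacts.end_s 3 (by norm_num)) (poly_in (by decide)) (one_in (by decide)) (starC_poly (one_in (by decide))) (rePS (by decide)) (by decide)
    (fun _ _ hz hk => fr2_3es hz hk)
    (fun _ hz h => box_polyU (x1 := 10582) (x2 := 10585) (y1 := 3999) (y2 := 4002)
      (by decide) (by exact_mod_cast stH3seo1 hz h))

theorem rf2_3aa : Rf2 ((3 : ℕ) : ℝ) .t3aa (frS (-1) (Poly p2_A2))
    (frS (-1) (Poly p2_A2)) v2_3aa :=
  rf2_of (C := fun z => 4 * z ^ 3 - 3 * z) (U := fun z => 4 * z ^ 2 - 1) cB3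
    (ringFacts.aa 3 (by norm_num)) (frS_mono (poly_in (by decide))) (frS_mono (poly_in (by decide))) (one_inF (by decide)) (one_inF (by decide))
    (starC_frS (starC_poly (one_in (by decide)))) (starC_frS (starC_poly (one_in (by decide)))) (rePF (by decide)) (rePF (by decide)) (by decide)
    (fun _ _ _ hz hk hl => fr2_3aa hz (memF hk) (memF hl))
    (fun _ hz h h2 => box_polyU (x1 := 13550) (x2 := 13553) (y1 := 4648) (y2 := 4651)
      (by decide) (by exact_mod_cast stH3aap11 hz (c_p11 (h2 rfl))))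

theorem rf2_3as : Rf2 ((3 : ℕ) : ℝ) .t3as (frS (-1) (Poly p2_A2))
    (Poly p2_S2) v2_3as :=
  rf2_of (C := fun z => 4 * z ^ 3 - 3 * z) (U := fun z => 4 * z ^ 2 - 1) cB3
    (ringFacts.as3 3 (by norm_num)) (frS_mono (poly_in (by decide))) (poly_in (by decide)) (one_inF (by decide)) (one_in (by decide))
    (starC_frS (starC_poly (one_in (by decide)))) (starC_poly (one_in (by decide))) (rePF (by decide)) (rePS (by decide)) (by decide)
    (fun _ _ _ hz hk hl => fr2_3as hz (memF hk) hl)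
    (fun _ hz h h2 => box_polyU (x1 := 13550) (x2 := 13553) (y1 := 4648) (y2 := 4651)
      (by decide) (by exact_mod_cast stH3asp11 hz (c_p11 (h2 rfl))))

theorem rf2_3ss : Rf2 ((3 : ℕ) : ℝ) .t3ss (Poly p2_S2)
    (Poly p2_S2) v2_3ss :=
  rf2_of (C := fun z => 4 * z ^ 3 - 3 * z) (U := fun z => 4 * z ^ 2 - 1) cB3
    (ringFacts.ss 3 (by norm_num)) (poly_in (by decide)) (poly_in (by decide)) (one_in (by decide)) (one_in (by decide))
    (starC_poly (one_in (by decide))) (starC_poly (one_in (by decide))) (rePS (by decide)) (rePS (by decide)) (by decide)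
    (fun _ _ _ hz hk hl => fr2_3ss hz hk hl)
    (fun _ hz h h2 => box_polyU (x1 := 13550) (x2 := 13553) (y1 := 4648) (y2 := 4651)
      (by decide) (by exact_mod_cast stH3ssp11 hz (c_p11 (h2 rfl))))

theorem rf2_4ea : Rf1 ((4 : ℕ) : ℝ) .t4 (frS (-1) (Poly p2_A2)) v2_4ea :=
  rf1_of (C := fun z => 8 * z ^ 4 - 8 * z ^ 2 + 1) (U := fun z => 8 * z ^ 3 - 4 * z) cB4
    (ringFacts.end_a 4 (by norm_num)) (frS_mono (poly_in (by decide))) (one_inF (by decide)) (starC_frS (starC_poly (one_in (by decide)))) (rePF (by decide)) (by decide)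
    (fun _ _ hz hk => fr2_4ea hz (memF hk))
    (fun _ hz h => box_polyU (x1 := 12231) (x2 := 12234) (y1 := 2055) (y2 := 2058)
      (by decide) (by exact_mod_cast stH4o1 hz h))

theorem rf2_4ez : Rf1 ((4 : ℕ) : ℝ) .t4 (Poly p2_Z) v2_4ez :=
  rf1_of (C := fun z => 8 * z ^ 4 - 8 * z ^ 2 + 1) (U := fun z => 8 * z ^ 3 - 4 * z) cB4
    (ringFacts.end_s 4 (by norm_num)) (poly_in (by decide)) (one_in (by decide)) (starC_poly (one_in (by decide))) (rePS (by decide)) (by decide)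
    (fun _ _ hz hk => fr2_4ez hz hk)
    (fun _ hz h => box_polyU (x1 := 12231) (x2 := 12234) (y1 := 2055) (y2 := 2058)
      (by decide) (by exact_mod_cast stH4o1 hz h))

theorem rf2_4es : Rf1 ((4 : ℕ) : ℝ) .t4 (Poly p2_S3) v2_4es :=
  rf1_of (C := fun z => 8 * z ^ 4 - 8 * z ^ 2 + 1) (U := fun z => 8 * z ^ 3 - 4 * z) cB4
    (ringFacts.end_s 4 (by norm_num)) (poly_in (by decide)) (kst_in (by decide)) (starC_poly (kst_in (by decide))) (rePS (by decide)) (by decide)
    (fun _ _ hz hk => fr2_4es hz hk)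
    (fun _ hz h => box_polyU (x1 := 11333) (x2 := 11336) (y1 := 2286) (y2 := 2289)
      (by decide) (by exact_mod_cast stH4ok hz (c_ok h)))

theorem rf2_4aa : Rf2 ((4 : ℕ) : ℝ) .t4 (frS (-1) (Poly p2_A2))
    (frS (-1) (Poly p2_A2)) v2_4aa :=
  rf2_of (C := fun z => 8 * z ^ 4 - 8 * z ^ 2 + 1) (U := fun z => 8 * z ^ 3 - 4 * z) cB4
    (ringFacts.aa 4 (by norm_num)) (frS_mono (poly_in (by decide))) (frS_mono (poly_in (by decide))) (one_inF (by decide)) (one_inF (by decide))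
    (starC_frS (starC_poly (one_in (by decide)))) (starC_frS (starC_poly (one_in (by decide)))) (rePF (by decide)) (rePF (by decide)) (by decide)
    (fun _ _ _ hz hk hl => fr2_4aa hz (memF hk) (memF hl))
    (fun _ hz h h2 => box_polyU (x1 := 13770) (x2 := 13773) (y1 := 2816) (y2 := 2819)
      (by decide) (by exact_mod_cast stH4p11 hz (c_p11 (h2 rfl))))

theorem rf2_4az : Rf2 ((4 : ℕ) : ℝ) .t4 (frS (-1) (Poly p2_A2))
    (Poly p2_Z) v2_4az :=
  rf2_of (C := fun z => 8 * z ^ 4 - 8 * z ^ 2 + 1) (U := fun z => 8 * z ^ 3 - 4 * z) cB4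
    (ringFacts.as3 4 (by norm_num)) (frS_mono (poly_in (by decide))) (poly_in (by decide)) (one_inF (by decide)) (one_in (by decide))
    (starC_frS (starC_poly (one_in (by decide)))) (starC_poly (one_in (by decide))) (rePF (by decide)) (rePS (by decide)) (by decide)
    (fun _ _ _ hz hk hl => fr2_4az hz (memF hk) hl)
    (fun _ hz h h2 => box_polyU (x1 := 13770) (x2 := 13773) (y1 := 2816) (y2 := 2819)
      (by decide) (by exact_mod_cast stH4p11 hz (c_p11 (h2 rfl))))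

theorem rf2_4as : Rf2 ((4 : ℕ) : ℝ) .t4 (frS (-1) (Poly p2_A2))
    (Poly p2_S3) v2_4as :=
  rf2_of (C := fun z => 8 * z ^ 4 - 8 * z ^ 2 + 1) (U := fun z => 8 * z ^ 3 - 4 * z) cB4
    (ringFacts.as3 4 (by norm_num)) (frS_mono (poly_in (by decide))) (poly_in (by decide)) (one_inF (by decide)) (kst_in (by decide))
    (starC_frS (starC_poly (one_in (by decide)))) (starC_poly (kst_in (by decide))) (rePF (by decide)) (rePS (by decide)) (by decide)
    (fun _ _ _ hz hk hl => fr2_4as hz (memF hk) hl)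
    (fun _ hz h h2 => box_polyU (x1 := 13280) (x2 := 13283) (y1 := 3307) (y2 := 3310)
      (by decide) (by exact_mod_cast stH4p1k hz (c_p1k h)))

theorem rf2_4zz : Rf2 ((4 : ℕ) : ℝ) .t4 (Poly p2_Z)
    (Poly p2_Z) v2_4zz :=
  rf2_of (C := fun z => 8 * z ^ 4 - 8 * z ^ 2 + 1) (U := fun z => 8 * z ^ 3 - 4 * z) cB4
    (ringFacts.ss 4 (by norm_num)) (poly_in (by decide)) (poly_in (by decide)) (one_in (by decide)) (one_in (by decide))
    (starC_poly (one_in (by decide))) (starC_poly (one_in (by decide))) (rePS (by decide)) (rePS (by decide)) (by decide)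
    (fun _ _ _ hz hk hl => fr2_4zz hz hk hl)
    (fun _ hz h h2 => box_polyU (x1 := 13770) (x2 := 13773) (y1 := 2816) (y2 := 2819)
      (by decide) (by exact_mod_cast stH4p11 hz (c_p11 (h2 rfl))))

theorem rf2_4ss : Rf2 ((4 : ℕ) : ℝ) .t4 (Poly p2_S2)
    (Poly p2_S2) v2_4ss :=
  rf2_of (C := fun z => 8 * z ^ 4 - 8 * z ^ 2 + 1) (U := fun z => 8 * z ^ 3 - 4 * z) cB4
    (ringFacts.ss 4 (by norm_num)) (poly_in (by decide)) (poly_in (by decide)) (one_in (by decide)) (one_in (by decide))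
    (starC_poly (one_in (by decide))) (starC_poly (one_in (by decide))) (rePS (by decide)) (rePS (by decide)) (by decide)
    (fun _ _ _ hz hk hl => fr2_4ss hz hk hl)
    (fun _ hz h h2 => box_polyU (x1 := 13770) (x2 := 13773) (y1 := 2816) (y2 := 2819)
      (by decide) (by exact_mod_cast stH4p11 hz (c_p11 (h2 rfl))))

theorem rf2_5ea : Rf1 ((5 : ℕ) : ℝ) .t5 (frS (-1) (Poly p2_A2)) v2_5ea :=
  rf1_of (C := fun z => 16 * z ^ 5 - 20 * z ^ 3 + 5 * z) (U := fun z => 16 * z ^ 4 - 12 * z ^ 2 + 1) cB5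
    (ringFacts.end_a 5 (by norm_num)) (frS_mono (poly_in (by decide))) (one_inF (by decide)) (starC_frS (starC_poly (one_in (by decide)))) (rePF (by decide)) (by decide)
    (fun _ _ hz hk => fr2_5ea hz (memF hk))
    (fun _ hz h => box_polyU (x1 := 13328) (x2 := 13331) (y1 := 1138) (y2 := 1141)
      (by decide) (by exact_mod_cast stH5o1 hz h))

theorem rf2_5ez : Rf1 ((5 : ℕ) : ℝ) .t5 (Poly p2_Z) v2_5ez :=
  rf1_of (C := fun z => 16 * z ^ 5 - 20 * z ^ 3 + 5 * z) (U := fun z => 16 * z ^ 4 - 12 * z ^ 2 + 1) cB5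
    (ringFacts.end_s 5 (by norm_num)) (poly_in (by decide)) (one_in (by decide)) (starC_poly (one_in (by decide))) (rePS (by decide)) (by decide)
    (fun _ _ hz hk => fr2_5ez hz hk)
    (fun _ hz h => box_polyU (x1 := 13328) (x2 := 13331) (y1 := 1138) (y2 := 1141)
      (by decide) (by exact_mod_cast stH5o1 hz h))

theorem rf2_5es : Rf1 ((5 : ℕ) : ℝ) .t5 (Poly p2_S3) v2_5es :=
  rf1_of (C := fun z => 16 * z ^ 5 - 20 * z ^ 3 + 5 * z) (U := fun z => 16 * z ^ 4 - 12 * z ^ 2 + 1) cB5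
    (ringFacts.end_s 5 (by norm_num)) (poly_in (by decide)) (kst_in (by decide)) (starC_poly (kst_in (by decide))) (rePS (by decide)) (by decide)
    (fun _ _ hz hk => fr2_5es hz hk)
    (fun _ hz h => box_polyU (x1 := 12782) (x2 := 12785) (y1 := 1184) (y2 := 1187)
      (by decide) (by exact_mod_cast stH5ok hz (c_ok h)))

theorem rf2_5aa : Rf2 ((5 : ℕ) : ℝ) .t5 (frS (-1) (Poly p2_A2))
    (frS (-1) (Poly p2_A2)) v2_5aa :=
  rf2_of (C := fun z => 16 * z ^ 5 - 20 * z ^ 3 + 5 * z) (U := fun z => 16 * z ^ 4 - 12 * z ^ 2 + 1) cB5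
    (ringFacts.aa 5 (by norm_num)) (frS_mono (poly_in (by decide))) (frS_mono (poly_in (by decide))) (one_inF (by decide)) (one_inF (by decide))
    (starC_frS (starC_poly (one_in (by decide)))) (starC_frS (starC_poly (one_in (by decide)))) (rePF (by decide)) (rePF (by decide)) (by decide)
    (fun _ _ _ hz hk hl => fr2_5aa hz (memF hk) (memF hl))
    (fun _ hz h h2 => box_polyU (x1 := 14132) (x2 := 14135) (y1 := 1759) (y2 := 1762)
      (by decide) (by exact_mod_cast stH5p11 hz (c_p11 (h2 rfl))))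

theorem rf2_5az : Rf2 ((5 : ℕ) : ℝ) .t5 (frS (-1) (Poly p2_A2))
    (Poly p2_Z) v2_5az :=
  rf2_of (C := fun z => 16 * z ^ 5 - 20 * z ^ 3 + 5 * z) (U := fun z => 16 * z ^ 4 - 12 * z ^ 2 + 1) cB5
    (ringFacts.as3 5 (by norm_num)) (frS_mono (poly_in (by decide))) (poly_in (by decide)) (one_inF (by decide)) (one_in (by decide))
    (starC_frS (starC_poly (one_in (by decide)))) (starC_poly (one_in (by decide))) (rePF (by decide)) (rePS (by decide)) (by decide)
    (fun _ _ _ hz hk hl => fr2_5az hz (memF hk) hl)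
    (fun _ hz h h2 => box_polyU (x1 := 14132) (x2 := 14135) (y1 := 1759) (y2 := 1762)
      (by decide) (by exact_mod_cast stH5p11 hz (c_p11 (h2 rfl))))

theorem rf2_5as : Rf2 ((5 : ℕ) : ℝ) .t5 (frS (-1) (Poly p2_A2))
    (Poly p2_S3) v2_5as :=
  rf2_of (C := fun z => 16 * z ^ 5 - 20 * z ^ 3 + 5 * z) (U := fun z => 16 * z ^ 4 - 12 * z ^ 2 + 1) cB5
    (ringFacts.as3 5 (by norm_num)) (frS_mono (poly_in (by decide))) (poly_in (by decide)) (one_inF (by decide)) (kst_in (by decide))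
    (starC_frS (starC_poly (one_in (by decide)))) (starC_poly (kst_in (by decide))) (rePF (by decide)) (rePS (by decide)) (by decide)
    (fun _ _ _ hz hk hl => fr2_5as hz (memF hk) hl)
    (fun _ hz h h2 => box_polyU (x1 := 13768) (x2 := 13771) (y1 := 2005) (y2 := 2008)
      (by decide) (by exact_mod_cast stH5p1k hz (c_p1k h)))

theorem rf2_5zz : Rf2 ((5 : ℕ) : ℝ) .t5 (Poly p2_Z)
    (Poly p2_Z) v2_5zz :=
  rf2_of (C := fun z => 16 * z ^ 5 - 20 * z ^ 3 + 5 * z) (U := fun z => 16 * z ^ 4 - 12 * z ^ 2 + 1) cB5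
    (ringFacts.ss 5 (by norm_num)) (poly_in (by decide)) (poly_in (by decide)) (one_in (by decide)) (one_in (by decide))
    (starC_poly (one_in (by decide))) (starC_poly (one_in (by decide))) (rePS (by decide)) (rePS (by decide)) (by decide)
    (fun _ _ _ hz hk hl => fr2_5zz hz hk hl)
    (fun _ hz h h2 => box_polyU (x1 := 14132) (x2 := 14135) (y1 := 1759) (y2 := 1762)
      (by decide) (by exact_mod_cast stH5p11 hz (c_p11 (h2 rfl))))

theorem rf2_5zs : Rf2 ((5 : ℕ) : ℝ) .t5 (Poly p2_Z)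
    (Poly p2_S3) v2_5zs :=
  rf2_of (C := fun z => 16 * z ^ 5 - 20 * z ^ 3 + 5 * z) (U := fun z => 16 * z ^ 4 - 12 * z ^ 2 + 1) cB5
    (ringFacts.ss 5 (by norm_num)) (poly_in (by decide)) (poly_in (by decide)) (one_in (by decide)) (kst_in (by decide))
    (starC_poly (one_in (by decide))) (starC_poly (kst_in (by decide))) (rePS (by decide)) (rePS (by decide)) (by decide)
    (fun _ _ _ hz hk hl => fr2_5zs hz hk hl)
    (fun _ hz h h2 => box_polyU (x1 := 13768) (x2 := 13771) (y1 := 2005) (y2 := 2008)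
      (by decide) (by exact_mod_cast stH5p1k hz (c_p1k h)))

theorem rf2_5ss : Rf2 ((5 : ℕ) : ℝ) .t5 (Poly p2_S3)
    (Poly p2_S3) v2_5ss :=
  rf2_of (C := fun z => 16 * z ^ 5 - 20 * z ^ 3 + 5 * z) (U := fun z => 16 * z ^ 4 - 12 * z ^ 2 + 1) cB5
    (ringFacts.ss 5 (by norm_num)) (poly_in (by decide)) (poly_in (by decide)) (kst_in (by decide)) (kst_in (by decide))
    (starC_poly (kst_in (by decide))) (starC_poly (kst_in (by decide))) (rePS (by decide)) (rePS (by decide)) (by decide)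
    (fun _ _ _ hz hk hl => fr2_5ss hz hk hl)
    (fun _ hz h h2 => box_polyU (x1 := 13313) (x2 := 13316) (y1 := 2295) (y2 := 2298)
      (by decide) (by exact_mod_cast stH5pkk hz (c_pkk (h2 rfl))))

theorem rf2_6ea : Rf1 ((6 : ℕ) : ℝ) .t6 (frS (-1) (Poly p2_A2)) v2_6ea :=
  rf1_of (C := fun z => 32 * z ^ 6 - 48 * z ^ 4 + 18 * z ^ 2 - 1) (U := fun z => 32 * z ^ 5 - 32 * z ^ 3 + 6 * z) cB6
    (ringFacts.end_a 6 (by norm_num)) (frS_mono (poly_in (by decide))) (one_inF (by decide)) (starC_frS (starC_poly (one_in (by decide)))) (rePF (by decide)) (by decide)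
    (fun _ _ hz hk => fr2_6ea hz (memF hk))
    (fun _ hz h => box_polyU (x1 := 14041) (x2 := 14044) (y1 := 682) (y2 := 685)
      (by decide) (by exact_mod_cast stH6o1 hz h))

theorem rf2_6ez : Rf1 ((6 : ℕ) : ℝ) .t6 (Poly p2_Z) v2_6ez :=
  rf1_of (C := fun z => 32 * z ^ 6 - 48 * z ^ 4 + 18 * z ^ 2 - 1) (U := fun z => 32 * z ^ 5 - 32 * z ^ 3 + 6 * z) cB6
    (ringFacts.end_s 6 (by norm_num)) (poly_in (by decide)) (one_in (by decide)) (starC_poly (one_in (by decide))) (rePS (by decide)) (by decide)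
    (fun _ _ hz hk => fr2_6ez hz hk)
    (fun _ hz h => box_polyU (x1 := 14041) (x2 := 14044) (y1 := 682) (y2 := 685)
      (by decide) (by exact_mod_cast stH6o1 hz h))

theorem rf2_6es : Rf1 ((6 : ℕ) : ℝ) .t6 (Poly p2_S3) v2_6es :=
  rf1_of (C := fun z => 32 * z ^ 6 - 48 * z ^ 4 + 18 * z ^ 2 - 1) (U := fun z => 32 * z ^ 5 - 32 * z ^ 3 + 6 * z) cB6
    (ringFacts.end_s 6 (by norm_num)) (poly_in (by decide)) (kst_in (by decide)) (starC_poly (kst_in (by decide))) (rePS (by decide)) (by decide)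
    (fun _ _ hz hk => fr2_6es hz hk)
    (fun _ hz h => box_polyU (x1 := 13705) (x2 := 13708) (y1 := 670) (y2 := 673)
      (by decide) (by exact_mod_cast stH6ok hz (c_ok h)))

theorem rf2_6aa : Rf2 ((6 : ℕ) : ℝ) .t6 (frS (-1) (Poly p2_A2))
    (frS (-1) (Poly p2_A2)) v2_6aa :=
  rf2_of (C := fun z => 32 * z ^ 6 - 48 * z ^ 4 + 18 * z ^ 2 - 1) (U := fun z => 32 * z ^ 5 - 32 * z ^ 3 + 6 * z) cB6
    (ringFacts.aa 6 (by norm_num)) (frS_mono (poly_in (by decide))) (frS_mono (poly_in (by decide))) (one_inF (by decide)) (one_inF (by decide))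
    (starC_frS (starC_poly (one_in (by decide)))) (starC_frS (starC_poly (one_in (by decide)))) (rePF (by decide)) (rePF (by decide)) (by decide)
    (fun _ _ _ hz hk hl => fr2_6aa hz (memF hk) (memF hl))
    (fun _ hz h h2 => box_polyU (x1 := 14481) (x2 := 14484) (y1 := 1140) (y2 := 1143)
      (by decide) (by exact_mod_cast stH6p11 hz (c_p11 (h2 rfl))))

theorem rf2_6az : Rf2 ((6 : ℕ) : ℝ) .t6 (frS (-1) (Poly p2_A2))
    (Poly p2_Z) v2_6az :=
  rf2_of (C := fun z => 32 * z ^ 6 - 48 * z ^ 4 + 18 * z ^ 2 - 1) (U := fun z => 32 * z ^ 5 - 32 * z ^ 3 + 6 * z) cB6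
    (ringFacts.as3 6 (by norm_num)) (frS_mono (poly_in (by decide))) (poly_in (by decide)) (one_inF (by decide)) (one_in (by decide))
    (starC_frS (starC_poly (one_in (by decide)))) (starC_poly (one_in (by decide))) (rePF (by decide)) (rePS (by decide)) (by decide)
    (fun _ _ _ hz hk hl => fr2_6az hz (memF hk) hl)
    (fun _ hz h h2 => box_polyU (x1 := 14481) (x2 := 14484) (y1 := 1140) (y2 := 1143)
      (by decide) (by exact_mod_cast stH6p11 hz (c_p11 (h2 rfl))))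

theorem rf2_6as : Rf2 ((6 : ℕ) : ℝ) .t6 (frS (-1) (Poly p2_A2))
    (Poly p2_S3) v2_6as :=
  rf2_of (C := fun z => 32 * z ^ 6 - 48 * z ^ 4 + 18 * z ^ 2 - 1) (U := fun z => 32 * z ^ 5 - 32 * z ^ 3 + 6 * z) cB6
    (ringFacts.as3 6 (by norm_num)) (frS_mono (poly_in (by decide))) (poly_in (by decide)) (one_inF (by decide)) (kst_in (by decide))
    (starC_frS (starC_poly (one_in (by decide)))) (starC_poly (kst_in (by decide))) (rePF (by decide)) (rePS (by decide)) (by decide)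
    (fun _ _ _ hz hk hl => fr2_6as hz (memF hk) hl)
    (fun _ hz h h2 => box_polyU (x1 := 14219) (x2 := 14222) (y1 := 1259) (y2 := 1262)
      (by decide) (by exact_mod_cast stH6p1k hz (c_p1k h)))

theorem rf2_6zz : Rf2 ((6 : ℕ) : ℝ) .t6 (Poly p2_Z)
    (Poly p2_Z) v2_6zz :=
  rf2_of (C := fun z => 32 * z ^ 6 - 48 * z ^ 4 + 18 * z ^ 2 - 1) (U := fun z => 32 * z ^ 5 - 32 * z ^ 3 + 6 * z) cB6
    (ringFacts.ss 6 (by norm_num)) (poly_in (by decide)) (poly_in (by decide)) (one_in (by decide)) (one_in (by decide))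
    (starC_poly (one_in (by decide))) (starC_poly (one_in (by decide))) (rePS (by decide)) (rePS (by decide)) (by decide)
    (fun _ _ _ hz hk hl => fr2_6zz hz hk hl)
    (fun _ hz h h2 => box_polyU (x1 := 14481) (x2 := 14484) (y1 := 1140) (y2 := 1143)
      (by decide) (by exact_mod_cast stH6p11 hz (c_p11 (h2 rfl))))

theorem rf2_6zs : Rf2 ((6 : ℕ) : ℝ) .t6 (Poly p2_Z)
    (Poly p2_S3) v2_6zs :=
  rf2_of (C := fun z => 32 * z ^ 6 - 48 * z ^ 4 + 18 * z ^ 2 - 1) (U := fun z => 32 * z ^ 5 - 32 * z ^ 3 + 6 * z) cB6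
    (ringFacts.ss 6 (by norm_num)) (poly_in (by decide)) (poly_in (by decide)) (one_in (by decide)) (kst_in (by decide))
    (starC_poly (one_in (by decide))) (starC_poly (kst_in (by decide))) (rePS (by decide)) (rePS (by decide)) (by decide)
    (fun _ _ _ hz hk hl => fr2_6zs hz hk hl)
    (fun _ hz h h2 => box_polyU (x1 := 14219) (x2 := 14222) (y1 := 1259) (y2 := 1262)
      (by decide) (by exact_mod_cast stH6p1k hz (c_p1k h)))

theorem rf2_6ss : Rf2 ((6 : ℕ) : ℝ) .t6 (Poly p2_S3)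
    (Poly p2_S3) v2_6ss :=
  rf2_of (C := fun z => 32 * z ^ 6 - 48 * z ^ 4 + 18 * z ^ 2 - 1) (U := fun z => 32 * z ^ 5 - 32 * z ^ 3 + 6 * z) cB6
    (ringFacts.ss 6 (by norm_num)) (poly_in (by decide)) (poly_in (by decide)) (kst_in (by decide)) (kst_in (by decide))
    (starC_poly (kst_in (by decide))) (starC_poly (kst_in (by decide))) (rePS (by decide)) (rePS (by decide)) (by decide)
    (fun _ _ _ hz hk hl => fr2_6ss hz hk hl)
    (fun _ hz h h2 => box_polyU (x1 := 13896) (x2 := 13899) (y1 := 1393) (y2 := 1396)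
      (by decide) (by exact_mod_cast stH6pkk hz (c_pkk (h2 rfl))))

theorem rf2_7ea : Rf1 ((7 : ℕ) : ℝ) .t7 (frS (-1) (Poly p2_A2)) v2_7ea :=
  rf1_of (C := fun z => 64 * z ^ 7 - 112 * z ^ 5 + 56 * z ^ 3 - 7 * z) (U := fun z => 64 * z ^ 6 - 80 * z ^ 4 + 24 * z ^ 2 - 1) cB7
    (ringFacts.end_a 7 (by norm_num)) (frS_mono (poly_in (by decide))) (one_inF (by decide)) (starC_frS (starC_poly (one_in (by decide)))) (rePF (by decide)) (by decide)
    (fun _ _ hz hk => fr2_7ea hz (memF hk))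
    (fun _ hz h => box_polyU (x1 := 14514) (x2 := 14517) (y1 := 438) (y2 := 441)
      (by decide) (by exact_mod_cast stH7o1 hz h))

theorem rf2_7ez : Rf1 ((7 : ℕ) : ℝ) .t7 (Poly p2_Z) v2_7ez :=
  rf1_of (C := fun z => 64 * z ^ 7 - 112 * z ^ 5 + 56 * z ^ 3 - 7 * z) (U := fun z => 64 * z ^ 6 - 80 * z ^ 4 + 24 * z ^ 2 - 1) cB7
    (ringFacts.end_s 7 (by norm_num)) (poly_in (by decide)) (one_in (by decide)) (starC_poly (one_in (by decide))) (rePS (by decide)) (by decide)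
    (fun _ _ hz hk => fr2_7ez hz hk)
    (fun _ hz h => box_polyU (x1 := 14514) (x2 := 14517) (y1 := 438) (y2 := 441)
      (by decide) (by exact_mod_cast stH7o1 hz h))

theorem rf2_7es : Rf1 ((7 : ℕ) : ℝ) .t7 (Poly p2_S3) v2_7es :=
  rf1_of (C := fun z => 64 * z ^ 7 - 112 * z ^ 5 + 56 * z ^ 3 - 7 * z) (U := fun z => 64 * z ^ 6 - 80 * z ^ 4 + 24 * z ^ 2 - 1) cB7
    (ringFacts.end_s 7 (by norm_num)) (poly_in (by decide)) (kst_in (by decide)) (starC_poly (kst_in (by decide))) (rePS (by decide)) (by decide)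
    (fun _ _ hz hk => fr2_7es hz hk)
    (fun _ hz h => box_polyU (x1 := 14298) (x2 := 14301) (y1 := 411) (y2 := 414)
      (by decide) (by exact_mod_cast stH7ok hz (c_ok h)))

theorem rf2_7aa : Rf2 ((7 : ℕ) : ℝ) .t7 (frS (-1) (Poly p2_A2))
    (frS (-1) (Poly p2_A2)) v2_7aa :=
  rf2_of (C := fun z => 64 * z ^ 7 - 112 * z ^ 5 + 56 * z ^ 3 - 7 * z) (U := fun z => 64 * z ^ 6 - 80 * z ^ 4 + 24 * z ^ 2 - 1) cB7
    (ringFacts.aa 7 (by norm_num)) (frS_mono (poly_in (by decide))) (frS_mono (poly_in (by decide))) (one_inF (by decide)) (one_inF (by decide))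
    (starC_frS (starC_poly (one_in (by decide)))) (starC_frS (starC_poly (one_in (by decide)))) (rePF (by decide)) (rePF (by decide)) (by decide)
    (fun _ _ _ hz hk hl => fr2_7aa hz (memF hk) (memF hl))
    (fun _ hz h h2 => box_polyU (x1 := 14769) (x2 := 14772) (y1 := 769) (y2 := 772)
      (by decide) (by exact_mod_cast stH7p11 hz (c_p11 (h2 rfl))))

theorem rf2_7az : Rf2 ((7 : ℕ) : ℝ) .t7 (frS (-1) (Poly p2_A2))
    (Poly p2_Z) v2_7az :=
  rf2_of (C := fun z => 64 * z ^ 7 - 112 * z ^ 5 + 56 * z ^ 3 - 7 * z) (U := fun z => 64 * z ^ 6 - 80 * z ^ 4 + 24 * z ^ 2 - 1) cB7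
    (ringFacts.as3 7 (by norm_num)) (frS_mono (poly_in (by decide))) (poly_in (by decide)) (one_inF (by decide)) (one_in (by decide))
    (starC_frS (starC_poly (one_in (by decide)))) (starC_poly (one_in (by decide))) (rePF (by decide)) (rePS (by decide)) (by decide)
    (fun _ _ _ hz hk hl => fr2_7az hz (memF hk) hl)
    (fun _ hz h h2 => box_polyU (x1 := 14769) (x2 := 14772) (y1 := 769) (y2 := 772)
      (by decide) (by exact_mod_cast stH7p11 hz (c_p11 (h2 rfl))))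

theorem rf2_7as : Rf2 ((7 : ℕ) : ℝ) .t7 (frS (-1) (Poly p2_A2))
    (Poly p2_S3) v2_7as :=
  rf2_of (C := fun z => 64 * z ^ 7 - 112 * z ^ 5 + 56 * z ^ 3 - 7 * z) (U := fun z => 64 * z ^ 6 - 80 * z ^ 4 + 24 * z ^ 2 - 1) cB7
    (ringFacts.as3 7 (by norm_num)) (frS_mono (poly_in (by decide))) (poly_in (by decide)) (one_inF (by decide)) (kst_in (by decide))
    (starC_frS (starC_poly (one_in (by decide)))) (starC_poly (kst_in (by decide))) (rePF (by decide)) (rePS (by decide)) (by decide)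
    (fun _ _ _ hz hk hl => fr2_7as hz (memF hk) hl)
    (fun _ hz h h2 => box_polyU (x1 := 14583) (x2 := 14586) (y1 := 824) (y2 := 827)
      (by decide) (by exact_mod_cast stH7p1k hz (c_p1k h)))

theorem rf2_7zz : Rf2 ((7 : ℕ) : ℝ) .t7 (Poly p2_Z)
    (Poly p2_Z) v2_7zz :=
  rf2_of (C := fun z => 64 * z ^ 7 - 112 * z ^ 5 + 56 * z ^ 3 - 7 * z) (U := fun z => 64 * z ^ 6 - 80 * z ^ 4 + 24 * z ^ 2 - 1) cB7
    (ringFacts.ss 7 (by norm_num)) (poly_in (by decide)) (poly_in (by decide)) (one_in (by decide)) (one_in (by decide))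
    (starC_poly (one_in (by decide))) (starC_poly (one_in (by decide))) (rePS (by decide)) (rePS (by decide)) (by decide)
    (fun _ _ _ hz hk hl => fr2_7zz hz hk hl)
    (fun _ hz h h2 => box_polyU (x1 := 14769) (x2 := 14772) (y1 := 769) (y2 := 772)
      (by decide) (by exact_mod_cast stH7p11 hz (c_p11 (h2 rfl))))

theorem rf2_7zs : Rf2 ((7 : ℕ) : ℝ) .t7 (Poly p2_Z)
    (Poly p2_S3) v2_7zs :=
  rf2_of (C := fun z => 64 * z ^ 7 - 112 * z ^ 5 + 56 * z ^ 3 - 7 * z) (U := fun z => 64 * z ^ 6 - 80 * z ^ 4 + 24 * z ^ 2 - 1) cB7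
    (ringFacts.ss 7 (by norm_num)) (poly_in (by decide)) (poly_in (by decide)) (one_in (by decide)) (kst_in (by decide))
    (starC_poly (one_in (by decide))) (starC_poly (kst_in (by decide))) (rePS (by decide)) (rePS (by decide)) (by decide)
    (fun _ _ _ hz hk hl => fr2_7zs hz hk hl)
    (fun _ hz h h2 => box_polyU (x1 := 14583) (x2 := 14586) (y1 := 824) (y2 := 827)
      (by decide) (by exact_mod_cast stH7p1k hz (c_p1k h)))

theorem rf2_7ss : Rf2 ((7 : ℕ) : ℝ) .t7 (Poly p2_S3)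
    (Poly p2_S3) v2_7ss :=
  rf2_of (C := fun z => 64 * z ^ 7 - 112 * z ^ 5 + 56 * z ^ 3 - 7 * z) (U := fun z => 64 * z ^ 6 - 80 * z ^ 4 + 24 * z ^ 2 - 1) cB7
    (ringFacts.ss 7 (by norm_num)) (poly_in (by decide)) (poly_in (by decide)) (kst_in (by decide)) (kst_in (by decide))
    (starC_poly (kst_in (by decide))) (starC_poly (kst_in (by decide))) (rePS (by decide)) (rePS (by decide)) (by decide)
    (fun _ _ _ hz hk hl => fr2_7ss hz hk hl)
    (fun _ hz h h2 => box_polyU (x1 := 14358) (x2 := 14361) (y1 := 882) (y2 := 885)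
      (by decide) (by exact_mod_cast stH7pkk hz (c_pkk (h2 rfl))))

/-! ### round 3 -/

theorem rf3_2ea : Rf1 ((2 : ℕ) : ℝ) .t2e (frS (-1) (Poly p3_A2)) v3_2ea :=
  rf1_of (C := fun z => 2 * z ^ 2 - 1) (U := fun z => 2 * z) cB2
    (ringFacts.end_a 2 (by norm_num)) (frS_mono (poly_in (by decide))) (one_inF (by decide)) (starC_frS (starC_poly (one_in (by decide)))) (rePF (by decide)) (by decide)
    (fun _ _ hz hk => fr3_2ea hz (memF hk))
    (fun _ hz h => box_polyU (x1 := 7999) (x2 := 8002) (y1 := 7999) (y2 := 8002)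
      (by decide) (by exact_mod_cast stH2eo1 hz h))

theorem rf3_2aa : Rf2 ((2 : ℕ) : ℝ) .t2aa (frS (-1) (Poly p3_A2))
    (frS (-1) (Poly p3_A2)) v3_2aa :=
  rf2_of (C := fun z => 2 * z ^ 2 - 1) (U := fun z => 2 * z) cB2
    (ringFacts.aa 2 (by norm_num)) (frS_mono (poly_in (by decide))) (frS_mono (poly_in (by decide))) (one_inF (by decide)) (one_inF (by decide))
    (starC_frS (starC_poly (one_in (by decide)))) (starC_frS (starC_poly (one_in (by decide)))) (rePF (by decide)) (rePF (by decide)) (by decide)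
    (fun _ _ _ hz hk hl => fr3_2aa hz (memF hk) (memF hl))
    (fun _ hz h h2 => box_polyU (x1 := 13855) (x2 := 13858) (y1 := 7999) (y2 := 8002)
      (by decide) (by exact_mod_cast stH2aap11 hz (c_p11 (h2 rfl))))

theorem rf3_2as : Rf2 ((2 : ℕ) : ℝ) .t2as (frS (-1) (Poly p3_A1))
    (Poly p3_ST) v3_2as :=
  rf2_of (C := fun z => 2 * z ^ 2 - 1) (U := fun z => 2 * z) cB2
    (by exact_mod_cast ringFacts.as2) (frS_mono (poly_in (by decide))) (poly_in (by decide)) (one_inF (by decide)) (one_in (by decide))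
    (starC_frS (starC_poly (one_in (by decide)))) (starC_poly (one_in (by decide))) (rePF (by decide)) (rePS (by decide)) (by decide)
    (fun _ _ _ hz hk hl => fr3_2as hz (memF hk) hl)
    (fun _ hz h h2 => box_polyU (x1 := 13855) (x2 := 13858) (y1 := 7999) (y2 := 8002)
      (by decide) (by exact_mod_cast stH2asp11 hz (c_p11 (h2 rfl))))

theorem rf3_3ea : Rf1 ((3 : ℕ) : ℝ) .t3ae (frS (-1) (Poly p3_A2)) v3_3ea :=
  rf1_of (C := fun z => 4 * z ^ 3 - 3 * z) (U := fun z => 4 * z ^ 2 - 1) cB3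
    (ringFacts.end_a 3 (by norm_num)) (frS_mono (poly_in (by decide))) (one_inF (by decide)) (starC_frS (starC_poly (one_in (by decide)))) (rePF (by decide)) (by decide)
    (fun _ _ hz hk => fr3_3ea hz (memF hk))
    (fun _ hz h => box_polyU (x1 := 10582) (x2 := 10585) (y1 := 3999) (y2 := 4002)
      (by decide) (by exact_mod_cast stH3aeo1 hz h))

theorem rf3_3es : Rf1 ((3 : ℕ) : ℝ) .t3se (Poly p3_S2) v3_3es :=
  rf1_of (C := fun z => 4 * z ^ 3 - 3 * z) (U := fun z => 4 * z ^ 2 - 1) cB3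
    (ringFacts.end_s 3 (by norm_num)) (poly_in (by decide)) (one_in (by decide)) (starC_poly (one_in (by decide))) (rePS (by decide)) (by decide)
    (fun _ _ hz hk => fr3_3es hz hk)
    (fun _ hz h => box_polyU (x1 := 10582) (x2 := 10585) (y1 := 3999) (y2 := 4002)
      (by decide) (by exact_mod_cast stH3seo1 hz h))

theorem rf3_3aa : Rf2 ((3 : ℕ) : ℝ) .t3aa (frS (-1) (Poly p3_A2))
    (frS (-1) (Poly p3_A2)) v3_3aa :=
  rf2_of (C := fun z => 4 * z ^ 3 - 3 * z) (U := fun z => 4 * z ^ 2 - 1) cB3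
    (ringFacts.aa 3 (by norm_num)) (frS_mono (poly_in (by decide))) (frS_mono (poly_in (by decide))) (one_inF (by decide)) (one_inF (by decide))
    (starC_frS (starC_poly (one_in (by decide)))) (starC_frS (starC_poly (one_in (by decide)))) (rePF (by decide)) (rePF (by decide)) (by decide)
    (fun _ _ _ hz hk hl => fr3_3aa hz (memF hk) (memF hl))
    (fun _ hz h h2 => box_polyU (x1 := 13550) (x2 := 13553) (y1 := 4648) (y2 := 4651)
      (by decide) (by exact_mod_cast stH3aap11 hz (c_p11 (h2 rfl))))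

theorem rf3_3as : Rf2 ((3 : ℕ) : ℝ) .t3as (frS (-1) (Poly p3_A2))
    (Poly p3_S2) v3_3as :=
  rf2_of (C := fun z => 4 * z ^ 3 - 3 * z) (U := fun z => 4 * z ^ 2 - 1) cB3
    (ringFacts.as3 3 (by norm_num)) (frS_mono (poly_in (by decide))) (poly_in (by decide)) (one_inF (by decide)) (one_in (by decide))
    (starC_frS (starC_poly (one_in (by decide)))) (starC_poly (one_in (by decide))) (rePF (by decide)) (rePS (by decide)) (by decide)
    (fun _ _ _ hz hk hl => fr3_3as hz (memF hk) hl)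
    (fun _ hz h h2 => box_polyU (x1 := 13550) (x2 := 13553) (y1 := 4648) (y2 := 4651)
      (by decide) (by exact_mod_cast stH3asp11 hz (c_p11 (h2 rfl))))

theorem rf3_3ss : Rf2 ((3 : ℕ) : ℝ) .t3ss (Poly p3_S2)
    (Poly p3_S2) v3_3ss :=
  rf2_of (C := fun z => 4 * z ^ 3 - 3 * z) (U := fun z => 4 * z ^ 2 - 1) cB3
    (ringFacts.ss 3 (by norm_num)) (poly_in (by decide)) (poly_in (by decide)) (one_in (by decide)) (one_in (by decide))
    (starC_poly (one_in (by decide))) (starC_poly (one_in (by decide))) (rePS (by decide)) (rePS (by decide)) (by decide)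
    (fun _ _ _ hz hk hl => fr3_3ss hz hk hl)
    (fun _ hz h h2 => box_polyU (x1 := 13550) (x2 := 13553) (y1 := 4648) (y2 := 4651)
      (by decide) (by exact_mod_cast stH3ssp11 hz (c_p11 (h2 rfl))))

theorem rf3_4ea : Rf1 ((4 : ℕ) : ℝ) .t4 (frS (-1) (Poly p3_A2)) v3_4ea :=
  rf1_of (C := fun z => 8 * z ^ 4 - 8 * z ^ 2 + 1) (U := fun z => 8 * z ^ 3 - 4 * z) cB4
    (ringFacts.end_a 4 (by norm_num)) (frS_mono (poly_in (by decide))) (one_inF (by decide)) (starC_frS (starC_poly (one_in (by decide)))) (rePF (by decide)) (by decide)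
    (fun _ _ hz hk => fr3_4ea hz (memF hk))
    (fun _ hz h => box_polyU (x1 := 12231) (x2 := 12234) (y1 := 2055) (y2 := 2058)
      (by decide) (by exact_mod_cast stH4o1 hz h))

theorem rf3_4ez : Rf1 ((4 : ℕ) : ℝ) .t4 (Poly p3_Z) v3_4ez :=
  rf1_of (C := fun z => 8 * z ^ 4 - 8 * z ^ 2 + 1) (U := fun z => 8 * z ^ 3 - 4 * z) cB4
    (ringFacts.end_s 4 (by norm_num)) (poly_in (by decide)) (one_in (by decide)) (starC_poly (one_in (by decide))) (rePS (by decide)) (by decide)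
    (fun _ _ hz hk => fr3_4ez hz hk)
    (fun _ hz h => box_polyU (x1 := 12231) (x2 := 12234) (y1 := 2055) (y2 := 2058)
      (by decide) (by exact_mod_cast stH4o1 hz h))

theorem rf3_4es : Rf1 ((4 : ℕ) : ℝ) .t4 (Poly p3_S3) v3_4es :=
  rf1_of (C := fun z => 8 * z ^ 4 - 8 * z ^ 2 + 1) (U := fun z => 8 * z ^ 3 - 4 * z) cB4
    (ringFacts.end_s 4 (by norm_num)) (poly_in (by decide)) (kst_in (by decide)) (starC_poly (kst_in (by decide))) (rePS (by decide)) (by decide)
    (fun _ _ hz hk => fr3_4es hz hk)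
    (fun _ hz h => box_polyU (x1 := 11333) (x2 := 11336) (y1 := 2286) (y2 := 2289)
      (by decide) (by exact_mod_cast stH4ok hz (c_ok h)))

theorem rf3_4aa : Rf2 ((4 : ℕ) : ℝ) .t4 (frS (-1) (Poly p3_A2))
    (frS (-1) (Poly p3_A2)) v3_4aa :=
  rf2_of (C := fun z => 8 * z ^ 4 - 8 * z ^ 2 + 1) (U := fun z => 8 * z ^ 3 - 4 * z) cB4
    (ringFacts.aa 4 (by norm_num)) (frS_mono (poly_in (by decide))) (frS_mono (poly_in (by decide))) (one_inF (by decide)) (one_inF (by decide))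
    (starC_frS (starC_poly (one_in (by decide)))) (starC_frS (starC_poly (one_in (by decide)))) (rePF (by decide)) (rePF (by decide)) (by decide)
    (fun _ _ _ hz hk hl => fr3_4aa hz (memF hk) (memF hl))
    (fun _ hz h h2 => box_polyU (x1 := 13770) (x2 := 13773) (y1 := 2816) (y2 := 2819)
      (by decide) (by exact_mod_cast stH4p11 hz (c_p11 (h2 rfl))))

theorem rf3_4az : Rf2 ((4 : ℕ) : ℝ) .t4 (frS (-1) (Poly p3_A2))
    (Poly p3_Z) v3_4az :=
  rf2_of (C := fun z => 8 * z ^ 4 - 8 * z ^ 2 + 1) (U := fun z => 8 * z ^ 3 - 4 * z) cB4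
    (ringFacts.as3 4 (by norm_num)) (frS_mono (poly_in (by decide))) (poly_in (by decide)) (one_inF (by decide)) (one_in (by decide))
    (starC_frS (starC_poly (one_in (by decide)))) (starC_poly (one_in (by decide))) (rePF (by decide)) (rePS (by decide)) (by decide)
    (fun _ _ _ hz hk hl => fr3_4az hz (memF hk) hl)
    (fun _ hz h h2 => box_polyU (x1 := 13770) (x2 := 13773) (y1 := 2816) (y2 := 2819)
      (by decide) (by exact_mod_cast stH4p11 hz (c_p11 (h2 rfl))))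

theorem rf3_4as : Rf2 ((4 : ℕ) : ℝ) .t4 (frS (-1) (Poly p3_A2))
    (Poly p3_S3) v3_4as :=
  rf2_of (C := fun z => 8 * z ^ 4 - 8 * z ^ 2 + 1) (U := fun z => 8 * z ^ 3 - 4 * z) cB4
    (ringFacts.as3 4 (by norm_num)) (frS_mono (poly_in (by decide))) (poly_in (by decide)) (one_inF (by decide)) (kst_in (by decide))
    (starC_frS (starC_poly (one_in (by decide)))) (starC_poly (kst_in (by decide))) (rePF (by decide)) (rePS (by decide)) (by decide)
    (fun _ _ _ hz hk hl => fr3_4as hz (memF hk) hl)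
    (fun _ hz h h2 => box_polyU (x1 := 13280) (x2 := 13283) (y1 := 3307) (y2 := 3310)
      (by decide) (by exact_mod_cast stH4p1k hz (c_p1k h)))

theorem rf3_4zz : Rf2 ((4 : ℕ) : ℝ) .t4 (Poly p3_Z)
    (Poly p3_Z) v3_4zz :=
  rf2_of (C := fun z => 8 * z ^ 4 - 8 * z ^ 2 + 1) (U := fun z => 8 * z ^ 3 - 4 * z) cB4
    (ringFacts.ss 4 (by norm_num)) (poly_in (by decide)) (poly_in (by decide)) (one_in (by decide)) (one_in (by decide))
    (starC_poly (one_in (by decide))) (starC_poly (one_in (by decide))) (rePS (by decide)) (rePS (by decide)) (by decide)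
    (fun _ _ _ hz hk hl => fr3_4zz hz hk hl)
    (fun _ hz h h2 => box_polyU (x1 := 13770) (x2 := 13773) (y1 := 2816) (y2 := 2819)
      (by decide) (by exact_mod_cast stH4p11 hz (c_p11 (h2 rfl))))

theorem rf3_4ss : Rf2 ((4 : ℕ) : ℝ) .t4 (Poly p3_S2)
    (Poly p3_S2) v3_4ss :=
  rf2_of (C := fun z => 8 * z ^ 4 - 8 * z ^ 2 + 1) (U := fun z => 8 * z ^ 3 - 4 * z) cB4
    (ringFacts.ss 4 (by norm_num)) (poly_in (by decide)) (poly_in (by decide)) (one_in (by decide)) (one_in (by decide))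
    (starC_poly (one_in (by decide))) (starC_poly (one_in (by decide))) (rePS (by decide)) (rePS (by decide)) (by decide)
    (fun _ _ _ hz hk hl => fr3_4ss hz hk hl)
    (fun _ hz h h2 => box_polyU (x1 := 13770) (x2 := 13773) (y1 := 2816) (y2 := 2819)
      (by decide) (by exact_mod_cast stH4p11 hz (c_p11 (h2 rfl))))

theorem rf3_5ea : Rf1 ((5 : ℕ) : ℝ) .t5 (frS (-1) (Poly p3_A2)) v3_5ea :=
  rf1_of (C := fun z => 16 * z ^ 5 - 20 * z ^ 3 + 5 * z) (U := fun z => 16 * z ^ 4 - 12 * z ^ 2 + 1) cB5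
    (ringFacts.end_a 5 (by norm_num)) (frS_mono (poly_in (by decide))) (one_inF (by decide)) (starC_frS (starC_poly (one_in (by decide)))) (rePF (by decide)) (by decide)
    (fun _ _ hz hk => fr3_5ea hz (memF hk))
    (fun _ hz h => box_polyU (x1 := 13328) (x2 := 13331) (y1 := 1138) (y2 := 1141)
      (by decide) (by exact_mod_cast stH5o1 hz h))

theorem rf3_5ez : Rf1 ((5 : ℕ) : ℝ) .t5 (Poly p3_Z) v3_5ez :=
  rf1_of (C := fun z => 16 * z ^ 5 - 20 * z ^ 3 + 5 * z) (U := fun z => 16 * z ^ 4 - 12 * z ^ 2 + 1) cB5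
    (ringFacts.end_s 5 (by norm_num)) (poly_in (by decide)) (one_in (by decide)) (starC_poly (one_in (by decide))) (rePS (by decide)) (by decide)
    (fun _ _ hz hk => fr3_5ez hz hk)
    (fun _ hz h => box_polyU (x1 := 13328) (x2 := 13331) (y1 := 1138) (y2 := 1141)
      (by decide) (by exact_mod_cast stH5o1 hz h))

theorem rf3_5es : Rf1 ((5 : ℕ) : ℝ) .t5 (Poly p3_S3) v3_5es :=
  rf1_of (C := fun z => 16 * z ^ 5 - 20 * z ^ 3 + 5 * z) (U := fun z => 16 * z ^ 4 - 12 * z ^ 2 + 1) cB5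
    (ringFacts.end_s 5 (by norm_num)) (poly_in (by decide)) (kst_in (by decide)) (starC_poly (kst_in (by decide))) (rePS (by decide)) (by decide)
    (fun _ _ hz hk => fr3_5es hz hk)
    (fun _ hz h => box_polyU (x1 := 12782) (x2 := 12785) (y1 := 1184) (y2 := 1187)
      (by decide) (by exact_mod_cast stH5ok hz (c_ok h)))

theorem rf3_5aa : Rf2 ((5 : ℕ) : ℝ) .t5 (frS (-1) (Poly p3_A2))
    (frS (-1) (Poly p3_A2)) v3_5aa :=
  rf2_of (C := fun z => 16 * z ^ 5 - 20 * z ^ 3 + 5 * z) (U := fun z => 16 * z ^ 4 - 12 * z ^ 2 + 1) cB5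
    (ringFacts.aa 5 (by norm_num)) (frS_mono (poly_in (by decide))) (frS_mono (poly_in (by decide))) (one_inF (by decide)) (one_inF (by decide))
    (starC_frS (starC_poly (one_in (by decide)))) (starC_frS (starC_poly (one_in (by decide)))) (rePF (by decide)) (rePF (by decide)) (by decide)
    (fun _ _ _ hz hk hl => fr3_5aa hz (memF hk) (memF hl))
    (fun _ hz h h2 => box_polyU (x1 := 14132) (x2 := 14135) (y1 := 1759) (y2 := 1762)
      (by decide) (by exact_mod_cast stH5p11 hz (c_p11 (h2 rfl))))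

theorem rf3_5az : Rf2 ((5 : ℕ) : ℝ) .t5 (frS (-1) (Poly p3_A2))
    (Poly p3_Z) v3_5az :=
  rf2_of (C := fun z => 16 * z ^ 5 - 20 * z ^ 3 + 5 * z) (U := fun z => 16 * z ^ 4 - 12 * z ^ 2 + 1) cB5
    (ringFacts.as3 5 (by norm_num)) (frS_mono (poly_in (by decide))) (poly_in (by decide)) (one_inF (by decide)) (one_in (by decide))
    (starC_frS (starC_poly (one_in (by decide)))) (starC_poly (one_in (by decide))) (rePF (by decide)) (rePS (by decide)) (by decide)
    (fun _ _ _ hz hk hl => fr3_5az hz (memF hk) hl)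
    (fun _ hz h h2 => box_polyU (x1 := 14132) (x2 := 14135) (y1 := 1759) (y2 := 1762)
      (by decide) (by exact_mod_cast stH5p11 hz (c_p11 (h2 rfl))))

theorem rf3_5as : Rf2 ((5 : ℕ) : ℝ) .t5 (frS (-1) (Poly p3_A2))
    (Poly p3_S3) v3_5as :=
  rf2_of (C := fun z => 16 * z ^ 5 - 20 * z ^ 3 + 5 * z) (U := fun z => 16 * z ^ 4 - 12 * z ^ 2 + 1) cB5
    (ringFacts.as3 5 (by norm_num)) (frS_mono (poly_in (by decide))) (poly_in (by decide)) (one_inF (by decide)) (kst_in (by decide))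
    (starC_frS (starC_poly (one_in (by decide)))) (starC_poly (kst_in (by decide))) (rePF (by decide)) (rePS (by decide)) (by decide)
    (fun _ _ _ hz hk hl => fr3_5as hz (memF hk) hl)
    (fun _ hz h h2 => box_polyU (x1 := 13768) (x2 := 13771) (y1 := 2005) (y2 := 2008)
      (by decide) (by exact_mod_cast stH5p1k hz (c_p1k h)))

theorem rf3_5zz : Rf2 ((5 : ℕ) : ℝ) .t5 (Poly p3_Z)
    (Poly p3_Z) v3_5zz :=
  rf2_of (C := fun z => 16 * z ^ 5 - 20 * z ^ 3 + 5 * z) (U := fun z => 16 * z ^ 4 - 12 * z ^ 2 + 1) cB5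
    (ringFacts.ss 5 (by norm_num)) (poly_in (by decide)) (poly_in (by decide)) (one_in (by decide)) (one_in (by decide))
    (starC_poly (one_in (by decide))) (starC_poly (one_in (by decide))) (rePS (by decide)) (rePS (by decide)) (by decide)
    (fun _ _ _ hz hk hl => fr3_5zz hz hk hl)
    (fun _ hz h h2 => box_polyU (x1 := 14132) (x2 := 14135) (y1 := 1759) (y2 := 1762)
      (by decide) (by exact_mod_cast stH5p11 hz (c_p11 (h2 rfl))))

theorem rf3_5zs : Rf2 ((5 : ℕ) : ℝ) .t5 (Poly p3_Z)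
    (Poly p3_S3) v3_5zs :=
  rf2_of (C := fun z => 16 * z ^ 5 - 20 * z ^ 3 + 5 * z) (U := fun z => 16 * z ^ 4 - 12 * z ^ 2 + 1) cB5
    (ringFacts.ss 5 (by norm_num)) (poly_in (by decide)) (poly_in (by decide)) (one_in (by decide)) (kst_in (by decide))
    (starC_poly (one_in (by decide))) (starC_poly (kst_in (by decide))) (rePS (by decide)) (rePS (by decide)) (by decide)
    (fun _ _ _ hz hk hl => fr3_5zs hz hk hl)
    (fun _ hz h h2 => box_polyU (x1 := 13768) (x2 := 13771) (y1 := 2005) (y2 := 2008)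
      (by decide) (by exact_mod_cast stH5p1k hz (c_p1k h)))

theorem rf3_5ss : Rf2 ((5 : ℕ) : ℝ) .t5 (Poly p3_S3)
    (Poly p3_S3) v3_5ss :=
  rf2_of (C := fun z => 16 * z ^ 5 - 20 * z ^ 3 + 5 * z) (U := fun z => 16 * z ^ 4 - 12 * z ^ 2 + 1) cB5
    (ringFacts.ss 5 (by norm_num)) (poly_in (by decide)) (poly_in (by decide)) (kst_in (by decide)) (kst_in (by decide))
    (starC_poly (kst_in (by decide))) (starC_poly (kst_in (by decide))) (rePS (by decide)) (rePS (by decide)) (by decide)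
    (fun _ _ _ hz hk hl => fr3_5ss hz hk hl)
    (fun _ hz h h2 => box_polyU (x1 := 13313) (x2 := 13316) (y1 := 2295) (y2 := 2298)
      (by decide) (by exact_mod_cast stH5pkk hz (c_pkk (h2 rfl))))

theorem rf3_6ea : Rf1 ((6 : ℕ) : ℝ) .t6 (frS (-1) (Poly p3_A2)) v3_6ea :=
  rf1_of (C := fun z => 32 * z ^ 6 - 48 * z ^ 4 + 18 * z ^ 2 - 1) (U := fun z => 32 * z ^ 5 - 32 * z ^ 3 + 6 * z) cB6
    (ringFacts.end_a 6 (by norm_num)) (frS_mono (poly_in (by decide))) (one_inF (by decide)) (starC_frS (starC_poly (one_in (by decide)))) (rePF (by decide)) (by decide)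
    (fun _ _ hz hk => fr3_6ea hz (memF hk))
    (fun _ hz h => box_polyU (x1 := 14041) (x2 := 14044) (y1 := 682) (y2 := 685)
      (by decide) (by exact_mod_cast stH6o1 hz h))

theorem rf3_6ez : Rf1 ((6 : ℕ) : ℝ) .t6 (Poly p3_Z) v3_6ez :=
  rf1_of (C := fun z => 32 * z ^ 6 - 48 * z ^ 4 + 18 * z ^ 2 - 1) (U := fun z => 32 * z ^ 5 - 32 * z ^ 3 + 6 * z) cB6
    (ringFacts.end_s 6 (by norm_num)) (poly_in (by decide)) (one_in (by decide)) (starC_poly (one_in (by decide))) (rePS (by decide)) (by decide)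
    (fun _ _ hz hk => fr3_6ez hz hk)
    (fun _ hz h => box_polyU (x1 := 14041) (x2 := 14044) (y1 := 682) (y2 := 685)
      (by decide) (by exact_mod_cast stH6o1 hz h))

theorem rf3_6es : Rf1 ((6 : ℕ) : ℝ) .t6 (Poly p3_S3) v3_6es :=
  rf1_of (C := fun z => 32 * z ^ 6 - 48 * z ^ 4 + 18 * z ^ 2 - 1) (U := fun z => 32 * z ^ 5 - 32 * z ^ 3 + 6 * z) cB6
    (ringFacts.end_s 6 (by norm_num)) (poly_in (by decide)) (kst_in (by decide)) (starC_poly (kst_in (by decide))) (rePS (by decide)) (by decide)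
    (fun _ _ hz hk => fr3_6es hz hk)
    (fun _ hz h => box_polyU (x1 := 13705) (x2 := 13708) (y1 := 670) (y2 := 673)
      (by decide) (by exact_mod_cast stH6ok hz (c_ok h)))

theorem rf3_6aa : Rf2 ((6 : ℕ) : ℝ) .t6 (frS (-1) (Poly p3_A2))
    (frS (-1) (Poly p3_A2)) v3_6aa :=
  rf2_of (C := fun z => 32 * z ^ 6 - 48 * z ^ 4 + 18 * z ^ 2 - 1) (U := fun z => 32 * z ^ 5 - 32 * z ^ 3 + 6 * z) cB6
    (ringFacts.aa 6 (by norm_num)) (frS_mono (poly_in (by decide))) (frS_mono (poly_in (by decide))) (one_inF (by decide)) (one_inF (by decide))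
    (starC_frS (starC_poly (one_in (by decide)))) (starC_frS (starC_poly (one_in (by decide)))) (rePF (by decide)) (rePF (by decide)) (by decide)
    (fun _ _ _ hz hk hl => fr3_6aa hz (memF hk) (memF hl))
    (fun _ hz h h2 => box_polyU (x1 := 14481) (x2 := 14484) (y1 := 1140) (y2 := 1143)
      (by decide) (by exact_mod_cast stH6p11 hz (c_p11 (h2 rfl))))

theorem rf3_6az : Rf2 ((6 : ℕ) : ℝ) .t6 (frS (-1) (Poly p3_A2))
    (Poly p3_Z) v3_6az :=
  rf2_of (C := fun z => 32 * z ^ 6 - 48 * z ^ 4 + 18 * z ^ 2 - 1) (U := fun z => 32 * z ^ 5 - 32 * z ^ 3 + 6 * z) cB6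
    (ringFacts.as3 6 (by norm_num)) (frS_mono (poly_in (by decide))) (poly_in (by decide)) (one_inF (by decide)) (one_in (by decide))
    (starC_frS (starC_poly (one_in (by decide)))) (starC_poly (one_in (by decide))) (rePF (by decide)) (rePS (by decide)) (by decide)
    (fun _ _ _ hz hk hl => fr3_6az hz (memF hk) hl)
    (fun _ hz h h2 => box_polyU (x1 := 14481) (x2 := 14484) (y1 := 1140) (y2 := 1143)
      (by decide) (by exact_mod_cast stH6p11 hz (c_p11 (h2 rfl))))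

theorem rf3_6as : Rf2 ((6 : ℕ) : ℝ) .t6 (frS (-1) (Poly p3_A2))
    (Poly p3_S3) v3_6as :=
  rf2_of (C := fun z => 32 * z ^ 6 - 48 * z ^ 4 + 18 * z ^ 2 - 1) (U := fun z => 32 * z ^ 5 - 32 * z ^ 3 + 6 * z) cB6
    (ringFacts.as3 6 (by norm_num)) (frS_mono (poly_in (by decide))) (poly_in (by decide)) (one_inF (by decide)) (kst_in (by decide))
    (starC_frS (starC_poly (one_in (by decide)))) (starC_poly (kst_in (by decide))) (rePF (by decide)) (rePS (by decide)) (by decide)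
    (fun _ _ _ hz hk hl => fr3_6as hz (memF hk) hl)
    (fun _ hz h h2 => box_polyU (x1 := 14219) (x2 := 14222) (y1 := 1259) (y2 := 1262)
      (by decide) (by exact_mod_cast stH6p1k hz (c_p1k h)))

theorem rf3_6zz : Rf2 ((6 : ℕ) : ℝ) .t6 (Poly p3_Z)
    (Poly p3_Z) v3_6zz :=
  rf2_of (C := fun z => 32 * z ^ 6 - 48 * z ^ 4 + 18 * z ^ 2 - 1) (U := fun z => 32 * z ^ 5 - 32 * z ^ 3 + 6 * z) cB6
    (ringFacts.ss 6 (by norm_num)) (poly_in (by decide)) (poly_in (by decide)) (one_in (by decide)) (one_in (by decide))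
    (starC_poly (one_in (by decide))) (starC_poly (one_in (by decide))) (rePS (by decide)) (rePS (by decide)) (by decide)
    (fun _ _ _ hz hk hl => fr3_6zz hz hk hl)
    (fun _ hz h h2 => box_polyU (x1 := 14481) (x2 := 14484) (y1 := 1140) (y2 := 1143)
      (by decide) (by exact_mod_cast stH6p11 hz (c_p11 (h2 rfl))))

theorem rf3_6zs : Rf2 ((6 : ℕ) : ℝ) .t6 (Poly p3_Z)
    (Poly p3_S3) v3_6zs :=
  rf2_of (C := fun z => 32 * z ^ 6 - 48 * z ^ 4 + 18 * z ^ 2 - 1) (U := fun z => 32 * z ^ 5 - 32 * z ^ 3 + 6 * z) cB6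
    (ringFacts.ss 6 (by norm_num)) (poly_in (by decide)) (poly_in (by decide)) (one_in (by decide)) (kst_in (by decide))
    (starC_poly (one_in (by decide))) (starC_poly (kst_in (by decide))) (rePS (by decide)) (rePS (by decide)) (by decide)
    (fun _ _ _ hz hk hl => fr3_6zs hz hk hl)
    (fun _ hz h h2 => box_polyU (x1 := 14219) (x2 := 14222) (y1 := 1259) (y2 := 1262)
      (by decide) (by exact_mod_cast stH6p1k hz (c_p1k h)))

theorem rf3_6ss : Rf2 ((6 : ℕ) : ℝ) .t6 (Poly p3_S3)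
    (Poly p3_S3) v3_6ss :=
  rf2_of (C := fun z => 32 * z ^ 6 - 48 * z ^ 4 + 18 * z ^ 2 - 1) (U := fun z => 32 * z ^ 5 - 32 * z ^ 3 + 6 * z) cB6
    (ringFacts.ss 6 (by norm_num)) (poly_in (by decide)) (poly_in (by decide)) (kst_in (by decide)) (kst_in (by decide))
    (starC_poly (kst_in (by decide))) (starC_poly (kst_in (by decide))) (rePS (by decide)) (rePS (by decide)) (by decide)
    (fun _ _ _ hz hk hl => fr3_6ss hz hk hl)
    (fun _ hz h h2 => box_polyU (x1 := 13896) (x2 := 13899) (y1 := 1393) (y2 := 1396)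
      (by decide) (by exact_mod_cast stH6pkk hz (c_pkk (h2 rfl))))

theorem rf3_7ea : Rf1 ((7 : ℕ) : ℝ) .t7 (frS (-1) (Poly p3_A2)) v3_7ea :=
  rf1_of (C := fun z => 64 * z ^ 7 - 112 * z ^ 5 + 56 * z ^ 3 - 7 * z) (U := fun z => 64 * z ^ 6 - 80 * z ^ 4 + 24 * z ^ 2 - 1) cB7
    (ringFacts.end_a 7 (by norm_num)) (frS_mono (poly_in (by decide))) (one_inF (by decide)) (starC_frS (starC_poly (one_in (by decide)))) (rePF (by decide)) (by decide)
    (fun _ _ hz hk => fr3_7ea hz (memF hk))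
    (fun _ hz h => box_polyU (x1 := 14514) (x2 := 14517) (y1 := 438) (y2 := 441)
      (by decide) (by exact_mod_cast stH7o1 hz h))

theorem rf3_7ez : Rf1 ((7 : ℕ) : ℝ) .t7 (Poly p3_Z) v3_7ez :=
  rf1_of (C := fun z => 64 * z ^ 7 - 112 * z ^ 5 + 56 * z ^ 3 - 7 * z) (U := fun z => 64 * z ^ 6 - 80 * z ^ 4 + 24 * z ^ 2 - 1) cB7
    (ringFacts.end_s 7 (by norm_num)) (poly_in (by decide)) (one_in (by decide)) (starC_poly (one_in (by decide))) (rePS (by decide)) (by decide)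
    (fun _ _ hz hk => fr3_7ez hz hk)
    (fun _ hz h => box_polyU (x1 := 14514) (x2 := 14517) (y1 := 438) (y2 := 441)
      (by decide) (by exact_mod_cast stH7o1 hz h))

theorem rf3_7es : Rf1 ((7 : ℕ) : ℝ) .t7 (Poly p3_S3) v3_7es :=
  rf1_of (C := fun z => 64 * z ^ 7 - 112 * z ^ 5 + 56 * z ^ 3 - 7 * z) (U := fun z => 64 * z ^ 6 - 80 * z ^ 4 + 24 * z ^ 2 - 1) cB7
    (ringFacts.end_s 7 (by norm_num)) (poly_in (by decide)) (kst_in (by decide)) (starC_poly (kst_in (by decide))) (rePS (by decide)) (by decide)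
    (fun _ _ hz hk => fr3_7es hz hk)
    (fun _ hz h => box_polyU (x1 := 14298) (x2 := 14301) (y1 := 411) (y2 := 414)
      (by decide) (by exact_mod_cast stH7ok hz (c_ok h)))

theorem rf3_7aa : Rf2 ((7 : ℕ) : ℝ) .t7 (frS (-1) (Poly p3_A2))
    (frS (-1) (Poly p3_A2)) v3_7aa :=
  rf2_of (C := fun z => 64 * z ^ 7 - 112 * z ^ 5 + 56 * z ^ 3 - 7 * z) (U := fun z => 64 * z ^ 6 - 80 * z ^ 4 + 24 * z ^ 2 - 1) cB7
    (ringFacts.aa 7 (by norm_num)) (frS_mono (poly_in (by decide))) (frS_mono (poly_in (by decide))) (one_inF (by decide)) (one_inF (by decide))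
    (starC_frS (starC_poly (one_in (by decide)))) (starC_frS (starC_poly (one_in (by decide)))) (rePF (by decide)) (rePF (by decide)) (by decide)
    (fun _ _ _ hz hk hl => fr3_7aa hz (memF hk) (memF hl))
    (fun _ hz h h2 => box_polyU (x1 := 14769) (x2 := 14772) (y1 := 769) (y2 := 772)
      (by decide) (by exact_mod_cast stH7p11 hz (c_p11 (h2 rfl))))

theorem rf3_7az : Rf2 ((7 : ℕ) : ℝ) .t7 (frS (-1) (Poly p3_A2))
    (Poly p3_Z) v3_7az :=
  rf2_of (C := fun z => 64 * z ^ 7 - 112 * z ^ 5 + 56 * z ^ 3 - 7 * z) (U := fun z => 64 * z ^ 6 - 80 * z ^ 4 + 24 * z ^ 2 - 1) cB7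
    (ringFacts.as3 7 (by norm_num)) (frS_mono (poly_in (by decide))) (poly_in (by decide)) (one_inF (by decide)) (one_in (by decide))
    (starC_frS (starC_poly (one_in (by decide)))) (starC_poly (one_in (by decide))) (rePF (by decide)) (rePS (by decide)) (by decide)
    (fun _ _ _ hz hk hl => fr3_7az hz (memF hk) hl)
    (fun _ hz h h2 => box_polyU (x1 := 14769) (x2 := 14772) (y1 := 769) (y2 := 772)
      (by decide) (by exact_mod_cast stH7p11 hz (c_p11 (h2 rfl))))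

theorem rf3_7as : Rf2 ((7 : ℕ) : ℝ) .t7 (frS (-1) (Poly p3_A2))
    (Poly p3_S3) v3_7as :=
  rf2_of (C := fun z => 64 * z ^ 7 - 112 * z ^ 5 + 56 * z ^ 3 - 7 * z) (U := fun z => 64 * z ^ 6 - 80 * z ^ 4 + 24 * z ^ 2 - 1) cB7
    (ringFacts.as3 7 (by norm_num)) (frS_mono (poly_in (by decide))) (poly_in (by decide)) (one_inF (by decide)) (kst_in (by decide))
    (starC_frS (starC_poly (one_in (by decide)))) (starC_poly (kst_in (by decide))) (rePF (by decide)) (rePS (by decide)) (by decide)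
    (fun _ _ _ hz hk hl => fr3_7as hz (memF hk) hl)
    (fun _ hz h h2 => box_polyU (x1 := 14583) (x2 := 14586) (y1 := 824) (y2 := 827)
      (by decide) (by exact_mod_cast stH7p1k hz (c_p1k h)))

theorem rf3_7zz : Rf2 ((7 : ℕ) : ℝ) .t7 (Poly p3_Z)
    (Poly p3_Z) v3_7zz :=
  rf2_of (C := fun z => 64 * z ^ 7 - 112 * z ^ 5 + 56 * z ^ 3 - 7 * z) (U := fun z => 64 * z ^ 6 - 80 * z ^ 4 + 24 * z ^ 2 - 1) cB7
    (ringFacts.ss 7 (by norm_num)) (poly_in (by decide)) (poly_in (by decide)) (one_in (by decide)) (one_in (by decide))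
    (starC_poly (one_in (by decide))) (starC_poly (one_in (by decide))) (rePS (by decide)) (rePS (by decide)) (by decide)
    (fun _ _ _ hz hk hl => fr3_7zz hz hk hl)
    (fun _ hz h h2 => box_polyU (x1 := 14769) (x2 := 14772) (y1 := 769) (y2 := 772)
      (by decide) (by exact_mod_cast stH7p11 hz (c_p11 (h2 rfl))))

theorem rf3_7zs : Rf2 ((7 : ℕ) : ℝ) .t7 (Poly p3_Z)
    (Poly p3_S3) v3_7zs :=
  rf2_of (C := fun z => 64 * z ^ 7 - 112 * z ^ 5 + 56 * z ^ 3 - 7 * z) (U := fun z => 64 * z ^ 6 - 80 * z ^ 4 + 24 * z ^ 2 - 1) cB7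
    (ringFacts.ss 7 (by norm_num)) (poly_in (by decide)) (poly_in (by decide)) (one_in (by decide)) (kst_in (by decide))
    (starC_poly (one_in (by decide))) (starC_poly (kst_in (by decide))) (rePS (by decide)) (rePS (by decide)) (by decide)
    (fun _ _ _ hz hk hl => fr3_7zs hz hk hl)
    (fun _ hz h h2 => box_polyU (x1 := 14583) (x2 := 14586) (y1 := 824) (y2 := 827)
      (by decide) (by exact_mod_cast stH7p1k hz (c_p1k h)))

theorem rf3_7ss : Rf2 ((7 : ℕ) : ℝ) .t7 (Poly p3_S3)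
    (Poly p3_S3) v3_7ss :=
  rf2_of (C := fun z => 64 * z ^ 7 - 112 * z ^ 5 + 56 * z ^ 3 - 7 * z) (U := fun z => 64 * z ^ 6 - 80 * z ^ 4 + 24 * z ^ 2 - 1) cB7
    (ringFacts.ss 7 (by norm_num)) (poly_in (by decide)) (poly_in (by decide)) (kst_in (by decide)) (kst_in (by decide))
    (starC_poly (kst_in (by decide))) (starC_poly (kst_in (by decide))) (rePS (by decide)) (rePS (by decide)) (by decide)
    (fun _ _ _ hz hk hl => fr3_7ss hz hk hl)
    (fun _ hz h h2 => box_polyU (x1 := 14358) (x2 := 14361) (y1 := 882) (y2 := 885)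
      (by decide) (by exact_mod_cast stH7pkk hz (c_pkk (h2 rfl))))

end Pool.Agent.Work.MP_b30479_gt.G2
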