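import Pool.Agent.Work.MP_b30479_gt.G2.SRefK
import Pool.Agent.Work.MP_b30479_gt.G2.SRefT

/-!
# The three rounds of the refined location

`Refine K0 Kr1`, `Refine Kr1 Kr2`, `Refine Kr2 Kr3`, `Kr3.Le K0`, and `Snd Kr3 b w` for every
solution of a word.
-/

set_option linter.style.longLine false

namespace Pool.Agent.Work.MP_b30479_gt.G2

open Complex Set SC
open scoped ComplexConjugate

namespace SR

/-- hulls of round 1 -/
def pt1 : PT := ⟨p1_A2, p1_A1, p1_Z, p1_S3, p1_S2, p1_ST⟩

/-- hulls of round 2 -/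
def pt2 : PT := ⟨p2_A2, p2_A1, p2_Z, p2_S3, p2_S2, p2_ST⟩

/-- hulls of round 3 -/
def pt3 : PT := ⟨p3_A2, p3_A1, p3_Z, p3_S3, p3_S2, p3_ST⟩

theorem low1 : Low q1 pt1 := by
  constructor
  · intro d r h hB
    cases r
    · exact absurd rfl (h.ends rfl)
    · have h1 : 2 ≤ d := by
        rcases Nat.lt_or_ge 1 d with h2 | h2
        · exact h2
        · exact absurd rfl (h.one (le_antisymm h2 h.pos)).2.1
      have h2 : d ≤ 7 := by
        simp only [crs, SK.u] at hB
        omega
      interval_cases d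
      · exact ⟨_, rfl, rf1_2ea⟩
      · exact ⟨_, rfl, rf1_3ea⟩
      · exact ⟨_, rfl, rf1_4ea⟩
      · exact ⟨_, rfl, rf1_5ea⟩
      · exact ⟨_, rfl, rf1_6ea⟩
      · exact ⟨_, rfl, rf1_7ea⟩
    · have h1 : 4 ≤ d := by
        exact h.zr rfl
      have h2 : d ≤ 7 := by
        simp only [crs, SK.u] at hB
        omega
      interval_cases d
      · exact ⟨_, rfl, rf1_4ez⟩
      · exact ⟨_, rfl, rf1_5ez⟩
      · exact ⟨_, rfl, rf1_6ez⟩
      · exact ⟨_, rfl, rf1_7ez⟩
    · have h1 : 2 ≤ d := by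
        rcases Nat.lt_or_ge 1 d with h2 | h2
        · exact h2
        · exact absurd rfl (h.one (le_antisymm h2 h.pos)).2.1
      have h2 : d ≤ 6 := by
        simp only [crs, SK.u] at hB
        omega
      interval_cases d
      · exact ⟨_, rfl, rf1_3es⟩
      · exact ⟨_, rfl, rf1_4es⟩
      · exact ⟨_, rfl, rf1_5es⟩
      · exact ⟨_, rfl, rf1_6es⟩
      · exact ⟨_, rfl, rf1_7es⟩
  · intro d l r h hl hr hB
    cases l <;> cases r
    · exact absurd rfl hl
    · exact absurd rfl hl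
    · exact absurd rfl hl
    · exact absurd rfl hl
    · exact absurd rfl hr
    · have h1 : 2 ≤ d := by
        rcases Nat.lt_or_ge 1 d with h2 | h2
        · exact h2
        · exact absurd (h.one (le_antisymm h2 h.pos)).1 (by decide)
      have h2 : d ≤ 7 := by
        simp only [crs, SK.u] at hB
        omega
      interval_cases d
      · exact ⟨_, rfl, rf1_2aa⟩
      · exact ⟨_, rfl, rf1_3aa⟩
      · exact ⟨_, rfl, rf1_4aa⟩
      · exact ⟨_, rfl, rf1_5aa⟩
      · exact ⟨_, rfl, rf1_6aa⟩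
      · exact ⟨_, rfl, rf1_7aa⟩
    · have h1 : 4 ≤ d := by
        exact h.zr rfl
      have h2 : d ≤ 7 := by
        simp only [crs, SK.u] at hB
        omega
      interval_cases d
      · exact ⟨_, rfl, rf1_4az⟩
      · exact ⟨_, rfl, rf1_5az⟩
      · exact ⟨_, rfl, rf1_6az⟩
      · exact ⟨_, rfl, rf1_7az⟩
    · have h1 : 1 ≤ d := by
        exact h.pos
      have h2 : d ≤ 6 := by
        simp only [crs, SK.u] at hB
        omega
      interval_cases d
      · exact ⟨_, rfl, rf1_2as⟩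
      · exact ⟨_, rfl, rf1_3as⟩
      · exact ⟨_, rfl, rf1_4as⟩
      · exact ⟨_, rfl, rf1_5as⟩
      · exact ⟨_, rfl, rf1_6as⟩
      · exact ⟨_, rfl, rf1_7as⟩
    · exact absurd rfl hr
    · have h1 : 4 ≤ d := by
        exact h.zl rfl
      have h2 : d ≤ 7 := by
        simp only [crs, SK.u] at hB
        omega
      interval_cases d
      · exact ⟨_, rfl, rf1_4az.symm⟩
      · exact ⟨_, rfl, rf1_5az.symm⟩
      · exact ⟨_, rfl, rf1_6az.symm⟩
      · exact ⟨_, rfl, rf1_7az.symm⟩
    · have h1 : 4 ≤ d := by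
        exact h.zl rfl
      have h2 : d ≤ 7 := by
        simp only [crs, SK.u] at hB
        omega
      interval_cases d
      · exact ⟨_, rfl, rf1_4zz⟩
      · exact ⟨_, rfl, rf1_5zz⟩
      · exact ⟨_, rfl, rf1_6zz⟩
      · exact ⟨_, rfl, rf1_7zz⟩
    · have h1 : 4 ≤ d := by
        exact h.zl rfl
      have h2 : d ≤ 6 := by
        simp only [crs, SK.u] at hB
        omega
      interval_cases d
      · exact ⟨_, rfl, rf1_5zs⟩
      · exact ⟨_, rfl, rf1_6zs⟩
      · exact ⟨_, rfl, rf1_7zs⟩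
    · exact absurd rfl hr
    · have h1 : 1 ≤ d := by
        exact h.pos
      have h2 : d ≤ 6 := by
        simp only [crs, SK.u] at hB
        omega
      interval_cases d
      · exact ⟨_, rfl, rf1_2as.symm⟩
      · exact ⟨_, rfl, rf1_3as.symm⟩
      · exact ⟨_, rfl, rf1_4as.symm⟩
      · exact ⟨_, rfl, rf1_5as.symm⟩
      · exact ⟨_, rfl, rf1_6as.symm⟩
      · exact ⟨_, rfl, rf1_7as.symm⟩
    · have h1 : 4 ≤ d := by
        exact h.zr rfl
      have h2 : d ≤ 6 := by
        simp only [crs, SK.u] at hB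
        omega
      interval_cases d
      · exact ⟨_, rfl, rf1_5zs.symm⟩
      · exact ⟨_, rfl, rf1_6zs.symm⟩
      · exact ⟨_, rfl, rf1_7zs.symm⟩
    · have h1 : 1 ≤ d := by
        exact h.pos
      have h2 : d ≤ 5 := by
        simp only [crs, SK.u] at hB
        omega
      interval_cases d
      · exact ⟨_, rfl, rf1_3ss⟩
      · exact ⟨_, rfl, rf1_4ss⟩
      · exact ⟨_, rfl, rf1_5ss⟩
      · exact ⟨_, rfl, rf1_6ss⟩
      · exact ⟨_, rfl, rf1_7ss⟩

theorem low2 : Low q2 pt2 := by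
  constructor
  · intro d r h hB
    cases r
    · exact absurd rfl (h.ends rfl)
    · have h1 : 2 ≤ d := by
        rcases Nat.lt_or_ge 1 d with h2 | h2
        · exact h2
        · exact absurd rfl (h.one (le_antisymm h2 h.pos)).2.1
      have h2 : d ≤ 7 := by
        simp only [crs, SK.u] at hB
        omega
      interval_cases d
      · exact ⟨_, rfl, rf2_2ea⟩
      · exact ⟨_, rfl, rf2_3ea⟩
      · exact ⟨_, rfl, rf2_4ea⟩
      · exact ⟨_, rfl, rf2_5ea⟩
      · exact ⟨_, rfl, rf2_6ea⟩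
      · exact ⟨_, rfl, rf2_7ea⟩
    · have h1 : 4 ≤ d := by
        exact h.zr rfl
      have h2 : d ≤ 7 := by
        simp only [crs, SK.u] at hB
        omega
      interval_cases d
      · exact ⟨_, rfl, rf2_4ez⟩
      · exact ⟨_, rfl, rf2_5ez⟩
      · exact ⟨_, rfl, rf2_6ez⟩
      · exact ⟨_, rfl, rf2_7ez⟩
    · have h1 : 2 ≤ d := by
        rcases Nat.lt_or_ge 1 d with h2 | h2
        · exact h2
        · exact absurd rfl (h.one (le_antisymm h2 h.pos)).2.1
      have h2 : d ≤ 6 := by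
        simp only [crs, SK.u] at hB
        omega
      interval_cases d
      · exact ⟨_, rfl, rf2_3es⟩
      · exact ⟨_, rfl, rf2_4es⟩
      · exact ⟨_, rfl, rf2_5es⟩
      · exact ⟨_, rfl, rf2_6es⟩
      · exact ⟨_, rfl, rf2_7es⟩
  · intro d l r h hl hr hB
    cases l <;> cases r
    · exact absurd rfl hl
    · exact absurd rfl hl
    · exact absurd rfl hl
    · exact absurd rfl hl
    · exact absurd rfl hr
    · have h1 : 2 ≤ d := by
        rcases Nat.lt_or_ge 1 d with h2 | h2
        · exact h2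
        · exact absurd (h.one (le_antisymm h2 h.pos)).1 (by decide)
      have h2 : d ≤ 7 := by
        simp only [crs, SK.u] at hB
        omega
      interval_cases d
      · exact ⟨_, rfl, rf2_2aa⟩
      · exact ⟨_, rfl, rf2_3aa⟩
      · exact ⟨_, rfl, rf2_4aa⟩
      · exact ⟨_, rfl, rf2_5aa⟩
      · exact ⟨_, rfl, rf2_6aa⟩
      · exact ⟨_, rfl, rf2_7aa⟩
    · have h1 : 4 ≤ d := by
        exact h.zr rfl
      have h2 : d ≤ 7 := by
        simp only [crs, SK.u] at hB
        omega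
      interval_cases d
      · exact ⟨_, rfl, rf2_4az⟩
      · exact ⟨_, rfl, rf2_5az⟩
      · exact ⟨_, rfl, rf2_6az⟩
      · exact ⟨_, rfl, rf2_7az⟩
    · have h1 : 1 ≤ d := by
        exact h.pos
      have h2 : d ≤ 6 := by
        simp only [crs, SK.u] at hB
        omega
      interval_cases d
      · exact ⟨_, rfl, rf2_2as⟩
      · exact ⟨_, rfl, rf2_3as⟩
      · exact ⟨_, rfl, rf2_4as⟩
      · exact ⟨_, rfl, rf2_5as⟩
      · exact ⟨_, rfl, rf2_6as⟩
      · exact ⟨_, rfl, rf2_7as⟩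
    · exact absurd rfl hr
    · have h1 : 4 ≤ d := by
        exact h.zl rfl
      have h2 : d ≤ 7 := by
        simp only [crs, SK.u] at hB
        omega
      interval_cases d
      · exact ⟨_, rfl, rf2_4az.symm⟩
      · exact ⟨_, rfl, rf2_5az.symm⟩
      · exact ⟨_, rfl, rf2_6az.symm⟩
      · exact ⟨_, rfl, rf2_7az.symm⟩
    · have h1 : 4 ≤ d := by
        exact h.zl rfl
      have h2 : d ≤ 7 := by
        simp only [crs, SK.u] at hB
        omega
      interval_cases d
      · exact ⟨_, rfl, rf2_4zz⟩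
      · exact ⟨_, rfl, rf2_5zz⟩
      · exact ⟨_, rfl, rf2_6zz⟩
      · exact ⟨_, rfl, rf2_7zz⟩
    · have h1 : 4 ≤ d := by
        exact h.zl rfl
      have h2 : d ≤ 6 := by
        simp only [crs, SK.u] at hB
        omega
      interval_cases d
      · exact ⟨_, rfl, rf2_5zs⟩
      · exact ⟨_, rfl, rf2_6zs⟩
      · exact ⟨_, rfl, rf2_7zs⟩
    · exact absurd rfl hr
    · have h1 : 1 ≤ d := by
        exact h.pos
      have h2 : d ≤ 6 := by
        simp only [crs, SK.u] at hB
        omega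
      interval_cases d
      · exact ⟨_, rfl, rf2_2as.symm⟩
      · exact ⟨_, rfl, rf2_3as.symm⟩
      · exact ⟨_, rfl, rf2_4as.symm⟩
      · exact ⟨_, rfl, rf2_5as.symm⟩
      · exact ⟨_, rfl, rf2_6as.symm⟩
      · exact ⟨_, rfl, rf2_7as.symm⟩
    · have h1 : 4 ≤ d := by
        exact h.zr rfl
      have h2 : d ≤ 6 := by
        simp only [crs, SK.u] at hB
        omega
      interval_cases d
      · exact ⟨_, rfl, rf2_5zs.symm⟩
      · exact ⟨_, rfl, rf2_6zs.symm⟩
      · exact ⟨_, rfl, rf2_7zs.symm⟩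
    · have h1 : 1 ≤ d := by
        exact h.pos
      have h2 : d ≤ 5 := by
        simp only [crs, SK.u] at hB
        omega
      interval_cases d
      · exact ⟨_, rfl, rf2_3ss⟩
      · exact ⟨_, rfl, rf2_4ss⟩
      · exact ⟨_, rfl, rf2_5ss⟩
      · exact ⟨_, rfl, rf2_6ss⟩
      · exact ⟨_, rfl, rf2_7ss⟩

theorem low3 : Low q3 pt3 := by
  constructor
  · intro d r h hB
    cases r
    · exact absurd rfl (h.ends rfl)
    · have h1 : 2 ≤ d := by
        rcases Nat.lt_or_ge 1 d with h2 | h2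
        · exact h2
        · exact absurd rfl (h.one (le_antisymm h2 h.pos)).2.1
      have h2 : d ≤ 7 := by
        simp only [crs, SK.u] at hB
        omega
      interval_cases d
      · exact ⟨_, rfl, rf3_2ea⟩
      · exact ⟨_, rfl, rf3_3ea⟩
      · exact ⟨_, rfl, rf3_4ea⟩
      · exact ⟨_, rfl, rf3_5ea⟩
      · exact ⟨_, rfl, rf3_6ea⟩
      · exact ⟨_, rfl, rf3_7ea⟩
    · have h1 : 4 ≤ d := by
        exact h.zr rfl
      have h2 : d ≤ 7 := by
        simp only [crs, SK.u] at hB
        omega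
      interval_cases d
      · exact ⟨_, rfl, rf3_4ez⟩
      · exact ⟨_, rfl, rf3_5ez⟩
      · exact ⟨_, rfl, rf3_6ez⟩
      · exact ⟨_, rfl, rf3_7ez⟩
    · have h1 : 2 ≤ d := by
        rcases Nat.lt_or_ge 1 d with h2 | h2
        · exact h2
        · exact absurd rfl (h.one (le_antisymm h2 h.pos)).2.1
      have h2 : d ≤ 6 := by
        simp only [crs, SK.u] at hB
        omega
      interval_cases d
      · exact ⟨_, rfl, rf3_3es⟩
      · exact ⟨_, rfl, rf3_4es⟩
      · exact ⟨_, rfl, rf3_5es⟩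
      · exact ⟨_, rfl, rf3_6es⟩
      · exact ⟨_, rfl, rf3_7es⟩
  · intro d l r h hl hr hB
    cases l <;> cases r
    · exact absurd rfl hl
    · exact absurd rfl hl
    · exact absurd rfl hl
    · exact absurd rfl hl
    · exact absurd rfl hr
    · have h1 : 2 ≤ d := by
        rcases Nat.lt_or_ge 1 d with h2 | h2
        · exact h2
        · exact absurd (h.one (le_antisymm h2 h.pos)).1 (by decide)
      have h2 : d ≤ 7 := by
        simp only [crs, SK.u] at hB
        omega
      interval_cases d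
      · exact ⟨_, rfl, rf3_2aa⟩
      · exact ⟨_, rfl, rf3_3aa⟩
      · exact ⟨_, rfl, rf3_4aa⟩
      · exact ⟨_, rfl, rf3_5aa⟩
      · exact ⟨_, rfl, rf3_6aa⟩
      · exact ⟨_, rfl, rf3_7aa⟩
    · have h1 : 4 ≤ d := by
        exact h.zr rfl
      have h2 : d ≤ 7 := by
        simp only [crs, SK.u] at hB
        omega
      interval_cases d
      · exact ⟨_, rfl, rf3_4az⟩
      · exact ⟨_, rfl, rf3_5az⟩
      · exact ⟨_, rfl, rf3_6az⟩
      · exact ⟨_, rfl, rf3_7az⟩
    · have h1 : 1 ≤ d := by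
        exact h.pos
      have h2 : d ≤ 6 := by
        simp only [crs, SK.u] at hB
        omega
      interval_cases d
      · exact ⟨_, rfl, rf3_2as⟩
      · exact ⟨_, rfl, rf3_3as⟩
      · exact ⟨_, rfl, rf3_4as⟩
      · exact ⟨_, rfl, rf3_5as⟩
      · exact ⟨_, rfl, rf3_6as⟩
      · exact ⟨_, rfl, rf3_7as⟩
    · exact absurd rfl hr
    · have h1 : 4 ≤ d := by
        exact h.zl rfl
      have h2 : d ≤ 7 := by
        simp only [crs, SK.u] at hB
        omega
      interval_cases d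
      · exact ⟨_, rfl, rf3_4az.symm⟩
      · exact ⟨_, rfl, rf3_5az.symm⟩
      · exact ⟨_, rfl, rf3_6az.symm⟩
      · exact ⟨_, rfl, rf3_7az.symm⟩
    · have h1 : 4 ≤ d := by
        exact h.zl rfl
      have h2 : d ≤ 7 := by
        simp only [crs, SK.u] at hB
        omega
      interval_cases d
      · exact ⟨_, rfl, rf3_4zz⟩
      · exact ⟨_, rfl, rf3_5zz⟩
      · exact ⟨_, rfl, rf3_6zz⟩
      · exact ⟨_, rfl, rf3_7zz⟩
    · have h1 : 4 ≤ d := by
        exact h.zl rfl
      have h2 : d ≤ 6 := by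
        simp only [crs, SK.u] at hB
        omega
      interval_cases d
      · exact ⟨_, rfl, rf3_5zs⟩
      · exact ⟨_, rfl, rf3_6zs⟩
      · exact ⟨_, rfl, rf3_7zs⟩
    · exact absurd rfl hr
    · have h1 : 1 ≤ d := by
        exact h.pos
      have h2 : d ≤ 6 := by
        simp only [crs, SK.u] at hB
        omega
      interval_cases d
      · exact ⟨_, rfl, rf3_2as.symm⟩
      · exact ⟨_, rfl, rf3_3as.symm⟩
      · exact ⟨_, rfl, rf3_4as.symm⟩
      · exact ⟨_, rfl, rf3_5as.symm⟩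
      · exact ⟨_, rfl, rf3_6as.symm⟩
      · exact ⟨_, rfl, rf3_7as.symm⟩
    · have h1 : 4 ≤ d := by
        exact h.zr rfl
      have h2 : d ≤ 6 := by
        simp only [crs, SK.u] at hB
        omega
      interval_cases d
      · exact ⟨_, rfl, rf3_5zs.symm⟩
      · exact ⟨_, rfl, rf3_6zs.symm⟩
      · exact ⟨_, rfl, rf3_7zs.symm⟩
    · have h1 : 1 ≤ d := by
        exact h.pos
      have h2 : d ≤ 5 := by
        simp only [crs, SK.u] at hB
        omega
      interval_cases d
      · exact ⟨_, rfl, rf3_3ss⟩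
      · exact ⟨_, rfl, rf3_4ss⟩
      · exact ⟨_, rfl, rf3_5ss⟩
      · exact ⟨_, rfl, rf3_6ss⟩
      · exact ⟨_, rfl, rf3_7ss⟩

theorem tab1 : tab q0 (fun _ _ => vt .t8) pt1 = true := by decide +kernel

theorem tab2 : tab q1 vr pt2 = true := by decide +kernel

theorem tab3 : tab q2 vr pt3 = true := by decide +kernel

theorem Kr1_le : Kr1.Le K0 := leb_spec (by decide +kernel)

theorem Kr2_le : Kr2.Le K0 := leb_spec (by decide +kernel)

theorem Kr3_le : Kr3.Le K0 := leb_spec (by decide +kernel)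

theorem ref1 : Refine K0 Kr1 := refine_of (fun _ _ _ => Subset.rfl) src_K0 tab1 low1

theorem ref2 : Refine Kr1 Kr2 := refine_of Kr1_le (src_Kq tab2) tab2 low2

theorem ref3 : Refine Kr2 Kr3 := refine_of Kr2_le (src_Kq tab3) tab3 low3

/-- the values of every solution of a word are in the refined sets -/
theorem snd3 {M : ℕ} {b : Fin (M + 1) → ℤ} {w : ℕ → ℂ} (hb : ClassW b) (hw : Sol b w)
    (hM : 1 ≤ M) : Snd Kr3 b w :=
  Snd.refine hb ringFacts hw hM ref3 (Snd.refine hb ringFacts hw hM ref2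
    (Snd.refine hb ringFacts hw hM ref1 (snd_K0 hb hw)))

end SR

end Pool.Agent.Work.MP_b30479_gt.G2
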