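import Pool.Agent.Work.MP_b30479_gt.G2.WAdj

/-!
# Windows of the rings with four crossings

`R4`: bounds of a hinge `y` and of the ring variable `z` (own frames); `r4 e C s`: the bounds for a
ring with four crossings (`e`: at an end) next to a region of class `C` (`s`: equal signs).
-/

namespace Pool.Agent.Work.MP_b30479_gt.G2

namespace SR

/-- bounds -/
structure R4 where
  x0 : ℝ
  x1 : ℝ
  s0 : ℝ
  s1 : ℝ
  q0 : ℝ
  q1 : ℝ
  r0 : ℝ
  r1 : ℝ
  t0 : ℝ
  t1 : ℝ
  c1 : ℝ
  cr : ℝ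

/-- the bounds hold: `x`, `t` for the hinge, `s`, `r` for the ring variable, `q = r - t`,
`c = x + s` -/
structure R4.In (B : R4) (y z : ℂ) : Prop where
  x0 : B.x0 ≤ y.re
  x1 : y.re ≤ B.x1
  s0 : B.s0 ≤ -z.re
  s1 : -z.re ≤ B.s1
  q0 : B.q0 ≤ z.im - y.im
  q1 : z.im - y.im ≤ B.q1
  r0 : B.r0 ≤ z.im
  r1 : z.im ≤ B.r1
  t0 : B.t0 ≤ y.im
  t1 : y.im ≤ B.t1
  c1 : y.re - z.re ≤ B.c1
  cr : y.re - z.re ≤ B.cr + z.im

/-- bounds in units of `1 / 10000` -/
noncomputable def mk4 (x0 x1 s0 s1 q0 q1 r0 r1 t0 t1 c1 cr : ℤ) : R4 :=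
  ⟨x0 / 10000, x1 / 10000, s0 / 10000, s1 / 10000, q0 / 10000, q1 / 10000, r0 / 10000,
    r1 / 10000, t0 / 10000, t1 / 10000, c1 / 10000, cr / 10000⟩

/-- bounds for a ring with four crossings -/
noncomputable def r4 : Bool → Cl → Bool → R4
  | true, .one, _ => mk4 2160 2810 1910 2200 800 1450 220 500 (-1150) (-360) 4800 4380
  | true, .two, _ => mk4 1910 2380 2040 2300 580 970 320 530 (-560) (-110) 4490 4020
  | true, .twoE, _ => mk4 1590 1750 2100 2260 1110 1270 180 320 (-1010) (-850) 3930 3700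
  | true, .three, _ => mk4 1850 2150 2130 2340 470 740 380 550 (-270) 20 4360 3850
  | true, .threeE, _ => mk4 1660 1820 2200 2360 570 730 310 450 (-340) (-180) 4100 3670
  | true, .ring, false => mk4 1770 2170 2180 2390 280 630 400 670 (-130) 340 4470 3820
  | true, .ring, true => mk4 1650 2170 2220 2520 110 440 440 670 160 490 4470 3820
  | false, .one, _ => mk4 2250 3030 1510 2040 960 1870 330 850 (-1300) (-350) 4870 4150
  | false, .two, _ => mk4 1985 2580 1610 2110 730 1360 420 910 (-680) (-70) 4500 3750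
  | false, .twoE, _ => mk4 1660 1910 1660 2140 1320 1720 320 730 (-1120) (-850) 3960 3290
  | false, .three, _ => mk4 1950 2340 1650 2140 600 1100 470 930 (-360) 60 4330 3560
  | false, .threeE, _ => mk4 1750 1980 1690 2170 740 1140 430 870 (-420) (-150) 4060 3320
  | false, .ring, false => mk4 1870 2370 1670 2170 370 980 490 1050 (-200) 430 4380 3560
  | false, .ring, true => mk4 1730 2370 1680 2260 140 730 530 1070 120 630 4380 3560

variable {M : ℕ}

/-- **Windows of the rings with four crossings.** -/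
structure LocR4 (b : Fin (M + 1) → ℤ) (zs : DD (tyW b) ⊕ ZZ (tyW b) → ℂ) : Prop where
  four : ∀ {h : Fin M} {i j : Fin (M + 1)} {p : Fin 3} (v : ZZ (tyW b)), v.1 = i → Adj h i p j →
    clsW b i = .ring → (b i).natAbs = 4 →
    (r4 (isEnd i) (clsW b j) (ssW b h)).In (ofr (b i) (zs (.inl (.inl h)))) (ofz (b i) (zs (.inr v)))

end SR

end Pool.Agent.Work.MP_b30479_gt.G2
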