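import Pool.Agent.Work.MP_b30479_gt.G2.WAdj

/-!
# Windows of the rings

The ring variable and one hinge of a ring in the own frame of the ring: `y`: the hinge, `z`: the ring
variable, `- z.re`: the distance, `z.im - y.im`: the height of the ring variable over the hinge.
-/

namespace Pool.Agent.Work.MP_b30479_gt.G2

namespace SR

/-- next to a digit `3` or a ring -/
structure RB3 (y z : ℂ) : Prop where
  s : -z.re ≤ 2445 / 10000
  q : z.im - y.im ≤ 1200 / 10000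
  qs : z.im - y.im ≤ 5900 / 10000 - 22 / 10 * (-z.re)
  c : y.re - z.re ≤ 4465 / 10000

/-- next to a digit `2` inside -/
structure RB2 (y z : ℂ) : Prop where
  s : -z.re ≤ 2225 / 10000
  q : z.im - y.im ≤ 1400 / 10000
  qs : z.im - y.im ≤ 3980 / 10000 - 13 / 10 * (-z.re)
  c : y.re - z.re ≤ 4495 / 10000

/-- next to a digit `2` at the end, at least five crossings -/
structure RB2e (y z : ℂ) : Prop where
  s : -z.re ≤ 1885 / 10000
  q : z.im - y.im ≤ 1680 / 10000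
  qs : z.im - y.im ≤ 3520 / 10000 - 105 / 100 * (-z.re)
  c : y.re - z.re ≤ 3740 / 10000
  kap : 3 / 100 ≤ -z.re ∨ 171 / 1000 ≤ y.re

/-- next to a digit `2` at the end, four crossings inside -/
structure RB2f (y z : ℂ) : Prop where
  x0 : 1720 / 10000 ≤ y.re
  x1 : y.re ≤ 1845 / 10000
  s : -z.re ≤ 2080 / 10000
  q : z.im - y.im ≤ 1710 / 10000
  qs : z.im - y.im ≤ 3910 / 10000 - 11 / 10 * (-z.re)

/-- the word `4 2` -/
structure RB42 (y z : ℂ) : Prop where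
  x0 : 1667 / 10000 ≤ y.re
  x1 : y.re ≤ 1670 / 10000
  t0 : -(930 / 10000) ≤ y.im
  t1 : y.im ≤ -(925 / 10000)
  s0 : 2183 / 10000 ≤ -z.re
  s1 : -z.re ≤ 2187 / 10000
  r1 : z.im ≤ 265 / 10000

/-- a window, in units `1 / 10000`: `x`: real part of the hinge, `s`: minus the real part of the ring
variable, `q`: height of the ring variable over the hinge, `c`: upper bound of `x + s` -/
structure RWin where
  x0 : ℝ
  x1 : ℝ
  s0 : ℝ
  s1 : ℝ
  q0 : ℝ
  q1 : ℝ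
  c1 : ℝ

/-- hinge and ring variable are in the window -/
structure RWin.In (W : RWin) (y z : ℂ) : Prop where
  x0 : W.x0 / 10000 ≤ y.re
  x1 : y.re ≤ W.x1 / 10000
  s0 : W.s0 / 10000 ≤ -z.re
  s1 : -z.re ≤ W.s1 / 10000
  q0 : W.q0 / 10000 ≤ z.im - y.im
  q1 : z.im - y.im ≤ W.q1 / 10000
  c : y.re - z.re ≤ W.c1 / 10000

/-- windows of a ring with `n` crossings (`n = 4, 5`; `e`: at an end) next to a digit `1` whose other
neighbour has class `P` -/
noncomputable def rw1 (n : ℕ) (e : Bool) (P : Cl) : List RWin :=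
  match n, e, P with
  | 4, true, .one =>
    [⟨2186, 2483, 2027, 2153, 848, 1153, 4540⟩,
    ⟨2147, 2488, 2029, 2153, 848, 1226, 4547⟩,
    ⟨2323, 2575, 2004, 2111, 993, 1179, 4609⟩]
  | 4, true, .two =>
    [⟨2500, 2726, 1965, 2065, 1059, 1269, 4721⟩,
    ⟨2595, 2751, 1967, 2034, 1125, 1232, 4738⟩]
  | 4, true, .twoE =>
    [⟨2382, 2442, 2015, 2075, 1343, 1403, 4487⟩]
  | 4, false, .one =>
    [⟨2269, 2692, 0, 1998, 997, 1557, 4592⟩,
    ⟨2226, 2698, 0, 2004, 997, 1634, 4595⟩,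
    ⟨2412, 2788, 0, 1967, 1154, 1573, 4668⟩,
    ⟨2225, 2673, 0, 1879, 927, 1646, 4486⟩,
    ⟨2400, 2767, 0, 1879, 1103, 1567, 4578⟩]
  | 4, false, .two =>
    [⟨2591, 2947, 0, 1931, 1224, 1660, 4798⟩,
    ⟨2678, 2983, 0, 1912, 1285, 1625, 4826⟩,
    ⟨2573, 2935, 0, 1879, 1172, 1661, 4742⟩,
    ⟨2655, 2970, 0, 1879, 1237, 1614, 4777⟩]
  | 4, false, .twoE =>
    [⟨2462, 2637, 0, 1962, 1530, 1818, 4561⟩,
    ⟨2463, 2648, 0, 1879, 1533, 1861, 4466⟩]
  | 5, true, .one =>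
    [⟨2214, 2514, 1691, 1798, 858, 1190, 4235⟩,
    ⟨2166, 2524, 0, 1842, 785, 1313, 4318⟩,
    ⟨2335, 2607, 0, 1842, 959, 1252, 4403⟩]
  | 5, true, .two =>
    [⟨2499, 2750, 0, 1842, 1034, 1352, 4548⟩,
    ⟨2578, 2783, 0, 1842, 1098, 1317, 4580⟩]
  | 5, true, .twoE =>
    [⟨2389, 2480, 0, 1842, 1375, 1521, 4284⟩]
  | 5, false, .one =>
    [⟨2264, 2635, 0, 1674, 962, 1469, 4216⟩,
    ⟨2299, 2635, 0, 1721, 1062, 1469, 4273⟩,
    ⟨2256, 2649, 0, 1710, 891, 1532, 4291⟩,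
    ⟨2213, 2654, 0, 1754, 891, 1623, 4359⟩,
    ⟨2393, 2746, 0, 1754, 1073, 1552, 4450⟩]
  | 5, false, .two =>
    [⟨2563, 2906, 0, 1754, 1151, 1657, 4609⟩,
    ⟨2645, 2942, 0, 1754, 1220, 1615, 4644⟩]
  | 5, false, .twoE =>
    [⟨2442, 2609, 0, 1754, 1503, 1842, 4325⟩]
  | _, _, _ => []

variable {M : ℕ}

/-- **Windows of the rings.** -/
structure LocRg (b : Fin (M + 1) → ℤ) (zs : DD (tyW b) ⊕ ZZ (tyW b) → ℂ) : Prop where
  three : ∀ {h : Fin M} {i j : Fin (M + 1)} {p : Fin 3} (v : ZZ (tyW b)), v.1 = i → Adj h i p j →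
    clsW b i = .ring → (clsW b j = .three ∨ clsW b j = .threeE ∨ clsW b j = .ring) →
    RB3 (ofr (b i) (zs (.inl (.inl h)))) (ofz (b i) (zs (.inr v)))
  two : ∀ {h : Fin M} {i j : Fin (M + 1)} {p : Fin 3} (v : ZZ (tyW b)), v.1 = i → Adj h i p j →
    clsW b i = .ring → clsW b j = .two →
    RB2 (ofr (b i) (zs (.inl (.inl h)))) (ofz (b i) (zs (.inr v)))
  twoE5 : ∀ {h : Fin M} {i j : Fin (M + 1)} {p : Fin 3} (v : ZZ (tyW b)), v.1 = i → Adj h i p j →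
    5 ≤ (b i).natAbs → clsW b j = .twoE →
    RB2e (ofr (b i) (zs (.inl (.inl h)))) (ofz (b i) (zs (.inr v)))
  twoE4 : ∀ {h : Fin M} {i j : Fin (M + 1)} {p : Fin 3} (v : ZZ (tyW b)), v.1 = i → Adj h i p j →
    (b i).natAbs = 4 → isEnd i = false → clsW b j = .twoE →
    RB2f (ofr (b i) (zs (.inl (.inl h)))) (ofz (b i) (zs (.inr v)))
  w42 : ∀ {h : Fin M} {i j : Fin (M + 1)} {p : Fin 3} (v : ZZ (tyW b)), v.1 = i → Adj h i p j →
    (b i).natAbs = 4 → isEnd i = true → clsW b j = .twoE →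
    RB42 (ofr (b i) (zs (.inl (.inl h)))) (ofz (b i) (zs (.inr v)))
  /-- digit `1` at `i`, ring at `j` with four or five crossings -/
  one : ∀ {h h' : Fin M} {i j j' : Fin (M + 1)} {p : Fin 3} (v : ZZ (tyW b)), v.1 = j →
    Adj h i p j → Adj h' i p.rev j' → clsW b i = .one →
    ((b j).natAbs = 4 ∨ (b j).natAbs = 5) →
    ∃ W ∈ rw1 (b j).natAbs (isEnd j) (clsW b j'),
      W.In (ofr (b j) (zs (.inl (.inl h)))) (ofz (b j) (zs (.inr v)))
  /-- digit `1` at `i`, ring at `j` with at least six crossings -/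
  one6 : ∀ {h : Fin M} {i j : Fin (M + 1)} {p : Fin 3} (v : ZZ (tyW b)), v.1 = j → Adj h i p j →
    clsW b i = .one → 6 ≤ (b j).natAbs → 26 / 100 ≤ (zs (.inl (.inl h))).re →
    1 / 10 ≤ (ofz (b j) (zs (.inr v))).im - (ofr (b j) (zs (.inl (.inl h)))).im
  /-- digit `1` at `i` between `j'` and an interior ring at `j` with four crossings -/
  kr : ∀ {h h' : Fin M} {i j j' : Fin (M + 1)} {p : Fin 3} (v : ZZ (tyW b)), v.1 = j →
    Adj h i p j → Adj h' i p.rev j' → clsW b i = .one → (b j).natAbs = 4 → isEnd j = false →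
    (zs (.inr v)).im ≤ 85 / 1000 ∧ (clsW b j' = .two →
      (zs (.inr v)).im ≤ 75 / 1000 ∧
      ofs (b i) (zs (.inl (.inl h'))).im + (zs (.inr v)).im ≤ 150 / 1000)

end SR

end Pool.Agent.Work.MP_b30479_gt.G2
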