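import Pool.Agent.Work.MP_b30479_gt.G2.WAdj

/-!
# Further windows of the rings

Interior rings with four crossings next to a digit `1`, by the class of the other neighbour of the
ring; the height of a hinge between a digit `3` and a ring, and of the hinge `2 | ring` of a digit
`2` next to a digit `1`.
-/

namespace Pool.Agent.Work.MP_b30479_gt.G2

namespace SR

/-- the height of the ring variable over the hinge next to a digit `1`, four crossings -/
structure QS (y z : ℂ) : Prop where
  q26 : 260 / 1000 ≤ y.re → 1120 / 10000 ≤ z.im - y.im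
  q27 : 270 / 1000 ≤ y.re → 1195 / 10000 ≤ z.im - y.im
  q28 : 280 / 1000 ≤ y.re → 1270 / 10000 ≤ z.im - y.im
  q285 : 285 / 1000 ≤ y.re → 1308 / 10000 ≤ z.im - y.im
  q29 : 290 / 1000 ≤ y.re → 1345 / 10000 ≤ z.im - y.im

/-- real part of the hinge, minus the real part of the ring variable and their sum are bounded -/
structure TB (X S C : ℝ) (y z : ℂ) : Prop where
  x : y.re ≤ X / 10000
  s : -z.re ≤ S / 10000
  c : y.re - z.re ≤ C / 10000

/-- bounds for an interior ring with four crossings next to a digit `1` whose other neighbour has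
class `.two`, by the class `C` of the other neighbour of the ring; `e`: equal signs -/
def Tri (C : Cl) (e : Bool) (y z : ℂ) : Prop :=
  match C, e with
  | .one, _ => TB 2980 1820 4655 y z
  | .two, _ => TB 2980 1845 4690 y z
  | .twoE, _ => TB 2900 1880 4680 y z
  | .three, _ => TB 2980 1880 4720 y z
  | .threeE, _ => TB 2980 1880 4720 y z
  | .ring, false => TB 2980 1870 4748 y z
  | .ring, true => True

variable {M : ℕ}

/-- **Further windows of the rings.** -/
structure LocRt (b : Fin (M + 1) → ℤ) (zs : DD (tyW b) ⊕ ZZ (tyW b) → ℂ) : Prop where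
  /-- digit `1` at `i`, interior ring with four crossings at `j` -/
  qs : ∀ {h : Fin M} {i j : Fin (M + 1)} {p : Fin 3} (v : ZZ (tyW b)), v.1 = j → Adj h i p j →
    clsW b i = .one → (b j).natAbs = 4 → isEnd j = false →
    QS (ofr (b j) (zs (.inl (.inl h)))) (ofz (b j) (zs (.inr v)))
  /-- `j'`: other neighbour of the digit `1`, `k`: other neighbour of the ring -/
  tri : ∀ {h h' g : Fin M} {i j j' k : Fin (M + 1)} {p : Fin 3} (v : ZZ (tyW b)), v.1 = j →
    Adj h i p j → Adj h' i p.rev j' → Adj g j p k → clsW b i = .one → clsW b j' = .two →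
    (b j).natAbs = 4 →
    Tri (clsW b k) (decide (0 < b j * b k)) (ofr (b j) (zs (.inl (.inl h))))
      (ofz (b j) (zs (.inr v)))
  /-- a ring between two digits `1` -/
  tri1 : ∀ {h g : Fin M} {i j k : Fin (M + 1)} {p : Fin 3} (v : ZZ (tyW b)), v.1 = j →
    Adj h i p j → Adj g j p k → clsW b i = .one → clsW b k = .one → (b j).natAbs = 4 →
    4535 / 10000 ≤ (zs (.inl (.inl h))).re - (ofz (b j) (zs (.inr v))).re →
    (zs (.inl (.inl g))).re ≤ 262 / 1000
  /-- digit `3` at `i`, ring at `j` -/
  three : ∀ {h : Fin M} {i j : Fin (M + 1)} {p : Fin 3}, Adj h i p j → clsW b i = .three →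
    clsW b j = .ring →
    0 ≤ ofs (b i) (zs (.inl (.inl h))).im ∨
      (-(1 / 1000) ≤ ofs (b i) (zs (.inl (.inl h))).im ∧ (b j).natAbs = 4 ∧
        (∃ (g : Fin M) (k : Fin (M + 1)), Adj g j p k ∧ clsW b k = .ring) ∧
        ∀ v : ZZ (tyW b), v.1 = j → 4 / 100 ≤ (zs (.inr v)).im)
  /-- digit `2` at `i`, ring at `j`, digit `1` at `k`, `m`: the other neighbour of the digit `1` -/
  two1 : ∀ {h h' g : Fin M} {i j k m : Fin (M + 1)} {p : Fin 3}, Adj h i p j →
    Adj h' i p.rev k → Adj g k p.rev m → clsW b i = .two → clsW b j = .ring → clsW b k = .one →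
    clsW b m ≠ .one → ofs (b i) (zs (.inl (.inl h))).im ≤ 75 / 1000
  /-- the same, `m` a ring -/
  twoZ : ∀ {h h' g : Fin M} {i j k m : Fin (M + 1)} {p : Fin 3}, Adj h i p j →
    Adj h' i p.rev k → Adj g k p.rev m → clsW b i = .two → clsW b j = .ring → clsW b k = .one →
    clsW b m = .ring → ofs (b i) (zs (.inl (.inl h))).im ≤ 60 / 1000

end SR

end Pool.Agent.Work.MP_b30479_gt.G2
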