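import Pool.Agent.Work.MP_b30479_gt.G2.WAdj

/-!
# Further location facts: heights of the two hinges of a digit `±1`, heights at rings
-/

namespace Pool.Agent.Work.MP_b30479_gt.G2

namespace SR

/-- a window: `t0 ≤ T ≤ t1`, `s0 ≤ T + k ≤ s1` -/
structure Win where
  t0 : ℝ
  t1 : ℝ
  s0 : ℝ
  s1 : ℝ

/-- window of a hinge `1 | B` (height `T` in the frame of the digit `1`); `P` is the class of the
other neighbour of the digit `1` and `k` the height of the hinge `P | 1` in the same frame -/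
noncomputable def cw (P B : Cl) : Win :=
  match P, B with
  | .one, .one => ⟨-(96 / 1000), 56 / 1000, -(85 / 1000), 60 / 1000⟩
  | .one, .two => ⟨-(18 / 1000), 79 / 1000, -(49 / 1000), 95 / 1000⟩
  | .one, .twoE => ⟨-(66 / 1000), -(16 / 1000), -(56 / 1000), 37 / 1000⟩
  | .one, .three => ⟨21 / 1000, 92 / 1000, -(22 / 1000), 111 / 1000⟩
  | .one, .threeE => ⟨10 / 1000, 58 / 1000, -(11 / 1000), 101 / 1000⟩
  | .one, .ring => ⟨38 / 1000, 136 / 1000, -(10 / 1000), 143 / 1000⟩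
  | .two, .one => ⟨-(93 / 1000), 54 / 1000, -(49 / 1000), 95 / 1000⟩
  | .two, .two => ⟨5 / 1000, 79 / 1000, 42 / 1000, 130 / 1000⟩
  | .two, .twoE => ⟨-(49 / 1000), -(20 / 1000), 21 / 1000, 64 / 1000⟩
  | .two, .three => ⟨46 / 1000, 94 / 1000, 78 / 1000, 148 / 1000⟩
  | .two, .threeE => ⟨30 / 1000, 59 / 1000, 83 / 1000, 134 / 1000⟩
  | .two, .ring => ⟨63 / 1000, 145 / 1000, 94 / 1000, 187 / 1000⟩
  | .twoE, .one => ⟨-(33 / 1000), 80 / 1000, -(56 / 1000), 37 / 1000⟩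
  | .twoE, .two => ⟨48 / 1000, 985 / 10000, 21 / 1000, 64 / 1000⟩
  | .twoE, .twoE => ⟨-(6 / 1000), 1 / 1000, -(6 / 1000), 6 / 1000⟩
  | .twoE, .three => ⟨87 / 1000, 1145 / 10000, 51 / 1000, 77 / 1000⟩
  | .twoE, .threeE => ⟨69 / 1000, 78 / 1000, 51 / 1000, 64 / 1000⟩
  | .twoE, .ring => ⟨100 / 1000, 158 / 1000, 64 / 1000, 106 / 1000⟩
  | .three, .one => ⟨-(91 / 1000), 49 / 1000, -(22 / 1000), 111 / 1000⟩
  | .three, .two => ⟨10 / 1000, 77 / 1000, 78 / 1000, 148 / 1000⟩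
  | .three, .twoE => ⟨-(45 / 1000), -(25 / 1000), 51 / 1000, 77 / 1000⟩
  | .threeE, .one => ⟨-(61 / 1000), 65 / 1000, -(11 / 1000), 101 / 1000⟩
  | .threeE, .two => ⟨32 / 1000, 91 / 1000, 83 / 1000, 134 / 1000⟩
  | .threeE, .twoE => ⟨-(24 / 1000), -(11 / 1000), 51 / 1000, 64 / 1000⟩
  | .ring, .one => ⟨-(117 / 1000), 51 / 1000, -(10 / 1000), 143 / 1000⟩
  | .ring, .two => ⟨-(8 / 1000), 80 / 1000, 94 / 1000, 187 / 1000⟩
  | .ring, .twoE => ⟨-(61 / 1000), -(24 / 1000), 64 / 1000, 106 / 1000⟩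
  | _, B => ⟨(hbox .one B false).t0, (hbox .one B false).t1, -1, 1⟩

/-- window of the inner variable of an interior region with three crossings between the classes `A`
(left) and `K` (right): `t0 ≤ t_m ≤ t1`, `s0 ≤ t_m - t_v ≤ s1`, `t_v` the height of the left hinge -/
noncomputable def mw (A K : Cl) : Win :=
  match A, K with
  | .one, .one => ⟨-(90 / 1000), -(18 / 1000), -(45 / 1000), 70 / 1000⟩
  | .one, .twoE => ⟨-(62 / 1000), -(5 / 1000), -(20 / 1000), 75 / 1000⟩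
  | .one, .ring => ⟨-(72 / 1000), 0, -(34 / 1000), 80 / 1000⟩
  | .one, _ => ⟨-(82 / 1000), 5 / 1000, -(40 / 1000), 84 / 1000⟩
  | .twoE, .one => ⟨-(123 / 1000), -(80 / 1000), -(48 / 1000), 15 / 1000⟩
  | .twoE, .twoE => ⟨-(95 / 1000), -(67 / 1000), -(18 / 1000), 29 / 1000⟩
  | .twoE, .ring => ⟨-(106 / 1000), -(67 / 1000), -(31 / 1000), 29 / 1000⟩
  | .twoE, _ => ⟨-(116 / 1000), -(64 / 1000), -(40 / 1000), 32 / 1000⟩
  | _, .one => ⟨-(114 / 1000), -(15 / 1000), -(105 / 1000), 14 / 1000⟩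
  | _, .twoE => ⟨-(82 / 1000), -(5 / 1000), -(75 / 1000), 19 / 1000⟩
  | _, .ring => ⟨-(92 / 1000), 0, -(93 / 1000), 24 / 1000⟩
  | _, _ => ⟨-(104 / 1000), 5 / 1000, -(100 / 1000), 28 / 1000⟩

variable {M : ℕ}

/-- **Further location facts.** -/
structure LocX (b : Fin (M + 1) → ℤ) (zs : DD (tyW b) ⊕ ZZ (tyW b) → ℂ) : Prop where
  /-- the two hinges of a digit `±1` -/
  win : ∀ {h h' : Fin M} {i j j' : Fin (M + 1)} {p : Fin 3}, Adj h i p j → Adj h' i p.rev j' →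
    clsW b i = .one →
    (cw (clsW b j') (clsW b j)).t0 ≤ ofs (b i) (zs (.inl (.inl h))).im ∧
    ofs (b i) (zs (.inl (.inl h))).im ≤ (cw (clsW b j') (clsW b j)).t1 ∧
    (cw (clsW b j') (clsW b j)).s0 ≤
      ofs (b i) (zs (.inl (.inl h))).im + ofs (b i) (zs (.inl (.inl h'))).im ∧
    ofs (b i) (zs (.inl (.inl h))).im + ofs (b i) (zs (.inl (.inl h'))).im ≤
      (cw (clsW b j') (clsW b j)).s1
  /-- `1 | 4`, `1 | 5` -/
  one4 : ∀ {h : Fin M} {i j : Fin (M + 1)} {p : Fin 3}, Adj h i p j → clsW b i = .one →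
    clsW b j = .ring → (b j).natAbs = 4 → ofs (b i) (zs (.inl (.inl h))).im ≤ 128 / 1000
  one5 : ∀ {h : Fin M} {i j : Fin (M + 1)} {p : Fin 3}, Adj h i p j → clsW b i = .one →
    clsW b j = .ring → (b j).natAbs = 5 → ofs (b i) (zs (.inl (.inl h))).im ≤ 138 / 1000
  /-- `2 | 4`, `3 | 4` -/
  lo4 : ∀ {h : Fin M} {i j : Fin (M + 1)} {p : Fin 3}, Adj h i p j → clsW b i ≠ .one →
    clsW b i ≠ .ring → clsW b j = .ring → (b j).natAbs = 4 →
    ofs (b i) (zs (.inl (.inl h))).im ≤ 115 / 1000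
  /-- `ring | 4`, seen from the `4` -/
  rr4 : ∀ {h : Fin M} {i j : Fin (M + 1)} {p : Fin 3}, Adj h i p j → clsW b i = .ring →
    clsW b j = .ring → (b i).natAbs = 4 → -(25 / 1000) ≤ ofs (b i) (zs (.inl (.inl h))).im
  /-- inner variables of interior regions with three crossings -/
  mid : ∀ {h h' : Fin M} {i j k : Fin (M + 1)} (hm : (tyW b i).isMid = true), Adj h i 0 j →
    Adj h' i 2 k → clsW b i = .three →
    (mw (clsW b j) (clsW b k)).t0 ≤ ofs (b i) (zs (.inl (.inr ⟨i, hm⟩))).im ∧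
    ofs (b i) (zs (.inl (.inr ⟨i, hm⟩))).im ≤ (mw (clsW b j) (clsW b k)).t1 ∧
    (mw (clsW b j) (clsW b k)).s0 ≤
      ofs (b i) (zs (.inl (.inr ⟨i, hm⟩))).im - ofs (b i) (zs (.inl (.inl h))).im ∧
    ofs (b i) (zs (.inl (.inr ⟨i, hm⟩))).im - ofs (b i) (zs (.inl (.inl h))).im ≤
      (mw (clsW b j) (clsW b k)).s1
  /-- `3 | ring` -/
  three : ∀ {h : Fin M} {i j : Fin (M + 1)} {p : Fin 3}, Adj h i p j → clsW b i = .three →
    clsW b j = .ring → -(1 / 1000) ≤ ofs (b i) (zs (.inl (.inl h))).im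

end SR

end Pool.Agent.Work.MP_b30479_gt.G2
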