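import Pool.Agent.Work.MP_b30479_gt.G2.SWordK
import Pool.Agent.Work.MP_b30479_gt.G2.WLocX

/-!
# Hinges of a word as hinges of the lists of rings, from the side of a region

`Adj.side_view`: one side of a region which is not absorbed; `Adj.pair_view`: both sides;
`Adj.absd_view`: the two hinges of an absorbed digit.
-/

namespace Pool.Agent.Work.MP_b30479_gt.G2

open Complex Set Filter Topology VOL
open scoped ComplexConjugate

namespace SR

/-- the class of the region behind a side of kind `x` -/
def nC (x : SK) (d : ℕ) (l : SK) : Cl := if x = .s then .one else cK d l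

section view

variable {M : ℕ} {b : Fin (M + 1) → ℤ} {w : ℕ → ℂ}

lemma isEnd_iff (i : Fin (M + 1)) : isEnd i = true ↔ i.val = 0 ∨ i.val = M := by
  unfold isEnd
  rw [decide_eq_true_iff, Fin.ext_iff, Fin.ext_iff]
  rfl

lemma cls_right {i j : Fin (M + 1)} (hj : j.val = i.val + 1) :
    clsW b j = nC (rk b i.val) (dg b (rn b i.val)) (rk b (rn b i.val)) := by
  have hjM := j.2
  by_cases h1 : us b (i.val + 1) = true
  · unfold nC
    rw [if_pos (rk_s (by omega) h1)]
    apply clsW_one
    rw [← bb_val (b := b), hj]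
    exact (us_true h1).2.1
  · rw [Bool.not_eq_true] at h1
    have hrn : rn b i.val = i.val + 1 := by
      unfold rn
      rw [if_neg (by rw [h1]; decide)]
    unfold nC
    rw [if_neg (by rw [rk_f (by omega) h1]; split_ifs <;> decide), hrn, ← hj]
    refine clsW_eq _ ?_
    constructor
    · intro h5
      right
      by_contra hc
      exact rk_ne_e (by omega) h5
    · rintro (h5 | h5)
      · omega
      · exact rk_e (by omega)

lemma cls_left {i j : Fin (M + 1)} (hj : i.val = j.val + 1) :
    clsW b j = nC (lk b i.val) (dg b (ln b i.val)) (lk b (ln b i.val)) := by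
  have hiM := i.2
  by_cases h1 : us b j.val = true
  · have h1' : us b (i.val - 1) = true := by rwa [show i.val - 1 = j.val by omega]
    unfold nC
    rw [if_pos (lk_s (by omega) h1')]
    apply clsW_one
    rw [← bb_val (b := b)]
    exact (us_true h1).2.1
  · rw [Bool.not_eq_true] at h1
    have h1' : us b (i.val - 1) = false := by rwa [show i.val - 1 = j.val by omega]
    have hln : ln b i.val = j.val := by
      unfold ln
      rw [if_neg (by rw [h1']; decide)]
      omega
    unfold nC
    rw [if_neg (by rw [lk_f (by omega) h1']; split_ifs <;> decide), hln]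
    refine clsW_eq _ ?_
    constructor
    · intro h5
      left
      by_contra hc
      exact lk_ne_e (by omega) h5
    · rintro (h5 | h5)
      · rw [h5]
        exact lk_e
      · omega

lemma Adj.elim {h : Fin M} {i j : Fin (M + 1)} {p : Fin 3} (A : Adj h i p j) :
    (p = 2 ∧ i.val = h.val ∧ j.val = h.val + 1) ∨ (p = 0 ∧ i.val = h.val + 1 ∧ j.val = h.val) := by
  cases A
  · left
    exact ⟨rfl, rfl, by simp⟩
  · right
    exact ⟨rfl, by simp, rfl⟩

lemma zsW_val (h : Fin M) {n : ℕ} (hn : h.val = n) :
    zsW b w (.inl (.inl h)) = acot2 (Rh b w n) := by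
  rw [← hn]
  rfl

section
variable (hb : ClassW b) (F : RingFacts) (hw : Sol b w) {K : KFam} (hK : Snd K b w)
variable {h h' : Fin M} {i j j' : Fin (M + 1)} {p : Fin 3}
include hb F hw hK

/-- one side of a region which is not absorbed -/
theorem Adj.side_view (A : Adj h i p j) (hu : us b i.val = false) :
    ∃ (x l : SK) (d' : ℕ) (l' : SK) (R k' : ℂ),
      HDt K x (b i).natAbs l d' l' R (Complex.cos (oW b w i.val)) k' ∧
      ofr (b i) (zsW b w (.inl (.inl h))) = yH x R (Complex.cos (oW b w i.val)) ∧
      (l = .e ↔ isEnd i = true) ∧ clsW b j = nC x d' l' ∧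
      ((x = .s ∧ us b j.val = true) ∨ (us b j.val = false ∧ d' = (b j).natAbs ∧
        x = if 0 < b i * b j then .z else .a)) := by
  cases A
  · -- the hinge is on the right
    have hh := h.2
    have hc : h.castSucc.val = h.val := rfl
    have hs : h.succ.val = h.val + 1 := by simp
    have hH := hdt_right hb F hw hK (n := h.castSucc.val) (by omega) hu
    have ey := own_y_right F hw (n := h.castSucc.val) (by omega) hu
    rw [dg_val] at hH
    refine ⟨_, _, _, _, _, _, hH, ?_, ?_, cls_right (by rw [hs, hc]), ?_⟩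
    · rw [ofr_fz]
      exact ey
    · rw [isEnd_iff]
      constructor
      · intro h5
        left
        by_contra hc
        exact lk_ne_e (by omega) h5
      · rintro (h5 | h5)
        · rw [h5]
          exact lk_e
        · omega
    · by_cases h1 : us b h.succ.val = true
      · left
        exact ⟨rk_s (by omega) (by rwa [hs] at h1), h1⟩
      · right
        rw [Bool.not_eq_true] at h1
        have h1' : us b (h.castSucc.val + 1) = false := by rwa [hc, ← hs]
        have hrn : rn b h.castSucc.val = h.succ.val := by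
          unfold rn
          rw [if_neg (by rw [h1']; decide), hs, hc]
        refine ⟨h1, ?_, ?_⟩
        · rw [hrn, dg_val]
        · rw [rk_f (by omega) h1', ← bb_val (b := b) h.castSucc, ← bb_val (b := b) h.succ, hs, hc]
  · have hh := h.2
    have hc : h.castSucc.val = h.val := rfl
    have hs : h.succ.val = h.val + 1 := by simp
    have hH := hdt_left hb F hw hK (n := h.succ.val) (by omega) (by omega) hu
    have ey := own_y_left hb F hw (n := h.succ.val) (by omega) (by omega) hu
    rw [dg_val] at hH
    refine ⟨_, _, _, _, _, _, hH, ?_, ?_, cls_left (by rw [hs, hc]), ?_⟩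
    · rw [show h.succ.val - 1 = h.val by omega] at ey
      rw [ofr_fz]
      exact ey
    · rw [isEnd_iff]
      constructor
      · intro h5
        right
        by_contra hc
        exact rk_ne_e (by omega) h5
      · rintro (h5 | h5)
        · omega
        · exact rk_e (by omega)
    · by_cases h1 : us b h.castSucc.val = true
      · left
        exact ⟨lk_s (by omega) (by rwa [show h.succ.val - 1 = h.castSucc.val by omega]), h1⟩
      · right
        rw [Bool.not_eq_true] at h1
        have h1' : us b (h.succ.val - 1) = false := by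
          rwa [show h.succ.val - 1 = h.castSucc.val by omega]
        have hln : ln b h.succ.val = h.castSucc.val := by
          unfold ln
          rw [if_neg (by rw [h1']; decide)]
          omega
        refine ⟨h1, ?_, ?_⟩
        · rw [hln, dg_val]
        · rw [lk_f (by omega) h1', ← bb_val (b := b) h.castSucc, ← bb_val (b := b) h.succ,
            show h.succ.val - 1 = h.castSucc.val by omega]

/-- both sides of an inner region which is not absorbed -/
theorem Adj.pair_view (A : Adj h i p j) (A' : Adj h' i p.rev j') (hu : us b i.val = false) :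
    ∃ (x x' : SK) (dl : ℕ) (ll : SK) (dr : ℕ) (rr : SK) (kl kr : ℂ),
      RDt K (b i).natAbs x x' dl ll dr rr (oW b w i.val) kl kr ∧
      ofr (b i) (zsW b w (.inl (.inl h))) =
        yH x (RR (oW b w i.val) kl) (Complex.cos (oW b w i.val)) ∧
      ofr (b i) (zsW b w (.inl (.inl h'))) =
        yH x' (RR (oW b w i.val) kr) (Complex.cos (oW b w i.val)) ∧
      clsW b j = nC x dl ll ∧ clsW b j' = nC x' dr rr := by
  rcases A.elim with ⟨rfl, e1, e2⟩ | ⟨rfl, e1, e2⟩
  · have e3 : i.val = h'.val + 1 ∧ j'.val = h'.val := by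
      rcases A'.elim with ⟨h0, -⟩ | ⟨-, h1⟩
      · exact absurd h0 (by decide)
      · exact h1
    have hh := h.2
    have hE := (rdt hb F hw hK (n := i.val) (by omega) (by omega) hu).symm
    rw [dg_val] at hE
    refine ⟨rk b i.val, lk b i.val, _, _, _, _, oR b w i.val, oL b w i.val, hE, ?_, ?_,
      cls_right (by omega), cls_left (by omega)⟩
    · have ey := own_y_right F hw (n := i.val) (by omega) hu
      rw [ofr_fz, zsW_val h e1.symm]
      exact ey
    · have ey := own_y_left hb F hw (n := i.val) (by omega) (by omega) hu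
      rw [ofr_fz, zsW_val h' (n := i.val - 1) (by omega)]
      exact ey
  · have e3 : i.val = h'.val ∧ j'.val = h'.val + 1 := by
      rcases A'.elim with ⟨-, h1⟩ | ⟨h0, -⟩
      · exact h1
      · exact absurd h0 (by decide)
    have hh := h'.2
    have hE := rdt hb F hw hK (n := i.val) (by omega) (by omega) hu
    rw [dg_val] at hE
    refine ⟨lk b i.val, rk b i.val, _, _, _, _, oL b w i.val, oR b w i.val, hE, ?_, ?_,
      cls_left (by omega), cls_right (by omega)⟩
    · have ey := own_y_left hb F hw (n := i.val) (by omega) (by omega) hu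
      rw [ofr_fz, zsW_val h (n := i.val - 1) (by omega)]
      exact ey
    · have ey := own_y_right F hw (n := i.val) (by omega) hu
      rw [ofr_fz, zsW_val h' e3.1.symm]
      exact ey

/-- both sides of an inner region with three crossings, with its inner variable -/
theorem Adj.mid_view (A : Adj h i 0 j) (A' : Adj h' i 2 j') (hu : us b i.val = false)
    (hm : (tyW b i).isMid = true) :
    ∃ (x x' : SK) (dl : ℕ) (ll : SK) (dr : ℕ) (rr : SK) (kl kr : ℂ),
      RDt K (b i).natAbs x x' dl ll dr rr (oW b w i.val) kl kr ∧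
      ofr (b i) (zsW b w (.inl (.inl h))) =
        yH x (RR (oW b w i.val) kl) (Complex.cos (oW b w i.val)) ∧
      ofr (b i) (zsW b w (.inl (.inr ⟨i, hm⟩))) =
        mH x (RR (oW b w i.val) kl) (Complex.cos (oW b w i.val)) ∧
      clsW b j = nC x dl ll ∧ clsW b j' = nC x' dr rr := by
  have e : i.val = h.val + 1 ∧ j.val = h.val := by
    rcases A.elim with ⟨h0, -⟩ | ⟨-, h1⟩
    · exact absurd h0 (by decide)
    · exact h1
  have e3 : i.val = h'.val ∧ j'.val = h'.val + 1 := by
    rcases A'.elim with ⟨-, h1⟩ | ⟨h0, -⟩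
    · exact h1
    · exact absurd h0 (by decide)
  have hh := h'.2
  have hE := rdt hb F hw hK (n := i.val) (by omega) (by omega) hu
  rw [dg_val] at hE
  refine ⟨lk b i.val, rk b i.val, _, _, _, _, oL b w i.val, oR b w i.val, hE, ?_, ?_,
    cls_left (by omega), cls_right (by omega)⟩
  · have ey := own_y_left hb F hw (n := i.val) (by omega) (by omega) hu
    rw [ofr_fz, zsW_val h (n := i.val - 1) (by omega)]
    exact ey
  · have ez : zsW b w (.inl (.inr ⟨i, hm⟩)) = acot2 (Rm b w i.val) := rfl
    rw [ez, ofr_fz, ← acot2_fz, own_mid hb F hw (n := i.val) (by omega) (by omega) hu]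
    rfl

/-- the hinges of an absorbed digit -/
theorem absd_nat {m : ℕ} (hu : us b (m + 1) = true) :
    HDt K .s (dg b m) (lk b m) (dg b (m + 2)) (rk b (m + 2)) (RR (oW b w m) (oR b w m))
      (Complex.cos (oW b w m)) (oR b w m) ∧
    fz (sg b (m + 1)) (acot2 (Rh b w m)) =
      conj (acot2 (Sp (RR (oW b w m) (oR b w m)) (Complex.cos (oW b w m)))) ∧
    fz (sg b (m + 1)) (acot2 (Rh b w (m + 1))) =
      conj (acot2 (Sp (RR (oW b w m) (oR b w m)) (oR b w m))) := by
  obtain ⟨h1, h2, h3, h4⟩ := us_true hu
  have h5 := us_lt hb hu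
  rw [show m + 1 - 1 = m by omega] at h3
  have hrk : rk b m = .s := rk_s (by omega) hu
  have hrn : rn b m = m + 2 := by
    unfold rn
    rw [if_pos hu]
  have hH := hdt_right hb F hw hK (n := m) (by omega) h3
  rw [hrk, hrn] at hH
  have hsg : sg b m * sg b (m + 2) = 1 := by
    have := sg_rk hb (n := m) (by omega) h3
    rw [hrk, hrn] at this
    exact this
  have hss : sg b (m + 2) = sg b m := by
    rcases sg_or (b := b) m with h | h <;> rcases sg_or (b := b) (m + 2) with h' | h' <;>
      rw [h, h'] at hsg ⊢ <;> norm_num at hsg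
  have e0 := own_y_right F hw (n := m) (by omega) h3
  have e2 := own_y_left hb F hw (n := m + 2) (by omega) (by omega) (by simpa using h4)
  rw [show m + 2 - 1 = m + 1 by omega, hss] at e2
  have hlk : lk b (m + 2) = .s := lk_s (by omega) (by rwa [show m + 2 - 1 = m + 1 by omega])
  have hln : ln b (m + 2) = m := by
    unfold ln
    rw [show m + 2 - 1 = m + 1 by omega, if_pos hu]
    omega
  have hopp : bb b m * bb b (m + 1) < 0 := bb_opp hb (by omega) (Or.inr (by omega))
  have hsm : sg b (m + 1) = -sg b m := by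
    unfold sg
    rcases lt_or_gt_of_ne (bb_ne hb (by omega : m ≤ M)) with h7 | h7
    · have h8 : 0 < bb b (m + 1) := by
        by_contra hc
        have := mul_nonneg_of_nonpos_of_nonpos h7.le (not_lt.1 hc)
        omega
      rw [if_pos h8, if_neg (not_lt.2 h7.le), neg_neg]
    · have h8 : ¬ 0 < bb b (m + 1) := by
        intro hc
        have := mul_pos h7 hc
        omega
      rw [if_neg h8, if_pos h7]
  have hfz : ∀ z, fz (sg b (m + 1)) z = conj (fz (sg b m) z) := by
    intro z
    rw [hsm]
    rcases sg_or (b := b) m with h | h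
    · rw [h, fz_neg, fz_one]
    · rw [h, neg_neg, fz_neg, fz_one, Complex.conj_conj]
  have eo : oR b w m = fz (sg b m) (Complex.cos (w (m + 2))) := by
    unfold oR
    rw [hrn]
  refine ⟨?_, ?_, ?_⟩
  · rw [eo]
    exact hH
  · rw [hfz, e0, hrk]
    unfold yH
    rw [Hq_s]
  · rw [hfz, e2, hlk]
    have eR : RR (oW b w (m + 2)) (oL b w (m + 2)) = RR (oW b w m) (oR b w m) := by
      unfold oW oL oR
      rw [← fz_R0_left hb F hw (by omega) (by omega) (by simpa using h4), hln, hss,
        fz_R0_right hw (by omega) h3]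
    have eC : Complex.cos (oW b w (m + 2)) = oR b w m := by
      unfold oW
      rw [hss, ← fz_cos, eo]
    rw [eR, eC]
    unfold yH
    rw [Hq_s]

/-- the two hinges of an absorbed digit -/
theorem Adj.absd_view (A : Adj h i p j) (A' : Adj h' i p.rev j') (hu : us b i.val = true) :
    ∃ (l l' : SK) (R k k' : ℂ), HDt K .s (b j).natAbs l (b j').natAbs l' R k k' ∧
      ofr (b i) (zsW b w (.inl (.inl h))) = conj (acot2 (Sp R k)) ∧
      ofr (b i) (zsW b w (.inl (.inl h'))) = conj (acot2 (Sp R k')) ∧
      clsW b j = cK (b j).natAbs l ∧ clsW b j' = cK (b j').natAbs l' := by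
  obtain ⟨m, hm⟩ : ∃ m, i.val = m + 1 := ⟨i.val - 1, by have := (us_true hu).1; omega⟩
  rw [hm] at hu
  obtain ⟨hH, e1, e2⟩ := absd_nat hb F hw hK hu
  have h5 := us_lt hb hu
  have key : ∀ {h h' : Fin M} {j j' : Fin (M + 1)}, Adj h i 0 j → Adj h' i 2 j' →
      (b j).natAbs = dg b m ∧ (b j').natAbs = dg b (m + 2) ∧
      clsW b j = cK (b j).natAbs (lk b m) ∧ clsW b j' = cK (b j').natAbs (rk b (m + 2)) ∧
      ofr (b i) (zsW b w (.inl (.inl h))) =
        conj (acot2 (Sp (RR (oW b w m) (oR b w m)) (Complex.cos (oW b w m)))) ∧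
      ofr (b i) (zsW b w (.inl (.inl h'))) =
        conj (acot2 (Sp (RR (oW b w m) (oR b w m)) (oR b w m))) := by
    intro h h' j j' A A'
    have hj : i.val = h.val + 1 ∧ j.val = h.val := by
      rcases A.elim with ⟨h0, -⟩ | ⟨-, h1⟩
      · exact absurd h0 (by decide)
      · exact h1
    have hj' : i.val = h'.val ∧ j'.val = h'.val + 1 := by
      rcases A'.elim with ⟨-, h1⟩ | ⟨h0, -⟩
      · exact h1
      · exact absurd h0 (by decide)
    have d1 : (b j).natAbs = dg b m := by
      rw [← dg_val]
      congr 1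
      omega
    have d2 : (b j').natAbs = dg b (m + 2) := by
      rw [← dg_val]
      congr 1
      omega
    have hjM := j'.2
    refine ⟨d1, d2, ?_, ?_, ?_, ?_⟩
    · rw [← dg_val]
      have e : j.val = m := by omega
      rw [← e]
      refine clsW_eq _ ?_
      constructor
      · intro h5
        left
        by_contra hc
        exact lk_ne_e (by omega) h5
      · rintro (h5 | h5)
        · rw [h5]
          exact lk_e
        · omega
    · rw [← dg_val]
      have e : j'.val = m + 2 := by omega
      rw [← e]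
      refine clsW_eq _ ?_
      constructor
      · intro h5
        right
        by_contra hc
        exact rk_ne_e (by omega) h5
      · rintro (h5 | h5)
        · omega
        · exact rk_e (by omega)
    · rw [ofr_fz, zsW_val h (n := m) (by omega), hm]
      exact e1
    · rw [ofr_fz, zsW_val h' (n := m + 1) (by omega), hm]
      exact e2
  rcases A.slot with rfl | rfl
  · obtain ⟨d1, d2, c1, c2, y1, y2⟩ := key A A'
    rw [← d1, ← d2] at hH
    exact ⟨_, _, _, _, _, hH, y1, y2, c1, c2⟩
  · obtain ⟨d1, d2, c1, c2, y1, y2⟩ := key A' A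
    rw [← d1, ← d2] at hH
    have hR := hH.rev
    have f : ∀ z, fz SK.s.sgn z = z := fun z => fz_one z
    rw [f, f, f] at hR
    exact ⟨_, _, _, _, _, hR, y2, y1, c2, c1⟩

end

/-! ### the further location facts -/

/-- the heights of the two hinges of a digit `1` are in the window -/
def Win.In (c : Win) (t k : ℝ) : Prop := c.t0 ≤ t ∧ t ≤ c.t1 ∧ c.s0 ≤ t + k ∧ t + k ≤ c.s1

/-- the height of the inner variable of a region with three crossings, `t`: left hinge -/
def Win.InM (c : Win) (m t : ℝ) : Prop := c.t0 ≤ m ∧ m ≤ c.t1 ∧ c.s0 ≤ m - t ∧ m - t ≤ c.s1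

/-- Statements about single hinges and rings which give the further location facts. -/
structure XRows (K : KFam) : Prop where
  /-- a digit `1` which is not absorbed; the other side: by symmetry -/
  one : ∀ {l r dl ll dr rr w kl kr}, RDt K 1 l r dl ll dr rr w kl kr →
    (cw (nC r dr rr) (nC l dl ll)).In (yH l (RR w kl) (Complex.cos w)).im
      (yH r (RR w kr) (Complex.cos w)).im
  /-- an absorbed digit; the other side: by symmetry -/
  absd : ∀ {d l d' l' R k k'}, HDt K .s d l d' l' R k k' →
    (cw (cK d' l') (cK d l)).In (-(acot2 (Sp R k)).im) (-(acot2 (Sp R k')).im)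
  one4a : ∀ {l l' R k k'}, HDt K .a 4 l 1 l' R k k' → -(acot2 R).im ≤ 128 / 1000
  one4s : ∀ {l d' l' R k k'}, HDt K .s 4 l d' l' R k k' → -(acot2 (Sp R k)).im ≤ 128 / 1000
  one5a : ∀ {l l' R k k'}, HDt K .a 5 l 1 l' R k k' → -(acot2 R).im ≤ 138 / 1000
  one5s : ∀ {l d' l' R k k'}, HDt K .s 5 l d' l' R k k' → -(acot2 (Sp R k)).im ≤ 138 / 1000
  lo4 : ∀ {l d' l' R k k'}, HDt K .a 4 l d' l' R k k' → d' = 2 ∨ d' = 3 →
    -(acot2 R).im ≤ 115 / 1000
  three : ∀ {l d' l' R k k'}, HDt K .a 3 l d' l' R k k' → l ≠ .e → 4 ≤ d' →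
    -(1 / 1000) ≤ (acot2 R).im
  rr4 : ∀ {x l d' l' R k k'}, HDt K x 4 l d' l' R k k' → x ≠ .s → 4 ≤ d' →
    -(25 / 1000) ≤ (acot2 R).im
  mid : ∀ {l r dl ll dr rr w kl kr}, RDt K 3 l r dl ll dr rr w kl kr →
    (mw (nC l dl ll) (nC r dr rr)).InM (mH l (RR w kl) (Complex.cos w)).im
      (yH l (RR w kl) (Complex.cos w)).im

section
variable (hb : ClassW b) (F : RingFacts) (hw : Sol b w) {K : KFam} (hK : Snd K b w)
include hb F hw hK

/-- the height of the hinge seen from the region on the other side -/
lemma ofs_view {h : Fin M} {i j : Fin (M + 1)} {p : Fin 3} (A : Adj h i p j)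
    (hc : clsW b i ≠ .ring) (hu : us b j.val = false) :
    ∃ (x l : SK) (d' : ℕ) (l' : SK) (R k k' : ℂ), HDt K x (b j).natAbs l d' l' R k k' ∧
      ofs (b i) (zsW b w (.inl (.inl h))).im = -(yH x R k).im ∧
      ((x = .s ∧ us b i.val = true) ∨ (us b i.val = false ∧ d' = (b i).natAbs ∧ x = .a)) := by
  obtain ⟨x, l, d', l', R, k', hH, hy, -, -, hx⟩ := A.symm.side_view hb F hw hK hu
  have hop := A.opp hb (Or.inl hc)
  refine ⟨x, l, d', l', R, _, k', hH, ?_, ?_⟩
  · rw [← hy, ofr_im, ofs_opp hop, neg_neg]
  · rcases hx with hx | ⟨h1, h2, h3⟩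
    · exact Or.inl hx
    · right
      refine ⟨h1, h2, ?_⟩
      rw [h3, if_neg]
      rw [mul_comm]
      omega

/-- **The further location facts of a word.** -/
theorem locX_of_rows (X : XRows K) : LocX b (zsW b w) where
  win := by
    intro h h' i j j' p A A' hc
    by_cases hu : us b i.val = true
    · obtain ⟨l, l', R, k, k', hH, y1, y2, c1, c2⟩ := A.absd_view hb F hw hK A' hu
      have := X.absd hH
      rw [← ofr_im, ← ofr_im, y1, y2, c1, c2, Complex.conj_im, Complex.conj_im]
      exact this
    · rw [Bool.not_eq_true] at hu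
      obtain ⟨x, x', dl, ll, dr, rr, kl, kr, hE, y1, y2, c1, c2⟩ := A.pair_view hb F hw hK A' hu
      have h1 : (b i).natAbs = 1 := by
        unfold clsW cls at hc
        split_ifs at hc with h1
        exact h1
      rw [h1] at hE
      have := X.one hE
      rw [← ofr_im, ← ofr_im, y1, y2, c1, c2]
      exact this
  one4 := by
    intro h i j p A hc hr h4
    obtain ⟨x, l, d', l', R, k, k', hH, hy, hx⟩ := ofs_view hb F hw hK A (by rw [hc]; decide)
      (us_of_abs (by omega))
    rw [h4] at hH
    rw [hy]
    rcases hx with ⟨rfl, -⟩ | ⟨-, rfl, rfl⟩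
    · unfold yH
      rw [Hq_s]
      exact X.one4s hH
    · unfold yH
      rw [Hq_of_ne (by decide)]
      have h1 : (b i).natAbs = 1 := by
        unfold clsW cls at hc
        split_ifs at hc with h1
        exact h1
      rw [h1] at hH
      exact X.one4a hH
  one5 := by
    intro h i j p A hc hr h4
    obtain ⟨x, l, d', l', R, k, k', hH, hy, hx⟩ := ofs_view hb F hw hK A (by rw [hc]; decide)
      (us_of_abs (by omega))
    rw [h4] at hH
    rw [hy]
    rcases hx with ⟨rfl, -⟩ | ⟨-, rfl, rfl⟩
    · unfold yH
      rw [Hq_s]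
      exact X.one5s hH
    · unfold yH
      rw [Hq_of_ne (by decide)]
      have h1 : (b i).natAbs = 1 := by
        unfold clsW cls at hc
        split_ifs at hc with h1
        exact h1
      rw [h1] at hH
      exact X.one5a hH
  lo4 := by
    intro h i j p A hc hc' hr h4
    obtain ⟨x, l, d', l', R, k, k', hH, hy, hx⟩ := ofs_view hb F hw hK A hc'
      (us_of_abs (by omega))
    rw [h4] at hH
    rw [hy]
    have hi : (b i).natAbs = 2 ∨ (b i).natAbs = 3 := by
      unfold clsW cls at hc hc'
      split_ifs at hc hc' with h1 h2 h3 h4 h5 <;> first | exact absurd rfl hc | exact absurd rfl hc' | omega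
    rcases hx with ⟨rfl, hu⟩ | ⟨-, rfl, rfl⟩
    · exfalso
      have := (us_true hu).2.1
      rw [bb_val] at this
      omega
    · unfold yH
      rw [Hq_of_ne (by decide)]
      exact X.lo4 hH hi
  three := by
    intro h i j p A hc hr
    have h3 := clsW_nat3 (Or.inl hc)
    have hi : isEnd i = false := clsW_inner hb (Or.inr (Or.inr hc))
    have hop := A.opp hb (Or.inl (by rw [hc]; decide))
    obtain ⟨x, l, d', l', R, k', hH, hy, he, -, hx⟩ :=
      A.side_view hb F hw hK (us_of_abs (by omega))
    have hj : 4 ≤ (b j).natAbs := by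
      have h0 := hb.ne j
      unfold clsW cls at hr
      split_ifs at hr with h1 h2 h3 h4 h5
      omega
    rw [← ofr_im, hy]
    rcases hx with ⟨rfl, hu⟩ | ⟨-, rfl, rfl⟩
    · exfalso
      have := (us_true hu).2.1
      rw [bb_val] at this
      omega
    · rw [if_neg (by omega)] at hH ⊢
      unfold yH
      rw [Hq_of_ne (by decide)]
      rw [h3] at hH
      exact X.three hH (fun h0 => by rw [he.1 h0] at hi; exact absurd hi (by decide)) hj
  rr4 := by
    intro h i j p A hc hr h4
    obtain ⟨x, l, d', l', R, k', hH, hy, he, -, hx⟩ :=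
      A.side_view hb F hw hK (us_of_abs (by omega))
    have hj : 4 ≤ (b j).natAbs := by
      have h0 := hb.ne j
      unfold clsW cls at hr
      split_ifs at hr with h1 h2 h3 h4 h5
      omega
    rw [h4] at hH
    rw [← ofr_im, hy]
    rcases hx with ⟨rfl, hu⟩ | ⟨-, rfl, hx⟩
    · exfalso
      have := (us_true hu).2.1
      rw [bb_val] at this
      omega
    · have hs : x ≠ .s := by
        rw [hx]
        split_ifs <;> decide
      unfold yH
      rw [Hq_of_ne hs]
      exact X.rr4 hH hs hj
  mid := by
    intro h h' i j k hm A A' hc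
    have h3 := clsW_nat3 (Or.inl hc)
    obtain ⟨x, x', dl, ll, dr, rr, kl, kr, hE, y1, y2, c1, c2⟩ :=
      A.mid_view hb F hw hK A' (us_of_abs (by omega)) hm
    rw [h3] at hE
    have := X.mid hE
    rw [← ofr_im, ← ofr_im, y1, y2, c1, c2]
    exact this

end

end view

end SR

end Pool.Agent.Work.MP_b30479_gt.G2
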