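import Pool.Agent.Work.MP_b30479_gt.G2.SWordJ
import Pool.Agent.Work.MP_b30479_gt.G2.Num.Link

/-!
# The local conditions at the saddle point from the location table
-/

namespace Pool.Agent.Work.MP_b30479_gt.G2

open Complex Set Filter Topology VOL
open scoped ComplexConjugate

namespace SR

/-! ### bounds of elementary functions -/

section num

open NumI NumI.E

lemma sin_pi_pos' {x : ℝ} (h0 : 0 < x) (h1 : x < 1) : 0 < Real.sin (Real.pi * x) :=
  Real.sin_pos_of_pos_of_lt_pi (mul_pos Real.pi_pos h0)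
    (by have := mul_lt_mul_of_pos_left h1 Real.pi_pos; linarith only [this])

/-- the expression of `|QQ| < 1` -/
def eQ : E := sub (add (sq (sinPi (var 0))) (sq (sinh (mul pi (var 1)))))
  (mul (sinh (mul pi (var 1))) (cosh (mul pi (var 1))))

lemma QQ_lt_of {x t : ℝ} (h0 : 0 < x) (h1 : x < 1) (h : 0 < eQ.val [x, |t|]) :
    |NumI.QQ x t| < 1 := by
  have hM := NumI.MM_pos (t := t) (sin_pi_pos' h0 h1)
  simp only [eQ, E.val, lkR_zero, lkR_one] at h
  have hc : Real.cosh (Real.pi * |t|) = Real.cosh (Real.pi * t) := by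
    rw [← Real.cosh_abs (Real.pi * t), abs_mul, abs_of_pos Real.pi_pos]
  have e : |NumI.QQ x t| = Real.sinh (Real.pi * |t|) * Real.cosh (Real.pi * |t|) / NumI.MM x t := by
    unfold NumI.QQ
    rw [abs_div, abs_of_pos hM, abs_mul, abs_of_pos (Real.cosh_pos _), hc, Real.abs_sinh, abs_mul,
      abs_of_pos Real.pi_pos]
  rw [e, div_lt_one hM]
  have e2 : Real.sinh (Real.pi * |t|) ^ 2 = Real.sinh (Real.pi * t) ^ 2 := by
    rcases abs_choice t with h | h <;> rw [h]
    rw [mul_neg, Real.sinh_neg, neg_sq]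
  unfold NumI.MM
  rw [e2] at h
  linarith only [h]

lemma QQ_lt_one {x t : ℝ} (h0 : 212 / 1000 ≤ x) (h1 : x ≤ 1 / 2) (ht : |t| ≤ 158 / 1000) :
    |NumI.QQ x t| < 1 := by
  have h : chk [eQ] 30 [V.of 1000 212 500, V.of 1000 0 158] = true := by decide +kernel
  refine QQ_lt_of (by linarith only [h0]) (by linarith only [h1]) (pos_of_chk (chk2 h (by norm_num) (by norm_num; linarith only [h0])
    (by norm_num; linarith only [h1]) (by norm_num) (by norm_num; linarith only [ht])))

lemma QQ_lt_two {x t : ℝ} (h0 : 181 / 1000 ≤ x) (h1 : x ≤ 1 / 2) (ht : |t| ≤ 985 / 10000) :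
    |NumI.QQ x t| < 1 := by
  have h : chk [eQ] 30 [V.of 10000 1810 5000, V.of 10000 0 985] = true := by decide +kernel
  refine QQ_lt_of (by linarith only [h0]) (by linarith only [h1]) (pos_of_chk (chk2 h (by norm_num) (by norm_num; linarith only [h0])
    (by norm_num; linarith only [h1]) (by norm_num) (by norm_num; linarith only [ht])))

/-- `c1 sin π x - c2 cos π x` -/
def eC (c1 c2 : ℤ) : E := sub (mul (q c1 1000) (sinPi (var 0))) (mul (q c2 1000) (cosPi (var 0)))

lemma cot_le_of {c1 c2 : ℤ} {x t : ℝ} (h0 : 0 < x) (h1 : x ≤ 1 / 2)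
    (h : 0 < (eC c1 c2).val [x]) (ht : |t| ≤ c2 / 1000) :
    |t| * |Real.cos (Real.pi * x) / Real.sin (Real.pi * x)| < c1 / 1000 := by
  have hs := sin_pi_pos' h0 (by linarith only [h0, h1])
  have hc : 0 ≤ Real.cos (Real.pi * x) := Real.cos_nonneg_of_mem_Icc
    ⟨by nlinarith only [h0, Real.pi_pos], by nlinarith only [h0, h1, Real.pi_pos]⟩
  simp only [eC, E.val, lkR_zero] at h
  rw [abs_div, abs_of_pos hs, abs_of_nonneg hc, ← mul_div_assoc, div_lt_iff₀ hs]
  have := mul_le_mul_of_nonneg_right ht hc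
  push_cast at h
  linarith only [h, this]

lemma cot_one {x t : ℝ} (h0 : 275 / 1000 ≤ x) (h1 : x ≤ 1 / 2) (ht : |t| ≤ 118 / 1000) :
    |t| * |Real.cos (Real.pi * x) / Real.sin (Real.pi * x)| < 102 / 1000 := by
  have h : chk [eC 102 118] 30 [V.of 1000 275 500] = true := by decide +kernel
  have := cot_le_of (t := t) (by linarith only [h0]) h1 (pos_of_chk (chk1 h (by norm_num)
    (by norm_num; linarith only [h0]) (by norm_num; linarith only [h1]))) (by norm_num; linarith only [ht])
  norm_num at this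
  linarith only [this]

lemma cot_two {x t : ℝ} (h0 : 212 / 1000 ≤ x) (h1 : x ≤ 1 / 2) (ht : |t| ≤ 66 / 1000) :
    |t| * |Real.cos (Real.pi * x) / Real.sin (Real.pi * x)| < 102 / 1000 := by
  have h : chk [eC 102 66] 30 [V.of 1000 212 500] = true := by decide +kernel
  have := cot_le_of (t := t) (by linarith only [h0]) h1 (pos_of_chk (chk1 h (by norm_num)
    (by norm_num; linarith only [h0]) (by norm_num; linarith only [h1]))) (by norm_num; linarith only [ht])
  norm_num at this
  linarith only [this]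

lemma cot_sum {x t : ℝ} (h0 : 424 / 1000 ≤ x) (h1 : x ≤ 1 / 2) (ht : |t| ≤ 316 / 1000) :
    |t| * |Real.cos (Real.pi * x) / Real.sin (Real.pi * x)| < 80 / 1000 := by
  have h : chk [eC 80 316] 30 [V.of 1000 424 500] = true := by decide +kernel
  have := cot_le_of (t := t) (by linarith only [h0]) h1 (pos_of_chk (chk1 h (by norm_num)
    (by norm_num; linarith only [h0]) (by norm_num; linarith only [h1]))) (by norm_num; linarith only [ht])
  norm_num at this
  linarith only [this]

/-- the expression of `K2` -/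
def eK2 : E := sub (mul (add (q 1 2) (sub (var 1) (var 0)))
    (mul (sinPi (add (var 0) (var 1))) (sinPi (var 0))))
  (mul (q 197 1000) (add (mul (cosPi (add (var 0) (var 1))) (sinPi (var 0)))
    (mul (cosPi (var 0)) (sinPi (add (var 0) (var 1))))))

lemma k2_num {x y s t : ℝ} (h0 : 181 / 1000 ≤ x) (h1 : 181 / 1000 ≤ y) (h : x + y ≤ 1 / 2)
    (hs : |s| ≤ 197 / 1000) (ht : 2 * |t| ≤ 197 / 1000) :
    |s| * |Real.cos (Real.pi * (x + y)) / Real.sin (Real.pi * (x + y))| +
      2 * (|t| * |Real.cos (Real.pi * x) / Real.sin (Real.pi * x)|) < 1 / 2 + y - x := by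
  have hk : chk [eK2, sub (add (var 0) (var 1)) (q 1 2)] 30 [V.of 1000 181 319, V.of 1000 181 319] =
    true := by decide +kernel
  obtain ⟨e, he, h2⟩ := chk2 hk (by norm_num) (x := x) (y := y) (by norm_num; linarith only [h0])
    (by norm_num; linarith only [h1, h]) (by norm_num; linarith only [h1]) (by norm_num; linarith only [h0, h])
  have hs1 := sin_pi_pos' (x := x) (by linarith only [h0]) (by linarith only [h1, h])
  have hs2 := sin_pi_pos' (x := x + y) (by linarith only [h0, h1]) (by linarith only [h])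
  have hc1 : 0 ≤ Real.cos (Real.pi * x) := Real.cos_nonneg_of_mem_Icc
    ⟨by nlinarith only [h0, Real.pi_pos], by nlinarith only [h1, h, Real.pi_pos]⟩
  have hc2 : 0 ≤ Real.cos (Real.pi * (x + y)) := Real.cos_nonneg_of_mem_Icc
    ⟨by nlinarith only [h0, h1, Real.pi_pos], by nlinarith only [h, Real.pi_pos]⟩
  have h3 : 0 < eK2.val [x, y] := by
    simp only [List.mem_cons, List.not_mem_nil, or_false] at he
    rcases he with rfl | rfl
    · exact h2
    · simp only [E.val, lkR_zero, lkR_one] at h2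
      norm_num at h2
      linarith only [h, h2]
  simp only [eK2, E.val, lkR_zero, lkR_one] at h3
  rw [abs_div, abs_of_pos hs2, abs_of_nonneg hc2, abs_div, abs_of_pos hs1, abs_of_nonneg hc1]
  have g1 : |s| * (Real.cos (Real.pi * (x + y)) / Real.sin (Real.pi * (x + y))) ≤
      197 / 1000 * (Real.cos (Real.pi * (x + y)) / Real.sin (Real.pi * (x + y))) :=
    mul_le_mul_of_nonneg_right hs (by positivity)
  have g2 : 2 * (|t| * (Real.cos (Real.pi * x) / Real.sin (Real.pi * x))) ≤
      197 / 1000 * (Real.cos (Real.pi * x) / Real.sin (Real.pi * x)) := by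
    rw [← mul_assoc]
    exact mul_le_mul_of_nonneg_right ht (by positivity)
  have g3 : 197 / 1000 * (Real.cos (Real.pi * (x + y)) / Real.sin (Real.pi * (x + y))) +
      197 / 1000 * (Real.cos (Real.pi * x) / Real.sin (Real.pi * x)) =
      (197 / 1000 * (Real.cos (Real.pi * (x + y)) * Real.sin (Real.pi * x) +
      Real.cos (Real.pi * x) * Real.sin (Real.pi * (x + y)))) /
      (Real.sin (Real.pi * (x + y)) * Real.sin (Real.pi * x)) := by
    field_simp
  have g4 : (197 / 1000 * (Real.cos (Real.pi * (x + y)) * Real.sin (Real.pi * x) +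
      Real.cos (Real.pi * x) * Real.sin (Real.pi * (x + y)))) /
      (Real.sin (Real.pi * (x + y)) * Real.sin (Real.pi * x)) < 1 / 2 + y - x := by
    rw [div_lt_iff₀ (mul_pos hs2 hs1)]
    push_cast at h3
    linarith only [h3]
  linarith only [g1, g2, g3, g4]

/-- the expression of a lower bound of `PP` -/
def eP (n : ℤ) : E := sub (mul (sinPi (var 0)) (cosPi (var 0)))
  (mul (q n 100) (add (sq (sinPi (var 0))) (sq (sinh (mul pi (var 1))))))

lemma PP_of {n : ℤ} {x t : ℝ} (h0 : 0 < x) (h1 : x < 1) (h : 0 < (eP n).val [x, |t|]) :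
    (n : ℝ) / 100 < NumI.PP x t := by
  have hM := NumI.MM_pos (t := t) (sin_pi_pos' h0 h1)
  simp only [eP, E.val, lkR_zero, lkR_one] at h
  unfold NumI.PP
  rw [lt_div_iff₀ hM]
  have e2 : Real.sinh (Real.pi * |t|) ^ 2 = Real.sinh (Real.pi * t) ^ 2 := by
    rcases abs_choice t with h | h <;> rw [h]
    rw [mul_neg, Real.sinh_neg, neg_sq]
  unfold NumI.MM
  rw [e2] at h
  push_cast at h
  linarith only [h]

lemma PP_A {x t : ℝ} (h0 : 174 / 1000 ≤ x) (h1 : x ≤ 314 / 1000) (ht : |t| ≤ 1145 / 10000) :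
    50 / 100 < NumI.PP x t := by
  have h : chk [eP 50] 30 [V.of 10000 1740 3140, V.of 10000 0 1145] = true := by decide +kernel
  have := PP_of (x := x) (t := t) (by linarith only [h0]) (by linarith only [h1]) (pos_of_chk (chk2 h (by norm_num)
    (by norm_num; linarith only [h0]) (by norm_num; linarith only [h1]) (by norm_num) (by norm_num; linarith only [ht])))
  norm_num at this
  linarith only [this]

lemma PP_B {x t : ℝ} (h0 : 186 / 1000 ≤ x) (h1 : x ≤ 338 / 1000) (ht : |t| ≤ 2745 / 10000) :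
    24 / 100 < NumI.PP x t := by
  have h : chk [eP 24] 30 [V.of 10000 1860 3380, V.of 10000 0 2745] = true := by decide +kernel
  have := PP_of (x := x) (t := t) (by linarith only [h0]) (by linarith only [h1]) (pos_of_chk (chk2 h (by norm_num)
    (by norm_num; linarith only [h0]) (by norm_num; linarith only [h1]) (by norm_num) (by norm_num; linarith only [ht])))
  norm_num at this
  linarith only [this]

lemma PP_C {x t : ℝ} (h0 : 1 / 2 ≤ x) (h1 : x ≤ 512 / 1000) (ht : |t| ≤ 16 / 100) :
    -(4 / 100) < NumI.PP x t := by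
  have h : chk [eP (-4)] 30 [V.of 1000 500 512, V.of 1000 0 160] = true := by decide +kernel
  have := PP_of (x := x) (t := t) (by linarith only [h0]) (by linarith only [h1]) (pos_of_chk (chk2 h (by norm_num)
    (by norm_num; linarith only [h0]) (by norm_num; linarith only [h1]) (by norm_num) (by norm_num; linarith only [ht])))
  norm_num at this
  linarith only [this]

end num

/-! ### the local conditions -/

lemma ph'_re_PP {z : ℂ} (hz : z ∈ strip) : (ph' z).re = Real.pi * NumI.PP z.re z.im := by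
  rw [ph'_eq (sin_ne_of_strip hz), ← Num.CC_PP]
  simp

lemma ph'_im_QQ {z : ℂ} (hz : z ∈ strip) : (ph' z).im = -(Real.pi * NumI.QQ z.re z.im) := by
  rw [ph'_eq (sin_ne_of_strip hz), ← Num.SS_QQ]
  simp

lemma Hg_of_QQ {w : ℂ} (h0 : 0 < w.re) (h1 : w.re < 1 / 2) (h : |NumI.QQ w.re w.im| < 1) :
    Hg w := by
  refine ⟨h0, h1, ?_⟩
  rw [ph'_im_QQ ⟨h0, by linarith only [h0, h1]⟩, abs_neg, abs_mul, abs_of_pos Real.pi_pos]
  have := mul_lt_mul_of_pos_left h Real.pi_pos
  linarith only [this]

lemma Hg_one {w : ℂ} (h0 : 212 / 1000 ≤ w.re) (h1 : w.re < 1 / 2) (ht : |w.im| ≤ 158 / 1000) :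
    Hg w := Hg_of_QQ (by linarith only [h0, h1]) h1 (QQ_lt_one h0 h1.le ht)

lemma Hg_two {w : ℂ} (h0 : 181 / 1000 ≤ w.re) (h1 : w.re < 1 / 2) (ht : |w.im| ≤ 985 / 10000) :
    Hg w := Hg_of_QQ (by linarith only [h0, h1]) h1 (QQ_lt_two h0 h1.le ht)

lemma K2_two {w v : ℂ} (h0 : 181 / 1000 ≤ w.re) (ht : |w.im| ≤ 985 / 10000)
    (h0' : 181 / 1000 ≤ v.re) (ht' : |v.im| ≤ 985 / 10000) : K2 w v := by
  unfold K2
  rcases le_or_gt (1 / 2) (w.re + v.re) with h | h
  · exact Or.inl h
  · right
    have h2 := k2_num (s := (w + v).im) (t := w.im) h0 h0' h.le (by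
      rw [Complex.add_im]
      have := abs_add_le w.im v.im
      linarith only [ht, ht', this]) (by linarith only [ht])
    unfold hc
    rw [Complex.add_re]
    exact h2

lemma K1s_one {w v : ℂ} (h0 : 212 / 1000 ≤ w.re) (h1 : w.re < 1 / 2) (ht : |w.im| ≤ 158 / 1000)
    (h0' : 212 / 1000 ≤ v.re) (h1' : v.re < 1 / 2) (ht' : |v.im| ≤ 158 / 1000)
    (hn : 0 ≤ w.im ∨ |w.im| * |Real.cos (Real.pi * w.re) / Real.sin (Real.pi * w.re)| < 102 / 1000) :
    K1s 1 w v := by
  have hpi := Real.pi_pos
  have sw : w ∈ strip := ⟨by linarith only [h0, h1], by linarith only [h0, h1]⟩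
  have s2 : 1 - w ∈ strip := ⟨by simp only [Complex.sub_re, Complex.one_re]; linarith only [h0, h1],
    by simp only [Complex.sub_re, Complex.one_re]; linarith only [h0, h1]⟩
  have ss : w + v ∈ strip := ⟨by simp only [Complex.add_re]; linarith only [h0, h1, h0'],
    by simp only [Complex.add_re]; linarith only [h1, h1']⟩
  unfold K1s
  have e : (jj 1 * (Real.pi * (1 - v)) + ph (w + v) - ph (1 - w)).im =
      Real.pi * (1 - v.re) + (ph (w + v)).im - (ph w).im := by
    rw [Complex.sub_im, Complex.add_im, ph_one_sub_im sw, jj_mul_im]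
    unfold jj
    norm_num
  rw [e]
  have i1 := ph_im_le ss
  have i2 := ph_im_lt' sw (by linarith only [h1])
  have a1 := abs_le.1 i1
  have a2 := abs_lt.1 i2
  rw [abs_of_pos (by linarith only [h1] : (0 : ℝ) < 1 / 2 - w.re)] at a2
  rw [abs_lt]
  have hss : |1 / 2 - (w + v).re| < 1 / 2 := by
    rw [abs_lt, Complex.add_re]
    constructor <;> linarith only [h1, h1', h0, h0']
  have hss' := mul_lt_mul_of_pos_left hss hpi
  have p1 := mul_lt_mul_of_pos_left h1 hpi
  have p2 := mul_lt_mul_of_pos_left h1' hpi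
  have p3 := mul_le_mul_of_nonneg_left h0 hpi.le
  constructor
  · nlinarith only [a1, a2, hss', p2, p3]
  · rcases le_or_gt (1 / 2) (w.re + v.re) with h | h
    · rw [Complex.add_re, abs_of_nonpos (by linarith only [h])] at a1
      nlinarith only [a1, a2]
    · have b1 := ph_im_le_hc ss
      have b2 := ph_im_le_hc sw
      have c1 := cot_sum (x := (w + v).re) (t := (w + v).im) (by rw [Complex.add_re]; linarith only [h0, h0'])
        (by rw [Complex.add_re]; linarith only [h]) (by
          rw [Complex.add_im]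
          have := abs_add_le w.im v.im
          linarith only [ht, ht', this])
      have c2 : -(ph w).im < Real.pi * (102 / 1000) := by
        rcases hn with hn | hn
        · have : 0 ≤ (ph w).im := by
            rw [Num.ph_im sw]
            unfold Num.B
            rw [← Real.arctan_zero]
            apply Real.arctan_strictMono.monotone
            have hs := sin_pi_pos' sw.1 sw.2
            have hcc : 0 ≤ Real.cos (Real.pi * w.re) := Real.cos_nonneg_of_mem_Icc
              ⟨by nlinarith only [a2, p3], by nlinarith only [a2]⟩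
            have hsh : 0 ≤ Real.sinh (Real.pi * w.im) := Real.sinh_nonneg_iff.2 (by positivity)
            have hch := Real.cosh_pos (Real.pi * w.im)
            positivity
          linarith only [a2, p3, this]
        · have h3 := neg_le_of_abs_le b2
          have h4 : Real.pi * hc w < Real.pi * (102 / 1000) := mul_lt_mul_of_pos_left hn hpi
          linarith only [h3, h4]
      have c3 : (ph (w + v)).im < Real.pi * (80 / 1000) := by
        have h3 := le_of_abs_le b1
        have h4 : Real.pi * hc (w + v) < Real.pi * (80 / 1000) := mul_lt_mul_of_pos_left c1 hpi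
        linarith only [h3, h4]
      nlinarith only [p3, c2, c3, h0, a2, h1, h0', hpi]

/-- the bounds of the boxes of hinges at a region with one crossing -/
lemma box_one {B : Cl} {s : Bool} {w : ℂ} (h : (hbox .one B s).In w) : 212 / 1000 ≤ w.re ∧
    |w.im| ≤ 158 / 1000 ∧ (w.re < 1 / 2 →
    0 ≤ w.im ∨ |w.im| * |Real.cos (Real.pi * w.re) / Real.sin (Real.pi * w.re)| < 102 / 1000) := by
  obtain ⟨h1, h2, h3, h4⟩ := h
  cases B <;> simp only [hbox] at h1 h2 h3 h4
  · refine ⟨by linarith only [h1], abs_le.2 ⟨by linarith only [h3], by linarith only [h4]⟩, fun h => Or.inr ?_⟩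
    exact cot_one h1 h.le (abs_le.2 ⟨by linarith only [h3], by linarith only [h4]⟩)
  · refine ⟨by linarith only [h1], abs_le.2 ⟨by linarith only [h3], by linarith only [h4]⟩, fun h => ?_⟩
    rcases le_or_gt 0 w.im with h5 | h5
    · exact Or.inl h5
    · exact Or.inr (cot_two (by linarith only [h1, h3, h5]) h.le (abs_le.2 ⟨by linarith only [h3, h5], by linarith only [h3, h5]⟩))
  · refine ⟨by linarith only [h1], abs_le.2 ⟨by linarith only [h3], by linarith only [h4]⟩, fun h => Or.inr ?_⟩
    exact cot_two (by linarith only [h1, h]) h.le (abs_le.2 ⟨by linarith only [h3], by linarith only [h1, h4, h]⟩)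
  all_goals
    refine ⟨by linarith only [h1], abs_le.2 ⟨by linarith only [h3], by linarith only [h4]⟩, fun _ => Or.inl (by linarith)⟩

/-- **A region with one crossing.** -/
theorem run_one {A B : Cl} {s s' : Bool} {w v : ℂ} (hw : (hbox .one A s).In w) (h1 : w.re < 1 / 2)
    (hv : (hbox .one B s').In v) (h1' : v.re < 1 / 2) : RunOk 1 .one true true ![w, 0, v] := by
  obtain ⟨a1, a2, a3⟩ := box_one hw
  obtain ⟨b1, b2, b3⟩ := box_one hv
  refine ⟨?_, ?_, ?_, ?_, ?_, ?_, Or.inl ⟨?_, ?_⟩⟩
  · show 0 < w.re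
    linarith only [h1, a1]
  · exact h1
  · show 0 < v.re
    linarith only [h1, a1, b1]
  · exact h1'
  · exact K1s_one a1 h1 a2 b1 h1' b2 (a3 h1)
  · exact K1s_one b1 h1' b2 a1 h1 a2 (b3 h1')
  · exact Hg_one a1 h1 a2
  · exact Hg_one b1 h1' b2

/-- the bounds of the boxes of hinges at an inner region with two crossings -/
lemma box_two {B : Cl} {s : Bool} {w : ℂ} (h : (hbox .two B s).In w) : 181 / 1000 ≤ w.re ∧
    w.re < 1 / 2 ∧ |w.im| ≤ 985 / 10000 := by
  obtain ⟨h1, h2, h3, h4⟩ := h
  cases B <;> simp only [hbox] at h1 h2 h3 h4 <;>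
    exact ⟨by linarith only [h1], by linarith only [h2], abs_le.2 ⟨by linarith only [h3], by linarith only [h4]⟩⟩

/-- **A region with two crossings.** -/
theorem run_two {A B : Cl} {s s' : Bool} {w v : ℂ} (hw : (hbox .two A s).In w)
    (hv : (hbox .two B s').In v) : RunOk 1 .two true true ![w, 0, v] := by
  obtain ⟨a1, a2, a3⟩ := box_two hw
  obtain ⟨b1, b2, b3⟩ := box_two hv
  exact ⟨Hg_two a1 a2 a3, Hg_two b1 b2 b3, K2_two a1 a3 b1 b3, K2_two b1 b3 a1 a3⟩

/-- the bounds of the boxes of hinges at an inner region with three crossings -/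
lemma box_three {B : Cl} {s : Bool} {w : ℂ} (h : (hbox .three B s).In w) : 174 / 1000 ≤ w.re ∧
    w.re ≤ 314 / 1000 ∧ |w.im| ≤ 1145 / 10000 := by
  obtain ⟨h1, h2, h3, h4⟩ := h
  cases B <;> simp only [hbox] at h1 h2 h3 h4 <;>
    exact ⟨by linarith only [h1], by linarith only [h2], abs_le.2 ⟨by linarith only [h3], by linarith only [h4]⟩⟩

lemma Hl_three {w l : ℂ} (h0 : 174 / 1000 ≤ w.re) (h1 : w.re ≤ 314 / 1000)
    (ht : |w.im| ≤ 1145 / 10000) (l0 : 325 / 1000 ≤ l.re) (l1 : l.re ≤ 512 / 1000)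
    (lt : |l.im| ≤ 16 / 100) : Hl w l := by
  have hpi := Real.pi_pos
  have sw : w ∈ strip := ⟨by linarith only [h0], by linarith only [h1]⟩
  have sl : l ∈ strip := ⟨by linarith only [l0], by linarith only [l1]⟩
  have slw : l - w ∈ strip := ⟨by simp only [Complex.sub_re]; linarith only [h1, l0],
    by simp only [Complex.sub_re]; linarith only [h0, l1]⟩
  refine ⟨by linarith only [h0], by linarith only [h1], by linarith only [h1, l0], by linarith only [h0, l1], ?_⟩
  rcases le_or_gt l.re (1 / 2) with h | h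
  · have hA := LT.ph'_re_pos sw.1 (by linarith only [h1] : w.re < 1 / 2)
    have hB : 0 < (ph' (l - w)).re := LT.ph'_re_pos slw.1 (by rw [Complex.sub_re]; linarith only [h0, l1])
    have hC := re_nonneg_of_le sl.1 h
    positivity
  · rw [ph'_re_PP sw, ph'_re_PP sl, ph'_re_PP slw]
    have hA := PP_A h0 h1 ht
    have hB := PP_B (x := (l - w).re) (t := (l - w).im) (by rw [Complex.sub_re]; linarith only [h1, h])
      (by rw [Complex.sub_re]; linarith only [h0, l1]) (by
        rw [Complex.sub_im]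
        have := abs_sub l.im w.im
        linarith only [ht, lt, this])
    have hC := PP_C h.le l1 lt
    set A := NumI.PP w.re w.im
    set B := NumI.PP (l - w).re (l - w).im
    set C := NumI.PP l.re l.im
    have e : Real.pi * A * (Real.pi * B) + Real.pi * C * (Real.pi * A + Real.pi * B) =
        Real.pi ^ 2 * (A * B + C * (A + B)) := by ring
    rw [e]
    apply mul_pos (by positivity)
    have h2 : -(4 / 100) * (A + B) < C * (A + B) := mul_lt_mul_of_pos_right hC (by linarith only [l1, h, hA, hB])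
    nlinarith only [l1, h, hA, hB, h2, mul_pos (sub_pos.2 hA) (sub_pos.2 hB)]

/-- **A region with three crossings.** -/
theorem run_three {A B : Cl} {s s' : Bool} {w l v : ℂ} (hw : (hbox .three A s).In w)
    {C : Cl} (hl : (mbox C).In l) (hv : (hbox .three B s').In v) (h3 : 1 / 2 ≤ l.re + v.re) :
    RunOk 1 .threeL true true ![w, l, v] ∧ 0 ≤ w.re + l.re - v.re ∧ w.re + l.re - v.re ≤ 1 := by
  obtain ⟨a1, a2, a3⟩ := box_three hw
  obtain ⟨b1, b2, b3⟩ := box_three hv
  obtain ⟨c1, c2, c3, c4⟩ := hl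
  have hx : (mbox C).x0 = 325 / 1000 ∧ (mbox C).x1 = 512 / 1000 ∧ (mbox C).t0 = -(160 / 1000) ∧
      (mbox C).t1 = 15 / 1000 := by
    cases C <;> exact ⟨rfl, rfl, rfl, rfl⟩
  rw [hx.1] at c1
  rw [hx.2.1] at c2
  rw [hx.2.2.1] at c3
  rw [hx.2.2.2] at c4
  have hlt : |l.im| ≤ 16 / 100 := abs_le.2 ⟨by linarith only [c3], by linarith only [c4]⟩
  refine ⟨⟨Hl_three a1 a2 a3 c1 c2 hlt, ?_, ?_, ?_, h3, ?_, ?_⟩, by linarith only [h3, a1, b2], by linarith only [a2, b1, c2]⟩
  · show w.re < 1 / 2
    linarith only [a2]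
  · show 0 < v.re
    linarith only [b1]
  · show v.re < 1 / 2
    linarith only [b2]
  · show l.re + v.re < 1
    linarith only [b2, c2]
  · show l.re ≤ v.re + 1 / 2
    linarith only [b1, c2]

/-! ### the rows -/

lemma BoxRows.box' {K : KFam} (Bx : BoxRows K) {x : SK} {d : ℕ} {l : SK} {d' : ℕ} {l' : SK}
    {R k k' : ℂ} (h : HDt K x d l d' l' R k k') :
    ∃ B s, (hbox (cK d l) B s).In (yH x R k) := by
  have h1 := Bx.box h
  unfold kbox at h1
  split_ifs at h1
  · exact ⟨_, _, h1⟩
  · exact ⟨_, _, h1⟩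

lemma acot2_neg_I : acot2 (-I) = 1 / 2 := by
  unfold acot2 Complex.arctan
  have h1 : 1 - -I * I = 0 := by
    rw [neg_mul, Complex.I_mul_I]
    norm_num
  rw [h1, div_zero, Complex.log_zero]
  simp

/-- **The conditions of the rows from the boxes.**  `l3`: one inequality at an inner region with
three crossings. -/
theorem rows_of_boxes {K : KFam} (Bx : BoxRows K)
    (l3 : ∀ {l r dl ll dr rr w kl kr}, RDt K 3 l r dl ll dr rr w kl kr →
      1 / 2 ≤ (mH l (RR w kl) (Complex.cos w)).re + (yH r (RR w kr) (Complex.cos w)).re)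
    (hZ : ∀ {d l r dl ll dr rr w kl kr}, 4 ≤ d → RDt K d l r dl ll dr rr w kl kr → ZSide l w kl)
    (hZe : ∀ {d r dr rr w kr}, 4 ≤ d → RDe K d r dr rr w kr → ZSide r w kr) : Rows K where
  ne := by
    intro d l d' l' R k k' h hc
    have h1 := (Bx.sp h).2
    rw [hc, acot2_neg_I] at h1
    norm_num at h1
  absd := by
    intro d l d' l' R k k' h
    have h1 := Bx.sp h
    have h2 := Bx.sp h.rev
    have e0 : fz SK.s.sgn R = R := fz_one R
    have e1 : fz SK.s.sgn k' = k' := fz_one k'
    rw [e0, e1] at h2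
    have e : ∀ k, yH .s R k = acot2 (Sp R k) := by
      intro k
      unfold yH
      rw [Hq_s]
    rw [e, e]
    have g1 : (hbox .one (cK d l) false).In (conj (acot2 (Sp R k))) := by
      rw [hbox_swap, Box.in_neg]
      exact h1.1
    have g2 : (hbox .one (cK d' l') false).In (conj (acot2 (Sp R k'))) := by
      rw [hbox_swap, Box.in_neg]
      exact h2.1
    have hr := run_one g1 (by rw [Complex.conj_re]; exact h1.2) g2
      (by rw [Complex.conj_re]; exact h2.2)
    exact hr.conj one_ne_zero (by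
      show acot2 (Sp R k) = conj (conj (acot2 (Sp R k)))
      rw [Complex.conj_conj]) (by
      show acot2 (Sp R k') = conj (conj (acot2 (Sp R k')))
      rw [Complex.conj_conj]) (fun h => absurd h (by decide)) (fun h => absurd h (by decide))
  one := by
    intro l r dl ll dr rr w kl kr h
    obtain ⟨B, s, h1⟩ := Bx.box' h.left
    obtain ⟨B', s', h2⟩ := Bx.box' h.right
    exact run_one (A := B) h1 (Bx.half h.left).2 h2 (Bx.half h.right).2
  two := by
    intro l r dl ll dr rr w kl kr h
    obtain ⟨B, s, h1⟩ := Bx.box' h.left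
    obtain ⟨B', s', h2⟩ := Bx.box' h.right
    have c1 : cK 2 r = .two := by
      unfold cK
      rw [if_neg (by norm_num), if_pos rfl, if_neg h.right.ok.ne]
    have c2 : cK 2 l = .two := by
      unfold cK
      rw [if_neg (by norm_num), if_pos rfl, if_neg h.left.ok.ne]
    rw [c1] at h1
    rw [c2] at h2
    exact run_two h1 h2
  twoE := fun h => Bx.half h.right
  three := by
    intro l r dl ll dr rr w kl kr h
    obtain ⟨B, s, h1⟩ := Bx.box' h.left
    obtain ⟨B', s', h2⟩ := Bx.box' h.right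
    have c1 : cK 3 r = .three := by
      unfold cK
      rw [if_neg (by norm_num), if_neg (by norm_num), if_pos rfl, if_neg h.right.ok.ne]
    have c2 : cK 3 l = .three := by
      unfold cK
      rw [if_neg (by norm_num), if_neg (by norm_num), if_pos rfl, if_neg h.left.ok.ne]
    rw [c1] at h1
    rw [c2] at h2
    exact run_three h1 (Bx.mid h) h2 (l3 h)
  threeE := by
    intro r dr rr w kr h
    have h0 := Bx.half h.right
    obtain ⟨B, s, h1⟩ := Bx.box' h.right
    have h2 := Bx.midE h
    have c1 : cK 3 .e = .threeE := rfl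
    rw [c1] at h1
    have h3 : 162 / 1000 ≤ (yH r (RR w kr) (Complex.cos w)).re ∧
        (yH r (RR w kr) (Complex.cos w)).re ≤ 274 / 1000 := by
      obtain ⟨a1, a2, a3, a4⟩ := h1
      cases B <;> simp only [hbox] at a1 a2 a3 a4 <;> exact ⟨by linarith only [h0, a1], by linarith only [a2, h0]⟩
    obtain ⟨m1, m2, m3, m4⟩ := h2
    simp only [mboxE] at m1 m2
    exact ⟨h0.1, h0.2, by linarith only [h0, h3, m1], by linarith only [h0, h3, m2], by linarith only [h0, h3, m2]⟩
  ring := hZ
  ringE := hZe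

/-- **The location of the saddle point of a word**: the local conditions and the location table. -/
theorem locOK_of_boxes {M : ℕ} {b : Fin (M + 1) → ℤ} {w : ℕ → ℂ} (hb : ClassW b) (F : RingFacts)
    (hw : Sol b w) (hM : 1 ≤ M) {K : KFam} (hK : Snd K b w) (Bx : BoxRows K)
    (l3 : ∀ {l r dl ll dr rr w kl kr}, RDt K 3 l r dl ll dr rr w kl kr →
      1 / 2 ≤ (mH l (RR w kl) (Complex.cos w)).re + (yH r (RR w kr) (Complex.cos w)).re)
    (hZ : ∀ {d l r dl ll dr rr w kl kr}, 4 ≤ d → RDt K d l r dl ll dr rr w kl kr → ZSide l w kl)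
    (hZe : ∀ {d r dr rr w kr}, 4 ≤ d → RDe K d r dr rr w kr → ZSide r w kr) :
    LocOK b w ∧ Loc b (zsW b w) :=
  ⟨locOK_of_rows hb F hw hM hK (rows_of_boxes Bx l3 hZ hZe), loc_of_boxes hb F hw hM hK Bx⟩

end SR

end Pool.Agent.Work.MP_b30479_gt.G2
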