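import Pool.Agent.Work.MP_b30479_gt.G2.SQuart

/-!
# A faster check of quartic inequalities over a polygon

`polyQ` implies `polyOK`: the products of two vertices are shared, the quadratic case has six
coefficients, the integers are residues modulo `2 ^ 256`.
-/

namespace Pool.Agent.Work.MP_b30479_gt.G2.SQ

noncomputable section

/-- conjunction -/
def an (a b : Bool) : Bool := @Bool.rec (fun _ => Bool) false b a

lemma an_iff {a b : Bool} (h : an a b = true) : a = true ∧ b = true := by
  cases a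
  · have : (false : Bool) = true := h
    simp at this
  · exact ⟨rfl, h⟩

/-- disjunction -/
def oor (a b : Bool) : Bool := @Bool.rec (fun _ => Bool) b true a

lemma oor_iff {a b : Bool} (h : oor a b = true) : a = true ∨ b = true := by
  cases a
  · exact Or.inr h
  · exact Or.inl rfl

/-! ### residues -/

/-- the natural number `n` is congruent to `x`, and `|x| ≤ B` -/
def Rp (n : ℕ) (x : ℤ) (B : ℕ) : Prop := ((nat_lit 115792089237316195423570985008687907853269984665640564039457584007913129639936 : ℕ) : ℤ) ∣ (n : ℤ) - x ∧ |x| ≤ B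

lemma Rp.add {n m : ℕ} {x y : ℤ} {B C : ℕ} (h : Rp n x B) (h' : Rp m y C) :
    Rp (Nat.add n m) (x + y) (B + C) := by
  refine ⟨?_, (abs_add_le _ _).trans ?_⟩
  · have e : ((Nat.add n m : ℕ) : ℤ) - (x + y) = ((n : ℤ) - x) + ((m : ℤ) - y) := by
      change ((n + m : ℕ) : ℤ) - (x + y) = _
      push_cast
      ring
    rw [e]
    exact dvd_add h.1 h'.1
  · push_cast
    exact add_le_add h.2 h'.2

lemma Rp.mul {n m : ℕ} {x y : ℤ} {B C : ℕ} (h : Rp n x B) (h' : Rp m y C) :
    Rp (Nat.mul n m) (x * y) (B * C) := by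
  refine ⟨?_, ?_⟩
  · have e : ((Nat.mul n m : ℕ) : ℤ) - (x * y) = ((n : ℤ) - x) * m + x * ((m : ℤ) - y) := by
      change ((n * m : ℕ) : ℤ) - (x * y) = _
      push_cast
      ring
    rw [e]
    exact dvd_add (Dvd.dvd.mul_right h.1 _) (Dvd.dvd.mul_left h'.1 _)
  · rw [abs_mul]
    push_cast
    exact mul_le_mul h.2 h'.2 (abs_nonneg _) (Nat.cast_nonneg _)

lemma Rp.mod {n : ℕ} {x : ℤ} {B : ℕ} (h : Rp n x B) : Rp (Nat.mod n (nat_lit 115792089237316195423570985008687907853269984665640564039457584007913129639936)) x B := by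
  refine ⟨?_, h.2⟩
  have e : ((Nat.mod n (nat_lit 115792089237316195423570985008687907853269984665640564039457584007913129639936) : ℕ) : ℤ) - x =
      ((n : ℤ) - x) - ((nat_lit 115792089237316195423570985008687907853269984665640564039457584007913129639936 : ℕ) : ℤ) * ((n / (nat_lit 115792089237316195423570985008687907853269984665640564039457584007913129639936) : ℕ) : ℤ) := by
    have h1 := Nat.mod_add_div n (nat_lit 115792089237316195423570985008687907853269984665640564039457584007913129639936)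
    have h2 : ((n : ℕ) : ℤ) = ((n % (nat_lit 115792089237316195423570985008687907853269984665640564039457584007913129639936) : ℕ) : ℤ) +
      ((nat_lit 115792089237316195423570985008687907853269984665640564039457584007913129639936 : ℕ) : ℤ) * ((n / (nat_lit 115792089237316195423570985008687907853269984665640564039457584007913129639936) : ℕ) : ℤ) := by exact_mod_cast h1.symm
    change ((n % (nat_lit 115792089237316195423570985008687907853269984665640564039457584007913129639936) : ℕ) : ℤ) - x = _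
    linarith
  rw [e]
  exact dvd_sub h.1 (Dvd.intro _ rfl)

lemma Rp.nat (k : ℕ) : Rp k k k := ⟨by simp, by simp⟩

/-- the residue of an integer -/
def toN (x : ℤ) : ℕ :=
  @Int.rec (fun _ => ℕ) (fun n => n) (fun n => Nat.sub (nat_lit 115792089237316195423570985008687907853269984665640564039457584007913129639936) (Nat.succ n)) x

/-- the residue of minus an integer -/
def toM (x : ℤ) : ℕ :=
  @Int.rec (fun _ => ℕ) (fun n => Nat.sub (nat_lit 115792089237316195423570985008687907853269984665640564039457584007913129639936) n) (fun n => Nat.succ n) x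

/-- the size -/
def sz (K : ℕ) (x : ℤ) : Bool :=
  @Int.rec (fun _ => Bool) (fun n => Nat.ble (Nat.succ n) K) (fun n => Nat.ble (Nat.succ n) K) x

lemma sz_le {K : ℕ} {x : ℤ} (h : sz K x = true) : |x| ≤ K := by
  cases x with
  | ofNat n =>
    have h1 : n + 1 ≤ K := Nat.le_of_ble_eq_true h
    change |((n : ℕ) : ℤ)| ≤ K
    rw [abs_of_nonneg (Int.natCast_nonneg n)]
    omega
  | negSucc n =>
    have h1 : n + 1 ≤ K := Nat.le_of_ble_eq_true h
    rw [Int.negSucc_eq, abs_neg, abs_of_nonneg (by omega)]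
    omega

lemma toN_rp {K : ℕ} {x : ℤ} (h : sz K x = true) (hK : K ≤ 115792089237316195423570985008687907853269984665640564039457584007913129639936) : Rp (toN x) x K := by
  refine ⟨?_, sz_le h⟩
  cases x with
  | ofNat n =>
    change _ ∣ ((n : ℕ) : ℤ) - ((n : ℕ) : ℤ)
    rw [sub_self]
    exact dvd_zero _
  | negSucc n =>
    have h1 : n + 1 ≤ K := Nat.le_of_ble_eq_true h
    have h2 : n + 1 ≤ 115792089237316195423570985008687907853269984665640564039457584007913129639936 := h1.trans hK
    change ((nat_lit 115792089237316195423570985008687907853269984665640564039457584007913129639936 : ℕ) : ℤ) ∣ (((115792089237316195423570985008687907853269984665640564039457584007913129639936 - (n + 1) : ℕ)) : ℤ) - Int.negSucc n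
    rw [Int.negSucc_eq, Nat.cast_sub h2]
    have e : (((115792089237316195423570985008687907853269984665640564039457584007913129639936 : ℕ) : ℤ)) - ((n + 1 : ℕ) : ℤ) - -((n : ℤ) + 1) = ((nat_lit 115792089237316195423570985008687907853269984665640564039457584007913129639936 : ℕ) : ℤ) := by
      push_cast
      ring
    rw [e]

lemma toM_rp {K : ℕ} {x : ℤ} (h : sz K x = true) (hK : K ≤ 115792089237316195423570985008687907853269984665640564039457584007913129639936) : Rp (toM x) (-x) K := by
  refine ⟨?_, by rw [abs_neg]; exact sz_le h⟩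
  cases x with
  | ofNat n =>
    have h1 : n + 1 ≤ K := Nat.le_of_ble_eq_true h
    have h2 : n ≤ 115792089237316195423570985008687907853269984665640564039457584007913129639936 := by omega
    change ((nat_lit 115792089237316195423570985008687907853269984665640564039457584007913129639936 : ℕ) : ℤ) ∣ (((115792089237316195423570985008687907853269984665640564039457584007913129639936 - n : ℕ)) : ℤ) - -((n : ℕ) : ℤ)
    rw [Nat.cast_sub h2]
    have e : (((115792089237316195423570985008687907853269984665640564039457584007913129639936 : ℕ) : ℤ)) - ((n : ℕ) : ℤ) - -((n : ℤ)) = ((nat_lit 115792089237316195423570985008687907853269984665640564039457584007913129639936 : ℕ) : ℤ) := by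
      push_cast
      ring
    rw [e]
  | negSucc n =>
    change ((nat_lit 115792089237316195423570985008687907853269984665640564039457584007913129639936 : ℕ) : ℤ) ∣ (((n + 1 : ℕ)) : ℤ) - -Int.negSucc n
    rw [Int.negSucc_eq]
    have e : (((n + 1 : ℕ)) : ℤ) - - -((n : ℤ) + 1) = 0 := by
      push_cast
      ring
    rw [e]
    exact dvd_zero _

/-- the sign -/
def ge0 (n : ℕ) : Bool := Nat.ble (Nat.mod n (nat_lit 115792089237316195423570985008687907853269984665640564039457584007913129639936)) (nat_lit 57896044618658097711785492504343953926634992332820282019728792003956564819967)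

lemma ge0_le {n : ℕ} {x : ℤ} {B : ℕ} (h : Rp n x B) (hB : B ≤ 57896044618658097711785492504343953926634992332820282019728792003956564819967) (hn : ge0 n = true) : 0 ≤ x := by
  obtain ⟨⟨k, hk⟩, h2⟩ := h.mod
  have h3 : Nat.mod n (nat_lit 115792089237316195423570985008687907853269984665640564039457584007913129639936) ≤ 57896044618658097711785492504343953926634992332820282019728792003956564819967 := Nat.le_of_ble_eq_true hn
  have h4 : |x| ≤ ((57896044618658097711785492504343953926634992332820282019728792003956564819967 : ℕ) : ℤ) := h2.trans (by exact_mod_cast hB)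
  have h5 := abs_le.1 h4
  generalize Nat.mod n (nat_lit 115792089237316195423570985008687907853269984665640564039457584007913129639936) = r at *
  have h6 : ((r : ℕ) : ℤ) ≤ ((57896044618658097711785492504343953926634992332820282019728792003956564819967 : ℕ) : ℤ) := by exact_mod_cast h3
  have h7 : (0 : ℤ) ≤ (r : ℤ) := Int.natCast_nonneg r
  push_cast at h5 h6 hk
  have h8 : k = 0 := by omega
  rw [h8] at hk
  linarith

/-! ### products -/

/-- products of two vertices -/
def eX (p q : ℤ × ℤ) : ℕ := Nat.mod (Nat.add (Nat.mul (toN p.1) (toN q.1))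
  (Nat.mul (toM p.2) (toN q.2))) (nat_lit 115792089237316195423570985008687907853269984665640564039457584007913129639936)
/-- products of two vertices -/
def eY (p q : ℤ × ℤ) : ℕ := Nat.mod (Nat.add (Nat.mul (toN p.1) (toN q.2))
  (Nat.mul (toN p.2) (toN q.1))) (nat_lit 115792089237316195423570985008687907853269984665640564039457584007913129639936)
/-- products of two vertices -/
def eZ (p q : ℤ × ℤ) : ℕ := Nat.mod (Nat.add (Nat.mul (toN p.1) (toN q.1))
  (Nat.mul (toN p.2) (toN q.2))) (nat_lit 115792089237316195423570985008687907853269984665640564039457584007913129639936)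
/-- the quadratic part -/
def eF (al be mu : ℤ) (p q : ℤ × ℤ) : ℕ :=
  Nat.add (Nat.add (Nat.mul (toN al) (eX p q)) (Nat.mul (toN be) (eY p q)))
    (Nat.mul (nat_lit 1000000) (toM mu))

/-- products of two vertices -/
def pX (p q : ℤ × ℤ) : ℤ := p.1 * q.1 + (-p.2) * q.2
/-- products of two vertices -/
def pY (p q : ℤ × ℤ) : ℤ := p.1 * q.2 + p.2 * q.1
/-- products of two vertices -/
def pZ (p q : ℤ × ℤ) : ℤ := p.1 * q.1 + p.2 * q.2
/-- the quadratic part -/
def pF (al be mu : ℤ) (p q : ℤ × ℤ) : ℤ := al * pX p q + be * pY p q + 1000000 * (-mu)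

/-- the size of a vertex -/
def vz (p : ℤ × ℤ) : Bool := an (sz (nat_lit 1048576) p.1) (sz (nat_lit 1048576) p.2)

/-- the orientation -/
def ori (a b c : ℤ × ℤ) : Bool :=
  ge0 (Nat.add (Nat.add (Nat.mul (Nat.add (toN b.1) (toM a.1)) (Nat.add (toN c.2) (toM a.2)))
    (Nat.mul (Nat.add (toM b.2) (toN a.2)) (Nat.add (toN c.1) (toM a.1)))) (nat_lit 115792089237316195423570985008687907853269984665640564039457584007913129639935))

section
variable {p q : ℤ × ℤ} (hp : vz p = true) (hq : vz q = true)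
include hp hq

lemma eX_rp : Rp (eX p q) (pX p q) 2199023255552 := by
  obtain ⟨p1, p2⟩ := an_iff hp
  obtain ⟨q1, q2⟩ := an_iff hq
  exact (((toN_rp p1 (by norm_num)).mul (toN_rp q1 (by norm_num))).add
    ((toM_rp p2 (by norm_num)).mul (toN_rp q2 (by norm_num)))).mod

lemma eY_rp : Rp (eY p q) (pY p q) 2199023255552 := by
  obtain ⟨p1, p2⟩ := an_iff hp
  obtain ⟨q1, q2⟩ := an_iff hq
  exact (((toN_rp p1 (by norm_num)).mul (toN_rp q2 (by norm_num))).add
    ((toN_rp p2 (by norm_num)).mul (toN_rp q1 (by norm_num)))).mod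

lemma eZ_rp : Rp (eZ p q) (pZ p q) 2199023255552 := by
  obtain ⟨p1, p2⟩ := an_iff hp
  obtain ⟨q1, q2⟩ := an_iff hq
  exact (((toN_rp p1 (by norm_num)).mul (toN_rp q1 (by norm_num))).add
    ((toN_rp p2 (by norm_num)).mul (toN_rp q2 (by norm_num)))).mod

lemma eF_rp {al be mu : ℤ} (h1 : sz (nat_lit 17592186044416) al = true)
    (h2 : sz (nat_lit 17592186044416) be = true) (h3 : sz (nat_lit 17592186044416) mu = true) :
    Rp (eF al be mu p q) (pF al be mu p q) 77371270047522311597195264 :=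
  (((toN_rp h1 (by norm_num)).mul (eX_rp hp hq)).add ((toN_rp h2 (by norm_num)).mul (eY_rp hp hq))).add
    ((Rp.nat 1000000).mul (toM_rp h3 (by norm_num)))

end

lemma ori_ok {a b c : ℤ × ℤ} (ha : vz a = true) (hb : vz b = true) (hc : vz c = true)
    (h : ori a b c = true) : 0 < (b.1 - a.1) * (c.2 - a.2) - (b.2 - a.2) * (c.1 - a.1) := by
  obtain ⟨a1, a2⟩ := an_iff ha
  obtain ⟨b1, b2⟩ := an_iff hb
  obtain ⟨c1, c2⟩ := an_iff hc
  have k1 : Rp (nat_lit 115792089237316195423570985008687907853269984665640564039457584007913129639935) (-1) 1 := by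
    refine ⟨?_, by simp⟩
    have e : ((nat_lit 115792089237316195423570985008687907853269984665640564039457584007913129639935 : ℕ) : ℤ) - (-1) = ((nat_lit 115792089237316195423570985008687907853269984665640564039457584007913129639936 : ℕ) : ℤ) := by
      norm_num
    rw [e]
  have h1 := ge0_le ((((((toN_rp b1 (by norm_num)).add (toM_rp a1 (by norm_num))).mul
    ((toN_rp c2 (by norm_num)).add (toM_rp a2 (by norm_num)))).add
    (((toM_rp b2 (by norm_num)).add (toN_rp a2 (by norm_num))).mul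
    ((toN_rp c1 (by norm_num)).add (toM_rp a1 (by norm_num))))).add k1)) (by norm_num) h
  linarith

/-- six coefficients -/
def tri2 (al be mu : ℤ) (a b c : ℤ × ℤ) : Bool :=
  an (ge0 (eF al be mu a a)) (an (ge0 (eF al be mu a b)) (an (ge0 (eF al be mu a c))
    (an (ge0 (eF al be mu b b)) (an (ge0 (eF al be mu b c)) (ge0 (eF al be mu c c))))))

/-- a coefficient -/
def c1 (g f z : ℕ) : Bool := ge0 (Nat.add (Nat.mul (nat_lit 1000000) f) (Nat.mul g (Nat.mul z z)))
/-- a coefficient -/
def c2 (g f f' z w : ℕ) : Bool :=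
  ge0 (Nat.add (Nat.mul (nat_lit 1000000) (Nat.add f f')) (Nat.mul (Nat.mul (nat_lit 2) g) (Nat.mul z w)))
/-- a coefficient -/
def c3 (g f f' h z w y : ℕ) : Bool :=
  ge0 (Nat.add (Nat.mul (nat_lit 1000000) (Nat.add (Nat.add f f') (Nat.mul (nat_lit 4) h)))
    (Nat.mul (Nat.mul (nat_lit 2) g) (Nat.add (Nat.mul z w) (Nat.mul (nat_lit 2) (Nat.mul y y)))))
/-- a coefficient -/
def c4 (g f f' h h' z w y x : ℕ) : Bool :=
  ge0 (Nat.add (Nat.mul (nat_lit 1000000) (Nat.add (Nat.add f f') (Nat.mul (nat_lit 2) (Nat.add h h'))))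
    (Nat.mul (Nat.mul (nat_lit 2) g) (Nat.add (Nat.mul z w) (Nat.mul (nat_lit 2) (Nat.mul y x)))))

section
variable {g f f' h h' z w y x : ℕ} {G F F' K K' Z W Y X : ℤ}
  (hg : Rp g (-G) 17592186044416) (hf : Rp f F 77371270047522311597195264) (hf' : Rp f' F' 77371270047522311597195264) (hh : Rp h K 77371270047522311597195264)
  (hh' : Rp h' K' 77371270047522311597195264) (hz : Rp z Z 2199023255552) (hw : Rp w W 2199023255552)
  (hy : Rp y Y 2199023255552) (hx : Rp x X 2199023255552)

include hg hf hz in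
lemma c1_le (t : c1 g f z = true) : 0 ≤ 1000000 * F + (-G) * (Z * Z) :=
  ge0_le (((Rp.nat 1000000).mul hf).add (hg.mul (hz.mul hz))) (by norm_num) t

include hg hf hf' hz hw in
lemma c2_le (t : c2 g f f' z w = true) : 0 ≤ 1000000 * (F + F') + 2 * (-G) * (Z * W) :=
  ge0_le (((Rp.nat 1000000).mul (hf.add hf')).add (((Rp.nat 2).mul hg).mul (hz.mul hw))) (by norm_num) t

include hg hf hf' hh hz hw hy in
lemma c3_le (t : c3 g f f' h z w y = true) :
    0 ≤ 1000000 * (F + F' + 4 * K) + 2 * (-G) * (Z * W + 2 * (Y * Y)) :=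
  ge0_le (((Rp.nat 1000000).mul ((hf.add hf').add ((Rp.nat 4).mul hh))).add
    (((Rp.nat 2).mul hg).mul ((hz.mul hw).add ((Rp.nat 2).mul (hy.mul hy))))) (by norm_num) t

include hg hf hf' hh hh' hz hw hy hx in
lemma c4_le (t : c4 g f f' h h' z w y x = true) :
    0 ≤ 1000000 * (F + F' + 2 * (K + K')) + 2 * (-G) * (Z * W + 2 * (Y * X)) :=
  ge0_le (((Rp.nat 1000000).mul ((hf.add hf').add ((Rp.nat 2).mul (hh.add hh')))).add
    (((Rp.nat 2).mul hg).mul ((hz.mul hw).add ((Rp.nat 2).mul (hy.mul hx))))) (by norm_num) t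

end

/-- fifteen coefficients; `g` is the residue of `-ga` -/
def tri4 (g : ℕ) (al be mu : ℤ) (a b c : ℤ × ℤ) : Bool :=
  an (c1 g (eF al be mu a a) (eZ a a)) (an (c1 g (eF al be mu b b) (eZ b b))
  (an (c1 g (eF al be mu c c) (eZ c c))
  (an (c2 g (eF al be mu a a) (eF al be mu a b) (eZ a a) (eZ a b))
  (an (c2 g (eF al be mu a a) (eF al be mu a c) (eZ a a) (eZ a c))
  (an (c2 g (eF al be mu b b) (eF al be mu a b) (eZ b b) (eZ a b))
  (an (c2 g (eF al be mu b b) (eF al be mu b c) (eZ b b) (eZ b c))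
  (an (c2 g (eF al be mu c c) (eF al be mu a c) (eZ c c) (eZ a c))
  (an (c2 g (eF al be mu c c) (eF al be mu b c) (eZ c c) (eZ b c))
  (an (c3 g (eF al be mu a a) (eF al be mu b b) (eF al be mu a b) (eZ a a) (eZ b b) (eZ a b))
  (an (c3 g (eF al be mu a a) (eF al be mu c c) (eF al be mu a c) (eZ a a) (eZ c c) (eZ a c))
  (an (c3 g (eF al be mu b b) (eF al be mu c c) (eF al be mu b c) (eZ b b) (eZ c c) (eZ b c))
  (an (c4 g (eF al be mu a a) (eF al be mu b c) (eF al be mu a b) (eF al be mu a c)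
    (eZ a a) (eZ b c) (eZ a b) (eZ a c))
  (an (c4 g (eF al be mu b b) (eF al be mu a c) (eF al be mu a b) (eF al be mu b c)
    (eZ b b) (eZ a c) (eZ a b) (eZ b c))
  (c4 g (eF al be mu c c) (eF al be mu a b) (eF al be mu a c) (eF al be mu b c)
    (eZ c c) (eZ a b) (eZ a c) (eZ b c)))))))))))))))

/-- is zero -/
def iz (x : ℤ) : Bool :=
  @Int.rec (fun _ => Bool) (fun n => Nat.beq n (nat_lit 0)) (fun _ => false) x

lemma iz_eq {x : ℤ} (h : iz x = true) : x = 0 := by
  cases x with
  | ofNat n =>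
    have h1 : n = 0 := Nat.eq_of_beq_eq_true h
    rw [h1]
    rfl
  | negSucc n =>
    have : (false : Bool) = true := h
    simp at this

/-- the check of a triangle -/
def triQ (al be ga mu : ℤ) (a b c : ℤ × ℤ) : Bool :=
  an (ori a b c) (oor (an (iz ga) (tri2 al be mu a b c)) (tri4 (toM ga) al be mu a b c))

section
variable {al be ga mu : ℤ} {a b c : ℤ × ℤ}

lemma bl_pF (p q r s : ℤ × ℤ) : bl al be ga mu p q r s =
    1000000 * (pF al be mu p q + pF al be mu p r + pF al be mu p s + pF al be mu q r +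
      pF al be mu q s + pF al be mu r s) -
      2 * ga * (pZ p q * pZ r s + pZ p r * pZ q s + pZ p s * pZ q r) := by
  simp only [pF, pX, pY, pZ, bl]
  ring

lemma triOK_of (h0 : 0 < (b.1 - a.1) * (c.2 - a.2) - (b.2 - a.2) * (c.1 - a.1))
    (h : ∀ p q r s : ℤ × ℤ, (p, q, r, s) ∈ [(a, a, a, a), (a, a, a, b), (a, a, a, c), (a, a, b, b),
      (a, a, b, c), (a, a, c, c), (a, b, b, b), (a, b, b, c), (a, b, c, c), (a, c, c, c), (b, b, b, b),
      (b, b, b, c), (b, b, c, c), (b, c, c, c), (c, c, c, c)] → 0 ≤ bl al be ga mu p q r s) :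
    triOK al be ga mu a b c = true := by
  simp only [triOK, Bool.and_eq_true, decide_eq_true_eq]
  refine ⟨⟨⟨⟨⟨⟨⟨⟨⟨⟨⟨⟨⟨⟨⟨h0, ?_⟩, ?_⟩, ?_⟩, ?_⟩, ?_⟩, ?_⟩, ?_⟩, ?_⟩, ?_⟩, ?_⟩, ?_⟩, ?_⟩, ?_⟩, ?_⟩, ?_⟩ <;>
    exact h _ _ _ _ (by simp)

theorem triQ_ok (h1 : sz (nat_lit 17592186044416) al = true) (h2 : sz (nat_lit 17592186044416) be = true)
    (h2' : sz (nat_lit 17592186044416) ga = true) (h3 : sz (nat_lit 17592186044416) mu = true)
    (ha : vz a = true) (hb : vz b = true) (hc : vz c = true)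
    (h : triQ al be ga mu a b c = true) : triOK al be ga mu a b c = true := by
  obtain ⟨h4, h5⟩ := an_iff h
  have h0 := ori_ok ha hb hc h4
  have qaa := eF_rp ha ha h1 h2 h3
  have qab := eF_rp ha hb h1 h2 h3
  have qac := eF_rp ha hc h1 h2 h3
  have qbb := eF_rp hb hb h1 h2 h3
  have qbc := eF_rp hb hc h1 h2 h3
  have qcc := eF_rp hc hc h1 h2 h3
  rcases oor_iff h5 with h6 | h6
  · obtain ⟨h7, h8⟩ := an_iff h6
    have h9 := iz_eq h7
    subst h9
    obtain ⟨k1, h8⟩ := an_iff h8
    obtain ⟨k2, h8⟩ := an_iff h8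
    obtain ⟨k3, h8⟩ := an_iff h8
    obtain ⟨k4, h8⟩ := an_iff h8
    obtain ⟨k5, k6⟩ := an_iff h8
    have k1 := ge0_le qaa (by norm_num) k1
    have k2 := ge0_le qab (by norm_num) k2
    have k3 := ge0_le qac (by norm_num) k3
    have k4 := ge0_le qbb (by norm_num) k4
    have k5 := ge0_le qbc (by norm_num) k5
    have k6 := ge0_le qcc (by norm_num) k6
    refine triOK_of h0 ?_
    intro p q r s hm
    rw [bl_pF]
    simp only [List.mem_cons, Prod.mk.injEq, List.not_mem_nil, or_false] at hm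
    rcases hm with h | h | h | h | h | h | h | h | h | h | h | h | h | h | h <;>
      (obtain ⟨rfl, rfl, rfl, rfl⟩ := h; linarith)
  · have zaa := eZ_rp ha ha
    have zab := eZ_rp ha hb
    have zac := eZ_rp ha hc
    have zbb := eZ_rp hb hb
    have zbc := eZ_rp hb hc
    have zcc := eZ_rp hc hc
    have hg := toM_rp h2' (by norm_num : (17592186044416 : ℕ) ≤ 115792089237316195423570985008687907853269984665640564039457584007913129639936)
    unfold tri4 at h6
    obtain ⟨k1, h6⟩ := an_iff h6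
    obtain ⟨k2, h6⟩ := an_iff h6
    obtain ⟨k3, h6⟩ := an_iff h6
    obtain ⟨k4, h6⟩ := an_iff h6
    obtain ⟨k5, h6⟩ := an_iff h6
    obtain ⟨k6, h6⟩ := an_iff h6
    obtain ⟨k7, h6⟩ := an_iff h6
    obtain ⟨k8, h6⟩ := an_iff h6
    obtain ⟨k9, h6⟩ := an_iff h6
    obtain ⟨k10, h6⟩ := an_iff h6
    obtain ⟨k11, h6⟩ := an_iff h6
    obtain ⟨k12, h6⟩ := an_iff h6
    obtain ⟨k13, h6⟩ := an_iff h6
    obtain ⟨k14, k15⟩ := an_iff h6
    have k1 := c1_le hg qaa zaa k1
    have k2 := c1_le hg qbb zbb k2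
    have k3 := c1_le hg qcc zcc k3
    have k4 := c2_le hg qaa qab zaa zab k4
    have k5 := c2_le hg qaa qac zaa zac k5
    have k6 := c2_le hg qbb qab zbb zab k6
    have k7 := c2_le hg qbb qbc zbb zbc k7
    have k8 := c2_le hg qcc qac zcc zac k8
    have k9 := c2_le hg qcc qbc zcc zbc k9
    have k10 := c3_le hg qaa qbb qab zaa zbb zab k10
    have k11 := c3_le hg qaa qcc qac zaa zcc zac k11
    have k12 := c3_le hg qbb qcc qbc zbb zcc zbc k12
    have k13 := c4_le hg qaa qbc qab qac zaa zbc zab zac k13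
    have k14 := c4_le hg qbb qac qab qbc zbb zac zab zbc k14
    have k15 := c4_le hg qcc qab qac qbc zcc zab zac zbc k15
    refine triOK_of h0 ?_
    intro p q r s hm
    rw [bl_pF]
    simp only [List.mem_cons, Prod.mk.injEq, List.not_mem_nil, or_false] at hm
    rcases hm with h | h | h | h | h | h | h | h | h | h | h | h | h | h | h <;>
      (obtain ⟨rfl, rfl, rfl, rfl⟩ := h
       generalize e1 : pF al be mu _ _ = f1 at *
       linarith)

end

/-- the triangles of the fan -/
def fanQ (al be ga mu : ℤ) (a : ℤ × ℤ) (l : List (ℤ × ℤ)) : ℤ × ℤ → Bool :=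
  @List.rec (ℤ × ℤ) (fun _ => ℤ × ℤ → Bool) (fun _ => true)
    (fun c _ ih b => an (triQ al be ga mu a b c) (ih c)) l

/-- the size of the vertices -/
def vzs (l : List (ℤ × ℤ)) : Bool :=
  @List.rec (ℤ × ℤ) (fun _ => Bool) true (fun c _ ih => an (vz c) ih) l

/-- the size of the coefficients -/
def cz (al be ga mu : ℤ) : Bool :=
  an (sz (nat_lit 17592186044416) al) (an (sz (nat_lit 17592186044416) be)
    (an (sz (nat_lit 17592186044416) ga) (sz (nat_lit 17592186044416) mu)))

lemma cz_iff {al be ga mu : ℤ} (h : cz al be ga mu = true) : sz (nat_lit 17592186044416) al = true ∧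
    sz (nat_lit 17592186044416) be = true ∧ sz (nat_lit 17592186044416) ga = true ∧
    sz (nat_lit 17592186044416) mu = true := by
  unfold cz at h
  obtain ⟨z1, z⟩ := an_iff h
  obtain ⟨z2, z⟩ := an_iff z
  obtain ⟨z3, z4⟩ := an_iff z
  exact ⟨z1, z2, z3, z4⟩

lemma vzs_cons {c : ℤ × ℤ} {l : List (ℤ × ℤ)} : vzs (c :: l) = an (vz c) (vzs l) := rfl

lemma fanQ_cons {al be ga mu : ℤ} {a b c : ℤ × ℤ} {l : List (ℤ × ℤ)} :
    fanQ al be ga mu a (c :: l) b = an (triQ al be ga mu a b c) (fanQ al be ga mu a l c) := rfl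

lemma fanQ_ok {al be ga mu : ℤ} (hz : cz al be ga mu = true) {a : ℤ × ℤ} (ha : vz a = true)
    (l : List (ℤ × ℤ)) : ∀ b : ℤ × ℤ, vzs l = true → vz b = true →
    fanQ al be ga mu a l b = true → fanOK al be ga mu a (b :: l) = true := by
  obtain ⟨z1, z2, z3, z4⟩ := cz_iff hz
  clear hz
  induction l with
  | nil =>
    intro b _ _ _
    rw [fanOK]
    simp
  | cons c l ih =>
    intro b hl hb h
    rw [fanQ_cons] at h
    rw [vzs_cons] at hl
    obtain ⟨h2, h3⟩ := an_iff h
    obtain ⟨h4, h5⟩ := an_iff hl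
    have h6 := ih c h5 h4 h3
    have h7 := triQ_ok z1 z2 z3 z4 ha hb h4 h2
    rw [fanOK, h7, h6]
    rfl

lemma polyQ_nil {al be ga mu : ℤ} {V : List (ℤ × ℤ)} (h : (@List.rec (ℤ × ℤ) (fun _ => Bool) false (fun a l _ => @List.rec (ℤ × ℤ) (fun _ => Bool) false
    (fun b l' _ => @List.rec (ℤ × ℤ) (fun _ => Bool) false
      (fun c l'' _ => fanQ al be ga mu a (c :: l'') b) l') l) V) = true) :
    ∃ a b c l, V = a :: b :: c :: l ∧ fanQ al be ga mu a (c :: l) b = true := by
  rcases V with _ | ⟨a, _ | ⟨b, _ | ⟨c, l⟩⟩⟩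
  · exact absurd h Bool.false_ne_true
  · exact absurd h Bool.false_ne_true
  · exact absurd h Bool.false_ne_true
  · exact ⟨a, b, c, l, rfl, h⟩

/-- the check of a polygon -/
def polyQ (al be ga mu : ℤ) (V : List (ℤ × ℤ)) : Bool :=
  an (vzs V) (an (cz al be ga mu)
  (@List.rec (ℤ × ℤ) (fun _ => Bool) false (fun a l _ => @List.rec (ℤ × ℤ) (fun _ => Bool) false
    (fun b l' _ => @List.rec (ℤ × ℤ) (fun _ => Bool) false
      (fun c l'' _ => fanQ al be ga mu a (c :: l'') b) l') l) V))

lemma polyQ_iff {al be ga mu : ℤ} {V : List (ℤ × ℤ)} (h : polyQ al be ga mu V = true) :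
    vzs V = true ∧ cz al be ga mu = true ∧
    (@List.rec (ℤ × ℤ) (fun _ => Bool) false (fun a l _ => @List.rec (ℤ × ℤ) (fun _ => Bool) false
    (fun b l' _ => @List.rec (ℤ × ℤ) (fun _ => Bool) false
      (fun c l'' _ => fanQ al be ga mu a (c :: l'') b) l') l) V) = true := by
  unfold polyQ at h
  obtain ⟨h1, h2⟩ := an_iff h
  obtain ⟨h3, h4⟩ := an_iff h2
  exact ⟨h1, h3, h4⟩

theorem polyQ_ok {al be ga mu : ℤ} {V : List (ℤ × ℤ)} (h : polyQ al be ga mu V = true) :
    polyOK al be ga mu V = true := by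
  obtain ⟨h1, h3, h4⟩ := polyQ_iff h
  obtain ⟨a, b, c, l, rfl, h5⟩ := polyQ_nil h4
  rw [vzs_cons] at h1
  obtain ⟨h6, h7⟩ := an_iff h1
  rw [vzs_cons] at h7
  obtain ⟨h8, h9⟩ := an_iff h7
  exact fanQ_ok h3 h6 (c :: l) b h9 h8 h5

end

end Pool.Agent.Work.MP_b30479_gt.G2.SQ
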