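import Pool.Agent.Work.MP_b30479_gt.G2.WAdj

/-!
# Further location facts: the heights at two adjacent digits `±1`
-/

namespace Pool.Agent.Work.MP_b30479_gt.G2

namespace SR

/-- windows for the heights at a pair of adjacent digits `1`: `T` of the hinge between them and `k`
of the outer hinge of the own digit, both in the frame of the own digit, and `q` of the outer hinge
of the other digit, in the frame of the other digit -/
structure Win6 where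
  t0 : ℝ
  t1 : ℝ
  k0 : ℝ
  k1 : ℝ
  q0 : ℝ
  q1 : ℝ
  a0 : ℝ
  a1 : ℝ
  b0 : ℝ
  b1 : ℝ
  c0 : ℝ
  c1 : ℝ

/-- the heights are in the windows -/
structure Win6.In (W : Win6) (T k q : ℝ) : Prop where
  t0 : W.t0 ≤ T
  t1 : T ≤ W.t1
  k0 : W.k0 ≤ k
  k1 : k ≤ W.k1
  q0 : W.q0 ≤ q
  q1 : q ≤ W.q1
  a0 : W.a0 ≤ T + k
  a1 : T + k ≤ W.a1
  b0 : W.b0 ≤ -T + q
  b1 : -T + q ≤ W.b1
  c0 : W.c0 ≤ k + q
  c1 : k + q ≤ W.c1

/-- the windows of a pair of digits `1` whose outer neighbours have the classes `P` (next to the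
own digit) and `Q` -/
noncomputable def pcw (P Q : Cl) : Win6 :=
  match P, Q with
  | .one, .one => ⟨-(53 / 1000), 53 / 1000, -(69 / 1000), 52 / 1000, -(69 / 1000), 52 / 1000, -(65 / 1000), 76 / 1000, -(65 / 1000), 76 / 1000, -(115 / 1000), 63 / 1000⟩
  | .one, .two => ⟨-(62 / 1000), 29 / 1000, -(74 / 1000), 40 / 1000, -(3 / 1000), 78 / 1000, -(78 / 1000), 44 / 1000, -(5 / 1000), 110 / 1000, -(62 / 1000), 84 / 1000⟩
  | .one, .twoE => ⟨-(82 / 1000), -(19 / 1000), -(51 / 1000), 53 / 1000, -(61 / 1000), -(17 / 1000), -(92 / 1000), 9 / 1000, -(22 / 1000), 53 / 1000, -(106 / 1000), 12 / 1000⟩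
  | .one, .three => ⟨-(50 / 1000), 16 / 1000, -(69 / 1000), 32 / 1000, 39 / 1000, 85 / 1000, -(67 / 1000), 32 / 1000, 42 / 1000, 127 / 1000, -(35 / 1000), 96 / 1000⟩
  | .one, .threeE => ⟨-(74 / 1000), -(1 / 1000), -(67 / 1000), 37 / 1000, 16 / 1000, 60 / 1000, -(91 / 1000), 11 / 1000, 36 / 1000, 117 / 1000, -(45 / 1000), 73 / 1000⟩
  | .one, .ring => ⟨-(61 / 1000), 43 / 1000, -(89 / 1000), 29 / 1000, 56 / 1000, 131 / 1000, -(82 / 1000), 33 / 1000, 57 / 1000, 144 / 1000, -(22 / 1000), 118 / 1000⟩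
  | .two, .one => ⟨-(29 / 1000), 62 / 1000, -(3 / 1000), 78 / 1000, -(74 / 1000), 40 / 1000, -(5 / 1000), 110 / 1000, -(78 / 1000), 44 / 1000, -(62 / 1000), 84 / 1000⟩
  | .two, .two => ⟨-(35 / 1000), 35 / 1000, -(9 / 1000), 66 / 1000, -(9 / 1000), 66 / 1000, -(19 / 1000), 76 / 1000, -(19 / 1000), 76 / 1000, -(5 / 1000), 105 / 1000⟩
  | .two, .twoE => ⟨-(66 / 1000), -(16 / 1000), 12 / 1000, 78 / 1000, -(66 / 1000), -(27 / 1000), -(36 / 1000), 37 / 1000, -(33 / 1000), 27 / 1000, -(53 / 1000), 32 / 1000⟩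
  | .two, .three => ⟨-(30 / 1000), 31 / 1000, -(6 / 1000), 59 / 1000, 25 / 1000, 80 / 1000, -(21 / 1000), 64 / 1000, 12 / 1000, 91 / 1000, 19 / 1000, 115 / 1000⟩
  | .two, .threeE => ⟨-(48 / 1000), 4 / 1000, -(4 / 1000), 63 / 1000, 10 / 1000, 49 / 1000, -(33 / 1000), 41 / 1000, 22 / 1000, 86 / 1000, 7 / 1000, 93 / 1000⟩
  | .two, .ring => ⟨-(32 / 1000), 53 / 1000, -(23 / 1000), 55 / 1000, 49 / 1000, 118 / 1000, -(22 / 1000), 68 / 1000, 41 / 1000, 102 / 1000, 31 / 1000, 140 / 1000⟩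
  | .twoE, .one => ⟨19 / 1000, 82 / 1000, -(61 / 1000), -(17 / 1000), -(51 / 1000), 53 / 1000, -(22 / 1000), 53 / 1000, -(92 / 1000), 9 / 1000, -(106 / 1000), 12 / 1000⟩
  | .twoE, .two => ⟨16 / 1000, 66 / 1000, -(66 / 1000), -(27 / 1000), 12 / 1000, 78 / 1000, -(33 / 1000), 27 / 1000, -(36 / 1000), 37 / 1000, -(53 / 1000), 32 / 1000⟩
  | .twoE, .twoE => ⟨-(16 / 1000), 16 / 1000, -(46 / 1000), -(14 / 1000), -(46 / 1000), -(14 / 1000), -(38 / 1000), -(8 / 1000), -(38 / 1000), -(8 / 1000), -(99 / 1000), -(41 / 1000)⟩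
  | .twoE, .three => ⟨32 / 1000, 55 / 1000, -(60 / 1000), -(33 / 1000), 44 / 1000, 85 / 1000, -(18 / 1000), 19 / 1000, 7 / 1000, 51 / 1000, -(27 / 1000), 44 / 1000⟩
  | .twoE, .threeE => ⟨6 / 1000, 38 / 1000, -(61 / 1000), -(29 / 1000), 29 / 1000, 61 / 1000, -(38 / 1000), 0 / 1000, 0 / 1000, 44 / 1000, -(38 / 1000), 20 / 1000⟩
  | .twoE, .ring => ⟨23 / 1000, 77 / 1000, -(71 / 1000), -(36 / 1000), 68 / 1000, 128 / 1000, -(31 / 1000), 25 / 1000, 21 / 1000, 69 / 1000, -(14 / 1000), 67 / 1000⟩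
  | .three, .one => ⟨-(16 / 1000), 50 / 1000, 39 / 1000, 85 / 1000, -(69 / 1000), 32 / 1000, 42 / 1000, 127 / 1000, -(67 / 1000), 32 / 1000, -(35 / 1000), 96 / 1000⟩
  | .three, .two => ⟨-(31 / 1000), 30 / 1000, 25 / 1000, 80 / 1000, -(6 / 1000), 59 / 1000, 12 / 1000, 91 / 1000, -(21 / 1000), 64 / 1000, 19 / 1000, 115 / 1000⟩
  | .three, .twoE => ⟨-(55 / 1000), -(32 / 1000), 44 / 1000, 85 / 1000, -(60 / 1000), -(33 / 1000), 7 / 1000, 51 / 1000, -(18 / 1000), 19 / 1000, -(27 / 1000), 44 / 1000⟩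
  | .three, .three => ⟨-(24 / 1000), 24 / 1000, 22 / 1000, 74 / 1000, 22 / 1000, 74 / 1000, 11 / 1000, 79 / 1000, 11 / 1000, 79 / 1000, 45 / 1000, 125 / 1000⟩
  | .three, .threeE => ⟨-(36 / 1000), -(4 / 1000), 29 / 1000, 77 / 1000, 7 / 1000, 43 / 1000, 11 / 1000, 56 / 1000, 23 / 1000, 76 / 1000, 34 / 1000, 104 / 1000⟩
  | .three, .ring => ⟨-(27 / 1000), 40 / 1000, 18 / 1000, 70 / 1000, 39 / 1000, 110 / 1000, 11 / 1000, 85 / 1000, 31 / 1000, 98 / 1000, 58 / 1000, 151 / 1000⟩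
  | .threeE, .one => ⟨1 / 1000, 74 / 1000, 16 / 1000, 60 / 1000, -(67 / 1000), 37 / 1000, 36 / 1000, 117 / 1000, -(91 / 1000), 11 / 1000, -(45 / 1000), 73 / 1000⟩
  | .threeE, .two => ⟨-(4 / 1000), 48 / 1000, 10 / 1000, 49 / 1000, -(4 / 1000), 63 / 1000, 22 / 1000, 86 / 1000, -(33 / 1000), 41 / 1000, 7 / 1000, 93 / 1000⟩
  | .threeE, .twoE => ⟨-(38 / 1000), -(6 / 1000), 29 / 1000, 61 / 1000, -(61 / 1000), -(29 / 1000), 0 / 1000, 44 / 1000, -(38 / 1000), 0 / 1000, -(38 / 1000), 20 / 1000⟩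
  | .threeE, .three => ⟨4 / 1000, 36 / 1000, 7 / 1000, 43 / 1000, 29 / 1000, 77 / 1000, 23 / 1000, 76 / 1000, 11 / 1000, 56 / 1000, 34 / 1000, 104 / 1000⟩
  | .threeE, .threeE => ⟨-(16 / 1000), 16 / 1000, 14 / 1000, 46 / 1000, 14 / 1000, 46 / 1000, 8 / 1000, 52 / 1000, 8 / 1000, 52 / 1000, 23 / 1000, 81 / 1000⟩
  | .threeE, .ring => ⟨2 / 1000, 65 / 1000, -(2 / 1000), 39 / 1000, 45 / 1000, 109 / 1000, 23 / 1000, 81 / 1000, 25 / 1000, 70 / 1000, 46 / 1000, 124 / 1000⟩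
  | .ring, .one => ⟨-(43 / 1000), 61 / 1000, 56 / 1000, 131 / 1000, -(89 / 1000), 29 / 1000, 57 / 1000, 144 / 1000, -(82 / 1000), 33 / 1000, -(22 / 1000), 118 / 1000⟩
  | .ring, .two => ⟨-(53 / 1000), 32 / 1000, 49 / 1000, 118 / 1000, -(23 / 1000), 55 / 1000, 41 / 1000, 102 / 1000, -(22 / 1000), 68 / 1000, 31 / 1000, 140 / 1000⟩
  | .ring, .twoE => ⟨-(77 / 1000), -(23 / 1000), 68 / 1000, 128 / 1000, -(71 / 1000), -(36 / 1000), 21 / 1000, 69 / 1000, -(31 / 1000), 25 / 1000, -(14 / 1000), 67 / 1000⟩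
  | .ring, .three => ⟨-(40 / 1000), 27 / 1000, 39 / 1000, 110 / 1000, 18 / 1000, 70 / 1000, 31 / 1000, 98 / 1000, 11 / 1000, 85 / 1000, 58 / 1000, 151 / 1000⟩
  | .ring, .threeE => ⟨-(65 / 1000), -(2 / 1000), 45 / 1000, 109 / 1000, -(2 / 1000), 39 / 1000, 25 / 1000, 70 / 1000, 23 / 1000, 81 / 1000, 46 / 1000, 124 / 1000⟩
  | .ring, .ring => ⟨-(44 / 1000), 44 / 1000, 35 / 1000, 106 / 1000, 35 / 1000, 106 / 1000, 25 / 1000, 101 / 1000, 25 / 1000, 101 / 1000, 70 / 1000, 176 / 1000⟩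

/-- upper bound of `k + q` at `R 1 1 | 1 Q` -/
noncomputable def kcw (R Q : Cl) : ℝ :=
  match R, Q with
  | .twoE, .ring => 52 / 1000
  | .threeE, .ring => 67 / 1000
  | .two, .ring => 91 / 1000
  | .ring, .ring => 105 / 1000
  | _, Q => (pcw .one Q).c1

/-- the windows seen from the other digit -/
noncomputable def Win6.swap (W : Win6) : Win6 :=
  ⟨-W.t1, -W.t0, W.q0, W.q1, W.k0, W.k1, W.b0, W.b1, W.a0, W.a1, W.c0, W.c1⟩

theorem pcw_swap (P Q : Cl) : pcw Q P = (pcw P Q).swap := by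
  cases P <;> cases Q <;> simp only [pcw, Win6.swap, neg_neg]

/-- the windows seen from the other digit -/
theorem pcw_symm {P Q : Cl} {T k q : ℝ} (h : (pcw P Q).In T k q) : (pcw Q P).In (-T) q k := by
  rw [pcw_swap P Q]
  obtain ⟨h1, h2, h3, h4, h5, h6, h7, h8, h9, h10, h11, h12⟩ := h
  refine ⟨neg_le_neg h2, neg_le_neg h1, h5, h6, h3, h4, h9, h10, ?_, ?_, ?_, ?_⟩
  · show (pcw P Q).a0 ≤ - -T + k
    linarith
  · show - -T + k ≤ (pcw P Q).a1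
    linarith
  · show (pcw P Q).c0 ≤ q + k
    linarith
  · show q + k ≤ (pcw P Q).c1
    linarith

variable {M : ℕ}

/-- **Location facts at pairs of digits `±1`.** -/
structure LocP (b : Fin (M + 1) → ℤ) (zs : DD (tyW b) ⊕ ZZ (tyW b) → ℂ) : Prop where
  /-- the hinge `h` is between the digits `i` and `j`, both `±1`; the outer hinges are `h'` (between
  `i` and `k`) and `h''` (between `j` and `l`) -/
  pair : ∀ {h h' h'' : Fin M} {i j k l : Fin (M + 1)} {p : Fin 3}, Adj h i p j →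
    Adj h' i p.rev k → Adj h'' j p l → clsW b i = .one → clsW b j = .one →
    (pcw (clsW b k) (clsW b l)).In (ofs (b i) (zs (.inl (.inl h))).im)
      (ofs (b i) (zs (.inl (.inl h'))).im) (ofs (b j) (zs (.inl (.inl h''))).im)
  /-- exactly three digits `±1` in a row, between the classes of `m` and of `l` -/
  three : ∀ {h h' h'' h3 : Fin M} {i j k l m : Fin (M + 1)} {p : Fin 3}, Adj h i p j →
    Adj h' i p.rev k → Adj h'' j p l → Adj h3 k p.rev m → clsW b i = .one → clsW b j = .one →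
    clsW b k = .one → clsW b l ≠ .one → clsW b m ≠ .one →
    ofs (b i) (zs (.inl (.inl h'))).im + ofs (b j) (zs (.inl (.inl h''))).im ≤
      kcw (clsW b m) (clsW b l)

end SR

end Pool.Agent.Work.MP_b30479_gt.G2
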