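import Mathlib

/-!
# A continuation principle

`F θ z` on `[0, 1] × K`, `K` compact, no zero on the boundary of `K`, invertible derivative at every
zero, a zero at `θ = 0`: then there is a zero for every `θ`.
-/

namespace Pool.Agent.Work.MP_b30479_gt.G2

open Set Metric Filter Topology

variable {E : Type*} [NormedAddCommGroup E] [NormedSpace ℂ E] [CompleteSpace E]

/-- local continuation: zeros persist under small changes of the parameter -/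
theorem cont_near {I : Set ℝ} {U : Set E} (hU : IsOpen U) {F : ℝ → E → E} {F' : ℝ → E → E →L[ℂ] E}
    (hc : ContinuousOn (fun p : ℝ × E => F p.1 p.2) (I ×ˢ U))
    (hd : ∀ θ ∈ I, ∀ z ∈ U, HasFDerivAt (F θ) (F' θ z) z)
    (hc' : ContinuousOn (fun p : ℝ × E => F' p.1 p.2) (I ×ˢ U))
    {θ₀ : ℝ} (hθ : θ₀ ∈ I) {z₀ : E} (hz : z₀ ∈ U) (h0 : F θ₀ z₀ = 0) (e : E ≃L[ℂ] E)
    (he : (e : E →L[ℂ] E) = F' θ₀ z₀) :
    ∀ᶠ θ in 𝓝[I] θ₀, ∃ z ∈ U, F θ z = 0 := by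
  let _ : NormedSpace ℝ E := NormedSpace.restrictScalars ℝ ℂ E
  set s := e.toNonlinearRightInverse with hs
  set M : ℝ := (s.nnnorm : ℝ) + 1 with hM
  have hM0 : 0 < M := by positivity
  have hMi : M⁻¹ ≤ (s.nnnorm : ℝ)⁻¹ ∨ (s.nnnorm : ℝ) = 0 := by
    rcases eq_or_lt_of_le (NNReal.coe_nonneg s.nnnorm) with h | h
    · exact Or.inr h.symm
    · exact Or.inl (by gcongr; linarith)
  -- the derivative is close to `e` near `(θ₀, z₀)`
  have h1 : ∀ᶠ p in 𝓝[I ×ˢ U] (θ₀, z₀), ‖F' p.1 p.2 - (e : E →L[ℂ] E)‖ ≤ (2 * M)⁻¹ := by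
    have h2 := tendsto_iff_norm_sub_tendsto_zero.1 (hc' (θ₀, z₀) ⟨hθ, hz⟩)
    filter_upwards [h2.eventually_le_const (u := (2 * M)⁻¹) (by positivity)] with p hp
    rw [he]; exact hp
  rw [nhdsWithin_prod_eq, hU.nhdsWithin_eq hz, Filter.Eventually, Filter.mem_prod_iff] at h1
  obtain ⟨A, hA, B, hB, hAB⟩ := h1
  obtain ⟨r, hr, hrB⟩ := Metric.nhds_basis_closedBall.mem_iff.1 (Filter.inter_mem hB (hU.mem_nhds hz))
  have h3 : ∀ᶠ θ in 𝓝[I] θ₀, ‖F θ z₀‖ ≤ (2 * M)⁻¹ * r := by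
    have : ContinuousWithinAt (fun θ => F θ z₀) I θ₀ := by
      have hf : ContinuousWithinAt (fun θ : ℝ => ((θ, z₀) : ℝ × E)) I θ₀ :=
        (continuous_id.prodMk continuous_const).continuousWithinAt
      exact (hc (θ₀, z₀) ⟨hθ, hz⟩).comp (f := fun θ : ℝ => ((θ, z₀) : ℝ × E)) hf fun θ h => ⟨h, hz⟩
    have h4 := this.norm
    rw [ContinuousWithinAt, h0, norm_zero] at h4
    exact h4.eventually_le_const (by positivity)
  filter_upwards [h3, hA, self_mem_nhdsWithin] with θ hθ1 hθA hθI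
  have happ : ApproximatesLinearOn (F θ) (e : E →L[ℂ] E) (closedBall z₀ r)
      ⟨(2 * M)⁻¹, by positivity⟩ := by
    intro x hx y hy
    exact (convex_closedBall z₀ r).norm_image_sub_le_of_norm_hasFDerivWithin_le'
      (fun w hw => (hd θ hθI w (hrB hw).2).hasFDerivWithinAt)
      (fun w hw => hAB (show ((θ, w) : ℝ × E) ∈ A ×ˢ B from ⟨hθA, (hrB hw).1⟩)) hy hx
  have hsurj := happ.surjOn_closedBall_of_nonlinearRightInverse s hr.le Subset.rfl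
  have h0m : (0 : E) ∈ closedBall (F θ z₀)
      (((s.nnnorm : ℝ)⁻¹ - (⟨(2 * M)⁻¹, by positivity⟩ : NNReal)) * r) ∨ s.nnnorm = 0 := by
    rcases hMi with h | h
    · left
      rw [mem_closedBall, dist_eq_norm, zero_sub, norm_neg]
      refine hθ1.trans ?_
      gcongr
      change (2 * M)⁻¹ ≤ (s.nnnorm : ℝ)⁻¹ - (2 * M)⁻¹
      have : (2 * M)⁻¹ + (2 * M)⁻¹ = M⁻¹ := by field_simp; norm_num
      linarith
    · right; exact_mod_cast h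
  rcases h0m with h | h
  · obtain ⟨z, hz1, hz2⟩ := hsurj h
    exact ⟨z, (hrB hz1).2, hz2⟩
  · -- the right inverse is zero: `E` is trivial
    have hall : ∀ x : E, x = 0 := fun x => by
      have h5 := s.bound (e x)
      rw [h] at h5
      have h6 : s (e x) = x := e.symm_apply_apply x
      rw [h6] at h5
      simpa using h5
    exact ⟨z₀, hz, hall _⟩

/-- the continuation principle -/
theorem continuation {K : Set E} (hK : IsCompact K) {F : ℝ → E → E} {F' : ℝ → E → E →L[ℂ] E}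
    (hc : ContinuousOn (fun p : ℝ × E => F p.1 p.2) (Icc (0 : ℝ) 1 ×ˢ K))
    (hd : ∀ θ ∈ Icc (0 : ℝ) 1, ∀ z ∈ interior K, HasFDerivAt (F θ) (F' θ z) z)
    (hc' : ContinuousOn (fun p : ℝ × E => F' p.1 p.2) (Icc (0 : ℝ) 1 ×ˢ interior K))
    (hfr : ∀ θ ∈ Icc (0 : ℝ) 1, ∀ z ∈ K, F θ z = 0 → z ∈ interior K)
    (hinv : ∀ θ ∈ Icc (0 : ℝ) 1, ∀ z ∈ interior K, F θ z = 0 →
      ∃ e : E ≃L[ℂ] E, (e : E →L[ℂ] E) = F' θ z)
    (h0 : ∃ z ∈ K, F 0 z = 0) {θ : ℝ} (hθ : θ ∈ Icc (0 : ℝ) 1) : ∃ z ∈ interior K, F θ z = 0 := by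
  set S : Set ℝ := {θ | ∃ z ∈ K, F θ z = 0} with hS
  have hsub : Icc (0 : ℝ) 1 ⊆ S := by
    refine IsClosed.Icc_subset_of_forall_mem_nhdsWithin ?_ h0 ?_
    · -- closed
      have hcl : IsClosed ((Icc (0 : ℝ) 1 ×ˢ K) ∩ (fun p : ℝ × E => F p.1 p.2) ⁻¹' {0}) :=
        hc.preimage_isClosed_of_isClosed (isClosed_Icc.prod hK.isClosed) isClosed_singleton
      have hcp : IsCompact ((Icc (0 : ℝ) 1 ×ˢ K) ∩ (fun p : ℝ × E => F p.1 p.2) ⁻¹' {0}) :=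
        (isCompact_Icc.prod hK).of_isClosed_subset hcl Set.inter_subset_left
      have : S ∩ Icc 0 1 = Prod.fst '' ((Icc (0 : ℝ) 1 ×ˢ K) ∩
          (fun p : ℝ × E => F p.1 p.2) ⁻¹' {0}) := by
        ext t
        constructor
        · rintro ⟨⟨z, hz, hz0⟩, ht⟩
          exact ⟨(t, z), ⟨⟨ht, hz⟩, hz0⟩, rfl⟩
        · rintro ⟨⟨t', z⟩, ⟨⟨ht, hz⟩, hz0⟩, rfl⟩
          exact ⟨⟨z, hz, hz0⟩, ht⟩
      rw [this]
      exact (hcp.image continuous_fst).isClosed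
    · rintro t ⟨⟨z, hz, hz0⟩, ht⟩
      have htI : t ∈ Icc (0 : ℝ) 1 := ⟨ht.1, ht.2.le⟩
      have hzi := hfr t htI z hz hz0
      obtain ⟨e, he⟩ := hinv t htI z hzi hz0
      have := cont_near isOpen_interior (hc.mono (Set.prod_mono_right interior_subset)) hd hc'
        htI hzi hz0 e he
      have h2 : ∀ᶠ θ in 𝓝[>] t, ∃ z ∈ interior K, F θ z = 0 := by
        have hle : 𝓝[>] t ≤ 𝓝[Icc (0 : ℝ) 1] t := by
          rw [← nhdsWithin_Ioo_eq_nhdsGT ht.2]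
          exact nhdsWithin_mono _ fun x hx => ⟨ht.1.trans hx.1.le, hx.2.le⟩
        exact this.filter_mono hle
      filter_upwards [h2] with x hx
      obtain ⟨z, hz, hz0⟩ := hx
      exact ⟨z, interior_subset hz, hz0⟩
  obtain ⟨z, hz, hz0⟩ := hsub hθ
  exact ⟨z, hfr θ hθ z hz hz0, hz0⟩

/-- the continuation principle in `ι → ℂ` with a Jacobian matrix -/
theorem continuation_det {ι : Type*} [Fintype ι] [DecidableEq ι] {K : Set (ι → ℂ)}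
    (hK : IsCompact K) {F : ℝ → (ι → ℂ) → ι → ℂ} {J : ℝ → (ι → ℂ) → Matrix ι ι ℂ}
    (hc : ContinuousOn (fun p : ℝ × (ι → ℂ) => F p.1 p.2) (Icc (0 : ℝ) 1 ×ˢ K))
    (hd : ∀ θ ∈ Icc (0 : ℝ) 1, ∀ z ∈ interior K,
      HasFDerivAt (F θ) (LinearMap.toContinuousLinearMap (Matrix.toLin' (J θ z))) z)
    (hc' : ∀ i j, ContinuousOn (fun p : ℝ × (ι → ℂ) => J p.1 p.2 i j)
      (Icc (0 : ℝ) 1 ×ˢ interior K))
    (hfr : ∀ θ ∈ Icc (0 : ℝ) 1, ∀ z ∈ K, F θ z = 0 → z ∈ interior K)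
    (hdet : ∀ θ ∈ Icc (0 : ℝ) 1, ∀ z ∈ interior K, F θ z = 0 → (J θ z).det ≠ 0)
    (h0 : ∃ z ∈ K, F 0 z = 0) {θ : ℝ} (hθ : θ ∈ Icc (0 : ℝ) 1) : ∃ z ∈ interior K, F θ z = 0 := by
  refine continuation (F' := fun θ z => LinearMap.toContinuousLinearMap (Matrix.toLin' (J θ z)))
    hK hc hd ?_ hfr ?_ h0 hθ
  · have h1 : ContinuousOn (fun p : ℝ × (ι → ℂ) => J p.1 p.2) (Icc (0 : ℝ) 1 ×ˢ interior K) :=
      continuousOn_pi.2 fun i => continuousOn_pi.2 fun j => hc' i j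
    have h2 : Continuous fun A : Matrix ι ι ℂ =>
        (LinearMap.toContinuousLinearMap (Matrix.toLin' A) : (ι → ℂ) →L[ℂ] (ι → ℂ)) := by
      exact LinearMap.continuous_of_finiteDimensional
        ((LinearMap.toContinuousLinearMap (𝕜 := ℂ) (E := ι → ℂ) (F' := ι → ℂ)).toLinearMap ∘ₗ
          (Matrix.toLin' (R := ℂ) (m := ι) (n := ι)).toLinearMap)
    exact h2.comp_continuousOn h1
  · intro θ hθ z hz hz0
    have hu : IsUnit (J θ z).det := isUnit_iff_ne_zero.2 (hdet θ hθ z hz hz0)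
    refine ⟨LinearEquiv.toContinuousLinearEquiv (Matrix.toLinearEquiv' (J θ z)
      (Matrix.invertibleOfIsUnitDet _ hu)), ?_⟩
    ext x i
    rfl

/-- the continuation principle for a compact set `K` of pairs `(θ, z)` -/
theorem continuation_set {K : Set (ℝ × E)} (hK : IsCompact K)
    {F : ℝ × E → E} {F' : ℝ × E → E →L[ℂ] E} (hc : ContinuousOn F K)
    (hloc : ∀ p ∈ K, p.1 ∈ Icc (0 : ℝ) 1 → F p = 0 → ∃ U : Set (ℝ × E), IsOpen U ∧ p ∈ U ∧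
      (∀ q ∈ U, q.1 ∈ Icc (0 : ℝ) 1 → q ∈ K ∧ HasFDerivAt (fun z => F (q.1, z)) (F' q) q.2) ∧
      ContinuousOn F' (U ∩ {q | q.1 ∈ Icc (0 : ℝ) 1}) ∧
      ∃ e : E ≃L[ℂ] E, (e : E →L[ℂ] E) = F' p)
    (h0 : ∃ z, (0, z) ∈ K ∧ F (0, z) = 0) {θ : ℝ} (hθ : θ ∈ Icc (0 : ℝ) 1) :
    ∃ z, (θ, z) ∈ K ∧ F (θ, z) = 0 := by
  set S : Set ℝ := {θ | ∃ z, (θ, z) ∈ K ∧ F (θ, z) = 0} with hS
  have hsub : Icc (0 : ℝ) 1 ⊆ S := by
    refine IsClosed.Icc_subset_of_forall_mem_nhdsWithin ?_ h0 ?_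
    · have hcl : IsClosed (K ∩ F ⁻¹' {0}) :=
        hc.preimage_isClosed_of_isClosed hK.isClosed isClosed_singleton
      have hcp : IsCompact (K ∩ F ⁻¹' {0}) := hK.of_isClosed_subset hcl Set.inter_subset_left
      have : S = Prod.fst '' (K ∩ F ⁻¹' {0}) := by
        ext t
        constructor
        · rintro ⟨z, hz, hz0⟩
          exact ⟨(t, z), ⟨hz, hz0⟩, rfl⟩
        · rintro ⟨⟨t', z⟩, ⟨hz, hz0⟩, rfl⟩
          exact ⟨z, hz, hz0⟩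
      rw [this]
      exact (hcp.image continuous_fst).isClosed.inter isClosed_Icc
    · rintro t ⟨⟨z, hz, hz0⟩, ht⟩
      have htI : t ∈ Icc (0 : ℝ) 1 := ⟨ht.1, ht.2.le⟩
      obtain ⟨U, hU, hpU, hq, hcJ, e, he⟩ := hloc (t, z) hz htI hz0
      obtain ⟨A, B, hA, hB, htA, hzB, hAB⟩ := isOpen_prod_iff.1 hU t z hpU
      have key := cont_near (I := A ∩ Icc (0 : ℝ) 1) (U := B) hB (F := fun θ z => F (θ, z))
        (F' := fun θ z => F' (θ, z)) (θ₀ := t) (z₀ := z)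
        (hc.mono fun q hqm => (hq q (hAB ⟨hqm.1.1, hqm.2⟩) hqm.1.2).1)
        (fun θ hθ z hz => (hq (θ, z) (hAB ⟨hθ.1, hz⟩) hθ.2).2)
        (hcJ.mono fun q hqm => ⟨hAB ⟨hqm.1.1, hqm.2⟩, hqm.1.2⟩)
        ⟨htA, htI⟩ hzB hz0 e he
      have hle : 𝓝[>] t ≤ 𝓝[A ∩ Icc (0 : ℝ) 1] t := by
        rw [← nhdsWithin_Ioo_eq_nhdsGT ht.2]
        have h1 : Ioo t 1 ∩ A ⊆ A ∩ Icc (0 : ℝ) 1 := fun x hx =>
          ⟨hx.2, ht.1.trans hx.1.1.le, hx.1.2.le⟩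
        rw [← nhdsWithin_inter_of_mem' (mem_nhdsWithin_of_mem_nhds (hA.mem_nhds htA))]
        exact nhdsWithin_mono _ h1
      have h3 := key.filter_mono hle
      have h4 : ∀ᶠ x in 𝓝[>] t, x ∈ A ∩ Icc (0 : ℝ) 1 := by
        have : A ∩ Icc (0 : ℝ) 1 ∈ 𝓝[A ∩ Icc (0 : ℝ) 1] t := self_mem_nhdsWithin
        exact hle this
      filter_upwards [h3, h4] with x hx hxA
      obtain ⟨w, hw, hw0⟩ := hx
      exact ⟨w, (hq (x, w) (hAB ⟨hxA.1, hw⟩) hxA.2).1, hw0⟩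
  exact hsub hθ

/-- the continuation principle for a compact set of pairs `(θ, z)`, with a Jacobian matrix -/
theorem continuation_set_det {ι : Type*} [Fintype ι] [DecidableEq ι]
    {K : Set (ℝ × (ι → ℂ))} (hK : IsCompact K)
    {F : ℝ × (ι → ℂ) → ι → ℂ} {J : ℝ × (ι → ℂ) → Matrix ι ι ℂ} (hc : ContinuousOn F K)
    (hloc : ∀ p ∈ K, p.1 ∈ Icc (0 : ℝ) 1 → F p = 0 → ∃ U : Set (ℝ × (ι → ℂ)), IsOpen U ∧ p ∈ U ∧
      (∀ q ∈ U, q.1 ∈ Icc (0 : ℝ) 1 → q ∈ K ∧ HasFDerivAt (fun z => F (q.1, z))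
        (LinearMap.toContinuousLinearMap (Matrix.toLin' (J q))) q.2) ∧
      (∀ i j, ContinuousOn (fun q => J q i j) (U ∩ {q | q.1 ∈ Icc (0 : ℝ) 1})) ∧
      (J p).det ≠ 0)
    (h0 : ∃ z, (0, z) ∈ K ∧ F (0, z) = 0) {θ : ℝ} (hθ : θ ∈ Icc (0 : ℝ) 1) :
    ∃ z, (θ, z) ∈ K ∧ F (θ, z) = 0 := by
  refine continuation_set (F' := fun q => LinearMap.toContinuousLinearMap (Matrix.toLin' (J q)))
    hK hc ?_ h0 hθ
  intro p hp hp1 hp0
  obtain ⟨U, hU, hpU, hq, hcJ, hdet⟩ := hloc p hp hp1 hp0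
  refine ⟨U, hU, hpU, hq, ?_, ?_⟩
  · have h1 : ContinuousOn J (U ∩ {q | q.1 ∈ Icc (0 : ℝ) 1}) :=
      continuousOn_pi.2 fun i => continuousOn_pi.2 fun j => hcJ i j
    have h2 : Continuous fun A : Matrix ι ι ℂ =>
        (LinearMap.toContinuousLinearMap (Matrix.toLin' A) : (ι → ℂ) →L[ℂ] (ι → ℂ)) := by
      exact LinearMap.continuous_of_finiteDimensional
        ((LinearMap.toContinuousLinearMap (𝕜 := ℂ) (E := ι → ℂ) (F' := ι → ℂ)).toLinearMap ∘ₗ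
          (Matrix.toLin' (R := ℂ) (m := ι) (n := ι)).toLinearMap)
    exact h2.comp_continuousOn h1
  · have hu : IsUnit (J p).det := isUnit_iff_ne_zero.2 hdet
    refine ⟨LinearEquiv.toContinuousLinearEquiv (Matrix.toLinearEquiv' (J p)
      (Matrix.invertibleOfIsUnitDet _ hu)), ?_⟩
    ext x i
    rfl

end Pool.Agent.Work.MP_b30479_gt.G2
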