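import Pool.Agent.Work.MP_b30479_gt.G2.S1
import Pool.Agent.Work.MP_b30479_gt.G2.Homo

/-!
# Existence of a solution of the ring system
-/

namespace Pool.Agent.Work.MP_b30479_gt.G2

open Complex Set Filter Topology

lemma tan_re_nonneg {w : ℂ} (h0 : 0 ≤ w.re) (h1 : w.re ≤ 3 / 2) : 0 ≤ (Complex.tan w).re := by
  rcases h0.eq_or_lt with h | h
  · have hw : w = (w.im : ℂ) * I := by
      conv_lhs => rw [← Complex.re_add_im w, ← h]
      simp
    rw [hw, Complex.tan_mul_I, ← Complex.ofReal_tanh]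
    simp
  · exact (tan_re_pos h h1).le

section cont
variable {X : Type*} [TopologicalSpace X] {f g : X → ℂ} {x : X}

lemma continuousAt_ZZ0 (hf : ContinuousAt f x) (hg : ContinuousAt g x)
    (hc : Complex.cos (f x) ≠ 0) (hk : g x ≠ 0) : ContinuousAt (fun y => ZZ0 (f y) (g y)) x := by
  unfold ZZ0
  have h1 : ContinuousAt (fun y => Complex.tan (f y)) x := (continuousAt_tan.2 hc).comp hf
  exact (h1.pow 2).add ((hg.pow 2).inv₀ (pow_ne_zero 2 hk))

lemma continuousAt_RR_re (hf : ContinuousAt f x) (hg : ContinuousAt g x)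
    (hc : Complex.cos (f x) ≠ 0) (hk : g x ≠ 0) :
    ContinuousAt (fun y => (RR (f y) (g y)).re) x := by
  simp_rw [RR_re]
  have h := continuousAt_ZZ0 hf hg hc hk
  exact ((h.norm.add (Complex.continuous_re.continuousAt.comp h)).div_const 2).sqrt

lemma continuousAt_RR (hf : ContinuousAt f x) (hg : ContinuousAt g x)
    (hc : Complex.cos (f x) ≠ 0) (hk : g x ≠ 0) (hR : 0 < (RR (f x) (g x)).re) :
    ContinuousAt (fun y => RR (f y) (g y)) x := by
  unfold RR
  exact (continuousAt_ZZ0 hf hg hc hk).cpow continuousAt_const (ZZ0_slit hR)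

lemma continuousAt_QQ (hf : ContinuousAt f x) (hg : ContinuousAt g x) (h0 : 0 ≤ (f x).re)
    (h1 : (f x).re ≤ 3 / 2) (hc : Complex.cos (f x) ≠ 0) (hk : 0 < (g x).re)
    (hR : 0 < (RR (f x) (g x)).re) : ContinuousAt (fun y => QQ (f y) (g y)) x := by
  unfold QQ
  have hk0 : g x ≠ 0 := fun h => by rw [h] at hk; exact lt_irrefl _ hk
  have h2 : ContinuousAt (fun y => Complex.tan (f y)) x := (continuousAt_tan.2 hc).comp hf
  have hTR : Complex.tan (f x) + RR (f x) (g x) ∈ slitPlane := by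
    rw [Complex.mem_slitPlane_iff]
    left
    rw [Complex.add_re]
    exact add_pos_of_nonneg_of_pos (tan_re_nonneg h0 h1) hR
  refine ((h2.add (continuousAt_RR hf hg hc hk0 hR)).clog hTR).add (hg.clog ?_)
  rw [Complex.mem_slitPlane_iff]
  exact Or.inl hk

end cont

lemma kap_re_pos {θ : ℝ} (h0 : 0 ≤ θ) (h1 : θ ≤ 1) {w : ℂ} (h : 0 < (Complex.cos w).re) :
    0 < (kap θ w).re := by
  have e : (kap θ w).re = 1 - θ + θ * (Complex.cos w).re := by simp [kap]
  rw [e]
  rcases h0.eq_or_lt with h2 | h2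
  · rw [← h2]
    norm_num
  · have := mul_pos h2 h
    linarith

lemma norm_kap_ge {θ : ℝ} (h0 : 0 ≤ θ) (h1 : θ ≤ 1) {w : ℂ} (h : 0 < (Complex.cos w).re) :
    ‖θ * Complex.cos w‖ ≤ ‖kap θ w‖ := by
  rw [← sq_le_sq₀ (norm_nonneg _) (norm_nonneg _), ← Complex.normSq_eq_norm_sq,
    ← Complex.normSq_eq_norm_sq, Complex.normSq_apply, Complex.normSq_apply]
  have e1 : (kap θ w).re = 1 - θ + θ * (Complex.cos w).re := by simp [kap]
  have e2 : (kap θ w).im = θ * (Complex.cos w).im := by simp [kap]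
  have e3 : (θ * Complex.cos w).re = θ * (Complex.cos w).re := by simp
  have e4 : (θ * Complex.cos w).im = θ * (Complex.cos w).im := by simp
  rw [e1, e2, e3, e4]
  have h2 : 0 ≤ θ * (Complex.cos w).re := mul_nonneg h0 h.le
  nlinarith [mul_nonneg (sub_nonneg.2 h1) h2, sq_nonneg (1 - θ)]

lemma Star1_re_pos {K : Set ℂ} (hK : ∀ z ∈ K, 0 < z.re) {k : ℂ} (hk : k ∈ Star1 K) : 0 < k.re := by
  obtain ⟨θ, h0, h1, z, hz, rfl⟩ := hk
  have e : (1 - θ + θ * z : ℂ).re = 1 - θ + θ * z.re := by simp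
  rw [e]
  rcases h0.eq_or_lt with h2 | h2
  · rw [← h2]
    norm_num
  · have := mul_pos h2 (hK z hz)
    linarith

variable {ι : Type} [Fintype ι] [DecidableEq ι]

lemma continuous_kap : Continuous fun p : ℝ × ℂ => kap p.1 p.2 := by
  unfold kap
  fun_prop

/-- the determinant of the system does not vanish at good points -/
lemma JRing_det {nb : ι → Finset ι} (hnb : ∀ i, i ∉ nb i) {b s : ι → ℝ}
    (hs : ∀ i, s i = 1 ∨ s i = -1) {θ : ℝ} (h0 : 0 ≤ θ) (h1 : θ ≤ 1) {w : ι → ℂ}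
    (hw0 : ∀ i, 0 < (w i).re) (hw1 : ∀ i, (w i).re < 3 / 2)
    (hc : ∀ i, 0 < (Complex.cos (w i)).re)
    (hR : ∀ i, ∀ j ∈ nb i, 0 < (RR (w i) (kap θ (w j))).re)
    (hd : ∀ i, ∑ j ∈ nb i, ‖Complex.tan (w i) ^ 2 / RR (w i) (kap θ (w j))‖ <
      ‖(b i : ℂ) + I * s i * ∑ j ∈ nb i, 1 / (Complex.cos (w i) ^ 2 * RR (w i) (kap θ (w j)))‖) :
    (JRing nb b s θ w).det ≠ 0 := by
  have hT : ∀ i, Complex.tan (w i) ≠ 0 := fun i h => by
    have := tan_re_pos (hw0 i) (hw1 i).le
    rw [h] at this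
    exact lt_irrefl _ this
  set D : Matrix ι ι ℂ := Matrix.diagonal fun i => Complex.tan (w i)
  set D' : Matrix ι ι ℂ := Matrix.diagonal fun i => (Complex.tan (w i))⁻¹
  have hA : (D * JRing nb b s θ w * D').det ≠ 0 := by
    apply det_ne_zero_of_sum_row_lt_diag
    intro i
    have hent : ∀ j, (D * JRing nb b s θ w * D') i j =
        Complex.tan (w i) * JRing nb b s θ w i j * (Complex.tan (w j))⁻¹ := by
      intro j
      simp only [D, D', Matrix.mul_diagonal, Matrix.diagonal_mul]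
    have hdiag : (D * JRing nb b s θ w * D') i i =
        (b i : ℂ) + I * s i * ∑ j ∈ nb i, 1 / (Complex.cos (w i) ^ 2 * RR (w i) (kap θ (w j))) := by
      rw [hent]
      simp only [JRing, if_true, hnb i, if_false, add_zero]
      field_simp [hT i]
    rw [hdiag]
    refine lt_of_le_of_lt ?_ (hd i)
    have hoff : ∀ j ∈ Finset.univ.erase i, ‖(D * JRing nb b s θ w * D') i j‖ ≤
        if j ∈ nb i then ‖Complex.tan (w i) ^ 2 / RR (w i) (kap θ (w j))‖ else 0 := by
      intro j hj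
      have hji : j ≠ i := Finset.ne_of_mem_erase hj
      rw [hent]
      simp only [JRing, hji, if_false, zero_add]
      split_ifs with hjn
      · have hk := kap_re_pos h0 h1 (hc j)
        have hk0 : kap θ (w j) ≠ 0 := fun h => by rw [h] at hk; exact lt_irrefl _ hk
        have hR0 := RR_ne (hR i j hjn)
        have hcj : Complex.cos (w j) ≠ 0 := cos_ne_of (hc j)
        have e : Complex.tan (w i) * -(I * s i * θ * (Complex.tan (w i) * Complex.sin (w j) /
            (RR (w i) (kap θ (w j)) * kap θ (w j)))) * (Complex.tan (w j))⁻¹ =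
            (Complex.tan (w i) ^ 2 / RR (w i) (kap θ (w j))) *
              (-(I * s i) * ((θ * Complex.cos (w j)) / kap θ (w j))) := by
          have hsj : Complex.sin (w j) = Complex.tan (w j) * Complex.cos (w j) :=
            (Complex.tan_mul_cos hcj).symm
          rw [hsj]
          field_simp [hT j]
        rw [e, norm_mul]
        apply mul_le_of_le_one_right (norm_nonneg _)
        rw [norm_mul, norm_neg, norm_mul, Complex.norm_I, one_mul, norm_div]
        have hsn : ‖(s i : ℂ)‖ = 1 := by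
          rcases hs i with h | h <;> rw [h] <;> simp
        rw [hsn, one_mul, div_le_one (norm_pos_iff.2 hk0)]
        exact norm_kap_ge h0 h1 (hc j)
      · simp
    refine (Finset.sum_le_sum hoff).trans ?_
    rw [← Finset.sum_filter]
    refine Finset.sum_le_sum_of_subset_of_nonneg ?_ fun _ _ _ => norm_nonneg _
    intro j hj
    exact (Finset.mem_filter.1 hj).2
  intro h
  apply hA
  rw [Matrix.det_mul, Matrix.det_mul, h]
  ring

/-- the derivative of the system at good points -/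
lemma hasFDerivAt_FF {nb : ι → Finset ι} {b s : ι → ℝ} {θ : ℝ} {w : ι → ℂ}
    (hw0 : ∀ i, 0 < (w i).re) (hw1 : ∀ i, (w i).re ≤ 3 / 2)
    (hc : ∀ i, 0 < (Complex.cos (w i)).re) (hk : ∀ i, 0 < (kap θ (w i)).re)
    (hR : ∀ i, ∀ j ∈ nb i, 0 < (RR (w i) (kap θ (w j))).re) :
    HasFDerivAt (fun z => FF nb b s θ z)
      (LinearMap.toContinuousLinearMap (Matrix.toLin' (JRing nb b s θ w))) w := by
  have hp : ∀ i, HasFDerivAt (fun z : ι → ℂ => z i) (ContinuousLinearMap.proj (R := ℂ) i) w :=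
    fun i => hasFDerivAt_apply i w
  have hkd : ∀ j, HasFDerivAt (fun z : ι → ℂ => kap θ (z j))
      ((-(θ * Complex.sin (w j))) • (ContinuousLinearMap.proj (R := ℂ) j : (ι → ℂ) →L[ℂ] ℂ)) w := by
    intro j
    have h1 : HasDerivAt (fun z : ℂ => kap θ z) (-(θ * Complex.sin (w j))) (w j) := by
      unfold kap
      have := ((Complex.hasDerivAt_cos (w j)).const_mul (θ : ℂ)).const_add (1 - θ : ℂ)
      refine this.congr_deriv ?_
      ring
    exact HasDerivAt.comp_hasFDerivAt (h₂ := fun z : ℂ => kap θ z)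
      (f := fun z : ι → ℂ => z j) w h1 (hp j)
  rw [show (fun z => FF nb b s θ z) = fun z i => FF nb b s θ z i from rfl]
  have hcomp : ∀ i, HasFDerivAt (fun z => FF nb b s θ z i)
      ((b i : ℂ) • (ContinuousLinearMap.proj (R := ℂ) i : (ι → ℂ) →L[ℂ] ℂ) +
        (I * s i) • ∑ j ∈ nb i,
          ((1 / (Complex.cos (w i) ^ 2 * RR (w i) (kap θ (w j)))) •
            (ContinuousLinearMap.proj (R := ℂ) i : (ι → ℂ) →L[ℂ] ℂ) +
          (Complex.tan (w i) / (RR (w i) (kap θ (w j)) * kap θ (w j))) •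
            ((-(θ * Complex.sin (w j))) •
              (ContinuousLinearMap.proj (R := ℂ) j : (ι → ℂ) →L[ℂ] ℂ)))) w := by
    intro i
    unfold FF
    have hQ : HasFDerivAt (fun z : ι → ℂ => ∑ j ∈ nb i, QQ (z i) (kap θ (z j))) (∑ j ∈ nb i,
          ((1 / (Complex.cos (w i) ^ 2 * RR (w i) (kap θ (w j)))) •
            (ContinuousLinearMap.proj (R := ℂ) i : (ι → ℂ) →L[ℂ] ℂ) +
          (Complex.tan (w i) / (RR (w i) (kap θ (w j)) * kap θ (w j))) •
            ((-(θ * Complex.sin (w j))) •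
              (ContinuousLinearMap.proj (R := ℂ) j : (ι → ℂ) →L[ℂ] ℂ)))) w := by
      refine HasFDerivAt.fun_sum fun j hj => ?_
      exact hasFDerivAt_QQ (hp i) (hkd j) (hw0 i) (hw1 i) (cos_ne_of (hc i)) (hk j) (hR i j hj)
    exact (((hp i).const_mul (b i : ℂ)).sub_const _).add (hQ.const_mul (I * s i))
  have hall := hasFDerivAt_pi.2 hcomp
  refine hall.congr_fderiv ?_
  ext v i
  rw [ContinuousLinearMap.coe_pi', LinearMap.coe_toContinuousLinearMap', Matrix.toLin'_apply,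
    Matrix.mulVec, dotProduct]
  simp only [JRing, add_mul, ite_mul, zero_mul, Finset.sum_add_distrib, Finset.sum_ite_eq',
    Finset.mem_univ, if_true, Finset.sum_ite_mem, Finset.univ_inter]
  simp only [_root_.add_apply, _root_.smul_apply, smul_eq_mul, ContinuousLinearMap.proj_apply,
    _root_.sum_apply, Finset.mul_sum, Finset.sum_mul, mul_add]
  rw [add_assoc]
  congr 1
  congr 1
  · refine Finset.sum_congr rfl fun j _ => ?_
    ring
  · refine Finset.sum_congr rfl fun j _ => ?_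
    ring

/-- The ring system has a solution. -/
theorem ring_exists {nb : ι → Finset ι} (hnb : ∀ i, i ∉ nb i) {b s : ι → ℝ}
    (hs : ∀ i, s i = 1 ∨ s i = -1) {K U : ι → Set ℂ} {r : ℝ} (hr : 0 < r)
    (hKc : ∀ i, IsClosed (K i)) (hKr : ∀ i, ∀ z ∈ K i, 0 < z.re) (hU : ∀ i, IsOpen (U i))
    (hUK : ∀ i, U i ⊆ K i) (h : RingsOK nb b s K U r)
    (h0 : ∀ i, ∃ w : ℂ, 0 ≤ w.re ∧ w.re ≤ 3 / 2 ∧ |w.im| ≤ 2 ∧ Complex.cos w ∈ K i ∧
      r ≤ (RR w 1).re ∧ (b i : ℂ) * w - Real.pi + I * s i * ((nb i).card * QQ w 1) = 0) :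
    ∃ w : ι → ℂ, ∀ i, FF nb b s 1 w i = 0 ∧
      RingOK nb b s K U r i (fun j => Complex.cos (w j)) (w i) := by
  set Kt : Set (ℝ × (ι → ℂ)) := {p | p.1 ∈ Icc (0 : ℝ) 1 ∧ ∀ i, (0 ≤ (p.2 i).re ∧
    (p.2 i).re ≤ 3 / 2 ∧ |(p.2 i).im| ≤ 2 ∧ Complex.cos (p.2 i) ∈ K i) ∧
    ∀ j ∈ nb i, r ≤ (RR (p.2 i) (kap p.1 (p.2 j))).re} with hKt
  have hci : ∀ i, Continuous fun p : ℝ × (ι → ℂ) => p.2 i := fun i => by fun_prop
  have hck : ∀ j, Continuous fun p : ℝ × (ι → ℂ) => kap p.1 (p.2 j) := fun j => by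
    unfold kap
    fun_prop
  -- the crude compact set
  set C : Set (ℝ × (ι → ℂ)) := {p | p.1 ∈ Icc (0 : ℝ) 1 ∧ ∀ i, (0 ≤ (p.2 i).re ∧
    (p.2 i).re ≤ 3 / 2 ∧ |(p.2 i).im| ≤ 2 ∧ Complex.cos (p.2 i) ∈ K i)} with hC
  have hCcl : IsClosed C := by
    have e : C = ((Prod.fst : ℝ × (ι → ℂ) → ℝ) ⁻¹' Icc (0 : ℝ) 1) ∩ ⋂ i : ι,
        (((fun p : ℝ × (ι → ℂ) => (p.2 i).re) ⁻¹' Icc 0 (3 / 2)) ∩
          (((fun p : ℝ × (ι → ℂ) => |(p.2 i).im|) ⁻¹' Iic 2) ∩
            ((fun p : ℝ × (ι → ℂ) => Complex.cos (p.2 i)) ⁻¹' K i))) := by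
      ext p
      simp only [hC, mem_inter_iff, mem_iInter, mem_preimage, mem_Iic, mem_Icc, and_assoc]
      rfl
    rw [e]
    refine (isClosed_Icc.preimage continuous_fst).inter (isClosed_iInter fun i => ?_)
    refine IsClosed.inter (isClosed_Icc.preimage (Complex.continuous_re.comp (hci i))) ?_
    refine IsClosed.inter (isClosed_Iic.preimage (Complex.continuous_im.comp (hci i)).abs) ?_
    exact (hKc i).preimage (Complex.continuous_cos.comp (hci i))
  have hbig : IsCompact ((Icc (0 : ℝ) 1) ×ˢ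
      (Set.pi univ fun _ : ι => (Icc (0 : ℝ) (3 / 2)) ×ℂ (Icc (-2 : ℝ) 2))) :=
    isCompact_Icc.prod (isCompact_univ_pi fun i => isCompact_Icc.reProdIm isCompact_Icc)
  have hCk : IsCompact C := by
    refine hbig.of_isClosed_subset hCcl ?_
    rintro p ⟨h1, h2⟩
    refine ⟨h1, fun i _ => ?_⟩
    have := h2 i
    exact ⟨⟨this.1, this.2.1⟩, abs_le.1 this.2.2.1⟩
  have hcosC : ∀ p ∈ C, ∀ i, 0 < (Complex.cos (p.2 i)).re := fun p hp i => hKr i _ (hp.2 i).2.2.2
  have hkapC : ∀ p ∈ C, ∀ i, 0 < (kap p.1 (p.2 i)).re := fun p hp i =>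
    kap_re_pos hp.1.1 hp.1.2 (hcosC p hp i)
  have hne : ∀ {z : ℂ}, 0 < z.re → z ≠ 0 := fun {z} hz h => by rw [h] at hz; exact lt_irrefl _ hz
  have hKtC : Kt ⊆ C := fun p hp => ⟨hp.1, fun i => (hp.2 i).1⟩
  have hKtcl : IsClosed Kt := by
    have e : Kt = C ∩ ⋂ i, ⋂ j ∈ nb i,
        (C ∩ (fun p : ℝ × (ι → ℂ) => (RR (p.2 i) (kap p.1 (p.2 j))).re) ⁻¹' (Ici r)) := by
      ext p
      simp only [mem_inter_iff, mem_iInter, mem_preimage, mem_Ici]
      constructor
      · intro hp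
        exact ⟨hKtC hp, fun i j hj => ⟨hKtC hp, (hp.2 i).2 j hj⟩⟩
      · rintro ⟨h1, h2⟩
        exact ⟨h1.1, fun i => ⟨h1.2 i, fun j hj => (h2 i j hj).2⟩⟩
    rw [e]
    refine hCcl.inter (isClosed_iInter fun i => isClosed_iInter fun j => isClosed_iInter fun hj => ?_)
    refine ContinuousOn.preimage_isClosed_of_isClosed ?_ hCcl isClosed_Ici
    intro p hp
    exact (continuousAt_RR_re (hci i).continuousAt (hck j).continuousAt
      (cos_ne_of (hcosC p hp i)) (hne (hkapC p hp j))).continuousWithinAt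
  have hKtk : IsCompact Kt := hCk.of_isClosed_subset hKtcl hKtC
  have hcF : ContinuousOn (fun p : ℝ × (ι → ℂ) => FF nb b s p.1 p.2) Kt := by
    refine continuousOn_pi.2 fun i => ?_
    intro p hp
    have hpC := hKtC hp
    refine ContinuousAt.continuousWithinAt ?_
    unfold FF
    refine ContinuousAt.add ?_ ?_
    · exact ((continuous_const.mul (hci i)).sub continuous_const).continuousAt
    · refine continuousAt_const.mul ?_
      refine tendsto_finsetSum _ fun j hj => ?_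
      exact continuousAt_QQ (hci i).continuousAt (hck j).continuousAt (hpC.2 i).1 (hpC.2 i).2.1
        (cos_ne_of (hcosC p hpC i)) (hkapC p hpC j) (hr.trans_le ((hp.2 i).2 j hj))
  have hloc : ∀ p ∈ Kt, p.1 ∈ Icc (0 : ℝ) 1 → FF nb b s p.1 p.2 = 0 →
      ∃ V : Set (ℝ × (ι → ℂ)), IsOpen V ∧ p ∈ V ∧
      (∀ q ∈ V, q.1 ∈ Icc (0 : ℝ) 1 → q ∈ Kt ∧ HasFDerivAt (fun z => FF nb b s q.1 z)
        (LinearMap.toContinuousLinearMap (Matrix.toLin' (JRing nb b s q.1 q.2))) q.2) ∧
      (∀ i j, ContinuousOn (fun q => JRing nb b s q.1 q.2 i j) (V ∩ {q | q.1 ∈ Icc (0 : ℝ) 1})) ∧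
      (JRing nb b s p.1 p.2).det ≠ 0 := by
    intro p hp hp1 hp0
    have hpC := hKtC hp
    have hok : ∀ i, RingOK nb b s K U r i (fun j => kap p.1 (p.2 j)) (p.2 i) := by
      intro i
      refine h i _ (fun j hj => ?_) _ (hp.2 i).1.1 (hp.2 i).1.2.1 (hp.2 i).1.2.2.1
        (hp.2 i).1.2.2.2 (hp.2 i).2 (congrFun hp0 i)
      exact ⟨p.1, hp.1.1, hp.1.2, _, (hp.2 j).1.2.2.2, rfl⟩
    set G : Set (ℝ × (ι → ℂ)) := {q | ∀ i, ((0 < (q.2 i).re ∧ (q.2 i).re < 3 / 2 ∧
      |(q.2 i).im| < 2 ∧ Complex.cos (q.2 i) ∈ U i) ∧ 0 < (Complex.cos (q.2 i)).re ∧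
      0 < (kap q.1 (q.2 i)).re) ∧
      ∀ j, j ∈ nb i → r < (RR (q.2 i) (kap q.1 (q.2 j))).re} with hG
    have hGn : G ∈ 𝓝 p := by
      show ∀ᶠ q in 𝓝 p, ∀ i, ((0 < (q.2 i).re ∧ (q.2 i).re < 3 / 2 ∧
        |(q.2 i).im| < 2 ∧ Complex.cos (q.2 i) ∈ U i) ∧ 0 < (Complex.cos (q.2 i)).re ∧
        0 < (kap q.1 (q.2 i)).re) ∧
        ∀ j, j ∈ nb i → r < (RR (q.2 i) (kap q.1 (q.2 j))).re
      rw [Filter.eventually_all]
      intro i
      have hi := hok i
      have hcre : Continuous fun q : ℝ × (ι → ℂ) => (q.2 i).re :=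
        Complex.continuous_re.comp (hci i)
      have hcim : Continuous fun q : ℝ × (ι → ℂ) => |(q.2 i).im| :=
        (Complex.continuous_im.comp (hci i)).abs
      have hccos : Continuous fun q : ℝ × (ι → ℂ) => Complex.cos (q.2 i) :=
        Complex.continuous_cos.comp (hci i)
      refine ((((hcre.continuousAt.eventually (lt_mem_nhds hi.re0)).and
        ((hcre.continuousAt.eventually (gt_mem_nhds hi.re1)).and
        ((hcim.continuousAt.eventually (gt_mem_nhds hi.im)).and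
        (hccos.continuousAt.eventually ((hU i).mem_nhds hi.mem))))).and
        (((Complex.continuous_re.comp hccos).continuousAt.eventually
          (lt_mem_nhds (hcosC p hpC i))).and
        ((Complex.continuous_re.comp (hck i)).continuousAt.eventually
          (lt_mem_nhds (hkapC p hpC i))))).and ?_)
      rw [Filter.eventually_all]
      intro j
      by_cases hj : j ∈ nb i
      · have hcont := continuousAt_RR_re (f := fun q : ℝ × (ι → ℂ) => q.2 i)
          (g := fun q : ℝ × (ι → ℂ) => kap q.1 (q.2 j)) (x := p) (hci i).continuousAt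
          (hck j).continuousAt (cos_ne_of (hcosC p hpC i)) (hne (hkapC p hpC j))
        filter_upwards [hcont.eventually (lt_mem_nhds (hi.hinge j hj))] with q hq _
        exact hq
      · exact Filter.Eventually.of_forall fun q hq => absurd hq hj
    obtain ⟨V, hVG, hVo, hpV⟩ := mem_nhds_iff.1 hGn
    refine ⟨V, hVo, hpV, ?_, ?_, ?_⟩
    · intro q hq hq1
      have hqG := hVG hq
      refine ⟨⟨hq1, fun i => ⟨⟨(hqG i).1.1.1.le, (hqG i).1.1.2.1.le, (hqG i).1.1.2.2.1.le,
        hUK i (hqG i).1.1.2.2.2⟩, fun j hj => ((hqG i).2 j hj).le⟩⟩, ?_⟩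
      exact hasFDerivAt_FF (fun i => (hqG i).1.1.1) (fun i => (hqG i).1.1.2.1.le)
        (fun i => (hqG i).1.2.1) (fun i => (hqG i).1.2.2) fun i j hj => hr.trans ((hqG i).2 j hj)
    · intro i j q hq
      have hqG := hVG hq.1
      refine ContinuousAt.continuousWithinAt ?_
      have hcw : ContinuousAt (fun q : ℝ × (ι → ℂ) => Complex.cos (q.2 i)) q :=
        (Complex.continuous_cos.comp (hci i)).continuousAt
      have hRc : ∀ k ∈ nb i,
          ContinuousAt (fun q : ℝ × (ι → ℂ) => RR (q.2 i) (kap q.1 (q.2 k))) q := fun k hk =>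
        continuousAt_RR (hci i).continuousAt (hck k).continuousAt
          (cos_ne_of (hqG i).1.2.1) (hne (hqG k).1.2.2) (hr.trans ((hqG i).2 k hk))
      have hR0 : ∀ k ∈ nb i, RR (q.2 i) (kap q.1 (q.2 k)) ≠ 0 := fun k hk =>
        RR_ne (hr.trans ((hqG i).2 k hk))
      have hc0 := cos_ne_of (hqG i).1.2.1
      unfold JRing
      refine ContinuousAt.add ?_ ?_
      · split_ifs with hji
        · refine continuousAt_const.add (continuousAt_const.mul ?_)
          refine tendsto_finsetSum _ fun k hk => ?_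
          exact continuousAt_const.div ((hcw.pow 2).mul (hRc k hk))
            (mul_ne_zero (pow_ne_zero 2 hc0) (hR0 k hk))
        · exact continuousAt_const
      · split_ifs with hjn
        · have ht : ContinuousAt (fun q : ℝ × (ι → ℂ) => Complex.tan (q.2 i)) q :=
            ContinuousAt.comp (g := Complex.tan) (f := fun q : ℝ × (ι → ℂ) => q.2 i)
              (continuousAt_tan.2 hc0) (hci i).continuousAt
          have hsn : ContinuousAt (fun q : ℝ × (ι → ℂ) => Complex.sin (q.2 j)) q :=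
            (Complex.continuous_sin.comp (hci j)).continuousAt
          have hth : ContinuousAt (fun q : ℝ × (ι → ℂ) => (q.1 : ℂ)) q :=
            (Complex.continuous_ofReal.comp continuous_fst).continuousAt
          exact ((continuousAt_const.mul hth).mul ((ht.mul hsn).div
            ((hRc j hjn).mul (hck j).continuousAt)
            (mul_ne_zero (hR0 j hjn) (hne (hqG j).1.2.2)))).neg
        · exact continuousAt_const
    · exact JRing_det hnb hs hp.1.1 hp.1.2 (fun i => (hok i).re0) (fun i => (hok i).re1)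
        (fun i => hcosC p hpC i) (fun i j hj => hr.trans ((hok i).hinge j hj))
        fun i => (hok i).dom
  have hstart : ∃ z, (0, z) ∈ Kt ∧ FF nb b s 0 z = 0 := by
    choose z hz using h0
    have hk0 : ∀ j, kap 0 (z j) = 1 := fun j => by simp [kap]
    refine ⟨z, ⟨⟨le_rfl, zero_le_one⟩, fun i => ⟨⟨(hz i).1, (hz i).2.1, (hz i).2.2.1,
      (hz i).2.2.2.1⟩, fun j _ => ?_⟩⟩, ?_⟩
    · show r ≤ (RR (z i) (kap 0 (z j))).re
      rw [hk0]
      exact (hz i).2.2.2.2.1
    · funext i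
      unfold FF
      simp only [hk0, Finset.sum_const, nsmul_eq_mul]
      exact (hz i).2.2.2.2.2
  obtain ⟨w, hw, hw0⟩ := continuation_set_det hKtk
    (F := fun p => FF nb b s p.1 p.2) (J := fun p => JRing nb b s p.1 p.2) hcF hloc hstart
    (θ := 1) ⟨zero_le_one, le_rfl⟩
  have hk1 : ∀ j, kap 1 (w j) = Complex.cos (w j) := fun j => by simp [kap]
  refine ⟨w, fun i => ⟨congrFun hw0 i, ?_⟩⟩
  have := h i (fun j => kap 1 (w j)) (fun j hj => ?_) (w i) (hw.2 i).1.1 (hw.2 i).1.2.1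
    (hw.2 i).1.2.2.1 (hw.2 i).1.2.2.2 (hw.2 i).2 (congrFun hw0 i)
  · simp only [hk1] at this
    exact this
  · exact ⟨1, zero_le_one, le_rfl, _, (hw.2 j).1.2.2.2, by simp [hk1]⟩

end Pool.Agent.Work.MP_b30479_gt.G2
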