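import Mathlib

/-!
# Diagonal dominance for twist regions with two crossings

Own frame (positive sign): `T = tan w`, `c = cos² w`, `q = 1 / c = 1 + T²`; ports `k`, `k'`,
`p = 1 / k`, `p' = 1 / k'`; hinges `R² = T² + p²`, `R'² = T² + p'²`.  The ring equation
`2 w = π - i (Q + Q')` gives `R + R' = -2 i c p p'` and `R R' + T² = p p' (1 - 2 c)`.  With
`τ = R + R' + i` one has `τ² = (p + p')² - 1` and the factor of dominance is
`(|R| + |R'|) / (2 |τ|)`; it is smaller than `1` if `|τ| > 1` and `Re (p conj p') ≥ 0`.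
-/

namespace Pool.Agent.Work.MP_b30479_gt.G2

open Complex

/-! ### the algebra -/

/-- the square of `τ = R + R' + i` -/
theorem tau_sq {c p p' R R' T : ℂ} (hR : R ^ 2 = T ^ 2 + p ^ 2) (hR' : R' ^ 2 = T ^ 2 + p' ^ 2)
    (ha : R + R' = -2 * I * c * (p * p')) (hb : R * R' + T ^ 2 = p * p' * (1 - 2 * c)) :
    (R + R' + I) ^ 2 = (p + p') ^ 2 - 1 := by
  linear_combination hR + hR' + 2 * hb + 2 * I * ha + (1 - 4 * c * (p * p')) * I_sq

/-- numerator of the diagonal entry -/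
theorem diag_num {c p p' R R' T q : ℂ} (hq : q = 1 + T ^ 2) (hc : q * c = 1)
    (ha : R + R' = -2 * I * c * (p * p')) (hb : R * R' + T ^ 2 = p * p' * (1 - 2 * c)) :
    2 * (R * R') + I * q * (R + R') = -2 * (q - 1) * (1 - I * (R + R')) := by
  subst hq
  linear_combination 2 * hb + I * (1 - T ^ 2) * ha + (-2 * (p * p')) * hc
    + (-2 * c * (p * p') * (1 - T ^ 2)) * I_sq

/-- `|R| + |R'| < 2 |τ|` -/
theorem norm_add_lt {p p' R R' : ℂ} (hR : R ^ 2 - R' ^ 2 = p ^ 2 - p' ^ 2)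
    (hτ : (R + R' + I) ^ 2 = (p + p') ^ 2 - 1) (hd : 0 ≤ (p * starRingEnd ℂ p').re)
    (hP : 1 < ‖(p + p') ^ 2 - 1‖) : ‖R‖ + ‖R'‖ < 2 * ‖R + R' + I‖ := by
  set τ := R + R' + I with hτd
  have h1 : 1 < ‖τ‖ := by
    have : ‖τ‖ ^ 2 = ‖(p + p') ^ 2 - 1‖ := by rw [← hτ, norm_pow]
    by_contra h
    have h2 : ‖τ‖ ≤ 1 := not_lt.mp h
    have h3 : ‖τ‖ ^ 2 ≤ 1 := by nlinarith only [hP, this, h, norm_nonneg τ]
    linarith only [hP, this, h3]
  have hsum : R + R' = τ - I := by rw [hτd]; ring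
  have hprod : (R - R') * (τ - I) = (p + p') * (p - p') := by
    rw [← hsum]
    linear_combination hR
  have hpp : (τ - I) * (τ + I) = (p + p') ^ 2 := by linear_combination hτ - I_sq
  have hnm : ‖p - p'‖ ≤ ‖p + p'‖ := by
    apply le_of_sq_le_sq _ (norm_nonneg _)
    rw [Complex.sq_norm, Complex.sq_norm, Complex.normSq_sub, Complex.normSq_add]
    linarith only [hd]
  have hle : ‖R - R'‖ ≤ ‖τ + I‖ := by
    by_cases h0 : ‖τ - I‖ = 0
    · exfalso
      have e : τ = I := sub_eq_zero.mp (norm_eq_zero.mp h0)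
      rw [e, norm_I] at h1
      exact lt_irrefl _ h1
    have h0' : 0 < ‖τ - I‖ := lt_of_le_of_ne (norm_nonneg _) (Ne.symm h0)
    have e1 : ‖R - R'‖ * ‖τ - I‖ = ‖p + p'‖ * ‖p - p'‖ := by
      rw [← norm_mul, ← norm_mul, hprod]
    have e2 : ‖τ - I‖ * ‖τ + I‖ = ‖p + p'‖ * ‖p + p'‖ := by
      rw [← norm_mul, ← norm_mul, hpp, pow_two]
    have e3 : ‖R - R'‖ * ‖τ - I‖ ≤ ‖τ + I‖ * ‖τ - I‖ := by
      rw [e1, mul_comm ‖τ + I‖, e2]
      exact mul_le_mul_of_nonneg_left hnm (norm_nonneg _)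
    exact le_of_mul_le_mul_right e3 h0'
  have hpar : ‖R‖ ^ 2 + ‖R'‖ ^ 2 = (‖R + R'‖ ^ 2 + ‖R - R'‖ ^ 2) / 2 := by
    rw [Complex.sq_norm, Complex.sq_norm, Complex.sq_norm, Complex.sq_norm, Complex.normSq_sub,
      Complex.normSq_add]
    ring
  have hpar2 : ‖τ - I‖ ^ 2 + ‖τ + I‖ ^ 2 = 2 * ‖τ‖ ^ 2 + 2 := by
    rw [Complex.sq_norm, Complex.sq_norm, Complex.sq_norm, Complex.normSq_apply,
      Complex.normSq_apply, Complex.normSq_apply]
    simp only [sub_re, sub_im, add_re, add_im, I_re, I_im]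
    ring
  apply lt_of_pow_lt_pow_left₀ 2 (by positivity)
  have h5 : ‖R + R'‖ = ‖τ - I‖ := by rw [hsum]
  have h6 : ‖R - R'‖ ^ 2 ≤ ‖τ + I‖ ^ 2 := by
    have := norm_nonneg (R - R')
    nlinarith only [hle, this]
  have h7 : ‖R + R'‖ ^ 2 = ‖τ - I‖ ^ 2 := by rw [h5]
  have h8 : 1 < ‖τ‖ ^ 2 := by nlinarith only [h1]
  have h9 : (‖R‖ + ‖R'‖) ^ 2 ≤ 2 * (‖R‖ ^ 2 + ‖R'‖ ^ 2) := by nlinarith only [sq_nonneg (‖R‖ - ‖R'‖)]
  have h10 : (2 * ‖τ‖) ^ 2 = 4 * ‖τ‖ ^ 2 := by ring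
  rw [h10]
  linarith only [hpar, hpar2, h6, h7, h8, h9]

/-- diagonal dominance of a ring with two crossings, interior case -/
theorem kap_two {c p p' R R' T q : ℂ} (hq : q = 1 + T ^ 2) (hc : q * c = 1)
    (hR : R ^ 2 = T ^ 2 + p ^ 2) (hR' : R' ^ 2 = T ^ 2 + p' ^ 2)
    (ha : R + R' = -2 * I * c * (p * p')) (hb : R * R' + T ^ 2 = p * p' * (1 - 2 * c))
    (hR0 : R ≠ 0) (hR0' : R' ≠ 0) (hT : T ≠ 0) (hd : 0 ≤ (p * starRingEnd ℂ p').re)
    (hP : 1 < ‖(p + p') ^ 2 - 1‖) :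
    ‖q - 1‖ * (1 / ‖R‖ + 1 / ‖R'‖) < ‖2 + I * q * (1 / R + 1 / R')‖ := by
  have hτ := tau_sq hR hR' ha hb
  have h1 := norm_add_lt (by rw [hR, hR']; ring) hτ hd hP
  have h2 := diag_num hq hc ha hb
  have e1 : 1 - I * (R + R') = -I * (R + R' + I) := by linear_combination I_sq
  have h3 : (2 + I * q * (1 / R + 1 / R')) * (R * R') = -2 * (q - 1) * (-I * (R + R' + I)) := by
    rw [← e1, ← h2]
    field_simp
    ring
  have h4 := congrArg norm h3
  rw [norm_mul, norm_mul R R', norm_mul (-2 * (q - 1)), norm_mul (-2 : ℂ), norm_mul (-I), norm_neg,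
    norm_neg, norm_I] at h4
  simp only [one_mul, norm_ofNat] at h4
  have p1 : 0 < ‖R‖ := norm_pos_iff.mpr hR0
  have p2 : 0 < ‖R'‖ := norm_pos_iff.mpr hR0'
  have p3 : 0 < ‖q - 1‖ := by
    rw [norm_pos_iff, hq]
    simpa using hT
  have h5 : ‖q - 1‖ * (1 / ‖R‖ + 1 / ‖R'‖) = ‖q - 1‖ * (‖R‖ + ‖R'‖) / (‖R‖ * ‖R'‖) := by
    field_simp
    ring
  rw [h5, div_lt_iff₀ (by positivity), h4]
  nlinarith only [h1, p3]

/-- diagonal dominance of an end ring with two crossings: the factor is exactly `1 / 2` -/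
theorem kap_two_end {R q : ℂ} (hR : R ≠ 0) (hq : q = 2 * (1 - I * R)) (hq1 : q ≠ 1) :
    ‖q - 1‖ * (1 / ‖R‖) < ‖2 + I * q * (1 / R)‖ := by
  have e : 2 + I * q * (1 / R) = 2 * (q - 1) * (I / R) := by
    field_simp
    rw [hq]
    linear_combination (2 * R) * I_sq
  have p3 : 0 < ‖q - 1‖ := norm_pos_iff.mpr (sub_ne_zero.mpr hq1)
  have p1 : 0 < ‖R‖ := norm_pos_iff.mpr hR
  rw [e, norm_mul, norm_mul, norm_div, norm_I]
  have : 0 < ‖q - 1‖ * (1 / ‖R‖) := by positivity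
  simp only [norm_ofNat]
  linarith only [this]

/-! ### from the ring equation -/

/-- hyperbolic functions of `Q = log (T + R) + log k` -/
theorem cosh_Q {T R k Q : ℂ} (hk : k ≠ 0) (hR : R ^ 2 = T ^ 2 + 1 / k ^ 2)
    (hQ : Complex.exp Q = (T + R) * k) : Complex.cosh Q = R * k ∧ Complex.sinh Q = T * k := by
  have h1 : (T + R) * k * ((R - T) * k) = 1 := by
    have e : (T + R) * k * ((R - T) * k) = (R ^ 2 - T ^ 2) * k ^ 2 := by ring
    rw [e, hR]
    field_simp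
    ring
  have h2 : Complex.exp (-Q) = (R - T) * k := by
    rw [Complex.exp_neg, hQ]
    exact inv_eq_of_mul_eq_one_right h1
  rw [Complex.cosh, Complex.sinh, hQ, h2]
  constructor <;> ring

/-- the ring equation of an interior ring with two crossings -/
theorem two_of_ring {w T R R' k k' Q Q' c : ℂ} (hk : k ≠ 0) (hk' : k' ≠ 0)
    (hT : T * Complex.cos w = Complex.sin w) (hcd : c = Complex.cos w ^ 2) (hT0 : T ≠ 0)
    (hR : R ^ 2 = T ^ 2 + 1 / k ^ 2) (hR' : R' ^ 2 = T ^ 2 + 1 / k' ^ 2)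
    (hQ : Complex.exp Q = (T + R) * k) (hQ' : Complex.exp Q' = (T + R') * k')
    (hw : 2 * w = Real.pi - I * (Q + Q')) :
    R + R' = -2 * I * c * (1 / k * (1 / k')) ∧
      R * R' + T ^ 2 = 1 / k * (1 / k') * (1 - 2 * c) := by
  obtain ⟨c1, s1⟩ := cosh_Q hk hR hQ
  obtain ⟨c2, s2⟩ := cosh_Q hk' hR' hQ'
  have hQQ : Q + Q' = (2 * w - Real.pi) * I := by
    linear_combination (-I) * hw + (Q + Q') * I_sq
  have hch : Complex.cosh (Q + Q') = -Complex.cos (2 * w) := by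
    rw [hQQ, Complex.cosh_mul_I, Complex.cos_sub_pi]
  have hsh : Complex.sinh (Q + Q') = -(Complex.sin (2 * w)) * I := by
    rw [hQQ, Complex.sinh_mul_I, Complex.sin_sub_pi]
  rw [Complex.cosh_add, c1, c2, s1, s2, Complex.cos_two_mul] at hch
  rw [Complex.sinh_add, c1, c2, s1, s2, Complex.sin_two_mul] at hsh
  constructor
  · have h1 : T * (k * k') * (R + R' + 2 * I * c * (1 / k * (1 / k'))) = 0 := by
      have e : T * (k * k') * (R + R' + 2 * I * c * (1 / k * (1 / k'))) =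
        T * k * (R' * k') + R * k * (T * k') + 2 * I * T * c := by
        field_simp
        ring
      rw [e, hsh, hcd, ← hT]
      ring
    have h2 := (mul_eq_zero.mp h1).resolve_left (mul_ne_zero hT0 (mul_ne_zero hk hk'))
    linear_combination h2
  · have e : (R * R' + T ^ 2) * (k * k') = 1 - 2 * c := by
      have : (R * R' + T ^ 2) * (k * k') = R * k * (R' * k') + T * k * (T * k') := by ring
      rw [this, hch, hcd]
      ring
    field_simp
    linear_combination e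

/-- the ring equation of an end ring with two crossings -/
theorem two_of_end {w T R k Q : ℂ} (hk : k ≠ 0) (hT : T * Complex.cos w = Complex.sin w)
    (hc : Complex.cos w ≠ 0) (hT0 : T ≠ 0) (hR : R ^ 2 = T ^ 2 + 1 / k ^ 2)
    (hQ : Complex.exp Q = (T + R) * k) (hw : 2 * w = Real.pi - I * Q) :
    1 / Complex.cos w ^ 2 = 2 * (1 - I * R) := by
  obtain ⟨c1, s1⟩ := cosh_Q hk hR hQ
  have hQQ : Q = (2 * w - Real.pi) * I := by
    linear_combination (-I) * hw + Q * I_sq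
  have hch : Complex.cosh Q = -Complex.cos (2 * w) := by
    conv_lhs => rw [hQQ, Complex.cosh_mul_I, Complex.cos_sub_pi]
  have hsh : Complex.sinh Q = -(Complex.sin (2 * w)) * I := by
    conv_lhs => rw [hQQ, Complex.sinh_mul_I, Complex.sin_sub_pi]
  rw [c1, Complex.cos_two_mul] at hch
  rw [s1, Complex.sin_two_mul, ← hT] at hsh
  have h1 : k = -2 * I * Complex.cos w ^ 2 := by
    have : T * (k + 2 * I * Complex.cos w ^ 2) = 0 := by linear_combination hsh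
    linear_combination (mul_eq_zero.mp this).resolve_left hT0
  rw [h1] at hch
  field_simp
  linear_combination -hch

/-- diagonal dominance from the ring equation, `b = 2`, interior ring -/
theorem kap_two_ring {w T R R' k k' Q Q' q : ℂ} (hk : k ≠ 0) (hk' : k' ≠ 0)
    (hT : T * Complex.cos w = Complex.sin w) (hT0 : T ≠ 0)
    (hq : q = 1 + T ^ 2) (hR : R ^ 2 = T ^ 2 + 1 / k ^ 2) (hR' : R' ^ 2 = T ^ 2 + 1 / k' ^ 2)
    (hR0 : R ≠ 0) (hR0' : R' ≠ 0)
    (hQ : Complex.exp Q = (T + R) * k) (hQ' : Complex.exp Q' = (T + R') * k')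
    (hw : 2 * w = Real.pi - I * (Q + Q'))
    (hd : 0 ≤ (1 / k * starRingEnd ℂ (1 / k')).re)
    (hP : 1 < ‖(1 / k + 1 / k') ^ 2 - 1‖) :
    ‖q - 1‖ * (1 / ‖R‖ + 1 / ‖R'‖) < ‖2 + I * q * (1 / R + 1 / R')‖ := by
  obtain ⟨ha, hb⟩ := two_of_ring hk hk' hT rfl hT0 hR hR' hQ hQ' hw
  refine kap_two hq ?_ (by rw [hR]; ring) (by rw [hR']; ring) ha hb hR0 hR0' hT0 hd hP
  rw [hq]
  have := Complex.sin_sq_add_cos_sq w
  rw [← hT] at this
  linear_combination this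

/-- diagonal dominance from the ring equation, `b = 2`, end ring -/
theorem kap_two_end_ring {w T R k Q q : ℂ} (hk : k ≠ 0) (hT : T * Complex.cos w = Complex.sin w)
    (hc : Complex.cos w ≠ 0) (hT0 : T ≠ 0) (hq : q = 1 + T ^ 2)
    (hR : R ^ 2 = T ^ 2 + 1 / k ^ 2) (hR0 : R ≠ 0)
    (hQ : Complex.exp Q = (T + R) * k) (hw : 2 * w = Real.pi - I * Q) :
    ‖q - 1‖ * (1 / ‖R‖) < ‖2 + I * q * (1 / R)‖ := by
  have h1 := two_of_end hk hT hc hT0 hR hQ hw
  have h2 : q * Complex.cos w ^ 2 = 1 := by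
    rw [hq]
    have := Complex.sin_sq_add_cos_sq w
    rw [← hT] at this
    linear_combination this
  apply kap_two_end hR0
  · rw [← h1]
    field_simp
    exact h2
  · rw [hq]
    simpa using hT0

end Pool.Agent.Work.MP_b30479_gt.G2
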