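import Pool.Agent.Work.MP_b30479_gt.G2.S2Base
import Pool.Agent.Work.MP_b30479_gt.G2.SKapTwo
import Pool.Agent.Work.MP_b30479_gt.G2.S7N

/-!
# Location of a ring: from the exclusions on the polygons to the statement about the ring

`z = cos w`, `C = cos (b w)`, `sin (b w) = sin w * U`, `R = RR w k`: `l = k (C - i R z U)` for two
ports, `k + i z U = 0`, `R k = - C` for one port.
-/

namespace Pool.Agent.Work.MP_b30479_gt.G2.SL

open Complex SC
open scoped ComplexConjugate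

/-! ### linear bounds on the polygons -/

lemma poly_lin {V : List (ℤ × ℤ)} (hV : shape V = true) {a b c : ℤ}
    (h : ∀ v ∈ V, 0 ≤ a * v.1 + b * v.2 + c) {z : ℂ} (hz : z ∈ Poly V) :
    0 ≤ (a : ℝ) * (1000 * z.re) + b * (1000 * z.im) + c := by
  have h2 := poly_aff0 hV (mem_Poly.1 hz) (A := ⟨(a : ℝ), -(b : ℝ)⟩) (c := c) (fun v hv => by
    have h3 : (0 : ℝ) ≤ ((a * v.1 + b * v.2 + c : ℤ) : ℝ) := by exact_mod_cast h v hv
    push_cast at h3
    simp only [zp, Complex.mul_re]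
    linarith only [h3])
  simp only [Complex.mul_re, Complex.mul_im, Complex.re_ofNat, Complex.im_ofNat] at h2
  linarith only [h2]

lemma vt_shape (t : RT) : shape (vt t) = true := by cases t <;> decide

lemma vt_cvx (t : RT) : cvx (vt t) := by cases t <;> decide

lemma vt_re {t : RT} {z : ℂ} (hz : z ∈ Poly (vt t)) : 42 / 100 ≤ z.re := by
  have := poly_lin (vt_shape t) (a := 1) (b := 0) (c := -420) (by cases t <;> decide) hz
  push_cast at this
  linarith only [this]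

lemma vt_re_le {t : RT} {z : ℂ} (hz : z ∈ Poly (vt t)) : z.re ≤ 1 := by
  have := poly_lin (vt_shape t) (a := -1) (b := 0) (c := 1000) (by cases t <;> decide) hz
  push_cast at this
  linarith only [this]

lemma vt_im {t : RT} {z : ℂ} (hz : z ∈ Poly (vt t)) : 0 ≤ z.im := by
  have := poly_lin (vt_shape t) (a := 0) (b := 1) (c := 0) (by cases t <;> decide) hz
  push_cast at this
  linarith only [this]

lemma vt_im_le {t : RT} {z : ℂ} (hz : z ∈ Poly (vt t)) : z.im ≤ 68 / 100 := by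
  have := poly_lin (vt_shape t) (a := 0) (b := -1) (c := 680) (by cases t <;> decide) hz
  push_cast at this
  linarith only [this]

lemma vt_re_lt {t : RT} (ht : t ≠ .t8) {z : ℂ} (hz : z ∈ Poly (vt t)) : z.re < 1 := by
  have := poly_lin (vt_shape t) (a := -1) (b := 0) (c := 970) (by
    cases t <;> first | decide | exact absurd rfl ht) hz
  push_cast at this
  linarith only [this]

/-- what is needed about a port -/
structure Port (k : ℂ) : Prop where
  re : 42 / 100 ≤ k.re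
  re_le : k.re ≤ 1
  im_abs : |k.im| ≤ 68 / 100
  im : k.im ≤ k.re

lemma port_a {k : ℂ} (h : conj k ∈ Poly pA) : Port k := by
  have hs : shape pA = true := by decide
  have h1 := poly_lin hs (a := 1) (b := 0) (c := -420) (by decide) h
  have h2 := poly_lin hs (a := -1) (b := 0) (c := 1000) (by decide) h
  have h3 := poly_lin hs (a := 0) (b := 1) (c := 0) (by decide) h
  have h4 := poly_lin hs (a := 0) (b := -1) (c := 680) (by decide) h
  rw [conj_re, conj_im] at h1 h2 h3 h4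
  push_cast at h1 h2 h3 h4
  refine ⟨by linarith only [h1], by linarith only [h2], ?_, by linarith only [h1, h3]⟩
  rw [abs_le]
  constructor <;> linarith only [h4, h3]

lemma port_s {k : ℂ} (h : k ∈ Poly pS) : Port k := by
  have hs : shape pS = true := by decide
  have h1 := poly_lin hs (a := 1) (b := 0) (c := -420) (by decide) h
  have h2 := poly_lin hs (a := -1) (b := 0) (c := 1000) (by decide) h
  have h3 := poly_lin hs (a := 0) (b := 1) (c := 0) (by decide) h
  have h4 := poly_lin hs (a := 0) (b := -1) (c := 680) (by decide) h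
  have h5 := poly_lin hs (a := 1) (b := -1) (c := 0) (by decide) h
  push_cast at h1 h2 h3 h4 h5
  refine ⟨by linarith only [h1], by linarith only [h2], ?_, by linarith only [h5]⟩
  rw [abs_le]
  constructor <;> linarith only [h3, h4]

lemma port_t {k : ℂ} (h : k ∈ Poly pT) : Port k := by
  have hs : shape pT = true := by decide
  have h1 := poly_lin hs (a := 1) (b := 0) (c := -420) (by decide) h
  have h2 := poly_lin hs (a := -1) (b := 0) (c := 1000) (by decide) h
  have h3 := poly_lin hs (a := 0) (b := 1) (c := 0) (by decide) h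
  have h4 := poly_lin hs (a := 0) (b := -1) (c := 680) (by decide) h
  have h5 := poly_lin hs (a := 1) (b := -1) (c := 0) (by decide) h
  push_cast at h1 h2 h3 h4 h5
  refine ⟨by linarith only [h1], by linarith only [h2], ?_, by linarith only [h5]⟩
  rw [abs_le]
  constructor <;> linarith only [h3, h4]

/-! ### real and imaginary parts -/

lemma cos_re (w : ℂ) : (Complex.cos w).re = Real.cos w.re * Real.cosh w.im := by
  conv_lhs => rw [← Complex.re_add_im w, Complex.cos_add_mul_I]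
  simp [← Complex.ofReal_cos, ← Complex.ofReal_cosh, ← Complex.ofReal_sin, ← Complex.ofReal_sinh]

lemma cos_im (w : ℂ) : (Complex.cos w).im = -(Real.sin w.re * Real.sinh w.im) := by
  conv_lhs => rw [← Complex.re_add_im w, Complex.cos_add_mul_I]
  simp [← Complex.ofReal_cos, ← Complex.ofReal_cosh, ← Complex.ofReal_sin, ← Complex.ofReal_sinh]

lemma sq_le_sinh_sq (y : ℝ) : y ^ 2 ≤ Real.sinh y ^ 2 := by
  rcases le_total 0 y with h | h
  · have := Real.self_le_sinh_iff.2 h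
    nlinarith only [h, this]
  · have := Real.sinh_le_self_iff.2 h
    nlinarith only [h, this]

/-- the strict bounds on `w` -/
lemma loc_basic {w : ℂ} (h1 : w.re ≤ 3 / 2) (h2 : |w.im| ≤ 2)
    (hx : 42 / 100 ≤ (Complex.cos w).re) (hx1 : (Complex.cos w).re ≤ 1)
    (hy0 : 0 ≤ (Complex.cos w).im) (hy : (Complex.cos w).im ≤ 68 / 100) :
    w.re < 3 / 2 ∧ |w.im| < 2 := by
  rw [cos_re] at hx hx1
  rw [cos_im] at hy0 hy
  have hch : Real.cosh w.im ^ 2 = 1 + Real.sinh w.im ^ 2 := by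
    have := Real.cosh_sq w.im
    linarith only [this]
  have hcs := Real.sin_sq_add_cos_sq w.re
  have hs := sq_le_sinh_sq w.im
  have e1 : (Real.sin w.re * Real.sinh w.im) ^ 2 ≤ (68 / 100) ^ 2 := by
    apply sq_le_sq'
    · linarith only [hy]
    · linarith only [hy0]
  rw [mul_pow] at e1
  have hchp := Real.cosh_pos w.im
  constructor
  · refine lt_of_le_of_ne h1 fun h => ?_
    rw [h] at hx hx1 e1 hcs
    have hpi := Real.pi_lt_d2
    have hpi0 := Real.pi_gt_three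
    have hc : Real.cos (3 / 2) ≤ 75 / 1000 := by
      rw [← Real.sin_pi_div_two_sub]
      have := Real.sin_le (x := Real.pi / 2 - 3 / 2) (by linarith only [hpi0, Real.pi_gt_three])
      linarith only [hpi, this]
    have hc0 : 0 < Real.cos (3 / 2) := Real.cos_pos_of_mem_Ioo ⟨by linarith only [hpi, hpi0], by linarith only [hpi0]⟩
    have h5 : 5 ≤ Real.cosh w.im := by nlinarith only [hx, hchp, hc]
    have h6 : 24 ≤ Real.sinh w.im ^ 2 := by nlinarith only [hch, hc, hc0, h5, hx, hchp]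
    have h7 : 1 / 2 ≤ Real.sin (3 / 2) ^ 2 := by nlinarith only [hx1, hcs, e1, hc, hc0, h6, hch, hx]
    nlinarith only [e1, hc, hc0, h7, h6]
  · refine lt_of_le_of_ne h2 fun h => ?_
    have h3 : w.im ^ 2 = 4 := by
      rw [← sq_abs, h]
      norm_num
    rw [h3] at hs
    have h4 : Real.cos w.re ^ 2 * Real.cosh w.im ^ 2 ≤ 1 := by
      rw [← mul_pow]
      have h0 : 0 ≤ Real.cos w.re * Real.cosh w.im := by linarith only [hx]
      nlinarith only [hx1, hx]
    have h5 : Real.cos w.re ^ 2 ≤ 1 / 5 := by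
      have := sq_nonneg (Real.cos w.re)
      nlinarith only [h4, hch, hs]
    have h6 : Real.sin w.re ^ 2 ≤ 1 / 5 := by
      have := sq_nonneg (Real.sin w.re)
      nlinarith only [hcs, e1, h5, hs]
    linarith only [hcs, h5, h6]

lemma re_pos_of {w : ℂ} (h0 : 0 ≤ w.re) (hx : (Complex.cos w).re < 1) : 0 < w.re := by
  refine lt_of_le_of_ne h0 fun h => ?_
  rw [cos_re, ← h, Real.cos_zero, one_mul] at hx
  exact absurd (Real.one_le_cosh w.im) (not_le.2 hx)

/-! ### the ring equation -/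

lemma expQ {w k : ℂ} (h0 : 0 ≤ w.re) (h1 : w.re ≤ 3 / 2) (hk : 0 < k.re)
    (hR : 0 < (RR w k).re) : exp (QQ w k) = (Complex.tan w + RR w k) * k := by
  have hT := tan_re_nonneg h0 h1
  have hk0 : k ≠ 0 := fun h => by rw [h] at hk; exact lt_irrefl _ hk
  have hTR : Complex.tan w + RR w k ≠ 0 := fun h => by
    have := congrArg Complex.re h
    rw [Complex.add_re, Complex.zero_re] at this
    linarith only [hR, hT, this]
  rw [QQ, exp_add, exp_log hTR, exp_log hk0]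

lemma QQ_cosh {w k : ℂ} (h0 : 0 ≤ w.re) (h1 : w.re ≤ 3 / 2) (hk : 0 < k.re)
    (hR : 0 < (RR w k).re) : Complex.cosh (QQ w k) = RR w k * k ∧
      Complex.sinh (QQ w k) = Complex.tan w * k := by
  have hk0 : k ≠ 0 := fun h => by rw [h] at hk; exact lt_irrefl _ hk
  refine cosh_Q hk0 ?_ (expQ h0 h1 hk hR)
  rw [RR_sq, ZZ0, one_div]

/-- the relation of the two ports -/
lemma rel_two {w k l b C U : ℂ} (hC : Complex.cos (b * w) = C)
    (hU : Complex.sin (b * w) = Complex.sin w * U) (h0 : 0 < w.re) (h1 : w.re ≤ 3 / 2)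
    (hz : Complex.cos w ≠ 0) (hk : 0 < k.re) (hl : 0 < l.re) (hR : 0 < (RR w k).re)
    (hR' : 0 < (RR w l).re) (hw : b * w - Real.pi + I * (QQ w k + QQ w l) = 0) :
    l = k * (C - I * RR w k * (Complex.cos w * U)) := by
  obtain ⟨c1, s1⟩ := QQ_cosh h0.le h1 hk hR
  obtain ⟨_, s2⟩ := QQ_cosh h0.le h1 hl hR'
  have hT : Complex.tan w ≠ 0 := fun h => by
    have := tan_re_pos h0 h1
    rw [h] at this
    exact lt_irrefl _ this
  have hTz : Complex.tan w * Complex.cos w = Complex.sin w := Complex.tan_mul_cos hz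
  have e : QQ w l = (b * w - Real.pi) * I - QQ w k := by
    linear_combination (-I) * hw + (QQ w k + QQ w l) * I_sq
  have h2 : Complex.sinh (QQ w l) =
      -(Complex.sin (b * w)) * I * Complex.cosh (QQ w k) +
        Complex.cos (b * w) * Complex.sinh (QQ w k) := by
    conv_lhs => rw [e]
    rw [Complex.sinh_sub, Complex.sinh_mul_I, Complex.cosh_mul_I, Complex.sin_sub_pi,
      Complex.cos_sub_pi]
    ring
  rw [c1, s1, s2, hC, hU, ← hTz] at h2
  have h3 : Complex.tan w * (l - k * (C - I * RR w k * (Complex.cos w * U))) = 0 := by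
    linear_combination h2
  exact sub_eq_zero.1 ((mul_eq_zero.1 h3).resolve_left hT)

/-- one port -/
lemma rel_one {w k b C U : ℂ} (hC : Complex.cos (b * w) = C)
    (hU : Complex.sin (b * w) = Complex.sin w * U) (h0 : 0 < w.re) (h1 : w.re ≤ 3 / 2)
    (hz : Complex.cos w ≠ 0) (hk : 0 < k.re) (hR : 0 < (RR w k).re)
    (hw : b * w - Real.pi + I * QQ w k = 0) :
    k + I * Complex.cos w * U = 0 ∧ RR w k * k = -C := by
  obtain ⟨c1, s1⟩ := QQ_cosh h0.le h1 hk hR
  have hT : Complex.tan w ≠ 0 := fun h => by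
    have := tan_re_pos h0 h1
    rw [h] at this
    exact lt_irrefl _ this
  have hTz : Complex.tan w * Complex.cos w = Complex.sin w := Complex.tan_mul_cos hz
  have e : QQ w k = (b * w - Real.pi) * I := by
    linear_combination (-I) * hw + QQ w k * I_sq
  rw [e, Complex.sinh_mul_I, Complex.sin_sub_pi, hU, ← hTz] at s1
  rw [e, Complex.cosh_mul_I, Complex.cos_sub_pi, hC] at c1
  refine ⟨?_, c1.symm⟩
  have h3 : Complex.tan w * (k + I * Complex.cos w * U) = 0 := by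
    linear_combination -s1
  exact (mul_eq_zero.1 h3).resolve_left hT

/-- the relation of the hinge -/
lemma rel_R {w k : ℂ} (hz : Complex.cos w ≠ 0) (hk : k ≠ 0) :
    k ^ 2 * (Complex.cos w ^ 2 * (RR w k ^ 2 + 1) - 1) - Complex.cos w ^ 2 = 0 := by
  have hTz : Complex.tan w * Complex.cos w = Complex.sin w := Complex.tan_mul_cos hz
  have hs : Complex.sin w ^ 2 = 1 - Complex.cos w ^ 2 := by
    have := Complex.sin_sq_add_cos_sq w
    linear_combination this
  have h1 : Complex.cos w ^ 2 * Complex.tan w ^ 2 = 1 - Complex.cos w ^ 2 := by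
    rw [← hs, ← hTz]
    ring
  rw [RR_sq, ZZ0]
  have h2 : k ^ 2 * (k ^ 2)⁻¹ = 1 := mul_inv_cancel₀ (pow_ne_zero 2 hk)
  linear_combination k ^ 2 * h1 + Complex.cos w ^ 2 * h2

/-- elimination of the hinge -/
lemma front_id {z k l R C U : ℂ} (h1 : l = k * (C - I * R * (z * U)))
    (h2 : k ^ 2 * (z ^ 2 * (R ^ 2 + 1) - 1) - z ^ 2 = 0) (h3 : C ^ 2 + (1 - z ^ 2) * U ^ 2 = 1) :
    k ^ 2 + l ^ 2 - 2 * k * l * C + (z * U) ^ 2 = 0 := by
  subst h1
  linear_combination (k ^ 2 * (R * z * U) ^ 2) * I_sq - (U ^ 2) * h2 - k ^ 2 * h3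

/-- bound of the hinge -/
lemma R_im_le {w k : ℂ} (hz : 42 / 100 ≤ (Complex.cos w).re) (hk : 42 / 100 ≤ k.re) :
    |(RR w k).im| ≤ 4 := by
  have hzn : 42 / 100 ≤ ‖Complex.cos w‖ := hz.trans (Complex.re_le_norm _)
  have hkn : 42 / 100 ≤ ‖k‖ := hk.trans (Complex.re_le_norm _)
  have hz0 : Complex.cos w ≠ 0 := fun h => by rw [h, norm_zero] at hzn; norm_num at hzn
  have hT : Complex.tan w ^ 2 = (Complex.cos w ^ 2)⁻¹ - 1 := by
    have hTz : Complex.tan w * Complex.cos w = Complex.sin w := Complex.tan_mul_cos hz0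
    have hs : Complex.sin w ^ 2 = 1 - Complex.cos w ^ 2 := by
      have := Complex.sin_sq_add_cos_sq w
      linear_combination this
    field_simp
    rw [← hs, ← hTz]
    ring
  have key : ∀ u : ℂ, 42 / 100 ≤ ‖u‖ → ‖(u ^ 2)⁻¹‖ ≤ 6 := by
    intro u hu
    rw [norm_inv, norm_pow]
    rw [inv_le_comm₀ (by positivity) (by norm_num)]
    nlinarith only [hu]
  have h1 : ‖RR w k‖ ^ 2 ≤ 13 := by
    rw [← norm_pow, RR_sq, ZZ0, hT]
    calc ‖(Complex.cos w ^ 2)⁻¹ - 1 + (k ^ 2)⁻¹‖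
        ≤ ‖(Complex.cos w ^ 2)⁻¹ - 1‖ + ‖(k ^ 2)⁻¹‖ := norm_add_le _ _
      _ ≤ ‖(Complex.cos w ^ 2)⁻¹‖ + ‖(1 : ℂ)‖ + ‖(k ^ 2)⁻¹‖ := by
        gcongr
        exact norm_sub_le _ _
      _ ≤ 6 + 1 + 6 := by
        have := key _ hzn
        have := key _ hkn
        rw [norm_one]
        linarith
      _ = 13 := by norm_num
  have h2 := Complex.abs_im_le_norm (RR w k)
  nlinarith only [h1, h2, norm_nonneg (RR w k)]

/-! ### multiple angles -/

lemma cs_one (w : ℂ) : Complex.cos ((1 : ℝ) * w) = Complex.cos w ∧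
    Complex.sin ((1 : ℝ) * w) = Complex.sin w * 1 := by
  simp

lemma cs_succ {n : ℝ} {w C U : ℂ} (h : Complex.cos (n * w) = C ∧ Complex.sin (n * w) = Complex.sin w * U)
    (C' U' : ℂ) (m : ℝ) (hm : m = n + 1) (hC : C' = C * Complex.cos w - (1 - Complex.cos w ^ 2) * U)
    (hU : U' = U * Complex.cos w + C) :
    Complex.cos (m * w) = C' ∧ Complex.sin (m * w) = Complex.sin w * U' := by
  have hs : Complex.sin w ^ 2 = 1 - Complex.cos w ^ 2 := by
    have := Complex.sin_sq_add_cos_sq w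
    linear_combination this
  have e : (m : ℂ) * w = n * w + w := by
    rw [hm]
    push_cast
    ring
  rw [e, Complex.cos_add, Complex.sin_add, h.1, h.2, hC, hU]
  constructor
  · linear_combination (-U) * hs
  · ring

lemma cs2 (w : ℂ) : Complex.cos ((2 : ℝ) * w) = 2 * Complex.cos w ^ 2 - 1 ∧
    Complex.sin ((2 : ℝ) * w) = Complex.sin w * (2 * Complex.cos w) :=
  cs_succ (cs_one w) _ _ 2 (by norm_num) (by ring) (by ring)

lemma cs3 (w : ℂ) : Complex.cos ((3 : ℝ) * w) = 4 * Complex.cos w ^ 3 - 3 * Complex.cos w ∧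
    Complex.sin ((3 : ℝ) * w) = Complex.sin w * (4 * Complex.cos w ^ 2 - 1) :=
  cs_succ (cs2 w) _ _ 3 (by norm_num) (by ring) (by ring)

lemma cs4 (w : ℂ) : Complex.cos ((4 : ℝ) * w) = 8 * Complex.cos w ^ 4 - 8 * Complex.cos w ^ 2 + 1 ∧
    Complex.sin ((4 : ℝ) * w) = Complex.sin w * (8 * Complex.cos w ^ 3 - 4 * Complex.cos w) :=
  cs_succ (cs3 w) _ _ 4 (by norm_num) (by ring) (by ring)

lemma cs5 (w : ℂ) : Complex.cos ((5 : ℝ) * w) =
      16 * Complex.cos w ^ 5 - 20 * Complex.cos w ^ 3 + 5 * Complex.cos w ∧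
    Complex.sin ((5 : ℝ) * w) = Complex.sin w * (16 * Complex.cos w ^ 4 - 12 * Complex.cos w ^ 2 + 1) :=
  cs_succ (cs4 w) _ _ 5 (by norm_num) (by ring) (by ring)

lemma cs6 (w : ℂ) : Complex.cos ((6 : ℝ) * w) =
      32 * Complex.cos w ^ 6 - 48 * Complex.cos w ^ 4 + 18 * Complex.cos w ^ 2 - 1 ∧
    Complex.sin ((6 : ℝ) * w) =
      Complex.sin w * (32 * Complex.cos w ^ 5 - 32 * Complex.cos w ^ 3 + 6 * Complex.cos w) :=
  cs_succ (cs5 w) _ _ 6 (by norm_num) (by ring) (by ring)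

lemma cs7 (w : ℂ) : Complex.cos ((7 : ℝ) * w) =
      64 * Complex.cos w ^ 7 - 112 * Complex.cos w ^ 5 + 56 * Complex.cos w ^ 3 -
        7 * Complex.cos w ∧
    Complex.sin ((7 : ℝ) * w) = Complex.sin w *
      (64 * Complex.cos w ^ 6 - 80 * Complex.cos w ^ 4 + 24 * Complex.cos w ^ 2 - 1) :=
  cs_succ (cs6 w) _ _ 7 (by norm_num) (by ring) (by ring)

/-! ### location -/

/-- location of an end ring -/
def Loc1 (b : ℝ) (K U P : Set ℂ) (r : ℝ) : Prop :=
  ∀ k ∈ P, ∀ w : ℂ, 0 ≤ w.re → w.re ≤ 3 / 2 → |w.im| ≤ 2 → Complex.cos w ∈ K → r ≤ (RR w k).re →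
    b * w - Real.pi + I * QQ w k = 0 →
    0 < w.re ∧ w.re < 3 / 2 ∧ |w.im| < 2 ∧ Complex.cos w ∈ U ∧ r < (RR w k).re

/-- location of an interior ring -/
def Loc2 (b : ℝ) (K U P P' : Set ℂ) (r : ℝ) : Prop :=
  ∀ k ∈ P, ∀ k' ∈ P', ∀ w : ℂ, 0 ≤ w.re → w.re ≤ 3 / 2 → |w.im| ≤ 2 → Complex.cos w ∈ K →
    r ≤ (RR w k).re → r ≤ (RR w k').re →
    b * w - Real.pi + I * (QQ w k + QQ w k') = 0 →
    0 < w.re ∧ w.re < 3 / 2 ∧ |w.im| < 2 ∧ Complex.cos w ∈ U ∧ r < (RR w k).re ∧ r < (RR w k').re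

lemma r0_pos : 0 < r0 := by norm_num [r0]

/-- two ports -/
theorem loc2_of {b : ℝ} {C U : ℂ → ℂ} (hCU : ∀ w : ℂ, Complex.cos (b * w) = C (Complex.cos w) ∧
      Complex.sin (b * w) = Complex.sin w * U (Complex.cos w)) {t : RT} (ht : t ≠ .t8)
    {P P' : Set ℂ} (hP : ∀ k ∈ P, Port k) (hP' : ∀ k ∈ P', Port k)
    (hfr : ∀ z k l : ℂ, OnE (vt t) z → k ∈ P → l ∈ P' →
      k ^ 2 + l ^ 2 - 2 * k * l * C z + (z * U z) ^ 2 ≠ 0)
    (hh : ∀ z k l R : ℂ, z ∈ Poly (vt t) → k ∈ P → l ∈ P' → R.re = r0 → |R.im| ≤ 4 →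
      l = k * (C z - I * R * (z * U z)) → k ^ 2 * (z ^ 2 * (R ^ 2 + 1) - 1) - z ^ 2 = 0 → False)
    (hh' : ∀ z k l R : ℂ, z ∈ Poly (vt t) → k ∈ P' → l ∈ P → R.re = r0 → |R.im| ≤ 4 →
      l = k * (C z - I * R * (z * U z)) → k ^ 2 * (z ^ 2 * (R ^ 2 + 1) - 1) - z ^ 2 = 0 → False) :
    Loc2 b (Poly (vt t)) (PolyU (vt t)) P P' r0 := by
  intro k hk l hl w h0 h1 h2 hz hR hR' hw
  have pk := hP k hk
  have pl := hP' l hl
  have hzr := vt_re hz
  have hw0 : 0 < w.re := re_pos_of h0 (vt_re_lt ht hz)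
  obtain ⟨h3, h4⟩ := loc_basic h1 h2 hzr (vt_re_le hz) (vt_im hz) (vt_im_le hz)
  have hz0 : Complex.cos w ≠ 0 := fun h => by rw [h] at hzr; norm_num at hzr
  have hk0 : 0 < k.re := lt_of_lt_of_le (by norm_num) pk.re
  have hl0 : 0 < l.re := lt_of_lt_of_le (by norm_num) pl.re
  have hkn : k ≠ 0 := fun h => by rw [h] at hk0; exact lt_irrefl _ hk0
  have hln : l ≠ 0 := fun h => by rw [h] at hl0; exact lt_irrefl _ hl0
  have hRp := r0_pos.trans_le hR
  have hRp' := r0_pos.trans_le hR'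
  have e1 := rel_two (hCU w).1 (hCU w).2 hw0 h1 hz0 hk0 hl0 hRp hRp' hw
  have e2 := rel_two (hCU w).1 (hCU w).2 hw0 h1 hz0 hl0 hk0 hRp' hRp (by rw [← hw]; ring)
  have e3 := rel_R hz0 hkn
  have e4 := rel_R hz0 hln
  have e5 : C (Complex.cos w) ^ 2 + (1 - Complex.cos w ^ 2) * U (Complex.cos w) ^ 2 = 1 := by
    have h5 := Complex.sin_sq_add_cos_sq (b * w)
    rw [(hCU w).1, (hCU w).2] at h5
    have h6 := Complex.sin_sq_add_cos_sq w
    linear_combination h5 - U (Complex.cos w) ^ 2 * h6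
  refine ⟨hw0, h3, h4, ?_, ?_, ?_⟩
  · by_contra hc
    exact hfr _ k l (onE_of (vt_cvx t) hz hc) hk hl (front_id e1 e3 e5)
  · exact lt_of_le_of_ne hR fun h => hh _ k l _ hz hk hl h.symm (R_im_le hzr pk.re) e1 e3
  · exact lt_of_le_of_ne hR' fun h => hh' _ l k _ hz hl hk h.symm (R_im_le hzr pl.re) e2 e4

/-- one port -/
theorem loc1_of {b : ℝ} {C U : ℂ → ℂ} (hCU : ∀ w : ℂ, Complex.cos (b * w) = C (Complex.cos w) ∧
      Complex.sin (b * w) = Complex.sin w * U (Complex.cos w)) {t : RT} (ht : t ≠ .t8)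
    {P : Set ℂ} (hP : ∀ k ∈ P, Port k)
    (hfr : ∀ z k : ℂ, OnE (vt t) z → k ∈ P → k + I * z * U z ≠ 0)
    (hh : ∀ z k R : ℂ, z ∈ Poly (vt t) → k ∈ P → R.re = r0 → |R.im| ≤ 4 →
      k + I * z * U z = 0 → R * k = -C z → k ^ 2 * (z ^ 2 * (R ^ 2 + 1) - 1) - z ^ 2 = 0 → False) :
    Loc1 b (Poly (vt t)) (PolyU (vt t)) P r0 := by
  intro k hk w h0 h1 h2 hz hR hw
  have pk := hP k hk
  have hzr := vt_re hz
  have hw0 : 0 < w.re := re_pos_of h0 (vt_re_lt ht hz)
  obtain ⟨h3, h4⟩ := loc_basic h1 h2 hzr (vt_re_le hz) (vt_im hz) (vt_im_le hz)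
  have hz0 : Complex.cos w ≠ 0 := fun h => by rw [h] at hzr; norm_num at hzr
  have hk0 : 0 < k.re := lt_of_lt_of_le (by norm_num) pk.re
  have hkn : k ≠ 0 := fun h => by rw [h] at hk0; exact lt_irrefl _ hk0
  have hRp := r0_pos.trans_le hR
  obtain ⟨e1, e2⟩ := rel_one (hCU w).1 (hCU w).2 hw0 h1 hz0 hk0 hRp hw
  have e3 := rel_R hz0 hkn
  refine ⟨hw0, h3, h4, ?_, ?_⟩
  · by_contra hc
    exact hfr _ k (onE_of (vt_cvx t) hz hc) hk e1
  · exact lt_of_le_of_ne hR fun h => hh _ k _ hz hk h.symm (R_im_le hzr pk.re) e1 e2 e3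

end Pool.Agent.Work.MP_b30479_gt.G2.SL
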