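import Pool.Agent.Work.MP_b30479_gt.G2.S7N

/-!
# The ring system of a chain

Statements about one ring in its own frame (`s = 1`: positive twist region, `Im w < 0`,
`Im cos w > 0`); the value of a neighbour of the opposite sign is conjugated.
-/

namespace Pool.Agent.Work.MP_b30479_gt.G2

open Complex Set Filter Topology
open scoped ComplexConjugate

lemma ZZ0_conj (w k : ℂ) : ZZ0 (conj w) (conj k) = conj (ZZ0 w k) := by
  unfold ZZ0
  rw [Complex.tan_conj, map_add, map_pow, map_inv₀, map_pow]

lemma RR_conj_re (w k : ℂ) : (RR (conj w) (conj k)).re = (RR w k).re := by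
  rw [RR_re, RR_re, ZZ0_conj, Complex.norm_conj, Complex.conj_re]

lemma RR_conj {w k : ℂ} (h : 0 < (RR w k).re) : RR (conj w) (conj k) = conj (RR w k) := by
  unfold RR
  rw [ZZ0_conj, Complex.conj_cpow _ _ (Complex.slitPlane_arg_ne_pi (ZZ0_slit h))]
  congr 2
  rw [map_inv₀]
  congr 1
  exact map_ofNat (starRingEnd ℂ) 2

lemma QQ_conj {w k : ℂ} (h : 0 < (RR w k).re) (h0 : 0 ≤ w.re) (h1 : w.re ≤ 3 / 2) (hk : 0 < k.re) :
    QQ (conj w) (conj k) = conj (QQ w k) := by
  unfold QQ
  have hTR : Complex.tan w + RR w k ∈ slitPlane := by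
    rw [Complex.mem_slitPlane_iff]
    left
    rw [Complex.add_re]
    exact add_pos_of_nonneg_of_pos (tan_re_nonneg h0 h1) h
  have hks : k ∈ slitPlane := Complex.mem_slitPlane_iff.2 (Or.inl hk)
  rw [RR_conj h, Complex.tan_conj, ← map_add, Complex.log_conj _ (Complex.slitPlane_arg_ne_pi hTR),
    Complex.log_conj _ (Complex.slitPlane_arg_ne_pi hks), map_add]

/-- the statement about an end ring in its own frame; `P` is the set of the values of the
neighbour -/
def Ring1 (b : ℝ) (K U P : Set ℂ) (r : ℝ) : Prop :=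
  ∀ k ∈ P, ∀ w : ℂ, 0 ≤ w.re → w.re ≤ 3 / 2 → |w.im| ≤ 2 → Complex.cos w ∈ K → r ≤ (RR w k).re →
    b * w - Real.pi + I * QQ w k = 0 →
    0 < w.re ∧ w.re < 3 / 2 ∧ |w.im| < 2 ∧ Complex.cos w ∈ U ∧ r < (RR w k).re ∧
      ‖Complex.tan w ^ 2 / RR w k‖ < ‖(b : ℂ) + I * (1 / (Complex.cos w ^ 2 * RR w k))‖

/-- the statement about an interior ring in its own frame; `P`, `P'` are the sets of the values of
the neighbours -/
def Ring2 (b : ℝ) (K U P P' : Set ℂ) (r : ℝ) : Prop :=
  ∀ k ∈ P, ∀ k' ∈ P', ∀ w : ℂ, 0 ≤ w.re → w.re ≤ 3 / 2 → |w.im| ≤ 2 → Complex.cos w ∈ K →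
    r ≤ (RR w k).re → r ≤ (RR w k').re →
    b * w - Real.pi + I * (QQ w k + QQ w k') = 0 →
    0 < w.re ∧ w.re < 3 / 2 ∧ |w.im| < 2 ∧ Complex.cos w ∈ U ∧ r < (RR w k).re ∧
      r < (RR w k').re ∧
      ‖Complex.tan w ^ 2 / RR w k‖ + ‖Complex.tan w ^ 2 / RR w k'‖ <
        ‖(b : ℂ) + I * (1 / (Complex.cos w ^ 2 * RR w k) + 1 / (Complex.cos w ^ 2 * RR w k'))‖

lemma Ring2.symm {b : ℝ} {K U P P' : Set ℂ} {r : ℝ} (h : Ring2 b K U P P' r) :
    Ring2 b K U P' P r := by
  intro k hk k' hk' w h0 h1 h2 h3 h4 h5 h6
  obtain ⟨a1, a2, a3, a4, a5, a6, a7⟩ := h k' hk' k hk w h0 h1 h2 h3 h5 h4 (by rw [← h6]; ring)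
  refine ⟨a1, a2, a3, a4, a6, a5, ?_⟩
  rw [add_comm, add_comm (1 / (Complex.cos w ^ 2 * RR w k))]
  exact a7

/-- conjugation of a set for negative rings -/
def frS (s : ℝ) (K : Set ℂ) : Set ℂ := if s = 1 then K else {z | conj z ∈ K}

lemma frS_one (K : Set ℂ) : frS 1 K = K := by simp [frS]

lemma frS_neg (K : Set ℂ) : frS (-1) K = {z | conj z ∈ K} := by
  have : (-1 : ℝ) ≠ 1 := by norm_num
  simp [frS, this]

lemma mem_Star1_conj {K : Set ℂ} {k : ℂ} : k ∈ Star1 {z | conj z ∈ K} ↔ conj k ∈ Star1 K := by
  constructor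
  · rintro ⟨θ, h0, h1, z, hz, rfl⟩
    exact ⟨θ, h0, h1, conj z, hz, by simp⟩
  · rintro ⟨θ, h0, h1, z, hz, h⟩
    refine ⟨θ, h0, h1, conj z, by simpa using hz, ?_⟩
    have := congrArg conj h
    rw [Complex.conj_conj] at this
    rw [this]
    simp

/-- The ring system of a graph all of whose vertices have one or two neighbours has a solution. -/
theorem graph_exists {ι : Type} [Fintype ι] [DecidableEq ι] {nb : ι → Finset ι}
    (hnb : ∀ i, i ∉ nb i)
    (hcases : ∀ i, (∃ j, nb i = {j}) ∨ (∃ j j', j ≠ j' ∧ nb i = {j, j'}))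
    {b s : ι → ℝ} (hs : ∀ i, s i = 1 ∨ s i = -1)
    {K U : ι → Set ℂ} {r : ℝ} (hr : 0 < r)
    (hKc : ∀ i, IsClosed (K i)) (hKr : ∀ i, ∀ z ∈ K i, 0 < z.re) (hU : ∀ i, IsOpen (U i))
    (hUK : ∀ i, U i ⊆ K i)
    (h1 : ∀ i j, nb i = {j} → Ring1 (b i) (K i) (U i) (frS (s i * s j) (Star1 (K j))) r)
    (h2 : ∀ i j j', j ≠ j' → nb i = {j, j'} →
      Ring2 (b i) (K i) (U i) (frS (s i * s j) (Star1 (K j))) (frS (s i * s j') (Star1 (K j'))) r)
    (h0 : ∀ i, ∃ w : ℂ, 0 ≤ w.re ∧ w.re ≤ 3 / 2 ∧ |w.im| ≤ 2 ∧ Complex.cos w ∈ K i ∧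
      r ≤ (RR w 1).re ∧ (b i : ℂ) * w - Real.pi + I * ((nb i).card * QQ w 1) = 0) :
    ∃ w : ι → ℂ, ∀ i, FF nb b s 1 w i = 0 ∧
      RingOK nb b s (fun i => frS (s i) (K i)) (fun i => frS (s i) (U i)) r i
        (fun j => Complex.cos (w j)) (w i) := by
  have hmem : ∀ {s : ℝ}, (s = 1 ∨ s = -1) → ∀ {K : Set ℂ} {z : ℂ},
      z ∈ frS s K ↔ (if s = 1 then z else conj z) ∈ K := by
    intro s hs K z
    rcases hs with rfl | rfl
    · rw [frS_one]
      simp
    · rw [frS_neg]
      have : (-1 : ℝ) ≠ 1 := by norm_num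
      simp [this]
  refine ring_exists hnb hs hr (fun i => ?_) (fun i z hz => ?_) (fun i => ?_) (fun i z hz => ?_) ?_ ?_
  · rcases hs i with h | h
    · rw [h, frS_one]
      exact hKc i
    · rw [h, frS_neg]
      exact (hKc i).preimage Complex.continuous_conj
  · rcases hs i with h | h
    · rw [h, frS_one] at hz
      exact hKr i z hz
    · rw [h, frS_neg] at hz
      have := hKr i _ hz
      rwa [Complex.conj_re] at this
  · rcases hs i with h | h
    · rw [h, frS_one]
      exact hU i
    · rw [h, frS_neg]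
      exact (hU i).preimage Complex.continuous_conj
  · rcases hs i with h | h
    · rw [h, frS_one] at hz ⊢
      exact hUK i hz
    · rw [h, frS_neg] at hz ⊢
      exact hUK i hz
  · -- the statement about all rings
    intro i k hk w hw0 hw1 hw2 hwK hwR hF
    replace hwK : Complex.cos w ∈ frS (s i) (K i) := hwK
    -- ports in the own frame
    have hport : ∀ j ∈ nb i, (if s i = 1 then k j else conj (k j)) ∈
        frS (s i * s j) (Star1 (K j)) ∧ 0 < (k j).re := by
      intro j hj
      have h : k j ∈ Star1 (frS (s j) (K j)) := hk j hj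
      have hre : ∀ z ∈ K j, 0 < z.re := hKr j
      rcases hs i with hi | hi <;> rcases hs j with hj' | hj' <;> rw [hj'] at h <;>
        simp only [hi, hj']
      · rw [frS_one] at h
        simp only [mul_one, if_true, frS_one]
        exact ⟨h, Star1_re_pos hre h⟩
      · rw [frS_neg, mem_Star1_conj] at h
        simp only [one_mul, if_true, frS_neg]
        refine ⟨h, ?_⟩
        have := Star1_re_pos hre h
        rwa [Complex.conj_re] at this
      · rw [frS_one] at h
        have e : (-1 : ℝ) ≠ 1 := by norm_num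
        simp only [mul_one, if_neg e, frS_neg]
        exact ⟨by simpa using h, Star1_re_pos hre h⟩
      · rw [frS_neg, mem_Star1_conj] at h
        have e : (-1 : ℝ) ≠ 1 := by norm_num
        simp only [if_neg e]
        rw [show (-1 : ℝ) * -1 = 1 by norm_num, frS_one]
        refine ⟨h, ?_⟩
        have := Star1_re_pos hre h
        rwa [Complex.conj_re] at this
    rcases hs i with hi | hi
    · -- positive ring
      rw [hi, frS_one] at hwK
      rw [hi] at hF
      rcases hcases i with ⟨j, hj⟩ | ⟨j, j', hne, hj⟩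
      · have hjm : j ∈ nb i := by rw [hj]; exact Finset.mem_singleton_self j
        rw [hj, Finset.sum_singleton] at hF
        have hp := (hport j hjm).1
        rw [if_pos hi] at hp
        obtain ⟨a1, a2, a3, a4, a5, a6⟩ := h1 i j hj _ hp w hw0 hw1 hw2 hwK (hwR j hjm)
          (by rw [← hF]; push_cast; ring)
        refine ⟨a1, a2, a3, ?_, ?_, ?_⟩
        · show Complex.cos w ∈ frS (s i) (U i)
          rw [hi, frS_one]
          exact a4
        · intro l hl
          rw [hj, Finset.mem_singleton] at hl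
          rw [hl]
          exact a5
        · rw [hj, Finset.sum_singleton, Finset.sum_singleton, hi]
          simpa using a6
      · have hjm : j ∈ nb i := by rw [hj]; simp
        have hjm' : j' ∈ nb i := by rw [hj]; simp
        rw [hj, Finset.sum_pair hne] at hF
        have hp := (hport j hjm).1
        have hp' := (hport j' hjm').1
        rw [if_pos hi] at hp hp'
        obtain ⟨a1, a2, a3, a4, a5, a6, a7⟩ := h2 i j j' hne hj _ hp _ hp' w hw0 hw1 hw2 hwK
          (hwR j hjm) (hwR j' hjm') (by rw [← hF]; push_cast; ring)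
        refine ⟨a1, a2, a3, ?_, ?_, ?_⟩
        · show Complex.cos w ∈ frS (s i) (U i)
          rw [hi, frS_one]
          exact a4
        · intro l hl
          rw [hj, Finset.mem_insert, Finset.mem_singleton] at hl
          rcases hl with rfl | rfl
          · exact a5
          · exact a6
        · rw [hj, Finset.sum_pair hne, Finset.sum_pair hne, hi]
          simpa using a7
    · -- negative ring: conjugate
      have e : (-1 : ℝ) ≠ 1 := by norm_num
      rw [hi, frS_neg] at hwK
      have hwK' : Complex.cos (conj w) ∈ K i := by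
        rw [Complex.cos_conj]
        exact hwK
      have hQ : ∀ j ∈ nb i, QQ (conj w) (conj (k j)) = conj (QQ w (k j)) := fun j hj =>
        QQ_conj (hr.trans_le (hwR j hj)) hw0 hw1 (hport j hj).2
      have hRc : ∀ j ∈ nb i, RR (conj w) (conj (k j)) = conj (RR w (k j)) := fun j hj =>
        RR_conj (hr.trans_le (hwR j hj))
      have hFc := congrArg conj hF
      rw [map_zero, map_add, map_sub, map_mul, map_mul, map_mul, Complex.conj_ofReal,
        Complex.conj_ofReal, Complex.conj_ofReal, Complex.conj_I, map_sum, hi] at hFc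
      have hwr : (conj w).re = w.re := Complex.conj_re w
      have hwi : |(conj w).im| = |w.im| := by rw [Complex.conj_im, abs_neg]
      rcases hcases i with ⟨j, hj⟩ | ⟨j, j', hne, hj⟩
      · have hjm : j ∈ nb i := by rw [hj]; exact Finset.mem_singleton_self j
        rw [hj, Finset.sum_singleton, ← hQ j hjm] at hFc
        have hp := (hport j hjm).1
        rw [if_neg (by rw [hi]; exact e)] at hp
        obtain ⟨a1, a2, a3, a4, a5, a6⟩ := h1 i j hj _ hp (conj w) (by rw [hwr]; exact hw0)
          (by rw [hwr]; exact hw1) (by rw [hwi]; exact hw2) hwK'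
          (by rw [RR_conj_re]; exact hwR j hjm) (by rw [← hFc]; push_cast; ring)
        rw [hwr] at a1 a2
        rw [hwi] at a3
        rw [RR_conj_re] at a5
        refine ⟨a1, a2, a3, ?_, ?_, ?_⟩
        · show Complex.cos w ∈ frS (s i) (U i)
          rw [hi, frS_neg]
          rw [Complex.cos_conj] at a4
          exact a4
        · intro l hl
          rw [hj, Finset.mem_singleton] at hl
          rw [hl]
          exact a5
        · rw [hj, Finset.sum_singleton, Finset.sum_singleton, hi]
          rw [hRc j hjm, Complex.tan_conj, Complex.cos_conj, ← map_pow, ← map_div₀,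
            Complex.norm_conj, ← map_pow, ← map_mul] at a6
          rw [← Complex.norm_conj ((b i : ℂ) + _), map_add, map_mul, map_mul, Complex.conj_I,
            Complex.conj_ofReal, Complex.conj_ofReal, map_div₀, map_one]
          refine a6.trans_eq ?_
          congr 1
          push_cast
          ring
      · have hjm : j ∈ nb i := by rw [hj]; simp
        have hjm' : j' ∈ nb i := by rw [hj]; simp
        rw [hj, Finset.sum_pair hne, ← hQ j hjm, ← hQ j' hjm'] at hFc
        have hp := (hport j hjm).1
        have hp' := (hport j' hjm').1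
        rw [if_neg (by rw [hi]; exact e)] at hp hp'
        obtain ⟨a1, a2, a3, a4, a5, a6, a7⟩ := h2 i j j' hne hj _ hp _ hp' (conj w)
          (by rw [hwr]; exact hw0) (by rw [hwr]; exact hw1) (by rw [hwi]; exact hw2) hwK'
          (by rw [RR_conj_re]; exact hwR j hjm) (by rw [RR_conj_re]; exact hwR j' hjm')
          (by rw [← hFc]; push_cast; ring)
        rw [hwr] at a1 a2
        rw [hwi] at a3
        rw [RR_conj_re] at a5 a6
        refine ⟨a1, a2, a3, ?_, ?_, ?_⟩
        · show Complex.cos w ∈ frS (s i) (U i)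
          rw [hi, frS_neg]
          rw [Complex.cos_conj] at a4
          exact a4
        · intro l hl
          rw [hj, Finset.mem_insert, Finset.mem_singleton] at hl
          rcases hl with rfl | rfl
          · exact a5
          · exact a6
        · rw [hj, Finset.sum_pair hne, Finset.sum_pair hne, hi]
          rw [hRc j hjm, hRc j' hjm', Complex.tan_conj, Complex.cos_conj, ← map_pow, ← map_div₀,
            ← map_div₀, Complex.norm_conj, Complex.norm_conj, ← map_pow, ← map_mul,
            ← map_mul] at a7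
          rw [← Complex.norm_conj ((b i : ℂ) + _), map_add, map_mul, map_mul, Complex.conj_I,
            Complex.conj_ofReal, Complex.conj_ofReal, map_add, map_div₀, map_div₀, map_one]
          refine a7.trans_eq ?_
          congr 1
          push_cast
          ring
  · -- the start
    intro i
    obtain ⟨w, a0, a1, a2, a3, a4, a5⟩ := h0 i
    rcases hs i with hi | hi
    · refine ⟨w, a0, a1, a2, ?_, a4, ?_⟩
      · show Complex.cos w ∈ frS (s i) (K i)
        rw [hi, frS_one]
        exact a3
      · rw [hi]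
        rw [← a5]
        push_cast
        ring
    · refine ⟨conj w, by rw [Complex.conj_re]; exact a0, by rw [Complex.conj_re]; exact a1,
        by rw [Complex.conj_im, abs_neg]; exact a2, ?_, ?_, ?_⟩
      · show Complex.cos (conj w) ∈ frS (s i) (K i)
        rw [hi, frS_neg]
        rw [Set.mem_ofPred_eq, Complex.cos_conj, Complex.conj_conj]
        exact a3
      · have := RR_conj_re w 1
        rw [map_one] at this
        rw [this]
        exact a4
      · have hQ1 : QQ (conj w) 1 = conj (QQ w 1) := by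
          have := QQ_conj (w := w) (k := 1) (hr.trans_le a4) a0 a1 (by norm_num)
          rwa [map_one] at this
        rw [hi, hQ1]
        have h5 := congrArg conj a5
        rw [map_zero, map_add, map_sub, map_mul, map_mul, map_mul, Complex.conj_ofReal,
          Complex.conj_ofReal, Complex.conj_I, Complex.conj_natCast] at h5
        rw [← h5]
        push_cast
        ring

end Pool.Agent.Work.MP_b30479_gt.G2
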