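import Pool.Agent.Work.MP_b30479_gt.G2.SWordA
import Pool.Agent.Work.MP_b30479_gt.G2.S2Poly
import Pool.Agent.Work.MP_b30479_gt.G2.SChain

/-!
# Existence of the ring values of a word
-/

namespace Pool.Agent.Work.MP_b30479_gt.G2

open Complex Set Filter Topology
open scoped ComplexConjugate

lemma Ring1.mono {b : ℝ} {K U P P' : Set ℂ} {r : ℝ} (h : Ring1 b K U P r) (hP : P' ⊆ P) :
    Ring1 b K U P' r := fun k hk => h k (hP hk)

lemma Ring2.mono {b : ℝ} {K U P P' R R' : Set ℂ} {r : ℝ} (h : Ring2 b K U P R r) (hP : P' ⊆ P)
    (hR : R' ⊆ R) : Ring2 b K U P' R' r := fun k hk k' hk' => h k (hP hk) k' (hR hk')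

lemma frS_mono {s : ℝ} {K K' : Set ℂ} (h : K ⊆ K') : frS s K ⊆ frS s K' := by
  unfold frS
  split_ifs
  · exact h
  · exact fun z hz => h hz

/-- types with a neighbour of equal sign -/
def RT.hasS : RT → Bool
  | .t2as | .t3as | .t3ss | .t3se | .t4 | .t5 | .t6 | .t7 | .t8 => true
  | _ => false

/-- types with a neighbour of equal sign and at least three crossings -/
def RT.hasT : RT → Bool
  | .t3as | .t3ss | .t3se | .t4 | .t5 | .t6 | .t7 | .t8 => true
  | _ => false

/-- the facts about single rings -/
structure RingFacts : Prop where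
  closed : ∀ t, IsClosed (Poly (vt t))
  re_pos : ∀ t, ∀ z ∈ Poly (vt t), 0 < z.re
  isOpen : ∀ t, IsOpen (PolyU (vt t))
  sub : ∀ t, PolyU (vt t) ⊆ Poly (vt t)
  starA : ∀ t, Star1 (Poly (vt t)) ⊆ Poly pA
  starS : ∀ t, RT.hasS t = true → Star1 (Poly (vt t)) ⊆ Poly pS
  starT : ∀ t, RT.hasT t = true → Star1 (Poly (vt t)) ⊆ Poly pT
  end_a : ∀ B : ℕ, 2 ≤ B → Ring1 B (Poly (vt (rtype B 1 0))) (PolyU (vt (rtype B 1 0)))
    (frS (-1) (Poly pA)) r0
  end_s : ∀ B : ℕ, 3 ≤ B → Ring1 B (Poly (vt (rtype B 0 1))) (PolyU (vt (rtype B 0 1)))
    (Poly pS) r0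
  aa : ∀ B : ℕ, 2 ≤ B → Ring2 B (Poly (vt (rtype B 2 0))) (PolyU (vt (rtype B 2 0)))
    (frS (-1) (Poly pA)) (frS (-1) (Poly pA)) r0
  as2 : Ring2 2 (Poly (vt (rtype 2 1 1))) (PolyU (vt (rtype 2 1 1)))
    (frS (-1) (Poly pA)) (Poly pT) r0
  as3 : ∀ B : ℕ, 3 ≤ B → Ring2 B (Poly (vt (rtype B 1 1))) (PolyU (vt (rtype B 1 1)))
    (frS (-1) (Poly pA)) (Poly pS) r0
  ss : ∀ B : ℕ, 3 ≤ B → Ring2 B (Poly (vt (rtype B 0 2))) (PolyU (vt (rtype B 0 2)))
    (Poly pS) (Poly pS) r0
  start1 : ∀ B na ns : ℕ, 2 ≤ B → na + ns = 1 → (B = 2 → ns = 0) →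
    ∃ w : ℂ, 0 ≤ w.re ∧ w.re ≤ 3 / 2 ∧ |w.im| ≤ 2 ∧ Complex.cos w ∈ Poly (vt (rtype B na ns)) ∧
      r0 ≤ (RR w 1).re ∧ ((B : ℝ) : ℂ) * w - Real.pi + I * QQ w 1 = 0
  start2 : ∀ B na ns : ℕ, 2 ≤ B → na + ns = 2 → (B = 2 → ns ≤ 1) →
    ∃ w : ℂ, 0 ≤ w.re ∧ w.re ≤ 3 / 2 ∧ |w.im| ≤ 2 ∧ Complex.cos w ∈ Poly (vt (rtype B na ns)) ∧
      r0 ≤ (RR w 1).re ∧ ((B : ℝ) : ℂ) * w - Real.pi + I * (2 * QQ w 1) = 0

namespace SR

variable {M : ℕ} (b : Fin (M + 1) → ℤ)

/-- number of neighbours of opposite sign -/
def na (n : ℕ) : ℕ := (if lr b n = .a then 1 else 0) + if rr b n = .a then 1 else 0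

/-- number of neighbours of equal sign -/
def ns (n : ℕ) : ℕ := (if lr b n = .s then 1 else 0) + if rr b n = .s then 1 else 0

/-- the type of the ring `n` -/
def ty (n : ℕ) : RT := rtype (BB b n) (na b n) (ns b n)

variable {b}

lemma rtype_hasS {B na ns : ℕ} (h : 1 ≤ ns) (h2 : na + ns ≤ 2) (h3 : B ≤ 2 → ns = 1 ∧ na = 1) :
    RT.hasS (rtype B na ns) = true := by
  unfold rtype
  by_cases h4 : B ≤ 2
  · obtain ⟨h5, h6⟩ := h3 h4
    subst h5 h6
    rw [if_pos h4]
    rfl
  · rw [if_neg h4]
    by_cases h5 : B = 3
    · rw [if_pos h5]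
      have h6 : na ≠ 2 := by omega
      rw [if_neg h6]
      by_cases h7 : na = 1
      · have h8 : ns = 1 := by omega
        rw [if_pos h7, if_pos h8]
        rfl
      · rw [if_neg h7]
        split_ifs <;> rfl
    · rw [if_neg h5]
      split_ifs <;> rfl

lemma rtype_hasT {B na ns : ℕ} (h : 1 ≤ ns) (h2 : na + ns ≤ 2) (h3 : 3 ≤ B) :
    RT.hasT (rtype B na ns) = true := by
  unfold rtype
  rw [if_neg (by omega)]
  by_cases h5 : B = 3
  · rw [if_pos h5]
    have h6 : na ≠ 2 := by omega
    rw [if_neg h6]
    by_cases h7 : na = 1
    · have h8 : ns = 1 := by omega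
      rw [if_pos h7, if_pos h8]
      rfl
    · rw [if_neg h7]
      split_ifs <;> rfl
  · rw [if_neg h5]
    split_ifs <;> rfl

variable (hb : ClassW b) (hM : 1 ≤ M)
include hb

omit hb in
lemma rr_eq {n : ℕ} (h : n < M) : rr b n = if 0 < bb b n * bb b (rn b n) then .s else .a := by
  unfold rr
  rw [if_neg (by omega)]

omit hb in
lemma lr_eq {n : ℕ} (h : 0 < n) : lr b n = if 0 < bb b n * bb b (ln b n) then .s else .a := by
  unfold lr
  rw [if_neg (by omega)]

lemma lr_rn {n : ℕ} (h : n < M) (hu : us b n = false) : lr b (rn b n) = rr b n := by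
  have h1 := rn_spec hb h hu
  rw [rr_eq h, lr_eq (by omega : 0 < rn b n), h1.2.2.2, mul_comm]

lemma rr_ln {n : ℕ} (h : 0 < n) (h' : n ≤ M) (hu : us b n = false) : rr b (ln b n) = lr b n := by
  have h1 := ln_spec hb h hu
  rw [lr_eq h, rr_eq (by omega : ln b n < M), h1.2.2, mul_comm]

lemma BB_of_rr {n : ℕ} (hu : us b n = false) (h : rr b n = .s) : 3 ≤ BB b n := by
  have hn : n < M := by
    by_contra hc
    unfold rr at h
    rw [if_pos (by omega)] at h
    exact absurd h (by decide)
  rw [rr_eq hn] at h
  by_cases h2 : 0 < bb b n * bb b (rn b n)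
  · exact BB_same hb hn hu h2
  · rw [if_neg h2] at h
    exact absurd h (by decide)

lemma BB_last (h : lr b M = .s) : 3 ≤ BB b M := by
  have hM0 : 0 < M := by
    by_contra hc
    unfold lr at h
    rw [if_pos (by omega)] at h
    exact absurd h (by decide)
  have h1 : 0 < bb b M * bb b (ln b M) := by
    by_contra hc
    rw [lr_eq hM0, if_neg hc] at h
    exact absurd h (by decide)
  have h2 := bb_last hb
  by_cases h3 : us b (M - 1) = true
  · unfold BB
    rw [h3]
    simp
    omega
  · have h4 : ln b M = M - 1 := by
      unfold ln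
      rw [if_neg h3]
    rw [h4, mul_comm] at h1
    have := bb_same hb (n := M - 1) (by omega) (by rwa [show M - 1 + 1 = M by omega])
    rw [show M - 1 + 1 = M by omega] at this
    unfold BB
    omega

omit hb in
lemma rr_ne_e {n : ℕ} (h : n < M) : rr b n ≠ .e := by
  rw [rr_eq h]
  split_ifs <;> decide

omit hb in
lemma lr_ne_e {n : ℕ} (h : 0 < n) : lr b n ≠ .e := by
  rw [lr_eq h]
  split_ifs <;> decide

omit hb in
lemma rr_last : rr b M = .e := by
  unfold rr
  rw [if_pos le_rfl]

omit hb in
lemma lr_zero : lr b 0 = .e := by
  unfold lr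
  rw [if_pos rfl]

omit hb in
lemma na_add_ns (n : ℕ) : na b n + ns b n ≤ 2 := by
  unfold na ns
  cases lr b n <;> cases rr b n <;> decide

lemma BB_two {n : ℕ} (hn : n ≤ M) (hu : us b n = false) (h : BB b n ≤ 2) (hs : 1 ≤ ns b n) :
    ns b n = 1 ∧ na b n = 1 := by
  have h1 : rr b n ≠ .s := fun h1 => by
    have := BB_of_rr hb hu h1
    omega
  have h2 : lr b n = .s := by
    by_contra hc
    unfold ns at hs
    rw [if_neg hc, if_neg h1] at hs
    omega
  have h3 : rr b n ≠ .e := fun h3 => by
    have h4 : n = M := by
      by_contra hc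
      exact rr_ne_e (by omega) h3
    rw [h4] at h2 h
    have := BB_last hb h2
    omega
  have h4 : rr b n = .a := by
    cases h5 : rr b n
    · exact absurd h5 h3
    · rfl
    · exact absurd h5 h1
  unfold ns na
  rw [h2, h4]
  decide

/-- a neighbour to the right seen through an equal sign -/
lemma port_right (F : RingFacts) {n : ℕ} (hn : n < M) (hu : us b n = false) :
    frS (sg b n * sg b (rn b n)) (Star1 (Poly (vt (ty b (rn b n))))) ⊆
      (if rr b n = .s then Poly pS else frS (-1) (Poly pA)) := by
  have h1 := rn_spec hb hn hu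
  have h0 := bb_ne hb hn.le
  have h0' := bb_ne hb h1.2.1
  by_cases h2 : 0 < bb b n * bb b (rn b n)
  · have h3 : rr b n = .s := by rw [rr_eq hn, if_pos h2]
    rw [if_pos h3]
    have h4 : sg b n * sg b (rn b n) = 1 := by
      unfold sg
      rcases lt_or_gt_of_ne h0 with h5 | h5
      · have h6 : bb b (rn b n) < 0 := by nlinarith
        rw [if_neg (by omega), if_neg (by omega)]
        norm_num
      · have h6 : 0 < bb b (rn b n) := (mul_pos_iff_of_pos_left h5).1 h2
        rw [if_pos h5, if_pos h6]
        norm_num
    rw [h4, frS_one]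
    refine F.starS _ (rtype_hasS ?_ (na_add_ns _) fun h5 => ?_)
    · unfold ns
      rw [lr_rn hb hn hu, h3]
      simp
    · refine BB_two hb h1.2.1 h1.2.2.1 h5 ?_
      unfold ns
      rw [lr_rn hb hn hu, h3]
      simp
  · have h3 : rr b n ≠ .s := by
      rw [rr_eq hn, if_neg h2]
      decide
    rw [if_neg h3]
    have h7 : bb b n * bb b (rn b n) < 0 := by
      have := mul_ne_zero h0 h0'
      omega
    have h4 : sg b n * sg b (rn b n) = -1 := by
      unfold sg
      rcases lt_or_gt_of_ne h0 with h5 | h5
      · have h6 : 0 < bb b (rn b n) := by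
          by_contra hc
          have : bb b (rn b n) < 0 := by omega
          have := mul_pos_of_neg_of_neg h5 this
          omega
        rw [if_neg (by omega), if_pos h6]
        norm_num
      · have h6 : bb b (rn b n) < 0 := by
          by_contra hc
          have : 0 < bb b (rn b n) := by omega
          have := mul_pos h5 this
          omega
        rw [if_pos h5, if_neg (by omega)]
        norm_num
    rw [h4]
    exact frS_mono (F.starA _)

/-- a neighbour to the left -/
lemma port_left (F : RingFacts) {n : ℕ} (hn : 0 < n) (hn' : n ≤ M) (hu : us b n = false) :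
    frS (sg b n * sg b (ln b n)) (Star1 (Poly (vt (ty b (ln b n))))) ⊆
      (if lr b n = .s then Poly pT else frS (-1) (Poly pA)) := by
  have h1 := ln_spec hb hn hu
  have h0 := bb_ne hb hn'
  have h0' := bb_ne hb (by omega : ln b n ≤ M)
  by_cases h2 : 0 < bb b n * bb b (ln b n)
  · have h3 : lr b n = .s := by rw [lr_eq hn, if_pos h2]
    rw [if_pos h3]
    have h4 : sg b n * sg b (ln b n) = 1 := by
      unfold sg
      rcases lt_or_gt_of_ne h0 with h5 | h5
      · have h6 : bb b (ln b n) < 0 := by nlinarith
        rw [if_neg (by omega), if_neg (by omega)]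
        norm_num
      · have h6 : 0 < bb b (ln b n) := (mul_pos_iff_of_pos_left h5).1 h2
        rw [if_pos h5, if_pos h6]
        norm_num
    rw [h4, frS_one]
    have h8 : rr b (ln b n) = .s := by rw [rr_ln hb hn hn' hu, h3]
    refine F.starT _ (rtype_hasT ?_ (na_add_ns _) (BB_of_rr hb h1.2.1 h8))
    unfold ns
    rw [h8]
    simp
  · have h3 : lr b n ≠ .s := by
      rw [lr_eq hn, if_neg h2]
      decide
    rw [if_neg h3]
    have h7 : bb b n * bb b (ln b n) < 0 := by
      have := mul_ne_zero h0 h0'
      omega
    have h4 : sg b n * sg b (ln b n) = -1 := by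
      unfold sg
      rcases lt_or_gt_of_ne h0 with h5 | h5
      · have h6 : 0 < bb b (ln b n) := by
          by_contra hc
          have : bb b (ln b n) < 0 := by omega
          have := mul_pos_of_neg_of_neg h5 this
          omega
        rw [if_neg (by omega), if_pos h6]
        norm_num
      · have h6 : bb b (ln b n) < 0 := by
          by_contra hc
          have : 0 < bb b (ln b n) := by omega
          have := mul_pos h5 this
          omega
        rw [if_pos h5, if_neg (by omega)]
        norm_num
    rw [h4]
    exact frS_mono (F.starA _)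

/-- the same with the larger port set -/
lemma port_left' (F : RingFacts) {n : ℕ} (hn : 0 < n) (hn' : n ≤ M) (hu : us b n = false) :
    frS (sg b n * sg b (ln b n)) (Star1 (Poly (vt (ty b (ln b n))))) ⊆
      (if lr b n = .s then Poly pS else frS (-1) (Poly pA)) := by
  have h1 := ln_spec hb hn hu
  by_cases h3 : lr b n = .s
  · rw [if_pos h3]
    have h2 : 0 < bb b n * bb b (ln b n) := by
      by_contra hc
      rw [lr_eq hn, if_neg hc] at h3
      exact absurd h3 (by decide)
    have h0 := bb_ne hb hn'
    have h4 : sg b n * sg b (ln b n) = 1 := by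
      unfold sg
      rcases lt_or_gt_of_ne h0 with h5 | h5
      · have h6 : bb b (ln b n) < 0 := by nlinarith
        rw [if_neg (by omega), if_neg (by omega)]
        norm_num
      · have h6 : 0 < bb b (ln b n) := (mul_pos_iff_of_pos_left h5).1 h2
        rw [if_pos h5, if_pos h6]
        norm_num
    rw [h4, frS_one]
    have h8 : rr b (ln b n) = .s := by rw [rr_ln hb hn hn' hu, h3]
    refine F.starS _ (rtype_hasS ?_ (na_add_ns _) fun h5 => ?_)
    · unfold ns
      rw [h8]
      simp
    · have := BB_of_rr hb h1.2.1 h8
      omega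
  · have := port_left hb F hn hn' hu
    rw [if_neg h3] at this ⊢
    exact this

/-- the ring equations and the location of the ring values of a word -/
structure Sol (b : Fin (M + 1) → ℤ) (w : ℕ → ℂ) : Prop where
  re0 : ∀ n ≤ M, us b n = false → 0 < (w n).re
  re1 : ∀ n ≤ M, us b n = false → (w n).re < 3 / 2
  im : ∀ n ≤ M, us b n = false → |(w n).im| < 2
  mem : ∀ n ≤ M, us b n = false → Complex.cos (w n) ∈ frS (sg b n) (PolyU (vt (ty b n)))
  hingeR : ∀ n < M, us b n = false → r0 < (RR (w n) (Complex.cos (w (rn b n)))).re
  hingeL : ∀ n < M, us b n = false → r0 < (RR (w (rn b n)) (Complex.cos (w n))).re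
  first : (BB b 0 : ℂ) * w 0 - Real.pi + I * sg b 0 * QQ (w 0) (Complex.cos (w (rn b 0))) = 0
  last : (BB b M : ℂ) * w M - Real.pi + I * sg b M * QQ (w M) (Complex.cos (w (ln b M))) = 0
  inner : ∀ n, 0 < n → n < M → us b n = false → (BB b n : ℂ) * w n - Real.pi +
    I * sg b n * (QQ (w n) (Complex.cos (w (ln b n))) + QQ (w n) (Complex.cos (w (rn b n)))) = 0

/-- The ring system of a word of the class has a solution with known location. -/
theorem exists_sol (F : RingFacts) (hM : 1 ≤ M) : ∃ w : ℕ → ℂ, Sol b w := by
  classical
  let ι := {i : Fin (M + 1) // us b i.val = false}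
  let mk : (n : ℕ) → (h : n ≤ M) → us b n = false → ι := fun n h hu => ⟨⟨n, by omega⟩, hu⟩
  let nb : ι → Finset ι := fun i => Finset.univ.filter fun j =>
    (i.1.val < M ∧ j.1.val = rn b i.1.val) ∨ (0 < i.1.val ∧ j.1.val = ln b i.1.val)
  have hle : ∀ i : ι, i.1.val ≤ M := fun i => by have := i.1.2; omega
  have hrn : ∀ i : ι, i.1.val < M → i.1.val < rn b i.1.val := fun i h => (rn_spec hb h i.2).1
  have hln : ∀ i : ι, 0 < i.1.val → ln b i.1.val < i.1.val := fun i h => (ln_spec hb h i.2).1
  have hmem : ∀ i j : ι, j ∈ nb i ↔ ((i.1.val < M ∧ j.1.val = rn b i.1.val) ∨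
      (0 < i.1.val ∧ j.1.val = ln b i.1.val)) := fun i j => by
    simp only [nb, Finset.mem_filter, Finset.mem_univ, true_and]
  have hnb : ∀ i, i ∉ nb i := by
    intro i h
    rcases (hmem i i).1 h with ⟨h1, h2⟩ | ⟨h1, h2⟩
    · have := hrn i h1
      omega
    · have := hln i h1
      omega
  have hext : ∀ {i j : ι}, i.1.val = j.1.val → i = j := fun h => Subtype.ext (Fin.ext h)
  -- the three kinds of rings
  have hk0 : ∀ i : ι, i.1.val = 0 → ∃ j : ι, j.1.val = rn b 0 ∧ nb i = {j} := by
    intro i hi
    have h1 := rn_spec hb (n := 0) (by omega) rfl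
    refine ⟨mk _ h1.2.1 h1.2.2.1, rfl, ?_⟩
    ext j
    rw [hmem, Finset.mem_singleton]
    constructor
    · rintro (⟨_, h3⟩ | ⟨h2, _⟩)
      · exact hext (by rw [h3, hi])
      · omega
    · rintro rfl
      left
      rw [hi]
      exact ⟨by omega, rfl⟩
  have hkM : ∀ i : ι, i.1.val = M → ∃ j : ι, j.1.val = ln b M ∧ nb i = {j} := by
    intro i hi
    have h0 : us b M = false := by have := i.2; rwa [hi] at this
    have h1 := ln_spec hb (n := M) (by omega) h0
    refine ⟨mk _ (by omega) h1.2.1, rfl, ?_⟩
    ext j
    rw [hmem, Finset.mem_singleton]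
    constructor
    · rintro (⟨h2, _⟩ | ⟨_, h3⟩)
      · omega
      · exact hext (by rw [h3, hi])
    · rintro rfl
      right
      rw [hi]
      exact ⟨by omega, rfl⟩
  have hki : ∀ i : ι, 0 < i.1.val → i.1.val < M → ∃ j j' : ι, j.1.val = ln b i.1.val ∧
      j'.1.val = rn b i.1.val ∧ j ≠ j' ∧ nb i = {j, j'} := by
    intro i h0 hM'
    have h1 := ln_spec hb h0 i.2
    have h2 := rn_spec hb hM' i.2
    refine ⟨mk _ (by omega) h1.2.1, mk _ h2.2.1 h2.2.2.1, rfl, rfl, ?_, ?_⟩
    · intro h
      have := congrArg (fun j : ι => j.1.val) h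
      simp only [mk] at this
      omega
    · ext j
      rw [hmem, Finset.mem_insert, Finset.mem_singleton]
      constructor
      · rintro (⟨_, h3⟩ | ⟨_, h3⟩)
        · exact Or.inr (hext h3)
        · exact Or.inl (hext h3)
      · rintro (rfl | rfl)
        · exact Or.inr ⟨h0, rfl⟩
        · exact Or.inl ⟨hM', rfl⟩
  have hcases : ∀ i, (∃ j, nb i = {j}) ∨ (∃ j j', j ≠ j' ∧ nb i = {j, j'}) := by
    intro i
    by_cases h0 : i.1.val = 0
    · obtain ⟨j, _, hj⟩ := hk0 i h0
      exact Or.inl ⟨j, hj⟩
    · by_cases h1 : i.1.val = M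
      · obtain ⟨j, _, hj⟩ := hkM i h1
        exact Or.inl ⟨j, hj⟩
      · have := hle i
        obtain ⟨j, j', _, _, hne, hj⟩ := hki i (by omega) (by omega)
        exact Or.inr ⟨j, j', hne, hj⟩
  have hus0 : us b 0 = false := rfl
  have husM : us b M = false := us_of_ge hb le_rfl
  -- types
  have hl0 : lr b 0 = .e := lr_zero
  have hrM : rr b M = .e := rr_last
  obtain ⟨w, hw⟩ := graph_exists (nb := nb) hnb hcases
    (b := fun i : ι => ((BB b i.1.val : ℕ) : ℝ)) (s := fun i : ι => sg b i.1.val)
    (fun i => sg_or _) (K := fun i => Poly (vt (ty b i.1.val)))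
    (U := fun i => PolyU (vt (ty b i.1.val))) (r := r0) (by unfold r0; norm_num)
    (fun i => F.closed _) (fun i => F.re_pos _) (fun i => F.isOpen _) (fun i => F.sub _)
    (by
      -- end rings
      intro i j hij
      by_cases h0 : i.1.val = 0
      · obtain ⟨j', hj', hnj⟩ := hk0 i h0
        have hjj : j = j' := by
          rw [hij] at hnj
          exact Finset.singleton_injective hnj
        subst hjj
        have hp := port_right hb F (n := 0) (by omega) hus0
        rw [h0, hj']
        by_cases hr : rr b 0 = .s
        · have hB := BB_of_rr hb hus0 hr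
          rw [if_pos hr] at hp
          have ht : ty b 0 = rtype (BB b 0) 0 1 := by
            unfold ty na ns
            rw [hl0, hr]
            rfl
          have := F.end_s (BB b 0) hB
          rw [← ht] at this
          exact this.mono hp
        · rw [if_neg hr] at hp
          have hra : rr b 0 = .a := by
            have := rr_ne_e (b := b) (n := 0) (by omega)
            cases h : rr b 0
            · exact absurd h this
            · rfl
            · exact absurd h hr
          have ht : ty b 0 = rtype (BB b 0) 1 0 := by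
            unfold ty na ns
            rw [hl0, hra]
            rfl
          have := F.end_a (BB b 0) (BB_ge hb (by omega) hus0)
          rw [← ht] at this
          exact this.mono hp
      · by_cases h1 : i.1.val = M
        · obtain ⟨j', hj', hnj⟩ := hkM i h1
          have hjj : j = j' := by
            rw [hij] at hnj
            exact Finset.singleton_injective hnj
          subst hjj
          have hp := port_left' hb F (n := M) (by omega) le_rfl husM
          rw [h1, hj']
          by_cases hr : lr b M = .s
          · have hB := BB_last hb hr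
            rw [if_pos hr] at hp
            have ht : ty b M = rtype (BB b M) 0 1 := by
              unfold ty na ns
              rw [hrM, hr]
              rfl
            have := F.end_s (BB b M) hB
            rw [← ht] at this
            exact this.mono hp
          · rw [if_neg hr] at hp
            have hra : lr b M = .a := by
              have := lr_ne_e (b := b) (n := M) (by omega)
              cases h : lr b M
              · exact absurd h this
              · rfl
              · exact absurd h hr
            have ht : ty b M = rtype (BB b M) 1 0 := by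
              unfold ty na ns
              rw [hrM, hra]
              rfl
            have := F.end_a (BB b M) (BB_ge hb le_rfl husM)
            rw [← ht] at this
            exact this.mono hp
        · exfalso
          have := hle i
          obtain ⟨j1, j2, _, _, hne, hj⟩ := hki i (by omega) (by omega)
          rw [hij] at hj
          have h2 := congrArg Finset.card hj
          rw [Finset.card_singleton, Finset.card_pair hne] at h2
          omega)
    (by
      -- inner rings
      intro i j j' hne hij
      have h0 : 0 < i.1.val := by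
        by_contra hc
        obtain ⟨j1, _, hnj⟩ := hk0 i (by omega)
        rw [hij] at hnj
        have h2 := congrArg Finset.card hnj
        rw [Finset.card_singleton, Finset.card_pair hne] at h2
        omega
      have h1 : i.1.val < M := by
        by_contra hc
        have := hle i
        obtain ⟨j1, _, hnj⟩ := hkM i (by omega)
        rw [hij] at hnj
        have h2 := congrArg Finset.card hnj
        rw [Finset.card_singleton, Finset.card_pair hne] at h2
        omega
      have hu := i.2
      have key : Ring2 ((BB b i.1.val : ℕ) : ℝ) (Poly (vt (ty b i.1.val)))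
          (PolyU (vt (ty b i.1.val)))
          (frS (sg b i.1.val * sg b (ln b i.1.val)) (Star1 (Poly (vt (ty b (ln b i.1.val))))))
          (frS (sg b i.1.val * sg b (rn b i.1.val)) (Star1 (Poly (vt (ty b (rn b i.1.val)))))) r0 := by
        set n := i.1.val
        have hpr := port_right hb F h1 hu
        have hpl := port_left hb F h0 h1.le hu
        have hpl' := port_left' hb F h0 h1.le hu
        have hB := BB_ge hb h1.le hu
        have hrne := rr_ne_e (b := b) h1
        have hlne := lr_ne_e (b := b) h0
        cases hl : lr b n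
        · exact absurd hl hlne
        · rw [hl] at hpl
          rw [if_neg (by decide)] at hpl
          cases hr : rr b n
          · exact absurd hr hrne
          · rw [hr] at hpr
            rw [if_neg (by decide)] at hpr
            have ht : ty b n = rtype (BB b n) 2 0 := by
              unfold ty na ns
              rw [hl, hr]
              rfl
            have := F.aa (BB b n) hB
            rw [← ht] at this
            exact this.mono hpl hpr
          · have hB3 := BB_of_rr hb hu hr
            rw [hr, if_pos rfl] at hpr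
            have ht : ty b n = rtype (BB b n) 1 1 := by
              unfold ty na ns
              rw [hl, hr]
              rfl
            have := F.as3 (BB b n) hB3
            rw [← ht] at this
            exact this.mono hpl hpr
        · cases hr : rr b n
          · exact absurd hr hrne
          · rw [hr] at hpr
            rw [if_neg (by decide)] at hpr
            have ht : ty b n = rtype (BB b n) 1 1 := by
              unfold ty na ns
              rw [hl, hr]
              rfl
            rcases hB.eq_or_lt with h2 | h3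
            · rw [hl, if_pos rfl] at hpl
              have := F.as2
              rw [h2, ← ht] at this
              have h4 := (this.mono hpr hpl).symm
              have e : ((2 : ℕ) : ℝ) = ((BB b n : ℕ) : ℝ) := by rw [h2]
              push_cast at e
              rw [← e]
              exact h4
            · rw [hl, if_pos rfl] at hpl'
              have := F.as3 (BB b n) (by omega)
              rw [← ht] at this
              exact (this.mono hpr hpl').symm
          · have hB3 := BB_of_rr hb hu hr
            rw [hr, if_pos rfl] at hpr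
            rw [hl, if_pos rfl] at hpl'
            have ht : ty b n = rtype (BB b n) 0 2 := by
              unfold ty na ns
              rw [hl, hr]
              rfl
            have := F.ss (BB b n) hB3
            rw [← ht] at this
            exact this.mono hpl' hpr
      obtain ⟨j1, j2, hj1, hj2, hne2, hj⟩ := hki i h0 h1
      rw [hij] at hj
      have hcase : (j = j1 ∧ j' = j2) ∨ (j = j2 ∧ j' = j1) := by
        have h3 : j ∈ ({j1, j2} : Finset ι) := by rw [← hj]; simp
        have h4 : j' ∈ ({j1, j2} : Finset ι) := by rw [← hj]; simp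
        rw [Finset.mem_insert, Finset.mem_singleton] at h3 h4
        rcases h3 with h3 | h3 <;> rcases h4 with h4 | h4
        · exact absurd (h3.trans h4.symm) hne
        · exact Or.inl ⟨h3, h4⟩
        · exact Or.inr ⟨h3, h4⟩
        · exact absurd (h3.trans h4.symm) hne
      rcases hcase with ⟨rfl, rfl⟩ | ⟨rfl, rfl⟩
      · rw [hj1, hj2]
        exact key
      · rw [hj1, hj2]
        exact key.symm)
    (by
      intro i
      by_cases h0 : i.1.val = 0
      · obtain ⟨j, _, hj⟩ := hk0 i h0
        have hB := BB_ge hb (n := 0) (by omega) hus0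
        have hcount : na b 0 + ns b 0 = 1 := by
          unfold na ns
          rw [hl0]
          have := rr_ne_e (b := b) (n := 0) (by omega)
          cases h : rr b 0
          · exact absurd h this
          · decide
          · decide
        have hns : BB b 0 = 2 → ns b 0 = 0 := by
          intro h2
          unfold ns
          rw [hl0]
          have : rr b 0 ≠ .s := fun h => by
            have := BB_of_rr hb hus0 h
            omega
          rw [if_neg this]
          decide
        obtain ⟨w, h1, h2, h3, h4, h5, h6⟩ := F.start1 (BB b 0) _ _ hB hcount hns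
        rw [hj, h0, Finset.card_singleton]
        refine ⟨w, h1, h2, h3, h4, h5, ?_⟩
        rw [← h6]
        push_cast
        ring
      · by_cases h1 : i.1.val = M
        · obtain ⟨j, _, hj⟩ := hkM i h1
          have hB := BB_ge hb (n := M) le_rfl husM
          have hcount : na b M + ns b M = 1 := by
            unfold na ns
            rw [hrM]
            have := lr_ne_e (b := b) (n := M) (by omega)
            cases h : lr b M
            · exact absurd h this
            · decide
            · decide
          have hns : BB b M = 2 → ns b M = 0 := by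
            intro h2
            unfold ns
            rw [hrM]
            have : lr b M ≠ .s := fun h => by
              have := BB_last hb h
              omega
            rw [if_neg this]
            decide
          obtain ⟨w, h1', h2, h3, h4, h5, h6⟩ := F.start1 (BB b M) _ _ hB hcount hns
          rw [hj, h1, Finset.card_singleton]
          refine ⟨w, h1', h2, h3, h4, h5, ?_⟩
          rw [← h6]
          push_cast
          ring
        · have hle' := hle i
          obtain ⟨j, j', _, _, hne, hj⟩ := hki i (by omega) (by omega)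
          have hB := BB_ge hb hle' i.2
          have hcount : na b i.1.val + ns b i.1.val = 2 := by
            unfold na ns
            have h3 := lr_ne_e (b := b) (n := i.1.val) (by omega)
            have h4 := rr_ne_e (b := b) (n := i.1.val) (by omega)
            cases h5 : lr b i.1.val
            · exact absurd h5 h3
            · cases h : rr b i.1.val
              · exact absurd h h4
              · decide
              · decide
            · cases h : rr b i.1.val
              · exact absurd h h4
              · decide
              · decide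
          have hns : BB b i.1.val = 2 → ns b i.1.val ≤ 1 := by
            intro h2
            unfold ns
            have : rr b i.1.val ≠ .s := fun h => by
              have := BB_of_rr hb i.2 h
              omega
            rw [if_neg this]
            split_ifs <;> decide
          obtain ⟨w, h1', h2, h3, h4, h5, h6⟩ := F.start2 (BB b i.1.val) _ _ hB hcount hns
          rw [hj, Finset.card_pair hne]
          refine ⟨w, h1', h2, h3, h4, h5, ?_⟩
          rw [← h6]
          push_cast
          ring)
  -- the solution as a function on the natural numbers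
  let W : ℕ → ℂ := fun n => if h : n ≤ M ∧ us b n = false then w (mk n h.1 h.2) else 0
  have hW : ∀ n (h : n ≤ M) (hu : us b n = false), W n = w (mk n h hu) := fun n h hu => by
    simp only [W]
    rw [dif_pos ⟨h, hu⟩]
  have hWi : ∀ i : ι, W i.1.val = w i := fun i => hW _ (hle i) i.2
  have hk1 : ∀ z, kap 1 z = Complex.cos z := fun z => by simp [kap]
  refine ⟨W, ?_, ?_, ?_, ?_, ?_, ?_, ?_, ?_, ?_⟩
  · intro n h hu
    rw [hW n h hu]
    exact (hw _).2.re0
  · intro n h hu
    rw [hW n h hu]
    exact (hw _).2.re1
  · intro n h hu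
    rw [hW n h hu]
    exact (hw _).2.im
  · intro n h hu
    rw [hW n h hu]
    exact (hw (mk n h hu)).2.mem
  · intro n h hu
    have h1 := rn_spec hb h hu
    rw [hW n h.le hu, hW _ h1.2.1 h1.2.2.1]
    refine (hw (mk n h.le hu)).2.hinge _ ?_
    rw [hmem]
    exact Or.inl ⟨h, rfl⟩
  · intro n h hu
    have h1 := rn_spec hb h hu
    rw [hW n h.le hu, hW _ h1.2.1 h1.2.2.1]
    refine (hw (mk _ h1.2.1 h1.2.2.1)).2.hinge (mk n h.le hu) ?_
    rw [hmem]
    exact Or.inr ⟨by show 0 < rn b n; omega, h1.2.2.2.symm⟩
  · obtain ⟨j, hj1, hj⟩ := hk0 (mk 0 (by omega) hus0) rfl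
    have h1 := (hw (mk 0 (by omega) hus0)).1
    unfold FF at h1
    rw [hj, Finset.sum_singleton, hk1] at h1
    have h2 : W (rn b 0) = w j := by rw [← hj1]; exact hWi j
    rw [hW 0 (by omega) hus0, h2]
    rw [← h1]
    push_cast
    rfl
  · obtain ⟨j, hj1, hj⟩ := hkM (mk M le_rfl husM) rfl
    have h1 := (hw (mk M le_rfl husM)).1
    unfold FF at h1
    rw [hj, Finset.sum_singleton, hk1] at h1
    have h2 : W (ln b M) = w j := by rw [← hj1]; exact hWi j
    rw [hW M le_rfl husM, h2]
    rw [← h1]
    push_cast
    rfl
  · intro n h0 h1 hu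
    obtain ⟨j, j', hj1, hj2, hne, hj⟩ := hki (mk n h1.le hu) h0 h1
    have h3 := (hw (mk n h1.le hu)).1
    unfold FF at h3
    rw [hj, Finset.sum_pair hne, hk1, hk1] at h3
    have h4 : W (ln b n) = w j := by
      have : ln b n = j.1.val := hj1.symm
      rw [this]
      exact hWi j
    have h5 : W (rn b n) = w j' := by
      have : rn b n = j'.1.val := hj2.symm
      rw [this]
      exact hWi j'
    rw [hW n h1.le hu, h4, h5]
    rw [← h3]
    push_cast
    rfl

end SR

end Pool.Agent.Work.MP_b30479_gt.G2
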