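import Pool.Agent.Work.MP_b30479_gt.G2.SKapC
import Pool.Agent.Work.MP_b30479_gt.G2.SWordB

/-!
# Geometry of the typed polygons: closed, open, inclusions of the star shaped hulls
-/

namespace Pool.Agent.Work.MP_b30479_gt.G2.KB

open Complex SQ Set

lemma cr_cont (p q : ℤ × ℤ) : Continuous (cr p q) := by
  unfold cr
  fun_prop

lemma poly_closed (V : List (ℤ × ℤ)) : IsClosed (Poly V) := by
  have e : Poly V = ⋂ e : (ℤ × ℤ) × (ℤ × ℤ), ⋂ _ : e ∈ edges V, {z | 0 ≤ cr e.1 e.2 z} := by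
    ext z
    simp only [Poly, mem_ofPred_eq, mem_iInter]
  rw [e]
  exact isClosed_iInter fun e => isClosed_iInter fun _ =>
    isClosed_le continuous_const (cr_cont e.1 e.2)

lemma polyU_open (V : List (ℤ × ℤ)) : IsOpen (PolyU V) := by
  unfold PolyU
  induction edges V with
  | nil => simp
  | cons a l ih =>
    have e : {z : ℂ | ∀ e ∈ a :: l, 0 < cr e.1 e.2 z} =
        {z | 0 < cr a.1 a.2 z} ∩ {z | ∀ e ∈ l, 0 < cr e.1 e.2 z} := by
      ext z
      simp only [List.mem_cons, forall_eq_or_imp, mem_ofPred_eq, mem_inter_iff]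
    rw [e]
    exact (isOpen_lt continuous_const (cr_cont a.1 a.2)).inter ih

lemma polyU_sub (V : List (ℤ × ℤ)) : PolyU V ⊆ Poly V := fun _ hz e he => (hz e he).le

lemma poly_re_pos (t : RT) : ∀ z ∈ Poly (vt t), 0 < z.re := by
  intro z hz
  have := lin_of (al := 1) (be := 0) (mu := 400) (V := vt t) (by cases t <;> decide) hz
  push_cast at this
  linarith

/-- check that `1` and the polygon `V` are in the polygon `W` -/
def starOK (V W : List (ℤ × ℤ)) : Bool :=
  (edges W).all fun e => linOK (-(e.2.2 - e.1.2)) (e.2.1 - e.1.1)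
    ((e.2.1 - e.1.1) * e.1.2 - (e.2.2 - e.1.2) * e.1.1) V &&
    decide (0 ≤ -(e.2.2 - e.1.2) * 1000 -
      ((e.2.1 - e.1.1) * e.1.2 - (e.2.2 - e.1.2) * e.1.1))

lemma star_sub {V W : List (ℤ × ℤ)} (h : starOK V W = true) : Star1 (Poly V) ⊆ Poly W := by
  rintro k ⟨θ, h0, h1, z, hz, rfl⟩ e he
  rw [starOK, List.all_eq_true] at h
  have h2 := h e he
  rw [Bool.and_eq_true, decide_eq_true_eq] at h2
  have h3 := lin_of h2.1 hz
  have h4 : (0 : ℝ) ≤ -((e.2.2 : ℝ) - e.1.2) * 1000 -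
      (((e.2.1 : ℝ) - e.1.1) * e.1.2 - ((e.2.2 : ℝ) - e.1.2) * e.1.1) := by exact_mod_cast h2.2
  push_cast at h3
  simp only [cr, Int.cast_sub, Complex.add_re, Complex.add_im, Complex.sub_re, Complex.sub_im,
    Complex.one_re, Complex.one_im, Complex.ofReal_re, Complex.ofReal_im, Complex.mul_re,
    Complex.mul_im, zero_mul, sub_zero, add_zero, zero_add]
  have h5 := mul_nonneg (sub_nonneg.mpr h1) h4
  have h6 := mul_nonneg h0 (sub_nonneg.mpr h3)
  nlinarith

theorem starA (t : RT) : Star1 (Poly (vt t)) ⊆ Poly pA := star_sub (by cases t <;> decide)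

theorem starS (t : RT) (h : RT.hasS t = true) : Star1 (Poly (vt t)) ⊆ Poly pS :=
  star_sub (by revert h; cases t <;> simp only [RT.hasS] <;> decide)

theorem starT (t : RT) (h : RT.hasT t = true) : Star1 (Poly (vt t)) ⊆ Poly pT :=
  star_sub (by revert h; cases t <;> simp only [RT.hasT] <;> decide)

end Pool.Agent.Work.MP_b30479_gt.G2.KB
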