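import Pool.Agent.Work.MP_b30479_gt.G2.SRef
import Pool.Agent.Work.MP_b30479_gt.G2.S2Loc
import Pool.Agent.Work.MP_b30479_gt.G2.SRingG

/-!
# Refined location of the value of a ring: from the certificates to the ring equation
-/

namespace Pool.Agent.Work.MP_b30479_gt.G2

open Complex Set SC
open scoped ComplexConjugate

/-- refined location of an end ring: the value is in the interior of the polygon `V` -/
def Rf1 (b : ℝ) (t : RT) (P : Set ℂ) (V : List (ℤ × ℤ)) : Prop :=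
  ∀ k ∈ P, ∀ w : ℂ, 0 ≤ w.re → w.re ≤ 3 / 2 → |w.im| ≤ 2 → Complex.cos w ∈ Poly (vt t) →
    r0 ≤ (RR w k).re → b * w - Real.pi + I * QQ w k = 0 → Complex.cos w ∈ PolyU V

/-- refined location of an interior ring -/
def Rf2 (b : ℝ) (t : RT) (P P' : Set ℂ) (V : List (ℤ × ℤ)) : Prop :=
  ∀ k ∈ P, ∀ k' ∈ P', ∀ w : ℂ, 0 ≤ w.re → w.re ≤ 3 / 2 → |w.im| ≤ 2 →
    Complex.cos w ∈ Poly (vt t) → r0 ≤ (RR w k).re → r0 ≤ (RR w k').re →
    b * w - Real.pi + I * (QQ w k + QQ w k') = 0 → Complex.cos w ∈ PolyU V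

lemma Rf2.symm {b : ℝ} {t : RT} {P P' : Set ℂ} {V : List (ℤ × ℤ)} (h : Rf2 b t P P' V) :
    Rf2 b t P' P V := fun k hk k' hk' w h0 h1 h2 h3 h4 h5 h6 =>
  h k' hk' k hk w h0 h1 h2 h3 h5 h4 (by rw [← h6]; ring)

lemma Rf1.mono {b : ℝ} {t : RT} {P Q : Set ℂ} {V : List (ℤ × ℤ)} (h : Rf1 b t P V) (hQ : Q ⊆ P) :
    Rf1 b t Q V := fun k hk => h k (hQ hk)

lemma Rf2.mono {b : ℝ} {t : RT} {P P' Q Q' : Set ℂ} {V : List (ℤ × ℤ)} (h : Rf2 b t P P' V)
    (hQ : Q ⊆ P) (hQ' : Q' ⊆ P') : Rf2 b t Q Q' V := fun k hk k' hk' => h k (hQ hk) k' (hQ' hk')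

/-! ### a box in a polygon -/

/-- the corners of the box (units `1 / 16000`) are in the interior of the polygon -/
def boxIn (x1 x2 y1 y2 : ℤ) (V : List (ℤ × ℤ)) : Bool :=
  (edges V).all fun e =>
    decide (0 < (e.2.1 - e.1.1) * (y1 - 16 * e.1.2) - (e.2.2 - e.1.2) * (x1 - 16 * e.1.1)) &&
    decide (0 < (e.2.1 - e.1.1) * (y2 - 16 * e.1.2) - (e.2.2 - e.1.2) * (x1 - 16 * e.1.1)) &&
    decide (0 < (e.2.1 - e.1.1) * (y1 - 16 * e.1.2) - (e.2.2 - e.1.2) * (x2 - 16 * e.1.1)) &&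
    decide (0 < (e.2.1 - e.1.1) * (y2 - 16 * e.1.2) - (e.2.2 - e.1.2) * (x2 - 16 * e.1.1))

lemma corner_pos {a b p q x1 x2 y1 y2 X Y : ℝ} (h1 : 0 < a * (y1 - q) - b * (x1 - p))
    (h2 : 0 < a * (y2 - q) - b * (x1 - p)) (h3 : 0 < a * (y1 - q) - b * (x2 - p))
    (h4 : 0 < a * (y2 - q) - b * (x2 - p)) (hx1 : x1 < X) (hx2 : X < x2) (hy1 : y1 < Y)
    (hy2 : Y < y2) : 0 < a * (Y - q) - b * (X - p) := by
  rcases le_total 0 a with ha | ha <;> rcases le_total 0 b with hb | hb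
  · nlinarith only [h3, ha, hy1, hb, hx2, mul_nonneg ha (sub_nonneg.2 hy1.le), mul_nonneg hb (sub_nonneg.2 hx2.le)]
  · nlinarith only [h1, ha, hy1, hb, hx1, mul_nonneg ha (sub_nonneg.2 hy1.le), mul_nonneg (neg_nonneg.2 hb) (sub_nonneg.2 hx1.le)]
  · nlinarith only [h4, ha, hy2, hb, hx2, mul_nonneg (neg_nonneg.2 ha) (sub_nonneg.2 hy2.le), mul_nonneg hb (sub_nonneg.2 hx2.le)]
  · nlinarith only [h2, ha, hy2, hb, hx1, mul_nonneg (neg_nonneg.2 ha) (sub_nonneg.2 hy2.le),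
      mul_nonneg (neg_nonneg.2 hb) (sub_nonneg.2 hx1.le)]

lemma box_polyU {x1 x2 y1 y2 : ℤ} {V : List (ℤ × ℤ)} (h : boxIn x1 x2 y1 y2 V = true) {z : ℂ}
    (hz : ((x1 : ℝ) < 16000 * z.re ∧ 16000 * z.re < x2) ∧ (y1 : ℝ) < 16000 * z.im ∧
      16000 * z.im < y2) : z ∈ PolyU V := by
  intro e he
  have h1 := List.all_eq_true.1 h e he
  simp only [Bool.and_eq_true, decide_eq_true_eq] at h1
  obtain ⟨⟨⟨c1, c2⟩, c3⟩, c4⟩ := h1
  have d1 := Int.cast_pos (R := ℝ).2 c1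
  have d2 := Int.cast_pos (R := ℝ).2 c2
  have d3 := Int.cast_pos (R := ℝ).2 c3
  have d4 := Int.cast_pos (R := ℝ).2 c4
  push_cast at d1 d2 d3 d4
  have key := corner_pos d1 d2 d3 d4 hz.1.1 hz.1.2 hz.2.1 hz.2.2
  unfold cr
  push_cast
  nlinarith only [key]

/-- a lattice point (units `1 / 1000`) is in the polygon -/
def ptIn (p : ℤ × ℤ) (V : List (ℤ × ℤ)) : Bool :=
  (edges V).all fun e => decide (0 ≤ (e.2.1 - e.1.1) * (p.2 - e.1.2) - (e.2.2 - e.1.2) * (p.1 - e.1.1))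

lemma pt_mem {p : ℤ × ℤ} {V : List (ℤ × ℤ)} (h : ptIn p V = true) {c : ℂ}
    (h1 : 1000 * c.re = p.1) (h2 : 1000 * c.im = p.2) : c ∈ Poly V := by
  intro e he
  have h3 := of_decide_eq_true (List.all_eq_true.1 h e he)
  have h4 : (0 : ℝ) ≤ (((e.2.1 - e.1.1) * (p.2 - e.1.2) - (e.2.2 - e.1.2) * (p.1 - e.1.1) : ℤ) : ℝ) :=
    by exact_mod_cast h3
  push_cast at h4
  unfold cr
  rw [h1, h2]
  push_cast
  exact h4

lemma starC_poly {V : List (ℤ × ℤ)} {c : ℂ} (hc : c ∈ Poly V) : StarC c (Poly V) := by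
  intro z hz θ h0 h1 e he
  have a1 := hc e he
  have a2 := hz e he
  have e1 : cr e.1 e.2 ((θ : ℂ) * c + (1 - θ) * z) = θ * cr e.1 e.2 c + (1 - θ) * cr e.1 e.2 z := by
    unfold cr
    simp only [Complex.add_re, Complex.add_im, Complex.mul_re, Complex.mul_im, Complex.ofReal_re,
      Complex.ofReal_im, Complex.sub_re, Complex.sub_im, Complex.one_re, Complex.one_im]
    ring
  rw [e1]
  exact add_nonneg (mul_nonneg h0 a1) (mul_nonneg (by linarith only [h1]) a2)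

lemma starC_frS {K : Set ℂ} (h : StarC 1 K) : StarC 1 (frS (-1) K) := by
  intro z hz θ h0 h1
  rw [frS_neg] at hz ⊢
  have := h _ hz θ h0 h1
  show (starRingEnd ℂ) _ ∈ K
  have e : (starRingEnd ℂ) ((θ : ℂ) * 1 + (1 - θ) * z) = (θ : ℂ) * 1 + (1 - θ) * conj z := by
    simp
  rw [e]
  exact this

/-- check: `V` is contained in `W` -/
def inOK (V W : List (ℤ × ℤ)) : Bool :=
  shape V && (edges W).all fun e => V.all fun v => decide (0 ≤ xz e.1 e.2 v)

lemma poly_in {V W : List (ℤ × ℤ)} (h : inOK V W = true) : Poly V ⊆ Poly W := by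
  rw [inOK, Bool.and_eq_true] at h
  intro z hz
  rw [mem_Poly] at hz ⊢
  exact poly_sub h.1 (fun v hv e he => of_decide_eq_true (List.all_eq_true.1
    (List.all_eq_true.1 h.2 e he) v hv)) hz

/-! ### the principle -/

lemma compl_int {V : List (ℤ × ℤ)} (hV : cvx V) {z : ℂ} (h : ¬ OnE V z) (hz : z ∈ (PolyU V)ᶜ) :
    z ∈ interior (PolyU V)ᶜ := by
  have h1 : z ∉ Poly V := fun hc => h (onE_of hV hc hz)
  exact mem_interior.2 ⟨(Poly V)ᶜ, compl_subset_compl.2 (KB.polyU_sub V),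
    (KB.poly_closed V).isOpen_compl, h1⟩

theorem rf1_of {b : ℝ} {C U : ℂ → ℂ} (hCU : ∀ w : ℂ, Complex.cos (b * w) = C (Complex.cos w) ∧
      Complex.sin (b * w) = Complex.sin w * U (Complex.cos w)) {t : RT}
    {P Q : Set ℂ} (hR : Ring1 b (Poly (vt t)) (PolyU (vt t)) Q r0) (hPQ : P ⊆ Q)
    {c : ℂ} (hc : c ∈ P) (hst : StarC c P) (hP : ∀ k ∈ P, 0 < k.re) {V : List (ℤ × ℤ)} (hV : cvx V)
    (hfr : ∀ z k : ℂ, OnE V z → k ∈ P → k + I * z * U z ≠ 0)
    (hs : ∀ z ∈ Poly (vt t), c + I * z * U z = 0 → z ∈ PolyU V) : Rf1 b t P V := by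
  intro k hk w h0 h1 h2 hz hr hw
  have hsol : RSol b (Poly (vt t)) r0 (fun _ : Unit => k) w :=
    ⟨h0, h1, h2, hz, fun _ => hr, by rw [Finset.univ_unique, Finset.sum_singleton]; exact hw⟩
  have heq : ∀ {k : Unit → ℂ} {w : ℂ}, RSol b (Poly (vt t)) r0 k w →
      b * w - Real.pi + I * QQ w (k ()) = 0 := fun {k w} h => by
    have := h.eq
    rwa [Finset.univ_unique, Finset.sum_singleton] at this
  have hfact : ∀ {k : Unit → ℂ} {w : ℂ}, (∀ j, k j ∈ P) → RSol b (Poly (vt t)) r0 k w →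
      0 < w.re ∧ w.re < 3 / 2 ∧ |w.im| < 2 ∧ Complex.cos w ∈ PolyU (vt t) ∧ r0 < (RR w (k ())).re ∧
      ‖Complex.tan w ^ 2 / RR w (k ())‖ < ‖(b : ℂ) + I * (1 / (Complex.cos w ^ 2 * RR w (k ())))‖ :=
    fun {k w} hk h => hR (k ()) (hPQ (hk ())) w h.re0 h.re1 h.im h.mem (h.hinge ()) (heq h)
  have key := no_sol (J := Unit) (b := b) (K := Poly (vt t)) (U := PolyU (vt t))
    (C := (PolyU V)ᶜ) (P := fun _ => P) (c := fun _ => c) SL.r0_pos (KB.poly_closed _) (KB.poly_re_pos t)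
    (KB.polyU_open _) (KB.polyU_sub _) (KB.polyU_open V).isClosed_compl (fun _ => hP)
    (fun _ => hst) ?_ ?_ ?_ ?_ (k := fun _ => k) (fun _ => hk) hsol
  · exact not_not.1 key
  · intro k hk w h
    obtain ⟨a1, a2, a3, a4, a5, _⟩ := hfact hk h
    exact ⟨a1, a2, a3, a4, fun _ => a5⟩
  · intro k hk w h
    obtain ⟨_, _, _, _, _, a6⟩ := hfact hk h
    rw [Finset.univ_unique, Finset.sum_singleton]
    intro hc
    have e : (default : Unit) = () := rfl
    rw [e] at hc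
    rw [hc, norm_zero] at a6
    exact absurd a6 (not_lt.2 (norm_nonneg _))
  · intro k hk w h hc
    refine compl_int hV (fun hon => ?_) hc
    have hz0 := KB.poly_re_pos t _ h.mem
    have hcn : Complex.cos w ≠ 0 := cos_ne_of hz0
    obtain ⟨a1, _, _, _, a5, _⟩ := hfact hk h
    obtain ⟨e1, _⟩ := SL.rel_one (hCU w).1 (hCU w).2 a1 h.re1 hcn (hP _ (hk ()))
      (SL.r0_pos.trans a5) (heq h)
    exact hfr _ _ hon (hk ()) e1
  · intro w h hcon
    have hz0 := KB.poly_re_pos t _ h.mem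
    have hcn : Complex.cos w ≠ 0 := cos_ne_of hz0
    have g2 := heq (k := fun _ : Unit => c) (w := w) h
    obtain ⟨a1, _, _, _, a5, _⟩ := hfact (k := fun _ : Unit => c) (fun _ => hc) h
    obtain ⟨e1, _⟩ := SL.rel_one (k := c) (hCU w).1 (hCU w).2 a1 h.re1 hcn (hP _ hc)
      (SL.r0_pos.trans a5) g2
    exact hcon (hs _ h.mem e1)

/-- the relation of two equal ports -/
lemma start_rel {b w C k : ℂ} (hC : Complex.cos (b * w) = C) (h0 : 0 ≤ w.re) (h1 : w.re ≤ 3 / 2)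
    (hz : Complex.cos w ≠ 0) (hk : 0 < k.re) (hR : 0 < (RR w k).re)
    (hw : b * w - Real.pi + I * (QQ w k + QQ w k) = 0) :
    Complex.cos w ^ 2 * (1 + C) + 2 * k ^ 2 * (1 - Complex.cos w ^ 2) = 0 := by
  obtain ⟨c1, _⟩ := SL.QQ_cosh h0 h1 hk hR
  have e : 2 * QQ w k = (b * w - Real.pi) * I := by
    linear_combination (-I) * hw + (2 * QQ w k) * I_sq
  have h2 := Complex.cosh_two_mul (QQ w k)
  rw [e, Complex.cosh_mul_I, Complex.cos_sub_pi, hC] at h2
  have h3 := Complex.cosh_sq_sub_sinh_sq (QQ w k)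
  have hkn : k ≠ 0 := fun h => by rw [h] at hk; exact lt_irrefl _ hk
  have h4 := SL.rel_R (w := w) hz hkn
  rw [c1] at h2 h3
  linear_combination (-Complex.cos w ^ 2) * h2 + Complex.cos w ^ 2 * h3 - 2 * h4

theorem rf2_of {b : ℝ} {C U : ℂ → ℂ} (hCU : ∀ w : ℂ, Complex.cos (b * w) = C (Complex.cos w) ∧
      Complex.sin (b * w) = Complex.sin w * U (Complex.cos w)) {t : RT}
    {P P' Q Q' : Set ℂ} (hR : Ring2 b (Poly (vt t)) (PolyU (vt t)) Q Q' r0) (hPQ : P ⊆ Q)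
    (hPQ' : P' ⊆ Q') {c c' : ℂ} (hc : c ∈ P) (hc' : c' ∈ P') (hst : StarC c P)
    (hst' : StarC c' P') (hP : ∀ k ∈ P, 0 < k.re)
    (hP' : ∀ k ∈ P', 0 < k.re) {V : List (ℤ × ℤ)} (hV : cvx V)
    (hfr : ∀ z k l : ℂ, OnE V z → k ∈ P → l ∈ P' →
      k ^ 2 + l ^ 2 - 2 * k * l * C z + (z * U z) ^ 2 ≠ 0)
    (hs : ∀ z ∈ Poly (vt t), c ^ 2 + c' ^ 2 - 2 * c * c' * C z + (z * U z) ^ 2 = 0 →
      (c = c' → z ^ 2 * (1 + C z) + 2 * c ^ 2 * (1 - z ^ 2) = 0) → z ∈ PolyU V) :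
    Rf2 b t P P' V := by
  intro k hk l hl w h0 h1 h2 hz hr hr' hw
  have hsol : RSol b (Poly (vt t)) r0 (fun j : Bool => if j then k else l) w := by
    refine ⟨h0, h1, h2, hz, fun j => by cases j <;> simpa, ?_⟩
    rw [Fintype.sum_bool]
    simpa using hw
  have heq : ∀ {k : Bool → ℂ} {w : ℂ}, RSol b (Poly (vt t)) r0 k w →
      b * w - Real.pi + I * (QQ w (k true) + QQ w (k false)) = 0 := fun {k w} h => by
    have := h.eq
    rwa [Fintype.sum_bool] at this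
  have hfact : ∀ {k : Bool → ℂ} {w : ℂ}, (∀ j, k j ∈ (if j = true then P else P')) →
      RSol b (Poly (vt t)) r0 k w →
      0 < w.re ∧ w.re < 3 / 2 ∧ |w.im| < 2 ∧ Complex.cos w ∈ PolyU (vt t) ∧
      r0 < (RR w (k true)).re ∧ r0 < (RR w (k false)).re ∧
      ‖Complex.tan w ^ 2 / RR w (k true)‖ + ‖Complex.tan w ^ 2 / RR w (k false)‖ <
        ‖(b : ℂ) + I * (1 / (Complex.cos w ^ 2 * RR w (k true)) +
          1 / (Complex.cos w ^ 2 * RR w (k false)))‖ :=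
    fun {k w} hk h => hR (k true) (hPQ (by simpa using hk true)) (k false)
      (hPQ' (by simpa using hk false)) w h.re0 h.re1 h.im h.mem (h.hinge true) (h.hinge false)
      (heq h)
  have hrel : ∀ {k : Bool → ℂ} {w : ℂ}, (∀ j, k j ∈ (if j = true then P else P')) →
      RSol b (Poly (vt t)) r0 k w →
      k true ^ 2 + k false ^ 2 - 2 * k true * k false * C (Complex.cos w) +
        (Complex.cos w * U (Complex.cos w)) ^ 2 = 0 ∧
      (k true = k false → Complex.cos w ^ 2 * (1 + C (Complex.cos w)) +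
        2 * k true ^ 2 * (1 - Complex.cos w ^ 2) = 0) := by
    intro k w hk h
    have hz0 := KB.poly_re_pos t _ h.mem
    have hcn : Complex.cos w ≠ 0 := cos_ne_of hz0
    obtain ⟨a1, _, _, _, a5, a6, _⟩ := hfact hk h
    have hkt : k true ∈ P := by simpa using hk true
    have hkf : k false ∈ P' := by simpa using hk false
    have hk0 := hP _ hkt
    have hkn : k true ≠ 0 := fun h => by rw [h] at hk0; exact lt_irrefl _ hk0
    have e1 := SL.rel_two (hCU w).1 (hCU w).2 a1 h.re1 hcn hk0 (hP' _ hkf)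
      (SL.r0_pos.trans a5) (SL.r0_pos.trans a6) (heq h)
    have e3 := SL.rel_R hcn hkn
    have e5 : C (Complex.cos w) ^ 2 + (1 - Complex.cos w ^ 2) * U (Complex.cos w) ^ 2 = 1 := by
      have h5 := Complex.sin_sq_add_cos_sq (b * w)
      rw [(hCU w).1, (hCU w).2] at h5
      have h6 := Complex.sin_sq_add_cos_sq w
      linear_combination h5 - U (Complex.cos w) ^ 2 * h6
    refine ⟨SL.front_id e1 e3 e5, fun he => ?_⟩
    have h7 := heq h
    rw [← he] at h7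
    exact start_rel (hCU w).1 a1.le h.re1 hcn hk0 (SL.r0_pos.trans a5) h7
  have key := no_sol (J := Bool) (b := b) (K := Poly (vt t)) (U := PolyU (vt t))
    (C := (PolyU V)ᶜ) (P := fun j => if j = true then P else P')
    (c := fun j => if j = true then c else c') SL.r0_pos (KB.poly_closed _)
    (KB.poly_re_pos t) (KB.polyU_open _) (KB.polyU_sub _) (KB.polyU_open V).isClosed_compl
    (fun j => by cases j <;> simpa) (fun j => by cases j <;> simpa) ?_ ?_ ?_ ?_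
    (k := fun j : Bool => if j then k else l) (fun j => by cases j <;> simpa) hsol
  · exact not_not.1 key
  · intro k hk w h
    obtain ⟨a1, a2, a3, a4, a5, a6, _⟩ := hfact hk h
    exact ⟨a1, a2, a3, a4, fun j => by cases j <;> assumption⟩
  · intro k hk w h
    obtain ⟨_, _, _, _, _, _, a6⟩ := hfact hk h
    rw [Fintype.sum_bool]
    intro hc
    rw [hc, norm_zero] at a6
    exact absurd a6 (not_lt.2 (add_nonneg (norm_nonneg _) (norm_nonneg _)))
  · intro k hk w h hc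
    refine compl_int hV (fun hon => ?_) hc
    have hkt : k true ∈ P := by simpa using hk true
    have hkf : k false ∈ P' := by simpa using hk false
    exact hfr _ _ _ hon hkt hkf (hrel hk h).1
  · intro w h hcon
    have hz0 := KB.poly_re_pos t _ h.mem
    have hcn : Complex.cos w ≠ 0 := cos_ne_of hz0
    have hkk : ∀ j : Bool, (fun j => if j = true then c else c') j ∈ (if j = true then P else P') :=
      fun j => by cases j <;> simpa
    obtain ⟨r1, r2⟩ := hrel hkk h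
    refine hcon (hs _ h.mem ?_ ?_)
    · simpa using r1
    · intro e
      have := r2 (by simpa using e)
      simpa using this

end Pool.Agent.Work.MP_b30479_gt.G2
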