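import Pool.Agent.Work.MP_b30479_gt.G2.SZ8

/-!
# Rings with at least eight crossings inside a word
-/

namespace Pool.Agent.Work.MP_b30479_gt.G2

open Complex Set SQ KB
open scoped ComplexConjugate

namespace SR

/-! ### monotonicity in the family of sets -/

/-- smaller sets -/
def KFam.Le (K K' : KFam) : Prop := ∀ d l r, K.K d l r ⊆ K'.K d l r

lemma frS_mono' {s : ℝ} {A B : Set ℂ} (h : A ⊆ B) : frS s A ⊆ frS s B := frS_mono h

/-- the set `P` is contained in the set `P'` -/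
def OSub : Option (Set ℂ) → Option (Set ℂ) → Prop
  | none, none => True
  | some A, some B => A ⊆ B
  | _, _ => False

lemma port_sub {K K' : KFam} (h : K.Le K') (d₀ B : ℕ) (x : SK) :
    OSub (port K d₀ B x) (port K' d₀ B x) := by
  cases x
  · trivial
  · refine frS_mono' ?_
    rintro k ⟨d, l, h1, h2, h3⟩
    exact ⟨d, l, h1, h2, h _ _ _ h3⟩
  · rintro k ⟨d, l, h1, h3⟩
    exact ⟨d, l, h1, h _ _ _ h3⟩
  · rintro k ⟨d, l, h1, h2, h4, h3⟩
    exact ⟨d, l, h1, h2, h4, h _ _ _ h3⟩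

lemma Out.mono' {j : ℂ} {B : ℕ} {R q q' : ℂ} {P P' : Option (Set ℂ)} (h : Out j B R q q' P)
    (hP : OSub P P') : Out j B R q q' P' := by
  cases P with
  | none =>
    cases P' with
    | none => exact h
    | some B => exact hP.elim
  | some A =>
    cases P' with
    | none => exact hP.elim
    | some B => exact Out.mono h hP

lemma OSub.map {P P' : Option (Set ℂ)} (h : OSub P P') (s : ℝ) :
    OSub (P.map (frS s)) (P'.map (frS s)) := by
  cases P with
  | none =>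
    cases P' with
    | none => trivial
    | some B => exact h.elim
  | some A =>
    cases P' with
    | none => exact h.elim
    | some B => exact frS_mono' h

theorem HDt.mono {K K' : KFam} (hK : K.Le K') {x : SK} {d : ℕ} {l : SK} {d' : ℕ} {l' : SK}
    {R k k' : ℂ} (h : HDt K x d l d' l' R k k') : HDt K' x d l d' l' R k k' :=
  ⟨h.ok, h.Rre, h.kre, h.kre', hK _ _ _ h.mem, frS_mono' (hK _ _ _) h.mem', h.hinge,
    h.out.mono' (port_sub hK _ _ _), h.out'.mono' ((port_sub hK _ _ _).map _)⟩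

theorem RDt.mono {K K' : KFam} (hK : K.Le K') {d : ℕ} {l r : SK} {dl : ℕ} {ll : SK} {dr : ℕ}
    {rr : SK} {w kl kr : ℂ} (h : RDt K d l r dl ll dr rr w kl kr) :
    RDt K' d l r dl ll dr rr w kl kr :=
  ⟨h.left.mono hK, h.right.mono hK, h.w0, h.w1, h.wi, h.eq⟩

theorem RDe.mono {K K' : KFam} (hK : K.Le K') {d : ℕ} {r : SK} {dr : ℕ}
    {rr : SK} {w kr : ℂ} (h : RDe K d r dr rr w kr) :
    RDe K' d r dr rr w kr :=
  ⟨h.right.mono hK, h.w0, h.w1, h.wi, h.eq⟩

end SR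

namespace Z8

open SR

/-! ### from a word to a ring -/

lemma Poly_of_U {t : RT} {z : ℂ} (h : z ∈ PolyU (vt t)) : z ∈ Poly (vt t) := fun e he => (h e he).le

lemma port_self {V : List (ℤ × ℤ)} {P : List (ℤ × ℤ)} (h : Star1 (Poly V) ⊆ Poly P) {k : ℂ}
    (hk : k ∈ Poly V) : k ∈ Poly P := h ⟨1, by norm_num, le_rfl, k, hk, by simp⟩

lemma rty_hasS {d : ℕ} {l : SK} (h : ROK d .s l) : RT.hasS (rty d .s l) = true := by
  unfold rty
  apply rtype_hasS
  · simp only [SK.ns]; omega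
  · cases l <;> simp [SK.na, SK.ns]
  · intro h2
    have h1 : d = 1 ∧ l.u = 0 := by
      have := h.pos
      have e : SK.s.u = 1 := rfl
      unfold crs at h2
      rw [e] at h2
      constructor <;> omega
    obtain ⟨h3, h4, h5⟩ := h.one h1.1
    cases l
    · exact absurd rfl h5
    · simp [SK.na, SK.ns]
    · have := h.zr rfl
      omega
    · simp [SK.u] at h1

lemma rty_typS {d : ℕ} {l r : SK} (h : 4 ≤ crs d l r) : typS (rty d l r) = true := by
  unfold rty rtype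
  rw [if_neg (by omega), if_neg (by omega)]
  split_ifs <;> rfl

lemma rty_t8 {d : ℕ} {l r : SK} (h : 8 ≤ crs d l r) : rty d l r = .t8 := by
  unfold rty rtype
  rw [if_neg (by omega), if_neg (by omega), if_neg (by omega), if_neg (by omega),
    if_neg (by omega), if_neg (by omega)]

theorem side_of {x : SK} {d : ℕ} {l : SK} {d' : ℕ} {l' : SK} {w k : ℂ}
    (h : HDt K0 x d l d' l' (RR w k) (Complex.cos w) k) : Sd x w (QQ w k) := by
  have hR : 0 < (RR w k).re := r0_pos.trans h.Rre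
  have h1 := h.mem'
  have h2 := h.ok
  cases x
  · exact absurd rfl h2.ne
  · refine ⟨k, ?_, hR, rfl⟩
    rw [show SK.a.sgn = -1 from rfl, frS_neg] at h1
    exact port_self (starA _) (Poly_of_U h1)
  · refine ⟨k, rty d' .z l', ?_, ?_, hR, rfl⟩
    · apply rty_typS
      have := h2.right.zl rfl
      unfold crs
      omega
    · rw [show SK.z.sgn = 1 from rfl, frS_one] at h1
      exact Poly_of_U h1
  · refine ⟨k, ?_, hR, rfl⟩
    rw [show SK.s.sgn = 1 from rfl, frS_one] at h1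
    exact port_self (starS _ (rty_hasS h2.right)) (Poly_of_U h1)

theorem rg_of {d : ℕ} {l r : SK} {dl : ℕ} {ll : SK} {dr : ℕ} {rr : SK} {w kl kr : ℂ}
    (h : RDt K0 d l r dl ll dr rr w kl kr) (h8 : 8 ≤ crs d l r) :
    Rg (crs d l r) l r w (QQ w kl) (QQ w kr) := by
  refine ⟨h8, ?_, h.w0, h.w1.le, side_of h.left, side_of h.right, h.eq⟩
  have := Poly_of_U h.right.mem
  rwa [rty_t8 h8] at this

theorem rge_of {d : ℕ} {r : SK} {dr : ℕ} {rr : SK} {w kr : ℂ}
    (h : RDe K0 d r dr rr w kr) (h8 : 8 ≤ crs d .e r) :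
    Rg (crs d .e r) .e r w 0 (QQ w kr) := by
  refine ⟨h8, ?_, h.w0, h.w1.le, rfl, side_of h.right, by rw [zero_add]; exact h.eq⟩
  have := Poly_of_U h.right.mem
  rwa [rty_t8 h8] at this

/-! ### a wedge at `1` -/

lemma cosh_le {r : ℝ} : Real.cosh r ≤ 1 + Real.sinh r ^ 2 / 2 := by
  have h := Real.cosh_sq r
  have h0 := Real.cosh_pos r
  nlinarith only [h, h0, sq_nonneg (Real.sinh r)]

lemma sinh_le_lin {η : ℝ} (h0 : 0 ≤ η) (h1 : η ≤ 197 / 1000) :
    Real.sinh η ≤ 1007 / 1000 * η := by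
  have h := sinh_le h0 (by linarith only [h1])
  have h2 : η ^ 3 / 6 + η ^ 4 * (5 / 96) ≤ 7 / 1000 * η := by
    have e : η ^ 3 / 6 + η ^ 4 * (5 / 96) = η * (η ^ 2 / 6 + η ^ 3 * (5 / 96)) := by ring
    have h3 : η ^ 2 ≤ (197 / 1000) ^ 2 := pow_le_pow_left₀ h0 h1 2
    have h4 : η ^ 3 ≤ (197 / 1000) ^ 3 := pow_le_pow_left₀ h0 h1 3
    rw [e, mul_comm]
    exact mul_le_mul_of_nonneg_right (by linarith only [h3, h4]) h0
  linarith only [h, h2]

lemma wedge {α η r n u : ℝ} (h0 : 0 < α) (h1 : α ≤ 4845 / 10000) (h2 : 0 ≤ η) (h3 : η ≤ r * α)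
    (_hr : 0 ≤ r) (hr1 : r ≤ 406 / 1000) (hn : 0 ≤ n)
    (hu : u = α ^ 2)
    (hq : (1 - u / 2 + 5 / 96 * u ^ 2) * (1 + 10141 / 20000 * r ^ 2 * u) + 
      n * (1007 / 1000) * r * u < 1) :
    Real.cos α * Real.cosh η + n * (Real.sin α * Real.sinh η) < 1 := by
  have hη : η ≤ 197 / 1000 := by nlinarith only [h1, h3, h0, hr1]
  have a1 := sinh_le_lin h2 hη
  have a0 : 0 ≤ Real.sinh η := Real.sinh_nonneg_iff.2 h2
  have a2 : Real.sinh η ≤ 1007 / 1000 * r * α := by nlinarith only [h3, a1]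
  have a3 : Real.sinh η ^ 2 ≤ 10141 / 10000 * r ^ 2 * u := by
    have := pow_le_pow_left₀ a0 a2 2
    rw [hu]
    nlinarith only [this, mul_nonneg (sq_nonneg r) (sq_nonneg α)]
  have a4 : Real.cosh η ≤ 1 + 10141 / 20000 * r ^ 2 * u := by
    have := cosh_le (r := η)
    linarith only [a3, this]
  have b1 := (abs_le.1 (Real.cos_bound (x := α) (by rw [abs_of_pos h0]; linarith only [h0, h1]))).2
  rw [abs_of_pos h0] at b1
  have b2 : Real.cos α ≤ 1 - u / 2 + 5 / 96 * u ^ 2 := by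
    rw [hu]
    nlinarith only [b1]
  have b0 : 0 ≤ Real.cos α := Real.cos_nonneg_of_mem_Icc
    ⟨by linarith only [h0, h1, Real.pi_gt_three], by linarith only [h0, h1, Real.pi_gt_three]⟩
  have c1 : Real.sin α ≤ α := Real.sin_le h0.le
  have c0 : 0 ≤ Real.sin α := Real.sin_nonneg_of_nonneg_of_le_pi h0.le (by linarith only [h0, h1, Real.pi_gt_three])
  have d1 : Real.cos α * Real.cosh η ≤
      (1 - u / 2 + 5 / 96 * u ^ 2) * (1 + 10141 / 20000 * r ^ 2 * u) :=
    mul_le_mul b2 a4 (Real.cosh_pos _).le (b0.trans b2)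
  have d2 : Real.sin α * Real.sinh η ≤ α * (1007 / 1000 * r * α) :=
    mul_le_mul c1 a2 a0 h0.le
  have d3 : n * (Real.sin α * Real.sinh η) ≤ n * (1007 / 1000) * r * u := by
    rw [hu]
    calc _ ≤ n * (α * (1007 / 1000 * r * α)) := mul_le_mul_of_nonneg_left d2 hn
      _ = _ := by ring
  linarith only [hq, d1, d3]

lemma wedge1 {α η : ℝ} (h0 : 0 < α) (h1 : α ≤ 4845 / 10000) (h2 : 0 ≤ η)
    (h3 : η ≤ 405 / 1000 * α) :
    Real.cos α * Real.cosh η + Real.sin α * Real.sinh η < 1 := by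
  have h := wedge (u := α ^ 2) (n := 1) h0 h1 h2 h3 (by norm_num) (by norm_num) (by norm_num) rfl ?_
  · linarith only [h]
  · have hu0 : 0 < α ^ 2 := by positivity
    have hu : α ^ 2 ≤ 2348 / 10000 := by nlinarith only [h1, hu0, h0]
    set u := α ^ 2
    have e : u * (u * u) ≤ u * (2348 / 10000) ^ 2 :=
      mul_le_mul_of_nonneg_left (by nlinarith only [h1, h0, hu0, hu]) hu0.le
    have e2 : u * u ≤ u * (2348 / 10000) := mul_le_mul_of_nonneg_left hu hu0.le
    nlinarith only [hu0, e, e2]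

lemma wedge2 {α η : ℝ} (h0 : 0 < α) (h1 : α ≤ 4845 / 10000) (h2 : 0 ≤ η)
    (h3 : η ≤ 21 / 100 * α) :
    Real.cos α * Real.cosh η + 2 * (Real.sin α * Real.sinh η) < 1 := by
  refine wedge (u := α ^ 2) (n := 2) h0 h1 h2 h3 (by norm_num) (by norm_num) (by norm_num) rfl ?_
  have hu0 : 0 < α ^ 2 := by positivity
  have hu : α ^ 2 ≤ 2348 / 10000 := by nlinarith only [h1, hu0, h0]
  set u := α ^ 2
  have e : u * (u * u) ≤ u * (2348 / 10000) ^ 2 :=
    mul_le_mul_of_nonneg_left (by nlinarith only [h1, h0, hu0, hu]) hu0.le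
  have e2 : u * u ≤ u * (2348 / 10000) := mul_le_mul_of_nonneg_left hu hu0.le
  nlinarith only [hu0, e, e2]

/-! ### lower bound of `Im Q` -/

/-- number of sides of opposite sign -/
def nA : SK → ℝ
  | .a => 1
  | _ => 0

lemma Sd.parts {x : SK} {t : RT} (ht : typS t = true) {w Q : ℂ} (h : Sd x w Q)
    (hm : Complex.cos w ∈ Poly (vt t)) (h0 : 0 < w.re) (h1 : w.re ≤ 3 / 2) (hx : x ≠ .e) :
    ∃ k : ℂ, |Q.im| < Real.pi / 2 ∧
      (Complex.tan w * k).im = Real.cosh Q.re * Real.sin Q.im ∧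
      (Complex.tan w * k).re = Real.sinh Q.re * Real.cos Q.im ∧
      4 / 10 ≤ k.re ∧ k.re + 1 / 4 * |k.im| ≤ 1 ∧
      |k.im| ≤ (if x = .z then 33 / 100 else 676 / 1000) ∧
      (x = .a → conj k ∈ Poly pA ∧ k.im ≤ 0) ∧ (x ≠ .a → k ∈ Poly pS ∧ 0 ≤ k.im) ∧
      (x = .z → 66 / 100 ≤ k.re ∧ k.re + 4 / 10 * k.im ≤ 1) := by
  obtain ⟨k, rfl, hR, g1, g2, g3, g4, g5, g6⟩ := h.port hx
  have hk : 0 < k.re := by linarith only [g1]
  obtain ⟨e1, e2⟩ := cosh_QQ hR h0.le h1 hk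
  have hs := cosh_re_im (QQ w k)
  have hH : |(QQ w k).im| < Real.pi / 2 := by
    apply QQ_im_half hR h0.le h1 hk
    by_cases hxa : x = .a
    · exact RRk_a ht hm (g4 hxa) hR
    · exact RRk_s hm (g5 hxa) hR
  rw [e2] at hs
  obtain ⟨_, hs1, hs2⟩ := hs
  exact ⟨k, hH, hs1, hs2, g1, g2, g3, fun h => ⟨g4 h, (pA_norm (g4 h)).2.2.1⟩,
    fun h => ⟨g5 h, (pS_norm (g5 h)).2.1⟩, g6⟩

lemma Sd.ge {x : SK} {t : RT} (ht : typS t = true) {w Q : ℂ} (h : Sd x w Q)
    (hm : Complex.cos w ∈ Poly (vt t)) (h0 : 0 < w.re) (h1 : w.re ≤ 3 / 2) {χ ψ μ ν : ℝ}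
    (hX : (Complex.tan w).re ≤ χ) (hY : -(Complex.tan w).im ≤ ψ)
    (hψ : ψ ≤ 4 * χ) (hμ0 : 0 ≤ μ) (hμ1 : μ ≤ 1)
    (hμ : 676 / 1000 * χ + 831 / 1000 * ψ ≤ μ - μ ^ 3 / 6) (hν0 : 0 ≤ ν) (hν1 : ν ≤ 1)
    (hν : ψ ≤ ν - ν ^ 3 / 6) :
    -Q.im ≤ nA x * μ + (nS x + nZ x) * ν := by
  have hpi := Real.pi_gt_three
  have h3 : ∀ {θ : ℝ}, 0 ≤ θ → θ - θ ^ 3 / 6 ≤ Real.sin θ := by
    intro θ h0
    rcases h0.eq_or_lt with h4 | h4
    · rw [← h4]; simp
    · exact (Real.sin_gt_sub_cube h4).le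
  by_cases hx : x = .e
  · subst hx
    have h2 : Q = 0 := h
    subst h2
    simp [nA, nS, nZ]
  · obtain ⟨k, hH, s1, s2, g1, g2, g3, g4, g5, g6⟩ := h.parts ht hm h0 h1 hx
    have hT := tan_re_nonneg h0.le h1
    have hTi := tan_im_nonpos hm h0 h1
    have hC := Real.one_le_cosh Q.re
    have key : ∀ {θ : ℝ}, 0 ≤ θ → θ ≤ 1 → -(Complex.tan w * k).im ≤ θ - θ ^ 3 / 6 → -Q.im ≤ θ := by
      intro θ t0 t1 t2
      by_contra hc
      push Not at hc
      have h5 : Real.sin θ < Real.sin (-Q.im) :=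
        Real.sin_lt_sin_of_lt_of_le_pi_div_two (by linarith only [hpi, t0]) (by linarith only [hH, (abs_lt.1 hH).1]) hc
      have h6 : 0 ≤ Real.sin θ := Real.sin_nonneg_of_nonneg_of_le_pi t0 (by linarith only [hpi, t1])
      rw [Real.sin_neg] at h5
      rw [s1] at t2
      have h7 := h3 t0
      nlinarith only [t2, h5, h7, hC, h6]
    have hk2 : k.re ≤ 1 := by linarith only [g2, abs_nonneg k.im]
    by_cases hxa : x = .a
    · obtain ⟨_, p2⟩ := g4 hxa
      have p3 : |k.im| = -k.im := abs_of_nonpos p2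
      rw [if_neg (by rw [hxa]; decide), p3] at g3
      rw [p3] at g2
      have : nA x * μ + (nS x + nZ x) * ν = μ := by rw [hxa]; simp [nA, nS, nZ]
      rw [this]
      refine key hμ0 hμ1 (le_trans ?_ hμ)
      rw [Complex.mul_im]
      nlinarith only [hX, p2, hY, g1, g2, hψ, g3, hTi, mul_nonneg (sub_nonneg.2 hX) (neg_nonneg.2 p2),
        mul_nonneg (sub_nonneg.2 hY) (by linarith only [g1] : 0 ≤ k.re)]
    · obtain ⟨_, p2⟩ := g5 hxa
      have : nA x * μ + (nS x + nZ x) * ν = ν := by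
        cases x
        · exact absurd rfl hx
        · exact absurd rfl hxa
        · simp [nA, nS, nZ]
        · simp [nA, nS, nZ]
      rw [this]
      refine key hν0 hν1 (le_trans ?_ hν)
      rw [Complex.mul_im]
      nlinarith only [hY, hT, p2, hTi, hk2, mul_nonneg hT p2, mul_nonneg (neg_nonneg.2 hTi) (by linarith only [hk2] : 0 ≤ 1 - k.re)]

section
variable {B : ℕ} {x y : SK} {w Q Q' : ℂ}

lemma Rg.ratio (R : Rg B x y w Q Q') {τ v χ ψ μ ν r : ℝ}
    (hT : (Complex.tan w).re ^ 2 + (Complex.tan w).im ^ 2 ≤ τ) (hX : (Complex.tan w).re ≤ χ)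
    (hY : -(Complex.tan w).im ≤ ψ)
    (hv : 0 ≤ v) (h2 : 1148 / 1000 * τ < (v + v ^ 3 / 6) ^ 2)
    (hψ : ψ ≤ 4 * χ) (hμ0 : 0 ≤ μ) (hμ1 : μ ≤ 1)
    (hμ : 676 / 1000 * χ + 831 / 1000 * ψ ≤ μ - μ ^ 3 / 6) (hν0 : 0 ≤ ν) (hν1 : ν ≤ 1)
    (hν : ψ ≤ ν - ν ^ 3 / 6) (hr : 0 ≤ r)
    (hr2 : (nE x + nE y) * v ≤
      r * (314 / 100 - ((nA x + nA y) * μ + (nS x + nS y + (nZ x + nZ y)) * ν))) :
    (B : ℝ) * -w.im ≤ (nE x + nE y) * v ∧ -w.im ≤ r * w.re := by
  have hpi : 314 / 100 < Real.pi := by have := Real.pi_gt_d2; linarith only [this]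
  have f1 := R.sd.fa (t := .t8) rfl R.mem R.h0 R.h1
  have f2 := R.sd'.fa (t := .t8) rfl R.mem R.h0 R.h1
  have e1 : x = .e → Q = 0 := fun h => by have := R.sd; rw [h] at this; exact this
  have e2 : y = .e → Q' = 0 := fun h => by have := R.sd'; rw [h] at this; exact this
  have a1 := fa_re_le f1 e1 hT hv h2
  have a2 := fa_re_le f2 e2 hT hv h2
  have b1 := R.sd.ge (t := .t8) rfl R.mem R.h0 R.h1 hX hY hψ hμ0 hμ1 hμ hν0 hν1 hν
  have b2 := R.sd'.ge (t := .t8) rfl R.mem R.h0 R.h1 hX hY hψ hμ0 hμ1 hμ hν0 hν1 hν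
  have hB : (8 : ℝ) ≤ B := by exact_mod_cast R.B8
  have c1 := R.re_eq
  have c2 := R.im_eq
  have c3 : (B : ℝ) * -w.im ≤ (nE x + nE y) * v := by rw [c2]; linarith only [a1, a2]
  refine ⟨c3, ?_⟩
  have c4 : 314 / 100 - ((nA x + nA y) * μ + (nS x + nS y + (nZ x + nZ y)) * ν) ≤ B * w.re := by
    rw [c1]; linarith only [hpi, b1, b2]
  have c5 := mul_le_mul_of_nonneg_left c4 hr
  have c6 : (B : ℝ) * -w.im ≤ B * (r * w.re) := by
    calc _ ≤ (nE x + nE y) * v := c3
      _ ≤ _ := hr2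
      _ ≤ r * (B * w.re) := c5
      _ = _ := by ring
  exact le_of_mul_le_mul_left c6 (by linarith only [hB])

lemma Rg.Y_le (R : Rg B x y w Q Q') {S H ψ : ℝ} (hS : Real.sin w.re ^ 2 ≤ S)
    (hH : Real.sinh w.im ^ 2 ≤ H) (hS2 : S ≤ 1 / 2) (hψ : 0 ≤ ψ)
    (h : H * (1 + H) ≤ ψ ^ 2 * (1 - S) ^ 2) : -(Complex.tan w).im ≤ ψ := by
  have h1 := (tan_parts R.cos_pos).2
  have h2 := Real.cosh_sq w.im
  have h3 := Real.sin_sq_add_cos_sq w.re
  set N := Real.cos w.re ^ 2 + Real.sinh w.im ^ 2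
  have hN : 1 - S ≤ N := by
    have := sq_nonneg (Real.sinh w.im)
    show 1 - S ≤ Real.cos w.re ^ 2 + Real.sinh w.im ^ 2
    linarith only [hS, h3, this]
  have h4 : ((Complex.tan w).im * N) ^ 2 ≤ H * (1 + H) := by
    rw [h1, mul_pow, h2]
    have := sq_nonneg (Real.sinh w.im)
    nlinarith only [hH]
  have h5 : (Complex.tan w).im ^ 2 * (1 - S) ^ 2 ≤ ψ ^ 2 * (1 - S) ^ 2 := by
    refine le_trans ?_ (h4.trans h)
    rw [mul_pow]
    exact mul_le_mul_of_nonneg_left (pow_le_pow_left₀ (by linarith only [hS2]) hN 2) (sq_nonneg _)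
  have h6 := le_of_mul_le_mul_right h5 (by nlinarith only [hS2])
  exact (neg_le_abs _).trans (abs_le_of_sq_le_sq h6 hψ)

lemma mem_quad {a y n : ℤ} {z : ℂ} (hy : 0 < y) (ha : a < 1000) (ha2 : a + n * y < 1000)
    (h0 : 0 < z.im) (h1 : z.re + n * z.im < 1) (h2 : z.im < y / 1000) (h3 : (a : ℝ) / 1000 < z.re) :
    z ∈ PolyU [(a, 0), (1000, 0), (1000 - n * y, y), (a, y)] := by
  have hy' : (0 : ℝ) < y := by exact_mod_cast hy
  have ha' : (a : ℝ) < 1000 := by exact_mod_cast ha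
  have ha2' : (a : ℝ) + n * y < 1000 := by exact_mod_cast ha2
  have hl : edges [(a, 0), (1000, 0), (1000 - n * y, y), (a, y)] =
      [((a, 0), (1000, 0)), ((1000, 0), (1000 - n * y, y)), ((1000 - n * y, y), (a, y)),
        ((a, y), (a, 0))] := rfl
  intro e he
  rw [hl] at he
  simp only [List.mem_cons, List.not_mem_nil, or_false] at he
  rcases he with rfl | rfl | rfl | rfl
  · simp only [cr]
    push_cast
    nlinarith only [h0, ha']
  · simp only [cr]
    push_cast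
    nlinarith only [h0, h1, h2]
  · simp only [cr]
    push_cast
    nlinarith only [h2, ha2']
  · simp only [cr]
    push_cast
    nlinarith only [h0, h3, h2]

lemma Rg.quad (R : Rg B x y w Q Q') (h0 : 0 < (Complex.cos w).im) {a b n : ℤ} {S E : ℝ}
    (hA : w.re ≤ 4845 / 10000)
    (hS : Real.sin w.re ^ 2 ≤ S) (hE : 8 * -w.im ≤ E) (hE1 : E ≤ 12 / 10)
    (hn : (n = 1 ∧ -w.im ≤ 405 / 1000 * w.re) ∨ (n = 2 ∧ -w.im ≤ 21 / 100 * w.re))
    (hb : 0 < b) (ha0 : 0 ≤ a) (ha : a < 1000) (ha2 : a + n * b < 1000)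
    (g1 : ((a : ℝ) / 1000) ^ 2 < 1 - S) (g2 : S * (1007 / 8000 * E) ^ 2 < ((b : ℝ) / 1000) ^ 2) :
    Complex.cos w ∈ PolyU [(a, 0), (1000, 0), (1000 - n * b, b), (a, b)] := by
  have hi := R.im_nonpos
  have hr := R.h0
  have hc := R.cos_pos
  obtain ⟨c1, c2⟩ := cos_parts w
  have hs0 : 0 ≤ Real.sin w.re := Real.sin_nonneg_of_nonneg_of_le_pi hr.le
    (by linarith only [hA, hr, Real.pi_gt_three])
  have c2' : (Complex.cos w).im = Real.sin w.re * Real.sinh (-w.im) := by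
    rw [c2, Real.sinh_neg]; ring
  have c1' : (Complex.cos w).re = Real.cos w.re * Real.cosh (-w.im) := by
    rw [c1, Real.cosh_neg]
  have hb' : (0 : ℝ) < b := by exact_mod_cast hb
  have ha' : (0 : ℝ) ≤ a := by exact_mod_cast ha0
  refine mem_quad hb ha ha2 h0 ?_ ?_ ?_
  · rw [c1', c2']
    rcases hn with ⟨rfl, hn⟩ | ⟨rfl, hn⟩
    · have := wedge1 hr hA (by linarith only [hi]) hn
      push_cast
      linarith only [this]
    · have := wedge2 hr hA (by linarith only [hi]) hn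
      push_cast
      linarith only [this]
  · have d1 := sinh_le_lin (η := -w.im) (by linarith only [hi]) (by linarith only [hA, hE, hE1, hr])
    have d0 : 0 ≤ Real.sinh (-w.im) := Real.sinh_nonneg_iff.2 (by linarith only [hi])
    have d2 : Real.sinh (-w.im) ≤ 1007 / 8000 * E := by linarith only [hE, d1]
    rw [c2']
    have d3 : (Real.sin w.re * Real.sinh (-w.im)) ^ 2 < ((b : ℝ) / 1000) ^ 2 := by
      rw [mul_pow]
      refine lt_of_le_of_lt ?_ g2
      exact mul_le_mul hS (pow_le_pow_left₀ d0 d2 2) (sq_nonneg _) ((sq_nonneg _).trans hS)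
    exact lt_of_pow_lt_pow_left₀ 2 (by positivity) d3
  · rw [c1']
    have d1 := Real.one_le_cosh (-w.im)
    have d2 := Real.sin_sq_add_cos_sq w.re
    have d3 : ((a : ℝ) / 1000) ^ 2 < Real.cos w.re ^ 2 := by linarith only [hS, g1, d2]
    have d4 := lt_of_pow_lt_pow_left₀ 2 hc.le d3
    nlinarith only [d4, hc, d1]

lemma Rg.symm (R : Rg B x y w Q Q') : Rg B y x w Q' Q :=
  ⟨R.B8, R.mem, R.h0, R.h1, R.sd', R.sd, by rw [add_comm Q' Q]; exact R.eq⟩

end

/-- the facts about a ring, with the constants of its class -/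
structure Fin8 (B : ℕ) (x y : SK) (w : ℂ) (A v τ χ ψ S H r : ℝ) : Prop where
  re_le : w.re ≤ A
  im_le : 8 * -w.im ≤ (nE x + nE y) * v
  imB : (B : ℝ) * -w.im ≤ (nE x + nE y) * v
  tn : (Complex.tan w).re ^ 2 + (Complex.tan w).im ^ 2 ≤ τ
  tr : (Complex.tan w).re ≤ χ
  ti : -(Complex.tan w).im ≤ ψ
  sn : Real.sin w.re ^ 2 ≤ S
  sh : Real.sinh w.im ^ 2 ≤ H
  ratio : -w.im ≤ r * w.re

lemma fin_ea {B : ℕ} {w Q Q' : ℂ} (R : Rg B .e .a w Q Q') :
    Fin8 B .e .a w (39270 / 100000) (4445 / 10000) (18357 / 100000)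
      (41424 / 100000) (1320 / 10000) (14646 / 100000) (1252 / 100000) (21 / 100) := by
  obtain ⟨t1, t2, t3, t4, t5, t6⟩ := R.loc00 (by norm_num [nS]) (by norm_num [nZ])
  have hY := R.Y_le (ψ := (1320 / 10000)) t5 t6 (by norm_num) (by norm_num) (by norm_num)
  obtain ⟨t7, t8⟩ := R.ratio (v := (4445 / 10000)) (μ := 4020 / 10000) (ν := 1325 / 10000) (r := (21 / 100)) t3 t4 hY (by norm_num) (by norm_num) (by norm_num)
    (by norm_num) (by norm_num) (by norm_num) (by norm_num) (by norm_num) (by norm_num)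
    (by norm_num) (by norm_num [nE, nA, nS, nZ])
  exact ⟨t1, t2, t7, t3, t4, hY, t5, t6, t8⟩

lemma fin_ez {B : ℕ} {w Q Q' : ℂ} (R : Rg B .e .z w Q Q') :
    Fin8 B .e .z w (41074 / 100000) (4658 / 10000) (20291 / 100000)
      (43561 / 100000) (1412 / 10000) (15949 / 100000) (1387 / 100000) (21 / 100) := by
  obtain ⟨t1, t2, t3, t4, t5, t6⟩ := R.loc01 (by norm_num [nS]) (by norm_num [nZ])
  have hY := R.Y_le (ψ := (1412 / 10000)) t5 t6 (by norm_num) (by norm_num) (by norm_num)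
  obtain ⟨t7, t8⟩ := R.ratio (v := (4658 / 10000)) (μ := 4250 / 10000) (ν := 1418 / 10000) (r := (21 / 100)) t3 t4 hY (by norm_num) (by norm_num) (by norm_num)
    (by norm_num) (by norm_num) (by norm_num) (by norm_num) (by norm_num) (by norm_num)
    (by norm_num) (by norm_num [nE, nA, nS, nZ])
  exact ⟨t1, t2, t7, t3, t4, hY, t5, t6, t8⟩

lemma fin_es {B : ℕ} {w Q Q' : ℂ} (R : Rg B .e .s w Q Q') :
    Fin8 B .e .s w (43243 / 100000) (4922 / 10000) (22838 / 100000)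
      (46218 / 100000) (1537 / 10000) (17601 / 100000) (1577 / 100000) (21 / 100) := by
  obtain ⟨t1, t2, t3, t4, t5, t6⟩ := R.loc10 (by norm_num [nS]) (by norm_num [nZ])
  have hY := R.Y_le (ψ := (1537 / 10000)) t5 t6 (by norm_num) (by norm_num) (by norm_num)
  obtain ⟨t7, t8⟩ := R.ratio (v := (4922 / 10000)) (μ := 4565 / 10000) (ν := 1545 / 10000) (r := (21 / 100)) t3 t4 hY (by norm_num) (by norm_num) (by norm_num)
    (by norm_num) (by norm_num) (by norm_num) (by norm_num) (by norm_num) (by norm_num)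
    (by norm_num) (by norm_num [nE, nA, nS, nZ])
  exact ⟨t1, t2, t7, t3, t4, hY, t5, t6, t8⟩

lemma fin_aa {B : ℕ} {w Q Q' : ℂ} (R : Rg B .a .a w Q Q') :
    Fin8 B .a .a w (39270 / 100000) (4445 / 10000) (18357 / 100000)
      (41424 / 100000) (1320 / 10000) (14646 / 100000) (1252 / 100000) (405 / 1000) := by
  obtain ⟨t1, t2, t3, t4, t5, t6⟩ := R.loc00 (by norm_num [nS]) (by norm_num [nZ])
  have hY := R.Y_le (ψ := (1320 / 10000)) t5 t6 (by norm_num) (by norm_num) (by norm_num)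
  obtain ⟨t7, t8⟩ := R.ratio (v := (4445 / 10000)) (μ := 4020 / 10000) (ν := 1325 / 10000) (r := (405 / 1000)) t3 t4 hY (by norm_num) (by norm_num) (by norm_num)
    (by norm_num) (by norm_num) (by norm_num) (by norm_num) (by norm_num) (by norm_num)
    (by norm_num) (by norm_num [nE, nA, nS, nZ])
  exact ⟨t1, t2, t7, t3, t4, hY, t5, t6, t8⟩

lemma fin_az {B : ℕ} {w Q Q' : ℂ} (R : Rg B .a .z w Q Q') :
    Fin8 B .a .z w (41074 / 100000) (4658 / 10000) (20291 / 100000)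
      (43561 / 100000) (1412 / 10000) (15949 / 100000) (1387 / 100000) (405 / 1000) := by
  obtain ⟨t1, t2, t3, t4, t5, t6⟩ := R.loc01 (by norm_num [nS]) (by norm_num [nZ])
  have hY := R.Y_le (ψ := (1412 / 10000)) t5 t6 (by norm_num) (by norm_num) (by norm_num)
  obtain ⟨t7, t8⟩ := R.ratio (v := (4658 / 10000)) (μ := 4250 / 10000) (ν := 1418 / 10000) (r := (405 / 1000)) t3 t4 hY (by norm_num) (by norm_num) (by norm_num)
    (by norm_num) (by norm_num) (by norm_num) (by norm_num) (by norm_num) (by norm_num)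
    (by norm_num) (by norm_num [nE, nA, nS, nZ])
  exact ⟨t1, t2, t7, t3, t4, hY, t5, t6, t8⟩

lemma fin_zz {B : ℕ} {w Q Q' : ℂ} (R : Rg B .z .z w Q Q') :
    Fin8 B .z .z w (43083 / 100000) (4901 / 10000) (22628 / 100000)
      (46009 / 100000) (1525 / 10000) (17470 / 100000) (1557 / 100000) (405 / 1000) := by
  obtain ⟨t1, t2, t3, t4, t5, t6⟩ := R.loc02 (by norm_num [nS]) (by norm_num [nZ])
  have hY := R.Y_le (ψ := (1525 / 10000)) t5 t6 (by norm_num) (by norm_num) (by norm_num)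
  obtain ⟨t7, t8⟩ := R.ratio (v := (4901 / 10000)) (μ := 4560 / 10000) (ν := 1532 / 10000) (r := (405 / 1000)) t3 t4 hY (by norm_num) (by norm_num) (by norm_num)
    (by norm_num) (by norm_num) (by norm_num) (by norm_num) (by norm_num) (by norm_num)
    (by norm_num) (by norm_num [nE, nA, nS, nZ])
  exact ⟨t1, t2, t7, t3, t4, hY, t5, t6, t8⟩

lemma fin_as {B : ℕ} {w Q Q' : ℂ} (R : Rg B .a .s w Q Q') :
    Fin8 B .a .s w (43243 / 100000) (4922 / 10000) (22838 / 100000)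
      (46218 / 100000) (1537 / 10000) (17601 / 100000) (1577 / 100000) (405 / 1000) := by
  obtain ⟨t1, t2, t3, t4, t5, t6⟩ := R.loc10 (by norm_num [nS]) (by norm_num [nZ])
  have hY := R.Y_le (ψ := (1537 / 10000)) t5 t6 (by norm_num) (by norm_num) (by norm_num)
  obtain ⟨t7, t8⟩ := R.ratio (v := (4922 / 10000)) (μ := 4565 / 10000) (ν := 1545 / 10000) (r := (405 / 1000)) t3 t4 hY (by norm_num) (by norm_num) (by norm_num)
    (by norm_num) (by norm_num) (by norm_num) (by norm_num) (by norm_num) (by norm_num)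
    (by norm_num) (by norm_num [nE, nA, nS, nZ])
  exact ⟨t1, t2, t7, t3, t4, hY, t5, t6, t8⟩

lemma fin_zs {B : ℕ} {w Q Q' : ℂ} (R : Rg B .z .s w Q Q') :
    Fin8 B .z .s w (45543 / 100000) (5209 / 10000) (25815 / 100000)
      (49154 / 100000) (1680 / 10000) (19459 / 100000) (1796 / 100000) (405 / 1000) := by
  obtain ⟨t1, t2, t3, t4, t5, t6⟩ := R.loc11 (by norm_num [nS]) (by norm_num [nZ])
  have hY := R.Y_le (ψ := (1680 / 10000)) t5 t6 (by norm_num) (by norm_num) (by norm_num)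
  obtain ⟨t7, t8⟩ := R.ratio (v := (5209 / 10000)) (μ := 4980 / 10000) (ν := 1690 / 10000) (r := (405 / 1000)) t3 t4 hY (by norm_num) (by norm_num) (by norm_num)
    (by norm_num) (by norm_num) (by norm_num) (by norm_num) (by norm_num) (by norm_num)
    (by norm_num) (by norm_num [nE, nA, nS, nZ])
  exact ⟨t1, t2, t7, t3, t4, hY, t5, t6, t8⟩

lemma fin_ss {B : ℕ} {w Q Q' : ℂ} (R : Rg B .s .s w Q Q') :
    Fin8 B .s .s w (48445 / 100000) (5584 / 10000) (30047 / 100000)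
      (53063 / 100000) (1881 / 10000) (21970 / 100000) (2109 / 100000) (405 / 1000) := by
  obtain ⟨t1, t2, t3, t4, t5, t6⟩ := R.loc20 (by norm_num [nS]) (by norm_num [nZ])
  have hY := R.Y_le (ψ := (1881 / 10000)) t5 t6 (by norm_num) (by norm_num) (by norm_num)
  obtain ⟨t7, t8⟩ := R.ratio (v := (5584 / 10000)) (μ := 5500 / 10000) (ν := 1894 / 10000) (r := (405 / 1000)) t3 t4 hY (by norm_num) (by norm_num) (by norm_num)
    (by norm_num) (by norm_num) (by norm_num) (by norm_num) (by norm_num) (by norm_num)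
    (by norm_num) (by norm_num [nE, nA, nS, nZ])
  exact ⟨t1, t2, t7, t3, t4, hY, t5, t6, t8⟩

/-- the polygons of the rings with at least eight crossings -/
def v8 : SK → SK → List (ℤ × ℤ)
  | .e, .a | .a, .e => [(923, 0), (1000, 0), (956, 22), (923, 22)]
  | .e, .z | .z, .e => [(916, 0), (1000, 0), (952, 24), (916, 24)]
  | .e, .s | .s, .e => [(907, 0), (1000, 0), (948, 26), (907, 26)]
  | .a, .a => [(923, 0), (1000, 0), (957, 43), (923, 43)]
  | .a, .z | .z, .a => [(916, 0), (1000, 0), (953, 47), (916, 47)]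
  | .z, .z => [(908, 0), (1000, 0), (948, 52), (908, 52)]
  | .a, .s | .s, .a => [(907, 0), (1000, 0), (948, 52), (907, 52)]
  | .z, .s | .s, .z => [(897, 0), (1000, 0), (942, 58), (897, 58)]
  | .s, .s => [(883, 0), (1000, 0), (934, 66), (883, 66)]
  | .e, .e => [(0, 0), (1000, 0), (1000, 1000), (0, 1000)]

lemma v8_symm (x y : SK) : v8 x y = v8 y x := by
  cases x <;> cases y <;> rfl

lemma mem_ea {B : ℕ} {w Q Q' : ℂ} (R : Rg B .e .a w Q Q') (h0 : 0 < (Complex.cos w).im) :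
    Complex.cos w ∈ PolyU (v8 .e .a) := by
  have F := fin_ea R
  have h1 := F.im_le
  norm_num [nE] at h1
  have h := R.quad h0 (a := 923) (b := 22) (n := 2) (S := (14646 / 100000)) (E := (4445 / 10000))
    (by linarith only [F, F.re_le]) F.sn (by linarith only [h1]) (by norm_num) (Or.inr ⟨rfl, F.ratio⟩)
    (by norm_num) (by norm_num) (by norm_num) (by norm_num) (by norm_num) (by norm_num)
  exact h

lemma mem_ez {B : ℕ} {w Q Q' : ℂ} (R : Rg B .e .z w Q Q') (h0 : 0 < (Complex.cos w).im) :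
    Complex.cos w ∈ PolyU (v8 .e .z) := by
  have F := fin_ez R
  have h1 := F.im_le
  norm_num [nE] at h1
  have h := R.quad h0 (a := 916) (b := 24) (n := 2) (S := (15949 / 100000)) (E := (4658 / 10000))
    (by linarith only [F, F.re_le]) F.sn (by linarith only [h1]) (by norm_num) (Or.inr ⟨rfl, F.ratio⟩)
    (by norm_num) (by norm_num) (by norm_num) (by norm_num) (by norm_num) (by norm_num)
  exact h

lemma mem_es {B : ℕ} {w Q Q' : ℂ} (R : Rg B .e .s w Q Q') (h0 : 0 < (Complex.cos w).im) :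
    Complex.cos w ∈ PolyU (v8 .e .s) := by
  have F := fin_es R
  have h1 := F.im_le
  norm_num [nE] at h1
  have h := R.quad h0 (a := 907) (b := 26) (n := 2) (S := (17601 / 100000)) (E := (4922 / 10000))
    (by linarith only [F, F.re_le]) F.sn (by linarith only [h1]) (by norm_num) (Or.inr ⟨rfl, F.ratio⟩)
    (by norm_num) (by norm_num) (by norm_num) (by norm_num) (by norm_num) (by norm_num)
  exact h

lemma mem_aa {B : ℕ} {w Q Q' : ℂ} (R : Rg B .a .a w Q Q') (h0 : 0 < (Complex.cos w).im) :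
    Complex.cos w ∈ PolyU (v8 .a .a) := by
  have F := fin_aa R
  have h1 := F.im_le
  norm_num [nE] at h1
  have h := R.quad h0 (a := 923) (b := 43) (n := 1) (S := (14646 / 100000)) (E := (8890 / 10000))
    (by linarith only [F, F.re_le]) F.sn (by linarith only [h1]) (by norm_num) (Or.inl ⟨rfl, F.ratio⟩)
    (by norm_num) (by norm_num) (by norm_num) (by norm_num) (by norm_num) (by norm_num)
  exact h

lemma mem_az {B : ℕ} {w Q Q' : ℂ} (R : Rg B .a .z w Q Q') (h0 : 0 < (Complex.cos w).im) :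
    Complex.cos w ∈ PolyU (v8 .a .z) := by
  have F := fin_az R
  have h1 := F.im_le
  norm_num [nE] at h1
  have h := R.quad h0 (a := 916) (b := 47) (n := 1) (S := (15949 / 100000)) (E := (9316 / 10000))
    (by linarith only [F, F.re_le]) F.sn (by linarith only [h1]) (by norm_num) (Or.inl ⟨rfl, F.ratio⟩)
    (by norm_num) (by norm_num) (by norm_num) (by norm_num) (by norm_num) (by norm_num)
  exact h

lemma mem_zz {B : ℕ} {w Q Q' : ℂ} (R : Rg B .z .z w Q Q') (h0 : 0 < (Complex.cos w).im) :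
    Complex.cos w ∈ PolyU (v8 .z .z) := by
  have F := fin_zz R
  have h1 := F.im_le
  norm_num [nE] at h1
  have h := R.quad h0 (a := 908) (b := 52) (n := 1) (S := (17470 / 100000)) (E := (9802 / 10000))
    (by linarith only [F, F.re_le]) F.sn (by linarith only [h1]) (by norm_num) (Or.inl ⟨rfl, F.ratio⟩)
    (by norm_num) (by norm_num) (by norm_num) (by norm_num) (by norm_num) (by norm_num)
  exact h

lemma mem_as {B : ℕ} {w Q Q' : ℂ} (R : Rg B .a .s w Q Q') (h0 : 0 < (Complex.cos w).im) :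
    Complex.cos w ∈ PolyU (v8 .a .s) := by
  have F := fin_as R
  have h1 := F.im_le
  norm_num [nE] at h1
  have h := R.quad h0 (a := 907) (b := 52) (n := 1) (S := (17601 / 100000)) (E := (9844 / 10000))
    (by linarith only [F, F.re_le]) F.sn (by linarith only [h1]) (by norm_num) (Or.inl ⟨rfl, F.ratio⟩)
    (by norm_num) (by norm_num) (by norm_num) (by norm_num) (by norm_num) (by norm_num)
  exact h

lemma mem_zs {B : ℕ} {w Q Q' : ℂ} (R : Rg B .z .s w Q Q') (h0 : 0 < (Complex.cos w).im) :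
    Complex.cos w ∈ PolyU (v8 .z .s) := by
  have F := fin_zs R
  have h1 := F.im_le
  norm_num [nE] at h1
  have h := R.quad h0 (a := 897) (b := 58) (n := 1) (S := (19459 / 100000)) (E := (10418 / 10000))
    (by linarith only [F, F.re_le]) F.sn (by linarith only [h1]) (by norm_num) (Or.inl ⟨rfl, F.ratio⟩)
    (by norm_num) (by norm_num) (by norm_num) (by norm_num) (by norm_num) (by norm_num)
  exact h

lemma mem_ss {B : ℕ} {w Q Q' : ℂ} (R : Rg B .s .s w Q Q') (h0 : 0 < (Complex.cos w).im) :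
    Complex.cos w ∈ PolyU (v8 .s .s) := by
  have F := fin_ss R
  have h1 := F.im_le
  norm_num [nE] at h1
  have h := R.quad h0 (a := 883) (b := 66) (n := 1) (S := (21970 / 100000)) (E := (11168 / 10000))
    (by linarith only [F, F.re_le]) F.sn (by linarith only [h1]) (by norm_num) (Or.inl ⟨rfl, F.ratio⟩)
    (by norm_num) (by norm_num) (by norm_num) (by norm_num) (by norm_num) (by norm_num)
  exact h

lemma mem_v8 {B : ℕ} {x y : SK} {w Q Q' : ℂ} (R : Rg B x y w Q Q') (hx : x ≠ .e ∨ y ≠ .e)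
    (h0 : 0 < (Complex.cos w).im) : Complex.cos w ∈ PolyU (v8 x y) := by
  have hR := R.symm
  cases x <;> cases y
  · exact absurd rfl (hx.elim id id)
  · exact mem_ea R h0
  · exact mem_ez R h0
  · exact mem_es R h0
  · rw [v8_symm]; exact mem_ea hR h0
  · exact mem_aa R h0
  · exact mem_az R h0
  · exact mem_as R h0
  · rw [v8_symm]; exact mem_ez hR h0
  · rw [v8_symm]; exact mem_az hR h0
  · exact mem_zz R h0
  · exact mem_zs R h0
  · rw [v8_symm]; exact mem_es hR h0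
  · rw [v8_symm]; exact mem_as hR h0
  · rw [v8_symm]; exact mem_zs hR h0
  · exact mem_ss R h0
/-! ### statements for words -/

lemma K0_im {d : ℕ} {l r : SK} {z : ℂ} (h : z ∈ K0.K d l r) (h8 : 8 ≤ crs d l r) : 0 < z.im := by
  have h1 : z ∈ PolyU (vt .t8) := by
    have h2 : z ∈ PolyU (vt (rty d l r)) := h
    rwa [rty_t8 h8] at h2
  have h3 := h1 ((800, 0), (1000, 0)) (by decide)
  unfold cr at h3
  push_cast at h3
  linarith only [h3]

theorem mem8 {K : KFam} (hK : K.Le K0) {d : ℕ} {l r : SK} {dl : ℕ} {ll : SK} {dr : ℕ} {rr : SK}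
    {w kl kr : ℂ} (h : RDt K d l r dl ll dr rr w kl kr) (h8 : 8 ≤ crs d l r) :
    Complex.cos w ∈ PolyU (v8 l r) :=
  mem_v8 (rg_of (h.mono hK) h8) (Or.inl h.left.ok.ne) (K0_im (h.mono hK).right.mem h8)

theorem mem8e {K : KFam} (hK : K.Le K0) {d : ℕ} {r : SK} {dr : ℕ} {rr : SK}
    {w kr : ℂ} (h : RDe K d r dr rr w kr) (h8 : 8 ≤ crs d .e r) :
    Complex.cos w ∈ PolyU (v8 .e r) :=
  mem_v8 (rge_of (h.mono hK) h8) (Or.inr h.right.ok.ne) (K0_im (h.mono hK).right.mem h8)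

end Z8

end Pool.Agent.Work.MP_b30479_gt.G2
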