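import Pool.Agent.Work.MP_b30479_gt.G2.SRefV
import Pool.Agent.Work.MP_b30479_gt.G2.SRefG
import Pool.Agent.Work.MP_b30479_gt.G2.SZ9
import Pool.Agent.Work.MP_b30479_gt.G2.SWordI

/-!
# Refined families of sets for the ring values

`q1`, `q2`, `q3` are the tables of the three rounds for the rings with at most seven crossings;
rings with at least eight crossings use `v8`.
-/

set_option linter.style.longLine false

namespace Pool.Agent.Work.MP_b30479_gt.G2

open Complex Set SC
open scoped ComplexConjugate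

namespace SR

/-- table of the typed polygons -/
def q0 (B : ℕ) (l r : SK) : Option (List (ℤ × ℤ)) :=
  some (vt (rtype B (l.na + r.na) (l.ns + r.ns)))

/-- table of round 1 -/
def q1 : ℕ → SK → SK → Option (List (ℤ × ℤ))
  | 2, .e, .a | 2, .a, .e => some v1_2ea
  | 2, .a, .a => some v1_2aa
  | 2, .a, .s | 2, .s, .a => some v1_2as
  | 3, .e, .a | 3, .a, .e => some v1_3ea
  | 3, .e, .s | 3, .s, .e => some v1_3es
  | 3, .a, .a => some v1_3aa
  | 3, .a, .s | 3, .s, .a => some v1_3as
  | 3, .s, .s => some v1_3ss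
  | 4, .e, .a | 4, .a, .e => some v1_4ea
  | 4, .e, .z | 4, .z, .e => some v1_4ez
  | 4, .e, .s | 4, .s, .e => some v1_4es
  | 4, .a, .a => some v1_4aa
  | 4, .a, .z | 4, .z, .a => some v1_4az
  | 4, .a, .s | 4, .s, .a => some v1_4as
  | 4, .z, .z => some v1_4zz
  | 4, .s, .s => some v1_4ss
  | 5, .e, .a | 5, .a, .e => some v1_5ea
  | 5, .e, .z | 5, .z, .e => some v1_5ez
  | 5, .e, .s | 5, .s, .e => some v1_5es
  | 5, .a, .a => some v1_5aa
  | 5, .a, .z | 5, .z, .a => some v1_5az
  | 5, .a, .s | 5, .s, .a => some v1_5as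
  | 5, .z, .z => some v1_5zz
  | 5, .z, .s | 5, .s, .z => some v1_5zs
  | 5, .s, .s => some v1_5ss
  | 6, .e, .a | 6, .a, .e => some v1_6ea
  | 6, .e, .z | 6, .z, .e => some v1_6ez
  | 6, .e, .s | 6, .s, .e => some v1_6es
  | 6, .a, .a => some v1_6aa
  | 6, .a, .z | 6, .z, .a => some v1_6az
  | 6, .a, .s | 6, .s, .a => some v1_6as
  | 6, .z, .z => some v1_6zz
  | 6, .z, .s | 6, .s, .z => some v1_6zs
  | 6, .s, .s => some v1_6ss
  | 7, .e, .a | 7, .a, .e => some v1_7ea
  | 7, .e, .z | 7, .z, .e => some v1_7ez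
  | 7, .e, .s | 7, .s, .e => some v1_7es
  | 7, .a, .a => some v1_7aa
  | 7, .a, .z | 7, .z, .a => some v1_7az
  | 7, .a, .s | 7, .s, .a => some v1_7as
  | 7, .z, .z => some v1_7zz
  | 7, .z, .s | 7, .s, .z => some v1_7zs
  | 7, .s, .s => some v1_7ss
  | _, _, _ => none

/-- table of round 2 -/
def q2 : ℕ → SK → SK → Option (List (ℤ × ℤ))
  | 2, .e, .a | 2, .a, .e => some v2_2ea
  | 2, .a, .a => some v2_2aa
  | 2, .a, .s | 2, .s, .a => some v2_2as
  | 3, .e, .a | 3, .a, .e => some v2_3ea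
  | 3, .e, .s | 3, .s, .e => some v2_3es
  | 3, .a, .a => some v2_3aa
  | 3, .a, .s | 3, .s, .a => some v2_3as
  | 3, .s, .s => some v2_3ss
  | 4, .e, .a | 4, .a, .e => some v2_4ea
  | 4, .e, .z | 4, .z, .e => some v2_4ez
  | 4, .e, .s | 4, .s, .e => some v2_4es
  | 4, .a, .a => some v2_4aa
  | 4, .a, .z | 4, .z, .a => some v2_4az
  | 4, .a, .s | 4, .s, .a => some v2_4as
  | 4, .z, .z => some v2_4zz
  | 4, .s, .s => some v2_4ss
  | 5, .e, .a | 5, .a, .e => some v2_5ea
  | 5, .e, .z | 5, .z, .e => some v2_5ez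
  | 5, .e, .s | 5, .s, .e => some v2_5es
  | 5, .a, .a => some v2_5aa
  | 5, .a, .z | 5, .z, .a => some v2_5az
  | 5, .a, .s | 5, .s, .a => some v2_5as
  | 5, .z, .z => some v2_5zz
  | 5, .z, .s | 5, .s, .z => some v2_5zs
  | 5, .s, .s => some v2_5ss
  | 6, .e, .a | 6, .a, .e => some v2_6ea
  | 6, .e, .z | 6, .z, .e => some v2_6ez
  | 6, .e, .s | 6, .s, .e => some v2_6es
  | 6, .a, .a => some v2_6aa
  | 6, .a, .z | 6, .z, .a => some v2_6az
  | 6, .a, .s | 6, .s, .a => some v2_6as
  | 6, .z, .z => some v2_6zz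
  | 6, .z, .s | 6, .s, .z => some v2_6zs
  | 6, .s, .s => some v2_6ss
  | 7, .e, .a | 7, .a, .e => some v2_7ea
  | 7, .e, .z | 7, .z, .e => some v2_7ez
  | 7, .e, .s | 7, .s, .e => some v2_7es
  | 7, .a, .a => some v2_7aa
  | 7, .a, .z | 7, .z, .a => some v2_7az
  | 7, .a, .s | 7, .s, .a => some v2_7as
  | 7, .z, .z => some v2_7zz
  | 7, .z, .s | 7, .s, .z => some v2_7zs
  | 7, .s, .s => some v2_7ss
  | _, _, _ => none

/-- table of round 3 -/
def q3 : ℕ → SK → SK → Option (List (ℤ × ℤ))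
  | 2, .e, .a | 2, .a, .e => some v3_2ea
  | 2, .a, .a => some v3_2aa
  | 2, .a, .s | 2, .s, .a => some v3_2as
  | 3, .e, .a | 3, .a, .e => some v3_3ea
  | 3, .e, .s | 3, .s, .e => some v3_3es
  | 3, .a, .a => some v3_3aa
  | 3, .a, .s | 3, .s, .a => some v3_3as
  | 3, .s, .s => some v3_3ss
  | 4, .e, .a | 4, .a, .e => some v3_4ea
  | 4, .e, .z | 4, .z, .e => some v3_4ez
  | 4, .e, .s | 4, .s, .e => some v3_4es
  | 4, .a, .a => some v3_4aa
  | 4, .a, .z | 4, .z, .a => some v3_4az
  | 4, .a, .s | 4, .s, .a => some v3_4as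
  | 4, .z, .z => some v3_4zz
  | 4, .s, .s => some v3_4ss
  | 5, .e, .a | 5, .a, .e => some v3_5ea
  | 5, .e, .z | 5, .z, .e => some v3_5ez
  | 5, .e, .s | 5, .s, .e => some v3_5es
  | 5, .a, .a => some v3_5aa
  | 5, .a, .z | 5, .z, .a => some v3_5az
  | 5, .a, .s | 5, .s, .a => some v3_5as
  | 5, .z, .z => some v3_5zz
  | 5, .z, .s | 5, .s, .z => some v3_5zs
  | 5, .s, .s => some v3_5ss
  | 6, .e, .a | 6, .a, .e => some v3_6ea
  | 6, .e, .z | 6, .z, .e => some v3_6ez
  | 6, .e, .s | 6, .s, .e => some v3_6es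
  | 6, .a, .a => some v3_6aa
  | 6, .a, .z | 6, .z, .a => some v3_6az
  | 6, .a, .s | 6, .s, .a => some v3_6as
  | 6, .z, .z => some v3_6zz
  | 6, .z, .s | 6, .s, .z => some v3_6zs
  | 6, .s, .s => some v3_6ss
  | 7, .e, .a | 7, .a, .e => some v3_7ea
  | 7, .e, .z | 7, .z, .e => some v3_7ez
  | 7, .e, .s | 7, .s, .e => some v3_7es
  | 7, .a, .a => some v3_7aa
  | 7, .a, .z | 7, .z, .a => some v3_7az
  | 7, .a, .s | 7, .s, .a => some v3_7as
  | 7, .z, .z => some v3_7zz
  | 7, .z, .s | 7, .s, .z => some v3_7zs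
  | 7, .s, .s => some v3_7ss
  | _, _, _ => none

/-- the polygon of a ring -/
def pol (q : ℕ → SK → SK → Option (List (ℤ × ℤ))) (vh : SK → SK → List (ℤ × ℤ)) (d : ℕ)
    (l r : SK) : Option (List (ℤ × ℤ)) :=
  if 8 ≤ crs d l r then some (vh l r) else q (crs d l r) l r

/-- the polygons of the table contain the sets of the family `K` -/
def Src (K : KFam) (q : ℕ → SK → SK → Option (List (ℤ × ℤ))) (vh : SK → SK → List (ℤ × ℤ)) :
    Prop :=
  ∀ d l r, ROK d l r → ∃ V, pol q vh d l r = some V ∧ K.K d l r ⊆ PolyU V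

lemma pol_symm {q : ℕ → SK → SK → Option (List (ℤ × ℤ))} {vh : SK → SK → List (ℤ × ℤ)}
    (hq : ∀ B l r, q B l r = q B r l) (hv : ∀ l r, vh l r = vh r l) (d : ℕ) (l r : SK) :
    pol q vh d l r = pol q vh d r l := by
  unfold pol
  rw [crs_symm, hq, hv]

/-- the family of a table -/
def Kq (q : ℕ → SK → SK → Option (List (ℤ × ℤ))) (vh : SK → SK → List (ℤ × ℤ))
    (hq : ∀ B l r, q B l r = q B r l) (hv : ∀ l r, vh l r = vh r l) : KFam where
  K d l r := match pol q vh d l r with
    | some V => PolyU V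
    | none => PolyU (vt (rty d l r))
  symm d l r := by rw [pol_symm hq hv, rty_symm]

lemma Kq_some {q : ℕ → SK → SK → Option (List (ℤ × ℤ))} {vh : SK → SK → List (ℤ × ℤ)}
    {hq : ∀ B l r, q B l r = q B r l} {hv : ∀ l r, vh l r = vh r l} {d : ℕ} {l r : SK}
    {V : List (ℤ × ℤ)} (h : pol q vh d l r = some V) : (Kq q vh hq hv).K d l r = PolyU V := by
  show (match pol q vh d l r with
    | some V => PolyU V
    | none => PolyU (vt (rty d l r))) = PolyU V
  rw [h]

lemma q1_symm : ∀ (B : ℕ) (l r : SK), q1 B l r = q1 B r l := by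
  intro B l r
  rcases B with _ | _ | _ | _ | _ | _ | _ | _ | B <;> cases l <;> cases r <;> rfl

lemma q2_symm : ∀ (B : ℕ) (l r : SK), q2 B l r = q2 B r l := by
  intro B l r
  rcases B with _ | _ | _ | _ | _ | _ | _ | _ | B <;> cases l <;> cases r <;> rfl

lemma q3_symm : ∀ (B : ℕ) (l r : SK), q3 B l r = q3 B r l := by
  intro B l r
  rcases B with _ | _ | _ | _ | _ | _ | _ | _ | B <;> cases l <;> cases r <;> rfl

/-- the polygons for at least eight crossings -/
def vr : SK → SK → List (ℤ × ℤ)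
  | .e, .e => vt .t8
  | l, r => Z8.v8 l r

lemma vr_symm : ∀ l r : SK, vr l r = vr r l := by
  intro l r
  cases l <;> cases r <;> rfl

lemma vr_eq {l r : SK} (h : r ≠ .e) : vr l r = Z8.v8 l r := by
  cases l <;> cases r <;> first | rfl | exact absurd rfl h

/-- the family after the first round -/
def Kr1 : KFam := Kq q1 vr q1_symm vr_symm

/-- the family after the second round -/
def Kr2 : KFam := Kq q2 vr q2_symm vr_symm

/-- the family after the third round -/
def Kr3 : KFam := Kq q3 vr q3_symm vr_symm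

/-! ### checks of the tables -/

instance (d : ℕ) (l r : SK) : Decidable (ROK d l r) :=
  decidable_of_iff (1 ≤ d ∧ (l = .e → r ≠ .e) ∧ (d = 1 → (l = .s ∨ r = .s) ∧ l ≠ .e ∧ r ≠ .e) ∧
    (l = .z → 4 ≤ d) ∧ (r = .z → 4 ≤ d))
    ⟨fun h => ⟨h.1, h.2.1, h.2.2.1, h.2.2.2.1, h.2.2.2.2⟩,
      fun h => ⟨h.pos, h.ends, h.one, h.zl, h.zr⟩⟩

/-- hulls of the possible neighbours -/
structure PT where
  /-- opposite sign -/
  A2 : List (ℤ × ℤ)
  /-- opposite sign, digit at least two -/
  A1 : List (ℤ × ℤ)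
  /-- equal sign, not split -/
  Z : List (ℤ × ℤ)
  /-- split, digit at most two -/
  S3 : List (ℤ × ℤ)
  /-- split -/
  S2 : List (ℤ × ℤ)
  /-- split, at least three crossings -/
  ST : List (ℤ × ℤ)

/-- the hull of the neighbours on a side of kind `x` of a ring with the digit `d` and `B`
crossings -/
def prt (p : PT) (x : SK) (d B : ℕ) : Set ℂ :=
  match x with
  | .e => ∅
  | .a => frS (-1) (Poly (if 2 ≤ d then p.A2 else p.A1))
  | .z => Poly p.Z
  | .s => Poly (if 3 ≤ d then p.S3 else if 3 ≤ B then p.S2 else p.ST)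

/-- the ring `(d, x, l)` is in the hulls -/
def chk (q : ℕ → SK → SK → Option (List (ℤ × ℤ))) (vh : SK → SK → List (ℤ × ℤ)) (p : PT) (d : ℕ)
    (x l : SK) : Bool :=
  match pol q vh d x l with
  | none => false
  | some V => match x with
    | .e => true
    | .a => inOK V p.A2 && (decide (d < 2) || inOK V p.A1)
    | .z => inOK V p.Z
    | .s => (decide (2 < d) || inOK V p.S3) && inOK V p.S2 &&
        (decide (crs d x l < 3) || inOK V p.ST)

/-- kinds -/
def allK : List SK := [.e, .a, .z, .s]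

lemma mem_allK (x : SK) : x ∈ allK := by cases x <;> decide

/-- all rings are in the hulls -/
def tab (q : ℕ → SK → SK → Option (List (ℤ × ℤ))) (vh : SK → SK → List (ℤ × ℤ)) (p : PT) : Bool :=
  (List.range 9).all fun d => allK.all fun x => allK.all fun l =>
    !(decide (ROK d x l)) || chk q vh p d x l

lemma pol_8 (q : ℕ → SK → SK → Option (List (ℤ × ℤ))) (vh : SK → SK → List (ℤ × ℤ)) {d : ℕ}
    (h : 8 ≤ d) (x l : SK) : pol q vh d x l = some (vh x l) := by
  unfold pol
  rw [if_pos]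
  unfold crs
  omega

lemma ROK_8 {d : ℕ} {x l : SK} (h : ROK d x l) : ROK 8 x l :=
  ⟨by norm_num, h.ends, by norm_num, fun _ => by norm_num, fun _ => by norm_num⟩

lemma chk_8 (q : ℕ → SK → SK → Option (List (ℤ × ℤ))) (vh : SK → SK → List (ℤ × ℤ)) (p : PT)
    {d : ℕ} (h : 8 ≤ d) (x l : SK) : chk q vh p d x l = chk q vh p 8 x l := by
  have h1 : decide (d < 2) = false := decide_eq_false (by omega)
  have h2 : decide (2 < d) = true := decide_eq_true (by omega)
  have h3 : decide (crs d x l < 3) = false := decide_eq_false (by unfold crs; omega)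
  have h4 : decide (8 < 2) = false := rfl
  have h5 : decide (2 < 8) = true := rfl
  have h6 : decide (crs 8 x l < 3) = false := decide_eq_false (by unfold crs; omega)
  unfold chk
  rw [pol_8 q vh h, pol_8 q vh le_rfl]
  cases x
  · rfl
  · simp only [h1, h4]
  · rfl
  · simp only [h2, h3, h5, h6]

lemma tab_spec {q : ℕ → SK → SK → Option (List (ℤ × ℤ))} {vh : SK → SK → List (ℤ × ℤ)} {p : PT}
    (hT : tab q vh p = true) {d : ℕ} {x l : SK} (h : ROK d x l) : chk q vh p d x l = true := by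
  have key : ∀ {d : ℕ}, d < 9 → ROK d x l → chk q vh p d x l = true := by
    intro d hd h
    have h1 := List.all_eq_true.1 (List.all_eq_true.1 (List.all_eq_true.1 hT d
      (List.mem_range.2 hd)) x (mem_allK x)) l (mem_allK l)
    rw [Bool.or_eq_true, Bool.not_eq_true', decide_eq_false_iff_not] at h1
    exact h1.resolve_left (fun h2 => h2 h)
  rcases lt_or_ge d 9 with h9 | h9
  · exact key h9 h
  · rw [chk_8 q vh p (by omega)]
    exact key (by norm_num) (ROK_8 h)

lemma src_Kq {q : ℕ → SK → SK → Option (List (ℤ × ℤ))} {vh : SK → SK → List (ℤ × ℤ)} {p : PT}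
    {hq : ∀ B l r, q B l r = q B r l} {hv : ∀ l r, vh l r = vh r l} (hT : tab q vh p = true) :
    Src (Kq q vh hq hv) q vh := by
  intro d l r h
  have h1 := tab_spec hT h
  unfold chk at h1
  cases h2 : pol q vh d l r with
  | none =>
    rw [h2] at h1
    exact absurd h1 (by simp)
  | some V => exact ⟨V, rfl, (Kq_some h2).subset⟩

lemma src_K0 : Src K0 q0 (fun _ _ => vt .t8) := by
  intro d l r _
  refine ⟨vt (rty d l r), ?_, Subset.rfl⟩
  unfold pol
  split_ifs with h
  · rw [Z8.rty_t8 h]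
  · rfl

/-- the neighbours are in the hulls -/
theorem port_in {K : KFam} {q : ℕ → SK → SK → Option (List (ℤ × ℤ))}
    {vh : SK → SK → List (ℤ × ℤ)} {p : PT} (hS : Src K q vh) (hT : tab q vh p = true) {x : SK}
    {d : ℕ} {l : SK} {d' : ℕ} {l' : SK} {k : ℂ} (h : HOK x d l d' l')
    (hk : k ∈ frS x.sgn (K.K d' x l')) : k ∈ prt p x d (crs d l x) := by
  obtain ⟨V, e, hV⟩ := hS d' x l' h.right
  have hc := tab_spec hT h.right
  unfold chk at hc
  rw [e] at hc
  have hP := hV.trans (KB.polyU_sub V)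
  cases x
  · exact absurd rfl h.ne
  · have hc' : (inOK V p.A2 && (decide (d' < 2) || inOK V p.A1)) = true := hc
    rw [Bool.and_eq_true, Bool.or_eq_true, decide_eq_true_eq] at hc'
    show k ∈ frS (-1) (Poly (if 2 ≤ d then p.A2 else p.A1))
    refine frS_mono ?_ hk
    split_ifs with h2
    · exact hP.trans (poly_in hc'.1)
    · exact hP.trans (poly_in (hc'.2.resolve_left (by have := h.opp rfl; omega)))
  · have hc' : inOK V p.Z = true := hc
    rw [show SK.z.sgn = 1 from rfl, frS_one] at hk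
    exact poly_in hc' (hP hk)
  · have hc' : ((decide (2 < d') || inOK V p.S3) && inOK V p.S2 &&
        (decide (crs d' .s l' < 3) || inOK V p.ST)) = true := hc
    rw [Bool.and_eq_true, Bool.and_eq_true, Bool.or_eq_true, Bool.or_eq_true, decide_eq_true_eq,
      decide_eq_true_eq] at hc'
    rw [show SK.s.sgn = 1 from rfl, frS_one] at hk
    show k ∈ Poly (if 3 ≤ d then p.S3 else if 3 ≤ crs d l .s then p.S2 else p.ST)
    split_ifs with h2 h3
    · exact poly_in (hc'.1.1.resolve_left (by have := h.one rfl; omega)) (hP hk)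
    · exact poly_in hc'.1.2 (hP hk)
    · refine poly_in (hc'.2.resolve_left ?_) (hP hk)
      have := h.abs rfl
      omega

/-! ### one round -/

/-- the statements of one round for the rings with at most seven crossings -/
structure Low (q : ℕ → SK → SK → Option (List (ℤ × ℤ))) (p : PT) : Prop where
  ends : ∀ d r, ROK d .e r → crs d .e r ≤ 7 → ∃ V, q (crs d .e r) .e r = some V ∧
    Rf1 ((crs d .e r : ℕ) : ℝ) (rty d .e r) (prt p r d (crs d .e r)) V
  inner : ∀ d l r, ROK d l r → l ≠ .e → r ≠ .e → crs d l r ≤ 7 → ∃ V,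
    q (crs d l r) l r = some V ∧ Rf2 ((crs d l r : ℕ) : ℝ) (rty d l r) (prt p l d (crs d l r))
      (prt p r d (crs d l r)) V

theorem refine_of {K : KFam} {q q' : ℕ → SK → SK → Option (List (ℤ × ℤ))}
    {vh : SK → SK → List (ℤ × ℤ)} {p : PT} {hq : ∀ B l r, q' B l r = q' B r l} (hle : K.Le K0)
    (hS : Src K q vh) (hT : tab q vh p = true) (hL : Low q' p) :
    Refine K (Kq q' vr hq vr_symm) := by
  constructor
  · intro d l r dl ll dr rr w kl kr h
    rcases lt_or_ge (crs d l r) 8 with h8 | h8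
    · obtain ⟨V, e, hR⟩ := hL.inner d l r h.right.ok.left h.left.ok.ne h.right.ok.ne (by omega)
      have e' : pol q' vr d l r = some V := by
        unfold pol
        rw [if_neg (by omega), e]
      rw [Kq_some e']
      have hl := port_in hS hT h.left.ok h.left.mem'
      rw [crs_symm] at hl
      have hr := port_in hS hT h.right.ok h.right.mem'
      have hz : Complex.cos w ∈ Poly (vt (rty d l r)) := KB.polyU_sub _ (hle _ _ _ h.right.mem)
      refine hR kl hl kr hr w h.w0.le h.w1.le h.wi.le hz h.left.Rre.le h.right.Rre.le ?_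
      rw [Complex.ofReal_natCast]
      exact h.eq
    · rw [Kq_some (V := Z8.v8 l r) (by unfold pol; rw [if_pos h8, vr_eq h.right.ok.ne])]
      exact Z8.mem8 hle h h8
  · intro d r dr rr w kr h
    rcases lt_or_ge (crs d .e r) 8 with h8 | h8
    · obtain ⟨V, e, hR⟩ := hL.ends d r h.right.ok.left (by omega)
      have e' : pol q' vr d .e r = some V := by
        unfold pol
        rw [if_neg (by omega), e]
      rw [Kq_some e']
      have hr := port_in hS hT h.right.ok h.right.mem'
      have hz : Complex.cos w ∈ Poly (vt (rty d .e r)) := KB.polyU_sub _ (hle _ _ _ h.right.mem)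
      refine hR kr hr w h.w0.le h.w1.le h.wi.le hz h.right.Rre.le ?_
      rw [Complex.ofReal_natCast]
      exact h.eq
    · rw [Kq_some (V := Z8.v8 .e r) (by unfold pol; rw [if_pos h8, vr_eq h.right.ok.ne])]
      exact Z8.mem8e hle h h8

/-! ### the families are smaller than `K0` -/

/-- the edges are not degenerate -/
def nde (W : List (ℤ × ℤ)) : Bool := (edges W).all fun e => !(decide (e.1 = e.2))

/-- check: all polygons are in the typed polygons -/
def leb (q : ℕ → SK → SK → Option (List (ℤ × ℤ))) (vh : SK → SK → List (ℤ × ℤ)) : Bool :=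
  (List.range 9).all fun d => allK.all fun l => allK.all fun r =>
    match pol q vh d l r with
    | none => true
    | some V => inOK V (vt (rty d l r)) && nde (vt (rty d l r))

lemma polyU_in {V W : List (ℤ × ℤ)} (h : inOK V W = true) (hW : nde W = true) :
    PolyU V ⊆ PolyU W := by
  intro z hz e he
  have hne : e.1 ≠ e.2 := by
    have := List.all_eq_true.1 hW e he
    rw [Bool.not_eq_true', decide_eq_false_iff_not] at this
    exact this
  have hU := KB.polyU_open V
  set u : ℂ := ⟨-((e.2.2 : ℝ) - e.1.2), (e.2.1 : ℝ) - e.1.1⟩ with hu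
  have hc : Filter.Tendsto (fun t : ℝ => z - (t : ℂ) * u) (nhds 0) (nhds z) := by
    have : Continuous fun t : ℝ => z - (t : ℂ) * u := by fun_prop
    have h2 := this.tendsto 0
    simpa using h2
  obtain ⟨ε, hε, hb⟩ := Metric.mem_nhds_iff.1 (hc (hU.mem_nhds hz))
  have h1 : (ε / 2 : ℝ) ∈ Metric.ball (0 : ℝ) ε := by
    rw [Metric.mem_ball, dist_zero_right, Real.norm_eq_abs, abs_of_pos (by linarith)]
    linarith
  have h2 := poly_in h (KB.polyU_sub V (hb h1)) e he
  have h3 : cr e.1 e.2 (z - ((ε / 2 : ℝ) : ℂ) * u) = cr e.1 e.2 z -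
      1000 * (ε / 2) * (((e.2.2 : ℝ) - e.1.2) ^ 2 + ((e.2.1 : ℝ) - e.1.1) ^ 2) := by
    rw [hu]
    unfold cr
    simp only [Complex.sub_re, Complex.sub_im, Complex.mul_re, Complex.mul_im, Complex.ofReal_re,
      Complex.ofReal_im]
    push_cast
    ring
  rw [h3] at h2
  have h4 : 0 < ((e.2.2 : ℝ) - e.1.2) ^ 2 + ((e.2.1 : ℝ) - e.1.1) ^ 2 := by
    by_contra hcon
    apply hne
    have s1 := sq_nonneg ((e.2.2 : ℝ) - e.1.2)
    have s2 := sq_nonneg ((e.2.1 : ℝ) - e.1.1)
    have h5 : ((e.2.2 : ℝ) - e.1.2) ^ 2 = 0 := by linarith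
    have h6 : ((e.2.1 : ℝ) - e.1.1) ^ 2 = 0 := by linarith
    rw [sq_eq_zero_iff, sub_eq_zero] at h5 h6
    exact (Prod.ext (by exact_mod_cast h6) (by exact_mod_cast h5)).symm
  have h5 : 0 < 1000 * (ε / 2) * (((e.2.2 : ℝ) - e.1.2) ^ 2 + ((e.2.1 : ℝ) - e.1.1) ^ 2) := by
    positivity
  show 0 < cr e.1 e.2 z
  linarith

lemma leb_spec {q : ℕ → SK → SK → Option (List (ℤ × ℤ))} {vh : SK → SK → List (ℤ × ℤ)}
    {hq : ∀ B l r, q B l r = q B r l} {hv : ∀ l r, vh l r = vh r l} (hT : leb q vh = true) :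
    (Kq q vh hq hv).Le K0 := by
  have key : ∀ {d : ℕ} {l r : SK}, d < 9 → (Kq q vh hq hv).K d l r ⊆ K0.K d l r := by
    intro d l r hd
    have h1 := List.all_eq_true.1 (List.all_eq_true.1 (List.all_eq_true.1 hT d
      (List.mem_range.2 hd)) l (mem_allK l)) r (mem_allK r)
    cases h2 : pol q vh d l r with
    | none =>
      have : (Kq q vh hq hv).K d l r = PolyU (vt (rty d l r)) := by
        show (match pol q vh d l r with
          | some V => PolyU V
          | none => PolyU (vt (rty d l r))) = PolyU (vt (rty d l r))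
        rw [h2]
      exact this.subset
    | some V =>
      rw [h2] at h1
      have h3 : (inOK V (vt (rty d l r)) && nde (vt (rty d l r))) = true := h1
      rw [Bool.and_eq_true] at h3
      rw [Kq_some h2]
      exact polyU_in h3.1 h3.2
  intro d l r
  rcases lt_or_ge d 9 with h9 | h9
  · exact key h9
  · have h1 := key (d := 8) (l := l) (r := r) (by norm_num)
    rw [Kq_some (pol_8 q vh le_rfl l r)] at h1
    rw [Kq_some (pol_8 q vh (by omega) l r)]
    intro z hz
    have h2 : z ∈ PolyU (vt (rty 8 l r)) := h1 hz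
    rw [Z8.rty_t8 (by unfold crs; omega)] at h2
    show z ∈ PolyU (vt (rty d l r))
    rw [Z8.rty_t8 (by unfold crs; omega)]
    exact h2

end SR

end Pool.Agent.Work.MP_b30479_gt.G2
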