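import Pool.Agent.Work.MP_b30479_gt.G2.WAdj

/-!
# Further location facts: sums of the real parts at a digit `±1`
-/

namespace Pool.Agent.Work.MP_b30479_gt.G2

namespace SR

variable {M : ℕ}

/-- **Location facts: real parts of the two hinges of a digit `±1`.** -/
structure LocS (b : Fin (M + 1) → ℤ) (zs : DD (tyW b) ⊕ ZZ (tyW b) → ℂ) : Prop where
  sum : ∀ {h h' : Fin M} {i j j' : Fin (M + 1)} {p : Fin 3}, Adj h i p j → Adj h' i p.rev j' →
    clsW b i = .one → (zs (.inl (.inl h))).re + (zs (.inl (.inl h'))).re ≤ 80 / 100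
  sumZ : ∀ {h h' : Fin M} {i j j' : Fin (M + 1)} {p : Fin 3}, Adj h i p j → Adj h' i p.rev j' →
    clsW b i = .one → clsW b j = .ring → clsW b j' = .one →
    (zs (.inl (.inl h))).re + (zs (.inl (.inl h'))).re ≤ 76 / 100

end SR

end Pool.Agent.Work.MP_b30479_gt.G2
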