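import Pool.Agent.Work.MP_b30479_gt.LT.Stmt

/-!
# The Sakuma-Weeks triangulation of a two-bridge link complement

The word `a 0, ..., a (M + 1)` is a path in the Farey tessellation: `a i` triangles in the fan of
the pivot `i`.  A Markoff map assigns a complex number to every vertex; `p i` is the value at the
pivot `i`, `q i 0, q i 1, ...` are the values at its neighbours, in the order of the path.
-/

namespace Pool.Agent.Work.MP_b30479_gt.G2

open Finset

/-- The Markoff map of the word: `q i (l + 1) + q i (l - 1) = p i * q i l` in every fan, the last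
edge of a fan is the first edge of the next one; the value is `0` at the two ends of the path. -/
structure Markoff {M : ℕ} (a : Fin (M + 2) → ℕ) (p : Fin (M + 2) → ℂ) (q : Fin (M + 2) → ℕ → ℂ) :
    Prop where
  first : q 0 0 = 0 ∧ q 0 1 = Complex.I * p 0
  fan : ∀ i l, q i (l + 2) + q i l = p i * q i (l + 1)
  turn : ∀ j : Fin (M + 1), p j.succ = q j.castSucc (a j.castSucc) ∧ q j.succ 0 = p j.castSucc ∧
    q j.succ 1 = q j.castSucc (a j.castSucc + 1)
  last : q (Fin.last (M + 1)) (a (Fin.last (M + 1))) = 0

/-- the layers of the fan `i`: the edges `{p i, q i l}` crossed by the path, without the first and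
the last edge of the path; every layer consists of two tetrahedra -/
def lays {M : ℕ} (a : Fin (M + 2) → ℕ) (i : Fin (M + 2)) : Finset ℕ :=
  Icc (if i = 0 then 2 else 1) (if i = Fin.last (M + 1) then a i - 2 else a i)

/-- the shape of the two tetrahedra of a layer -/
noncomputable def swShape {M : ℕ} (p : Fin (M + 2) → ℂ) (q : Fin (M + 2) → ℕ → ℂ) (i : Fin (M + 2))
    (l : ℕ) : ℂ := if Even (i : ℕ) then -(q i l / p i) ^ 2 else -(p i / q i l) ^ 2

/-- all tetrahedra are positively oriented -/
def SWPos {M : ℕ} (a : Fin (M + 2) → ℕ) (p : Fin (M + 2) → ℂ) (q : Fin (M + 2) → ℕ → ℂ) : Prop :=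
  ∀ i, ∀ l ∈ lays a i, 0 < (swShape p q i l).im

/-- the volume: the sum of the Bloch-Wigner dilogarithms of the shapes of all tetrahedra -/
noncomputable def swVolume {M : ℕ} (a : Fin (M + 2) → ℕ) (p : Fin (M + 2) → ℂ)
    (q : Fin (M + 2) → ℕ → ℂ) : ℝ := ∑ i, ∑ l ∈ lays a i, 2 * LT.BW (swShape p q i l)

end Pool.Agent.Work.MP_b30479_gt.G2
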