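import Pool.Agent.Work.MP_b30479_gt.G2.SWGlue
import Pool.Agent.Work.MP_b30479_gt.G2.SWDefs

/-!
# The Sakuma-Weeks triangulation of the original word

From a solution of the gluing equations of the merged word to the Markoff map of the alternating
word `a`.
-/

namespace Pool.Agent.Work.MP_b30479_gt.G2

open Finset
open Pool.Agent.Work.MP_b30479_gt.LT (BW)

/-- positivity of the Sakuma-Weeks tetrahedra in terms of the chains: inner layers, and turning
points between digits of opposite signs -/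
structure UPos {M : ℕ} (b : Fin (M + 2) → ℤ) (U : Fin (M + 2) → ℕ → ℂ) : Prop where
  run : ∀ i, ∀ l, 1 ≤ l → l + (if i = 0 ∨ i = Fin.last (M + 1) then 2 else 1) ≤ (b i).natAbs →
    0 < sI (b i) * ((1 - U i (l + 1)) / (1 - U i l)).im
  turn : ∀ j : Fin (M + 1), b j.castSucc * b j.succ < 0 →
    0 < sI (b j.succ) * ((1 - U j.succ 1) / (1 - U j.succ 0)).im

/-- extension to the natural numbers -/
def xt {α : Type} {n : ℕ} (d : α) (f : Fin n → α) (k : ℕ) : α := if h : k < n then f ⟨k, h⟩ else d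

lemma xt_eq {α : Type} {n : ℕ} (d : α) (f : Fin n → α) (i : Fin n) : xt d f i = f i := by
  unfold xt
  rw [dif_pos i.2]

lemma xt_of {α : Type} {n : ℕ} (d : α) (f : Fin n → α) {k : ℕ} (h : k < n) : xt d f k = f ⟨k, h⟩ := by
  unfold xt
  rw [dif_pos h]

lemma ite_zero {α : Type} {M : ℕ} (i : Fin (M + 2)) (x y : α) :
    (if (i : ℕ) = 0 then x else y) = if i = 0 then x else y := by
  by_cases h : i = 0
  · rw [if_pos h, if_pos (by rw [h]; rfl)]
  · rw [if_neg h, if_neg (fun h' : (i : ℕ) = 0 => h (Fin.ext h'))]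

lemma ite_last {α : Type} {M : ℕ} (i : Fin (M + 2)) (x y : α) :
    (if (i : ℕ) = M + 1 then x else y) = if i = Fin.last (M + 1) then x else y := by
  by_cases h : i = Fin.last (M + 1)
  · rw [if_pos h, if_pos (by rw [h]; rfl)]
  · rw [if_neg h, if_neg (fun h' : (i : ℕ) = M + 1 => h (Fin.ext h'))]

lemma ofFn_dig {M : ℕ} (b : Fin (M + 2) → ℤ) : List.ofFn b = dig (xt 1 b) 0 (M + 1) := by
  unfold dig
  apply List.ext_getElem
  · simp
  · intro i h1 h2
    simp only [List.length_ofFn] at h1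
    simp only [List.getElem_ofFn, List.getElem_map, List.getElem_range', zero_add, one_mul]
    rw [xt_of 1 b h1]

section
variable {M : ℕ} {b : Fin (M + 2) → ℤ} {Y : Fin (M + 1) → ℂ} {U : Fin (M + 2) → ℕ → ℂ}

lemma glueN_of (hG : Glue b Y U) (hb : ∀ i, b i ≠ 0) (h0 : 2 ≤ (b 0).natAbs)
    (hl : 2 ≤ (b (Fin.last (M + 1))).natAbs) (hY0 : ∀ j, Y j ≠ 0) (hY1 : ∀ j, Y j ≠ 1)
    (hU : UPos b U) : GlueN (M + 1) (xt 1 b) (xt 1 Y) (xt (fun _ => 1) U) where
  hN := by omega
  b0 := fun j hj => by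
    rw [xt_of 1 b (by omega : j < M + 2)]
    exact hb _
  first2 := by
    rw [xt_of 1 b (by omega : 0 < M + 2)]
    exact h0
  last2 := by
    rw [xt_of 1 b (by omega : M + 1 < M + 2)]
    exact hl
  Y0 := fun j hj => by
    rw [xt_of 1 Y hj]
    exact hY0 _
  Y1 := fun j hj => by
    rw [xt_of 1 Y hj]
    exact hY1 _
  first := by
    rw [xt_of 1 b (by omega : 0 < M + 2), xt_of 1 Y (by omega : 0 < M + 1),
      xt_of (fun _ => 1) U (by omega : 0 < M + 2)]
    exact hG.first
  last := by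
    rw [xt_of 1 b (by omega : M + 1 < M + 2), Nat.add_sub_cancel, xt_of 1 Y (by omega : M < M + 1),
      xt_of (fun _ => 1) U (by omega : M + 1 < M + 2)]
    exact hG.last
  mid := fun j hj hj' => by
    obtain ⟨m, rfl⟩ : ∃ m, j = m + 1 := ⟨j - 1, by omega⟩
    rw [xt_of 1 b (by omega : m + 1 < M + 2), Nat.add_sub_cancel, xt_of 1 Y (by omega : m < M + 1),
      xt_of 1 Y (by omega : m + 1 < M + 1), xt_of (fun _ => 1) U (by omega : m + 1 < M + 2)]
    exact hG.mid ⟨m, by omega⟩
  turn := fun j hj => by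
    have h := hG.turn ⟨j, hj⟩
    rw [xt_of 1 b (by omega : j < M + 2), xt_of 1 Y hj, xt_of 1 b (by omega : j + 1 < M + 2),
      xt_of (fun _ => 1) U (by omega : j + 1 < M + 2), xt_of (fun _ => 1) U (by omega : j < M + 2),
      xt_of (fun _ => 1) U (by omega : 0 < M + 2)]
    unfold nbr at h
    by_cases hj0 : j = 0
    · subst hj0
      simpa using h
    · rw [if_neg hj0]
      rw [if_neg (fun h => hj0 (by simpa using congrArg Fin.val h))] at h
      exact h
  pos := fun i hi l hl1 hl2 => by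
    rw [xt_of 1 b (by omega : i < M + 2)] at hl2 ⊢
    rw [xt_of (fun _ => 1) U (by omega : i < M + 2)]
    refine hU.run ⟨i, by omega⟩ l hl1 ?_
    have e : ((⟨i, by omega⟩ : Fin (M + 2)) = 0 ∨ (⟨i, by omega⟩ : Fin (M + 2)) = Fin.last (M + 1)) ↔
        (i = 0 ∨ i = M + 1) := by
      simp [Fin.ext_iff]
    by_cases hc : i = 0 ∨ i = M + 1
    · rw [if_pos hc] at hl2
      rw [if_pos (e.mpr hc)]
      exact hl2
    · rw [if_neg hc] at hl2
      rw [if_neg (fun h => hc (e.mp h))]
      exact hl2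
  posT := fun j hj hs => by
    rw [xt_of 1 b (by omega : j < M + 2), xt_of 1 b (by omega : j + 1 < M + 2)] at hs
    rw [xt_of 1 b (by omega : j + 1 < M + 2), xt_of (fun _ => 1) U (by omega : j + 1 < M + 2)]
    exact hU.turn ⟨j, hj⟩ hs

/-- the Markoff map of the signed word -/
theorem glue_sw (hG : Glue b Y U) (hb : ∀ i, b i ≠ 0) (h0 : 2 ≤ (b 0).natAbs)
    (hl : 2 ≤ (b (Fin.last (M + 1))).natAbs) (hY0 : ∀ j, Y j ≠ 0) (hY1 : ∀ j, Y j ≠ 1)
    (hU : UPos b U) : ∃ y : ℂ, y ≠ 0 ∧ fin y 0 (Complex.I * y) (List.ofFn b) = 0 ∧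
      (∀ x ∈ Lys 2 y 0 (Complex.I * y) (List.ofFn b), 0 < (zL x).im) ∧
      vsum (Lys 2 y 0 (Complex.I * y) (List.ofFn b)) = swVol b Y U := by
  have h := glueN_of hG hb h0 hl hY0 hY1 hU
  obtain ⟨y, hy⟩ := IsAlgClosed.exists_pow_nat_eq
    ((1 - xt (fun _ => 1) U 0 1) * (1 - (xt (fun _ => 1) U 0 0)⁻¹)) (n := 2) (by norm_num)
  have hy' := hy.symm
  have hI := h.inv hy' 1 le_rfl h.hN
  refine ⟨y, hI.q0, ?_, ?_, ?_⟩
  · rw [ofFn_dig]
    exact h.fin_eq hy'
  · rw [ofFn_dig]
    exact h.pos_all hy'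
  · rw [ofFn_dig]
    have h1 := h.vol hy'
    have h2 : vsum (Lys 2 y 0 (Complex.I * y) (dig (xt 1 b) 0 (M + 1))) = vsum (LS' (xt 1 b) y 2 0 (M + 1)) := rfl
    rw [h2, h1, swVol]
    congr 1
    · rw [sum_range]
      exact sum_congr rfl fun j _ => by rw [xt_eq]
    · rw [sum_range]
      refine sum_congr rfl fun i _ => ?_
      unfold lett
      rw [xt_eq, xt_eq]
      have e : nlN (M + 1) (xt 1 b) i = nlet b i := by
        unfold nlN nlet
        rw [xt_eq]
        have e : ((i : ℕ) = 0 ∨ (i : ℕ) = M + 1) ↔ (i = 0 ∨ i = Fin.last (M + 1)) := by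
          rw [Fin.ext_iff, Fin.ext_iff]
          rfl
        by_cases hc : (i : ℕ) = 0 ∨ (i : ℕ) = M + 1
        · rw [if_pos hc, if_pos (e.mp hc)]
        · rw [if_neg hc, if_neg (fun h => hc (e.mpr h))]
      rw [e]

end

/-! ### from lists to the Markoff map of the word `a` -/

section
variable {b : ℕ → ℤ} {y : ℂ}

lemma all_LS {P : Lay → Prop} : ∀ n k kk, (∀ j, k ≤ j → j < k + n → b j * b (j + 1) < 0) →
    (∀ x ∈ LS' b y kk k n, P x) → ∀ i ≤ n, ∀ l, (if i = 0 then kk else 1) ≤ l →
      l ≤ (if i = n then (b (k + i)).natAbs - 2 else (b (k + i)).natAbs) →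
      (i = n → 2 ≤ (b (k + n)).natAbs) → 1 ≤ l → P (LK b y (k + i) l) := by
  intro n
  induction n with
  | zero =>
    intro k kk _ hP i hi l h1 h2 h3 h4
    have hi0 : i = 0 := by omega
    subst hi0
    rw [if_pos rfl] at h1 h2
    have := h3 rfl
    rw [add_zero] at *
    refine hP _ ?_
    rw [LS_zero, List.mem_map]
    exact ⟨l, by rw [List.mem_range'_1]; omega, rfl⟩
  | succ n ih =>
    intro k kk hs hP i hi l h1 h2 h3 h4
    rw [LS_succ] at hP
    rcases Nat.eq_zero_or_pos i with rfl | hi0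
    · rw [if_pos rfl] at h1
      rw [if_neg (by omega), add_zero] at h2
      rw [add_zero]
      refine hP _ ?_
      rw [List.mem_append, List.mem_append]
      left
      rcases Nat.lt_or_ge l (b k).natAbs with h5 | h5
      · left
        rw [List.mem_map]
        exact ⟨l, by rw [List.mem_range'_1]; omega, rfl⟩
      · right
        rw [if_pos (hs k le_rfl (by omega)), List.mem_singleton, show l = (b k).natAbs by omega]
    · obtain ⟨m, rfl⟩ : ∃ m, i = m + 1 := ⟨i - 1, by omega⟩
      have h6 := ih (k + 1) 1 (fun j hj hj' => hs j (by omega) (by omega))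
        (fun x hx => hP x (by rw [List.mem_append]; right; exact hx)) m (by omega) l
        (by split_ifs <;> exact h4) (by
          rw [show k + 1 + m = k + (m + 1) by omega]
          by_cases hm : m = n
          · subst hm
            rw [if_pos rfl] at h2 ⊢
            exact h2
          · rw [if_neg (by omega)] at h2
            rw [if_neg hm]
            exact h2) (fun hm => by
          rw [show k + 1 + n = k + (n + 1) by omega]
          exact h3 (by omega)) h4
      rw [show k + 1 + m = k + (m + 1) by omega] at h6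
      exact h6

lemma sum_LS : ∀ n k kk, (∀ j, k ≤ j → j < k + n → b j * b (j + 1) < 0) →
    (∀ j, k ≤ j → j ≤ k + n → b j ≠ 0) → kk ≤ (b k).natAbs → 2 ≤ (b (k + n)).natAbs →
    vsum (LS' b y kk k n) = ∑ i ∈ range (n + 1), ∑ l ∈ Icc (if i = 0 then kk else 1)
      (if i = n then (b (k + i)).natAbs - 2 else (b (k + i)).natAbs), 2 * BK b y (k + i) l := by
  intro n
  induction n with
  | zero =>
    intro k kk _ _ hkk h2
    rw [add_zero] at h2
    rw [LS_zero, vsum_run, sum_range_one, if_pos rfl, if_pos rfl, add_zero,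
      ← Finset.Ico_add_one_right_eq_Icc, sum_Ico_eq_sum_range,
      show (b k).natAbs - 1 - kk = (b k).natAbs - 2 + 1 - kk by omega]
  | succ n ih =>
    intro k kk hs hb hkk h2
    have hb1 := hb (k + 1) (by omega) (by omega)
    have h3 := ih (k + 1) 1 (fun j hj hj' => hs j (by omega) (by omega))
      (fun j hj hj' => hb j (by omega) (by omega)) (by omega)
      (by rw [show k + 1 + n = k + (n + 1) by omega]; exact h2)
    rw [LS_succ, vsum_append, vsum_append, vsum_run, vsum_if, if_pos (hs k le_rfl (by omega)), h3,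
      sum_range_succ' _ (n + 1), if_pos rfl, if_neg (by omega : ¬ 0 = n + 1), add_zero, add_comm]
    congr 1
    · refine sum_congr rfl fun i hi => ?_
      rw [mem_range] at hi
      rw [show k + 1 + i = k + (i + 1) by omega, if_neg (by omega : ¬ i + 1 = 0)]
      have e1 : (if i = 0 then 1 else 1) = 1 := by split_ifs <;> rfl
      have e2 : (i = n) ↔ (i + 1 = n + 1) := by omega
      rw [e1]
      simp only [e2]
    · rw [← Finset.Ico_add_one_right_eq_Icc, sum_Ico_eq_sum_range,
        show (b k).natAbs + 1 - kk = ((b k).natAbs - kk) + 1 by omega, sum_range_succ,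
        show kk + ((b k).natAbs - kk) = (b k).natAbs by omega]

end

section
variable {M : ℕ} (a : Fin (M + 2) → ℕ)

lemma altf_natAbs (i : Fin (M + 2)) : (altf (M := M + 1) a i).natAbs = a i := by
  unfold altf
  rw [Int.natAbs_mul, Int.natAbs_pow]
  simp

lemma altf_pos_iff (ha : ∀ i, 1 ≤ a i) (i : Fin (M + 2)) :
    0 < altf (M := M + 1) a i ↔ Even (i : ℕ) := by
  have h := ha i
  unfold altf
  rcases Nat.even_or_odd (i : ℕ) with h1 | h1
  · rw [h1.neg_one_pow]
    simp only [one_mul]
    constructor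
    · intro _; exact h1
    · intro _; omega
  · rw [h1.neg_one_pow]
    constructor
    · intro h2; omega
    · intro h2
      exact absurd h1 (Nat.not_odd_iff_even.mpr h2)

lemma altf_opp (ha : ∀ i, 1 ≤ a i) (j : Fin (M + 1)) :
    altf (M := M + 1) a j.castSucc * altf (M := M + 1) a j.succ < 0 := by
  have h1 : (0 : ℤ) < a j.castSucc := by exact_mod_cast ha _
  have h2 : (0 : ℤ) < a j.succ := by exact_mod_cast ha _
  unfold altf
  rw [Fin.val_castSucc, Fin.val_succ, pow_succ]
  have h3 : ((-1 : ℤ) ^ (j : ℕ)) * (-1) ^ (j : ℕ) = 1 := by rw [← mul_pow]; simp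
  have h4 : (-1 : ℤ) ^ (j : ℕ) * a j.castSucc * ((-1) ^ (j : ℕ) * -1 * a j.succ) =
      -(a j.castSucc * a j.succ) := by
    linear_combination -(a j.castSucc * a j.succ : ℤ) * h3
  rw [h4]
  have := mul_pos h1 h2
  omega

/-- from the layers of the alternating word to the Markoff map -/
theorem markoff_of {y : ℂ} (ha : ∀ i, 1 ≤ a i) (h0 : 2 ≤ a 0) (hl : 2 ≤ a (Fin.last (M + 1)))
    (h1 : fin y 0 (Complex.I * y) (List.ofFn (altf (M := M + 1) a)) = 0)
    (h2 : ∀ x ∈ Lys 2 y 0 (Complex.I * y) (List.ofFn (altf (M := M + 1) a)), 0 < (zL x).im) :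
    ∃ (p : Fin (M + 2) → ℂ) (q : Fin (M + 2) → ℕ → ℂ), p 0 = y ∧ Markoff a p q ∧ SWPos a p q ∧
      swVolume a p q = vsum (Lys 2 y 0 (Complex.I * y) (List.ofFn (altf (M := M + 1) a))) := by
  set b := xt 1 (altf (M := M + 1) a) with hb
  have hbn : ∀ i : Fin (M + 2), (b i).natAbs = a i := fun i => by rw [hb, xt_eq, altf_natAbs]
  have hbo : ∀ j, j < M + 1 → b j * b (j + 1) < 0 := by
    intro j hj
    rw [hb, xt_of _ _ (by omega : j < M + 2), xt_of _ _ (by omega : j + 1 < M + 2)]
    exact altf_opp a ha ⟨j, hj⟩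
  have hb0 : ∀ j, j ≤ M + 1 → b j ≠ 0 := by
    intro j hj h
    have := hbn ⟨j, by omega⟩
    have h3 := ha ⟨j, by omega⟩
    simp only at this
    rw [h] at this
    simp at this
    omega
  have hbl : (b (M + 1)).natAbs = a (Fin.last (M + 1)) := hbn (Fin.last (M + 1))
  have hshape : ∀ (i : Fin (M + 2)) (l : ℕ), swShape (fun i => (St b y i).1) (fun i l => Fk b y i l) i l =
      zL (LK b y i l) := by
    intro i l
    have h3 := altf_pos_iff a ha i
    have h4 : b i = altf (M := M + 1) a i := by rw [hb, xt_eq]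
    unfold swShape LK lay zL
    rw [h4]
    by_cases h5 : Even (i : ℕ)
    · rw [if_pos h5, if_pos (h3.mpr h5)]
      rfl
    · rw [if_neg h5, if_neg (fun h => h5 (h3.mp h))]
      rfl
  rw [ofFn_dig, ← hb] at h1 h2 ⊢
  refine ⟨fun i => (St b y i).1, fun i l => Fk b y i l, rfl, ⟨?_, ?_, ?_, ?_⟩, ?_, ?_⟩
  · exact ⟨rfl, rfl⟩
  · intro i l
    show (St b y i).1 * fan (St b y i).1 (St b y i).2.1 (St b y i).2.2 (l + 1) -
      fan (St b y i).1 (St b y i).2.1 (St b y i).2.2 l + fan (St b y i).1 (St b y i).2.1 (St b y i).2.2 l = _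
    exact sub_add_cancel _ _
  · intro j
    have h3 : b j * b (j + 1) < 0 := hbo j j.2
    have h4 := hbn j.castSucc
    rw [Fin.val_castSucc] at h4
    refine ⟨?_, rfl, ?_⟩
    · show Fk b y j (b j).natAbs = _
      rw [h4]
      rfl
    · show nq (b j) (b (j + 1)) _ _ _ = _
      rw [nq, if_pos h3, h4]
      rfl
  · have h3 := fin_St (b := b) (y := y) (M + 1) 0
    rw [zero_add] at h3
    have h4 : Fk b y (M + 1) (b (M + 1)).natAbs = 0 := h3.symm.trans h1
    rw [hbl] at h4
    exact h4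
  · intro i l hil
    rw [hshape]
    unfold lays at hil
    rw [mem_Icc] at hil
    have h3 := all_LS (b := b) (y := y) (P := fun x => 0 < (zL x).im) (M + 1) 0 2
      (fun j _ hj => hbo j (by omega)) h2 i (by omega) l
      (by
        rw [ite_zero]
        exact hil.1)
      (by
        rw [ite_last, zero_add, hbn]
        exact hil.2)
      (fun _ => by
        rw [zero_add, hbl]
        exact hl)
      (by
        have := hil.1
        split_ifs at this <;> omega)
    rw [zero_add] at h3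
    exact h3
  · have h3 := sum_LS (b := b) (y := y) (M + 1) 0 2 (fun j _ hj => hbo j (by omega))
      (fun j _ hj => hb0 j (by omega)) (by
        have := hbn 0
        rw [Fin.val_zero] at this
        omega) (by
        rw [zero_add]
        omega)
    have h4 : vsum (Lys 2 y 0 (Complex.I * y) (dig b 0 (M + 1))) = vsum (LS' b y 2 0 (M + 1)) := rfl
    rw [h4, h3, sum_range, swVolume]
    refine sum_congr rfl fun i _ => ?_
    rw [ite_zero, ite_last, zero_add, hbn]
    exact sum_congr rfl fun l _ => by rw [hshape, BK]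

end

end Pool.Agent.Work.MP_b30479_gt.G2
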