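import Pool.Agent.Work.MP_b30479_gt.G2.CSMg
import Pool.Agent.Work.MP_b30479_gt.G2.SWMain

/-!
# The formula for an alternating word, principal logarithms
-/

namespace Pool.Agent.Work.MP_b30479_gt.G2

open Finset

/-! ### words indexed by natural numbers -/

section
variable {b : ℕ → ℤ} {y : ℂ}

lemma sum_LSg (f : Lay → ℂ) : ∀ n k kk, (∀ j, k ≤ j → j < k + n → b j * b (j + 1) < 0) →
    (∀ j, k ≤ j → j ≤ k + n → b j ≠ 0) → kk ≤ (b k).natAbs → 2 ≤ (b (k + n)).natAbs →
    ((LS' b y kk k n).map f).sum = ∑ i ∈ range (n + 1), ∑ l ∈ Icc (if i = 0 then kk else 1)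
      (if i = n then (b (k + i)).natAbs - 2 else (b (k + i)).natAbs), f (LK b y (k + i) l) := by
  have hrun : ∀ (g : ℕ → Lay) (s m : ℕ), (((List.range' s m).map g).map f).sum =
      ∑ i ∈ range m, f (g (s + i)) := by
    intro g s m
    induction m with
    | zero => simp
    | succ m ih =>
      rw [List.range'_1_concat, List.map_append, List.map_append, List.sum_append, ih,
        sum_range_succ]
      simp
  intro n
  induction n with
  | zero =>
    intro k kk _ _ hkk h2
    rw [add_zero] at h2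
    rw [LS_zero, hrun, sum_range_one, if_pos rfl, if_pos rfl, add_zero,
      ← Finset.Ico_add_one_right_eq_Icc, sum_Ico_eq_sum_range,
      show (b k).natAbs - 1 - kk = (b k).natAbs - 2 + 1 - kk by omega]
  | succ n ih =>
    intro k kk hs hb hkk h2
    have hb1 := hb (k + 1) (by omega) (by omega)
    have h3 := ih (k + 1) 1 (fun j hj hj' => hs j (by omega) (by omega))
      (fun j hj hj' => hb j (by omega) (by omega)) (by omega)
      (by rw [show k + 1 + n = k + (n + 1) by omega]; exact h2)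
    rw [LS_succ, List.map_append, List.sum_append, List.map_append, List.sum_append, hrun,
      if_pos (hs k le_rfl (by omega)), h3,
      sum_range_succ' _ (n + 1), if_pos rfl, if_neg (by omega : ¬ 0 = n + 1), add_zero, add_comm]
    congr 1
    · refine sum_congr rfl fun i hi => ?_
      rw [mem_range] at hi
      rw [show k + 1 + i = k + (i + 1) by omega, if_neg (by omega : ¬ i + 1 = 0)]
      have e1 : (if i = 0 then 1 else 1) = 1 := by split_ifs <;> rfl
      have e2 : (i = n) ↔ (i + 1 = n + 1) := by omega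
      rw [e1]
      simp only [e2]
    · rw [← Finset.Ico_add_one_right_eq_Icc, sum_Ico_eq_sum_range,
        show (b k).natAbs + 1 - kk = ((b k).natAbs - kk) + 1 by omega, sum_range_succ,
        show kk + ((b k).natAbs - kk) = (b k).natAbs by omega]
      simp

lemma fpe_St : ∀ n k, fpe (St b y k).1 (St b y k).2.1 (St b y k).2.2 (dig b k n) =
    ((St b y (k + n)).1, Fk b y (k + n) ((b (k + n)).natAbs - 1)) := by
  intro n
  induction n with
  | zero => intro k; rfl
  | succ n ih =>
    intro k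
    have := ih (k + 1)
    rw [show k + 1 + n = k + (n + 1) by omega] at this
    rw [← this]
    rfl

lemma kapL_dig : ∀ n k, (∀ j, k ≤ j → j < k + n → b j * b (j + 1) < 0) →
    kapL (dig b k n) = -∑ i ∈ range (n + 1), b (k + i) := by
  intro n
  induction n with
  | zero =>
    intro k _
    show -b k = _
    simp
  | succ n ih =>
    intro k hs
    have h3 := ih (k + 1) (fun j hj hj' => hs j (by omega) (by omega))
    rw [dig_succ, kapL_cons, ← dig_succ', h3, if_pos (hs k le_rfl (by omega)),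
      sum_range_succ' _ (n + 1)]
    have e : ∑ i ∈ range (n + 1), b (k + 1 + i) = ∑ i ∈ range (n + 1), b (k + (i + 1)) :=
      sum_congr rfl fun i _ => by rw [show k + 1 + i = k + (i + 1) by omega]
    rw [e]
    simp only [add_zero]
    ring

lemma ca_lst_dig : ∀ n k, lst (dig b k n) = b (k + n) := by
  intro n
  induction n with
  | zero => intro k; rfl
  | succ n ih =>
    intro k
    have := ih (k + 1)
    rw [show k + 1 + n = k + (n + 1) by omega] at this
    rw [← this, dig_succ, lst_cons, ← dig_succ']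

end

/-! ### the Markoff map -/

variable {M : ℕ} {a : Fin (M + 2) → ℕ} {p : Fin (M + 2) → ℂ} {q : Fin (M + 2) → ℕ → ℂ}

lemma ca_fan_eq {p : ℂ} {q : ℕ → ℂ} (h : ∀ l, q (l + 2) + q l = p * q (l + 1)) :
    ∀ l, q l = fan p (q 0) (q 1) l := by
  intro l
  induction l using Nat.twoStepInduction with
  | zero => rfl
  | one => rfl
  | more l ih1 ih2 =>
    show q (l + 2) = p * fan p (q 0) (q 1) (l + 1) - fan p (q 0) (q 1) l
    rw [← ih1, ← ih2, ← h l]
    ring

/-- the Markoff map is the one of the signed word -/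
lemma Markoff.St_eq (ha : ∀ i, 1 ≤ a i) (hM : Markoff a p q) :
    ∀ (k : ℕ) (hk : k < M + 2), St (xt 1 (altf (M := M + 1) a)) (p 0) k =
      (p ⟨k, hk⟩, q ⟨k, hk⟩ 0, q ⟨k, hk⟩ 1) := by
  intro k
  induction k with
  | zero =>
    intro hk
    have h := hM.first
    show (p 0, (0 : ℂ), Complex.I * p 0) = (p 0, q 0 0, q 0 1)
    rw [h.1, h.2]
  | succ k ih =>
    intro hk
    have h := ih (by omega)
    have ht := hM.turn ⟨k, by omega⟩
    have hf := ca_fan_eq (hM.fan ⟨k, by omega⟩)
    have hb : (xt 1 (altf (M := M + 1) a) k).natAbs = a ⟨k, by omega⟩ := by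
      rw [xt_of _ _ (by omega : k < M + 2), altf_natAbs]
    have hs : xt 1 (altf (M := M + 1) a) k * xt 1 (altf (M := M + 1) a) (k + 1) < 0 := by
      rw [xt_of _ _ (by omega : k < M + 2), xt_of _ _ (by omega : k + 1 < M + 2)]
      exact altf_opp a ha ⟨k, by omega⟩
    show (G2.fan (St _ (p 0) k).1 (St _ (p 0) k).2.1 (St _ (p 0) k).2.2 _, (St _ (p 0) k).1,
      nq _ _ (St _ (p 0) k).1 (St _ (p 0) k).2.1 (St _ (p 0) k).2.2) = _
    rw [h]
    unfold nq
    rw [if_pos hs, hb]
    simp only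
    rw [← hf, ← hf]
    have e1 : (⟨k, by omega⟩ : Fin (M + 1)).castSucc = (⟨k, by omega⟩ : Fin (M + 2)) := rfl
    have e2 : (⟨k, by omega⟩ : Fin (M + 1)).succ = (⟨k + 1, hk⟩ : Fin (M + 2)) := rfl
    rw [e1, e2] at ht
    rw [ht.1, ht.2.1, ht.2.2]

lemma Markoff.Fk_eq (ha : ∀ i, 1 ≤ a i) (hM : Markoff a p q) (i : Fin (M + 2)) (l : ℕ) :
    Fk (xt 1 (altf (M := M + 1) a)) (p 0) i l = q i l := by
  have h := hM.St_eq ha i i.2
  rw [ca_fan_eq (hM.fan i) l]
  unfold Fk
  rw [h]

lemma Markoff.mkf (hM : Markoff a p q) :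
    ∀ (k : ℕ) (hk : k < M + 2), Mkf (p ⟨k, hk⟩) (q ⟨k, hk⟩ 0) (q ⟨k, hk⟩ 1) := by
  intro k
  induction k with
  | zero =>
    intro hk
    have h := hM.first
    show q 0 1 * (p 0 * q 0 0 - q 0 1) = p 0 ^ 2 + q 0 0 ^ 2
    rw [h.1, h.2]
    linear_combination (-(p 0) ^ 2) * Complex.I_sq
  | succ k ih =>
    intro hk
    have h := ih (by omega)
    have ht := hM.turn ⟨k, by omega⟩
    have hf := ca_fan_eq (hM.fan ⟨k, by omega⟩)
    have e1 : (⟨k, by omega⟩ : Fin (M + 1)).castSucc = (⟨k, by omega⟩ : Fin (M + 2)) := rfl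
    have e2 : (⟨k, by omega⟩ : Fin (M + 1)).succ = (⟨k + 1, hk⟩ : Fin (M + 2)) := rfl
    rw [e1, e2] at ht
    rw [ht.1, ht.2.1, ht.2.2]
    have h1 := h.fan (a ⟨k, by omega⟩)
    rw [← hf, ← hf] at h1
    unfold Mkf at h1 ⊢
    linear_combination h1

/-- the values at the end of the path -/
lemma Markoff.end_eq (hM : Markoff a p q) (hl : 2 ≤ a (Fin.last (M + 1))) :
    q (Fin.last (M + 1)) (a (Fin.last (M + 1)) - 2) =
      p (Fin.last (M + 1)) * q (Fin.last (M + 1)) (a (Fin.last (M + 1)) - 1) ∧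
    q (Fin.last (M + 1)) (a (Fin.last (M + 1)) - 1) ^ 2 = -p (Fin.last (M + 1)) ^ 2 := by
  have h1 := hM.fan (Fin.last (M + 1)) (a (Fin.last (M + 1)) - 2)
  rw [show a (Fin.last (M + 1)) - 2 + 2 = a (Fin.last (M + 1)) by omega,
    show a (Fin.last (M + 1)) - 2 + 1 = a (Fin.last (M + 1)) - 1 by omega, hM.last, zero_add] at h1
  refine ⟨h1, ?_⟩
  have h2 := (hM.mkf (M + 1) (by omega)).fan (a (Fin.last (M + 1)) - 1)
  have e : (⟨M + 1, by omega⟩ : Fin (M + 2)) = Fin.last (M + 1) := rfl
  rw [e, ← ca_fan_eq (hM.fan (Fin.last (M + 1))), ← ca_fan_eq (hM.fan (Fin.last (M + 1))),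
    show a (Fin.last (M + 1)) - 1 + 1 = a (Fin.last (M + 1)) by omega, hM.last] at h2
  unfold Mkf at h2
  linear_combination -h2

/-! ### logarithms -/

/-- the folded edges at the end -/
def Fold2 (a : Fin (M + 2) → ℕ) (i : Fin (M + 2)) (l : ℕ) : Prop :=
  (i = Fin.last (M + 1) ∧ l + 1 = a (Fin.last (M + 1))) ∨
    (i = (Fin.last M).castSucc ∧ l = a i + 1 ∧ a (Fin.last (M + 1)) = 2)

open Classical in
/-- principal logarithms except for the folded edges -/
noncomputable def logQ (a : Fin (M + 2) → ℕ) (p : Fin (M + 2) → ℂ) (q : Fin (M + 2) → ℕ → ℂ)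
    (i : Fin (M + 2)) (l : ℕ) : ℂ :=
  Complex.log (q i l) +
    (if i = 0 ∧ l = 1 then Complex.log (p 0) - Complex.log (Complex.I * p 0) else 0) +
    (if Fold2 a i l then Complex.log (p (Fin.last (M + 1))) -
      Complex.log (q (Fin.last (M + 1)) (a (Fin.last (M + 1)) - 1)) else 0)

lemma ca_last_ne_zero : Fin.last (M + 1) ≠ 0 := by
  intro h
  have := congrArg Fin.val h
  simp at this

lemma ca_castSucc_ne_last (j : Fin (M + 1)) : j.castSucc ≠ Fin.last (M + 1) := by
  intro h
  have := congrArg Fin.val h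
  simp at this
  omega

lemma ca_succ_ne (j : Fin (M + 1)) : j.succ ≠ 0 := Fin.succ_ne_zero j

lemma logQ_log {i : Fin (M + 2)} {l : ℕ} (h1 : ¬ (i = 0 ∧ l = 1)) (h2 : ¬ Fold2 a i l) :
    logQ a p q i l = Complex.log (q i l) := by
  unfold logQ
  rw [if_neg h1, if_neg h2, add_zero, add_zero]

/-- the values at the edges of the path do not vanish -/
lemma SWPos.ne (hpos : SWPos a p q) {i : Fin (M + 2)} {l : ℕ} (hl : l ∈ lays a i) :
    p i ≠ 0 ∧ q i l ≠ 0 := by
  have h := hpos i l hl
  unfold swShape at h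
  constructor
  · intro h0
    rw [h0] at h
    split_ifs at h <;> simp at h
  · intro h0
    rw [h0] at h
    split_ifs at h <;> simp at h

lemma ca_top_mem (ha : ∀ i, 1 ≤ a i) (h0 : 2 ≤ a 0) (j : Fin (M + 1)) :
    a j.castSucc ∈ lays a j.castSucc := by
  unfold lays
  rw [mem_Icc, if_neg (ca_castSucc_ne_last j)]
  refine ⟨?_, le_rfl⟩
  split_ifs with h
  · rw [h]
    exact h0
  · exact ha _

lemma ca_p_ne (ha : ∀ i, 1 ≤ a i) (h0 : 2 ≤ a 0) (hM : Markoff a p q) (hpos : SWPos a p q)
    (i : Fin (M + 2)) : p i ≠ 0 := by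
  refine Fin.cases ?_ (fun j => ?_) i
  · have := hpos.ne (ca_top_mem ha h0 0)
    exact this.1
  · rw [(hM.turn j).1]
    exact (hpos.ne (ca_top_mem ha h0 j)).2

theorem swLog_alt (ha : ∀ i, 1 ≤ a i) (h0 : 2 ≤ a 0) (hl : 2 ≤ a (Fin.last (M + 1)))
    (hM : Markoff a p q) (hpos : SWPos a p q) :
    SWLog a p q (fun i => Complex.log (p i)) (logQ a p q) := by
  have hz := ca_last_ne_zero (M := M)
  refine ⟨fun i => Complex.exp_log (ca_p_ne ha h0 hM hpos i), fun i l hil => ?_, fun j => ⟨?_, ?_, ?_⟩, ?_, ?_⟩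
  · rw [logQ_log, Complex.exp_log (hpos.ne hil).2]
    · rintro ⟨rfl, rfl⟩
      unfold lays at hil
      rw [mem_Icc, if_pos rfl] at hil
      omega
    · unfold lays at hil
      rw [mem_Icc] at hil
      rintro (⟨rfl, h1⟩ | ⟨rfl, h1, h2⟩)
      · rw [if_pos rfl] at hil
        omega
      · rw [if_neg (ca_castSucc_ne_last _)] at hil
        omega
  · rw [logQ_log, (hM.turn j).1]
    · rintro ⟨h1, h2⟩
      rw [h1] at h2
      omega
    · rintro (⟨h1, h2⟩ | ⟨h1, h2, h3⟩)
      · exact ca_castSucc_ne_last _ h1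
      · omega
  · rw [logQ_log, (hM.turn j).2.1]
    · rintro ⟨h1, h2⟩
      omega
    · rintro (⟨h1, h2⟩ | ⟨h1, h2, h3⟩) <;> omega
  · have c1 : ¬ (j.succ = 0 ∧ 1 = 1) := fun h => ca_succ_ne j h.1
    have c2 : ¬ (j.castSucc = 0 ∧ a j.castSucc + 1 = 1) := by
      rintro ⟨h1, h2⟩
      rw [h1] at h2
      omega
    have hiff : Fold2 a j.succ 1 ↔ Fold2 a j.castSucc (a j.castSucc + 1) := by
      constructor
      · rintro (⟨h1, h2⟩ | ⟨h1, h2, h3⟩)
        · right
          have : j = Fin.last M := by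
            apply Fin.ext
            have := congrArg Fin.val h1
            simpa using this
          subst this
          exact ⟨rfl, rfl, by omega⟩
        · have := ha j.succ
          omega
      · rintro (⟨h1, h2⟩ | ⟨h1, h2, h3⟩)
        · exact absurd h1 (ca_castSucc_ne_last _)
        · left
          have : j = Fin.last M := Fin.castSucc_injective _ h1
          subst this
          exact ⟨rfl, by omega⟩
    unfold logQ
    rw [(hM.turn j).2.2, if_neg c1, if_neg c2]
    by_cases h : Fold2 a j.succ 1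
    · rw [if_pos h, if_pos (hiff.mp h)]
    · rw [if_neg h, if_neg (fun h' => h (hiff.mpr h'))]
  · unfold logQ
    rw [if_pos ⟨rfl, rfl⟩, if_neg, hM.first.2]
    · ring
    · rintro (⟨h1, h2⟩ | ⟨h1, h2, h3⟩)
      · exact hz h1.symm
      · omega
  · have c3 : Fold2 a (Fin.last (M + 1)) (a (Fin.last (M + 1)) - 1) := Or.inl ⟨rfl, by omega⟩
    unfold logQ
    rw [if_neg (fun h => hz h.1), if_pos c3]
    ring

/-- Neumann's function is affine in `w1` -/
lemma RN_w1 (z w0 w1 w1' : ℂ) : 2 * RN z w0 w1 = 2 * RN z w0 w1' + (w1 - w1') * Complex.log z := by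
  unfold RN
  ring

/-- the special layer at the end -/
def ca_last2 (a : Fin (M + 2) → ℕ) : (_ : Fin (M + 2)) × ℕ :=
  if a (Fin.last (M + 1)) = 2 then ⟨(Fin.last M).castSucc, a (Fin.last M).castSucc⟩
  else ⟨Fin.last (M + 1), a (Fin.last (M + 1)) - 2⟩

lemma ca_last2_mem (ha : ∀ i, 1 ≤ a i) (h0 : 2 ≤ a 0) (hl : 2 ≤ a (Fin.last (M + 1))) :
    ca_last2 a ∈ univ.sigma (lays a) := by
  unfold ca_last2
  rw [mem_sigma]
  refine ⟨mem_univ _, ?_⟩
  split_ifs with h
  · exact ca_top_mem ha h0 (Fin.last M)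
  · show a (Fin.last (M + 1)) - 2 ∈ lays a (Fin.last (M + 1))
    unfold lays
    rw [mem_Icc, if_neg ca_last_ne_zero, if_pos rfl]
    omega

lemma ca_first_mem (h0 : 2 ≤ a 0) : (⟨0, 2⟩ : (_ : Fin (M + 2)) × ℕ) ∈ univ.sigma (lays a) := by
  rw [mem_sigma]
  refine ⟨mem_univ _, ?_⟩
  show 2 ∈ lays a 0
  unfold lays
  rw [mem_Icc, if_pos rfl, if_neg ca_last_ne_zero.symm]
  exact ⟨le_rfl, h0⟩

open Classical in
/-- a layer with the logarithms `logQ` and with principal logarithms -/
lemma ca_layer_eq (hl : 2 ≤ a (Fin.last (M + 1))) (hp0 : p (Fin.last (M + 1)) ≠ 0)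
    (hM : Markoff a p q) (hpos : SWPos a p q) {i : Fin (M + 2)} {l : ℕ} (hil : l ∈ lays a i) :
    2 * RN (swShape p q i l) (swW0 (fun i => Complex.log (p i)) (logQ a p q) i l)
      (swW1 (fun i => Complex.log (p i)) (logQ a p q) i l) =
    2 * RN (swShape p q i l)
      (swW0 (fun i => Complex.log (p i)) (fun i l => Complex.log (q i l)) i l)
      (swW1 (fun i => Complex.log (p i)) (fun i l => Complex.log (q i l)) i l) +
    (if (⟨i, l⟩ : (_ : Fin (M + 2)) × ℕ) = ⟨0, 2⟩ then
      (Complex.log (Complex.I * p 0) - Complex.log (p 0)) * Complex.log (p 0 ^ 2) else 0) +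
    (if (⟨i, l⟩ : (_ : Fin (M + 2)) × ℕ) = ca_last2 a then
      (Complex.log (q (Fin.last (M + 1)) (a (Fin.last (M + 1)) - 1)) -
        Complex.log (p (Fin.last (M + 1)))) * Complex.log (if Even (M + 1) then
          p (Fin.last (M + 1)) ^ 2 else (p (Fin.last (M + 1)) ^ 2)⁻¹) else 0) := by
  have hz := ca_last_ne_zero (M := M)
  have hb := hil
  unfold lays at hb
  rw [mem_Icc] at hb
  have hl1 : 1 ≤ l := by
    split_ifs at hb <;> omega
  -- the middle value
  have hmid : logQ a p q i l = Complex.log (q i l) := by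
    apply logQ_log
    · rintro ⟨rfl, rfl⟩
      rw [if_pos rfl] at hb
      omega
    · rintro (⟨rfl, h1⟩ | ⟨rfl, h1, h2⟩)
      · rw [if_pos rfl] at hb
        omega
      · rw [if_neg (ca_castSucc_ne_last _)] at hb
        omega
  have h1a : (⟨i, l⟩ : (_ : Fin (M + 2)) × ℕ) = ⟨0, 2⟩ ↔ i = 0 ∧ l - 1 = 1 := by
    constructor
    · intro h
      injection h with h1 h2
      exact ⟨h1, by omega⟩
    · rintro ⟨rfl, h⟩
      rw [show l = 2 by omega]
  have h1b : ¬ (i = 0 ∧ l + 1 = 1) := by omega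
  have h2a : ¬ Fold2 a i (l - 1) := by
    rintro (⟨rfl, h1⟩ | ⟨rfl, h1, h2⟩)
    · rw [if_pos rfl] at hb
      omega
    · rw [if_neg (ca_castSucc_ne_last _)] at hb
      omega
  have h2b : (⟨i, l⟩ : (_ : Fin (M + 2)) × ℕ) = ca_last2 a ↔ Fold2 a i (l + 1) := by
    unfold ca_last2 Fold2
    split_ifs with h
    · constructor
      · intro h'
        injection h' with h1 h2
        right
        subst h1
        exact ⟨rfl, by omega, h⟩
      · rintro (⟨rfl, h1⟩ | ⟨rfl, h1, h2⟩)
        · omega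
        · rw [show l = a (Fin.last M).castSucc by omega]
    · constructor
      · intro h'
        injection h' with h1 h2
        left
        subst h1
        exact ⟨rfl, by omega⟩
      · rintro (⟨rfl, h1⟩ | ⟨rfl, h1, h2⟩)
        · rw [show l = a (Fin.last (M + 1)) - 2 by omega]
        · exact absurd h2 h
  have e0 : swW0 (fun i => Complex.log (p i)) (logQ a p q) i l =
      swW0 (fun i => Complex.log (p i)) (fun i l => Complex.log (q i l)) i l := by
    unfold swW0
    rw [hmid]
  have e1 : swW1 (fun i => Complex.log (p i)) (logQ a p q) i l -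
      swW1 (fun i => Complex.log (p i)) (fun i l => Complex.log (q i l)) i l =
      (if i = 0 ∧ l - 1 = 1 then Complex.log (Complex.I * p 0) - Complex.log (p 0) else 0) +
      (if Fold2 a i (l + 1) then Complex.log (q (Fin.last (M + 1)) (a (Fin.last (M + 1)) - 1)) -
        Complex.log (p (Fin.last (M + 1))) else 0) := by
    unfold swW1
    rw [hmid]
    unfold logQ
    rw [if_neg h1b, if_neg h2a]
    split_ifs <;> ring
  rw [RN_w1 _ _ _ (swW1 (fun i => Complex.log (p i)) (fun i l => Complex.log (q i l)) i l), e0, e1]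
  simp only [h1a, h2b]
  rw [add_assoc]
  congr 1
  rw [add_mul, ite_mul, ite_mul]
  congr 1
  · split_ifs with h
    · obtain ⟨rfl, h⟩ := h
      have : l = 2 := by omega
      subst this
      congr 2
      unfold swShape
      rw [if_pos (by simp)]
      have hf := hM.fan 0 0
      rw [zero_add, zero_add, hM.first.1, hM.first.2, add_zero] at hf
      have hp := (hpos.ne hil).1
      rw [hf]
      field_simp
      linear_combination (-1 : ℂ) * Complex.I_sq
    · exact zero_mul _
  · by_cases h : Fold2 a i (l + 1)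
    · rw [if_pos h, if_pos h]
      congr 2
      obtain ⟨f1, f2⟩ := hM.end_eq hl
      have hpl : p (Fin.last (M + 1)) ≠ 0 := hp0
      have hql : q (Fin.last (M + 1)) (a (Fin.last (M + 1)) - 1) ≠ 0 := by
        intro h0
        rw [h0] at f2
        have : p (Fin.last (M + 1)) ^ 2 = 0 := by linear_combination f2
        exact hpl (pow_eq_zero_iff two_ne_zero |>.mp this)
      have g1 : -(q (Fin.last (M + 1)) (a (Fin.last (M + 1)) - 2) / p (Fin.last (M + 1))) ^ 2 =
          p (Fin.last (M + 1)) ^ 2 := by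
        rw [f1]
        field_simp
        linear_combination -f2
      have g2 : -(p (Fin.last (M + 1)) / q (Fin.last (M + 1)) (a (Fin.last (M + 1)) - 2)) ^ 2 =
          (p (Fin.last (M + 1)) ^ 2)⁻¹ := by
        rw [← g1, inv_neg, ← inv_pow, inv_div]
      rcases h with ⟨rfl, h1⟩ | ⟨rfl, h1, h2⟩
      · rw [show l = a (Fin.last (M + 1)) - 2 by omega]
        unfold swShape
        rw [Fin.val_last]
        split_ifs
        · exact g1
        · exact g2
      · have hl' : l = a (Fin.last M).castSucc := by omega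
        subst hl'
        have ht := hM.turn (Fin.last M)
        have e : (Fin.last M).succ = Fin.last (M + 1) := rfl
        rw [e] at ht
        rw [h2, Nat.sub_self, ht.2.1] at g1 g2
        unfold swShape
        rw [Fin.val_castSucc, Fin.val_last, ← ht.1]
        by_cases hM2 : Even M
        · rw [if_pos hM2, if_neg (by rw [Nat.even_add_one]; simpa using hM2)]
          exact g2
        · rw [if_neg hM2, if_pos (by rw [Nat.even_add_one]; exact hM2)]
          exact g1
    · rw [if_neg h, if_neg h, zero_mul]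

/-- the layers of the signed word -/
lemma RL_LK (ha : ∀ i, 1 ≤ a i) (hM : Markoff a p q) (i : Fin (M + 2)) (l : ℕ) :
    RL (LK (xt 1 (altf (M := M + 1) a)) (p 0) i l) = RN (swShape p q i l)
      (swW0 (fun i => Complex.log (p i)) (fun i l => Complex.log (q i l)) i l)
      (swW1 (fun i => Complex.log (p i)) (fun i l => Complex.log (q i l)) i l) := by
  have h := hM.St_eq ha i i.2
  have hf := ca_fan_eq (hM.fan i)
  have h3 := altf_pos_iff a ha i
  unfold RL LK lay swShape swW0 swW1 zL
  rw [xt_eq, h]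
  simp only
  rw [show (⟨(i : ℕ), i.2⟩ : Fin (M + 2)) = i from rfl, ← hf, ← hf, ← hf]
  by_cases h5 : Even (i : ℕ)
  · simp only [if_pos h5, if_pos (h3.mpr h5)]
  · simp only [if_neg h5, if_neg (fun h => h5 (h3.mp h))]

/-- There are logarithms with which the formula is the one of the signed word. -/
theorem swCV_alt (ha : ∀ i, 1 ≤ a i) (h0 : 2 ≤ a 0) (hl : 2 ≤ a (Fin.last (M + 1)))
    (hM : Markoff a p q) (hpos : SWPos a p q) : ∃ P Q, SWLog a p q P Q ∧
      Ci (swCV a p q P Q) (cvL (p 0) (List.ofFn (altf (M := M + 1) a))) := by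
  classical
  refine ⟨fun i => Complex.log (p i), logQ a p q, swLog_alt ha h0 hl hM hpos, ?_⟩
  have hp0 := ca_p_ne ha h0 hM hpos (Fin.last (M + 1))
  set b := xt 1 (altf (M := M + 1) a) with hb
  have hbn : ∀ i : Fin (M + 2), (b i).natAbs = a i := fun i => by rw [hb, xt_eq, altf_natAbs]
  have hbo : ∀ j, j < M + 1 → b j * b (j + 1) < 0 := by
    intro j hj
    rw [hb, xt_of _ _ (by omega : j < M + 2), xt_of _ _ (by omega : j + 1 < M + 2)]
    exact altf_opp a ha ⟨j, hj⟩
  have hb0 : ∀ j, j ≤ M + 1 → b j ≠ 0 := by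
    intro j hj h
    have := hbn ⟨j, by omega⟩
    have h3 := ha ⟨j, by omega⟩
    simp only at this
    rw [h] at this
    simp at this
    omega
  have hbl : (b (M + 1)).natAbs = a (Fin.last (M + 1)) := hbn (Fin.last (M + 1))
  -- the sum over the layers
  have hS : ∑ i, ∑ l ∈ lays a i, 2 * RN (swShape p q i l)
      (swW0 (fun i => Complex.log (p i)) (logQ a p q) i l)
      (swW1 (fun i => Complex.log (p i)) (logQ a p q) i l) =
      rsum (LS' b (p 0) 2 0 (M + 1)) +
      (Complex.log (Complex.I * p 0) - Complex.log (p 0)) * Complex.log (p 0 ^ 2) +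
      (Complex.log (q (Fin.last (M + 1)) (a (Fin.last (M + 1)) - 1)) -
        Complex.log (p (Fin.last (M + 1)))) * Complex.log (if Even (M + 1) then
          p (Fin.last (M + 1)) ^ 2 else (p (Fin.last (M + 1)) ^ 2)⁻¹) := by
    have h3 := sum_LSg (b := b) (y := p 0) (fun x => 2 * RL x) (M + 1) 0 2
      (fun j _ hj => hbo j (by omega)) (fun j _ hj => hb0 j (by omega)) (by
        have := hbn 0
        rw [Fin.val_zero] at this
        omega) (by
        rw [zero_add]
        omega)
    have h4 : rsum (LS' b (p 0) 2 0 (M + 1)) = ∑ i : Fin (M + 2), ∑ l ∈ lays a i, 2 *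
        RN (swShape p q i l)
      (swW0 (fun i => Complex.log (p i)) (fun i l => Complex.log (q i l)) i l)
      (swW1 (fun i => Complex.log (p i)) (fun i l => Complex.log (q i l)) i l) := by
      unfold rsum
      rw [h3, sum_range]
      refine sum_congr rfl fun i _ => ?_
      rw [ite_zero, ite_last, zero_add, hbn]
      refine sum_congr rfl fun l _ => ?_
      rw [RL_LK ha hM i l]
    have h5 := sum_sigma univ (lays a) (fun x : (_ : Fin (M + 2)) × ℕ => if x = ⟨0, 2⟩ then
      (Complex.log (Complex.I * p 0) - Complex.log (p 0)) * Complex.log (p 0 ^ 2) else 0)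
    rw [sum_ite_eq' _ _ _, if_pos (ca_first_mem h0)] at h5
    have h6 := sum_sigma univ (lays a) (fun x : (_ : Fin (M + 2)) × ℕ => if x = ca_last2 a then
      (Complex.log (q (Fin.last (M + 1)) (a (Fin.last (M + 1)) - 1)) -
        Complex.log (p (Fin.last (M + 1)))) * Complex.log (if Even (M + 1) then
          p (Fin.last (M + 1)) ^ 2 else (p (Fin.last (M + 1)) ^ 2)⁻¹) else 0)
    rw [sum_ite_eq' _ _ _, if_pos (ca_last2_mem ha h0 hl)] at h6
    rw [h4, h5, h6, ← sum_add_distrib, ← sum_add_distrib]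
    refine sum_congr rfl fun i _ => ?_
    rw [← sum_add_distrib, ← sum_add_distrib]
    exact sum_congr rfl fun l hil => ca_layer_eq hl hp0 hM hpos hil
  have hF := fpe_St (b := b) (y := p 0) (M + 1) 0
  have hK := kapL_dig (b := b) (M + 1) 0 (fun j _ hj => hbo j (by omega))
  have hL := ca_lst_dig (b := b) (M + 1) 0
  rw [zero_add] at hF hL
  have hSt := hM.St_eq ha (M + 1) (by omega)
  have hFk := hM.Fk_eq ha (Fin.last (M + 1)) (a (Fin.last (M + 1)) - 1)
  rw [Fin.val_last] at hFk
  rw [← hb] at hSt hFk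
  rw [hbl, hFk, hSt] at hF
  have hF' : fpe (p 0) 0 (Complex.I * p 0) (dig b 0 (M + 1)) =
      (p (Fin.last (M + 1)), q (Fin.last (M + 1)) (a (Fin.last (M + 1)) - 1)) := hF
  have hpos' : 0 < b (M + 1) ↔ Even (M + 1) := by
    rw [hb, xt_of _ _ (by omega : M + 1 < M + 2)]
    exact altf_pos_iff a ha (Fin.last (M + 1))
  have hKs : (kapL (dig b 0 (M + 1)) : ℂ) = -∑ i : Fin (M + 2), (-1) ^ (i : ℕ) * (a i : ℂ) := by
    rw [hK, sum_range]
    push_cast
    congr 1
    refine sum_congr rfl fun i _ => ?_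
    rw [zero_add, hb, xt_eq]
    unfold altf
    push_cast
    rfl
  have hE : Even (M + 1) ↔ ¬ Even M := Nat.even_add_one
  unfold swCV cvL cend swK
  rw [ofFn_dig, ← hb, hF', hS, hL, hKs]
  have hR : rsum (LS' b (p 0) 2 0 (M + 1)) = rsum (Lys 2 (p 0) 0 (Complex.I * p 0) (dig b 0 (M + 1))) := rfl
  rw [hR]
  simp only [hpos', hE]
  by_cases hm : Even M
  · simp only [hm, not_true_eq_false, if_false, if_true]
    refine ⟨-1, ?_⟩
    push_cast
    ring
  · simp only [hm, not_false_eq_true, if_false, if_true]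
    refine ⟨-1, ?_⟩
    push_cast
    ring

end Pool.Agent.Work.MP_b30479_gt.G2
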