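import Pool.Agent.Work.MP_b30479_gt.G2.XRogA

/-!
# The extended Rogers dilogarithm modulo `2π²`

`rl α β` for `e^α + e^β = 1`: `z = e^α`, `α` and `β` are arbitrary logarithms of `z` and `1 - z`.
`d rl = (α dβ - β dα) / 2`.

With `a = α - Log z`, `b = β - Log (1 - z)` in `2πiℤ`:
`rl = li2 z + Log z Log (1-z) / 2 - π²/6 + (a Log (1-z) - b Log z) / 2`.  Derivative: for
`z ∉ [0,∞)` replace `Log z` by the logarithm with imaginary part in `(0, 2π)` (the difference is
`2π² n`), for `z ∈ (0,1)` directly, for `z > 1` by `rl_symm` (Euler's reflection).  Inversion: for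
`z ∉ [0,∞)` from `li2_ee`, then by continuity.
-/

namespace Pool.Agent.Work.MP_b30479_gt.G2

open Filter Topology
open Pool.Agent.Work.MP_b30479_gt.LT (li2)

/-- the extended Rogers dilogarithm -/
noncomputable def rl (α β : ℂ) : ℂ :=
  li2 (Complex.exp α) + (α * Complex.log (1 - Complex.exp α) - β * Complex.log (Complex.exp α) +
    Complex.log (Complex.exp α) * Complex.log (1 - Complex.exp α)) / 2 - Real.pi ^ 2 / 6

/-- congruence modulo `2π²` -/
def Cg (x y : ℂ) : Prop := ∃ k : ℤ, x - y = 2 * Real.pi ^ 2 * k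

lemma Cg.refl (x : ℂ) : Cg x x := ⟨0, by simp⟩

lemma Cg.symm {x y : ℂ} (h : Cg x y) : Cg y x := by
  obtain ⟨k, hk⟩ := h
  exact ⟨-k, by push_cast; linear_combination -hk⟩

lemma Cg.trans {x y z : ℂ} (h : Cg x y) (h' : Cg y z) : Cg x z := by
  obtain ⟨k, hk⟩ := h
  obtain ⟨l, hl⟩ := h'
  exact ⟨k + l, by push_cast; linear_combination hk + hl⟩

lemma Cg.add {x y x' y' : ℂ} (h : Cg x y) (h' : Cg x' y') : Cg (x + x') (y + y') := by
  obtain ⟨k, hk⟩ := h
  obtain ⟨l, hl⟩ := h'
  exact ⟨k + l, by push_cast; linear_combination hk + hl⟩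

lemma Cg.neg {x y : ℂ} (h : Cg x y) : Cg (-x) (-y) := by
  obtain ⟨k, hk⟩ := h
  exact ⟨-k, by push_cast; linear_combination -hk⟩

lemma Cg.of_eq {x y : ℂ} (h : x = y) : Cg x y := ⟨0, by simp [h]⟩

private lemma pi_ne : (Real.pi : ℂ) ≠ 0 := by exact_mod_cast Real.pi_ne_zero

lemma cg_iff {x y : ℂ} : Cg x y ↔ Complex.exp (Complex.I / Real.pi * (x - y)) = 1 := by
  have hp := pi_ne
  have hI := Complex.I_ne_zero
  rw [Complex.exp_eq_one_iff]
  constructor
  · rintro ⟨k, hk⟩
    refine ⟨k, ?_⟩
    rw [hk]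
    field_simp
  · rintro ⟨k, hk⟩
    refine ⟨k, ?_⟩
    have h2 : x - y = (k * (2 * Real.pi * Complex.I)) * (Real.pi / Complex.I) := by
      rw [← hk]
      field_simp
    rw [h2]
    field_simp

lemma Cg.exp_eq {x y : ℂ} (h : Cg x y) :
    Complex.exp (Complex.I / Real.pi * x) = Complex.exp (Complex.I / Real.pi * y) := by
  have h1 := cg_iff.1 h
  have h2 : Complex.I / Real.pi * x = Complex.I / Real.pi * (x - y) + Complex.I / Real.pi * y := by
    ring
  rw [h2, Complex.exp_add, h1, one_mul]

variable {α β : ℂ}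

/-- the integers of a pair of logarithms -/
private lemma exists_ints (h : Complex.exp α + Complex.exp β = 1) : ∃ m n : ℤ,
    α = Complex.log (Complex.exp α) + 2 * Real.pi * Complex.I * m ∧
    β = Complex.log (1 - Complex.exp α) + 2 * Real.pi * Complex.I * n := by
  have h0 : Complex.exp (Complex.log (Complex.exp α)) = Complex.exp α :=
    Complex.exp_log (Complex.exp_ne_zero _)
  have h1 : 1 - Complex.exp α = Complex.exp β := by linear_combination -h
  have h2 : Complex.exp (Complex.log (1 - Complex.exp α)) = Complex.exp β := by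
    rw [h1]
    exact Complex.exp_log (Complex.exp_ne_zero _)
  obtain ⟨m, hm⟩ := Complex.exp_eq_exp_iff_exists_int.1 h0.symm
  obtain ⟨n, hn⟩ := Complex.exp_eq_exp_iff_exists_int.1 h2.symm
  exact ⟨m, n, by linear_combination hm, by linear_combination hn⟩

theorem rl_shift (h : Complex.exp α + Complex.exp β = 1) (m n : ℤ) :
    Cg (rl (α + 2 * Real.pi * Complex.I * m) (β + 2 * Real.pi * Complex.I * n))
      (rl α β + Real.pi * Complex.I * (m * β - n * α)) := by
  obtain ⟨p, q, hp, hq⟩ := exists_ints h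
  have he : Complex.exp (α + 2 * Real.pi * Complex.I * m) = Complex.exp α := by
    rw [show α + 2 * Real.pi * Complex.I * m = α + m * (2 * Real.pi * Complex.I) by ring,
      Complex.exp_add, Complex.exp_int_mul_two_pi_mul_I, mul_one]
  refine ⟨m * q - n * p, ?_⟩
  unfold rl
  rw [he]
  set L0 := Complex.log (Complex.exp α)
  set L1 := Complex.log (1 - Complex.exp α)
  rw [hp, hq]
  push_cast
  have hI := Complex.I_sq
  linear_combination (2 * (Real.pi : ℂ) ^ 2 * (n * p - m * q)) * hI

theorem rl_symm (h : Complex.exp α + Complex.exp β = 1) :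
    Cg (rl β α) (-rl α β - Real.pi ^ 2 / 6) := by
  apply Cg.of_eq
  have h1 : Complex.exp β = 1 - Complex.exp α := by linear_combination h
  have h0 : Complex.exp α ≠ 0 := Complex.exp_ne_zero _
  have h2 : Complex.exp α ≠ 1 := by
    intro h3
    have : Complex.exp β = 0 := by rw [h1, h3]; ring
    exact Complex.exp_ne_zero _ this
  have key := XR.li2_refl h0 h2
  unfold rl
  rw [h1, sub_sub_cancel]
  linear_combination key

/-! ### derivative -/

private lemma ints_const {u v : ℝ → ℂ} {t : ℝ} (hu : ContinuousAt u t) (hv : ContinuousAt v t)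
    (h : ∀ᶠ s in 𝓝 t, ∃ m : ℤ, u s = v s + 2 * Real.pi * Complex.I * m) :
    ∃ m : ℤ, ∀ᶠ s in 𝓝 t, u s = v s + 2 * Real.pi * Complex.I * m := by
  have hp := Real.pi_pos
  obtain ⟨m, hm⟩ := h.self_of_nhds
  refine ⟨m, ?_⟩
  have hc : ContinuousAt (fun s => u s - v s) t := hu.sub hv
  have h1 : ∀ᶠ s in 𝓝 t, ‖(u s - v s) - (u t - v t)‖ < 1 := by
    have := hc.eventually (Metric.ball_mem_nhds (u t - v t) one_pos)
    filter_upwards [this] with s hs
    rwa [dist_eq_norm] at hs
  filter_upwards [h, h1] with s hs1 hs2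
  obtain ⟨k, hk⟩ := hs1
  have h3 : (u s - v s) - (u t - v t) = ((2 * Real.pi * (k - m) : ℝ) : ℂ) * Complex.I := by
    rw [hk, hm]
    push_cast
    ring
  rw [h3, norm_mul, Complex.norm_I, mul_one, Complex.norm_real, Real.norm_eq_abs, abs_mul,
    abs_of_pos (by positivity : 0 < 2 * Real.pi)] at hs2
  have h4 : |((k : ℝ) - m)| < 1 := by
    have h5 : (1 : ℝ) ≤ 2 * Real.pi := by linarith only [hp, Real.pi_gt_three]
    have h6 := abs_nonneg ((k : ℝ) - m)
    nlinarith only [hs2, h5, hp]
  have h7 : k = m := by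
    have h8 : |k - m| < 1 := by exact_mod_cast h4
    have h9 := abs_lt.1 h8
    omega
  rw [hk, h7]

/-- the common part of the derivative -/
private lemma deriv_core {f g l0 l1 : ℝ → ℂ} {f' g' : ℂ} {t : ℝ} (hf : HasDerivAt f f' t)
    (hg : HasDerivAt g g' t) (h1 : 1 - Complex.exp (f t) ∈ Complex.slitPlane)
    (h0' : HasDerivAt l0 f' t) (h1' : HasDerivAt l1 g' t)
    (hl1 : l1 t = Complex.log (1 - Complex.exp (f t))) {m n : ℤ}
    (hm : ∀ᶠ s in 𝓝 t, f s = l0 s + 2 * Real.pi * Complex.I * m)
    (hn : ∀ᶠ s in 𝓝 t, g s = l1 s + 2 * Real.pi * Complex.I * n)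
    (hr : ∀ᶠ s in 𝓝 t, Cg (rl (f s) (g s)) (li2 (Complex.exp (f s)) + (l0 s * l1 s +
      2 * Real.pi * Complex.I * m * l1 s - 2 * Real.pi * Complex.I * n * l0 s) / 2 -
        Real.pi ^ 2 / 6)) :
    HasDerivAt (fun s => Complex.exp (Complex.I / Real.pi * rl (f s) (g s)))
      (Complex.exp (Complex.I / Real.pi * rl (f t) (g t)) *
        (Complex.I / Real.pi * ((f t * g' - g t * f') / 2))) t := by
  have d1 : HasDerivAt (fun s => li2 (Complex.exp (f s)))
      (-Complex.log (1 - Complex.exp (f t)) / Complex.exp (f t) * (Complex.exp (f t) * f')) t :=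
    (XR.hasDerivAt_li2 h1 (Complex.exp_ne_zero _)).comp_of_eq t hf.cexp rfl
  have d2 := ((d1.add ((((h0'.mul h1').add (h1'.const_mul (2 * Real.pi * Complex.I * m))).sub
    (h0'.const_mul (2 * Real.pi * Complex.I * n))).div_const 2)).sub_const
      ((Real.pi : ℂ) ^ 2 / 6)).const_mul (Complex.I / Real.pi)
  have d3 := d2.cexp
  have e0 : (fun s => Complex.exp (Complex.I / Real.pi * rl (f s) (g s))) =ᶠ[𝓝 t] fun s =>
      Complex.exp (Complex.I / Real.pi * (li2 (Complex.exp (f s)) + (l0 s * l1 s +
      2 * Real.pi * Complex.I * m * l1 s - 2 * Real.pi * Complex.I * n * l0 s) / 2 -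
        Real.pi ^ 2 / 6)) := by
    filter_upwards [hr] with s hs
    exact hs.exp_eq
  refine (d3.congr_of_eventuallyEq e0).congr_deriv ?_
  rw [hr.self_of_nhds.exp_eq]
  have hft := hm.self_of_nhds
  have hgt := hn.self_of_nhds
  have he := Complex.exp_ne_zero (f t)
  simp only [Pi.add_apply, Pi.sub_apply, Pi.mul_apply]
  congr 1
  rw [← hl1]
  have e1 : -l1 t / Complex.exp (f t) * (Complex.exp (f t) * f') = -l1 t * f' := by
    field_simp
  rw [e1, hft, hgt]
  ring

private lemma rl_deriv_slit {f g : ℝ → ℂ} {f' g' : ℂ} {t : ℝ} (hf : HasDerivAt f f' t)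
    (hg : HasDerivAt g g' t) (h : ∀ᶠ s in 𝓝 t, Complex.exp (f s) + Complex.exp (g s) = 1)
    (h1 : 1 - Complex.exp (f t) ∈ Complex.slitPlane) :
    HasDerivAt (fun s => Complex.exp (Complex.I / Real.pi * rl (f s) (g s)))
      (Complex.exp (Complex.I / Real.pi * rl (f t) (g t)) *
        (Complex.I / Real.pi * ((f t * g' - g t * f') / 2))) t := by
  have hI := Complex.I_sq
  -- `l1`
  have dl1 : HasDerivAt (fun s => Complex.log (1 - Complex.exp (f s)))
      (-(Complex.exp (f t) * f') / (1 - Complex.exp (f t))) t :=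
    (hf.cexp.const_sub 1).clog_real h1
  obtain ⟨n, hn⟩ : ∃ n : ℤ, ∀ᶠ s in 𝓝 t, g s = Complex.log (1 - Complex.exp (f s)) +
      2 * Real.pi * Complex.I * n := by
    refine ints_const hg.continuousAt dl1.continuousAt ?_
    filter_upwards [h] with s hs
    obtain ⟨p, q, -, hq⟩ := exists_ints hs
    exact ⟨q, hq⟩
  have dl1' : HasDerivAt (fun s => Complex.log (1 - Complex.exp (f s))) g' t := by
    have e : (fun s => Complex.log (1 - Complex.exp (f s))) =ᶠ[𝓝 t] fun s => g s -
        2 * Real.pi * Complex.I * n := by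
      filter_upwards [hn] with s hs
      rw [hs]
      ring
    exact (hg.sub_const _).congr_of_eventuallyEq e
  by_cases hs : -Complex.exp (f t) ∈ Complex.slitPlane
  · -- off `[0, ∞)`
    have dw : HasDerivAt (fun s => Complex.log (-Complex.exp (f s)))
        (-(Complex.exp (f t) * f') / -Complex.exp (f t)) t := hf.cexp.neg.clog_real hs
    set l0 : ℝ → ℂ := fun s => Real.pi * Complex.I + Complex.log (-Complex.exp (f s)) with hl0
    have hle : ∀ s, Complex.exp (l0 s) = Complex.exp (f s) := by
      intro s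
      rw [hl0]
      simp only
      rw [Complex.exp_add, Complex.exp_pi_mul_I, Complex.exp_log (neg_ne_zero.2
        (Complex.exp_ne_zero _))]
      ring
    obtain ⟨m, hm⟩ : ∃ m : ℤ, ∀ᶠ s in 𝓝 t, f s = l0 s + 2 * Real.pi * Complex.I * m := by
      refine ints_const hf.continuousAt (dw.const_add _).continuousAt ?_
      filter_upwards with s
      obtain ⟨m, hm⟩ := Complex.exp_eq_exp_iff_exists_int.1 (hle s).symm
      exact ⟨m, by rw [hm]; ring⟩
    have dl0 : HasDerivAt l0 f' t := by
      have e : l0 =ᶠ[𝓝 t] fun s => f s - 2 * Real.pi * Complex.I * m := by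
        filter_upwards [hm] with s hs
        rw [hs]
        ring
      exact (hf.sub_const _).congr_of_eventuallyEq e
    refine deriv_core hf hg h1 dl0 dl1' rfl hm hn ?_
    filter_upwards [hm, hn] with s hs1 hs2
    -- the principal logarithm
    obtain ⟨k, hk⟩ : ∃ k : ℤ, l0 s = Complex.log (Complex.exp (f s)) +
        2 * Real.pi * Complex.I * k := by
      have h5 : Complex.exp (l0 s) = Complex.exp (Complex.log (Complex.exp (f s))) := by
        rw [hle, Complex.exp_log (Complex.exp_ne_zero _)]
      obtain ⟨k, hk⟩ := Complex.exp_eq_exp_iff_exists_int.1 h5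
      exact ⟨k, by rw [hk]; ring⟩
    refine ⟨-(n * k), ?_⟩
    unfold rl
    set L0 := Complex.log (Complex.exp (f s))
    set L1 := Complex.log (1 - Complex.exp (f s))
    set Z := li2 (Complex.exp (f s))
    rw [hs1, hs2, hk]
    push_cast
    linear_combination (2 * (Real.pi : ℂ) ^ 2 * n * k) * hI
  · -- `z ∈ (0,1)`
    have hs0 : Complex.exp (f t) ∈ Complex.slitPlane := by
      rw [Complex.mem_slitPlane_iff, not_or, not_lt, not_not, Complex.neg_re, Complex.neg_im] at hs
      rw [Complex.mem_slitPlane_iff]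
      left
      have h2 : 0 ≤ (Complex.exp (f t)).re := by linarith only [hs, hs.1]
      rcases h2.eq_or_lt with h3 | h3
      · exfalso
        apply Complex.exp_ne_zero (f t)
        apply Complex.ext
        · rw [← h3, Complex.zero_re]
        · rw [Complex.zero_im]
          linarith only [hs, hs.2]
      · exact h3
    have dl0 : HasDerivAt (fun s => Complex.log (Complex.exp (f s)))
        (Complex.exp (f t) * f' / Complex.exp (f t)) t := hf.cexp.clog_real hs0
    obtain ⟨m, hm⟩ : ∃ m : ℤ, ∀ᶠ s in 𝓝 t, f s = Complex.log (Complex.exp (f s)) +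
        2 * Real.pi * Complex.I * m := by
      refine ints_const hf.continuousAt dl0.continuousAt ?_
      filter_upwards [h] with s hs
      obtain ⟨p, q, hp, -⟩ := exists_ints hs
      exact ⟨p, hp⟩
    have dl0' : HasDerivAt (fun s => Complex.log (Complex.exp (f s))) f' t := by
      refine dl0.congr_deriv ?_
      have := Complex.exp_ne_zero (f t)
      field_simp
    refine deriv_core hf hg h1 dl0' dl1' rfl hm hn ?_
    filter_upwards [hm, hn] with s hs1 hs2
    apply Cg.of_eq
    unfold rl
    set L0 := Complex.log (Complex.exp (f s))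
    set L1 := Complex.log (1 - Complex.exp (f s))
    set Z := li2 (Complex.exp (f s))
    rw [hs1, hs2]
    ring

/-- the derivative along a curve -/
theorem rl_deriv {f g : ℝ → ℂ} {f' g' : ℂ} {t : ℝ} (hf : HasDerivAt f f' t)
    (hg : HasDerivAt g g' t) (h : ∀ᶠ s in 𝓝 t, Complex.exp (f s) + Complex.exp (g s) = 1) :
    HasDerivAt (fun s => Complex.exp (Complex.I / Real.pi * rl (f s) (g s)))
      (Complex.exp (Complex.I / Real.pi * rl (f t) (g t)) *
        (Complex.I / Real.pi * ((f t * g' - g t * f') / 2))) t := by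
  by_cases h1 : 1 - Complex.exp (f t) ∈ Complex.slitPlane
  · exact rl_deriv_slit hf hg h h1
  · -- `z > 1`
    have ht := h.self_of_nhds
    have e1 : 1 - Complex.exp (g t) = Complex.exp (f t) := by linear_combination -ht
    have h2 : 1 - Complex.exp (g t) ∈ Complex.slitPlane := by
      rw [e1, Complex.mem_slitPlane_iff]
      left
      rw [Complex.mem_slitPlane_iff, not_or, not_lt, Complex.sub_re, Complex.one_re] at h1
      linarith only [h1, h1.1]
    have h' : ∀ᶠ s in 𝓝 t, Complex.exp (g s) + Complex.exp (f s) = 1 := by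
      filter_upwards [h] with s hs
      rw [← hs]
      ring
    have d1 := rl_deriv_slit hg hf h' h2
    have e0 : (fun s => Complex.exp (Complex.I / Real.pi * rl (f s) (g s))) =ᶠ[𝓝 t] fun s =>
        (Complex.exp (Complex.I / Real.pi * rl (g s) (f s)))⁻¹ *
          Complex.exp (Complex.I / Real.pi * (-(Real.pi ^ 2 / 6))) := by
      filter_upwards [h'] with s hs
      rw [(rl_symm hs).exp_eq, ← Complex.exp_neg, ← Complex.exp_add]
      congr 1
      ring
    have d2 := (d1.inv (Complex.exp_ne_zero _)).mul_const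
      (Complex.exp (Complex.I / Real.pi * (-(Real.pi ^ 2 / 6))))
    refine (d2.congr_of_eventuallyEq e0).congr_deriv ?_
    have e2 := e0.self_of_nhds
    simp only at e2
    rw [e2]
    have := Complex.exp_ne_zero (Complex.I / Real.pi * rl (g t) (f t))
    field_simp
    ring

/-! ### inversion -/

/-- the values at the exponentials of the strip -/
theorem rl_ee {w : ℂ} (hw : w ∈ VOL.strip) :
    rl (2 * Real.pi * Complex.I * w) (VOL.ph w + Real.pi * Complex.I * (w - 1 / 2)) =
      -(2 * Real.pi * Complex.I * VOL.Fh w) + Real.pi * Complex.I * w * VOL.ph w -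
        Real.pi ^ 2 * w / 2 := by
  have h1 := LT.log_one_sub_ee hw
  have h2 := LT.li2_ee hw
  have hI := Complex.I_sq
  unfold rl
  unfold LT.ee at h1 h2
  rw [h1, h2]
  linear_combination ((Real.pi : ℂ) ^ 2 * w * (w - 1 / 2)) * hI

/-- the inversion relation -/
private def Inv (α β : ℂ) (s : ℤ) : Prop :=
  Cg (rl (-α) (β - α + Real.pi * Complex.I * s)) (-rl α β + Real.pi * Complex.I * s * α / 2)

private lemma inv_rel (h : Complex.exp α + Complex.exp β = 1) {s : ℤ} (hs : Odd s) :
    Complex.exp (-α) + Complex.exp (β - α + Real.pi * Complex.I * s) = 1 := by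
  have h1 : Complex.exp (Real.pi * Complex.I * s) = -1 := by
    obtain ⟨k, hk⟩ := hs
    rw [show (Real.pi * Complex.I * s : ℂ) = k * (2 * Real.pi * Complex.I) + Real.pi * Complex.I by
      rw [hk]; push_cast; ring, Complex.exp_add, Complex.exp_int_mul_two_pi_mul_I,
      Complex.exp_pi_mul_I]
    ring
  rw [Complex.exp_add, h1, Complex.exp_sub, Complex.exp_neg]
  have h2 := Complex.exp_ne_zero α
  field_simp
  linear_combination -h

private lemma inv_shift (h : Complex.exp α + Complex.exp β = 1) {s : ℤ} (hs : Odd s)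
    (hi : Inv α β s) (m n k : ℤ) :
    Inv (α + 2 * Real.pi * Complex.I * m) (β + 2 * Real.pi * Complex.I * n) (s + 2 * k) := by
  unfold Inv at hi ⊢
  have h1 := rl_shift (inv_rel h hs) (-m) (n - m + k)
  have h2 := rl_shift h m n
  have e1 : -(α + 2 * Real.pi * Complex.I * m) = -α + 2 * Real.pi * Complex.I * ((-m : ℤ) : ℂ) := by
    push_cast
    ring
  have e2 : β + 2 * Real.pi * Complex.I * n - (α + 2 * Real.pi * Complex.I * m) +
      Real.pi * Complex.I * ((s + 2 * k : ℤ) : ℂ) = β - α + Real.pi * Complex.I * s +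
        2 * Real.pi * Complex.I * ((n - m + k : ℤ) : ℂ) := by
    push_cast
    ring
  rw [e1, e2]
  refine h1.trans ?_
  obtain ⟨a, ha⟩ := hi
  obtain ⟨b, hb⟩ := h2
  refine ⟨a + b + m * (s + k), ?_⟩
  push_cast at ha hb ⊢
  have hI := Complex.I_sq
  linear_combination ha + hb - ((Real.pi : ℂ) ^ 2 * m * (2 * s + 2 * k)) * hI

private lemma inv_slit (h : Complex.exp α + Complex.exp β = 1)
    (h0 : -Complex.exp α ∈ Complex.slitPlane) {s : ℤ} (hs : Odd s) : Inv α β s := by
  have hI := Complex.I_sq
  obtain ⟨w, hw⟩ : ∃ w, w = XR.wl (Complex.exp α) := ⟨_, rfl⟩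
  have hm : w ∈ VOL.strip := hw ▸ XR.wl_mem h0
  have he : Complex.exp (2 * Real.pi * Complex.I * w) = Complex.exp α := by
    have := XR.ee_wl h0
    unfold LT.ee at this
    rw [hw, this]
  set B : ℂ := VOL.ph w + Real.pi * Complex.I * (w - 1 / 2) with hB
  have hBe : Complex.exp B = 1 - Complex.exp α := by
    have h1 := LT.one_sub_ee' hm
    unfold LT.ee at h1
    rw [he] at h1
    rw [h1, hB]
    congr 1
    ring
  have h2 : Complex.exp (2 * Real.pi * Complex.I * w) + Complex.exp B = 1 := by
    rw [he, hBe]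
    ring
  -- the base point, `s = 1`
  have hbase : Inv (2 * Real.pi * Complex.I * w) B 1 := by
    unfold Inv
    have hm' := VOL.strip_one_sub hm
    have h3 := rl_ee hm
    have h4 := rl_ee hm'
    have h5 := rl_shift (inv_rel h2 (by decide : Odd (1 : ℤ))) 1 0
    have e1 : -(2 * Real.pi * Complex.I * w) + 2 * Real.pi * Complex.I * ((1 : ℤ) : ℂ) =
        2 * Real.pi * Complex.I * (1 - w) := by
      push_cast
      ring
    have e2 : B - 2 * Real.pi * Complex.I * w + Real.pi * Complex.I * ((1 : ℤ) : ℂ) +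
        2 * Real.pi * Complex.I * ((0 : ℤ) : ℂ) =
        VOL.ph (1 - w) + Real.pi * Complex.I * (1 - w - 1 / 2) := by
      rw [VOL.ph_one_sub, hB]
      push_cast
      ring
    rw [e1, e2, h4] at h5
    obtain ⟨k, hk⟩ := h5
    refine ⟨-k, ?_⟩
    rw [← hB] at h3
    rw [h3]
    rw [VOL.ph_one_sub, VOL.Fh_one_sub, hB] at hk
    push_cast at hk ⊢
    rw [hB]
    linear_combination -hk + (-(Real.pi : ℂ) ^ 2 / 2) * hI
  have h6 : Complex.exp β = Complex.exp B := by
    rw [hBe]
    linear_combination h
  obtain ⟨m, hm1⟩ := Complex.exp_eq_exp_iff_exists_int.1 he.symm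
  obtain ⟨n, hn1⟩ := Complex.exp_eq_exp_iff_exists_int.1 h6
  obtain ⟨k, hk⟩ := hs
  have h7 := inv_shift h2 odd_one hbase m n k
  have e1 : 2 * Real.pi * Complex.I * w + 2 * Real.pi * Complex.I * m = α := by
    rw [hm1]
    ring
  have e2 : B + 2 * Real.pi * Complex.I * n = β := by
    rw [hn1]
    ring
  rw [e1, e2] at h7
  rw [hk, show 2 * k + 1 = 1 + 2 * k by ring]
  exact h7

/-- inversion, for odd `s` -/
theorem rl_inv (h : Complex.exp α + Complex.exp β = 1) {s : ℤ} (hs : Odd s) :
    Cg (rl (-α) (β - α + Real.pi * Complex.I * s)) (-rl α β + Real.pi * Complex.I * s * α / 2) := by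
  by_cases h0 : -Complex.exp α ∈ Complex.slitPlane
  · exact inv_slit h h0 hs
  -- `z > 0`: rotate
  have hx : 0 ≤ (Complex.exp α).re ∧ (Complex.exp α).im = 0 := by
    rw [Complex.mem_slitPlane_iff, not_or, not_lt, not_not] at h0
    simpa using h0
  have hpos : 0 < (Complex.exp α).re := by
    rcases hx.1.eq_or_lt with h3 | h3
    · exfalso
      apply Complex.exp_ne_zero α
      apply Complex.ext
      · rw [← h3, Complex.zero_re]
      · rw [Complex.zero_im]
        exact hx.2
    · exact h3
  have hz1 : 1 - Complex.exp α ≠ 0 := by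
    have : 1 - Complex.exp α = Complex.exp β := by linear_combination -h
    rw [this]
    exact Complex.exp_ne_zero _
  set f : ℝ → ℂ := fun t => α + t * Complex.I with hf
  set q : ℝ → ℂ := fun t => (1 - Complex.exp (f t)) / (1 - Complex.exp α) with hq
  set g : ℝ → ℂ := fun t => β + Complex.log (q t) with hg
  have f0 : f 0 = α := by simp [hf]
  have q0 : q 0 = 1 := by
    rw [hq]
    simp only [f0]
    exact div_self hz1
  have g0 : g 0 = β := by
    rw [hg]
    simp only [q0, Complex.log_one, add_zero]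
  have df : ∀ t, HasDerivAt f Complex.I t := by
    intro t
    have h3 : HasDerivAt (fun t : ℝ => ((t : ℝ) : ℂ)) 1 t := Complex.ofRealCLM.hasDerivAt
    have h4 := (h3.mul_const Complex.I).const_add α
    rwa [one_mul] at h4
  have dq : ∀ t, HasDerivAt q (-(Complex.exp (f t) * Complex.I) / (1 - Complex.exp α)) t := by
    intro t
    exact ((df t).cexp.const_sub 1).div_const _
  have hqs : ∀ᶠ t in 𝓝 (0 : ℝ), q t ∈ Complex.slitPlane := by
    have h4 := (dq 0).continuousAt.eventually (Complex.isOpen_slitPlane.mem_nhds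
      (show q 0 ∈ Complex.slitPlane by rw [q0]; exact Complex.one_mem_slitPlane))
    exact h4
  have dg : HasDerivAt g (-(Complex.exp (f 0) * Complex.I) / (1 - Complex.exp α) / q 0) 0 :=
    ((dq 0).clog_real hqs.self_of_nhds).const_add β
  have hrel : ∀ᶠ t in 𝓝 (0 : ℝ), Complex.exp (f t) + Complex.exp (g t) = 1 := by
    filter_upwards [hqs] with t ht
    have h5 : Complex.exp β = 1 - Complex.exp α := by linear_combination h
    show Complex.exp (f t) + Complex.exp (β + Complex.log (q t)) = 1
    rw [Complex.exp_add β, Complex.exp_log (Complex.slitPlane_ne_zero ht), h5]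
    show Complex.exp (f t) + (1 - Complex.exp α) *
      ((1 - Complex.exp (f t)) / (1 - Complex.exp α)) = 1
    rw [mul_div_cancel₀ _ hz1]
    ring
  have hrel' : ∀ᶠ t in 𝓝 (0 : ℝ), Complex.exp (-f t) +
      Complex.exp (g t - f t + Real.pi * Complex.I * s) = 1 := by
    filter_upwards [hrel] with t ht
    exact inv_rel ht hs
  have d1 := rl_deriv (df 0) dg hrel
  have d2 := rl_deriv (df 0).neg ((dg.sub (df 0)).add_const (Real.pi * Complex.I * s)) hrel'
  have d3 : ContinuousAt (fun t : ℝ => Complex.exp (Complex.I / Real.pi *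
      (-(Real.pi * Complex.I * s * f t / 2)))) 0 := by
    have := (df 0).continuousAt
    fun_prop
  -- the product
  have hQ : ContinuousAt (fun t : ℝ => Complex.exp (Complex.I / Real.pi *
      rl (-f t) (g t - f t + Real.pi * Complex.I * s)) *
        Complex.exp (Complex.I / Real.pi * rl (f t) (g t)) *
        Complex.exp (Complex.I / Real.pi * (-(Real.pi * Complex.I * s * f t / 2)))) 0 :=
    (d2.continuousAt.mul d1.continuousAt).mul d3
  have hone : ∀ᶠ t in 𝓝[>] (0 : ℝ), Complex.exp (Complex.I / Real.pi *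
      rl (-f t) (g t - f t + Real.pi * Complex.I * s)) *
        Complex.exp (Complex.I / Real.pi * rl (f t) (g t)) *
        Complex.exp (Complex.I / Real.pi * (-(Real.pi * Complex.I * s * f t / 2))) = 1 := by
    have h5 := Ioo_mem_nhdsGT (show (0 : ℝ) < 1 by norm_num)
    filter_upwards [hrel.filter_mono nhdsWithin_le_nhds, h5] with t ht ht'
    have h6 : -Complex.exp (f t) ∈ Complex.slitPlane := by
      rw [Complex.mem_slitPlane_iff]
      right
      have h7 : Complex.exp (f t) = ((Complex.exp α).re : ℂ) * Complex.exp (t * Complex.I) := by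
        rw [hf]
        simp only
        rw [Complex.exp_add]
        congr 1
        apply Complex.ext
        · simp
        · simpa using hx.2
      rw [h7, Complex.neg_im, Complex.im_ofReal_mul, Complex.exp_ofReal_mul_I_im]
      have h8 : 0 < Real.sin t := Real.sin_pos_of_pos_of_lt_pi ht'.1
        (by linarith only [ht', ht'.2, Real.pi_gt_three])
      have := mul_pos hpos h8
      exact (neg_neg_of_pos this).ne
    have h9 := cg_iff.1 (inv_slit ht h6 hs)
    rw [← Complex.exp_add, ← Complex.exp_add, ← h9]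
    congr 1
    ring
  have hlim := tendsto_nhds_unique (hQ.tendsto.mono_left nhdsWithin_le_nhds)
    (tendsto_const_nhds.congr' (hone.mono fun t ht => ht.symm))
  rw [cg_iff, ← hlim, f0, g0, ← Complex.exp_add, ← Complex.exp_add]
  congr 1
  ring

/-! ### the limit `z → 1` -/

/-- the limit `z → 1` -/
theorem rl_lim {ι : Type*} {l : Filter ι} {f g : ι → ℂ} (m : ℤ)
    (h : ∀ i, Complex.exp (f i) + Complex.exp (g i) = 1)
    (hf : Tendsto f l (𝓝 (2 * Real.pi * Complex.I * m))) (hg : ∃ C, ∀ i, |(g i).im| ≤ C) :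
    Tendsto (fun i => Complex.exp (Complex.I / Real.pi *
      (rl (f i) (g i) - Real.pi * Complex.I * m * g i))) l (𝓝 1) := by
  have hpi := Real.pi_pos
  have hI := Complex.I_sq
  obtain ⟨C, hC⟩ := hg
  choose M N hM hN using fun i => exists_ints (h i)
  -- `z → 1`
  have hz : Tendsto (fun i => Complex.exp (f i)) l (𝓝[≠] 1) := by
    rw [tendsto_nhdsWithin_iff]
    constructor
    · have h1 := (Complex.continuous_exp.tendsto (2 * Real.pi * Complex.I * m)).comp hf
      have h2 : Complex.exp (2 * Real.pi * Complex.I * m) = 1 := by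
        rw [show (2 * Real.pi * Complex.I * m : ℂ) = m * (2 * Real.pi * Complex.I) by ring]
        exact Complex.exp_int_mul_two_pi_mul_I m
      rw [h2] at h1
      exact h1
    · filter_upwards with i
      intro h1
      have h2 : Complex.exp (f i) = 1 := h1
      have h3 := h i
      rw [h2] at h3
      have : Complex.exp (g i) = 0 := by linear_combination h3
      exact Complex.exp_ne_zero _ this
  have hz' := hz.mono_right nhdsWithin_le_nhds
  -- `L0 → 0`
  have hL0 : Tendsto (fun i => Complex.log (Complex.exp (f i))) l (𝓝 0) := by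
    have := (continuousAt_clog Complex.one_mem_slitPlane).tendsto.comp hz'
    rwa [Complex.log_one] at this
  have hLL := XR.tendsto_loglog.comp hz'
  have hli := XR.tendsto_li2_one.comp hz
  -- `M i = m` eventually
  have hMm : ∀ᶠ i in l, M i = m := by
    have h1 : Tendsto (fun i => f i - Complex.log (Complex.exp (f i))) l
        (𝓝 (2 * Real.pi * Complex.I * m)) := by
      have := hf.sub hL0
      rwa [sub_zero] at this
    have h2 := h1.eventually (Metric.ball_mem_nhds _ one_pos)
    filter_upwards [h2] with i hi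
    rw [dist_eq_norm] at hi
    have h3 : f i - Complex.log (Complex.exp (f i)) - 2 * Real.pi * Complex.I * m =
        ((2 * Real.pi * (M i - m) : ℝ) : ℂ) * Complex.I := by
      push_cast
      linear_combination hM i
    rw [h3, norm_mul, Complex.norm_I, mul_one, Complex.norm_real, Real.norm_eq_abs, abs_mul,
      abs_of_pos (by positivity : 0 < 2 * Real.pi)] at hi
    have h4 : |((M i : ℝ) - m)| < 1 := by
      have h5 : (1 : ℝ) ≤ 2 * Real.pi := by linarith only [hpi, Real.pi_gt_three]
      have h6 := abs_nonneg ((M i : ℝ) - m)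
      nlinarith only [hi, h5, hpi]
    have h8 : |M i - m| < 1 := by exact_mod_cast h4
    have h9 := abs_lt.1 h8
    omega
  -- `N i` is bounded
  have hNb : ∀ i, |(N i : ℝ)| ≤ C + Real.pi := by
    intro i
    have h1 := congrArg Complex.im (hN i)
    have h2 : (2 * Real.pi * Complex.I * (N i : ℂ)).im = 2 * Real.pi * N i := by
      simp [Complex.mul_re, Complex.mul_im]
    rw [Complex.add_im, h2, Complex.log_im] at h1
    have h3 := Complex.abs_arg_le_pi (1 - Complex.exp (f i))
    have h4 := hC i
    have h5 : |2 * Real.pi * (N i : ℝ)| ≤ C + Real.pi := by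
      have : 2 * Real.pi * (N i : ℝ) = (g i).im - (1 - Complex.exp (f i)).arg := by linarith only [h1]
      rw [this]
      exact (abs_sub _ _).trans (add_le_add h4 h3)
    rw [abs_mul, abs_of_pos (by positivity : 0 < 2 * Real.pi)] at h5
    have h6 : (1 : ℝ) ≤ 2 * Real.pi := by linarith only [hpi, Real.pi_gt_three]
    have h7 := abs_nonneg (N i : ℝ)
    nlinarith only [h5, h6, h7]
  have hNL : Tendsto (fun i => (N i : ℂ) * Complex.log (Complex.exp (f i))) l (𝓝 0) := by
    have h1 : Tendsto (fun i => (C + Real.pi) * ‖Complex.log (Complex.exp (f i))‖) l (𝓝 0) := by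
      have := (hL0.norm).const_mul (C + Real.pi)
      rwa [norm_zero, mul_zero] at this
    refine squeeze_zero_norm (fun i => ?_) h1
    rw [norm_mul, Complex.norm_intCast]
    exact mul_le_mul_of_nonneg_right (hNb i) (norm_nonneg _)
  -- the limit of the exponent
  have hE : Tendsto (fun i => Complex.exp (Complex.I / Real.pi * ((li2 (Complex.exp (f i)) -
      Real.pi ^ 2 / 6) + (Complex.log (Complex.exp (f i)) * Complex.log (1 - Complex.exp (f i))) / 2 -
        Real.pi * Complex.I * (N i * Complex.log (Complex.exp (f i)))))) l (𝓝 1) := by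
    have h1 := ((hli.sub_const ((Real.pi : ℂ) ^ 2 / 6)).add (hLL.div_const 2)).sub
      (hNL.const_mul (Real.pi * Complex.I))
    rw [sub_self, zero_div, add_zero, mul_zero, sub_zero] at h1
    have h2 := h1.const_mul (Complex.I / Real.pi)
    rw [mul_zero] at h2
    have h3 := (Complex.continuous_exp.tendsto 0).comp h2
    rwa [Complex.exp_zero] at h3
  refine hE.congr' ?_
  filter_upwards [hMm] with i hi
  have h1 : Cg ((li2 (Complex.exp (f i)) - Real.pi ^ 2 / 6) +
      (Complex.log (Complex.exp (f i)) * Complex.log (1 - Complex.exp (f i))) / 2 -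
        Real.pi * Complex.I * (N i * Complex.log (Complex.exp (f i))))
      (rl (f i) (g i) - Real.pi * Complex.I * m * g i) := by
    refine ⟨-(m * N i), ?_⟩
    have h2 := hM i
    have h3 := hN i
    rw [hi] at h2
    unfold rl
    set L0 := Complex.log (Complex.exp (f i))
    set L1 := Complex.log (1 - Complex.exp (f i))
    set Z := li2 (Complex.exp (f i))
    rw [h2, h3]
    push_cast
    linear_combination (2 * (Real.pi : ℂ) ^ 2 * m * N i) * hI
  exact h1.exp_eq

end Pool.Agent.Work.MP_b30479_gt.G2
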