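import Pool.Agent.Work.MP_b30479_gt.G2.GeoRunA
import Pool.Agent.Work.MP_b30479_gt.G2.XRog

/-!
# Congruences modulo `π²` and the values of the dilogarithm at the exponentials of the strip
-/

namespace Pool.Agent.Work.MP_b30479_gt.G2

open Finset

/-- congruence modulo `π²` -/
def Cq (x y : ℂ) : Prop := ∃ k : ℤ, x - y = Real.pi ^ 2 * k

lemma Cq.refl (x : ℂ) : Cq x x := ⟨0, by simp⟩

lemma Cq.symm {x y : ℂ} (h : Cq x y) : Cq y x := by
  obtain ⟨k, hk⟩ := h
  exact ⟨-k, by push_cast; linear_combination -hk⟩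

lemma Cq.trans {x y z : ℂ} (h : Cq x y) (h' : Cq y z) : Cq x z := by
  obtain ⟨k, hk⟩ := h
  obtain ⟨l, hl⟩ := h'
  exact ⟨k + l, by push_cast; linear_combination hk + hl⟩

lemma Cq.add {x y x' y' : ℂ} (h : Cq x y) (h' : Cq x' y') : Cq (x + x') (y + y') := by
  obtain ⟨k, hk⟩ := h
  obtain ⟨l, hl⟩ := h'
  exact ⟨k + l, by push_cast; linear_combination hk + hl⟩

lemma Cq.neg {x y : ℂ} (h : Cq x y) : Cq (-x) (-y) := by
  obtain ⟨k, hk⟩ := h
  exact ⟨-k, by push_cast; linear_combination -hk⟩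

lemma Cq.sub {x y x' y' : ℂ} (h : Cq x y) (h' : Cq x' y') : Cq (x - x') (y - y') := by
  rw [sub_eq_add_neg, sub_eq_add_neg]
  exact h.add h'.neg

lemma Cg.cq {x y : ℂ} (h : Cg x y) : Cq x y := by
  obtain ⟨k, hk⟩ := h
  exact ⟨2 * k, by push_cast; linear_combination hk⟩

lemma cq_conj {x y : ℂ} (h : Cq x y) : Cq ((starRingEnd ℂ) x) ((starRingEnd ℂ) y) := by
  obtain ⟨k, hk⟩ := h
  refine ⟨k, ?_⟩
  rw [← map_sub, hk]
  simp

lemma cq_of_eq {x y : ℂ} (k : ℤ) (h : x - y = Real.pi ^ 2 * k) : Cq x y := ⟨k, h⟩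

/-- two logarithms of the same number -/
lemma exp_eq_int {x y : ℂ} (h : Complex.exp x = Complex.exp y) :
    ∃ n : ℤ, x = y + 2 * Real.pi * Complex.I * n := by
  obtain ⟨n, hn⟩ := Complex.exp_eq_exp_iff_exists_int.mp h
  exact ⟨n, by rw [hn]; ring⟩

/-- change of the logarithms -/
theorem rl_shift' {α β α' β' : ℂ} (h : Complex.exp α' + Complex.exp β' = 1)
    (h1 : Complex.exp α = Complex.exp α') (h2 : Complex.exp β = Complex.exp β') :
    Cg (rl α β) (rl α' β' + (α * β' - β * α') / 2) := by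
  obtain ⟨m, rfl⟩ := exp_eq_int h1
  obtain ⟨n, rfl⟩ := exp_eq_int h2
  obtain ⟨k, hk⟩ := rl_shift h m n
  exact ⟨k, by rw [← hk]; ring⟩

/-- inversion, all logarithms -/
theorem rl_inv' {α β α' β' : ℂ} (h : Complex.exp α + Complex.exp β = 1)
    (h1 : Complex.exp α' * Complex.exp α = 1)
    (h2 : Complex.exp β' * Complex.exp α = -Complex.exp β) :
    Cq (rl α' β') (-rl α β + (α' * β + β' * α - α * α') / 2) := by
  have e1 : Complex.exp α' = Complex.exp (-α) := by
    rw [Complex.exp_neg]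
    exact eq_inv_of_mul_eq_one_left h1
  have e2 : Complex.exp β' = Complex.exp (β - α + Real.pi * Complex.I * (1 : ℤ)) := by
    rw [Complex.exp_add, Complex.exp_sub]
    push_cast
    rw [mul_one, Complex.exp_pi_mul_I, mul_neg_one, ← neg_div, ← h2,
      mul_div_cancel_right₀ _ (Complex.exp_ne_zero α)]
  have h3 : Complex.exp (-α) + Complex.exp (β - α + Real.pi * Complex.I * (1 : ℤ)) = 1 := by
    rw [← e1, ← e2]
    apply mul_right_cancel₀ (Complex.exp_ne_zero α)
    rw [add_mul, h1, h2, one_mul]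
    linear_combination -h
  obtain ⟨k, hk⟩ := rl_shift' h3 e1 e2
  obtain ⟨l, hl⟩ := rl_inv h (s := 1) ⟨0, by norm_num⟩
  obtain ⟨m, hm⟩ := exp_eq_int e1
  refine ⟨2 * k + 2 * l - m, ?_⟩
  subst hm
  push_cast at *
  linear_combination hk + hl + Real.pi ^ 2 * m * Complex.I_sq

/-- logarithm of `1 - e^{±2πiw}` -/
noncomputable def Bs (b : ℤ) (w : ℂ) : ℂ := VOL.ph w + sgB b * (Real.pi * Complex.I * (w - 1 / 2))

/-- the dilogarithm at `e^{±2πiw}` -/
noncomputable def fs (b : ℤ) (w : ℂ) : ℂ := rl (sgB b * (2 * Real.pi * Complex.I * w)) (Bs b w)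

variable {b : ℤ}

lemma exp_sg (b : ℤ) (w : ℂ) : Complex.exp (sgB b * (2 * Real.pi * Complex.I * w)) = aa b w * aa b w := by
  unfold aa
  rw [← Complex.exp_add]
  congr 1
  ring

lemma exp_Bs {w : ℂ} (hw : w ∈ VOL.strip) : Complex.exp (Bs b w) = 1 - aa b w * aa b w := by
  unfold Bs
  rw [show VOL.ph w + sgB b * (Real.pi * Complex.I * (w - 1 / 2)) =
    VOL.ph w + sgB b * (Real.pi * Complex.I * w) - un b by rw [un_sgB]; ring, Complex.exp_sub,
    Complex.exp_add, exp_un_one, exp_ph' b hw]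
  have h1 := sgB_I_ne (b := b)
  have h2 := aa_ne b w
  have h3 : sgB b ≠ 0 := left_ne_zero_of_mul h1
  rw [show Complex.exp (sgB b * (Real.pi * Complex.I * w)) = aa b w from rfl]
  field_simp

lemma fs_one {w : ℂ} (hw : w ∈ VOL.strip) :
    Complex.exp (sgB b * (2 * Real.pi * Complex.I * w)) + Complex.exp (Bs b w) = 1 := by
  rw [exp_Bs hw, exp_sg]; ring

lemma sg_cases (b : ℤ) : sgB b = 1 ∨ sgB b = -1 := by
  unfold sgB
  split_ifs
  · exact Or.inl rfl
  · exact Or.inr rfl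

/-- the function `Fh` -/
theorem Fh_fs {w : ℂ} (hw : w ∈ VOL.strip) : Cq (-(2 * Real.pi * Complex.I * VOL.Fh w))
    (sgB b * fs b w - Real.pi * Complex.I * w * VOL.ph w + sgB b * (Real.pi ^ 2 * w / 2)) := by
  have h := rl_ee hw
  have h1 : Complex.exp (2 * Real.pi * Complex.I * w) +
      Complex.exp (VOL.ph w + Real.pi * Complex.I * (w - 1 / 2)) = 1 := by
    have e := fs_one (b := 1) hw
    unfold Bs at e
    simpa [sgB] using e
  unfold fs Bs
  rcases sg_cases b with hs | hs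
  · refine ⟨0, ?_⟩
    rw [hs]
    push_cast
    rw [one_mul, one_mul, one_mul, one_mul, h]
    ring
  · obtain ⟨k, hk⟩ := rl_inv h1 (s := 1) ⟨0, by norm_num⟩
    refine ⟨2 * k, ?_⟩
    rw [hs]
    rw [show -(2 * Real.pi * Complex.I * w) = -1 * (2 * Real.pi * Complex.I * w) by ring,
      show VOL.ph w + Real.pi * Complex.I * (w - 1 / 2) - 2 * Real.pi * Complex.I * w +
        Real.pi * Complex.I * (1 : ℤ) = VOL.ph w + -1 * (Real.pi * Complex.I * (w - 1 / 2)) by
          push_cast; ring] at hk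
    push_cast at hk ⊢
    linear_combination hk - h + Real.pi ^ 2 * w * Complex.I_sq

/-- the hinge: `α = log (1 / (1 - Y))`, `β = log (-Y / (1 - Y))` -/
theorem lam_fs {w α β : ℂ} (hw : w ∈ VOL.strip) (h : Complex.exp α + Complex.exp β = 1)
    (h1 : Complex.exp β = -Complex.exp (sgB b * (2 * Real.pi * Complex.I * w) + α)) :
    Cq (rl α β) (fs b w + Real.pi ^ 2 / 6 + (β - α) * Bs b w / 2 +
      sgB b * (Real.pi * Complex.I * w * α)) := by
  have hf := fs_one (b := b) hw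
  obtain ⟨k, hk⟩ := rl_symm hf
  have h1' : Complex.exp β = -(Complex.exp (sgB b * (2 * Real.pi * Complex.I * w)) * Complex.exp α) := by
    rw [h1, Complex.exp_add]
  have e1 : Complex.exp α * Complex.exp (Bs b w) = 1 := by
    have h2 : Complex.exp (Bs b w) = 1 - Complex.exp (sgB b * (2 * Real.pi * Complex.I * w)) := by
      rw [← hf]; ring
    rw [h2]
    rw [h1'] at h
    linear_combination h
  have e2 : Complex.exp β * Complex.exp (Bs b w) =
      -Complex.exp (sgB b * (2 * Real.pi * Complex.I * w)) := by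
    rw [h1']
    linear_combination -Complex.exp (sgB b * (2 * Real.pi * Complex.I * w)) * e1
  obtain ⟨l, hl⟩ := rl_inv' (by rw [add_comm]; exact hf) e1 e2
  refine ⟨l - 2 * k, ?_⟩
  unfold fs
  push_cast
  linear_combination hl - hk

end Pool.Agent.Work.MP_b30479_gt.G2
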