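import Pool.Agent.Work.MP_b30479_gt.G2.CSAlt

/-!
# The formula does not depend on the logarithms
-/

namespace Pool.Agent.Work.MP_b30479_gt.G2

open Finset

variable {M : ℕ} {a : Fin (M + 2) → ℕ} {p : Fin (M + 2) → ℂ} {q : Fin (M + 2) → ℕ → ℂ}
  {P P' : Fin (M + 2) → ℂ} {Q Q' : Fin (M + 2) → ℕ → ℂ}

/-! ### two systems of logarithms -/

/-- `x` and `x'` are logarithms of the same number, which is `v` up to a fourth root of unity -/
def cvGood (x x' v : ℂ) : Prop := Complex.exp x' = Complex.exp x ∧ Complex.exp x ^ 4 = v ^ 4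

lemma cvGood_of {x x' v : ℂ} (h : Complex.exp x = v) (h' : Complex.exp x' = v) : cvGood x x' v :=
  ⟨by rw [h, h'], by rw [h]⟩

lemma cvGood_mid (hL : SWLog a p q P Q) (hL' : SWLog a p q P' Q') {i : Fin (M + 2)} {l : ℕ}
    (hl : l ∈ lays a i) : cvGood (Q i l) (Q' i l) (q i l) :=
  cvGood_of (hL.exp_q i l hl) (hL'.exp_q i l hl)

lemma cvGood_end (hl : 2 ≤ a (Fin.last (M + 1))) (hM : Markoff a p q) (hL : SWLog a p q P Q)
    (hL' : SWLog a p q P' Q') :
    cvGood (Q (Fin.last (M + 1)) (a (Fin.last (M + 1)) - 1))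
      (Q' (Fin.last (M + 1)) (a (Fin.last (M + 1)) - 1))
      (q (Fin.last (M + 1)) (a (Fin.last (M + 1)) - 1)) := by
  refine ⟨?_, ?_⟩
  · rw [hL.last, hL'.last, hL.exp_p, hL'.exp_p]
  · rw [hL.last, hL.exp_p]
    have h := (hM.end_eq hl).2
    linear_combination (p (Fin.last (M + 1)) ^ 2 -
      q (Fin.last (M + 1)) (a (Fin.last (M + 1)) - 1) ^ 2) * h

lemma cvGood_pred (hM : Markoff a p q) (hL : SWLog a p q P Q)
    (hL' : SWLog a p q P' Q') {i : Fin (M + 2)} {l : ℕ} (hil : l ∈ lays a i) :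
    cvGood (Q i (l - 1)) (Q' i (l - 1)) (q i (l - 1)) := by
  have hb := hil
  unfold lays at hb
  rw [mem_Icc] at hb
  by_cases hi : i = 0
  · subst hi
    rw [if_pos rfl] at hb
    by_cases h2 : l = 2
    · subst h2
      refine ⟨?_, ?_⟩
      · rw [show 2 - 1 = 1 from rfl, hL.first, hL'.first, hL.exp_p, hL'.exp_p]
      · rw [show 2 - 1 = 1 from rfl, hL.first, hL.exp_p, hM.first.2, mul_pow, Complex.I_pow_four,
          one_mul]
    · apply cvGood_mid hL hL'
      unfold lays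
      rw [mem_Icc, if_pos rfl]
      omega
  · obtain ⟨j, rfl⟩ := Fin.exists_succ_eq.mpr hi
    rw [if_neg hi] at hb
    by_cases h2 : l = 1
    · subst h2
      apply cvGood_of
      · rw [Nat.sub_self, (hL.turn j).2.1, (hM.turn j).2.1, hL.exp_p]
      · rw [Nat.sub_self, (hL'.turn j).2.1, (hM.turn j).2.1, hL'.exp_p]
    · apply cvGood_mid hL hL'
      unfold lays
      rw [mem_Icc, if_neg hi]
      omega

lemma cvGood_succ (ha : ∀ i, 1 ≤ a i) (hl : 2 ≤ a (Fin.last (M + 1)))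
    (hM : Markoff a p q) (hL : SWLog a p q P Q)
    (hL' : SWLog a p q P' Q') {i : Fin (M + 2)} {l : ℕ} (hil : l ∈ lays a i) :
    cvGood (Q i (l + 1)) (Q' i (l + 1)) (q i (l + 1)) := by
  have hb := hil
  unfold lays at hb
  rw [mem_Icc] at hb
  have hb1 : 1 ≤ l := by
    split_ifs at hb <;> omega
  by_cases hi : i = Fin.last (M + 1)
  · subst hi
    rw [if_pos rfl] at hb
    by_cases h2 : l = a (Fin.last (M + 1)) - 2
    · rw [show l + 1 = a (Fin.last (M + 1)) - 1 by omega]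
      exact cvGood_end hl hM hL hL'
    · apply cvGood_mid hL hL'
      unfold lays
      rw [mem_Icc, if_pos rfl]
      omega
  · obtain ⟨j, rfl⟩ := Fin.exists_castSucc_eq.mpr hi
    rw [if_neg hi] at hb
    by_cases h2 : l = a j.castSucc
    · subst h2
      rw [← (hL.turn j).2.2, ← (hL'.turn j).2.2, ← (hM.turn j).2.2]
      by_cases h3 : 1 ∈ lays a j.succ
      · exact cvGood_mid hL hL' h3
      · have h4 : j.succ = Fin.last (M + 1) ∧ a (Fin.last (M + 1)) - 1 = 1 := by
          unfold lays at h3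
          rw [mem_Icc, if_neg (Fin.succ_ne_zero j)] at h3
          by_cases h5 : j.succ = Fin.last (M + 1)
          · rw [if_pos h5, h5] at h3
            exact ⟨h5, by omega⟩
          · rw [if_neg h5] at h3
            exact absurd ⟨le_rfl, ha _⟩ h3
        have h5 := cvGood_end hl hM hL hL'
        rw [h4.2, ← h4.1] at h5
        exact h5
    · apply cvGood_mid hL hL'
      unfold lays
      rw [mem_Icc, if_neg hi]
      omega

/-! ### one layer -/

/-- the neighbours in the fan -/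
lemma cv_nb (hM : Markoff a p q) (i : Fin (M + 2)) {l : ℕ} (hl : 1 ≤ l) :
    q i (l - 1) * q i (l + 1) = p i ^ 2 + q i l ^ 2 := by
  have h := (hM.mkf i i.2).fan l
  have e : (⟨(i : ℕ), i.2⟩ : Fin (M + 2)) = i := rfl
  rw [e, ← ca_fan_eq (hM.fan i), ← ca_fan_eq (hM.fan i)] at h
  have h2 := hM.fan i (l - 1)
  rw [show l - 1 + 2 = l + 1 by omega, show l - 1 + 1 = l by omega] at h2
  unfold Mkf at h
  linear_combination h + q i (l + 1) * h2

/-- the values of Neumann's function for two systems of logarithms -/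
lemma cv_layer {z w0 w1 w0' w1' : ℂ} (hz : z ≠ 0) (hz1 : 1 - z ≠ 0)
    (h0 : Complex.exp w0 = -z) (h1 : (Complex.exp w1 * (1 - z)) ^ 4 = 1)
    (k0 k1 : ℤ) (hk0 : w0' - w0 = 4 * Real.pi * Complex.I * k0)
    (hk1 : w1' - w1 = 2 * Real.pi * Complex.I * k1) :
    2 * RN z w0' w1' - 2 * RN z w0 w1 - ((w1' - w1) * w0 - (w0' - w0) * w1) ∈
      AddSubgroup.zmultiples ((Real.pi : ℂ) ^ 2) := by
  have e0 : Complex.exp (Complex.log z) = Complex.exp (w0 + Real.pi * Complex.I) := by
    rw [Complex.exp_log hz, Complex.exp_add, h0, Complex.exp_pi_mul_I]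
    ring
  have e1 : Complex.exp (4 * (Complex.log (1 - z) + w1)) = 1 := by
    rw [show (4 : ℂ) * (Complex.log (1 - z) + w1) = ((4 : ℕ) : ℂ) * (Complex.log (1 - z) + w1) by
      norm_num, Complex.exp_nat_mul, Complex.exp_add, Complex.exp_log hz1, mul_comm (1 - z)]
    exact h1
  obtain ⟨n, hn⟩ := Complex.exp_eq_exp_iff_exists_int.mp e0
  obtain ⟨m, hm⟩ := Complex.exp_eq_one_iff.mp e1
  rw [AddSubgroup.mem_zmultiples_iff]
  refine ⟨-(2 * k0 * m) - 2 * k1 * (1 + 2 * n), ?_⟩
  rw [zsmul_eq_mul]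
  push_cast
  unfold RN
  have hm' : Complex.log (1 - z) = -w1 + m * (Real.pi * Complex.I) / 2 := by
    linear_combination (1 / 4 : ℂ) * hm
  have hI := Complex.I_sq
  have e : 2 * (LT.li2 z + (w0' * Complex.log (1 - z) + w1' * Complex.log z +
      Complex.log z * Complex.log (1 - z)) / 2 - (Real.pi : ℂ) ^ 2 / 6) -
      2 * (LT.li2 z + (w0 * Complex.log (1 - z) + w1 * Complex.log z +
      Complex.log z * Complex.log (1 - z)) / 2 - (Real.pi : ℂ) ^ 2 / 6) =
      (w0' - w0) * Complex.log (1 - z) + (w1' - w1) * Complex.log z := by ring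
  rw [e, hk0, hk1, hn, hm']
  linear_combination (-(2 * k0 * m) - 2 * k1 * (1 + 2 * n) : ℂ) * (Real.pi : ℂ) ^ 2 * hI

/-- the area form of the pair of the two systems -/
def cvArea (P P' : Fin (M + 2) → ℂ) (Q Q' : Fin (M + 2) → ℕ → ℂ) (i : Fin (M + 2)) (l : ℕ) : ℂ :=
  ((P' i - P i) * Q i l - (Q' i l - Q i l) * P i) +
  ((Q' i l - Q i l) * Q i (l + 1) - (Q' i (l + 1) - Q i (l + 1)) * Q i l) +
  ((Q' i (l + 1) - Q i (l + 1)) * P i - (P' i - P i) * Q i (l + 1))

lemma cv_wedge (i : Fin (M + 2)) {l : ℕ} (hl : 1 ≤ l) :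
    (swW1 P' Q' i l - swW1 P Q i l) * swW0 P Q i l - (swW0 P' Q' i l - swW0 P Q i l) * swW1 P Q i l =
      (if Even (i : ℕ) then 2 else -2) * (cvArea P P' Q Q' i l - cvArea P P' Q Q' i (l - 1)) := by
  unfold swW1 swW0 cvArea
  rw [show l - 1 + 1 = l by omega]
  split_ifs <;> ring

/-- the layers for two systems of logarithms -/
lemma cv_lay (ha : ∀ i, 1 ≤ a i) (hl : 2 ≤ a (Fin.last (M + 1)))
    (hM : Markoff a p q) (hpos : SWPos a p q) (hL : SWLog a p q P Q)
    (hL' : SWLog a p q P' Q') {i : Fin (M + 2)} {l : ℕ} (hil : l ∈ lays a i) :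
    2 * RN (swShape p q i l) (swW0 P' Q' i l) (swW1 P' Q' i l) -
      2 * RN (swShape p q i l) (swW0 P Q i l) (swW1 P Q i l) -
      (if Even (i : ℕ) then 2 else -2) * (cvArea P P' Q Q' i l - cvArea P P' Q Q' i (l - 1)) ∈
      AddSubgroup.zmultiples ((Real.pi : ℂ) ^ 2) := by
  have hb1 : 1 ≤ l := by
    have hb := hil
    unfold lays at hb
    rw [mem_Icc] at hb
    split_ifs at hb <;> omega
  obtain ⟨hp, hq⟩ := hpos.ne hil
  have him := hpos i l hil
  have hz : swShape p q i l ≠ 0 := by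
    intro h
    rw [h] at him
    simp at him
  have hz1 : 1 - swShape p q i l ≠ 0 := by
    intro h
    rw [← sub_eq_zero.mp h] at him
    simp at him
  have gP : Complex.exp (P i) = p i := hL.exp_p i
  have gP' : Complex.exp (P' i) = p i := hL'.exp_p i
  have gQ : Complex.exp (Q i l) = q i l := hL.exp_q i l hil
  have gQ' : Complex.exp (Q' i l) = q i l := hL'.exp_q i l hil
  have gA := cvGood_pred hM hL hL' hil
  have gB := cvGood_succ ha hl hM hL hL' hil
  have hnb := cv_nb hM i hb1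
  obtain ⟨nP, hnP⟩ := Complex.exp_eq_exp_iff_exists_int.mp (gP'.trans gP.symm)
  obtain ⟨nQ, hnQ⟩ := Complex.exp_eq_exp_iff_exists_int.mp (gQ'.trans gQ.symm)
  obtain ⟨nA, hnA⟩ := Complex.exp_eq_exp_iff_exists_int.mp gA.1
  obtain ⟨nB, hnB⟩ := Complex.exp_eq_exp_iff_exists_int.mp gB.1
  rw [← cv_wedge i hb1]
  have hs : p i ^ 2 + q i l ^ 2 ≠ 0 := by
    intro h
    apply hz1
    unfold swShape
    split_ifs
    · field_simp
      linear_combination h
    · field_simp
      linear_combination h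
  have hexpAB : (Complex.exp (Q i (l - 1)) * Complex.exp (Q i (l + 1))) ^ 4 =
      (p i ^ 2 + q i l ^ 2) ^ 4 := by
    rw [mul_pow, gA.2, gB.2, ← mul_pow, hnb]
  have hAB0 : Complex.exp (Q i (l - 1)) * Complex.exp (Q i (l + 1)) ≠ 0 :=
    mul_ne_zero (Complex.exp_ne_zero _) (Complex.exp_ne_zero _)
  by_cases hi : Even (i : ℕ)
  · refine cv_layer hz hz1 ?_ ?_ (nQ - nP) (2 * nP - nA - nB) ?_ ?_
    · unfold swW0 swShape
      rw [if_pos hi, if_pos hi, Complex.exp_sub, two_mul, two_mul, Complex.exp_add,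
        Complex.exp_add, gP, gQ]
      field_simp
    · unfold swW1 swShape
      rw [if_pos hi, if_pos hi, Complex.exp_sub, Complex.exp_sub, two_mul, Complex.exp_add, gP,
        div_div]
      have : p i * p i / (Complex.exp (Q i (l - 1)) * Complex.exp (Q i (l + 1))) *
          (1 - -(q i l / p i) ^ 2) =
          (p i ^ 2 + q i l ^ 2) / (Complex.exp (Q i (l - 1)) * Complex.exp (Q i (l + 1))) := by
        field_simp
        ring
      rw [this, div_pow, hexpAB, div_self (pow_ne_zero _ hs)]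
    · unfold swW0
      rw [if_pos hi, if_pos hi, hnP, hnQ]
      push_cast
      ring
    · unfold swW1
      rw [if_pos hi, if_pos hi, hnP, hnA, hnB]
      push_cast
      ring
  · refine cv_layer hz hz1 ?_ ?_ (nP - nQ) (2 * nQ - nA - nB) ?_ ?_
    · unfold swW0 swShape
      rw [if_neg hi, if_neg hi, Complex.exp_sub, two_mul, two_mul, Complex.exp_add,
        Complex.exp_add, gP, gQ]
      field_simp
    · unfold swW1 swShape
      rw [if_neg hi, if_neg hi, Complex.exp_sub, Complex.exp_sub, two_mul, Complex.exp_add, gQ,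
        div_div]
      have : q i l * q i l / (Complex.exp (Q i (l - 1)) * Complex.exp (Q i (l + 1))) *
          (1 - -(p i / q i l) ^ 2) =
          (p i ^ 2 + q i l ^ 2) / (Complex.exp (Q i (l - 1)) * Complex.exp (Q i (l + 1))) := by
        field_simp
        ring
      rw [this, div_pow, hexpAB, div_self (pow_ne_zero _ hs)]
    · unfold swW0
      rw [if_neg hi, if_neg hi, hnP, hnQ]
      push_cast
      ring
    · unfold swW1
      rw [if_neg hi, if_neg hi, hnQ, hnA, hnB]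
      push_cast
      ring

/-! ### the telescoping sum -/

lemma cv_tele (T : ℕ → ℂ) {s e : ℕ} (hs : 1 ≤ s) (h : s ≤ e + 1) :
    ∑ l ∈ Icc s e, (T l - T (l - 1)) = T e - T (s - 1) := by
  obtain ⟨n, hn⟩ := Nat.exists_eq_add_of_le h
  rw [← Finset.Ico_add_one_right_eq_Icc, sum_Ico_eq_sum_range, hn, Nat.add_sub_cancel_left]
  have e2 : e = s + n - 1 := by omega
  rw [e2]
  clear hn e2 h
  induction n with
  | zero => simp
  | succ n ih =>
    rw [sum_range_succ, ih, show s + (n + 1) - 1 = s + n by omega]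
    ring

lemma cvArea_turn (hL : SWLog a p q P Q) (hL' : SWLog a p q P' Q') (j : Fin (M + 1)) :
    cvArea P P' Q Q' j.castSucc (a j.castSucc) = -cvArea P P' Q Q' j.succ 0 := by
  unfold cvArea
  rw [zero_add, (hL.turn j).1, (hL.turn j).2.1, (hL.turn j).2.2, (hL'.turn j).1, (hL'.turn j).2.1,
    (hL'.turn j).2.2]
  ring

lemma cvArea_first (hL : SWLog a p q P Q) (hL' : SWLog a p q P' Q') : cvArea P P' Q Q' 0 1 = 0 := by
  unfold cvArea
  rw [hL.first, hL'.first]
  ring

lemma cvArea_last (hl : 2 ≤ a (Fin.last (M + 1))) (hL : SWLog a p q P Q)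
    (hL' : SWLog a p q P' Q') :
    cvArea P P' Q Q' (Fin.last (M + 1)) (a (Fin.last (M + 1)) - 2) = 0 := by
  unfold cvArea
  rw [show a (Fin.last (M + 1)) - 2 + 1 = a (Fin.last (M + 1)) - 1 by omega, hL.last, hL'.last]
  ring

lemma cv_zero (ha : ∀ i, 1 ≤ a i) (h0 : 2 ≤ a 0) (hl : 2 ≤ a (Fin.last (M + 1)))
    (hL : SWLog a p q P Q) (hL' : SWLog a p q P' Q') :
    ∑ i, ∑ l ∈ lays a i, (if Even (i : ℕ) then (2 : ℂ) else -2) *
      (cvArea P P' Q Q' i l - cvArea P P' Q Q' i (l - 1)) = 0 := by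
  have h1 : ∀ i, ∑ l ∈ lays a i, (if Even (i : ℕ) then (2 : ℂ) else -2) *
      (cvArea P P' Q Q' i l - cvArea P P' Q Q' i (l - 1)) =
      (if Even (i : ℕ) then (2 : ℂ) else -2) *
        cvArea P P' Q Q' i (if i = Fin.last (M + 1) then a i - 2 else a i) -
      (if Even (i : ℕ) then (2 : ℂ) else -2) * cvArea P P' Q Q' i ((if i = 0 then 2 else 1) - 1) := by
    intro i
    rw [← mul_sum, lays, cv_tele, mul_sub]
    · split_ifs <;> omega
    · by_cases hi0 : i = 0
      · subst hi0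
        rw [if_pos rfl, if_neg ca_last_ne_zero.symm]
        omega
      · rw [if_neg hi0]
        omega
  rw [sum_congr rfl fun i _ => h1 i, sum_sub_distrib, Fin.sum_univ_castSucc,
    Fin.sum_univ_succ (fun i => (if Even (i : ℕ) then (2 : ℂ) else -2) *
      cvArea P P' Q Q' i ((if i = 0 then 2 else 1) - 1)), if_pos rfl, if_pos rfl, cvArea_last hl hL hL',
    show 2 - 1 = 1 from rfl, cvArea_first hL hL', mul_zero, mul_zero, add_zero, zero_add,
    ← sum_sub_distrib]
  refine sum_eq_zero fun j _ => ?_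
  rw [if_neg (ca_castSucc_ne_last j), if_neg (ca_succ_ne j), Nat.sub_self, cvArea_turn hL hL',
    Fin.val_castSucc, Fin.val_succ]
  by_cases h : Even (j : ℕ)
  · rw [if_pos h, if_neg (by rw [Nat.even_add_one]; simpa using h)]
    ring
  · rw [if_neg h, if_pos (by rw [Nat.even_add_one]; exact h)]
    ring

/-- The formula does not depend on the logarithms modulo `π² i`. -/
theorem swCV_indep (ha : ∀ i, 1 ≤ a i) (h0 : 2 ≤ a 0) (hl : 2 ≤ a (Fin.last (M + 1)))
    (hM : Markoff a p q) (hpos : SWPos a p q) (hL : SWLog a p q P Q) (hL' : SWLog a p q P' Q') :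
    Ci (swCV a p q P Q) (swCV a p q P' Q') := by
  have h1 : (∑ i, ∑ l ∈ lays a i,
      2 * RN (swShape p q i l) (swW0 P' Q' i l) (swW1 P' Q' i l)) -
      (∑ i, ∑ l ∈ lays a i, 2 * RN (swShape p q i l) (swW0 P Q i l) (swW1 P Q i l)) ∈
      AddSubgroup.zmultiples ((Real.pi : ℂ) ^ 2) := by
    have h2 := sum_mem (S := AddSubgroup.zmultiples ((Real.pi : ℂ) ^ 2)) (t := univ.sigma (lays a))
      (f := fun x : (_ : Fin (M + 2)) × ℕ =>
      2 * RN (swShape p q x.1 x.2) (swW0 P' Q' x.1 x.2) (swW1 P' Q' x.1 x.2) -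
      2 * RN (swShape p q x.1 x.2) (swW0 P Q x.1 x.2) (swW1 P Q x.1 x.2) -
      (if Even (x.1 : ℕ) then 2 else -2) *
        (cvArea P P' Q Q' x.1 x.2 - cvArea P P' Q Q' x.1 (x.2 - 1)))
      (fun x hx => cv_lay ha hl hM hpos hL hL' (mem_sigma.mp hx).2)
    rw [sum_sub_distrib, sum_sub_distrib, sum_sigma, sum_sigma, sum_sigma] at h2
    rw [cv_zero ha h0 hl hL hL', sub_zero] at h2
    exact h2
  obtain ⟨k, hk⟩ := AddSubgroup.mem_zmultiples_iff.mp h1
  rw [zsmul_eq_mul] at hk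
  refine ⟨k, ?_⟩
  unfold swCV
  linear_combination (-Complex.I) * hk

end Pool.Agent.Work.MP_b30479_gt.G2
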