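import Pool.Agent.Work.MP_b30479_gt.G2.SWList
import Pool.Agent.Work.MP_b30479_gt.G2.BWSeven

/-!
# Chains of twist regions and fans of Markoff maps
-/

namespace Pool.Agent.Work.MP_b30479_gt.G2

open Finset
open Pool.Agent.Work.MP_b30479_gt.LT (BW)

/-- the sign of `b` -/
noncomputable def sI (b : ℤ) : ℝ := if 0 < b then 1 else -1

/-- the shape of a layer -/
noncomputable def zL (x : Lay) : ℂ := -(x.q / x.p) ^ 2

/-! ### the constant of a chain -/

section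
variable {U : ℕ → ℂ} {n : ℕ} {κ : ℂ}

lemma chain_const (h0 : ∀ l, l < n → U l ≠ 0)
    (he : ∀ l, l + 2 ≤ n → (U (l + 2) - U (l + 1)) * U l = -(U (l + 1) - U l)) :
    ∀ l, l + 1 ≤ n → (1 - U (l + 1)) * (1 - (U l)⁻¹) = (1 - U 1) * (1 - (U 0)⁻¹) := by
  intro l
  induction l with
  | zero => intro _; rfl
  | succ l ih =>
    intro hl
    rw [← ih (by omega)]
    have a := h0 l (by omega)
    have b := h0 (l + 1) (by omega)
    have e := he l (by omega)
    have e1 : 1 - U (l + 2) = U (l + 1) * ((U l)⁻¹ - 1) := by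
      have : U l * (1 - U (l + 2)) = U l * (U (l + 1) * ((U l)⁻¹ - 1)) := by
        linear_combination -e - U (l + 1) * mul_inv_cancel₀ a
      exact mul_left_cancel₀ a this
    show (1 - U (l + 2)) * (1 - (U (l + 1))⁻¹) = (1 - U (l + 1)) * (1 - (U l)⁻¹)
    rw [e1]
    field_simp
    ring

/-- `1 + p² / q²` in terms of the chain -/
noncomputable def sgm (κ u : ℂ) : ℂ := -(κ * u) / (1 - u) ^ 2

lemma sgm_left {u v : ℂ} (hu : u ≠ 0) (hu1 : u ≠ 1) (h : (1 - v) * (1 - u⁻¹) = κ) :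
    (1 - v) / (1 - u) = sgm κ u := by
  have h1 : 1 - u ≠ 0 := fun h => hu1 (by linear_combination -h)
  rw [sgm, div_eq_div_iff h1 (pow_ne_zero 2 h1), ← h]
  field_simp
  ring

lemma sgm_right {u v : ℂ} (hu : u ≠ 0) (hv : v ≠ 0) (hu1 : u ≠ 1) (hv1 : v ≠ 1)
    (h : (1 - v) * (1 - u⁻¹) = κ) :
    (1 - u⁻¹) / (1 - v⁻¹) = sgm κ v := by
  have h1 : 1 - v ≠ 0 := fun h => hv1 (by linear_combination -h)
  have h2 : v - 1 ≠ 0 := fun h => hv1 (by linear_combination h)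
  rw [sgm, ← h]
  have e : (1 : ℂ) - v⁻¹ = (v - 1) / v := by field_simp
  rw [e]
  field_simp
  ring

lemma BW_one_sub {z : ℂ} (h0 : z ≠ 0) (h1 : z ≠ 1) : BW (1 - z) = -BW z := by
  have h := BW_three (z := z⁻¹) (inv_ne_zero h0) (by simpa using h1)
  rw [inv_inv, BW_inv] at h
  exact h

lemma BW_zero : BW 0 = 0 := by
  simpa using BW_real 0

/-- one letter -/
lemma letter_vol {u v : ℂ} (hu : u ≠ 0) (hv : v ≠ 0) (hu1 : u ≠ 1) (hv1 : v ≠ 1)
    (h : (1 - v) * (1 - u⁻¹) = κ) :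
    BW u - BW v + BW (v / u) = BW (sgm κ u) + BW (sgm κ v) := by
  have h1 := BW_five hu (inv_ne_zero hv)
  rw [BW_inv, inv_inv, sgm_left hu hu1 h, sgm_right hu hv hu1 hv1 h,
    show 1 / (u * v⁻¹) = v / u by field_simp] at h1
  linarith

/-- the volume of an inner chain -/
lemma chain_vol (h0 : ∀ l, l ≤ n → U l ≠ 0) (h1 : ∀ l, l ≤ n → U l ≠ 1)
    (hκ : ∀ l, l + 1 ≤ n → (1 - U (l + 1)) * (1 - (U l)⁻¹) = κ) :
    BW (U 0) - BW (U n) + ∑ l ∈ range n, BW (U (l + 1) / U l) =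
      ∑ l ∈ range n, (BW (sgm κ (U l)) + BW (sgm κ (U (l + 1)))) := by
  induction n with
  | zero => simp
  | succ n ih =>
    have h2 := ih (fun l hl => h0 l (by omega)) (fun l hl => h1 l (by omega))
      (fun l hl => hκ l (by omega))
    have h3 := letter_vol (h0 n (by omega)) (h0 (n + 1) le_rfl) (h1 n (by omega)) (h1 (n + 1) le_rfl)
      (hκ n le_rfl)
    rw [sum_range_succ, sum_range_succ]
    linarith

/-- the last tetrahedron before the end of the word -/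
lemma end_vol {u : ℂ} (hu : u ≠ 0) (hu1 : u ≠ 1) (h : (1 - 0) * (1 - u⁻¹) = κ) :
    BW u = BW (sgm κ u) := by
  rw [← sgm_left hu hu1 h]
  have h1 : 1 - u ≠ 0 := fun h => hu1 (by linear_combination -h)
  have h2 : (1 : ℂ) - u ≠ 1 := fun h => hu (by linear_combination -h)
  rw [show ((1 : ℂ) - 0) / (1 - u) = (1 - u)⁻¹ by rw [sub_zero, one_div], BW_inv,
    BW_one_sub hu hu1, neg_neg]

end

/-! ### fans -/

section
variable {p q0 q1 κ : ℂ}

/-- the Markoff equation -/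
def Mkf (p q0 q1 : ℂ) : Prop := q1 * (p * q0 - q1) = p ^ 2 + q0 ^ 2

lemma Mkf.fan (h : Mkf p q0 q1) (l : ℕ) :
    Mkf p (G2.fan p q0 q1 l) (G2.fan p q0 q1 (l + 1)) := by
  induction l with
  | zero => exact h
  | succ l ih =>
    unfold Mkf at ih ⊢
    show (p * G2.fan p q0 q1 (l + 1) - G2.fan p q0 q1 l) * (p * G2.fan p q0 q1 (l + 1) -
      (p * G2.fan p q0 q1 (l + 1) - G2.fan p q0 q1 l)) = _
    linear_combination ih

lemma Mkf.nq (h : Mkf p q0 q1) {b c : ℤ} (hb : b ≠ 0) :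
    Mkf (G2.fan p q0 q1 b.natAbs) p (G2.nq b c p q0 q1) := by
  have h1 := h.fan b.natAbs
  have h2 := h.fan (b.natAbs - 1)
  rw [show b.natAbs - 1 + 1 = b.natAbs by omega] at h2
  unfold Mkf G2.nq at *
  split_ifs
  · linear_combination h1
  · linear_combination h2

/-- the chain `U` belongs to the fan -/
def Str (u p x y : ℂ) : Prop := (1 - u) * y = -(u * p * x)

lemma star {U : ℕ → ℂ} {n : ℕ} (h0 : ∀ l, l < n → U l ≠ 0)
    (hκ : ∀ l, l + 1 ≤ n → (1 - U (l + 1)) * (1 - (U l)⁻¹) = p ^ 2) (hp : p ≠ 0) (hq : q0 ≠ 0)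
    (hs : Str (U 0) p q0 q1) (l : ℕ) (hl : l ≤ n) :
    fan p q0 q1 l ≠ 0 ∧ Str (U l) p (fan p q0 q1 l) (fan p q0 q1 (l + 1)) := by
  induction l with
  | zero => exact ⟨hq, hs⟩
  | succ l ih =>
    obtain ⟨h1, h2⟩ := ih (by omega)
    have a := h0 l (by omega)
    have k := hκ l hl
    have e1 : (1 - U (l + 1)) * (U l - 1) = p ^ 2 * U l := by
      rw [← k]
      field_simp
    have h3 : fan p q0 q1 (l + 1) ≠ 0 := by
      intro h
      unfold Str at h2
      rw [h, mul_zero] at h2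
      have : U l * p * fan p q0 q1 l = 0 := by linear_combination h2
      exact mul_ne_zero (mul_ne_zero a hp) h1 this
    refine ⟨h3, ?_⟩
    unfold Str at h2 ⊢
    show (1 - U (l + 1)) * (p * fan p q0 q1 (l + 1) - fan p q0 q1 l) =
      -(U (l + 1) * p * fan p q0 q1 (l + 1))
    have h4 : U l * p * ((1 - U (l + 1)) * (p * fan p q0 q1 (l + 1) - fan p q0 q1 l)) =
        U l * p * -(U (l + 1) * p * fan p q0 q1 (l + 1)) := by
      linear_combination -(1 - U (l + 1)) * h2 - fan p q0 q1 (l + 1) * e1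
    exact mul_left_cancel₀ (mul_ne_zero a hp) h4

/-- the first fan; its chain is read from the turning point -/
lemma star_first {U : ℕ → ℂ} {n : ℕ} (h0 : ∀ l, l < n → U l ≠ 0) (hn : U n = 0)
    (hκ : ∀ l, l + 1 ≤ n → (1 - U (l + 1)) * (1 - (U l)⁻¹) = p ^ 2) (hp : p ≠ 0) (hq : q1 ≠ 0)
    (m : ℕ) (hm : m ≤ n) :
    fan p 0 q1 (m + 1) ≠ 0 ∧ (1 - U (n - m)) * fan p 0 q1 (m + 2) = p * fan p 0 q1 (m + 1) := by
  induction m with
  | zero =>
    refine ⟨hq, ?_⟩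
    rw [Nat.sub_zero, hn]
    show (1 - 0) * (p * q1 - 0) = p * q1
    ring
  | succ m ih =>
    obtain ⟨h1, h2⟩ := ih (by omega)
    have a := h0 (n - (m + 1)) (by omega)
    have k := hκ (n - (m + 1)) (by omega)
    rw [show n - (m + 1) + 1 = n - m by omega] at k
    have e1 : (1 - U (n - m)) * (U (n - (m + 1)) - 1) = p ^ 2 * U (n - (m + 1)) := by
      rw [← k]
      field_simp
    have h3 : fan p 0 q1 (m + 2) ≠ 0 := by
      intro h
      rw [h, mul_zero] at h2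
      exact mul_ne_zero hp h1 h2.symm
    refine ⟨h3, ?_⟩
    show (1 - U (n - (m + 1))) * (p * fan p 0 q1 (m + 2) - fan p 0 q1 (m + 1)) =
      p * fan p 0 q1 (m + 2)
    have h4 : p * ((1 - U (n - (m + 1))) * (p * fan p 0 q1 (m + 2) - fan p 0 q1 (m + 1))) =
        p * (p * fan p 0 q1 (m + 2)) := by
      linear_combination (1 - U (n - (m + 1))) * h2 + fan p 0 q1 (m + 2) * e1
    exact mul_left_cancel₀ hp h4

/-- `sgm` in terms of the fan -/
lemma sgm_fan {u x y : ℂ} (hM : Mkf p x y) (hs : Str u p x y) (hu : u ≠ 1) (hx : x ≠ 0) :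
    sgm (p ^ 2) u = 1 + (p / x) ^ 2 := by
  have h1 : 1 - u ≠ 0 := fun h => hu (by linear_combination -h)
  unfold Mkf at hM
  unfold Str at hs
  rw [sgm, div_eq_iff (pow_ne_zero 2 h1)]
  have e1 : (1 + (p / x) ^ 2) * x ^ 2 = p ^ 2 + x ^ 2 := by
    field_simp
    ring
  have h2 : x ^ 2 * -(p ^ 2 * u) = x ^ 2 * ((1 + (p / x) ^ 2) * (1 - u) ^ 2) := by
    linear_combination (-(1 - u) ^ 2) * e1 + (1 - u) ^ 2 * hM - (p * x - (1 - u) * y) * hs
  exact mul_left_cancel₀ (pow_ne_zero 2 hx) h2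

end

end Pool.Agent.Work.MP_b30479_gt.G2
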