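import Pool.Agent.Work.MP_b30479_gt.G2.CSDefs
import Pool.Agent.Work.MP_b30479_gt.G2.SWChain

/-!
# Layers and Neumann's function
-/

namespace Pool.Agent.Work.MP_b30479_gt.G2

open Finset

/-- one tetrahedron of a layer, principal logarithms -/
noncomputable def RL (L : Lay) : ℂ := RN (zL L) (2 * Complex.log L.q - 2 * Complex.log L.p)
  (2 * Complex.log L.p - Complex.log L.t - Complex.log L.u)

/-- the sum over a list of layers -/
noncomputable def rsum (S : List Lay) : ℂ := (S.map fun x => 2 * RL x).sum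

/-- the layer at the value `V (l + 1)` -/
def layV (b : ℤ) (p : ℂ) (V : ℕ → ℂ) (l : ℕ) : Lay :=
  if 0 < b then ⟨p, V (l + 1), V l, V (l + 2)⟩ else ⟨V (l + 1), p, V l, V (l + 2)⟩

/-- the layer seen from the other side -/
def Lay.swap (L : Lay) : Lay := ⟨L.q, L.p, L.u, L.t⟩

end Pool.Agent.Work.MP_b30479_gt.G2
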