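import Pool.Agent.Work.MP_b30479_gt.LT.Stmt

/-!
# Ideal triangulations of two-bridge link complements: the gluing equations

The word `b : Fin (M + 2) → ℤ` has `M + 1` turning points `j` (between the twist regions `j` and
`j + 1`).  A twist region with `|b|` crossings is a chain `U 0, ..., U |b|`; its tetrahedra have the
shapes `U (l + 1) / U l` (`b > 0`) or `U l / U (l + 1)` (`b < 0`), and every turning point gives two
tetrahedra of shape `Y j`, one for each of the two neighbouring twist regions.  At the two ends of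
the word the chain has only `|b| - 2` tetrahedra.
-/

namespace Pool.Agent.Work.MP_b30479_gt.G2

open Finset VOL

/-- `Y` or `1 / Y` -/
noncomputable def hat (b : ℤ) (Y : ℂ) : ℂ := if 0 < b then Y else Y⁻¹

/-- shape of a tetrahedron of a twist region -/
noncomputable def shp (b : ℤ) (U : ℕ → ℂ) (l : ℕ) : ℂ :=
  if 0 < b then U (l + 1) / U l else U l / U (l + 1)

/-- an inner twist region, between the turning points `Y` and `Y'`; `edge`: the edges inside the
twist region -/
structure Run (b : ℤ) (Y Y' : ℂ) (U : ℕ → ℂ) : Prop where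
  left : U 0 = hat b Y
  right : U b.natAbs * hat b Y' = 1
  edge : ∀ l, l + 2 ≤ b.natAbs → (U (l + 2) - U (l + 1)) * U l = -(U (l + 1) - U l)

/-- a twist region at an end of the word -/
structure EndRun (b : ℤ) (Y : ℂ) (U : ℕ → ℂ) : Prop where
  left : U 0 = hat b Y
  right : U (b.natAbs - 1) = 0
  edge : ∀ l, l + 2 ≤ b.natAbs - 1 → (U (l + 2) - U (l + 1)) * U l = -(U (l + 1) - U l)

/-- contribution of a twist region to the edge equation of the turning point `Y`; `u` is the
neighbour of `hat b Y` in the chain -/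
noncomputable def hf (b : ℤ) (Y u : ℂ) : ℂ := (u - hat b Y) / (hat b Y - 1)

section
variable {M : ℕ} (b : Fin (M + 2) → ℤ) (Y : Fin (M + 1) → ℂ) (U : Fin (M + 2) → ℕ → ℂ)

/-- the neighbour of the turning point `j` in the twist region `j` -/
noncomputable def nbr (j : Fin (M + 1)) : ℂ :=
  if j = 0 then U 0 1 else (U j.castSucc ((b j.castSucc).natAbs - 1))⁻¹

/-- number of tetrahedra in the chain of the twist region `i` -/
def nlet (i : Fin (M + 2)) : ℕ := if i = 0 ∨ i = Fin.last (M + 1) then (b i).natAbs - 2 else (b i).natAbs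

/-- the gluing equations -/
structure Glue : Prop where
  first : EndRun (b 0) (Y 0) (U 0)
  last : EndRun (b (Fin.last (M + 1))) (Y (Fin.last M)) (U (Fin.last (M + 1)))
  mid : ∀ j : Fin M, Run (b j.castSucc.succ) (Y j.castSucc) (Y j.succ) (U j.castSucc.succ)
  turn : ∀ j, hf (b j.castSucc) (Y j) (nbr b U j) * hf (b j.succ) (Y j) (U j.succ 1) = 1

/-- All tetrahedra are positively oriented.  In a twist region with one crossing the three
tetrahedra `Y`, `Y'`, `1 / (Y Y')` are replaced by the two tetrahedra `(1 - 1 / Y') / (1 - Y)`,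
`(1 - 1 / Y) / (1 - Y')` (a 3-2 move). -/
structure PosOr : Prop where
  hinge : ∀ j, 0 < (Y j).im
  two : ∀ i, 2 ≤ (b i).natAbs → ∀ l < nlet b i, 0 < (shp (b i) (U i) l).im
  one : ∀ j : Fin M, (b j.castSucc.succ).natAbs = 1 →
    0 < ((1 - (Y j.succ)⁻¹) / (1 - Y j.castSucc)).im ∧
    0 < ((1 - (Y j.castSucc)⁻¹) / (1 - Y j.succ)).im

/-- the volume -/
noncomputable def swVol : ℝ :=
  ∑ j, 2 * LT.BW (Y j) + ∑ i, ∑ l ∈ range (nlet b i), LT.BW (shp (b i) (U i) l)

end

end Pool.Agent.Work.MP_b30479_gt.G2
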