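import Pool.Agent.Work.MP_b30479_gt.G2.CSLay
import Pool.Agent.Work.MP_b30479_gt.G2.CSHat
import Pool.Agent.Work.MP_b30479_gt.G2.SWGlue

/-!
# The sum over the halves of the layers
-/

namespace Pool.Agent.Work.MP_b30479_gt.G2

open Finset

/-- The values of the fan `k ≥ 1` from `q (-1)` on; the first fan is read from the turning point. -/
noncomputable def Vk (b : ℕ → ℤ) (y : ℂ) : ℕ → ℕ → ℂ
  | 0, l => Fk b y 0 ((b 0).natAbs + 1 - l)
  | k + 1, l => fan (St b y (k + 1)).1
      ((St b y (k + 1)).1 * (St b y (k + 1)).2.1 - (St b y (k + 1)).2.2) (St b y (k + 1)).2.1 l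

/-- half a layer of the run `k` -/
noncomputable def RKc (b : ℕ → ℤ) (y : ℂ) (k l : ℕ) : ℂ := RL (layV (b k) (St b y k).1 (Vk b y k) l)

/-- the halves of the layers of the run `k` -/
noncomputable def HS (N : ℕ) (b : ℕ → ℤ) (y : ℂ) (k : ℕ) : ℂ :=
  ∑ l ∈ range (nlN N b k), (RKc b y k l + RKc b y k (l + 1)) +
    if k = 0 ∨ k = N then RKc b y k ((b k).natAbs - 2) else 0

variable {N : ℕ} {b : ℕ → ℤ} {Y : ℕ → ℂ} {U : ℕ → ℕ → ℂ} {y : ℂ}

private lemma exp_two_log {x : ℂ} (hx : x ≠ 0) : Complex.exp (2 * Complex.log x) = x ^ 2 := by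
  rw [two_mul, Complex.exp_add, Complex.exp_log hx, sq]

/-- `RN` and the extended Rogers dilogarithm -/
lemma RN_rlp {z w0 w1 : ℂ} (h0 : Complex.exp w0 = -z) (h1 : Complex.exp (-w1) = 1 - z) :
    Cq (RN z w0 w1) (rl (w0 + Real.pi * Complex.I) (-w1) + Real.pi * Complex.I * w1 / 2) := by
  have e0 : Complex.exp (w0 + Real.pi * Complex.I) = z := by
    rw [Complex.exp_add, Complex.exp_pi_mul_I, h0]
    ring
  have hz : 1 - z ≠ 0 := by rw [← h1]; exact Complex.exp_ne_zero _
  have e1 : Complex.exp (-w1) = Complex.exp (Complex.log (1 - z)) := by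
    rw [Complex.exp_log hz, h1]
  obtain ⟨n, hn⟩ := exp_eq_int e1
  refine ⟨-n, ?_⟩
  unfold rl RN
  rw [e0]
  have hw : w1 = -(Complex.log (1 - z) + 2 * Real.pi * Complex.I * n) := by
    linear_combination -hn
  rw [hw]
  generalize Complex.log (1 - z) = A
  generalize Complex.log z = B
  generalize LT.li2 z = C
  push_cast
  linear_combination (Real.pi : ℂ) ^ 2 * n * Complex.I_sq

/-- the two sides of an edge which the path does not cross -/
theorem RL_swap {L : Lay} (hp : L.p ≠ 0) (hq : L.q ≠ 0) (ht : L.t * L.u = L.p ^ 2 + L.q ^ 2)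
    (h0 : L.t * L.u ≠ 0) : Cq (RL L + RL L.swap) (Real.pi ^ 2 / 2) := by
  have ht0 : L.t ≠ 0 := left_ne_zero_of_mul h0
  have hu0 : L.u ≠ 0 := right_ne_zero_of_mul h0
  obtain ⟨p, q, t, u⟩ := L
  simp only at hp hq ht h0 ht0 hu0
  have a1 : Complex.exp (2 * Complex.log q - 2 * Complex.log p) = -zL ⟨p, q, t, u⟩ := by
    rw [Complex.exp_sub, exp_two_log hp, exp_two_log hq]
    simp only [zL]
    field_simp
  have a2 : Complex.exp (-(2 * Complex.log p - Complex.log t - Complex.log u)) =
      1 - zL ⟨p, q, t, u⟩ := by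
    rw [Complex.exp_neg, Complex.exp_sub, Complex.exp_sub, exp_two_log hp, Complex.exp_log ht0,
      Complex.exp_log hu0]
    simp only [zL]
    field_simp
    linear_combination ht
  have b1 : Complex.exp (2 * Complex.log p - 2 * Complex.log q) = -zL (Lay.swap ⟨p, q, t, u⟩) := by
    rw [Complex.exp_sub, exp_two_log hp, exp_two_log hq]
    simp only [zL, Lay.swap]
    field_simp
  have b2 : Complex.exp (-(2 * Complex.log q - Complex.log u - Complex.log t)) =
      1 - zL (Lay.swap ⟨p, q, t, u⟩) := by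
    rw [Complex.exp_neg, Complex.exp_sub, Complex.exp_sub, exp_two_log hq, Complex.exp_log ht0,
      Complex.exp_log hu0]
    simp only [zL, Lay.swap]
    field_simp
    linear_combination ht
  have A := RN_rlp a1 a2
  have B := RN_rlp b1 b2
  set w0 := 2 * Complex.log q - 2 * Complex.log p with hw0
  set w1 := 2 * Complex.log p - Complex.log t - Complex.log u with hw1
  have c0 : 2 * Complex.log p - 2 * Complex.log q = -w0 := by rw [hw0]; ring
  have c1 : 2 * Complex.log q - Complex.log u - Complex.log t = w1 + w0 := by rw [hw0, hw1]; ring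
  rw [c0, c1] at B
  have ez : Complex.exp (w0 + Real.pi * Complex.I) = zL ⟨p, q, t, u⟩ := by
    rw [Complex.exp_add, Complex.exp_pi_mul_I, a1]
    ring
  have C := rl_inv' (α := w0 + Real.pi * Complex.I) (β := -w1) (α' := -w0 + Real.pi * Complex.I)
    (β' := -(w1 + w0)) (by rw [ez, a2]; ring)
    (by
      rw [← Complex.exp_add, show -w0 + Real.pi * Complex.I + (w0 + Real.pi * Complex.I) =
        2 * Real.pi * Complex.I by ring, Complex.exp_two_pi_mul_I])
    (by
      rw [← Complex.exp_add, show -(w1 + w0) + (w0 + Real.pi * Complex.I) =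
        -w1 + Real.pi * Complex.I by ring, Complex.exp_add, Complex.exp_pi_mul_I]
      ring)
  obtain ⟨k, hk⟩ := A
  obtain ⟨l, hl⟩ := B
  obtain ⟨m, hm⟩ := C
  have eA : RL ⟨p, q, t, u⟩ = RN (zL ⟨p, q, t, u⟩) w0 w1 := rfl
  have eB : RL (Lay.swap ⟨p, q, t, u⟩) = RN (zL (Lay.swap ⟨p, q, t, u⟩)) (-w0) (w1 + w0) := by
    rw [← c0, ← c1]
    rfl
  refine ⟨k + l + m, ?_⟩
  rw [eA, eB]
  push_cast
  linear_combination hk + hl + hm - (Real.pi : ℂ) ^ 2 / 2 * Complex.I_sq

lemma Vk_succ (b : ℕ → ℤ) (y : ℂ) {k : ℕ} (hk : 1 ≤ k) (l : ℕ) : Vk b y k (l + 1) = Fk b y k l := by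
  obtain ⟨k, rfl⟩ : ∃ j, k = j + 1 := ⟨k - 1, by omega⟩
  have h := fan_shift (St b y (k + 1)).1
    ((St b y (k + 1)).1 * (St b y (k + 1)).2.1 - (St b y (k + 1)).2.2) (St b y (k + 1)).2.1 l
  rw [sub_sub_cancel] at h
  exact h.symm

lemma RK_eq (b : ℕ → ℤ) (y : ℂ) {k : ℕ} (hk : 1 ≤ k) (l : ℕ) :
    RKc b y k (l + 1) = RL (LK b y k (l + 1)) := by
  unfold RKc LK layV lay
  rw [Vk_succ b y hk l, Vk_succ b y hk (l + 1), show l + 1 + 2 = l + 2 + 1 by ring,
    Vk_succ b y hk (l + 2), Nat.add_sub_cancel]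
  rfl

/-- `RL` does not depend on the order of the third vertices -/
lemma RL_comm (p q t u : ℂ) : RL ⟨p, q, t, u⟩ = RL ⟨p, q, u, t⟩ := by
  unfold RL zL
  simp only
  congr 1
  ring

lemma RK_first (b : ℕ → ℤ) (y : ℂ) {l : ℕ} (hl : l < (b 0).natAbs) :
    RKc b y 0 l = RL (LK b y 0 ((b 0).natAbs - l)) := by
  have e0 : Vk b y 0 l = Fk b y 0 ((b 0).natAbs - l + 1) := by
    show Fk b y 0 _ = _
    rw [show (b 0).natAbs + 1 - l = (b 0).natAbs - l + 1 by omega]
  have e1 : Vk b y 0 (l + 1) = Fk b y 0 ((b 0).natAbs - l) := by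
    show Fk b y 0 _ = _
    rw [show (b 0).natAbs + 1 - (l + 1) = (b 0).natAbs - l by omega]
  have e2 : Vk b y 0 (l + 2) = Fk b y 0 ((b 0).natAbs - l - 1) := by
    show Fk b y 0 _ = _
    rw [show (b 0).natAbs + 1 - (l + 2) = (b 0).natAbs - l - 1 by omega]
  unfold RKc LK layV lay
  rw [e0, e1, e2]
  split_ifs
  · exact RL_comm _ _ _ _
  · exact RL_comm _ _ _ _

lemma rsum_append (S T : List Lay) : rsum (S ++ T) = rsum S + rsum T := by
  unfold rsum
  rw [List.map_append, List.sum_append]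

lemma rsum_run (k kk n : ℕ) : rsum ((List.range' kk n).map (LK b y k)) =
    ∑ l ∈ range n, 2 * RL (LK b y k (kk + l)) := by
  unfold rsum
  induction n generalizing kk with
  | zero => simp
  | succ n ih =>
    rw [List.range'_succ, List.map_cons, List.map_cons, List.sum_cons, ih, sum_range_succ', add_comm,
      add_zero]
    congr 1
    exact sum_congr rfl fun l _ => by rw [show kk + 1 + l = kk + (l + 1) by ring]

lemma rsum_if (k : ℕ) : rsum (if b k * b (k + 1) < 0 then [LK b y k (b k).natAbs] else []) =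
    if b k * b (k + 1) < 0 then 2 * RL (LK b y k (b k).natAbs) else 0 := by
  split_ifs
  · simp [rsum]
  · simp [rsum]

lemma tele_c (B : ℕ → ℂ) (m : ℕ) : ∑ l ∈ range (m + 1), (B l + B (l + 1)) =
    B 0 + ∑ l ∈ range m, 2 * B (l + 1) + B (m + 1) := by
  induction m with
  | zero => simp
  | succ m ih =>
    rw [sum_range_succ, ih, sum_range_succ _ m]
    ring

/-- the halves at a turning point -/
lemma turn_halves (h : GlueN N b Y U) (hy : (1 - U 0 1) * (1 - (U 0 0)⁻¹) = y ^ 2) {k : ℕ}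
    (hk : k < N) : Cq (RL (LK b y k (b k).natAbs) + RKc b y (k + 1) 0)
      ((if b k * b (k + 1) < 0 then 2 * RL (LK b y k (b k).natAbs) else 0) +
        if b k * b (k + 1) < 0 then 0 else (Real.pi : ℂ) ^ 2 / 2) := by
  have hb := h.b0 k (by omega)
  have hc := h.b0 (k + 1) (by omega)
  obtain ⟨m, hm⟩ : ∃ m, (b k).natAbs = m + 1 := ⟨(b k).natAbs - 1, by omega⟩
  have hrec : Fk b y k (m + 2) = (St b y k).1 * Fk b y k (m + 1) - Fk b y k m := rfl
  have v1 : Vk b y (k + 1) 1 = (St b y k).1 := Vk_succ b y (by omega) 0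
  have v2 : Vk b y (k + 1) 2 = nq (b k) (b (k + 1)) (St b y k).1 (St b y k).2.1 (St b y k).2.2 :=
    Vk_succ b y (by omega) 1
  have v0 : Vk b y (k + 1) 0 = (St b y (k + 1)).1 * (St b y k).1 -
    nq (b k) (b (k + 1)) (St b y k).1 (St b y k).2.1 (St b y k).2.2 := rfl
  have s1 : (St b y (k + 1)).1 = Fk b y k (m + 1) := by
    show fan _ _ _ (b k).natAbs = _
    rw [hm]
    rfl
  have n1 : b k * b (k + 1) < 0 → nq (b k) (b (k + 1)) (St b y k).1 (St b y k).2.1 (St b y k).2.2 =
      Fk b y k (m + 2) := by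
    intro hs
    unfold nq
    rw [if_pos hs, hm]
    rfl
  have n2 : ¬ b k * b (k + 1) < 0 →
      nq (b k) (b (k + 1)) (St b y k).1 (St b y k).2.1 (St b y k).2.2 = Fk b y k m := by
    intro hs
    unfold nq
    rw [if_neg hs, hm]
    rfl
  by_cases hs : b k * b (k + 1) < 0
  · rw [if_pos hs, if_pos hs, add_zero]
    have e : RKc b y (k + 1) 0 = RL (LK b y k (b k).natAbs) := by
      unfold RKc LK
      congr 1
      unfold layV lay
      rw [v0, v1, v2, s1, n1 hs, hrec, hm]
      have e1 : fan (St b y k).1 (St b y k).2.1 (St b y k).2.2 (m + 1) = Fk b y k (m + 1) := rfl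
      have e2 : fan (St b y k).1 (St b y k).2.1 (St b y k).2.2 (m + 1 - 1) = Fk b y k m := rfl
      have e3 : fan (St b y k).1 (St b y k).2.1 (St b y k).2.2 (m + 1 + 1) = Fk b y k (m + 2) := rfl
      rw [e1, e2, e3, hrec]
      rw [mul_neg_iff'] at hs
      rcases hs with ⟨h1, h2⟩ | ⟨h1, h2⟩
      · rw [if_neg (by omega), if_pos h1]
        congr 1
        ring
      · rw [if_pos h2, if_neg (by omega)]
        congr 1
        ring
    rw [e, two_mul]
    exact Cq.refl _
  · rw [if_neg hs, if_neg hs, zero_add]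
    have e : RKc b y (k + 1) 0 = RL (LK b y k (b k).natAbs).swap := by
      unfold RKc LK
      congr 1
      unfold layV lay
      rw [v0, v1, v2, s1, n2 hs, hm]
      have e1 : fan (St b y k).1 (St b y k).2.1 (St b y k).2.2 (m + 1) = Fk b y k (m + 1) := rfl
      have e2 : fan (St b y k).1 (St b y k).2.1 (St b y k).2.2 (m + 1 - 1) = Fk b y k m := rfl
      have e3 : fan (St b y k).1 (St b y k).2.1 (St b y k).2.2 (m + 1 + 1) = Fk b y k (m + 2) := rfl
      rw [e1, e2, e3, hrec]
      rw [mul_neg_iff'] at hs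
      rcases lt_or_gt_of_ne hb with h1 | h1
      · rw [if_neg (by omega), if_neg (by omega)]
        unfold Lay.swap
        congr 1
        ring
      · rw [if_pos (by omega), if_pos (by omega)]
        unfold Lay.swap
        congr 1
        ring
    rw [e]
    have hN := h.hN
    have hr := h.run hy (k := k + 1) (by omega) (by omega)
    have hnd := h.nd (k + 1) (by omega)
    have ht : 1 ≤ topN N b (k + 1) := by
      have h6 := h.last2
      unfold topN
      by_cases h5 : k + 1 = N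
      · rw [if_pos (Or.inr h5), h5]
        omega
      · rw [if_neg (by omega)]
        omega
    have hp' : (St b y (k + 1)).1 ≠ 0 := hr.p0
    have hq' : Fk b y (k + 1) 0 ≠ 0 := hr.F0 0 (by omega)
    have hsg := hr.sg 0 (by omega)
    have hq : (St b y k).1 ≠ 0 := hq'
    have hF : Fk b y k (m + 1) ≠ 0 := by rw [← s1]; exact hp'
    have hsum : (St b y k).1 ^ 2 + Fk b y k (m + 1) ^ 2 ≠ 0 := by
      intro h0
      have h1 : sgm ((St b y (k + 1)).1 ^ 2) (U (k + 1) 0) ≠ 0 := by
        unfold sgm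
        have hu1 : 1 - U (k + 1) 0 ≠ 0 := fun h => hnd.1 0 (by omega) (by linear_combination -h)
        exact div_ne_zero (neg_ne_zero.2 (mul_ne_zero (pow_ne_zero 2 hp') (hnd.2 0 (by omega))))
          (pow_ne_zero 2 hu1)
      apply h1
      rw [hsg, s1, show Fk b y (k + 1) 0 = (St b y k).1 from rfl]
      field_simp
      linear_combination h0
    have hM : Fk b y k m * Fk b y k (m + 2) = (St b y k).1 ^ 2 + Fk b y k (m + 1) ^ 2 := by
      have hMk : Mkf (St b y k).1 (St b y k).2.1 (St b y k).2.2 := by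
        rcases Nat.eq_zero_or_pos k with rfl | hk0
        · show Complex.I * y * (y * 0 - Complex.I * y) = y ^ 2 + 0 ^ 2
          linear_combination (-y ^ 2) * Complex.I_sq
        · exact (h.inv hy k hk0 (by omega)).mkf
      have h3 := hMk.fan m
      have h4 := hMk.fan (m + 1)
      unfold Mkf at h3 h4
      change Fk b y k (m + 1) * ((St b y k).1 * Fk b y k m - Fk b y k (m + 1)) =
        (St b y k).1 ^ 2 + Fk b y k m ^ 2 at h3
      rw [hrec]
      linear_combination h3
    apply RL_swap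
    · unfold LK lay
      rw [hm]
      split_ifs
      · exact hq
      · exact hF
    · unfold LK lay
      rw [hm]
      split_ifs
      · exact hF
      · exact hq
    · unfold LK lay
      rw [hm]
      split_ifs
      · exact hM
      · exact hM.trans (add_comm _ _)
    · unfold LK lay
      rw [hm]
      split_ifs
      · show Fk b y k m * Fk b y k (m + 2) ≠ 0
        rw [hM]
        exact hsum
      · show Fk b y k m * Fk b y k (m + 2) ≠ 0
        rw [hM]
        exact hsum

/-- the constants of the turning points -/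
noncomputable def tc (b : ℕ → ℤ) (j : ℕ) : ℂ := if b j * b (j + 1) < 0 then 0 else Real.pi ^ 2 / 2

lemma HS_list (h : GlueN N b Y U) (hy : (1 - U 0 1) * (1 - (U 0 0)⁻¹) = y ^ 2) :
    ∀ n k, 1 ≤ k → k + n = N → Cq (∑ i ∈ range (n + 1), HS N b y (k + i))
      (RKc b y k 0 + rsum (LS' b y 1 k n) + ∑ j ∈ range n, tc b (k + j)) := by
  intro n
  induction n with
  | zero =>
    intro k hk hn
    rw [add_zero] at hn
    subst hn
    have h2 := h.last2
    rw [sum_range_one, sum_range_zero, add_zero, add_zero, LS_zero, rsum_run]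
    unfold HS nlN
    rw [if_pos (Or.inr rfl), if_pos (Or.inr rfl)]
    obtain ⟨m, hm⟩ : ∃ m, (b k).natAbs = m + 2 := ⟨(b k).natAbs - 2, by omega⟩
    rw [hm, Nat.add_sub_cancel, show m + 2 - 1 - 1 = m by omega]
    rcases m with _ | m
    · simpa using Cq.refl (RKc b y k 0)
    · rw [tele_c, sum_range_succ _ m, RK_eq b y hk m]
      have e : ∑ l ∈ range m, 2 * RKc b y k (l + 1) = ∑ l ∈ range m, 2 * RL (LK b y k (1 + l)) :=
        sum_congr rfl fun l _ => by rw [RK_eq b y hk l, add_comm 1 l]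
      rw [e, add_comm 1 m]
      refine ⟨0, ?_⟩
      push_cast
      ring
  | succ n ih =>
    intro k hk hn
    have h2 := ih (k + 1) (by omega) (by omega)
    have h3 := turn_halves h hy (k := k) (by omega)
    have hb := h.b0 k (by omega)
    obtain ⟨m, hm⟩ : ∃ m, (b k).natAbs = m + 1 := ⟨(b k).natAbs - 1, by omega⟩
    have h1 : HS N b y k = RKc b y k 0 + ∑ l ∈ range m, 2 * RL (LK b y k (1 + l)) +
        RL (LK b y k (b k).natAbs) := by
      unfold HS nlN
      rw [if_neg (by omega), if_neg (by omega), hm, tele_c, RK_eq b y hk m, add_zero]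
      have e : ∑ l ∈ range m, 2 * RKc b y k (l + 1) = ∑ l ∈ range m, 2 * RL (LK b y k (1 + l)) :=
        sum_congr rfl fun l _ => by rw [RK_eq b y hk l, add_comm 1 l]
      rw [e]
    rw [sum_range_succ', add_zero, LS_succ, rsum_append, rsum_append, rsum_run, rsum_if, hm,
      Nat.add_sub_cancel, sum_range_succ' (fun j => tc b (k + j)), add_zero]
    have e1 : ∑ i ∈ range (n + 1), HS N b y (k + (i + 1)) = ∑ i ∈ range (n + 1), HS N b y (k + 1 + i) :=
      sum_congr rfl fun i _ => by rw [show k + (i + 1) = k + 1 + i by ring]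
    have e2 : ∑ j ∈ range n, tc b (k + (j + 1)) = ∑ j ∈ range n, tc b (k + 1 + j) :=
      sum_congr rfl fun i _ => by rw [show k + (i + 1) = k + 1 + i by ring]
    rw [e1, e2, h1, ← hm]
    obtain ⟨u, hu⟩ := h2
    obtain ⟨v, hv⟩ := h3
    refine ⟨u + v, ?_⟩
    have e3 : tc b k = if b k * b (k + 1) < 0 then 0 else (Real.pi : ℂ) ^ 2 / 2 := rfl
    rw [e3]
    push_cast
    linear_combination hu + hv

/-- The sum over the halves is the sum over the layers up to the turning points between digits of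
equal signs. -/
theorem HS_sum (h : GlueN N b Y U) (hy : (1 - U 0 1) * (1 - (U 0 0)⁻¹) = y ^ 2) :
    Cq (∑ k ∈ range (N + 1), HS N b y k) (rsum (LS' b y 2 0 N) +
      Real.pi ^ 2 / 2 * (((range N).filter fun j => ¬ b j * b (j + 1) < 0).card : ℂ)) := by
  obtain ⟨n, rfl⟩ : ∃ n, N = n + 1 := ⟨N - 1, by have := h.hN; omega⟩
  have hc : (Real.pi : ℂ) ^ 2 / 2 *
      (((range (n + 1)).filter fun j => ¬ b j * b (j + 1) < 0).card : ℂ) =
      ∑ j ∈ range (n + 1), tc b j := by
    rw [card_filter, Nat.cast_sum, mul_sum]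
    refine sum_congr rfl fun j _ => ?_
    unfold tc
    by_cases hs : b j * b (j + 1) < 0
    · rw [if_neg (not_not.2 hs), if_pos hs]
      simp
    · rw [if_pos hs, if_neg hs]
      simp
  have h2 := HS_list h hy n 1 le_rfl (by omega)
  have h3 := turn_halves h hy (k := 0) (by omega)
  have hf := h.first2
  obtain ⟨m, hm⟩ : ∃ m, (b 0).natAbs = m + 2 := ⟨(b 0).natAbs - 2, by omega⟩
  have h1 : HS (n + 1) b y 0 = ∑ l ∈ range m, 2 * RL (LK b y 0 (2 + l)) +
      RL (LK b y 0 (b 0).natAbs) := by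
    unfold HS nlN
    rw [if_pos (Or.inl rfl), if_pos (Or.inl rfl), hm, Nat.add_sub_cancel, RK_first b y (by omega), hm,
      show m + 2 - m = 2 by omega]
    rcases m with _ | m
    · simp
    · rw [tele_c, RK_first b y (by omega), RK_first b y (by omega), hm, Nat.sub_zero,
        show m + 1 + 2 - (m + 1) = 2 by omega]
      have e : ∑ l ∈ range m, 2 * RKc b y 0 (l + 1) = ∑ l ∈ range m, 2 * RL (LK b y 0 (2 + (l + 1))) := by
        rw [← sum_range_reflect]
        refine sum_congr rfl fun l hl => ?_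
        rw [mem_range] at hl
        rw [RK_first b y (by omega), hm]
        congr 3
        omega
      rw [e, sum_range_succ' _ m]
      ring
  rw [hc, LS_succ, rsum_append, rsum_append, rsum_run, rsum_if,
    sum_range_succ' (fun k => HS (n + 1) b y k) (n + 1), sum_range_succ' (fun j => tc b j) n, h1]
  have e1 : ∑ i ∈ range (n + 1), HS (n + 1) b y (i + 1) = ∑ i ∈ range (n + 1), HS (n + 1) b y (1 + i) :=
    sum_congr rfl fun i _ => by rw [add_comm i 1]
  have e2 : ∑ j ∈ range n, tc b (j + 1) = ∑ j ∈ range n, tc b (1 + j) :=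
    sum_congr rfl fun i _ => by rw [add_comm i 1]
  rw [e1, e2, show (b 0).natAbs - 2 = m by omega]
  obtain ⟨u, hu⟩ := h2
  obtain ⟨v, hv⟩ := h3
  refine ⟨u + v, ?_⟩
  have e3 : tc b 0 = if b 0 * b (0 + 1) < 0 then 0 else (Real.pi : ℂ) ^ 2 / 2 := rfl
  rw [e3]
  push_cast
  simp only [zero_add] at *
  linear_combination hu + hv

end Pool.Agent.Work.MP_b30479_gt.G2
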