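import Pool.Agent.Work.MP_b30479_gt.G2.CDefs
import Pool.Agent.Work.MP_b30479_gt.LT.Core

/-!
# At a critical point the real part of the potential is a sum of Bloch-Wigner values
-/

namespace Pool.Agent.Work.MP_b30479_gt.G2

open Finset VOL
open Pool.Agent.Work.MP_b30479_gt.LT (BW BW_ee)

variable {D Z K : Type} [Fintype D] [Fintype Z] [Fintype K] [DecidableEq D]

theorem vol_dat (S : Dat D Z K) (hq : ∀ i j, (S.q i j).re = 0) (hr : ∀ i, (S.r i).re = 0)
    {z : D ⊕ Z → ℂ} (hin : ∀ k, 0 < (S.form k z).re ∧ (S.form k z).re < 1)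
    (hc : ∀ i, S.dT z i = 0) :
    2 * Real.pi * (S.T z).re = -∑ k, BW (LT.ee (S.form k z)) := by
  have hB : ∀ k, BW (LT.ee (S.form k z)) =
      -(2 * Real.pi * ((Fh (S.form k z)).re + (S.form k z).im * (ph (S.form k z)).im)) :=
    fun k => BW_ee (hin k)
  rw [sum_congr rfl fun k _ => hB k, sum_neg_distrib, neg_neg, ← mul_sum]
  congr 1
  rw [sum_add_distrib]
  unfold Dat.T
  rw [Complex.add_re, Complex.re_sum, add_comm]
  congr 1
  -- the imaginary part of a form
  have e1 : ∀ k, (S.form k z).im = ∑ i, S.A k i * (z i).im := by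
    intro k
    unfold Dat.form
    rw [Complex.add_im, Complex.ofReal_im, zero_add, Complex.im_sum]
    refine sum_congr rfl fun i _ => ?_
    rw [show ((S.A k i : ℤ) : ℂ) = ((S.A k i : ℝ) : ℂ) by push_cast; rfl, Complex.im_ofReal_mul]
  have e2 : ∑ k, (S.form k z).im * (ph (S.form k z)).im =
      ∑ i, (z i).im * (∑ k, S.A k i * ph (S.form k z)).im := by
    simp_rw [e1, sum_mul]
    rw [sum_comm]
    refine sum_congr rfl fun i _ => ?_
    rw [Complex.im_sum, mul_sum]
    refine sum_congr rfl fun k _ => ?_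
    rw [show ((S.A k i : ℤ) : ℂ) = ((S.A k i : ℝ) : ℂ) by push_cast; rfl, Complex.im_ofReal_mul]
    ring
  have e3 : ∀ i, (∑ k, S.A k i * ph (S.form k z)).im =
      -((∑ j, (S.q i j + S.q j i) * z j).im + (S.r i).im +
        (Sum.elim (fun _ => 0) (fun v => 2 * Real.pi * Complex.I * (S.b v * z (.inr v) + 1)) i).im) := by
    intro i
    have h := congrArg Complex.im (hc i)
    unfold Dat.dT at h
    simp only [Complex.add_im, Complex.zero_im] at h
    linarith
  rw [e2]
  simp_rw [e3]
  -- the quadratic part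
  have q1 : ∀ i j, ((S.q i j + S.q j i) * z j).im = ((S.q i j).im + (S.q j i).im) * (z j).re := by
    intro i j
    rw [Complex.mul_im, Complex.add_re, Complex.add_im, hq, hq]
    ring
  have q2 : S.quad z = S.quad z := rfl
  have q3 : (S.quad z).re = -∑ i, ((z i).im * ∑ j, ((S.q i j).im + (S.q j i).im) * (z j).re) -
      ∑ i, (S.r i).im * (z i).im := by
    unfold Dat.quad
    rw [Complex.add_re, Complex.re_sum, Complex.re_sum]
    have a1 : ∀ i, (S.r i * z i).re = -((S.r i).im * (z i).im) := by
      intro i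
      rw [Complex.mul_re, hr]
      ring
    rw [sum_congr rfl fun i _ => a1 i, sum_neg_distrib, sub_eq_add_neg]
    congr 1
    have a2 : ∀ i j, (S.q i j * z i * z j).re =
        -((z i).im * ((S.q i j).im * (z j).re)) - (z j).im * ((S.q i j).im * (z i).re) := by
      intro i j
      rw [Complex.mul_re, Complex.mul_re, Complex.mul_im, hq]
      ring
    have a3 : ∑ i, (∑ j, S.q i j * z i * z j).re =
        -∑ i, ∑ j, (z i).im * ((S.q i j).im * (z j).re) -
          ∑ i, ∑ j, (z j).im * ((S.q i j).im * (z i).re) := by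
      rw [← sum_neg_distrib, ← sum_sub_distrib]
      refine sum_congr rfl fun i _ => ?_
      rw [Complex.re_sum, ← sum_neg_distrib, ← sum_sub_distrib]
      exact sum_congr rfl fun j _ => a2 i j
    rw [a3, sum_comm (s := univ) (t := univ) (f := fun i j => (z j).im * ((S.q i j).im * (z i).re)),
      neg_sub_left, ← sum_add_distrib]
    congr 1
    refine sum_congr rfl fun i _ => ?_
    rw [← sum_add_distrib, mul_sum]
    refine sum_congr rfl fun j _ => ?_
    ring
  have q4 : (∑ v, (Real.pi * Complex.I * S.b v * z (.inr v) ^ 2 +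
      2 * Real.pi * Complex.I * z (.inr v))).re =
      -∑ i, (z i).im * (Sum.elim (fun _ => 0)
        (fun v => 2 * Real.pi * Complex.I * (S.b v * z (.inr v) + 1)) i).im := by
    rw [Complex.re_sum, Fintype.sum_sum_type]
    simp only [Sum.elim_inl, Sum.elim_inr, Complex.zero_im, mul_zero, sum_const_zero, zero_add]
    rw [← sum_neg_distrib]
    refine sum_congr rfl fun v _ => ?_
    have a1 : (2 * Real.pi * Complex.I * (S.b v * z (.inr v) + 1) : ℂ).im =
        2 * Real.pi * (S.b v * (z (.inr v)).re + 1) := by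
      simp [Complex.mul_re, Complex.mul_im]
    rw [a1, sq]
    simp [Complex.mul_re, Complex.mul_im]
    ring
  rw [Complex.add_re, q3, q4]
  have q5 : ∀ i, (z i).im * -((∑ j, (S.q i j + S.q j i) * z j).im + (S.r i).im +
        (Sum.elim (fun _ => 0) (fun v => 2 * Real.pi * Complex.I * (S.b v * z (.inr v) + 1)) i).im) =
      -((z i).im * ∑ j, ((S.q i j).im + (S.q j i).im) * (z j).re) - (S.r i).im * (z i).im -
        (z i).im * (Sum.elim (fun _ => 0)
          (fun v => 2 * Real.pi * Complex.I * (S.b v * z (.inr v) + 1)) i).im := by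
    intro i
    rw [Complex.im_sum, sum_congr rfl fun j _ => q1 i j]
    ring
  rw [sum_congr rfl fun i _ => q5 i, sum_sub_distrib, sum_sub_distrib, sum_neg_distrib]
  ring

end Pool.Agent.Work.MP_b30479_gt.G2
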