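import Pool.Agent.Work.MP_b30479_gt.G2.GeoRunA
import Pool.Agent.Work.MP_b30479_gt.G2.VolDat
import Pool.Agent.Work.MP_b30479_gt.LT.H.AlgH

/-!
# From the saddle point to the gluing equations and the volume

`Y_j = e^{2πi w_j}`.  For every twist region `exp (ldT ..)` at a hinge is `hf` of the chain, so that
`dT = 0` at the hinge `j` is the equation `turn`; the equation of the inner variable gives the
missing edge equation.  The volume: `vol_dat` and, for every twist region, the five-term or the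
seven-term relation.
-/

namespace Pool.Agent.Work.MP_b30479_gt.G2

open Finset VOL
open Pool.Agent.Work.MP_b30479_gt.LT (ee BW)

/-- the types which are used: `threeR` at the left end, `threeL` at the right end -/
structure GTyp {M : ℕ} (b : Fin (M + 2) → ℤ) (t : Fin (M + 2) → Typ) : Prop where
  ok : ∀ i, (t i).IsOk (b i)
  four : ∀ i, t i ≠ .fourL ∧ t i ≠ .fourR
  ring : ∀ i, 2 ≤ (b i).natAbs ∨ t i = .one
  first : t 0 ≠ .one ∧ t 0 ≠ .threeL
  last : t (Fin.last (M + 1)) ≠ .one ∧ t (Fin.last (M + 1)) ≠ .threeR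

/-- the chain of an inner twist region; local variables `x` -/
noncomputable def lU (t : Typ) (b : ℤ) (x : Fin 3 → ℂ) (l : ℕ) : ℂ :=
  match t with
  | .one => if l = 0 then hat b (ee (x 0)) else (hat b (ee (x 2)))⁻¹
  | .two => if l = 0 then hat b (ee (x 0)) else if l = 1 then u2 (hat b (ee (x 0))) (hat b (ee (x 2)))
      else (hat b (ee (x 2)))⁻¹
  | .threeL => if l = 0 then hat b (ee (x 0)) else if l = 1 then hat b (ee (x 1)) else
      if l = 2 then u2 (hat b (ee (x 1))) (hat b (ee (x 2))) else (hat b (ee (x 2)))⁻¹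
  | .threeR => if l = 0 then hat b (ee (x 0)) else
      if l = 1 then u2 (hat b (ee (x 0))) (hat b (ee (x 1))) else
      if l = 2 then (hat b (ee (x 1)))⁻¹ else (hat b (ee (x 2)))⁻¹
  | .fourL => 0
  | .fourR => 0
  | .ring => rC b (x 0) (x 1) l

/-- the chain of a twist region at an end of the word; `w` is the hinge and `m` the inner variable -/
noncomputable def lE (t : Typ) (b : ℤ) (w m : ℂ) (l : ℕ) : ℂ :=
  match t with
  | .one => 0
  | .two => if l = 0 then hat b (ee w) else 0
  | .threeL => if l = 0 then hat b (ee w) else if l = 1 then hat b (ee m) else 0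
  | .threeR => if l = 0 then hat b (ee w) else if l = 1 then hat b (ee m) else 0
  | .fourL => 0
  | .fourR => 0
  | .ring => rC b w m l

section
variable {M : ℕ} (b : Fin (M + 2) → ℤ) (t : Fin (M + 2) → Typ)
  (z : DD (M := M + 1) t ⊕ ZZ (M := M + 1) t → ℂ)

/-- the shapes of the turning points -/
noncomputable def gY (j : Fin (M + 1)) : ℂ := ee (z (.inl (.inl j)))

/-- the chains -/
noncomputable def gU (i : Fin (M + 2)) : ℕ → ℂ :=
  if i = 0 then lE (t i) (b i) (xx t i z 2) (xx t i z 1)
  else if i = Fin.last (M + 1) then lE (t i) (b i) (xx t i z 0) (xx t i z 1)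
  else lU (t i) (b i) (xx t i z)

/-- nondegeneracy of the rings -/
structure GNv : Prop where
  sz : ∀ i, t i = .ring → Complex.sin (2 * Real.pi * xx t i z 1) ≠ 0
  first : t 0 = .ring → Nv (b 0) (xx t 0 z 2) (xx t 0 z 1)
  nv : ∀ i, i ≠ 0 → t i = .ring → Nv (b i) (xx t i z 0) (xx t i z 1)

end

/-! ### local variables -/

section
variable {M : ℕ} {b : Fin (M + 2) → ℤ} {t : Fin (M + 2) → Typ}
  {z : DD (M := M + 1) t ⊕ ZZ (M := M + 1) t → ℂ}

lemma fac_strip (hin : ∀ k, 0 < ((wdat (M := M + 1) t b).form k z).re ∧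
    ((wdat (M := M + 1) t b).form k z).re < 1) (i : Fin (M + 2)) {f : Fac}
    (hf : f ∈ facs (t i) (decide (i ≠ 0)) (decide (i ≠ Fin.last (M + 1)))) :
    f.form (xx t i z) ∈ strip := by
  obtain ⟨n, hn⟩ := List.get_of_mem hf
  have h := hin ⟨i, n⟩
  rw [wdat_form] at h
  have e : fac t ⟨i, n⟩ = f := hn
  rw [e] at h
  exact h

lemma cf_hinge (h : Fin (M + 1)) (F : Fin (M + 2) → Fin 3 → ℂ) :
    ∑ i, ∑ p, (cf (M := M + 1) t i p (.inl (.inl h)) : ℂ) * F i p = F h.castSucc 2 + F h.succ 0 := by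
  have e : ∀ i, ∑ p, (cf (M := M + 1) t i p (.inl (.inl h)) : ℂ) * F i p =
      (if h.succ = i then F i 0 else 0) + (if h.castSucc = i then F i 2 else 0) := by
    intro i
    rw [Fin.sum_univ_three]
    by_cases h1 : h.succ = i <;> by_cases h2 : h.castSucc = i <;> simp [cf, h1, h2]
  rw [Finset.sum_congr rfl fun i _ => e i, Finset.sum_add_distrib]
  simp [add_comm]

lemma cf_mid (m : {i : Fin (M + 2) // (t i).isMid = true}) (F : Fin (M + 2) → Fin 3 → ℂ) :
    ∑ i, ∑ p, (cf (M := M + 1) t i p (.inl (.inr m)) : ℂ) * F i p = F m.1 1 := by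
  have e : ∀ i, ∑ p, (cf (M := M + 1) t i p (.inl (.inr m)) : ℂ) * F i p =
      (if m.1 = i then F i 1 else 0) := by
    intro i
    rw [Fin.sum_univ_three]
    by_cases h1 : m.1 = i <;> simp [cf, h1]
  rw [Finset.sum_congr rfl fun i _ => e i]
  simp

lemma cf_ring (v : ZZ (M := M + 1) t) (F : Fin (M + 2) → Fin 3 → ℂ) :
    ∑ i, ∑ p, (cf (M := M + 1) t i p (.inr v) : ℂ) * F i p = F v.1 1 := by
  have e : ∀ i, ∑ p, (cf (M := M + 1) t i p (.inr v) : ℂ) * F i p =
      (if v.1 = i then F i 1 else 0) := by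
    intro i
    rw [Fin.sum_univ_three]
    by_cases h1 : v.1 = i <;> simp [cf, h1]
  rw [Finset.sum_congr rfl fun i _ => e i]
  simp

/-- the equation of a hinge -/
lemma grT_hinge (hc : ∀ i, (wdat (M := M + 1) t b).dT z i = 0) (h : Fin (M + 1)) :
    ldT (t h.castSucc) (b h.castSucc) (decide (h.castSucc ≠ 0)) true (xx t h.castSucc z) 2 +
      ldT (t h.succ) (b h.succ) true (decide (h.succ ≠ Fin.last (M + 1))) (xx t h.succ z) 0 = 0 := by
  have h1 := hc (.inl (.inl h))
  rw [wdat_dT, cf_hinge] at h1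
  simpa [Fin.castSucc_ne_last, Fin.succ_ne_zero] using h1

/-- the equation of an inner variable -/
lemma grT_mid (hc : ∀ i, (wdat (M := M + 1) t b).dT z i = 0) {i : Fin (M + 2)}
    (hi : (t i).isMid = true) :
    ldT (t i) (b i) (decide (i ≠ 0)) (decide (i ≠ Fin.last (M + 1))) (xx t i z) 1 = 0 := by
  have h1 := hc (.inl (.inr ⟨i, hi⟩))
  rw [wdat_dT, cf_mid] at h1
  simpa using h1

/-- the equation of a ring variable -/
lemma grT_ring (hc : ∀ i, (wdat (M := M + 1) t b).dT z i = 0) {i : Fin (M + 2)}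
    (hi : t i = .ring) :
    ((if i ≠ 0 then rP (xx t i z 0) (xx t i z 1) else 0) +
      if i ≠ Fin.last (M + 1) then rP (xx t i z 2) (xx t i z 1) else 0) =
      Real.pi * Complex.I * (b i * xx t i z 1 + 1) := by
  have hi' : (t i).isRing = true := by rw [hi]; rfl
  have h1 := hc (.inr ⟨i, hi'⟩)
  rw [wdat_dT, cf_ring] at h1
  simp only [Sum.elim_inr] at h1
  rw [hi, ldT_ring_1, ← xx_ring t hi' z] at h1
  simp only [decide_eq_true_eq] at h1
  split_ifs at h1 ⊢ <;> linear_combination -h1 / 2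

end

/-! ### the chain of a twist region -/

/-- the arguments of all factors are in the strip -/
def LS (t : Typ) (l r : Bool) (x : Fin 3 → ℂ) : Prop := ∀ f ∈ facs t l r, f.form x ∈ strip

/-- the chain of a twist region; `l`, `r`: there is a left (right) hinge -/
noncomputable def lC (t : Typ) (b : ℤ) (l r : Bool) (x : Fin 3 → ℂ) : ℕ → ℂ :=
  if l = false then lE t b (x 2) (x 1) else if r = false then lE t b (x 0) (x 1) else lU t b x

lemma lC_false (t : Typ) (b : ℤ) (r : Bool) (x : Fin 3 → ℂ) :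
    lC t b false r x = lE t b (x 2) (x 1) := rfl

lemma lC_tf (t : Typ) (b : ℤ) (x : Fin 3 → ℂ) : lC t b true false x = lE t b (x 0) (x 1) := rfl

lemma lC_tt (t : Typ) (b : ℤ) (x : Fin 3 → ℂ) : lC t b true true x = lU t b x := rfl

section
variable {b : ℤ} {l r : Bool} {x : Fin 3 → ℂ}

lemma LS_one_l (h : LS .one true r x) : x 0 ∈ strip ∧ x 0 + x 2 ∈ strip := by
  have h1 := h ⟨![1, 0, 1], 0, 1 / 2⟩ (by simp [facs])
  have h2 := h ⟨![-1, 0, 0], 1, -(1 / 2)⟩ (by simp [facs])
  simp only [Fac.form, Fin.sum_univ_three] at h1 h2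
  simp at h1 h2
  exact ⟨strip_one_sub'.mp (by rwa [sub_eq_add_neg]), h1⟩

lemma LS_one_r (h : LS .one l true x) : x 2 ∈ strip ∧ x 0 + x 2 ∈ strip := by
  have h1 := h ⟨![1, 0, 1], 0, 1 / 2⟩ (by simp [facs])
  have h2 := h ⟨![0, 0, -1], 1, -(1 / 2)⟩ (by simp [facs])
  simp only [Fac.form, Fin.sum_univ_three] at h1 h2
  simp at h1 h2
  exact ⟨strip_one_sub'.mp (by rwa [sub_eq_add_neg]), h1⟩

lemma LS_two_l (h : LS .two true r x) : x 0 ∈ strip ∧ x 0 + x 2 ∈ strip := by
  have h1 := h ⟨![1, 0, 1], 0, 1 / 2⟩ (by simp [facs])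
  have h2 := h ⟨![-1, 0, 0], 1, -(1 / 2)⟩ (by simp [facs, hL])
  simp only [Fac.form, Fin.sum_univ_three] at h1 h2
  simp at h1 h2
  exact ⟨strip_one_sub'.mp (by rwa [sub_eq_add_neg]), h1⟩

lemma LS_two_r (h : LS .two l true x) : x 2 ∈ strip ∧ x 0 + x 2 ∈ strip := by
  have h1 := h ⟨![1, 0, 1], 0, 1 / 2⟩ (by simp [facs])
  have h2 := h ⟨![0, 0, -1], 1, -(1 / 2)⟩ (by simp [facs, hR])
  simp only [Fac.form, Fin.sum_univ_three] at h1 h2
  simp at h1 h2
  exact ⟨strip_one_sub'.mp (by rwa [sub_eq_add_neg]), h1⟩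

lemma LS_threeL (h : LS .threeL l r x) : x 1 ∈ strip ∧ x 1 + x 2 ∈ strip ∧ x 1 - x 0 ∈ strip := by
  have h1 := h ⟨![0, 1, 1], 0, 1 / 2⟩ (by simp [facs])
  have h2 := h ⟨![1, -1, 0], 1, -(1 / 2)⟩ (by simp [facs])
  have h3 := h ⟨![0, -1, 0], 1, -(1 / 2)⟩ (by simp [facs])
  simp only [Fac.form, Fin.sum_univ_three] at h1 h2 h3
  simp at h1 h2 h3
  exact ⟨strip_one_sub'.mp (by rwa [sub_eq_add_neg]), h1,
    strip_one_sub'.mp (by rwa [show 1 - (x 1 - x 0) = 1 + (x 0 + -x 1) by ring])⟩

lemma LS_threeL_l (h : LS .threeL true r x) : x 0 ∈ strip := by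
  have h2 := h ⟨![-1, 0, 0], 1, -(1 / 2)⟩ (by simp [facs])
  simp only [Fac.form, Fin.sum_univ_three] at h2
  simp at h2
  exact strip_one_sub'.mp (by rwa [sub_eq_add_neg])

lemma LS_threeL_r (h : LS .threeL l true x) : x 2 ∈ strip := by
  have h2 := h ⟨![0, 0, -1], 1, -(1 / 2)⟩ (by simp [facs, hR])
  simp only [Fac.form, Fin.sum_univ_three] at h2
  simp at h2
  exact strip_one_sub'.mp (by rwa [sub_eq_add_neg])

lemma LS_threeR (h : LS .threeR l r x) : x 1 ∈ strip ∧ x 0 + x 1 ∈ strip ∧ x 1 - x 2 ∈ strip := by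
  have h1 := h ⟨![1, 1, 0], 0, 1 / 2⟩ (by simp [facs])
  have h2 := h ⟨![0, -1, 1], 1, -(1 / 2)⟩ (by simp [facs])
  have h3 := h ⟨![0, -1, 0], 1, -(1 / 2)⟩ (by simp [facs])
  simp only [Fac.form, Fin.sum_univ_three] at h1 h2 h3
  simp at h1 h2 h3
  exact ⟨strip_one_sub'.mp (by rwa [sub_eq_add_neg]), h1,
    strip_one_sub'.mp (by rwa [show 1 - (x 1 - x 2) = 1 + (-x 1 + x 2) by ring])⟩

lemma LS_threeR_l (h : LS .threeR true r x) : x 0 ∈ strip := by
  have h2 := h ⟨![-1, 0, 0], 1, -(1 / 2)⟩ (by simp [facs, hL])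
  simp only [Fac.form, Fin.sum_univ_three] at h2
  simp at h2
  exact strip_one_sub'.mp (by rwa [sub_eq_add_neg])

lemma LS_threeR_r (h : LS .threeR l true x) : x 2 ∈ strip := by
  have h2 := h ⟨![0, 0, -1], 1, -(1 / 2)⟩ (by simp [facs])
  simp only [Fac.form, Fin.sum_univ_three] at h2
  simp at h2
  exact strip_one_sub'.mp (by rwa [sub_eq_add_neg])

lemma LS_ring_l (h : LS .ring true r x) (hs : Complex.sin (2 * Real.pi * x 1) ≠ 0) :
    RHg (x 0) (x 1) := by
  have h1 := h ⟨![1, 1, 0], 1 / 2, 0⟩ (by simp [facs])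
  have h2 := h ⟨![1, -1, 0], 1 / 2, 0⟩ (by simp [facs])
  have h3 := h ⟨![-1, 0, 0], 1, -(1 / 2)⟩ (by simp [facs, hL])
  simp only [Fac.form, Fin.sum_univ_three] at h1 h2 h3
  simp at h1 h2 h3
  exact ⟨strip_one_sub'.mp (by rwa [sub_eq_add_neg]),
    by rwa [show x 0 + x 1 + 1 / 2 = 2⁻¹ + (x 0 + x 1) by ring],
    by rwa [show x 0 - x 1 + 1 / 2 = 2⁻¹ + (x 0 + -x 1) by ring], hs⟩

lemma LS_ring_r (h : LS .ring l true x) (hs : Complex.sin (2 * Real.pi * x 1) ≠ 0) :
    RHg (x 2) (x 1) := by
  have h1 := h ⟨![0, 1, 1], 1 / 2, 0⟩ (by simp [facs])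
  have h2 := h ⟨![0, -1, 1], 1 / 2, 0⟩ (by simp [facs])
  have h3 := h ⟨![0, 0, -1], 1, -(1 / 2)⟩ (by simp [facs, hR])
  simp only [Fac.form, Fin.sum_univ_three] at h1 h2 h3
  simp at h1 h2 h3
  exact ⟨strip_one_sub'.mp (by rwa [sub_eq_add_neg]),
    by rwa [show x 2 + x 1 + 1 / 2 = 2⁻¹ + (x 1 + x 2) by ring],
    by rwa [show x 2 - x 1 + 1 / 2 = 2⁻¹ + (-x 1 + x 2) by ring], hs⟩

/-- the local hypotheses of a twist region -/
structure LH (t : Typ) (b : ℤ) (l r : Bool) (x : Fin 3 → ℂ) : Prop where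
  ls : LS t l r x
  ok : t.IsOk b
  big : 2 ≤ b.natAbs ∨ t = .one
  four : t ≠ .fourL ∧ t ≠ .fourR
  lr : l = true ∨ r = true
  l0 : l = false → x 0 = 0 ∧ t ≠ .one ∧ t ≠ .threeL
  rr0 : r = false → x 2 = 0 ∧ t ≠ .one ∧ t ≠ .threeR
  mid : t.isMid = true → ldT t b l r x 1 = 0
  ring : t = .ring → Complex.sin (2 * Real.pi * x 1) ≠ 0 ∧
    ((if l = true then rP (x 0) (x 1) else 0) + if r = true then rP (x 2) (x 1) else 0) =
      Real.pi * Complex.I * (b * x 1 + 1) ∧
    (l = false → Nv b (x 2) (x 1)) ∧ (l = true → Nv b (x 0) (x 1))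

lemma ee_zero : ee 0 = 1 := by
  unfold ee
  simp

lemma hat_zero (b : ℤ) : hat b (ee 0) = 1 := by
  unfold hat
  rw [ee_zero]
  split_ifs <;> simp

variable {t : Typ}

lemma hf_l (h : LH t b true r x) : Complex.exp (ldT t b true r x 0) = hf b (ee (x 0)) (lC t b true r x 1) := by
  cases t with
  | one =>
    obtain ⟨h1, h2⟩ := LS_one_l h.ls
    rw [ldT_one_0, e_one h1 h2]
    cases r with
    | true => rfl
    | false => exact absurd rfl (h.rr0 rfl).2.1
  | two =>
    obtain ⟨h1, h2⟩ := LS_two_l h.ls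
    rw [ldT_two_0, e_two h1 h2]
    cases r with
    | true => rfl
    | false =>
      rw [(h.rr0 rfl).1, hat_zero, u2_one]
      rfl
  | threeL =>
    obtain ⟨h1, h2, h3⟩ := LS_threeL h.ls
    rw [ldT_threeL_0, e_three0 (LS_threeL_l h.ls) h3]
    cases r <;> rfl
  | threeR =>
    obtain ⟨h1, h2, h3⟩ := LS_threeR h.ls
    rw [ldT_threeR_0, e_two (LS_threeR_l h.ls) h2]
    cases r with
    | true => rfl
    | false => exact absurd rfl (h.rr0 rfl).2.2
  | fourL => exact absurd rfl h.four.1
  | fourR => exact absurd rfl h.four.2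
  | ring =>
    have h1 := LS_ring_l h.ls (h.ring rfl).1
    rw [ldT_ring_0, ← ring_hf (b := b) h1]
    cases r <;> rfl

lemma hf_r (h : LH t b l true x) : Complex.exp (ldT t b l true x 2) =
    hf b (ee (x 2)) (if l = false then lC t b l true x 1 else (lC t b l true x (b.natAbs - 1))⁻¹) := by
  have hok := h.ok
  cases t with
  | one =>
    obtain ⟨h1, h2⟩ := LS_one_r h.ls
    have hb : b.natAbs = 1 := hok
    rw [ldT_one_2, add_comm (x 0), e_one h1 (by rwa [add_comm])]
    cases l with
    | true =>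
      rw [if_neg (by simp), hb]
      rfl
    | false => exact absurd rfl (h.l0 rfl).2.1
  | two =>
    obtain ⟨h1, h2⟩ := LS_two_r h.ls
    have hb : b.natAbs = 2 := hok
    rw [ldT_two_2, add_comm (x 0), e_two h1 (by rwa [add_comm])]
    cases l with
    | true =>
      rw [if_neg (by simp), hb, ← u2_inv]
      rfl
    | false =>
      rw [(h.l0 rfl).1, hat_zero, u2_one, if_pos rfl]
      rfl
  | threeL =>
    obtain ⟨h1, h2, h3⟩ := LS_threeL h.ls
    have hb : b.natAbs = 3 := hok
    rw [ldT_threeL_2, add_comm (x 1), e_two (LS_threeL_r h.ls) (by rwa [add_comm])]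
    cases l with
    | true =>
      rw [if_neg (by simp), hb, ← u2_inv]
      rfl
    | false => exact absurd rfl (h.l0 rfl).2.2
  | threeR =>
    obtain ⟨h1, h2, h3⟩ := LS_threeR h.ls
    have hb : b.natAbs = 3 := hok
    rw [ldT_threeR_2, e_three0 (LS_threeR_r h.ls) h3]
    cases l with
    | true =>
      rw [if_neg (by simp), hb, ← inv_inv (hat b (ee (x 1)))]
      rfl
    | false => rfl
  | fourL => exact absurd rfl h.four.1
  | fourR => exact absurd rfl h.four.2
  | ring =>
    have h1 := LS_ring_r h.ls (h.ring rfl).1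
    cases l with
    | true =>
      have h2 := (h.ring rfl).2.1
      simp only [if_true] at h2
      rw [ldT_ring_2, if_neg (by simp)]
      exact (ring_hf' hok h1 h2).symm
    | false =>
      rw [ldT_ring_2, if_pos rfl]
      exact (ring_hf (b := b) h1).symm

lemma ring_eq_tt (h : LH .ring b true true x) :
    rP (x 0) (x 1) + rP (x 2) (x 1) = Real.pi * Complex.I * (b * x 1 + 1) := by
  have h2 := (h.ring rfl).2.1
  simpa using h2

lemma run_tt (h : LH t b true true x) : Run b (ee (x 0)) (ee (x 2)) (lC t b true true x) := by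
  have hok := h.ok
  cases t with
  | one =>
    have hb : b.natAbs = 1 := hok
    refine ⟨rfl, ?_, fun l hl => absurd hl (by omega)⟩
    rw [hb]
    exact inv_mul_cancel₀ (hat_ne b (x 2))
  | two =>
    obtain ⟨h1, h2⟩ := LS_two_l h.ls
    have hb : b.natAbs = 2 := hok
    refine ⟨rfl, ?_, fun l hl => ?_⟩
    · rw [hb]
      exact inv_mul_cancel₀ (hat_ne b (x 2))
    · obtain rfl : l = 0 := by omega
      exact u2_edge (one_sub_hat b h1) (hat_ne b (x 2))
  | threeL =>
    obtain ⟨h1, h2, h3⟩ := LS_threeL h.ls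
    have hb : b.natAbs = 3 := hok
    refine ⟨rfl, ?_, fun l hl => ?_⟩
    · rw [hb]
      exact inv_mul_cancel₀ (hat_ne b (x 2))
    · have hm := h.mid rfl
      rw [ldT_threeL_1] at hm
      have hm' := e_three1 (b := b) h1 h2 h3 (by rw [hm, Complex.exp_zero])
      rcases (by omega : l = 0 ∨ l = 1) with rfl | rfl
      · exact hm'
      · exact u2_edge (one_sub_hat b h1) (hat_ne b (x 2))
  | threeR =>
    obtain ⟨h1, h2, h3⟩ := LS_threeR h.ls
    have hb : b.natAbs = 3 := hok
    refine ⟨rfl, ?_, fun l hl => ?_⟩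
    · rw [hb]
      exact inv_mul_cancel₀ (hat_ne b (x 2))
    · have hm := h.mid rfl
      rw [ldT_threeR_1, add_comm (x 0)] at hm
      have hm' := e_three1 (b := b) h1 (by rwa [add_comm]) h3 (by rw [hm, Complex.exp_zero])
      rcases (by omega : l = 0 ∨ l = 1) with rfl | rfl
      · exact u2_edge (one_sub_hat b (LS_threeR_l h.ls)) (hat_ne b (x 1))
      · show ((hat b (ee (x 2)))⁻¹ - (hat b (ee (x 1)))⁻¹) * u2 (hat b (ee (x 0))) (hat b (ee (x 1))) =
          -((hat b (ee (x 1)))⁻¹ - u2 (hat b (ee (x 0))) (hat b (ee (x 1))))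
        have n0 := hat_ne b (x 0)
        have n1 := hat_ne b (x 1)
        have n2 := hat_ne b (x 2)
        have o0 := one_sub_hat b (LS_threeR_l h.ls)
        have o1 := one_sub_hat b h1
        unfold u2 at hm' ⊢
        generalize hat b (ee (x 0)) = A at *
        generalize hat b (ee (x 1)) = B at *
        generalize hat b (ee (x 2)) = C at *
        have e1 : (B * (A - 1) / (A * (1 - B)) - B) * C * (A * (1 - B)) = (B * (A - 1) - B * (A * (1 - B))) * C := by
          field_simp
        rw [hm'] at e1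
        have e2 : (C⁻¹ - B⁻¹) * (A * (B - 1) / (B * (1 - A))) + (B⁻¹ - A * (B - 1) / (B * (1 - A))) =
            ((B - C) * (A * (B - 1)) + C * B * (1 - A) - C * (A * (B - 1)) * B) / (C * B * (B * (1 - A))) := by
          field_simp
          ring
        rw [eq_neg_iff_add_eq_zero, e2, div_eq_zero_iff]
        left
        linear_combination e1
  | fourL => exact absurd rfl h.four.1
  | fourR => exact absurd rfl h.four.2
  | ring =>
    obtain ⟨hs, _, _, hn⟩ := h.ring rfl
    exact ring_run hok (LS_ring_l h.ls hs) (LS_ring_r h.ls hs) (ring_eq_tt h) (hn rfl)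

lemma run_f (h : LH t b false true x) : EndRun b (ee (x 2)) (lC t b false true x) := by
  have hok := h.ok
  have hl := h.l0 rfl
  cases t with
  | one => exact absurd rfl hl.2.1
  | two =>
    have hb : b.natAbs = 2 := hok
    refine ⟨rfl, ?_, fun l hl => absurd hl (by omega)⟩
    rw [hb]
    rfl
  | threeL => exact absurd rfl hl.2.2
  | threeR =>
    obtain ⟨h1, h2, h3⟩ := LS_threeR h.ls
    have hb : b.natAbs = 3 := hok
    refine ⟨rfl, ?_, fun l hl' => ?_⟩
    · rw [hb]
      rfl
    · have hm := h.mid rfl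
      rw [ldT_threeR_1, add_comm (x 0)] at hm
      have hm' := e_three1 (b := b) h1 (by rwa [add_comm]) h3 (by rw [hm, Complex.exp_zero])
      rw [hl.1, hat_zero, u2_one] at hm'
      obtain rfl : l = 0 := by omega
      exact hm'
  | fourL => exact absurd rfl h.four.1
  | fourR => exact absurd rfl h.four.2
  | ring =>
    obtain ⟨hs, he, hn, _⟩ := h.ring rfl
    have hb : 2 ≤ b.natAbs := h.big.resolve_right (by simp)
    exact ring_end hb (LS_ring_r h.ls hs) (by simpa using he) (hn rfl)

lemma run_tf (h : LH t b true false x) : EndRun b (ee (x 0)) (lC t b true false x) := by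
  have hok := h.ok
  have hl := h.rr0 rfl
  cases t with
  | one => exact absurd rfl hl.2.1
  | two =>
    have hb : b.natAbs = 2 := hok
    refine ⟨rfl, ?_, fun l hl => absurd hl (by omega)⟩
    rw [hb]
    rfl
  | threeR => exact absurd rfl hl.2.2
  | threeL =>
    obtain ⟨h1, h2, h3⟩ := LS_threeL h.ls
    have hb : b.natAbs = 3 := hok
    refine ⟨rfl, ?_, fun l hl' => ?_⟩
    · rw [hb]
      rfl
    · have hm := h.mid rfl
      rw [ldT_threeL_1] at hm
      have hm' := e_three1 (b := b) h1 h2 h3 (by rw [hm, Complex.exp_zero])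
      rw [hl.1, hat_zero, u2_one] at hm'
      obtain rfl : l = 0 := by omega
      exact hm'
  | fourL => exact absurd rfl h.four.1
  | fourR => exact absurd rfl h.four.2
  | ring =>
    obtain ⟨hs, he, _, hn⟩ := h.ring rfl
    have hb : 2 ≤ b.natAbs := h.big.resolve_right (by simp)
    exact ring_end hb (LS_ring_l h.ls hs) (by simpa using he) (hn rfl)

/-! ### the volume of a twist region -/

lemma ee_one_sub (w : ℂ) : ee (1 - w) = (ee w)⁻¹ := by
  unfold ee
  rw [← Complex.exp_neg, mul_sub, mul_one, sub_eq_neg_add, Complex.exp_add, Complex.exp_two_pi_mul_I,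
    mul_one]

lemma ee_add (w w' : ℂ) : ee (w + w') = ee w * ee w' := by
  unfold ee
  rw [← Complex.exp_add]
  congr 1
  ring

lemma ee_sub (w w' : ℂ) : ee (w - w') = ee w / ee w' := by
  unfold ee
  rw [← Complex.exp_sub]
  congr 1
  ring

lemma ee_ne0 (w : ℂ) : ee w ≠ 0 := Complex.exp_ne_zero _

lemma ee_half (w : ℂ) : ee (w + 1 / 2) = -ee w := by
  unfold ee
  rw [show (2 * Real.pi * Complex.I * (w + 1 / 2) : ℂ) = 2 * Real.pi * Complex.I * w + Real.pi * Complex.I by
    ring, Complex.exp_add, Complex.exp_pi_mul_I]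
  ring

lemma one_sub_ee_ne0 {w : ℂ} (h : w ∈ strip) : 1 - ee w ≠ 0 := by
  have := one_sub_hat 1 h
  simpa [hat] using this

lemma BW_ee_one_sub (w : ℂ) : BW (ee (1 - w)) = -BW (ee w) := by
  rw [ee_one_sub, BW_inv]

lemma BW_ee_add (w w' : ℂ) : -BW (ee (w + w')) = BW (1 / (ee w * ee w')) := by
  rw [ee_add, one_div, BW_inv]

/-- the letters of a chain of length two -/
lemma two_letters (b : ℤ) {Y Y' : ℂ} (hY : Y ≠ 0) (hY' : Y' ≠ 0) (h1 : 1 - Y ≠ 0) (h1' : 1 - Y' ≠ 0)
    {U : ℕ → ℂ} {k : ℕ} (h0 : U k = hat b Y) (hm : U (k + 1) = u2 (hat b Y) (hat b Y'))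
    (h2 : U (k + 2) = (hat b Y')⁻¹) :
    BW (shp b U k) + BW (shp b U (k + 1)) = BW Y + BW Y' + BW (1 / (Y * Y')) := by
  rw [BW_five hY hY', shp, shp, h0, h2, hm]
  unfold u2 hat
  have h3 : Y' - 1 ≠ 0 := fun h => h1' (by linear_combination -h)
  have h4 : Y - 1 ≠ 0 := fun h => h1 (by linear_combination -h)
  split_ifs with hb
  · congr 1
    · congr 1
      field_simp
    · congr 1
      rw [div_eq_div_iff (div_ne_zero (mul_ne_zero hY h3) (mul_ne_zero hY' h1)) h1']
      field_simp
      ring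
  · have e1 : 1 - Y⁻¹ ≠ 0 := by
      rw [show 1 - Y⁻¹ = (Y - 1) / Y by field_simp]
      exact div_ne_zero h4 hY
    have e2 : Y'⁻¹ - 1 ≠ 0 := by
      rw [show Y'⁻¹ - 1 = (1 - Y') / Y' by field_simp]
      exact div_ne_zero h1' hY'
    rw [add_comm]
    congr 1
    · congr 1
      rw [inv_inv, div_div, div_eq_div_iff (mul_ne_zero (mul_ne_zero (inv_ne_zero hY') e1) hY') h1]
      field_simp
      ring
    · congr 1
      rw [div_eq_div_iff (div_ne_zero (mul_ne_zero (inv_ne_zero hY) e2)
        (mul_ne_zero (inv_ne_zero hY') e1)) h1']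
      field_simp

lemma shp_hat (b : ℤ) (Y M : ℂ) {U : ℕ → ℂ} {k : ℕ} (h0 : U k = hat b Y) (h1 : U (k + 1) = hat b M) :
    shp b U k = M / Y := by
  rw [shp, h0, h1]
  unfold hat
  split_ifs
  · rfl
  · rw [div_eq_mul_inv, inv_inv, mul_comm, div_eq_mul_inv]

lemma shp_hat' (b : ℤ) (Y M : ℂ) {U : ℕ → ℂ} {k : ℕ} (h0 : U k = (hat b M)⁻¹)
    (h1 : U (k + 1) = (hat b Y)⁻¹) : shp b U k = M / Y := by
  rw [shp, h0, h1]
  unfold hat
  split_ifs
  · rw [div_eq_mul_inv, inv_inv, mul_comm, div_eq_mul_inv]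
  · rw [inv_inv, inv_inv]

lemma lvol (h : LH t b l r x) : -(((facs t l r).map fun f => BW (ee (f.form x))).sum) =
    (if l = true then BW (ee (x 0)) else 0) + (if r = true then BW (ee (x 2)) else 0) +
    ∑ k ∈ range (if l = true ∧ r = true then b.natAbs else b.natAbs - 2),
      BW (shp b (lC t b l r x) k) := by
  have hok := h.ok
  have f1 : ∀ w : ℂ, BW (ee (1 + -w)) = -BW (ee w) := fun w => by
    rw [← sub_eq_add_neg, BW_ee_one_sub]
  cases t with
  | one =>
    have hb : b.natAbs = 1 := hok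
    cases l with
    | false => exact absurd rfl (h.l0 rfl).2.1
    | true =>
      cases r with
      | false => exact absurd rfl (h.rr0 rfl).2.1
      | true =>
        have e : shp b (lC .one b true true x) 0 = 1 / (ee (x 0) * ee (x 2)) := by
          show (if 0 < b then (hat b (ee (x 2)))⁻¹ / hat b (ee (x 0)) else
            hat b (ee (x 0)) / (hat b (ee (x 2)))⁻¹) = _
          unfold hat
          split_ifs
          · rw [div_eq_mul_inv, ← mul_inv, mul_comm, one_div]
          · rw [inv_inv, div_eq_mul_inv, ← mul_inv, one_div]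
        rw [hb]
        simp only [and_self, if_true, sum_range_one, e, ← BW_ee_add]
        simp [facs, Fac.form, Fin.sum_univ_three, f1]
        ring
  | two =>
    have hb : b.natAbs = 2 := hok
    cases l with
    | false =>
      have hx := (h.l0 rfl).1
      rw [hb]
      cases r with
      | false => exact absurd h.lr (by simp)
      | true =>
        simp [facs, hL, hR, Fac.form, Fin.sum_univ_three, f1, hx]
    | true =>
      cases r with
      | false =>
        have hx := (h.rr0 rfl).1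
        rw [hb]
        simp [facs, hL, hR, Fac.form, Fin.sum_univ_three, f1, hx]
      | true =>
        obtain ⟨h1, h2⟩ := LS_two_l h.ls
        obtain ⟨h1', h2'⟩ := LS_two_r h.ls
        have e := two_letters b (ee_ne0 (x 0)) (ee_ne0 (x 2)) (one_sub_ee_ne0 h1) (one_sub_ee_ne0 h1')
          (U := lC .two b true true x) (k := 0) rfl rfl rfl
        rw [hb]
        simp only [and_self, if_true, sum_range_succ, sum_range_zero, zero_add]
        rw [zero_add] at e
        rw [e, ← BW_ee_add]
        simp [facs, hL, hR, Fac.form, Fin.sum_univ_three, f1]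
        ring
  | threeL =>
    have hb : b.natAbs = 3 := hok
    obtain ⟨h1, h2, h3⟩ := LS_threeL h.ls
    have f2 : BW (ee (1 + (x 0 + -x 1))) = -BW (ee (x 1) / ee (x 0)) := by
      rw [show 1 + (x 0 + -x 1) = 1 - (x 1 - x 0) by ring, BW_ee_one_sub, ee_sub]
    cases l with
    | false => exact absurd rfl (h.l0 rfl).2.2
    | true =>
      have e0 : ∀ r, shp b (lC .threeL b true r x) 0 = ee (x 1) / ee (x 0) := fun r =>
        shp_hat b _ _ (by cases r <;> rfl) (by cases r <;> rfl)
      cases r with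
      | false =>
        have hx := (h.rr0 rfl).1
        rw [hb]
        simp only [Bool.false_eq_true, and_false, if_false, if_true, Nat.reduceSub, sum_range_one, e0]
        simp [facs, hL, hR, Fac.form, Fin.sum_univ_three, f1, f2, hx]
        ring
      | true =>
        have h4 := LS_threeL_r h.ls
        have e := two_letters b (ee_ne0 (x 1)) (ee_ne0 (x 2)) (one_sub_ee_ne0 h1) (one_sub_ee_ne0 h4)
          (U := lC .threeL b true true x) (k := 1) rfl rfl rfl
        rw [hb]
        simp only [and_self, if_true, sum_range_succ, sum_range_zero, zero_add, e0]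
        rw [add_assoc (BW (ee (x 1) / ee (x 0))), e, ← BW_ee_add]
        simp [facs, hL, hR, Fac.form, Fin.sum_univ_three, f1, f2]
        ring
  | threeR =>
    have hb : b.natAbs = 3 := hok
    obtain ⟨h1, h2, h3⟩ := LS_threeR h.ls
    have f2 : BW (ee (1 + (-x 1 + x 2))) = -BW (ee (x 1) / ee (x 2)) := by
      rw [show 1 + (-x 1 + x 2) = 1 - (x 1 - x 2) by ring, BW_ee_one_sub, ee_sub]
    cases r with
    | false => exact absurd rfl (h.rr0 rfl).2.2
    | true =>
      cases l with
      | false =>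
        have hx := (h.l0 rfl).1
        have e0 : shp b (lC .threeR b false true x) 0 = ee (x 1) / ee (x 2) :=
          shp_hat b _ _ rfl rfl
        rw [hb]
        simp only [Bool.false_eq_true, false_and, if_false, if_true, Nat.reduceSub, sum_range_one, e0]
        simp [facs, hL, hR, Fac.form, Fin.sum_univ_three, f1, f2, hx]
        ring
      | true =>
        have h4 := LS_threeR_l h.ls
        have e0 : shp b (lC .threeR b true true x) 2 = ee (x 1) / ee (x 2) :=
          shp_hat' b _ _ rfl rfl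
        have e := two_letters b (ee_ne0 (x 0)) (ee_ne0 (x 1)) (one_sub_ee_ne0 h4) (one_sub_ee_ne0 h1)
          (U := lC .threeR b true true x) (k := 0) rfl rfl rfl
        rw [hb]
        simp only [and_self, if_true, sum_range_succ, sum_range_zero, zero_add, e0]
        rw [zero_add] at e
        rw [e, ← BW_ee_add]
        simp [facs, hL, hR, Fac.form, Fin.sum_univ_three, f1, f2]
        ring
  | fourL => exact absurd rfl h.four.1
  | fourR => exact absurd rfl h.four.2
  | ring =>
    obtain ⟨hs, he, hn0, hn1⟩ := h.ring rfl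
    have hb : 2 ≤ b.natAbs := h.big.resolve_right (by simp)
    have g1 : ∀ w : ℂ, BW (ee (2⁻¹ + (w + x 1))) + BW (ee (2⁻¹ + (w + -x 1))) =
        BW (ee w) - gZ (ee (x 1)) (ee w) := by
      intro w
      rw [show 2⁻¹ + (w + x 1) = (w + x 1) + 1 / 2 by ring, ee_half, ee_add,
        show 2⁻¹ + (w + -x 1) = (w - x 1) + 1 / 2 by ring, ee_half, ee_sub, gZ,
        show -(ee (x 1) / ee w) = (-(ee w / ee (x 1)))⁻¹ by rw [← inv_div, inv_neg], BW_inv,
        show -(1 / (ee (x 1) * ee w)) = (-(ee w * ee (x 1)))⁻¹ by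
          rw [one_div, inv_neg, mul_comm], BW_inv]
      ring
    cases l with
    | false =>
      cases r with
      | false => exact absurd h.lr (by simp)
      | true =>
        have hv := ring_vol_end hb (LS_ring_r h.ls hs) (by simpa using he) (hn0 rfl)
        have g2 := g1 (x 2)
        simp only [Bool.false_eq_true, false_and, if_false, if_true, lC_false]
        show _ = _ + ∑ k ∈ range (b.natAbs - 2), BW (shp b (rC b (x 2) (x 1)) k)
        rw [hv]
        simp [facs, hL, hR, Fac.form, Fin.sum_univ_three, f1]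
        rw [add_comm (x 1), add_comm (-x 1)]
        linear_combination -g2
    | true =>
      cases r with
      | false =>
        have hv := ring_vol_end hb (LS_ring_l h.ls hs) (by simpa using he) (hn1 rfl)
        have g2 := g1 (x 0)
        simp only [Bool.false_eq_true, and_false, if_false, if_true, lC_tf]
        show _ = _ + ∑ k ∈ range (b.natAbs - 2), BW (shp b (rC b (x 0) (x 1)) k)
        rw [hv]
        simp [facs, hL, hR, Fac.form, Fin.sum_univ_three, f1]
        linear_combination -g2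
      | true =>
        have hv := ring_vol hok (LS_ring_l h.ls hs) (LS_ring_r h.ls hs) (ring_eq_tt h) (hn1 rfl)
        have g2 := g1 (x 0)
        have g3 := g1 (x 2)
        simp only [and_self, if_true, lC_tt]
        show _ = _ + ∑ k ∈ range b.natAbs, BW (shp b (rC b (x 0) (x 1)) k)
        rw [hv]
        simp [facs, hL, hR, Fac.form, Fin.sum_univ_three, f1]
        rw [add_comm (x 1), add_comm (-x 1)]
        linear_combination -g2 - g3

end

/-! ### the theorems -/

section
variable {M : ℕ} {b : Fin (M + 2) → ℤ} {t : Fin (M + 2) → Typ}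
  {z : DD (M := M + 1) t ⊕ ZZ (M := M + 1) t → ℂ}

lemma gU_eq (i : Fin (M + 2)) : gU b t z i =
    lC (t i) (b i) (decide (i ≠ 0)) (decide (i ≠ Fin.last (M + 1))) (xx t i z) := by
  unfold gU lC
  by_cases h0 : i = 0
  · simp [h0]
  · by_cases h1 : i = Fin.last (M + 1)
    · rw [if_neg h0, if_pos h1]
      simp [h0, h1]
    · rw [if_neg h0, if_neg h1]
      simp [h0, h1]

lemma geo_LH (ht : GTyp b t)
    (hin : ∀ k, 0 < ((wdat (M := M + 1) t b).form k z).re ∧ ((wdat (M := M + 1) t b).form k z).re < 1)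
    (hc : ∀ i, (wdat (M := M + 1) t b).dT z i = 0) (hn : GNv b t z) (i : Fin (M + 2)) :
    LH (t i) (b i) (decide (i ≠ 0)) (decide (i ≠ Fin.last (M + 1))) (xx t i z) where
  ls := fun _ hf => fac_strip hin i hf
  ok := ht.ok i
  big := ht.ring i
  four := ht.four i
  lr := by
    by_cases h : i = 0
    · right
      rw [h]
      simpa using (Fin.last_pos' (n := M + 1)).ne
    · left
      simpa using h
  l0 := by
    intro h
    have h0 : i = 0 := by simpa using h
    subst h0
    exact ⟨xx_left_zero t z, ht.first⟩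
  rr0 := by
    intro h
    have h0 : i = Fin.last (M + 1) := by simpa using h
    subst h0
    exact ⟨xx_right_last t z, ht.last⟩
  mid := fun h => grT_mid hc h
  ring := by
    intro h
    refine ⟨hn.sz i h, ?_, ?_, ?_⟩
    · have h1 := grT_ring hc h
      simpa using h1
    · intro h0
      have h0 : i = 0 := by simpa using h0
      subst h0
      exact hn.first h
    · intro h0
      exact hn.nv i (by simpa using h0) h

theorem geo_glue (ht : GTyp b t)
    (hin : ∀ k, 0 < ((wdat (M := M + 1) t b).form k z).re ∧ ((wdat (M := M + 1) t b).form k z).re < 1)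
    (hc : ∀ i, (wdat (M := M + 1) t b).dT z i = 0) (hn : GNv b t z) :
    Glue b (gY t z) (gU b t z) := by
  have H := geo_LH ht hin hc hn
  have hl0 : (0 : Fin (M + 2)) ≠ Fin.last (M + 1) := (Fin.last_pos' (n := M + 1)).ne
  refine ⟨?_, ?_, ?_, ?_⟩
  · have h := H 0
    have e : xx t 0 z 2 = z (.inl (.inl 0)) := xx_right (M := M + 1) t 0 z
    rw [gU_eq]
    simp only [ne_eq, not_true_eq_false, decide_false, hl0, not_false_eq_true, decide_true] at h ⊢
    have := run_f h
    rwa [e] at this
  · have h := H (Fin.last (M + 1))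
    have e : xx t (Fin.last (M + 1)) z 0 = z (.inl (.inl (Fin.last M))) :=
      xx_left (M := M + 1) t (Fin.last M) z
    rw [gU_eq]
    simp only [ne_eq, not_true_eq_false, decide_false, hl0.symm, not_false_eq_true, decide_true] at h ⊢
    have := run_tf h
    rwa [e] at this
  · intro j
    have h := H j.castSucc.succ
    have e : xx t j.castSucc.succ z 0 = z (.inl (.inl j.castSucc)) := xx_left (M := M + 1) t j.castSucc z
    have e' : xx t j.castSucc.succ z 2 = z (.inl (.inl j.succ)) := by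
      rw [← Fin.castSucc_succ]
      exact xx_right (M := M + 1) t j.succ z
    have n1 : j.castSucc.succ ≠ 0 := Fin.succ_ne_zero _
    have n2 : j.castSucc.succ ≠ Fin.last (M + 1) := by
      rw [← Fin.castSucc_succ]
      exact (Fin.castSucc_lt_last _).ne
    rw [gU_eq]
    simp only [ne_eq, n1, n2, not_false_eq_true, decide_true] at h ⊢
    have := run_tt h
    rwa [e, e'] at this
  · intro j
    have n1 : j.castSucc ≠ Fin.last (M + 1) := (Fin.castSucc_lt_last _).ne
    have n2 : j.succ ≠ 0 := Fin.succ_ne_zero _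
    have e : xx t j.castSucc z 2 = z (.inl (.inl j)) := xx_right (M := M + 1) t j z
    have e' : xx t j.succ z 0 = z (.inl (.inl j)) := xx_left (M := M + 1) t j z
    have h := H j.castSucc
    have h' := H j.succ
    have hd := grT_hinge hc j
    simp only [ne_eq, n1, n2, not_false_eq_true, decide_true] at h h' hd
    have k1 := hf_r h
    have k2 := hf_l h'
    rw [e] at k1
    rw [e'] at k2
    have k3 : nbr b (gU b t z) j = if decide (¬j.castSucc = 0) = false then
        lC (t j.castSucc) (b j.castSucc) (decide (¬j.castSucc = 0)) true (xx t j.castSucc z) 1 else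
        (lC (t j.castSucc) (b j.castSucc) (decide (¬j.castSucc = 0)) true (xx t j.castSucc z)
          ((b j.castSucc).natAbs - 1))⁻¹ := by
      unfold nbr
      by_cases hj : j = 0
      · subst hj
        rw [gU_eq]
        simp [hl0]
      · have hj' : j.castSucc ≠ 0 := by
          intro h
          exact hj (Fin.castSucc_injective _ h)
        rw [if_neg hj, gU_eq]
        simp [hj', n1, hj]
    have k4 : gU b t z j.succ 1 = lC (t j.succ) (b j.succ) true
        (decide (¬j.succ = Fin.last (M + 1))) (xx t j.succ z) 1 := by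
      rw [gU_eq]
      simp [n2]
    unfold gY
    rw [k3, k4, ← k1, ← k2, ← Complex.exp_add, hd, Complex.exp_zero]

theorem geo_vol (ht : GTyp b t)
    (hin : ∀ k, 0 < ((wdat (M := M + 1) t b).form k z).re ∧ ((wdat (M := M + 1) t b).form k z).re < 1)
    (hc : ∀ i, (wdat (M := M + 1) t b).dT z i = 0) (hn : GNv b t z) :
    2 * Real.pi * ((wdat (M := M + 1) t b).T z).re = swVol b (gY t z) (gU b t z) := by
  have H := geo_LH ht hin hc hn
  have hl0 : (0 : Fin (M + 2)) ≠ Fin.last (M + 1) := (Fin.last_pos' (n := M + 1)).ne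
  have hun : ∀ b : ℤ, ∀ n : ℤ, (un b * (n : ℂ)).re = 0 := by
    intro b n
    unfold un
    split_ifs <;> simp
  have hq : ∀ i j, ((wdat (M := M + 1) t b).q i j).re = 0 := by
    intro i j
    show (∑ i', ∑ p, ∑ p', un (b i') * ((qq2 (t i') p p' * cf (M := M + 1) t i' p i *
      cf (M := M + 1) t i' p' j : ℤ) : ℂ)).re = 0
    simp only [Complex.re_sum, hun, sum_const_zero]
  have hr : ∀ i, ((wdat (M := M + 1) t b).r i).re = 0 := by
    intro i
    show (∑ i', ∑ p, un (b i') * ((rr1 (t i') p * cf (M := M + 1) t i' p i : ℤ) : ℂ)).re = 0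
    simp only [Complex.re_sum, hun, sum_const_zero]
  rw [vol_dat _ hq hr hin hc, Fintype.sum_sigma, ← sum_neg_distrib]
  have e1 : ∀ i : Fin (M + 2), -∑ k : Fin (facs (t i) (decide (i ≠ 0))
      (decide (i ≠ Fin.last (M + 1)))).length, BW (ee ((wdat (M := M + 1) t b).form ⟨i, k⟩ z)) =
      (if i ≠ 0 then BW (ee (xx t i z 0)) else 0) +
      (if i ≠ Fin.last (M + 1) then BW (ee (xx t i z 2)) else 0) +
      ∑ l ∈ range (nlet b i), BW (shp (b i) (gU b t z i) l) := by
    intro i
    have h := lvol (H i)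
    have e2 : (∑ k : Fin (facs (t i) (decide (i ≠ 0))
        (decide (i ≠ Fin.last (M + 1)))).length, BW (ee ((wdat (M := M + 1) t b).form ⟨i, k⟩ z))) =
        (((facs (t i) (decide (i ≠ 0)) (decide (i ≠ Fin.last (M + 1)))).map
          fun f => BW (ee (f.form (xx t i z)))).sum) := by
      rw [← sum_listR]
      refine sum_congr rfl fun k _ => ?_
      rw [wdat_form]
      rfl
    rw [e2, h, gU_eq]
    have e3 : (if decide (i ≠ 0) = true ∧ decide (i ≠ Fin.last (M + 1)) = true then (b i).natAbs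
        else (b i).natAbs - 2) = nlet b i := by
      unfold nlet
      by_cases h0 : i = 0 <;> by_cases h1 : i = Fin.last (M + 1) <;> simp [h0, h1]
    rw [e3]
    simp only [decide_eq_true_eq]
  rw [sum_congr rfl fun i _ => e1 i, sum_add_distrib, swVol]
  congr 1
  rw [sum_add_distrib]
  have e4 : ∑ i : Fin (M + 2), (if i ≠ 0 then BW (ee (xx t i z 0)) else 0) = ∑ j, BW (gY t z j) := by
    rw [Fin.sum_univ_succ]
    simp only [ne_eq, not_true_eq_false, if_false, zero_add, Fin.succ_ne_zero, not_false_eq_true, if_true]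
    refine sum_congr rfl fun j _ => ?_
    rw [gY, show xx t j.succ z 0 = z (.inl (.inl j)) from xx_left (M := M + 1) t j z]
  have e5 : ∑ i : Fin (M + 2), (if i ≠ Fin.last (M + 1) then BW (ee (xx t i z 2)) else 0) =
      ∑ j, BW (gY t z j) := by
    rw [Fin.sum_univ_castSucc]
    simp only [ne_eq, not_true_eq_false, if_false, add_zero, Fin.castSucc_ne_last, not_false_eq_true, if_true]
    refine sum_congr rfl fun j _ => ?_
    rw [gY, show xx t j.castSucc z 2 = z (.inl (.inl j)) from xx_right (M := M + 1) t j z]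
  rw [e4, e5, ← sum_add_distrib]
  exact sum_congr rfl fun j _ => (two_mul _).symm

end

end Pool.Agent.Work.MP_b30479_gt.G2
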