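import Pool.Agent.Work.MP_b30479_gt.G2.CSRingC
import Pool.Agent.Work.MP_b30479_gt.G2.GeoRun

/-!
# The complexified volume of a twist region, all types
-/

namespace Pool.Agent.Work.MP_b30479_gt.G2

open Finset VOL
open Pool.Agent.Work.MP_b30479_gt.LT (ee)

/-- the logarithms `Q` belong to the chain `U` -/
def ChQ (U Q : ℕ → ℂ) (n : ℕ) : Prop :=
  ∀ l ≤ n, U l * Complex.exp (Q l) = -Complex.exp (Q (l + 2))

variable {b : ℤ} {x : Fin 3 → ℂ} {P : ℂ} {Q : ℕ → ℂ}

lemma hat_exp (b : ℤ) (w q : ℂ) : hat b (ee w) * Complex.exp q =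
    Complex.exp (sgB b * (2 * Real.pi * Complex.I * w) + q) := by
  rw [hat_ee, ← exp_sg, ← Complex.exp_add]

/-! ### the pivot of a ring -/

lemma rC_kap {w ζ : ℂ} (hn : Complex.sin (rr0 b w ζ) ≠ 0) (h1 : rC b w ζ 0 ≠ 0) :
    (1 - rC b w ζ 1) * (1 - (rC b w ζ 0)⁻¹) = (2 * Complex.cos (Real.pi * ζ)) ^ 2 := by
  unfold rC rU at *
  set φ := rr0 b w ζ
  set u := -(Real.pi * ζ) with hu
  have hc : Complex.cos (Real.pi * ζ) = Complex.cos u := by rw [hu, Complex.cos_neg]
  rw [hc]
  push_cast at h1 ⊢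
  simp only [zero_add, zero_sub, one_mul, neg_mul, sub_self, zero_mul, add_zero] at h1 ⊢
  have h2 : Complex.sin (φ + u) ≠ 0 := by
    intro h
    rw [h] at h1
    simp at h1
  have h3 : Complex.sin (φ + -u) ≠ 0 := by
    intro h
    rw [h] at h1
    simp at h1
  have e1 := rg_sin_three (φ + u) u
  have e2 := rg_sin_three φ u
  rw [show φ + u + u = φ + (1 + 1) * u by ring, show φ + u - u = φ by ring] at e1
  rw [sub_eq_add_neg] at e2
  generalize Complex.sin (φ + (1 + 1) * u) = A at *
  generalize Complex.sin (φ + -u) = B at *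
  generalize Complex.sin (φ + u) = C at *
  generalize Complex.sin φ = D at *
  field_simp
  linear_combination (C + B) * e1 + 2 * C * Complex.cos u * e2

lemma Fan.kap (F : Fan P Q b.natAbs) (hb : 1 ≤ b.natAbs) {U : ℕ → ℂ} (h0 : U 0 * Complex.exp (Q 0) = -Complex.exp (Q 2))
    (h1 : U 1 * Complex.exp (Q 1) = -Complex.exp (Q 3)) :
    (1 - U 1) * (1 - (U 0)⁻¹) = Complex.exp (2 * P) := by
  have a0 := F.lin 0 (by omega)
  have a1 := F.lin 1 (by omega)
  simp only [zero_add, Complex.exp_add, Nat.reduceAdd] at a0 a1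
  have b0 := Complex.exp_ne_zero (Q 0)
  have b1 := Complex.exp_ne_zero (Q 1)
  have b2 := Complex.exp_ne_zero (Q 2)
  have hU0 : U 0 ≠ 0 := by
    intro h
    rw [h, zero_mul] at h0
    exact b2 (by linear_combination h0)
  have e0 : (U 0)⁻¹ = -(Complex.exp (Q 0) / Complex.exp (Q 2)) := by
    rw [inv_eq_iff_eq_inv, ← neg_inv, inv_div, eq_neg_iff_add_eq_zero]
    field_simp
    linear_combination h0
  have e1 : U 1 = -(Complex.exp (Q 3) / Complex.exp (Q 1)) := by
    field_simp
    linear_combination h1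
  rw [e0, e1, exp_two]
  field_simp
  linear_combination (-(Complex.exp (Q 1) + Complex.exp (Q 3))) * a0 - Complex.exp P * Complex.exp (Q 1) * a1

/-! ### reversal -/

lemma Fan.rev {n : ℕ} (F : Fan P Q n) : Fan P (fun l => Q (n + 2 - l)) n := by
  refine ⟨fun l hl => ?_, fun l hl => ?_⟩
  · have h := F.lin (n - l) (by omega)
    show Complex.exp (P + Q (n + 2 - (l + 1))) = Complex.exp (Q (n + 2 - l)) + Complex.exp (Q (n + 2 - (l + 2)))
    rw [show n + 2 - (l + 1) = n - l + 1 by omega, show n + 2 - l = n - l + 2 by omega,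
      show n + 2 - (l + 2) = n - l by omega, h, add_comm]
  · have h := F.sqr (n - l) (by omega)
    show Complex.exp (Q (n + 2 - l) + Q (n + 2 - (l + 2))) = Complex.exp (2 * Q (n + 2 - (l + 1))) + _
    rw [show n + 2 - (l + 1) = n - l + 1 by omega, show n + 2 - l = n - l + 2 by omega,
      show n + 2 - (l + 2) = n - l by omega, ← h, add_comm]

lemma hly_rev {n l : ℕ} (hl : l ≤ n) : hly P (fun l => Q (n + 2 - l)) l = hly P Q (n - l) := by
  unfold hly
  simp only
  rw [show n + 2 - (l + 1) = n - l + 1 by omega, show n + 2 - l = n - l + 2 by omega,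
    show n + 2 - (l + 2) = n - l by omega]
  congr 1 <;> ring

lemma rs_rev (n : ℕ) : rs n P (fun l => Q (n + 2 - l)) = rs n P Q := by
  unfold rs
  rw [← sum_range_reflect]
  refine sum_congr rfl fun l hl => ?_
  rw [mem_range] at hl
  rw [hly_rev (by omega), hly_rev (by omega), show n - (n - 1 - l) = l + 1 by omega,
    show n - (n - 1 - l + 1) = l by omega, add_comm]

/-- the reversed local variables -/
def xrev (x : Fin 3 → ℂ) : Fin 3 → ℂ := ![x 2, x 1, x 0]

lemma lT_threeR (l r : Bool) : lT .threeR b l r x = lT .threeL b r l (xrev x) := by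
  cases l <;> cases r <;>
    simp [lT, lquad, facs, hL, hR, Fac.form, Fin.sum_univ_three, qq2, rr1, xrev] <;> ring_nf

lemma ldT_threeR (l r : Bool) : ldT .threeR b l r x 0 = ldT .threeL b r l (xrev x) 2 ∧
    ldT .threeR b l r x 1 = ldT .threeL b r l (xrev x) 1 ∧
    ldT .threeR b l r x 2 = ldT .threeL b r l (xrev x) 0 := by
  refine ⟨?_, ?_, ?_⟩ <;> cases l <;> cases r <;>
    simp [ldT, facs, hL, hR, Fac.form, Fin.sum_univ_three, qq2, rr1, xrev] <;> ring_nf

/-- The formula for an inner twist region. -/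
theorem run_cs {t : Typ} (h : LH t b true true x) (F : Fan P Q b.natAbs)
    (hc : ChQ (lC t b true true x) Q b.natAbs) : RunCS t b x P Q := by
  rw [lC_tt] at hc
  have hok := h.ok
  have hfour := h.four
  have hbig := h.big
  have hls := h.ls
  have hR := run_tt h
  rw [lC_tt] at hR
  have hb : b ≠ 0 := by
    rintro rfl
    rcases hbig with h1 | rfl
    · simp at h1
    · simp [Typ.IsOk] at hok
  have hn : 1 ≤ b.natAbs := by omega
  have hl : Complex.exp (sgB b * (2 * Real.pi * Complex.I * x 0) + Q 0) = -Complex.exp (Q 2) := by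
    rw [← hat_exp, ← hR.left]
    exact hc 0 (by omega)
  have hr : Complex.exp (sgB b * (2 * Real.pi * Complex.I * x 2) + Q (b.natAbs + 2)) =
      -Complex.exp (Q b.natAbs) := by
    have h1 := hc b.natAbs le_rfl
    have h2 := hR.right
    rw [← hat_exp]
    have : hat b (ee (x 2)) * (lU t b x b.natAbs * Complex.exp (Q b.natAbs)) =
        hat b (ee (x 2)) * -Complex.exp (Q (b.natAbs + 2)) := by rw [h1]
    linear_combination this - Complex.exp (Q b.natAbs) * h2
  cases t with
  | one =>
    have hb1 : b.natAbs = 1 := hok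
    rw [hb1] at F hr
    exact run_one' hb1 (LS_one_l hls).1 (LS_one_r hls).1 (LS_one_l hls).2 F hl hr
  | two =>
    have hb1 : b.natAbs = 2 := hok
    rw [hb1] at F hr
    exact run_two' hb1 (LS_two_l hls).1 (LS_two_r hls).1 (LS_two_l hls).2 F hl hr
  | threeL =>
    have hb1 : b.natAbs = 3 := hok
    rw [hb1] at F hr
    refine run_threeL' hb1 (LS_threeL_l hls) (LS_threeL hls).1 (LS_threeL_r hls) (LS_threeL hls).2.1
      (LS_threeL hls).2.2 F hl hr ?_ (h.mid rfl)
    rw [← hat_exp]
    exact hc 1 (by omega)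
  | threeR =>
    have hb1 : b.natAbs = 3 := hok
    have hrev : RunCS .threeL b (xrev x) P (fun l => Q (b.natAbs + 2 - l)) := by
      have F' := F.rev
      rw [hb1] at F' hr ⊢
      refine run_threeL' hb1 (LS_threeR_r hls) (LS_threeR hls).1 (LS_threeR_l hls)
        (by
          have := (LS_threeR hls).2.1
          rwa [add_comm] at this) (LS_threeR hls).2.2 F' hr hl ?_ ?_
      · have h1 := hc 2 (by omega)
        show Complex.exp (sgB b * (2 * Real.pi * Complex.I * x 1) + Q 4) = -Complex.exp (Q 2)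
        rw [← hat_exp]
        have h2 : lU .threeR b x 2 = (hat b (ee (x 1)))⁻¹ := rfl
        rw [h2] at h1
        have h3 := mul_inv_cancel₀ (hat_ne b (x 1))
        have : hat b (ee (x 1)) * ((hat b (ee (x 1)))⁻¹ * Complex.exp (Q 2)) =
          hat b (ee (x 1)) * -Complex.exp (Q 4) := by rw [h1]
        linear_combination this - Complex.exp (Q 2) * h3
      · rw [← (ldT_threeR true true).2.1]
        exact h.mid rfl
    unfold RunCS at hrev ⊢
    rw [rs_rev] at hrev
    unfold lW at hrev ⊢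
    rw [lT_threeR, (ldT_threeR true true).1, (ldT_threeR true true).2.2]
    rw [if_neg (by decide)] at hrev ⊢
    simp only [xrev, Matrix.cons_val_zero, Matrix.cons_val] at hrev ⊢
    rw [hb1] at hrev ⊢
    simp only [Nat.reduceAdd, Nat.reduceSub] at hrev ⊢
    obtain ⟨k, hk⟩ := hrev
    refine ⟨k, ?_⟩
    rw [← hk]
    ring
  | fourL => exact absurd rfl hfour.1
  | fourR => exact absurd rfl hfour.2
  | ring =>
    have hb2 : 2 ≤ b.natAbs := by
      rcases hbig with h1 | h1
      · exact h1
      · cases h1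
    obtain ⟨hs, hcr, -, hnv⟩ := h.ring rfl
    have hl' := LS_ring_l hls hs
    have hr' := LS_ring_r hls hs
    have hP : Complex.exp (2 * P) = (2 * Complex.cos (Real.pi * x 1)) ^ 2 := by
      rw [← F.kap hn (hc 0 (by omega)) (hc 1 (by omega))]
      have h1 := hnv rfl 0 (by omega)
      rw [Nat.cast_zero, zero_mul, add_zero] at h1
      exact rC_kap h1 (by
        intro h2
        have h3 := hc 0 (by omega)
        have h4 : lU .ring b x 0 = rC b (x 0) (x 1) 0 := rfl
        rw [h4, h2, zero_mul] at h3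
        exact Complex.exp_ne_zero (Q 2) (by linear_combination h3))
    exact run_ring' hb hl'.hw hl'.hm hl'.hp hr'.hw hr'.hm hr'.hp F hl hr hP (by simpa using hcr)

/-! ### the ends of the word -/

lemma FanE.kap (F : FanE P Q b.natAbs) (hb : 2 ≤ b.natAbs) {U : ℕ → ℂ}
    (h0 : U 0 * Complex.exp (Q 0) = -Complex.exp (Q 2))
    (h1 : b.natAbs = 2 → U 1 = 0) (h1' : 3 ≤ b.natAbs → U 1 * Complex.exp (Q 1) = -Complex.exp (Q 3)) :
    (1 - U 1) * (1 - (U 0)⁻¹) = Complex.exp (2 * P) := by
  rcases Nat.lt_or_ge 2 b.natAbs with h3 | h3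
  · refine Fan.kap (b := (b.natAbs - 2 : ℕ)) ?_ ?_ h0 (h1' h3)
    · rw [Int.natAbs_natCast]
      exact F.fan
    · rw [Int.natAbs_natCast]
      omega
  · have hb2 : b.natAbs = 2 := by omega
    have a0 := F.fan.lin 0 (by omega)
    have a1 := F.top
    have a2 := F.fold
    rw [hb2] at a1 a2
    simp only [zero_add, Complex.exp_add, Nat.reduceAdd, Nat.reduceSub, exp_two] at a0 a1 a2
    have b0 := Complex.exp_ne_zero (Q 0)
    have b1 := Complex.exp_ne_zero (Q 1)
    have b2 := Complex.exp_ne_zero (Q 2)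
    have e0 : (U 0)⁻¹ = -(Complex.exp (Q 0) / Complex.exp (Q 2)) := by
      rw [inv_eq_iff_eq_inv, ← neg_inv, inv_div, eq_neg_iff_add_eq_zero]
      field_simp
      linear_combination h0
    rw [h1 hb2, e0, exp_two]
    field_simp
    rw [a1] at a0
    linear_combination -a0

/-- The formula for the first twist region. -/
theorem first_cs {t : Typ} (h : LH t b false true x) (F : FanE P Q b.natAbs)
    (hc : ChQ (lC t b false true x) Q (b.natAbs - 2)) :
    EndCS t b false true x (x 2) (ldT t b false true x 2) P Q := by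
  rw [lC_false] at hc
  have hok := h.ok
  have hfour := h.four
  have hls := h.ls
  have hRn := run_f h
  rw [lC_false] at hRn
  obtain ⟨hx, h1, h2⟩ := h.l0 rfl
  have hl : Complex.exp (sgB b * (2 * Real.pi * Complex.I * x 2) + Q 0) = -Complex.exp (Q 2) := by
    rw [← hat_exp, ← hRn.left]
    exact hc 0 (by omega)
  cases t with
  | one => exact absurd rfl h1
  | threeL => exact absurd rfl h2
  | fourL => exact absurd rfl hfour.1
  | fourR => exact absurd rfl hfour.2
  | two =>
    have hb1 : b.natAbs = 2 := hok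
    rw [hb1] at F
    obtain ⟨k, hk⟩ := end_two' hb1 (LS_two_r hls).1 F hl
    refine ⟨k, ?_⟩
    rw [← hk, lW, if_neg (by decide), ldT_two_2, hx]
    have e : lT .two b false true x = un b * (x 2 ^ 2 + x 2) - Fh (x 2) := by
      have e2 : Fh (1 - x 2) = -Fh (x 2) := Fh_one_sub _
      rw [sub_eq_add_neg _ (x 2)] at e2
      simp [lT, lquad, facs, hL, hR, Fac.form, Fin.sum_univ_three, qq2, rr1, hx, e2]
      ring_nf
    rw [e]
    ring_nf
  | threeR =>
    have hb1 : b.natAbs = 3 := hok
    rw [hb1] at F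
    have hm := h.mid rfl
    rw [ldT_threeR_1, hx] at hm
    obtain ⟨k, hk⟩ := end_three' hb1 (LS_threeR_r hls) (LS_threeR hls).1 (LS_threeR hls).2.2 F hl
      (by
        rw [← hat_exp]
        exact hc 1 (by omega)) (by
        rw [zero_add] at hm
        linear_combination hm)
    refine ⟨k, ?_⟩
    rw [← hk, lW, if_neg (by decide), ldT_threeR_2]
    have e : lT .threeR b false true x = un b * (2 * x 2 * x 1 + x 1 ^ 2 - x 1) - Fh (x 1 - x 2) -
        Fh (x 2) := by
      have e2 : Fh (1 - x 2) = -Fh (x 2) := Fh_one_sub _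
      have e1 : Fh (1 - x 1) = -Fh (x 1) := Fh_one_sub _
      have e12 : Fh (1 - (x 1 - x 2)) = -Fh (x 1 - x 2) := Fh_one_sub _
      rw [sub_eq_add_neg _ (x 2)] at e2
      rw [sub_eq_add_neg _ (x 1)] at e1
      rw [show 1 - (x 1 - x 2) = 1 + (-x 1 + x 2) by ring] at e12
      simp [lT, lquad, facs, hL, hR, Fac.form, Fin.sum_univ_three, qq2, rr1, hx, e2, e1, e12]
      ring_nf
    rw [e]
    ring_nf
  | ring =>
    have hb2 : 2 ≤ b.natAbs := by
      rcases h.big with h1 | h1
      · exact h1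
      · cases h1
    obtain ⟨hs, hcr, hnv, -⟩ := h.ring rfl
    have hr' := LS_ring_r hls hs
    have hP : Complex.exp (2 * P) = (2 * Complex.cos (Real.pi * x 1)) ^ 2 := by
      have h1 := hnv rfl 0 (by omega)
      rw [Nat.cast_zero, zero_mul, add_zero] at h1
      have e : lE .ring b (x 2) (x 1) = rC b (x 2) (x 1) := rfl
      rw [e] at hc hRn
      rw [← F.kap hb2 (hc 0 (by omega)) (fun h2 => by
        have := hRn.right
        rwa [h2] at this) (fun h3 => hc 1 (by omega))]
      exact rC_kap h1 (by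
        intro h2
        have h3 := hc 0 (by omega)
        rw [h2, zero_mul] at h3
        exact Complex.exp_ne_zero (Q 2) (by linear_combination h3))
    obtain ⟨k, hk⟩ := end_ring' hb2 hr'.hw hr'.hm hr'.hp F hl hP (by simpa using hcr)
    refine ⟨k, ?_⟩
    rw [← hk, lW, if_pos rfl, ldT_ring_2]
    have e : lT .ring b false true x = Fh (x 2 - x 1 + 1 / 2) + Fh (x 2 + x 1 + 1 / 2) - 2 * Fh (x 2) := by
      have e2 : Fh (1 - x 2) = -Fh (x 2) := Fh_one_sub _
      rw [sub_eq_add_neg _ (x 2)] at e2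
      simp [lT, lquad, facs, hL, hR, Fac.form, Fin.sum_univ_three, qq2, rr1, hx, e2]
      ring_nf
    rw [e]

/-- The formula for the last twist region. -/
theorem last_cs {t : Typ} (h : LH t b true false x) (F : FanE P Q b.natAbs)
    (hc : ChQ (lC t b true false x) Q (b.natAbs - 2)) :
    EndCS t b true false x (x 0) (ldT t b true false x 0) P Q := by
  rw [lC_tf] at hc
  have hok := h.ok
  have hfour := h.four
  have hls := h.ls
  have hRn := run_tf h
  rw [lC_tf] at hRn
  obtain ⟨hx, h1, h2⟩ := h.rr0 rfl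
  have hl : Complex.exp (sgB b * (2 * Real.pi * Complex.I * x 0) + Q 0) = -Complex.exp (Q 2) := by
    rw [← hat_exp, ← hRn.left]
    exact hc 0 (by omega)
  cases t with
  | one => exact absurd rfl h1
  | threeR => exact absurd rfl h2
  | fourL => exact absurd rfl hfour.1
  | fourR => exact absurd rfl hfour.2
  | two =>
    have hb1 : b.natAbs = 2 := hok
    rw [hb1] at F
    obtain ⟨k, hk⟩ := end_two' hb1 (LS_two_l hls).1 F hl
    refine ⟨k, ?_⟩
    rw [← hk, lW, if_neg (by decide), ldT_two_0, hx]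
    have e : lT .two b true false x = un b * (x 0 ^ 2 + x 0) - Fh (x 0) := by
      have e2 : Fh (1 - x 0) = -Fh (x 0) := Fh_one_sub _
      rw [sub_eq_add_neg _ (x 0)] at e2
      simp [lT, lquad, facs, hL, hR, Fac.form, Fin.sum_univ_three, qq2, rr1, hx, e2]
      ring_nf
    rw [e]
    ring_nf
  | threeL =>
    have hb1 : b.natAbs = 3 := hok
    rw [hb1] at F
    have hm := h.mid rfl
    rw [ldT_threeL_1, hx] at hm
    obtain ⟨k, hk⟩ := end_three' hb1 (LS_threeL_l hls) (LS_threeL hls).1 (LS_threeL hls).2.2 F hl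
      (by
        rw [← hat_exp]
        exact hc 1 (by omega)) (by
        rw [add_zero] at hm
        linear_combination hm)
    refine ⟨k, ?_⟩
    rw [← hk, lW, if_neg (by decide), ldT_threeL_0]
    have e : lT .threeL b true false x = un b * (2 * x 0 * x 1 + x 1 ^ 2 - x 1) - Fh (x 1 - x 0) -
        Fh (x 0) := by
      have e2 : Fh (1 - x 0) = -Fh (x 0) := Fh_one_sub _
      have e1 : Fh (1 - x 1) = -Fh (x 1) := Fh_one_sub _
      have e12 : Fh (1 - (x 1 - x 0)) = -Fh (x 1 - x 0) := Fh_one_sub _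
      rw [sub_eq_add_neg _ (x 0)] at e2
      rw [sub_eq_add_neg _ (x 1)] at e1
      rw [show 1 - (x 1 - x 0) = 1 + (x 0 + -x 1) by ring] at e12
      simp [lT, lquad, facs, hL, hR, Fac.form, Fin.sum_univ_three, qq2, rr1, hx, e2, e1, e12]
      ring_nf
    rw [e]
    ring_nf
  | ring =>
    have hb2 : 2 ≤ b.natAbs := by
      rcases h.big with h1 | h1
      · exact h1
      · cases h1
    obtain ⟨hs, hcr, -, hnv⟩ := h.ring rfl
    have hr' := LS_ring_l hls hs
    have hP : Complex.exp (2 * P) = (2 * Complex.cos (Real.pi * x 1)) ^ 2 := by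
      have h1 := hnv rfl 0 (by omega)
      rw [Nat.cast_zero, zero_mul, add_zero] at h1
      have e : lE .ring b (x 0) (x 1) = rC b (x 0) (x 1) := rfl
      rw [e] at hc hRn
      rw [← F.kap hb2 (hc 0 (by omega)) (fun h2 => by
        have := hRn.right
        rwa [h2] at this) (fun h3 => hc 1 (by omega))]
      exact rC_kap h1 (by
        intro h2
        have h3 := hc 0 (by omega)
        rw [h2, zero_mul] at h3
        exact Complex.exp_ne_zero (Q 2) (by linear_combination h3))
    obtain ⟨k, hk⟩ := end_ring' hb2 hr'.hw hr'.hm hr'.hp F hl hP (by simpa using hcr)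
    refine ⟨k, ?_⟩
    rw [← hk, lW, if_pos rfl, ldT_ring_0]
    have e : lT .ring b true false x = Fh (x 0 - x 1 + 1 / 2) + Fh (x 0 + x 1 + 1 / 2) - 2 * Fh (x 0) := by
      have e2 : Fh (1 - x 0) = -Fh (x 0) := Fh_one_sub _
      rw [sub_eq_add_neg _ (x 0)] at e2
      simp [lT, lquad, facs, hL, hR, Fac.form, Fin.sum_univ_three, qq2, rr1, hx, e2]
      ring_nf
    rw [e]

end Pool.Agent.Work.MP_b30479_gt.G2
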