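import Pool.Agent.Work.MP_b30479_gt.G2.CSLay
import Pool.Agent.Work.MP_b30479_gt.G2.ADat

/-!
# The formula for a signed word, and the merging of digits `±1`
-/

namespace Pool.Agent.Work.MP_b30479_gt.G2

open Finset

/-- the last pivot and the value before the last one -/
noncomputable def fpe : ℂ → ℂ → ℂ → List ℤ → ℂ × ℂ
  | _, _, _, [] => (1, 1)
  | p, q0, q1, [b] => (p, fan p q0 q1 (b.natAbs - 1))
  | p, q0, q1, b :: c :: w => fpe (fan p q0 q1 b.natAbs) p (nq b c p q0 q1) (c :: w)

/-- six times the constant -/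
def kapL : List ℤ → ℤ
  | [] => 0
  | [b] => -b
  | b :: c :: w => -b + (if b * c < 0 then 0 else 3) + kapL (c :: w)

/-- the correction at the end of the path -/
noncomputable def cend (s : ℤ) (x : ℂ × ℂ) : ℂ :=
  (Complex.log x.2 - Complex.log x.1) * Complex.log (if 0 < s then x.1 ^ 2 else (x.1 ^ 2)⁻¹)

/-- The formula for a signed word whose first digit is positive: `-i` times the sum over the layers
with principal logarithms, corrected at the two ends of the path (`log (i y)` is replaced by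
`log y`), and a constant -/
noncomputable def cvL (y : ℂ) (w : List ℤ) : ℂ :=
  -(Complex.I * (rsum (Lys 2 y 0 (Complex.I * y) w) +
    (Complex.log (Complex.I * y) - Complex.log y) * Complex.log (y ^ 2) +
    cend (lst w) (fpe y 0 (Complex.I * y) w))) +
  Real.pi ^ 2 * Complex.I * (kapL w / 6 + 2 / 3 + if 0 < lst w then 2 / 3 else 5 / 6)

/-- congruence modulo `π² i` -/
def Ci (x y : ℂ) : Prop := ∃ k : ℤ, x - y = Real.pi ^ 2 * Complex.I * k

/-! ### invariance -/

lemma fpe_shift {z : ℤ} (w : List ℤ) (hz : z ≠ 0) (p a b : ℂ) :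
    fpe p a b ((z + z.sign) :: w) = fpe p b (p * b - a) (z :: w) := by
  have ha := (sign_abs hz).1
  have h1 : 1 ≤ z.natAbs := by omega
  cases w with
  | nil =>
    show (p, fan p a b ((z + z.sign).natAbs - 1)) = (p, fan p b (p * b - a) (z.natAbs - 1))
    rw [ha, fan_shift, show z.natAbs + 1 - 1 = z.natAbs - 1 + 1 by omega]
  | cons c w =>
    show fpe (fan p a b (z + z.sign).natAbs) p (nq (z + z.sign) c p a b) (c :: w) =
      fpe (fan p b (p * b - a) z.natAbs) p (nq z c p b (p * b - a)) (c :: w)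
    rw [nq_sign hz, fan_shift, ha]

lemma fpe_merge {x y z : ℤ} (w : List ℤ) (hxy : x * y < 0) (hyz : y * z < 0) (hy : y.natAbs = 1)
    (p q0 q1 : ℂ) :
    fpe p q0 q1 (x :: y :: z :: w) = fpe p q0 q1 ((x + x.sign) :: (z + z.sign) :: w) := by
  have hx0 : x ≠ 0 := by rintro rfl; simp at hxy
  have hz0 : z ≠ 0 := by rintro rfl; simp at hyz
  have hxa := (sign_abs hx0).1
  have hsame : ¬ (x + x.sign) * (z + z.sign) < 0 := by
    rw [sign_mul_iff hx0, mul_comm, sign_mul_iff hz0, mul_neg_iff']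
    rw [mul_neg_iff'] at hxy hyz
    omega
  set F := fan p q0 q1 with hF
  have e1 : nq x y p q0 q1 = F (x.natAbs + 1) := if_pos hxy
  have e2 : nq (x + x.sign) (z + z.sign) p q0 q1 = F x.natAbs := by
    rw [nq, if_neg hsame, hxa, Nat.add_sub_cancel]
  have e3 : nq y z (F x.natAbs) p (F (x.natAbs + 1)) = F (x.natAbs + 1) * F x.natAbs - p := by
    rw [nq, if_pos hyz, hy]
    show F x.natAbs * F (x.natAbs + 1) - p = _
    rw [mul_comm]
  have e4 : fan (F x.natAbs) p (F (x.natAbs + 1)) y.natAbs = F (x.natAbs + 1) := by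
    rw [hy]
    rfl
  show fpe (fan (F x.natAbs) p (nq x y p q0 q1) y.natAbs) (F x.natAbs)
      (nq y z (F x.natAbs) p (nq x y p q0 q1)) (z :: w) =
    fpe (F (x + x.sign).natAbs) p (nq (x + x.sign) (z + z.sign) p q0 q1) ((z + z.sign) :: w)
  rw [e1, e2, e3, e4, hxa, fpe_shift w hz0]

lemma fpe_congr {x c c' : ℤ} {w w' : List ℤ} (hc : x * c < 0 ↔ x * c' < 0)
    (h : ∀ p q0 q1, fpe p q0 q1 (c :: w) = fpe p q0 q1 (c' :: w')) (p q0 q1 : ℂ) :
    fpe p q0 q1 (x :: c :: w) = fpe p q0 q1 (x :: c' :: w') := by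
  have e : nq x c p q0 q1 = nq x c' p q0 q1 := by
    unfold nq
    simp only [hc]
  show fpe (fan p q0 q1 x.natAbs) p (nq x c p q0 q1) (c :: w) =
    fpe (fan p q0 q1 x.natAbs) p (nq x c' p q0 q1) (c' :: w')
  rw [e, h]

lemma kapL_cons (b c : ℤ) (w : List ℤ) :
    kapL (b :: c :: w) = -b + (if b * c < 0 then 0 else 3) + kapL (c :: w) := rfl

lemma kapL_sign {z : ℤ} (w : List ℤ) (hz : z ≠ 0) : kapL ((z + z.sign) :: w) = kapL (z :: w) - z.sign := by
  cases w with
  | nil =>
    show -(z + z.sign) = -z - z.sign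
    ring
  | cons c w =>
    rw [kapL_cons, kapL_cons]
    simp only [sign_mul_iff hz]
    ring

lemma lst_cons (x y : ℤ) (l : List ℤ) : lst (x :: y :: l) = lst (y :: l) := rfl

lemma lst_sign {z : ℤ} (w : List ℤ) (hz : z ≠ 0) : 0 < lst ((z + z.sign) :: w) ↔ 0 < lst (z :: w) := by
  cases w with
  | nil => exact sign_pos_iff hz
  | cons c w => exact Iff.rfl

/-- what the merging preserves -/
structure MgI (m l : List ℤ) : Prop where
  fpe : ∀ p q0 q1, fpe p q0 q1 m = G2.fpe p q0 q1 l
  lst : 0 < lst m ↔ 0 < G2.lst l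
  kapL : ∃ k : ℤ, kapL m = G2.kapL l + 6 * k

theorem mg_inv : ∀ (n : ℕ) (x : ℤ) (l : List ℤ), l.length ≤ n → AL (x :: l) →
    MgI (mg (x :: l)) (x :: l) := by
  intro n
  induction n with
  | zero =>
    intro x l hl h
    have : l = [] := List.length_eq_zero_iff.mp (by omega)
    subst this
    rw [mg]
    exact ⟨fun _ _ _ => rfl, Iff.rfl, 0, by simp⟩
  | succ n ih =>
    intro x l hl h
    match l, hl, h with
    | [], _, h => rw [mg]; exact ⟨fun _ _ _ => rfl, Iff.rfl, 0, by simp⟩
    | [y], _, h => rw [mg]; exact ⟨fun _ _ _ => rfl, Iff.rfl, 0, by simp⟩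
    | y :: z :: l, hl, h =>
      simp only [List.length_cons] at hl
      by_cases hc : y.natAbs = 1 ∧ 3 ≤ x.natAbs ∧ 3 ≤ z.natAbs
      · have hz : AL (z :: l) := h.tail.tail
        have hz0 := hz.head
        have hx0 := h.head
        rw [mg_pos hc]
        have hI := ih (z + z.sign) l (by omega) (AL_sign hz)
        obtain ⟨c, r, h2, h3⟩ := mg_head (AL_sign hz)
        rw [h2] at hI ⊢
        refine ⟨fun p q0 q1 => ?_, ?_, ?_⟩
        · rw [fpe_merge l h.1 h.2.1 hc.1]
          exact fpe_congr (h3 _) hI.fpe p q0 q1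
        · rw [lst_cons, lst_cons, lst_cons, hI.lst, lst_sign l hz0]
        · obtain ⟨k, hk⟩ := hI.kapL
          have hxy := h.1
          have hyz := h.2.1
          have hs : ¬ (x + x.sign) * c < 0 := by
            rw [h3, sign_mul_iff hx0, mul_comm, sign_mul_iff hz0, mul_neg_iff']
            rw [mul_neg_iff'] at hxy hyz
            omega
          rw [kapL_cons, kapL_cons, kapL_cons, if_neg hs, if_pos hxy, if_pos hyz, hk, kapL_sign l hz0]
          rw [mul_neg_iff'] at hxy hyz
          rcases hxy with ⟨a1, a2⟩ | ⟨a1, a2⟩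
          · have : y = -1 := by omega
            subst this
            rw [Int.sign_eq_one_of_pos a1, Int.sign_eq_one_of_pos (by omega : 0 < z)]
            exact ⟨k, by ring⟩
          · have : y = 1 := by omega
            subst this
            rw [Int.sign_eq_neg_one_of_neg a1, Int.sign_eq_neg_one_of_neg (by omega : z < 0)]
            exact ⟨k + 1, by ring⟩
      · have hyz : AL (y :: z :: l) := h.2
        rw [mg_neg hc]
        have hI := ih y (z :: l) (by simpa using (by omega : l.length + 1 ≤ n)) hyz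
        obtain ⟨c, r, h2, h3⟩ := mg_head hyz
        rw [h2] at hI ⊢
        refine ⟨fun p q0 q1 => fpe_congr (h3 _) hI.fpe p q0 q1, ?_, ?_⟩
        · rw [lst_cons, lst_cons, hI.lst]
        · obtain ⟨k, hk⟩ := hI.kapL
          refine ⟨k, ?_⟩
          rw [kapL_cons, kapL_cons x y]
          simp only [h3]
          rw [hk]
          ring

/-- The formula is invariant under the merging. -/
theorem cvL_mg {x : ℤ} {l : List ℤ} (h : AL (x :: l)) (h1 : 2 ≤ x.natAbs) (h2 : 2 ≤ (lst (x :: l)).natAbs)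
    (y : ℂ) : Ci (cvL y (mg (x :: l))) (cvL y (x :: l)) := by
  have hI := mg_inv l.length x l le_rfl h
  have hL := (Lys_mg l.length x l le_rfl h 2 h1 y 0 (Complex.I * y)).1
  obtain ⟨k, hk⟩ := hI.kapL
  have hs := hI.lst
  refine ⟨k, ?_⟩
  unfold cvL cend
  rw [hL, hI.fpe, hk]
  simp only [hs]
  push_cast
  ring

end Pool.Agent.Work.MP_b30479_gt.G2
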