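import Pool.Agent.Work.MP_b30479_gt.G2.LFive

/-!
# Five-term relations in a fan

Logarithms of the values of a Markoff map on a fan: `P` for the pivot `p`, `Q l` for `q (l - 1)`,
`q (l - 1) + q (l + 1) = p q l`, `q (l - 1) q (l + 1) = q l ^ 2 + p ^ 2`.
-/

namespace Pool.Agent.Work.MP_b30479_gt.G2

open Finset

/-- half a layer: the edge `p, q l`, third vertices `q (l - 1)`, `q (l + 1)` -/
noncomputable def hly (P : ℂ) (Q : ℕ → ℂ) (l : ℕ) : ℂ :=
  rl (2 * Q (l + 1) - Q l - Q (l + 2)) (2 * P - Q l - Q (l + 2))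

/-- logarithms of the values on a fan -/
structure Fan (P : ℂ) (Q : ℕ → ℂ) (b : ℕ) : Prop where
  lin : ∀ l ≤ b, Complex.exp (P + Q (l + 1)) = Complex.exp (Q l) + Complex.exp (Q (l + 2))
  sqr : ∀ l ≤ b, Complex.exp (Q l + Q (l + 2)) = Complex.exp (2 * Q (l + 1)) + Complex.exp (2 * P)

/-- `1 / (1 - Y)` -/
noncomputable def lamc (P : ℂ) (Q : ℕ → ℂ) (l : ℕ) : ℂ :=
  rl (Q l - P - Q (l + 1)) (Q (l + 2) - P - Q (l + 1))

/-- a letter -/
noncomputable def ltr (P : ℂ) (Q : ℕ → ℂ) (l : ℕ) : ℂ :=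
  rl (Q (l + 1) + Q (l + 2) - Q l - Q (l + 3)) (3 * P - Q l - Q (l + 3))

/-- the product of two hinges -/
noncomputable def ltt (P : ℂ) (Q : ℕ → ℂ) (l : ℕ) : ℂ :=
  rl (2 * Q (l + 2) - Q l - Q (l + 4)) (4 * P - Q l - Q (l + 4))

/-- twice the layers of an inner twist region and one half of its two hinges -/
noncomputable def rs (b : ℕ) (P : ℂ) (Q : ℕ → ℂ) : ℂ :=
  ∑ l ∈ range b, (hly P Q l + hly P Q (l + 1))

variable {P : ℂ} {Q : ℕ → ℂ} {b : ℕ}

theorem five (c01 c02 c03 c04 c12 c13 c14 c23 c24 c34 : ℂ)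
    (h0 : Complex.exp (c14 + c23) + Complex.exp (c12 + c34) = Complex.exp (c13 + c24))
    (h1 : Complex.exp (c04 + c23) + Complex.exp (c02 + c34) = Complex.exp (c03 + c24))
    (h2 : Complex.exp (c04 + c13) + Complex.exp (c01 + c34) = Complex.exp (c03 + c14))
    (h3 : Complex.exp (c04 + c12) + Complex.exp (c01 + c24) = Complex.exp (c02 + c14))
    (h4 : Complex.exp (c03 + c12) + Complex.exp (c01 + c23) = Complex.exp (c02 + c13)) :
    Cg (rl (c14 + c23 - c13 - c24) (c12 + c34 - c13 - c24) -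
      rl (c04 + c23 - c03 - c24) (c02 + c34 - c03 - c24) +
      rl (c04 + c13 - c03 - c14) (c01 + c34 - c03 - c14) -
      rl (c04 + c12 - c02 - c14) (c01 + c24 - c02 - c14) +
      rl (c03 + c12 - c02 - c13) (c01 + c23 - c02 - c13)) 0 := by
  have h := rl_five (![![0, c01, c02, c03, c04], ![0, 0, c12, c13, c14], ![0, 0, 0, c23, c24],
    ![0, 0, 0, 0, c34], ![0, 0, 0, 0, 0]] : Fin 5 → Fin 5 → ℂ) h0 h1 h2 h3 h4
  exact h

lemma exp_two (x : ℂ) : Complex.exp (2 * x) = Complex.exp x ^ 2 := by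
  rw [← Complex.exp_nat_mul]; norm_num

lemma exp_three (x : ℂ) : Complex.exp (3 * x) = Complex.exp x ^ 3 := by
  rw [← Complex.exp_nat_mul]; norm_num

lemma exp_four (x : ℂ) : Complex.exp (4 * x) = Complex.exp x ^ 4 := by
  rw [← Complex.exp_nat_mul]; norm_num

lemma exp_one_of {x y z : ℂ} (h : Complex.exp x + Complex.exp y = Complex.exp z) :
    Complex.exp (x - z) + Complex.exp (y - z) = 1 := by
  rw [Complex.exp_sub, Complex.exp_sub, ← add_div, h, div_self (Complex.exp_ne_zero z)]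

lemma Cg.sub {x y x' y' : ℂ} (h : Cg x y) (h' : Cg x' y') : Cg (x - x') (y - y') := by
  rw [sub_eq_add_neg, sub_eq_add_neg]
  exact h.add h'.neg

lemma Cg.sum {ι : Type*} {s : Finset ι} {f g : ι → ℂ} (h : ∀ i ∈ s, Cg (f i) (g i)) :
    Cg (∑ i ∈ s, f i) (∑ i ∈ s, g i) := by
  classical
  induction s using Finset.induction_on with
  | empty => simpa using Cg.refl 0
  | insert a s ha ih =>
    rw [sum_insert ha, sum_insert ha]
    exact (h a (mem_insert_self a s)).add (ih fun i hi => h i (mem_insert_of_mem hi))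

/-- `q (l - 1) q (l + 2) = q l q (l + 1) + p ^ 3` -/
lemma Fan.three (F : Fan P Q b) {l : ℕ} (hl : l + 1 ≤ b) :
    Complex.exp (Q (l + 1) + Q (l + 2)) + Complex.exp (3 * P) = Complex.exp (Q l + Q (l + 3)) := by
  have a1 := F.lin l (by omega)
  have a2 := F.lin (l + 1) hl
  have m1 := F.sqr l (by omega)
  rw [show l + 1 + 1 = l + 2 by ring, show l + 1 + 2 = l + 3 by ring] at a2
  simp only [Complex.exp_add, exp_two, exp_three] at *
  have e2 : Complex.exp (Q (l + 3)) = Complex.exp P * Complex.exp (Q (l + 2)) -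
      Complex.exp (Q (l + 1)) := by rw [a2]; ring
  rw [e2]
  linear_combination -(Complex.exp P) * m1 - Complex.exp (Q (l + 1)) * a1

/-- `q (l - 1) q (l + 3) = q (l + 1) ^ 2 + p ^ 4` -/
lemma Fan.four (F : Fan P Q b) {l : ℕ} (hl : l + 2 ≤ b) :
    Complex.exp (2 * Q (l + 2)) + Complex.exp (4 * P) = Complex.exp (Q l + Q (l + 4)) := by
  have a1 := F.lin l (by omega)
  have a3 := F.lin (l + 2) hl
  have m3 := F.three (l := l) (by omega)
  rw [show l + 2 + 1 = l + 3 by ring, show l + 2 + 2 = l + 4 by ring] at a3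
  simp only [Complex.exp_add, exp_two, exp_three, exp_four] at *
  have e2 : Complex.exp (Q (l + 4)) = Complex.exp P * Complex.exp (Q (l + 3)) -
      Complex.exp (Q (l + 2)) := by rw [a3]; ring
  rw [e2]
  linear_combination (Complex.exp P) * m3 - Complex.exp (Q (l + 2)) * a1

/-- two half layers -/
theorem hly_add (F : Fan P Q b) {l : ℕ} (hl : l + 1 ≤ b) :
    Cg (hly P Q l + hly P Q (l + 1)) (ltr P Q l + lamc P Q (l + 1) - lamc P Q l) := by
  have a1 := F.lin l (by omega)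
  have a2 := F.lin (l + 1) hl
  have m1 := F.sqr l (by omega)
  have m2 := F.sqr (l + 1) hl
  have m3 := F.three hl
  rw [show l + 1 + 1 = l + 2 by ring, show l + 1 + 2 = l + 3 by ring] at a2 m2
  obtain ⟨k, hk⟩ := five P (2 * P) (Q l) (Q (l + 1)) P (Q (l + 1)) (Q (l + 2)) (Q (l + 2)) (Q (l + 3)) P
    (by rw [m2, ← two_mul, ← two_mul]) (by rw [show 2 * P + P = 3 * P by ring]; exact m3)
    (by rw [m1, ← two_mul, ← two_mul])
    (by rw [show 2 * P + Q (l + 2) = P + (P + Q (l + 2)) by ring, Complex.exp_add P (P + Q (l + 2)),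
          a2]; simp only [Complex.exp_add]; ring)
    (by rw [show 2 * P + Q (l + 1) = P + (P + Q (l + 1)) by ring, Complex.exp_add P (P + Q (l + 1)),
          a1]; simp only [Complex.exp_add]; ring)
  refine ⟨k, ?_⟩
  rw [← hk]
  unfold hly lamc ltr
  rw [show l + 1 + 1 = l + 2 by ring, show l + 1 + 2 = l + 3 by ring]
  ring_nf

lemma lam_one (F : Fan P Q b) {l : ℕ} (hl : l ≤ b) :
    Complex.exp (Q l - P - Q (l + 1)) + Complex.exp (Q (l + 2) - P - Q (l + 1)) = 1 := by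
  have h := exp_one_of (F.lin l hl).symm
  rwa [sub_add_eq_sub_sub, sub_add_eq_sub_sub] at h

lemma ltr_one (F : Fan P Q b) {l : ℕ} (hl : l + 1 ≤ b) :
    Complex.exp (Q (l + 1) + Q (l + 2) - Q l - Q (l + 3)) +
      Complex.exp (3 * P - Q l - Q (l + 3)) = 1 := by
  have h := exp_one_of (F.three hl)
  rwa [sub_add_eq_sub_sub, sub_add_eq_sub_sub] at h

lemma ltt_one (F : Fan P Q b) {l : ℕ} (hl : l + 2 ≤ b) :
    Complex.exp (2 * Q (l + 2) - Q l - Q (l + 4)) + Complex.exp (4 * P - Q l - Q (l + 4)) = 1 := by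
  have h := exp_one_of (F.four hl)
  rwa [sub_add_eq_sub_sub, sub_add_eq_sub_sub] at h

lemma hly_one (F : Fan P Q b) {l : ℕ} (hl : l ≤ b) :
    Complex.exp (2 * Q (l + 1) - Q l - Q (l + 2)) + Complex.exp (2 * P - Q l - Q (l + 2)) = 1 := by
  have h := exp_one_of (F.sqr l hl).symm
  rwa [sub_add_eq_sub_sub, sub_add_eq_sub_sub] at h

/-- two letters -/
theorem ltr_add (F : Fan P Q b) {l : ℕ} (hl : l + 2 ≤ b) :
    Cg (ltr P Q l + ltr P Q (l + 1)) (ltt P Q l + lamc P Q (l + 2) - lamc P Q l) := by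
  have a1 := F.lin l (by omega)
  have a3 := F.lin (l + 2) (by omega)
  have m3 := F.three (l := l) (by omega)
  have m3' := F.three (l := l + 1) (by omega)
  have m4 := F.four hl
  rw [show l + 2 + 1 = l + 3 by ring, show l + 2 + 2 = l + 4 by ring] at a3
  rw [show l + 1 + 1 = l + 2 by ring, show l + 1 + 2 = l + 3 by ring,
    show l + 1 + 3 = l + 4 by ring] at m3'
  obtain ⟨k, hk⟩ := five (Q (l + 2)) (Q l) (2 * P) P (2 * P) (Q (l + 4)) (Q (l + 3)) (Q (l + 2))
    (Q (l + 1)) P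
    (by rw [show 2 * P + P = 3 * P by ring, add_comm (Q (l + 3)), m3', add_comm (Q (l + 4))])
    (by rw [show 2 * P + Q (l + 1) = P + (P + Q (l + 1)) by ring, Complex.exp_add P (P + Q (l + 1)),
          a1]; simp only [Complex.exp_add]; ring)
    (by rw [show 2 * P + Q (l + 3) = P + (P + Q (l + 3)) by ring, Complex.exp_add P (P + Q (l + 3)),
          a3]; simp only [Complex.exp_add]; ring)
    (by rw [show P + 2 * P = 3 * P by ring, ← m3]; ring_nf)
    (by rw [show 2 * P + 2 * P = 4 * P by ring, ← m4]; ring_nf)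
  obtain ⟨k1, h1⟩ := rl_symm (lam_one F (l := l) (by omega))
  obtain ⟨k2, h2⟩ := rl_symm (lam_one F (l := l + 2) (by omega))
  obtain ⟨k3, h3⟩ := rl_symm (ltr_one F (l := l) (by omega))
  obtain ⟨k4, h4⟩ := rl_symm (ltt_one F (l := l) hl)
  refine ⟨k + k1 - k2 + k3 - k4, ?_⟩
  unfold ltt lamc ltr
  rw [show l + 1 + 1 = l + 2 by ring, show l + 1 + 2 = l + 3 by ring,
    show l + 1 + 3 = l + 4 by ring, show l + 2 + 1 = l + 3 by ring, show l + 2 + 2 = l + 4 by ring]
  rw [show l + 2 + 1 = l + 3 by ring, show l + 2 + 2 = l + 4 by ring] at h2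
  rw [show Q (l + 3) + Q (l + 2) - Q (l + 4) - Q (l + 1) = Q (l + 2) + Q (l + 3) - Q (l + 1) - Q (l + 4)
      by ring, show 2 * P + P - Q (l + 4) - Q (l + 1) = 3 * P - Q (l + 1) - Q (l + 4) by ring,
    show P + Q (l + 2) - 2 * P - Q (l + 1) = Q (l + 2) - P - Q (l + 1) by ring,
    show Q l + P - 2 * P - Q (l + 1) = Q l - P - Q (l + 1) by ring,
    show P + Q (l + 4) - 2 * P - Q (l + 3) = Q (l + 4) - P - Q (l + 3) by ring,
    show Q (l + 2) + P - 2 * P - Q (l + 3) = Q (l + 2) - P - Q (l + 3) by ring,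
    show P + 2 * P - Q l - Q (l + 3) = 3 * P - Q l - Q (l + 3) by ring,
    show Q (l + 2) + Q (l + 1) - Q l - Q (l + 3) = Q (l + 1) + Q (l + 2) - Q l - Q (l + 3) by ring,
    show 2 * P + 2 * P - Q l - Q (l + 4) = 4 * P - Q l - Q (l + 4) by ring,
    show Q (l + 2) + Q (l + 2) - Q l - Q (l + 4) = 2 * Q (l + 2) - Q l - Q (l + 4) by ring] at hk
  push_cast
  linear_combination hk + h1 - h2 + h3 - h4

/-- an inner twist region in letters -/
theorem rs_ltr (F : Fan P Q b) :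
    Cg (rs b P Q) (∑ l ∈ range b, ltr P Q l + lamc P Q b - lamc P Q 0) := by
  have h : ∀ k ≤ b, Cg (∑ l ∈ range k, (hly P Q l + hly P Q (l + 1)))
      (∑ l ∈ range k, ltr P Q l + lamc P Q k - lamc P Q 0) := by
    intro k
    induction k with
    | zero => intro _; simpa using Cg.refl 0
    | succ k ih =>
      intro hk
      obtain ⟨m, hm⟩ := ih (by omega)
      obtain ⟨n, hn⟩ := hly_add F (l := k) (by omega)
      refine ⟨m + n, ?_⟩
      rw [sum_range_succ, sum_range_succ]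
      push_cast
      linear_combination hm + hn
  exact h b le_rfl

end Pool.Agent.Work.MP_b30479_gt.G2
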