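import Pool.Agent.Work.MP_b30479_gt.G2.CSLay
import Pool.Agent.Work.MP_b30479_gt.G2.CSHat
import Pool.Agent.Work.MP_b30479_gt.G2.CSPent

/-!
# Neumann's function and the halves of the layers
-/

namespace Pool.Agent.Work.MP_b30479_gt.G2

open Finset

/-- Neumann's function in terms of the extended Rogers dilogarithm -/
theorem RN_rl {z w0 w1 : ℂ} (h0 : Complex.exp w0 = -z) (h1 : Complex.exp w1 * (1 - z) = 1) :
    Cq (RN z w0 w1) (-rl (w0 + w1) w1 - Real.pi ^ 2 / 3) := by
  have eA : Complex.exp (w0 + Real.pi * Complex.I) = z := by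
    rw [Complex.exp_add, Complex.exp_pi_mul_I, h0]
    ring
  have hz : (1 : ℂ) - z ≠ 0 := right_ne_zero_of_mul_eq_one h1
  have eB : Complex.exp (-w1) = 1 - z := by
    rw [Complex.exp_neg]
    exact (eq_inv_of_mul_eq_one_right h1).symm
  have hAB : Complex.exp (w0 + Real.pi * Complex.I) + Complex.exp (-w1) = 1 := by
    rw [eA, eB]
    ring
  have hlog : Complex.exp (Complex.log (1 - z)) = Complex.exp (-w1) := by
    rw [Complex.exp_log hz, eB]
  obtain ⟨k, hk⟩ := exp_eq_int hlog
  have e1 : rl (w0 + Real.pi * Complex.I) (-w1) = RN z w0 w1 +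
      Real.pi * Complex.I / 2 * Complex.log (1 - z) := by
    unfold rl RN
    rw [eA]
    ring
  obtain ⟨l, hl⟩ := rl_symm hAB
  obtain ⟨m, hm⟩ := rl_inv' (α' := w1) (β' := w0 + w1) (by rw [add_comm]; exact hAB)
    (by rw [← Complex.exp_add, add_neg_cancel, Complex.exp_zero])
    (by rw [← Complex.exp_add, eA, show w0 + w1 + -w1 = w0 by ring, h0])
  have h3 : Complex.exp w1 + Complex.exp (w0 + w1) = 1 := by
    rw [Complex.exp_add, h0]
    linear_combination h1
  obtain ⟨n, hn⟩ := rl_symm h3
  refine ⟨k + 2 * l - m + 2 * n, ?_⟩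
  push_cast
  linear_combination -e1 - Real.pi * Complex.I / 2 * hk + hl - hm + hn - Real.pi ^ 2 * k * Complex.I_sq

section
variable {b : ℤ} {p : ℂ} {V : ℕ → ℂ} {l : ℕ}

/-- one half of a layer -/
theorem hly_RL (hp : p ≠ 0) (h0 : V l ≠ 0) (h1 : V (l + 1) ≠ 0) (h2 : V (l + 2) ≠ 0)
    (hs : V l * V (l + 2) = V (l + 1) ^ 2 + p ^ 2) :
    Cq (sgB b * hly (Complex.log p) (fun l => Complex.log (V l)) l)
      (-RL (layV b p V l) - Real.pi ^ 2 / 3 + if 0 < b then (0 : ℂ) else Real.pi ^ 2 / 6) := by
  have hV : V (l + 1) ^ 2 + p ^ 2 ≠ 0 := by rw [← hs]; exact mul_ne_zero h0 h2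
  unfold hly RL layV sgB zL
  by_cases hb : 0 < b
  · simp only [if_pos hb, one_mul, add_zero]
    obtain ⟨k, hk⟩ := RN_rl (z := -(V (l + 1) / p) ^ 2)
      (w0 := 2 * Complex.log (V (l + 1)) - 2 * Complex.log p)
      (w1 := 2 * Complex.log p - Complex.log (V l) - Complex.log (V (l + 2)))
      (by
        rw [Complex.exp_sub, exp_two, exp_two, Complex.exp_log h1, Complex.exp_log hp, neg_neg, div_pow])
      (by
        rw [Complex.exp_sub, Complex.exp_sub, exp_two, Complex.exp_log hp, Complex.exp_log h0,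
          Complex.exp_log h2]
        field_simp
        rw [mul_comm] at hs
        linear_combination -hs)
    refine ⟨k, ?_⟩
    rw [show 2 * Complex.log (V (l + 1)) - 2 * Complex.log p +
      (2 * Complex.log p - Complex.log (V l) - Complex.log (V (l + 2))) =
      2 * Complex.log (V (l + 1)) - Complex.log (V l) - Complex.log (V (l + 2)) by ring] at hk
    linear_combination hk
  · simp only [if_neg hb]
    obtain ⟨k, hk⟩ := RN_rl (z := -(p / V (l + 1)) ^ 2)
      (w0 := 2 * Complex.log p - 2 * Complex.log (V (l + 1)))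
      (w1 := 2 * Complex.log (V (l + 1)) - Complex.log (V l) - Complex.log (V (l + 2)))
      (by
        rw [Complex.exp_sub, exp_two, exp_two, Complex.exp_log h1, Complex.exp_log hp, neg_neg, div_pow])
      (by
        rw [Complex.exp_sub, Complex.exp_sub, exp_two, Complex.exp_log h1, Complex.exp_log h0,
          Complex.exp_log h2]
        field_simp
        linear_combination -hs)
    rw [show 2 * Complex.log p - 2 * Complex.log (V (l + 1)) +
      (2 * Complex.log (V (l + 1)) - Complex.log (V l) - Complex.log (V (l + 2))) =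
      2 * Complex.log p - Complex.log (V l) - Complex.log (V (l + 2)) by ring] at hk
    have h3 : Complex.exp (2 * Complex.log p - Complex.log (V l) - Complex.log (V (l + 2))) +
        Complex.exp (2 * Complex.log (V (l + 1)) - Complex.log (V l) - Complex.log (V (l + 2))) = 1 := by
      rw [Complex.exp_sub, Complex.exp_sub, Complex.exp_sub, Complex.exp_sub, exp_two, exp_two,
        Complex.exp_log h1, Complex.exp_log h0, Complex.exp_log h2, Complex.exp_log hp]
      field_simp
      linear_combination -hs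
    obtain ⟨n, hn⟩ := rl_symm h3
    refine ⟨k - 2 * n, ?_⟩
    push_cast
    linear_combination hk - hn

end

end Pool.Agent.Work.MP_b30479_gt.G2
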