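import Pool.Agent.Work.MP_b30479_gt.G2.CSPent
import Pool.Agent.Work.MP_b30479_gt.LT.H.AlgH

/-!
# The complexified volume: the fan and the fixed points of its translation

`Z = log z`, `p = z + 1 / z`, `z q - q' = p e^{B}`.
-/

namespace Pool.Agent.Work.MP_b30479_gt.G2

open Finset VOL

/-- a fan with `z`, `p = z + 1 / z` -/
structure RFan (P Z B : ℂ) (Q : ℕ → ℂ) (b : ℕ) : Prop where
  fan : Fan P Q b
  pz : Complex.exp P = Complex.exp Z + Complex.exp (-Z)
  base : Complex.exp (Q 0 + Z) = Complex.exp (Q 1) + Complex.exp (P + B)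

variable {P Z B : ℂ} {Q : ℕ → ℂ} {b : ℕ}

lemma RFan.e1 (F : RFan P Z B Q b) {k : ℕ} (hk : k ≤ b + 1) :
    Complex.exp (Q k + Z) = Complex.exp (Q (k + 1)) + Complex.exp (P + B - k * Z) := by
  induction k with
  | zero => simpa using F.base
  | succ k ih =>
    have h := ih (by omega)
    have hl := F.fan.lin k (by omega)
    have hp := F.pz
    have e : Complex.exp (P + B - (k + 1 : ℕ) * Z) =
        Complex.exp (P + B - k * Z) * Complex.exp (-Z) := by
      rw [← Complex.exp_add]; congr 1; push_cast; ring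
    have hz : Complex.exp Z * Complex.exp (-Z) = 1 := by
      rw [← Complex.exp_add, add_neg_cancel, Complex.exp_zero]
    rw [e, Complex.exp_add (Q (k + 1)) Z]
    rw [Complex.exp_add (Q k) Z] at h
    rw [Complex.exp_add P (Q (k + 1)), hp] at hl
    linear_combination hl + Complex.exp (-Z) * h - Complex.exp (Q k) * hz

/-- `q² + q'² - p q q' = - p²` -/
lemma Fan.quad (F : Fan P Q b) {k : ℕ} (hk : k ≤ b + 1) :
    Complex.exp P * Complex.exp (Q k) * Complex.exp (Q (k + 1)) =
      Complex.exp (Q k) ^ 2 + Complex.exp (Q (k + 1)) ^ 2 + Complex.exp P ^ 2 := by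
  rcases Nat.lt_or_ge b k with h | h
  · have hkb : k = b + 1 := by omega
    subst hkb
    have h1 := F.lin b le_rfl
    have h2 := F.sqr b le_rfl
    simp only [Complex.exp_add, exp_two] at h1 h2
    rw [show b + 1 + 1 = b + 2 by ring]
    linear_combination h2 + Complex.exp (Q (b + 2)) * h1
  · have h1 := F.lin k h
    have h2 := F.sqr k h
    simp only [Complex.exp_add, exp_two] at h1 h2
    linear_combination h2 + Complex.exp (Q k) * h1

lemma RFan.e2 (F : RFan P Z B Q b) {k : ℕ} (hk : k ≤ b + 1) :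
    Complex.exp (Q (k + 1) + B - k * Z) =
      Complex.exp P + Complex.exp (Q k + B - (k + 1) * Z) := by
  have h := F.e1 hk
  have hq := F.fan.quad hk
  have hp := F.pz
  have hz : Complex.exp Z * Complex.exp (-Z) = 1 := by
    rw [← Complex.exp_add, add_neg_cancel, Complex.exp_zero]
  have e0 : Complex.exp (P + B - k * Z) = Complex.exp P * Complex.exp (B - k * Z) := by
    rw [← Complex.exp_add]; congr 1; ring
  have e1 : Complex.exp (Q (k + 1) + B - k * Z) = Complex.exp (Q (k + 1)) * Complex.exp (B - k * Z) := by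
    rw [← Complex.exp_add]; congr 1; ring
  have e2 : Complex.exp (Q k + B - (k + 1) * Z) =
      Complex.exp (Q k) * Complex.exp (B - k * Z) * Complex.exp (-Z) := by
    rw [← Complex.exp_add, ← Complex.exp_add]; congr 1; ring
  rw [e1, e2]
  rw [e0, Complex.exp_add (Q k) Z] at h
  apply mul_left_cancel₀ (Complex.exp_ne_zero P)
  generalize Complex.exp (B - k * Z) = E at *
  generalize Complex.exp (Q k) = q at *
  generalize Complex.exp (Q (k + 1)) = q' at *
  generalize Complex.exp P = p at *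
  generalize Complex.exp Z = z at *
  generalize Complex.exp (-Z) = y at *
  have hE : p * E = q * z - q' := by rw [h]; ring
  linear_combination (q' - q * y) * hE + hq - q * q' * hp - q ^ 2 * hz

/-- the value at `q' / (z q)` -/
noncomputable def cnn (P Z B : ℂ) (Q : ℕ → ℂ) (k : ℕ) : ℂ :=
  rl (Q (k + 1) - Q k - Z) (P + B - (k + 1) * Z - Q k)

/-- the value at `q / (z q')`, exchanged -/
noncomputable def cmm (P Z B : ℂ) (Q : ℕ → ℂ) (k : ℕ) : ℂ :=
  rl (P - Q (k + 1) - B + k * Z) (Q k - Q (k + 1) - Z)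

/-- the sum of the two -/
noncomputable def cNN (P Z B : ℂ) (Q : ℕ → ℂ) (k : ℕ) : ℂ := cnn P Z B Q k + cmm P Z B Q k

/-- the first face of a hinge -/
noncomputable def cmu (P Z B : ℂ) (Q : ℕ → ℂ) (l : ℕ) : ℂ :=
  rl (Q (l + 2) - Q l - 2 * Z) (2 * P + B - (l + 2) * Z - Q l)

/-- the second face of a hinge -/
noncomputable def cmv (P Z B : ℂ) (Q : ℕ → ℂ) (l : ℕ) : ℂ :=
  rl (Q l - Q (l + 2) - 2 * Z) (2 * P - B + l * Z - Q (l + 2))

lemma nn_one (F : RFan P Z B Q b) {k : ℕ} (hk : k ≤ b + 1) :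
    Complex.exp (Q (k + 1) - Q k - Z) + Complex.exp (P + B - (k + 1) * Z - Q k) = 1 := by
  have h := exp_one_of (F.e1 hk).symm
  rwa [show Q (k + 1) - (Q k + Z) = Q (k + 1) - Q k - Z by ring,
    show P + B - k * Z - (Q k + Z) = P + B - (k + 1) * Z - Q k by ring] at h

lemma mm_one (F : RFan P Z B Q b) {k : ℕ} (hk : k ≤ b + 1) :
    Complex.exp (P - Q (k + 1) - B + k * Z) + Complex.exp (Q k - Q (k + 1) - Z) = 1 := by
  have h := exp_one_of (F.e2 hk).symm
  rwa [show P - (Q (k + 1) + B - k * Z) = P - Q (k + 1) - B + k * Z by ring,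
    show Q k + B - (k + 1) * Z - (Q (k + 1) + B - k * Z) = Q k - Q (k + 1) - Z by ring] at h

lemma mu_one (F : RFan P Z B Q b) {l : ℕ} (hl : l ≤ b) :
    Complex.exp (Q (l + 2) - Q l - 2 * Z) + Complex.exp (2 * P + B - (l + 2) * Z - Q l) = 1 := by
  have a0 := F.e1 (k := l) (by omega)
  have a1 := F.e1 (k := l + 1) (by omega)
  rw [show l + 1 + 1 = l + 2 by ring] at a1
  have hp := F.pz
  have hz : Complex.exp Z * Complex.exp (-Z) = 1 := by
    rw [← Complex.exp_add, add_neg_cancel, Complex.exp_zero]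
  have key : Complex.exp (Q (l + 2)) + Complex.exp (2 * P + B - l * Z) = Complex.exp (Q l + 2 * Z) := by
    have e1 : Complex.exp (2 * P + B - l * Z) = Complex.exp P * Complex.exp (P + B - l * Z) := by
      rw [← Complex.exp_add]; ring_nf
    have e2 : Complex.exp (P + B - (l + 1 : ℕ) * Z) = Complex.exp (P + B - l * Z) * Complex.exp (-Z) := by
      rw [← Complex.exp_add]; congr 1; push_cast; ring
    have e3 : Complex.exp (Q l + 2 * Z) = Complex.exp (Q l + Z) * Complex.exp Z := by
      rw [← Complex.exp_add]; ring_nf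
    rw [e2, Complex.exp_add (Q (l + 1)) Z] at a1
    rw [e1, e3, a0, hp]
    linear_combination -a1
  have h := exp_one_of key
  rwa [show Q (l + 2) - (Q l + 2 * Z) = Q (l + 2) - Q l - 2 * Z by ring,
    show 2 * P + B - l * Z - (Q l + 2 * Z) = 2 * P + B - (l + 2) * Z - Q l by ring] at h

lemma mv_one (F : RFan P Z B Q b) {l : ℕ} (hl : l ≤ b) :
    Complex.exp (Q l - Q (l + 2) - 2 * Z) + Complex.exp (2 * P - B + l * Z - Q (l + 2)) = 1 := by
  have c0 := F.e2 (k := l) (by omega)
  have c1 := F.e2 (k := l + 1) (by omega)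
  rw [show l + 1 + 1 = l + 2 by ring] at c1
  have hp := F.pz
  have hz : Complex.exp Z * Complex.exp (-Z) = 1 := by
    rw [← Complex.exp_add, add_neg_cancel, Complex.exp_zero]
  have key : Complex.exp (Q l - 2 * Z) + Complex.exp (2 * P - B + l * Z) = Complex.exp (Q (l + 2)) := by
    have e1 : Complex.exp (Q (l + 2)) = Complex.exp (Q (l + 2) + B - (l + 1 : ℕ) * Z) *
        (Complex.exp (-B + l * Z) * Complex.exp Z) := by
      rw [← Complex.exp_add, ← Complex.exp_add]; congr 1; push_cast; ring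
    have e2 : Complex.exp (Q (l + 1) + B - ((l + 1 : ℕ) + 1) * Z) =
        Complex.exp (Q (l + 1) + B - l * Z) * (Complex.exp (-Z) * Complex.exp (-Z)) := by
      rw [← Complex.exp_add, ← Complex.exp_add]; congr 1; push_cast; ring
    have e3 : Complex.exp (2 * P - B + l * Z) = Complex.exp P * Complex.exp P * Complex.exp (-B + l * Z) := by
      rw [← Complex.exp_add, ← Complex.exp_add]; congr 1; ring
    have e4 : Complex.exp (Q l - 2 * Z) = Complex.exp (Q l + B - (l + 1) * Z) *
        Complex.exp (-B + l * Z) * Complex.exp (-Z) := by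
      rw [← Complex.exp_add, ← Complex.exp_add]; congr 1; ring
    rw [e1, c1, e2, c0, e3, e4]
    generalize Complex.exp (Q l + B - (l + 1) * Z) = q at *
    generalize Complex.exp (-B + l * Z) = g at *
    generalize Complex.exp P = p at *
    generalize Complex.exp Z = z at *
    generalize Complex.exp (-Z) = y at *
    linear_combination p * g * hp - (p * g * y + q * g * y) * hz
  have h := exp_one_of key
  rwa [show Q l - 2 * Z - Q (l + 2) = Q l - Q (l + 2) - 2 * Z by ring] at h

/-- half a layer telescopes -/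
theorem hly_NN (F : RFan P Z B Q b) {l : ℕ} (hl : l ≤ b) :
    Cg (hly P Q l) (cNN P Z B Q l - cNN P Z B Q (l + 1)) := by
  have s := F.fan.sqr l hl
  have a0 := F.e1 (k := l) (by omega)
  have a1 := F.e1 (k := l + 1) (by omega)
  have c0 := F.e2 (k := l) (by omega)
  have c1 := F.e2 (k := l + 1) (by omega)
  rw [show l + 1 + 1 = l + 2 by ring] at a1 c1
  obtain ⟨k, hk⟩ := five P (Q l) (Q (l + 1)) 0 (Q (l + 1)) (Q (l + 2)) Z P (B - l * Z)
    (B - (l + 1) * Z)
    (by
      have e0 : Complex.exp (Q (l + 2) + (B - l * Z)) =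
          Complex.exp (Q (l + 2) + B - (l + 1 : ℕ) * Z) * Complex.exp Z := by
        rw [← Complex.exp_add]; congr 1; push_cast; ring
      have e3 : Complex.exp (Z + P) = Complex.exp P * Complex.exp Z := by
        rw [add_comm, Complex.exp_add]
      have e4 : Complex.exp (Q (l + 1) + (B - (l + 1) * Z)) =
          Complex.exp (Q (l + 1) + B - ((l + 1 : ℕ) + 1) * Z) * Complex.exp Z := by
        rw [← Complex.exp_add]; congr 1; push_cast; ring
      rw [e0, c1, e3, e4]
      ring)
    (by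
      rw [zero_add, show Q (l + 1) + (B - l * Z) = Q (l + 1) + B - l * Z by ring, c0]
      ring_nf)
    (by
      rw [zero_add, a1]
      push_cast
      ring_nf)
    (by
      rw [zero_add, a0]
      ring_nf)
    (by rw [s, ← two_mul, ← two_mul])
  refine ⟨k, ?_⟩
  rw [← hk]
  unfold hly cNN cnn cmm
  rw [show l + 1 + 1 = l + 2 by ring]
  push_cast
  ring_nf

theorem rs_NN (F : RFan P Z B Q b) {c : ℕ} (hc : c ≤ b) :
    Cg (rs c P Q) (cNN P Z B Q 0 + cNN P Z B Q 1 - cNN P Z B Q c - cNN P Z B Q (c + 1)) := by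
  induction c with
  | zero => simpa [rs] using Cg.refl 0
  | succ c ih =>
    obtain ⟨k, hk⟩ := ih (by omega)
    obtain ⟨l, hl⟩ := hly_NN F (l := c) (by omega)
    obtain ⟨m, hm⟩ := hly_NN F (l := c + 1) (by omega)
    refine ⟨k + l + m, ?_⟩
    have e : rs (c + 1) P Q = rs c P Q + (hly P Q c + hly P Q (c + 1)) := by
      unfold rs
      rw [sum_range_succ]
    rw [e]
    push_cast
    linear_combination hk + hl + hm

/-- the constant face -/
noncomputable def kk (P Z : ℂ) : ℂ := rl (Z - P) (-Z - P)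

theorem nn_add (F : RFan P Z B Q b) {l : ℕ} (hl : l ≤ b) :
    Cg (cnn P Z B Q l + cnn P Z B Q (l + 1))
      (cmu P Z B Q l - lamc P Q l - kk P Z - Real.pi ^ 2 / 6) := by
  have s := F.fan.lin l hl
  have a0 := F.e1 (k := l) (by omega)
  have a1 := F.e1 (k := l + 1) (by omega)
  rw [show l + 1 + 1 = l + 2 by ring] at a1
  have hp := F.pz
  have hz : Complex.exp Z * Complex.exp (-Z) = 1 := by
    rw [← Complex.exp_add, add_neg_cancel, Complex.exp_zero]
  have f1 : Complex.exp (Q (l + 2) - Z) + Complex.exp (P + B - (l + 2) * Z) = Complex.exp (Q (l + 1)) := by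
    have e0 : Complex.exp (Q (l + 2) - Z) = Complex.exp (Q (l + 2)) * Complex.exp (-Z) := by
      rw [← Complex.exp_add]; ring_nf
    have e1 : Complex.exp (P + B - (l + 2) * Z) = Complex.exp (P + B - (l + 1 : ℕ) * Z) * Complex.exp (-Z) := by
      rw [← Complex.exp_add]; congr 1; push_cast; ring
    rw [Complex.exp_add] at a1
    rw [e0, e1]
    linear_combination -Complex.exp (-Z) * a1 + Complex.exp (Q (l + 1)) * hz
  have f2 : Complex.exp (Z + (P + B - (l + 2) * Z)) + Complex.exp (-Z + Q (l + 1)) = Complex.exp (Q l) := by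
    have e0 : Complex.exp (-Z + Q (l + 1)) = Complex.exp (Q (l + 1)) * Complex.exp (-Z) := by
      rw [← Complex.exp_add]; ring_nf
    have e1 : Complex.exp (Z + (P + B - (l + 2) * Z)) = Complex.exp (P + B - l * Z) * Complex.exp (-Z) := by
      rw [← Complex.exp_add]; congr 1; ring
    rw [Complex.exp_add] at a0
    rw [e0, e1]
    linear_combination -Complex.exp (-Z) * a0 + Complex.exp (Q l) * hz
  have f3 : Complex.exp (P + (P + B - (l + 2) * Z)) + Complex.exp (-Z + (Q (l + 2) - Z)) =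
      Complex.exp (Q l) := by
    have e1 : Complex.exp (P + (P + B - (l + 2) * Z)) = Complex.exp P * Complex.exp (P + B - (l + 2) * Z) :=
      Complex.exp_add _ _
    have e2 : Complex.exp (-Z + (Q (l + 2) - Z)) = Complex.exp (-Z) * Complex.exp (Q (l + 2) - Z) :=
      Complex.exp_add _ _
    have e3 : Complex.exp (Z + (P + B - (l + 2) * Z)) = Complex.exp Z * Complex.exp (P + B - (l + 2) * Z) :=
      Complex.exp_add _ _
    rw [e3, Complex.exp_add] at f2
    rw [e1, e2, hp]
    linear_combination f2 + Complex.exp (-Z) * f1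
  obtain ⟨k, hk⟩ := five (-Z) (Q l) P Z (P + B - (l + 2) * Z) 0 0 (Q (l + 2) - Z) (Q (l + 1)) 0
    (by rw [zero_add, zero_add, add_zero, f1])
    (by rw [add_zero, show Z + (Q (l + 2) - Z) = Q (l + 2) by ring, s, add_comm])
    (by rw [add_zero, add_zero, add_zero, hp])
    (by rw [add_zero, f2])
    (by rw [add_zero, f3])
  obtain ⟨k1, h1⟩ := rl_symm (lam_one F.fan (l := l) hl)
  obtain ⟨k2, h2⟩ := rl_symm (nn_one F (k := l) (by omega))
  obtain ⟨k3, h3⟩ := rl_symm (α := Q (l + 2) - Q l - 2 * Z) (β := 2 * P + B - (l + 2) * Z - Q l) (by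
    have h := exp_one_of f3
    rw [add_comm, show -Z + (Q (l + 2) - Z) - Q l = Q (l + 2) - Q l - 2 * Z by ring,
      show P + (P + B - (l + 2) * Z) - Q l = 2 * P + B - (l + 2) * Z - Q l by ring] at h
    exact h)
  refine ⟨k + k1 + k2 - k3, ?_⟩
  unfold cnn cmu lamc kk
  rw [show l + 1 + 1 = l + 2 by ring]
  rw [show (0 : ℂ) + (Q (l + 2) - Z) - 0 - Q (l + 1) = Q (l + 2) - Q (l + 1) - Z by ring,
    show P + B - (l + 2) * Z + 0 - 0 - Q (l + 1) = P + B - (((l + 1 : ℕ) : ℂ) + 1) * Z - Q (l + 1) by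
      push_cast; ring,
    show Z + (Q (l + 2) - Z) - P - Q (l + 1) = Q (l + 2) - P - Q (l + 1) by ring,
    show Q l + 0 - P - Q (l + 1) = Q l - P - Q (l + 1) by ring,
    show Z + 0 - P - 0 = Z - P by ring, show -Z + 0 - P - 0 = -Z - P by ring,
    show Z + (P + B - (l + 2) * Z) - Q l - 0 = P + B - (l + 1) * Z - Q l by ring,
    show -Z + Q (l + 1) - Q l - 0 = Q (l + 1) - Q l - Z by ring,
    show P + (P + B - (l + 2) * Z) - Q l - 0 = 2 * P + B - (l + 2) * Z - Q l by ring,
    show -Z + (Q (l + 2) - Z) - Q l - 0 = Q (l + 2) - Q l - 2 * Z by ring] at hk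
  push_cast at hk ⊢
  linear_combination hk + h1 + h2 - h3

theorem mm_add (F : RFan P Z B Q b) {l : ℕ} (hl : l ≤ b) :
    Cg (cmm P Z B Q l + cmm P Z B Q (l + 1))
      (-cmv P Z B Q l - lamc P Q l + kk P Z - Real.pi ^ 2 / 3) := by
  have s := F.fan.lin l hl
  have c0 := F.e2 (k := l) (by omega)
  have c1 := F.e2 (k := l + 1) (by omega)
  rw [show l + 1 + 1 = l + 2 by ring] at c1
  have hp := F.pz
  have hz : Complex.exp Z * Complex.exp (-Z) = 1 := by
    rw [← Complex.exp_add, add_neg_cancel, Complex.exp_zero]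
  -- `q (l + 1)` from `q l`
  have f1 : Complex.exp (Q l - Z) + Complex.exp (P - B + l * Z) = Complex.exp (Q (l + 1)) := by
    have e0 : Complex.exp (Q l - Z) = Complex.exp (Q l + B - (l + 1) * Z) * Complex.exp (-B + l * Z) := by
      rw [← Complex.exp_add]; ring_nf
    have e1 : Complex.exp (P - B + l * Z) = Complex.exp P * Complex.exp (-B + l * Z) := by
      rw [← Complex.exp_add]; ring_nf
    have e2 : Complex.exp (Q (l + 1)) = Complex.exp (Q (l + 1) + B - l * Z) * Complex.exp (-B + l * Z) := by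
      rw [← Complex.exp_add]; ring_nf
    rw [e0, e1, e2, c0]
    ring
  have f2 : Complex.exp (Z + (P - B + l * Z)) + Complex.exp (-Z + Q (l + 1)) = Complex.exp (Q (l + 2)) := by
    have e0 : Complex.exp (-Z + Q (l + 1)) = Complex.exp (Q (l + 1) + B - ((l + 1 : ℕ) + 1) * Z) *
        Complex.exp (-B + (l + 1) * Z) := by
      rw [← Complex.exp_add]; congr 1; push_cast; ring
    have e1 : Complex.exp (Z + (P - B + l * Z)) = Complex.exp P * Complex.exp (-B + (l + 1) * Z) := by
      rw [← Complex.exp_add]; ring_nf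
    have e2 : Complex.exp (Q (l + 2)) = Complex.exp (Q (l + 2) + B - (l + 1 : ℕ) * Z) *
        Complex.exp (-B + (l + 1) * Z) := by
      rw [← Complex.exp_add]; congr 1; push_cast; ring
    rw [e0, e1, e2, c1]
    ring
  have f3 : Complex.exp (P + (P - B + l * Z)) + Complex.exp (-Z + (Q l - Z)) =
      Complex.exp (Q (l + 2)) := by
    have e1 : Complex.exp (P + (P - B + l * Z)) = Complex.exp P * Complex.exp (P - B + l * Z) :=
      Complex.exp_add _ _
    have e2 : Complex.exp (-Z + (Q l - Z)) = Complex.exp (-Z) * Complex.exp (Q l - Z) :=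
      Complex.exp_add _ _
    have e3 : Complex.exp (Z + (P - B + l * Z)) = Complex.exp Z * Complex.exp (P - B + l * Z) :=
      Complex.exp_add _ _
    have e4 : Complex.exp (-Z + Q (l + 1)) = Complex.exp (-Z) * Complex.exp (Q (l + 1)) :=
      Complex.exp_add _ _
    rw [e3, e4] at f2
    rw [e1, e2, hp]
    linear_combination f2 + Complex.exp (-Z) * f1
  obtain ⟨k, hk⟩ := five (-Z) (Q (l + 2)) P Z (P - B + l * Z) 0 0 (Q l - Z) (Q (l + 1)) 0
    (by rw [zero_add, zero_add, add_zero, f1])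
    (by rw [add_zero, show Z + (Q l - Z) = Q l by ring, s])
    (by rw [add_zero, add_zero, add_zero, hp])
    (by rw [add_zero, f2])
    (by rw [add_zero, f3])
  obtain ⟨k2, h2⟩ := rl_symm (mm_one F (k := l) (by omega))
  obtain ⟨k3, h3⟩ := rl_symm (α := Q l - Q (l + 2) - 2 * Z) (β := 2 * P - B + l * Z - Q (l + 2)) (by
    have h := exp_one_of f3
    rw [add_comm, show -Z + (Q l - Z) - Q (l + 2) = Q l - Q (l + 2) - 2 * Z by ring,
      show P + (P - B + l * Z) - Q (l + 2) = 2 * P - B + l * Z - Q (l + 2) by ring] at h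
    exact h)
  refine ⟨-k + k2 + k3, ?_⟩
  unfold cmm cmv lamc kk
  rw [show l + 1 + 1 = l + 2 by ring]
  rw [show (0 : ℂ) + (Q l - Z) - 0 - Q (l + 1) = Q l - Q (l + 1) - Z by ring,
    show P - B + l * Z + 0 - 0 - Q (l + 1) = P - Q (l + 1) - B + l * Z by ring,
    show Z + (Q l - Z) - P - Q (l + 1) = Q l - P - Q (l + 1) by ring,
    show Q (l + 2) + 0 - P - Q (l + 1) = Q (l + 2) - P - Q (l + 1) by ring,
    show Z + 0 - P - 0 = Z - P by ring, show -Z + 0 - P - 0 = -Z - P by ring,
    show Z + (P - B + l * Z) - Q (l + 2) - 0 = P - Q (l + 2) - B + ((l + 1 : ℕ) : ℂ) * Z by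
      push_cast; ring,
    show -Z + Q (l + 1) - Q (l + 2) - 0 = Q (l + 1) - Q (l + 2) - Z by ring,
    show P + (P - B + l * Z) - Q (l + 2) - 0 = 2 * P - B + l * Z - Q (l + 2) by ring,
    show -Z + (Q l - Z) - Q (l + 2) - 0 = Q l - Q (l + 2) - 2 * Z by ring] at hk
  push_cast at hk ⊢
  linear_combination -hk + h2 + h3

theorem NN_add (F : RFan P Z B Q b) {l : ℕ} (hl : l ≤ b) :
    Cg (cNN P Z B Q l + cNN P Z B Q (l + 1))
      (cmu P Z B Q l - cmv P Z B Q l - 2 * lamc P Q l - Real.pi ^ 2 / 2) := by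
  obtain ⟨k, hk⟩ := nn_add F hl
  obtain ⟨m, hm⟩ := mm_add F hl
  refine ⟨k + m, ?_⟩
  unfold cNN
  push_cast
  linear_combination hk + hm

end Pool.Agent.Work.MP_b30479_gt.G2
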