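import Pool.Agent.Work.MP_b30479_gt.G2.CSHat
import Pool.Agent.Work.MP_b30479_gt.G2.CSPent

/-!
# The complexified volume, twist regions with one, two and three crossings
-/

namespace Pool.Agent.Work.MP_b30479_gt.G2

open Finset VOL

/-- the contribution of a twist region to `-2πi T - (π²/2) ∑ b` (sum over the rings) -/
noncomputable def lW (t : Typ) (b : ℤ) (l r : Bool) (x : Fin 3 → ℂ) : ℂ :=
  -(2 * Real.pi * Complex.I * lT t b l r x) -
    if t = .ring then 2 * Real.pi * Complex.I * (Real.pi * Complex.I * b * x 1 ^ 2 +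
      2 * Real.pi * Complex.I * x 1) + Real.pi ^ 2 * b / 2 else 0

/-- the contribution of a hinge; it changes its sign with `E` and `D` -/
noncomputable def hng (X E w D : ℂ) : ℂ := X * D / 2 + Real.pi * Complex.I * w * (D - E)

lemma hng_neg (X E w D : ℂ) : hng X (-E) w (-D) = -hng X E w D := by
  unfold hng
  ring

/-- the formula for an inner twist region -/
def RunCS (t : Typ) (b : ℤ) (x : Fin 3 → ℂ) (P : ℂ) (Q : ℕ → ℂ) : Prop :=
  Cq (sgB b * rs b.natAbs P Q)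
    (lW t b true true x +
      hng (sgB b * (Q 2 - Q 0)) (2 * P - 2 * Q 1) (x 0) (ldT t b true true x 0) +
      hng (sgB b * (Q b.natAbs - Q (b.natAbs + 2))) (2 * P - 2 * Q (b.natAbs + 1)) (x 2)
        (ldT t b true true x 2) + Real.pi ^ 2 * b / 2)

/-- twice the layers of a twist region at an end and one half of its hinge -/
noncomputable def rsE (b : ℕ) (P : ℂ) (Q : ℕ → ℂ) : ℂ :=
  rs (b - 2) P Q + hly P Q (b - 2) + 2 * (Q b - P) * (P - Q (b - 1))

/-- the formula for a twist region at an end, hinge `w` -/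
def EndCS (t : Typ) (b : ℤ) (l r : Bool) (x : Fin 3 → ℂ) (w D : ℂ) (P : ℂ) (Q : ℕ → ℂ) : Prop :=
  Cq (sgB b * rsE b.natAbs P Q)
    (lW t b l r x + hng (sgB b * (Q 2 - Q 0)) (2 * P - 2 * Q 1) w D +
      Real.pi ^ 2 * (b / 2 - sgB b / 6))

variable {b : ℤ} {x : Fin 3 → ℂ} {P : ℂ} {Q : ℕ → ℂ}

lemma lT_one : lT .one b true true x = un b * (2 * (x 0 + x 2 - x 0 * x 2)) +
    Fh (x 0 + x 2) - Fh (x 0) - Fh (x 2) := by
  rw [sub_eq_add_neg _ (Fh (x 2)), sub_eq_add_neg _ (Fh (x 0)), ← Fh_one_sub (x 0), ← Fh_one_sub (x 2)]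
  simp [lT, lquad, facs, Fac.form, Fin.sum_univ_three, qq2, rr1]
  ring_nf

/-- the logarithm of a hinge -/
lemma hinge_int {a q q' : ℂ} (h : Complex.exp (a + q) = -Complex.exp q') :
    ∃ k : ℤ, q' = a + q + Real.pi * Complex.I * (2 * k + 1) := by
  have h1 : Complex.exp q' = Complex.exp (a + q + Real.pi * Complex.I) := by
    rw [Complex.exp_add _ (Real.pi * Complex.I), Complex.exp_pi_mul_I, h]
    ring
  obtain ⟨n, hn⟩ := exp_eq_int h1
  exact ⟨n, by rw [hn]; ring⟩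

lemma exp_hinge {a q q' : ℂ} (h : Complex.exp (a + q) = -Complex.exp q') (c : ℂ) :
    Complex.exp (q' - c) = -Complex.exp (a + (q - c)) := by
  rw [← add_sub_assoc, Complex.exp_sub, Complex.exp_sub, h]
  ring

theorem run_one' (hb : b.natAbs = 1) (h0 : x 0 ∈ strip) (h2 : x 2 ∈ strip) (h02 : x 0 + x 2 ∈ strip)
    (F : Fan P Q 1) (hl : Complex.exp (sgB b * (2 * Real.pi * Complex.I * x 0) + Q 0) = -Complex.exp (Q 2))
    (hr : Complex.exp (sgB b * (2 * Real.pi * Complex.I * x 2) + Q 3) = -Complex.exp (Q 1)) :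
    RunCS .one b x P Q := by
  obtain ⟨k1, e1⟩ := rs_ltr F
  have hlam0 := lam_one F (l := 0) (by omega)
  have hlam1 := lam_one F (l := 1) (by omega)
  obtain ⟨k4, e4⟩ := rl_symm hlam1
  obtain ⟨k3, e3⟩ := lam_fs h0 hlam0 (by
    have := exp_hinge hl (P + Q 1)
    rw [sub_add_eq_sub_sub, sub_add_eq_sub_sub] at this
    exact this)
  obtain ⟨k5, e5⟩ := lam_fs h2 (by rw [add_comm]; exact hlam1) (by
    have := exp_hinge hr (P + Q 2)
    rw [sub_add_eq_sub_sub, sub_add_eq_sub_sub] at this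
    exact this)
  obtain ⟨m, hm⟩ := hinge_int hl
  obtain ⟨n, hn⟩ := hinge_int hr
  have hf := fs_one (b := b) h02
  have hL := ltr_one F (l := 0) (by omega)
  have hA : Complex.exp (Q (0 + 1) + Q (0 + 2) - Q 0 - Q (0 + 3)) =
      Complex.exp (sgB b * (2 * Real.pi * Complex.I * (x 0 + x 2))) := by
    have : Q (0 + 1) + Q (0 + 2) - Q 0 - Q (0 + 3) =
        sgB b * (2 * Real.pi * Complex.I * (x 0 + x 2)) + (m + n + 1 : ℤ) * (2 * Real.pi * Complex.I) := by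
      simp only [zero_add]
      rw [hm, hn]; push_cast; ring
    rw [this, Complex.exp_add, Complex.exp_int_mul_two_pi_mul_I, mul_one]
  obtain ⟨k2, e2⟩ := rl_shift' hf hA (by
    have : Complex.exp (3 * P - Q 0 - Q (0 + 3)) = 1 - Complex.exp (Q (0 + 1) + Q (0 + 2) - Q 0 - Q (0 + 3)) := by
      rw [← hL]; ring
    rw [this, hA, ← hf]; ring)
  obtain ⟨k6, e6⟩ := Fh_fs (b := b) h02
  obtain ⟨k7, e7⟩ := Fh_fs (b := b) h0
  obtain ⟨k8, e8⟩ := Fh_fs (b := b) h2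
  change ltr P Q 0 - (fs b (x 0 + x 2) + _) = _ at e2
  change lamc P Q 0 - _ = _ at e3
  change _ - (-lamc P Q 1 - _) = _ at e4
  rw [sum_range_one] at e1
  simp only [zero_add] at *
  unfold RunCS lW hng
  rw [hb, lT_one, if_neg (by decide), ldT_one_0, ldT_one_2, un_sgB]
  simp only [show 1 + 2 = 3 from rfl, show 1 + 1 = 2 from rfl] at *
  unfold Bs at *
  generalize rl (Q 3 - P - Q 2) (Q 1 - P - Q 2) = R at *
  generalize ltr P Q 0 = L0 at *
  generalize lamc P Q 0 = M0 at *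
  generalize lamc P Q 1 = M1 at *
  generalize rs 1 P Q = RR at *
  generalize fs b (x 0 + x 2) = f02 at *
  generalize fs b (x 0) = f0 at *
  generalize fs b (x 2) = f2 at *
  clear F hl hr hlam0 hlam1 hf hL hA
  generalize Q 0 = q0 at *
  generalize Q 1 = q1 at *
  generalize Q 2 = q2 at *
  generalize Q 3 = q3 at *
  subst hm hn
  have hb' : b = 1 ∨ b = -1 := by omega
  rcases hb' with rfl | rfl
  · have hs : sgB 1 = 1 := by simp [sgB]
    rw [hs] at e2 e3 e5 e6 e7 e8 ⊢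
    refine ⟨2 * k1 + 2 * k2 + 2 * k4 - k5 - k3 - 1 - k6 + k7 + k8 + (m + n + 1), ?_⟩
    push_cast
    linear_combination e1 + e2 - e3 + e4 - e5 - e6 + e7 + e8 -
      Real.pi ^ 2 * (m + n + 1) * Complex.I_sq
  · have hs : sgB (-1) = -1 := by simp [sgB]
    rw [hs] at e2 e3 e5 e6 e7 e8 ⊢
    refine ⟨-(2 * k1 + 2 * k2 + 2 * k4 - k5 - k3 - 1) - k6 + k7 + k8 + (m + n + 1), ?_⟩
    push_cast
    linear_combination -e1 - e2 + e3 - e4 + e5 - e6 + e7 + e8 -
      Real.pi ^ 2 * (m + n + 1) * Complex.I_sq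

lemma lT_two : lT .two b true true x = un b * ((x 0 - x 2) ^ 2 + x 0 + x 2) +
    Fh (x 0 + x 2) - 2 * Fh (x 0) - 2 * Fh (x 2) := by
  rw [show un b * ((x 0 - x 2) ^ 2 + x 0 + x 2) + Fh (x 0 + x 2) - 2 * Fh (x 0) - 2 * Fh (x 2) =
    un b * ((x 0 - x 2) ^ 2 + x 0 + x 2) + (Fh (x 0 + x 2) + 2 * (-Fh (x 0)) + 2 * (-Fh (x 2))) by ring,
    ← Fh_one_sub (x 0), ← Fh_one_sub (x 2)]
  simp [lT, lquad, facs, hL, hR, Fac.form, Fin.sum_univ_three, qq2, rr1]
  ring_nf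

theorem run_two' (hb : b.natAbs = 2) (h0 : x 0 ∈ strip) (h2 : x 2 ∈ strip) (h02 : x 0 + x 2 ∈ strip)
    (F : Fan P Q 2) (hl : Complex.exp (sgB b * (2 * Real.pi * Complex.I * x 0) + Q 0) = -Complex.exp (Q 2))
    (hr : Complex.exp (sgB b * (2 * Real.pi * Complex.I * x 2) + Q 4) = -Complex.exp (Q 2)) :
    RunCS .two b x P Q := by
  obtain ⟨k1, e1⟩ := rs_ltr F
  obtain ⟨k9, e9⟩ := ltr_add F (l := 0) (by omega)
  have hlam0 := lam_one F (l := 0) (by omega)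
  have hlam1 := lam_one F (l := 2) (by omega)
  obtain ⟨k4, e4⟩ := rl_symm hlam1
  obtain ⟨k3, e3⟩ := lam_fs h0 hlam0 (by
    have := exp_hinge hl (P + Q 1)
    rw [sub_add_eq_sub_sub, sub_add_eq_sub_sub] at this
    exact this)
  obtain ⟨k5, e5⟩ := lam_fs h2 (by rw [add_comm]; exact hlam1) (by
    have := exp_hinge hr (P + Q 3)
    rw [sub_add_eq_sub_sub, sub_add_eq_sub_sub] at this
    exact this)
  obtain ⟨m, hm⟩ := hinge_int hl
  obtain ⟨n, hn⟩ := hinge_int hr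
  have hf := fs_one (b := b) h02
  have hL := ltt_one F (l := 0) (by omega)
  have hn' : Q 4 = Q 2 - sgB b * (2 * Real.pi * Complex.I * x 2) - Real.pi * Complex.I * (2 * n + 1) := by
    rw [hn]; ring
  have hA : Complex.exp (2 * Q (0 + 2) - Q 0 - Q (0 + 4)) =
      Complex.exp (sgB b * (2 * Real.pi * Complex.I * (x 0 + x 2))) := by
    have : 2 * Q (0 + 2) - Q 0 - Q (0 + 4) =
        sgB b * (2 * Real.pi * Complex.I * (x 0 + x 2)) + (m + n + 1 : ℤ) * (2 * Real.pi * Complex.I) := by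
      simp only [zero_add]
      rw [hn', hm]; push_cast; ring
    rw [this, Complex.exp_add, Complex.exp_int_mul_two_pi_mul_I, mul_one]
  obtain ⟨k2, e2⟩ := rl_shift' hf hA (by
    have : Complex.exp (4 * P - Q 0 - Q (0 + 4)) = 1 - Complex.exp (2 * Q (0 + 2) - Q 0 - Q (0 + 4)) := by
      rw [← hL]; ring
    rw [this, hA, ← hf]; ring)
  obtain ⟨k6, e6⟩ := Fh_fs (b := b) h02
  obtain ⟨k7, e7⟩ := Fh_fs (b := b) h0
  obtain ⟨k8, e8⟩ := Fh_fs (b := b) h2
  change ltt P Q 0 - (fs b (x 0 + x 2) + _) = _ at e2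
  change lamc P Q 0 - _ = _ at e3
  change _ - (-lamc P Q 2 - _) = _ at e4
  rw [sum_range_succ, sum_range_one] at e1
  simp only [zero_add] at *
  unfold RunCS lW hng
  rw [hb, lT_two, if_neg (by decide), ldT_two_0, ldT_two_2, un_sgB]
  simp only [show 2 + 2 = 4 from rfl, show 2 + 1 = 3 from rfl] at *
  unfold Bs at *
  generalize rl (Q 4 - P - Q 3) (Q 2 - P - Q 3) = R at *
  generalize ltt P Q 0 = LL at *
  generalize ltr P Q 0 = L0 at *
  generalize ltr P Q 1 = L1 at *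
  generalize lamc P Q 0 = M0 at *
  generalize lamc P Q 2 = M1 at *
  generalize rs 2 P Q = RR at *
  generalize fs b (x 0 + x 2) = f02 at *
  generalize fs b (x 0) = f0 at *
  generalize fs b (x 2) = f2 at *
  clear F hl hr hlam0 hlam1 hf hL hA hn
  generalize Q 0 = q0 at *
  generalize Q 1 = q1 at *
  generalize Q 2 = q2 at *
  generalize Q 3 = q3 at *
  generalize Q 4 = q4 at *
  subst hn' hm
  have hb' : b = 2 ∨ b = -2 := by omega
  rcases hb' with rfl | rfl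
  · have hs : sgB 2 = 1 := by simp [sgB]
    rw [hs] at e2 e3 e5 e6 e7 e8 ⊢
    refine ⟨2 * k1 + 2 * k9 + 2 * k2 + 4 * k4 - 2 * k5 - 2 * k3 - k6 + 2 * k7 + 2 * k8 - 2, ?_⟩
    push_cast
    linear_combination e1 + e9 + e2 - 2 * e3 + 2 * e4 - 2 * e5 - e6 + 2 * e7 + 2 * e8 +
      Real.pi ^ 2 * (x 0 + x 2) / 2 * Complex.I_sq
  · have hs : sgB (-2) = -1 := by simp [sgB]
    rw [hs] at e2 e3 e5 e6 e7 e8 ⊢
    refine ⟨-(2 * k1 + 2 * k9 + 2 * k2 + 4 * k4 - 2 * k5 - 2 * k3) - k6 + 2 * k7 + 2 * k8 + 2, ?_⟩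
    push_cast
    linear_combination -e1 - e9 - e2 + 2 * e3 - 2 * e4 + 2 * e5 - e6 + 2 * e7 + 2 * e8 -
      Real.pi ^ 2 * (x 0 + x 2) / 2 * Complex.I_sq

lemma lT_threeL : lT .threeL b true true x =
    un b * (2 * x 0 * x 1 + x 1 ^ 2 - 2 * x 1 * x 2 + x 2 ^ 2 - x 1 + x 2) +
    Fh (x 1 + x 2) - Fh (x 1 - x 0) - Fh (x 1) - Fh (x 0) - 2 * Fh (x 2) := by
  rw [show un b * (2 * x 0 * x 1 + x 1 ^ 2 - 2 * x 1 * x 2 + x 2 ^ 2 - x 1 + x 2) +
    Fh (x 1 + x 2) - Fh (x 1 - x 0) - Fh (x 1) - Fh (x 0) - 2 * Fh (x 2) =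
    un b * (2 * x 0 * x 1 + x 1 ^ 2 - 2 * x 1 * x 2 + x 2 ^ 2 - x 1 + x 2) +
    (Fh (x 1 + x 2) + -Fh (x 1 - x 0) + -Fh (x 1) + -Fh (x 0) + 2 * (-Fh (x 2))) by ring,
    ← Fh_one_sub (x 0), ← Fh_one_sub (x 2), ← Fh_one_sub (x 1), ← Fh_one_sub (x 1 - x 0)]
  simp [lT, lquad, facs, hL, hR, Fac.form, Fin.sum_univ_three, qq2, rr1]
  ring_nf

theorem run_threeL' (hb : b.natAbs = 3) (h0 : x 0 ∈ strip) (h1 : x 1 ∈ strip) (h2 : x 2 ∈ strip)
    (h12 : x 1 + x 2 ∈ strip) (h10 : x 1 - x 0 ∈ strip) (F : Fan P Q 3)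
    (hl : Complex.exp (sgB b * (2 * Real.pi * Complex.I * x 0) + Q 0) = -Complex.exp (Q 2))
    (hr : Complex.exp (sgB b * (2 * Real.pi * Complex.I * x 2) + Q 5) = -Complex.exp (Q 3))
    (hi : Complex.exp (sgB b * (2 * Real.pi * Complex.I * x 1) + Q 1) = -Complex.exp (Q 3))
    (hc : ldT .threeL b true true x 1 = 0) : RunCS .threeL b x P Q := by
  obtain ⟨k1, e1⟩ := rs_ltr F
  obtain ⟨k9, e9⟩ := ltr_add F (l := 1) (by omega)
  have hlam0 := lam_one F (l := 0) (by omega)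
  have hlam1 := lam_one F (l := 1) (by omega)
  have hlam3 := lam_one F (l := 3) (by omega)
  obtain ⟨k4, e4⟩ := rl_symm hlam3
  obtain ⟨k3, e3⟩ := lam_fs h0 hlam0 (by
    have := exp_hinge hl (P + Q 1)
    rw [sub_add_eq_sub_sub, sub_add_eq_sub_sub] at this
    exact this)
  obtain ⟨k11, e11⟩ := lam_fs h1 hlam1 (by
    have := exp_hinge hi (P + Q 2)
    rw [sub_add_eq_sub_sub, sub_add_eq_sub_sub] at this
    exact this)
  obtain ⟨k5, e5⟩ := lam_fs h2 (by rw [add_comm]; exact hlam3) (by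
    have := exp_hinge hr (P + Q 4)
    rw [sub_add_eq_sub_sub, sub_add_eq_sub_sub] at this
    exact this)
  obtain ⟨m, hm⟩ := hinge_int hl
  obtain ⟨n, hn⟩ := hinge_int hr
  obtain ⟨j, hj⟩ := hinge_int hi
  have hf := fs_one (b := b) h12
  have hg := fs_one (b := b) h10
  have hL := ltt_one F (l := 1) (by omega)
  have hK := ltr_one F (l := 0) (by omega)
  have hn' : Q 5 = Q 3 - sgB b * (2 * Real.pi * Complex.I * x 2) - Real.pi * Complex.I * (2 * n + 1) := by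
    rw [hn]; ring
  have hA : Complex.exp (2 * Q (1 + 2) - Q 1 - Q (1 + 4)) =
      Complex.exp (sgB b * (2 * Real.pi * Complex.I * (x 1 + x 2))) := by
    have : 2 * Q (1 + 2) - Q 1 - Q (1 + 4) =
        sgB b * (2 * Real.pi * Complex.I * (x 1 + x 2)) + (j + n + 1 : ℤ) * (2 * Real.pi * Complex.I) := by
      simp only [show 1 + 2 = 3 from rfl, show 1 + 4 = 5 from rfl]
      rw [hn', hj]; push_cast; ring
    rw [this, Complex.exp_add, Complex.exp_int_mul_two_pi_mul_I, mul_one]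
  obtain ⟨k2, e2⟩ := rl_shift' hf hA (by
    have : Complex.exp (4 * P - Q 1 - Q (1 + 4)) = 1 - Complex.exp (2 * Q (1 + 2) - Q 1 - Q (1 + 4)) := by
      rw [← hL]; ring
    rw [this, hA, ← hf]; ring)
  have hB : Complex.exp (Q (0 + 1) + Q (0 + 2) - Q 0 - Q (0 + 3)) *
      Complex.exp (sgB b * (2 * Real.pi * Complex.I * (x 1 - x 0))) = 1 := by
    rw [← Complex.exp_add]
    have : Q (0 + 1) + Q (0 + 2) - Q 0 - Q (0 + 3) +
        sgB b * (2 * Real.pi * Complex.I * (x 1 - x 0)) = (m - j : ℤ) * (2 * Real.pi * Complex.I) := by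
      simp only [zero_add]
      rw [hm, hj]; push_cast; ring
    rw [this, Complex.exp_int_mul_two_pi_mul_I]
  obtain ⟨k10, e10⟩ := rl_inv' hg hB (by
    have : Complex.exp (3 * P - Q 0 - Q (0 + 3)) = 1 - Complex.exp (Q (0 + 1) + Q (0 + 2) - Q 0 - Q (0 + 3)) := by
      rw [← hK]; ring
    rw [this, sub_mul, hB, one_mul]; linear_combination hg)
  obtain ⟨k6, e6⟩ := Fh_fs (b := b) h12
  obtain ⟨k7, e7⟩ := Fh_fs (b := b) h0
  obtain ⟨k8, e8⟩ := Fh_fs (b := b) h2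
  obtain ⟨k12, e12⟩ := Fh_fs (b := b) h10
  obtain ⟨k13, e13⟩ := Fh_fs (b := b) h1
  change ltt P Q 1 - (fs b (x 1 + x 2) + _) = _ at e2
  change ltr P Q 0 - (-fs b (x 1 - x 0) + _) = _ at e10
  change lamc P Q 0 - _ = _ at e3
  change lamc P Q 1 - _ = _ at e11
  change _ - (-lamc P Q 3 - _) = _ at e4
  rw [sum_range_succ, sum_range_succ, sum_range_one] at e1
  rw [ldT_threeL_1, un_sgB] at hc
  simp only [zero_add] at *
  unfold RunCS lW hng
  rw [hb, lT_threeL, if_neg (by decide), ldT_threeL_0, ldT_threeL_2, un_sgB]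
  simp only [show 3 + 2 = 5 from rfl, show 3 + 1 = 4 from rfl, show 1 + 1 = 2 from rfl,
    show 1 + 2 = 3 from rfl] at *
  unfold Bs at *
  generalize rl (Q 5 - P - Q 4) (Q 3 - P - Q 4) = R at *
  generalize ltt P Q 1 = LL at *
  generalize ltr P Q 0 = L0 at *
  generalize ltr P Q 1 = L1 at *
  generalize ltr P Q 2 = L2 at *
  generalize lamc P Q 0 = M0 at *
  generalize lamc P Q 1 = M1 at *
  generalize lamc P Q 3 = M3 at *
  generalize rs 3 P Q = RR at *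
  generalize fs b (x 1 + x 2) = f12 at *
  generalize fs b (x 1 - x 0) = f10 at *
  generalize fs b (x 0) = f0 at *
  generalize fs b (x 1) = f1 at *
  generalize fs b (x 2) = f2 at *
  clear F hl hr hi hlam0 hlam1 hlam3 hf hg hL hK hA hB hn
  generalize Q 0 = q0 at *
  generalize Q 1 = q1 at *
  generalize Q 2 = q2 at *
  generalize Q 3 = q3 at *
  generalize Q 4 = q4 at *
  generalize Q 5 = q5 at *
  subst hn' hm hj
  have hb' : b = 3 ∨ b = -3 := by omega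
  rcases hb' with rfl | rfl
  · have hs : sgB 3 = 1 := by simp [sgB]
    rw [hs] at e2 e3 e5 e6 e7 e8 e10 e11 e12 e13 hc ⊢
    refine ⟨2 * k1 + 2 * k9 + 2 * k2 + k10 + 4 * k4 - 2 * k5 - k3 - k11 - k6 + k7 + 2 * k8 + k12 +
      k13 - 3 - j, ?_⟩
    push_cast
    linear_combination e1 + e9 + e2 + e10 - e3 - e11 + 2 * e4 - 2 * e5 - e6 + e7 + 2 * e8 + e12 + e13 +
      Real.pi * Complex.I * (2 * x 1 + j + 1 / 2) * hc +
      Real.pi ^ 2 * (1 / 2 + x 1 / 2 + x 2 / 2 + j) * Complex.I_sq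
  · have hs : sgB (-3) = -1 := by simp [sgB]
    rw [hs] at e2 e3 e5 e6 e7 e8 e10 e11 e12 e13 hc ⊢
    refine ⟨-(2 * k1 + 2 * k9 + 2 * k2 + k10 + 4 * k4 - 2 * k5 - k3 - k11) - k6 + k7 + 2 * k8 + k12 +
      k13 + 2 - j, ?_⟩
    push_cast
    linear_combination -e1 - e9 - e2 - e10 + e3 + e11 - 2 * e4 + 2 * e5 - e6 + e7 + 2 * e8 + e12 + e13 +
      Real.pi * Complex.I * (2 * x 1 - j - 1 / 2) * hc +
      Real.pi ^ 2 * (1 / 2 - x 1 / 2 - x 2 / 2 + j) * Complex.I_sq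

end Pool.Agent.Work.MP_b30479_gt.G2
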