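import Pool.Agent.Work.MP_b30479_gt.G2.CSRing
import Pool.Agent.Work.MP_b30479_gt.G2.CSRunA

/-!
# The complexified volume, twist regions with a continuous variable
-/

namespace Pool.Agent.Work.MP_b30479_gt.G2

open Finset VOL

variable {P Z B : ℂ} {Q : ℕ → ℂ}

lemma exists_RFan {b : ℕ} (F : Fan P Q b) (hz : Complex.exp P = Complex.exp Z + Complex.exp (-Z)) :
    ∃ B, RFan P Z B Q b := by
  have hne : Complex.exp (Q 0 + Z) - Complex.exp (Q 1) ≠ 0 := by
    intro h
    have hq := F.quad (k := 0) (by omega)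
    have hy : Complex.exp Z * Complex.exp (-Z) = 1 := by
      rw [← Complex.exp_add, add_neg_cancel, Complex.exp_zero]
    have hp : Complex.exp P ≠ 0 := Complex.exp_ne_zero _
    rw [Complex.exp_add, sub_eq_zero] at h
    rw [zero_add, ← h] at hq
    apply pow_ne_zero 2 hp
    linear_combination -hq + Complex.exp (Q 0) ^ 2 * Complex.exp Z * hz + Complex.exp (Q 0) ^ 2 * hy
  refine ⟨Complex.log (Complex.exp (Q 0 + Z) - Complex.exp (Q 1)) - P, F, hz, ?_⟩
  rw [add_sub_cancel, Complex.exp_log hne]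
  ring

/-- the sign of `p = ± 2 cos πζ` -/
lemma exists_Z {b : ℤ} {ζ : ℂ} (hP : Complex.exp (2 * P) = (2 * Complex.cos (Real.pi * ζ)) ^ 2) :
    ∃ δ : ℤ, Complex.exp P = Complex.exp (sgB b * (Real.pi * Complex.I * ζ) + Real.pi * Complex.I * δ) +
      Complex.exp (-(sgB b * (Real.pi * Complex.I * ζ) + Real.pi * Complex.I * δ)) := by
  have hc : 2 * Complex.cos (Real.pi * ζ) = Complex.exp (sgB b * (Real.pi * Complex.I * ζ)) +
      Complex.exp (-(sgB b * (Real.pi * Complex.I * ζ))) := by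
    rw [Complex.cos]
    rcases sg_cases b with h | h <;> rw [h]
    · rw [show Real.pi * ζ * Complex.I = 1 * (Real.pi * Complex.I * ζ) by ring,
        show -(Real.pi * ζ) * Complex.I = -(1 * (Real.pi * Complex.I * ζ)) by ring]
      ring
    · rw [show Real.pi * ζ * Complex.I = -(-1 * (Real.pi * Complex.I * ζ)) by ring,
        show -(Real.pi * ζ) * Complex.I = -1 * (Real.pi * Complex.I * ζ) by ring]
      ring
  rw [exp_two] at hP
  rcases sq_eq_sq_iff_eq_or_eq_neg.mp hP with h | h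
  · exact ⟨0, by rw [h, hc]; simp⟩
  · refine ⟨1, ?_⟩
    have e : Complex.exp (-(sgB b * (Real.pi * Complex.I * ζ) + Real.pi * Complex.I)) =
        -Complex.exp (-(sgB b * (Real.pi * Complex.I * ζ))) := by
      rw [neg_add, Complex.exp_add _ (-(Real.pi * Complex.I)), Complex.exp_neg (Real.pi * Complex.I),
        Complex.exp_pi_mul_I]
      norm_num
    rw [h, hc, Int.cast_one, mul_one, e, Complex.exp_add _ (Real.pi * Complex.I), Complex.exp_pi_mul_I]
    ring

variable {b : ℤ} {w ζ : ℂ} {δ : ℤ}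

/-- the left hinge of a ring -/
lemma side_left {n : ℕ} (hZ : Z = sgB b * (Real.pi * Complex.I * ζ) + Real.pi * Complex.I * δ)
    (F : RFan P Z B Q n) {l : ℕ} (hln : l ≤ n) (hw : w ∈ strip) (hu : w - ζ + 1 / 2 ∈ strip)
    (hv : w + ζ + 1 / 2 ∈ strip)
    (hl : Complex.exp (sgB b * (2 * Real.pi * Complex.I * w) + Q l) = -Complex.exp (Q (l + 2))) :
    Cq (cmu P Z B Q l - cmv P Z B Q l - 2 * lamc P Q l)
      (fs b (w - ζ + 1 / 2) + fs b (w + ζ + 1 / 2) - 2 * fs b w - Real.pi ^ 2 / 3 +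
        ((Q (l + 2) - Q l - 2 * Z) * Bs b (w - ζ + 1 / 2) - (2 * P + B - (l + 2) * Z - Q l) *
          (sgB b * (2 * Real.pi * Complex.I * (w - ζ + 1 / 2)))) / 2 -
        ((Q l - Q (l + 2) - 2 * Z) * Bs b (w + ζ + 1 / 2) + (2 * P - B + l * Z - Q (l + 2)) *
          (sgB b * (2 * Real.pi * Complex.I * (w + ζ + 1 / 2))) -
          sgB b * (2 * Real.pi * Complex.I * (w + ζ + 1 / 2)) * (Q l - Q (l + 2) - 2 * Z)) / 2 -
        (Q (l + 2) - Q l) * Bs b w - 2 * sgB b * (Real.pi * Complex.I * w * (Q l - P - Q (l + 1)))) ∧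
    (∃ m : ℤ, Q (l + 2) = sgB b * (2 * Real.pi * Complex.I * w) + Q l + Real.pi * Complex.I * (2 * m + 1)) ∧
    (∃ a : ℤ, 2 * P + B - (l + 2) * Z - Q l = Bs b (w - ζ + 1 / 2) + 2 * Real.pi * Complex.I * a) ∧
    (∃ k : ℤ, 2 * P - B + l * Z + 2 * Z - Q l = Bs b (w + ζ + 1 / 2) + Real.pi * Complex.I * (2 * k + 1)) := by
  obtain ⟨m, hm⟩ := hinge_int hl
  have hsI : sgB b * (Real.pi * Complex.I) = Real.pi * Complex.I ∨
      sgB b * (Real.pi * Complex.I) = -(Real.pi * Complex.I) := by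
    rcases sg_cases b with h | h <;> rw [h]
    · left; ring
    · right; ring
  have m1 := mu_one F hln
  have v1 := mv_one F hln
  have fu := fs_one (b := b) hu
  have fv := fs_one (b := b) hv
  -- the first face
  have a1 : Complex.exp (Q (l + 2) - Q l - 2 * Z) =
      Complex.exp (sgB b * (2 * Real.pi * Complex.I * (w - ζ + 1 / 2))) := by
    rcases hsI with h | h
    · have e : Q (l + 2) - Q l - 2 * Z = sgB b * (2 * Real.pi * Complex.I * (w - ζ + 1 / 2)) +
          (m - δ : ℤ) * (2 * Real.pi * Complex.I) := by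
        rw [hm, hZ]; push_cast; linear_combination -h
      rw [e, Complex.exp_add, Complex.exp_int_mul_two_pi_mul_I, mul_one]
    · have e : Q (l + 2) - Q l - 2 * Z = sgB b * (2 * Real.pi * Complex.I * (w - ζ + 1 / 2)) +
          (m + 1 - δ : ℤ) * (2 * Real.pi * Complex.I) := by
        rw [hm, hZ]; push_cast; linear_combination -h
      rw [e, Complex.exp_add, Complex.exp_int_mul_two_pi_mul_I, mul_one]
  have a2 : Complex.exp (2 * P + B - (l + 2) * Z - Q l) = Complex.exp (Bs b (w - ζ + 1 / 2)) := by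
    linear_combination m1 - fu - a1
  obtain ⟨k1, e1⟩ := rl_shift' fu a1 a2
  obtain ⟨a, ha⟩ := exp_eq_int a2
  -- the second face
  have b1 : Complex.exp (Q l - Q (l + 2) - 2 * Z) *
      Complex.exp (sgB b * (2 * Real.pi * Complex.I * (w + ζ + 1 / 2))) = 1 := by
    rw [← Complex.exp_add]
    rcases hsI with h | h
    · have e : Q l - Q (l + 2) - 2 * Z + sgB b * (2 * Real.pi * Complex.I * (w + ζ + 1 / 2)) =
          (-m - δ : ℤ) * (2 * Real.pi * Complex.I) := by
        rw [hm, hZ]; push_cast; linear_combination h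
      rw [e, Complex.exp_int_mul_two_pi_mul_I]
    · have e : Q l - Q (l + 2) - 2 * Z + sgB b * (2 * Real.pi * Complex.I * (w + ζ + 1 / 2)) =
          (-m - 1 - δ : ℤ) * (2 * Real.pi * Complex.I) := by
        rw [hm, hZ]; push_cast; linear_combination h
      rw [e, Complex.exp_int_mul_two_pi_mul_I]
  have b2 : Complex.exp (2 * P - B + l * Z - Q (l + 2)) *
      Complex.exp (sgB b * (2 * Real.pi * Complex.I * (w + ζ + 1 / 2))) =
      -Complex.exp (Bs b (w + ζ + 1 / 2)) := by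
    have : Complex.exp (2 * P - B + l * Z - Q (l + 2)) = 1 - Complex.exp (Q l - Q (l + 2) - 2 * Z) := by
      rw [← v1]; ring
    rw [this, sub_mul, b1, one_mul]
    linear_combination fv
  obtain ⟨k2, e2⟩ := rl_inv' fv b1 b2
  have b3 : Complex.exp (Bs b (w + ζ + 1 / 2) + 0) = -Complex.exp (2 * P - B + l * Z + 2 * Z - Q l) := by
    have : Complex.exp (2 * P - B + l * Z + 2 * Z - Q l) =
        Complex.exp (2 * P - B + l * Z - Q (l + 2)) *
        Complex.exp (sgB b * (2 * Real.pi * Complex.I * (w + ζ + 1 / 2))) := by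
      have h3 : Complex.exp (sgB b * (2 * Real.pi * Complex.I * (w + ζ + 1 / 2))) =
          Complex.exp (-(Q l - Q (l + 2) - 2 * Z)) := by
        rw [Complex.exp_neg]
        exact eq_inv_of_mul_eq_one_right b1
      rw [h3, ← Complex.exp_add]
      congr 1
      ring
    rw [this, b2, neg_neg, add_zero]
  obtain ⟨k, hk⟩ := hinge_int b3
  obtain ⟨k3, e3⟩ := lam_fs (b := b) hw (lam_one F.fan hln) (by
    have := exp_hinge hl (P + Q (l + 1))
    rw [sub_add_eq_sub_sub, sub_add_eq_sub_sub] at this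
    exact this)
  refine ⟨⟨2 * k1 - k2 - 2 * k3, ?_⟩, ⟨m, hm⟩, ⟨a, ha⟩, ⟨k, by rw [hk]; ring⟩⟩
  change cmu P Z B Q l - (fs b (w - ζ + 1 / 2) + _) = _ at e1
  change cmv P Z B Q l - (-fs b (w + ζ + 1 / 2) + _) = _ at e2
  change lamc P Q l - _ = _ at e3
  push_cast
  linear_combination e1 - e2 - 2 * e3

/-- the right hinge of a ring -/
lemma side_right {n : ℕ} (hZ : Z = sgB b * (Real.pi * Complex.I * ζ) + Real.pi * Complex.I * δ)
    (F : RFan P Z B Q n) {l : ℕ} (hln : l ≤ n) (hw : w ∈ strip) (hu : w - ζ + 1 / 2 ∈ strip)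
    (hv : w + ζ + 1 / 2 ∈ strip)
    (hl : Complex.exp (sgB b * (2 * Real.pi * Complex.I * w) + Q (l + 2)) = -Complex.exp (Q l)) :
    Cq (cmv P Z B Q l - cmu P Z B Q l + 2 * lamc P Q l)
      (fs b (w - ζ + 1 / 2) + fs b (w + ζ + 1 / 2) - 2 * fs b w - 2 * Real.pi ^ 2 / 3 +
        ((Q l - Q (l + 2) - 2 * Z) * Bs b (w - ζ + 1 / 2) - (2 * P - B + l * Z - Q (l + 2)) *
          (sgB b * (2 * Real.pi * Complex.I * (w - ζ + 1 / 2)))) / 2 -
        ((Q (l + 2) - Q l - 2 * Z) * Bs b (w + ζ + 1 / 2) + (2 * P + B - (l + 2) * Z - Q l) *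
          (sgB b * (2 * Real.pi * Complex.I * (w + ζ + 1 / 2))) -
          sgB b * (2 * Real.pi * Complex.I * (w + ζ + 1 / 2)) * (Q (l + 2) - Q l - 2 * Z)) / 2 -
        (Q l - Q (l + 2)) * Bs b w - 2 * sgB b * (Real.pi * Complex.I * w * (Q (l + 2) - P - Q (l + 1)))) ∧
    (∃ m : ℤ, Q l = sgB b * (2 * Real.pi * Complex.I * w) + Q (l + 2) + Real.pi * Complex.I * (2 * m + 1)) ∧
    (∃ a : ℤ, 2 * P - B + l * Z - Q (l + 2) = Bs b (w - ζ + 1 / 2) + 2 * Real.pi * Complex.I * a) ∧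
    (∃ k : ℤ, 2 * P + B - l * Z - Q (l + 2) = Bs b (w + ζ + 1 / 2) + Real.pi * Complex.I * (2 * k + 1)) := by
  obtain ⟨m, hm⟩ := hinge_int hl
  have hsI : sgB b * (Real.pi * Complex.I) = Real.pi * Complex.I ∨
      sgB b * (Real.pi * Complex.I) = -(Real.pi * Complex.I) := by
    rcases sg_cases b with h | h <;> rw [h]
    · left; ring
    · right; ring
  have m1 := mu_one F hln
  have v1 := mv_one F hln
  have fu := fs_one (b := b) hu
  have fv := fs_one (b := b) hv
  -- the first face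
  have a1 : Complex.exp (Q l - Q (l + 2) - 2 * Z) =
      Complex.exp (sgB b * (2 * Real.pi * Complex.I * (w - ζ + 1 / 2))) := by
    rcases hsI with h | h
    · have e : Q l - Q (l + 2) - 2 * Z = sgB b * (2 * Real.pi * Complex.I * (w - ζ + 1 / 2)) +
          (m - δ : ℤ) * (2 * Real.pi * Complex.I) := by
        rw [hm, hZ]; push_cast; linear_combination -h
      rw [e, Complex.exp_add, Complex.exp_int_mul_two_pi_mul_I, mul_one]
    · have e : Q l - Q (l + 2) - 2 * Z = sgB b * (2 * Real.pi * Complex.I * (w - ζ + 1 / 2)) +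
          (m + 1 - δ : ℤ) * (2 * Real.pi * Complex.I) := by
        rw [hm, hZ]; push_cast; linear_combination -h
      rw [e, Complex.exp_add, Complex.exp_int_mul_two_pi_mul_I, mul_one]
  have a2 : Complex.exp (2 * P - B + l * Z - Q (l + 2)) = Complex.exp (Bs b (w - ζ + 1 / 2)) := by
    linear_combination v1 - fu - a1
  obtain ⟨k1, e1⟩ := rl_shift' fu a1 a2
  obtain ⟨a, ha⟩ := exp_eq_int a2
  -- the second face
  have b1 : Complex.exp (Q (l + 2) - Q l - 2 * Z) *
      Complex.exp (sgB b * (2 * Real.pi * Complex.I * (w + ζ + 1 / 2))) = 1 := by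
    rw [← Complex.exp_add]
    rcases hsI with h | h
    · have e : Q (l + 2) - Q l - 2 * Z + sgB b * (2 * Real.pi * Complex.I * (w + ζ + 1 / 2)) =
          (-m - δ : ℤ) * (2 * Real.pi * Complex.I) := by
        rw [hm, hZ]; push_cast; linear_combination h
      rw [e, Complex.exp_int_mul_two_pi_mul_I]
    · have e : Q (l + 2) - Q l - 2 * Z + sgB b * (2 * Real.pi * Complex.I * (w + ζ + 1 / 2)) =
          (-m - 1 - δ : ℤ) * (2 * Real.pi * Complex.I) := by
        rw [hm, hZ]; push_cast; linear_combination h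
      rw [e, Complex.exp_int_mul_two_pi_mul_I]
  have b2 : Complex.exp (2 * P + B - (l + 2) * Z - Q l) *
      Complex.exp (sgB b * (2 * Real.pi * Complex.I * (w + ζ + 1 / 2))) =
      -Complex.exp (Bs b (w + ζ + 1 / 2)) := by
    have : Complex.exp (2 * P + B - (l + 2) * Z - Q l) = 1 - Complex.exp (Q (l + 2) - Q l - 2 * Z) := by
      rw [← m1]; ring
    rw [this, sub_mul, b1, one_mul]
    linear_combination fv
  obtain ⟨k2, e2⟩ := rl_inv' fv b1 b2
  have b3 : Complex.exp (Bs b (w + ζ + 1 / 2) + 0) = -Complex.exp (2 * P + B - l * Z - Q (l + 2)) := by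
    have : Complex.exp (2 * P + B - l * Z - Q (l + 2)) =
        Complex.exp (2 * P + B - (l + 2) * Z - Q l) *
        Complex.exp (sgB b * (2 * Real.pi * Complex.I * (w + ζ + 1 / 2))) := by
      have h3 : Complex.exp (sgB b * (2 * Real.pi * Complex.I * (w + ζ + 1 / 2))) =
          Complex.exp (-(Q (l + 2) - Q l - 2 * Z)) := by
        rw [Complex.exp_neg]
        exact eq_inv_of_mul_eq_one_right b1
      rw [h3, ← Complex.exp_add]
      congr 1
      ring
    rw [this, b2, neg_neg, add_zero]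
  obtain ⟨k, hk⟩ := hinge_int b3
  have hlam := lam_one F.fan hln
  obtain ⟨k4, e4⟩ := rl_symm hlam
  obtain ⟨k3, e3⟩ := lam_fs (b := b) hw (by rw [add_comm]; exact hlam) (by
    have := exp_hinge hl (P + Q (l + 1))
    rw [sub_add_eq_sub_sub, sub_add_eq_sub_sub] at this
    exact this)
  refine ⟨⟨2 * k1 - k2 - 2 * k3 + 4 * k4, ?_⟩, ⟨m, hm⟩, ⟨a, ha⟩, ⟨k, by rw [hk]; ring⟩⟩
  change cmv P Z B Q l - (fs b (w - ζ + 1 / 2) + _) = _ at e1
  change cmu P Z B Q l - (-fs b (w + ζ + 1 / 2) + _) = _ at e2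
  change _ - (-lamc P Q l - _) = _ at e4
  push_cast
  linear_combination e1 - e2 - 2 * e3 + 2 * e4

end Pool.Agent.Work.MP_b30479_gt.G2
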