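import Pool.Agent.Work.MP_b30479_gt.G2.CSRunA

/-!
# The complexified volume, twist regions with two and three crossings at an end
-/

namespace Pool.Agent.Work.MP_b30479_gt.G2

open Finset VOL

/-- logarithms of the values on the fan at an end -/
structure FanE (P : ℂ) (Q : ℕ → ℂ) (b : ℕ) : Prop where
  fan : Fan P Q (b - 2)
  top : Complex.exp (Q (b - 1)) = Complex.exp (P + Q b)
  fold : Complex.exp (2 * Q b) = -Complex.exp (2 * P)

variable {b : ℤ} {P : ℂ} {Q : ℕ → ℂ}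

lemma fold_exp {w : ℂ} (hw : w ∈ strip) {q0 q1 q2 : ℂ}
    (hf : Complex.exp (2 * q2) = -Complex.exp (2 * P))
    (h1 : Complex.exp (2 * q1 - q0 - q2) + Complex.exp (2 * P - q0 - q2) = 1)
    (hl : Complex.exp (sgB b * (2 * Real.pi * Complex.I * w) + q0) = -Complex.exp q2) :
    Complex.exp (2 * q1 - q0 - q2) = Complex.exp (Bs b w) ∧
    Complex.exp (2 * P - q0 - q2) = Complex.exp (sgB b * (2 * Real.pi * Complex.I * w)) := by
  have hs := fs_one (b := b) hw
  have e2 : Complex.exp (2 * P - q0 - q2) = Complex.exp (sgB b * (2 * Real.pi * Complex.I * w)) := by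
    have h3 := exp_hinge hl q0
    rw [sub_self, add_zero] at h3
    rw [sub_right_comm, Complex.exp_sub, Complex.exp_sub]
    have h4 : Complex.exp (2 * P) = -Complex.exp (2 * q2) := by rw [hf]; ring
    rw [h4, exp_two]
    rw [Complex.exp_sub] at h3
    have := Complex.exp_ne_zero q2
    have := Complex.exp_ne_zero q0
    rw [← neg_eq_iff_eq_neg] at h3
    rw [← h3]
    field_simp
  exact ⟨by linear_combination h1 - hs - e2, e2⟩

/-- the last layer -/
lemma fold_fs {w : ℂ} (hw : w ∈ strip) {q0 q1 q2 : ℂ}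
    (hf : Complex.exp (2 * q2) = -Complex.exp (2 * P))
    (h1 : Complex.exp (2 * q1 - q0 - q2) + Complex.exp (2 * P - q0 - q2) = 1)
    (hl : Complex.exp (sgB b * (2 * Real.pi * Complex.I * w) + q0) = -Complex.exp q2) :
    Cq (rl (2 * q1 - q0 - q2) (2 * P - q0 - q2)) (-fs b w - Real.pi ^ 2 / 6 +
      ((2 * q1 - q0 - q2) * (sgB b * (2 * Real.pi * Complex.I * w)) - (2 * P - q0 - q2) * Bs b w) / 2) := by
  have hs := fs_one (b := b) hw
  obtain ⟨e1, e2⟩ := fold_exp hw hf h1 hl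
  obtain ⟨k, hk⟩ := rl_shift' (by rw [add_comm]; exact hs) e1 e2
  obtain ⟨l, hl'⟩ := rl_symm hs
  refine ⟨2 * k + 2 * l, ?_⟩
  unfold fs
  push_cast
  linear_combination hk + hl'

theorem end_two' (hb : b.natAbs = 2) {w : ℂ} (hw : w ∈ strip) (F : FanE P Q 2)
    (hl : Complex.exp (sgB b * (2 * Real.pi * Complex.I * w) + Q 0) = -Complex.exp (Q 2)) :
    Cq (sgB b * rsE b.natAbs P Q)
      (-(2 * Real.pi * Complex.I * (un b * (w ^ 2 + w) - Fh w)) +
        hng (sgB b * (Q 2 - Q 0)) (2 * P - 2 * Q 1) w (un b * (2 * w + 1) - ph w) +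
        Real.pi ^ 2 * (b / 2 - sgB b / 6)) := by
  have hh := hly_one F.fan (l := 0) (by omega)
  obtain ⟨k1, e1⟩ := fold_fs hw F.fold hh hl
  obtain ⟨e, he⟩ := exp_eq_int (fold_exp hw F.fold hh hl).1
  obtain ⟨k7, e7⟩ := Fh_fs (b := b) hw
  obtain ⟨m, hm⟩ := hinge_int hl
  have h2 := F.top
  have h3 := F.fold
  have h4 : Complex.exp (2 * Q 2) = Complex.exp (2 * P + Real.pi * Complex.I) := by
    rw [Complex.exp_add, Complex.exp_pi_mul_I, h3]; ring
  obtain ⟨c, hc⟩ := exp_eq_int h4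
  obtain ⟨d, hd⟩ := exp_eq_int h2
  simp only [show 2 - 1 = 1 from rfl] at hd
  rw [hb]
  unfold rsE rs hng
  rw [un_sgB]
  change hly P Q 0 - _ = _ at e1
  simp only [show 2 - 2 = 0 from rfl, show 2 - 1 = 1 from rfl, range_zero, sum_empty, zero_add] at *
  have hP : P = Q 2 - Real.pi * Complex.I / 2 - Real.pi * Complex.I * c := by
    linear_combination -hc / 2
  unfold Bs at *
  generalize hly P Q 0 = H0 at *
  generalize fs b w = f0 at *
  clear F hl h2 h3 h4 hc hh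
  generalize Q 0 = q0 at *
  generalize Q 1 = q1 at *
  generalize Q 2 = q2 at *
  subst hm hd hP
  have hb' : b = 2 ∨ b = -2 := by omega
  rcases hb' with rfl | rfl
  · have hs : sgB 2 = 1 := by simp [sgB]
    rw [hs] at e1 e7 he ⊢
    refine ⟨k1 + k7 - 1 - (m + 2 * m * c - c - 2 * c * e - 2 * c ^ 2 - e), ?_⟩
    push_cast
    linear_combination e1 + e7 - Real.pi * Complex.I * (c + 1 / 2) * he +
      Real.pi ^ 2 * (w / 2 + m + 2 * m * c - c - 2 * c * e - 2 * c ^ 2 - e) * Complex.I_sq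
  · have hs : sgB (-2) = -1 := by simp [sgB]
    rw [hs] at e1 e7 he ⊢
    refine ⟨-k1 + k7 + 1 + (m + 2 * m * c - c - 2 * c * e - 2 * c ^ 2 - e), ?_⟩
    push_cast
    linear_combination -e1 + e7 + Real.pi * Complex.I * (c + 1 / 2) * he -
      Real.pi ^ 2 * (w / 2 + m + 2 * m * c - c - 2 * c * e - 2 * c ^ 2 - e) * Complex.I_sq

theorem end_three' (hb : b.natAbs = 3) {w m : ℂ} (hw : w ∈ strip) (hmm : m ∈ strip)
    (hmw : m - w ∈ strip) (F : FanE P Q 3)
    (hl : Complex.exp (sgB b * (2 * Real.pi * Complex.I * w) + Q 0) = -Complex.exp (Q 2))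
    (hi : Complex.exp (sgB b * (2 * Real.pi * Complex.I * m) + Q 1) = -Complex.exp (Q 3))
    (hcr : un b * (2 * (w + m)) - un b - ph (m - w) = 0) :
    Cq (sgB b * rsE b.natAbs P Q)
      (-(2 * Real.pi * Complex.I * (un b * (2 * w * m + m ^ 2 - m) - Fh (m - w) - Fh w)) +
        hng (sgB b * (Q 2 - Q 0)) (2 * P - 2 * Q 1) w (un b * (2 * m) + ph (m - w) - ph w) +
        Real.pi ^ 2 * (b / 2 - sgB b / 6)) := by
  have hh := hly_one F.fan (l := 1) (by omega)
  obtain ⟨k1, e1⟩ := fold_fs hmm F.fold hh hi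
  obtain ⟨e, he⟩ := exp_eq_int (fold_exp hmm F.fold hh hi).1
  obtain ⟨k2, e2⟩ := rs_ltr F.fan
  have hlam0 := lam_one F.fan (l := 0) (by omega)
  have hlam1 := lam_one F.fan (l := 1) (by omega)
  obtain ⟨k3, e3⟩ := lam_fs hw hlam0 (by
    have := exp_hinge hl (P + Q 1)
    rw [sub_add_eq_sub_sub, sub_add_eq_sub_sub] at this
    exact this)
  obtain ⟨k4, e4⟩ := lam_fs hmm hlam1 (by
    have := exp_hinge hi (P + Q 2)
    rw [sub_add_eq_sub_sub, sub_add_eq_sub_sub] at this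
    exact this)
  obtain ⟨m', hm⟩ := hinge_int hl
  obtain ⟨j, hj⟩ := hinge_int hi
  have hg := fs_one (b := b) hmw
  have hK := ltr_one F.fan (l := 0) (by omega)
  have hB : Complex.exp (Q (0 + 1) + Q (0 + 2) - Q 0 - Q (0 + 3)) *
      Complex.exp (sgB b * (2 * Real.pi * Complex.I * (m - w))) = 1 := by
    rw [← Complex.exp_add]
    have : Q (0 + 1) + Q (0 + 2) - Q 0 - Q (0 + 3) +
        sgB b * (2 * Real.pi * Complex.I * (m - w)) = (m' - j : ℤ) * (2 * Real.pi * Complex.I) := by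
      simp only [zero_add]
      rw [hm, hj]; push_cast; ring
    rw [this, Complex.exp_int_mul_two_pi_mul_I]
  obtain ⟨k10, e10⟩ := rl_inv' hg hB (by
    have : Complex.exp (3 * P - Q 0 - Q (0 + 3)) = 1 - Complex.exp (Q (0 + 1) + Q (0 + 2) - Q 0 - Q (0 + 3)) := by
      rw [← hK]; ring
    rw [this, sub_mul, hB, one_mul]; linear_combination hg)
  obtain ⟨k7, e7⟩ := Fh_fs (b := b) hw
  obtain ⟨k8, e8⟩ := Fh_fs (b := b) hmw
  have h2 := F.top
  have h3 := F.fold
  have h4 : Complex.exp (2 * Q 3) = Complex.exp (2 * P + Real.pi * Complex.I) := by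
    rw [Complex.exp_add, Complex.exp_pi_mul_I, h3]; ring
  obtain ⟨c, hc⟩ := exp_eq_int h4
  obtain ⟨d, hd⟩ := exp_eq_int h2
  simp only [show 3 - 1 = 2 from rfl, show 3 - 2 = 1 from rfl, sum_range_one] at hd e2
  rw [hb]
  unfold rsE hng
  rw [un_sgB] at hcr ⊢
  change hly P Q 1 - _ = _ at e1
  change lamc P Q 0 - _ = _ at e3
  change lamc P Q 1 - _ = _ at e4
  change ltr P Q 0 - (-fs b (m - w) + _) = _ at e10
  simp only [show 3 - 2 = 1 from rfl, show 3 - 1 = 2 from rfl, show 1 + 1 = 2 from rfl, zero_add,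
    show 1 + 2 = 3 from rfl] at *
  have hP : P = Q 3 - Real.pi * Complex.I / 2 - Real.pi * Complex.I * c := by
    linear_combination -hc / 2
  unfold Bs at *
  generalize hly P Q 1 = H1 at *
  generalize ltr P Q 0 = L0 at *
  generalize lamc P Q 0 = M0 at *
  generalize lamc P Q 1 = M1 at *
  generalize rs 1 P Q = RR at *
  generalize fs b w = f0 at *
  generalize fs b m = f1 at *
  generalize fs b (m - w) = f2 at *
  clear F hl hi h2 h3 h4 hc hh hlam0 hlam1 hg hK hB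
  generalize Q 0 = q0 at *
  generalize Q 1 = q1 at *
  generalize Q 2 = q2 at *
  generalize Q 3 = q3 at *
  have hj' : q1 = q3 - sgB b * (2 * Real.pi * Complex.I * m) - Real.pi * Complex.I * (2 * j + 1) := by
    rw [hj]; ring
  have hm' : q0 = q2 - sgB b * (2 * Real.pi * Complex.I * w) - Real.pi * Complex.I * (2 * m' + 1) := by
    rw [hm]; ring
  clear hj hm
  subst hm' hd hP hj'
  have hb' : b = 3 ∨ b = -3 := by omega
  rcases hb' with rfl | rfl
  · have hs : sgB 3 = 1 := by simp [sgB]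
    rw [hs] at e1 e3 e4 e7 e8 e10 hcr he ⊢
    refine ⟨k1 + 2 * k2 + k10 + k4 - k3 + k7 + k8 - 2 -
      (2 * j - c + 2 * c * j - 2 * c * e - 2 * c ^ 2 - e), ?_⟩
    push_cast
    linear_combination e1 + e2 + e10 + e4 - e3 + e7 + e8 - Real.pi * Complex.I * (c + 1 / 2) * he +
      Real.pi * Complex.I * (2 * m + j + 1 / 2) * hcr + Real.pi ^ 2 *
        (1 / 2 + m / 2 + 2 * j - c + 2 * c * j - 2 * c * e - 2 * c ^ 2 - e) * Complex.I_sq
  · have hs : sgB (-3) = -1 := by simp [sgB]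
    rw [hs] at e1 e3 e4 e7 e8 e10 hcr he ⊢
    refine ⟨-(k1 + 2 * k2 + k10 + k4 - k3) + k7 + k8 + 1 +
      (-c + 2 * c * j - 2 * c * e - 2 * c ^ 2 - e), ?_⟩
    push_cast
    linear_combination -e1 - e2 - e10 - e4 + e3 + e7 + e8 + Real.pi * Complex.I * (c + 1 / 2) * he +
      Real.pi * Complex.I * (2 * m - j - 1 / 2) * hcr + Real.pi ^ 2 *
        (1 / 2 - m / 2 + c - 2 * c * j + 2 * c * e + 2 * c ^ 2 + e) * Complex.I_sq

end Pool.Agent.Work.MP_b30479_gt.G2
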