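import Pool.Agent.Work.MP_b30479_gt.G2.CSRingB
import Pool.Agent.Work.MP_b30479_gt.G2.CSRunB

/-!
# The complexified volume, twist regions with a continuous variable: the formulas
-/

namespace Pool.Agent.Work.MP_b30479_gt.G2

open Finset VOL

variable {b : ℤ} {x : Fin 3 → ℂ} {P : ℂ} {Q : ℕ → ℂ}

lemma lT_ring : lT .ring b true true x =
    Fh (x 0 - x 1 + 1 / 2) + Fh (x 0 + x 1 + 1 / 2) - 2 * Fh (x 0) +
    (Fh (x 2 - x 1 + 1 / 2) + Fh (x 2 + x 1 + 1 / 2) - 2 * Fh (x 2)) := by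
  have e0 : -Fh (x 0) = Fh (1 - x 0) := (Fh_one_sub _).symm
  have e2 : -Fh (x 2) = Fh (1 - x 2) := (Fh_one_sub _).symm
  rw [show Fh (x 0 - x 1 + 1 / 2) + Fh (x 0 + x 1 + 1 / 2) - 2 * Fh (x 0) +
    (Fh (x 2 - x 1 + 1 / 2) + Fh (x 2 + x 1 + 1 / 2) - 2 * Fh (x 2)) =
    Fh (x 0 - x 1 + 1 / 2) + Fh (x 0 + x 1 + 1 / 2) + 2 * (-Fh (x 0)) +
    (Fh (x 2 - x 1 + 1 / 2) + Fh (x 2 + x 1 + 1 / 2) + 2 * (-Fh (x 2))) by ring, e0, e2]
  simp [lT, lquad, facs, hL, hR, Fac.form, Fin.sum_univ_three, qq2, rr1]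
  ring_nf

lemma natAbs_sg (b : ℤ) (hb : b ≠ 0) : (b.natAbs : ℂ) = sgB b * b := by
  unfold sgB
  split_ifs with h
  · rw [natAbs_cast_pos h, one_mul]
  · rw [natAbs_cast_neg h, neg_one_mul]

theorem run_ring' (hb : b ≠ 0) (h0 : x 0 ∈ strip) (hu0 : x 0 - x 1 + 1 / 2 ∈ strip)
    (hv0 : x 0 + x 1 + 1 / 2 ∈ strip) (h2 : x 2 ∈ strip) (hu2 : x 2 - x 1 + 1 / 2 ∈ strip)
    (hv2 : x 2 + x 1 + 1 / 2 ∈ strip) (F : Fan P Q b.natAbs)
    (hl : Complex.exp (sgB b * (2 * Real.pi * Complex.I * x 0) + Q 0) = -Complex.exp (Q 2))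
    (hr : Complex.exp (sgB b * (2 * Real.pi * Complex.I * x 2) + Q (b.natAbs + 2)) =
      -Complex.exp (Q b.natAbs))
    (hP : Complex.exp (2 * P) = (2 * Complex.cos (Real.pi * x 1)) ^ 2)
    (hcr : rP (x 0) (x 1) + rP (x 2) (x 1) = Real.pi * Complex.I * (b * x 1 + 1)) :
    RunCS .ring b x P Q := by
  obtain ⟨δ, hδ⟩ := exists_Z (b := b) hP
  obtain ⟨Z, hZ⟩ : ∃ Z, Z = sgB b * (Real.pi * Complex.I * x 1) + Real.pi * Complex.I * δ := ⟨_, rfl⟩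
  rw [← hZ] at hδ
  obtain ⟨B, FR⟩ := exists_RFan F hδ
  obtain ⟨⟨k1, e1⟩, ⟨m1, hm1⟩, ⟨a1, ha1⟩, ⟨c1, hc1⟩⟩ := side_left hZ FR (l := 0) (by omega) h0 hu0 hv0
    (by simpa using hl)
  obtain ⟨⟨k2, e2⟩, ⟨m2, hm2⟩, ⟨a2, ha2⟩, ⟨c2, hc2⟩⟩ := side_right hZ FR (l := b.natAbs) le_rfl h2 hu2 hv2 hr
  obtain ⟨k3, e3⟩ := NN_add FR (l := 0) (by omega)
  obtain ⟨k4, e4⟩ := NN_add FR (l := b.natAbs) le_rfl
  obtain ⟨k5, e5⟩ := rs_NN FR (c := b.natAbs) le_rfl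
  obtain ⟨k6, e6⟩ := Fh_fs (b := b) h0
  obtain ⟨k7, e7⟩ := Fh_fs (b := b) hu0
  obtain ⟨k8, e8⟩ := Fh_fs (b := b) hv0
  obtain ⟨k9, e9⟩ := Fh_fs (b := b) h2
  obtain ⟨k10, e10⟩ := Fh_fs (b := b) hu2
  obtain ⟨k11, e11⟩ := Fh_fs (b := b) hv2
  have hn := natAbs_sg b hb
  have hs := sg_cases b
  unfold rP at hcr
  -- the relation of the integers
  have hint : (a1 + a2 - c1 - c2 : ℂ) = ((b.natAbs : ℂ) - 2) * δ := by
    have hpI : (2 * Real.pi * Complex.I : ℂ) ≠ 0 := Complex.two_pi_I_ne_zero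
    apply mul_left_cancel₀ hpI
    unfold Bs at ha1 hc1 ha2 hc2
    push_cast at ha1 hc1 ha2 hc2 ⊢
    rw [hn] at ha2 hc2 ⊢
    rcases hs with hs | hs <;> rw [hs] at ha1 hc1 ha2 hc2 hZ ⊢
    · subst hZ
      linear_combination -ha1 + hc1 - ha2 + hc2 - 2 * hcr
    · subst hZ
      linear_combination -ha1 + hc1 - ha2 + hc2 - 2 * hcr
  unfold RunCS lW hng
  rw [lT_ring, if_pos rfl, ldT_ring_0, ldT_ring_2]
  rw [zero_add] at e1 e3 hm1
  rw [show 0 + 1 = 1 from rfl] at e1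
  unfold Bs at *
  rw [show x 0 + x 1 + 1 / 2 = x 0 + x 1 + 1 / 2 from rfl]
  generalize cmu P Z B Q 0 = U0 at *
  generalize cmv P Z B Q 0 = V0 at *
  generalize lamc P Q 0 = M0 at *
  generalize cmu P Z B Q b.natAbs = U1 at *
  generalize cmv P Z B Q b.natAbs = V1 at *
  generalize lamc P Q b.natAbs = M1 at *
  generalize cNN P Z B Q 0 = N0 at *
  generalize cNN P Z B Q 1 = N1 at *
  generalize cNN P Z B Q b.natAbs = N2 at *
  generalize cNN P Z B Q (b.natAbs + 1) = N3 at *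
  generalize rs b.natAbs P Q = RR at *
  generalize fs b (x 0) = f0 at *
  generalize fs b (x 0 - x 1 + 1 / 2) = f1 at *
  generalize fs b (x 0 + x 1 + 1 / 2) = f2 at *
  generalize fs b (x 2) = f3 at *
  generalize fs b (x 2 - x 1 + 1 / 2) = f4 at *
  generalize fs b (x 2 + x 1 + 1 / 2) = f5 at *
  clear F FR hl hr hδ hP
  generalize Q 0 = q0 at *
  generalize Q 1 = q1 at *
  generalize Q 2 = q2 at *
  generalize Q b.natAbs = q3 at *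
  generalize Q (b.natAbs + 1) = q4 at *
  generalize Q (b.natAbs + 2) = q5 at *
  subst hm1 hm2
  push_cast at e1 e2 e3 e4 e5 e6 e7 e8 e9 e10 e11 ha1 hc1 ha2 hc2 hint ⊢
  rw [hn] at e2 ha2 hc2 hint
  generalize ((b.natAbs : ℕ) : ℂ) = cnn at *
  rcases hs with hs | hs
  · rw [hs] at e1 e2 e6 e7 e8 e9 e10 e11 ha1 hc1 ha2 hc2 hZ hint ⊢
    subst hZ
    refine ⟨2 * k5 + 2 * k3 - 2 * k4 + k1 + k2 + 2 * k6 - k7 - k8 + 2 * k9 - k10 - k11 +
      a1 + c1 - m1 + a2 + c2 - m2 + 2 * δ - 2, ?_⟩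
    push_cast
    linear_combination e5 + e3 - e4 + e1 + e2 + 2 * e6 - e7 - e8 + 2 * e9 - e10 - e11 -
      Real.pi * Complex.I * (1 / 2 - x 1) * (ha1 + ha2) - Real.pi * Complex.I * (1 / 2 + x 1) * (hc1 + hc2) -
      2 * (Real.pi * Complex.I * x 1 + Real.pi * Complex.I * δ) * hcr +
      2 * Real.pi ^ 2 * Complex.I ^ 2 * x 1 * hint +
      Real.pi ^ 2 * (m1 + m2 - 2 * δ - a1 - c1 - a2 - c2) * Complex.I_sq
  · rw [hs] at e1 e2 e6 e7 e8 e9 e10 e11 ha1 hc1 ha2 hc2 hZ hint ⊢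
    subst hZ
    refine ⟨-(2 * k5 + 2 * k3 - 2 * k4 + k1 + k2) + 2 * k6 - k7 - k8 + 2 * k9 - k10 - k11 +
      a1 + c1 - m1 + a2 + c2 - m2 - 2 * δ + 2, ?_⟩
    push_cast
    linear_combination -e5 - e3 + e4 - e1 - e2 + 2 * e6 - e7 - e8 + 2 * e9 - e10 - e11 -
      Real.pi * Complex.I * (1 / 2 - x 1) * (ha1 + ha2) - Real.pi * Complex.I * (1 / 2 + x 1) * (hc1 + hc2) +
      2 * (-Real.pi * Complex.I * x 1 + Real.pi * Complex.I * δ) * hcr +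
      2 * Real.pi ^ 2 * Complex.I ^ 2 * x 1 * hint +
      Real.pi ^ 2 * (m1 + m2 + 2 * δ - a1 - c1 - a2 - c2) * Complex.I_sq

theorem end_ring' (hb : 2 ≤ b.natAbs) {w ζ : ℂ} (h0 : w ∈ strip) (hu0 : w - ζ + 1 / 2 ∈ strip)
    (hv0 : w + ζ + 1 / 2 ∈ strip) (F : FanE P Q b.natAbs)
    (hl : Complex.exp (sgB b * (2 * Real.pi * Complex.I * w) + Q 0) = -Complex.exp (Q 2))
    (hP : Complex.exp (2 * P) = (2 * Complex.cos (Real.pi * ζ)) ^ 2)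
    (hcr : rP w ζ = Real.pi * Complex.I * (b * ζ + 1)) :
    Cq (sgB b * rsE b.natAbs P Q)
      (-(2 * Real.pi * Complex.I * (Fh (w - ζ + 1 / 2) + Fh (w + ζ + 1 / 2) - 2 * Fh w)) -
        (2 * Real.pi * Complex.I * (Real.pi * Complex.I * b * ζ ^ 2 + 2 * Real.pi * Complex.I * ζ) +
          Real.pi ^ 2 * b / 2) +
        hng (sgB b * (Q 2 - Q 0)) (2 * P - 2 * Q 1) w
          (ph (w + ζ + 1 / 2) + ph (w - ζ + 1 / 2) - 2 * ph w) +
        Real.pi ^ 2 * (b / 2 - sgB b / 6)) := by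
  have hb0 : b ≠ 0 := by
    rintro rfl
    simp at hb
  obtain ⟨δ, hδ⟩ := exists_Z (b := b) hP
  obtain ⟨Z, hZ⟩ : ∃ Z, Z = sgB b * (Real.pi * Complex.I * ζ) + Real.pi * Complex.I * δ := ⟨_, rfl⟩
  rw [← hZ] at hδ
  obtain ⟨B, FR⟩ := exists_RFan F.fan hδ
  obtain ⟨⟨k1, e1⟩, ⟨m1, hm1⟩, ⟨a1, ha1⟩, ⟨c1, hc1⟩⟩ := side_left hZ FR (l := 0) (by omega) h0 hu0 hv0
    (by simpa using hl)
  obtain ⟨k3, e3⟩ := NN_add FR (l := 0) (by omega)
  obtain ⟨k5, e5⟩ := rs_NN FR (c := b.natAbs - 2) le_rfl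
  obtain ⟨k4, e4⟩ := hly_NN FR (l := b.natAbs - 2) le_rfl
  obtain ⟨k6, e6⟩ := Fh_fs (b := b) h0
  obtain ⟨k7, e7⟩ := Fh_fs (b := b) hu0
  obtain ⟨k8, e8⟩ := Fh_fs (b := b) hv0
  have hn := natAbs_sg b hb0
  have hs := sg_cases b
  -- the top of the chain
  have hn1 : ((b.natAbs - 1 : ℕ) : ℂ) = (b.natAbs : ℂ) - 1 := by
    rw [Nat.cast_sub (by omega), Nat.cast_one]
  have n1 := nn_one FR (k := b.natAbs - 1) (by omega)
  have o1 := mm_one FR (k := b.natAbs - 1) (by omega)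
  rw [show b.natAbs - 1 + 1 = b.natAbs by omega] at n1 o1
  have hz : Complex.exp Z * Complex.exp (-Z) = 1 := by
    rw [← Complex.exp_add, add_neg_cancel, Complex.exp_zero]
  have t1 : Complex.exp (Q b.natAbs - Q (b.natAbs - 1) - Z) * (Complex.exp P * Complex.exp Z) = 1 := by
    rw [← Complex.exp_add, ← Complex.exp_add]
    have h := F.top
    have : Q b.natAbs - Q (b.natAbs - 1) - Z + (P + Z) = (P + Q b.natAbs) - Q (b.natAbs - 1) := by ring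
    rw [this, Complex.exp_sub, ← h, div_self (Complex.exp_ne_zero _)]
  have t2 : Complex.exp (P + B - (((b.natAbs - 1 : ℕ) : ℂ) + 1) * Z - Q (b.natAbs - 1)) * Complex.exp P =
      Complex.exp Z := by
    have hzne := Complex.exp_ne_zero Z
    apply mul_right_cancel₀ hzne
    have h3 : Complex.exp (P + B - (((b.natAbs - 1 : ℕ) : ℂ) + 1) * Z - Q (b.natAbs - 1)) =
        1 - Complex.exp (Q b.natAbs - Q (b.natAbs - 1) - Z) := by linear_combination n1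
    rw [h3]
    linear_combination Complex.exp Z * hδ - t1 + hz
  have t3 : Complex.exp (P + B - (((b.natAbs - 1 : ℕ) : ℂ) + 1) * Z - Q (b.natAbs - 1)) =
      Complex.exp (Z - P) := by
    rw [Complex.exp_sub Z P, eq_div_iff (Complex.exp_ne_zero P), t2]
  obtain ⟨g, hg⟩ := exp_eq_int t3
  have t4 : Complex.exp (Q (b.natAbs - 1) - Q b.natAbs - Z) *
      Complex.exp (P + B - (((b.natAbs - 1 : ℕ) : ℂ) + 1) * Z - Q (b.natAbs - 1)) = 1 := by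
    rw [t3, ← Complex.exp_add]
    have h := F.top
    have : Q (b.natAbs - 1) - Q b.natAbs - Z + (Z - P) = Q (b.natAbs - 1) - (P + Q b.natAbs) := by ring
    rw [this, Complex.exp_sub, h, div_self (Complex.exp_ne_zero _)]
  have t5 : Complex.exp (P - Q b.natAbs - B + ((b.natAbs - 1 : ℕ) : ℂ) * Z) *
      Complex.exp (P + B - (((b.natAbs - 1 : ℕ) : ℂ) + 1) * Z - Q (b.natAbs - 1)) =
      -Complex.exp (Q b.natAbs - Q (b.natAbs - 1) - Z) := by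
    linear_combination Complex.exp (P + B - (((b.natAbs - 1 : ℕ) : ℂ) + 1) * Z - Q (b.natAbs - 1)) * o1 -
      t4 + n1
  obtain ⟨k9, e9⟩ := rl_inv' (by rw [add_comm]; exact n1) t4 t5
  obtain ⟨k10, e10⟩ := rl_symm n1
  obtain ⟨k11, e11⟩ := rl_symm o1
  have h4 : Complex.exp (2 * Q b.natAbs) = Complex.exp (2 * P + Real.pi * Complex.I) := by
    rw [Complex.exp_add, Complex.exp_pi_mul_I, F.fold]; ring
  obtain ⟨c, hc⟩ := exp_eq_int h4
  obtain ⟨d, hd⟩ := exp_eq_int F.top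
  unfold rP at hcr
  have hy : Q b.natAbs = P + Real.pi * Complex.I / 2 + Real.pi * Complex.I * c := by
    linear_combination hc / 2
  have hB : B = ((b.natAbs : ℂ) + 1) * Z - P + Q b.natAbs + 2 * Real.pi * Complex.I * (g + d) := by
    rw [hn1, hd] at hg
    linear_combination hg
  -- the relation of the integers
  have hint : ((b.natAbs : ℂ) - 1) * δ + c + 2 * g + 2 * d = a1 - c1 := by
    have hpI : (2 * Real.pi * Complex.I : ℂ) ≠ 0 := Complex.two_pi_I_ne_zero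
    apply mul_left_cancel₀ hpI
    unfold Bs at ha1 hc1
    push_cast at ha1 hc1 ⊢
    rw [hB, hy] at ha1 hc1
    rw [hn] at ha1 hc1 ⊢
    rcases hs with hs | hs <;> rw [hs] at ha1 hc1 hZ ⊢
    · subst hZ
      linear_combination ha1 - hc1 + 2 * hcr
    · subst hZ
      linear_combination ha1 - hc1 + 2 * hcr
  unfold rsE hng
  have hNN : cNN P Z B Q (b.natAbs - 1) = cnn P Z B Q (b.natAbs - 1) + cmm P Z B Q (b.natAbs - 1) := rfl
  have en : rl (Q b.natAbs - Q (b.natAbs - 1) - Z)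
      (P + B - (((b.natAbs - 1 : ℕ) : ℂ) + 1) * Z - Q (b.natAbs - 1)) = cnn P Z B Q (b.natAbs - 1) := by
    unfold cnn
    rw [show b.natAbs - 1 + 1 = b.natAbs by omega]
  have em : rl (P - Q b.natAbs - B + ((b.natAbs - 1 : ℕ) : ℂ) * Z) (Q (b.natAbs - 1) - Q b.natAbs - Z) =
      cmm P Z B Q (b.natAbs - 1) := by
    unfold cmm
    rw [show b.natAbs - 1 + 1 = b.natAbs by omega]
  rw [en] at e10
  rw [em] at e11
  rw [zero_add] at e1 e3 hm1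
  rw [show 0 + 1 = 1 from rfl] at e1
  rw [show b.natAbs - 2 + 1 = b.natAbs - 1 by omega] at e4 e5
  unfold Bs at *
  generalize rl (P + B - (((b.natAbs - 1 : ℕ) : ℂ) + 1) * Z - Q (b.natAbs - 1))
    (Q b.natAbs - Q (b.natAbs - 1) - Z) = R1 at *
  generalize rl (Q (b.natAbs - 1) - Q b.natAbs - Z)
    (P - Q b.natAbs - B + ((b.natAbs - 1 : ℕ) : ℂ) * Z) = R2 at *
  generalize cnn P Z B Q (b.natAbs - 1) = nn1 at *
  generalize cmm P Z B Q (b.natAbs - 1) = mm1 at *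
  generalize cmu P Z B Q 0 = U0 at *
  generalize cmv P Z B Q 0 = V0 at *
  generalize lamc P Q 0 = M0 at *
  generalize cNN P Z B Q 0 = N0 at *
  generalize cNN P Z B Q 1 = N1 at *
  generalize cNN P Z B Q (b.natAbs - 2) = N2 at *
  generalize cNN P Z B Q (b.natAbs - 1) = N3 at *
  generalize rs (b.natAbs - 2) P Q = RR at *
  generalize hly P Q (b.natAbs - 2) = HH at *
  generalize fs b w = f0 at *
  generalize fs b (w - ζ + 1 / 2) = f1 at *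
  generalize fs b (w + ζ + 1 / 2) = f2 at *
  clear F FR hl hδ hP en em h4 t1 t2 t3 t4 t5 n1 o1 hc hg
  rw [hn1] at e9
  generalize Q 0 = q0 at *
  generalize Q 1 = q1 at *
  generalize Q 2 = q2 at *
  generalize Q (b.natAbs - 1) = q4 at *
  generalize Q b.natAbs = q3 at *
  subst hm1 hd hy
  push_cast at e1 e3 e4 e5 e6 e7 e8 e9 e10 e11 ha1 hc1 hint ⊢
  rw [hn] at e9 hB hint
  generalize ((b.natAbs : ℕ) : ℂ) = cnn at *
  rcases hs with hs | hs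
  · rw [hs] at e1 e6 e7 e8 e9 ha1 hc1 hZ hint hB ⊢
    subst hZ hB
    refine ⟨2 * k5 + 2 * k3 + 2 * k4 + k1 + 2 * k6 - k7 - k8 + 2 * k9 - 4 * k10 - 4 * k11 -
      (-2 * c - 4 * c * d - 2 * c * δ - 4 * c * g - 2 * c ^ 2 - 2 * d - 4 * d * δ - 8 * d * g - 4 * d ^ 2 +
        m1 - 3 * δ - 4 * δ * g - 2 * g - 4 * g ^ 2 - a1 - c1), ?_⟩
    push_cast
    linear_combination e5 + e3 + e4 + e1 + 2 * e6 - e7 - e8 - 2 * hNN - 2 * e10 - 2 * e11 +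
      2 * e9 -
      Real.pi * Complex.I * (1 / 2 - ζ) * ha1 - Real.pi * Complex.I * (1 / 2 + ζ) * hc1 -
      2 * (Real.pi * Complex.I * ζ + Real.pi * Complex.I * δ) * hcr -
      2 * Real.pi ^ 2 * Complex.I ^ 2 * ζ * hint + Real.pi ^ 2 *
      (-2 * c - 4 * c * d - 2 * c * δ - 4 * c * g - 2 * c ^ 2 - 2 * d - 4 * d * δ - 8 * d * g - 4 * d ^ 2 +
        m1 - 3 * δ - 4 * δ * g - 2 * g - 4 * g ^ 2 - a1 - c1 - 1 / 2) * Complex.I_sq
  · rw [hs] at e1 e6 e7 e8 e9 ha1 hc1 hZ hint hB ⊢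
    subst hZ hB
    refine ⟨-(2 * k5 + 2 * k3 + 2 * k4 + k1 + 2 * k9 - 4 * k10 - 4 * k11) + 2 * k6 - k7 - k8 -
      (2 * c + 4 * c * d + 2 * c * δ + 4 * c * g + 2 * c ^ 2 + 2 * d + 4 * d * δ + 8 * d * g + 4 * d ^ 2 +
        m1 + 3 * δ + 4 * δ * g + 2 * g + 4 * g ^ 2 - a1 - c1), ?_⟩
    push_cast
    linear_combination -e5 - e3 - e4 - e1 + 2 * e6 - e7 - e8 + 2 * hNN + 2 * e10 + 2 * e11 -
      2 * e9 -
      Real.pi * Complex.I * (1 / 2 - ζ) * ha1 - Real.pi * Complex.I * (1 / 2 + ζ) * hc1 +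
      2 * (-Real.pi * Complex.I * ζ + Real.pi * Complex.I * δ) * hcr -
      2 * Real.pi ^ 2 * Complex.I ^ 2 * ζ * hint + Real.pi ^ 2 *
      (2 * c + 4 * c * d + 2 * c * δ + 4 * c * g + 2 * c ^ 2 + 2 * d + 4 * d * δ + 8 * d * g + 4 * d ^ 2 +
        m1 + 3 * δ + 4 * δ * g + 2 * g + 4 * g ^ 2 - a1 - c1 + 1 / 2) * Complex.I_sq

end Pool.Agent.Work.MP_b30479_gt.G2
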