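import Pool.Agent.Work.MP_b30479_gt.G2.CSWordA
import Pool.Agent.Work.MP_b30479_gt.G2.CSList

/-!
# The complexified volume of a signed word
-/

namespace Pool.Agent.Work.MP_b30479_gt.G2

open Finset VOL
open Pool.Agent.Work.MP_b30479_gt.LT (ee)

section
variable {N : ℕ} {b : ℕ → ℤ} {Y : ℕ → ℂ} {U : ℕ → ℕ → ℂ} {y : ℂ}

lemma Vk_suc {k : ℕ} (hk : 1 ≤ k) (l : ℕ) : Vk b y k (l + 1) = Fk b y k l := by
  obtain ⟨m, rfl⟩ : ∃ m, k = m + 1 := ⟨k - 1, by omega⟩
  show fan _ _ _ (l + 1) = _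
  rw [← fan_shift]
  show _ = fan _ _ _ l
  congr 1
  ring

lemma Vk_zero {k : ℕ} (hk : 1 ≤ k) : Vk b y k 0 = (St b y k).1 * (St b y k).2.1 - (St b y k).2.2 := by
  obtain ⟨m, rfl⟩ : ∃ m, k = m + 1 := ⟨k - 1, by omega⟩
  rfl

lemma Fk_rec (k l : ℕ) : (St b y k).1 * Fk b y k (l + 1) = Fk b y k l + Fk b y k (l + 2) := by
  show _ = Fk b y k l + ((St b y k).1 * fan _ _ _ (l + 1) - fan _ _ _ l)
  show (St b y k).1 * fan (St b y k).1 (St b y k).2.1 (St b y k).2.2 (l + 1) =
    fan (St b y k).1 (St b y k).2.1 (St b y k).2.2 l + _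
  ring

/-- a fan with nonzero values -/
lemma vf_of {k n : ℕ} (hk : 1 ≤ k) (hI : Inv (St b y k) (U k))
    (hF : ∀ l ≤ n + 1, Fk b y k l ≠ 0) (hS : ∀ l ≤ n, Str (U k l) (St b y k).1 (Fk b y k l) (Fk b y k (l + 1))) :
    VF (St b y k).1 (Vk b y k) (U k) n := by
  have hch : ∀ l ≤ n, U k l * Vk b y k l = -Vk b y k (l + 2) := by
    intro l hl
    have hs := hS l hl
    unfold Str at hs
    rw [show l + 2 = l + 1 + 1 by ring, Vk_suc hk]
    rcases Nat.eq_zero_or_pos l with rfl | h0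
    · rw [Vk_zero hk]
      have e : Fk b y k 0 = (St b y k).2.1 := rfl
      have e1 : Fk b y k (0 + 1) = (St b y k).2.2 := rfl
      rw [e, e1] at hs
      rw [e1]
      linear_combination hs
    · obtain ⟨m, rfl⟩ : ∃ m, l = m + 1 := ⟨l - 1, by omega⟩
      rw [Vk_suc hk]
      have h1 := Fk_rec (b := b) (y := y) k m
      rw [show m + 1 + 1 = m + 2 by ring] at hs ⊢
      linear_combination hs - U k (m + 1) * h1
  have hV : ∀ l ≤ n + 2, Vk b y k l ≠ 0 := by
    intro l hl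
    rcases Nat.eq_zero_or_pos l with rfl | h0
    · intro h
      have := hch 0 (by omega)
      rw [h, mul_zero, zero_add, show (2 : ℕ) = 1 + 1 by rfl, Vk_suc hk] at this
      exact hF 1 (by omega) (by linear_combination this)
    · obtain ⟨m, rfl⟩ : ∃ m, l = m + 1 := ⟨l - 1, by omega⟩
      rw [Vk_suc hk]
      exact hF m (by omega)
  refine ⟨hI.p0, hV, fun l hl => ?_, fun l hl => ?_, hch⟩
  · rw [Vk_suc hk, show l + 2 = l + 1 + 1 by ring, Vk_suc hk]
    rcases Nat.eq_zero_or_pos l with rfl | h0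
    · rw [Vk_zero hk]
      show (St b y k).1 * (St b y k).2.1 = _ - _ + (St b y k).2.2
      ring
    · obtain ⟨m, rfl⟩ : ∃ m, l = m + 1 := ⟨l - 1, by omega⟩
      rw [Vk_suc hk]
      exact Fk_rec k m
  · rw [Vk_suc hk (l + 1), Vk_suc hk l]
    have hM := hI.mkf.fan l
    have h2 : Vk b y k l = (St b y k).1 * Fk b y k l - Fk b y k (l + 1) := by
      rcases Nat.eq_zero_or_pos l with rfl | h0
      · rw [Vk_zero hk]
        rfl
      · obtain ⟨m, rfl⟩ : ∃ m, l = m + 1 := ⟨l - 1, by omega⟩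
        rw [Vk_suc hk, Fk_rec k m]
        ring
    rw [h2]
    unfold Mkf at hM
    have e : fan (St b y k).1 (St b y k).2.1 (St b y k).2.2 l = Fk b y k l := rfl
    have e' : fan (St b y k).1 (St b y k).2.1 (St b y k).2.2 (l + 1) = Fk b y k (l + 1) := rfl
    rw [e, e'] at hM
    linear_combination hM

variable (h : GlueN N b Y U) (hy : (1 - U 0 1) * (1 - (U 0 0)⁻¹) = y ^ 2)
include h hy

lemma GlueN.str {k : ℕ} (hk0 : 1 ≤ k) (hk : k ≤ N) : ∀ l ≤ topN N b k, Fk b y k l ≠ 0 ∧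
    Str (U k l) (St b y k).1 (Fk b y k l) (Fk b y k (l + 1)) := by
  have hI := h.inv hy k hk0 hk
  exact fun l hl => star (h.nd k hk).2 (fun l hl => by rw [h.kap k hk l hl, hI.kap]) hI.p0 hI.q0 hI.str l hl

/-- the values on the fan of an inner twist region -/
lemma GlueN.vf_mid {k : ℕ} (hk0 : 1 ≤ k) (hk : k < N) :
    VF (St b y k).1 (Vk b y k) (U k) (b k).natAbs := by
  have hI := h.inv hy k hk0 hk.le
  have hs := h.str hy hk0 hk.le
  have hR := h.mid k hk0 hk
  have ht : topN N b k = (b k).natAbs := by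
    unfold topN
    rw [if_neg (by omega)]
  rw [ht] at hs
  have hnd := h.nd k hk.le
  rw [ht] at hnd
  have hUA : U k (b k).natAbs ≠ 0 := left_ne_zero_of_mul_eq_one hR.right
  refine vf_of hk0 hI (fun l hl => ?_) fun l hl => (hs l hl).2
  · rcases Nat.lt_or_ge (b k).natAbs l with h1 | h1
    · obtain rfl : l = (b k).natAbs + 1 := by omega
      intro h2
      have h3 := (hs _ le_rfl).2
      unfold Str at h3
      rw [h2, mul_zero] at h3
      exact mul_ne_zero (mul_ne_zero hUA hI.p0) (hs _ le_rfl).1 (by linear_combination h3)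
    · exact (hs l h1).1

/-- the values on the last fan -/
lemma GlueN.ve_last : VE (b N) (St b y N).1 (Vk b y N) (U N) := by
  have hN := h.hN
  have hI := h.inv hy N hN le_rfl
  have hs := h.str hy hN le_rfl
  have h2 := h.last2
  have ht : topN N b N = (b N).natAbs - 1 := by
    unfold topN
    rw [if_pos (Or.inr rfl)]
  have hnd := h.nd N le_rfl
  have hr := (h.run hy hN le_rfl).end0
  rw [ht] at hs hnd hr
  have h3 := hr h.last.right
  rw [show (b N).natAbs - 1 + 1 = (b N).natAbs by omega] at h3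
  obtain ⟨m, hm⟩ : ∃ m, (b N).natAbs = m + 2 := ⟨(b N).natAbs - 2, by omega⟩
  refine ⟨vf_of hN hI (fun l hl => (hs l (by omega)).1)
    (fun l hl => (hs l (by omega)).2), ?_, ?_⟩
  · rw [hm, show m + 2 - 1 = m + 1 by omega, Vk_suc hN (m + 1), Vk_suc hN m, Fk_rec,
      ← hm, h3, add_zero]
  · have hM := hI.mkf.fan (m + 1)
    unfold Mkf at hM
    have e : fan (St b y N).1 (St b y N).2.1 (St b y N).2.2 (m + 1 + 1) = 0 := by
      rw [← h3, hm]
      rfl
    rw [hm, Vk_suc hN (m + 1)]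
    rw [e] at hM
    have e' : fan (St b y N).1 (St b y N).2.1 (St b y N).2.2 (m + 1) = Fk b y N (m + 1) := rfl
    rw [e'] at hM
    linear_combination -hM

/-- the values on the first fan -/
lemma GlueN.ve_first : VE (b 0) y (Vk b y 0) (U 0) := by
  have hN := h.hN
  have h2 := h.first2
  have hI := h.inv hy 1 le_rfl hN
  have hy0 : y ≠ 0 := hI.q0
  have ht0 : topN N b 0 = (b 0).natAbs - 1 := by
    unfold topN
    rw [if_pos (Or.inl rfl)]
  have hk := h.kap 0 (by omega)
  have h1 := h.nd 0 (by omega)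
  rw [ht0] at hk h1
  have hs := star_first (p := y) (q1 := Complex.I * y) (U := U 0) (n := (b 0).natAbs - 1) h1.2
        h.first.right (fun l hl => by rw [hk l hl, hy]) hy0 (mul_ne_zero Complex.I_ne_zero hy0)
  have hF : ∀ m, fan y 0 (Complex.I * y) m = Fk b y 0 m := fun _ => rfl
  simp only [hF] at hs
  obtain ⟨A, hA⟩ : ∃ A, (b 0).natAbs = A + 2 := ⟨(b 0).natAbs - 2, by omega⟩
  have hrec := Fk_rec (b := b) (y := y) 0
  have e0 : (St b y 0).1 = y := rfl
  rw [e0] at hrec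
  have hV : ∀ l, Vk b y 0 l = Fk b y 0 ((b 0).natAbs + 1 - l) := fun _ => rfl
  have hMk : Mkf y 0 (Complex.I * y) := by
    show Complex.I * y * (y * 0 - Complex.I * y) = y ^ 2 + 0 ^ 2
    linear_combination (-y ^ 2) * Complex.I_sq
  have hne : ∀ l ≤ (b 0).natAbs, Vk b y 0 l ≠ 0 := by
    intro l hl
    rw [hV]
    rcases Nat.eq_zero_or_pos l with rfl | h0
    · rw [Nat.sub_zero]
      have h3 := hs ((b 0).natAbs - 1) le_rfl
      rw [show (b 0).natAbs - 1 + 2 = (b 0).natAbs + 1 by omega] at h3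
      intro h4
      rw [h4, mul_zero] at h3
      exact mul_ne_zero hy0 h3.1 h3.2.symm
    · have h3 := (hs ((b 0).natAbs - l) (by omega)).1
      rw [show (b 0).natAbs - l + 1 = (b 0).natAbs + 1 - l by omega] at h3
      exact h3
  refine ⟨⟨hy0, fun l hl => hne l (by omega), fun l hl => ?_, fun l hl => ?_, fun l hl => ?_⟩, ?_, ?_⟩
  · have := hrec ((b 0).natAbs - 1 - l)
    rw [hV, hV, hV, show (b 0).natAbs + 1 - (l + 1) = (b 0).natAbs - 1 - l + 1 by omega, this,
      show (b 0).natAbs + 1 - l = (b 0).natAbs - 1 - l + 2 by omega,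
      show (b 0).natAbs + 1 - (l + 2) = (b 0).natAbs - 1 - l by omega, add_comm]
  · have hM := hMk.fan ((b 0).natAbs - 1 - l)
    have := hrec ((b 0).natAbs - 1 - l)
    unfold Mkf at hM
    rw [hF, hF] at hM
    have hM2 := hMk.fan ((b 0).natAbs - 1 - l + 1)
    unfold Mkf at hM2
    rw [hF, hF, show (b 0).natAbs - 1 - l + 1 + 1 = (b 0).natAbs - 1 - l + 2 by ring, this] at hM2
    rw [hV, hV, hV, show (b 0).natAbs + 1 - (l + 1) = (b 0).natAbs - 1 - l + 1 by omega,
      show (b 0).natAbs + 1 - l = (b 0).natAbs - 1 - l + 2 by omega,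
      show (b 0).natAbs + 1 - (l + 2) = (b 0).natAbs - 1 - l by omega]
    linear_combination hM2
  · have h3 := hs ((b 0).natAbs - 1 - l) (by omega)
    rw [show (b 0).natAbs - 1 - ((b 0).natAbs - 1 - l) = l by omega] at h3
    have := hrec ((b 0).natAbs - 1 - l)
    rw [hV, hV, show (b 0).natAbs + 1 - l = (b 0).natAbs - 1 - l + 2 by omega,
      show (b 0).natAbs + 1 - (l + 2) = (b 0).natAbs - 1 - l by omega]
    linear_combination -h3.2 - this
  · rw [hV, hV, show (b 0).natAbs + 1 - ((b 0).natAbs - 1) = 2 by omega,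
      show (b 0).natAbs + 1 - (b 0).natAbs = 1 by omega]
    show y * (Complex.I * y) - 0 = y * (Complex.I * y)
    ring
  · rw [hV, show (b 0).natAbs + 1 - (b 0).natAbs = 1 by omega]
    show (Complex.I * y) ^ 2 = _
    linear_combination (y ^ 2) * Complex.I_sq

end

end Pool.Agent.Work.MP_b30479_gt.G2
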