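import Pool.Agent.Work.MP_b30479_gt.G2.CSMg
import Pool.Agent.Work.MP_b30479_gt.G2.CSRN
import Pool.Agent.Work.MP_b30479_gt.G2.CSLoc

/-!
# The complexified volume of a twist region in terms of Neumann's function
-/

namespace Pool.Agent.Work.MP_b30479_gt.G2

open Finset VOL

/-- the values of a Markoff map on a fan and the chain of a twist region -/
structure VF (p : ℂ) (V U : ℕ → ℂ) (n : ℕ) : Prop where
  p0 : p ≠ 0
  V0 : ∀ l ≤ n + 2, V l ≠ 0
  lin : ∀ l ≤ n, p * V (l + 1) = V l + V (l + 2)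
  sqr : ∀ l ≤ n, V l * V (l + 2) = V (l + 1) ^ 2 + p ^ 2
  ch : ∀ l ≤ n, U l * V l = -V (l + 2)

variable {b : ℤ} {x : Fin 3 → ℂ} {p : ℂ} {V U : ℕ → ℂ} {n : ℕ}

lemma VF.fan (F : VF p V U n) : Fan (Complex.log p) (fun l => Complex.log (V l)) n := by
  refine ⟨fun l hl => ?_, fun l hl => ?_⟩
  · rw [Complex.exp_add, Complex.exp_log F.p0, Complex.exp_log (F.V0 _ (by omega)),
      Complex.exp_log (F.V0 _ (by omega)), Complex.exp_log (F.V0 _ (by omega))]
    exact F.lin l hl
  · rw [Complex.exp_add, exp_two, exp_two, Complex.exp_log F.p0, Complex.exp_log (F.V0 _ (by omega)),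
      Complex.exp_log (F.V0 _ (by omega)), Complex.exp_log (F.V0 _ (by omega))]
    exact F.sqr l hl

lemma VF.chQ (F : VF p V U n) : ChQ U (fun l => Complex.log (V l)) n := by
  intro l hl
  rw [Complex.exp_log (F.V0 _ (by omega)), Complex.exp_log (F.V0 _ (by omega))]
  exact F.ch l hl

lemma VF.hly (F : VF p V U n) {l : ℕ} (hl : l ≤ n) :
    Cq (sgB b * hly (Complex.log p) (fun l => Complex.log (V l)) l)
      (-RL (layV b p V l) - Real.pi ^ 2 / 3 + if 0 < b then (0 : ℂ) else Real.pi ^ 2 / 6) :=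
  hly_RL F.p0 (F.V0 _ (by omega)) (F.V0 _ (by omega)) (F.V0 _ (by omega)) (F.sqr l hl)

lemma Cq.sum {ι : Type*} {s : Finset ι} {f g : ι → ℂ} (h : ∀ i ∈ s, Cq (f i) (g i)) :
    Cq (∑ i ∈ s, f i) (∑ i ∈ s, g i) := by
  classical
  induction s using Finset.induction_on with
  | empty => simpa using Cq.refl 0
  | insert a s ha ih =>
    rw [sum_insert ha, sum_insert ha]
    exact (h a (mem_insert_self a s)).add (ih fun i hi => h i (mem_insert_of_mem hi))

/-- the halves of the layers of `m` letters -/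
lemma VF.rs (F : VF p V U n) {m : ℕ} (hm : m ≤ n) :
    Cq (sgB b * G2.rs m (Complex.log p) (fun l => Complex.log (V l)))
      (-(∑ l ∈ range m, (RL (layV b p V l) + RL (layV b p V (l + 1)))) +
        (m : ℂ) * (if 0 < b then -(2 * (Real.pi : ℂ) ^ 2 / 3) else -((Real.pi : ℂ) ^ 2 / 3))) := by
  have h : Cq (∑ l ∈ range m, (sgB b * G2.hly (Complex.log p) (fun l => Complex.log (V l)) l +
      sgB b * G2.hly (Complex.log p) (fun l => Complex.log (V l)) (l + 1)))
      (∑ l ∈ range m, ((-RL (layV b p V l) - Real.pi ^ 2 / 3 +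
        if 0 < b then (0 : ℂ) else Real.pi ^ 2 / 6) + (-RL (layV b p V (l + 1)) - Real.pi ^ 2 / 3 +
        if 0 < b then (0 : ℂ) else Real.pi ^ 2 / 6))) := by
    refine Cq.sum fun l hl => ?_
    rw [mem_range] at hl
    rcases Nat.lt_or_ge (l + 1) (n + 1) with h1 | h1
    · exact (F.hly (by omega)).add (F.hly (by omega))
    · omega
  obtain ⟨k, hk⟩ := h
  refine ⟨k, ?_⟩
  rw [← hk, G2.rs, mul_sum, ← sum_sub_distrib]
  have e : ∀ c : ℂ, (m : ℂ) * c = ∑ l ∈ range m, c := fun c => by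
    rw [sum_const, card_range, nsmul_eq_mul]
  rw [e, ← sum_neg_distrib, ← sum_add_distrib, ← sum_sub_distrib]
  refine sum_congr rfl fun l _ => ?_
  split_ifs <;> ring

/-- the hinge terms of an inner twist region -/
noncomputable def hgL (b : ℤ) (P : ℂ) (Q : ℕ → ℂ) (w D : ℂ) : ℂ :=
  hng (sgB b * (Q 2 - Q 0)) (2 * P - 2 * Q 1) w D

noncomputable def hgR (b : ℤ) (P : ℂ) (Q : ℕ → ℂ) (w D : ℂ) : ℂ :=
  hng (sgB b * (Q b.natAbs - Q (b.natAbs + 2))) (2 * P - 2 * Q (b.natAbs + 1)) w D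

/-- an inner twist region -/
theorem run_RL {t : Typ} (h : LH t b true true x) (F : VF p V (lC t b true true x) b.natAbs) :
    Cq (lW t b true true x +
      hgL b (Complex.log p) (fun l => Complex.log (V l)) (x 0) (ldT t b true true x 0) +
      hgR b (Complex.log p) (fun l => Complex.log (V l)) (x 2) (ldT t b true true x 2))
      (-(∑ l ∈ range b.natAbs, (RL (layV b p V l) + RL (layV b p V (l + 1)))) -
        Real.pi ^ 2 * b / 6) := by
  obtain ⟨k, hk⟩ := run_cs h F.fan F.chQ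
  obtain ⟨m, hm⟩ := F.rs (b := b) le_rfl
  by_cases hb : 0 < b
  · have e := natAbs_cast_pos hb
    rw [if_pos hb] at hm
    rw [e] at hm
    refine ⟨m - k - b, ?_⟩
    unfold hgL hgR
    push_cast
    linear_combination hm - hk
  · have e := natAbs_cast_neg hb
    rw [if_neg hb] at hm
    rw [e] at hm
    refine ⟨m - k, ?_⟩
    unfold hgL hgR
    push_cast
    linear_combination hm - hk

/-- two logarithms -/
lemma exp_odd {x y : ℂ} (h : Complex.exp x = -Complex.exp y) :
    ∃ k : ℤ, x = y + Real.pi * Complex.I * (2 * k + 1) := by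
  obtain ⟨k, hk⟩ := hinge_int (a := 0) (q := y) (q' := x) (by rw [zero_add, h, neg_neg])
  exact ⟨k, by rw [hk]; ring⟩

/-- the correction at an end -/
lemma corr_end (hp : p ≠ 0) {e q : ℂ} (he : e ≠ 0) (hq : q = p * e) (h2 : e ^ 2 = -p ^ 2) :
    Cq (sgB b * (2 * (Complex.log e - Complex.log p) * (Complex.log p - Complex.log q)))
      (-cend b (p, e) + Real.pi ^ 2 / 2) := by
  obtain ⟨m, hm⟩ := exp_odd (x := 2 * Complex.log e) (y := 2 * Complex.log p) (by
    rw [exp_two, exp_two, Complex.exp_log he, Complex.exp_log hp, h2])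
  obtain ⟨k, hk⟩ := exp_eq_int (x := Complex.log q) (y := Complex.log p + Complex.log e) (by
    rw [Complex.exp_add, Complex.exp_log he, Complex.exp_log hp, hq,
      Complex.exp_log (mul_ne_zero hp he)])
  obtain ⟨j, hj⟩ := exp_eq_int (x := Complex.log (p ^ 2)) (y := 2 * Complex.log p) (by
    rw [exp_two, Complex.exp_log hp, Complex.exp_log (pow_ne_zero 2 hp)])
  have hE : Complex.log e = Complex.log p + Real.pi * Complex.I * (2 * m + 1) / 2 := by
    linear_combination hm / 2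
  unfold cend sgB
  simp only
  by_cases hb : 0 < b
  · simp only [if_pos hb]
    rw [hk, hj, hE]
    refine ⟨2 * (m * m + m) + 2 * k * (2 * m + 1) - (2 * m + 1) * j, ?_⟩
    push_cast
    linear_combination (-Real.pi ^ 2 * (2 * m + 1) * ((2 * m + 1) / 2 + 2 * k - j)) * Complex.I_sq
  · simp only [if_neg hb]
    obtain ⟨i, hi⟩ := exp_eq_int (x := Complex.log ((p ^ 2)⁻¹)) (y := -Complex.log (p ^ 2)) (by
      rw [Complex.exp_neg, Complex.exp_log (pow_ne_zero 2 hp),
        Complex.exp_log (inv_ne_zero (pow_ne_zero 2 hp))])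
    rw [hi, hk, hj, hE]
    refine ⟨-(2 * (m * m + m)) - 2 * k * (2 * m + 1) + (2 * m + 1) * (j - i) - 1, ?_⟩
    push_cast
    linear_combination (Real.pi ^ 2 * (2 * m + 1) * ((2 * m + 1) / 2 + 2 * k - j + i)) * Complex.I_sq

/-- the values on the fan at an end -/
structure VE (b : ℤ) (p : ℂ) (V U : ℕ → ℂ) : Prop where
  vf : VF p V U (b.natAbs - 2)
  top : V (b.natAbs - 1) = p * V b.natAbs
  fold : V b.natAbs ^ 2 = -p ^ 2

lemma VE.fanE (F : VE b p V U) (hb : 2 ≤ b.natAbs) :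
    FanE (Complex.log p) (fun l => Complex.log (V l)) b.natAbs := by
  have h1 := F.vf.V0 b.natAbs (by omega)
  have h2 := F.vf.V0 (b.natAbs - 1) (by omega)
  refine ⟨F.vf.fan, ?_, ?_⟩
  · rw [Complex.exp_add, Complex.exp_log h1, Complex.exp_log h2, Complex.exp_log F.vf.p0]
    exact F.top
  · rw [exp_two, exp_two, Complex.exp_log h1, Complex.exp_log F.vf.p0]
    exact F.fold

/-- a twist region at an end -/
theorem end_RL {t : Typ} {l r : Bool} {w D : ℂ} (hb2 : 2 ≤ b.natAbs) (F : VE b p V U)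
    (h : EndCS t b l r x w D (Complex.log p) (fun l => Complex.log (V l))) :
    Cq (lW t b l r x + hgL b (Complex.log p) (fun l => Complex.log (V l)) w D)
      (-(∑ l ∈ range (b.natAbs - 2), (RL (layV b p V l) + RL (layV b p V (l + 1))) +
        RL (layV b p V (b.natAbs - 2))) - cend b (p, V b.natAbs) - Real.pi ^ 2 * b / 6 +
        Real.pi ^ 2 * (if 0 < b then 2 / 3 else 5 / 6)) := by
  have h1 := F.vf.V0 b.natAbs (by omega)
  obtain ⟨k, hk⟩ := h
  obtain ⟨m, hm⟩ := F.vf.rs (b := b) le_rfl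
  obtain ⟨n, hn⟩ := F.vf.hly (b := b) le_rfl
  obtain ⟨j, hj⟩ := corr_end (b := b) F.vf.p0 h1 F.top F.fold
  unfold rsE at hk
  unfold hgL
  by_cases hb : 0 < b
  · have e := natAbs_cast_pos hb
    have e2 : ((b.natAbs - 2 : ℕ) : ℂ) = b - 2 := by
      rw [Nat.cast_sub hb2, e]
      norm_num
    have e3 : sgB b = 1 := if_pos hb
    rw [if_pos hb, e2] at hm
    rw [if_pos hb] at hn
    rw [e3] at hk hm hn hj ⊢
    rw [if_pos hb]
    refine ⟨m + n + j - k - b + 1, ?_⟩
    push_cast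
    linear_combination hm + hn + hj - hk
  · have e := natAbs_cast_neg hb
    have e2 : ((b.natAbs - 2 : ℕ) : ℂ) = -b - 2 := by
      rw [Nat.cast_sub hb2, e]
      norm_num
    have e3 : sgB b = -1 := if_neg hb
    rw [if_neg hb, e2] at hm
    rw [if_neg hb] at hn
    rw [e3] at hk hm hn hj ⊢
    rw [if_neg hb]
    refine ⟨m + n + j - k, ?_⟩
    push_cast
    linear_combination hm + hn + hj - hk

end Pool.Agent.Work.MP_b30479_gt.G2
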