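import Pool.Agent.Work.MP_b30479_gt.G2.CSWord
import Pool.Agent.Work.MP_b30479_gt.G2.SWMain

/-!
# The complexified volume of a signed word, part B
-/

namespace Pool.Agent.Work.MP_b30479_gt.G2

open Finset VOL
open Pool.Agent.Work.MP_b30479_gt.LT (ee)

/-! ### hinges -/

section
variable {b : ℕ → ℤ} {y : ℂ}

/-- the term of a hinge -/
noncomputable def hgT (b : ℕ → ℤ) (y : ℂ) (k : ℕ) (w D : ℂ) : ℂ :=
  hng (sgB (b k) * (Complex.log (Fk b y k ((b k).natAbs - 1)) - Complex.log (Fk b y k ((b k).natAbs + 1))))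
    (2 * Complex.log (St b y k).1 - 2 * Complex.log (Fk b y k (b k).natAbs)) w D

/-- the hinge seen from the left -/
lemma hgT_right {k : ℕ} (hk : 1 ≤ k) (hb : b k ≠ 0) (w D : ℂ) :
    hgR (b k) (Complex.log (St b y k).1) (fun l => Complex.log (Vk b y k l)) w D = hgT b y k w D := by
  unfold hgR hgT
  simp only
  obtain ⟨m, hm⟩ : ∃ m, (b k).natAbs = m + 1 := ⟨(b k).natAbs - 1, by omega⟩
  rw [hm, Vk_suc hk m, show m + 1 + 2 = m + 2 + 1 by ring, Vk_suc hk (m + 2), Vk_suc hk (m + 1),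
    Nat.add_sub_cancel]

lemma hgT_first (w D : ℂ) :
    hgL (b 0) (Complex.log y) (fun l => Complex.log (Vk b y 0 l)) w D = hgT b y 0 w D := by
  unfold hgL hgT
  have hV : ∀ l, Vk b y 0 l = Fk b y 0 ((b 0).natAbs + 1 - l) := fun _ => rfl
  simp only [hV]
  rw [show (b 0).natAbs + 1 - 2 = (b 0).natAbs - 1 by omega, Nat.sub_zero, Nat.add_sub_cancel]
  rfl

/-- the hinge seen from the right -/
lemma hgT_left {k : ℕ} (hb : b k ≠ 0) (hb' : b (k + 1) ≠ 0) {w D D' : ℂ} (hD : D + D' = 0) :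
    hgL (b (k + 1)) (Complex.log (St b y (k + 1)).1) (fun l => Complex.log (Vk b y (k + 1) l)) w D' =
      -hgT b y k w D := by
  unfold hgL hgT
  simp only
  obtain ⟨m, hm⟩ : ∃ m, (b k).natAbs = m + 1 := ⟨(b k).natAbs - 1, by omega⟩
  have hrec := Fk_rec (b := b) (y := y) k m
  have e1 : (St b y (k + 1)).1 = Fk b y k (b k).natAbs := rfl
  have e2 : (St b y (k + 1)).2.1 = (St b y k).1 := rfl
  have e3 : (St b y (k + 1)).2.2 = nq (b k) (b (k + 1)) (St b y k).1 (St b y k).2.1 (St b y k).2.2 := rfl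
  have e4 : Vk b y (k + 1) 1 = (St b y (k + 1)).2.1 := Vk_suc (by omega) 0
  have e5 : Vk b y (k + 1) 2 = (St b y (k + 1)).2.2 := Vk_suc (by omega) 1
  have e6 : Vk b y (k + 1) 0 = _ := Vk_zero (by omega)
  rw [← hng_neg, show -D = D' by linear_combination -hD, e4, e5, e6, e1, e2, e3, hm, Nat.add_sub_cancel]
  unfold nq
  by_cases hs : b k * b (k + 1) < 0
  · rw [if_pos hs, hm]
    have e7 : Fk b y k (m + 1) * (St b y k).1 - fan (St b y k).1 (St b y k).2.1 (St b y k).2.2 (m + 1 + 1) =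
        Fk b y k m := by
      have : fan (St b y k).1 (St b y k).2.1 (St b y k).2.2 (m + 1 + 1) = Fk b y k (m + 2) := rfl
      rw [this]
      linear_combination hrec
    have e8 : sgB (b (k + 1)) = -sgB (b k) := by
      rw [mul_neg_iff'] at hs
      unfold sgB
      rcases hs with ⟨h1, h2⟩ | ⟨h1, h2⟩
      · rw [if_pos h1, if_neg (by omega)]
      · rw [if_pos h2, if_neg (by omega : ¬ 0 < b k), neg_neg]
    have e9 : fan (St b y k).1 (St b y k).2.1 (St b y k).2.2 (m + 1 + 1) = Fk b y k (m + 1 + 1) := rfl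
    rw [e7, e8, e9]
    congr 1 <;> ring
  · rw [if_neg hs, hm, Nat.add_sub_cancel]
    have e9 : fan (St b y k).1 (St b y k).2.1 (St b y k).2.2 m = Fk b y k m := rfl
    have e7 : Fk b y k (m + 1) * (St b y k).1 - Fk b y k m = Fk b y k (m + 1 + 1) := by
      have : Fk b y k (m + 1 + 1) = Fk b y k (m + 2) := rfl
      rw [this]
      linear_combination hrec
    have e8 : sgB (b (k + 1)) = sgB (b k) := by
      rw [mul_neg_iff'] at hs
      unfold sgB
      split_ifs <;> first | rfl | omega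
    rw [e9, e7, e8]
    congr 1
    ring

end

/-! ### the sum -/

section
variable {M : ℕ} {b : Fin (M + 2) → ℤ} {t : Fin (M + 2) → Typ}
  {z : DD (M := M + 1) t ⊕ ZZ (M := M + 1) t → ℂ}

/-- the term of a twist region -/
noncomputable def WL (b : Fin (M + 2) → ℤ) (t : Fin (M + 2) → Typ)
    (z : DD (M := M + 1) t ⊕ ZZ (M := M + 1) t → ℂ) (i : Fin (M + 2)) : ℂ :=
  lW (t i) (b i) (decide (i ≠ 0)) (decide (i ≠ Fin.last (M + 1))) (xx t i z)

/-- the complexified volume of a critical point -/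
noncomputable def cvT (b : Fin (M + 2) → ℤ) (t : Fin (M + 2) → Typ)
    (z : DD (M := M + 1) t ⊕ ZZ (M := M + 1) t → ℂ) : ℂ :=
  2 * Real.pi * (wdat (M := M + 1) t b).T z -
    Real.pi ^ 2 * Complex.I / 2 * ∑ v : ZZ (M := M + 1) t, (b v.1 : ℂ)

lemma sum_ZZ (f : Fin (M + 2) → ℂ) : ∑ v : ZZ (M := M + 1) t, f v.1 =
    ∑ i, if t i = .ring then f i else 0 := by
  have h : ∀ i, (t i).isRing = true ↔ t i = .ring := by
    intro i
    cases t i <;> simp [Typ.isRing]
  rw [← Finset.sum_subtype (Finset.univ.filter fun i => (t i).isRing = true) (by simp) f,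
    Finset.sum_filter]
  refine sum_congr rfl fun i _ => ?_
  by_cases h1 : t i = .ring
  · rw [if_pos ((h i).mpr h1), if_pos h1]
  · rw [if_neg fun h2 => h1 ((h i).mp h2), if_neg h1]

lemma cvT_eq : cvT b t z = Complex.I * ∑ i, WL b t z i := by
  unfold cvT WL lW
  have h1 : ∑ v : ZZ (M := M + 1) t, (Real.pi * Complex.I * b v.1 * z (.inr v) ^ 2 +
      2 * Real.pi * Complex.I * z (.inr v)) = ∑ i, if t i = .ring then
        (Real.pi * Complex.I * b i * xx t i z 1 ^ 2 + 2 * Real.pi * Complex.I * xx t i z 1) else 0 := by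
    rw [← sum_ZZ (t := t) (fun i => Real.pi * Complex.I * b i * xx t i z 1 ^ 2 +
      2 * Real.pi * Complex.I * xx t i z 1)]
    refine sum_congr rfl fun v _ => ?_
    rw [xx_ring t v.2 z]
  rw [wdat_T, h1, sum_ZZ (t := t) (fun i => (b i : ℂ)), mul_add, mul_sum, mul_sum, mul_sum, mul_sum,
    ← sum_add_distrib, ← sum_sub_distrib]
  refine sum_congr rfl fun i _ => ?_
  split_ifs
  · linear_combination (2 * Real.pi * lT (t i) (b i) (decide (i ≠ 0)) (decide (i ≠ Fin.last (M + 1)))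
      (xx t i z) + 2 * Real.pi * (Real.pi * Complex.I * b i * xx t i z 1 ^ 2 +
      2 * Real.pi * Complex.I * xx t i z 1)) * Complex.I_sq
  · linear_combination (2 * Real.pi * lT (t i) (b i) (decide (i ≠ 0)) (decide (i ≠ Fin.last (M + 1)))
      (xx t i z)) * Complex.I_sq

/-- the derivative at the turning point `j`, left twist region -/
noncomputable def DR (b : Fin (M + 2) → ℤ) (t : Fin (M + 2) → Typ)
    (z : DD (M := M + 1) t ⊕ ZZ (M := M + 1) t → ℂ) (j : Fin (M + 1)) : ℂ :=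
  ldT (t j.castSucc) (b j.castSucc) (decide (j.castSucc ≠ 0)) true (xx t j.castSucc z) 2

/-- the term of the turning point `j` -/
noncomputable def HgW (b : Fin (M + 2) → ℤ) (t : Fin (M + 2) → Typ)
    (z : DD (M := M + 1) t ⊕ ZZ (M := M + 1) t → ℂ) (y : ℂ) (j : Fin (M + 1)) : ℂ :=
  hgT (xt 1 b) y j (z (.inl (.inl j))) (DR b t z j)

/-- the constants of a twist region -/
noncomputable def cK (b : ℤ) : ℂ := if 0 < b then 2 / 3 else 5 / 6

section
variable {y : ℂ} (ht : GTyp b t)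
    (hin : ∀ k, 0 < ((wdat (M := M + 1) t b).form k z).re ∧ ((wdat (M := M + 1) t b).form k z).re < 1)
    (hc : ∀ i, (wdat (M := M + 1) t b).dT z i = 0) (hn : GNv b t z)
    (hG : GlueN (M + 1) (xt 1 b) (xt 1 (gY t z)) (xt (fun _ => 1) (gU b t z)))
    (hy : (1 - xt (fun _ => 1) (gU b t z) 0 1) * (1 - (xt (fun _ => 1) (gU b t z) 0 0)⁻¹) = y ^ 2)
include ht hin hc hn hG hy

lemma reg_first : Cq (WL b t z 0 + HgW b t z y 0) (-HS (M + 1) (xt 1 b) y 0 -
    cend (b 0) (y, Complex.I * y) - Real.pi ^ 2 * b 0 / 6 + Real.pi ^ 2 * cK (b 0)) := by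
  have hl0 : (0 : Fin (M + 2)) ≠ Fin.last (M + 1) := (Fin.last_pos' (n := M + 1)).ne
  have h := geo_LH ht hin hc hn 0
  have e : xx t 0 z 2 = z (.inl (.inl 0)) := xx_right (M := M + 1) t 0 z
  have hb : xt 1 b 0 = b 0 := xt_eq 1 b 0
  have h2 : 2 ≤ (b 0).natAbs := by
    have := hG.first2
    rwa [hb] at this
  have hV := hG.ve_first hy
  have hU : xt (fun _ => 1) (gU b t z) 0 = gU b t z 0 := xt_eq _ _ 0
  rw [hU, gU_eq, hb] at hV
  simp only [ne_eq, not_true_eq_false, decide_false, hl0, not_false_eq_true, decide_true] at h hV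
  have h1 := end_RL h2 hV (first_cs h (hV.fanE h2) hV.vf.chQ)
  have h3 := hgT_first (b := xt 1 b) (y := y) (xx t 0 z 2) (ldT (t 0) (b 0) false true (xx t 0 z) 2)
  rw [hb] at h3
  rw [h3] at h1
  have e1 : Vk (xt 1 b) y 0 (b 0).natAbs = Complex.I * y := by
    show Fk (xt 1 b) y 0 ((xt 1 b 0).natAbs + 1 - (b 0).natAbs) = _
    rw [hb, Nat.add_sub_cancel_left]
    rfl
  have e2 : WL b t z 0 = lW (t 0) (b 0) false true (xx t 0 z) := by
    unfold WL
    simp [hl0]
  have e3 : HgW b t z y 0 = hgT (xt 1 b) y 0 (xx t 0 z 2) (ldT (t 0) (b 0) false true (xx t 0 z) 2) := by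
    unfold HgW DR
    rw [e]
    simp
  have e4 : HS (M + 1) (xt 1 b) y 0 = ∑ l ∈ range ((b 0).natAbs - 2),
      (RL (layV (b 0) y (Vk (xt 1 b) y 0) l) + RL (layV (b 0) y (Vk (xt 1 b) y 0) (l + 1))) +
      RL (layV (b 0) y (Vk (xt 1 b) y 0) ((b 0).natAbs - 2)) := by
    unfold HS RKc nlN
    rw [if_pos (Or.inl rfl), if_pos (Or.inl rfl), hb]
    rfl
  rw [e1] at h1
  rw [e2, e3, e4, cK]
  exact h1

lemma reg_last : Cq (WL b t z (Fin.last (M + 1)) - HgW b t z y (Fin.last M))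
    (-HS (M + 1) (xt 1 b) y (M + 1 : ℕ) - cend (b (Fin.last (M + 1))) ((St (xt 1 b) y (M + 1)).1,
      Fk (xt 1 b) y (M + 1) ((b (Fin.last (M + 1))).natAbs - 1)) -
      Real.pi ^ 2 * b (Fin.last (M + 1)) / 6 + Real.pi ^ 2 * cK (b (Fin.last (M + 1)))) := by
  have hl0 : (Fin.last (M + 1) : Fin (M + 2)) ≠ 0 := (Fin.last_pos' (n := M + 1)).ne'
  have h := geo_LH ht hin hc hn (Fin.last (M + 1))
  have e : xx t (Fin.last (M + 1)) z 0 = z (.inl (.inl (Fin.last M))) :=
    xx_left (M := M + 1) t (Fin.last M) z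
  have hb : xt 1 b (M + 1) = b (Fin.last (M + 1)) := xt_eq 1 b (Fin.last (M + 1))
  have h2 : 2 ≤ (b (Fin.last (M + 1))).natAbs := by
    have := hG.last2
    rwa [hb] at this
  have hV := hG.ve_last hy
  have hU : xt (fun _ => 1) (gU b t z) (M + 1) = gU b t z (Fin.last (M + 1)) :=
    xt_eq _ _ (Fin.last (M + 1))
  rw [hU, gU_eq, hb] at hV
  simp only [ne_eq, not_true_eq_false, decide_false, hl0, not_false_eq_true, decide_true] at h hV
  have h1 := end_RL h2 hV (last_cs h (hV.fanE h2) hV.vf.chQ)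
  have hD : DR b t z (Fin.last M) + ldT (t (Fin.last (M + 1))) (b (Fin.last (M + 1))) true false
      (xx t (Fin.last (M + 1)) z) 0 = 0 := by
    have := grT_hinge hc (Fin.last M)
    simpa [DR] using this
  have h3 := hgT_left (b := xt 1 b) (y := y) (k := M) (w := xx t (Fin.last (M + 1)) z 0)
    (hG.b0 M (by omega)) (hG.b0 (M + 1) le_rfl) hD
  rw [hb] at h3
  rw [h3] at h1
  have e1 : Vk (xt 1 b) y (M + 1) (b (Fin.last (M + 1))).natAbs =
      Fk (xt 1 b) y (M + 1) ((b (Fin.last (M + 1))).natAbs - 1) := by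
    obtain ⟨m, hm⟩ : ∃ m, (b (Fin.last (M + 1))).natAbs = m + 1 :=
      ⟨(b (Fin.last (M + 1))).natAbs - 1, by omega⟩
    rw [hm, Vk_suc (by omega), Nat.add_sub_cancel]
  have e2 : WL b t z (Fin.last (M + 1)) = lW (t (Fin.last (M + 1))) (b (Fin.last (M + 1))) true false
      (xx t (Fin.last (M + 1)) z) := by
    unfold WL
    simp [hl0]
  have e3 : HgW b t z y (Fin.last M) = hgT (xt 1 b) y M (xx t (Fin.last (M + 1)) z 0)
      (DR b t z (Fin.last M)) := by
    unfold HgW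
    rw [e]
    rfl
  have e4 : HS (M + 1) (xt 1 b) y (M + 1) = ∑ l ∈ range ((b (Fin.last (M + 1))).natAbs - 2),
      (RL (layV (b (Fin.last (M + 1))) (St (xt 1 b) y (M + 1)).1 (Vk (xt 1 b) y (M + 1)) l) +
        RL (layV (b (Fin.last (M + 1))) (St (xt 1 b) y (M + 1)).1 (Vk (xt 1 b) y (M + 1)) (l + 1))) +
      RL (layV (b (Fin.last (M + 1))) (St (xt 1 b) y (M + 1)).1 (Vk (xt 1 b) y (M + 1))
        ((b (Fin.last (M + 1))).natAbs - 2)) := by
    unfold HS RKc nlN
    rw [if_pos (Or.inr rfl), if_pos (Or.inr rfl), hb]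
  rw [e1] at h1
  rw [e2, e3, e4, cK]
  exact h1

lemma reg_mid (j : Fin M) : Cq (WL b t z j.castSucc.succ - HgW b t z y j.castSucc + HgW b t z y j.succ)
    (-HS (M + 1) (xt 1 b) y (j + 1 : ℕ) - Real.pi ^ 2 * b j.castSucc.succ / 6) := by
  have hj0 : j.castSucc.succ ≠ 0 := Fin.succ_ne_zero _
  have hjl : j.castSucc.succ ≠ Fin.last (M + 1) := by
    rw [← Fin.castSucc_succ]
    exact Fin.castSucc_ne_last _
  have h := geo_LH ht hin hc hn j.castSucc.succ
  have e : xx t j.castSucc.succ z 0 = z (.inl (.inl j.castSucc)) := xx_left (M := M + 1) t j.castSucc z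
  have e' : xx t j.castSucc.succ z 2 = z (.inl (.inl j.succ)) := by
    rw [← Fin.castSucc_succ]
    exact xx_right (M := M + 1) t j.succ z
  have hb : xt 1 b (j + 1) = b j.castSucc.succ := xt_eq 1 b j.castSucc.succ
  have hV := hG.vf_mid hy (k := j + 1) (by omega) (by omega)
  have hU : xt (fun _ => 1) (gU b t z) (j + 1) = gU b t z j.castSucc.succ :=
    xt_eq _ _ j.castSucc.succ
  rw [hU, gU_eq, hb] at hV
  simp only [ne_eq, hj0, hjl, not_false_eq_true, decide_true] at h hV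
  have h1 := run_RL h hV
  have hD : DR b t z j.castSucc + ldT (t j.castSucc.succ) (b j.castSucc.succ) true true
      (xx t j.castSucc.succ z) 0 = 0 := by
    have := grT_hinge hc j.castSucc
    simpa only [DR, ne_eq, hjl, not_false_eq_true, decide_true] using this
  have h3 := hgT_left (b := xt 1 b) (y := y) (k := j) (w := xx t j.castSucc.succ z 0)
    (hG.b0 j (by omega)) (hG.b0 (j + 1) (by omega)) hD
  have h4 := hgT_right (b := xt 1 b) (y := y) (k := j + 1) (by omega) (hG.b0 (j + 1) (by omega))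
    (xx t j.castSucc.succ z 2) (ldT (t j.castSucc.succ) (b j.castSucc.succ) true true
      (xx t j.castSucc.succ z) 2)
  rw [hb] at h3 h4
  rw [h3, h4] at h1
  have e2 : WL b t z j.castSucc.succ = lW (t j.castSucc.succ) (b j.castSucc.succ) true true
      (xx t j.castSucc.succ z) := by
    unfold WL
    simp only [ne_eq, hj0, hjl, not_false_eq_true, decide_true]
  have e3 : HgW b t z y j.castSucc = hgT (xt 1 b) y j (xx t j.castSucc.succ z 0)
      (DR b t z j.castSucc) := by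
    unfold HgW
    rw [e]
    rfl
  have e5 : HgW b t z y j.succ = hgT (xt 1 b) y (j + 1) (xx t j.castSucc.succ z 2)
      (ldT (t j.castSucc.succ) (b j.castSucc.succ) true true (xx t j.castSucc.succ z) 2) := by
    unfold HgW DR
    rw [e']
    simp only [Fin.castSucc_succ, ne_eq, hj0, not_false_eq_true, decide_true, Fin.val_succ]
  have e4 : HS (M + 1) (xt 1 b) y (j + 1) = ∑ l ∈ range (b j.castSucc.succ).natAbs,
      (RL (layV (b j.castSucc.succ) (St (xt 1 b) y (j + 1)).1 (Vk (xt 1 b) y (j + 1)) l) +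
        RL (layV (b j.castSucc.succ) (St (xt 1 b) y (j + 1)).1 (Vk (xt 1 b) y (j + 1)) (l + 1))) := by
    unfold HS RKc nlN
    rw [if_neg (by omega), if_neg (by omega), hb, add_zero]
  rw [e2, e3, e5, e4, sub_eq_add_neg _ (hgT _ _ _ _ _)]
  exact h1

end

end

end Pool.Agent.Work.MP_b30479_gt.G2
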