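import Pool.Agent.Work.MP_b30479_gt.G2.CSWordB

/-!
# The complexified volume of a signed word, part C
-/

namespace Pool.Agent.Work.MP_b30479_gt.G2

open Finset VOL

section
variable {b : ℕ → ℤ} {y : ℂ}

lemma kap_dig : ∀ n k, (kapL (dig b k n) : ℤ) = -∑ i ∈ range (n + 1), b (k + i) +
    3 * (((range n).filter fun j => ¬ b (k + j) * b (k + j + 1) < 0).card : ℤ) := by
  intro n
  induction n with
  | zero =>
    intro k
    simp [dig_zero, kapL]
  | succ n ih =>
    intro k
    have h := ih (k + 1)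
    rw [dig_succ' b k n] at h
    rw [dig_succ, kapL, h, sum_range_succ' _ (n + 1), add_zero]
    have e1 : ∑ i ∈ range (n + 1), b (k + 1 + i) = ∑ i ∈ range (n + 1), b (k + (i + 1)) :=
      sum_congr rfl fun i _ => by rw [add_assoc, add_comm 1 i]
    have e2 : ((range (n + 1)).filter fun j => ¬ b (k + j) * b (k + j + 1) < 0).card =
        (if b k * b (k + 1) < 0 then 0 else 1) +
        ((range n).filter fun j => ¬ b (k + 1 + j) * b (k + 1 + j + 1) < 0).card := by
      rw [card_filter, card_filter, sum_range_succ', add_zero, add_comm]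
      congr 1
      · split_ifs <;> rfl
      · refine sum_congr rfl fun j _ => ?_
        rw [show k + (j + 1) = k + 1 + j by ring]
    rw [e1, e2]
    push_cast
    split_ifs <;> ring

lemma fpe_dig : ∀ n k, fpe (St b y k).1 (St b y k).2.1 (St b y k).2.2 (dig b k n) =
    ((St b y (k + n)).1, Fk b y (k + n) ((b (k + n)).natAbs - 1)) := by
  intro n
  induction n with
  | zero => intro k; rfl
  | succ n ih =>
    intro k
    have := ih (k + 1)
    rw [show k + 1 + n = k + (n + 1) by omega] at this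
    rw [← this]
    rfl

lemma lst_dig : ∀ n k, lst (dig b k n) = b (k + n) := by
  intro n
  induction n with
  | zero => intro k; rfl
  | succ n ih =>
    intro k
    have := ih (k + 1)
    rw [show k + 1 + n = k + (n + 1) by omega] at this
    rw [← this]
    rfl

end

section
variable {M : ℕ} {b : Fin (M + 2) → ℤ} {t : Fin (M + 2) → Typ}
  {z : DD (M := M + 1) t ⊕ ZZ (M := M + 1) t → ℂ} {y : ℂ}

/-- The complexified volume of a critical point. -/
theorem cvT_cvL (ht : GTyp b t)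
    (hin : ∀ k, 0 < ((wdat (M := M + 1) t b).form k z).re ∧ ((wdat (M := M + 1) t b).form k z).re < 1)
    (hc : ∀ i, (wdat (M := M + 1) t b).dT z i = 0) (hn : GNv b t z)
    (hG : GlueN (M + 1) (xt 1 b) (xt 1 (gY t z)) (xt (fun _ => 1) (gU b t z)))
    (hy : (1 - xt (fun _ => 1) (gU b t z) 0 1) * (1 - (xt (fun _ => 1) (gU b t z) 0 0)⁻¹) = y ^ 2)
    (hb0 : 0 < b 0) : Ci (cvT b t z) (cvL y (List.ofFn b)) := by
  obtain ⟨k0, h0⟩ := reg_first ht hin hc hn hG hy
  obtain ⟨k1, h1⟩ := reg_last ht hin hc hn hG hy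
  obtain ⟨k2, h2⟩ : Cq (∑ j : Fin M, (WL b t z j.castSucc.succ - HgW b t z y j.castSucc + HgW b t z y j.succ))
      (∑ j : Fin M, (-HS (M + 1) (xt 1 b) y (j + 1 : ℕ) - Real.pi ^ 2 * b j.castSucc.succ / 6)) :=
    Cq.sum fun j _ => reg_mid ht hin hc hn hG hy j
  obtain ⟨k3, h3⟩ := HS_sum hG hy
  have hW : ∑ i, WL b t z i = WL b t z 0 + (∑ j : Fin M, WL b t z j.castSucc.succ +
      WL b t z (Fin.last (M + 1))) := by
    rw [Fin.sum_univ_succ, Fin.sum_univ_castSucc]
    rfl
  have hH : HgW b t z y 0 + ∑ j : Fin M, HgW b t z y j.succ =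
      ∑ j : Fin M, HgW b t z y j.castSucc + HgW b t z y (Fin.last M) := by
    rw [← Fin.sum_univ_succ (fun j => HgW b t z y j), ← Fin.sum_univ_castSucc (fun j => HgW b t z y j)]
  have hB : ∑ i ∈ range (M + 1 + 1), (xt 1 b i : ℤ) = b 0 + (∑ j : Fin M, b j.castSucc.succ +
      b (Fin.last (M + 1))) := by
    rw [sum_range]
    rw [Fin.sum_univ_succ, Fin.sum_univ_castSucc]
    simp only [xt_eq]
    rfl
  have hS : ∑ k ∈ range (M + 1 + 1), HS (M + 1) (xt 1 b) y k = HS (M + 1) (xt 1 b) y 0 +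
      (∑ j : Fin M, HS (M + 1) (xt 1 b) y (j + 1 : ℕ) + HS (M + 1) (xt 1 b) y (M + 1 : ℕ)) := by
    rw [sum_range, Fin.sum_univ_succ, Fin.sum_univ_castSucc]
    rfl
  have hk := kap_dig (b := xt 1 b) (M + 1) 0
  have hf := fpe_dig (b := xt 1 b) (y := y) (M + 1) 0
  have hl := lst_dig (b := xt 1 b) (M + 1) 0
  have hbl : xt 1 b (M + 1) = b (Fin.last (M + 1)) := xt_eq 1 b (Fin.last (M + 1))
  simp only [zero_add] at hk hf hl
  rw [hbl] at hl hf
  rw [hB] at hk
  have hkc := congrArg (fun n : ℤ => (n : ℂ)) hk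
  push_cast at hkc
  rw [sum_add_distrib, sum_sub_distrib, sum_sub_distrib, sum_neg_distrib, ← sum_div, ← mul_sum] at h2
  rw [hS] at h3
  rw [cvT_eq, hW]
  have hc0 : cend (b 0) (y, Complex.I * y) = (Complex.log (Complex.I * y) - Complex.log y) *
      Complex.log (y ^ 2) := by
    unfold cend
    rw [if_pos hb0]
  rw [hc0, cK, if_pos hb0] at h0
  unfold cvL
  rw [ofFn_dig]
  have e1 : fpe y 0 (Complex.I * y) (dig (xt 1 b) 0 (M + 1)) = _ := hf
  have e2 : rsum (Lys 2 y 0 (Complex.I * y) (dig (xt 1 b) 0 (M + 1))) = rsum (LS' (xt 1 b) y 2 0 (M + 1)) := rfl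
  rw [e1, e2, hl, hkc]
  unfold cK at h1
  set ns : ℂ := (((range (M + 1)).filter fun j => ¬ xt 1 b j * xt 1 b (j + 1) < 0).card : ℂ) with hns
  refine ⟨k0 + k1 + k2 - k3 - (((range (M + 1)).filter fun j => ¬ xt 1 b j * xt 1 b (j + 1) < 0).card : ℤ), ?_⟩
  push_cast
  rw [← hns]
  linear_combination Complex.I * (h0 + h1 + h2 - h3 - hH)

end

end Pool.Agent.Work.MP_b30479_gt.G2
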