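import Pool.Agent.Work.MP_b30479_gt.G2.CDefs
import Mathlib.MeasureTheory.Integral.Prod

/-!
# Measurability of the interpolating functions
-/

namespace Pool.Agent.Work.MP_b30479_gt.G2

open Finset VOL MeasureTheory Complex

theorem meas_ph : Measurable ph := by
  unfold ph
  exact Complex.measurable_log.comp (by fun_prop)

theorem meas_Fh : Measurable Fh := by
  have h1 : StronglyMeasurable fun p : ℂ × ℝ => ph (1 / 2 + (p.2 : ℂ) * (p.1 - 1 / 2)) :=
    (meas_ph.comp (by fun_prop)).stronglyMeasurable
  have h2 : StronglyMeasurable fun w : ℂ => ∫ t in Set.Ioc (0 : ℝ) 1,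
      ph (1 / 2 + (t : ℂ) * (w - 1 / 2)) := h1.integral_prod_right'
  have h3 : Fh = fun w => (w - 1 / 2) * ∫ t in Set.Ioc (0 : ℝ) 1,
      ph (1 / 2 + (t : ℂ) * (w - 1 / 2)) := by
    funext w
    unfold Fh
    rw [intervalIntegral.integral_of_le zero_le_one]
  rw [h3]
  exact (by fun_prop : Measurable fun w : ℂ => w - 1 / 2).mul h2.measurable

theorem meas_J (n : ℝ) : Measurable (J n) := by
  have hk : Measurable (kap n) := by
    unfold kap
    fun_prop
  have h1 : StronglyMeasurable fun p : ℂ × ℝ =>
      (ph (p.1 + (p.2 : ℂ) * I) - ph (p.1 - (p.2 : ℂ) * I)) * (kap n p.2 : ℂ) := by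
    refine Measurable.stronglyMeasurable ?_
    refine Measurable.mul ?_ ?_
    · exact (meas_ph.comp (by fun_prop)).sub (meas_ph.comp (by fun_prop))
    · exact Complex.measurable_ofReal.comp (hk.comp measurable_snd)
  have h2 : StronglyMeasurable fun w : ℂ => ∫ y in Set.Ioi (0 : ℝ),
      (ph (w + (y : ℂ) * I) - ph (w - (y : ℂ) * I)) * (kap n y : ℂ) := h1.integral_prod_right'
  unfold J
  exact h2.measurable.const_mul _

theorem meas_M (n : ℝ) : Measurable (M n) := by
  unfold M
  exact (meas_Fh.const_mul _).add (meas_J n)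

theorem meas_Qn (n : ℕ) : Measurable (Qn n) := by
  unfold Qn
  exact ((meas_M n).comp (by fun_prop)).cexp.const_mul _

theorem meas_P1 (n : ℕ) : Measurable (P1 n) := by
  unfold P1
  refine Measurable.ite (measurableSet_le Complex.measurable_re measurable_const) ?_ ?_
  · exact ((meas_Qn n).comp (by fun_prop)).div (by fun_prop)
  · exact ((meas_Qn n).comp (by fun_prop)).mul (by fun_prop)

theorem measurable_Pn (n : ℕ) : Measurable (Pn n) := by
  unfold Pn
  refine Measurable.ite (measurableSet_le Complex.measurable_re measurable_const) (meas_P1 n) ?_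
  exact Measurable.mul (by fun_prop) ((meas_P1 n).comp (by fun_prop))

theorem measurable_Rn (n : ℕ) : Measurable (Rn n) := by
  unfold Rn
  exact ((measurable_Pn n).comp (by fun_prop)).div_const _

theorem measurable_SE (n : ℕ) : Measurable (SE n) := by
  have h : Measurable fun u : ℂ => u - 1 / (2 * (n : ℂ)) := by fun_prop
  have h2 := ((measurable_Pn n).comp h).div_const ((√(n : ℝ) : ℝ) : ℂ)
  exact h2

end Pool.Agent.Work.MP_b30479_gt.G2
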