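import Pool.Agent.Work.MP_b30479_gt.G2.C5Defs
import Pool.Agent.Work.MP_b30479_gt.G2.SEf
import Pool.Agent.Work.MP_b30479_gt.G2.PnMeas
import Pool.Agent.Work.MP_b30479_gt.LT.CoreG

/-!
# Holomorphy, measurability and zeros of the integrand
-/

namespace Pool.Agent.Work.MP_b30479_gt.G2

open Finset VOL MeasureTheory Filter Topology

variable {D Z K : Type} [Fintype D] [Fintype Z] [Fintype K] [DecidableEq D]

omit [Fintype K] [DecidableEq D] in
theorem Dat.form_re (S : Dat D Z K) (k : K) (z : D ⊕ Z → ℂ) :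
    (S.form k z).re = S.a k + ∑ i, (S.A k i : ℝ) * (z i).re := by
  unfold Dat.form
  rw [Complex.add_re, Complex.ofReal_re, Complex.re_sum]
  congr 1
  refine Finset.sum_congr rfl fun i _ => ?_
  rw [← Complex.ofReal_intCast, Complex.re_ofReal_mul]

omit [Fintype K] [DecidableEq D] in
theorem Dat.form_im (S : Dat D Z K) (k : K) (z : D ⊕ Z → ℂ) :
    (S.form k z).im = ∑ i, (S.A k i : ℝ) * (z i).im := by
  unfold Dat.form
  rw [Complex.add_im, Complex.ofReal_im, Complex.im_sum, zero_add]
  refine Finset.sum_congr rfl fun i _ => ?_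
  rw [← Complex.ofReal_intCast, Complex.im_ofReal_mul]

omit [Fintype K] [DecidableEq D] in
theorem Dat.differentiable_form (S : Dat D Z K) (k : K) : Differentiable ℂ (S.form k) := by
  unfold Dat.form
  fun_prop

omit [Fintype K] [DecidableEq D] in
theorem Dat.differentiable_quad (S : Dat D Z K) : Differentiable ℂ S.quad := by
  unfold Dat.quad
  fun_prop

omit [Fintype K] [DecidableEq D] in
theorem Dat.measurable_form (S : Dat D Z K) (k : K) : Measurable (S.form k) :=
  (S.differentiable_form k).continuous.measurable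

omit [Fintype D] [Fintype Z] [DecidableEq D] [Fintype K] in
theorem differentiableAt_prod {E : Type*} [NormedAddCommGroup E] [NormedSpace ℂ E] (t : Finset K)
    {f : K → E → ℂ} {z : E} (h : ∀ k, DifferentiableAt ℂ (f k) z) :
    DifferentiableAt ℂ (fun z => ∏ k ∈ t, f k z) z := by
  classical
  induction t using Finset.induction_on with
  | empty => simp
  | insert a t ha ih =>
    simp only [Finset.prod_insert ha]
    exact (h a).mul ih

theorem Dat.differentiableAt_G (S : Dat D Z K) {n : ℕ} (hn : 4 ≤ n) {z : D ⊕ Z → ℂ}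
    (hz : ∀ k, 0 < (S.form k z).re + S.c k / n ∧ (S.form k z).re + S.c k / n < 2) :
    DifferentiableAt ℂ (S.G n) z := by
  unfold Dat.G
  have hq := S.differentiable_quad
  refine DifferentiableAt.mul ?_ ?_
  · have h1 : DifferentiableAt ℂ (fun z : D ⊕ Z → ℂ => (n : ℂ) * S.quad z + ∑ i, S.e i * z i) z := by
      have := hq z
      fun_prop
    exact h1.cexp
  · refine differentiableAt_prod _ fun k => ?_
    have h2 : DifferentiableAt ℂ (fun z : D ⊕ Z → ℂ => S.form k z + ((S.c k / n : ℝ) : ℂ)) z :=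
      (S.differentiable_form k z).add_const _
    have h3 := differentiableAt_SE hn (u := S.form k z + ((S.c k / n : ℝ) : ℂ))
      (by rw [Complex.add_re, Complex.ofReal_re]; exact (hz k).1)
      (by rw [Complex.add_re, Complex.ofReal_re]; exact (hz k).2)
    exact h3.comp z h2

/-- a point with frozen discrete coordinates -/
noncomputable def mk (p : D → Prop) [DecidablePred p] (y : D → ℂ) (ζ : Z → ℂ)
    (w : {i // p i} → ℂ) : D ⊕ Z → ℂ :=
  Sum.elim (fun i => if h : p i then w ⟨i, h⟩ else y i) ζ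

omit [Fintype D] [Fintype Z] [DecidableEq D] in
theorem mk_inl_pos {p : D → Prop} [DecidablePred p] {y : D → ℂ} {ζ : Z → ℂ}
    {w : {i // p i} → ℂ} {i : D} (h : p i) : mk p y ζ w (.inl i) = w ⟨i, h⟩ := by
  simp [mk, h]

omit [Fintype D] [Fintype Z] [DecidableEq D] in
theorem mk_inl_neg {p : D → Prop} [DecidablePred p] {y : D → ℂ} {ζ : Z → ℂ}
    {w : {i // p i} → ℂ} {i : D} (h : ¬ p i) : mk p y ζ w (.inl i) = y i := by
  simp [mk, h]

omit [Fintype D] [Fintype Z] [DecidableEq D] in
theorem mk_inr {p : D → Prop} [DecidablePred p] {y : D → ℂ} {ζ : Z → ℂ}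
    {w : {i // p i} → ℂ} {v : Z} : mk p y ζ w (.inr v) = ζ v := rfl

omit [DecidableEq D] in
theorem differentiable_mk (p : D → Prop) [DecidablePred p] (y : D → ℂ) (ζ : Z → ℂ) :
    Differentiable ℂ (mk p y ζ) := by
  classical
  refine differentiable_pi.mpr fun i => ?_
  rcases i with i | v
  · by_cases h : p i
    · have : (fun w : {i // p i} → ℂ => mk p y ζ w (.inl i)) = fun w => w ⟨i, h⟩ := by
        funext w
        exact mk_inl_pos h
      rw [this]
      fun_prop
    · have : (fun w : {i // p i} → ℂ => mk p y ζ w (.inl i)) = fun _ => y i := by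
        funext w
        exact mk_inl_neg h
      rw [this]
      fun_prop
  · exact differentiable_const _

/-- The integrand is holomorphic on a product of open strips. -/
theorem G_holo {S : Dat D Z K} (hS : S.Ok) {n : ℕ} (hn : 4 ≤ n) (p : D → Prop) [DecidablePred p]
    {y : D → ℂ} {ζ : Z → ℂ} (hy : ∀ i, ¬ p i → 0 ≤ (y i).re ∧ (y i).re ≤ 1 - 1 / n)
    (hζ : ∀ v, |(ζ v).re| < 1 / 2) : ∃ ε : ℝ, 0 < ε ∧
      DifferentiableOn ℂ (fun w => S.G n (mk p y ζ w))
        (Set.univ.pi fun _ => {u : ℂ | -ε < u.re ∧ u.re < 1 - 1 / n + ε}) := by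
  classical
  obtain ⟨a1, a2, a3⟩ := half_n hn
  have hn1 : 0 ≤ 1 - 1 / (n : ℝ) := by linarith only [a1, a3]
  -- real parts
  set f : K → ({i // p i} → ℝ) → ℝ := fun k x =>
    (S.form k (mk p y ζ fun i => (x i : ℂ))).re + S.c k / n with hf
  have hfc : ∀ k, Continuous (f k) := by
    intro k
    have h1 : Continuous fun x : {i // p i} → ℝ => mk p y ζ fun i => (x i : ℂ) :=
      (differentiable_mk p y ζ).continuous.comp (by fun_prop)
    have h2 := (S.differentiable_form k).continuous.comp h1
    exact (Complex.continuous_re.comp h2).add continuous_const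
  set C : Set ({i // p i} → ℝ) := Set.univ.pi fun _ => Set.Icc 0 (1 - 1 / (n : ℝ)) with hC
  have hCc : IsCompact C := isCompact_univ_pi fun _ => isCompact_Icc
  have hCn : C.Nonempty := ⟨fun _ => 0, fun _ _ => ⟨le_rfl, hn1⟩⟩
  have hbox : ∀ x ∈ C, ∀ k, 0 < f k x ∧ f k x < 2 := by
    intro x hx k
    refine hS.range n (by omega) _ (fun i => ?_) (fun v => ?_) k
    · by_cases h : p i
      · rw [mk_inl_pos h, Complex.ofReal_re]
        exact hx _ (Set.mem_univ _)
      · rw [mk_inl_neg h]
        exact hy i h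
    · rw [mk_inr]
      exact hζ v
  have hm : ∀ k, ∃ m : ℝ, 0 < m ∧ ∀ x ∈ C, m ≤ f k x ∧ m ≤ 2 - f k x := by
    intro k
    obtain ⟨x0, hx0, h0⟩ := hCc.exists_isMinOn hCn
      (f := fun x => min (f k x) (2 - f k x)) (by
        have := hfc k
        fun_prop)
    refine ⟨min (f k x0) (2 - f k x0), ?_, fun x hx => ?_⟩
    · have := hbox x0 hx0 k
      exact lt_min this.1 (by linarith only [this, this.2])
    · have h1 := h0 hx
      rw [Set.mem_setOf_eq] at h1
      exact ⟨h1.trans (min_le_left _ _), h1.trans (min_le_right _ _)⟩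
  choose m hm0 hm1 using hm
  set B : ℝ := ∑ k, ∑ i, |(S.A k i : ℝ)| + 1 with hB
  have hB0 : 0 < B := by positivity
  obtain ⟨μ, hμ0, hμ⟩ : ∃ μ : ℝ, 0 < μ ∧ ∀ k, μ ≤ m k := by
    by_cases hK : Nonempty K
    · obtain ⟨k1, hk1⟩ := Finite.exists_min m
      exact ⟨m k1, hm0 k1, hk1⟩
    · rw [not_nonempty_iff] at hK
      exact ⟨1, one_pos, fun k => (IsEmpty.false k).elim⟩
  refine ⟨μ / (2 * B), by positivity, fun w hw => ?_⟩
  have hkey : ∀ k, 0 < (S.form k (mk p y ζ w)).re + S.c k / n ∧
      (S.form k (mk p y ζ w)).re + S.c k / n < 2 := by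
    intro k
    -- clip
    set x : {i // p i} → ℝ := fun i => max 0 (min (w i).re (1 - 1 / n)) with hx
    have hxC : x ∈ C := by
      intro i _
      exact ⟨le_max_left _ _, max_le hn1 (min_le_right _ _)⟩
    have hdist : ∀ i, |(w i).re - x i| ≤ μ / (2 * B) := by
      intro i
      have h1 := hw i (Set.mem_univ i)
      rw [Set.mem_setOf_eq] at h1
      have h2 : 0 < μ / (2 * B) := by positivity
      rw [abs_le]
      simp only [hx]
      rcases le_total (w i).re (1 - 1 / n) with h3 | h3
      · rw [min_eq_left h3]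
        rcases le_total 0 (w i).re with h4 | h4
        · rw [max_eq_right h4]
          constructor <;> linarith only [h2]
        · rw [max_eq_left h4]
          constructor <;> linarith only [h1, h2, h4, h1.1]
      · rw [min_eq_right h3, max_eq_right hn1]
        constructor <;> linarith only [h2, h3, h1, h1.2]
    have h5 : |(S.form k (mk p y ζ w)).re - (S.form k (mk p y ζ fun i => (x i : ℂ))).re| ≤
        μ / 2 := by
      rw [S.form_re, S.form_re]
      have e : S.a k + ∑ i, (S.A k i : ℝ) * (mk p y ζ w i).re -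
          (S.a k + ∑ i, (S.A k i : ℝ) * (mk p y ζ (fun i => (x i : ℂ)) i).re) =
          ∑ i, (S.A k i : ℝ) * ((mk p y ζ w i).re - (mk p y ζ (fun i => (x i : ℂ)) i).re) := by
        simp_rw [mul_sub]
        rw [Finset.sum_sub_distrib]
        ring
      rw [e]
      refine (Finset.abs_sum_le_sum_abs _ _).trans ?_
      have h6 : ∀ i, |(mk p y ζ w i).re - (mk p y ζ (fun i => (x i : ℂ)) i).re| ≤
          μ / (2 * B) := by
        intro i
        have h2 : 0 < μ / (2 * B) := by positivity
        rcases i with i | v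
        · by_cases h : p i
          · rw [mk_inl_pos h, mk_inl_pos h, Complex.ofReal_re]
            exact hdist _
          · rw [mk_inl_neg h, mk_inl_neg h, sub_self, abs_zero]
            exact h2.le
        · rw [mk_inr, mk_inr, sub_self, abs_zero]
          exact h2.le
      calc ∑ i, |(S.A k i : ℝ) * ((mk p y ζ w i).re - (mk p y ζ (fun i => (x i : ℂ)) i).re)| ≤
            ∑ i, |(S.A k i : ℝ)| * (μ / (2 * B)) := by
            refine Finset.sum_le_sum fun i _ => ?_
            rw [abs_mul]
            exact mul_le_mul_of_nonneg_left (h6 i) (abs_nonneg _)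
        _ = (∑ i, |(S.A k i : ℝ)|) * (μ / (2 * B)) := by rw [Finset.sum_mul]
        _ ≤ B * (μ / (2 * B)) := by
            refine mul_le_mul_of_nonneg_right ?_ (by positivity)
            have := Finset.single_le_sum (f := fun k => ∑ i, |(S.A k i : ℝ)|)
              (fun k _ => Finset.sum_nonneg fun i _ => abs_nonneg _) (Finset.mem_univ k)
            linarith only [a1, a3, this]
        _ = μ / 2 := by field_simp
    have h7 := hm1 k x hxC
    simp only [hf] at h7
    have h8 := hμ k
    rw [abs_le] at h5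
    constructor
    · linarith only [hμ0, h5, h7, h8, h7.1, h5.1]
    · linarith only [hμ0, h5, h7, h8, h7.2, h5.2]
  exact ((S.differentiableAt_G hn hkey).comp w (differentiable_mk p y ζ w)).differentiableWithinAt

/-- Zeros beyond the walls. -/
theorem G_wall {S : Dat D Z K} (hS : S.Ok) {n : ℕ} (hn : 4 ≤ n) {z : D ⊕ Z → ℂ}
    (hz : InBox n z) {k : K} (hk : ∀ v, S.A k (.inr v) = 0)
    (hy : ∀ i, S.A k (.inl i) ≠ 0 → ∃ y : ℕ, z (.inl i) = (y : ℂ) / n)
    (h1 : 1 < (S.form k z).re) : S.G n z = 0 := by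
  have hn0 : (0 : ℝ) < n := by
    have : 0 < n := by omega
    exact_mod_cast this
  have hnc : (n : ℂ) ≠ 0 := by exact_mod_cast hn0.ne'
  obtain ⟨⟨a, ha⟩, hc⟩ := hS.half k hk
  -- the form is an integer over `n`
  have hN : ∃ N : ℤ, S.form k z = (N : ℂ) / n := by
    choose! y hy' using hy
    refine ⟨a * n + ∑ i, S.A k (.inl i) * (y i : ℤ), ?_⟩
    unfold Dat.form
    rw [Fintype.sum_sum_type, ha]
    simp only [hk, Int.cast_zero, zero_mul, Finset.sum_const_zero, add_zero]
    push_cast
    rw [add_div, mul_div_assoc, div_self hnc, mul_one, Finset.sum_div]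
    congr 1
    refine Finset.sum_congr rfl fun i _ => ?_
    by_cases h : S.A k (.inl i) = 0
    · rw [h]
      simp
    · rw [hy' i h]
      ring
  obtain ⟨N, hN⟩ := hN
  have hre : (S.form k z).re = N / n := by
    have : (N : ℂ) / n = ((N / n : ℝ) : ℂ) := by push_cast; rfl
    rw [hN, this, Complex.ofReal_re]
  have hNn : (n : ℤ) < N := by
    rw [hre, lt_div_iff₀ hn0, one_mul] at h1
    exact_mod_cast h1
  have hr := hS.range n (by omega) z (fun i => ⟨hz.d0 i, hz.d1 i⟩) hz.c k
  rw [hre, ← add_div] at hr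
  have hr2 : (N : ℝ) + S.c k < 2 * n := by
    rw [← div_lt_iff₀ hn0]
    exact hr.2
  have hzero : SE n (S.form k z + ((S.c k / n : ℝ) : ℂ)) = 0 := by
    rcases hc with hc | hc
    · obtain ⟨m, rfl⟩ : ∃ m : ℕ, N = m := ⟨N.toNat, by omega⟩
      have hm2 : m < 2 * n := by
        rw [hc] at hr2
        have : (m : ℝ) < 2 * n := by
          have : (((m : ℕ) : ℤ) : ℝ) = (m : ℝ) := by norm_cast
          linarith only [hr2, this]
        exact_mod_cast this
      have h2 := SE_zero hn (k := m) (by omega) hm2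
      rw [hN, hc]
      have e : ((m : ℤ) : ℂ) / n + ((1 / 2 / n : ℝ) : ℂ) = ((m : ℂ) + 1 / 2) / n := by
        push_cast
        ring
      rw [e, h2]
    · obtain ⟨m, hm⟩ : ∃ m : ℕ, N = m + 1 := ⟨(N - 1).toNat, by omega⟩
      have hm2 : m < 2 * n := by
        rw [hc, hm] at hr2
        have : (m : ℝ) < 2 * n := by
          push_cast at hr2
          linarith only [hr2]
        exact_mod_cast this
      have h2 := SE_zero hn (k := m) (by omega) hm2
      rw [hN, hc, hm]
      have e : (((m : ℤ) + 1 : ℤ) : ℂ) / n + ((-(1 / 2) / n : ℝ) : ℂ) = ((m : ℂ) + 1 / 2) / n := by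
        push_cast
        ring
      rw [e, h2]
  unfold Dat.G
  rw [Finset.prod_eq_zero (Finset.mem_univ k) hzero, mul_zero]

/-! ### measurability -/

theorem Dat.measurable_G (S : Dat D Z K) (n : ℕ) : Measurable (S.G n) := by
  unfold Dat.G
  refine Measurable.mul ?_ ?_
  · have h1 : Continuous fun z : D ⊕ Z → ℂ => Complex.exp ((n : ℂ) * S.quad z + ∑ i, S.e i * z i) := by
      have := S.differentiable_quad.continuous
      fun_prop
    exact h1.measurable
  · refine Finset.measurable_prod _ fun k _ => ?_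
    exact (measurable_SE n).comp ((S.measurable_form k).add_const _)

theorem contTrH (a b c c' : ℝ) : Continuous (tr a b c c') := by
  unfold tr
  fun_prop

theorem contPtH (a b c c' h : ℝ) : Continuous (pt a b c c' h) := by
  have := contTrH a b c c'
  unfold pt
  fun_prop

theorem measurable_om (P : Par D) (n : ℕ) (t : ℝ) (i : D) : Measurable (P.om n t i) := by
  have h := measurable_deriv (tr (ea n) (P.eb n i) (P.cl i) (P.cr i))
  unfold Par.om
  fun_prop

theorem measurable_EE (n : ℕ) (b : ℤ) (ρ : ℝ) : Measurable (LT.EE n b ρ) := by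
  have h1 : LT.EE n b ρ = fun σ => LT.Ec n b (LT.zt ρ σ) * LT.dzt ρ σ := by
    funext σ
    exact LT.EE_eq n b ρ σ
  rw [h1]
  exact ((LT.measurable_Ec n b).comp (LT.continuous_zt ρ).measurable).mul (LT.measurable_dzt ρ)

theorem measurable_pz (P : Par D) (zs : D ⊕ Z → ℂ) (n : ℕ) :
    Measurable fun q : (D → ℝ) × (Z → ℝ) => P.pz zs n q.1 q.2 := by
  refine measurable_pi_lambda _ fun i => ?_
  rcases i with i | v
  · have h1 : Measurable fun q : (D → ℝ) × (Z → ℝ) => q.1 i :=
      (measurable_pi_apply i).comp measurable_fst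
    exact (contPtH _ _ _ _ _).measurable.comp h1
  · have h1 : Measurable fun q : (D → ℝ) × (Z → ℝ) => q.2 v :=
      (measurable_pi_apply v).comp measurable_snd
    exact (LT.continuous_zt _).measurable.comp h1

theorem Dat.measurable_F (S : Dat D Z K) (P : Par D) (zs : D ⊕ Z → ℂ) (n : ℕ) :
    Measurable fun q : (D → ℝ) × (Z → ℝ) => S.F P zs n q.1 q.2 := by
  unfold Dat.F
  refine Measurable.mul (Measurable.mul ?_ ?_) ?_
  · refine Finset.measurable_prod _ fun i _ => ?_
    exact (measurable_om P n _ i).comp ((measurable_pi_apply i).comp measurable_fst)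
  · refine Finset.measurable_prod _ fun v _ => ?_
    exact (measurable_EE n (S.b v) _).comp ((measurable_pi_apply v).comp measurable_snd)
  · exact (S.measurable_G n).comp (measurable_pz P zs n)

omit [Fintype D] [DecidableEq D] in
/-- almost all points of the cube are interior -/
theorem ae_cube_lt : ∀ᵐ σ ∂(volume.restrict (LT.cube Z)), ∀ v, |σ v| < 1 / 2 := by
  have h1 : (Set.univ.pi fun _ : Z => Set.Ioo (-(1 / 2) : ℝ) (1 / 2)) =ᵐ[volume] LT.cube Z := by
    unfold LT.cube
    have h2 := Measure.univ_pi_Ioo_ae_eq_Icc (μ := fun _ : Z => (volume : Measure ℝ))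
      (f := fun _ => -(1 / 2)) (g := fun _ => 1 / 2)
    rw [← Set.pi_univ_Icc] at h2
    exact h2
  rw [← Measure.restrict_congr_set h1]
  refine (ae_restrict_iff' (MeasurableSet.univ_pi fun _ => measurableSet_Ioo)).mpr ?_
  refine Eventually.of_forall fun σ hσ v => ?_
  exact abs_lt.mpr (hσ v (Set.mem_univ v))

end Pool.Agent.Work.MP_b30479_gt.G2
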