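import Mathlib

/-!
# Sums over lattice points and integrals over products of paths

`itS n N G` is the sum of `G` over the points `(y_0/n, ..., y_{N-1}/n)`, `0 ≤ y_j < n`, and
`itR N P F` is an iterated integral over a product of weighted paths.  If in every single coordinate
the sum is equal to the path integral up to an error that is controlled by the values of the
(holomorphic) function on an error set, then the same is true for the multiple sum (`tensor`).
-/

namespace Pool.Agent.Work.MP_b30479_gt.G2

open Finset MeasureTheory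

/-- the sum over the lattice points -/
noncomputable def itS (n : ℕ) : (N : ℕ) → ((Fin N → ℂ) → ℂ) → ℂ
  | 0, G => G Fin.elim0
  | N + 1, G => ∑ y ∈ range n, itS n N (fun v => G (Fin.cons ((y : ℂ) / n) v))

/-- a path `x ↦ γ x`, `a ≤ x ≤ b`, with a weight `ω` -/
structure PathW where
  a : ℝ
  b : ℝ
  hab : a ≤ b
  γ : ℝ → ℂ
  ω : ℝ → ℂ
  cont : Continuous γ
  int : IntervalIntegrable ω volume a b

/-- the iterated integral -/
noncomputable def itR : (N : ℕ) → (Fin N → PathW) → ((Fin N → ℝ) → ℂ) → ℂ
  | 0, _, F => F Fin.elim0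
  | N + 1, P, F => ∫ x in (P 0).a..(P 0).b,
      itR N (Fin.tail P) (fun t => F (Fin.cons x t)) * (P 0).ω x

/-- the point on the product of the paths -/
def pos {N : ℕ} (P : Fin N → PathW) (x : Fin N → ℝ) : Fin N → ℂ := fun j => (P j).γ (x j)

/-- the parameter box -/
def bx {N : ℕ} (P : Fin N → PathW) : Set (Fin N → ℝ) :=
  Set.univ.pi fun j => Set.Icc (P j).a (P j).b

/-- the lattice points of one coordinate -/
def pts (n : ℕ) : Set ℂ := {w | ∃ y < n, w = (y : ℂ) / n}

/-- separate holomorphy of `G` in the coordinate `j` when the other coordinates are in `R` -/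
def Sep {N : ℕ} (R U : Fin N → Set ℂ) (G : (Fin N → ℂ) → ℂ) : Prop :=
  ∀ v : Fin N → ℂ, (∀ i, v i ∈ R i) → ∀ j,
    DifferentiableOn ℂ (fun w => G (Function.update v j w)) (U j)

/-- the sum over one coordinate is bounded by the values on `S` with the penalty `p` -/
def Bound1 (n : ℕ) (K : ℝ) (U S : Set ℂ) (p : ℂ → ℝ) : Prop :=
  ∀ g : ℂ → ℂ, DifferentiableOn ℂ g U → ∀ B, 0 ≤ B → (∀ w ∈ S, p w * ‖g w‖ ≤ B) →
    ‖∑ y ∈ range n, g ((y : ℂ) / n)‖ ≤ K * B

/-- the sum over one coordinate is the path integral up to the values on `E` with penalty `q` -/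
def Main1 (n : ℕ) (K : ℝ) (U : Set ℂ) (P : PathW) (E : Set ℂ) (q : ℂ → ℝ) : Prop :=
  ∀ g : ℂ → ℂ, DifferentiableOn ℂ g U → ∀ B, 0 ≤ B → (∀ w ∈ E, q w * ‖g w‖ ≤ B) →
    ‖∑ y ∈ range n, g ((y : ℂ) / n) - ∫ x in P.a..P.b, g (P.γ x) * P.ω x‖ ≤ K * B

theorem itS_diff (n : ℕ) {U : Set ℂ} : ∀ (N : ℕ) (H : ℂ → (Fin N → ℂ) → ℂ),
    (∀ v : Fin N → ℂ, (∀ i, v i ∈ pts n) → DifferentiableOn ℂ (fun w => H w v) U) →
    DifferentiableOn ℂ (fun w => itS n N (H w)) U
  | 0, H, h => by simpa [itS] using h Fin.elim0 (fun i => i.elim0)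
  | N + 1, H, h => by
      simp only [itS]
      apply DifferentiableOn.fun_sum
      intro y hy
      apply itS_diff n N (fun w v => H w (Fin.cons ((y : ℂ) / n) v))
      intro v hv
      apply h
      intro i
      refine Fin.cases ?_ ?_ i
      · exact ⟨y, mem_range.mp hy, by simp⟩
      · intro i
        simpa using hv i

theorem itS_smul (n : ℕ) (c : ℂ) : ∀ (N : ℕ) (G : (Fin N → ℂ) → ℂ),
    itS n N (fun v => c * G v) = c * itS n N G
  | 0, G => rfl
  | N + 1, G => by
      simp only [itS]
      rw [mul_sum]
      apply sum_congr rfl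
      intro y _
      exact itS_smul n c N _

theorem Sep.cons {N : ℕ} {R U : Fin (N + 1) → Set ℂ} {G : (Fin (N + 1) → ℂ) → ℂ} (h : Sep R U G)
    {w : ℂ} (hw : w ∈ R 0) : Sep (Fin.tail R) (Fin.tail U) (fun v => G (Fin.cons w v)) := by
  intro v hv j
  have h1 := h (Fin.cons w v) (fun i => by
    refine Fin.cases ?_ ?_ i
    · simpa using hw
    · intro i
      rw [Fin.cons_succ]
      exact hv i) j.succ
  have h2 : (fun u => G (Function.update (Fin.cons w v) j.succ u)) =
      fun u => G (Fin.cons w (Function.update v j u)) := by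
    funext u
    rw [Fin.cons_update]
  rw [h2] at h1
  exact h1

theorem Sep.head {N : ℕ} {R U : Fin (N + 1) → Set ℂ} {G : (Fin (N + 1) → ℂ) → ℂ} (h : Sep R U G)
    {x : ℂ} (hx : x ∈ R 0) {v : Fin N → ℂ} (hv : ∀ i, v i ∈ R i.succ) :
    DifferentiableOn ℂ (fun w => G (Fin.cons w v)) (U 0) := by
  have h1 := h (Fin.cons x v) (fun i => by
    refine Fin.cases ?_ ?_ i
    · simpa using hx
    · intro i
      simpa using hv i) 0
  have h2 : (fun u => G (Function.update (Fin.cons x v : Fin (N + 1) → ℂ) 0 u)) =
      fun u => G (Fin.cons u v) := by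
    funext u
    rw [Fin.update_cons_zero]
  rw [h2] at h1
  exact h1

/-- the multiple sum is bounded by the values on the product of the sets -/
theorem itS_bound {n : ℕ} (hn : 0 < n) {K : ℝ} (hK : 0 ≤ K) : ∀ (N : ℕ)
    (S : Fin N → (Fin N → ℂ) → Set ℂ) (p : Fin N → (Fin N → ℂ) → ℂ → ℝ)
    (_ : ∀ j v v', (∀ i < j, v i = v' i) → S j v = S j v')
    (_ : ∀ j v v', (∀ i < j, v i = v' i) → p j v = p j v')
    (_ : ∀ j v, ∀ w ∈ S j v, 0 ≤ p j v w)
    (R U : Fin N → Set ℂ) (_ : ∀ j v, S j v ⊆ R j) (_ : ∀ j, pts n ⊆ R j)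
    (_ : ∀ j v, Bound1 n K (U j) (S j v) (p j v))
    (G : (Fin N → ℂ) → ℂ) (_ : Sep R U G) (c B : ℝ) (_ : 0 ≤ c) (_ : 0 ≤ B)
    (_ : ∀ v, (∀ j, v j ∈ S j v) → c * (∏ j, p j v (v j)) * ‖G v‖ ≤ B),
    c * ‖itS n N G‖ ≤ K ^ N * B
  | 0, S, p, _, _, _, R, U, _, _, _, G, _, c, B, _, _, hB => by
      have := hB Fin.elim0 (fun i => i.elim0)
      simpa [itS] using this
  | N + 1, S, p, hS, hp, hp0, R, U, hSR, hpt, h1, G, hG, c, B, hc, hB0, hB => by
      set v0 : Fin (N + 1) → ℂ := fun _ => 0 with hv0
      have e0 : ∀ v, S 0 v = S 0 v0 := fun v => hS 0 v v0 (fun i hi => absurd hi (Fin.not_lt_zero i))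
      have e0' : ∀ v, p 0 v = p 0 v0 := fun v =>
        hp 0 v v0 (fun i hi => absurd hi (Fin.not_lt_zero i))
      have hpt0 : ((0 : ℕ) : ℂ) / n ∈ R 0 := hpt 0 ⟨0, hn, rfl⟩
      have hd : DifferentiableOn ℂ (fun w => itS n N (fun v => G (Fin.cons w v))) (U 0) := by
        apply itS_diff
        intro v hv
        exact hG.head hpt0 (fun i => hpt _ (hv i))
      have hd' : DifferentiableOn ℂ (fun w => (c : ℂ) * itS n N (fun v => G (Fin.cons w v))) (U 0) :=
        hd.const_mul _
      have h2 := h1 0 v0 _ hd' (K ^ N * B) (by positivity) (by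
        intro w hw
        have hw' : w ∈ S 0 v0 := hw
        have hpw := hp0 0 v0 w hw'
        have ih := itS_bound hn hK N (fun j v => S j.succ (Fin.cons w v))
          (fun j v => p j.succ (Fin.cons w v))
          (fun j v v' h => hS _ _ _ (by
            intro i
            refine Fin.cases ?_ ?_ i
            · intro _; simp
            · intro i hi
              simpa using h i (Fin.succ_lt_succ_iff.mp hi)))
          (fun j v v' h => hp _ _ _ (by
            intro i
            refine Fin.cases ?_ ?_ i
            · intro _; simp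
            · intro i hi
              simpa using h i (Fin.succ_lt_succ_iff.mp hi)))
          (fun j v u hu => hp0 _ _ u hu) (Fin.tail R) (Fin.tail U)
          (fun j v => hSR _ _) (fun j => hpt _) (fun j v => h1 _ _) (fun v => G (Fin.cons w v))
          (hG.cons (hSR 0 v0 hw')) (c * p 0 v0 w) B (by positivity) hB0 (by
            intro v hv
            have h3 := hB (Fin.cons w v) (by
              intro j
              refine Fin.cases ?_ ?_ j
              · rw [e0]
                simpa using hw'
              · intro j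
                simpa using hv j)
            rw [Fin.prod_univ_succ, e0'] at h3
            simp only [Fin.cons_zero, Fin.cons_succ] at h3
            calc c * p 0 v0 w * (∏ j, p j.succ (Fin.cons w v) (v j)) * ‖G (Fin.cons w v)‖
                = c * (p 0 v0 w * ∏ j : Fin N, p j.succ (Fin.cons w v) (v j)) *
                  ‖G (Fin.cons w v)‖ := by ring
              _ ≤ B := h3)
        rw [norm_mul, Complex.norm_real, Real.norm_of_nonneg hc]
        calc p 0 v0 w * (c * ‖itS n N (fun v => G (Fin.cons w v))‖)
            = c * p 0 v0 w * ‖itS n N (fun v => G (Fin.cons w v))‖ := by ring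
          _ ≤ K ^ N * B := ih)
      have h4 : ∑ y ∈ range n, (c : ℂ) * itS n N (fun v => G (Fin.cons ((y : ℂ) / n) v)) =
          (c : ℂ) * itS n (N + 1) G := by
        simp only [itS]
        rw [mul_sum]
      rw [h4, norm_mul, Complex.norm_real, Real.norm_of_nonneg hc] at h2
      calc c * ‖itS n (N + 1) G‖ ≤ K * (K ^ N * B) := h2
        _ = K ^ (N + 1) * B := by ring

/-! ### the iterated integral -/

theorem itR_congr : ∀ (N : ℕ) (P : Fin N → PathW) (F F' : (Fin N → ℝ) → ℂ),
    (∀ x ∈ bx P, F x = F' x) → itR N P F = itR N P F'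
  | 0, P, F, F', h => h _ (by simp [bx])
  | N + 1, P, F, F', h => by
      simp only [itR]
      apply intervalIntegral.integral_congr
      intro x hx
      rw [Set.uIcc_of_le (P 0).hab] at hx
      simp only
      rw [itR_congr N (Fin.tail P) (fun t => F (Fin.cons x t)) (fun t => F' (Fin.cons x t))]
      intro t ht
      apply h
      intro j _
      refine Fin.cases ?_ ?_ j
      · simpa using hx
      · intro j
        have := ht j (Set.mem_univ j)
        simpa [Fin.tail] using this

theorem itR_cont {X : Type} [TopologicalSpace X] [FirstCountableTopology X]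
    [LocallyCompactSpace X] : ∀ (N : ℕ) (P : Fin N → PathW) (H : X → (Fin N → ℝ) → ℂ),
    Continuous (fun q : X × (Fin N → ℝ) => H q.1 q.2) → Continuous fun x => itR N P (H x)
  | 0, P, H, h => by
      simp only [itR]
      exact h.comp (by fun_prop : Continuous fun x : X => (x, (Fin.elim0 : Fin 0 → ℝ)))
  | N + 1, P, H, h => by
      have ih : Continuous (fun q : X × ℝ => itR N (Fin.tail P)
          ((fun (q : X × ℝ) (t : Fin N → ℝ) => H q.1 (Fin.cons q.2 t)) q)) :=
        itR_cont (X := X × ℝ) N (Fin.tail P) (fun q t => H q.1 (Fin.cons q.2 t)) (by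
          have : Continuous fun r : (X × ℝ) × (Fin N → ℝ) =>
              (r.1.1, (Fin.cons r.1.2 r.2 : Fin (N + 1) → ℝ)) := by
            refine Continuous.prodMk (by fun_prop) ?_
            exact Continuous.finCons (by fun_prop) (by fun_prop)
          exact h.comp this)
      simp only [itR]
      rw [continuous_iff_continuousAt]
      intro x0
      obtain ⟨W, hW, hWx⟩ := exists_compact_mem_nhds x0
      obtain ⟨C, hC⟩ := (hW.prod (isCompact_Icc (a := (P 0).a) (b := (P 0).b))).exists_bound_of_continuousOn
        ih.continuousOn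
      apply intervalIntegral.continuousAt_of_dominated_interval
        (bound := fun x => C * ‖(P 0).ω x‖)
      · refine Filter.Eventually.of_forall fun x => ?_
        apply AEStronglyMeasurable.mul
        · exact (ih.comp (by fun_prop : Continuous fun t : ℝ => (x, t))).aestronglyMeasurable
        · rw [Set.uIoc_of_le (P 0).hab]
          exact (P 0).int.1.aestronglyMeasurable
      · filter_upwards [hWx] with x hx
        refine Filter.Eventually.of_forall fun t ht => ?_
        rw [Set.uIoc_of_le (P 0).hab] at ht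
        rw [norm_mul]
        exact mul_le_mul_of_nonneg_right (hC (x, t) ⟨hx, ht.1.le, ht.2⟩) (norm_nonneg _)
      · exact ((P 0).int.norm).const_mul C
      · refine Filter.Eventually.of_forall fun t _ => ?_
        exact ((ih.comp (by fun_prop : Continuous fun x : X => (x, t))).continuousAt).mul
          continuousAt_const


theorem bx_compact {N : ℕ} (P : Fin N → PathW) : IsCompact (bx P) :=
  isCompact_univ_pi fun _ => isCompact_Icc

theorem bx_cons {N : ℕ} {P : Fin (N + 1) → PathW} {x : ℝ} {t : Fin N → ℝ}
    (hx : x ∈ Set.Icc (P 0).a (P 0).b) (ht : t ∈ bx (Fin.tail P)) : Fin.cons x t ∈ bx P := by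
  intro j _
  refine Fin.cases ?_ ?_ j
  · simpa using hx
  · intro j
    have := ht j (Set.mem_univ j)
    simpa [Fin.tail] using this

/-- the measure on the parameter box -/
noncomputable def mu {N : ℕ} (P : Fin N → PathW) : Measure (Fin N → ℝ) :=
  Measure.pi fun j => volume.restrict (Set.Icc (P j).a (P j).b)

theorem mu_eq {N : ℕ} (P : Fin N → PathW) : mu P = volume.restrict (bx P) := by
  unfold mu bx
  rw [volume_pi, Measure.restrict_pi_pi]

theorem integrable_om {N : ℕ} (P : Fin N → PathW) :
    Integrable (fun x : Fin N → ℝ => ∏ j, (P j).ω (x j)) (mu P) := by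
  apply Integrable.fintype_prod
  intro j
  have h := (P j).int
  rw [intervalIntegrable_iff_integrableOn_Icc_of_le (P j).hab] at h
  exact h

theorem integrable_F {N : ℕ} (P : Fin N → PathW) {F : (Fin N → ℝ) → ℂ}
    (hF : ContinuousOn F (bx P)) :
    Integrable (fun x : Fin N → ℝ => F x * ∏ j, (P j).ω (x j)) (mu P) := by
  obtain ⟨C, hC⟩ := (bx_compact P).exists_bound_of_continuousOn hF
  have hm : MeasurableSet (bx P) := (bx_compact P).isClosed.measurableSet
  apply (integrable_om P).bdd_mul (c := C)
  · rw [mu_eq]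
    exact hF.aestronglyMeasurable hm
  · rw [mu_eq]
    exact (ae_restrict_iff' hm).mpr (Filter.Eventually.of_forall hC)

instance mu_sfin {N : ℕ} (P : Fin N → PathW) : SFinite (mu P) := by
  unfold mu
  infer_instance

theorem pi_symm {N : ℕ} (z : ℝ × (Fin N → ℝ)) :
    (MeasurableEquiv.piFinSuccAbove (fun _ : Fin (N + 1) => ℝ) 0).symm z = Fin.cons z.1 z.2 := by
  simp [MeasurableEquiv.piFinSuccAbove_symm_apply, Fin.insertNthEquiv]

theorem mu_mp {N : ℕ} (P : Fin (N + 1) → PathW) :
    MeasurePreserving (MeasurableEquiv.piFinSuccAbove (fun _ : Fin (N + 1) => ℝ) 0) (mu P)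
      ((volume.restrict (Set.Icc (P 0).a (P 0).b)).prod (mu (Fin.tail P))) :=
  measurePreserving_piFinSuccAbove
    (fun j : Fin (N + 1) => volume.restrict (Set.Icc (P j).a (P j).b)) 0

theorem itR_eq_mu : ∀ (N : ℕ) (P : Fin N → PathW) (F : (Fin N → ℝ) → ℂ),
    ContinuousOn F (bx P) → itR N P F = ∫ x, F x * ∏ j, (P j).ω (x j) ∂(mu P)
  | 0, P, F, hF => by
      simp only [itR, mu]
      rw [Measure.pi_of_empty, integral_dirac]
      simp only [univ_eq_empty, prod_empty, mul_one]
      congr 1
  | N + 1, P, F, hF => by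
      have hmp := (mu_mp P).symm
      have hI := integrable_F P hF
      have h1 : ∫ x, F x * ∏ j, (P j).ω (x j) ∂(mu P) =
          ∫ z : ℝ × (Fin N → ℝ), (F (Fin.cons z.1 z.2) *
            ∏ j, (P j).ω ((Fin.cons z.1 z.2 : Fin (N + 1) → ℝ) j))
            ∂((volume.restrict (Set.Icc (P 0).a (P 0).b)).prod (mu (Fin.tail P))) := by
        rw [← hmp.integral_comp' (g := fun x => F x * ∏ j, (P j).ω (x j))]
        simp only [pi_symm]
      have hI2 : Integrable (fun z : ℝ × (Fin N → ℝ) => F (Fin.cons z.1 z.2) *
            ∏ j, (P j).ω ((Fin.cons z.1 z.2 : Fin (N + 1) → ℝ) j))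
            ((volume.restrict (Set.Icc (P 0).a (P 0).b)).prod (mu (Fin.tail P))) := by
        have := (hmp.integrable_comp_emb (MeasurableEquiv.measurableEmbedding _)
          (g := fun x => F x * ∏ j, (P j).ω (x j))).mpr hI
        simpa only [Function.comp_def, pi_symm] using this
      rw [h1, integral_prod _ hI2]
      simp only [itR]
      rw [intervalIntegral.integral_of_le (P 0).hab, ← integral_Icc_eq_integral_Ioc]
      apply setIntegral_congr_fun measurableSet_Icc
      intro x hx
      simp only
      rw [itR_eq_mu N (Fin.tail P) (fun t => F (Fin.cons x t)), ← integral_mul_const]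
      · apply integral_congr_ae
        refine Filter.Eventually.of_forall fun t => ?_
        simp only
        rw [Fin.prod_univ_succ]
        simp only [Fin.cons_zero, Fin.cons_succ, Fin.tail]
        ring
      · apply hF.comp (g := F) (f := fun t => (Fin.cons x t : Fin (N + 1) → ℝ))
        · have h3 : Continuous fun t : Fin N → ℝ => (Fin.cons x t : Fin (N + 1) → ℝ) :=
            Continuous.finCons (by fun_prop) (by fun_prop)
          exact h3.continuousOn
        · intro t ht
          exact bx_cons hx ht

/-- the iterated integral is an integral over the box -/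
theorem itR_eq_integral {N : ℕ} (P : Fin N → PathW) (F : (Fin N → ℝ) → ℂ)
    (hF : ContinuousOn F (bx P)) : itR N P F = ∫ x in bx P, F x * ∏ j, (P j).ω (x j) := by
  rw [itR_eq_mu N P F hF, mu_eq]


theorem pos_cons {N : ℕ} (P : Fin (N + 1) → PathW) (x : ℝ) (t : Fin N → ℝ) :
    pos P (Fin.cons x t) = Fin.cons ((P 0).γ x) (pos (Fin.tail P) t) := by
  funext j
  refine Fin.cases ?_ ?_ j
  · simp [pos]
  · intro j
    simp [pos, Fin.tail]

/-- a continuous function on the box is the restriction of a continuous function -/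
theorem exists_ext {N : ℕ} (P : Fin N → PathW) {F : (Fin N → ℝ) → ℂ} (hF : ContinuousOn F (bx P)) :
    ∃ F' : (Fin N → ℝ) → ℂ, Continuous F' ∧ ∀ x ∈ bx P, F' x = F x := by
  set c : (Fin N → ℝ) → (Fin N → ℝ) := fun x j => max (P j).a (min (P j).b (x j)) with hc'
  have hc : Continuous c := by fun_prop
  refine ⟨fun x => F (c x), ?_, ?_⟩
  · apply hF.comp_continuous hc
    intro x j _
    exact ⟨le_max_left _ _, max_le (P j).hab (min_le_left _ _)⟩
  · intro x hx
    have h1 : c x = x := by
      funext j
      have := hx j (Set.mem_univ j)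
      simp [c, this.1, this.2]
    simp only [h1]

theorem itR_tail_cont {N : ℕ} (P : Fin (N + 1) → PathW) {F : (Fin (N + 1) → ℝ) → ℂ}
    (hF : ContinuousOn F (bx P)) :
    ContinuousOn (fun x => itR N (Fin.tail P) (fun t => F (Fin.cons x t)))
      (Set.Icc (P 0).a (P 0).b) := by
  obtain ⟨F', hF', he⟩ := exists_ext P hF
  have h1 : Continuous fun x : ℝ => itR N (Fin.tail P) (fun t => F' (Fin.cons x t)) := by
    apply itR_cont N (Fin.tail P) (fun (x : ℝ) t => F' (Fin.cons x t))
    exact hF'.comp (Continuous.finCons (by fun_prop) (by fun_prop))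
  apply h1.continuousOn.congr
  intro x hx
  apply itR_congr
  intro t ht
  exact (he _ (bx_cons hx ht)).symm

/-- the multiple sum is the iterated path integral up to the values on the error sets -/
theorem tensor {n : ℕ} (hn : 0 < n) {K : ℝ} (hK : 0 ≤ K) : ∀ (N : ℕ) (P : Fin N → PathW)
    (E : Fin N → (Fin N → ℂ) → Set ℂ) (q : Fin N → (Fin N → ℂ) → ℂ → ℝ)
    (S : Fin N → (Fin N → ℂ) → Set ℂ) (p : Fin N → (Fin N → ℂ) → ℂ → ℝ)
    (_ : ∀ j v v', (∀ i < j, v i = v' i) → E j v = E j v')
    (_ : ∀ j v v', (∀ i < j, v i = v' i) → q j v = q j v')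
    (_ : ∀ j v, ∀ w ∈ E j v, 0 ≤ q j v w)
    (_ : ∀ j v v', (∀ i < j, v i = v' i) → S j v = S j v')
    (_ : ∀ j v v', (∀ i < j, v i = v' i) → p j v = p j v')
    (_ : ∀ j v, ∀ w ∈ S j v, 0 ≤ p j v w)
    (R U : Fin N → Set ℂ) (_ : ∀ j v, E j v ⊆ R j) (_ : ∀ j v, S j v ⊆ R j) (_ : ∀ j, pts n ⊆ R j)
    (_ : ∀ j, ∀ x ∈ Set.Icc (P j).a (P j).b, (P j).γ x ∈ R j)
    (_ : ∀ j, ∀ x ∈ Set.Icc (P j).a (P j).b, (P j).γ x ∈ U j)
    (_ : ∀ j v, Bound1 n K (U j) (S j v) (p j v))
    (_ : ∀ j v, Main1 n K (U j) (P j) (E j v) (q j v))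
    (_ : ∀ j, ∫ x in (P j).a..(P j).b, ‖(P j).ω x‖ ≤ K)
    (G : (Fin N → ℂ) → ℂ) (_ : Sep R U G) (_ : ContinuousOn (fun x => G (pos P x)) (bx P))
    (B : ℝ) (_ : 0 ≤ B)
    (_ : ∀ j v, (∀ i < j, ∃ x ∈ Set.Icc (P i).a (P i).b, v i = (P i).γ x) → v j ∈ E j v →
      (∀ i, j < i → v i ∈ S i v) →
      q j v (v j) * (∏ i ∈ Finset.Ioi j, p i v (v i)) * ‖G v‖ ≤ B),
    ‖itS n N G - itR N P (fun x => G (pos P x))‖ ≤ N * K ^ N * B
  | 0, P, E, q, S, p, _, _, _, _, _, _, R, U, _, _, _, _, _, _, _, _, G, _, _, B, hB0, hB => by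
      simp only [itS, itR]
      have : (pos P Fin.elim0 : Fin 0 → ℂ) = Fin.elim0 := Subsingleton.elim _ _
      rw [this]
      simp
  | N + 1, P, E, q, S, p, hE, hq, hq0, hS, hp, hp0, R, U, hER, hSR, hpt, hPR, hPU, h1, h2, h3, G,
      hG, hGc, B, hB0, hB => by
      set v0 : Fin (N + 1) → ℂ := fun _ => 0 with hv0
      have e0 : ∀ v, E 0 v = E 0 v0 := fun v => hE 0 v v0 (fun i hi => absurd hi (Fin.not_lt_zero i))
      have e0' : ∀ v, q 0 v = q 0 v0 := fun v =>
        hq 0 v v0 (fun i hi => absurd hi (Fin.not_lt_zero i))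
      have hpt0 : ((0 : ℕ) : ℂ) / n ∈ R 0 := hpt 0 ⟨0, hn, rfl⟩
      have hsh : ∀ {α : Type} (f : Fin (N + 1) → (Fin (N + 1) → ℂ) → α),
          (∀ j v v', (∀ i < j, v i = v' i) → f j v = f j v') → ∀ (w : ℂ) (j : Fin N)
          (v v' : Fin N → ℂ), (∀ i < j, v i = v' i) →
          f j.succ (Fin.cons w v) = f j.succ (Fin.cons w v') := by
        intro α f hf w j v v' h
        apply hf
        intro i
        refine Fin.cases ?_ ?_ i
        · intro _; simp
        · intro i hi
          simpa using h i (Fin.succ_lt_succ_iff.mp hi)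
      set g : ℂ → ℂ := fun w => itS n N (fun v => G (Fin.cons w v)) with hg
      have hd : DifferentiableOn ℂ g (U 0) := by
        apply itS_diff
        intro v hv
        exact hG.head hpt0 (fun i => hpt _ (hv i))
      have hb1 := h2 0 v0 g hd (K ^ N * B) (by positivity) (by
        intro w hw
        apply itS_bound hn hK N (fun j v => S j.succ (Fin.cons w v))
          (fun j v => p j.succ (Fin.cons w v)) (hsh S hS w) (hsh p hp w)
          (fun j v u hu => hp0 _ _ u hu) (Fin.tail R) (Fin.tail U)
          (fun j v => hSR _ _) (fun j => hpt _) (fun j v => h1 _ _) (fun v => G (Fin.cons w v))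
          (hG.cons (hER 0 v0 hw)) (q 0 v0 w) B (hq0 0 v0 w hw) hB0
        intro v hv
        have h4 := hB 0 (Fin.cons w v) (fun i hi => absurd hi (Fin.not_lt_zero i))
          (by rw [e0]; simpa using hw) (by
            intro i
            refine Fin.cases ?_ ?_ i
            · intro h; exact absurd h (lt_irrefl _)
            · intro i _
              simpa using hv i)
        rw [Fin.prod_Ioi_zero, e0'] at h4
        simpa using h4)
      have hI1 : IntervalIntegrable (fun x => g ((P 0).γ x) * (P 0).ω x) volume (P 0).a (P 0).b := by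
        apply (P 0).int.continuousOn_mul
        rw [Set.uIcc_of_le (P 0).hab]
        exact hd.continuousOn.comp (P 0).cont.continuousOn (fun x hx => hPU 0 x hx)
      have hI2 : IntervalIntegrable (fun x => itR N (Fin.tail P)
          (fun t => G (pos P (Fin.cons x t))) * (P 0).ω x) volume (P 0).a (P 0).b := by
        apply (P 0).int.continuousOn_mul
        rw [Set.uIcc_of_le (P 0).hab]
        exact itR_tail_cont P hGc
      have hb2 : ‖(∫ x in (P 0).a..(P 0).b, g ((P 0).γ x) * (P 0).ω x) -
          itR (N + 1) P (fun x => G (pos P x))‖ ≤ N * K ^ N * B * K := by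
        simp only [itR]
        rw [← intervalIntegral.integral_sub hI1 hI2]
        calc ‖∫ x in (P 0).a..(P 0).b, (g ((P 0).γ x) * (P 0).ω x -
              itR N (Fin.tail P) (fun t => G (pos P (Fin.cons x t))) * (P 0).ω x)‖
            ≤ ∫ x in (P 0).a..(P 0).b, N * K ^ N * B * ‖(P 0).ω x‖ := by
              apply intervalIntegral.norm_integral_le_of_norm_le (P 0).hab
              · refine Filter.Eventually.of_forall fun x hx => ?_
                have hx' : x ∈ Set.Icc (P 0).a (P 0).b := ⟨hx.1.le, hx.2⟩
                rw [← sub_mul, norm_mul]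
                apply mul_le_mul_of_nonneg_right _ (norm_nonneg _)
                have ih := tensor hn hK N (Fin.tail P)
                  (fun j v => E j.succ (Fin.cons ((P 0).γ x) v))
                  (fun j v => q j.succ (Fin.cons ((P 0).γ x) v))
                  (fun j v => S j.succ (Fin.cons ((P 0).γ x) v))
                  (fun j v => p j.succ (Fin.cons ((P 0).γ x) v))
                  (hsh E hE _) (hsh q hq _) (fun j v u hu => hq0 _ _ u hu)
                  (hsh S hS _) (hsh p hp _) (fun j v u hu => hp0 _ _ u hu)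
                  (Fin.tail R) (Fin.tail U) (fun j v => hER _ _) (fun j v => hSR _ _)
                  (fun j => hpt _) (fun j => hPR _) (fun j => hPU _) (fun j v => h1 _ _)
                  (fun j v => h2 _ _) (fun j => h3 _)
                  (fun v => G (Fin.cons ((P 0).γ x) v)) (hG.cons (hPR 0 x hx'))
                  (by
                    have h5 : ContinuousOn (fun t : Fin N → ℝ => G (pos P (Fin.cons x t)))
                        (bx (Fin.tail P)) := by
                      apply hGc.comp (f := fun t => (Fin.cons x t : Fin (N + 1) → ℝ))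
                      · have h3 : Continuous fun t : Fin N → ℝ =>
                            (Fin.cons x t : Fin (N + 1) → ℝ) :=
                          Continuous.finCons (by fun_prop) (by fun_prop)
                        exact h3.continuousOn
                      · intro t ht
                        exact bx_cons hx' ht
                    simpa only [pos_cons] using h5) B hB0 (by
                    intro j v hv1 hv2 hv3
                    have h4 := hB j.succ (Fin.cons ((P 0).γ x) v) (by
                      intro i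
                      refine Fin.cases ?_ ?_ i
                      · intro _
                        exact ⟨x, hx', by simp⟩
                      · intro i hi
                        obtain ⟨y, hy, he⟩ := hv1 i (Fin.succ_lt_succ_iff.mp hi)
                        exact ⟨y, hy, by simpa [Fin.tail] using he⟩)
                      (by simpa using hv2) (by
                        intro i
                        refine Fin.cases ?_ ?_ i
                        · intro h; exact absurd h (Fin.not_lt_zero _)
                        · intro i hi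
                          simpa using hv3 i (Fin.succ_lt_succ_iff.mp hi))
                    rw [Fin.prod_Ioi_succ] at h4
                    simpa using h4)
                simp only [pos_cons]
                exact ih
              · exact ((P 0).int.norm).const_mul _
          _ = N * K ^ N * B * ∫ x in (P 0).a..(P 0).b, ‖(P 0).ω x‖ := by
              rw [intervalIntegral.integral_const_mul]
          _ ≤ N * K ^ N * B * K := mul_le_mul_of_nonneg_left (h3 0) (by positivity)
      have hb1' : ‖itS n (N + 1) G - ∫ x in (P 0).a..(P 0).b, g ((P 0).γ x) * (P 0).ω x‖ ≤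
          K * (K ^ N * B) := hb1
      calc ‖itS n (N + 1) G - itR (N + 1) P (fun x => G (pos P x))‖
          = ‖(itS n (N + 1) G - ∫ x in (P 0).a..(P 0).b, g ((P 0).γ x) * (P 0).ω x) +
            ((∫ x in (P 0).a..(P 0).b, g ((P 0).γ x) * (P 0).ω x) -
            itR (N + 1) P (fun x => G (pos P x)))‖ := by congr 1; ring
        _ ≤ K * (K ^ N * B) + N * K ^ N * B * K := (norm_add_le _ _).trans (add_le_add hb1' hb2)
        _ = ((N + 1 : ℕ) : ℝ) * K ^ (N + 1) * B := by push_cast; ring

end Pool.Agent.Work.MP_b30479_gt.G2
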