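import Pool.Agent.Work.MP_b30479_gt.G2.CDefs
import Pool.Agent.Work.MP_b30479_gt.G2.Tensor
import Pool.Agent.Work.MP_b30479_gt.VC.GraphAP

/-!
# One discrete variable: sum over lattice points = integral along a trapezoidal path

The window `A < k ≤ B` of the sum over `0 ≤ k < n` becomes an integral along `pt a b c c' h` over
`[a, b]`, `a = (A + 1/2)/n`, `b = (B + 1/2)/n`; the error is controlled by the two mode paths and by
the other lattice points.
-/

namespace Pool.Agent.Work.MP_b30479_gt.G2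

open Finset MeasureTheory Filter Topology

theorem tr_eq (a b c c' x : ℝ) : tr a b c c' x = VC.trap a b c c' x := rfl

theorem pt_eq (a b c c' h x : ℝ) : pt a b c c' h x = VC.gpt (fun x => h * tr a b c c' x) x := rfl

theorem pt_re (a b c c' h x : ℝ) : (pt a b c c' h x).re = x := by
  rw [pt_eq, VC.gpt_re]

theorem pt_im (a b c c' h x : ℝ) : (pt a b c c' h x).im = h * tr a b c c' x := by
  rw [pt_eq, VC.gpt_im]

theorem tr_nonneg (a b c c' x : ℝ) : 0 ≤ tr a b c c' x := VC.trap_nonneg a b c c' x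

theorem tr_le_one (a b c c' x : ℝ) : tr a b c c' x ≤ 1 := VC.trap_le_one a b c c' x

theorem continuous_tr {c c' : ℝ} (hc : 0 < c) (hc' : 0 < c') (a b : ℝ) :
    Continuous (tr a b c c') :=
  VC.continuous_of_lip (VC.trap_lip hc hc' (le_max_left _ _) (le_max_right _ _))

theorem continuous_pt {c c' : ℝ} (hc : 0 < c) (hc' : 0 < c') (a b h : ℝ) :
    Continuous (pt a b c c' h) := by
  have := continuous_tr hc hc' a b
  unfold pt
  fun_prop

/-- the path of the window `A < k ≤ B` with height `h` and ramps `c`, `c'` -/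
noncomputable def gP (n A B : ℕ) (h c c' : ℝ) (hAB : A ≤ B) (hc : 0 < c) (hc' : 0 < c') :
    PathW where
  a := ((A : ℝ) + 1 / 2) / n
  b := ((B : ℝ) + 1 / 2) / n
  hab := by
    apply div_le_div_of_nonneg_right _ (Nat.cast_nonneg n)
    have : (A : ℝ) ≤ B := by exact_mod_cast hAB
    linarith only [this]
  γ := pt (((A : ℝ) + 1 / 2) / n) (((B : ℝ) + 1 / 2) / n) c c' h
  ω := fun x => n * (1 + ((h * deriv (tr (((A : ℝ) + 1 / 2) / n) (((B : ℝ) + 1 / 2) / n) c c') x :
    ℝ) : ℂ) * Complex.I)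
  cont := continuous_pt hc hc' _ _ _
  int := by
    have h1 := (VC.graphD_trap (A := ((A : ℝ) + 1 / 2) / n) (B := ((B : ℝ) + 1 / 2) / n) hc hc' h
      (le_refl (((A : ℝ) + 1 / 2) / n)) (le_refl (((B : ℝ) + 1 / 2) / n))).intg (by
        apply div_le_div_of_nonneg_right _ (Nat.cast_nonneg n)
        have : (A : ℝ) ≤ B := by exact_mod_cast hAB
        linarith only [this]) (f := fun _ => (n : ℂ)) continuousOn_const
    exact h1

/-- the error set of the window: mode paths and lattice points outside the window -/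
def gE (n A B : ℕ) (hu hd c c' : ℝ) : Set ℂ :=
  {w | ∃ x : ℝ, ((A : ℝ) + 1 / 2) / n ≤ x ∧ x ≤ ((B : ℝ) + 1 / 2) / n ∧
    (w = pt (((A : ℝ) + 1 / 2) / n) (((B : ℝ) + 1 / 2) / n) c c' hu x ∨
      w = pt (((A : ℝ) + 1 / 2) / n) (((B : ℝ) + 1 / 2) / n) c c' (-hd) x)} ∪
  {w | ∃ k : ℕ, k < n ∧ (k ≤ A ∨ B < k) ∧ w = (k : ℂ) / n}

/-- the penalty -/
noncomputable def gq (n : ℕ) (w : ℂ) : ℝ := Real.exp (-(2 * Real.pi * n * |w.im|))

theorem gq_pos (n : ℕ) (w : ℂ) : 0 < gq n w := Real.exp_pos _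

theorem gq_real (n : ℕ) (x : ℝ) : gq n (x : ℂ) = 1 := by simp [gq]

theorem trap_ge2 {A B c c' κ t u : ℝ} (hc : 0 < c) (hc' : 0 < c') (ht : 0 ≤ t) (hκ : κ * c ≤ t)
    (hκ' : κ * c' ≤ t) (hu : κ * u ≤ t) (hκ0 : 0 ≤ κ) (x : ℝ) :
    κ * min u (min (x - A) (B - x)) ≤ t * VC.trap A B c c' x := by
  rcases le_total 0 (min (x - A) (B - x)) with h | h
  · have h1 : κ * min u (min (x - A) (B - x)) ≤
        t * min 1 (min ((x - A) / c) ((B - x) / c')) := by
      rw [mul_min_of_nonneg _ _ hκ0, mul_min_of_nonneg _ _ hκ0, mul_min_of_nonneg _ _ ht,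
        mul_min_of_nonneg _ _ ht, mul_one]
      have h2 := le_min_iff.mp h
      refine le_min ((min_le_left _ _).trans hu) (le_min ?_ ?_)
      · refine (min_le_right _ _).trans ((min_le_left _ _).trans ?_)
        rw [mul_div_assoc', le_div_iff₀ hc]
        nlinarith only [hκ, h2, mul_le_mul_of_nonneg_right hκ h2.1]
      · refine (min_le_right _ _).trans ((min_le_right _ _).trans ?_)
        rw [mul_div_assoc', le_div_iff₀ hc']
        nlinarith only [hκ', h2, mul_le_mul_of_nonneg_right hκ' h2.2]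
    exact h1.trans (mul_le_mul_of_nonneg_left (le_max_right _ _) ht)
  · have h1 : κ * min u (min (x - A) (B - x)) ≤ 0 :=
      mul_nonpos_of_nonneg_of_nonpos hκ0 ((min_le_right _ _).trans h)
    exact h1.trans (mul_nonneg ht (VC.trap_nonneg _ _ _ _ _))

theorem slope_le {a b c c' t L : ℝ} (hc : 0 < c) (hc' : 0 < c') (h1 : |t| / c ≤ L)
    (h2 : |t| / c' ≤ L) (x : ℝ) : |t * deriv (VC.trap a b c c') x| ≤ L := by
  rw [abs_mul]
  have h3 := VC.abs_deriv_of_lip (VC.trap_lip (A := a) (B := b) hc hc'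
    (le_max_left (1 / c) (1 / c')) (le_max_right _ _)) x
  refine (mul_le_mul_of_nonneg_left h3 (abs_nonneg t)).trans ?_
  rw [mul_max_of_nonneg _ _ (abs_nonneg t)]
  apply max_le
  · calc |t| * (1 / c) = |t| / c := by ring
      _ ≤ L := h1
  · calc |t| * (1 / c') = |t| / c' := by ring
      _ ≤ L := h2

/-- **One discrete variable, main term.** -/
theorem main1_graph {n A B : ℕ} (hAB : A < B) (hBn : B < n) {h hu hd c c' : ℝ} (hc : 0 < c)
    (hc' : 0 < c') (hu0 : 0 < hu) (hd0 : 0 < hd) {κ : ℝ} (hκ : 0 < κ)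
    (k1 : κ * c ≤ hu) (k2 : κ * c' ≤ hu) (k3 : κ * (1 / (4 * (n : ℝ))) ≤ hu)
    (k4 : κ * c ≤ hd) (k5 : κ * c' ≤ hd) (k6 : κ * (1 / (4 * (n : ℝ))) ≤ hd) {L : ℝ}
    (l1 : hu / c ≤ L) (l2 : hu / c' ≤ L) (l3 : hd / c ≤ L) (l4 : hd / c' ≤ L) {U : Set ℂ}
    (hU : ∀ w : ℂ, ((A : ℝ) + 1 / 2) / n ≤ w.re → w.re ≤ ((B : ℝ) + 1 / 2) / n → U ∈ 𝓝 w) :
    Main1 n ((2 * (1 + L) / (1 - Real.exp (-(Real.pi * κ / 2))) + 1) * n) U
      (gP n A B h c c' hAB.le hc hc') (gE n A B hu hd c c') (gq n) := by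
  intro g hg M hM0 hM
  have hn : 0 < n := (Nat.zero_le B).trans_lt hBn
  have hn0 : (0 : ℝ) < n := by exact_mod_cast hn
  have hL0 : 0 ≤ L := le_trans (by positivity) l1
  have hden : 0 < 1 - Real.exp (-(Real.pi * κ / 2)) := by
    have : Real.exp (-(Real.pi * κ / 2)) < 1 := by
      rw [Real.exp_lt_one_iff]
      have := Real.pi_pos
      have : 0 < Real.pi * κ / 2 := by positivity
      linarith only [this]
    linarith only [this]
  have hBA : ((B - A : ℕ) : ℝ) = (B : ℝ) - A := by rw [Nat.cast_sub hAB.le]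
  have eA : ((((A : ℤ) + 1 : ℤ) : ℝ) - 1 / 2) / n = ((A : ℝ) + 1 / 2) / n := by
    push_cast
    ring
  have eB : ((((A : ℤ) + 1 : ℤ) : ℝ) + ((B - A : ℕ) : ℝ) - 1 / 2) / n = ((B : ℝ) + 1 / 2) / n := by
    rw [hBA]
    push_cast
    ring
  set a : ℝ := ((A : ℝ) + 1 / 2) / n with ha
  set b : ℝ := ((B : ℝ) + 1 / 2) / n with hb
  have hmode : ∀ s : ℝ, (s = hu ∨ s = -hd) → ∀ x, a ≤ x → x ≤ b →
      Real.exp (-(2 * Real.pi * n * |s * VC.trap a b c c' x|)) *
        ‖g (VC.gpt (fun x => s * VC.trap a b c c' x) x)‖ ≤ M := by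
    intro s hs x hx hx'
    have h1 := hM (pt a b c c' s x) (Or.inl ⟨x, hx, hx', by
      rcases hs with e | e
      · left; rw [e]
      · right; rw [e]⟩)
    unfold gq at h1
    rw [pt_im] at h1
    exact h1
  have key := VC.norm_sum_sub_le hn ((A : ℤ) + 1) (N := B - A) (by omega) (g := g)
    (by
      rw [eA, eB]
      intro w hw
      exact (hg w (mem_of_mem_nhds (hU w hw.1 hw.2))).differentiableAt (hU w hw.1 hw.2))
    (h := fun x => h * VC.trap a b c c' x) (h' := fun x => h * deriv (VC.trap a b c c') x)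
    (p := fun x => hu * VC.trap a b c c' x) (p' := fun x => hu * deriv (VC.trap a b c c') x)
    (q := fun x => hd * VC.trap a b c c' x) (q' := fun x => hd * deriv (VC.trap a b c c') x)
    (by rw [eA, eB]; exact VC.graphD_trap hc hc' h le_rfl le_rfl)
    (by rw [eA, eB]; exact VC.graphD_trap hc hc' hu le_rfl le_rfl)
    (by rw [eA, eB]; exact VC.graphD_trap hc hc' hd le_rfl le_rfl)
    (by rw [eA, eB]; exact fun x hx => mul_pos hu0 (VC.trap_pos hc hc' hx.1 hx.2))
    (by rw [eA, eB]; exact fun x hx => mul_pos hd0 (VC.trap_pos hc hc' hx.1 hx.2)) hκ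
    (by rw [eA, eB]; exact trap_ge2 hc hc' hu0.le k1 k2 k3 hκ.le)
    (by rw [eA, eB]; exact trap_ge2 hc hc' hd0.le k4 k5 k6 hκ.le)
    (L := L) (slope_le hc hc' (by rwa [abs_of_pos hu0]) (by rwa [abs_of_pos hu0]))
    (slope_le hc hc' (by rwa [abs_of_pos hd0]) (by rwa [abs_of_pos hd0])) (M := M)
    (by
      rw [eA, eB]
      intro x hx hx'
      have h1 := hmode hu (Or.inl rfl) x hx hx'
      rw [abs_of_nonneg (mul_nonneg hu0.le (VC.trap_nonneg _ _ _ _ _))] at h1
      convert h1 using 3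
      ring)
    (by
      rw [eA, eB]
      intro x hx hx'
      have h1 := hmode (-hd) (Or.inr rfl) x hx hx'
      have h2 : (fun x => -hd * VC.trap a b c c' x) = fun x => -(hd * VC.trap a b c c' x) := by
        funext x
        ring
      rw [h2, neg_mul, abs_neg, abs_of_nonneg (mul_nonneg hd0.le (VC.trap_nonneg _ _ _ _ _))] at h1
      convert h1 using 3
      ring)
  rw [eA, eB] at key
  have hsum : ∑ j ∈ Finset.range (B - A), g (((((A : ℤ) + 1 : ℤ) : ℂ) + j) / n) =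
      ∑ k ∈ Finset.Ioc A B, g ((k : ℂ) / n) := by
    have h1 : Finset.Ioc A B = Finset.Ico (A + 1) (B + 1) := by
      ext k
      simp only [Finset.mem_Ioc, Finset.mem_Ico]
      omega
    rw [h1, Finset.sum_Ico_eq_sum_range]
    have : B + 1 - (A + 1) = B - A := by omega
    rw [this]
    refine Finset.sum_congr rfl fun k _ => ?_
    push_cast
    rfl
  rw [hsum] at key
  have hsplit : ∑ k ∈ Finset.range n, g ((k : ℂ) / n) =
      ∑ k ∈ Finset.Ioc A B, g ((k : ℂ) / n) +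
      ∑ k ∈ Finset.range n \ Finset.Ioc A B, g ((k : ℂ) / n) := by
    rw [add_comm, Finset.sum_sdiff]
    intro k hk
    rw [Finset.mem_Ioc] at hk
    rw [Finset.mem_range]
    omega
  have hcard : ((Finset.range n \ Finset.Ioc A B).card : ℝ) = n - (B - A) := by
    have h1 : (Finset.range n \ Finset.Ioc A B).card = n - (B - A) := by
      rw [Finset.card_sdiff_of_subset, Finset.card_range, Nat.card_Ioc]
      intro k hk
      rw [Finset.mem_Ioc] at hk
      rw [Finset.mem_range]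
      omega
    rw [h1, Nat.cast_sub (by omega), hBA]
  have htail : ‖∑ k ∈ Finset.range n \ Finset.Ioc A B, g ((k : ℂ) / n)‖ ≤
      ((n : ℝ) - (B - A)) * M := by
    have h3 : ‖∑ k ∈ Finset.range n \ Finset.Ioc A B, g ((k : ℂ) / n)‖ ≤
        ∑ k ∈ Finset.range n \ Finset.Ioc A B, M := by
      refine norm_sum_le_of_le _ fun k hk => ?_
      rw [Finset.mem_sdiff, Finset.mem_range, Finset.mem_Ioc] at hk
      have h4 := hM ((k : ℂ) / n) (Or.inr ⟨k, hk.1, by omega, rfl⟩)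
      have h5 : ((k : ℂ) / n) = (((k : ℝ) / n : ℝ) : ℂ) := by push_cast; rfl
      rw [h5, gq_real, one_mul, ← h5] at h4
      exact h4
    rw [Finset.sum_const, nsmul_eq_mul, hcard] at h3
    exact h3
  have hint : (∫ x in (gP n A B h c c' hAB.le hc hc').a..(gP n A B h c c' hAB.le hc hc').b,
      g ((gP n A B h c c' hAB.le hc hc').γ x) * (gP n A B h c c' hAB.le hc hc').ω x) =
      n * ∫ x : ℝ in a..b, g (VC.gpt (fun x => h * VC.trap a b c c' x) x) *
        (1 + ((h * deriv (VC.trap a b c c') x : ℝ) : ℂ) * Complex.I) := by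
    rw [← intervalIntegral.integral_const_mul]
    refine intervalIntegral.integral_congr fun x _ => ?_
    show g (pt a b c c' h x) * (n * (1 + ((h * deriv (tr a b c c') x : ℝ) : ℂ) * Complex.I)) = _
    rw [pt_eq]
    have e1 : deriv (tr a b c c') x = deriv (VC.trap a b c c') x := rfl
    rw [e1]
    simp only [tr_eq]
    ring
  rw [hint, hsplit]
  have h5 : ∀ u v w : ℂ, u + v - w = (u - w) + v := fun u v w => by ring
  rw [h5]
  refine (norm_add_le _ _).trans ((add_le_add key htail).trans ?_)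
  rw [hBA]
  have h6 : (2 * (1 + L) / (1 - Real.exp (-(Real.pi * κ / 2))) + 1) * n * M -
      (2 * ((B : ℝ) - A) * (1 + L) / (1 - Real.exp (-(Real.pi * κ / 2))) * M +
        ((n : ℝ) - (B - A)) * M) =
      ((n : ℝ) - (B - A)) * (2 * (1 + L) / (1 - Real.exp (-(Real.pi * κ / 2))) * M) +
        ((B : ℝ) - A) * M := by
    ring
  have h7 : (0 : ℝ) ≤ (n : ℝ) - (B - A) := by
    rw [← hcard]
    positivity
  have h8 : (0 : ℝ) ≤ (B : ℝ) - A := by
    rw [← hBA]
    positivity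
  have h9 : 0 ≤ ((n : ℝ) - (B - A)) * (2 * (1 + L) / (1 - Real.exp (-(Real.pi * κ / 2))) * M) +
        ((B : ℝ) - A) * M := by positivity
  linarith only [h6, h9]

/-- the total weight of the path -/
theorem integral_norm_gP_le {n A B : ℕ} (hAB : A ≤ B) (hBn : B < n) {h c c' : ℝ} (hc : 0 < c)
    (hc' : 0 < c') {L : ℝ} (l1 : |h| / c ≤ L) (l2 : |h| / c' ≤ L) :
    ∫ x in (gP n A B h c c' hAB hc hc').a..(gP n A B h c c' hAB hc hc').b,
      ‖(gP n A B h c c' hAB hc hc').ω x‖ ≤ (1 + L) * n := by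
  have hn : 0 < n := (Nat.zero_le B).trans_lt hBn
  have hn0 : (0 : ℝ) < n := by exact_mod_cast hn
  have hL0 : 0 ≤ L := le_trans (by positivity) l1
  set P := gP n A B h c c' hAB hc hc' with hP
  have h1 : ∀ x, ‖P.ω x‖ ≤ n * (1 + L) := by
    intro x
    show ‖(n : ℂ) * (1 + ((h * deriv (VC.trap (((A : ℝ) + 1 / 2) / n) (((B : ℝ) + 1 / 2) / n) c c')
      x : ℝ) : ℂ) * Complex.I)‖ ≤ _
    rw [norm_mul, Complex.norm_natCast]
    apply mul_le_mul_of_nonneg_left _ hn0.le
    refine (norm_add_le _ _).trans ?_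
    rw [norm_one, norm_mul, Complex.norm_I, mul_one, Complex.norm_real, Real.norm_eq_abs]
    linarith only [hc, hc', l1, l2, slope_le (a := ((A : ℝ) + 1 / 2) / n) (b := ((B : ℝ) + 1 / 2) / n) hc hc' l1 l2 x]
  have hab := P.hab
  have h2 : ∫ x in P.a..P.b, ‖P.ω x‖ ≤ ∫ x in P.a..P.b, (n * (1 + L) : ℝ) :=
    intervalIntegral.integral_mono_on hab P.int.norm (by simp) fun x _ => h1 x
  rw [intervalIntegral.integral_const, smul_eq_mul] at h2
  have h3 : P.b - P.a ≤ 1 := by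
    show ((B : ℝ) + 1 / 2) / n - ((A : ℝ) + 1 / 2) / n ≤ 1
    rw [← sub_div, div_le_one hn0]
    have h4 : (B : ℝ) < n := by exact_mod_cast hBn
    have h5 : (0 : ℝ) ≤ A := Nat.cast_nonneg A
    linarith only [h4]
  have h6 : (P.b - P.a) * (n * (1 + L)) ≤ 1 * (n * (1 + L)) :=
    mul_le_mul_of_nonneg_right h3 (by positivity)
  linarith only [h2, h6]

/-- from the main term to a bound -/
theorem bound1_of_main1 {n : ℕ} {K K' : ℝ} {U : Set ℂ} {P : PathW} {E : Set ℂ}
    {q : ℂ → ℝ} (hm : Main1 n K U P E q) (hP : ∫ x in P.a..P.b, ‖P.ω x‖ ≤ K')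
    {S : Set ℂ} {p : ℂ → ℝ}
    (h1 : ∀ x, P.a ≤ x → x ≤ P.b → P.γ x ∈ S ∧ 1 ≤ p (P.γ x))
    (h2 : ∀ w ∈ E, w ∈ S ∧ q w ≤ p w) : Bound1 n (K + K') U S p := by
  intro g hg B hB0 hB
  have h3 := hm g hg B hB0 fun w hw => by
    have h4 := h2 w hw
    exact (mul_le_mul_of_nonneg_right h4.2 (norm_nonneg _)).trans (hB w h4.1)
  have h5 : ‖∫ x in P.a..P.b, g (P.γ x) * P.ω x‖ ≤ K' * B := by
    have h6 : ‖∫ x in P.a..P.b, g (P.γ x) * P.ω x‖ ≤ ∫ x in P.a..P.b, B * ‖P.ω x‖ := by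
      refine intervalIntegral.norm_integral_le_of_norm_le P.hab ?_ (P.int.norm.const_mul B)
      refine ae_of_all _ fun x hx => ?_
      rw [norm_mul]
      apply mul_le_mul_of_nonneg_right _ (norm_nonneg _)
      have h7 := h1 x hx.1.le hx.2
      have h8 := hB _ h7.1
      have h9 := mul_le_mul_of_nonneg_right h7.2 (norm_nonneg (g (P.γ x)))
      linarith only [h8, h9]
    rw [intervalIntegral.integral_const_mul] at h6
    have h7 := mul_le_mul_of_nonneg_left hP hB0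
    linarith only [h6, h7]
  have h6 : ∑ y ∈ range n, g ((y : ℂ) / n) = (∑ y ∈ range n, g ((y : ℂ) / n) -
      ∫ x in P.a..P.b, g (P.γ x) * P.ω x) + ∫ x in P.a..P.b, g (P.γ x) * P.ω x := by ring
  rw [h6]
  refine (norm_add_le _ _).trans ?_
  linarith only [h3, h5]

end Pool.Agent.Work.MP_b30479_gt.G2
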