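import Pool.Agent.Work.MP_b30479_gt.G2.C5Defs
import Pool.Agent.Work.MP_b30479_gt.G2.SEf
import Pool.Agent.Work.MP_b30479_gt.LT.XBlk

/-!
# Growth of the integrand
-/

namespace Pool.Agent.Work.MP_b30479_gt.G2

open Finset VOL MeasureTheory Filter Topology

variable {D Z K : Type} [Fintype D] [Fintype Z] [Fintype K] [DecidableEq D]

/-- one factor, with its shift -/
theorem norm_SE_le_shift {Y : ℝ} (hY : 0 ≤ Y) : ∃ C : ℝ, 0 < C ∧ ∀ (n : ℕ) (u : ℂ) (c : ℝ), 4 ≤ n →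
    |c| ≤ 2 → 0 < u.re + c / n → u.re + c / n < 2 → |u.im| ≤ Y →
    ‖SE n (u + ((c / n : ℝ) : ℂ))‖ ≤ C * (n : ℝ) ^ 26 * Real.exp (n * UU u) := by
  obtain ⟨C, hC, h⟩ := norm_SE_le hY
  obtain ⟨C', hC', hsh⟩ := exp_UU_shift hY
  refine ⟨C * C', by positivity, fun n u c hn hc h0 h1 hu => ?_⟩
  have hn0 : (0 : ℝ) < n := by
    have : 0 < n := by omega
    exact_mod_cast this
  have er : (u + ((c / n : ℝ) : ℂ)).re = u.re + c / n := by
    rw [Complex.add_re, Complex.ofReal_re]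
  have ei : (u + ((c / n : ℝ) : ℂ)).im = u.im := by
    rw [Complex.add_im, Complex.ofReal_im, add_zero]
  have h2 := h n (u + ((c / n : ℝ) : ℂ)) hn (by rw [er]; exact h0) (by rw [er]; exact h1)
    (by rw [ei]; exact hu)
  have h3 := (hsh n u (c / n) hn (by
    rw [abs_div, abs_of_pos hn0]
    exact div_le_div_of_nonneg_right hc hn0.le) hu).1
  calc ‖SE n (u + ((c / n : ℝ) : ℂ))‖ ≤ C * (n : ℝ) ^ 18 * Real.exp (n * UU (u + ((c / n : ℝ) : ℂ))) := h2
    _ ≤ C * (n : ℝ) ^ 18 * (C' * (n : ℝ) ^ 8 * Real.exp (n * UU u)) :=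
      mul_le_mul_of_nonneg_left h3 (by positivity)
    _ = _ := by ring

omit [Fintype K] [DecidableEq D] in
theorem grow_form_im (S : Dat D Z K) (k : K) (z : D ⊕ Z → ℂ) :
    (S.form k z).im = ∑ i, S.A k i * (z i).im := by
  unfold Dat.form
  rw [Complex.add_im, Complex.ofReal_im, zero_add, Complex.im_sum]
  refine Finset.sum_congr rfl fun i _ => ?_
  have : ((S.A k i : ℤ) : ℂ) = (((S.A k i : ℤ) : ℝ) : ℂ) := by push_cast; rfl
  rw [this, Complex.im_ofReal_mul]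

omit [DecidableEq D] in
theorem G_growth {S : Dat D Z K} (hS : S.Ok) {Y : ℝ} (hY : 0 ≤ Y) : ∃ (C : ℝ) (k : ℕ), 0 < C ∧
    ∀ (n : ℕ) (z : D ⊕ Z → ℂ), 4 ≤ n → InBox n z → (∀ i, |(z i).im| ≤ Y) →
    ‖S.G n z‖ ≤ C * (n : ℝ) ^ k * Real.exp (n * S.V0 z) := by
  set B : K → ℝ := fun k => ∑ i, |(S.A k i : ℝ)| * Y with hB
  have hB0 : ∀ k, 0 ≤ B k := fun k => Finset.sum_nonneg fun i _ => by positivity
  choose C hC hfac using fun k => norm_SE_le_shift (hB0 k)
  set E : ℝ := ∑ i, ‖S.e i‖ * (1 + Y) with hE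
  refine ⟨Real.exp E * ∏ k, C k, 26 * Fintype.card K,
    mul_pos (Real.exp_pos _) (Finset.prod_pos fun k _ => hC k), fun n z hn hz hY' => ?_⟩
  have hn0 : (0 : ℝ) < n := by
    have : 0 < n := by omega
    exact_mod_cast this
  have hre : ∀ i, |(z i).re| ≤ 1 := by
    intro i
    rcases i with i | v
    · rw [abs_le]
      have h1 := hz.d0 i
      have h2 := hz.d1 i
      have h3 : (0 : ℝ) ≤ 1 / n := by positivity
      constructor <;> linarith
    · exact (hz.c v).le.trans (by norm_num)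
  have hnorm : ∀ i, ‖z i‖ ≤ 1 + Y := fun i =>
    (Complex.norm_le_abs_re_add_abs_im (z i)).trans (add_le_add (hre i) (hY' i))
  have hle : (∑ i, S.e i * z i).re ≤ E := by
    refine (Complex.re_le_norm _).trans ((norm_sum_le _ _).trans ?_)
    refine Finset.sum_le_sum fun i _ => ?_
    rw [norm_mul]
    exact mul_le_mul_of_nonneg_left (hnorm i) (norm_nonneg _)
  have hexp : ‖Complex.exp (n * S.quad z + ∑ i, S.e i * z i)‖ ≤
      Real.exp E * Real.exp (n * (S.quad z).re) := by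
    rw [Complex.norm_exp, ← Real.exp_add, Complex.add_re]
    apply Real.exp_le_exp.2
    have : ((n : ℂ) * S.quad z).re = n * (S.quad z).re := by
      have e : (n : ℂ) = ((n : ℝ) : ℂ) := by push_cast; rfl
      rw [e, Complex.re_ofReal_mul]
    rw [this]
    linarith
  have him : ∀ k, |(S.form k z).im| ≤ B k := by
    intro k
    rw [grow_form_im]
    refine (Finset.abs_sum_le_sum_abs _ _).trans (Finset.sum_le_sum fun i _ => ?_)
    rw [abs_mul]
    exact mul_le_mul_of_nonneg_left (hY' i) (abs_nonneg _)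
  have hprod : ‖∏ k, SE n (S.form k z + (S.c k / n : ℝ))‖ ≤
      ∏ k, (C k * (n : ℝ) ^ 26 * Real.exp (n * UU (S.form k z))) := by
    rw [norm_prod]
    refine Finset.prod_le_prod (fun k _ => norm_nonneg _) fun k _ => ?_
    obtain ⟨r1, r2⟩ := hS.range n (by omega) z (fun i => ⟨hz.d0 i, hz.d1 i⟩) hz.c k
    exact hfac k n (S.form k z) (S.c k) hn ((hS.shift k).trans (by norm_num)) r1 r2 (him k)
  unfold Dat.G
  rw [norm_mul]
  refine (mul_le_mul hexp hprod (norm_nonneg _) (by positivity)).trans (le_of_eq ?_)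
  rw [Finset.prod_mul_distrib, Finset.prod_mul_distrib, Finset.prod_const, Finset.card_univ,
    ← Real.exp_sum, ← Finset.mul_sum, Dat.V0, mul_add, Real.exp_add, pow_mul]
  ring

theorem EE_growth (b : ℤ) {ρ : ℝ} (hρ : 0 < ρ) : ∃ C : ℝ, 0 ≤ C ∧ ∀ n : ℕ, 1 ≤ n → Odd n →
    ∀ σ : ℝ, |σ| ≤ 1 / 2 → ‖LT.EE n b ρ σ‖ ≤ C * Real.exp (n *
      (Real.pi * Complex.I * b * LT.zt ρ σ ^ 2 + 2 * Real.pi * Complex.I * LT.zt ρ σ).re) := by
  obtain ⟨C, hC, h⟩ := LT.EE_abs b hρ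
  refine ⟨C, hC, fun n hn ho σ hσ => ?_⟩
  have h1 := h n hn ho σ hσ
  have e : (Real.pi * Complex.I * b * LT.zt ρ σ ^ 2 + 2 * Real.pi * Complex.I * LT.zt ρ σ).re =
      LT.wt 1 b (ρ * LT.th σ) σ := by
    have e1 : (Real.pi * Complex.I * b * LT.zt ρ σ ^ 2 + 2 * Real.pi * Complex.I * LT.zt ρ σ) =
        ((-(2 * Real.pi * b * σ * (ρ * LT.th σ)) - 2 * Real.pi * (ρ * LT.th σ) : ℝ) : ℂ) +
        ((Real.pi * b * (σ ^ 2 - (ρ * LT.th σ) ^ 2) + 2 * Real.pi * σ : ℝ) : ℂ) * Complex.I := by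
      unfold LT.zt
      push_cast
      linear_combination (2 * Real.pi * b * σ * (ρ * LT.th σ) + 2 * Real.pi * (ρ * LT.th σ) +
        Real.pi * b * (ρ * LT.th σ) ^ 2 * Complex.I) * Complex.I_sq
    rw [e1, Complex.add_re, Complex.ofReal_re, Complex.re_ofReal_mul, Complex.I_re, mul_zero,
      add_zero]
    unfold LT.wt
    ring
  rw [e]
  exact h1

end Pool.Agent.Work.MP_b30479_gt.G2
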