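import Pool.Agent.Work.MP_b30479_gt.G2.LapA

/-!
# The main integral of a state sum

Local limit and sharp bound of the integrand of `Dat` near the saddle point, and the Laplace
asymptotics of the integral over the main paths (`Dat.lap`).
-/

namespace Pool.Agent.Work.MP_b30479_gt.G2

open Finset VOL LT MeasureTheory Filter Topology VC

section quad

variable {ι : Type*} [Fintype ι]

theorem isQ_mul [DecidableEq ι] (i j : ι) : IsQ fun X : ι → ℝ => (X i : ℂ) * X j := by
  have h1 := (IsQ.lin_sq i j (1 : ℂ) 1).const_mul (1 / 4)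
  have h2 := (IsQ.lin_sq i j (1 : ℂ) (-1)).const_mul (1 / 4)
  have h3 := h1.sub h2
  refine cast (congrArg IsQ (funext fun X => ?_)) h3
  ring

/-- a negative quadratic form is bounded by a negative multiple of the sum of squares -/
theorem IsQ_neg {Q : (ι → ℝ) → ℂ} (hQ : IsQ Q) (h : ∀ X, X ≠ 0 → (Q X).re < 0) :
    ∃ c : ℝ, 0 < c ∧ ∀ X, (Q X).re ≤ -(c * ∑ i, X i ^ 2) := by
  classical
  set Sp : Set (ι → ℝ) := {X | ∑ i, X i ^ 2 = 1} with hSp
  have hcl : IsClosed Sp := isClosed_eq (by fun_prop) continuous_const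
  have hbd : Bornology.IsBounded Sp := by
    rw [isBounded_iff_forall_norm_le]
    refine ⟨1, fun X hX => ?_⟩
    rw [pi_norm_le_iff_of_nonneg zero_le_one]
    intro i
    rw [Real.norm_eq_abs, abs_le_one_iff_mul_self_le_one, ← pow_two]
    have h1 : X i ^ 2 ≤ ∑ j, X j ^ 2 :=
      Finset.single_le_sum (f := fun j => X j ^ 2) (fun j _ => sq_nonneg _) (Finset.mem_univ i)
    exact h1.trans (le_of_eq hX)
  have hcomp : IsCompact Sp := Metric.isCompact_of_isClosed_isBounded hcl hbd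
  have hcont : Continuous fun X => (Q X).re := Complex.continuous_re.comp hQ.continuous
  have key : ∃ c : ℝ, 0 < c ∧ ∀ X ∈ Sp, (Q X).re ≤ -c := by
    rcases Sp.eq_empty_or_nonempty with he | hne
    · exact ⟨1, one_pos, fun X hX => by rw [he] at hX; exact absurd hX (Set.notMem_empty _)⟩
    · obtain ⟨X0, hX0, hmax⟩ := hcomp.exists_isMaxOn hne hcont.continuousOn
      refine ⟨-(Q X0).re, ?_, fun X hX => ?_⟩
      · have : X0 ≠ 0 := by
          rintro rfl
          rw [hSp, Set.mem_ofPred_eq] at hX0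
          simp at hX0
        linarith only [h, this, h X0 this]
      · have := hmax hX
        simp only [Set.mem_ofPred_eq] at this
        linarith only [this]
  obtain ⟨c, hc, hcb⟩ := key
  refine ⟨c, hc, fun X => ?_⟩
  by_cases hX : ∑ i, X i ^ 2 = 0
  · have h0 : X = 0 := by
      funext i
      have := (Finset.sum_eq_zero_iff_of_nonneg (fun j _ => sq_nonneg (X j))).mp hX i
        (Finset.mem_univ i)
      simpa using this
    rw [hX, h0]
    have h1 := hQ.homog 0 (0 : ι → ℝ)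
    have h2 : (fun i => (0 : ℝ) * (0 : ι → ℝ) i) = (0 : ι → ℝ) := by funext i; simp
    rw [h2] at h1
    rw [h1]
    simp
  · have hp : 0 < ∑ i, X i ^ 2 := lt_of_le_of_ne (Finset.sum_nonneg fun i _ => sq_nonneg _)
      (Ne.symm hX)
    set t : ℝ := √(∑ i, X i ^ 2) with ht
    have ht0 : 0 < t := Real.sqrt_pos.mpr hp
    have ht2 : t ^ 2 = ∑ i, X i ^ 2 := Real.sq_sqrt hp.le
    have h1 : X = fun i => t * (X i / t) := by
      funext i
      field_simp
    have h2 : (fun i => X i / t) ∈ Sp := by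
      rw [hSp, Set.mem_ofPred_eq]
      have : ∑ i, (X i / t) ^ 2 = (∑ i, X i ^ 2) / t ^ 2 := by
        rw [Finset.sum_div]
        exact Finset.sum_congr rfl fun i _ => by rw [div_pow]
      rw [this, ht2, div_self hX]
    have h3 := hQ.homog t (fun i => X i / t)
    rw [← h1] at h3
    rw [h3, ← Complex.ofReal_pow, Complex.re_ofReal_mul, ht2]
    nlinarith only [hp, hcb, h2, hcb _ h2]

end quad

variable {D Z K : Type} [Fintype D] [Fintype Z] [Fintype K]

/-- the integrand at complex points -/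
noncomputable def Dat.H (S : Dat D Z K) (n : ℕ) (z : D ⊕ Z → ℂ) : ℂ :=
  (∏ v, Ec n (S.b v) (z (.inr v))) * S.G n z

omit [Fintype K] in
theorem Dat.form_add' (S : Dat D Z K) (k : K) (z y : D ⊕ Z → ℂ) :
    S.form k (fun i => z i + y i) = S.form k z + ∑ i, S.A k i * y i := by
  unfold Dat.form
  rw [add_assoc, ← Finset.sum_add_distrib]
  congr 1
  exact Finset.sum_congr rfl fun i _ => by ring

/-- the linear part of the increment of `quad` -/
noncomputable def Dat.dq (S : Dat D Z K) (z : D ⊕ Z → ℂ) (i : D ⊕ Z) : ℂ :=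
  ∑ j, (S.q i j + S.q j i) * z j + S.r i

omit [Fintype K] in
theorem Dat.quad_add (S : Dat D Z K) (z y : D ⊕ Z → ℂ) :
    S.quad (fun i => z i + y i) = S.quad z + ∑ i, S.dq z i * y i + ∑ i, ∑ j, S.q i j * y i * y j := by
  unfold Dat.quad Dat.dq
  have h1 : ∑ i, ∑ j, S.q i j * (z i + y i) * (z j + y j) = ∑ i, ∑ j, S.q i j * z i * z j +
      (∑ i, ∑ j, S.q i j * z i * y j + ∑ i, ∑ j, S.q i j * y i * z j) +
      ∑ i, ∑ j, S.q i j * y i * y j := by
    simp only [← Finset.sum_add_distrib]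
    exact Finset.sum_congr rfl fun i _ => Finset.sum_congr rfl fun j _ => by ring
  have h2 : ∑ i, ∑ j, S.q i j * z i * y j = ∑ i, ∑ j, S.q j i * z j * y i := Finset.sum_comm
  have h3 : ∑ i, (∑ j, (S.q i j + S.q j i) * z j + S.r i) * y i =
      (∑ i, ∑ j, S.q j i * z j * y i + ∑ i, ∑ j, S.q i j * y i * z j) + ∑ i, S.r i * y i := by
    simp only [← Finset.sum_add_distrib]
    refine Finset.sum_congr rfl fun i _ => ?_
    rw [add_mul, Finset.sum_mul]
    congr 1
    exact Finset.sum_congr rfl fun j _ => by ring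
  have h4 : ∑ i, S.r i * (z i + y i) = ∑ i, S.r i * z i + ∑ i, S.r i * y i := by
    rw [← Finset.sum_add_distrib]
    exact Finset.sum_congr rfl fun i _ => by ring
  rw [h1, h2, h3, h4]
  ring

theorem Dat.sum_dT (S : Dat D Z K) (z y : D ⊕ Z → ℂ) :
    ∑ i, S.dT z i * y i = ∑ i, S.dq z i * y i +
      ∑ v, 2 * Real.pi * Complex.I * (S.b v * z (.inr v) + 1) * y (.inr v) +
      ∑ k, ph (S.form k z) * ∑ i, S.A k i * y i := by
  have h1 : ∑ i, Sum.elim (fun _ : D => (0 : ℂ))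
      (fun v : Z => 2 * Real.pi * Complex.I * (S.b v * z (.inr v) + 1)) i * y i =
      ∑ v, 2 * Real.pi * Complex.I * (S.b v * z (.inr v) + 1) * y (.inr v) := by
    rw [Fintype.sum_sum_type]
    simp
  have h2 : ∑ i, (∑ k, S.A k i * ph (S.form k z)) * y i =
      ∑ k, ph (S.form k z) * ∑ i, S.A k i * y i := by
    simp_rw [Finset.sum_mul, Finset.mul_sum]
    rw [Finset.sum_comm]
    exact Finset.sum_congr rfl fun k _ => Finset.sum_congr rfl fun i _ => by ring
  rw [← h1, ← h2, ← Finset.sum_add_distrib, ← Finset.sum_add_distrib]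
  refine Finset.sum_congr rfl fun i _ => ?_
  unfold Dat.dT Dat.dq
  ring

theorem Dat.T_eq (S : Dat D Z K) (z : D ⊕ Z → ℂ) :
    S.T z = S.quad z + ∑ v, wq (S.b v) (z (.inr v)) + ∑ k, Fh (S.form k z) := rfl

/-- the remainder of the second order expansion of `Fh` -/
noncomputable def R2 (u V : ℂ) : ℂ := Fh (u + V) - Fh u - ph u * V - ph' u * V ^ 2 / 2

/-- expansion of the potential along a real direction at a critical point -/
theorem Dat.T_add (S : Dat D Z K) {z : D ⊕ Z → ℂ} (hcr : ∀ i, S.dT z i = 0) (y : D ⊕ Z → ℝ) :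
    S.T (fun i => z i + y i) = S.T z + S.Q2 z y +
      ∑ k, R2 (S.form k z) (∑ i, S.A k i * (y i : ℂ)) := by
  have h0 := S.sum_dT z (fun i => (y i : ℂ))
  have h00 : ∑ i, S.dT z i * (y i : ℂ) = 0 := Finset.sum_eq_zero fun i _ => by rw [hcr i, zero_mul]
  rw [h00] at h0
  rw [S.T_eq, S.T_eq, S.quad_add z fun i => (y i : ℂ)]
  have h1 : ∑ v, wq (S.b v) (z (.inr v) + (y (.inr v) : ℂ)) = ∑ v, wq (S.b v) (z (.inr v)) +
      ∑ v, 2 * Real.pi * Complex.I * (S.b v * z (.inr v) + 1) * (y (.inr v) : ℂ) +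
      ∑ v, Real.pi * Complex.I * S.b v * (y (.inr v) : ℂ) ^ 2 := by
    simp only [← Finset.sum_add_distrib]
    exact Finset.sum_congr rfl fun v _ => wq_add _ _ _
  have h2 : ∑ k, Fh (S.form k fun i => z i + (y i : ℂ)) = ∑ k, Fh (S.form k z) +
      ∑ k, ph (S.form k z) * ∑ i, S.A k i * (y i : ℂ) +
      ∑ k, ph' (S.form k z) / 2 * (∑ i, S.A k i * (y i : ℂ)) ^ 2 +
      ∑ k, R2 (S.form k z) (∑ i, S.A k i * (y i : ℂ)) := by
    simp only [← Finset.sum_add_distrib]
    refine Finset.sum_congr rfl fun k _ => ?_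
    rw [S.form_add' k z fun i => (y i : ℂ)]
    unfold R2
    ring
  rw [h1, h2]
  unfold Dat.Q2
  linear_combination -h0

theorem Dat.isQ_Q2' [DecidableEq D] [DecidableEq Z] (S : Dat D Z K) (z : D ⊕ Z → ℂ) :
    IsQ (S.Q2 z) := by
  unfold Dat.Q2
  refine IsQ.add (IsQ.add ?_ ?_) ?_
  · refine IsQ.sum _ fun i _ => IsQ.sum _ fun j _ => ?_
    have := (isQ_mul (ι := D ⊕ Z) i j).const_mul (S.q i j)
    refine cast (congrArg IsQ (funext fun X => ?_)) this
    ring
  · exact IsQ.sum _ fun v _ => (IsQ.apply_sq (ι := D ⊕ Z) (.inr v)).const_mul _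
  · exact IsQ.sum _ fun k _ => (IsQ.sq fun i => (S.A k i : ℂ)).const_mul _

/-- the interior critical points -/
structure Dat.Crit (S : Dat D Z K) (zs : D ⊕ Z → ℂ) : Prop where
  inner : ∀ k, 0 < (S.form k zs).re ∧ (S.form k zs).re < 1
  pos : ∀ v, 0 < (zs (.inr v)).im
  crit : ∀ i, S.dT zs i = 0
  hess : ∀ X : D ⊕ Z → ℝ, X ≠ 0 → (S.Q2 zs X).re < 0

theorem sin_two_pi_ne {ζ : ℂ} (h : 0 < ζ.im) : Complex.sin (2 * Real.pi * ζ) ≠ 0 := by
  intro h0
  obtain ⟨k, hk⟩ := Complex.sin_eq_zero_iff.mp h0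
  have h1 := congrArg Complex.im hk
  have h2 : (2 * (Real.pi : ℂ) * ζ).im = 2 * Real.pi * ζ.im := by
    rw [show (2 * (Real.pi : ℂ) * ζ) = ((2 * Real.pi : ℝ) : ℂ) * ζ by push_cast; ring,
      Complex.im_ofReal_mul]
  have h3 : ((k : ℂ) * (Real.pi : ℂ)).im = 0 := by
    rw [show ((k : ℂ) * (Real.pi : ℂ)) = ((k * Real.pi : ℝ) : ℂ) by push_cast; ring,
      Complex.ofReal_im]
  rw [h2, h3] at h1
  have : 0 < 2 * Real.pi * ζ.im := by positivity
  linarith only [h1, this]

/-- **Local limit of the integrand.** -/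
theorem Dat.H_lim (hSE : SEok) (S : Dat D Z K) {zs : D ⊕ Z → ℂ} (h : S.Crit zs) :
    ∃ A : ℂ, A ≠ 0 ∧ ∀ X : D ⊕ Z → ℝ, Tendsto (fun s : ℕ =>
      Complex.exp (-((nn s : ℂ) * S.T zs)) *
        S.H (2 * s + 1) (fun i => zs i + ((X i / √(nn s) : ℝ) : ℂ))) atTop
      (𝓝 (A * Complex.exp (S.Q2 zs X))) := by
  refine ⟨Complex.exp (∑ i, S.e i * zs i) * (∏ v, (-4 * Complex.sin (2 * Real.pi * zs (.inr v)))) *
    ∏ k, Complex.exp (S.c k * ph (S.form k zs)), ?_, fun X => ?_⟩
  · refine mul_ne_zero (mul_ne_zero (Complex.exp_ne_zero _) ?_) ?_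
    · exact Finset.prod_ne_zero_iff.mpr fun v _ => mul_ne_zero (by norm_num)
        (sin_two_pi_ne (h.pos v))
    · exact Finset.prod_ne_zero_iff.mpr fun k _ => Complex.exp_ne_zero _
  · have hodd : Tendsto (fun s : ℕ => 2 * s + 1) atTop atTop :=
      tendsto_atTop_mono (fun s => by simp only [id]; omega) tendsto_id
    -- the amplitude
    have t1 : Tendsto (fun s => Complex.exp (∑ i, S.e i * (zs i + (X i : ℂ) / √(nn s)))) atTop
        (𝓝 (Complex.exp (∑ i, S.e i * zs i))) := by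
      refine (Complex.continuous_exp.tendsto _).comp ?_
      refine tendsto_finsetSum _ fun i _ => ?_
      have := (tendsto_div_sqrt_nn (X i)).const_add (zs i)
      rw [add_zero] at this
      exact this.const_mul _
    have t2 := tendsto_finsetProd (Finset.univ : Finset Z)
      fun v _ => (Ec_lim (b := S.b v) (h.pos v) (X (.inr v) : ℂ)).comp hodd
    have t3 := tendsto_finsetProd (Finset.univ : Finset K)
      fun k _ => SE_loc hSE (u := S.form k zs) (h.inner k) (S.c k) (∑ i, S.A k i * (X i : ℂ))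
    have t4 := ((t1.mul_const (Complex.exp (∑ i, ∑ j, S.q i j * X i * X j))).mul t2).mul t3
    have e1 : Complex.exp (∑ i, S.e i * zs i) * Complex.exp (∑ i, ∑ j, S.q i j * X i * X j) *
        (∏ v, (-4 * Complex.sin (2 * Real.pi * zs (.inr v)) *
          Complex.exp (Real.pi * Complex.I * S.b v * (X (.inr v) : ℂ) ^ 2))) *
        (∏ k, Complex.exp (ph' (S.form k zs) / 2 * (∑ i, S.A k i * (X i : ℂ)) ^ 2 +
          S.c k * ph (S.form k zs))) =
        Complex.exp (∑ i, S.e i * zs i) *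
          (∏ v, (-4 * Complex.sin (2 * Real.pi * zs (.inr v)))) *
          (∏ k, Complex.exp (S.c k * ph (S.form k zs))) * Complex.exp (S.Q2 zs X) := by
      unfold Dat.Q2
      rw [Finset.prod_mul_distrib, ← Complex.exp_sum, ← Complex.exp_sum, ← Complex.exp_sum,
        Finset.sum_add_distrib, Complex.exp_add, Complex.exp_add, Complex.exp_add]
      ring
    rw [e1] at t4
    refine t4.congr fun s => ?_
    have hcast : ((2 * s + 1 : ℕ) : ℝ) = nn s := rfl
    have hcastc : ((2 * s + 1 : ℕ) : ℂ) = ((nn s : ℝ) : ℂ) := by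
      rw [← hcast, Complex.ofReal_natCast]
    simp only [Function.comp, hcast, hcastc]
    set y : D ⊕ Z → ℂ := fun i => (X i : ℂ) / √(nn s) with hy
    have ey : (fun i => zs i + ((X i / √(nn s) : ℝ) : ℂ)) = fun i => zs i + y i := by
      funext i
      rw [hy, Complex.ofReal_div]
    rw [ey]
    unfold Dat.H Dat.G
    simp only [hcast, hcastc]
    have hf : ∀ k, S.form k (fun i => zs i + y i) =
        S.form k zs + (∑ i, S.A k i * (X i : ℂ)) / √(nn s) := by
      intro k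
      rw [S.form_add', Finset.sum_div]
      congr 1
      exact Finset.sum_congr rfl fun i _ => by rw [hy]; ring
    simp only [hf]
    rw [Finset.prod_mul_distrib, Finset.prod_mul_distrib, ← Complex.exp_sum, ← Complex.exp_sum]
    have hy2 : ∀ i, y i = (X i : ℂ) / √(nn s) := fun i => rfl
    simp only [hy2]
    have key : -((nn s : ℂ) * S.T zs) + (nn s : ℂ) * S.quad (fun i => zs i + (X i : ℂ) / √(nn s)) =
        ∑ i, ∑ j, S.q i j * X i * X j +
        ∑ v, (-((nn s : ℂ) * (Real.pi * Complex.I * S.b v * zs (.inr v) ^ 2 +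
          2 * Real.pi * Complex.I * zs (.inr v)) + (√(nn s) : ℝ) *
          (2 * Real.pi * Complex.I * (S.b v * zs (.inr v) + 1)) * X (.inr v))) +
        ∑ k, (-((nn s : ℂ) * Fh (S.form k zs)) - √(nn s) *
          (ph (S.form k zs) * ∑ i, S.A k i * (X i : ℂ))) := by
      have h0 := S.sum_dT zs (fun i => (X i : ℂ))
      have h00 : ∑ i, S.dT zs i * (X i : ℂ) = 0 :=
        Finset.sum_eq_zero fun i _ => by rw [h.crit i, zero_mul]
      rw [h00] at h0
      have h1 := S.quad_add zs fun i => (X i : ℂ) / √(nn s)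
      rw [h1, S.T_eq]
      have hq0 := sqrt_nn_ne s
      have hq2 := sqrt_nn_sq s
      have h2 : (nn s : ℂ) * ∑ i, S.dq zs i * ((X i : ℂ) / √(nn s)) =
          √(nn s) * ∑ i, S.dq zs i * (X i : ℂ) := by
        rw [Finset.mul_sum, Finset.mul_sum]
        refine Finset.sum_congr rfl fun i _ => ?_
        rw [← hq2]
        field_simp
      have h3 : (nn s : ℂ) * ∑ i, ∑ j, S.q i j * ((X i : ℂ) / √(nn s)) * ((X j : ℂ) / √(nn s)) =
          ∑ i, ∑ j, S.q i j * X i * X j := by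
        rw [Finset.mul_sum]
        refine Finset.sum_congr rfl fun i _ => ?_
        rw [Finset.mul_sum]
        refine Finset.sum_congr rfl fun j _ => ?_
        rw [← hq2]
        field_simp
      have h4 : ∑ v, (-((nn s : ℂ) * (Real.pi * Complex.I * S.b v * zs (.inr v) ^ 2 +
          2 * Real.pi * Complex.I * zs (.inr v)) + (√(nn s) : ℝ) *
          (2 * Real.pi * Complex.I * (S.b v * zs (.inr v) + 1)) * X (.inr v))) =
          -((nn s : ℂ) * ∑ v, wq (S.b v) (zs (.inr v))) - √(nn s) *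
          ∑ v, 2 * Real.pi * Complex.I * (S.b v * zs (.inr v) + 1) * (X (.inr v) : ℂ) := by
        rw [Finset.mul_sum, Finset.mul_sum, ← Finset.sum_neg_distrib, ← Finset.sum_sub_distrib]
        exact Finset.sum_congr rfl fun v _ => by unfold wq; ring
      have h5 : ∑ k, (-((nn s : ℂ) * Fh (S.form k zs)) - √(nn s) *
          (ph (S.form k zs) * ∑ i, S.A k i * (X i : ℂ))) =
          -((nn s : ℂ) * ∑ k, Fh (S.form k zs)) - √(nn s) *
          ∑ k, ph (S.form k zs) * ∑ i, S.A k i * (X i : ℂ) := by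
        rw [Finset.mul_sum, Finset.mul_sum, ← Finset.sum_neg_distrib, ← Finset.sum_sub_distrib]
      rw [h4, h5]
      linear_combination h2 + h3 - ((√(nn s) : ℝ) : ℂ) * h0
    have key2 : Complex.exp (-((nn s : ℂ) * S.T zs)) *
        Complex.exp ((nn s : ℂ) * S.quad (fun i => zs i + (X i : ℂ) / √(nn s))) =
        Complex.exp (∑ i, ∑ j, S.q i j * X i * X j) *
        Complex.exp (∑ v, (-((nn s : ℂ) * (Real.pi * Complex.I * S.b v * zs (.inr v) ^ 2 +
          2 * Real.pi * Complex.I * zs (.inr v)) + (√(nn s) : ℝ) *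
          (2 * Real.pi * Complex.I * (S.b v * zs (.inr v) + 1)) * X (.inr v)))) *
        Complex.exp (∑ k, (-((nn s : ℂ) * Fh (S.form k zs)) - √(nn s) *
          (ph (S.form k zs) * ∑ i, S.A k i * (X i : ℂ)))) := by
      rw [← Complex.exp_add, ← Complex.exp_add, ← Complex.exp_add, key]
    rw [Complex.exp_add ((nn s : ℂ) * _)]
    linear_combination (-(Complex.exp (∑ i, S.e i * (zs i + (X i : ℂ) / √(nn s))) *
      (∏ v, Ec (2 * s + 1) (S.b v) (zs (.inr v) + (X (.inr v) : ℂ) / √(nn s))) *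
      ∏ k, SE (2 * s + 1) (S.form k zs + (∑ i, S.A k i * (X i : ℂ)) / √(nn s) +
        ((S.c k / nn s : ℝ) : ℂ)))) * key2

/-- **Sharp bound of the integrand near the saddle point.** -/
theorem Dat.H_near (hSE : SEok) (S : Dat D Z K) {zs : D ⊕ Z → ℂ} (h : S.Crit zs) :
    ∃ C c r : ℝ, 0 < C ∧ 0 < c ∧ 0 < r ∧ ∀ᶠ s : ℕ in atTop, ∀ y : D ⊕ Z → ℝ, ∑ i, y i ^ 2 ≤ r →
      ‖S.H (2 * s + 1) (fun i => zs i + (y i : ℂ))‖ ≤
        C * Real.exp (nn s * ((S.T zs).re - c * ∑ i, y i ^ 2)) := by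
  classical
  obtain ⟨c0, hc0, hQ⟩ := IsQ_neg (S.isQ_Q2' zs) h.hess
  set a : K → ℝ := fun k => ∑ i, (S.A k i : ℝ) ^ 2 with ha
  have ha0 : ∀ k, 0 ≤ a k := fun k => Finset.sum_nonneg fun i _ => sq_nonneg _
  have hsa : 0 ≤ ∑ k, a k := Finset.sum_nonneg fun k _ => ha0 k
  have hV : ∀ k (y : D ⊕ Z → ℝ), ‖∑ i, S.A k i * (y i : ℂ)‖ ^ 2 ≤ a k * ∑ i, y i ^ 2 := by
    intro k y
    have e : ∑ i, (S.A k i : ℂ) * (y i : ℂ) = ((∑ i, (S.A k i : ℝ) * y i : ℝ) : ℂ) := by
      push_cast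
      rfl
    rw [e, Complex.norm_real, Real.norm_eq_abs, sq_abs]
    exact Finset.sum_mul_sq_le_sq_mul_sq _ _ _
  have hε0 : 0 < c0 / (2 * (∑ k, a k + 1)) := by positivity
  choose δ hδ hT using fun k => Fh_taylor_loc (show S.form k zs ∈ VOL.strip from h.inner k) hε0
  choose C1 r1 hC1 hr1 _ hSEn using fun k => SE_near hSE
    (show S.form k zs ∈ VOL.strip from h.inner k) (S.c k)
  choose C2 hC2 hEc using fun v => Ec_near (h.pos v) (S.b v)
  obtain ⟨ρ, hρ1, hρ⟩ : ∃ ρ : ℝ, (∀ k, a k * ρ < min (δ k) (r1 k) ^ 2) ∧ 0 < ρ := by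
    have h1 : ∀ᶠ ρ in 𝓝[>] (0 : ℝ), ∀ k, a k * ρ < min (δ k) (r1 k) ^ 2 := by
      rw [eventually_all]
      intro k
      have h2 : Tendsto (fun ρ : ℝ => a k * ρ) (𝓝[>] 0) (𝓝 0) := by
        have : Tendsto (fun ρ : ℝ => a k * ρ) (𝓝 0) (𝓝 (a k * 0)) :=
          (continuous_const.mul continuous_id).tendsto 0
        rw [mul_zero] at this
        exact this.mono_left nhdsWithin_le_nhds
      exact h2.eventually_lt_const (by have := lt_min (hδ k) (hr1 k); positivity)
    exact (h1.and self_mem_nhdsWithin).exists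
  set E : ℝ := ∑ i, ‖S.e i‖ * (‖zs i‖ + (ρ + 1)) with hE
  refine ⟨(∏ v, C2 v) * (Real.exp E * ∏ k, C1 k), c0 / 2, ρ, ?_, by positivity, hρ, ?_⟩
  · exact mul_pos (Finset.prod_pos fun v _ => hC2 v)
      (mul_pos (Real.exp_pos _) (Finset.prod_pos fun k _ => hC1 k))
  filter_upwards [eventually_all.mpr hSEn] with s hs y hy
  have hn := nn_pos s
  have hcast : ((2 * s + 1 : ℕ) : ℝ) = nn s := rfl
  have hcastc : ((2 * s + 1 : ℕ) : ℂ) = ((nn s : ℝ) : ℂ) := by
    rw [← hcast, Complex.ofReal_natCast]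
  have hy0 : 0 ≤ ∑ i, y i ^ 2 := Finset.sum_nonneg fun i _ => sq_nonneg _
  have hVk : ∀ k, ‖∑ i, S.A k i * (y i : ℂ)‖ < min (δ k) (r1 k) := by
    intro k
    have h1 := (hV k y).trans (mul_le_mul_of_nonneg_left hy (ha0 k))
    exact lt_of_pow_lt_pow_left₀ 2 (lt_min (hδ k) (hr1 k)).le (h1.trans_lt (hρ1 k))
  have hyi : ∀ i, ‖(y i : ℂ)‖ ≤ ρ + 1 := by
    intro i
    rw [Complex.norm_real, Real.norm_eq_abs]
    have h1 : y i ^ 2 ≤ ∑ j, y j ^ 2 :=
      Finset.single_le_sum (f := fun j => y j ^ 2) (fun j _ => sq_nonneg _) (Finset.mem_univ i)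
    have h2 := sq_abs (y i)
    nlinarith only [hρ, hy, h1, h2, sq_nonneg (|y i| - 1), abs_nonneg (y i)]
  -- the potential
  have hTb : (S.T (fun i => zs i + (y i : ℂ))).re ≤ (S.T zs).re - c0 / 2 * ∑ i, y i ^ 2 := by
    rw [S.T_add h.crit y, Complex.add_re, Complex.add_re, Complex.re_sum]
    have h1 : ∑ k, (R2 (S.form k zs) (∑ i, S.A k i * (y i : ℂ))).re ≤
        ∑ k, c0 / (2 * (∑ k, a k + 1)) * (a k * ∑ i, y i ^ 2) := by
      refine Finset.sum_le_sum fun k _ => ?_
      refine (Complex.re_le_norm _).trans ((hT k _ ((hVk k).trans_le (min_le_left _ _))).trans ?_)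
      exact mul_le_mul_of_nonneg_left (hV k y) hε0.le
    have h2 : ∑ k, c0 / (2 * (∑ k, a k + 1)) * (a k * ∑ i, y i ^ 2) ≤ c0 / 2 * ∑ i, y i ^ 2 := by
      rw [← Finset.mul_sum, ← Finset.sum_mul, ← mul_assoc]
      apply mul_le_mul_of_nonneg_right _ hy0
      rw [div_mul_eq_mul_div, div_le_div_iff₀ (by positivity) (by norm_num)]
      nlinarith only [hc0]
    have h3 := hQ y
    linarith only [h1, h2, h3]
  -- the amplitude
  have hEb : (∑ i, S.e i * (zs i + (y i : ℂ))).re ≤ E := by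
    refine (Complex.re_le_norm _).trans ((norm_sum_le _ _).trans ?_)
    refine Finset.sum_le_sum fun i _ => ?_
    rw [norm_mul]
    exact mul_le_mul_of_nonneg_left ((norm_add_le _ _).trans (by linarith only [hyi, hyi i])) (norm_nonneg _)
  unfold Dat.H Dat.G
  rw [norm_mul, norm_mul, norm_prod, norm_prod, Complex.norm_exp]
  have b1 : ∏ v, ‖Ec (2 * s + 1) (S.b v) (zs (.inr v) + (y (.inr v) : ℂ))‖ ≤
      ∏ v, C2 v * Real.exp (nn s * (wq (S.b v) (zs (.inr v) + (y (.inr v) : ℂ))).re) :=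
    Finset.prod_le_prod (fun v _ => norm_nonneg _) fun v _ => hEc v s (y (.inr v))
  have b2 : ∏ k, ‖SE (2 * s + 1) (S.form k (fun i => zs i + (y i : ℂ)) +
      ((S.c k / ((2 * s + 1 : ℕ) : ℝ) : ℝ) : ℂ))‖ ≤
      ∏ k, C1 k * Real.exp (nn s * (Fh (S.form k (fun i => zs i + (y i : ℂ)))).re) := by
    refine Finset.prod_le_prod (fun k _ => norm_nonneg _) fun k _ => ?_
    rw [S.form_add' k zs fun i => (y i : ℂ), hcast]
    exact hs k _ ((hVk k).le.trans (min_le_right _ _))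
  have b3 : (((2 * s + 1 : ℕ) : ℂ) * S.quad (fun i => zs i + (y i : ℂ)) +
      ∑ i, S.e i * (zs i + (y i : ℂ))).re ≤
      nn s * (S.quad (fun i => zs i + (y i : ℂ))).re + E := by
    rw [Complex.add_re, hcastc, Complex.re_ofReal_mul]
    linarith only [hEb]
  refine (mul_le_mul b1 (mul_le_mul (Real.exp_le_exp.mpr b3) b2
    (Finset.prod_nonneg fun k _ => norm_nonneg _) (Real.exp_pos _).le)
    (by positivity) (Finset.prod_nonneg fun v _ => by have := hC2 v; positivity)).trans ?_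
  have e1 : (∏ v, C2 v * Real.exp (nn s * (wq (S.b v) (zs (.inr v) + (y (.inr v) : ℂ))).re)) *
      (Real.exp (nn s * (S.quad (fun i => zs i + (y i : ℂ))).re + E) *
      ∏ k, C1 k * Real.exp (nn s * (Fh (S.form k (fun i => zs i + (y i : ℂ)))).re)) =
      (∏ v, C2 v) * (Real.exp E * ∏ k, C1 k) *
        Real.exp (nn s * (S.T (fun i => zs i + (y i : ℂ))).re) := by
    rw [Finset.prod_mul_distrib, Finset.prod_mul_distrib, ← Real.exp_sum, ← Real.exp_sum,
      Real.exp_add, S.T_eq, Complex.add_re, Complex.add_re, Complex.re_sum, Complex.re_sum,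
      mul_add, mul_add, Real.exp_add, Real.exp_add, Finset.mul_sum, Finset.mul_sum]
    ring
  rw [e1]
  have hCpos : 0 < (∏ v, C2 v) * (Real.exp E * ∏ k, C1 k) :=
    mul_pos (Finset.prod_pos fun v _ => hC2 v)
      (mul_pos (Real.exp_pos _) (Finset.prod_pos fun k _ => hC1 k))
  exact mul_le_mul_of_nonneg_left (Real.exp_le_exp.mpr (mul_le_mul_of_nonneg_left hTb hn.le))
    hCpos.le

/-- **Laplace asymptotics of the main integral** (paths and boxes depending on `n`). -/
theorem Dat.lap (hSE : SEok) (S : Dat D Z K) {zs : D ⊕ Z → ℂ} (h : S.Crit zs)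
    {z d : ℕ → D ⊕ Z → ℝ → ℂ} (hG : ∀ n, Measurable (S.G n)) (hmz : ∀ s i, Measurable (z s i))
    (hmd : ∀ s i, Measurable (d s i)) {rp : ℝ} (hrp : 0 < rp)
    (hst : ∀ᶠ s in atTop, ∀ i, ∀ x : ℝ, |x - (zs i).re| < rp →
      z s i x = zs i + ((x - (zs i).re : ℝ) : ℂ) ∧ d s i x = 1)
    {B : ℕ → Set (D ⊕ Z → ℝ)} (hB : ∀ s, MeasurableSet (B s)) {R : ℝ}
    (hR : ∀ s, ∀ x ∈ B s, ∀ i, |x i| ≤ R)
    {U : Set (D ⊕ Z → ℝ)} (hU : U ∈ 𝓝 fun i => (zs i).re) (hUB : ∀ᶠ s in atTop, U ⊆ B s)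
    (far : ∀ r : ℝ, 0 < r → ∃ C κ δ : ℝ, 0 < δ ∧ ∀ᶠ s in atTop, ∀ x ∈ B s,
      r ≤ ∑ i, (x i - (zs i).re) ^ 2 →
      ‖S.H (2 * s + 1) (fun i => z s i (x i)) * ∏ i, d s i (x i)‖ ≤
        C * nn s ^ κ * Real.exp (nn s * ((S.T zs).re - δ))) :
    ∃ L : ℂ, L ≠ 0 ∧ Tendsto (fun s => ((nn s ^ ((Fintype.card (D ⊕ Z) : ℝ) / 2) : ℝ) : ℂ) *
      Complex.exp (-((nn s : ℂ) * S.T zs)) *
      ∫ x in B s, S.H (2 * s + 1) (fun i => z s i (x i)) * ∏ i, d s i (x i)) atTop (𝓝 L) := by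
  classical
  set x0 : D ⊕ Z → ℝ := fun i => (zs i).re with hx0
  obtain ⟨C, c, r, hC, hc0, hr, hnear⟩ := S.H_near hSE h
  obtain ⟨A, hA, hlim⟩ := S.H_lim hSE h
  set f : ℕ → (D ⊕ Z → ℝ) → ℂ := fun s x =>
    S.H (2 * s + 1) (fun i => z s i (x i)) * ∏ i, d s i (x i) with hf
  -- a radius
  obtain ⟨ρ, hρ1, hρ⟩ : ∃ ρ : ℝ, (ρ ≤ r ∧ ρ ≤ rp ^ 2) ∧ 0 < ρ :=
    ⟨min r (rp ^ 2), ⟨min_le_left _ _, min_le_right _ _⟩, lt_min hr (by positivity)⟩
  have hstr : ∀ᶠ s in atTop, ∀ x : D ⊕ Z → ℝ, sq x0 x < ρ → ∀ i,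
      z s i (x i) = zs i + ((x i - x0 i : ℝ) : ℂ) ∧ d s i (x i) = 1 := by
    filter_upwards [hst] with s hs x hx i
    have h1 : (x i - x0 i) ^ 2 ≤ sq x0 x :=
      Finset.single_le_sum (f := fun j => (x j - x0 j) ^ 2) (fun j _ => sq_nonneg _)
        (Finset.mem_univ i)
    exact hs i (x i) (abs_lt_of_sq_lt_sq ((h1.trans_lt hx).trans_le hρ1.2) hrp.le)
  -- the integrand
  set F : ℕ → (D ⊕ Z → ℝ) → ℂ := fun s => (B s).indicator (f s) with hF
  have hFs : ∀ s, F s = (B s).indicator (f s) := fun _ => rfl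
  have hm : ∀ s, Measurable (F s) := by
    intro s
    refine Measurable.indicator ?_ (hB s)
    have h1 : Measurable fun x : D ⊕ Z → ℝ => S.G (2 * s + 1) (fun i => z s i (x i)) :=
      (hG _).comp (measurable_pi_lambda _ fun i => (hmz s i).comp (measurable_pi_apply _))
    have h2 : Measurable fun x : D ⊕ Z → ℝ =>
        ∏ v, Ec (2 * s + 1) (S.b v) (z s (.inr v) (x (.inr v))) :=
      Finset.measurable_prod _ fun v _ =>
        (measurable_Ec _ _).comp ((hmz s (.inr v)).comp (measurable_pi_apply _))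
    have h3 : Measurable fun x : D ⊕ Z → ℝ => ∏ i, d s i (x i) :=
      Finset.measurable_prod _ fun i _ => (hmd s i).comp (measurable_pi_apply _)
    exact (h2.mul h1).mul h3
  -- the domain
  set R' : ℝ := |R| + ∑ i, |x0 i| + 1 with hR'
  have hxR : ∀ i, |x0 i| ≤ ∑ j, |x0 j| := fun i =>
    Finset.single_le_sum (f := fun j => |x0 j|) (fun j _ => abs_nonneg _) (Finset.mem_univ i)
  have hR'0 : 0 ≤ R' := by
    have : 0 ≤ ∑ j, |x0 j| := Finset.sum_nonneg fun j _ => abs_nonneg _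
    positivity
  set S0 : Set (D ⊕ Z → ℝ) := Set.univ.pi fun _ => Set.Icc (-R') R' with hS0
  have hS0m : MeasurableSet S0 := MeasurableSet.univ_pi fun _ => measurableSet_Icc
  have hS0n : S0 ∈ 𝓝 x0 := by
    refine set_pi_mem_nhds Set.finite_univ fun i _ => ?_
    have h1 := abs_le.mp (hxR i)
    have h2 := abs_nonneg R
    exact Icc_mem_nhds (by rw [hR']; linarith only [h1, h2, h1.1]) (by rw [hR']; linarith only [h1, h2, h1.2])
  have hBS : ∀ s, B s ⊆ S0 := by
    intro s x hx i _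
    have h1 := abs_le.mp ((hR s x hx i).trans (le_abs_self R))
    have h2 : 0 ≤ ∑ j, |x0 j| := Finset.sum_nonneg fun j _ => abs_nonneg _
    exact ⟨by rw [hR']; linarith only [h1, h2, h1.1], by rw [hR']; linarith only [h1, h2, h1.2]⟩
  have hSR : ∀ x ∈ S0, sq x0 x ≤ (Fintype.card (D ⊕ Z) : ℝ) * (2 * R') ^ 2 := by
    intro x hx
    unfold sq
    calc ∑ i, (x i - x0 i) ^ 2 ≤ ∑ _i : D ⊕ Z, (2 * R') ^ 2 := by
          refine Finset.sum_le_sum fun i _ => ?_
          have h1 := hx i (Set.mem_univ i)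
          have h2 := abs_le.mp ((hxR i).trans (show ∑ j, |x0 j| ≤ R' by
            rw [hR']; linarith only [abs_nonneg R]))
          exact sq_le_sq' (by linarith only [h2, h1, h1.1, h2.2]) (by linarith only [h2, h1, h1.2, h2.1])
      _ = (Fintype.card (D ⊕ Z) : ℝ) * (2 * R') ^ 2 := by
          rw [Finset.sum_const, nsmul_eq_mul, Finset.card_univ]
  obtain ⟨C', κ', δ', hδ', hfar⟩ := far ρ hρ
  have hcore := core_lim (ι := D ⊕ Z) (S := S0) (U := {x | sq x0 x < ρ}) hS0m hS0n hSR (F := F) hm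
    (κ := 0) (Ψ := S.T zs) ⟨C, c, hc0, by
      filter_upwards [hnear, hstr] with s hs hs1 x hx hxU
      rw [Real.rpow_zero, mul_one, hFs s]
      by_cases hxB : x ∈ B s
      · rw [Set.indicator_of_mem hxB]
        have h1 := hs1 x hxU
        have h2 : f s x = S.H (2 * s + 1) (fun i => zs i + ((x i - x0 i : ℝ) : ℂ)) := by
          rw [hf]
          simp only
          rw [Finset.prod_eq_one fun i _ => (h1 i).2, mul_one]
          congr 1
          funext i
          exact (h1 i).1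
        rw [h2]
        have h3 : ∑ i, (x i - x0 i) ^ 2 ≤ r := (le_of_lt hxU).trans hρ1.1
        exact hs (fun i => x i - x0 i) h3
      · rw [Set.indicator_of_notMem hxB, norm_zero]
        positivity⟩
    ⟨|C'|, κ', δ', hδ', by
      filter_upwards [hfar] with s hs x hx hxU
      have hn := nn_pos s
      rw [hFs s]
      by_cases hxB : x ∈ B s
      · rw [Set.indicator_of_mem hxB]
        refine (hs x hxB (not_lt.mp hxU)).trans ?_
        gcongr
        exact le_abs_self C'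
      · rw [Set.indicator_of_notMem hxB, norm_zero]
        positivity⟩
    hA (S.isQ_Q2' zs) (fun X => by
      rw [neg_zero]
      have h1 := hlim X
      refine h1.congr' ?_
      have h2 : Tendsto (fun s => fun i => x0 i + X i / √(nn s)) atTop (𝓝 x0) := by
        rw [tendsto_pi_nhds]
        intro i
        have h3 : Tendsto (fun s => X i / √(nn s)) atTop (𝓝 0) :=
          tendsto_sqrt_nn.const_div_atTop (X i)
        simpa using h3.const_add (x0 i)
      have h4 : {x | sq x0 x < ρ} ∈ 𝓝 x0 := by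
        have hcs : Continuous fun x : D ⊕ Z → ℝ => sq x0 x := by
          unfold sq
          fun_prop
        refine hcs.continuousAt.eventually_lt continuousAt_const ?_
        simp [sq, hρ]
      filter_upwards [h2.eventually_mem hU, h2.eventually_mem h4, hUB, hstr] with s hs hs2 hPs hs1
      rw [Real.rpow_zero, Complex.ofReal_one, one_mul, hFs s, Set.indicator_of_mem (hPs hs), hf]
      have h5 := hs1 _ hs2
      simp only
      rw [Finset.prod_eq_one fun i _ => (h5 i).2, mul_one]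
      congr 2
      funext i
      rw [(h5 i).1, add_sub_cancel_left])
  obtain ⟨L, hL, hLt⟩ := hcore
  refine ⟨L, hL, ?_⟩
  refine hLt.congr fun s => ?_
  rw [sub_zero, hFs s]
  congr 1
  rw [setIntegral_indicator (hB s), Set.inter_eq_self_of_subset_right (hBS s)]

end Pool.Agent.Work.MP_b30479_gt.G2
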