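import Pool.Agent.Work.MP_b30479_gt.G2.Compact
import Pool.Agent.Work.MP_b30479_gt.G2.Grow
import Pool.Agent.Work.MP_b30479_gt.G2.GHol
import Pool.Agent.Work.MP_b30479_gt.G2.Graph
import Pool.Agent.Work.MP_b30479_gt.G2.Lap

/-!
# Asymptotics of the main integral
-/

namespace Pool.Agent.Work.MP_b30479_gt.G2

open Finset VOL MeasureTheory Filter Topology

variable {D Z K : Type} [Fintype D] [Fintype Z] [Fintype K] [DecidableEq D]

theorem seOk : SEok := fun _ hn _ hu => SE_eq_exp hn hu.1 hu.2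

/-! ### paths of level `n` as functions of one parameter each -/

/-- the paths of level `n` -/
noncomputable def Par.zz (P : Par D) (zs : D ⊕ Z → ℂ) (n : ℕ) : D ⊕ Z → ℝ → ℂ :=
  Sum.elim (fun i x => P.ga n (zs (.inl i)).im i x) fun v x => LT.zt (zs (.inr v)).im x

/-- their derivatives -/
noncomputable def Par.dd (P : Par D) (zs : D ⊕ Z → ℂ) (n : ℕ) : D ⊕ Z → ℝ → ℂ :=
  Sum.elim (fun i x => 1 + (((zs (.inl i)).im * deriv (tr (ea n) (P.eb n i) (P.cl i) (P.cr i)) x : ℝ) : ℂ)
    * Complex.I) fun v x => LT.dzt (zs (.inr v)).im x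

/-- the box of the parameters -/
def Par.bb (P : Par D) (n : ℕ) : Set (D ⊕ Z → ℝ) :=
  Set.univ.pi (Sum.elim (fun i => Set.Icc (ea n) (P.eb n i)) fun _ => Set.Ioo (-(1 / 2)) (1 / 2))

theorem measurableSet_bb (P : Par D) (n : ℕ) : MeasurableSet (P.bb (Z := Z) n) := by
  refine MeasurableSet.univ_pi fun i => ?_
  rcases i with i | v
  · exact measurableSet_Icc
  · exact measurableSet_Ioo

theorem ea_eq {n : ℕ} : ea n = 1 / (2 * n) := by
  unfold ea
  push_cast
  rw [zero_add, div_div]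

theorem ea_pos {n : ℕ} (hn : 1 ≤ n) : 0 < ea n := by
  have : (0 : ℝ) < n := by exact_mod_cast hn
  rw [ea_eq]
  positivity

omit [Fintype D] [DecidableEq D] in
theorem eb_le (P : Par D) {n : ℕ} (hn : 2 ≤ n) (i : D) : P.eb n i ≤ 1 - 1 / n := by
  have hn0 : (0 : ℝ) < n := by
    have : 0 < n := by omega
    exact_mod_cast this
  have h1 : P.m n i ≤ n - 2 := min_le_right _ _
  have h2 : (P.m n i : ℝ) ≤ n - 2 := by
    have : (P.m n i : ℝ) ≤ ((n - 2 : ℕ) : ℝ) := by exact_mod_cast h1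
    rw [Nat.cast_sub hn] at this
    exact_mod_cast this
  unfold Par.eb
  rw [div_le_iff₀ hn0]
  have : (1 - 1 / (n : ℝ)) * n = n - 1 := by field_simp
  linarith only [h2, this]

omit [Fintype D] [DecidableEq D] in
theorem eb_ge (P : Par D) {n : ℕ} (hn : 8 ≤ n) {i : D} (hX : 0 < P.XM i ∧ P.XM i ≤ 1) :
    P.XM i - 3 / (2 * n) ≤ P.eb n i := by
  have hn8 : (8 : ℝ) ≤ n := by exact_mod_cast hn
  have hn0 : (0 : ℝ) < n := by linarith only [hn8]
  have hm2 : P.XM i * n - 2 ≤ (P.m n i : ℝ) := by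
    unfold Par.m
    rw [Nat.cast_min]
    apply le_min
    · have := Nat.lt_floor_add_one (P.XM i * n)
      linarith only [this]
    · rw [Nat.cast_sub (by omega)]
      push_cast
      nlinarith only [hX, hX.2]
  unfold Par.eb
  rw [le_div_iff₀ hn0]
  have : (P.XM i - 3 / (2 * n)) * n = P.XM i * n - 3 / 2 := by field_simp
  linarith only [hm2, this]

theorem th_le_one1 (σ : ℝ) : LT.th σ ≤ 1 := min_le_left _ _

theorem th_nonneg' {σ : ℝ} (h : |σ| ≤ 1 / 2) : 0 ≤ LT.th σ := by
  unfold LT.th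
  exact le_min zero_le_one (by linarith only [h])

omit [Fintype D] [Fintype Z] [DecidableEq D] in
theorem zz_im_le (P : Par D) (zs : D ⊕ Z → ℂ) (n : ℕ) {Y : ℝ} (hY : ∀ i, |(zs i).im| ≤ Y)
    {x : D ⊕ Z → ℝ} (hx : x ∈ P.bb n) (i : D ⊕ Z) : |(P.zz zs n i (x i)).im| ≤ Y := by
  rcases i with i | v
  · have h1 : (P.zz zs n (.inl i) (x (.inl i))).im =
        (zs (.inl i)).im * tr (ea n) (P.eb n i) (P.cl i) (P.cr i) (x (.inl i)) := pt_im _ _ _ _ _ _
    rw [h1, abs_mul, abs_of_nonneg (tr_nonneg _ _ _ _ _)]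
    exact (mul_le_of_le_one_right (abs_nonneg _) (tr_le_one _ _ _ _ _)).trans (hY _)
  · have h2 : x (.inr v) ∈ Set.Ioo (-(1 / 2) : ℝ) (1 / 2) := hx (.inr v) (Set.mem_univ _)
    have h3 : |x (.inr v)| ≤ 1 / 2 := abs_le.mpr ⟨h2.1.le, h2.2.le⟩
    have h1 : (P.zz zs n (.inr v) (x (.inr v))).im = (zs (.inr v)).im * LT.th (x (.inr v)) := by
      unfold Par.zz LT.zt
      simp
    rw [h1, abs_mul, abs_of_nonneg (th_nonneg' h3)]
    exact (mul_le_of_le_one_right (abs_nonneg _) (th_le_one1 _)).trans (hY _)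

omit [Fintype D] [Fintype Z] [DecidableEq D] in
theorem zz_re (P : Par D) (zs : D ⊕ Z → ℂ) (n : ℕ) (i : D ⊕ Z) (x : ℝ) :
    (P.zz zs n i x).re = x := by
  rcases i with i | v
  · exact pt_re _ _ _ _ _ _
  · unfold Par.zz LT.zt
    simp

omit [Fintype D] [Fintype Z] [DecidableEq D] in
theorem zz_inBox (P : Par D) (zs : D ⊕ Z → ℂ) {n : ℕ} (hn : 2 ≤ n) {x : D ⊕ Z → ℝ}
    (hx : x ∈ P.bb n) : InBox n fun i => P.zz zs n i (x i) := by
  refine ⟨fun i => ?_, fun i => ?_, fun v => ?_⟩
  · rw [zz_re]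
    have h1 : x (.inl i) ∈ Set.Icc (ea n) (P.eb n i) := hx (.inl i) (Set.mem_univ _)
    exact (ea_pos (by omega)).le.trans h1.1
  · rw [zz_re]
    have h1 : x (.inl i) ∈ Set.Icc (ea n) (P.eb n i) := hx (.inl i) (Set.mem_univ _)
    exact h1.2.trans (eb_le P hn i)
  · rw [zz_re]
    have h2 : x (.inr v) ∈ Set.Ioo (-(1 / 2) : ℝ) (1 / 2) := hx (.inr v) (Set.mem_univ _)
    exact abs_lt.mpr ⟨h2.1, h2.2⟩

theorem odd_nn (s : ℕ) : Odd (2 * s + 1) := ⟨s, rfl⟩

/-- the weighted integrand -/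
noncomputable def Dat.ff (S : Dat D Z K) (P : Par D) (zs : D ⊕ Z → ℂ) (n : ℕ) (x : D ⊕ Z → ℝ) : ℂ :=
  S.H n (fun i => P.zz zs n i (x i)) * ∏ i, P.dd zs n i (x i)

/-- growth of the integrand -/
theorem ff_growth {S : Dat D Z K} (hS : S.Ok) {P : Par D} (hcl : ∀ i, 0 < P.cl i)
    (hcr : ∀ i, 0 < P.cr i) {zs : D ⊕ Z → ℂ} (hz : ∀ v, 0 < (zs (.inr v)).im) :
    ∃ (C : ℝ) (k : ℕ), 0 ≤ C ∧ ∀ s : ℕ, 2 ≤ s → ∀ x ∈ P.bb (2 * s + 1),
      ‖S.ff P zs (2 * s + 1) x‖ ≤ C * (nn s) ^ k *
        Real.exp (nn s * S.V fun i => P.zz zs (2 * s + 1) i (x i)) := by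
  set Y : ℝ := ∑ i, |(zs i).im| with hY
  have hYi : ∀ i, |(zs i).im| ≤ Y := fun i =>
    Finset.single_le_sum (f := fun i => |(zs i).im|) (fun _ _ => abs_nonneg _) (Finset.mem_univ i)
  have hY0 : 0 ≤ Y := Finset.sum_nonneg fun _ _ => abs_nonneg _
  obtain ⟨C, k, hC, hG⟩ := G_growth hS hY0
  choose CE hCE hE using fun v => EE_growth (S.b v) (hz v)
  set L : D → ℝ := fun i => 1 + (|(zs (.inl i)).im| / P.cl i + |(zs (.inl i)).im| / P.cr i) with hL
  have hL0 : ∀ i, 0 ≤ L i := fun i => by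
    have := hcl i
    have := hcr i
    positivity
  refine ⟨(∏ v, CE v) * C * ∏ i, L i, k, ?_, fun s hs x hx => ?_⟩
  · exact mul_nonneg (mul_nonneg (Finset.prod_nonneg fun v _ => hCE v) hC.le)
      (Finset.prod_nonneg fun i _ => hL0 i)
  have hcast : ((2 * s + 1 : ℕ) : ℝ) = nn s := rfl
  set z : D ⊕ Z → ℂ := fun i => P.zz zs (2 * s + 1) i (x i) with hzdef
  have h1 := hG (2 * s + 1) z (by omega) (zz_inBox P zs (by omega) hx)
    (fun i => zz_im_le P zs _ hYi hx i)
  rw [hcast] at h1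
  -- the weights of the discrete variables
  have h2 : ∀ i : D, ‖P.dd zs (2 * s + 1) (.inl i) (x (.inl i))‖ ≤ L i := by
    intro i
    unfold Par.dd
    simp only [Sum.elim_inl]
    refine (norm_add_le _ _).trans ?_
    rw [norm_one, norm_mul, Complex.norm_I, mul_one, Complex.norm_real, Real.norm_eq_abs]
    have h3 := slope_le (a := ea (2 * s + 1)) (b := P.eb (2 * s + 1) i) (t := (zs (.inl i)).im)
      (L := |(zs (.inl i)).im| / P.cl i + |(zs (.inl i)).im| / P.cr i) (hcl i) (hcr i)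
      (by have := div_nonneg (abs_nonneg (zs (.inl i)).im) (hcr i).le; linarith only [this])
      (by have := div_nonneg (abs_nonneg (zs (.inl i)).im) (hcl i).le; linarith only [this]) (x (.inl i))
    have h4 : (VC.trap (ea (2 * s + 1)) (P.eb (2 * s + 1) i) (P.cl i) (P.cr i)) =
        tr (ea (2 * s + 1)) (P.eb (2 * s + 1) i) (P.cl i) (P.cr i) := by
      funext x
      rfl
    rw [h4] at h3
    rw [hL]
    linarith only [h3]
  -- the weights of the continuous variables
  have h3 : ∀ v : Z, ‖LT.Ec (2 * s + 1) (S.b v) (z (.inr v)) *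
      P.dd zs (2 * s + 1) (.inr v) (x (.inr v))‖ ≤ CE v * Real.exp (nn s *
      (Real.pi * Complex.I * S.b v * z (.inr v) ^ 2 + 2 * Real.pi * Complex.I * z (.inr v)).re) := by
    intro v
    have h4 : x (.inr v) ∈ Set.Ioo (-(1 / 2) : ℝ) (1 / 2) := hx (.inr v) (Set.mem_univ _)
    have h5 := hE v (2 * s + 1) (by omega) (odd_nn s) (x (.inr v))
      (abs_le.mpr ⟨h4.1.le, h4.2.le⟩)
    rw [hcast] at h5
    exact h5
  have e1 : S.ff P zs (2 * s + 1) x = (∏ v, (LT.Ec (2 * s + 1) (S.b v) (z (.inr v)) *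
      P.dd zs (2 * s + 1) (.inr v) (x (.inr v)))) * S.G (2 * s + 1) z *
      ∏ i : D, P.dd zs (2 * s + 1) (.inl i) (x (.inl i)) := by
    unfold Dat.ff Dat.H
    rw [Fintype.prod_sum_type, Finset.prod_mul_distrib]
    ring
  rw [e1, norm_mul, norm_mul, norm_prod, norm_prod]
  have b1 : ∏ v, ‖LT.Ec (2 * s + 1) (S.b v) (z (.inr v)) *
      P.dd zs (2 * s + 1) (.inr v) (x (.inr v))‖ ≤ ∏ v, (CE v * Real.exp (nn s *
      (Real.pi * Complex.I * S.b v * z (.inr v) ^ 2 + 2 * Real.pi * Complex.I * z (.inr v)).re)) :=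
    Finset.prod_le_prod (fun v _ => norm_nonneg _) fun v _ => h3 v
  have b2 : ∏ i : D, ‖P.dd zs (2 * s + 1) (.inl i) (x (.inl i))‖ ≤ ∏ i, L i :=
    Finset.prod_le_prod (fun v _ => norm_nonneg _) fun v _ => h2 v
  have hp1 : 0 ≤ ∏ v, (CE v * Real.exp (nn s *
      (Real.pi * Complex.I * S.b v * z (.inr v) ^ 2 + 2 * Real.pi * Complex.I * z (.inr v)).re)) :=
    Finset.prod_nonneg fun v _ => mul_nonneg (hCE v) (Real.exp_pos _).le
  have hn := nn_pos s
  refine (mul_le_mul (mul_le_mul b1 h1 (norm_nonneg _) hp1) b2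
    (Finset.prod_nonneg fun i _ => norm_nonneg _) (mul_nonneg hp1 (by positivity))).trans ?_
  refine le_of_eq ?_
  rw [S.V_eq, mul_add, Real.exp_add, Finset.prod_mul_distrib, ← Real.exp_sum, ← Finset.mul_sum]
  unfold Dat.W
  ring

/-- the points of the main paths are near admissible points -/
theorem zz_near {S : Dat D Z K} {P : Par D} {nb : Finset D → Finset (D ⊕ Z)} {zs : D ⊕ Z → ℂ}
    (h : Sadl S P nb zs) {η : ℝ} (hη : 0 < η) : ∀ᶠ s : ℕ in atTop, ∀ x ∈ P.bb (2 * s + 1),
    ∃ z : D ⊕ Z → ℂ, Adm S P zs ∅ ∅ z 0 ∧ ∀ i, ‖P.zz zs (2 * s + 1) i (x i) - z i‖ ≤ η := by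
  choose C hC using fun i => On_near (P := P) (i := i)
    ⟨(h.par i).1, (h.par i).2.1, (h.par i).2.2.1, (h.par i).2.2.2.1⟩
  have hlim : ∀ i : D, Tendsto (fun s : ℕ => C i * (1 + |(zs (.inl i)).im|) / nn s) atTop (𝓝 0) :=
    fun i => tendsto_nn.const_div_atTop _
  filter_upwards [eventually_all.mpr fun i => (hlim i).eventually_lt_const hη,
    eventually_ge_atTop 4] with s hs hs4 x hx
  have hx1 : ∀ i : D, ∃ x' : ℝ, 0 ≤ x' ∧ x' ≤ P.XM i ∧
      ‖P.ga (2 * s + 1) (zs (.inl i)).im i (x (.inl i)) -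
        pt 0 (P.XM i) (P.cl i) (P.cr i) (zs (.inl i)).im x'‖ ≤ η := by
    intro i
    have h1 : x (.inl i) ∈ Set.Icc (ea (2 * s + 1)) (P.eb (2 * s + 1) i) :=
      hx (.inl i) (Set.mem_univ _)
    obtain ⟨x', a1, a2, a3, -⟩ := hC i (2 * s + 1) (zs (.inl i)).im (x (.inl i)) (by omega) h1.1 h1.2
    exact ⟨x', a1, a2, a3.trans (hs i).le⟩
  choose x' hx0 hxM hxn using hx1
  refine ⟨Sum.elim (fun i => pt 0 (P.XM i) (P.cl i) (P.cr i) (zs (.inl i)).im (x' i))
    fun v => LT.zt (zs (.inr v)).im (x (.inr v)), ?_, fun i => ?_⟩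
  · refine ⟨by simp, by simp, by simp, fun i _ => ?_, fun v _ => ?_, fun k h1 h2 => ?_⟩
    · exact ⟨x' i, hx0 i, hxM i, Or.inl ⟨rfl, rfl⟩⟩
    · have h1 : x (.inr v) ∈ Set.Ioo (-(1 / 2) : ℝ) (1 / 2) := hx (.inr v) (Set.mem_univ _)
      exact ⟨x (.inr v), abs_le.mpr ⟨h1.1.le, h1.2.le⟩, rfl⟩
    · have h3 : ∀ i : D ⊕ Z, S.A k i = 0 := by
        intro i
        rcases i with i | v
        · by_contra hne
          exact absurd (h2 i hne) (Finset.notMem_empty _)
        · exact h1 v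
      have h4 : ∀ z : D ⊕ Z → ℂ, S.form k z = S.a k := by
        intro z
        unfold Dat.form
        simp [h3]
      rw [h4]
      have h5 := (h.inner k).2
      rw [h4] at h5
      exact h5.le
  · rcases i with i | v
    · exact hxn i
    · have : P.zz zs (2 * s + 1) (.inr v) (x (.inr v)) -
          LT.zt (zs (.inr v)).im (x (.inr v)) = 0 := sub_self _
      simp only [Sum.elim_inr]
      rw [this, norm_zero]
      exact hη.le

/-- **far bound** -/
theorem ff_far {S : Dat D Z K} (hS : S.Ok) {P : Par D} {nb : Finset D → Finset (D ⊕ Z)}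
    {zs : D ⊕ Z → ℂ} (h : Sadl S P nb zs) {r : ℝ} (hr : 0 < r) : ∃ C κ δ : ℝ, 0 < δ ∧
    ∀ᶠ s : ℕ in atTop, ∀ x ∈ P.bb (2 * s + 1), r ≤ ∑ i, (x i - (zs i).re) ^ 2 →
      ‖S.ff P zs (2 * s + 1) x‖ ≤ C * nn s ^ κ * Real.exp (nn s * ((S.T zs).re - δ)) := by
  obtain ⟨C, k, hC, hgr⟩ := ff_growth hS (fun i => (h.par i).2.2.1) (fun i => (h.par i).2.2.2.1)
    (fun v => (h.flatZ v).2)
  set N : ℝ := (Fintype.card (D ⊕ Z) : ℝ) with hN
  set r' : ℝ := √(r / (N + 1)) with hr'
  have hN0 : 0 ≤ N := Nat.cast_nonneg _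
  have hr'0 : 0 < r' := Real.sqrt_pos.mpr (by positivity)
  obtain ⟨δ, hδ, η, hη, hdom⟩ := dom_main h (half_pos hr'0)
  refine ⟨C, k, δ, hδ, ?_⟩
  filter_upwards [zz_near h (lt_min hη (half_pos hr'0)), eventually_ge_atTop 2] with s hs hs2 x hx hxr
  obtain ⟨z, hz, hzn⟩ := hs x hx
  -- one coordinate is far
  have hfar : ∃ i, r' ≤ |x i - (zs i).re| := by
    by_contra hcon
    push Not at hcon
    have h1 : ∑ i, (x i - (zs i).re) ^ 2 ≤ ∑ _i : D ⊕ Z, r / (N + 1) := by
      refine Finset.sum_le_sum fun i _ => ?_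
      have h2 := hcon i
      rw [← sq_abs]
      have h3 : r' ^ 2 = r / (N + 1) := Real.sq_sqrt (by positivity)
      rw [← h3]
      exact pow_le_pow_left₀ (abs_nonneg _) h2.le 2
    rw [Finset.sum_const, nsmul_eq_mul, Finset.card_univ, ← hN] at h1
    have h2 : N * (r / (N + 1)) < r := by
      rw [mul_div_assoc', div_lt_iff₀ (by positivity)]
      nlinarith only [hr]
    linarith only [hxr, h1, h2]
  obtain ⟨i, hi⟩ := hfar
  have hzi : r' / 2 ≤ ‖z i - zs i‖ := by
    have h1 : (P.zz zs (2 * s + 1) i (x i) - zs i).re = x i - (zs i).re := by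
      rw [Complex.sub_re, zz_re]
    have h2 := Complex.abs_re_le_norm (P.zz zs (2 * s + 1) i (x i) - zs i)
    rw [h1] at h2
    have h3 : P.zz zs (2 * s + 1) i (x i) - zs i =
        (P.zz zs (2 * s + 1) i (x i) - z i) + (z i - zs i) := by ring
    rw [h3] at h2
    have h4 := norm_add_le (P.zz zs (2 * s + 1) i (x i) - z i) (z i - zs i)
    have h5 := (hzn i).trans (min_le_right _ _)
    linarith only [hi, h2, h4, h5]
  have hV := hdom z (fun i => P.zz zs (2 * s + 1) i (x i)) 0 0 hz (Or.inl ⟨i, hzi⟩)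
    (fun i => (hzn i).trans (min_le_left _ _)) (by simp [hη.le])
  simp only [Pi.zero_apply, Finset.sum_const_zero, mul_zero, sub_zero] at hV
  refine (hgr s hs2 x hx).trans ?_
  rw [Real.rpow_natCast]
  have hn := nn_pos s
  gcongr

/-- the integrand is bounded -/
theorem ff_bdd {S : Dat D Z K} (hS : S.Ok) {P : Par D} {nb : Finset D → Finset (D ⊕ Z)}
    {zs : D ⊕ Z → ℂ} (h : Sadl S P nb zs) {s : ℕ} (hs : 2 ≤ s) : ∃ B : ℝ,
    ∀ x ∈ P.bb (2 * s + 1), ‖S.ff P zs (2 * s + 1) x‖ ≤ B := by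
  obtain ⟨C, k, hC, hgr⟩ := ff_growth hS (fun i => (h.par i).2.2.1) (fun i => (h.par i).2.2.2.1)
    (fun v => (h.flatZ v).2)
  set Y : ℝ := ∑ i, |(zs i).im| with hY
  have hYi : ∀ i, |(zs i).im| ≤ Y := fun i =>
    Finset.single_le_sum (f := fun i => |(zs i).im|) (fun _ _ => abs_nonneg _) (Finset.mem_univ i)
  have hY0 : 0 ≤ Y := Finset.sum_nonneg fun _ _ => abs_nonneg _
  obtain ⟨B, hB⟩ := (isCompact_closedBall (0 : D ⊕ Z → ℂ) (1 + Y)).exists_bound_of_continuousOn
    S.continuous_V.continuousOn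
  refine ⟨C * nn s ^ k * Real.exp (nn s * B), fun x hx => (hgr s hs x hx).trans ?_⟩
  have hn := nn_pos s
  have h1 : (fun i => P.zz zs (2 * s + 1) i (x i)) ∈ Metric.closedBall (0 : D ⊕ Z → ℂ) (1 + Y) := by
    rw [mem_closedBall_zero_iff, pi_norm_le_iff_of_nonneg (by positivity)]
    intro i
    have h2 := zz_im_le P zs _ hYi hx i
    have h3 : |(P.zz zs (2 * s + 1) i (x i)).re| ≤ 1 := by
      have h4 := zz_inBox P zs (n := 2 * s + 1) (by omega) hx
      rcases i with i | v
      · have h5 := h4.d0 i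
        have h6 := h4.d1 i
        have h7 : 0 ≤ 1 / ((2 * s + 1 : ℕ) : ℝ) := by positivity
        exact abs_le.mpr ⟨by linarith only [h5], by linarith only [h6, h7]⟩
      · have h5 := h4.c v
        exact h5.le.trans (by norm_num)
    have h4 := Complex.norm_le_abs_re_add_abs_im (P.zz zs (2 * s + 1) i (x i))
    linarith only [h2, h3, h4]
  have h2 := (Real.norm_eq_abs _ ▸ hB _ h1)
  have h3 := (le_abs_self _).trans h2
  gcongr

theorem measurable_zz (P : Par D) (zs : D ⊕ Z → ℂ) (n : ℕ) (i : D ⊕ Z) :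
    Measurable (P.zz zs n i) := by
  rcases i with i | v
  · have h1 : Continuous (P.ga n (zs (.inl i)).im i) := by
      unfold Par.ga pt tr
      fun_prop
    exact h1.measurable
  · exact (LT.continuous_zt _).measurable

theorem measurable_dd (P : Par D) (zs : D ⊕ Z → ℂ) (n : ℕ) (i : D ⊕ Z) :
    Measurable (P.dd zs n i) := by
  rcases i with i | v
  · have h := measurable_deriv (tr (ea n) (P.eb n i) (P.cl i) (P.cr i))
    unfold Par.dd
    simp only [Sum.elim_inl]
    fun_prop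
  · exact LT.measurable_dzt _

/-- the main integral as an integral over the box -/
theorem main_eq {S : Dat D Z K} (hS : S.Ok) {P : Par D} {nb : Finset D → Finset (D ⊕ Z)}
    {zs : D ⊕ Z → ℂ} (h : Sadl S P nb zs) {s : ℕ} (hs : 2 ≤ s) :
    S.main P zs (2 * s + 1) = (nn s : ℂ) ^ Fintype.card D *
      ∫ x in P.bb (2 * s + 1), S.ff P zs (2 * s + 1) x := by
  obtain ⟨B, hB⟩ := ff_bdd hS h hs
  set n : ℕ := 2 * s + 1 with hn
  set U : Set (Z → ℝ) := Set.univ.pi fun _ => Set.Ioo (-(1 / 2) : ℝ) (1 / 2) with hU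
  have hUm : MeasurableSet U := MeasurableSet.univ_pi fun _ => measurableSet_Ioo
  have hUae : U =ᵐ[volume] LT.cube Z := by
    unfold LT.cube
    have h2 := Measure.univ_pi_Ioo_ae_eq_Icc (μ := fun _ : Z => (volume : Measure ℝ))
      (f := fun _ => -(1 / 2)) (g := fun _ => 1 / 2)
    rw [← Set.pi_univ_Icc] at h2
    exact h2
  have hbx : MeasurableSet (P.bx n) := MeasurableSet.univ_pi fun _ => measurableSet_Icc
  -- the integrand
  have e1 : ∀ (x : D → ℝ) (σ : Z → ℝ), S.F P zs n x σ =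
      (nn s : ℂ) ^ Fintype.card D * S.ff P zs n (Sum.elim x σ) := by
    intro x σ
    unfold Dat.F Dat.ff Dat.H
    have e2 : P.pz zs n x σ = fun i => P.zz zs n i (Sum.elim x σ i) := by
      funext i
      rcases i with i | v <;> rfl
    have e3 : ∏ i, P.om n (zs (.inl i)).im i (x i) = (nn s : ℂ) ^ Fintype.card D *
        ∏ i : D, P.dd zs n (.inl i) (x i) := by
      unfold Par.om Par.dd
      rw [Finset.prod_mul_distrib, Finset.prod_const, Finset.card_univ]
      congr 2
    have e4 : ∏ v, LT.EE n (S.b v) (zs (.inr v)).im (σ v) =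
        (∏ v, LT.Ec n (S.b v) (P.zz zs n (.inr v) (σ v))) * ∏ v : Z, P.dd zs n (.inr v) (σ v) := by
      rw [← Finset.prod_mul_distrib]
      rfl
    rw [e2, e3, e4, Fintype.prod_sum_type]
    simp only [Sum.elim_inl, Sum.elim_inr]
    ring
  -- the measure
  set e := MeasurableEquiv.sumPiEquivProdPi (fun _ : D ⊕ Z => ℝ) with he
  have hmp : MeasurePreserving e.symm (volume : Measure ((D → ℝ) × (Z → ℝ))) volume :=
    volume_measurePreserving_sumPiEquivProdPi_symm (fun _ : D ⊕ Z => ℝ)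
  have hes : ∀ q : (D → ℝ) × (Z → ℝ), e.symm q = Sum.elim q.1 q.2 := by
    intro q
    funext i
    rcases i with i | v <;> rfl
  have hpre : e.symm ⁻¹' P.bb n = P.bx n ×ˢ U := by
    ext q
    simp only [Set.mem_preimage, hes, Set.mem_prod]
    unfold Par.bb Par.bx
    simp only [Set.mem_pi, Set.mem_univ, forall_true_left, Sum.forall, Sum.elim_inl, Sum.elim_inr,
      hU]
  have hint : Integrable (fun q : (D → ℝ) × (Z → ℝ) => S.F P zs n q.1 q.2)
      ((volume.restrict (P.bx n)).prod (volume.restrict U)) := by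
    have hfin : IsFiniteMeasure ((volume.restrict (P.bx n)).prod (volume.restrict U)) := by
      rw [Measure.prod_restrict]
      refine ⟨?_⟩
      rw [Measure.restrict_apply_univ, Measure.prod_prod]
      refine ENNReal.mul_lt_top ?_ ?_
      · have hc : IsCompact (P.bx n) := isCompact_univ_pi fun _ => isCompact_Icc
        exact hc.measure_lt_top
      · rw [measure_congr hUae]
        have hc : IsCompact (LT.cube Z) := isCompact_univ_pi fun _ => isCompact_Icc
        exact hc.measure_lt_top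
    refine Integrable.of_bound (C := ‖(nn s : ℂ) ^ Fintype.card D‖ * B)
      (S.measurable_F P zs n).aestronglyMeasurable ?_
    rw [Measure.prod_restrict]
    refine (ae_restrict_iff' (hbx.prod hUm)).mpr (Eventually.of_forall fun q hq => ?_)
    rw [e1, norm_mul]
    refine mul_le_mul_of_nonneg_left (hB _ ?_) (norm_nonneg _)
    have : q ∈ e.symm ⁻¹' P.bb n := by
      rw [hpre]
      exact hq
    rw [Set.mem_preimage, hes] at this
    exact this
  have h1 : S.main P zs n = ∫ q in P.bx n ×ˢ U, S.F P zs n q.1 q.2 := by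
    unfold Dat.main
    rw [Measure.volume_eq_prod, ← Measure.prod_restrict, integral_prod_symm _ hint,
      Measure.restrict_congr_set hUae]
  rw [h1, ← hpre]
  have h2 := hmp.setIntegral_preimage_emb e.symm.measurableEmbedding
    (fun x => (nn s : ℂ) ^ Fintype.card D * S.ff P zs n x) (P.bb n)
  rw [← integral_const_mul, ← h2]
  refine integral_congr_ae (Eventually.of_forall fun q => ?_)
  simp only [e1, hes]

theorem main_lim [DecidableEq Z] {S : Dat D Z K} (hS : S.Ok) {P : Par D}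
    {nb : Finset D → Finset (D ⊕ Z)} {zs : D ⊕ Z → ℂ} (h : Sadl S P nb zs) :
    ∃ L : ℂ, L ≠ 0 ∧ Tendsto (fun s : ℕ =>
      ((nn s ^ (((Fintype.card Z : ℝ) - Fintype.card D) / 2) : ℝ) : ℂ) *
      Complex.exp (-((nn s : ℂ) * S.T zs)) * S.main P zs (2 * s + 1)) atTop (𝓝 L) := by
  have hcr : S.Crit zs := ⟨h.inner, fun v => (h.flatZ v).2, h.crit, h.hess⟩
  -- margins
  set mg : D ⊕ Z → ℝ := Sum.elim (fun i => min ((zs (.inl i)).re - P.cl i)
    (P.XM i - P.cr i - (zs (.inl i)).re)) fun v => 1 / 4 - |(zs (.inr v)).re| with hmg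
  have hmg0 : ∀ i, 0 < mg i := by
    intro i
    rcases i with i | v
    · have := h.flatD i
      simp only [hmg, Sum.elim_inl]
      exact lt_min (by linarith only [this]) (by linarith only [this])
    · have := (h.flatZ v).1
      simp only [hmg, Sum.elim_inr]
      linarith only [this]
  obtain ⟨rp, hrp1, hrp⟩ : ∃ rp : ℝ, (∀ i, 2 * rp < mg i) ∧ 0 < rp := by
    have h1 : ∀ᶠ ρ in 𝓝[>] (0 : ℝ), ∀ i, 2 * ρ < mg i := by
      rw [eventually_all]
      intro i
      have h2 : Tendsto (fun ρ : ℝ => 2 * ρ) (𝓝[>] 0) (𝓝 0) := by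
        have : Tendsto (fun ρ : ℝ => 2 * ρ) (𝓝 0) (𝓝 (2 * 0)) :=
          (continuous_const.mul continuous_id).tendsto 0
        rw [mul_zero] at this
        exact this.mono_left nhdsWithin_le_nhds
      exact h2.eventually_lt_const (hmg0 i)
    exact (h1.and self_mem_nhdsWithin).exists
  have hnear : ∀ᶠ s : ℕ in atTop, 3 / (2 * nn s) < rp := by
    have h1 : Tendsto (fun s => (3 / 2) / nn s) atTop (𝓝 0) := tendsto_nn.const_div_atTop _
    filter_upwards [h1.eventually_lt_const hrp] with s hs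
    have : 3 / (2 * nn s) = (3 / 2) / nn s := by rw [div_div]
    linarith only [hs, this]
  have hea : ∀ᶠ s : ℕ in atTop, ea (2 * s + 1) < rp ∧
      ∀ i, P.XM i - rp < P.eb (2 * s + 1) i := by
    filter_upwards [hnear, eventually_ge_atTop 4] with s hs hs4
    have hn := nn_pos s
    have hcast : ((2 * s + 1 : ℕ) : ℝ) = nn s := rfl
    refine ⟨?_, fun i => ?_⟩
    · rw [ea_eq, hcast]
      have : 1 / (2 * nn s) ≤ 3 / (2 * nn s) := div_le_div_of_nonneg_right (by norm_num)
        (by positivity)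
      linarith only [hs, this]
    · have h1 := eb_ge P (n := 2 * s + 1) (i := i) (by omega) ⟨(h.par i).1, (h.par i).2.1⟩
      rw [hcast] at h1
      linarith only [hs, h1]
  obtain ⟨L, hL, hlim⟩ := S.lap seOk hcr (z := fun s => P.zz zs (2 * s + 1))
    (d := fun s => P.dd zs (2 * s + 1)) S.measurable_G (fun s i => measurable_zz P zs _ i)
    (fun s i => measurable_dd P zs _ i) hrp (by
      filter_upwards [hea] with s hs i x hx
      have hx' := abs_lt.mp hx
      have hm := hrp1 i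
      rcases i with i | v
      · simp only [hmg, Sum.elim_inl] at hm
        have hm1 := hm.trans_le (min_le_left _ _)
        have hm2 := hm.trans_le (min_le_right _ _)
        have hs2 := hs.2 i
        have hc := (h.par i).2.2.1
        have hc' := (h.par i).2.2.2.1
        have htr : ∀ y : ℝ, |y - (zs (.inl i)).re| < rp →
            tr (ea (2 * s + 1)) (P.eb (2 * s + 1) i) (P.cl i) (P.cr i) y = 1 := by
          intro y hy
          have hy' := abs_lt.mp hy
          unfold tr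
          rw [min_eq_left, max_eq_right zero_le_one]
          refine le_min ?_ ?_
          · rw [le_div_iff₀ hc]
            linarith only [hs, hm1, hy', hs.1]
          · rw [le_div_iff₀ hc']
            linarith only [hm2, hs2, hy']
        have hd : deriv (tr (ea (2 * s + 1)) (P.eb (2 * s + 1) i) (P.cl i) (P.cr i)) x = 0 := by
          have h1 : tr (ea (2 * s + 1)) (P.eb (2 * s + 1) i) (P.cl i) (P.cr i) =ᶠ[𝓝 x]
              fun _ => 1 := by
            have h2 : {y : ℝ | |y - (zs (.inl i)).re| < rp} ∈ 𝓝 x := by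
              have h3 : IsOpen {y : ℝ | |y - (zs (.inl i)).re| < rp} :=
                isOpen_lt (by fun_prop) continuous_const
              exact h3.mem_nhds hx
            filter_upwards [h2] with y hy
            exact htr y hy
          rw [h1.deriv_eq, deriv_const]
        constructor
        · have h1 : P.zz zs (2 * s + 1) (.inl i) x = (x : ℂ) + (((zs (.inl i)).im *
              tr (ea (2 * s + 1)) (P.eb (2 * s + 1) i) (P.cl i) (P.cr i) x : ℝ) : ℂ) *
              Complex.I := rfl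
          rw [h1, htr x hx, mul_one, Complex.ofReal_sub]
          have h2 := Complex.re_add_im (zs (.inl i))
          linear_combination h2
        · have h1 : P.dd zs (2 * s + 1) (.inl i) x = 1 + (((zs (.inl i)).im *
              deriv (tr (ea (2 * s + 1)) (P.eb (2 * s + 1) i) (P.cl i) (P.cr i)) x : ℝ) : ℂ) *
              Complex.I := rfl
          rw [h1, hd]
          simp
      · simp only [hmg, Sum.elim_inr] at hm
        have h1 : |x| < 1 / 4 := by
          have := abs_add_le (x - (zs (.inr v)).re) (zs (.inr v)).re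
          rw [sub_add_cancel] at this
          linarith only [hrp, hx, hm, this]
        constructor
        · have h2 := LT.zt_eq (ζ := zs (.inr v)) (u := x - (zs (.inr v)).re)
            (by rw [add_sub_cancel]; exact h1.le)
          rw [add_sub_cancel] at h2
          exact h2
        · have h2 : P.dd zs (2 * s + 1) (.inr v) x = LT.dzt (zs (.inr v)).im x := rfl
          rw [h2]
          unfold LT.dzt
          rw [if_pos h1]
          simp)
    (B := fun s => P.bb (2 * s + 1)) (fun s => measurableSet_bb P _) (R := 1) (by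
      intro s x hx i
      rcases i with i | v
      · have h1 : x (.inl i) ∈ Set.Icc (ea (2 * s + 1)) (P.eb (2 * s + 1) i) :=
          hx (.inl i) (Set.mem_univ _)
        have h2 := ea_pos (n := 2 * s + 1) (by omega)
        have h3 : P.eb (2 * s + 1) i ≤ 1 := by
          have hn0 : (0 : ℝ) < ((2 * s + 1 : ℕ) : ℝ) := by positivity
          unfold Par.eb
          rw [div_le_one hn0]
          have h4 : P.m (2 * s + 1) i ≤ 2 * s := (min_le_right _ _).trans (by omega)
          have h5 : (P.m (2 * s + 1) i : ℝ) ≤ 2 * s := by exact_mod_cast h4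
          push_cast
          linarith only [h5]
        exact abs_le.mpr ⟨by linarith only [h2, h1, h1.1], by linarith only [h3, h1, h1.2]⟩
      · have h1 : x (.inr v) ∈ Set.Ioo (-(1 / 2) : ℝ) (1 / 2) := hx (.inr v) (Set.mem_univ _)
        exact abs_le.mpr ⟨by linarith only [h1, h1.1], by linarith only [h1, h1.2]⟩)
    (U := Set.univ.pi fun i => Set.Ioo ((zs i).re - rp) ((zs i).re + rp)) (by
      refine set_pi_mem_nhds Set.finite_univ fun i _ => ?_
      exact Ioo_mem_nhds (by linarith only [hrp]) (by linarith only [hrp])) (by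
      filter_upwards [hea] with s hs x hx i _
      have hxi : x i ∈ Set.Ioo ((zs i).re - rp) ((zs i).re + rp) := hx i (Set.mem_univ _)
      have hm := hrp1 i
      rcases i with i | v
      · simp only [hmg, Sum.elim_inl] at hm
        have hm1 := hm.trans_le (min_le_left _ _)
        have hm2 := hm.trans_le (min_le_right _ _)
        have hs2 := hs.2 i
        have hc := (h.par i).2.2.1
        have hc' := (h.par i).2.2.2.1
        exact ⟨by linarith only [hs, hm1, hc, hxi, hxi.1, hs.1], by linarith only [hm2, hs2, hc', hxi, hxi.2]⟩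
      · simp only [hmg, Sum.elim_inr] at hm
        have h1 := abs_le.mp (le_refl |(zs (.inr v)).re|)
        exact ⟨by linarith only [hrp, hm, h1, hxi, hxi.1, h1.1], by linarith only [hrp, hm, h1, hxi, hxi.2, h1.2]⟩)
    (fun r hr => ff_far hS h hr)
  refine ⟨L, hL, hlim.congr' ?_⟩
  filter_upwards [eventually_ge_atTop 2] with s hs
  have hn := nn_pos s
  rw [main_eq hS h hs]
  have e1 : nn s ^ ((Fintype.card (D ⊕ Z) : ℝ) / 2) =
      nn s ^ (((Fintype.card Z : ℝ) - Fintype.card D) / 2) * nn s ^ Fintype.card D := by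
    rw [← Real.rpow_natCast, ← Real.rpow_add hn, Fintype.card_sum]
    congr 1
    push_cast
    ring
  rw [e1, Complex.ofReal_mul, Complex.ofReal_pow]
  unfold Dat.ff
  ring

end Pool.Agent.Work.MP_b30479_gt.G2
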