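import Pool.Agent.Work.MP_b30479_gt.G2.Err
import Pool.Agent.Work.MP_b30479_gt.G2.MainLim

/-!
# The analytic core
-/

namespace Pool.Agent.Work.MP_b30479_gt.G2

open Finset VOL MeasureTheory Filter Topology

variable {D Z K : Type} [Fintype D] [Fintype Z] [Fintype K] [DecidableEq D]

/-- The analytic core. -/
theorem core [DecidableEq Z] {S : Dat D Z K} (hS : S.Ok) {P : Par D}
    {nb : Finset D → Finset (D ⊕ Z)} {zs : D ⊕ Z → ℂ} (h : Sadl S P nb zs) :
    ∃ L : ℂ, L ≠ 0 ∧ Tendsto (fun s : ℕ =>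
      ((((2 * s + 1 : ℕ) : ℝ) ^ (((Fintype.card Z : ℝ) - Fintype.card D) / 2) : ℝ) : ℂ) *
      Complex.exp (-(((2 * s + 1 : ℕ) : ℂ) * S.T zs)) *
      S.sum (2 * s + 1) fun v => (zs (.inr v)).im) atTop (𝓝 L) := by
  obtain ⟨L, hL, h1⟩ := main_lim hS h
  refine ⟨L, hL, ?_⟩
  have h2 := final_lim (κ := 0) (p := ((Fintype.card Z : ℝ) - Fintype.card D) / 2)
    (Ψ := S.T zs) (I := fun s => S.main P zs (2 * s + 1))
    (a := fun s => S.sum (2 * s + 1) fun v => (zs (.inr v)).im) h1 (sum_sub_main hS h)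
  refine h2.congr fun s => ?_
  unfold nn
  push_cast
  rfl

end Pool.Agent.Work.MP_b30479_gt.G2
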