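import Pool.Agent.Work.MP_b30479_gt.G2.AOk
import Pool.Agent.Work.MP_b30479_gt.G2.Core
import Pool.Agent.Work.MP_b30479_gt.LT.Main

/-!
# From the core to the invariant
-/

namespace Pool.Agent.Work.MP_b30479_gt.G2

open Finset VOL AX MeasureTheory Filter Topology
open Pool.Agent.Work.MP_b30479_gt.LT

/-- the phase rates of the constants, in units of `2 π i` times the sign of `b` -/
noncomputable def cka : Typ → ℂ
  | .one => 1 / 4
  | .two => -(1 / 2)
  | .threeL => -(1 / 4)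
  | .threeR => -(1 / 4)
  | _ => 0

/-- the phase rate of a twist region -/
noncomputable def rph (t : Typ) (b : ℤ) : ℂ := if t.isRing = true then (-Complex.I) ^ b else 1

lemma cexp_I {x : ℂ} {k : ℤ} (h : x = k / 4) :
    Complex.exp (2 * Real.pi * Complex.I * x) = Complex.I ^ k := by
  rw [h]
  conv_rhs => rw [← Complex.exp_pi_div_two_mul_I]
  rw [← Complex.exp_int_mul]
  congr 1
  ring

lemma rph_eq {t : Typ} {b : ℤ} (hb : t.IsOk b) :
    (-Complex.I) ^ b * Complex.exp (2 * Real.pi * Complex.I * (sg b * cka t)) = rph t b := by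
  have hI := Complex.I_ne_zero
  have hnI : (-Complex.I : ℂ) = Complex.I⁻¹ := by simp
  have key : ∀ k : ℤ, sg b * cka t = k / 4 → (4 : ℤ) ∣ k - b → t.isRing = false →
      (-Complex.I) ^ b * Complex.exp (2 * Real.pi * Complex.I * (sg b * cka t)) = rph t b := by
    intro k hk h4 hr
    rw [cexp_I hk, rph, hr, if_neg (by simp), hnI, inv_zpow', ← zpow_add₀ hI]
    obtain ⟨m, hm⟩ := h4
    have : -b + k = 4 * m := by omega
    rw [this, zpow_mul]
    have h5 : Complex.I ^ (4 : ℤ) = 1 := by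
      have : Complex.I ^ (4 : ℤ) = Complex.I ^ (4 : ℕ) := by norm_cast
      rw [this, Complex.I_pow_four]
    rw [h5, one_zpow]
  have hsg : (0 < b → sg b = 1) ∧ (¬0 < b → sg b = -1) := by
    unfold sg
    constructor <;> intro h <;> simp [h]
  cases t
  case ring =>
    simp [cka, rph, Typ.isRing]
  all_goals
    simp only [Typ.IsOk] at hb
    by_cases h : 0 < b
  · refine key 1 ?_ (by omega) rfl
    rw [hsg.1 h, cka]; push_cast; ring
  · refine key (-1) ?_ (by omega) rfl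
    rw [hsg.2 h, cka]; push_cast; ring
  · refine key (-2) ?_ (by omega) rfl
    rw [hsg.1 h, cka]; push_cast; ring
  · refine key 2 ?_ (by omega) rfl
    rw [hsg.2 h, cka]; push_cast; ring
  · refine key (-1) ?_ (by omega) rfl
    rw [hsg.1 h, cka]; push_cast; ring
  · refine key 1 ?_ (by omega) rfl
    rw [hsg.2 h, cka]; push_cast; ring
  · refine key (-1) ?_ (by omega) rfl
    rw [hsg.1 h, cka]; push_cast; ring
  · refine key 1 ?_ (by omega) rfl
    rw [hsg.2 h, cka]; push_cast; ring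
  all_goals
    refine key 0 ?_ (by omega) rfl
    simp [cka]

lemma rph_ne (t : Typ) (b : ℤ) : rph t b ≠ 0 := by
  unfold rph
  split_ifs
  · exact zpow_ne_zero _ (neg_ne_zero.mpr Complex.I_ne_zero)
  · exact one_ne_zero

lemma rph_norm (t : Typ) (b : ℤ) : ‖rph t b‖ = 1 := by
  unfold rph
  split_ifs
  · rw [norm_zpow, norm_neg, Complex.norm_I, one_zpow]
  · exact norm_one

lemma cdiff_tendsto : Tendsto (fun s : ℕ => ((1 / ((2 * (s + 1) + 1 : ℕ) : ℝ) -
      1 / ((2 * s + 1 : ℕ) : ℝ) : ℝ) : ℂ)) atTop (𝓝 0) := by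
  have h3 : Tendsto (fun s : ℕ => (1 / ((2 * (s + 1) + 1 : ℕ) : ℝ) : ℝ)) atTop (𝓝 0) :=
    inv_nn_tendsto.comp (tendsto_add_atTop_nat 1)
  have h4 := h3.sub inv_nn_tendsto
  rw [sub_zero] at h4
  exact (Complex.continuous_ofReal.tendsto 0).comp h4

/-- an exponential of a polynomial in `n` and `1 / n` -/
lemma ee_ratio {f : ℕ → ℂ} (κ μ ν σ : ℂ)
    (hf : ∀ s : ℕ, f s = σ * (κ / 2 * ((2 * s + 1 : ℕ) : ℂ) ^ 2 + μ * ((2 * s + 1 : ℕ) : ℂ) + ν)) :
    Tendsto (fun s : ℕ => DT.ee (s + 1) (f (s + 1)) / DT.ee s (f s)) atTop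
      (𝓝 (Complex.exp (2 * Real.pi * Complex.I * (σ * κ)))) := by
  have key : ∀ s : ℕ, DT.ee (s + 1) (f (s + 1)) / DT.ee s (f s) =
      Complex.exp (2 * Real.pi * Complex.I * (σ * κ)) *
      Complex.exp ((2 * Real.pi * Complex.I * (σ * ν)) * ((1 / ((2 * (s + 1) + 1 : ℕ) : ℝ) -
        1 / ((2 * s + 1 : ℕ) : ℝ) : ℝ) : ℂ)) := by
    intro s
    have h1 : ((2 * s + 1 : ℕ) : ℂ) ≠ 0 := by exact_mod_cast (by omega : 2 * s + 1 ≠ 0)
    have h2 : ((2 * (s + 1) + 1 : ℕ) : ℂ) ≠ 0 := by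
      exact_mod_cast (by omega : 2 * (s + 1) + 1 ≠ 0)
    rw [hf, hf, ← Complex.exp_add]
    unfold DT.ee
    rw [← Complex.exp_sub]
    congr 1
    push_cast at h1 h2 ⊢
    field_simp
    ring
  simp only [key]
  have h5 := ((Complex.continuous_exp.tendsto _).comp
    (cdiff_tendsto.const_mul (2 * Real.pi * Complex.I * (σ * ν)))).const_mul
    (Complex.exp (2 * Real.pi * Complex.I * (σ * κ)))
  rw [mul_zero, Complex.exp_zero, mul_one] at h5
  exact h5

lemma cph_form (t : Typ) : ∃ μ ν : ℂ, ∀ s : ℕ,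
    cph t s = cka t / 2 * ((2 * s + 1 : ℕ) : ℂ) ^ 2 + μ * ((2 * s + 1 : ℕ) : ℂ) + ν := by
  cases t
  · exact ⟨1 / 4, -(3 / 8), fun s => by simp only [cph, cka]; push_cast; ring⟩
  · exact ⟨1 / 2, -(1 / 4), fun s => by simp only [cph, cka]; push_cast; ring⟩
  · exact ⟨1 / 4, -(1 / 8), fun s => by simp only [cph, cka]; push_cast; ring⟩
  · exact ⟨1 / 4, -(1 / 8), fun s => by simp only [cph, cka]; push_cast; ring⟩
  all_goals exact ⟨0, 0, fun s => by simp only [cph, cka]; push_cast; ring⟩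

lemma cph_ratio (t : Typ) (b : ℤ) : Tendsto (fun s : ℕ => DT.ee (s + 1) (sg b * cph t (s + 1)) /
    DT.ee s (sg b * cph t s)) atTop
    (𝓝 (Complex.exp (2 * Real.pi * Complex.I * (sg b * cka t)))) := by
  obtain ⟨μ, ν, h⟩ := cph_form t
  exact ee_ratio (f := fun s => sg b * cph t s) (cka t) μ ν (sg b) fun s => by
    simp only [h]

lemma cratio_nn : Tendsto (fun s : ℕ => ((2 * (s + 1) + 1 : ℕ) : ℂ) / ((2 * s + 1 : ℕ) : ℂ))
    atTop (𝓝 1) := by
  have h := (Complex.continuous_ofReal.tendsto 1).comp ratio_nn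
  rw [Complex.ofReal_one] at h
  refine h.congr fun s => ?_
  simp

lemma cba_ratio (t : Typ) : Tendsto (fun s : ℕ => cba t (s + 1) / cba t s) atTop (𝓝 1) := by
  cases t
  case one =>
    simp only [cba, div_one]
    exact tendsto_const_nhds
  case ring =>
    have h := cratio_nn.pow 2
    rw [one_pow] at h
    refine h.congr fun s => ?_
    simp only [cba]
    have h1 : ((2 * s + 1 : ℕ) : ℂ) ≠ 0 := by exact_mod_cast (by omega : 2 * s + 1 ≠ 0)
    have := Complex.I_ne_zero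
    field_simp
  all_goals exact cratio_nn

lemma rpow_ratio (c : ℝ) : Tendsto (fun s : ℕ => ((((2 * (s + 1) + 1 : ℕ) : ℝ) ^ c : ℝ) : ℂ) /
    ((((2 * s + 1 : ℕ) : ℝ) ^ c : ℝ) : ℂ)) atTop (𝓝 1) := by
  have h := ratio_nn.rpow_const (p := c) (Or.inl one_ne_zero)
  rw [Real.one_rpow] at h
  have h2 := (Complex.continuous_ofReal.tendsto _).comp h
  rw [Complex.ofReal_one] at h2
  refine h2.congr fun s => ?_
  rw [Function.comp_apply, Real.div_rpow (Nat.cast_nonneg _) (Nat.cast_nonneg _),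
    Complex.ofReal_div]

lemma list_ratio (L : List Fac) : Tendsto (fun s : ℕ =>
    (L.map fun f => ((((2 * (s + 1) + 1 : ℕ) : ℝ) ^ f.c : ℝ) : ℂ)).prod /
    (L.map fun f => ((((2 * s + 1 : ℕ) : ℝ) ^ f.c : ℝ) : ℂ)).prod) atTop (𝓝 1) := by
  induction L with
  | nil => simp
  | cons f L ih =>
    have h := (rpow_ratio f.c).mul ih
    rw [one_mul] at h
    refine h.congr fun s => ?_
    rw [List.map_cons, List.map_cons, List.prod_cons, List.prod_cons, div_mul_div_comm]

/-- the ratios of the constants -/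
theorem Cn_ratio (t : Typ) (b : ℤ) (l r : Bool) : Tendsto (fun s : ℕ => Cn t b l r (s + 1) /
    Cn t b l r s) atTop (𝓝 (Complex.exp (2 * Real.pi * Complex.I * (sg b * cka t)))) := by
  have h := ((cph_ratio t b).mul (cba_ratio t)).mul (list_ratio (facs t l r))
  rw [mul_one, mul_one] at h
  refine h.congr fun s => ?_
  unfold Cn
  rw [div_mul_div_comm, div_mul_div_comm]

section
variable {M : ℕ} (t : Fin (M + 1) → Typ) {b : Fin (M + 1) → ℤ}

/-- from the asymptotics of the state sum to the ratios of the invariant -/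
theorem main_of_lim (hb : ∀ i, (t i).IsOk (b i)) {ρ : ZZ t → ℝ} (hρ : ∀ v, 0 < ρ v) {κ : ℝ}
    {T : ℂ} {L : ℂ} (hL : L ≠ 0)
    (hX : Tendsto (fun s : ℕ => ((((2 * s + 1 : ℕ) : ℝ) ^ κ : ℝ) : ℂ) *
      Complex.exp (-(((2 * s + 1 : ℕ) : ℂ) * T)) * (wdat t b).sum (2 * s + 1) ρ) atTop (𝓝 L))
    {δ : ℤ} (hδ : IsOrientation (ltWord (List.ofFn b)) δ) :
    (∀ᶠ s : ℕ in atTop, twoBridgeKashaev (ltWord (List.ofFn b)) δ (2 * s + 1) ≠ 0) ∧
    Tendsto (fun s : ℕ => twoBridgeKashaev (ltWord (List.ofFn b)) δ (2 * s + 3) /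
      twoBridgeKashaev (ltWord (List.ofFn b)) δ (2 * s + 1)) atTop
      (𝓝 ((∏ i, rph (t i) (b i)) * Complex.exp (2 * T))) := by
  set w := ltWord (List.ofFn b) with hw
  set W := orientedWrithe w ![1, δ, -δ] with hW
  set e := ∑ i, b i with he
  set X : ℕ → ℂ := fun s : ℕ => ((((2 * s + 1 : ℕ) : ℝ) ^ κ : ℝ) : ℂ) *
      Complex.exp (-(((2 * s + 1 : ℕ) : ℂ) * T)) * (wdat t b).sum (2 * s + 1) ρ with hXd
  set F : ℕ → ℂ := fun s : ℕ => ((((2 * s + 1 : ℕ) : ℝ) ^ κ : ℝ) : ℂ) with hF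
  set C : ℕ → ℂ := fun s : ℕ => ∏ i, Cn (t i) (b i) (decide (i ≠ 0)) (decide (i ≠ Fin.last M)) s
    with hC
  have hn : ∀ s : ℕ, 0 < ((2 * s + 1 : ℕ) : ℝ) := fun s => by positivity
  have hF0 : ∀ s, F s ≠ 0 := fun s => by
    have := Real.rpow_pos_of_pos (hn s) κ
    exact Complex.ofReal_ne_zero.mpr this.ne'
  have hC0 : ∀ s, C s ≠ 0 := fun s => Finset.prod_ne_zero_iff.2 fun i _ => Cn_ne _ _ _ _ _
  have hform : ∀ s : ℕ, 2 ≤ s → twoBridgeKashaev w δ (2 * s + 1) =
      phs W e s * (C s * (X s * (F s)⁻¹ * Complex.exp (((2 * s + 1 : ℕ) : ℂ) * T))) := by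
    intro s hs
    rw [exactDat t hb hs δ hρ]
    congr 2
    have h1 := hF0 s
    have h2 : Complex.exp (-(((2 * s + 1 : ℕ) : ℂ) * T)) *
        Complex.exp (((2 * s + 1 : ℕ) : ℂ) * T) = 1 := by
      rw [← Complex.exp_add, neg_add_cancel, Complex.exp_zero]
    have h3 : X s = F s * Complex.exp (-(((2 * s + 1 : ℕ) : ℂ) * T)) *
      (wdat t b).sum (2 * s + 1) ρ := rfl
    rw [h3]
    calc (wdat t b).sum (2 * s + 1) ρ = (Complex.exp (-(((2 * s + 1 : ℕ) : ℂ) * T)) *
          Complex.exp (((2 * s + 1 : ℕ) : ℂ) * T)) * (F s * (F s)⁻¹) *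
          (wdat t b).sum (2 * s + 1) ρ := by
          rw [h2, mul_inv_cancel₀ h1, one_mul, one_mul]
      _ = _ := by ring
  have hphs : ∀ s, phs W e s ≠ 0 := fun s => mul_ne_zero (Complex.exp_ne_zero _)
    (Complex.exp_ne_zero _)
  have hX0 : ∀ᶠ s in atTop, X s ≠ 0 := hX.eventually_ne hL
  refine ⟨?_, ?_⟩
  · filter_upwards [hX0, eventually_ge_atTop 2] with s hs hs1
    rw [hform s hs1]
    exact mul_ne_zero (hphs s) (mul_ne_zero (hC0 s) (mul_ne_zero (mul_ne_zero hs
      (inv_ne_zero (hF0 s))) (Complex.exp_ne_zero _)))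
  · have l1 := phs_ratio W e
    have l2 := ratio_lim hL hX
    have l3 : Tendsto (fun s : ℕ => C (s + 1) / C s) atTop
        (𝓝 (∏ i, Complex.exp (2 * Real.pi * Complex.I * (sg (b i) * cka (t i))))) := by
      have h := tendsto_finsetProd Finset.univ fun i _ => Cn_ratio (t i) (b i) (decide (i ≠ 0))
        (decide (i ≠ Fin.last M))
      refine h.congr fun s => ?_
      rw [Finset.prod_div_distrib]
    have l4 : Tendsto (fun s : ℕ => F s / F (s + 1)) atTop (𝓝 1) := by
      have h := (rpow_ratio κ).inv₀ one_ne_zero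
      rw [inv_one] at h
      refine h.congr fun s => ?_
      rw [inv_div]
    have l5 := ((((l1.mul l3).mul l2).mul l4)).mul_const (Complex.exp (2 * T))
    rw [mul_one, mul_one] at l5
    have hsgn : ((-1 : ℂ)) ^ W * Complex.I ^ e = (-Complex.I) ^ e := by
      have hev := writhe_parity' b hδ.1
      obtain ⟨k, hk⟩ := hev
      have h1 : W = e + (k + k) := by
        rw [← hk]
        ring
      rw [h1, zpow_add₀ (by norm_num), zpow_add₀ (by norm_num)]
      have h2 : ((-1 : ℂ)) ^ k * (-1) ^ k = 1 := by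
        rw [← mul_zpow]
        norm_num
      rw [h2, mul_one, ← mul_zpow]
      congr 1
      ring
    have hprod : (-Complex.I) ^ e *
        (∏ i, Complex.exp (2 * Real.pi * Complex.I * (sg (b i) * cka (t i)))) =
        ∏ i, rph (t i) (b i) := by
      have h1 : (-Complex.I) ^ e = ∏ i, (-Complex.I) ^ b i := by
        have hI : (-Complex.I : ℂ) ≠ 0 := neg_ne_zero.mpr Complex.I_ne_zero
        rw [he]
        induction (Finset.univ : Finset (Fin (M + 1))) using Finset.induction_on with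
        | empty => simp
        | insert a S ha ih => rw [Finset.sum_insert ha, Finset.prod_insert ha, zpow_add₀ hI, ih]
      rw [h1, ← Finset.prod_mul_distrib]
      exact Finset.prod_congr rfl fun i _ => rph_eq (hb i)
    rw [hsgn, hprod] at l5
    refine l5.congr' ?_
    filter_upwards [hX0, eventually_ge_atTop 2] with s hs hs1
    rw [show 2 * s + 3 = 2 * (s + 1) + 1 by ring, hform s hs1, hform (s + 1) (by omega)]
    have h1 := hphs s
    have h2 := hC0 s
    have h3 := hF0 s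
    have h4 := hF0 (s + 1)
    have e3 : Complex.exp (2 * T) = Complex.exp (((2 * (s + 1) + 1 : ℕ) : ℂ) * T) /
        Complex.exp (((2 * s + 1 : ℕ) : ℂ) * T) := by
      rw [← Complex.exp_sub]
      congr 1
      push_cast
      ring
    rw [e3]
    have h6 := Complex.exp_ne_zero (((2 * s + 1 : ℕ) : ℂ) * T)
    have h7 := hC0 (s + 1)
    generalize C s = G at *
    generalize C (s + 1) = G' at *
    generalize Complex.exp (((2 * s + 1 : ℕ) : ℂ) * T) = E at *
    generalize Complex.exp (((2 * (s + 1) + 1 : ℕ) : ℂ) * T) = E' at *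
    generalize phs W e s = P at *
    generalize phs W e (s + 1) = P' at *
    generalize F s = f at *
    generalize F (s + 1) = f' at *
    have h8 : X s ≠ 0 := hs
    generalize X s = x at *
    generalize X (s + 1) = x' at *
    field_simp

/-- **From a dominating saddle point to the asymptotics of the invariant.** -/
theorem main_of_saddle (hb : ∀ i, (t i).IsOk (b i)) {P : Par (DD t)}
    {nb : Finset (DD t) → Finset (DD t ⊕ ZZ t)} {zs : DD t ⊕ ZZ t → ℂ}
    (h : Sadl (wdat t b) P nb zs) {δ : ℤ} (hδ : IsOrientation (ltWord (List.ofFn b)) δ) :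
    (∀ᶠ s : ℕ in atTop, twoBridgeKashaev (ltWord (List.ofFn b)) δ (2 * s + 1) ≠ 0) ∧
    Tendsto (fun s : ℕ => twoBridgeKashaev (ltWord (List.ofFn b)) δ (2 * s + 3) /
      twoBridgeKashaev (ltWord (List.ofFn b)) δ (2 * s + 1)) atTop
      (𝓝 ((∏ i, rph (t i) (b i)) * Complex.exp (2 * (wdat t b).T zs))) ∧
    Tendsto (fun s : ℕ => Real.pi *
      Real.log ‖twoBridgeKashaev (ltWord (List.ofFn b)) δ (2 * s + 3) /
        twoBridgeKashaev (ltWord (List.ofFn b)) δ (2 * s + 1)‖) atTop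
      (𝓝 (2 * Real.pi * ((wdat t b).T zs).re)) := by
  obtain ⟨L, hL, hX⟩ := core (wdat_ok t hb) h
  obtain ⟨hne, hlim⟩ := main_of_lim t hb (fun v => (h.flatZ v).2) hL hX hδ
  refine ⟨hne, hlim, ?_⟩
  have hL : (∏ i, rph (t i) (b i)) * Complex.exp (2 * (wdat t b).T zs) ≠ 0 :=
    mul_ne_zero (Finset.prod_ne_zero_iff.2 fun i _ => rph_ne _ _) (Complex.exp_ne_zero _)
  have h1 := ((hlim.norm).log (norm_ne_zero_iff.mpr hL)).const_mul Real.pi
  have e : Real.pi * Real.log ‖(∏ i, rph (t i) (b i)) *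
      Complex.exp (2 * (wdat t b).T zs)‖ = 2 * Real.pi * ((wdat t b).T zs).re := by
    have h2 : ‖∏ i, rph (t i) (b i)‖ = 1 := by
      rw [norm_prod]
      exact Finset.prod_eq_one fun i _ => rph_norm _ _
    rw [norm_mul, h2, one_mul, Complex.norm_exp, Real.log_exp]
    have : (2 * (wdat t b).T zs).re = 2 * ((wdat t b).T zs).re := by simp
    rw [this]
    ring
  rw [e] at h1
  exact h1

end

end Pool.Agent.Work.MP_b30479_gt.G2
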