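import Pool.Agent.Work.MP_b30479_gt.G2.C5Defs
import Pool.Agent.Work.MP_b30479_gt.G2.SEf

/-!
# Uniform domination from strict domination, by compactness
-/

namespace Pool.Agent.Work.MP_b30479_gt.G2

open Finset VOL MeasureTheory Filter Topology

variable {D Z K : Type} [Fintype D] [Fintype Z] [Fintype K] [DecidableEq D]

omit [DecidableEq D] in
theorem Dat.continuous_form (S : Dat D Z K) (k : K) : Continuous (S.form k) := by
  unfold Dat.form
  fun_prop

omit [DecidableEq D] in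
theorem Dat.continuous_V (S : Dat D Z K) : Continuous S.V := by
  unfold Dat.V Dat.quad
  refine Continuous.add (Complex.continuous_re.comp (by fun_prop)) ?_
  exact continuous_finset_sum _ fun k _ => continuous_UU.comp (S.continuous_form k)

theorem continuous_trA (a b c c' : ℝ) : Continuous (tr a b c c') := by
  unfold tr
  fun_prop

theorem continuous_ptA (a b c c' h : ℝ) : Continuous (pt a b c c' h) := by
  have := continuous_trA a b c c'
  unfold pt
  fun_prop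

theorem continuous_zt (ρ : ℝ) : Continuous (LT.zt ρ) := by
  unfold LT.zt
  have : Continuous LT.th := by
    unfold LT.th
    fun_prop
  fun_prop

/-- the points with penalty on the paths of one variable -/
def Par.OnSet (P : Par D) (t : ℝ) (i : D) : Set (ℂ × ℝ) := {q | P.On t i q.1 q.2}

omit [Fintype D] [DecidableEq D] in
theorem Par.isCompact_OnSet (P : Par D) (t : ℝ) (i : D) : IsCompact (P.OnSet t i) := by
  have h1 : P.OnSet t i =
      ((fun x : ℝ => ((pt 0 (P.XM i) (P.cl i) (P.cr i) t x, (0 : ℝ)) : ℂ × ℝ)) ''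
        Set.Icc 0 (P.XM i) ∪
      (fun x : ℝ => ((pt 0 (P.XM i) (P.cl i) (P.cr i) (P.hu i) x,
        P.hu i * tr 0 (P.XM i) (P.cl i) (P.cr i) x) : ℂ × ℝ)) '' Set.Icc 0 (P.XM i)) ∪
      (fun x : ℝ => ((pt 0 (P.XM i) (P.cl i) (P.cr i) (-P.hd i) x,
        P.hd i * tr 0 (P.XM i) (P.cl i) (P.cr i) x) : ℂ × ℝ)) '' Set.Icc 0 (P.XM i) := by
    ext q
    constructor
    · rintro ⟨x, h0, h1, h | h | h⟩
      · exact Or.inl (Or.inl ⟨x, ⟨h0, h1⟩, Prod.ext h.1.symm h.2.symm⟩)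
      · exact Or.inl (Or.inr ⟨x, ⟨h0, h1⟩, Prod.ext h.1.symm h.2.symm⟩)
      · exact Or.inr ⟨x, ⟨h0, h1⟩, Prod.ext h.1.symm h.2.symm⟩
    · rintro ((⟨x, hx, rfl⟩ | ⟨x, hx, rfl⟩) | ⟨x, hx, rfl⟩)
      · exact ⟨x, hx.1, hx.2, Or.inl ⟨rfl, rfl⟩⟩
      · exact ⟨x, hx.1, hx.2, Or.inr (Or.inl ⟨rfl, rfl⟩)⟩
      · exact ⟨x, hx.1, hx.2, Or.inr (Or.inr ⟨rfl, rfl⟩)⟩
  rw [h1]
  have c1 := continuous_trA 0 (P.XM i) (P.cl i) (P.cr i)
  refine IsCompact.union (IsCompact.union ?_ ?_) ?_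
  · exact isCompact_Icc.image ((continuous_ptA _ _ _ _ _).prodMk continuous_const)
  · exact isCompact_Icc.image ((continuous_ptA _ _ _ _ _).prodMk (continuous_const.mul c1))
  · exact isCompact_Icc.image ((continuous_ptA _ _ _ _ _).prodMk (continuous_const.mul c1))

/-- the points on the path of one continuous variable -/
def ZSet (ρ : ℝ) : Set ℂ := {z | ∃ σ : ℝ, |σ| ≤ 1 / 2 ∧ z = LT.zt ρ σ}

theorem isCompact_ZSet (ρ : ℝ) : IsCompact (ZSet ρ) := by
  have h1 : ZSet ρ = LT.zt ρ '' Set.Icc (-(1 / 2)) (1 / 2) := by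
    ext z
    constructor
    · rintro ⟨σ, h, rfl⟩
      exact ⟨σ, abs_le.mp h, rfl⟩
    · rintro ⟨σ, h, rfl⟩
      exact ⟨σ, abs_le.mpr h, rfl⟩
  rw [h1]
  exact isCompact_Icc.image (continuous_zt ρ)

/-- the admissible set -/
def AdmSet (S : Dat D Z K) (P : Par D) (zs : D ⊕ Z → ℂ) (R : Finset D) (nb : Finset (D ⊕ Z)) :
    Set ((D ⊕ Z → ℂ) × (D → ℝ)) := {q | Adm S P zs R nb q.1 q.2}

theorem isClosed_forall_prop {X : Type*} [TopologicalSpace X] {ι : Sort*} {A : ι → Set X}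
    (h : ∀ i, IsClosed (A i)) : IsClosed {x | ∀ i, x ∈ A i} := by
  rw [Set.setOf_forall]
  exact isClosed_iInter h

theorem isClosed_AdmSet (S : Dat D Z K) (P : Par D) (zs : D ⊕ Z → ℂ) (R : Finset D)
    (nb : Finset (D ⊕ Z)) : IsClosed (AdmSet S P zs R nb) := by
  have cz : ∀ i, Continuous fun q : (D ⊕ Z → ℂ) × (D → ℝ) => q.1 i := fun i => by fun_prop
  have cp : ∀ i, Continuous fun q : (D ⊕ Z → ℂ) × (D → ℝ) => q.2 i := fun i => by fun_prop
  have h1 : AdmSet S P zs R nb =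
      {q | ∀ i, ∀ _ : i ∈ R, (q.1 (.inl i)).im = 0 ∧ P.XM i ≤ (q.1 (.inl i)).re ∧
        (q.1 (.inl i)).re ≤ 1 ∧ q.2 i = 0} ∩
      {q | ∀ i, ∀ _ : i ∉ R, ∀ _ : Sum.inl i ∈ nb,
        (q.1 (.inl i)).im = 0 ∧ 0 ≤ (q.1 (.inl i)).re ∧ (q.1 (.inl i)).re ≤ P.XM i ∧ q.2 i = 0} ∩
      {q | ∀ v, ∀ _ : Sum.inr v ∈ nb, (q.1 (.inr v)).im = 0 ∧ |(q.1 (.inr v)).re| ≤ 1 / 2} ∩
      {q | ∀ i, ∀ _ : Sum.inl i ∉ nb, (q.1 (.inl i), q.2 i) ∈ P.OnSet (zs (.inl i)).im i} ∩
      {q | ∀ v, ∀ _ : Sum.inr v ∉ nb, q.1 (.inr v) ∈ ZSet (zs (.inr v)).im} ∩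
      {q | ∀ k, ∀ _ : (∀ v, S.A k (.inr v) = 0), ∀ _ : (∀ i, S.A k (.inl i) ≠ 0 → .inl i ∈ nb),
        (S.form k q.1).re ≤ 1} := by
    ext q
    constructor
    · intro h
      exact ⟨⟨⟨⟨⟨h.tail, h.reD⟩, h.reZ⟩, h.onD⟩, h.onZ⟩, h.wall⟩
    · rintro ⟨⟨⟨⟨⟨h1, h2⟩, h3⟩, h4⟩, h5⟩, h6⟩
      exact ⟨h1, h2, h3, h4, h5, h6⟩
  rw [h1]
  have cre : ∀ i, Continuous fun q : (D ⊕ Z → ℂ) × (D → ℝ) => (q.1 i).re := fun i =>
    Complex.continuous_re.comp (cz i)
  have cim : ∀ i, Continuous fun q : (D ⊕ Z → ℂ) × (D → ℝ) => (q.1 i).im := fun i =>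
    Complex.continuous_im.comp (cz i)
  refine IsClosed.inter (IsClosed.inter (IsClosed.inter (IsClosed.inter (IsClosed.inter ?_ ?_) ?_)
    ?_) ?_) ?_
  · simp only [Set.setOf_forall]
    refine isClosed_iInter fun i => isClosed_iInter fun _ => ?_
    exact (isClosed_eq (cim _) continuous_const).inter
      ((isClosed_le continuous_const (cre _)).inter
        ((isClosed_le (cre _) continuous_const).inter (isClosed_eq (cp i) continuous_const)))
  · simp only [Set.setOf_forall]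
    refine isClosed_iInter fun i => isClosed_iInter fun _ => isClosed_iInter fun _ => ?_
    exact (isClosed_eq (cim _) continuous_const).inter
      ((isClosed_le continuous_const (cre _)).inter
        ((isClosed_le (cre _) continuous_const).inter (isClosed_eq (cp i) continuous_const)))
  · simp only [Set.setOf_forall]
    refine isClosed_iInter fun v => isClosed_iInter fun _ => ?_
    exact (isClosed_eq (cim _) continuous_const).inter
      (isClosed_le (continuous_abs.comp (cre _)) continuous_const)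
  · simp only [Set.setOf_forall]
    refine isClosed_iInter fun i => isClosed_iInter fun _ => ?_
    exact (P.isCompact_OnSet _ i).isClosed.preimage ((cz (.inl i)).prodMk (cp i))
  · simp only [Set.setOf_forall]
    refine isClosed_iInter fun v => isClosed_iInter fun _ => ?_
    exact (isCompact_ZSet _).isClosed.preimage (cz _)
  · simp only [Set.setOf_forall]
    refine isClosed_iInter fun k => isClosed_iInter fun _ => isClosed_iInter fun _ => ?_
    exact isClosed_le (Complex.continuous_re.comp ((S.continuous_form k).comp continuous_fst))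
      continuous_const

theorem norm_le_of_real {z : ℂ} {B : ℝ} (h : z.im = 0) (h1 : |z.re| ≤ B) : ‖z‖ ≤ B := by
  have h2 : z = (z.re : ℂ) := Complex.ext (by simp) (by simp [h])
  rw [h2, Complex.norm_real, Real.norm_eq_abs]
  exact h1

theorem isCompact_AdmSet (S : Dat D Z K) (P : Par D) (hP : ∀ i, 0 ≤ P.XM i ∧ P.XM i ≤ 1)
    (zs : D ⊕ Z → ℂ) (R : Finset D) (nb : Finset (D ⊕ Z)) (hnb : ∀ i ∈ R, Sum.inl i ∈ nb) :
    IsCompact (AdmSet S P zs R nb) := by
  refine Metric.isCompact_of_isClosed_isBounded (isClosed_AdmSet S P zs R nb) ?_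
  -- bounds of the single coordinates
  have hB : ∀ i : D, ∃ B : ℝ, ∀ q ∈ P.OnSet (zs (.inl i)).im i, ‖q‖ ≤ B := fun i =>
    (P.isCompact_OnSet _ i).isBounded.exists_norm_le
  have hC : ∀ v : Z, ∃ B : ℝ, ∀ q ∈ ZSet (zs (.inr v)).im, ‖q‖ ≤ B := fun v =>
    (isCompact_ZSet _).isBounded.exists_norm_le
  choose B hB using hB
  choose C hC using hC
  rw [isBounded_iff_forall_norm_le]
  refine ⟨1 + ∑ i, |B i| + ∑ v, |C v|, ?_⟩
  intro q hq
  have hq' : Adm S P zs R nb q.1 q.2 := hq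
  have hBi : ∀ i, |B i| ≤ ∑ i, |B i| := fun i =>
    Finset.single_le_sum (f := fun i => |B i|) (fun _ _ => abs_nonneg _) (Finset.mem_univ i)
  have hCv : ∀ v, |C v| ≤ ∑ v, |C v| := fun v =>
    Finset.single_le_sum (f := fun v => |C v|) (fun _ _ => abs_nonneg _) (Finset.mem_univ v)
  have s1 : 0 ≤ ∑ i, |B i| := Finset.sum_nonneg fun _ _ => abs_nonneg _
  have s2 : 0 ≤ ∑ v, |C v| := Finset.sum_nonneg fun _ _ => abs_nonneg _
  have hD : ∀ i : D, ‖q.1 (.inl i)‖ ≤ 1 + ∑ i, |B i| ∧ ‖q.2 i‖ ≤ 1 + ∑ i, |B i| := by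
    intro i
    by_cases h1 : Sum.inl i ∈ nb
    · by_cases h2 : i ∈ R
      · obtain ⟨e1, e2, e3, e4⟩ := hq'.tail i h2
        refine ⟨(norm_le_of_real e1 (B := 1) ?_).trans (by linarith only [s1]), ?_⟩
        · rw [abs_le]
          exact ⟨by linarith only [e2, hP, (hP i).1], e3⟩
        · rw [e4, norm_zero]
          linarith only [s1]
      · obtain ⟨e1, e2, e3, e4⟩ := hq'.reD i h2 h1
        refine ⟨(norm_le_of_real e1 (B := 1) ?_).trans (by linarith only [s1]), ?_⟩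
        · rw [abs_le]
          exact ⟨by linarith only [e2], e3.trans (hP i).2⟩
        · rw [e4, norm_zero]
          linarith only [s1]
    · have h2 := hB i (q.1 (.inl i), q.2 i) (hq'.onD i h1)
      have h3 := h2.trans (le_abs_self _)
      have h4 := h3.trans (hBi i)
      rw [Prod.norm_def, max_le_iff] at h4
      exact ⟨h4.1.trans (by linarith only []), h4.2.trans (by linarith only [])⟩
  have hZ : ∀ v : Z, ‖q.1 (.inr v)‖ ≤ 1 + ∑ v, |C v| := by
    intro v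
    by_cases h1 : Sum.inr v ∈ nb
    · obtain ⟨e1, e2⟩ := hq'.reZ v h1
      refine (norm_le_of_real e1 e2).trans ?_
      linarith only [s2]
    · have h2 := hC v (q.1 (.inr v)) (hq'.onZ v h1)
      exact (h2.trans ((le_abs_self _).trans (hCv v))).trans (by linarith only [])
  rw [Prod.norm_def, max_le_iff, pi_norm_le_iff_of_nonneg (by linarith only [s1, s2]),
    pi_norm_le_iff_of_nonneg (by linarith only [s1, s2])]
  constructor
  · rintro (i | v)
    · exact (hD i).1.trans (by linarith only [s2])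
    · exact (hZ v).trans (by linarith only [s1])
  · intro i
    exact (hD i).2.trans (by linarith only [s2])

/-- strict inequality on a compact set, uniformly near it -/
theorem uniform_of_strict {X : Type*} [PseudoMetricSpace X] {A : Set X} (hA : IsCompact A)
    {f : X → ℝ} (hf : Continuous f) {c : ℝ} (h : ∀ x ∈ A, f x < c) :
    ∃ δ : ℝ, 0 < δ ∧ ∃ η : ℝ, 0 < η ∧ ∀ x ∈ A, ∀ y, dist y x ≤ η → f y ≤ c - δ := by
  rcases A.eq_empty_or_nonempty with h0 | h0
  · exact ⟨1, one_pos, 1, one_pos, fun x hx => by simp [h0] at hx⟩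
  obtain ⟨x0, hx0, hmax⟩ := hA.exists_isMaxOn h0 hf.continuousOn
  have h1 := h x0 hx0
  set δ := (c - f x0) / 2 with hδ
  have hδ0 : 0 < δ := by rw [hδ]; linarith only [h1]
  have hU : IsOpen {x | f x < c - δ} := isOpen_lt hf continuous_const
  have hAU : A ⊆ {x | f x < c - δ} := by
    intro x hx
    have h2 := hmax hx
    simp only [Set.mem_setOf_eq] at h2 ⊢
    have : c - δ = f x0 + δ := by rw [hδ]; ring
    linarith only [hδ, hδ0, h2]
  obtain ⟨η, hη, h2⟩ := hA.exists_cthickening_subset_open hU hAU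
  refine ⟨δ, hδ0, η, hη, fun x hx y hy => ?_⟩
  exact le_of_lt (h2 (Metric.mem_cthickening_of_dist_le y x η A hx hy))

theorem dist_pair_le {z z' : D ⊕ Z → ℂ} {p p' : D → ℝ} {η : ℝ} (hη : 0 ≤ η)
    (h1 : ∀ i, ‖z' i - z i‖ ≤ η) (h2 : ∀ i, |p' i - p i| ≤ η) :
    dist ((z', p') : (D ⊕ Z → ℂ) × (D → ℝ)) (z, p) ≤ η := by
  rw [Prod.dist_eq, max_le_iff, dist_pi_le_iff hη, dist_pi_le_iff hη]
  refine ⟨fun i => ?_, fun i => ?_⟩
  · rw [dist_eq_norm]
    exact h1 i
  · rw [Real.dist_eq]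
    exact h2 i

theorem continuous_pen (S : Dat D Z K) :
    Continuous fun q : (D ⊕ Z → ℂ) × (D → ℝ) => S.V q.1 - 2 * Real.pi * ∑ i, q.2 i := by
  have h1 := S.continuous_V
  exact (h1.comp continuous_fst).sub (continuous_const.mul (by fun_prop))

theorem dom_tail {S : Dat D Z K} {P : Par D} {nb : Finset D → Finset (D ⊕ Z)} {zs : D ⊕ Z → ℂ}
    (h : Sadl S P nb zs) {R : Finset D} (hR : R.Nonempty) (hR1 : ∀ i ∈ R, P.XM i < 1) :
    ∃ δ : ℝ, 0 < δ ∧ ∃ η : ℝ, 0 < η ∧ ∀ (z z' : D ⊕ Z → ℂ) (p p' : D → ℝ),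
      Adm S P zs R (nb R) z p → (∀ i, ‖z' i - z i‖ ≤ η) → (∀ i, |p' i - p i| ≤ η) →
      S.V z' - 2 * Real.pi * ∑ i, p' i ≤ (S.T zs).re - δ := by
  obtain ⟨δ, hδ, η, hη, h1⟩ := uniform_of_strict
    (isCompact_AdmSet S P (fun i => ⟨(h.par i).1.le, (h.par i).2.1⟩) zs R (nb R) (h.nb_sup R))
    (continuous_pen S) (c := (S.T zs).re) (fun q hq => h.dom R hR1 q.1 q.2 hq
      fun e => absurd e hR.ne_empty)
  exact ⟨δ, hδ, η, hη, fun z z' p p' hz h2 h3 =>
    h1 (z, p) hz (z', p') (dist_pair_le hη.le h2 h3)⟩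

theorem dom_main {S : Dat D Z K} {P : Par D} {nb : Finset D → Finset (D ⊕ Z)} {zs : D ⊕ Z → ℂ}
    (h : Sadl S P nb zs) {r : ℝ} (hr : 0 < r) :
    ∃ δ : ℝ, 0 < δ ∧ ∃ η : ℝ, 0 < η ∧ ∀ (z z' : D ⊕ Z → ℂ) (p p' : D → ℝ),
      Adm S P zs ∅ ∅ z p → ((∃ i, r ≤ ‖z i - zs i‖) ∨ ∃ i, r ≤ |p i|) →
      (∀ i, ‖z' i - z i‖ ≤ η) → (∀ i, |p' i - p i| ≤ η) →
      S.V z' - 2 * Real.pi * ∑ i, p' i ≤ (S.T zs).re - δ := by
  have hcomp := isCompact_AdmSet S P (fun i => ⟨(h.par i).1.le, (h.par i).2.1⟩) zs ∅ ∅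
    (by simp)
  have hcl : IsClosed {q : (D ⊕ Z → ℂ) × (D → ℝ) |
      (∃ i, r ≤ ‖q.1 i - zs i‖) ∨ ∃ i, r ≤ |q.2 i|} := by
    have h1 : {q : (D ⊕ Z → ℂ) × (D → ℝ) | (∃ i, r ≤ ‖q.1 i - zs i‖) ∨ ∃ i, r ≤ |q.2 i|} =
        (⋃ i, {q : (D ⊕ Z → ℂ) × (D → ℝ) | r ≤ ‖q.1 i - zs i‖}) ∪
          ⋃ i, {q : (D ⊕ Z → ℂ) × (D → ℝ) | r ≤ |q.2 i|} := by
      ext q
      simp
    rw [h1]
    refine IsClosed.union (isClosed_iUnion_of_finite fun i => ?_)
      (isClosed_iUnion_of_finite fun i => ?_)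
    · exact isClosed_le continuous_const (by fun_prop)
    · exact isClosed_le continuous_const (by fun_prop)
  obtain ⟨δ, hδ, η, hη, h1⟩ := uniform_of_strict (hcomp.inter_right hcl)
    (continuous_pen S) (c := (S.T zs).re) (fun q hq => by
      refine h.dom ∅ (by simp) q.1 q.2 (by rw [h.nb_empty]; exact hq.1) ?_
      intro _ hp hz
      rcases hq.2 with ⟨i, hi⟩ | ⟨i, hi⟩
      · rw [hz, sub_self, norm_zero] at hi
        linarith only [hr, hi]
      · rw [hp] at hi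
        simp at hi
        linarith only [hr, hi])
  exact ⟨δ, hδ, η, hη, fun z z' p p' hz hor h2 h3 =>
    h1 (z, p) ⟨hz, hor⟩ (z', p') (dist_pair_le hη.le h2 h3)⟩

/-- points of the paths of level `n` are near points of the limit paths -/
theorem On_near {P : Par D} {i : D} (hX : 0 < P.XM i ∧ P.XM i ≤ 1 ∧ 0 < P.cl i ∧ 0 < P.cr i) :
    ∃ C : ℝ, ∀ (n : ℕ) (t x : ℝ), 8 ≤ n → ea n ≤ x → x ≤ P.eb n i → ∃ x' : ℝ, 0 ≤ x' ∧
      x' ≤ P.XM i ∧ ‖P.ga n t i x - pt 0 (P.XM i) (P.cl i) (P.cr i) t x'‖ ≤ C * (1 + |t|) / n ∧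
      |tr (ea n) (P.eb n i) (P.cl i) (P.cr i) x - tr 0 (P.XM i) (P.cl i) (P.cr i) x'| ≤ C / n := by
  obtain ⟨hX0, hX1, hc, hc'⟩ := hX
  refine ⟨1 + 3 / P.cl i + 3 / P.cr i, ?_⟩
  intro n t x hn hx hx'
  have hn8 : (8 : ℝ) ≤ n := by exact_mod_cast hn
  have hn0 : (0 : ℝ) < n := by linarith only [hn8]
  have hea : ea n = 1 / (2 * n) := by
    unfold ea
    push_cast
    field_simp
    ring
  have heb : P.eb n i = ((P.m n i : ℝ) + 1 / 2) / n := rfl
  -- size of `m`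
  have hm1 : (P.m n i : ℝ) ≤ P.XM i * n := by
    have h1 : P.m n i ≤ ⌊P.XM i * n⌋₊ := min_le_left _ _
    have h2 : (⌊P.XM i * n⌋₊ : ℝ) ≤ P.XM i * n := Nat.floor_le (by positivity)
    have h3 : (P.m n i : ℝ) ≤ (⌊P.XM i * n⌋₊ : ℝ) := by exact_mod_cast h1
    linarith only [h2, h3]
  have hm2 : P.XM i * n - 2 ≤ (P.m n i : ℝ) := by
    unfold Par.m
    rw [Nat.cast_min]
    apply le_min
    · have := Nat.lt_floor_add_one (P.XM i * n)
      linarith only [this]
    · rw [Nat.cast_sub (by omega)]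
      push_cast
      nlinarith only [hX1]
  have hb1 : P.eb n i ≤ P.XM i + 1 / (2 * n) := by
    rw [heb, div_le_iff₀ hn0]
    have : (P.XM i + 1 / (2 * n)) * n = P.XM i * n + 1 / 2 := by field_simp
    linarith only [hm1, this]
  have hb2 : P.XM i - 3 / (2 * n) ≤ P.eb n i := by
    rw [heb, le_div_iff₀ hn0]
    have : (P.XM i - 3 / (2 * n)) * n = P.XM i * n - 3 / 2 := by field_simp
    linarith only [hm2, this]
  have hx0 : 0 ≤ x := le_trans (by rw [hea]; positivity) hx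
  refine ⟨min x (P.XM i), le_min hx0 hX0.le, min_le_right _ _, ?_⟩
  have hxx : |x - min x (P.XM i)| ≤ 1 / (2 * n) := by
    rcases le_total x (P.XM i) with h | h
    · rw [min_eq_left h, sub_self, abs_zero]
      positivity
    · rw [min_eq_right h, abs_of_nonneg (by linarith only [h])]
      linarith only [hx', hb1]
  set x' := min x (P.XM i) with hx'def
  have e1 : |(x - ea n) / P.cl i - (x' - 0) / P.cl i| ≤ 3 / P.cl i / n := by
    rw [← sub_div, abs_div, abs_of_pos hc, div_div, mul_comm (P.cl i), ← div_div]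
    apply div_le_div_of_nonneg_right _ hc.le
    have h1 : x - ea n - (x' - 0) = (x - x') - 1 / (2 * n) := by rw [hea]; ring
    rw [h1]
    refine (abs_sub _ _).trans ?_
    rw [abs_of_pos (by positivity : (0 : ℝ) < 1 / (2 * n))]
    have h2 : 1 / (2 * (n : ℝ)) + 1 / (2 * n) = 1 / n := by field_simp; ring
    have h3 : 1 / (n : ℝ) ≤ 3 / n := div_le_div_of_nonneg_right (by norm_num) hn0.le
    linarith only [hxx, h2, h3]
  have e2 : |(P.eb n i - x) / P.cr i - (P.XM i - x') / P.cr i| ≤ 3 / P.cr i / n := by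
    rw [← sub_div, abs_div, abs_of_pos hc', div_div, mul_comm (P.cr i), ← div_div]
    apply div_le_div_of_nonneg_right _ hc'.le
    have h1 : P.eb n i - x - (P.XM i - x') = (P.eb n i - P.XM i) - (x - x') := by ring
    rw [h1]
    refine (abs_sub _ _).trans ?_
    have h4 : |P.eb n i - P.XM i| ≤ 3 / (2 * n) := by
      rw [abs_le]
      constructor
      · linarith only [hb2]
      · have : 1 / (2 * (n : ℝ)) ≤ 3 / (2 * n) := div_le_div_of_nonneg_right (by norm_num)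
          (by positivity)
        linarith only [hb1, this]
    have h2 : 3 / (2 * (n : ℝ)) + 1 / (2 * n) = 2 / n := by field_simp; ring
    have h3 : 2 / (n : ℝ) ≤ 3 / n := div_le_div_of_nonneg_right (by norm_num) hn0.le
    linarith only [hxx, h4, h2, h3]
  have e3 : |tr (ea n) (P.eb n i) (P.cl i) (P.cr i) x - tr 0 (P.XM i) (P.cl i) (P.cr i) x'| ≤
      (3 / P.cl i + 3 / P.cr i) / n := by
    unfold tr
    refine (abs_max_sub_max_le_max _ _ _ _).trans (max_le ?_ ?_)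
    · rw [sub_self, abs_zero]
      positivity
    refine (abs_min_sub_min_le_max _ _ _ _).trans (max_le ?_ ?_)
    · rw [sub_self, abs_zero]
      positivity
    refine (abs_min_sub_min_le_max _ _ _ _).trans (max_le ?_ ?_)
    · refine e1.trans ?_
      rw [add_div]
      have : 0 ≤ 3 / P.cr i / n := by positivity
      linarith only [this]
    · refine e2.trans ?_
      rw [add_div]
      have : 0 ≤ 3 / P.cl i / n := by positivity
      linarith only [this]
  constructor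
  · have h1 : P.ga n t i x - pt 0 (P.XM i) (P.cl i) (P.cr i) t x' =
        ((x - x' : ℝ) : ℂ) + ((t * (tr (ea n) (P.eb n i) (P.cl i) (P.cr i) x -
          tr 0 (P.XM i) (P.cl i) (P.cr i) x') : ℝ) : ℂ) * Complex.I := by
      unfold Par.ga pt
      push_cast
      ring
    rw [h1]
    refine (norm_add_le _ _).trans ?_
    rw [norm_mul, Complex.norm_I, mul_one, Complex.norm_real, Complex.norm_real,
      Real.norm_eq_abs, Real.norm_eq_abs, abs_mul]
    have h2 := mul_le_mul_of_nonneg_left e3 (abs_nonneg t)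
    have h3 : 1 / (2 * (n : ℝ)) ≤ 1 / n := by
      apply one_div_le_one_div_of_le hn0
      linarith only [hn8]
    have h4 : (1 + 3 / P.cl i + 3 / P.cr i) * (1 + |t|) / n =
        1 / n + |t| * ((3 / P.cl i + 3 / P.cr i) / n) + (3 / P.cl i + 3 / P.cr i) / n + |t| / n := by
      ring
    rw [h4]
    have h5 : 0 ≤ (3 / P.cl i + 3 / P.cr i) / n := by positivity
    have h6 : 0 ≤ |t| / n := by positivity
    linarith only [hxx, h2, h3, h5, h6]
  · refine e3.trans ?_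
    apply div_le_div_of_nonneg_right _ hn0.le
    linarith only []

end Pool.Agent.Work.MP_b30479_gt.G2
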