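import Pool.Agent.Work.MP_b30479_gt.VC.LapN

/-!
# Abstract core of the saddle point method (all hyperbolic two-bridge links)

`nn s = 2 s + 1`.
* `core_lim`: Laplace integral over a bounded set of `ℝ^ι` with a sharp bound near the critical
  point, an exponentially small bound outside, and a local limit.
* `final_lim`: the same for a sequence which differs from the integral by an exponentially
  smaller term.
* `LocLim`: local limits on the scale `1/√n` of a factor along complex directions, closed under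
  products.
-/

namespace Pool.Agent.Work.MP_b30479_gt.G2

open Filter Topology MeasureTheory VC

/-- the odd number `n = 2 s + 1` -/
def nn (s : ℕ) : ℝ := ((2 * s + 1 : ℕ) : ℝ)

theorem nn_pos (s : ℕ) : 0 < nn s := by unfold nn; positivity

theorem nn_ge_one (s : ℕ) : 1 ≤ nn s := by
  unfold nn
  exact_mod_cast Nat.succ_le_succ (Nat.zero_le (2 * s))

theorem tendsto_nn : Tendsto nn atTop atTop := by
  have hodd : Tendsto (fun s : ℕ => 2 * s + 1) atTop atTop :=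
    tendsto_atTop_mono (fun s => by simp only [id]; omega) tendsto_id
  exact tendsto_natCast_atTop_atTop.comp hodd

/-- a power times a decreasing exponential is bounded -/
theorem rpow_mul_exp_le (K : ℝ) {δ : ℝ} (hδ : 0 < δ) :
    ∃ C : ℝ, ∀ x : ℝ, 1 ≤ x → x ^ K * Real.exp (-(δ * x)) ≤ C := by
  have h := tendsto_rpow_mul_exp_neg_mul_atTop_nhds_zero K δ hδ
  obtain ⟨a, ha⟩ := (h.eventually (gt_mem_nhds zero_lt_one)).exists_forall_of_atTop
  obtain ⟨B, hB⟩ := (isCompact_Icc (a := (1 : ℝ)) (b := max a 1)).bddAbove_image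
    (f := fun x : ℝ => x ^ K * Real.exp (-δ * x)) (by
      refine ContinuousOn.mul ?_ (by fun_prop)
      intro x hx
      exact (Real.continuousAt_rpow_const x K (Or.inl (by linarith only [hx, hx.1] : x ≠ 0))).continuousWithinAt)
  refine ⟨max B 1, fun x hx => ?_⟩
  have e : -(δ * x) = -δ * x := by ring
  rw [e]
  rcases le_total x (max a 1) with h1 | h1
  · exact (hB ⟨x, ⟨hx, h1⟩, rfl⟩).trans (le_max_left _ _)
  · exact (ha x ((le_max_left _ _).trans h1)).le.trans (le_max_right _ _)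

section core

variable {ι : Type*} [Fintype ι]

/-- the sum of squares of the distances to `x0` -/
def sq (x0 x : ι → ℝ) : ℝ := ∑ i, (x i - x0 i) ^ 2

theorem sq_nonneg' (x0 x : ι → ℝ) : 0 ≤ sq x0 x := Finset.sum_nonneg fun _ _ => sq_nonneg _

/-- one bound from a sharp bound near the critical point and a bound outside -/
theorem bound_merge {S U : Set (ι → ℝ)} {x0 : ι → ℝ} {R : ℝ} (hR : ∀ x ∈ S, sq x0 x ≤ R)
    {F : ℕ → (ι → ℝ) → ℂ} {κ V : ℝ}
    (near : ∃ C c : ℝ, 0 < c ∧ ∀ᶠ s in atTop, ∀ x ∈ S, x ∈ U →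
      ‖F s x‖ ≤ C * nn s ^ κ * Real.exp (nn s * (V - c * sq x0 x)))
    (far : ∃ C K δ : ℝ, 0 < δ ∧ ∀ᶠ s in atTop, ∀ x ∈ S, x ∉ U →
      ‖F s x‖ ≤ C * nn s ^ K * Real.exp (nn s * (V - δ))) :
    ∃ C c : ℝ, 0 < c ∧ ∀ᶠ s in atTop, ∀ x ∈ S,
      ‖F s x‖ ≤ C * nn s ^ κ * Real.exp (nn s * (V - c * sq x0 x)) := by
  obtain ⟨C1, c1, hc1, h1⟩ := near
  obtain ⟨C2, K, δ, hδ, h2⟩ := far
  obtain ⟨B, hB⟩ := rpow_mul_exp_le (K - κ) (half_pos hδ)
  have hR1 : 0 < |R| + 1 := by positivity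
  refine ⟨|C1| + |C2| * |B|, min c1 (δ / 2 / (|R| + 1)), lt_min hc1 (by positivity), ?_⟩
  filter_upwards [h1, h2] with s hs1 hs2 x hx
  have hn : 0 < nn s := nn_pos s
  have hq := sq_nonneg' x0 x
  have hqR := hR x hx
  by_cases hU : x ∈ U
  · refine (hs1 x hx hU).trans ?_
    have h3 : Real.exp (nn s * (V - c1 * sq x0 x)) ≤
        Real.exp (nn s * (V - min c1 (δ / 2 / (|R| + 1)) * sq x0 x)) := by
      refine Real.exp_le_exp.mpr (mul_le_mul_of_nonneg_left ?_ hn.le)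
      have := mul_le_mul_of_nonneg_right (min_le_left c1 (δ / 2 / (|R| + 1))) hq
      linarith only [this]
    have h4 : C1 ≤ |C1| + |C2| * |B| := by
      have := le_abs_self C1
      have : 0 ≤ |C2| * |B| := by positivity
      linarith
    refine mul_le_mul (mul_le_mul_of_nonneg_right h4 (Real.rpow_nonneg hn.le _)) h3
      (Real.exp_pos _).le (by positivity)
  · refine (hs2 x hx hU).trans ?_
    have h3 : V - δ ≤ V - min c1 (δ / 2 / (|R| + 1)) * sq x0 x - δ / 2 := by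
      have h5 := mul_le_mul_of_nonneg_right (min_le_right c1 (δ / 2 / (|R| + 1))) hq
      have h6 : δ / 2 / (|R| + 1) * sq x0 x ≤ δ / 2 / (|R| + 1) * (|R| + 1) :=
        mul_le_mul_of_nonneg_left (by linarith only [hqR, le_abs_self R]) (by positivity)
      have h7 : δ / 2 / (|R| + 1) * (|R| + 1) = δ / 2 := by field_simp
      linarith only [h5, h6, h7]
    have h8 : nn s ^ K * Real.exp (nn s * (V - δ)) ≤
        |B| * (nn s ^ κ * Real.exp (nn s *
          (V - min c1 (δ / 2 / (|R| + 1)) * sq x0 x))) := by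
      have h9 : Real.exp (nn s * (V - δ)) ≤ Real.exp (nn s *
          (V - min c1 (δ / 2 / (|R| + 1)) * sq x0 x)) * Real.exp (-(δ / 2 * nn s)) := by
        rw [← Real.exp_add]
        refine Real.exp_le_exp.mpr ?_
        have := mul_le_mul_of_nonneg_left h3 hn.le
        linarith only [this]
      have h10 : nn s ^ K = nn s ^ κ * nn s ^ (K - κ) := by
        rw [← Real.rpow_add hn]; congr 1; ring
      have h11 := (hB (nn s) (nn_ge_one s)).trans (le_abs_self B)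
      calc nn s ^ K * Real.exp (nn s * (V - δ))
          ≤ nn s ^ K * (Real.exp (nn s *
            (V - min c1 (δ / 2 / (|R| + 1)) * sq x0 x)) * Real.exp (-(δ / 2 * nn s))) :=
            mul_le_mul_of_nonneg_left h9 (Real.rpow_nonneg hn.le _)
        _ = (nn s ^ (K - κ) * Real.exp (-(δ / 2 * nn s))) * (nn s ^ κ * Real.exp (nn s *
            (V - min c1 (δ / 2 / (|R| + 1)) * sq x0 x))) := by rw [h10]; ring
        _ ≤ _ := mul_le_mul_of_nonneg_right h11 (by positivity)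
    calc C2 * nn s ^ K * Real.exp (nn s * (V - δ))
        = C2 * (nn s ^ K * Real.exp (nn s * (V - δ))) := by ring
      _ ≤ |C2| * (nn s ^ K * Real.exp (nn s * (V - δ))) :=
          mul_le_mul_of_nonneg_right (le_abs_self _) (by positivity)
      _ ≤ |C2| * (|B| * (nn s ^ κ * Real.exp (nn s *
          (V - min c1 (δ / 2 / (|R| + 1)) * sq x0 x)))) :=
          mul_le_mul_of_nonneg_left h8 (abs_nonneg _)
      _ ≤ (|C1| + |C2| * |B|) * nn s ^ κ * Real.exp (nn s *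
          (V - min c1 (δ / 2 / (|R| + 1)) * sq x0 x)) := by
          have : 0 ≤ |C1| * (nn s ^ κ * Real.exp (nn s *
            (V - min c1 (δ / 2 / (|R| + 1)) * sq x0 x))) := by positivity
          nlinarith only [this, this]

/-- **Core.** Laplace asymptotics of `∫_S F_s`, `n = 2 s + 1`. -/
theorem core_lim {S U : Set (ι → ℝ)} (hS : MeasurableSet S) {x0 : ι → ℝ} (hx : S ∈ 𝓝 x0)
    {R : ℝ} (hR : ∀ x ∈ S, sq x0 x ≤ R)
    {F : ℕ → (ι → ℝ) → ℂ} (hm : ∀ s, Measurable (F s)) {κ : ℝ} {Ψ : ℂ}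
    (near : ∃ C c : ℝ, 0 < c ∧ ∀ᶠ s in atTop, ∀ x ∈ S, x ∈ U →
      ‖F s x‖ ≤ C * nn s ^ κ * Real.exp (nn s * (Ψ.re - c * sq x0 x)))
    (far : ∃ C K δ : ℝ, 0 < δ ∧ ∀ᶠ s in atTop, ∀ x ∈ S, x ∉ U →
      ‖F s x‖ ≤ C * nn s ^ K * Real.exp (nn s * (Ψ.re - δ)))
    {A : ℂ} (hA : A ≠ 0) {Q : (ι → ℝ) → ℂ} (hQ : IsQ Q)
    (hlim : ∀ X : ι → ℝ, Tendsto (fun s => ((nn s ^ (-κ) : ℝ) : ℂ) *
      Complex.exp (-((nn s : ℂ) * Ψ)) * F s (fun i => x0 i + X i / √(nn s))) atTop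
        (𝓝 (A * Complex.exp (Q X)))) :
    ∃ L : ℂ, L ≠ 0 ∧ Tendsto (fun s => ((nn s ^ ((Fintype.card ι : ℝ) / 2 - κ) : ℝ) : ℂ) *
      Complex.exp (-((nn s : ℂ) * Ψ)) * ∫ x in S, F s x) atTop (𝓝 L) := by
  obtain ⟨C, c, hc, hb'⟩ := bound_merge hR near far
  set F' : ℕ → (ι → ℝ) → ℂ := fun s x =>
    ((nn s ^ (-κ) : ℝ) : ℂ) * Complex.exp (-((nn s : ℂ) * Ψ)) * F s x with hF
  have hb : ∀ᶠ s in atTop, ∀ x ∈ S, ‖F' s x‖ ≤
      C * Real.exp (-(nn s * (c * ∑ i, (x i - x0 i) ^ 2))) := by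
    filter_upwards [hb'] with s hs x hx'
    have hn := nn_pos s
    rw [hF]
    simp only
    rw [norm_mul, norm_mul, Complex.norm_real, Complex.norm_exp, Real.norm_eq_abs,
      abs_of_nonneg (Real.rpow_nonneg hn.le _)]
    refine (mul_le_mul_of_nonneg_left (hs x hx') (by positivity)).trans (le_of_eq ?_)
    have h3 : (-((nn s : ℂ) * Ψ)).re = -(nn s * Ψ.re) := by
      rw [Complex.neg_re, Complex.re_ofReal_mul]
    rw [h3]
    have h4 : nn s ^ (-κ) * nn s ^ κ = 1 := by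
      rw [← Real.rpow_add hn, neg_add_cancel, Real.rpow_zero]
    have h5 : Real.exp (-(nn s * Ψ.re)) * Real.exp (nn s * (Ψ.re - c * sq x0 x)) =
        Real.exp (-(nn s * (c * ∑ i, (x i - x0 i) ^ 2))) := by
      rw [← Real.exp_add]
      congr 1
      unfold sq
      ring
    calc nn s ^ (-κ) * Real.exp (-(nn s * Ψ.re)) *
          (C * nn s ^ κ * Real.exp (nn s * (Ψ.re - c * sq x0 x)))
        = C * (nn s ^ (-κ) * nn s ^ κ) * (Real.exp (-(nn s * Ψ.re)) *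
          Real.exp (nn s * (Ψ.re - c * sq x0 x))) := by ring
      _ = _ := by rw [h4, h5, mul_one]
  have hlap := VC.laplace_nd hS hx tendsto_nn (F := F')
    (fun s => (hm s).const_mul _) hc hb hlim
  have hbd := VC.laplace_nd_bound hx tendsto_nn (F := F') hb hlim
  refine ⟨∫ X : ι → ℝ, A * Complex.exp (Q X), ?_, ?_⟩
  · rw [integral_const_mul]
    refine mul_ne_zero hA (hQ.integral_ne_zero (C := C / ‖A‖) hc fun X => ?_)
    have h1 := hbd X
    rw [norm_mul, Complex.norm_exp] at h1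
    have hK0 : 0 < ‖A‖ := norm_pos_iff.mpr hA
    rw [div_mul_eq_mul_div, le_div_iff₀ hK0, mul_comm]
    exact h1
  · refine hlap.congr fun s => ?_
    have hn := nn_pos s
    rw [hF]
    simp only
    rw [integral_const_mul, ← mul_assoc, ← mul_assoc, ← Complex.ofReal_mul, ← Real.rpow_add hn,
      sub_eq_add_neg]

/-- The final form: `a s = ∫ + err`, with an exponentially smaller error. -/
theorem final_lim {κ p : ℝ} {Ψ L : ℂ} {I a : ℕ → ℂ}
    (hI : Tendsto (fun s => ((nn s ^ p : ℝ) : ℂ) * Complex.exp (-((nn s : ℂ) * Ψ)) * I s)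
      atTop (𝓝 L))
    (herr : ∃ C K δ : ℝ, 0 < δ ∧ ∀ᶠ s in atTop,
      ‖a s - I s‖ ≤ C * nn s ^ K * Real.exp (nn s * (Ψ.re - δ))) :
    Tendsto (fun s => ((nn s ^ p : ℝ) : ℂ) * Complex.exp (-((nn s : ℂ) * Ψ)) * a s)
      atTop (𝓝 L) := by
  obtain ⟨C, K, δ, hδ, h⟩ := herr
  have h1 : Tendsto (fun s => ((nn s ^ p : ℝ) : ℂ) * Complex.exp (-((nn s : ℂ) * Ψ)) *
      (a s - I s)) atTop (𝓝 0) := by
    have h0 : Tendsto (fun s => C * (nn s ^ (p + K) * Real.exp (-δ * nn s))) atTop (𝓝 0) := by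
      have := (tendsto_rpow_mul_exp_neg_mul_atTop_nhds_zero (p + K) δ hδ).comp tendsto_nn
      simpa using this.const_mul C
    refine squeeze_zero_norm' ?_ h0
    filter_upwards [h] with s hs
    have hn := nn_pos s
    rw [norm_mul, norm_mul, Complex.norm_real, Complex.norm_exp, Real.norm_eq_abs,
      abs_of_nonneg (Real.rpow_nonneg hn.le _)]
    have h3 : (-((nn s : ℂ) * Ψ)).re = -(nn s * Ψ.re) := by
      rw [Complex.neg_re, Complex.re_ofReal_mul]
    rw [h3]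
    refine (mul_le_mul_of_nonneg_left hs (by positivity)).trans (le_of_eq ?_)
    have h5 : Real.exp (-(nn s * Ψ.re)) * Real.exp (nn s * (Ψ.re - δ)) =
        Real.exp (-δ * nn s) := by
      rw [← Real.exp_add]
      congr 1
      ring
    rw [Real.rpow_add hn, ← h5]
    ring
  have h2 := hI.add h1
  rw [add_zero] at h2
  refine h2.congr fun s => ?_
  ring

end core

/-! ### local limits of the factors -/

section loc

variable {ι : Type*} [Fintype ι]

/-- `φ_n (z + δ X / √n) ~ A n^κ exp (n ψ + √n ∑ l_i δ_i X_i + Q X)`. -/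
def LocLim (φ : ℕ → (ι → ℂ) → ℂ) (κ : ℝ) (ψ : ℂ) (l z δ : ι → ℂ) : Prop :=
  ∃ A : ℂ, A ≠ 0 ∧ ∃ Q : (ι → ℝ) → ℂ, IsQ Q ∧ ∀ X : ι → ℝ,
    Tendsto (fun s => ((nn s ^ (-κ) : ℝ) : ℂ) *
      Complex.exp (-((nn s : ℂ) * ψ) - √(nn s) * ∑ i, l i * (δ i * X i)) *
        φ s (fun i => z i + δ i * X i / √(nn s))) atTop (𝓝 (A * Complex.exp (Q X)))

theorem LocLim.one (z δ : ι → ℂ) : LocLim (fun _ _ => 1) 0 0 0 z δ :=
  ⟨1, one_ne_zero, _, IsQ.zero, fun X => by simp⟩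

theorem LocLim.mul {φ φ' : ℕ → (ι → ℂ) → ℂ} {κ κ' : ℝ} {ψ ψ' : ℂ} {l l' z δ : ι → ℂ}
    (h : LocLim φ κ ψ l z δ) (h' : LocLim φ' κ' ψ' l' z δ) :
    LocLim (fun s x => φ s x * φ' s x) (κ + κ') (ψ + ψ') (l + l') z δ := by
  obtain ⟨A, hA, Q, hQ, h1⟩ := h
  obtain ⟨A', hA', Q', hQ', h1'⟩ := h'
  refine ⟨A * A', mul_ne_zero hA hA', _, hQ.add hQ', fun X => ?_⟩
  have h2 := (h1 X).mul (h1' X)
  have e1 : A * Complex.exp (Q X) * (A' * Complex.exp (Q' X)) =
      A * A' * Complex.exp (Q X + Q' X) := by rw [Complex.exp_add]; ring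
  rw [e1] at h2
  refine h2.congr fun s => ?_
  have hn := nn_pos s
  have e2 : ((nn s ^ (-(κ + κ')) : ℝ) : ℂ) =
      ((nn s ^ (-κ) : ℝ) : ℂ) * ((nn s ^ (-κ') : ℝ) : ℂ) := by
    rw [← Complex.ofReal_mul, ← Real.rpow_add hn]
    congr 2
    ring
  have e3 : Complex.exp (-((nn s : ℂ) * (ψ + ψ')) - √(nn s) * ∑ i, (l + l') i * (δ i * X i)) =
      Complex.exp (-((nn s : ℂ) * ψ) - √(nn s) * ∑ i, l i * (δ i * X i)) *
      Complex.exp (-((nn s : ℂ) * ψ') - √(nn s) * ∑ i, l' i * (δ i * X i)) := by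
    rw [← Complex.exp_add]
    congr 1
    have : ∑ i, (l + l') i * (δ i * X i) =
        ∑ i, l i * (δ i * X i) + ∑ i, l' i * (δ i * X i) := by
      rw [← Finset.sum_add_distrib]
      exact Finset.sum_congr rfl fun i _ => by simp [add_mul]
    rw [this]
    ring
  rw [e2, e3]
  ring

theorem LocLim.prod {E : Type*} (t : Finset E) {φ : E → ℕ → (ι → ℂ) → ℂ} {κ : E → ℝ}
    {ψ : E → ℂ} {l : E → ι → ℂ} {z δ : ι → ℂ}
    (h : ∀ e ∈ t, LocLim (φ e) (κ e) (ψ e) (l e) z δ) :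
    LocLim (fun s x => ∏ e ∈ t, φ e s x) (∑ e ∈ t, κ e) (∑ e ∈ t, ψ e) (∑ e ∈ t, l e) z δ := by
  classical
  induction t using Finset.induction_on with
  | empty => simpa using LocLim.one z δ
  | insert a t ha ih =>
    simp only [Finset.prod_insert ha, Finset.sum_insert ha]
    exact (h a (Finset.mem_insert_self a t)).mul
      (ih fun e he => h e (Finset.mem_insert_of_mem he))

/-- At a critical point the linear term disappears. -/
theorem LocLim.crit {φ : ℕ → (ι → ℂ) → ℂ} {κ : ℝ} {ψ : ℂ} {l z δ : ι → ℂ}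
    (h : LocLim φ κ ψ l z δ) (hl : ∀ i, l i = 0) :
    ∃ A : ℂ, A ≠ 0 ∧ ∃ Q : (ι → ℝ) → ℂ, IsQ Q ∧ ∀ X : ι → ℝ,
      Tendsto (fun s => ((nn s ^ (-κ) : ℝ) : ℂ) * Complex.exp (-((nn s : ℂ) * ψ)) *
        φ s (fun i => z i + δ i * X i / √(nn s))) atTop (𝓝 (A * Complex.exp (Q X))) := by
  obtain ⟨A, hA, Q, hQ, h1⟩ := h
  refine ⟨A, hA, Q, hQ, fun X => ?_⟩
  simpa [hl] using h1 X

/-- A factor `h_n (c + ∑ a_i z_i)` of one complex variable. -/
theorem LocLim.of_one {h : ℕ → ℂ → ℂ} {κ : ℝ} {ψ μ ν A : ℂ} (hA : A ≠ 0) {c : ℂ} {a z δ : ι → ℂ}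
    (h1 : ∀ Z : ℂ, Tendsto (fun s => ((nn s ^ (-κ) : ℝ) : ℂ) *
      Complex.exp (-((nn s : ℂ) * ψ) - √(nn s) * (μ * Z)) *
        h s (c + ∑ i, a i * z i + Z / √(nn s))) atTop (𝓝 (A * Complex.exp (ν * Z ^ 2)))) :
    LocLim (fun s x => h s (c + ∑ i, a i * x i)) κ ψ (fun i => μ * a i) z δ := by
  refine ⟨A, hA, fun X => ν * (∑ i, (a i * δ i) * X i) ^ 2, (IsQ.sq _).const_mul ν, fun X => ?_⟩
  refine (h1 (∑ i, (a i * δ i) * X i)).congr fun s => ?_
  have e1 : μ * ∑ i, a i * δ i * (X i : ℂ) = ∑ i, μ * a i * (δ i * X i) := by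
    rw [Finset.mul_sum]
    exact Finset.sum_congr rfl fun i _ => by ring
  have e2 : c + ∑ i, a i * z i + (∑ i, a i * δ i * (X i : ℂ)) / √(nn s) =
      c + ∑ i, a i * (z i + δ i * X i / √(nn s)) := by
    rw [Finset.sum_div, add_assoc, ← Finset.sum_add_distrib]
    congr 1
    exact Finset.sum_congr rfl fun i _ => by ring
  rw [e1, e2]

/-- A factor with a nonzero limit at the critical point. -/
theorem LocLim.of_tendsto {h : ℕ → (ι → ℂ) → ℂ} {A : ℂ} (hA : A ≠ 0) {z δ : ι → ℂ}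
    (h1 : ∀ X : ι → ℝ, Tendsto (fun s => h s (fun i => z i + δ i * X i / √(nn s))) atTop
      (𝓝 A)) : LocLim h 0 0 0 z δ :=
  ⟨A, hA, _, IsQ.zero, fun X => by simpa using h1 X⟩

theorem LocLim.congr {φ φ' : ℕ → (ι → ℂ) → ℂ} {κ κ' : ℝ} {ψ ψ' : ℂ} {l l' z δ : ι → ℂ}
    (h : LocLim φ κ ψ l z δ) (h1 : φ = φ') (h2 : κ = κ') (h3 : ψ = ψ') (h4 : l = l') :
    LocLim φ' κ' ψ' l' z δ := by
  subst h1 h2 h3 h4; exact h

/-- A factor `exp (n q)` with a polynomial `q` of degree `2`: `q = ∑ u_k (c_k + ∑ a_ki z_i)^2`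
plus an affine form; here one square. -/
theorem LocLim.exp_sq (u c : ℂ) (a z δ : ι → ℂ) :
    LocLim (fun s x => Complex.exp ((nn s : ℂ) * (u * (c + ∑ i, a i * x i) ^ 2))) 0
      (u * (c + ∑ i, a i * z i) ^ 2) (fun i => 2 * u * (c + ∑ j, a j * z j) * a i) z δ := by
  refine (LocLim.of_one (h := fun s w => Complex.exp ((nn s : ℂ) * (u * w ^ 2)))
    (κ := 0) (ψ := u * (c + ∑ i, a i * z i) ^ 2) (μ := 2 * u * (c + ∑ j, a j * z j)) (ν := u)
    (A := 1) one_ne_zero (c := c) (a := a) (z := z) (δ := δ) fun Z => ?_)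
  refine tendsto_const_nhds.congr fun s => ?_
  have hn := nn_pos s
  have hq : ((√(nn s) : ℝ) : ℂ) ≠ 0 := by
    exact_mod_cast (Real.sqrt_pos.mpr hn).ne'
  have hq2 : ((√(nn s) : ℝ) : ℂ) ^ 2 = nn s := by
    rw [← Complex.ofReal_pow, Real.sq_sqrt hn.le]
  rw [neg_zero, Real.rpow_zero, Complex.ofReal_one, one_mul, one_mul, ← Complex.exp_add]
  congr 1
  set w := c + ∑ i, a i * z i
  rw [← hq2]
  field_simp
  ring

theorem LocLim.exp_aff (c : ℂ) (a z δ : ι → ℂ) :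
    LocLim (fun s x => Complex.exp ((nn s : ℂ) * (c + ∑ i, a i * x i))) 0
      (c + ∑ i, a i * z i) a z δ := by
  refine LocLim.congr (LocLim.of_one (h := fun s w => Complex.exp ((nn s : ℂ) * w))
    (κ := 0) (ψ := c + ∑ i, a i * z i) (μ := 1) (ν := 0)
    (A := 1) one_ne_zero (c := c) (a := a) (z := z) (δ := δ) fun Z => ?_)
    rfl rfl rfl (by funext i; simp)
  refine tendsto_const_nhds.congr fun s => ?_
  have hn := nn_pos s
  have hq : ((√(nn s) : ℝ) : ℂ) ≠ 0 := by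
    exact_mod_cast (Real.sqrt_pos.mpr hn).ne'
  have hq2 : ((√(nn s) : ℝ) : ℂ) ^ 2 = nn s := by
    rw [← Complex.ofReal_pow, Real.sq_sqrt hn.le]
  rw [neg_zero, Real.rpow_zero, Complex.ofReal_one, one_mul, one_mul, ← Complex.exp_add]
  congr 1
  set w := c + ∑ i, a i * z i
  rw [← hq2]
  field_simp
  ring

end loc

end Pool.Agent.Work.MP_b30479_gt.G2
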