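import Mathlib

/-!
# Every rational number is the value of a good subtractive continued fraction

`hj [b₁, b₂, …] = b₁ - 1/(b₂ - 1/(b₃ - ⋯))`.  The two-bridge diagram with twist regions
`b₁, b₂, …` (word `σ_2^{b₁} σ_1^{b₂} ⋯`) has fraction `hj b`.
-/

namespace Pool.Agent.Work.MP_b30479_gt.G2

/-- the value `b₁ - 1/(b₂ - 1/(b₃ - ⋯))` of the subtractive continued fraction -/
def hj : List ℤ → ℚ
  | [] => 0
  | [b] => b
  | b :: c :: l => b - 1 / hj (c :: l)

lemma hj_neg : ∀ l : List ℤ, hj (l.map fun b => -b) = -hj l
  | [] => by simp [hj]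
  | [b] => by simp [hj]
  | b :: c :: l => by
      have := hj_neg (c :: l)
      simp only [List.map_cons] at this ⊢
      simp only [hj]
      rw [this]
      push_cast
      rw [div_neg]
      ring

/-- nearest integer expansions (ties towards zero) -/
structure NI (x : ℚ) (l : List ℤ) : Prop where
  ne : l ≠ []
  val : hj l = x
  two : ∀ b ∈ l, 2 ≤ |b|
  chain : l.IsChain fun b c => |b| = 2 → b * c < 0
  last : ∀ l₀ c d, l = l₀ ++ [c, d] → |d| = 2 → c * d < 0
  head : ∀ (b : ℤ) (l' : List ℤ), l = b :: l' → 0 < x * b
  near : ∀ (l₀ : List ℤ) (b : ℤ) (l' : List ℤ), l = l₀ ++ b :: l' → |(b : ℚ) - hj (b :: l')| ≤ 1 / 2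

lemma NI.neg {x : ℚ} {l : List ℤ} (h : NI x l) : NI (-x) (l.map fun b => -b) := by
  refine ⟨by simpa using h.ne, by rw [hj_neg, h.val], ?_, ?_, ?_, ?_, ?_⟩
  · intro b hb
    simp only [List.mem_map] at hb
    obtain ⟨c, hc, rfl⟩ := hb
    rw [abs_neg]
    exact h.two c hc
  · rw [List.isChain_map]
    refine h.chain.imp ?_
    intro a b hab h2
    rw [abs_neg] at h2
    have := hab h2
    linarith [neg_mul_neg a b]
  · intro l₀ c d hl hd
    have hl' : l = (l₀.map fun b => -b) ++ [-c, -d] := by
      have := congrArg (List.map fun b : ℤ => -b) hl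
      simpa [List.map_map, Function.comp_def] using this
    have := h.last _ _ _ hl' (by rwa [abs_neg])
    linarith [neg_mul_neg c d]
  · intro b l' hl
    have hl' : l = -b :: (l'.map fun b => -b) := by
      have := congrArg (List.map fun b : ℤ => -b) hl
      simpa [List.map_map, Function.comp_def] using this
    have := h.head _ _ hl'
    push_cast at this
    linarith
  · intro l₀ b l' hl
    have hl' : l = (l₀.map fun b => -b) ++ -b :: (l'.map fun b => -b) := by
      have := congrArg (List.map fun b : ℤ => -b) hl
      simpa [List.map_map, Function.comp_def] using this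
    have := h.near _ _ _ hl'
    have e : hj (-b :: (l'.map fun b => -b)) = -hj (b :: l') := by
      rw [← hj_neg]
      rfl
    rw [e] at this
    push_cast at this
    rw [← abs_neg]
    convert this using 2
    ring

/-- rounding to the nearest integer, ties towards zero, for `p ≥ 2q` -/
lemma round_ex {p q : ℤ} (hq : 0 < q) (hx : 2 * q ≤ p) :
    ∃ b : ℤ, 2 ≤ b ∧ -q ≤ 2 * (b * q - p) ∧ 2 * (b * q - p) < q := by
  refine ⟨(2 * p + q - 1) / (2 * q), ?_, ?_, ?_⟩
  · rw [Int.le_ediv_iff_mul_le (by omega)]
    linarith
  · have := Int.lt_ediv_add_one_mul_self (2 * p + q - 1) (show 0 < 2 * q by omega)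
    nlinarith
  · have := Int.ediv_mul_le (2 * p + q - 1) (show 2 * q ≠ 0 by omega)
    nlinarith

lemma NI.cons {x y : ℚ} {b : ℤ} {l : List ℤ} (h : NI y l) (hb : 2 ≤ b) (hx : 0 < x)
    (hxy : (b : ℚ) - x = 1 / y) (hn : |(b : ℚ) - x| ≤ 1 / 2) (h2 : b = 2 → y < 0) (ht : y ≠ 2) :
    NI x (b :: l) := by
  have hbQ : (0 : ℚ) < b := by
    have : (2 : ℚ) ≤ b := by exact_mod_cast hb
    linarith
  have hbabs : |b| = b := abs_of_pos (by omega)
  obtain ⟨c, l, rfl⟩ : ∃ c l', l = c :: l' := List.exists_cons_of_ne_nil h.ne
  refine ⟨by simp, ?_, ?_, ?_, ?_, ?_, ?_⟩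
  · show (b : ℚ) - 1 / hj (c :: l) = x
    rw [h.val, ← hxy]
    ring
  · intro d hd
    rcases List.mem_cons.1 hd with rfl | hd
    · rw [hbabs]; exact hb
    · exact h.two d hd
  · rw [List.isChain_cons_cons]
    refine ⟨fun h' => ?_, h.chain⟩
    rw [hbabs] at h'
    have hy := h2 h'
    have hc := h.head c l rfl
    have hc' : (c : ℚ) < 0 := by
      by_contra hcon
      push Not at hcon
      nlinarith
    have : c < 0 := by exact_mod_cast hc'
    nlinarith
  · intro l₀ c' d hl hd
    rcases l₀ with _ | ⟨e, l₀⟩
    · simp only [List.nil_append, List.cons.injEq] at hl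
      obtain ⟨rfl, rfl, rfl⟩ := hl
      have hv := h.val
      simp only [hj] at hv
      have hd2 : c = 2 ∨ c = -2 := by
        rcases abs_eq (show (0 : ℤ) ≤ 2 by norm_num) |>.1 hd with h' | h' <;> omega
      rcases hd2 with rfl | rfl
      · exact absurd hv.symm (by simpa using ht)
      · omega
    · simp only [List.cons_append, List.cons.injEq] at hl
      exact h.last l₀ c' d hl.2 hd
  · intro b' l' hl
    simp only [List.cons.injEq] at hl
    rw [← hl.1]
    positivity
  · intro l₀ b' l' hl
    rcases l₀ with _ | ⟨e, l₀⟩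
    · simp only [List.nil_append, List.cons.injEq] at hl
      obtain ⟨rfl, rfl⟩ := hl
      show |(b : ℚ) - ((b : ℚ) - 1 / hj (c :: l))| ≤ 1 / 2
      rw [h.val, ← hxy]
      convert hn using 2
      ring
    · simp only [List.cons_append, List.cons.injEq] at hl
      exact h.near _ _ _ hl.2

/-- existence of the nearest integer expansion, `x ≥ 2` -/
lemma ni_pos : ∀ N : ℕ, ∀ q : ℤ, 0 < q → q ≤ N → ∀ p : ℤ, 2 * q ≤ p →
    ∃ l, NI ((p : ℚ) / q) l := by
  intro N
  induction N with
  | zero => intro q h0 h1; omega
  | succ N ih =>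
    intro q hq hqN p hp
    obtain ⟨b, hb2, hr1, hr2⟩ := round_ex hq hp
    have hqQ : (0 : ℚ) < q := by exact_mod_cast hq
    have hpQ : (2 : ℚ) * q ≤ p := by exact_mod_cast hp
    have hbQ : (2 : ℚ) ≤ b := by exact_mod_cast hb2
    have hx2 : (2 : ℚ) ≤ (p : ℚ) / q := by rwa [le_div_iff₀ hqQ]
    have hx0 : (0 : ℚ) < (p : ℚ) / q := by linarith
    obtain ⟨r, hr⟩ : ∃ r, r = b * q - p := ⟨_, rfl⟩
    rw [← hr] at hr1 hr2
    have hrQ : (r : ℚ) = b * q - p := by rw [hr]; push_cast; ring
    have hr1Q : -(q : ℚ) ≤ 2 * r := by exact_mod_cast hr1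
    have hr2Q : 2 * (r : ℚ) < q := by exact_mod_cast hr2
    have hbx : (b : ℚ) - (p : ℚ) / q = r / q := by
      rw [hrQ]; field_simp
    have hnear : |(b : ℚ) - (p : ℚ) / q| ≤ 1 / 2 := by
      rw [hbx, abs_le]
      refine ⟨?_, ?_⟩
      · rw [le_div_iff₀ hqQ]
        linarith
      · rw [div_le_iff₀ hqQ]
        linarith
    rcases lt_trichotomy r 0 with h0 | h0 | h0
    · -- the next value is negative
      obtain ⟨l', hl'⟩ := ih (-r) (by omega) (by omega) q (by omega)
      have hn := hl'.neg
      have h0Q : (r : ℚ) < 0 := by exact_mod_cast h0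
      have hval : -((q : ℚ) / ((-r : ℤ) : ℚ)) = q / r := by
        push_cast
        rw [div_neg, neg_neg]
      rw [hval] at hn
      have hneg : (q : ℚ) / r < 0 := div_neg_of_pos_of_neg hqQ h0Q
      exact ⟨_, hn.cons hb2 hx0 (by rw [hbx, one_div_div]) hnear (fun _ => hneg) (by linarith)⟩
    · subst h0
      have hx : (p : ℚ) / q = b := by
        have : (b : ℚ) - (p : ℚ) / q = 0 := by rw [hbx]; simp
        linarith
      refine ⟨[b], by simp, hx.symm, ?_, List.isChain_singleton _, ?_, ?_, ?_⟩
      · intro c hc
        simp only [List.mem_singleton] at hc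
        rw [hc, abs_of_pos (by omega)]
        exact hb2
      · intro l₀ c d hl _
        have := congrArg List.length hl
        simp at this
      · intro b' l' hl
        simp only [List.cons.injEq] at hl
        rw [← hl.1, hx]
        positivity
      · intro l₀ b' l' hl
        rcases l₀ with _ | ⟨e, l₀⟩
        · simp only [List.nil_append, List.cons.injEq] at hl
          obtain ⟨rfl, rfl⟩ := hl
          simp [hj]
        · have := congrArg List.length hl
          simp at this
    · obtain ⟨l', hl'⟩ := ih r (by omega) (by omega) q (by omega)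
      have h0Q : (0 : ℚ) < r := by exact_mod_cast h0
      refine ⟨_, hl'.cons hb2 hx0 (by rw [hbx, one_div_div]) hnear (fun hb => ?_) ?_⟩
      · exfalso
        have : (r : ℚ) = 2 * q - p := by rw [hrQ, hb]; norm_num
        linarith
      · intro h2
        rw [div_eq_iff h0Q.ne'] at h2
        linarith

/-- the admissible words: all digits are at least `2` in absolute value, no two adjacent digits
are both `2` or both `-2`, a digit `±2` has a neighbour of the opposite sign (its only neighbour
at an end), and an end digit `±3` is not next to a `±2` of the same sign, except in `[3, 2, -2]`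
and its mirror images -/
structure Good (l : List ℤ) : Prop where
  two : ∀ b ∈ l, 2 ≤ |b|
  nocc : l.IsChain fun b c => ¬ (b = c ∧ |b| = 2)
  isol : ∀ l₀ a b c l₁, l = l₀ ++ a :: b :: c :: l₁ → |b| = 2 → a * b < 0 ∨ b * c < 0
  endL : ∀ b c l₁, l = b :: c :: l₁ → |b| = 2 → b * c < 0
  endR : ∀ l₀ b c, l = l₀ ++ [c, b] → |b| = 2 → c * b < 0
  end3L : ∀ b c l₁, l = b :: c :: l₁ → |b| = 3 → |c| = 2 → b * c < 0 ∨ l = [3, 2, -2]
  end3R : ∀ l₀ b c, l = l₀ ++ [c, b] → |b| = 3 → |c| = 2 → c * b < 0

lemma NI.nocc {x : ℚ} {l : List ℤ} (h : NI x l) : l.IsChain fun b c => ¬ (b = c ∧ |b| = 2) := by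
  refine h.chain.imp ?_
  rintro a b hab ⟨rfl, h2⟩
  have := hab h2
  nlinarith [mul_self_nonneg a]

lemma NI.next {x : ℚ} {l : List ℤ} (h : NI x l) {l₀ : List ℤ} {b c : ℤ} {l₁ : List ℤ}
    (hl : l = l₀ ++ b :: c :: l₁) (hb : |b| = 2) : b * c < 0 := by
  have hc := h.chain
  rw [hl, List.isChain_append_cons_cons] at hc
  exact hc.2.1 hb

lemma hj_ge {x : ℚ} {l : List ℤ} (h : NI x l) {b : ℤ} {l' : List ℤ} (hl : l = b :: l') :
    (b : ℚ) - 1 / 2 ≤ x ∧ x ≤ b + 1 / 2 := by
  have := abs_le.1 (h.near [] b l' hl)
  rw [← hl, h.val] at this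
  constructor <;> linarith [this.1, this.2]

/-- **Covering lemma.**  Every rational number `p/q > 2` that is not an integer is the value of an
admissible word with at least two digits. -/
theorem cover {p q : ℤ} (hq : 0 < q) (hpq : 2 * q < p) (hnd : ¬ q ∣ p) :
    ∃ l, Good l ∧ 2 ≤ l.length ∧ hj l = (p : ℚ) / q := by
  have hqQ : (0 : ℚ) < q := by exact_mod_cast hq
  have hpQ : (2 : ℚ) * q < p := by exact_mod_cast hpq
  by_cases hA : 5 * q < 2 * p ∧ 5 * p < 13 * q
  · obtain ⟨h1, h2⟩ := hA
    have h1Q : (5 : ℚ) * q < 2 * p := by exact_mod_cast h1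
    have h2Q : (5 : ℚ) * p < 13 * q := by exact_mod_cast h2
    obtain ⟨m₀, hm₀⟩ := ni_pos (2 * p - 5 * q).toNat (2 * p - 5 * q) (by omega) (by omega)
      (p - 2 * q) (by omega)
    have hm := hm₀.neg
    obtain ⟨y, hy⟩ : ∃ y, y = ((p - 2 * q : ℤ) : ℚ) / ((2 * p - 5 * q : ℤ) : ℚ) := ⟨_, rfl⟩
    rw [← hy] at hm
    have hd0 : (0 : ℚ) < 2 * p - 5 * q := by linarith
    have hy3 : 3 < y := by
      rw [hy]
      push_cast
      rw [lt_div_iff₀ hd0]
      linarith
    obtain ⟨m, hmm⟩ : ∃ m, m = m₀.map fun b => -b := ⟨_, rfl⟩
    rw [← hmm] at hm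
    obtain ⟨c, m', rfl⟩ : ∃ c m', m = c :: m' := List.exists_cons_of_ne_nil hm.ne
    have hc3 : c ≤ -3 := by
      have := (hj_ge hm rfl).1
      have h' : (c : ℚ) < -2 := by linarith
      have h'' : c < -2 := by exact_mod_cast h'
      omega
    have hcabs : |c| = -c := abs_of_neg (by omega)
    refine ⟨2 :: -2 :: c :: m', ?_, by simp, ?_⟩
    · refine ⟨?_, ?_, ?_, ?_, ?_, ?_, ?_⟩
      · intro b hb
        simp only [List.mem_cons] at hb
        rcases hb with rfl | rfl | hb
        · norm_num
        · norm_num
        · exact hm.two b (by simpa using hb)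
      · rw [List.isChain_cons_cons, List.isChain_cons_cons]
        refine ⟨by norm_num, ?_, hm.nocc⟩
        rintro ⟨h', -⟩
        omega
      · intro l₀ a b d l₁ hl hb
        rcases l₀ with _ | ⟨e, _ | ⟨f, l₀⟩⟩
        · simp only [List.nil_append, List.cons.injEq] at hl
          obtain ⟨rfl, rfl, -⟩ := hl
          left; norm_num
        · simp only [List.cons_append, List.nil_append, List.cons.injEq] at hl
          obtain ⟨rfl, rfl, rfl, -⟩ := hl
          omega
        · simp only [List.cons_append, List.cons.injEq] at hl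
          right
          refine hm.next (l₀ := l₀ ++ [a]) (l₁ := l₁) ?_ hb
          rw [hl.2.2]
          simp
      · intro b d l₁ hl _
        simp only [List.cons.injEq] at hl
        obtain ⟨rfl, rfl, -⟩ := hl
        norm_num
      · intro l₀ b d hl hb
        rcases l₀ with _ | ⟨e, _ | ⟨f, l₀⟩⟩
        · simp at hl
        · simp only [List.cons_append, List.nil_append, List.cons.injEq] at hl
          obtain ⟨rfl, rfl, rfl, -⟩ := hl
          omega
        · simp only [List.cons_append, List.cons.injEq] at hl
          exact hm.last l₀ d b hl.2.2 hb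
      · intro b d l₁ hl hb
        simp only [List.cons.injEq] at hl
        obtain ⟨rfl, -⟩ := hl
        norm_num at hb
      · intro l₀ b d hl hb hd
        rcases l₀ with _ | ⟨e, _ | ⟨f, l₀⟩⟩
        · simp at hl
        · simp only [List.cons_append, List.nil_append, List.cons.injEq] at hl
          obtain ⟨rfl, rfl, rfl, rfl⟩ := hl
          exfalso
          have hv := hm.val
          simp only [hj] at hv
          have hc : c = -3 := by omega
          rw [hc] at hv
          push_cast at hv
          linarith
        · simp only [List.cons_append, List.cons.injEq] at hl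
          exact hm.next (l₀ := l₀) (l₁ := []) hl.2.2 hd
    · show ((2 : ℤ) : ℚ) - 1 / (((-2 : ℤ) : ℚ) - 1 / hj (c :: m')) = p / q
      rw [hm.val, hy]
      push_cast
      have e1 : ((p : ℚ) - 2 * q) ≠ 0 := by linarith
      have e2 : (2 * (p : ℚ) - 5 * q) ≠ 0 := hd0.ne'
      have e3 : (-2 : ℚ) - 1 / -(((p : ℚ) - 2 * q) / (2 * p - 5 * q)) = -q / (p - 2 * q) := by
        field_simp
        ring
      rw [e3]
      field_simp
      ring
  · by_cases hB : 5 * p = 13 * q
    · refine ⟨[3, 2, -2], ?_, by simp, ?_⟩
      · refine ⟨?_, by simp, ?_, ?_, ?_, ?_, ?_⟩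
        · intro b hb
          simp only [List.mem_cons, List.not_mem_nil, or_false] at hb
          rcases hb with rfl | rfl | rfl <;> norm_num
        · intro l₀ a b d l₁ hl _
          rcases l₀ with _ | ⟨e, l₀⟩
          · simp only [List.nil_append, List.cons.injEq] at hl
            obtain ⟨rfl, rfl, rfl, -⟩ := hl
            right; norm_num
          · have := congrArg List.length hl
            simp at this
            omega
        · intro b d l₁ hl hb
          simp only [List.cons.injEq] at hl
          obtain ⟨rfl, -⟩ := hl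
          norm_num at hb
        · intro l₀ b d hl hb
          rcases l₀ with _ | ⟨e, l₀⟩
          · simp at hl
          · simp only [List.cons_append, List.cons.injEq] at hl
            rcases l₀ with _ | ⟨e, l₀⟩
            · simp only [List.nil_append, List.cons.injEq] at hl
              obtain ⟨-, rfl, rfl, -⟩ := hl
              norm_num
            · have := congrArg List.length hl.2
              simp at this
        · intro b d l₁ hl hb hd
          right; rfl
        · intro l₀ b d hl hb
          rcases l₀ with _ | ⟨e, l₀⟩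
          · simp at hl
          · simp only [List.cons_append, List.cons.injEq] at hl
            rcases l₀ with _ | ⟨e, l₀⟩
            · simp only [List.nil_append, List.cons.injEq] at hl
              obtain ⟨-, rfl, rfl, -⟩ := hl
              norm_num at hb
            · have := congrArg List.length hl.2
              simp at this
      · simp only [hj]
        have hBQ : (5 : ℚ) * p = 13 * q := by exact_mod_cast hB
        rw [eq_div_iff hqQ.ne']
        push_cast
        norm_num
        linarith
    · obtain ⟨l, hl⟩ := ni_pos q.toNat q hq (by omega) p (by omega)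
      have hxp : (0 : ℚ) < (p : ℚ) / q := by
        apply div_pos _ hqQ
        linarith
      refine ⟨l, ?_, ?_, hl.val⟩
      · refine ⟨hl.two, hl.nocc, ?_, ?_, ?_, ?_, ?_⟩
        · intro l₀ a b d l₁ h hb
          right
          exact hl.next (l₀ := l₀ ++ [a]) (l₁ := l₁) (by rw [h]; simp) hb
        · intro b d l₁ h hb
          exact hl.next (l₀ := []) (l₁ := l₁) h hb
        · intro l₀ b d h hb
          exact hl.last l₀ d b h hb
        · intro b d l₁ h hb hd
          left
          by_contra hcon
          push Not at hcon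
          have hb3 : b = 3 := by
            have := hl.head b _ h
            have hb0 : (0 : ℚ) < b := by
              by_contra hc
              push Not at hc
              nlinarith
            have : 0 < b := by exact_mod_cast hb0
            rwa [abs_of_pos this] at hb
          have hd2 : d = 2 := by
            rcases abs_eq (show (0 : ℤ) ≤ 2 by norm_num) |>.1 hd with h' | h'
            · exact h'
            · rw [hb3, h'] at hcon
              norm_num at hcon
          subst hb3
          subst hd2
          exfalso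
          obtain ⟨y, hy⟩ : ∃ y, y = hj (2 :: l₁) := ⟨_, rfl⟩
          have hyn := abs_le.1 (hl.near [3] 2 l₁ h)
          rw [← hy] at hyn
          push_cast at hyn
          have hy0 : 0 < y := by linarith [hyn.2]
          have hxv : (p : ℚ) / q = 3 - 1 / y := by
            rw [← hl.val, h, hy]
            simp [hj]
          have hx1 := (hj_ge hl h).1
          push_cast at hx1
          have hy5 : y ≤ 5 / 2 := by linarith [hyn.1]
          have hx2 : (p : ℚ) / q ≤ 13 / 5 := by
            rw [hxv]
            have : 2 / 5 ≤ 1 / y := by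
              rw [div_le_div_iff₀ (by norm_num) hy0]
              linarith
            linarith
          rw [le_div_iff₀ hqQ] at hx1
          rw [div_le_iff₀ hqQ] at hx2
          have hx1' : 5 * q ≤ 2 * p := by
            have : (5 : ℚ) * q ≤ 2 * p := by linarith
            exact_mod_cast this
          have hx2' : 5 * p ≤ 13 * q := by
            have : (5 : ℚ) * p ≤ 13 * q := by linarith
            exact_mod_cast this
          have hx : 5 * q = 2 * p := by omega
          have hxQ : (5 : ℚ) * q = 2 * p := by exact_mod_cast hx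
          have hx3 : (p : ℚ) / q = 5 / 2 := by
            rw [div_eq_div_iff hqQ.ne' (by norm_num)]
            linarith
          have hy2 : y = 2 := by
            have : 1 / y = 1 / 2 := by linarith
            rwa [one_div, one_div, inv_inj] at this
          rcases l₁ with _ | ⟨e, l₂⟩
          · have := hl.last [] 3 2 h (by norm_num)
            norm_num at this
          · have hz : hj (e :: l₂) = 0 := by
              have : y = 2 - 1 / hj (e :: l₂) := by rw [hy]; simp [hj]
              rw [hy2] at this
              have h0 : 1 / hj (e :: l₂) = 0 := by linarith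
              simpa using h0
            have he := hl.near [3, 2] e l₂ h
            rw [hz, sub_zero] at he
            have he2 := hl.two e (by rw [h]; simp)
            have : (2 : ℚ) ≤ |(e : ℚ)| := by exact_mod_cast he2
            linarith
        · intro l₀ b d h hb hd
          exact hl.next (l₀ := l₀) (l₁ := []) h hd
      · obtain ⟨b, l', rfl⟩ := List.exists_cons_of_ne_nil hl.ne
        rcases l' with _ | ⟨c, l'⟩
        · exfalso
          have hv := hl.val
          simp only [hj] at hv
          rw [eq_div_iff hqQ.ne'] at hv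
          have : b * q = p := by exact_mod_cast hv
          exact hnd ⟨b, by linarith⟩
        · simp

end Pool.Agent.Work.MP_b30479_gt.G2
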