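import Pool.Agent.Work.MP_b30479_gt.G2.MRBase
import Pool.Agent.Work.NumI.Tree

/-!
# Right ramp of a hinge `1 | ring`, the side of the digit `1`: kernel evaluation on a box

Own frame of the digit `1`: `w = x + i y`, `y = n (65/100 - x)`, `n = T / (29/100)`; the other hinge
is `v = z + i K`, `K = K(z, K0)`, `μ` the right slope of its path.

* `dD x T z K` is the side of the digit `1`;
* `dL` is a lower bound for the sum of the two sides at the other hinge (`≤ 0` at a maximiser).
-/

namespace Pool.Agent.Work.MP_b30479_gt.G2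

open VOL NumI

namespace DZ

noncomputable def dn (T : ℝ) : ℝ := 100 / 29 * T
noncomputable def dy (x T : ℝ) : ℝ := dn T * (65 / 100 - x)
noncomputable def dD (x T z K : ℝ) : ℝ := MR.s1 (-(dn T)) x (dy x T) z K

noncomputable def dL (j : ℕ) (κ μ x T z K H : ℝ) : ℝ :=
  Real.pi * (dy x T + j * K) + (lnA (x + z) (dy x T + K) - (j + 1) * lnA z K) +
    μ * (Real.pi * (x + j * z) + ((j + 1) * lnB z K - lnB (x + z) (dy x T + K)) + κ) + H

/-- a row: `g` guard (`L` may be used if `g > 0`), `K`, `m` height and slope of the other hinge,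
`H`, `k` parts of `L`, `R` the bound, `s0 ≤ T + K0 ≤ s1` the window -/
structure Row where
  j : ℕ
  g : E
  K : E
  m : E
  H : E
  k : E
  R : E
  s0 : ℤ
  s1 : ℤ

section
open E

/-- `n, y, a, K, c, A1, B1` are the variables `4, ..., 10` -/
def lets (r : Row) (body : E) : E :=
  lt (mul (q 100 29) (var 1)) (lt (mul (var 4) (sub (q 65 100) (var 0))) (lt (add (var 0) (var 2))
    (lt r.K (lt (add (var 5) (var 7)) (lt (lnA (var 6) (var 8)) (lt (lnB (var 6) (var 8)) body))))))

def bP (r : Row) : E :=
  sub r.R (add (add (mul pi (var 7)) (sub (var 9) (lnA (var 0) (var 5))))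
    (mul (var 4) (add (mul pi (sub (q 1 1) (var 2))) (sub (var 10) (lnB (var 0) (var 5))))))

def bL (r : Row) : E :=
  add (add (add (mul pi (add (var 5) (mul (q r.j 1) (var 7))))
    (sub (var 9) (mul (q (r.j + 1 : ℕ) 1) (lnA (var 2) (var 7)))))
    (mul r.m (add (add (mul pi (add (var 0) (mul (q r.j 1) (var 2))))
      (sub (mul (q (r.j + 1 : ℕ) 1) (lnB (var 2) (var 7))) (var 10))) r.k))) r.H

def bPL (r : Row) (l : ℕ) : E := add (bP r) (mul (q l 2) (bL r))

def cE (r : Row) (k : ℕ) : E :=
  cond (Nat.beq k 0) (sub (add (var 1) (var 3)) (q r.s1 10000))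
    (cond (Nat.beq k 1) (sub (q r.s0 10000) (add (var 1) (var 3)))
      (sub (add (var 0) (var 2)) (q 951 1000)))

end

/-- the test with the code `k` -/
noncomputable def tst (r : Row) (k : ℕ) (X T Z K : F) : Bool :=
  cond (Nat.ble k 2) (posO' ((cE r k).evR [X, T, Z, K]))
    (cond (Nat.beq k 4) (posO' ((lets r (bP r)).evR [X, T, Z, K]))
      (cond (posO' (r.g.evR [X, T, Z, K]))
        (cond (Nat.beq k 3) (posO' ((lets r (bL r)).evR [X, T, Z, K]))
          (posO' ((lets r (bPL r (Nat.sub k 4))).evR [X, T, Z, K]))) false))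

/-- the real functions of a row -/
structure RowOk (r : Row) (g H k R : ℝ → ℝ) (Kf : ℝ → ℝ → ℝ) (m : ℝ → ℝ) : Prop where
  hg : ∀ x T z K l, r.g.val (x :: T :: z :: K :: l) = g z
  hH : ∀ x T z K l, r.H.val (x :: T :: z :: K :: l) = H z
  hk : ∀ x T z K l, r.k.val (x :: T :: z :: K :: l) = k z
  hR : ∀ x T z K l, r.R.val (x :: T :: z :: K :: l) = R T
  hK : ∀ x T z K l, r.K.val (x :: T :: z :: K :: l) = Kf z K
  hm : ∀ x T z K l, r.m.val (x :: T :: z :: K :: l) = m K

/-- what the test proves -/
def Pr (r : Row) (g H k R : ℝ → ℝ) (Kf : ℝ → ℝ → ℝ) (m : ℝ → ℝ) (x T z K0 : ℝ) : Prop :=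
  (r.s0 : ℝ) / 10000 ≤ T + K0 → T + K0 ≤ (r.s1 : ℝ) / 10000 → x + z ≤ 951 / 1000 →
    (0 < g z → dL r.j (k z) (m K0) x T z (Kf z K0) (H z) ≤ 0) → dD x T z (Kf z K0) < R T

variable {r : Row} {g H k R m : ℝ → ℝ} {Kf : ℝ → ℝ → ℝ}

theorem bP_val (h : RowOk r g H k R Kf m) (x T z K : ℝ) : (lets r (bP r)).val [x, T, z, K] =
    R T - dD x T z (Kf z K) := by
  simp only [lets, bP, E.val, List.cons_append, List.nil_append, lkR, h.hR, h.hK, dD, MR.s1, dy, dn]
  push_cast
  ring

theorem bL_val (h : RowOk r g H k R Kf m) (x T z K : ℝ) : (lets r (bL r)).val [x, T, z, K] =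
    dL r.j (k z) (m K) x T z (Kf z K) (H z) := by
  simp only [lets, bL, E.val, List.cons_append, List.nil_append, lkR, h.hH, h.hk, h.hK, h.hm, dL, dy, dn]
  push_cast
  ring

theorem bPL_val (h : RowOk r g H k R Kf m) (l : ℕ) (x T z K : ℝ) :
    (lets r (bPL r l)).val [x, T, z, K] = R T - dD x T z (Kf z K) +
      (l : ℝ) / 2 * dL r.j (k z) (m K) x T z (Kf z K) (H z) := by
  rw [← bP_val h, ← bL_val h]
  simp only [lets, bPL, E.val, List.cons_append, List.nil_append]
  push_cast
  ring

theorem tst_ok (h : RowOk r g H k R Kf m) : TestOk (tst r) (Pr r g H k R Kf m) := by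
  intro c X Y Z W ε x T z K hε hX hY hZ hW ht h0 h1 h2 hL
  unfold tst at ht
  rcases c0 : Nat.ble c 2 with _ | _
  · rw [c0, cond_false] at ht
    rcases c1 : Nat.beq c 4 with _ | _
    · rw [c1, cond_false] at ht
      rcases c2 : posO' (r.g.evR [X, Y, Z, W]) with _ | _
      · rw [c2, cond_false] at ht
        exact absurd ht (by simp)
      · rw [c2, cond_true] at ht
        have hg := posO'_spec hε hX hY hZ hW c2
        rw [h.hg] at hg
        have hL := hL hg
        rcases c3 : Nat.beq c 3 with _ | _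
        · rw [c3, cond_false] at ht
          have hp := posO'_spec hε hX hY hZ hW ht
          rw [bPL_val h] at hp
          have : ((Nat.sub c 4 : ℕ) : ℝ) / 2 * dL r.j (k z) (m K) x T z (Kf z K) (H z) ≤ 0 :=
            mul_nonpos_of_nonneg_of_nonpos (by positivity) hL
          linarith only [hp, this]
        · rw [c3, cond_true] at ht
          have hp := posO'_spec hε hX hY hZ hW ht
          rw [bL_val h] at hp
          linarith only [hL, hp]
    · rw [c1, cond_true] at ht
      have hp := posO'_spec hε hX hY hZ hW ht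
      rw [bP_val h] at hp
      linarith only [hp]
  · rw [c0, cond_true] at ht
    have hp := posO'_spec hε hX hY hZ hW ht
    exfalso
    unfold cE at hp
    rcases d0 : Nat.beq c 0 with _ | _
    · rw [d0, cond_false] at hp
      rcases d1 : Nat.beq c 1 with _ | _
      · rw [d1, cond_false] at hp
        simp only [E.val, lkR] at hp
        push_cast at hp
        linarith only [h2, hp]
      · rw [d1, cond_true] at hp
        simp only [E.val, lkR] at hp
        push_cast at hp
        linarith only [h0, hp]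
    · rw [d0, cond_true] at hp
      simp only [E.val, lkR] at hp
      push_cast at hp
      linarith only [h1, hp]

end DZ

end Pool.Agent.Work.MP_b30479_gt.G2
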