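import Pool.Agent.Work.MP_b30479_gt.G2.DZ1

/-!
# Right ramp of a hinge `1 | ring`, the side of the digit `1`: the bounds
-/

namespace Pool.Agent.Work.MP_b30479_gt.G2

open VOL NumI

set_option linter.unusedSimpArgs false
set_option linter.unusedTactic false
set_option linter.unusedVariables false
set_option maxHeartbeats 1000000

namespace DZ

/-- the bounds which the side `D` of the digit `1` satisfies (minus the bounds of `RZ1` for the side
of the ring) -/
structure Res (fa fb : Prop) (x T D : ℝ) : Prop where
  a : fa → x ≤ 1 / 2 → D < 36 / 100 + 7 * T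
  b : fb → x ≤ 1 / 2 → D < 34 / 100 + 8 * T
  c : x ≤ 1 / 2 → D < 42 / 100 + 77 / 10 * T
  d : 1 / 2 ≤ x → x ≤ 60 / 100 → D < min (Real.pi * (T / (29 / 100)) - 3 / 100) (129 / 100)
  e : 60 / 100 ≤ x → T ≤ 128 / 1000 → D < min (Real.pi * (T / (29 / 100)) - 3 / 100) (89 / 100)
  f : 60 / 100 ≤ x → D < min (Real.pi * (T / (29 / 100)) - 3 / 100) (109 / 100)

theorem Ra_val (x T z K : ℝ) (l : List ℝ) : Ra.val (x :: T :: z :: K :: l) = 36 / 100 + 7 * T := by
  simp only [Ra, E.val, lkR]
  push_cast
  ring

theorem Rb_val (x T z K : ℝ) (l : List ℝ) : Rb.val (x :: T :: z :: K :: l) = 34 / 100 + 8 * T := by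
  simp only [Rb, E.val, lkR]
  push_cast
  ring

theorem Rc_val (x T z K : ℝ) (l : List ℝ) : Rc.val (x :: T :: z :: K :: l) = 42 / 100 + 77 / 10 * T := by
  simp only [Rc, E.val, lkR]
  push_cast
  ring

theorem Rd_val (x T z K : ℝ) (l : List ℝ) : Rd.val (x :: T :: z :: K :: l) =
    Real.pi * (T / (29 / 100)) - 3 / 100 := by
  simp only [Rd, E.val, lkR]
  push_cast
  ring

theorem Rq_val (n : ℤ) (d : ℕ) (x T z K : ℝ) (l : List ℝ) : (E.q n d).val (x :: T :: z :: K :: l) =
    (fun _ : ℝ => (n : ℝ) / d) T := by
  simp only [E.val]

theorem ok_oneF {R : E} {Rf : ℝ → ℝ} (hR : ∀ x T z K l, R.val (x :: T :: z :: K :: l) = Rf T) :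
    RowOk (oneF R) (fun z => 3 / 10 - z)
      (fun z => Real.log (Real.sin (Real.pi * (2 * (3 / 10 - z)))))
      (fun _ => 0) Rf (fun _ K => K) (fun _ => 0) := by
  constructor <;> intro x T z K l
  · simp only [oneF, E.val, lkR]
    try push_cast
    try ring
  · simp only [oneF, E.val, lkR]
    push_cast
    congr 3
    try ring
  · simp only [oneF, E.val, lkR]
    push_cast
    ring
  · simp only [oneF]
    exact hR x T z K l
  · simp only [oneF, E.val, lkR]
    try push_cast
    try ring
  · simp only [oneF, E.val, lkR]
    push_cast
    ring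

theorem ok_oneN {R : E} {Rf : ℝ → ℝ} (hR : ∀ x T z K l, R.val (x :: T :: z :: K :: l) = Rf T) :
    RowOk (oneN R) (fun z => 3 / 10 - z)
      (fun z => Real.log (Real.sin (Real.pi * (2 * (3 / 10 - z)))))
      (fun _ => 1 / 10) Rf (fun z K => 100 / 15 * K * z) (fun K => 100 / 15 * K) := by
  constructor <;> intro x T z K l
  · simp only [oneN, E.val, lkR]
    try push_cast
    try ring
  · simp only [oneN, E.val, lkR]
    push_cast
    congr 3
    try ring
  · simp only [oneN, E.val, lkR]
    push_cast
    ring
  · simp only [oneN]
    exact hR x T z K l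
  · simp only [oneN, E.val, lkR]
    try push_cast
    try ring
  · simp only [oneN, E.val, lkR]
    push_cast
    ring

theorem ok_oneP {R : E} {Rf : ℝ → ℝ} (hR : ∀ x T z K l, R.val (x :: T :: z :: K :: l) = Rf T) :
    RowOk (oneP R) (fun z => 3 / 10 - z)
      (fun z => Real.log (Real.sin (Real.pi * (2 * (3 / 10 - z)))))
      (fun z => -(Real.pi * (2 * (z + 7 / 10) - 1 / 2))) Rf (fun z K => 100 / 15 * K * z) (fun K => 100 / 15 * K) := by
  constructor <;> intro x T z K l
  · simp only [oneP, E.val, lkR]
    try push_cast
    try ring
  · simp only [oneP, E.val, lkR]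
    push_cast
    congr 3
    try ring
  · simp only [oneP, E.val, lkR]
    push_cast
    ring
  · simp only [oneP]
    exact hR x T z K l
  · simp only [oneP, E.val, lkR]
    try push_cast
    try ring
  · simp only [oneP, E.val, lkR]
    push_cast
    ring

theorem ok_twoF {R : E} {Rf : ℝ → ℝ} (hR : ∀ x T z K l, R.val (x :: T :: z :: K :: l) = Rf T) :
    RowOk (twoF R) (fun z => 44 / 100 - z)
      (fun z => Real.log (Real.sin (Real.pi * (2 * (44 / 100 - z)))))
      (fun _ => 0) Rf (fun _ K => K) (fun _ => 0) := by
  constructor <;> intro x T z K l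
  · simp only [twoF, E.val, lkR]
    try push_cast
    try ring
  · simp only [twoF, E.val, lkR]
    push_cast
    congr 3
    try ring
  · simp only [twoF, E.val, lkR]
    push_cast
    ring
  · simp only [twoF]
    exact hR x T z K l
  · simp only [twoF, E.val, lkR]
    try push_cast
    try ring
  · simp only [twoF, E.val, lkR]
    push_cast
    ring

theorem ok_twoG {R : E} {Rf : ℝ → ℝ} (hR : ∀ x T z K l, R.val (x :: T :: z :: K :: l) = Rf T) :
    RowOk (twoG R) (fun _ => 0)
      (fun _ => 0)
      (fun _ => 0) Rf (fun _ K => K) (fun _ => 0) := by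
  constructor <;> intro x T z K l
  · simp only [twoG, E.val, lkR]
    try push_cast
    try ring
  · simp only [twoG, E.val, lkR]
    push_cast
    congr 3
    try ring
  · simp only [twoG, E.val, lkR]
    push_cast
    ring
  · simp only [twoG]
    exact hR x T z K l
  · simp only [twoG, E.val, lkR]
    try push_cast
    try ring
  · simp only [twoG, E.val, lkR]
    push_cast
    ring

theorem ok_twoN {R : E} {Rf : ℝ → ℝ} (hR : ∀ x T z K l, R.val (x :: T :: z :: K :: l) = Rf T) :
    RowOk (twoN R) (fun z => 44 / 100 - z)
      (fun z => Real.log (Real.sin (Real.pi * (2 * (44 / 100 - z)))))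
      (fun _ => -(Real.pi * (1 / 2))) Rf (fun z K => 100 / 16 * K * z) (fun K => 100 / 16 * K) := by
  constructor <;> intro x T z K l
  · simp only [twoN, E.val, lkR]
    try push_cast
    try ring
  · simp only [twoN, E.val, lkR]
    push_cast
    congr 3
    try ring
  · simp only [twoN, E.val, lkR]
    push_cast
    ring
  · simp only [twoN]
    exact hR x T z K l
  · simp only [twoN, E.val, lkR]
    try push_cast
    try ring
  · simp only [twoN, E.val, lkR]
    push_cast
    ring

theorem ok_twoP {R : E} {Rf : ℝ → ℝ} (hR : ∀ x T z K l, R.val (x :: T :: z :: K :: l) = Rf T) :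
    RowOk (twoP R) (fun z => 44 / 100 - z)
      (fun z => Real.log (Real.sin (Real.pi * (2 * (44 / 100 - z)))))
      (fun z => -(Real.pi * (2 * (z + 56 / 100)))) Rf (fun z K => 100 / 16 * K * z) (fun K => 100 / 16 * K) := by
  constructor <;> intro x T z K l
  · simp only [twoP, E.val, lkR]
    try push_cast
    try ring
  · simp only [twoP, E.val, lkR]
    push_cast
    congr 3
    try ring
  · simp only [twoP, E.val, lkR]
    push_cast
    ring
  · simp only [twoP]
    exact hR x T z K l
  · simp only [twoP, E.val, lkR]
    try push_cast
    try ring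
  · simp only [twoP, E.val, lkR]
    push_cast
    ring

theorem ok_tweF {R : E} {Rf : ℝ → ℝ} (hR : ∀ x T z K l, R.val (x :: T :: z :: K :: l) = Rf T) :
    RowOk (tweF R) (fun z => 3 / 10 - z)
      (fun _ => 0)
      (fun _ => 0) Rf (fun _ K => K) (fun _ => 0) := by
  constructor <;> intro x T z K l
  · simp only [tweF, E.val, lkR]
    try push_cast
    try ring
  · simp only [tweF, E.val, lkR]
    push_cast
    congr 3
    try ring
  · simp only [tweF, E.val, lkR]
    push_cast
    ring
  · simp only [tweF]
    exact hR x T z K l
  · simp only [tweF, E.val, lkR]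
    try push_cast
    try ring
  · simp only [tweF, E.val, lkR]
    push_cast
    ring

theorem ok_tweN {R : E} {Rf : ℝ → ℝ} (hR : ∀ x T z K l, R.val (x :: T :: z :: K :: l) = Rf T) :
    RowOk (tweN R) (fun z => 3 / 10 - z)
      (fun _ => 0)
      (fun _ => -(Real.pi * (1 / 2))) Rf (fun z K => 100 / 14 * K * z) (fun K => 100 / 14 * K) := by
  constructor <;> intro x T z K l
  · simp only [tweN, E.val, lkR]
    try push_cast
    try ring
  · simp only [tweN, E.val, lkR]
    push_cast
    congr 3
    try ring
  · simp only [tweN, E.val, lkR]
    push_cast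
    ring
  · simp only [tweN]
    exact hR x T z K l
  · simp only [tweN, E.val, lkR]
    try push_cast
    try ring
  · simp only [tweN, E.val, lkR]
    push_cast
    ring

theorem oneF_res {x T z K : ℝ} (h1 : 36 / 100 ≤ x) (h2 : x ≤ 65 / 100) (h3 : 19 / 500 ≤ T)
    (h4 : T ≤ 17 / 125) (h5 : 3 / 20 ≤ z) (h6 : z ≤ 59 / 100) (h7 : x + z ≤ 95 / 100) (h8 : -(117 / 1000) ≤ K)
    (h9 : K ≤ 51 / 1000) (h10 : -(1 / 100) ≤ T + K) (h11 : T + K ≤ 143 / 1000)
    (hL : z < 3 / 10 → dL 1 0 0 x T z K
      (Real.log (Real.sin (Real.pi * (2 * (3 / 10 - z))))) ≤ 0) :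
    Res (T ≤ 58 / 1000) (58 / 1000 ≤ T ∧ T ≤ 128 / 1000) x T (dD x T z K) := by
  have hp : 31415 / 10000 * T ≤ Real.pi * T :=
    mul_le_mul_of_nonneg_right (by linarith only [Real.pi_gt_d4]) (by linarith only [h3])
  have hp' : Real.pi * T ≤ 31416 / 10000 * T :=
    mul_le_mul_of_nonneg_right (by linarith only [Real.pi_lt_d4]) (by linarith only [h3])
  constructor
  · intro ha hx
    exact (okB_sound (by norm_num) (tst_ok (ok_oneF Ra_val)) c_aoneF
      (by push_cast; linarith only [h1]) (by push_cast; linarith only [hx]) (by push_cast; linarith only [h3]) (by push_cast; linarith only [ha])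
      (by push_cast; linarith only [h5]) (by push_cast; linarith only [h6]) (by push_cast; linarith only [h10, ha]) (by push_cast; linarith only [h9]))
      (by change ((-100 : ℤ) : ℝ) / 10000 ≤ T + K; push_cast; linarith only [h10])
      (by change T + K ≤ ((1430 : ℤ) : ℝ) / 10000; push_cast; linarith only [h9, ha]) (by linarith only [h7]) (fun h => hL (sub_pos.mp h))
  · rintro ⟨hb, hb'⟩ hx
    exact (okB_sound (by norm_num) (tst_ok (ok_oneF Rb_val)) c_boneF
      (by push_cast; linarith only [h1]) (by push_cast; linarith only [hx]) (by push_cast; linarith only [hb]) (by push_cast; linarith only [hb'])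
      (by push_cast; linarith only [h5]) (by push_cast; linarith only [h6]) (by push_cast; linarith only [h8]) (by push_cast; linarith only [h9]))
      (by change ((-100 : ℤ) : ℝ) / 10000 ≤ T + K; push_cast; linarith only [h10])
      (by change T + K ≤ ((1430 : ℤ) : ℝ) / 10000; push_cast; linarith only [h11]) (by linarith only [h7]) (fun h => hL (sub_pos.mp h))
  · intro hx
    exact (okB_sound (by norm_num) (tst_ok (ok_oneF Rc_val)) c_coneF
      (by push_cast; linarith only [h1]) (by push_cast; linarith only [hx]) (by push_cast; linarith only [h3]) (by push_cast; linarith only [h4])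
      (by push_cast; linarith only [h5]) (by push_cast; linarith only [h6]) (by push_cast; linarith only [h8]) (by push_cast; linarith only [h9]))
      (by change ((-100 : ℤ) : ℝ) / 10000 ≤ T + K; push_cast; linarith only [h10])
      (by change T + K ≤ ((1430 : ℤ) : ℝ) / 10000; push_cast; linarith only [h11]) (by linarith only [h7]) (fun h => hL (sub_pos.mp h))
  · intro hx hx'
    rcases le_total (Real.pi * (T / (29 / 100)) - 3 / 100) (129 / 100) with hm | hm
    · rw [min_eq_left hm]
      exact (okB_sound (by norm_num) (tst_ok (ok_oneF Rd_val)) c_doneF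
        (by push_cast; linarith only [hx]) (by push_cast; linarith only [hx']) (by push_cast; linarith only [h3]) (by push_cast; linarith only [hp, hm])
        (by push_cast; linarith only [h5]) (by push_cast; linarith only [h7, hx]) (by push_cast; linarith only [h8]) (by push_cast; linarith only [h9]))
        (by change ((-100 : ℤ) : ℝ) / 10000 ≤ T + K; push_cast; linarith only [h10])
        (by change T + K ≤ ((1430 : ℤ) : ℝ) / 10000; push_cast; linarith only [h11]) (by linarith only [h7]) (fun h => hL (sub_pos.mp h))
    · rw [min_eq_right hm]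
      have := (okB_sound (by norm_num) (tst_ok (ok_oneF (Rq_val _ _))) c_DoneF
        (by push_cast; linarith only [hx]) (by push_cast; linarith only [hx']) (by push_cast; linarith only [hp', hm]) (by push_cast; linarith only [h4])
        (by push_cast; linarith only [h5]) (by push_cast; linarith only [h7, hx]) (by push_cast; linarith only [h8]) (by push_cast; linarith only [h9]))
        (by change ((-100 : ℤ) : ℝ) / 10000 ≤ T + K; push_cast; linarith only [h10])
        (by change T + K ≤ ((1430 : ℤ) : ℝ) / 10000; push_cast; linarith only [h11]) (by linarith only [h7]) (fun h => hL (sub_pos.mp h))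
      norm_num at this ⊢
      exact this
  · intro hx ht
    rcases le_total (Real.pi * (T / (29 / 100)) - 3 / 100) (89 / 100) with hm | hm
    · rw [min_eq_left hm]
      exact (okB_sound (by norm_num) (tst_ok (ok_oneF Rd_val)) c_eoneF
        (by push_cast; linarith only [hx]) (by push_cast; linarith only [h2]) (by push_cast; linarith only [h3]) (by push_cast; linarith only [hp, hm])
        (by push_cast; linarith only [h5]) (by push_cast; linarith only [h7, hx]) (by push_cast; linarith only [h10, hp, hm]) (by push_cast; linarith only [h9]))
        (by change ((-100 : ℤ) : ℝ) / 10000 ≤ T + K; push_cast; linarith only [h10])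
        (by change T + K ≤ ((1430 : ℤ) : ℝ) / 10000; push_cast; linarith only [h9, hp, hm]) (by linarith only [h7]) (fun h => hL (sub_pos.mp h))
    · rw [min_eq_right hm]
      have := (okB_sound (by norm_num) (tst_ok (ok_oneF (Rq_val _ _))) c_EoneF
        (by push_cast; linarith only [hx]) (by push_cast; linarith only [h2]) (by push_cast; linarith only [hp', hm]) (by push_cast; linarith only [ht])
        (by push_cast; linarith only [h5]) (by push_cast; linarith only [h7, hx]) (by push_cast; linarith only [h8]) (by push_cast; linarith only [h9]))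
        (by change ((-100 : ℤ) : ℝ) / 10000 ≤ T + K; push_cast; linarith only [h10])
        (by change T + K ≤ ((1430 : ℤ) : ℝ) / 10000; push_cast; linarith only [h11]) (by linarith only [h7]) (fun h => hL (sub_pos.mp h))
      norm_num at this ⊢
      exact this
  · intro hx
    rcases le_total (Real.pi * (T / (29 / 100)) - 3 / 100) (109 / 100) with hm | hm
    · rw [min_eq_left hm]
      exact (okB_sound (by norm_num) (tst_ok (ok_oneF Rd_val)) c_foneF
        (by push_cast; linarith only [hx]) (by push_cast; linarith only [h2]) (by push_cast; linarith only [h3]) (by push_cast; linarith only [hp, hm])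
        (by push_cast; linarith only [h5]) (by push_cast; linarith only [h7, hx]) (by push_cast; linarith only [h10, hp, hm]) (by push_cast; linarith only [h9]))
        (by change ((-100 : ℤ) : ℝ) / 10000 ≤ T + K; push_cast; linarith only [h10])
        (by change T + K ≤ ((1430 : ℤ) : ℝ) / 10000; push_cast; linarith only [h11]) (by linarith only [h7]) (fun h => hL (sub_pos.mp h))
    · rw [min_eq_right hm]
      have := (okB_sound (by norm_num) (tst_ok (ok_oneF (Rq_val _ _))) c_FoneF
        (by push_cast; linarith only [hx]) (by push_cast; linarith only [h2]) (by push_cast; linarith only [hp', hm]) (by push_cast; linarith only [h4])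
        (by push_cast; linarith only [h5]) (by push_cast; linarith only [h7, hx]) (by push_cast; linarith only [h8]) (by push_cast; linarith only [h9]))
        (by change ((-100 : ℤ) : ℝ) / 10000 ≤ T + K; push_cast; linarith only [h10])
        (by change T + K ≤ ((1430 : ℤ) : ℝ) / 10000; push_cast; linarith only [h11]) (by linarith only [h7]) (fun h => hL (sub_pos.mp h))
      norm_num at this ⊢
      exact this

theorem oneN_res {x T z K : ℝ} (h1 : 36 / 100 ≤ x) (h2 : x ≤ 65 / 100) (h3 : 19 / 500 ≤ T)
    (h4 : T ≤ 17 / 125) (h5 : 1 / 8 ≤ z) (h6 : z ≤ 3 / 20) (h7 : x + z ≤ 95 / 100) (h8 : -(117 / 1000) ≤ K)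
    (h9 : K ≤ 0) (h10 : -(1 / 100) ≤ T + K) (h11 : T + K ≤ 143 / 1000)
    (hL : z < 3 / 10 → dL 1 (1 / 10) (100 / 15 * K) x T z (100 / 15 * K * z)
      (Real.log (Real.sin (Real.pi * (2 * (3 / 10 - z))))) ≤ 0) :
    Res (T ≤ 58 / 1000) (58 / 1000 ≤ T ∧ T ≤ 128 / 1000) x T (dD x T z (100 / 15 * K * z)) := by
  have hp : 31415 / 10000 * T ≤ Real.pi * T :=
    mul_le_mul_of_nonneg_right (by linarith only [Real.pi_gt_d4]) (by linarith only [h3])
  have hp' : Real.pi * T ≤ 31416 / 10000 * T :=
    mul_le_mul_of_nonneg_right (by linarith only [Real.pi_lt_d4]) (by linarith only [h3])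
  constructor
  · intro ha hx
    exact (okB_sound (by norm_num) (tst_ok (ok_oneN Ra_val)) c_aoneN
      (by push_cast; linarith only [h1]) (by push_cast; linarith only [hx]) (by push_cast; linarith only [h3]) (by push_cast; linarith only [ha])
      (by push_cast; linarith only [h5]) (by push_cast; linarith only [h6]) (by push_cast; linarith only [h10, ha]) (by push_cast; linarith only [h9]))
      (by change ((-100 : ℤ) : ℝ) / 10000 ≤ T + K; push_cast; linarith only [h10])
      (by change T + K ≤ ((1430 : ℤ) : ℝ) / 10000; push_cast; linarith only [h9, ha]) (by linarith only [h2, h6]) (fun h => hL (sub_pos.mp h))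
  · rintro ⟨hb, hb'⟩ hx
    exact (okB_sound (by norm_num) (tst_ok (ok_oneN Rb_val)) c_boneN
      (by push_cast; linarith only [h1]) (by push_cast; linarith only [hx]) (by push_cast; linarith only [hb]) (by push_cast; linarith only [hb'])
      (by push_cast; linarith only [h5]) (by push_cast; linarith only [h6]) (by push_cast; linarith only [h8]) (by push_cast; linarith only [h9]))
      (by change ((-100 : ℤ) : ℝ) / 10000 ≤ T + K; push_cast; linarith only [h10])
      (by change T + K ≤ ((1430 : ℤ) : ℝ) / 10000; push_cast; linarith only [h4, h9]) (by linarith only [h2, h6]) (fun h => hL (sub_pos.mp h))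
  · intro hx
    exact (okB_sound (by norm_num) (tst_ok (ok_oneN Rc_val)) c_coneN
      (by push_cast; linarith only [h1]) (by push_cast; linarith only [hx]) (by push_cast; linarith only [h3]) (by push_cast; linarith only [h4])
      (by push_cast; linarith only [h5]) (by push_cast; linarith only [h6]) (by push_cast; linarith only [h8]) (by push_cast; linarith only [h9]))
      (by change ((-100 : ℤ) : ℝ) / 10000 ≤ T + K; push_cast; linarith only [h10])
      (by change T + K ≤ ((1430 : ℤ) : ℝ) / 10000; push_cast; linarith only [h4, h9]) (by linarith only [h2, h6]) (fun h => hL (sub_pos.mp h))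
  · intro hx hx'
    rcases le_total (Real.pi * (T / (29 / 100)) - 3 / 100) (129 / 100) with hm | hm
    · rw [min_eq_left hm]
      exact (okB_sound (by norm_num) (tst_ok (ok_oneN Rd_val)) c_doneN
        (by push_cast; linarith only [hx]) (by push_cast; linarith only [hx']) (by push_cast; linarith only [h3]) (by push_cast; linarith only [hp, hm])
        (by push_cast; linarith only [h5]) (by push_cast; linarith only [h6]) (by push_cast; linarith only [h8]) (by push_cast; linarith only [h9]))
        (by change ((-100 : ℤ) : ℝ) / 10000 ≤ T + K; push_cast; linarith only [h10])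
        (by change T + K ≤ ((1430 : ℤ) : ℝ) / 10000; push_cast; linarith only [h4, h9]) (by linarith only [h2, h6]) (fun h => hL (sub_pos.mp h))
    · rw [min_eq_right hm]
      have := (okB_sound (by norm_num) (tst_ok (ok_oneN (Rq_val _ _))) c_DoneN
        (by push_cast; linarith only [hx]) (by push_cast; linarith only [hx']) (by push_cast; linarith only [hp', hm]) (by push_cast; linarith only [h4])
        (by push_cast; linarith only [h5]) (by push_cast; linarith only [h6]) (by push_cast; linarith only [h8]) (by push_cast; linarith only [h9]))
        (by change ((-100 : ℤ) : ℝ) / 10000 ≤ T + K; push_cast; linarith only [h10])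
        (by change T + K ≤ ((1430 : ℤ) : ℝ) / 10000; push_cast; linarith only [h4, h9]) (by linarith only [h2, h6]) (fun h => hL (sub_pos.mp h))
      norm_num at this ⊢
      exact this
  · intro hx ht
    rcases le_total (Real.pi * (T / (29 / 100)) - 3 / 100) (89 / 100) with hm | hm
    · rw [min_eq_left hm]
      exact (okB_sound (by norm_num) (tst_ok (ok_oneN Rd_val)) c_eoneN
        (by push_cast; linarith only [hx]) (by push_cast; linarith only [h2]) (by push_cast; linarith only [h3]) (by push_cast; linarith only [hp, hm])
        (by push_cast; linarith only [h5]) (by push_cast; linarith only [h6]) (by push_cast; linarith only [h10, hp, hm]) (by push_cast; linarith only [h9]))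
        (by change ((-100 : ℤ) : ℝ) / 10000 ≤ T + K; push_cast; linarith only [h10])
        (by change T + K ≤ ((1430 : ℤ) : ℝ) / 10000; push_cast; linarith only [h9, hp, hm]) (by linarith only [h2, h6]) (fun h => hL (sub_pos.mp h))
    · rw [min_eq_right hm]
      have := (okB_sound (by norm_num) (tst_ok (ok_oneN (Rq_val _ _))) c_EoneN
        (by push_cast; linarith only [hx]) (by push_cast; linarith only [h2]) (by push_cast; linarith only [hp', hm]) (by push_cast; linarith only [ht])
        (by push_cast; linarith only [h5]) (by push_cast; linarith only [h6]) (by push_cast; linarith only [h8]) (by push_cast; linarith only [h9]))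
        (by change ((-100 : ℤ) : ℝ) / 10000 ≤ T + K; push_cast; linarith only [h10])
        (by change T + K ≤ ((1430 : ℤ) : ℝ) / 10000; push_cast; linarith only [h4, h9]) (by linarith only [h2, h6]) (fun h => hL (sub_pos.mp h))
      norm_num at this ⊢
      exact this
  · intro hx
    rcases le_total (Real.pi * (T / (29 / 100)) - 3 / 100) (109 / 100) with hm | hm
    · rw [min_eq_left hm]
      exact (okB_sound (by norm_num) (tst_ok (ok_oneN Rd_val)) c_foneN
        (by push_cast; linarith only [hx]) (by push_cast; linarith only [h2]) (by push_cast; linarith only [h3]) (by push_cast; linarith only [hp, hm])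
        (by push_cast; linarith only [h5]) (by push_cast; linarith only [h6]) (by push_cast; linarith only [h10, hp, hm]) (by push_cast; linarith only [h9]))
        (by change ((-100 : ℤ) : ℝ) / 10000 ≤ T + K; push_cast; linarith only [h10])
        (by change T + K ≤ ((1430 : ℤ) : ℝ) / 10000; push_cast; linarith only [h9, hp, hm]) (by linarith only [h2, h6]) (fun h => hL (sub_pos.mp h))
    · rw [min_eq_right hm]
      have := (okB_sound (by norm_num) (tst_ok (ok_oneN (Rq_val _ _))) c_FoneN
        (by push_cast; linarith only [hx]) (by push_cast; linarith only [h2]) (by push_cast; linarith only [hp', hm]) (by push_cast; linarith only [h4])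
        (by push_cast; linarith only [h5]) (by push_cast; linarith only [h6]) (by push_cast; linarith only [h8]) (by push_cast; linarith only [h9]))
        (by change ((-100 : ℤ) : ℝ) / 10000 ≤ T + K; push_cast; linarith only [h10])
        (by change T + K ≤ ((1430 : ℤ) : ℝ) / 10000; push_cast; linarith only [h4, h9]) (by linarith only [h2, h6]) (fun h => hL (sub_pos.mp h))
      norm_num at this ⊢
      exact this

theorem oneP_res {x T z K : ℝ} (h1 : 36 / 100 ≤ x) (h2 : x ≤ 65 / 100) (h3 : 19 / 500 ≤ T)
    (h4 : T ≤ 17 / 125) (h5 : 1 / 8 ≤ z) (h6 : z ≤ 3 / 20) (h7 : x + z ≤ 95 / 100) (h8 : 0 ≤ K)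
    (h9 : K ≤ 51 / 1000) (h10 : -(1 / 100) ≤ T + K) (h11 : T + K ≤ 143 / 1000)
    (hL : z < 3 / 10 → dL 1 (-(Real.pi * (2 * (z + 7 / 10) - 1 / 2))) (100 / 15 * K) x T z (100 / 15 * K * z)
      (Real.log (Real.sin (Real.pi * (2 * (3 / 10 - z))))) ≤ 0) :
    Res (T ≤ 58 / 1000) (58 / 1000 ≤ T ∧ T ≤ 128 / 1000) x T (dD x T z (100 / 15 * K * z)) := by
  have hp : 31415 / 10000 * T ≤ Real.pi * T :=
    mul_le_mul_of_nonneg_right (by linarith only [Real.pi_gt_d4]) (by linarith only [h3])
  have hp' : Real.pi * T ≤ 31416 / 10000 * T :=
    mul_le_mul_of_nonneg_right (by linarith only [Real.pi_lt_d4]) (by linarith only [h3])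
  constructor
  · intro ha hx
    exact (okB_sound (by norm_num) (tst_ok (ok_oneP Ra_val)) c_aoneP
      (by push_cast; linarith only [h1]) (by push_cast; linarith only [hx]) (by push_cast; linarith only [h3]) (by push_cast; linarith only [ha])
      (by push_cast; linarith only [h5]) (by push_cast; linarith only [h6]) (by push_cast; linarith only [h8]) (by push_cast; linarith only [h9]))
      (by change ((-100 : ℤ) : ℝ) / 10000 ≤ T + K; push_cast; linarith only [h3, h8])
      (by change T + K ≤ ((1430 : ℤ) : ℝ) / 10000; push_cast; linarith only [h11]) (by linarith only [h2, h6]) (fun h => hL (sub_pos.mp h))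
  · rintro ⟨hb, hb'⟩ hx
    exact (okB_sound (by norm_num) (tst_ok (ok_oneP Rb_val)) c_boneP
      (by push_cast; linarith only [h1]) (by push_cast; linarith only [hx]) (by push_cast; linarith only [hb]) (by push_cast; linarith only [hb'])
      (by push_cast; linarith only [h5]) (by push_cast; linarith only [h6]) (by push_cast; linarith only [h8]) (by push_cast; linarith only [h9]))
      (by change ((-100 : ℤ) : ℝ) / 10000 ≤ T + K; push_cast; linarith only [h8, hb])
      (by change T + K ≤ ((1430 : ℤ) : ℝ) / 10000; push_cast; linarith only [h11]) (by linarith only [h2, h6]) (fun h => hL (sub_pos.mp h))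
  · intro hx
    exact (okB_sound (by norm_num) (tst_ok (ok_oneP Rc_val)) c_coneP
      (by push_cast; linarith only [h1]) (by push_cast; linarith only [hx]) (by push_cast; linarith only [h3]) (by push_cast; linarith only [h4])
      (by push_cast; linarith only [h5]) (by push_cast; linarith only [h6]) (by push_cast; linarith only [h8]) (by push_cast; linarith only [h9]))
      (by change ((-100 : ℤ) : ℝ) / 10000 ≤ T + K; push_cast; linarith only [h3, h8])
      (by change T + K ≤ ((1430 : ℤ) : ℝ) / 10000; push_cast; linarith only [h11]) (by linarith only [h2, h6]) (fun h => hL (sub_pos.mp h))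
  · intro hx hx'
    rcases le_total (Real.pi * (T / (29 / 100)) - 3 / 100) (129 / 100) with hm | hm
    · rw [min_eq_left hm]
      exact (okB_sound (by norm_num) (tst_ok (ok_oneP Rd_val)) c_doneP
        (by push_cast; linarith only [hx]) (by push_cast; linarith only [hx']) (by push_cast; linarith only [h3]) (by push_cast; linarith only [hp, hm])
        (by push_cast; linarith only [h5]) (by push_cast; linarith only [h6]) (by push_cast; linarith only [h8]) (by push_cast; linarith only [h9]))
        (by change ((-100 : ℤ) : ℝ) / 10000 ≤ T + K; push_cast; linarith only [h3, h8])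
        (by change T + K ≤ ((1430 : ℤ) : ℝ) / 10000; push_cast; linarith only [h11]) (by linarith only [h2, h6]) (fun h => hL (sub_pos.mp h))
    · rw [min_eq_right hm]
      have := (okB_sound (by norm_num) (tst_ok (ok_oneP (Rq_val _ _))) c_DoneP
        (by push_cast; linarith only [hx]) (by push_cast; linarith only [hx']) (by push_cast; linarith only [hp', hm]) (by push_cast; linarith only [h4])
        (by push_cast; linarith only [h5]) (by push_cast; linarith only [h6]) (by push_cast; linarith only [h8]) (by push_cast; linarith only [h9]))
        (by change ((-100 : ℤ) : ℝ) / 10000 ≤ T + K; push_cast; linarith only [h3, h8])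
        (by change T + K ≤ ((1430 : ℤ) : ℝ) / 10000; push_cast; linarith only [h11]) (by linarith only [h2, h6]) (fun h => hL (sub_pos.mp h))
      norm_num at this ⊢
      exact this
  · intro hx ht
    rcases le_total (Real.pi * (T / (29 / 100)) - 3 / 100) (89 / 100) with hm | hm
    · rw [min_eq_left hm]
      exact (okB_sound (by norm_num) (tst_ok (ok_oneP Rd_val)) c_eoneP
        (by push_cast; linarith only [hx]) (by push_cast; linarith only [h2]) (by push_cast; linarith only [h3]) (by push_cast; linarith only [hp, hm])
        (by push_cast; linarith only [h5]) (by push_cast; linarith only [h6]) (by push_cast; linarith only [h8]) (by push_cast; linarith only [h9]))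
        (by change ((-100 : ℤ) : ℝ) / 10000 ≤ T + K; push_cast; linarith only [h3, h8])
        (by change T + K ≤ ((1430 : ℤ) : ℝ) / 10000; push_cast; linarith only [h11]) (by linarith only [h2, h6]) (fun h => hL (sub_pos.mp h))
    · rw [min_eq_right hm]
      have := (okB_sound (by norm_num) (tst_ok (ok_oneP (Rq_val _ _))) c_EoneP
        (by push_cast; linarith only [hx]) (by push_cast; linarith only [h2]) (by push_cast; linarith only [hp', hm]) (by push_cast; linarith only [ht])
        (by push_cast; linarith only [h5]) (by push_cast; linarith only [h6]) (by push_cast; linarith only [h8]) (by push_cast; linarith only [h9]))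
        (by change ((-100 : ℤ) : ℝ) / 10000 ≤ T + K; push_cast; linarith only [h3, h8])
        (by change T + K ≤ ((1430 : ℤ) : ℝ) / 10000; push_cast; linarith only [h11]) (by linarith only [h2, h6]) (fun h => hL (sub_pos.mp h))
      norm_num at this ⊢
      exact this
  · intro hx
    rcases le_total (Real.pi * (T / (29 / 100)) - 3 / 100) (109 / 100) with hm | hm
    · rw [min_eq_left hm]
      exact (okB_sound (by norm_num) (tst_ok (ok_oneP Rd_val)) c_foneP
        (by push_cast; linarith only [hx]) (by push_cast; linarith only [h2]) (by push_cast; linarith only [h3]) (by push_cast; linarith only [hp, hm])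
        (by push_cast; linarith only [h5]) (by push_cast; linarith only [h6]) (by push_cast; linarith only [h8]) (by push_cast; linarith only [h9]))
        (by change ((-100 : ℤ) : ℝ) / 10000 ≤ T + K; push_cast; linarith only [h3, h8])
        (by change T + K ≤ ((1430 : ℤ) : ℝ) / 10000; push_cast; linarith only [h11]) (by linarith only [h2, h6]) (fun h => hL (sub_pos.mp h))
    · rw [min_eq_right hm]
      have := (okB_sound (by norm_num) (tst_ok (ok_oneP (Rq_val _ _))) c_FoneP
        (by push_cast; linarith only [hx]) (by push_cast; linarith only [h2]) (by push_cast; linarith only [hp', hm]) (by push_cast; linarith only [h4])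
        (by push_cast; linarith only [h5]) (by push_cast; linarith only [h6]) (by push_cast; linarith only [h8]) (by push_cast; linarith only [h9]))
        (by change ((-100 : ℤ) : ℝ) / 10000 ≤ T + K; push_cast; linarith only [h3, h8])
        (by change T + K ≤ ((1430 : ℤ) : ℝ) / 10000; push_cast; linarith only [h11]) (by linarith only [h2, h6]) (fun h => hL (sub_pos.mp h))
      norm_num at this ⊢
      exact this

theorem twoF_res {x T z K : ℝ} (h1 : 36 / 100 ≤ x) (h2 : x ≤ 65 / 100) (h3 : 63 / 1000 ≤ T)
    (h4 : T ≤ 29 / 200) (h5 : 4 / 25 ≤ z) (h6 : z ≤ 51 / 100) (h7 : x + z ≤ 95 / 100) (h8 : -(1 / 125) ≤ K)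
    (h9 : K ≤ 2 / 25) (h10 : 47 / 500 ≤ T + K) (h11 : T + K ≤ 187 / 1000)
    (hL : z < 44 / 100 → dL 2 0 0 x T z K
      (Real.log (Real.sin (Real.pi * (2 * (44 / 100 - z))))) ≤ 0) :
    Res (False) (T ≤ 128 / 1000) x T (dD x T z K) := by
  have hp : 31415 / 10000 * T ≤ Real.pi * T :=
    mul_le_mul_of_nonneg_right (by linarith only [Real.pi_gt_d4]) (by linarith only [h3])
  have hp' : Real.pi * T ≤ 31416 / 10000 * T :=
    mul_le_mul_of_nonneg_right (by linarith only [Real.pi_lt_d4]) (by linarith only [h3])
  constructor
  · exact fun h => h.elim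
  · intro hb hx
    exact (okB_sound (by norm_num) (tst_ok (ok_twoF Rb_val)) c_btwoF
      (by push_cast; linarith only [h1]) (by push_cast; linarith only [hx]) (by push_cast; linarith only [h3]) (by push_cast; linarith only [hb])
      (by push_cast; linarith only [h5]) (by push_cast; linarith only [h6]) (by push_cast; linarith only [h8]) (by push_cast; linarith only [h9]))
      (by change ((940 : ℤ) : ℝ) / 10000 ≤ T + K; push_cast; linarith only [h10])
      (by change T + K ≤ ((1870 : ℤ) : ℝ) / 10000; push_cast; linarith only [h11]) (by linarith only [h7]) (fun h => hL (sub_pos.mp h))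
  · intro hx
    exact (okB_sound (by norm_num) (tst_ok (ok_twoF Rc_val)) c_ctwoF
      (by push_cast; linarith only [h1]) (by push_cast; linarith only [hx]) (by push_cast; linarith only [h3]) (by push_cast; linarith only [h4])
      (by push_cast; linarith only [h5]) (by push_cast; linarith only [h6]) (by push_cast; linarith only [h8]) (by push_cast; linarith only [h9]))
      (by change ((940 : ℤ) : ℝ) / 10000 ≤ T + K; push_cast; linarith only [h10])
      (by change T + K ≤ ((1870 : ℤ) : ℝ) / 10000; push_cast; linarith only [h11]) (by linarith only [h7]) (fun h => hL (sub_pos.mp h))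
  · intro hx hx'
    rcases le_total (Real.pi * (T / (29 / 100)) - 3 / 100) (129 / 100) with hm | hm
    · rw [min_eq_left hm]
      exact (okB_sound (by norm_num) (tst_ok (ok_twoF Rd_val)) c_dtwoF
        (by push_cast; linarith only [hx]) (by push_cast; linarith only [hx']) (by push_cast; linarith only [h3]) (by push_cast; linarith only [hp, hm])
        (by push_cast; linarith only [h5]) (by push_cast; linarith only [h7, hx]) (by push_cast; linarith only [h8]) (by push_cast; linarith only [h9]))
        (by change ((940 : ℤ) : ℝ) / 10000 ≤ T + K; push_cast; linarith only [h10])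
        (by change T + K ≤ ((1870 : ℤ) : ℝ) / 10000; push_cast; linarith only [h11]) (by linarith only [h7]) (fun h => hL (sub_pos.mp h))
    · rw [min_eq_right hm]
      have := (okB_sound (by norm_num) (tst_ok (ok_twoF (Rq_val _ _))) c_DtwoF
        (by push_cast; linarith only [hx]) (by push_cast; linarith only [hx']) (by push_cast; linarith only [hp', hm]) (by push_cast; linarith only [h4])
        (by push_cast; linarith only [h5]) (by push_cast; linarith only [h7, hx]) (by push_cast; linarith only [h8]) (by push_cast; linarith only [h9]))
        (by change ((940 : ℤ) : ℝ) / 10000 ≤ T + K; push_cast; linarith only [h10])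
        (by change T + K ≤ ((1870 : ℤ) : ℝ) / 10000; push_cast; linarith only [h11]) (by linarith only [h7]) (fun h => hL (sub_pos.mp h))
      norm_num at this ⊢
      exact this
  · intro hx ht
    rcases le_total (Real.pi * (T / (29 / 100)) - 3 / 100) (89 / 100) with hm | hm
    · rw [min_eq_left hm]
      exact (okB_sound (by norm_num) (tst_ok (ok_twoF Rd_val)) c_etwoF
        (by push_cast; linarith only [hx]) (by push_cast; linarith only [h2]) (by push_cast; linarith only [h3]) (by push_cast; linarith only [hp, hm])
        (by push_cast; linarith only [h5]) (by push_cast; linarith only [h7, hx]) (by push_cast; linarith only [h10, hp, hm]) (by push_cast; linarith only [h9]))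
        (by change ((940 : ℤ) : ℝ) / 10000 ≤ T + K; push_cast; linarith only [h10])
        (by change T + K ≤ ((1870 : ℤ) : ℝ) / 10000; push_cast; linarith only [h9, hp, hm]) (by linarith only [h7]) (fun h => hL (sub_pos.mp h))
    · rw [min_eq_right hm]
      have := (okB_sound (by norm_num) (tst_ok (ok_twoF (Rq_val _ _))) c_EtwoF
        (by push_cast; linarith only [hx]) (by push_cast; linarith only [h2]) (by push_cast; linarith only [hp', hm]) (by push_cast; linarith only [ht])
        (by push_cast; linarith only [h5]) (by push_cast; linarith only [h7, hx]) (by push_cast; linarith only [h8]) (by push_cast; linarith only [h9]))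
        (by change ((940 : ℤ) : ℝ) / 10000 ≤ T + K; push_cast; linarith only [h10])
        (by change T + K ≤ ((1870 : ℤ) : ℝ) / 10000; push_cast; linarith only [h11]) (by linarith only [h7]) (fun h => hL (sub_pos.mp h))
      norm_num at this ⊢
      exact this
  · intro hx
    rcases le_total (Real.pi * (T / (29 / 100)) - 3 / 100) (109 / 100) with hm | hm
    · rw [min_eq_left hm]
      exact (okB_sound (by norm_num) (tst_ok (ok_twoF Rd_val)) c_ftwoF
        (by push_cast; linarith only [hx]) (by push_cast; linarith only [h2]) (by push_cast; linarith only [h3]) (by push_cast; linarith only [hp, hm])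
        (by push_cast; linarith only [h5]) (by push_cast; linarith only [h7, hx]) (by push_cast; linarith only [h8]) (by push_cast; linarith only [h9]))
        (by change ((940 : ℤ) : ℝ) / 10000 ≤ T + K; push_cast; linarith only [h10])
        (by change T + K ≤ ((1870 : ℤ) : ℝ) / 10000; push_cast; linarith only [h11]) (by linarith only [h7]) (fun h => hL (sub_pos.mp h))
    · rw [min_eq_right hm]
      have := (okB_sound (by norm_num) (tst_ok (ok_twoF (Rq_val _ _))) c_FtwoF
        (by push_cast; linarith only [hx]) (by push_cast; linarith only [h2]) (by push_cast; linarith only [hp', hm]) (by push_cast; linarith only [h4])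
        (by push_cast; linarith only [h5]) (by push_cast; linarith only [h7, hx]) (by push_cast; linarith only [h8]) (by push_cast; linarith only [h9]))
        (by change ((940 : ℤ) : ℝ) / 10000 ≤ T + K; push_cast; linarith only [h10])
        (by change T + K ≤ ((1870 : ℤ) : ℝ) / 10000; push_cast; linarith only [h11]) (by linarith only [h7]) (fun h => hL (sub_pos.mp h))
      norm_num at this ⊢
      exact this

theorem twoG_res {x T z K : ℝ} (h1 : 36 / 100 ≤ x) (h2 : x ≤ 65 / 100) (h3 : 63 / 1000 ≤ T)
    (h4 : T ≤ 29 / 200) (h5 : 51 / 100 ≤ z) (h6 : z ≤ 14 / 25) (h7 : x + z ≤ 95 / 100) (h8 : -(1 / 125) ≤ K)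
    (h9 : K ≤ 2 / 25) (h10 : 159 / 2000 ≤ T + K) (h11 : T + K ≤ 187 / 1000) :
    Res (False) (T ≤ 128 / 1000) x T (dD x T z K) := by
  have hp : 31415 / 10000 * T ≤ Real.pi * T :=
    mul_le_mul_of_nonneg_right (by linarith only [Real.pi_gt_d4]) (by linarith only [h3])
  have hp' : Real.pi * T ≤ 31416 / 10000 * T :=
    mul_le_mul_of_nonneg_right (by linarith only [Real.pi_lt_d4]) (by linarith only [h3])
  constructor
  · exact fun h => h.elim
  · intro hb hx
    exact (okB_sound (by norm_num) (tst_ok (ok_twoG Rb_val)) c_btwoG
      (by push_cast; linarith only [h1]) (by push_cast; linarith only [h2, h5, h7]) (by push_cast; linarith only [h3]) (by push_cast; linarith only [hb])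
      (by push_cast; linarith only [h5]) (by push_cast; linarith only [h6]) (by push_cast; linarith only [h8]) (by push_cast; linarith only [h9]))
      (by change ((795 : ℤ) : ℝ) / 10000 ≤ T + K; push_cast; linarith only [h10])
      (by change T + K ≤ ((1870 : ℤ) : ℝ) / 10000; push_cast; linarith only [h11]) (by linarith only [h7]) (fun h => absurd h (lt_irrefl _))
  · intro hx
    exact (okB_sound (by norm_num) (tst_ok (ok_twoG Rc_val)) c_ctwoG
      (by push_cast; linarith only [h1]) (by push_cast; linarith only [h2, h5, h7]) (by push_cast; linarith only [h3]) (by push_cast; linarith only [h4])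
      (by push_cast; linarith only [h5]) (by push_cast; linarith only [h6]) (by push_cast; linarith only [h8]) (by push_cast; linarith only [h9]))
      (by change ((795 : ℤ) : ℝ) / 10000 ≤ T + K; push_cast; linarith only [h10])
      (by change T + K ≤ ((1870 : ℤ) : ℝ) / 10000; push_cast; linarith only [h11]) (by linarith only [h7]) (fun h => absurd h (lt_irrefl _))
  · intro hx hx'
    rcases le_total (Real.pi * (T / (29 / 100)) - 3 / 100) (129 / 100) with hm | hm
    · exfalso
      nlinarith only [h5, h7, hx]
    · exfalso
      nlinarith only [h5, h7, hx]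
  · intro hx ht
    rcases le_total (Real.pi * (T / (29 / 100)) - 3 / 100) (89 / 100) with hm | hm
    · exfalso
      nlinarith only [h5, h7, hx]
    · exfalso
      nlinarith only [h5, h7, hx]
  · intro hx
    rcases le_total (Real.pi * (T / (29 / 100)) - 3 / 100) (109 / 100) with hm | hm
    · exfalso
      nlinarith only [h5, h7, hx]
    · exfalso
      nlinarith only [h5, h7, hx]

theorem twoN_res {x T z K : ℝ} (h1 : 36 / 100 ≤ x) (h2 : x ≤ 65 / 100) (h3 : 63 / 1000 ≤ T)
    (h4 : T ≤ 29 / 200) (h5 : 3 / 20 ≤ z) (h6 : z ≤ 4 / 25) (h7 : x + z ≤ 95 / 100) (h8 : -(1 / 125) ≤ K)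
    (h9 : K ≤ 0) (h10 : 47 / 500 ≤ T + K) (h11 : T + K ≤ 187 / 1000)
    (hL : z < 44 / 100 → dL 2 (-(Real.pi * (1 / 2))) (100 / 16 * K) x T z (100 / 16 * K * z)
      (Real.log (Real.sin (Real.pi * (2 * (44 / 100 - z))))) ≤ 0) :
    Res (False) (T ≤ 128 / 1000) x T (dD x T z (100 / 16 * K * z)) := by
  have hp : 31415 / 10000 * T ≤ Real.pi * T :=
    mul_le_mul_of_nonneg_right (by linarith only [Real.pi_gt_d4]) (by linarith only [h3])
  have hp' : Real.pi * T ≤ 31416 / 10000 * T :=
    mul_le_mul_of_nonneg_right (by linarith only [Real.pi_lt_d4]) (by linarith only [h3])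
  constructor
  · exact fun h => h.elim
  · intro hb hx
    exact (okB_sound (by norm_num) (tst_ok (ok_twoN Rb_val)) c_btwoN
      (by push_cast; linarith only [h1]) (by push_cast; linarith only [hx]) (by push_cast; linarith only [h3]) (by push_cast; linarith only [hb])
      (by push_cast; linarith only [h5]) (by push_cast; linarith only [h6]) (by push_cast; linarith only [h8]) (by push_cast; linarith only [h9]))
      (by change ((940 : ℤ) : ℝ) / 10000 ≤ T + K; push_cast; linarith only [h10])
      (by change T + K ≤ ((1870 : ℤ) : ℝ) / 10000; push_cast; linarith only [h4, h9]) (by linarith only [h2, h6]) (fun h => hL (sub_pos.mp h))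
  · intro hx
    exact (okB_sound (by norm_num) (tst_ok (ok_twoN Rc_val)) c_ctwoN
      (by push_cast; linarith only [h1]) (by push_cast; linarith only [hx]) (by push_cast; linarith only [h3]) (by push_cast; linarith only [h4])
      (by push_cast; linarith only [h5]) (by push_cast; linarith only [h6]) (by push_cast; linarith only [h8]) (by push_cast; linarith only [h9]))
      (by change ((940 : ℤ) : ℝ) / 10000 ≤ T + K; push_cast; linarith only [h10])
      (by change T + K ≤ ((1870 : ℤ) : ℝ) / 10000; push_cast; linarith only [h4, h9]) (by linarith only [h2, h6]) (fun h => hL (sub_pos.mp h))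
  · intro hx hx'
    rcases le_total (Real.pi * (T / (29 / 100)) - 3 / 100) (129 / 100) with hm | hm
    · rw [min_eq_left hm]
      exact (okB_sound (by norm_num) (tst_ok (ok_twoN Rd_val)) c_dtwoN
        (by push_cast; linarith only [hx]) (by push_cast; linarith only [hx']) (by push_cast; linarith only [h3]) (by push_cast; linarith only [hp, hm])
        (by push_cast; linarith only [h5]) (by push_cast; linarith only [h6]) (by push_cast; linarith only [h8]) (by push_cast; linarith only [h9]))
        (by change ((940 : ℤ) : ℝ) / 10000 ≤ T + K; push_cast; linarith only [h10])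
        (by change T + K ≤ ((1870 : ℤ) : ℝ) / 10000; push_cast; linarith only [h4, h9]) (by linarith only [h2, h6]) (fun h => hL (sub_pos.mp h))
    · rw [min_eq_right hm]
      have := (okB_sound (by norm_num) (tst_ok (ok_twoN (Rq_val _ _))) c_DtwoN
        (by push_cast; linarith only [hx]) (by push_cast; linarith only [hx']) (by push_cast; linarith only [hp', hm]) (by push_cast; linarith only [h4])
        (by push_cast; linarith only [h5]) (by push_cast; linarith only [h6]) (by push_cast; linarith only [h8]) (by push_cast; linarith only [h9]))
        (by change ((940 : ℤ) : ℝ) / 10000 ≤ T + K; push_cast; linarith only [h10])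
        (by change T + K ≤ ((1870 : ℤ) : ℝ) / 10000; push_cast; linarith only [h4, h9]) (by linarith only [h2, h6]) (fun h => hL (sub_pos.mp h))
      norm_num at this ⊢
      exact this
  · intro hx ht
    rcases le_total (Real.pi * (T / (29 / 100)) - 3 / 100) (89 / 100) with hm | hm
    · rw [min_eq_left hm]
      exact (okB_sound (by norm_num) (tst_ok (ok_twoN Rd_val)) c_etwoN
        (by push_cast; linarith only [h9, h10, hp, hm]) (by push_cast; linarith only [h9, h10, hp, hm]) (by push_cast; linarith only [h9, h10, hp, hm]) (by push_cast; linarith only [h9, h10, hp, hm])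
        (by push_cast; linarith only [h9, h10, hp, hm]) (by push_cast; linarith only [h9, h10, hp, hm]) (by push_cast; linarith only [h9, h10, hp, hm]) (by push_cast; linarith only [h9, h10, hp, hm]))
        (by change ((940 : ℤ) : ℝ) / 10000 ≤ T + K; push_cast; linarith only [h9, h10, hp, hm])
        (by change T + K ≤ ((1870 : ℤ) : ℝ) / 10000; push_cast; linarith only [h9, h10, hp, hm]) (by linarith only [h9, h10, hp, hm]) (fun h => hL (sub_pos.mp h))
    · rw [min_eq_right hm]
      have := (okB_sound (by norm_num) (tst_ok (ok_twoN (Rq_val _ _))) c_EtwoN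
        (by push_cast; linarith only [hx]) (by push_cast; linarith only [h2]) (by push_cast; linarith only [h9, h10]) (by push_cast; linarith only [ht])
        (by push_cast; linarith only [h5]) (by push_cast; linarith only [h6]) (by push_cast; linarith only [h8]) (by push_cast; linarith only [h9]))
        (by change ((940 : ℤ) : ℝ) / 10000 ≤ T + K; push_cast; linarith only [h10])
        (by change T + K ≤ ((1870 : ℤ) : ℝ) / 10000; push_cast; linarith only [h4, h9]) (by linarith only [h2, h6]) (fun h => hL (sub_pos.mp h))
      norm_num at this ⊢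
      exact this
  · intro hx
    rcases le_total (Real.pi * (T / (29 / 100)) - 3 / 100) (109 / 100) with hm | hm
    · rw [min_eq_left hm]
      exact (okB_sound (by norm_num) (tst_ok (ok_twoN Rd_val)) c_ftwoN
        (by push_cast; linarith only [hx]) (by push_cast; linarith only [h2]) (by push_cast; linarith only [h3]) (by push_cast; linarith only [hp, hm])
        (by push_cast; linarith only [h5]) (by push_cast; linarith only [h6]) (by push_cast; linarith only [h8]) (by push_cast; linarith only [h9]))
        (by change ((940 : ℤ) : ℝ) / 10000 ≤ T + K; push_cast; linarith only [h10])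
        (by change T + K ≤ ((1870 : ℤ) : ℝ) / 10000; push_cast; linarith only [h4, h9]) (by linarith only [h2, h6]) (fun h => hL (sub_pos.mp h))
    · rw [min_eq_right hm]
      have := (okB_sound (by norm_num) (tst_ok (ok_twoN (Rq_val _ _))) c_FtwoN
        (by push_cast; linarith only [hx]) (by push_cast; linarith only [h2]) (by push_cast; linarith only [hp', hm]) (by push_cast; linarith only [h4])
        (by push_cast; linarith only [h5]) (by push_cast; linarith only [h6]) (by push_cast; linarith only [h8]) (by push_cast; linarith only [h9]))
        (by change ((940 : ℤ) : ℝ) / 10000 ≤ T + K; push_cast; linarith only [h10])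
        (by change T + K ≤ ((1870 : ℤ) : ℝ) / 10000; push_cast; linarith only [h4, h9]) (by linarith only [h2, h6]) (fun h => hL (sub_pos.mp h))
      norm_num at this ⊢
      exact this

theorem twoP_res {x T z K : ℝ} (h1 : 36 / 100 ≤ x) (h2 : x ≤ 65 / 100) (h3 : 63 / 1000 ≤ T)
    (h4 : T ≤ 29 / 200) (h5 : 3 / 20 ≤ z) (h6 : z ≤ 4 / 25) (h7 : x + z ≤ 95 / 100) (h8 : 0 ≤ K)
    (h9 : K ≤ 2 / 25) (h10 : 47 / 500 ≤ T + K) (h11 : T + K ≤ 187 / 1000)
    (hL : z < 44 / 100 → dL 2 (-(Real.pi * (2 * (z + 56 / 100)))) (100 / 16 * K) x T z (100 / 16 * K * z)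
      (Real.log (Real.sin (Real.pi * (2 * (44 / 100 - z))))) ≤ 0) :
    Res (False) (T ≤ 128 / 1000) x T (dD x T z (100 / 16 * K * z)) := by
  have hp : 31415 / 10000 * T ≤ Real.pi * T :=
    mul_le_mul_of_nonneg_right (by linarith only [Real.pi_gt_d4]) (by linarith only [h3])
  have hp' : Real.pi * T ≤ 31416 / 10000 * T :=
    mul_le_mul_of_nonneg_right (by linarith only [Real.pi_lt_d4]) (by linarith only [h3])
  constructor
  · exact fun h => h.elim
  · intro hb hx
    exact (okB_sound (by norm_num) (tst_ok (ok_twoP Rb_val)) c_btwoP
      (by push_cast; linarith only [h1]) (by push_cast; linarith only [hx]) (by push_cast; linarith only [h3]) (by push_cast; linarith only [hb])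
      (by push_cast; linarith only [h5]) (by push_cast; linarith only [h6]) (by push_cast; linarith only [h8]) (by push_cast; linarith only [h9]))
      (by change ((940 : ℤ) : ℝ) / 10000 ≤ T + K; push_cast; linarith only [h10])
      (by change T + K ≤ ((1870 : ℤ) : ℝ) / 10000; push_cast; linarith only [h11]) (by linarith only [h2, h6]) (fun h => hL (sub_pos.mp h))
  · intro hx
    exact (okB_sound (by norm_num) (tst_ok (ok_twoP Rc_val)) c_ctwoP
      (by push_cast; linarith only [h1]) (by push_cast; linarith only [hx]) (by push_cast; linarith only [h3]) (by push_cast; linarith only [h4])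
      (by push_cast; linarith only [h5]) (by push_cast; linarith only [h6]) (by push_cast; linarith only [h8]) (by push_cast; linarith only [h9]))
      (by change ((940 : ℤ) : ℝ) / 10000 ≤ T + K; push_cast; linarith only [h10])
      (by change T + K ≤ ((1870 : ℤ) : ℝ) / 10000; push_cast; linarith only [h11]) (by linarith only [h2, h6]) (fun h => hL (sub_pos.mp h))
  · intro hx hx'
    rcases le_total (Real.pi * (T / (29 / 100)) - 3 / 100) (129 / 100) with hm | hm
    · rw [min_eq_left hm]
      exact (okB_sound (by norm_num) (tst_ok (ok_twoP Rd_val)) c_dtwoP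
        (by push_cast; linarith only [hx]) (by push_cast; linarith only [hx']) (by push_cast; linarith only [h3]) (by push_cast; linarith only [hp, hm])
        (by push_cast; linarith only [h5]) (by push_cast; linarith only [h6]) (by push_cast; linarith only [h8]) (by push_cast; linarith only [h9]))
        (by change ((940 : ℤ) : ℝ) / 10000 ≤ T + K; push_cast; linarith only [h10])
        (by change T + K ≤ ((1870 : ℤ) : ℝ) / 10000; push_cast; linarith only [h11]) (by linarith only [h2, h6]) (fun h => hL (sub_pos.mp h))
    · rw [min_eq_right hm]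
      have := (okB_sound (by norm_num) (tst_ok (ok_twoP (Rq_val _ _))) c_DtwoP
        (by push_cast; linarith only [hx]) (by push_cast; linarith only [hx']) (by push_cast; linarith only [hp', hm]) (by push_cast; linarith only [h4])
        (by push_cast; linarith only [h5]) (by push_cast; linarith only [h6]) (by push_cast; linarith only [h8]) (by push_cast; linarith only [h9]))
        (by change ((940 : ℤ) : ℝ) / 10000 ≤ T + K; push_cast; linarith only [h10])
        (by change T + K ≤ ((1870 : ℤ) : ℝ) / 10000; push_cast; linarith only [h11]) (by linarith only [h2, h6]) (fun h => hL (sub_pos.mp h))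
      norm_num at this ⊢
      exact this
  · intro hx ht
    rcases le_total (Real.pi * (T / (29 / 100)) - 3 / 100) (89 / 100) with hm | hm
    · rw [min_eq_left hm]
      exact (okB_sound (by norm_num) (tst_ok (ok_twoP Rd_val)) c_etwoP
        (by push_cast; linarith only [hx]) (by push_cast; linarith only [h2]) (by push_cast; linarith only [h3]) (by push_cast; linarith only [hp, hm])
        (by push_cast; linarith only [h5]) (by push_cast; linarith only [h6]) (by push_cast; linarith only [h10, hp, hm]) (by push_cast; linarith only [h9]))
        (by change ((940 : ℤ) : ℝ) / 10000 ≤ T + K; push_cast; linarith only [h10])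
        (by change T + K ≤ ((1870 : ℤ) : ℝ) / 10000; push_cast; linarith only [h9, hp, hm]) (by linarith only [h2, h6]) (fun h => hL (sub_pos.mp h))
    · rw [min_eq_right hm]
      have := (okB_sound (by norm_num) (tst_ok (ok_twoP (Rq_val _ _))) c_EtwoP
        (by push_cast; linarith only [hx]) (by push_cast; linarith only [h2]) (by push_cast; linarith only [hp', hm]) (by push_cast; linarith only [ht])
        (by push_cast; linarith only [h5]) (by push_cast; linarith only [h6]) (by push_cast; linarith only [h8]) (by push_cast; linarith only [h9]))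
        (by change ((940 : ℤ) : ℝ) / 10000 ≤ T + K; push_cast; linarith only [h10])
        (by change T + K ≤ ((1870 : ℤ) : ℝ) / 10000; push_cast; linarith only [h11]) (by linarith only [h2, h6]) (fun h => hL (sub_pos.mp h))
      norm_num at this ⊢
      exact this
  · intro hx
    rcases le_total (Real.pi * (T / (29 / 100)) - 3 / 100) (109 / 100) with hm | hm
    · rw [min_eq_left hm]
      exact (okB_sound (by norm_num) (tst_ok (ok_twoP Rd_val)) c_ftwoP
        (by push_cast; linarith only [hx]) (by push_cast; linarith only [h2]) (by push_cast; linarith only [h3]) (by push_cast; linarith only [hp, hm])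
        (by push_cast; linarith only [h5]) (by push_cast; linarith only [h6]) (by push_cast; linarith only [h8]) (by push_cast; linarith only [h9]))
        (by change ((940 : ℤ) : ℝ) / 10000 ≤ T + K; push_cast; linarith only [h10])
        (by change T + K ≤ ((1870 : ℤ) : ℝ) / 10000; push_cast; linarith only [h11]) (by linarith only [h2, h6]) (fun h => hL (sub_pos.mp h))
    · rw [min_eq_right hm]
      have := (okB_sound (by norm_num) (tst_ok (ok_twoP (Rq_val _ _))) c_FtwoP
        (by push_cast; linarith only [hx]) (by push_cast; linarith only [h2]) (by push_cast; linarith only [hp', hm]) (by push_cast; linarith only [h4])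
        (by push_cast; linarith only [h5]) (by push_cast; linarith only [h6]) (by push_cast; linarith only [h8]) (by push_cast; linarith only [h9]))
        (by change ((940 : ℤ) : ℝ) / 10000 ≤ T + K; push_cast; linarith only [h10])
        (by change T + K ≤ ((1870 : ℤ) : ℝ) / 10000; push_cast; linarith only [h11]) (by linarith only [h2, h6]) (fun h => hL (sub_pos.mp h))
      norm_num at this ⊢
      exact this

theorem tweF_res {x T z K : ℝ} (h1 : 36 / 100 ≤ x) (h2 : x ≤ 65 / 100) (h3 : 1 / 10 ≤ T)
    (h4 : T ≤ 79 / 500) (h5 : 7 / 50 ≤ z) (h6 : z ≤ 7 / 20) (h7 : x + z ≤ 95 / 100) (h8 : -(61 / 1000) ≤ K)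
    (h9 : K ≤ -(3 / 125)) (h10 : 8 / 125 ≤ T + K) (h11 : T + K ≤ 53 / 500)
    (hL : z < 3 / 10 → dL 1 0 0 x T z K 0 ≤ 0) :
    Res (T ≤ 128 / 1000) (False) x T (dD x T z K) := by
  have hp : 31415 / 10000 * T ≤ Real.pi * T :=
    mul_le_mul_of_nonneg_right (by linarith only [Real.pi_gt_d4]) (by linarith only [h3])
  have hp' : Real.pi * T ≤ 31416 / 10000 * T :=
    mul_le_mul_of_nonneg_right (by linarith only [Real.pi_lt_d4]) (by linarith only [h3])
  constructor
  · intro ha hx
    exact (okB_sound (by norm_num) (tst_ok (ok_tweF Ra_val)) c_atweF
      (by push_cast; linarith only [h1]) (by push_cast; linarith only [hx]) (by push_cast; linarith only [h3]) (by push_cast; linarith only [ha])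
      (by push_cast; linarith only [h5]) (by push_cast; linarith only [h6]) (by push_cast; linarith only [h8]) (by push_cast; linarith only [h9]))
      (by change ((640 : ℤ) : ℝ) / 10000 ≤ T + K; push_cast; linarith only [h10])
      (by change T + K ≤ ((1060 : ℤ) : ℝ) / 10000; push_cast; linarith only [h11]) (by linarith only [h7]) (fun h => hL (sub_pos.mp h))
  · exact fun h => h.elim
  · intro hx
    exact (okB_sound (by norm_num) (tst_ok (ok_tweF Rc_val)) c_ctweF
      (by push_cast; linarith only [h1]) (by push_cast; linarith only [hx]) (by push_cast; linarith only [h3]) (by push_cast; linarith only [h4])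
      (by push_cast; linarith only [h5]) (by push_cast; linarith only [h6]) (by push_cast; linarith only [h8]) (by push_cast; linarith only [h9]))
      (by change ((640 : ℤ) : ℝ) / 10000 ≤ T + K; push_cast; linarith only [h10])
      (by change T + K ≤ ((1060 : ℤ) : ℝ) / 10000; push_cast; linarith only [h11]) (by linarith only [h7]) (fun h => hL (sub_pos.mp h))
  · intro hx hx'
    rcases le_total (Real.pi * (T / (29 / 100)) - 3 / 100) (129 / 100) with hm | hm
    · rw [min_eq_left hm]
      exact (okB_sound (by norm_num) (tst_ok (ok_tweF Rd_val)) c_dtweF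
        (by push_cast; linarith only [hx]) (by push_cast; linarith only [hx']) (by push_cast; linarith only [h3]) (by push_cast; linarith only [hp, hm])
        (by push_cast; linarith only [h5]) (by push_cast; linarith only [h6]) (by push_cast; linarith only [h10, hp, hm]) (by push_cast; linarith only [h9]))
        (by change ((640 : ℤ) : ℝ) / 10000 ≤ T + K; push_cast; linarith only [h10])
        (by change T + K ≤ ((1060 : ℤ) : ℝ) / 10000; push_cast; linarith only [h9, hp, hm]) (by linarith only [h7]) (fun h => hL (sub_pos.mp h))
    · rw [min_eq_right hm]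
      have := (okB_sound (by norm_num) (tst_ok (ok_tweF (Rq_val _ _))) c_DtweF
        (by push_cast; linarith only [hx]) (by push_cast; linarith only [hx']) (by push_cast; linarith only [hp', hm]) (by push_cast; linarith only [h4])
        (by push_cast; linarith only [h5]) (by push_cast; linarith only [h6]) (by push_cast; linarith only [h8]) (by push_cast; linarith only [h9]))
        (by change ((640 : ℤ) : ℝ) / 10000 ≤ T + K; push_cast; linarith only [h10])
        (by change T + K ≤ ((1060 : ℤ) : ℝ) / 10000; push_cast; linarith only [h11]) (by linarith only [h7]) (fun h => hL (sub_pos.mp h))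
      norm_num at this ⊢
      exact this
  · intro hx ht
    rcases le_total (Real.pi * (T / (29 / 100)) - 3 / 100) (89 / 100) with hm | hm
    · exfalso
      nlinarith only [h3, hp, hm]
    · rw [min_eq_right hm]
      have := (okB_sound (by norm_num) (tst_ok (ok_tweF (Rq_val _ _))) c_EtweF
        (by push_cast; linarith only [hx]) (by push_cast; linarith only [h2]) (by push_cast; linarith only [h3]) (by push_cast; linarith only [ht])
        (by push_cast; linarith only [h5]) (by push_cast; linarith only [h6]) (by push_cast; linarith only [h8]) (by push_cast; linarith only [h9]))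
        (by change ((640 : ℤ) : ℝ) / 10000 ≤ T + K; push_cast; linarith only [h10])
        (by change T + K ≤ ((1060 : ℤ) : ℝ) / 10000; push_cast; linarith only [h11]) (by linarith only [h7]) (fun h => hL (sub_pos.mp h))
      norm_num at this ⊢
      exact this
  · intro hx
    rcases le_total (Real.pi * (T / (29 / 100)) - 3 / 100) (109 / 100) with hm | hm
    · rw [min_eq_left hm]
      exact (okB_sound (by norm_num) (tst_ok (ok_tweF Rd_val)) c_ftweF
        (by push_cast; linarith only [hx]) (by push_cast; linarith only [h2]) (by push_cast; linarith only [h3]) (by push_cast; linarith only [hp, hm])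
        (by push_cast; linarith only [h5]) (by push_cast; linarith only [h6]) (by push_cast; linarith only [h10, hp, hm]) (by push_cast; linarith only [h9]))
        (by change ((640 : ℤ) : ℝ) / 10000 ≤ T + K; push_cast; linarith only [h10])
        (by change T + K ≤ ((1060 : ℤ) : ℝ) / 10000; push_cast; linarith only [h9, hp, hm]) (by linarith only [h7]) (fun h => hL (sub_pos.mp h))
    · rw [min_eq_right hm]
      have := (okB_sound (by norm_num) (tst_ok (ok_tweF (Rq_val _ _))) c_FtweF
        (by push_cast; linarith only [hx]) (by push_cast; linarith only [h2]) (by push_cast; linarith only [hp', hm]) (by push_cast; linarith only [h4])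
        (by push_cast; linarith only [h5]) (by push_cast; linarith only [h6]) (by push_cast; linarith only [h8]) (by push_cast; linarith only [h9]))
        (by change ((640 : ℤ) : ℝ) / 10000 ≤ T + K; push_cast; linarith only [h10])
        (by change T + K ≤ ((1060 : ℤ) : ℝ) / 10000; push_cast; linarith only [h11]) (by linarith only [h7]) (fun h => hL (sub_pos.mp h))
      norm_num at this ⊢
      exact this

theorem tweN_res {x T z K : ℝ} (h1 : 36 / 100 ≤ x) (h2 : x ≤ 65 / 100) (h3 : 1 / 10 ≤ T)
    (h4 : T ≤ 79 / 500) (h5 : 1 / 8 ≤ z) (h6 : z ≤ 7 / 50) (h7 : x + z ≤ 95 / 100) (h8 : -(61 / 1000) ≤ K)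
    (h9 : K ≤ -(3 / 125)) (h10 : 8 / 125 ≤ T + K) (h11 : T + K ≤ 53 / 500)
    (hL : z < 3 / 10 → dL 1 (-(Real.pi * (1 / 2))) (100 / 14 * K) x T z (100 / 14 * K * z) 0 ≤ 0) :
    Res (T ≤ 128 / 1000) (False) x T (dD x T z (100 / 14 * K * z)) := by
  have hp : 31415 / 10000 * T ≤ Real.pi * T :=
    mul_le_mul_of_nonneg_right (by linarith only [Real.pi_gt_d4]) (by linarith only [h3])
  have hp' : Real.pi * T ≤ 31416 / 10000 * T :=
    mul_le_mul_of_nonneg_right (by linarith only [Real.pi_lt_d4]) (by linarith only [h3])
  constructor
  · intro ha hx
    exact (okB_sound (by norm_num) (tst_ok (ok_tweN Ra_val)) c_atweN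
      (by push_cast; linarith only [h1]) (by push_cast; linarith only [hx]) (by push_cast; linarith only [h3]) (by push_cast; linarith only [ha])
      (by push_cast; linarith only [h5]) (by push_cast; linarith only [h6]) (by push_cast; linarith only [h8]) (by push_cast; linarith only [h9]))
      (by change ((640 : ℤ) : ℝ) / 10000 ≤ T + K; push_cast; linarith only [h10])
      (by change T + K ≤ ((1060 : ℤ) : ℝ) / 10000; push_cast; linarith only [h11]) (by linarith only [h2, h6]) (fun h => hL (sub_pos.mp h))
  · exact fun h => h.elim
  · intro hx
    exact (okB_sound (by norm_num) (tst_ok (ok_tweN Rc_val)) c_ctweN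
      (by push_cast; linarith only [h1]) (by push_cast; linarith only [hx]) (by push_cast; linarith only [h3]) (by push_cast; linarith only [h4])
      (by push_cast; linarith only [h5]) (by push_cast; linarith only [h6]) (by push_cast; linarith only [h8]) (by push_cast; linarith only [h9]))
      (by change ((640 : ℤ) : ℝ) / 10000 ≤ T + K; push_cast; linarith only [h10])
      (by change T + K ≤ ((1060 : ℤ) : ℝ) / 10000; push_cast; linarith only [h11]) (by linarith only [h2, h6]) (fun h => hL (sub_pos.mp h))
  · intro hx hx'
    rcases le_total (Real.pi * (T / (29 / 100)) - 3 / 100) (129 / 100) with hm | hm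
    · rw [min_eq_left hm]
      exact (okB_sound (by norm_num) (tst_ok (ok_tweN Rd_val)) c_dtweN
        (by push_cast; linarith only [hx]) (by push_cast; linarith only [hx']) (by push_cast; linarith only [h3]) (by push_cast; linarith only [hp, hm])
        (by push_cast; linarith only [h5]) (by push_cast; linarith only [h6]) (by push_cast; linarith only [h10, hp, hm]) (by push_cast; linarith only [h9]))
        (by change ((640 : ℤ) : ℝ) / 10000 ≤ T + K; push_cast; linarith only [h10])
        (by change T + K ≤ ((1060 : ℤ) : ℝ) / 10000; push_cast; linarith only [h9, hp, hm]) (by linarith only [h2, h6]) (fun h => hL (sub_pos.mp h))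
    · rw [min_eq_right hm]
      have := (okB_sound (by norm_num) (tst_ok (ok_tweN (Rq_val _ _))) c_DtweN
        (by push_cast; linarith only [hx]) (by push_cast; linarith only [hx']) (by push_cast; linarith only [hp', hm]) (by push_cast; linarith only [h4])
        (by push_cast; linarith only [h5]) (by push_cast; linarith only [h6]) (by push_cast; linarith only [h8]) (by push_cast; linarith only [h9]))
        (by change ((640 : ℤ) : ℝ) / 10000 ≤ T + K; push_cast; linarith only [h10])
        (by change T + K ≤ ((1060 : ℤ) : ℝ) / 10000; push_cast; linarith only [h11]) (by linarith only [h2, h6]) (fun h => hL (sub_pos.mp h))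
      norm_num at this ⊢
      exact this
  · intro hx ht
    rcases le_total (Real.pi * (T / (29 / 100)) - 3 / 100) (89 / 100) with hm | hm
    · exfalso
      nlinarith only [h3, hp, hm]
    · rw [min_eq_right hm]
      have := (okB_sound (by norm_num) (tst_ok (ok_tweN (Rq_val _ _))) c_EtweN
        (by push_cast; linarith only [hx]) (by push_cast; linarith only [h2]) (by push_cast; linarith only [h3]) (by push_cast; linarith only [ht])
        (by push_cast; linarith only [h5]) (by push_cast; linarith only [h6]) (by push_cast; linarith only [h8]) (by push_cast; linarith only [h9]))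
        (by change ((640 : ℤ) : ℝ) / 10000 ≤ T + K; push_cast; linarith only [h10])
        (by change T + K ≤ ((1060 : ℤ) : ℝ) / 10000; push_cast; linarith only [h11]) (by linarith only [h2, h6]) (fun h => hL (sub_pos.mp h))
      norm_num at this ⊢
      exact this
  · intro hx
    rcases le_total (Real.pi * (T / (29 / 100)) - 3 / 100) (109 / 100) with hm | hm
    · rw [min_eq_left hm]
      exact (okB_sound (by norm_num) (tst_ok (ok_tweN Rd_val)) c_ftweN
        (by push_cast; linarith only [hx]) (by push_cast; linarith only [h2]) (by push_cast; linarith only [h3]) (by push_cast; linarith only [hp, hm])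
        (by push_cast; linarith only [h5]) (by push_cast; linarith only [h6]) (by push_cast; linarith only [h10, hp, hm]) (by push_cast; linarith only [h9]))
        (by change ((640 : ℤ) : ℝ) / 10000 ≤ T + K; push_cast; linarith only [h10])
        (by change T + K ≤ ((1060 : ℤ) : ℝ) / 10000; push_cast; linarith only [h9, hp, hm]) (by linarith only [h2, h6]) (fun h => hL (sub_pos.mp h))
    · rw [min_eq_right hm]
      have := (okB_sound (by norm_num) (tst_ok (ok_tweN (Rq_val _ _))) c_FtweN
        (by push_cast; linarith only [hx]) (by push_cast; linarith only [h2]) (by push_cast; linarith only [hp', hm]) (by push_cast; linarith only [h4])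
        (by push_cast; linarith only [h5]) (by push_cast; linarith only [h6]) (by push_cast; linarith only [h8]) (by push_cast; linarith only [h9]))
        (by change ((640 : ℤ) : ℝ) / 10000 ≤ T + K; push_cast; linarith only [h10])
        (by change T + K ≤ ((1060 : ℤ) : ℝ) / 10000; push_cast; linarith only [h11]) (by linarith only [h2, h6]) (fun h => hL (sub_pos.mp h))
      norm_num at this ⊢
      exact this

end DZ

end Pool.Agent.Work.MP_b30479_gt.G2
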