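import Pool.Agent.Work.MP_b30479_gt.G2.MLM
import Pool.Agent.Work.MP_b30479_gt.G2.DZ0

/-!
# The balance at the other hinge of the digit `1`
-/

namespace Pool.Agent.Work.MP_b30479_gt.G2

open VOL NumI

namespace DZ

theorem HH_zero_eq {a : ℝ} (b : ℝ) (h0 : 0 < a) (h1 : a < 1) : 2 * (lnA a b + Real.pi * b) =
    Real.log ((Real.exp (2 * Real.pi * b) - Real.cos (2 * Real.pi * a)) ^ 2 +
      Real.sin (2 * Real.pi * a) ^ 2) := by
  have hp := Real.pi_pos
  have hs : 0 < Real.sin (Real.pi * a) := Real.sin_pos_of_pos_of_lt_pi (by positivity) (by nlinarith only [h1, hp])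
  have hM : 0 < 4 * (Real.sin (Real.pi * a) ^ 2 + Real.sinh (Real.pi * b) ^ 2) := by positivity
  have e1 : 2 * (lnA a b + Real.pi * b) = Real.log (4 * (Real.sin (Real.pi * a) ^ 2 +
      Real.sinh (Real.pi * b) ^ 2)) + Real.log (Real.exp (2 * Real.pi * b)) := by
    rw [Real.log_exp]
    unfold lnA
    ring
  rw [e1, ← Real.log_mul hM.ne' (Real.exp_pos _).ne']
  congr 1
  have e2 : Real.cos (2 * Real.pi * a) = 1 - 2 * Real.sin (Real.pi * a) ^ 2 := by
    rw [mul_assoc, Real.cos_two_mul]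
    have := Real.sin_sq_add_cos_sq (Real.pi * a)
    linarith only [this]
  have e3 : Real.sin (2 * Real.pi * a) ^ 2 = 1 - Real.cos (2 * Real.pi * a) ^ 2 := by
    have := Real.sin_sq_add_cos_sq (2 * Real.pi * a)
    linarith only [this]
  have e4 : Real.exp (2 * Real.pi * b) = Real.exp (Real.pi * b) ^ 2 := by
    rw [← Real.exp_nat_mul]
    congr 1
    push_cast
    ring
  have e5 : Real.sinh (Real.pi * b) = (Real.exp (Real.pi * b) - Real.exp (-(Real.pi * b))) / 2 :=
    Real.sinh_eq _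
  have e6 : Real.exp (Real.pi * b) * Real.exp (-(Real.pi * b)) = 1 := by
    rw [← Real.exp_add, add_neg_cancel, Real.exp_zero]
  rw [e3, e4, e5, e2]
  generalize Real.exp (Real.pi * b) = X at *
  generalize Real.exp (-(Real.pi * b)) = Y at *
  generalize Real.sin (Real.pi * a) = S at *
  linear_combination (-2 * X ^ 2 + X * Y + 1) * e6

theorem HH_zero_ge {a d : ℝ} (b : ℝ) (h0 : 0 < a) (hd : 0 < d) (h1 : a ≤ 1 - d)
    (h2 : 1 / 4 ≤ a ∨ d ≤ a) : Real.log (Real.sin (Real.pi * (2 * d))) ≤ lnA a b + Real.pi * b := by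
  have hp := Real.pi_pos
  have key : 2 * Real.log (Real.sin (Real.pi * (2 * d))) ≤ 2 * (lnA a b + Real.pi * b) := by
    rw [HH_zero_eq b h0 (by linarith only [hd, h1])]
    by_cases hc : 1 / 4 ≤ a ∧ a ≤ 3 / 4
    · have hcos : Real.cos (2 * Real.pi * a) ≤ 0 := by
        apply Real.cos_nonpos_of_pi_div_two_le_of_le <;> nlinarith only [h0, hd, h1, hp, hc, hc.1, hc.2]
      have h3 : 1 ≤ (Real.exp (2 * Real.pi * b) - Real.cos (2 * Real.pi * a)) ^ 2 +
          Real.sin (2 * Real.pi * a) ^ 2 := by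
        have e1 := Real.sin_sq_add_cos_sq (2 * Real.pi * a)
        have e2 := Real.exp_pos (2 * Real.pi * b)
        nlinarith only [e1, hcos, e2]
      have h4 := Real.log_nonneg h3
      have h5 : Real.log (Real.sin (Real.pi * (2 * d))) ≤ 0 := by
        rcases le_or_gt (Real.sin (Real.pi * (2 * d))) 0 with h | h
        · have h6 : -Real.sin (Real.pi * (2 * d)) ≤ 1 := by
            linarith only [Real.neg_one_le_sin (Real.pi * (2 * d))]
          rw [← Real.log_neg_eq_log]
          exact Real.log_nonpos (by linarith only [h]) h6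
        · exact Real.log_nonpos h.le (Real.sin_le_one _)
      linarith only [h4, h5]
    · have h3 : 0 < Real.sin (Real.pi * (2 * d)) ∧
          Real.sin (Real.pi * (2 * d)) ^ 2 ≤ Real.sin (2 * Real.pi * a) ^ 2 := by
        rcases le_or_gt (1 / 4) a with h4 | h4
        · have h5 : 3 / 4 < a := by
            by_contra h6
            exact hc ⟨h4, by linarith only [h6]⟩
          have e : Real.sin (2 * Real.pi * a) = -Real.sin (Real.pi * (2 * (1 - a))) := by
            rw [show Real.pi * (2 * (1 - a)) = 2 * Real.pi - 2 * Real.pi * a by ring,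
              Real.sin_two_pi_sub, neg_neg]
          have h6 : 0 < Real.sin (Real.pi * (2 * d)) :=
            Real.sin_pos_of_pos_of_lt_pi (by positivity) (by nlinarith only [hd, hp, h1, h5])
          have h7 : Real.sin (Real.pi * (2 * d)) ≤ Real.sin (Real.pi * (2 * (1 - a))) :=
            Real.sin_le_sin_of_le_of_le_pi_div_two (by nlinarith only [hp, hd]) (by nlinarith only [hp, h5]) (by nlinarith only [h1, hp])
          refine ⟨h6, ?_⟩
          rw [e, neg_sq]
          exact pow_le_pow_left₀ h6.le h7 2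
        · have h5 : d ≤ a := by
            rcases h2 with h2 | h2
            · exact absurd h2 (by linarith only [h4, h2])
            · exact h2
          have h6 : 0 < Real.sin (Real.pi * (2 * d)) :=
            Real.sin_pos_of_pos_of_lt_pi (by positivity) (by nlinarith only [h0, hp, h4, h5])
          have h7 : Real.sin (Real.pi * (2 * d)) ≤ Real.sin (2 * Real.pi * a) :=
            Real.sin_le_sin_of_le_of_le_pi_div_two (by nlinarith only [hp, hd]) (by nlinarith only [h0, hd, h1, hp, h4]) (by nlinarith only [hp, h5])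
          exact ⟨h6, pow_le_pow_left₀ h6.le h7 2⟩
      have h4 : 2 * Real.log (Real.sin (Real.pi * (2 * d))) =
          Real.log (Real.sin (Real.pi * (2 * d)) ^ 2) := by
        rw [Real.log_pow]
        push_cast
        ring
      rw [h4]
      exact Real.log_le_log (by have := h3.1; positivity) (by nlinarith only [h3, h3.2])
  linarith only [key]

theorem abs_lnB_le {a : ℝ} (b : ℝ) (h0 : 0 < a) (h1 : a < 1) :
    |lnB a b| ≤ |Real.pi / 2 - Real.pi * a| := by
  have hp := Real.pi_pos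
  have key : ∀ {a : ℝ}, 0 < a → a ≤ 1 / 2 → |lnB a b| ≤ Real.pi / 2 - Real.pi * a := by
    intro a h0 h1
    have hs : 0 < Real.sin (Real.pi * a) :=
      Real.sin_pos_of_pos_of_lt_pi (by positivity) (by nlinarith)
    have hc : 0 ≤ Real.cos (Real.pi * a) := Real.cos_nonneg_of_mem_Icc ⟨by nlinarith, by nlinarith⟩
    have hch : 0 < Real.cosh (Real.pi * b) := Real.cosh_pos _
    have e1 : Real.tan (Real.pi / 2 - Real.pi * a) = Real.cos (Real.pi * a) / Real.sin (Real.pi * a) := by
      rw [Real.tan_eq_sin_div_cos, Real.sin_pi_div_two_sub, Real.cos_pi_div_two_sub]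
    have e2 : Real.pi / 2 - Real.pi * a = Real.arctan (Real.cos (Real.pi * a) / Real.sin (Real.pi * a)) := by
      rw [← e1, Real.arctan_tan] <;> nlinarith
    have h3 : |Real.cos (Real.pi * a) * Real.sinh (Real.pi * b) /
        (Real.sin (Real.pi * a) * Real.cosh (Real.pi * b))| ≤
        Real.cos (Real.pi * a) / Real.sin (Real.pi * a) := by
      rw [abs_div, abs_mul, abs_mul, abs_of_nonneg hc, abs_of_pos hs, abs_of_pos hch,
        div_le_div_iff₀ (by positivity) hs]
      have h4 : |Real.sinh (Real.pi * b)| ≤ Real.cosh (Real.pi * b) := by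
        rw [abs_le]
        have h5 := Real.cosh_sq (Real.pi * b)
        constructor <;> nlinarith
      have := mul_le_mul_of_nonneg_left h4 (mul_nonneg hc hs.le)
      nlinarith only [this]
    unfold lnB
    rw [e2]
    rw [abs_le] at h3 ⊢
    refine ⟨?_, Real.arctan_mono h3.2⟩
    rw [← Real.arctan_neg]
    exact Real.arctan_mono h3.1
  rcases le_or_gt a (1 / 2) with h | h
  · exact (key h0 h).trans (le_abs_self _)
  · have h3 := key (a := 1 - a) (by linarith only [h1]) (by linarith only [h])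
    rw [lnB_one_sub, abs_neg] at h3
    refine h3.trans ?_
    rw [abs_sub_comm]
    refine le_trans (le_of_eq ?_) (le_abs_self _)
    ring

/-- bounds of the phase -/
theorem phase_le {a : ℝ} (b : ℝ) (h0 : 0 < a) (h1 : a < 1) {c : ℝ} (h2 : 1 / 2 ≤ c) (h3 : a ≤ c) :
    Real.pi * a - lnB a b ≤ Real.pi * (2 * c - 1 / 2) := by
  have hp := Real.pi_pos
  have h4 := abs_le.1 (abs_lnB_le b h0 h1)
  rcases le_total (Real.pi / 2) (Real.pi * a) with h5 | h5
  · rw [abs_of_nonpos (by linarith only [h5])] at h4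
    nlinarith only [h4, h0, h1, h3, hp]
  · rw [abs_of_nonneg (by linarith only [h5])] at h4
    nlinarith only [h4, h0, h1, h2, hp]

theorem phase_ge {a : ℝ} (b : ℝ) (h0 : 0 < a) (h1 : a < 1) {c : ℝ} (h2 : c ≤ 1 / 2) (h3 : c ≤ a) :
    Real.pi * (2 * c - 1 / 2) ≤ Real.pi * a - lnB a b := by
  have hp := Real.pi_pos
  have h4 := abs_le.1 (abs_lnB_le b h0 h1)
  rcases le_total (Real.pi / 2) (Real.pi * a) with h5 | h5
  · rw [abs_of_nonpos (by linarith only [h5])] at h4
    nlinarith only [h4, h0, h1, h2, hp]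
  · rw [abs_of_nonneg (by linarith only [h5])] at h4
    nlinarith only [h4, h0, h1, h3, hp]

theorem lnA_neg (x t : ℝ) : lnA x (-t) = lnA x t := Num.A_neg x t

theorem dL_one {x T z K a b μ H κ : ℝ} (hH : H + μ * κ ≤ lnA (z + a) (b - K) + Real.pi * (b - K) -
    μ * (Real.pi * (z + a) - lnB (z + a) (b - K))) :
    dL 1 κ μ x T z K H ≤ MR.s1 μ z K x (dy x T) + MR.s1 (-μ) z (-K) a b := by
  unfold dL MR.s1
  rw [add_comm z x, add_comm K (dy x T), show -K + b = b - K by ring, lnA_neg, lnB_neg]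
  push_cast
  linarith only [hH]

theorem dL_two {x T z K a b μ H κ : ℝ} (hH : H + μ * κ ≤ lnA (z + a) (b - K) + Real.pi * (b - K) -
    μ * (Real.pi * (z + a) - lnB (z + a) (b - K))) :
    dL 2 (-(Real.pi * (1 / 2)) + κ) μ x T z K H ≤
      MR.s1 μ z K x (dy x T) + MR.s2 (-μ) z (-K) a b := by
  unfold dL MR.s1 MR.s2
  rw [add_comm z x, add_comm K (dy x T), show -K + b = b - K by ring, lnA_neg, lnB_neg]
  push_cast
  linarith only [hH]

theorem dL_twe {x T z K μ : ℝ} : dL 1 (-(Real.pi * (1 / 2))) μ x T z K 0 =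
    MR.s1 μ z K x (dy x T) + MR.s2e (-μ) z (-K) := by
  unfold dL MR.s1 MR.s2e
  rw [add_comm z x, add_comm K (dy x T), lnA_neg, lnB_neg]
  push_cast
  ring

theorem dL_mu_zero (κ κ' : ℝ) {n : ℕ} {x T z K H : ℝ} :
    dL n κ 0 x T z K H = dL n κ' 0 x T z K H := by
  unfold dL
  ring

/-- the term `H`, horizontal part of the path of the other hinge -/
theorem H_flat {z a b K h : ℝ} (hz : 0 < z) (ha : 0 < a) (hh : z < h) (h1 : a ≤ 1 - h)
    (h2 : 1 / 4 ≤ z + a ∨ h - z ≤ z + a) :
    Real.log (Real.sin (Real.pi * (2 * (h - z)))) + 0 * 0 ≤ lnA (z + a) (b - K) +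
      Real.pi * (b - K) - 0 * (Real.pi * (z + a) - lnB (z + a) (b - K)) := by
  have := HH_zero_ge (a := z + a) (d := h - z) (b - K) (by linarith only [hz, ha]) (by linarith only [hh]) (by linarith only [h1]) h2
  linarith only [this]

/-- the left ramp, `μ ≤ 0` -/
theorem H_neg {z a b K h μ κ : ℝ} (hz : 0 < z) (ha : 0 < a) (hh : z < h) (h1 : a ≤ 1 - h)
    (h2 : 1 / 4 ≤ z + a ∨ h - z ≤ z + a) (hμ : μ ≤ 0) {c : ℝ} (hc : c ≤ 1 / 2) (hc' : c ≤ z + a)
    (hκ : -κ ≤ Real.pi * (2 * c - 1 / 2)) :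
    Real.log (Real.sin (Real.pi * (2 * (h - z)))) + μ * κ ≤ lnA (z + a) (b - K) +
      Real.pi * (b - K) - μ * (Real.pi * (z + a) - lnB (z + a) (b - K)) := by
  have h3 := HH_zero_ge (a := z + a) (d := h - z) (b - K) (by linarith only [hz, ha]) (by linarith only [hh]) (by linarith only [h1]) h2
  have h4 := phase_ge (a := z + a) (b - K) (by linarith only [hz, ha]) (by linarith only [hh, h1]) hc hc'
  have h5 : 0 ≤ (-μ) * (κ + (Real.pi * (z + a) - lnB (z + a) (b - K))) :=
    mul_nonneg (by linarith only [hμ]) (by linarith only [hκ, h4])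
  nlinarith only [h3, h5]

/-- the left ramp, `0 ≤ μ` -/
theorem H_pos {z a b K h μ κ : ℝ} (hz : 0 < z) (ha : 0 < a) (hh : z < h) (h1 : a ≤ 1 - h)
    (h2 : 1 / 4 ≤ z + a ∨ h - z ≤ z + a) (hμ : 0 ≤ μ) {c : ℝ} (hc : 1 / 2 ≤ c) (hc' : z + a ≤ c)
    (hκ : Real.pi * (2 * c - 1 / 2) ≤ -κ) :
    Real.log (Real.sin (Real.pi * (2 * (h - z)))) + μ * κ ≤ lnA (z + a) (b - K) +
      Real.pi * (b - K) - μ * (Real.pi * (z + a) - lnB (z + a) (b - K)) := by
  have h3 := HH_zero_ge (a := z + a) (d := h - z) (b - K) (by linarith only [hz, ha]) (by linarith only [hh]) (by linarith only [h1]) h2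
  have h4 := phase_le (a := z + a) (b - K) (by linarith only [hz, ha]) (by linarith only [hh, h1]) hc hc'
  have h5 : 0 ≤ μ * (-κ - (Real.pi * (z + a) - lnB (z + a) (b - K))) :=
    mul_nonneg hμ (by linarith only [hκ, h4])
  nlinarith only [h3, h5]

end DZ

end Pool.Agent.Work.MP_b30479_gt.G2
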