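import Pool.Agent.Work.MP_b30479_gt.G2.TensorL

/-!
# Multiple sums over lattice points and box integrals, for a general index type

The unordered form of `tensorL` for sums over lattice points: `tensor_pi`, `bound_pi`.
-/

namespace Pool.Agent.Work.MP_b30479_gt.G2

open Finset MeasureTheory

theorem sum_piFinset_cons {N : ℕ} {α : Type} [AddCommMonoid α] (A : Fin (N + 1) → Finset ℕ)
    (f : (Fin (N + 1) → ℕ) → α) :
    ∑ y ∈ Fintype.piFinset A, f y =
      ∑ a ∈ A 0, ∑ y ∈ Fintype.piFinset (Fin.tail A), f (Fin.cons a y) := by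
  rw [← sum_product']
  apply sum_nbij' (fun y => (y 0, Fin.tail y)) (fun z => Fin.cons z.1 z.2)
  · intro y hy
    rw [Fintype.mem_piFinset] at hy
    simp only [mem_product, Fintype.mem_piFinset]
    exact ⟨hy 0, fun i => hy i.succ⟩
  · intro z hz
    simp only [mem_product, Fintype.mem_piFinset] at hz
    rw [Fintype.mem_piFinset]
    intro i
    refine Fin.cases ?_ ?_ i
    · simpa using hz.1
    · intro i
      have := hz.2 i
      simpa [Fin.tail] using this
  · intro y _
    exact Fin.cons_self_tail y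
  · intro z _
    simp
  · intro y _
    rw [Fin.cons_self_tail]

theorem itL_disc (n : ℕ) : ∀ (N : ℕ) (A : Fin N → Finset ℕ) (G : (Fin N → ℂ) → ℂ),
    itL N (fun j => .disc (A j) n) G =
      ∑ y ∈ Fintype.piFinset A, G (fun j => (y j : ℂ) / n)
  | 0, A, G => by
      simp only [itL]
      rw [Fintype.piFinset_of_isEmpty, univ_unique, sum_singleton]
      congr 1
      exact Subsingleton.elim _ _
  | N + 1, A, G => by
      rw [sum_piFinset_cons]
      simp only [itL, Lam.ap]
      apply sum_congr rfl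
      intro a _
      have : (Fin.tail fun j => Lam.disc (A j) n) = fun j => Lam.disc (Fin.tail A j) n := rfl
      rw [this, itL_disc n N (Fin.tail A)]
      apply sum_congr rfl
      intro y _
      congr 1
      funext j
      refine Fin.cases ?_ ?_ j
      · simp
      · intro j
        simp

variable {ι : Type} [Fintype ι] [DecidableEq ι]

/-- the reindexing -/
theorem sum_reindex {N : ℕ} (e : Fin N ≃ ι) (A : ι → Finset ℕ) {α : Type} [AddCommMonoid α]
    (f : (ι → ℕ) → α) :
    ∑ y ∈ Fintype.piFinset A, f y =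
      ∑ y ∈ Fintype.piFinset (fun j => A (e j)), f (fun i => y (e.symm i)) := by
  apply sum_nbij' (fun y j => y (e j)) (fun y i => y (e.symm i))
  · intro y hy
    rw [Fintype.mem_piFinset] at hy ⊢
    exact fun j => hy (e j)
  · intro y hy
    rw [Fintype.mem_piFinset] at hy ⊢
    intro i
    have := hy (e.symm i)
    simpa using this
  · intro y _
    simp
  · intro y _
    simp
  · intro y _
    simp

omit [DecidableEq ι] in
theorem int_reindex {N : ℕ} (e : Fin N ≃ ι) (P : ι → PathW) (F : (ι → ℝ) → ℂ) :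
    ∫ x in Set.univ.pi (fun i => Set.Icc (P i).a (P i).b), F x =
      ∫ x in bx (fun j => P (e j)), F (fun i => x (e.symm i)) := by
  have hmp := volume_measurePreserving_piCongrLeft (fun _ : ι => ℝ) e
  have he : ∀ x : Fin N → ℝ, MeasurableEquiv.piCongrLeft (fun _ : ι => ℝ) e x =
      fun i => x (e.symm i) := by
    intro x
    funext i
    have := Equiv.piCongrLeft_apply_apply (fun _ : ι => ℝ) e x (e.symm i)
    rw [MeasurableEquiv.coe_piCongrLeft]
    rw [Equiv.apply_symm_apply] at this
    exact this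
  have h1 := hmp.setIntegral_preimage_emb (MeasurableEquiv.measurableEmbedding _) F
    (Set.univ.pi (fun i => Set.Icc (P i).a (P i).b))
  rw [← h1]
  have h2 : (MeasurableEquiv.piCongrLeft (fun _ : ι => ℝ) e) ⁻¹'
      (Set.univ.pi (fun i => Set.Icc (P i).a (P i).b)) = bx (fun j => P (e j)) := by
    ext x
    simp only [Set.mem_preimage, he, bx, Set.mem_pi, Set.mem_univ, true_implies]
    constructor
    · intro h j
      have := h (e j)
      simpa using this
    · intro h i
      have := h (e.symm i)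
      simpa using this
  rw [h2]
  apply integral_congr_ae
  refine Filter.Eventually.of_forall fun x => ?_
  simp only [he]

omit [DecidableEq ι] in
theorem diff_reindex {N : ℕ} (e : Fin N ≃ ι) {V : ι → Set ℂ} {G : (ι → ℂ) → ℂ}
    (hG : DifferentiableOn ℂ G (Set.univ.pi V)) :
    DifferentiableOn ℂ (fun v : Fin N → ℂ => G (fun i => v (e.symm i)))
      (Set.univ.pi fun j => V (e j)) := by
  have h1 : Differentiable ℂ (fun v : Fin N → ℂ => (fun i => v (e.symm i) : ι → ℂ)) := by
    rw [differentiable_pi]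
    intro i
    exact differentiable_apply _
  apply hG.comp h1.differentiableOn
  intro v hv i _
  have := hv (e.symm i) (Set.mem_univ _)
  simpa using this

/-- the penalty on the union of the error set and the main path -/
noncomputable def pen (P : PathW) (q : ℂ → ℝ) (w : ℂ) : ℝ :=
  open Classical in if w ∈ P.γ '' Set.Icc P.a P.b then 1 else q w

theorem pen_bound {K : ℝ} {V E : Set ℂ} {L : Lam} {P : PathW} {q : ℂ → ℝ}
    (h : MainL K V L P E q) (hK : ∫ x in P.a..P.b, ‖P.ω x‖ ≤ K) (hq1 : ∀ w ∈ E, q w ≤ 1) :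
    BoundL (2 * K) V L (E ∪ P.γ '' Set.Icc P.a P.b) (pen P q) := by
  apply h.bound hK
  · intro w hw
    refine ⟨Or.inl hw, ?_⟩
    unfold pen
    split_ifs
    · exact hq1 w hw
    · exact le_rfl
  · intro x hx
    have hx' : P.γ x ∈ P.γ '' Set.Icc P.a P.b := ⟨x, hx, rfl⟩
    refine ⟨Or.inr hx', ?_⟩
    unfold pen
    rw [if_pos hx']

/-- A multiple sum over lattice points is bounded by the values on the paths and on the error
sets. -/
theorem bound_pi {n : ℕ} {K : ℝ} (hK : 0 ≤ K) (A : ι → Finset ℕ) (P : ι → PathW) (V : ι → Set ℂ)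
    (hV : ∀ i, IsOpen (V i)) (hA : ∀ i, ∀ y ∈ A i, (y : ℂ) / n ∈ V i)
    (hPV : ∀ i, ∀ x ∈ Set.Icc (P i).a (P i).b, (P i).γ x ∈ V i)
    (E : ι → Set ℂ) (q : ι → ℂ → ℝ) (hq0 : ∀ i, ∀ w ∈ E i, 0 ≤ q i w)
    (hq1 : ∀ i, ∀ w ∈ E i, q i w ≤ 1) (hEV : ∀ i, E i ⊆ V i)
    (h2 : ∀ i, MainL K (V i) (.disc (A i) n) (P i) (E i) (q i))
    (h3 : ∀ i, ∫ x in (P i).a..(P i).b, ‖(P i).ω x‖ ≤ K)
    (G : (ι → ℂ) → ℂ) (hG : DifferentiableOn ℂ G (Set.univ.pi V)) (B : ℝ) (hB0 : 0 ≤ B)
    (hB : ∀ (J : Finset ι) (v : ι → ℂ), (∀ i ∈ J, v i ∈ E i) →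
      (∀ i ∉ J, ∃ x ∈ Set.Icc (P i).a (P i).b, v i = (P i).γ x) →
      (∏ i ∈ J, q i (v i)) * ‖G v‖ ≤ B) :
    ‖∑ y ∈ Fintype.piFinset A, G (fun i => (y i : ℂ) / n)‖ ≤ (2 * K) ^ Fintype.card ι * B := by
  classical
  set e : Fin (Fintype.card ι) ≃ ι := (Fintype.equivFin ι).symm with he
  rw [sum_reindex e]
  have h0 := itL_disc n _ (fun j => A (e j)) (fun v => G (fun i => v (e.symm i)))
  rw [← h0]
  have h1 := itL_bound (K := 2 * K) (by positivity) _ (fun j => .disc (A (e j)) n)
    (fun j => V (e j)) (fun j => hV _) (fun j => hA _)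
    (fun j _ => E (e j) ∪ (P (e j)).γ '' Set.Icc (P (e j)).a (P (e j)).b)
    (fun j _ => pen (P (e j)) (q (e j))) (fun _ _ _ _ => rfl) (fun _ _ _ _ => rfl)
    (fun j _ w hw => by
      unfold pen
      split_ifs with h
      · exact zero_le_one
      · exact hq0 _ w (hw.resolve_right h))
    (fun j _ w hw => by
      rcases hw with hw | ⟨x, hx, rfl⟩
      · exact hEV _ hw
      · exact hPV _ x hx)
    (fun j _ => pen_bound (h2 _) (h3 _) (hq1 _))
    (fun v => G (fun i => v (e.symm i))) (diff_reindex e hG) 1 B zero_le_one hB0 (by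
      intro v hv
      rw [one_mul]
      have h4 := hB (univ.filter fun i => ¬ (v (e.symm i) ∈ (P i).γ '' Set.Icc (P i).a (P i).b))
        (fun i => v (e.symm i)) (by
          intro i hi
          rw [mem_filter] at hi
          have := hv (e.symm i)
          simp only [Equiv.apply_symm_apply] at this
          exact this.resolve_right hi.2) (by
          intro i hi
          simp only [mem_filter, mem_univ, true_and, not_not] at hi
          obtain ⟨x, hx, hh⟩ := hi
          exact ⟨x, hx, hh.symm⟩)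
      have h5 : ∏ j, pen (P (e j)) (q (e j)) (v j) =
          ∏ i ∈ univ.filter fun i => ¬ (v (e.symm i) ∈ (P i).γ '' Set.Icc (P i).a (P i).b),
            q i (v (e.symm i)) := by
        rw [← e.symm.prod_comp, prod_filter]
        apply prod_congr rfl
        intro i _
        simp only [Equiv.apply_symm_apply, pen, ite_not]
      rw [h5]
      exact h4)
  rwa [one_mul] at h1

/-- A multiple sum over lattice points is the integral over the product of the main paths, up to
the values with at least one coordinate on an error set. -/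
theorem tensor_pi {n : ℕ} {K : ℝ} (hK : 0 ≤ K) (A : ι → Finset ℕ) (P : ι → PathW) (V : ι → Set ℂ)
    (hV : ∀ i, IsOpen (V i)) (hA : ∀ i, ∀ y ∈ A i, (y : ℂ) / n ∈ V i)
    (hPV : ∀ i, ∀ x ∈ Set.Icc (P i).a (P i).b, (P i).γ x ∈ V i)
    (E : ι → Set ℂ) (q : ι → ℂ → ℝ) (hq0 : ∀ i, ∀ w ∈ E i, 0 ≤ q i w)
    (hq1 : ∀ i, ∀ w ∈ E i, q i w ≤ 1) (hEV : ∀ i, E i ⊆ V i)
    (h2 : ∀ i, MainL K (V i) (.disc (A i) n) (P i) (E i) (q i))
    (h3 : ∀ i, ∫ x in (P i).a..(P i).b, ‖(P i).ω x‖ ≤ K)
    (G : (ι → ℂ) → ℂ) (hG : DifferentiableOn ℂ G (Set.univ.pi V)) (B : ℝ) (hB0 : 0 ≤ B)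
    (hB : ∀ (J : Finset ι) (v : ι → ℂ), J.Nonempty → (∀ i ∈ J, v i ∈ E i) →
      (∀ i ∉ J, ∃ x ∈ Set.Icc (P i).a (P i).b, v i = (P i).γ x) →
      (∏ i ∈ J, q i (v i)) * ‖G v‖ ≤ B) :
    ‖∑ y ∈ Fintype.piFinset A, G (fun i => (y i : ℂ) / n) -
      ∫ x in Set.univ.pi (fun i => Set.Icc (P i).a (P i).b),
        G (fun i => (P i).γ (x i)) * ∏ i, (P i).ω (x i)‖ ≤
      Fintype.card ι * (2 * K) ^ Fintype.card ι * B := by
  classical
  set e : Fin (Fintype.card ι) ≃ ι := (Fintype.equivFin ι).symm with he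
  rw [sum_reindex e, int_reindex e]
  have h0 := itL_disc n _ (fun j => A (e j)) (fun v => G (fun i => v (e.symm i)))
  rw [← h0]
  have hG' := diff_reindex e hG
  have hc : ContinuousOn (fun x : Fin (Fintype.card ι) → ℝ =>
      (fun v : Fin (Fintype.card ι) → ℂ => G (fun i => v (e.symm i)))
        (pos (fun j => P (e j)) x)) (bx (fun j => P (e j))) := by
    apply hG'.continuousOn.comp
    · have : Continuous fun x : Fin (Fintype.card ι) → ℝ => pos (fun j => P (e j)) x := by
        apply continuous_pi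
        intro j
        exact (P (e j)).cont.comp (continuous_apply j)
      exact this.continuousOn
    · intro x hx j _
      exact hPV _ _ (hx j (Set.mem_univ j))
  have h6 : ∫ x in bx (fun j => P (e j)),
      G (fun i => (P i).γ (x (e.symm i))) * ∏ i, (P i).ω (x (e.symm i)) =
      itL _ (fun j => .path (P (e j))) (fun v => G (fun i => v (e.symm i))) := by
    rw [itL_path, itR_eq_integral _ _ hc]
    apply integral_congr_ae
    refine Filter.Eventually.of_forall fun x => ?_
    simp only [pos]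
    congr 1
    · congr 1
      funext i
      rw [Equiv.apply_symm_apply]
    · rw [← e.symm.prod_comp]
      apply prod_congr rfl
      intro i _
      rw [Equiv.apply_symm_apply]
  rw [h6]
  have hK2 : ∀ i, MainL (2 * K) (V i) (.disc (A i) n) (P i) (E i) (q i) := by
    intro i g hg B hB hw
    exact (h2 i g hg B hB hw).trans (mul_le_mul_of_nonneg_right (by linarith) hB)
  refine tensorL (K := 2 * K) (by positivity) _ (fun j => .disc (A (e j)) n)
    (fun j => P (e j)) (fun j => V (e j)) (fun j => hV _) (fun j => hA _) (fun j => hPV _)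
    (fun j _ => E (e j)) (fun j _ => q (e j))
    (fun j _ => E (e j) ∪ (P (e j)).γ '' Set.Icc (P (e j)).a (P (e j)).b)
    (fun j _ => pen (P (e j)) (q (e j))) (fun _ _ _ _ => rfl) (fun _ _ _ _ => rfl)
    (fun j _ => hq0 _) (fun j _ => hEV _) (fun _ _ _ _ => rfl) (fun _ _ _ _ => rfl)
    (fun j _ w hw => by
      unfold pen
      split_ifs with h
      · exact zero_le_one
      · exact hq0 _ w (hw.resolve_right h))
    (fun j _ w hw => by
      rcases hw with hw | ⟨x, hx, rfl⟩
      · exact hEV _ hw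
      · exact hPV _ x hx)
    (fun j _ => pen_bound (h2 _) (h3 _) (hq1 _)) (fun j _ => hK2 _)
    (fun j => (h3 _).trans (by linarith))
    (fun v => G (fun i => v (e.symm i))) hG' B hB0 ?_
  intro j v hv1 hv2 hv3
  set Q : ι → Prop := fun i => v (e.symm i) ∈ (P i).γ '' Set.Icc (P i).a (P i).b with hQ
  set J : Finset ι := univ.filter fun i => i = e j ∨ (j < e.symm i ∧ ¬ Q i) with hJ
  have h4 := hB J (fun i => v (e.symm i)) ⟨e j, by simp [J]⟩ (by
      intro i hi
      rw [hJ, mem_filter] at hi
      rcases hi.2 with h | h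
      · rw [h, Equiv.symm_apply_apply]
        exact hv2
      · have := hv3 (e.symm i) h.1
        simp only [Equiv.apply_symm_apply] at this
        exact this.resolve_right h.2) (by
      intro i hi
      simp only [hJ, mem_filter, mem_univ, true_and, not_or, not_and, not_not] at hi
      rcases lt_trichotomy (e.symm i) j with h | h | h
      · obtain ⟨x, hx, hh⟩ := hv1 _ h
        rw [Equiv.apply_symm_apply] at hx hh
        exact ⟨x, hx, hh⟩
      · exact absurd (by rw [← h, Equiv.apply_symm_apply]) hi.1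
      · obtain ⟨x, hx, hh⟩ := hi.2 h
        exact ⟨x, hx, hh.symm⟩)
  have h5 : q (e j) (v j) * ∏ i ∈ Finset.Ioi j, pen (P (e i)) (q (e i)) (v i) =
      ∏ i ∈ J, q i (v (e.symm i)) := by
    have hJ' : J = insert (e j) (univ.filter fun i => j < e.symm i ∧ ¬ Q i) := by
      ext i
      simp [J]
    rw [hJ', prod_insert (by simp), Equiv.symm_apply_apply]
    congr 1
    have h7 : (univ.filter fun i => j < e.symm i ∧ ¬ Q i) =
        ((Finset.Ioi j).filter fun i => ¬ Q (e i)).map e.toEmbedding := by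
      ext i
      simp only [mem_filter, mem_univ, true_and, mem_map, mem_Ioi, Equiv.coe_toEmbedding]
      constructor
      · intro h
        exact ⟨e.symm i, by simpa using h, by simp⟩
      · rintro ⟨k, hk, rfl⟩
        simpa using hk
    rw [h7, prod_map, prod_filter]
    apply prod_congr rfl
    intro i _
    simp only [Equiv.coe_toEmbedding, Equiv.symm_apply_apply, pen, hQ, ite_not]
  have h5' : q (e j) (v j) * (∏ i ∈ Finset.Ioi j, pen (P (e i)) (q (e i)) (v i)) *
      ‖G (fun i => v (e.symm i))‖ ≤ B := by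
    rw [h5]
    exact h4
  exact h5'

end Pool.Agent.Work.MP_b30479_gt.G2
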