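import Pool.Agent.Work.MP_b30479_gt.G2.ErrE
import Pool.Agent.Work.MP_b30479_gt.G2.TensorPi

/-!
# The state sum is the main integral up to an exponentially smaller error
-/

namespace Pool.Agent.Work.MP_b30479_gt.G2

open Finset VOL MeasureTheory Filter Topology

theorem tendsto_odd : Tendsto (fun s : ℕ => 2 * s + 1) atTop atTop :=
  tendsto_atTop_mono (fun s => by omega : ∀ s : ℕ, s ≤ 2 * s + 1) tendsto_id

/-- the vertical strip -/
def vst (n : ℕ) (ε : ℝ) : Set ℂ := {u : ℂ | -ε < u.re ∧ u.re < 1 - 1 / n + ε}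

theorem isOpen_vst (n : ℕ) (ε : ℝ) : IsOpen (vst n ε) := by
  have h1 : IsOpen {u : ℂ | -ε < u.re} := isOpen_lt continuous_const Complex.continuous_re
  have h2 : IsOpen {u : ℂ | u.re < 1 - 1 / (n : ℝ) + ε} :=
    isOpen_lt Complex.continuous_re continuous_const
  exact h1.inter h2

theorem mem_vst {n : ℕ} {ε : ℝ} (hε : 0 < ε) {u : ℂ} (h : 0 ≤ u.re ∧ u.re ≤ 1 - 1 / n) :
    u ∈ vst n ε := ⟨by linarith only [hε, h, h.1], by linarith only [hε, h, h.2]⟩

theorem lat_re {n k : ℕ} (hk : k < n) : 0 ≤ ((k : ℂ) / n).re ∧ ((k : ℂ) / n).re ≤ 1 - 1 / n := by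
  have hn0 : (0 : ℝ) < n := by
    have : 0 < n := by omega
    exact_mod_cast this
  have h4 : (k : ℝ) + 1 ≤ n := by exact_mod_cast hk
  have h5 : ((k : ℂ) / n) = (((k : ℝ) / n : ℝ) : ℂ) := by push_cast; rfl
  rw [h5, Complex.ofReal_re]
  refine ⟨by positivity, ?_⟩
  rw [div_le_iff₀ hn0, sub_mul, one_mul, div_mul_cancel₀ _ hn0.ne']
  linarith only [h4]

variable {D Z K : Type} [Fintype D] [Fintype Z] [Fintype K] [DecidableEq D]

omit [Fintype D] [DecidableEq D] in
theorem path_re {P : Par D} {n : ℕ} (hn : 4 ≤ n) {i : D} {x : ℝ} (hx : ea n ≤ x)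
    (hx' : x ≤ P.eb n i) : 0 ≤ x ∧ x ≤ 1 - 1 / n := by
  have hn0 : (0 : ℝ) < n := by
    have : 0 < n := by omega
    exact_mod_cast this
  have hm : (P.m n i : ℝ) + 2 ≤ n := by
    have h1 : P.m n i ≤ n - 2 := min_le_right _ _
    have h2 : P.m n i + 2 ≤ n := by omega
    exact_mod_cast h2
  refine ⟨le_trans (by unfold ea; positivity) hx, hx'.trans ?_⟩
  unfold Par.eb
  rw [div_le_iff₀ hn0, sub_mul, one_mul, div_mul_cancel₀ _ hn0.ne']
  linarith only [hm]

theorem gq_le_one (n : ℕ) (w : ℂ) : gq n w ≤ 1 := by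
  unfold gq
  rw [Real.exp_le_one_iff]
  have := Real.pi_pos
  have : 0 ≤ 2 * Real.pi * n * |w.im| := by positivity
  linarith only [this]

theorem integrable_f {S : Dat D Z K} (hS : S.Ok) {n : ℕ} (hn : 4 ≤ n) (hodd : Odd n) {ρ : Z → ℝ}
    (hρ : ∀ v, 0 < ρ v) {y : D → ℕ} (hy : ∀ i, y i < n) :
    IntegrableOn (S.f n ρ y) (LT.cube Z) := by
  obtain ⟨C, k, hC, hgr⟩ := f_growth hS (Y := ∑ v, ρ v) (sum_nonneg fun v _ => (hρ v).le) hρ
    (fun v => single_le_sum (f := ρ) (fun v _ => (hρ v).le) (mem_univ v))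
  have hc : Continuous fun σ : Z → ℝ => S.V (lz n ρ y σ) := by
    apply S.continuous_V.comp
    apply continuous_pi
    intro j
    rcases j with i | v
    · exact continuous_const
    · exact (continuous_zt (ρ v)).comp (continuous_apply v)
  have hcomp : IsCompact (LT.cube Z) := isCompact_univ_pi fun _ => isCompact_Icc
  obtain ⟨M, hM⟩ := hcomp.exists_bound_of_continuousOn hc.continuousOn
  have hsub : ocube Z ⊆ LT.cube Z := Set.pi_mono fun _ _ => Set.Ioo_subset_Icc_self
  apply integrable_cube (measurable_f S n ρ y).aestronglyMeasurable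
    (B := C * (n : ℝ) ^ k * Real.exp (n * M))
  intro σ hσ
  have h1 := hgr n hn hodd σ hσ (fun i => (y i : ℂ) / n) (fun i => lat_re (hy i)) (by
    intro i
    have h5 : ((y i : ℂ) / n) = (((y i : ℝ) / n : ℝ) : ℂ) := by push_cast; rfl
    rw [h5, Complex.ofReal_im, abs_zero]
    exact sum_nonneg fun v _ => (hρ v).le)
  refine h1.trans ?_
  apply mul_le_mul_of_nonneg_left _ (by positivity)
  apply Real.exp_le_exp.mpr
  apply mul_le_mul_of_nonneg_left _ (Nat.cast_nonneg n)
  exact (le_abs_self _).trans (hM σ (hsub hσ))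

theorem fin_bound {Kc C T δ : ℝ} {N k s : ℕ} {a : ℝ} {M : ℝ}
    (h : a ≤ M * (2 * (Kc * ((2 * s + 1 : ℕ) : ℝ))) ^ N *
      (C * ((2 * s + 1 : ℕ) : ℝ) ^ k * Real.exp (((2 * s + 1 : ℕ) : ℝ) * (T - δ)))) :
    a ≤ (M * (2 * Kc) ^ N * C) * nn s ^ ((N + k : ℕ) : ℝ) * Real.exp (nn s * (T - δ)) := by
  refine h.trans (le_of_eq ?_)
  unfold nn
  rw [Real.rpow_natCast, pow_add, ← mul_assoc 2 Kc, mul_pow]
  ring

/-- the tail terms are small -/
theorem tail_small {S : Dat D Z K} (hS : S.Ok) {P : Par D}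
    {nb : Finset D → Finset (D ⊕ Z)} {zs : D ⊕ Z → ℂ} (h : Sadl S P nb zs) {R : Finset D}
    (hR : R.Nonempty) :
    Small (S.T zs).re fun s => ‖∑ y ∈ Fintype.piFinset (AR P R (2 * s + 1)),
      ∫ σ in LT.cube Z, S.f (2 * s + 1) (fun v => (zs (.inr v)).im) y σ‖ := by
  classical
  by_cases hR1 : ∀ i ∈ R, P.XM i < 1
  swap
  · push Not at hR1
    obtain ⟨i, hi, hX⟩ := hR1
    apply (Small.zero _).mono
    refine Eventually.of_forall fun s => ?_
    have : Fintype.piFinset (AR P R (2 * s + 1)) = ∅ := by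
      rw [Fintype.piFinset_eq_empty]
      refine ⟨i, ?_⟩
      ext k
      rw [mem_AR]
      simp only [hi, true_iff, notMem_empty, iff_false, not_and, not_lt]
      intro hk
      have h1 : (k : ℝ) < ((2 * s + 1 : ℕ) : ℝ) := by exact_mod_cast hk
      have h2 : (0 : ℝ) ≤ ((2 * s + 1 : ℕ) : ℝ) := Nat.cast_nonneg _
      nlinarith only [h1, hX]
    rw [this, sum_empty, norm_zero]
  have hcl : ∀ i, 0 < P.cl i := fun i => (h.par i).2.2.1
  have hcr : ∀ i, 0 < P.cr i := fun i => (h.par i).2.2.2.1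
  set t : D → ℝ := fun i => (zs (.inl i)).im with ht
  obtain ⟨C, k, δ, ρ, hC, hδ, hρ, -, hev⟩ := point_bound hS h R hR1
  obtain ⟨Kc, hKc, hpc⟩ := path_consts hcl hcr h.par t
  have hKc0 : 0 ≤ Kc := by linarith only [hKc]
  refine ⟨1 * (2 * Kc) ^ Fintype.card D * C, ((Fintype.card D + k : ℕ) : ℝ), δ, hδ, ?_⟩
  have hev2 := tendsto_odd.eventually (hev.and (hpc.and (eventually_ge_atTop 4)))
  filter_upwards [hev2] with s hs
  obtain ⟨hpt, hpath, hn4⟩ := hs
  set n := 2 * s + 1 with hn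
  have hodd : Odd n := ⟨s, hn⟩
  apply fin_bound
  have hn0 : (0 : ℝ) < n := by
    have : 0 < n := by omega
    exact_mod_cast this
  have hnK : (n : ℝ) ≤ Kc * n := by nlinarith only [hKc]
  rw [one_mul]
  by_cases hne : ∀ i, (AR P R n i).Nonempty
  swap
  · push Not at hne
    obtain ⟨i, hi⟩ := hne
    have : Fintype.piFinset (AR P R n) = ∅ := by
      rw [Fintype.piFinset_eq_empty]
      exact ⟨i, hi⟩
    rw [this, sum_empty, norm_zero]
    positivity
  choose k0 hk0 using hne
  have e1 : ∑ y ∈ Fintype.piFinset (AR P R n),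
      ∫ σ in LT.cube Z, S.f n (fun v => (zs (.inr v)).im) y σ =
      ∫ σ in LT.cube Z, ∑ y ∈ Fintype.piFinset (AR P R n), S.f n ρ y σ := by
    rw [integral_finsetSum]
    · apply sum_congr rfl
      intro y hy
      exact rho_eq hS hn4 hodd (fun v => (h.flatZ v).2) hρ hy
    · intro y hy
      rw [Fintype.mem_piFinset] at hy
      exact integrable_f hS hn4 hodd hρ (fun i => (mem_AR.mp (hy i)).1)
  rw [e1]
  apply norm_int_cube
  intro σ hσ
  have hσ' := mem_ocube.mp hσ
  obtain ⟨ε, hε, hGh⟩ := G_holo' hS hn4 (ζ := fun v => LT.zt (ρ v) (σ v)) (fun v => by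
    rw [zt_re']
    exact hσ' v)
  have hnbR : ∀ i, (.inl i : D ⊕ Z) ∉ nb R → i ∉ R := fun i hi hc => hi (h.nb_sup R i hc)
  have hcor : ∀ i, (.inl i : D ⊕ Z) ∉ nb R → AR P R n i = cor P n i := by
    intro i hi
    unfold AR
    rw [if_neg (hnbR i hi)]
  refine bound_pi (K := Kc * n) (by positivity) (AR P R n)
    (fun i => if (.inl i : D ⊕ Z) ∈ nb R then degP ((k0 i : ℂ) / n) else Pa P hcl hcr n t i)
    (fun _ => vst n ε) (fun _ => isOpen_vst n ε) ?_ ?_
    (fun i => if (.inl i : D ⊕ Z) ∈ nb R then {u | ∃ k ∈ AR P R n i, u = (k : ℂ) / n} else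
      gEL n 0 (P.m n i) (cor P n i) (P.hu i) (P.hd i) (P.cl i) (P.cr i))
    (fun _ => gq n) (fun _ w _ => (gq_pos n w).le) (fun _ w _ => gq_le_one n w) ?_ ?_ ?_
    (fun w => (∏ v, LT.EE n (S.b v) (ρ v) (σ v)) * S.G n (Sum.elim w fun v => LT.zt (ρ v) (σ v)))
    (hGh.const_mul _) (C * (n : ℝ) ^ k * Real.exp (n * ((S.T zs).re - δ))) (by positivity) ?_
  · intro i y hy
    exact mem_vst hε (lat_re (mem_AR.mp hy).1)
  · intro i
    by_cases hi : (.inl i : D ⊕ Z) ∈ nb R
    · simp only [hi, if_true]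
      intro x _
      exact mem_vst hε (lat_re (mem_AR.mp (hk0 i)).1)
    · simp only [hi, if_false]
      intro x hx
      apply mem_vst hε
      have h6 : ((Pa P hcl hcr n t i).γ x).re = x := pt_re _ _ _ _ _ _
      rw [h6]
      exact path_re hn4 hx.1 hx.2
  · intro i
    by_cases hi : (.inl i : D ⊕ Z) ∈ nb R
    · simp only [hi, if_true]
      rintro _ ⟨y, hy, rfl⟩
      exact mem_vst hε (lat_re (mem_AR.mp hy).1)
    · simp only [hi, if_false]
      intro w hw
      exact mem_vst hε (gEL_re (filter_subset _ _) (by omega) (hpath i).2.1 (by omega) hw)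
  · intro i
    by_cases hi : (.inl i : D ⊕ Z) ∈ nb R
    · simp only [hi, if_true]
      apply mainL_deg
      refine le_trans ?_ hnK
      have : (AR P R n i).card ≤ (range n).card := card_le_card fun k hk => by
        rw [mem_range]
        exact (mem_AR.mp hk).1
      rw [card_range] at this
      exact_mod_cast this
    · simp only [hi, if_false]
      rw [hcor i hi]
      apply (hpath i).2.2.1
      intro w hw hw'
      exact (isOpen_vst n ε).mem_nhds (mem_vst hε (path_re hn4 hw hw'))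
  · intro i
    by_cases hi : (.inl i : D ⊕ Z) ∈ nb R
    · simp only [hi, if_true]
      have : ∫ x in (degP ((k0 i : ℂ) / n)).a..(degP ((k0 i : ℂ) / n)).b,
          ‖(degP ((k0 i : ℂ) / n)).ω x‖ = 0 := by
        simp [degP]
      rw [this]
      positivity
    · simp only [hi, if_false]
      exact (hpath i).2.2.2
  · intro J w hJ hJ'
    apply hpt hodd σ hσ J w (fun hc => absurd hc hR.ne_empty)
    · intro i hi hi'
      have := hJ i hi
      simp only [hi', if_false] at this
      exact this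
    · intro i hi hi'
      obtain ⟨x, hx, hw⟩ := hJ' i hi
      simp only [hi', if_false] at hx hw
      exact ⟨x, hx.1, hx.2, hw⟩
    · intro i hi'
      by_cases hi : i ∈ J
      · have := hJ i hi
        simp only [hi', if_true] at this
        exact this
      · obtain ⟨x, hx, hw⟩ := hJ' i hi
        simp only [hi', if_true] at hw
        exact ⟨k0 i, hk0 i, hw⟩

/-- the core term is the main integral up to a small error -/
theorem core_small {S : Dat D Z K} (hS : S.Ok) {P : Par D}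
    {nb : Finset D → Finset (D ⊕ Z)} {zs : D ⊕ Z → ℂ} (h : Sadl S P nb zs) :
    Small (S.T zs).re fun s => ‖(∑ y ∈ Fintype.piFinset (AR P ∅ (2 * s + 1)),
      ∫ σ in LT.cube Z, S.f (2 * s + 1) (fun v => (zs (.inr v)).im) y σ) -
        S.main P zs (2 * s + 1)‖ := by
  classical
  have hcl : ∀ i, 0 < P.cl i := fun i => (h.par i).2.2.1
  have hcr : ∀ i, 0 < P.cr i := fun i => (h.par i).2.2.2.1
  set t : D → ℝ := fun i => (zs (.inl i)).im with ht
  obtain ⟨C, k, δ, ρ, hC, hδ, hρ, hρe, hev⟩ := point_bound hS h ∅ (by simp)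
  have hρ' := hρe rfl
  subst hρ'
  obtain ⟨Kc, hKc, hpc⟩ := path_consts hcl hcr h.par t
  have hKc0 : 0 ≤ Kc := by linarith only [hKc]
  refine ⟨Fintype.card D * (2 * Kc) ^ Fintype.card D * C, ((Fintype.card D + k : ℕ) : ℝ), δ, hδ, ?_⟩
  have hev2 := tendsto_odd.eventually (hev.and (hpc.and (eventually_ge_atTop 4)))
  filter_upwards [hev2] with s hs
  obtain ⟨hpt, hpath, hn4⟩ := hs
  set n := 2 * s + 1 with hn
  have hodd : Odd n := ⟨s, hn⟩
  apply fin_bound
  have hn0 : (0 : ℝ) < n := by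
    have : 0 < n := by omega
    exact_mod_cast this
  have hcor : ∀ i, AR P ∅ n i = cor P n i := by
    intro i
    unfold AR
    rw [if_neg (notMem_empty _)]
  have hnb : ∀ i : D, (.inl i : D ⊕ Z) ∉ nb ∅ := by
    intro i
    rw [h.nb_empty]
    exact notMem_empty _
  have hint : ∀ y ∈ Fintype.piFinset (AR P ∅ n),
      IntegrableOn (S.f n (fun v => (zs (.inr v)).im) y) (LT.cube Z) := by
    intro y hy
    rw [Fintype.mem_piFinset] at hy
    exact integrable_f hS hn4 hodd (fun v => (h.flatZ v).2) (fun i => (mem_AR.mp (hy i)).1)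
  -- pointwise bound
  set B := Fintype.card D * (2 * (Kc * (n : ℝ))) ^ Fintype.card D *
    (C * (n : ℝ) ^ k * Real.exp (n * ((S.T zs).re - δ))) with hB
  have hpw : ∀ σ ∈ ocube Z, ‖∑ y ∈ Fintype.piFinset (AR P ∅ n),
      S.f n (fun v => (zs (.inr v)).im) y σ - ∫ x in P.bx n, S.F P zs n x σ‖ ≤ B := by
    intro σ hσ
    have hσ' := mem_ocube.mp hσ
    obtain ⟨ε, hε, hGh⟩ := G_holo' hS hn4 (ζ := fun v => LT.zt (zs (.inr v)).im (σ v)) (fun v => by
      rw [zt_re']
      exact hσ' v)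
    have h1 := tensor_pi (K := Kc * n) (by positivity) (AR P ∅ n)
      (fun i => Pa P hcl hcr n t i)
      (fun _ => vst n ε) (fun _ => isOpen_vst n ε) (by
        intro i y hy
        exact mem_vst hε (lat_re (mem_AR.mp hy).1)) (by
        intro i x hx
        apply mem_vst hε
        have h6 : ((Pa P hcl hcr n t i).γ x).re = x := pt_re _ _ _ _ _ _
        rw [h6]
        exact path_re hn4 hx.1 hx.2)
      (fun i => gEL n 0 (P.m n i) (cor P n i) (P.hu i) (P.hd i) (P.cl i) (P.cr i))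
      (fun _ => gq n) (fun _ w _ => (gq_pos n w).le) (fun _ w _ => gq_le_one n w) (by
        intro i w hw
        exact mem_vst hε (gEL_re (filter_subset _ _) (by omega) (hpath i).2.1 (by omega) hw)) (by
        intro i
        rw [hcor i]
        apply (hpath i).2.2.1
        intro w hw hw'
        exact (isOpen_vst n ε).mem_nhds (mem_vst hε (path_re hn4 hw hw')))
      (fun i => (hpath i).2.2.2)
      (fun w => (∏ v, LT.EE n (S.b v) (zs (.inr v)).im (σ v)) *
        S.G n (Sum.elim w fun v => LT.zt (zs (.inr v)).im (σ v)))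
      (hGh.const_mul _) (C * (n : ℝ) ^ k * Real.exp (n * ((S.T zs).re - δ))) (by positivity) (by
        intro J w hJn hJ hJ'
        apply hpt hodd σ hσ J w (fun _ => hJn)
        · intro i hi _
          exact hJ i hi
        · intro i hi _
          obtain ⟨x, hx, hw⟩ := hJ' i hi
          exact ⟨x, hx.1, hx.2, hw⟩
        · intro i hi'
          exact absurd hi' (hnb i))
    have h2 : ∫ x in P.bx n, S.F P zs n x σ =
        ∫ x in Set.univ.pi (fun i => Set.Icc (Pa P hcl hcr n t i).a (Pa P hcl hcr n t i).b),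
        (∏ v, LT.EE n (S.b v) (zs (.inr v)).im (σ v)) *
        S.G n (Sum.elim (fun i => (Pa P hcl hcr n t i).γ (x i)) fun v =>
          LT.zt (zs (.inr v)).im (σ v)) * ∏ i, (Pa P hcl hcr n t i).ω (x i) := by
      apply integral_congr_ae
      refine Eventually.of_forall fun x => ?_
      simp only
      unfold Dat.F
      have e1 : ∀ i, P.om n (zs (.inl i)).im i (x i) = (Pa P hcl hcr n t i).ω (x i) := fun i => rfl
      have e2 : P.pz zs n x σ = Sum.elim (fun i => (Pa P hcl hcr n t i).γ (x i)) fun v =>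
          LT.zt (zs (.inr v)).im (σ v) := rfl
      rw [e2]
      simp only [e1]
      ring
    rw [h2]
    exact h1
  have hms : AEStronglyMeasurable (fun σ => ∫ x in P.bx n, S.F P zs n x σ)
      (volume.restrict (LT.cube Z)) := by
    have h1 := (S.measurable_F P zs n).stronglyMeasurable.integral_prod_left'
      (μ := volume.restrict (P.bx n))
    exact h1.aestronglyMeasurable
  have hms2 : AEStronglyMeasurable (fun σ => ∑ y ∈ Fintype.piFinset (AR P ∅ n),
      S.f n (fun v => (zs (.inr v)).im) y σ - ∫ x in P.bx n, S.F P zs n x σ)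
      (volume.restrict (LT.cube Z)) :=
    ((Finset.measurable_sum _ fun y _ => measurable_f S n _ y).aestronglyMeasurable).sub hms
  have hI1 : IntegrableOn (fun σ => ∑ y ∈ Fintype.piFinset (AR P ∅ n),
      S.f n (fun v => (zs (.inr v)).im) y σ) (LT.cube Z) := integrable_finsetSum _ hint
  have hI3 : IntegrableOn (fun σ => ∑ y ∈ Fintype.piFinset (AR P ∅ n),
      S.f n (fun v => (zs (.inr v)).im) y σ - ∫ x in P.bx n, S.F P zs n x σ) (LT.cube Z) :=
    integrable_cube hms2 hpw
  have hI2 : IntegrableOn (fun σ => ∫ x in P.bx n, S.F P zs n x σ) (LT.cube Z) := by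
    have := hI1.sub hI3
    refine this.congr (Eventually.of_forall fun σ => ?_)
    simp
  have e1 : (∑ y ∈ Fintype.piFinset (AR P ∅ n),
      ∫ σ in LT.cube Z, S.f n (fun v => (zs (.inr v)).im) y σ) - S.main P zs n =
      ∫ σ in LT.cube Z, (∑ y ∈ Fintype.piFinset (AR P ∅ n), S.f n (fun v => (zs (.inr v)).im) y σ -
        ∫ x in P.bx n, S.F P zs n x σ) := by
    rw [integral_sub hI1 hI2, integral_finsetSum _ hint]
    rfl
  rw [e1]
  exact norm_int_cube hpw

theorem sum_sub_main [DecidableEq Z] {S : Dat D Z K} (hS : S.Ok) {P : Par D}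
    {nb : Finset D → Finset (D ⊕ Z)} {zs : D ⊕ Z → ℂ} (h : Sadl S P nb zs) :
    ∃ C k δ : ℝ, 0 < δ ∧ ∀ᶠ s : ℕ in atTop,
      ‖S.sum (2 * s + 1) (fun v => (zs (.inr v)).im) - S.main P zs (2 * s + 1)‖ ≤
        C * nn s ^ k * Real.exp (nn s * ((S.T zs).re - δ)) := by
  classical
  have h1 : Small (S.T zs).re fun s => ∑ R ∈ univ.erase (∅ : Finset D),
      ‖∑ y ∈ Fintype.piFinset (AR P R (2 * s + 1)),
        ∫ σ in LT.cube Z, S.f (2 * s + 1) (fun v => (zs (.inr v)).im) y σ‖ := by
    apply Small.sum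
    intro R hR
    exact tail_small hS h (nonempty_iff_ne_empty.mpr (ne_of_mem_erase hR))
  have h2 := ((core_small hS h).add h1).mono (b := fun s =>
    ‖S.sum (2 * s + 1) (fun v => (zs (.inr v)).im) - S.main P zs (2 * s + 1)‖)
    (Eventually.of_forall fun s => by
      rw [errSum_eq S P, ← add_sum_erase _ _ (mem_univ (∅ : Finset D))]
      have e : ∀ a b c : ℂ, a + b - c = (a - c) + b := fun a b c => by ring
      rw [e]
      exact (norm_add_le _ _).trans (add_le_add le_rfl (norm_sum_le _ _)))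
  exact h2

end Pool.Agent.Work.MP_b30479_gt.G2
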