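import Pool.Agent.Work.MP_b30479_gt.G2.Tensor

/-!
# Tensor products of one variable functionals

`Lam` is a functional of one complex variable: a sum over lattice points or a path integral, and
`itL N L G` is the tensor product of the functionals `L j`, applied to a holomorphic function `G` of
`N` variables.  `tensorL`: if every `L j` is a path integral up to the values on an error set, then
the same is true for the tensor product.  `tensor_split`: the same, when every `L j` is a sum of two
functionals (core and tail).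
-/

namespace Pool.Agent.Work.MP_b30479_gt.G2

open Finset MeasureTheory

/-- a functional of one coordinate: a sum over lattice points, or a path integral -/
inductive Lam
  | disc (A : Finset ℕ) (n : ℕ)
  | path (P : PathW)

/-- the value of the functional -/
noncomputable def Lam.ap : Lam → (ℂ → ℂ) → ℂ
  | .disc A n, g => ∑ y ∈ A, g ((y : ℂ) / n)
  | .path P, g => ∫ x in P.a..P.b, g (P.γ x) * P.ω x

/-- the functional uses values at points of `V` only -/
def Lam.In (V : Set ℂ) : Lam → Prop
  | .disc A n => ∀ y ∈ A, (y : ℂ) / n ∈ V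
  | .path P => ∀ x ∈ Set.Icc P.a P.b, P.γ x ∈ V

/-- the tensor product of the functionals -/
noncomputable def itL : (N : ℕ) → (Fin N → Lam) → ((Fin N → ℂ) → ℂ) → ℂ
  | 0, _, G => G Fin.elim0
  | N + 1, L, G => (L 0).ap (fun w => itL N (Fin.tail L) (fun v => G (Fin.cons w v)))

/-- a functional is bounded by the values on `S` with the penalty `p` -/
def BoundL (K : ℝ) (V : Set ℂ) (L : Lam) (S : Set ℂ) (p : ℂ → ℝ) : Prop :=
  ∀ g : ℂ → ℂ, DifferentiableOn ℂ g V → ∀ B, 0 ≤ B → (∀ w ∈ S, p w * ‖g w‖ ≤ B) →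
    ‖L.ap g‖ ≤ K * B

/-- a functional is the path integral up to the values on `E` with the penalty `q` -/
def MainL (K : ℝ) (V : Set ℂ) (L : Lam) (P : PathW) (E : Set ℂ) (q : ℂ → ℝ) : Prop :=
  ∀ g : ℂ → ℂ, DifferentiableOn ℂ g V → ∀ B, 0 ≤ B → (∀ w ∈ E, q w * ‖g w‖ ≤ B) →
    ‖L.ap g - (Lam.path P).ap g‖ ≤ K * B

/-- parametrised path integrals of a continuous function are continuous -/
theorem cont_int {X : Type} [TopologicalSpace X] [FirstCountableTopology X]
    [LocallyCompactSpace X] {W : Set X} (hW : IsOpen W) (P : PathW) {V : Set ℂ}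
    (hP : ∀ x ∈ Set.Icc P.a P.b, P.γ x ∈ V) {F : X → ℂ → ℂ}
    (hF : ContinuousOn (fun q : X × ℂ => F q.1 q.2) (W ×ˢ V)) :
    ContinuousOn (fun x => ∫ t in P.a..P.b, F x (P.γ t) * P.ω t) W := by
  intro x0 hx0
  apply ContinuousAt.continuousWithinAt
  obtain ⟨M, hM, hxM, hMW⟩ := exists_compact_subset hW hx0
  have hc : ContinuousOn (fun q : X × ℝ => F q.1 (P.γ q.2)) (W ×ˢ Set.Icc P.a P.b) := by
    apply hF.comp (f := fun q : X × ℝ => (q.1, P.γ q.2))
    · exact (continuous_fst.prodMk (P.cont.comp continuous_snd)).continuousOn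
    · intro q hq
      exact ⟨hq.1, hP _ hq.2⟩
  obtain ⟨C, hC⟩ := (hM.prod (isCompact_Icc (a := P.a) (b := P.b))).exists_bound_of_continuousOn
    (hc.mono (Set.prod_mono hMW le_rfl))
  have hMn : M ∈ nhds x0 := mem_interior_iff_mem_nhds.mp hxM
  apply intervalIntegral.continuousAt_of_dominated_interval (bound := fun x => C * ‖P.ω x‖)
  · filter_upwards [hMn] with x hx
    apply AEStronglyMeasurable.mul
    · rw [Set.uIoc_of_le P.hab]
      have h1 : ContinuousOn (fun t => F x (P.γ t)) (Set.Ioc P.a P.b) := by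
        apply hc.comp (f := fun t : ℝ => (x, t)) (by fun_prop)
        intro t ht
        exact ⟨hMW hx, ht.1.le, ht.2⟩
      exact h1.aestronglyMeasurable measurableSet_Ioc
    · rw [Set.uIoc_of_le P.hab]
      exact P.int.1.aestronglyMeasurable
  · filter_upwards [hMn] with x hx
    refine Filter.Eventually.of_forall fun t ht => ?_
    rw [Set.uIoc_of_le P.hab] at ht
    rw [norm_mul]
    exact mul_le_mul_of_nonneg_right (hC (x, t) ⟨hx, ht.1.le, ht.2⟩) (norm_nonneg _)
  · exact (P.int.norm).const_mul C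
  · refine Filter.Eventually.of_forall fun t ht => ?_
    rw [Set.uIoc_of_le P.hab] at ht
    have h1 : ContinuousOn (fun x => F x (P.γ t)) W := by
      apply hc.comp (f := fun x : X => (x, t)) (by fun_prop)
      intro x hx
      exact ⟨hx, ht.1.le, ht.2⟩
    exact (h1.continuousAt (hW.mem_nhds hx0)).mul continuousAt_const

/-- path integrals of holomorphic functions are holomorphic in the parameter -/
theorem diff_int {U : Set ℂ} (hU : IsOpen U) (P : PathW) {V : Set ℂ}
    (hP : ∀ x ∈ Set.Icc P.a P.b, P.γ x ∈ V) {F : ℂ → ℂ → ℂ}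
    (hF : ContinuousOn (fun q : ℂ × ℂ => F q.1 q.2) (U ×ˢ V))
    (hd : ∀ z ∈ V, DifferentiableOn ℂ (fun w => F w z) U) :
    DifferentiableOn ℂ (fun w => ∫ t in P.a..P.b, F w (P.γ t) * P.ω t) U := by
  intro w0 hw0
  apply DifferentiableAt.differentiableWithinAt
  obtain ⟨r, hr, hrU⟩ := Metric.nhds_basis_closedBall.mem_iff.mp (hU.mem_nhds hw0)
  have hc : ContinuousOn (fun q : ℂ × ℝ => F q.1 (P.γ q.2)) (U ×ˢ Set.Icc P.a P.b) := by
    apply hF.comp (f := fun q : ℂ × ℝ => (q.1, P.γ q.2))
    · exact (continuous_fst.prodMk (P.cont.comp continuous_snd)).continuousOn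
    · intro q hq
      exact ⟨hq.1, hP _ hq.2⟩
  obtain ⟨C, hC⟩ := ((isCompact_closedBall w0 r).prod
    (isCompact_Icc (a := P.a) (b := P.b))).exists_bound_of_continuousOn
    (hc.mono (Set.prod_mono hrU le_rfl))
  have hct : ∀ w ∈ U, ContinuousOn (fun t => F w (P.γ t)) (Set.Ioc P.a P.b) := by
    intro w hw
    apply hc.comp (f := fun t : ℝ => (w, t)) (by fun_prop)
    intro t ht
    exact ⟨hw, ht.1.le, ht.2⟩
  have hdw : ∀ t ∈ Set.Ioc P.a P.b, ∀ w ∈ U,
      HasDerivAt (fun w => F w (P.γ t)) (deriv (fun w => F w (P.γ t)) w) w := by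
    intro t ht w hw
    exact ((hd _ (hP t ⟨ht.1.le, ht.2⟩)).differentiableAt (hU.mem_nhds hw)).hasDerivAt
  have hr2 : 0 < r / 2 := by positivity
  have hbU : Metric.ball w0 (r / 2) ⊆ U := fun w hw => hrU (by
    rw [Metric.mem_ball] at hw
    rw [Metric.mem_closedBall]
    linarith)
  have hωm : AEStronglyMeasurable P.ω (volume.restrict (Set.Ioc P.a P.b)) :=
    P.int.1.aestronglyMeasurable
  have hdm : AEStronglyMeasurable (fun t => deriv (fun w => F w (P.γ t)) w0)
      (volume.restrict (Set.Ioc P.a P.b)) := by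
    have hseq : Filter.Tendsto (fun k : ℕ => w0 + ((r / (k + 1) : ℝ) : ℂ)) Filter.atTop
        (nhdsWithin w0 {w0}ᶜ) := by
      apply tendsto_nhdsWithin_iff.mpr
      constructor
      · have h1 : Filter.Tendsto (fun k : ℕ => r / ((k : ℝ) + 1)) Filter.atTop (nhds 0) :=
          tendsto_const_nhds.div_atTop
            (Filter.tendsto_atTop_add_const_right _ _ tendsto_natCast_atTop_atTop)
        have h2 := (Complex.continuous_ofReal.tendsto 0).comp h1
        simpa using h2.const_add w0
      · refine Filter.Eventually.of_forall fun k => ?_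
        have : r / ((k : ℝ) + 1) ≠ 0 := by positivity
        simp only [Set.mem_compl_iff, Set.mem_singleton_iff, add_eq_left]
        exact_mod_cast this
    apply aestronglyMeasurable_of_tendsto_ae (u := Filter.atTop)
      (f := fun k : ℕ => fun t => slope (fun w => F w (P.γ t)) w0 (w0 + ((r / (k + 1) : ℝ) : ℂ)))
    · intro k
      have hk : w0 + ((r / (k + 1) : ℝ) : ℂ) ∈ U := by
        apply hrU
        rw [Metric.mem_closedBall, dist_eq_norm, add_sub_cancel_left, Complex.norm_real,
          Real.norm_of_nonneg (by positivity)]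
        apply div_le_self hr.le
        have : (0 : ℝ) ≤ k := Nat.cast_nonneg k
        linarith
      simp only [slope_def_field]
      apply ContinuousOn.aestronglyMeasurable _ measurableSet_Ioc
      exact ((hct _ hk).sub (hct _ hw0)).div_const _
    · apply (ae_restrict_iff' measurableSet_Ioc).mpr
      refine Filter.Eventually.of_forall fun t ht => ?_
      exact (hasDerivAt_iff_tendsto_slope.mp (hdw t ht w0 hw0)).comp hseq
  have key := intervalIntegral.hasDerivAt_integral_of_dominated_loc_of_deriv_le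
    (μ := volume) (a := P.a) (b := P.b)
    (F := fun w t => F w (P.γ t) * P.ω t)
    (F' := fun w t => deriv (fun w => F w (P.γ t)) w * P.ω t) (x₀ := w0)
    (s := Metric.ball w0 (r / 2)) (bound := fun t => C / (r / 2) * ‖P.ω t‖)
    (Metric.ball_mem_nhds _ hr2) (by
      filter_upwards [hU.mem_nhds hw0] with w hw
      rw [Set.uIoc_of_le P.hab]
      exact ((hct w hw).aestronglyMeasurable measurableSet_Ioc).mul hωm) (by
      apply P.int.continuousOn_mul
      rw [Set.uIcc_of_le P.hab]
      apply hc.comp (f := fun t : ℝ => (w0, t)) (by fun_prop)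
      intro t ht
      exact ⟨hw0, ht⟩) (by
      rw [Set.uIoc_of_le P.hab]
      exact hdm.mul hωm) (by
      refine Filter.Eventually.of_forall fun t ht w hw => ?_
      rw [Set.uIoc_of_le P.hab] at ht
      rw [norm_mul]
      apply mul_le_mul_of_nonneg_right _ (norm_nonneg _)
      apply Complex.norm_deriv_le_of_forall_mem_sphere_norm_le hr2
      · apply DifferentiableOn.diffContOnCl
        apply (hd _ (hP t ⟨ht.1.le, ht.2⟩)).mono
        intro z hz
        have hz' := Metric.closure_ball_subset_closedBall hz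
        apply hrU
        rw [Metric.mem_closedBall] at hz' ⊢
        rw [Metric.mem_ball] at hw
        linarith [dist_triangle z w w0]
      · intro z hz
        apply hC (z, t)
        refine ⟨?_, ht.1.le, ht.2⟩
        rw [Metric.mem_sphere] at hz
        rw [Metric.mem_closedBall]
        rw [Metric.mem_ball] at hw
        linarith [dist_triangle z w w0]) (by
      exact (P.int.norm).const_mul _) (by
      refine Filter.Eventually.of_forall fun t ht w hw => ?_
      rw [Set.uIoc_of_le P.hab] at ht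
      exact (hdw t ht w (hbU hw)).mul_const _)
  exact key.2.differentiableAt

theorem differentiable_cons_left {N : ℕ} (v : Fin N → ℂ) :
    Differentiable ℂ (fun w : ℂ => (Fin.cons w v : Fin (N + 1) → ℂ)) := by
  rw [differentiable_pi]
  intro j
  refine Fin.cases ?_ ?_ j
  · simp only [Fin.cons_zero]
    exact differentiable_id
  · intro j
    simp only [Fin.cons_succ]
    exact differentiable_const _

theorem differentiable_cons_right {N : ℕ} (w : ℂ) :
    Differentiable ℂ (fun v : Fin N → ℂ => (Fin.cons w v : Fin (N + 1) → ℂ)) := by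
  rw [differentiable_pi]
  intro j
  refine Fin.cases ?_ ?_ j
  · simp only [Fin.cons_zero]
    exact differentiable_const _
  · intro j
    simp only [Fin.cons_succ]
    exact differentiable_apply j

theorem cons_mem {N : ℕ} {V : Fin (N + 1) → Set ℂ} {w : ℂ} {v : Fin N → ℂ} (hw : w ∈ V 0)
    (hv : v ∈ Set.univ.pi (Fin.tail V)) : (Fin.cons w v : Fin (N + 1) → ℂ) ∈ Set.univ.pi V := by
  intro j _
  refine Fin.cases ?_ ?_ j
  · simpa using hw
  · intro j
    have := hv j (Set.mem_univ j)
    simpa [Fin.tail] using this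

/-- iterated functionals of a continuous function are continuous in the parameter -/
theorem itL_contOn {X : Type} [TopologicalSpace X] [FirstCountableTopology X]
    [LocallyCompactSpace X] : ∀ (N : ℕ) (L : Fin N → Lam) (V : Fin N → Set ℂ)
    (_ : ∀ j, IsOpen (V j)) (_ : ∀ j, (L j).In (V j)) (W : Set X) (_ : IsOpen W)
    (H : X → (Fin N → ℂ) → ℂ)
    (_ : ContinuousOn (fun q : X × (Fin N → ℂ) => H q.1 q.2) (W ×ˢ Set.univ.pi V)),
    ContinuousOn (fun x => itL N L (H x)) W
  | 0, L, V, _, _, W, _, H, hH => by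
      simp only [itL]
      apply hH.comp (f := fun x : X => (x, (Fin.elim0 : Fin 0 → ℂ))) (by fun_prop)
      intro x hx
      exact ⟨hx, fun j => j.elim0⟩
  | N + 1, L, V, hV, hL, W, hW, H, hH => by
      have ih : ContinuousOn (fun q : X × ℂ => itL N (Fin.tail L)
          ((fun (q : X × ℂ) (v : Fin N → ℂ) => H q.1 (Fin.cons q.2 v)) q)) (W ×ˢ V 0) := by
        apply itL_contOn (X := X × ℂ) N (Fin.tail L) (Fin.tail V) (fun j => hV _) (fun j => hL _)
          (W ×ˢ V 0) (hW.prod (hV 0)) (fun q v => H q.1 (Fin.cons q.2 v))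
        apply hH.comp (f := fun r : (X × ℂ) × (Fin N → ℂ) =>
          (r.1.1, (Fin.cons r.1.2 r.2 : Fin (N + 1) → ℂ)))
        · have : Continuous fun r : (X × ℂ) × (Fin N → ℂ) =>
              (r.1.1, (Fin.cons r.1.2 r.2 : Fin (N + 1) → ℂ)) := by
            refine Continuous.prodMk (by fun_prop) ?_
            exact Continuous.finCons (by fun_prop) (by fun_prop)
          exact this.continuousOn
        · intro r hr
          exact ⟨hr.1.1, cons_mem hr.1.2 hr.2⟩
      simp only [itL]
      have hL0 := hL 0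
      cases hLc : L 0 with
      | disc A n =>
        rw [hLc] at hL0
        simp only [Lam.ap]
        apply continuousOn_finsetSum
        intro y hy
        apply ih.comp (f := fun x : X => (x, (y : ℂ) / n)) (by fun_prop)
        intro x hx
        exact ⟨hx, hL0 y hy⟩
      | path P =>
        rw [hLc] at hL0
        simp only [Lam.ap]
        exact cont_int hW P hL0 (F := fun x z => itL N (Fin.tail L) (fun v => H x (Fin.cons z v))) ih

/-- iterated functionals of a holomorphic function are holomorphic in the parameter -/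
theorem itL_diff : ∀ (N : ℕ) (L : Fin N → Lam) (V : Fin N → Set ℂ)
    (_ : ∀ j, IsOpen (V j)) (_ : ∀ j, (L j).In (V j)) (U : Set ℂ) (_ : IsOpen U)
    (H : ℂ → (Fin N → ℂ) → ℂ)
    (_ : ContinuousOn (fun q : ℂ × (Fin N → ℂ) => H q.1 q.2) (U ×ˢ Set.univ.pi V))
    (_ : ∀ v ∈ Set.univ.pi V, DifferentiableOn ℂ (fun w => H w v) U),
    DifferentiableOn ℂ (fun w => itL N L (H w)) U
  | 0, L, V, _, _, U, _, H, _, hd => hd _ (fun j => j.elim0)
  | N + 1, L, V, hV, hL, U, hU, H, hH, hd => by
      have hc : ContinuousOn (fun q : ℂ × ℂ => itL N (Fin.tail L)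
          ((fun (q : ℂ × ℂ) (v : Fin N → ℂ) => H q.1 (Fin.cons q.2 v)) q)) (U ×ˢ V 0) := by
        apply itL_contOn (X := ℂ × ℂ) N (Fin.tail L) (Fin.tail V) (fun j => hV _) (fun j => hL _)
          (U ×ˢ V 0) (hU.prod (hV 0)) (fun q v => H q.1 (Fin.cons q.2 v))
        apply hH.comp (f := fun r : (ℂ × ℂ) × (Fin N → ℂ) =>
          (r.1.1, (Fin.cons r.1.2 r.2 : Fin (N + 1) → ℂ)))
        · have : Continuous fun r : (ℂ × ℂ) × (Fin N → ℂ) =>
              (r.1.1, (Fin.cons r.1.2 r.2 : Fin (N + 1) → ℂ)) := by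
            refine Continuous.prodMk (by fun_prop) ?_
            exact Continuous.finCons (by fun_prop) (by fun_prop)
          exact this.continuousOn
        · intro r hr
          exact ⟨hr.1.1, cons_mem hr.1.2 hr.2⟩
      have ih : ∀ z ∈ V 0, DifferentiableOn ℂ
          (fun w => itL N (Fin.tail L) (fun v => H w (Fin.cons z v))) U := by
        intro z hz
        apply itL_diff N (Fin.tail L) (Fin.tail V) (fun j => hV _) (fun j => hL _) U hU
          (fun w v => H w (Fin.cons z v))
        · apply hH.comp (f := fun r : ℂ × (Fin N → ℂ) =>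
            (r.1, (Fin.cons z r.2 : Fin (N + 1) → ℂ)))
          · have : Continuous fun r : ℂ × (Fin N → ℂ) =>
                (r.1, (Fin.cons z r.2 : Fin (N + 1) → ℂ)) := by
              refine Continuous.prodMk (by fun_prop) ?_
              exact Continuous.finCons (by fun_prop) (by fun_prop)
            exact this.continuousOn
          · intro r hr
            exact ⟨hr.1, cons_mem hz hr.2⟩
        · intro v hv
          exact hd _ (cons_mem hz hv)
      simp only [itL]
      have hL0 := hL 0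
      cases hLc : L 0 with
      | disc A n =>
        rw [hLc] at hL0
        simp only [Lam.ap]
        apply DifferentiableOn.fun_sum
        intro y hy
        exact ih _ (hL0 y hy)
      | path P =>
        rw [hLc] at hL0
        simp only [Lam.ap]
        exact diff_int hU P hL0 (F := fun w z => itL N (Fin.tail L) (fun v => H w (Fin.cons z v)))
          hc ih

/-- one coordinate is left -/
theorem head_diff {N : ℕ} {L : Fin (N + 1) → Lam} {V : Fin (N + 1) → Set ℂ}
    (hV : ∀ j, IsOpen (V j)) (hL : ∀ j : Fin N, (L j.succ).In (V j.succ))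
    {G : (Fin (N + 1) → ℂ) → ℂ} (hG : DifferentiableOn ℂ G (Set.univ.pi V)) :
    DifferentiableOn ℂ (fun w => itL N (Fin.tail L) (fun v => G (Fin.cons w v))) (V 0) := by
  apply itL_diff N (Fin.tail L) (Fin.tail V) (fun j => hV _) (fun j => hL _) (V 0) (hV 0)
    (fun w v => G (Fin.cons w v))
  · apply hG.continuousOn.comp (f := fun r : ℂ × (Fin N → ℂ) =>
      (Fin.cons r.1 r.2 : Fin (N + 1) → ℂ))
    · have : Continuous fun r : ℂ × (Fin N → ℂ) => (Fin.cons r.1 r.2 : Fin (N + 1) → ℂ) :=
        Continuous.finCons (by fun_prop) (by fun_prop)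
      exact this.continuousOn
    · intro r hr
      exact cons_mem hr.1 hr.2
  · intro v hv
    apply hG.comp (differentiable_cons_left v).differentiableOn
    intro w hw
    exact cons_mem hw hv

theorem tail_diff {N : ℕ} {V : Fin (N + 1) → Set ℂ}
    {G : (Fin (N + 1) → ℂ) → ℂ} (hG : DifferentiableOn ℂ G (Set.univ.pi V)) {w : ℂ}
    (hw : w ∈ V 0) : DifferentiableOn ℂ (fun v => G (Fin.cons w v)) (Set.univ.pi (Fin.tail V)) := by
  apply hG.comp (differentiable_cons_right w).differentiableOn
  intro v hv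
  exact cons_mem hw hv

theorem shift_dep {N : ℕ} {α : Type} (f : Fin (N + 1) → (Fin (N + 1) → ℂ) → α)
    (hf : ∀ j v v', (∀ i < j, v i = v' i) → f j v = f j v') (w : ℂ) (j : Fin N)
    (v v' : Fin N → ℂ) (h : ∀ i < j, v i = v' i) :
    f j.succ (Fin.cons w v) = f j.succ (Fin.cons w v') := by
  apply hf
  intro i
  refine Fin.cases ?_ ?_ i
  · intro _; simp
  · intro i hi
    simpa using h i (Fin.succ_lt_succ_iff.mp hi)

/-- the tensor product is bounded by the values on the product of the sets -/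
theorem itL_bound {K : ℝ} (hK : 0 ≤ K) : ∀ (N : ℕ) (L : Fin N → Lam) (V : Fin N → Set ℂ)
    (_ : ∀ j, IsOpen (V j)) (_ : ∀ j, (L j).In (V j))
    (S : Fin N → (Fin N → ℂ) → Set ℂ) (p : Fin N → (Fin N → ℂ) → ℂ → ℝ)
    (_ : ∀ j v v', (∀ i < j, v i = v' i) → S j v = S j v')
    (_ : ∀ j v v', (∀ i < j, v i = v' i) → p j v = p j v')
    (_ : ∀ j v, ∀ w ∈ S j v, 0 ≤ p j v w) (_ : ∀ j v, S j v ⊆ V j)
    (_ : ∀ j v, BoundL K (V j) (L j) (S j v) (p j v))
    (G : (Fin N → ℂ) → ℂ) (_ : DifferentiableOn ℂ G (Set.univ.pi V))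
    (c B : ℝ) (_ : 0 ≤ c) (_ : 0 ≤ B)
    (_ : ∀ v, (∀ j, v j ∈ S j v) → c * (∏ j, p j v (v j)) * ‖G v‖ ≤ B),
    c * ‖itL N L G‖ ≤ K ^ N * B
  | 0, L, V, _, _, S, p, _, _, _, _, _, G, _, c, B, _, _, hB => by
      have := hB Fin.elim0 (fun i => i.elim0)
      simpa [itL] using this
  | N + 1, L, V, hV, hL, S, p, hS, hp, hp0, hSV, h1, G, hG, c, B, hc, hB0, hB => by
      set v0 : Fin (N + 1) → ℂ := fun _ => 0 with hv0
      have e0 : ∀ v, S 0 v = S 0 v0 := fun v => hS 0 v v0 (fun i hi => absurd hi (Fin.not_lt_zero i))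
      have e0' : ∀ v, p 0 v = p 0 v0 := fun v =>
        hp 0 v v0 (fun i hi => absurd hi (Fin.not_lt_zero i))
      have hd := head_diff hV (L := L) (fun j => hL _) hG
      have hd' : DifferentiableOn ℂ
          (fun w => (c : ℂ) * itL N (Fin.tail L) (fun v => G (Fin.cons w v))) (V 0) :=
        hd.const_mul _
      have h2 := h1 0 v0 _ hd' (K ^ N * B) (by positivity) (by
        intro w hw
        have hw' : w ∈ S 0 v0 := hw
        have hpw := hp0 0 v0 w hw'
        have ih := itL_bound hK N (Fin.tail L) (Fin.tail V) (fun j => hV _) (fun j => hL _)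
          (fun j v => S j.succ (Fin.cons w v))
          (fun j v => p j.succ (Fin.cons w v)) (shift_dep S hS w) (shift_dep p hp w)
          (fun j v u hu => hp0 _ _ u hu) (fun j v => hSV _ _) (fun j v => h1 _ _)
          (fun v => G (Fin.cons w v)) (tail_diff hG (hSV 0 v0 hw')) (c * p 0 v0 w) B
          (by positivity) hB0 (by
            intro v hv
            have h3 := hB (Fin.cons w v) (by
              intro j
              refine Fin.cases ?_ ?_ j
              · rw [e0]
                simpa using hw'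
              · intro j
                simpa using hv j)
            rw [Fin.prod_univ_succ, e0'] at h3
            simp only [Fin.cons_zero, Fin.cons_succ] at h3
            calc c * p 0 v0 w * (∏ j, p j.succ (Fin.cons w v) (v j)) * ‖G (Fin.cons w v)‖
                = c * (p 0 v0 w * ∏ j : Fin N, p j.succ (Fin.cons w v) (v j)) *
                  ‖G (Fin.cons w v)‖ := by ring
              _ ≤ B := h3)
        rw [norm_mul, Complex.norm_real, Real.norm_of_nonneg hc]
        calc p 0 v0 w * (c * ‖itL N (Fin.tail L) (fun v => G (Fin.cons w v))‖)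
            = c * p 0 v0 w * ‖itL N (Fin.tail L) (fun v => G (Fin.cons w v))‖ := by ring
          _ ≤ K ^ N * B := ih)
      have h4 : (L 0).ap (fun w => (c : ℂ) * itL N (Fin.tail L) (fun v => G (Fin.cons w v))) =
          (c : ℂ) * itL (N + 1) L G := by
        simp only [itL]
        cases L 0 with
        | disc A n =>
          simp only [Lam.ap]
          rw [mul_sum]
        | path P =>
          simp only [Lam.ap]
          rw [← intervalIntegral.integral_const_mul]
          simp only [mul_assoc]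
      rw [h4, norm_mul, Complex.norm_real, Real.norm_of_nonneg hc] at h2
      calc c * ‖itL (N + 1) L G‖ ≤ K * (K ^ N * B) := h2
        _ = K ^ (N + 1) * B := by ring

theorem itL_path : ∀ (N : ℕ) (P : Fin N → PathW) (G : (Fin N → ℂ) → ℂ),
    itL N (fun j => .path (P j)) G = itR N P (fun x => G (pos P x))
  | 0, P, G => by
      simp only [itL, itR]
      congr 1
      exact Subsingleton.elim _ _
  | N + 1, P, G => by
      simp only [itL, itR, Lam.ap]
      congr 1
      funext x
      have : (Fin.tail fun j => Lam.path (P j)) = fun j => Lam.path (Fin.tail P j) := rfl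
      rw [this, itL_path N (Fin.tail P)]
      simp only [pos_cons]

/-- the tensor product of the functionals is the iterated path integral up to the values on the
error sets -/
theorem tensorL {K : ℝ} (hK : 0 ≤ K) : ∀ (N : ℕ) (L : Fin N → Lam) (P : Fin N → PathW)
    (V : Fin N → Set ℂ) (_ : ∀ j, IsOpen (V j)) (_ : ∀ j, (L j).In (V j))
    (_ : ∀ j, ∀ x ∈ Set.Icc (P j).a (P j).b, (P j).γ x ∈ V j)
    (E : Fin N → (Fin N → ℂ) → Set ℂ) (q : Fin N → (Fin N → ℂ) → ℂ → ℝ)
    (S : Fin N → (Fin N → ℂ) → Set ℂ) (p : Fin N → (Fin N → ℂ) → ℂ → ℝ)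
    (_ : ∀ j v v', (∀ i < j, v i = v' i) → E j v = E j v')
    (_ : ∀ j v v', (∀ i < j, v i = v' i) → q j v = q j v')
    (_ : ∀ j v, ∀ w ∈ E j v, 0 ≤ q j v w) (_ : ∀ j v, E j v ⊆ V j)
    (_ : ∀ j v v', (∀ i < j, v i = v' i) → S j v = S j v')
    (_ : ∀ j v v', (∀ i < j, v i = v' i) → p j v = p j v')
    (_ : ∀ j v, ∀ w ∈ S j v, 0 ≤ p j v w) (_ : ∀ j v, S j v ⊆ V j)
    (_ : ∀ j v, BoundL K (V j) (L j) (S j v) (p j v))
    (_ : ∀ j v, MainL K (V j) (L j) (P j) (E j v) (q j v))
    (_ : ∀ j, ∫ x in (P j).a..(P j).b, ‖(P j).ω x‖ ≤ K)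
    (G : (Fin N → ℂ) → ℂ) (_ : DifferentiableOn ℂ G (Set.univ.pi V))
    (B : ℝ) (_ : 0 ≤ B)
    (_ : ∀ j v, (∀ i < j, ∃ x ∈ Set.Icc (P i).a (P i).b, v i = (P i).γ x) → v j ∈ E j v →
      (∀ i, j < i → v i ∈ S i v) →
      q j v (v j) * (∏ i ∈ Finset.Ioi j, p i v (v i)) * ‖G v‖ ≤ B),
    ‖itL N L G - itL N (fun j => .path (P j)) G‖ ≤ N * K ^ N * B
  | 0, L, P, V, _, _, _, E, q, S, p, _, _, _, _, _, _, _, _, _, _, _, G, _, B, hB0, hB => by
      simp [itL]
  | N + 1, L, P, V, hV, hL, hPV, E, q, S, p, hE, hq, hq0, hEV, hS, hp, hp0, hSV, h1, h2, h3, G,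
      hG, B, hB0, hB => by
      set v0 : Fin (N + 1) → ℂ := fun _ => 0 with hv0
      have e0 : ∀ v, E 0 v = E 0 v0 := fun v => hE 0 v v0 (fun i hi => absurd hi (Fin.not_lt_zero i))
      have e0' : ∀ v, q 0 v = q 0 v0 := fun v =>
        hq 0 v v0 (fun i hi => absurd hi (Fin.not_lt_zero i))
      set g : ℂ → ℂ := fun w => itL N (Fin.tail L) (fun v => G (Fin.cons w v)) with hg
      have hd : DifferentiableOn ℂ g (V 0) := head_diff hV (fun j => hL _) hG
      have hb1 := h2 0 v0 g hd (K ^ N * B) (by positivity) (by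
        intro w hw
        apply itL_bound hK N (Fin.tail L) (Fin.tail V) (fun j => hV _) (fun j => hL _)
          (fun j v => S j.succ (Fin.cons w v))
          (fun j v => p j.succ (Fin.cons w v)) (shift_dep S hS w) (shift_dep p hp w)
          (fun j v u hu => hp0 _ _ u hu) (fun j v => hSV _ _) (fun j v => h1 _ _)
          (fun v => G (Fin.cons w v)) (tail_diff hG (hEV 0 v0 hw)) (q 0 v0 w) B
          (hq0 0 v0 w hw) hB0
        intro v hv
        have h4 := hB 0 (Fin.cons w v) (fun i hi => absurd hi (Fin.not_lt_zero i))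
          (by rw [e0]; simpa using hw) (by
            intro i
            refine Fin.cases ?_ ?_ i
            · intro h; exact absurd h (lt_irrefl _)
            · intro i _
              simpa using hv i)
        rw [Fin.prod_Ioi_zero, e0'] at h4
        simpa using h4)
      set g' : ℂ → ℂ := fun w => itL N (fun j => .path (Fin.tail P j)) (fun v => G (Fin.cons w v))
        with hg'
      have hd' : DifferentiableOn ℂ g' (V 0) :=
        head_diff (L := fun j => .path (P j)) hV (fun j => hPV _) hG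
      have hI : ∀ f : ℂ → ℂ, DifferentiableOn ℂ f (V 0) →
          IntervalIntegrable (fun x => f ((P 0).γ x) * (P 0).ω x) volume (P 0).a (P 0).b := by
        intro f hf
        apply (P 0).int.continuousOn_mul
        rw [Set.uIcc_of_le (P 0).hab]
        exact hf.continuousOn.comp (P 0).cont.continuousOn (fun x hx => hPV 0 x hx)
      have hb2 : ‖(Lam.path (P 0)).ap g - itL (N + 1) (fun j => .path (P j)) G‖ ≤
          N * K ^ N * B * K := by
        have e1 : itL (N + 1) (fun j => .path (P j)) G = (Lam.path (P 0)).ap g' := rfl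
        rw [e1]
        simp only [Lam.ap]
        rw [← intervalIntegral.integral_sub (hI g hd) (hI g' hd')]
        calc ‖∫ x in (P 0).a..(P 0).b, (g ((P 0).γ x) * (P 0).ω x -
              g' ((P 0).γ x) * (P 0).ω x)‖
            ≤ ∫ x in (P 0).a..(P 0).b, N * K ^ N * B * ‖(P 0).ω x‖ := by
              apply intervalIntegral.norm_integral_le_of_norm_le (P 0).hab
              · refine Filter.Eventually.of_forall fun x hx => ?_
                have hx' : x ∈ Set.Icc (P 0).a (P 0).b := ⟨hx.1.le, hx.2⟩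
                rw [← sub_mul, norm_mul]
                apply mul_le_mul_of_nonneg_right _ (norm_nonneg _)
                exact tensorL hK N (Fin.tail L) (Fin.tail P) (Fin.tail V) (fun j => hV _)
                  (fun j => hL _) (fun j => hPV _)
                  (fun j v => E j.succ (Fin.cons ((P 0).γ x) v))
                  (fun j v => q j.succ (Fin.cons ((P 0).γ x) v))
                  (fun j v => S j.succ (Fin.cons ((P 0).γ x) v))
                  (fun j v => p j.succ (Fin.cons ((P 0).γ x) v))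
                  (shift_dep E hE _) (shift_dep q hq _) (fun j v u hu => hq0 _ _ u hu)
                  (fun j v => hEV _ _)
                  (shift_dep S hS _) (shift_dep p hp _) (fun j v u hu => hp0 _ _ u hu)
                  (fun j v => hSV _ _) (fun j v => h1 _ _) (fun j v => h2 _ _) (fun j => h3 _)
                  (fun v => G (Fin.cons ((P 0).γ x) v)) (tail_diff hG (hPV 0 x hx')) B hB0 (by
                    intro j v hv1 hv2 hv3
                    have h4 := hB j.succ (Fin.cons ((P 0).γ x) v) (by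
                      intro i
                      refine Fin.cases ?_ ?_ i
                      · intro _
                        exact ⟨x, hx', by simp⟩
                      · intro i hi
                        obtain ⟨y, hy, he⟩ := hv1 i (Fin.succ_lt_succ_iff.mp hi)
                        exact ⟨y, hy, by simpa [Fin.tail] using he⟩)
                      (by simpa using hv2) (by
                        intro i
                        refine Fin.cases ?_ ?_ i
                        · intro h; exact absurd h (Fin.not_lt_zero _)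
                        · intro i hi
                          simpa using hv3 i (Fin.succ_lt_succ_iff.mp hi))
                    rw [Fin.prod_Ioi_succ] at h4
                    simpa using h4)
              · exact ((P 0).int.norm).const_mul _
          _ = N * K ^ N * B * ∫ x in (P 0).a..(P 0).b, ‖(P 0).ω x‖ := by
              rw [intervalIntegral.integral_const_mul]
          _ ≤ N * K ^ N * B * K := mul_le_mul_of_nonneg_left (h3 0) (by positivity)
      have e2 : itL (N + 1) L G = (L 0).ap g := rfl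
      calc ‖itL (N + 1) L G - itL (N + 1) (fun j => .path (P j)) G‖
          = ‖((L 0).ap g - (Lam.path (P 0)).ap g) +
            ((Lam.path (P 0)).ap g - itL (N + 1) (fun j => .path (P j)) G)‖ := by
              rw [e2]; congr 1; ring
        _ ≤ K * (K ^ N * B) + N * K ^ N * B * K := (norm_add_le _ _).trans (add_le_add hb1 hb2)
        _ = ((N + 1 : ℕ) : ℝ) * K ^ (N + 1) * B := by push_cast; ring

/-! ### splitting the functionals into core and tail -/

theorem Lam.ap_congr {V : Set ℂ} {L : Lam} (hL : L.In V) {f g : ℂ → ℂ} (h : ∀ w ∈ V, f w = g w) :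
    L.ap f = L.ap g := by
  cases L with
  | disc A n =>
    simp only [Lam.ap]
    exact sum_congr rfl fun y hy => h _ (hL y hy)
  | path P =>
    simp only [Lam.ap]
    apply intervalIntegral.integral_congr
    intro x hx
    rw [Set.uIcc_of_le P.hab] at hx
    simp only [h _ (hL x hx)]

theorem Lam.ap_sum {V : Set ℂ} {L : Lam} (hL : L.In V) {ι : Type} (s : Finset ι)
    {f : ι → ℂ → ℂ} (h : ∀ i ∈ s, ContinuousOn (f i) V) :
    L.ap (fun w => ∑ i ∈ s, f i w) = ∑ i ∈ s, L.ap (f i) := by
  cases L with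
  | disc A n =>
    simp only [Lam.ap]
    exact sum_comm
  | path P =>
    simp only [Lam.ap]
    simp only [sum_mul]
    apply intervalIntegral.integral_finsetSum
    intro i hi
    apply P.int.continuousOn_mul
    rw [Set.uIcc_of_le P.hab]
    exact (h i hi).comp P.cont.continuousOn (fun x hx => hL x hx)

theorem sum_cons {N : ℕ} {α : Type} [AddCommMonoid α] (F : (Fin (N + 1) → Bool) → α) :
    ∑ T, F T = ∑ T : Fin N → Bool, F (Fin.cons true T) + ∑ T : Fin N → Bool, F (Fin.cons false T) := by
  rw [← Fintype.sum_equiv (Fin.consEquiv (fun _ => Bool)) (fun z => F (Fin.cons z.1 z.2)) F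
    (fun z => rfl), Fintype.sum_prod_type, Fintype.sum_bool]

/-- the choice of the core (`false`) or tail (`true`) functional in every coordinate -/
def sel {N : ℕ} (L0 L1 : Fin N → Lam) (T : Fin N → Bool) : Fin N → Lam :=
  fun j => if T j then L1 j else L0 j

theorem sel_tail {N : ℕ} (L0 L1 : Fin (N + 1) → Lam) (b : Bool) (T : Fin N → Bool) :
    Fin.tail (sel L0 L1 (Fin.cons b T)) = sel (Fin.tail L0) (Fin.tail L1) T := by
  funext j
  simp [Fin.tail, sel]

theorem itL_split : ∀ (N : ℕ) (L L0 L1 : Fin N → Lam) (V : Fin N → Set ℂ)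
    (_ : ∀ j, IsOpen (V j)) (_ : ∀ j, (L j).In (V j)) (_ : ∀ j, (L0 j).In (V j))
    (_ : ∀ j, (L1 j).In (V j))
    (_ : ∀ j, ∀ g : ℂ → ℂ, DifferentiableOn ℂ g (V j) → (L j).ap g = (L0 j).ap g + (L1 j).ap g)
    (G : (Fin N → ℂ) → ℂ) (_ : DifferentiableOn ℂ G (Set.univ.pi V)),
    itL N L G = ∑ T : Fin N → Bool, itL N (sel L0 L1 T) G
  | 0, L, L0, L1, V, _, _, _, _, _, G, _ => by simp [itL]
  | N + 1, L, L0, L1, V, hV, hL, hL0, hL1, hs, G, hG => by
      set g : ℂ → ℂ := fun w => itL N (Fin.tail L) (fun v => G (Fin.cons w v)) with hg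
      have hd : DifferentiableOn ℂ g (V 0) := head_diff hV (fun j => hL _) hG
      set gT : (Fin N → Bool) → ℂ → ℂ := fun T w =>
        itL N (sel (Fin.tail L0) (Fin.tail L1) T) (fun v => G (Fin.cons w v)) with hgT
      have hsel : ∀ T : Fin N → Bool, ∀ j, (sel (Fin.tail L0) (Fin.tail L1) T j).In (V j.succ) := by
        intro T j
        unfold sel
        split_ifs
        · exact hL1 _
        · exact hL0 _
      have hdT : ∀ T, DifferentiableOn ℂ (gT T) (V 0) := fun T =>
        head_diff (L := Fin.cons (L0 0) (sel (Fin.tail L0) (Fin.tail L1) T)) hV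
          (fun j => by simpa using hsel T j) hG
      have ih : ∀ w ∈ V 0, g w = ∑ T, gT T w := by
        intro w hw
        exact itL_split N (Fin.tail L) (Fin.tail L0) (Fin.tail L1) (Fin.tail V) (fun j => hV _)
          (fun j => hL _) (fun j => hL0 _) (fun j => hL1 _) (fun j => hs _)
          (fun v => G (Fin.cons w v)) (tail_diff hG hw)
      have e1 : ∀ (L' : Lam), L'.In (V 0) → L'.ap g = ∑ T, L'.ap (gT T) := by
        intro L' hL'
        rw [Lam.ap_congr hL' ih, Lam.ap_sum hL' _ (fun T _ => (hdT T).continuousOn)]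
      have e2 : itL (N + 1) L G = (L 0).ap g := rfl
      rw [e2, hs 0 g hd, e1 _ (hL0 0), e1 _ (hL1 0), sum_cons, add_comm]
      congr 1

/-- the tensor product of sums of core and tail functionals is the iterated path integral up to the
values on error sets -/
theorem tensor_split {K : ℝ} (hK : 0 ≤ K) (N : ℕ) (L L0 L1 : Fin N → Lam) (P : Fin N → PathW)
    (V : Fin N → Set ℂ) (hV : ∀ j, IsOpen (V j)) (hL : ∀ j, (L j).In (V j))
    (hL0 : ∀ j, (L0 j).In (V j)) (hL1 : ∀ j, (L1 j).In (V j))
    (hs : ∀ j, ∀ g : ℂ → ℂ, DifferentiableOn ℂ g (V j) → (L j).ap g = (L0 j).ap g + (L1 j).ap g)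
    (hPV : ∀ j, ∀ x ∈ Set.Icc (P j).a (P j).b, (P j).γ x ∈ V j)
    (E : Fin N → Set ℂ) (q : Fin N → ℂ → ℝ) (hq0 : ∀ j, ∀ w ∈ E j, 0 ≤ q j w)
    (hEV : ∀ j, E j ⊆ V j)
    (S : Fin N → Set ℂ) (p : Fin N → ℂ → ℝ) (hp0 : ∀ j, ∀ w ∈ S j, 0 ≤ p j w)
    (hSV : ∀ j, S j ⊆ V j)
    (h1 : ∀ j, BoundL K (V j) (L0 j) (S j) (p j))
    (h2 : ∀ j, MainL K (V j) (L0 j) (P j) (E j) (q j))
    (h3 : ∀ j, ∫ x in (P j).a..(P j).b, ‖(P j).ω x‖ ≤ K)
    (ST : (Fin N → Bool) → Fin N → Set ℂ) (pT : (Fin N → Bool) → Fin N → ℂ → ℝ)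
    (hpT0 : ∀ T, (∃ j, T j = true) → ∀ j, ∀ w ∈ ST T j, 0 ≤ pT T j w)
    (hSTV : ∀ T, (∃ j, T j = true) → ∀ j, ST T j ⊆ V j)
    (h4 : ∀ T, (∃ j, T j = true) → ∀ j, BoundL K (V j) (sel L0 L1 T j) (ST T j) (pT T j))
    (G : (Fin N → ℂ) → ℂ) (hG : DifferentiableOn ℂ G (Set.univ.pi V)) (B : ℝ) (hB0 : 0 ≤ B)
    (hB : ∀ j v, (∀ i < j, ∃ x ∈ Set.Icc (P i).a (P i).b, v i = (P i).γ x) → v j ∈ E j →
      (∀ i, j < i → v i ∈ S i) →
      q j (v j) * (∏ i ∈ Finset.Ioi j, p i (v i)) * ‖G v‖ ≤ B)
    (hBT : ∀ T, (∃ j, T j = true) → ∀ v, (∀ j, v j ∈ ST T j) →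
      (∏ j, pT T j (v j)) * ‖G v‖ ≤ B) :
    ‖itL N L G - itL N (fun j => .path (P j)) G‖ ≤ (N + 2 ^ N) * K ^ N * B := by
  classical
  have hsel : ∀ T j, (sel L0 L1 T j).In (V j) := by
    intro T j
    unfold sel
    split_ifs
    · exact hL1 _
    · exact hL0 _
  set T0 : Fin N → Bool := fun _ => false with hT0
  have e0 : sel L0 L1 T0 = L0 := by
    funext j
    simp [sel, T0]
  have hne : ∀ T ≠ T0, ∃ j, T j = true := by
    intro T hT
    by_contra h
    push Not at h
    apply hT
    funext j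
    simpa using h j
  have hT : ∀ T ∈ univ.erase T0, ‖itL N (sel L0 L1 T) G‖ ≤ K ^ N * B := by
    intro T hT
    have hT1 := hne T (ne_of_mem_erase hT)
    have := itL_bound hK N (sel L0 L1 T) V hV (hsel T) (fun j _ => ST T j) (fun j _ => pT T j)
      (fun _ _ _ _ => rfl) (fun _ _ _ _ => rfl) (fun j _ => hpT0 T hT1 j)
      (fun j _ => hSTV T hT1 j) (fun j _ => h4 T hT1 j) G hG 1 B zero_le_one hB0 (by
        intro v hv
        rw [one_mul]
        exact hBT T hT1 v hv)
    rwa [one_mul] at this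
  have h5 := tensorL hK N L0 P V hV hL0 hPV (fun j _ => E j) (fun j _ => q j) (fun j _ => S j)
    (fun j _ => p j) (fun _ _ _ _ => rfl) (fun _ _ _ _ => rfl) (fun j _ => hq0 j)
    (fun j _ => hEV j) (fun _ _ _ _ => rfl) (fun _ _ _ _ => rfl) (fun j _ => hp0 j)
    (fun j _ => hSV j) (fun j _ => h1 j) (fun j _ => h2 j) h3 G hG B hB0 hB
  have hcard : ((univ.erase T0 : Finset (Fin N → Bool)).card : ℝ) ≤ 2 ^ N := by
    have : (univ.erase T0 : Finset (Fin N → Bool)).card ≤ (univ : Finset (Fin N → Bool)).card :=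
      card_le_card (erase_subset _ _)
    calc ((univ.erase T0 : Finset (Fin N → Bool)).card : ℝ)
        ≤ ((univ : Finset (Fin N → Bool)).card : ℝ) := by exact_mod_cast this
      _ = 2 ^ N := by simp
  rw [itL_split N L L0 L1 V hV hL hL0 hL1 hs G hG, ← add_sum_erase _ _ (mem_univ T0), e0]
  calc ‖itL N L0 G + ∑ T ∈ univ.erase T0, itL N (sel L0 L1 T) G -
        itL N (fun j => .path (P j)) G‖
      = ‖(itL N L0 G - itL N (fun j => .path (P j)) G) +
        ∑ T ∈ univ.erase T0, itL N (sel L0 L1 T) G‖ := by congr 1; ring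
    _ ≤ N * K ^ N * B + ∑ T ∈ univ.erase T0, ‖itL N (sel L0 L1 T) G‖ :=
        (norm_add_le _ _).trans (add_le_add h5 (norm_sum_le _ _))
    _ ≤ N * K ^ N * B + ∑ T ∈ univ.erase T0, K ^ N * B :=
        add_le_add le_rfl (sum_le_sum hT)
    _ = N * K ^ N * B + (univ.erase T0 : Finset (Fin N → Bool)).card * (K ^ N * B) := by
        rw [sum_const, nsmul_eq_mul]
    _ ≤ N * K ^ N * B + 2 ^ N * (K ^ N * B) :=
        add_le_add le_rfl (mul_le_mul_of_nonneg_right hcard (by positivity))
    _ = (N + 2 ^ N) * K ^ N * B := by ring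

/-! ### simple one variable bounds -/

theorem BoundL.mono {K K' : ℝ} {V S S' : Set ℂ} {L : Lam} {p p' : ℂ → ℝ}
    (h : BoundL K V L S p) (hK : K ≤ K') (hS : ∀ w ∈ S, w ∈ S' ∧ p w ≤ p' w) :
    BoundL K' V L S' p' := by
  intro g hg B hB hw
  refine (h g hg B hB fun w hw' => ?_).trans (mul_le_mul_of_nonneg_right hK hB)
  exact (mul_le_mul_of_nonneg_right (hS w hw').2 (norm_nonneg _)).trans (hw w (hS w hw').1)

theorem boundL_disc {K : ℝ} (V : Set ℂ) (A : Finset ℕ) (n : ℕ) (hK : (A.card : ℝ) ≤ K) :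
    BoundL K V (.disc A n) {w | ∃ y ∈ A, w = (y : ℂ) / n} (fun _ => 1) := by
  intro g _ B hB hw
  calc ‖(Lam.disc A n).ap g‖ ≤ ∑ y ∈ A, ‖g ((y : ℂ) / n)‖ := norm_sum_le _ _
    _ ≤ ∑ y ∈ A, B := sum_le_sum fun y hy => by
        simpa using hw _ ⟨y, hy, rfl⟩
    _ = A.card * B := by rw [sum_const, nsmul_eq_mul]
    _ ≤ K * B := mul_le_mul_of_nonneg_right hK hB

theorem boundL_path {K : ℝ} (V : Set ℂ) (P : PathW) (hK : ∫ x in P.a..P.b, ‖P.ω x‖ ≤ K) :
    BoundL K V (.path P) (P.γ '' Set.Icc P.a P.b) (fun _ => 1) := by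
  intro g _ B hB hw
  calc ‖(Lam.path P).ap g‖ ≤ ∫ x in P.a..P.b, B * ‖P.ω x‖ := by
        apply intervalIntegral.norm_integral_le_of_norm_le P.hab
        · refine Filter.Eventually.of_forall fun x hx => ?_
          rw [norm_mul]
          apply mul_le_mul_of_nonneg_right _ (norm_nonneg _)
          simpa using hw _ ⟨x, ⟨hx.1.le, hx.2⟩, rfl⟩
        · exact (P.int.norm).const_mul _
    _ = B * ∫ x in P.a..P.b, ‖P.ω x‖ := by rw [intervalIntegral.integral_const_mul]
    _ ≤ B * K := mul_le_mul_of_nonneg_left hK hB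
    _ = K * B := mul_comm _ _

theorem mainL_self (K : ℝ) (hK : 0 ≤ K) (V : Set ℂ) (P : PathW) :
    MainL K V (.path P) P ∅ (fun _ => 0) := by
  intro g _ B hB _
  simpa using mul_nonneg hK hB

theorem MainL.bound {K : ℝ} {V E S : Set ℂ} {L : Lam} {P : PathW} {q p : ℂ → ℝ}
    (h : MainL K V L P E q) (hK : ∫ x in P.a..P.b, ‖P.ω x‖ ≤ K)
    (hE : ∀ w ∈ E, w ∈ S ∧ q w ≤ p w) (hP : ∀ x ∈ Set.Icc P.a P.b, P.γ x ∈ S ∧ 1 ≤ p (P.γ x)) :
    BoundL (2 * K) V L S p := by
  intro g hg B hB hw
  have h1 := h g hg B hB (fun w hw' =>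
    (mul_le_mul_of_nonneg_right (hE w hw').2 (norm_nonneg _)).trans (hw w (hE w hw').1))
  have h2 := boundL_path V P hK g hg B hB (by
    rintro _ ⟨x, hx, rfl⟩
    exact (mul_le_mul_of_nonneg_right (hP x hx).2 (norm_nonneg _)).trans (hw _ (hP x hx).1))
  calc ‖L.ap g‖ = ‖(L.ap g - (Lam.path P).ap g) + (Lam.path P).ap g‖ := by rw [sub_add_cancel]
    _ ≤ K * B + K * B := (norm_add_le _ _).trans (add_le_add h1 h2)
    _ = 2 * K * B := by ring

end Pool.Agent.Work.MP_b30479_gt.G2
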