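import Pool.Agent.Work.MP_b30479_gt.G2.Graph
import Pool.Agent.Work.MP_b30479_gt.G2.TensorL

/-!
# One variable lemmas in the form `MainL`
-/

namespace Pool.Agent.Work.MP_b30479_gt.G2

open Finset MeasureTheory Filter Topology

/-- **The window**: sum over `A < k ≤ B` and integral along the path. -/
theorem window_graph {n A B : ℕ} (hAB : A < B) (hBn : B < n) {h hu hd c c' : ℝ} (hc : 0 < c)
    (hc' : 0 < c') (hu0 : 0 < hu) (hd0 : 0 < hd) {κ : ℝ} (hκ : 0 < κ)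
    (k1 : κ * c ≤ hu) (k2 : κ * c' ≤ hu) (k3 : κ * (1 / (4 * (n : ℝ))) ≤ hu)
    (k4 : κ * c ≤ hd) (k5 : κ * c' ≤ hd) (k6 : κ * (1 / (4 * (n : ℝ))) ≤ hd) {L : ℝ}
    (l1 : hu / c ≤ L) (l2 : hu / c' ≤ L) (l3 : hd / c ≤ L) (l4 : hd / c' ≤ L) {U : Set ℂ}
    (hU : ∀ w : ℂ, ((A : ℝ) + 1 / 2) / n ≤ w.re → w.re ≤ ((B : ℝ) + 1 / 2) / n → U ∈ 𝓝 w)
    {g : ℂ → ℂ} (hg : DifferentiableOn ℂ g U) {M : ℝ} (hM0 : 0 ≤ M)
    (hM : ∀ x : ℝ, ((A : ℝ) + 1 / 2) / n ≤ x → x ≤ ((B : ℝ) + 1 / 2) / n → ∀ s, s = hu ∨ s = -hd →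
      gq n (pt (((A : ℝ) + 1 / 2) / n) (((B : ℝ) + 1 / 2) / n) c c' s x) *
        ‖g (pt (((A : ℝ) + 1 / 2) / n) (((B : ℝ) + 1 / 2) / n) c c' s x)‖ ≤ M) :
    ‖∑ k ∈ Finset.Ioc A B, g ((k : ℂ) / n) -
      ∫ x in (gP n A B h c c' hAB.le hc hc').a..(gP n A B h c c' hAB.le hc hc').b,
        g ((gP n A B h c c' hAB.le hc hc').γ x) * (gP n A B h c c' hAB.le hc hc').ω x‖ ≤
      2 * (1 + L) / (1 - Real.exp (-(Real.pi * κ / 2))) * n * M := by
  have hn : 0 < n := (Nat.zero_le B).trans_lt hBn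
  have hn0 : (0 : ℝ) < n := by exact_mod_cast hn
  have hL0 : 0 ≤ L := le_trans (by positivity) l1
  have hden : 0 < 1 - Real.exp (-(Real.pi * κ / 2)) := by
    have : Real.exp (-(Real.pi * κ / 2)) < 1 := by
      rw [Real.exp_lt_one_iff]
      have := Real.pi_pos
      have : 0 < Real.pi * κ / 2 := by positivity
      linarith
    linarith
  have hBA : ((B - A : ℕ) : ℝ) = (B : ℝ) - A := by rw [Nat.cast_sub hAB.le]
  have eA : ((((A : ℤ) + 1 : ℤ) : ℝ) - 1 / 2) / n = ((A : ℝ) + 1 / 2) / n := by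
    push_cast
    ring
  have eB : ((((A : ℤ) + 1 : ℤ) : ℝ) + ((B - A : ℕ) : ℝ) - 1 / 2) / n = ((B : ℝ) + 1 / 2) / n := by
    rw [hBA]
    push_cast
    ring
  set a : ℝ := ((A : ℝ) + 1 / 2) / n with ha
  set b : ℝ := ((B : ℝ) + 1 / 2) / n with hb
  have hmode : ∀ s : ℝ, (s = hu ∨ s = -hd) → ∀ x, a ≤ x → x ≤ b →
      Real.exp (-(2 * Real.pi * n * |s * VC.trap a b c c' x|)) *
        ‖g (VC.gpt (fun x => s * VC.trap a b c c' x) x)‖ ≤ M := by
    intro s hs x hx hx'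
    have h1 := hM x hx hx' s hs
    unfold gq at h1
    rw [pt_im] at h1
    exact h1
  have key := VC.norm_sum_sub_le hn ((A : ℤ) + 1) (N := B - A) (by omega) (g := g)
    (by
      rw [eA, eB]
      intro w hw
      exact (hg w (mem_of_mem_nhds (hU w hw.1 hw.2))).differentiableAt (hU w hw.1 hw.2))
    (h := fun x => h * VC.trap a b c c' x) (h' := fun x => h * deriv (VC.trap a b c c') x)
    (p := fun x => hu * VC.trap a b c c' x) (p' := fun x => hu * deriv (VC.trap a b c c') x)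
    (q := fun x => hd * VC.trap a b c c' x) (q' := fun x => hd * deriv (VC.trap a b c c') x)
    (by rw [eA, eB]; exact VC.graphD_trap hc hc' h le_rfl le_rfl)
    (by rw [eA, eB]; exact VC.graphD_trap hc hc' hu le_rfl le_rfl)
    (by rw [eA, eB]; exact VC.graphD_trap hc hc' hd le_rfl le_rfl)
    (by rw [eA, eB]; exact fun x hx => mul_pos hu0 (VC.trap_pos hc hc' hx.1 hx.2))
    (by rw [eA, eB]; exact fun x hx => mul_pos hd0 (VC.trap_pos hc hc' hx.1 hx.2)) hκ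
    (by rw [eA, eB]; exact trap_ge2 hc hc' hu0.le k1 k2 k3 hκ.le)
    (by rw [eA, eB]; exact trap_ge2 hc hc' hd0.le k4 k5 k6 hκ.le)
    (L := L) (slope_le hc hc' (by rwa [abs_of_pos hu0]) (by rwa [abs_of_pos hu0]))
    (slope_le hc hc' (by rwa [abs_of_pos hd0]) (by rwa [abs_of_pos hd0])) (M := M)
    (by
      rw [eA, eB]
      intro x hx hx'
      have h1 := hmode hu (Or.inl rfl) x hx hx'
      rw [abs_of_nonneg (mul_nonneg hu0.le (VC.trap_nonneg _ _ _ _ _))] at h1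
      convert h1 using 3
      ring)
    (by
      rw [eA, eB]
      intro x hx hx'
      have h1 := hmode (-hd) (Or.inr rfl) x hx hx'
      have h2 : (fun x => -hd * VC.trap a b c c' x) = fun x => -(hd * VC.trap a b c c' x) := by
        funext x
        ring
      rw [h2, neg_mul, abs_neg, abs_of_nonneg (mul_nonneg hd0.le (VC.trap_nonneg _ _ _ _ _))] at h1
      convert h1 using 3
      ring)
  rw [eA, eB] at key
  have hsum : ∑ j ∈ Finset.range (B - A), g (((((A : ℤ) + 1 : ℤ) : ℂ) + j) / n) =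
      ∑ k ∈ Finset.Ioc A B, g ((k : ℂ) / n) := by
    have h1 : Finset.Ioc A B = Finset.Ico (A + 1) (B + 1) := by
      ext k
      simp only [Finset.mem_Ioc, Finset.mem_Ico]
      omega
    rw [h1, Finset.sum_Ico_eq_sum_range]
    have : B + 1 - (A + 1) = B - A := by omega
    rw [this]
    refine Finset.sum_congr rfl fun k _ => ?_
    push_cast
    rfl
  rw [hsum] at key
  have hint : (∫ x in (gP n A B h c c' hAB.le hc hc').a..(gP n A B h c c' hAB.le hc hc').b,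
      g ((gP n A B h c c' hAB.le hc hc').γ x) * (gP n A B h c c' hAB.le hc hc').ω x) =
      n * ∫ x : ℝ in a..b, g (VC.gpt (fun x => h * VC.trap a b c c' x) x) *
        (1 + ((h * deriv (VC.trap a b c c') x : ℝ) : ℂ) * Complex.I) := by
    rw [← intervalIntegral.integral_const_mul]
    refine intervalIntegral.integral_congr fun x _ => ?_
    show g (pt a b c c' h x) * (n * (1 + ((h * deriv (tr a b c c') x : ℝ) : ℂ) * Complex.I)) = _
    rw [pt_eq]
    have e1 : deriv (tr a b c c') x = deriv (VC.trap a b c c') x := rfl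
    rw [e1]
    simp only [tr_eq]
    ring
  rw [hint]
  refine key.trans ?_
  rw [hBA]
  have h7 : ((B : ℝ) - A) ≤ n := by
    have h1 : (B : ℝ) < n := by exact_mod_cast hBn
    have h2 : (0 : ℝ) ≤ A := Nat.cast_nonneg A
    linarith
  have h6 : 2 * ((B : ℝ) - A) * (1 + L) / (1 - Real.exp (-(Real.pi * κ / 2))) * M =
      ((B : ℝ) - A) * (2 * (1 + L) / (1 - Real.exp (-(Real.pi * κ / 2))) * M) := by ring
  rw [h6]
  calc ((B : ℝ) - A) * (2 * (1 + L) / (1 - Real.exp (-(Real.pi * κ / 2))) * M) ≤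
      n * (2 * (1 + L) / (1 - Real.exp (-(Real.pi * κ / 2))) * M) :=
        mul_le_mul_of_nonneg_right h7 (by positivity)
    _ = _ := by ring

/-- the error set of a finset of lattice points: mode paths of the window and lattice points of the
finset outside the window -/
def gEL (n A B : ℕ) (F : Finset ℕ) (hu hd c c' : ℝ) : Set ℂ :=
  {w | ∃ x : ℝ, ((A : ℝ) + 1 / 2) / n ≤ x ∧ x ≤ ((B : ℝ) + 1 / 2) / n ∧
    (w = pt (((A : ℝ) + 1 / 2) / n) (((B : ℝ) + 1 / 2) / n) c c' hu x ∨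
      w = pt (((A : ℝ) + 1 / 2) / n) (((B : ℝ) + 1 / 2) / n) c c' (-hd) x)} ∪
  {w | ∃ k ∈ F, (k ≤ A ∨ B < k) ∧ w = (k : ℂ) / n}

/-- **One discrete variable over a finset of lattice points containing the window.** -/
theorem mainL_graph {n A B : ℕ} (hAB : A < B) (hBn : B < n) {F : Finset ℕ}
    (hF : Finset.Ioc A B ⊆ F) {h hu hd c c' : ℝ} (hc : 0 < c)
    (hc' : 0 < c') (hu0 : 0 < hu) (hd0 : 0 < hd) {κ : ℝ} (hκ : 0 < κ)
    (k1 : κ * c ≤ hu) (k2 : κ * c' ≤ hu) (k3 : κ * (1 / (4 * (n : ℝ))) ≤ hu)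
    (k4 : κ * c ≤ hd) (k5 : κ * c' ≤ hd) (k6 : κ * (1 / (4 * (n : ℝ))) ≤ hd) {L : ℝ}
    (l1 : hu / c ≤ L) (l2 : hu / c' ≤ L) (l3 : hd / c ≤ L) (l4 : hd / c' ≤ L) {V : Set ℂ}
    (hV : ∀ w : ℂ, ((A : ℝ) + 1 / 2) / n ≤ w.re → w.re ≤ ((B : ℝ) + 1 / 2) / n → V ∈ 𝓝 w) :
    MainL (2 * (1 + L) / (1 - Real.exp (-(Real.pi * κ / 2))) * n + F.card) V (.disc F n)
      (gP n A B h c c' hAB.le hc hc') (gEL n A B F hu hd c c') (gq n) := by
  intro g hg M hM0 hM
  have key := window_graph (h := h) hAB hBn hc hc' hu0 hd0 hκ k1 k2 k3 k4 k5 k6 l1 l2 l3 l4 hV hg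
    hM0 (by
      intro x hx hx' s hs
      refine hM _ (Or.inl ⟨x, hx, hx', ?_⟩)
      rcases hs with e | e
      · left; rw [e]
      · right; rw [e])
  have hsplit : ∑ k ∈ F, g ((k : ℂ) / n) = ∑ k ∈ Finset.Ioc A B, g ((k : ℂ) / n) +
      ∑ k ∈ F \ Finset.Ioc A B, g ((k : ℂ) / n) := by
    rw [add_comm, Finset.sum_sdiff hF]
  have htail : ‖∑ k ∈ F \ Finset.Ioc A B, g ((k : ℂ) / n)‖ ≤ F.card * M := by
    have h3 : ‖∑ k ∈ F \ Finset.Ioc A B, g ((k : ℂ) / n)‖ ≤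
        ∑ k ∈ F \ Finset.Ioc A B, M := by
      refine norm_sum_le_of_le _ fun k hk => ?_
      rw [Finset.mem_sdiff, Finset.mem_Ioc] at hk
      have h4 := hM ((k : ℂ) / n) (Or.inr ⟨k, hk.1, by omega, rfl⟩)
      have h5 : ((k : ℂ) / n) = (((k : ℝ) / n : ℝ) : ℂ) := by push_cast; rfl
      rw [h5, gq_real, one_mul, ← h5] at h4
      exact h4
    rw [Finset.sum_const, nsmul_eq_mul] at h3
    refine h3.trans (mul_le_mul_of_nonneg_right ?_ hM0)
    exact_mod_cast Finset.card_le_card Finset.sdiff_subset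
  show ‖∑ k ∈ F, g ((k : ℂ) / n) - ∫ x in (gP n A B h c c' hAB.le hc hc').a..(gP n A B h c c'
    hAB.le hc hc').b, g ((gP n A B h c c' hAB.le hc hc').γ x) *
      (gP n A B h c c' hAB.le hc hc').ω x‖ ≤ _
  rw [hsplit]
  have h5 : ∀ u v w : ℂ, u + v - w = (u - w) + v := fun u v w => by ring
  rw [h5]
  refine (norm_add_le _ _).trans ((add_le_add key htail).trans ?_)
  linarith

/-- **A continuous variable**: contour shift from the real interval to a trapezoidal path. -/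
theorem zeta_graph {g : ℂ → ℂ} {a b : ℝ} (hab : a ≤ b) {V : Set ℂ}
    (hV : ∀ w : ℂ, a ≤ w.re → w.re ≤ b → V ∈ 𝓝 w) (hg : DifferentiableOn ℂ g V) {h c c' : ℝ}
    (hc : 0 < c) (hc' : 0 < c') :
    ∫ x : ℝ in a..b, g x = ∫ x : ℝ in a..b, g (pt a b c c' h x) *
      (1 + ((h * deriv (tr a b c c') x : ℝ) : ℂ) * Complex.I) :=
  VC.integral_graph hab (fun w hw => (hg w (mem_of_mem_nhds
    (hV w hw.1 hw.2))).differentiableAt (hV w hw.1 hw.2))
    (VC.graphD_trap hc hc' h le_rfl le_rfl)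

end Pool.Agent.Work.MP_b30479_gt.G2
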