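import Pool.Agent.Work.MP_b30479_gt.G2.Compact
import Pool.Agent.Work.MP_b30479_gt.G2.GraphL

/-!
# Coordinates of error points of level `n` are near coordinates of admissible points
-/

namespace Pool.Agent.Work.MP_b30479_gt.G2

open Finset VOL MeasureTheory Filter Topology

variable {D : Type} [Fintype D] [DecidableEq D]

theorem pt_at_zero {X c c' t : ℝ} : pt 0 X c c' t 0 = 0 := by
  unfold pt tr
  have h1 : min (1 : ℝ) (min ((0 - 0) / c) ((X - 0) / c')) ≤ 0 :=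
    (min_le_right _ _).trans ((min_le_left _ _).trans (by simp))
  rw [max_eq_left h1]
  simp

theorem pt_at_end {X c c' t : ℝ} : pt 0 X c c' t X = (X : ℂ) := by
  unfold pt tr
  have h1 : min (1 : ℝ) (min ((X - 0) / c) ((X - X) / c')) ≤ 0 :=
    (min_le_right _ _).trans ((min_le_right _ _).trans (by simp))
  rw [max_eq_left h1]
  simp

/-- outside the flat part or height one -/
theorem tr_flat {X c c' x : ℝ} (hc : 0 < c) (hc' : 0 < c') (h1 : c ≤ x) (h2 : x ≤ X - c') :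
    tr 0 X c c' x = 1 := by
  unfold tr
  have h3 : (1 : ℝ) ≤ (x - 0) / c := by rw [le_div_iff₀ hc]; linarith only [h1]
  have h4 : (1 : ℝ) ≤ (X - x) / c' := by rw [le_div_iff₀ hc']; linarith only [h2]
  rw [min_eq_left (le_min h3 h4), max_eq_right zero_le_one]

/-- the lattice points of the core -/
noncomputable def cor (P : Par D) (n : ℕ) (i : D) : Finset ℕ :=
  (range n).filter fun k => ((k : ℝ) ≤ P.XM i * n)

omit [Fintype D] [DecidableEq D] in
theorem mem_cor {P : Par D} {n : ℕ} {i : D} {k : ℕ} :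
    k ∈ cor P n i ↔ k < n ∧ (k : ℝ) ≤ P.XM i * n := by
  unfold cor
  rw [mem_filter, mem_range]

omit [Fintype D] [DecidableEq D] in
theorem Ioc_subset_cor {P : Par D} {n : ℕ} {i : D} (hX : 0 ≤ P.XM i) (hn : 2 ≤ n) :
    Ioc 0 (P.m n i) ⊆ cor P n i := by
  intro k hk
  rw [mem_Ioc] at hk
  rw [mem_cor]
  have h1 : k ≤ n - 2 := hk.2.trans (min_le_right _ _)
  have h2 : k ≤ ⌊P.XM i * n⌋₊ := hk.2.trans (min_le_left _ _)
  refine ⟨by omega, ?_⟩
  exact (Nat.cast_le.mpr h2).trans (Nat.floor_le (by positivity))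

/-- points of the error set of one coordinate -/
theorem coord_err {P : Par D} {i : D}
    (hX : 0 < P.XM i ∧ P.XM i ≤ 1 ∧ 0 < P.cl i ∧ 0 < P.cr i ∧ P.cl i + P.cr i < P.XM i ∧
      0 < P.hu i ∧ 0 < P.hd i) {z0 : ℂ} (h0 : P.cl i < z0.re ∧ z0.re < P.XM i - P.cr i) :
    ∃ r : ℝ, 0 < r ∧ ∀ η : ℝ, 0 < η → ∀ᶠ n : ℕ in atTop, ∀ w ∈ gEL n 0 (P.m n i) (cor P n i)
      (P.hu i) (P.hd i) (P.cl i) (P.cr i), ∃ (z : ℂ) (p : ℝ), P.On z0.im i z p ∧ ‖w - z‖ ≤ η ∧
        |(|w.im|) - p| ≤ η ∧ (r ≤ ‖z - z0‖ ∨ r ≤ |p|) := by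
  obtain ⟨hX0, hX1, hcl, hcr, hcc, hhu, hhd⟩ := hX
  obtain ⟨C, hC⟩ := On_near (P := P) (i := i) ⟨hX0, hX1, hcl, hcr⟩
  set r := min (min (P.hu i) (P.hd i)) (min (z0.re - P.cl i) (P.XM i - P.cr i - z0.re)) with hr
  have hr0 : 0 < r := by
    rw [hr]
    refine lt_min (lt_min hhu hhd) (lt_min ?_ ?_) <;> linarith only [h0, h0.1, h0.2]
  have r1 : r ≤ P.hu i := (min_le_left _ _).trans (min_le_left _ _)
  have r2 : r ≤ P.hd i := (min_le_left _ _).trans (min_le_right _ _)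
  have r3 : r ≤ z0.re - P.cl i := (min_le_right _ _).trans (min_le_left _ _)
  have r4 : r ≤ P.XM i - P.cr i - z0.re := (min_le_right _ _).trans (min_le_right _ _)
  have hre : ∀ z : ℂ, (z.re ≤ P.cl i ∨ P.XM i - P.cr i ≤ z.re) → r ≤ ‖z - z0‖ := by
    intro z hz
    have h1 := Complex.abs_re_le_norm (z - z0)
    rw [Complex.sub_re] at h1
    refine le_trans ?_ h1
    rcases hz with h | h
    · rw [abs_sub_comm]
      exact le_trans (by linarith only [r3, h]) (le_abs_self _)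
    · exact le_trans (by linarith only [r4, h]) (le_abs_self _)
  refine ⟨r, hr0, ?_⟩
  intro η hη
  set M := |C| * (1 + max |P.hu i| |P.hd i|) * (1 + max |P.hu i| |P.hd i|) + 1 with hM
  have hM0 : 0 < M := by positivity
  have hev : ∀ᶠ n : ℕ in atTop, M / (n : ℝ) < η :=
    (tendsto_natCast_atTop_atTop.const_div_atTop M).eventually_lt_const hη
  filter_upwards [hev, eventually_ge_atTop 8] with n hn1 hn8
  have hn0 : (0 : ℝ) < n := by
    have : 0 < n := by omega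
    exact_mod_cast this
  have h1n : 1 / (n : ℝ) ≤ η := by
    refine le_trans ?_ hn1.le
    apply div_le_div_of_nonneg_right _ hn0.le
    have : 0 ≤ |C| * (1 + max |P.hu i| |P.hd i|) * (1 + max |P.hu i| |P.hd i|) := by positivity
    linarith only [this]
  -- mode paths
  have hmode : ∀ t : ℝ, |t| ≤ max |P.hu i| |P.hd i| → ∀ x, ea n ≤ x → x ≤ P.eb n i →
      ∃ x' : ℝ, 0 ≤ x' ∧ x' ≤ P.XM i ∧
        ‖P.ga n t i x - pt 0 (P.XM i) (P.cl i) (P.cr i) t x'‖ ≤ η ∧
        |(|(P.ga n t i x).im|) - |t| * tr 0 (P.XM i) (P.cl i) (P.cr i) x'| ≤ η := by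
    intro t ht x hx hx'
    obtain ⟨x', h1, h2, h3, h4⟩ := hC n t x hn8 hx hx'
    have hmx : (0 : ℝ) ≤ max |P.hu i| |P.hd i| := le_max_of_le_left (abs_nonneg _)
    refine ⟨x', h1, h2, h3.trans ?_, ?_⟩
    · refine le_trans ?_ hn1.le
      apply div_le_div_of_nonneg_right _ hn0.le
      have e1 : C * (1 + |t|) ≤ |C| * (1 + max |P.hu i| |P.hd i|) :=
        mul_le_mul (le_abs_self C) (by linarith only [ht]) (by positivity) (abs_nonneg _)
      have e2 : |C| * (1 + max |P.hu i| |P.hd i|) * 1 ≤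
          |C| * (1 + max |P.hu i| |P.hd i|) * (1 + max |P.hu i| |P.hd i|) :=
        mul_le_mul_of_nonneg_left (by linarith only [hmx]) (by positivity)
      linarith only [h0, hX1, hcl, hcr, e1, e2]
    · have e0 : (P.ga n t i x).im = t * tr (ea n) (P.eb n i) (P.cl i) (P.cr i) x := pt_im _ _ _ _ _ _
      rw [e0, abs_mul, abs_of_nonneg (tr_nonneg _ _ _ _ _), ← mul_sub, abs_mul, abs_abs]
      refine (mul_le_mul ht h4 (abs_nonneg _) hmx).trans ?_
      refine le_trans ?_ hn1.le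
      rw [mul_div_assoc']
      apply div_le_div_of_nonneg_right _ hn0.le
      have e1 : max |P.hu i| |P.hd i| * C ≤ max |P.hu i| |P.hd i| * |C| :=
        mul_le_mul_of_nonneg_left (le_abs_self C) hmx
      have e2 : 0 ≤ |C| * (max |P.hu i| |P.hd i|) := by positivity
      have e3 : 0 ≤ |C| := abs_nonneg C
      have e4 : 0 ≤ |C| * (max |P.hu i| |P.hd i|) ^ 2 := by positivity
      have e5 : M = |C| + 2 * (|C| * max |P.hu i| |P.hd i|) +
        |C| * (max |P.hu i| |P.hd i|) ^ 2 + 1 := by rw [hM]; ring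
      linarith only [h0, hX1, hcl, hcr, e1, e2, e3, e4]
  intro w hw
  rcases hw with ⟨x, hx, hx', hw | hw⟩ | ⟨k, hk, hk', hw⟩
  · obtain ⟨x', h1, h2, h3, h4⟩ := hmode (P.hu i) (le_max_left _ _) x hx hx'
    have ew : w = P.ga n (P.hu i) i x := hw
    rw [← ew, abs_of_pos hhu] at h4
    rw [← ew] at h3
    refine ⟨_, P.hu i * tr 0 (P.XM i) (P.cl i) (P.cr i) x', ⟨x', h1, h2, Or.inr (Or.inl ⟨rfl, rfl⟩)⟩,
      h3, h4, ?_⟩
    by_cases hfl : P.cl i ≤ x' ∧ x' ≤ P.XM i - P.cr i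
    · right
      rw [tr_flat hcl hcr hfl.1 hfl.2, mul_one, abs_of_pos hhu]
      exact r1
    · left
      apply hre
      rw [pt_re]
      by_contra hcon
      push Not at hcon
      exact hfl ⟨hcon.1.le, hcon.2.le⟩
  · obtain ⟨x', h1, h2, h3, h4⟩ := hmode (-P.hd i) (by rw [abs_neg]; exact le_max_right _ _) x hx hx'
    have ew : w = P.ga n (-P.hd i) i x := hw
    rw [← ew, abs_neg, abs_of_pos hhd] at h4
    rw [← ew] at h3
    refine ⟨_, P.hd i * tr 0 (P.XM i) (P.cl i) (P.cr i) x', ⟨x', h1, h2, Or.inr (Or.inr ⟨rfl, rfl⟩)⟩,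
      h3, h4, ?_⟩
    by_cases hfl : P.cl i ≤ x' ∧ x' ≤ P.XM i - P.cr i
    · right
      rw [tr_flat hcl hcr hfl.1 hfl.2, mul_one, abs_of_pos hhd]
      exact r2
    · left
      apply hre
      rw [pt_re]
      by_contra hcon
      push Not at hcon
      exact hfl ⟨hcon.1.le, hcon.2.le⟩
  · rw [mem_cor] at hk
    rcases hk' with hk' | hk'
    · have hk0 : k = 0 := by omega
      subst hk0
      have hw0 : w = 0 := by rw [hw]; simp
      subst hw0
      refine ⟨0, 0, ⟨0, le_rfl, hX0.le, Or.inl ⟨pt_at_zero.symm, rfl⟩⟩, by simpa using hη.le,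
        by simpa using hη.le, Or.inl (hre _ (Or.inl ?_))⟩
      simpa using hcl.le
    · -- the point `(n - 1) / n`
      have h2 : k ≤ ⌊P.XM i * n⌋₊ := Nat.le_floor hk.2
      have h3 : n - 2 < k := by
        by_contra hcon
        push Not at hcon
        exact absurd (le_min h2 hcon) (not_le.mpr hk')
      have h4 : k = n - 1 := by omega
      have h5 : (k : ℝ) = n - 1 := by
        rw [h4, Nat.cast_sub (by omega)]
        simp
      have h6 : 1 - 1 / (n : ℝ) ≤ P.XM i := by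
        rw [← mul_le_mul_iff_left₀ hn0]
        have : (1 - 1 / (n : ℝ)) * n = n - 1 := by field_simp
        rw [this, ← h5]
        exact hk.2
      have hwr : w = ((1 - 1 / (n : ℝ) : ℝ) : ℂ) := by
        rw [hw]
        have : (k : ℂ) = ((k : ℝ) : ℂ) := by simp
        have hnc : (n : ℂ) ≠ 0 := by exact_mod_cast hn0.ne'
        rw [this, h5]
        push_cast
        rw [sub_div, div_self hnc]
      refine ⟨(P.XM i : ℂ), 0, ⟨P.XM i, hX0.le, le_rfl, Or.inl ⟨pt_at_end.symm, rfl⟩⟩, ?_, ?_,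
        Or.inl (hre _ (Or.inr ?_))⟩
      · rw [hwr, ← Complex.ofReal_sub, Complex.norm_real, Real.norm_eq_abs, abs_le]
        constructor <;> linarith only [hX1, h1n, hη, h6]
      · rw [hwr, Complex.ofReal_im]
        simpa using hη.le
      · simp only [Complex.ofReal_re]
        linarith only [hcr]

/-- points of the main path of one coordinate -/
theorem coord_main {P : Par D} {i : D}
    (hX : 0 < P.XM i ∧ P.XM i ≤ 1 ∧ 0 < P.cl i ∧ 0 < P.cr i ∧ P.cl i + P.cr i < P.XM i ∧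
      0 < P.hu i ∧ 0 < P.hd i) (t : ℝ) {η : ℝ} (hη : 0 < η) :
    ∀ᶠ n : ℕ in atTop, ∀ x, ea n ≤ x → x ≤ P.eb n i → ∃ z : ℂ, P.On t i z 0 ∧
      ‖P.ga n t i x - z‖ ≤ η := by
  obtain ⟨hX0, hX1, hcl, hcr, hcc, hhu, hhd⟩ := hX
  obtain ⟨C, hC⟩ := On_near (P := P) (i := i) ⟨hX0, hX1, hcl, hcr⟩
  have hev : ∀ᶠ n : ℕ in atTop, C * (1 + |t|) / (n : ℝ) < η :=
    (tendsto_natCast_atTop_atTop.const_div_atTop _).eventually_lt_const hη
  filter_upwards [hev, eventually_ge_atTop 8] with n hn1 hn8 x hx hx'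
  obtain ⟨x', h1, h2, h3, h4⟩ := hC n t x hn8 hx hx'
  exact ⟨_, ⟨x', h1, h2, Or.inl ⟨rfl, rfl⟩⟩, h3.trans hn1.le⟩

end Pool.Agent.Work.MP_b30479_gt.G2
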