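import Pool.Agent.Work.MP_b30479_gt.G2.ErrA
import Pool.Agent.Work.MP_b30479_gt.G2.CoreL
import Pool.Agent.Work.MP_b30479_gt.G2.GHol

/-!
# Splitting of the state sum into core and tails
-/

namespace Pool.Agent.Work.MP_b30479_gt.G2

open Finset VOL MeasureTheory Filter Topology

/-! ### exponentially small sequences -/

/-- `a s` is exponentially smaller than `exp (n T)` -/
def Small (T : ℝ) (a : ℕ → ℝ) : Prop :=
  ∃ C k δ : ℝ, 0 < δ ∧ ∀ᶠ s : ℕ in atTop, a s ≤ C * nn s ^ k * Real.exp (nn s * (T - δ))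

theorem one_le_nn (s : ℕ) : 1 ≤ nn s := by
  unfold nn
  push_cast
  have : (0 : ℝ) ≤ s := Nat.cast_nonneg s
  linarith

theorem Small.mono {T : ℝ} {a b : ℕ → ℝ} (h : Small T a) (hb : ∀ᶠ s in atTop, b s ≤ a s) :
    Small T b := by
  obtain ⟨C, k, δ, hδ, h1⟩ := h
  exact ⟨C, k, δ, hδ, by filter_upwards [h1, hb] with s h2 h3 using h3.trans h2⟩

theorem Small.zero (T : ℝ) : Small T fun _ => 0 :=
  ⟨0, 0, 1, one_pos, Eventually.of_forall fun s => by simp⟩

theorem bound_le {T C C' k k' δ δ' : ℝ} (hC : C ≤ C') (hC' : 0 ≤ C') (hk : k ≤ k') (hδ : δ' ≤ δ)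
    (s : ℕ) : C * nn s ^ k * Real.exp (nn s * (T - δ)) ≤
      C' * nn s ^ k' * Real.exp (nn s * (T - δ')) := by
  have h0 := nn_pos s
  have h1 := one_le_nn s
  have h2 : nn s ^ k ≤ nn s ^ k' := Real.rpow_le_rpow_of_exponent_le h1 hk
  have h3 : 0 ≤ nn s ^ k := (Real.rpow_pos_of_pos h0 _).le
  have h4 : Real.exp (nn s * (T - δ)) ≤ Real.exp (nn s * (T - δ')) := by
    apply Real.exp_le_exp.mpr
    apply mul_le_mul_of_nonneg_left _ h0.le
    linarith
  calc C * nn s ^ k * Real.exp (nn s * (T - δ))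
      ≤ C' * nn s ^ k * Real.exp (nn s * (T - δ)) := by gcongr
    _ ≤ C' * nn s ^ k' * Real.exp (nn s * (T - δ')) := by gcongr

theorem Small.add {T : ℝ} {a b : ℕ → ℝ} (ha : Small T a) (hb : Small T b) :
    Small T fun s => a s + b s := by
  obtain ⟨C, k, δ, hδ, h1⟩ := ha
  obtain ⟨C', k', δ', hδ', h2⟩ := hb
  refine ⟨|C| + |C'|, max k k', min δ δ', lt_min hδ hδ', ?_⟩
  filter_upwards [h1, h2] with s h3 h4
  have h5 := bound_le (T := T) (le_abs_self C) (abs_nonneg C) (le_max_left k k') (min_le_left δ δ') s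
  have h6 := bound_le (T := T) (le_abs_self C') (abs_nonneg C') (le_max_right k k')
    (min_le_right δ δ') s
  calc a s + b s ≤ |C| * nn s ^ max k k' * Real.exp (nn s * (T - min δ δ')) +
        |C'| * nn s ^ max k k' * Real.exp (nn s * (T - min δ δ')) :=
        add_le_add (h3.trans h5) (h4.trans h6)
    _ = _ := by ring

theorem Small.sum {ι : Type} (F : Finset ι) {T : ℝ} {a : ι → ℕ → ℝ} (h : ∀ i ∈ F, Small T (a i)) :
    Small T fun s => ∑ i ∈ F, a i s := by
  classical
  induction F using Finset.induction_on with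
  | empty => simpa using Small.zero T
  | insert i F hi ih =>
    simp only [sum_insert hi]
    exact (h i (mem_insert_self _ _)).add (ih fun j hj => h j (mem_insert_of_mem hj))

variable {D Z K : Type} [Fintype D] [Fintype Z] [Fintype K] [DecidableEq D]

/-- the point of the lattice point `y` and the parameters `σ` -/
noncomputable def lz (n : ℕ) (ρ : Z → ℝ) (y : D → ℕ) (σ : Z → ℝ) : D ⊕ Z → ℂ :=
  Sum.elim (fun i => (y i : ℂ) / n) fun v => LT.zt (ρ v) (σ v)

/-- the integrand at lattice points -/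
noncomputable def Dat.f (S : Dat D Z K) (n : ℕ) (ρ : Z → ℝ) (y : D → ℕ) (σ : Z → ℝ) : ℂ :=
  (∏ v, LT.EE n (S.b v) (ρ v) (σ v)) * S.G n (lz n ρ y σ)

omit [DecidableEq D] in
theorem errI_eq (S : Dat D Z K) (n : ℕ) (ρ : Z → ℝ) (y : D → Fin n) :
    S.I n ρ y = ∫ σ in LT.cube Z, S.f n ρ (fun i => (y i : ℕ)) σ := by
  unfold Dat.I Dat.f lz
  push_cast
  rfl

/-- the lattice points of the tail -/
noncomputable def tai (P : Par D) (n : ℕ) (i : D) : Finset ℕ :=
  (range n).filter fun k => (P.XM i * n < (k : ℝ))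

/-- the lattice points, `R` is the set of the coordinates in the tail -/
noncomputable def AR (P : Par D) (R : Finset D) (n : ℕ) (i : D) : Finset ℕ :=
  if i ∈ R then tai P n i else cor P n i

omit [Fintype D] in
theorem mem_AR {P : Par D} {R : Finset D} {n : ℕ} {i : D} {k : ℕ} :
    k ∈ AR P R n i ↔ k < n ∧ (i ∈ R ↔ P.XM i * n < (k : ℝ)) := by
  unfold AR tai cor
  split_ifs with h
  · simp [h]
  · simp [h, not_lt]

theorem sum_fin (n : ℕ) (F : (D → ℕ) → ℂ) :
    ∑ y : D → Fin n, F (fun i => (y i : ℕ)) = ∑ y ∈ Fintype.piFinset (fun _ : D => range n), F y := by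
  refine sum_bij' (fun y _ i => (y i : ℕ))
    (fun y hy i => (⟨y i, by simpa using (Fintype.mem_piFinset.mp hy) i⟩ : Fin n))
    ?_ ?_ ?_ ?_ ?_
  · intro y _
    rw [Fintype.mem_piFinset]
    intro i
    simp
  · intro y _
    exact mem_univ _
  · intro y _
    rfl
  · intro y _
    rfl
  · intro y _
    rfl

theorem sum_split (P : Par D) (n : ℕ) (F : (D → ℕ) → ℂ) :
    ∑ y ∈ Fintype.piFinset (fun _ : D => range n), F y =
      ∑ R : Finset D, ∑ y ∈ Fintype.piFinset (AR P R n), F y := by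
  classical
  rw [← sum_fiberwise (Fintype.piFinset (fun _ : D => range n))
    (fun y => univ.filter fun i => P.XM i * n < (y i : ℝ)) F]
  apply sum_congr rfl
  intro R _
  apply sum_congr _ fun _ _ => rfl
  ext y
  simp only [mem_filter, Fintype.mem_piFinset, mem_range, mem_AR, Finset.ext_iff, mem_univ,
    true_and]
  constructor
  · rintro ⟨h1, h2⟩ i
    exact ⟨h1 i, (h2 i).symm⟩
  · intro h
    exact ⟨fun i => (h i).1, fun i => (h i).2.symm⟩

/-- the state sum is the sum of the core and the tails -/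
theorem errSum_eq (S : Dat D Z K) (P : Par D) (n : ℕ) (ρ : Z → ℝ) :
    S.sum n ρ = ∑ R : Finset D, ∑ y ∈ Fintype.piFinset (AR P R n),
      ∫ σ in LT.cube Z, S.f n ρ y σ := by
  rw [← sum_split P n (fun y => ∫ σ in LT.cube Z, S.f n ρ y σ), ← sum_fin]
  unfold Dat.sum
  exact sum_congr rfl fun y _ => errI_eq S n ρ y

/-- the heights may be changed -/
theorem rho_eq {S : Dat D Z K} (hS : S.Ok) {P : Par D} {R : Finset D} {n : ℕ} (hn4 : 4 ≤ n)
    (hn : Odd n)
    {ρ ρ' : Z → ℝ} (h : ∀ v, 0 < ρ v) (h' : ∀ v, 0 < ρ' v) {y : D → ℕ}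
    (hy : y ∈ Fintype.piFinset (AR P R n)) :
    ∫ σ in LT.cube Z, S.f n ρ y σ = ∫ σ in LT.cube Z, S.f n ρ' y σ := by
  rw [Fintype.mem_piFinset] at hy
  have h1 := hS.rho n hn4 hn (fun i => ⟨y i, (mem_AR.mp (hy i)).1⟩) ρ ρ' h h'
  rw [errI_eq, errI_eq] at h1
  exact h1

/-! ### the open cube -/

/-- the open cube -/
def ocube (Z : Type) : Set (Z → ℝ) := Set.univ.pi fun _ => Set.Ioo (-(1 / 2)) (1 / 2)

omit [Fintype Z] in
theorem mem_ocube {σ : Z → ℝ} : σ ∈ ocube Z ↔ ∀ v, |σ v| < 1 / 2 := by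
  unfold ocube
  simp [Set.mem_pi, abs_lt]

theorem cube_ae : (ocube Z : Set (Z → ℝ)) =ᵐ[volume] LT.cube Z := by
  unfold ocube LT.cube
  have := Measure.univ_pi_Ioo_ae_eq_Icc (μ := fun _ : Z => (volume : Measure ℝ))
    (f := fun _ => -(1 / 2)) (g := fun _ => 1 / 2)
  rw [← Set.pi_univ_Icc, ← volume_pi] at this
  exact this

theorem volume_cube : volume.real (LT.cube Z) = 1 := by
  unfold LT.cube
  rw [Measure.real, volume_pi_pi]
  simp
  norm_num

theorem cube_ae_mem : ∀ᵐ σ ∂(volume.restrict (LT.cube Z)), σ ∈ ocube Z := by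
  rw [← Measure.restrict_congr_set (cube_ae (Z := Z))]
  have hm : MeasurableSet (ocube Z) := by
    unfold ocube
    exact MeasurableSet.univ_pi fun _ => measurableSet_Ioo
  exact ae_restrict_mem hm

theorem measurable_f (S : Dat D Z K) (n : ℕ) (ρ : Z → ℝ) (y : D → ℕ) :
    Measurable (S.f n ρ y) := by
  unfold Dat.f
  apply Measurable.mul
  · apply Finset.measurable_prod
    intro v _
    exact (LT.measurable_EE n (S.b v) (ρ v)).comp (measurable_pi_apply v)
  · apply (S.measurable_G n).comp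
    rw [measurable_pi_iff]
    intro i
    rcases i with i | v
    · exact measurable_const
    · exact (continuous_zt (ρ v)).measurable.comp (measurable_pi_apply v)

/-- norms of integrals over the cube -/
theorem norm_int_cube {g : (Z → ℝ) → ℂ} {B : ℝ} (h : ∀ σ ∈ ocube Z, ‖g σ‖ ≤ B) :
    ‖∫ σ in LT.cube Z, g σ‖ ≤ B := by
  have hB : (∫ _σ in LT.cube Z, B) = B := by
    rw [setIntegral_const, volume_cube, one_smul]
  have hfin : volume (LT.cube Z) < ⊤ := by
    unfold LT.cube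
    exact (isCompact_univ_pi fun _ => isCompact_Icc).measure_lt_top
  calc ‖∫ σ in LT.cube Z, g σ‖ ≤ ∫ _σ in LT.cube Z, B := by
        apply norm_integral_le_of_norm_le
        · exact integrableOn_const hfin.ne
        · filter_upwards [cube_ae_mem (Z := Z)] with σ hσ using h σ hσ
    _ = B := hB

theorem integrable_cube {g : (Z → ℝ) → ℂ} (hg : AEStronglyMeasurable g (volume.restrict (LT.cube Z)))
    {B : ℝ} (h : ∀ σ ∈ ocube Z, ‖g σ‖ ≤ B) : IntegrableOn g (LT.cube Z) := by
  have hfin : volume (LT.cube Z) < ⊤ := by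
    unfold LT.cube
    exact (isCompact_univ_pi fun _ => isCompact_Icc).measure_lt_top
  have : IsFiniteMeasure (volume.restrict (LT.cube Z)) := ⟨by simpa using hfin⟩
  apply Integrable.of_bound hg B
  filter_upwards [cube_ae_mem (Z := Z)] with σ hσ using h σ hσ

end Pool.Agent.Work.MP_b30479_gt.G2
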