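import Pool.Agent.Work.MP_b30479_gt.G2.ErrB
import Pool.Agent.Work.MP_b30479_gt.G2.Grow

/-!
# Error points of level `n` are near admissible points; growth of the integrand
-/

namespace Pool.Agent.Work.MP_b30479_gt.G2

open Finset VOL MeasureTheory Filter Topology

theorem exists_pos_le {ι : Type} [Finite ι] (r : ι → ℝ) (h : ∀ i, 0 < r i) :
    ∃ r0 : ℝ, 0 < r0 ∧ ∀ i, r0 ≤ r i := by
  rcases isEmpty_or_nonempty ι with h1 | h1
  · exact ⟨1, one_pos, fun i => (h1.false i).elim⟩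
  · obtain ⟨i0, hi0⟩ := Finite.exists_min r
    exact ⟨r i0, h i0, hi0⟩

variable {D Z K : Type} [Fintype D] [Fintype Z] [Fintype K] [DecidableEq D]

theorem zt_sub_real {ρ σ : ℝ} (hρ : 0 ≤ ρ) (hσ : |σ| ≤ 1 / 2) : ‖LT.zt ρ σ - (σ : ℂ)‖ ≤ ρ := by
  have h1 : LT.zt ρ σ - (σ : ℂ) = ((ρ * LT.th σ : ℝ) : ℂ) * Complex.I := by
    unfold LT.zt
    ring
  have h2 : 0 ≤ LT.th σ := by
    unfold LT.th
    exact le_min zero_le_one (by linarith)
  have h3 : LT.th σ ≤ 1 := min_le_left _ _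
  rw [h1, norm_mul, Complex.norm_I, mul_one, Complex.norm_real, Real.norm_eq_abs,
    abs_of_nonneg (mul_nonneg hρ h2)]
  exact mul_le_of_le_one_right hρ h3

theorem zt_re' (ρ σ : ℝ) : (LT.zt ρ σ).re = σ := by
  unfold LT.zt
  simp

theorem zt_im_le {ρ σ : ℝ} (hρ : 0 ≤ ρ) (hσ : |σ| ≤ 1 / 2) : |(LT.zt ρ σ).im| ≤ ρ := by
  have h1 := zt_sub_real hρ hσ
  have h2 := Complex.abs_im_le_norm (LT.zt ρ σ - (σ : ℂ))
  rw [Complex.sub_im, Complex.ofReal_im, sub_zero] at h2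
  exact h2.trans h1

/-- **Error points are near admissible points.** -/
theorem adm_point {S : Dat D Z K} {P : Par D}
    {nb : Finset D → Finset (D ⊕ Z)} {zs : D ⊕ Z → ℂ} (h : Sadl S P nb zs) (R : Finset D) :
    ∃ r : ℝ, 0 < r ∧ ∀ η : ℝ, 0 < η → ∀ ρ : Z → ℝ, (∀ v, 0 < ρ v) →
      (∀ v, .inr v ∈ nb R → ρ v ≤ η) → (∀ v, .inr v ∉ nb R → ρ v = (zs (.inr v)).im) →
      ∀ᶠ n : ℕ in atTop, ∀ σ ∈ ocube Z, ∀ (J : Finset D) (w : D → ℂ),
        (∀ i ∈ J, .inl i ∉ nb R → w i ∈ gEL n 0 (P.m n i) (cor P n i) (P.hu i) (P.hd i)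
          (P.cl i) (P.cr i)) →
        (∀ i ∉ J, .inl i ∉ nb R → ∃ x, ea n ≤ x ∧ x ≤ P.eb n i ∧
          w i = P.ga n (zs (.inl i)).im i x) →
        (∀ i, .inl i ∈ nb R → ∃ k ∈ AR P R n i, w i = (k : ℂ) / n) →
        (∀ k, (∀ v, S.A k (.inr v) = 0) → (∀ i, S.A k (.inl i) ≠ 0 → .inl i ∈ nb R) →
          (S.form k (Sum.elim w fun v => LT.zt (ρ v) (σ v))).re ≤ 1) →
        ∃ (z : D ⊕ Z → ℂ) (p : D → ℝ), Adm S P zs R (nb R) z p ∧
          (∀ i, ‖(Sum.elim w fun v => LT.zt (ρ v) (σ v) : D ⊕ Z → ℂ) i - z i‖ ≤ η) ∧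
          (∀ i, |(if i ∈ J then |(w i).im| else 0) - p i| ≤ η) ∧
          (∀ i ∈ J, .inl i ∉ nb R → r ≤ ‖z (.inl i) - zs (.inl i)‖ ∨ r ≤ |p i|) := by
  classical
  have hce := fun i => coord_err (P := P) (i := i) (h.par i) (h.flatD i)
  choose r hr0 hr using hce
  obtain ⟨r0, hr00, hr01⟩ := exists_pos_le r hr0
  refine ⟨r0, hr00, ?_⟩
  intro η hη ρ hρ hρ1 hρ2
  have h1 : ∀ᶠ n : ℕ in atTop, ∀ i, ∀ w ∈ gEL n 0 (P.m n i) (cor P n i)
      (P.hu i) (P.hd i) (P.cl i) (P.cr i), ∃ (z : ℂ) (p : ℝ), P.On (zs (.inl i)).im i z p ∧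
        ‖w - z‖ ≤ η ∧ |(|w.im|) - p| ≤ η ∧ (r i ≤ ‖z - zs (.inl i)‖ ∨ r i ≤ |p|) :=
    eventually_all.mpr fun i => hr i η hη
  have h2 : ∀ᶠ n : ℕ in atTop, ∀ i, ∀ x, ea n ≤ x → x ≤ P.eb n i → ∃ z : ℂ,
      P.On (zs (.inl i)).im i z 0 ∧ ‖P.ga n (zs (.inl i)).im i x - z‖ ≤ η :=
    eventually_all.mpr fun i => coord_main (h.par i) _ hη
  filter_upwards [h1, h2, eventually_ge_atTop 1] with n h3 h4 hn1 σ hσ J w hJ hJ' hnb hwall
  have hn0 : (0 : ℝ) < n := by exact_mod_cast hn1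
  rw [mem_ocube] at hσ
  -- the discrete coordinates
  have hc : ∀ i : D, ∃ (z : ℂ) (p : ℝ),
      (.inl i ∉ nb R → P.On (zs (.inl i)).im i z p) ∧
      (.inl i ∈ nb R → z = w i ∧ p = 0) ∧ ‖w i - z‖ ≤ η ∧
      |(if i ∈ J then |(w i).im| else 0) - p| ≤ η ∧
      (i ∈ J → .inl i ∉ nb R → r i ≤ ‖z - zs (.inl i)‖ ∨ r i ≤ |p|) := by
    intro i
    by_cases hi : (.inl i : D ⊕ Z) ∈ nb R
    · obtain ⟨k, hk, hwk⟩ := hnb i hi
      refine ⟨w i, 0, fun hc => absurd hi hc, fun _ => ⟨rfl, rfl⟩, by simpa using hη.le, ?_,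
        fun _ hc => absurd hi hc⟩
      have : (w i).im = 0 := by
        rw [hwk]
        have : ((k : ℂ) / n) = (((k : ℝ) / n : ℝ) : ℂ) := by push_cast; rfl
        rw [this, Complex.ofReal_im]
      rw [this]
      simpa using hη.le
    · by_cases hiJ : i ∈ J
      · obtain ⟨z, p, e1, e2, e3, e4⟩ := h3 i (w i) (hJ i hiJ hi)
        exact ⟨z, p, fun _ => e1, fun hc => absurd hc hi, e2, by rw [if_pos hiJ]; exact e3,
          fun _ _ => e4⟩
      · obtain ⟨x, hx, hx', hwx⟩ := hJ' i hiJ hi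
        obtain ⟨z, e1, e2⟩ := h4 i x hx hx'
        refine ⟨z, 0, fun _ => e1, fun hc => absurd hc hi, by rw [hwx]; exact e2, ?_,
          fun hc => absurd hc hiJ⟩
        rw [if_neg hiJ]
        simpa using hη.le
  choose zD p c1 c2 c3 c4 c5 using hc
  set zZ : Z → ℂ := fun v => if .inr v ∈ nb R then (σ v : ℂ) else LT.zt (zs (.inr v)).im (σ v)
    with hzZ
  refine ⟨Sum.elim zD zZ, p, ?_, ?_, c4, ?_⟩
  · constructor
    · -- tail
      intro i hi
      have hi' := h.nb_sup R i hi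
      obtain ⟨e1, e2⟩ := c2 i hi'
      obtain ⟨k, hk, hwk⟩ := hnb i hi'
      rw [mem_AR] at hk
      have hk2 := hk.2.mp hi
      have hz : (Sum.elim zD zZ : D ⊕ Z → ℂ) (.inl i) = (((k : ℝ) / n : ℝ) : ℂ) := by
        rw [Sum.elim_inl, e1, hwk]
        push_cast
        rfl
      rw [hz, Complex.ofReal_im, Complex.ofReal_re]
      refine ⟨rfl, ?_, ?_, e2⟩
      · rw [le_div_iff₀ hn0]
        exact hk2.le
      · rw [div_le_one hn0]
        exact_mod_cast hk.1.le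
    · -- real discrete coordinates
      intro i hi hi'
      obtain ⟨e1, e2⟩ := c2 i hi'
      obtain ⟨k, hk, hwk⟩ := hnb i hi'
      rw [mem_AR] at hk
      have hk2 : (k : ℝ) ≤ P.XM i * n := by
        by_contra hcon
        exact hi (hk.2.mpr (not_le.mp hcon))
      have hz : (Sum.elim zD zZ : D ⊕ Z → ℂ) (.inl i) = (((k : ℝ) / n : ℝ) : ℂ) := by
        rw [Sum.elim_inl, e1, hwk]
        push_cast
        rfl
      rw [hz, Complex.ofReal_im, Complex.ofReal_re]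
      refine ⟨rfl, by positivity, ?_, e2⟩
      rw [div_le_iff₀ hn0]
      exact hk2
    · -- real continuous coordinates
      intro v hv
      have hz : (Sum.elim zD zZ : D ⊕ Z → ℂ) (.inr v) = (σ v : ℂ) := by
        rw [Sum.elim_inr, hzZ]
        simp only [hv, if_true]
      rw [hz, Complex.ofReal_im, Complex.ofReal_re]
      exact ⟨rfl, (hσ v).le⟩
    · intro i hi
      rw [Sum.elim_inl]
      exact c1 i hi
    · intro v hv
      refine ⟨σ v, (hσ v).le, ?_⟩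
      rw [Sum.elim_inr, hzZ]
      simp only [hv, if_false]
    · -- walls
      intro k hk1 hk2
      have := hwall k hk1 hk2
      have he : S.form k (Sum.elim zD zZ) = S.form k (Sum.elim w fun v => LT.zt (ρ v) (σ v)) := by
        unfold Dat.form
        congr 1
        apply sum_congr rfl
        intro j _
        rcases j with i | v
        · by_cases hA : S.A k (.inl i) = 0
          · rw [hA]
            simp
          · rw [Sum.elim_inl, Sum.elim_inl, (c2 i (hk2 i hA)).1]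
        · rw [hk1 v]
          simp
      rw [he]
      exact this
  · intro j
    rcases j with i | v
    · rw [Sum.elim_inl, Sum.elim_inl]
      exact c3 i
    · rw [Sum.elim_inr, Sum.elim_inr, hzZ]
      by_cases hv : (.inr v : D ⊕ Z) ∈ nb R
      · simp only [hv, if_true]
        exact (zt_sub_real (hρ v).le (hσ v).le).trans (hρ1 v hv)
      · simp only [hv, if_false]
        rw [hρ2 v hv, sub_self, norm_zero]
        exact hη.le
  · intro i hi hi'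
    rcases c5 i hi hi' with h5 | h5
    · left
      rw [Sum.elim_inl]
      exact (hr01 i).trans h5
    · right
      exact (hr01 i).trans h5

/-- growth of the integrand -/
theorem f_growth {S : Dat D Z K} (hS : S.Ok) {Y : ℝ} (hY : 0 ≤ Y) {ρ : Z → ℝ} (hρ : ∀ v, 0 < ρ v)
    (hρY : ∀ v, ρ v ≤ Y) : ∃ (C : ℝ) (k : ℕ), 0 ≤ C ∧ ∀ (n : ℕ), 4 ≤ n → Odd n → ∀ σ ∈ ocube Z,
      ∀ w : D → ℂ, (∀ i, 0 ≤ (w i).re ∧ (w i).re ≤ 1 - 1 / n) → (∀ i, |(w i).im| ≤ Y) →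
      ‖(∏ v, LT.EE n (S.b v) (ρ v) (σ v)) * S.G n (Sum.elim w fun v => LT.zt (ρ v) (σ v))‖ ≤
        C * (n : ℝ) ^ k * Real.exp (n * S.V (Sum.elim w fun v => LT.zt (ρ v) (σ v))) := by
  obtain ⟨C, k, hC, h1⟩ := G_growth hS hY
  choose c hc hEE using fun v => EE_growth (S.b v) (hρ v)
  refine ⟨(∏ v, c v) * C, k, mul_nonneg (prod_nonneg fun v _ => hc v) hC.le, ?_⟩
  intro n hn hodd σ hσ w hw hw'
  rw [mem_ocube] at hσ
  set z : D ⊕ Z → ℂ := Sum.elim w fun v => LT.zt (ρ v) (σ v) with hz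
  have h2 := h1 n z hn ⟨fun i => (hw i).1, fun i => (hw i).2, fun v => by
    rw [hz, Sum.elim_inr, zt_re']
    exact hσ v⟩ (by
      intro j
      rcases j with i | v
      · exact hw' i
      · exact (zt_im_le (hρ v).le (hσ v).le).trans (hρY v))
  have h3 : ‖∏ v, LT.EE n (S.b v) (ρ v) (σ v)‖ ≤ (∏ v, c v) * Real.exp (n * S.W z) := by
    rw [norm_prod]
    have e1 : (∏ v, c v) * Real.exp (n * S.W z) = ∏ v, (c v * Real.exp (n *
        (Real.pi * Complex.I * S.b v * LT.zt (ρ v) (σ v) ^ 2 +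
          2 * Real.pi * Complex.I * LT.zt (ρ v) (σ v)).re)) := by
      rw [prod_mul_distrib, ← Real.exp_sum, ← mul_sum]
      rfl
    rw [e1]
    apply prod_le_prod (fun _ _ => norm_nonneg _)
    intro v _
    exact hEE v n (by omega) hodd (σ v) (hσ v).le
  rw [norm_mul, Dat.V_eq]
  calc ‖∏ v, LT.EE n (S.b v) (ρ v) (σ v)‖ * ‖S.G n z‖
      ≤ ((∏ v, c v) * Real.exp (n * S.W z)) * (C * (n : ℝ) ^ k * Real.exp (n * S.V0 z)) :=
        mul_le_mul h3 h2 (norm_nonneg _)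
          (mul_nonneg (prod_nonneg fun v _ => hc v) (Real.exp_pos _).le)
    _ = (∏ v, c v) * C * (n : ℝ) ^ k * (Real.exp (n * S.V0 z) * Real.exp (n * S.W z)) := by ring
    _ = _ := by
        rw [← Real.exp_add, ← mul_add]

end Pool.Agent.Work.MP_b30479_gt.G2
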