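import Pool.Agent.Work.MP_b30479_gt.G2.ErrA
import Pool.Agent.Work.MP_b30479_gt.G2.GHol

/-!
# The sums over the lattice points at fixed continuous variables
-/

namespace Pool.Agent.Work.MP_b30479_gt.G2

open Finset VOL MeasureTheory Filter Topology

/-- a degenerate path -/
noncomputable def degP (w : ℂ) : PathW where
  a := 0
  b := 0
  hab := le_rfl
  γ := fun _ => w
  ω := fun _ => 0
  cont := continuous_const
  int := IntervalIntegrable.refl

theorem mainL_deg {K : ℝ} {V : Set ℂ} (F : Finset ℕ) (n : ℕ) (hK : (F.card : ℝ) ≤ K) (w : ℂ) :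
    MainL K V (.disc F n) (degP w) {u | ∃ k ∈ F, u = (k : ℂ) / n} (gq n) := by
  intro g hg B hB hw
  have h0 : (Lam.path (degP w)).ap g = 0 := by simp [Lam.ap, degP]
  rw [h0, sub_zero]
  apply boundL_disc V F n hK g hg B hB
  rintro _ ⟨k, hk, rfl⟩
  have h1 := hw _ ⟨k, hk, rfl⟩
  have h2 : ((k : ℂ) / n) = (((k : ℝ) / n : ℝ) : ℂ) := by push_cast; rfl
  rw [h2, gq_real] at h1
  rw [h2]
  exact h1

variable {D Z K : Type} [Fintype D] [Fintype Z] [Fintype K] [DecidableEq D]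

/-- the path of the discrete variable `i` -/
noncomputable def Pa (P : Par D) (hcl : ∀ i, 0 < P.cl i) (hcr : ∀ i, 0 < P.cr i) (n : ℕ)
    (t : D → ℝ) (i : D) : PathW :=
  gP n 0 (P.m n i) (t i) (P.cl i) (P.cr i) (Nat.zero_le _) (hcl i) (hcr i)

theorem path_const {P : Par D} (hcl : ∀ i, 0 < P.cl i) (hcr : ∀ i, 0 < P.cr i)
    {i : D} (hX : 0 < P.XM i ∧ P.XM i ≤ 1 ∧ 0 < P.cl i ∧ 0 < P.cr i ∧ P.cl i + P.cr i < P.XM i ∧
      0 < P.hu i ∧ 0 < P.hd i) (t : D → ℝ) :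
    ∃ Kc : ℝ, 0 < Kc ∧ ∀ᶠ n : ℕ in atTop, 0 < P.m n i ∧ P.m n i ≤ n - 2 ∧
      (∀ V : Set ℂ, (∀ w : ℂ, ea n ≤ w.re → w.re ≤ P.eb n i → V ∈ 𝓝 w) →
        MainL (Kc * n) V (.disc (cor P n i) n) (Pa P hcl hcr n t i)
          (gEL n 0 (P.m n i) (cor P n i) (P.hu i) (P.hd i) (P.cl i) (P.cr i)) (gq n)) ∧
      ∫ x in (Pa P hcl hcr n t i).a..(Pa P hcl hcr n t i).b, ‖(Pa P hcl hcr n t i).ω x‖ ≤
        Kc * n := by
  obtain ⟨hX0, hX1, hcl', hcr', hcc, hhu, hhd⟩ := hX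
  set κ := min (min (P.hu i / P.cl i) (P.hu i / P.cr i)) (min (min (P.hd i / P.cl i) (P.hd i / P.cr i))
    (min (P.hu i) (P.hd i))) with hκ
  have hκ0 : 0 < κ := by
    rw [hκ]
    refine lt_min (lt_min ?_ ?_) (lt_min (lt_min ?_ ?_) (lt_min hhu hhd)) <;> positivity
  have a1 : κ ≤ P.hu i / P.cl i := (min_le_left _ _).trans (min_le_left _ _)
  have a2 : κ ≤ P.hu i / P.cr i := (min_le_left _ _).trans (min_le_right _ _)
  have a3 : κ ≤ P.hd i / P.cl i :=
    (min_le_right _ _).trans ((min_le_left _ _).trans (min_le_left _ _))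
  have a4 : κ ≤ P.hd i / P.cr i :=
    (min_le_right _ _).trans ((min_le_left _ _).trans (min_le_right _ _))
  have a5 : κ ≤ P.hu i := (min_le_right _ _).trans ((min_le_right _ _).trans (min_le_left _ _))
  have a6 : κ ≤ P.hd i := (min_le_right _ _).trans ((min_le_right _ _).trans (min_le_right _ _))
  rw [le_div_iff₀ hcl'] at a1 a3
  rw [le_div_iff₀ hcr'] at a2 a4
  set L := max (max (P.hu i / P.cl i) (P.hu i / P.cr i)) (max (max (P.hd i / P.cl i)
    (P.hd i / P.cr i)) (max (|t i| / P.cl i) (|t i| / P.cr i))) with hL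
  have b1 : P.hu i / P.cl i ≤ L := (le_max_left _ _).trans (le_max_left _ _)
  have b2 : P.hu i / P.cr i ≤ L := (le_max_right _ _).trans (le_max_left _ _)
  have b3 : P.hd i / P.cl i ≤ L :=
    (le_max_left _ _).trans ((le_max_left _ _).trans (le_max_right _ _))
  have b4 : P.hd i / P.cr i ≤ L :=
    (le_max_right _ _).trans ((le_max_left _ _).trans (le_max_right _ _))
  have b5 : |t i| / P.cl i ≤ L :=
    (le_max_left _ _).trans ((le_max_right _ _).trans (le_max_right _ _))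
  have b6 : |t i| / P.cr i ≤ L :=
    (le_max_right _ _).trans ((le_max_right _ _).trans (le_max_right _ _))
  have hL0 : 0 ≤ L := le_trans (by positivity) b1
  have hden : 0 < 1 - Real.exp (-(Real.pi * κ / 2)) := by
    have h1 : 0 < Real.pi * κ / 2 := by positivity
    have : Real.exp (-(Real.pi * κ / 2)) < 1 := by
      rw [Real.exp_lt_one_iff]
      linarith only [h1]
    linarith only [this]
  refine ⟨2 * (1 + L) / (1 - Real.exp (-(Real.pi * κ / 2))) + 1 + (1 + L), by positivity, ?_⟩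
  have hev : ∀ᶠ n : ℕ in atTop, 1 / P.XM i ≤ (n : ℝ) :=
    tendsto_natCast_atTop_atTop.eventually_ge_atTop _
  filter_upwards [hev, eventually_ge_atTop 4] with n hn1 hn4
  have hn0 : (0 : ℝ) < n := by
    have : 0 < n := by omega
    exact_mod_cast this
  have hm0 : 0 < P.m n i := by
    unfold Par.m
    refine lt_min ?_ (by omega)
    rw [Nat.floor_pos]
    rw [div_le_iff₀ hX0] at hn1
    linarith only [hn1]
  have hm1 : P.m n i ≤ n - 2 := min_le_right _ _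
  have hn4' : (1 : ℝ) ≤ n := by
    have : 1 ≤ n := by omega
    exact_mod_cast this
  have hk4 : κ * (1 / (4 * (n : ℝ))) ≤ κ := by
    apply mul_le_of_le_one_right hκ0.le
    rw [div_le_one (by positivity)]
    linarith only [hX1, hcl', hcr', hcc, hn4']
  have hcard : ((cor P n i).card : ℝ) ≤ n := by
    have : (cor P n i).card ≤ (range n).card := card_le_card (filter_subset _ _)
    rw [card_range] at this
    exact_mod_cast this
  refine ⟨hm0, hm1, ?_, ?_⟩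
  · intro V hV g hg B hB hw
    have h1 := mainL_graph (h := t i) (hu := P.hu i) (hd := P.hd i) (c := P.cl i) (c' := P.cr i)
      hm0 (by omega : P.m n i < n) (Ioc_subset_cor (P := P) (i := i) hX0.le (by omega)) hcl' hcr'
      hhu hhd hκ0 a1 a2 (hk4.trans a5) a3 a4 (hk4.trans a6) b1 b2 b3 b4 hV g hg B hB hw
    refine h1.trans ?_
    apply mul_le_mul_of_nonneg_right _ hB
    have h2 : 0 ≤ (1 + L) * n := by positivity
    nlinarith only [hcard, h2, hcard, h2]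
  · have h1 := integral_norm_gP_le (n := n) (A := 0) (B := P.m n i) (Nat.zero_le _) (by omega)
      (h := t i) hcl' hcr' b5 b6
    refine h1.trans ?_
    apply mul_le_mul_of_nonneg_right _ hn0.le
    have h2 : 0 ≤ 2 * (1 + L) / (1 - Real.exp (-(Real.pi * κ / 2))) := by positivity
    linarith only [hX1, hcl', hcr', hcc, h2]

theorem path_consts {P : Par D} (hcl : ∀ i, 0 < P.cl i) (hcr : ∀ i, 0 < P.cr i)
    (hX : ∀ i, 0 < P.XM i ∧ P.XM i ≤ 1 ∧ 0 < P.cl i ∧ 0 < P.cr i ∧ P.cl i + P.cr i < P.XM i ∧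
      0 < P.hu i ∧ 0 < P.hd i) (t : D → ℝ) :
    ∃ Kc : ℝ, 1 ≤ Kc ∧ ∀ᶠ n : ℕ in atTop, ∀ i, 0 < P.m n i ∧ P.m n i ≤ n - 2 ∧
      (∀ V : Set ℂ, (∀ w : ℂ, ea n ≤ w.re → w.re ≤ P.eb n i → V ∈ 𝓝 w) →
        MainL (Kc * n) V (.disc (cor P n i) n) (Pa P hcl hcr n t i)
          (gEL n 0 (P.m n i) (cor P n i) (P.hu i) (P.hd i) (P.cl i) (P.cr i)) (gq n)) ∧
      ∫ x in (Pa P hcl hcr n t i).a..(Pa P hcl hcr n t i).b, ‖(Pa P hcl hcr n t i).ω x‖ ≤
        Kc * n := by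
  choose k hk0 hk using fun i => path_const hcl hcr (hX i) t
  refine ⟨1 + ∑ i, k i, ?_, ?_⟩
  · have : 0 ≤ ∑ i, k i := sum_nonneg fun i _ => (hk0 i).le
    linarith only [this]
  · filter_upwards [eventually_all.mpr hk] with n hn i
    obtain ⟨h1, h2, h3, h4⟩ := hn i
    have h5 : k i * n ≤ (1 + ∑ i, k i) * n := by
      apply mul_le_mul_of_nonneg_right _ (Nat.cast_nonneg n)
      have := single_le_sum (f := k) (fun i _ => (hk0 i).le) (mem_univ i)
      linarith only [this]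
    refine ⟨h1, h2, ?_, h4.trans h5⟩
    intro V hV g hg B hB hw
    exact (h3 V hV g hg B hB hw).trans (mul_le_mul_of_nonneg_right h5 hB)

/-- holomorphy of the integrand in all discrete variables -/
theorem G_holo' {S : Dat D Z K} (hS : S.Ok) {n : ℕ} (hn : 4 ≤ n) {ζ : Z → ℂ}
    (hζ : ∀ v, |(ζ v).re| < 1 / 2) : ∃ ε : ℝ, 0 < ε ∧
    DifferentiableOn ℂ (fun w : D → ℂ => S.G n (Sum.elim w ζ))
      (Set.univ.pi fun _ => {u : ℂ | -ε < u.re ∧ u.re < 1 - 1 / n + ε}) := by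
  obtain ⟨ε, hε, h⟩ := G_holo hS hn (fun _ => True) (y := fun _ => 0) (ζ := ζ)
    (fun i hi => absurd trivial hi) hζ
  refine ⟨ε, hε, ?_⟩
  have h1 : Differentiable ℂ (fun w : D → ℂ => (fun i : {i : D // True} => w i.1)) := by
    rw [differentiable_pi]
    intro i
    exact differentiable_apply _
  have h2 := h.comp h1.differentiableOn (s := Set.univ.pi fun _ =>
    {u : ℂ | -ε < u.re ∧ u.re < 1 - 1 / n + ε}) (fun w hw i _ => hw i.1 (Set.mem_univ _))
  have h3 : (fun w : D → ℂ => S.G n (Sum.elim w ζ)) =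
      (fun w => S.G n (mk (fun _ => True) (fun _ => 0) ζ w)) ∘
        (fun w : D → ℂ => (fun i : {i : D // True} => w i.1)) := by
    funext w
    simp only [Function.comp_def]
    congr 1
  rw [h3]
  exact h2

theorem gEL_re {n B : ℕ} {F : Finset ℕ} (hF : F ⊆ range n) (hn : 0 < n) (hB : B ≤ n - 2)
    (hn2 : 2 ≤ n) {hu hd c c' : ℝ}
    {w : ℂ} (hw : w ∈ gEL n 0 B F hu hd c c') : 0 ≤ w.re ∧ w.re ≤ 1 - 1 / n := by
  have hn0 : (0 : ℝ) < n := by exact_mod_cast hn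
  have hB' : (B : ℝ) + 2 ≤ n := by
    have : B + 2 ≤ n := by omega
    exact_mod_cast this
  have hx : ∀ x : ℝ, (((0 : ℕ) : ℝ) + 1 / 2) / n ≤ x → x ≤ ((B : ℝ) + 1 / 2) / n →
      0 ≤ x ∧ x ≤ 1 - 1 / n := by
    intro x h1 h2
    refine ⟨le_trans (by positivity) h1, h2.trans ?_⟩
    rw [div_le_iff₀ hn0, sub_mul, one_mul, div_mul_cancel₀ _ hn0.ne']
    linarith only [hB']
  rcases hw with ⟨x, h1, h2, rfl | rfl⟩ | ⟨k, hk, _, rfl⟩
  · rw [pt_re]
    exact hx x h1 h2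
  · rw [pt_re]
    exact hx x h1 h2
  · have h3 := hF hk
    rw [mem_range] at h3
    have h4 : (k : ℝ) + 1 ≤ n := by exact_mod_cast h3
    have h5 : ((k : ℂ) / n) = (((k : ℝ) / n : ℝ) : ℂ) := by push_cast; rfl
    rw [h5, Complex.ofReal_re]
    refine ⟨by positivity, ?_⟩
    rw [div_le_iff₀ hn0, sub_mul, one_mul, div_mul_cancel₀ _ hn0.ne']
    linarith only [h4]

theorem gEL_im {n B : ℕ} {F : Finset ℕ} {hu hd c c' : ℝ} (h1 : 0 ≤ hu) (h2 : 0 ≤ hd)
    {w : ℂ} (hw : w ∈ gEL n 0 B F hu hd c c') : |w.im| ≤ max hu hd := by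
  rcases hw with ⟨x, _, _, rfl | rfl⟩ | ⟨k, hk, _, rfl⟩
  · rw [pt_im, abs_mul, abs_of_nonneg h1, abs_of_nonneg (tr_nonneg _ _ _ _ _)]
    exact (mul_le_of_le_one_right h1 (tr_le_one _ _ _ _ _)).trans (le_max_left _ _)
  · rw [pt_im, abs_mul, abs_neg, abs_of_nonneg h2, abs_of_nonneg (tr_nonneg _ _ _ _ _)]
    exact (mul_le_of_le_one_right h2 (tr_le_one _ _ _ _ _)).trans (le_max_right _ _)
  · have h5 : ((k : ℂ) / n) = (((k : ℝ) / n : ℝ) : ℂ) := by push_cast; rfl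
    rw [h5, Complex.ofReal_im, abs_zero]
    exact le_max_of_le_left h1

end Pool.Agent.Work.MP_b30479_gt.G2
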