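import Pool.Agent.Work.MP_b30479_gt.G2.ErrD
import Pool.Agent.Work.MP_b30479_gt.G2.ErrC

/-!
# Bound of the integrand at error points
-/

namespace Pool.Agent.Work.MP_b30479_gt.G2

open Finset VOL MeasureTheory Filter Topology

variable {D Z K : Type} [Fintype D] [Fintype Z] [Fintype K] [DecidableEq D]

/-- uniform domination, all cases -/
theorem dom_all {S : Dat D Z K} {P : Par D} {nb : Finset D → Finset (D ⊕ Z)} {zs : D ⊕ Z → ℂ}
    (h : Sadl S P nb zs) (R : Finset D) (hR1 : ∀ i ∈ R, P.XM i < 1) {r : ℝ} (hr : 0 < r) :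
    ∃ δ : ℝ, 0 < δ ∧ ∃ η : ℝ, 0 < η ∧ ∀ (z z' : D ⊕ Z → ℂ) (p p' : D → ℝ),
      Adm S P zs R (nb R) z p → (R = ∅ → (∃ i, r ≤ ‖z i - zs i‖) ∨ ∃ i, r ≤ |p i|) →
      (∀ i, ‖z' i - z i‖ ≤ η) → (∀ i, |p' i - p i| ≤ η) →
      S.V z' - 2 * Real.pi * ∑ i, p' i ≤ (S.T zs).re - δ := by
  rcases R.eq_empty_or_nonempty with hR | hR
  · subst hR
    obtain ⟨δ, hδ, η, hη, h1⟩ := dom_main h hr
    refine ⟨δ, hδ, η, hη, fun z z' p p' hz hz' => ?_⟩
    rw [h.nb_empty] at hz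
    exact h1 z z' p p' hz (hz' rfl)
  · obtain ⟨δ, hδ, η, hη, h1⟩ := dom_tail h hR hR1
    exact ⟨δ, hδ, η, hη, fun z z' p p' hz _ => h1 z z' p p' hz⟩

/-- real parts of the points of level `n` -/
theorem level_re {P : Par D} {R : Finset D} {nbR : Finset (D ⊕ Z)} {t : D → ℝ} {n : ℕ}
    (hn : 4 ≤ n) {J : Finset D} {w : D → ℂ}
    (c1 : ∀ i ∈ J, .inl i ∉ nbR → w i ∈ gEL n 0 (P.m n i) (cor P n i) (P.hu i) (P.hd i)
      (P.cl i) (P.cr i))
    (c2 : ∀ i ∉ J, .inl i ∉ nbR → ∃ x, ea n ≤ x ∧ x ≤ P.eb n i ∧ w i = P.ga n (t i) i x)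
    (c3 : ∀ i, .inl i ∈ nbR → ∃ k ∈ AR P R n i, w i = (k : ℂ) / n) (i : D) :
    0 ≤ (w i).re ∧ (w i).re ≤ 1 - 1 / n := by
  have hn0 : (0 : ℝ) < n := by
    have : 0 < n := by omega
    exact_mod_cast this
  by_cases hi : (.inl i : D ⊕ Z) ∈ nbR
  · obtain ⟨k, hk, hw⟩ := c3 i hi
    rw [mem_AR] at hk
    have h4 : (k : ℝ) + 1 ≤ n := by exact_mod_cast hk.1
    have h5 : ((k : ℂ) / n) = (((k : ℝ) / n : ℝ) : ℂ) := by push_cast; rfl
    rw [hw, h5, Complex.ofReal_re]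
    refine ⟨by positivity, ?_⟩
    rw [div_le_iff₀ hn0, sub_mul, one_mul, div_mul_cancel₀ _ hn0.ne']
    linarith only [h4]
  · by_cases hJ : i ∈ J
    · exact gEL_re (filter_subset _ _) (by omega) (min_le_right _ _) (by omega) (c1 i hJ hi)
    · obtain ⟨x, hx, hx', hw⟩ := c2 i hJ hi
      have h6 : (w i).re = x := by
        rw [hw]
        exact pt_re _ _ _ _ _ _
      rw [h6]
      have hm : (P.m n i : ℝ) + 2 ≤ n := by
        have h1 : P.m n i ≤ n - 2 := min_le_right _ _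
        have h2 : P.m n i + 2 ≤ n := by omega
        exact_mod_cast h2
      refine ⟨le_trans (by unfold ea; positivity) hx, hx'.trans ?_⟩
      unfold Par.eb
      rw [div_le_iff₀ hn0, sub_mul, one_mul, div_mul_cancel₀ _ hn0.ne']
      linarith only [hm]

theorem level_im {P : Par D} {R : Finset D} {nbR : Finset (D ⊕ Z)} {t : D → ℝ} {n : ℕ}
    (hhu : ∀ i, 0 < P.hu i) (hhd : ∀ i, 0 < P.hd i) {J : Finset D} {w : D → ℂ}
    (c1 : ∀ i ∈ J, .inl i ∉ nbR → w i ∈ gEL n 0 (P.m n i) (cor P n i) (P.hu i) (P.hd i)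
      (P.cl i) (P.cr i))
    (c2 : ∀ i ∉ J, .inl i ∉ nbR → ∃ x, ea n ≤ x ∧ x ≤ P.eb n i ∧ w i = P.ga n (t i) i x)
    (c3 : ∀ i, .inl i ∈ nbR → ∃ k ∈ AR P R n i, w i = (k : ℂ) / n) (i : D) :
    |(w i).im| ≤ P.hu i + P.hd i + |t i| := by
  by_cases hi : (.inl i : D ⊕ Z) ∈ nbR
  · obtain ⟨k, hk, hw⟩ := c3 i hi
    have h5 : ((k : ℂ) / n) = (((k : ℝ) / n : ℝ) : ℂ) := by push_cast; rfl
    rw [hw, h5, Complex.ofReal_im, abs_zero]
    have := hhu i
    have := hhd i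
    positivity
  · by_cases hJ : i ∈ J
    · refine (gEL_im (hhu i).le (hhd i).le (c1 i hJ hi)).trans ?_
      have h1 := abs_nonneg (t i)
      refine max_le ?_ ?_
      · linarith only [h1, hhd, hhd i]
      · linarith only [h1, hhu, hhu i]
    · obtain ⟨x, hx, hx', hw⟩ := c2 i hJ hi
      have h6 : (w i).im = t i * tr (ea n) (P.eb n i) (P.cl i) (P.cr i) x := by
        rw [hw]
        exact pt_im _ _ _ _ _ _
      rw [h6, abs_mul, abs_of_nonneg (tr_nonneg _ _ _ _ _)]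
      have h1 := mul_le_of_le_one_right (abs_nonneg (t i))
        (tr_le_one (ea n) (P.eb n i) (P.cl i) (P.cr i) x)
      linarith only [h1, hhu, hhd, hhu i, hhd i]

/-- **The integrand at error points.** -/
theorem point_bound {S : Dat D Z K} (hS : S.Ok) {P : Par D}
    {nb : Finset D → Finset (D ⊕ Z)} {zs : D ⊕ Z → ℂ} (h : Sadl S P nb zs) (R : Finset D)
    (hR1 : ∀ i ∈ R, P.XM i < 1) :
    ∃ (C : ℝ) (k : ℕ) (δ : ℝ) (ρ : Z → ℝ), 0 ≤ C ∧ 0 < δ ∧ (∀ v, 0 < ρ v) ∧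
      (R = ∅ → ρ = fun v => (zs (.inr v)).im) ∧
      ∀ᶠ n : ℕ in atTop, Odd n → ∀ σ ∈ ocube Z, ∀ (J : Finset D) (w : D → ℂ),
        (R = ∅ → J.Nonempty) →
        (∀ i ∈ J, .inl i ∉ nb R → w i ∈ gEL n 0 (P.m n i) (cor P n i) (P.hu i) (P.hd i)
          (P.cl i) (P.cr i)) →
        (∀ i ∉ J, .inl i ∉ nb R → ∃ x, ea n ≤ x ∧ x ≤ P.eb n i ∧
          w i = P.ga n (zs (.inl i)).im i x) →
        (∀ i, .inl i ∈ nb R → ∃ k ∈ AR P R n i, w i = (k : ℂ) / n) →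
        (∏ i ∈ J, gq n (w i)) * ‖(∏ v, LT.EE n (S.b v) (ρ v) (σ v)) *
          S.G n (Sum.elim w fun v => LT.zt (ρ v) (σ v))‖ ≤
          C * (n : ℝ) ^ k * Real.exp (n * ((S.T zs).re - δ)) := by
  classical
  obtain ⟨r, hr, hadm⟩ := adm_point h R
  obtain ⟨δ, hδ, η, hη, hdom⟩ := dom_all h R hR1 hr
  set ρ : Z → ℝ := fun v => if (.inr v : D ⊕ Z) ∈ nb R then η else (zs (.inr v)).im with hρd
  have hρ : ∀ v, 0 < ρ v := by
    intro v
    simp only [hρd]
    split_ifs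
    · exact hη
    · exact (h.flatZ v).2
  have hρ1 : ∀ v, .inr v ∈ nb R → ρ v ≤ η := by
    intro v hv
    simp only [hρd, hv, if_true]
    exact le_rfl
  have hρ2 : ∀ v, .inr v ∉ nb R → ρ v = (zs (.inr v)).im := by
    intro v hv
    simp only [hρd, hv, if_false]
  have hhu : ∀ i, 0 < P.hu i := fun i => (h.par i).2.2.2.2.2.1
  have hhd : ∀ i, 0 < P.hd i := fun i => (h.par i).2.2.2.2.2.2
  set Y : ℝ := ∑ i, (P.hu i + P.hd i + |(zs (.inl i)).im|) + ∑ v, ρ v with hY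
  have hYi : ∀ i, 0 ≤ P.hu i + P.hd i + |(zs (.inl i)).im| := by
    intro i
    have := hhu i
    have := hhd i
    positivity
  have hY0 : 0 ≤ Y := add_nonneg (sum_nonneg fun i _ => hYi i) (sum_nonneg fun v _ => (hρ v).le)
  have hYD : ∀ i, P.hu i + P.hd i + |(zs (.inl i)).im| ≤ Y := by
    intro i
    have h1 := single_le_sum (f := fun i => P.hu i + P.hd i + |(zs (.inl i)).im|)
      (fun i _ => hYi i) (mem_univ i)
    have h2 : 0 ≤ ∑ v, ρ v := sum_nonneg fun v _ => (hρ v).le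
    linarith only [h1, h2]
  have hYZ : ∀ v, ρ v ≤ Y := by
    intro v
    have h1 := single_le_sum (f := ρ) (fun v _ => (hρ v).le) (mem_univ v)
    have h2 : 0 ≤ ∑ i, (P.hu i + P.hd i + |(zs (.inl i)).im|) := sum_nonneg fun i _ => hYi i
    linarith only [h1, h2]
  obtain ⟨C, k, hC, hgr⟩ := f_growth hS hY0 hρ hYZ
  refine ⟨C, k, δ, ρ, hC, hδ, hρ, ?_, ?_⟩
  · intro hR
    funext v
    apply hρ2
    rw [hR, h.nb_empty]
    exact notMem_empty _
  filter_upwards [hadm η hη ρ hρ hρ1 hρ2, eventually_ge_atTop 4] with n hn1 hn4 hodd σ hσ J w hJ c1 c2 c3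
  have hn0 : (0 : ℝ) < n := by
    have : 0 < n := by omega
    exact_mod_cast this
  have hre := level_re hn4 c1 c2 c3
  have him : ∀ i, |(w i).im| ≤ Y := fun i => (level_im hhu hhd c1 c2 c3 i).trans (hYD i)
  set z' : D ⊕ Z → ℂ := Sum.elim w fun v => LT.zt (ρ v) (σ v) with hz'
  by_cases hwall : ∀ k, (∀ v, S.A k (.inr v) = 0) → (∀ i, S.A k (.inl i) ≠ 0 → .inl i ∈ nb R) →
      (S.form k z').re ≤ 1
  · obtain ⟨z, p, hA, hz, hp, hrr⟩ := hn1 σ hσ J w c1 c2 c3 hwall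
    have hV := hdom z z' p (fun i => if i ∈ J then |(w i).im| else 0) hA (by
      intro hR
      obtain ⟨i, hi⟩ := hJ hR
      have hi' : (.inl i : D ⊕ Z) ∉ nb R := by
        rw [hR, h.nb_empty]
        exact notMem_empty _
      rcases hrr i hi hi' with h5 | h5
      · exact Or.inl ⟨_, h5⟩
      · exact Or.inr ⟨_, h5⟩) hz hp
    have h6 := hgr n hn4 hodd σ hσ w hre him
    have h7 : ∏ i ∈ J, gq n (w i) =
        Real.exp (n * (-(2 * Real.pi * ∑ i, if i ∈ J then |(w i).im| else 0))) := by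
      unfold gq
      rw [← Real.exp_sum]
      congr 1
      rw [sum_ite_mem, univ_inter, mul_neg, mul_sum, mul_sum, ← sum_neg_distrib]
      apply sum_congr rfl
      intro i _
      ring
    rw [h7]
    calc Real.exp (n * (-(2 * Real.pi * ∑ i, if i ∈ J then |(w i).im| else 0))) *
          ‖(∏ v, LT.EE n (S.b v) (ρ v) (σ v)) * S.G n z'‖
        ≤ Real.exp (n * (-(2 * Real.pi * ∑ i, if i ∈ J then |(w i).im| else 0))) *
          (C * (n : ℝ) ^ k * Real.exp (n * S.V z')) :=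
          mul_le_mul_of_nonneg_left h6 (Real.exp_pos _).le
      _ = C * (n : ℝ) ^ k * (Real.exp (n * S.V z') *
          Real.exp (n * (-(2 * Real.pi * ∑ i, if i ∈ J then |(w i).im| else 0)))) := by ring
      _ = C * (n : ℝ) ^ k * Real.exp (n * (S.V z' - 2 * Real.pi *
          ∑ i, if i ∈ J then |(w i).im| else 0)) := by
          rw [← Real.exp_add]
          congr 2
          ring
      _ ≤ C * (n : ℝ) ^ k * Real.exp (n * ((S.T zs).re - δ)) := by
          apply mul_le_mul_of_nonneg_left _ (by positivity)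
          apply Real.exp_le_exp.mpr
          exact mul_le_mul_of_nonneg_left hV hn0.le
  · push Not at hwall
    obtain ⟨k', hk1, hk2, hk3⟩ := hwall
    rw [mem_ocube] at hσ
    have h0 : S.G n z' = 0 := by
      apply G_wall hS hn4 (k := k') _ hk1 _ hk3
      · refine ⟨fun i => (hre i).1, fun i => (hre i).2, fun v => ?_⟩
        rw [hz', Sum.elim_inr, zt_re']
        exact hσ v
      · intro i hi
        obtain ⟨y, _, hy⟩ := c3 i (hk2 i hi)
        exact ⟨y, hy⟩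
    rw [h0, mul_zero, norm_zero, mul_zero]
    positivity

end Pool.Agent.Work.MP_b30479_gt.G2
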