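import Pool.Agent.Work.MP_b30479_gt.G2.RMon
import Pool.Agent.Work.MP_b30479_gt.G2.MPWall
import Pool.Agent.Work.MP_b30479_gt.G2.SIm

/-!
# First order conditions at maximisers without conditions on the factors

At a maximiser on the product of the paths no factor is singular and the kinks of `UU` on the real
axis have the right sign, so the first order conditions hold without further hypotheses.
-/

namespace Pool.Agent.Work.MP_b30479_gt.G2

open Finset VOL Filter Topology

/-! ### one factor along a short segment -/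

theorem sin_int {n : ℤ} {w : ℂ} (h : Complex.sin (Real.pi * w) = 0)
    (h0 : w - n ≠ 0) : 1 ≤ ‖w - n‖ := by
  obtain ⟨k, hk⟩ := Complex.sin_eq_zero_iff.1 h
  have hpi : (Real.pi : ℂ) ≠ 0 := by exact_mod_cast Real.pi_ne_zero
  have h1 : w = k := by
    have : Real.pi * w = Real.pi * k := by rw [hk]; ring
    exact mul_left_cancel₀ hpi this
  rw [h1] at h0 ⊢
  rw [← Int.cast_sub] at h0 ⊢
  have h2 : k - n ≠ 0 := fun h => h0 (by rw [h, Int.cast_zero])
  rw [Complex.norm_intCast]
  exact_mod_cast Int.one_le_abs h2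

theorem int_of_sin {u : ℂ} (h : Complex.sin (Real.pi * u) = 0) : ∃ n : ℤ, u = n := by
  obtain ⟨k, hk⟩ := Complex.sin_eq_zero_iff.1 h
  have hpi : (Real.pi : ℂ) ≠ 0 := by exact_mod_cast Real.pi_ne_zero
  refine ⟨k, ?_⟩
  have : Real.pi * u = Real.pi * k := by rw [hk]; ring
  exact mul_left_cancel₀ hpi this

/-- near a point of the segment the factor is regular -/
theorem ev_reg {u c : ℂ} {m : ℝ} (hc : c.re ≠ 0) (hcm : c.im = c.re * m) :
    ∀ᶠ s : ℝ in 𝓝[>] 0, QQm m (u + s * c) := by
  have h1 : ∀ᶠ s : ℝ in 𝓝[>] 0, Complex.sin (Real.pi * (u + s * c)) ≠ 0 := by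
    by_cases hs : Complex.sin (Real.pi * u) = 0
    · obtain ⟨n, rfl⟩ := int_of_sin hs
      have hn : 0 < ‖c‖ := norm_pos_iff.2 (fun h => hc (by rw [h]; rfl))
      filter_upwards [ev_small (show (0 : ℝ) < 1 / ‖c‖ by positivity)] with s hs' h
      have h2 := sin_int (n := n) h (by
        rw [add_sub_cancel_left]
        exact mul_ne_zero (by exact_mod_cast hs'.1.ne') (norm_pos_iff.1 hn))
      rw [add_sub_cancel_left, norm_mul, Complex.norm_real, Real.norm_eq_abs, abs_of_pos hs'.1] at h2
      have h3 : s * ‖c‖ < 1 := (lt_div_iff₀ hn).1 hs'.2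
      linarith only [h2, h3]
    · have h2 : ContinuousAt (fun s : ℝ => Complex.sin (Real.pi * (u + s * c))) 0 := by fun_prop
      have h3 := h2.eventually_ne (y := 0) (by simpa using hs)
      exact h3.filter_mono nhdsWithin_le_nhds
  have h2 : ∀ᶠ s : ℝ in 𝓝[>] 0, m ≠ 0 → (u + s * c).im ≠ 0 := by
    by_cases hm : m = 0
    · exact Eventually.of_forall fun s h => absurd hm h
    by_cases hu : u.im = 0
    · filter_upwards [ev_small one_pos] with s hs _
      simp only [Complex.add_im, hu, zero_add, Complex.mul_im, Complex.ofReal_re, Complex.ofReal_im,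
        zero_mul, add_zero, hcm]
      exact mul_ne_zero hs.1.ne' (mul_ne_zero hc hm)
    · have h2 : ContinuousAt (fun s : ℝ => (u + s * c).im) 0 := by fun_prop
      have h3 := h2.eventually_ne (y := 0) (by simpa using hu)
      exact (h3.filter_mono nhdsWithin_le_nhds).mono fun s hs _ => hs
  filter_upwards [h1, h2] with s h1 h2
  exact ⟨h1, fun hm => Or.inl (h2 hm)⟩

/-- **Lower bound for the derivative of a regular factor.** -/
theorem ev_factor {u c : ℂ} {m a : ℝ} (hcm : c.im = a * m)
    (hs : Complex.sin (Real.pi * u) ≠ 0) (hk : m ≠ 0 → u.im = 0 → u ∉ strip → 1 / 2 < u.re)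
    {η : ℝ} (hη : 0 < η) : ∀ᶠ s : ℝ in 𝓝[>] 0,
      a * (LL u + m * YY u) - η < a * (LL (u + s * c) + m * YY (u + s * c)) := by
  have hcont : ContinuousAt (fun s : ℝ => u + s * c) 0 := by fun_prop
  have e0 : u + ((0 : ℝ) : ℂ) * c = u := by simp
  have hL : ContinuousAt (fun s : ℝ => a * LL (u + s * c)) 0 := by
    have h2 : ContinuousAt LL (u + ((0 : ℝ) : ℂ) * c) := by
      rw [e0]
      exact continuousAt_LL hs
    exact continuousAt_const.mul (ContinuousAt.comp (f := fun s : ℝ => u + s * c) h2 hcont)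
  have hL' : ∀ᶠ s : ℝ in 𝓝[>] 0, a * LL u - η / 2 < a * LL (u + s * c) := by
    have h1 := hL.eventually (lt_mem_nhds (a := a * LL u - η / 2) (by
      simp only [e0]
      linarith only [hη]))
    exact h1.filter_mono nhdsWithin_le_nhds
  have hY' : ∀ᶠ s : ℝ in 𝓝[>] 0, a * (m * YY u) - η / 2 < a * (m * YY (u + s * c)) := by
    by_cases hm : m = 0
    · refine Eventually.of_forall fun s => ?_
      rw [hm]
      linarith only [hη]
    by_cases ha : a = 0
    · refine Eventually.of_forall fun s => ?_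
      rw [ha]
      linarith only [hη]
    by_cases hreg : u.im ≠ 0 ∨ u ∈ strip
    · have h1 : ContinuousAt (fun s : ℝ => a * (m * YY (u + s * c))) 0 := by
        have h2 : ContinuousAt YY (u + ((0 : ℝ) : ℂ) * c) := by
          rw [e0]
          exact continuousAt_YY hreg
        exact continuousAt_const.mul (continuousAt_const.mul
          (ContinuousAt.comp (f := fun s : ℝ => u + s * c) h2 hcont))
      have h2 := h1.eventually (lt_mem_nhds (a := a * (m * YY u) - η / 2) (by
        simp only [e0]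
        linarith only [hη]))
      exact h2.filter_mono nhdsWithin_le_nhds
    · push Not at hreg
      obtain ⟨hu, hst⟩ := hreg
      have hre := hk hm hu hst
      have h1 : ∀ᶠ s : ℝ in 𝓝 0, 1 / 2 < (u + s * c).re := by
        have h2 : ContinuousAt (fun s : ℝ => (u + s * c).re) 0 := by fun_prop
        exact h2.eventually (lt_mem_nhds (by simpa using hre))
      have hYu : YY u = 0 := by
        unfold YY
        rw [if_neg (by rw [hu]; exact lt_irrefl _), if_neg (by rw [hu]; exact lt_irrefl _)]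
      filter_upwards [h1.filter_mono nhdsWithin_le_nhds, ev_small one_pos] with s h1 hs
      have him : (u + s * c).im = s * (a * m) := by
        simp [hu, hcm]
      have key : 0 ≤ a * (m * YY (u + s * c)) := by
        rcases lt_or_gt_of_ne (mul_ne_zero ha hm) with h3 | h3
        · have h4 : (u + s * c).im < 0 := by
            rw [him]
            exact mul_neg_of_pos_of_neg hs.1 h3
          rw [YY_neg h4]
          have h5 := half_le_Tr (s := -(u + s * c).im) (by linarith only [h4]) h1.le
          have : 0 ≤ (a * m) * (Real.pi / 2 - DT.Tr (-(u + s * c).im) (u + s * c).re) :=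
            mul_nonneg_of_nonpos_of_nonpos h3.le (by linarith only [h5])
          linarith only [this]
        · have h4 : 0 < (u + s * c).im := by
            rw [him]
            exact mul_pos hs.1 h3
          rw [YY_pos h4]
          have h5 := half_le_Tr (s := (u + s * c).im) h4 h1.le
          have : 0 ≤ (a * m) * (DT.Tr (u + s * c).im (u + s * c).re - Real.pi / 2) :=
            mul_nonneg h3.le (by linarith only [h5])
          linarith only [this]
      rw [hYu]
      linarith only [hη, key]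
  filter_upwards [hL', hY'] with s h1 h2
  linarith only [h1, h2]

theorem LL_add_int (u : ℂ) (n : ℤ) : LL (u + n) = LL u := by
  induction n using Int.induction_on with
  | zero => simp
  | succ n ih =>
    have e : u + ((n + 1 : ℤ) : ℂ) = u + (n : ℤ) + 1 := by push_cast; ring
    rw [e, LL_add_one, ih]
  | pred n ih =>
    have e : u + ((-n : ℤ) : ℂ) = u + ((-n - 1 : ℤ) : ℂ) + 1 := by push_cast; ring
    rw [e, LL_add_one] at ih
    exact ih

/-- **A singular factor of the right sign makes the derivative large.** -/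
theorem ev_factor_sing {u c : ℂ} {m a : ℝ} (hc : c.re = a) (ha : a < 0)
    (hs : Complex.sin (Real.pi * u) = 0) (C : ℝ) :
    ∀ᶠ s : ℝ in 𝓝[>] 0, C < a * (LL (u + s * c) + m * YY (u + s * c)) := by
  obtain ⟨n, rfl⟩ := int_of_sin hs
  have hcne : c ≠ 0 := fun h => ha.ne (by rw [← hc, h]; rfl)
  have h1 : Tendsto (fun s : ℝ => ‖2 * Complex.sin (Real.pi * (s * c))‖) (𝓝[>] 0) (𝓝[>] 0) := by
    rw [tendsto_nhdsWithin_iff]
    constructor
    · have h2 : Continuous fun s : ℝ => ‖2 * Complex.sin (Real.pi * (s * c))‖ := by fun_prop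
      have h3 := h2.tendsto 0
      have h4 : ‖2 * Complex.sin (Real.pi * (((0 : ℝ) : ℂ) * c))‖ = 0 := by simp
      rw [h4] at h3
      exact h3.mono_left nhdsWithin_le_nhds
    · have hcr : c.re ≠ 0 := by rw [hc]; exact ha.ne
      have h5 := ev_reg (u := 0) (c := c) (m := c.im / c.re) hcr (by field_simp)
      filter_upwards [h5] with s hs
      rw [zero_add] at hs
      exact norm_pos_iff.2 (mul_ne_zero two_ne_zero hs.1)
  have h2 := Real.tendsto_log_nhdsGT_zero.comp h1
  have h3 : Tendsto (fun s : ℝ => LL (n + s * c)) (𝓝[>] 0) atBot := by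
    refine h2.congr fun s => ?_
    simp only [Function.comp_apply]
    rw [add_comm, LL_add_int, LL_eq]
  have h4 : Tendsto (fun s : ℝ => a * LL (n + s * c)) (𝓝[>] 0) atTop :=
    h3.const_mul_atBot_of_neg ha
  have h5 : ∃ B : ℝ, ∀ᶠ s : ℝ in 𝓝[>] 0, -B ≤ a * (m * YY (n + s * c)) := by
    refine ⟨|a| * (|m| * (Real.pi * (|(n : ℝ)| + |c.re|) + 2 * Real.pi)), ?_⟩
    filter_upwards [ev_small one_pos] with s hs
    have h6 := abs_YY_le ((n : ℂ) + s * c)
    have h7 : |((n : ℂ) + s * c).re| ≤ |(n : ℝ)| + |c.re| := by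
      have e : ((n : ℂ) + s * c).re = n + s * c.re := by simp
      rw [e]
      refine (abs_add_le _ _).trans ?_
      rw [abs_mul, abs_of_pos hs.1]
      have := abs_nonneg c.re
      nlinarith only [hs, this, hs.2]
    have h8 : |a * (m * YY ((n : ℂ) + s * c))| ≤
        |a| * (|m| * (Real.pi * (|(n : ℝ)| + |c.re|) + 2 * Real.pi)) := by
      rw [abs_mul, abs_mul]
      have := Real.pi_pos
      gcongr
      refine h6.trans ?_
      gcongr
    exact (abs_le.1 h8).1
  obtain ⟨B, hB⟩ := h5
  filter_upwards [h4.eventually_gt_atTop (C + B), hB] with s h4 hB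
  linarith only [h4, hB]

/-! ### the growth rate along a short segment -/

section
variable {D Z K : Type} [Fintype D] [Fintype Z] [Fintype K] [DecidableEq D] [DecidableEq Z]

/-- **The growth rate increases along a short segment** in the direction `ε (1 + i m)` of the
variable `j`. -/
theorem incr_of (S : Dat D Z K) (z : D ⊕ Z → ℂ) (j : D ⊕ Z) (m ε : ℝ) (hε : ε = 1 ∨ ε = -1)
    (hk : ∀ k, S.A k j ≠ 0 → m ≠ 0 → (S.form k z).im = 0 → S.form k z ∉ strip →
      1 / 2 < (S.form k z).re)
    (hs : ∀ k, S.A k j ≠ 0 → Complex.sin (Real.pi * S.form k z) = 0 → ε * S.A k j < 0)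
    (hD : (∃ k, S.A k j ≠ 0 ∧ Complex.sin (Real.pi * S.form k z) = 0) ∨
      0 < ε * (S.d1 z j + m * S.d2 z j)) :
    ∀ᶠ s : ℝ in 𝓝[>] 0, S.V z < S.V (zx z (Pi.single j (1 + m * Complex.I)) (ε * s)) := by
  classical
  set X : D ⊕ Z → ℂ := Pi.single j (1 + m * Complex.I) with hX
  have hε2 : ε * ε = 1 := by rcases hε with h | h <;> rw [h] <;> norm_num
  have hε0 : ε ≠ 0 := by rcases hε with h | h <;> rw [h] <;> norm_num
  have haff : ∀ k, S.aff k X = S.A k j * (1 + m * Complex.I) := fun k => aff_single S k j _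
  have hform : ∀ k (s : ℝ), S.form k (zx z X (ε * s)) =
      S.form k z + s * ((ε * S.A k j : ℝ) * (1 + m * Complex.I)) := by
    intro k s
    rw [form_zx, haff]
    push_cast
    ring
  set c : K → ℂ := fun k => ((ε * S.A k j : ℝ) : ℂ) * (1 + m * Complex.I) with hc
  have hcre : ∀ k, (c k).re = ε * S.A k j := by
    intro k
    simp [hc]
  have hcim : ∀ k, (c k).im = ε * S.A k j * m := by
    intro k
    simp [hc]
  -- regularity
  have hreg : ∀ᶠ s : ℝ in 𝓝[>] 0, ∀ k, S.A k j ≠ 0 → QQm m (S.form k (zx z X (ε * s))) := by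
    rw [eventually_all]
    intro k
    by_cases hA : S.A k j = 0
    · exact Eventually.of_forall fun s h => absurd hA h
    · have h1 := ev_reg (u := S.form k z) (c := c k) (m := m)
        (by rw [hcre]; exact mul_ne_zero hε0 (by exact_mod_cast hA)) (by rw [hcim, hcre])
      filter_upwards [h1] with s h1 _
      rw [hform]
      exact h1
  -- the derivative
  have hder : ∀ s : ℝ, (∀ k, S.A k j ≠ 0 → QQm m (S.form k (zx z X (ε * s)))) →
      HasDerivAt (fun s => S.V (zx z X (ε * s))) (ε * S.DV (zx z X (ε * s)) X) s := by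
    intro s hq
    have h1 := hasDerivAt_V_single S (zx z X (ε * s)) j m (fun k hk => (hq k hk).1)
      (fun hm k hk => (hq k hk).2 hm)
    rw [← hX] at h1
    have e : ∀ s' : ℝ, zx (zx z X (ε * s)) X (ε * (s' - s)) = zx z X (ε * s') := by
      intro s'
      funext i
      unfold zx
      push_cast
      ring
    have h2 : HasDerivAt (fun s' : ℝ => ε * (s' - s)) ε s := by
      simpa using ((hasDerivAt_id s).sub_const s).const_mul ε
    have h3 : HasDerivAt (fun x : ℝ => S.V (zx (zx z X (ε * s)) X x))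
        (S.DV (zx z X (ε * s)) X) (ε * (s - s)) := by
      rw [sub_self, mul_zero]
      exact h1
    have h4 := h3.comp s h2
    refine (h4.congr_deriv (by ring)).congr_of_eventuallyEq ?_
    exact Eventually.of_forall fun s' => by simp only [Function.comp_apply, e]
  -- the polynomial part
  have hpol : ∀ η > 0, ∀ᶠ s : ℝ in 𝓝[>] 0,
      ε * (S.dqv z X).re - η < ε * (S.dqv (zx z X (ε * s)) X).re := by
    intro η hη
    have h1 : ContinuousAt (fun s : ℝ => ε * (S.dqv (zx z X (ε * s)) X).re) 0 := by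
      unfold Dat.dqv zx
      fun_prop
    have e0 : zx z X (ε * 0) = z := by
      rw [mul_zero]
      exact zx_zero z X
    have h2 := h1.eventually (lt_mem_nhds (a := ε * (S.dqv z X).re - η) (by
      beta_reduce
      rw [e0]
      linarith only [hη]))
    exact h2.filter_mono nhdsWithin_le_nhds
  -- the terms
  have hterm : ∀ k (z' : D ⊕ Z → ℂ), ε * ((S.aff k X).re * LL (S.form k z') +
      (S.aff k X).im * YY (S.form k z')) =
      (ε * S.A k j) * (LL (S.form k z') + m * YY (S.form k z')) := by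
    intro k z'
    rw [haff]
    simp
    ring
  have hDV : ∀ z', ε * S.DV z' X = ε * (S.dqv z' X).re +
      ∑ k, (ε * S.A k j) * (LL (S.form k z') + m * YY (S.form k z')) := by
    intro z'
    unfold Dat.DV
    rw [mul_add, Finset.mul_sum]
    congr 1
    exact Finset.sum_congr rfl fun k _ => hterm k z'
  have hfac : ∀ η > 0, ∀ C : ℝ, ∀ᶠ s : ℝ in 𝓝[>] 0, ∀ k,
      (S.A k j ≠ 0 ∧ Complex.sin (Real.pi * S.form k z) = 0 →
        C < (ε * S.A k j) * (LL (S.form k (zx z X (ε * s))) + m * YY (S.form k (zx z X (ε * s))))) ∧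
      (¬(S.A k j ≠ 0 ∧ Complex.sin (Real.pi * S.form k z) = 0) →
        (ε * S.A k j) * (LL (S.form k z) + m * YY (S.form k z)) - η <
        (ε * S.A k j) * (LL (S.form k (zx z X (ε * s))) + m * YY (S.form k (zx z X (ε * s))))) := by
    intro η hη C
    rw [eventually_all]
    intro k
    by_cases hA : S.A k j = 0
    · refine Eventually.of_forall fun s => ⟨fun h => absurd hA h.1, fun _ => ?_⟩
      rw [hA]
      simp [hη]
    by_cases hsn : Complex.sin (Real.pi * S.form k z) = 0
    · have h1 := ev_factor_sing (u := S.form k z) (c := c k) (m := m) (a := ε * S.A k j) (hcre k)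
        (hs k hA hsn) hsn C
      filter_upwards [h1] with s h1
      rw [hform]
      exact ⟨fun _ => h1, fun h => absurd ⟨hA, hsn⟩ h⟩
    · have h1 := ev_factor (u := S.form k z) (c := c k) (m := m) (a := ε * S.A k j)
        (hcim k) hsn (hk k hA) hη
      filter_upwards [h1] with s h1
      rw [hform]
      exact ⟨fun h => absurd h.2 hsn, fun _ => h1⟩
  -- positivity of the derivative
  have hpos : ∀ᶠ s : ℝ in 𝓝[>] 0, 0 < ε * S.DV (zx z X (ε * s)) X := by
    by_cases hsing : ∃ k, S.A k j ≠ 0 ∧ Complex.sin (Real.pi * S.form k z) = 0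
    · obtain ⟨k0, hk0⟩ := hsing
      set g : K → ℝ := fun k => (ε * S.A k j) * (LL (S.form k z) + m * YY (S.form k z)) - 1 with hg
      set q : ℝ := ε * (S.dqv z X).re - 1 with hq
      set C : ℝ := |q| + ∑ k, |g k| with hC
      filter_upwards [hpol 1 one_pos, hfac 1 one_pos C] with s h1 h2
      rw [hDV]
      have hC0 : 0 ≤ C := by positivity
      have h3 : ∀ k ∈ (Finset.univ : Finset K).erase k0, -|g k| ≤
          (ε * S.A k j) * (LL (S.form k (zx z X (ε * s))) + m * YY (S.form k (zx z X (ε * s)))) := by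
        intro k _
        by_cases hsk : S.A k j ≠ 0 ∧ Complex.sin (Real.pi * S.form k z) = 0
        · have := (h2 k).1 hsk
          have := abs_nonneg (g k)
          linarith
        · have h4 := (h2 k).2 hsk
          have h5 := neg_abs_le (g k)
          simp only [hg] at h5 h4 ⊢
          linarith only [h4, h5]
      have h4 := Finset.sum_le_sum h3
      rw [← Finset.add_sum_erase _ _ (Finset.mem_univ k0)]
      have h5 := (h2 k0).1 hk0
      have h6 : ∑ k ∈ (Finset.univ : Finset K).erase k0, |g k| ≤ ∑ k, |g k| :=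
        Finset.sum_le_sum_of_subset_of_nonneg (Finset.erase_subset _ _)
          (fun k _ _ => abs_nonneg _)
      rw [Finset.sum_neg_distrib] at h4
      have h7 := neg_abs_le q
      linarith only [h1, h4, h5, h6, h7]
    · have hD' := hD.resolve_left hsing
      have hDV0 : 0 < ε * S.DV z X := by
        rw [hX, DV_single]
        exact hD'
      set η : ℝ := ε * S.DV z X / (2 * (Fintype.card K + 1)) with hηdef
      have hcard : (0 : ℝ) < Fintype.card K + 1 := by positivity
      have hη : 0 < η := by positivity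
      filter_upwards [hpol η hη, hfac η hη 0] with s h1 h2
      rw [hDV]
      have h3 : ∀ k ∈ (Finset.univ : Finset K),
          (ε * S.A k j) * (LL (S.form k z) + m * YY (S.form k z)) - η ≤
          (ε * S.A k j) * (LL (S.form k (zx z X (ε * s))) + m * YY (S.form k (zx z X (ε * s)))) :=
        fun k _ => ((h2 k).2 fun h => hsing ⟨k, h⟩).le
      have h4 := Finset.sum_le_sum h3
      rw [Finset.sum_sub_distrib, Finset.sum_const, Finset.card_univ, nsmul_eq_mul] at h4
      have h5 := hDV z
      have h6 : (Fintype.card K + 1) * η = ε * S.DV z X / 2 := by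
        rw [hηdef]
        field_simp
      nlinarith only [hDV0, h1, h4, h5, h6]
  obtain ⟨r, hr, hr2⟩ := mem_nhdsGT_iff_exists_Ioo_subset.1 (hreg.and hpos)
  have hcont : Continuous fun s : ℝ => S.V (zx z X (ε * s)) := by
    refine S.continuous_V.comp ?_
    unfold zx
    fun_prop
  filter_upwards [ev_small (show (0 : ℝ) < r from hr)] with s hs
  have hmono : StrictMonoOn (fun s : ℝ => S.V (zx z X (ε * s))) (Set.Icc 0 s) := by
    refine strictMonoOn_of_deriv_pos (convex_Icc _ _) hcont.continuousOn ?_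
    rw [interior_Icc]
    intro u hu
    have h1 := hr2 ⟨hu.1, hu.2.trans hs.2⟩
    rw [(hder u h1.1).deriv]
    exact h1.2
  have h1 := hmono (Set.left_mem_Icc.2 hs.1.le) (Set.right_mem_Icc.2 hs.1.le) hs.1
  have e0 : zx z X (ε * 0) = z := by
    rw [mul_zero]
    exact zx_zero z X
  simp only [e0] at h1
  exact h1

/-- **First order condition to the left, without conditions on the factors.** -/
theorem IsMx.left_gen {S : Dat D Z K} {P : Par D} {zs : D ⊕ Z → ℂ} {y : D ⊕ Z → ℝ}
    (h : IsMx S P zs y) (hP : P.Good) {j : D ⊕ Z} (hx : plo D Z j < y j)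
    (hk : ∀ k, S.A k j ≠ 0 → 0 < (S.form k (P.pth zs y)).re)
    (hs : ∀ k, S.A k j ≠ 0 → Complex.sin (Real.pi * S.form k (P.pth zs y)) = 0 → 0 < S.A k j) :
    (∀ k, S.A k j ≠ 0 → Complex.sin (Real.pi * S.form k (P.pth zs y)) ≠ 0) ∧
      0 ≤ S.d1 (P.pth zs y) j + P.sL zs j (y j) * S.d2 (P.pth zs y) j := by
  have key : ¬((∃ k, S.A k j ≠ 0 ∧ Complex.sin (Real.pi * S.form k (P.pth zs y)) = 0) ∨
      0 < (-1) * (S.d1 (P.pth zs y) j + P.sL zs j (y j) * S.d2 (P.pth zs y) j)) := by
    intro hD
    have h1 := incr_of S (P.pth zs y) j (P.sL zs j (y j)) (-1) (Or.inr rfl)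
      (fun k hA _ hi hst => by
        have h2 := hk k hA
        by_contra h3
        push Not at h3
        exact hst ⟨h2, by linarith only [h2, h3]⟩)
      (fun k hA hsn => by
        have : (0 : ℝ) < S.A k j := by exact_mod_cast hs k hA hsn
        linarith only [this]) hD
    obtain ⟨r, hr, hlin⟩ := hgt_left hP zs j hx (h.1.2 j)
    obtain ⟨s, hs1, hs2⟩ := (h1.and (ev_small (show (0 : ℝ) < min (y j - r) (y j - plo D Z j) from
      lt_min (by linarith only [hr]) (by linarith only [hx])))).exists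
    have b1 := min_le_left (y j - r) (y j - plo D Z j)
    have b2 := min_le_right (y j - r) (y j - plo D Z j)
    have b3 := h.1.2 j
    have e1 : P.pth zs (Function.update y j (y j - s)) =
        zx (P.pth zs y) (Pi.single j (1 + P.sL zs j (y j) * Complex.I)) (-1 * s) := by
      rw [pth_update P zs y j (hlin (y j - s) ⟨by linarith only [hs2, b1], by linarith only [hs2]⟩)]
      congr 1
      ring
    rw [← e1] at hs1
    have h2 : S.V (P.pth zs (Function.update y j (y j - s))) ≤ S.V (P.pth zs y) :=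
      h.2 (update_mem_box h.1 (by linarith only [hs2, b2]) (by linarith only [hs2, b3]))
    linarith only [hs1, h2]
  push Not at key
  refine ⟨key.1, by linarith only [key, key.2]⟩

/-- **First order condition to the right, without conditions on the factors.** -/
theorem IsMx.right_gen {S : Dat D Z K} {P : Par D} {zs : D ⊕ Z → ℂ} {y : D ⊕ Z → ℝ}
    (h : IsMx S P zs y) (hP : P.Good) {j : D ⊕ Z} (hx : y j < P.hi j)
    (hk : ∀ k, S.A k j ≠ 0 → 0 < (S.form k (P.pth zs y)).re)
    (hs : ∀ k, S.A k j ≠ 0 → Complex.sin (Real.pi * S.form k (P.pth zs y)) = 0 → S.A k j < 0) :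
    (∀ k, S.A k j ≠ 0 → Complex.sin (Real.pi * S.form k (P.pth zs y)) ≠ 0) ∧
      S.d1 (P.pth zs y) j + P.sR zs j (y j) * S.d2 (P.pth zs y) j ≤ 0 := by
  have key : ¬((∃ k, S.A k j ≠ 0 ∧ Complex.sin (Real.pi * S.form k (P.pth zs y)) = 0) ∨
      0 < 1 * (S.d1 (P.pth zs y) j + P.sR zs j (y j) * S.d2 (P.pth zs y) j)) := by
    intro hD
    have h1 := incr_of S (P.pth zs y) j (P.sR zs j (y j)) 1 (Or.inl rfl)
      (fun k hA _ hi hst => by
        have h2 := hk k hA
        by_contra h3
        push Not at h3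
        exact hst ⟨h2, by linarith only [h2, h3]⟩)
      (fun k hA hsn => by
        have : (S.A k j : ℝ) < 0 := by exact_mod_cast hs k hA hsn
        linarith only [this]) hD
    obtain ⟨r, hr, hlin⟩ := hgt_right hP zs j (h.1.1 j) hx
    obtain ⟨s, hs1, hs2⟩ := (h1.and (ev_small (show (0 : ℝ) < min (r - y j) (P.hi j - y j) from
      lt_min (by linarith only [hr]) (by linarith only [hx])))).exists
    have b1 := min_le_left (r - y j) (P.hi j - y j)
    have b2 := min_le_right (r - y j) (P.hi j - y j)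
    have b3 := h.1.1 j
    have e1 : P.pth zs (Function.update y j (y j + s)) =
        zx (P.pth zs y) (Pi.single j (1 + P.sR zs j (y j) * Complex.I)) (1 * s) := by
      rw [pth_update P zs y j (hlin (y j + s) ⟨by linarith only [hs2], by linarith only [hs2, b1]⟩)]
      congr 1
      ring
    rw [← e1] at hs1
    have h2 : S.V (P.pth zs (Function.update y j (y j + s))) ≤ S.V (P.pth zs y) :=
      h.2 (update_mem_box h.1 (by linarith only [hs2, b3]) (by linarith only [hs2, b2]))
    linarith only [hs1, h2]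
  push Not at key
  refine ⟨key.1, by linarith only [key, key.2]⟩

end

/-! ### words -/

/-- a condition on all factors which contain the local variable `p`, depending on the coefficient -/
def FacCo (t : Typ) (l r : Bool) (p : Fin 3) (x : Fin 3 → ℂ) (Q : ℤ → ℂ → Prop) : Prop :=
  ∀ f ∈ facs t l r, f.α p ≠ 0 → Q (f.α p) (f.form x)

section
variable {M : ℕ} (t : Fin (M + 1) → Typ) (b : Fin (M + 1) → ℤ)

theorem co_hinge {z : DD t ⊕ ZZ t → ℂ} {Q : ℤ → ℂ → Prop} {h : Fin M}
    (h1 : FacCo (t h.castSucc) (decide (h.castSucc ≠ 0)) (decide (h.castSucc ≠ Fin.last M)) 2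
      (xx t h.castSucc z) Q)
    (h2 : FacCo (t h.succ) (decide (h.succ ≠ 0)) (decide (h.succ ≠ Fin.last M)) 0
      (xx t h.succ z) Q) :
    ∀ k, (wdat t b).A k (.inl (.inl h)) ≠ 0 →
      Q ((wdat t b).A k (.inl (.inl h))) ((wdat t b).form k z) := by
  intro k hk
  rw [wdat_form]
  have hne : h.castSucc ≠ h.succ := (Fin.castSucc_lt_succ).ne
  have e : (wdat t b).A k (.inl (.inl h)) = ∑ p, (fac t k).α p * cf t k.1 p (.inl (.inl h)) := rfl
  rw [e] at hk ⊢
  rcases k with ⟨i, f⟩
  have hmem : fac t ⟨i, f⟩ ∈ facs (t i) (decide (i ≠ 0)) (decide (i ≠ Fin.last M)) :=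
    List.get_mem _ _
  by_cases e1 : h.castSucc = i
  · subst e1
    have e3 : ∑ p, (fac t ⟨h.castSucc, f⟩).α p * cf t h.castSucc p (.inl (.inl h)) =
        (fac t ⟨h.castSucc, f⟩).α 2 := by
      rw [Fin.sum_univ_three]
      simp [cf, hne.symm]
    rw [e3] at hk ⊢
    exact h1 _ hmem hk
  · by_cases e2 : h.succ = i
    · subst e2
      have e3 : ∑ p, (fac t ⟨h.succ, f⟩).α p * cf t h.succ p (.inl (.inl h)) =
          (fac t ⟨h.succ, f⟩).α 0 := by
        rw [Fin.sum_univ_three]
        simp [cf, hne]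
      rw [e3] at hk ⊢
      exact h2 _ hmem hk
    · exact absurd (by rw [Fin.sum_univ_three]; simp [cf, e1, e2]) hk

theorem co_mid {z : DD t ⊕ ZZ t → ℂ} {Q : ℤ → ℂ → Prop} {m : {i : Fin (M + 1) // (t i).isMid = true}}
    (h1 : FacCo (t m.1) (decide (m.1 ≠ 0)) (decide (m.1 ≠ Fin.last M)) 1 (xx t m.1 z) Q) :
    ∀ k, (wdat t b).A k (.inl (.inr m)) ≠ 0 →
      Q ((wdat t b).A k (.inl (.inr m))) ((wdat t b).form k z) := by
  intro k hk
  rw [wdat_form]
  have e : (wdat t b).A k (.inl (.inr m)) = ∑ p, (fac t k).α p * cf t k.1 p (.inl (.inr m)) := rfl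
  rw [e] at hk ⊢
  rcases k with ⟨i, f⟩
  have hmem : fac t ⟨i, f⟩ ∈ facs (t i) (decide (i ≠ 0)) (decide (i ≠ Fin.last M)) :=
    List.get_mem _ _
  by_cases e1 : m.1 = i
  · subst e1
    have e3 : ∑ p, (fac t ⟨m.1, f⟩).α p * cf t m.1 p (.inl (.inr m)) =
        (fac t ⟨m.1, f⟩).α 1 := by
      rw [Fin.sum_univ_three]
      simp [cf]
    rw [e3] at hk ⊢
    exact h1 _ hmem hk
  · exact absurd (by rw [Fin.sum_univ_three]; simp [cf, e1]) hk

theorem co_ring {z : DD t ⊕ ZZ t → ℂ} {Q : ℤ → ℂ → Prop} {v : ZZ t}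
    (h1 : FacCo (t v.1) (decide (v.1 ≠ 0)) (decide (v.1 ≠ Fin.last M)) 1 (xx t v.1 z) Q) :
    ∀ k, (wdat t b).A k (.inr v) ≠ 0 →
      Q ((wdat t b).A k (.inr v)) ((wdat t b).form k z) := by
  intro k hk
  rw [wdat_form]
  have e : (wdat t b).A k (.inr v) = ∑ p, (fac t k).α p * cf t k.1 p (.inr v) := rfl
  rw [e] at hk ⊢
  rcases k with ⟨i, f⟩
  have hmem : fac t ⟨i, f⟩ ∈ facs (t i) (decide (i ≠ 0)) (decide (i ≠ Fin.last M)) :=
    List.get_mem _ _
  by_cases e1 : v.1 = i
  · subst e1
    have e3 : ∑ p, (fac t ⟨v.1, f⟩).α p * cf t v.1 p (.inr v) =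
        (fac t ⟨v.1, f⟩).α 1 := by
      rw [Fin.sum_univ_three]
      simp [cf]
    rw [e3] at hk ⊢
    exact h1 _ hmem hk
  · exact absurd (by rw [Fin.sum_univ_three]; simp [cf, e1]) hk

end

end Pool.Agent.Work.MP_b30479_gt.G2
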