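import Pool.Agent.Work.MP_b30479_gt.G2.RngA
import Pool.Agent.Work.MP_b30479_gt.G2.MPReg

/-!
# The ring variable at a maximiser: first order condition, lower location
-/

namespace Pool.Agent.Work.MP_b30479_gt.G2

open Finset VOL Filter Topology

/-- the derivative of `UU` in the direction `1 + i m` -/
noncomputable def Dq (m : ℝ) (u : ℂ) : ℝ := LL u + m * YY u

/-- the derivative of `fR w` in the ring variable, direction `1 + i m` -/
noncomputable def Dm (m : ℝ) (w ζ : ℂ) : ℝ := Dq m (w + 1 / 2 + ζ) - Dq m (w + 1 / 2 - ζ)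

theorem hasDerivAt_UU_q {u : ℂ} {a m s : ℝ} (h : QQm m (u + s * (a * (1 + m * Complex.I)))) :
    HasDerivAt (fun s : ℝ => UU (u + s * (a * (1 + m * Complex.I))))
      (a * Dq m (u + s * (a * (1 + m * Complex.I)))) s := by
  obtain ⟨h1, h2⟩ := h
  by_cases hm : m = 0
  · subst hm
    have e : ∀ s : ℝ, u + s * (a * (1 + ((0 : ℝ) : ℂ) * Complex.I)) = u + (a * s : ℝ) := by
      intro s
      push_cast
      ring
    simp only [e] at h1 ⊢
    refine (hasDerivAt_UU_level u a s h1).congr_deriv ?_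
    unfold Dq
    ring
  · have hc : HasDerivAt (fun s : ℝ => u + s * ((a : ℂ) * (1 + m * Complex.I)))
        ((a : ℂ) * (1 + m * Complex.I)) s := by
      have := ((Complex.ofRealCLM.hasDerivAt (x := s)).mul_const
        ((a : ℂ) * (1 + m * Complex.I))).const_add u
      simpa using this
    refine (hasDerivAt_UU hc (h2 hm)).congr_deriv ?_
    unfold Dq
    simp
    ring

/-- one factor: regular or singular with a negative coefficient -/
theorem ev_fac {u : ℂ} {m a : ℝ} (hs : Complex.sin (Real.pi * u) = 0 → a < 0)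
    (hk : u.im = 0 → u ∉ strip → 1 / 2 < u.re) {η : ℝ} (hη : 0 < η) :
    ∀ᶠ s : ℝ in 𝓝[>] 0, a * Dq m u - η < a * Dq m (u + s * (a * (1 + m * Complex.I))) := by
  by_cases h : Complex.sin (Real.pi * u) = 0
  · exact ev_factor_sing (c := (a : ℂ) * (1 + m * Complex.I)) (m := m) (a := a) (by simp) (hs h) h _
  · exact ev_factor (c := (a : ℂ) * (1 + m * Complex.I)) (m := m) (a := a) (by simp) h
      (fun _ => hk) hη

/-- conditions for the factors `w + 1/2 ± ζ` -/
structure FC (w ζ : ℂ) : Prop where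
  s1 : w + 1 / 2 + ζ ∈ strip
  k2 : 1 / 2 ≤ (w + 1 / 2 - ζ).re

theorem FC.of {w ζ : ℂ} (h0 : 0 ≤ w.re) (h1 : w.re + ζ.re < 1 / 2) (h2 : ζ.re ≤ 0)
    (h3 : -(1 / 2) < ζ.re) : FC w ζ := by
  refine ⟨⟨?_, ?_⟩, ?_⟩
  · simp
    linarith only [h0, h3]
  · simp
    linarith only [h1]
  · simp
    linarith only [h0, h2]

theorem FC.ev {w ζ : ℂ} (h : FC w ζ) (m : ℝ) {η : ℝ} (hη : 0 < η) : ∀ᶠ s : ℝ in 𝓝[>] 0,
    Dm m w ζ - η < Dm m w (ζ + s * (1 + m * Complex.I)) := by
  have h1 := ev_fac (m := m) (a := 1) (u := w + 1 / 2 + ζ)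
    (fun hs => absurd hs (sin_ne_of_strip h.s1)) (fun _ hn => absurd h.s1 hn) (half_pos hη)
  have h2 := ev_fac (m := m) (a := -1) (u := w + 1 / 2 - ζ) (fun _ => by norm_num)
    (fun hi hn => ?_) (half_pos hη)
  · filter_upwards [h1, h2] with s a1 a2
    unfold Dm
    have e1 : w + 1 / 2 + (ζ + s * (1 + m * Complex.I)) =
        w + 1 / 2 + ζ + s * (((1 : ℝ) : ℂ) * (1 + m * Complex.I)) := by
      push_cast
      ring
    have e2 : w + 1 / 2 - (ζ + s * (1 + m * Complex.I)) =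
        w + 1 / 2 - ζ + s * (((-1 : ℝ) : ℂ) * (1 + m * Complex.I)) := by
      push_cast
      ring
    rw [e1, e2]
    linarith only [a1, a2]
  · rcases h.k2.lt_or_eq with h3 | h3
    · exact h3
    · exact absurd ⟨by rw [← h3]; norm_num, by rw [← h3]; norm_num⟩ hn

theorem FC.reg (w ζ : ℂ) (m : ℝ) : ∀ᶠ s : ℝ in 𝓝[>] 0,
    QQm m (w + 1 / 2 + ζ + s * (((1 : ℝ) : ℂ) * (1 + m * Complex.I))) ∧
    QQm m (w + 1 / 2 - ζ + s * (((-1 : ℝ) : ℂ) * (1 + m * Complex.I))) := by
  refine Filter.Eventually.and ?_ ?_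
  · exact ev_reg (by simp) (by simp)
  · exact ev_reg (by simp) (by simp)

theorem hasDerivAt_fR {w ζ : ℂ} {m s : ℝ}
    (h1 : QQm m (w + 1 / 2 + ζ + s * (((1 : ℝ) : ℂ) * (1 + m * Complex.I))))
    (h2 : QQm m (w + 1 / 2 - ζ + s * (((-1 : ℝ) : ℂ) * (1 + m * Complex.I)))) :
    HasDerivAt (fun s : ℝ => fR w (ζ + s * (1 + m * Complex.I)))
      (Dm m w (ζ + s * (1 + m * Complex.I))) s := by
  have e1 : ∀ s : ℝ, w + 1 / 2 + (ζ + s * (1 + m * Complex.I)) =
      w + 1 / 2 + ζ + s * (((1 : ℝ) : ℂ) * (1 + m * Complex.I)) := by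
    intro s
    push_cast
    ring
  have e2 : ∀ s : ℝ, w + 1 / 2 - (ζ + s * (1 + m * Complex.I)) =
      w + 1 / 2 - ζ + s * (((-1 : ℝ) : ℂ) * (1 + m * Complex.I)) := by
    intro s
    push_cast
    ring
  unfold fR Dm
  simp only [e1, e2]
  refine (((hasDerivAt_UU_q h1).add (hasDerivAt_UU_q h2)).sub_const (2 * UU w)).congr_deriv ?_
  ring

/-- the derivative of the quadratic part along the direction `1 + i m` at height `η` -/
noncomputable def nd (b m σ η : ℝ) : ℝ := -(2 * Real.pi * m * (b * σ + 1)) - 2 * Real.pi * b * η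

/-- **First order condition to the right.** -/
theorem RM.right_le {b ρ σ m : ℝ} {w w' : ℂ} (h : RM b ρ w w' σ)
    (hm : ∀ᶠ s : ℝ in 𝓝[>] 0, |σ + s| ≤ 1 / 2 ∧ ρ * LT.th (σ + s) = ρ * LT.th σ + s * m)
    (h1 : FC w (LT.zt ρ σ)) (h2 : FC w' (LT.zt ρ σ)) :
    nd b m σ (ρ * LT.th σ) + Dm m w (LT.zt ρ σ) + Dm m w' (LT.zt ρ σ) ≤ 0 := by
  by_contra hcon
  push Not at hcon
  set ζ := LT.zt ρ σ with hζ
  set η := ρ * LT.th σ with hη
  set G := nd b m σ η + Dm m w ζ + Dm m w' ζ with hG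
  -- the function near `σ`
  set F : ℝ → ℝ := fun s => -(2 * Real.pi * (η + s * m) * (b * (σ + s) + 1)) +
    fR w (ζ + s * (1 + m * Complex.I)) + fR w' (ζ + s * (1 + m * Complex.I)) with hF
  have hzt : ∀ s : ℝ, ρ * LT.th (σ + s) = η + s * m →
      LT.zt ρ (σ + s) = ζ + s * (1 + m * Complex.I) := by
    intro s hs
    rw [zt_eq, hs, hζ, zt_eq, ← hη]
    push_cast
    ring
  have hFrg : ∀ s : ℝ, ρ * LT.th (σ + s) = η + s * m → rg b ρ w w' (σ + s) = F s := by
    intro s hs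
    unfold rg
    rw [hzt s hs, hs]
  -- derivative
  have hev := (h1.ev m (show 0 < G / 4 by linarith only [hcon])).and
    ((h2.ev m (show 0 < G / 4 by linarith only [hcon])).and ((FC.reg w ζ m).and (FC.reg w' ζ m)))
  have hpol : ∀ᶠ s : ℝ in 𝓝[>] 0, nd b m σ η - G / 4 < nd b m (σ + s) (η + s * m) := by
    have hc : ContinuousAt (fun s : ℝ => nd b m (σ + s) (η + s * m)) 0 := by
      unfold nd
      fun_prop
    have h3 := hc.eventually (lt_mem_nhds (a := nd b m σ η - G / 4) (by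
      simp only [add_zero, zero_mul]
      linarith only [hcon]))
    exact h3.filter_mono nhdsWithin_le_nhds
  have hall := hev.and (hpol.and hm)
  obtain ⟨r, hr0, hr⟩ := mem_nhdsGT_iff_exists_Ioo_subset.1 hall
  have hr0' : (0 : ℝ) < r := hr0
  have hder : ∀ s ∈ Set.Ioo (0 : ℝ) r, HasDerivAt F (nd b m (σ + s) (η + s * m) +
      Dm m w (ζ + s * (1 + m * Complex.I)) + Dm m w' (ζ + s * (1 + m * Complex.I))) s := by
    intro s hs
    obtain ⟨⟨-, -, ⟨q1, q2⟩, ⟨q3, q4⟩⟩, -, -⟩ := hr hs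
    have p1 : HasDerivAt (fun s : ℝ => -(2 * Real.pi * (η + s * m) * (b * (σ + s) + 1)))
        (nd b m (σ + s) (η + s * m)) s := by
      have a1 : HasDerivAt (fun s : ℝ => η + s * m) m s := by
        simpa using ((hasDerivAt_id s).mul_const m).const_add η
      have a2 : HasDerivAt (fun s : ℝ => b * (σ + s) + 1) b s := by
        simpa using (((hasDerivAt_id s).const_add σ).const_mul b).add_const 1
      have a3 := ((a1.const_mul (2 * Real.pi)).mul a2).neg
      refine a3.congr_deriv ?_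
      unfold nd
      ring
    exact (p1.add (hasDerivAt_fR q1 q2)).add (hasDerivAt_fR q3 q4)
  have hcont : ContinuousOn F (Set.Icc 0 (r / 2)) := by
    apply Continuous.continuousOn
    have := continuous_UU
    rw [hF]
    unfold fR
    fun_prop
  have hmono : StrictMonoOn F (Set.Icc 0 (r / 2)) := by
    apply strictMonoOn_of_deriv_pos (convex_Icc _ _) hcont
    intro s hs
    rw [interior_Icc] at hs
    have hs' : s ∈ Set.Ioo (0 : ℝ) r := ⟨hs.1, by linarith only [hr0', hs, hs.2]⟩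
    rw [(hder s hs').deriv]
    obtain ⟨⟨a1, a2, -, -⟩, a3, -⟩ := hr hs'
    linarith only [hcon, a1, a2, a3]
  have hr2 : r / 2 ∈ Set.Ioo (0 : ℝ) r := ⟨by linarith only [hr0'], by linarith only [hr0']⟩
  have h3 := hmono (Set.left_mem_Icc.mpr (by linarith only [hr0'])) (Set.right_mem_Icc.mpr (by linarith only [hr0']))
    (show (0 : ℝ) < r / 2 by linarith only [hr0'])
  obtain ⟨-, -, hab, hth⟩ := hr hr2
  have h4 := h.mx (σ + r / 2) hab
  have h5 : rg b ρ w w' σ = F 0 := by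
    have := hFrg 0 (by simp [hη])
    rwa [add_zero] at this
  rw [hFrg _ hth, h5] at h4
  linarith only [h3, h4]

/-- on the left ramp of the path of the ring variable -/
theorem RM.right_ramp {b ρ σ : ℝ} {w w' : ℂ} (h : RM b ρ w w' σ) (h0 : -(1 / 2) < σ)
    (h1 : σ < -(1 / 4)) (hw : 0 ≤ w.re) (hw1 : w.re + σ < 1 / 2) (hw' : 0 ≤ w'.re)
    (hw1' : w'.re + σ < 1 / 2) :
    -(4 * Real.pi * ρ * (2 + b + 4 * b * σ)) + Dm (4 * ρ) w (LT.zt ρ σ) +
      Dm (4 * ρ) w' (LT.zt ρ σ) ≤ 0 := by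
  have e : ∀ s : ℝ, 0 ≤ s → s < -(1 / 4) - σ → LT.th (σ + s) = 2 + 4 * (σ + s) := by
    intro s hs0 hs
    have : |σ + s| = -(σ + s) := abs_of_neg (by linarith only [h0, h1, hs])
    rw [th_of_ge (by rw [this]; linarith only [hs]), this]
    ring
  have hth : LT.th σ = 2 + 4 * σ := by
    have := e 0 le_rfl (by linarith only [h1])
    rwa [add_zero] at this
  have hzr : (LT.zt ρ σ).re = σ := by simp [LT.zt]
  have key := h.right_le (m := 4 * ρ) ?_
    (FC.of hw (by rw [hzr]; exact hw1) (by rw [hzr]; linarith only [h0, h1]) (by rw [hzr]; exact h0))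
    (FC.of hw' (by rw [hzr]; exact hw1') (by rw [hzr]; linarith only [h0, h1]) (by rw [hzr]; exact h0))
  · rw [hth] at key
    unfold nd at key
    linarith only [key]
  · filter_upwards [ev_small (show 0 < -(1 / 4) - σ by linarith only [h1])] with s hs
    refine ⟨?_, ?_⟩
    · rw [abs_le]
      constructor <;> linarith only [h0, hs, hs.1, hs.2]
    · rw [e s hs.1.le hs.2, hth]
      ring

/-- on the flat part of the path of the ring variable -/
theorem RM.right_flat {b ρ σ : ℝ} {w w' : ℂ} (h : RM b ρ w w' σ) (h0 : -(1 / 4) ≤ σ)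
    (h1 : σ ≤ 0) (hw : 0 ≤ w.re) (hw1 : w.re + σ < 1 / 2) (hw' : 0 ≤ w'.re)
    (hw1' : w'.re + σ < 1 / 2) :
    -(2 * Real.pi * b * ρ) + Dm 0 w (LT.zt ρ σ) + Dm 0 w' (LT.zt ρ σ) ≤ 0 := by
  have e : ∀ s : ℝ, 0 ≤ s → s < 1 / 4 - σ → LT.th (σ + s) = 1 := by
    intro s hs0 hs
    apply th_of_le
    rw [abs_le]
    constructor <;> linarith only [h0, hs0, hs]
  have hth : LT.th σ = 1 := by
    have := e 0 le_rfl (by linarith only [h1])
    rwa [add_zero] at this
  have hzr : (LT.zt ρ σ).re = σ := by simp [LT.zt]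
  have key := h.right_le (m := 0) ?_
    (FC.of hw (by rw [hzr]; exact hw1) (by rw [hzr]; linarith only [h1]) (by rw [hzr]; linarith only [h0]))
    (FC.of hw' (by rw [hzr]; exact hw1') (by rw [hzr]; linarith only [h1]) (by rw [hzr]; linarith only [h0]))
  · rw [hth] at key
    unfold nd at key
    linarith only [key]
  · filter_upwards [ev_small (show 0 < 1 / 4 - σ by linarith only [h1])] with s hs
    refine ⟨?_, ?_⟩
    · rw [abs_le]
      constructor <;> linarith only [h0, hs, hs.1, hs.2]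
    · rw [e s hs.1.le hs.2, hth]
      ring

end Pool.Agent.Work.MP_b30479_gt.G2
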