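import Pool.Agent.Work.MP_b30479_gt.G2.RV
import Pool.Agent.Work.MP_b30479_gt.G2.RngB
import Pool.Agent.Work.NumU.ChkS

/-!
# Lower location of the ring variable next to a ring of equal sign: rows

`gap = fu x t (-1/4) ρ - fu x t (-1/2 + s) (4ρs)`, `D = Dm (4ρ) w ζ`, `w = x + i t`,
`ζ = -1/2 + s + 4ρs i`; everything for `4ρs ≤ t`.
-/

set_option linter.unusedSimpArgs false

namespace Pool.Agent.Work.MP_b30479_gt.G2

open VOL NumU

namespace GE

section
open NumI (V)
open NumU.E

/-! expressions: `var 0` is `x`, `x - s` or `s - x`; `t - 4ρs = var 1`, `s = var 2`, `ρ = var 3` -/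

def e0 : E := var 0
def eK : E := var 1
def eS : E := var 2
def eR : E := var 3
def eH : E := mul (mul (q 4 1) (var 3)) (var 2)
def eT : E := add eK eH
def u2 : E := add eK (mul (q 8 1) (mul (var 3) (var 2)))
/-- `x` in the second and third form -/
def x1 : E := add e0 eS
def x2 : E := sub eS e0
/-- `x + s` -/
def y1 : E := add e0 (mul (q 2 1) eS)
def y2 : E := sub (mul (q 2 1) eS) e0

def ba (X Y : E) : E := sub (add (E.uu (add X (q 1 4)) (add eT eR)) (E.uu (add X (q 3 4)) (sub eT eR)))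
  (E.uu Y u2)
def g0 : E := sub (ba e0 (add e0 eS)) (add (E.uu (sub e0 eS) eK) (mul pi eK))
def g1 : E := sub (ba x1 y1) (add (E.uu e0 eK) (mul pi eK))
def g2 : E := add (ba x2 y2) (E.uu e0 eK)
def g3 : E := add (ba x1 y1) (E.uu (q 3 100) eK)
def aft : E := sub (neg (E.uu (add e0 eS) u2)) (add (E.uu (sub e0 eS) eK) (mul pi eK))
def h1 : E := add (add (E.uu (add e0 (q 1 4)) (add eT eR)) (mul (mul pi (q 1 2)) (sub eT eR))) aft
def h2 : E := add (add (E.uu (add e0 (q 1 4)) (add eT eR)) (mul (mul pi (q 1 2)) (sub eR eT))) aft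
def k1 : E := add (add (add (E.uu (add e0 (q 1 4)) (add eT eR)) (E.uu (q 1 100) (sub eT eR)))
  (mul pi (sub eT eR))) aft
def k2 : E := add (add (add (E.uu (add e0 (q 1 4)) (add eT eR)) (E.uu (q 1 100) (sub eT eR)))
  (mul pi (sub eR eT))) aft
def l1 : E := add (add (add (E.uu (add e0 (q 1 4)) (add eT eR)) (E.uu (sub e0 (q 1 4)) (sub eT eR)))
  (mul pi (sub eT eR))) aft
def l2 : E := add (add (add (E.uu (add e0 (q 1 4)) (add eT eR)) (E.uu (sub e0 (q 1 4)) (sub eT eR)))
  (mul pi (sub eR eT))) aft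
def DX (Y : E) : E := sub (E.lnA Y u2) (mul (mul (q 4 1) eR) (E.lnB Y u2))
def D0 : E := sub (DX (add e0 eS)) (add (E.lnA (sub e0 eS) eK)
  (mul (mul (q 4 1) eR) (sub pi (E.lnB (sub e0 eS) eK))))
def D1 : E := sub (DX y1) (add (E.lnA e0 eK) (mul (mul (q 4 1) eR) (sub pi (E.lnB e0 eK))))
def D2 : E := sub (DX y2) (sub (E.lnA (sub (q 1 1) e0) eK)
  (mul (mul (q 4 1) eR) (E.lnB (sub (q 1 1) e0) eK)))
def Dc : E := sub (DX y1) (add (mul (q 1 2) (E.log (add (mul (q 2 1)
  (sub (E.cosh (mul (mul (q 2 1) pi) eK)) (E.cosPi (mul (q 2 1) e0)))) (q 1 20))))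
    (mul (mul (q 4 1) eR) pi))
def o1 : E := mul (mul (mul (q 8 1) pi) (mul eR eS)) (sub (q 1 1) (mul (q 4 1) eS))
def o2 : E := mul (mul (mul (q 4 1) pi) eR) (sub (q 2 1) (mul (q 16 1) eS))
def o3 : E := mul (mul pi eR) (sub (q 1 1) (mul (q 4 1) eS))
/-- constraints -/
def cT : E := sub eT (q 56 1000)
def cU : E := sub eT (q 465 10000)
def cA (n : ℤ) : E := sub (q n 1000) (sub e0 eS)
def cB (n : ℤ) : E := sub x1 (q n 100)
def cC : E := sub (q 1 10) x1
def cD : E := sub (q 1 10) x2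

end

variable {s ρ x t : ℝ} {w ζ : ℂ}

/-! ### values -/

theorem gap_eq : fu x t (-(1 / 4)) ρ - fu x t (-(1 / 2) + s) (4 * ρ * s) =
    uu (x + 1 / 4) (t + ρ) + uu (x + 3 / 4) (t - ρ) - uu (x + s) (t + 4 * ρ * s) -
      uu (x + 1 - s) (t - 4 * ρ * s) := by
  unfold fu
  rw [show x + 1 / 2 + -(1 / 4) = x + 1 / 4 by ring, show x + 1 / 2 - -(1 / 4) = x + 3 / 4 by ring,
    show x + 1 / 2 + (-(1 / 2) + s) = x + s by ring,
    show x + 1 / 2 - (-(1 / 2) + s) = x + 1 - s by ring]
  ring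

theorem far (h : 4 * ρ * s ≤ t) : uu (x + 1 - s) (t - 4 * ρ * s) =
    uu (x - s) (t - 4 * ρ * s) + Real.pi * (t - 4 * ρ * s) := by
  rw [RV.beyond (show x + 1 - s = (x - s) + 1 by ring), abs_of_nonneg (by linarith only [h])]

theorem near : uu (x + 1 - s) (t - 4 * ρ * s) = -uu (s - x) (t - 4 * ρ * s) :=
  RV.before (by ring)

theorem corner (h : 4 * ρ * s ≤ t) (ht : t ≤ 56 / 1000) (hs : 0 ≤ s) (hρ : 0 ≤ ρ)
    (h1 : x - s ≤ 3 / 100) (h2 : s - x ≤ 3 / 100) :
    uu (3 / 100) (t - 4 * ρ * s) ≤ -uu (x + 1 - s) (t - 4 * ρ * s) := by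
  rw [near, neg_neg]
  have e : 0 ≤ 4 * ρ * s := by positivity
  exact RV.anti (by linarith only [h1]) (by linarith only [h2]) (by norm_num)
    (by rw [abs_le]; constructor <;> linarith only [h, ht, e])

/-- `x + 3/4` below one -/
theorem half (hx : 24 / 100 ≤ x) (hx' : x ≤ 1 / 4) (ht : |t - ρ| ≤ 11 / 100) :
    Real.pi / 2 * |t - ρ| ≤ uu (x + 3 / 4) (t - ρ) := by
  have h6 := VC3.UU_small (x := 1 / 4 - x) (y := t - ρ) (by linarith only [hx']) (by linarith only [hx]) ht
  have h7 := RV.before (y := t - ρ) (show x + 3 / 4 = 1 - (1 / 4 - x) by ring)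
  rw [h7]
  have h8 : uu (1 / 4 - x) (t - ρ) ≤ -(Real.pi / 2 * |t - ρ|) := h6
  linarith only [h8]

theorem past : uu (x + 3 / 4) (t - ρ) = uu (x - 1 / 4) (t - ρ) + Real.pi * |t - ρ| :=
  RV.beyond (by ring)

theorem past' (hx : 1 / 4 ≤ x) (hx' : x ≤ 26 / 100) (ht : |t - ρ| ≤ 11 / 100) :
    uu (1 / 100) (t - ρ) + Real.pi * |t - ρ| ≤ uu (x + 3 / 4) (t - ρ) := by
  rw [past]
  have := RV.anti (a := x - 1 / 4) (b := 1 / 100) (y := t - ρ) (by linarith only [hx]) (by linarith only [hx'])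
    (by norm_num) ht
  linarith only [this]

/-- `gap` above an offset `o` which is evaluated by an expression: tactic for the four parts -/
theorem absdiff (ht0 : 0 ≤ t) (ht : t ≤ 56 / 1000) (hρ : 0 ≤ ρ) (hρ' : ρ ≤ 1045 / 10000) :
    |t - ρ| ≤ 11 / 100 := by
  rw [abs_le]
  constructor <;> linarith only [ht0, hρ', ht, hρ]

theorem pa1 : Real.pi * (t - ρ) ≤ Real.pi * |t - ρ| :=
  mul_le_mul_of_nonneg_left (le_abs_self _) Real.pi_pos.le

theorem pa2 : Real.pi * (ρ - t) ≤ Real.pi * |t - ρ| := by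
  rw [abs_sub_comm]
  exact mul_le_mul_of_nonneg_left (le_abs_self _) Real.pi_pos.le

/-! ### first order -/

theorem lnB_zero (y : ℝ) : NumI.lnB y 0 = 0 := by
  unfold NumI.lnB
  simp

section D

variable (hw : w.re = x) (hwi : w.im = t) (hζ : ζ.re = -(1 / 2) + s) (hζi : ζ.im = 4 * ρ * s)

include hw hwi hζ hζi

theorem u_eq : w + 1 / 2 + ζ = ⟨x + s, t + 4 * ρ * s⟩ := by
  apply Complex.ext
  · simp [hw, hζ]
  · simp [hwi, hζi]

theorem v_eq : w + 1 / 2 - ζ = ⟨x + 1 - s, t - 4 * ρ * s⟩ := by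
  apply Complex.ext
  · simp [hw, hζ]
    ring
  · simp [hwi, hζi]

theorem DX_eq (h0 : 0 < x + s) (h1 : x + s < 1) :
    Dq (4 * ρ) (w + 1 / 2 + ζ) = NumI.lnA (x + s) (t + 4 * ρ * s) -
      4 * ρ * NumI.lnB (x + s) (t + 4 * ρ * s) := by
  have hs : (⟨x + s, t + 4 * ρ * s⟩ : ℂ) ∈ strip := ⟨h0, h1⟩
  unfold Dq
  rw [u_eq hw hwi hζ hζi, Num.LL_lnA hs, Num.YY_lnB hs]
  ring

/-- `s > x` -/
theorem D3_eq (h0 : 0 < x + s) (h1 : x + s < 1) (h2 : x < s) (h3 : s < x + 1) :
    Dm (4 * ρ) w ζ = NumI.lnA (x + s) (t + 4 * ρ * s) - 4 * ρ * NumI.lnB (x + s) (t + 4 * ρ * s) -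
      (NumI.lnA (x + 1 - s) (t - 4 * ρ * s) - 4 * ρ * NumI.lnB (x + 1 - s) (t - 4 * ρ * s)) := by
  have hs : (⟨x + 1 - s, t - 4 * ρ * s⟩ : ℂ) ∈ strip := ⟨by simp only; linarith only [h3], by simp only; linarith only [h2]⟩
  unfold Dm
  rw [DX_eq hw hwi hζ hζi h0 h1]
  unfold Dq
  rw [v_eq hw hwi hζ hζi, Num.LL_lnA hs, Num.YY_lnB hs]
  ring

/-- `s < x` -/
theorem D1_le (hρ : 0 ≤ ρ) (h0 : 0 < x + s) (h1 : x + s < 1) (h2 : s < x) (h3 : x < s + 1)
    (h : 4 * ρ * s ≤ t) :
    NumI.lnA (x + s) (t + 4 * ρ * s) - 4 * ρ * NumI.lnB (x + s) (t + 4 * ρ * s) -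
      (NumI.lnA (x - s) (t - 4 * ρ * s) + 4 * ρ * (Real.pi - NumI.lnB (x - s) (t - 4 * ρ * s))) ≤
        Dm (4 * ρ) w ζ := by
  have hs : (⟨x - s, t - 4 * ρ * s⟩ : ℂ) ∈ strip := ⟨by simp only; linarith only [h2], by simp only; linarith only [h3]⟩
  have hv : (⟨x + 1 - s, t - 4 * ρ * s⟩ : ℂ) = ⟨x - s, t - 4 * ρ * s⟩ + 1 := by
    apply Complex.ext
    · simp
      ring
    · simp
  have hL : LL ⟨x + 1 - s, t - 4 * ρ * s⟩ = NumI.lnA (x - s) (t - 4 * ρ * s) := by
    rw [hv, LL_add_one, Num.LL_lnA hs]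
  have hY : YY ⟨x + 1 - s, t - 4 * ρ * s⟩ ≤ Real.pi - NumI.lnB (x - s) (t - 4 * ρ * s) := by
    rcases eq_or_lt_of_le h with h4 | h4
    · rw [YY_zero (show (⟨x + 1 - s, t - 4 * ρ * s⟩ : ℂ).im = 0 by simp only; linarith only [h, h4])]
      rw [show t - 4 * ρ * s = 0 by linarith only [h, h4], lnB_zero]
      have := Real.pi_pos
      linarith only [this]
    · rw [hv, YY_add_one, if_pos (show 0 < (⟨x - s, t - 4 * ρ * s⟩ : ℂ).im by simp only; linarith only [h4]),
        Num.YY_lnB hs]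
      linarith only []
  unfold Dm
  rw [DX_eq hw hwi hζ hζi h0 h1]
  unfold Dq
  rw [v_eq hw hwi hζ hζi, hL]
  have := mul_le_mul_of_nonneg_left hY (by positivity : (0 : ℝ) ≤ 4 * ρ)
  linarith only [this]

/-- near the corner -/
theorem Dc_le (hρ : 0 ≤ ρ) (h0 : 0 < x + s) (h1 : x + s < 1) (h2 : x ≤ s + 1 / 2)
    (h : 4 * ρ * s ≤ t) :
    NumI.lnA (x + s) (t + 4 * ρ * s) - 4 * ρ * NumI.lnB (x + s) (t + 4 * ρ * s) ≤ Dm (4 * ρ) w ζ ∨
    NumI.lnA (x + s) (t + 4 * ρ * s) - 4 * ρ * NumI.lnB (x + s) (t + 4 * ρ * s) -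
      (1 / 2 * Real.log (2 * (Real.cosh (2 * Real.pi * (t - 4 * ρ * s)) -
        Real.cos (Real.pi * (2 * (x - s)))) + 1 / 20) + 4 * ρ * Real.pi) ≤ Dm (4 * ρ) w ζ := by
  have hp := Real.pi_pos
  have hcos : Real.cos (2 * Real.pi * (x + 1 - s)) = Real.cos (Real.pi * (2 * (x - s))) := by
    rw [show 2 * Real.pi * (x + 1 - s) = Real.pi * (2 * (x - s)) + 2 * Real.pi by ring,
      Real.cos_add_two_pi]
  have hY : YY ⟨x + 1 - s, t - 4 * ρ * s⟩ ≤ Real.pi := by
    rcases eq_or_lt_of_le h with h4 | h4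
    · rw [YY_zero (show (⟨x + 1 - s, t - 4 * ρ * s⟩ : ℂ).im = 0 by simp only; linarith only [h, h4])]
      exact hp.le
    · have h5 : 0 < t - 4 * ρ * s := by linarith only [h4]
      rw [YY_pos (show 0 < (⟨x + 1 - s, t - 4 * ρ * s⟩ : ℂ).im from h5)]
      have h6 := Tr_mono h5 (show x + 1 - s ≤ 1 / 2 + 1 by linarith only [h2])
      rw [Tr_add_one, Tr_half h5] at h6
      simp only
      linarith only [h6]
  have hY' := mul_le_mul_of_nonneg_left hY (by positivity : (0 : ℝ) ≤ 4 * ρ)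
  have hL := LL_eq' ⟨x + 1 - s, t - 4 * ρ * s⟩
  simp only [hcos] at hL
  have hnn : 0 ≤ 2 * Real.cosh (2 * Real.pi * (t - 4 * ρ * s)) -
      2 * Real.cos (Real.pi * (2 * (x - s))) := by
    have := Real.one_le_cosh (2 * Real.pi * (t - 4 * ρ * s))
    have := Real.cos_le_one (Real.pi * (2 * (x - s)))
    linarith
  unfold Dm
  rw [DX_eq hw hwi hζ hζi h0 h1]
  unfold Dq
  rw [v_eq hw hwi hζ hζi]
  rcases eq_or_lt_of_le hnn with h4 | h4
  · left
    rw [← h4, Real.log_zero, zero_div] at hL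
    rw [hL]
    rcases eq_or_lt_of_le h with h5 | h5
    · rw [YY_zero (show (⟨x + 1 - s, t - 4 * ρ * s⟩ : ℂ).im = 0 by simp only; linarith only [h, h5])]
      linarith only []
    · exfalso
      have h6 : 1 < Real.cosh (2 * Real.pi * (t - 4 * ρ * s)) := by
        rw [Real.one_lt_cosh]
        have : 0 < 2 * Real.pi * (t - 4 * ρ * s) := by
          have : 0 < t - 4 * ρ * s := by linarith only [h5]
          positivity
        exact this.ne'
      have := Real.cos_le_one (Real.pi * (2 * (x - s)))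
      linarith only [h4, h6, this]
  · right
    have h5 := Real.log_le_log h4 (show 2 * Real.cosh (2 * Real.pi * (t - 4 * ρ * s)) -
      2 * Real.cos (Real.pi * (2 * (x - s))) ≤ 2 * (Real.cosh (2 * Real.pi * (t - 4 * ρ * s)) -
        Real.cos (Real.pi * (2 * (x - s)))) + 1 / 20 by linarith only [h0, h1])
    rw [hL]
    linarith only [hY', h5]

end D

/-! ### rows -/

theorem r31 (hx : 1 / 10 ≤ x) (hx' : x ≤ 24 / 100) (hs : 0 < s) (hs' : s ≤ 7 / 100)
    (ht' : t ≤ 56 / 1000) (hρ : 0 < ρ) (hρ' : ρ ≤ 1045 / 10000)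
    (hη : 4 * ρ * s ≤ t) :
    fu x t (-(1 / 2) + s) (4 * ρ * s) < fu x t (-(1 / 4)) ρ := by
  have e : 0 ≤ 4 * ρ * s := mul_nonneg (by linarith only [hρ]) (by linarith only [hs])
  have e1 : x - s + 2 * s = x + s := by ring
  have e2 : t - 4 * ρ * s + 8 * (ρ * s) = t + 4 * ρ * s := by ring
  have e3 : 2 * s - (s - x) = x + s := by ring
  have e4 : 1 - (s - x) = x + 1 - s := by ring
  have hg := gap_eq (s := s) (ρ := ρ) (x := x) (t := t)
  have hf1 := far (x := x) hη
  have h : chk [g0, cT, cA 30] 24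
    [NumI.V.of 10000 1000 2400, NumI.V.of 10000 0 560,
      NumI.V.of 10000 0 700, NumI.V.of 10000 0 1045] = true := by
    decide +kernel
  obtain ⟨f, hf, hp⟩ := chk4 h (by norm_num) (x := x) (y := t - 4 * ρ * s) (z := s) (w := ρ)
    (by norm_num; linarith only [hx]) (by norm_num; linarith only [hx']) (by norm_num; linarith only [hη]) (by norm_num; linarith only [ht', e])
    (by norm_num; linarith only [hs]) (by norm_num; linarith only [hs']) (by norm_num; linarith only [hρ]) (by norm_num; linarith only [hρ'])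
  simp only [List.mem_cons, List.not_mem_nil, or_false] at hf
  rcases hf with rfl | rfl | rfl
  · simp only [g0, ba, x1, x2, y1, y2, u2, e0, eT, eK, eS, eR, eH, E.val, NumI.lkR] at hp
    push_cast at hp
    try simp only [div_one, sub_add_cancel, sub_sub_cancel, e1, e2, e3, e4] at hp
    linarith only [hg, hf1, hp]
  · simp only [cT, x1, x2, y1, y2, u2, e0, eT, eK, eS, eR, eH, E.val, NumI.lkR] at hp
    push_cast at hp
    try simp only [div_one, sub_add_cancel, sub_sub_cancel, e1, e2, e3, e4] at hp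
    linarith only [ht', hp]
  · simp only [cA, x1, x2, y1, y2, u2, e0, eT, eK, eS, eR, eH, E.val, NumI.lkR] at hp
    push_cast at hp
    try simp only [div_one, sub_add_cancel, sub_sub_cancel, e1, e2, e3, e4] at hp
    linarith only [hx, hs', hp]

theorem r31b_h1_q1 : chk [g0, cT, cA 50] 23
    (NumI.setL 0 [NumI.V.of 10000 1000 2400, NumI.V.of 10000 0 560,
      NumI.V.of 10000 700 2000, NumI.V.of 10000 0 1045]) = true := by
  decide +kernel

theorem r31b_h1_q2 : chk [g0, cT, cA 50] 22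
    (NumI.setL 2 (NumI.setR 0 [NumI.V.of 10000 1000 2400, NumI.V.of 10000 0 560,
      NumI.V.of 10000 700 2000, NumI.V.of 10000 0 1045])) = true := by
  decide +kernel

theorem r31b_h1_q3 : chk [g0, cT, cA 50] 21
    (NumI.setL 3 (NumI.setR 2 (NumI.setR 0 [NumI.V.of 10000 1000 2400, NumI.V.of 10000 0 560,
      NumI.V.of 10000 700 2000, NumI.V.of 10000 0 1045]))) = true := by
  decide +kernel

theorem r31b_h1_q4 : chk [g0, cT, cA 50] 21
    (NumI.setR 3 (NumI.setR 2 (NumI.setR 0 [NumI.V.of 10000 1000 2400, NumI.V.of 10000 0 560,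
      NumI.V.of 10000 700 2000, NumI.V.of 10000 0 1045]))) = true := by
  decide +kernel

theorem r31b_h1 : chk [g0, cT, cA 50] 24
    [NumI.V.of 10000 1000 2400, NumI.V.of 10000 0 560,
      NumI.V.of 10000 700 2000, NumI.V.of 10000 0 1045] = true :=
  NumU.chk_node (i := 0) (by decide +kernel)
    r31b_h1_q1
    (NumU.chk_node (i := 2) (by decide +kernel)
      r31b_h1_q2
      (NumU.chk_node (i := 3) (by decide +kernel)
        r31b_h1_q3
        r31b_h1_q4))

theorem r31b (hx : 1 / 10 ≤ x) (hx' : x ≤ 24 / 100) (hs : 7 / 100 ≤ s) (hs' : s ≤ 1 / 5)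
    (ht' : t ≤ 56 / 1000) (hρ : 0 < ρ) (hρ' : ρ ≤ 1045 / 10000)
    (hη : 4 * ρ * s ≤ t) (hd : 5 / 100 ≤ x - s) :
    fu x t (-(1 / 2) + s) (4 * ρ * s) < fu x t (-(1 / 4)) ρ := by
  have e : 0 ≤ 4 * ρ * s := mul_nonneg (by linarith only [hρ]) (by linarith only [hs, hρ, hρ'])
  have e1 : x - s + 2 * s = x + s := by ring
  have e2 : t - 4 * ρ * s + 8 * (ρ * s) = t + 4 * ρ * s := by ring
  have e3 : 2 * s - (s - x) = x + s := by ring
  have e4 : 1 - (s - x) = x + 1 - s := by ring
  have hg := gap_eq (s := s) (ρ := ρ) (x := x) (t := t)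
  have hf1 := far (x := x) hη
  have h : chk [g0, cT, cA 50] 24
    [NumI.V.of 10000 1000 2400, NumI.V.of 10000 0 560,
      NumI.V.of 10000 700 2000, NumI.V.of 10000 0 1045] = true := r31b_h1
  obtain ⟨f, hf, hp⟩ := chk4 h (by norm_num) (x := x) (y := t - 4 * ρ * s) (z := s) (w := ρ)
    (by norm_num; linarith only [hs, hρ, hρ', hd]) (by norm_num; linarith only [hx']) (by norm_num; linarith only [hη]) (by norm_num; linarith only [ht', e])
    (by norm_num; linarith only [hs]) (by norm_num; linarith only [hx', hρ, hρ', hd]) (by norm_num; linarith only [hρ]) (by norm_num; linarith only [hρ'])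
  simp only [List.mem_cons, List.not_mem_nil, or_false] at hf
  rcases hf with rfl | rfl | rfl
  · simp only [g0, ba, x1, x2, y1, y2, u2, e0, eT, eK, eS, eR, eH, E.val, NumI.lkR] at hp
    push_cast at hp
    try simp only [div_one, sub_add_cancel, sub_sub_cancel, e1, e2, e3, e4] at hp
    linarith only [hg, hf1, hp]
  · simp only [cT, x1, x2, y1, y2, u2, e0, eT, eK, eS, eR, eH, E.val, NumI.lkR] at hp
    push_cast at hp
    try simp only [div_one, sub_add_cancel, sub_sub_cancel, e1, e2, e3, e4] at hp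
    linarith only [ht', hp]
  · simp only [cA, x1, x2, y1, y2, u2, e0, eT, eK, eS, eR, eH, E.val, NumI.lkR] at hp
    push_cast at hp
    try simp only [div_one, sub_add_cancel, sub_sub_cancel, e1, e2, e3, e4] at hp
    linarith only [hd, hp]

theorem r31c_h1_q1 : chk [g1, cB 24, cC, cT] 23
    (NumI.setL 2 [NumI.V.of 10000 300 500, NumI.V.of 10000 0 560,
      NumI.V.of 10000 500 2000, NumI.V.of 10000 0 1045]) = true := by
  decide +kernel

theorem r31c_h1_q2 : chk [g1, cB 24, cC, cT] 21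
    (NumI.setL 2 (NumI.setL 3 (NumI.setR 2 [NumI.V.of 10000 300 500, NumI.V.of 10000 0 560,
      NumI.V.of 10000 500 2000, NumI.V.of 10000 0 1045]))) = true := by
  decide +kernel

theorem r31c_h1_q3 : chk [g1, cB 24, cC, cT] 19
    (NumI.setL 3 (NumI.setL 1 (NumI.setR 2 (NumI.setL 3 (NumI.setR 2 [NumI.V.of 10000 300 500, NumI.V.of 10000 0 560,
      NumI.V.of 10000 500 2000, NumI.V.of 10000 0 1045]))))) = true := by
  decide +kernel

theorem r31c_h1_q4 : chk [g1, cB 24, cC, cT] 19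
    (NumI.setR 3 (NumI.setL 1 (NumI.setR 2 (NumI.setL 3 (NumI.setR 2 [NumI.V.of 10000 300 500, NumI.V.of 10000 0 560,
      NumI.V.of 10000 500 2000, NumI.V.of 10000 0 1045]))))) = true := by
  decide +kernel

theorem r31c_h1_q5 : chk [g1, cB 24, cC, cT] 20
    (NumI.setR 1 (NumI.setR 2 (NumI.setL 3 (NumI.setR 2 [NumI.V.of 10000 300 500, NumI.V.of 10000 0 560,
      NumI.V.of 10000 500 2000, NumI.V.of 10000 0 1045])))) = true := by
  decide +kernel

theorem r31c_h1_q6 : chk [g1, cB 24, cC, cT] 22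
    (NumI.setR 3 (NumI.setR 2 [NumI.V.of 10000 300 500, NumI.V.of 10000 0 560,
      NumI.V.of 10000 500 2000, NumI.V.of 10000 0 1045])) = true := by
  decide +kernel

theorem r31c_h1 : chk [g1, cB 24, cC, cT] 24
    [NumI.V.of 10000 300 500, NumI.V.of 10000 0 560,
      NumI.V.of 10000 500 2000, NumI.V.of 10000 0 1045] = true :=
  NumU.chk_node (i := 2) (by decide +kernel)
    r31c_h1_q1
    (NumU.chk_node (i := 3) (by decide +kernel)
      (NumU.chk_node (i := 2) (by decide +kernel)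
        r31c_h1_q2
        (NumU.chk_node (i := 1) (by decide +kernel)
          (NumU.chk_node (i := 3) (by decide +kernel)
            r31c_h1_q3
            r31c_h1_q4)
          r31c_h1_q5))
      r31c_h1_q6)

theorem r31c (hx : 1 / 10 ≤ x) (hx' : x ≤ 24 / 100) (hs : 5 / 100 ≤ s) (hs' : s ≤ 1 / 5)
    (ht' : t ≤ 56 / 1000) (hρ : 0 < ρ) (hρ' : ρ ≤ 1045 / 10000)
    (hη : 4 * ρ * s ≤ t) (hd : 3 / 100 ≤ x - s)
    (hd' : x - s ≤ 5 / 100) :
    fu x t (-(1 / 2) + s) (4 * ρ * s) < fu x t (-(1 / 4)) ρ := by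
  have e : 0 ≤ 4 * ρ * s := mul_nonneg (by linarith only [hρ]) (by linarith only [hs, hρ, hρ'])
  have e1 : x - s + 2 * s = x + s := by ring
  have e2 : t - 4 * ρ * s + 8 * (ρ * s) = t + 4 * ρ * s := by ring
  have e3 : 2 * s - (s - x) = x + s := by ring
  have e4 : 1 - (s - x) = x + 1 - s := by ring
  have hg := gap_eq (s := s) (ρ := ρ) (x := x) (t := t)
  have hf1 := far (x := x) hη
  have h : chk [g1, cB 24, cC, cT] 24
    [NumI.V.of 10000 300 500, NumI.V.of 10000 0 560,
      NumI.V.of 10000 500 2000, NumI.V.of 10000 0 1045] = true := r31c_h1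
  obtain ⟨f, hf, hp⟩ := chk4 h (by norm_num) (x := x - s) (y := t - 4 * ρ * s) (z := s) (w := ρ)
    (by norm_num; linarith only [hd]) (by norm_num; linarith only [hd']) (by norm_num; linarith only [hη]) (by norm_num; linarith only [ht', e])
    (by norm_num; linarith only [hs]) (by norm_num; linarith only [hs']) (by norm_num; linarith only [hρ]) (by norm_num; linarith only [hρ'])
  simp only [List.mem_cons, List.not_mem_nil, or_false] at hf
  rcases hf with rfl | rfl | rfl | rfl
  · simp only [g1, ba, x1, x2, y1, y2, u2, e0, eT, eK, eS, eR, eH, E.val, NumI.lkR] at hp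
    push_cast at hp
    try simp only [div_one, sub_add_cancel, sub_sub_cancel, e1, e2, e3, e4] at hp
    linarith only [hg, hf1, hp]
  · simp only [cB, x1, x2, y1, y2, u2, e0, eT, eK, eS, eR, eH, E.val, NumI.lkR] at hp
    push_cast at hp
    try simp only [div_one, sub_add_cancel, sub_sub_cancel, e1, e2, e3, e4] at hp
    linarith only [hx', hp]
  · simp only [cC, x1, x2, y1, y2, u2, e0, eT, eK, eS, eR, eH, E.val, NumI.lkR] at hp
    push_cast at hp
    try simp only [div_one, sub_add_cancel, sub_sub_cancel, e1, e2, e3, e4] at hp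
    linarith only [hx, hp]
  · simp only [cT, x1, x2, y1, y2, u2, e0, eT, eK, eS, eR, eH, E.val, NumI.lkR] at hp
    push_cast at hp
    try simp only [div_one, sub_add_cancel, sub_sub_cancel, e1, e2, e3, e4] at hp
    linarith only [ht', hp]

theorem r32 (hx : 1 / 10 ≤ x) (hx' : x ≤ 24 / 100) (hs : 7 / 100 ≤ s) (hs' : s ≤ 1 / 5)
    (ht' : t ≤ 56 / 1000) (hρ : 0 < ρ) (hρ' : ρ ≤ 1045 / 10000)
    (hη : 4 * ρ * s ≤ t) (hd : x - s ≤ 3 / 100)
    (hd' : s - x ≤ 3 / 100) :
    fu x t (-(1 / 2) + s) (4 * ρ * s) < fu x t (-(1 / 4)) ρ := by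
  have e : 0 ≤ 4 * ρ * s := mul_nonneg (by linarith only [hρ]) (by linarith only [hs, hρ, hρ'])
  have e1 : x - s + 2 * s = x + s := by ring
  have e2 : t - 4 * ρ * s + 8 * (ρ * s) = t + 4 * ρ * s := by ring
  have e3 : 2 * s - (s - x) = x + s := by ring
  have e4 : 1 - (s - x) = x + 1 - s := by ring
  have hg := gap_eq (s := s) (ρ := ρ) (x := x) (t := t)
  have hf1 := corner hη ht' (by linarith only [hs, hρ, hρ']) hρ.le hd hd'
  have h : chk [g3, cC, cT] 24
    [NumI.V.of 10000 (-300) 300, NumI.V.of 10000 0 560,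
      NumI.V.of 10000 700 2000, NumI.V.of 10000 0 1045] = true := by
    decide +kernel
  obtain ⟨f, hf, hp⟩ := chk4 h (by norm_num) (x := x - s) (y := t - 4 * ρ * s) (z := s) (w := ρ)
    (by norm_num; linarith only [hd']) (by norm_num; linarith only [hd]) (by norm_num; linarith only [hη]) (by norm_num; linarith only [ht', e])
    (by norm_num; linarith only [hs]) (by norm_num; linarith only [hs']) (by norm_num; linarith only [hρ]) (by norm_num; linarith only [hρ'])
  simp only [List.mem_cons, List.not_mem_nil, or_false] at hf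
  rcases hf with rfl | rfl | rfl
  · simp only [g3, ba, x1, x2, y1, y2, u2, e0, eT, eK, eS, eR, eH, E.val, NumI.lkR] at hp
    push_cast at hp
    try simp only [div_one, sub_add_cancel, sub_sub_cancel, e1, e2, e3, e4] at hp
    linarith only [hg, hf1, hp]
  · simp only [cC, x1, x2, y1, y2, u2, e0, eT, eK, eS, eR, eH, E.val, NumI.lkR] at hp
    push_cast at hp
    try simp only [div_one, sub_add_cancel, sub_sub_cancel, e1, e2, e3, e4] at hp
    linarith only [hx, hp]
  · simp only [cT, x1, x2, y1, y2, u2, e0, eT, eK, eS, eR, eH, E.val, NumI.lkR] at hp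
    push_cast at hp
    try simp only [div_one, sub_add_cancel, sub_sub_cancel, e1, e2, e3, e4] at hp
    linarith only [ht', hp]

theorem r33 (hx : 1 / 10 ≤ x) (hx' : x ≤ 24 / 100) (hs : 13 / 100 ≤ s) (hs' : s ≤ 1 / 5)
    (ht' : t ≤ 56 / 1000) (hρ : 0 < ρ) (hρ' : ρ ≤ 1045 / 10000)
    (hη : 4 * ρ * s ≤ t) (hd : 3 / 100 ≤ s - x) :
    fu x t (-(1 / 2) + s) (4 * ρ * s) < fu x t (-(1 / 4)) ρ := by
  have e : 0 ≤ 4 * ρ * s := mul_nonneg (by linarith only [hρ]) (by linarith only [hs, hρ, hρ'])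
  have e1 : x - s + 2 * s = x + s := by ring
  have e2 : t - 4 * ρ * s + 8 * (ρ * s) = t + 4 * ρ * s := by ring
  have e3 : 2 * s - (s - x) = x + s := by ring
  have e4 : 1 - (s - x) = x + 1 - s := by ring
  have hg := gap_eq (s := s) (ρ := ρ) (x := x) (t := t)
  have hf1 := near (x := x) (t := t) (ρ := ρ) (s := s)
  have h : chk [g2, cD, cT] 24
    [NumI.V.of 10000 300 1000, NumI.V.of 10000 0 560,
      NumI.V.of 10000 1300 2000, NumI.V.of 10000 0 1045] = true := by
    decide +kernel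
  obtain ⟨f, hf, hp⟩ := chk4 h (by norm_num) (x := s - x) (y := t - 4 * ρ * s) (z := s) (w := ρ)
    (by norm_num; linarith only [hd]) (by norm_num; linarith only [hx, hs']) (by norm_num; linarith only [hη]) (by norm_num; linarith only [ht', e])
    (by norm_num; linarith only [hs]) (by norm_num; linarith only [hs']) (by norm_num; linarith only [hρ]) (by norm_num; linarith only [hρ'])
  simp only [List.mem_cons, List.not_mem_nil, or_false] at hf
  rcases hf with rfl | rfl | rfl
  · simp only [g2, ba, x1, x2, y1, y2, u2, e0, eT, eK, eS, eR, eH, E.val, NumI.lkR] at hp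
    push_cast at hp
    try simp only [div_one, sub_add_cancel, sub_sub_cancel, e1, e2, e3, e4] at hp
    linarith only [hg, hf1, hp]
  · simp only [cD, x1, x2, y1, y2, u2, e0, eT, eK, eS, eR, eH, E.val, NumI.lkR] at hp
    push_cast at hp
    try simp only [div_one, sub_add_cancel, sub_sub_cancel, e1, e2, e3, e4] at hp
    linarith only [hx, hp]
  · simp only [cT, x1, x2, y1, y2, u2, e0, eT, eK, eS, eR, eH, E.val, NumI.lkR] at hp
    push_cast at hp
    try simp only [div_one, sub_add_cancel, sub_sub_cancel, e1, e2, e3, e4] at hp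
    linarith only [ht', hp]

theorem r34 (hx : 24 / 100 ≤ x) (hx' : x ≤ 1 / 4) (hs : 0 < s) (hs' : s ≤ 1 / 5)
    (ht' : t ≤ 56 / 1000) (hρ : 0 < ρ) (hρ' : ρ ≤ 1045 / 10000)
    (hη : 4 * ρ * s ≤ t) :
    fu x t (-(1 / 2) + s) (4 * ρ * s) < fu x t (-(1 / 4)) ρ := by
  have e : 0 ≤ 4 * ρ * s := mul_nonneg (by linarith only [hρ]) (by linarith only [hs])
  have e1 : x - s + 2 * s = x + s := by ring
  have e2 : t - 4 * ρ * s + 8 * (ρ * s) = t + 4 * ρ * s := by ring
  have e3 : 2 * s - (s - x) = x + s := by ring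
  have e4 : 1 - (s - x) = x + 1 - s := by ring
  have hg := gap_eq (s := s) (ρ := ρ) (x := x) (t := t)
  have hf1 := far (x := x) hη
  have hf2 := half (t := t) (ρ := ρ) hx hx' (absdiff (by linarith only [hη, e]) (by linarith only [ht']) hρ.le (by linarith only [hρ']))
  have hf3 := pa1 (t := t) (ρ := ρ)
  have hf4 := pa2 (t := t) (ρ := ρ)
  have h : chk [h1, h2, cT] 24
    [NumI.V.of 10000 2400 2500, NumI.V.of 10000 0 560,
      NumI.V.of 10000 0 2000, NumI.V.of 10000 0 1045] = true := by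
    decide +kernel
  obtain ⟨f, hf, hp⟩ := chk4 h (by norm_num) (x := x) (y := t - 4 * ρ * s) (z := s) (w := ρ)
    (by norm_num; linarith only [hx]) (by norm_num; linarith only [hx']) (by norm_num; linarith only [hη]) (by norm_num; linarith only [ht', e])
    (by norm_num; linarith only [hs]) (by norm_num; linarith only [hs']) (by norm_num; linarith only [hρ]) (by norm_num; linarith only [hρ'])
  simp only [List.mem_cons, List.not_mem_nil, or_false] at hf
  rcases hf with rfl | rfl | rfl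
  · simp only [h1, aft, x1, x2, y1, y2, u2, e0, eT, eK, eS, eR, eH, E.val, NumI.lkR] at hp
    push_cast at hp
    try simp only [div_one, sub_add_cancel, sub_sub_cancel, e1, e2, e3, e4] at hp
    linarith only [hg, hf1, hf2, hf3, hp]
  · simp only [h2, aft, x1, x2, y1, y2, u2, e0, eT, eK, eS, eR, eH, E.val, NumI.lkR] at hp
    push_cast at hp
    try simp only [div_one, sub_add_cancel, sub_sub_cancel, e1, e2, e3, e4] at hp
    linarith only [hg, hf1, hf2, hf4, hp]
  · simp only [cT, x1, x2, y1, y2, u2, e0, eT, eK, eS, eR, eH, E.val, NumI.lkR] at hp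
    push_cast at hp
    try simp only [div_one, sub_add_cancel, sub_sub_cancel, e1, e2, e3, e4] at hp
    linarith only [ht', hp]

theorem r35 (hx : 1 / 4 ≤ x) (hx' : x ≤ 26 / 100) (hs : 0 < s) (hs' : s ≤ 1 / 5)
    (ht' : t ≤ 56 / 1000) (hρ : 0 < ρ) (hρ' : ρ ≤ 1045 / 10000)
    (hη : 4 * ρ * s ≤ t) :
    fu x t (-(1 / 2) + s) (4 * ρ * s) < fu x t (-(1 / 4)) ρ := by
  have e : 0 ≤ 4 * ρ * s := mul_nonneg (by linarith only [hρ]) (by linarith only [hs])
  have e1 : x - s + 2 * s = x + s := by ring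
  have e2 : t - 4 * ρ * s + 8 * (ρ * s) = t + 4 * ρ * s := by ring
  have e3 : 2 * s - (s - x) = x + s := by ring
  have e4 : 1 - (s - x) = x + 1 - s := by ring
  have hg := gap_eq (s := s) (ρ := ρ) (x := x) (t := t)
  have hf1 := far (x := x) hη
  have hf2 := past' (t := t) (ρ := ρ) hx hx' (absdiff (by linarith only [hη, e]) (by linarith only [ht']) hρ.le (by linarith only [hρ']))
  have hf3 := pa1 (t := t) (ρ := ρ)
  have hf4 := pa2 (t := t) (ρ := ρ)
  have h : chk [k1, k2, cT] 24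
    [NumI.V.of 10000 2500 2600, NumI.V.of 10000 0 560,
      NumI.V.of 10000 0 2000, NumI.V.of 10000 0 1045] = true := by
    decide +kernel
  obtain ⟨f, hf, hp⟩ := chk4 h (by norm_num) (x := x) (y := t - 4 * ρ * s) (z := s) (w := ρ)
    (by norm_num; linarith only [hx]) (by norm_num; linarith only [hx']) (by norm_num; linarith only [hη]) (by norm_num; linarith only [ht', e])
    (by norm_num; linarith only [hs]) (by norm_num; linarith only [hs']) (by norm_num; linarith only [hρ]) (by norm_num; linarith only [hρ'])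
  simp only [List.mem_cons, List.not_mem_nil, or_false] at hf
  rcases hf with rfl | rfl | rfl
  · simp only [k1, aft, x1, x2, y1, y2, u2, e0, eT, eK, eS, eR, eH, E.val, NumI.lkR] at hp
    push_cast at hp
    try simp only [div_one, sub_add_cancel, sub_sub_cancel, e1, e2, e3, e4] at hp
    linarith only [hg, hf1, hf2, hf3, hp]
  · simp only [k2, aft, x1, x2, y1, y2, u2, e0, eT, eK, eS, eR, eH, E.val, NumI.lkR] at hp
    push_cast at hp
    try simp only [div_one, sub_add_cancel, sub_sub_cancel, e1, e2, e3, e4] at hp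
    linarith only [hg, hf1, hf2, hf4, hp]
  · simp only [cT, x1, x2, y1, y2, u2, e0, eT, eK, eS, eR, eH, E.val, NumI.lkR] at hp
    push_cast at hp
    try simp only [div_one, sub_add_cancel, sub_sub_cancel, e1, e2, e3, e4] at hp
    linarith only [ht', hp]

theorem r36_h1_q1 : chk [l1, l2, cT] 23
    (NumI.setL 3 [NumI.V.of 10000 2600 2700, NumI.V.of 10000 0 560,
      NumI.V.of 10000 0 2000, NumI.V.of 10000 0 1045]) = true := by
  decide +kernel

theorem r36_h1_q2 : chk [l1, l2, cT] 23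
    (NumI.setR 3 [NumI.V.of 10000 2600 2700, NumI.V.of 10000 0 560,
      NumI.V.of 10000 0 2000, NumI.V.of 10000 0 1045]) = true := by
  decide +kernel

theorem r36_h1 : chk [l1, l2, cT] 24
    [NumI.V.of 10000 2600 2700, NumI.V.of 10000 0 560,
      NumI.V.of 10000 0 2000, NumI.V.of 10000 0 1045] = true :=
  NumU.chk_node (i := 3) (by decide +kernel)
    r36_h1_q1
    r36_h1_q2

theorem r36 (hx : 26 / 100 ≤ x) (hx' : x ≤ 27 / 100) (hs : 0 < s) (hs' : s ≤ 1 / 5)
    (ht' : t ≤ 56 / 1000) (hρ : 0 < ρ) (hρ' : ρ ≤ 1045 / 10000)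
    (hη : 4 * ρ * s ≤ t) :
    fu x t (-(1 / 2) + s) (4 * ρ * s) < fu x t (-(1 / 4)) ρ := by
  have e : 0 ≤ 4 * ρ * s := mul_nonneg (by linarith only [hρ]) (by linarith only [hs])
  have e1 : x - s + 2 * s = x + s := by ring
  have e2 : t - 4 * ρ * s + 8 * (ρ * s) = t + 4 * ρ * s := by ring
  have e3 : 2 * s - (s - x) = x + s := by ring
  have e4 : 1 - (s - x) = x + 1 - s := by ring
  have hg := gap_eq (s := s) (ρ := ρ) (x := x) (t := t)
  have hf1 := far (x := x) hη
  have hf2 := past (x := x) (t := t) (ρ := ρ)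
  have hf3 := pa1 (t := t) (ρ := ρ)
  have hf4 := pa2 (t := t) (ρ := ρ)
  have h : chk [l1, l2, cT] 24
    [NumI.V.of 10000 2600 2700, NumI.V.of 10000 0 560,
      NumI.V.of 10000 0 2000, NumI.V.of 10000 0 1045] = true := r36_h1
  obtain ⟨f, hf, hp⟩ := chk4 h (by norm_num) (x := x) (y := t - 4 * ρ * s) (z := s) (w := ρ)
    (by norm_num; linarith only [hx]) (by norm_num; linarith only [hx']) (by norm_num; linarith only [hη]) (by norm_num; linarith only [ht', e])
    (by norm_num; linarith only [hs]) (by norm_num; linarith only [hs']) (by norm_num; linarith only [hρ]) (by norm_num; linarith only [hρ'])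
  simp only [List.mem_cons, List.not_mem_nil, or_false] at hf
  rcases hf with rfl | rfl | rfl
  · simp only [l1, aft, x1, x2, y1, y2, u2, e0, eT, eK, eS, eR, eH, E.val, NumI.lkR] at hp
    push_cast at hp
    try simp only [div_one, sub_add_cancel, sub_sub_cancel, e1, e2, e3, e4] at hp
    linarith only [hg, hf1, hf2, hf3, hp]
  · simp only [l2, aft, x1, x2, y1, y2, u2, e0, eT, eK, eS, eR, eH, E.val, NumI.lkR] at hp
    push_cast at hp
    try simp only [div_one, sub_add_cancel, sub_sub_cancel, e1, e2, e3, e4] at hp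
    linarith only [hg, hf1, hf2, hf4, hp]
  · simp only [cT, x1, x2, y1, y2, u2, e0, eT, eK, eS, eR, eH, E.val, NumI.lkR] at hp
    push_cast at hp
    try simp only [div_one, sub_add_cancel, sub_sub_cancel, e1, e2, e3, e4] at hp
    linarith only [ht', hp]

/-- numerical minimum: .037 (at `s = 1/5`, `ρ → 0`, `x = 1/10`) -/
theorem ge3a (hx : 1 / 10 ≤ x) (hx' : x ≤ 27 / 100) (ht' : t ≤ 56 / 1000)
    (hs : 0 < s) (hs' : s ≤ 1 / 5) (hρ : 0 < ρ) (hρ' : ρ ≤ 1045 / 10000) (hη : 4 * ρ * s ≤ t) :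
    fu x t (-(1 / 2) + s) (4 * ρ * s) < fu x t (-(1 / 4)) ρ := by
  rcases le_total x (24 / 100) with h1 | h1
  · rcases le_total s (7 / 100) with h2 | h2
    · exact r31 hx h1 hs h2 ht' hρ hρ' hη
    · rcases le_total (5 / 100) (x - s) with h3 | h3
      · exact r31b hx h1 h2 hs' ht' hρ hρ' hη h3
      · rcases le_total (3 / 100) (x - s) with h4 | h4
        · exact r31c hx h1 (by linarith only [hs, h2]) hs' ht' hρ hρ' hη h4 h3
        · rcases le_total (3 / 100) (s - x) with h5 | h5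
          · exact r33 hx h1 (by linarith only [hx, h5]) hs' ht' hρ hρ' hη h5
          · exact r32 hx h1 h2 hs' ht' hρ hρ' hη h4 h5
  · rcases le_total x (1 / 4) with h2 | h2
    · exact r34 h1 h2 hs hs' ht' hρ hρ' hη
    · rcases le_total x (26 / 100) with h3 | h3
      · exact r35 h2 h3 hs hs' ht' hρ hρ' hη
      · exact r36 h3 hx' hs hs' ht' hρ hρ' hη

theorem m1ca (hx : 1 / 10 ≤ x) (hx' : x ≤ 27 / 100) (hs : 2 / 25 ≤ s) (hs' : s ≤ 1 / 8) (ht' : t ≤ 7 / 125)
    (hρ : 0 < ρ) (hρ' : ρ ≤ 209 / 2000) (hη : 4 * ρ * s ≤ t)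
    (hd : x - s ≤ 1 / 50) (hd' : s - x ≤ 1 / 40) :
    -(4 * Real.pi * ρ * (2 - 16 * s)) < NumI.lnA (x + s) (t + 4 * ρ * s) - 4 * ρ * NumI.lnB (x + s) (t + 4 * ρ * s) := by
  have e : 0 ≤ 4 * ρ * s := mul_nonneg (by linarith only [hρ]) (by linarith only [hs, hρ, hρ'])
  have e1 : x - s + 2 * s = x + s := by ring
  have e2 : t - 4 * ρ * s + 8 * (ρ * s) = t + 4 * ρ * s := by ring
  have e3 : 2 * s - (s - x) = x + s := by ring
  have e4 : 1 - (s - x) = x + 1 - s := by ring
  have h : chk [E.add (DX y1) o2, cC, cB 27, cT] 24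
    [NumI.V.of 10000 (-250) 200, NumI.V.of 10000 0 560,
      NumI.V.of 10000 800 1250, NumI.V.of 10000 0 1045] = true := by
    decide +kernel
  obtain ⟨f, hf, hp⟩ := chk4 h (by norm_num) (x := x - s) (y := t - 4 * ρ * s) (z := s) (w := ρ)
    (by norm_num; linarith only [hx, hs']) (by norm_num; linarith only [hd]) (by norm_num; linarith only [hη]) (by norm_num; linarith only [ht', e])
    (by norm_num; linarith only [hs]) (by norm_num; linarith only [hs']) (by norm_num; linarith only [hρ]) (by norm_num; linarith only [hρ'])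
  simp only [List.mem_cons, List.not_mem_nil, or_false] at hf
  rcases hf with rfl | rfl | rfl | rfl
  · simp only [DX, o2, x1, x2, y1, y2, u2, e0, eT, eK, eS, eR, eH, E.val, NumI.lkR] at hp
    push_cast at hp
    try simp only [div_one, sub_add_cancel, sub_sub_cancel, e1, e2, e3, e4] at hp
    linarith only [hp]
  · simp only [cC, x1, x2, y1, y2, u2, e0, eT, eK, eS, eR, eH, E.val, NumI.lkR] at hp
    push_cast at hp
    try simp only [div_one, sub_add_cancel, sub_sub_cancel, e1, e2, e3, e4] at hp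
    linarith only [hx, hp]
  · simp only [cB, x1, x2, y1, y2, u2, e0, eT, eK, eS, eR, eH, E.val, NumI.lkR] at hp
    push_cast at hp
    try simp only [div_one, sub_add_cancel, sub_sub_cancel, e1, e2, e3, e4] at hp
    linarith only [hx', hp]
  · simp only [cT, x1, x2, y1, y2, u2, e0, eT, eK, eS, eR, eH, E.val, NumI.lkR] at hp
    push_cast at hp
    try simp only [div_one, sub_add_cancel, sub_sub_cancel, e1, e2, e3, e4] at hp
    linarith only [ht', hp]

theorem m1cb (hx : 1 / 10 ≤ x) (hx' : x ≤ 27 / 100) (hs : 2 / 25 ≤ s) (hs' : s ≤ 1 / 8) (ht' : t ≤ 7 / 125)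
    (hρ : 0 < ρ) (hρ' : ρ ≤ 209 / 2000) (hη : 4 * ρ * s ≤ t)
    (hd : x - s ≤ 1 / 50) (hd' : s - x ≤ 1 / 40) :
    -(4 * Real.pi * ρ * (2 - 16 * s)) < NumI.lnA (x + s) (t + 4 * ρ * s) - 4 * ρ * NumI.lnB (x + s) (t + 4 * ρ * s) -
      (1 / 2 * Real.log (2 * (Real.cosh (2 * Real.pi * (t - 4 * ρ * s)) -
        Real.cos (Real.pi * (2 * (x - s)))) + 1 / 20) + 4 * ρ * Real.pi) := by
  have e : 0 ≤ 4 * ρ * s := mul_nonneg (by linarith only [hρ]) (by linarith only [hs, hρ, hρ'])
  have e1 : x - s + 2 * s = x + s := by ring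
  have e2 : t - 4 * ρ * s + 8 * (ρ * s) = t + 4 * ρ * s := by ring
  have e3 : 2 * s - (s - x) = x + s := by ring
  have e4 : 1 - (s - x) = x + 1 - s := by ring
  have h : chk [E.add Dc o2, cC, cB 27, cT] 24
    [NumI.V.of 10000 (-250) 200, NumI.V.of 10000 0 560,
      NumI.V.of 10000 800 1250, NumI.V.of 10000 0 1045] = true := by
    decide +kernel
  obtain ⟨f, hf, hp⟩ := chk4 h (by norm_num) (x := x - s) (y := t - 4 * ρ * s) (z := s) (w := ρ)
    (by norm_num; linarith only [hx, hs']) (by norm_num; linarith only [hd]) (by norm_num; linarith only [hη]) (by norm_num; linarith only [ht', e])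
    (by norm_num; linarith only [hs]) (by norm_num; linarith only [hs']) (by norm_num; linarith only [hρ]) (by norm_num; linarith only [hρ'])
  simp only [List.mem_cons, List.not_mem_nil, or_false] at hf
  rcases hf with rfl | rfl | rfl | rfl
  · simp only [Dc, DX, o2, x1, x2, y1, y2, u2, e0, eT, eK, eS, eR, eH, E.val, NumI.lkR] at hp
    push_cast at hp
    try simp only [div_one, sub_add_cancel, sub_sub_cancel, e1, e2, e3, e4] at hp
    linarith only [hp]
  · simp only [cC, x1, x2, y1, y2, u2, e0, eT, eK, eS, eR, eH, E.val, NumI.lkR] at hp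
    push_cast at hp
    try simp only [div_one, sub_add_cancel, sub_sub_cancel, e1, e2, e3, e4] at hp
    linarith only [hx, hp]
  · simp only [cB, x1, x2, y1, y2, u2, e0, eT, eK, eS, eR, eH, E.val, NumI.lkR] at hp
    push_cast at hp
    try simp only [div_one, sub_add_cancel, sub_sub_cancel, e1, e2, e3, e4] at hp
    linarith only [hx', hp]
  · simp only [cT, x1, x2, y1, y2, u2, e0, eT, eK, eS, eR, eH, E.val, NumI.lkR] at hp
    push_cast at hp
    try simp only [div_one, sub_add_cancel, sub_sub_cancel, e1, e2, e3, e4] at hp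
    linarith only [ht', hp]

theorem m1e_h1_q1 : chk [E.sub g0 o1, E.add D0 o2, cT, cA 50] 22
    (NumI.setL 3 (NumI.setL 0 [NumI.V.of 10000 1000 2400, NumI.V.of 10000 0 560,
      NumI.V.of 10000 625 1250, NumI.V.of 10000 0 1045])) = true := by
  decide +kernel

theorem m1e_h1_q2 : chk [E.sub g0 o1, E.add D0 o2, cT, cA 50] 22
    (NumI.setR 3 (NumI.setL 0 [NumI.V.of 10000 1000 2400, NumI.V.of 10000 0 560,
      NumI.V.of 10000 625 1250, NumI.V.of 10000 0 1045])) = true := by
  decide +kernel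

theorem m1e_h1_q3 : chk [E.sub g0 o1, E.add D0 o2, cT, cA 50] 22
    (NumI.setL 3 (NumI.setR 0 [NumI.V.of 10000 1000 2400, NumI.V.of 10000 0 560,
      NumI.V.of 10000 625 1250, NumI.V.of 10000 0 1045])) = true := by
  decide +kernel

theorem m1e_h1_q4 : chk [E.sub g0 o1, E.add D0 o2, cT, cA 50] 22
    (NumI.setR 3 (NumI.setR 0 [NumI.V.of 10000 1000 2400, NumI.V.of 10000 0 560,
      NumI.V.of 10000 625 1250, NumI.V.of 10000 0 1045])) = true := by
  decide +kernel

theorem m1e_h1 : chk [E.sub g0 o1, E.add D0 o2, cT, cA 50] 24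
    [NumI.V.of 10000 1000 2400, NumI.V.of 10000 0 560,
      NumI.V.of 10000 625 1250, NumI.V.of 10000 0 1045] = true :=
  NumU.chk_node (i := 0) (by decide +kernel)
    (NumU.chk_node (i := 3) (by decide +kernel)
      m1e_h1_q1
      m1e_h1_q2)
    (NumU.chk_node (i := 3) (by decide +kernel)
      m1e_h1_q3
      m1e_h1_q4)

theorem m1e (hx : 1 / 10 ≤ x) (hx' : x ≤ 24 / 100) (hs : 1 / 16 ≤ s) (hs' : s ≤ 1 / 8) (ht' : t ≤ 7 / 125)
    (hρ : 0 < ρ) (hρ' : ρ ≤ 209 / 2000) (hη : 4 * ρ * s ≤ t)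
    (hw : w.re = x) (hwi : w.im = t) (hζ : ζ.re = -(1 / 2) + s) (hζi : ζ.im = 4 * ρ * s)
    (hd : 5 / 100 ≤ x - s) :
    8 * Real.pi * ρ * s * (1 - 4 * s) < fu x t (-(1 / 4)) ρ - fu x t (-(1 / 2) + s) (4 * ρ * s) ∨
      -(4 * Real.pi * ρ * (2 - 16 * s)) < Dm (4 * ρ) w ζ := by
  have e : 0 ≤ 4 * ρ * s := mul_nonneg (by linarith only [hρ]) (by linarith only [hs, hρ, hρ'])
  have e1 : x - s + 2 * s = x + s := by ring
  have e2 : t - 4 * ρ * s + 8 * (ρ * s) = t + 4 * ρ * s := by ring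
  have e3 : 2 * s - (s - x) = x + s := by ring
  have e4 : 1 - (s - x) = x + 1 - s := by ring
  have hg := gap_eq (s := s) (ρ := ρ) (x := x) (t := t)
  have hf1 := D1_le hw hwi hζ hζi hρ.le (by linarith only [hs, hρ, hρ', hd]) (by linarith only [hx', hρ, hρ', hd]) (by linarith only [hρ, hρ', hd]) (by linarith only [hx', hs, hρ, hρ']) hη
  have hf2 := far (x := x) hη
  have h : chk [E.sub g0 o1, E.add D0 o2, cT, cA 50] 24
    [NumI.V.of 10000 1000 2400, NumI.V.of 10000 0 560,
      NumI.V.of 10000 625 1250, NumI.V.of 10000 0 1045] = true := m1e_h1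
  obtain ⟨f, hf, hp⟩ := chk4 h (by norm_num) (x := x) (y := t - 4 * ρ * s) (z := s) (w := ρ)
    (by norm_num; linarith only [hs, hρ, hρ', hd]) (by norm_num; linarith only [hx']) (by norm_num; linarith only [hη]) (by norm_num; linarith only [ht', e])
    (by norm_num; linarith only [hs]) (by norm_num; linarith only [hs']) (by norm_num; linarith only [hρ]) (by norm_num; linarith only [hρ'])
  simp only [List.mem_cons, List.not_mem_nil, or_false] at hf
  rcases hf with rfl | rfl | rfl | rfl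
  · simp only [g0, ba, o1, x1, x2, y1, y2, u2, e0, eT, eK, eS, eR, eH, E.val, NumI.lkR] at hp
    push_cast at hp
    try simp only [div_one, sub_add_cancel, sub_sub_cancel, e1, e2, e3, e4] at hp
    left
    linarith only [hg, hf2, hp]
  · simp only [D0, DX, o2, x1, x2, y1, y2, u2, e0, eT, eK, eS, eR, eH, E.val, NumI.lkR] at hp
    push_cast at hp
    try simp only [div_one, sub_add_cancel, sub_sub_cancel, e1, e2, e3, e4] at hp
    right
    linarith only [hf1, hp]
  · simp only [cT, x1, x2, y1, y2, u2, e0, eT, eK, eS, eR, eH, E.val, NumI.lkR] at hp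
    push_cast at hp
    try simp only [div_one, sub_add_cancel, sub_sub_cancel, e1, e2, e3, e4] at hp
    linarith only [ht', hp]
  · simp only [cA, x1, x2, y1, y2, u2, e0, eT, eK, eS, eR, eH, E.val, NumI.lkR] at hp
    push_cast at hp
    try simp only [div_one, sub_add_cancel, sub_sub_cancel, e1, e2, e3, e4] at hp
    linarith only [hd, hp]

theorem m1g (hs : 1 / 16 ≤ s) (hs' : s ≤ 1 / 8) (ht' : t ≤ 7 / 125)
    (hρ : 0 < ρ) (hρ' : ρ ≤ 209 / 2000) (hη : 4 * ρ * s ≤ t)
    (hw : w.re = x) (hwi : w.im = t) (hζ : ζ.re = -(1 / 2) + s) (hζi : ζ.im = 4 * ρ * s)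
    (hd : 2 / 100 ≤ x - s) (hd' : x - s ≤ 5 / 100) :
    -(4 * Real.pi * ρ * (2 - 16 * s)) < Dm (4 * ρ) w ζ := by
  have e : 0 ≤ 4 * ρ * s := mul_nonneg (by linarith only [hρ]) (by linarith only [hs, hρ, hρ'])
  have e1 : x - s + 2 * s = x + s := by ring
  have e2 : t - 4 * ρ * s + 8 * (ρ * s) = t + 4 * ρ * s := by ring
  have e3 : 2 * s - (s - x) = x + s := by ring
  have e4 : 1 - (s - x) = x + 1 - s := by ring
  have hf1 := D1_le hw hwi hζ hζi hρ.le (by linarith only [hs, hρ, hρ', hd]) (by linarith only [hs', hρ, hρ', hd']) (by linarith only [hρ, hρ', hd]) (by linarith only [hρ, hρ', hd']) hη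
  have h : chk [E.add D1 o2] 24
    [NumI.V.of 10000 200 500, NumI.V.of 10000 0 560,
      NumI.V.of 10000 625 1250, NumI.V.of 10000 0 1045] = true := by
    decide +kernel
  obtain ⟨f, hf, hp⟩ := chk4 h (by norm_num) (x := x - s) (y := t - 4 * ρ * s) (z := s) (w := ρ)
    (by norm_num; linarith only [hd]) (by norm_num; linarith only [hd']) (by norm_num; linarith only [hη]) (by norm_num; linarith only [ht', e])
    (by norm_num; linarith only [hs]) (by norm_num; linarith only [hs']) (by norm_num; linarith only [hρ]) (by norm_num; linarith only [hρ'])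
  simp only [List.mem_cons, List.not_mem_nil, or_false] at hf
  rcases hf with rfl
  · simp only [D1, DX, o2, x1, x2, y1, y2, u2, e0, eT, eK, eS, eR, eH, E.val, NumI.lkR] at hp
    push_cast at hp
    try simp only [div_one, sub_add_cancel, sub_sub_cancel, e1, e2, e3, e4] at hp
    linarith only [hf1, hp]

theorem m1f1 (hx : 24 / 100 ≤ x) (hx' : x ≤ 1 / 4) (hs : 1 / 16 ≤ s) (hs' : s ≤ 1 / 8) (ht' : t ≤ 7 / 125)
    (hρ : 0 < ρ) (hρ' : ρ ≤ 209 / 2000) (hη : 4 * ρ * s ≤ t)
    (hw : w.re = x) (hwi : w.im = t) (hζ : ζ.re = -(1 / 2) + s) (hζi : ζ.im = 4 * ρ * s) :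
    8 * Real.pi * ρ * s * (1 - 4 * s) < fu x t (-(1 / 4)) ρ - fu x t (-(1 / 2) + s) (4 * ρ * s) ∨
      -(4 * Real.pi * ρ * (2 - 16 * s)) < Dm (4 * ρ) w ζ := by
  have e : 0 ≤ 4 * ρ * s := mul_nonneg (by linarith only [hρ]) (by linarith only [hs, hρ, hρ'])
  have e1 : x - s + 2 * s = x + s := by ring
  have e2 : t - 4 * ρ * s + 8 * (ρ * s) = t + 4 * ρ * s := by ring
  have e3 : 2 * s - (s - x) = x + s := by ring
  have e4 : 1 - (s - x) = x + 1 - s := by ring
  have hg := gap_eq (s := s) (ρ := ρ) (x := x) (t := t)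
  have hf1 := D1_le hw hwi hζ hζi hρ.le (by linarith only [hx, hs, hρ, hρ']) (by linarith only [hx', hs', hρ, hρ']) (by linarith only [hx, hs', hρ, hρ']) (by linarith only [hx', hs, hρ, hρ']) hη
  have hf5 := far (x := x) hη
  have hf2 := half (t := t) (ρ := ρ) hx hx' (absdiff (by linarith only [hη, e]) (by linarith only [ht']) hρ.le (by linarith only [hρ']))
  have hf3 := pa1 (t := t) (ρ := ρ)
  have hf4 := pa2 (t := t) (ρ := ρ)
  have h : chk [E.sub h1 o1, E.sub h2 o1, E.add D0 o2, cT] 24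
    [NumI.V.of 10000 2400 2500, NumI.V.of 10000 0 560,
      NumI.V.of 10000 625 1250, NumI.V.of 10000 0 1045] = true := by
    decide +kernel
  obtain ⟨f, hf, hp⟩ := chk4 h (by norm_num) (x := x) (y := t - 4 * ρ * s) (z := s) (w := ρ)
    (by norm_num; linarith only [hx]) (by norm_num; linarith only [hx']) (by norm_num; linarith only [hη]) (by norm_num; linarith only [ht', e])
    (by norm_num; linarith only [hs]) (by norm_num; linarith only [hs']) (by norm_num; linarith only [hρ]) (by norm_num; linarith only [hρ'])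
  simp only [List.mem_cons, List.not_mem_nil, or_false] at hf
  rcases hf with rfl | rfl | rfl | rfl
  · simp only [h1, aft, o1, x1, x2, y1, y2, u2, e0, eT, eK, eS, eR, eH, E.val, NumI.lkR] at hp
    push_cast at hp
    try simp only [div_one, sub_add_cancel, sub_sub_cancel, e1, e2, e3, e4] at hp
    left
    linarith only [hg, hf5, hf2, hf3, hp]
  · simp only [h2, aft, o1, x1, x2, y1, y2, u2, e0, eT, eK, eS, eR, eH, E.val, NumI.lkR] at hp
    push_cast at hp
    try simp only [div_one, sub_add_cancel, sub_sub_cancel, e1, e2, e3, e4] at hp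
    left
    linarith only [hg, hf5, hf2, hf4, hp]
  · simp only [D0, DX, o2, x1, x2, y1, y2, u2, e0, eT, eK, eS, eR, eH, E.val, NumI.lkR] at hp
    push_cast at hp
    try simp only [div_one, sub_add_cancel, sub_sub_cancel, e1, e2, e3, e4] at hp
    right
    linarith only [hf1, hp]
  · simp only [cT, x1, x2, y1, y2, u2, e0, eT, eK, eS, eR, eH, E.val, NumI.lkR] at hp
    push_cast at hp
    try simp only [div_one, sub_add_cancel, sub_sub_cancel, e1, e2, e3, e4] at hp
    linarith only [ht', hp]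

theorem m1f2 (hx : 1 / 4 ≤ x) (hx' : x ≤ 26 / 100) (hs : 1 / 16 ≤ s) (hs' : s ≤ 1 / 8) (ht' : t ≤ 7 / 125)
    (hρ : 0 < ρ) (hρ' : ρ ≤ 209 / 2000) (hη : 4 * ρ * s ≤ t)
    (hw : w.re = x) (hwi : w.im = t) (hζ : ζ.re = -(1 / 2) + s) (hζi : ζ.im = 4 * ρ * s) :
    8 * Real.pi * ρ * s * (1 - 4 * s) < fu x t (-(1 / 4)) ρ - fu x t (-(1 / 2) + s) (4 * ρ * s) ∨
      -(4 * Real.pi * ρ * (2 - 16 * s)) < Dm (4 * ρ) w ζ := by
  have e : 0 ≤ 4 * ρ * s := mul_nonneg (by linarith only [hρ]) (by linarith only [hs, hρ, hρ'])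
  have e1 : x - s + 2 * s = x + s := by ring
  have e2 : t - 4 * ρ * s + 8 * (ρ * s) = t + 4 * ρ * s := by ring
  have e3 : 2 * s - (s - x) = x + s := by ring
  have e4 : 1 - (s - x) = x + 1 - s := by ring
  have hg := gap_eq (s := s) (ρ := ρ) (x := x) (t := t)
  have hf1 := D1_le hw hwi hζ hζi hρ.le (by linarith only [hx, hs, hρ, hρ']) (by linarith only [hx', hs', hρ, hρ']) (by linarith only [hx, hs', hρ, hρ']) (by linarith only [hx', hs, hρ, hρ']) hη
  have hf5 := far (x := x) hη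
  have hf2 := past' (t := t) (ρ := ρ) hx hx' (absdiff (by linarith only [hη, e]) (by linarith only [ht']) hρ.le (by linarith only [hρ']))
  have hf3 := pa1 (t := t) (ρ := ρ)
  have hf4 := pa2 (t := t) (ρ := ρ)
  have h : chk [E.sub k1 o1, E.sub k2 o1, E.add D0 o2, cT] 24
    [NumI.V.of 10000 2500 2600, NumI.V.of 10000 0 560,
      NumI.V.of 10000 625 1250, NumI.V.of 10000 0 1045] = true := by
    decide +kernel
  obtain ⟨f, hf, hp⟩ := chk4 h (by norm_num) (x := x) (y := t - 4 * ρ * s) (z := s) (w := ρ)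
    (by norm_num; linarith only [hx]) (by norm_num; linarith only [hx']) (by norm_num; linarith only [hη]) (by norm_num; linarith only [ht', e])
    (by norm_num; linarith only [hs]) (by norm_num; linarith only [hs']) (by norm_num; linarith only [hρ]) (by norm_num; linarith only [hρ'])
  simp only [List.mem_cons, List.not_mem_nil, or_false] at hf
  rcases hf with rfl | rfl | rfl | rfl
  · simp only [k1, aft, o1, x1, x2, y1, y2, u2, e0, eT, eK, eS, eR, eH, E.val, NumI.lkR] at hp
    push_cast at hp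
    try simp only [div_one, sub_add_cancel, sub_sub_cancel, e1, e2, e3, e4] at hp
    left
    linarith only [hg, hf5, hf2, hf3, hp]
  · simp only [k2, aft, o1, x1, x2, y1, y2, u2, e0, eT, eK, eS, eR, eH, E.val, NumI.lkR] at hp
    push_cast at hp
    try simp only [div_one, sub_add_cancel, sub_sub_cancel, e1, e2, e3, e4] at hp
    left
    linarith only [hg, hf5, hf2, hf4, hp]
  · simp only [D0, DX, o2, x1, x2, y1, y2, u2, e0, eT, eK, eS, eR, eH, E.val, NumI.lkR] at hp
    push_cast at hp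
    try simp only [div_one, sub_add_cancel, sub_sub_cancel, e1, e2, e3, e4] at hp
    right
    linarith only [hf1, hp]
  · simp only [cT, x1, x2, y1, y2, u2, e0, eT, eK, eS, eR, eH, E.val, NumI.lkR] at hp
    push_cast at hp
    try simp only [div_one, sub_add_cancel, sub_sub_cancel, e1, e2, e3, e4] at hp
    linarith only [ht', hp]

theorem m1f3_h1_q1 : chk [E.sub l1 o1, E.sub l2 o1, E.add D0 o2, cT] 23
    (NumI.setL 3 [NumI.V.of 10000 2600 2700, NumI.V.of 10000 0 560,
      NumI.V.of 10000 625 1250, NumI.V.of 10000 0 1045]) = true := by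
  decide +kernel

theorem m1f3_h1_q2 : chk [E.sub l1 o1, E.sub l2 o1, E.add D0 o2, cT] 21
    (NumI.setL 3 (NumI.setL 3 (NumI.setR 3 [NumI.V.of 10000 2600 2700, NumI.V.of 10000 0 560,
      NumI.V.of 10000 625 1250, NumI.V.of 10000 0 1045]))) = true := by
  decide +kernel

theorem m1f3_h1_q3 : chk [E.sub l1 o1, E.sub l2 o1, E.add D0 o2, cT] 21
    (NumI.setR 3 (NumI.setL 3 (NumI.setR 3 [NumI.V.of 10000 2600 2700, NumI.V.of 10000 0 560,
      NumI.V.of 10000 625 1250, NumI.V.of 10000 0 1045]))) = true := by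
  decide +kernel

theorem m1f3_h1_q4 : chk [E.sub l1 o1, E.sub l2 o1, E.add D0 o2, cT] 22
    (NumI.setR 3 (NumI.setR 3 [NumI.V.of 10000 2600 2700, NumI.V.of 10000 0 560,
      NumI.V.of 10000 625 1250, NumI.V.of 10000 0 1045])) = true := by
  decide +kernel

theorem m1f3_h1 : chk [E.sub l1 o1, E.sub l2 o1, E.add D0 o2, cT] 24
    [NumI.V.of 10000 2600 2700, NumI.V.of 10000 0 560,
      NumI.V.of 10000 625 1250, NumI.V.of 10000 0 1045] = true :=
  NumU.chk_node (i := 3) (by decide +kernel)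
    m1f3_h1_q1
    (NumU.chk_node (i := 3) (by decide +kernel)
      (NumU.chk_node (i := 3) (by decide +kernel)
        m1f3_h1_q2
        m1f3_h1_q3)
      m1f3_h1_q4)

theorem m1f3 (hx : 26 / 100 ≤ x) (hx' : x ≤ 27 / 100) (hs : 1 / 16 ≤ s) (hs' : s ≤ 1 / 8) (ht' : t ≤ 7 / 125)
    (hρ : 0 < ρ) (hρ' : ρ ≤ 209 / 2000) (hη : 4 * ρ * s ≤ t)
    (hw : w.re = x) (hwi : w.im = t) (hζ : ζ.re = -(1 / 2) + s) (hζi : ζ.im = 4 * ρ * s) :
    8 * Real.pi * ρ * s * (1 - 4 * s) < fu x t (-(1 / 4)) ρ - fu x t (-(1 / 2) + s) (4 * ρ * s) ∨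
      -(4 * Real.pi * ρ * (2 - 16 * s)) < Dm (4 * ρ) w ζ := by
  have e : 0 ≤ 4 * ρ * s := mul_nonneg (by linarith only [hρ]) (by linarith only [hs, hρ, hρ'])
  have e1 : x - s + 2 * s = x + s := by ring
  have e2 : t - 4 * ρ * s + 8 * (ρ * s) = t + 4 * ρ * s := by ring
  have e3 : 2 * s - (s - x) = x + s := by ring
  have e4 : 1 - (s - x) = x + 1 - s := by ring
  have hg := gap_eq (s := s) (ρ := ρ) (x := x) (t := t)
  have hf1 := D1_le hw hwi hζ hζi hρ.le (by linarith only [hx, hs, hρ, hρ']) (by linarith only [hx', hs', hρ, hρ']) (by linarith only [hx, hs', hρ, hρ']) (by linarith only [hx', hs, hρ, hρ']) hη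
  have hf5 := far (x := x) hη
  have hf2 := past (x := x) (t := t) (ρ := ρ)
  have hf3 := pa1 (t := t) (ρ := ρ)
  have hf4 := pa2 (t := t) (ρ := ρ)
  have h : chk [E.sub l1 o1, E.sub l2 o1, E.add D0 o2, cT] 24
    [NumI.V.of 10000 2600 2700, NumI.V.of 10000 0 560,
      NumI.V.of 10000 625 1250, NumI.V.of 10000 0 1045] = true := m1f3_h1
  obtain ⟨f, hf, hp⟩ := chk4 h (by norm_num) (x := x) (y := t - 4 * ρ * s) (z := s) (w := ρ)
    (by norm_num; linarith only [hx]) (by norm_num; linarith only [hx']) (by norm_num; linarith only [hη]) (by norm_num; linarith only [ht', e])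
    (by norm_num; linarith only [hs]) (by norm_num; linarith only [hs']) (by norm_num; linarith only [hρ]) (by norm_num; linarith only [hρ'])
  simp only [List.mem_cons, List.not_mem_nil, or_false] at hf
  rcases hf with rfl | rfl | rfl | rfl
  · simp only [l1, aft, o1, x1, x2, y1, y2, u2, e0, eT, eK, eS, eR, eH, E.val, NumI.lkR] at hp
    push_cast at hp
    try simp only [div_one, sub_add_cancel, sub_sub_cancel, e1, e2, e3, e4] at hp
    left
    linarith only [hg, hf5, hf2, hf3, hp]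
  · simp only [l2, aft, o1, x1, x2, y1, y2, u2, e0, eT, eK, eS, eR, eH, E.val, NumI.lkR] at hp
    push_cast at hp
    try simp only [div_one, sub_add_cancel, sub_sub_cancel, e1, e2, e3, e4] at hp
    left
    linarith only [hg, hf5, hf2, hf4, hp]
  · simp only [D0, DX, o2, x1, x2, y1, y2, u2, e0, eT, eK, eS, eR, eH, E.val, NumI.lkR] at hp
    push_cast at hp
    try simp only [div_one, sub_add_cancel, sub_sub_cancel, e1, e2, e3, e4] at hp
    right
    linarith only [hf1, hp]
  · simp only [cT, x1, x2, y1, y2, u2, e0, eT, eK, eS, eR, eH, E.val, NumI.lkR] at hp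
    push_cast at hp
    try simp only [div_one, sub_add_cancel, sub_sub_cancel, e1, e2, e3, e4] at hp
    linarith only [ht', hp]

/-- numerical minimum: .034 -/
theorem ge1 (hx : 1 / 10 ≤ x) (hx' : x ≤ 27 / 100) (ht' : t ≤ 56 / 1000)
    (hs : 1 / 16 ≤ s) (hs' : s ≤ 1 / 8) (hρ : 0 < ρ) (hρ' : ρ ≤ 1045 / 10000) (hη : 4 * ρ * s ≤ t)
    (hw : w.re = x) (hwi : w.im = t) (hζ : ζ.re = -(1 / 2) + s) (hζi : ζ.im = 4 * ρ * s) :
    8 * Real.pi * ρ * s * (1 - 4 * s) < fu x t (-(1 / 4)) ρ - fu x t (-(1 / 2) + s) (4 * ρ * s) ∨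
      -(4 * Real.pi * ρ * (2 - 16 * s)) < Dm (4 * ρ) w ζ := by
  rcases le_total (5 / 100) (x - s) with h1 | h1
  · rcases le_total x (24 / 100) with h2 | h2
    · exact m1e hx h2 (by linarith only [hs]) (by linarith only [hs']) (by linarith only [ht']) hρ (by linarith only [hρ']) hη hw hwi hζ hζi h1
    · rcases le_total x (1 / 4) with h3 | h3
      · exact m1f1 h2 h3 (by linarith only [hs]) (by linarith only [hs']) (by linarith only [ht']) hρ (by linarith only [hρ']) hη hw hwi hζ hζi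
      · rcases le_total x (26 / 100) with h4 | h4
        · exact m1f2 h3 h4 (by linarith only [hs]) (by linarith only [hs']) (by linarith only [ht']) hρ (by linarith only [hρ']) hη hw hwi hζ hζi
        · exact m1f3 h4 hx' (by linarith only [hs]) (by linarith only [hs']) (by linarith only [ht']) hρ (by linarith only [hρ']) hη hw hwi hζ hζi
  · right
    rcases le_total (2 / 100) (x - s) with h2 | h2
    · exact m1g (by linarith only [hs]) (by linarith only [hs']) (by linarith only [ht']) hρ (by linarith only [hρ']) hη hw hwi hζ hζi h2 h1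
    · rcases Dc_le hw hwi hζ hζi hρ.le (by linarith only [hx, hρ, hρ', h2]) (by linarith only [hx', hs', hρ, hρ']) (by linarith only [hρ, hρ', h2]) hη with h3 | h3
      · exact lt_of_lt_of_le (m1ca hx hx' (by linarith only [hx, h2]) (by linarith only [hs']) (by linarith only [ht']) hρ (by linarith only [hρ']) hη (by linarith only [h2]) (by linarith only [hx, hs'])) h3
      · exact lt_of_lt_of_le (m1cb hx hx' (by linarith only [hx, h2]) (by linarith only [hs']) (by linarith only [ht']) hρ (by linarith only [hρ']) hη (by linarith only [h2]) (by linarith only [hx, hs'])) h3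

theorem m2ca (hx : 1 / 10 ≤ x) (hx' : x ≤ 27 / 100) (hs : 1 / 8 ≤ s) (hs' : s ≤ 3 / 20) (ht' : t ≤ 93 / 2000)
    (hρ : 0 < ρ) (hρ' : ρ ≤ 29 / 400) (hη : 4 * ρ * s ≤ t)
    (hd : x - s ≤ 3 / 100) (hd' : s - x ≤ 3 / 100) :
    0 < NumI.lnA (x + s) (t + 4 * ρ * s) - 4 * ρ * NumI.lnB (x + s) (t + 4 * ρ * s) := by
  have e : 0 ≤ 4 * ρ * s := mul_nonneg (by linarith only [hρ]) (by linarith only [hs, hρ, hρ'])
  have e1 : x - s + 2 * s = x + s := by ring
  have e2 : t - 4 * ρ * s + 8 * (ρ * s) = t + 4 * ρ * s := by ring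
  have e3 : 2 * s - (s - x) = x + s := by ring
  have e4 : 1 - (s - x) = x + 1 - s := by ring
  have h : chk [DX y1, cC, cB 27, cU] 24
    [NumI.V.of 10000 (-300) 300, NumI.V.of 10000 0 465,
      NumI.V.of 10000 1250 1500, NumI.V.of 10000 0 725] = true := by
    decide +kernel
  obtain ⟨f, hf, hp⟩ := chk4 h (by norm_num) (x := x - s) (y := t - 4 * ρ * s) (z := s) (w := ρ)
    (by norm_num; linarith only [hd']) (by norm_num; linarith only [hd]) (by norm_num; linarith only [hη]) (by norm_num; linarith only [ht', e])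
    (by norm_num; linarith only [hs]) (by norm_num; linarith only [hs']) (by norm_num; linarith only [hρ]) (by norm_num; linarith only [hρ'])
  simp only [List.mem_cons, List.not_mem_nil, or_false] at hf
  rcases hf with rfl | rfl | rfl | rfl
  · simp only [DX, x1, x2, y1, y2, u2, e0, eT, eK, eS, eR, eH, E.val, NumI.lkR] at hp
    push_cast at hp
    try simp only [div_one, sub_add_cancel, sub_sub_cancel, e1, e2, e3, e4] at hp
    linarith only [hp]
  · simp only [cC, x1, x2, y1, y2, u2, e0, eT, eK, eS, eR, eH, E.val, NumI.lkR] at hp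
    push_cast at hp
    try simp only [div_one, sub_add_cancel, sub_sub_cancel, e1, e2, e3, e4] at hp
    linarith only [hx, hp]
  · simp only [cB, x1, x2, y1, y2, u2, e0, eT, eK, eS, eR, eH, E.val, NumI.lkR] at hp
    push_cast at hp
    try simp only [div_one, sub_add_cancel, sub_sub_cancel, e1, e2, e3, e4] at hp
    linarith only [hx', hp]
  · simp only [cU, x1, x2, y1, y2, u2, e0, eT, eK, eS, eR, eH, E.val, NumI.lkR] at hp
    push_cast at hp
    try simp only [div_one, sub_add_cancel, sub_sub_cancel, e1, e2, e3, e4] at hp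
    linarith only [ht', hp]

theorem m2cb (hx : 1 / 10 ≤ x) (hx' : x ≤ 27 / 100) (hs : 1 / 8 ≤ s) (hs' : s ≤ 3 / 20) (ht' : t ≤ 93 / 2000)
    (hρ : 0 < ρ) (hρ' : ρ ≤ 29 / 400) (hη : 4 * ρ * s ≤ t)
    (hd : x - s ≤ 3 / 100) (hd' : s - x ≤ 3 / 100) :
    0 < NumI.lnA (x + s) (t + 4 * ρ * s) - 4 * ρ * NumI.lnB (x + s) (t + 4 * ρ * s) -
      (1 / 2 * Real.log (2 * (Real.cosh (2 * Real.pi * (t - 4 * ρ * s)) -
        Real.cos (Real.pi * (2 * (x - s)))) + 1 / 20) + 4 * ρ * Real.pi) := by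
  have e : 0 ≤ 4 * ρ * s := mul_nonneg (by linarith only [hρ]) (by linarith only [hs, hρ, hρ'])
  have e1 : x - s + 2 * s = x + s := by ring
  have e2 : t - 4 * ρ * s + 8 * (ρ * s) = t + 4 * ρ * s := by ring
  have e3 : 2 * s - (s - x) = x + s := by ring
  have e4 : 1 - (s - x) = x + 1 - s := by ring
  have h : chk [Dc, cC, cB 27, cU] 24
    [NumI.V.of 10000 (-300) 300, NumI.V.of 10000 0 465,
      NumI.V.of 10000 1250 1500, NumI.V.of 10000 0 725] = true := by
    decide +kernel
  obtain ⟨f, hf, hp⟩ := chk4 h (by norm_num) (x := x - s) (y := t - 4 * ρ * s) (z := s) (w := ρ)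
    (by norm_num; linarith only [hd']) (by norm_num; linarith only [hd]) (by norm_num; linarith only [hη]) (by norm_num; linarith only [ht', e])
    (by norm_num; linarith only [hs]) (by norm_num; linarith only [hs']) (by norm_num; linarith only [hρ]) (by norm_num; linarith only [hρ'])
  simp only [List.mem_cons, List.not_mem_nil, or_false] at hf
  rcases hf with rfl | rfl | rfl | rfl
  · simp only [Dc, DX, x1, x2, y1, y2, u2, e0, eT, eK, eS, eR, eH, E.val, NumI.lkR] at hp
    push_cast at hp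
    try simp only [div_one, sub_add_cancel, sub_sub_cancel, e1, e2, e3, e4] at hp
    linarith only [hp]
  · simp only [cC, x1, x2, y1, y2, u2, e0, eT, eK, eS, eR, eH, E.val, NumI.lkR] at hp
    push_cast at hp
    try simp only [div_one, sub_add_cancel, sub_sub_cancel, e1, e2, e3, e4] at hp
    linarith only [hx, hp]
  · simp only [cB, x1, x2, y1, y2, u2, e0, eT, eK, eS, eR, eH, E.val, NumI.lkR] at hp
    push_cast at hp
    try simp only [div_one, sub_add_cancel, sub_sub_cancel, e1, e2, e3, e4] at hp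
    linarith only [hx', hp]
  · simp only [cU, x1, x2, y1, y2, u2, e0, eT, eK, eS, eR, eH, E.val, NumI.lkR] at hp
    push_cast at hp
    try simp only [div_one, sub_add_cancel, sub_sub_cancel, e1, e2, e3, e4] at hp
    linarith only [ht', hp]

theorem m2d (hx : 1 / 10 ≤ x) (hx' : x ≤ 27 / 100) (hs : 1 / 8 ≤ s) (hs' : s ≤ 3 / 20) (ht' : t ≤ 93 / 2000)
    (hρ : 0 < ρ) (hρ' : ρ ≤ 29 / 400) (hη : 4 * ρ * s ≤ t)
    (hw : w.re = x) (hwi : w.im = t) (hζ : ζ.re = -(1 / 2) + s) (hζi : ζ.im = 4 * ρ * s)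
    (hd : 3 / 100 ≤ s - x) :
    0 < Dm (4 * ρ) w ζ := by
  have e : 0 ≤ 4 * ρ * s := mul_nonneg (by linarith only [hρ]) (by linarith only [hx, hρ, hρ', hd])
  have e1 : x - s + 2 * s = x + s := by ring
  have e2 : t - 4 * ρ * s + 8 * (ρ * s) = t + 4 * ρ * s := by ring
  have e3 : 2 * s - (s - x) = x + s := by ring
  have e4 : 1 - (s - x) = x + 1 - s := by ring
  have hf1 := D3_eq hw hwi hζ hζi (by linarith only [hx, hρ, hρ', hd]) (by linarith only [hx', hs', hρ, hρ']) (by linarith only [hρ, hρ', hd]) (by linarith only [hx, hs', hρ, hρ'])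
  have h : chk [D2, cD, cU] 24
    [NumI.V.of 10000 300 500, NumI.V.of 10000 0 465,
      NumI.V.of 10000 1300 1500, NumI.V.of 10000 0 725] = true := by
    decide +kernel
  obtain ⟨f, hf, hp⟩ := chk4 h (by norm_num) (x := s - x) (y := t - 4 * ρ * s) (z := s) (w := ρ)
    (by norm_num; linarith only [hd]) (by norm_num; linarith only [hx, hs']) (by norm_num; linarith only [hη]) (by norm_num; linarith only [ht', e])
    (by norm_num; linarith only [hx, hd]) (by norm_num; linarith only [hs']) (by norm_num; linarith only [hρ]) (by norm_num; linarith only [hρ'])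
  simp only [List.mem_cons, List.not_mem_nil, or_false] at hf
  rcases hf with rfl | rfl | rfl
  · simp only [D2, DX, x1, x2, y1, y2, u2, e0, eT, eK, eS, eR, eH, E.val, NumI.lkR] at hp
    push_cast at hp
    try simp only [div_one, sub_add_cancel, sub_sub_cancel, e1, e2, e3, e4] at hp
    linarith only [hf1, hp]
  · simp only [cD, x1, x2, y1, y2, u2, e0, eT, eK, eS, eR, eH, E.val, NumI.lkR] at hp
    push_cast at hp
    try simp only [div_one, sub_add_cancel, sub_sub_cancel, e1, e2, e3, e4] at hp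
    linarith only [hx, hp]
  · simp only [cU, x1, x2, y1, y2, u2, e0, eT, eK, eS, eR, eH, E.val, NumI.lkR] at hp
    push_cast at hp
    try simp only [div_one, sub_add_cancel, sub_sub_cancel, e1, e2, e3, e4] at hp
    linarith only [ht', hp]

theorem m2e (hx : 1 / 10 ≤ x) (hx' : x ≤ 24 / 100) (hs : 1 / 8 ≤ s) (hs' : s ≤ 3 / 20) (ht' : t ≤ 93 / 2000)
    (hρ : 0 < ρ) (hρ' : ρ ≤ 29 / 400) (hη : 4 * ρ * s ≤ t)
    (hw : w.re = x) (hwi : w.im = t) (hζ : ζ.re = -(1 / 2) + s) (hζi : ζ.im = 4 * ρ * s)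
    (hd : 3 / 100 ≤ x - s) :
    Real.pi * ρ * (1 - 4 * s) < fu x t (-(1 / 4)) ρ - fu x t (-(1 / 2) + s) (4 * ρ * s) ∨
      0 < Dm (4 * ρ) w ζ := by
  have e : 0 ≤ 4 * ρ * s := mul_nonneg (by linarith only [hρ]) (by linarith only [hs, hρ, hρ'])
  have e1 : x - s + 2 * s = x + s := by ring
  have e2 : t - 4 * ρ * s + 8 * (ρ * s) = t + 4 * ρ * s := by ring
  have e3 : 2 * s - (s - x) = x + s := by ring
  have e4 : 1 - (s - x) = x + 1 - s := by ring
  have hg := gap_eq (s := s) (ρ := ρ) (x := x) (t := t)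
  have hf1 := D1_le hw hwi hζ hζi hρ.le (by linarith only [hs, hρ, hρ', hd]) (by linarith only [hx', hρ, hρ', hd]) (by linarith only [hρ, hρ', hd]) (by linarith only [hx', hs, hρ, hρ']) hη
  have hf2 := far (x := x) hη
  have h : chk [D1, E.sub g1 o3, cB 24, cU] 24
    [NumI.V.of 10000 300 1150, NumI.V.of 10000 0 465,
      NumI.V.of 10000 1250 1500, NumI.V.of 10000 0 725] = true := by
    decide +kernel
  obtain ⟨f, hf, hp⟩ := chk4 h (by norm_num) (x := x - s) (y := t - 4 * ρ * s) (z := s) (w := ρ)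
    (by norm_num; linarith only [hd]) (by norm_num; linarith only [hx', hs]) (by norm_num; linarith only [hη]) (by norm_num; linarith only [ht', e])
    (by norm_num; linarith only [hs]) (by norm_num; linarith only [hs']) (by norm_num; linarith only [hρ]) (by norm_num; linarith only [hρ'])
  simp only [List.mem_cons, List.not_mem_nil, or_false] at hf
  rcases hf with rfl | rfl | rfl | rfl
  · simp only [D1, DX, x1, x2, y1, y2, u2, e0, eT, eK, eS, eR, eH, E.val, NumI.lkR] at hp
    push_cast at hp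
    try simp only [div_one, sub_add_cancel, sub_sub_cancel, e1, e2, e3, e4] at hp
    right
    linarith only [hf1, hp]
  · simp only [g1, ba, o3, x1, x2, y1, y2, u2, e0, eT, eK, eS, eR, eH, E.val, NumI.lkR] at hp
    push_cast at hp
    try simp only [div_one, sub_add_cancel, sub_sub_cancel, e1, e2, e3, e4] at hp
    left
    linarith only [hg, hf2, hp]
  · simp only [cB, x1, x2, y1, y2, u2, e0, eT, eK, eS, eR, eH, E.val, NumI.lkR] at hp
    push_cast at hp
    try simp only [div_one, sub_add_cancel, sub_sub_cancel, e1, e2, e3, e4] at hp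
    linarith only [hx', hp]
  · simp only [cU, x1, x2, y1, y2, u2, e0, eT, eK, eS, eR, eH, E.val, NumI.lkR] at hp
    push_cast at hp
    try simp only [div_one, sub_add_cancel, sub_sub_cancel, e1, e2, e3, e4] at hp
    linarith only [ht', hp]

theorem m2f1 (hx : 24 / 100 ≤ x) (hx' : x ≤ 1 / 4) (hs : 1 / 8 ≤ s) (hs' : s ≤ 3 / 20) (ht' : t ≤ 93 / 2000)
    (hρ : 0 < ρ) (hρ' : ρ ≤ 29 / 400) (hη : 4 * ρ * s ≤ t)
    (hw : w.re = x) (hwi : w.im = t) (hζ : ζ.re = -(1 / 2) + s) (hζi : ζ.im = 4 * ρ * s) :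
    Real.pi * ρ * (1 - 4 * s) < fu x t (-(1 / 4)) ρ - fu x t (-(1 / 2) + s) (4 * ρ * s) ∨
      0 < Dm (4 * ρ) w ζ := by
  have e : 0 ≤ 4 * ρ * s := mul_nonneg (by linarith only [hρ]) (by linarith only [hs, hρ, hρ'])
  have e1 : x - s + 2 * s = x + s := by ring
  have e2 : t - 4 * ρ * s + 8 * (ρ * s) = t + 4 * ρ * s := by ring
  have e3 : 2 * s - (s - x) = x + s := by ring
  have e4 : 1 - (s - x) = x + 1 - s := by ring
  have hg := gap_eq (s := s) (ρ := ρ) (x := x) (t := t)
  have hf1 := D1_le hw hwi hζ hζi hρ.le (by linarith only [hx, hs, hρ, hρ']) (by linarith only [hx', hs', hρ, hρ']) (by linarith only [hx, hs', hρ, hρ']) (by linarith only [hx', hs, hρ, hρ']) hη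
  have hf5 := far (x := x) hη
  have hf2 := half (t := t) (ρ := ρ) hx hx' (absdiff (by linarith only [hη, e]) (by linarith only [ht', hρ, hρ']) hρ.le (by linarith only [hρ, hρ']))
  have hf3 := pa1 (t := t) (ρ := ρ)
  have hf4 := pa2 (t := t) (ρ := ρ)
  have h : chk [E.sub h1 o3, E.sub h2 o3, D0, cU] 24
    [NumI.V.of 10000 2400 2500, NumI.V.of 10000 0 465,
      NumI.V.of 10000 1250 1500, NumI.V.of 10000 0 725] = true := by
    decide +kernel
  obtain ⟨f, hf, hp⟩ := chk4 h (by norm_num) (x := x) (y := t - 4 * ρ * s) (z := s) (w := ρ)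
    (by norm_num; linarith only [hx]) (by norm_num; linarith only [hx']) (by norm_num; linarith only [hη]) (by norm_num; linarith only [ht', e])
    (by norm_num; linarith only [hs]) (by norm_num; linarith only [hs']) (by norm_num; linarith only [hρ]) (by norm_num; linarith only [hρ'])
  simp only [List.mem_cons, List.not_mem_nil, or_false] at hf
  rcases hf with rfl | rfl | rfl | rfl
  · simp only [h1, aft, o3, x1, x2, y1, y2, u2, e0, eT, eK, eS, eR, eH, E.val, NumI.lkR] at hp
    push_cast at hp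
    try simp only [div_one, sub_add_cancel, sub_sub_cancel, e1, e2, e3, e4] at hp
    left
    linarith only [hg, hf5, hf2, hf3, hp]
  · simp only [h2, aft, o3, x1, x2, y1, y2, u2, e0, eT, eK, eS, eR, eH, E.val, NumI.lkR] at hp
    push_cast at hp
    try simp only [div_one, sub_add_cancel, sub_sub_cancel, e1, e2, e3, e4] at hp
    left
    linarith only [hg, hf5, hf2, hf4, hp]
  · simp only [D0, DX, x1, x2, y1, y2, u2, e0, eT, eK, eS, eR, eH, E.val, NumI.lkR] at hp
    push_cast at hp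
    try simp only [div_one, sub_add_cancel, sub_sub_cancel, e1, e2, e3, e4] at hp
    right
    linarith only [hf1, hp]
  · simp only [cU, x1, x2, y1, y2, u2, e0, eT, eK, eS, eR, eH, E.val, NumI.lkR] at hp
    push_cast at hp
    try simp only [div_one, sub_add_cancel, sub_sub_cancel, e1, e2, e3, e4] at hp
    linarith only [ht', hp]

theorem m2f2 (hx : 1 / 4 ≤ x) (hx' : x ≤ 26 / 100) (hs : 1 / 8 ≤ s) (hs' : s ≤ 3 / 20) (ht' : t ≤ 93 / 2000)
    (hρ : 0 < ρ) (hρ' : ρ ≤ 29 / 400) (hη : 4 * ρ * s ≤ t)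
    (hw : w.re = x) (hwi : w.im = t) (hζ : ζ.re = -(1 / 2) + s) (hζi : ζ.im = 4 * ρ * s) :
    Real.pi * ρ * (1 - 4 * s) < fu x t (-(1 / 4)) ρ - fu x t (-(1 / 2) + s) (4 * ρ * s) ∨
      0 < Dm (4 * ρ) w ζ := by
  have e : 0 ≤ 4 * ρ * s := mul_nonneg (by linarith only [hρ]) (by linarith only [hs, hρ, hρ'])
  have e1 : x - s + 2 * s = x + s := by ring
  have e2 : t - 4 * ρ * s + 8 * (ρ * s) = t + 4 * ρ * s := by ring
  have e3 : 2 * s - (s - x) = x + s := by ring
  have e4 : 1 - (s - x) = x + 1 - s := by ring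
  have hg := gap_eq (s := s) (ρ := ρ) (x := x) (t := t)
  have hf1 := D1_le hw hwi hζ hζi hρ.le (by linarith only [hx, hs, hρ, hρ']) (by linarith only [hx', hs', hρ, hρ']) (by linarith only [hx, hs', hρ, hρ']) (by linarith only [hx', hs, hρ, hρ']) hη
  have hf5 := far (x := x) hη
  have hf2 := past' (t := t) (ρ := ρ) hx hx' (absdiff (by linarith only [hη, e]) (by linarith only [ht', hρ, hρ']) hρ.le (by linarith only [hρ, hρ']))
  have hf3 := pa1 (t := t) (ρ := ρ)
  have hf4 := pa2 (t := t) (ρ := ρ)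
  have h : chk [E.sub k1 o3, E.sub k2 o3, D0, cU] 24
    [NumI.V.of 10000 2500 2600, NumI.V.of 10000 0 465,
      NumI.V.of 10000 1250 1500, NumI.V.of 10000 0 725] = true := by
    decide +kernel
  obtain ⟨f, hf, hp⟩ := chk4 h (by norm_num) (x := x) (y := t - 4 * ρ * s) (z := s) (w := ρ)
    (by norm_num; linarith only [hx]) (by norm_num; linarith only [hx']) (by norm_num; linarith only [hη]) (by norm_num; linarith only [ht', e])
    (by norm_num; linarith only [hs]) (by norm_num; linarith only [hs']) (by norm_num; linarith only [hρ]) (by norm_num; linarith only [hρ'])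
  simp only [List.mem_cons, List.not_mem_nil, or_false] at hf
  rcases hf with rfl | rfl | rfl | rfl
  · simp only [k1, aft, o3, x1, x2, y1, y2, u2, e0, eT, eK, eS, eR, eH, E.val, NumI.lkR] at hp
    push_cast at hp
    try simp only [div_one, sub_add_cancel, sub_sub_cancel, e1, e2, e3, e4] at hp
    left
    linarith only [hg, hf5, hf2, hf3, hp]
  · simp only [k2, aft, o3, x1, x2, y1, y2, u2, e0, eT, eK, eS, eR, eH, E.val, NumI.lkR] at hp
    push_cast at hp
    try simp only [div_one, sub_add_cancel, sub_sub_cancel, e1, e2, e3, e4] at hp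
    left
    linarith only [hg, hf5, hf2, hf4, hp]
  · simp only [D0, DX, x1, x2, y1, y2, u2, e0, eT, eK, eS, eR, eH, E.val, NumI.lkR] at hp
    push_cast at hp
    try simp only [div_one, sub_add_cancel, sub_sub_cancel, e1, e2, e3, e4] at hp
    right
    linarith only [hf1, hp]
  · simp only [cU, x1, x2, y1, y2, u2, e0, eT, eK, eS, eR, eH, E.val, NumI.lkR] at hp
    push_cast at hp
    try simp only [div_one, sub_add_cancel, sub_sub_cancel, e1, e2, e3, e4] at hp
    linarith only [ht', hp]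

theorem m2f3 (hx : 26 / 100 ≤ x) (hx' : x ≤ 27 / 100) (hs : 1 / 8 ≤ s) (hs' : s ≤ 3 / 20) (ht' : t ≤ 93 / 2000)
    (hρ : 0 < ρ) (hρ' : ρ ≤ 29 / 400) (hη : 4 * ρ * s ≤ t)
    (hw : w.re = x) (hwi : w.im = t) (hζ : ζ.re = -(1 / 2) + s) (hζi : ζ.im = 4 * ρ * s) :
    Real.pi * ρ * (1 - 4 * s) < fu x t (-(1 / 4)) ρ - fu x t (-(1 / 2) + s) (4 * ρ * s) ∨
      0 < Dm (4 * ρ) w ζ := by
  have e : 0 ≤ 4 * ρ * s := mul_nonneg (by linarith only [hρ]) (by linarith only [hs, hρ, hρ'])
  have e1 : x - s + 2 * s = x + s := by ring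
  have e2 : t - 4 * ρ * s + 8 * (ρ * s) = t + 4 * ρ * s := by ring
  have e3 : 2 * s - (s - x) = x + s := by ring
  have e4 : 1 - (s - x) = x + 1 - s := by ring
  have hg := gap_eq (s := s) (ρ := ρ) (x := x) (t := t)
  have hf1 := D1_le hw hwi hζ hζi hρ.le (by linarith only [hx, hs, hρ, hρ']) (by linarith only [hx', hs', hρ, hρ']) (by linarith only [hx, hs', hρ, hρ']) (by linarith only [hx', hs, hρ, hρ']) hη
  have hf5 := far (x := x) hη
  have hf2 := past (x := x) (t := t) (ρ := ρ)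
  have hf3 := pa1 (t := t) (ρ := ρ)
  have hf4 := pa2 (t := t) (ρ := ρ)
  have h : chk [E.sub l1 o3, E.sub l2 o3, D0, cU] 24
    [NumI.V.of 10000 2600 2700, NumI.V.of 10000 0 465,
      NumI.V.of 10000 1250 1500, NumI.V.of 10000 0 725] = true := by
    decide +kernel
  obtain ⟨f, hf, hp⟩ := chk4 h (by norm_num) (x := x) (y := t - 4 * ρ * s) (z := s) (w := ρ)
    (by norm_num; linarith only [hx]) (by norm_num; linarith only [hx']) (by norm_num; linarith only [hη]) (by norm_num; linarith only [ht', e])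
    (by norm_num; linarith only [hs]) (by norm_num; linarith only [hs']) (by norm_num; linarith only [hρ]) (by norm_num; linarith only [hρ'])
  simp only [List.mem_cons, List.not_mem_nil, or_false] at hf
  rcases hf with rfl | rfl | rfl | rfl
  · simp only [l1, aft, o3, x1, x2, y1, y2, u2, e0, eT, eK, eS, eR, eH, E.val, NumI.lkR] at hp
    push_cast at hp
    try simp only [div_one, sub_add_cancel, sub_sub_cancel, e1, e2, e3, e4] at hp
    left
    linarith only [hg, hf5, hf2, hf3, hp]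
  · simp only [l2, aft, o3, x1, x2, y1, y2, u2, e0, eT, eK, eS, eR, eH, E.val, NumI.lkR] at hp
    push_cast at hp
    try simp only [div_one, sub_add_cancel, sub_sub_cancel, e1, e2, e3, e4] at hp
    left
    linarith only [hg, hf5, hf2, hf4, hp]
  · simp only [D0, DX, x1, x2, y1, y2, u2, e0, eT, eK, eS, eR, eH, E.val, NumI.lkR] at hp
    push_cast at hp
    try simp only [div_one, sub_add_cancel, sub_sub_cancel, e1, e2, e3, e4] at hp
    right
    linarith only [hf1, hp]
  · simp only [cU, x1, x2, y1, y2, u2, e0, eT, eK, eS, eR, eH, E.val, NumI.lkR] at hp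
    push_cast at hp
    try simp only [div_one, sub_add_cancel, sub_sub_cancel, e1, e2, e3, e4] at hp
    linarith only [ht', hp]

/-- numerical minimum: .088 -/
theorem ge2a (hx : 1 / 10 ≤ x) (hx' : x ≤ 27 / 100) (ht' : t ≤ 465 / 10000)
    (hs : 1 / 8 ≤ s) (hs' : s ≤ 15 / 100) (hρ : 0 < ρ) (hρ' : ρ ≤ 725 / 10000) (hη : 4 * ρ * s ≤ t)
    (hw : w.re = x) (hwi : w.im = t) (hζ : ζ.re = -(1 / 2) + s) (hζi : ζ.im = 4 * ρ * s) :
    Real.pi * ρ * (1 - 4 * s) < fu x t (-(1 / 4)) ρ - fu x t (-(1 / 2) + s) (4 * ρ * s) ∨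
      0 < Dm (4 * ρ) w ζ := by
  rcases le_total (3 / 100) (x - s) with h1 | h1
  · rcases le_total x (24 / 100) with h2 | h2
    · exact m2e hx h2 (by linarith only [hs]) (by linarith only [hs']) (by linarith only [ht']) hρ (by linarith only [hρ']) hη hw hwi hζ hζi h1
    · rcases le_total x (1 / 4) with h3 | h3
      · exact m2f1 h2 h3 (by linarith only [hs]) (by linarith only [hs']) (by linarith only [ht']) hρ (by linarith only [hρ']) hη hw hwi hζ hζi
      · rcases le_total x (26 / 100) with h4 | h4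
        · exact m2f2 h3 h4 (by linarith only [hs]) (by linarith only [hs']) (by linarith only [ht']) hρ (by linarith only [hρ']) hη hw hwi hζ hζi
        · exact m2f3 h4 hx' (by linarith only [hs]) (by linarith only [hs']) (by linarith only [ht']) hρ (by linarith only [hρ']) hη hw hwi hζ hζi
  · right
    rcases le_total (3 / 100) (s - x) with h2 | h2
    · exact m2d hx hx' (by linarith only [hx, hρ, hρ', h2]) (by linarith only [hs']) (by linarith only [ht']) hρ (by linarith only [hρ']) hη hw hwi hζ hζi h2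
    · rcases Dc_le hw hwi hζ hζi hρ.le (by linarith only [hx, hs, hρ, hρ']) (by linarith only [hx', hs', hρ, hρ']) (by linarith only [hx', hs, hρ, hρ']) hη with h3 | h3
      · exact lt_of_lt_of_le (m2ca hx hx' (by linarith only [hs]) (by linarith only [hs']) (by linarith only [ht']) hρ (by linarith only [hρ']) hη h1 h2) h3
      · exact lt_of_lt_of_le (m2cb hx hx' (by linarith only [hs]) (by linarith only [hs']) (by linarith only [ht']) hρ (by linarith only [hρ']) hη h1 h2) h3

theorem m4ca (hx : 1 / 10 ≤ x) (hx' : x ≤ 27 / 100) (hs : 3 / 20 ≤ s) (hs' : s ≤ 1 / 4) (ht' : t ≤ 7 / 125)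
    (hρ : 0 < ρ) (hρ' : ρ ≤ 29 / 400) (hη : 4 * ρ * s ≤ t)
    (hd : x - s ≤ 3 / 100) (hd' : s - x ≤ 3 / 100) :
    0 < NumI.lnA (x + s) (t + 4 * ρ * s) - 4 * ρ * NumI.lnB (x + s) (t + 4 * ρ * s) := by
  have e : 0 ≤ 4 * ρ * s := mul_nonneg (by linarith only [hρ]) (by linarith only [hs, hρ, hρ'])
  have e1 : x - s + 2 * s = x + s := by ring
  have e2 : t - 4 * ρ * s + 8 * (ρ * s) = t + 4 * ρ * s := by ring
  have e3 : 2 * s - (s - x) = x + s := by ring
  have e4 : 1 - (s - x) = x + 1 - s := by ring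
  have h : chk [DX y1, cC, cB 27, cT] 24
    [NumI.V.of 10000 (-300) 300, NumI.V.of 10000 0 560,
      NumI.V.of 10000 1500 2500, NumI.V.of 10000 0 725] = true := by
    decide +kernel
  obtain ⟨f, hf, hp⟩ := chk4 h (by norm_num) (x := x - s) (y := t - 4 * ρ * s) (z := s) (w := ρ)
    (by norm_num; linarith only [hd']) (by norm_num; linarith only [hd]) (by norm_num; linarith only [hη]) (by norm_num; linarith only [ht', e])
    (by norm_num; linarith only [hs]) (by norm_num; linarith only [hs']) (by norm_num; linarith only [hρ]) (by norm_num; linarith only [hρ'])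
  simp only [List.mem_cons, List.not_mem_nil, or_false] at hf
  rcases hf with rfl | rfl | rfl | rfl
  · simp only [DX, x1, x2, y1, y2, u2, e0, eT, eK, eS, eR, eH, E.val, NumI.lkR] at hp
    push_cast at hp
    try simp only [div_one, sub_add_cancel, sub_sub_cancel, e1, e2, e3, e4] at hp
    linarith only [hp]
  · simp only [cC, x1, x2, y1, y2, u2, e0, eT, eK, eS, eR, eH, E.val, NumI.lkR] at hp
    push_cast at hp
    try simp only [div_one, sub_add_cancel, sub_sub_cancel, e1, e2, e3, e4] at hp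
    linarith only [hs, hρ, hρ', hd', hp]
  · simp only [cB, x1, x2, y1, y2, u2, e0, eT, eK, eS, eR, eH, E.val, NumI.lkR] at hp
    push_cast at hp
    try simp only [div_one, sub_add_cancel, sub_sub_cancel, e1, e2, e3, e4] at hp
    linarith only [hx', hp]
  · simp only [cT, x1, x2, y1, y2, u2, e0, eT, eK, eS, eR, eH, E.val, NumI.lkR] at hp
    push_cast at hp
    try simp only [div_one, sub_add_cancel, sub_sub_cancel, e1, e2, e3, e4] at hp
    linarith only [ht', hp]

theorem m4cb (hx : 1 / 10 ≤ x) (hx' : x ≤ 27 / 100) (hs : 3 / 20 ≤ s) (hs' : s ≤ 1 / 4) (ht' : t ≤ 7 / 125)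
    (hρ : 0 < ρ) (hρ' : ρ ≤ 29 / 400) (hη : 4 * ρ * s ≤ t)
    (hd : x - s ≤ 3 / 100) (hd' : s - x ≤ 3 / 100) :
    0 < NumI.lnA (x + s) (t + 4 * ρ * s) - 4 * ρ * NumI.lnB (x + s) (t + 4 * ρ * s) -
      (1 / 2 * Real.log (2 * (Real.cosh (2 * Real.pi * (t - 4 * ρ * s)) -
        Real.cos (Real.pi * (2 * (x - s)))) + 1 / 20) + 4 * ρ * Real.pi) := by
  have e : 0 ≤ 4 * ρ * s := mul_nonneg (by linarith only [hρ]) (by linarith only [hs, hρ, hρ'])
  have e1 : x - s + 2 * s = x + s := by ring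
  have e2 : t - 4 * ρ * s + 8 * (ρ * s) = t + 4 * ρ * s := by ring
  have e3 : 2 * s - (s - x) = x + s := by ring
  have e4 : 1 - (s - x) = x + 1 - s := by ring
  have h : chk [Dc, cC, cB 27, cT] 24
    [NumI.V.of 10000 (-300) 300, NumI.V.of 10000 0 560,
      NumI.V.of 10000 1500 2500, NumI.V.of 10000 0 725] = true := by
    decide +kernel
  obtain ⟨f, hf, hp⟩ := chk4 h (by norm_num) (x := x - s) (y := t - 4 * ρ * s) (z := s) (w := ρ)
    (by norm_num; linarith only [hd']) (by norm_num; linarith only [hd]) (by norm_num; linarith only [hη]) (by norm_num; linarith only [ht', e])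
    (by norm_num; linarith only [hs]) (by norm_num; linarith only [hs']) (by norm_num; linarith only [hρ]) (by norm_num; linarith only [hρ'])
  simp only [List.mem_cons, List.not_mem_nil, or_false] at hf
  rcases hf with rfl | rfl | rfl | rfl
  · simp only [Dc, DX, x1, x2, y1, y2, u2, e0, eT, eK, eS, eR, eH, E.val, NumI.lkR] at hp
    push_cast at hp
    try simp only [div_one, sub_add_cancel, sub_sub_cancel, e1, e2, e3, e4] at hp
    linarith only [hp]
  · simp only [cC, x1, x2, y1, y2, u2, e0, eT, eK, eS, eR, eH, E.val, NumI.lkR] at hp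
    push_cast at hp
    try simp only [div_one, sub_add_cancel, sub_sub_cancel, e1, e2, e3, e4] at hp
    linarith only [hs, hρ, hρ', hd', hp]
  · simp only [cB, x1, x2, y1, y2, u2, e0, eT, eK, eS, eR, eH, E.val, NumI.lkR] at hp
    push_cast at hp
    try simp only [div_one, sub_add_cancel, sub_sub_cancel, e1, e2, e3, e4] at hp
    linarith only [hx', hp]
  · simp only [cT, x1, x2, y1, y2, u2, e0, eT, eK, eS, eR, eH, E.val, NumI.lkR] at hp
    push_cast at hp
    try simp only [div_one, sub_add_cancel, sub_sub_cancel, e1, e2, e3, e4] at hp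
    linarith only [ht', hp]

theorem m4d (hx : 1 / 10 ≤ x) (hx' : x ≤ 27 / 100) (hs : 3 / 20 ≤ s) (hs' : s ≤ 1 / 4) (ht' : t ≤ 7 / 125)
    (hρ : 0 < ρ) (hρ' : ρ ≤ 29 / 400) (hη : 4 * ρ * s ≤ t)
    (hw : w.re = x) (hwi : w.im = t) (hζ : ζ.re = -(1 / 2) + s) (hζi : ζ.im = 4 * ρ * s)
    (hd : 3 / 100 ≤ s - x) :
    0 < Dm (4 * ρ) w ζ := by
  have e : 0 ≤ 4 * ρ * s := mul_nonneg (by linarith only [hρ]) (by linarith only [hs, hρ, hρ'])
  have e1 : x - s + 2 * s = x + s := by ring
  have e2 : t - 4 * ρ * s + 8 * (ρ * s) = t + 4 * ρ * s := by ring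
  have e3 : 2 * s - (s - x) = x + s := by ring
  have e4 : 1 - (s - x) = x + 1 - s := by ring
  have hf1 := D3_eq hw hwi hζ hζi (by linarith only [hx, hs, hρ, hρ']) (by linarith only [hx', hs', hρ, hρ']) (by linarith only [hρ, hρ', hd]) (by linarith only [hx, hs', hρ, hρ'])
  have h : chk [D2, cD, cT] 24
    [NumI.V.of 10000 300 1500, NumI.V.of 10000 0 560,
      NumI.V.of 10000 1500 2500, NumI.V.of 10000 0 725] = true := by
    decide +kernel
  obtain ⟨f, hf, hp⟩ := chk4 h (by norm_num) (x := s - x) (y := t - 4 * ρ * s) (z := s) (w := ρ)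
    (by norm_num; linarith only [hd]) (by norm_num; linarith only [hx, hs']) (by norm_num; linarith only [hη]) (by norm_num; linarith only [ht', e])
    (by norm_num; linarith only [hs]) (by norm_num; linarith only [hs']) (by norm_num; linarith only [hρ]) (by norm_num; linarith only [hρ'])
  simp only [List.mem_cons, List.not_mem_nil, or_false] at hf
  rcases hf with rfl | rfl | rfl
  · simp only [D2, DX, x1, x2, y1, y2, u2, e0, eT, eK, eS, eR, eH, E.val, NumI.lkR] at hp
    push_cast at hp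
    try simp only [div_one, sub_add_cancel, sub_sub_cancel, e1, e2, e3, e4] at hp
    linarith only [hf1, hp]
  · simp only [cD, x1, x2, y1, y2, u2, e0, eT, eK, eS, eR, eH, E.val, NumI.lkR] at hp
    push_cast at hp
    try simp only [div_one, sub_add_cancel, sub_sub_cancel, e1, e2, e3, e4] at hp
    linarith only [hx, hp]
  · simp only [cT, x1, x2, y1, y2, u2, e0, eT, eK, eS, eR, eH, E.val, NumI.lkR] at hp
    push_cast at hp
    try simp only [div_one, sub_add_cancel, sub_sub_cancel, e1, e2, e3, e4] at hp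
    linarith only [ht', hp]

theorem m4e (hx : 1 / 10 ≤ x) (hx' : x ≤ 27 / 100) (hs : 3 / 20 ≤ s) (hs' : s ≤ 1 / 4) (ht' : t ≤ 7 / 125)
    (hρ : 0 < ρ) (hρ' : ρ ≤ 29 / 400) (hη : 4 * ρ * s ≤ t)
    (hw : w.re = x) (hwi : w.im = t) (hζ : ζ.re = -(1 / 2) + s) (hζi : ζ.im = 4 * ρ * s)
    (hd : 3 / 100 ≤ x - s) :
    0 < Dm (4 * ρ) w ζ := by
  have e : 0 ≤ 4 * ρ * s := mul_nonneg (by linarith only [hρ]) (by linarith only [hs, hρ, hρ'])
  have e1 : x - s + 2 * s = x + s := by ring
  have e2 : t - 4 * ρ * s + 8 * (ρ * s) = t + 4 * ρ * s := by ring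
  have e3 : 2 * s - (s - x) = x + s := by ring
  have e4 : 1 - (s - x) = x + 1 - s := by ring
  have hf1 := D1_le hw hwi hζ hζi hρ.le (by linarith only [hs, hρ, hρ', hd]) (by linarith only [hx', hρ, hρ', hd]) (by linarith only [hρ, hρ', hd]) (by linarith only [hx', hs, hρ, hρ']) hη
  have h : chk [D1, cB 27] 24
    [NumI.V.of 10000 300 1200, NumI.V.of 10000 0 560,
      NumI.V.of 10000 1500 2500, NumI.V.of 10000 0 725] = true := by
    decide +kernel
  obtain ⟨f, hf, hp⟩ := chk4 h (by norm_num) (x := x - s) (y := t - 4 * ρ * s) (z := s) (w := ρ)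
    (by norm_num; linarith only [hd]) (by norm_num; linarith only [hx', hs]) (by norm_num; linarith only [hη]) (by norm_num; linarith only [ht', e])
    (by norm_num; linarith only [hs]) (by norm_num; linarith only [hx', hρ, hρ', hd]) (by norm_num; linarith only [hρ]) (by norm_num; linarith only [hρ'])
  simp only [List.mem_cons, List.not_mem_nil, or_false] at hf
  rcases hf with rfl | rfl
  · simp only [D1, DX, x1, x2, y1, y2, u2, e0, eT, eK, eS, eR, eH, E.val, NumI.lkR] at hp
    push_cast at hp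
    try simp only [div_one, sub_add_cancel, sub_sub_cancel, e1, e2, e3, e4] at hp
    linarith only [hf1, hp]
  · simp only [cB, x1, x2, y1, y2, u2, e0, eT, eK, eS, eR, eH, E.val, NumI.lkR] at hp
    push_cast at hp
    try simp only [div_one, sub_add_cancel, sub_sub_cancel, e1, e2, e3, e4] at hp
    linarith only [hx', hp]

/-- numerical minimum: .077 -/
theorem ge2b (hx : 1 / 10 ≤ x) (hx' : x ≤ 27 / 100) (ht' : t ≤ 56 / 1000)
    (hs : 15 / 100 ≤ s) (hs' : s ≤ 1 / 4) (hρ : 0 < ρ) (hρ' : ρ ≤ 725 / 10000) (hη : 4 * ρ * s ≤ t)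
    (hw : w.re = x) (hwi : w.im = t) (hζ : ζ.re = -(1 / 2) + s) (hζi : ζ.im = 4 * ρ * s) :
    0 < Dm (4 * ρ) w ζ := by
  rcases le_total (3 / 100) (x - s) with h1 | h1
  · exact m4e hx hx' (by linarith only [hs]) (by linarith only [hx', hρ, hρ', h1]) (by linarith only [ht']) hρ (by linarith only [hρ']) hη hw hwi hζ hζi h1
  · rcases le_total (3 / 100) (s - x) with h2 | h2
    · exact m4d hx hx' (by linarith only [hs]) (by linarith only [hs']) (by linarith only [ht']) hρ (by linarith only [hρ']) hη hw hwi hζ hζi h2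
    · rcases Dc_le hw hwi hζ hζi hρ.le (by linarith only [hs, hρ, hρ', h2]) (by linarith only [hx', hρ, hρ', h2]) (by linarith only [hx', hs, hρ, hρ']) hη with h3 | h3
      · exact lt_of_lt_of_le (m4ca hx hx' (by linarith only [hs]) (by linarith only [hs']) (by linarith only [ht']) hρ (by linarith only [hρ']) hη h1 h2) h3
      · exact lt_of_lt_of_le (m4cb hx hx' (by linarith only [hs]) (by linarith only [hs']) (by linarith only [ht']) hρ (by linarith only [hρ']) hη h1 h2) h3

theorem m5ca (hx : 1 / 10 ≤ x) (hx' : x ≤ 27 / 100) (hs : 1 / 5 ≤ s) (hs' : s ≤ 1 / 4) (ht' : t ≤ 7 / 125)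
    (hρ : 0 < ρ) (hρ' : ρ ≤ 209 / 2000) (hη : 4 * ρ * s ≤ t)
    (hd : x - s ≤ 3 / 100) (hd' : s - x ≤ 3 / 100) :
    0 < NumI.lnA (x + s) (t + 4 * ρ * s) - 4 * ρ * NumI.lnB (x + s) (t + 4 * ρ * s) := by
  have e : 0 ≤ 4 * ρ * s := mul_nonneg (by linarith only [hρ]) (by linarith only [hs, hρ, hρ'])
  have e1 : x - s + 2 * s = x + s := by ring
  have e2 : t - 4 * ρ * s + 8 * (ρ * s) = t + 4 * ρ * s := by ring
  have e3 : 2 * s - (s - x) = x + s := by ring
  have e4 : 1 - (s - x) = x + 1 - s := by ring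
  have h : chk [DX y1, cC, cB 27, cT] 24
    [NumI.V.of 10000 (-300) 300, NumI.V.of 10000 0 560,
      NumI.V.of 10000 2000 2500, NumI.V.of 10000 0 1045] = true := by
    decide +kernel
  obtain ⟨f, hf, hp⟩ := chk4 h (by norm_num) (x := x - s) (y := t - 4 * ρ * s) (z := s) (w := ρ)
    (by norm_num; linarith only [hd']) (by norm_num; linarith only [hd]) (by norm_num; linarith only [hη]) (by norm_num; linarith only [ht', e])
    (by norm_num; linarith only [hs]) (by norm_num; linarith only [hs']) (by norm_num; linarith only [hρ]) (by norm_num; linarith only [hρ'])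
  simp only [List.mem_cons, List.not_mem_nil, or_false] at hf
  rcases hf with rfl | rfl | rfl | rfl
  · simp only [DX, x1, x2, y1, y2, u2, e0, eT, eK, eS, eR, eH, E.val, NumI.lkR] at hp
    push_cast at hp
    try simp only [div_one, sub_add_cancel, sub_sub_cancel, e1, e2, e3, e4] at hp
    linarith only [hp]
  · simp only [cC, x1, x2, y1, y2, u2, e0, eT, eK, eS, eR, eH, E.val, NumI.lkR] at hp
    push_cast at hp
    try simp only [div_one, sub_add_cancel, sub_sub_cancel, e1, e2, e3, e4] at hp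
    linarith only [hs, hρ, hρ', hd', hp]
  · simp only [cB, x1, x2, y1, y2, u2, e0, eT, eK, eS, eR, eH, E.val, NumI.lkR] at hp
    push_cast at hp
    try simp only [div_one, sub_add_cancel, sub_sub_cancel, e1, e2, e3, e4] at hp
    linarith only [hx', hp]
  · simp only [cT, x1, x2, y1, y2, u2, e0, eT, eK, eS, eR, eH, E.val, NumI.lkR] at hp
    push_cast at hp
    try simp only [div_one, sub_add_cancel, sub_sub_cancel, e1, e2, e3, e4] at hp
    linarith only [ht', hp]

theorem m5cb (hx : 1 / 10 ≤ x) (hx' : x ≤ 27 / 100) (hs : 1 / 5 ≤ s) (hs' : s ≤ 1 / 4) (ht' : t ≤ 7 / 125)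
    (hρ : 0 < ρ) (hρ' : ρ ≤ 209 / 2000) (hη : 4 * ρ * s ≤ t)
    (hd : x - s ≤ 3 / 100) (hd' : s - x ≤ 3 / 100) :
    0 < NumI.lnA (x + s) (t + 4 * ρ * s) - 4 * ρ * NumI.lnB (x + s) (t + 4 * ρ * s) -
      (1 / 2 * Real.log (2 * (Real.cosh (2 * Real.pi * (t - 4 * ρ * s)) -
        Real.cos (Real.pi * (2 * (x - s)))) + 1 / 20) + 4 * ρ * Real.pi) := by
  have e : 0 ≤ 4 * ρ * s := mul_nonneg (by linarith only [hρ]) (by linarith only [hs, hρ, hρ'])
  have e1 : x - s + 2 * s = x + s := by ring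
  have e2 : t - 4 * ρ * s + 8 * (ρ * s) = t + 4 * ρ * s := by ring
  have e3 : 2 * s - (s - x) = x + s := by ring
  have e4 : 1 - (s - x) = x + 1 - s := by ring
  have h : chk [Dc, cC, cB 27, cT] 24
    [NumI.V.of 10000 (-300) 300, NumI.V.of 10000 0 560,
      NumI.V.of 10000 2000 2500, NumI.V.of 10000 0 1045] = true := by
    decide +kernel
  obtain ⟨f, hf, hp⟩ := chk4 h (by norm_num) (x := x - s) (y := t - 4 * ρ * s) (z := s) (w := ρ)
    (by norm_num; linarith only [hd']) (by norm_num; linarith only [hd]) (by norm_num; linarith only [hη]) (by norm_num; linarith only [ht', e])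
    (by norm_num; linarith only [hs]) (by norm_num; linarith only [hs']) (by norm_num; linarith only [hρ]) (by norm_num; linarith only [hρ'])
  simp only [List.mem_cons, List.not_mem_nil, or_false] at hf
  rcases hf with rfl | rfl | rfl | rfl
  · simp only [Dc, DX, x1, x2, y1, y2, u2, e0, eT, eK, eS, eR, eH, E.val, NumI.lkR] at hp
    push_cast at hp
    try simp only [div_one, sub_add_cancel, sub_sub_cancel, e1, e2, e3, e4] at hp
    linarith only [hp]
  · simp only [cC, x1, x2, y1, y2, u2, e0, eT, eK, eS, eR, eH, E.val, NumI.lkR] at hp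
    push_cast at hp
    try simp only [div_one, sub_add_cancel, sub_sub_cancel, e1, e2, e3, e4] at hp
    linarith only [hs, hρ, hρ', hd', hp]
  · simp only [cB, x1, x2, y1, y2, u2, e0, eT, eK, eS, eR, eH, E.val, NumI.lkR] at hp
    push_cast at hp
    try simp only [div_one, sub_add_cancel, sub_sub_cancel, e1, e2, e3, e4] at hp
    linarith only [hx', hp]
  · simp only [cT, x1, x2, y1, y2, u2, e0, eT, eK, eS, eR, eH, E.val, NumI.lkR] at hp
    push_cast at hp
    try simp only [div_one, sub_add_cancel, sub_sub_cancel, e1, e2, e3, e4] at hp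
    linarith only [ht', hp]

theorem m5d (hx : 1 / 10 ≤ x) (hx' : x ≤ 27 / 100) (hs : 1 / 5 ≤ s) (hs' : s ≤ 1 / 4) (ht' : t ≤ 7 / 125)
    (hρ : 0 < ρ) (hρ' : ρ ≤ 209 / 2000) (hη : 4 * ρ * s ≤ t)
    (hw : w.re = x) (hwi : w.im = t) (hζ : ζ.re = -(1 / 2) + s) (hζi : ζ.im = 4 * ρ * s)
    (hd : 3 / 100 ≤ s - x) :
    0 < Dm (4 * ρ) w ζ := by
  have e : 0 ≤ 4 * ρ * s := mul_nonneg (by linarith only [hρ]) (by linarith only [hs, hρ, hρ'])
  have e1 : x - s + 2 * s = x + s := by ring
  have e2 : t - 4 * ρ * s + 8 * (ρ * s) = t + 4 * ρ * s := by ring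
  have e3 : 2 * s - (s - x) = x + s := by ring
  have e4 : 1 - (s - x) = x + 1 - s := by ring
  have hf1 := D3_eq hw hwi hζ hζi (by linarith only [hx, hs, hρ, hρ']) (by linarith only [hx', hs', hρ, hρ']) (by linarith only [hρ, hρ', hd]) (by linarith only [hx, hs', hρ, hρ'])
  have h : chk [D2, cD, cT] 24
    [NumI.V.of 10000 300 1500, NumI.V.of 10000 0 560,
      NumI.V.of 10000 2000 2500, NumI.V.of 10000 0 1045] = true := by
    decide +kernel
  obtain ⟨f, hf, hp⟩ := chk4 h (by norm_num) (x := s - x) (y := t - 4 * ρ * s) (z := s) (w := ρ)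
    (by norm_num; linarith only [hd]) (by norm_num; linarith only [hx, hs']) (by norm_num; linarith only [hη]) (by norm_num; linarith only [ht', e])
    (by norm_num; linarith only [hs]) (by norm_num; linarith only [hs']) (by norm_num; linarith only [hρ]) (by norm_num; linarith only [hρ'])
  simp only [List.mem_cons, List.not_mem_nil, or_false] at hf
  rcases hf with rfl | rfl | rfl
  · simp only [D2, DX, x1, x2, y1, y2, u2, e0, eT, eK, eS, eR, eH, E.val, NumI.lkR] at hp
    push_cast at hp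
    try simp only [div_one, sub_add_cancel, sub_sub_cancel, e1, e2, e3, e4] at hp
    linarith only [hf1, hp]
  · simp only [cD, x1, x2, y1, y2, u2, e0, eT, eK, eS, eR, eH, E.val, NumI.lkR] at hp
    push_cast at hp
    try simp only [div_one, sub_add_cancel, sub_sub_cancel, e1, e2, e3, e4] at hp
    linarith only [hx, hp]
  · simp only [cT, x1, x2, y1, y2, u2, e0, eT, eK, eS, eR, eH, E.val, NumI.lkR] at hp
    push_cast at hp
    try simp only [div_one, sub_add_cancel, sub_sub_cancel, e1, e2, e3, e4] at hp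
    linarith only [ht', hp]

theorem m5e (hx : 1 / 10 ≤ x) (hx' : x ≤ 27 / 100) (hs : 1 / 5 ≤ s) (hs' : s ≤ 1 / 4) (ht' : t ≤ 7 / 125)
    (hρ : 0 < ρ) (hρ' : ρ ≤ 209 / 2000) (hη : 4 * ρ * s ≤ t)
    (hw : w.re = x) (hwi : w.im = t) (hζ : ζ.re = -(1 / 2) + s) (hζi : ζ.im = 4 * ρ * s)
    (hd : 3 / 100 ≤ x - s) :
    0 < Dm (4 * ρ) w ζ := by
  have e : 0 ≤ 4 * ρ * s := mul_nonneg (by linarith only [hρ]) (by linarith only [hs, hρ, hρ'])
  have e1 : x - s + 2 * s = x + s := by ring
  have e2 : t - 4 * ρ * s + 8 * (ρ * s) = t + 4 * ρ * s := by ring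
  have e3 : 2 * s - (s - x) = x + s := by ring
  have e4 : 1 - (s - x) = x + 1 - s := by ring
  have hf1 := D1_le hw hwi hζ hζi hρ.le (by linarith only [hs, hρ, hρ', hd]) (by linarith only [hx', hρ, hρ', hd]) (by linarith only [hρ, hρ', hd]) (by linarith only [hx', hs, hρ, hρ']) hη
  have h : chk [D1, cB 27] 24
    [NumI.V.of 10000 300 700, NumI.V.of 10000 0 560,
      NumI.V.of 10000 2000 2500, NumI.V.of 10000 0 1045] = true := by
    decide +kernel
  obtain ⟨f, hf, hp⟩ := chk4 h (by norm_num) (x := x - s) (y := t - 4 * ρ * s) (z := s) (w := ρ)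
    (by norm_num; linarith only [hd]) (by norm_num; linarith only [hx', hs]) (by norm_num; linarith only [hη]) (by norm_num; linarith only [ht', e])
    (by norm_num; linarith only [hs]) (by norm_num; linarith only [hx', hρ, hρ', hd]) (by norm_num; linarith only [hρ]) (by norm_num; linarith only [hρ'])
  simp only [List.mem_cons, List.not_mem_nil, or_false] at hf
  rcases hf with rfl | rfl
  · simp only [D1, DX, x1, x2, y1, y2, u2, e0, eT, eK, eS, eR, eH, E.val, NumI.lkR] at hp
    push_cast at hp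
    try simp only [div_one, sub_add_cancel, sub_sub_cancel, e1, e2, e3, e4] at hp
    linarith only [hf1, hp]
  · simp only [cB, x1, x2, y1, y2, u2, e0, eT, eK, eS, eR, eH, E.val, NumI.lkR] at hp
    push_cast at hp
    try simp only [div_one, sub_add_cancel, sub_sub_cancel, e1, e2, e3, e4] at hp
    linarith only [hx', hp]

/-- numerical minimum: .62 -/
theorem ge3b (hx : 1 / 10 ≤ x) (hx' : x ≤ 27 / 100) (ht' : t ≤ 56 / 1000)
    (hs : 1 / 5 ≤ s) (hs' : s ≤ 1 / 4) (hρ : 0 < ρ) (hρ' : ρ ≤ 1045 / 10000) (hη : 4 * ρ * s ≤ t)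
    (hw : w.re = x) (hwi : w.im = t) (hζ : ζ.re = -(1 / 2) + s) (hζi : ζ.im = 4 * ρ * s) :
    0 < Dm (4 * ρ) w ζ := by
  rcases le_total (3 / 100) (x - s) with h1 | h1
  · exact m5e hx hx' (by linarith only [hs]) (by linarith only [hx', hρ, hρ', h1]) (by linarith only [ht']) hρ (by linarith only [hρ']) hη hw hwi hζ hζi h1
  · rcases le_total (3 / 100) (s - x) with h2 | h2
    · exact m5d hx hx' (by linarith only [hs]) (by linarith only [hs']) (by linarith only [ht']) hρ (by linarith only [hρ']) hη hw hwi hζ hζi h2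
    · rcases Dc_le hw hwi hζ hζi hρ.le (by linarith only [hs, hρ, hρ', h2]) (by linarith only [hx', hρ, hρ', h2]) (by linarith only [hx', hs, hρ, hρ']) hη with h3 | h3
      · exact lt_of_lt_of_le (m5ca hx hx' (by linarith only [hs]) (by linarith only [hs']) (by linarith only [ht']) hρ (by linarith only [hρ']) hη h1 h2) h3
      · exact lt_of_lt_of_le (m5cb hx hx' (by linarith only [hs]) (by linarith only [hs']) (by linarith only [ht']) hρ (by linarith only [hρ']) hη h1 h2) h3

end GE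

end Pool.Agent.Work.MP_b30479_gt.G2
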