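import Pool.Agent.Work.MP_b30479_gt.G2.GE
import Pool.Agent.Work.NumU.Tree
import Pool.Agent.Work.NumU.TreeS

/-!
# The ring variable next to a ring of equal sign, left of `-1/4`: rows

`gap = fu x t (-1/4) ρ - fu x t (-1/2 + s) (4ρs)`, `D = Dm (4ρ) w ζ`, `w = x + i t`,
`ζ = -1/2 + s + 4ρs i`; everything for `4ρs ≤ t`.
-/

set_option linter.unusedSimpArgs false

namespace Pool.Agent.Work.MP_b30479_gt.G2

open VOL NumU

namespace GE

section
open NumI (V)
open NumU.E

def g4 : E := add (ba x1 y1) (E.uu (q 1 100) eK)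
def De : E := sub (DX y1) (add (mul (q 1 2) (E.log (add (mul (q 2 1)
  (sub (E.cosh (mul (mul (q 2 1) pi) eK)) (E.cosPi (mul (q 2 1) e0)))) (q 1 100))))
    (mul (mul (q 4 1) eR) pi))
def o4 : E := mul (mul (q 8 1) (mul pi eR)) (sub (mul (q 8 1) eS) (q 1 1))

end

variable {s ρ x t : ℝ} {w ζ : ℂ}

theorem corner' (h : 4 * ρ * s ≤ t) (ht : t ≤ 56 / 1000) (hs : 0 ≤ s) (hρ : 0 ≤ ρ)
    (h1 : s ≤ x) (h2 : x - s ≤ 1 / 100) :
    uu (1 / 100) (t - 4 * ρ * s) ≤ -uu (x + 1 - s) (t - 4 * ρ * s) := by
  rw [near, neg_neg]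
  have e : 0 ≤ 4 * ρ * s := by positivity
  exact RV.anti (by linarith only [h2]) (by linarith only [h1]) (by norm_num)
    (by rw [abs_le]; constructor <;> linarith only [h, ht, e])

/-- near the corner, away from the singular point -/
theorem De_le (hw : w.re = x) (hwi : w.im = t) (hζ : ζ.re = -(1 / 2) + s) (hζi : ζ.im = 4 * ρ * s)
    (hρ : 0 ≤ ρ) (h0 : 0 < x + s) (h1 : x + s < 1) (h2 : s ≤ x) (h3 : x < s + 1 / 2)
    (h : 4 * ρ * s ≤ t) (hne : x ≠ s ∨ t ≠ 4 * ρ * s) :
    NumI.lnA (x + s) (t + 4 * ρ * s) - 4 * ρ * NumI.lnB (x + s) (t + 4 * ρ * s) -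
      (1 / 2 * Real.log (2 * (Real.cosh (2 * Real.pi * (t - 4 * ρ * s)) -
        Real.cos (Real.pi * (2 * (x - s)))) + 1 / 100) + 4 * ρ * Real.pi) ≤ Dm (4 * ρ) w ζ := by
  have hp := Real.pi_pos
  have hcos : Real.cos (2 * Real.pi * (x + 1 - s)) = Real.cos (Real.pi * (2 * (x - s))) := by
    rw [show 2 * Real.pi * (x + 1 - s) = Real.pi * (2 * (x - s)) + 2 * Real.pi by ring,
      Real.cos_add_two_pi]
  have hY : YY ⟨x + 1 - s, t - 4 * ρ * s⟩ ≤ Real.pi := by
    rcases eq_or_lt_of_le h with h4 | h4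
    · rw [YY_zero (show (⟨x + 1 - s, t - 4 * ρ * s⟩ : ℂ).im = 0 by simp only; linarith only [h, h4])]
      exact hp.le
    · have h5 : 0 < t - 4 * ρ * s := by linarith only [h4]
      rw [YY_pos (show 0 < (⟨x + 1 - s, t - 4 * ρ * s⟩ : ℂ).im from h5)]
      have h6 := Tr_mono h5 (show x + 1 - s ≤ 1 / 2 + 1 by linarith only [h3])
      rw [Tr_add_one, Tr_half h5] at h6
      simp only
      linarith only [h6]
  have hY' := mul_le_mul_of_nonneg_left hY (by positivity : (0 : ℝ) ≤ 4 * ρ)
  have hL := LL_eq' ⟨x + 1 - s, t - 4 * ρ * s⟩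
  simp only [hcos] at hL
  have hnn : 0 < 2 * Real.cosh (2 * Real.pi * (t - 4 * ρ * s)) -
      2 * Real.cos (Real.pi * (2 * (x - s))) := by
    have k1 := Real.one_le_cosh (2 * Real.pi * (t - 4 * ρ * s))
    have k2 := Real.cos_le_one (Real.pi * (2 * (x - s)))
    rcases hne with h4 | h4
    · have h5 : 0 < x - s := by
        rcases eq_or_lt_of_le h2 with h6 | h6
        · exact absurd h6.symm h4
        · linarith only [h6]
      have h6 : Real.cos (Real.pi * (2 * (x - s))) < Real.cos 0 := by
        apply Real.cos_lt_cos_of_nonneg_of_le_pi le_rfl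
        · nlinarith only [h0, h1, h3, hp]
        · positivity
      rw [Real.cos_zero] at h6
      linarith only [k1, h6]
    · have h5 : 1 < Real.cosh (2 * Real.pi * (t - 4 * ρ * s)) := by
        rw [Real.one_lt_cosh]
        have h6 : t - 4 * ρ * s ≠ 0 := fun h7 => h4 (by linarith only [h, h7])
        positivity
      linarith only [k2, h5]
  unfold Dm
  rw [DX_eq hw hwi hζ hζi h0 h1]
  unfold Dq
  rw [v_eq hw hwi hζ hζi]
  have h5 := Real.log_le_log hnn (show 2 * Real.cosh (2 * Real.pi * (t - 4 * ρ * s)) -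
    2 * Real.cos (Real.pi * (2 * (x - s))) ≤ 2 * (Real.cosh (2 * Real.pi * (t - 4 * ρ * s)) -
      Real.cos (Real.pi * (2 * (x - s)))) + 1 / 100 by linarith only [h0, h1])
  rw [hL]
  linarith only [hY', h5]

/-! ### rows -/

theorem gb1a (hx : 1 / 10 ≤ x) (hx' : x ≤ 24 / 100) (hs : 0 < s) (hs' : s ≤ 1 / 8)
    (ht' : t ≤ 56 / 1000) (hρ : 0 < ρ) (hρ' : ρ ≤ 1045 / 10000)
    (hη : 4 * ρ * s ≤ t) (hd : 5 / 100 ≤ x - s) :
    8 * Real.pi * ρ * s * (1 - 4 * s) < fu x t (-(1 / 4)) ρ - fu x t (-(1 / 2) + s) (4 * ρ * s) := by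
  have e : 0 ≤ 4 * ρ * s := mul_nonneg (by linarith only [hρ]) (by linarith only [hs])
  have e1 : x - s + 2 * s = x + s := by ring
  have e2 : t - 4 * ρ * s + 8 * (ρ * s) = t + 4 * ρ * s := by ring
  have e3 : 2 * s - (s - x) = x + s := by ring
  have e4 : 1 - (s - x) = x + 1 - s := by ring
  have hg := gap_eq (s := s) (ρ := ρ) (x := x) (t := t)
  have hf1 := far (x := x) hη
  have h : chkT [E.sub g0 o1, cT, cA 50] 20
    85072495118015390693342658819165883100806534041838113102693303247467637736829452269937708519044737205653497685193969305158338446699527484927585170186250465872151872814381308762632378072597607685320023590757811048393967412993605340541136420789253085833255539460912332143323525664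
    [NumI.V.of 10000 1000 2400, NumI.V.of 10000 0 560,
      NumI.V.of 10000 0 1250, NumI.V.of 10000 0 1045] = true := by
    decide +kernel
  obtain ⟨f, hf, hp⟩ := chkT4 h (by norm_num) (x := x) (y := t - 4 * ρ * s) (z := s) (w := ρ)
    (by norm_num; linarith only [hx]) (by norm_num; linarith only [hx']) (by norm_num; linarith only [hη]) (by norm_num; linarith only [ht', e])
    (by norm_num; linarith only [hs]) (by norm_num; linarith only [hs']) (by norm_num; linarith only [hρ]) (by norm_num; linarith only [hρ'])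
  simp only [List.mem_cons, List.not_mem_nil, or_false] at hf
  rcases hf with rfl | rfl | rfl
  · simp only [g0, ba, o1, x1, x2, y1, y2, u2, e0, eT, eK, eS, eR, eH, E.val, NumI.lkR] at hp
    push_cast at hp
    try simp only [div_one, sub_add_cancel, sub_sub_cancel, e1, e2, e3, e4] at hp
    linarith only [hg, hf1, hp]
  · simp only [cT, x1, x2, y1, y2, u2, e0, eT, eK, eS, eR, eH, E.val, NumI.lkR] at hp
    push_cast at hp
    try simp only [div_one, sub_add_cancel, sub_sub_cancel, e1, e2, e3, e4] at hp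
    linarith only [ht', hp]
  · simp only [cA, x1, x2, y1, y2, u2, e0, eT, eK, eS, eR, eH, E.val, NumI.lkR] at hp
    push_cast at hp
    try simp only [div_one, sub_add_cancel, sub_sub_cancel, e1, e2, e3, e4] at hp
    linarith only [hd, hp]

theorem gb1b (hx : 1 / 10 ≤ x) (hs : 0 < s) (hs' : s ≤ 1 / 8)
    (ht' : t ≤ 56 / 1000) (hρ : 0 < ρ) (hρ' : ρ ≤ 1045 / 10000)
    (hη : 4 * ρ * s ≤ t) (hd : 1 / 100 ≤ x - s)
    (hd' : x - s ≤ 5 / 100) :
    8 * Real.pi * ρ * s * (1 - 4 * s) < fu x t (-(1 / 4)) ρ - fu x t (-(1 / 2) + s) (4 * ρ * s) := by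
  have e : 0 ≤ 4 * ρ * s := mul_nonneg (by linarith only [hρ]) (by linarith only [hs])
  have e1 : x - s + 2 * s = x + s := by ring
  have e2 : t - 4 * ρ * s + 8 * (ρ * s) = t + 4 * ρ * s := by ring
  have e3 : 2 * s - (s - x) = x + s := by ring
  have e4 : 1 - (s - x) = x + 1 - s := by ring
  have hg := gap_eq (s := s) (ρ := ρ) (x := x) (t := t)
  have hf1 := far (x := x) hη
  have h : chkT [E.sub g1 o1, cT, cC] 20
    256975775204525561317212739051223393060810303386468073804820715344400
    [NumI.V.of 10000 100 500, NumI.V.of 10000 0 560,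
      NumI.V.of 10000 500 1250, NumI.V.of 10000 0 1045] = true := by
    decide +kernel
  obtain ⟨f, hf, hp⟩ := chkT4 h (by norm_num) (x := x - s) (y := t - 4 * ρ * s) (z := s) (w := ρ)
    (by norm_num; linarith only [hd]) (by norm_num; linarith only [hd']) (by norm_num; linarith only [hη]) (by norm_num; linarith only [ht', e])
    (by norm_num; linarith only [hx, hd']) (by norm_num; linarith only [hs']) (by norm_num; linarith only [hρ]) (by norm_num; linarith only [hρ'])
  simp only [List.mem_cons, List.not_mem_nil, or_false] at hf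
  rcases hf with rfl | rfl | rfl
  · simp only [g1, ba, o1, x1, x2, y1, y2, u2, e0, eT, eK, eS, eR, eH, E.val, NumI.lkR] at hp
    push_cast at hp
    try simp only [div_one, sub_add_cancel, sub_sub_cancel, e1, e2, e3, e4] at hp
    linarith only [hg, hf1, hp]
  · simp only [cT, x1, x2, y1, y2, u2, e0, eT, eK, eS, eR, eH, E.val, NumI.lkR] at hp
    push_cast at hp
    try simp only [div_one, sub_add_cancel, sub_sub_cancel, e1, e2, e3, e4] at hp
    linarith only [ht', hp]
  · simp only [cC, x1, x2, y1, y2, u2, e0, eT, eK, eS, eR, eH, E.val, NumI.lkR] at hp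
    push_cast at hp
    try simp only [div_one, sub_add_cancel, sub_sub_cancel, e1, e2, e3, e4] at hp
    linarith only [hx, hp]

theorem gb1c (hx : 1 / 10 ≤ x) (hs : 0 < s) (hs' : s ≤ 1 / 8)
    (ht' : t ≤ 56 / 1000) (hρ : 0 < ρ) (hρ' : ρ ≤ 1045 / 10000)
    (hη : 4 * ρ * s ≤ t) (hd : s ≤ x)
    (hd' : x - s ≤ 1 / 100) :
    8 * Real.pi * ρ * s * (1 - 4 * s) < fu x t (-(1 / 4)) ρ - fu x t (-(1 / 2) + s) (4 * ρ * s) := by
  have e : 0 ≤ 4 * ρ * s := mul_nonneg (by linarith only [hρ]) (by linarith only [hs])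
  have e1 : x - s + 2 * s = x + s := by ring
  have e2 : t - 4 * ρ * s + 8 * (ρ * s) = t + 4 * ρ * s := by ring
  have e3 : 2 * s - (s - x) = x + s := by ring
  have e4 : 1 - (s - x) = x + 1 - s := by ring
  have hg := gap_eq (s := s) (ρ := ρ) (x := x) (t := t)
  have hf1 := corner' hη ht' hs.le hρ.le hd hd'
  have h : chkT [E.sub g4 o1, cT, cC] 20
    49844197448415170251081742686455827
    [NumI.V.of 10000 0 100, NumI.V.of 10000 0 560,
      NumI.V.of 10000 900 1250, NumI.V.of 10000 0 1045] = true := by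
    decide +kernel
  obtain ⟨f, hf, hp⟩ := chkT4 h (by norm_num) (x := x - s) (y := t - 4 * ρ * s) (z := s) (w := ρ)
    (by norm_num; linarith only [hd]) (by norm_num; linarith only [hd']) (by norm_num; linarith only [hη]) (by norm_num; linarith only [ht', e])
    (by norm_num; linarith only [hx, hd']) (by norm_num; linarith only [hs']) (by norm_num; linarith only [hρ]) (by norm_num; linarith only [hρ'])
  simp only [List.mem_cons, List.not_mem_nil, or_false] at hf
  rcases hf with rfl | rfl | rfl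
  · simp only [g4, ba, o1, x1, x2, y1, y2, u2, e0, eT, eK, eS, eR, eH, E.val, NumI.lkR] at hp
    push_cast at hp
    try simp only [div_one, sub_add_cancel, sub_sub_cancel, e1, e2, e3, e4] at hp
    linarith only [hg, hf1, hp]
  · simp only [cT, x1, x2, y1, y2, u2, e0, eT, eK, eS, eR, eH, E.val, NumI.lkR] at hp
    push_cast at hp
    try simp only [div_one, sub_add_cancel, sub_sub_cancel, e1, e2, e3, e4] at hp
    linarith only [ht', hp]
  · simp only [cC, x1, x2, y1, y2, u2, e0, eT, eK, eS, eR, eH, E.val, NumI.lkR] at hp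
    push_cast at hp
    try simp only [div_one, sub_add_cancel, sub_sub_cancel, e1, e2, e3, e4] at hp
    linarith only [hx, hp]

theorem gb1h (hx : 24 / 100 ≤ x) (hx' : x ≤ 1 / 4) (hs : 0 < s) (hs' : s ≤ 1 / 8)
    (ht' : t ≤ 56 / 1000) (hρ : 0 < ρ) (hρ' : ρ ≤ 1045 / 10000)
    (hη : 4 * ρ * s ≤ t) :
    8 * Real.pi * ρ * s * (1 - 4 * s) < fu x t (-(1 / 4)) ρ - fu x t (-(1 / 2) + s) (4 * ρ * s) := by
  have e : 0 ≤ 4 * ρ * s := mul_nonneg (by linarith only [hρ]) (by linarith only [hs])
  have e1 : x - s + 2 * s = x + s := by ring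
  have e2 : t - 4 * ρ * s + 8 * (ρ * s) = t + 4 * ρ * s := by ring
  have e3 : 2 * s - (s - x) = x + s := by ring
  have e4 : 1 - (s - x) = x + 1 - s := by ring
  have hg := gap_eq (s := s) (ρ := ρ) (x := x) (t := t)
  have hf1 := far (x := x) hη
  have hf2 := half (t := t) (ρ := ρ) hx hx' (absdiff (by linarith only [hη, e]) (by linarith only [ht']) hρ.le (by linarith only [hρ']))
  have hf3 := pa1 (t := t) (ρ := ρ)
  have hf4 := pa2 (t := t) (ρ := ρ)
  have h : chkT [E.sub h1 o1, E.sub h2 o1, cT] 20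
    928804845854070171132669692496109421275186
    [NumI.V.of 10000 2400 2500, NumI.V.of 10000 0 560,
      NumI.V.of 10000 0 1250, NumI.V.of 10000 0 1045] = true := by
    decide +kernel
  obtain ⟨f, hf, hp⟩ := chkT4 h (by norm_num) (x := x) (y := t - 4 * ρ * s) (z := s) (w := ρ)
    (by norm_num; linarith only [hx]) (by norm_num; linarith only [hx']) (by norm_num; linarith only [hη]) (by norm_num; linarith only [ht', e])
    (by norm_num; linarith only [hs]) (by norm_num; linarith only [hs']) (by norm_num; linarith only [hρ]) (by norm_num; linarith only [hρ'])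
  simp only [List.mem_cons, List.not_mem_nil, or_false] at hf
  rcases hf with rfl | rfl | rfl
  · simp only [h1, aft, o1, x1, x2, y1, y2, u2, e0, eT, eK, eS, eR, eH, E.val, NumI.lkR] at hp
    push_cast at hp
    try simp only [div_one, sub_add_cancel, sub_sub_cancel, e1, e2, e3, e4] at hp
    linarith only [hg, hf1, hf2, hf3, hp]
  · simp only [h2, aft, o1, x1, x2, y1, y2, u2, e0, eT, eK, eS, eR, eH, E.val, NumI.lkR] at hp
    push_cast at hp
    try simp only [div_one, sub_add_cancel, sub_sub_cancel, e1, e2, e3, e4] at hp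
    linarith only [hg, hf1, hf2, hf4, hp]
  · simp only [cT, x1, x2, y1, y2, u2, e0, eT, eK, eS, eR, eH, E.val, NumI.lkR] at hp
    push_cast at hp
    try simp only [div_one, sub_add_cancel, sub_sub_cancel, e1, e2, e3, e4] at hp
    linarith only [ht', hp]

theorem gb1k (hx : 1 / 4 ≤ x) (hx' : x ≤ 26 / 100) (hs : 0 < s) (hs' : s ≤ 1 / 8)
    (ht' : t ≤ 56 / 1000) (hρ : 0 < ρ) (hρ' : ρ ≤ 1045 / 10000)
    (hη : 4 * ρ * s ≤ t) :
    8 * Real.pi * ρ * s * (1 - 4 * s) < fu x t (-(1 / 4)) ρ - fu x t (-(1 / 2) + s) (4 * ρ * s) := by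
  have e : 0 ≤ 4 * ρ * s := mul_nonneg (by linarith only [hρ]) (by linarith only [hs])
  have e1 : x - s + 2 * s = x + s := by ring
  have e2 : t - 4 * ρ * s + 8 * (ρ * s) = t + 4 * ρ * s := by ring
  have e3 : 2 * s - (s - x) = x + s := by ring
  have e4 : 1 - (s - x) = x + 1 - s := by ring
  have hg := gap_eq (s := s) (ρ := ρ) (x := x) (t := t)
  have hf1 := far (x := x) hη
  have hf2 := past' (t := t) (ρ := ρ) hx hx' (absdiff (by linarith only [hη, e]) (by linarith only [ht']) hρ.le (by linarith only [hρ']))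
  have hf3 := pa1 (t := t) (ρ := ρ)
  have hf4 := pa2 (t := t) (ρ := ρ)
  have h : chkT [E.sub k1 o1, E.sub k2 o1, cT] 20
    33292502106671102053987758412015531223844007508619104959648275023997078916574604555575290582239790586453909294977431099449187489047038908313379123
    [NumI.V.of 10000 2500 2600, NumI.V.of 10000 0 560,
      NumI.V.of 10000 0 1250, NumI.V.of 10000 0 1045] = true := by
    decide +kernel
  obtain ⟨f, hf, hp⟩ := chkT4 h (by norm_num) (x := x) (y := t - 4 * ρ * s) (z := s) (w := ρ)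
    (by norm_num; linarith only [hx]) (by norm_num; linarith only [hx']) (by norm_num; linarith only [hη]) (by norm_num; linarith only [ht', e])
    (by norm_num; linarith only [hs]) (by norm_num; linarith only [hs']) (by norm_num; linarith only [hρ]) (by norm_num; linarith only [hρ'])
  simp only [List.mem_cons, List.not_mem_nil, or_false] at hf
  rcases hf with rfl | rfl | rfl
  · simp only [k1, aft, o1, x1, x2, y1, y2, u2, e0, eT, eK, eS, eR, eH, E.val, NumI.lkR] at hp
    push_cast at hp
    try simp only [div_one, sub_add_cancel, sub_sub_cancel, e1, e2, e3, e4] at hp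
    linarith only [hg, hf1, hf2, hf3, hp]
  · simp only [k2, aft, o1, x1, x2, y1, y2, u2, e0, eT, eK, eS, eR, eH, E.val, NumI.lkR] at hp
    push_cast at hp
    try simp only [div_one, sub_add_cancel, sub_sub_cancel, e1, e2, e3, e4] at hp
    linarith only [hg, hf1, hf2, hf4, hp]
  · simp only [cT, x1, x2, y1, y2, u2, e0, eT, eK, eS, eR, eH, E.val, NumI.lkR] at hp
    push_cast at hp
    try simp only [div_one, sub_add_cancel, sub_sub_cancel, e1, e2, e3, e4] at hp
    linarith only [ht', hp]

theorem gb1l (hx : 26 / 100 ≤ x) (hx' : x ≤ 27 / 100) (hs : 0 < s) (hs' : s ≤ 1 / 8)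
    (ht' : t ≤ 56 / 1000) (hρ : 0 < ρ) (hρ' : ρ ≤ 1045 / 10000)
    (hη : 4 * ρ * s ≤ t) :
    8 * Real.pi * ρ * s * (1 - 4 * s) < fu x t (-(1 / 4)) ρ - fu x t (-(1 / 2) + s) (4 * ρ * s) := by
  have e : 0 ≤ 4 * ρ * s := mul_nonneg (by linarith only [hρ]) (by linarith only [hs])
  have e1 : x - s + 2 * s = x + s := by ring
  have e2 : t - 4 * ρ * s + 8 * (ρ * s) = t + 4 * ρ * s := by ring
  have e3 : 2 * s - (s - x) = x + s := by ring
  have e4 : 1 - (s - x) = x + 1 - s := by ring
  have hg := gap_eq (s := s) (ρ := ρ) (x := x) (t := t)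
  have hf1 := far (x := x) hη
  have hf2 := past (x := x) (t := t) (ρ := ρ)
  have hf3 := pa1 (t := t) (ρ := ρ)
  have hf4 := pa2 (t := t) (ρ := ρ)
  have h : chkT [E.sub l1 o1, E.sub l2 o1, cT] 20
    1743672294928115920741609040156813495948834828956469024270174382402800039637661246561065625504484802622988666086396662688845289206604034076116666729052527189364660937839061253862650830965138256841860493013410648631693396705108106494398508796199281016711582582794302769973501423337943310634471399731
    [NumI.V.of 10000 2600 2700, NumI.V.of 10000 0 560,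
      NumI.V.of 10000 0 1250, NumI.V.of 10000 0 1045] = true := by
    decide +kernel
  obtain ⟨f, hf, hp⟩ := chkT4 h (by norm_num) (x := x) (y := t - 4 * ρ * s) (z := s) (w := ρ)
    (by norm_num; linarith only [hx]) (by norm_num; linarith only [hx']) (by norm_num; linarith only [hη]) (by norm_num; linarith only [ht', e])
    (by norm_num; linarith only [hs]) (by norm_num; linarith only [hs']) (by norm_num; linarith only [hρ]) (by norm_num; linarith only [hρ'])
  simp only [List.mem_cons, List.not_mem_nil, or_false] at hf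
  rcases hf with rfl | rfl | rfl
  · simp only [l1, aft, o1, x1, x2, y1, y2, u2, e0, eT, eK, eS, eR, eH, E.val, NumI.lkR] at hp
    push_cast at hp
    try simp only [div_one, sub_add_cancel, sub_sub_cancel, e1, e2, e3, e4] at hp
    linarith only [hg, hf1, hf2, hf3, hp]
  · simp only [l2, aft, o1, x1, x2, y1, y2, u2, e0, eT, eK, eS, eR, eH, E.val, NumI.lkR] at hp
    push_cast at hp
    try simp only [div_one, sub_add_cancel, sub_sub_cancel, e1, e2, e3, e4] at hp
    linarith only [hg, hf1, hf2, hf4, hp]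
  · simp only [cT, x1, x2, y1, y2, u2, e0, eT, eK, eS, eR, eH, E.val, NumI.lkR] at hp
    push_cast at hp
    try simp only [div_one, sub_add_cancel, sub_sub_cancel, e1, e2, e3, e4] at hp
    linarith only [ht', hp]

/-- numerical minimum: .0168 -/
theorem gb1 (hx : 1 / 10 ≤ x) (hx' : x ≤ 27 / 100) (ht' : t ≤ 56 / 1000)
    (hs : 0 < s) (hs' : s ≤ 1 / 8) (hsx : s ≤ x) (hρ : 0 < ρ) (hρ' : ρ ≤ 1045 / 10000)
    (hη : 4 * ρ * s ≤ t) :
    8 * Real.pi * ρ * s * (1 - 4 * s) < fu x t (-(1 / 4)) ρ - fu x t (-(1 / 2) + s) (4 * ρ * s) := by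
  rcases le_total x (24 / 100) with h1 | h1
  · rcases le_total (5 / 100) (x - s) with h2 | h2
    · exact gb1a hx h1 hs hs' ht' hρ hρ' hη h2
    · rcases le_total (1 / 100) (x - s) with h3 | h3
      · exact gb1b hx hs hs' ht' hρ hρ' hη h3 h2
      · exact gb1c hx hs hs' ht' hρ hρ' hη hsx h3
  · rcases le_total x (1 / 4) with h2 | h2
    · exact gb1h h1 h2 hs hs' ht' hρ hρ' hη
    · rcases le_total x (26 / 100) with h3 | h3
      · exact gb1k h2 h3 hs hs' ht' hρ hρ' hη
      · exact gb1l h3 hx' hs hs' ht' hρ hρ' hη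

theorem gb2a (hx : 1 / 10 ≤ x) (hx' : x ≤ 24 / 100) (hs : 1 / 8 ≤ s) (hs' : s ≤ 23 / 100)
    (ht' : t ≤ 56 / 1000) (hρ : 0 < ρ) (hρ' : ρ ≤ 1045 / 10000)
    (hη : 4 * ρ * s ≤ t)
    (hw : w.re = x) (hwi : w.im = t) (hζ : ζ.re = -(1 / 2) + s) (hζi : ζ.im = 4 * ρ * s)
    (hd : 3 / 100 ≤ x - s) :
    8 * Real.pi * ρ * s * (1 - 4 * s) < fu x t (-(1 / 4)) ρ - fu x t (-(1 / 2) + s) (4 * ρ * s) ∨
      8 * Real.pi * ρ * (8 * s - 1) < Dm (4 * ρ) w ζ := by
  have e : 0 ≤ 4 * ρ * s := mul_nonneg (by linarith only [hρ]) (by linarith only [hs, hρ, hρ'])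
  have e1 : x - s + 2 * s = x + s := by ring
  have e2 : t - 4 * ρ * s + 8 * (ρ * s) = t + 4 * ρ * s := by ring
  have e3 : 2 * s - (s - x) = x + s := by ring
  have e4 : 1 - (s - x) = x + 1 - s := by ring
  have hg := gap_eq (s := s) (ρ := ρ) (x := x) (t := t)
  have hf1 := D1_le hw hwi hζ hζi hρ.le (by linarith only [hs, hρ, hρ', hd]) (by linarith only [hx', hρ, hρ', hd]) (by linarith only [hρ, hρ', hd]) (by linarith only [hx', hs, hρ, hρ']) hη
  have hf5 := far (x := x) hη
  have h : chkT [E.sub g0 o1, E.sub D0 o4, cT, cA 30] 20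
    9058607981166595042471212688287914927136721159452936082156442248181159748713931009480913445172534189700842896811432703073481602450290683254758853364900347613001890768808626662227917734187713806852307758806891265071982463183480336784614029297923878274839620444367250692106106355924676860312284684723710000806981626992305183953916674
    [NumI.V.of 10000 1550 2400, NumI.V.of 10000 0 560,
      NumI.V.of 10000 1250 2300, NumI.V.of 10000 0 1045] = true := by
    decide +kernel
  obtain ⟨f, hf, hp⟩ := chkT4 h (by norm_num) (x := x) (y := t - 4 * ρ * s) (z := s) (w := ρ)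
    (by norm_num; linarith only [hs, hd]) (by norm_num; linarith only [hx']) (by norm_num; linarith only [hη]) (by norm_num; linarith only [ht', e])
    (by norm_num; linarith only [hs]) (by norm_num; linarith only [hx', hρ, hρ', hd]) (by norm_num; linarith only [hρ]) (by norm_num; linarith only [hρ'])
  simp only [List.mem_cons, List.not_mem_nil, or_false] at hf
  rcases hf with rfl | rfl | rfl | rfl
  · simp only [g0, ba, o1, x1, x2, y1, y2, u2, e0, eT, eK, eS, eR, eH, E.val, NumI.lkR] at hp
    push_cast at hp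
    try simp only [div_one, sub_add_cancel, sub_sub_cancel, e1, e2, e3, e4] at hp
    left
    linarith only [hg, hf5, hp]
  · simp only [D0, DX, o4, x1, x2, y1, y2, u2, e0, eT, eK, eS, eR, eH, E.val, NumI.lkR] at hp
    push_cast at hp
    try simp only [div_one, sub_add_cancel, sub_sub_cancel, e1, e2, e3, e4] at hp
    right
    linarith only [hf1, hp]
  · simp only [cT, x1, x2, y1, y2, u2, e0, eT, eK, eS, eR, eH, E.val, NumI.lkR] at hp
    push_cast at hp
    try simp only [div_one, sub_add_cancel, sub_sub_cancel, e1, e2, e3, e4] at hp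
    linarith only [ht', hp]
  · simp only [cA, x1, x2, y1, y2, u2, e0, eT, eK, eS, eR, eH, E.val, NumI.lkR] at hp
    push_cast at hp
    try simp only [div_one, sub_add_cancel, sub_sub_cancel, e1, e2, e3, e4] at hp
    linarith only [hd, hp]

theorem gb2b (hs : 1 / 8 ≤ s) (hs' : s ≤ 23 / 100)
    (ht' : t ≤ 56 / 1000) (hρ : 0 < ρ) (hρ' : ρ ≤ 1045 / 10000)
    (hη : 4 * ρ * s ≤ t)
    (hw : w.re = x) (hwi : w.im = t) (hζ : ζ.re = -(1 / 2) + s) (hζi : ζ.im = 4 * ρ * s)
    (hd : 1 / 100 ≤ x - s) (hd' : x - s ≤ 3 / 100) :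
    8 * Real.pi * ρ * (8 * s - 1) < Dm (4 * ρ) w ζ := by
  have e : 0 ≤ 4 * ρ * s := mul_nonneg (by linarith only [hρ]) (by linarith only [hs, hρ, hρ'])
  have e1 : x - s + 2 * s = x + s := by ring
  have e2 : t - 4 * ρ * s + 8 * (ρ * s) = t + 4 * ρ * s := by ring
  have e3 : 2 * s - (s - x) = x + s := by ring
  have e4 : 1 - (s - x) = x + 1 - s := by ring
  have hf1 := D1_le hw hwi hζ hζi hρ.le (by linarith only [hs, hρ, hρ', hd]) (by linarith only [hs', hρ, hρ', hd']) (by linarith only [hρ, hρ', hd]) (by linarith only [hρ, hρ', hd']) hη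
  have h : chkT [E.sub D1 o4, cT] 20
    6977392202408728857481475477036660711546481474184930836070783537389272890316436974221656177758081386584283716952225340378525779292729601
    [NumI.V.of 10000 100 300, NumI.V.of 10000 0 560,
      NumI.V.of 10000 1250 2300, NumI.V.of 10000 0 1045] = true := by
    decide +kernel
  obtain ⟨f, hf, hp⟩ := chkT4 h (by norm_num) (x := x - s) (y := t - 4 * ρ * s) (z := s) (w := ρ)
    (by norm_num; linarith only [hd]) (by norm_num; linarith only [hd']) (by norm_num; linarith only [hη]) (by norm_num; linarith only [ht', e])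
    (by norm_num; linarith only [hs]) (by norm_num; linarith only [hs']) (by norm_num; linarith only [hρ]) (by norm_num; linarith only [hρ'])
  simp only [List.mem_cons, List.not_mem_nil, or_false] at hf
  rcases hf with rfl | rfl
  · simp only [D1, DX, o4, x1, x2, y1, y2, u2, e0, eT, eK, eS, eR, eH, E.val, NumI.lkR] at hp
    push_cast at hp
    try simp only [div_one, sub_add_cancel, sub_sub_cancel, e1, e2, e3, e4] at hp
    linarith only [hf1, hp]
  · simp only [cT, x1, x2, y1, y2, u2, e0, eT, eK, eS, eR, eH, E.val, NumI.lkR] at hp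
    push_cast at hp
    try simp only [div_one, sub_add_cancel, sub_sub_cancel, e1, e2, e3, e4] at hp
    linarith only [ht', hp]

theorem gb2c (hs : 1 / 8 ≤ s) (hs' : s ≤ 23 / 100)
    (ht' : t ≤ 56 / 1000) (hρ : 0 < ρ) (hρ' : ρ ≤ 1045 / 10000)
    (hη : 4 * ρ * s ≤ t)
    (hw : w.re = x) (hwi : w.im = t) (hζ : ζ.re = -(1 / 2) + s) (hζi : ζ.im = 4 * ρ * s)
    (hd : s ≤ x) (hd' : x - s ≤ 1 / 100) (hne : x ≠ s ∨ t ≠ 4 * ρ * s) :
    8 * Real.pi * ρ * (8 * s - 1) < Dm (4 * ρ) w ζ := by
  have e : 0 ≤ 4 * ρ * s := mul_nonneg (by linarith only [hρ]) (by linarith only [hs, hρ, hρ'])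
  have e1 : x - s + 2 * s = x + s := by ring
  have e2 : t - 4 * ρ * s + 8 * (ρ * s) = t + 4 * ρ * s := by ring
  have e3 : 2 * s - (s - x) = x + s := by ring
  have e4 : 1 - (s - x) = x + 1 - s := by ring
  have hf1 := De_le hw hwi hζ hζi hρ.le (by linarith only [hs, hρ, hρ', hd]) (by linarith only [hs', hρ, hρ', hd']) hd (by linarith only [hρ, hρ', hd']) hη hne
  have h : chkT [E.sub De o4, cT] 20
    284569976777053076178239223960368258720877716830483078777737889060230434586264337
    [NumI.V.of 10000 0 100, NumI.V.of 10000 0 560,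
      NumI.V.of 10000 1250 2300, NumI.V.of 10000 0 1045] = true := by
    decide +kernel
  obtain ⟨f, hf, hp⟩ := chkT4 h (by norm_num) (x := x - s) (y := t - 4 * ρ * s) (z := s) (w := ρ)
    (by norm_num; linarith only [hd]) (by norm_num; linarith only [hd']) (by norm_num; linarith only [hη]) (by norm_num; linarith only [ht', e])
    (by norm_num; linarith only [hs]) (by norm_num; linarith only [hs']) (by norm_num; linarith only [hρ]) (by norm_num; linarith only [hρ'])
  simp only [List.mem_cons, List.not_mem_nil, or_false] at hf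
  rcases hf with rfl | rfl
  · simp only [De, DX, o4, x1, x2, y1, y2, u2, e0, eT, eK, eS, eR, eH, E.val, NumI.lkR] at hp
    push_cast at hp
    try simp only [div_one, sub_add_cancel, sub_sub_cancel, e1, e2, e3, e4] at hp
    linarith only [hf1, hp]
  · simp only [cT, x1, x2, y1, y2, u2, e0, eT, eK, eS, eR, eH, E.val, NumI.lkR] at hp
    push_cast at hp
    try simp only [div_one, sub_add_cancel, sub_sub_cancel, e1, e2, e3, e4] at hp
    linarith only [ht', hp]

theorem gb2h (hx : 24 / 100 ≤ x) (hx' : x ≤ 1 / 4) (hs : 1 / 8 ≤ s) (hs' : s ≤ 23 / 100)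
    (ht' : t ≤ 56 / 1000) (hρ : 0 < ρ) (hρ' : ρ ≤ 1045 / 10000)
    (hη : 4 * ρ * s ≤ t)
    (hw : w.re = x) (hwi : w.im = t) (hζ : ζ.re = -(1 / 2) + s) (hζi : ζ.im = 4 * ρ * s) :
    8 * Real.pi * ρ * s * (1 - 4 * s) < fu x t (-(1 / 4)) ρ - fu x t (-(1 / 2) + s) (4 * ρ * s) ∨
      8 * Real.pi * ρ * (8 * s - 1) < Dm (4 * ρ) w ζ := by
  have e : 0 ≤ 4 * ρ * s := mul_nonneg (by linarith only [hρ]) (by linarith only [hs, hρ, hρ'])
  have e1 : x - s + 2 * s = x + s := by ring
  have e2 : t - 4 * ρ * s + 8 * (ρ * s) = t + 4 * ρ * s := by ring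
  have e3 : 2 * s - (s - x) = x + s := by ring
  have e4 : 1 - (s - x) = x + 1 - s := by ring
  have hg := gap_eq (s := s) (ρ := ρ) (x := x) (t := t)
  have hf1 := D1_le hw hwi hζ hζi hρ.le (by linarith only [hx, hs, hρ, hρ']) (by linarith only [hx', hs', hρ, hρ']) (by linarith only [hx, hs', hρ, hρ']) (by linarith only [hx', hs, hρ, hρ']) hη
  have hf5 := far (x := x) hη
  have hf2 := half (t := t) (ρ := ρ) hx hx' (absdiff (by linarith only [hη, e]) (by linarith only [ht']) hρ.le (by linarith only [hρ']))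
  have hf3 := pa1 (t := t) (ρ := ρ)
  have hf4 := pa2 (t := t) (ρ := ρ)
  have h : chkT [E.sub h1 o1, E.sub h2 o1, E.sub D0 o4, cT] 20
    143027575799957883666299694983153240138409439847038019453007888161213580338018684562021876750298071405837069373575283211158773615795680942588466
    [NumI.V.of 10000 2400 2500, NumI.V.of 10000 0 560,
      NumI.V.of 10000 1250 2300, NumI.V.of 10000 0 1045] = true := by
    decide +kernel
  obtain ⟨f, hf, hp⟩ := chkT4 h (by norm_num) (x := x) (y := t - 4 * ρ * s) (z := s) (w := ρ)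
    (by norm_num; linarith only [hx]) (by norm_num; linarith only [hx']) (by norm_num; linarith only [hη]) (by norm_num; linarith only [ht', e])
    (by norm_num; linarith only [hs]) (by norm_num; linarith only [hs']) (by norm_num; linarith only [hρ]) (by norm_num; linarith only [hρ'])
  simp only [List.mem_cons, List.not_mem_nil, or_false] at hf
  rcases hf with rfl | rfl | rfl | rfl
  · simp only [h1, aft, o1, x1, x2, y1, y2, u2, e0, eT, eK, eS, eR, eH, E.val, NumI.lkR] at hp
    push_cast at hp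
    try simp only [div_one, sub_add_cancel, sub_sub_cancel, e1, e2, e3, e4] at hp
    left
    linarith only [hg, hf5, hf2, hf3, hp]
  · simp only [h2, aft, o1, x1, x2, y1, y2, u2, e0, eT, eK, eS, eR, eH, E.val, NumI.lkR] at hp
    push_cast at hp
    try simp only [div_one, sub_add_cancel, sub_sub_cancel, e1, e2, e3, e4] at hp
    left
    linarith only [hg, hf5, hf2, hf4, hp]
  · simp only [D0, DX, o4, x1, x2, y1, y2, u2, e0, eT, eK, eS, eR, eH, E.val, NumI.lkR] at hp
    push_cast at hp
    try simp only [div_one, sub_add_cancel, sub_sub_cancel, e1, e2, e3, e4] at hp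
    right
    linarith only [hf1, hp]
  · simp only [cT, x1, x2, y1, y2, u2, e0, eT, eK, eS, eR, eH, E.val, NumI.lkR] at hp
    push_cast at hp
    try simp only [div_one, sub_add_cancel, sub_sub_cancel, e1, e2, e3, e4] at hp
    linarith only [ht', hp]

theorem gb2k (hx : 1 / 4 ≤ x) (hx' : x ≤ 26 / 100) (hs : 1 / 8 ≤ s) (hs' : s ≤ 23 / 100)
    (ht' : t ≤ 56 / 1000) (hρ : 0 < ρ) (hρ' : ρ ≤ 1045 / 10000)
    (hη : 4 * ρ * s ≤ t)
    (hw : w.re = x) (hwi : w.im = t) (hζ : ζ.re = -(1 / 2) + s) (hζi : ζ.im = 4 * ρ * s) :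
    8 * Real.pi * ρ * s * (1 - 4 * s) < fu x t (-(1 / 4)) ρ - fu x t (-(1 / 2) + s) (4 * ρ * s) ∨
      8 * Real.pi * ρ * (8 * s - 1) < Dm (4 * ρ) w ζ := by
  have e : 0 ≤ 4 * ρ * s := mul_nonneg (by linarith only [hρ]) (by linarith only [hs, hρ, hρ'])
  have e1 : x - s + 2 * s = x + s := by ring
  have e2 : t - 4 * ρ * s + 8 * (ρ * s) = t + 4 * ρ * s := by ring
  have e3 : 2 * s - (s - x) = x + s := by ring
  have e4 : 1 - (s - x) = x + 1 - s := by ring
  have hg := gap_eq (s := s) (ρ := ρ) (x := x) (t := t)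
  have hf1 := D1_le hw hwi hζ hζi hρ.le (by linarith only [hx, hs, hρ, hρ']) (by linarith only [hx', hs', hρ, hρ']) (by linarith only [hx, hs', hρ, hρ']) (by linarith only [hx', hs, hρ, hρ']) hη
  have hf5 := far (x := x) hη
  have hf2 := past' (t := t) (ρ := ρ) hx hx' (absdiff (by linarith only [hη, e]) (by linarith only [ht']) hρ.le (by linarith only [hρ']))
  have hf3 := pa1 (t := t) (ρ := ρ)
  have hf4 := pa2 (t := t) (ρ := ρ)
  have h : chkT [E.sub k1 o1, E.sub k2 o1, E.sub D0 o4, cT] 20
    64693210246218910168887960546701537572741389615303999803854077343366235485719096300998600676772518947794910598436429324791516648262453753482548172029428946881178409659561099126011527106927990850861978270732178292216626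
    [NumI.V.of 10000 2500 2600, NumI.V.of 10000 0 560,
      NumI.V.of 10000 1250 2300, NumI.V.of 10000 0 1045] = true := by
    decide +kernel
  obtain ⟨f, hf, hp⟩ := chkT4 h (by norm_num) (x := x) (y := t - 4 * ρ * s) (z := s) (w := ρ)
    (by norm_num; linarith only [hx]) (by norm_num; linarith only [hx']) (by norm_num; linarith only [hη]) (by norm_num; linarith only [ht', e])
    (by norm_num; linarith only [hs]) (by norm_num; linarith only [hs']) (by norm_num; linarith only [hρ]) (by norm_num; linarith only [hρ'])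
  simp only [List.mem_cons, List.not_mem_nil, or_false] at hf
  rcases hf with rfl | rfl | rfl | rfl
  · simp only [k1, aft, o1, x1, x2, y1, y2, u2, e0, eT, eK, eS, eR, eH, E.val, NumI.lkR] at hp
    push_cast at hp
    try simp only [div_one, sub_add_cancel, sub_sub_cancel, e1, e2, e3, e4] at hp
    left
    linarith only [hg, hf5, hf2, hf3, hp]
  · simp only [k2, aft, o1, x1, x2, y1, y2, u2, e0, eT, eK, eS, eR, eH, E.val, NumI.lkR] at hp
    push_cast at hp
    try simp only [div_one, sub_add_cancel, sub_sub_cancel, e1, e2, e3, e4] at hp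
    left
    linarith only [hg, hf5, hf2, hf4, hp]
  · simp only [D0, DX, o4, x1, x2, y1, y2, u2, e0, eT, eK, eS, eR, eH, E.val, NumI.lkR] at hp
    push_cast at hp
    try simp only [div_one, sub_add_cancel, sub_sub_cancel, e1, e2, e3, e4] at hp
    right
    linarith only [hf1, hp]
  · simp only [cT, x1, x2, y1, y2, u2, e0, eT, eK, eS, eR, eH, E.val, NumI.lkR] at hp
    push_cast at hp
    try simp only [div_one, sub_add_cancel, sub_sub_cancel, e1, e2, e3, e4] at hp
    linarith only [ht', hp]

theorem gb2l_h1_q1 : Pool.Agent.Work.NumU.runT [E.sub l1 o1, E.sub l2 o1, E.sub D0 o4, cT] 18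
    167054034270936170404184897355943165493983135694850401461873348808259035665616387448147917565871201995367394943193947145033554268709651903197069075755709821522412865664052236239816375342630076929217805343973854497022907548017309793111989623675229754886528194422756144717382522796585684237866953631972020568425956826955454755580343244366243
    (Pool.Agent.Work.NumI.setL 3 (Pool.Agent.Work.NumI.setL 2 ([NumI.V.of 10000 2600 2700, NumI.V.of 10000 0 560, NumI.V.of 10000 1250 2300, NumI.V.of 10000 0 1045]))) =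
    8636491149855466212413400274136718870368236834368359226035956506389677862007547352416354409090800922847817538875083320931299749779370647021092385252560682128100627830680751992477887549459336058110090084763711325804739776758106577078764492508436397729251381570434823469503057799286479430229777081102445930838831634 := by
  decide +kernel

theorem gb2l_h1_q2 : Pool.Agent.Work.NumU.runT [E.sub l1 o1, E.sub l2 o1, E.sub D0 o4, cT] 18
    8636491149855466212413400274136718870368236834368359226035956506389677862007547352416354409090800922847817538875083320931299749779370647021092385252560682128100627830680751992477887549459336058110090084763711325804739776758106577078764492508436397729251381570434823469503057799286479430229777081102445930838831633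
    (Pool.Agent.Work.NumI.setR 3 (Pool.Agent.Work.NumI.setL 2 ([NumI.V.of 10000 2600 2700, NumI.V.of 10000 0 560, NumI.V.of 10000 1250 2300, NumI.V.of 10000 0 1045]))) =
    742641632625006719459110732569336099204470665934408436483124674308069481376840798205768171024115626912983762391629573124417827815217095647492447528201900379648382828764439523890 := by
  decide +kernel

theorem gb2l_h1_q3 : Pool.Agent.Work.NumU.runT [E.sub l1 o1, E.sub l2 o1, E.sub D0 o4, cT] 18
    46415102039062919966194420785583506200279416620900527280195292144254342586052549887860510689007226682061485149476848320276114238451068477968277970512618773728023926797777470243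
    (Pool.Agent.Work.NumI.setL 1 (Pool.Agent.Work.NumI.setR 2 ([NumI.V.of 10000 2600 2700, NumI.V.of 10000 0 560, NumI.V.of 10000 1250 2300, NumI.V.of 10000 0 1045]))) =
    14179518303467796294632228 := by
  decide +kernel

theorem gb2l_h1_q4 : Pool.Agent.Work.NumU.runT [E.sub l1 o1, E.sub l2 o1, E.sub D0 o4, cT] 18
    14179518303467796294632227
    (Pool.Agent.Work.NumI.setR 1 (Pool.Agent.Work.NumI.setR 2 ([NumI.V.of 10000 2600 2700, NumI.V.of 10000 0 560, NumI.V.of 10000 1250 2300, NumI.V.of 10000 0 1045]))) =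
    1 := by
  decide +kernel

theorem gb2l (hx : 26 / 100 ≤ x) (hx' : x ≤ 27 / 100) (hs : 1 / 8 ≤ s) (hs' : s ≤ 23 / 100)
    (ht' : t ≤ 56 / 1000) (hρ : 0 < ρ) (hρ' : ρ ≤ 1045 / 10000)
    (hη : 4 * ρ * s ≤ t)
    (hw : w.re = x) (hwi : w.im = t) (hζ : ζ.re = -(1 / 2) + s) (hζi : ζ.im = 4 * ρ * s) :
    8 * Real.pi * ρ * s * (1 - 4 * s) < fu x t (-(1 / 4)) ρ - fu x t (-(1 / 2) + s) (4 * ρ * s) ∨
      8 * Real.pi * ρ * (8 * s - 1) < Dm (4 * ρ) w ζ := by
  have e : 0 ≤ 4 * ρ * s := mul_nonneg (by linarith only [hρ]) (by linarith only [hs, hρ, hρ'])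
  have e1 : x - s + 2 * s = x + s := by ring
  have e2 : t - 4 * ρ * s + 8 * (ρ * s) = t + 4 * ρ * s := by ring
  have e3 : 2 * s - (s - x) = x + s := by ring
  have e4 : 1 - (s - x) = x + 1 - s := by ring
  have hg := gap_eq (s := s) (ρ := ρ) (x := x) (t := t)
  have hf1 := D1_le hw hwi hζ hζi hρ.le (by linarith only [hx, hs, hρ, hρ']) (by linarith only [hx', hs', hρ, hρ']) (by linarith only [hx, hs', hρ, hρ']) (by linarith only [hx', hs, hρ, hρ']) hη
  have hf5 := far (x := x) hη
  have hf2 := past (x := x) (t := t) (ρ := ρ)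
  have hf3 := pa1 (t := t) (ρ := ρ)
  have hf4 := pa2 (t := t) (ρ := ρ)
  have h : chkT [E.sub l1 o1, E.sub l2 o1, E.sub D0 o4, cT] 20
    42765832773359659623471333723121450366459682737881702774239577294914313130397795186725866896863027710814053105457650469128589892789670887218449683393461714309737693609997372477392992087713299693879758168057306751237864332292431307036669343660858817250951217772225573047649925835925935164893940129784837265517044947700596417428567870557758258
    [NumI.V.of 10000 2600 2700, NumI.V.of 10000 0 560,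
      NumI.V.of 10000 1250 2300, NumI.V.of 10000 0 1045] = true :=
      Pool.Agent.Work.NumU.chkT_of (Pool.Agent.Work.NumU.runT_split rfl rfl rfl
        (Pool.Agent.Work.NumU.runT_split rfl rfl rfl
          gb2l_h1_q1
          gb2l_h1_q2)
        (Pool.Agent.Work.NumU.runT_split rfl rfl rfl
          gb2l_h1_q3
          gb2l_h1_q4))
  obtain ⟨f, hf, hp⟩ := chkT4 h (by norm_num) (x := x) (y := t - 4 * ρ * s) (z := s) (w := ρ)
    (by norm_num; linarith only [hx]) (by norm_num; linarith only [hx']) (by norm_num; linarith only [hη]) (by norm_num; linarith only [ht', e])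
    (by norm_num; linarith only [hs]) (by norm_num; linarith only [hs']) (by norm_num; linarith only [hρ]) (by norm_num; linarith only [hρ'])
  simp only [List.mem_cons, List.not_mem_nil, or_false] at hf
  rcases hf with rfl | rfl | rfl | rfl
  · simp only [l1, aft, o1, x1, x2, y1, y2, u2, e0, eT, eK, eS, eR, eH, E.val, NumI.lkR] at hp
    push_cast at hp
    try simp only [div_one, sub_add_cancel, sub_sub_cancel, e1, e2, e3, e4] at hp
    left
    linarith only [hg, hf5, hf2, hf3, hp]
  · simp only [l2, aft, o1, x1, x2, y1, y2, u2, e0, eT, eK, eS, eR, eH, E.val, NumI.lkR] at hp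
    push_cast at hp
    try simp only [div_one, sub_add_cancel, sub_sub_cancel, e1, e2, e3, e4] at hp
    left
    linarith only [hg, hf5, hf2, hf4, hp]
  · simp only [D0, DX, o4, x1, x2, y1, y2, u2, e0, eT, eK, eS, eR, eH, E.val, NumI.lkR] at hp
    push_cast at hp
    try simp only [div_one, sub_add_cancel, sub_sub_cancel, e1, e2, e3, e4] at hp
    right
    linarith only [hf1, hp]
  · simp only [cT, x1, x2, y1, y2, u2, e0, eT, eK, eS, eR, eH, E.val, NumI.lkR] at hp
    push_cast at hp
    try simp only [div_one, sub_add_cancel, sub_sub_cancel, e1, e2, e3, e4] at hp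
    linarith only [ht', hp]

/-- numerical minimum of the better alternative: .0148 -/
theorem gb2 (hx : 1 / 10 ≤ x) (hx' : x ≤ 27 / 100) (ht' : t ≤ 56 / 1000)
    (hs : 1 / 8 ≤ s) (hs' : s ≤ 23 / 100) (hsx : s ≤ x) (hρ : 0 < ρ) (hρ' : ρ ≤ 1045 / 10000)
    (hη : 4 * ρ * s ≤ t) (hne : x ≠ s ∨ t ≠ 4 * ρ * s)
    (hw : w.re = x) (hwi : w.im = t) (hζ : ζ.re = -(1 / 2) + s) (hζi : ζ.im = 4 * ρ * s) :
    8 * Real.pi * ρ * s * (1 - 4 * s) < fu x t (-(1 / 4)) ρ - fu x t (-(1 / 2) + s) (4 * ρ * s) ∨
      8 * Real.pi * ρ * (8 * s - 1) < Dm (4 * ρ) w ζ := by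
  rcases le_total x (24 / 100) with h1 | h1
  · rcases le_total (3 / 100) (x - s) with h2 | h2
    · exact gb2a hx h1 hs hs' ht' hρ hρ' hη hw hwi hζ hζi h2
    · right
      rcases le_total (1 / 100) (x - s) with h3 | h3
      · exact gb2b hs hs' ht' hρ hρ' hη hw hwi hζ hζi h3 h2
      · exact gb2c hs hs' ht' hρ hρ' hη hw hwi hζ hζi hsx h3 hne
  · rcases le_total x (1 / 4) with h2 | h2
    · exact gb2h h1 h2 hs hs' ht' hρ hρ' hη hw hwi hζ hζi
    · rcases le_total x (26 / 100) with h3 | h3
      · exact gb2k h2 h3 hs hs' ht' hρ hρ' hη hw hwi hζ hζi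
      · exact gb2l h3 hx' hs hs' ht' hρ hρ' hη hw hwi hζ hζi

theorem gb3a (hx' : x ≤ 27 / 100) (hs : 23 / 100 ≤ s) (hs' : s ≤ 1 / 4)
    (ht' : t ≤ 56 / 1000) (hρ : 0 < ρ) (hρ' : ρ ≤ 1045 / 10000)
    (hη : 4 * ρ * s ≤ t)
    (hw : w.re = x) (hwi : w.im = t) (hζ : ζ.re = -(1 / 2) + s) (hζi : ζ.im = 4 * ρ * s)
    (hd : 1 / 100 ≤ x - s) :
    8 * Real.pi * ρ * (8 * s - 1) < Dm (4 * ρ) w ζ := by
  have e : 0 ≤ 4 * ρ * s := mul_nonneg (by linarith only [hρ]) (by linarith only [hs, hρ, hρ'])
  have e1 : x - s + 2 * s = x + s := by ring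
  have e2 : t - 4 * ρ * s + 8 * (ρ * s) = t + 4 * ρ * s := by ring
  have e3 : 2 * s - (s - x) = x + s := by ring
  have e4 : 1 - (s - x) = x + 1 - s := by ring
  have hf1 := D1_le hw hwi hζ hζi hρ.le (by linarith only [hs, hρ, hρ', hd]) (by linarith only [hx', hs', hρ, hρ']) (by linarith only [hρ, hρ', hd]) (by linarith only [hx', hs, hρ, hρ']) hη
  have h : chkT [E.sub D1 o4, cT, cB 27] 20
    4772167799722768346866130691241699988737980422035549197652819239285608835774231615648001
    [NumI.V.of 10000 100 400, NumI.V.of 10000 0 560,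
      NumI.V.of 10000 2300 2500, NumI.V.of 10000 0 1045] = true := by
    decide +kernel
  obtain ⟨f, hf, hp⟩ := chkT4 h (by norm_num) (x := x - s) (y := t - 4 * ρ * s) (z := s) (w := ρ)
    (by norm_num; linarith only [hd]) (by norm_num; linarith only [hx', hs]) (by norm_num; linarith only [hη]) (by norm_num; linarith only [ht', e])
    (by norm_num; linarith only [hs]) (by norm_num; linarith only [hs']) (by norm_num; linarith only [hρ]) (by norm_num; linarith only [hρ'])
  simp only [List.mem_cons, List.not_mem_nil, or_false] at hf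
  rcases hf with rfl | rfl | rfl
  · simp only [D1, DX, o4, x1, x2, y1, y2, u2, e0, eT, eK, eS, eR, eH, E.val, NumI.lkR] at hp
    push_cast at hp
    try simp only [div_one, sub_add_cancel, sub_sub_cancel, e1, e2, e3, e4] at hp
    linarith only [hf1, hp]
  · simp only [cT, x1, x2, y1, y2, u2, e0, eT, eK, eS, eR, eH, E.val, NumI.lkR] at hp
    push_cast at hp
    try simp only [div_one, sub_add_cancel, sub_sub_cancel, e1, e2, e3, e4] at hp
    linarith only [ht', hp]
  · simp only [cB, x1, x2, y1, y2, u2, e0, eT, eK, eS, eR, eH, E.val, NumI.lkR] at hp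
    push_cast at hp
    try simp only [div_one, sub_add_cancel, sub_sub_cancel, e1, e2, e3, e4] at hp
    linarith only [hx', hp]

theorem gb3c (hs : 23 / 100 ≤ s) (hs' : s ≤ 1 / 4)
    (ht' : t ≤ 56 / 1000) (hρ : 0 < ρ) (hρ' : ρ ≤ 1045 / 10000)
    (hη : 4 * ρ * s ≤ t)
    (hw : w.re = x) (hwi : w.im = t) (hζ : ζ.re = -(1 / 2) + s) (hζi : ζ.im = 4 * ρ * s)
    (hd : s ≤ x) (hd' : x - s ≤ 1 / 100) (hne : x ≠ s ∨ t ≠ 4 * ρ * s) :
    8 * Real.pi * ρ * (8 * s - 1) < Dm (4 * ρ) w ζ := by
  have e : 0 ≤ 4 * ρ * s := mul_nonneg (by linarith only [hρ]) (by linarith only [hs, hρ, hρ'])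
  have e1 : x - s + 2 * s = x + s := by ring
  have e2 : t - 4 * ρ * s + 8 * (ρ * s) = t + 4 * ρ * s := by ring
  have e3 : 2 * s - (s - x) = x + s := by ring
  have e4 : 1 - (s - x) = x + 1 - s := by ring
  have hf1 := De_le hw hwi hζ hζi hρ.le (by linarith only [hs, hρ, hρ', hd]) (by linarith only [hs', hρ, hρ', hd']) hd (by linarith only [hρ, hρ', hd']) hη hne
  have h : chkT [E.sub De o4, cT] 20
    760163504978173091264247071505
    [NumI.V.of 10000 0 100, NumI.V.of 10000 0 560,
      NumI.V.of 10000 2300 2500, NumI.V.of 10000 0 1045] = true := by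
    decide +kernel
  obtain ⟨f, hf, hp⟩ := chkT4 h (by norm_num) (x := x - s) (y := t - 4 * ρ * s) (z := s) (w := ρ)
    (by norm_num; linarith only [hd]) (by norm_num; linarith only [hd']) (by norm_num; linarith only [hη]) (by norm_num; linarith only [ht', e])
    (by norm_num; linarith only [hs]) (by norm_num; linarith only [hs']) (by norm_num; linarith only [hρ]) (by norm_num; linarith only [hρ'])
  simp only [List.mem_cons, List.not_mem_nil, or_false] at hf
  rcases hf with rfl | rfl
  · simp only [De, DX, o4, x1, x2, y1, y2, u2, e0, eT, eK, eS, eR, eH, E.val, NumI.lkR] at hp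
    push_cast at hp
    try simp only [div_one, sub_add_cancel, sub_sub_cancel, e1, e2, e3, e4] at hp
    linarith only [hf1, hp]
  · simp only [cT, x1, x2, y1, y2, u2, e0, eT, eK, eS, eR, eH, E.val, NumI.lkR] at hp
    push_cast at hp
    try simp only [div_one, sub_add_cancel, sub_sub_cancel, e1, e2, e3, e4] at hp
    linarith only [ht', hp]

/-- numerical minimum: .22 -/
theorem gb3 (hx' : x ≤ 27 / 100) (ht' : t ≤ 56 / 1000)
    (hs : 23 / 100 ≤ s) (hs' : s ≤ 1 / 4) (hsx : s ≤ x) (hρ : 0 < ρ) (hρ' : ρ ≤ 1045 / 10000)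
    (hη : 4 * ρ * s ≤ t) (hne : x ≠ s ∨ t ≠ 4 * ρ * s)
    (hw : w.re = x) (hwi : w.im = t) (hζ : ζ.re = -(1 / 2) + s) (hζi : ζ.im = 4 * ρ * s) :
    8 * Real.pi * ρ * (8 * s - 1) < Dm (4 * ρ) w ζ := by
  rcases le_total (1 / 100) (x - s) with h3 | h3
  · exact gb3a hx' hs hs' ht' hρ hρ' hη hw hwi hζ hζi h3
  · exact gb3c hs hs' ht' hρ hρ' hη hw hwi hζ hζi hsx h3 hne

theorem gca (hx : 1 / 10 ≤ x) (hs : 1 / 10 ≤ s) (hs' : s ≤ 1 / 4)
    (ht' : t ≤ 56 / 1000) (hρ : 0 < ρ) (hρ' : ρ ≤ 1045 / 10000)
    (hη : 4 * ρ * s ≤ t)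
    (hw : w.re = x) (hwi : w.im = t) (hζ : ζ.re = -(1 / 2) + s) (hζi : ζ.im = 4 * ρ * s)
    (hd : 3 / 100 ≤ s - x) :
    0 < Dm (4 * ρ) w ζ := by
  have e : 0 ≤ 4 * ρ * s := mul_nonneg (by linarith only [hρ]) (by linarith only [hx, hρ, hρ', hd])
  have e1 : x - s + 2 * s = x + s := by ring
  have e2 : t - 4 * ρ * s + 8 * (ρ * s) = t + 4 * ρ * s := by ring
  have e3 : 2 * s - (s - x) = x + s := by ring
  have e4 : 1 - (s - x) = x + 1 - s := by ring
  have hf1 := D3_eq hw hwi hζ hζi (by linarith only [hx, hρ, hρ', hd]) (by linarith only [hs', hρ, hρ', hd]) (by linarith only [hρ, hρ', hd]) (by linarith only [hx, hs', hρ, hρ'])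
  have h : chkT [D2, cD, cT] 20
    208757701971589398358890302412496788020454410722759282720
    [NumI.V.of 10000 300 1500, NumI.V.of 10000 0 560,
      NumI.V.of 10000 1300 2500, NumI.V.of 10000 0 1045] = true := by
    decide +kernel
  obtain ⟨f, hf, hp⟩ := chkT4 h (by norm_num) (x := s - x) (y := t - 4 * ρ * s) (z := s) (w := ρ)
    (by norm_num; linarith only [hd]) (by norm_num; linarith only [hx, hs']) (by norm_num; linarith only [hη]) (by norm_num; linarith only [ht', e])
    (by norm_num; linarith only [hx, hd]) (by norm_num; linarith only [hs']) (by norm_num; linarith only [hρ]) (by norm_num; linarith only [hρ'])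
  simp only [List.mem_cons, List.not_mem_nil, or_false] at hf
  rcases hf with rfl | rfl | rfl
  · simp only [D2, DX, x1, x2, y1, y2, u2, e0, eT, eK, eS, eR, eH, E.val, NumI.lkR] at hp
    push_cast at hp
    try simp only [div_one, sub_add_cancel, sub_sub_cancel, e1, e2, e3, e4] at hp
    linarith only [hf1, hp]
  · simp only [cD, x1, x2, y1, y2, u2, e0, eT, eK, eS, eR, eH, E.val, NumI.lkR] at hp
    push_cast at hp
    try simp only [div_one, sub_add_cancel, sub_sub_cancel, e1, e2, e3, e4] at hp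
    linarith only [hx, hp]
  · simp only [cT, x1, x2, y1, y2, u2, e0, eT, eK, eS, eR, eH, E.val, NumI.lkR] at hp
    push_cast at hp
    try simp only [div_one, sub_add_cancel, sub_sub_cancel, e1, e2, e3, e4] at hp
    linarith only [ht', hp]

theorem gcb (hx : 1 / 10 ≤ x) (hs : 1 / 10 ≤ s) (hs' : s ≤ 1 / 4)
    (ht' : t ≤ 56 / 1000) (hρ : 0 < ρ) (hρ' : ρ ≤ 1045 / 10000)
    (hη : 4 * ρ * s ≤ t) (hd : x ≤ s) (hd' : s - x ≤ 3 / 100) :
    0 < NumI.lnA (x + s) (t + 4 * ρ * s) - 4 * ρ * NumI.lnB (x + s) (t + 4 * ρ * s) -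
      (1 / 2 * Real.log (2 * (Real.cosh (2 * Real.pi * (t - 4 * ρ * s)) -
        Real.cos (Real.pi * (2 * (x - s)))) + 1 / 20) + 4 * ρ * Real.pi) := by
  have e : 0 ≤ 4 * ρ * s := mul_nonneg (by linarith only [hρ]) (by linarith only [hs, hρ, hρ'])
  have e1 : x - s + 2 * s = x + s := by ring
  have e2 : t - 4 * ρ * s + 8 * (ρ * s) = t + 4 * ρ * s := by ring
  have e3 : 2 * s - (s - x) = x + s := by ring
  have e4 : 1 - (s - x) = x + 1 - s := by ring
  have h : chkT [Dc, cC, cT] 20
    6950534114927620707197863766462592296049768900039727628235840213088205298221238276253238886621161787448053646498147149742625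
    [NumI.V.of 10000 (-300) 0, NumI.V.of 10000 0 560,
      NumI.V.of 10000 1000 2500, NumI.V.of 10000 0 1045] = true := by
    decide +kernel
  obtain ⟨f, hf, hp⟩ := chkT4 h (by norm_num) (x := x - s) (y := t - 4 * ρ * s) (z := s) (w := ρ)
    (by norm_num; linarith only [hd']) (by norm_num; linarith only [hd]) (by norm_num; linarith only [hη]) (by norm_num; linarith only [ht', e])
    (by norm_num; linarith only [hs]) (by norm_num; linarith only [hs']) (by norm_num; linarith only [hρ]) (by norm_num; linarith only [hρ'])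
  simp only [List.mem_cons, List.not_mem_nil, or_false] at hf
  rcases hf with rfl | rfl | rfl
  · simp only [Dc, DX, x1, x2, y1, y2, u2, e0, eT, eK, eS, eR, eH, E.val, NumI.lkR] at hp
    push_cast at hp
    try simp only [div_one, sub_add_cancel, sub_sub_cancel, e1, e2, e3, e4] at hp
    linarith only [hp]
  · simp only [cC, x1, x2, y1, y2, u2, e0, eT, eK, eS, eR, eH, E.val, NumI.lkR] at hp
    push_cast at hp
    try simp only [div_one, sub_add_cancel, sub_sub_cancel, e1, e2, e3, e4] at hp
    linarith only [hx, hp]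
  · simp only [cT, x1, x2, y1, y2, u2, e0, eT, eK, eS, eR, eH, E.val, NumI.lkR] at hp
    push_cast at hp
    try simp only [div_one, sub_add_cancel, sub_sub_cancel, e1, e2, e3, e4] at hp
    linarith only [ht', hp]

theorem gcc (hx : 1 / 10 ≤ x) (hs : 1 / 10 ≤ s) (hs' : s ≤ 1 / 4)
    (ht' : t ≤ 56 / 1000) (hρ : 0 < ρ) (hρ' : ρ ≤ 1045 / 10000)
    (hη : 4 * ρ * s ≤ t) (hd : x ≤ s) (hd' : s - x ≤ 3 / 100) :
    0 < NumI.lnA (x + s) (t + 4 * ρ * s) - 4 * ρ * NumI.lnB (x + s) (t + 4 * ρ * s) := by
  have e : 0 ≤ 4 * ρ * s := mul_nonneg (by linarith only [hρ]) (by linarith only [hs, hρ, hρ'])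
  have e1 : x - s + 2 * s = x + s := by ring
  have e2 : t - 4 * ρ * s + 8 * (ρ * s) = t + 4 * ρ * s := by ring
  have e3 : 2 * s - (s - x) = x + s := by ring
  have e4 : 1 - (s - x) = x + 1 - s := by ring
  have h : chkT [DX y1, cC, cT] 20
    11316777739937652875736489102202253858
    [NumI.V.of 10000 (-300) 0, NumI.V.of 10000 0 560,
      NumI.V.of 10000 1000 2500, NumI.V.of 10000 0 1045] = true := by
    decide +kernel
  obtain ⟨f, hf, hp⟩ := chkT4 h (by norm_num) (x := x - s) (y := t - 4 * ρ * s) (z := s) (w := ρ)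
    (by norm_num; linarith only [hd']) (by norm_num; linarith only [hd]) (by norm_num; linarith only [hη]) (by norm_num; linarith only [ht', e])
    (by norm_num; linarith only [hs]) (by norm_num; linarith only [hs']) (by norm_num; linarith only [hρ]) (by norm_num; linarith only [hρ'])
  simp only [List.mem_cons, List.not_mem_nil, or_false] at hf
  rcases hf with rfl | rfl | rfl
  · simp only [DX, x1, x2, y1, y2, u2, e0, eT, eK, eS, eR, eH, E.val, NumI.lkR] at hp
    push_cast at hp
    try simp only [div_one, sub_add_cancel, sub_sub_cancel, e1, e2, e3, e4] at hp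
    linarith only [hp]
  · simp only [cC, x1, x2, y1, y2, u2, e0, eT, eK, eS, eR, eH, E.val, NumI.lkR] at hp
    push_cast at hp
    try simp only [div_one, sub_add_cancel, sub_sub_cancel, e1, e2, e3, e4] at hp
    linarith only [hx, hp]
  · simp only [cT, x1, x2, y1, y2, u2, e0, eT, eK, eS, eR, eH, E.val, NumI.lkR] at hp
    push_cast at hp
    try simp only [div_one, sub_add_cancel, sub_sub_cancel, e1, e2, e3, e4] at hp
    linarith only [ht', hp]

/-- numerical minimum: .62 -/
theorem gc (hx : 1 / 10 ≤ x) (ht' : t ≤ 56 / 1000)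
    (hs : 1 / 10 ≤ s) (hs' : s ≤ 1 / 4) (hsx : x ≤ s) (hρ : 0 < ρ) (hρ' : ρ ≤ 1045 / 10000)
    (hη : 4 * ρ * s ≤ t)
    (hw : w.re = x) (hwi : w.im = t) (hζ : ζ.re = -(1 / 2) + s) (hζi : ζ.im = 4 * ρ * s) :
    0 < Dm (4 * ρ) w ζ := by
  rcases le_total (3 / 100) (s - x) with h2 | h2
  · exact gca hx hs hs' ht' hρ hρ' hη hw hwi hζ hζi h2
  · rcases Dc_le hw hwi hζ hζi hρ.le (by linarith only [hx, hs, hρ, hρ']) (by linarith only [hs', hsx, hρ, hρ']) (by linarith only [hsx, hρ, hρ']) hη with h3 | h3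
    · exact lt_of_lt_of_le (gcc hx hs hs' ht' hρ hρ' hη hsx h2) h3
    · exact lt_of_lt_of_le (gcb hx hs hs' ht' hρ hρ' hη hsx h2) h3

end GE

end Pool.Agent.Work.MP_b30479_gt.G2
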