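import Pool.Agent.Work.MP_b30479_gt.G2.GeoRun

/-!
# Positivity of the tetrahedra

All conditions are stated in the coordinates of the saddle point.  `ct w = cot πw = R`,
`e^{2πiw} = (R + i) / (R - i)`, and `(1 - 1 / Y') / (1 - Y) = -(R - i) / (R' + i)`.
-/

namespace Pool.Agent.Work.MP_b30479_gt.G2

open Finset VOL
open Pool.Agent.Work.MP_b30479_gt.LT (ee BW)

/-- `cot πw` -/
noncomputable def ct (w : ℂ) : ℂ := Complex.cos (Real.pi * w) / Complex.sin (Real.pi * w)

/-- the condition for the two tetrahedra of a closed kernel -/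
def Pp (w w' : ℂ) : Prop := |(ct w * (starRingEnd ℂ) (ct w')).im| < (ct w + ct w').re

lemma ee_eq_sq (w : ℂ) : ee w =
    (Complex.cos (Real.pi * w) + Complex.sin (Real.pi * w) * Complex.I) ^ 2 := by
  rw [Complex.cos_add_sin_I, ee, ← Complex.exp_nat_mul]
  congr 1
  push_cast
  ring

lemma ee_mul_self (w : ℂ) : ee w *
    (Complex.cos (Real.pi * w) - Complex.sin (Real.pi * w) * Complex.I) =
    Complex.cos (Real.pi * w) + Complex.sin (Real.pi * w) * Complex.I := by
  have h := Complex.cos_sq_add_sin_sq (Real.pi * w)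
  rw [ee_eq_sq]
  linear_combination (Complex.cos (Real.pi * w) + Complex.sin (Real.pi * w) * Complex.I) * h -
    (Complex.cos (Real.pi * w) + Complex.sin (Real.pi * w) * Complex.I) *
      Complex.sin (Real.pi * w) ^ 2 * Complex.I_sq

lemma ee_ne (w : ℂ) : ee w ≠ 0 := Complex.exp_ne_zero _

lemma ct_sub_ne {w : ℂ} (hw : w ∈ strip) : ct w - Complex.I ≠ 0 := by
  have hs := sin_pi_ne hw
  intro h
  have h1 : Complex.cos (Real.pi * w) = Complex.sin (Real.pi * w) * Complex.I := by
    have : Complex.cos (Real.pi * w) / Complex.sin (Real.pi * w) = Complex.I := sub_eq_zero.1 h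
    rw [div_eq_iff hs] at this
    linear_combination this
  have h2 := Complex.cos_sq_add_sin_sq (Real.pi * w)
  rw [h1] at h2
  have h3 : (0 : ℂ) = 1 := by
    linear_combination h2 - Complex.sin (Real.pi * w) ^ 2 * Complex.I_sq
  exact zero_ne_one h3

lemma ct_add_ne {w : ℂ} (hw : w ∈ strip) : ct w + Complex.I ≠ 0 := by
  have hs := sin_pi_ne hw
  intro h
  have h1 : Complex.cos (Real.pi * w) = -(Complex.sin (Real.pi * w) * Complex.I) := by
    have : Complex.cos (Real.pi * w) / Complex.sin (Real.pi * w) = -Complex.I :=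
      eq_neg_of_add_eq_zero_left h
    rw [div_eq_iff hs] at this
    linear_combination this
  have h2 := Complex.cos_sq_add_sin_sq (Real.pi * w)
  rw [h1] at h2
  have h3 : (0 : ℂ) = 1 := by
    linear_combination h2 - Complex.sin (Real.pi * w) ^ 2 * Complex.I_sq
  exact zero_ne_one h3

lemma ee_ct {w : ℂ} (hw : w ∈ strip) : ee w = (ct w + Complex.I) / (ct w - Complex.I) := by
  have hs := sin_pi_ne hw
  have h1 := ct_sub_ne hw
  rw [eq_div_iff h1]
  have h2 := ee_mul_self w
  have h3 : ct w * Complex.sin (Real.pi * w) = Complex.cos (Real.pi * w) := by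
    unfold ct
    field_simp
  apply mul_right_cancel₀ hs
  linear_combination h2 + (ee w - 1) * h3

lemma pair_ct {w w' : ℂ} (hw : w ∈ strip) (hw' : w' ∈ strip) :
    (1 - (ee w')⁻¹) / (1 - ee w) = -((ct w - Complex.I) / (ct w' + Complex.I)) := by
  have h1 := ct_sub_ne hw
  have h2 := ct_add_ne hw
  have h3 := ct_sub_ne hw'
  have h4 := ct_add_ne hw'
  have e1 : 1 - ee w = -(2 * Complex.I) / (ct w - Complex.I) := by
    rw [ee_ct hw, eq_div_iff h1, sub_mul, div_mul_cancel₀ _ h1]
    ring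
  have e2 : 1 - (ee w')⁻¹ = 2 * Complex.I / (ct w' + Complex.I) := by
    rw [ee_ct hw', inv_div, eq_div_iff h4, sub_mul, div_mul_cancel₀ _ h4]
    ring
  rw [e1, e2]
  have hI := Complex.I_ne_zero
  field_simp

lemma pair_im {R R' : ℂ} (h : R' + Complex.I ≠ 0)
    (hp : (R * (starRingEnd ℂ) R').im < (R + R').re) :
    0 < (-((R - Complex.I) / (R' + Complex.I))).im := by
  have hn : 0 < Complex.normSq (R' + Complex.I) := Complex.normSq_pos.2 h
  have e : (-((R - Complex.I) / (R' + Complex.I))).im =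
      ((R + R').re - (R * (starRingEnd ℂ) R').im) / Complex.normSq (R' + Complex.I) := by
    rw [Complex.neg_im, Complex.div_im]
    simp only [Complex.sub_im, Complex.I_im, Complex.add_re, Complex.I_re, Complex.sub_re,
      Complex.add_im, Complex.mul_im, Complex.conj_re, Complex.conj_im, add_zero, sub_zero]
    field_simp
    ring
  rw [e]
  exact div_pos (by linarith) hn

theorem pair_pos {w w' : ℂ} (hw : w ∈ strip) (hw' : w' ∈ strip) (h : Pp w w') :
    0 < ((1 - (ee w')⁻¹) / (1 - ee w)).im ∧ 0 < ((1 - (ee w)⁻¹) / (1 - ee w')).im := by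
  have h' := abs_lt.1 h
  constructor
  · rw [pair_ct hw hw']
    exact pair_im (ct_add_ne hw') h'.2
  · rw [pair_ct hw' hw]
    apply pair_im (ct_add_ne hw)
    have e : (ct w' * (starRingEnd ℂ) (ct w)).im = -(ct w * (starRingEnd ℂ) (ct w')).im := by
      simp only [Complex.mul_im, Complex.conj_re, Complex.conj_im]
      ring
    rw [e, add_comm]
    linarith [h'.1]

lemma Pp.symm {w w' : ℂ} (h : Pp w w') : Pp w' w := by
  unfold Pp at h ⊢
  have e : (ct w' * (starRingEnd ℂ) (ct w)).im = -(ct w * (starRingEnd ℂ) (ct w')).im := by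
    simp only [Complex.mul_im, Complex.conj_re, Complex.conj_im]
    ring
  rw [e, abs_neg, add_comm]
  exact h

/-- the letters of the ring are positive -/
def Rp (b : ℤ) (w ζ : ℂ) (n : ℕ) : Prop := ∀ l < n, 0 < (shp b (rC b w ζ) l).im

section
variable {M : ℕ} (b : Fin (M + 2) → ℤ) (t : Fin (M + 2) → Typ)
  (z : DD (M := M + 1) t ⊕ ZZ (M := M + 1) t → ℂ)

/-- positivity in the coordinates of the saddle point -/
structure GPos : Prop where
  hinge : ∀ j, 0 < (z (.inl (.inl j))).re ∧ (z (.inl (.inl j))).re < 1 / 2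
  one : ∀ j : Fin M, t j.castSucc.succ = .one ∨ t j.castSucc.succ = .two →
    Pp (z (.inl (.inl j.castSucc))) (z (.inl (.inl j.succ)))
  threeL : ∀ i, t i = .threeL → 0 < (xx t i z 1 - xx t i z 0).re ∧ (xx t i z 1 - xx t i z 0).re < 1 / 2 ∧
    (i ≠ Fin.last (M + 1) → Pp (xx t i z 1) (xx t i z 2))
  threeR : ∀ i, t i = .threeR → 0 < (xx t i z 1 - xx t i z 2).re ∧ (xx t i z 1 - xx t i z 2).re < 1 / 2 ∧
    (i ≠ 0 → Pp (xx t i z 1) (xx t i z 0))
  first : t 0 = .ring → Rp (b 0) (xx t 0 z 2) (xx t 0 z 1) ((b 0).natAbs - 2)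
  last : t (Fin.last (M + 1)) = .ring → Rp (b (Fin.last (M + 1))) (xx t (Fin.last (M + 1)) z 0)
    (xx t (Fin.last (M + 1)) z 1) ((b (Fin.last (M + 1))).natAbs - 2)
  ring : ∀ i, i ≠ 0 → i ≠ Fin.last (M + 1) → t i = .ring →
    Rp (b i) (xx t i z 0) (xx t i z 1) (b i).natAbs

end

lemma ee_im_pos {w : ℂ} (h0 : 0 < w.re) (h1 : w.re < 1 / 2) : 0 < (ee w).im := by
  have hpi := Real.pi_pos
  have e : (2 * Real.pi * Complex.I * w).im = 2 * Real.pi * w.re := by
    simp [Complex.mul_re, Complex.mul_im]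
  rw [ee, Complex.exp_im, e]
  apply mul_pos (Real.exp_pos _)
  apply Real.sin_pos_of_pos_of_lt_pi
  · positivity
  · nlinarith

lemma ee_div (w w' : ℂ) : ee w / ee w' = ee (w - w') := by
  rw [ee, ee, ee, ← Complex.exp_sub]
  congr 1
  ring

lemma one_sub_ee_ne {w : ℂ} (hw : w ∈ strip) : 1 - ee w ≠ 0 := by
  have h1 := ct_sub_ne hw
  have e1 : 1 - ee w = -(2 * Complex.I) / (ct w - Complex.I) := by
    rw [ee_ct hw, eq_div_iff h1, sub_mul, div_mul_cancel₀ _ h1]
    ring
  rw [e1]
  exact div_ne_zero (by simp) h1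

/-- the two shapes of a chain of length two, `b > 0` -/
lemma u2_left {Y Y' : ℂ} (hY : Y ≠ 0) (hY' : Y' ≠ 0) :
    u2 Y Y' / Y = (1 - Y'⁻¹) / (1 - Y) := by
  unfold u2
  by_cases h : 1 - Y = 0
  · simp [h]
  field_simp

lemma u2_right {Y Y' : ℂ} (hY : Y ≠ 0) (hY' : Y' ≠ 0) (h' : 1 - Y' ≠ 0) :
    Y'⁻¹ / u2 Y Y' = (1 - Y⁻¹) / (1 - Y') := by
  have h'' : Y' - 1 ≠ 0 := by
    intro h0
    apply h'
    linear_combination -h0
  unfold u2
  field_simp
  ring

lemma u2_left' {Y Y' : ℂ} (hY : Y ≠ 0) (hY' : Y' ≠ 0) (h : 1 - Y ≠ 0) (h' : 1 - Y' ≠ 0) :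
    Y⁻¹ / u2 Y⁻¹ Y'⁻¹ = (1 - Y⁻¹) / (1 - Y') := by
  have h'' : Y - 1 ≠ 0 := by
    intro h0
    apply h
    linear_combination -h0
  unfold u2
  field_simp

lemma u2_right' {Y Y' : ℂ} (hY : Y ≠ 0) (hY' : Y' ≠ 0) (h : 1 - Y ≠ 0) :
    u2 Y⁻¹ Y'⁻¹ / Y' = (1 - Y'⁻¹) / (1 - Y) := by
  have h'' : Y - 1 ≠ 0 := by
    intro h0
    apply h
    linear_combination -h0
  unfold u2
  field_simp
  ring

/-- the two shapes of a pair: any chain `V 0 = hat Y`, `V 1 = u2`, `V 2 = 1 / hat Y'` -/
lemma shp_pair {b : ℤ} {w w' : ℂ} (hw : w ∈ strip) (hw' : w' ∈ strip) (h : Pp w w') {U : ℕ → ℂ}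
    {l : ℕ} (h0 : U l = hat b (ee w)) (h1 : U (l + 1) = u2 (hat b (ee w)) (hat b (ee w')))
    (h2 : U (l + 2) = (hat b (ee w'))⁻¹) :
    0 < (shp b U l).im ∧ 0 < (shp b U (l + 1)).im := by
  obtain ⟨p1, p2⟩ := pair_pos hw hw' h
  have y := ee_ne w
  have y' := ee_ne w'
  have n := one_sub_ee_ne hw
  have n' := one_sub_ee_ne hw'
  by_cases hb : 0 < b
  · simp only [shp, hat, if_pos hb] at h0 h1 h2 ⊢
    rw [h0, h1, h2, u2_left y y', u2_right y y' n']
    exact ⟨p1, p2⟩
  · simp only [shp, hat, if_neg hb, inv_inv] at h0 h1 h2 ⊢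
    rw [h0, h1, h2, u2_left' y y' n n', u2_right' y y' n]
    exact ⟨p2, p1⟩

/-- a shape `e^{2πi(m - w)}`: the chain has the neighbours `hat w`, `hat m` -/
lemma shp_step {b : ℤ} {w m : ℂ} (h0 : 0 < (m - w).re) (h1 : (m - w).re < 1 / 2) {U : ℕ → ℂ}
    {l : ℕ} (hl : U l = hat b (ee w)) (hl' : U (l + 1) = hat b (ee m)) :
    0 < (shp b U l).im := by
  by_cases hb : 0 < b
  · simp only [shp, hat, if_pos hb] at hl hl' ⊢
    rw [hl, hl', ee_div]
    exact ee_im_pos h0 h1
  · simp only [shp, hat, if_neg hb] at hl hl' ⊢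
    rw [hl, hl', inv_div_inv, ee_div]
    exact ee_im_pos h0 h1

/-- the same from the other end -/
lemma shp_step' {b : ℤ} {w m : ℂ} (h0 : 0 < (m - w).re) (h1 : (m - w).re < 1 / 2) {U : ℕ → ℂ}
    {l : ℕ} (hl : U l = (hat b (ee m))⁻¹) (hl' : U (l + 1) = (hat b (ee w))⁻¹) :
    0 < (shp b U l).im := by
  by_cases hb : 0 < b
  · simp only [shp, hat, if_pos hb] at hl hl' ⊢
    rw [hl, hl', inv_div_inv, ee_div]
    exact ee_im_pos h0 h1
  · simp only [shp, hat, if_neg hb, inv_inv] at hl hl' ⊢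
    rw [hl, hl', ee_div]
    exact ee_im_pos h0 h1

section
variable {M : ℕ} {b : Fin (M + 2) → ℤ} {t : Fin (M + 2) → Typ}
  {z : DD (M := M + 1) t ⊕ ZZ (M := M + 1) t → ℂ}

/-- the inner variable of `threeL`, `threeR` is in the strip -/
lemma mid_strip
    (hin : ∀ k, 0 < ((wdat (M := M + 1) t b).form k z).re ∧ ((wdat (M := M + 1) t b).form k z).re < 1)
    {i : Fin (M + 2)} (hi : t i = .threeL ∨ t i = .threeR) : xx t i z 1 ∈ strip := by
  have key : ∀ (T : Typ) (l r : Bool), (T = .threeL ∨ T = .threeR) → ∃ k : Fin (facs T l r).length,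
      ∀ x : Fin 3 → ℂ, ((facs T l r).get k).form x = 1 - x 1 := by
    intro T l r hT
    have h2 : ∃ k : Fin (facs T l r).length, (facs T l r).get k = ⟨![0, -1, 0], 1, -(1 / 2)⟩ := by
      rcases hT with rfl | rfl
      · refine ⟨⟨2, ?_⟩, ?_⟩
        · simp [facs]
        · simp [facs]
      · refine ⟨⟨2, ?_⟩, ?_⟩
        · simp [facs]
        · simp [facs]
    obtain ⟨k, hk⟩ := h2
    refine ⟨k, fun x => ?_⟩
    rw [hk]
    simp [Fac.form, Fin.sum_univ_three]
    ring
  obtain ⟨k, hk⟩ := key (t i) (decide (i ≠ 0)) (decide (i ≠ Fin.last (M + 1))) hi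
  have h1 := hin ⟨i, k⟩
  rw [wdat_form] at h1
  have h2 : (fac t ⟨i, k⟩).form (xx t i z) = 1 - xx t i z 1 := hk _
  simp only [h2] at h1
  rw [Complex.sub_re, Complex.one_re] at h1
  exact ⟨by linarith [h1.2], by linarith [h1.1]⟩

lemma GPos.strip (hp : GPos b t z) (j : Fin (M + 1)) : z (.inl (.inl j)) ∈ VOL.strip :=
  ⟨(hp.hinge j).1, by linarith [(hp.hinge j).2]⟩

lemma inner_idx {i : Fin (M + 2)} (h0 : i ≠ 0) (h1 : i ≠ Fin.last (M + 1)) :
    ∃ j : Fin M, i = j.castSucc.succ := by
  obtain ⟨k, rfl⟩ := Fin.exists_succ_eq.2 h0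
  have hk : k ≠ Fin.last M := by
    rintro rfl
    exact h1 rfl
  obtain ⟨j, rfl⟩ := Fin.exists_castSucc_eq.2 hk
  exact ⟨j, rfl⟩

theorem geo_pos (ht : GTyp b t)
    (hin : ∀ k, 0 < ((wdat (M := M + 1) t b).form k z).re ∧ ((wdat (M := M + 1) t b).form k z).re < 1)
    (hp : GPos b t z) : PosOr b (gY t z) (gU b t z) := by
  have hlast : Fin.last (M + 1) ≠ 0 := Fin.last_pos.ne'
  refine ⟨fun j => ee_im_pos (hp.hinge j).1 (hp.hinge j).2, ?_, ?_⟩
  · intro i hb l hl
    by_cases h0 : i = 0
    · -- the left end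
      subst h0
      have hl' : l < (b 0).natAbs - 2 := by
        simpa [nlet] using hl
      have hU : gU b t z 0 = lE (t 0) (b 0) (xx t 0 z 2) (xx t 0 z 1) := by
        simp [gU]
      rw [hU]
      have hok := ht.ok 0
      have hfour := ht.four 0
      have hfirst := ht.first
      have hR := hp.threeR 0
      have hF := hp.first
      generalize hT : t 0 = T at hok hfour hfirst hR hF
      cases T with
      | one => exact absurd rfl hfirst.1
      | two =>
        simp only [Typ.IsOk] at hok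
        omega
      | threeL => exact absurd rfl hfirst.2
      | threeR =>
        simp only [Typ.IsOk] at hok
        have hl0 : l = 0 := by omega
        subst hl0
        obtain ⟨h1, h2, -⟩ := hR rfl
        exact shp_step h1 h2 (by simp [lE]) (by simp [lE])
      | fourL => exact absurd rfl hfour.1
      | fourR => exact absurd rfl hfour.2
      | ring => exact hF rfl l hl'
    · by_cases h1 : i = Fin.last (M + 1)
      · -- the right end
        subst h1
        have hl' : l < (b (Fin.last (M + 1))).natAbs - 2 := by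
          simpa [nlet] using hl
        have hU : gU b t z (Fin.last (M + 1)) = lE (t (Fin.last (M + 1))) (b (Fin.last (M + 1)))
            (xx t (Fin.last (M + 1)) z 0) (xx t (Fin.last (M + 1)) z 1) := by
          simp [gU, hlast]
        rw [hU]
        have hok := ht.ok (Fin.last (M + 1))
        have hfour := ht.four (Fin.last (M + 1))
        have hfirst := ht.last
        have hR := hp.threeL (Fin.last (M + 1))
        have hF := hp.last
        generalize hT : t (Fin.last (M + 1)) = T at hok hfour hfirst hR hF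
        cases T with
        | one => exact absurd rfl hfirst.1
        | two =>
          simp only [Typ.IsOk] at hok
          omega
        | threeL =>
          simp only [Typ.IsOk] at hok
          have hl0 : l = 0 := by omega
          subst hl0
          obtain ⟨h1, h2, -⟩ := hR rfl
          exact shp_step h1 h2 (by simp [lE]) (by simp [lE])
        | threeR => exact absurd rfl hfirst.2
        | fourL => exact absurd rfl hfour.1
        | fourR => exact absurd rfl hfour.2
        | ring => exact hF rfl l hl'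
      · -- inner twist regions
        have hl' : l < (b i).natAbs := by
          simpa [nlet, h0, h1] using hl
        have hU : gU b t z i = lU (t i) (b i) (xx t i z) := by
          simp [gU, h0, h1]
        rw [hU]
        obtain ⟨j, rfl⟩ := inner_idx h0 h1
        have x0 : xx t j.castSucc.succ z 0 = z (.inl (.inl j.castSucc)) :=
          xx_left (M := M + 1) t j.castSucc z
        have x2 : xx t j.castSucc.succ z 2 = z (.inl (.inl j.succ)) :=
          xx_right (M := M + 1) t j.succ z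
        have s0 : xx t j.castSucc.succ z 0 ∈ strip := x0 ▸ hp.strip _
        have s2 : xx t j.castSucc.succ z 2 ∈ strip := x2 ▸ hp.strip _
        have hok := ht.ok j.castSucc.succ
        have hfour := ht.four j.castSucc.succ
        have hone := hp.one j
        have hL := hp.threeL j.castSucc.succ
        have hR := hp.threeR j.castSucc.succ
        have hF := hp.ring j.castSucc.succ h0 h1
        have s1 := mid_strip (b := b) (z := z) hin (i := j.castSucc.succ)
        rw [← x0, ← x2] at hone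
        generalize hT : t j.castSucc.succ = T at hok hfour hone hL hR hF s1
        cases T with
        | one =>
          simp only [Typ.IsOk] at hok
          omega
        | two =>
          simp only [Typ.IsOk] at hok
          have hpp := hone (Or.inr rfl)
          have h := shp_pair (b := b j.castSucc.succ) s0 s2 hpp
            (U := lU .two (b j.castSucc.succ) (xx t j.castSucc.succ z)) (l := 0)
            (by simp [lU]) (by simp [lU]) (by simp [lU])
          have hl2 : l = 0 ∨ l = 1 := by omega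
          rcases hl2 with rfl | rfl
          · exact h.1
          · exact h.2
        | threeL =>
          simp only [Typ.IsOk] at hok
          obtain ⟨a1, a2, a3⟩ := hL rfl
          have h := shp_pair (b := b j.castSucc.succ) (s1 (Or.inl rfl)) s2 (a3 h1)
            (U := lU .threeL (b j.castSucc.succ) (xx t j.castSucc.succ z)) (l := 1)
            (by simp [lU]) (by simp [lU]) (by simp [lU])
          have hl2 : l = 0 ∨ l = 1 ∨ l = 2 := by omega
          rcases hl2 with rfl | rfl | rfl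
          · exact shp_step a1 a2 (by simp [lU]) (by simp [lU])
          · exact h.1
          · exact h.2
        | threeR =>
          simp only [Typ.IsOk] at hok
          obtain ⟨a1, a2, a3⟩ := hR rfl
          have hpp : Pp (xx t j.castSucc.succ z 0) (xx t j.castSucc.succ z 1) := (a3 h0).symm
          have h := shp_pair (b := b j.castSucc.succ) s0 (s1 (Or.inr rfl)) hpp
            (U := lU .threeR (b j.castSucc.succ) (xx t j.castSucc.succ z)) (l := 0)
            (by simp [lU]) (by simp [lU]) (by simp [lU])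
          have hl2 : l = 0 ∨ l = 1 ∨ l = 2 := by omega
          rcases hl2 with rfl | rfl | rfl
          · exact h.1
          · exact h.2
          · exact shp_step' a1 a2 (by simp [lU]) (by simp [lU])
        | fourL => exact absurd rfl hfour.1
        | fourR => exact absurd rfl hfour.2
        | ring => exact hF rfl l hl'
  · intro j hb
    have hT : t j.castSucc.succ = .one := by
      rcases ht.ring j.castSucc.succ with h | h
      · omega
      · exact h
    exact pair_pos (hp.strip _) (hp.strip _) (hp.one j (Or.inl hT))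

end

/-! ### rings -/

/-- the first letter: `F_1 = -κ² (1 - i R) / cos² πζ` in general; here with `R = cot πw` and
`κ² = 1 / (1 + R² - 1 / c)`, `c = cos² πζ`, in the frame `b > 0`: shape
`1 + 2 c² (1 + i R) / (c + c')`, where `1 / c + 1 / c' = 1 + R²` -/
theorem shape_first {b : ℤ} (hb : 0 < b) {w ζ : ℂ} (h : RHg w ζ)
    (h0 : Complex.sin (rr0 b w ζ) ≠ 0) (h1 : Complex.sin (rr0 b w ζ - Real.pi * ζ) ≠ 0) :
    shp b (rC b w ζ) 0 = 1 + 2 * Complex.cos (Real.pi * ζ) ^ 2 * (1 + Complex.I * ct w) *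
      (1 - 1 / ((1 + ct w ^ 2) * Complex.cos (Real.pi * ζ) ^ 2)) := by
  have hS := sin_pi_ne h.hw
  have hc : Complex.cos (Real.pi * ζ) ≠ 0 := by
    intro hc
    apply h.sz
    rw [show (2 * Real.pi * ζ : ℂ) = 2 * (Real.pi * ζ) by ring, Complex.sin_two_mul, hc, mul_zero]
  have e0 : shp b (rC b w ζ) 0 = rU (rr0 b w ζ) (-(Real.pi * ζ)) (0 + 1) / rU (rr0 b w ζ) (-(Real.pi * ζ)) 0 := by
    simp [shp, rC, hb]
  have a1 : Complex.sin (rr0 b w ζ + ((0 : ℕ) : ℂ) * -(Real.pi * ζ)) ≠ 0 := by
    simpa using h0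
  have a2 : Complex.sin (rr0 b w ζ + (((0 : ℕ) : ℂ) + 1) * -(Real.pi * ζ)) ≠ 0 := by
    have : rr0 b w ζ + (((0 : ℕ) : ℂ) + 1) * -(Real.pi * ζ) = rr0 b w ζ - Real.pi * ζ := by
      push_cast
      ring
    rw [this]
    exact h1
  rw [e0, rU_shape a1 a2]
  -- `e^{2P}`
  have hr : rr0 b w ζ = -(Complex.I * rP w ζ) := by simp [rr0, hb]
  set P := rP w ζ with hP
  have cp : Complex.exp (ph (w + ζ + 1 / 2)) = 2 * Complex.cos (Real.pi * (w + ζ)) := by
    rw [exp_ph h.hp, show (Real.pi * (w + ζ + 1 / 2) : ℂ) = Real.pi * (w + ζ) + Real.pi / 2 by ring,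
      Complex.sin_add_pi_div_two]
  have cm : Complex.exp (ph (w - ζ + 1 / 2)) = 2 * Complex.cos (Real.pi * (w - ζ)) := by
    rw [exp_ph h.hm, show (Real.pi * (w - ζ + 1 / 2) : ℂ) = Real.pi * (w - ζ) + Real.pi / 2 by ring,
      Complex.sin_add_pi_div_two]
  set C := Complex.cos (Real.pi * w) with hC
  set S := Complex.sin (Real.pi * w) with hSd
  set c := Complex.cos (Real.pi * ζ) with hcd
  set s := Complex.sin (Real.pi * ζ) with hsd
  have q1 : C ^ 2 + S ^ 2 = 1 := Complex.cos_sq_add_sin_sq _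
  have q2 : c ^ 2 + s ^ 2 = 1 := Complex.cos_sq_add_sin_sq _
  have ep : Complex.cos (Real.pi * (w + ζ)) = C * c - S * s := by
    rw [mul_add, Complex.cos_add]
  have em : Complex.cos (Real.pi * (w - ζ)) = C * c + S * s := by
    rw [mul_sub, Complex.cos_sub]
  have np : C * c - S * s ≠ 0 := by
    intro h2
    have := Complex.exp_ne_zero (ph (w + ζ + 1 / 2))
    rw [cp, ep, h2, mul_zero] at this
    exact this rfl
  have nm : C * c + S * s ≠ 0 := by
    intro h2
    have := Complex.exp_ne_zero (ph (w - ζ + 1 / 2))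
    rw [cm, em, h2, mul_zero] at this
    exact this rfl
  have e2P : Complex.exp (2 * P) * (C * c - S * s) = C * c + S * s := by
    have : 2 * P = ph (w - ζ + 1 / 2) - ph (w + ζ + 1 / 2) := by
      rw [hP, rP]
      ring
    rw [this, Complex.exp_sub, cp, cm, ep, em]
    field_simp
  -- the product of the two sines
  have prod : Complex.sin (rr0 b w ζ + ((0 : ℕ) : ℂ) * -(Real.pi * ζ)) *
      Complex.sin (rr0 b w ζ + (((0 : ℕ) : ℂ) + 1) * -(Real.pi * ζ)) * (2 * Complex.exp (2 * P)) =
      c * Complex.exp (2 * P) - ((c + s * Complex.I) + Complex.exp (2 * P) ^ 2 * (c - s * Complex.I)) / 2 := by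
    have e1 : rr0 b w ζ + ((0 : ℕ) : ℂ) * -(Real.pi * ζ) = -(Complex.I * P) := by
      rw [hr]
      push_cast
      ring
    have e2 : rr0 b w ζ + (((0 : ℕ) : ℂ) + 1) * -(Real.pi * ζ) = -(Complex.I * P) - Real.pi * ζ := by
      rw [hr]
      push_cast
      ring
    rw [e1, e2]
    set y := Complex.exp P with hy
    have hy0 : y ≠ 0 := Complex.exp_ne_zero _
    have y2 : Complex.exp (2 * P) = y ^ 2 := by
      rw [hy, ← Complex.exp_nat_mul]
      push_cast
      rfl
    have s1 : Complex.sin (-(Complex.I * P)) = -(y - y⁻¹) / 2 * Complex.I := by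
      rw [Complex.sin_neg, mul_comm Complex.I P, Complex.sin_mul_I, Complex.sinh, hy, Complex.exp_neg]
      ring
    have c1 : Complex.cos (-(Complex.I * P)) = (y + y⁻¹) / 2 := by
      rw [Complex.cos_neg, mul_comm Complex.I P, Complex.cos_mul_I, Complex.cosh, hy, Complex.exp_neg]
    rw [Complex.sin_sub, s1, c1, y2, ← hcd, ← hsd]
    field_simp
    ring_nf
    simp only [Complex.I_sq]
    ring
  set A := Complex.sin (rr0 b w ζ + ((0 : ℕ) : ℂ) * -(Real.pi * ζ)) with hA
  set B := Complex.sin (rr0 b w ζ + (((0 : ℕ) : ℂ) + 1) * -(Real.pi * ζ)) with hB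
  set E := Complex.exp (2 * P) with hE
  have hE0 : E ≠ 0 := Complex.exp_ne_zero _
  have hEd : E = (C * c + S * s) / (C * c - S * s) := by
    rw [eq_div_iff np]
    exact e2P
  have hI := Complex.I_sq
  have hAB : A * B * ((C * c + S * s) * (C * c - S * s)) =
      Complex.I * c * s ^ 2 * S * (C + Complex.I * S) := by
    have k1 : A * B * (2 * (E * (C * c - S * s))) * (C * c - S * s) =
        c * (E * (C * c - S * s)) * (C * c - S * s) - ((c + s * Complex.I) * (C * c - S * s) ^ 2 +
          (E * (C * c - S * s)) ^ 2 * (c - s * Complex.I)) / 2 := by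
      linear_combination (C * c - S * s) ^ 2 * prod
    rw [e2P] at k1
    linear_combination k1 / 2 - c * s ^ 2 * S ^ 2 * hI
  have hsn : Complex.sin (-(Real.pi * ζ)) ^ 2 * Complex.cos (-(Real.pi * ζ)) = s ^ 2 * c := by
    rw [Complex.sin_neg, Complex.cos_neg, neg_sq]
  have hDD : (C * c + S * s) * (C * c - S * s) = c ^ 2 - S ^ 2 := by
    linear_combination c ^ 2 * q1 - S ^ 2 * q2
  rw [hDD] at hAB
  have hCS : (C + Complex.I * S) * (C - Complex.I * S) = 1 := by
    linear_combination q1 - S ^ 2 * hI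
  have hq : 2 * (s ^ 2 * c) / (A * B) = -(2 * Complex.I * (C - Complex.I * S) / S * (c ^ 2 - S ^ 2)) := by
    rw [div_eq_iff (mul_ne_zero a1 a2)]
    field_simp
    linear_combination Complex.I * (C - Complex.I * S) * hAB +
      Complex.I ^ 2 * c * s ^ 2 * S * hCS + c * s ^ 2 * S * hI
  have hct : 1 + ct w ^ 2 = 1 / S ^ 2 := by
    unfold ct
    rw [← hC, ← hSd]
    field_simp
    linear_combination q1
  have e5 : 2 * Complex.sin (-(Real.pi * ζ)) ^ 2 * Complex.cos (-(Real.pi * ζ)) = 2 * (s ^ 2 * c) := by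
    linear_combination 2 * hsn
  rw [e5, hq, hct]
  unfold ct
  rw [← hC, ← hSd]
  field_simp
  linear_combination -(2 * S * (c ^ 2 - S ^ 2)) * hI

/-- conjugation exchanges `b` and `-b` -/
theorem rC_conj {b : ℤ} (hb : b < 0) (w ζ : ℂ) (hw : w - ζ + 1 / 2 ∈ strip)
    (hw' : w + ζ + 1 / 2 ∈ strip) (l : ℕ) :
    rC b w ζ l = (starRingEnd ℂ) (rC (-b) ((starRingEnd ℂ) w) (-(starRingEnd ℂ) ζ) l) := by
  have hb' : ¬0 < b := by omega
  have hb2 : 0 < -b := by omega
  have hP : rP ((starRingEnd ℂ) w) (-(starRingEnd ℂ) ζ) = -(starRingEnd ℂ) (rP w ζ) := by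
    have e1 : (starRingEnd ℂ) w - -(starRingEnd ℂ) ζ + 1 / 2 = (starRingEnd ℂ) (w + ζ + 1 / 2) := by
      simp [Complex.conj_ofNat]
    have e2 : (starRingEnd ℂ) w + -(starRingEnd ℂ) ζ + 1 / 2 = (starRingEnd ℂ) (w - ζ + 1 / 2) := by
      simp [sub_eq_add_neg, Complex.conj_ofNat]
    unfold rP
    rw [e1, e2, ph_conj hw, ph_conj hw', map_div₀, map_sub, Complex.conj_ofNat]
    ring
  unfold rC rr0 rU
  rw [if_neg hb', if_pos hb2, hP]
  simp only [map_neg, map_div₀, ← Complex.sin_conj, map_add, map_mul, map_sub, map_one,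
    Complex.conj_I, Complex.conj_ofReal, map_natCast, Complex.conj_conj]
  have e1 : -(-Complex.I * -rP w ζ) + (l + 1) * -(Real.pi * -ζ) = -(Complex.I * rP w ζ + (l + 1) * -(Real.pi * ζ)) := by
    ring
  have e2 : -(-Complex.I * -rP w ζ) + (l - 1) * -(Real.pi * -ζ) = -(Complex.I * rP w ζ + (l - 1) * -(Real.pi * ζ)) := by
    ring
  rw [e1, e2, Complex.sin_neg, Complex.sin_neg, neg_div_neg_eq]

end Pool.Agent.Work.MP_b30479_gt.G2
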