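import Pool.Agent.Work.MP_b30479_gt.G2.GeoDefs
import Pool.Agent.Work.MP_b30479_gt.G2.BWSeven

/-!
# The tetrahedra of a twist region with a ring variable

`Z = e^{2πiζ}`, `u = -πζ`, `φ_l = φ_0 + l u`, `U_l = -sin φ_{l+1} / sin φ_{l-1}`; all identities come
from `sin φ_l sin φ_{l+1} - sin φ_{l-1} sin φ_{l+2} = 2 sin² u cos u` and
`e^{2P} = cos π(w - ζ) / cos π(w + ζ)`, `φ_0 = ∓ i P`.  The chain read from the other end is
`1 / U_{|b| - l}` (`rU_refl`).
-/

namespace Pool.Agent.Work.MP_b30479_gt.G2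

open Finset VOL
open Pool.Agent.Work.MP_b30479_gt.LT (ee BW)

/-- the chain of a ring -/
noncomputable def rU (φ0 u : ℂ) (l : ℕ) : ℂ :=
  -(Complex.sin (φ0 + (l + 1) * u) / Complex.sin (φ0 + (l - 1) * u))

lemma sin_four (φ u : ℂ) : Complex.sin φ * Complex.sin (φ + u) -
    Complex.sin (φ - u) * Complex.sin (φ + 2 * u) = 2 * Complex.sin u ^ 2 * Complex.cos u := by
  rw [Complex.sin_add, Complex.sin_sub, Complex.sin_add, Complex.sin_two_mul, Complex.cos_two_mul]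
  linear_combination (-2 * Complex.sin φ ^ 2 * Complex.cos u) * (Complex.sin_sq_add_cos_sq u) +
    (2 * Complex.sin u ^ 2 * Complex.cos u) * (Complex.sin_sq_add_cos_sq φ)

/-- `sin (φ + u) + sin (φ - u) = 2 sin φ cos u` -/
lemma rg_sin_three (φ u : ℂ) : Complex.sin (φ + u) + Complex.sin (φ - u) =
    2 * Complex.sin φ * Complex.cos u := by
  rw [Complex.sin_add, Complex.sin_sub]; ring

lemma rU_sub_one {φ0 u : ℂ} {l : ℕ} (h : Complex.sin (φ0 + (l - 1) * u) ≠ 0) :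
    rU φ0 u l - 1 = -(2 * Complex.sin (φ0 + l * u) * Complex.cos u /
      Complex.sin (φ0 + (l - 1) * u)) := by
  have h3 := rg_sin_three (φ0 + l * u) u
  rw [show φ0 + (l : ℂ) * u + u = φ0 + (l + 1) * u by ring,
    show φ0 + (l : ℂ) * u - u = φ0 + (l - 1) * u by ring] at h3
  unfold rU
  generalize Complex.sin (φ0 + (l + 1) * u) = A at *
  generalize Complex.sin (φ0 + (l - 1) * u) = B at *
  generalize Complex.sin (φ0 + l * u) = C at *
  field_simp
  linear_combination -h3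

lemma rU_sub {φ0 u : ℂ} {l : ℕ} (h0 : Complex.sin (φ0 + (l - 1) * u) ≠ 0)
    (h1 : Complex.sin (φ0 + l * u) ≠ 0) :
    rU φ0 u (l + 1) - rU φ0 u l = 2 * Complex.sin u ^ 2 * Complex.cos u /
      (Complex.sin (φ0 + l * u) * Complex.sin (φ0 + (l - 1) * u)) := by
  have h3 := sin_four (φ0 + l * u) u
  rw [show φ0 + (l : ℂ) * u + u = φ0 + (l + 1) * u by ring,
    show φ0 + (l : ℂ) * u - u = φ0 + (l - 1) * u by ring,
    show φ0 + (l : ℂ) * u + 2 * u = φ0 + (l + 1 + 1) * u by ring] at h3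
  unfold rU
  push_cast
  rw [show (l : ℂ) + 1 - 1 = l by ring, ← h3]
  generalize Complex.sin (φ0 + (l + 1) * u) = A at *
  generalize Complex.sin (φ0 + (l - 1) * u) = B at *
  generalize Complex.sin (φ0 + l * u) = C at *
  generalize Complex.sin (φ0 + (l + 1 + 1) * u) = D at *
  field_simp
  ring

lemma rU_mob {φ0 u : ℂ} {l : ℕ} (hc : Complex.cos u ≠ 0)
    (h : Complex.sin (φ0 + (l - 1) * u) ≠ 0) :
    mob (Complex.exp (-(2 * Complex.I * u))) (rU φ0 u l) = rU φ0 u (l + 1) := by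
  have hZ : 1 + Complex.exp (-(2 * Complex.I * u)) + (Complex.exp (-(2 * Complex.I * u)))⁻¹ =
      1 + 2 * Complex.cos (2 * u) := by
    rw [← Complex.exp_neg, neg_neg, Complex.cos]
    rw [show 2 * u * Complex.I = 2 * Complex.I * u by ring,
      show -(2 * u) * Complex.I = -(2 * Complex.I * u) by ring]
    ring
  have h1 := rg_sin_three (φ0 + (l + 1) * u) (2 * u)
  have h2 := rg_sin_three (φ0 + (l + 1 + 1) * u) u
  rw [show φ0 + ((l : ℂ) + 1) * u - 2 * u = φ0 + (l - 1) * u by ring] at h1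
  rw [show φ0 + ((l : ℂ) + 1 + 1) * u + u = φ0 + (l + 1) * u + 2 * u by ring,
    show φ0 + ((l : ℂ) + 1 + 1) * u - u = φ0 + (l + 1) * u by ring] at h2
  unfold mob
  rw [rU_sub_one h, hZ]
  unfold rU
  push_cast
  rw [show (l : ℂ) + 1 - 1 = l by ring]
  generalize Complex.sin (φ0 + (l + 1) * u + 2 * u) = E at *
  generalize Complex.sin (φ0 + (l + 1) * u) = A at *
  generalize Complex.sin (φ0 + (l - 1) * u) = B at *
  generalize Complex.sin (φ0 + l * u) = C at *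
  generalize Complex.sin (φ0 + (l + 1 + 1) * u) = D at *
  generalize Complex.cos (2 * u) = c2 at *
  generalize Complex.cos u = c at *
  have hn : (1 + 2 * c2) * -(A / B) + 1 = -(2 * D * c / B) := by
    field_simp
    linear_combination h1 - h2
  rw [hn]
  by_cases hC : C = 0
  · simp [hC]
  · field_simp

lemma rU_edge {φ0 u : ℂ} {l : ℕ} (h0 : Complex.sin (φ0 + (l - 1) * u) ≠ 0)
    (h1 : Complex.sin (φ0 + l * u) ≠ 0) (h2 : Complex.sin (φ0 + (l + 1) * u) ≠ 0) :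
    (rU φ0 u (l + 2) - rU φ0 u (l + 1)) * rU φ0 u l = -(rU φ0 u (l + 1) - rU φ0 u l) := by
  have e1 : ((l + 1 : ℕ) : ℂ) - 1 = l := by push_cast; ring
  have e2 : ((l + 1 : ℕ) : ℂ) = l + 1 := by push_cast; ring
  rw [rU_sub h0 h1, rU_sub (l := l + 1) (by rw [e1]; exact h1) (by rw [e2]; exact h2), e1, e2]
  unfold rU
  generalize Complex.sin (φ0 + (l + 1) * u) = A at *
  generalize Complex.sin (φ0 + (l - 1) * u) = B at *
  generalize Complex.sin (φ0 + l * u) = C at *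
  field_simp

lemma rU_shape {φ0 u : ℂ} {l : ℕ} (h1 : Complex.sin (φ0 + l * u) ≠ 0)
    (h2 : Complex.sin (φ0 + (l + 1) * u) ≠ 0) :
    rU φ0 u (l + 1) / rU φ0 u l = 1 - 2 * Complex.sin u ^ 2 * Complex.cos u /
      (Complex.sin (φ0 + l * u) * Complex.sin (φ0 + (l + 1) * u)) := by
  have h3 := sin_four (φ0 + l * u) u
  rw [show φ0 + (l : ℂ) * u + u = φ0 + (l + 1) * u by ring,
    show φ0 + (l : ℂ) * u - u = φ0 + (l - 1) * u by ring,
    show φ0 + (l : ℂ) * u + 2 * u = φ0 + (l + 1 + 1) * u by ring] at h3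
  unfold rU
  push_cast
  rw [show (l : ℂ) + 1 - 1 = l by ring, ← h3]
  generalize Complex.sin (φ0 + (l + 1) * u) = A at *
  generalize Complex.sin (φ0 + (l - 1) * u) = B at *
  generalize Complex.sin (φ0 + l * u) = C at *
  generalize Complex.sin (φ0 + (l + 1 + 1) * u) = D at *
  by_cases hB : B = 0
  · simp [hB, h1, h2]
  · field_simp
    ring

/-- the phase of a hinge -/
noncomputable def rP (w ζ : ℂ) : ℂ := (ph (w - ζ + 1 / 2) - ph (w + ζ + 1 / 2)) / 2

/-- the initial phase -/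
noncomputable def rr0 (b : ℤ) (w ζ : ℂ) : ℂ :=
  if 0 < b then -(Complex.I * rP w ζ) else Complex.I * rP w ζ

/-- the chain of the twist region -/
noncomputable def rC (b : ℤ) (w ζ : ℂ) : ℕ → ℂ := rU (rr0 b w ζ) (-(Real.pi * ζ))

/-- a hinge of a ring -/
structure RHg (w ζ : ℂ) : Prop where
  hw : w ∈ strip
  hp : w + ζ + 1 / 2 ∈ strip
  hm : w - ζ + 1 / 2 ∈ strip
  sz : Complex.sin (2 * Real.pi * ζ) ≠ 0

/-- no degenerate tetrahedra -/
def Nv (b : ℤ) (w ζ : ℂ) : Prop :=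
  ∀ k : ℕ, k < b.natAbs → Complex.sin (rr0 b w ζ + k * -(Real.pi * ζ)) ≠ 0

variable {b : ℤ} {w w' ζ : ℂ}

/-- `a = e^{iπw}`, `z = e^{iπζ}`, `p = e^P` -/
structure AZP (w ζ a z p : ℂ) : Prop where
  a0 : a ≠ 0
  z0 : z ≠ 0
  p0 : p ≠ 0
  z4 : z ^ 4 ≠ 1
  a2 : a ^ 2 = ee w
  aa : a ^ 2 ≠ 1
  rel : p ^ 2 * (a ^ 2 * z ^ 2 + 1) = a ^ 2 + z ^ 2
  s1 : Complex.sin (Real.pi * ζ - Complex.I * rP w ζ) = (z * p - (z * p)⁻¹) / (2 * Complex.I)
  s2 : Complex.sin (Real.pi * ζ + Complex.I * rP w ζ) = (z / p - (z / p)⁻¹) / (2 * Complex.I)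
  s3 : Complex.sin (Complex.I * rP w ζ) = (p⁻¹ - p) / (2 * Complex.I)
  s4 : Complex.sin (Real.pi * ζ) = (z - z⁻¹) / (2 * Complex.I)
  rhs : Complex.exp (ph (w + ζ + 1 / 2) + ph (w - ζ + 1 / 2) - 2 * ph w) =
    -((a * z + (a * z)⁻¹) * (a / z + z / a) / (a - a⁻¹) ^ 2)

lemma rg_sin_exp (x : ℂ) : Complex.sin x = (Complex.exp (x * Complex.I) -
    (Complex.exp (x * Complex.I))⁻¹) / (2 * Complex.I) := by
  rw [← Complex.exp_neg, Complex.sin]
  have hI := Complex.I_ne_zero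
  field_simp
  rw [Complex.I_sq]
  ring

lemma exp_ph_half {v : ℂ} (hv : v + 1 / 2 ∈ strip) : Complex.exp (ph (v + 1 / 2)) =
    Complex.exp (Real.pi * v * Complex.I) + (Complex.exp (Real.pi * v * Complex.I))⁻¹ := by
  rw [exp_ph hv, mul_add, show (Real.pi : ℂ) * (1 / 2) = Real.pi / 2 by ring,
    Complex.sin_add_pi_div_two, Complex.cos, ← Complex.exp_neg, neg_mul]
  ring

lemma azp (h : RHg w ζ) : ∃ a z p, AZP w ζ a z p := by
  have hp := exp_ph_half (v := w + ζ) h.hp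
  have hm := exp_ph_half (v := w - ζ) h.hm
  have hC := exp_ph h.hw
  have ep : Complex.exp (Real.pi * (w + ζ) * Complex.I) =
      Complex.exp (Real.pi * w * Complex.I) * Complex.exp (Real.pi * ζ * Complex.I) := by
    rw [← Complex.exp_add]; congr 1; ring
  have em : Complex.exp (Real.pi * (w - ζ) * Complex.I) =
      Complex.exp (Real.pi * w * Complex.I) / Complex.exp (Real.pi * ζ * Complex.I) := by
    rw [← Complex.exp_sub]; congr 1; ring
  have hw0 := sin_pi_ne h.hw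
  have ha0 : Complex.exp (Real.pi * w * Complex.I) ≠ 0 := Complex.exp_ne_zero _
  have hz0 : Complex.exp (Real.pi * ζ * Complex.I) ≠ 0 := Complex.exp_ne_zero _
  have hI := Complex.I_ne_zero
  rw [rg_sin_exp] at hC hw0
  have hsz := h.sz
  rw [rg_sin_exp, show 2 * (Real.pi : ℂ) * ζ * Complex.I = (2 : ℕ) * (Real.pi * ζ * Complex.I) by
    push_cast; ring, Complex.exp_nat_mul] at hsz
  have hp2 : Complex.exp (rP w ζ) ^ 2 * Complex.exp (ph (w + ζ + 1 / 2)) =
      Complex.exp (ph (w - ζ + 1 / 2)) := by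
    rw [← Complex.exp_nat_mul, ← Complex.exp_add]
    congr 1
    unfold rP
    push_cast
    ring
  have hR : Complex.exp (ph (w + ζ + 1 / 2) + ph (w - ζ + 1 / 2) - 2 * ph w) =
      Complex.exp (ph (w + ζ + 1 / 2)) * Complex.exp (ph (w - ζ + 1 / 2)) /
        Complex.exp (ph w) ^ 2 := by
    rw [Complex.exp_sub, Complex.exp_add, ← Complex.exp_nat_mul]
    push_cast
    rfl
  refine ⟨Complex.exp (Real.pi * w * Complex.I), Complex.exp (Real.pi * ζ * Complex.I),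
    Complex.exp (rP w ζ), Complex.exp_ne_zero _, Complex.exp_ne_zero _, Complex.exp_ne_zero _,
    ?_, ?_, ?_, ?_, ?_, ?_, ?_, ?_, ?_⟩
  · intro h4
    apply hsz
    generalize Complex.exp (Real.pi * ζ * Complex.I) = z at *
    have : z ^ 2 - (z ^ 2)⁻¹ = 0 := by
      field_simp
      linear_combination h4
    rw [this, zero_div]
  · rw [← Complex.exp_nat_mul]
    unfold ee
    congr 1
    push_cast
    ring
  · intro h2
    apply hw0
    generalize Complex.exp (Real.pi * w * Complex.I) = a at *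
    have : a - a⁻¹ = 0 := by
      field_simp
      linear_combination h2
    rw [this, zero_div]
  · rw [hp, hm, ep, em] at hp2
    generalize Complex.exp (Real.pi * w * Complex.I) = a at *
    generalize Complex.exp (Real.pi * ζ * Complex.I) = z at *
    generalize Complex.exp (rP w ζ) = p at *
    field_simp at hp2
    linear_combination hp2
  · rw [rg_sin_exp, ← Complex.exp_add]
    have : (Real.pi * ζ - Complex.I * rP w ζ) * Complex.I = Real.pi * ζ * Complex.I + rP w ζ := by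
      linear_combination (-rP w ζ) * Complex.I_mul_I
    rw [this]
  · rw [rg_sin_exp, ← Complex.exp_sub]
    have : (Real.pi * ζ + Complex.I * rP w ζ) * Complex.I = Real.pi * ζ * Complex.I - rP w ζ := by
      linear_combination (rP w ζ) * Complex.I_mul_I
    rw [this]
  · rw [rg_sin_exp]
    have : Complex.I * rP w ζ * Complex.I = - rP w ζ := by
      linear_combination (rP w ζ) * Complex.I_mul_I
    rw [this, Complex.exp_neg, inv_inv]
  · rw [rg_sin_exp]
  · rw [hR, hp, hm, hC, ep, em]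
    generalize Complex.exp (Real.pi * w * Complex.I) = a at *
    generalize Complex.exp (Real.pi * ζ * Complex.I) = z at *
    have h1 : (2 * ((a - a⁻¹) / (2 * Complex.I))) ^ 2 = -(a - a⁻¹) ^ 2 := by
      rw [mul_pow, div_pow, mul_pow, Complex.I_sq]
      ring
    rw [h1, inv_div, div_neg]

namespace AZP

variable {a z p : ℂ}

lemma sm (h : AZP w ζ a z p) : Complex.sin (Real.pi * ζ - Complex.I * rP w ζ) ≠ 0 := by
  obtain ⟨a0, z0, p0, z4, a2, aa, rel, s1, s2, s3, s4, rhs⟩ := h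
  rw [s1]
  refine div_ne_zero ?_ (mul_ne_zero two_ne_zero Complex.I_ne_zero)
  intro h
  apply z4
  have h1 : z ^ 2 * p ^ 2 = 1 := by
    field_simp at h
    linear_combination h
  linear_combination (a ^ 2 * z ^ 2 + 1) * h1 - z ^ 2 * rel

lemma sp (h : AZP w ζ a z p) : Complex.sin (Real.pi * ζ + Complex.I * rP w ζ) ≠ 0 := by
  obtain ⟨a0, z0, p0, z4, a2, aa, rel, s1, s2, s3, s4, rhs⟩ := h
  rw [s2]
  refine div_ne_zero ?_ (mul_ne_zero two_ne_zero Complex.I_ne_zero)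
  intro h
  apply z4
  have h1 : z ^ 2 = p ^ 2 := by
    rw [inv_div] at h
    field_simp at h
    linear_combination h
  have h2 : a ^ 2 * (z ^ 4 - 1) = 0 := by
    linear_combination rel + (a ^ 2 * z ^ 2 + 1) * h1
  have h3 := (mul_eq_zero.1 h2).resolve_left (pow_ne_zero 2 a0)
  linear_combination h3

lemma quot (h : AZP w ζ a z p) : Complex.sin (Real.pi * ζ + Complex.I * rP w ζ) =
    ee w * Complex.sin (Real.pi * ζ - Complex.I * rP w ζ) := by
  obtain ⟨a0, z0, p0, z4, a2, aa, rel, s1, s2, s3, s4, rhs⟩ := h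
  rw [s2, s1, ← a2, ← mul_div_assoc]
  congr 1
  rw [inv_div]
  field_simp
  linear_combination -rel

lemma s30 (h : AZP w ζ a z p) : Complex.sin (Complex.I * rP w ζ) ≠ 0 := by
  obtain ⟨a0, z0, p0, z4, a2, aa, rel, s1, s2, s3, s4, rhs⟩ := h
  rw [s3]
  refine div_ne_zero ?_ (mul_ne_zero two_ne_zero Complex.I_ne_zero)
  intro h
  have h1 : p ^ 2 = 1 := by
    field_simp at h
    linear_combination -h
  have h2 : (a ^ 2 - 1) * (z ^ 2 - 1) = 0 := by
    linear_combination rel - (a ^ 2 * z ^ 2 + 1) * h1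
  rcases mul_eq_zero.1 h2 with h3 | h3
  · exact aa (by linear_combination h3)
  · exact z4 (by linear_combination (z ^ 2 + 1) * h3)

lemma main (h : AZP w ζ a z p) :
    Complex.exp (ph (w + ζ + 1 / 2) + ph (w - ζ + 1 / 2) - 2 * ph w) =
      -(Complex.sin (Real.pi * ζ) ^ 2 / Complex.sin (Complex.I * rP w ζ) ^ 2) := by
  have h30 := h.s30
  obtain ⟨a0, z0, p0, z4, a2, aa, rel, s1, s2, s3, s4, rhs⟩ := h
  rw [s3] at h30
  have hI := Complex.I_ne_zero
  have hp : p⁻¹ - p ≠ 0 := fun h => h30 (by rw [h, zero_div])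
  have ha : a - a⁻¹ ≠ 0 := by
    intro h
    apply aa
    field_simp at h
    linear_combination h
  rw [rhs, s3, s4, div_pow, div_pow, div_div_div_cancel_right₀ (pow_ne_zero 2 (mul_ne_zero two_ne_zero hI))]
  rw [neg_inj, div_eq_div_iff (pow_ne_zero 2 ha) (pow_ne_zero 2 hp)]
  field_simp
  linear_combination (-(1 - p ^ 2) ^ 2 * (a ^ 2 * z ^ 2 + 1) - p ^ 2 * (2 * (a ^ 2 * z ^ 2 + 1) -
    p ^ 2 * (a ^ 2 * z ^ 2 + 1) - (a ^ 2 + z ^ 2))) * rel

end AZP

lemma rr0_pos (hb : 0 < b) : rr0 b w ζ = -(Complex.I * rP w ζ) := if_pos hb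

lemma r0_neg (hb : ¬ 0 < b) : rr0 b w ζ = Complex.I * rP w ζ := if_neg hb

lemma sin_r0_pred (h : RHg w ζ) : Complex.sin (rr0 b w ζ - -(Real.pi * ζ)) ≠ 0 := by
  obtain ⟨a, z, p, hz⟩ := azp h
  by_cases hb : 0 < b
  · rw [rr0_pos hb, show -(Complex.I * rP w ζ) - -(Real.pi * ζ) = Real.pi * ζ - Complex.I * rP w ζ by
      ring]
    exact hz.sm
  · rw [r0_neg hb, show Complex.I * rP w ζ - -(Real.pi * ζ) = Real.pi * ζ + Complex.I * rP w ζ by
      ring]
    exact hz.sp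

lemma sin_r0_pred' (h : RHg w ζ) :
    Complex.sin (rr0 b w ζ + (((0 : ℕ) : ℂ) - 1) * -(Real.pi * ζ)) ≠ 0 := by
  have := sin_r0_pred (b := b) h
  rwa [show rr0 b w ζ - -(Real.pi * ζ) = rr0 b w ζ + (((0 : ℕ) : ℂ) - 1) * -(Real.pi * ζ) by
    push_cast; ring] at this

lemma rg_ee_ne (w : ℂ) : ee w ≠ 0 := Complex.exp_ne_zero _

lemma rC_zero (h : RHg w ζ) : rC b w ζ 0 = hat b (ee w) := by
  obtain ⟨a, z, p, hz⟩ := azp h
  unfold rC rU hat
  by_cases hb : 0 < b
  · rw [if_pos hb, rr0_pos hb]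
    rw [show -(Complex.I * rP w ζ) + (((0 : ℕ) : ℂ) + 1) * -(Real.pi * ζ) =
      -(Real.pi * ζ + Complex.I * rP w ζ) by push_cast; ring,
      show -(Complex.I * rP w ζ) + (((0 : ℕ) : ℂ) - 1) * -(Real.pi * ζ) =
      Real.pi * ζ - Complex.I * rP w ζ by push_cast; ring, Complex.sin_neg, neg_div, neg_neg,
      hz.quot, mul_div_assoc, div_self hz.sm, mul_one]
  · rw [if_neg hb, r0_neg hb]
    rw [show Complex.I * rP w ζ + (((0 : ℕ) : ℂ) + 1) * -(Real.pi * ζ) =
      -(Real.pi * ζ - Complex.I * rP w ζ) by push_cast; ring,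
      show Complex.I * rP w ζ + (((0 : ℕ) : ℂ) - 1) * -(Real.pi * ζ) =
      Real.pi * ζ + Complex.I * rP w ζ by push_cast; ring, Complex.sin_neg, neg_div, neg_neg,
      hz.quot]
    have := hz.sm
    have := rg_ee_ne w
    rw [div_mul_eq_div_div_swap, div_self hz.sm, one_div]

lemma hat_ee_ne (b : ℤ) (w : ℂ) : hat b (ee w) ≠ 0 := by
  unfold hat
  split_ifs
  · exact rg_ee_ne w
  · exact inv_ne_zero (rg_ee_ne w)

lemma natAbs_cast_pos (h : 0 < b) : ((b.natAbs : ℕ) : ℂ) = b := by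
  rw [← Int.cast_natCast, Int.natAbs_of_nonneg h.le]

lemma natAbs_cast_neg (h : ¬ 0 < b) : ((b.natAbs : ℕ) : ℂ) = -b := by
  rw [← Int.cast_natCast, Int.ofNat_natAbs_of_nonpos (not_lt.1 h), Int.cast_neg]

/-- reflection of the phases -/
lemma phase_refl (hb : b ≠ 0) (he : rP w ζ + rP w' ζ = Real.pi * Complex.I * (b * ζ + 1)) (k : ℂ) :
    Complex.sin (rr0 b w ζ + ((b.natAbs : ℂ) - k) * -(Real.pi * ζ)) =
      Complex.sin (rr0 b w' ζ + k * -(Real.pi * ζ)) := by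
  by_cases h : 0 < b
  · have hn := natAbs_cast_pos h
    rw [rr0_pos h, rr0_pos h, hn, ← Complex.sin_pi_sub]
    congr 1
    linear_combination (Complex.I) * he + (Real.pi * (b * ζ + 1)) * Complex.I_mul_I
  · have hn := natAbs_cast_neg h
    rw [r0_neg h, r0_neg h, hn]
    have h1 : Complex.I * rP w ζ + (-(b : ℂ) - k) * -(Real.pi * ζ) =
        -((Complex.I * rP w' ζ + k * -(Real.pi * ζ)) + Real.pi) := by
      linear_combination (Complex.I) * he + (Real.pi * (b * ζ + 1)) * Complex.I_mul_I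
    rw [h1, Complex.sin_neg, Complex.sin_add_pi, neg_neg]

lemma rC_refl (hb : b ≠ 0) (he : rP w ζ + rP w' ζ = Real.pi * Complex.I * (b * ζ + 1)) {l : ℕ}
    (hl : l ≤ b.natAbs) : rC b w ζ (b.natAbs - l) = (rC b w' ζ l)⁻¹ := by
  unfold rC rU
  rw [Nat.cast_sub hl, show (b.natAbs : ℂ) - l + 1 = b.natAbs - (l - 1) by ring,
    show (b.natAbs : ℂ) - l - 1 = b.natAbs - (l + 1) by ring, phase_refl hb he, phase_refl hb he,
    inv_neg, inv_div]

/-- the phases do not vanish -/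
lemma rC_sin_ne (h : RHg w ζ) (hn : Nv b w ζ) {l : ℕ} (hl : l ≤ b.natAbs) :
    Complex.sin (rr0 b w ζ + ((l : ℂ) - 1) * -(Real.pi * ζ)) ≠ 0 := by
  rcases Nat.eq_zero_or_pos l with rfl | hl0
  · exact sin_r0_pred' h
  · have h1 := hn (l - 1) (by omega)
    rwa [Nat.cast_sub hl0, Nat.cast_one] at h1

lemma rC_edge (h : RHg w ζ) (hn : Nv b w ζ) {l : ℕ} (hl : l + 2 ≤ b.natAbs) :
    (rC b w ζ (l + 2) - rC b w ζ (l + 1)) * rC b w ζ l = -(rC b w ζ (l + 1) - rC b w ζ l) := by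
  refine rU_edge (rC_sin_ne h hn (by omega)) (hn l (by omega)) ?_
  have := hn (l + 1) (by omega)
  rwa [Nat.cast_add, Nat.cast_one] at this

theorem ring_run (hb : b ≠ 0) (h : RHg w ζ) (h' : RHg w' ζ)
    (he : rP w ζ + rP w' ζ = Real.pi * Complex.I * (b * ζ + 1)) (hn : Nv b w ζ) :
    Run b (ee w) (ee w') (rC b w ζ) := by
  refine ⟨rC_zero h, ?_, fun l hl => rC_edge h hn hl⟩
  have h1 := rC_refl hb he (l := 0) (Nat.zero_le _)
  rw [Nat.sub_zero, rC_zero h'] at h1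
  rw [h1, inv_mul_cancel₀ (hat_ee_ne b w')]

/-- the phase at the end -/
lemma rC_sin_end (hb : b ≠ 0) (he : rP w ζ = Real.pi * Complex.I * (b * ζ + 1)) :
    Complex.sin (rr0 b w ζ + (b.natAbs : ℂ) * -(Real.pi * ζ)) = 0 := by
  by_cases h : 0 < b
  · have hn := natAbs_cast_pos h
    rw [rr0_pos h, hn, he]
    have : -(Complex.I * (Real.pi * Complex.I * (b * ζ + 1))) + (b : ℂ) * -(Real.pi * ζ) =
        Real.pi := by
      linear_combination (-Real.pi * (b * ζ + 1)) * Complex.I_mul_I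
    rw [this, Complex.sin_pi]
  · have hn := natAbs_cast_neg h
    rw [r0_neg h, hn, he]
    have : Complex.I * (Real.pi * Complex.I * (b * ζ + 1)) + (-b : ℂ) * -(Real.pi * ζ) =
        -Real.pi := by
      linear_combination (Real.pi * (b * ζ + 1)) * Complex.I_mul_I
    rw [this, Complex.sin_neg, Complex.sin_pi, neg_zero]

lemma rC_end (hb : 2 ≤ b.natAbs) (he : rP w ζ = Real.pi * Complex.I * (b * ζ + 1)) :
    rC b w ζ (b.natAbs - 1) = 0 := by
  have hb0 : b ≠ 0 := by rintro rfl; simp at hb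
  unfold rC rU
  rw [Nat.cast_sub (by omega), Nat.cast_one, sub_add_cancel, rC_sin_end hb0 he, zero_div, neg_zero]

theorem ring_end (hb : 2 ≤ b.natAbs) (h : RHg w ζ)
    (he : rP w ζ = Real.pi * Complex.I * (b * ζ + 1)) (hn : Nv b w ζ) :
    EndRun b (ee w) (rC b w ζ) :=
  ⟨rC_zero h, rC_end hb he, fun l hl => rC_edge h hn (by omega)⟩

lemma rg_cos_ne (h : RHg w ζ) : Complex.cos (-(Real.pi * ζ)) ≠ 0 := by
  have hs := h.sz
  rw [show 2 * (Real.pi : ℂ) * ζ = 2 * (Real.pi * ζ) by ring, Complex.sin_two_mul] at hs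
  rw [Complex.cos_neg]
  exact right_ne_zero_of_mul hs

lemma rg_sin_u_ne (h : RHg w ζ) : Complex.sin (Real.pi * ζ) ≠ 0 := by
  have hs := h.sz
  rw [show 2 * (Real.pi : ℂ) * ζ = 2 * (Real.pi * ζ) by ring, Complex.sin_two_mul] at hs
  exact right_ne_zero_of_mul (left_ne_zero_of_mul hs)

lemma sin_r0_sq : Complex.sin (rr0 b w ζ) ^ 2 = Complex.sin (Complex.I * rP w ζ) ^ 2 := by
  unfold rr0
  split_ifs
  · rw [Complex.sin_neg, neg_sq]
  · rfl

theorem ring_hf (h : RHg w ζ) : hf b (ee w) (rC b w ζ 1) =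
    Complex.exp (ph (w + ζ + 1 / 2) + ph (w - ζ + 1 / 2) - 2 * ph w) := by
  obtain ⟨a, z, p, hz⟩ := azp h
  have hc := rg_cos_ne h
  have hs := rg_sin_u_ne h
  have h0 : Complex.sin (rr0 b w ζ + ((0 : ℕ) : ℂ) * -(Real.pi * ζ)) ≠ 0 := by
    rw [Nat.cast_zero, zero_mul, add_zero]
    intro h0
    have := sin_r0_sq (b := b) (w := w) (ζ := ζ)
    rw [h0] at this
    exact hz.s30 (pow_eq_zero_iff two_ne_zero |>.1 (by rw [← this]; simp))
  have hp := sin_r0_pred' (b := b) h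
  rw [hz.main]
  unfold hf
  rw [← rC_zero h]
  unfold rC
  rw [rU_sub_one hp]
  have h1 := rU_sub (l := 0) hp h0
  rw [zero_add] at h1
  rw [h1, ← sin_r0_sq (b := b)]
  rw [Nat.cast_zero, zero_mul, add_zero] at h0 ⊢
  rw [Nat.cast_zero] at hp
  rw [Complex.sin_neg, neg_sq]
  generalize Complex.sin (rr0 b w ζ) = A at *
  generalize Complex.sin (rr0 b w ζ + (0 - 1) * -(Real.pi * ζ)) = B at *
  generalize Complex.cos (-(Real.pi * ζ)) = C at *
  generalize Complex.sin (Real.pi * ζ) = D at *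
  field_simp

theorem ring_hf' (hb : b ≠ 0) (h : RHg w' ζ)
    (he : rP w ζ + rP w' ζ = Real.pi * Complex.I * (b * ζ + 1)) :
    hf b (ee w') (rC b w ζ (b.natAbs - 1))⁻¹ =
      Complex.exp (ph (w' + ζ + 1 / 2) + ph (w' - ζ + 1 / 2) - 2 * ph w') := by
  have : 1 ≤ b.natAbs := Nat.one_le_iff_ne_zero.2 (Int.natAbs_ne_zero.2 hb)
  rw [rC_refl hb he this, inv_inv, ring_hf h]

lemma rC_mob (h : RHg w ζ) (hn : Nv b w ζ) {l : ℕ} (hl : l ≤ b.natAbs) :
    mob (ee ζ) (rC b w ζ l) = rC b w ζ (l + 1) := by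
  have h1 := rU_mob (rg_cos_ne h) (rC_sin_ne h hn hl)
  have h2 : Complex.exp (-(2 * Complex.I * -(Real.pi * ζ))) = ee ζ := by
    unfold ee
    congr 1
    ring
  rw [h2] at h1
  exact h1

/-- telescoping -/
lemma shp_vol (h : RHg w ζ) (hn : Nv b w ζ) {n : ℕ} (hm : n ≤ b.natAbs) :
    ∑ l ∈ range n, BW (shp b (rC b w ζ) l) =
      (if 0 < b then 1 else -1) * (gZ (ee ζ) (rC b w ζ 0) - gZ (ee ζ) (rC b w ζ n)) := by
  have h1 : ∀ l, l < n → BW (shp b (rC b w ζ) l) = (if 0 < b then 1 else -1) *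
      (gZ (ee ζ) (rC b w ζ l) - gZ (ee ζ) (rC b w ζ (l + 1))) := by
    intro l hl
    have h2 := rC_mob h hn (l := l) (by omega)
    have h3 := BW_seven (rg_ee_ne ζ) (rC b w ζ l)
    rw [h2] at h3
    unfold shp
    split_ifs with hb'
    · rw [h3, one_mul]
    · rw [h3, ← inv_div, BW_inv]
      ring
  rw [Finset.sum_congr rfl (fun l hl => h1 l (mem_range.1 hl)), ← Finset.mul_sum,
    Finset.sum_range_sub']

theorem ring_vol (hb : b ≠ 0) (h : RHg w ζ) (h' : RHg w' ζ)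
    (he : rP w ζ + rP w' ζ = Real.pi * Complex.I * (b * ζ + 1)) (hn : Nv b w ζ) :
    ∑ l ∈ range b.natAbs, BW (shp b (rC b w ζ) l) = gZ (ee ζ) (ee w) + gZ (ee ζ) (ee w') := by
  have h1 := rC_refl hb he (l := 0) (Nat.zero_le _)
  rw [Nat.sub_zero, rC_zero h'] at h1
  rw [shp_vol h hn le_rfl, h1, rC_zero h, gZ_inv]
  unfold hat
  split_ifs
  · ring
  · rw [gZ_inv, gZ_inv]; ring

theorem ring_vol_end (hb : 2 ≤ b.natAbs) (h : RHg w ζ)
    (he : rP w ζ = Real.pi * Complex.I * (b * ζ + 1)) (hn : Nv b w ζ) :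
    ∑ l ∈ range (b.natAbs - 2), BW (shp b (rC b w ζ) l) = gZ (ee ζ) (ee w) := by
  have hb0 : b ≠ 0 := by rintro rfl; simp at hb
  have h0 : BW 0 = 0 := by
    have := BW_real 0
    simpa using this
  have h1 : gZ (ee ζ) (rC b w ζ (b.natAbs - 2)) = 0 := by
    have h2 := rC_mob h hn (l := b.natAbs - 2) (by omega)
    rw [show b.natAbs - 2 + 1 = b.natAbs - 1 by omega, rC_end hb he] at h2
    have h3 := BW_seven (rg_ee_ne ζ) (rC b w ζ (b.natAbs - 2))
    rw [h2, zero_div, h0] at h3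
    have h4 : gZ (ee ζ) 0 = 0 := by
      unfold gZ
      simp [h0]
    linarith
  rw [shp_vol h hn (by omega), h1, rC_zero h, sub_zero]
  unfold hat
  split_ifs
  · ring
  · rw [gZ_inv]; ring

end Pool.Agent.Work.MP_b30479_gt.G2
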