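import Pool.Agent.Work.MP_b30479_gt.G2.ADat
import Pool.Agent.Work.MP_b30479_gt.G2.GeoRing

/-!
# Local computations for `GeoRun`: exponentials of the local derivatives, chains of length `≤ 3`
-/

namespace Pool.Agent.Work.MP_b30479_gt.G2

open Finset VOL
open Pool.Agent.Work.MP_b30479_gt.LT (ee BW)

/-- the sign of `b` -/
noncomputable def sgB (b : ℤ) : ℂ := if 0 < b then 1 else -1

/-- `e^{±πiw}` -/
noncomputable def aa (b : ℤ) (w : ℂ) : ℂ := Complex.exp (sgB b * (Real.pi * Complex.I * w))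

lemma sgB_sq (b : ℤ) : sgB b * sgB b = 1 := by
  unfold sgB
  split_ifs <;> norm_num

lemma aa_ne (b : ℤ) (w : ℂ) : aa b w ≠ 0 := Complex.exp_ne_zero _

lemma aa_add (b : ℤ) (w w' : ℂ) : aa b (w + w') = aa b w * aa b w' := by
  unfold aa
  rw [← Complex.exp_add]
  congr 1
  ring

lemma aa_sub (b : ℤ) (w w' : ℂ) : aa b (w - w') = aa b w / aa b w' := by
  unfold aa
  rw [← Complex.exp_sub]
  congr 1
  ring

lemma aa_zero (b : ℤ) : aa b 0 = 1 := by
  unfold aa
  simp

lemma hat_ee (b : ℤ) (w : ℂ) : hat b (ee w) = aa b w * aa b w := by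
  unfold hat aa ee sgB
  rw [← Complex.exp_add]
  split_ifs with h
  · congr 1
    ring
  · rw [← Complex.exp_neg]
    congr 1
    ring

lemma un_sgB (b : ℤ) : un b = sgB b * (Real.pi * Complex.I / 2) := by
  unfold un sgB
  rfl

lemma exp_un (b : ℤ) (w : ℂ) : Complex.exp (un b * (2 * w)) = aa b w := by
  rw [un_sgB, aa]
  congr 1
  ring

lemma exp_un_one (b : ℤ) : Complex.exp (un b) = sgB b * Complex.I := by
  rw [un_sgB, sgB]
  split_ifs
  · rw [show (1 : ℂ) * (Real.pi * Complex.I / 2) = Real.pi / 2 * Complex.I by ring,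
      Complex.exp_pi_div_two_mul_I, one_mul]
  · rw [show (-1 : ℂ) * (Real.pi * Complex.I / 2) = -(Real.pi / 2 * Complex.I) by ring,
      Complex.exp_neg, Complex.exp_pi_div_two_mul_I, Complex.inv_I]
    ring

lemma two_sin (b : ℤ) (w : ℂ) : 2 * Complex.sin (Real.pi * w) =
    sgB b * Complex.I * (1 - aa b w * aa b w) / aa b w := by
  have h0 := aa_ne b w
  rw [eq_div_iff h0, Complex.sin]
  unfold aa sgB
  split_ifs
  · have e1 : Complex.exp (-(Real.pi * w) * Complex.I) * Complex.exp (1 * (Real.pi * Complex.I * w)) = 1 := by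
      rw [← Complex.exp_add, show -(Real.pi * w) * Complex.I + 1 * (Real.pi * Complex.I * w) = 0 by ring,
        Complex.exp_zero]
    have e2 : Complex.exp (Real.pi * w * Complex.I) = Complex.exp (1 * (Real.pi * Complex.I * w)) := by
      congr 1
      ring
    rw [e2]
    linear_combination Complex.I * e1
  · have e1 : Complex.exp (Real.pi * w * Complex.I) * Complex.exp (-1 * (Real.pi * Complex.I * w)) = 1 := by
      rw [← Complex.exp_add, show Real.pi * w * Complex.I + -1 * (Real.pi * Complex.I * w) = 0 by ring,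
        Complex.exp_zero]
    have e2 : Complex.exp (-(Real.pi * w) * Complex.I) = Complex.exp (-1 * (Real.pi * Complex.I * w)) := by
      congr 1
      ring
    rw [e2]
    linear_combination -Complex.I * e1

lemma exp_ph' (b : ℤ) {w : ℂ} (h : w ∈ strip) : Complex.exp (ph w) =
    sgB b * Complex.I * (1 - aa b w * aa b w) / aa b w := by
  rw [exp_ph h, two_sin]

lemma one_sub_aa (b : ℤ) {w : ℂ} (h : w ∈ strip) : 1 - aa b w * aa b w ≠ 0 := by
  intro h0
  have := two_sin b w
  rw [h0, mul_zero, zero_div] at this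
  exact sin_pi_ne h (by simpa using this)

lemma strip_one_sub' {w : ℂ} : 1 - w ∈ strip ↔ w ∈ strip := by
  constructor
  · intro h
    simpa using strip_one_sub h
  · exact fun h => strip_one_sub h

/-- the middle of a chain of length two -/
noncomputable def u2 (Y Y' : ℂ) : ℂ := Y * (Y' - 1) / (Y' * (1 - Y))

/-! ### local derivatives -/

section
variable (b : ℤ) (r l : Bool) (x : Fin 3 → ℂ)

lemma ldT_one_0 : ldT .one b true r x 0 = un b * (2 * (1 - x 2)) + ph (x 0 + x 2) - ph (x 0) := by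
  rw [← ph_one_sub (x 0)]
  cases r <;> simp [ldT, facs, Fac.form, Fin.sum_univ_three, qq2, rr1] <;> ring_nf

lemma ldT_one_2 : ldT .one b l true x 2 = un b * (2 * (1 - x 0)) + ph (x 0 + x 2) - ph (x 2) := by
  rw [← ph_one_sub (x 2)]
  cases l <;> simp [ldT, facs, Fac.form, Fin.sum_univ_three, qq2, rr1] <;> ring_nf

lemma ldT_two_0 : ldT .two b true r x 0 =
    un b * (2 * (x 0 - x 2)) + un b + ph (x 0 + x 2) - 2 * ph (x 0) := by
  rw [← ph_one_sub (x 0)]
  cases r <;> simp [ldT, facs, hL, hR, Fac.form, Fin.sum_univ_three, qq2, rr1] <;> ring_nf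

lemma ldT_two_2 : ldT .two b l true x 2 =
    un b * (2 * (x 2 - x 0)) + un b + ph (x 0 + x 2) - 2 * ph (x 2) := by
  rw [← ph_one_sub (x 2)]
  cases l <;> simp [ldT, facs, hL, hR, Fac.form, Fin.sum_univ_three, qq2, rr1] <;> ring_nf

lemma ldT_threeL_0 : ldT .threeL b true r x 0 =
    un b * (2 * x 1) + ph (x 1 - x 0) - ph (x 0) := by
  rw [← ph_one_sub (x 0), ← ph_one_sub (x 1 - x 0)]
  cases r <;> simp [ldT, facs, hL, hR, Fac.form, Fin.sum_univ_three, qq2, rr1] <;> ring_nf

lemma ldT_threeL_1 : ldT .threeL b l r x 1 =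
    un b * (2 * (x 0 + x 1 - x 2)) - un b + ph (x 1 + x 2) - ph (x 1 - x 0) - ph (x 1) := by
  rw [← ph_one_sub (x 1), ← ph_one_sub (x 1 - x 0)]
  cases r <;> cases l <;> simp [ldT, facs, hL, hR, Fac.form, Fin.sum_univ_three, qq2, rr1] <;> ring_nf

lemma ldT_threeL_2 : ldT .threeL b l true x 2 =
    un b * (2 * (x 2 - x 1)) + un b + ph (x 1 + x 2) - 2 * ph (x 2) := by
  rw [← ph_one_sub (x 2)]
  cases l <;> simp [ldT, facs, hL, hR, Fac.form, Fin.sum_univ_three, qq2, rr1] <;> ring_nf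

lemma ldT_threeR_2 : ldT .threeR b l true x 2 =
    un b * (2 * x 1) + ph (x 1 - x 2) - ph (x 2) := by
  rw [← ph_one_sub (x 2), ← ph_one_sub (x 1 - x 2)]
  cases l <;> simp [ldT, facs, hL, hR, Fac.form, Fin.sum_univ_three, qq2, rr1] <;> ring_nf

lemma ldT_threeR_1 : ldT .threeR b l r x 1 =
    un b * (2 * (x 2 + x 1 - x 0)) - un b + ph (x 0 + x 1) - ph (x 1 - x 2) - ph (x 1) := by
  rw [← ph_one_sub (x 1), ← ph_one_sub (x 1 - x 2)]
  cases r <;> cases l <;> simp [ldT, facs, hL, hR, Fac.form, Fin.sum_univ_three, qq2, rr1] <;> ring_nf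

lemma ldT_threeR_0 : ldT .threeR b true r x 0 =
    un b * (2 * (x 0 - x 1)) + un b + ph (x 0 + x 1) - 2 * ph (x 0) := by
  rw [← ph_one_sub (x 0)]
  cases r <;> simp [ldT, facs, hL, hR, Fac.form, Fin.sum_univ_three, qq2, rr1] <;> ring_nf

lemma ldT_ring_0 : ldT .ring b true r x 0 =
    ph (x 0 + x 1 + 1 / 2) + ph (x 0 - x 1 + 1 / 2) - 2 * ph (x 0) := by
  rw [← ph_one_sub (x 0)]
  cases r <;> simp [ldT, facs, hL, hR, Fac.form, Fin.sum_univ_three, qq2, rr1] <;> ring_nf

lemma ldT_ring_2 : ldT .ring b l true x 2 =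
    ph (x 2 + x 1 + 1 / 2) + ph (x 2 - x 1 + 1 / 2) - 2 * ph (x 2) := by
  rw [← ph_one_sub (x 2)]
  cases l <;> simp [ldT, facs, hL, hR, Fac.form, Fin.sum_univ_three, qq2, rr1] <;> ring_nf

lemma ldT_ring_1 : ldT .ring b l r x 1 =
    (if l then -(2 * rP (x 0) (x 1)) else 0) + (if r then -(2 * rP (x 2) (x 1)) else 0) := by
  unfold rP
  cases r <;> cases l <;> simp [ldT, facs, hL, hR, Fac.form, Fin.sum_univ_three, qq2, rr1] <;> ring_nf

end

/-! ### their exponentials -/

section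
variable {b : ℤ}

lemma sgB_I_sq : sgB b * Complex.I * (sgB b * Complex.I) = -1 := by
  linear_combination Complex.I ^ 2 * sgB_sq b + Complex.I_sq

lemma sgB_I_ne : sgB b * Complex.I ≠ 0 := fun h => by
  have := sgB_I_sq (b := b)
  rw [h] at this
  norm_num at this

lemma aa_one : aa b 1 = -1 := by
  unfold aa sgB
  split_ifs
  · rw [show (1 : ℂ) * (Real.pi * Complex.I * 1) = Real.pi * Complex.I by ring, Complex.exp_pi_mul_I]
  · rw [show (-1 : ℂ) * (Real.pi * Complex.I * 1) = -(Real.pi * Complex.I) by ring, Complex.exp_neg,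
      Complex.exp_pi_mul_I]
    norm_num

lemma e_one {w w' : ℂ} (h : w ∈ strip) (h2 : w + w' ∈ strip) :
    Complex.exp (un b * (2 * (1 - w')) + ph (w + w') - ph w) =
      hf b (ee w) (hat b (ee w'))⁻¹ := by
  have h0 := one_sub_aa b h
  have hs := sgB_I_ne (b := b)
  have hne := aa_ne b w
  have hne' := aa_ne b w'
  rw [Complex.exp_sub, Complex.exp_add, exp_un, exp_ph' b h, exp_ph' b h2, hf, hat_ee, hat_ee, aa_sub,
    aa_add, aa_one]
  generalize sgB b * Complex.I = σ at *
  generalize aa b w = A at *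
  generalize aa b w' = B at *
  have h1 : A * A - 1 ≠ 0 := fun h => h0 (by linear_combination -h)
  rw [div_eq_div_iff (div_ne_zero (mul_ne_zero hs h0) hne) h1]
  field_simp
  ring

lemma e_two {w w' : ℂ} (h : w ∈ strip) (h2 : w + w' ∈ strip) :
    Complex.exp (un b * (2 * (w - w')) + un b + ph (w + w') - 2 * ph w) =
      hf b (ee w) (u2 (hat b (ee w)) (hat b (ee w'))) := by
  have h0 := one_sub_aa b h
  have hs := sgB_I_ne (b := b)
  have hq := sgB_I_sq (b := b)
  have hne := aa_ne b w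
  have hne' := aa_ne b w'
  rw [Complex.exp_sub, Complex.exp_add, Complex.exp_add, two_mul (ph w), Complex.exp_add, exp_un,
    exp_un_one, exp_ph' b h, exp_ph' b h2, hf, u2, hat_ee, hat_ee, aa_sub, aa_add]
  generalize sgB b * Complex.I = σ at *
  generalize aa b w = A at *
  generalize aa b w' = B at *
  have h1 : A * A - 1 ≠ 0 := fun h => h0 (by linear_combination -h)
  have h2' : A * A * (B * B - 1) / (B * B * (1 - A * A)) - A * A =
      A * A * (A * A * (B * B) - 1) / (B * B * (1 - A * A)) := by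
    rw [eq_div_iff (mul_ne_zero (mul_ne_zero hne' hne') h0), sub_mul, div_mul_cancel₀ _
      (mul_ne_zero (mul_ne_zero hne' hne') h0)]
    ring
  rw [h2', div_div, div_eq_div_iff (mul_ne_zero (div_ne_zero (mul_ne_zero hs h0) hne)
    (div_ne_zero (mul_ne_zero hs h0) hne)) (mul_ne_zero (mul_ne_zero (mul_ne_zero hne' hne') h0) h1)]
  field_simp
  ring

lemma e_three0 {w m : ℂ} (h : w ∈ strip) (h2 : m - w ∈ strip) :
    Complex.exp (un b * (2 * m) + ph (m - w) - ph w) = hf b (ee w) (hat b (ee m)) := by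
  have h0 := one_sub_aa b h
  have hs := sgB_I_ne (b := b)
  have hne := aa_ne b w
  have hne' := aa_ne b m
  rw [Complex.exp_sub, Complex.exp_add, exp_un, exp_ph' b h, exp_ph' b h2, hf, hat_ee, hat_ee, aa_sub]
  generalize sgB b * Complex.I = σ at *
  generalize aa b w = A at *
  generalize aa b m = B at *
  have h1 : A * A - 1 ≠ 0 := fun h => h0 (by linear_combination -h)
  rw [div_eq_div_iff (div_ne_zero (mul_ne_zero hs h0) hne) h1]
  field_simp
  ring

/-- the equation of the inner variable is the missing edge equation -/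
lemma e_three1 {w m w' : ℂ} (hm : m ∈ strip) (h1 : m + w' ∈ strip) (h2 : m - w ∈ strip)
    (he : Complex.exp (un b * (2 * (w + m - w')) - un b + ph (m + w') - ph (m - w) - ph m) = 1) :
    (u2 (hat b (ee m)) (hat b (ee w')) - hat b (ee m)) * hat b (ee w) =
      -(hat b (ee m) - hat b (ee w)) := by
  have h0 := one_sub_aa b hm
  have h3 := one_sub_aa b h2
  have hs := sgB_I_ne (b := b)
  have hq := sgB_I_sq (b := b)
  have hA := aa_ne b w
  have hB := aa_ne b m
  have hC := aa_ne b w'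
  rw [Complex.exp_sub, Complex.exp_sub, Complex.exp_add, Complex.exp_sub, exp_un,
    exp_un_one, exp_ph' b hm, exp_ph' b h1, exp_ph' b h2, aa_sub, aa_sub, aa_add, aa_add] at he
  rw [aa_sub] at h3
  rw [u2, hat_ee, hat_ee, hat_ee]
  generalize sgB b * Complex.I = σ at *
  generalize aa b w = A at *
  generalize aa b m = B at *
  generalize aa b w' = C at *
  have h4 : A * A - B * B ≠ 0 := by
    intro h
    apply h3
    field_simp
    linear_combination h
  have e1 : A * B / C / σ * (σ * (1 - B * C * (B * C)) / (B * C)) / (σ * (1 - B / A * (B / A)) / (B / A)) /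
      (σ * (1 - B * B) / B) = -(B * B * A * A * (1 - B * B * (C * C)) / (C * C * (A * A - B * B) * (1 - B * B))) := by
    have e2 : 1 - B / A * (B / A) = (A * A - B * B) / (A * A) := by
      field_simp
    rw [e2]
    field_simp
    rw [show σ ^ 2 = -1 by rw [sq]; exact hq]
    ring
  rw [e1, neg_eq_iff_eq_neg, div_eq_iff (mul_ne_zero (mul_ne_zero (mul_ne_zero hC hC) h4) h0)] at he
  rw [show B * B * (C * C - 1) / (C * C * (1 - B * B)) - B * B =
    B * B * (B * B * (C * C) - 1) / (C * C * (1 - B * B)) by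
      rw [eq_div_iff (mul_ne_zero (mul_ne_zero hC hC) h0), sub_mul, div_mul_cancel₀ _
        (mul_ne_zero (mul_ne_zero hC hC) h0)]
      ring, div_mul_eq_mul_div, div_eq_iff (mul_ne_zero (mul_ne_zero hC hC) h0)]
  linear_combination -he

/-! ### short chains -/

lemma hat_ne (b : ℤ) (w : ℂ) : hat b (ee w) ≠ 0 := by
  rw [hat_ee]
  exact mul_ne_zero (aa_ne b w) (aa_ne b w)

lemma one_sub_hat (b : ℤ) {w : ℂ} (h : w ∈ strip) : 1 - hat b (ee w) ≠ 0 := by
  rw [hat_ee]
  exact one_sub_aa b h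

lemma u2_inv (Y Y' : ℂ) : (u2 Y Y')⁻¹ = u2 Y' Y := by
  unfold u2
  rw [inv_div, show Y' * (1 - Y) = -(Y' * (Y - 1)) by ring, show Y * (Y' - 1) = -(Y * (1 - Y')) by ring,
    neg_div_neg_eq]

lemma u2_one (Y : ℂ) : u2 Y 1 = 0 := by
  unfold u2
  simp

lemma u2_edge {Y Y' : ℂ} (h : 1 - Y ≠ 0) (h' : Y' ≠ 0) : (Y'⁻¹ - u2 Y Y') * Y = -(u2 Y Y' - Y) := by
  have e : u2 Y Y' = Y * (Y' - 1) / (Y' * (1 - Y)) := rfl
  have h3 : u2 Y Y' * (Y' * (1 - Y)) = Y * (Y' - 1) := by
    rw [e, div_mul_cancel₀ _ (mul_ne_zero h' h)]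
  have h4 : Y' * Y'⁻¹ = 1 := mul_inv_cancel₀ h'
  have : Y' * ((Y'⁻¹ - u2 Y Y') * Y) = Y' * -(u2 Y Y' - Y) := by
    linear_combination Y * h4 + h3
  exact mul_left_cancel₀ h' this

end

end Pool.Agent.Work.MP_b30479_gt.G2
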