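import Pool.Agent.Work.MP_b30479_gt.G2.H13K1
import Pool.Agent.Work.MP_b30479_gt.G2.H13KE
import Pool.Agent.Work.MP_b30479_gt.G2.H13KO
import Pool.Agent.Work.MP_b30479_gt.G2.H13KZ

/-!
# Right side of the hinge `1 | 3` (slot `0`): the two sides
-/

namespace Pool.Agent.Work.MP_b30479_gt.G2

open VOL NumI

namespace HX

variable {u v w : ℂ} {T : ℝ}

/-- row on the flat part, complex form -/
theorem flat3_c {a b xc c wf wl wh x0 x1 T0 T1 p0 p1 t0 t1 s0 s1 vM vL : ℤ}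
    (hl : f3C a b xc c wf wl x0 x1 T0 T1 p0 p1 t0 t1 s0 s1 vM vL = true)
    (hh : f3C a b xc c wf wh x0 x1 T0 T1 p0 p1 t0 t1 s0 s1 vM vL = true)
    (h0 : 0 < u.re) (h1 : u.re < 1) (h2 : 0 < v.re - u.re) (h3 : v.re < 1)
    (hx : (x0 : ℝ) / 10000 ≤ u.re) (hx' : u.re ≤ (x1 : ℝ) / 10000) (hT : (T0 : ℝ) / 10000 ≤ T)
    (hT' : T ≤ (T1 : ℝ) / 10000) (hp : (p0 : ℝ) / 10000 ≤ v.re - u.re)
    (hp' : v.re - u.re ≤ (p1 : ℝ) / 10000) (hτ : (t0 : ℝ) / 10000 ≤ v.im)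
    (hτ' : v.im ≤ (t1 : ℝ) / 10000) (hs : (s0 : ℝ) / 10000 ≤ v.im + T)
    (hs' : v.im + T ≤ (s1 : ℝ) / 10000) (hv : v.re ≤ (vM : ℝ) / 10000)
    (hv' : (vL : ℝ) / 10000 ≤ v.re) (hu : u.im = -T)
    (hw0 : 1 / 2 ≤ v.re + (wf : ℝ) / 10000) (hw1 : v.re + (wf : ℝ) / 10000 < 1)
    (hw2 : (wf : ℝ) / 10000 ≤ w.re) (hw3 : v.re + w.re ≤ 2 - (v.re + (wf : ℝ) / 10000))
    (hw4 : (wl : ℝ) / 10000 ≤ w.im) (hw5 : w.im ≤ (wh : ℝ) / 10000)
    (hn : 0 < MM (v.re + w.re) (v.im + w.im)) (hM : 0 ≤ SM 0 u v w) :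
    S3 1 0 u v < -(af a b xc c u.re T) := by
  rw [S3_eq h0 h1 h2 (by linarith only [h0, h3]), hu]
  rcases sM_of_SM hM (by linarith only [h0, h2]) h3 h2 (by linarith only [h0, h3]) hw0 hw1 (by linarith only [hw2]) hw3 hw4 hw5 hn
    with h4 | h4
  · rw [hu] at h4
    exact flat3 hl hx hx' hT hT' hp hp' hτ hτ' hs hs' hv hv' h4
  · rw [hu] at h4
    exact flat3 hh hx hx' hT hT' hp hp' hτ hτ' hs hs' hv hv' h4

/-- row on the ramp, complex form -/
theorem ramp3_c {a b xc c wf wl wh x0 x1 T0 T1 p0 p1 t0 t1 s0 s1 vM : ℤ} {m : ℝ}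
    (hl : r3C a b xc c wf wl x0 x1 T0 T1 p0 p1 t0 t1 s0 s1 vM = true)
    (hh : r3C a b xc c wf wh x0 x1 T0 T1 p0 p1 t0 t1 s0 s1 vM = true)
    (h0 : 0 < u.re) (h1 : u.re < 1) (h2 : 0 < v.re - u.re) (h3 : v.re < 1)
    (hx : (x0 : ℝ) / 10000 ≤ u.re) (hx' : u.re ≤ (x1 : ℝ) / 10000) (hT : (T0 : ℝ) / 10000 ≤ T)
    (hT' : T ≤ (T1 : ℝ) / 10000) (hp : (p0 : ℝ) / 10000 ≤ v.re - u.re)
    (hp' : v.re - u.re ≤ (p1 : ℝ) / 10000) (hτ : (t0 : ℝ) / 10000 ≤ v.im)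
    (hτ' : v.im ≤ (t1 : ℝ) / 10000) (hs : (s0 : ℝ) / 10000 ≤ v.im + T)
    (hs' : v.im + T ≤ (s1 : ℝ) / 10000) (hv : v.re ≤ (vM : ℝ) / 10000)
    (hu : u.im = -(T * (20 / 3 * (65 / 100 - u.re)))) (hm : m = 20 / 3 * T)
    (hw0 : 1 / 2 ≤ v.re + (wf : ℝ) / 10000) (hw1 : v.re + (wf : ℝ) / 10000 < 1)
    (hw2 : (wf : ℝ) / 10000 ≤ w.re) (hw3 : v.re + w.re ≤ 2 - (v.re + (wf : ℝ) / 10000))
    (hw4 : (wl : ℝ) / 10000 ≤ w.im) (hw5 : w.im ≤ (wh : ℝ) / 10000)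
    (hn : 0 < MM (v.re + w.re) (v.im + w.im)) (hM : 0 ≤ SM 0 u v w) :
    S3 1 m u v < -(af a b xc c u.re T) := by
  rw [S3_eq h0 h1 h2 (by linarith only [h0, h3])]
  rcases sM_of_SM hM (by linarith only [h0, h2]) h3 h2 (by linarith only [h0, h3]) hw0 hw1 (by linarith only [hw2]) hw3 hw4 hw5 hn
    with h4 | h4
  · exact ramp3 hl hx hx' hT hT' hp hp' hτ hτ' hs hs' hv hu hm h4
  · exact ramp3 hh hx hx' hT hT' hp hp' hτ hτ' hs hs' hv hu hm h4

/-! ### windows -/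

/-- windows of the other hinge and of the inner variable of the digit `3`, in units `1/10000` -/
structure KD where
  /-- lower bound of the height of the hinge in the slot `2` -/
  wl : ℤ
  /-- upper bound -/
  wh : ℤ
  /-- lower bound of the height of the inner variable -/
  t0 : ℤ
  /-- upper bound -/
  t1 : ℤ
  /-- lower bound of the difference of the heights -/
  s0 : ℤ
  /-- upper bound -/
  s1 : ℤ

/-- the windows, by the class of the neighbour in the slot `2` -/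
def kd : SR.Cl → KD
  | .one => ⟨-1145, -150, -900, -180, -450, 700⟩
  | .twoE => ⟨-980, -640, -620, -50, -200, 750⟩
  | .ring => ⟨-40, 570, -720, 0, -340, 800⟩
  | _ => ⟨-570, 220, -820, 50, -400, 840⟩

/-- the digit `3`: `u`: hinge in the slot `0`, `v`: inner variable, `w`: hinge in the slot `2`, on
their paths; `T`: minus the height of the first hinge -/
structure In3 (K : SR.Cl) (u v w : ℂ) (T : ℝ) : Prop where
  T0 : 21 / 1000 ≤ T
  T1 : T ≤ 1145 / 10000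
  p0 : 4 / 100 ≤ v.re - u.re
  v1 : v.re ≤ 75 / 100
  m0 : ((kd K).t0 : ℝ) / 10000 ≤ v.im
  m1 : v.im ≤ ((kd K).t1 : ℝ) / 10000
  s0 : ((kd K).s0 : ℝ) / 10000 ≤ v.im + T
  s1 : v.im + T ≤ ((kd K).s1 : ℝ) / 10000
  w0 : 11 / 100 ≤ w.re
  w1 : w.re ≤ 39 / 100
  h0 : ((kd K).wl : ℝ) / 10000 ≤ w.im
  h1 : w.im ≤ ((kd K).wh : ℝ) / 10000
  n : 0 < MM (v.re + w.re) (v.im + w.im)
  f : 0 ≤ SM 0 u v w

/-- row on the flat part -/
theorem flat3_k {K : SR.Cl} {a b xc c wf x0 x1 p0 p1 vM vL : ℤ}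
    (hl : f3C a b xc c wf (kd K).wl x0 x1 210 1145 p0 p1 (kd K).t0 (kd K).t1 (kd K).s0 (kd K).s1
      vM vL = true)
    (hh : f3C a b xc c wf (kd K).wh x0 x1 210 1145 p0 p1 (kd K).t0 (kd K).t1 (kd K).s0 (kd K).s1
      vM vL = true)
    (H : In3 K u v w T) (h0 : 45 / 100 ≤ u.re)
    (hx : (x0 : ℝ) / 10000 ≤ u.re) (hx' : u.re ≤ (x1 : ℝ) / 10000)
    (hp : (p0 : ℝ) / 10000 ≤ v.re - u.re) (hp' : v.re - u.re ≤ (p1 : ℝ) / 10000) (hv : v.re ≤ (vM : ℝ) / 10000)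
    (hv' : (vL : ℝ) / 10000 ≤ v.re) (hu : u.im = -T)
    (hw : (wf : ℝ) / 10000 ≤ 140 / 1000) (hw0 : 11 / 100 ≤ (wf : ℝ) / 10000)
    (hw1 : 2 * v.re + (wf : ℝ) / 10000 ≤ 161 / 100)
    (hw2 : (wf : ℝ) / 10000 ≤ w.re) :
    S3 1 0 u v < -(af a b xc c u.re T) := by
  obtain ⟨T0, T1, q0, v1, m0, m1, s0, s1, w0, w1, h2, h3, n, f⟩ := H
  refine flat3_c hl hh (by linarith only [h0]) (by linarith only [hw0, hw1, q0]) (by linarith only [q0]) (by linarith only [hw0, hw1]) hx hx' ?_ ?_ hp hp'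
    m0 m1 s0 s1 hv hv' hu (by linarith only [h0, hw0, q0]) (by linarith only [hw, hw1]) hw2 (by linarith only [hw1, w1]) h2 h3 n f
  · push_cast
    linarith only [T0]
  · push_cast
    linarith only [T1]

/-- row on the ramp -/
theorem ramp3_k {K : SR.Cl} {a b xc c x0 x1 T1 p1 : ℤ} {m : ℝ}
    (hl : r3C a b xc c 1100 (kd K).wl x0 x1 210 T1 400 p1 (kd K).t0 (kd K).t1 (kd K).s0 (kd K).s1
      7500 = true)
    (hh : r3C a b xc c 1100 (kd K).wh x0 x1 210 T1 400 p1 (kd K).t0 (kd K).t1 (kd K).s0 (kd K).s1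
      7500 = true)
    (H : In3 K u v w T) (h0 : 1 / 2 ≤ u.re)
    (hx : (x0 : ℝ) / 10000 ≤ u.re) (hx' : u.re ≤ (x1 : ℝ) / 10000) (hT : T ≤ (T1 : ℝ) / 10000)
    (hp' : v.re - u.re ≤ (p1 : ℝ) / 10000)
    (hu : u.im = -(T * (20 / 3 * (65 / 100 - u.re)))) (hm : m = 20 / 3 * T) :
    S3 1 m u v < -(af a b xc c u.re T) := by
  obtain ⟨T0, T1, p0, v1, m0, m1, s0, s1, w0, w1, h2, h3, n, f⟩ := H
  have e : ((1100 : ℤ) : ℝ) / 10000 = 11 / 100 := by norm_num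
  refine ramp3_c hl hh (by linarith only [h0]) (by linarith only [p0, v1]) (by linarith only [p0]) (by linarith only [v1]) hx hx' ?_ hT ?_ hp'
    m0 m1 s0 s1 ?_ hu hm (by rw [e]; linarith only [h0, p0]) (by rw [e]; linarith only [v1]) (by rw [e]; linarith only [w0])
    (by rw [e]; linarith only [v1, w1]) h2 h3 n f
  · push_cast
    linarith only [T0]
  · push_cast
    linarith only [p0]
  · push_cast
    linarith only [v1]

/-- bounding functions -/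
noncomputable def fA (x T : ℝ) : ℝ := af 2029 (-13666) 4625 (-14568) x T
/-- bounding functions -/
noncomputable def fB (x T : ℝ) : ℝ := af 1847 (-5152) 4875 (-15169) x T
/-- bounding functions -/
noncomputable def fC (x T : ℝ) : ℝ := af 11968 (-1296) 5250 152965 x T
/-- bounding functions -/
noncomputable def fD (x T : ℝ) : ℝ := af 10992 (-20587) 6000 144269 x T

variable {K : SR.Cl} {m : ℝ}

/-- the side of the digit `3`, `x ≤ .475` -/
theorem three_A (H : In3 K u v w T) (hx0 : 45 / 100 ≤ u.re) (hx : u.re ≤ 475 / 1000)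
    (hK : 46 / 100 ≤ u.re ∧ K ≠ .one ∨ K = .one ∧ 131 / 1000 ≤ w.re) (hu : u.im = -T) :
    S3 1 0 u v < -(fA u.re T) := by
  have e1 : ((4500 : ℤ) : ℝ) / 10000 ≤ u.re := by push_cast; linarith only [hx0]
  have e2 : u.re ≤ ((4750 : ℤ) : ℝ) / 10000 := by push_cast; linarith only [hx]
  have e3 : v.re - u.re ≤ ((3000 : ℤ) : ℝ) / 10000 := by push_cast; linarith only [hx0, H, H.v1]
  have e4 : ((400 : ℤ) : ℝ) / 10000 ≤ v.re - u.re := by push_cast; linarith only [H, H.p0]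
  have e5 : ((0 : ℤ) : ℝ) / 10000 ≤ v.re := by push_cast; linarith only [hx0, e4, H.p0]
  have e6 : v.re ≤ ((7500 : ℤ) : ℝ) / 10000 := by push_cast; linarith only [H, H.v1]
  have e7 : ((1100 : ℤ) : ℝ) / 10000 = 11 / 100 := by norm_num
  have e8 : ((1310 : ℤ) : ℝ) / 10000 = 131 / 1000 := by norm_num
  have d := H.v1
  have d1 := H.w0
  by_cases h : K = .one
  · obtain ⟨-, hw⟩ := hK.resolve_left (fun h' => h'.2 h)
    subst h
    rcases le_total v.re (739 / 1000) with hv | hv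
    · exact flat3_k (K := .one) cK1Al cK1Ah H hx0 e1 e2 e4 e3 (by push_cast; linarith only [hv]) e5 hu
        (by rw [e8]; norm_num) (by rw [e8]; norm_num) (by rw [e8]; linarith only [hv]) (by rw [e8]; exact hw)
    · exact flat3_k (K := .one) cK1Sl cK1Sh H hx0 e1 e2 (by push_cast; linarith only [hx, hv]) e3 e6 (by push_cast; linarith only [hv]) hu
        (by rw [e7]; norm_num) e7.ge (by rw [e7]; linarith only [e6]) (by rw [e7]; exact d1)
  · obtain ⟨hx', -⟩ := hK.resolve_right (fun h' => h h'.1)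
    have e1 : ((4600 : ℤ) : ℝ) / 10000 ≤ u.re := by push_cast; linarith only [hx']
    have g1 : ((1100 : ℤ) : ℝ) / 10000 ≤ 140 / 1000 := by rw [e7]; norm_num
    have g2 : 11 / 100 ≤ ((1100 : ℤ) : ℝ) / 10000 := e7.ge
    have g3 : 2 * v.re + ((1100 : ℤ) : ℝ) / 10000 ≤ 161 / 100 := by rw [e7]; linarith only [e6]
    have g4 : ((1100 : ℤ) : ℝ) / 10000 ≤ w.re := by rw [e7]; exact d1
    cases K
    case one => exact absurd rfl h
    case twoE =>
      exact flat3_k (K := .twoE) cKEAl cKEAh H hx0 e1 e2 e4 e3 e6 e5 hu g1 g2 g3 g4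
    case ring =>
      exact flat3_k (K := .ring) cKZAl cKZAh H hx0 e1 e2 e4 e3 e6 e5 hu g1 g2 g3 g4
    case two =>
      exact flat3_k (K := .two) cKOAl cKOAh H hx0 e1 e2 e4 e3 e6 e5 hu g1 g2 g3 g4
    case three =>
      exact flat3_k (K := .three) cKOAl cKOAh H hx0 e1 e2 e4 e3 e6 e5 hu g1 g2 g3 g4
    case threeE =>
      exact flat3_k (K := .threeE) cKOAl cKOAh H hx0 e1 e2 e4 e3 e6 e5 hu g1 g2 g3 g4

/-- the side of the digit `3`, `.475 ≤ x ≤ .50` -/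
theorem three_B (H : In3 K u v w T) (hx : 475 / 1000 ≤ u.re) (hx' : u.re ≤ 1 / 2)
    (hu : u.im = -T) : S3 1 0 u v < -(fB u.re T) := by
  have d := H.v1
  have d1 := H.w0
  have hx0 : 45 / 100 ≤ u.re := by linarith only [hx]
  have e1 : ((4750 : ℤ) : ℝ) / 10000 ≤ u.re := by push_cast; linarith only [hx]
  have e2 : u.re ≤ ((5000 : ℤ) : ℝ) / 10000 := by push_cast; linarith only [hx']
  have e3 : v.re - u.re ≤ ((2750 : ℤ) : ℝ) / 10000 := by push_cast; linarith only [hx, d, H.v1]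
  have e4 : ((400 : ℤ) : ℝ) / 10000 ≤ v.re - u.re := by push_cast; linarith only [H, H.p0]
  have e5 : ((0 : ℤ) : ℝ) / 10000 ≤ v.re := by push_cast; linarith only [hx, e4, H.p0]
  have e6 : v.re ≤ ((7500 : ℤ) : ℝ) / 10000 := by push_cast; linarith only [d, H.v1]
  have e7 : ((1100 : ℤ) : ℝ) / 10000 = 11 / 100 := by norm_num
  have g1 : ((1100 : ℤ) : ℝ) / 10000 ≤ 140 / 1000 := by rw [e7]; norm_num
  have g2 : 11 / 100 ≤ ((1100 : ℤ) : ℝ) / 10000 := e7.ge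
  have g3 : 2 * v.re + ((1100 : ℤ) : ℝ) / 10000 ≤ 161 / 100 := by rw [e7]; linarith only [d]
  have g4 : ((1100 : ℤ) : ℝ) / 10000 ≤ w.re := by rw [e7]; exact d1
  cases K
  case one =>
    exact flat3_k (K := .one) cK1Bl cK1Bh H hx0 e1 e2 e4 e3 e6 e5 hu g1 g2 g3 g4
  case twoE =>
    exact flat3_k (K := .twoE) cKEBl cKEBh H hx0 e1 e2 e4 e3 e6 e5 hu g1 g2 g3 g4
  case ring =>
    exact flat3_k (K := .ring) cKZBl cKZBh H hx0 e1 e2 e4 e3 e6 e5 hu g1 g2 g3 g4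
  case two =>
    exact flat3_k (K := .two) cKOBl cKOBh H hx0 e1 e2 e4 e3 e6 e5 hu g1 g2 g3 g4
  case three =>
    exact flat3_k (K := .three) cKOBl cKOBh H hx0 e1 e2 e4 e3 e6 e5 hu g1 g2 g3 g4
  case threeE =>
    exact flat3_k (K := .threeE) cKOBl cKOBh H hx0 e1 e2 e4 e3 e6 e5 hu g1 g2 g3 g4

/-- the side of the digit `3`, `.50 ≤ x ≤ .55` -/
theorem three_C (H : In3 K u v w T) (hx : 1 / 2 ≤ u.re) (hx' : u.re ≤ 55 / 100)
    (hu : u.im = -(T * (20 / 3 * (65 / 100 - u.re)))) (hm : m = 20 / 3 * T) :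
    S3 1 m u v < -(fC u.re T) := by
  have e1 : ((5000 : ℤ) : ℝ) / 10000 ≤ u.re := by push_cast; linarith only [hx]
  have e2 : u.re ≤ ((5500 : ℤ) : ℝ) / 10000 := by push_cast; linarith only [hx']
  have e3 : v.re - u.re ≤ ((2500 : ℤ) : ℝ) / 10000 := by push_cast; linarith only [hx, H, H.v1]
  have e4 : T ≤ ((1145 : ℤ) : ℝ) / 10000 := by push_cast; linarith only [H, H.T1]
  cases K
  case one => exact ramp3_k (K := .one) cK1Cl cK1Ch H hx e1 e2 e4 e3 hu hm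
  case twoE => exact ramp3_k (K := .twoE) cKECl cKECh H hx e1 e2 e4 e3 hu hm
  case ring => exact ramp3_k (K := .ring) cKZCl cKZCh H hx e1 e2 e4 e3 hu hm
  case two => exact ramp3_k (K := .two) cKOCl cKOCh H hx e1 e2 e4 e3 hu hm
  case three => exact ramp3_k (K := .three) cKOCl cKOCh H hx e1 e2 e4 e3 hu hm
  case threeE => exact ramp3_k (K := .threeE) cKOCl cKOCh H hx e1 e2 e4 e3 hu hm

/-- the side of the digit `3`, `.55 ≤ x` -/
theorem three_D (H : In3 K u v w T) (hx : 55 / 100 ≤ u.re) (hx1 : u.re ≤ 65 / 100)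
    (hx' : u.re ≤ 635 / 1000 ∨ T ≤ 94 / 1000)
    (hu : u.im = -(T * (20 / 3 * (65 / 100 - u.re)))) (hm : m = 20 / 3 * T) :
    S3 1 m u v < -(fD u.re T) := by
  have h5 : 1 / 2 ≤ u.re := by linarith only [hx]
  rcases le_or_gt u.re (635 / 1000) with h | h
  · have e1 : ((5500 : ℤ) : ℝ) / 10000 ≤ u.re := by push_cast; linarith only [hx]
    have e2 : u.re ≤ ((6350 : ℤ) : ℝ) / 10000 := by push_cast; linarith only [h]
    have e3 : v.re - u.re ≤ ((2000 : ℤ) : ℝ) / 10000 := by push_cast; linarith only [hx, H, H.v1]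
    have e4 : T ≤ ((1145 : ℤ) : ℝ) / 10000 := by push_cast; linarith only [H, H.T1]
    cases K
    case one => exact ramp3_k (K := .one) cK1Dl cK1Dh H h5 e1 e2 e4 e3 hu hm
    case twoE => exact ramp3_k (K := .twoE) cKEDl cKEDh H h5 e1 e2 e4 e3 hu hm
    case ring => exact ramp3_k (K := .ring) cKZDl cKZDh H h5 e1 e2 e4 e3 hu hm
    case two => exact ramp3_k (K := .two) cKODl cKODh H h5 e1 e2 e4 e3 hu hm
    case three => exact ramp3_k (K := .three) cKODl cKODh H h5 e1 e2 e4 e3 hu hm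
    case threeE => exact ramp3_k (K := .threeE) cKODl cKODh H h5 e1 e2 e4 e3 hu hm
  · have hT := hx'.resolve_left (not_le.2 h)
    have e1 : ((6350 : ℤ) : ℝ) / 10000 ≤ u.re := by push_cast; linarith only [h]
    have e2 : u.re ≤ ((6500 : ℤ) : ℝ) / 10000 := by push_cast; linarith only [hx1]
    have e3 : v.re - u.re ≤ ((1150 : ℤ) : ℝ) / 10000 := by push_cast; linarith only [h, H, H.v1]
    have e4 : T ≤ ((940 : ℤ) : ℝ) / 10000 := by push_cast; linarith only [hT]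
    cases K
    case one => exact ramp3_k (K := .one) cK1El cK1Eh H h5 e1 e2 e4 e3 hu hm
    case twoE => exact ramp3_k (K := .twoE) cKEEl cKEEh H h5 e1 e2 e4 e3 hu hm
    case ring => exact ramp3_k (K := .ring) cKZEl cKZEh H h5 e1 e2 e4 e3 hu hm
    case two => exact ramp3_k (K := .two) cKOEl cKOEh H h5 e1 e2 e4 e3 hu hm
    case three => exact ramp3_k (K := .three) cKOEl cKOEh H h5 e1 e2 e4 e3 hu hm
    case threeE => exact ramp3_k (K := .threeE) cKOEl cKOEh H h5 e1 e2 e4 e3 hu hm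

end HX

end Pool.Agent.Work.MP_b30479_gt.G2
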