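import Pool.Agent.Work.MP_b30479_gt.G2.WPush

/-!
# The inner variable of a region with three crossings, in the own frame
-/

namespace Pool.Agent.Work.MP_b30479_gt.G2

open Finset VOL Filter Topology

/-- side of the inner variable `v` along the slope `m`; `u`: the hinge with the side `S3`, `w`: the
hinge with the side `S2` (`0` if absent) -/
noncomputable def SM (m : ℝ) (u v w : ℂ) : ℝ :=
  Real.pi * (w.im - u.im - v.im) + LL (v + w) - LL (v - u) - LL v +
    m * (Real.pi * (w.re - u.re - v.re + 1 / 2) + YY (v + w) - YY (v - u) - YY v)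

theorem side_mid_own {b : ℤ} (hb : b ≠ 0) {t : Typ} (ht : t.isMid = true) (hs : t.Std) (l r : Bool)
    (m : ℝ) (x : Fin 3 → ℂ) :
    side t b l r 1 m x = side t (b.natAbs : ℤ) l r 1 (ofs b m) (own b t x) := by
  unfold own
  rcases lt_or_gt_of_ne hb with h | h
  · rw [if_neg (by omega), ofs_neg h]
    have e : (b.natAbs : ℤ) = -b := by omega
    rw [e, side_cj_mid hb l r m x t ht hs]
  · rw [if_pos h, ofs_pos h]
    have e : (b.natAbs : ℤ) = b := by omega
    rw [e]

theorem side_threeL_SM {b : ℤ} (hb : 0 < b) (l r : Bool) (m : ℝ) (x : Fin 3 → ℂ) :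
    side .threeL b l r 1 m x = SM m (x 0) (x 1) (x 2) := by
  unfold side SM
  rw [d1_threeL_one, d2_threeL_one]
  unfold sgb
  rw [if_pos hb]
  ring

theorem side_threeR_SM {b : ℤ} (hb : 0 < b) (l r : Bool) (m : ℝ) (x : Fin 3 → ℂ) :
    side .threeR b l r 1 m x = SM m (x 2) (x 1) (x 0) := by
  unfold side SM
  rw [d1_threeR_one, d2_threeR_one, add_comm (x 0) (x 1)]
  unfold sgb
  rw [if_pos hb]
  ring

/-- first-order conditions for a variable `v` on its path: `S m` is the derivative along the slope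
`m`; `T`: height of the saddle point in the own frame -/
structure FOC (v : ℂ) (T XM cl cr : ℝ) (S : ℝ → ℝ) : Prop where
  left : v.re < cl → S (T / cl) ≤ 0
  left' : v.re ≤ cl → 0 ≤ S (T / cl)
  flat : cl ≤ v.re → v.re < XM - cr → S 0 ≤ 0
  flat' : cl < v.re → v.re ≤ XM - cr → 0 ≤ S 0
  right : XM - cr ≤ v.re → v.re < XM → S (-(T / cr)) ≤ 0
  right' : XM - cr < v.re → 0 ≤ S (-(T / cr))

namespace SR

variable {M : ℕ} {b : Fin (M + 1) → ℤ} {zs : DD (tyW b) ⊕ ZZ (tyW b) → ℂ}
variable {y : DD (tyW b) ⊕ ZZ (tyW b) → ℝ}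
variable {h h' : Fin M} {i j j' : Fin (M + 1)} {p : Fin 3}

/-- the side of the inner variable of the region `i` in its own frame -/
noncomputable def OM (b : Fin (M + 1) → ℤ) (zs : DD (tyW b) ⊕ ZZ (tyW b) → ℂ)
    (y : DD (tyW b) ⊕ ZZ (tyW b) → ℝ) (i : Fin (M + 1)) (m : ℝ) : ℝ :=
  side (tyW b i) ((b i).natAbs : ℤ) (decide (i ≠ 0)) (decide (i ≠ Fin.last M)) 1 m (OY b zs y i)

/-- first-order conditions of the inner variable in the own frame -/
theorem mid_fc (hb : ClassW b) (hy : IsMx (wdat (tyW b) b) (wpar b zs) zs y)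
    (hpos : ∀ k : Fin M, 0 < y (.inl (.inl k))) (m : {i : Fin (M + 1) // (tyW b i).isMid = true})
    (hm : 0 < y (.inl (.inr m))) :
    FOC (Yw b zs y m.1 1) (ofs (b m.1) (zs (.inl (.inr m))).im) ((wpar b zs).XM (.inr m))
      ((wpar b zs).cl (.inr m)) ((wpar b zs).cr (.inr m)) (OM b zs y m.1) := by
  have hS := std_wpar b zs
  have hg := wpar_good b zs
  have hre : (Yw b zs y m.1 1).re = y (.inl (.inr m)) := by
    rw [Yw_mid, ofr_pp_re]
  have hR := fun hx => hy.foc_mid_right hS hpos m hm hx
  have hL := hy.foc_mid_left hS hpos m hm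
  have key : ∀ q : ℝ, rside (tyW b) b m.1 1 q (xx (tyW b) m.1 ((wpar b zs).pth zs y)) =
      OM b zs y m.1 (ofs (b m.1) q) := fun q =>
    side_mid_own (hb.ne _) m.2 (tyW_std b _) _ _ q _
  rw [key] at hL
  simp only [key] at hR
  obtain ⟨hc, hc', hs⟩ := hg (.inr m)
  rw [← hre] at hR hL hm
  refine ⟨?_, ?_, ?_, ?_, ?_, ?_⟩
  · intro h1
    have := hR (by linarith)
    rwa [sR_left zs _ h1, ofs_div] at this
  · intro h1
    rwa [sL_left zs _ h1, ofs_div] at hL
  · intro h0 h1
    have := hR (by linarith)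
    rwa [sR_flat zs _ h0 h1, ofs_zero'] at this
  · intro h0 h1
    rwa [sL_flat zs _ h0 h1, ofs_zero'] at hL
  · intro h0 h1
    have := hR h1
    rwa [sR_right hg zs _ h0, ofs_neg', ofs_div] at this
  · intro h0
    rwa [sL_right hg zs _ h0, ofs_neg', ofs_div] at hL

/-- an interior region with three crossings: closed form of the side of the inner variable -/
theorem OM_three (hc : clsW b i = .three) (m : ℝ) : OM b zs y i m =
    SM m (Yw b zs y i 0) (Yw b zs y i 1) (Yw b zs y i 2) := by
  have ht := tyW_of_three hc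
  have h3 := clsW_nat3 (Or.inl hc)
  unfold OM
  rw [ht, side_threeL_SM (by omega), OY_zero, OY_one (by rw [ht]; decide), OY_two]

/-- a region with three crossings at an end -/
theorem Adj.OM_threeE (A : Adj h i p j) (hc : clsW b i = .threeE) (m : ℝ) :
    OM b zs y i m = SM m (Yw b zs y i p) (Yw b zs y i 1) 0 := by
  have h3 := clsW_nat3 (Or.inr hc)
  have he := clsW_end (Or.inr hc)
  cases A
  · have h0 : h.castSucc = 0 := by
      unfold isEnd at he
      rcases of_decide_eq_true he with h1 | h1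
      · exact h1
      · exact absurd h1 (Fin.castSucc_lt_last h).ne
    have ht : tyW b h.castSucc = .threeR := by
      unfold tyW
      rw [if_neg (by omega), if_neg (by omega), if_pos h3, if_pos h0]
    have e : Yw b zs y h.castSucc 0 = 0 := by rw [h0]; exact Yw_zero
    unfold OM
    rw [ht, side_threeR_SM (by omega), OY_zero, OY_one (by rw [ht]; decide), OY_two, e]
  · have h0 : h.succ = Fin.last M := by
      unfold isEnd at he
      rcases of_decide_eq_true he with h1 | h1
      · exact absurd h1 (Fin.succ_ne_zero h)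
      · exact h1
    have ht : tyW b h.succ = .threeL := by
      unfold tyW
      rw [if_neg (by omega), if_neg (by omega), if_pos h3, if_neg (Fin.succ_ne_zero h)]
    have e : Yw b zs y h.succ 2 = 0 := by rw [h0]; exact Yw_last
    unfold OM
    rw [ht, side_threeL_SM (by omega), OY_zero, OY_one (by rw [ht]; decide), OY_two, e]

theorem tyW_isMid (hc : clsW b i = .three ∨ clsW b i = .threeE) : (tyW b i).isMid = true := by
  have h3 := clsW_nat3 hc
  unfold tyW
  rw [if_neg (by omega), if_neg (by omega), if_pos h3]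
  split_ifs <;> rfl

end SR

end Pool.Agent.Work.MP_b30479_gt.G2
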