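import Pool.Agent.Work.MP_b30479_gt.G2.M3W
import Pool.Agent.Work.MP_b30479_gt.G2.WMid
import Pool.Agent.Work.NumU.Node

/-!
# Right side of the hinge `1 | 3` (slot `0`): real forms of the side of the `3`

`x + h i` is the hinge, `v + τ i` the inner variable, `w` the hinge at slot `2`; all in the own
frame of the `3`.  The first order condition of the inner variable is used with the worst hinge `w`.
-/

namespace Pool.Agent.Work.MP_b30479_gt.G2

open VOL NumI

namespace HX

/-- `S3` -/
noncomputable def s3 (m x h v τ : ℝ) : ℝ :=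
  -(Real.pi * τ) + lnA (v - x) (τ - h) - lnA x h +
    m * (-(Real.pi * v) - lnB (v - x) (τ - h) + lnB x h)

/-- `SM 0` with the hinge `w` at height `k` and `Re (v + w) = p` -/
noncomputable def sM (h x v τ p k : ℝ) : ℝ :=
  Real.pi * (k - h - τ) + lnA p (τ + k) - lnA (v - x) (τ - h) - lnA v τ

theorem S3_eq {m : ℝ} {u v : ℂ} (h0 : 0 < u.re) (h1 : u.re < 1) (h2 : 0 < v.re - u.re)
    (h3 : v.re - u.re < 1) : S3 1 m u v = s3 m u.re u.im v.re v.im := by
  have hu : u ∈ strip := ⟨h0, h1⟩
  have hv : v - u ∈ strip := ⟨by rw [Complex.sub_re]; exact h2, by rw [Complex.sub_re]; exact h3⟩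
  unfold S3 s3
  rw [Num.LL_lnA hu, Num.LL_lnA hv, Num.YY_lnB hu, Num.YY_lnB hv, Complex.sub_re, Complex.sub_im]
  ring

/-- `LL` on a horizontal line, to the right of `1/2` -/
theorem LL_le_of_re {z : ℂ} {p : ℝ} (hp : 1 / 2 ≤ p) (hp' : p < 1) (h0 : p ≤ z.re)
    (h1 : z.re ≤ 2 - p) (hz : 0 < 2 * Real.cosh (2 * Real.pi * z.im) -
      2 * Real.cos (2 * Real.pi * z.re)) : LL z ≤ lnA p z.im := by
  have hpi := Real.pi_pos
  have h : (⟨p, z.im⟩ : ℂ) ∈ strip := ⟨by simp only; linarith only [hp, hp'], hp'⟩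
  have e1 : LL ⟨p, z.im⟩ = lnA p z.im := Num.LL_lnA h
  rw [← e1]
  have hc : Real.cos (2 * Real.pi * p) ≤ Real.cos (2 * Real.pi * z.re) := by
    have e3 : Real.cos (2 * Real.pi * z.re) = Real.cos |2 * Real.pi * (z.re - 1)| := by
      rw [Real.cos_abs, show 2 * Real.pi * (z.re - 1) = 2 * Real.pi * z.re - 2 * Real.pi by ring,
        Real.cos_sub_two_pi]
    have e4 : Real.cos (2 * Real.pi * p) = Real.cos (2 * Real.pi * (1 - p)) := by
      rw [show 2 * Real.pi * (1 - p) = 2 * Real.pi - 2 * Real.pi * p by ring,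
        Real.cos_two_pi_sub]
    rw [e3, e4]
    apply Real.cos_le_cos_of_nonneg_of_le_pi (abs_nonneg _)
    · nlinarith only [hp, hpi]
    · rw [abs_mul, abs_of_pos (by positivity : 0 < 2 * Real.pi)]
      apply mul_le_mul_of_nonneg_left _ (by positivity)
      rw [abs_le]
      constructor <;> linarith only [h0, h1]
  rw [LL_eq', LL_eq']
  simp only
  apply div_le_div_of_nonneg_right _ (by norm_num)
  apply Real.log_le_log hz
  linarith only [hc]

/-- the first order condition with the worst hinge `w` -/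
theorem sM_of_SM {u v w : ℂ} {p a b : ℝ} (h : 0 ≤ SM 0 u v w) (h0 : 0 < v.re) (h1 : v.re < 1)
    (h2 : 0 < v.re - u.re) (h3 : v.re - u.re < 1) (hp : 1 / 2 ≤ p) (hp' : p < 1)
    (hw : p ≤ v.re + w.re) (hw' : v.re + w.re ≤ 2 - p) (ha : a ≤ w.im) (hb : w.im ≤ b)
    (hn : 0 < MM (v.re + w.re) (v.im + w.im)) :
    0 ≤ sM u.im u.re v.re v.im p a ∨ 0 ≤ sM u.im u.re v.re v.im p b := by
  have hv : v ∈ strip := ⟨h0, h1⟩
  have hd : v - u ∈ strip := ⟨by rw [Complex.sub_re]; exact h2, by rw [Complex.sub_re]; exact h3⟩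
  have hz : 0 < 2 * Real.cosh (2 * Real.pi * (v + w).im) -
      2 * Real.cos (2 * Real.pi * (v + w).re) := by
    have e := Num.den_eq (v + w)
    rw [Complex.add_re, Complex.add_im] at e ⊢
    linarith only [hn, e]
  have a1 := LL_le_of_re (z := v + w) hp hp' (by rw [Complex.add_re]; exact hw)
    (by rw [Complex.add_re]; exact hw') hz
  rw [Complex.add_im] at a1
  have hM : 0 < MM p (v.im + w.im) := M3.MM_pos' (by linarith only [h0, h1, hp]) hp'
  have h4 : 0 ≤ Real.pi * (w.im - u.im - v.im) + lnA p (v.im + w.im) -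
      lnA (v.re - u.re) (v.im - u.im) - lnA v.re v.im := by
    unfold SM at h
    rw [Num.LL_lnA hv, Num.LL_lnA hd, Complex.sub_re, Complex.sub_im] at h
    linarith only [h, a1]
  rcases M3.W_le hM (t := v.im + a) (r := v.im + b) (by linarith only [ha]) (by linarith only [hb]) with h5 | h5
  · left
    have := h5.2
    unfold M3.W at this
    unfold sM
    nlinarith only [h4, this]
  · right
    have := h5.2
    unfold M3.W at this
    unfold sM
    nlinarith only [h4, this]

end HX

end Pool.Agent.Work.MP_b30479_gt.G2
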