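import Pool.Agent.Work.MP_b30479_gt.G2.Rng
import Pool.Agent.Work.MP_b30479_gt.G2.Num.Link
import Pool.Agent.Work.MP_b30479_gt.G2.RLev

/-!
# Sides of hinges as expressions of the numerics engine
-/

namespace Pool.Agent.Work.MP_b30479_gt.G2

open VOL NumI

namespace MR

/-! ### real forms -/

/-- `S1` as a real expression -/
noncomputable def s1 (m x t x' t' : ℝ) : ℝ :=
  Real.pi * t' + lnA (x + x') (t + t') - lnA x t +
    m * (Real.pi * (x' - 1) - lnB (x + x') (t + t') + lnB x t)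

/-- `S2` as a real expression -/
noncomputable def s2 (m x t x' t' : ℝ) : ℝ :=
  Real.pi * (t' - t) + lnA (x + x') (t + t') - 2 * lnA x t +
    m * (Real.pi * (x' - x - 1 / 2) - lnB (x + x') (t + t') + 2 * lnB x t)

/-- `S2` with the partner `0` -/
noncomputable def s2e (m x t : ℝ) : ℝ :=
  -(Real.pi * t) - lnA x t + m * (-(Real.pi * (x + 1 / 2)) + lnB x t)

theorem S1_eq {w v : ℂ} (m : ℝ) (hw : w ∈ strip) (hu : w + v ∈ strip) :
    S1 1 m w v = s1 m w.re w.im v.re v.im := by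
  unfold S1 s1
  rw [Num.LL_lnA hw, Num.LL_lnA hu, Num.YY_lnB hw, Num.YY_lnB hu, Complex.add_re, Complex.add_im]
  ring

theorem S2_eq {w v : ℂ} (m : ℝ) (hw : w ∈ strip) (hu : w + v ∈ strip) :
    S2 1 m w v = s2 m w.re w.im v.re v.im := by
  unfold S2 s2
  rw [Num.LL_lnA hw, Num.LL_lnA hu, Num.YY_lnB hw, Num.YY_lnB hu, Complex.add_re, Complex.add_im]
  ring

theorem S2_zero_eq {w : ℂ} (m : ℝ) (hw : w ∈ strip) : S2 1 m w 0 = s2e m w.re w.im := by
  unfold S2 s2e
  rw [add_zero, Num.LL_lnA hw, Num.YY_lnB hw]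
  simp only [Complex.zero_re, Complex.zero_im]
  ring

/-! ### bounds near the right end of the strip -/

theorem lnB_abs (x t : ℝ) : |lnB x t| ≤ Real.pi / 2 := by
  unfold lnB
  rw [abs_le]
  exact ⟨(Real.neg_pi_div_two_lt_arctan _).le, (Real.arctan_lt_pi_div_two _).le⟩

theorem YY_it {t : ℝ} (ht : 0 < t) : YY ((t : ℂ) * Complex.I) = -(Real.pi / 2) := by
  have h1 : 0 < ((t : ℂ) * Complex.I).im := by simpa using ht
  rw [YY_pos h1]
  have e1 : ((t : ℂ) * Complex.I).im = t := by simp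
  have e2 : ((t : ℂ) * Complex.I).re = 0 := by simp
  rw [e1, e2]
  unfold DT.Tr
  have e3 : 2 * Real.pi * Complex.I * (((0 : ℝ) : ℂ) + t * Complex.I) = ((-(2 * Real.pi * t) : ℝ) : ℂ) := by
    push_cast
    linear_combination (2 * Real.pi * t : ℂ) * Complex.I_mul_I
  rw [e3, ← Complex.ofReal_exp]
  have e4 : (1 : ℂ) - ((Real.exp (-(2 * Real.pi * t)) : ℝ) : ℂ) =
      ((1 - Real.exp (-(2 * Real.pi * t)) : ℝ) : ℂ) := by push_cast; ring
  rw [e4, Complex.arg_ofReal_of_nonneg]
  · ring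
  · have : Real.exp (-(2 * Real.pi * t)) ≤ 1 := by
      rw [Real.exp_le_one_iff]
      have := Real.pi_pos
      nlinarith only [ht, this]
    linarith only [this]

theorem YY_le_of_pos {u : ℂ} (h0 : 0 ≤ u.re) (h1 : u.re ≤ 1) (ht : 0 < u.im) :
    |YY u| ≤ Real.pi / 2 := by
  have hp := Real.pi_pos
  rcases h0.eq_or_lt with h0 | h0
  · have e : u = ((u.im : ℝ) : ℂ) * Complex.I := by
      apply Complex.ext <;> simp [← h0]
    rw [e, YY_it ht, abs_neg, abs_of_pos (by positivity)]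
  · rcases h1.eq_or_lt with h1 | h1
    · have e : u = ((u.im : ℝ) : ℂ) * Complex.I + 1 := by
        apply Complex.ext <;> simp [h1]
      have h2 : 0 < (((u.im : ℝ) : ℂ) * Complex.I).im := by simpa using ht
      rw [e, YY_add_one, if_pos h2, YY_it ht, abs_of_pos (by linarith only [hp])]
      linarith only []
    · rw [Num.YY_lnB ⟨h0, h1⟩, abs_neg]
      exact lnB_abs _ _

/-- `|YY u| ≤ π / 2` in the closed strip -/
theorem YY_abs_le {u : ℂ} (h0 : 0 ≤ u.re) (h1 : u.re ≤ 1) : |YY u| ≤ Real.pi / 2 := by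
  have hp := Real.pi_pos
  rcases lt_trichotomy u.im 0 with h | h | h
  · have h2 := YY_le_of_pos (u := starRingEnd ℂ u) (by simpa using h0) (by simpa using h1)
      (by simpa using h)
    rwa [YY_conj, abs_neg] at h2
  · rw [YY_zero h, abs_zero]
    positivity
  · exact YY_le_of_pos h0 h1 h

theorem LL_le_log {u : ℂ} {K : ℝ} (h1 : 1 ≤ K)
    (hK : 2 * Real.cosh (2 * Real.pi * u.im) - 2 * Real.cos (2 * Real.pi * u.re) ≤ K) :
    LL u ≤ Real.log K / 2 := by
  rw [LL_eq']
  set a := 2 * Real.cosh (2 * Real.pi * u.im) - 2 * Real.cos (2 * Real.pi * u.re) with ha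
  have h0 : 0 ≤ a := by
    have := Real.one_le_cosh (2 * Real.pi * u.im)
    have := Real.cos_le_one (2 * Real.pi * u.re)
    linarith
  rcases h0.eq_or_lt with h0 | h0
  · rw [← h0, Real.log_zero]
    have := Real.log_nonneg h1
    linarith only [this]
  · have := Real.log_le_log h0 hK
    linarith only [this]

theorem cos_ge {x a : ℝ} (h0 : 1 - a ≤ x) (h1 : x ≤ 1) (ha : a ≤ 1 / 2) :
    Real.cos (Real.pi * (2 * a)) ≤ Real.cos (2 * Real.pi * x) := by
  have hp := Real.pi_pos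
  have e : Real.cos (2 * Real.pi * x) = Real.cos (2 * Real.pi * (1 - x)) := by
    rw [← Real.cos_two_pi_sub]
    congr 1
    ring
  rw [e]
  apply Real.cos_le_cos_of_nonneg_of_le_pi
  · have : 0 ≤ 1 - x := by linarith only [h1]
    positivity
  · nlinarith only [ha, hp]
  · nlinarith only [h0, hp]

theorem cosh_le_of {t r : ℝ} (h : |t| ≤ r) : Real.cosh (2 * Real.pi * t) ≤
    Real.cosh (Real.pi * (2 * r)) := by
  have hp := Real.pi_pos
  rw [Real.cosh_le_cosh, abs_mul, abs_mul, abs_mul, abs_of_pos hp, abs_mul]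
  have h0 := abs_nonneg t
  have e1 : |(2 : ℝ)| = 2 := abs_of_pos two_pos
  have e2 : |r| = r := abs_of_nonneg (h0.trans h)
  rw [e1, e2]
  nlinarith only [h, hp]

section
open E

theorem cornerK : 2 * Real.cosh (Real.pi * (2 * (137 / 1000))) - 2 * Real.cos (Real.pi * (2 * (15 / 100)))
    < Real.exp (48 / 100) := by
  have h : chk [sub (exp (q 48 100)) (sub (mul (q 2 1) (cosh (mul pi (q 274 1000))))
      (mul (q 2 1) (cosPi (q 3 10))))] 1 [V.of 1 0 0] = true := by decide +kernel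
  have hp := pos_of_chk (chk1 h (by norm_num) (x := 0) (by norm_num) (by norm_num))
  simp only [val] at hp
  norm_num at hp ⊢
  linarith only [hp]

end

theorem LL_corner {u : ℂ} (h0 : 85 / 100 ≤ u.re) (h1 : u.re ≤ 1) (ht : |u.im| ≤ 137 / 1000) :
    LL u ≤ 24 / 100 := by
  have h2 := cos_ge (x := u.re) (a := 15 / 100) (by linarith only [h0]) h1 (by norm_num)
  have h3 := cosh_le_of ht
  have h4 := LL_le_log (u := u) (K := Real.exp (48 / 100)) (Real.one_le_exp (by norm_num))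
    (by linarith only [h2, h3, cornerK])
  rw [Real.log_exp] at h4
  linarith only [h4]

/-- the right ramp -/
theorem RH_right {w : ℂ} {T XM cl cr : ℝ} (h : RH w T XM cl cr) (hc : 0 < cl) (hc' : 0 < cr)
    (hb : cl + cr < XM) (hx : XM - cr ≤ w.re) : w.im = T * ((XM - w.re) / cr) := by
  rw [h.im, tr_c hc hc' hb hx h.reM]

theorem RH_left {w : ℂ} {T XM cl cr : ℝ} (h : RH w T XM cl cr) (hc : 0 < cl) (hc' : 0 < cr)
    (hb : cl + cr < XM) (hx : w.re ≤ cl) : w.im = T * (w.re / cl) := by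
  rw [h.im, tr_a hc hc' hb h.re0 hx]

theorem RH_flat {w : ℂ} {T XM cl cr : ℝ} (h : RH w T XM cl cr) (hc : 0 < cl) (hc' : 0 < cr)
    (h1 : cl ≤ w.re) (hx : w.re ≤ XM - cr) : w.im = T := by
  rw [h.im, tr_b hc hc' h1 hx, mul_one]

/-- the heights of the partner of a hinge of a region with two crossings are in `[a, b]` -/
theorem RH_im_mem {w : ℂ} {T XM cl cr a b : ℝ} (h : RH w T XM cl cr) (ha : a ≤ 0) (hb : 0 ≤ b)
    (h1 : a ≤ T) (h2 : T ≤ b) : a ≤ w.im ∧ w.im ≤ b := by
  have h3 : 0 ≤ tr 0 XM cl cr w.re := le_max_left _ _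
  have h4 : tr 0 XM cl cr w.re ≤ 1 := max_le zero_le_one (min_le_left _ _)
  rw [h.im]
  constructor <;> nlinarith only [ha, h4, h1, h3, hb, h2]

/-! ### expressions -/

section
open E

/-- expression for `s1` -/
def e1 (m x t x' t' : E) : E :=
  add (sub (add (mul pi t') (lnA (add x x') (add t t'))) (lnA x t))
    (mul m (add (sub (mul pi (sub x' (q 1 1))) (lnB (add x x') (add t t'))) (lnB x t)))

/-- expression for `s2` -/
def e2 (m x t x' t' : E) : E :=
  add (sub (add (mul pi (sub t' t)) (lnA (add x x') (add t t'))) (mul (q 2 1) (lnA x t)))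
    (mul m (add (sub (mul pi (sub (sub x' x) (q 1 2))) (lnB (add x x') (add t t'))) (mul (q 2 1) (lnB x t))))

/-- expression for `s2e` -/
def e2e (m x t : E) : E :=
  add (sub (neg (mul pi t)) (lnA x t)) (mul m (sub (lnB x t) (mul pi (add x (q 1 2)))))

theorem e1_val (m x t x' t' : E) (xs : List ℝ) : (e1 m x t x' t').val xs =
    s1 (m.val xs) (x.val xs) (t.val xs) (x'.val xs) (t'.val xs) := by
  simp only [e1, val, s1]
  push_cast
  ring

theorem e2_val (m x t x' t' : E) (xs : List ℝ) : (e2 m x t x' t').val xs =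
    s2 (m.val xs) (x.val xs) (t.val xs) (x'.val xs) (t'.val xs) := by
  simp only [e2, val, s2]
  push_cast
  ring

theorem e2e_val (m x t : E) (xs : List ℝ) : (e2e m x t).val xs =
    s2e (m.val xs) (x.val xs) (t.val xs) := by
  simp only [e2e, val, s2e]
  push_cast
  ring

end

end MR

end Pool.Agent.Work.MP_b30479_gt.G2
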