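import Pool.Agent.Work.MP_b30479_gt.G2.H13A
import Pool.Agent.Work.MP_b30479_gt.G2.MRBase

/-!
# Right side of the hinge `1 | 3` (slot `0`): expressions and rows
-/

set_option linter.unusedSimpArgs false

namespace Pool.Agent.Work.MP_b30479_gt.G2

open VOL NumI

namespace HX

section
open E

/-- side of the `3` along the slope `m` -/
def s3E (m x h v τ : E) : E :=
  add (sub (add (neg (mul pi τ)) (lnA (sub v x) (sub τ h))) (lnA x h))
    (mul m (add (sub (neg (mul pi v)) (lnB (sub v x) (sub τ h))) (lnB x h)))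

/-- the same, slope `0` -/
def s0E (x h v τ : E) : E := sub (add (neg (mul pi τ)) (lnA (sub v x) (sub τ h))) (lnA x h)

/-- first order condition of the inner variable -/
def sME (h x v τ p k : E) : E :=
  sub (sub (add (mul pi (sub (sub k h) τ)) (lnA p (add τ k))) (lnA (sub v x) (sub τ h))) (lnA v τ)

/-- affine function -/
def afE (a b xc c : ℤ) (x T : E) : E :=
  add (q a 10000) (add (mul (q b 10000) (sub x (q xc 10000)))
    (mul (q c 10000) (sub T (q 700 10000))))

/-- height on the ramp `[1/2, 65/100]` in the frame of the `3` -/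
def hrE (x T : E) : E := neg (mul T (mul (q 20 3) (sub (q 65 100) x)))

/-- slope on the ramp in the frame of the `3` -/
def mrE (T : E) : E := mul (q 20 3) T

/-- side of the `1`, slope `0` -/
def e10 (x t x' t' : E) : E := sub (add (mul pi t') (lnA (add x x') (add t t'))) (lnA x t)

/-- the alternatives for `s < -f` if `0 ≤ M` -/
def L3 (f s M : E) (c : List E) : List E :=
  [neg (add f s), neg (add f (add s (mul (q 2 3) M))), neg M, neg (add f (add s M))] ++ c

end

/-- affine function -/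
noncomputable def af (a b xc c : ℤ) (x T : ℝ) : ℝ :=
  (a : ℝ) / 10000 + ((b : ℝ) / 10000 * (x - (xc : ℝ) / 10000) +
    (c : ℝ) / 10000 * (T - 7 / 100))

variable {xs : List ℝ} {x T v τ : ℝ}

theorem afE_val (a b xc c : ℤ) {xe Te : E} (hx : xe.val xs = x) (hT : Te.val xs = T) :
    (afE a b xc c xe Te).val xs = af a b xc c x T := by
  simp only [afE, E.val, hx, hT, af]
  push_cast
  ring

theorem s3E_val (m x h v τ : E) : (s3E m x h v τ).val xs =
    s3 (m.val xs) (x.val xs) (h.val xs) (v.val xs) (τ.val xs) := by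
  simp only [s3E, E.val, s3]

theorem s0E_val (x h v τ : E) : (s0E x h v τ).val xs =
    s3 0 (x.val xs) (h.val xs) (v.val xs) (τ.val xs) := by
  simp only [s0E, E.val, s3]
  ring

theorem sME_val (h x v τ p k : E) : (sME h x v τ p k).val xs =
    sM (h.val xs) (x.val xs) (v.val xs) (τ.val xs) (p.val xs) (k.val xs) := by
  simp only [sME, E.val, sM]

theorem e10_val (x t x' t' : E) : (e10 x t x' t').val xs =
    MR.s1 0 (x.val xs) (t.val xs) (x'.val xs) (t'.val xs) := by
  simp only [e10, E.val, MR.s1]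
  ring

theorem L3_use {f s M : E} {c : List E} (h : ∃ e ∈ L3 f s M c, 0 < e.val xs)
    (hc : ∀ e ∈ c, e.val xs ≤ 0) (hM : 0 ≤ M.val xs) : s.val xs < -(f.val xs) := by
  obtain ⟨e, he, hp⟩ := h
  simp only [L3, List.mem_append, List.mem_cons, List.mem_nil_iff, or_false] at he
  rcases he with (rfl | rfl | rfl | rfl) | he
  · simp only [E.val] at hp
    linarith only [hp]
  · simp only [E.val] at hp
    push_cast at hp
    linarith only [hM, hp]
  · simp only [E.val] at hp
    linarith only [hM, hp]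
  · simp only [E.val] at hp
    linarith only [hM, hp]
  · linarith only [hp, hc, he, hc e he]

/-- certificate, flat part -/
def f3C (a b xc c wf wi x0 x1 T0 T1 p0 p1 t0 t1 s0 s1 vM vL : ℤ) : Bool :=
  chk (L3 (afE a b xc c (E.var 0) (E.var 1))
      (s0E (E.var 0) (E.neg (E.var 1)) (E.add (E.var 0) (E.var 2)) (E.var 3))
      (sME (E.neg (E.var 1)) (E.var 0) (E.add (E.var 0) (E.var 2)) (E.var 3)
        (E.add (E.add (E.var 0) (E.var 2)) (E.q wf 10000)) (E.q wi 10000))
      [E.sub (E.add (E.var 3) (E.var 1)) (E.q s1 10000),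
        E.sub (E.q s0 10000) (E.add (E.var 3) (E.var 1)),
        E.sub (E.add (E.var 0) (E.var 2)) (E.q vM 10000),
        E.sub (E.q vL 10000) (E.add (E.var 0) (E.var 2))]) 22
      [V.of 10000 x0 x1, V.of 10000 T0 T1, V.of 10000 p0 p1, V.of 10000 t0 t1]

/-- row on the flat part -/
theorem flat3 {a b xc c wf wi x0 x1 T0 T1 p0 p1 t0 t1 s0 s1 vM vL : ℤ}
    (h : f3C a b xc c wf wi x0 x1 T0 T1 p0 p1 t0 t1 s0 s1 vM vL = true)
    (hx : (x0 : ℝ) / 10000 ≤ x) (hx' : x ≤ (x1 : ℝ) / 10000) (hT : (T0 : ℝ) / 10000 ≤ T)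
    (hT' : T ≤ (T1 : ℝ) / 10000) (hp : (p0 : ℝ) / 10000 ≤ v - x)
    (hp' : v - x ≤ (p1 : ℝ) / 10000) (hτ : (t0 : ℝ) / 10000 ≤ τ) (hτ' : τ ≤ (t1 : ℝ) / 10000)
    (hs : (s0 : ℝ) / 10000 ≤ τ + T) (hs' : τ + T ≤ (s1 : ℝ) / 10000)
    (hv : v ≤ (vM : ℝ) / 10000) (hv' : (vL : ℝ) / 10000 ≤ v)
    (hM : 0 ≤ sM (-T) x v τ (v + (wf : ℝ) / 10000) ((wi : ℝ) / 10000)) :
    s3 0 x (-T) v τ < -(af a b xc c x T) := by
  have hk := chk4 h (by norm_num) (x := x) (y := T) (z := v - x) (w := τ)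
    (by push_cast; exact hx) (by push_cast; exact hx') (by push_cast; exact hT)
    (by push_cast; exact hT') (by push_cast; exact hp) (by push_cast; exact hp')
    (by push_cast; exact hτ) (by push_cast; exact hτ')
  have e : x + (v - x) = v := by ring
  have hu := L3_use hk (by
    intro e' he
    simp only [List.mem_cons, List.mem_nil_iff, or_false] at he
    rcases he with rfl | rfl | rfl | rfl <;>
      (simp only [E.val, lkR]; push_cast; linarith only [hs', hs, hv, hv'])) (by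
    rw [sME_val]
    simp only [E.val, lkR, e]
    push_cast
    exact hM)
  rw [s0E_val, afE_val (x := x) (T := T) a b xc c rfl rfl] at hu
  simpa only [E.val, lkR, e] using hu

/-- certificate, ramp -/
def r3C (a b xc c wf wi x0 x1 T0 T1 p0 p1 t0 t1 s0 s1 vM : ℤ) : Bool :=
  chk (L3 (afE a b xc c (E.var 0) (E.var 1))
      (s3E (mrE (E.var 1)) (E.var 0) (hrE (E.var 0) (E.var 1)) (E.add (E.var 0) (E.var 2))
        (E.var 3))
      (sME (hrE (E.var 0) (E.var 1)) (E.var 0) (E.add (E.var 0) (E.var 2)) (E.var 3)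
        (E.add (E.add (E.var 0) (E.var 2)) (E.q wf 10000)) (E.q wi 10000))
      [E.sub (E.add (E.var 3) (E.var 1)) (E.q s1 10000),
        E.sub (E.q s0 10000) (E.add (E.var 3) (E.var 1)),
        E.sub (E.add (E.var 0) (E.var 2)) (E.q vM 10000)]) 22
      [V.of 10000 x0 x1, V.of 10000 T0 T1, V.of 10000 p0 p1, V.of 10000 t0 t1]

/-- row on the ramp -/
theorem ramp3 {a b xc c wf wi x0 x1 T0 T1 p0 p1 t0 t1 s0 s1 vM : ℤ} {hh m : ℝ}
    (h : r3C a b xc c wf wi x0 x1 T0 T1 p0 p1 t0 t1 s0 s1 vM = true)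
    (hx : (x0 : ℝ) / 10000 ≤ x) (hx' : x ≤ (x1 : ℝ) / 10000) (hT : (T0 : ℝ) / 10000 ≤ T)
    (hT' : T ≤ (T1 : ℝ) / 10000) (hp : (p0 : ℝ) / 10000 ≤ v - x)
    (hp' : v - x ≤ (p1 : ℝ) / 10000) (hτ : (t0 : ℝ) / 10000 ≤ τ) (hτ' : τ ≤ (t1 : ℝ) / 10000)
    (hs : (s0 : ℝ) / 10000 ≤ τ + T) (hs' : τ + T ≤ (s1 : ℝ) / 10000)
    (hv : v ≤ (vM : ℝ) / 10000) (hh' : hh = -(T * (20 / 3 * (65 / 100 - x))))
    (hm : m = 20 / 3 * T)
    (hM : 0 ≤ sM hh x v τ (v + (wf : ℝ) / 10000) ((wi : ℝ) / 10000)) :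
    s3 m x hh v τ < -(af a b xc c x T) := by
  have hk := chk4 h (by norm_num) (x := x) (y := T) (z := v - x) (w := τ)
    (by push_cast; exact hx) (by push_cast; exact hx') (by push_cast; exact hT)
    (by push_cast; exact hT') (by push_cast; exact hp) (by push_cast; exact hp')
    (by push_cast; exact hτ) (by push_cast; exact hτ')
  have e : x + (v - x) = v := by ring
  have eh : (hrE (E.var 0) (E.var 1)).val [x, T, v - x, τ] = hh := by
    rw [hh']
    simp only [hrE, E.val, lkR]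
    push_cast
    ring
  have em : (mrE (E.var 1)).val [x, T, v - x, τ] = m := by
    rw [hm]
    simp only [mrE, E.val, lkR]
    push_cast
    ring
  have hu := L3_use hk (by
    intro e' he
    simp only [List.mem_cons, List.mem_nil_iff, or_false] at he
    rcases he with rfl | rfl | rfl <;>
      (simp only [E.val, lkR]; push_cast; linarith only [hs', hs, hv])) (by
    rw [sME_val, eh]
    simp only [E.val, lkR, e]
    push_cast
    exact hM)
  rw [s3E_val, afE_val (x := x) (T := T) a b xc c rfl rfl, em, eh] at hu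
  simpa only [E.val, lkR, e] using hu

variable {k κ : ℝ}

/-- certificate, side of the `1`, flat part -/
def f1C (a b xc c x0 x1 T0 T1 k0 k1 t0 t1 s0 s1 : ℤ) : Bool :=
  chk [E.sub (afE a b xc c (E.var 0) (E.var 1)) (e10 (E.var 0) (E.var 1) (E.var 2) (E.var 3)),
      E.sub (E.add (E.var 1) (E.var 3)) (E.q s1 10000),
      E.sub (E.q s0 10000) (E.add (E.var 1) (E.var 3)),
      E.sub (E.add (E.var 0) (E.var 2)) (E.q 9500 10000)] 22
      [V.of 10000 x0 x1, V.of 10000 T0 T1, V.of 10000 k0 k1, V.of 10000 t0 t1]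

/-- side of the `1`, flat part -/
theorem flat1 {a b xc c x0 x1 T0 T1 k0 k1 t0 t1 s0 s1 : ℤ}
    (h : f1C a b xc c x0 x1 T0 T1 k0 k1 t0 t1 s0 s1 = true)
    (hx : (x0 : ℝ) / 10000 ≤ x) (hx' : x ≤ (x1 : ℝ) / 10000) (hT : (T0 : ℝ) / 10000 ≤ T)
    (hT' : T ≤ (T1 : ℝ) / 10000) (hk : (k0 : ℝ) / 10000 ≤ k) (hk' : k ≤ (k1 : ℝ) / 10000)
    (hκ : (t0 : ℝ) / 10000 ≤ κ) (hκ' : κ ≤ (t1 : ℝ) / 10000)
    (hs : (s0 : ℝ) / 10000 ≤ T + κ) (hs' : T + κ ≤ (s1 : ℝ) / 10000)
    (hxk : x + k ≤ 95 / 100) : MR.s1 0 x T k κ < af a b xc c x T := by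
  obtain ⟨e, he, hp⟩ := chk4 h (by norm_num) (x := x) (y := T) (z := k) (w := κ)
    (by push_cast; exact hx) (by push_cast; exact hx') (by push_cast; exact hT)
    (by push_cast; exact hT') (by push_cast; exact hk) (by push_cast; exact hk')
    (by push_cast; exact hκ) (by push_cast; exact hκ')
  simp only [List.mem_cons, List.mem_nil_iff, or_false] at he
  rcases he with rfl | rfl | rfl | rfl
  · rw [E.val, e10_val, afE_val (x := x) (T := T) a b xc c rfl rfl] at hp
    simp only [E.val, lkR] at hp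
    linarith only [hp]
  · exfalso
    simp only [E.val, lkR] at hp
    push_cast at hp
    linarith only [hs', hp]
  · exfalso
    simp only [E.val, lkR] at hp
    push_cast at hp
    linarith only [hs, hp]
  · exfalso
    simp only [E.val, lkR] at hp
    push_cast at hp
    linarith only [hxk, hp]

/-- certificate, side of the `1`, ramp -/
def r1C (a b xc c x0 x1 T0 T1 k0 k1 t0 t1 s0 s1 : ℤ) : Bool :=
  chk [E.sub (afE a b xc c (E.var 0) (E.var 1))
        (MR.e1 (E.neg (mrE (E.var 1))) (E.var 0) (E.neg (hrE (E.var 0) (E.var 1))) (E.var 2)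
          (E.var 3)),
      E.sub (E.add (E.var 1) (E.var 3)) (E.q s1 10000),
      E.sub (E.q s0 10000) (E.add (E.var 1) (E.var 3)),
      E.sub (E.add (E.var 0) (E.var 2)) (E.q 9500 10000)] 22
      [V.of 10000 x0 x1, V.of 10000 T0 T1, V.of 10000 k0 k1, V.of 10000 t0 t1]

/-- side of the `1`, ramp -/
theorem ramp1 {a b xc c x0 x1 T0 T1 k0 k1 t0 t1 s0 s1 : ℤ} {hh m : ℝ}
    (h : r1C a b xc c x0 x1 T0 T1 k0 k1 t0 t1 s0 s1 = true)
    (hx : (x0 : ℝ) / 10000 ≤ x) (hx' : x ≤ (x1 : ℝ) / 10000) (hT : (T0 : ℝ) / 10000 ≤ T)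
    (hT' : T ≤ (T1 : ℝ) / 10000) (hk : (k0 : ℝ) / 10000 ≤ k) (hk' : k ≤ (k1 : ℝ) / 10000)
    (hκ : (t0 : ℝ) / 10000 ≤ κ) (hκ' : κ ≤ (t1 : ℝ) / 10000)
    (hs : (s0 : ℝ) / 10000 ≤ T + κ) (hs' : T + κ ≤ (s1 : ℝ) / 10000)
    (hxk : x + k ≤ 95 / 100) (hh' : hh = T * (20 / 3 * (65 / 100 - x)))
    (hm : m = -(20 / 3 * T)) : MR.s1 m x hh k κ < af a b xc c x T := by
  obtain ⟨e, he, hp⟩ := chk4 h (by norm_num) (x := x) (y := T) (z := k) (w := κ)
    (by push_cast; exact hx) (by push_cast; exact hx') (by push_cast; exact hT)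
    (by push_cast; exact hT') (by push_cast; exact hk) (by push_cast; exact hk')
    (by push_cast; exact hκ) (by push_cast; exact hκ')
  have eh : (E.neg (hrE (E.var 0) (E.var 1))).val [x, T, k, κ] = hh := by
    rw [hh']
    simp only [hrE, E.val, lkR]
    push_cast
    ring
  have em : (E.neg (mrE (E.var 1))).val [x, T, k, κ] = m := by
    rw [hm]
    simp only [mrE, E.val, lkR]
    push_cast
    ring
  simp only [List.mem_cons, List.mem_nil_iff, or_false] at he
  rcases he with rfl | rfl | rfl | rfl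
  · rw [E.val, MR.e1_val, eh, em, afE_val (x := x) (T := T) a b xc c rfl rfl] at hp
    simp only [E.val, lkR] at hp
    linarith only [hp]
  · exfalso
    simp only [E.val, lkR] at hp
    push_cast at hp
    linarith only [hs', hp]
  · exfalso
    simp only [E.val, lkR] at hp
    push_cast at hp
    linarith only [hs, hp]
  · exfalso
    simp only [E.val, lkR] at hp
    push_cast at hp
    linarith only [hxk, hp]

end HX

end Pool.Agent.Work.MP_b30479_gt.G2
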