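import Pool.Agent.Work.MP_b30479_gt.G2.H13B

/-!
# Right side of the hinge `1 | 3` (slot `0`): certificates `K1`
-/

namespace Pool.Agent.Work.MP_b30479_gt.G2

namespace HX

theorem cK1Ah :
    f3C 2029 (-13666) 4625 (-14568) 1310 (-150) 4500 4750 210 1145 400 3000 (-900) (-180) (-450) 700 7390 0 = true := by
  decide +kernel

theorem cK1Sh :
    f3C 2029 (-13666) 4625 (-14568) 1100 (-150) 4500 4750 210 1145 2640 3000 (-900) (-180) (-450) 700 7500 7390 = true := by
  decide +kernel

theorem cK1Bh :
    f3C 1847 (-5152) 4875 (-15169) 1100 (-150) 4750 5000 210 1145 400 2750 (-900) (-180) (-450) 700 7500 0 = true := by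
  decide +kernel

theorem cK1Ch :
    r3C 11968 (-1296) 5250 152965 1100 (-150) 5000 5500 210 1145 400 2500 (-900) (-180) (-450) 700 7500 = true := by
  decide +kernel

theorem cK1Dh :
    r3C 10992 (-20587) 6000 144269 1100 (-150) 5500 6350 210 1145 400 2000 (-900) (-180) (-450) 700 7500 = true := by
  decide +kernel

theorem cK1Eh :
    r3C 10992 (-20587) 6000 144269 1100 (-150) 6350 6500 210 940 400 1150 (-900) (-180) (-450) 700 7500 = true := by
  decide +kernel

theorem cK1Al :
    f3C 2029 (-13666) 4625 (-14568) 1310 (-1145) 4500 4750 210 1145 400 3000 (-900) (-180) (-450) 700 7390 0 = true := by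
  decide +kernel

theorem cK1Sl :
    f3C 2029 (-13666) 4625 (-14568) 1100 (-1145) 4500 4750 210 1145 2640 3000 (-900) (-180) (-450) 700 7500 7390 = true := by
  decide +kernel

theorem cK1Bl :
    f3C 1847 (-5152) 4875 (-15169) 1100 (-1145) 4750 5000 210 1145 400 2750 (-900) (-180) (-450) 700 7500 0 = true := by
  decide +kernel

theorem cK1Cl :
    r3C 11968 (-1296) 5250 152965 1100 (-1145) 5000 5500 210 1145 400 2500 (-900) (-180) (-450) 700 7500 = true := by
  decide +kernel

theorem cK1Dl :
    r3C 10992 (-20587) 6000 144269 1100 (-1145) 5500 6350 210 1145 400 2000 (-900) (-180) (-450) 700 7500 = true := by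
  decide +kernel

theorem cK1El :
    r3C 10992 (-20587) 6000 144269 1100 (-1145) 6350 6500 210 940 400 1150 (-900) (-180) (-450) 700 7500 = true := by
  decide +kernel

end HX

end Pool.Agent.Work.MP_b30479_gt.G2
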