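import Pool.Agent.Work.MP_b30479_gt.G2.H13
import Pool.Agent.Work.MP_b30479_gt.G2.WLocX
import Pool.Agent.Work.MP_b30479_gt.G2.H13P

/-!
# Right side of the hinge `1 | 3` (slot `0`): the side of the digit `1`
-/

namespace Pool.Agent.Work.MP_b30479_gt.G2

open VOL NumI

namespace HX

/-- floors of the other hinge of the digit `1`, given the hinge `1 | 3` -/
def K13 (c : SR.Cl) (x k : ℝ) : Prop :=
  match c with
  | .one => (x ≤ 475 / 1000 → 1879 / 10000 ≤ k) ∧ (x ≤ 1 / 2 → 1856 / 10000 ≤ k) ∧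
      (x ≤ 55 / 100 → 1772 / 10000 ≤ k) ∧ 1558 / 10000 ≤ k
  | .two => (x ≤ 475 / 1000 → 2282 / 10000 ≤ k) ∧ (x ≤ 1 / 2 → 2248 / 10000 ≤ k) ∧
      (x ≤ 55 / 100 → 2117 / 10000 ≤ k) ∧ 1824 / 10000 ≤ k
  | .twoE => (x ≤ 475 / 1000 → 2344 / 10000 ≤ k) ∧ (x ≤ 1 / 2 → 2277 / 10000 ≤ k) ∧
      (x ≤ 55 / 100 → 2021 / 10000 ≤ k) ∧ 1594 / 10000 ≤ k
  | _ => True

/-- the digit `1`: hinge `x`, height `T`; other hinge `k`, height `κ`; `P`: class of the other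
neighbour -/
structure In1 (P : SR.Cl) (x T k κ : ℝ) : Prop where
  c : P = .one ∨ P = .two ∨ P = .twoE
  x0 : 45 / 100 ≤ x
  x1 : x ≤ 65 / 100
  s : x + k ≤ 95 / 100
  E : P = .twoE → k ≤ 35 / 100 ∧ x ≤ 635 / 1000
  T0 : (SR.cw P .three).t0 ≤ T
  T1 : T ≤ (SR.cw P .three).t1
  k0 : (SR.cw .three P).t0 ≤ κ
  k1 : κ ≤ (SR.cw .three P).t1
  s0 : (SR.cw P .three).s0 ≤ T + κ
  s1 : T + κ ≤ (SR.cw P .three).s1
  f : K13 P x k

variable {P : SR.Cl} {x T k κ hh m : ℝ}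

/-- the side of the digit `1`, `x ≤ .475` -/
theorem one_A (H : In1 P x T k κ) (hx : x ≤ 475 / 1000) : MR.s1 0 x T k κ < fA x T := by
  obtain ⟨hP, x0, x1, s, E, T0, T1, k0, k1, s0, s1, f⟩ := H
  unfold fA
  rcases hP with rfl | rfl | rfl
  · simp only [SR.cw] at T0 T1 k0 k1 s0 s1
    have hf := f.1 hx
    refine flat1 cP1A ?_ ?_ ?_ ?_ ?_ ?_ ?_ ?_ ?_ ?_ s <;>
      first | linarith only [x0, hx, T0, T1, hf, s, k0, k1, s0, s1] | (push_cast; linarith)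
  · simp only [SR.cw] at T0 T1 k0 k1 s0 s1
    have hf := f.1 hx
    refine flat1 cP2A ?_ ?_ ?_ ?_ ?_ ?_ ?_ ?_ ?_ ?_ s <;>
      first | linarith only [x0, hx, T0, T1, hf, s, k0, k1, s0, s1] | (push_cast; linarith)
  · simp only [SR.cw] at T0 T1 k0 k1 s0 s1
    have hf := f.1 hx
    have hE := E rfl
    refine flat1 cPEA ?_ ?_ ?_ ?_ ?_ ?_ ?_ ?_ ?_ ?_ s <;>
      first | linarith only [x0, hx, T0, T1, hf, hE, k0, k1, s0, s1] | (push_cast; linarith)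

/-- the side of the digit `1`, `.475 ≤ x ≤ .50` -/
theorem one_B (H : In1 P x T k κ) (hx0 : 475 / 1000 ≤ x) (hx : x ≤ 1 / 2) :
    MR.s1 0 x T k κ < fB x T := by
  obtain ⟨hP, x0, x1, s, E, T0, T1, k0, k1, s0, s1, f⟩ := H
  unfold fB
  rcases hP with rfl | rfl | rfl
  · simp only [SR.cw] at T0 T1 k0 k1 s0 s1
    have hf := f.2.1 hx
    refine flat1 cP1B ?_ ?_ ?_ ?_ ?_ ?_ ?_ ?_ ?_ ?_ s <;>
      first | linarith only [hx0, hx, T0, T1, hf, s, k0, k1, s0, s1] | (push_cast; linarith)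
  · simp only [SR.cw] at T0 T1 k0 k1 s0 s1
    have hf := f.2.1 hx
    refine flat1 cP2B ?_ ?_ ?_ ?_ ?_ ?_ ?_ ?_ ?_ ?_ s <;>
      first | linarith only [hx0, hx, T0, T1, hf, s, k0, k1, s0, s1] | (push_cast; linarith)
  · simp only [SR.cw] at T0 T1 k0 k1 s0 s1
    have hf := f.2.1 hx
    have hE := E rfl
    refine flat1 cPEB ?_ ?_ ?_ ?_ ?_ ?_ ?_ ?_ ?_ ?_ s <;>
      first | linarith only [hx0, hx, T0, T1, hf, hE, k0, k1, s0, s1] | (push_cast; linarith)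

/-- the side of the digit `1`, `.50 ≤ x ≤ .55` -/
theorem one_C (H : In1 P x T k κ) (hx0 : 1 / 2 ≤ x) (hx : x ≤ 55 / 100)
    (hh' : hh = T * (20 / 3 * (65 / 100 - x))) (hm : m = -(20 / 3 * T)) :
    MR.s1 m x hh k κ < fC x T := by
  obtain ⟨hP, x0, x1, s, E, T0, T1, k0, k1, s0, s1, f⟩ := H
  unfold fC
  rcases hP with rfl | rfl | rfl
  · simp only [SR.cw] at T0 T1 k0 k1 s0 s1
    have hf := f.2.2.1 hx
    refine ramp1 cP1C ?_ ?_ ?_ ?_ ?_ ?_ ?_ ?_ ?_ ?_ s hh' hm <;>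
      first | linarith only [hx0, hx, T0, T1, hf, s, k0, k1, s0, s1] | (push_cast; linarith)
  · simp only [SR.cw] at T0 T1 k0 k1 s0 s1
    have hf := f.2.2.1 hx
    refine ramp1 cP2C ?_ ?_ ?_ ?_ ?_ ?_ ?_ ?_ ?_ ?_ s hh' hm <;>
      first | linarith only [hx0, hx, T0, T1, hf, s, k0, k1, s0, s1] | (push_cast; linarith)
  · simp only [SR.cw] at T0 T1 k0 k1 s0 s1
    have hf := f.2.2.1 hx
    have hE := E rfl
    refine ramp1 cPEC ?_ ?_ ?_ ?_ ?_ ?_ ?_ ?_ ?_ ?_ s hh' hm <;>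
      first | linarith only [hx0, hx, T0, T1, hf, hE, k0, k1, s0, s1] | (push_cast; linarith)

/-- the side of the digit `1`, `.55 ≤ x` -/
theorem one_D (H : In1 P x T k κ) (hx0 : 55 / 100 ≤ x)
    (hh' : hh = T * (20 / 3 * (65 / 100 - x))) (hm : m = -(20 / 3 * T)) :
    MR.s1 m x hh k κ < fD x T := by
  obtain ⟨hP, x0, x1, s, E, T0, T1, k0, k1, s0, s1, f⟩ := H
  unfold fD
  rcases hP with rfl | rfl | rfl
  · simp only [SR.cw] at T0 T1 k0 k1 s0 s1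
    have hf := f.2.2.2
    refine ramp1 cP1D ?_ ?_ ?_ ?_ ?_ ?_ ?_ ?_ ?_ ?_ s hh' hm <;>
      first | linarith only [hx0, x1, T0, T1, hf, s, k0, k1, s0, s1] | (push_cast; linarith)
  · simp only [SR.cw] at T0 T1 k0 k1 s0 s1
    have hf := f.2.2.2
    refine ramp1 cP2D ?_ ?_ ?_ ?_ ?_ ?_ ?_ ?_ ?_ ?_ s hh' hm <;>
      first | linarith only [hx0, x1, T0, T1, hf, s, k0, k1, s0, s1] | (push_cast; linarith)
  · simp only [SR.cw] at T0 T1 k0 k1 s0 s1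
    have hf := f.2.2.2
    have hE := E rfl
    refine ramp1 cPED ?_ ?_ ?_ ?_ ?_ ?_ ?_ ?_ ?_ ?_ s hh' hm <;>
      first | linarith only [hx0, hE, T0, T1, hf, k0, k1, s0, s1] | (push_cast; linarith)

end HX

end Pool.Agent.Work.MP_b30479_gt.G2
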