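import Pool.Agent.Work.NumI.Expr

/-!
# Interior 3-runs, level part: the certificates

A pair of classes of neighbours is described by a record of integers (`Prm`); the checks are
evaluated by the kernel.
-/

namespace Pool.Agent.Work.MP_b30479_gt.G2

namespace M3

open NumI (E V chk)
open NumI.E

/-- data of a pair of classes; unit `1/10000` (slopes `be`, `ga`, `lm`: unit `1/10`).
`u ∈ [ul, uh]`, `v ∈ [vl, vh]`, heights `tu ∈ [tul, tuh]`, `tv ∈ [tvl, tvh]`, `tm ∈ [tml, tmh]`,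
`tm - tv ∈ [tcl, tch]`; the inner variable of the maximiser is in
`[l0 + lm v, min m1 (e - be u + ga v)]`, the upper end is at least `mb`; `xl`: threshold for
`u + m`; `yl`: lower bound of `m - v` at the upper end; `ml`: lower bound of `m` -/
structure Prm where
  ul : ℤ
  uh : ℤ
  vl : ℤ
  vh : ℤ
  tul : ℤ
  tuh : ℤ
  tvl : ℤ
  tvh : ℤ
  tml : ℤ
  tmh : ℤ
  tcl : ℤ
  tch : ℤ
  l0 : ℤ
  lm : ℤ
  m1 : ℤ
  e : ℤ
  be : ℤ
  ga : ℤ
  mb : ℤ
  xl : ℤ
  yl : ℤ
  ml : ℤ

/-- a constant in the unit `1/10000` -/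
def T (n : ℤ) : E := q n 10000

/-- `1/2 log (4 (sin² πx + sinh² πt + 1/50))` -/
def lnEE (x t : E) : E :=
  mul (q 1 2) (log (mul (q 4 1) (add (add (sq (sinPi x)) (sq (sinh (mul pi t)))) (q 1 50))))

def f1 (x a : E) : E := add (E.lnA x a) (mul pi a)
def f1z (x : E) : E := mul (q 1 2) (log (sq (sinPi (mul (q 2 1) x))))
def f2 (x c : E) : E := sub (E.lnA x c) (mul pi c)
def f2e (x c : E) : E := sub (lnEE x c) (mul pi c)
def f3 (m t : E) : E := add (E.lnA m t) (mul pi (mul (q 3 1) t))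

/-- the ends of the range of `tm - tv` (`t`: the variable `tm`) -/
def cE (p : Prm) (t : E) : ℕ → E
  | 0 => sub t (T p.tvh)
  | 1 => T p.tcl
  | 2 => sub t (T p.tvl)
  | _ => T p.tch

/-- positive where the end is not needed -/
def cA (p : Prm) (t : E) : ℕ → E
  | 0 => sub (T (p.tcl + p.tvh)) t
  | 1 => sub t (T (p.tcl + p.tvh))
  | 2 => sub t (T (p.tch + p.tvl))
  | _ => sub (T (p.tch + p.tvl)) t

/-- alternatives: none if the end is used for all heights -/
def cL (p : Prm) (t : E) (c : ℕ) (fr : Bool) : List E := if fr then [] else [cA p t c]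

/-- the four bounds for the first term: end of the range of `u`, with or without the height -/
def gE (p : Prm) (m t : E) : ℕ → E
  | 0 => f1z (add (T p.ul) m)
  | 1 => f1 (add (T p.ul) m) (add t (T p.tul))
  | 2 => f1 (add (T p.uh) m) (add t (T p.tul))
  | _ => f1z (add (T p.uh) m)

/-- positive where the bound is not needed -/
def gA (p : Prm) (m : E) : ℕ → List E
  | 0 => [sub m (T (p.xl - p.ul))]
  | 1 => [sub (T (p.xl - p.ul)) m, sub (mul (q 2 1) m) (T (10000 - p.ul - p.uh))]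
  | 2 => [sub (T (10000 - p.ul - p.uh)) (mul (q 2 1) m), sub m (T (10000 - p.xl - p.uh))]
  | _ => [sub (T (10000 - p.xl - p.uh)) m]

/-- positivity for small `m`, variables `s, tm`; `y`: distance of `m` and `v` -/
def rowL (p : Prm) (y m : E) (j c : ℕ) (fr : Bool) : List E :=
  sub (neg (f2 y (cE p (var 1) c))) (sub (f3 m (var 1)) (gE p m (var 1) j)) ::
    (gA p m j ++ cL p (var 1) c fr ++
      [sub (neg (f2e y (cE p (var 1) c))) (sub (f3 m (var 1)) (gE p m (var 1) j))])

def boxL (p : Prm) (a b : ℤ) : List V := [V.of 10000 a b, V.of 10000 p.tml p.tmh]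

/-- the lower end of the range of the inner variable -/
def mLE (p : Prm) (v : E) : E := add (T p.l0) (mul (q p.lm 10) v)

def okLa (p : Prm) (c : ℕ) (fr : Bool) (j : ℕ) : Bool :=
  chk (rowL p (sub (T p.vh) (var 0)) (var 0) j c fr) 60 (boxL p p.ml p.vh)
def okLb (p : Prm) (c : ℕ) (fr : Bool) (j : ℕ) : Bool :=
  chk (rowL p (sub (var 0) (T p.vl)) (var 0) j c fr) 60 (boxL p p.vl ((10 * p.l0 + p.lm * p.vl) / 10 + 1))
def okLc (p : Prm) (c : ℕ) (fr : Bool) (j : ℕ) : Bool :=
  chk (rowL p (sub (mLE p (var 0)) (var 0)) (mLE p (var 0)) j c fr) 60 (boxL p p.vl p.vh)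

/-- positivity for one end of the range of `tm - tv` -/
def okL1 (p : Prm) (c : ℕ) (fr : Bool) : Bool :=
  (List.range 4).all fun j => okLa p c fr j && (okLb p c fr j && okLc p c fr j)

/-- positivity; `fl`, `fh`: the restriction of `tm - tv` is not needed at the lower, upper end -/
def okL (p : Prm) (fl fh : Bool) : Bool :=
  (okL1 p 0 fl && (fl || okL1 p 1 false)) && (okL1 p 2 fh && (fh || okL1 p 3 false))

/-- `e - be u + ga v` -/
def lin (p : Prm) (u v : E) : E := add (sub (T p.e) (mul (q p.be 10) u)) (mul (q p.ga 10) v)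

/-- negativity for large `m`: `x = u + m`, `y = m - v` -/
def eU (p : Prm) (a : ℤ) (x y m t : E) : E :=
  sub (add (f2 y (sub t (T p.tvl))) (f3 m t)) (f1 x (add t (T a)))

def box3 (p : Prm) (a b : ℤ) : List V :=
  [V.of 10000 p.vl p.vh, V.of 10000 a b, V.of 10000 p.tml p.tmh]

def okU1 (p : Prm) (a : ℤ) : Bool :=
  chk [eU p a (add (T p.ul) (var 1)) (sub (var 1) (var 0)) (var 1) (var 2),
      sub (lin p (T p.ul) (var 0)) (var 1)] 60 (box3 p p.mb 7500)
def okU2 (p : Prm) (a : ℤ) : Bool :=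
  chk [eU p a (add (T p.ul) (var 1)) (sub (var 1) (var 0)) (var 1) (var 2)] 60
      (box3 p p.m1 7500)
def okU3 (p : Prm) (a : ℤ) : Bool :=
  chk [eU p a (add (var 0) (lin p (var 0) (var 1))) (sub (lin p (var 0) (var 1)) (var 1))
      (lin p (var 0) (var 1)) (var 2), sub (lin p (var 0) (var 1)) (T p.m1)] 60
      [V.of 10000 p.ul p.uh, V.of 10000 p.vl p.vh, V.of 10000 p.tml p.tmh]
def okU4 (p : Prm) (a : ℤ) : Bool :=
  chk [eU p a (sub (add (T p.uh) (var 1)) (q 1 1)) (sub (var 1) (var 0)) (var 1) (var 2)] 60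
      (box3 p ((20000 - p.ul - p.uh) / 2) 7500)

/-- negativity; `f`: the end `m1` is not needed -/
def okU (p : Prm) (f : Bool) : Bool :=
  [p.tul, p.tuh].all fun a => okU1 p a && (okU3 p a && (okU4 p a && (f || okU2 p a)))

/-! ### the second derivatives, variables `u, v, m` -/

/-- data for the determinants; ranges as in `Prm`; `aP`, `aR`, `aS`, `aU`, `aC`: bounds of
`|tu + tm|`, `|tm|`, `|tv|`, `|tu|`, `|tm - tv|`; `hP`, ...: bounds of the squares of their
hyperbolic sines; `ma`: lower bound of the inner variable -/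
structure SPrm where
  ul : ℤ
  uh : ℤ
  vl : ℤ
  vh : ℤ
  l0 : ℤ
  lm : ℤ
  m1 : ℤ
  e : ℤ
  be : ℤ
  ga : ℤ
  ma : ℤ
  aP : ℤ
  hP : ℤ
  aR : ℤ
  hR : ℤ
  aS : ℤ
  hS : ℤ
  aU : ℤ
  hU : ℤ
  aC : ℤ
  hC : ℤ

/-- numerator and denominator of the two extreme values of `cot π(x + it)`, real part -/
def nP (h : ℤ) (x : E) : E := if h = 0 then cosPi x else mul (sinPi x) (cosPi x)
def dP (h : ℤ) (x : E) : E := if h = 0 then sinPi x else add (sq (sinPi x)) (T h)

/-- `R D - N` -/
def eRP (h k : ℤ) (x m : E) : E := sub (mul (mul (nP k m) (inv (dP k m))) (dP h x)) (nP h x)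

/-- `sin² πx cos πx / (sin² πx + h)` -/
def eS (h : ℤ) (x : E) : E := mul (mul (cosPi x) (sq (sinPi x))) (inv (add (sq (sinPi x)) (T h)))

/-- the first determinant, `u, v, m` -/
def eF (p : SPrm) (h k s : ℤ) (u v m : E) : E :=
  add (mul (cosPi (sub m v)) (add (add (mul (eS p.hS v) (dP h (add u m)))
    (mul (sinPi v) (eRP h k (add u m) m))) (mul (q s 1) (mul (sinPi u) (nP h (add u m))))))
    (mul (sinPi (sub m v)) (mul (eS p.hS v) (eRP h k (add u m) m)))

def eE (p : SPrm) (h s : ℤ) (u v m : E) : E :=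
  add (sub (mul (mul (q 2 1) (eS p.hU u)) (dP h (add u m))) (mul (sinPi u) (nP h (add u m))))
    (mul (q s 1) (mul (sinPi v) (nP h (add u m))))

def eG0 (p : SPrm) (h k : ℤ) (u m : E) : E :=
  sub (mul (mul (q 2 1) (eS p.hU u)) (eRP h k (add u m) m))
        (mul (mul (sinPi u) (nP h (add u m))) (mul (nP k m) (inv (dP k m))))

def eG (p : SPrm) (h k s : ℤ) (u v m : E) : E :=
  add (mul (mul (sinPi (sub m v)) (cosPi (sub m v))) (eE p h s u v m))
    (mul (add (sq (sinPi (sub m v))) (T p.hC)) (eG0 p h k u m))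

/-- sign condition on `u + m - 1/2` -/
def aX (s : ℤ) (x : E) : E := if s = 1 then sub (T 5000) x else sub x (T 5000)
/-- sign condition on `m - 1/2` -/
def aM (k : ℤ) (m : E) : E := if k = 0 then sub (T 5000) m else sub m (T 5000)

def linS (p : SPrm) (u v : E) : E := add (sub (T p.e) (mul (q p.be 10) u)) (mul (q p.ga 10) v)

def boxS2 (p : SPrm) : List V := [V.of 10000 p.ul p.uh, V.of 10000 p.ma p.m1]
def boxS3 (p : SPrm) : List V := [V.of 10000 p.ul p.uh, V.of 10000 p.vl p.vh, V.of 10000 p.ma p.m1]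

def a2 (p : SPrm) : E := sub (var 1) (linS p (var 0) (T p.vh))
def a3 (p : SPrm) : List E :=
  [sub (var 2) (linS p (var 0) (var 1)), sub (add (T p.l0) (mul (q p.lm 10) (var 1))) (var 2)]

def okR (p : SPrm) (h k : ℤ) : Bool :=
  chk [eRP h k (add (var 0) (var 1)) (var 1), aM k (var 1), a2 p] 60 (boxS2 p)
def okE (p : SPrm) (h s : ℤ) : Bool :=
  chk [eE p h s (var 0) (T p.vh) (var 1), aX s (add (var 0) (var 1)), a2 p] 60 (boxS2 p)
def okG0 (p : SPrm) (h k : ℤ) : Bool :=
  chk [eG0 p h k (var 0) (var 1), aM k (var 1), a2 p] 60 (boxS2 p)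
def okF (p : SPrm) (h k s : ℤ) : Bool :=
  chk (eF p h k s (var 0) (var 1) (var 2) :: aX s (add (var 0) (var 2)) :: aM k (var 2) :: a3 p) 60
    (boxS3 p)
def okG (p : SPrm) (h k s : ℤ) : Bool :=
  chk (eG p h k s (var 0) (var 1) (var 2) :: aX s (add (var 0) (var 2)) :: aM k (var 2) :: a3 p) 60
    (boxS3 p)

/-- bound of a hyperbolic sine -/
def okH (a h : ℤ) : Bool := chk [sub (T h) (sq (sinh (mul pi (T a))))] 2 []

/-- the checks of the determinants; `g`: `eG0` is positive for `m ≥ 1/2` too -/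
def okS (p : SPrm) (g : Bool) : Bool :=
  ([0, p.hP].all fun h => (okR p h 0 && okR p h p.hR) && (okE p h 1 && okE p h (-1)) &&
      ([0, p.hR].all fun k => okF p h k 1 && okF p h k (-1)) && okG0 p h p.hR &&
      (if g then okG0 p h 0 else okG p h 0 1 && okG p h 0 (-1))) &&
  (okH p.aP p.hP && (okH p.aR p.hR && (okH p.aS p.hS && (okH p.aU p.hU && okH p.aC p.hC))))

end M3

end Pool.Agent.Work.MP_b30479_gt.G2
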