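import Pool.Agent.Work.MP_b30479_gt.G2.H13
import Pool.Agent.Work.MP_b30479_gt.G2.M3N

/-!
# Right side of the hinge `1 | 3` (slot `0`): inner variable on its right ramp

The hinge is on its ramp `[55/100, 65/100]`, the inner variable is `r + 20 t (8/10 - r) i`,
`75/100 ≤ r ≤ 8/10`: no first order condition is needed.
-/

set_option linter.unusedSimpArgs false

namespace Pool.Agent.Work.MP_b30479_gt.G2

open VOL NumI

namespace HX

/-- certificate -/
def rRC (a b xc c x0 x1 T0 T1 t0 t1 s0 s1 : ℤ) : Bool :=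
  chk [E.neg (E.add (afE a b xc c (E.var 0) (E.var 1))
      (s3E (mrE (E.var 1)) (E.var 0) (hrE (E.var 0) (E.var 1)) (E.sub (E.q 8 10) (E.var 3))
        (E.mul (E.mul (E.q 20 1) (E.var 2)) (E.var 3)))),
      E.sub (E.add (E.var 2) (E.var 1)) (E.q s1 10000),
      E.sub (E.q s0 10000) (E.add (E.var 2) (E.var 1))] 22
      [V.of 10000 x0 x1, V.of 10000 T0 T1, V.of 10000 t0 t1, V.of 10000 0 500]

theorem rR_use {a b xc c x0 x1 T0 T1 t0 t1 s0 s1 : ℤ} {x T t r hh m τ : ℝ}
    (h : rRC a b xc c x0 x1 T0 T1 t0 t1 s0 s1 = true)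
    (hx : (x0 : ℝ) / 10000 ≤ x) (hx' : x ≤ (x1 : ℝ) / 10000) (hT : (T0 : ℝ) / 10000 ≤ T)
    (hT' : T ≤ (T1 : ℝ) / 10000) (ht : (t0 : ℝ) / 10000 ≤ t) (ht' : t ≤ (t1 : ℝ) / 10000)
    (hs : (s0 : ℝ) / 10000 ≤ t + T) (hs' : t + T ≤ (s1 : ℝ) / 10000)
    (hr : 75 / 100 ≤ r) (hr' : r ≤ 80 / 100) (hτ : τ = 20 * t * (8 / 10 - r))
    (hh' : hh = -(T * (20 / 3 * (65 / 100 - x)))) (hm : m = 20 / 3 * T) :
    s3 m x hh r τ < -(af a b xc c x T) := by
  obtain ⟨e, he, hp⟩ := chk4 h (by norm_num) (x := x) (y := T) (z := t) (w := 8 / 10 - r)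
    (by push_cast; exact hx) (by push_cast; exact hx') (by push_cast; exact hT)
    (by push_cast; exact hT') (by push_cast; exact ht) (by push_cast; exact ht')
    (by push_cast; linarith only [hr']) (by push_cast; linarith only [hr])
  have eh : (hrE (E.var 0) (E.var 1)).val [x, T, t, 8 / 10 - r] = hh := by
    rw [hh']
    simp only [hrE, E.val, lkR]
    push_cast
    ring
  have em : (mrE (E.var 1)).val [x, T, t, 8 / 10 - r] = m := by
    rw [hm]
    simp only [mrE, E.val, lkR]
    push_cast
    ring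
  have er : (E.sub (E.q 8 10) (E.var 3)).val [x, T, t, 8 / 10 - r] = r := by
    simp only [E.val, lkR]
    push_cast
    ring
  have et : (E.mul (E.mul (E.q 20 1) (E.var 2)) (E.var 3)).val [x, T, t, 8 / 10 - r] = τ := by
    rw [hτ]
    simp only [E.val, lkR]
    push_cast
    ring
  simp only [List.mem_cons, List.mem_nil_iff, or_false] at he
  rcases he with rfl | rfl | rfl
  · rw [E.val, E.val, s3E_val, afE_val (x := x) (T := T) a b xc c rfl rfl, eh, em, er, et] at hp
    simp only [E.val, lkR] at hp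
    linarith only [hp]
  · exfalso
    simp only [E.val, lkR] at hp
    push_cast at hp
    linarith only [hs', hp]
  · exfalso
    simp only [E.val, lkR] at hp
    push_cast at hp
    linarith only [hs, hp]

theorem cRa : rRC 10992 (-20587) 6000 144269 5500 6350 210 1145 (-820) 50 (-400) 840 = true := by
  decide +kernel

theorem cRb : rRC 10992 (-20587) 6000 144269 6350 6500 210 940 (-820) 50 (-400) 840 = true := by
  decide +kernel

/-- the side of the digit `3`, inner variable on its right ramp -/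
theorem three_R {u v : ℂ} {T t r m : ℝ} (h1 : v.re = r) (h2 : v.im = 20 * t * (8 / 10 - r))
    (hr : 75 / 100 ≤ r) (hr' : r ≤ 80 / 100) (hx : 55 / 100 ≤ u.re) (hx' : u.re ≤ 65 / 100)
    (hd : u.re ≤ 635 / 1000 ∨ T ≤ 94 / 1000) (hT : 21 / 1000 ≤ T) (hT' : T ≤ 1145 / 10000)
    (ht : -82 / 1000 ≤ t) (ht' : t ≤ 5 / 1000) (hs : -40 / 1000 ≤ t + T)
    (hs' : t + T ≤ 84 / 1000) (hu : u.im = -(T * (20 / 3 * (65 / 100 - u.re))))
    (hm : m = 20 / 3 * T) : S3 1 m u v < -fD u.re T := by
  rw [S3_eq (by linarith only [hx]) (by linarith only [hx']) (by linarith only [h1, hr, hx']) (by linarith only [h1, hr', hx]), h1]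
  unfold fD
  rcases le_or_gt u.re (635 / 1000) with h5 | h5
  · exact rR_use cRa (by push_cast; linarith only [hx]) (by push_cast; linarith only [h5]) (by push_cast; linarith only [hT])
      (by push_cast; linarith only [hT']) (by push_cast; linarith only [ht]) (by push_cast; linarith only [ht'])
      (by push_cast; linarith only [hs]) (by push_cast; linarith only [hs']) hr hr' h2 hu hm
  · have hT2 : T ≤ 94 / 1000 := hd.resolve_left (not_le.2 h5)
    exact rR_use cRb (by push_cast; linarith only [h5]) (by push_cast; linarith only [hx']) (by push_cast; linarith only [hT])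
      (by push_cast; linarith only [hT2]) (by push_cast; linarith only [ht]) (by push_cast; linarith only [ht'])
      (by push_cast; linarith only [hs]) (by push_cast; linarith only [hs']) hr hr' h2 hu hm

end HX

end Pool.Agent.Work.MP_b30479_gt.G2
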