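import Pool.Agent.Work.MP_b30479_gt.G2.H13Q

/-!
# Right side of the hinge `1 | 3` (slot `0`): `1 | 3 | 1`, hinge in `[47/100, 475/1000]`

No conditional floor of the hinge in the slot `2` is used.
-/

namespace Pool.Agent.Work.MP_b30479_gt.G2

open VOL NumI

namespace HX

theorem cSh :
    f3C 1847 (-5152) 4875 (-15169) 1100 (-150) 4700 4750 210 1145 400 2800 (-900) (-180) (-450)
      700 7500 0 = true := by
  decide +kernel

theorem cSl :
    f3C 1847 (-5152) 4875 (-15169) 1100 (-1145) 4700 4750 210 1145 400 2800 (-900) (-180) (-450)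
      700 7500 0 = true := by
  decide +kernel

theorem cS1 :
    f1C 1847 (-5152) 4875 (-15169) 4700 4750 210 920 1879 4800 (-910) 490 (-220) 1110 = true := by
  decide +kernel

theorem cS2 :
    f1C 1847 (-5152) 4875 (-15169) 4700 4750 460 940 2282 4800 100 770 780 1480 = true := by
  decide +kernel

theorem cSE :
    f1C 1847 (-5152) 4875 (-15169) 4700 4750 870 1145 2344 3500 (-450) (-250) 510 770 = true := by
  decide +kernel

variable {u v w : ℂ} {P K : SR.Cl} {x T k κ : ℝ}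

/-- the side of the digit `3`, `1 | 3 | 1`, `.47 ≤ x ≤ .475` -/
theorem three_S (H : In3 K u v w T) (hK : K = .one) (hx : 47 / 100 ≤ u.re)
    (hx' : u.re ≤ 475 / 1000) (hu : u.im = -T) : S3 1 0 u v < -(fB u.re T) := by
  subst hK
  have d := H.v1
  have d1 := H.w0
  have hx0 : 45 / 100 ≤ u.re := by linarith only [hx]
  have e1 : ((4700 : ℤ) : ℝ) / 10000 ≤ u.re := by push_cast; linarith only [hx]
  have e2 : u.re ≤ ((4750 : ℤ) : ℝ) / 10000 := by push_cast; linarith only [hx']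
  have e3 : v.re - u.re ≤ ((2800 : ℤ) : ℝ) / 10000 := by push_cast; linarith only [hx, d, H.v1]
  have e4 : ((400 : ℤ) : ℝ) / 10000 ≤ v.re - u.re := by push_cast; linarith only [H, H.p0]
  have e5 : ((0 : ℤ) : ℝ) / 10000 ≤ v.re := by push_cast; linarith only [hx, e4, H.p0]
  have e6 : v.re ≤ ((7500 : ℤ) : ℝ) / 10000 := by push_cast; linarith only [d, H.v1]
  have e7 : ((1100 : ℤ) : ℝ) / 10000 = 11 / 100 := by norm_num
  exact flat3_k (K := .one) cSl cSh H hx0 e1 e2 e4 e3 e6 e5 hu (by rw [e7]; norm_num) e7.ge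
    (by rw [e7]; linarith only [d]) (by rw [e7]; exact d1)

/-- the side of the digit `1`, `.47 ≤ x ≤ .475` -/
theorem one_S (H : In1 P x T k κ) (hx0 : 47 / 100 ≤ x) (hx : x ≤ 475 / 1000) :
    MR.s1 0 x T k κ < fB x T := by
  obtain ⟨hP, x0, x1, s, E, T0, T1, k0, k1, s0, s1, f⟩ := H
  unfold fB
  rcases hP with rfl | rfl | rfl
  · simp only [SR.cw] at T0 T1 k0 k1 s0 s1
    have hf := f.1 hx
    refine flat1 cS1 ?_ ?_ ?_ ?_ ?_ ?_ ?_ ?_ ?_ ?_ s <;>
      first | linarith only [hx0, hx, T0, T1, hf, s, k0, k1, s0, s1] | (push_cast; linarith)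
  · simp only [SR.cw] at T0 T1 k0 k1 s0 s1
    have hf := f.1 hx
    refine flat1 cS2 ?_ ?_ ?_ ?_ ?_ ?_ ?_ ?_ ?_ ?_ s <;>
      first | linarith only [hx0, hx, T0, T1, hf, s, k0, k1, s0, s1] | (push_cast; linarith)
  · simp only [SR.cw] at T0 T1 k0 k1 s0 s1
    have hf := f.1 hx
    have hE := E rfl
    refine flat1 cSE ?_ ?_ ?_ ?_ ?_ ?_ ?_ ?_ ?_ ?_ s <;>
      first | linarith only [hx0, hx, T0, T1, hf, hE, k0, k1, s0, s1] | (push_cast; linarith)

end HX

end Pool.Agent.Work.MP_b30479_gt.G2
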