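import Pool.Agent.Work.MP_b30479_gt.G2.MRX
import Pool.Agent.Work.NumI.ChkS

/-!
# Right ramps of the hinges `2 | 2`, `2 | 2e`, `2e | 2e`

Sides of a region with two crossings in its own frame on the right ramp.  `v` is the partner hinge,
`Re v ≤ 60/100`.  Paths: `2 | 2`: `.60 | .1 | .28`, `2 | 2e`: `.60 | .1 | .33`, `2e | 2e`:
`.60 | .1 | .30`.
-/

set_option linter.unusedSimpArgs false

namespace Pool.Agent.Work.MP_b30479_gt.G2

open VOL NumI

namespace MR

section
open E

/-- slope `-T / (28/100)` -/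
def m22 : E := mul (q (-100) 28) (var 1)

/-- height on the ramp -/
def t22 : E := mul (var 1) (mul (q 100 28) (sub (q 6 10) (var 0)))

/-- shift -/
def c22 : E := q 145 100

def r22 : E := neg (add (e2 m22 (var 0) t22 (var 2) (var 3)) (mul m22 c22))
def k22 (r : E) : E := neg (add (en2 (q 16 100) r m22 (var 0) t22 (var 2) (var 3)) (mul m22 c22))
def b22 (s : E) : E := neg (add (eb2 s m22 (var 0) t22 (var 2) (var 3)) (mul m22 c22))

/-- slope `-T / (33/100)` -/
def m2e : E := mul (q (-100) 33) (var 1)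

def t2e : E := mul (var 1) (mul (q 100 33) (sub (q 6 10) (var 0)))

def c2e : E := q 15 10

def ex : E := sub (q 35 100) (mul (q 88 100) (sub (var 0) (q 27 100)))

def r2e : E := sub ex (add (e2 m2e (var 0) t2e (var 2) (var 3)) (mul m2e c2e))
def k2e (r : E) : E := sub ex (add (en2 (q 7 100) r m2e (var 0) t2e (var 2) (var 3)) (mul m2e c2e))
def k2e' (r : E) : E := sub ex (add (en2 (q 25 100) r m2e (var 0) t2e (var 2) (var 3)) (mul m2e c2e))
def b2e : E := sub ex (add (eb2 (q 1 1) m2e (var 0) t2e (var 2) (var 3)) (mul m2e c2e))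
def q2e : E := sub (neg ex) (add (e2e m2e (var 0) t2e) (mul m2e c2e))

def mee : E := mul (q (-100) 30) (var 1)
def tee : E := mul (var 1) (mul (q 100 30) (sub (q 6 10) (var 0)))
def qee : E := neg (e2e mee (var 0) tee)

/-- `x + x' ≤ n / d` resp. `≥` as alternatives -/
def uge (n : ℤ) (d : ℕ) : E := sub (add (var 0) (var 2)) (q n d)
def ule (n : ℤ) (d : ℕ) : E := sub (q n d) (add (var 0) (var 2))

end

theorem row22a0 {x T x' t' : ℝ} (h1 : 3200 / 10000 ≤ x) (h1' : x ≤ 3300 / 10000)
    (h2 : -(41 / 1000) ≤ T) (h2' : T ≤ 41 / 1000) (h3 : 0 ≤ x') (h3' : x' ≤ 6000 / 10000)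
    (h4 : -(985 / 10000) ≤ t')
    (h4' : t' ≤ 96 / 1000) (h5 : x + x' ≤ 88 / 100) :
    s2 (-T / (28 / 100)) x (T * ((60 / 100 - x) / (28 / 100))) x' t' +
      145 / 100 * (-T / (28 / 100)) < 0 := by
  have h : chk [r22, uge 88 100] 20 [V.of 10000 3200 3300, V.of 10000 (-410) 410, V.of 10000 0 6000, V.of 10000 (-985) 960] = true := by
    decide +kernel
  obtain ⟨f, hf, hp⟩ := chk4 h (by norm_num) (x := x) (y := T) (z := x') (w := t')
    (le_trans (by norm_num) h1) (le_trans h1' (by norm_num)) (le_trans (by norm_num) h2)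
    (le_trans h2' (by norm_num)) (le_trans (by norm_num) h3) (le_trans h3' (by norm_num))
    (le_trans (by norm_num) h4) (le_trans h4' (by norm_num))
  simp only [List.mem_cons, List.not_mem_nil, or_false] at hf
  rcases hf with rfl | rfl
  · simp only [r22, E.val, e2_val] at hp
    simp only [m22, t22, c22, E.val, lkR] at hp
    push_cast at hp
    ring_nf at hp ⊢
    linarith only [hp]
  · simp only [uge, ule, E.val, lkR] at hp
    push_cast at hp
    linarith only [h5, hp]

theorem row22a1 {x T x' t' : ℝ} (h1 : 3300 / 10000 ≤ x) (h1' : x ≤ 4000 / 10000)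
    (h2 : -(41 / 1000) ≤ T) (h2' : T ≤ 41 / 1000) (h3 : 0 ≤ x') (h3' : x' ≤ 6000 / 10000)
    (h4 : -(985 / 10000) ≤ t')
    (h4' : t' ≤ 96 / 1000) (h5 : x + x' ≤ 88 / 100) :
    s2 (-T / (28 / 100)) x (T * ((60 / 100 - x) / (28 / 100))) x' t' +
      145 / 100 * (-T / (28 / 100)) < 0 := by
  have h : chk [r22, uge 88 100] 20 [V.of 10000 3300 4000, V.of 10000 (-410) 410, V.of 10000 0 6000, V.of 10000 (-985) 960] = true := by
    decide +kernel
  obtain ⟨f, hf, hp⟩ := chk4 h (by norm_num) (x := x) (y := T) (z := x') (w := t')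
    (le_trans (by norm_num) h1) (le_trans h1' (by norm_num)) (le_trans (by norm_num) h2)
    (le_trans h2' (by norm_num)) (le_trans (by norm_num) h3) (le_trans h3' (by norm_num))
    (le_trans (by norm_num) h4) (le_trans h4' (by norm_num))
  simp only [List.mem_cons, List.not_mem_nil, or_false] at hf
  rcases hf with rfl | rfl
  · simp only [r22, E.val, e2_val] at hp
    simp only [m22, t22, c22, E.val, lkR] at hp
    push_cast at hp
    ring_nf at hp ⊢
    linarith only [hp]
  · simp only [uge, ule, E.val, lkR] at hp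
    push_cast at hp
    linarith only [h5, hp]

theorem row22a2 {x T x' t' : ℝ} (h1 : 4000 / 10000 ≤ x) (h1' : x ≤ 6000 / 10000)
    (h2 : -(41 / 1000) ≤ T) (h2' : T ≤ 41 / 1000) (h3 : 0 ≤ x') (h3' : x' ≤ 4800 / 10000)
    (h4 : -(985 / 10000) ≤ t')
    (h4' : t' ≤ 96 / 1000) (h5 : x + x' ≤ 88 / 100) :
    s2 (-T / (28 / 100)) x (T * ((60 / 100 - x) / (28 / 100))) x' t' +
      145 / 100 * (-T / (28 / 100)) < 0 := by
  have h : chk [r22, uge 88 100] 20 [V.of 10000 4000 6000, V.of 10000 (-410) 410, V.of 10000 0 4800, V.of 10000 (-985) 960] = true := by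
    decide +kernel
  obtain ⟨f, hf, hp⟩ := chk4 h (by norm_num) (x := x) (y := T) (z := x') (w := t')
    (le_trans (by norm_num) h1) (le_trans h1' (by norm_num)) (le_trans (by norm_num) h2)
    (le_trans h2' (by norm_num)) (le_trans (by norm_num) h3) (le_trans h3' (by norm_num))
    (le_trans (by norm_num) h4) (le_trans h4' (by norm_num))
  simp only [List.mem_cons, List.not_mem_nil, or_false] at hf
  rcases hf with rfl | rfl
  · simp only [r22, E.val, e2_val] at hp
    simp only [m22, t22, c22, E.val, lkR] at hp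
    push_cast at hp
    ring_nf at hp ⊢
    linarith only [hp]
  · simp only [uge, ule, E.val, lkR] at hp
    push_cast at hp
    linarith only [h5, hp]

theorem row22b1 {x T x' t' : ℝ} (h1 : 32 / 100 ≤ x) (h1' : x ≤ 60 / 100)
    (h2 : -(41 / 1000) ≤ T) (h2' : T ≤ 0) (h3 : 28 / 100 ≤ x') (h3' : x' ≤ 60 / 100)
    (h4 : -(985 / 10000) ≤ t')
    (h4' : t' ≤ 96 / 1000) (h5 : 88 / 100 ≤ x + x') (h6 : x + x' ≤ 1) :
    n2 (16 / 100) (1 / 2) (-T / (28 / 100)) x (T * ((60 / 100 - x) / (28 / 100))) x' t' +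
      145 / 100 * (-T / (28 / 100)) < 0 := by
  have h : chk [k22 (E.q 1 2), ule 88 100, uge 1 1] 20 [V.of 10000 3200 6000, V.of 10000 (-410) 0, V.of 10000 2800 6000, V.of 10000 (-985) 960] = true := by
    decide +kernel
  obtain ⟨f, hf, hp⟩ := chk4 h (by norm_num) (x := x) (y := T) (z := x') (w := t')
    (le_trans (by norm_num) h1) (le_trans h1' (by norm_num)) (le_trans (by norm_num) h2)
    (le_trans h2' (by norm_num)) (le_trans (by norm_num) h3) (le_trans h3' (by norm_num))
    (le_trans (by norm_num) h4) (le_trans h4' (by norm_num))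
  simp only [List.mem_cons, List.not_mem_nil, or_false] at hf
  rcases hf with rfl | rfl | rfl
  · simp only [k22, E.val, en2_val] at hp
    simp only [m22, t22, c22, E.val, lkR] at hp
    push_cast at hp
    ring_nf at hp ⊢
    linarith only [hp]
  · simp only [uge, ule, E.val, lkR] at hp
    push_cast at hp
    linarith only [h5, hp]
  · simp only [uge, ule, E.val, lkR] at hp
    push_cast at hp
    linarith only [h6, hp]

theorem row22b2 {x T x' t' : ℝ} (h1 : 32 / 100 ≤ x) (h1' : x ≤ 60 / 100)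
    (h2 : 0 ≤ T) (h2' : T ≤ 41 / 1000) (h3 : 28 / 100 ≤ x') (h3' : x' ≤ 60 / 100)
    (h4 : -(985 / 10000) ≤ t')
    (h4' : t' ≤ 96 / 1000) (h5 : 88 / 100 ≤ x + x') (h6 : x + x' ≤ 1) :
    n2 (16 / 100) (-1 / 2) (-T / (28 / 100)) x (T * ((60 / 100 - x) / (28 / 100))) x' t' +
      145 / 100 * (-T / (28 / 100)) < 0 := by
  have h : chk [k22 (E.q (-1) 2), ule 88 100, uge 1 1] 20 [V.of 10000 3200 6000, V.of 10000 0 410, V.of 10000 2800 6000, V.of 10000 (-985) 960] = true := by
    decide +kernel
  obtain ⟨f, hf, hp⟩ := chk4 h (by norm_num) (x := x) (y := T) (z := x') (w := t')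
    (le_trans (by norm_num) h1) (le_trans h1' (by norm_num)) (le_trans (by norm_num) h2)
    (le_trans h2' (by norm_num)) (le_trans (by norm_num) h3) (le_trans h3' (by norm_num))
    (le_trans (by norm_num) h4) (le_trans h4' (by norm_num))
  simp only [List.mem_cons, List.not_mem_nil, or_false] at hf
  rcases hf with rfl | rfl | rfl
  · simp only [k22, E.val, en2_val] at hp
    simp only [m22, t22, c22, E.val, lkR] at hp
    push_cast at hp
    ring_nf at hp ⊢
    linarith only [hp]
  · simp only [uge, ule, E.val, lkR] at hp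
    push_cast at hp
    linarith only [h5, hp]
  · simp only [uge, ule, E.val, lkR] at hp
    push_cast at hp
    linarith only [h6, hp]

theorem row22b3 {x T x' t' : ℝ} (h1 : 40 / 100 ≤ x) (h1' : x ≤ 60 / 100)
    (h2 : -(41 / 1000) ≤ T) (h2' : T ≤ 0) (h3 : 40 / 100 ≤ x') (h3' : x' ≤ 60 / 100)
    (h4 : -(985 / 10000) ≤ t')
    (h4' : t' ≤ 96 / 1000) (h5 : 1 ≤ x + x') (h6 : x + x' ≤ 112 / 100) :
    n2 (16 / 100) 1 (-T / (28 / 100)) x (T * ((60 / 100 - x) / (28 / 100))) x' t' +
      145 / 100 * (-T / (28 / 100)) < 0 := by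
  have h : chk [k22 (E.q 1 1), ule 1 1, uge 112 100] 20 [V.of 10000 4000 6000, V.of 10000 (-410) 0, V.of 10000 4000 6000, V.of 10000 (-985) 960] = true := by
    decide +kernel
  obtain ⟨f, hf, hp⟩ := chk4 h (by norm_num) (x := x) (y := T) (z := x') (w := t')
    (le_trans (by norm_num) h1) (le_trans h1' (by norm_num)) (le_trans (by norm_num) h2)
    (le_trans h2' (by norm_num)) (le_trans (by norm_num) h3) (le_trans h3' (by norm_num))
    (le_trans (by norm_num) h4) (le_trans h4' (by norm_num))
  simp only [List.mem_cons, List.not_mem_nil, or_false] at hf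
  rcases hf with rfl | rfl | rfl
  · simp only [k22, E.val, en2_val] at hp
    simp only [m22, t22, c22, E.val, lkR] at hp
    push_cast at hp
    ring_nf at hp ⊢
    linarith only [hp]
  · simp only [uge, ule, E.val, lkR] at hp
    push_cast at hp
    linarith only [h5, hp]
  · simp only [uge, ule, E.val, lkR] at hp
    push_cast at hp
    linarith only [h6, hp]

theorem row22b4 {x T x' t' : ℝ} (h1 : 40 / 100 ≤ x) (h1' : x ≤ 60 / 100)
    (h2 : 0 ≤ T) (h2' : T ≤ 41 / 1000) (h3 : 40 / 100 ≤ x') (h3' : x' ≤ 60 / 100)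
    (h4 : -(985 / 10000) ≤ t')
    (h4' : t' ≤ 96 / 1000) (h5 : 1 ≤ x + x') (h6 : x + x' ≤ 112 / 100) :
    n2 (16 / 100) (-1) (-T / (28 / 100)) x (T * ((60 / 100 - x) / (28 / 100))) x' t' +
      145 / 100 * (-T / (28 / 100)) < 0 := by
  have h : chk [k22 (E.q (-1) 1), ule 1 1, uge 112 100] 20 [V.of 10000 4000 6000, V.of 10000 0 410, V.of 10000 4000 6000, V.of 10000 (-985) 960] = true := by
    decide +kernel
  obtain ⟨f, hf, hp⟩ := chk4 h (by norm_num) (x := x) (y := T) (z := x') (w := t')
    (le_trans (by norm_num) h1) (le_trans h1' (by norm_num)) (le_trans (by norm_num) h2)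
    (le_trans h2' (by norm_num)) (le_trans (by norm_num) h3) (le_trans h3' (by norm_num))
    (le_trans (by norm_num) h4) (le_trans h4' (by norm_num))
  simp only [List.mem_cons, List.not_mem_nil, or_false] at hf
  rcases hf with rfl | rfl | rfl
  · simp only [k22, E.val, en2_val] at hp
    simp only [m22, t22, c22, E.val, lkR] at hp
    push_cast at hp
    ring_nf at hp ⊢
    linarith only [hp]
  · simp only [uge, ule, E.val, lkR] at hp
    push_cast at hp
    linarith only [h5, hp]
  · simp only [uge, ule, E.val, lkR] at hp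
    push_cast at hp
    linarith only [h6, hp]

theorem row22c1 {x T x' t' : ℝ} (h1 : 52 / 100 ≤ x) (h1' : x ≤ 60 / 100)
    (h2 : -(41 / 1000) ≤ T) (h2' : T ≤ 0) (h3 : 52 / 100 ≤ x') (h3' : x' ≤ 60 / 100)
    (h4 : -(985 / 10000) ≤ t')
    (h4' : t' ≤ 96 / 1000) (h5 : 112 / 100 ≤ x + x') :
    b2 1 (-T / (28 / 100)) x (T * ((60 / 100 - x) / (28 / 100))) x' t' +
      145 / 100 * (-T / (28 / 100)) < 0 := by
  have h : chk [b22 (E.q 1 1), ule 112 100] 20 [V.of 10000 5200 6000, V.of 10000 (-410) 0, V.of 10000 5200 6000, V.of 10000 (-985) 960] = true := by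
    decide +kernel
  obtain ⟨f, hf, hp⟩ := chk4 h (by norm_num) (x := x) (y := T) (z := x') (w := t')
    (le_trans (by norm_num) h1) (le_trans h1' (by norm_num)) (le_trans (by norm_num) h2)
    (le_trans h2' (by norm_num)) (le_trans (by norm_num) h3) (le_trans h3' (by norm_num))
    (le_trans (by norm_num) h4) (le_trans h4' (by norm_num))
  simp only [List.mem_cons, List.not_mem_nil, or_false] at hf
  rcases hf with rfl | rfl
  · simp only [b22, E.val, eb2_val] at hp
    simp only [m22, t22, c22, E.val, lkR] at hp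
    push_cast at hp
    ring_nf at hp ⊢
    linarith only [hp]
  · simp only [uge, ule, E.val, lkR] at hp
    push_cast at hp
    linarith only [h5, hp]

theorem row22c2 {x T x' t' : ℝ} (h1 : 52 / 100 ≤ x) (h1' : x ≤ 60 / 100)
    (h2 : 0 ≤ T) (h2' : T ≤ 41 / 1000) (h3 : 52 / 100 ≤ x') (h3' : x' ≤ 60 / 100)
    (h4 : -(985 / 10000) ≤ t')
    (h4' : t' ≤ 96 / 1000) (h5 : 112 / 100 ≤ x + x') :
    b2 (-1) (-T / (28 / 100)) x (T * ((60 / 100 - x) / (28 / 100))) x' t' +
      145 / 100 * (-T / (28 / 100)) < 0 := by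
  have h : chk [b22 (E.q (-1) 1), ule 112 100] 20 [V.of 10000 5200 6000, V.of 10000 0 410, V.of 10000 5200 6000, V.of 10000 (-985) 960] = true := by
    decide +kernel
  obtain ⟨f, hf, hp⟩ := chk4 h (by norm_num) (x := x) (y := T) (z := x') (w := t')
    (le_trans (by norm_num) h1) (le_trans h1' (by norm_num)) (le_trans (by norm_num) h2)
    (le_trans h2' (by norm_num)) (le_trans (by norm_num) h3) (le_trans h3' (by norm_num))
    (le_trans (by norm_num) h4) (le_trans h4' (by norm_num))
  simp only [List.mem_cons, List.not_mem_nil, or_false] at hf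
  rcases hf with rfl | rfl
  · simp only [b22, E.val, eb2_val] at hp
    simp only [m22, t22, c22, E.val, lkR] at hp
    push_cast at hp
    ring_nf at hp ⊢
    linarith only [hp]
  · simp only [uge, ule, E.val, lkR] at hp
    push_cast at hp
    linarith only [h5, hp]

theorem row2ea_h1_q1 : chk [r2e, uge 91 100] 19
    (NumI.setL 2 [V.of 10000 2700 6000, V.of 10000 (-850) (-450), V.of 10000 0 6000, V.of 10000 (-985) 960]) = true := by
  decide +kernel

theorem row2ea_h1_q2 : chk [r2e, uge 91 100] 18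
    (NumI.setL 0 (NumI.setR 2 [V.of 10000 2700 6000, V.of 10000 (-850) (-450), V.of 10000 0 6000, V.of 10000 (-985) 960])) = true := by
  decide +kernel

theorem row2ea_h1_q3 : chk [r2e, uge 91 100] 18
    (NumI.setR 0 (NumI.setR 2 [V.of 10000 2700 6000, V.of 10000 (-850) (-450), V.of 10000 0 6000, V.of 10000 (-985) 960])) = true := by
  decide +kernel

theorem row2ea_h1 : chk [r2e, uge 91 100] 20
    [V.of 10000 2700 6000, V.of 10000 (-850) (-450), V.of 10000 0 6000, V.of 10000 (-985) 960] = true :=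
  NumI.chk_node (i := 2) (by decide +kernel)
    row2ea_h1_q1
    (NumI.chk_node (i := 0) (by decide +kernel)
      row2ea_h1_q2
      row2ea_h1_q3)

theorem row2ea {x T x' t' : ℝ} (h1 : 27 / 100 ≤ x) (h1' : x ≤ 60 / 100)
    (h2 : -(85 / 1000) ≤ T) (h2' : T ≤ -(45 / 1000)) (h3 : 0 ≤ x') (h3' : x' ≤ 60 / 100)
    (h4 : -(985 / 10000) ≤ t')
    (h4' : t' ≤ 96 / 1000) (h5 : x + x' ≤ 91 / 100) :
    s2 (-T / (33 / 100)) x (T * ((60 / 100 - x) / (33 / 100))) x' t' +
      15 / 10 * (-T / (33 / 100)) < 35 / 100 - 88 / 100 * (x - 27 / 100) := by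
  have h : chk [r2e, uge 91 100] 20 [V.of 10000 2700 6000, V.of 10000 (-850) (-450), V.of 10000 0 6000, V.of 10000 (-985) 960] = true := row2ea_h1
  obtain ⟨f, hf, hp⟩ := chk4 h (by norm_num) (x := x) (y := T) (z := x') (w := t')
    (le_trans (by norm_num) h1) (le_trans h1' (by norm_num)) (le_trans (by norm_num) h2)
    (le_trans h2' (by norm_num)) (le_trans (by norm_num) h3) (le_trans h3' (by norm_num))
    (le_trans (by norm_num) h4) (le_trans h4' (by norm_num))
  simp only [List.mem_cons, List.not_mem_nil, or_false] at hf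
  rcases hf with rfl | rfl
  · simp only [r2e, E.val, e2_val] at hp
    simp only [ex, m2e, t2e, c2e, E.val, lkR] at hp
    push_cast at hp
    ring_nf at hp ⊢
    linarith only [hp]
  · simp only [uge, ule, E.val, lkR] at hp
    push_cast at hp
    linarith only [h5, hp]

theorem row2eb {x T x' t' : ℝ} (h1 : 31 / 100 ≤ x) (h1' : x ≤ 60 / 100)
    (h2 : -(85 / 1000) ≤ T) (h2' : T ≤ -(45 / 1000)) (h3 : 31 / 100 ≤ x') (h3' : x' ≤ 60 / 100)
    (h4 : -(985 / 10000) ≤ t')
    (h4' : t' ≤ 96 / 1000) (h5 : 91 / 100 ≤ x + x') (h6 : x + x' ≤ 1) :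
    n2 (7 / 100) (1 / 2) (-T / (33 / 100)) x (T * ((60 / 100 - x) / (33 / 100))) x' t' +
      15 / 10 * (-T / (33 / 100)) < 35 / 100 - 88 / 100 * (x - 27 / 100) := by
  have h : chk [k2e (E.q 1 2), ule 91 100, uge 1 1] 20 [V.of 10000 3100 6000, V.of 10000 (-850) (-450), V.of 10000 3100 6000, V.of 10000 (-985) 960] = true := by
    decide +kernel
  obtain ⟨f, hf, hp⟩ := chk4 h (by norm_num) (x := x) (y := T) (z := x') (w := t')
    (le_trans (by norm_num) h1) (le_trans h1' (by norm_num)) (le_trans (by norm_num) h2)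
    (le_trans h2' (by norm_num)) (le_trans (by norm_num) h3) (le_trans h3' (by norm_num))
    (le_trans (by norm_num) h4) (le_trans h4' (by norm_num))
  simp only [List.mem_cons, List.not_mem_nil, or_false] at hf
  rcases hf with rfl | rfl | rfl
  · simp only [k2e, E.val, en2_val] at hp
    simp only [ex, m2e, t2e, c2e, E.val, lkR] at hp
    push_cast at hp
    ring_nf at hp ⊢
    linarith only [hp]
  · simp only [uge, ule, E.val, lkR] at hp
    push_cast at hp
    linarith only [h5, hp]
  · simp only [uge, ule, E.val, lkR] at hp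
    push_cast at hp
    linarith only [h6, hp]

theorem row2eb2 {x T x' t' : ℝ} (h1 : 40 / 100 ≤ x) (h1' : x ≤ 60 / 100)
    (h2 : -(85 / 1000) ≤ T) (h2' : T ≤ -(45 / 1000)) (h3 : 40 / 100 ≤ x') (h3' : x' ≤ 60 / 100)
    (h4 : -(985 / 10000) ≤ t')
    (h4' : t' ≤ 96 / 1000) (h5 : 1 ≤ x + x') (h6 : x + x' ≤ 109 / 100) :
    n2 (7 / 100) 1 (-T / (33 / 100)) x (T * ((60 / 100 - x) / (33 / 100))) x' t' +
      15 / 10 * (-T / (33 / 100)) < 35 / 100 - 88 / 100 * (x - 27 / 100) := by
  have h : chk [k2e (E.q 1 1), ule 1 1, uge 109 100] 20 [V.of 10000 4000 6000, V.of 10000 (-850) (-450), V.of 10000 4000 6000, V.of 10000 (-985) 960] = true := by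
    decide +kernel
  obtain ⟨f, hf, hp⟩ := chk4 h (by norm_num) (x := x) (y := T) (z := x') (w := t')
    (le_trans (by norm_num) h1) (le_trans h1' (by norm_num)) (le_trans (by norm_num) h2)
    (le_trans h2' (by norm_num)) (le_trans (by norm_num) h3) (le_trans h3' (by norm_num))
    (le_trans (by norm_num) h4) (le_trans h4' (by norm_num))
  simp only [List.mem_cons, List.not_mem_nil, or_false] at hf
  rcases hf with rfl | rfl | rfl
  · simp only [k2e, E.val, en2_val] at hp
    simp only [ex, m2e, t2e, c2e, E.val, lkR] at hp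
    push_cast at hp
    ring_nf at hp ⊢
    linarith only [hp]
  · simp only [uge, ule, E.val, lkR] at hp
    push_cast at hp
    linarith only [h5, hp]
  · simp only [uge, ule, E.val, lkR] at hp
    push_cast at hp
    linarith only [h6, hp]

theorem row2eb3 {x T x' t' : ℝ} (h1 : 31 / 100 ≤ x) (h1' : x ≤ 60 / 100)
    (h2 : -(85 / 1000) ≤ T) (h2' : T ≤ -(45 / 1000)) (h3 : 31 / 100 ≤ x') (h3' : x' ≤ 60 / 100)
    (h4 : -(985 / 10000) ≤ t')
    (h4' : t' ≤ -(65 / 1000)) (h5 : 91 / 100 ≤ x + x') (h6 : x + x' ≤ 1) :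
    n2 (25 / 100) (1 / 2) (-T / (33 / 100)) x (T * ((60 / 100 - x) / (33 / 100))) x' t' +
      15 / 10 * (-T / (33 / 100)) < 35 / 100 - 88 / 100 * (x - 27 / 100) := by
  have h : chk [k2e' (E.q 1 2), ule 91 100, uge 1 1] 20 [V.of 10000 3100 6000, V.of 10000 (-850) (-450), V.of 10000 3100 6000, V.of 10000 (-985) (-650)] = true := by
    decide +kernel
  obtain ⟨f, hf, hp⟩ := chk4 h (by norm_num) (x := x) (y := T) (z := x') (w := t')
    (le_trans (by norm_num) h1) (le_trans h1' (by norm_num)) (le_trans (by norm_num) h2)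
    (le_trans h2' (by norm_num)) (le_trans (by norm_num) h3) (le_trans h3' (by norm_num))
    (le_trans (by norm_num) h4) (le_trans h4' (by norm_num))
  simp only [List.mem_cons, List.not_mem_nil, or_false] at hf
  rcases hf with rfl | rfl | rfl
  · simp only [k2e', E.val, en2_val] at hp
    simp only [ex, m2e, t2e, c2e, E.val, lkR] at hp
    push_cast at hp
    ring_nf at hp ⊢
    linarith only [hp]
  · simp only [uge, ule, E.val, lkR] at hp
    push_cast at hp
    linarith only [h5, hp]
  · simp only [uge, ule, E.val, lkR] at hp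
    push_cast at hp
    linarith only [h6, hp]

theorem row2eb4 {x T x' t' : ℝ} (h1 : 40 / 100 ≤ x) (h1' : x ≤ 60 / 100)
    (h2 : -(85 / 1000) ≤ T) (h2' : T ≤ -(45 / 1000)) (h3 : 40 / 100 ≤ x') (h3' : x' ≤ 60 / 100)
    (h4 : -(985 / 10000) ≤ t')
    (h4' : t' ≤ -(65 / 1000)) (h5 : 1 ≤ x + x') (h6 : x + x' ≤ 109 / 100) :
    n2 (25 / 100) 1 (-T / (33 / 100)) x (T * ((60 / 100 - x) / (33 / 100))) x' t' +
      15 / 10 * (-T / (33 / 100)) < 35 / 100 - 88 / 100 * (x - 27 / 100) := by
  have h : chk [k2e' (E.q 1 1), ule 1 1, uge 109 100] 20 [V.of 10000 4000 6000, V.of 10000 (-850) (-450), V.of 10000 4000 6000, V.of 10000 (-985) (-650)] = true := by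
    decide +kernel
  obtain ⟨f, hf, hp⟩ := chk4 h (by norm_num) (x := x) (y := T) (z := x') (w := t')
    (le_trans (by norm_num) h1) (le_trans h1' (by norm_num)) (le_trans (by norm_num) h2)
    (le_trans h2' (by norm_num)) (le_trans (by norm_num) h3) (le_trans h3' (by norm_num))
    (le_trans (by norm_num) h4) (le_trans h4' (by norm_num))
  simp only [List.mem_cons, List.not_mem_nil, or_false] at hf
  rcases hf with rfl | rfl | rfl
  · simp only [k2e', E.val, en2_val] at hp
    simp only [ex, m2e, t2e, c2e, E.val, lkR] at hp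
    push_cast at hp
    ring_nf at hp ⊢
    linarith only [hp]
  · simp only [uge, ule, E.val, lkR] at hp
    push_cast at hp
    linarith only [h5, hp]
  · simp only [uge, ule, E.val, lkR] at hp
    push_cast at hp
    linarith only [h6, hp]

theorem row2ec {x T x' t' : ℝ} (h1 : 49 / 100 ≤ x) (h1' : x ≤ 60 / 100)
    (h2 : -(85 / 1000) ≤ T) (h2' : T ≤ -(45 / 1000)) (h3 : 49 / 100 ≤ x') (h3' : x' ≤ 60 / 100)
    (h4 : -(985 / 10000) ≤ t')
    (h4' : t' ≤ 96 / 1000) (h5 : 109 / 100 ≤ x + x') :
    b2 1 (-T / (33 / 100)) x (T * ((60 / 100 - x) / (33 / 100))) x' t' +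
      15 / 10 * (-T / (33 / 100)) < 35 / 100 - 88 / 100 * (x - 27 / 100) := by
  have h : chk [b2e, ule 109 100] 20 [V.of 10000 4900 6000, V.of 10000 (-850) (-450), V.of 10000 4900 6000, V.of 10000 (-985) 960] = true := by
    decide +kernel
  obtain ⟨f, hf, hp⟩ := chk4 h (by norm_num) (x := x) (y := T) (z := x') (w := t')
    (le_trans (by norm_num) h1) (le_trans h1' (by norm_num)) (le_trans (by norm_num) h2)
    (le_trans h2' (by norm_num)) (le_trans (by norm_num) h3) (le_trans h3' (by norm_num))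
    (le_trans (by norm_num) h4) (le_trans h4' (by norm_num))
  simp only [List.mem_cons, List.not_mem_nil, or_false] at hf
  rcases hf with rfl | rfl
  · simp only [b2e, E.val, eb2_val] at hp
    simp only [ex, m2e, t2e, c2e, E.val, lkR] at hp
    push_cast at hp
    ring_nf at hp ⊢
    linarith only [hp]
  · simp only [uge, ule, E.val, lkR] at hp
    push_cast at hp
    linarith only [h5, hp]

theorem row2ed {x T : ℝ} (h1 : 27 / 100 ≤ x) (h1' : x ≤ 60 / 100) (h2 : 45 / 1000 ≤ T)
    (h2' : T ≤ 85 / 1000) :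
    s2e (-T / (33 / 100)) x (T * ((60 / 100 - x) / (33 / 100))) +
      15 / 10 * (-T / (33 / 100)) < -(35 / 100 - 88 / 100 * (x - 27 / 100)) := by
  have h : chk [q2e] 20 [V.of 10000 2700 6000, V.of 10000 450 850] = true := by decide +kernel
  have hp := pos_of_chk (chk2 h (by norm_num) (x := x) (y := T)
    (by norm_num; linarith only [h1]) (by norm_num; linarith only [h1']) (by norm_num; linarith only [h2]) (by norm_num; linarith only [h2']))
  simp only [q2e, E.val, e2e_val] at hp
  simp only [ex, m2e, t2e, c2e, E.val, lkR] at hp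
  push_cast at hp
  ring_nf at hp ⊢
  linarith only [hp]

theorem rowee {x T : ℝ} (h1 : 3 / 10 ≤ x) (h1' : x ≤ 60 / 100) (h2 : -(1 / 1000) ≤ T)
    (h2' : T ≤ 1 / 1000) :
    s2e (-T / (30 / 100)) x (T * ((60 / 100 - x) / (30 / 100))) < 0 := by
  have h : chk [qee] 20 [V.of 10000 3000 6000, V.of 10000 (-10) 10] = true := by decide +kernel
  have hp := pos_of_chk (chk2 h (by norm_num) (x := x) (y := T)
    (by norm_num; linarith only [h1]) (by norm_num; linarith only [h1']) (by norm_num; linarith only [h2]) (by norm_num; linarith only [h2']))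
  simp only [qee, E.val, e2e_val] at hp
  simp only [mee, tee, E.val, lkR] at hp
  push_cast at hp
  ring_nf at hp ⊢
  linarith only [hp]

/-- sign of the slope -/
theorem sgn_slope {T c : ℝ} (hc : 0 < c) : ∃ s : ℝ, (-T / c) * s = |-T / c| ∧
    ((s = 1 ∧ T ≤ 0) ∨ (s = -1 ∧ 0 ≤ T)) := by
  rcases le_total T 0 with h | h
  · exact ⟨1, by rw [mul_one, abs_of_nonneg (div_nonneg (by linarith only [h]) hc.le)], Or.inl ⟨rfl, h⟩⟩
  · exact ⟨-1, by rw [abs_of_nonpos (div_nonpos_of_nonpos_of_nonneg (by linarith only [h]) hc.le)]; ring,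
      Or.inr ⟨rfl, h⟩⟩

/-- **Right ramp of `2 | 2`**, own frame, slope `m = -T / cr`, shift `1.45`. -/
theorem right_two_two {w v : ℂ} {T : ℝ} (hT : -(41 / 1000) ≤ T) (hT' : T ≤ 41 / 1000)
    (hw : RH w T (60 / 100) (10 / 100) (28 / 100)) (hx : 32 / 100 ≤ w.re) (hv : 0 ≤ v.re)
    (hv' : v.re ≤ 60 / 100) (hk : -(985 / 10000) ≤ v.im) (hk' : v.im ≤ 96 / 1000) :
    S2 1 (-T / (28 / 100)) w v + 145 / 100 * (-T / (28 / 100)) < 0 := by
  have him := RH_right hw (by norm_num) (by norm_num) (by norm_num) (by linarith only [hx])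
  have hM := hw.reM
  have hws : w ∈ strip := ⟨by linarith only [hx], by linarith only [hM]⟩
  have hta : |w.im| ≤ 41 / 1000 := by
    rw [him, abs_mul]
    have h4 : |T| ≤ 41 / 1000 := abs_le.2 ⟨by linarith only [hT], hT'⟩
    have h5 : |(60 / 100 - w.re) / (28 / 100)| ≤ 1 := by
      rw [abs_le, le_div_iff₀ (by norm_num), div_le_iff₀ (by norm_num)]
      constructor <;> linarith only [hM, hx]
    have := mul_le_mul h4 h5 (abs_nonneg _) (by norm_num)
    linarith only [this]
  have h6 := abs_le.1 hta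
  have h7 : |(w + v).im| ≤ 14 / 100 := by
    rw [Complex.add_im, abs_le]
    constructor <;> linarith only [hk, h6, hk', h6.1, h6.2]
  obtain ⟨s, hs, hsT⟩ := sgn_slope (T := T) (c := 28 / 100) (by norm_num)
  rcases le_or_gt (w.re + v.re) (88 / 100) with h1 | h1
  · have hu : w + v ∈ strip := ⟨by simp; linarith only [hx, hv], by simp; linarith only [h1]⟩
    rw [S2_eq _ hws hu, him]
    rcases le_total w.re (33 / 100) with h2 | h2
    · exact row22a0 (by linarith only [hx]) (by linarith only [h2]) hT hT' hv (by linarith only [hv']) hk hk' h1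
    rcases le_total w.re (40 / 100) with h3 | h3
    · exact row22a1 (by linarith only [h2]) (by linarith only [h3]) hT hT' hv (by linarith only [hv']) hk hk' h1
    · exact row22a2 (by linarith only [h3]) (by linarith only [hM]) hT hT' hv (by linarith only [h1, h3]) hk hk' h1
  rcases le_or_gt (w.re + v.re) (112 / 100) with h2 | h2
  · have hL : LL (w + v) ≤ 16 / 100 := LL_rect kr_12_14 (by norm_num) (by norm_num)
      (by rw [Complex.add_re, abs_le]; constructor <;> linarith only [h1, h2]) h7
    rcases le_total (w.re + v.re) 1 with h3 | h3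
    · have hY : |YY (w + v)| ≤ 1 / 2 * Real.pi := by
        rw [one_div_mul_eq_div]
        exact YY_abs_le (by simp; linarith only [h1]) (by simpa using h3)
      have h9 := S2_near hs hws.1 hws.2 hL hY
      rw [him] at h9
      rcases hsT with ⟨rfl, h8⟩ | ⟨rfl, h8⟩
      · have h10 := row22b1 hx hM hT h8 (by linarith only [hM, h1]) hv' hk hk' h1.le h3
        rw [show (1 : ℝ) * (1 / 2) = 1 / 2 by norm_num] at h9
        linarith only [h9, h10]
      · have h10 := row22b2 hx hM h8 hT' (by linarith only [hM, h1]) hv' hk hk' h1.le h3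
        rw [show (-1 : ℝ) * (1 / 2) = -1 / 2 by norm_num] at h9
        linarith only [h9, h10]
    · have hY : |YY (w + v)| ≤ 1 * Real.pi := by
        rw [one_mul]
        exact YY_abs_pi (by simp; linarith only [h3]) (by simp; linarith only [hv', hM])
      have h9 := S2_near hs hws.1 hws.2 hL hY
      rw [him] at h9
      rcases hsT with ⟨rfl, h8⟩ | ⟨rfl, h8⟩
      · have h10 := row22b3 (by linarith only [hv', h3]) hM hT h8 (by linarith only [hM, h3]) hv' hk hk' h3 h2
        rw [show (1 : ℝ) * 1 = 1 by norm_num] at h9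
        linarith only [h9, h10]
      · have h10 := row22b4 (by linarith only [hv', h3]) hM h8 hT' (by linarith only [hM, h3]) hv' hk hk' h3 h2
        rw [show (-1 : ℝ) * 1 = -1 by norm_num] at h9
        linarith only [h9, h10]
  · have h9 := S2_beyond hs hws.1 hws.2 (by linarith) (by linarith)
    rw [him] at h9
    rcases hsT with ⟨rfl, h8⟩ | ⟨rfl, h8⟩
    · have h10 := row22c1 (by linarith only [hv', h2]) hM hT h8 (by linarith only [hM, h2]) hv' hk hk' h2.le
      linarith
    · have h10 := row22c2 (by linarith only [hv', h2]) hM h8 hT' (by linarith only [hM, h2]) hv' hk hk' h2.le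
      linarith

/-- **Right ramp of `2 | 2e`**, side of the inner `2` in its own frame, shift `3/2`. -/
theorem right_two_twoE {w v : ℂ} {T : ℝ} (hT : -(85 / 1000) ≤ T) (hT' : T ≤ -(45 / 1000))
    (hw : RH w T (60 / 100) (10 / 100) (33 / 100)) (hx : 27 / 100 ≤ w.re) (hv : 0 ≤ v.re)
    (hv' : v.re ≤ 60 / 100) (hk : -(985 / 10000) ≤ v.im) (hk' : v.im ≤ 96 / 1000) :
    S2 1 (-T / (33 / 100)) w v + 15 / 10 * (-T / (33 / 100)) <
      35 / 100 - 88 / 100 * (w.re - 27 / 100) := by
  have him := RH_right hw (by norm_num) (by norm_num) (by norm_num) (by linarith only [hx])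
  have hM := hw.reM
  have hws : w ∈ strip := ⟨by linarith only [hx], by linarith only [hM]⟩
  have hs : (-T / (33 / 100)) * 1 = |-T / (33 / 100)| := by
    rw [mul_one, abs_of_nonneg (div_nonneg (by linarith only [hT']) (by norm_num))]
  rcases le_or_gt (w.re + v.re) (91 / 100) with h1 | h1
  · have hu : w + v ∈ strip := ⟨by simp; linarith only [hx, hv], by simp; linarith only [h1]⟩
    rw [S2_eq _ hws hu, him]
    exact row2ea hx hM hT hT' hv hv' hk hk' h1
  rcases le_or_gt (w.re + v.re) (109 / 100) with h2 | h2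
  · have h6 : -(75 / 1000) ≤ w.im ∧ w.im ≤ 0 := by
      rw [him]
      have h4 : 0 ≤ (60 / 100 - w.re) / (33 / 100) := div_nonneg (by linarith only [hM]) (by norm_num)
      have h5 : (60 / 100 - w.re) / (33 / 100) ≤ 88 / 100 := by
        rw [div_le_iff₀ (by norm_num)]
        linarith only [hv', h1]
      constructor <;> nlinarith only [hv', h1, hT, hM, hT']
    have hre : |(w + v).re - 1| ≤ 9 / 100 := by
      rw [Complex.add_re, abs_le]
      constructor <;> linarith only [h1, h2]
    rcases le_total v.im (-(65 / 1000)) with h5 | h5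
    · have hL : LL (w + v) ≤ 25 / 100 := LL_rect kr_9_175 (by norm_num) (by norm_num) hre
        (by rw [Complex.add_im, abs_le]; constructor <;> linarith only [hk, h6, hk', h6.1, h6.2])
      rcases le_total (w.re + v.re) 1 with h3 | h3
      · have hY : |YY (w + v)| ≤ 1 / 2 * Real.pi := by
          rw [one_div_mul_eq_div]
          exact YY_abs_le (by simp; linarith only [h1]) (by simpa using h3)
        have h9 := S2_near hs hws.1 hws.2 hL hY
        rw [him] at h9
        have h10 := row2eb3 (by linarith only [hv', h1]) hM hT hT' (by linarith only [hM, h1]) hv' hk h5 h1.le h3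
        rw [show (1 : ℝ) * (1 / 2) = 1 / 2 by norm_num] at h9
        linarith only [h9, h10]
      · have hY : |YY (w + v)| ≤ 1 * Real.pi := by
          rw [one_mul]
          exact YY_abs_pi (by simp; linarith only [h3]) (by simp; linarith only [hv', hM])
        have h9 := S2_near hs hws.1 hws.2 hL hY
        rw [him] at h9
        have h10 := row2eb4 (by linarith only [hv', h3]) hM hT hT' (by linarith only [hM, h3]) hv' hk h5 h3 h2
        rw [show (1 : ℝ) * 1 = 1 by norm_num] at h9
        linarith only [h9, h10]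
    · have hL : LL (w + v) ≤ 7 / 100 := LL_rect kr_9_14 (by norm_num) (by norm_num) hre
        (by rw [Complex.add_im, abs_le]; constructor <;> linarith only [h6, h5, hk', h6.1, h6.2])
      rcases le_total (w.re + v.re) 1 with h3 | h3
      · have hY : |YY (w + v)| ≤ 1 / 2 * Real.pi := by
          rw [one_div_mul_eq_div]
          exact YY_abs_le (by simp; linarith only [h1]) (by simpa using h3)
        have h9 := S2_near hs hws.1 hws.2 hL hY
        rw [him] at h9
        have h10 := row2eb (by linarith only [hv', h1]) hM hT hT' (by linarith only [hM, h1]) hv' hk hk' h1.le h3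
        rw [show (1 : ℝ) * (1 / 2) = 1 / 2 by norm_num] at h9
        linarith only [h9, h10]
      · have hY : |YY (w + v)| ≤ 1 * Real.pi := by
          rw [one_mul]
          exact YY_abs_pi (by simp; linarith only [h3]) (by simp; linarith only [hv', hM])
        have h9 := S2_near hs hws.1 hws.2 hL hY
        rw [him] at h9
        have h10 := row2eb2 (by linarith only [hv', h3]) hM hT hT' (by linarith only [hM, h3]) hv' hk hk' h3 h2
        rw [show (1 : ℝ) * 1 = 1 by norm_num] at h9
        linarith only [h9, h10]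
  · have h9 := S2_beyond hs hws.1 hws.2 (by linarith) (by linarith)
    rw [him] at h9
    have h10 := row2ec (by linarith only [hv', h2]) hM hT hT' (by linarith only [hM, h2]) hv' hk hk' h2.le
    linarith

/-- **Right ramp of `2 | 2e`**, side of the end `2` in its own frame, same shift. -/
theorem right_twoE_two {w : ℂ} {T : ℝ} (hT : 45 / 1000 ≤ T) (hT' : T ≤ 85 / 1000)
    (hw : RH w T (60 / 100) (10 / 100) (33 / 100)) (hx : 27 / 100 ≤ w.re) :
    S2 1 (-T / (33 / 100)) w 0 + 15 / 10 * (-T / (33 / 100)) <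
      -(35 / 100 - 88 / 100 * (w.re - 27 / 100)) := by
  have him := RH_right hw (by norm_num) (by norm_num) (by norm_num) (by linarith only [hx])
  have hM := hw.reM
  have hws : w ∈ strip := ⟨by linarith only [hx], by linarith only [hM]⟩
  rw [S2_zero_eq _ hws, him]
  exact row2ed hx hM hT hT'

/-- **Right ramp of `2e | 2e`**, own frame, no shift. -/
theorem right_twoE_twoE {w : ℂ} {T : ℝ} (hT : -(1 / 1000) ≤ T) (hT' : T ≤ 1 / 1000)
    (hw : RH w T (60 / 100) (10 / 100) (30 / 100)) (hx : 3 / 10 ≤ w.re) :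
    S2 1 (-T / (30 / 100)) w 0 < 0 := by
  have him := RH_right hw (by norm_num) (by norm_num) (by norm_num) (by linarith only [hx])
  have hM := hw.reM
  have hws : w ∈ strip := ⟨by linarith only [hx], by linarith only [hM]⟩
  rw [S2_zero_eq _ hws, him]
  exact rowee hx hM hT hT'

end MR

end Pool.Agent.Work.MP_b30479_gt.G2
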