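import Pool.Agent.Work.MP_b30479_gt.G2.WRnd
import Pool.Agent.Work.MP_b30479_gt.G2.MR2

/-!
# Caps of the hinges between two digits `2`
-/

namespace Pool.Agent.Work.MP_b30479_gt.G2

open Finset VOL Filter Topology

namespace SR

variable {M : ℕ} {b : Fin (M + 1) → ℤ} {zs : DD (tyW b) ⊕ ZZ (tyW b) → ℂ}
variable {y : DD (tyW b) ⊕ ZZ (tyW b) → ℝ}
variable {h h' : Fin M} {i j j' : Fin (M + 1)} {p : Fin 3}

theorem rstep_false (hb : ClassW b) (hy : Mx b zs y) (h0 : 0 < y (.inl (.inl h)))
    (H : RStep b zs y h (slL b zs y h)) : False := by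
  obtain ⟨c, e1, e2, hc, he, hs⟩ := H
  exact rside_false hb hy h h0 hc he hs

theorem lstep_false (hb : ClassW b) (hy : Mx b zs y) (h0 : 0 < y (.inl (.inl h)))
    (h1 : y (.inl (.inl h)) < wXM b h) (H : LStep b zs y h (slR b zs y h)) : False := by
  obtain ⟨c, e1, e2, hc, he, hs⟩ := H
  exact lside_false hb hy h h0 h1 hc he hs

/-- the right end of the path of a hinge of a digit `2` -/
theorem Adj.XM_two (A : Adj h i p j) (hc : clsW b i = .two) (hj : clsW b j ≠ .one) :
    wXM b h = 60 / 100 := by
  rw [A.XM_eq b, hc]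
  unfold hpp
  generalize clsW b j = B at hj
  split_ifs <;> cases B <;> first | exact absurd rfl hj | simp [hp]

/-- the heights of the hinges of a digit `2`, on the paths -/
theorem Adj.im_two (A : Adj h i p j) (hb : ClassW b) (hL : Loc b zs)
    (hy : Mx b zs y) (hc : clsW b i = .two) :
    -(985 / 10000) ≤ (Yw b zs y i p).im ∧ (Yw b zs y i p).im ≤ 96 / 1000 := by
  have hop := A.opp hb (Or.inl (by rw [hc]; decide))
  obtain ⟨-, -, h3, h4⟩ := A.box hb hL
  rw [hc, A.ss hop] at h3 h4
  refine MR.RH_im_mem (A.rh hy) (by norm_num) (by norm_num) ?_ ?_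
  · refine le_trans ?_ h3
    generalize clsW b j = B
    cases B <;> norm_num [hbox]
  · refine h4.trans ?_
    generalize clsW b j = B
    cases B <;> norm_num [hbox]

/-- the other hinge of a digit `2` -/
theorem Adj.part_two (A : Adj h i p j) (hb : ClassW b) (hL : Loc b zs)
    (hy : Mx b zs y) (hc : clsW b i = .two)
    (h12 : ∀ {h : Fin M} {i j : Fin (M + 1)} {p : Fin 3}, Adj h i p j → clsW b i = .two →
      clsW b j = .one → y (.inl (.inl h)) ≤ 60 / 100) :
    0 ≤ (Yw b zs y i p.rev).re ∧ (Yw b zs y i p.rev).re ≤ 60 / 100 ∧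
      -(985 / 10000) ≤ (Yw b zs y i p.rev).im ∧ (Yw b zs y i p.rev).im ≤ 96 / 1000 := by
  obtain ⟨h', j', A'⟩ := A.other' b (clsW_inner hb (Or.inr (Or.inl hc)))
  obtain ⟨h3, h4⟩ := A'.im_two hb hL hy hc
  refine ⟨(A'.rh hy).re0, ?_, h3, h4⟩
  by_cases hj : clsW b j' = .one
  · rw [A'.re]
    exact h12 A' hc hj
  · have := (A'.rh hy).reM
    rwa [A'.XM_two hc hj] at this

/-- **Caps of the hinges between two digits `2`**, if the hinges between a digit `2` and a digit `1`
are at most `.60`: the flat ends. -/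
theorem cap_two_two (hb : ClassW b) (hL : Loc b zs) (hy : Mx b zs y)
    (hpos : ∀ h : Fin M, 0 < y (.inl (.inl h)))
    (h12 : ∀ {h : Fin M} {i j : Fin (M + 1)} {p : Fin 3}, Adj h i p j → clsW b i = .two →
      clsW b j = .one → y (.inl (.inl h)) ≤ 60 / 100)
    (A : Adj h i p j) (hi : clsW b i = .two ∨ clsW b i = .twoE)
    (hj : clsW b j = .two ∨ clsW b j = .twoE) :
    y (.inl (.inl h)) ≤ wXM b h - wcr b h := by
  by_contra hcon
  push Not at hcon
  have key : ∀ {i j : Fin (M + 1)} {p : Fin 3}, Adj h i p j → clsW b i = .two →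
      clsW b j = .two → RStep b zs y h (slL b zs y h) := by
    intro i j p A hi hj
    have hop := A.opp hb (Or.inl (by rw [hi]; decide))
    have hX : wXM b h = 60 / 100 := A.XM_two hi (by rw [hj]; decide)
    have hr : wcr b h = 28 / 100 := by
      rw [A.cr_eq b, hi, hj]; unfold hpp; split_ifs <;> simp [hp]
    have hl : wcl b h = 10 / 100 := by
      rw [A.cl_eq b, hi, hj]; unfold hpp; split_ifs <;> simp [hp]
    have side : ∀ {i j : Fin (M + 1)} {p : Fin 3}, Adj h i p j → clsW b i = .two →
        clsW b j = .two → Sw b zs y i p (slL b zs y h) +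
          145 / 100 * ofs (b i) (slL b zs y h) < 0 := by
      intro i j p A hi hj
      have hop := A.opp hb (Or.inl (by rw [hi]; decide))
      obtain ⟨-, -, h3, h4⟩ := A.box hb hL
      rw [hi, hj, A.ss hop] at h3 h4
      obtain ⟨g1, g2, g3, g4⟩ := A.part_two hb hL hy hi h12
      have hrh := A.rh hy
      rw [hX, hl, hr] at hrh
      have := MR.right_two_two (w := Yw b zs y i p) (v := Yw b zs y i p.rev)
        (T := ofs (b i) (zs (.inl (.inl h))).im) h3 h4 hrh
        (by rw [A.re]; rw [hX, hr] at hcon; linarith) g1 g2 g3 g4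
      rw [A.side_two hb (Or.inl hi), ofs_slL_ramp _ hcon, hr, ← neg_div]
      exact this
    exact RStep.of_adj A (fun h => absurd h (by omega))
      (add_neg (side A hi hj) (side A.symm hj hi)) le_rfl (by rw [ofs_opp hop])
  have key' : ∀ {i j : Fin (M + 1)} {p : Fin 3}, Adj h i p j → clsW b i = .two →
      clsW b j = .twoE → RStep b zs y h (slL b zs y h) := by
    intro i j p A hi hj
    have hop := A.opp hb (Or.inl (by rw [hi]; decide))
    have hX : wXM b h = 60 / 100 := A.XM_two hi (by rw [hj]; decide)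
    have hr : wcr b h = 33 / 100 := by
      rw [A.cr_eq b, hi, hj]; unfold hpp; split_ifs <;> simp [hp]
    have hl : wcl b h = 10 / 100 := by
      rw [A.cl_eq b, hi, hj]; unfold hpp; split_ifs <;> simp [hp]
    have hx : 27 / 100 ≤ y (.inl (.inl h)) := by
      rw [hX, hr] at hcon; linarith
    have s1 : Sw b zs y i p (slL b zs y h) + 15 / 10 * ofs (b i) (slL b zs y h) <
        35 / 100 - 88 / 100 * (y (.inl (.inl h)) - 27 / 100) := by
      obtain ⟨-, -, h3, h4⟩ := A.box hb hL
      rw [hi, hj, A.ss hop] at h3 h4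
      obtain ⟨g1, g2, g3, g4⟩ := A.part_two hb hL hy hi h12
      have hrh := A.rh hy
      rw [hX, hl, hr] at hrh
      have := MR.right_two_twoE (w := Yw b zs y i p) (v := Yw b zs y i p.rev)
        (T := ofs (b i) (zs (.inl (.inl h))).im) h3 h4 hrh
        (by rw [A.re]; exact hx) g1 g2 g3 g4
      rw [A.side_two hb (Or.inl hi), ofs_slL_ramp _ hcon, hr, ← neg_div]
      rw [A.re] at this
      exact this
    have s2 : Sw b zs y j p.rev (slL b zs y h) + 15 / 10 * ofs (b j) (slL b zs y h) <
        -(35 / 100 - 88 / 100 * (y (.inl (.inl h)) - 27 / 100)) := by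
      have A' := A.symm
      have hop' : b j * b i < 0 := by rw [mul_comm]; exact hop
      obtain ⟨-, -, h3, h4⟩ := A'.box hb hL
      rw [hi, hj, A'.ss hop'] at h3 h4
      have hrh := A'.rh hy
      rw [hX, hl, hr] at hrh
      have hv : Yw b zs y j p.rev.rev = 0 := by
        rcases A'.other b zs y with h5 | h5
        · exact h5.2
        · rw [clsW_end (Or.inl hj)] at h5
          exact absurd h5.1 (by decide)
      have := MR.right_twoE_two (w := Yw b zs y j p.rev)
        (T := ofs (b j) (zs (.inl (.inl h))).im) h3 h4 hrh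
        (by rw [A'.re]; exact hx)
      rw [A'.side_two hb (Or.inr hj), ofs_slL_ramp _ hcon, hr, ← neg_div, hv]
      rw [A'.re] at this
      exact this
    exact RStep.of_adj A (c := 15 / 10) (fun h => absurd h (by omega)) (by linarith only [s1, s2])
      le_rfl le_rfl
  have key'' : ∀ {i j : Fin (M + 1)} {p : Fin 3}, Adj h i p j → clsW b i = .twoE →
      clsW b j = .twoE → RStep b zs y h (slL b zs y h) := by
    intro i j p A hi hj
    have hop := A.opp hb (Or.inl (by rw [hi]; decide))
    have hX : wXM b h = 60 / 100 := by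
      rw [A.XM_eq b, hi, hj]; unfold hpp; split_ifs <;> simp [hp]
    have hr : wcr b h = 30 / 100 := by
      rw [A.cr_eq b, hi, hj]; unfold hpp; split_ifs <;> simp [hp]
    have hl : wcl b h = 10 / 100 := by
      rw [A.cl_eq b, hi, hj]; unfold hpp; split_ifs <;> simp [hp]
    have hx : 30 / 100 ≤ y (.inl (.inl h)) := by
      rw [hX, hr] at hcon; linarith
    have side : ∀ {i j : Fin (M + 1)} {p : Fin 3}, Adj h i p j → clsW b i = .twoE →
        clsW b j = .twoE → Sw b zs y i p (slL b zs y h) + 0 * ofs (b i) (slL b zs y h) < 0 := by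
      intro i j p A hi hj
      have hop := A.opp hb (Or.inl (by rw [hi]; decide))
      obtain ⟨-, -, h3, h4⟩ := A.box hb hL
      rw [hi, hj, A.ss hop] at h3 h4
      have hrh := A.rh hy
      rw [hX, hl, hr] at hrh
      have hv : Yw b zs y i p.rev = 0 := by
        rcases A.other b zs y with h5 | h5
        · exact h5.2
        · rw [clsW_end (Or.inl hi)] at h5
          exact absurd h5.1 (by decide)
      have := MR.right_twoE_twoE (w := Yw b zs y i p)
        (T := ofs (b i) (zs (.inl (.inl h))).im) h3 h4 hrh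
        (by rw [A.re]; linarith)
      rw [A.side_two hb (Or.inr hi), ofs_slL_ramp _ hcon, hr, ← neg_div, hv]
      linarith
    exact RStep.of_adj A (fun h => absurd h (by omega))
      (add_neg (side A hi hj) (side A.symm hj hi)) le_rfl (by rw [ofs_opp hop])
  rcases hi with hi | hi <;> rcases hj with hj | hj
  · exact rstep_false hb hy (hpos h) (key A hi hj)
  · exact rstep_false hb hy (hpos h) (key' A hi hj)
  · exact rstep_false hb hy (hpos h) (key' A.symm hj hi)
  · exact rstep_false hb hy (hpos h) (key'' A hi hj)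

end SR

end Pool.Agent.Work.MP_b30479_gt.G2
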