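import Pool.Agent.Work.MP_b30479_gt.G2.M3P

/-!
# Interior 3-runs, level part: certificates, a `2` on the left
-/

namespace Pool.Agent.Work.MP_b30479_gt.G2

namespace M3

open NumI (E V chk)

theorem certLD1 : okL pD1 false true = true := by decide +kernel
theorem certUD1 : okU pD1 true = true := by decide +kernel
theorem certLDE : okL pDE false true = true := by decide +kernel
theorem certUDE : okU pDE true = true := by decide +kernel
theorem certLDN : okL pDN false true = true := by decide +kernel
theorem certUDN : okU pDN true = true := by decide +kernel
theorem certLDZ : okL pDZ false true = true := by decide +kernel
theorem certUDZ : okU pDZ true = true := by decide +kernel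

end M3

end Pool.Agent.Work.MP_b30479_gt.G2
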