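import Pool.Agent.Work.MP_b30479_gt.G2.M3P

/-!
# Interior 3-runs, level part: certificates, a `2` at an end on the left
-/

namespace Pool.Agent.Work.MP_b30479_gt.G2

namespace M3

open NumI (E V chk)

theorem certLE1 : okL pE1 true true = true := by decide +kernel
theorem certUE1 : okU pE1 true = true := by decide +kernel
theorem certLEE : okL pEE true true = true := by decide +kernel
theorem certUEE : okU pEE true = true := by decide +kernel
theorem certLEN : okL pEN true true = true := by decide +kernel
theorem certUEN : okU pEN true = true := by decide +kernel
theorem certLEZ : okL pEZ true true = true := by decide +kernel
theorem certUEZ : okU pEZ true = true := by decide +kernel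

end M3

end Pool.Agent.Work.MP_b30479_gt.G2
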