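import Pool.Agent.Work.MP_b30479_gt.G2.M3P

/-!
# Interior 3-runs, level part: certificates, any other region on the left
-/

namespace Pool.Agent.Work.MP_b30479_gt.G2

namespace M3

open NumI (E V chk)

theorem certLN1 : okL pN1 false true = true := by decide +kernel
theorem certUN1 : okU pN1 true = true := by decide +kernel
theorem certLNE : okL pNE false true = true := by decide +kernel
theorem certUNE : okU pNE true = true := by decide +kernel
theorem certLNN : okL pNN false true = true := by decide +kernel
theorem certUNN : okU pNN true = true := by decide +kernel
theorem certLNZ : okL pNZ false true = true := by decide +kernel
theorem certUNZ : okU pNZ true = true := by decide +kernel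

end M3

end Pool.Agent.Work.MP_b30479_gt.G2
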