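import Pool.Agent.Work.MP_b30479_gt.G2.M3L

/-!
# Interior 3-runs, level part: the data
-/

namespace Pool.Agent.Work.MP_b30479_gt.G2

namespace M3

open NumI (E V chk)

def p11 : Prm :=
  ⟨1500, 3600, 1300, 4200, -1145, -210, -1145, -210, -900, -180, -450, 700, 1850, 7, 6580, 6340, 4, 2, 5160, 2057, 1500, 500⟩
def p1E : Prm :=
  ⟨1300, 3000, 1300, 4000, -980, -760, -1145, -210, -620, -50, -200, 750, 1920, 7, 6665, 6515, 5, 2, 5275, 1907, 1665, 500⟩
def p1N : Prm :=
  ⟨1300, 3000, 1300, 4200, -570, 220, -1145, -210, -820, 50, -400, 840, 1855, 7, 6771, 6581, 5, 2, 5341, 1818, 1721, 500⟩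
def p1Z : Prm :=
  ⟨1300, 3000, 1300, 4200, -40, 570, -1145, -210, -720, 0, -340, 800, 1855, 7, 6771, 6581, 5, 2, 5341, 1439, 1694, 500⟩
def pE1 : Prm :=
  ⟨1500, 3600, 1200, 3000, -1145, -210, -980, -760, -1230, -800, -480, 150, 2610, 6, 5918, 5768, 3, 2, 4928, 2143, 746, 500⟩
def pEE : Prm :=
  ⟨1300, 3000, 1200, 3000, -980, -760, -980, -760, -950, -670, -180, 290, 2680, 6, 6216, 5966, 5, 3, 4826, 2023, 965, 500⟩
def pEN : Prm :=
  ⟨1300, 3000, 1200, 3000, -570, 220, -980, -760, -1160, -640, -400, 320, 2680, 6, 6216, 5966, 5, 3, 4826, 1956, 1007, 500⟩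
def pEZ : Prm :=
  ⟨1300, 3000, 1200, 3000, -40, 570, -980, -760, -1060, -670, -310, 290, 2680, 6, 6216, 5966, 5, 3, 4826, 1668, 965, 500⟩
def pN1 : Prm :=
  ⟨1500, 3600, 1200, 3000, -1145, -210, -570, 570, -1140, -150, -1050, 140, 1585, 6, 5918, 5768, 3, 2, 4928, 2121, 1110, 500⟩
def pNE : Prm :=
  ⟨1300, 3000, 1200, 3000, -980, -760, -570, 570, -820, -50, -750, 190, 1550, 7, 6216, 5966, 5, 3, 4826, 1981, 1221, 500⟩
def pNN : Prm :=
  ⟨1300, 3000, 1200, 3000, -570, 220, -570, 570, -1040, 50, -1000, 280, 1550, 7, 6216, 5966, 5, 3, 4826, 1911, 1319, 500⟩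
def pNZ : Prm :=
  ⟨1300, 3000, 1200, 3000, -40, 570, -570, 570, -920, 0, -930, 240, 1550, 7, 6216, 5966, 5, 3, 4826, 1582, 1272, 500⟩
def pD1 : Prm :=
  ⟨1500, 3600, 1200, 3600, -1145, -210, -570, 50, -1140, -150, -1050, 140, 1575, 6, 6038, 5768, 3, 2, 4928, 2121, 1110, 500⟩
def pDE : Prm :=
  ⟨1300, 3000, 1200, 3600, -980, -760, -570, 50, -820, -50, -750, 190, 1525, 7, 6396, 5966, 5, 3, 4826, 1981, 1221, 500⟩
def pDN : Prm :=
  ⟨1300, 3000, 1200, 3600, -570, 220, -570, 50, -1040, 50, -1000, 280, 1525, 7, 6396, 5966, 5, 3, 4826, 1911, 1319, 500⟩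
def pDZ : Prm :=
  ⟨1300, 3000, 1200, 3600, -40, 570, -570, 50, -920, 0, -930, 240, 1525, 7, 6396, 5966, 5, 3, 4826, 1582, 1272, 500⟩
def s11 : SPrm :=
  ⟨1500, 3600, 1300, 4200, 1850, 7, 6580, 6340, 4, 2, 2760, 2045, 4728, 900, 821, 1145, 1351, 1145, 1351, 700, 492⟩
def s1n : SPrm :=
  ⟨1300, 3000, 1300, 4200, 1855, 7, 6771, 6581, 5, 2, 2765, 1600, 2747, 820, 679, 1145, 1351, 980, 979, 840, 713⟩
def sn1 : SPrm :=
  ⟨1500, 3600, 1200, 3600, 1575, 6, 6038, 5768, 3, 2, 2295, 2375, 6680, 1230, 1570, 980, 979, 1145, 1351, 1050, 1129⟩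
def snn : SPrm :=
  ⟨1300, 3000, 1200, 3600, 1525, 7, 6396, 5966, 5, 3, 2365, 1930, 4150, 1160, 1388, 980, 979, 980, 979, 1000, 1020⟩

theorem ok11 : Ok p11 := by constructor <;> decide +kernel
theorem okU11 : OkU p11 := by constructor <;> decide +kernel
theorem cov11 : Cov p11 s11 := by constructor <;> decide +kernel
theorem ok1E : Ok p1E := by constructor <;> decide +kernel
theorem okU1E : OkU p1E := by constructor <;> decide +kernel
theorem cov1E : Cov p1E s1n := by constructor <;> decide +kernel
theorem ok1N : Ok p1N := by constructor <;> decide +kernel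
theorem okU1N : OkU p1N := by constructor <;> decide +kernel
theorem cov1N : Cov p1N s1n := by constructor <;> decide +kernel
theorem ok1Z : Ok p1Z := by constructor <;> decide +kernel
theorem okU1Z : OkU p1Z := by constructor <;> decide +kernel
theorem cov1Z : Cov p1Z s1n := by constructor <;> decide +kernel
theorem okE1 : Ok pE1 := by constructor <;> decide +kernel
theorem okUE1 : OkU pE1 := by constructor <;> decide +kernel
theorem covE1 : Cov pE1 sn1 := by constructor <;> decide +kernel
theorem okEE : Ok pEE := by constructor <;> decide +kernel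
theorem okUEE : OkU pEE := by constructor <;> decide +kernel
theorem covEE : Cov pEE snn := by constructor <;> decide +kernel
theorem okEN : Ok pEN := by constructor <;> decide +kernel
theorem okUEN : OkU pEN := by constructor <;> decide +kernel
theorem covEN : Cov pEN snn := by constructor <;> decide +kernel
theorem okEZ : Ok pEZ := by constructor <;> decide +kernel
theorem okUEZ : OkU pEZ := by constructor <;> decide +kernel
theorem covEZ : Cov pEZ snn := by constructor <;> decide +kernel
theorem okN1 : Ok pN1 := by constructor <;> decide +kernel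
theorem okUN1 : OkU pN1 := by constructor <;> decide +kernel
theorem covN1 : Cov pN1 sn1 := by constructor <;> decide +kernel
theorem okNE : Ok pNE := by constructor <;> decide +kernel
theorem okUNE : OkU pNE := by constructor <;> decide +kernel
theorem covNE : Cov pNE snn := by constructor <;> decide +kernel
theorem okNN : Ok pNN := by constructor <;> decide +kernel
theorem okUNN : OkU pNN := by constructor <;> decide +kernel
theorem covNN : Cov pNN snn := by constructor <;> decide +kernel
theorem okNZ : Ok pNZ := by constructor <;> decide +kernel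
theorem okUNZ : OkU pNZ := by constructor <;> decide +kernel
theorem covNZ : Cov pNZ snn := by constructor <;> decide +kernel
theorem okD1 : Ok pD1 := by constructor <;> decide +kernel
theorem okUD1 : OkU pD1 := by constructor <;> decide +kernel
theorem covD1 : Cov pD1 sn1 := by constructor <;> decide +kernel
theorem okDE : Ok pDE := by constructor <;> decide +kernel
theorem okUDE : OkU pDE := by constructor <;> decide +kernel
theorem covDE : Cov pDE snn := by constructor <;> decide +kernel
theorem okDN : Ok pDN := by constructor <;> decide +kernel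
theorem okUDN : OkU pDN := by constructor <;> decide +kernel
theorem covDN : Cov pDN snn := by constructor <;> decide +kernel
theorem okDZ : Ok pDZ := by constructor <;> decide +kernel
theorem okUDZ : OkU pDZ := by constructor <;> decide +kernel
theorem covDZ : Cov pDZ snn := by constructor <;> decide +kernel
theorem oks11 : OkS s11 := by constructor <;> decide +kernel
theorem oks1n : OkS s1n := by constructor <;> decide +kernel
theorem oksn1 : OkS sn1 := by constructor <;> decide +kernel
theorem oksnn : OkS snn := by constructor <;> decide +kernel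

end M3

end Pool.Agent.Work.MP_b30479_gt.G2
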