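import Pool.Agent.Work.MP_b30479_gt.G2.M3T11a
import Pool.Agent.Work.MP_b30479_gt.G2.M3T11b
import Pool.Agent.Work.MP_b30479_gt.G2.M3T11c
import Pool.Agent.Work.MP_b30479_gt.G2.M3T11d
import Pool.Agent.Work.MP_b30479_gt.G2.M3T11e
import Pool.Agent.Work.MP_b30479_gt.G2.M3T11f
import Pool.Agent.Work.MP_b30479_gt.G2.M3T11g

/-!
# Interior 3-runs, level part: certificates of the determinants
-/

namespace Pool.Agent.Work.MP_b30479_gt.G2

namespace M3

open NumI (E V chk)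

theorem c11_FP0p : okF s11 s11.hP 0 1 = true :=
  (chk_node c11_FP0p_L (chk_node c11_FP0p_RL (chk_node (chk_node c11_FP0p_RRLL (chk_node c11_FP0p_RRLRL (chk_node c11_FP0p_RRLRRL c11_FP0p_RRLRRR))) (chk_node (chk_node c11_FP0p_RRRLL c11_FP0p_RRRLR) c11_FP0p_RRRR))))

theorem c11_G00p : okG s11 0 0 1 = true :=
  (chk_node c11_G00p_L (chk_node c11_G00p_RL (chk_node c11_G00p_RRL c11_G00p_RRR)))

theorem c11_GP0p : okG s11 s11.hP 0 1 = true :=
  (chk_node c11_GP0p_L (chk_node c11_GP0p_RL c11_GP0p_RR))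

theorem certs11 : okS s11 false = true :=
  okS_intro c11_0 c11_2a c11_2b c11_F00p c11_F00m c11_F0Rp c11_F0Rm c11_FP0p c11_FP0m c11_FPRp c11_FPRm
    (fun _ => c11_G00p) (fun _ => c11_G00m) (fun _ => c11_GP0p) (fun _ => c11_GP0m)

end M3

end Pool.Agent.Work.MP_b30479_gt.G2
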