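import Pool.Agent.Work.MP_b30479_gt.G2.M3P

/-!
# Interior 3-runs, level part: certificates of the determinants, a part
-/

namespace Pool.Agent.Work.MP_b30479_gt.G2

namespace M3

open NumI (E V chk)

theorem c1n_F0Rm :
    okF s1n 0 s1n.hR (-1) = true := by decide +kernel

theorem c1n_F00p :
    okF s1n 0 0 1 = true := by decide +kernel

theorem c1n_F0Rp :
    okF s1n 0 s1n.hR 1 = true := by decide +kernel

theorem c1n_FPRm :
    okF s1n s1n.hP s1n.hR (-1) = true := by decide +kernel

end M3

end Pool.Agent.Work.MP_b30479_gt.G2
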