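import Pool.Agent.Work.MP_b30479_gt.G2.M3T1na
import Pool.Agent.Work.MP_b30479_gt.G2.M3T1nb
import Pool.Agent.Work.MP_b30479_gt.G2.M3T1nc
import Pool.Agent.Work.MP_b30479_gt.G2.M3T1nd
import Pool.Agent.Work.MP_b30479_gt.G2.M3T1ne
import Pool.Agent.Work.MP_b30479_gt.G2.M3T1nf

/-!
# Interior 3-runs, level part: certificates of the determinants
-/

namespace Pool.Agent.Work.MP_b30479_gt.G2

namespace M3

open NumI (E V chk)

theorem c1n_FP0p : okF s1n s1n.hP 0 1 = true :=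
  (chk_node c1n_FP0p_L (chk_node c1n_FP0p_RL c1n_FP0p_RR))

theorem c1n_G00p : okG s1n 0 0 1 = true :=
  (chk_node c1n_G00p_L c1n_G00p_R)

theorem c1n_GP0p : okG s1n s1n.hP 0 1 = true :=
  (chk_node c1n_GP0p_L (chk_node (chk_node c1n_GP0p_RLL (chk_node c1n_GP0p_RLRL c1n_GP0p_RLRR)) (chk_node (chk_node (chk_node c1n_GP0p_RRLLL c1n_GP0p_RRLLR) c1n_GP0p_RRLR) c1n_GP0p_RRR)))

theorem certs1n : okS s1n false = true :=
  okS_intro c1n_0 c1n_2a c1n_2b c1n_F00p c1n_F00m c1n_F0Rp c1n_F0Rm c1n_FP0p c1n_FP0m c1n_FPRp c1n_FPRm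
    (fun _ => c1n_G00p) (fun _ => c1n_G00m) (fun _ => c1n_GP0p) (fun _ => c1n_GP0m)

end M3

end Pool.Agent.Work.MP_b30479_gt.G2
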