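import Pool.Agent.Work.MP_b30479_gt.G2.M3Tn1a
import Pool.Agent.Work.MP_b30479_gt.G2.M3Tn1b
import Pool.Agent.Work.MP_b30479_gt.G2.M3Tn1c
import Pool.Agent.Work.MP_b30479_gt.G2.M3Tn1d
import Pool.Agent.Work.MP_b30479_gt.G2.M3Tn1e

/-!
# Interior 3-runs, level part: certificates of the determinants
-/

namespace Pool.Agent.Work.MP_b30479_gt.G2

namespace M3

open NumI (E V chk)

theorem cn1_FPRp : okF sn1 sn1.hP sn1.hR 1 = true :=
  (chk_node cn1_FPRp_L cn1_FPRp_R)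

theorem cn1_GP0p : okG sn1 sn1.hP 0 1 = true :=
  (chk_node cn1_GP0p_L cn1_GP0p_R)

theorem certsn1 : okS sn1 false = true :=
  okS_intro cn1_0 cn1_2a cn1_2b cn1_F00p cn1_F00m cn1_F0Rp cn1_F0Rm cn1_FP0p cn1_FP0m cn1_FPRp cn1_FPRm
    (fun _ => cn1_G00p) (fun _ => cn1_G00m) (fun _ => cn1_GP0p) (fun _ => cn1_GP0m)

end M3

end Pool.Agent.Work.MP_b30479_gt.G2
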