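import Pool.Agent.Work.MP_b30479_gt.G2.M3Tnna
import Pool.Agent.Work.MP_b30479_gt.G2.M3Tnnb
import Pool.Agent.Work.MP_b30479_gt.G2.M3Tnnc
import Pool.Agent.Work.MP_b30479_gt.G2.M3Tnnd

/-!
# Interior 3-runs, level part: certificates of the determinants
-/

namespace Pool.Agent.Work.MP_b30479_gt.G2

namespace M3

open NumI (E V chk)

theorem certsnn : okS snn true = true :=
  okS_intro cnn_0 cnn_2a cnn_2b cnn_F00p cnn_F00m cnn_F0Rp cnn_F0Rm cnn_FP0p cnn_FP0m cnn_FPRp cnn_FPRm
    (fun h => absurd h (by decide)) (fun h => absurd h (by decide)) (fun h => absurd h (by decide)) (fun h => absurd h (by decide))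

end M3

end Pool.Agent.Work.MP_b30479_gt.G2
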