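import Pool.Agent.Work.MP_b30479_gt.G2.M3C1
import Pool.Agent.Work.MP_b30479_gt.G2.M3CE
import Pool.Agent.Work.MP_b30479_gt.G2.M3CN
import Pool.Agent.Work.MP_b30479_gt.G2.M3CD
import Pool.Agent.Work.MP_b30479_gt.G2.M3T11
import Pool.Agent.Work.MP_b30479_gt.G2.M3T1n
import Pool.Agent.Work.MP_b30479_gt.G2.M3Tn1
import Pool.Agent.Work.MP_b30479_gt.G2.M3Tnn
import Pool.Agent.Work.MP_b30479_gt.G2.WPar

/-!
# Interior 3-runs, level part: all pairs of classes of neighbours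
-/

namespace Pool.Agent.Work.MP_b30479_gt.G2

open Set

namespace M3

open NumI (MM)
open SR

/-- the data of a pair of classes; `A`: neighbour at the slot `0`, `K`: at the slot `2` -/
def prm : Cl → Cl → Prm
  | .one, .one => p11
  | .one, .twoE => p1E
  | .one, .ring => p1Z
  | .one, _ => p1N
  | .twoE, .one => pE1
  | .twoE, .twoE => pEE
  | .twoE, .ring => pEZ
  | .twoE, _ => pEN
  | .two, .one => pD1
  | .two, .twoE => pDE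
  | .two, .ring => pDZ
  | .two, _ => pDN
  | _, .one => pN1
  | _, .twoE => pNE
  | _, .ring => pNZ
  | _, _ => pNN

/-- everything known about a record -/
structure Good (p : Prm) : Prop where
  k1 : Ok p
  k2 : OkU p
  L : ∃ fl fh, okL p fl fh = true
  U : ∃ f, okU p f = true ∧ (f = true → 10 * p.e - p.be * p.ul + p.ga * p.vh ≤ 10 * p.m1)
  S : ∃ s g, OkS s ∧ Cov p s ∧ okS s g = true

theorem good11 : Good p11 :=
  ⟨ok11, okU11, ⟨_, _, certL11⟩, ⟨_, certU11, fun _ => by decide⟩,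
    ⟨_, _, oks11, cov11, certs11⟩⟩
theorem good1E : Good p1E :=
  ⟨ok1E, okU1E, ⟨_, _, certL1E⟩, ⟨_, certU1E, fun _ => by decide⟩,
    ⟨_, _, oks1n, cov1E, certs1n⟩⟩
theorem good1N : Good p1N :=
  ⟨ok1N, okU1N, ⟨_, _, certL1N⟩, ⟨_, certU1N, fun _ => by decide⟩,
    ⟨_, _, oks1n, cov1N, certs1n⟩⟩
theorem good1Z : Good p1Z :=
  ⟨ok1Z, okU1Z, ⟨_, _, certL1Z⟩, ⟨_, certU1Z, fun _ => by decide⟩,
    ⟨_, _, oks1n, cov1Z, certs1n⟩⟩
theorem goodE1 : Good pE1 :=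
  ⟨okE1, okUE1, ⟨_, _, certLE1⟩, ⟨_, certUE1, fun _ => by decide⟩,
    ⟨_, _, oksn1, covE1, certsn1⟩⟩
theorem goodEE : Good pEE :=
  ⟨okEE, okUEE, ⟨_, _, certLEE⟩, ⟨_, certUEE, fun _ => by decide⟩,
    ⟨_, _, oksnn, covEE, certsnn⟩⟩
theorem goodEN : Good pEN :=
  ⟨okEN, okUEN, ⟨_, _, certLEN⟩, ⟨_, certUEN, fun _ => by decide⟩,
    ⟨_, _, oksnn, covEN, certsnn⟩⟩
theorem goodEZ : Good pEZ :=
  ⟨okEZ, okUEZ, ⟨_, _, certLEZ⟩, ⟨_, certUEZ, fun _ => by decide⟩,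
    ⟨_, _, oksnn, covEZ, certsnn⟩⟩
theorem goodN1 : Good pN1 :=
  ⟨okN1, okUN1, ⟨_, _, certLN1⟩, ⟨_, certUN1, fun _ => by decide⟩,
    ⟨_, _, oksn1, covN1, certsn1⟩⟩
theorem goodNE : Good pNE :=
  ⟨okNE, okUNE, ⟨_, _, certLNE⟩, ⟨_, certUNE, fun _ => by decide⟩,
    ⟨_, _, oksnn, covNE, certsnn⟩⟩
theorem goodNN : Good pNN :=
  ⟨okNN, okUNN, ⟨_, _, certLNN⟩, ⟨_, certUNN, fun _ => by decide⟩,
    ⟨_, _, oksnn, covNN, certsnn⟩⟩
theorem goodNZ : Good pNZ :=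
  ⟨okNZ, okUNZ, ⟨_, _, certLNZ⟩, ⟨_, certUNZ, fun _ => by decide⟩,
    ⟨_, _, oksnn, covNZ, certsnn⟩⟩

theorem goodD1 : Good pD1 :=
  ⟨okD1, okUD1, ⟨_, _, certLD1⟩, ⟨_, certUD1, fun _ => by decide⟩,
    ⟨_, _, oksn1, covD1, certsn1⟩⟩
theorem goodDE : Good pDE :=
  ⟨okDE, okUDE, ⟨_, _, certLDE⟩, ⟨_, certUDE, fun _ => by decide⟩,
    ⟨_, _, oksnn, covDE, certsnn⟩⟩
theorem goodDN : Good pDN :=
  ⟨okDN, okUDN, ⟨_, _, certLDN⟩, ⟨_, certUDN, fun _ => by decide⟩,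
    ⟨_, _, oksnn, covDN, certsnn⟩⟩
theorem goodDZ : Good pDZ :=
  ⟨okDZ, okUDZ, ⟨_, _, certLDZ⟩, ⟨_, certUDZ, fun _ => by decide⟩,
    ⟨_, _, oksnn, covDZ, certsnn⟩⟩

theorem good (A K : Cl) : Good (prm A K) := by
  cases A <;> cases K <;>
    first
    | exact good11 | exact good1E | exact good1N | exact good1Z | exact goodE1
    | exact goodEE | exact goodEN | exact goodEZ | exact goodD1 | exact goodDE | exact goodDN
    | exact goodDZ | exact goodN1 | exact goodNE | exact goodNN | exact goodNZ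

variable {p : Prm} {tu tv tm u v m : ℝ}

theorem Good.lvl (h : Good p) (ht : Hts p tu tv tm) :
    Lvl tu tv tm ((p.ul : ℝ) / 10000) ((p.uh : ℝ) / 10000) ((p.vl : ℝ) / 10000)
      ((p.vh : ℝ) / 10000) (fun _ v => mL p v) (mU p) := by
  obtain ⟨fl, fh, hL⟩ := h.L
  obtain ⟨f, hU, hf⟩ := h.U
  obtain ⟨s, g, hks, hc, hS⟩ := h.S
  exact M3.lvl h.k1 h.k2 hks hc hL hU hf hS ht

theorem Good.zero_mem (h : Good p) (ht : Hts p tu tv tm)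
    (hu0 : (p.ul : ℝ) / 10000 ≤ u) (hu1 : u ≤ (p.uh : ℝ) / 10000)
    (hv0 : (p.vl : ℝ) / 10000 ≤ v) (hv1 : v ≤ (p.vh : ℝ) / 10000)
    (hm0 : (p.ml : ℝ) / 10000 ≤ m) (hm1 : m ≤ 3 / 4) (hM1 : 0 < MM (m - v) (tm - tv))
    (hM2 : 0 < MM (u + m) (tu + tm)) (hz : Phi tu tv tm u v m = 0) :
    m ∈ Icc (mL p v) (mU p u v) := by
  obtain ⟨fl, fh, hL⟩ := h.L
  obtain ⟨f, hU, hf⟩ := h.U
  exact M3.zero_mem h.k1 h.k2 hL hU hf ht hu0 hu1 hv0 hv1 hm0 hm1 hM1 hM2 hz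

/-- **Location of the inner variable**, all pairs of classes. -/
theorem zero_mem_all (A K : Cl) (ht : Hts (prm A K) tu tv tm)
    (hu0 : ((prm A K).ul : ℝ) / 10000 ≤ u) (hu1 : u ≤ ((prm A K).uh : ℝ) / 10000)
    (hv0 : ((prm A K).vl : ℝ) / 10000 ≤ v) (hv1 : v ≤ ((prm A K).vh : ℝ) / 10000)
    (hm0 : (5 : ℝ) / 100 ≤ m) (hm1 : m ≤ 3 / 4)
    (hM1 : 0 < MM (m - v) (tm - tv))
    (hM2 : 0 < MM (u + m) (tu + tm)) (hz : Phi tu tv tm u v m = 0) :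
    m ∈ Icc (mL (prm A K) v) (mU (prm A K) u v) := by
  have h3 : (prm A K).ml ≤ 500 := by
    cases A <;> cases K <;> decide
  have h4 : ((prm A K).ml : ℝ) ≤ 500 := by exact_mod_cast h3
  exact (good A K).zero_mem ht hu0 hu1 hv0 hv1 (by linarith) hm1 hM1 hM2 hz

end M3

end Pool.Agent.Work.MP_b30479_gt.G2
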