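import Pool.Agent.Work.MP_b30479_gt.G2.WPush2
import Pool.Agent.Work.MP_b30479_gt.G2.M3G
import Pool.Agent.Work.MP_b30479_gt.G2.WLocX

/-!
# Interior regions with three crossings in a word: location on the flat parts, push-back
-/

namespace Pool.Agent.Work.MP_b30479_gt.G2

open Finset VOL Filter Topology

theorem MM_pos_of_sinNe {u : ℂ} (h : SinNe u) : 0 < NumI.MM u.re u.im := by
  have h0 : 0 ≤ NumI.MM u.re u.im := by
    unfold NumI.MM
    positivity
  rcases h0.lt_or_eq with h1 | h1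
  · exact h1
  · exfalso
    unfold NumI.MM at h1
    have h2 : Real.sin (Real.pi * u.re) = 0 := by
      nlinarith only [h1, sq_nonneg (Real.sin (Real.pi * u.re)), sq_nonneg (Real.sinh (Real.pi * u.im))]
    have h3 : Real.sinh (Real.pi * u.im) = 0 := by
      nlinarith only [h1, sq_nonneg (Real.sin (Real.pi * u.re)), sq_nonneg (Real.sinh (Real.pi * u.im))]
    apply h
    rw [Complex.sin_eq]
    have e1 : ((Real.pi : ℂ) * u).re = Real.pi * u.re := by simp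
    have e2 : ((Real.pi : ℂ) * u).im = Real.pi * u.im := by simp
    rw [e1, e2, ← Complex.ofReal_sin, ← Complex.ofReal_sinh, h2, h3]
    simp

theorem sinNe_ofr (c : ℤ) {u : ℂ} (h : SinNe u) : SinNe (ofr c u) := by
  unfold ofr
  split_ifs
  · exact h
  · unfold SinNe at h ⊢
    intro h1
    apply h
    have h2 : (starRingEnd ℂ) (Complex.sin ((Real.pi : ℂ) * u)) = 0 := by
      rw [← Complex.sin_conj, map_mul, Complex.conj_ofReal]
      exact h1
    simpa using h2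

theorem ofr_add (c : ℤ) (u v : ℂ) : ofr c (u + v) = ofr c u + ofr c v := by
  unfold ofr
  split_ifs
  · rfl
  · exact map_add _ _ _

theorem ofr_sub (c : ℤ) (u v : ℂ) : ofr c (u - v) = ofr c u - ofr c v := by
  unfold ofr
  split_ifs
  · rfl
  · exact map_sub _ _ _

namespace SR

variable {M : ℕ} {b : Fin (M + 1) → ℤ} {zs : DD (tyW b) ⊕ ZZ (tyW b) → ℂ}
variable {y : DD (tyW b) ⊕ ZZ (tyW b) → ℝ}
variable {h h' : Fin M} {i j j' k : Fin (M + 1)} {p : Fin 3}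

/-- the inner variable of an interior region with three crossings -/
def mI (b : Fin (M + 1) → ℤ) (hc : clsW b i = .three) :
    {i : Fin (M + 1) // (tyW b i).isMid = true} := ⟨i, tyW_isMid (Or.inl hc)⟩

/-- its height in the own frame -/
noncomputable def hI (zs : DD (tyW b) ⊕ ZZ (tyW b) → ℂ) (hc : clsW b i = .three) : ℝ :=
  ofs (b i) (zs (.inl (.inr (mI b hc)))).im

theorem pp_mI (hc : clsW b i = .three) :
    (wpar b zs).XM (.inr (mI b hc)) = 8 / 10 ∧ (wpar b zs).cl (.inr (mI b hc)) = 5 / 100 ∧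
      (wpar b zs).cr (.inr (mI b hc)) = 5 / 100 := by
  refine ⟨?_, ?_, ?_⟩ <;> simp [wpar, par1, mp, mI, hc]

/-- no factor of the inner variable of a maximiser vanishes -/
theorem reg_three (hc : clsW b i = .three)
    (hy : IsMx (wdat (tyW b) b) (wpar b zs) zs y) (hpos : ∀ h : Fin M, 0 < y (.inl (.inl h)))
    (hm : 0 < y (.inl (.inr (mI b hc)))) :
    SinNe (Yw b zs y i 1 + Yw b zs y i 2) ∧ SinNe (Yw b zs y i 1 - Yw b zs y i 0) := by
  have h1 := hy.facCo_mid (std_wpar b zs) hpos (mI b hc) hm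
  have ht := tyW_of_three hc
  simp only [mI] at h1
  rw [ht] at h1
  have h2 := h1 ⟨![0, 1, 1], 0, 1 / 2⟩ (by
    generalize decide (i ≠ 0) = l
    generalize decide (i ≠ Fin.last M) = r
    cases l <;> cases r <;> simp [facs, hR]) (by simp)
  have h3 := h1 ⟨![1, -1, 0], 1, -(1 / 2)⟩ (by
    generalize decide (i ≠ 0) = l
    generalize decide (i ≠ Fin.last M) = r
    cases l <;> cases r <;> simp [facs, hR]) (by simp)
  have v2 : ∀ w u : ℂ, 1 + (w + -u) = 1 - (u - w) := fun w u => by ring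
  simp [Fac.form_mk] at h2 h3
  rw [v2] at h3
  have h4 := h2.2
  have h5 := sinNe_one_sub.1 h3.2
  unfold Yw
  rw [← ofr_add, ← ofr_sub]
  exact ⟨sinNe_ofr _ h4, sinNe_ofr _ h5⟩

/-! ### heights and windows -/

theorem win_u (A K : Cl) (s : Bool) :
    ((M3.prm A K).tul : ℝ) / 10000 ≤ (hbox .three K s).t0 ∧
    (hbox .three K s).t1 ≤ ((M3.prm A K).tuh : ℝ) / 10000 ∧
    ((M3.prm A K).ul : ℝ) / 10000 ≤ (hbox .three K s).x0 ∧
    (hbox .three K s).x1 ≤ ((M3.prm A K).uh : ℝ) / 10000 := by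
  cases A <;> cases K <;> norm_num [hbox, M3.prm, M3.p11, M3.p1E, M3.p1N, M3.p1Z, M3.pE1, M3.pEE,
    M3.pEN, M3.pEZ, M3.pN1, M3.pNE, M3.pNN, M3.pNZ, M3.pD1, M3.pDE, M3.pDN, M3.pDZ]

theorem win_v (A K : Cl) (s : Bool) :
    ((M3.prm A K).tvl : ℝ) / 10000 ≤ (hbox .three A s).t0 ∧
    (hbox .three A s).t1 ≤ ((M3.prm A K).tvh : ℝ) / 10000 ∧
    ((M3.prm A K).vl : ℝ) / 10000 ≤ (hbox .three A s).x0 ∧
    (hbox .three A s).x1 ≤ ((M3.prm A K).vh : ℝ) / 10000 := by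
  cases A <;> cases K <;> norm_num [hbox, M3.prm, M3.p11, M3.p1E, M3.p1N, M3.p1Z, M3.pE1, M3.pEE,
    M3.pEN, M3.pEZ, M3.pN1, M3.pNE, M3.pNN, M3.pNZ, M3.pD1, M3.pDE, M3.pDN, M3.pDZ]

theorem win_m (A K : Cl) :
    ((M3.prm A K).tml : ℝ) / 10000 ≤ (mw A K).t0 ∧ (mw A K).t1 ≤ ((M3.prm A K).tmh : ℝ) / 10000 ∧
    ((M3.prm A K).tcl : ℝ) / 10000 ≤ (mw A K).s0 ∧
    (mw A K).s1 ≤ ((M3.prm A K).tch : ℝ) / 10000 := by
  cases A <;> cases K <;> norm_num [mw, M3.prm, M3.p11, M3.p1E, M3.p1N, M3.p1Z, M3.pE1, M3.pEE,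
    M3.pEN, M3.pEZ, M3.pN1, M3.pNE, M3.pNN, M3.pNZ, M3.pD1, M3.pDE, M3.pDN, M3.pDZ]

/-- the heights -/
theorem hts3 (hb : ClassW b) (hL : Loc b zs) (hX : LocX b zs) (A : Adj h i 0 j)
    (A' : Adj h' i 2 k) (hc : clsW b i = .three) :
    M3.Hts (M3.prm (clsW b j) (clsW b k)) (ofs (b i) (zs (.inl (.inl h'))).im)
      (ofs (b i) (zs (.inl (.inl h))).im) (hI zs hc) := by
  have h1 := A.box hb hL
  have h2 := A'.box hb hL
  have h3 := hX.mid (tyW_isMid (Or.inl hc)) A A' hc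
  rw [hc] at h1 h2
  have w1 := win_v (clsW b j) (clsW b k) (ssW b h)
  have w2 := win_u (clsW b j) (clsW b k) (ssW b h')
  have w3 := win_m (clsW b j) (clsW b k)
  unfold hI mI
  exact ⟨w2.1.trans h2.2.2.1, h2.2.2.2.trans w2.2.1, w1.1.trans h1.2.2.1,
    h1.2.2.2.trans w1.2.1, w3.1.trans h3.1, h3.2.1.trans w3.2.1, w3.2.2.1.trans h3.2.2.1,
    h3.2.2.2.trans w3.2.2.2⟩

/-! ### located points -/

/-- a located point: `u`: slot 2, `v`: slot 0, `m`: inner variable -/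
structure PtI (A K : Cl) (tu tv tm u v m : ℝ) : Prop where
  hu : u ∈ Set.Icc (((M3.prm A K).ul : ℝ) / 10000) (((M3.prm A K).uh : ℝ) / 10000)
  hv : v ∈ Set.Icc (((M3.prm A K).vl : ℝ) / 10000) (((M3.prm A K).vh : ℝ) / 10000)
  hm : m ∈ Set.Icc (M3.mL (M3.prm A K) v) (M3.mU (M3.prm A K) u v)
  hz : M3.Phi tu tv tm u v m = 0

theorem Phi_SM {tu tv tm u v m : ℝ} : M3.Phi tu tv tm u v m = SM 0 (lv v tv) (lv m tm) (lv u tu) := by
  unfold M3.Phi SM
  have e1 : M3.cx (u + m) (tu + tm) = lv m tm + lv u tu := by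
    rw [lv_add, add_comm u m, add_comm tu tm]
    rfl
  have e2 : M3.cx (m - v) (tm - tv) = lv m tm - lv v tv := by
    apply Complex.ext <;> simp
  have e3 : M3.cx m tm = lv m tm := rfl
  rw [e1, e2, e3]
  simp only [lv_im, zero_mul, add_zero]
  ring

theorem S2_DU {tu tm u m : ℝ} : S2 1 0 (lv u tu) (lv m tm) = Real.pi * (tm - tu) + M3.DU tu tm u m := by
  unfold S2 M3.DU
  have e1 : M3.cx (u + m) (tu + tm) = lv u tu + lv m tm := by
    rw [lv_add]
    rfl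
  have e3 : M3.cx u tu = lv u tu := rfl
  rw [e1, e3]
  simp only [lv_im, zero_mul, add_zero]
  ring

theorem S3_DV {tv tm v m : ℝ} : S3 1 0 (lv v tv) (lv m tm) = -(Real.pi * tm) + M3.DV tv tm v m := by
  unfold S3 M3.DV
  have e2 : M3.cx (m - v) (tm - tv) = lv m tm - lv v tv := by
    apply Complex.ext <;> simp
  have e3 : M3.cx v tv = lv v tv := rfl
  rw [e2, e3]
  simp only [lv_im, zero_mul, add_zero]
  ring

/-- the saddle point -/
theorem saddle3 (hb : ClassW b) (hL : Loc b zs) (hX : LocX b zs) (hC : Crit b zs)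
    (A : Adj h i 0 j) (A' : Adj h' i 2 k) (hc : clsW b i = .three) :
    Ys b zs i 1 = lv (zs (.inl (.inr (mI b hc)))).re (hI zs hc) ∧
    PtI (clsW b j) (clsW b k) (ofs (b i) (zs (.inl (.inl h'))).im)
      (ofs (b i) (zs (.inl (.inl h))).im) (hI zs hc) (zs (.inl (.inl h'))).re
      (zs (.inl (.inl h))).re (zs (.inl (.inr (mI b hc)))).re := by
  have h1 := A.box hb hL
  have h2 := A'.box hb hL
  rw [hc] at h1 h2
  have w1 := win_v (clsW b j) (clsW b k) (ssW b h)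
  have w2 := win_u (clsW b j) (clsW b k) (ssW b h')
  have e1 : Ys b zs i 1 = ofr (b i) (zs (.inl (.inr (mI b hc)))) := by
    unfold Ys
    rw [xx_mid (tyW b) (tyW_isMid (Or.inl hc))]
    rfl
  have e2 : Ys b zs i 1 = lv (zs (.inl (.inr (mI b hc)))).re (hI zs hc) := by
    rw [e1]
    apply Complex.ext
    · rw [ofr_re, lv_re]
    · rw [ofr_im, lv_im]
      rfl
  refine ⟨e2, ?_⟩
  have hm : (mbox (clsW b j)).In (ofr (b i) (zs (.inl (.inr (mI b hc))))) := by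
    cases A
    exact hL.mid (mI b hc) (clsW_inner hb (Or.inr (Or.inr hc))) h rfl
  unfold Box.In mbox at hm
  simp only [ofr_re] at hm
  have hz := hC.three hb hc 0
  rw [A.Ys_lv, A'.Ys_lv, e2, ← Phi_SM] at hz
  have hu : (zs (.inl (.inl h'))).re ∈ Set.Icc (((M3.prm (clsW b j) (clsW b k)).ul : ℝ) / 10000)
      (((M3.prm (clsW b j) (clsW b k)).uh : ℝ) / 10000) :=
    ⟨w2.2.2.1.trans h2.1, h2.2.1.trans w2.2.2.2⟩
  have hv : (zs (.inl (.inl h))).re ∈ Set.Icc (((M3.prm (clsW b j) (clsW b k)).vl : ℝ) / 10000)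
      (((M3.prm (clsW b j) (clsW b k)).vh : ℝ) / 10000) :=
    ⟨w1.2.2.1.trans h1.1, h1.2.1.trans w1.2.2.2⟩
  have hx1 : (hbox .three (clsW b j) (ssW b h)).x1 ≤ 314 / 1000 := by
    cases clsW b j <;> simp only [hbox] <;> norm_num
  have hx2 : (hbox .three (clsW b k) (ssW b h')).x1 ≤ 314 / 1000 ∧
      0 < (hbox .three (clsW b k) (ssW b h')).x0 := by
    cases clsW b k <;> simp only [hbox] <;> norm_num
  refine ⟨hu, hv, ?_, hz⟩
  exact M3.zero_mem_all _ _ (hts3 hb hL hX A A' hc) hu.1 hu.2 hv.1 hv.2 (by linarith only [hc, h2, hm, hx2, hm.1])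
    (by linarith only [hc, h2, hm, hx2, hm.2.1]) (M3.MM_pos' (by linarith only [hc, h1, h2, hm, hx1, hx2, hm.1, h1.2.1]) (by
      have := h1.1
      have : 0 < (hbox .three (clsW b j) (ssW b h)).x0 := by
        cases clsW b j <;> simp only [hbox] <;> norm_num
      linarith only [hc, h1, h2, hm, hx2, this, hm.2.1]))
    (M3.MM_pos' (by linarith only [hc, h2, hm, hx2, hm.1, h2.1]) (by linarith only [hc, h2, hm, hx2, hm.2.1, h2.2.1])) hz

/-- the maximiser on the flat parts -/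
theorem max3 (hb : ClassW b) (hL : Loc b zs) (hX : LocX b zs)
    (hy : IsMx (wdat (tyW b) b) (wpar b zs) zs y) (hpos : ∀ h : Fin M, 0 < y (.inl (.inl h)))
    (hf : Flat b y) (A : Adj h i 0 j) (A' : Adj h' i 2 k) (hc : clsW b i = .three)
    (hu : y (.inl (.inl h')) ∈ Set.Icc (((M3.prm (clsW b j) (clsW b k)).ul : ℝ) / 10000)
      (((M3.prm (clsW b j) (clsW b k)).uh : ℝ) / 10000))
    (hv : y (.inl (.inl h)) ∈ Set.Icc (((M3.prm (clsW b j) (clsW b k)).vl : ℝ) / 10000)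
      (((M3.prm (clsW b j) (clsW b k)).vh : ℝ) / 10000))
    (hm0 : 5 / 100 < y (.inl (.inr (mI b hc)))) (hm1 : y (.inl (.inr (mI b hc))) < 3 / 4) :
    Yw b zs y i 1 = lv (y (.inl (.inr (mI b hc)))) (hI zs hc) ∧
    PtI (clsW b j) (clsW b k) (ofs (b i) (zs (.inl (.inl h'))).im)
      (ofs (b i) (zs (.inl (.inl h))).im) (hI zs hc) (y (.inl (.inl h')))
      (y (.inl (.inl h))) (y (.inl (.inr (mI b hc)))) := by
  obtain ⟨p1, p2, p3⟩ := pp_mI (zs := zs) hc
  have hR := mid_RH hy (mI b hc)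
  have hF := mid_fc hb hy hpos (mI b hc) (by linarith only [hc, hm0])
  rw [p1, p2, p3] at hR hF
  have hre : (Yw b zs y (mI b hc).1 1).re = y (.inl (.inr (mI b hc))) := by
    rw [Yw_mid (zs := zs) (y := y) (mI b hc), ofr_pp_re]
  have e1 : Yw b zs y i 1 = lv (y (.inl (.inr (mI b hc)))) (hI zs hc) := by
    show Yw b zs y (mI b hc).1 1 = _
    apply Complex.ext
    · rw [hre, lv_re]
    · rw [hR.im, hre, tr_b (by norm_num) (by norm_num) (by linarith only [hc, hm0]) (by linarith only [hc, hm1]), mul_one, lv_im]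
      rfl
  have hz : M3.Phi (ofs (b i) (zs (.inl (.inl h'))).im) (ofs (b i) (zs (.inl (.inl h))).im)
      (hI zs hc) (y (.inl (.inl h'))) (y (.inl (.inl h))) (y (.inl (.inr (mI b hc)))) = 0 := by
    rw [Phi_SM, ← A.Yw_flat hy hf, ← A'.Yw_flat hy hf, ← e1, ← OM_three hc]
    exact le_antisymm (hF.flat (by rw [hre]; linarith only [hc, hm0]) (by rw [hre]; linarith only [hc, hm1]))
      (hF.flat' (by rw [hre]; linarith only [hc, hm0]) (by rw [hre]; linarith only [hc, hm1]))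
  refine ⟨e1, hu, hv, ?_, hz⟩
  obtain ⟨r1, r2⟩ := reg_three hc hy hpos (by linarith only [hc, hm0])
  have r1 := MM_pos_of_sinNe r1
  have r2 := MM_pos_of_sinNe r2
  rw [e1, A'.Yw_flat hy hf, lv_add, lv_re, lv_im, add_comm] at r1
  rw [add_comm (hI zs hc)] at r1
  rw [e1, A.Yw_flat hy hf, Complex.sub_re, Complex.sub_im, lv_re, lv_im, lv_re, lv_im] at r2
  exact M3.zero_mem_all _ _ (hts3 hb hL hX A A' hc) hu.1 hu.2 hv.1 hv.2 hm0.le
    (by linarith only [hc, hm1]) r2 r1 hz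

/-- **Push-back of an interior region with three crossings, slot 2.** -/
theorem push3_two (hb : ClassW b) (hL : Loc b zs) (hX : LocX b zs) (hC : Crit b zs)
    (hy : IsMx (wdat (tyW b) b) (wpar b zs) zs y) (hpos : ∀ h : Fin M, 0 < y (.inl (.inl h)))
    (hf : Flat b y) (A : Adj h i 0 j) (A' : Adj h' i 2 k) (hc : clsW b i = .three)
    (hu : y (.inl (.inl h')) ∈ Set.Icc (((M3.prm (clsW b j) (clsW b k)).ul : ℝ) / 10000)
      (((M3.prm (clsW b j) (clsW b k)).uh : ℝ) / 10000))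
    (hv : y (.inl (.inl h)) ∈ Set.Icc (((M3.prm (clsW b j) (clsW b k)).vl : ℝ) / 10000)
      (((M3.prm (clsW b j) (clsW b k)).vh : ℝ) / 10000))
    (hm0 : 5 / 100 < y (.inl (.inr (mI b hc)))) (hm1 : y (.inl (.inr (mI b hc))) < 3 / 4) :
    Push' (tyW b) b i 2 0 (Xw b zs y i) (xx (tyW b) i zs) := by
  apply A'.push_three_two hb hc
  obtain ⟨e1, P1⟩ := max3 hb hL hX hy hpos hf A A' hc hu hv hm0 hm1
  obtain ⟨e2, P2⟩ := saddle3 hb hL hX hC A A' hc
  have L := (M3.good (clsW b j) (clsW b k)).lvl (hts3 hb hL hX A A' hc)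
  rw [e1, e2, A.Yw_flat hy hf, A'.Yw_flat hy hf, A.Ys_lv, A'.Ys_lv, S2_DU, S2_DU]
  unfold PushV
  simp only [lv_re]
  constructor
  · intro hlt hg
    have := L.DU_lt P2.hu P2.hv P1.hu P1.hv P2.hm P2.hz P1.hm P1.hz
      (strictMonoOn_gh (L.hu P2.hu) (L.hu P1.hu) hlt) hg
    linarith only [hc, this]
  · intro hlt hg
    have := L.DU_lt P1.hu P1.hv P2.hu P2.hv P1.hm P1.hz P2.hm P2.hz
      (strictMonoOn_gh (L.hu P1.hu) (L.hu P2.hu) hlt) (by rwa [abs_sub_comm])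
    linarith only [hc, this]

/-- **Push-back of an interior region with three crossings, slot 0.** -/
theorem push3_zero (hb : ClassW b) (hL : Loc b zs) (hX : LocX b zs) (hC : Crit b zs)
    (hy : IsMx (wdat (tyW b) b) (wpar b zs) zs y) (hpos : ∀ h : Fin M, 0 < y (.inl (.inl h)))
    (hf : Flat b y) (A : Adj h i 0 j) (A' : Adj h' i 2 k) (hc : clsW b i = .three)
    (hu : y (.inl (.inl h')) ∈ Set.Icc (((M3.prm (clsW b j) (clsW b k)).ul : ℝ) / 10000)
      (((M3.prm (clsW b j) (clsW b k)).uh : ℝ) / 10000))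
    (hv : y (.inl (.inl h)) ∈ Set.Icc (((M3.prm (clsW b j) (clsW b k)).vl : ℝ) / 10000)
      (((M3.prm (clsW b j) (clsW b k)).vh : ℝ) / 10000))
    (hm0 : 5 / 100 < y (.inl (.inr (mI b hc)))) (hm1 : y (.inl (.inr (mI b hc))) < 3 / 4) :
    Push' (tyW b) b i 0 2 (Xw b zs y i) (xx (tyW b) i zs) := by
  apply A.push_three_zero hb hc
  obtain ⟨e1, P1⟩ := max3 hb hL hX hy hpos hf A A' hc hu hv hm0 hm1
  obtain ⟨e2, P2⟩ := saddle3 hb hL hX hC A A' hc
  have L := (M3.good (clsW b j) (clsW b k)).lvl (hts3 hb hL hX A A' hc)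
  rw [e1, e2, A.Yw_flat hy hf, A'.Yw_flat hy hf, A.Ys_lv, A'.Ys_lv, S3_DV, S3_DV]
  unfold PushV
  simp only [lv_re]
  constructor
  · intro hlt hg
    have := L.DV_lt P2.hu P2.hv P1.hu P1.hv P2.hm P2.hz P1.hm P1.hz
      (strictMonoOn_gh (L.hv P2.hv) (L.hv P1.hv) hlt) hg
    linarith only [hc, this]
  · intro hlt hg
    have := L.DV_lt P1.hu P1.hv P2.hu P2.hv P1.hm P1.hz P2.hm P2.hz
      (strictMonoOn_gh (L.hv P1.hv) (L.hv P2.hv) hlt) (by rwa [abs_sub_comm])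
    linarith only [hc, this]

/-- **Uniqueness of the inner variable.** -/
theorem inner3 (hb : ClassW b) (hL : Loc b zs) (hX : LocX b zs) (hC : Crit b zs)
    (hy : IsMx (wdat (tyW b) b) (wpar b zs) zs y) (hpos : ∀ h : Fin M, 0 < y (.inl (.inl h)))
    (hf : Flat b y) (A : Adj h i 0 j) (A' : Adj h' i 2 k) (hc : clsW b i = .three)
    (hz : ∀ h : Fin M, y (.inl (.inl h)) = (zs (.inl (.inl h))).re)
    (hm0 : 5 / 100 < y (.inl (.inr (mI b hc)))) (hm1 : y (.inl (.inr (mI b hc))) < 3 / 4) :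
    y (.inl (.inr (mI b hc))) = (zs (.inl (.inr (mI b hc)))).re := by
  obtain ⟨e2, P2⟩ := saddle3 hb hL hX hC A A' hc
  obtain ⟨e1, P1⟩ := max3 hb hL hX hy hpos hf A A' hc (by rw [hz h']; exact P2.hu)
    (by rw [hz h]; exact P2.hv) hm0 hm1
  have L := (M3.good (clsW b j) (clsW b k)).lvl (hts3 hb hL hX A A' hc)
  have h1 := P1.hm
  have h2 := P1.hz
  rw [hz h, hz h'] at h1 h2
  exact L.unique P2.hu P2.hv h1 P2.hm h2 P2.hz

end SR

end Pool.Agent.Work.MP_b30479_gt.G2
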