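import Pool.Agent.Work.MP_b30479_gt.G2.H13S
import Pool.Agent.Work.MP_b30479_gt.G2.WCap22
import Pool.Agent.Work.MP_b30479_gt.G2.WI3

/-!
# Right side of the hinge `1 | 3` (slot `0`) in a word
-/

namespace Pool.Agent.Work.MP_b30479_gt.G2

open Finset VOL Filter Topology

namespace HX

open SR

variable {M : ℕ} {b : Fin (M + 1) → ℤ} {zs : DD (tyW b) ⊕ ZZ (tyW b) → ℂ}
variable {y : DD (tyW b) ⊕ ZZ (tyW b) → ℝ}
variable {h h' h3 : Fin M} {i j j' k : Fin (M + 1)} {p : Fin 3}

/-- height on the path of the hinge `1 | 3` -/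
theorem par13 (A : Adj h i 2 j) (hi : clsW b i = .one) (hj : clsW b j = .three) :
    wXM b h = 65 / 100 ∧ wcl b h = 13 / 100 ∧ wcr b h = 15 / 100 := by
  rw [A.XM_eq b, A.cl_eq b, A.cr_eq b, hi, hj]
  unfold hpp
  rw [if_pos rfl]
  simp [hp, hp1]

/-- the other hinge of the digit `1` on the flat part -/
theorem flatP (A' : Adj h' i 0 j') (hy : Mx b zs y) (hi : clsW b i = .one)
    (hP : clsW b j' = .one ∨ clsW b j' = .two ∨ clsW b j' = .twoE)
    (h0 : 1558 / 10000 ≤ y (.inl (.inl h')))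
    (h0' : clsW b j' = .two → 16 / 100 ≤ y (.inl (.inl h')))
    (h1 : y (.inl (.inl h')) ≤ 1 / 2)
    (h1' : clsW b j' = .twoE → y (.inl (.inl h')) ≤ 35 / 100) :
    (Yw b zs y i 0).im = ofs (b i) (zs (.inl (.inl h'))).im := by
  have hrh := A'.rh hy
  have hre := A'.re (b := b) (zs := zs) (y := y)
  have e1 := A'.XM_eq b
  have e2 := A'.cl_eq b
  have e3 := A'.cr_eq b
  rw [hi] at e1 e2 e3
  unfold hpp at e1 e2 e3
  rw [if_neg (by decide)] at e1 e2 e3
  rcases hP with hP | hP | hP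
  · rw [hP] at e1 e2 e3
    simp only [hp] at e1 e2 e3
    have f1 : 80 / 100 ≤ wXM b h' := by
      rw [e1]
      split_ifs <;> norm_num
    have f2 : wcl b h' = 15 / 100 := by
      rw [e2]
      split_ifs <;> rfl
    have f3 : wcr b h' = 20 / 100 := by
      rw [e3]
      split_ifs <;> rfl
    exact MR.RH_flat hrh (by linarith only [f2]) (by linarith only [f3]) (by rw [hre]; linarith only [h0, f2]) (by rw [hre]; linarith only [h1, f1, f3])
  · rw [hP] at e1 e2 e3
    simp only [hp, hp1] at e1 e2 e3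
    have := h0' hP
    exact MR.RH_flat hrh (by linarith only [e2]) (by linarith only [e3]) (by rw [hre]; linarith only [e2, this]) (by rw [hre]; linarith only [h1, e1, e3])
  · rw [hP] at e1 e2 e3
    simp only [hp, hp1] at e1 e2 e3
    have := h1' hP
    exact MR.RH_flat hrh (by linarith only [e2]) (by linarith only [e3]) (by rw [hre]; linarith only [h0, e2]) (by rw [hre]; linarith only [e1, e3, this])

/-- factor of the height on a path -/
theorem tr_ge {XM cl cr x φ : ℝ} (hc : 0 < cl) (hc' : 0 < cr) (h0 : φ ≤ 1) (h1 : φ * cl ≤ x)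
    (h2 : φ * cr ≤ XM - x) : φ ≤ tr 0 XM cl cr x := by
  unfold tr
  rw [sub_zero]
  refine le_max_of_le_right (le_min h0 (le_min ?_ ?_))
  · rwa [le_div_iff₀ hc]
  · rwa [le_div_iff₀ hc']

/-- height on a path, in terms of a lower bound of the factor -/
theorem RH_neg {w : ℂ} {T XM cl cr B φ : ℝ} (h : RH w T XM cl cr) (hB : 0 ≤ B) (hT : T ≤ -B)
    (hφ : φ ≤ tr 0 XM cl cr w.re) : w.im ≤ -(B * φ) := by
  have h3 : 0 ≤ tr 0 XM cl cr w.re := le_max_left _ _
  rw [h.im]
  nlinarith only [hT, h3, hφ, hB, mul_le_mul_of_nonneg_right hT h3, mul_le_mul_of_nonneg_left hφ hB]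

/-- the hinge in the slot `2` of the digit `3` -/
theorem w_im (A3 : Adj h3 j 2 k) (hb : ClassW b) (hL : Loc b zs) (hy : Mx b zs y)
    (hj : clsW b j = .three) (h0 : 11 / 100 ≤ y (.inl (.inl h3)))
    (h1 : y (.inl (.inl h3)) ≤ 39 / 100) (h2 : clsW b k ≠ .one → y (.inl (.inl h3)) ≤ 31 / 100) :
    ((kd (clsW b k)).wl : ℝ) / 10000 ≤ (Yw b zs y j 2).im ∧
      (Yw b zs y j 2).im ≤ ((kd (clsW b k)).wh : ℝ) / 10000 := by
  have hrh := A3.rh hy
  have hre := A3.re (b := b) (zs := zs) (y := y)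
  have hop := A3.opp hb (Or.inl (by rw [hj]; decide))
  obtain ⟨-, -, t0, t1⟩ := A3.box hb hL
  rw [hj, A3.ss hop] at t0 t1
  have e1 := A3.XM_eq b
  have e2 := A3.cl_eq b
  have e3 := A3.cr_eq b
  rw [hj] at e1 e2 e3
  unfold hpp at e1 e2 e3
  rw [if_pos rfl] at e1 e2 e3
  generalize clsW b k = K at *
  cases K
  case one =>
    simp only [hp, hbox] at e1 e2 e3 t0 t1
    obtain ⟨c1, -⟩ := MR.RH_im_mem hrh (by norm_num : -(1145 / 10000 : ℝ) ≤ 0) (by norm_num : (0 : ℝ) ≤ 1)
      t0 (by linarith only [t1])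
    have c2 := RH_neg hrh (B := 21 / 1000) (φ := 11 / 15) (by norm_num) t1
      (tr_ge (by linarith only [e2]) (by linarith only [e3]) (by norm_num) (by rw [e2, hre]; linarith only [h0])
        (by rw [e3, e1, hre]; linarith only [h1]))
    constructor
    · simp only [kd]
      push_cast
      linarith only [c1]
    · simp only [kd]
      push_cast
      linarith only [c2]
  case twoE =>
    simp only [hp, hbox] at e1 e2 e3 t0 t1
    have h2' := h2 (by decide)
    obtain ⟨c1, -⟩ := MR.RH_im_mem hrh (by norm_num : -(98 / 1000 : ℝ) ≤ 0) (by norm_num : (0 : ℝ) ≤ 1)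
      t0 (by linarith only [t1])
    have c2 := RH_neg hrh (B := 76 / 1000) (φ := 11 / 13) (by norm_num) t1
      (tr_ge (by linarith only [e2]) (by linarith only [e3]) (by norm_num) (by rw [e2, hre]; linarith only [h0])
        (by rw [e3, e1, hre]; linarith only [h2']))
    constructor
    · simp only [kd]
      push_cast
      linarith only [c1]
    · simp only [kd]
      push_cast
      linarith only [c2]
  case ring =>
    simp only [hbox] at t0 t1
    obtain ⟨c1, c2⟩ := MR.RH_im_mem hrh (by norm_num : -(4 / 1000 : ℝ) ≤ 0)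
      (by norm_num : (0 : ℝ) ≤ 57 / 1000) t0 t1
    constructor
    · simp only [kd]
      push_cast
      linarith only [c1]
    · simp only [kd]
      push_cast
      linarith only [c2]
  case two =>
    simp only [hbox] at t0 t1
    obtain ⟨c1, c2⟩ := MR.RH_im_mem hrh (by norm_num : -(57 / 1000 : ℝ) ≤ 0)
      (by norm_num : (0 : ℝ) ≤ 22 / 1000) t0 (by linarith only [t1])
    constructor
    · simp only [kd]
      push_cast
      linarith only [c1]
    · simp only [kd]
      push_cast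
      linarith only [c2]
  case three =>
    simp only [hbox] at t0 t1
    obtain ⟨c1, c2⟩ := MR.RH_im_mem hrh (by norm_num : -(57 / 1000 : ℝ) ≤ 0)
      (by norm_num : (0 : ℝ) ≤ 22 / 1000) (by linarith only [t0]) (by linarith only [t1])
    constructor
    · simp only [kd]
      push_cast
      linarith only [c1]
    · simp only [kd]
      push_cast
      linarith only [c2]
  case threeE =>
    simp only [hbox] at t0 t1
    obtain ⟨c1, c2⟩ := MR.RH_im_mem hrh (by norm_num : -(57 / 1000 : ℝ) ≤ 0)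
      (by norm_num : (0 : ℝ) ≤ 22 / 1000) (by linarith only [t0]) (by linarith only [t1])
    constructor
    · simp only [kd]
      push_cast
      linarith only [c1]
    · simp only [kd]
      push_cast
      linarith only [c2]

/-- windows of the inner variable -/
theorem m_im (hb : ClassW b) (hX : LocX b zs) (A : Adj h j 0 i) (A3 : Adj h3 j 2 k)
    (hi : clsW b i = .one) (hj : clsW b j = .three) :
    ((kd (clsW b k)).t0 : ℝ) / 10000 ≤ hI zs hj ∧ hI zs hj ≤ ((kd (clsW b k)).t1 : ℝ) / 10000 ∧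
    ((kd (clsW b k)).s0 : ℝ) / 10000 ≤ hI zs hj - ofs (b j) (zs (.inl (.inl h))).im ∧
    hI zs hj - ofs (b j) (zs (.inl (.inl h))).im ≤ ((kd (clsW b k)).s1 : ℝ) / 10000 := by
  have h3 := hX.mid (tyW_isMid (Or.inl hj)) A A3 hj
  rw [hi] at h3
  obtain ⟨a0, a1, a2, a3⟩ := h3
  unfold hI mI
  generalize clsW b k = K at *
  cases K <;> simp only [mw, kd] at a0 a1 a2 a3 ⊢ <;> push_cast <;>
    refine ⟨?_, ?_, ?_, ?_⟩ <;> linarith only [hj, a0, a1, a2, a3]

/-- bounds of the side `s` of the digit `3` -/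
structure B3 (x T s : ℝ) : Prop where
  A : x ≤ 475 / 1000 → s < -fA x T ∨ 47 / 100 ≤ x ∧ s < -fB x T
  B : 475 / 1000 ≤ x → x ≤ 1 / 2 → s < -fB x T
  C : 1 / 2 < x → x ≤ 55 / 100 → s < -fC x T
  D : 55 / 100 ≤ x → s < -fD x T

/-- geometry of the hinge `1 | 3`; `T`: height of the saddle point in the frame of the `1` -/
structure G13 (b : Fin (M + 1) → ℤ) (zs : DD (tyW b) ⊕ ZZ (tyW b) → ℂ)
    (y : DD (tyW b) ⊕ ZZ (tyW b) → ℝ) (h : Fin M) (i : Fin (M + 1)) (T x : ℝ) : Prop where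
  re : (Yw b zs y i 2).re = x
  xM : x ≤ 65 / 100
  T0 : 21 / 1000 ≤ T
  T1 : T ≤ 1145 / 10000
  fl : x ≤ 1 / 2 → (Yw b zs y i 2).im = T ∧ slL b zs y h = 0
  rp : 1 / 2 < x → (Yw b zs y i 2).im = T * (20 / 3 * (65 / 100 - x)) ∧
    ofs (b i) (slL b zs y h) = -(20 / 3 * T)

theorem geo13 (hb : ClassW b) (hL : Loc b zs) (hy : Mx b zs y) (A : Adj h i 2 j)
    (hi : clsW b i = .one) (hj : clsW b j = .three) (hx0 : 13 / 100 < y (.inl (.inl h))) :
    G13 b zs y h i (ofs (b i) (zs (.inl (.inl h))).im) (y (.inl (.inl h))) := by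
  obtain ⟨hXM, hcl, hcr⟩ := par13 A hi hj
  have hrh := A.rh hy
  have hre := A.re (b := b) (zs := zs) (y := y)
  have hxM := hrh.reM
  rw [hXM, hre] at hxM
  rw [hXM, hcl, hcr] at hrh
  obtain ⟨-, -, a0, a1⟩ := A.box hb hL
  rw [hi, hj] at a0 a1
  simp only [hbox] at a0 a1
  refine ⟨hre, hxM, a0, a1, fun h5 => ⟨?_, ?_⟩, fun h5 => ⟨?_, ?_⟩⟩
  · exact MR.RH_flat hrh (by norm_num) (by norm_num) (by rw [hre]; linarith only [hx0]) (by rw [hre]; linarith only [h5])
  · exact slL_flat (by rw [hcl]; linarith only [hx0]) (by rw [hXM, hcr]; linarith only [h5])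
  · rw [MR.RH_right hrh (by norm_num) (by norm_num) (by norm_num) (by rw [hre]; linarith only [h5]), hre]
    ring
  · rw [ofs_slL_ramp (b := b) (zs := zs) (y := y) (h := h) (b i) (by rw [hXM, hcr]; linarith only [h5]), hcr]
    ring

/-- the class of the other neighbour of the digit `1` -/
theorem cls13 (hb : ClassW b) (A : Adj h i 2 j) (A' : Adj h' i 0 j') (hi : clsW b i = .one)
    (hj : clsW b j = .three) : clsW b j' = .one ∨ clsW b j' = .two ∨ clsW b j' = .twoE := by
  have A2 : Adj h' i (2 : Fin 3).rev j' := A'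
  rcases okp_of hb A A2 hi with h1 | h1
  · rw [hj] at h1
    rcases h1 with h1 | h1 | h1 <;> exact absurd h1 (by decide)
  · exact h1

/-- the height of the hinge `1 | 3` is at most `94/1000` unless the other neighbour of the `1` is a
`2` at an end -/
theorem T94 (hb : ClassW b) (hX : LocX b zs) (A : Adj h i 2 j) (A' : Adj h' i 0 j')
    (hi : clsW b i = .one) (hj : clsW b j = .three)
    (hend : clsW b j' = .twoE → y (.inl (.inl h)) ≤ 635 / 1000) :
    y (.inl (.inl h)) ≤ 635 / 1000 ∨ ofs (b i) (zs (.inl (.inl h))).im ≤ 94 / 1000 := by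
  obtain ⟨a0, a1, a2, a3⟩ := hX.win A (p := 2) A' hi
  rw [hj] at a0 a1
  rcases cls13 hb A A' hi hj with hP | hP | hP
  · right
    rw [hP] at a1
    simp only [cw] at a1
    linarith only [a1]
  · right
    rw [hP] at a1
    simp only [cw] at a1
    linarith only [a1]
  · exact Or.inl (hend hP)

/-- the hinge in the frame of the digit `3` -/
theorem u13 (hb : ClassW b) (A : Adj h i 2 j) (hi : clsW b i = .one)
    {T x : ℝ} (G : G13 b zs y h i T x) : (Yw b zs y j 0).re = x ∧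
      (x ≤ 1 / 2 → (Yw b zs y j 0).im = -T) ∧
      (1 / 2 < x → (Yw b zs y j 0).im = -(T * (20 / 3 * (65 / 100 - x)))) := by
  have hop := A.opp hb (Or.inl (by rw [hi]; decide))
  have hc' : Yw b zs y j 0 = starRingEnd ℂ (Yw b zs y i 2) :=
    A.conj (zs := zs) (y := y) hop
  refine ⟨?_, fun h5 => ?_, fun h5 => ?_⟩
  · rw [hc', Complex.conj_re, G.re]
  · rw [hc', Complex.conj_im, (G.fl h5).1]
  · rw [hc', Complex.conj_im, (G.rp h5).1]

/-- the side of the digit `3` in closed form -/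
theorem sd13 (hb : ClassW b) (A : Adj h i 2 j) (hi : clsW b i = .one) (hj : clsW b j = .three)
    {T x : ℝ} (G : G13 b zs y h i T x) :
    (x ≤ 1 / 2 → Sw b zs y j 0 (slL b zs y h) = S3 1 0 (Yw b zs y j 0) (Yw b zs y j 1)) ∧
    (1 / 2 < x → Sw b zs y j 0 (slL b zs y h) =
      S3 1 (20 / 3 * T) (Yw b zs y j 0) (Yw b zs y j 1)) := by
  have hop := A.opp hb (Or.inl (by rw [hi]; decide))
  have B : Adj h j 0 i := A.symm
  refine ⟨fun h5 => ?_, fun h5 => ?_⟩
  · rw [B.side_three_zero hb hj, (G.fl h5).2, ofs_zero']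
  · rw [B.side_three_zero hb hj, ofs_opp hop, (G.rp h5).2, neg_neg]

/-- the side of the digit `3`, inner variable on its flat part -/
theorem side3 (hb : ClassW b) (hL : Loc b zs) (hX : LocX b zs) (hy : Mx b zs y)
    (hpos : ∀ h : Fin M, 0 < y (.inl (.inl h)))
    (A : Adj h i 2 j) (A3 : Adj h3 j 2 k)
    (hi : clsW b i = .one) (hj : clsW b j = .three)
    (hx0 : 45 / 100 ≤ y (.inl (.inl h)))
    (hxK : 46 / 100 ≤ y (.inl (.inl h)) ∧ clsW b k ≠ .one ∨
      clsW b k = .one ∧ (131 / 1000 ≤ y (.inl (.inl h3)) ∨ 47 / 100 ≤ y (.inl (.inl h))))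
    (hd : y (.inl (.inl h)) ≤ 635 / 1000 ∨ ofs (b i) (zs (.inl (.inl h))).im ≤ 94 / 1000)
    (hw0 : 11 / 100 ≤ y (.inl (.inl h3))) (hw1 : y (.inl (.inl h3)) ≤ 39 / 100)
    (hw2 : clsW b k ≠ .one → y (.inl (.inl h3)) ≤ 31 / 100)
    (hm0 : y (.inl (.inl h)) + 4 / 100 ≤ y (.inl (.inr (mI b hj))))
    (hm1 : y (.inl (.inr (mI b hj))) ≤ 75 / 100) :
    B3 (y (.inl (.inl h))) (ofs (b i) (zs (.inl (.inl h))).im) (Sw b zs y j 0 (slL b zs y h)) := by
  have hop := A.opp hb (Or.inl (by rw [hi]; decide))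
  have G := geo13 hb hL hy A hi hj (by linarith only [hx0])
  obtain ⟨hure, hu1, hu2⟩ := u13 hb A hi G
  obtain ⟨hs1, hs2⟩ := sd13 hb A hi hj G
  have hxM := G.xM
  have hT0 := G.T0
  have hT1 := G.T1
  have B : Adj h j 0 i := A.symm
  have hTj : ofs (b j) (zs (.inl (.inl h))).im = -ofs (b i) (zs (.inl (.inl h))).im := ofs_opp hop _
  set x := y (.inl (.inl h)) with hx
  set T := ofs (b i) (zs (.inl (.inl h))).im with hT
  obtain ⟨m0, m1, m2, m3⟩ := m_im hb hX B A3 hi hj
  rw [hTj, sub_neg_eq_add] at m2 m3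
  obtain ⟨w0, w1⟩ := w_im A3 hb hL hy hj hw0 hw1 hw2
  obtain ⟨p1, p2, p3⟩ := pp_mI (zs := zs) hj
  have hmpos : 0 < y (.inl (.inr (mI b hj))) := by linarith only [hj, hx0, hm0]
  have hR := mid_RH hy (mI b hj)
  have hF := mid_fc hb hy hpos (mI b hj) hmpos
  rw [p1, p2, p3] at hR hF
  have hmre' : (Yw b zs y (mI b hj).1 1).re = y (.inl (.inr (mI b hj))) := by
    rw [Yw_mid (zs := zs) (y := y) (mI b hj), ofr_pp_re]
  have hmre : (Yw b zs y j 1).re = y (.inl (.inr (mI b hj))) := hmre'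
  have hmim : (Yw b zs y j 1).im = hI zs hj := by
    show (Yw b zs y (mI b hj).1 1).im = _
    exact MR.RH_flat hR (by norm_num) (by norm_num) (by rw [hmre']; linarith only [hj, hx0, hm0, hmpos])
      (by rw [hmre']; linarith only [hj, hm1])
  have hfoc : 0 ≤ SM 0 (Yw b zs y j 0) (Yw b zs y j 1) (Yw b zs y j 2) := by
    rw [← OM_three hj]
    exact hF.flat' (by rw [hmre']; linarith only [hj, hx0, hm0, hmpos]) (by rw [hmre']; linarith only [hj, hm1])
  have hn := MM_pos_of_sinNe (reg_three hj hy hpos hmpos).1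
  rw [Complex.add_re, Complex.add_im] at hn
  have hwre := A3.re (b := b) (zs := zs) (y := y)
  have H3 : In3 (clsW b k) (Yw b zs y j 0) (Yw b zs y j 1) (Yw b zs y j 2) T := by
    refine ⟨hT0, hT1, ?_, ?_, ?_, ?_, ?_, ?_, ?_, ?_, w0, w1, hn, hfoc⟩
    · rw [hmre, hure]; linarith only [hj, hm0]
    · rw [hmre]; exact hm1
    · rw [hmim]; exact m0
    · rw [hmim]; exact m1
    · rw [hmim]; exact m2
    · rw [hmim]; exact m3
    · rw [hwre]; exact hw0
    · rw [hwre]; exact hw1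
  refine ⟨fun h6 => ?_, fun h6 h5 => ?_, fun h5 h6 => ?_, fun h6 => ?_⟩
  · rw [hs1 (by linarith only [hxM, h6])]
    by_cases h8 : clsW b k = .one ∧ y (.inl (.inl h3)) < 131 / 1000
    · have h7 : 47 / 100 ≤ x := by
        rcases hxK with h7 | h7
        · exact absurd h8.1 h7.2
        · exact h7.2.resolve_left (not_le.2 h8.2)
      have := three_S H3 h8.1 (by rw [hure]; exact h7) (by rw [hure]; exact h6)
        (hu1 (by linarith only [hxM, h6]))
      rw [hure] at this
      exact Or.inr ⟨h7, this⟩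
    · have h7 : 46 / 100 ≤ (Yw b zs y j 0).re ∧ clsW b k ≠ .one ∨
          clsW b k = .one ∧ 131 / 1000 ≤ (Yw b zs y j 2).re := by
        rw [hure, hwre]
        rcases hxK with h7 | h7
        · exact Or.inl h7
        · exact Or.inr ⟨h7.1, not_lt.1 fun q => h8 ⟨h7.1, q⟩⟩
      have := three_A H3 (by rw [hure]; exact hx0) (by rw [hure]; exact h6) h7 (hu1 (by linarith only [hxM, h6]))
      rw [hure] at this
      exact Or.inl this
  · rw [hs1 h5]
    have := three_B H3 (by rw [hure]; exact h6) (by rw [hure]; exact h5) (hu1 h5)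
    rwa [hure] at this
  · rw [hs2 h5]
    have := three_C H3 (by rw [hure]; exact h5.le) (by rw [hure]; exact h6)
      (by rw [hure]; exact hu2 h5) rfl
    rwa [hure] at this
  · rw [hs2 (by linarith only [hj, hm1, hmpos, h6])]
    have := three_D H3 (by rw [hure]; exact h6) (by rw [hure]; exact hxM)
      (by rw [hure]; exact hd) (by rw [hure]; exact hu2 (by linarith only [hj, hm1, hmpos, h6])) rfl
    rwa [hure] at this

/-- **Right side of the hinge `1 | 3` (slot `0`)**, from the side of the digit `3`.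
`k`-floors `K13`. -/
theorem core0 (hb : ClassW b) (hL : Loc b zs) (hX : LocX b zs) (hy : Mx b zs y)
    (hpos : ∀ h : Fin M, 0 < y (.inl (.inl h)))
    (A : Adj h i 2 j) (A' : Adj h' i 0 j')
    (hi : clsW b i = .one) (hj : clsW b j = .three)
    (hx0 : 45 / 100 ≤ y (.inl (.inl h)))
    (hS : y (.inl (.inl h)) + y (.inl (.inl h')) ≤ 95 / 100)
    (h2e : clsW b j' = .twoE → y (.inl (.inl h')) ≤ 35 / 100)
    (hend : clsW b j' = .twoE → y (.inl (.inl h)) ≤ 635 / 1000)
    (hk : K13 (clsW b j') (y (.inl (.inl h))) (y (.inl (.inl h'))))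
    (h3 : B3 (y (.inl (.inl h))) (ofs (b i) (zs (.inl (.inl h))).im)
      (Sw b zs y j 0 (slL b zs y h))) : False := by
  have hop := A.opp hb (Or.inl (by rw [hi]; decide))
  have hP := cls13 hb A A' hi hj
  have G := geo13 hb hL hy A hi hj (by linarith only [hx0])
  have hre := G.re
  have hxM := G.xM
  -- the windows of the digit 1
  have A2 : Adj h' i (2 : Fin 3).rev j' := A'
  have A1 : Adj h i (0 : Fin 3).rev j := A
  obtain ⟨a0, a1, a2, a3⟩ := hX.win A A2 hi
  obtain ⟨b0, b1, -, -⟩ := hX.win A' A1 hi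
  rw [hj] at a0 a1 a2 a3 b0 b1
  have hk0 : 1558 / 10000 ≤ y (.inl (.inl h')) := by
    rcases hP with hP | hP | hP <;> rw [hP] at hk <;> simp only [K13] at hk <;>
      linarith only [hk, hk.2.2.2]
  have hk0' : clsW b j' = .two → 16 / 100 ≤ y (.inl (.inl h')) := by
    intro hP'
    rw [hP'] at hk
    simp only [K13] at hk
    linarith only [hk, hk.2.2.2]
  have hkim := flatP A' hy hi hP hk0 hk0' (by linarith only [hx0, hS]) h2e
  have hkre := A'.re (b := b) (zs := zs) (y := y)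
  set x := y (.inl (.inl h)) with hx
  set T := ofs (b i) (zs (.inl (.inl h))).im with hT
  have H1 : In1 (clsW b j') x T (Yw b zs y i 0).re (Yw b zs y i 0).im := by
    refine ⟨hP, hx0, hxM, by rw [hkre]; exact hS, fun hc => ⟨by rw [hkre]; exact h2e hc, hend hc⟩,
      a0, a1, ?_, ?_, ?_, ?_, by rw [hkre]; exact hk⟩
    · rw [hkim]; exact b0
    · rw [hkim]; exact b1
    · rw [hkim]; exact a2
    · rw [hkim]; exact a3
  -- the step
  have hstr : (Yw b zs y i 2) ∈ strip ∧ (Yw b zs y i 2) + (Yw b zs y i 0) ∈ strip := by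
    refine ⟨⟨by rw [hre]; linarith only [hx0], by rw [hre]; linarith only [hk0, hS]⟩, ⟨?_, ?_⟩⟩
    · rw [Complex.add_re, hre, hkre]; linarith only [hk0, hx0]
    · rw [Complex.add_re, hre, hkre]; linarith only [hS]
  have fin : ∀ f : ℝ, Sw b zs y i 2 (slL b zs y h) < f → Sw b zs y j 0 (slL b zs y h) < -f →
      False := by
    intro f d1 d2
    exact rstep_false hb hy (hpos h) (RStep.of_adj A (c := 0) (fun h => absurd h (by omega))
      (e1 := Sw b zs y i 2 (slL b zs y h)) (e2 := Sw b zs y j 0 (slL b zs y h))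
      (by linarith only [d1, d2]) (by linarith only []) (by
        show Sw b zs y j 0 (slL b zs y h) + 0 * ofs (b j) (slL b zs y h) ≤ _
        linarith only []))
  rcases le_or_gt x (1 / 2) with h5 | h5
  · -- flat part
    obtain ⟨him, hsl⟩ := G.fl h5
    have e1 : Sw b zs y i 2 (slL b zs y h) =
        MR.s1 0 x T (Yw b zs y i 0).re (Yw b zs y i 0).im := by
      rw [A.side_one hb hi, hsl, ofs_zero', show (2 : Fin 3).rev = 0 from rfl,
        MR.S1_eq _ hstr.1 hstr.2, him, hre]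
    rcases lt_or_ge x (475 / 1000) with h6 | h6
    · rcases h3.A h6.le with h7 | ⟨h7, h8⟩
      · exact fin (fA x T) (by rw [e1]; exact one_A H1 h6.le) h7
      · exact fin (fB x T) (by rw [e1]; exact one_S H1 h7 h6.le) h8
    · exact fin (fB x T) (by rw [e1]; exact one_B H1 h6 h5) (h3.B h6 h5)
  · -- ramp
    obtain ⟨him, hm⟩ := G.rp h5
    have e1 : Sw b zs y i 2 (slL b zs y h) =
        MR.s1 (-(20 / 3 * T)) x (T * (20 / 3 * (65 / 100 - x))) (Yw b zs y i 0).re
          (Yw b zs y i 0).im := by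
      rw [A.side_one hb hi, hm, show (2 : Fin 3).rev = 0 from rfl,
        MR.S1_eq _ hstr.1 hstr.2, him, hre]
    rcases le_total x (55 / 100) with h6 | h6
    · exact fin (fC x T) (by rw [e1]; exact one_C H1 h5.le h6 rfl rfl) (h3.C h5 h6)
    · exact fin (fD x T) (by rw [e1]; exact one_D H1 h6 rfl rfl) (h3.D h6)

/-- **Right side of the hinge `1 | 3` (slot `0`)**, inner variable on its flat part.
`k`-floors `K13`. -/
theorem core (hb : ClassW b) (hL : Loc b zs) (hX : LocX b zs) (hy : Mx b zs y)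
    (hpos : ∀ h : Fin M, 0 < y (.inl (.inl h)))
    (A : Adj h i 2 j) (A' : Adj h' i 0 j') (A3 : Adj h3 j 2 k)
    (hi : clsW b i = .one) (hj : clsW b j = .three)
    (hx0 : 45 / 100 ≤ y (.inl (.inl h)))
    (hxK : 46 / 100 ≤ y (.inl (.inl h)) ∧ clsW b k ≠ .one ∨
      clsW b k = .one ∧ (131 / 1000 ≤ y (.inl (.inl h3)) ∨ 47 / 100 ≤ y (.inl (.inl h))))
    (hS : y (.inl (.inl h)) + y (.inl (.inl h')) ≤ 95 / 100)
    (h2e : clsW b j' = .twoE → y (.inl (.inl h')) ≤ 35 / 100)
    (hend : clsW b j' = .twoE → y (.inl (.inl h)) ≤ 635 / 1000)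
    (hw0 : 11 / 100 ≤ y (.inl (.inl h3))) (hw1 : y (.inl (.inl h3)) ≤ 39 / 100)
    (hw2 : clsW b k ≠ .one → y (.inl (.inl h3)) ≤ 31 / 100)
    (hm0 : y (.inl (.inl h)) + 4 / 100 ≤ y (.inl (.inr (mI b hj))))
    (hm1 : y (.inl (.inr (mI b hj))) ≤ 75 / 100)
    (hk : K13 (clsW b j') (y (.inl (.inl h))) (y (.inl (.inl h')))) : False :=
  core0 hb hL hX hy hpos A A' hi hj hx0 hS h2e hend hk
    (side3 hb hL hX hy hpos A A3 hi hj hx0 hxK (T94 hb hX A A' hi hj hend) hw0 hw1 hw2 hm0 hm1)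

end HX

end Pool.Agent.Work.MP_b30479_gt.G2
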