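import Pool.Agent.Work.MP_b30479_gt.G2.WMid
import Pool.Agent.Work.MP_b30479_gt.G2.MRBase
import Pool.Agent.Work.NumU.Node

/-!
# The inner variable of an inner digit `3` on its right ramp: first order rows

The side `SM` along the slope `-20 t` is a sum of a part with `u`, a part with `w` and a part with
`v` only; each part has a constant bound.
-/

namespace Pool.Agent.Work.MP_b30479_gt.G2

open VOL NumU

namespace VN

/-! ### the parts -/

/-- the part with the hinge `u` -/
noncomputable def GA (m : ℝ) (u v : ℂ) : ℝ :=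
  -(Real.pi * u.im) - LL (v - u) + m * (-(Real.pi * u.re) - YY (v - u))

/-- the part with the hinge `w` -/
noncomputable def GB (m : ℝ) (v w : ℂ) : ℝ :=
  Real.pi * w.im + LL (v + w) + m * (Real.pi * w.re + YY (v + w))

/-- the remaining part -/
noncomputable def GC (m : ℝ) (v : ℂ) : ℝ :=
  -(Real.pi * v.im) - LL v + m * (Real.pi * (1 / 2 - v.re) - YY v)

theorem SM_split (m : ℝ) (u v w : ℂ) : SM m u v w = GA m u v + GB m v w + GC m v := by
  unfold SM GA GB GC
  ring

theorem GA_eq {m : ℝ} {u v : ℂ} (h0 : 0 < v.re - u.re) (h1 : v.re - u.re < 1) :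
    GA m u v = -(Real.pi * u.im) - NumI.lnA (v.re - u.re) (v.im - u.im) +
      m * (-(Real.pi * u.re) + NumI.lnB (v.re - u.re) (v.im - u.im)) := by
  have h : v - u ∈ strip := ⟨by rw [Complex.sub_re]; exact h0, by rw [Complex.sub_re]; exact h1⟩
  unfold GA
  rw [Num.LL_lnA h, Num.YY_lnB h, Complex.sub_re, Complex.sub_im]
  ring

theorem GB_eq {m : ℝ} {v w : ℂ} (h0 : 0 < v.re + w.re) (h1 : v.re + w.re < 1) :
    GB m v w = Real.pi * w.im + NumI.lnA (v.re + w.re) (v.im + w.im) +
      m * (Real.pi * w.re - NumI.lnB (v.re + w.re) (v.im + w.im)) := by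
  have h : v + w ∈ strip := ⟨by rw [Complex.add_re]; exact h0, by rw [Complex.add_re]; exact h1⟩
  unfold GB
  rw [Num.LL_lnA h, Num.YY_lnB h, Complex.add_re, Complex.add_im]
  ring

theorem LL_add_one (z : ℂ) : LL (z + 1) = LL z := by
  rw [LL_eq', LL_eq']
  simp only [Complex.add_re, Complex.add_im, Complex.one_re, Complex.one_im, add_zero]
  rw [show 2 * Real.pi * (z.re + 1) = 2 * Real.pi * z.re + 2 * Real.pi by ring,
    Real.cos_add_two_pi]

theorem GB_eq' {m : ℝ} {v w : ℂ} (h0 : 1 < v.re + w.re) (h1 : v.re + w.re < 2)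
    (hi : v.im + w.im < 0) :
    GB m v w = Real.pi * w.im + NumI.lnA (v.re + w.re - 1) (v.im + w.im) +
      m * (Real.pi * w.re - Real.pi - NumI.lnB (v.re + w.re - 1) (v.im + w.im)) := by
  have h : v + w - 1 ∈ strip := by
    constructor <;> simp only [Complex.sub_re, Complex.add_re, Complex.one_re] <;> linarith only [h0, h1]
  have e1 := LL_add_one (v + w - 1)
  have e2 := YY_add_one (v + w - 1)
  rw [sub_add_cancel] at e1 e2
  have hi' : (v + w - 1).im < 0 := by
    simp only [Complex.sub_im, Complex.add_im, Complex.one_im]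
    linarith only [hi]
  rw [if_neg (not_lt.2 hi'.le), if_pos hi'] at e2
  unfold GB
  rw [e1, e2, Num.LL_lnA h, Num.YY_lnB h]
  simp only [Complex.sub_re, Complex.add_re, Complex.one_re, Complex.sub_im, Complex.add_im,
    Complex.one_im, sub_zero]
  ring

/-- near the right end of the strip -/
theorem GB_le {m p : ℝ} {v w : ℂ} (hm : 0 ≤ m) (hp : 1 / 2 ≤ p) (hp' : p < 1)
    (h0 : p ≤ v.re + w.re) (h1 : v.re + w.re ≤ 2 - p) (hi : v.im + w.im < 0) :
    GB m v w ≤ Real.pi * w.im + NumI.lnA p (v.im + w.im) +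
      m * (Real.pi * w.re - NumI.lnB p (v.im + w.im)) := by
  have hpi := Real.pi_pos
  have h : (⟨p, v.im + w.im⟩ : ℂ) ∈ strip := ⟨by simp only; linarith only [hp, hp'], hp'⟩
  have e1 : LL ⟨p, v.im + w.im⟩ = NumI.lnA p (v.im + w.im) := Num.LL_lnA h
  have e2 : YY ⟨p, v.im + w.im⟩ = -NumI.lnB p (v.im + w.im) := Num.YY_lnB h
  have a1 : LL (v + w) ≤ LL ⟨p, v.im + w.im⟩ := by
    have hc : Real.cos (2 * Real.pi * p) ≤ Real.cos (2 * Real.pi * (v.re + w.re)) := by
      have e3 : Real.cos (2 * Real.pi * (v.re + w.re)) =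
          Real.cos |2 * Real.pi * (v.re + w.re - 1)| := by
        rw [Real.cos_abs, show 2 * Real.pi * (v.re + w.re - 1) =
          2 * Real.pi * (v.re + w.re) - 2 * Real.pi by ring, Real.cos_sub_two_pi]
      have e4 : Real.cos (2 * Real.pi * p) = Real.cos (2 * Real.pi * (1 - p)) := by
        rw [show 2 * Real.pi * (1 - p) = 2 * Real.pi - 2 * Real.pi * p by ring,
          Real.cos_two_pi_sub]
      rw [e3, e4]
      apply Real.cos_le_cos_of_nonneg_of_le_pi (abs_nonneg _)
      · nlinarith only [hp, hpi]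
      · rw [abs_mul, abs_of_pos (by positivity : 0 < 2 * Real.pi)]
        apply mul_le_mul_of_nonneg_left _ (by positivity)
        rw [abs_le]
        constructor <;> linarith only [h0, h1]
    have h3 : 0 < 2 * Real.cosh (2 * Real.pi * (v.im + w.im)) -
        2 * Real.cos (2 * Real.pi * (v.re + w.re)) := by
      have := Real.one_lt_cosh.2 (by
        apply mul_ne_zero (by positivity) hi.ne : 2 * Real.pi * (v.im + w.im) ≠ 0)
      have := Real.cos_le_one (2 * Real.pi * (v.re + w.re))
      linarith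
    rw [LL_eq', LL_eq']
    simp only [Complex.add_re, Complex.add_im]
    apply div_le_div_of_nonneg_right _ (by norm_num)
    apply Real.log_le_log h3
    linarith only [hc]
  have a2 : YY (v + w) ≤ YY ⟨p, v.im + w.im⟩ := by
    rw [YY_neg (by rw [Complex.add_im]; exact hi), YY_neg (by exact hi)]
    simp only [Complex.add_im, Complex.add_re]
    have := Tr_mono (s := -(v.im + w.im)) (by linarith only [hi]) h0
    linarith only [this]
  rw [e1] at a1
  rw [e2] at a2
  have a3 := mul_le_mul_of_nonneg_left a2 hm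
  unfold GB
  linarith only [a1, a3]

end VN

end Pool.Agent.Work.MP_b30479_gt.G2
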