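import Pool.Agent.Work.MP_b30479_gt.G2.V3RXA
import Pool.Agent.Work.MP_b30479_gt.G2.V3MidRF

/-!
# The inner variable of an inner digit `3` next to a digit `1`, right ramp: certificates, sides
-/

set_option linter.unusedSimpArgs false

namespace Pool.Agent.Work.MP_b30479_gt.G2

open VOL NumU

namespace VN

variable {u v w : ℂ} {T S t r p y : ℝ}

theorem GAC_eq (h1 : v.re = r) (h2 : v.im = 20 * t * (8 / 10 - r)) (h0 : 0 < v.re - u.re)
    (h0' : v.re - u.re < 1) (hv0 : 0 < v.re) (hv : v.re < 1) :
    GA (-(20 * t)) u v + GC (-(20 * t)) v = (-(Real.pi * u.im) -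
      NumI.lnA (r - u.re) (20 * t * (8 / 10 - r) - u.im) +
      -(20 * t) * (-(Real.pi * u.re) +
        NumI.lnB (r - u.re) (20 * t * (8 / 10 - r) - u.im))) +
      (-(Real.pi * (20 * t * (8 / 10 - r))) -
      NumI.lnA r (20 * t * (8 / 10 - r)) +
      -(20 * t) * (Real.pi * (1 / 2 - r) + NumI.lnB r (20 * t * (8 / 10 - r)))) := by
  have hs : v ∈ strip := ⟨hv0, hv⟩
  rw [GA_eq h0 h0']
  unfold GC
  rw [Num.LL_lnA hs, Num.YY_lnB hs, h1, h2]
  ring

theorem xG (h1 : v.re = r) (h2 : v.im = 20 * t * (8 / 10 - r)) (hx : 42 / 100 ≤ u.re)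
    (hx' : u.re ≤ 1 / 2) (hu : u.im = -T) (hT : 21 / 1000 ≤ T) (hT' : T ≤ 1145 / 10000)
    (ht : -90 / 1000 ≤ t) (ht' : t ≤ 5 / 1000) (hs : -45 / 1000 ≤ t + T) (hs' : t + T ≤ 84 / 1000)
    (hr : 75 / 100 ≤ r) (hr' : r ≤ 80 / 100) :
    GA (-(20 * t)) u v + GC (-(20 * t)) v < -(vh t) := by
  have h : chk [rAC (E.var 0) (E.neg (E.var 1)) (E.var 2) (E.var 3),
      E.sub (E.add (E.var 2) (E.var 1)) (E.q 840 10000),
      E.sub (E.q (-450) 10000) (E.add (E.var 2) (E.var 1))] 30
      [NumI.V.of 10000 4200 5000, NumI.V.of 10000 210 1145,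
        NumI.V.of 10000 (-900) 50, NumI.V.of 10000 0 500] = true := by decide +kernel
  obtain ⟨e, he, hp⟩ := chk4 h (by norm_num) (x := u.re) (y := T) (z := t) (w := 8 / 10 - r)
    (by push_cast; linarith only [hx]) (by push_cast; linarith only [hx']) (by push_cast; linarith only [hT])
    (by push_cast; linarith only [hT']) (by push_cast; linarith only [ht]) (by push_cast; linarith only [ht'])
    (by push_cast; linarith only [hr']) (by push_cast; linarith only [hr])
  simp only [List.mem_cons, List.mem_nil_iff, or_false] at he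
  rcases he with rfl | rfl | rfl
  · rw [rAC_val (t := t) (r := r) rfl rfl] at hp
    rw [GAC_eq h1 h2 (by linarith only [h1, hx', hr]) (by linarith only [h1, hx, hr']) (by linarith only [h1, hr]) (by linarith only [h1, hr']), hu]
    simp only [E.val, NumI.lkR] at hp
    linarith only [hp]
  · simp only [E.val, NumI.lkR] at hp
    push_cast at hp
    linarith only [hs', hp]
  · simp only [E.val, NumI.lkR] at hp
    push_cast at hp
    linarith only [hs, hp]

theorem rhx_val' (x T t s : ℝ) : (rhx (E.var 0) (E.var 1)).val [x, T, t, s] =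
    -(T * (20 / 3 * (65 / 100 - x))) := by
  simp only [rhx, E.val, NumI.lkR]
  push_cast
  ring

theorem xG' (h1 : v.re = r) (h2 : v.im = 20 * t * (8 / 10 - r)) (hx : 1 / 2 ≤ u.re)
    (hx' : u.re ≤ 56 / 100) (hu : u.im = -(T * (20 / 3 * (65 / 100 - u.re))))
    (hT : 21 / 1000 ≤ T) (hT' : T ≤ 1145 / 10000)
    (ht : -90 / 1000 ≤ t) (ht' : t ≤ 5 / 1000) (hs : -45 / 1000 ≤ t + T) (hs' : t + T ≤ 84 / 1000)
    (hr : 75 / 100 ≤ r) (hr' : r ≤ 80 / 100) :
    GA (-(20 * t)) u v + GC (-(20 * t)) v < -(vh t) := by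
  have h : chk [rAC (E.var 0) (rhx (E.var 0) (E.var 1)) (E.var 2) (E.var 3),
      E.sub (E.add (E.var 2) (E.var 1)) (E.q 840 10000),
      E.sub (E.q (-450) 10000) (E.add (E.var 2) (E.var 1))] 30
      [NumI.V.of 10000 5000 5600, NumI.V.of 10000 210 1145,
        NumI.V.of 10000 (-900) 50, NumI.V.of 10000 0 500] = true := by decide +kernel
  obtain ⟨e, he, hp⟩ := chk4 h (by norm_num) (x := u.re) (y := T) (z := t) (w := 8 / 10 - r)
    (by push_cast; linarith only [hx]) (by push_cast; linarith only [hx']) (by push_cast; linarith only [hT])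
    (by push_cast; linarith only [hT']) (by push_cast; linarith only [ht]) (by push_cast; linarith only [ht'])
    (by push_cast; linarith only [hr']) (by push_cast; linarith only [hr])
  simp only [List.mem_cons, List.mem_nil_iff, or_false] at he
  rcases he with rfl | rfl | rfl
  · rw [rAC_val (t := t) (r := r) rfl rfl, rhx_val'] at hp
    rw [GAC_eq h1 h2 (by linarith only [h1, hx', hr]) (by linarith only [h1, hx, hr']) (by linarith only [h1, hr]) (by linarith only [h1, hr']), hu]
    simp only [E.val, NumI.lkR] at hp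
    linarith only [hp]
  · simp only [E.val, NumI.lkR] at hp
    push_cast at hp
    linarith only [hs', hp]
  · simp only [E.val, NumI.lkR] at hp
    push_cast at hp
    linarith only [hs, hp]

theorem xG'' (h1 : v.re = r) (h2 : v.im = 20 * t * (8 / 10 - r)) (hx : 56 / 100 ≤ u.re)
    (hx' : u.re ≤ 65 / 100) (hu : u.im = -(T * (20 / 3 * (65 / 100 - u.re))))
    (hT : 21 / 1000 ≤ T) (hT' : T ≤ 1145 / 10000)
    (ht : -90 / 1000 ≤ t) (ht' : t ≤ -18 / 1000) (hs : -45 / 1000 ≤ t + T)
    (hs' : t + T ≤ 70 / 1000) (hr : 75 / 100 ≤ r) (hr' : r ≤ 80 / 100) :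
    GA (-(20 * t)) u v + GC (-(20 * t)) v < -(vh t) := by
  have h : chk [rAC (E.var 0) (rhx (E.var 0) (E.var 1)) (E.var 2) (E.var 3),
      E.sub (E.add (E.var 2) (E.var 1)) (E.q 700 10000),
      E.sub (E.q (-450) 10000) (E.add (E.var 2) (E.var 1))] 30
      [NumI.V.of 10000 5600 6500, NumI.V.of 10000 210 1145,
        NumI.V.of 10000 (-900) (-180), NumI.V.of 10000 0 500] = true := by decide +kernel
  obtain ⟨e, he, hp⟩ := chk4 h (by norm_num) (x := u.re) (y := T) (z := t) (w := 8 / 10 - r)
    (by push_cast; linarith only [hx]) (by push_cast; linarith only [hx']) (by push_cast; linarith only [hT])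
    (by push_cast; linarith only [hT']) (by push_cast; linarith only [ht]) (by push_cast; linarith only [ht'])
    (by push_cast; linarith only [hr']) (by push_cast; linarith only [hr])
  simp only [List.mem_cons, List.mem_nil_iff, or_false] at he
  rcases he with rfl | rfl | rfl
  · rw [rAC_val (t := t) (r := r) rfl rfl, rhx_val'] at hp
    rw [GAC_eq h1 h2 (by linarith only [h1, hx', hr]) (by linarith only [h1, hx, hr']) (by linarith only [h1, hr]) (by linarith only [h1, hr']), hu]
    simp only [E.val, NumI.lkR] at hp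
    linarith only [hp]
  · simp only [E.val, NumI.lkR] at hp
    push_cast at hp
    linarith only [hs', hp]
  · simp only [E.val, NumI.lkR] at hp
    push_cast at hp
    linarith only [hs, hp]

/-! ### the part with `w` -/

theorem xH1 (hp : 86 / 100 ≤ p) (hp' : p ≤ 96 / 100) (hy : -2045 / 10000 ≤ y)
    (hy' : y ≤ 57 / 1000) (ht : -90 / 1000 ≤ t) (ht' : t ≤ 0) :
    Real.pi * (y - t) + NumI.lnA p y + -(20 * t) * (Real.pi * (p - 3 / 4) - NumI.lnB p y) <
      vh t := by
  have h : chk [rGB (E.var 0) (E.var 0) (E.var 1) (E.var 2)] 30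
      [NumI.V.of 10000 8600 9600, NumI.V.of 10000 (-2045) 570, NumI.V.of 10000 (-900) 0] =
        true := by decide +kernel
  have hp := pos_of_chk (chk3 h (by norm_num) (x := p) (y := y) (z := t)
    (by push_cast; linarith only [hp]) (by push_cast; linarith only [hp']) (by push_cast; linarith only [hy])
    (by push_cast; linarith only [hy']) (by push_cast; linarith only [ht]) (by push_cast; linarith only [ht']))
  rw [rGB_val (t := t) rfl] at hp
  simp only [E.val, NumI.lkR] at hp
  linarith only [hp]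

theorem xH2 (hy : -2045 / 10000 ≤ y) (hy' : y ≤ 0) (ht : -90 / 1000 ≤ t) (ht' : t ≤ 0) :
    Real.pi * (y - t) + NumI.lnA (95 / 100) y +
      -(20 * t) * (Real.pi * (105 / 100 - 3 / 4) - NumI.lnB (95 / 100) y) < vh t := by
  have h : chk [rGB (E.q 95 100) (E.q 105 100) (E.var 0) (E.var 1)] 30
      [NumI.V.of 10000 (-2045) 0, NumI.V.of 10000 (-900) 0] = true := by decide +kernel
  have hp := pos_of_chk (chk2 h (by norm_num) (x := y) (y := t)
    (by push_cast; linarith only [hy]) (by push_cast; linarith only [hy']) (by push_cast; linarith only [ht])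
    (by push_cast; linarith only [ht']))
  rw [rGB_val (t := t) rfl] at hp
  simp only [E.val, NumI.lkR] at hp
  push_cast at hp
  linarith only [hp]

theorem xH3 (hp : 5 / 100 ≤ p) (hp' : p ≤ 19 / 100) (hy : -2045 / 10000 ≤ y)
    (hy' : y ≤ 0) (ht : -90 / 1000 ≤ t) (ht' : t ≤ 0) :
    Real.pi * (y - t) + NumI.lnA p y + -(20 * t) * (Real.pi * (p - 3 / 4) - NumI.lnB p y) <
      vh t := by
  have h : chk [rGB (E.var 0) (E.var 0) (E.var 1) (E.var 2)] 30
      [NumI.V.of 10000 500 1900, NumI.V.of 10000 (-2045) 0, NumI.V.of 10000 (-900) 0] =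
        true := by decide +kernel
  have hp := pos_of_chk (chk3 h (by norm_num) (x := p) (y := y) (z := t)
    (by push_cast; linarith only [hp]) (by push_cast; linarith only [hp']) (by push_cast; linarith only [hy])
    (by push_cast; linarith only [hy']) (by push_cast; linarith only [ht]) (by push_cast; linarith only [ht']))
  rw [rGB_val (t := t) rfl] at hp
  simp only [E.val, NumI.lkR] at hp
  linarith only [hp]

/-- `0 < t` -/
theorem xH4 (h1 : v.re = r) (h2 : v.im = 20 * t * (8 / 10 - r)) (hw : 11 / 100 ≤ w.re)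
    (hp : v.re + w.re ≤ 96 / 100) (hS : -57 / 1000 ≤ w.im) (hS' : w.im ≤ 22 / 1000)
    (ht : 0 ≤ t) (ht' : t ≤ 5 / 1000) (hr : 75 / 100 ≤ r) (hr' : r ≤ 80 / 100) :
    GB (-(20 * t)) v w < vh t := by
  have h : chk [eGB (rh (E.var 2)) (E.add (er (E.var 3)) (E.var 0)) (E.var 0) (E.var 1)
      (E.var 2) (E.var 3) (E.q 0 1), E.sub (E.add (er (E.var 3)) (E.var 0)) (E.q 9600 10000)] 30
      [NumI.V.of 10000 1100 2100, NumI.V.of 10000 (-570) 220,
        NumI.V.of 10000 0 50, NumI.V.of 10000 0 500] = true := by decide +kernel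
  obtain ⟨e, he, hp'⟩ := chk4 h (by norm_num) (x := w.re) (y := w.im) (z := t)
    (w := 8 / 10 - r) (by push_cast; linarith only [hw]) (by push_cast; linarith only [h1, hp, hr]) (by push_cast; linarith only [hS])
    (by push_cast; linarith only [hS']) (by push_cast; linarith only [ht]) (by push_cast; linarith only [ht'])
    (by push_cast; linarith only [hr']) (by push_cast; linarith only [hr])
  simp only [List.mem_cons, List.mem_nil_iff, or_false] at he
  rcases he with rfl | rfl
  · rw [eGB_val (t := t) (r := r) rfl rfl, rh_val (t := t) rfl] at hp'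
    rw [GB_eq (by linarith only [h1, hw, hr]) (by linarith only [hp]), h1, h2]
    simp only [E.val, NumI.lkR, er_val (r := r) (rfl : (E.var 3).val
      [w.re, w.im, t, 8 / 10 - r] = 8 / 10 - r)] at hp'
    push_cast at hp'
    linarith only [hp']
  · exfalso
    simp only [E.val, NumI.lkR, er_val (r := r) (rfl : (E.var 3).val
      [w.re, w.im, t, 8 / 10 - r] = 8 / 10 - r)] at hp'
    push_cast at hp'
    linarith only [h1, hp, hp']

/-- the linear part in `8/10 - r` -/
theorem lin_s (ht : t ≤ 0) (hr : 75 / 100 ≤ r) (p : ℝ) (h1 : v.re = r)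
    (h2 : v.im = 20 * t * (8 / 10 - r)) :
    Real.pi * w.im + -(20 * t) * (Real.pi * (w.re + p)) ≤ Real.pi * (v.im + w.im - t) +
      -(20 * t) * (Real.pi * (v.re + w.re + p - 3 / 4)) := by
  have hpi := Real.pi_pos
  have e : Real.pi * (v.im + w.im - t) + -(20 * t) * (Real.pi * (v.re + w.re + p - 3 / 4)) -
      (Real.pi * w.im + -(20 * t) * (Real.pi * (w.re + p))) =
        Real.pi * ((-(40 * t)) * (r - 75 / 100)) := by
    rw [h1, h2]
    ring
  have : 0 ≤ Real.pi * ((-(40 * t)) * (r - 75 / 100)) :=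
    mul_nonneg hpi.le (mul_nonneg (by linarith only [ht]) (by linarith only [hr]))
  linarith only [e, this]

/-- `t ≤ 0` -/
theorem xH (h1 : v.re = r) (h2 : v.im = 20 * t * (8 / 10 - r)) (hw : 11 / 100 ≤ w.re)
    (hw' : w.re ≤ 39 / 100) (hS : -1145 / 10000 ≤ w.im) (hS' : w.im ≤ 57 / 1000)
    (ht : -90 / 1000 ≤ t) (ht' : t ≤ 0) (hr : 75 / 100 ≤ r) (hr' : r ≤ 80 / 100)
    (hc : v.re + w.re ≤ 96 / 100 ∨ v.im + w.im < 0) :
    GB (-(20 * t)) v w < vh t := by
  have hm : 0 ≤ -(20 * t) := by linarith only [ht']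
  have b0 : -90 / 1000 ≤ v.im := by
    rw [h2]
    nlinarith only [hr, ht, hr']
  have b1 : v.im ≤ 0 := by
    rw [h2]
    exact mul_nonpos_of_nonpos_of_nonneg (by linarith only [ht']) (by linarith only [hr'])
  have hy0 : -2045 / 10000 ≤ v.im + w.im := by linarith only [hS, b0]
  have hy1 : v.im + w.im ≤ 57 / 1000 := by linarith only [hS', b1]
  have L := fun p => lin_s (v := v) (w := w) ht' hr p h1 h2
  rcases le_or_gt (v.re + w.re) (96 / 100) with c1 | c1
  · rw [GB_eq (by linarith only [h1, hw, hr]) (by linarith only [c1])]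
    have a := xH1 (p := v.re + w.re) (y := v.im + w.im) (t := t) (by linarith only [h1, hw, hr]) c1 hy0 hy1 ht ht'
    have l := L 0
    rw [add_zero, add_zero] at l
    nlinarith only [a, l]
  · have hi := hc.resolve_left (not_le.2 c1)
    rcases le_or_gt (v.re + w.re) (105 / 100) with c2 | c2
    · have a := xH2 (y := v.im + w.im) (t := t) hy0 hi.le ht ht'
      have b := GB_le (m := -(20 * t)) (p := 95 / 100) (v := v) (w := w) hm (by norm_num)
        (by norm_num) (by linarith only [hS, b0, c1, hi]) (by linarith only [c2]) hi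
      have l := L 0
      rw [add_zero, add_zero] at l
      have k : -(20 * t) * (Real.pi * (v.re + w.re - 3 / 4)) ≤
          -(20 * t) * (Real.pi * (105 / 100 - 3 / 4)) :=
        mul_le_mul_of_nonneg_left (mul_le_mul_of_nonneg_left (by linarith only [c2]) Real.pi_pos.le) hm
      nlinarith only [a, b, l, k]
    · rw [GB_eq' (by linarith only [hS, b0, hi, c2]) (by linarith only [h1, hw', hS, hr', b0, hi]) hi]
      have a := xH3 (p := v.re + w.re - 1) (y := v.im + w.im) (t := t) (by linarith only [c2]) (by linarith only [h1, hw', hr'])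
        hy0 hi.le ht ht'
      have l := L (-1)
      have e1 : w.re + -1 = w.re - 1 := by ring
      have e2 : v.re + w.re + -1 - 3 / 4 = v.re + w.re - 1 - 3 / 4 := by ring
      rw [e1, e2] at l
      nlinarith only [a, l]

end VN

end Pool.Agent.Work.MP_b30479_gt.G2
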