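import Pool.Agent.Work.MP_b30479_gt.G2.V3RXB
import Pool.Agent.Work.MP_b30479_gt.G2.V3RXC

/-!
# The inner variable of an inner digit `3` next to a digit `1`, right ramp

`v = r + 20 t (8/10 - r) i` (`75/100 ≤ r ≤ 8/10`), hinge `u` of `1 | 3` from `42/100` on.
`mid_right_X`: `3` next to a digit that is not `1` on its other side, hinge up to `56/100`;
`mid_right_X1`: `1 | 3 | 1`.
-/

namespace Pool.Agent.Work.MP_b30479_gt.G2

open VOL NumU

namespace VN

variable {u v v' w : ℂ} {T r t : ℝ}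

/-- `1 | 3 | K`, `K ≠ 1`, hinge up to `56/100` -/
theorem mid_right_X (h1 : v.re = r) (h2 : v.im = 20 * t * (8 / 10 - r))
    (h3 : v'.re = 66 / 100) (h4 : v'.im = t) (hr : 75 / 100 ≤ r) (hr' : r ≤ 80 / 100)
    (hx : 42 / 100 ≤ u.re) (hx' : u.re ≤ 56 / 100)
    (hu : u.re ≤ 1 / 2 ∧ u.im = -T ∨
      1 / 2 ≤ u.re ∧ u.im = -(T * (20 / 3 * (65 / 100 - u.re))))
    (hT : 21 / 1000 ≤ T) (hT' : T ≤ 1145 / 10000) (hw : 11 / 100 ≤ w.re) (hw' : w.re ≤ 31 / 100)
    (hS : -98 / 1000 ≤ w.im) (hS' : w.im ≤ 57 / 1000) (ht : -82 / 1000 ≤ t) (ht' : t ≤ 5 / 1000)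
    (hs : -40 / 1000 ≤ t + T) (hs' : t + T ≤ 84 / 1000)
    (hS0 : 0 < t → -57 / 1000 ≤ w.im ∧ w.im ≤ 22 / 1000) :
    SM (-(20 * t)) u v w < 0 ∨ V3 u v w < V3 u v' w := by
  have side : (v.re + w.re ≤ 96 / 100 ∨ t ≤ 0 ∧ v.im + w.im < 0) →
      SM (-(20 * t)) u v w < 0 := by
    intro hc
    have g : GA (-(20 * t)) u v + GC (-(20 * t)) v < -(vh t) := by
      rcases hu with ⟨hu1, hu2⟩ | ⟨hu1, hu2⟩
      · exact xG h1 h2 hx hu1 hu2 hT hT' (by linarith only [ht]) ht' (by linarith only [hs]) hs' hr hr'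
      · exact xG' h1 h2 hu1 hx' hu2 hT hT' (by linarith only [ht]) ht' (by linarith only [hs]) hs' hr hr'
    have k : GB (-(20 * t)) v w < vh t := by
      rcases le_or_gt t 0 with h0 | h0
      · refine xH h1 h2 hw (by linarith only [hw']) (by linarith only [hS]) hS' (by linarith only [ht]) h0 hr hr' ?_
        rcases hc with hc | hc
        · exact Or.inl hc
        · exact Or.inr hc.2
      · obtain ⟨s1, s2⟩ := hS0 h0
        exact xH4 h1 h2 hw (hc.resolve_right fun q => absurd q.1 (not_le.2 h0)) s1 s2 h0.le ht'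
          hr hr'
    rw [SM_split]
    linarith only [g, k]
  rcases le_or_gt (v.re + w.re) (96 / 100) with c1 | c1
  · exact Or.inl (side (Or.inl c1))
  · by_cases hc : t ≤ 0 ∧ v.im + w.im < 0
    · exact Or.inl (side (Or.inr hc))
    · right
      have hi : 0 ≤ 20 * t * (8 / 10 - r) + w.im ∨ 0 < t := by
        rcases le_or_gt t 0 with h0 | h0
        · left
          rw [← h2]
          by_contra hcon
          exact hc ⟨h0, not_le.1 hcon⟩
        · exact Or.inr h0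
      have a : 0 < FA (66 / 100) r t (20 * t * (8 / 10 - r)) u.re u.im +
          FC (66 / 100) r t (20 * t * (8 / 10 - r)) + vg t (8 / 10 - r) := by
        rcases hu with ⟨hu1, hu2⟩ | ⟨hu1, hu2⟩
        · have := xA hx hu1 hT hT' ht ht' hs hs' hr hr'
          rwa [← hu2] at this
        · have := xA' hu1 hx' hT hT' ht ht' hs hs' hr hr'
          rwa [← hu2] at this
      have b := xB (w := w.re) (S := w.im) (t := t) (r := r) (by linarith only [h1, c1]) hw' ht ht' hS hS'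
        (fun q => (hS0 q).2) hi hr hr'
      have e := V3_diff (u := u) (w := w) h1 h2 h3 h4
      linarith only [a, b, e]

/-- `1 | 3 | 1` -/
theorem mid_right_X1 (h1 : v.re = r) (h2 : v.im = 20 * t * (8 / 10 - r)) (hr : 75 / 100 ≤ r)
    (hr' : r ≤ 80 / 100) (hx : 42 / 100 ≤ u.re) (hx' : u.re ≤ 65 / 100)
    (hu : u.re ≤ 1 / 2 ∧ u.im = -T ∨
      1 / 2 ≤ u.re ∧ u.im = -(T * (20 / 3 * (65 / 100 - u.re))))
    (hT : 21 / 1000 ≤ T) (hT' : T ≤ 1145 / 10000) (hw : 11 / 100 ≤ w.re) (hw' : w.re ≤ 39 / 100)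
    (hS : -1145 / 10000 ≤ w.im) (hS' : w.im < 0) (ht : -90 / 1000 ≤ t)
    (ht' : t ≤ -18 / 1000) (hs : -45 / 1000 ≤ t + T) (hs' : t + T ≤ 70 / 1000) :
    SM (-(20 * t)) u v w < 0 := by
  have hv : v.im ≤ 0 := by
    rw [h2]
    exact mul_nonpos_of_nonpos_of_nonneg (by linarith only [hS, hS', ht']) (by linarith only [hr'])
  have g : GA (-(20 * t)) u v + GC (-(20 * t)) v < -(vh t) := by
    rcases hu with ⟨hu1, hu2⟩ | ⟨hu1, hu2⟩
    · exact xG h1 h2 hx hu1 hu2 hT hT' ht (by linarith only [hS, hS', ht']) hs (by linarith only [hS, hS', hs']) hr hr'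
    · rcases le_total u.re (56 / 100) with h5 | h5
      · exact xG' h1 h2 hu1 h5 hu2 hT hT' ht (by linarith only [hS, hS', ht']) hs (by linarith only [hS, hS', hs']) hr hr'
      · exact xG'' h1 h2 h5 hx' hu2 hT hT' ht ht' hs hs' hr hr'
  have k : GB (-(20 * t)) v w < vh t :=
    xH h1 h2 hw hw' hS (by linarith only [hS, hS']) ht (by linarith only [hS, hS', ht']) hr hr' (Or.inr (by linarith only [hS', hv]))
  rw [SM_split]
  linarith only [g, k]

end VN

end Pool.Agent.Work.MP_b30479_gt.G2
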