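import Pool.Agent.Work.MP_b30479_gt.G2.H13W
import Pool.Agent.Work.MP_b30479_gt.G2.H13R
import Pool.Agent.Work.MP_b30479_gt.G2.V3RX

/-!
# Right side of the hinge `1 | 3` (slot `0`): inner variable on its right ramp
-/

namespace Pool.Agent.Work.MP_b30479_gt.G2

open Finset VOL Filter Topology

namespace HX

open SR

variable {M : ℕ} {b : Fin (M + 1) → ℤ} {zs : DD (tyW b) ⊕ ZZ (tyW b) → ℂ}
variable {y : DD (tyW b) ⊕ ZZ (tyW b) → ℝ}
variable {h h' h3 : Fin M} {i j j' k : Fin (M + 1)} {p : Fin 3}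

theorem kd_ne {K : Cl} (hK : K ≠ .one) : -82 / 1000 ≤ ((kd K).t0 : ℝ) / 10000 ∧
    ((kd K).t1 : ℝ) / 10000 ≤ 5 / 1000 ∧ -40 / 1000 ≤ ((kd K).s0 : ℝ) / 10000 ∧
    ((kd K).s1 : ℝ) / 10000 ≤ 84 / 1000 ∧ -98 / 1000 ≤ ((kd K).wl : ℝ) / 10000 ∧
    ((kd K).wh : ℝ) / 10000 ≤ 57 / 1000 ∧
    (((kd K).t1 : ℝ) / 10000 ≤ 0 ∨ -57 / 1000 ≤ ((kd K).wl : ℝ) / 10000 ∧
      ((kd K).wh : ℝ) / 10000 ≤ 22 / 1000) := by
  cases K <;> first
    | exact absurd rfl hK
    | (simp only [kd]; norm_num)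

/-- the inner variable of the digit `3` on its right ramp -/
theorem mR_data (hb : ClassW b) (hy : Mx b zs y)
    (hpos : ∀ h : Fin M, 0 < y (.inl (.inl h))) (hj : clsW b j = .three)
    (hm : 75 / 100 < y (.inl (.inr (mI b hj)))) :
    (Yw b zs y j 1).re = y (.inl (.inr (mI b hj))) ∧
    (Yw b zs y j 1).im = 20 * hI zs hj * (8 / 10 - y (.inl (.inr (mI b hj)))) ∧
    y (.inl (.inr (mI b hj))) ≤ 80 / 100 ∧
    0 ≤ SM (-(20 * hI zs hj)) (Yw b zs y j 0) (Yw b zs y j 1) (Yw b zs y j 2) := by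
  obtain ⟨p1, p2, p3⟩ := pp_mI (zs := zs) hj
  have hR := mid_RH hy (mI b hj)
  have hF := mid_fc hb hy hpos (mI b hj) (by linarith only [hj, hm])
  rw [p1, p2, p3] at hR hF
  have hmre : (Yw b zs y (mI b hj).1 1).re = y (.inl (.inr (mI b hj))) := by
    rw [Yw_mid (zs := zs) (y := y) (mI b hj), ofr_pp_re]
  have hM := hR.reM
  rw [hmre] at hM
  refine ⟨hmre, ?_, by linarith only [hj, hM], ?_⟩
  · show (Yw b zs y (mI b hj).1 1).im = _
    rw [MR.RH_right hR (by norm_num) (by norm_num) (by norm_num) (by rw [hmre]; linarith only [hj, hm]), hmre]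
    unfold hI
    show ofs (b j) _ * _ = _
    ring
  · rw [← OM_three hj]
    have h1 := hF.right' (by rw [hmre]; linarith only [hj, hm])
    have e : -(20 * hI zs hj) = -(ofs (b (mI b hj).1) (zs (.inl (.inr (mI b hj)))).im /
        (5 / 100)) := by
      show -(20 * hI zs hj) = -(hI zs hj / (5 / 100))
      ring
    rw [e]
    exact h1

/-- **The inner variable is not on its right ramp.** -/
theorem mid_le (hb : ClassW b) (hL : Loc b zs) (hX : LocX b zs) (hy : Mx b zs y)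
    (hpos : ∀ h : Fin M, 0 < y (.inl (.inl h)))
    (A : Adj h i 2 j) (A3 : Adj h3 j 2 k) (hi : clsW b i = .one) (hj : clsW b j = .three)
    (hx0 : 42 / 100 ≤ y (.inl (.inl h))) (hxK : clsW b k ≠ .one → y (.inl (.inl h)) ≤ 56 / 100)
    (hw0 : 11 / 100 ≤ y (.inl (.inl h3))) (hw1 : y (.inl (.inl h3)) ≤ 39 / 100)
    (hw2 : clsW b k ≠ .one → y (.inl (.inl h3)) ≤ 31 / 100) :
    y (.inl (.inr (mI b hj))) ≤ 75 / 100 := by
  by_contra hcon
  have hcon := not_le.1 hcon
  have hop := A.opp hb (Or.inl (by rw [hi]; decide))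
  have G := geo13 hb hL hy A hi hj (by linarith only [hx0])
  obtain ⟨hure, hu1, hu2⟩ := u13 hb A hi G
  have hxM := G.xM
  have hT0 := G.T0
  have hT1 := G.T1
  have B : Adj h j 0 i := A.symm
  have hTj : ofs (b j) (zs (.inl (.inl h))).im = -ofs (b i) (zs (.inl (.inl h))).im :=
    ofs_opp hop _
  obtain ⟨m0, m1, m2, m3⟩ := m_im hb hX B A3 hi hj
  rw [hTj, sub_neg_eq_add] at m2 m3
  obtain ⟨w0, w1⟩ := w_im A3 hb hL hy hj hw0 hw1 hw2
  obtain ⟨hmre, hmim, hmM, hfoc⟩ := mR_data hb hy hpos hj hcon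
  have hwre := A3.re (b := b) (zs := zs) (y := y)
  set x := y (.inl (.inl h)) with hx
  set T := ofs (b i) (zs (.inl (.inl h))).im with hT
  have hu : (Yw b zs y j 0).re ≤ 1 / 2 ∧ (Yw b zs y j 0).im = -T ∨
      1 / 2 ≤ (Yw b zs y j 0).re ∧
        (Yw b zs y j 0).im = -(T * (20 / 3 * (65 / 100 - (Yw b zs y j 0).re))) := by
    rcases le_or_gt x (1 / 2) with h5 | h5
    · exact Or.inl ⟨by rw [hure]; exact h5, hu1 h5⟩
    · exact Or.inr ⟨by rw [hure]; exact h5.le, by rw [hure]; exact hu2 h5⟩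
  by_cases hk1 : clsW b k = .one
  · rw [hk1] at m0 m1 m2 m3 w0 w1
    simp only [kd] at m0 m1 m2 m3 w0 w1
    push_cast at m0 m1 m2 m3 w0 w1
    have := VN.mid_right_X1 (T := T) (r := y (.inl (.inr (mI b hj)))) (t := hI zs hj) hmre hmim
      hcon.le hmM (by rw [hure]; exact hx0) (by rw [hure]; exact hxM) hu hT0 hT1
      (by rw [hwre]; exact hw0) (by rw [hwre]; exact hw1) (by linarith only [w0]) (by linarith)
      (by linarith only [hj, m0]) (by linarith only [hj, m1]) (by linarith only [hj, m2]) (by linarith only [hj, m3])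
    linarith only [hj, hfoc, this]
  · obtain ⟨k0, k1, k2, k3, k4, k5, k6⟩ := kd_ne hk1
    have hS0 : 0 < hI zs hj → -57 / 1000 ≤ (Yw b zs y j 2).im ∧
        (Yw b zs y j 2).im ≤ 22 / 1000 := by
      intro h0
      rcases k6 with k6 | ⟨k6, k7⟩
      · linarith only [hj, m1, h0, k6]
      · exact ⟨by linarith only [w0, k6], by linarith only [w1, k7]⟩
    rcases VN.mid_right_X (v' := lv (66 / 100) (hI zs hj)) (T := T)
      (r := y (.inl (.inr (mI b hj)))) (t := hI zs hj) hmre hmim (lv_re _ _) (lv_im _ _)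
      hcon.le hmM (by rw [hure]; exact hx0) (by rw [hure]; exact hxK hk1) hu hT0 hT1
      (by rw [hwre]; exact hw0) (by rw [hwre]; exact hw2 hk1) (by linarith only [w0, k4]) (by linarith only [w1, k5])
      (by linarith only [hj, m0, k0]) (by linarith only [hj, m1, k1]) (by linarith only [hj, m2, k2]) (by linarith only [hj, m3, k3]) hS0 with h6 | h6
    · linarith only [hj, hfoc, h6]
    · -- the value
      obtain ⟨p1, p2, p3⟩ := pp_mI (zs := zs) hj
      have ht := tyW_of_three hj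
      have hne : tyW b j ≠ .ring := by rw [ht]; decide
      have h2 := hy.upd (.inl (.inr (mI b hj))) (c := 66 / 100) (by show (0 : ℝ) ≤ 66 / 100; norm_num)
        (by show (66 / 100 : ℝ) ≤ (wpar b zs).XM (.inr (mI b hj)); rw [p1]; norm_num)
      have h7 : (wdat (tyW b) b).V (Function.update ((wpar b zs).pth zs y)
          (.inl (.inr (mI b hj))) ((wpar b zs).pp zs (.inl (.inr (mI b hj))) (66 / 100))) -
          (wdat (tyW b) b).V ((wpar b zs).pth zs y) =
          rV (tyW b) b j (Function.update (xx (tyW b) j ((wpar b zs).pth zs y)) 1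
            ((wpar b zs).pp zs (.inl (.inr (mI b hj))) (66 / 100))) -
          rV (tyW b) b j (xx (tyW b) j ((wpar b zs).pth zs y)) :=
        V_upd_mid (tyW b) b (mI b hj) ((wpar b zs).pth zs y)
          ((wpar b zs).pp zs (.inl (.inr (mI b hj))) (66 / 100))
      rw [rV_own hb, rV_own hb, own_update_one hne] at h7
      have e5 : ofr (b j) ((wpar b zs).pp zs (.inl (.inr (mI b hj))) (66 / 100)) =
          lv (66 / 100) (hI zs hj) :=
        ofr_pp_flat (wpar_good b zs) zs (.inr (mI b hj)) (b j) (by rw [p2]; norm_num)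
          (by rw [p1, p3]; norm_num)
      have e6 : own (b j) (tyW b j) (xx (tyW b) j ((wpar b zs).pth zs y)) = OY b zs y j := rfl
      rw [e6, e5] at h7
      have h4 : OV b j (Function.update (OY b zs y j) 1 (lv (66 / 100) (hI zs hj))) -
          OV b j (OY b zs y j) ≤ 0 := by linarith only [hj, h2, h7]
      rw [OV_three hb hj, OV_three hb hj, Function.update_self,
        Function.update_of_ne (by decide), Function.update_of_ne (by decide), OY_zero,
        OY_one hne, OY_two] at h4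
      linarith only [hj, h6, h4]

/-- the side of the digit `3`, inner variable on its right ramp -/
theorem side3R (hb : ClassW b) (hL : Loc b zs) (hX : LocX b zs) (hy : Mx b zs y)
    (hpos : ∀ h : Fin M, 0 < y (.inl (.inl h)))
    (A : Adj h i 2 j) (A3 : Adj h3 j 2 k)
    (hi : clsW b i = .one) (hj : clsW b j = .three) (hk : clsW b k ≠ .one)
    (hx0 : 55 / 100 < y (.inl (.inl h)))
    (hd : y (.inl (.inl h)) ≤ 635 / 1000 ∨ ofs (b i) (zs (.inl (.inl h))).im ≤ 94 / 1000)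
    (hm : 75 / 100 < y (.inl (.inr (mI b hj)))) :
    B3 (y (.inl (.inl h))) (ofs (b i) (zs (.inl (.inl h))).im) (Sw b zs y j 0 (slL b zs y h)) := by
  have hop := A.opp hb (Or.inl (by rw [hi]; decide))
  have G := geo13 hb hL hy A hi hj (by linarith only [hx0])
  obtain ⟨hure, hu1, hu2⟩ := u13 hb A hi G
  obtain ⟨hs1, hs2⟩ := sd13 hb A hi hj G
  have hxM := G.xM
  have hT0 := G.T0
  have hT1 := G.T1
  have B : Adj h j 0 i := A.symm
  have hTj : ofs (b j) (zs (.inl (.inl h))).im = -ofs (b i) (zs (.inl (.inl h))).im :=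
    ofs_opp hop _
  obtain ⟨m0, m1, m2, m3⟩ := m_im hb hX B A3 hi hj
  rw [hTj, sub_neg_eq_add] at m2 m3
  obtain ⟨k0, k1, k2, k3, -, -, -⟩ := kd_ne hk
  obtain ⟨hmre, hmim, hmM, -⟩ := mR_data hb hy hpos hj hm
  refine ⟨fun h6 => by linarith only [hj, hx0, hm, hmM, h6], fun h6 h5 => by linarith only [hj, hx0, hm, hmM, h5], fun h5 h6 => by linarith only [hx0, h6],
    fun h6 => ?_⟩
  rw [hs2 (by linarith only [hj, hx0, hm, hmM])]
  have := three_R (u := Yw b zs y j 0) (v := Yw b zs y j 1)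
    (T := ofs (b i) (zs (.inl (.inl h))).im) (t := hI zs hj) hmre hmim hm.le hmM
    (by rw [hure]; exact h6) (by rw [hure]; exact hxM) (by rw [hure]; exact hd) hT0 hT1
    (by linarith only [hj, m0, k0]) (by linarith only [hj, m1, k1]) (by linarith only [hj, m2, k2]) (by linarith only [hj, m3, k3])
    (by rw [hure]; exact hu2 (by linarith only [hj, hx0, hm, hmM])) rfl
  rwa [hure] at this

/-- **Right side of the hinge `1 | 3` (slot `0`).**  `k`-floors `K13`. -/
theorem coreX (hb : ClassW b) (hL : Loc b zs) (hX : LocX b zs) (hy : Mx b zs y)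
    (hpos : ∀ h : Fin M, 0 < y (.inl (.inl h)))
    (A : Adj h i 2 j) (A' : Adj h' i 0 j') (A3 : Adj h3 j 2 k)
    (hi : clsW b i = .one) (hj : clsW b j = .three)
    (hx0 : 45 / 100 ≤ y (.inl (.inl h)))
    (hxK : 46 / 100 ≤ y (.inl (.inl h)) ∧ clsW b k ≠ .one ∨
      clsW b k = .one ∧ (131 / 1000 ≤ y (.inl (.inl h3)) ∨ 47 / 100 ≤ y (.inl (.inl h))))
    (hS : y (.inl (.inl h)) + y (.inl (.inl h')) ≤ 95 / 100)
    (h2e : clsW b j' = .twoE → y (.inl (.inl h')) ≤ 35 / 100)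
    (hend : clsW b j' = .twoE → y (.inl (.inl h)) ≤ 635 / 1000)
    (hw0 : 11 / 100 ≤ y (.inl (.inl h3))) (hw1 : y (.inl (.inl h3)) ≤ 39 / 100)
    (hw2 : clsW b k ≠ .one → y (.inl (.inl h3)) ≤ 31 / 100)
    (hm0 : y (.inl (.inl h)) + 4 / 100 ≤ y (.inl (.inr (mI b hj))))
    (hk : K13 (clsW b j') (y (.inl (.inl h))) (y (.inl (.inl h')))) : False := by
  have hd := T94 hb hX A A' hi hj hend
  refine core0 hb hL hX hy hpos A A' hi hj hx0 hS h2e hend hk ?_
  rcases le_or_gt (y (.inl (.inr (mI b hj)))) (75 / 100) with hm | hm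
  · exact side3 hb hL hX hy hpos A A3 hi hj hx0 hxK hd hw0 hw1 hw2 hm0 hm
  · by_cases hk1 : clsW b k ≠ .one ∧ 56 / 100 < y (.inl (.inl h))
    · exact side3R hb hL hX hy hpos A A3 hi hj hk1.1 (by linarith only [hk1, hk1.2]) hd hm
    · have := mid_le hb hL hX hy hpos A A3 hi hj (by linarith only [hx0])
        (fun h5 => not_lt.1 fun h6 => hk1 ⟨h5, h6⟩) hw0 hw1 hw2
      linarith only [hj, hm, this]

end HX

end Pool.Agent.Work.MP_b30479_gt.G2
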