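import Pool.Agent.Work.MP_b30479_gt.G2.MLS

/-!
# Conditional floors: sides of a digit `1` on the left ramp

The other hinge of the digit `1` is a hinge `1 | 3` beyond `2 / 5`.  Generated.
-/

namespace Pool.Agent.Work.MP_b30479_gt.G2

open Real Set VOL NumI NumI.E

namespace ML

theorem ro1 : runT (row 1 (cE 1 0 0) 205 0 (-80) 150 0 1)
    (.z (.y .a .a) (.y (.z (.y .a .a) (.y (.z .d (.x .d (.y .d .d))) (.z .a (.x .a (.z .a (.x .a (.x
    .a (.z .a (.y .a .a))))))))) (.z .a (.y (.x .a (.z .a (.y .a .a))) .a))))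
    (bx 125 150 (-5334) 3334 400 650) = true := by decide +kernel

theorem ro1_1 : runT (row 1 (cE 1 0 0) (-125) (-69) (-67) 150 0 1)
    (.z (.z .a .a) (.z .a (.z .b (.y (.z .d (.y .d .d)) (.z .a (.x .b (.z .b (.z .b (.x .b (.y (.y .d
    .b) (.y .a .a)))))))))))
    (bx 125 150 (-3334) 1067 125 700) = true := by decide +kernel

theorem ro1_2e : runT (row 1 (cE 1 0 0) (-55) (-60) (-18) 150 0 1)
    (.z (.z (.z (.y .a (.x .a (.z (.x .a .a) .a))) .a) .a) .a)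
    (bx 125 150 2133 3667 125 370) = true := by decide +kernel

theorem ro1_G : runT (row 1 (cE 1 0 0) 150 (-6) (-46) 150 0 1)
    (.z (.z (.y .a (.z (.y .a (.z (.y .a (.z (.x .a .a) .a)) .a)) .a)) .a) (.z .a (.z .a (.y (.z .a
    (.y .a .a)) (.y .a .a)))))
    (bx 125 150 (-2667) 2400 110 650) = true := by decide +kernel

theorem ro2 : runT (row 1 (cE 0 2100 0) 210 0 0 160 0 1)
    (.z .a (.y (.z .a (.y (.z .a (.y .a .a)) .a)) .a))
    (bx 150 160 625 4813 400 650) = true := by decide +kernel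

theorem roE : runT (row 1 (cE 0 2100 0) 155 0 (-45) 140 0 1)
    (.z .a (.z .a (.z .a (.x .a (.y .b .a)))))
    (bx 125 140 (-3215) (-1785) 400 650) = true := by decide +kernel

variable {T x y k : ℝ}

/-- own side at `1 | 1` -/
theorem cf_own1 (H : (⟨125, 150, -800, 500, 0, -80, 400, 650, 0, 1⟩ : Dat).H T x y k) (h0 : 0 < x) (h0' : 0 < y) (hs : x + y < 1) :
    ((205 : ℤ) : ℝ) / 1000 < sd 1 (cR 1 0 0 x) x (T / (((150 : ℤ) : ℝ) / 1000)) y k :=
  use_row (Or.inl rfl) ro1 _ (by decide) H h0 h0' hs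

/-- the side of the other `1`, far neighbour a `1` -/
theorem cf_oth1 (H : (⟨125, 150, -500, 160, -69, -67, 125, 700, 0, 1⟩ : Dat).H T x y k) (h0 : 0 < x) (h0' : 0 < y) (hs : x + y < 1) :
    (((-125) : ℤ) : ℝ) / 1000 < sd 1 (cR 1 0 0 x) x (T / (((150 : ℤ) : ℝ) / 1000)) y k :=
  use_row (Or.inl rfl) ro1_1 _ (by decide) H h0 h0' hs

/-- the side of the other `1`, far neighbour a `2` at an end -/
theorem cf_oth2e (H : (⟨125, 150, 320, 550, -60, -18, 125, 370, 0, 1⟩ : Dat).H T x y k) (h0 : 0 < x) (h0' : 0 < y) (hs : x + y < 1) :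
    (((-55) : ℤ) : ℝ) / 1000 < sd 1 (cR 1 0 0 x) x (T / (((150 : ℤ) : ℝ) / 1000)) y k :=
  use_row (Or.inl rfl) ro1_2e _ (by decide) H h0 h0' hs

/-- the side of the other `1`, general -/
theorem cf_othG (H : (⟨125, 150, -400, 360, -6, -46, 110, 650, 0, 1⟩ : Dat).H T x y k) (h0 : 0 < x) (h0' : 0 < y) (hs : x + y < 1) :
    ((150 : ℤ) : ℝ) / 1000 < sd 1 (cR 1 0 0 x) x (T / (((150 : ℤ) : ℝ) / 1000)) y k :=
  use_row (Or.inl rfl) ro1_G _ (by decide) H h0 h0' hs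

/-- own side at `1 | 2` -/
theorem cf_own2 (H : (⟨150, 160, 100, 770, 0, 0, 400, 650, 0, 1⟩ : Dat).H T x y k) (h0 : 0 < x) (h0' : 0 < y) (hs : x + y < 1) :
    ((210 : ℤ) : ℝ) / 1000 < sd 1 (cR 0 2100 0 x) x (T / (((160 : ℤ) : ℝ) / 1000)) y k :=
  use_row (Or.inl rfl) ro2 _ (by decide) H h0 h0' hs

/-- own side at `1 | 2`, the `2` at an end -/
theorem cf_ownE (H : (⟨125, 140, -450, -250, 0, -45, 400, 650, 0, 1⟩ : Dat).H T x y k) (h0 : 0 < x) (h0' : 0 < y) (hs : x + y < 1) :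
    ((155 : ℤ) : ℝ) / 1000 < sd 1 (cR 0 2100 0 x) x (T / (((140 : ℤ) : ℝ) / 1000)) y k :=
  use_row (Or.inl rfl) roE _ (by decide) H h0 h0' hs

end ML

end Pool.Agent.Work.MP_b30479_gt.G2
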