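import Pool.Agent.Work.MP_b30479_gt.G2.MLX

/-!
# The left rounds: steps at the hinges between the digits `1` and `2`
-/

namespace Pool.Agent.Work.MP_b30479_gt.G2

open Finset VOL Filter Topology

namespace SR

open ML

variable {M : ℕ} {b : Fin (M + 1) → ℤ} {zs : DD (tyW b) ⊕ ZZ (tyW b) → ℂ}
variable {y : DD (tyW b) ⊕ ZZ (tyW b) → ℝ}
variable {h h' h1 h2 : Fin M} {i j j' j1 j2 : Fin (M + 1)} {p : Fin 3}

/-- the order of a left round with the table `T` at the hinge `h` -/
def Ord (b : Fin (M + 1) → ℤ) (y : DD (tyW b) ⊕ ZZ (tyW b) → ℝ) (T : Tab) (v : ℝ) : Prop :=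
  ∀ {h' : Fin M} {i' j' : Fin (M + 1)} {p' : Fin 3}, Adj h' i' p' j' →
    v ≤ y (.inl (.inl h')) / T p' (clsW b i') (clsW b j')

/-- a digit `1` or `2` -/
def Cl.small (A : Cl) : Prop := A = .one ∨ A = .two ∨ A = .twoE

/-- a step between regions of opposite signs -/
theorem LStep.opp (A : Adj h i p j) (hb : ClassW b) (hn : clsW b i ≠ .ring) {m c e1 e2 : ℝ}
    (he : 0 < e1 + e2) (k1 : e1 ≤ Sw b zs y i p m + c * ofs (b i) m)
    (k2 : e2 ≤ Sw b zs y j p.rev m + c * ofs (b j) m) : LStep b zs y h m :=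
  LStep.of_adj A (fun h0 => absurd (A.opp hb (Or.inl hn)) (not_lt.2 h0.le)) he k1 k2

theorem Adj.tab_symm (A : Adj h i p j) {T : Tab} (hT : TSym T) (b : Fin (M + 1) → ℤ) :
    T p.rev (clsW b j) (clsW b i) = T p (clsW b i) (clsW b j) := by
  rw [A.tab hT b, A.symm.tab hT b]

theorem F0_two (q : Fin 3) {B : Cl} (hB : B ≠ .one) : F0 q .two B = 70 / 1000 := by
  cases B <;> first | exact absurd rfl hB | simp only [F0]

/-- **The round `L0` between the digits `1` and `2`.** -/
theorem step_L0 (hb : ClassW b) (hL : Loc b zs) (hX : LocX b zs) (hy : Mx b zs y)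
    (hpos : ∀ h : Fin M, 0 < y (.inl (.inl h))) (A : Adj h i p j)
    (hr : rkC (clsW b i) ≤ rkC (clsW b j)) (hj : (clsW b j).small)
    (hx : y (.inl (.inl h)) < F0 p (clsW b i) (clsW b j))
    (ho : Ord b y F0 (y (.inl (.inl h)) / F0 p (clsW b i) (clsW b j))) :
    LStep b zs y h ((zs (.inl (.inl h))).im / wcl b h) := by
  have hx' : y (.inl (.inl h)) < F0 p.rev (clsW b j) (clsW b i) := by
    rwa [A.tab_symm F0_sym b]
  have ho' : Ord b y F0 (y (.inl (.inl h)) / F0 p.rev (clsW b j) (clsW b i)) := by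
    rwa [A.tab_symm F0_sym b]
  have hcl : y (.inl (.inl h)) ≤ wcl b h := by
    have := F0_wcl (b := b) h
    rw [← A.tab F0_sym b] at this
    exact (hx.trans_le this).le
  rcases hi : clsW b i with _ | _ | _ | _ | _ | _
  · -- digit `1`
    obtain ⟨h1, j1, A1⟩ := A.other_one hb hi
    have s1 := A.one_L0 A1 hb hX hy hpos hi hx (ho A1)
    rcases hj with hj | hj | hj
    · obtain ⟨h2, j2, A2⟩ := A.symm.other_one hb hj
      have s2 := A.symm.one_L0 A2 hb hX hy hpos hj hx' (ho' A2)
      rw [hj] at s1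
      rw [hi] at s2
      exact LStep.opp A hb (by rw [hi]; decide) (by simp only [k7, eO]; norm_num) s1 s2
    · obtain ⟨h2, j2, A2⟩ := A.symm.other' b (clsW_inner hb (Or.inr (Or.inl hj)))
      have s2 := A.symm.two_one_L0 A2 hb hL hX hy hpos hj hi (by
        rw [hj, hi] at hx'
        simp only [F0] at hx'
        exact hx'.le)
      rw [hj] at s1
      exact LStep.opp A hb (by rw [hi]; decide) (by simp only [k7, eO]; norm_num) s1 s2
    · have s2 := A.symm.twoE_one_L hb hL hy hpos hj hi (n := 0) (e := 35 / 100) (Or.inl ⟨rfl, rfl, by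
        rw [hj, hi] at hx'
        simp only [F0] at hx'
        exact hx'.le⟩)
      rw [hj] at s1
      exact LStep.opp A hb (by rw [hi]; decide) (by simp only [k7, eO]; norm_num) s1 s2
  · -- digit `2`
    obtain ⟨h1, j1, A1⟩ := A.other' b (clsW_inner hb (Or.inr (Or.inl hi)))
    have hj1 : clsW b j ≠ .one := by
      intro h0
      rw [hi, h0] at hr
      exact absurd hr (by decide)
    have s1 := A.two_L0 A1 hb hL hy hpos hi hj1 (by
      rw [hi, F0_two _ hj1] at hx
      exact hx.le)
    rcases hj with hj | hj | hj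
    · exact absurd hj hj1
    · obtain ⟨h2, j2, A2⟩ := A.symm.other' b (clsW_inner hb (Or.inr (Or.inl hj)))
      have s2 := A.symm.two_L0 A2 hb hL hy hpos hj (by rw [hi]; decide) (by
        rw [hj, F0_two _ (by rw [hi]; decide)] at hx'
        exact hx'.le)
      exact LStep.opp A hb (by rw [hi]; decide) (by norm_num) s1 s2
    · have s2 := A.symm.twoE_L hb hL hy hpos hj (by rw [hi]; decide) hcl
      rw [hi] at s2
      exact LStep.opp A hb (by rw [hi]; decide) (by simp only [k7, eE2]; norm_num) s1 s2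
  · -- digit `2` at an end
    have hj1 : clsW b j = .twoE := by
      rcases hj with hj | hj | hj
      · rw [hi, hj] at hr; exact absurd hr (by decide)
      · rw [hi, hj] at hr; exact absurd hr (by decide)
      · exact hj
    have s1 := A.twoE_L hb hL hy hpos hi (by rw [hj1]; decide) hcl
    have s2 := A.symm.twoE_L hb hL hy hpos hj1 (by rw [hi]; decide) hcl
    rw [hj1] at s1
    rw [hi] at s2
    exact LStep.opp A hb (by rw [hi]; decide) (by simp only [k7, eE2]; norm_num) s1 s2
  all_goals
    exfalso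
    rcases hj with hj | hj | hj <;> rw [hi, hj] at hr <;> exact absurd hr (by decide)

/-- caps used in the round `L1` -/
noncomputable def C1 : Tab := fun _ A B =>
  match A, B with
  | .one, .one => 70 / 100
  | .one, .two => 56 / 100
  | .two, .one => 56 / 100
  | .one, .twoE => 37 / 100
  | .twoE, .one => 37 / 100
  | .one, .three => 65 / 100
  | .three, .one => 65 / 100
  | .one, .threeE => 60 / 100
  | .threeE, .one => 60 / 100
  | .one, .ring => 65 / 100
  | .ring, .one => 65 / 100
  | .two, _ => 56 / 100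
  | _, .two => 56 / 100
  | _, _ => 1

/-- caps used in the rounds `L2`, `L3` -/
noncomputable def C2 : Tab := fun _ A B =>
  match A, B with
  | .one, .one => 64 / 100
  | .one, .threeE => 37 / 100
  | .threeE, .one => 37 / 100
  | A, B => C1 0 A B

theorem C1_one (q : Fin 3) (K : K7) (C : Cl) : C1 q .one C ≤ (cpz 1 K C : ℝ) / 1000 := by
  cases C <;> simp only [C1, cpz] <;> norm_num

theorem C2_one (q : Fin 3) (K : K7) (C : Cl) : C2 q .one C ≤ (cpz 2 K C : ℝ) / 1000 := by
  cases C <;> simp only [C2, C1, cpz] <;> norm_num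

theorem C1_two (q : Fin 3) (C : Cl) : C1 q .two C = 56 / 100 := by
  cases C <;> simp only [C1]

theorem C2_two (q : Fin 3) (C : Cl) : C2 q .two C = 56 / 100 := by
  cases C <;> simp only [C2, C1]

/-- **The round `L1` between the digits `1` and `2`.** -/
theorem step_L1 (hb : ClassW b) (hL : Loc b zs) (hX : LocX b zs) (hy : Mx b zs y)
    (hpos : ∀ h : Fin M, 0 < y (.inl (.inl h))) (hF : Flr b y F0) (hC : Cap b y C1)
    (A : Adj h i p j)
    (hr : rkC (clsW b i) ≤ rkC (clsW b j)) (hj : (clsW b j).small)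
    (hx : y (.inl (.inl h)) < F1 p (clsW b i) (clsW b j))
    (ho : Ord b y F1 (y (.inl (.inl h)) / F1 p (clsW b i) (clsW b j))) :
    LStep b zs y h ((zs (.inl (.inl h))).im / wcl b h) := by
  have hx' : y (.inl (.inl h)) < F1 p.rev (clsW b j) (clsW b i) := by
    rwa [A.tab_symm F1_sym b]
  have ho' : Ord b y F1 (y (.inl (.inl h)) / F1 p.rev (clsW b j) (clsW b i)) := by
    rwa [A.tab_symm F1_sym b]
  have hcl : y (.inl (.inl h)) ≤ wcl b h := by
    have := F1_wcl (b := b) h
    rw [← A.tab F1_sym b] at this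
    exact (hx.trans_le this).le
  have f0 := hF A
  have two_y : ∀ {h' : Fin M} {i j' : Fin (M + 1)} {q : Fin 3}, Adj h' i q j' → clsW b i = .two →
      70 / 1000 ≤ y (.inl (.inl h')) ∧ y (.inl (.inl h')) ≤ 56 / 100 := by
    intro h' i j' q A' hi
    have g1 := hF A'
    have g2 := hC A'
    rw [hi] at g1 g2
    rw [C1_two] at g2
    refine ⟨le_trans ?_ g1, g2⟩
    cases clsW b j' <;> simp only [F0] <;> norm_num
  rcases hi : clsW b i with _ | _ | _ | _ | _ | _
  · -- digit `1`
    obtain ⟨h1, j1, A1⟩ := A.other_one hb hi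
    have c1 := hC A1
    rw [hi] at c1
    have s1 := A.one_L1 A1 hb hX hy hpos hF hi (c1.trans (C1_one _ _ _)) hx (ho A1)
    rcases hj with hj | hj | hj
    · obtain ⟨h2, j2, A2⟩ := A.symm.other_one hb hj
      have c2 := hC A2
      rw [hj] at c2
      have s2 := A.symm.one_L1 A2 hb hX hy hpos hF hj (c2.trans (C1_one _ _ _)) hx' (ho' A2)
      rw [hj] at s1
      rw [hi] at s2
      exact LStep.opp A hb (by rw [hi]; decide) (by simp only [k7, eO]; norm_num) s1 s2
    · obtain ⟨h2, j2, A2⟩ := A.symm.other' b (clsW_inner hb (Or.inr (Or.inl hj)))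
      rw [hj, hi] at hx'
      rw [hi, hj] at f0
      simp only [F0] at f0
      simp only [F1] at hx'
      have s2 := A.symm.two_one_L1 A2 hb hL hX hy hpos hj hi f0 hx'.le (two_y A2 hj).1 (two_y A2 hj).2
      rw [hj] at s1
      exact LStep.opp A hb (by rw [hi]; decide) (by simp only [k7, eO]; norm_num) s1 s2
    · rw [hj, hi] at hx'
      rw [hi, hj] at f0
      simp only [F0] at f0
      simp only [F1] at hx'
      have s2 := A.symm.twoE_one_L hb hL hy hpos hj hi (n := 1) (e := 0)
        (Or.inr (Or.inl ⟨rfl, rfl, f0, hx'.le⟩))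
      rw [hj] at s1
      exact LStep.opp A hb (by rw [hi]; decide) (by simp only [k7, eO]; norm_num) s1 s2
  · -- digit `2`
    obtain ⟨h1, j1, A1⟩ := A.other' b (clsW_inner hb (Or.inr (Or.inl hi)))
    have hj1 : clsW b j ≠ .one := by
      intro h0
      rw [hi, h0] at hr
      exact absurd hr (by decide)
    have g0 := (two_y A hi).1
    have s1 := A.two_L1 A1 hb hL hy hpos hi hj1 g0 hcl (two_y A1 hi).1 (two_y A1 hi).2
    rcases hj with hj | hj | hj
    · exact absurd hj hj1
    · obtain ⟨h2, j2, A2⟩ := A.symm.other' b (clsW_inner hb (Or.inr (Or.inl hj)))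
      have s2 := A.symm.two_L1 A2 hb hL hy hpos hj (by rw [hi]; decide) g0 hcl
        (two_y A2 hj).1 (two_y A2 hj).2
      exact LStep.opp A hb (by rw [hi]; decide) (by norm_num) s1 s2
    · have s2 := A.symm.twoE_L hb hL hy hpos hj (by rw [hi]; decide) hcl
      rw [hi] at s2
      exact LStep.opp A hb (by rw [hi]; decide) (by simp only [k7, eE2]; norm_num) s1 s2
  · -- digit `2` at an end
    have hj1 : clsW b j = .twoE := by
      rcases hj with hj | hj | hj
      · rw [hi, hj] at hr; exact absurd hr (by decide)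
      · rw [hi, hj] at hr; exact absurd hr (by decide)
      · exact hj
    have s1 := A.twoE_L hb hL hy hpos hi (by rw [hj1]; decide) hcl
    have s2 := A.symm.twoE_L hb hL hy hpos hj1 (by rw [hi]; decide) hcl
    rw [hj1] at s1
    rw [hi] at s2
    exact LStep.opp A hb (by rw [hi]; decide) (by simp only [k7, eE2]; norm_num) s1 s2
  all_goals
    exfalso
    rcases hj with hj | hj | hj <;> rw [hi, hj] at hr <;> exact absurd hr (by decide)

/-- **The round `L2` between the digits `1` and `2`.** -/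
theorem step_L2 (hb : ClassW b) (hL : Loc b zs) (hX : LocX b zs) (hy : Mx b zs y)
    (hpos : ∀ h : Fin M, 0 < y (.inl (.inl h))) (hF : Flr b y F1) (hC : Cap b y C2)
    (A : Adj h i p j)
    (hr : rkC (clsW b i) ≤ rkC (clsW b j)) (hj : (clsW b j).small)
    (hx : y (.inl (.inl h)) < F2 p (clsW b i) (clsW b j))
    (ho : Ord b y F2 (y (.inl (.inl h)) / F2 p (clsW b i) (clsW b j))) :
    LStep b zs y h ((zs (.inl (.inl h))).im / wcl b h) := by
  have hx' : y (.inl (.inl h)) < F2 p.rev (clsW b j) (clsW b i) := by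
    rwa [A.tab_symm F2_sym b]
  have ho' : Ord b y F2 (y (.inl (.inl h)) / F2 p.rev (clsW b j) (clsW b i)) := by
    rwa [A.tab_symm F2_sym b]
  have f0 := hF A
  rcases hi : clsW b i with _ | _ | _ | _ | _ | _
  · -- digit `1`
    obtain ⟨h1, j1, A1⟩ := A.other_one hb hi
    have c1 := hC A1
    rw [hi] at c1
    have s1 := A.one_L2 A1 hb hX hy hpos hF hi (c1.trans (C2_one _ _ _)) hx (ho A1)
    rcases hj with hj | hj | hj
    · obtain ⟨h2, j2, A2⟩ := A.symm.other_one hb hj
      have c2 := hC A2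
      rw [hj] at c2
      have s2 := A.symm.one_L2 A2 hb hX hy hpos hF hj (c2.trans (C2_one _ _ _)) hx' (ho' A2)
      have hop := A.opp hb (Or.inl (by rw [hi]; decide))
      rcases le_total 0 (ofs (b i) (zs (.inl (.inl h))).im) with hT | hT
      · have s1' := A.one_L2p A1 hb hX hy hpos hF hi hj hT (c1.trans (C2_one _ _ _)) hx (ho A1)
        rw [hi] at s2
        exact LStep.opp A hb (by rw [hi]; decide) (by simp only [k7, eO]; norm_num) s1' s2
      · have hT' : 0 ≤ ofs (b j) (zs (.inl (.inl h))).im := by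
          rw [ofs_opp hop]
          linarith only [hT]
        have s2' := A.symm.one_L2p A2 hb hX hy hpos hF hj hi hT' (c2.trans (C2_one _ _ _)) hx'
          (ho' A2)
        rw [hj] at s1
        exact LStep.opp A hb (by rw [hi]; decide) (by simp only [k7, eO]; norm_num) s1 s2'
    · obtain ⟨h2, j2, A2⟩ := A.symm.other' b (clsW_inner hb (Or.inr (Or.inl hj)))
      rw [hj, hi] at hx'
      rw [hi, hj] at f0
      simp only [F1] at f0
      simp only [F2] at hx'
      have g1 := hF A2
      have g2 := hC A2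
      rw [hj] at g1 g2
      rw [C2_two] at g2
      have g3 : (100 : ℝ) / 1000 ≤ y (.inl (.inl h2)) := by
        refine le_trans ?_ g1
        cases clsW b j2 <;> simp only [F1] <;> (try split_ifs) <;> norm_num
      have s2 := A.symm.two_one_L2 A2 hb hL hX hy hpos hj hi f0 hx'.le g3 g2
      rw [hj] at s1
      exact LStep.opp A hb (by rw [hi]; decide) (by simp only [k7, eO]; norm_num) s1 s2
    · rw [hj, hi] at hx'
      rw [hi, hj] at f0
      simp only [F1] at f0
      simp only [F2] at hx'
      have s2 := A.symm.twoE_one_L hb hL hy hpos hj hi (n := 2) (e := 0)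
        (Or.inr (Or.inr ⟨rfl, rfl, f0, hx'.le⟩))
      rw [hj] at s1
      exact LStep.opp A hb (by rw [hi]; decide) (by simp only [k7, eO]; norm_num) s1 s2
  all_goals
    exfalso
    rcases hj with hj | hj | hj <;> rw [hi, hj] at hr hx f0 <;>
      first
      | exact absurd hr (by decide)
      | (simp only [F1] at f0; simp only [F2] at hx; linarith only [hx, f0])

/-! ### the additional round at the hinges `1 | 1` -/

theorem Adj.one_L0b (A : Adj h i p j) (A' : Adj h' i p.rev j') (hb : ClassW b) (hX : LocX b zs)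
    (hy : Mx b zs y) (hpos : ∀ h : Fin M, 0 < y (.inl (.inl h))) (hF : Flr b y F0)
    (hc : clsW b i = .one) (hj : clsW b j = .one) (hn : clsW b j' ≠ .twoE)
    (hx : y (.inl (.inl h)) ≤ 85 / 1000) :
    (8 : ℝ) / 1000 ≤ Sw b zs y i p ((zs (.inl (.inl h))).im / wcl b h) +
      shO 0 .one (y (.inl (.inl h))) * ofs (b i) ((zs (.inl (.inl h))).im / wcl b h) := by
  obtain ⟨w1, w2, w3, w4⟩ := A.ran A' hb hX hc
  have f1 := hF A
  have f2 := hF A'
  have hM := (A'.rh hy).reM
  rw [A'.re] at hM
  have hM' := hM.trans (A.XM_one A' hc)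
  rw [hj] at w1 w2 w3 w4 hM'
  rw [hc, hj] at f1
  rw [hc] at f2
  have hk : k7 p .one = .one := rfl
  rw [hk] at hM'
  have f2' : (70 : ℝ) / 1000 ≤ y (.inl (.inl h')) := by
    refine le_trans ?_ f2
    cases clsW b j' <;> simp only [F0] <;> norm_num
  have f1' : (70 : ℝ) / 1000 ≤ y (.inl (.inl h)) := by
    simpa only [F0] using f1
  have hM'' : y (.inl (.inl h')) ≤ 80 / 100 := by
    refine hM'.trans ?_
    cases clsW b j' <;> simp only [cpz] <;> norm_num
  have hcl : wcl b h = ((150 : ℤ) : ℝ) / 1000 := by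
    rw [A.cl_one hc, hj]
    rfl
  have H : (dB (clsW b j')).H (ofs (b i) (zs (.inl (.inl h))).im)
      (y (.inl (.inl h))) (y (.inl (.inl h'))) (Yw b zs y i p.rev).im := by
    refine ⟨?_, ?_, w1, w2, ?_, ?_, ?_, hM', ?_⟩
    · simp only [dB]; push_cast; linarith only [f1']
    · simp only [dB]; push_cast; linarith only [hx]
    · simp only [dB]
      refine A'.im_low hy ?_ w4
      have : (ka .one (clsW b j') : ℝ) ≤ 0 := by exact_mod_cast ka_nonpos _ _
      linarith only [this]
    · simp only [dB]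
      have h1 : ((tz (clsW b j') .one).2.2 : ℝ) * 10 ≤ ((tz (clsW b j') .one).1 : ℝ) := by
        exact_mod_cast tz_s' _ _
      exact A'.im_low hy (by linarith only [w1, h1]) (by linarith only [w3])
    · simp only [dB]; push_cast; linarith only [f2']
    · simp only [dB]; push_cast; linarith only [f2', hpos h']
  have := one_real4 hn H (hpos h) (hpos h') (by linarith only [hx, hM''])
  rw [← hcl] at this
  rw [A.one_sd A' hb hy hc (by rw [hcl]; push_cast; linarith only [hx]) (hpos h) (hpos h') (by linarith only [hx, hM''])]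
  push_cast at this
  linarith only [this]

/-- **The hinges `1 | 1` whose outer neighbours are not a `2` at an end are at least `.085`.** -/
theorem floor_one_one (hb : ClassW b) (hX : LocX b zs)
    (hy : Mx b zs y) (hpos : ∀ h : Fin M, 0 < y (.inl (.inl h))) (hF : Flr b y F0)
    (A : Adj h i p j) (hc : clsW b i = .one) (hj : clsW b j = .one)
    (A1 : Adj h1 i p.rev j1) (A2 : Adj h2 j p j2) (n1 : clsW b j1 ≠ .twoE)
    (n2 : clsW b j2 ≠ .twoE) : 85 / 1000 ≤ y (.inl (.inl h)) := by
  by_contra hcon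
  push Not at hcon
  have A2' : Adj h2 j p.rev.rev j2 := by rw [Fin.rev_rev]; exact A2
  have s1 := A.one_L0b A1 hb hX hy hpos hF hc hj n1 hcon.le
  have s2 := A.symm.one_L0b A2' hb hX hy hpos hF hj hc n2 hcon.le
  have hcl : wcl b h = ((150 : ℤ) : ℝ) / 1000 := by
    rw [A.cl_one hc, hj]
    rfl
  have hlt : y (.inl (.inl h)) < wcl b h := by rw [hcl]; push_cast; linarith only [hcon]
  obtain ⟨c, e1, e2, k1, k2, k3⟩ := LStep.opp (m := (zs (.inl (.inl h))).im / wcl b h) A hb
    (by rw [hc]; decide) (by norm_num) s1 s2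
  rw [← w_sR_left (zs := zs) h hlt] at k3
  refine lside_false hb hy h (hpos h) ?_ k1 k2 k3
  have := w_sum (b := b) h
  have := wcr_pos (b := b) h
  linarith

end SR

end Pool.Agent.Work.MP_b30479_gt.G2
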