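import Pool.Agent.Work.MP_b30479_gt.G2.WPar

/-!
# The left ramps: parameters and reduction to real functions

Everything is in the own frame of the region (digit `1` or `2`) whose side is estimated.
-/

namespace Pool.Agent.Work.MP_b30479_gt.G2

open Real Set VOL

namespace ML

open SR

/-- length of the left ramp of a hinge between a digit `1` and a region of class `B` -/
noncomputable def cl1 : Cl → ℝ
  | .one => 18 / 100
  | .two => 16 / 100
  | .twoE => 16 / 100
  | .three => 15 / 100
  | .threeE => 14 / 100
  | .ring => 16 / 100

/-- lowest height of a hinge between a digit `1` and a region of class `B`, in the frame of the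
digit `1` -/
noncomputable def lo1 : Cl → ℝ
  | .one => -(118 / 1000)
  | .two => -(18 / 1000)
  | .twoE => -(66 / 1000)
  | .three => 21 / 1000
  | .threeE => 10 / 1000
  | .ring => 38 / 1000

/-- largest height -/
noncomputable def hi1 : Cl → ℝ
  | .one => 118 / 1000
  | .two => 985 / 10000
  | .twoE => 1 / 1000
  | .three => 1145 / 10000
  | .threeE => 78 / 1000
  | .ring => 158 / 1000

/-- bound for the right end of the path -/
noncomputable def XM1 : Cl → ℝ
  | .one => 7 / 10
  | .two => 65 / 100
  | .twoE => 65 / 100
  | .three => 54 / 100
  | .threeE => 50 / 100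
  | .ring => 65 / 100

/-- right caps used in the second left round -/
noncomputable def cap1 : Cl → ℝ
  | .one => 58 / 100
  | .two => 485 / 1000
  | .twoE => 485 / 1000
  | .three => 485 / 1000
  | .threeE => 485 / 1000
  | .ring => 485 / 1000

/-- the shift on the left ramps -/
noncomputable def sh1 : Cl → ℝ → ℝ
  | .one, x => if x ≤ 126 / 1000 then π - 9 * x else π - 5 * x
  | .ring, x => π - 6 * x
  | _, x => π - 9 / 2 * x

/-- bounds for the side of a digit `1` in the first left round (`x ≤ 7/10 cl`) -/
noncomputable def e10 : Cl → ℝ
  | .one => 1 / 200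
  | .two => 2 / 10
  | .twoE => -(5 / 100)
  | .three => 44 / 100
  | .threeE => 44 / 100
  | .ring => 28 / 100

/-- bounds for the side of a digit `1` in the second left round (`7/10 cl ≤ x ≤ cl`) -/
noncomputable def e11 : Cl → ℝ
  | .one => 1 / 50
  | .two => 115 / 1000
  | .twoE => 9 / 100
  | .three => 30 / 100
  | .threeE => 35 / 100
  | .ring => 8 / 100

/-- in a run of type one, one of the two neighbours has size at most two -/
def okp (B C : Cl) : Prop :=
  (B = .one ∨ B = .two ∨ B = .twoE) ∨ (C = .one ∨ C = .two ∨ C = .twoE)

/-- length of the left ramp of a hinge between a digit `2` (`2` at an end if `e`) and `B` -/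
noncomputable def cl2 (e : Bool) : Cl → ℝ
  | .one => 16 / 100
  | .three => if e then 15 / 100 else 1 / 10
  | _ => 1 / 10

/-- the shift at a digit `2` -/
noncomputable def sh2 : Cl → ℝ → ℝ
  | .one, x => π - 9 / 2 * x
  | _, _ => π / 2

end ML

end Pool.Agent.Work.MP_b30479_gt.G2
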