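import Pool.Agent.Work.MP_b30479_gt.G2.MLN

/-!
# The left ramps: certificates of a digit `1`, first round
-/

namespace Pool.Agent.Work.MP_b30479_gt.G2.ML

open NumI NumI.E

theorem o0_1_0_0 : runT (rowN 1 (cE 0 3300 20000) 40 (-80))
    (.y (.z (.z (.z (.z (.z .b .a) .a) .a) .c) (.z .c .d)) (.z (.z (.z (.z (.z .b .a) .a) .a) .a) (.z
    .c .d)))
    (bx 0 20 (-5334) 3734 0 800) = true := by decide +kernel

theorem o0_1_0_1 : runT (rowN 1 (cE 0 3300 20000) 40 0)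
    (.z (.z (.z (.z (.z .b .a) .a) .a) .a) .c)
    (bx 0 20 (-4067) 4334 0 600) = true := by decide +kernel

theorem o0_1_0_2 : runT (rowN 1 (cE 0 3300 20000) 40 (-66))
    (.y (.z (.z (.z (.z (.z .b .a) .a) .a) .a) (.x .c .c)) (.z (.z (.z (.z (.z .b .a) .a) .a) .a) (.x
    .c .c)))
    (bx 0 20 (-2200) 5334 0 700) = true := by decide +kernel

theorem o0_1_1_0 : runT (row 1 (cE 0 3300 20000) 40 (-80) (-85) 150 1 1)
    (.y (.z (.y (.z (.y (.z (.x (.z (.x .c .c) .b) .c) (.x .a .a)) (.z (.x (.z (.x .c .c) .c) .c) (.x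
    .a .a))) (.x .a .a)) (.z (.y (.z (.z (.x (.x .c .c) .c) (.x .c .c)) (.x .b .a)) (.z (.x (.z (.x .c
    .c) .c) (.z .c .c)) (.x .c .a))) (.x .a .a))) (.z (.x (.x .a .a) .a) (.x (.x .d .d) (.z .d (.y (.x
    .d .d) .d))))) (.z (.y (.z (.y (.z (.x (.z (.x .c .c) .c) (.z (.z .e .c) .c)) (.x .c .c)) (.z (.x
    (.z (.x .c .c) .c) (.z (.z .e .c) .c)) (.x .c .c))) (.x .a .a)) (.z (.y (.z (.x (.z (.x .c (.x .c
    .c)) .c) (.z (.z .e (.x .c .c)) .c)) (.x .c .c)) (.z (.x (.z (.x (.x .c .c) (.x .c (.z .c .c)))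
    .c) (.z (.z .e (.x .c (.z .e .c))) .c)) (.x .c .c))) (.x (.z .a .a) .a))) (.x (.z .a (.x .d .d))
    (.z .a (.y .d .d)))))
    (bx 20 70 (-5334) 3734 20 800) = true := by decide +kernel

theorem o0_1_1_1 : runT (row 1 (cE 0 3300 20000) 40 0 (-61) 150 1 1)
    (.y (.z (.y (.z (.z (.x (.z (.x .c .a) .a) .c) (.x .a .a)) (.x .a .a)) (.z (.z (.z (.x (.x .c .c)
    (.z .e .a)) (.x .a .a)) (.x .a .a)) (.x .a .a))) (.x (.x .a .a) (.z .a .a))) (.z (.y (.z (.z (.x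
    (.z (.x .c (.z .c .a)) .c) (.z (.z .e (.x .a .a)) .a)) (.x .c .a)) (.x .a .a)) (.z (.z (.x (.z (.x
    (.x .c .c) (.z (.z .e .c) .c)) (.x .c .c)) (.z (.z .e (.x (.y .a .a) .e)) (.x .a (.z .a .a)))) (.x
    .c .a)) (.x .c .a))) (.x (.x .a .a) (.x .a .a))))
    (bx 20 70 (-4067) 4334 20 600) = true := by decide +kernel

theorem o0_1_1_2 : runT (row 1 (cE 0 3300 20000) 40 (-66) (-56) 150 1 1)
    (.y (.z (.y (.z (.z (.x (.z (.x .c .c) .c) (.x .c .c)) (.x .c .b)) (.x .a .a)) (.z (.z (.x (.z (.x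
    .c .c) .c) (.z (.z .e .c) .c)) (.x .c .c)) (.x .a .a))) (.x (.z .a .a) (.z .a .a))) (.z (.y (.z
    (.x (.z (.x (.x .c .c) (.z (.z (.x .c .c) .c) .c)) .c) (.z (.z (.z .e (.x .c (.x .c .e))) (.x .c
    .c)) .c)) (.x .c .a)) (.z (.x (.z (.x (.z (.x .c .c) .c) (.z (.z (.z .e .c) .c) .c)) (.x .c .c))
    (.z (.z (.z .e (.x (.x .c (.z .c .c)) (.x (.z .e .c) .e))) (.x .c (.z (.x .c (.y .c .c)) .c)))
    .c)) (.x .c (.z .a .a)))) (.x (.z .a .a) (.z .a .a))))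
    (bx 20 70 (-2200) 5334 20 700) = true := by decide +kernel

theorem o0_2_0_0 : runT (rowN 1 (cE 0 2700 0) (-200) (-80))
    (.z (.z (.z (.z (.z .b .a) .a) .a) .a) (.z .c .d))
    (bx 0 20 (-1125) 5000 0 860) = true := by decide +kernel

theorem o0_2_0_1 : runT (rowN 1 (cE 0 2700 0) (-200) 0)
    (.z (.z (.z (.z (.z .b .a) .a) .a) .a) .c)
    (bx 0 20 2000 5688 0 600) = true := by decide +kernel

theorem o0_2_0_2 : runT (rowN 1 (cE 0 2700 0) (-200) (-49))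
    (.z (.z (.z (.z (.z .b .a) .a) .a) .a) (.z .c .c))
    (bx 0 20 3000 6157 0 700) = true := by decide +kernel

theorem o0_2_1_0 : runT (row 1 (cE 0 2700 0) (-200) (-80) (-49) 160 1 1)
    (.z (.y (.z (.z (.z (.x .c .c) .c) .c) .a) (.z (.z (.z (.x (.x .c .c) .c) .c) .c) (.z .c .a))) (.y
    (.z .a (.x .d .d)) (.z .a .d)))
    (bx 20 45 (-1125) 5000 20 860) = true := by decide +kernel

theorem o0_2_1_1 : runT (row 1 (cE 0 2700 0) (-200) 0 32 160 1 1)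
    (.z (.z (.z (.z (.x (.z .c .c) .c) (.x .c .c)) (.x .c .c)) .c) (.x .a .a))
    (bx 20 45 2000 5688 20 600) = true := by decide +kernel

theorem o0_2_1_2 : runT (row 1 (cE 0 2700 0) (-200) (-49) 21 160 1 1)
    (.z (.z (.z (.z (.x (.x .c .c) .c) (.x .c .c)) .c) .c) (.z .a .a))
    (bx 20 45 3000 6157 20 700) = true := by decide +kernel

theorem o0_2_2_0 : runT (row 1 (cE 0 4320 36000) (-200) (-80) (-49) 160 1 1)
    (.z (.z (.z (.y .c (.x .c (.z (.z (.y .c .c) .c) .c))) (.x .c .c)) .a) (.z .a (.y (.z .b (.x .d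
    (.z .d (.y (.x .d .d) .d)))) (.x .d (.z .a .d)))))
    (bx 45 70 (-1125) 5000 45 860) = true := by decide +kernel

theorem o0_2_2_1 : runT (row 1 (cE 0 4320 36000) (-200) 0 32 160 1 1)
    (.z (.z (.z (.x .c (.z (.y .a (.z (.x .a .e) .a)) .a)) .a) .a) (.x .a .a))
    (bx 45 70 2000 5688 45 600) = true := by decide +kernel

theorem o0_2_2_2 : runT (row 1 (cE 0 4320 36000) (-200) (-49) 21 160 1 1)
    (.z (.z (.z (.x .c (.z (.y .c (.x .c (.z (.x .c .e) .c))) .c)) .c) (.x .a .a)) (.z .a .a))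
    (bx 45 70 3000 6157 45 700) = true := by decide +kernel

theorem o0_2e_0_0 : runT (rowN 1 (cE 0 1300 0) (-300) (-33))
    (.z (.z (.z (.z .a .a) .a) .a) (.z .c .d))
    (bx 0 20 (-4715) 72 0 860) = true := by decide +kernel

theorem o0_2e_1_0 : runT (row 1 (cE 0 1300 0) (-300) (-33) (-66) 140 1 1)
    (.z (.y (.z (.x (.z (.x .c .c) .a) .c) (.x .a .a)) (.z (.y (.x (.z (.z .c .c) .a) .c) (.z (.x (.x
    .c .c) .c) (.x .a .a))) (.x .a .a))) (.y (.z (.x .a .a) (.x (.x .d .d) (.z .d (.z .d (.x .d (.y .d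
    .d)))))) (.z (.x .a .a) (.x .d (.z .d (.x .d .d))))))
    (bx 20 70 (-4715) 72 20 860) = true := by decide +kernel

theorem o0_3a_0_0 : runT (rowN 1 (cE 2 0 4500) 240 (-80))
    (.z (.z (.z (.z (.z .b .a) .a) .a) .a) (.z .c .d))
    (bx 0 20 1615 7231 0 860) = true := by decide +kernel

theorem o0_3a_0_1 : runT (rowN 1 (cE 2 0 4500) 240 (-45))
    (.z (.z (.z (.z (.z .b .a) .a) .a) .a) (.z .c .c))
    (bx 0 20 6692 8808 0 700) = true := by decide +kernel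

theorem o0_3a_1_0 : runT (row 1 (cE 2 0 4500) 240 (-80) (-22) 130 1 1)
    (.z (.y (.z (.y (.z (.x (.z (.x (.x .c .c) (.z (.x .c .c) .c)) .c) (.z (.x (.z (.z .e .c) .c) (.z
    .e .c)) .c)) (.x .c .c)) (.z (.x (.x (.z (.x .c .c) .c) (.z (.z (.x .c .c) .c) .c)) (.z (.x (.z
    (.z .e .c) .c) (.z .e .c)) .c)) (.x .c .c))) (.x (.z .a .a) .a)) (.z (.y (.z (.x (.x (.z (.x .c
    .c) .c) (.z (.z (.x .c (.z .c .c)) .c) .c)) (.z (.x (.z (.z .e .c) .c) (.z .e .c)) .c)) (.x .c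
    .c)) (.z (.x (.x (.z (.x .c .c) .c) (.z (.z (.x .c (.x .c .c)) .c) .c)) (.z (.x (.z (.z .e .c) .c)
    (.z .e .c)) .c)) (.x .c .c))) (.x (.z .c .a) (.z .a .a)))) (.y (.z (.x .a .a) (.x (.x .d .d) (.z
    .a (.y (.x .d (.z .b (.x .d .d))) .d)))) (.z (.x .a .a) (.x (.x .d .d) (.x .d .d)))))
    (bx 20 70 1615 7231 20 860) = true := by decide +kernel

theorem o0_3a_1_1 : runT (row 1 (cE 2 0 4500) 240 (-45) 51 130 1 1)
    (.z (.z (.z (.x (.z (.x (.x .c .c) (.z (.z .e .c) .c)) (.x .c .c)) (.z (.z .e (.x .c (.z .e .c)))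
    (.x .c .c))) (.x (.x .c .c) .c)) (.x .c .c)) (.x (.z .a .a) (.z .a .a)))
    (bx 20 70 6692 8808 20 700) = true := by decide +kernel

theorem o0_3b_0_0 : runT (rowN 1 (cE 2 0 4500) 300 (-80))
    (.z (.z (.z (.z (.z .b .a) .a) .a) .a) (.z .c .d))
    (bx 0 20 1400 6267 0 860) = true := by decide +kernel

theorem o0_3b_0_1 : runT (rowN 1 (cE 2 0 4500) 300 (-45))
    (.z (.z (.z (.z (.z .b .a) .a) .a) .a) (.z .c .c))
    (bx 0 20 5800 7634 0 700) = true := by decide +kernel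

theorem o0_3b_1_0 : runT (row 1 (cE 2 0 4500) 300 (-80) (-22) 150 1 1)
    (.z (.y (.z (.y (.z (.x (.x (.z (.x .c .c) .c) (.z (.z (.x .c (.z .e .c)) .c) .c)) (.z (.x (.z (.z
    .e .c) .c) (.z .e .c)) .c)) (.x .c .c)) (.z (.x (.x (.z (.x .c (.z .c .c)) .c) (.z (.z (.x .c (.z
    .e .c)) .c) .c)) (.z (.x (.z (.z .e .c) .c) (.z .e .c)) .c)) (.x .c .c))) (.x (.z .a .a) .a)) (.z
    (.y (.z (.x (.x (.z (.x .c (.z .c .c)) .c) (.z (.z (.z (.x .c .e) .c) .c) .c)) (.z (.x (.z (.z .e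
    .c) .c) (.z .e .c)) .c)) (.x .c .c)) (.z (.x (.x (.z (.x .c (.z .c .c)) .c) (.z (.z (.z (.x .c .e)
    .c) .c) .c)) (.z (.x (.z (.x (.z .e .c) .e) .c) (.z .e .c)) .c)) (.x .c .c))) (.x (.z .c .a) (.z
    .a .a)))) (.y (.z (.x .a .a) (.x (.x .d .d) (.z .a (.x .d (.z .a (.y .d .d)))))) (.z (.x .a .a)
    (.x (.x .d .d) (.z .a .d)))))
    (bx 20 70 1400 6267 20 850) = true := by decide +kernel

theorem o0_3b_1_1 : runT (row 1 (cE 2 0 4500) 300 (-45) 51 150 1 1)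
    (.z (.z (.z (.x (.z (.x (.x .c (.z .c .c)) (.z (.z .e .c) .c)) (.x .c .c)) (.z (.z .e (.x .c (.z
    .e .c))) (.x .c .c))) (.x (.x .c .c) .c)) (.x .c .c)) (.x (.z .a .a) (.z .a .a)))
    (bx 20 70 5800 7634 20 700) = true := by decide +kernel

theorem o0_3e_0_0 : runT (rowN 1 (cE 2 0 4500) 100 (-61))
    (.z (.z (.z (.z (.z .b .a) .a) .a) .a) (.z .c .d))
    (bx 0 20 714 4215 0 860) = true := by decide +kernel

theorem o0_3e_0_1 : runT (rowN 1 (cE 2 0 4500) 100 (-24))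
    (.z (.z (.z (.z (.z .b .a) .a) .a) .a) (.z .c .c))
    (bx 0 20 4928 5572 0 700) = true := by decide +kernel

theorem o0_3e_1_0 : runT (row 1 (cE 2 0 4500) 100 (-61) (-11) 140 1 1)
    (.z (.z (.y (.z (.x (.z (.x (.z .c .c) .c) .c) (.z (.z (.x .c .e) .c) .c)) (.x .c .c)) (.z (.x (.z
    (.x (.x .c .c) (.z .c .c)) .c) (.z (.z (.x (.z .c .c) .e) .c) .c)) (.x .c .c))) (.x (.z .a .a)
    .a)) (.z (.x .a .a) (.x (.y .d .d) (.z .a (.y (.z .b (.x .d (.z .b (.y (.x .b (.z .b .b)) .b))))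
    .d)))))
    (bx 20 70 714 4215 20 860) = true := by decide +kernel

theorem o0_3e_1_1 : runT (row 1 (cE 2 0 4500) 100 (-24) 51 140 1 1)
    (.z (.z (.z (.z (.x (.x .c .c) (.z .e .c)) (.x .c .c)) (.x .c .c)) (.x .c .a)) (.x (.z .a .a) (.z
    .a .a)))
    (bx 20 70 4928 5572 20 700) = true := by decide +kernel

theorem o0_Z_0_0 : runT (rowN 1 (cE 2 0 6000) 100 (-80))
    (.z (.z (.z (.z (.z .b .a) .a) .a) .a) (.z .c .d))
    (bx 0 20 2375 9063 0 860) = true := by decide +kernel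

theorem o0_Z_0_1 : runT (rowN 1 (cE 2 0 6000) 100 (-61))
    (.z (.z (.z (.z (.z .b .a) .a) .a) .a) (.z .c .c))
    (bx 0 20 6250 9875 0 700) = true := by decide +kernel

theorem o0_Z_1_0 : runT (row 1 (cE 2 0 6000) 100 (-80) (-10) 160 1 1)
    (.z (.y (.z (.y (.z (.x (.z (.x (.x .c .c) (.z .c .c)) .c) (.z (.z (.x (.x .c .c) .e) .c) .c)) (.x
    .c .c)) (.z (.x (.x (.z (.x .c .c) .c) (.z (.x .c .c) .c)) (.z (.z (.x (.x .c .e) .e) .c) .c)) (.x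
    .c .c))) (.x (.z .c .a) (.z .a .a))) (.z (.y (.z (.x (.x (.z (.x .c .c) .c) (.z (.x .c .c) .c))
    (.z (.x (.z (.z .e .c) .c) (.z .e .c)) .c)) (.x .c .c)) (.z (.x (.x (.z (.x .c .c) .c) (.z (.x .c
    (.z .c .c)) .c)) (.z (.x (.z (.z .e .c) .c) (.z .e .c)) .c)) (.x .c .c))) (.x (.z (.x .c .c) .a)
    (.z .c .a)))) (.y (.z (.x .a .a) (.x (.x .d .d) (.y (.z .a .d) .d))) (.z (.x .a .a) (.x (.y .d .d)
    (.y .d .d)))))
    (bx 20 70 2375 9063 20 860) = true := by decide +kernel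

theorem o0_Z_1_1 : runT (row 1 (cE 2 0 6000) 100 (-61) 64 160 1 1)
    (.z (.y (.z (.z (.x (.x (.z (.x .c .c) .c) (.z (.x .c .c) .c)) (.z (.z .e (.x .c .c)) .c)) (.x .c
    .c)) (.x .c .c)) (.z (.x (.z (.x (.z (.x .c .c) .c) (.z (.z (.x .c .c) .c) .c)) (.x .c .c)) (.z
    (.z (.z .e (.x .c .c)) .c) .c)) (.x .c .c))) (.x (.z .a .a) (.z .a .a)))
    (bx 20 70 6250 9875 20 700) = true := by decide +kernel

theorem o0_3b_2_0 : runT (row 1 (cE 2 0 4500) 300 (-4) (-22) 150 0 1)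
    (.y (.x .a (.y (.x .a .a) .a)) (.x .a .a))
    (bx 20 70 1400 6267 850 860) = true := by decide +kernel

end Pool.Agent.Work.MP_b30479_gt.G2.ML
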