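import Pool.Agent.Work.MP_b30479_gt.G2.MLS
import Pool.Agent.Work.MP_b30479_gt.G2.MLSA
import Pool.Agent.Work.MP_b30479_gt.G2.MLSB
import Pool.Agent.Work.MP_b30479_gt.G2.MLDef

/-!
# The left ramps: tables and bounds for the sides of the digits `1` and `2`

Generated.  Rounds `0`, `1`, `2`, `3`.
-/

namespace Pool.Agent.Work.MP_b30479_gt.G2

open Real Set VOL NumI SR

namespace ML

/-- kinds of hinges seen from a digit `1` or `2`; `threeA`: the region with three crossings is on the
right (slot `0`), `threeB`: on the left (slot `2`) -/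
inductive K7
  | one | two | twoE | threeA | threeB | threeE | ring
  deriving DecidableEq

def K7.cl : K7 → Cl
  | .one => .one
  | .two => .two
  | .twoE => .twoE
  | .threeA => .three
  | .threeB => .three
  | .threeE => .threeE
  | .ring => .ring

/-- the kind of the hinge in the slot `p` next to a region of class `B` -/
def k7 (p : Fin 3) : Cl → K7
  | .one => .one
  | .two => .two
  | .twoE => .twoE
  | .three => if p = 2 then .threeA else .threeB
  | .threeE => .threeE
  | .ring => .ring

@[simp] theorem k7_cl (p : Fin 3) (B : Cl) : (k7 p B).cl = B := by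
  cases B <;> simp only [k7] <;> (try split_ifs) <;> rfl

/-- windows of a hinge `1 | B`, other neighbour `C`: `t0`, `t1` (in ten thousandths), `s` (in
thousandths), all in the frame of the digit `1` -/
def tz : Cl → Cl → ℤ × ℤ × ℤ
  | .one, .one => ((-800), 560, (-85))
  | .one, .two => ((-180), 790, (-49))
  | .one, .twoE => ((-660), (-160), (-66))
  | .one, .three => (210, 920, (-22))
  | .one, .threeE => (100, 580, (-11))
  | .one, .ring => (380, 1360, (-10))
  | .two, .one => ((-800), 540, (-80))
  | .two, .two => (50, 790, 5)
  | .two, .twoE => ((-490), (-200), (-49))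
  | .two, .three => (460, 940, 46)
  | .two, .threeE => (300, 590, 30)
  | .two, .ring => (630, 1450, 63)
  | .twoE, .one => ((-330), 800, (-56))
  | .twoE, .two => (480, 985, 21)
  | .twoE, .twoE => ((-60), 10, (-6))
  | .twoE, .three => (870, 1145, 51)
  | .twoE, .threeE => (690, 780, 51)
  | .twoE, .ring => (1000, 1580, 64)
  | .three, .one => ((-800), 490, (-80))
  | .three, .two => (100, 770, 10)
  | .three, .twoE => ((-450), (-250), (-45))
  | .threeE, .one => ((-610), 650, (-61))
  | .threeE, .two => (320, 910, 32)
  | .threeE, .twoE => ((-240), (-110), (-24))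
  | .ring, .one => ((-800), 510, (-80))
  | .ring, .two => ((-80), 800, (-8))
  | .ring, .twoE => ((-610), (-240), (-61))
  | _, _ => (-10000, 10000, -10000)

/-- lower bound for the height of the other hinge (in thousandths) -/
def ka (B C : Cl) : ℤ := min 0 ((tz B C).1 / 10)

/-- floors of the hinges `1 | B` after round `n` (thousandths) -/
def flz : ℕ → K7 → ℤ
  | 0, _ => 70
  | 1, .one => 125
  | 1, .two => 150
  | 1, .twoE => 125
  | 1, .threeA => 130
  | 1, .threeB => 110
  | 1, .threeE => 120
  | 1, .ring => 120
  | 2, .one => 150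
  | 2, .two => 160
  | 2, .twoE => 140
  | 2, .threeA => 130
  | 2, .threeB => 150
  | 2, .threeE => 140
  | 2, .ring => 145
  | _, .one => 150
  | _, .two => 160
  | _, .twoE => 140
  | _, .threeA => 130
  | _, .threeB => 150
  | _, .threeE => 140
  | _, .ring => 160

/-- range of `x` in round `n`: from -/
def xlz : ℕ → K7 → ℤ
  | 0, _ => 0
  | n + 1, B => flz n B

/-- floors of the other hinge in round `n` -/
def ylz : ℕ → Cl → ℤ
  | 0, _ => 0
  | 1, _ => 70
  | 2, .one => 125
  | 2, .two => 150
  | 2, .twoE => 125
  | 2, .three => 110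
  | 2, .threeE => 120
  | 2, .ring => 120
  | _, .one => 180
  | _, .two => 160
  | _, .twoE => 200
  | _, .three => 130
  | _, .threeE => 140
  | _, .ring => 145

/-- caps of the other hinge in round `n` -/
def cpz : ℕ → K7 → Cl → ℤ
  | 0, .one, .one => 800
  | 0, _, .one => 860
  | 0, _, .two => 800
  | 0, _, .twoE => 700
  | 0, _, .three => 650
  | 0, _, .threeE => 600
  | 0, _, .ring => 650
  | 1, _, .one => 700
  | 1, _, .two => 560
  | 1, _, .twoE => 370
  | 1, _, .three => 650
  | 1, _, .threeE => 600
  | 1, _, .ring => 650
  | _, _, .one => 640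
  | _, _, .two => 560
  | _, _, .twoE => 370
  | _, _, .three => 650
  | _, _, .threeE => 370
  | _, _, .ring => 650

/-- numerator of the ratio in round `n` -/
def raz : ℕ → Cl → ℤ
  | 0, _ => 70
  | 1, .one => 125
  | 1, .two => 150
  | 1, .twoE => 125
  | 1, .three => 110
  | 1, .threeE => 120
  | 1, .ring => 120
  | 2, .one => 150
  | 2, .two => 160
  | 2, .twoE => 140
  | 2, .three => 130
  | 2, .threeE => 140
  | 2, .ring => 145
  | _, _ => 0

/-- length of the left ramp -/
def clz : K7 → ℤ
  | .one => 150
  | .two => 160
  | .twoE => 140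
  | .threeA => 130
  | .threeB => 150
  | .threeE => 140
  | .ring => 160

/-- data of round `n` -/
def dO (n : ℕ) (B : K7) (C : Cl) : Dat :=
  ⟨xlz n B, flz n B, (tz C B.cl).1, (tz C B.cl).2.1, ka B.cl C, (tz C B.cl).2.2, ylz n C, cpz n B C,
    raz n C, (flz n B).toNat⟩

/-- the shift at a hinge `1 | B` in round `n` -/
noncomputable def shO : ℕ → K7 → ℝ → ℝ
  | 0, .one, x => cR 0 3300 20000 x
  | 0, .two, x => if x ≤ ((45 : ℤ) : ℝ) / 1000 then cR 0 2700 0 x else cR 0 4320 36000 x
  | 0, .twoE, x => cR 0 1300 0 x
  | 1, .one, x => cR 0 3100 9000 x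
  | 1, .two, x => if x ≤ ((100 : ℤ) : ℝ) / 1000 then cR 0 2400 0 x else cR 0 3200 8000 x
  | 1, .twoE, x => cR 0 1950 0 x
  | _, .one, x => cR 0 2300 0 x
  | _, .two, x => cR 0 2100 0 x
  | _, .twoE, x => cR 0 2100 0 x
  | _, .ring, x => cR 2 0 6000 x
  | _, _, x => cR 2 0 4500 x

/-- bounds for the side of a digit `1` (thousandths) -/
def eO : ℕ → K7 → ℤ
  | 0, .one => 40
  | 0, .two => (-200)
  | 0, .twoE => (-300)
  | 0, .threeA => 240
  | 0, .threeB => 300
  | 0, .threeE => 100
  | 0, .ring => 100
  | 1, .one => 20
  | 1, .two => (-170)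
  | 1, .twoE => 50
  | 1, .threeA => 300
  | 1, .threeB => 445
  | 1, .threeE => 380
  | 1, .ring => 120
  | 2, .one => (-60)
  | 2, .two => (-50)
  | 2, .twoE => 100
  | 2, .threeA => 290
  | 2, .threeB => 290
  | 2, .threeE => 380
  | 2, .ring => 100
  | _, .ring => 140
  | _, _ => 0

variable {B : K7} {C : Cl} {T x y k : ℝ}

theorem one_real0 (hok : okp B.cl C) (hB : B ≠ .threeB) (H : (dO 0 B C).H T x y k) (h0 : 0 < x) (h0' : 0 < y)
    (hs : x + y < 1) :
    (eO 0 B : ℝ) / 1000 < sd 1 (shO 0 B x) x (T / ((clz B : ℝ) / 1000)) y k := by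
  have hx0 := H.x0
  have hx1 := H.x1
  cases B
  case one =>
    simp only [dO, xlz, flz] at hx0 hx1
    push_cast at hx0 hx1
    cases C
    case one =>
      rcases le_total x (20 / 1000) with hx | hx
      · exact use_rowN (s := -10000) (ra := 0) (rb := 1) (Or.inl rfl) o0_1_0_0 _ (by decide) (by decide) (H.cut (u := 0) (v := 20) (by push_cast; linarith only [h0]) (by push_cast; linarith only [hx])) h0 h0' hs
      · exact use_row (Or.inl rfl) o0_1_1_0 _ (by decide) (H.cut (u := 20) (v := 70) (by push_cast; linarith only [hx]) (by push_cast; linarith only [hx1])) h0 h0' hs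
    case two =>
      rcases le_total x (20 / 1000) with hx | hx
      · exact use_rowN (s := -10000) (ra := 0) (rb := 1) (Or.inl rfl) o0_1_0_0 _ (by decide) (by decide) (H.cut (u := 0) (v := 20) (by push_cast; linarith only [h0]) (by push_cast; linarith only [hx])) h0 h0' hs
      · exact use_row (Or.inl rfl) o0_1_1_0 _ (by decide) (H.cut (u := 20) (v := 70) (by push_cast; linarith only [hx]) (by push_cast; linarith only [hx1])) h0 h0' hs
    case twoE =>
      rcases le_total x (20 / 1000) with hx | hx
      · exact use_rowN (s := -10000) (ra := 0) (rb := 1) (Or.inl rfl) o0_1_0_2 _ (by decide) (by decide) (H.cut (u := 0) (v := 20) (by push_cast; linarith only [h0]) (by push_cast; linarith only [hx])) h0 h0' hs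
      · exact use_row (Or.inl rfl) o0_1_1_2 _ (by decide) (H.cut (u := 20) (v := 70) (by push_cast; linarith only [hx]) (by push_cast; linarith only [hx1])) h0 h0' hs
    case three =>
      rcases le_total x (20 / 1000) with hx | hx
      · exact use_rowN (s := -10000) (ra := 0) (rb := 1) (Or.inl rfl) o0_1_0_0 _ (by decide) (by decide) (H.cut (u := 0) (v := 20) (by push_cast; linarith only [h0]) (by push_cast; linarith only [hx])) h0 h0' hs
      · exact use_row (Or.inl rfl) o0_1_1_0 _ (by decide) (H.cut (u := 20) (v := 70) (by push_cast; linarith only [hx]) (by push_cast; linarith only [hx1])) h0 h0' hs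
    case threeE =>
      rcases le_total x (20 / 1000) with hx | hx
      · exact use_rowN (s := -10000) (ra := 0) (rb := 1) (Or.inl rfl) o0_1_0_1 _ (by decide) (by decide) (H.cut (u := 0) (v := 20) (by push_cast; linarith only [h0]) (by push_cast; linarith only [hx])) h0 h0' hs
      · exact use_row (Or.inl rfl) o0_1_1_1 _ (by decide) (H.cut (u := 20) (v := 70) (by push_cast; linarith only [hx]) (by push_cast; linarith only [hx1])) h0 h0' hs
    case ring =>
      rcases le_total x (20 / 1000) with hx | hx
      · exact use_rowN (s := -10000) (ra := 0) (rb := 1) (Or.inl rfl) o0_1_0_0 _ (by decide) (by decide) (H.cut (u := 0) (v := 20) (by push_cast; linarith only [h0]) (by push_cast; linarith only [hx])) h0 h0' hs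
      · exact use_row (Or.inl rfl) o0_1_1_0 _ (by decide) (H.cut (u := 20) (v := 70) (by push_cast; linarith only [hx]) (by push_cast; linarith only [hx1])) h0 h0' hs
  case two =>
    simp only [dO, xlz, flz] at hx0 hx1
    push_cast at hx0 hx1
    simp only [shO]
    cases C
    case one =>
      split_ifs with hx
      · push_cast at hx
        rcases le_total x (20 / 1000) with hx' | hx'
        · exact use_rowN (s := -10000) (ra := 0) (rb := 1) (Or.inl rfl) o0_2_0_0 _ (by decide) (by decide) (H.cut (u := 0) (v := 20) (by push_cast; linarith only [h0]) (by push_cast; linarith only [hx'])) h0 h0' hs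
        · exact use_row (Or.inl rfl) o0_2_1_0 _ (by decide) (H.cut (u := 20) (v := 45) (by push_cast; linarith only [hx']) (by push_cast; linarith only [hx])) h0 h0' hs
      · push_cast at hx
        exact use_row (Or.inl rfl) o0_2_2_0 _ (by decide) (H.cut (u := 45) (v := 70) (by push_cast; linarith only [hx]) (by push_cast; linarith only [hx1])) h0 h0' hs
    case two =>
      split_ifs with hx
      · push_cast at hx
        rcases le_total x (20 / 1000) with hx' | hx'
        · exact use_rowN (s := -10000) (ra := 0) (rb := 1) (Or.inl rfl) o0_2_0_0 _ (by decide) (by decide) (H.cut (u := 0) (v := 20) (by push_cast; linarith only [h0]) (by push_cast; linarith only [hx'])) h0 h0' hs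
        · exact use_row (Or.inl rfl) o0_2_1_0 _ (by decide) (H.cut (u := 20) (v := 45) (by push_cast; linarith only [hx']) (by push_cast; linarith only [hx])) h0 h0' hs
      · push_cast at hx
        exact use_row (Or.inl rfl) o0_2_2_0 _ (by decide) (H.cut (u := 45) (v := 70) (by push_cast; linarith only [hx]) (by push_cast; linarith only [hx1])) h0 h0' hs
    case twoE =>
      split_ifs with hx
      · push_cast at hx
        rcases le_total x (20 / 1000) with hx' | hx'
        · exact use_rowN (s := -10000) (ra := 0) (rb := 1) (Or.inl rfl) o0_2_0_2 _ (by decide) (by decide) (H.cut (u := 0) (v := 20) (by push_cast; linarith only [h0]) (by push_cast; linarith only [hx'])) h0 h0' hs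
        · exact use_row (Or.inl rfl) o0_2_1_2 _ (by decide) (H.cut (u := 20) (v := 45) (by push_cast; linarith only [hx']) (by push_cast; linarith only [hx])) h0 h0' hs
      · push_cast at hx
        exact use_row (Or.inl rfl) o0_2_2_2 _ (by decide) (H.cut (u := 45) (v := 70) (by push_cast; linarith only [hx]) (by push_cast; linarith only [hx1])) h0 h0' hs
    case three =>
      split_ifs with hx
      · push_cast at hx
        rcases le_total x (20 / 1000) with hx' | hx'
        · exact use_rowN (s := -10000) (ra := 0) (rb := 1) (Or.inl rfl) o0_2_0_0 _ (by decide) (by decide) (H.cut (u := 0) (v := 20) (by push_cast; linarith only [h0]) (by push_cast; linarith only [hx'])) h0 h0' hs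
        · exact use_row (Or.inl rfl) o0_2_1_0 _ (by decide) (H.cut (u := 20) (v := 45) (by push_cast; linarith only [hx']) (by push_cast; linarith only [hx])) h0 h0' hs
      · push_cast at hx
        exact use_row (Or.inl rfl) o0_2_2_0 _ (by decide) (H.cut (u := 45) (v := 70) (by push_cast; linarith only [hx]) (by push_cast; linarith only [hx1])) h0 h0' hs
    case threeE =>
      split_ifs with hx
      · push_cast at hx
        rcases le_total x (20 / 1000) with hx' | hx'
        · exact use_rowN (s := -10000) (ra := 0) (rb := 1) (Or.inl rfl) o0_2_0_1 _ (by decide) (by decide) (H.cut (u := 0) (v := 20) (by push_cast; linarith only [h0]) (by push_cast; linarith only [hx'])) h0 h0' hs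
        · exact use_row (Or.inl rfl) o0_2_1_1 _ (by decide) (H.cut (u := 20) (v := 45) (by push_cast; linarith only [hx']) (by push_cast; linarith only [hx])) h0 h0' hs
      · push_cast at hx
        exact use_row (Or.inl rfl) o0_2_2_1 _ (by decide) (H.cut (u := 45) (v := 70) (by push_cast; linarith only [hx]) (by push_cast; linarith only [hx1])) h0 h0' hs
    case ring =>
      split_ifs with hx
      · push_cast at hx
        rcases le_total x (20 / 1000) with hx' | hx'
        · exact use_rowN (s := -10000) (ra := 0) (rb := 1) (Or.inl rfl) o0_2_0_0 _ (by decide) (by decide) (H.cut (u := 0) (v := 20) (by push_cast; linarith only [h0]) (by push_cast; linarith only [hx'])) h0 h0' hs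
        · exact use_row (Or.inl rfl) o0_2_1_0 _ (by decide) (H.cut (u := 20) (v := 45) (by push_cast; linarith only [hx']) (by push_cast; linarith only [hx])) h0 h0' hs
      · push_cast at hx
        exact use_row (Or.inl rfl) o0_2_2_0 _ (by decide) (H.cut (u := 45) (v := 70) (by push_cast; linarith only [hx]) (by push_cast; linarith only [hx1])) h0 h0' hs
  case twoE =>
    simp only [dO, xlz, flz] at hx0 hx1
    push_cast at hx0 hx1
    cases C
    case one =>
      rcases le_total x (20 / 1000) with hx | hx
      · exact use_rowN (s := -10000) (ra := 0) (rb := 1) (Or.inl rfl) o0_2e_0_0 _ (by decide) (by decide) (H.cut (u := 0) (v := 20) (by push_cast; linarith only [h0]) (by push_cast; linarith only [hx])) h0 h0' hs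
      · exact use_row (Or.inl rfl) o0_2e_1_0 _ (by decide) (H.cut (u := 20) (v := 70) (by push_cast; linarith only [hx]) (by push_cast; linarith only [hx1])) h0 h0' hs
    case two =>
      rcases le_total x (20 / 1000) with hx | hx
      · exact use_rowN (s := -10000) (ra := 0) (rb := 1) (Or.inl rfl) o0_2e_0_0 _ (by decide) (by decide) (H.cut (u := 0) (v := 20) (by push_cast; linarith only [h0]) (by push_cast; linarith only [hx])) h0 h0' hs
      · exact use_row (Or.inl rfl) o0_2e_1_0 _ (by decide) (H.cut (u := 20) (v := 70) (by push_cast; linarith only [hx]) (by push_cast; linarith only [hx1])) h0 h0' hs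
    case twoE =>
      rcases le_total x (20 / 1000) with hx | hx
      · exact use_rowN (s := -10000) (ra := 0) (rb := 1) (Or.inl rfl) o0_2e_0_0 _ (by decide) (by decide) (H.cut (u := 0) (v := 20) (by push_cast; linarith only [h0]) (by push_cast; linarith only [hx])) h0 h0' hs
      · exact use_row (Or.inl rfl) o0_2e_1_0 _ (by decide) (H.cut (u := 20) (v := 70) (by push_cast; linarith only [hx]) (by push_cast; linarith only [hx1])) h0 h0' hs
    case three =>
      rcases le_total x (20 / 1000) with hx | hx
      · exact use_rowN (s := -10000) (ra := 0) (rb := 1) (Or.inl rfl) o0_2e_0_0 _ (by decide) (by decide) (H.cut (u := 0) (v := 20) (by push_cast; linarith only [h0]) (by push_cast; linarith only [hx])) h0 h0' hs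
      · exact use_row (Or.inl rfl) o0_2e_1_0 _ (by decide) (H.cut (u := 20) (v := 70) (by push_cast; linarith only [hx]) (by push_cast; linarith only [hx1])) h0 h0' hs
    case threeE =>
      rcases le_total x (20 / 1000) with hx | hx
      · exact use_rowN (s := -10000) (ra := 0) (rb := 1) (Or.inl rfl) o0_2e_0_0 _ (by decide) (by decide) (H.cut (u := 0) (v := 20) (by push_cast; linarith only [h0]) (by push_cast; linarith only [hx])) h0 h0' hs
      · exact use_row (Or.inl rfl) o0_2e_1_0 _ (by decide) (H.cut (u := 20) (v := 70) (by push_cast; linarith only [hx]) (by push_cast; linarith only [hx1])) h0 h0' hs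
    case ring =>
      rcases le_total x (20 / 1000) with hx | hx
      · exact use_rowN (s := -10000) (ra := 0) (rb := 1) (Or.inl rfl) o0_2e_0_0 _ (by decide) (by decide) (H.cut (u := 0) (v := 20) (by push_cast; linarith only [h0]) (by push_cast; linarith only [hx])) h0 h0' hs
      · exact use_row (Or.inl rfl) o0_2e_1_0 _ (by decide) (H.cut (u := 20) (v := 70) (by push_cast; linarith only [hx]) (by push_cast; linarith only [hx1])) h0 h0' hs
  case threeA =>
    simp only [dO, xlz, flz] at hx0 hx1
    push_cast at hx0 hx1
    cases C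
    case one =>
      rcases le_total x (20 / 1000) with hx | hx
      · exact use_rowN (s := -10000) (ra := 0) (rb := 1) (Or.inl rfl) o0_3a_0_0 _ (by decide) (by decide) (H.cut (u := 0) (v := 20) (by push_cast; linarith only [h0]) (by push_cast; linarith only [hx])) h0 h0' hs
      · exact use_row (Or.inl rfl) o0_3a_1_0 _ (by decide) (H.cut (u := 20) (v := 70) (by push_cast; linarith only [hx]) (by push_cast; linarith only [hx1])) h0 h0' hs
    case two =>
      rcases le_total x (20 / 1000) with hx | hx
      · exact use_rowN (s := -10000) (ra := 0) (rb := 1) (Or.inl rfl) o0_3a_0_0 _ (by decide) (by decide) (H.cut (u := 0) (v := 20) (by push_cast; linarith only [h0]) (by push_cast; linarith only [hx])) h0 h0' hs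
      · exact use_row (Or.inl rfl) o0_3a_1_0 _ (by decide) (H.cut (u := 20) (v := 70) (by push_cast; linarith only [hx]) (by push_cast; linarith only [hx1])) h0 h0' hs
    case twoE =>
      rcases le_total x (20 / 1000) with hx | hx
      · exact use_rowN (s := -10000) (ra := 0) (rb := 1) (Or.inl rfl) o0_3a_0_1 _ (by decide) (by decide) (H.cut (u := 0) (v := 20) (by push_cast; linarith only [h0]) (by push_cast; linarith only [hx])) h0 h0' hs
      · exact use_row (Or.inl rfl) o0_3a_1_1 _ (by decide) (H.cut (u := 20) (v := 70) (by push_cast; linarith only [hx]) (by push_cast; linarith only [hx1])) h0 h0' hs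
    case three => exact absurd hok (by simp [okp, K7.cl])
    case threeE => exact absurd hok (by simp [okp, K7.cl])
    case ring => exact absurd hok (by simp [okp, K7.cl])
  case threeB =>
    exact absurd rfl hB
  case threeE =>
    simp only [dO, xlz, flz] at hx0 hx1
    push_cast at hx0 hx1
    cases C
    case one =>
      rcases le_total x (20 / 1000) with hx | hx
      · exact use_rowN (s := -10000) (ra := 0) (rb := 1) (Or.inl rfl) o0_3e_0_0 _ (by decide) (by decide) (H.cut (u := 0) (v := 20) (by push_cast; linarith only [h0]) (by push_cast; linarith only [hx])) h0 h0' hs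
      · exact use_row (Or.inl rfl) o0_3e_1_0 _ (by decide) (H.cut (u := 20) (v := 70) (by push_cast; linarith only [hx]) (by push_cast; linarith only [hx1])) h0 h0' hs
    case two =>
      rcases le_total x (20 / 1000) with hx | hx
      · exact use_rowN (s := -10000) (ra := 0) (rb := 1) (Or.inl rfl) o0_3e_0_0 _ (by decide) (by decide) (H.cut (u := 0) (v := 20) (by push_cast; linarith only [h0]) (by push_cast; linarith only [hx])) h0 h0' hs
      · exact use_row (Or.inl rfl) o0_3e_1_0 _ (by decide) (H.cut (u := 20) (v := 70) (by push_cast; linarith only [hx]) (by push_cast; linarith only [hx1])) h0 h0' hs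
    case twoE =>
      rcases le_total x (20 / 1000) with hx | hx
      · exact use_rowN (s := -10000) (ra := 0) (rb := 1) (Or.inl rfl) o0_3e_0_1 _ (by decide) (by decide) (H.cut (u := 0) (v := 20) (by push_cast; linarith only [h0]) (by push_cast; linarith only [hx])) h0 h0' hs
      · exact use_row (Or.inl rfl) o0_3e_1_1 _ (by decide) (H.cut (u := 20) (v := 70) (by push_cast; linarith only [hx]) (by push_cast; linarith only [hx1])) h0 h0' hs
    case three => exact absurd hok (by simp [okp, K7.cl])
    case threeE => exact absurd hok (by simp [okp, K7.cl])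
    case ring => exact absurd hok (by simp [okp, K7.cl])
  case ring =>
    simp only [dO, xlz, flz] at hx0 hx1
    push_cast at hx0 hx1
    cases C
    case one =>
      rcases le_total x (20 / 1000) with hx | hx
      · exact use_rowN (s := -10000) (ra := 0) (rb := 1) (Or.inl rfl) o0_Z_0_0 _ (by decide) (by decide) (H.cut (u := 0) (v := 20) (by push_cast; linarith only [h0]) (by push_cast; linarith only [hx])) h0 h0' hs
      · exact use_row (Or.inl rfl) o0_Z_1_0 _ (by decide) (H.cut (u := 20) (v := 70) (by push_cast; linarith only [hx]) (by push_cast; linarith only [hx1])) h0 h0' hs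
    case two =>
      rcases le_total x (20 / 1000) with hx | hx
      · exact use_rowN (s := -10000) (ra := 0) (rb := 1) (Or.inl rfl) o0_Z_0_0 _ (by decide) (by decide) (H.cut (u := 0) (v := 20) (by push_cast; linarith only [h0]) (by push_cast; linarith only [hx])) h0 h0' hs
      · exact use_row (Or.inl rfl) o0_Z_1_0 _ (by decide) (H.cut (u := 20) (v := 70) (by push_cast; linarith only [hx]) (by push_cast; linarith only [hx1])) h0 h0' hs
    case twoE =>
      rcases le_total x (20 / 1000) with hx | hx
      · exact use_rowN (s := -10000) (ra := 0) (rb := 1) (Or.inl rfl) o0_Z_0_1 _ (by decide) (by decide) (H.cut (u := 0) (v := 20) (by push_cast; linarith only [h0]) (by push_cast; linarith only [hx])) h0 h0' hs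
      · exact use_row (Or.inl rfl) o0_Z_1_1 _ (by decide) (H.cut (u := 20) (v := 70) (by push_cast; linarith only [hx]) (by push_cast; linarith only [hx1])) h0 h0' hs
    case three => exact absurd hok (by simp [okp, K7.cl])
    case threeE => exact absurd hok (by simp [okp, K7.cl])
    case ring => exact absurd hok (by simp [okp, K7.cl])

theorem one_real1 (hok : okp B.cl C) (H : (dO 1 B C).H T x y k) (h0 : 0 < x) (h0' : 0 < y)
    (hs : x + y < 1) :
    (eO 1 B : ℝ) / 1000 < sd 1 (shO 1 B x) x (T / ((clz B : ℝ) / 1000)) y k := by
  have hx0 := H.x0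
  have hx1 := H.x1
  cases B
  case one =>
    simp only [dO, xlz, flz] at hx0 hx1
    push_cast at hx0 hx1
    cases C
    case one =>
      exact use_row (Or.inl rfl) o1_1_0_0 _ (by decide) H h0 h0' hs
    case two =>
      exact use_row (Or.inl rfl) o1_1_0_0 _ (by decide) H h0 h0' hs
    case twoE =>
      exact use_row (Or.inl rfl) o1_1_0_2 _ (by decide) H h0 h0' hs
    case three =>
      exact use_row (Or.inl rfl) o1_1_0_0 _ (by decide) H h0 h0' hs
    case threeE =>
      exact use_row (Or.inl rfl) o1_1_0_1 _ (by decide) H h0 h0' hs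
    case ring =>
      exact use_row (Or.inl rfl) o1_1_0_0 _ (by decide) H h0 h0' hs
  case two =>
    simp only [dO, xlz, flz] at hx0 hx1
    push_cast at hx0 hx1
    simp only [shO]
    cases C
    case one =>
      split_ifs with hx
      · push_cast at hx
        exact use_row (Or.inl rfl) o1_2_0_0 _ (by decide) (H.cut (u := 70) (v := 100) (by push_cast; linarith only [hx0]) (by push_cast; linarith only [hx])) h0 h0' hs
      · push_cast at hx
        exact use_row (Or.inl rfl) o1_2_1_0 _ (by decide) (H.cut (u := 100) (v := 150) (by push_cast; linarith only [hx]) (by push_cast; linarith only [hx1])) h0 h0' hs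
    case two =>
      split_ifs with hx
      · push_cast at hx
        exact use_row (Or.inl rfl) o1_2_0_0 _ (by decide) (H.cut (u := 70) (v := 100) (by push_cast; linarith only [hx0]) (by push_cast; linarith only [hx])) h0 h0' hs
      · push_cast at hx
        exact use_row (Or.inl rfl) o1_2_1_0 _ (by decide) (H.cut (u := 100) (v := 150) (by push_cast; linarith only [hx]) (by push_cast; linarith only [hx1])) h0 h0' hs
    case twoE =>
      split_ifs with hx
      · push_cast at hx
        exact use_row (Or.inl rfl) o1_2_0_2 _ (by decide) (H.cut (u := 70) (v := 100) (by push_cast; linarith only [hx0]) (by push_cast; linarith only [hx])) h0 h0' hs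
      · push_cast at hx
        exact use_row (Or.inl rfl) o1_2_1_2 _ (by decide) (H.cut (u := 100) (v := 150) (by push_cast; linarith only [hx]) (by push_cast; linarith only [hx1])) h0 h0' hs
    case three =>
      split_ifs with hx
      · push_cast at hx
        exact use_row (Or.inl rfl) o1_2_0_0 _ (by decide) (H.cut (u := 70) (v := 100) (by push_cast; linarith only [hx0]) (by push_cast; linarith only [hx])) h0 h0' hs
      · push_cast at hx
        exact use_row (Or.inl rfl) o1_2_1_0 _ (by decide) (H.cut (u := 100) (v := 150) (by push_cast; linarith only [hx]) (by push_cast; linarith only [hx1])) h0 h0' hs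
    case threeE =>
      split_ifs with hx
      · push_cast at hx
        exact use_row (Or.inl rfl) o1_2_0_1 _ (by decide) (H.cut (u := 70) (v := 100) (by push_cast; linarith only [hx0]) (by push_cast; linarith only [hx])) h0 h0' hs
      · push_cast at hx
        exact use_row (Or.inl rfl) o1_2_1_1 _ (by decide) (H.cut (u := 100) (v := 150) (by push_cast; linarith only [hx]) (by push_cast; linarith only [hx1])) h0 h0' hs
    case ring =>
      split_ifs with hx
      · push_cast at hx
        exact use_row (Or.inl rfl) o1_2_0_0 _ (by decide) (H.cut (u := 70) (v := 100) (by push_cast; linarith only [hx0]) (by push_cast; linarith only [hx])) h0 h0' hs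
      · push_cast at hx
        exact use_row (Or.inl rfl) o1_2_1_0 _ (by decide) (H.cut (u := 100) (v := 150) (by push_cast; linarith only [hx]) (by push_cast; linarith only [hx1])) h0 h0' hs
  case twoE =>
    simp only [dO, xlz, flz] at hx0 hx1
    push_cast at hx0 hx1
    cases C
    case one =>
      exact use_row (Or.inl rfl) o1_2e_0_0 _ (by decide) H h0 h0' hs
    case two =>
      exact use_row (Or.inl rfl) o1_2e_0_0 _ (by decide) H h0 h0' hs
    case twoE =>
      exact use_row (Or.inl rfl) o1_2e_0_0 _ (by decide) H h0 h0' hs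
    case three =>
      exact use_row (Or.inl rfl) o1_2e_0_0 _ (by decide) H h0 h0' hs
    case threeE =>
      exact use_row (Or.inl rfl) o1_2e_0_0 _ (by decide) H h0 h0' hs
    case ring =>
      exact use_row (Or.inl rfl) o1_2e_0_0 _ (by decide) H h0 h0' hs
  case threeA =>
    simp only [dO, xlz, flz] at hx0 hx1
    push_cast at hx0 hx1
    cases C
    case one =>
      exact use_row (Or.inl rfl) o1_3a_0_0 _ (by decide) H h0 h0' hs
    case two =>
      exact use_row (Or.inl rfl) o1_3a_0_0 _ (by decide) H h0 h0' hs
    case twoE =>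
      exact use_row (Or.inl rfl) o1_3a_0_1 _ (by decide) H h0 h0' hs
    case three => exact absurd hok (by simp [okp, K7.cl])
    case threeE => exact absurd hok (by simp [okp, K7.cl])
    case ring => exact absurd hok (by simp [okp, K7.cl])
  case threeB =>
    simp only [dO, xlz, flz] at hx0 hx1
    push_cast at hx0 hx1
    cases C
    case one =>
      exact use_row (Or.inl rfl) o1_3b_0_0 _ (by decide) H h0 h0' hs
    case two =>
      exact use_row (Or.inl rfl) o1_3b_0_0 _ (by decide) H h0 h0' hs
    case twoE =>
      exact use_row (Or.inl rfl) o1_3b_0_1 _ (by decide) H h0 h0' hs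
    case three => exact absurd hok (by simp [okp, K7.cl])
    case threeE => exact absurd hok (by simp [okp, K7.cl])
    case ring => exact absurd hok (by simp [okp, K7.cl])
  case threeE =>
    simp only [dO, xlz, flz] at hx0 hx1
    push_cast at hx0 hx1
    cases C
    case one =>
      exact use_row (Or.inl rfl) o1_3e_0_0 _ (by decide) H h0 h0' hs
    case two =>
      exact use_row (Or.inl rfl) o1_3e_0_0 _ (by decide) H h0 h0' hs
    case twoE =>
      exact use_row (Or.inl rfl) o1_3e_0_1 _ (by decide) H h0 h0' hs
    case three => exact absurd hok (by simp [okp, K7.cl])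
    case threeE => exact absurd hok (by simp [okp, K7.cl])
    case ring => exact absurd hok (by simp [okp, K7.cl])
  case ring =>
    simp only [dO, xlz, flz] at hx0 hx1
    push_cast at hx0 hx1
    cases C
    case one =>
      exact use_row (Or.inl rfl) o1_Z_0_0 _ (by decide) H h0 h0' hs
    case two =>
      exact use_row (Or.inl rfl) o1_Z_0_0 _ (by decide) H h0 h0' hs
    case twoE =>
      exact use_row (Or.inl rfl) o1_Z_0_1 _ (by decide) H h0 h0' hs
    case three => exact absurd hok (by simp [okp, K7.cl])
    case threeE => exact absurd hok (by simp [okp, K7.cl])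
    case ring => exact absurd hok (by simp [okp, K7.cl])

theorem one_real2 (hok : okp B.cl C) (hB : B ≠ .threeA) (H : (dO 2 B C).H T x y k) (h0 : 0 < x) (h0' : 0 < y)
    (hs : x + y < 1) :
    (eO 2 B : ℝ) / 1000 < sd 1 (shO 2 B x) x (T / ((clz B : ℝ) / 1000)) y k := by
  have hx0 := H.x0
  have hx1 := H.x1
  cases B
  case one =>
    simp only [dO, xlz, flz] at hx0 hx1
    push_cast at hx0 hx1
    cases C
    case one =>
      exact use_row (Or.inl rfl) o2_1_0_0 _ (by decide) H h0 h0' hs
    case two =>
      exact use_row (Or.inl rfl) o2_1_0_0 _ (by decide) H h0 h0' hs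
    case twoE =>
      exact use_row (Or.inl rfl) o2_1_0_2 _ (by decide) H h0 h0' hs
    case three =>
      exact use_row (Or.inl rfl) o2_1_0_0 _ (by decide) H h0 h0' hs
    case threeE =>
      exact use_row (Or.inl rfl) o2_1_0_1 _ (by decide) H h0 h0' hs
    case ring =>
      exact use_row (Or.inl rfl) o2_1_0_0 _ (by decide) H h0 h0' hs
  case two =>
    simp only [dO, xlz, flz] at hx0 hx1
    push_cast at hx0 hx1
    cases C
    case one =>
      exact use_row (Or.inl rfl) o2_2_0_0 _ (by decide) H h0 h0' hs
    case two =>
      exact use_row (Or.inl rfl) o2_2_0_0 _ (by decide) H h0 h0' hs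
    case twoE =>
      exact use_row (Or.inl rfl) o2_2_0_2 _ (by decide) H h0 h0' hs
    case three =>
      exact use_row (Or.inl rfl) o2_2_0_0 _ (by decide) H h0 h0' hs
    case threeE =>
      exact use_row (Or.inl rfl) o2_2_0_1 _ (by decide) H h0 h0' hs
    case ring =>
      exact use_row (Or.inl rfl) o2_2_0_0 _ (by decide) H h0 h0' hs
  case twoE =>
    simp only [dO, xlz, flz] at hx0 hx1
    push_cast at hx0 hx1
    cases C
    case one =>
      exact use_row (Or.inl rfl) o2_2e_0_0 _ (by decide) H h0 h0' hs
    case two =>
      exact use_row (Or.inl rfl) o2_2e_0_0 _ (by decide) H h0 h0' hs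
    case twoE =>
      exact use_row (Or.inl rfl) o2_2e_0_0 _ (by decide) H h0 h0' hs
    case three =>
      exact use_row (Or.inl rfl) o2_2e_0_0 _ (by decide) H h0 h0' hs
    case threeE =>
      exact use_row (Or.inl rfl) o2_2e_0_0 _ (by decide) H h0 h0' hs
    case ring =>
      exact use_row (Or.inl rfl) o2_2e_0_0 _ (by decide) H h0 h0' hs
  case threeA =>
    exact absurd rfl hB
  case threeB =>
    simp only [dO, xlz, flz] at hx0 hx1
    push_cast at hx0 hx1
    cases C
    case one =>
      exact use_row (Or.inl rfl) o2_3b_0_0 _ (by decide) H h0 h0' hs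
    case two =>
      exact use_row (Or.inl rfl) o2_3b_0_0 _ (by decide) H h0 h0' hs
    case twoE =>
      exact use_row (Or.inl rfl) o2_3b_0_1 _ (by decide) H h0 h0' hs
    case three => exact absurd hok (by simp [okp, K7.cl])
    case threeE => exact absurd hok (by simp [okp, K7.cl])
    case ring => exact absurd hok (by simp [okp, K7.cl])
  case threeE =>
    simp only [dO, xlz, flz] at hx0 hx1
    push_cast at hx0 hx1
    cases C
    case one =>
      exact use_row (Or.inl rfl) o2_3e_0_0 _ (by decide) H h0 h0' hs
    case two =>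
      exact use_row (Or.inl rfl) o2_3e_0_0 _ (by decide) H h0 h0' hs
    case twoE =>
      exact use_row (Or.inl rfl) o2_3e_0_1 _ (by decide) H h0 h0' hs
    case three => exact absurd hok (by simp [okp, K7.cl])
    case threeE => exact absurd hok (by simp [okp, K7.cl])
    case ring => exact absurd hok (by simp [okp, K7.cl])
  case ring =>
    simp only [dO, xlz, flz] at hx0 hx1
    push_cast at hx0 hx1
    cases C
    case one =>
      exact use_row (Or.inl rfl) o2_Z_0_0 _ (by decide) H h0 h0' hs
    case two =>
      exact use_row (Or.inl rfl) o2_Z_0_0 _ (by decide) H h0 h0' hs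
    case twoE =>
      exact use_row (Or.inl rfl) o2_Z_0_1 _ (by decide) H h0 h0' hs
    case three => exact absurd hok (by simp [okp, K7.cl])
    case threeE => exact absurd hok (by simp [okp, K7.cl])
    case ring => exact absurd hok (by simp [okp, K7.cl])

theorem one_real3 (hok : okp B.cl C) (hB : B = .ring) (H : (dO 3 B C).H T x y k) (h0 : 0 < x) (h0' : 0 < y)
    (hs : x + y < 1) :
    (eO 3 B : ℝ) / 1000 < sd 1 (shO 3 B x) x (T / ((clz B : ℝ) / 1000)) y k := by
  have hx0 := H.x0
  have hx1 := H.x1
  subst hB
  simp only [dO, xlz, flz] at hx0 hx1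
  push_cast at hx0 hx1
  cases C
  case one =>
    exact use_row (Or.inl rfl) o3_Z_0_0 _ (by decide) H h0 h0' hs
  case two =>
    exact use_row (Or.inl rfl) o3_Z_0_1 _ (by decide) H h0 h0' hs
  case twoE =>
    exact use_row (Or.inl rfl) o3_Z_0_2 _ (by decide) H h0 h0' hs
  case three => exact absurd hok (by simp [okp, K7.cl])
  case threeE => exact absurd hok (by simp [okp, K7.cl])
  case ring => exact absurd hok (by simp [okp, K7.cl])

theorem Dat.H.cuty {D : Dat} (H : D.H T x y k) {v : ℤ} (h : y ≤ (v : ℝ) / 1000) :
    (({ D with y1 := v }) : Dat).H T x y k :=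
  ⟨H.x0, H.x1, H.t0, H.t1, H.a, H.s, H.y0, h, H.r⟩

/-- round `0`, the region with three crossings on the left -/
theorem one_real0B (hok : okp .three C) (H : (dO 0 .threeB C).H T x y k)
    (hk : ((850 : ℤ) : ℝ) / 1000 ≤ y → (((-4) : ℤ) : ℝ) / 1000 ≤ k) (h0 : 0 < x) (h0' : 0 < y)
    (hs : x + y < 1) :
    (eO 0 .threeB : ℝ) / 1000 < sd 1 (shO 0 .threeB x) x (T / ((clz .threeB : ℝ) / 1000)) y k := by
  have hx0 := H.x0
  have hx1 := H.x1
  simp only [dO, xlz, flz] at hx0 hx1
  push_cast at hx0 hx1
  cases C
  case one =>
    rcases le_total x (20 / 1000) with hx | hx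
    · exact use_rowN (s := -10000) (ra := 0) (rb := 1) (Or.inl rfl) o0_3b_0_0 _ (by decide) (by decide) (H.cut (u := 0) (v := 20) (by push_cast; linarith only [h0]) (by push_cast; linarith only [hx])) h0 h0' hs
    · rcases le_total y (((850 : ℤ) : ℝ) / 1000) with hy | hy
      · exact use_row (Or.inl rfl) o0_3b_1_0 _ (by decide) ((H.cut (u := 20) (v := 70) (by push_cast; linarith only [hx]) (by push_cast; linarith only [hx1])).cuty hy) h0 h0' hs
      · have h1 := H.t0
        have h2 := H.t1
        have h3 := H.s
        have h4 := H.y1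
        simp only [dO, tz, K7.cl, cpz] at h1 h2 h3 h4
        exact use_row (Or.inl rfl) o0_3b_2_0 ⟨20, 70, 210, 940, -4, -22, 850, 860, 0, 1⟩ (by decide)
          ⟨by push_cast; linarith only [hx], by push_cast; linarith only [hx1], by push_cast at h1 ⊢; linarith only [h1],
            by push_cast at h2 ⊢; linarith only [h0, hx1, h2], hk hy, by push_cast at h3 ⊢; linarith only [h3], hy,
            by push_cast at h4 ⊢; linarith only [h4], by simpa using h0'.le⟩ h0 h0' hs
  case two =>
    rcases le_total x (20 / 1000) with hx | hx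
    · exact use_rowN (s := -10000) (ra := 0) (rb := 1) (Or.inl rfl) o0_3b_0_0 _ (by decide) (by decide) (H.cut (u := 0) (v := 20) (by push_cast; linarith only [h0]) (by push_cast; linarith only [hx])) h0 h0' hs
    · exact use_row (Or.inl rfl) o0_3b_1_0 _ (by decide) (H.cut (u := 20) (v := 70) (by push_cast; linarith only [hx]) (by push_cast; linarith only [hx1])) h0 h0' hs
  case twoE =>
    rcases le_total x (20 / 1000) with hx | hx
    · exact use_rowN (s := -10000) (ra := 0) (rb := 1) (Or.inl rfl) o0_3b_0_1 _ (by decide) (by decide) (H.cut (u := 0) (v := 20) (by push_cast; linarith only [h0]) (by push_cast; linarith only [hx])) h0 h0' hs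
    · exact use_row (Or.inl rfl) o0_3b_1_1 _ (by decide) (H.cut (u := 20) (v := 70) (by push_cast; linarith only [hx]) (by push_cast; linarith only [hx1])) h0 h0' hs
  all_goals exact absurd hok (by simp [okp])

/-- data of the additional round at the hinges `1 | 1` -/
def dB (C : Cl) : Dat :=
  ⟨70, 85, (tz C .one).1, (tz C .one).2.1, ka .one C, (tz C .one).2.2, 70, cpz 0 .one C, 0, 1⟩

theorem one_real4 (hC : C ≠ .twoE) (H : (dB C).H T x y k) (h0 : 0 < x) (h0' : 0 < y)
    (hs : x + y < 1) :
    ((8 : ℤ) : ℝ) / 1000 < sd 1 (shO 0 .one x) x (T / (((150 : ℤ) : ℝ) / 1000)) y k := by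
  cases C
  case one => exact use_row (Or.inl rfl) o4_1_0_0 _ (by decide) H h0 h0' hs
  case two => exact use_row (Or.inl rfl) o4_1_0_0 _ (by decide) H h0 h0' hs
  case twoE => exact absurd rfl hC
  case three => exact use_row (Or.inl rfl) o4_1_0_0 _ (by decide) H h0 h0' hs
  case threeE => exact use_row (Or.inl rfl) o4_1_0_1 _ (by decide) H h0 h0' hs
  case ring => exact use_row (Or.inl rfl) o4_1_0_0 _ (by decide) H h0 h0' hs

/-- data of a hinge `1 | 1` with nonnegative height in the round `2` -/
def dP (C : Cl) : Dat :=
  ⟨125, 150, 0, (tz C .one).2.1, ka .one C, (tz C .one).2.2, ylz 2 C, cpz 2 .one C, raz 2 C, 150⟩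

theorem one_real5 (H : (dP C).H T x y k) (h0 : 0 < x) (h0' : 0 < y) (hs : x + y < 1) :
    ((80 : ℤ) : ℝ) / 1000 < sd 1 (shO 2 .one x) x (T / (((150 : ℤ) : ℝ) / 1000)) y k := by
  cases C
  case one => exact use_row (Or.inl rfl) o5_1_0_0 _ (by decide) H h0 h0' hs
  case two => exact use_row (Or.inl rfl) o5_1_0_0 _ (by decide) H h0 h0' hs
  case twoE => exact use_row (Or.inl rfl) o5_1_0_2 _ (by decide) H h0 h0' hs
  case three => exact use_row (Or.inl rfl) o5_1_0_0 _ (by decide) H h0 h0' hs
  case threeE => exact use_row (Or.inl rfl) o5_1_0_1 _ (by decide) H h0 h0' hs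
  case ring => exact use_row (Or.inl rfl) o5_1_0_0 _ (by decide) H h0 h0' hs

end ML

end Pool.Agent.Work.MP_b30479_gt.G2
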