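import Pool.Agent.Work.MP_b30479_gt.G2.WLocX

/-!
# Consequences of the location facts
-/

namespace Pool.Agent.Work.MP_b30479_gt.G2

namespace SR

variable {M : ℕ} {b : Fin (M + 1) → ℤ} {zs : DD (tyW b) ⊕ ZZ (tyW b) → ℂ}
variable {h h' : Fin M} {i j j' : Fin (M + 1)} {p : Fin 3}

/-- a digit `±1` has another hinge -/
theorem Adj.other_one (A : Adj h i p j) (hb : ClassW b) (hc : clsW b i = .one) :
    ∃ h' j', Adj h' i p.rev j' := by
  rcases A.other b (zs := fun _ => 0) (y := fun _ => 0) with ⟨he, -⟩ | ⟨-, h', j', A'⟩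
  · have := clsW_inner hb (Or.inl hc)
    rw [this] at he
    exact absurd he (by decide)
  · exact ⟨h', j', A'⟩

theorem cw_one_le (P : Cl) : (cw P .one).t1 ≤ 80 / 1000 := by
  cases P <;> simp only [cw] <;> norm_num

/-- the height of a hinge `1 | 1` -/
theorem LocX.t11 (hX : LocX b zs) (hb : ClassW b) (A : Adj h i p j) (hi : clsW b i = .one)
    (hj : clsW b j = .one) : |ofs (b i) (zs (.inl (.inl h))).im| ≤ 80 / 1000 := by
  have hop := A.opp hb (Or.inl (by rw [hi]; decide))
  obtain ⟨h1, j1, A1⟩ := A.other_one hb hi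
  obtain ⟨h2, j2, A2⟩ := A.symm.other_one hb hj
  have g1 := (hX.win A A1 hi).2.1
  have g2 := (hX.win A.symm A2 hj).2.1
  rw [hj] at g1
  rw [hi, ofs_opp hop] at g2
  have k1 := cw_one_le (clsW b j1)
  have k2 := cw_one_le (clsW b j2)
  rw [abs_le]
  constructor <;> linarith

end SR

end Pool.Agent.Work.MP_b30479_gt.G2
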