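import Pool.Agent.Work.MP_b30479_gt.G2.WTab
import Pool.Agent.Work.MP_b30479_gt.G2.WLocY
import Pool.Agent.Work.MP_b30479_gt.G2.MLSD

/-!
# The left ramps: sides of the digits `1` and `2` in a word
-/

namespace Pool.Agent.Work.MP_b30479_gt.G2

open Finset VOL Filter Topology

namespace SR

open ML

variable {M : ℕ} {b : Fin (M + 1) → ℤ} {zs : DD (tyW b) ⊕ ZZ (tyW b) → ℂ}
variable {y : DD (tyW b) ⊕ ZZ (tyW b) → ℝ}
variable {h h' : Fin M} {i j j' : Fin (M + 1)} {p : Fin 3}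

/-! ### hinges on the left ramp -/

theorem Adj.rr (A : Adj h i p j) : Adj h i p.rev.rev j := by
  rw [Fin.rev_rev]
  exact A

/-- the own hinge on its left ramp -/
theorem Adj.Yw_ramp (A : Adj h i p j) (hy : Mx b zs y) (hx : y (.inl (.inl h)) ≤ wcl b h) :
    Yw b zs y i p = lv (y (.inl (.inl h)))
      (y (.inl (.inl h)) * (ofs (b i) (zs (.inl (.inl h))).im / wcl b h)) := by
  have r := A.rh hy
  obtain ⟨g1, g2, g3⟩ := A.good (b := b)
  have e := A.re (zs := zs) (y := y)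
  apply Complex.ext
  · rw [lv_re, e]
  · rw [lv_im, r.im, e, tr_a g1 g2 g3 (by rw [← e]; exact r.re0) hx]
    ring

theorem Adj.Yw_lv (A : Adj h i p j) : Yw b zs y i p = lv (y (.inl (.inl h))) (Yw b zs y i p).im := by
  apply Complex.ext
  · rw [lv_re, A.re]
  · rw [lv_im]

/-- lower bound for the height of a hinge on its path -/
theorem Adj.im_low (A : Adj h i p j) (hy : Mx b zs y) {a : ℝ} (ha : a ≤ 0)
    (hK : a ≤ ofs (b i) (zs (.inl (.inl h))).im) : a ≤ (Yw b zs y i p).im := by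
  have r := A.rh hy
  rw [r.im]
  have h0 : 0 ≤ tr 0 (wXM b h) (wcl b h) (wcr b h) (Yw b zs y i p).re := le_max_left _ _
  have h1 : tr 0 (wXM b h) (wcl b h) (wcr b h) (Yw b zs y i p).re ≤ 1 :=
    max_le zero_le_one (min_le_left _ _)
  nlinarith only [ha, h1, hK, h0]

/-- the side of a digit `1` on the left ramp -/
theorem Adj.one_sd (A : Adj h i p j) (A' : Adj h' i p.rev j') (hb : ClassW b) (hy : Mx b zs y)
    (hc : clsW b i = .one) (hx : y (.inl (.inl h)) ≤ wcl b h) (h0 : 0 < y (.inl (.inl h)))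
    (h0' : 0 < y (.inl (.inl h'))) (hs : y (.inl (.inl h)) + y (.inl (.inl h')) < 1) (c : ℝ) :
    Sw b zs y i p ((zs (.inl (.inl h))).im / wcl b h) +
      c * ofs (b i) ((zs (.inl (.inl h))).im / wcl b h) =
    sd 1 c (y (.inl (.inl h))) (ofs (b i) (zs (.inl (.inl h))).im / wcl b h) (y (.inl (.inl h')))
      (Yw b zs y i p.rev).im := by
  rw [A.side_one hb hc, A.Yw_ramp hy hx, A'.Yw_lv, ofs_div, lv_im]
  exact S1_sd c h0 h0' hs

/-- the side of a digit `2` on the left ramp -/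
theorem Adj.two_sd (A : Adj h i p j) (A' : Adj h' i p.rev j') (hb : ClassW b) (hy : Mx b zs y)
    (hc : clsW b i = .two) (hx : y (.inl (.inl h)) ≤ wcl b h) (h0 : 0 < y (.inl (.inl h)))
    (h0' : 0 < y (.inl (.inl h'))) (hs : y (.inl (.inl h)) + y (.inl (.inl h')) < 1) (c : ℝ) :
    Sw b zs y i p ((zs (.inl (.inl h))).im / wcl b h) +
      c * ofs (b i) ((zs (.inl (.inl h))).im / wcl b h) =
    sd 2 c (y (.inl (.inl h))) (ofs (b i) (zs (.inl (.inl h))).im / wcl b h) (y (.inl (.inl h')))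
      (Yw b zs y i p.rev).im := by
  rw [A.side_two hb (Or.inl hc), A.Yw_ramp hy hx, A'.Yw_lv, ofs_div, lv_im]
  exact S2_sd c h0 h0' hs

/-- the side of a digit `2` at an end on the left ramp -/
theorem Adj.twoE_sE (A : Adj h i p j) (hb : ClassW b) (hy : Mx b zs y)
    (hc : clsW b i = .twoE) (hx : y (.inl (.inl h)) ≤ wcl b h) (h0 : 0 < y (.inl (.inl h)))
    (hs : y (.inl (.inl h)) < 1) (c : ℝ) :
    Sw b zs y i p ((zs (.inl (.inl h))).im / wcl b h) +
      c * ofs (b i) ((zs (.inl (.inl h))).im / wcl b h) =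
    sE c (y (.inl (.inl h))) (ofs (b i) (zs (.inl (.inl h))).im / wcl b h) := by
  have h00 : Yw b zs y i p.rev = 0 := by
    rcases A.other b zs y with ⟨-, h0⟩ | ⟨he', -⟩
    · exact h0
    · rw [clsW_end (Or.inl hc)] at he'
      exact absurd he' (by decide)
  rw [A.side_two hb (Or.inr hc), A.Yw_ramp hy hx, h00, ofs_div]
  exact S2_sE c h0 hs

/-! ### tables -/

theorem tz_t0 (B C : Cl) {T : ℝ} (h : (cw C B).t0 ≤ T) (h' : B = .one → -(80 / 1000) ≤ T) :
    ((tz C B).1 : ℝ) / 10000 ≤ T := by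
  cases B <;> cases C <;> simp only [cw, hbox] at h <;> simp only [tz] <;>
    first | (have := h' rfl; push_cast; linarith only [this, h]) | (push_cast; linarith only [h])

theorem tz_t1 (B C : Cl) {T : ℝ} (h : T ≤ (cw C B).t1) : T ≤ ((tz C B).2.1 : ℝ) / 10000 := by
  cases B <;> cases C <;> simp only [cw, hbox] at h <;> simp only [tz] <;>
    (push_cast; linarith only [h])

theorem tz_s (B C : Cl) {S : ℝ} (h : (cw C B).s0 ≤ S) : ((tz C B).2.2 : ℝ) / 1000 ≤ S := by
  cases B <;> cases C <;> simp only [cw] at h <;> simp only [tz] <;> (push_cast; linarith only [h])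

theorem tz_s' (B C : Cl) : (tz C B).2.2 * 10 ≤ (tz C B).1 := by
  cases B <;> cases C <;> decide

theorem ka_nonpos (B C : Cl) : ka B C ≤ 0 := min_le_left _ _

theorem ka_le (B C : Cl) : ka B C * 10 ≤ (tz B C).1 := by
  cases B <;> cases C <;> decide

/-- the ranges of the heights of the hinges of a digit `1` -/
theorem Adj.ran (A : Adj h i p j) (A' : Adj h' i p.rev j') (hb : ClassW b) (hX : LocX b zs)
    (hc : clsW b i = .one) :
    ((tz (clsW b j') (clsW b j)).1 : ℝ) / 10000 ≤ ofs (b i) (zs (.inl (.inl h))).im ∧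
    ofs (b i) (zs (.inl (.inl h))).im ≤ ((tz (clsW b j') (clsW b j)).2.1 : ℝ) / 10000 ∧
    ((tz (clsW b j') (clsW b j)).2.2 : ℝ) / 1000 ≤
      ofs (b i) (zs (.inl (.inl h))).im + ofs (b i) (zs (.inl (.inl h'))).im ∧
    (ka (clsW b j) (clsW b j') : ℝ) / 1000 ≤ ofs (b i) (zs (.inl (.inl h'))).im := by
  obtain ⟨w1, w2, w3, -⟩ := hX.win A A' hc
  obtain ⟨v1, -, -, -⟩ := hX.win A' A.rr hc
  have k1 : clsW b j = .one → -(80 / 1000) ≤ ofs (b i) (zs (.inl (.inl h))).im := fun h1 =>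
    (abs_le.1 (hX.t11 hb A hc h1)).1
  have k2 : clsW b j' = .one → -(80 / 1000) ≤ ofs (b i) (zs (.inl (.inl h'))).im := fun h1 =>
    (abs_le.1 (hX.t11 hb A' hc h1)).1
  refine ⟨tz_t0 _ _ w1 k1, tz_t1 _ _ w2, tz_s _ _ w3, le_trans ?_ (tz_t0 _ _ v1 k2)⟩
  have : (ka (clsW b j) (clsW b j') : ℝ) * 10 ≤ ((tz (clsW b j) (clsW b j')).1 : ℝ) := by
    exact_mod_cast ka_le _ _
  linarith only [this]

/-- the data of the side of a digit `1` -/
theorem Adj.one_H (A : Adj h i p j) (A' : Adj h' i p.rev j') (hb : ClassW b) (hX : LocX b zs)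
    (hy : Mx b zs y) (hc : clsW b i = .one) {n : ℕ}
    (x0 : (xlz n (k7 p (clsW b j)) : ℝ) / 1000 ≤ y (.inl (.inl h)))
    (x1 : y (.inl (.inl h)) ≤ (flz n (k7 p (clsW b j)) : ℝ) / 1000)
    (y0 : (ylz n (clsW b j') : ℝ) / 1000 ≤ y (.inl (.inl h')))
    (y1 : y (.inl (.inl h')) ≤ (cpz n (k7 p (clsW b j)) (clsW b j') : ℝ) / 1000)
    (r : (raz n (clsW b j') : ℝ) / (flz n (k7 p (clsW b j)) : ℝ) * y (.inl (.inl h)) ≤
      y (.inl (.inl h'))) :
    (dO n (k7 p (clsW b j)) (clsW b j')).H (ofs (b i) (zs (.inl (.inl h))).im)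
      (y (.inl (.inl h))) (y (.inl (.inl h'))) (Yw b zs y i p.rev).im := by
  obtain ⟨w1, w2, w3, w4⟩ := A.ran A' hb hX hc
  have hf : (((flz n (k7 p (clsW b j))).toNat : ℕ) : ℝ) = (flz n (k7 p (clsW b j)) : ℝ) := by
    have h0 : 0 ≤ flz n (k7 p (clsW b j)) := by
      generalize k7 p (clsW b j) = K
      rcases n with - | - | - | n <;> cases K <;> simp [flz]
    have : (((flz n (k7 p (clsW b j))).toNat : ℕ) : ℤ) = flz n (k7 p (clsW b j)) :=
      Int.toNat_of_nonneg h0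
    exact_mod_cast this
  refine ⟨x0, x1, ?_, ?_, ?_, ?_, y0, y1, ?_⟩
  · simp only [dO, k7_cl]; exact w1
  · simp only [dO, k7_cl]; exact w2
  · simp only [dO, k7_cl]
    refine A'.im_low hy ?_ w4
    have : (ka (clsW b j) (clsW b j') : ℝ) ≤ 0 := by exact_mod_cast ka_nonpos _ _
    linarith only [this]
  · simp only [dO, k7_cl]
    have h1 : ((tz (clsW b j') (clsW b j)).2.2 : ℝ) * 10 ≤ ((tz (clsW b j') (clsW b j)).1 : ℝ) := by
      exact_mod_cast tz_s' _ _
    exact A'.im_low hy (by linarith only [w1, h1]) (by linarith only [w3])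
  · simp only [dO]
    rw [hf]
    exact r

/-! ### parameters of the hinges of a digit `1` -/

theorem Adj.cl_one (A : Adj h i p j) (hc : clsW b i = .one) :
    wcl b h = (clz (k7 p (clsW b j)) : ℝ) / 1000 := by
  have e1 : ¬ (0 : Fin 3) = 2 := by decide
  rw [A.cl_eq b, hc]
  generalize clsW b j = B
  unfold hpp
  rcases A.slot with rfl | rfl
  · rw [if_neg (by decide)]
    cases B <;> simp only [hp, hp1, k7, e1, if_false] <;> (try split_ifs) <;> simp only [clz] <;>
      norm_num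
  · rw [if_pos rfl]
    cases B <;> simp only [hp, hp1, k7, if_true] <;> (try split_ifs) <;> simp only [clz] <;>
      norm_num

theorem XM_tab (q : Fin 3) (K : K7) (C Q : Cl) :
    (hpp q K.cl .one C Q).XM ≤ (cpz 0 K C : ℝ) / 1000 := by
  unfold hpp
  by_cases hq : q = 2
  · rw [if_pos hq]
    cases K <;> cases C <;> simp only [K7.cl, hp, hp1, cpz] <;> (try split_ifs) <;> norm_num at *
  · rw [if_neg hq]
    cases K <;> cases C <;> simp only [K7.cl, hp, hp1, cpz] <;> (try split_ifs) <;> norm_num at *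

theorem Adj.XM_one (A : Adj h i p j) (A' : Adj h' i p.rev j') (hc : clsW b i = .one) :
    wXM b h' ≤ (cpz 0 (k7 p (clsW b j)) (clsW b j') : ℝ) / 1000 := by
  rw [A'.XM_eq b, hc, A.rr.oc_eq]
  have := XM_tab p.rev (k7 p (clsW b j)) (clsW b j') (oc b j' p.rev)
  rwa [k7_cl] at this

theorem F0_one (p : Fin 3) (B : Cl) : F0 p .one B = (flz 0 (k7 p B) : ℝ) / 1000 := by
  cases B <;> simp only [F0, k7, flz] <;> norm_num

theorem F1_one (hp : p = 0 ∨ p = 2) (B : Cl) : F1 p .one B = (flz 1 (k7 p B) : ℝ) / 1000 := by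
  have e1 : ¬ (0 : Fin 3) = 2 := by decide
  have e2 : ¬ (2 : Fin 3) = 0 := by decide
  rcases hp with rfl | rfl <;> cases B <;> simp only [F1, k7, e1, e2, if_true, if_false] <;>
    simp only [flz] <;> norm_num

theorem F2_one (hp : p = 0 ∨ p = 2) (B : Cl) : F2 p .one B = (flz 2 (k7 p B) : ℝ) / 1000 := by
  have e1 : ¬ (0 : Fin 3) = 2 := by decide
  have e2 : ¬ (2 : Fin 3) = 0 := by decide
  rcases hp with rfl | rfl <;> cases B <;> simp only [F2, k7, e1, e2, if_true, if_false] <;>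
    simp only [flz] <;> norm_num

theorem sum_lt {n : ℕ} (hn : n ≤ 3) (K : K7) (C : Cl) : flz n K + cpz n K C < 1000 := by
  interval_cases n <;> cases K <;> cases C <;> decide

theorem flz_pos (n : ℕ) (K : K7) : 0 < flz n K := by
  rcases n with - | - | - | n <;> cases K <;> simp [flz]

theorem ylz_one1 (q : Fin 3) (C : Cl) : (ylz 1 C : ℝ) / 1000 ≤ F0 q .one C := by
  cases C <;> simp only [F0, ylz] <;> norm_num

theorem ylz_one2 (q : Fin 3) (C : Cl) : (ylz 2 C : ℝ) / 1000 ≤ F1 q .one C := by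
  cases C <;> simp only [F1, ylz] <;> (try split_ifs) <;> norm_num

theorem raz_one0 (q : Fin 3) (C : Cl) : (raz 0 C : ℝ) / 1000 ≤ F0 q .one C := by
  cases C <;> simp only [F0, raz] <;> norm_num

theorem raz_one1 (q : Fin 3) (C : Cl) : (raz 1 C : ℝ) / 1000 ≤ F1 q .one C := by
  cases C <;> simp only [F1, raz] <;> (try split_ifs) <;> norm_num

theorem raz_one2 (q : Fin 3) (C : Cl) : (raz 2 C : ℝ) / 1000 ≤ F2 q .one C := by
  cases C <;> simp only [F2, raz] <;> (try split_ifs) <;> norm_num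

/-- the ratio from the order of the round -/
theorem ratio_of {f f' x x' : ℝ} {r : ℤ} {g : ℤ} (hf : f = (g : ℝ) / 1000) (hg : 0 < g)
    (hf' : (r : ℝ) / 1000 ≤ f') (hf0 : 0 < f') (h0 : 0 < x) (h : x / f ≤ x' / f') :
    (r : ℝ) / g * x ≤ x' := by
  have hg' : (0 : ℝ) < g := by exact_mod_cast hg
  have hfp : 0 < f := by rw [hf]; positivity
  rw [div_le_div_iff₀ hfp hf0, hf] at h
  rw [div_mul_eq_mul_div, div_le_iff₀ hg']
  have h1 := mul_le_mul_of_nonneg_left hf' h0.le
  nlinarith only [h, h1]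

/-- **A digit `1` on the left ramp, any round.** -/
theorem Adj.one_gen (A : Adj h i p j) (A' : Adj h' i p.rev j') (hb : ClassW b) (hX : LocX b zs)
    (hy : Mx b zs y) (hpos : ∀ h : Fin M, 0 < y (.inl (.inl h))) (hc : clsW b i = .one)
    {n : ℕ} (hn : n ≤ 3) (hcl : (flz n (k7 p (clsW b j)) : ℝ) / 1000 ≤ wcl b h)
    (hreal : ∀ {T x y' k : ℝ}, (dO n (k7 p (clsW b j)) (clsW b j')).H T x y' k → 0 < x → 0 < y' →
      x + y' < 1 → (eO n (k7 p (clsW b j)) : ℝ) / 1000 < sd 1 (shO n (k7 p (clsW b j)) x) x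
        (T / ((clz (k7 p (clsW b j)) : ℝ) / 1000)) y' k)
    (x0 : (xlz n (k7 p (clsW b j)) : ℝ) / 1000 ≤ y (.inl (.inl h)))
    (x1 : y (.inl (.inl h)) ≤ (flz n (k7 p (clsW b j)) : ℝ) / 1000)
    (y0 : (ylz n (clsW b j') : ℝ) / 1000 ≤ y (.inl (.inl h')))
    (y1 : y (.inl (.inl h')) ≤ (cpz n (k7 p (clsW b j)) (clsW b j') : ℝ) / 1000)
    (r : (raz n (clsW b j') : ℝ) / (flz n (k7 p (clsW b j)) : ℝ) * y (.inl (.inl h)) ≤
      y (.inl (.inl h'))) :
    (eO n (k7 p (clsW b j)) : ℝ) / 1000 ≤ Sw b zs y i p ((zs (.inl (.inl h))).im / wcl b h) +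
      shO n (k7 p (clsW b j)) (y (.inl (.inl h))) *
        ofs (b i) ((zs (.inl (.inl h))).im / wcl b h) := by
  have hs : y (.inl (.inl h)) + y (.inl (.inl h')) < 1 := by
    have h1 : (flz n (k7 p (clsW b j)) : ℝ) + (cpz n (k7 p (clsW b j)) (clsW b j') : ℝ) < 1000 := by
      exact_mod_cast sum_lt hn _ _
    linarith only [x1, y1, h1]
  have h1 := hreal (A.one_H A' hb hX hy hc x0 x1 y0 y1 r) (hpos h) (hpos h') hs
  rw [A.one_sd A' hb hy hc (x1.trans hcl) (hpos h) (hpos h') hs]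
  rw [← A.cl_one hc] at h1
  exact h1.le

theorem Adj.one_ok (A : Adj h i p j) (A' : Adj h' i p.rev j') (hb : ClassW b)
    (hc : clsW b i = .one) : okp (k7 p (clsW b j)).cl (clsW b j') := by
  rw [k7_cl]
  exact okp_of hb A A' hc

/-- a hinge `1 | 1` close to the end of its path -/
theorem Adj.im_top (A : Adj h i p j) (hX : LocX b zs) (hb : ClassW b) (hy : Mx b zs y)
    (hc : clsW b i = .one) (hj : clsW b j = .one) (h0 : 85 / 100 ≤ y (.inl (.inl h))) :
    -(4 / 1000) ≤ (Yw b zs y i p).im := by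
  have r := A.rh hy
  obtain ⟨g1, g2, g3⟩ := A.good (b := b)
  have hM := r.reM
  rw [A.re] at hM
  have hpar : (wXM b h = 86 / 100 ∨ wXM b h = 80 / 100) ∧ wcr b h = 20 / 100 := by
    rw [A.XM_eq b, A.cr_eq b, hc, hj]
    unfold hpp
    split_ifs <;> simp only [hp] <;> split_ifs <;> norm_num
  obtain ⟨p1, p2⟩ := hpar
  have hX86 : wXM b h = 86 / 100 := by
    rcases p1 with p1 | p1
    · exact p1
    · rw [p1] at hM
      linarith only [h0, hM]
  have h1 : wXM b h - wcr b h ≤ y (.inl (.inl h)) := by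
    rw [hX86, p2]
    linarith only [h0, g2, p2]
  have t11 := (abs_le.1 (hX.t11 hb A hc hj)).1
  rw [r.im, A.re, tr_c g1 g2 g3 h1 hM, hX86, p2]
  rw [hX86] at hM
  have h2 : 0 ≤ (86 / 100 - y (.inl (.inl h))) / (20 / 100) := by
    apply div_nonneg <;> linarith only [hM, g2, p2]
  have h3 : (86 / 100 - y (.inl (.inl h))) / (20 / 100) ≤ 5 / 100 := by
    rw [div_le_iff₀ (by norm_num)]
    linarith only [h0]
  nlinarith only [h0, hM, t11]

/-- **A digit `1` in the round `L0`.** -/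
theorem Adj.one_L0 (A : Adj h i p j) (A' : Adj h' i p.rev j') (hb : ClassW b) (hX : LocX b zs)
    (hy : Mx b zs y) (hpos : ∀ h : Fin M, 0 < y (.inl (.inl h))) (hc : clsW b i = .one)
    (hx : y (.inl (.inl h)) < F0 p (clsW b i) (clsW b j))
    (ho : y (.inl (.inl h)) / F0 p (clsW b i) (clsW b j) ≤
      y (.inl (.inl h')) / F0 p.rev (clsW b i) (clsW b j')) :
    (eO 0 (k7 p (clsW b j)) : ℝ) / 1000 ≤ Sw b zs y i p ((zs (.inl (.inl h))).im / wcl b h) +
      shO 0 (k7 p (clsW b j)) (y (.inl (.inl h))) *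
        ofs (b i) ((zs (.inl (.inl h))).im / wcl b h) := by
  have e1 := F0_one p (clsW b j)
  have hcl : (flz 0 (k7 p (clsW b j)) : ℝ) / 1000 ≤ wcl b h := by
    have := F0_wcl (b := b) h
    rwa [← A.tab F0_sym b, hc, e1] at this
  rw [hc] at hx ho
  have x0 : (xlz 0 (k7 p (clsW b j)) : ℝ) / 1000 ≤ y (.inl (.inl h)) := by
    have := (hpos h).le
    simpa [xlz] using this
  have x1 : y (.inl (.inl h)) ≤ (flz 0 (k7 p (clsW b j)) : ℝ) / 1000 := by rw [← e1]; exact hx.le
  have y0 : (ylz 0 (clsW b j') : ℝ) / 1000 ≤ y (.inl (.inl h')) := by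
    have := (hpos h').le
    simpa [ylz] using this
  have y1 : y (.inl (.inl h')) ≤ (cpz 0 (k7 p (clsW b j)) (clsW b j') : ℝ) / 1000 := by
    have := (A'.rh hy).reM
    rw [A'.re] at this
    exact this.trans (A.XM_one A' hc)
  have hr : (raz 0 (clsW b j') : ℝ) / (flz 0 (k7 p (clsW b j)) : ℝ) * y (.inl (.inl h)) ≤
      y (.inl (.inl h')) := ratio_of e1 (flz_pos _ _) (raz_one0 _ _) (F0_pos _ _ _) (hpos h) ho
  by_cases hB : k7 p (clsW b j) = .threeB
  · have H := A.one_H A' hb hX hy hc x0 x1 y0 y1 hr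
    have hok := A.one_ok A' hb hc
    have hs : y (.inl (.inl h)) + y (.inl (.inl h')) < 1 := by
      have h1 : (flz 0 (k7 p (clsW b j)) : ℝ) + (cpz 0 (k7 p (clsW b j)) (clsW b j') : ℝ) < 1000 := by
        exact_mod_cast sum_lt (by norm_num) _ _
      linarith only [hx, e1, y1, h1]
    have hcl' := A.cl_one hc
    have hs1 := A.one_sd A' hb hy hc (x1.trans hcl) (hpos h) (hpos h') hs
      (shO 0 (k7 p (clsW b j)) (y (.inl (.inl h))))
    rw [hs1, hcl']
    rw [hB] at H hok ⊢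
    refine (one_real0B hok H ?_ (hpos h) (hpos h') hs).le
    intro h85
    push_cast at h85 ⊢
    by_cases hj' : clsW b j' = .one
    · have := A'.im_top hX hb hy hc hj' (by linarith only [h85])
      linarith only [this]
    · exfalso
      rw [hB] at y1
      have : (cpz 0 .threeB (clsW b j') : ℝ) ≤ 800 := by
        generalize clsW b j' = C at *
        cases C <;> first
          | exact absurd rfl hj'
          | (simp only [cpz]; norm_num)
      linarith only [y1, h85, this]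
  · exact A.one_gen A' hb hX hy hpos hc (by norm_num) hcl
      (fun H h0 h0' hs => one_real0 (A.one_ok A' hb hc) hB H h0 h0' hs) x0 x1 y0 y1 hr

/-- **A digit `1` in the round `L1`.** -/
theorem Adj.one_L1 (A : Adj h i p j) (A' : Adj h' i p.rev j') (hb : ClassW b) (hX : LocX b zs)
    (hy : Mx b zs y) (hpos : ∀ h : Fin M, 0 < y (.inl (.inl h))) (hF : Flr b y F0)
    (hc : clsW b i = .one)
    (hcap : y (.inl (.inl h')) ≤ (cpz 1 (k7 p (clsW b j)) (clsW b j') : ℝ) / 1000)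
    (hx : y (.inl (.inl h)) < F1 p (clsW b i) (clsW b j))
    (ho : y (.inl (.inl h)) / F1 p (clsW b i) (clsW b j) ≤
      y (.inl (.inl h')) / F1 p.rev (clsW b i) (clsW b j')) :
    (eO 1 (k7 p (clsW b j)) : ℝ) / 1000 ≤ Sw b zs y i p ((zs (.inl (.inl h))).im / wcl b h) +
      shO 1 (k7 p (clsW b j)) (y (.inl (.inl h))) *
        ofs (b i) ((zs (.inl (.inl h))).im / wcl b h) := by
  have e1 := F1_one A.slot (clsW b j)
  have hcl : (flz 1 (k7 p (clsW b j)) : ℝ) / 1000 ≤ wcl b h := by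
    have := F1_wcl (b := b) h
    rwa [← A.tab F1_sym b, hc, e1] at this
  have f1 := hF A
  have f2 := hF A'
  rw [hc] at hx ho f1 f2
  refine A.one_gen A' hb hX hy hpos hc (by norm_num) hcl
    (fun H h0 h0' hs => one_real1 (A.one_ok A' hb hc) H h0 h0' hs) ?_ (by rw [← e1]; exact hx.le) ?_
    hcap ?_
  · rw [F0_one] at f1
    exact f1
  · exact (ylz_one1 _ _).trans f2
  · exact ratio_of e1 (flz_pos _ _) (raz_one1 _ _) (F1_pos _ _ _) (hpos h) ho

/-- **A digit `1` in the round `L2`.** -/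
theorem Adj.one_L2 (A : Adj h i p j) (A' : Adj h' i p.rev j') (hb : ClassW b) (hX : LocX b zs)
    (hy : Mx b zs y) (hpos : ∀ h : Fin M, 0 < y (.inl (.inl h))) (hF : Flr b y F1)
    (hc : clsW b i = .one)
    (hcap : y (.inl (.inl h')) ≤ (cpz 2 (k7 p (clsW b j)) (clsW b j') : ℝ) / 1000)
    (hx : y (.inl (.inl h)) < F2 p (clsW b i) (clsW b j))
    (ho : y (.inl (.inl h)) / F2 p (clsW b i) (clsW b j) ≤
      y (.inl (.inl h')) / F2 p.rev (clsW b i) (clsW b j')) :
    (eO 2 (k7 p (clsW b j)) : ℝ) / 1000 ≤ Sw b zs y i p ((zs (.inl (.inl h))).im / wcl b h) +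
      shO 2 (k7 p (clsW b j)) (y (.inl (.inl h))) *
        ofs (b i) ((zs (.inl (.inl h))).im / wcl b h) := by
  have e1 := F2_one A.slot (clsW b j)
  have hcl : (flz 2 (k7 p (clsW b j)) : ℝ) / 1000 ≤ wcl b h := by
    have := F2_wcl (b := b) h
    rwa [← A.tab F2_sym b, hc, e1] at this
  have f1 := hF A
  have f2 := hF A'
  rw [hc] at hx ho f1 f2
  have hB : k7 p (clsW b j) ≠ .threeA := by
    intro hK
    have h1 : F2 p .one (clsW b j) = F1 p .one (clsW b j) := by
      rw [F2_one A.slot, F1_one A.slot, hK]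
      simp [flz]
    rw [h1] at hx
    linarith only [hx, f1]
  refine A.one_gen A' hb hX hy hpos hc (by norm_num) hcl
    (fun H h0 h0' hs => one_real2 (A.one_ok A' hb hc) hB H h0 h0' hs) ?_ (by rw [← e1]; exact hx.le) ?_
    hcap ?_
  · rw [F1_one A.slot] at f1
    exact f1
  · exact (ylz_one2 _ _).trans f2
  · exact ratio_of e1 (flz_pos _ _) (raz_one2 _ _) (F2_pos _ _ _) (hpos h) ho

/-- **A hinge `1 | 1` with nonnegative height in the round `L2`.** -/
theorem Adj.one_L2p (A : Adj h i p j) (A' : Adj h' i p.rev j') (hb : ClassW b) (hX : LocX b zs)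
    (hy : Mx b zs y) (hpos : ∀ h : Fin M, 0 < y (.inl (.inl h))) (hF : Flr b y F1)
    (hc : clsW b i = .one) (hj : clsW b j = .one)
    (hT : 0 ≤ ofs (b i) (zs (.inl (.inl h))).im)
    (hcap : y (.inl (.inl h')) ≤ (cpz 2 .one (clsW b j') : ℝ) / 1000)
    (hx : y (.inl (.inl h)) < F2 p (clsW b i) (clsW b j))
    (ho : y (.inl (.inl h)) / F2 p (clsW b i) (clsW b j) ≤
      y (.inl (.inl h')) / F2 p.rev (clsW b i) (clsW b j')) :
    (8 : ℝ) / 100 ≤ Sw b zs y i p ((zs (.inl (.inl h))).im / wcl b h) +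
      shO 2 .one (y (.inl (.inl h))) * ofs (b i) ((zs (.inl (.inl h))).im / wcl b h) := by
  obtain ⟨w1, w2, w3, w4⟩ := A.ran A' hb hX hc
  have e1 := F2_one A.slot (clsW b j)
  have hk : k7 p (clsW b j) = .one := by rw [hj]; rfl
  have hcl : wcl b h = ((150 : ℤ) : ℝ) / 1000 := by
    rw [A.cl_one hc, hk]
    rfl
  have f1 := hF A
  have f2 := hF A'
  rw [hc] at hx ho f1 f2
  have r := ratio_of e1 (flz_pos _ _) (raz_one2 p.rev (clsW b j')) (F2_pos _ _ _) (hpos h) ho
  rw [e1] at hx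
  rw [F1_one A.slot] at f1
  rw [hk] at hx f1 r
  simp only [flz] at hx f1 r
  push_cast at hx f1 r
  rw [hj] at w1 w2 w3 w4
  have hs : y (.inl (.inl h)) + y (.inl (.inl h')) < 1 := by
    have h1 : cpz 2 .one (clsW b j') ≤ (650 : ℤ) := by
      generalize clsW b j' = C
      cases C <;> decide
    have h2 : (cpz 2 .one (clsW b j') : ℝ) ≤ 650 := by exact_mod_cast h1
    linarith only [hcap, hx, f1, h2]
  have H : (dP (clsW b j')).H (ofs (b i) (zs (.inl (.inl h))).im)
      (y (.inl (.inl h))) (y (.inl (.inl h'))) (Yw b zs y i p.rev).im := by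
    refine ⟨?_, ?_, ?_, w2, ?_, ?_, (ylz_one2 _ _).trans f2, hcap, ?_⟩
    · simp only [dP]; push_cast; linarith only [f1]
    · simp only [dP]; push_cast; linarith only [hx]
    · simp only [dP]; push_cast; linarith only [hT]
    · simp only [dP]
      refine A'.im_low hy ?_ w4
      have : (ka .one (clsW b j') : ℝ) ≤ 0 := by exact_mod_cast ka_nonpos _ _
      linarith only [this]
    · simp only [dP]
      have h1 : ((tz (clsW b j') .one).2.2 : ℝ) * 10 ≤ ((tz (clsW b j') .one).1 : ℝ) := by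
        exact_mod_cast tz_s' _ _
      exact A'.im_low hy (by linarith only [w1, h1]) (by linarith only [w3])
    · simp only [dP]
      push_cast
      linarith only [r]
  have := one_real5 H (hpos h) (hpos h') hs
  rw [← hcl] at this
  rw [A.one_sd A' hb hy hc (by rw [hcl]; push_cast; linarith only [hx]) (hpos h) (hpos h') hs]
  push_cast at this
  linarith only [this]

/-- **A digit `1` in the round `L3`** (next to a ring), after the rows on the flat parts. -/
theorem Adj.one_L3 (A : Adj h i p j) (A' : Adj h' i p.rev j') (hb : ClassW b) (hX : LocX b zs)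
    (hy : Mx b zs y) (hpos : ∀ h : Fin M, 0 < y (.inl (.inl h)))
    (hc : clsW b i = .one) (hj : clsW b j = .ring)
    (hx0 : 145 / 1000 ≤ y (.inl (.inl h))) (hx : y (.inl (.inl h)) ≤ 160 / 1000)
    (y0 : (ylz 3 (clsW b j') : ℝ) / 1000 ≤ y (.inl (.inl h')))
    (hcap : y (.inl (.inl h')) ≤ (cpz 2 .ring (clsW b j') : ℝ) / 1000) :
    (14 : ℝ) / 100 ≤ Sw b zs y i p ((zs (.inl (.inl h))).im / wcl b h) +
      (Real.pi - 6 * y (.inl (.inl h))) * ofs (b i) ((zs (.inl (.inl h))).im / wcl b h) := by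
  have hk : k7 p (clsW b j) = .ring := by rw [hj]; rfl
  have := A.one_gen A' hb hX hy hpos hc (n := 3) (by norm_num)
    (by rw [A.cl_one hc, hk]; simp [flz, clz])
    (fun H h0 h0' hs => one_real3 (A.one_ok A' hb hc) hk H h0 h0' hs)
    (by rw [hk]; simp only [xlz, flz]; push_cast; linarith only [hx0])
    (by rw [hk]; simp only [flz]; push_cast; linarith only [hx]) y0
    (by
      rw [hk]
      refine hcap.trans (le_of_eq ?_)
      cases clsW b j' <;> simp [cpz])
    (by simp only [raz]; simp; exact (hpos h').le)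
  rw [hk] at this
  simp only [eO, shO, cR] at this
  push_cast at this
  have e : (Real.pi - 6 * y (.inl (.inl h))) = (2 : ℝ) / 2 * Real.pi + 0 / 1000 -
    6000 / 1000 * y (.inl (.inl h)) := by ring
  rw [e]
  linarith only [this]

end SR

end Pool.Agent.Work.MP_b30479_gt.G2
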