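import Pool.Agent.Work.MP_b30479_gt.G2.MLev
import Pool.Agent.Work.MP_b30479_gt.G2.Num.Link
import Pool.Agent.Work.MP_b30479_gt.TB.Plat

/-!
# The left ramps: the analytic part

`HH a b m` is the real part of `(1 + i m) (log (2 sin π s) - i π s)` at `s = a + i b`; the side of a
run of type one is a difference of two such terms.  On a vertical line it is at least the value of a
closed form (`HH_low`).
-/

namespace Pool.Agent.Work.MP_b30479_gt.G2

open Real Set VOL NumI

theorem lv_strip {x : ℝ} (t : ℝ) (h0 : 0 < x) (h1 : x < 1) : lv x t ∈ strip :=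
  ⟨by simpa using h0, by simpa using h1⟩

theorem LL_lv {x : ℝ} (t : ℝ) (h0 : 0 < x) (h1 : x < 1) : LL (lv x t) = lnA x t := by
  rw [Num.LL_lnA (lv_strip t h0 h1), lv_re, lv_im]

theorem YY_lv {x : ℝ} (t : ℝ) (h0 : 0 < x) (h1 : x < 1) : YY (lv x t) = -lnB x t := by
  rw [Num.YY_lnB (lv_strip t h0 h1), lv_re, lv_im]

noncomputable def HH (a b m : ℝ) : ℝ := lnA a b + π * b + m * (π * a - lnB a b)

noncomputable def g0 (m : ℝ) : ℝ := 1 / 2 * log (1 + m ^ 2) - m * arctan m

theorem log_cos_le {m ψ : ℝ} (h1 : -(π / 2) < ψ) (h2 : ψ < π / 2) :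
    log (cos ψ) + m * ψ ≤ -(1 / 2 * log (1 + m ^ 2)) + m * arctan m := by
  have hφ1 : -(π / 2) < arctan m := neg_pi_div_two_lt_arctan m
  have hφ2 : arctan m < π / 2 := arctan_lt_pi_div_two m
  have e : -(1 / 2 * log (1 + m ^ 2)) = log (cos (arctan m)) := by
    rw [cos_arctan, log_div one_ne_zero (by positivity), log_one, log_sqrt (by positivity)]
    ring
  rw [e]
  set f : ℝ → ℝ := fun ψ => log (cos ψ) + m * ψ with hf
  have hd : ∀ x, -(π / 2) < x → x < π / 2 → HasDerivAt f (-tan x + m) x := by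
    intro x hx1 hx2
    have hc : cos x ≠ 0 := (cos_pos_of_mem_Ioo ⟨hx1, hx2⟩).ne'
    have h3 := ((hasDerivAt_cos x).log hc).add ((hasDerivAt_id' x).const_mul m)
    refine h3.congr_deriv ?_
    rw [tan_eq_sin_div_cos]
    ring
  have hm : m = tan (arctan m) := (tan_arctan m).symm
  have hmono : ∀ x y, -(π / 2) < x → y < π / 2 → x < y → tan x < tan y := fun x y hx hy hxy =>
    tan_lt_tan_of_lt_of_lt_pi_div_two hx hy hxy
  rcases lt_trichotomy ψ (arctan m) with h | h | h
  · have hc : ContinuousOn f (Icc ψ (arctan m)) := fun x hx =>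
      (hd x (h1.trans_le hx.1) (hx.2.trans_lt hφ2)).continuousAt.continuousWithinAt
    have := strictMonoOn_of_deriv_pos (convex_Icc ψ (arctan m)) hc (by
      intro x hx
      rw [interior_Icc] at hx
      rw [(hd x (h1.trans hx.1) (hx.2.trans hφ2)).deriv]
      have := hmono x (arctan m) (h1.trans hx.1) hφ2 hx.2
      rw [tan_arctan] at this
      linarith only [this])
    exact (this ⟨le_rfl, h.le⟩ ⟨h.le, le_rfl⟩ h).le
  · rw [h]
  · have hc : ContinuousOn f (Icc (arctan m) ψ) := fun x hx =>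
      (hd x (hφ1.trans_le hx.1) (hx.2.trans_lt h2)).continuousAt.continuousWithinAt
    have := strictAntiOn_of_deriv_neg (convex_Icc (arctan m) ψ) hc (by
      intro x hx
      rw [interior_Icc] at hx
      rw [(hd x (hφ1.trans hx.1) (hx.2.trans h2)).deriv]
      have := hmono (arctan m) x hφ1 (hx.2.trans h2) hx.1
      rw [tan_arctan] at this
      linarith only [this])
    exact (this ⟨le_rfl, h.le⟩ ⟨h.le, le_rfl⟩ h).le

/-- the identity `2 |sin π s| e^(π b) cos (π a + arg sin π s) = sin (2 π a)` -/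
theorem exp_lnA_cos {a b : ℝ} (ha : 0 < a) (ha' : a < 1 / 2) :
    exp (lnA a b + π * b) * cos (π * a + lnB a b) = sin (2 * π * a) := by
  have hpi := pi_pos
  have hs : 0 < sin (π * a) := sin_pos_of_pos_of_lt_pi (by positivity) (by nlinarith only [hpi, ha'])
  have hc : 0 < cos (π * a) := cos_pos_of_mem_Ioo ⟨by nlinarith only [hpi, ha], by nlinarith only [ha', hpi]⟩
  have hch : 0 < cosh (π * b) := cosh_pos _
  have hM : 0 < sin (π * a) ^ 2 + sinh (π * b) ^ 2 := by positivity
  set r := cos (π * a) * sinh (π * b) / (sin (π * a) * cosh (π * b)) with hr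
  have h1 : 1 + r ^ 2 = (sin (π * a) ^ 2 + sinh (π * b) ^ 2) / (sin (π * a) * cosh (π * b)) ^ 2 := by
    rw [hr]
    have e1 := cosh_sq (π * b)
    have e2 := sin_sq_add_cos_sq (π * a)
    field_simp
    rw [e1]
    have e3 : cos (π * a) ^ 2 = 1 - sin (π * a) ^ 2 := by linarith only [e2]
    rw [e3]
    ring
  have h2 : √(1 + r ^ 2) = √(sin (π * a) ^ 2 + sinh (π * b) ^ 2) / (sin (π * a) * cosh (π * b)) := by
    rw [h1, sqrt_div hM.le, sqrt_sq (by positivity)]
  have h3 : exp (lnA a b) = 2 * √(sin (π * a) ^ 2 + sinh (π * b) ^ 2) := by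
    unfold lnA
    have e4 : log (4 * (sin (π * a) ^ 2 + sinh (π * b) ^ 2)) / 2 =
        log (2 * √(sin (π * a) ^ 2 + sinh (π * b) ^ 2)) := by
      have e5 : 4 * (sin (π * a) ^ 2 + sinh (π * b) ^ 2) =
          (2 * √(sin (π * a) ^ 2 + sinh (π * b) ^ 2)) ^ 2 := by
        rw [mul_pow, sq_sqrt hM.le]
        norm_num
      rw [e5, log_pow]
      push_cast
      ring
    rw [e4, exp_log (by positivity)]
  have hq : 0 < √(sin (π * a) ^ 2 + sinh (π * b) ^ 2) := sqrt_pos.2 hM
  have hB : lnB a b = arctan r := rfl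
  rw [exp_add, h3, hB, cos_add, cos_arctan, sin_arctan, h2]
  have h6 : exp (π * b) = cosh (π * b) + sinh (π * b) := (cosh_add_sinh _).symm
  rw [h6]
  have h7 : sin (2 * π * a) = 2 * sin (π * a) * cos (π * a) := by
    rw [mul_assoc 2 π, sin_two_mul]
  rw [h7, hr]
  have h8 : cosh (π * b) ^ 2 - sinh (π * b) ^ 2 = 1 := by rw [cosh_sq]; ring
  field_simp
  have h9 : (cosh (π * b) + sinh (π * b)) * (cosh (π * b) - sinh (π * b)) = 1 := by
    rw [← h8]; ring
  linear_combination h9

/-- lower bound on a vertical line -/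
theorem HH_low {a : ℝ} (b m : ℝ) (ha : 0 < a) (ha' : a < 1 / 2) :
    log (sin (2 * π * a)) + 2 * π * a * m + g0 m ≤ HH a b m := by
  have hpi := pi_pos
  have h0 := exp_lnA_cos (b := b) ha ha'
  have hs : 0 < sin (2 * π * a) := sin_pos_of_pos_of_lt_pi (by positivity) (by nlinarith only [ha', hpi])
  have hc : 0 < cos (π * a + lnB a b) := by
    by_contra hcon
    have := mul_nonpos_of_nonneg_of_nonpos (exp_pos (lnA a b + π * b)).le (not_lt.1 hcon)
    linarith only [h0, hs, this]
  have h1 : -(π / 2) < lnB a b := neg_pi_div_two_lt_arctan _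
  have h2 : lnB a b < π / 2 := arctan_lt_pi_div_two _
  have h3 : π * a + lnB a b < π / 2 := by
    by_contra hcon
    have := cos_nonpos_of_pi_div_two_le_of_le (not_lt.1 hcon) (by nlinarith only [hpi, h2, ha'])
    linarith only [hc, this]
  have h4 := log_cos_le (m := m) (ψ := π * a + lnB a b) (by nlinarith only [h1, ha, hpi]) h3
  have h5 : lnA a b + π * b + log (cos (π * a + lnB a b)) = log (sin (2 * π * a)) := by
    rw [← h0, log_mul (exp_pos _).ne' hc.ne', log_exp]
  unfold HH g0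
  linarith only [h4, h5]

theorem log_le_add {x y c : ℝ} (hx : 0 < x) (hy : 0 < y) (h : x ≤ y * (1 + c)) (hc : 0 ≤ c) :
    log x ≤ log y + c := by
  have h1 : log x ≤ log (y * (1 + c)) := log_le_log hx h
  rw [log_mul hy.ne' (by positivity)] at h1
  have h2 := log_le_sub_one_of_pos (show 0 < 1 + c by positivity)
  linarith only [h1, h2]

/-- `|sinh w| ≤ |w| cosh w` -/
theorem sinh_le_mul_cosh {w : ℝ} (h : 0 ≤ w) : sinh w ≤ w * cosh w := by
  have hd : MonotoneOn (fun w => w * cosh w - sinh w) (Ici 0) := by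
    apply monotoneOn_of_deriv_nonneg (convex_Ici 0)
    · fun_prop
    · fun_prop
    · intro z hz
      rw [interior_Ici] at hz
      have : HasDerivAt (fun w => w * cosh w - sinh w)
          (1 * cosh z + z * sinh z - cosh z) z :=
        ((hasDerivAt_id' z).mul (hasDerivAt_cosh z)).sub (hasDerivAt_sinh z)
      rw [this.deriv]
      have h3 : 0 ≤ sinh z := sinh_nonneg_iff.2 (le_of_lt hz)
      have h4 : (0:ℝ) ≤ z := le_of_lt hz
      nlinarith only [h3, h4]
  have h2 := hd (self_mem_Ici) (mem_Ici.2 h) h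
  simp only [zero_mul, sinh_zero, sub_zero] at h2
  linarith only [h2]

theorem sinh_sq_le {w : ℝ} (hw2 : w ^ 2 ≤ 69 / 10000) : sinh w ^ 2 ≤ w ^ 2 * (1 + 7 / 1000) := by
  have hsh : sinh w ^ 2 ≤ w ^ 2 * (1 + sinh w ^ 2) := by
    have h1 : |sinh w| ≤ |w| * cosh w := by
      rcases le_total 0 w with h | h
      · rw [abs_of_nonneg (sinh_nonneg_iff.2 h), abs_of_nonneg h]
        exact sinh_le_mul_cosh h
      · rw [abs_of_nonpos (sinh_nonpos_iff.2 h), abs_of_nonpos h]
        have h2 := sinh_le_mul_cosh (w := -w) (by linarith only [h])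
        rw [sinh_neg, cosh_neg] at h2
        exact h2
    have h2 := pow_le_pow_left₀ (abs_nonneg _) h1 2
    rw [sq_abs, mul_pow, sq_abs, cosh_sq] at h2
    linarith only [h2]
  have hS : 0 ≤ sinh w ^ 2 := sq_nonneg _
  have hW : 0 ≤ w ^ 2 := sq_nonneg _
  generalize sinh w ^ 2 = S at *
  generalize w ^ 2 = W at *
  have h2 : S ≤ 695 / 100000 := by
    by_contra hcon
    push Not at hcon
    nlinarith only [hw2, hsh, hcon, hS]
  nlinarith only [hS, hsh, hw2]

theorem cosh_le_of_sq {w : ℝ} (hw2 : w ^ 2 ≤ 69 / 10000) : cosh w ≤ 1 + 35 / 10000 := by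
  have h1 := cosh_sq w
  have h2 := sinh_sq_le hw2
  have h3 : 0 < cosh w := cosh_pos w
  have h4 : cosh w ^ 2 ≤ (1 + 35 / 10000) ^ 2 := by
    rw [h1]
    have : w ^ 2 * (1 + 7 / 1000) ≤ 69 / 10000 * (1 + 7 / 1000) :=
      mul_le_mul_of_nonneg_right hw2 (by norm_num)
    have e : (69 / 10000 * (1 + 7 / 1000) + 1 : ℝ) ≤ (1 + 35 / 10000) ^ 2 := by norm_num
    linarith only [hw2, h2]
  exact le_of_sq_le_sq h4 (by norm_num)

theorem arctan_sub_le {n r : ℝ} (h : r ≤ n) : arctan n - arctan r ≤ n - r := by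
  have hd : MonotoneOn (fun z => z - arctan z) univ := by
    apply monotoneOn_of_deriv_nonneg convex_univ
    · exact (continuous_id.sub continuous_arctan).continuousOn
    · exact (differentiable_id.sub differentiable_arctan).differentiableOn
    · intro z _
      have h10 : HasDerivAt (fun z => z - arctan z) (1 - 1 / (1 + z ^ 2)) z :=
        (hasDerivAt_id' z).sub (hasDerivAt_arctan z)
      rw [h10.deriv]
      have : 1 / (1 + z ^ 2) ≤ 1 := by
        rw [div_le_one (by positivity)]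
        nlinarith only [sq_nonneg z]
      linarith only [this]
  have := hd (mem_univ r) (mem_univ n) h
  simp only at this
  linarith only [this]

theorem arctan_key {y n u : ℝ} (hy0 : 0 < y) (hy1 : y ≤ 0.0629) (hn : 0 ≤ n)
    (hn' : n ≤ 132 / 100) (hu : u = y * n) (hcu : cosh u ≤ 1 + 35 / 10000) :
    n * arctan n - 96 / 10000 ≤ n * arctan (cos y * sinh u / (sin y * cosh u)) := by
  have hpi2 : 3.1415 < π := pi_gt_d4
  have hsin : 0 < sin y := sin_pos_of_pos_of_lt_pi hy0 (by linarith only [hy0, hy1, hpi2])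
  have hsin' : sin y ≤ y := sin_le hy0.le
  have hcos : 1 - y ^ 2 / 2 ≤ cos y := one_sub_sq_div_two_le_cos
  have hyy : y ^ 2 ≤ 0.0629 ^ 2 := pow_le_pow_left₀ hy0.le hy1 2
  have hy3 : (0 : ℝ) ≤ 1 - y ^ 2 / 2 := by norm_num at hyy; linarith only [hy0, hy1, hyy]
  have hcpos : 0 < cos y := by norm_num at hyy; linarith only [hy0, hy1, hcos, hyy]
  have hcup : 0 < cosh u := cosh_pos u
  have hu0 : 0 ≤ u := by rw [hu]; positivity
  have h1 : u ≤ sinh u := self_le_sinh_iff.2 hu0
  set r := cos y * sinh u / (sin y * cosh u) with hr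
  have h2 : n * (1 - 55 / 10000) ≤ r := by
    rw [hr, le_div_iff₀ (by positivity)]
    have hss : sin y * cosh u ≤ y * (1 + 35 / 10000) :=
      mul_le_mul hsin' hcu hcup.le hy0.le
    have hnn : 0 ≤ n * (1 - 55 / 10000) := mul_nonneg hn (by norm_num)
    have h3 := mul_le_mul_of_nonneg_left hss hnn
    have h4 : (1 - y ^ 2 / 2) * u ≤ cos y * sinh u := by
      calc (1 - y ^ 2 / 2) * u ≤ cos y * u := mul_le_mul_of_nonneg_right hcos hu0
        _ ≤ _ := mul_le_mul_of_nonneg_left h1 hcpos.le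
    have h5 : n * (1 - 55 / 10000) * (y * (1 + 35 / 10000)) ≤ (1 - y ^ 2 / 2) * u := by
      rw [hu]
      have h6 : (1 - 55 / 10000) * (1 + 35 / 10000) ≤ 1 - y ^ 2 / 2 := by
        norm_num at hyy ⊢
        linarith only [hy0, hy1, hyy]
      have h7 : 0 ≤ y * n := by positivity
      have h8 := mul_le_mul_of_nonneg_right h6 h7
      have e : n * (1 - 55 / 10000) * (y * (1 + 35 / 10000)) =
          (1 - 55 / 10000) * (1 + 35 / 10000) * (y * n) := by ring
      rw [e]
      exact h8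
    linarith only [h3, h4, h5]
  have h8 : arctan n - 55 / 10000 * n ≤ arctan r := by
    have h0 : 0 ≤ 55 / 10000 * n := by positivity
    rcases le_total n r with h | h
    · linarith only [hn, h, arctan_mono h]
    · have h9 := arctan_sub_le h
      linarith only [h2, h9]
  have h11 : n * (arctan n - 55 / 10000 * n) ≤ n * arctan r := mul_le_mul_of_nonneg_left h8 hn
  have h12 : n * n ≤ 132 / 100 * (132 / 100) := mul_le_mul hn' hn' hn (by norm_num)
  have e : n * (arctan n - 55 / 10000 * n) = n * arctan n - 55 / 10000 * (n * n) := by ring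
  rw [e] at h11
  norm_num at h12 ⊢
  linarith only [hy0, hy1, h11, h12]

/-- upper bound close to the wall -/
theorem HH_small {x m : ℝ} (hx : 0 < x) (hx' : x ≤ 1 / 50) (hm : |m| ≤ 132 / 100) :
    lnA x (x * m) - m * lnB x (x * m) ≤ log (2 * π * x) + g0 m + 1 / 50 := by
  have hpi := pi_pos
  have hpi3 : π < 3.1416 := pi_lt_d4
  have hpi2 : 3.1415 < π := pi_gt_d4
  have hm2 : m ^ 2 ≤ (132 / 100) ^ 2 := by
    rw [← sq_abs]
    exact pow_le_pow_left₀ (abs_nonneg m) hm 2
  set y := π * x with hy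
  have hy0 : 0 < y := by positivity
  have hy1 : y ≤ 0.0629 := by
    have : π * x ≤ 3.1416 * (1 / 50) := mul_le_mul hpi3.le hx' hx.le (by norm_num)
    rw [hy]
    norm_num at this ⊢
    linarith only [hx, hx', this]
  have hsin : 0 < sin y := sin_pos_of_pos_of_lt_pi hy0 (by linarith only [hx, hx', hpi2, hy1])
  have hsin' : sin y ≤ y := sin_le hy0.le
  set w := π * (x * m) with hw
  have hwy : w = y * m := by rw [hw, hy]; ring
  have hyy : y ^ 2 ≤ 0.0629 ^ 2 := pow_le_pow_left₀ hy0.le hy1 2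
  have hw2 : w ^ 2 ≤ 69 / 10000 := by
    rw [hwy, mul_pow]
    have := mul_le_mul hyy hm2 (sq_nonneg m) (by norm_num)
    norm_num at this ⊢
    linarith only [hx, hx', this]
  have hsh2 := sinh_sq_le hw2
  have hch := cosh_le_of_sq hw2
  -- the modulus
  have hA : lnA x (x * m) ≤ log (2 * π * x) + 1 / 2 * log (1 + m ^ 2) + 35 / 10000 := by
    have e1 : lnA x (x * m) = log (4 * (sin y ^ 2 + sinh w ^ 2)) / 2 := rfl
    have hpos : 0 < 4 * (sin y ^ 2 + sinh w ^ 2) := by positivity
    have h1 : 4 * (sin y ^ 2 + sinh w ^ 2) ≤ (2 * π * x) ^ 2 * (1 + m ^ 2) * (1 + 7 / 1000) := by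
      have h2 : sin y ^ 2 ≤ y ^ 2 := pow_le_pow_left₀ hsin.le hsin' 2
      have h3 : (2 * π * x) ^ 2 * (1 + m ^ 2) = 4 * (y ^ 2 + w ^ 2) := by
        rw [hwy, hy]; ring
      rw [h3]
      have h5 : 0 ≤ y ^ 2 := sq_nonneg y
      linarith only [hsh2, h2, h5]
    have h4 : log (4 * (sin y ^ 2 + sinh w ^ 2)) ≤ log ((2 * π * x) ^ 2 * (1 + m ^ 2)) + 7 / 1000 :=
      log_le_add hpos (by positivity) h1 (by norm_num)
    have e2 : log ((2 * π * x) ^ 2 * (1 + m ^ 2)) = 2 * log (2 * π * x) + log (1 + m ^ 2) := by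
      rw [log_mul (by positivity) (by positivity), log_pow]
      push_cast
      ring
    rw [e1]
    linarith only [h4, e2]
  -- the argument
  have hB : m * arctan m - 96 / 10000 ≤ m * lnB x (x * m) := by
    have e1 : lnB x (x * m) = arctan (cos y * sinh w / (sin y * cosh w)) := rfl
    rw [e1]
    rcases le_total 0 m with h | h
    · exact arctan_key hy0 hy1 h (by rw [abs_of_nonneg h] at hm; exact hm) hwy hch
    · have h1 := arctan_key hy0 hy1 (n := -m) (u := -w) (by linarith only [h])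
        (by rw [abs_of_nonpos h] at hm; exact hm)
        (by rw [hwy]; ring) (by rw [cosh_neg]; exact hch)
      rw [arctan_neg, sinh_neg, cosh_neg] at h1
      have e2 : cos y * -sinh w / (sin y * cosh w) = -(cos y * sinh w / (sin y * cosh w)) := by ring
      rw [e2, arctan_neg] at h1
      linarith only [h1]
  unfold g0
  linarith only [hx, hx', hA, hB]

end Pool.Agent.Work.MP_b30479_gt.G2
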