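import Pool.Agent.Work.MP_b30479_gt.G2.CDefs

/-!
# Assembly of the domination: main paths, modes, tails
-/

namespace Pool.Agent.Work.MP_b30479_gt.G2

open Finset VOL Filter Topology

/-- **The domination from its three parts.** -/
theorem dom_of_parts {D Z K : Type} [Fintype D] [Fintype Z] [Fintype K]
    {S : Dat D Z K} {P : Par D} {nb : Finset D → Finset (D ⊕ Z)} {zs : D ⊕ Z → ℂ} {v : ℝ}
    (hnb : nb ∅ = ∅)
    (hmain : ∀ z, Adm S P zs ∅ ∅ z 0 → z ≠ zs → S.V z < v)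
    (hle : S.V zs ≤ v)
    (hmode : ∀ z p, Adm S P zs ∅ ∅ z p → p ≠ 0 → ∃ z', Adm S P zs ∅ ∅ z' 0 ∧
      S.V z - 2 * Real.pi * ∑ i, p i < S.V z')
    (htail : ∀ R : Finset D, (∀ i ∈ R, P.XM i < 1) → R ≠ ∅ → ∀ z p, Adm S P zs R (nb R) z p →
      ∃ (R' : Finset D) (z' : D ⊕ Z → ℂ) (p' : D → ℝ), R' ⊂ R ∧ Adm S P zs R' (nb R') z' p' ∧
        S.V z - 2 * Real.pi * ∑ i, p i < S.V z' - 2 * Real.pi * ∑ i, p' i) :
    ∀ R : Finset D, (∀ i ∈ R, P.XM i < 1) → ∀ (z : D ⊕ Z → ℂ) (p : D → ℝ),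
      Adm S P zs R (nb R) z p → (R = ∅ → p = 0 → z ≠ zs) →
      S.V z - 2 * Real.pi * ∑ i, p i < v := by
  classical
  have h0 : ∀ z, Adm S P zs ∅ ∅ z 0 → S.V z ≤ v := by
    intro z hz
    by_cases hne : z = zs
    · rw [hne]; exact hle
    · exact (hmain z hz hne).le
  have h1 : ∀ z p, Adm S P zs ∅ ∅ z p → S.V z - 2 * Real.pi * ∑ i, p i ≤ v := by
    intro z p hz
    by_cases hp : p = 0
    · subst hp
      simp only [Pi.zero_apply, sum_const_zero, mul_zero, sub_zero]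
      exact h0 z hz
    · obtain ⟨z', hz', hlt⟩ := hmode z p hz hp
      exact hlt.le.trans (h0 z' hz')
  have h2 : ∀ (n : ℕ) (R : Finset D), R.card = n → (∀ i ∈ R, P.XM i < 1) → ∀ z p,
      Adm S P zs R (nb R) z p → S.V z - 2 * Real.pi * ∑ i, p i ≤ v := by
    intro n
    induction n using Nat.strong_induction_on with
    | _ n ih =>
      intro R hR hX z p hz
      by_cases hR0 : R = ∅
      · subst hR0
        rw [hnb] at hz
        exact h1 z p hz
      · obtain ⟨R', z', p', hR', hz', hlt⟩ := htail R hX hR0 z p hz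
        exact hlt.le.trans (ih R'.card (hR ▸ card_lt_card hR') R' rfl
          (fun i hi => hX i (hR'.1 hi)) z' p' hz')
  intro R hX z p hz hne
  by_cases hR0 : R = ∅
  · subst hR0
    rw [hnb] at hz
    by_cases hp : p = 0
    · subst hp
      simp only [Pi.zero_apply, sum_const_zero, mul_zero, sub_zero]
      exact hmain z hz (hne rfl rfl)
    · obtain ⟨z', hz', hlt⟩ := hmode z p hz hp
      exact hlt.trans_le (h0 z' hz')
  · obtain ⟨R', z', p', hR', hz', hlt⟩ := htail R hX hR0 z p hz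
    exact hlt.trans_le (h2 _ R' rfl (fun i hi => hX i (hR'.1 hi)) z' p' hz')

/-- **The domination from its three parts**, the modes removed first for every set of tail
variables. -/
theorem dom_of_parts' {D Z K : Type} [Fintype D] [Fintype Z] [Fintype K]
    {S : Dat D Z K} {P : Par D} {nb : Finset D → Finset (D ⊕ Z)} {zs : D ⊕ Z → ℂ} {v : ℝ}
    (hnb : nb ∅ = ∅)
    (hmain : ∀ z, Adm S P zs ∅ ∅ z 0 → z ≠ zs → S.V z < v)
    (hle : S.V zs ≤ v)
    (hmode : ∀ R : Finset D, (∀ i ∈ R, P.XM i < 1) → ∀ z p, Adm S P zs R (nb R) z p → p ≠ 0 →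
      ∃ z', Adm S P zs R (nb R) z' 0 ∧ S.V z - 2 * Real.pi * ∑ i, p i < S.V z')
    (htail : ∀ R : Finset D, (∀ i ∈ R, P.XM i < 1) → R ≠ ∅ → ∀ z, Adm S P zs R (nb R) z 0 →
      ∃ (R' : Finset D) (z' : D ⊕ Z → ℂ) (p' : D → ℝ), R' ⊂ R ∧ Adm S P zs R' (nb R') z' p' ∧
        S.V z < S.V z' - 2 * Real.pi * ∑ i, p' i) :
    ∀ R : Finset D, (∀ i ∈ R, P.XM i < 1) → ∀ (z : D ⊕ Z → ℂ) (p : D → ℝ),
      Adm S P zs R (nb R) z p → (R = ∅ → p = 0 → z ≠ zs) →
      S.V z - 2 * Real.pi * ∑ i, p i < v := by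
  refine dom_of_parts hnb hmain hle ?_ ?_
  · intro z p hz hp
    have h := hmode ∅ (by simp) z p (by rwa [hnb]) hp
    rwa [hnb] at h
  · intro R hR hR0 z p hz
    by_cases hp : p = 0
    · subst hp
      obtain ⟨R', z', p', h1, h2, h3⟩ := htail R hR hR0 z hz
      refine ⟨R', z', p', h1, h2, ?_⟩
      simpa using h3
    · obtain ⟨z1, hz1, hlt⟩ := hmode R hR z p hz hp
      obtain ⟨R', z', p', h1, h2, h3⟩ := htail R hR hR0 z1 hz1
      exact ⟨R', z', p', h1, h2, hlt.trans h3⟩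

/-- the main paths do not depend on the heights of the mirrored paths -/
theorem Adm.main_congr {D Z K : Type} [Fintype D] [Fintype Z] [Fintype K]
    {S : Dat D Z K} {P P' : Par D} {zs : D ⊕ Z → ℂ} {R : Finset D} {nb : Finset (D ⊕ Z)}
    {z : D ⊕ Z → ℂ} (hP : ∀ i, 0 < P.hu i ∧ 0 < P.hd i) (hX : P'.XM = P.XM) (hcl : P'.cl = P.cl)
    (hcr : P'.cr = P.cr) (h : Adm S P zs R nb z 0) : Adm S P' zs R nb z 0 := by
  refine ⟨?_, ?_, h.reZ, ?_, h.onZ, h.wall⟩
  · intro i hi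
    rw [hX]
    exact h.tail i hi
  · intro i hi hn
    rw [hX]
    exact h.reD i hi hn
  · intro i hi
    obtain ⟨x, h0, h1, h2⟩ := h.onD i hi
    refine ⟨x, h0, by rw [hX]; exact h1, Or.inl ⟨?_, rfl⟩⟩
    rw [hX, hcl, hcr]
    rcases h2 with h2 | h2 | h2
    · exact h2.1
    · obtain ⟨h3, h4⟩ := h2
      have h5 : tr 0 (P.XM i) (P.cl i) (P.cr i) x = 0 := by
        have := (mul_eq_zero.1 h4.symm).resolve_left (hP i).1.ne'
        exact this
      rw [h3]
      unfold pt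
      rw [h5]
      simp
    · obtain ⟨h3, h4⟩ := h2
      have h5 : tr 0 (P.XM i) (P.cl i) (P.cr i) x = 0 := by
        have := (mul_eq_zero.1 h4.symm).resolve_left (hP i).2.ne'
        exact this
      rw [h3]
      unfold pt
      rw [h5]
      simp

end Pool.Agent.Work.MP_b30479_gt.G2
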