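import Pool.Agent.Work.MP_b30479_gt.G2.WCrit
import Pool.Agent.Work.MP_b30479_gt.G2.WDom

/-!
# Domination on the main paths from its parts
-/

namespace Pool.Agent.Work.MP_b30479_gt.G2

open Finset VOL Filter Topology

namespace SR

variable {M : ℕ} {b : Fin (M + 1) → ℤ} {zs : DD (tyW b) ⊕ ZZ (tyW b) → ℂ}

/-- a maximiser of the growth rate on the product of the main paths -/
def Mx (b : Fin (M + 1) → ℤ) (zs : DD (tyW b) ⊕ ZZ (tyW b) → ℂ)
    (y : DD (tyW b) ⊕ ZZ (tyW b) → ℝ) : Prop := IsMx (wdat (tyW b) b) (wpar b zs) zs y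

/-- the hinges are on the flat parts of their paths -/
def Flat (b : Fin (M + 1) → ℤ) (y : DD (tyW b) ⊕ ZZ (tyW b) → ℝ) : Prop :=
  ∀ h : Fin M, wcl b h ≤ y (.inl (.inl h)) ∧ y (.inl (.inl h)) ≤ wXM b h - wcr b h

/-- **The parts of the argument on the main paths.** -/
structure MainParts (b : Fin (M + 1) → ℤ) (zs : DD (tyW b) ⊕ ZZ (tyW b) → ℂ) : Prop where
  /-- the ring variables are not at the ends of their paths -/
  ring : ∀ y, Mx b zs y → ∀ v : ZZ (tyW b), |y (.inr v)| < 1 / 2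
  /-- the left rounds -/
  left : ∀ y, Mx b zs y → (∀ h : Fin M, 0 < y (.inl (.inl h))) → ∀ h : Fin M,
    wcl b h ≤ y (.inl (.inl h))
  /-- the right rounds -/
  right : ∀ y, Mx b zs y → (∀ h : Fin M, wcl b h ≤ y (.inl (.inl h))) → ∀ h : Fin M,
    y (.inl (.inl h)) ≤ wXM b h - wcr b h
  /-- uniqueness of the inner variables -/
  mid : ∀ y, Mx b zs y → (∀ h : Fin M, y (.inl (.inl h)) = (zs (.inl (.inl h))).re) →
    ∀ m : {i : Fin (M + 1) // (tyW b i).isMid = true}, y (.inl (.inr m)) = (zs (.inl (.inr m))).re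
  rin : ∀ y, Mx b zs y → (∀ h : Fin M, y (.inl (.inl h)) = (zs (.inl (.inl h))).re) →
    ∀ v : ZZ (tyW b), y (.inr v) = (zs (.inr v)).re
  /-- push-back -/
  push : ∀ y, Mx b zs y → Flat b y → ∀ {h : Fin M} {i j : Fin (M + 1)} {p : Fin 3},
    Adj h i p j → Push' (tyW b) b i p p.rev (Xw b zs y i) (xx (tyW b) i zs)

/-- **Domination on the main paths.** -/
theorem MainParts.dom (hb : ClassW b) (hL : Loc b zs) (hC : Crit b zs) (hP : MainParts b zs)
    (z : DD (tyW b) ⊕ ZZ (tyW b) → ℂ)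
    (hz : Adm (wdat (tyW b) b) (wpar b zs) zs ∅ ∅ z 0) (hne : z ≠ zs) :
    (wdat (tyW b) b).V z < ((wdat (tyW b) b).T zs).re := by
  refine dom_paths (wpar_hu b zs) hC.inn ?_ hz hne
  intro x hx hx'
  refine dom_of_push' (std_wpar b zs) ?_ hC.inn hC.dT hL.flatD hL.flatZ hP.ring ?_ ?_ ?_ hx hx'
  · intro h h1 h2
    exact tyW_one b hb h h1 h2
  · intro y hy hpos h
    exact ⟨hP.left y hy hpos h, hP.right y hy (hP.left y hy hpos) h⟩
  · intro y hy hh j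
    rcases j with (h | m) | v
    · exact hh h
    · exact hP.mid y hy hh m
    · exact hP.rin y hy hh v
  · intro y hy hf h
    exact push_hinge h fun i p j A => hP.push y hy hf A

/-- **The domination.** -/
theorem MainParts.all {nb : Finset (DD (tyW b)) → Finset (DD (tyW b) ⊕ ZZ (tyW b))}
    (hb : ClassW b) (hL : Loc b zs) (hC : Crit b zs) (hP : MainParts b zs) (hnb : nb ∅ = ∅)
    (hmode : ∀ z p, Adm (wdat (tyW b) b) (wpar b zs) zs ∅ ∅ z p → p ≠ 0 → ∃ z',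
      Adm (wdat (tyW b) b) (wpar b zs) zs ∅ ∅ z' 0 ∧
      (wdat (tyW b) b).V z - 2 * Real.pi * ∑ i, p i < (wdat (tyW b) b).V z')
    (htail : ∀ R : Finset (DD (tyW b)), R ≠ ∅ → ∀ z p,
      Adm (wdat (tyW b) b) (wpar b zs) zs R (nb R) z p →
      ∃ (R' : Finset (DD (tyW b))) (z' : DD (tyW b) ⊕ ZZ (tyW b) → ℂ) (p' : DD (tyW b) → ℝ),
        R' ⊂ R ∧ Adm (wdat (tyW b) b) (wpar b zs) zs R' (nb R') z' p' ∧
        (wdat (tyW b) b).V z - 2 * Real.pi * ∑ i, p i <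
          (wdat (tyW b) b).V z' - 2 * Real.pi * ∑ i, p' i) :
    ∀ R : Finset (DD (tyW b)), (∀ i ∈ R, (wpar b zs).XM i < 1) →
      ∀ (z : DD (tyW b) ⊕ ZZ (tyW b) → ℂ) (p : DD (tyW b) → ℝ),
      Adm (wdat (tyW b) b) (wpar b zs) zs R (nb R) z p → (R = ∅ → p = 0 → z ≠ zs) →
      (wdat (tyW b) b).V z - 2 * Real.pi * ∑ i, p i < ((wdat (tyW b) b).T zs).re :=
  dom_of_parts hnb (hP.dom hb hL hC) (V_eq_re_T _ hC.inn).le hmode
    fun R _ hR z p hz => htail R hR z p hz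

/-- the domination on the main paths with the parameters `wparH` -/
theorem MainParts.domE {H : DD (tyW b) → ℝ} (hH : ∀ i, 0 < H i)
    (hb : ClassW b) (hL : Loc b zs) (hC : Crit b zs) (hP : MainParts b zs)
    (z : DD (tyW b) ⊕ ZZ (tyW b) → ℂ)
    (hz : Adm (wdat (tyW b) b) (wparH b H zs) zs ∅ ∅ z 0) (hne : z ≠ zs) :
    (wdat (tyW b) b).V z < ((wdat (tyW b) b).T zs).re :=
  hP.dom hb hL hC z (Adm.main_congr (P := wparH b H zs) (P' := wpar b zs)
    (wparH_pos b hH zs) rfl rfl rfl hz) hne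

/-- **The domination, with the mirrored paths.** -/
theorem MainParts.allE {nb : Finset (DD (tyW b)) → Finset (DD (tyW b) ⊕ ZZ (tyW b))}
    {H : DD (tyW b) → ℝ} (hH : ∀ i, 0 < H i)
    (hb : ClassW b) (hL : Loc b zs) (hC : Crit b zs) (hP : MainParts b zs) (hnb : nb ∅ = ∅)
    (hmode : ∀ R : Finset (DD (tyW b)), ∀ z p,
      Adm (wdat (tyW b) b) (wparH b H zs) zs R (nb R) z p → p ≠ 0 → ∃ z',
      Adm (wdat (tyW b) b) (wparH b H zs) zs R (nb R) z' 0 ∧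
      (wdat (tyW b) b).V z - 2 * Real.pi * ∑ i, p i < (wdat (tyW b) b).V z')
    (htail : ∀ R : Finset (DD (tyW b)), R ≠ ∅ → ∀ z,
      Adm (wdat (tyW b) b) (wparH b H zs) zs R (nb R) z 0 →
      ∃ (R' : Finset (DD (tyW b))) (z' : DD (tyW b) ⊕ ZZ (tyW b) → ℂ) (p' : DD (tyW b) → ℝ),
        R' ⊂ R ∧ Adm (wdat (tyW b) b) (wparH b H zs) zs R' (nb R') z' p' ∧
        (wdat (tyW b) b).V z < (wdat (tyW b) b).V z' - 2 * Real.pi * ∑ i, p' i) :
    ∀ R : Finset (DD (tyW b)), (∀ i ∈ R, (wparH b H zs).XM i < 1) →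
      ∀ (z : DD (tyW b) ⊕ ZZ (tyW b) → ℂ) (p : DD (tyW b) → ℝ),
      Adm (wdat (tyW b) b) (wparH b H zs) zs R (nb R) z p → (R = ∅ → p = 0 → z ≠ zs) →
      (wdat (tyW b) b).V z - 2 * Real.pi * ∑ i, p i < ((wdat (tyW b) b).T zs).re :=
  dom_of_parts' hnb (hP.domE hH hb hL hC) (V_eq_re_T _ hC.inn).le (fun R _ => hmode R)
    fun R _ hR z hz => htail R hR z hz

end SR

end Pool.Agent.Work.MP_b30479_gt.G2
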