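import Pool.Agent.Work.MP_b30479_gt.G2.MK1
import Pool.Agent.Work.MP_b30479_gt.G2.MLA
import Pool.Agent.Work.MP_b30479_gt.G2.WMain

/-!
# Push-back for digits `2`
-/

namespace Pool.Agent.Work.MP_b30479_gt.G2

open Finset VOL Filter Topology

theorem gc_Icc_sin {a u x : ℝ} (ha : 0 < a) (hu : u ∈ Set.Icc a x) (hx : x ≤ 1 / 2) :
    Real.sin (Real.pi * a) ≤ Real.sin (Real.pi * u) := by
  have hp := Real.pi_pos
  apply Real.sin_le_sin_of_le_of_le_pi_div_two
  · nlinarith only [hp, ha]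
  · nlinarith only [hx, hp, hu, hu.2]
  · nlinarith only [hp, hu, hu.1]

/-- **Push-back on levels for a digit `2`.** -/
theorem lev_two {a a' x x' τ τ' : ℝ} (ha : 0 < a) (hx : x ≤ 1 / 2)
    (ha' : a' ∈ Set.Ioo (0 : ℝ) 1) (hx' : x' ∈ Set.Ioo (0 : ℝ) 1) (hlt : a < x)
    (hg : |gh x' - gh a'| ≤ gh x - gh a) (hs : a + a' < 1) (hs1 : x + x' < 1)
    (hτ : |Real.sinh (Real.pi * τ)| ≤ Real.sin (Real.pi * a)) :
    LL (lv x τ + lv x' τ') - 2 * LL (lv x τ) < LL (lv a τ + lv a' τ') - 2 * LL (lv a τ) := by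
  have ha1 : a ∈ Set.Ioo (0 : ℝ) 1 := ⟨ha, by linarith only [ha, hx, hlt]⟩
  have hx1 : x ∈ Set.Ioo (0 : ℝ) 1 := ⟨by linarith only [ha, hlt], by linarith only [ha, hx, hlt]⟩
  refine lev_fd ha1 ha' hx1 hx' hlt hg hs hs1 ?_
  intro u u' hu hu' hsum _
  have hu'0 : 0 < u' := by
    rcases Set.mem_uIcc.1 hu' with h | h
    · exact ha'.1.trans_le h.1
    · exact hx'.1.trans_le h.1
  have h := k2_level (u := lv u τ) (v := lv u' τ') (by simpa using ha.trans_le hu.1)
    (by simpa using hu.2.trans hx) (by simpa using hu'0) (by simpa using hsum)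
    (by simpa using hτ.trans (gc_Icc_sin ha hu hx))
  simpa using h

/-- one variable: end with two crossings -/
theorem lev_twoE {a x τ : ℝ} (ha : 0 < a) (hx : x ≤ 1 / 2) (hlt : a < x) :
    -LL (lv x τ) < -LL (lv a τ) := by
  have h : StrictMonoOn (fun x => LL (lv x τ)) (Set.Icc a (1 / 2)) := by
    apply strictMonoOn_of_deriv_pos (convex_Icc _ _)
    · intro u hu
      exact (hasDerivAt_LL_lv (t := τ) (by linarith only [ha, hu, hu.1]) (by linarith only [ha, hx, hlt, hu, hu.2])).continuousAt.continuousWithinAt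
    · intro u hu
      rw [interior_Icc] at hu
      rw [(hasDerivAt_LL_lv (t := τ) (by linarith only [ha, hu, hu.1]) (by linarith only [ha, hx, hlt, hu, hu.2])).deriv]
      exact CC_pos (by simpa using ha.trans hu.1) (by simpa using hu.2)
  have := h ⟨le_rfl, (hlt.trans_le hx).le⟩ ⟨hlt.le, hx⟩ hlt
  simp only at this
  linarith only [this]

/-- the heights are small against the left ramps -/
theorem sinh_le_sin {c T : ℝ} (hc : 0 < c) (hc1 : c ≤ 16 / 100) (hT : |T| ≤ 85 / 100 * c) :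
    |Real.sinh (Real.pi * T)| ≤ Real.sin (Real.pi * c) := by
  have hp := Real.pi_pos
  have hp1 := Real.pi_lt_d4
  rw [Real.abs_sinh, abs_mul, abs_of_pos hp]
  set x := Real.pi * c with hx
  have hx0 : 0 < x := by positivity
  have hx1 : x ≤ 50266 / 100000 := by
    rw [hx]; nlinarith only [hc1, hc, hp1]
  have h1 : Real.sinh (Real.pi * |T|) ≤ Real.sinh (85 / 100 * x) := by
    apply Real.sinh_le_sinh.2
    rw [hx]
    nlinarith only [hc, hc1, hT, hp]
  refine h1.trans ?_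
  have h2 := Real.sin_gt_sub_cube hx0
  refine le_trans ?_ h2.le
  set w := 85 / 100 * x with hw
  have hw0 : 0 ≤ w := by positivity
  have h3 : Real.sinh w ≤ w * Real.cosh w := by
    have h := Real.self_le_sinh_iff.2 hw0
    exact sinh_le_mul_cosh hw0
  have h4 : Real.cosh w ≤ Real.exp (w ^ 2 / 2) := Real.cosh_le_exp_half_sq w
  have hs : w ^ 2 / 2 ≤ 914 / 10000 := by
    rw [hw]
    nlinarith only [hp1, hc1, hc, hp, hx0, hx1]
  have h5 : Real.exp (w ^ 2 / 2) ≤ 1 / (1 - w ^ 2 / 2) := by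
    have h6 := Real.add_one_le_exp (-(w ^ 2 / 2))
    rw [Real.exp_neg] at h6
    have h7 := Real.exp_pos (w ^ 2 / 2)
    rw [le_div_iff₀ (by linarith only [hc, hc1, hs])]
    have : (-(w ^ 2 / 2) + 1) * Real.exp (w ^ 2 / 2) ≤ 1 := by
      calc _ ≤ (Real.exp (w ^ 2 / 2))⁻¹ * Real.exp (w ^ 2 / 2) :=
            mul_le_mul_of_nonneg_right h6 h7.le
        _ = 1 := inv_mul_cancel₀ h7.ne'
    linarith only [this]
  have h8 : Real.sinh w * (1 - w ^ 2 / 2) ≤ w := by
    have h9 : Real.cosh w * (1 - w ^ 2 / 2) ≤ 1 := by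
      have := h4.trans h5
      rwa [le_div_iff₀ (by linarith only [hc, hc1, hs])] at this
    calc _ ≤ w * Real.cosh w * (1 - w ^ 2 / 2) := mul_le_mul_of_nonneg_right h3 (by linarith only [hc, hc1, hs])
      _ = w * (Real.cosh w * (1 - w ^ 2 / 2)) := by ring
      _ ≤ w * 1 := mul_le_mul_of_nonneg_left h9 hw0
      _ = w := mul_one _
  have h10 : w ≤ (x - x ^ 3 / 6) * (1 - w ^ 2 / 2) := by
    rw [hw]
    have hs : x ^ 2 ≤ 2527 / 10000 := by nlinarith only [hp1, hc1, hc, hp, hx0, hx1]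
    have : 85 / 100 ≤ (1 - x ^ 2 / 6) * (1 - (85 / 100 * x) ^ 2 / 2) := by
      have h0 : 0 ≤ x ^ 2 := sq_nonneg x
      nlinarith only [hc, hc1, hs]
    nlinarith only [hc, hc1, hx0, this]
  have h11 : 0 < 1 - w ^ 2 / 2 := by linarith only [hc, hc1, hs]
  exact le_of_mul_le_mul_right (h8.trans h10) h11

namespace SR

variable {M : ℕ} {b : Fin (M + 1) → ℤ} {zs : DD (tyW b) ⊕ ZZ (tyW b) → ℂ}
variable {y : DD (tyW b) ⊕ ZZ (tyW b) → ℝ}
variable {h h' : Fin M} {i j j' : Fin (M + 1)} {p : Fin 3}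

/-- on the flat parts -/
theorem Adj.Yw_flat (A : Adj h i p j) (hy : Mx b zs y) (hf : Flat b y) :
    Yw b zs y i p = lv (y (.inl (.inl h))) (ofs (b i) (zs (.inl (.inl h))).im) := by
  have q1 := wcr_pos (b := b) h
  have q3 := wcl_pos (b := b) h
  apply Complex.ext
  · rw [A.re, lv_re]
  · rw [(A.rh hy).im, A.re, tr_b q3 q1 (hf h).1 (hf h).2, mul_one, lv_im]

theorem Adj.Ys_lv (A : Adj h i p j) :
    Ys b zs i p = lv (zs (.inl (.inl h))).re (ofs (b i) (zs (.inl (.inl h))).im) := by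
  apply Complex.ext
  · rw [A.Ys_re, lv_re]
  · rw [A.Ys_im, lv_im]

theorem hpp_two_cl (p : Fin 3) (P B Q : Cl) (s : Bool) :
    0 < (hpp p P .two B Q).cl ∧ (hpp p P .two B Q).cl ≤ 16 / 100 ∧
    -(85 / 100 * (hpp p P .two B Q).cl) ≤ (hbox .two B s).t0 ∧
    (hbox .two B s).t1 ≤ 85 / 100 * (hpp p P .two B Q).cl ∧
    (hpp p P .two B Q).cl ≤ (hbox .two B s).x0 ∧ (hbox .two B s).x1 ≤ 392 / 1000 := by
  unfold hpp
  cases B <;> split_ifs <;> simp only [hp, hp1, hbox] <;> norm_num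

/-- **Push-back of a digit `2`.** -/
theorem Adj.push2 (A : Adj h i p j) (hb : ClassW b) (hL : Loc b zs) (hy : Mx b zs y)
    (hf : Flat b y) (hc : clsW b i = .two) (h5 : y (.inl (.inl h)) ≤ 1 / 2)
    (hs : ∀ h' j', Adj h' i p.rev j' → y (.inl (.inl h)) + y (.inl (.inl h')) < 1) :
    Push' (tyW b) b i p p.rev (Xw b zs y i) (xx (tyW b) i zs) := by
  apply A.push_two hb (Or.inl hc)
  rcases A.other b zs y with ⟨he, -⟩ | ⟨-, h', j', A'⟩
  · have := clsW_inner hb (Or.inr (Or.inl hc))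
    rw [this] at he
    exact absurd he (by decide)
  have hB := A.box hb hL
  have hB' := A'.box hb hL
  rw [hc] at hB hB'
  have g := hpp_two_cl p (oc b i p.rev) (clsW b j) (oc b j p) (ssW b h)
  have g' := hpp_two_cl p.rev (oc b i p.rev.rev) (clsW b j') (oc b j' p.rev) (ssW b h')
  have ecl : wcl b h = (hpp p (oc b i p.rev) .two (clsW b j) (oc b j p)).cl := by
    rw [A.cl_eq b, hc]
  have ecl' : wcl b h' = (hpp p.rev (oc b i p.rev.rev) .two (clsW b j') (oc b j' p.rev)).cl := by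
    rw [A'.cl_eq b, hc]
  rw [← ecl] at g
  rw [← ecl'] at g'
  rw [A.Yw_flat hy hf, A'.Yw_flat hy hf, A.Ys_lv, A'.Ys_lv]
  have hsum := hs h' j' A'
  have hyh := (hf h).1
  have hyh' := (hf h').1
  have hyh2 : y (.inl (.inl h')) < 1 := by linarith only [g, hsum, hyh]
  generalize ofs (b i) (zs (.inl (.inl h))).im = T at hB ⊢
  generalize ofs (b i) (zs (.inl (.inl h'))).im = T' at hB' ⊢
  generalize y (.inl (.inl h)) = x at *
  generalize y (.inl (.inl h')) = x' at *
  generalize (zs (.inl (.inl h))).re = a at *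
  generalize (zs (.inl (.inl h'))).re = a' at *
  have hT : |Real.sinh (Real.pi * T)| ≤ Real.sin (Real.pi * wcl b h) := by
    apply sinh_le_sin g.1 g.2.1
    rw [abs_le]
    exact ⟨by linarith only [g, hB, hB.2.2.1, g.2.2.1], by linarith only [g, hB, hB.2.2.2, g.2.2.2.1]⟩
  have mono : ∀ {c : ℝ}, wcl b h ≤ c → c ≤ 1 / 2 →
      |Real.sinh (Real.pi * T)| ≤ Real.sin (Real.pi * c) := fun h1 h2 =>
    hT.trans (gc_Icc_sin g.1 ⟨h1, le_rfl⟩ h2)
  have a1 : wcl b h ≤ a := g.2.2.2.2.1.trans hB.1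
  have a2 : a ≤ 392 / 1000 := hB.2.1.trans g.2.2.2.2.2
  have a1' : wcl b h' ≤ a' := g'.2.2.2.2.1.trans hB'.1
  have a2' : a' ≤ 392 / 1000 := hB'.2.1.trans g'.2.2.2.2.2
  have a0 : 0 < a := g.1.trans_le a1
  have a0' : 0 < a' := g'.1.trans_le a1'
  have x0 : 0 < x := g.1.trans_le hyh
  have x0' : 0 < x' := g'.1.trans_le hyh'
  unfold PushV S2
  simp only [lv_re, lv_im, zero_mul, add_zero, one_mul]
  constructor
  · intro hlt hg
    have := lev_two (τ := T) (τ' := T') a0 h5 ⟨a0', by linarith only [g, g', hB']⟩ ⟨x0', hyh2⟩ hlt hg (by linarith only [g, g', hB, hB'])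
      (by linarith only [hsum]) (mono a1 (by linarith only [g, hB]))
    linarith only [this]
  · intro hlt hg
    have := lev_two (τ := T) (τ' := T') x0 (by linarith only [g, hB]) ⟨x0', hyh2⟩ ⟨a0', by linarith only [g, g', hB']⟩ hlt
      (by rwa [abs_sub_comm]) (by linarith only [hsum]) (by linarith only [g, g', hB, hB']) (mono hyh h5)
    linarith only [this]

/-- **Push-back of a digit `2` at an end.** -/
theorem Adj.push2E (A : Adj h i p j) (hb : ClassW b) (hL : Loc b zs) (hy : Mx b zs y)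
    (hf : Flat b y) (hc : clsW b i = .twoE) (h5 : y (.inl (.inl h)) ≤ 1 / 2) :
    Push' (tyW b) b i p p.rev (Xw b zs y i) (xx (tyW b) i zs) := by
  apply A.push_two hb (Or.inr hc)
  have he := clsW_end (Or.inl hc)
  have h0 : Yw b zs y i p.rev = 0 := by
    rcases A.other b zs y with ⟨-, h0⟩ | ⟨he', -⟩
    · exact h0
    · rw [he] at he'
      exact absurd he' (by decide)
  have h0' : Ys b zs i p.rev = 0 := A.Ys_other he
  rw [h0, h0', A.Yw_flat hy hf, A.Ys_lv]
  have hh := hL.half h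
  have hy0 : 0 < y (.inl (.inl h)) := (wcl_pos h).trans_le (hf h).1
  have hz0 : 0 < (zs (.inl (.inl h))).re := (wcl_pos h).trans (hL.flatD (.inl h)).1
  unfold PushV S2
  simp only [lv_re, lv_im, zero_mul, add_zero, one_mul, Complex.zero_im]
  constructor
  · intro hlt _
    have := lev_twoE (τ := ofs (b i) (zs (.inl (.inl h))).im) hz0 h5 hlt
    linarith only [this]
  · intro hlt _
    have := lev_twoE (τ := ofs (b i) (zs (.inl (.inl h))).im) hy0 hh.le hlt
    linarith only [this]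

end SR

end Pool.Agent.Work.MP_b30479_gt.G2
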