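import Pool.Agent.Work.MP_b30479_gt.G2.MQE
import Pool.Agent.Work.MP_b30479_gt.G2.WPush2
import Pool.Agent.Work.MP_b30479_gt.G2.MLW
import Pool.Agent.Work.MP_b30479_gt.G2.WLocP

/-!
# Flat parts: floors and sums at the digits `1`
-/

namespace Pool.Agent.Work.MP_b30479_gt.G2

open Finset VOL Filter Topology

namespace SR

open ML

variable {M : ℕ} {b : Fin (M + 1) → ℤ} {zs : DD (tyW b) ⊕ ZZ (tyW b) → ℂ}
variable {y : DD (tyW b) ⊕ ZZ (tyW b) → ℝ}
variable {h h' h'' : Fin M} {i j j' l : Fin (M + 1)} {p : Fin 3}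

/-! ### exclusion -/

theorem Adj.flat_right (A : Adj h i p j) (hy : Mx b zs y) (h0 : wcl b h < y (.inl (.inl h)))
    (h1 : y (.inl (.inl h)) ≤ wXM b h - wcr b h)
    (hs : Sw b zs y i p 0 + Sw b zs y j p.rev 0 < 0) : False := by
  cases A
  · exact flat_false_right hy h h0 h1 hs
  · exact flat_false_right hy h h0 h1 (by rw [add_comm]; exact hs)

theorem Adj.flat_left (A : Adj h i p j) (hy : Mx b zs y) (h0 : wcl b h ≤ y (.inl (.inl h)))
    (h1 : y (.inl (.inl h)) < wXM b h - wcr b h)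
    (hs : 0 < Sw b zs y i p 0 + Sw b zs y j p.rev 0) : False := by
  cases A
  · exact flat_false_left hy h h0 h1 hs
  · exact flat_false_left hy h h0 h1 (by rw [add_comm]; exact hs)

/-! ### sides -/

theorem Adj.one_flat (A : Adj h i p j) (A' : Adj h' i p.rev j') (hb : ClassW b) (hy : Mx b zs y)
    (hf : Flat b y) (hc : clsW b i = .one) :
    Sw b zs y i p 0 = Real.pi * ofs (b i) (zs (.inl (.inl h'))).im +
      LL (lv (y (.inl (.inl h)) + y (.inl (.inl h')))
        (ofs (b i) (zs (.inl (.inl h))).im + ofs (b i) (zs (.inl (.inl h'))).im)) -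
      LL (lv (y (.inl (.inl h))) (ofs (b i) (zs (.inl (.inl h))).im)) := by
  rw [A.side_one hb hc, ofs_zero', A.Yw_flat hy hf, A'.Yw_flat hy hf]
  unfold S1
  rw [lv_add]
  simp only [lv_im, zero_mul, add_zero, one_mul]

theorem Adj.two_flat (A : Adj h i p j) (A' : Adj h' i p.rev j') (hb : ClassW b) (hy : Mx b zs y)
    (hf : Flat b y) (hc : clsW b i = .two) :
    Sw b zs y i p 0 = Real.pi * (ofs (b i) (zs (.inl (.inl h'))).im -
        ofs (b i) (zs (.inl (.inl h))).im) +
      LL (lv (y (.inl (.inl h)) + y (.inl (.inl h')))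
        (ofs (b i) (zs (.inl (.inl h))).im + ofs (b i) (zs (.inl (.inl h'))).im)) -
      2 * LL (lv (y (.inl (.inl h))) (ofs (b i) (zs (.inl (.inl h))).im)) := by
  rw [A.side_two hb (Or.inl hc), ofs_zero', A.Yw_flat hy hf, A'.Yw_flat hy hf]
  unfold S2
  rw [lv_add]
  simp only [lv_im, zero_mul, add_zero, one_mul]

theorem Adj.twoE_flat (A : Adj h i p j) (hb : ClassW b) (hy : Mx b zs y)
    (hf : Flat b y) (hc : clsW b i = .twoE) :
    Sw b zs y i p 0 = -(Real.pi * ofs (b i) (zs (.inl (.inl h))).im) -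
      LL (lv (y (.inl (.inl h))) (ofs (b i) (zs (.inl (.inl h))).im)) := by
  have h00 : Yw b zs y i p.rev = 0 := by
    rcases A.other b zs y with ⟨-, h0⟩ | ⟨he', -⟩
    · exact h0
    · rw [clsW_end (Or.inl hc)] at he'
      exact absurd he' (by decide)
  rw [A.side_two hb (Or.inr hc), ofs_zero', A.Yw_flat hy hf, h00]
  unfold S2
  simp only [lv_im, zero_mul, add_zero, one_mul, Complex.zero_im]
  ring

/-! ### ends of the flat parts -/

/-- upper end of the flat part of a hinge `1 | B` (thousandths) -/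
def fe : Cl → ℤ
  | .one => 660
  | .two => 510
  | .twoE => 350
  | .three => 500
  | .threeE => 350
  | .ring => 360

theorem fe_tab (p : Fin 3) (P B Q : Cl) :
    (hpp p P .one B Q).XM - (hpp p P .one B Q).cr ≤ (fe B : ℝ) / 1000 := by
  unfold hpp
  by_cases hq : p = 2
  · rw [if_pos hq]
    cases B <;> simp only [hp, hp1, fe] <;> (try split_ifs) <;> norm_num
  · rw [if_neg hq]
    cases B <;> simp only [hp, hp1, fe] <;> (try split_ifs) <;> norm_num

theorem Adj.fe (A : Adj h i p j) (hf : Flat b y) (hc : clsW b i = .one) :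
    y (.inl (.inl h)) ≤ (fe (clsW b j) : ℝ) / 1000 := by
  refine (hf h).2.trans ?_
  rw [A.XM_eq b, A.cr_eq b, hc]
  exact fe_tab _ _ _ _

theorem fe11_tab (p : Fin 3) (P Q : Cl) (hPQ : P = .one ∨ Q = .one) :
    (hpp p P .one .one Q).XM - (hpp p P .one .one Q).cr ≤ 600 / 1000 := by
  unfold hpp
  by_cases hq : p = 2
  · rw [if_pos hq]
    simp only [hp]
    rw [if_pos hPQ]
    norm_num
  · rw [if_neg hq]
    simp only [hp]
    rw [if_pos hPQ.symm]
    norm_num

/-- three digits `1` in a row -/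
theorem Adj.fe11 (A : Adj h i p j) (A' : Adj h' i p.rev j') (hf : Flat b y)
    (hc : clsW b i = .one) (hj : clsW b j = .one) (hj' : clsW b j' = .one) :
    y (.inl (.inl h)) ≤ 600 / 1000 := by
  refine (hf h).2.trans ?_
  rw [A.XM_eq b, A.cr_eq b, hc, hj]
  apply fe11_tab
  left
  rw [A'.oc_eq]
  exact hj'

/-- lower end of the flat part -/
theorem Adj.clf (A : Adj h i p j) (hf : Flat b y) (hc : clsW b i = .one) :
    (clz (k7 p (clsW b j)) : ℝ) / 1000 ≤ y (.inl (.inl h)) := by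
  rw [← A.cl_one hc]
  exact (hf h).1

theorem fe_low_tab (p : Fin 3) (P B Q : Cl) :
    350 / 1000 ≤ (hpp p P .one B Q).XM - (hpp p P .one B Q).cr := by
  unfold hpp
  by_cases hq : p = 2
  · rw [if_pos hq]
    cases B <;> simp only [hp, hp1] <;> (try split_ifs) <;> norm_num
  · rw [if_neg hq]
    cases B <;> simp only [hp, hp1] <;> (try split_ifs) <;> norm_num

theorem Adj.fe_low (A : Adj h i p j) (hc : clsW b i = .one) :
    350 / 1000 ≤ wXM b h - wcr b h := by
  rw [A.XM_eq b, A.cr_eq b, hc]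
  exact fe_low_tab _ _ _ _

/-! ### windows -/

theorem pcw_ringw {Q : Cl} {T k r : ℝ} (w : (pcw .ring Q).In T k r) :
    -(77 / 1000) ≤ T ∧ T ≤ 77 / 1000 ∧ -(25 / 1000) ≤ k + r := by
  obtain ⟨w1, w2, -, -, -, -, -, -, -, -, w3, -⟩ := w
  cases Q <;> simp only [pcw] at w1 w2 w3 <;> refine ⟨?_, ?_, ?_⟩ <;> linarith only [w1, w2, w3]

theorem pcw_twoEw {Q : Cl} {T k r : ℝ} (w : (pcw .twoE Q).In T k r) :
    -(71 / 1000) ≤ k ∧ k ≤ 71 / 1000 ∧ -(38 / 1000) ≤ k + T := by
  obtain ⟨-, -, w1, w2, -, -, w3, -, -, -, -, -⟩ := w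
  cases Q <;> simp only [pcw] at w1 w2 w3 <;> refine ⟨?_, ?_, ?_⟩ <;> linarith only [w1, w2, w3]

theorem pcw_X {P Q : Cl} {T k r : ℝ} (h : P = .one ∨ Q = .one) (w : (pcw P Q).In T k r) :
    k + r ≤ 118 / 1000 ∧ -(144 / 1000) ≤ T + k ∧ T + k ≤ 144 / 1000 ∧ -(144 / 1000) ≤ -T + r ∧
      -T + r ≤ 144 / 1000 := by
  obtain ⟨-, -, -, -, -, -, w1, w2, w3, w4, -, w6⟩ := w
  rcases h with rfl | rfl
  · cases Q <;> simp only [pcw] at w1 w2 w3 w4 w6 <;> refine ⟨?_, ?_, ?_, ?_, ?_⟩ <;> linarith only [w6, w1, w2, w3, w4]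
  · cases P <;> simp only [pcw] at w1 w2 w3 w4 w6 <;> refine ⟨?_, ?_, ?_, ?_, ?_⟩ <;> linarith only [w6, w1, w2, w3, w4]

theorem pcw_Y {P Q : Cl} {T k r : ℝ} (h : P ≠ .one) (h' : Q ≠ .one) (w : (pcw P Q).In T k r) :
    (k + r ≤ 176 / 1000 ∧ -(101 / 1000) ≤ T + k ∧ T + k ≤ 101 / 1000 ∧ -(101 / 1000) ≤ -T + r ∧
      -T + r ≤ 101 / 1000) ∨
    (k + r ≤ 151 / 1000 ∧ -(112 / 1000) ≤ T + k ∧ T + k ≤ 112 / 1000 ∧ -(112 / 1000) ≤ -T + r ∧
      -T + r ≤ 112 / 1000) := by
  obtain ⟨-, -, -, -, -, -, w1, w2, w3, w4, -, w6⟩ := w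
  cases P <;> cases Q <;> first
    | exact absurd rfl h
    | exact absurd rfl h'
    | (simp only [pcw] at w1 w2 w3 w4 w6
       left
       refine ⟨?_, ?_, ?_, ?_, ?_⟩ <;> linarith only [w2, w4, w1, w3, w6])
    | (simp only [pcw] at w1 w2 w3 w4 w6
       right
       refine ⟨?_, ?_, ?_, ?_, ?_⟩ <;> linarith only [w6, w1, w2, w3, w4])

theorem okF_Y1 : MQ.okF 176 101 101 64 = true := by decide +kernel

theorem okF_Y2 : MQ.okF 151 112 112 64 = true := by decide +kernel

theorem cw_twoEw {C : Cl} {T k : ℝ} (h1 : C ≠ .one) (h2 : C ≠ .twoE) (w1 : (cw C .twoE).t0 ≤ T)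
    (w2 : T ≤ (cw C .twoE).t1) (w3 : (cw C .twoE).s0 ≤ T + k) :
    -(61 / 1000) ≤ T ∧ T ≤ 61 / 1000 ∧ 21 / 1000 ≤ T + k := by
  cases C <;> first
    | exact absurd rfl h1
    | exact absurd rfl h2
    | (simp only [cw] at w1 w2 w3
       refine ⟨?_, ?_, ?_⟩ <;> linarith only [w1, w2, w3])

theorem clz_ge (p : Fin 3) (Q : Cl) : (13 : ℝ) / 100 ≤ (clz (k7 p Q) : ℝ) / 1000 := by
  cases Q <;> simp only [k7] <;> (try split_ifs) <;> simp only [clz] <;> norm_num

theorem clz_le (p : Fin 3) (Q : Cl) : (clz (k7 p Q) : ℝ) / 1000 ≤ 16 / 100 := by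
  cases Q <;> simp only [k7] <;> (try split_ifs) <;> simp only [clz] <;> norm_num

theorem fe_le {Q : Cl} (h : Q ≠ .one) : (fe Q : ℝ) / 1000 ≤ 51 / 100 := by
  cases Q <;> first
    | exact absurd rfl h
    | (simp only [fe]; norm_num)

theorem cw_two_w {C : Cl} {T k v : ℝ} (hv : 405 / 1000 < v) (hv' : v ≤ (fe C : ℝ) / 1000)
    (w1 : (cw C .two).t0 ≤ T) (w2 : T ≤ (cw C .two).t1) (w3 : (cw C .two).s0 ≤ T + k)
    (w4 : T + k ≤ (cw C .two).s1) :
    -(18 / 1000) ≤ T ∧ T ≤ 79 / 1000 ∧ -(148 / 1000) ≤ T + k ∧ T + k ≤ 148 / 1000 := by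
  cases C <;> simp only [fe] at hv' <;> push_cast at hv' <;> first
    | (exfalso; linarith only [hv, hv'])
    | (simp only [cw] at w1 w2 w3 w4
       refine ⟨?_, ?_, ?_, ?_⟩ <;> linarith only [w1, w2, w3, w4])

theorem hbox_two_t1 (B : Cl) (s : Bool) : (hbox .two B s).t1 ≤ 96 / 1000 := by
  cases B <;> simp only [hbox] <;> norm_num

theorem fe2_tab (p : Fin 3) (P Q : Cl) {B : Cl} (hB : B ≠ .one) :
    (hpp p P .two B Q).XM - (hpp p P .two B Q).cr ≤ 33 / 100 := by
  unfold hpp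
  by_cases hq : p = 2
  · rw [if_pos hq]
    cases B <;> first
      | exact absurd rfl hB
      | (simp only [hp]; norm_num)
  · rw [if_neg hq]
    cases B <;> first
      | exact absurd rfl hB
      | (simp only [hp]; norm_num)

/-! ### floors -/

/-- **`1 | 1` next to a ring.** -/
theorem flat_ring_one (hb : ClassW b) (hP : LocP b zs) (hy : Mx b zs y) (hf : Flat b y)
    (A : Adj h i p j) (A' : Adj h' i p.rev j') (hc : clsW b i = .one) (hj : clsW b j = .one)
    (hj' : clsW b j' = .ring) : 190 / 1000 ≤ y (.inl (.inl h)) := by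
  by_contra hcon
  push Not at hcon
  obtain ⟨h'', l, A''⟩ := A.symm.other_one hb hj
  rw [Fin.rev_rev] at A''
  have hop := A.opp hb (Or.inl (by rw [hc]; decide))
  have w := hP.pair A A' A'' hc hj
  have f1 := A.clf hf hc
  have f2 := A'.clf hf hc
  have f3 := A''.clf hf hj
  have g2 := A'.fe hf hc
  have g3 := A''.fe hf hj
  have g4 : clsW b l = .one → y (.inl (.inl h'')) ≤ 600 / 1000 := fun hl =>
    A''.fe11 A.symm hf hj hl hc
  rw [hj] at f1
  rw [hj'] at f2 g2 w
  have e1 := A.one_flat A' hb hy hf hc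
  have e2 := A.symm.one_flat A''.rr hb hy hf hj
  rw [ofs_opp hop (zs (.inl (.inl h))).im] at e2
  have e3 := A.fe_low hc
  have hv0 : 13 / 100 ≤ y (.inl (.inl h'')) := (clz_ge _ _).trans f3
  have hv1 : y (.inl (.inl h'')) ≤ 60 / 100 := by
    by_cases hq : clsW b l = .one
    · linarith only [g4, hq, g4 hq]
    · linarith only [g3, hq, fe_le hq]
  obtain ⟨w1, w2, w3⟩ := pcw_ringw w
  simp only [k7, clz, SR.fe] at f1 f2 g2
  push_cast at f1 f2 g2
  refine A.flat_left hy (hf h).1 (by linarith only [hcon, e3]) ?_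
  rw [e1, e2]
  exact MQ.flat_11Z (by linarith only [f1]) (by linarith only [hcon]) (by linarith only [f2]) (by linarith only [g2]) hv0 hv1
    (abs_le.2 ⟨w1, w2⟩) w3

/-- **`1 | 2` at an end.** -/
theorem flat_twoE (hb : ClassW b) (hX : LocX b zs) (hy : Mx b zs y) (hf : Flat b y)
    (A : Adj h i p j) (A' : Adj h' i p.rev j') (hc : clsW b i = .one) (hj : clsW b j = .twoE)
    (h1 : clsW b j' ≠ .one) (h2 : clsW b j' ≠ .twoE) : 200 / 1000 ≤ y (.inl (.inl h)) := by
  by_contra hcon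
  push Not at hcon
  have hop := A.opp hb (Or.inl (by rw [hc]; decide))
  obtain ⟨w1, w2, w3, -⟩ := hX.win A A' hc
  have f1 := A.clf hf hc
  have f2 := A'.clf hf hc
  have g2 := A'.fe hf hc
  rw [hj] at f1 w1 w2 w3
  have e1 := A.one_flat A' hb hy hf hc
  have e2 := A.symm.twoE_flat hb hy hf hj
  rw [ofs_opp hop (zs (.inl (.inl h))).im] at e2
  have e3 := A.fe_low hc
  have hv0 : 13 / 100 ≤ y (.inl (.inl h')) := (clz_ge _ _).trans f2
  have hv1 : y (.inl (.inl h')) ≤ 51 / 100 := g2.trans (fe_le h1)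
  obtain ⟨u1, u2, u3⟩ := cw_twoEw h1 h2 w1 w2 w3
  simp only [k7, clz] at f1
  push_cast at f1
  refine A.flat_left hy (hf h).1 (by linarith only [hcon, e3, f1]) ?_
  rw [e1, e2]
  exact MQ.flat_E (by linarith only [f1]) (by linarith only [hcon]) hv0 hv1 (abs_le.2 ⟨u1, u2⟩) u3

/-- **`1 | 2` at an end, next to a `1`.** -/
theorem flat_twoE_one (hb : ClassW b) (hP : LocP b zs) (hy : Mx b zs y)
    (hf : Flat b y) (A : Adj h i p j) (A' : Adj h' i p.rev j') (hc : clsW b i = .one)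
    (hj : clsW b j = .twoE) (hj' : clsW b j' = .one) (h64 : y (.inl (.inl h')) ≤ 64 / 100) :
    150 / 1000 ≤ y (.inl (.inl h)) := by
  by_contra hcon
  push Not at hcon
  have hop := A.opp hb (Or.inl (by rw [hc]; decide))
  obtain ⟨h'', l, A''⟩ := A'.symm.other_one hb hj'
  rw [Fin.rev_rev] at A''
  have w := hP.pair A' A.rr A'' hc hj'
  have f1 := A.clf hf hc
  have f2 := A'.clf hf hc
  rw [hj] at f1 w
  rw [hj'] at f2
  have e1 := A.one_flat A' hb hy hf hc
  have e2 := A.symm.twoE_flat hb hy hf hj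
  rw [ofs_opp hop (zs (.inl (.inl h))).im] at e2
  have e3 := A.fe_low hc
  obtain ⟨u1, u2, u3⟩ := pcw_twoEw w
  simp only [k7, clz] at f1 f2
  push_cast at f1 f2
  refine A.flat_left hy (hf h).1 (by linarith only [hcon, e3, f1]) ?_
  rw [e1, e2]
  exact MQ.flat_E1 (by linarith only [f1]) (by linarith only [hcon]) (by linarith only [f2]) h64 (abs_le.2 ⟨u1, u2⟩) u3

/-! ### sums -/

/-- **The sums at the digits `1`.** -/
theorem flat_sum1 (hb : ClassW b) (hL : Loc b zs) (hX : LocX b zs) (hP : LocP b zs)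
    (hy : Mx b zs y) (hf : Flat b y) {C : Tab} (hC : Cap b y C) (c11 : ∀ p, C p .one .one ≤ 64 / 100)
    (c12 : ∀ p, C p .one .two ≤ 495 / 1000) (c13 : ∀ p, C p .one .three ≤ 45 / 100)
    (hS : Sum1 b y (95 / 100)) : Sum1 b y (90 / 100) := by
  -- the larger hinge
  have key : ∀ {h h' : Fin M} {i j j' : Fin (M + 1)} {p : Fin 3}, Adj h i p j →
      Adj h' i p.rev j' → clsW b i = .one → y (.inl (.inl h')) ≤ y (.inl (.inl h)) →
      y (.inl (.inl h)) + y (.inl (.inl h')) ≤ 90 / 100 := by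
    intro h h' i j j' p A A' hc hle
    by_contra hcon
    push Not at hcon
    have hs := hS A A' hc
    have hop := A.opp hb (Or.inl (by rw [hc]; decide))
    have x0 : 45 / 100 ≤ y (.inl (.inl h)) := by linarith only [hle, hcon]
    have g1 := A.fe hf hc
    have g2 := A'.fe hf hc
    have hc1 := hC A
    have hc2 := hC A'
    rw [hc] at hc1 hc2
    have f1 := A.clf hf hc
    have f2 := A'.clf hf hc
    have e1 := A.one_flat A' hb hy hf hc
    have hcl : wcl b h < y (.inl (.inl h)) := by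
      rw [A.cl_one hc]
      have := clz_le p (clsW b j)
      linarith only [hle, hcon, hs, this]
    have hB : clsW b j = .one ∨ clsW b j = .two := by
      have c3 := c13 p
      clear e1 hop hs hcl f1 f2 g2
      cases hj : clsW b j <;> rw [hj] at g1 hc1 <;> first
        | exact Or.inl rfl
        | exact Or.inr rfl
        | (exfalso; simp only [SR.fe] at g1; push_cast at g1; linarith only [hle, hcon, g1, hc1, c3])
    rcases hB with hj | hj
    · obtain ⟨h'', l, A''⟩ := A.symm.other_one hb hj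
      rw [Fin.rev_rev] at A''
      have w := hP.pair A A' A'' hc hj
      have e2 := A.symm.one_flat A''.rr hb hy hf hj
      rw [ofs_opp hop (zs (.inl (.inl h))).im] at e2
      have hs2 := hS A.symm A''.rr hj
      have f3 := (wcl_pos h'').trans_le (hf h'').1
      have c1 := c11 p
      rw [hj] at hc1
      refine A.flat_right hy hcl (hf h).2 ?_
      rw [e1, e2]
      by_cases hPQ : clsW b j' = .one ∨ clsW b l = .one
      · have hx : y (.inl (.inl h)) ≤ 600 / 1000 := by
          rcases hPQ with hq | hq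
          · exact A.fe11 A' hf hc hj hq
          · exact A.symm.fe11 A''.rr hf hj hc hq
        obtain ⟨u1, u2, u3, u4, u5⟩ := pcw_X hPQ w
        exact MQ.flat_sum MQ.okF_X (by linarith only [hle, hcon]) (by push_cast; linarith only [hx]) (by norm_num)
          hcon.le (by linarith only [hle, hs, hs2, f3]) f3 (by linarith only [hle, hcon, hs2, f3]) (by push_cast; linarith only [u1])
          (by push_cast; exact abs_le.2 ⟨u2, u3⟩) (by push_cast; exact abs_le.2 ⟨u4, u5⟩)
      · push Not at hPQ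
        rcases pcw_Y hPQ.1 hPQ.2 w with ⟨u1, u2, u3, u4, u5⟩ | ⟨u1, u2, u3, u4, u5⟩
        · exact MQ.flat_sum okF_Y1 (by linarith only [hle, hcon]) (by push_cast; linarith only [hc1, c1]) (by norm_num)
            hcon.le (by linarith only [hle, hs, hs2, f3]) f3 (by linarith only [hle, hcon, hs2, f3]) (by push_cast; linarith only [u1])
            (by push_cast; exact abs_le.2 ⟨u2, u3⟩) (by push_cast; exact abs_le.2 ⟨u4, u5⟩)
        · exact MQ.flat_sum okF_Y2 (by linarith only [hle, hcon]) (by push_cast; linarith only [hc1, c1]) (by norm_num)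
            hcon.le (by linarith only [hle, hs, hs2, f3]) f3 (by linarith only [hle, hcon, hs2, f3]) (by push_cast; linarith only [u1])
            (by push_cast; exact abs_le.2 ⟨u2, u3⟩) (by push_cast; exact abs_le.2 ⟨u4, u5⟩)
    · obtain ⟨h'', l, A''⟩ := A.symm.other' b (clsW_inner hb (Or.inr (Or.inl hj)))
      rw [Fin.rev_rev] at A''
      have e2 := A.symm.two_flat A''.rr hb hy hf hj
      rw [ofs_opp hop (zs (.inl (.inl h))).im] at e2
      obtain ⟨w1, w2, w3, w4⟩ := hX.win A A' hc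
      have hB := (A''.box hb hL).2.2.2
      rw [hj] at hB w1 w2 w3 w4 hc1 g1
      have hB' := hbox_two_t1 (clsW b l) (ssW b h'')
      have hw1 := c12 p
      have f3 := (wcl_pos h'').trans_le (hf h'').1
      have g3 : y (.inl (.inl h'')) ≤ 495 / 1000 := by
        by_cases hl : clsW b l = .one
        · have h5 := hC A''.symm
          rw [hl, hj] at h5
          exact h5.trans (c12 _)
        · have h5 := (hf h'').2
          rw [A''.XM_eq b, A''.cr_eq b, hj] at h5
          have h6 := fe2_tab p (oc b j p.rev) (oc b l p) hl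
          linarith only [f3, h5, h6]
      obtain ⟨u1, u2, u3, u4⟩ := cw_two_w (by linarith only [hcon, hc1, hw1]) g2 w1 w2 w3 w4
      refine A.flat_right hy hcl (hf h).2 ?_
      rw [e1, e2]
      exact MQ.flat_sum_two (by linarith only [hle, hcon]) (by linarith only [hc1, hw1, f3, g3]) hcon.le (by linarith only [hs, f3, g3]) f3 (by linarith only [hc1, hw1, f3, g3])
        (abs_le.2 ⟨u3, u4⟩) u1 u2 (by linarith only [hB, hB'])
  intro h h' i j j' p A A' hc
  rcases le_total (y (.inl (.inl h'))) (y (.inl (.inl h))) with hle | hle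
  · exact key A A' hc hle
  · have := key A' A.rr hc hle
    linarith only [this]

end SR

end Pool.Agent.Work.MP_b30479_gt.G2
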