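import Pool.Agent.Work.MP_b30479_gt.G2.MFC
import Pool.Agent.Work.MP_b30479_gt.G2.MFR
import Pool.Agent.Work.MP_b30479_gt.G2.MQF
import Pool.Agent.Work.MP_b30479_gt.G2.MLY

/-!
# Conditional floors of the other hinge of a digit `1` next to a `3`

The hinge `1 | 3` (the `3` on the right) is beyond `2 / 5`.
-/

namespace Pool.Agent.Work.MP_b30479_gt.G2

open Finset VOL Filter Topology

namespace SR

open ML

variable {M : ℕ} {b : Fin (M + 1) → ℤ} {zs : DD (tyW b) ⊕ ZZ (tyW b) → ℂ}
variable {y : DD (tyW b) ⊕ ZZ (tyW b) → ℝ}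
variable {h h' h'' : Fin M} {i j j' l : Fin (M + 1)} {p : Fin 3}

/-! ### paths -/

/-- a single hinge on its flat part -/
theorem Adj.Yw_fl (A : Adj h i p j) (hy : Mx b zs y) (h0 : wcl b h ≤ y (.inl (.inl h)))
    (h1 : y (.inl (.inl h)) ≤ wXM b h - wcr b h) :
    Yw b zs y i p = lv (y (.inl (.inl h))) (ofs (b i) (zs (.inl (.inl h))).im) := by
  have q1 := wcr_pos (b := b) h
  have q3 := wcl_pos (b := b) h
  apply Complex.ext
  · rw [A.re, lv_re]
  · rw [(A.rh hy).im, A.re, tr_b q3 q1 h0 h1, mul_one, lv_im]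

/-- the height on the right ramp -/
theorem Adj.im_ramp (A : Adj h i p j) (hy : Mx b zs y)
    (h0 : wXM b h - wcr b h ≤ y (.inl (.inl h))) :
    (Yw b zs y i p).im = ofs (b i) (zs (.inl (.inl h))).im *
      ((wXM b h - y (.inl (.inl h))) / wcr b h) := by
  have r := A.rh hy
  obtain ⟨g1, g2, g3⟩ := A.good (b := b)
  have hM := r.reM
  rw [A.re] at hM
  rw [r.im, A.re, tr_c g1 g2 g3 h0 hM]

/-- exclusion on the left ramp -/
theorem Adj.ramp_false (_ : Adj h i p j) (hb : ClassW b) (hy : Mx b zs y)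
    (h0 : 0 < y (.inl (.inl h))) (h1 : y (.inl (.inl h)) < wcl b h)
    (L : LStep b zs y h ((zs (.inl (.inl h))).im / wcl b h)) : False := by
  obtain ⟨c, e1, e2, hc, he, hs⟩ := L
  have hx' : y (.inl (.inl h)) < wXM b h := by
    have := w_sum (b := b) h
    have := wcr_pos (b := b) h
    linarith
  rw [← w_sR_left (zs := zs) h h1] at hs
  exact lside_false hb hy h h0 hx' hc he hs

/-- the path of a hinge `1 | 3`, the `3` on the right -/
theorem Adj.par13 (A : Adj h i 2 j) (hc : clsW b i = .one) (hj : clsW b j = .three) :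
    wXM b h = 65 / 100 ∧ wcl b h = 13 / 100 ∧ wcr b h = 15 / 100 := by
  rw [A.XM_eq b, A.cl_eq b, A.cr_eq b, hc, hj]
  unfold hpp
  rw [if_pos rfl]
  simp only [hp, hp1]
  norm_num

/-- its height -/
theorem Adj.im13 (A : Adj h i 2 j) (hy : Mx b zs y) (hc : clsW b i = .one)
    (hj : clsW b j = .three) {k : ℕ} (hk : k < 10) (hx : (MF.xi k : ℝ) / 10000 ≤ y (.inl (.inl h)))
    (hx' : y (.inl (.inl h)) ≤ (MF.xi (k + 1) : ℝ) / 10000) :
    (Yw b zs y i 2).im = ofs (b i) (zs (.inl (.inl h))).im * MF.trx k (y (.inl (.inl h))) := by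
  obtain ⟨hX, hl, hr⟩ := A.par13 hc hj
  unfold MF.trx
  split_ifs with h4
  · have h5 : y (.inl (.inl h)) ≤ 50 / 100 := by
      refine hx'.trans ?_
      interval_cases k <;> simp only [MF.xi] <;> norm_num
    have h6 := MF.xi_pos hk hx
    rw [A.Yw_fl hy (by rw [hl]; linarith only [h6]) (by rw [hX, hr]; linarith only [h5]), lv_im, mul_one]
  · have h5 : 50 / 100 ≤ y (.inl (.inl h)) := by
      refine le_trans ?_ hx
      have : 4 ≤ k := Nat.not_lt.1 h4
      interval_cases k <;> simp only [MF.xi] <;> norm_num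
    rw [A.im_ramp hy (by rw [hX, hr]; linarith only [h5]), hX, hr]

theorem trx_le_one {k : ℕ} {x : ℝ} (hx : ¬ k < 4 → 50 / 100 ≤ x) : MF.trx k x ≤ 1 := by
  unfold MF.trx
  split_ifs with h4
  · exact le_rfl
  · rw [div_le_one (by norm_num)]
    linarith only [hx, h4, hx h4]

/-! ### the other hinge of a digit `2` -/

theorem mul_low {t t0 X x cr : ℝ} (ht : t0 ≤ t) (ht0 : t0 ≤ 0) (hcr : 0 < cr) (h : x ≤ X)
    (hx : 51 / 100 ≤ x) (hn : -(255 / 10000) * cr ≤ t0 * (X - 51 / 100)) :
    -(255 / 10000) ≤ t * ((X - x) / cr) := by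
  rw [mul_div_assoc', le_div_iff₀ hcr]
  have h1 : t0 * (X - x) ≤ t * (X - x) := mul_le_mul_of_nonneg_right ht (by linarith only [h])
  have h2 : t0 * (X - 51 / 100) ≤ t0 * (X - x) := mul_le_mul_of_nonpos_left (by linarith only [hx]) ht0
  linarith only [hn, h1, h2]

theorem k2_ne_one (p : Fin 3) (P Q : Cl) {B : Cl} (hB : B ≠ .one) {t x : ℝ}
    (ht : (hbox .two B false).t0 ≤ t) (hx : 51 / 100 ≤ x) (hx' : x ≤ (hpp p P .two B Q).XM) :
    -(255 / 10000) ≤ t * (((hpp p P .two B Q).XM - x) / (hpp p P .two B Q).cr) := by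
  have h4 : t < 0 ∨ 0 ≤ t := lt_or_ge t 0
  unfold hpp at *
  by_cases hq : p = 2
  · rw [if_pos hq] at *
    cases B
    · exact absurd rfl hB
    all_goals
      simp only [hp, hbox] at *
      refine mul_low (t0 := min 0 _) ((min_le_right _ _).trans ht) (min_le_left _ _) (by norm_num) hx' hx ?_
      norm_num
  · rw [if_neg hq] at *
    cases B
    · exact absurd rfl hB
    all_goals
      simp only [hp, hbox] at *
      refine mul_low (t0 := min 0 _) ((min_le_right _ _).trans ht) (min_le_left _ _) (by norm_num) hx' hx ?_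
      norm_num

/-- **The height of the other hinge of a digit `2`.** -/
theorem Adj.two_K (A : Adj h i p j) (hb : ClassW b) (hL : Loc b zs) (hX : LocX b zs)
    (hy : Mx b zs y) (hc : clsW b i = .two)
    (h12 : ∀ {h h' : Fin M} {i j j' : Fin (M + 1)} {p : Fin 3}, Adj h i p j → Adj h' i p.rev j' →
      clsW b i = .one → clsW b j = .two → clsW b j' ≠ .ring → y (.inl (.inl h)) ≤ 535 / 1000) :
    -(985 / 10000) ≤ (Yw b zs y i p).im ∧
    (51 / 100 ≤ y (.inl (.inl h)) → -(985 / 10000) * MF.rTr 800 290 (y (.inl (.inl h))) ≤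
      (Yw b zs y i p).im) ∧
    (535 / 1000 < y (.inl (.inl h)) → -(800 / 10000) * MF.rTr 800 290 (y (.inl (.inl h))) ≤
      (Yw b zs y i p).im) := by
  have hop := A.opp hb (Or.inl (by rw [hc]; decide))
  have hM := (A.rh hy).reM
  rw [A.re] at hM
  obtain ⟨-, -, b3, -⟩ := A.box hb hL
  rw [hc, A.ss hop] at b3
  have hlow : -(985 / 10000) ≤ (Yw b zs y i p).im := by
    refine A.im_low hy (by norm_num) (le_trans ?_ b3)
    generalize clsW b j = B
    cases B <;> simp only [hbox] <;> norm_num
  have e : ∀ x : ℝ, MF.rTr 800 290 x = 1000 / 290 * (800 / 1000 - x) := by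
    intro x
    unfold MF.rTr
    push_cast
    norm_num
  refine ⟨hlow, ?_⟩
  by_cases hj : clsW b j = .one
  · have hpar : wXM b h = 80 / 100 ∧ wcr b h = 29 / 100 := by
      rw [A.XM_eq b, A.cr_eq b, hc, hj]
      unfold hpp
      split_ifs <;> simp only [hp, hp1] <;> norm_num
    obtain ⟨p1, p2⟩ := hpar
    obtain ⟨h1, j1, A1⟩ := A.symm.other_one hb hj
    have w := (hX.win A.symm A1 hj).2.1
    rw [hc, ofs_opp hop] at w
    have hr : ∀ {v : ℝ}, v ≤ 80 / 100 → 0 ≤ MF.rTr 800 290 v := by
      intro v hv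
      rw [e]
      linarith only [hv]
    have key : ∀ {c : ℝ}, c ≤ ofs (b i) (zs (.inl (.inl h))).im → 51 / 100 ≤ y (.inl (.inl h)) →
        c * MF.rTr 800 290 (y (.inl (.inl h))) ≤ (Yw b zs y i p).im := by
      intro c hc' h51
      rw [A.im_ramp hy (by rw [p1, p2]; linarith only [h51]), p1, p2]
      have e2 : (80 / 100 - y (.inl (.inl h))) / (29 / 100) = MF.rTr 800 290 (y (.inl (.inl h))) := by
        rw [e]; ring
      rw [e2]
      exact mul_le_mul_of_nonneg_right hc' (hr (by rw [p1] at hM; exact hM))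
    constructor
    · intro h51
      refine key ?_ h51
      generalize clsW b j1 = C at w
      cases C <;> simp only [cw] at w <;> linarith only [w]
    · intro h535
      refine key ?_ (by linarith only [h535])
      by_cases hj1 : clsW b j1 = .ring
      · rw [hj1] at w
        simp only [cw] at w
        linarith only [w]
      · exact absurd (h12 A.symm A1 hj hc hj1) (not_le.2 h535)
  · have h8 : wXM b h = (hpp p (oc b i p.rev) .two (clsW b j) (oc b j p)).XM := by
      rw [A.XM_eq b, hc]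
    have h9 : wcr b h = (hpp p (oc b i p.rev) .two (clsW b j) (oc b j p)).cr := by
      rw [A.cr_eq b, hc]
    have hX60 : wXM b h = 60 / 100 := by
      rw [h8]
      generalize clsW b j = B at *
      unfold hpp
      split_ifs <;> cases B <;> first
        | exact absurd rfl hj
        | (simp only [hp])
    have hfl : wXM b h - wcr b h ≤ 33 / 100 := by
      have := fe2_tab p (oc b i p.rev) (oc b j p) hj
      rw [h8, h9]
      exact this
    have key : 51 / 100 ≤ y (.inl (.inl h)) → -(255 / 10000) ≤ (Yw b zs y i p).im := by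
      intro h51
      rw [A.im_ramp hy (by linarith only [hfl, h51]), h8, h9]
      rw [h8] at hM
      exact k2_ne_one p _ _ hj b3 h51 hM
    constructor
    · intro h51
      have := key h51
      rw [e]
      linarith only [hM, hX60, this]
    · intro h535
      have := key (by linarith only [h535])
      rw [e]
      linarith only [hM, hX60, this]

/-! ### the own side -/

/-- the own side at slope `0` -/
theorem Adj.cf_own (A : Adj h i 2 j) (A' : Adj h' i 0 j') (hb : ClassW b) (hy : Mx b zs y)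
    (hi : clsW b i = .one) (hj : clsW b j = .three) {k : ℕ} (hk : k < 10)
    (hx : (MF.xi k : ℝ) / 10000 ≤ y (.inl (.inl h)))
    (hx' : y (.inl (.inl h)) ≤ (MF.xi (k + 1) : ℝ) / 10000)
    (h0 : wcl b h' ≤ y (.inl (.inl h'))) (h1 : y (.inl (.inl h')) ≤ wXM b h' - wcr b h')
    (hs : y (.inl (.inl h')) + y (.inl (.inl h)) < 1) (n : ℝ) :
    Sw b zs y i 0 0 + n / 10 * Real.pi * ofs (b i) (zs (.inl (.inl h'))).im =
      MF.fs 1 n (y (.inl (.inl h'))) (y (.inl (.inl h))) (ofs (b i) (zs (.inl (.inl h'))).im)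
        (ofs (b i) (zs (.inl (.inl h))).im * MF.trx k (y (.inl (.inl h)))) := by
  have hw : 0 < y (.inl (.inl h')) := (wcl_pos h').trans_le h0
  have hx0 : 0 < y (.inl (.inl h)) := lt_of_lt_of_le (by norm_num) (MF.xi_pos hk hx)
  rw [A'.side_one hb hi, ofs_zero', A'.Yw_fl hy h0 h1, ← MF.S1_fs hw hx0 hs n]
  have e := A.Yw_lv (zs := zs) (y := y)
  rw [A.im13 hy hi hj hk hx hx'] at e
  rw [show (0 : Fin 3).rev = 2 from rfl, e]

/-- the own side of a ramp -/
theorem Adj.K13_nonneg (A : Adj h i 2 j) (hy : Mx b zs y) (hi : clsW b i = .one)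
    (hj : clsW b j = .three) {k : ℕ} (hk : k < 10)
    (hx : (MF.xi k : ℝ) / 10000 ≤ y (.inl (.inl h)))
    (hx' : y (.inl (.inl h)) ≤ (MF.xi (k + 1) : ℝ) / 10000)
    (h0 : 0 ≤ ofs (b i) (zs (.inl (.inl h))).im) : 0 ≤ (Yw b zs y i 2).im := by
  rw [A.im13 hy hi hj hk hx hx']
  exact mul_nonneg h0 (MF.trx_nonneg (MF.xi_le hk hx'))

theorem fl2_le {k : ℕ} (hk : k < 10) : (MF.fl2 k : ℝ) / 10000 ≤ 235 / 1000 := by
  interval_cases k <;> simp only [MF.fl2] <;> norm_num

theorem flE_le {k : ℕ} (hk : k < 10) : (MF.flE k : ℝ) / 10000 ≤ 247 / 1000 := by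
  interval_cases k <;> simp only [MF.flE] <;> norm_num

theorem fl1_le {k : ℕ} (hk : k < 10) : (MF.fl1 k : ℝ) / 10000 ≤ 192 / 1000 := by
  interval_cases k <;> simp only [MF.fl1] <;> norm_num

/-- **Conditional floor of a hinge `2 | 1`.** -/
theorem cf_two {k : ℕ} (hk : k < 10) (hb : ClassW b) (hL : Loc b zs) (hX : LocX b zs)
    (hy : Mx b zs y) (hpos : ∀ h : Fin M, 0 < y (.inl (.inl h))) (hF : Flr b y F1)
    (hC : Cap b y C1)
    (h12 : ∀ {h h' : Fin M} {i j j' : Fin (M + 1)} {p : Fin 3}, Adj h i p j → Adj h' i p.rev j' →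
      clsW b i = .one → clsW b j = .two → clsW b j' ≠ .ring → y (.inl (.inl h)) ≤ 535 / 1000)
    (A : Adj h i 2 j) (A' : Adj h' i 0 j') (hi : clsW b i = .one) (hj : clsW b j = .three)
    (hj' : clsW b j' = .two) (hx : (MF.xi k : ℝ) / 10000 ≤ y (.inl (.inl h)))
    (hx' : y (.inl (.inl h)) ≤ (MF.xi (k + 1) : ℝ) / 10000) :
    (MF.fl2 k : ℝ) / 10000 ≤ y (.inl (.inl h')) := by
  by_contra hcon
  push Not at hcon
  have hfl := fl2_le hk
  have hop := A'.opp hb (Or.inl (by rw [hi]; decide))
  obtain ⟨w1, w2, -, -⟩ := hX.win A' A hi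
  obtain ⟨v1, -, v3, -⟩ := hX.win A A' hi
  rw [hj, hj'] at w1 w2 v1 v3
  simp only [cw] at w1 w2 v1 v3
  have hcl : wcl b h' = ((160 : ℤ) : ℝ) / 1000 := by
    rw [A'.cl_one hi, hj']
    rfl
  have hF1 := hF A'
  rw [hi, hj'] at hF1
  simp only [F1] at hF1
  have x0 := MF.xi_pos hk hx
  have x1 := MF.xi_le hk hx'
  obtain ⟨h2, l, A2⟩ := A'.symm.other' b (clsW_inner hb (Or.inr (Or.inl hj')))
  have g1 := hF A2
  have g2 := hC A2
  rw [hj'] at g1 g2
  rw [C1_two] at g2
  have g3 : (100 : ℝ) / 1000 ≤ y (.inl (.inl h2)) := by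
    refine le_trans ?_ g1
    cases clsW b l <;> simp only [F1] <;> (try split_ifs) <;> norm_num
  rcases lt_or_ge (y (.inl (.inl h'))) (wcl b h') with hw | hw
  · -- left ramp
    have s2 := A'.symm.two_one_L2 A2 hb hL hX hy hpos hj' hi (by linarith only [hF1])
      (by rw [hcl] at hw; push_cast at hw; linarith only [hw]) g3 g2
    have hsum : y (.inl (.inl h')) + y (.inl (.inl h)) < 1 := by linarith only [hcl, hF1, x1, hw]
    have hK := A.K13_nonneg hy hi hj hk hx hx' (by linarith only [v1])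
    have s1 := cf_own2 (T := ofs (b i) (zs (.inl (.inl h'))).im) (x := y (.inl (.inl h')))
      (y := y (.inl (.inl h))) (k := (Yw b zs y i 2).im)
      ⟨by push_cast; linarith only [hF1], by rw [hcl] at hw; push_cast at hw ⊢; linarith only [hw],
        by push_cast; linarith only [w1], by push_cast; linarith only [w2], by push_cast; linarith only [hK],
        by push_cast; linarith only [w1, hK], by push_cast; linarith only [x0], by push_cast; linarith only [x1],
        by push_cast; linarith only [x0]⟩ (hpos h') (hpos h) hsum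
    rw [← hcl] at s1
    have e1 := A'.one_sd A hb hy hi hw.le (hpos h') (hpos h) hsum (cR 0 2100 0 (y (.inl (.inl h'))))
    rw [show (0 : Fin 3).rev = 2 from rfl] at e1
    rw [← e1] at s1
    refine A'.ramp_false hb hy (hpos h') hw ?_
    exact LStep.opp A' hb (by rw [hi]; decide) (c := cR 0 2100 0 (y (.inl (.inl h'))))
      (by push_cast; norm_num) s1.le s2
  · have hfe : y (.inl (.inl h')) ≤ wXM b h' - wcr b h' := by
      have := A'.fe_low hi
      linarith only [hcon, hfl, this]
    have hsum : y (.inl (.inl h')) + y (.inl (.inl h)) < 1 := by linarith only [hcon, hfl, x1]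
    have hsum2 : y (.inl (.inl h')) + y (.inl (.inl h2)) < 1 := by linarith only [hcon, hfl, x0, g2, hsum]
    have hw' : ((1600 : ℤ) : ℝ) / 10000 ≤ y (.inl (.inl h')) := by
      rw [hcl] at hw
      push_cast at hw ⊢
      linarith only [hw]
    have s1 := MF.own2 hk ⟨hw', hcon.le⟩ ⟨hx, hx'⟩
      (T := ofs (b i) (zs (.inl (.inl h'))).im) (κ := ofs (b i) (zs (.inl (.inl h))).im)
      ⟨by push_cast; linarith only [w1], by push_cast; linarith only [w2]⟩ (by push_cast; linarith only [v1])
      (by push_cast; linarith only [v3]) hsum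
    rw [← A.cf_own A' hb hy hi hj hk hx hx' hw hfe hsum] at s1
    obtain ⟨k1, k2, k3⟩ := A2.two_K hb hL hX hy hj' h12
    have hT2 : ofs (b j') (zs (.inl (.inl h'))).im = -ofs (b i) (zs (.inl (.inl h'))).im :=
      ofs_opp hop _
    rw [show (Fin.rev (Fin.rev (0 : Fin 3))) = 0 from rfl] at k1 k2 k3 A2
    have s2 := MF.two2 hk ⟨hw', hcon.le⟩ (T := ofs (b j') (zs (.inl (.inl h'))).im)
      (K := (Yw b zs y j' 0).im)
      ⟨by push_cast; linarith only [w2, hT2], by push_cast; linarith only [w1, hT2]⟩ hsum2 ⟨g3, g2⟩ (fun _ => k1) k2 k3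
    refine A'.flat_left hy hw (lt_of_le_of_ne hfe ?_) ?_
    · intro h5
      have := A'.fe_low hi
      linarith only [hcon, hfl, x0, hsum, h5, this]
    · have q1 := A'.symm.side_two hb (Or.inl hj') (zs := zs) (y := y) 0
      have q2 := A'.symm.Yw_fl hy hw hfe
      have q3 := A2.Yw_lv (zs := zs) (y := y)
      rw [show (0 : Fin 3).rev = 2 from rfl] at q1 q2 ⊢
      rw [show (2 : Fin 3).rev = 0 from rfl] at q1
      rw [ofs_zero', q2, q3] at q1
      have q4 := MF.S2_fs (w := y (.inl (.inl h'))) (x := y (.inl (.inl h2)))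
        (T := ofs (b j') (zs (.inl (.inl h'))).im) (K := (Yw b zs y j' 0).im) (hpos h') (hpos h2)
        hsum2 (((MF.sh2 k - 10 : ℤ) : ℝ))
      rw [← q1] at q4
      rw [← q4] at s2
      push_cast at s1 s2
      rw [hT2] at s2
      linarith only [s1, s2]

/-- **Conditional floor of a hinge `2 | 1`, the `2` at an end.** -/
theorem cf_twoE {k : ℕ} (hk : k < 10) (hb : ClassW b) (hL : Loc b zs) (hX : LocX b zs)
    (hy : Mx b zs y) (hpos : ∀ h : Fin M, 0 < y (.inl (.inl h))) (hF : Flr b y F1)
    (A : Adj h i 2 j) (A' : Adj h' i 0 j') (hi : clsW b i = .one) (hj : clsW b j = .three)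
    (hj' : clsW b j' = .twoE) (hx : (MF.xi k : ℝ) / 10000 ≤ y (.inl (.inl h)))
    (hx' : y (.inl (.inl h)) ≤ (MF.xi (k + 1) : ℝ) / 10000) :
    (MF.flE k : ℝ) / 10000 ≤ y (.inl (.inl h')) := by
  by_contra hcon
  push Not at hcon
  have hfl := flE_le hk
  have hop := A'.opp hb (Or.inl (by rw [hi]; decide))
  obtain ⟨w1, w2, -, -⟩ := hX.win A' A hi
  obtain ⟨v1, -, v3, -⟩ := hX.win A A' hi
  rw [hj, hj'] at w1 w2 v1 v3
  simp only [cw] at w1 w2 v1 v3
  have hcl : wcl b h' = ((140 : ℤ) : ℝ) / 1000 := by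
    rw [A'.cl_one hi, hj']
    rfl
  have hF1 := hF A'
  rw [hi, hj'] at hF1
  simp only [F1] at hF1
  have x0 := MF.xi_pos hk hx
  have x1 := MF.xi_le hk hx'
  have hsum : y (.inl (.inl h')) + y (.inl (.inl h)) < 1 := by linarith only [hcon, hfl, x1]
  rcases lt_or_ge (y (.inl (.inl h'))) (wcl b h') with hw | hw
  · -- left ramp
    have hw2 := hw
    rw [hcl] at hw2
    push_cast at hw2
    have s2 := A'.symm.twoE_one_L hb hL hy hpos hj' hi (n := 2) (e := 0)
      (Or.inr (Or.inr ⟨rfl, rfl, by linarith only [hF1], by linarith only [hcl, hw]⟩))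
    have hK := A.K13_nonneg hy hi hj hk hx hx' (by linarith only [v1, hcl, hF1, hw])
    have s1 := cf_ownE (T := ofs (b i) (zs (.inl (.inl h'))).im) (x := y (.inl (.inl h')))
      (y := y (.inl (.inl h))) (k := (Yw b zs y i 2).im)
      ⟨by push_cast; linarith only [hF1], by push_cast; linarith only [hcl, hw],
        by push_cast; linarith only [w1], by push_cast; linarith only [w2], by push_cast; linarith only [hK],
        by push_cast; linarith only [w1, hK], by push_cast; linarith only [x0], by push_cast; linarith only [x1],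
        by push_cast; linarith only [hcl, hF1, x0, hw]⟩ (hpos h') (hpos h) hsum
    rw [← hcl] at s1
    have e1 := A'.one_sd A hb hy hi hw.le (hpos h') (hpos h) hsum (cR 0 2100 0 (y (.inl (.inl h'))))
    rw [show (0 : Fin 3).rev = 2 from rfl] at e1
    rw [← e1] at s1
    refine A'.ramp_false hb hy (hpos h') hw ?_
    exact LStep.opp A' hb (by rw [hi]; decide) (c := cR 0 2100 0 (y (.inl (.inl h'))))
      (by push_cast; norm_num) s1.le s2
  · have hfe : y (.inl (.inl h')) ≤ wXM b h' - wcr b h' := by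
      have := A'.fe_low hi
      linarith only [hcon, hfl, x0, hsum, this]
    have hw' : ((1400 : ℤ) : ℝ) / 10000 ≤ y (.inl (.inl h')) := by
      rw [hcl] at hw
      push_cast at hw ⊢
      linarith only [hw]
    have s1 := MF.ownE hk ⟨hw', hcon.le⟩ ⟨hx, hx'⟩
      (T := ofs (b i) (zs (.inl (.inl h'))).im) (κ := ofs (b i) (zs (.inl (.inl h))).im)
      ⟨by push_cast; linarith only [w1], by push_cast; linarith only [w2]⟩ (by push_cast; linarith only [v1])
      (by push_cast; linarith only [v3]) hsum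
    rw [← A.cf_own A' hb hy hi hj hk hx hx' hw hfe hsum] at s1
    have hT2 : ofs (b j') (zs (.inl (.inl h'))).im = -ofs (b i) (zs (.inl (.inl h'))).im :=
      ofs_opp hop _
    have s2 := MF.twoE2 hk ⟨hw', hcon.le⟩ (T := ofs (b j') (zs (.inl (.inl h'))).im)
      ⟨by push_cast; linarith only [w2, hT2], by push_cast; linarith only [w1, hT2]⟩
    refine A'.flat_left hy hw (lt_of_le_of_ne hfe ?_) ?_
    · intro h5
      have := A'.fe_low hi
      linarith only [hcon, hfl, x0, hsum, h5, this]
    · have h00 : Yw b zs y j' 0 = 0 := by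
        rcases A'.symm.other b zs y with ⟨-, h0⟩ | ⟨he', -⟩
        · exact h0
        · rw [clsW_end (Or.inl hj')] at he'
          exact absurd he' (by decide)
      have q1 := A'.symm.side_two hb (Or.inr hj') (zs := zs) (y := y) 0
      have q2 := A'.symm.Yw_fl hy hw hfe
      rw [show (0 : Fin 3).rev = 2 from rfl] at q1 q2 ⊢
      rw [show (2 : Fin 3).rev = 0 from rfl] at q1
      rw [ofs_zero', q2, h00] at q1
      have q4 := MF.S2E_fs (w := y (.inl (.inl h')))
        (T := ofs (b j') (zs (.inl (.inl h'))).im) (hpos h') (by linarith only [x0, hsum]) (((0 : ℤ) : ℝ))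
      rw [← q1] at q4
      rw [← q4] at s2
      push_cast at s1 s2
      rw [hT2] at s2
      linarith only [s1, s2]

/-! ### `1 | 1` -/

/-- classes other than `one`, `twoE` -/
theorem pcw_G {Q : Cl} (h1 : Q ≠ .one) (h2 : Q ≠ .twoE) {T k r : ℝ} (w : (pcw .three Q).In T k r) :
    -(36 / 1000) ≤ T ∧ T ≤ 40 / 1000 ∧ 18 / 1000 ≤ k ∧ 11 / 1000 ≤ T + k ∧ -(6 / 1000) ≤ r := by
  obtain ⟨a1, a2, a3, -, a5, -, a7, -, -, -, -, -⟩ := w
  cases Q <;> first
    | exact absurd rfl h1
    | exact absurd rfl h2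
    | (simp only [pcw] at a1 a2 a3 a5 a7
       refine ⟨?_, ?_, ?_, ?_, ?_⟩ <;> linarith only [a1, a2, a3, a7, a5])

theorem F1_one_ge (q : Fin 3) (C : Cl) : (110 : ℝ) / 1000 ≤ F1 q .one C := by
  cases C <;> simp only [F1] <;> (try split_ifs) <;> norm_num

theorem C1_G (q : Fin 3) {Q : Cl} (h1 : Q ≠ .one) : C1 q .one Q ≤ 65 / 100 := by
  cases Q <;> first
    | exact absurd rfl h1
    | (simp only [C1]; norm_num)

/-- **Conditional floor of a hinge `1 | 1`.** -/
theorem cf_one {k : ℕ} (hk : k < 10) (hb : ClassW b) (hP : LocP b zs) (hy : Mx b zs y) (hpos : ∀ h : Fin M, 0 < y (.inl (.inl h)))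
    (hF : Flr b y F1) (hC : Cap b y C1)
    (A : Adj h i 2 j) (A' : Adj h' i 0 j') (hi : clsW b i = .one) (hj : clsW b j = .three)
    (hj' : clsW b j' = .one) (hx : (MF.xi k : ℝ) / 10000 ≤ y (.inl (.inl h)))
    (hx' : y (.inl (.inl h)) ≤ (MF.xi (k + 1) : ℝ) / 10000) :
    (MF.fl1 k : ℝ) / 10000 ≤ y (.inl (.inl h')) := by
  by_contra hcon
  push Not at hcon
  have hfl := fl1_le hk
  have hop := A'.opp hb (Or.inl (by rw [hi]; decide))
  obtain ⟨h2, l, A2⟩ := A'.symm.other_one hb hj'
  rw [show (Fin.rev (Fin.rev (0 : Fin 3))) = 0 from rfl] at A2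
  have w := hP.pair A' A A2 hi hj'
  rw [hj] at w
  have hcl : wcl b h' = ((150 : ℤ) : ℝ) / 1000 := by
    rw [A'.cl_one hi, hj']
    rfl
  have hF1 := hF A'
  rw [hi, hj'] at hF1
  simp only [F1] at hF1
  have x0 := MF.xi_pos hk hx
  have x1 := MF.xi_le hk hx'
  have g1 := hF A2
  have g2 := hC A2
  rw [hj'] at g1 g2
  have hsum : y (.inl (.inl h')) + y (.inl (.inl h)) < 1 := by linarith only [hcon, hfl, x1]
  have g2' : y (.inl (.inl h2)) ≤ 70 / 100 := by
    refine g2.trans ?_
    cases clsW b l <;> simp only [C1] <;> norm_num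
  have hsum2 : y (.inl (.inl h')) + y (.inl (.inl h2)) < 1 := by linarith only [hcon, hfl, x0, hsum, g2']
  have hT2 : ofs (b j') (zs (.inl (.inl h'))).im = -ofs (b i) (zs (.inl (.inl h'))).im :=
    ofs_opp hop _
  -- the two sides as real functions
  have hcls : clsW b l = .one ∨ clsW b l = .twoE ∨ (clsW b l ≠ .one ∧ clsW b l ≠ .twoE) := by
    by_cases c1 : clsW b l = .one
    · exact Or.inl c1
    · by_cases c2 : clsW b l = .twoE
      · exact Or.inr (Or.inl c2)
      · exact Or.inr (Or.inr ⟨c1, c2⟩)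
  rcases lt_or_ge (y (.inl (.inl h'))) (wcl b h') with hw | hw
  · -- left ramp
    have hw2 := hw
    rw [hcl] at hw2
    push_cast at hw2
    have hcw : -(80 / 1000) ≤ ofs (b i) (zs (.inl (.inl h'))).im ∧
        ofs (b i) (zs (.inl (.inl h'))).im ≤ 50 / 1000 ∧
        0 ≤ ofs (b i) (zs (.inl (.inl h))).im := by
      obtain ⟨a1, a2, a3, -, -, -, -, -, -, -, -, -⟩ := w
      generalize clsW b l = Q at *
      clear hcls hF hC hP hb hy hF1 g1 g2
      cases Q <;> simp only [pcw] at a1 a2 a3 <;> refine ⟨?_, ?_, ?_⟩ <;> linarith only [a1, a2, a3]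
    obtain ⟨b1, b2, b3⟩ := hcw
    have hK := A.K13_nonneg hy hi hj hk hx hx' b3
    have s1 := cf_own1 (T := ofs (b i) (zs (.inl (.inl h'))).im) (x := y (.inl (.inl h')))
      (y := y (.inl (.inl h))) (k := (Yw b zs y i 2).im)
      ⟨by push_cast; linarith only [hF1], by push_cast; linarith only [hcl, hw],
        by push_cast; linarith only [b1], by push_cast; linarith only [b2], by push_cast; linarith only [hK],
        by push_cast; linarith only [b1, hK], by push_cast; linarith only [x0], by push_cast; linarith only [x1],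
        by push_cast; linarith only [hcl, hF1, x0, hw]⟩ (hpos h') (hpos h) hsum
    rw [← hcl] at s1
    have e1 := A'.one_sd A hb hy hi hw.le (hpos h') (hpos h) hsum (cR 1 0 0 (y (.inl (.inl h'))))
    have e2 := A'.symm.one_sd A2 hb hy hj' hw.le (hpos h') (hpos h2) hsum2
      (cR 1 0 0 (y (.inl (.inl h'))))
    rw [show (0 : Fin 3).rev = 2 from rfl] at e1 e2
    rw [show (2 : Fin 3).rev = 0 from rfl] at e2
    rw [← e1] at s1
    have s2 : (((-125) : ℤ) : ℝ) / 1000 < sd 1 (cR 1 0 0 (y (.inl (.inl h')))) (y (.inl (.inl h')))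
        (ofs (b j') (zs (.inl (.inl h'))).im / wcl b h') (y (.inl (.inl h2)))
        (Yw b zs y j' 0).im := by
      rw [hcl]
      rcases hcls with hl | hl | ⟨hl, hl'⟩
      · rw [hl] at w g1 g2
        simp only [F1, C1] at g1 g2
        obtain ⟨a1, a2, -, -, a5, -, -, -, a9, -, -, -⟩ := w
        simp only [pcw] at a1 a2 a5 a9
        have c1 : -(69 / 1000) ≤ (Yw b zs y j' 0).im := A2.im_low hy (by norm_num) (by linarith only [a5])
        have c2 : -(67 / 1000) - ofs (b j') (zs (.inl (.inl h'))).im ≤ (Yw b zs y j' 0).im :=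
          A2.im_low hy (by linarith only [hcl, hF1, hT2, hw, b2]) (by linarith only [hT2, a9])
        exact cf_oth1 ⟨by push_cast; linarith only [hF1], by push_cast; linarith only [hcl, hw], by push_cast; linarith only [hT2, b2],
          by push_cast; linarith only [hT2, a1], by push_cast; linarith only [c1], by push_cast; linarith only [c2],
          by push_cast; linarith only [g1], by push_cast; linarith only [g2], by push_cast; linarith only [hcl, hF1, g1, hw]⟩ (hpos h')
          (hpos h2) hsum2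
      · rw [hl] at w g1 g2
        simp only [F1, C1] at g1 g2
        obtain ⟨a1, a2, -, -, a5, -, -, -, a9, -, -, -⟩ := w
        simp only [pcw] at a1 a2 a5 a9
        have c1 : -(60 / 1000) ≤ (Yw b zs y j' 0).im := A2.im_low hy (by norm_num) (by linarith only [a5])
        have c2 : -(18 / 1000) - ofs (b j') (zs (.inl (.inl h'))).im ≤ (Yw b zs y j' 0).im :=
          A2.im_low hy (by linarith only [hcl, hF1, hT2, hw, a2]) (by linarith only [hT2, a9])
        refine lt_trans ?_ (cf_oth2e ⟨by push_cast; linarith only [hF1], by push_cast; linarith only [hcl, hw], by push_cast; linarith only [hT2, a2],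
          by push_cast; linarith only [hT2, a1], by push_cast; linarith only [c1], by push_cast; linarith only [c2],
          by push_cast; linarith only [g1], by push_cast; linarith only [g2], by push_cast; linarith only [hcl, hF1, g1, hw]⟩ (hpos h')
          (hpos h2) hsum2)
        norm_num
      · obtain ⟨a1, a2, a3, a4, a5⟩ := pcw_G hl hl' w
        have d1 := F1_one_ge 0 (clsW b l)
        have d2 := C1_G 0 hl
        have c1 : -(6 / 1000) ≤ (Yw b zs y j' 0).im := A2.im_low hy (by norm_num) (by linarith only [a5])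
        refine lt_trans ?_ (cf_othG ⟨by push_cast; linarith only [hF1], by push_cast; linarith only [hcl, hw], by push_cast; linarith only [hT2, a2],
          by push_cast; linarith only [hT2, a1], by push_cast; linarith only [c1], by push_cast; linarith only [hT2, a2, c1],
          by push_cast; linarith only [g1, d1], by push_cast; linarith only [g2, d2], by push_cast; linarith only [hcl, hF1, g1, hw, d1]⟩ (hpos h')
          (hpos h2) hsum2)
        norm_num
    rw [← e2] at s2
    refine A'.ramp_false hb hy (hpos h') hw ?_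
    exact LStep.opp A' hb (by rw [hi]; decide) (c := cR 1 0 0 (y (.inl (.inl h'))))
      (by push_cast; norm_num) s1.le s2.le
  · have hfe : y (.inl (.inl h')) ≤ wXM b h' - wcr b h' := by
      have := A'.fe_low hi
      linarith only [hcon, hfl, this]
    have hw' : ((1500 : ℤ) : ℝ) / 10000 ≤ y (.inl (.inl h')) := by
      rw [hcl] at hw
      push_cast at hw ⊢
      linarith only [hw]
    have q1 := A'.symm.side_one hb hj' (zs := zs) (y := y) 0
    have q2 := A'.symm.Yw_fl hy hw hfe
    have q3 := A2.Yw_lv (zs := zs) (y := y)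
    rw [show (0 : Fin 3).rev = 2 from rfl] at q1 q2
    rw [show (2 : Fin 3).rev = 0 from rfl] at q1
    rw [ofs_zero', q2, q3] at q1
    have q4 := MF.S1_fs (w := y (.inl (.inl h'))) (x := y (.inl (.inl h2)))
      (T := ofs (b j') (zs (.inl (.inl h'))).im) (K := (Yw b zs y j' 0).im) (hpos h') (hpos h2)
      hsum2 (((0 : ℤ) : ℝ))
    rw [← q1] at q4
    have e1 := A.cf_own A' hb hy hi hj hk hx hx' hw hfe hsum (((0 : ℤ) : ℝ))
    refine A'.flat_left hy hw (lt_of_le_of_ne hfe ?_) ?_
    · intro h5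
      have := A'.fe_low hi
      linarith only [hcon, hfl, h5, this]
    rw [show (0 : Fin 3).rev = 2 from rfl]
    rcases hcls with hl | hl | ⟨hl, hl'⟩
    · rw [hl] at w g1 g2
      simp only [F1, C1] at g1 g2
      obtain ⟨a1, a2, a3, -, a5, -, a7, -, a9, -, -, -⟩ := w
      simp only [pcw] at a1 a2 a3 a5 a7 a9
      have c1 : -(690 / 10000) ≤ (Yw b zs y j' 0).im := A2.im_low hy (by norm_num) (by linarith only [a5])
      have c2 : -(670 / 10000) - ofs (b j') (zs (.inl (.inl h'))).im ≤ (Yw b zs y j' 0).im :=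
        A2.im_low hy (by linarith only [hcl, x0, hsum, hT2, hw, a2]) (by linarith only [hT2, a9])
      have hpar : wXM b h2 = 80 / 100 ∧ wcr b h2 = 20 / 100 := by
        have ho : oc b j' (Fin.rev 0) = .one := by
          rw [A'.symm.oc_eq b]
          exact hi
        rw [A2.XM_eq b, A2.cr_eq b, hj', hl, ho]
        unfold hpp
        rw [if_neg (by decide)]
        simp only [hp, or_true, if_true]
        norm_num
      have s1 := MF.own1 hk ⟨hw', hcon.le⟩ ⟨hx, hx'⟩
        (T := ofs (b i) (zs (.inl (.inl h'))).im) (κ := ofs (b i) (zs (.inl (.inl h))).im)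
        ⟨by push_cast; linarith only [a1], by push_cast; linarith only [a2]⟩ (by push_cast; linarith only [a3])
        (by push_cast; linarith only [a7]) hsum
      have s2 := MF.oth1 hk ⟨hw', hcon.le⟩ (T := ofs (b j') (zs (.inl (.inl h'))).im)
        (K := (Yw b zs y j' 0).im)
        ⟨by push_cast; linarith only [hT2, a2], by push_cast; linarith only [hT2, a1]⟩ hsum2 ⟨g1, g2'⟩ (fun _ => ⟨c1, c2⟩)
        (by
          intro h6
          have hr : 0 ≤ MF.rTr 800 200 (y (.inl (.inl h2))) := by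
            unfold MF.rTr
            push_cast
            apply mul_nonneg <;> linarith only [hcl, hsum2, hw, h6, g2]
          have e5 : (80 / 100 - y (.inl (.inl h2))) / (20 / 100) =
              MF.rTr 800 200 (y (.inl (.inl h2))) := by
            unfold MF.rTr
            push_cast
            ring
          rw [A2.im_ramp hy (by rw [hpar.1, hpar.2]; linarith only [h6]), hpar.1, hpar.2, e5]
          exact ⟨mul_le_mul_of_nonneg_right (by linarith only [a5]) hr,
            mul_le_mul_of_nonneg_right (by linarith only [hT2, a9]) hr⟩)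
      rw [← e1] at s1
      rw [← q4] at s2
      push_cast at s1 s2
      linarith only [hcl, x0, hsum, hw, s1, s2]
    · rw [hl] at w g1 g2
      simp only [F1, C1] at g1 g2
      obtain ⟨a1, a2, a3, -, a5, -, a7, -, a9, -, -, -⟩ := w
      simp only [pcw] at a1 a2 a3 a5 a7 a9
      have c1 : -(600 / 10000) ≤ (Yw b zs y j' 0).im := A2.im_low hy (by norm_num) (by linarith only [a5])
      have s1 := MF.own1h hk ⟨hw', hcon.le⟩ ⟨hx, hx'⟩
        (T := ofs (b i) (zs (.inl (.inl h'))).im) (κ := ofs (b i) (zs (.inl (.inl h))).im)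
        ⟨by push_cast; linarith only [a1], by push_cast; linarith only [a2]⟩ (by push_cast; linarith only [a3])
        (by push_cast; linarith only [a7]) hsum
      have s2 := MF.oth1h hk ⟨hw', hcon.le⟩ (T := ofs (b j') (zs (.inl (.inl h'))).im)
        (K := (Yw b zs y j' 0).im)
        ⟨by push_cast; linarith only [hT2, a2], by push_cast; linarith only [hT2, a1]⟩ hsum2 ⟨g1, g2⟩ c1
      rw [← e1] at s1
      rw [← q4] at s2
      push_cast at s1 s2
      linarith only [hcl, x0, hsum, hw, s1, s2]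
    · obtain ⟨a1, a2, a3, a4, a5⟩ := pcw_G hl hl' w
      have d1 := F1_one_ge 0 (clsW b l)
      have d2 := C1_G 0 hl
      have c1 : -(60 / 10000) ≤ (Yw b zs y j' 0).im := A2.im_low hy (by norm_num) (by linarith only [a5])
      have s1 := MF.own1g hk ⟨hw', hcon.le⟩ ⟨hx, hx'⟩
        (T := ofs (b i) (zs (.inl (.inl h'))).im) (κ := ofs (b i) (zs (.inl (.inl h))).im)
        ⟨by push_cast; linarith only [a1], by push_cast; linarith only [a2]⟩ (by push_cast; linarith only [a3])
        (by push_cast; linarith only [a4]) hsum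
      have s2 := MF.oth1g hk ⟨hw', hcon.le⟩ (T := ofs (b j') (zs (.inl (.inl h'))).im)
        (K := (Yw b zs y j' 0).im)
        ⟨by push_cast; linarith only [hT2, a2], by push_cast; linarith only [hT2, a1]⟩ hsum2 ⟨d1.trans g1, g2.trans d2⟩ c1
      rw [← e1] at s1
      rw [← q4] at s2
      push_cast at s1 s2
      linarith only [s1, s2]

end SR

end Pool.Agent.Work.MP_b30479_gt.G2
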