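import Pool.Agent.Work.MP_b30479_gt.G2.WValH

/-!
# Value steps for one hinge together with the inner variables of the two regions
-/

namespace Pool.Agent.Work.MP_b30479_gt.G2

open Finset VOL Filter Topology

namespace SR

variable {M : ℕ} {b : Fin (M + 1) → ℤ} {zs : DD (tyW b) ⊕ ZZ (tyW b) → ℂ}
variable {y : DD (tyW b) ⊕ ZZ (tyW b) → ℝ}
variable {h h' : Fin M} {i j j' : Fin (M + 1)} {p : Fin 3}

/-- `X'` is `X`, or `X` with the inner variable of the region `i` moved on its path -/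
def MOpt (b : Fin (M + 1) → ℤ) (zs : DD (tyW b) ⊕ ZZ (tyW b) → ℂ) (i : Fin (M + 1))
    (X X' : Fin 3 → ℂ) : Prop :=
  X' = X ∨ ∃ m : {i : Fin (M + 1) // (tyW b i).isMid = true}, m.1 = i ∧ ∃ c : ℝ, 0 ≤ c ∧
    c ≤ (wpar b zs).XM (.inr m) ∧
    X' = Function.update X 1 (ofr (b i) ((wpar b zs).pp zs (.inl (.inr m)) c))

theorem MOpt.same (i : Fin (M + 1)) (X : Fin 3 → ℂ) : MOpt b zs i X X := Or.inl rfl

theorem MOpt.move {m : {i : Fin (M + 1) // (tyW b i).isMid = true}} (hm : m.1 = i) {c : ℝ}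
    (h0 : 0 ≤ c) (h1 : c ≤ (wpar b zs).XM (.inr m)) (X : Fin 3 → ℂ) :
    MOpt b zs i X (Function.update X 1 (ofr (b i) ((wpar b zs).pp zs (.inl (.inr m)) c))) :=
  Or.inr ⟨m, hm, c, h0, h1, rfl⟩

theorem MOpt.exists {y0 : DD (tyW b) ⊕ ZZ (tyW b) → ℝ} (hb : ClassW b)
    (hy0 : y0 ∈ (wpar b zs).box (ZZ (tyW b))) {X' : Fin 3 → ℂ}
    (H : MOpt b zs i (Ow b ((wpar b zs).pth zs y0) i) X') :
    ∃ y1 ∈ (wpar b zs).box (ZZ (tyW b)), (wdat (tyW b) b).V ((wpar b zs).pth zs y1) =
      (wdat (tyW b) b).V ((wpar b zs).pth zs y0) +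
        (OV b i X' - OV b i (Ow b ((wpar b zs).pth zs y0) i)) ∧
      ∀ k, k ≠ i → Ow b ((wpar b zs).pth zs y1) k = Ow b ((wpar b zs).pth zs y0) k := by
  rcases H with rfl | ⟨m, rfl, c, h0, h1, rfl⟩
  · exact ⟨y0, hy0, by ring, fun _ _ => rfl⟩
  · refine ⟨Function.update y0 (.inl (.inr m)) c, update_mem_box hy0 h0 h1, ?_, ?_⟩
    · rw [(wpar b zs).pth_update_pp]
      have h3 := V_upd_mid (tyW b) b m ((wpar b zs).pth zs y0) ((wpar b zs).pp zs (.inl (.inr m)) c)
      rw [rV_own hb, rV_own hb, own_update_one (mid_not_ring m.2)] at h3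
      unfold Ow
      linarith
    · intro k hk
      rw [(wpar b zs).pth_update_pp]
      unfold Ow
      rw [xx_upd_mid_ne _ m _ _ k hk]

/-- **Value step for a hinge and the inner variables of the two regions.** -/
theorem val_hm (hb : ClassW b) (hy : IsMx (wdat (tyW b) b) (wpar b zs) zs y) (A : Adj h i p j)
    {c : ℝ} (h0 : 0 ≤ c) (h1 : c ≤ wXM b h) {X X' : Fin 3 → ℂ}
    (hX : MOpt b zs i (Function.update (OY b zs y i) p (pw b zs (b i) h c)) X)
    (hX' : MOpt b zs j (Function.update (OY b zs y j) p.rev (pw b zs (b j) h c)) X') :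
    OV b i X + OV b j X' ≤ OV b i (OY b zs y i) + OV b j (OY b zs y j) := by
  have key : ∀ {X X' : Fin 3 → ℂ},
      MOpt b zs h.castSucc (Function.update (OY b zs y h.castSucc) 2
        (pw b zs (b h.castSucc) h c)) X →
      MOpt b zs h.succ (Function.update (OY b zs y h.succ) 0 (pw b zs (b h.succ) h c)) X' →
      OV b h.castSucc X + OV b h.succ X' ≤
        OV b h.castSucc (OY b zs y h.castSucc) + OV b h.succ (OY b zs y h.succ) := by
    intro X X' hX hX'
    have hne : h.castSucc ≠ h.succ := (Fin.castSucc_lt_succ).ne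
    have hy0 : Function.update y (.inl (.inl h)) c ∈ (wpar b zs).box (ZZ (tyW b)) :=
      update_mem_box hy.1 h0 h1
    have h3 := V_upd_hinge (tyW b) b h ((wpar b zs).pth zs y) ((wpar b zs).pp zs (.inl (.inl h)) c)
    have e2 : Ow b ((wpar b zs).pth zs (Function.update y (.inl (.inl h)) c)) h.castSucc =
        Function.update (OY b zs y h.castSucc) 2 (pw b zs (b h.castSucc) h c) := by
      rw [(wpar b zs).pth_update_pp]
      unfold Ow OY pw Xw
      rw [xx_upd_hinge_left, own_update_two]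
    have e0 : Ow b ((wpar b zs).pth zs (Function.update y (.inl (.inl h)) c)) h.succ =
        Function.update (OY b zs y h.succ) 0 (pw b zs (b h.succ) h c) := by
      rw [(wpar b zs).pth_update_pp]
      unfold Ow OY pw Xw
      rw [xx_upd_hinge_right, own_update_zero]
    have e2' : Function.update (OY b zs y h.castSucc) 2 (pw b zs (b h.castSucc) h c) =
        own (b h.castSucc) (tyW b h.castSucc) (Function.update
          (xx (tyW b) h.castSucc ((wpar b zs).pth zs y)) 2
          ((wpar b zs).pp zs (.inl (.inl h)) c)) := by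
      rw [own_update_two]; rfl
    have e0' : Function.update (OY b zs y h.succ) 0 (pw b zs (b h.succ) h c) =
        own (b h.succ) (tyW b h.succ) (Function.update
          (xx (tyW b) h.succ ((wpar b zs).pth zs y)) 0
          ((wpar b zs).pp zs (.inl (.inl h)) c)) := by
      rw [own_update_zero]; rfl
    rw [← (wpar b zs).pth_update_pp, rV_own hb, rV_own hb, rV_own hb, rV_own hb, ← e2', ← e0'] at h3
    rw [← e2] at hX
    obtain ⟨y1, hy1, hV1, hO1⟩ := MOpt.exists hb hy0 hX
    rw [← e0, ← hO1 _ hne.symm] at hX'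
    obtain ⟨y2, hy2, hV2, -⟩ := MOpt.exists hb hy1 hX'
    have h5 : (wdat (tyW b) b).V ((wpar b zs).pth zs y2) ≤
      (wdat (tyW b) b).V ((wpar b zs).pth zs y) := hy.2 hy2
    rw [hO1 _ hne.symm, e0] at hV2
    rw [e2] at hV1
    have e3 : own (b h.castSucc) (tyW b h.castSucc) (xx (tyW b) h.castSucc ((wpar b zs).pth zs y)) =
        OY b zs y h.castSucc := rfl
    have e4 : own (b h.succ) (tyW b h.succ) (xx (tyW b) h.succ ((wpar b zs).pth zs y)) =
        OY b zs y h.succ := rfl
    rw [e3, e4] at h3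
    linarith
  cases A
  · exact key hX hX'
  · have := key hX' hX
    linarith

end SR

end Pool.Agent.Work.MP_b30479_gt.G2
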