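import Pool.Agent.Work.MP_b30479_gt.G2.WView

/-!
# Hinges seen from an adjacent region, left and right at once
-/

namespace Pool.Agent.Work.MP_b30479_gt.G2

open Finset VOL Filter Topology

namespace SR

variable {M : ℕ} {b : Fin (M + 1) → ℤ} {zs : DD (tyW b) ⊕ ZZ (tyW b) → ℂ}
variable {y : DD (tyW b) ⊕ ZZ (tyW b) → ℝ}

/-- the hinge `h` is in the slot `p` of the region `i`; `j` is the region on its other side -/
inductive Adj (h : Fin M) : Fin (M + 1) → Fin 3 → Fin (M + 1) → Prop
  | l : Adj h h.castSucc 2 h.succ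
  | r : Adj h h.succ 0 h.castSucc

variable {h h' : Fin M} {i j j' : Fin (M + 1)} {p : Fin 3}

/-- the same hinge seen from the other region -/
theorem Adj.symm (A : Adj h i p j) : Adj h j p.rev i := by
  cases A
  · exact .r
  · exact .l

theorem Adj.slot (A : Adj h i p j) : p = 0 ∨ p = 2 := by
  cases A
  · exact Or.inr rfl
  · exact Or.inl rfl

/-- a slot without a hinge -/
theorem Adj.other (A : Adj h i p j) (b : Fin (M + 1) → ℤ)
    (zs : DD (tyW b) ⊕ ZZ (tyW b) → ℂ) (y : DD (tyW b) ⊕ ZZ (tyW b) → ℝ) :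
    (isEnd i = true ∧ Yw b zs y i p.rev = 0) ∨ (isEnd i = false ∧ ∃ h' j', Adj h' i p.rev j') := by
  cases A
  · by_cases h0 : h.castSucc = 0
    · left
      refine ⟨by simp [isEnd, h0], ?_⟩
      rw [h0]
      exact Yw_zero
    · right
      obtain ⟨k, hk⟩ := Fin.eq_succ_of_ne_zero h0
      refine ⟨?_, k, k.castSucc, ?_⟩
      · unfold isEnd
        simp only [decide_eq_false_iff_not, not_or]
        exact ⟨h0, (Fin.castSucc_lt_last h).ne⟩
      · rw [hk]
        exact .r
  · by_cases h0 : h.succ = Fin.last M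
    · left
      refine ⟨by simp [isEnd, h0], ?_⟩
      rw [h0]
      exact Yw_last
    · right
      obtain ⟨k, hk⟩ := Fin.eq_castSucc_of_ne_last h0
      refine ⟨?_, k, k.succ, ?_⟩
      · unfold isEnd
        simp only [decide_eq_false_iff_not, not_or]
        exact ⟨Fin.succ_ne_zero h, h0⟩
      · rw [← hk]
        exact .l

/-- the hinge on its path in the own frame of the region -/
theorem Adj.Yw_eq (A : Adj h i p j) : Yw b zs y i p =
    ofr (b i) ((wpar b zs).pp zs (.inl (.inl h)) (y (.inl (.inl h)))) := by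
  cases A
  · exact Yw_right h
  · exact Yw_left h

theorem Adj.re (A : Adj h i p j) : (Yw b zs y i p).re = y (.inl (.inl h)) := by
  rw [A.Yw_eq, ofr_pp_re]

theorem Adj.rh (A : Adj h i p j) (hy : IsMx (wdat (tyW b) b) (wpar b zs) zs y) :
    RH (Yw b zs y i p) (ofs (b i) (zs (.inl (.inl h))).im) (wXM b h) (wcl b h) (wcr b h) := by
  rw [A.Yw_eq]
  exact hinge_RH hy h (b i)

/-- the box of the hinge seen from the region -/
theorem Adj.box (A : Adj h i p j) (hb : ClassW b) (hL : Loc b zs) :
    (hbox (clsW b i) (clsW b j) (ssW b h)).x0 ≤ (zs (.inl (.inl h))).re ∧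
    (zs (.inl (.inl h))).re ≤ (hbox (clsW b i) (clsW b j) (ssW b h)).x1 ∧
    (hbox (clsW b i) (clsW b j) (ssW b h)).t0 ≤ ofs (b i) (zs (.inl (.inl h))).im ∧
    ofs (b i) (zs (.inl (.inl h))).im ≤ (hbox (clsW b i) (clsW b j) (ssW b h)).t1 := by
  cases A
  · exact hL.seen_left h
  · exact hL.seen_right hb h

/-- signs at a hinge -/
theorem Adj.sign (A : Adj h i p j) (hb : ClassW b) : b i * b j < 0 ∨
    (0 < b i * b j ∧ clsW b i = .ring ∧ clsW b j = .ring) := by
  cases A
  · exact sign_cases hb h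
  · rcases sign_cases hb h with h1 | ⟨h1, h2, h3⟩
    · left; rwa [mul_comm] at h1
    · right; rw [mul_comm] at h1; exact ⟨h1, h3, h2⟩

theorem Adj.opp (A : Adj h i p j) (hb : ClassW b) (hc : clsW b i ≠ .ring ∨ clsW b j ≠ .ring) :
    b i * b j < 0 := by
  rcases A.sign hb with h1 | ⟨-, h2, h3⟩
  · exact h1
  · rcases hc with hc | hc
    · exact absurd h2 hc
    · exact absurd h3 hc

theorem Adj.ss (A : Adj h i p j) (h1 : b i * b j < 0) : ssW b h = false := by
  have : ¬ (0 < b h.castSucc * b h.succ) := by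
    cases A
    · omega
    · rw [mul_comm]; omega
  unfold ssW
  simpa using this

theorem ofr_opp {c c' : ℤ} (h1 : c * c' < 0) (z : ℂ) : ofr c' z = starRingEnd ℂ (ofr c z) := by
  unfold ofr
  rcases lt_trichotomy c 0 with h2 | h2 | h2
  · have h3 : 0 < c' := by
      by_contra hc
      nlinarith
    rw [if_pos h3, if_neg (by omega), Complex.conj_conj]
  · rw [h2] at h1; simp at h1
  · have h3 : c' < 0 := by
      by_contra hc
      nlinarith
    rw [if_pos h2, if_neg (by omega)]

/-- the hinge seen from the other region -/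
theorem Adj.conj (A : Adj h i p j) (h1 : b i * b j < 0) :
    Yw b zs y j p.rev = starRingEnd ℂ (Yw b zs y i p) := by
  rw [A.Yw_eq, A.symm.Yw_eq]
  exact ofr_opp h1 _

theorem Adj.ofs_conj (_ : Adj h i p j) (h1 : b i * b j < 0) (m : ℝ) :
    ofs (b j) m = -ofs (b i) m := ofs_opp h1 m

/-! ### the sides -/

theorem tyW_of_one {i : Fin (M + 1)} (hc : clsW b i = .one) : tyW b i = .one := by
  unfold clsW cls at hc
  unfold tyW
  split_ifs at hc with h1
  rw [if_pos h1]

theorem tyW_of_two {i : Fin (M + 1)} (hc : clsW b i = .two ∨ clsW b i = .twoE) :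
    tyW b i = .two := by
  have h2 : (b i).natAbs = 2 := by
    unfold clsW cls at hc
    split_ifs at hc with h1 h2 <;> simp_all
  unfold tyW
  rw [if_neg (by omega), if_pos h2]

theorem clsW_nat3 {i : Fin (M + 1)} (hc : clsW b i = .three ∨ clsW b i = .threeE) :
    (b i).natAbs = 3 := by
  unfold clsW cls at hc
  split_ifs at hc with h1 h2 h3 h4 h5 <;> simp_all

theorem clsW_end {i : Fin (M + 1)} (hc : clsW b i = .twoE ∨ clsW b i = .threeE) :
    isEnd i = true := by
  unfold clsW cls at hc
  split_ifs at hc with h1 h2 h3 h4 h5 <;> simp_all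

theorem clsW_inner {i : Fin (M + 1)} (hb : ClassW b)
    (hc : clsW b i = .one ∨ clsW b i = .two ∨ clsW b i = .three) : isEnd i = false := by
  rcases hc with hc | hc | hc
  · have := one_inner hb (tyW_of_one hc)
    unfold isEnd
    simpa using this
  · unfold clsW cls at hc
    split_ifs at hc with h1 h2 h3 <;> simp_all
  · unfold clsW cls at hc
    split_ifs at hc with h1 h2 h3 <;> simp_all

theorem tyW_of_three {i : Fin (M + 1)} (hc : clsW b i = .three) : tyW b i = .threeL := by
  have h3 := clsW_nat3 (Or.inl hc)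
  have he : isEnd i = false := by
    unfold clsW cls at hc
    split_ifs at hc with h1 h2 h3 <;> simp_all
  unfold tyW
  rw [if_neg (by omega), if_neg (by omega), if_pos h3]
  have : i ≠ 0 := by
    intro h0
    simp [isEnd, h0] at he
  rw [if_neg this]

theorem tyW_of_ring {i : Fin (M + 1)} (hb : ClassW b) (hc : clsW b i = .ring) :
    tyW b i = .ring := by
  have h0 := hb.ne i
  have h4 : (b i).natAbs ≠ 1 ∧ (b i).natAbs ≠ 2 ∧ (b i).natAbs ≠ 3 := by
    unfold clsW cls at hc
    refine ⟨?_, ?_, ?_⟩ <;> intro h1 <;> simp [h1] at hc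
    · split_ifs at hc
    · split_ifs at hc
  unfold tyW
  rw [if_neg h4.1, if_neg h4.2.1, if_neg h4.2.2]


theorem Adj.side_one (A : Adj h i p j) (hb : ClassW b) (hc : clsW b i = .one) (m : ℝ) :
    Sw b zs y i p m = S1 1 (ofs (b i) m) (Yw b zs y i p) (Yw b zs y i p.rev) := by
  cases A
  · exact Sw_left_one hb h m (tyW_of_one hc)
  · exact Sw_right_one hb h m (tyW_of_one hc)

theorem Adj.side_two (A : Adj h i p j) (hb : ClassW b) (hc : clsW b i = .two ∨ clsW b i = .twoE)
    (m : ℝ) : Sw b zs y i p m = S2 1 (ofs (b i) m) (Yw b zs y i p) (Yw b zs y i p.rev) := by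
  cases A
  · exact Sw_left_two hb h m (tyW_of_two hc)
  · exact Sw_right_two hb h m (tyW_of_two hc)

/-- a region with three crossings at an end -/
theorem Adj.side_threeE (A : Adj h i p j) (hb : ClassW b) (hc : clsW b i = .threeE) (m : ℝ) :
    Sw b zs y i p m = S3 1 (ofs (b i) m) (Yw b zs y i p) (Yw b zs y i 1) := by
  have h3 := clsW_nat3 (Or.inr hc)
  have he := clsW_end (Or.inr hc)
  cases A
  · refine Sw_left_threeR hb h m ?_
    have h0 : h.castSucc = 0 := by
      unfold isEnd at he
      rcases of_decide_eq_true he with h1 | h1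
      · exact h1
      · exact absurd h1 (Fin.castSucc_lt_last h).ne
    unfold tyW
    rw [if_neg (by omega), if_neg (by omega), if_pos h3, if_pos h0]
  · refine Sw_right_threeL hb h m ?_
    unfold tyW
    rw [if_neg (by omega), if_neg (by omega), if_pos h3, if_neg (Fin.succ_ne_zero h)]

/-- an interior region with three crossings, on the left of the hinge -/
theorem Adj.side_three_two (A : Adj h i 2 j) (hb : ClassW b) (hc : clsW b i = .three) (m : ℝ) :
    Sw b zs y i 2 m = S2 1 (ofs (b i) m) (Yw b zs y i 2) (Yw b zs y i 1) := by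
  cases A
  exact Sw_left_threeL hb h m (tyW_of_three hc)

/-- an interior region with three crossings, on the right of the hinge -/
theorem Adj.side_three_zero (A : Adj h i 0 j) (hb : ClassW b) (hc : clsW b i = .three) (m : ℝ) :
    Sw b zs y i 0 m = S3 1 (ofs (b i) m) (Yw b zs y i 0) (Yw b zs y i 1) := by
  cases A
  exact Sw_right_threeL hb h m (tyW_of_three hc)

theorem Adj.side_ring (A : Adj h i p j) (hb : ClassW b) (hc : clsW b i = .ring) (m : ℝ) :
    Sw b zs y i p m = S4 (ofs (b i) m) (Yw b zs y i p) (Zw b zs y i) := by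
  cases A
  · exact Sw_left_ring h m (tyW_of_ring hb hc)
  · exact Sw_right_ring h m (tyW_of_ring hb hc)

/-! ### the two sides of a hinge -/

theorem LSide.of_adj {m c : ℝ} {E : Fin (M + 1) → Fin 3 → Fin (M + 1) → ℝ}
    (H : ∀ i p j, Adj h i p j → E i p j ≤ Sw b zs y i p m + c * ofs (b i) m) :
    LSide b zs y h m c (E h.castSucc 2 h.succ) (E h.succ 0 h.castSucc) :=
  ⟨H _ _ _ .l, H _ _ _ .r⟩

theorem RSide.of_adj {m c : ℝ} {E : Fin (M + 1) → Fin 3 → Fin (M + 1) → ℝ}
    (H : ∀ i p j, Adj h i p j → Sw b zs y i p m + c * ofs (b i) m ≤ E i p j) :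
    RSide b zs y h m c (E h.castSucc 2 h.succ) (E h.succ 0 h.castSucc) :=
  ⟨H _ _ _ .l, H _ _ _ .r⟩

/-! ### parameters of the path of a hinge, seen from a region -/

/-- class of the neighbour of the region `i` in the slot `p`; `.ring` outside the word -/
def oc (b : Fin (M + 1) → ℤ) (i : Fin (M + 1)) (p : Fin 3) : Cl :=
  if p = 0 then (if i.val = 0 then .ring else clsN b (i.val - 1)) else clsN b (i.val + 1)

theorem clsN_val (b : Fin (M + 1) → ℤ) (i : Fin (M + 1)) : clsN b i.val = clsW b i := by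
  unfold clsN
  rw [dif_pos i.2]

theorem Adj.oc_eq (A : Adj h i p j) (b : Fin (M + 1) → ℤ) : oc b i p = clsW b j := by
  cases A
  · unfold oc
    rw [if_neg (by decide)]
    exact clsN_val b h.succ
  · unfold oc
    rw [if_pos rfl, if_neg (by simp)]
    exact clsN_val b h.castSucc

/-- the parameters of a hinge between a region of class `A` (in whose slot `p` the hinge is) and a
region of class `B`; `P`, `Q`: classes of the outer neighbours of the two regions -/
noncomputable def hpp (p : Fin 3) (P A B Q : Cl) : HPar := if p = 2 then hp P A B Q else hp Q B A P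

theorem Adj.par (A : Adj h i p j) (b : Fin (M + 1) → ℤ) : par1 b (.inl h) =
    hpp p (oc b i p.rev) (clsW b i) (clsW b j) (oc b j p) := by
  cases A
  · rfl
  · rfl

theorem Adj.cl_eq (A : Adj h i p j) (b : Fin (M + 1) → ℤ) : wcl b h =
    (hpp p (oc b i p.rev) (clsW b i) (clsW b j) (oc b j p)).cl := by
  rw [← A.par b]; rfl

theorem Adj.cr_eq (A : Adj h i p j) (b : Fin (M + 1) → ℤ) : wcr b h =
    (hpp p (oc b i p.rev) (clsW b i) (clsW b j) (oc b j p)).cr := by
  rw [← A.par b]; rfl

theorem Adj.XM_eq (A : Adj h i p j) (b : Fin (M + 1) → ℤ) : wXM b h =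
    (hpp p (oc b i p.rev) (clsW b i) (clsW b j) (oc b j p)).XM := by
  rw [← A.par b]; rfl

end SR

end Pool.Agent.Work.MP_b30479_gt.G2
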