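import Pool.Agent.Work.MP_b30479_gt.G2.MLDef
import Pool.Agent.Work.MP_b30479_gt.G2.WAdj

/-!
# The left rounds
-/

namespace Pool.Agent.Work.MP_b30479_gt.G2

open Finset VOL Filter Topology

namespace SR

open ML

variable {M : ℕ} {b : Fin (M + 1) → ℤ} {zs : DD (tyW b) ⊕ ZZ (tyW b) → ℂ}
variable {y : DD (tyW b) ⊕ ZZ (tyW b) → ℝ}
variable {h h' : Fin M} {i j j' : Fin (M + 1)} {p : Fin 3}

/-! ### facts about the classes -/

theorem clsW_small {i : Fin (M + 1)} : (clsW b i = .one ∨ clsW b i = .two ∨ clsW b i = .twoE) ↔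
    ((b i).natAbs = 1 ∨ (b i).natAbs = 2) := by
  unfold clsW cls
  constructor
  · intro hc
    split_ifs at hc with h1 h2 h3 h4 h5 <;> simp_all
  · intro hc
    rcases hc with hc | hc
    · left; rw [if_pos hc]
    · right
      rw [if_neg (by omega), if_pos hc]
      split_ifs <;> simp

/-- one of the neighbours of a digit `±1` is small -/
theorem okp_of (hb : ClassW b) (A : Adj h i p j) (A' : Adj h' i p.rev j')
    (hc : clsW b i = .one) : okp (clsW b j) (clsW b j') := by
  have h1 : (b i).natAbs = 1 := by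
    have := tyW_of_one hc
    unfold tyW at this
    split_ifs at this with h1
    exact h1
  have key : ∀ (n : ℕ) (hn : n + 2 < M + 1), (b ⟨n + 1, by omega⟩).natAbs = 1 →
      ((b ⟨n, by omega⟩).natAbs = 1 ∨ (b ⟨n, by omega⟩).natAbs = 2) ∨
      ((b ⟨n + 2, hn⟩).natAbs = 1 ∨ (b ⟨n + 2, hn⟩).natAbs = 2) := by
    intro n hn h
    have h2 := hb.one n hn h
    have h3 := hb.ne ⟨n, by omega⟩
    have h4 := hb.ne ⟨n + 2, hn⟩
    omega
  unfold okp
  rw [clsW_small, clsW_small]
  have aux : ∀ {h h' : Fin M}, h.castSucc = h'.succ →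
      (b h.castSucc).natAbs = 1 → ((b h'.castSucc).natAbs = 1 ∨ (b h'.castSucc).natAbs = 2) ∨
      ((b h.succ).natAbs = 1 ∨ (b h.succ).natAbs = 2) := by
    intro h h' e h1
    have e1 : h.val = h'.val + 1 := by
      have := congrArg Fin.val e
      simpa using this
    have e2 : h.succ = ⟨h'.val + 2, by omega⟩ := by
      apply Fin.ext
      simp [e1]
    have e3 : h.castSucc = ⟨h'.val + 1, by omega⟩ := by
      apply Fin.ext
      simp [e1]
    have e4 : h'.castSucc = ⟨h'.val, by omega⟩ := rfl
    rw [e3] at h1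
    rw [e4, e2]
    exact key h'.val (by omega) h1
  generalize hi' : i = i' at A'
  generalize hp' : p.rev = p' at A'
  cases A
  · cases A'
    · exact absurd hp' (by decide)
    · exact (aux hi' h1).symm
  · cases A'
    · have h2 := h1
      rw [hi'] at h2
      exact aux hi'.symm h2
    · exact absurd hp' (by decide)

theorem Adj.eq_of (A : Adj h i p j) (A' : Adj h' i p j') : h = h' ∧ j = j' := by
  generalize hi' : i = i' at A'
  generalize hp' : p = p' at A'
  cases A
  · cases A'
    · have := Fin.castSucc_injective _ hi'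
      subst this
      exact ⟨rfl, rfl⟩
    · exact absurd hp' (by decide)
  · cases A'
    · exact absurd hp' (by decide)
    · have := Fin.succ_injective _ hi'
      subst this
      exact ⟨rfl, rfl⟩

theorem Adj.good (_ : Adj h i p j) : 0 < wcl b h ∧ 0 < wcr b h ∧ wcl b h + wcr b h < wXM b h :=
  ⟨wcl_pos h, wcr_pos h, w_sum h⟩

/-! ### the order -/

/-- the inequality at the hinge with the least `y / cl` -/
def Least (b : Fin (M + 1) → ℤ) (y : DD (tyW b) ⊕ ZZ (tyW b) → ℝ) (h : Fin M) : Prop :=
  ∀ j : Fin M, y (.inl (.inl h)) / wcl b h ≤ y (.inl (.inl j)) / wcl b j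

/-- the shift on the left ramp at a hinge between the classes `A` and `B` -/
noncomputable def shL (A B : Cl) (x : ℝ) : ℝ :=
  if A = .one then sh1 B x else if B = .one then sh1 A x else Real.pi / 2

theorem shL_comm (A B : Cl) (x : ℝ) : shL A B x = shL B A x := by
  unfold shL
  by_cases h1 : A = .one
  · by_cases h2 : B = .one
    · rw [h1, h2]
    · rw [if_pos h1, if_neg h2, if_pos h1]
  · by_cases h2 : B = .one
    · rw [if_neg h1, if_pos h2, if_pos h2]
    · rw [if_neg h1, if_neg h2, if_neg h2, if_neg h1]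

/-! ### bounds for the other regions -/

/-- interior `3`; `p = 2`: it is on the left of the hinge -/
noncomputable def e3 (l : Bool) (p : Fin 3) : Cl → ℝ
  | .one => if l then -(43 / 100) else -(29 / 100)
  | .two => -(9 / 100)
  | .twoE => if p = 2 then -(19 / 100) else 39 / 100
  | _ => 1 / 100

/-- `3` at an end -/
noncomputable def e3E (l : Bool) : Cl → ℝ
  | .one => if l then -(43 / 100) else -(34 / 100)
  | .two => -(9 / 100)
  | .twoE => -(19 / 100)
  | _ => 1 / 100

/-- ring; `T`: height of the saddle point in the own frame -/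
noncomputable def eR (l : Bool) (B : Cl) (T : ℝ) : ℝ :=
  match B with
  | .one => if l then -(27 / 100) else if -(1 / 10) ≤ T then -(12 / 100) else -(7 / 100)
  | .two => -(9 / 100)
  | .twoE => -(19 / 100)
  | _ => 0

/-- **A left round** with the floors `f` (the order is the one of `y / f`). -/
theorem left_stage (hb : ClassW b) (hy : IsMx (wdat (tyW b) b) (wpar b zs) zs y)
    (hpos : ∀ h : Fin M, 0 < y (.inl (.inl h))) {f : Fin M → ℝ} (hf : ∀ h, 0 < f h)
    (hf' : ∀ h, f h ≤ wcl b h)
    (H : ∀ h : Fin M, y (.inl (.inl h)) < f h →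
      (∀ k : Fin M, y (.inl (.inl h)) / f h ≤ y (.inl (.inl k)) / f k) →
      ∃ c e1 e2 : ℝ, (0 < b h.castSucc * b h.succ → c = 0) ∧ 0 < e1 + e2 ∧
        LSide b zs y h ((zs (.inl (.inl h))).im / wcl b h) c e1 e2) (h : Fin M) :
    f h ≤ y (.inl (.inl h)) :=
  round_left' hb hy hpos hf hf' H h

end SR

end Pool.Agent.Work.MP_b30479_gt.G2
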