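import Pool.Agent.Work.MP_b30479_gt.G2.WAdj

/-!
# The right rounds
-/

namespace Pool.Agent.Work.MP_b30479_gt.G2

open Finset VOL Filter Topology

namespace SR

variable {M : ℕ} {b : Fin (M + 1) → ℤ} {zs : DD (tyW b) ⊕ ZZ (tyW b) → ℂ}
variable {y : DD (tyW b) ⊕ ZZ (tyW b) → ℝ}
variable {h h' : Fin M} {i j j' : Fin (M + 1)} {p : Fin 3}

/-- the left slope of the path of the hinge `h` at its present position -/
noncomputable def slL (b : Fin (M + 1) → ℤ) (zs : DD (tyW b) ⊕ ZZ (tyW b) → ℂ)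
    (y : DD (tyW b) ⊕ ZZ (tyW b) → ℝ) (h : Fin M) : ℝ :=
  (wpar b zs).sL zs (.inl (.inl h)) (y (.inl (.inl h)))

/-- the right slope -/
noncomputable def slR (b : Fin (M + 1) → ℤ) (zs : DD (tyW b) ⊕ ZZ (tyW b) → ℂ)
    (y : DD (tyW b) ⊕ ZZ (tyW b) → ℝ) (h : Fin M) : ℝ :=
  (wpar b zs).sR zs (.inl (.inl h)) (y (.inl (.inl h)))

theorem slL_ramp (hx : wXM b h - wcr b h < y (.inl (.inl h))) :
    slL b zs y h = -((zs (.inl (.inl h))).im / wcr b h) := w_sL_right h hx

theorem slL_flat (hx : wcl b h < y (.inl (.inl h)))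
    (hx' : y (.inl (.inl h)) ≤ wXM b h - wcr b h) : slL b zs y h = 0 := w_sL_flat h hx hx'

theorem slR_ramp (hx : y (.inl (.inl h)) < wcl b h) :
    slR b zs y h = (zs (.inl (.inl h))).im / wcl b h := w_sR_left h hx

theorem slR_flat (hx : wcl b h ≤ y (.inl (.inl h)))
    (hx' : y (.inl (.inl h)) < wXM b h - wcr b h) : slR b zs y h = 0 := w_sR_flat h hx hx'

/-- slope in the own frame of an adjacent region -/
theorem ofs_slL_ramp (c : ℤ) (hx : wXM b h - wcr b h < y (.inl (.inl h))) :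
    ofs c (slL b zs y h) = -(ofs c (zs (.inl (.inl h))).im / wcr b h) := by
  rw [slL_ramp hx, ofs_neg', ofs_div]

/-- **A right step.**  `Bad` is any property of hinges; the side inequalities are needed at one bad
hinge at which `g` is largest. -/
theorem right_step (hb : ClassW b) (hy : IsMx (wdat (tyW b) b) (wpar b zs) zs y)
    (hpos : ∀ h : Fin M, 0 < y (.inl (.inl h))) {Bad : Fin M → Prop} (g : Fin M → ℝ)
    (hside : ∀ h, Bad h → (∀ j, Bad j → g j ≤ g h) → ∃ c e1 e2 : ℝ,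
      (0 < b h.castSucc * b h.succ → c = 0) ∧ e1 + e2 < 0 ∧
        RSide b zs y h (slL b zs y h) c e1 e2) (h : Fin M) : ¬ Bad h := by
  classical
  intro hB
  obtain ⟨k, hk, hmax⟩ := (Finset.univ.filter Bad).exists_max_image g ⟨h, by simp [hB]⟩
  rw [Finset.mem_filter] at hk
  obtain ⟨c, e1, e2, hc, he, hs⟩ := hside k hk.2 (fun j hj => hmax j (by simp [hj]))
  exact rside_false hb hy k (hpos k) hc he hs

/-- **A left step.** -/
theorem left_step (hb : ClassW b) (hy : IsMx (wdat (tyW b) b) (wpar b zs) zs y)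
    (hpos : ∀ h : Fin M, 0 < y (.inl (.inl h))) {Bad : Fin M → Prop} (g : Fin M → ℝ)
    (hlt : ∀ h, Bad h → y (.inl (.inl h)) < wXM b h)
    (hside : ∀ h, Bad h → (∀ j, Bad j → g h ≤ g j) → ∃ c e1 e2 : ℝ,
      (0 < b h.castSucc * b h.succ → c = 0) ∧ 0 < e1 + e2 ∧
        LSide b zs y h (slR b zs y h) c e1 e2) (h : Fin M) : ¬ Bad h := by
  classical
  intro hB
  obtain ⟨k, hk, hmin⟩ := (Finset.univ.filter Bad).exists_min_image g ⟨h, by simp [hB]⟩
  rw [Finset.mem_filter] at hk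
  obtain ⟨c, e1, e2, hc, he, hs⟩ := hside k hk.2 (fun j hj => hmin j (by simp [hj]))
  exact lside_false hb hy k (hpos k) (hlt k hk.2) hc he hs

/-- **First-order condition of any hinge** (used for partners): the two sides in the frames of the
two adjacent regions, opposite signs -/
theorem Adj.foc (A : Adj h i p j)
    (hy : IsMx (wdat (tyW b) b) (wpar b zs) zs y) (hpos : 0 < y (.inl (.inl h))) :
    0 ≤ Sw b zs y i p (slL b zs y h) + Sw b zs y j p.rev (slL b zs y h) := by
  have h3 := (hy.foc_left (std_wpar b zs) h hpos).2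
  cases A
  · exact h3
  · rw [add_comm]
    exact h3

theorem Adj.foc' (A : Adj h i p j)
    (hy : IsMx (wdat (tyW b) b) (wpar b zs) zs y) (hpos : 0 < y (.inl (.inl h)))
    (hx : y (.inl (.inl h)) < wXM b h) :
    Sw b zs y i p (slR b zs y h) + Sw b zs y j p.rev (slR b zs y h) ≤ 0 := by
  have h3 := hy.foc_right (std_wpar b zs) h hpos hx
  cases A
  · exact h3
  · rw [add_comm]
    exact h3

/-- a step for a sum of the two sides, one region seen from the slot `p` -/
theorem RSide.of_sum (A : Adj h i p j) {m : ℝ} (hs : Sw b zs y i p m + Sw b zs y j p.rev m < 0) :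
    ∃ c e1 e2 : ℝ, (0 < b h.castSucc * b h.succ → c = 0) ∧ e1 + e2 < 0 ∧
      RSide b zs y h m c e1 e2 := by
  cases A
  · exact ⟨0, _, _, fun _ => rfl, hs, by simp, by simp⟩
  · exact ⟨0, _, _, fun _ => rfl, by rw [add_comm]; exact hs, by simp, by simp⟩

/-- a step from bounds of the two sides with a shift `c` (opposite signs) -/
theorem RSide.of_adj' (A : Adj h i p j) (hn : b i * b j < 0) {m c e1 e2 : ℝ} (he : e1 + e2 < 0)
    (h1 : Sw b zs y i p m + c * ofs (b i) m ≤ e1)
    (h2 : Sw b zs y j p.rev m + c * ofs (b j) m ≤ e2) :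
    ∃ c e1 e2 : ℝ, (0 < b h.castSucc * b h.succ → c = 0) ∧ e1 + e2 < 0 ∧
      RSide b zs y h m c e1 e2 := by
  cases A
  · exact ⟨c, e1, e2, fun h => absurd h (by omega), he, h1, h2⟩
  · exact ⟨c, e2, e1, fun h => absurd h (by rw [mul_comm] at hn; omega), by linarith, h2, h1⟩

end SR

end Pool.Agent.Work.MP_b30479_gt.G2
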