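import Pool.Agent.Work.MP_b30479_gt.G2.WStage
import Pool.Agent.Work.MP_b30479_gt.G2.WLeft
import Pool.Agent.Work.MP_b30479_gt.G2.WMain
import Pool.Agent.Work.MP_b30479_gt.G2.WRight

/-!
# Rounds in terms of pairs of adjacent regions
-/

namespace Pool.Agent.Work.MP_b30479_gt.G2

open Finset VOL Filter Topology

namespace SR

variable {M : ℕ} {b : Fin (M + 1) → ℤ} {zs : DD (tyW b) ⊕ ZZ (tyW b) → ℂ}
variable {y : DD (tyW b) ⊕ ZZ (tyW b) → ℝ}
variable {h h' : Fin M} {i j j' : Fin (M + 1)} {p : Fin 3}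

/-- an order of the classes -/
def rkC : Cl → ℕ
  | .one => 0 | .two => 1 | .twoE => 2 | .three => 3 | .threeE => 4 | .ring => 5

theorem rkC_inj {A B : Cl} (h : rkC A = rkC B) : A = B := by
  revert h; cases A <;> cases B <;> simp [rkC]

/-- each hinge can be seen from the region of the smaller class -/
theorem Adj.wlog (b : Fin (M + 1) → ℤ) (h : Fin M) {Pr : Prop}
    (H : ∀ {i j : Fin (M + 1)} {p : Fin 3}, Adj h i p j → rkC (clsW b i) ≤ rkC (clsW b j) → Pr) :
    Pr := by
  rcases le_total (rkC (clsW b h.castSucc)) (rkC (clsW b h.succ)) with h1 | h1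
  · exact H .l h1
  · exact H .r h1

theorem Adj.mul_eq (A : Adj h i p j) (b : Fin (M + 1) → ℤ) :
    b i * b j = b h.castSucc * b h.succ := by
  cases A
  · rfl
  · exact mul_comm _ _

/-- neighbours have opposite signs unless both are rings -/
theorem Adj.neg_of (A : Adj h i p j) (hb : ClassW b)
    (hc : clsW b i ≠ .ring ∨ clsW b j ≠ .ring) : b i * b j < 0 := by
  rw [A.mul_eq b]
  rcases sign_cases hb h with h1 | ⟨-, h2, h3⟩
  · exact h1
  · exfalso
    cases A
    · rcases hc with hc | hc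
      · exact hc h2
      · exact hc h3
    · rcases hc with hc | hc
      · exact hc h3
      · exact hc h2

/-- the other hinge of an interior region -/
theorem Adj.other' (A : Adj h i p j) (b : Fin (M + 1) → ℤ) (he : isEnd i = false) :
    ∃ h' j', Adj h' i p.rev j' := by
  rcases A.other b 0 0 with h1 | h1
  · exact absurd h1.1 (by rw [he]; decide)
  · exact h1.2

/-- a symmetric table -/
def TSym (T : Tab) : Prop := ∀ A B, T 2 A B = T 0 B A

theorem Adj.tab (A : Adj h i p j) {T : Tab} (hT : TSym T) (b : Fin (M + 1) → ℤ) :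
    T p (clsW b i) (clsW b j) = T 2 (clsW b h.castSucc) (clsW b h.succ) := by
  cases A
  · rfl
  · exact (hT _ _).symm

/-- what a step to the right needs at the hinge `h` -/
def LStep (b : Fin (M + 1) → ℤ) (zs : DD (tyW b) ⊕ ZZ (tyW b) → ℂ)
    (y : DD (tyW b) ⊕ ZZ (tyW b) → ℝ) (h : Fin M) (m : ℝ) : Prop :=
  ∃ c e1 e2 : ℝ, (0 < b h.castSucc * b h.succ → c = 0) ∧ 0 < e1 + e2 ∧ LSide b zs y h m c e1 e2

/-- what a step to the left needs at the hinge `h` -/
def RStep (b : Fin (M + 1) → ℤ) (zs : DD (tyW b) ⊕ ZZ (tyW b) → ℂ)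
    (y : DD (tyW b) ⊕ ZZ (tyW b) → ℝ) (h : Fin M) (m : ℝ) : Prop :=
  ∃ c e1 e2 : ℝ, (0 < b h.castSucc * b h.succ → c = 0) ∧ e1 + e2 < 0 ∧ RSide b zs y h m c e1 e2

theorem LStep.of_adj (A : Adj h i p j) {m c e1 e2 : ℝ} (hc : 0 < b i * b j → c = 0)
    (he : 0 < e1 + e2) (h1 : e1 ≤ Sw b zs y i p m + c * ofs (b i) m)
    (h2 : e2 ≤ Sw b zs y j p.rev m + c * ofs (b j) m) : LStep b zs y h m := by
  rw [A.mul_eq b] at hc
  cases A
  · exact ⟨c, e1, e2, hc, he, h1, h2⟩
  · exact ⟨c, e2, e1, hc, by linarith, h2, h1⟩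

theorem RStep.of_adj (A : Adj h i p j) {m c e1 e2 : ℝ} (hc : 0 < b i * b j → c = 0)
    (he : e1 + e2 < 0) (h1 : Sw b zs y i p m + c * ofs (b i) m ≤ e1)
    (h2 : Sw b zs y j p.rev m + c * ofs (b j) m ≤ e2) : RStep b zs y h m := by
  rw [A.mul_eq b] at hc
  cases A
  · exact ⟨c, e1, e2, hc, he, h1, h2⟩
  · exact ⟨c, e2, e1, hc, by linarith, h2, h1⟩

/-- **A left round** with the table of floors `T`: it is enough to have a step at each hinge below
its floor for which `y / T` is least; the hinge is seen from the region of the smaller class. -/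
theorem left_round (hb : ClassW b) (hy : Mx b zs y) (hpos : ∀ h : Fin M, 0 < y (.inl (.inl h)))
    {T : Tab} (hT : TSym T) (hT0 : ∀ p A B, 0 < T p A B)
    (hT1 : ∀ h : Fin M, T 2 (clsW b h.castSucc) (clsW b h.succ) ≤ wcl b h)
    (H : ∀ {h : Fin M} {i j : Fin (M + 1)} {p : Fin 3}, Adj h i p j →
      rkC (clsW b i) ≤ rkC (clsW b j) → y (.inl (.inl h)) < T p (clsW b i) (clsW b j) →
      (∀ {h' : Fin M} {i' j' : Fin (M + 1)} {p' : Fin 3}, Adj h' i' p' j' →
        y (.inl (.inl h)) / T p (clsW b i) (clsW b j) ≤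
          y (.inl (.inl h')) / T p' (clsW b i') (clsW b j')) →
      LStep b zs y h ((zs (.inl (.inl h))).im / wcl b h)) : Flr b y T := by
  intro h i j p A
  rw [A.tab hT b]
  refine left_stage hb hy hpos (f := fun h => T 2 (clsW b h.castSucc) (clsW b h.succ))
    (fun h => hT0 _ _ _) hT1 ?_ h
  intro h hlt hord
  refine Adj.wlog b h fun {i j p} A hr => ?_
  refine H A hr ?_ ?_
  · rw [A.tab hT b]
    exact hlt
  · intro h' i' j' p' A'
    rw [A.tab hT b, A'.tab hT b]
    exact hord h'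

/-- **A step to the right at single hinges** (any set `Bad`, least `g`), seen from the region of
the smaller class; `m` is the right slope of the path. -/
theorem left_step' (hb : ClassW b) (hy : Mx b zs y) (hpos : ∀ h : Fin M, 0 < y (.inl (.inl h)))
    {Bad : Fin M → Prop} (g : Fin M → ℝ) (hlt : ∀ h, Bad h → y (.inl (.inl h)) < wXM b h)
    (H : ∀ {h : Fin M} {i j : Fin (M + 1)} {p : Fin 3}, Adj h i p j →
      rkC (clsW b i) ≤ rkC (clsW b j) → Bad h → (∀ k, Bad k → g h ≤ g k) →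
      LStep b zs y h (slR b zs y h)) (h : Fin M) : ¬ Bad h :=
  left_step hb hy hpos g hlt (fun _ hB hg => Adj.wlog b _ fun A hr => H A hr hB hg) h

/-- **A step to the left at single hinges** (any set `Bad`, largest `g`), seen from the region of
the smaller class; `m` is the left slope of the path. -/
theorem right_step' (hb : ClassW b) (hy : Mx b zs y) (hpos : ∀ h : Fin M, 0 < y (.inl (.inl h)))
    {Bad : Fin M → Prop} (g : Fin M → ℝ)
    (H : ∀ {h : Fin M} {i j : Fin (M + 1)} {p : Fin 3}, Adj h i p j →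
      rkC (clsW b i) ≤ rkC (clsW b j) → Bad h → (∀ k, Bad k → g k ≤ g h) →
      RStep b zs y h (slL b zs y h)) (h : Fin M) : ¬ Bad h :=
  right_step hb hy hpos g (fun _ hB hg => Adj.wlog b _ fun A hr => H A hr hB hg) h

end SR

end Pool.Agent.Work.MP_b30479_gt.G2
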