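import Pool.Agent.Work.MP_b30479_gt.G2.V2C
import Pool.Agent.Work.MP_b30479_gt.G2.V2Move
import Pool.Agent.Work.MP_b30479_gt.G2.WRnd

import Pool.Agent.Work.MP_b30479_gt.G2.WLocX

/-!
# The hinges `2 | 3`, `2e | 3`, `3 | 3`, `3e | 3` on the side `S3` of an inner digit `3` are at most
`1/2`

`A` in `{2, 2e, 3, 3e}`, the hinge between `A` and the inner digit `3` on its right, at a maximiser.
Only a bound for the other hinge of the `3` is used.
-/

namespace Pool.Agent.Work.MP_b30479_gt.G2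

open Finset VOL Filter Topology

theorem V2A.tr_le_left {XM cl cr x : ℝ} (hc : 0 < cl) (h0 : 0 ≤ x) : tr 0 XM cl cr x ≤ x / cl := by
  unfold tr
  rw [sub_zero]
  exact max_le (div_nonneg h0 hc.le) ((min_le_right _ _).trans (min_le_left _ _))

theorem V2A.tr_le_right {XM cl cr x : ℝ} (hc : 0 < cr) (h0 : x ≤ XM) :
    tr 0 XM cl cr x ≤ (XM - x) / cr := by
  unfold tr
  exact max_le (div_nonneg (by linarith only [h0]) hc.le) ((min_le_right _ _).trans (min_le_right _ _))

theorem RH.im_low {w : ℂ} {T XM cl cr a b : ℝ} (h : RH w T XM cl cr) (hc : 0 < cl) (ha : 0 ≤ a)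
    (hb : 0 ≤ b) (h1 : -(a * cl) ≤ T) (h2 : T ≤ b * cl) :
    -(a * w.re) ≤ w.im ∧ w.im ≤ b * w.re := by
  have h3 : 0 ≤ tr 0 XM cl cr w.re := le_max_left _ _
  have h4 := V2A.tr_le_left (XM := XM) (cr := cr) hc h.re0
  rw [le_div_iff₀ hc] at h4
  rw [h.im]
  have h5 := mul_le_mul_of_nonneg_right h1 h3
  have h6 := mul_le_mul_of_nonneg_right h2 h3
  have h7 := mul_le_mul_of_nonneg_left h4 ha
  have h8 := mul_le_mul_of_nonneg_left h4 hb
  constructor <;> linarith only [h5, h7, h6, h8]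

theorem RH.im_high {w : ℂ} {T XM cl cr a b r : ℝ} (h : RH w T XM cl cr) (hc : 0 < cr) (ha : 0 ≤ a)
    (hb : 0 ≤ b) (h1 : -a ≤ T) (h2 : T ≤ b) (hr : XM - w.re ≤ r * cr) :
    -(a * r) ≤ w.im ∧ w.im ≤ b * r := by
  have h3 : 0 ≤ tr 0 XM cl cr w.re := le_max_left _ _
  have h4 := V2A.tr_le_right (cl := cl) hc h.reM
  have h5 : (XM - w.re) / cr ≤ r := by
    rw [div_le_iff₀ hc]
    exact hr
  have h6 : tr 0 XM cl cr w.re ≤ r := h4.trans h5
  rw [h.im]
  have e1 := mul_le_mul_of_nonneg_right h1 h3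
  have e2 := mul_le_mul_of_nonneg_right h2 h3
  have e3 := mul_le_mul_of_nonneg_left h6 ha
  have e4 := mul_le_mul_of_nonneg_left h6 hb
  constructor <;> linarith only [e1, e3, e2, e4]

namespace SR

variable {M : ℕ} {b : Fin (M + 1) → ℤ} {zs : DD (tyW b) ⊕ ZZ (tyW b) → ℂ}
variable {y : DD (tyW b) ⊕ ZZ (tyW b) → ℝ}
variable {h h' : Fin M} {i j k j' : Fin (M + 1)} {p : Fin 3}

/-! ### the other hinges -/

/-- the hinge in the slot `2` of an inner digit `3` -/
theorem Adj.wok (A : Adj h i 2 j) (hb : ClassW b) (hL : Loc b zs) (hy : Mx b zs y)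
    (hi : clsW b i = .three) (hcap : y (.inl (.inl h)) ≤ 39 / 100) :
    V2A.Wok (Yw b zs y i 2) := by
  have hop := A.opp hb (Or.inl (by rw [hi]; decide))
  obtain ⟨-, -, h3, h4⟩ := A.box hb hL
  rw [hi, A.ss hop] at h3 h4
  have hrh := A.rh hy
  have e1 : wcl b h = (hpp 2 (oc b i (2 : Fin 3).rev) .three (clsW b j) (oc b j 2)).cl := by
    rw [A.cl_eq b, hi]
  have b1 : -(1145 / 10000) ≤ ofs (b i) (zs (.inl (.inl h))).im := by
    refine le_trans ?_ h3
    generalize clsW b j = B
    cases B <;> norm_num [hbox]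
  have b2 : ofs (b i) (zs (.inl (.inl h))).im ≤ 57 / 1000 := by
    refine h4.trans ?_
    generalize clsW b j = B
    cases B <;> norm_num [hbox]
  have b3 : -(78 / 100 * wcl b h) ≤ ofs (b i) (zs (.inl (.inl h))).im := by
    refine le_trans ?_ h3
    rw [e1]
    unfold hpp
    generalize clsW b j = B
    rw [if_pos rfl]
    cases B <;> norm_num [hbox, hp]
  have b4 : ofs (b i) (zs (.inl (.inl h))).im ≤ 78 / 100 * wcl b h := by
    refine h4.trans ?_
    rw [e1]
    unfold hpp
    generalize clsW b j = B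
    rw [if_pos rfl]
    cases B <;> norm_num [hbox, hp]
  obtain ⟨c1, c2⟩ := MR.RH_im_mem hrh (by norm_num : -(1145 / 10000 : ℝ) ≤ 0)
    (by norm_num : (0 : ℝ) ≤ 57 / 1000) b1 b2
  obtain ⟨c3, c4⟩ := hrh.im_low (wcl_pos h) (by norm_num : (0 : ℝ) ≤ 78 / 100)
    (by norm_num : (0 : ℝ) ≤ 78 / 100) b3 b4
  exact ⟨hrh.re0, by rw [A.re]; exact hcap, c1, c2, fun _ => abs_le.2 ⟨c3, c4⟩⟩

/-- the hinge in the slot `0` of an inner digit `2` -/
theorem Adj.kok (A : Adj h i 0 j) (hb : ClassW b) (hL : Loc b zs) (hy : Mx b zs y)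
    (hi : clsW b i = .two) : V2A.Kok (Yw b zs y i 0) := by
  have hop := A.opp hb (Or.inl (by rw [hi]; decide))
  obtain ⟨-, -, h3, h4⟩ := A.box hb hL
  rw [hi, A.ss hop] at h3 h4
  have hrh := A.rh hy
  have e1 : wcl b h = (hpp 0 (oc b i (0 : Fin 3).rev) .two (clsW b j) (oc b j 0)).cl := by
    rw [A.cl_eq b, hi]
  have e2 : wcr b h = (hpp 0 (oc b i (0 : Fin 3).rev) .two (clsW b j) (oc b j 0)).cr := by
    rw [A.cr_eq b, hi]
  have e3 : wXM b h = (hpp 0 (oc b i (0 : Fin 3).rev) .two (clsW b j) (oc b j 0)).XM := by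
    rw [A.XM_eq b, hi]
  have b1 : -(985 / 10000) ≤ ofs (b i) (zs (.inl (.inl h))).im := by
    refine le_trans ?_ h3
    generalize clsW b j = B
    cases B <;> norm_num [hbox]
  have b2 : ofs (b i) (zs (.inl (.inl h))).im ≤ 96 / 1000 := by
    refine h4.trans ?_
    generalize clsW b j = B
    cases B <;> norm_num [hbox]
  have b3 : -(85 / 100 * wcl b h) ≤ ofs (b i) (zs (.inl (.inl h))).im := by
    refine le_trans ?_ h3
    rw [e1]
    unfold hpp
    generalize clsW b j = B
    rw [if_neg (by decide)]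
    cases B <;> norm_num [hbox, hp, hp1]
  have b4 : ofs (b i) (zs (.inl (.inl h))).im ≤ 77 / 100 * wcl b h := by
    refine h4.trans ?_
    rw [e1]
    unfold hpp
    generalize clsW b j = B
    rw [if_neg (by decide)]
    cases B <;> norm_num [hbox, hp, hp1]
  have b5 : wXM b h ≤ 8 / 10 := by
    rw [e3]
    unfold hpp
    generalize clsW b j = B
    rw [if_neg (by decide)]
    cases B <;> norm_num [hp, hp1]
  obtain ⟨c1, c2⟩ := MR.RH_im_mem hrh (by norm_num : -(985 / 10000 : ℝ) ≤ 0)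
    (by norm_num : (0 : ℝ) ≤ 96 / 1000) b1 b2
  obtain ⟨c3, c4⟩ := hrh.im_low (wcl_pos h) (by norm_num : (0 : ℝ) ≤ 85 / 100)
    (by norm_num : (0 : ℝ) ≤ 77 / 100) b3 b4
  refine ⟨hrh.re0, hrh.reM.trans b5, c1, c2, fun _ => ⟨by linarith only [c3], c4⟩, fun hk => ?_⟩
  by_cases hj : clsW b j = .one
  · rw [hj] at e2 e3 h3 h4
    have e2' : wcr b h = 29 / 100 := by rw [e2]; unfold hpp; rw [if_neg (by decide)]; rfl
    have e3' : wXM b h = 80 / 100 := by rw [e3]; unfold hpp; rw [if_neg (by decide)]; rfl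
    obtain ⟨d1, d2⟩ := hrh.im_high (r := 24 / 29) (a := 985 / 10000) (b := 18 / 1000)
      (by rw [e2']; norm_num) (by norm_num) (by norm_num) b1
      (h4.trans (by norm_num [hbox])) (by rw [e2', e3']; linarith only [hk])
    constructor <;> linarith only [d1, d2]
  · have e2' : 27 / 100 ≤ wcr b h := by
      rw [e2]
      unfold hpp
      generalize clsW b j = B at hj
      rw [if_neg (by decide)]
      cases B <;> first | exact absurd rfl hj | norm_num [hp]
    have e3' : wXM b h = 60 / 100 := by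
      rw [e3]
      unfold hpp
      generalize clsW b j = B at hj
      rw [if_neg (by decide)]
      cases B <;> first | exact absurd rfl hj | norm_num [hp]
    obtain ⟨d1, d2⟩ := hrh.im_high (r := 4 / 27) (a := 985 / 10000) (b := 96 / 1000)
      (by linarith only [e2']) (by norm_num) (by norm_num) b1 b2 (by rw [e3']; linarith only [hk, e2'])
    constructor <;> linarith only [d1, d2]

/-! ### the inner variable -/

/-- the inner variable of a region with three crossings -/
def mW (b : Fin (M + 1) → ℤ) {i : Fin (M + 1)} (hc : clsW b i = .three ∨ clsW b i = .threeE) :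
    {i : Fin (M + 1) // (tyW b i).isMid = true} := ⟨i, tyW_isMid hc⟩

/-- its height in the own frame -/
noncomputable def tW (zs : DD (tyW b) ⊕ ZZ (tyW b) → ℂ) {i : Fin (M + 1)}
    (hc : clsW b i = .three ∨ clsW b i = .threeE) : ℝ := ofs (b i) (zs (.inl (.inr (mW b hc)))).im

/-- the point `c` of its path, in the own frame -/
noncomputable def vW (zs : DD (tyW b) ⊕ ZZ (tyW b) → ℂ) {i : Fin (M + 1)}
    (hc : clsW b i = .three ∨ clsW b i = .threeE) (c : ℝ) : ℂ :=
  ofr (b i) ((wpar b zs).pp zs (.inl (.inr (mW b hc))) c)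

theorem vW_re (hc : clsW b i = .three ∨ clsW b i = .threeE) (c : ℝ) : (vW zs hc c).re = c :=
  ofr_pp_re _ _ _

theorem vW_im (hc : clsW b i = .three ∨ clsW b i = .threeE) {c : ℝ}
    (h0 : (wpar b zs).cl (.inr (mW b hc)) ≤ c)
    (h1 : c ≤ (wpar b zs).XM (.inr (mW b hc)) - (wpar b zs).cr (.inr (mW b hc))) :
    (vW zs hc c).im = tW zs hc := by
  unfold vW
  rw [ofr_pp_flat (wpar_good b zs) zs _ _ h0 h1]
  simp [tW]

theorem par_three (hi : clsW b i = .three) :
    (wpar b zs).XM (.inr (mW b (Or.inl hi))) = 8 / 10 ∧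
    (wpar b zs).cl (.inr (mW b (Or.inl hi))) = 5 / 100 ∧
    (wpar b zs).cr (.inr (mW b (Or.inl hi))) = 5 / 100 := by
  simp [wpar, par1, mp, mW, hi]

theorem par_threeE (hi : clsW b i = .threeE) :
    (wpar b zs).XM (.inr (mW b (Or.inr hi))) = 77 / 100 ∧
    (wpar b zs).cl (.inr (mW b (Or.inr hi))) = 1 / 10 ∧
    (wpar b zs).cr (.inr (mW b (Or.inr hi))) = 2 / 10 := by
  simp [wpar, par1, mp, mW, hi]

theorem OY_mid (hc : clsW b i = .three ∨ clsW b i = .threeE) :
    OY b zs y i 1 = Yw b zs y i 1 := OY_one (mid_not_ring (mW b hc).2)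

theorem rh_three (hy : Mx b zs y) (hi : clsW b i = .three) :
    RH (OY b zs y i 1) (tW zs (Or.inl hi)) (8 / 10) (5 / 100) (5 / 100) := by
  obtain ⟨e1, e2, e3⟩ := par_three (zs := zs) hi
  have := mid_RH hy (mW b (Or.inl hi))
  rw [e1, e2, e3] at this
  rw [OY_mid (Or.inl hi)]
  exact this

theorem rh_threeE (hy : Mx b zs y) (hi : clsW b i = .threeE) :
    RH (OY b zs y i 1) (tW zs (Or.inr hi)) (77 / 100) (1 / 10) (2 / 10) := by
  obtain ⟨e1, e2, e3⟩ := par_threeE (zs := zs) hi
  have := mid_RH hy (mW b (Or.inr hi))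
  rw [e1, e2, e3] at this
  rw [OY_mid (Or.inr hi)]
  exact this

theorem vW_three (hi : clsW b i = .three) {c : ℝ} (h0 : 5 / 100 ≤ c) (h1 : c ≤ 75 / 100) :
    (vW zs (Or.inl hi) c).im = tW zs (Or.inl hi) := by
  obtain ⟨e1, e2, e3⟩ := par_three (zs := zs) hi
  exact vW_im _ (by rw [e2]; exact h0) (by rw [e1, e3]; linarith only [h1])

theorem vW_threeE (hi : clsW b i = .threeE) {c : ℝ} (h0 : 1 / 10 ≤ c) (h1 : c ≤ 57 / 100) :
    (vW zs (Or.inr hi) c).im = tW zs (Or.inr hi) := by
  obtain ⟨e1, e2, e3⟩ := par_threeE (zs := zs) hi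
  exact vW_im _ (by rw [e2]; exact h0) (by rw [e1, e3]; linarith only [h1])

theorem mopt_three (hi : clsW b i = .three) {c : ℝ} (h0 : 0 ≤ c) (h1 : c ≤ 8 / 10)
    (X : Fin 3 → ℂ) : MOpt b zs i X (Function.update X 1 (vW zs (Or.inl hi) c)) :=
  MOpt.move (m := mW b (Or.inl hi)) rfl h0 (by rw [(par_three hi).1]; exact h1) X

theorem mopt_threeE (hi : clsW b i = .threeE) {c : ℝ} (h0 : 0 ≤ c) (h1 : c ≤ 77 / 100)
    (X : Fin 3 → ℂ) : MOpt b zs i X (Function.update X 1 (vW zs (Or.inr hi) c)) :=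
  MOpt.move (m := mW b (Or.inr hi)) rfl h0 (by rw [(par_threeE hi).1]; exact h1) X

/-- window of the inner variable of an inner digit `3` -/
theorem mid_window (hX : LocX b zs) (A : Adj h i 0 j) (A' : Adj h' i 2 k)
    (hi : clsW b i = .three) :
    (mw (clsW b j) (clsW b k)).t0 ≤ tW zs (Or.inl hi) ∧
    tW zs (Or.inl hi) ≤ (mw (clsW b j) (clsW b k)).t1 ∧
    (mw (clsW b j) (clsW b k)).s0 ≤ tW zs (Or.inl hi) - ofs (b i) (zs (.inl (.inl h))).im ∧
    tW zs (Or.inl hi) - ofs (b i) (zs (.inl (.inl h))).im ≤ (mw (clsW b j) (clsW b k)).s1 :=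
  hX.mid (tyW_isMid (Or.inl hi)) A A' hi

/-! ### values -/

theorem OV_stay (hb : ClassW b) (hi : clsW b i = .three) (X : Fin 3 → ℂ) (u : ℂ) :
    OV b i (Function.update X 0 u) = V3 u (X 1) (X 2) := by
  rw [OV_three hb hi, Function.update_self, Function.update_of_ne (by decide),
    Function.update_of_ne (by decide)]

theorem OV_stay2 (hb : ClassW b) (hi : clsW b i = .three) (X : Fin 3 → ℂ) (u : ℂ) :
    OV b i (Function.update X 2 u) = V3 (X 0) (X 1) u := by
  rw [OV_three hb hi, Function.update_self, Function.update_of_ne (by decide),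
    Function.update_of_ne (by decide)]

theorem OV_move (hb : ClassW b) (hi : clsW b i = .three) (X : Fin 3 → ℂ) (u v : ℂ) :
    OV b i (Function.update (Function.update X 0 u) 1 v) = V3 u v (X 2) := by
  have e0 : Function.update (Function.update X 0 u) 1 v 0 = u := by
    rw [Function.update_of_ne (by decide), Function.update_self]
  have e2 : Function.update (Function.update X 0 u) 1 v 2 = X 2 := by
    rw [Function.update_of_ne (by decide), Function.update_of_ne (by decide)]
  rw [OV_three hb hi, e0, e2, Function.update_self]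

/-! ### the hinge -/

/-- path of the hinge `B | 3` -/
theorem Adj.par_s0 (A : Adj h i 0 j) (hi : clsW b i = .three)
    (hj : clsW b j = .twoE ∨ clsW b j = .three ∨ clsW b j = .threeE) :
    wXM b h = 60 / 100 ∧ wcr b h = 30 / 100 ∧ wcl b h ≤ 13 / 100 := by
  rw [A.XM_eq b, A.cr_eq b, A.cl_eq b, hi]
  unfold hpp
  rw [if_neg (by decide)]
  rcases hj with hj | hj | hj <;> rw [hj] <;> norm_num [hp]

theorem Adj.par_s0_two (A : Adj h i 0 j) (hi : clsW b i = .three) (hj : clsW b j = .two) :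
    wXM b h = 60 / 100 ∧ wcr b h = 27 / 100 ∧ wcl b h = 12 / 100 := by
  rw [A.XM_eq b, A.cr_eq b, A.cl_eq b, hi, hj]
  unfold hpp
  rw [if_neg (by decide)]
  norm_num [hp]

/-- the heights at the hinge, path `.60`, `.30` -/
theorem Adj.h30 (A : Adj h i p j) (hy : Mx b zs y) (h1 : wXM b h = 60 / 100)
    (h2 : wcr b h = 30 / 100) (h3 : wcl b h ≤ 13 / 100) (hx : 1 / 2 ≤ y (.inl (.inl h))) :
    (Yw b zs y i p).im = V2A.h30 (Yw b zs y i p).re (ofs (b i) (zs (.inl (.inl h))).im) := by
  have hrh := A.rh hy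
  have hre := A.re (b := b) (zs := zs) (y := y)
  rw [h1, h2] at hrh
  rw [MR.RH_right hrh (wcl_pos h) (by norm_num) (by linarith only [h3]) (by rw [hre]; linarith only [hx])]
  unfold V2A.h30
  ring

theorem Adj.h27 (A : Adj h i p j) (hy : Mx b zs y) (h1 : wXM b h = 60 / 100)
    (h2 : wcr b h = 27 / 100) (h3 : wcl b h ≤ 13 / 100) (hx : 1 / 2 ≤ y (.inl (.inl h))) :
    (Yw b zs y i p).im = V2A.h27 (Yw b zs y i p).re (ofs (b i) (zs (.inl (.inl h))).im) := by
  have hrh := A.rh hy
  have hre := A.re (b := b) (zs := zs) (y := y)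
  rw [h1, h2] at hrh
  rw [MR.RH_right hrh (wcl_pos h) (by norm_num) (by linarith only [h3]) (by rw [hre]; linarith only [hx])]
  unfold V2A.h27
  ring

theorem pw_flat' (s : ℤ) (h : Fin M) {c : ℝ} (h0 : wcl b h ≤ c) (h1 : c ≤ wXM b h - wcr b h) :
    (pw b zs s h c).re = c ∧ (pw b zs s h c).im = ofs s (zs (.inl (.inl h))).im := by
  rw [pw_flat s h h0 h1]
  simp

/-- **`3 | 3`, `3e | 3`.** -/
theorem s0_33 (hb : ClassW b) (hL : Loc b zs) (hX : LocX b zs) (hy : Mx b zs y)
    (A : Adj h i 0 j) (A' : Adj h' i 2 k) (hi : clsW b i = .three)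
    (hj : clsW b j = .three ∨ clsW b j = .threeE) (hcap : y (.inl (.inl h')) ≤ 39 / 100) :
    y (.inl (.inl h)) ≤ 1 / 2 := by
  by_contra hcon
  push Not at hcon
  have hop := A.opp hb (Or.inl (by rw [hi]; decide))
  have A2 : Adj h j 2 i := A.symm
  obtain ⟨q1, q2, q3⟩ := A.par_s0 hi (Or.inr hj)
  obtain ⟨-, -, T1, T2⟩ := A.box hb hL
  rw [hi, A.ss hop] at T1 T2
  have hT1 : -(28 / 1000) ≤ ofs (b i) (zs (.inl (.inl h))).im := by
    refine le_trans ?_ T1
    rcases hj with hj | hj <;> rw [hj] <;> norm_num [hbox]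
  have hT2 : ofs (b i) (zs (.inl (.inl h))).im ≤ 22 / 1000 := by
    refine T2.trans ?_
    rcases hj with hj | hj <;> rw [hj] <;> norm_num [hbox]
  have hTj : ofs (b j) (zs (.inl (.inl h))).im = -ofs (b i) (zs (.inl (.inl h))).im :=
    ofs_opp hop _
  have hre := A.re (b := b) (zs := zs) (y := y)
  have hre2 := A2.re (b := b) (zs := zs) (y := y)
  have hu := A.h30 hy q1 q2 q3 hcon.le
  have hu2 := A2.h30 hy q1 q2 q3 hcon.le
  obtain ⟨c1, c2⟩ := pw_flat' (zs := zs) (b i) h (c := 30 / 100) (by linarith only [q3]) (by rw [q1, q2]; norm_num)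
  obtain ⟨c3, c4⟩ := pw_flat' (zs := zs) (b j) h (c := 30 / 100) (by linarith only [q3]) (by rw [q1, q2]; norm_num)
  have hx6 : y (.inl (.inl h)) ≤ 6 / 10 := by
    have := (A.rh hy).reM
    rw [hre, q1] at this
    linarith only [this]
  obtain ⟨w1, w2, -, -⟩ := mid_window hX A A' hi
  have ht1 : -(114 / 1000) ≤ tW zs (Or.inl hi) := by
    refine le_trans ?_ w1
    generalize clsW b k = K
    rcases hj with hj | hj <;> rw [hj] <;> cases K <;> norm_num [mw]
  have ht2 : tW zs (Or.inl hi) ≤ 5 / 1000 := by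
    refine w2.trans ?_
    generalize clsW b k = K
    rcases hj with hj | hj <;> rw [hj] <;> cases K <;> norm_num [mw]
  have hwok := A'.wok hb hL hy hi hcap
  have hv := rh_three hy hi
  -- the digit on the right
  have hmain : ∃ X, MOpt b zs i (Function.update (OY b zs y i) 0 (pw b zs (b i) h (30 / 100))) X ∧
      0 < OV b i X - OV b i (OY b zs y i) +
        V2A.g33 (y (.inl (.inl h))) (ofs (b i) (zs (.inl (.inl h))).im) := by
    rcases le_total (32 / 100) (OY b zs y i 1).re with hl | hl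
    · refine ⟨_, MOpt.same _ _, ?_⟩
      rw [OV_stay hb hi, OV_three hb hi, OY_zero, OY_two]
      have := V2A.main33_right (w := Yw b zs y i 2) (by rw [hre]; exact hcon.le)
        (by rw [hre]; exact hx6) hu c1 c2 hT1 hT2 hv ht1 ht2 hl
      rw [hre] at this
      exact this
    · refine ⟨_, mopt_three hi (c := 46 / 100) (by norm_num) (by norm_num) _, ?_⟩
      rw [OV_move hb hi, OV_three hb hi, OY_zero, OY_two]
      have := V2A.main33_left (by rw [hre]; exact hcon.le)
        (by rw [hre]; exact hx6) hu c1 c2 hT1 hT2 hv ht1 ht2 (vW_re (Or.inl hi) (46 / 100))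
        (vW_three hi (by norm_num) (by norm_num)) hwok hl
      rw [hre] at this
      exact this
  -- the digit on the left
  have hother : ∃ X, MOpt b zs j (Function.update (OY b zs y j) 2 (pw b zs (b j) h (30 / 100))) X ∧
      V2A.g33 (y (.inl (.inl h))) (ofs (b i) (zs (.inl (.inl h))).im) <
        OV b j X - OV b j (OY b zs y j) := by
    have hneg : -ofs (b j) (zs (.inl (.inl h))).im = ofs (b i) (zs (.inl (.inl h))).im := by
      rw [hTj, neg_neg]
    have b0 := hbox_swap
    obtain ⟨-, -, U1, U2⟩ := A2.box hb hL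
    rw [hi, A.ss hop] at U1 U2
    rcases hj with hj | hj
    · rw [hj] at U1 U2
      obtain ⟨h2, r, A3⟩ := A2.other' b (clsW_inner hb (Or.inr (Or.inr hj)))
      have A4 : Adj h2 j 0 r := A3
      obtain ⟨z1, z2, -, -⟩ := mid_window hX A4 A2 hj
      rw [hi] at z1 z2
      have z3 : -(116 / 1000) ≤ tW zs (Or.inl hj) := by
        refine le_trans ?_ z1
        generalize clsW b r = K
        cases K <;> norm_num [mw]
      have z4 : tW zs (Or.inl hj) ≤ 5 / 1000 := by
        refine z2.trans ?_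
        generalize clsW b r = K
        cases K <;> norm_num [mw]
      have hv2 := rh_three hy hj
      obtain ⟨z5, z6⟩ := MR.RH_im_mem hv2 (by norm_num : -(116 / 1000 : ℝ) ≤ 0)
        (by norm_num : (0 : ℝ) ≤ 5 / 1000) z3 z4
      refine ⟨_, MOpt.same _ _, ?_⟩
      rw [OV_stay2 hb hj, OV_three hb hj, OY_two]
      have := V2A.other33 (U := OY b zs y j 0) (by rw [hre2]; exact hcon.le)
        (by rw [hre2]; exact hx6) hu2 c3 c4 (le_trans (by norm_num [hbox]) U1)
        (U2.trans (by norm_num [hbox])) hv2.re0 hv2.reM z5 z6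
      rw [hre2, hneg] at this
      exact this
    · rw [hj] at U1 U2
      have hend : EndOk j (OY b zs y j) := Ow_endOk ((wpar b zs).pth zs y) j
      have z0 := hL.midE (mW b (Or.inr hj)) (clsW_end (Or.inr hj))
      unfold Box.In at z0
      rw [ofr_im] at z0
      obtain ⟨-, -, z1, z2⟩ := z0
      have hv2 := rh_threeE hy hj
      refine ⟨_, mopt_threeE hj (c := 46 / 100) (by norm_num) (by norm_num) _, ?_⟩
      have hend2 : EndOk j (Function.update (Function.update (OY b zs y j) 2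
          (pw b zs (b j) h (30 / 100))) 1 (vW zs (Or.inr hj) (46 / 100))) := by
        have h9 := hend.upd A2 (pw b zs (b j) h (30 / 100))
        exact ⟨fun h0 => by rw [Function.update_of_ne (by decide)]; exact h9.1 h0,
          fun h0 => by rw [Function.update_of_ne (by decide)]; exact h9.2 h0⟩
      rw [A2.OV_threeE hj hend, A2.OV_threeE hj hend2, Function.update_of_ne (by decide),
        Function.update_self, Function.update_self, OY_two]
      have := V2A.other3e (by rw [hre2]; exact hcon.le)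
        (by rw [hre2]; exact hx6) hu2 c3 c4 (le_trans (by norm_num [hbox]) U1)
        (U2.trans (by norm_num [hbox])) hv2 (le_trans (by norm_num [mboxE]) z1)
        (z2.trans (by norm_num [mboxE])) (vW_re (Or.inr hj) (46 / 100))
        (vW_threeE hj (by norm_num) (by norm_num))
      rw [hre2, hneg] at this
      exact this
  obtain ⟨X, h1, h2⟩ := hmain
  obtain ⟨X', h3, h4⟩ := hother
  have := val_hm hb hy A (c := 30 / 100) (by norm_num) (by rw [q1]; norm_num) h1 h3
  linarith only [h2, h4, this]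

/-- **`2e | 3`.** -/
theorem s0_2e (hb : ClassW b) (hL : Loc b zs) (hX : LocX b zs) (hy : Mx b zs y)
    (A : Adj h i 0 j) (A' : Adj h' i 2 k) (hi : clsW b i = .three)
    (hj : clsW b j = .twoE) (hcap : y (.inl (.inl h')) ≤ 39 / 100) :
    y (.inl (.inl h)) ≤ 1 / 2 := by
  by_contra hcon
  push Not at hcon
  have hop := A.opp hb (Or.inl (by rw [hi]; decide))
  have A2 : Adj h j 2 i := A.symm
  obtain ⟨q1, q2, q3⟩ := A.par_s0 hi (Or.inl hj)
  obtain ⟨-, -, T1, T2⟩ := A.box hb hL
  rw [hi, hj, A.ss hop] at T1 T2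
  have hT1 : -(98 / 1000) ≤ ofs (b i) (zs (.inl (.inl h))).im := le_trans (by norm_num [hbox]) T1
  have hT2 : ofs (b i) (zs (.inl (.inl h))).im ≤ -(76 / 1000) := T2.trans (by norm_num [hbox])
  have hTj : ofs (b j) (zs (.inl (.inl h))).im = -ofs (b i) (zs (.inl (.inl h))).im :=
    ofs_opp hop _
  have hre := A.re (b := b) (zs := zs) (y := y)
  have hre2 := A2.re (b := b) (zs := zs) (y := y)
  have hu := A.h30 hy q1 q2 q3 hcon.le
  have hu2 := A2.h30 hy q1 q2 q3 hcon.le
  obtain ⟨c1, c2⟩ := pw_flat' (zs := zs) (b i) h (c := 18 / 100) (by linarith only [q3]) (by rw [q1, q2]; norm_num)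
  obtain ⟨c3, c4⟩ := pw_flat' (zs := zs) (b j) h (c := 18 / 100) (by linarith only [q3]) (by rw [q1, q2]; norm_num)
  have hx6 : y (.inl (.inl h)) ≤ 6 / 10 := by
    have := (A.rh hy).reM
    rw [hre, q1] at this
    linarith only [this]
  obtain ⟨w1, w2, -, -⟩ := mid_window hX A A' hi
  rw [hj] at w1 w2
  have ht1 : -(123 / 1000) ≤ tW zs (Or.inl hi) := by
    refine le_trans ?_ w1
    generalize clsW b k = K
    cases K <;> norm_num [mw]
  have ht2 : tW zs (Or.inl hi) ≤ -(64 / 1000) := by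
    refine w2.trans ?_
    generalize clsW b k = K
    cases K <;> norm_num [mw]
  have hwok := A'.wok hb hL hy hi hcap
  have hv := rh_three hy hi
  have hmain : ∃ X, MOpt b zs i (Function.update (OY b zs y i) 0 (pw b zs (b i) h (18 / 100))) X ∧
      0 < OV b i X - OV b i (OY b zs y i) +
        V2A.g2e (y (.inl (.inl h))) (ofs (b i) (zs (.inl (.inl h))).im) := by
    rcases le_total (30 / 100) (OY b zs y i 1).re with hl | hl
    · refine ⟨_, MOpt.same _ _, ?_⟩
      rw [OV_stay hb hi, OV_three hb hi, OY_zero, OY_two]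
      have := V2A.main2e_right (w := Yw b zs y i 2) (by rw [hre]; exact hcon.le)
        (by rw [hre]; exact hx6) hu c1 c2 hT1 hT2 hv ht1 (by linarith only [hi, hcon, hx6, ht2]) hl
      rw [hre] at this
      exact this
    · refine ⟨_, mopt_three hi (c := 46 / 100) (by norm_num) (by norm_num) _, ?_⟩
      rw [OV_move hb hi, OV_three hb hi, OY_zero, OY_two]
      have := V2A.main2e_left (by rw [hre]; exact hcon.le)
        (by rw [hre]; exact hx6) hu c1 c2 hT1 hT2 hv ht1 ht2 (vW_re (Or.inl hi) (46 / 100))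
        (vW_three hi (by norm_num) (by norm_num)) hwok hl
      rw [hre] at this
      exact this
  have hother : dV b j 2 (OY b zs y j) (pw b zs (b j) h (18 / 100)) =
      V2A.g2e (y (.inl (.inl h))) (ofs (b i) (zs (.inl (.inl h))).im) := by
    have hneg : -ofs (b j) (zs (.inl (.inl h))).im = ofs (b i) (zs (.inl (.inl h))).im := by
      rw [hTj, neg_neg]
    have hend : EndOk j (OY b zs y j) := Ow_endOk ((wpar b zs).pth zs y) j
    rw [dV_twoE hb A2 hj hend, OY_two]
    have := V2A.other2e hu2 c3 c4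
    rw [hre2, hneg] at this
    exact this
  obtain ⟨X, h1, h2⟩ := hmain
  have := val_hm hb hy A (c := 18 / 100) (by norm_num) (by rw [q1]; norm_num) h1 (MOpt.same _ _)
  unfold dV at hother
  have e : OV b j (Function.update (OY b zs y j) (0 : Fin 3).rev (pw b zs (b j) h (18 / 100))) =
    OV b j (Function.update (OY b zs y j) 2 (pw b zs (b j) h (18 / 100))) := rfl
  rw [e] at this
  linarith only [hother, h2, this]

/-- **`2 | 3`.** -/
theorem s0_2 (hb : ClassW b) (hL : Loc b zs) (hX : LocX b zs) (hy : Mx b zs y)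
    (A : Adj h i 0 j) (A' : Adj h' i 2 k) (hi : clsW b i = .three)
    (hj : clsW b j = .two) (hcap : y (.inl (.inl h')) ≤ 39 / 100) :
    y (.inl (.inl h)) ≤ 1 / 2 := by
  by_contra hcon
  push Not at hcon
  have hop := A.opp hb (Or.inl (by rw [hi]; decide))
  have A2 : Adj h j 2 i := A.symm
  obtain ⟨q1, q2, q3⟩ := A.par_s0_two hi hj
  obtain ⟨-, -, T1, T2⟩ := A.box hb hL
  rw [hi, hj, A.ss hop] at T1 T2
  have hT1 : -(57 / 1000) ≤ ofs (b i) (zs (.inl (.inl h))).im := le_trans (by norm_num [hbox]) T1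
  have hT2 : ofs (b i) (zs (.inl (.inl h))).im ≤ 5 / 1000 := T2.trans (by norm_num [hbox])
  have hTj : ofs (b j) (zs (.inl (.inl h))).im = -ofs (b i) (zs (.inl (.inl h))).im :=
    ofs_opp hop _
  have hneg : -ofs (b j) (zs (.inl (.inl h))).im = ofs (b i) (zs (.inl (.inl h))).im := by
    rw [hTj, neg_neg]
  have hre := A.re (b := b) (zs := zs) (y := y)
  have hre2 := A2.re (b := b) (zs := zs) (y := y)
  have hu := A.h27 hy q1 q2 (by rw [q3]; norm_num) hcon.le
  have hu2 := A2.h27 hy q1 q2 (by rw [q3]; norm_num) hcon.le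
  have hx6 : y (.inl (.inl h)) ≤ 6 / 10 := by
    have := (A.rh hy).reM
    rw [hre, q1] at this
    linarith only [this]
  obtain ⟨w1, w2, w3, -⟩ := mid_window hX A A' hi
  rw [hj] at w1 w2 w3
  have ht1 : -(114 / 1000) ≤ tW zs (Or.inl hi) := by
    refine le_trans ?_ w1
    generalize clsW b k = K
    cases K <;> norm_num [mw]
  have ht2 : tW zs (Or.inl hi) ≤ 5 / 1000 := by
    refine w2.trans ?_
    generalize clsW b k = K
    cases K <;> norm_num [mw]
  have ht3 : -(105 / 1000) ≤ tW zs (Or.inl hi) - ofs (b i) (zs (.inl (.inl h))).im := by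
    refine le_trans ?_ w3
    generalize clsW b k = K
    cases K <;> norm_num [mw]
  have hwok := A'.wok hb hL hy hi hcap
  have hv := rh_three hy hi
  obtain ⟨h2, r, A3⟩ := A2.other' b (clsW_inner hb (Or.inr (Or.inl hj)))
  have A4 : Adj h2 j 0 r := A3
  have hkok := A4.kok hb hL hy hj
  have hend : EndOk j (OY b zs y j) := Ow_endOk ((wpar b zs).pth zs y) j
  have U1 : -(5 / 1000) ≤ ofs (b j) (zs (.inl (.inl h))).im := by rw [hTj]; linarith only [hT2]
  have U2 : ofs (b j) (zs (.inl (.inl h))).im ≤ 57 / 1000 := by rw [hTj]; linarith only [hT1]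
  have hdV : ∀ z : ℂ, OV b j (Function.update (OY b zs y j) (0 : Fin 3).rev z) -
      OV b j (OY b zs y j) = V2 z (Yw b zs y j 0) - V2 (Yw b zs y j 2) (Yw b zs y j 0) := by
    intro z
    have e := dV_two hb A2 (Or.inl hj) hend z
    have e0 : OY b zs y j (2 : Fin 3).rev = Yw b zs y j 0 := OY_zero j
    rw [OY_two, e0] at e
    exact e
  rcases le_total (OY b zs y i 1).re (1 / 2) with hl | hl
  · -- move to `.27`
    obtain ⟨c1, c2⟩ := pw_flat' (zs := zs) (b i) h (c := 27 / 100) (by rw [q3]; norm_num)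
      (by rw [q1, q2]; norm_num)
    obtain ⟨c3, c4⟩ := pw_flat' (zs := zs) (b j) h (c := 27 / 100) (by rw [q3]; norm_num)
      (by rw [q1, q2]; norm_num)
    have hmain : ∃ X, MOpt b zs i (Function.update (OY b zs y i) 0
        (pw b zs (b i) h (27 / 100))) X ∧ 0 < OV b i X - OV b i (OY b zs y i) +
        V2A.g27 (y (.inl (.inl h))) (ofs (b i) (zs (.inl (.inl h))).im) := by
      rcases le_total (32 / 100) (OY b zs y i 1).re with hl' | hl'
      · refine ⟨_, MOpt.same _ _, ?_⟩
        rw [OV_stay hb hi, OV_three hb hi, OY_zero, OY_two]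
        have := V2A.main2_mid (w := Yw b zs y i 2) (by rw [hre]; exact hcon.le)
          (by rw [hre]; exact hx6) hu c1 c2 hT1 hT2 hv ht1 ht2 hl' hl
        rw [hre] at this
        exact this
      · refine ⟨_, mopt_three hi (c := 48 / 100) (by norm_num) (by norm_num) _, ?_⟩
        rw [OV_move hb hi, OV_three hb hi, OY_zero, OY_two]
        have := V2A.main2_left (by rw [hre]; exact hcon.le)
          (by rw [hre]; exact hx6) hu c1 c2 hT1 hT2 hv ht1 ht2 (vW_re (Or.inl hi) (48 / 100))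
          (vW_three hi (by norm_num) (by norm_num)) hwok hl'
        rw [hre] at this
        exact this
    have ho := V2A.other2_27 (by rw [hre2]; exact hcon.le) (by rw [hre2]; exact hx6) hu2 c3 c4
      U1 U2 hkok
    rw [hre2, hneg] at ho
    obtain ⟨X, h1, h3⟩ := hmain
    have := val_hm hb hy A (c := 27 / 100) (by norm_num) (by rw [q1]; norm_num) h1
      (MOpt.same _ _)
    have := hdV (pw b zs (b j) h (27 / 100))
    linarith
  · -- move to `.41`
    have g1 := pw_RH (zs := zs) (b i) h (c := 41 / 100) (by norm_num) (by rw [q1]; norm_num)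
    have g2 := pw_RH (zs := zs) (b j) h (c := 41 / 100) (by norm_num) (by rw [q1]; norm_num)
    have c1 := pw_re (zs := zs) (b i) h (41 / 100)
    have c3 := pw_re (zs := zs) (b j) h (41 / 100)
    rw [q1, q2, q3] at g1 g2
    have c2 : (pw b zs (b i) h (41 / 100)).im = ofs (b i) (zs (.inl (.inl h))).im * (19 / 27) := by
      rw [MR.RH_right g1 (by norm_num) (by norm_num) (by norm_num) (by rw [c1]; norm_num), c1]
      ring
    have c4 : (pw b zs (b j) h (41 / 100)).im = ofs (b j) (zs (.inl (.inl h))).im * (19 / 27) := by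
      rw [MR.RH_right g2 (by norm_num) (by norm_num) (by norm_num) (by rw [c3]; norm_num), c3]
      ring
    have hm := V2A.main2_far (w := Yw b zs y i 2) (by rw [hre]; exact hcon.le)
      (by rw [hre]; exact hx6) hu c1 c2 hT1 hT2 hv ht1 ht2 ht3 hl
    rw [hre] at hm
    have ho := V2A.other2_41 (by rw [hre2]; exact hcon.le) (by rw [hre2]; exact hx6) hu2 c3 c4
      U1 U2 hkok
    rw [hre2, hneg] at ho
    have h5 := val_hm hb hy A (c := 41 / 100) (by norm_num) (by rw [q1]; norm_num)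
      (MOpt.same _ _) (MOpt.same _ _)
    have := hdV (pw b zs (b j) h (41 / 100))
    rw [OV_stay hb hi, OV_three hb hi, OY_zero, OY_two] at h5
    linarith only [hm, ho, h5, this]

/-- **Caps on the side `S3` of an inner digit `3`**, next to `2`, `2e`, `3`, `3e`. -/
theorem s0_cap (hb : ClassW b) (hL : Loc b zs) (hX : LocX b zs) (hy : Mx b zs y)
    (A : Adj h i 0 j) (A' : Adj h' i 2 k) (hi : clsW b i = .three)
    (hj : clsW b j ≠ .one) (hj' : clsW b j ≠ .ring) (hcap : y (.inl (.inl h')) ≤ 39 / 100) :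
    y (.inl (.inl h)) ≤ 1 / 2 := by
  rcases hc : clsW b j with _ | _ | _ | _ | _ | _
  · exact absurd hc hj
  · exact s0_2 hb hL hX hy A A' hi hc hcap
  · exact s0_2e hb hL hX hy A A' hi hc hcap
  · exact s0_33 hb hL hX hy A A' hi (Or.inl hc) hcap
  · exact s0_33 hb hL hX hy A A' hi (Or.inr hc) hcap
  · exact absurd hc hj'

end SR

end Pool.Agent.Work.MP_b30479_gt.G2
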