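import Pool.Agent.Work.MP_b30479_gt.G2.V2BOne
import Pool.Agent.Work.MP_b30479_gt.G2.V2BMv
import Pool.Agent.Work.MP_b30479_gt.G2.V2A
import Pool.Agent.Work.MP_b30479_gt.G2.WLocY
import Pool.Agent.Work.MP_b30479_gt.G2.WTab

/-!
# The hinge `1 | 3` on the side `S3` of an inner digit `3`: the inner variable is not low

For a hinge `x` in `[.41, .60]` at a maximiser the inner variable of the `3` has real part larger
than `x + .04`; for `x` in `[.60, .65]` it is not in `[.46, x + .04]`.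
-/

namespace Pool.Agent.Work.MP_b30479_gt.G2

open Finset VOL Filter Topology

namespace V2A.B

/-! ### the other hinge of the digit `1` -/

theorem tr_one' {XM cl cr x : ℝ} : tr 0 XM cl cr x ≤ 1 := by
  unfold tr
  exact max_le zero_le_one (min_le_left _ _)

theorem tr_ge' {XM cl cr x r : ℝ} (hc : 0 < cl) (hc' : 0 < cr) (h1 : r ≤ 1) (h2 : r * cl ≤ x)
    (h3 : r * cr ≤ XM - x) : r ≤ tr 0 XM cl cr x := by
  unfold tr
  rw [sub_zero]
  exact (le_min h1 (le_min ((le_div_iff₀ hc).2 h2) ((le_div_iff₀ hc').2 h3))).trans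
    (le_max_right _ _)

variable {w : ℂ} {T S XM : ℝ}

theorem KOk_one (h : RH w S XM (15 / 100) (20 / 100)) (hT : 21 / 1000 ≤ T) (hT' : T ≤ 92 / 1000)
    (hS : -(91 / 1000) ≤ S) (hS' : S ≤ 49 / 1000) (h1 : -(22 / 1000) ≤ T + S)
    (h2 : T + S ≤ 111 / 1000) (hk : 125 / 1000 ≤ w.re) : KOk T w.re w.im := by
  obtain ⟨-, c2⟩ := h.im_low (by norm_num) (by norm_num : (0 : ℝ) ≤ 91 / 150)
    (by norm_num : (0 : ℝ) ≤ 49 / 150) (by linarith only [hS]) (by linarith only [hS'])
  obtain ⟨c3, c4⟩ := MR.RH_im_mem h (by norm_num : -(91 / 1000 : ℝ) ≤ 0)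
    (by norm_num : (0 : ℝ) ≤ 49 / 1000) hS hS'
  have r0 : 0 ≤ tr 0 XM (15 / 100) (20 / 100) w.re := le_max_left _ _
  have r1 : tr 0 XM (15 / 100) (20 / 100) w.re ≤ 1 := tr_one'
  have e := h.im
  generalize tr 0 XM (15 / 100) (20 / 100) w.re = r at *
  refine Or.inl ⟨hT, hT', hk, c3, c4, by linarith only [c2], ?_, ?_⟩
  · rw [e]
    nlinarith only [r1, hT, h1, r0]
  · rw [e]
    nlinarith only [h2, hT', r1, hS, r0]

theorem KOk_two (h : RH w S (80 / 100) (16 / 100) (29 / 100)) (hT : 46 / 1000 ≤ T)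
    (hT' : T ≤ 94 / 1000) (hS : 10 / 1000 ≤ S) (hS' : S ≤ 77 / 1000) (h1 : 78 / 1000 ≤ T + S)
    (h2 : T + S ≤ 148 / 1000) (hk : 150 / 1000 ≤ w.re) (hk' : w.re ≤ 54 / 100) :
    KOk T w.re w.im := by
  obtain ⟨-, c2⟩ := h.im_low (by norm_num) (by norm_num : (0 : ℝ) ≤ 0)
    (by norm_num : (0 : ℝ) ≤ 77 / 160) (by linarith only [hS]) (by linarith only [hS'])
  have r0 : 26 / 29 ≤ tr 0 (80 / 100) (16 / 100) (29 / 100) w.re :=
    tr_ge' (by norm_num) (by norm_num) (by norm_num) (by linarith only [hk]) (by linarith only [hk'])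
  have r1 : tr 0 (80 / 100) (16 / 100) (29 / 100) w.re ≤ 1 := tr_one'
  have e := h.im
  generalize tr 0 (80 / 100) (16 / 100) (29 / 100) w.re = r at *
  have e1 : 0 ≤ (r - 26 / 29) * S := mul_nonneg (by linarith only [r0]) (by linarith only [hS])
  have e2 : 0 ≤ (1 - r) * S := mul_nonneg (by linarith only [r1]) (by linarith only [hS])
  have e3 : 0 ≤ (1 - r) * (T - 46 / 1000) := mul_nonneg (by linarith only [r1]) (by linarith only [hT])
  have e4 : 0 ≤ r * (T + S - 78 / 1000) := mul_nonneg (by linarith only [r0]) (by linarith only [h1])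
  refine Or.inr (Or.inl ⟨hT, hT', hk, ?_, ?_, by linarith only [c2], ?_, ?_⟩)
  · rw [e]
    linarith only [hS, e1]
  · rw [e]
    linarith only [hS', e2]
  · rw [e]
    linarith only [hT, h1, e1]
  · rw [e]
    linarith only [h2, e2]

theorem KOk_twoE (h : RH w S (70 / 100) (14 / 100) (35 / 100)) (hT : 87 / 1000 ≤ T)
    (hT' : T ≤ 1145 / 10000) (hS : -(45 / 1000) ≤ S) (hS' : S ≤ -(25 / 1000))
    (h1 : 51 / 1000 ≤ T + S) (h2 : T + S ≤ 77 / 1000) (hk : 125 / 1000 ≤ w.re)
    (hk' : w.re ≤ 54 / 100) : KOk T w.re w.im := by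
  have r0 : 16 / 35 ≤ tr 0 (70 / 100) (14 / 100) (35 / 100) w.re :=
    tr_ge' (by norm_num) (by norm_num) (by norm_num) (by linarith only [hk]) (by linarith only [hk'])
  have r2 : w.re ≤ 35 / 100 → 125 / 140 ≤ tr 0 (70 / 100) (14 / 100) (35 / 100) w.re := fun h =>
    tr_ge' (by norm_num) (by norm_num) (by norm_num) (by linarith only [hk]) (by linarith only [h])
  have r1 : tr 0 (70 / 100) (14 / 100) (35 / 100) w.re ≤ 1 := tr_one'
  have e := h.im
  generalize tr 0 (70 / 100) (14 / 100) (35 / 100) w.re = r at *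
  have e1 : 0 ≤ (r - 16 / 35) * -S := mul_nonneg (by linarith only [r0]) (by linarith only [hS'])
  have e2 : 0 ≤ (1 - r) * -S := mul_nonneg (by linarith only [r1]) (by linarith only [hS'])
  have e3 : 0 ≤ (1 - r) * (1145 / 10000 - T) := mul_nonneg (by linarith only [r1]) (by linarith only [hT'])
  have e4 : 0 ≤ r * (77 / 1000 - (T + S)) := mul_nonneg (by linarith only [r0]) (by linarith only [h2])
  refine Or.inr (Or.inr ⟨hT, hT', hk, ?_, ?_, ?_, ?_, ?_⟩)
  · rw [e]
    linarith only [hS, e2]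
  · rw [e]
    linarith only [hS', e1]
  · rw [e]
    linarith only [h1, e2]
  · intro h0
    have := r2 h0
    rw [e]
    linarith only [e3, e4, this]
  · rw [e]
    linarith only [hT', h2, e1]

/-! ### complex variables -/

variable {u u' v v' : ℂ} {t : ℝ}

open NumU in
theorem c_stay (hu : u.im = h65 u.re T) (hc : u'.im = T)
    {c g : ℝ} (hc' : u'.re = c) (hv : RH v t (8 / 10) (5 / 100) (5 / 100)) (h0 : 5 / 100 ≤ v.re)
    (h1 : v.re ≤ 75 / 100)
    (H : 0 < dvR c T u.re (h65 u.re T) (u.re + (v.re - u.re)) t + g +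
      uu (v.re - u.re) (t - h65 u.re T)) : 0 < V3 u' v w - V3 u v w + g := by
  rw [V3_dvR (w := w) rfl hu hc' hc rfl (mid_flat hv h0 h1)]
  have e : u.re + (v.re - u.re) = v.re := by ring
  rw [e] at H
  linarith only [H]

open NumU in
theorem c_stay' (hu : u.im = T) (hc : u'.im = T)
    {c g : ℝ} (hc' : u'.re = c) (hv : RH v t (8 / 10) (5 / 100) (5 / 100)) (h0 : 5 / 100 ≤ v.re)
    (h1 : v.re ≤ 75 / 100)
    (H : 0 < dvR c T u.re T (u.re + (v.re - u.re)) t + g +
      uu (v.re - u.re) (t - T)) : 0 < V3 u' v w - V3 u v w + g := by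
  rw [V3_dvR (w := w) rfl hu hc' hc rfl (mid_flat hv h0 h1)]
  have e : u.re + (v.re - u.re) = v.re := by ring
  rw [e] at H
  linarith only [H]

/-- `x ≤ 1/2`, low inner variable -/
theorem c_mv_I (hx : 41 / 100 ≤ u.re) (hx' : u.re ≤ 1 / 2) (hu : u.im = T) (hc : u'.im = T)
    (hc' : u'.re = 34 / 100) (hv : RH v t (8 / 10) (5 / 100) (5 / 100)) (M : MOk T t)
    (W : WOk w.re w.im) (hd : v'.re = 46 / 100) (hd' : v'.im = t) (hl : v.re ≤ 38 / 100) :
    0 < V3 u' v' w - V3 u v w + gq (-5650) (-270) 0 0 0 0 500 0 u.re T := by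
  rcases le_total v.re (5 / 100) with h | h
  · have := mv_I_r hx hx' M W hv.re0 h
    rw [V3_dvG (w := w) rfl hu hc' hc rfl (mid_left hv h) hd hd']
    linarith only [this]
  · have := mv_I hx hx' M W h hl
    rw [V3_dvL (w := w) rfl hu hc' hc rfl (mid_flat hv h (by linarith only [hl])) hd hd']
    linarith only [this]

theorem c_mv_34 (hx : 1 / 2 ≤ u.re) (hx' : u.re ≤ 6 / 10) (hu : u.im = h65 u.re T)
    (hc : u'.im = T) (hc' : u'.re = 34 / 100) (hv : RH v t (8 / 10) (5 / 100) (5 / 100))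
    (M : MOk T t) (W : WOk w.re w.im) (hd : v'.re = 46 / 100) (hd' : v'.im = t)
    (hl : v.re ≤ 38 / 100) : 0 < V3 u' v' w - V3 u v w +
      gq (-6000) (-1301) 299 (-16249) 16698 940 500 70 u.re T := by
  rcases le_total v.re (5 / 100) with h | h
  · have := mv_34_r hx hx' M W hv.re0 h
    rw [V3_dvG (w := w) rfl hu hc' hc rfl (mid_left hv h) hd hd']
    linarith only [this]
  · have := mv_34 hx hx' M W h hl
    rw [V3_dvL (w := w) rfl hu hc' hc rfl (mid_flat hv h (by linarith only [hl])) hd hd']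
    linarith only [this]

end V2A.B

namespace SR

open V2A.B

variable {M : ℕ} {b : Fin (M + 1) → ℤ} {zs : DD (tyW b) ⊕ ZZ (tyW b) → ℂ}
variable {y : DD (tyW b) ⊕ ZZ (tyW b) → ℝ}
variable {h h' : Fin M} {i j k j' : Fin (M + 1)} {p : Fin 3}

/-- path of the hinge `1 | 3`, side `S3` -/
theorem Adj.par_s0_one (A : Adj h i 0 j) (hi : clsW b i = .three) (hj : clsW b j = .one) :
    wXM b h = 65 / 100 ∧ wcr b h = 15 / 100 ∧ wcl b h = 13 / 100 := by
  rw [A.XM_eq b, A.cr_eq b, A.cl_eq b, hi, hj]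
  unfold hpp
  rw [if_neg (by decide)]
  norm_num [hp, hp1]

theorem Adj.h65 (A : Adj h i p j) (hy : Mx b zs y) (h1 : wXM b h = 65 / 100)
    (h2 : wcr b h = 15 / 100) (h3 : wcl b h = 13 / 100) (hx : 1 / 2 ≤ y (.inl (.inl h))) :
    (Yw b zs y i p).im = V2A.B.h65 (Yw b zs y i p).re (ofs (b i) (zs (.inl (.inl h))).im) := by
  have hrh := A.rh hy
  have hre := A.re (b := b) (zs := zs) (y := y)
  rw [h1, h2] at hrh
  rw [MR.RH_right hrh (wcl_pos h) (by norm_num) (by rw [h3]; norm_num) (by rw [hre]; linarith only [hx])]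
  unfold V2A.B.h65
  ring

theorem Adj.h65f (A : Adj h i p j) (hy : Mx b zs y) (h1 : wXM b h = 65 / 100)
    (h2 : wcr b h = 15 / 100) (h3 : wcl b h = 13 / 100) (hx : 13 / 100 ≤ y (.inl (.inl h)))
    (hx' : y (.inl (.inl h)) ≤ 1 / 2) :
    (Yw b zs y i p).im = ofs (b i) (zs (.inl (.inl h))).im := by
  have hrh := A.rh hy
  have hre := A.re (b := b) (zs := zs) (y := y)
  exact MR.RH_flat hrh (wcl_pos h) (wcr_pos h) (by rw [hre, h3]; exact hx)
    (by rw [hre, h1, h2]; linarith only [hx'])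

/-- the digit `1` next to an inner digit `3`: heights of the two hinges -/
theorem Adj.k13 (A2 : Adj h j 2 i) (hb : ClassW b) (hX : LocX b zs) (hy : Mx b zs y)
    (hF : Flr b y F1) (A4 : Adj h' j 0 k) (hi : clsW b i = .three) (hj : clsW b j = .one)
    (hk : y (.inl (.inl h')) ≤ 54 / 100) :
    KOk (ofs (b j) (zs (.inl (.inl h))).im) (Yw b zs y j 0).re (Yw b zs y j 0).im := by
  have hok := okp_of hb A2 A4 hj
  rw [hi] at hok
  obtain ⟨t0, t1, s0, s1⟩ := hX.win A2 A4 hj
  obtain ⟨t2, t3, -, -⟩ := hX.win A4 A2 hj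
  have hrh := A4.rh hy
  have hre := A4.re (b := b) (zs := zs) (y := y)
  have hfl := hF A4
  have e1 := A4.XM_eq b
  have e2 := A4.cl_eq b
  have e3 := A4.cr_eq b
  unfold hpp at e1 e2 e3
  rw [if_neg (by decide), hj] at e1 e2 e3
  rw [hi] at t0 t1 s0 s1 t2 t3
  rw [hj] at hfl
  rcases hok with hok | hok
  · simp at hok
  rcases hok with hc | hc | hc
  · rw [hc] at t0 t1 s0 s1 t2 t3 e1 e2 e3 hfl
    have e2' : wcl b h' = 15 / 100 := by
      rw [e2]; unfold hp; dsimp only; split_ifs <;> rfl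
    have e3' : wcr b h' = 20 / 100 := by
      rw [e3]; unfold hp; dsimp only; split_ifs <;> rfl
    rw [e2', e3'] at hrh
    refine KOk_one hrh (le_trans (by norm_num [cw]) t0) (t1.trans (by norm_num [cw]))
      (le_trans (by norm_num [cw]) t2) (t3.trans (by norm_num [cw]))
      (le_trans (by norm_num [cw]) s0) (s1.trans (by norm_num [cw])) ?_
    rw [hre]
    exact le_trans (by norm_num [F1]) hfl
  · rw [hc] at t0 t1 s0 s1 t2 t3 e1 e2 e3 hfl
    have e1' : wXM b h' = 80 / 100 := by rw [e1]; rfl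
    have e2' : wcl b h' = 16 / 100 := by rw [e2]; rfl
    have e3' : wcr b h' = 29 / 100 := by rw [e3]; rfl
    rw [e1', e2', e3'] at hrh
    refine KOk_two hrh (le_trans (by norm_num [cw]) t0) (t1.trans (by norm_num [cw]))
      (le_trans (by norm_num [cw]) t2) (t3.trans (by norm_num [cw]))
      (le_trans (by norm_num [cw]) s0) (s1.trans (by norm_num [cw])) ?_ (by rw [hre]; exact hk)
    rw [hre]
    exact le_trans (by norm_num [F1]) hfl
  · rw [hc] at t0 t1 s0 s1 t2 t3 e1 e2 e3 hfl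
    have e1' : wXM b h' = 70 / 100 := by rw [e1]; rfl
    have e2' : wcl b h' = 14 / 100 := by rw [e2]; rfl
    have e3' : wcr b h' = 35 / 100 := by rw [e3]; rfl
    rw [e1', e2', e3'] at hrh
    refine KOk_twoE hrh (le_trans (by norm_num [cw]) t0) (t1.trans (by norm_num [cw]))
      (le_trans (by norm_num [cw]) t2) (t3.trans (by norm_num [cw]))
      (le_trans (by norm_num [cw]) s0) (s1.trans (by norm_num [cw])) ?_ (by rw [hre]; exact hk)
    rw [hre]
    exact le_trans (by norm_num [F1]) hfl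

/-- heights at the inner variable of an inner digit `3` next to a digit `1` -/
theorem mok_one (hX : LocX b zs) (A : Adj h i 0 j) (A' : Adj h' i 2 k) (hi : clsW b i = .three)
    (hj : clsW b j = .one) (T0 : -(1145 / 10000) ≤ ofs (b i) (zs (.inl (.inl h))).im)
    (T1 : ofs (b i) (zs (.inl (.inl h))).im ≤ -(21 / 1000)) :
    MOk (ofs (b i) (zs (.inl (.inl h))).im) (tW zs (Or.inl hi)) := by
  obtain ⟨w1, w2, w3, w4⟩ := mid_window hX A A' hi
  rw [hj] at w1 w2 w3 w4
  refine ⟨T0, T1, le_trans ?_ w1, w2.trans ?_, le_trans ?_ w3, w4.trans ?_⟩ <;>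
    generalize clsW b k = K <;> cases K <;> norm_num [mw]

/-- **`1 | 3`.** The inner variable is not low. -/
theorem s0_one_mid (hb : ClassW b) (hL : Loc b zs) (hX : LocX b zs) (hy : Mx b zs y)
    (hF : Flr b y F1) (hS : Sum1 b y (95 / 100)) (A : Adj h i 0 j) (A' : Adj h' i 2 k)
    (hi : clsW b i = .three) (hj : clsW b j = .one) (hcap : y (.inl (.inl h')) ≤ 39 / 100)
    (hx : 41 / 100 ≤ y (.inl (.inl h))) (hx' : y (.inl (.inl h)) ≤ 60 / 100) :
    y (.inl (.inl h)) + 4 / 100 < (OY b zs y i 1).re := by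
  by_contra hcon
  push Not at hcon
  have hop := A.opp hb (Or.inl (by rw [hi]; decide))
  have A2 : Adj h j 2 i := A.symm
  obtain ⟨q1, q2, q3⟩ := A.par_s0_one hi hj
  have hTj : ofs (b j) (zs (.inl (.inl h))).im = -ofs (b i) (zs (.inl (.inl h))).im :=
    ofs_opp hop _
  have hneg : -ofs (b j) (zs (.inl (.inl h))).im = ofs (b i) (zs (.inl (.inl h))).im := by
    rw [hTj, neg_neg]
  have hre := A.re (b := b) (zs := zs) (y := y)
  have hre2 := A2.re (b := b) (zs := zs) (y := y)
  obtain ⟨h2, r, A3⟩ := A2.other_one hb hj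
  have A4 : Adj h2 j 0 r := A3
  have hre4 := A4.re (b := b) (zs := zs) (y := y)
  have hsum : y (.inl (.inl h)) + y (.inl (.inl h2)) ≤ 95 / 100 := hS A2 A4 hj
  have hK := A2.k13 hb hX hy hF A4 hi hj (by linarith only [hx, hsum])
  have hT : -(1145 / 10000) ≤ ofs (b i) (zs (.inl (.inl h))).im ∧
      ofs (b i) (zs (.inl (.inl h))).im ≤ -(21 / 1000) := by
    rw [← hneg]
    rcases hK with K | K | K
    · have := K.T0
      have := K.T1
      constructor <;> linarith
    · have := K.T0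
      have := K.T1
      constructor <;> linarith
    · have := K.T0
      have := K.T1
      constructor <;> linarith
  have hM := mok_one hX A A' hi hj hT.1 hT.2
  have hwok := A'.wok hb hL hy hi hcap
  have hre' := A'.re (b := b) (zs := zs) (y := y)
  have hW : WOk (Yw b zs y i 2).re (Yw b zs y i 2).im := by
    refine ⟨?_, hwok.re1, hwok.im0, hwok.im1⟩
    rw [hre']
    have := hF A'
    rw [hi] at this
    refine le_trans ?_ this
    generalize clsW b k = K
    cases K <;> norm_num [F1]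
  have hv := rh_three hy hi
  have hdV : ∀ z : ℂ, OV b j (Function.update (OY b zs y j) (0 : Fin 3).rev z) -
      OV b j (OY b zs y j) = V1 z (Yw b zs y j 0) - V1 (Yw b zs y j 2) (Yw b zs y j 0) := by
    intro z
    have e := dV_one hb A2 hj (OY b zs y j) z
    have e0 : OY b zs y j (2 : Fin 3).rev = Yw b zs y j 0 := OY_zero j
    rw [OY_two, e0] at e
    exact e
  have hk0 : (Yw b zs y j 2).re + (Yw b zs y j 0).re ≤ 95 / 100 := by
    rw [hre2, hre4]
    exact hsum
  -- the digit on the right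
  have fin : ∀ {c g : ℝ}, 13 / 100 ≤ c → c ≤ 1 / 2 →
      (∃ X, MOpt b zs i (Function.update (OY b zs y i) 0 (pw b zs (b i) h c)) X ∧
        0 < OV b i X - OV b i (OY b zs y i) + g) →
      g < V1 (pw b zs (b j) h c) (Yw b zs y j 0) - V1 (Yw b zs y j 2) (Yw b zs y j 0) → False := by
    intro c g h0 h1 hX1 h5
    obtain ⟨X, h3, h4⟩ := hX1
    have h6 := val_hm hb hy A (c := c) (by linarith only [h0]) (by rw [q1]; linarith only [h1]) h3 (MOpt.same _ _)
    have h7 := hdV (pw b zs (b j) h c)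
    linarith only [h5, h4, h6, h7]
  have hpt : ∀ (s : ℤ) {c : ℝ}, 13 / 100 ≤ c → c ≤ 1 / 2 →
      (pw b zs s h c).re = c ∧ (pw b zs s h c).im = ofs s (zs (.inl (.inl h))).im :=
    fun s c h0 h1 => pw_flat' (zs := zs) s h (by rw [q3]; exact h0) (by rw [q1, q2]; linarith only [h1])
  obtain ⟨c1, c2⟩ := hpt (b i) (c := 34 / 100) (by norm_num) (by norm_num)
  obtain ⟨c3, c4⟩ := hpt (b j) (c := 34 / 100) (by norm_num) (by norm_num)
  rcases le_total (y (.inl (.inl h))) (1 / 2) with hx5 | hx5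
  · -- flat part
    have hu := A.h65f hy q1 q2 q3 (by linarith only [hx]) hx5
    have hu2 := A2.h65f hy q1 q2 q3 (by linarith only [hx]) hx5
    have ho := one_I (x := (Yw b zs y j 2).re) (by rw [hre2]; exact hx) (by rw [hre2]; exact hx5)
      hK hk0
    rw [hneg, ← V1_dvB rfl hu2 c3 c4, hre2] at ho
    refine fin (by norm_num) (by norm_num) ?_ ho
    rcases le_total (OY b zs y i 1).re (38 / 100) with hl | hl
    · refine ⟨_, mopt_three hi (c := 46 / 100) (by norm_num) (by norm_num) _, ?_⟩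
      rw [OV_move hb hi, OV_three hb hi, OY_zero, OY_two, ← hre]
      exact c_mv_I (u := Yw b zs y i 0) (by rw [hre]; exact hx) (by rw [hre]; exact hx5) hu c2 c1 hv hM hW
        (vW_re (Or.inl hi) (46 / 100)) (vW_three hi (by norm_num) (by norm_num)) hl
    · refine ⟨_, MOpt.same _ _, ?_⟩
      rw [OV_stay hb hi, OV_three hb hi, OY_zero, OY_two, ← hre]
      refine c_stay' hu c2 c1 hv (by linarith only [hl]) (by linarith only [hx', hcon]) ?_
      refine st_I (x := (Yw b zs y i 0).re) (by rw [hre]; exact hx) (by rw [hre]; exact hx5) hM ?_ ?_ ?_ <;> rw [hre] <;>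
        linarith only [hl, hcon, hx5]
  · -- right ramp
    have hu := A.h65 hy q1 q2 q3 hx5
    have hu2 := A2.h65 hy q1 q2 q3 hx5
    rcases le_total (OY b zs y i 1).re (56 / 100) with hl | hl
    · have ho := one_34 (x := (Yw b zs y j 2).re) (by rw [hre2]; exact hx5) (by rw [hre2]; linarith only [hx']) hK hk0
      rw [hneg, ← V1_dvB rfl hu2 c3 c4, hre2] at ho
      refine fin (by norm_num) (by norm_num) ?_ ho
      rcases le_total (OY b zs y i 1).re (38 / 100) with hl2 | hl2
      · refine ⟨_, mopt_three hi (c := 46 / 100) (by norm_num) (by norm_num) _, ?_⟩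
        rw [OV_move hb hi, OV_three hb hi, OY_zero, OY_two, ← hre]
        exact c_mv_34 (u := Yw b zs y i 0) (by rw [hre]; exact hx5) (by rw [hre]; linarith only [hx']) hu c2 c1 hv hM hW
          (vW_re (Or.inl hi) (46 / 100)) (vW_three hi (by norm_num) (by norm_num)) hl2
      · refine ⟨_, MOpt.same _ _, ?_⟩
        rw [OV_stay hb hi, OV_three hb hi, OY_zero, OY_two, ← hre]
        refine c_stay hu c2 c1 hv (by linarith only [hl2]) (by linarith only [hx', hcon]) ?_
        refine st_34 (x := (Yw b zs y i 0).re) (by rw [hre]; exact hx5) (by rw [hre]; linarith only [hx']) hM ?_ ?_ ?_ <;>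
          rw [hre] <;> linarith only [hl2, hl, hcon]
    · obtain ⟨d1, d2⟩ := hpt (b i) (c := 40 / 100) (by norm_num) (by norm_num)
      obtain ⟨d3, d4⟩ := hpt (b j) (c := 40 / 100) (by norm_num) (by norm_num)
      have ho := one_40 (x := (Yw b zs y j 2).re) (by rw [hre2]; linarith only [hcon, hl]) (by rw [hre2]; linarith only [hx']) hK hk0
      rw [hneg, ← V1_dvB rfl hu2 d3 d4, hre2] at ho
      refine fin (by norm_num) (by norm_num) ?_ ho
      refine ⟨_, MOpt.same _ _, ?_⟩
      rw [OV_stay hb hi, OV_three hb hi, OY_zero, OY_two, ← hre]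
      refine c_stay hu d2 d1 hv (by linarith only [hl]) (by linarith only [hx', hcon]) ?_
      refine st_40 (x := (Yw b zs y i 0).re) (by rw [hre]; linarith only [hcon, hl]) (by rw [hre]; linarith only [hx']) hM ?_ ?_ ?_ <;>
        rw [hre] <;> linarith only [hl, hx', hcon]

/-- **`1 | 3`, `x ≥ .60`.** The inner variable is not in `[.46, x + .04]`. -/
theorem s0_one_mid' (hb : ClassW b) (hX : LocX b zs) (hy : Mx b zs y)
    (hF : Flr b y F1) (hS : Sum1 b y (95 / 100)) (A : Adj h i 0 j) (A' : Adj h' i 2 k)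
    (hi : clsW b i = .three) (hj : clsW b j = .one) (hx : 60 / 100 ≤ y (.inl (.inl h))) :
    (OY b zs y i 1).re < 46 / 100 ∨ y (.inl (.inl h)) + 4 / 100 < (OY b zs y i 1).re := by
  by_contra hcon
  push Not at hcon
  obtain ⟨hcon0, hcon⟩ := hcon
  have hop := A.opp hb (Or.inl (by rw [hi]; decide))
  have A2 : Adj h j 2 i := A.symm
  obtain ⟨q1, q2, q3⟩ := A.par_s0_one hi hj
  have hTj : ofs (b j) (zs (.inl (.inl h))).im = -ofs (b i) (zs (.inl (.inl h))).im :=
    ofs_opp hop _
  have hneg : -ofs (b j) (zs (.inl (.inl h))).im = ofs (b i) (zs (.inl (.inl h))).im := by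
    rw [hTj, neg_neg]
  have hre := A.re (b := b) (zs := zs) (y := y)
  have hre2 := A2.re (b := b) (zs := zs) (y := y)
  have hx' : y (.inl (.inl h)) ≤ 65 / 100 := by
    have := (A.rh hy).reM
    rw [hre, q1] at this
    exact this
  obtain ⟨h2, r, A3⟩ := A2.other_one hb hj
  have A4 : Adj h2 j 0 r := A3
  have hre4 := A4.re (b := b) (zs := zs) (y := y)
  have hsum : y (.inl (.inl h)) + y (.inl (.inl h2)) ≤ 95 / 100 := hS A2 A4 hj
  have hK := A2.k13 hb hX hy hF A4 hi hj (by linarith only [hx, hsum])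
  have hT : -(1145 / 10000) ≤ ofs (b i) (zs (.inl (.inl h))).im ∧
      ofs (b i) (zs (.inl (.inl h))).im ≤ -(21 / 1000) := by
    rw [← hneg]
    rcases hK with K | K | K
    · have := K.T0
      have := K.T1
      constructor <;> linarith
    · have := K.T0
      have := K.T1
      constructor <;> linarith
    · have := K.T0
      have := K.T1
      constructor <;> linarith
  have hM := mok_one hX A A' hi hj hT.1 hT.2
  have hv := rh_three hy hi
  have hdV : ∀ z : ℂ, OV b j (Function.update (OY b zs y j) (0 : Fin 3).rev z) -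
      OV b j (OY b zs y j) = V1 z (Yw b zs y j 0) - V1 (Yw b zs y j 2) (Yw b zs y j 0) := by
    intro z
    have e := dV_one hb A2 hj (OY b zs y j) z
    have e0 : OY b zs y j (2 : Fin 3).rev = Yw b zs y j 0 := OY_zero j
    rw [OY_two, e0] at e
    exact e
  have hk0 : (Yw b zs y j 2).re + (Yw b zs y j 0).re ≤ 95 / 100 := by
    rw [hre2, hre4]
    exact hsum
  have fin : ∀ {c g : ℝ}, 13 / 100 ≤ c → c ≤ 1 / 2 →
      (∃ X, MOpt b zs i (Function.update (OY b zs y i) 0 (pw b zs (b i) h c)) X ∧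
        0 < OV b i X - OV b i (OY b zs y i) + g) →
      g < V1 (pw b zs (b j) h c) (Yw b zs y j 0) - V1 (Yw b zs y j 2) (Yw b zs y j 0) → False := by
    intro c g h0 h1 hX1 h5
    obtain ⟨X, h3, h4⟩ := hX1
    have h6 := val_hm hb hy A (c := c) (by linarith only [h0]) (by rw [q1]; linarith only [h1]) h3 (MOpt.same _ _)
    have h7 := hdV (pw b zs (b j) h c)
    linarith only [h5, h4, h6, h7]
  have hpt : ∀ (s : ℤ) {c : ℝ}, 13 / 100 ≤ c → c ≤ 1 / 2 →
      (pw b zs s h c).re = c ∧ (pw b zs s h c).im = ofs s (zs (.inl (.inl h))).im :=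
    fun s c h0 h1 => pw_flat' (zs := zs) s h (by rw [q3]; exact h0) (by rw [q1, q2]; linarith only [h1])
  have hu := A.h65 hy q1 q2 q3 (by linarith only [hx])
  have hu2 := A2.h65 hy q1 q2 q3 (by linarith only [hx])
  rcases le_total (OY b zs y i 1).re (56 / 100) with hl | hl
  · obtain ⟨c1, c2⟩ := hpt (b i) (c := 34 / 100) (by norm_num) (by norm_num)
    obtain ⟨c3, c4⟩ := hpt (b j) (c := 34 / 100) (by norm_num) (by norm_num)
    have ho := one_34e (x := (Yw b zs y j 2).re) (by rw [hre2]; linarith only [hx]) (by rw [hre2]; linarith only [hx']) hK hk0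
    rw [hneg, ← V1_dvB rfl hu2 c3 c4, hre2] at ho
    refine fin (by norm_num) (by norm_num) ?_ ho
    refine ⟨_, MOpt.same _ _, ?_⟩
    rw [OV_stay hb hi, OV_three hb hi, OY_zero, OY_two, ← hre]
    refine c_stay hu c2 c1 hv (by linarith only [hcon0]) (by linarith only [hcon, hx']) ?_
    refine st_34e (x := (Yw b zs y i 0).re) (by rw [hre]; linarith only [hx]) (by rw [hre]; linarith only [hx']) hM ?_ ?_ ?_ <;>
      rw [hre] <;> linarith only [hcon0, hl, hcon]
  · obtain ⟨d1, d2⟩ := hpt (b i) (c := 44 / 100) (by norm_num) (by norm_num)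
    obtain ⟨d3, d4⟩ := hpt (b j) (c := 44 / 100) (by norm_num) (by norm_num)
    have ho := one_44e (x := (Yw b zs y j 2).re) (by rw [hre2]; linarith only [hx]) (by rw [hre2]; linarith only [hx']) hK hk0
    rw [hneg, ← V1_dvB rfl hu2 d3 d4, hre2] at ho
    refine fin (by norm_num) (by norm_num) ?_ ho
    refine ⟨_, MOpt.same _ _, ?_⟩
    rw [OV_stay hb hi, OV_three hb hi, OY_zero, OY_two, ← hre]
    refine c_stay hu d2 d1 hv (by linarith only [hl]) (by linarith only [hcon, hx']) ?_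
    refine st_44e (x := (Yw b zs y i 0).re) (by rw [hre]; linarith only [hx]) (by rw [hre]; linarith only [hx']) hM ?_ ?_ ?_ <;>
      rw [hre] <;> linarith only [hl, hcon, hx']

end SR

end Pool.Agent.Work.MP_b30479_gt.G2
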