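import Pool.Agent.Work.MP_b30479_gt.G2.H13X
import Pool.Agent.Work.MP_b30479_gt.G2.MFD
import Pool.Agent.Work.MP_b30479_gt.G2.V2B

/-!
# The round `R1.1`: the hinge `1 | 3` (slot `0`) is at most `47/100`
-/

namespace Pool.Agent.Work.MP_b30479_gt.G2

open Finset VOL Filter Topology

namespace HX

open SR

variable {M : ℕ} {b : Fin (M + 1) → ℤ} {zs : DD (tyW b) ⊕ ZZ (tyW b) → ℂ}
variable {y : DD (tyW b) ⊕ ZZ (tyW b) → ℝ}
variable {h h' h3 : Fin M} {i j j' k : Fin (M + 1)} {p : Fin 3}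

/-- the thresholds of `K13` -/
def KT (x : ℝ) (n : ℕ) : Prop :=
  (x ≤ 475 / 1000 → 1879 ≤ MF.fl1 n ∧ 2282 ≤ MF.fl2 n ∧ 2344 ≤ MF.flE n) ∧
  (x ≤ 1 / 2 → 1856 ≤ MF.fl1 n ∧ 2248 ≤ MF.fl2 n ∧ 2277 ≤ MF.flE n) ∧
  (x ≤ 55 / 100 → 1772 ≤ MF.fl1 n ∧ 2117 ≤ MF.fl2 n ∧ 2021 ≤ MF.flE n) ∧
  1558 ≤ MF.fl1 n ∧ 1824 ≤ MF.fl2 n ∧ 1594 ≤ MF.flE n

theorem ile {a c : ℤ} {q : ℝ} (h : a ≤ c) (h' : (c : ℝ) / 10000 ≤ q) : (a : ℝ) / 10000 ≤ q := by
  have : (a : ℝ) ≤ (c : ℝ) := by exact_mod_cast h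
  linarith only [h', this]

theorem K13_mk {c : Cl} {x q : ℝ} {n : ℕ} (g : KT x n)
    (f1 : c = .one → (MF.fl1 n : ℝ) / 10000 ≤ q) (f2 : c = .two → (MF.fl2 n : ℝ) / 10000 ≤ q)
    (f3 : c = .twoE → (MF.flE n : ℝ) / 10000 ≤ q) : K13 c x q := by
  obtain ⟨g1, g2, g3, g4⟩ := g
  cases c
  · have f := f1 rfl
    refine ⟨fun h => ?_, fun h => ?_, fun h => ?_, ?_⟩
    · simpa using ile (g1 h).1 f
    · simpa using ile (g2 h).1 f
    · simpa using ile (g3 h).1 f
    · simpa using ile g4.1 f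
  · have f := f2 rfl
    refine ⟨fun h => ?_, fun h => ?_, fun h => ?_, ?_⟩
    · simpa using ile (g1 h).2.1 f
    · simpa using ile (g2 h).2.1 f
    · simpa using ile (g3 h).2.1 f
    · simpa using ile g4.2.1 f
  · have f := f3 rfl
    refine ⟨fun h => ?_, fun h => ?_, fun h => ?_, ?_⟩
    · simpa using ile (g1 h).2.2 f
    · simpa using ile (g2 h).2.2 f
    · simpa using ile (g3 h).2.2 f
    · simpa using ile g4.2.2 f
  all_goals trivial

/-- the conditional floors of the other hinge of the digit `1` -/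
theorem k13_all (hb : ClassW b) (hL : Loc b zs) (hX : LocX b zs) (hP : LocP b zs) (hy : Mx b zs y)
    (hpos : ∀ h : Fin M, 0 < y (.inl (.inl h))) (hF : Flr b y F1) (hC : Cap b y C1)
    (h12 : ∀ {h h' : Fin M} {i j j' : Fin (M + 1)} {p : Fin 3}, Adj h i p j → Adj h' i p.rev j' →
      clsW b i = .one → clsW b j = .two → clsW b j' ≠ .ring → y (.inl (.inl h)) ≤ 535 / 1000)
    (A : Adj h i 2 j) (A' : Adj h' i 0 j') (hi : clsW b i = .one) (hj : clsW b j = .three)
    (hx : 45 / 100 ≤ y (.inl (.inl h))) (hx' : y (.inl (.inl h)) ≤ 65 / 100) :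
    K13 (clsW b j') (y (.inl (.inl h))) (y (.inl (.inl h'))) := by
  have key : ∃ n : ℕ, n < 10 ∧ (MF.xi n : ℝ) / 10000 ≤ y (.inl (.inl h)) ∧
      y (.inl (.inl h)) ≤ (MF.xi (n + 1) : ℝ) / 10000 ∧ KT (y (.inl (.inl h))) n := by
    generalize y (.inl (.inl h)) = x at *
    rcases le_or_gt x (475 / 1000) with h1 | h1
    · refine ⟨2, by norm_num, ?_, ?_, fun _ => by decide, fun _ => by decide,
        fun _ => by decide, by decide⟩ <;> simp only [MF.xi] <;> push_cast <;> linarith only [hx, h1]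
    have n1 : ¬ x ≤ 475 / 1000 := not_le.2 h1
    rcases le_or_gt x (1 / 2) with h2 | h2
    · refine ⟨3, by norm_num, ?_, ?_, fun h => absurd h n1, fun _ => by decide,
        fun _ => by decide, by decide⟩ <;> simp only [MF.xi] <;> push_cast <;> linarith only [h1, h2]
    have n2 : ¬ x ≤ 1 / 2 := not_le.2 h2
    rcases le_or_gt x (525 / 1000) with h3 | h3
    · refine ⟨4, by norm_num, ?_, ?_, fun h => absurd h n1, fun h => absurd h n2,
        fun _ => by decide, by decide⟩ <;> simp only [MF.xi] <;> push_cast <;> linarith only [h2, h3]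
    rcases le_or_gt x (55 / 100) with h4 | h4
    · refine ⟨5, by norm_num, ?_, ?_, fun h => absurd h n1, fun h => absurd h n2,
        fun _ => by decide, by decide⟩ <;> simp only [MF.xi] <;> push_cast <;> linarith only [h3, h4]
    have n3 : ¬ x ≤ 55 / 100 := not_le.2 h4
    rcases le_or_gt x (575 / 1000) with h5 | h5
    · refine ⟨6, by norm_num, ?_, ?_, fun h => absurd h n1, fun h => absurd h n2,
        fun h => absurd h n3, by decide⟩ <;> simp only [MF.xi] <;> push_cast <;> linarith only [h4, h5]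
    rcases le_or_gt x (60 / 100) with h6 | h6
    · refine ⟨7, by norm_num, ?_, ?_, fun h => absurd h n1, fun h => absurd h n2,
        fun h => absurd h n3, by decide⟩ <;> simp only [MF.xi] <;> push_cast <;> linarith only [h5, h6]
    rcases le_or_gt x (625 / 1000) with h7 | h7
    · refine ⟨8, by norm_num, ?_, ?_, fun h => absurd h n1, fun h => absurd h n2,
        fun h => absurd h n3, by decide⟩ <;> simp only [MF.xi] <;> push_cast <;> linarith only [h6, h7]
    · refine ⟨9, by norm_num, ?_, ?_, fun h => absurd h n1, fun h => absurd h n2,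
        fun h => absurd h n3, by decide⟩ <;> simp only [MF.xi] <;> push_cast <;> linarith only [h7, hx']
  obtain ⟨n, hn, x0, x1, f⟩ := key
  exact K13_mk f (fun hc => cf_one hn hb hP hy hpos hF hC A A' hi hj hc x0 x1)
    (fun hc => cf_two hn hb hL hX hy hpos hF hC h12 A A' hi hj hc x0 x1)
    (fun hc => cf_twoE hn hb hL hX hy hpos hF A A' hi hj hc x0 x1)

/-- **The round `R1.1`.**  `hlow`, `hE`: value moves for `x` close to the end `65/100`. -/
theorem cap13 (hb : ClassW b) (hL : Loc b zs) (hX : LocX b zs) (hP : LocP b zs) (hy : Mx b zs y)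
    (hpos : ∀ h : Fin M, 0 < y (.inl (.inl h))) (hF : Flr b y F1) (hC : Cap b y C1)
    (hS : Sum1 b y (95 / 100))
    (h12 : ∀ {h h' : Fin M} {i j j' : Fin (M + 1)} {p : Fin 3}, Adj h i p j → Adj h' i p.rev j' →
      clsW b i = .one → clsW b j = .two → clsW b j' ≠ .ring → y (.inl (.inl h)) ≤ 535 / 1000)
    (h2e : ∀ {h : Fin M} {i j : Fin (M + 1)} {p : Fin 3}, Adj h i p j → clsW b i = .one →
      clsW b j = .twoE → y (.inl (.inl h)) ≤ 35 / 100)
    (A : Adj h i 2 j) (A3 : Adj h3 j 2 k) (hi : clsW b i = .one) (hj : clsW b j = .three)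
    (hw1 : y (.inl (.inl h3)) ≤ 39 / 100)
    (hw2 : clsW b k ≠ .one → y (.inl (.inl h3)) ≤ 31 / 100)
    (hlow : 60 / 100 ≤ y (.inl (.inl h)) → 46 / 100 ≤ (OY b zs y j 1).re)
    (hE : ∀ {h' : Fin M} {j' : Fin (M + 1)}, Adj h' i 0 j' → clsW b j' = .twoE →
      y (.inl (.inl h)) ≤ 635 / 1000) :
    y (.inl (.inl h)) ≤ 47 / 100 ∧ (clsW b k ≠ .one → y (.inl (.inl h)) ≤ 46 / 100) := by
  obtain ⟨h', j', A'⟩ := A.other_one hb hi
  have A' : Adj h' i 0 j' := A'
  have hA3F := hF A3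
  have hw0 : 11 / 100 ≤ y (.inl (.inl h3)) := by
    rw [hj] at hA3F
    refine le_trans ?_ hA3F
    cases clsW b k <;> norm_num [F1]
  have main : 45 / 100 ≤ y (.inl (.inl h)) →
      (46 / 100 ≤ y (.inl (.inl h)) ∧ clsW b k ≠ .one ∨ clsW b k = .one ∧
        (131 / 1000 ≤ y (.inl (.inl h3)) ∨ 47 / 100 ≤ y (.inl (.inl h)))) → False := by
    intro hx0 hxK
    have G := geo13 hb hL hy A hi hj (by linarith only [hx0])
    have hne : tyW b j ≠ .ring := by rw [tyW_of_three hj]; decide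
    have hmre : (OY b zs y j 1).re = y (.inl (.inr (mI b hj))) := by
      rw [OY_one hne]
      show (Yw b zs y (mI b hj).1 1).re = _
      rw [Yw_mid (zs := zs) (y := y) (mI b hj), ofr_pp_re]
    have hm0 : y (.inl (.inl h)) + 4 / 100 ≤ y (.inl (.inr (mI b hj))) := by
      rw [← hmre]
      rcases le_total (y (.inl (.inl h))) (60 / 100) with h5 | h5
      · exact (s0_one_mid hb hL hX hy hF hS A.symm A3 hj hi hw1 (by linarith only [hx0]) h5).le
      · rcases s0_one_mid' hb hX hy hF hS A.symm A3 hj hi h5 with h6 | h6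
        · exact absurd (hlow h5) (not_le.2 h6)
        · exact h6.le
    exact coreX hb hL hX hy hpos A A' A3 hi hj hx0 hxK (hS A A' hi) (fun hc => h2e A' hi hc)
      (fun hc => hE A' hc) hw0 hw1 hw2 hm0
      (k13_all hb hL hX hP hy hpos hF hC h12 A A' hi hj hx0 G.xM)
  constructor
  · by_contra hcon
    have hcon := not_le.1 hcon
    by_cases hk1 : clsW b k = .one
    · exact main (by linarith) (Or.inr ⟨hk1, Or.inr hcon.le⟩)
    · exact main (by linarith) (Or.inl ⟨by linarith, hk1⟩)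
  · intro hk1
    by_contra hcon
    have hcon := not_le.1 hcon
    exact main (by linarith) (Or.inl ⟨hcon.le, hk1⟩)

end HX

end Pool.Agent.Work.MP_b30479_gt.G2
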