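import Pool.Agent.Work.MP_b30479_gt.G2.V2BL
import Pool.Agent.Work.MP_b30479_gt.G2.H13W
import Pool.Agent.Work.MP_b30479_gt.G2.MFD

/-!
# The round `R1.1` with the location fact `Mid13`
-/

namespace Pool.Agent.Work.MP_b30479_gt.G2

open Finset VOL Filter Topology

namespace HX

open SR

variable {M : ℕ} {b : Fin (M + 1) → ℤ} {zs : DD (tyW b) ⊕ ZZ (tyW b) → ℂ}
variable {y : DD (tyW b) ⊕ ZZ (tyW b) → ℝ}
variable {h h' h3 : Fin M} {i j j' k : Fin (M + 1)} {p : Fin 3}

/-- floor of the hinge `1 | 2`, the `2` at an end, if the other hinge `1 | 3` is at least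
`60/100` -/
theorem floorE (hb : ClassW b) (hL : Loc b zs) (hX : LocX b zs)
    (hy : Mx b zs y) (hpos : ∀ h : Fin M, 0 < y (.inl (.inl h))) (hF : Flr b y F1)
    (A : Adj h i 2 j) (hi : clsW b i = .one) (hj : clsW b j = .three)
    (hx : 60 / 100 ≤ y (.inl (.inl h))) (A' : Adj h' i 0 j') (hj' : clsW b j' = .twoE) :
    1594 / 10000 ≤ y (.inl (.inl h')) := by
  have G := geo13 hb hL hy A hi hj (by linarith only [hx])
  have hxM := G.xM
  rcases le_or_gt (y (.inl (.inl h))) (625 / 1000) with h6 | h6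
  · have q := cf_twoE (k := 8) (by norm_num) hb hL hX hy hpos hF A A' hi hj hj'
      (by simp only [MF.xi]; push_cast; linarith only [hx]) (by simp only [MF.xi]; push_cast; linarith only [h6])
    simp only [MF.flE] at q
    push_cast at q
    linarith only [q]
  · have q := cf_twoE (k := 9) (by norm_num) hb hL hX hy hpos hF A A' hi hj hj'
      (by simp only [MF.xi]; push_cast; linarith only [h6]) (by simp only [MF.xi]; push_cast; linarith only [hxM])
    simp only [MF.flE] at q
    push_cast at q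
    linarith only [q]

/-- the inner variable is not low, `x ≥ 60/100` -/
theorem hlow13 (hb : ClassW b) (hL : Loc b zs) (hX : LocX b zs) (hN : Mid13 b zs)
    (hy : Mx b zs y) (hpos : ∀ h : Fin M, 0 < y (.inl (.inl h))) (hF : Flr b y F1)
    (hS : Sum1 b y (95 / 100))
    (A : Adj h i 2 j) (A3 : Adj h3 j 2 k) (hi : clsW b i = .one) (hj : clsW b j = .three)
    (hw1 : y (.inl (.inl h3)) ≤ 39 / 100) (hx : 60 / 100 ≤ y (.inl (.inl h))) :
    y (.inl (.inl h)) + 4 / 100 < (OY b zs y j 1).re := by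
  refine s0_one_low hb hL hX hN hy hF hS A.symm A3 hj hi hw1 ?_ hx
  intro h2 r A2 hr
  have := floorE hb hL hX hy hpos hF A hi hj hx A2 hr
  linarith only [this]

end HX

end Pool.Agent.Work.MP_b30479_gt.G2
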