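import Pool.Agent.Work.MP_b30479_gt.G2.H13B

/-!
# The round `R2` of the hinge `1 | 3` (slot `0`): certificates, other neighbour of the `1`: `2`
-/

namespace Pool.Agent.Work.MP_b30479_gt.G2

namespace HX

theorem q2A :
    f1C 3542 2836 4450 (-17813) 4200 4700 460 940 1600 4950 100 770 780 1480 = true := by
  decide +kernel

theorem q2L :
    f1C 4513 2374 4100 (-23839) 4000 4200 460 940 1600 4950 100 770 780 1480 = true := by
  decide +kernel

theorem q2K1Ah :
    f3C 3542 2836 4450 (-17813) 1500 (-150) 4200 4700 460 940 400 3100 (-585) (-180) (-450) 700 7300 0 = true := by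
  decide +kernel

theorem q2K1Sh :
    f3C 3542 2836 4450 (-17813) 1100 (-150) 4200 4700 460 940 2600 3300 (-585) (-180) (-450) 700 7500 7300 = true := by
  decide +kernel

theorem q2K1Al :
    f3C 3542 2836 4450 (-17813) 1500 (-1145) 4200 4700 460 940 400 3100 (-585) (-180) (-450) 700 7300 0 = true := by
  decide +kernel

theorem q2K1Sl :
    f3C 3542 2836 4450 (-17813) 1100 (-1145) 4200 4700 460 940 2600 3300 (-585) (-180) (-450) 700 7500 7300 = true := by
  decide +kernel

theorem q2KOAh :
    f3C 3542 2836 4450 (-17813) 1300 220 4200 4700 460 940 400 3300 (-490) 50 210 630 7500 0 = true := by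
  decide +kernel

theorem q2KOAl :
    f3C 3542 2836 4450 (-17813) 1300 (-570) 4200 4700 460 940 400 3300 (-490) 50 210 630 7500 0 = true := by
  decide +kernel

theorem q2KZAh :
    f3C 3542 2836 4450 (-17813) 1300 570 4200 4700 460 940 400 3300 (-330) 0 270 630 7500 0 = true := by
  decide +kernel

theorem q2KZAl :
    f3C 3542 2836 4450 (-17813) 1300 (-40) 4200 4700 460 940 400 3300 (-330) 0 270 630 7500 0 = true := by
  decide +kernel

theorem q2KEAh :
    f3C 3542 2836 4450 (-17813) 1300 (-640) 4200 4700 460 940 400 3300 (-355) (-50) 310 635 7500 0 = true := by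
  decide +kernel

theorem q2KELh :
    f3C 4513 2374 4100 (-23839) 1300 (-640) 4000 4200 460 940 400 3500 (-355) (-50) 310 635 7500 0 = true := by
  decide +kernel

theorem q2KEAl :
    f3C 3542 2836 4450 (-17813) 1300 (-980) 4200 4700 460 940 400 3300 (-355) (-50) 310 635 7500 0 = true := by
  decide +kernel

theorem q2KELl :
    f3C 4513 2374 4100 (-23839) 1300 (-980) 4000 4200 460 940 400 3500 (-355) (-50) 310 635 7500 0 = true := by
  decide +kernel

end HX

end Pool.Agent.Work.MP_b30479_gt.G2
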