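import Pool.Agent.Work.MP_b30479_gt.G2.H13B

/-!
# The round `R2` of the hinge `1 | 3` (slot `0`): certificates, other neighbour of the `1`: `E`
-/

namespace Pool.Agent.Work.MP_b30479_gt.G2

namespace HX

theorem qEA :
    f1C 789 2616 4450 (-12546) 4200 4700 870 1145 1400 3500 (-450) (-250) 510 770 = true := by
  decide +kernel

theorem qEL :
    f1C 1829 2212 4100 (-16591) 4000 4200 870 1145 1400 3500 (-450) (-250) 510 770 = true := by
  decide +kernel

theorem qEK1Ah :
    f3C 789 2616 4450 (-12546) 1500 (-150) 4200 4700 870 1145 400 3100 (-900) (-180) (-450) 700 7300 0 = true := by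
  decide +kernel

theorem qEK1Sh :
    f3C 789 2616 4450 (-12546) 1100 (-150) 4200 4700 870 1145 2600 3300 (-900) (-180) (-450) 700 7500 7300 = true := by
  decide +kernel

theorem qEK1Al :
    f3C 789 2616 4450 (-12546) 1500 (-1145) 4200 4700 870 1145 400 3100 (-900) (-180) (-450) 700 7300 0 = true := by
  decide +kernel

theorem qEK1Sl :
    f3C 789 2616 4450 (-12546) 1100 (-1145) 4200 4700 870 1145 2600 3300 (-900) (-180) (-450) 700 7500 7300 = true := by
  decide +kernel

theorem qEKOAh :
    f3C 789 2616 4450 (-12546) 1300 220 4200 4700 870 1145 400 3300 (-820) 50 (-400) 840 7500 0 = true := by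
  decide +kernel

theorem qEKOAl :
    f3C 789 2616 4450 (-12546) 1300 (-570) 4200 4700 870 1145 400 3300 (-820) 50 (-400) 840 7500 0 = true := by
  decide +kernel

theorem qEKZAh :
    f3C 789 2616 4450 (-12546) 1300 570 4200 4700 870 1145 400 3300 (-720) 0 (-340) 800 7500 0 = true := by
  decide +kernel

theorem qEKZAl :
    f3C 789 2616 4450 (-12546) 1300 (-40) 4200 4700 870 1145 400 3300 (-720) 0 (-340) 800 7500 0 = true := by
  decide +kernel

theorem qEKEAh :
    f3C 789 2616 4450 (-12546) 1300 (-640) 4200 4700 870 1145 400 3300 (-620) (-50) (-200) 750 7500 0 = true := by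
  decide +kernel

theorem qEKELh :
    f3C 1829 2212 4100 (-16591) 1300 (-640) 4000 4200 870 1145 400 3500 (-620) (-50) (-200) 750 7500 0 = true := by
  decide +kernel

theorem qEKEAl :
    f3C 789 2616 4450 (-12546) 1300 (-980) 4200 4700 870 1145 400 3300 (-620) (-50) (-200) 750 7500 0 = true := by
  decide +kernel

theorem qEKELl :
    f3C 1829 2212 4100 (-16591) 1300 (-980) 4000 4200 870 1145 400 3500 (-620) (-50) (-200) 750 7500 0 = true := by
  decide +kernel

end HX

end Pool.Agent.Work.MP_b30479_gt.G2
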