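import Pool.Agent.Work.MP_b30479_gt.G2.H141
import Pool.Agent.Work.MP_b30479_gt.G2.H142
import Pool.Agent.Work.MP_b30479_gt.G2.H14E
import Pool.Agent.Work.MP_b30479_gt.G2.H13
import Pool.Agent.Work.MP_b30479_gt.G2.WLocX

/-!
# The round `R2` of the hinge `1 | 3` (slot `0`): the two sides

The hinge is in `[42/100, 47/100]` (`[40/100, 42/100]` if the other neighbour of the `3` is a `2`
at an end); floors of the round `L2` only.
-/

namespace Pool.Agent.Work.MP_b30479_gt.G2

open VOL NumI

namespace HX

/-- windows of the inner variable, by the classes of the other neighbours -/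
structure MD where
  /-- lower bound of the height, in units `1/10000` -/
  t0 : ℤ
  /-- upper bound -/
  t1 : ℤ
  /-- lower bound of the difference of the heights -/
  s0 : ℤ
  /-- upper bound -/
  s1 : ℤ

/-- windows of the inner variable: `P`: other neighbour of the `1`, `K`: other neighbour of the
`3` -/
def km : SR.Cl → SR.Cl → MD
  | .one, .one => ⟨-745, -180, -450, 700⟩
  | .one, .ring => ⟨-485, 0, -65, 475⟩
  | .one, .twoE => ⟨-515, -50, -20, 475⟩
  | .one, _ => ⟨-655, 50, -130, 475⟩
  | .two, .one => ⟨-585, -180, -450, 700⟩
  | .two, .ring => ⟨-330, 0, 270, 630⟩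
  | .two, .twoE => ⟨-355, -50, 310, 635⟩
  | .two, _ => ⟨-490, 50, 210, 630⟩
  | _, .one => ⟨-900, -180, -450, 700⟩
  | _, .ring => ⟨-720, 0, -340, 800⟩
  | _, .twoE => ⟨-620, -50, -200, 750⟩
  | _, _ => ⟨-820, 50, -400, 840⟩

/-- bounding functions -/
noncomputable def fP : SR.Cl → ℝ → ℝ → ℝ
  | .one => af 2437 2798 4450 (-14905)
  | .two => af 3542 2836 4450 (-17813)
  | _ => af 789 2616 4450 (-12546)

/-- bounding functions, `[40/100, 42/100]` -/
noncomputable def gP : SR.Cl → ℝ → ℝ → ℝ
  | .one => af 3312 2285 4100 (-19633)
  | .two => af 4513 2374 4100 (-23839)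
  | _ => af 1829 2212 4100 (-16591)

/-- the digit `3`: `u`: hinge in the slot `0`, `v`: inner variable, `w`: hinge in the slot `2` -/
structure In4 (P K : SR.Cl) (u v w : ℂ) (T : ℝ) : Prop where
  c : P = .one ∨ P = .two ∨ P = .twoE
  T0 : (SR.cw P .three).t0 ≤ T
  T1 : T ≤ (SR.cw P .three).t1
  x0 : 40 / 100 ≤ u.re
  x1 : u.re ≤ 47 / 100
  hu : u.im = -T
  p0 : 4 / 100 ≤ v.re - u.re
  v1 : v.re ≤ 75 / 100
  m0 : ((km P K).t0 : ℝ) / 10000 ≤ v.im
  m1 : v.im ≤ ((km P K).t1 : ℝ) / 10000
  s0 : ((km P K).s0 : ℝ) / 10000 ≤ v.im + T
  s1 : v.im + T ≤ ((km P K).s1 : ℝ) / 10000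
  w0 : 13 / 100 ≤ w.re
  w01 : K = .one → 15 / 100 ≤ w.re
  w1 : w.re ≤ 39 / 100
  w2 : K ≠ .one → w.re ≤ 31 / 100
  h0 : ((kd K).wl : ℝ) / 10000 ≤ w.im
  h1 : w.im ≤ ((kd K).wh : ℝ) / 10000
  n : 0 < MM (v.re + w.re) (v.im + w.im)
  f : 0 ≤ SM 0 u v w

variable {P K : SR.Cl} {u v w : ℂ} {T x k κ : ℝ}

/-- a row -/
theorem row4 {a b xc c wf x0 x1 T0 T1 p0 p1 vM vL : ℤ}
    (hl : f3C a b xc c wf (kd K).wl x0 x1 T0 T1 p0 p1 (km P K).t0 (km P K).t1 (km P K).s0
      (km P K).s1 vM vL = true)
    (hh : f3C a b xc c wf (kd K).wh x0 x1 T0 T1 p0 p1 (km P K).t0 (km P K).t1 (km P K).s0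
      (km P K).s1 vM vL = true)
    (H : In4 P K u v w T)
    (hx : (x0 : ℝ) / 10000 ≤ u.re) (hx' : u.re ≤ (x1 : ℝ) / 10000)
    (hT : (T0 : ℝ) / 10000 ≤ T) (hT' : T ≤ (T1 : ℝ) / 10000)
    (hp : (p0 : ℝ) / 10000 ≤ v.re - u.re) (hp' : v.re - u.re ≤ (p1 : ℝ) / 10000)
    (hv : v.re ≤ (vM : ℝ) / 10000) (hv' : (vL : ℝ) / 10000 ≤ v.re)
    (hw0 : 11 / 100 ≤ (wf : ℝ) / 10000) (hw1 : (wf : ℝ) / 10000 ≤ 16 / 100)
    (hw2 : (wf : ℝ) / 10000 ≤ w.re) (hw3 : v.re + w.re ≤ 2 - (v.re + (wf : ℝ) / 10000)) :
    S3 1 0 u v < -(af a b xc c u.re T) := by
  have q0 := H.x0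
  have q1 := H.x1
  have q2 := H.p0
  have q3 := H.v1
  exact flat3_c hl hh (by linarith only [q0]) (by linarith only [q1]) (by linarith only [q2]) (by linarith only [q3]) hx hx' hT hT' hp hp'
    H.m0 H.m1 H.s0 H.s1 hv hv' H.hu (by linarith only [hw0, q0, q2]) (by linarith only [hw1, q3]) hw2 hw3 H.h0 H.h1 H.n H.f

/-- the side of the digit `3` -/
theorem three4 (H : In4 P K u v w T) (hx : 42 / 100 ≤ u.re) :
    S3 1 0 u v < -(fP P u.re T) := by
  have hP := H.c
  have hT0 := H.T0
  have hT1 := H.T1
  have v1 := H.v1
  have p0 := H.p0
  have x1 := H.x1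
  have x0 := H.x0
  have w0 := H.w0
  have w1 := H.w1
  rcases hP with rfl | rfl | rfl
  · simp only [SR.cw] at hT0 hT1
    cases K
    case one =>
      have w01 := H.w01 rfl
      rcases le_total v.re (73 / 100) with hv | hv
      · exact row4 (P := .one) (K := .one) q1K1Al q1K1Ah H (by push_cast; linarith only [hx]) (by push_cast; linarith only [x1]) (by push_cast; linarith only [hT0]) (by push_cast; linarith only [hT1]) (by push_cast; linarith only [p0]) (by push_cast; linarith only [hx, hv]) (by push_cast; linarith only [hv]) (by push_cast; linarith only [hx, p0]) (by push_cast; linarith only []) (by push_cast; linarith only []) (by push_cast; linarith only [w01]) (by push_cast; linarith only [w1, hv])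
      · exact row4 (P := .one) (K := .one) q1K1Sl q1K1Sh H (by push_cast; linarith only [hx]) (by push_cast; linarith only [x1]) (by push_cast; linarith only [hT0]) (by push_cast; linarith only [hT1]) (by push_cast; linarith only [x1, hv]) (by push_cast; linarith only [hx, v1]) (by push_cast; linarith only [v1]) (by push_cast; linarith only [hv]) (by push_cast; linarith only []) (by push_cast; linarith only []) (by push_cast; linarith only [w01]) (by push_cast; linarith only [v1, w1])
    case two =>
      have w2 := H.w2 (by decide)
      exact row4 (P := .one) (K := .two) q1KOAl q1KOAh H (by push_cast; linarith only [hx]) (by push_cast; linarith only [x1]) (by push_cast; linarith only [hT0]) (by push_cast; linarith only [hT1]) (by push_cast; linarith only [p0]) (by push_cast; linarith only [hx, v1]) (by push_cast; linarith only [v1]) (by push_cast; linarith only [hx, p0]) (by push_cast; linarith only []) (by push_cast; linarith only []) (by push_cast; linarith only [w0]) (by push_cast; linarith only [v1, w2])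
    case twoE =>
      have w2 := H.w2 (by decide)
      exact row4 (P := .one) (K := .twoE) q1KEAl q1KEAh H (by push_cast; linarith only [hx]) (by push_cast; linarith only [x1]) (by push_cast; linarith only [hT0]) (by push_cast; linarith only [hT1]) (by push_cast; linarith only [p0]) (by push_cast; linarith only [hx, v1]) (by push_cast; linarith only [v1]) (by push_cast; linarith only [hx, p0]) (by push_cast; linarith only []) (by push_cast; linarith only []) (by push_cast; linarith only [w0]) (by push_cast; linarith only [v1, w2])
    case three =>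
      have w2 := H.w2 (by decide)
      exact row4 (P := .one) (K := .three) q1KOAl q1KOAh H (by push_cast; linarith only [hx]) (by push_cast; linarith only [x1]) (by push_cast; linarith only [hT0]) (by push_cast; linarith only [hT1]) (by push_cast; linarith only [p0]) (by push_cast; linarith only [hx, v1]) (by push_cast; linarith only [v1]) (by push_cast; linarith only [hx, p0]) (by push_cast; linarith only []) (by push_cast; linarith only []) (by push_cast; linarith only [w0]) (by push_cast; linarith only [v1, w2])
    case threeE =>
      have w2 := H.w2 (by decide)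
      exact row4 (P := .one) (K := .threeE) q1KOAl q1KOAh H (by push_cast; linarith only [hx]) (by push_cast; linarith only [x1]) (by push_cast; linarith only [hT0]) (by push_cast; linarith only [hT1]) (by push_cast; linarith only [p0]) (by push_cast; linarith only [hx, v1]) (by push_cast; linarith only [v1]) (by push_cast; linarith only [hx, p0]) (by push_cast; linarith only []) (by push_cast; linarith only []) (by push_cast; linarith only [w0]) (by push_cast; linarith only [v1, w2])
    case ring =>
      have w2 := H.w2 (by decide)
      exact row4 (P := .one) (K := .ring) q1KZAl q1KZAh H (by push_cast; linarith only [hx]) (by push_cast; linarith only [x1]) (by push_cast; linarith only [hT0]) (by push_cast; linarith only [hT1]) (by push_cast; linarith only [p0]) (by push_cast; linarith only [hx, v1]) (by push_cast; linarith only [v1]) (by push_cast; linarith only [hx, p0]) (by push_cast; linarith only []) (by push_cast; linarith only []) (by push_cast; linarith only [w0]) (by push_cast; linarith only [v1, w2])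
  · simp only [SR.cw] at hT0 hT1
    cases K
    case one =>
      have w01 := H.w01 rfl
      rcases le_total v.re (73 / 100) with hv | hv
      · exact row4 (P := .two) (K := .one) q2K1Al q2K1Ah H (by push_cast; linarith only [hx]) (by push_cast; linarith only [x1]) (by push_cast; linarith only [hT0]) (by push_cast; linarith only [hT1]) (by push_cast; linarith only [p0]) (by push_cast; linarith only [hx, hv]) (by push_cast; linarith only [hv]) (by push_cast; linarith only [hx, p0]) (by push_cast; linarith only []) (by push_cast; linarith only []) (by push_cast; linarith only [w01]) (by push_cast; linarith only [w1, hv])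
      · exact row4 (P := .two) (K := .one) q2K1Sl q2K1Sh H (by push_cast; linarith only [hx]) (by push_cast; linarith only [x1]) (by push_cast; linarith only [hT0]) (by push_cast; linarith only [hT1]) (by push_cast; linarith only [x1, hv]) (by push_cast; linarith only [hx, v1]) (by push_cast; linarith only [v1]) (by push_cast; linarith only [hv]) (by push_cast; linarith only []) (by push_cast; linarith only []) (by push_cast; linarith only [w01]) (by push_cast; linarith only [v1, w1])
    case two =>
      have w2 := H.w2 (by decide)
      exact row4 (P := .two) (K := .two) q2KOAl q2KOAh H (by push_cast; linarith only [hx]) (by push_cast; linarith only [x1]) (by push_cast; linarith only [hT0]) (by push_cast; linarith only [hT1]) (by push_cast; linarith only [p0]) (by push_cast; linarith only [hx, v1]) (by push_cast; linarith only [v1]) (by push_cast; linarith only [hx, p0]) (by push_cast; linarith only []) (by push_cast; linarith only []) (by push_cast; linarith only [w0]) (by push_cast; linarith only [v1, w2])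
    case twoE =>
      have w2 := H.w2 (by decide)
      exact row4 (P := .two) (K := .twoE) q2KEAl q2KEAh H (by push_cast; linarith only [hx]) (by push_cast; linarith only [x1]) (by push_cast; linarith only [hT0]) (by push_cast; linarith only [hT1]) (by push_cast; linarith only [p0]) (by push_cast; linarith only [hx, v1]) (by push_cast; linarith only [v1]) (by push_cast; linarith only [hx, p0]) (by push_cast; linarith only []) (by push_cast; linarith only []) (by push_cast; linarith only [w0]) (by push_cast; linarith only [v1, w2])
    case three =>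
      have w2 := H.w2 (by decide)
      exact row4 (P := .two) (K := .three) q2KOAl q2KOAh H (by push_cast; linarith only [hx]) (by push_cast; linarith only [x1]) (by push_cast; linarith only [hT0]) (by push_cast; linarith only [hT1]) (by push_cast; linarith only [p0]) (by push_cast; linarith only [hx, v1]) (by push_cast; linarith only [v1]) (by push_cast; linarith only [hx, p0]) (by push_cast; linarith only []) (by push_cast; linarith only []) (by push_cast; linarith only [w0]) (by push_cast; linarith only [v1, w2])
    case threeE =>
      have w2 := H.w2 (by decide)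
      exact row4 (P := .two) (K := .threeE) q2KOAl q2KOAh H (by push_cast; linarith only [hx]) (by push_cast; linarith only [x1]) (by push_cast; linarith only [hT0]) (by push_cast; linarith only [hT1]) (by push_cast; linarith only [p0]) (by push_cast; linarith only [hx, v1]) (by push_cast; linarith only [v1]) (by push_cast; linarith only [hx, p0]) (by push_cast; linarith only []) (by push_cast; linarith only []) (by push_cast; linarith only [w0]) (by push_cast; linarith only [v1, w2])
    case ring =>
      have w2 := H.w2 (by decide)
      exact row4 (P := .two) (K := .ring) q2KZAl q2KZAh H (by push_cast; linarith only [hx]) (by push_cast; linarith only [x1]) (by push_cast; linarith only [hT0]) (by push_cast; linarith only [hT1]) (by push_cast; linarith only [p0]) (by push_cast; linarith only [hx, v1]) (by push_cast; linarith only [v1]) (by push_cast; linarith only [hx, p0]) (by push_cast; linarith only []) (by push_cast; linarith only []) (by push_cast; linarith only [w0]) (by push_cast; linarith only [v1, w2])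
  · simp only [SR.cw] at hT0 hT1
    cases K
    case one =>
      have w01 := H.w01 rfl
      rcases le_total v.re (73 / 100) with hv | hv
      · exact row4 (P := .twoE) (K := .one) qEK1Al qEK1Ah H (by push_cast; linarith only [hx]) (by push_cast; linarith only [x1]) (by push_cast; linarith only [hT0]) (by push_cast; linarith only [hT1]) (by push_cast; linarith only [p0]) (by push_cast; linarith only [hx, hv]) (by push_cast; linarith only [hv]) (by push_cast; linarith only [hx, p0]) (by push_cast; linarith only []) (by push_cast; linarith only []) (by push_cast; linarith only [w01]) (by push_cast; linarith only [w1, hv])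
      · exact row4 (P := .twoE) (K := .one) qEK1Sl qEK1Sh H (by push_cast; linarith only [hx]) (by push_cast; linarith only [x1]) (by push_cast; linarith only [hT0]) (by push_cast; linarith only [hT1]) (by push_cast; linarith only [x1, hv]) (by push_cast; linarith only [hx, v1]) (by push_cast; linarith only [v1]) (by push_cast; linarith only [hv]) (by push_cast; linarith only []) (by push_cast; linarith only []) (by push_cast; linarith only [w01]) (by push_cast; linarith only [v1, w1])
    case two =>
      have w2 := H.w2 (by decide)
      exact row4 (P := .twoE) (K := .two) qEKOAl qEKOAh H (by push_cast; linarith only [hx]) (by push_cast; linarith only [x1]) (by push_cast; linarith only [hT0]) (by push_cast; linarith only [hT1]) (by push_cast; linarith only [p0]) (by push_cast; linarith only [hx, v1]) (by push_cast; linarith only [v1]) (by push_cast; linarith only [hx, p0]) (by push_cast; linarith only []) (by push_cast; linarith only []) (by push_cast; linarith only [w0]) (by push_cast; linarith only [v1, w2])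
    case twoE =>
      have w2 := H.w2 (by decide)
      exact row4 (P := .twoE) (K := .twoE) qEKEAl qEKEAh H (by push_cast; linarith only [hx]) (by push_cast; linarith only [x1]) (by push_cast; linarith only [hT0]) (by push_cast; linarith only [hT1]) (by push_cast; linarith only [p0]) (by push_cast; linarith only [hx, v1]) (by push_cast; linarith only [v1]) (by push_cast; linarith only [hx, p0]) (by push_cast; linarith only []) (by push_cast; linarith only []) (by push_cast; linarith only [w0]) (by push_cast; linarith only [v1, w2])
    case three =>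
      have w2 := H.w2 (by decide)
      exact row4 (P := .twoE) (K := .three) qEKOAl qEKOAh H (by push_cast; linarith only [hx]) (by push_cast; linarith only [x1]) (by push_cast; linarith only [hT0]) (by push_cast; linarith only [hT1]) (by push_cast; linarith only [p0]) (by push_cast; linarith only [hx, v1]) (by push_cast; linarith only [v1]) (by push_cast; linarith only [hx, p0]) (by push_cast; linarith only []) (by push_cast; linarith only []) (by push_cast; linarith only [w0]) (by push_cast; linarith only [v1, w2])
    case threeE =>
      have w2 := H.w2 (by decide)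
      exact row4 (P := .twoE) (K := .threeE) qEKOAl qEKOAh H (by push_cast; linarith only [hx]) (by push_cast; linarith only [x1]) (by push_cast; linarith only [hT0]) (by push_cast; linarith only [hT1]) (by push_cast; linarith only [p0]) (by push_cast; linarith only [hx, v1]) (by push_cast; linarith only [v1]) (by push_cast; linarith only [hx, p0]) (by push_cast; linarith only []) (by push_cast; linarith only []) (by push_cast; linarith only [w0]) (by push_cast; linarith only [v1, w2])
    case ring =>
      have w2 := H.w2 (by decide)
      exact row4 (P := .twoE) (K := .ring) qEKZAl qEKZAh H (by push_cast; linarith only [hx]) (by push_cast; linarith only [x1]) (by push_cast; linarith only [hT0]) (by push_cast; linarith only [hT1]) (by push_cast; linarith only [p0]) (by push_cast; linarith only [hx, v1]) (by push_cast; linarith only [v1]) (by push_cast; linarith only [hx, p0]) (by push_cast; linarith only []) (by push_cast; linarith only []) (by push_cast; linarith only [w0]) (by push_cast; linarith only [v1, w2])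

/-- the side of the digit `3` -/
theorem three4e (H : In4 P K u v w T) (hK : K = .twoE) (hx : u.re ≤ 42 / 100) :
    S3 1 0 u v < -(gP P u.re T) := by
  subst hK
  have hP := H.c
  have hT0 := H.T0
  have hT1 := H.T1
  have v1 := H.v1
  have p0 := H.p0
  have x1 := H.x1
  have x0 := H.x0
  have w0 := H.w0
  have w1 := H.w1
  rcases hP with rfl | rfl | rfl
  · simp only [SR.cw] at hT0 hT1
    have w2 := H.w2 (by decide)
    exact row4 (P := .one) (K := .twoE) q1KELl q1KELh H (by push_cast; linarith only [x0]) (by push_cast; linarith only [hx]) (by push_cast; linarith only [hT0]) (by push_cast; linarith only [hT1]) (by push_cast; linarith only [p0]) (by push_cast; linarith only [v1, x0]) (by push_cast; linarith only [v1]) (by push_cast; linarith only [p0, x0]) (by push_cast; linarith only []) (by push_cast; linarith only []) (by push_cast; linarith only [w0]) (by push_cast; linarith only [v1, w2])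
  · simp only [SR.cw] at hT0 hT1
    have w2 := H.w2 (by decide)
    exact row4 (P := .two) (K := .twoE) q2KELl q2KELh H (by push_cast; linarith only [x0]) (by push_cast; linarith only [hx]) (by push_cast; linarith only [hT0]) (by push_cast; linarith only [hT1]) (by push_cast; linarith only [p0]) (by push_cast; linarith only [v1, x0]) (by push_cast; linarith only [v1]) (by push_cast; linarith only [p0, x0]) (by push_cast; linarith only []) (by push_cast; linarith only []) (by push_cast; linarith only [w0]) (by push_cast; linarith only [v1, w2])
  · simp only [SR.cw] at hT0 hT1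
    have w2 := H.w2 (by decide)
    exact row4 (P := .twoE) (K := .twoE) qEKELl qEKELh H (by push_cast; linarith only [x0]) (by push_cast; linarith only [hx]) (by push_cast; linarith only [hT0]) (by push_cast; linarith only [hT1]) (by push_cast; linarith only [p0]) (by push_cast; linarith only [v1, x0]) (by push_cast; linarith only [v1]) (by push_cast; linarith only [p0, x0]) (by push_cast; linarith only []) (by push_cast; linarith only []) (by push_cast; linarith only [w0]) (by push_cast; linarith only [v1, w2])

/-- the digit `1`: hinge `x`, height `T`; other hinge `k`, height `κ`; `P`: class of the other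
neighbour -/
structure In5 (P : SR.Cl) (x T k κ : ℝ) : Prop where
  c : P = .one ∨ P = .two ∨ P = .twoE
  x0 : 40 / 100 ≤ x
  x1 : x ≤ 47 / 100
  s : x + k ≤ 95 / 100
  T0 : (SR.cw P .three).t0 ≤ T
  T1 : T ≤ (SR.cw P .three).t1
  k0 : (SR.cw .three P).t0 ≤ κ
  k1 : κ ≤ (SR.cw .three P).t1
  s0 : (SR.cw P .three).s0 ≤ T + κ
  s1 : T + κ ≤ (SR.cw P .three).s1
  f1 : P = .one → 15 / 100 ≤ k
  f2 : P = .two → 16 / 100 ≤ k ∧ k ≤ 495 / 1000
  fE : P = .twoE → 14 / 100 ≤ k ∧ k ≤ 35 / 100

/-- the side of the digit `1` -/
theorem one5 (H : In5 P x T k κ) (hx : 42 / 100 ≤ x) : MR.s1 0 x T k κ < fP P x T := by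
  obtain ⟨hP, x0, x1, s, T0, T1, k0, k1, s0, s1, f1, f2, fE⟩ := H
  rcases hP with rfl | rfl | rfl
  · simp only [SR.cw] at T0 T1 k0 k1 s0 s1
    have f := f1 rfl
    refine flat1 q1A ?_ ?_ ?_ ?_ ?_ ?_ ?_ ?_ ?_ ?_ s <;>
      first | linarith only [hx, x1, T0, T1, f, s, k0, k1, s0, s1] | (push_cast; linarith)
  · simp only [SR.cw] at T0 T1 k0 k1 s0 s1
    obtain ⟨f, f'⟩ := f2 rfl
    refine flat1 q2A ?_ ?_ ?_ ?_ ?_ ?_ ?_ ?_ ?_ ?_ s <;>
      first | linarith only [hx, x1, T0, T1, f, f', k0, k1, s0, s1] | (push_cast; linarith)
  · simp only [SR.cw] at T0 T1 k0 k1 s0 s1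
    obtain ⟨f, f'⟩ := fE rfl
    refine flat1 qEA ?_ ?_ ?_ ?_ ?_ ?_ ?_ ?_ ?_ ?_ s <;>
      first | linarith only [hx, x1, T0, T1, f, f', k0, k1, s0, s1] | (push_cast; linarith)

/-- the side of the digit `1` -/
theorem one5e (H : In5 P x T k κ) (hx : x ≤ 42 / 100) : MR.s1 0 x T k κ < gP P x T := by
  obtain ⟨hP, x0, x1, s, T0, T1, k0, k1, s0, s1, f1, f2, fE⟩ := H
  rcases hP with rfl | rfl | rfl
  · simp only [SR.cw] at T0 T1 k0 k1 s0 s1
    have f := f1 rfl
    refine flat1 q1L ?_ ?_ ?_ ?_ ?_ ?_ ?_ ?_ ?_ ?_ s <;>
      first | linarith only [x0, hx, T0, T1, f, s, k0, k1, s0, s1] | (push_cast; linarith)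
  · simp only [SR.cw] at T0 T1 k0 k1 s0 s1
    obtain ⟨f, f'⟩ := f2 rfl
    refine flat1 q2L ?_ ?_ ?_ ?_ ?_ ?_ ?_ ?_ ?_ ?_ s <;>
      first | linarith only [x0, hx, T0, T1, f, f', k0, k1, s0, s1] | (push_cast; linarith)
  · simp only [SR.cw] at T0 T1 k0 k1 s0 s1
    obtain ⟨f, f'⟩ := fE rfl
    refine flat1 qEL ?_ ?_ ?_ ?_ ?_ ?_ ?_ ?_ ?_ ?_ s <;>
      first | linarith only [x0, hx, T0, T1, f, f', k0, k1, s0, s1] | (push_cast; linarith)

end HX

end Pool.Agent.Work.MP_b30479_gt.G2
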