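import Pool.Agent.Work.MP_b30479_gt.G2.H13B

/-!
# The round `R2` of the hinge `1 | 3` (slot `0`): certificates, other neighbour of the `1`: `1`
-/

namespace Pool.Agent.Work.MP_b30479_gt.G2

namespace HX

theorem q1A :
    f1C 2437 2798 4450 (-14905) 4200 4700 210 920 1500 5300 (-910) 490 (-220) 1110 = true := by
  decide +kernel

theorem q1L :
    f1C 3312 2285 4100 (-19633) 4000 4200 210 920 1500 5500 (-910) 490 (-220) 1110 = true := by
  decide +kernel

theorem q1K1Ah :
    f3C 2437 2798 4450 (-14905) 1500 (-150) 4200 4700 210 920 400 3100 (-745) (-180) (-450) 700 7300 0 = true := by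
  decide +kernel

theorem q1K1Sh :
    f3C 2437 2798 4450 (-14905) 1100 (-150) 4200 4700 210 920 2600 3300 (-745) (-180) (-450) 700 7500 7300 = true := by
  decide +kernel

theorem q1K1Al :
    f3C 2437 2798 4450 (-14905) 1500 (-1145) 4200 4700 210 920 400 3100 (-745) (-180) (-450) 700 7300 0 = true := by
  decide +kernel

theorem q1K1Sl :
    f3C 2437 2798 4450 (-14905) 1100 (-1145) 4200 4700 210 920 2600 3300 (-745) (-180) (-450) 700 7500 7300 = true := by
  decide +kernel

theorem q1KOAh :
    f3C 2437 2798 4450 (-14905) 1300 220 4200 4700 210 920 400 3300 (-655) 50 (-130) 475 7500 0 = true := by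
  decide +kernel

theorem q1KOAl :
    f3C 2437 2798 4450 (-14905) 1300 (-570) 4200 4700 210 920 400 3300 (-655) 50 (-130) 475 7500 0 = true := by
  decide +kernel

theorem q1KZAh :
    f3C 2437 2798 4450 (-14905) 1300 570 4200 4700 210 920 400 3300 (-485) 0 (-65) 475 7500 0 = true := by
  decide +kernel

theorem q1KZAl :
    f3C 2437 2798 4450 (-14905) 1300 (-40) 4200 4700 210 920 400 3300 (-485) 0 (-65) 475 7500 0 = true := by
  decide +kernel

theorem q1KEAh :
    f3C 2437 2798 4450 (-14905) 1300 (-640) 4200 4700 210 920 400 3300 (-515) (-50) (-20) 475 7500 0 = true := by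
  decide +kernel

theorem q1KELh :
    f3C 3312 2285 4100 (-19633) 1300 (-640) 4000 4200 210 920 400 3500 (-515) (-50) (-20) 475 7500 0 = true := by
  decide +kernel

theorem q1KEAl :
    f3C 2437 2798 4450 (-14905) 1300 (-980) 4200 4700 210 920 400 3300 (-515) (-50) (-20) 475 7500 0 = true := by
  decide +kernel

theorem q1KELl :
    f3C 3312 2285 4100 (-19633) 1300 (-980) 4000 4200 210 920 400 3500 (-515) (-50) (-20) 475 7500 0 = true := by
  decide +kernel

end HX

end Pool.Agent.Work.MP_b30479_gt.G2
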