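import Pool.Agent.Work.MP_b30479_gt.G2.V30M

/-!
# Side of the slot-0 hinge of an inner digit `3`, left ramp, in a word
-/

namespace Pool.Agent.Work.MP_b30479_gt.G2

open VOL NumU

namespace VL

namespace S0

theorem sinNe_ofr (c : ℤ) {u : ℂ} (h : SinNe u) : SinNe (ofr c u) := by
  unfold ofr
  split_ifs
  · exact h
  · unfold SinNe at h ⊢
    intro h1
    apply h
    have h2 : (starRingEnd ℂ) (Complex.sin ((Real.pi : ℂ) * u)) = 0 := by
      rw [← Complex.sin_conj, map_mul, Complex.conj_ofReal]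
      exact h1
    simpa using h2

theorem ofr_add (c : ℤ) (u v : ℂ) : ofr c (u + v) = ofr c u + ofr c v := by
  unfold ofr
  split_ifs
  · rfl
  · exact map_add _ _ _

theorem ofr_sub (c : ℤ) (u v : ℂ) : ofr c (u - v) = ofr c u - ofr c v := by
  unfold ofr
  split_ifs
  · rfl
  · exact map_sub _ _ _

end S0

end VL

namespace SR

variable {M : ℕ} {b : Fin (M + 1) → ℤ} {zs : DD (tyW b) ⊕ ZZ (tyW b) → ℂ}
variable {y : DD (tyW b) ⊕ ZZ (tyW b) → ℝ}
variable {h h' : Fin M} {i j k : Fin (M + 1)}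

/-- no factor of the inner variable of a maximiser vanishes -/
theorem sinNe_three (hc : clsW b i = .three)
    (hy : IsMx (wdat (tyW b) b) (wpar b zs) zs y) (hpos : ∀ h : Fin M, 0 < y (.inl (.inl h)))
    (hm : 0 < y (.inl (.inr (mT b hc)))) :
    SinNe (Yw b zs y i 1 + Yw b zs y i 2) ∧ SinNe (Yw b zs y i 1 - Yw b zs y i 0) := by
  have h1 := hy.facCo_mid (std_wpar b zs) hpos (mT b hc) hm
  have ht := tyW_of_three hc
  simp only [mT] at h1
  rw [ht] at h1
  have h2 := h1 ⟨![0, 1, 1], 0, 1 / 2⟩ (by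
    generalize decide (i ≠ 0) = l
    generalize decide (i ≠ Fin.last M) = r
    cases l <;> cases r <;> simp [facs, hR]) (by simp)
  have h3 := h1 ⟨![1, -1, 0], 1, -(1 / 2)⟩ (by
    generalize decide (i ≠ 0) = l
    generalize decide (i ≠ Fin.last M) = r
    cases l <;> cases r <;> simp [facs, hR]) (by simp)
  have v2 : ∀ w u : ℂ, 1 + (w + -u) = 1 - (u - w) := fun w u => by ring
  simp [Fac.form_mk] at h2 h3
  rw [v2] at h3
  have h4 := h2.2
  have h5 := sinNe_one_sub.1 h3.2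
  unfold Yw
  rw [← VL.S0.ofr_add, ← VL.S0.ofr_sub]
  exact ⟨VL.S0.sinNe_ofr _ h4, VL.S0.sinNe_ofr _ h5⟩

/-- **Side of the slot-0 hinge of an inner digit `3` on its left ramp.** -/
theorem three_side0 (hb : ClassW b) (hL : Loc b zs) (hX : LocX b zs)
    (hy : IsMx (wdat (tyW b) b) (wpar b zs) zs y) (hpos : ∀ h : Fin M, 0 < y (.inl (.inl h)))
    (A : Adj h i 0 j) (A' : Adj h' i 2 k) (hc : clsW b i = .three)
    (hx : y (.inl (.inl h)) ≤ wcl b h) (hw : y (.inl (.inl h')) ≤ VL.cpR (clsW b k)) :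
    (clsW b j ≠ .one → VL.S0.eT (clsW b j) < Sw b zs y i 0 ((zs (.inl (.inl h))).im / wcl b h) +
      Real.pi / 2 * ofs (b i) ((zs (.inl (.inl h))).im / wcl b h)) ∧
    (clsW b j = .one →
      (y (.inl (.inl h)) ≤ 7 / 100 → -(200 / 1000) <
        Sw b zs y i 0 ((zs (.inl (.inl h))).im / wcl b h) +
        (Real.pi - 9 / 2 * y (.inl (.inl h))) * ofs (b i) ((zs (.inl (.inl h))).im / wcl b h)) ∧
      -(295 / 1000) < Sw b zs y i 0 ((zs (.inl (.inl h))).im / wcl b h) +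
        (Real.pi - 9 / 2 * y (.inl (.inl h))) * ofs (b i) ((zs (.inl (.inl h))).im / wcl b h)) := by
  obtain ⟨e1, e2, e3⟩ := A.par_three0 hc
  obtain ⟨e1', e2', e3'⟩ := A'.par_three2 hc
  have q := A.rh hy
  have q' := A'.rh hy
  rw [e1, e2, e3] at q
  rw [e1', e2', e3'] at q'
  have hxL : (VL.pL (clsW b j)).cl ≤ 13 / 100 ∧ 0 < (VL.pL (clsW b j)).cl ∧
      0 < (VL.pL (clsW b j)).cr ∧
      (VL.pL (clsW b j)).cl + (VL.pL (clsW b j)).cr < (VL.pL (clsW b j)).XM ∧
      13 / 100 ≤ VL.cpL (clsW b j) := by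
    cases clsW b j <;> norm_num [VL.pL, VL.cpL]
  obtain ⟨l1, l2, l3, l4, l5⟩ := hxL
  have hx' : y (.inl (.inl h)) ≤ (VL.pL (clsW b j)).cl := by rwa [← e2]
  have hgt := mid_gt hb hL hX hy A A' hc (by linarith) hw
  have hm : 0 < y (.inl (.inr (mT b hc))) := by linarith
  obtain ⟨p1, p2, p3⟩ := pp_mT (zs := zs) hc
  have hR := mid_RH hy (mT b hc)
  rw [p1, p2, p3] at hR
  have hre : (Yw b zs y (mT b hc).1 1).re = y (.inl (.inr (mT b hc))) := by
    rw [Yw_mid (zs := zs) (y := y) (mT b hc), ofr_pp_re]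
  have hF := (mid_fc hb hy hpos (mT b hc) hm).flat
  rw [p1, p2, p3] at hF
  have hF' : (Yw b zs y i 1).re < 75 / 100 →
      SM 0 (Yw b zs y i 0) (Yw b zs y i 1) (Yw b zs y i 2) ≤ 0 := by
    intro h75
    have := hF (by rw [hre]; exact hgt.le) (by
      show (Yw b zs y i 1).re < _
      linarith)
    rwa [show OM b zs y (mT b hc).1 0 = OM b zs y i 0 from rfl, OM_three hc] at this
  have hs := (sinNe_three hc hy hpos hm).2
  have hH := htW hb hL hX A A' hc
  have hre0 : (Yw b zs y i 0).re = y (.inl (.inl h)) := A.re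
  have hre1 : (Yw b zs y i 1).re = y (.inl (.inr (mT b hc))) := hre
  have hm0 : ofs (b i) ((zs (.inl (.inl h))).im / wcl b h) =
      ofs (b i) (zs (.inl (.inl h))).im / (VL.pL (clsW b j)).cl := by
    rw [ofs_div, e2]
  have hu : (Yw b zs y i 0).im = ofs (b i) (zs (.inl (.inl h))).im / (VL.pL (clsW b j)).cl *
      (Yw b zs y i 0).re := by
    rw [q.im, tr_a l2 l3 l4 q.re0 (by rw [hre0]; exact hx')]
    ring
  have hT : (VL.pL (clsW b j)).cl * (ofs (b i) (zs (.inl (.inl h))).im /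
      (VL.pL (clsW b j)).cl) = ofs (b i) (zs (.inl (.inl h))).im := by
    field_simp
  rw [A.side_three_zero hb hc, hm0]
  constructor
  · intro hj
    exact VL.S0.side_n hH hj (by rw [hre0]; exact hpos h) (by rw [hre0]; exact hx') hu hT q'
      (by rw [A'.re]; exact hw) hR (lt_of_lt_of_eq hgt hre1.symm) hs hF'
  · intro hj
    rw [hj] at hH hu hT hx' ⊢
    have := VL.S0.side_a hH (by rw [hre0]; exact hpos h) (by rw [hre0]; exact hx') hu hT q'
      (by rw [A'.re]; exact hw) hR (lt_of_lt_of_eq hgt hre1.symm) hs hF'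
    rw [hre0] at this
    exact this

end SR

end Pool.Agent.Work.MP_b30479_gt.G2
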