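import Pool.Agent.Work.MP_b30479_gt.G2.WLocM

/-!
# The inner variable of a digit `3` next to a digit `1` at the first slot

`mw3 e C`: windows of the inner variable of a digit `3` with a digit `1` at the first slot and a
neighbour of class `C` at the last slot; behind the digit `1`: a digit `1` (`e = false`), a digit
`2` which is not at an end (`e = true`).
-/

namespace Pool.Agent.Work.MP_b30479_gt.G2

namespace SR

/-- the windows -/
noncomputable def mw3 : Bool → Cl → MWin
  | false, .one => ⟨-(745 / 10000), -(285 / 10000), -(170 / 10000), 336 / 10000,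
      -(802 / 10000), -(328 / 10000)⟩
  | false, .two => ⟨-(655 / 10000), -(154 / 10000), -(130 / 10000), 403 / 10000,
      -(756 / 10000), -(274 / 10000)⟩
  | false, .twoE => ⟨-(515 / 10000), -(67 / 10000), -(16 / 10000), 471 / 10000, -(718 / 10000),
      -(258 / 10000)⟩
  | false, .three => ⟨-(535 / 10000), -(154 / 10000), -(65 / 10000), 394 / 10000,
      -(699 / 10000), -(260 / 10000)⟩
  | false, .threeE => ⟨-(415 / 10000), -(75 / 10000), 21 / 10000, 445 / 10000, -(662 / 10000),
      -(241 / 10000)⟩
  | false, .ring => ⟨-(485 / 10000), -(120 / 10000), -(65 / 10000), 406 / 10000,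
      -(671 / 10000), -(241 / 10000)⟩
  | true, .one => ⟨-(582 / 10000), -(215 / 10000), 172 / 10000, 499 / 10000, -(915 / 10000),
      -(594 / 10000)⟩
  | true, .two => ⟨-(490 / 10000), -(83 / 10000), 211 / 10000, 565 / 10000, -(868 / 10000),
      -(536 / 10000)⟩
  | true, .twoE => ⟨-(355 / 10000), 6 / 10000, 312 / 10000, 631 / 10000, -(821 / 10000),
      -(514 / 10000)⟩
  | true, .three => ⟨-(375 / 10000), -(83 / 10000), 272 / 10000, 558 / 10000, -(809 / 10000),
      -(524 / 10000)⟩
  | true, .threeE => ⟨-(255 / 10000), -(4 / 10000), 352 / 10000, 610 / 10000, -(765 / 10000),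
      -(499 / 10000)⟩
  | true, .ring => ⟨-(330 / 10000), -(47 / 10000), 274 / 10000, 572 / 10000, -(780 / 10000),
      -(505 / 10000)⟩

variable {M : ℕ}

/-- **The inner variable of a digit `3` next to a digit `1` at the first slot.** -/
structure LocM2 (b : Fin (M + 1) → ℤ) (zs : DD (tyW b) ⊕ ZZ (tyW b) → ℂ) : Prop where
  one : ∀ {h h' h2 : Fin M} {i j k r : Fin (M + 1)} (hm : (tyW b i).isMid = true),
    Adj h i 0 j → Adj h' i 2 k → Adj h2 j 0 r → clsW b i = .three → clsW b j = .one →
    clsW b r = .one →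
    (mw3 false (clsW b k)).In (ofs (b i) (zs (.inl (.inr ⟨i, hm⟩))).im)
      (ofs (b i) (zs (.inl (.inl h))).im)
  two : ∀ {h h' h2 : Fin M} {i j k r : Fin (M + 1)} (hm : (tyW b i).isMid = true),
    Adj h i 0 j → Adj h' i 2 k → Adj h2 j 0 r → clsW b i = .three → clsW b j = .one →
    clsW b r = .two →
    (mw3 true (clsW b k)).In (ofs (b i) (zs (.inl (.inr ⟨i, hm⟩))).im)
      (ofs (b i) (zs (.inl (.inl h))).im)

end SR

end Pool.Agent.Work.MP_b30479_gt.G2
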