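import Pool.Agent.Work.MP_b30479_gt.G2.S2Le
import Pool.Agent.Work.MP_b30479_gt.G2.V30N
import Pool.Agent.Work.MP_b30479_gt.G2.WLocO
import Pool.Agent.Work.MP_b30479_gt.G2.V2B

/-!
# `1 | 3 | 2` with the `2` at an end, hinge of `1 | 3` in `(.40, .41]`

The inner variable of the `3` is not low, by its first-order condition.
-/

namespace Pool.Agent.Work.MP_b30479_gt.G2

open Real VOL NumI NumI.E

namespace H2E

/-! ### rows: variables `v`, height `t` of `v`, height `T` of the hinge -/

/-- the side of the inner variable with the last hinge at distance `c / 100` -/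
def fE (c : ℤ) (lu : E) : E :=
  sub (sub (add (mul E.pi (sub (sub (q (-98) 1000) (var 2)) (var 1)))
    (E.lnA (add (var 0) (q c 100)) (sub (var 1) (q 98 1000)))) lu) (E.lnA (var 0) (var 1))

/-- the side with the minimum over the height of the last hinge -/
def fL (lu : E) : E :=
  sub (sub (sub (E.log (sinPi (q 36 100))) (mul E.pi (add (var 2) (mul (q 2 1) (var 1))))) lu)
    (E.lnA (var 0) (var 1))

def luA : E := E.lnA (sub (q 41 100) (var 0)) (sub (var 1) (var 2))
def luB : E := E.lnA (q 5 100) (sub (var 1) (var 2))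

/-- the condition of monotonicity -/
def xE : E :=
  sub (E.exp (mul (mul (q 2 1) E.pi) (sub (var 1) (q 98 1000))))
    (cosPi (mul (q 2 1) (add (var 0) (q 13 100))))

def bE (v0 v1 t0 t1 T0 T1 : ℤ) : List V :=
  [V.of 10000 v0 v1 4, V.of 10000 t0 t1 4, V.of 10000 T0 T1 4]

theorem e0_ok : runT [[fL luA]]
    .a
    (bE 500 650 (-620) (-50) (-1145) (-210)) = true := by decide +kernel

theorem e1a_ok : runT [[fE 13 luA, xE]]
    (.y (.z (.x (.x .a .a) (.x .a .a)) (.x (.x .a .a) (.x .a .a))) (.z (.y (.x (.x .a .a) (.x .a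
    .a)) (.x (.x (.x .a .a) .a) (.x .a .a))) (.x (.x (.x .a .a) (.y .a (.z (.x .a .a) (.x .a
    .a)))) (.x (.y .a (.x (.z .a .a) .a)) (.x .a .a)))))
    (bE 650 2850 (-620) (-67) (-920) (-258)) = true := by decide +kernel

theorem e1b_ok : runT [[fE 13 luA, xE]]
    (.y (.z (.x (.x .a .a) (.x .a .a)) (.x (.x .a .a) (.x .a .a))) (.y (.z (.x (.x .a .a) (.x .a
    .a)) (.x (.x .a .a) (.x .a .a))) (.z (.x (.x .a .a) (.x .a .a)) (.x (.x (.x .a .a) (.x .a .a))
    (.x (.x .a .a) .a)))))
    (bE 650 2850 (-620) (-50) (-1145) (-460)) = true := by decide +kernel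

theorem e2_ok : runT [[fE 30 luA]]
    (.x (.y .a (.y .a (.x .a .a))) (.y (.x .a (.z .a .a)) (.z (.y .a .a) (.x .a (.y .a .a)))))
    (bE 2850 3700 (-620) (-50) (-1145) (-210)) = true := by decide +kernel

theorem e3_ok : runT [[fE 30 luB]]
    (.y (.z .a .a) (.z (.y .a (.z .a .a)) .a))
    (bE 3700 4500 (-620) (-50) (-1145) (-210)) = true := by decide +kernel

variable {v t T : ℝ} {c : ℤ}

theorem fE_val (lu : E) {l : ℝ} (hl : lu.val [v, t, T] = l) : (fE c lu).val [v, t, T] =
    π * (-(98 / 1000) - T - t) + NumI.lnA (v + (c : ℝ) / 100) (t - 98 / 1000) - l - NumI.lnA v t := by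
  simp only [fE, val, lkR_zero, lkR_succ] at hl ⊢
  rw [hl]
  push_cast
  ring

theorem fL_val (lu : E) {l : ℝ} (hl : lu.val [v, t, T] = l) : (fL lu).val [v, t, T] =
    Real.log (sin (π * (36 / 100))) - π * (T + 2 * t) - l - NumI.lnA v t := by
  simp only [fL, val, lkR_zero, lkR_succ] at hl ⊢
  rw [hl]
  push_cast
  ring

theorem luA_val : luA.val [v, t, T] = NumI.lnA (41 / 100 - v) (t - T) := by
  simp only [luA, val, lkR_zero, lkR_succ]
  push_cast
  rfl

theorem luB_val : luB.val [v, t, T] = NumI.lnA (5 / 100) (t - T) := by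
  simp only [luB, val, lkR_zero, lkR_succ]
  push_cast
  rfl

theorem xE_val : xE.val [v, t, T] =
    Real.exp (2 * π * (t - 98 / 1000)) - cos (π * (2 * (v + 13 / 100))) := by
  simp only [xE, val, lkR_zero, lkR_succ]
  push_cast
  norm_num

theorem use {cs : List (List E)} {Tr' : Tr} {v0 v1 t0 t1 T0 T1 : ℤ}
    (h : runT cs Tr' (bE v0 v1 t0 t1 T0 T1) = true)
    (hv : (v0 : ℝ) / 10000 ≤ v ∧ v ≤ (v1 : ℝ) / 10000)
    (ht : (t0 : ℝ) / 10000 ≤ t ∧ t ≤ (t1 : ℝ) / 10000)
    (hT : (T0 : ℝ) / 10000 ≤ T ∧ T ≤ (T1 : ℝ) / 10000) :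
    ∃ c ∈ cs, ∀ e ∈ c, 0 < e.val [v, t, T] :=
  runT3 (N := 10000) h (by norm_num) (by exact_mod_cast hv.1) (by exact_mod_cast hv.2)
    (by exact_mod_cast ht.1) (by exact_mod_cast ht.2) (by exact_mod_cast hT.1)
    (by exact_mod_cast hT.2)

/-! ### monotonicity -/

theorem lnA_sq_mono {x x' t : ℝ} (h : sin (π * x) ^ 2 ≤ sin (π * x') ^ 2)
    (h0 : 0 < sin (π * x) ^ 2 + sinh (π * t) ^ 2) : NumI.lnA x t ≤ NumI.lnA x' t := by
  unfold NumI.lnA
  apply div_le_div_of_nonneg_right _ (by norm_num)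
  apply Real.log_le_log (by positivity)
  linarith only [h]

theorem sq_mid {x x' : ℝ} (h0 : 0 ≤ x) (h1 : x ≤ x') (h2 : x' ≤ 1 - x) :
    sin (π * x) ^ 2 ≤ sin (π * x') ^ 2 := by
  have hpi := pi_pos
  have h3 : x ≤ 1 / 2 := by linarith only [h1, h2]
  have hs : 0 ≤ sin (π * x) := sin_nonneg_of_nonneg_of_le_pi (by positivity) (by nlinarith only [hpi, h1, h2])
  have := ML.sin_le_of_mid (z0 := π * x) (z := π * x') (by positivity)
    (mul_le_mul_of_nonneg_left h1 hpi.le) (by nlinarith only [h2, hpi]) (by nlinarith only [h1, hpi, h2])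
  exact pow_le_pow_left₀ hs this 2

theorem lnA_mid {x x' t : ℝ} (h0 : 0 < x) (h1 : x ≤ x') (h2 : x' ≤ 1 - x) (_ : x ≤ 1 / 2) :
    NumI.lnA x t ≤ NumI.lnA x' t := by
  apply lnA_sq_mono (sq_mid h0.le h1 h2)
  have : 0 < sin (π * x) := sin_pos_of_pos_of_lt_pi (by positivity) (by nlinarith only [h1, h2, pi_pos])
  positivity

theorem lnA_one_sub' (x t : ℝ) : NumI.lnA (1 - x) t = NumI.lnA x t := by
  unfold NumI.lnA
  rw [show π * (1 - x) = π - π * x by ring, sin_pi_sub]

theorem lnA_neg' (x t : ℝ) : NumI.lnA (-x) t = NumI.lnA x t := by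
  unfold NumI.lnA
  rw [mul_neg, sin_neg, neg_sq]

theorem LL_lnA2 (u : ℂ) : LL u = NumI.lnA u.re u.im := by
  rw [LL_eq', NumI.lnA]
  have := Num.den_eq u
  unfold MM at this
  congr 2
  linarith only [this]

theorem sinNe_pos {u : ℂ} (h : SinNe u) : 0 < sin (π * u.re) ^ 2 + sinh (π * u.im) ^ 2 := by
  have h1 := cosh_sub_cos_pos h
  have := Num.den_eq u
  unfold MM at this
  linarith only [h1, this]

/-- `LL (v - u)` for `|Re (v - u)| ≤ a` -/
theorem LL_sub_le {u v : ℂ} {a : ℝ} (hs : SinNe (v - u)) (h : |v.re - u.re| ≤ a) (ha : a ≤ 1 / 2) :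
    LL (v - u) ≤ NumI.lnA a (v.im - u.im) := by
  rw [LL_lnA2, Complex.sub_re, Complex.sub_im]
  have h0 := sinNe_pos hs
  rw [Complex.sub_re, Complex.sub_im] at h0
  refine lnA_sq_mono ?_ h0
  have e : sin (π * (v.re - u.re)) ^ 2 = sin (π * |v.re - u.re|) ^ 2 := by
    rcases abs_choice (v.re - u.re) with h | h <;> rw [h]
    rw [mul_neg, sin_neg, neg_sq]
  rw [e]
  have := abs_nonneg (v.re - u.re)
  exact sq_mid this h (by linarith only [h, ha])

/-- **The inner variable of `3` is not low.** -/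
theorem sm_pos {u v w : ℂ} (hu0 : 40 / 100 ≤ u.re) (hu1 : u.re ≤ 41 / 100)
    (hv0 : 5 / 100 ≤ v.re) (hv1 : v.re ≤ u.re + 4 / 100) (hw0 : 13 / 100 ≤ w.re)
    (hw1 : w.re ≤ 30 / 100) (hwi : -(98 / 1000) ≤ w.im) (ht : -(62 / 1000) ≤ v.im)
    (hT : (v.im ≤ -(67 / 10000) ∧ -(92 / 1000) ≤ u.im ∧ u.im ≤ -(258 / 10000)) ∨
      (v.im ≤ -(5 / 1000) ∧ -(1145 / 10000) ≤ u.im ∧ u.im ≤ -(46 / 1000)))
    (hs : SinNe (v - u)) : 0 < SM 0 u v w := by
  have hpi := pi_pos
  have hv2 : v.im ≤ -(5 / 1000) := by rcases hT with h | h <;> linarith only [h, h.1]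
  have hu2 : -(1145 / 10000) ≤ u.im ∧ u.im ≤ -(21 / 1000) := by
    rcases hT with h | h <;> constructor <;> linarith only [h, h.2.1, h.2.2]
  have e1 : LL (v + w) = NumI.lnA (v.re + w.re) (v.im + w.im) := by
    rw [LL_lnA2, Complex.add_re, Complex.add_im]
  have e2 : LL v = NumI.lnA v.re v.im := LL_lnA2 v
  have key : SM 0 u v w = HH (v.re + w.re) (v.im + w.im) 0 - π * u.im - 2 * (π * v.im) -
      LL (v - u) - NumI.lnA v.re v.im := by
    unfold SM HH
    rw [e1, e2]
    ring
  have hm : ∀ {a : ℝ}, 0 < a → a < 1 → cos (2 * π * a) ≤ Real.exp (2 * π * (v.im - 98 / 1000)) →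
      HH a (v.im - 98 / 1000) 0 ≤ HH a (v.im + w.im) 0 := fun h0 h1 h2 =>
    HH_mono 0 h0 h1 (by linarith only [hwi]) (by linarith only [h2])
  have hH : ∀ a b : ℝ, HH a b 0 = NumI.lnA a b + π * b := fun a b => by
    unfold HH
    ring
  rcases le_total v.re (65 / 1000) with z0 | z0
  · -- the minimum over the height of the last hinge
    obtain ⟨c, hc, hp⟩ := use e0_ok (v := v.re) (t := v.im) (T := u.im)
      ⟨by push_cast; linarith only [hv0], by push_cast; linarith only [z0]⟩ ⟨by push_cast; linarith only [ht], by push_cast; linarith only [hv2]⟩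
      ⟨by push_cast; linarith only [hu2, hu2.1], by push_cast; linarith only [hu2, hu2.2]⟩
    rw [List.mem_singleton] at hc
    subst hc
    have h1 := hp _ List.mem_cons_self
    rw [fL_val _ luA_val] at h1
    have h2 := LL_sub_le (a := 41 / 100 - v.re) hs (by
      rw [abs_le]
      constructor <;> linarith only [hu1, hu0, z0]) (by linarith only [hv0])
    have h3 : NumI.lnA (18 / 100) (v.im + w.im) ≤ NumI.lnA (v.re + w.re) (v.im + w.im) :=
      lnA_mid (by norm_num) (by linarith only [hv0, hw0]) (by linarith only [hu1, hv1, hw1]) (by norm_num)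
    have h4 := HH_low (a := 18 / 100) (v.im + w.im) 0 (by norm_num) (by norm_num)
    have g : g0 0 = 0 := by simp [g0]
    rw [g, show 2 * π * (18 / 100 : ℝ) = π * (36 / 100) by ring] at h4
    rw [hH] at h4
    rw [key, hH]
    linarith only [h1, h2, h3, h4]
  rcases le_total v.re (285 / 1000) with z1 | z1
  · obtain ⟨c, hc, hp⟩ : ∃ c ∈ [[fE 13 luA, xE]], ∀ e ∈ c, 0 < e.val [v.re, v.im, u.im] := by
      rcases hT with h | h
      · exact use e1a_ok ⟨by push_cast; linarith only [z0], by push_cast; linarith only [z1]⟩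
          ⟨by push_cast; linarith only [ht], by push_cast; linarith only [h, h.1]⟩
          ⟨by push_cast; linarith only [h, h.2.1], by push_cast; linarith only [h, h.2.2]⟩
      · exact use e1b_ok ⟨by push_cast; linarith only [z0], by push_cast; linarith only [z1]⟩
          ⟨by push_cast; linarith only [ht], by push_cast; linarith only [hv2, h.1]⟩
          ⟨by push_cast; linarith only [hu2, h.2.1], by push_cast; linarith only [h, h.2.2]⟩
    rw [List.mem_singleton] at hc
    subst hc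
    have h1 := hp _ List.mem_cons_self
    have h0 := hp _ (List.mem_cons_of_mem _ List.mem_cons_self)
    rw [fE_val _ luA_val] at h1
    rw [xE_val] at h0
    push_cast at h1
    have h2 := LL_sub_le (a := 41 / 100 - v.re) hs (by
      rw [abs_le]
      constructor <;> linarith only [hu1, hu0, z1]) (by linarith only [z0])
    have h5 : cos (2 * π * (v.re + w.re)) ≤ cos (π * (2 * (v.re + 13 / 100))) := by
      rcases le_total (v.re + w.re) (1 / 2) with q | q
      · apply cos_le_cos_of_nonneg_of_le_pi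
        · apply mul_nonneg hpi.le
          linarith only [z0]
        · nlinarith only [hpi, q]
        · nlinarith only [hw0, hpi]
      · rw [← cos_two_pi_sub]
        apply cos_le_cos_of_nonneg_of_le_pi
        · apply mul_nonneg hpi.le
          linarith only [hw1, q]
        · nlinarith only [hpi, q]
        · nlinarith only [hw1, hpi, z1]
    have h3 := hm (a := v.re + w.re) (by linarith only [hw0, z0]) (by linarith only [hu1, hv1, hw1]) (by linarith only [h0, h5])
    have h4 : NumI.lnA (v.re + 13 / 100) (v.im - 98 / 1000) ≤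
        NumI.lnA (v.re + w.re) (v.im - 98 / 1000) :=
      lnA_mid (by linarith only [z0]) (by linarith only [hw0]) (by linarith only [hw1, z1]) (by linarith only [z1])
    rw [hH] at h3
    rw [key]
    linarith only [h1, h2, h3, h4]
  have hcos : ∀ {a : ℝ}, 1 / 4 ≤ a → a ≤ 3 / 4 →
      cos (2 * π * a) ≤ Real.exp (2 * π * (v.im - 98 / 1000)) := by
    intro a h0 h1
    refine le_trans (cos_nonpos_of_pi_div_two_le_of_le ?_ ?_) (exp_pos _).le
    · nlinarith only [hpi, h0]
    · nlinarith only [hpi, h1]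
  have h3 := hm (a := v.re + w.re) (by linarith only [hw0, z1]) (by linarith only [hu1, hv1, hw1]) (hcos (by linarith only [hw0, z1]) (by linarith only [hu1, hv1, hw1]))
  have h4 : NumI.lnA (v.re + 30 / 100) (v.im - 98 / 1000) ≤
      NumI.lnA (v.re + w.re) (v.im - 98 / 1000) := by
    rw [← lnA_one_sub' (v.re + 30 / 100)]
    rcases le_total (1 - (v.re + 30 / 100)) (1 / 2) with q | q
    · exact lnA_mid (by linarith only [hu1, hv1]) (by linarith only [hw0, z1]) (by linarith only [hw1]) q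
    · rw [lnA_one_sub', ← lnA_one_sub' (v.re + w.re)]
      exact lnA_mid (by linarith only [z1, q]) (by linarith only [z1, q]) (by linarith only [z1, q]) (by linarith only [z1, q])
  rw [hH] at h3
  rcases le_total v.re (370 / 1000) with z2 | z2
  · obtain ⟨c, hc, hp⟩ := use e2_ok (v := v.re) (t := v.im) (T := u.im)
      ⟨by push_cast; linarith only [z1], by push_cast; linarith only [z2]⟩ ⟨by push_cast; linarith only [ht], by push_cast; linarith only [hv2]⟩
      ⟨by push_cast; linarith only [hu2, hu2.1], by push_cast; linarith only [hu2, hu2.2]⟩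
    rw [List.mem_singleton] at hc
    subst hc
    have h1 := hp _ List.mem_cons_self
    rw [fE_val _ luA_val] at h1
    push_cast at h1
    have h2 := LL_sub_le (a := 41 / 100 - v.re) hs (by
      rw [abs_le]
      constructor <;> linarith only [hu1, hu0, z2]) (by linarith only [z1])
    rw [key]
    linarith only [h3, h4, h1, h2]
  · obtain ⟨c, hc, hp⟩ := use e3_ok (v := v.re) (t := v.im) (T := u.im)
      ⟨by push_cast; linarith only [z2], by push_cast; linarith only [hu1, hv1]⟩ ⟨by push_cast; linarith only [ht], by push_cast; linarith only [hv2]⟩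
      ⟨by push_cast; linarith only [hu2, hu2.1], by push_cast; linarith only [hu2, hu2.2]⟩
    rw [List.mem_singleton] at hc
    subst hc
    have h1 := hp _ List.mem_cons_self
    rw [fE_val _ luB_val] at h1
    push_cast at h1
    have h2 := LL_sub_le (a := 5 / 100) hs (by
      rw [abs_le]
      constructor <;> linarith only [hu1, z2, hv1]) (by norm_num)
    rw [key]
    linarith only [h3, h4, h1, h2]

end H2E

namespace SR

open H2E

variable {M : ℕ} {b : Fin (M + 1) → ℤ} {zs : DD (tyW b) ⊕ ZZ (tyW b) → ℂ}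
variable {y : DD (tyW b) ⊕ ZZ (tyW b) → ℝ} {h h' h2 : Fin M} {i j k r : Fin (M + 1)}

/-- **`1 | 3 | 2` with the `2` at an end**, hinge of `1 | 3` in `[.40, .41]`: the inner variable is
not low. -/
theorem s0_one_mid_twoE (hb : ClassW b) (hL : Loc b zs) (hX : LocX b zs) (hO : LocM2 b zs)
    (hy : IsMx (wdat (tyW b) b) (wpar b zs) zs y) (hpos : ∀ h : Fin M, 0 < y (.inl (.inl h)))
    (A : Adj h i 0 j) (A' : Adj h' i 2 k) (hi : clsW b i = .three) (hj : clsW b j = .one)
    (hk : clsW b k = .twoE) (hw : 13 / 100 ≤ y (.inl (.inl h')))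
    (hw' : y (.inl (.inl h')) ≤ 30 / 100) (hx : 40 / 100 ≤ y (.inl (.inl h)))
    (hx' : y (.inl (.inl h)) ≤ 41 / 100) :
    y (.inl (.inl h)) + 4 / 100 < (OY b zs y i 1).re := by
  by_contra hcon
  push Not at hcon
  have hty : tyW b i ≠ .ring := by
    rw [tyW_of_three hi]
    decide
  rw [OY_one hty] at hcon
  have hgt := mid_gt hb hL hX hy A A' hi (by rw [hj]; simp only [VL.cpL]; linarith only [hx'])
    (by rw [hk]; simp only [VL.cpR]; linarith only [hw'])
  have hre : (Yw b zs y i 1).re = y (.inl (.inr (mT b hi))) := re_m3 hi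
  have hm0 : 5 / 100 < (Yw b zs y i 1).re := by rw [hre]; exact hgt
  -- first-order condition
  have f := mid_fc hb hy hpos (m3 b hi) (by
    change 0 < y (.inl (.inr (mT b hi)))
    linarith only [hi, hgt])
  obtain ⟨e1, e2, e3⟩ := pp_m3 (zs := zs) hi
  rw [e1, e2, e3] at f
  have e4 : OM b zs y (m3 b hi).1 = fun m => SM m (Yw b zs y i 0) (Yw b zs y i 1)
      (Yw b zs y i 2) := by
    funext m
    exact OM_three hi m
  rw [e4] at f
  have hle : (Yw b zs y i 1).re < 8 / 10 - 5 / 100 := by linarith only [hx', hcon]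
  have f0 : SM 0 (Yw b zs y i 0) (Yw b zs y i 1) (Yw b zs y i 2) ≤ 0 :=
    f.flat (by exact hm0.le) (by exact hle)
  have hs := (sinNe_three hi hy hpos (by linarith only [hi, hgt])).2
  -- heights
  have K := kn_m3 hi hy
  have hvi : (Yw b zs y i 1).im = t3 zs hi := by
    refine K.m hgt.le ?_
    rw [← re_m3 (zs := zs) (y := y) hi]
    linarith only [hx', hcon]
  obtain ⟨h2, r, A3⟩ := A.symm.other_one hb hj
  have A4 : Adj h2 j 0 r := A3
  obtain ⟨q1, q2, q3⟩ := A.par_s0_one hi hj
  have hui : (Yw b zs y i 0).im = ofs (b i) (zs (.inl (.inl h))).im :=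
    A.h65f hy q1 q2 q3 (by linarith only [hx]) (by linarith only [hx'])
  have hur : (Yw b zs y i 0).re = y (.inl (.inl h)) := A.re
  have hwr : (Yw b zs y i 2).re = y (.inl (.inl h')) := A'.re
  have hwi : -(98 / 1000) ≤ (Yw b zs y i 2).im := by
    obtain ⟨-, -, k1, k2⟩ := A'.box hb hL
    rw [hi, hk] at k1 k2
    simp only [hbox] at k1 k2
    have R := A'.rh hy
    rw [R.im]
    have t0 : 0 ≤ tr 0 (wXM b h') (wcl b h') (wcr b h') (Yw b zs y i 2).re := le_max_left _ _
    have t1 : tr 0 (wXM b h') (wcl b h') (wcr b h') (Yw b zs y i 2).re ≤ 1 :=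
      max_le zero_le_one (min_le_left _ _)
    generalize tr 0 (wXM b h') (wcl b h') (wcr b h') (Yw b zs y i 2).re = τ at t0 t1
    generalize ofs (b i) (zs (.inl (.inl h'))).im = T at k1 k2
    nlinarith only [t1, t0, k1]
  have hT : -(1145 / 10000) ≤ ofs (b i) (zs (.inl (.inl h))).im ∧
      ofs (b i) (zs (.inl (.inl h))).im ≤ -(21 / 1000) := by
    obtain ⟨-, -, k1, k2⟩ := A.box hb hL
    rw [hi, hj] at k1 k2
    simp only [hbox] at k1 k2
    constructor <;> linarith only [k1, k2]
  obtain ⟨k3, k4, -, -⟩ := hX.mid (tyW_isMid (Or.inl hi)) A A' hi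
  have e' : ofs (b i) (zs (.inl (.inr ⟨i, tyW_isMid (Or.inl hi)⟩))).im = t3 zs hi := rfl
  rw [e', hj, hk] at k3 k4
  simp only [mw] at k3 k4
  have main : (t3 zs hi ≤ -(67 / 10000) ∧ -(92 / 1000) ≤ ofs (b i) (zs (.inl (.inl h))).im ∧
      ofs (b i) (zs (.inl (.inl h))).im ≤ -(258 / 10000)) ∨
      (t3 zs hi ≤ -(5 / 1000) ∧ -(1145 / 10000) ≤ ofs (b i) (zs (.inl (.inl h))).im ∧
      ofs (b i) (zs (.inl (.inl h))).im ≤ -(46 / 1000)) := by
    have hop := A.opp hb (Or.inl (by rw [hi]; decide))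
    have hTj : ofs (b j) (zs (.inl (.inl h))).im = -ofs (b i) (zs (.inl (.inl h))).im :=
      ofs_opp hop _
    obtain ⟨w1, w2, -, -⟩ := hX.win A.symm A4 hj
    rw [hi] at w1 w2
    have hok := okp_of hb A.symm A4 hj
    rw [hi] at hok
    rcases hok with hok | hok
    · simp at hok
    rcases hok with hr | hr | hr
    · left
      have := hO.one (tyW_isMid (Or.inl hi)) A A' A4 hi hj hr
      rw [hk] at this
      obtain ⟨-, g2, -, -, g5, g6⟩ := this
      rw [e'] at g2
      simp only [mw3] at g2 g5 g6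
      exact ⟨g2, by linarith only [g5], g6⟩
    · right
      rw [hr] at w1 w2
      simp only [cw] at w1 w2
      exact ⟨k4, hT.1, by linarith only [hTj, w1]⟩
    · right
      rw [hr] at w1 w2
      simp only [cw] at w1 w2
      exact ⟨k4, hT.1, by linarith only [hTj, w1]⟩
  have := sm_pos (u := Yw b zs y i 0) (v := Yw b zs y i 1) (w := Yw b zs y i 2)
    (by rw [hur]; exact hx) (by rw [hur]; exact hx') hm0.le (by rw [hur]; exact hcon)
    (by rw [hwr]; exact hw) (by rw [hwr]; exact hw') hwi (by rw [hvi]; exact k3)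
    (by rw [hvi, hui]; exact main) hs
  linarith only [f0, this]

/-- **`1 | 3 | 2` with the `2` at an end**, hinge of `1 | 3` in `[.40, .60]`, floors of the round
`L2`: the inner variable is not low. -/
theorem s0_mid_twoE (hb : ClassW b) (hL : Loc b zs) (hX : LocX b zs) (hO : LocM2 b zs)
    (hy : Mx b zs y) (hpos : ∀ h : Fin M, 0 < y (.inl (.inl h))) (hF : Flr b y F2)
    (hS : Sum1 b y (95 / 100)) (A : Adj h i 0 j) (A' : Adj h' i 2 k) (hi : clsW b i = .three)
    (hj : clsW b j = .one) (hk : clsW b k = .twoE) (hw : y (.inl (.inl h')) ≤ 30 / 100)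
    (hx : 40 / 100 ≤ y (.inl (.inl h))) (hx' : y (.inl (.inl h)) ≤ 60 / 100) :
    y (.inl (.inl h)) + 4 / 100 < (OY b zs y i 1).re := by
  rcases le_total (y (.inl (.inl h))) (41 / 100) with h1 | h1
  · refine s0_one_mid_twoE hb hL hX hO hy hpos A A' hi hj hk ?_ hw hx h1
    have := hF A'
    rw [hi, hk] at this
    simp only [F2, if_true] at this
    linarith only [this]
  · have hF1 : Flr b y F1 := by
      intro h i j p A
      exact (F1_le A.slot _ _).trans (hF A)
    exact s0_one_mid hb hL hX hy hF1 hS A A' hi hj (hw.trans (by norm_num)) h1 hx'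

end SR

end Pool.Agent.Work.MP_b30479_gt.G2
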