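import Pool.Agent.Work.MP_b30479_gt.G2.H14Z
import Pool.Agent.Work.MP_b30479_gt.G2.H2E

/-!
# The round `R2` of the hinge `1 | 3` (slot `0`), complete
-/

namespace Pool.Agent.Work.MP_b30479_gt.G2

open Finset VOL Filter Topology

namespace HX

open SR

variable {M : ℕ} {b : Fin (M + 1) → ℤ} {zs : DD (tyW b) ⊕ ZZ (tyW b) → ℂ}
variable {y : DD (tyW b) ⊕ ZZ (tyW b) → ℝ}
variable {h h' h3 : Fin M} {i j j' k : Fin (M + 1)} {p : Fin 3}

/-- **The round `R2` of the hinge `1 | 3` (slot `0`).** -/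
theorem cap13_R2' (hb : ClassW b) (hL : Loc b zs) (hX : LocX b zs) (hO : LocM2 b zs)
    (hy : Mx b zs y)
    (hpos : ∀ h : Fin M, 0 < y (.inl (.inl h))) (hF : Flr b y F2)
    (hS : Sum1 b y (95 / 100))
    (h12 : ∀ {h : Fin M} {i j : Fin (M + 1)} {p : Fin 3}, Adj h i p j → clsW b i = .one →
      clsW b j = .two → y (.inl (.inl h)) ≤ 495 / 1000)
    (h2e : ∀ {h : Fin M} {i j : Fin (M + 1)} {p : Fin 3}, Adj h i p j → clsW b i = .one →
      clsW b j = .twoE → y (.inl (.inl h)) ≤ 35 / 100)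
    (A : Adj h i 2 j) (A3 : Adj h3 j 2 k) (hi : clsW b i = .one) (hj : clsW b j = .three)
    (hw1 : y (.inl (.inl h3)) ≤ 39 / 100)
    (hw2 : clsW b k ≠ .one → y (.inl (.inl h3)) ≤ 31 / 100)
    (hwE : clsW b k = .twoE → y (.inl (.inl h3)) ≤ 30 / 100)
    (hx : y (.inl (.inl h)) ≤ 47 / 100) :
    y (.inl (.inl h)) ≤ 42 / 100 ∧ (clsW b k = .twoE → y (.inl (.inl h)) ≤ 40 / 100) :=
  cap13_R2 hb hL hX hO hy hpos hF hS h12 h2e A A3 hi hj hw1 hw2 hx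
    (fun hk h0 h1 => s0_mid_twoE hb hL hX hO hy hpos hF hS A.symm A3 hj hi hk (hwE hk) h0
      (by linarith))

end HX

end Pool.Agent.Work.MP_b30479_gt.G2
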