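import Pool.Agent.Work.MP_b30479_gt.G2.V3MidRH

/-!
# The inner variable of an inner digit `3`: the right ramp

The inner variable `v = r + 20 t (8/10 - r) i` (`75/100 ≤ r ≤ 8/10`) of an inner digit `3` is moved
to `v' = c + t i`: `c = 66/100` (`mid_right_1N`), `62/100` (`mid_right_NN`), `54/100`
(`mid_right_N1`).  In the remaining cases the side along the slope `-20 t` is negative
(`mid_right_11`, `mid_right_11'`, `mid_right_E1`).
-/

namespace Pool.Agent.Work.MP_b30479_gt.G2

open VOL NumU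

namespace VN

variable {u v v' w : ℂ} {r t : ℝ}

theorem mid_right_1N (h1 : v.re = r) (h2 : v.im = 20 * t * (8 / 10 - r))
    (h3 : v'.re = 66 / 100) (h4 : v'.im = t) (hr : 75 / 100 ≤ r) (hr' : r ≤ 80 / 100)
    (hx : 12 / 100 ≤ u.re) (hx' : u.re ≤ 42 / 100) (hT : -(1145 / 10000) ≤ u.im)
    (hT' : u.im ≤ -(21 / 1000)) (hw : 13 / 100 ≤ w.re) (hw' : w.re ≤ 31 / 100)
    (hS : -(98 / 1000) ≤ w.im) (hS' : w.im ≤ 57 / 1000) (ht : -(92 / 1000) ≤ t)
    (ht' : t ≤ 15 / 1000) : V3 u v w < V3 u v' w := by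
  have h := diff_1N (x := u.re) (T := u.im) (w := w.re) (S := w.im) (t := t) (r := r)
    (by linarith only [hx]) (by linarith only [hx']) (by linarith only [hT]) (by linarith only [hT']) (by linarith only [hw]) (by linarith only [hw'])
    (by linarith only [hS]) (by linarith only [hS']) (by linarith only [ht]) (by linarith only [ht']) hr hr'
  have e := V3_diff (u := u) (w := w) h1 h2 (h3.trans (by norm_num : _ = (6600 / 10000 : ℝ))) h4
  linarith only [h, e]

theorem mid_right_NN (h1 : v.re = r) (h2 : v.im = 20 * t * (8 / 10 - r))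
    (h3 : v'.re = 62 / 100) (h4 : v'.im = t) (hr : 75 / 100 ≤ r) (hr' : r ≤ 80 / 100)
    (hx : 12 / 100 ≤ u.re) (hx' : u.re ≤ 33 / 100) (hT : -(98 / 1000) ≤ u.im)
    (hT' : u.im ≤ 57 / 1000) (hw : 13 / 100 ≤ w.re) (hw' : w.re ≤ 31 / 100)
    (hS : -(98 / 1000) ≤ w.im) (hS' : w.im ≤ 57 / 1000) (ht : -(123 / 1000) ≤ t)
    (ht' : t ≤ 15 / 1000) : V3 u v w < V3 u v' w := by
  have h := diff_NN (x := u.re) (T := u.im) (w := w.re) (S := w.im) (t := t) (r := r)
    (by linarith only [hx]) (by linarith only [hx']) (by linarith only [hT]) (by linarith only [hT']) (by linarith only [hw]) (by linarith only [hw'])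
    (by linarith only [hS]) (by linarith only [hS']) (by linarith only [ht]) (by linarith only [ht']) hr hr'
  have e := V3_diff (u := u) (w := w) h1 h2 (h3.trans (by norm_num : _ = (6200 / 10000 : ℝ))) h4
  linarith only [h, e]

theorem mid_right_N1 (h1 : v.re = r) (h2 : v.im = 20 * t * (8 / 10 - r))
    (h3 : v'.re = 54 / 100) (h4 : v'.im = t) (hr : 75 / 100 ≤ r) (hr' : r ≤ 80 / 100)
    (hx : 12 / 100 ≤ u.re) (hx' : u.re ≤ 33 / 100) (hT : -(57 / 1000) ≤ u.im)
    (hT' : u.im ≤ 57 / 1000) (hw : 15 / 100 ≤ w.re) (hw' : w.re ≤ 37 / 100)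
    (hS : -(1145 / 10000) ≤ w.im) (hS' : w.im ≤ -(21 / 1000)) (ht : -(122 / 1000) ≤ t)
    (ht' : t ≤ 15 / 1000) : V3 u v w < V3 u v' w := by
  have h := diff_N1 (x := u.re) (T := u.im) (w := w.re) (S := w.im) (t := t) (r := r)
    (by linarith only [hx]) (by linarith only [hx']) (by linarith only [hT]) (by linarith only [hT']) (by linarith only [hw]) (by linarith only [hw'])
    (by linarith only [hS]) (by linarith only [hS']) (by linarith only [ht]) (by linarith only [ht']) hr hr'
  have e := V3_diff (u := u) (w := w) h1 h2 (h3.trans (by norm_num : _ = (5400 / 10000 : ℝ))) h4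
  linarith only [h, e]

/-- `1 | 3 | 1`, hinge `u` on its level part -/
theorem mid_right_11 (h1 : v.re = r) (h2 : v.im = 20 * t * (8 / 10 - r)) (hr : 75 / 100 ≤ r)
    (hr' : r ≤ 80 / 100) (hx : 12 / 100 ≤ u.re) (hx' : u.re ≤ 1 / 2)
    (hT : -(1145 / 10000) ≤ u.im) (hT' : u.im ≤ -(21 / 1000)) (hw : 15 / 100 ≤ w.re)
    (hw' : w.re ≤ 37 / 100) (hS : -(1145 / 10000) ≤ w.im) (hS' : w.im ≤ -(21 / 1000))
    (ht : -(95 / 1000) ≤ t) (ht' : t ≤ -(8 / 1000)) : SM (-(20 * t)) u v w < 0 := by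
  have a := gA_11 (u := u) h1 h2 (by linarith only [hx]) (by linarith only [hx']) (by linarith only [hT]) (by linarith only [hT'])
    (by linarith only [ht]) (by linarith only [ht']) hr hr'
  have b := gB_11 (w := w) h1 h2 (by linarith only [hw]) (by linarith only [hw']) (by linarith only [hS]) (by linarith only [hS'])
    (by linarith only [ht]) (by linarith only [ht']) hr hr'
  have c := gC_11 h1 h2 (by linarith only [ht]) (by linarith only [ht']) hr hr'
  rw [SM_split]
  linarith only [a, b, c]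

/-- `1 | 3 | 1`, hinge `u` on its right ramp `[1/2, 65/100]` -/
theorem mid_right_11' {T : ℝ} (h1 : v.re = r) (h2 : v.im = 20 * t * (8 / 10 - r))
    (hr : 75 / 100 ≤ r) (hr' : r ≤ 80 / 100) (hx : 1 / 2 ≤ u.re) (hx' : u.re ≤ 65 / 100)
    (hu : u.im = T * ((65 / 100 - u.re) / (15 / 100))) (hT : -(1145 / 10000) ≤ T)
    (hT' : T ≤ -(21 / 1000)) (hw : 15 / 100 ≤ w.re) (hw' : w.re ≤ 37 / 100)
    (hS : -(1145 / 10000) ≤ w.im) (hS' : w.im ≤ -(21 / 1000)) (ht : -(95 / 1000) ≤ t)
    (ht' : t ≤ -(8 / 1000)) : SM (-(20 * t)) u v w < 0 := by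
  have a := gA'_11 (u := u) (T := T) h1 h2 (by linarith only [hx]) (by linarith only [hx']) hu (by linarith only [hT])
    (by linarith only [hT']) (by linarith only [ht]) (by linarith only [ht']) hr hr'
  have b := gB_11 (w := w) h1 h2 (by linarith only [hw]) (by linarith only [hw']) (by linarith only [hS]) (by linarith only [hS'])
    (by linarith only [ht]) (by linarith only [ht']) hr hr'
  have c := gC_11 h1 h2 (by linarith only [ht]) (by linarith only [ht']) hr hr'
  rw [SM_split]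
  linarith only [a, b, c]

/-- `2e | 3 | 1` -/
theorem mid_right_E1 (h1 : v.re = r) (h2 : v.im = 20 * t * (8 / 10 - r)) (hr : 75 / 100 ≤ r)
    (hr' : r ≤ 80 / 100) (hx : 12 / 100 ≤ u.re) (hx' : u.re ≤ 33 / 100)
    (hT : -(98 / 1000) ≤ u.im) (hT' : u.im ≤ -(76 / 1000)) (hw : 15 / 100 ≤ w.re)
    (hw' : w.re ≤ 37 / 100) (hS : -(1145 / 10000) ≤ w.im) (hS' : w.im ≤ -(21 / 1000))
    (ht : -(135 / 1000) ≤ t) (ht' : t ≤ -(80 / 1000)) : SM (-(20 * t)) u v w < 0 := by
  have a := gA_E1 (u := u) h1 h2 (by linarith only [hx]) (by linarith only [hx']) (by linarith only [hT]) (by linarith only [hT'])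
    (by linarith only [ht]) (by linarith only [ht']) hr hr'
  have b := gB_E1 (w := w) h1 h2 (by linarith only [hw]) (by linarith only [hw']) (by linarith only [hS]) (by linarith only [hS'])
    (by linarith only [ht]) (by linarith only [ht']) hr hr'
  have c := gC_E1 h1 h2 (by linarith only [ht]) (by linarith only [ht']) hr hr'
  rw [SM_split]
  linarith only [a, b, c]

end VN

end Pool.Agent.Work.MP_b30479_gt.G2
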