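import Pool.Agent.Work.MP_b30479_gt.G2.H14
import Pool.Agent.Work.MP_b30479_gt.G2.H13X
import Pool.Agent.Work.MP_b30479_gt.G2.V3MidR

/-!
# The round `R2` of the hinge `1 | 3` (slot `0`) in a word
-/

namespace Pool.Agent.Work.MP_b30479_gt.G2

open Finset VOL Filter Topology

namespace HX

open SR

variable {M : ℕ} {b : Fin (M + 1) → ℤ} {zs : DD (tyW b) ⊕ ZZ (tyW b) → ℂ}
variable {y : DD (tyW b) ⊕ ZZ (tyW b) → ℝ}
variable {h h' h3 : Fin M} {i j j' k : Fin (M + 1)} {p : Fin 3}

/-- the other hinge of the digit `1` on the flat part -/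
theorem flatP' (A' : Adj h' i 0 j') (hy : Mx b zs y) (hi : clsW b i = .one)
    (hP : clsW b j' = .one ∨ clsW b j' = .two ∨ clsW b j' = .twoE)
    (h1 : clsW b j' = .one → 15 / 100 ≤ y (.inl (.inl h')) ∧ y (.inl (.inl h')) ≤ 60 / 100)
    (h2 : clsW b j' = .two → 16 / 100 ≤ y (.inl (.inl h')) ∧ y (.inl (.inl h')) ≤ 495 / 1000)
    (h3 : clsW b j' = .twoE → 14 / 100 ≤ y (.inl (.inl h')) ∧ y (.inl (.inl h')) ≤ 35 / 100) :
    (Yw b zs y i 0).im = ofs (b i) (zs (.inl (.inl h'))).im := by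
  have hrh := A'.rh hy
  have hre := A'.re (b := b) (zs := zs) (y := y)
  have e1 := A'.XM_eq b
  have e2 := A'.cl_eq b
  have e3 := A'.cr_eq b
  rw [hi] at e1 e2 e3
  unfold hpp at e1 e2 e3
  rw [if_neg (by decide)] at e1 e2 e3
  rcases hP with hP | hP | hP
  · obtain ⟨k0, k1⟩ := h1 hP
    rw [hP] at e1 e2 e3
    simp only [hp] at e1 e2 e3
    have f1 : 80 / 100 ≤ wXM b h' := by
      rw [e1]
      split_ifs <;> norm_num
    have f2 : wcl b h' = 15 / 100 := by
      rw [e2]
      split_ifs <;> rfl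
    have f3 : wcr b h' = 20 / 100 := by
      rw [e3]
      split_ifs <;> rfl
    exact MR.RH_flat hrh (by linarith only [f2]) (by linarith only [f3]) (by rw [hre]; linarith only [k0, f2]) (by rw [hre]; linarith only [k1, f1, f3])
  · obtain ⟨k0, k1⟩ := h2 hP
    rw [hP] at e1 e2 e3
    simp only [hp, hp1] at e1 e2 e3
    exact MR.RH_flat hrh (by linarith only [e2]) (by linarith only [e3]) (by rw [hre]; linarith only [e2, k0]) (by rw [hre]; linarith only [e1, e3, k1])
  · obtain ⟨k0, k1⟩ := h3 hP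
    rw [hP] at e1 e2 e3
    simp only [hp, hp1] at e1 e2 e3
    exact MR.RH_flat hrh (by linarith only [e2]) (by linarith only [e3]) (by rw [hre]; linarith only [e2, k0]) (by rw [hre]; linarith only [e1, e3, k1])

/-- windows of the inner variable of a digit `3` at `j` next to a digit `1`; `P`: the class of the
other neighbour of the `1`, `K`: the class of the other neighbour of the `3`; `t`: its height,
`T`: height of the hinge `1 | 3` in the frame of the `1` -/
def Wm (P K : Cl) (t T : ℝ) : Prop :=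
  ((km P K).t0 : ℝ) / 10000 ≤ t ∧ t ≤ ((km P K).t1 : ℝ) / 10000 ∧
    ((km P K).s0 : ℝ) / 10000 ≤ t + T ∧ t + T ≤ ((km P K).s1 : ℝ) / 10000

/-- **The round `R2` of the hinge `1 | 3` (slot `0`).** -/
theorem core4 (hb : ClassW b) (hL : Loc b zs) (hX : LocX b zs) (hy : Mx b zs y)
    (hpos : ∀ h : Fin M, 0 < y (.inl (.inl h)))
    (A : Adj h i 2 j) (A' : Adj h' i 0 j') (A3 : Adj h3 j 2 k)
    (hi : clsW b i = .one) (hj : clsW b j = .three)
    (hx0 : 42 / 100 ≤ y (.inl (.inl h)) ∨ clsW b k = .twoE ∧ 40 / 100 ≤ y (.inl (.inl h)))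
    (hx1 : y (.inl (.inl h)) ≤ 47 / 100)
    (hS : y (.inl (.inl h)) + y (.inl (.inl h')) ≤ 95 / 100)
    (hk1 : clsW b j' = .one → 15 / 100 ≤ y (.inl (.inl h')))
    (hk2 : clsW b j' = .two → 16 / 100 ≤ y (.inl (.inl h')) ∧ y (.inl (.inl h')) ≤ 495 / 1000)
    (hkE : clsW b j' = .twoE → 14 / 100 ≤ y (.inl (.inl h')) ∧ y (.inl (.inl h')) ≤ 35 / 100)
    (hw0 : 13 / 100 ≤ y (.inl (.inl h3)))
    (hw01 : clsW b k = .one → 15 / 100 ≤ y (.inl (.inl h3)))
    (hw1 : y (.inl (.inl h3)) ≤ 39 / 100)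
    (hw2 : clsW b k ≠ .one → y (.inl (.inl h3)) ≤ 31 / 100)
    (hm0 : y (.inl (.inl h)) + 4 / 100 ≤ y (.inl (.inr (mI b hj))))
    (hm1 : y (.inl (.inr (mI b hj))) ≤ 75 / 100)
    (hwin : Wm (clsW b j') (clsW b k) (hI zs hj) (ofs (b i) (zs (.inl (.inl h))).im)) :
    False := by
  have hop := A.opp hb (Or.inl (by rw [hi]; decide))
  have hP := cls13 hb A A' hi hj
  have hx00 : 40 / 100 ≤ y (.inl (.inl h)) := by
    rcases hx0 with h5 | h5
    · linarith only [h5]
    · exact h5.2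
  have G := geo13 hb hL hy A hi hj (by linarith only [hx00])
  obtain ⟨hure, hu1, -⟩ := u13 hb A hi G
  obtain ⟨hs1, -⟩ := sd13 hb A hi hj G
  have hre := G.re
  -- the windows of the digit 1
  have A2 : Adj h' i (2 : Fin 3).rev j' := A'
  have A1 : Adj h i (0 : Fin 3).rev j := A
  obtain ⟨a0, a1, a2, a3⟩ := hX.win A A2 hi
  obtain ⟨b0, b1, -, -⟩ := hX.win A' A1 hi
  rw [hj] at a0 a1 a2 a3 b0 b1
  have hkim := flatP' A' hy hi hP (fun hc => ⟨hk1 hc, by linarith only [hS, hx00]⟩) hk2 hkE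
  have hkre := A'.re (b := b) (zs := zs) (y := y)
  have B : Adj h j 0 i := A.symm
  set x := y (.inl (.inl h)) with hx
  set T := ofs (b i) (zs (.inl (.inl h))).im with hT
  have hx12 : x ≤ 1 / 2 := by linarith only [hx1]
  have H1 : In5 (clsW b j') x T (Yw b zs y i 0).re (Yw b zs y i 0).im := by
    refine ⟨hP, hx00, hx1, by rw [hkre]; exact hS, a0, a1, ?_, ?_, ?_, ?_, ?_, ?_, ?_⟩
    · rw [hkim]; exact b0
    · rw [hkim]; exact b1
    · rw [hkim]; exact a2
    · rw [hkim]; exact a3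
    · rw [hkre]; exact hk1
    · rw [hkre]; exact hk2
    · rw [hkre]; exact hkE
  -- the digit 3
  obtain ⟨w0, w1⟩ := w_im A3 hb hL hy hj (by linarith only [hw0]) hw1 hw2
  obtain ⟨m0, m1, m2, m3⟩ := hwin
  obtain ⟨p1, p2, p3⟩ := pp_mI (zs := zs) hj
  have hmpos : 0 < y (.inl (.inr (mI b hj))) := by linarith only [hj, hm0, hx00]
  have hR := mid_RH hy (mI b hj)
  have hF := mid_fc hb hy hpos (mI b hj) hmpos
  rw [p1, p2, p3] at hR hF
  have hmre' : (Yw b zs y (mI b hj).1 1).re = y (.inl (.inr (mI b hj))) := by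
    rw [Yw_mid (zs := zs) (y := y) (mI b hj), ofr_pp_re]
  have hmre : (Yw b zs y j 1).re = y (.inl (.inr (mI b hj))) := hmre'
  have hmim : (Yw b zs y j 1).im = hI zs hj := by
    show (Yw b zs y (mI b hj).1 1).im = _
    exact MR.RH_flat hR (by norm_num) (by norm_num) (by rw [hmre']; linarith only [hj, hm0, hx00, hmpos])
      (by rw [hmre']; linarith only [hj, hm1])
  have hfoc : 0 ≤ SM 0 (Yw b zs y j 0) (Yw b zs y j 1) (Yw b zs y j 2) := by
    rw [← OM_three hj]
    exact hF.flat' (by rw [hmre']; linarith only [hj, hm0, hx00, hmpos]) (by rw [hmre']; linarith only [hj, hm1])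
  have hn := MM_pos_of_sinNe (reg_three hj hy hpos hmpos).1
  rw [Complex.add_re, Complex.add_im] at hn
  have hwre := A3.re (b := b) (zs := zs) (y := y)
  have H3 : In4 (clsW b j') (clsW b k) (Yw b zs y j 0) (Yw b zs y j 1) (Yw b zs y j 2) T := by
    refine ⟨hP, a0, a1, by rw [hure]; exact hx00, by rw [hure]; exact hx1, hu1 hx12, ?_, ?_, ?_,
      ?_, ?_, ?_, by rw [hwre]; exact hw0, by rw [hwre]; exact hw01, by rw [hwre]; exact hw1,
      by rw [hwre]; exact hw2, w0, w1, hn, hfoc⟩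
    · rw [hmre, hure]; linarith only [hj, hm0]
    · rw [hmre]; exact hm1
    · rw [hmim]; exact m0
    · rw [hmim]; exact m1
    · rw [hmim]; exact m2
    · rw [hmim]; exact m3
  -- the step
  have hstr : (Yw b zs y i 2) ∈ strip ∧ (Yw b zs y i 2) + (Yw b zs y i 0) ∈ strip := by
    have hk0 : 0 < y (.inl (.inl h')) := hpos h'
    refine ⟨⟨by rw [hre]; linarith only [hx00], by rw [hre]; linarith only [hS, hk0]⟩, ⟨?_, ?_⟩⟩
    · rw [Complex.add_re, hre, hkre]; linarith only [hx00, hk0]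
    · rw [Complex.add_re, hre, hkre]; linarith only [hS]
  obtain ⟨him, hsl⟩ := G.fl hx12
  have e1 : Sw b zs y i 2 (slL b zs y h) =
      MR.s1 0 x T (Yw b zs y i 0).re (Yw b zs y i 0).im := by
    rw [A.side_one hb hi, hsl, ofs_zero', show (2 : Fin 3).rev = 0 from rfl,
      MR.S1_eq _ hstr.1 hstr.2, him, hre]
  have e2 := hs1 hx12
  have fin : ∀ f : ℝ, Sw b zs y i 2 (slL b zs y h) < f → Sw b zs y j 0 (slL b zs y h) < -f →
      False := by
    intro f d1 d2
    exact rstep_false hb hy (hpos h) (RStep.of_adj A (c := 0) (fun h => absurd h (by omega))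
      (e1 := Sw b zs y i 2 (slL b zs y h)) (e2 := Sw b zs y j 0 (slL b zs y h))
      (by linarith only [d1, d2]) (by linarith only []) (by
        show Sw b zs y j 0 (slL b zs y h) + 0 * ofs (b j) (slL b zs y h) ≤ _
        linarith only []))
  rcases le_or_gt (42 / 100) x with h5 | h5
  · refine fin (fP (clsW b j') x T) (by rw [e1]; exact one5 H1 h5) ?_
    rw [e2]
    have := three4 H3 (by rw [hure]; exact h5)
    rwa [hure] at this
  · have hK : clsW b k = .twoE := by
      rcases hx0 with h6 | h6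
      · exact absurd h6 (not_le.2 h5)
      · exact h6.1
    refine fin (gP (clsW b j') x T) (by rw [e1]; exact one5e H1 h5.le) ?_
    rw [e2]
    have := three4e H3 hK (by rw [hure]; exact h5.le)
    rwa [hure] at this

/-- the inner variable is not on its right ramp, `x ≤ 42/100`, other neighbour of the `3` not a
`1` -/
theorem mid_le' (hb : ClassW b) (hL : Loc b zs) (hX : LocX b zs) (hy : Mx b zs y)
    (hpos : ∀ h : Fin M, 0 < y (.inl (.inl h)))
    (A : Adj h i 2 j) (A3 : Adj h3 j 2 k) (hi : clsW b i = .one) (hj : clsW b j = .three)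
    (hk : clsW b k ≠ .one)
    (hx0 : 13 / 100 < y (.inl (.inl h))) (hx1 : y (.inl (.inl h)) ≤ 42 / 100)
    (hw0 : 13 / 100 ≤ y (.inl (.inl h3)))
    (hw2 : y (.inl (.inl h3)) ≤ 31 / 100) :
    y (.inl (.inr (mI b hj))) ≤ 75 / 100 := by
  by_contra hcon
  have hcon := not_le.1 hcon
  have G := geo13 hb hL hy A hi hj hx0
  obtain ⟨hure, hu1, -⟩ := u13 hb A hi G
  have hT0 := G.T0
  have hT1 := G.T1
  have B : Adj h j 0 i := A.symm
  obtain ⟨m0, m1, -, -⟩ := m_im hb hX B A3 hi hj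
  obtain ⟨w0, w1⟩ := w_im A3 hb hL hy hj (by linarith only [hw0]) (by linarith only [hw2]) (fun _ => hw2)
  obtain ⟨hmre, hmim, hmM, -⟩ := mR_data hb hy hpos hj hcon
  have hwre := A3.re (b := b) (zs := zs) (y := y)
  have hui := hu1 (by linarith)
  obtain ⟨k0, k1, k2, k3, k4, k5, -⟩ := kd_ne hk
  have h6 := VN.mid_right_1N (v' := lv (66 / 100) (hI zs hj))
    (r := y (.inl (.inr (mI b hj)))) (t := hI zs hj) (u := Yw b zs y j 0) (w := Yw b zs y j 2)
    hmre hmim (lv_re _ _) (lv_im _ _) hcon.le hmM (by rw [hure]; linarith)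
    (by rw [hure]; linarith only [hx1]) (by rw [hui]; linarith only [hT1]) (by rw [hui]; linarith only [hT0])
    (by rw [hwre]; exact hw0) (by rw [hwre]; exact hw2) (by linarith only [w0, k4]) (by linarith only [w1, k5])
    (by linarith) (by linarith)
  obtain ⟨p1, p2, p3⟩ := pp_mI (zs := zs) hj
  have ht := tyW_of_three hj
  have hne : tyW b j ≠ .ring := by rw [ht]; decide
  have h2 := hy.upd (.inl (.inr (mI b hj))) (c := 66 / 100) (by show (0 : ℝ) ≤ 66 / 100; norm_num)
    (by show (66 / 100 : ℝ) ≤ (wpar b zs).XM (.inr (mI b hj)); rw [p1]; norm_num)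
  have h7 : (wdat (tyW b) b).V (Function.update ((wpar b zs).pth zs y)
      (.inl (.inr (mI b hj))) ((wpar b zs).pp zs (.inl (.inr (mI b hj))) (66 / 100))) -
      (wdat (tyW b) b).V ((wpar b zs).pth zs y) =
      rV (tyW b) b j (Function.update (xx (tyW b) j ((wpar b zs).pth zs y)) 1
        ((wpar b zs).pp zs (.inl (.inr (mI b hj))) (66 / 100))) -
      rV (tyW b) b j (xx (tyW b) j ((wpar b zs).pth zs y)) :=
    V_upd_mid (tyW b) b (mI b hj) ((wpar b zs).pth zs y)
      ((wpar b zs).pp zs (.inl (.inr (mI b hj))) (66 / 100))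
  rw [rV_own hb, rV_own hb, own_update_one hne] at h7
  have e5 : ofr (b j) ((wpar b zs).pp zs (.inl (.inr (mI b hj))) (66 / 100)) =
      lv (66 / 100) (hI zs hj) :=
    ofr_pp_flat (wpar_good b zs) zs (.inr (mI b hj)) (b j) (by rw [p2]; norm_num)
      (by rw [p1, p3]; norm_num)
  have e6 : own (b j) (tyW b j) (xx (tyW b) j ((wpar b zs).pth zs y)) = OY b zs y j := rfl
  rw [e6, e5] at h7
  have h4 : OV b j (Function.update (OY b zs y j) 1 (lv (66 / 100) (hI zs hj))) -
      OV b j (OY b zs y j) ≤ 0 := by linarith only [hj, h2, h7]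
  rw [OV_three hb hj, OV_three hb hj, Function.update_self,
    Function.update_of_ne (by decide), Function.update_of_ne (by decide), OY_zero,
    OY_one hne, OY_two] at h4
  linarith only [hj, h6, h4]

end HX

end Pool.Agent.Work.MP_b30479_gt.G2
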