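import Pool.Agent.Work.MP_b30479_gt.G2.H14W
import Pool.Agent.Work.MP_b30479_gt.G2.V2B

/-!
# The round `R2`: the hinge `1 | 3` (slot `0`) is at most `42/100`
-/

namespace Pool.Agent.Work.MP_b30479_gt.G2

open Finset VOL Filter Topology

namespace HX

open SR

variable {M : ℕ} {b : Fin (M + 1) → ℤ} {zs : DD (tyW b) ⊕ ZZ (tyW b) → ℂ}
variable {y : DD (tyW b) ⊕ ZZ (tyW b) → ℝ}
variable {h h' h3 : Fin M} {i j j' k : Fin (M + 1)} {p : Fin 3}

theorem adj_p (A : Adj h i p j) : p = 0 ∨ p = 2 := by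
  cases A
  · exact Or.inr rfl
  · exact Or.inl rfl

theorem Flr12 (hF : Flr b y F2) : Flr b y F1 := by
  intro h i j p A
  exact (F1_le (adj_p A) _ _).trans (hF A)

/-- **The round `R2` of the hinge `1 | 3` (slot `0`).** -/
theorem cap13_42 (hb : ClassW b) (hL : Loc b zs) (hX : LocX b zs) (hy : Mx b zs y)
    (hpos : ∀ h : Fin M, 0 < y (.inl (.inl h))) (hF : Flr b y F2)
    (hS : Sum1 b y (95 / 100))
    (h12 : ∀ {h : Fin M} {i j : Fin (M + 1)} {p : Fin 3}, Adj h i p j → clsW b i = .one →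
      clsW b j = .two → y (.inl (.inl h)) ≤ 495 / 1000)
    (h2e : ∀ {h : Fin M} {i j : Fin (M + 1)} {p : Fin 3}, Adj h i p j → clsW b i = .one →
      clsW b j = .twoE → y (.inl (.inl h)) ≤ 35 / 100)
    (A : Adj h i 2 j) (A3 : Adj h3 j 2 k) (hi : clsW b i = .one) (hj : clsW b j = .three)
    (hw1 : y (.inl (.inl h3)) ≤ 39 / 100)
    (hw2 : clsW b k ≠ .one → y (.inl (.inl h3)) ≤ 31 / 100)
    (hx : y (.inl (.inl h)) ≤ 47 / 100)
    (hwin : ∀ {h' : Fin M} {j' : Fin (M + 1)}, Adj h' i 0 j' →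
      Wm (clsW b j') (clsW b k) (hI zs hj) (ofs (b i) (zs (.inl (.inl h))).im))
    (hlow : clsW b k = .twoE → 40 / 100 ≤ y (.inl (.inl h)) → y (.inl (.inl h)) ≤ 42 / 100 →
      y (.inl (.inl h)) + 4 / 100 < (OY b zs y j 1).re) :
    y (.inl (.inl h)) ≤ 42 / 100 ∧ (clsW b k = .twoE → y (.inl (.inl h)) ≤ 40 / 100) := by
  obtain ⟨h', j', A'⟩ := A.other_one hb hi
  have A' : Adj h' i 0 j' := A'
  have fk := hF A'
  have fw := hF A3
  have hw0 : 13 / 100 ≤ y (.inl (.inl h3)) := by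
    rw [hj] at fw
    refine le_trans ?_ fw
    cases clsW b k <;> norm_num [F2]
  have hw01 : clsW b k = .one → 15 / 100 ≤ y (.inl (.inl h3)) := by
    intro hk
    rw [hj, hk] at fw
    refine le_trans ?_ fw
    norm_num [F2]
  have hk1 : clsW b j' = .one → 15 / 100 ≤ y (.inl (.inl h')) := by
    intro hk
    rw [hi, hk] at fk
    refine le_trans ?_ fk
    norm_num [F2]
  have hk2 : clsW b j' = .two → 16 / 100 ≤ y (.inl (.inl h')) ∧
      y (.inl (.inl h')) ≤ 495 / 1000 := by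
    intro hk
    refine ⟨?_, h12 A' hi hk⟩
    rw [hi, hk] at fk
    refine le_trans ?_ fk
    norm_num [F2]
  have hkE : clsW b j' = .twoE → 14 / 100 ≤ y (.inl (.inl h')) ∧
      y (.inl (.inl h')) ≤ 35 / 100 := by
    intro hk
    refine ⟨?_, h2e A' hi hk⟩
    rw [hi, hk] at fk
    refine le_trans ?_ fk
    norm_num [F2]
  have hne : tyW b j ≠ .ring := by rw [tyW_of_three hj]; decide
  have hmre : (OY b zs y j 1).re = y (.inl (.inr (mI b hj))) := by
    rw [OY_one hne]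
    show (Yw b zs y (mI b hj).1 1).re = _
    rw [Yw_mid (zs := zs) (y := y) (mI b hj), ofr_pp_re]
  have main : (42 / 100 ≤ y (.inl (.inl h)) ∨
      clsW b k = .twoE ∧ 40 / 100 ≤ y (.inl (.inl h))) → False := by
    intro hx0
    refine core4 hb hL hX hy hpos A A' A3 hi hj hx0 hx (hS A A' hi) hk1 hk2 hkE hw0 hw01 hw1 hw2
      ?_ ?_ (hwin A')
    · rw [← hmre]
      rcases le_or_gt (42 / 100) (y (.inl (.inl h))) with h5 | h5
      · exact (s0_one_mid hb hL hX hy (Flr12 hF) hS A.symm A3 hj hi hw1 (by linarith)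
          (by linarith)).le
      · obtain ⟨h6, h7⟩ := hx0.resolve_left (not_le.2 h5)
        exact (hlow h6 h7 h5.le).le
    · rcases le_or_gt (42 / 100) (y (.inl (.inl h))) with h5 | h5
      · exact mid_le hb hL hX hy hpos A A3 hi hj h5 (fun _ => by linarith) (by linarith) hw1 hw2
      · obtain ⟨h6, h7⟩ := hx0.resolve_left (not_le.2 h5)
        have h8 : clsW b k ≠ .one := by
          rw [h6]
          decide
        exact mid_le' hb hL hX hy hpos A A3 hi hj h8 (by linarith) h5.le hw0 (hw2 h8)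
  constructor
  · by_contra hcon
    exact main (Or.inl (not_le.1 hcon).le)
  · intro hk
    by_contra hcon
    exact main (Or.inr ⟨hk, (not_le.1 hcon).le⟩)

end HX

end Pool.Agent.Work.MP_b30479_gt.G2
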