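import Pool.Agent.Work.MP_b30479_gt.G2.H14Y
import Pool.Agent.Work.MP_b30479_gt.G2.WLocO

/-!
# The windows of the round `R2` of the hinge `1 | 3` from the location facts
-/

namespace Pool.Agent.Work.MP_b30479_gt.G2

open Finset VOL Filter Topology

namespace HX

open SR

variable {M : ℕ} {b : Fin (M + 1) → ℤ} {zs : DD (tyW b) ⊕ ZZ (tyW b) → ℂ}
variable {y : DD (tyW b) ⊕ ZZ (tyW b) → ℝ}
variable {h h' h3 : Fin M} {i j j' k : Fin (M + 1)} {p : Fin 3}

/-- the windows -/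
theorem Wm_of (hb : ClassW b) (hX : LocX b zs) (hO : LocM2 b zs)
    (A : Adj h i 2 j) (A' : Adj h' i 0 j') (A3 : Adj h3 j 2 k)
    (hi : clsW b i = .one) (hj : clsW b j = .three) :
    Wm (clsW b j') (clsW b k) (hI zs hj) (ofs (b i) (zs (.inl (.inl h))).im) := by
  have hop := A.opp hb (Or.inl (by rw [hi]; decide))
  have B : Adj h j 0 i := A.symm
  have hTj : ofs (b j) (zs (.inl (.inl h))).im = -ofs (b i) (zs (.inl (.inl h))).im :=
    ofs_opp hop _
  obtain ⟨m0, m1, m2, m3⟩ := m_im hb hX B A3 hi hj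
  rw [hTj, sub_neg_eq_add] at m2 m3
  unfold Wm
  rcases cls13 hb A A' hi hj with hP | hP | hP
  · have q := hO.one (tyW_isMid (Or.inl hj)) B A3 A' hj hi hP
    rw [hTj] at q
    unfold MWin.In at q
    obtain ⟨q0, q1, q2, q3, -, -⟩ := q
    have e : ofs (b j) (zs (.inl (.inr ⟨j, tyW_isMid (Or.inl hj)⟩))).im = hI zs hj := rfl
    rw [e] at q0 q1 q2 q3
    rw [sub_neg_eq_add] at q2 q3
    rw [hP]
    generalize clsW b k = K at *
    generalize hI zs hj = t at *
    generalize ofs (b i) (zs (.inl (.inl h))).im = T at *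
    cases K <;> simp only [km, mw3, kd] at * <;> push_cast at * <;>
      refine ⟨?_, ?_, ?_, ?_⟩ <;> linarith
  · have q := hO.two (tyW_isMid (Or.inl hj)) B A3 A' hj hi hP
    rw [hTj] at q
    unfold MWin.In at q
    obtain ⟨q0, q1, q2, q3, -, -⟩ := q
    have e : ofs (b j) (zs (.inl (.inr ⟨j, tyW_isMid (Or.inl hj)⟩))).im = hI zs hj := rfl
    rw [e] at q0 q1 q2 q3
    rw [sub_neg_eq_add] at q2 q3
    rw [hP]
    generalize clsW b k = K at *
    generalize hI zs hj = t at *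
    generalize ofs (b i) (zs (.inl (.inl h))).im = T at *
    cases K <;> simp only [km, mw3, kd] at * <;> push_cast at * <;>
      refine ⟨?_, ?_, ?_, ?_⟩ <;> linarith
  · rw [hP]
    generalize clsW b k = K at *
    cases K <;> exact ⟨m0, m1, m2, m3⟩

/-- **The round `R2` of the hinge `1 | 3` (slot `0`).** -/
theorem cap13_R2 (hb : ClassW b) (hL : Loc b zs) (hX : LocX b zs) (hO : LocM2 b zs)
    (hy : Mx b zs y)
    (hpos : ∀ h : Fin M, 0 < y (.inl (.inl h))) (hF : Flr b y F2)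
    (hS : Sum1 b y (95 / 100))
    (h12 : ∀ {h : Fin M} {i j : Fin (M + 1)} {p : Fin 3}, Adj h i p j → clsW b i = .one →
      clsW b j = .two → y (.inl (.inl h)) ≤ 495 / 1000)
    (h2e : ∀ {h : Fin M} {i j : Fin (M + 1)} {p : Fin 3}, Adj h i p j → clsW b i = .one →
      clsW b j = .twoE → y (.inl (.inl h)) ≤ 35 / 100)
    (A : Adj h i 2 j) (A3 : Adj h3 j 2 k) (hi : clsW b i = .one) (hj : clsW b j = .three)
    (hw1 : y (.inl (.inl h3)) ≤ 39 / 100)
    (hw2 : clsW b k ≠ .one → y (.inl (.inl h3)) ≤ 31 / 100)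
    (hx : y (.inl (.inl h)) ≤ 47 / 100)
    (hlow : clsW b k = .twoE → 40 / 100 ≤ y (.inl (.inl h)) → y (.inl (.inl h)) ≤ 42 / 100 →
      y (.inl (.inl h)) + 4 / 100 < (OY b zs y j 1).re) :
    y (.inl (.inl h)) ≤ 42 / 100 ∧ (clsW b k = .twoE → y (.inl (.inl h)) ≤ 40 / 100) :=
  cap13_42 hb hL hX hy hpos hF hS h12 h2e A A3 hi hj hw1 hw2 hx
    (fun A' => Wm_of hb hX hO A A' A3 hi hj) hlow

end HX

end Pool.Agent.Work.MP_b30479_gt.G2
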