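import Pool.Agent.Work.MP_b30479_gt.G2.H13R

/-!
# The hinge `1 | 3` (slot `0`) close to its end, other neighbour of the `1`: a `2` at an end

The hinge is in `[635/1000, 65/100]`.
-/

set_option linter.unusedSimpArgs false

namespace Pool.Agent.Work.MP_b30479_gt.G2

open Finset VOL Filter Topology

namespace HX

open SR NumI

theorem eP : r1C 10727 0 6425 134000 6350 6500 870 1145 1594 3150 (-450) (-250) 510 770 = true := by
  decide +kernel

theorem eK1l :
    r3C 10727 0 6425 134000 1100 (-1145) 6350 6500 870 1145 400 1150 (-800) (-180) (-450) 700 7500 = true := by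
  decide +kernel

theorem eK1h :
    r3C 10727 0 6425 134000 1100 (-150) 6350 6500 870 1145 400 1150 (-800) (-180) (-450) 700 7500 = true := by
  decide +kernel

theorem eKOl :
    r3C 10727 0 6425 134000 1100 (-570) 6350 6500 870 1145 400 1150 (-820) 50 (-400) 840 7500 = true := by
  decide +kernel

theorem eKOh :
    r3C 10727 0 6425 134000 1100 220 6350 6500 870 1145 400 1150 (-820) 50 (-400) 840 7500 = true := by
  decide +kernel

theorem eKZl :
    r3C 10727 0 6425 134000 1100 (-40) 6350 6500 870 1145 400 1150 (-720) 0 (-340) 800 7500 = true := by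
  decide +kernel

theorem eKZh :
    r3C 10727 0 6425 134000 1100 570 6350 6500 870 1145 400 1150 (-720) 0 (-340) 800 7500 = true := by
  decide +kernel

theorem eKEl :
    r3C 10727 0 6425 134000 1100 (-980) 6350 6500 870 1145 400 1150 (-620) (-50) (-200) 750 7500 = true := by
  decide +kernel

theorem eKEh :
    r3C 10727 0 6425 134000 1100 (-640) 6350 6500 870 1145 400 1150 (-620) (-50) (-200) 750 7500 = true := by
  decide +kernel

theorem eR : rRC 10727 0 6425 134000 6350 6500 870 1145 (-820) 50 (-400) 840 = true := by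
  decide +kernel

/-- bounding function -/
noncomputable def fE (x T : ℝ) : ℝ := af 10727 0 6425 134000 x T

variable {u v w : ℂ} {P K : Cl} {x T k κ hh m t r : ℝ}

/-- the side of the digit `3` -/
theorem three_E (H : In3 K u v w T) (hT : 87 / 1000 ≤ T) (h1 : K = .one → -80 / 1000 ≤ v.im)
    (hx : 635 / 1000 ≤ u.re) (hx1 : u.re ≤ 65 / 100)
    (hu : u.im = -(T * (20 / 3 * (65 / 100 - u.re)))) (hm : m = 20 / 3 * T) :
    S3 1 m u v < -(fE u.re T) := by
  obtain ⟨T0, T1, p0, v1, m0, m1, s0, s1, w0, w1, h2, h3, n, f⟩ := H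
  have e : ((1100 : ℤ) : ℝ) / 10000 = 11 / 100 := by norm_num
  have a1 : 1 / 2 ≤ v.re + ((1100 : ℤ) : ℝ) / 10000 := by rw [e]; linarith only [hx, p0]
  have a2 : v.re + ((1100 : ℤ) : ℝ) / 10000 < 1 := by rw [e]; linarith only [v1]
  have a3 : ((1100 : ℤ) : ℝ) / 10000 ≤ w.re := by rw [e]; linarith only [w0]
  have a4 : v.re + w.re ≤ 2 - (v.re + ((1100 : ℤ) : ℝ) / 10000) := by rw [e]; linarith only [v1, w1]
  have b1 : ((6350 : ℤ) : ℝ) / 10000 ≤ u.re := by push_cast; linarith only [hx]
  have b2 : u.re ≤ ((6500 : ℤ) : ℝ) / 10000 := by push_cast; linarith only [hx1]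
  have b3 : ((870 : ℤ) : ℝ) / 10000 ≤ T := by push_cast; linarith only [hT]
  have b4 : T ≤ ((1145 : ℤ) : ℝ) / 10000 := by push_cast; linarith only [T1]
  have b5 : ((400 : ℤ) : ℝ) / 10000 ≤ v.re - u.re := by push_cast; linarith only [p0]
  have b6 : v.re - u.re ≤ ((1150 : ℤ) : ℝ) / 10000 := by push_cast; linarith only [hx, v1]
  have b7 : v.re ≤ ((7500 : ℤ) : ℝ) / 10000 := by push_cast; linarith only [v1]
  unfold fE
  cases K
  case one =>
    have q := h1 rfl
    exact ramp3_c eK1l eK1h (by linarith only [hx]) (by linarith only [hx1]) (by linarith only [p0]) (by linarith only [v1]) b1 b2 b3 b4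
      b5 b6 (by push_cast; linarith only [q]) m1 s0 s1 b7 hu hm a1 a2 a3 a4 h2 h3 n f
  case two =>
    exact ramp3_c eKOl eKOh (by linarith only [hx]) (by linarith only [hx1]) (by linarith only [p0]) (by linarith only [v1]) b1 b2 b3 b4
      b5 b6 m0 m1 s0 s1 b7 hu hm a1 a2 a3 a4 h2 h3 n f
  case twoE =>
    exact ramp3_c eKEl eKEh (by linarith only [hx]) (by linarith only [hx1]) (by linarith only [p0]) (by linarith only [v1]) b1 b2 b3 b4
      b5 b6 m0 m1 s0 s1 b7 hu hm a1 a2 a3 a4 h2 h3 n f
  case three =>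
    exact ramp3_c eKOl eKOh (by linarith only [hx]) (by linarith only [hx1]) (by linarith only [p0]) (by linarith only [v1]) b1 b2 b3 b4
      b5 b6 m0 m1 s0 s1 b7 hu hm a1 a2 a3 a4 h2 h3 n f
  case threeE =>
    exact ramp3_c eKOl eKOh (by linarith only [hx]) (by linarith only [hx1]) (by linarith only [p0]) (by linarith only [v1]) b1 b2 b3 b4
      b5 b6 m0 m1 s0 s1 b7 hu hm a1 a2 a3 a4 h2 h3 n f
  case ring =>
    exact ramp3_c eKZl eKZh (by linarith only [hx]) (by linarith only [hx1]) (by linarith only [p0]) (by linarith only [v1]) b1 b2 b3 b4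
      b5 b6 m0 m1 s0 s1 b7 hu hm a1 a2 a3 a4 h2 h3 n f

/-- the side of the digit `3`, inner variable on its right ramp -/
theorem three_RE (h1 : v.re = r) (h2 : v.im = 20 * t * (8 / 10 - r))
    (hr : 75 / 100 ≤ r) (hr' : r ≤ 80 / 100) (hx : 635 / 1000 ≤ u.re) (hx' : u.re ≤ 65 / 100)
    (hT : 87 / 1000 ≤ T) (hT' : T ≤ 1145 / 10000)
    (ht : -82 / 1000 ≤ t) (ht' : t ≤ 5 / 1000) (hs : -40 / 1000 ≤ t + T)
    (hs' : t + T ≤ 84 / 1000) (hu : u.im = -(T * (20 / 3 * (65 / 100 - u.re))))
    (hm : m = 20 / 3 * T) : S3 1 m u v < -fE u.re T := by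
  rw [S3_eq (by linarith only [hx]) (by linarith only [hx']) (by linarith only [h1, hr, hx']) (by linarith only [h1, hr', hx]), h1]
  unfold fE
  exact rR_use eR (by push_cast; linarith only [hx]) (by push_cast; linarith only [hx']) (by push_cast; linarith only [hT])
      (by push_cast; linarith only [hT']) (by push_cast; linarith only [ht]) (by push_cast; linarith only [ht'])
      (by push_cast; linarith only [hT, ht]) (by push_cast; linarith only [hs']) hr hr' h2 hu hm

/-- the side of the digit `1` -/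
theorem one_E (hx0 : 635 / 1000 ≤ x) (hx : x ≤ 65 / 100) (hT : 87 / 1000 ≤ T)
    (hT' : T ≤ 1145 / 10000) (hk : 1594 / 10000 ≤ k) (hk0 : -(45 / 1000) ≤ κ)
    (hk1 : κ ≤ -(25 / 1000)) (hs0 : 51 / 1000 ≤ T + κ) (hs1 : T + κ ≤ 77 / 1000)
    (hxk : x + k ≤ 95 / 100) (hh' : hh = T * (20 / 3 * (65 / 100 - x)))
    (hm : m = -(20 / 3 * T)) : MR.s1 m x hh k κ < fE x T := by
  unfold fE
  exact ramp1 eP (by push_cast; linarith only [hx0]) (by push_cast; linarith only [hx]) (by push_cast; linarith only [hT])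
    (by push_cast; linarith only [hT']) (by push_cast; linarith only [hk]) (by push_cast; linarith only [hx0, hxk])
    (by push_cast; linarith only [hk0]) (by push_cast; linarith only [hk1]) (by push_cast; linarith only [hs0])
    (by push_cast; linarith only [hs1]) hxk hh' hm

end HX

end Pool.Agent.Work.MP_b30479_gt.G2
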