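import Pool.Agent.Work.MP_b30479_gt.G2.H15
import Pool.Agent.Work.MP_b30479_gt.G2.H13Y
import Pool.Agent.Work.MP_b30479_gt.G2.H13Z

/-!
# The round `R1.1` of the hinge `1 | 3` (slot `0`), complete
-/

namespace Pool.Agent.Work.MP_b30479_gt.G2

open Finset VOL Filter Topology

namespace HX

open SR

variable {M : ℕ} {b : Fin (M + 1) → ℤ} {zs : DD (tyW b) ⊕ ZZ (tyW b) → ℂ}
variable {y : DD (tyW b) ⊕ ZZ (tyW b) → ℝ}
variable {h h' h3 : Fin M} {i j j' k : Fin (M + 1)} {p : Fin 3}

/-- the side of the digit `3` close to the end of the hinge -/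
theorem sideE (hb : ClassW b) (hL : Loc b zs) (hX : LocX b zs) (hy : Mx b zs y)
    (hpos : ∀ h : Fin M, 0 < y (.inl (.inl h)))
    (A : Adj h i 2 j) (A3 : Adj h3 j 2 k)
    (hi : clsW b i = .one) (hj : clsW b j = .three)
    (hT : 87 / 1000 ≤ ofs (b i) (zs (.inl (.inl h))).im)
    (ht : clsW b k = .one → -80 / 1000 ≤ hI zs hj)
    (hx0 : 635 / 1000 ≤ y (.inl (.inl h)))
    (hw0 : 11 / 100 ≤ y (.inl (.inl h3))) (hw1 : y (.inl (.inl h3)) ≤ 39 / 100)
    (hw2 : clsW b k ≠ .one → y (.inl (.inl h3)) ≤ 31 / 100)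
    (hm0 : y (.inl (.inl h)) + 4 / 100 ≤ y (.inl (.inr (mI b hj)))) :
    Sw b zs y j 0 (slL b zs y h) <
      -fE (y (.inl (.inl h))) (ofs (b i) (zs (.inl (.inl h))).im) := by
  have hop := A.opp hb (Or.inl (by rw [hi]; decide))
  have G := geo13 hb hL hy A hi hj (by linarith only [hx0])
  obtain ⟨hure, -, hu2⟩ := u13 hb A hi G
  obtain ⟨-, hs2⟩ := sd13 hb A hi hj G
  have hxM := G.xM
  have hT0 := G.T0
  have hT1 := G.T1
  have B : Adj h j 0 i := A.symm
  have hTj : ofs (b j) (zs (.inl (.inl h))).im = -ofs (b i) (zs (.inl (.inl h))).im :=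
    ofs_opp hop _
  set x := y (.inl (.inl h)) with hx
  set T := ofs (b i) (zs (.inl (.inl h))).im with hTdef
  obtain ⟨m0, m1, m2, m3⟩ := m_im hb hX B A3 hi hj
  rw [hTj, sub_neg_eq_add] at m2 m3
  rw [hs2 (by linarith only [hx0])]
  rcases le_or_gt (y (.inl (.inr (mI b hj)))) (75 / 100) with hm | hm
  · obtain ⟨w0, w1⟩ := w_im A3 hb hL hy hj hw0 hw1 hw2
    obtain ⟨p1, p2, p3⟩ := pp_mI (zs := zs) hj
    have hmpos : 0 < y (.inl (.inr (mI b hj))) := by linarith only [hj, hx0, hm0]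
    have hR := mid_RH hy (mI b hj)
    have hF := mid_fc hb hy hpos (mI b hj) hmpos
    rw [p1, p2, p3] at hR hF
    have hmre' : (Yw b zs y (mI b hj).1 1).re = y (.inl (.inr (mI b hj))) := by
      rw [Yw_mid (zs := zs) (y := y) (mI b hj), ofr_pp_re]
    have hmre : (Yw b zs y j 1).re = y (.inl (.inr (mI b hj))) := hmre'
    have hmim : (Yw b zs y j 1).im = hI zs hj := by
      show (Yw b zs y (mI b hj).1 1).im = _
      exact MR.RH_flat hR (by norm_num) (by norm_num) (by rw [hmre']; linarith only [hj, hx0, hm0, hmpos])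
        (by rw [hmre']; linarith only [hj, hm])
    have hfoc : 0 ≤ SM 0 (Yw b zs y j 0) (Yw b zs y j 1) (Yw b zs y j 2) := by
      rw [← OM_three hj]
      exact hF.flat' (by rw [hmre']; linarith only [hj, hx0, hm0, hmpos]) (by rw [hmre']; linarith only [hj, hm])
    have hn := MM_pos_of_sinNe (reg_three hj hy hpos hmpos).1
    rw [Complex.add_re, Complex.add_im] at hn
    have hwre := A3.re (b := b) (zs := zs) (y := y)
    have H3 : In3 (clsW b k) (Yw b zs y j 0) (Yw b zs y j 1) (Yw b zs y j 2) T := by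
      refine ⟨hT0, hT1, ?_, ?_, ?_, ?_, ?_, ?_, ?_, ?_, w0, w1, hn, hfoc⟩
      · rw [hmre, hure]; linarith only [hj, hm0]
      · rw [hmre]; exact hm
      · rw [hmim]; exact m0
      · rw [hmim]; exact m1
      · rw [hmim]; exact m2
      · rw [hmim]; exact m3
      · rw [hwre]; exact hw0
      · rw [hwre]; exact hw1
    have := three_E H3 hT (fun hk => by rw [hmim]; exact ht hk) (by rw [hure]; exact hx0)
      (by rw [hure]; exact hxM) (by rw [hure]; exact hu2 (by linarith only [hx0])) rfl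
    rwa [hure] at this
  · have hk : clsW b k ≠ .one := by
      intro hk
      have := mid_le hb hL hX hy hpos A A3 hi hj (by linarith only [hx0]) (fun h => absurd hk h) hw0 hw1 hw2
      linarith only [hj, hm, this]
    obtain ⟨k0, k1, k2, k3, -, -, -⟩ := kd_ne hk
    obtain ⟨hmre, hmim, hmM, -⟩ := mR_data hb hy hpos hj hm
    have := three_RE (u := Yw b zs y j 0) (v := Yw b zs y j 1)
      (T := T) (t := hI zs hj) hmre hmim hm.le hmM
      (by rw [hure]; exact hx0) (by rw [hure]; exact hxM) hT hT1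
      (by linarith only [hj, m0, k0]) (by linarith only [hj, m1, k1]) (by linarith only [hj, hT, m0, hm, k0, hmM]) (by linarith only [hj, m3, k3])
      (by rw [hure]; exact hu2 (by linarith only [hj, hx0, hm, hmM])) rfl
    rwa [hure] at this

/-- **The hinge `1 | 3` (slot `0`) is not close to its end, other neighbour of the `1`: a `2` at an
end.** -/
theorem endE (hb : ClassW b) (hL : Loc b zs) (hX : LocX b zs) (hN : Mid13 b zs) (hy : Mx b zs y)
    (hpos : ∀ h : Fin M, 0 < y (.inl (.inl h))) (hF : Flr b y F1) (hS : Sum1 b y (95 / 100))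
    (h2e : ∀ {h : Fin M} {i j : Fin (M + 1)} {p : Fin 3}, Adj h i p j → clsW b i = .one →
      clsW b j = .twoE → y (.inl (.inl h)) ≤ 35 / 100)
    (A : Adj h i 2 j) (A' : Adj h' i 0 j') (A3 : Adj h3 j 2 k)
    (hi : clsW b i = .one) (hj : clsW b j = .three) (hj' : clsW b j' = .twoE)
    (ht : clsW b k = .one → -80 / 1000 ≤ hI zs hj)
    (hw1 : y (.inl (.inl h3)) ≤ 39 / 100)
    (hw2 : clsW b k ≠ .one → y (.inl (.inl h3)) ≤ 31 / 100) :
    y (.inl (.inl h)) ≤ 635 / 1000 := by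
  by_contra hcon
  have hcon := not_le.1 hcon
  have hop := A.opp hb (Or.inl (by rw [hi]; decide))
  have G := geo13 hb hL hy A hi hj (by linarith)
  have hre := G.re
  have hxM := G.xM
  have hT1 := G.T1
  have hw0 : 11 / 100 ≤ y (.inl (.inl h3)) := by
    have fw := hF A3
    rw [hj] at fw
    refine le_trans ?_ fw
    cases clsW b k <;> norm_num [F1]
  have A2 : Adj h' i (2 : Fin 3).rev j' := A'
  have A1 : Adj h i (0 : Fin 3).rev j := A
  obtain ⟨a0, a1, a2, a3⟩ := hX.win A A2 hi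
  obtain ⟨b0, b1, -, -⟩ := hX.win A' A1 hi
  rw [hj, hj'] at a0 a1 a2 a3 b0 b1
  simp only [cw] at a0 a1 a2 a3 b0 b1
  have hk0 := floorE hb hL hX hy hpos hF A hi hj (by linarith) A' hj'
  have hk1 := h2e A' hi hj'
  have hsum := hS A A' hi
  have hkim := flatP A' hy hi (Or.inr (Or.inr hj')) (by linarith only [hk0]) (fun hc => by
    rw [hj'] at hc
    exact absurd hc (by decide)) (by linarith only [hk1]) (fun _ => hk1)
  have hkre := A'.re (b := b) (zs := zs) (y := y)
  have hlow := hlow13 hb hL hX hN hy hpos hF hS A A3 hi hj hw1 (by linarith)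
  have hne : tyW b j ≠ .ring := by rw [tyW_of_three hj]; decide
  have hmre : (OY b zs y j 1).re = y (.inl (.inr (mI b hj))) := by
    rw [OY_one hne]
    show (Yw b zs y (mI b hj).1 1).re = _
    rw [Yw_mid (zs := zs) (y := y) (mI b hj), ofr_pp_re]
  rw [hmre] at hlow
  have hs3 := sideE hb hL hX hy hpos A A3 hi hj (by linarith only [a0]) ht (by linarith) hw0 hw1 hw2 hlow.le
  obtain ⟨him, hm⟩ := G.rp (by linarith)
  have hstr : (Yw b zs y i 2) ∈ strip ∧ (Yw b zs y i 2) + (Yw b zs y i 0) ∈ strip := by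
    refine ⟨⟨by rw [hre]; linarith, by rw [hre]; linarith only [hxM]⟩, ⟨?_, ?_⟩⟩
    · rw [Complex.add_re, hre, hkre]; linarith
    · rw [Complex.add_re, hre, hkre]; linarith only [hsum]
  set x := y (.inl (.inl h)) with hx
  set T := ofs (b i) (zs (.inl (.inl h))).im with hTdef
  have e1 : Sw b zs y i 2 (slL b zs y h) =
      MR.s1 (-(20 / 3 * T)) x (T * (20 / 3 * (65 / 100 - x))) (Yw b zs y i 0).re
        (Yw b zs y i 0).im := by
    rw [A.side_one hb hi, hm, show (2 : Fin 3).rev = 0 from rfl,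
      MR.S1_eq _ hstr.1 hstr.2, him, hre]
  have hs1 : Sw b zs y i 2 (slL b zs y h) < fE x T := by
    rw [e1]
    exact one_E (by linarith) hxM (by linarith only [a0]) hT1 (by rw [hkre]; exact hk0)
      (by rw [hkim]; linarith only [b0]) (by rw [hkim]; linarith only [b1]) (by rw [hkim]; linarith only [a2])
      (by rw [hkim]; linarith only [a3]) (by rw [hkre]; exact hsum) rfl rfl
  exact rstep_false hb hy (hpos h) (RStep.of_adj A (c := 0) (fun h => absurd h (by omega))
    (e1 := Sw b zs y i 2 (slL b zs y h)) (e2 := Sw b zs y j 0 (slL b zs y h))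
    (by linarith only [hs3, hs1]) (by linarith only []) (by
      show Sw b zs y j 0 (slL b zs y h) + 0 * ofs (b j) (slL b zs y h) ≤ _
      linarith only []))

/-- **The round `R1.1`.** -/
theorem cap13_R1 (hb : ClassW b) (hL : Loc b zs) (hX : LocX b zs) (hP : LocP b zs)
    (hN : Mid13 b zs) (hy : Mx b zs y)
    (hpos : ∀ h : Fin M, 0 < y (.inl (.inl h))) (hF : Flr b y F1) (hC : Cap b y C1)
    (hS : Sum1 b y (95 / 100))
    (h12 : ∀ {h h' : Fin M} {i j j' : Fin (M + 1)} {p : Fin 3}, Adj h i p j → Adj h' i p.rev j' →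
      clsW b i = .one → clsW b j = .two → clsW b j' ≠ .ring → y (.inl (.inl h)) ≤ 535 / 1000)
    (h2e : ∀ {h : Fin M} {i j : Fin (M + 1)} {p : Fin 3}, Adj h i p j → clsW b i = .one →
      clsW b j = .twoE → y (.inl (.inl h)) ≤ 35 / 100)
    (A : Adj h i 2 j) (A3 : Adj h3 j 2 k) (hi : clsW b i = .one) (hj : clsW b j = .three)
    (hw1 : y (.inl (.inl h3)) ≤ 39 / 100)
    (hw2 : clsW b k ≠ .one → y (.inl (.inl h3)) ≤ 31 / 100)
    (htE : ∀ {h' : Fin M} {j' : Fin (M + 1)}, Adj h' i 0 j' → clsW b j' = .twoE →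
      clsW b k = .one → -80 / 1000 ≤ hI zs hj) :
    y (.inl (.inl h)) ≤ 47 / 100 ∧ (clsW b k ≠ .one → y (.inl (.inl h)) ≤ 46 / 100) :=
  cap13 hb hL hX hP hy hpos hF hC hS h12 h2e A A3 hi hj hw1 hw2
    (fun h5 => by
      have := hlow13 hb hL hX hN hy hpos hF hS A A3 hi hj hw1 h5
      linarith only [h5, this])
    (fun A' hj' => endE hb hL hX hN hy hpos hF hS h2e A A' A3 hi hj hj' (htE A' hj') hw1 hw2)

end HX

end Pool.Agent.Work.MP_b30479_gt.G2
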