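import Pool.Agent.Work.MP_b30479_gt.G2.SWordD

/-!
# The saddle point structure of a word
-/

namespace Pool.Agent.Work.MP_b30479_gt.G2

open Complex Set Filter Topology VOL
open scoped ComplexConjugate

lemma sinh_cosh_of {P R τ c : ℂ} (h1 : cexp P = (R + τ) * c) (h2 : cexp (-P) = (R - τ) * c) :
    Complex.sinh P * R = Complex.cosh P * τ := by
  rw [Complex.sinh, Complex.cosh, h1, h2]
  ring

lemma exp_P {s : ℝ} (hs : s = 1 ∨ s = -1) {w k : ℂ} (hR : 0 < (RR w k).re) (h0 : 0 ≤ w.re)
    (h1 : w.re ≤ 3 / 2) (hk : 0 < k.re) :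
    cexp (-(s : ℂ) * QQ w k) = (RR w k + -(s : ℂ) * Complex.tan w) * k ∧
      cexp (-(-(s : ℂ) * QQ w k)) = (RR w k - -(s : ℂ) * Complex.tan w) * k := by
  obtain ⟨e1, e2⟩ := exp_QQ hR h0 h1 hk
  rcases hs with rfl | rfl
  · rw [show -((1 : ℝ) : ℂ) * QQ w k = -QQ w k by push_cast; ring, neg_neg, e1, e2]
    push_cast
    constructor <;> ring
  · rw [show -((-1 : ℝ) : ℂ) * QQ w k = QQ w k by push_cast; ring, e1, e2]
    push_cast
    constructor <;> ring

lemma P_unsplit {s : ℝ} (hs : s = 1 ∨ s = -1) {w k : ℂ} (hR : 0 < (RR w k).re) (h0 : 0 ≤ w.re)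
    (h1 : w.re ≤ 3 / 2) (hk : 0 < k.re) :
    Complex.sinh (-(s : ℂ) * QQ w k) * RR w k =
      Complex.cosh (-(s : ℂ) * QQ w k) * (-(s : ℂ) * Complex.tan w) := by
  obtain ⟨e1, e2⟩ := exp_P hs hR h0 h1 hk
  exact sinh_cosh_of e1 e2

lemma P_split {s : ℝ} (hs : s = 1 ∨ s = -1) {w k : ℂ} (hR : 0 < (RR w k).re) (h0 : 0 ≤ w.re)
    (h1 : w.re ≤ 3 / 2) (hk : 0 < k.re) (hc : Complex.cos w ≠ 0)
    (hj : RR w k + s * I ≠ 0) :
    Complex.sinh (-(s : ℂ) * QQ w k + I * w) * Rs (s * I) (RR w k) (-(s : ℂ) * Complex.tan w) =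
      Complex.cosh (-(s : ℂ) * QQ w k + I * w) * (-(s : ℂ) * Complex.tan w) := by
  obtain ⟨e1, e2⟩ := exp_P hs hR h0 h1 hk
  obtain ⟨f1, f2⟩ := exp_I_mul hc
  have hj2 : ((s : ℂ) * I) * (s * I) = -1 := by
    rcases hs with rfl | rfl
    · push_cast
      linear_combination Complex.I_sq
    · push_cast
      linear_combination Complex.I_sq
  have hj0 : (s : ℂ) * I ≠ 0 := by
    intro h
    rw [h, zero_mul] at hj2
    norm_num at hj2
  have hs2 : (s : ℂ) * s = 1 := by
    rcases hs with rfl | rfl <;> norm_num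
  have a1 := Rs_add (τ := -(s : ℂ) * Complex.tan w) hj2 hj
  have a2 := Rs_sub (τ := -(s : ℂ) * Complex.tan w) hj2 hj
  have h5 : (s * I / (RR w k + s * I)) * ((RR w k + s * I) / (s * I)) = 1 := by
    rw [div_mul_div_cancel₀ hj, div_self hj0]
  refine sinh_cosh_of (c := k * Complex.cos w * ((RR w k + s * I) / (s * I))) ?_ ?_
  · rw [Complex.exp_add, e1, f1, a1]
    linear_combination (-(RR w k + -(s : ℂ) * Complex.tan w) * k * Complex.cos w *
      (1 - s * I * (-(s : ℂ) * Complex.tan w))) * h5 -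
      ((RR w k + -(s : ℂ) * Complex.tan w) * k * Complex.cos w * I * Complex.tan w) * hs2
  · rw [neg_add, Complex.exp_add, e2, f2, a2]
    linear_combination (-(RR w k - -(s : ℂ) * Complex.tan w) * k * Complex.cos w *
      (1 + s * I * (-(s : ℂ) * Complex.tan w))) * h5 +
      ((RR w k - -(s : ℂ) * Complex.tan w) * k * Complex.cos w * I * Complex.tan w) * hs2

namespace SR

variable {M : ℕ} {b : Fin (M + 1) → ℤ} {w : ℕ → ℂ}

variable (hb : ClassW b) (F : RingFacts) (hw : Sol b w)
include hb F hw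

lemma pR {n : ℕ} (hn : n < M) (hu : us b n = false) :
    Complex.sinh (PR b w n) * Rh b w n = Complex.cosh (PR b w n) * tau b w n := by
  have h1' := rn_spec hb hn hu
  have hR : 0 < (RR (w n) (Complex.cos (w (rn b n)))).re := R0_re hw hn hu
  have hk := cos_re F hw h1'.2.1 h1'.2.2.1
  have hc := cos_ne F hw hn.le hu
  unfold PR
  by_cases h3 : us b (n + 1) = true
  · rw [Rh_true h3, if_pos h3]
    have := P_split (sg_or (b := b) n) hR (hw.re0 n hn.le hu).le (hw.re1 n hn.le hu).le hk hc
      (by rw [← jj_sg]; exact R0_add_ne hw hn hu _)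
    rw [← jj_sg] at this
    exact this
  · rw [if_neg h3]
    rw [Bool.not_eq_true] at h3
    rw [Rh_false h3 hu, add_zero]
    exact P_unsplit (sg_or (b := b) n) hR (hw.re0 n hn.le hu).le (hw.re1 n hn.le hu).le hk

lemma pL {n : ℕ} (h0 : 0 < n) (hn : n ≤ M) (hu : us b n = false) :
    Complex.sinh (PL b w n) * Rh b w (n - 1) = Complex.cosh (PL b w n) * tau b w n := by
  have h1 := ln_spec hb h0 hu
  have hlh := left_hinge hb F hw h0 hn hu
  have hR : 0 < (RR (w n) (Complex.cos (w (ln b n)))).re := by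
    rw [hlh]
    exact R0_re hw (by omega) h1.2.1
  have hk := cos_re F hw (by omega : ln b n ≤ M) h1.2.1
  have hc := cos_ne F hw hn hu
  unfold PL
  by_cases h3 : us b (n - 1) = true
  · obtain ⟨m, rfl⟩ : ∃ m, n = m + 2 := ⟨n - 2, by have := us_lt hb h3; omega⟩
    have h3' := h3
    rw [show m + 2 - 1 = m + 1 by omega] at h3'
    have hl : ln b (m + 2) = m := by
      unfold ln
      rw [show m + 2 - 1 = m + 1 by omega, h3']
      simp
    rw [if_pos h3, show m + 2 - 1 = m + 1 by omega, Rh_left h3']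
    have := P_split (sg_or (b := b) (m + 2)) hR (hw.re0 _ hn hu).le (hw.re1 _ hn hu).le hk hc
      (by rw [← jj_sg, hlh]; exact R0_add_ne hw (by omega) h1.2.1 _)
    rw [← jj_sg, hlh] at this
    rw [hl] at this ⊢
    exact this
  · rw [if_neg h3]
    rw [Bool.not_eq_true] at h3
    have hl : ln b n = n - 1 := by
      unfold ln
      rw [h3]
      simp
    have := P_unsplit (sg_or (b := b) n) hR (hw.re0 n hn hu).le (hw.re1 n hn hu).le hk
    rw [hlh] at this
    rw [hl] at this ⊢
    rw [Rh_false (n := n - 1) (by rwa [show n - 1 + 1 = n by omega]) h3, add_zero]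
    exact this

variable (L : LocOK b w)
include L

/-- the inner variables -/
theorem mid_all (hM : 1 ≤ M) (i : Fin (M + 1)) (hm : (tyW b i).isMid = true) :
    ldT (tyW b i) (b i) (fl i) (fr i) (xx (tyW b) i (zsW b w)) 1 = 0 := by
  have hstr : ∀ z : ℂ, 0 < z.re → z.re < 1 → z ∈ strip := fun z h1 h2 => ⟨h1, h2⟩
  obtain ⟨_, s1, s2⟩ := side_all hb F hw L hM i
  have hrun := L.run i
  have h3 : (b i).natAbs = 3 := by
    unfold tyW at hm
    split_ifs at hm with h1 h2 h3 h4
    · exact absurd hm (by decide)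
    · exact absurd hm (by decide)
    · exact h3
    · exact h3
    · exact absurd hm (by decide)
  have hm1 := (ctg_mid L h3).2
  by_cases ht : tyW b i = .threeL
  · have m1 := L.midL i ht
    have s3 := s1 ht
    rw [ht] at hrun ⊢
    cases hl : fl i <;> cases hr : fr i <;> rw [hl, hr] at hrun s3 <;>
      simp only [RunOk] at hrun
    · obtain ⟨r0', r1, r2, r3, r4⟩ := hrun
      have r5 : (xx (tyW b) i (zsW b w) 2).re = 0 := by rw [r0']; simp
      refine mid_zeroL (hstr _ (by linarith only [r1, r3]) hm1) (hstr _ (by rw [Complex.sub_re]; linarith only [r3])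
        (by rw [Complex.sub_re]; linarith only [hm1, r1])) (hstr _ (by rw [Complex.add_re]; linarith only [r1, r3, r5])
        (by rw [Complex.add_re]; linarith only [hm1, r5])) s3 m1.1 m1.2
    · obtain ⟨g1, g2, g3, g4, g5, g6, g7⟩ := hrun
      refine mid_zeroL (hstr _ (by linarith only [g4, g5, g1.1, g1.2.2.1]) hm1)
        (hstr _ (by rw [Complex.sub_re]; exact g1.2.2.1)
          (by rw [Complex.sub_re]; linarith only [g3, g4, g1, g1.2.2.2.1])) (hstr _ (by rw [Complex.add_re]; linarith only [g3, g4, g5])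
        (by rw [Complex.add_re]; linarith only [g6])) s3 m1.1 m1.2
  · have ht' : tyW b i = .threeR := by
      unfold tyW at ht ⊢
      rw [h3] at ht ⊢
      norm_num at ht ⊢
      exact fun h => absurd ht.1 h
    have m1 := L.midR i ht'
    have s3 := s2 ht'
    rw [ht'] at hrun ⊢
    cases hl : fl i <;> cases hr : fr i <;> rw [hl, hr] at hrun s3 <;>
      simp only [RunOk] at hrun
    · obtain ⟨r0', r1, r2, r3, r4⟩ := hrun
      have r5 : (xx (tyW b) i (zsW b w) 0).re = 0 := by rw [r0']; simp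
      refine mid_zeroR (hstr _ (by linarith only [r1, r3]) hm1) (hstr _ (by rw [Complex.sub_re]; linarith only [r3])
        (by rw [Complex.sub_re]; linarith only [hm1, r1])) (hstr _ (by rw [Complex.add_re]; linarith only [r1, r3, r5])
        (by rw [Complex.add_re]; linarith only [hm1, r5])) s3 m1.1 m1.2
    · obtain ⟨g1, g2, g3, g4, g5, g6, g7⟩ := hrun
      refine mid_zeroR (hstr _ (by linarith only [g4, g5, g1.1, g1.2.2.1]) hm1)
        (hstr _ (by rw [Complex.sub_re]; exact g1.2.2.1)
          (by rw [Complex.sub_re]; linarith only [g3, g4, g1, g1.2.2.2.1])) (hstr _ (by rw [Complex.add_re]; linarith only [g3, g4, g5])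
        (by rw [Complex.add_re]; linarith only [g6])) s3 m1.1 m1.2

/-- the ring variables -/
theorem ring_all (i : Fin (M + 1)) (hm : (tyW b i).isRing = true) :
    ldT (tyW b i) (b i) (fl i) (fr i) (xx (tyW b) i (zsW b w)) 1 +
      2 * Real.pi * Complex.I * (b i * xx (tyW b) i (zsW b w) 1 + 1) = 0 := by
  have hpi' : (Real.pi : ℂ) ≠ 0 := by exact_mod_cast Real.pi_pos.ne'
  have hstr : ∀ z : ℂ, 0 < z.re → z.re < 1 → z ∈ strip := fun z h1 h2 => ⟨h1, h2⟩
  have hiM' := i.2
  have hrun := L.run i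
  have h4 : 4 ≤ (b i).natAbs := by
    have h0 := hb.ne i
    unfold tyW at hm
    split_ifs at hm with h1 h2 h3 h4
    · exact absurd hm (by decide)
    · exact absurd hm (by decide)
    · exact absurd hm (by decide)
    · exact absurd hm (by decide)
    · omega
  have h4' : 4 ≤ (bb b i.val).natAbs := by rw [bb_val]; exact h4
  have hu : us b i.val = false := us_of_abs (by omega)
  have ht : tyW b i = .ring := by
    unfold tyW
    rw [if_neg (by omega), if_neg (by omega), if_neg (by omega)]
  have hx1 := x_ring (w := w) hm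
  have hc := cos_ne F hw (n := i.val) (by omega) hu
  have hbs : (b i : ℂ) * sg b i.val = ((b i).natAbs : ℂ) := by
    have h0 := hb.ne i
    unfold sg
    rw [bb_val]
    rcases lt_or_gt_of_ne h0 with h5 | h5
    · rw [if_neg (by omega)]
      have h6 : ((b i).natAbs : ℤ) = -(b i) := by omega
      have h7 : ((b i).natAbs : ℂ) = (((b i).natAbs : ℤ) : ℂ) := (Int.cast_natCast _).symm
      rw [h7, h6]
      push_cast
      ring
    · rw [if_pos h5]
      have h6 : ((b i).natAbs : ℤ) = b i := by omega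
      have h7 : ((b i).natAbs : ℂ) = (((b i).natAbs : ℤ) : ℂ) := (Int.cast_natCast _).symm
      rw [h7, h6]
      push_cast
      ring
  have hz : (b i : ℂ) * (-(sg b i.val : ℂ) * w i.val / Real.pi) =
      -((b i).natAbs : ℂ) * w i.val / Real.pi := by
    rw [← hbs]
    ring
  have hkz : ∀ {x : ℂ}, KZ x (xx (tyW b) i (zsW b w) 1) → x ∈ strip ∧
      1 / 2 + x + xx (tyW b) i (zsW b w) 1 ∈ strip ∧
      1 / 2 + x - xx (tyW b) i (zsW b w) 1 ∈ strip := by
    rintro x ⟨k1, k2, _⟩
    have := abs_le.1 (le_refl |(xx (tyW b) i (zsW b w) 1).re|)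
    refine ⟨hstr _ k1 (by linarith only [k1, k2, this, abs_nonneg (xx (tyW b) i (zsW b w) 1).re]), hstr _ ?_ ?_,
      hstr _ ?_ ?_⟩
    · simp only [Complex.add_re, Complex.one_re, Complex.div_ofNat_re]
      linarith only [k1, k2, this, this.1]
    · simp only [Complex.add_re, Complex.one_re, Complex.div_ofNat_re]
      linarith only [k2, this, this.2]
    · simp only [Complex.add_re, Complex.sub_re, Complex.one_re, Complex.div_ofNat_re]
      linarith only [k1, k2, this, this.2]
    · simp only [Complex.add_re, Complex.sub_re, Complex.one_re, Complex.div_ofNat_re]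
      linarith only [k2, this, this.1]
  have hsin : Complex.sin (Real.pi * xx (tyW b) i (zsW b w) 1) =
      tau b w i.val * Complex.cos (w i.val) := by
    rw [hx1, sin_ring]
    unfold tau
    rw [mul_assoc, Complex.tan_mul_cos hc]
  have hcos : Complex.cos (Real.pi * xx (tyW b) i (zsW b w) 1) = Complex.cos (w i.val) := by
    rw [hx1, cos_ring]
  rw [ht] at hrun ⊢
  rw [ldT_ring_one]
  simp only [RunOk] at hrun
  obtain ⟨h00, hl, hr⟩ := hrun
  -- the two sides
  have eL : 0 < i.val → ph (1 / 2 + xx (tyW b) i (zsW b w) 0 + xx (tyW b) i (zsW b w) 1) -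
      ph (1 / 2 + xx (tyW b) i (zsW b w) 0 - xx (tyW b) i (zsW b w) 1) = -2 * PL b w i.val := by
    intro h
    have hfl : fl i = true := by
      have : i ≠ 0 := fun h2 => by rw [h2] at h; simp at h
      simp [fl, this]
    obtain ⟨k1, k2, k3⟩ := hkz (hl hfl).1
    refine ring_mid k1 k2 k3 ?_ (L.pl i.val h (by omega) h4')
    rw [hcos, hsin, ctg_left L h]
    linear_combination Complex.cos (w i.val) * pL hb F hw h (by omega) hu
  have eR : i.val < M → ph (1 / 2 + xx (tyW b) i (zsW b w) 2 + xx (tyW b) i (zsW b w) 1) -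
      ph (1 / 2 + xx (tyW b) i (zsW b w) 2 - xx (tyW b) i (zsW b w) 1) = -2 * PR b w i.val := by
    intro h
    have hfr : fr i = true := by
      have : i ≠ Fin.last M := fun h2 => by rw [h2] at h; simp at h
      simp [fr, this]
    obtain ⟨k1, k2, k3⟩ := hkz (hr hfr).1
    refine ring_mid k1 k2 k3 ?_ (L.pr i.val h h4')
    rw [hcos, hsin, ctg_right L h]
    linear_combination Complex.cos (w i.val) * pR hb F hw h hu
  have hBB : (BB b i.val : ℂ) = ((b i).natAbs : ℂ) + (if us b (i.val - 1) then 1 else 0) +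
      (if us b (i.val + 1) then 1 else 0) := by
    unfold BB
    rw [bb_val]
    cases us b (i.val - 1) <;> cases us b (i.val + 1) <;> push_cast <;> simp
  by_cases hi0 : i.val = 0
  · have hfl : fl i = false := by
      have : i = 0 := Fin.ext hi0
      simp [fl, this]
    by_cases hiM : i.val = M
    · have hfr : fr i = false := by
        have : i = Fin.last M := Fin.ext hiM
        simp [fr, this]
      exfalso
      rw [hfl, hfr] at h00
      rcases h00 with h | h <;> exact absurd h (by decide)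
    · have hfr : fr i = true := by
        have : i ≠ Fin.last M := fun h2 => hiM (by rw [h2]; simp)
        simp [fr, this]
      have hf := hw.first
      rw [hfl, hfr, if_neg (by simp), if_pos rfl, eR (by omega), hx1, hz]
      have hu0 : us b (i.val - 1) = false := by
        rw [hi0]
        rfl
      rw [hu0] at hBB
      unfold PR
      rw [← hi0] at hf
      rw [hBB] at hf
      cases h5 : us b (i.val + 1) <;> rw [h5] at hf <;> simp at hf ⊢ <;> field_simp <;>
        linear_combination (-2 * I) * hf +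
          (2 * sg b i.val * QQ (w i.val) (Complex.cos (w (rn b i.val)))) * Complex.I_sq
  · have hfl : fl i = true := by
      have : i ≠ 0 := fun h2 => hi0 (by rw [h2]; simp)
      simp [fl, this]
    by_cases hiM : i.val = M
    · have hfr : fr i = false := by
        have : i = Fin.last M := Fin.ext hiM
        simp [fr, this]
      have hf := hw.last
      have hf2 : (BB b i.val : ℂ) * w i.val - Real.pi + I * sg b i.val *
          QQ (w i.val) (Complex.cos (w (ln b i.val))) = 0 := by
        rw [hiM]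
        exact hf
      have hu0 : us b (i.val + 1) = false := by
        by_contra hc
        rw [Bool.not_eq_false] at hc
        have := us_lt hb hc
        omega
      rw [hfl, hfr, if_pos rfl, if_neg (by simp), eL (by omega), hx1, hz]
      rw [hu0] at hBB
      unfold PL
      rw [hBB] at hf2
      cases h5 : us b (i.val - 1) <;> rw [h5] at hf2 <;> simp at hf2 ⊢ <;> field_simp <;>
        linear_combination (-2 * I) * hf2 +
          (2 * sg b i.val * QQ (w i.val) (Complex.cos (w (ln b i.val)))) * Complex.I_sq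
    · have hfr : fr i = true := by
        have : i ≠ Fin.last M := fun h2 => hiM (by rw [h2]; simp)
        simp [fr, this]
      have hf := hw.inner i.val (by omega) (by omega) hu
      rw [hfl, hfr, if_pos rfl, if_pos rfl, eL (by omega), eR (by omega), hx1, hz]
      unfold PL PR
      rw [hBB] at hf
      cases h5 : us b (i.val - 1) <;> cases h6 : us b (i.val + 1) <;> rw [h5, h6] at hf <;>
        simp at hf ⊢ <;> field_simp <;> linear_combination (-2 * I) * hf +
          (2 * sg b i.val * (QQ (w i.val) (Complex.cos (w (ln b i.val))) +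
            QQ (w i.val) (Complex.cos (w (rn b i.val))))) * Complex.I_sq

/-- **The saddle point structure of a word** from the location of the saddle point. -/
theorem sadl_word (hM : 1 ≤ M) {P : Par (DD (tyW b))}
    {nb : Finset (DD (tyW b)) → Finset (DD (tyW b) ⊕ ZZ (tyW b))}
    (hpar : ∀ i, 0 < P.XM i ∧ P.XM i ≤ 1 ∧ 0 < P.cl i ∧ 0 < P.cr i ∧ P.cl i + P.cr i < P.XM i ∧
      0 < P.hu i ∧ 0 < P.hd i)
    (hnb : nb ∅ = ∅) (hnb' : ∀ R : Finset (DD (tyW b)), ∀ i ∈ R, .inl i ∈ nb R)
    (hD : ∀ i, P.cl i < (zsW b w (.inl i)).re ∧ (zsW b w (.inl i)).re < P.XM i - P.cr i)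
    (hZ : ∀ v, |(zsW b w (.inr v)).re| < 1 / 4 ∧ 0 < (zsW b w (.inr v)).im)
    (hdom : (∀ k, 0 < ((wdat (tyW b) b).form k (zsW b w)).re ∧
        ((wdat (tyW b) b).form k (zsW b w)).re < 1) →
      (∀ i, (wdat (tyW b) b).dT (zsW b w) i = 0) →
      (∀ X : DD (tyW b) ⊕ ZZ (tyW b) → ℝ, X ≠ 0 →
        ((wdat (tyW b) b).Q2 (zsW b w) X).re < 0) →
      ∀ R : Finset (DD (tyW b)), (∀ i ∈ R, P.XM i < 1) →
      ∀ (y : DD (tyW b) ⊕ ZZ (tyW b) → ℂ) (p : DD (tyW b) → ℝ),
      Adm (wdat (tyW b) b) P (zsW b w) R (nb R) y p → (R = ∅ → p = 0 → y ≠ zsW b w) →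
      (wdat (tyW b) b).V y - 2 * Real.pi * ∑ i, p i < ((wdat (tyW b) b).T (zsW b w)).re) :
    Sadl (wdat (tyW b) b) P nb (zsW b w) := by
  refine sadl_of (q := fun i => qv b w i.val) (fun i => qv_ne hb F hw L (by have := i.2; omega))
    L.run (fun i => (side_all hb F hw L hM i).1) ?_ ?_ ?_ hpar hnb hnb' hD hZ hdom
  · intro h
    obtain ⟨h1, h2⟩ := L.hinge h.val h.2
    have e : ctg (zsW b w (.inl (.inl h))) = Rh b w h.val := (acot2_spec h1 h2).1
    rw [e]
    exact hinge_rel hb F hw h.2
  · intro m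
    exact mid_all hb F hw L hM m.1 m.2
  · intro v
    have e : zsW b w (.inr v) = xx (tyW b) v.1 (zsW b w) 1 := (xx_ring (tyW b) v.2 _).symm
    rw [e]
    exact ring_all hb F hw L v.1 v.2

end SR

end Pool.Agent.Work.MP_b30479_gt.G2
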