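import Pool.Agent.Work.MP_b30479_gt.G2.SPosD
import Pool.Agent.Work.MP_b30479_gt.G2.SWMain
import Pool.Agent.Work.MP_b30479_gt.G2.GeoRun
import Pool.Agent.Work.MP_b30479_gt.G2.SWordE

/-!
# From the layers of the rings to the chains of the gluing equations
-/

namespace Pool.Agent.Work.MP_b30479_gt.G2

open Complex

/-! ### the chain of a ring -/

/-- `U_l = - v_(l+1) / v_(l-1)` -/
theorem chain_v {κ R : ℂ} {v U : ℕ → ℂ} (hκ : κ ≠ 0)
    (hadd : ∀ l, v (l + 2) + v l = 2 * κ * v (l + 1))
    (hmul : ∀ l, v (l + 2) * v l = v (l + 1) ^ 2 - 1) (hR1 : R ≠ I) (hR2 : R ≠ -I)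
    (h0 : U 0 = (R + I) / (R - I)) (h1 : 1 - U 1 = κ ^ 2 * (1 + R ^ 2) * (1 - U 0))
    (hrel : v 1 = -(I * κ * v 0 * (R + I))) {d : ℕ} (hv : ∀ l < d, v l ≠ 0)
    (hv2 : ∀ l, 1 ≤ l → l + 1 < d → v l ^ 2 ≠ 1)
    (edge : ∀ l, l + 2 ≤ d → (U (l + 2) - U (l + 1)) * U l = -(U (l + 1) - U l)) :
    ∀ l, l + 1 ≤ d → (1 - U (l + 1)) * v l = 2 * κ * v (l + 1) ∧
      1 - U (l + 1) = (1 - (v l ^ 2)⁻¹) * (1 - U l) ∧ 1 - U l ≠ 0 := by
  have hR1' : R - I ≠ 0 := sub_ne_zero.2 hR1
  have hR2' : R + I ≠ 0 := fun h => hR2 (by linear_combination h)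
  have hI := Complex.I_sq
  have hR : 1 + R ^ 2 ≠ 0 := by
    have : 1 + R ^ 2 = (R - I) * (R + I) := by linear_combination hI
    rw [this]
    exact mul_ne_zero hR1' hR2'
  have quad : ∀ l, v (l + 1) ^ 2 + v l ^ 2 - 2 * κ * v l * v (l + 1) = 1 := by
    intro l
    linear_combination (v l) * hadd l - hmul l
  have hq0 : v 0 ^ 2 * (1 - κ ^ 2 * (1 + R ^ 2)) = 1 := by
    have h := quad 0
    rw [zero_add, hrel] at h
    linear_combination h - (v 0 ^ 2 * κ ^ 2 * (R ^ 2 + 2 * R * I + 1 + I ^ 2)) * hI
  have hs0 : ∀ l, l + 1 < d → v l ^ 2 - 1 ≠ 0 := by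
    intro l hl h
    rcases Nat.eq_zero_or_pos l with rfl | hl0
    · have h2 : v 0 ^ 2 = 1 := by linear_combination h
      rw [h2, one_mul] at hq0
      have h3 : κ ^ 2 * (1 + R ^ 2) = 0 := by linear_combination -hq0
      exact mul_ne_zero (pow_ne_zero 2 hκ) hR h3
    · exact hv2 l hl0 hl (by linear_combination h)
  intro l
  induction l with
  | zero =>
    intro hl
    have hv0 := hv 0 (by omega)
    have e0 : 1 - U 0 = -(2 * I) / (R - I) := by
      rw [h0]
      field_simp
      ring
    refine ⟨?_, ?_, ?_⟩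
    · rw [zero_add, h1, e0, hrel]
      field_simp
      linear_combination (-1 : ℂ) * hI
    · rw [zero_add, h1]
      congr 1
      field_simp
      linear_combination -hq0
    · rw [e0]
      exact div_ne_zero (by simp) hR1'
  | succ l ih =>
    intro hl
    obtain ⟨i1, i2, i3⟩ := ih (by omega)
    have a0 := hv l (by omega)
    have c0 := hv (l + 1) (by omega)
    have s0 := hs0 l (by omega)
    have he := edge l (by omega)
    have hq := quad l
    have hm := hmul l
    have ha := hadd l
    -- `U_l = - c² / (a² - 1)`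
    have x1 : 1 - U (l + 1) = 2 * κ * v (l + 1) / v l := by
      rw [eq_div_iff a0]
      exact i1
    have x0 : 1 - U l = 2 * κ * v (l + 1) * v l / (v l ^ 2 - 1) := by
      rw [eq_div_iff s0]
      have h3 : (1 - U (l + 1)) * v l ^ 2 = (v l ^ 2 - 1) * (1 - U l) := by
        rw [i2]
        field_simp
      linear_combination -h3 + (v l) * i1
    have u0 : U l = -(v (l + 1) ^ 2 / (v l ^ 2 - 1)) := by
      have : U l = 1 - (1 - U l) := by ring
      rw [this, x0]
      field_simp
      linear_combination hq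
    have u0' : U l ≠ 0 := by
      rw [u0]
      exact neg_ne_zero.2 (div_ne_zero (pow_ne_zero 2 c0) s0)
    have x2 : 1 - U (l + 2) = 2 * κ * v (l + 2) / v (l + 1) := by
      have h4 : U (l + 2) - U (l + 1) = -(U (l + 1) - U l) / U l := by
        rw [eq_div_iff u0']
        exact he
      have h5 : 1 - U (l + 2) = (1 - U (l + 1)) + ((1 - U l) - (1 - U (l + 1))) / U l := by
        have : 1 - U (l + 2) = (1 - U (l + 1)) - (U (l + 2) - U (l + 1)) := by ring
        rw [this, h4]
        ring
      rw [h5, x1, x0, u0]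
      have h6 : v (l + 2) = (v (l + 1) ^ 2 - 1) / v l := by
        rw [eq_div_iff a0]
        exact hm
      rw [h6]
      field_simp
      ring
    have y1 : 1 - U (l + 1) ≠ 0 := by
      rw [x1]
      exact div_ne_zero (mul_ne_zero (mul_ne_zero two_ne_zero hκ) c0) a0
    refine ⟨?_, ?_, y1⟩
    · rw [show l + 1 + 1 = l + 2 by ring, x2]
      field_simp
    · rw [show l + 1 + 1 = l + 2 by ring, x2, x1]
      field_simp
      linear_combination hm

/-! ### the hinges -/

/-- the hinge between two rings -/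
lemma OwnP.hrel0 {W K : ℂ} (h : OwnP W K) :
    vv W K 1 = -(I * Complex.cos W * vv W K 0 * (RR W K + I)) := by
  have hc := h.cne
  rw [h.v1, h.v0]
  field_simp
  linear_combination (K * (RR W K + I)) * Complex.I_sq

/-- the hinge next to an absorbed digit -/
lemma OwnP.hrel1 {W K : ℂ} (h : OwnP W K) (hR : RR W K + I ≠ 0) :
    vv W K 2 = -(I * Complex.cos W * vv W K 1 * (Rs I (RR W K) (Complex.tan W) + I)) := by
  have hc := h.cne
  have h2 := vv_add W K 0
  rw [zero_add, zero_add] at h2
  have h3 : vv W K 2 = 2 * Complex.cos W * vv W K 1 - vv W K 0 := by linear_combination h2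
  have hT := one_add_tan_sq hc
  have h4 : I * K / Complex.cos W = I * K * Complex.cos W * (1 + Complex.tan W ^ 2) := by
    rw [hT]
    field_simp
  rw [h3, h.v1, h.v0, h4]
  unfold Rs
  field_simp
  ring_nf
  simp only [show I ^ 3 = -I by rw [pow_succ, I_sq]; ring, I_sq]
  ring

/-- the shape of the layer at the hinge -/
lemma sig_v {κ R v0 v1 v2 : ℂ} (hadd : v2 + v0 = 2 * κ * v1) (hmul : v2 * v0 = v1 ^ 2 - 1)
    (hrel : v1 = -(I * κ * v0 * (R + I))) : κ ^ 2 * (1 + R ^ 2) = 1 - (v0 ^ 2)⁻¹ := by
  have hI := Complex.I_sq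
  have h : v0 ^ 2 * (1 - κ ^ 2 * (1 + R ^ 2)) = 1 := by
    have h : v1 ^ 2 + v0 ^ 2 - 2 * κ * v0 * v1 = 1 := by
      linear_combination v0 * hadd - hmul
    rw [hrel] at h
    linear_combination h - (v0 ^ 2 * κ ^ 2 * (R ^ 2 + 2 * R * I + 1 + I ^ 2)) * hI
  have h1 := eq_inv_of_mul_eq_one_right h
  linear_combination -h1

lemma cjz_jj (s : ℤ) : cjz s (jj s) = I := by
  by_cases h : 0 < s
  · rw [cjz_pos h, jj, if_pos h, one_mul]
  · rw [cjz_neg h, jj, if_neg h, neg_one_mul, map_neg, conj_I, neg_neg]

lemma cjz_hat {s : ℤ} {R : ℂ} : cjz s (hat s ((R + I) / (R - I))) = (cjz s R + I) / (cjz s R - I) := by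
  by_cases h : 0 < s
  · rw [cjz_pos h, cjz_pos h, hat, if_pos h]
  · rw [cjz_neg h, cjz_neg h, hat, if_neg h, inv_div, map_div₀, map_add, map_sub, conj_I, sub_neg_eq_add, ← sub_eq_add_neg]

/-- the chain in the own frame, first step -/
lemma base_own {s : ℤ} {R κ u : ℂ} (hκ : κ ≠ 0) (h1 : R ≠ I) (h2 : R ≠ -I)
    (hu : hf s ((R + I) / (R - I)) u = (1 + R ^ 2) / (1 / κ ^ 2) - 1) :
    1 - cjz s u = (cjz s κ) ^ 2 * (1 + (cjz s R) ^ 2) * (1 - cjz s (hat s ((R + I) / (R - I)))) := by
  have h1' : R - I ≠ 0 := sub_ne_zero.2 h1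
  have h2' : R + I ≠ 0 := fun h => h2 (by linear_combination h)
  have hn : hat s ((R + I) / (R - I)) - 1 ≠ 0 := by
    by_cases h : 0 < s
    · rw [hat, if_pos h, div_sub_one h1']
      refine div_ne_zero ?_ h1'
      rw [show R + I - (R - I) = 2 * I by ring]
      simp
    · rw [hat, if_neg h, inv_div, div_sub_one h2']
      refine div_ne_zero ?_ h2'
      rw [show R - I - (R + I) = -(2 * I) by ring]
      simp
  unfold hf at hu
  rw [div_eq_iff hn] at hu
  have h3 : 1 - u = κ ^ 2 * (1 + R ^ 2) * (1 - hat s ((R + I) / (R - I))) := by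
    have h4 : (1 + R ^ 2) / (1 / κ ^ 2) = κ ^ 2 * (1 + R ^ 2) := by field_simp
    rw [h4] at hu
    linear_combination -hu
  have h5 := congrArg (cjz s) h3
  simp only [map_mul, map_sub, map_add, map_one, map_pow] at h5
  exact h5

namespace SR

set_option linter.unusedSectionVars false

variable {M : ℕ} {b : Fin (M + 1) → ℤ} {w : ℕ → ℂ} (hb : ClassW b) (F : RingFacts) (hw : Sol b w)

section
include hb F hw

/-- the left hinge in the own frame -/
lemma hinge_ownL {n : ℕ} (h0 : 0 < n) (hn : n ≤ M) (hu : us b n = false) :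
    vv (qW b w n) (qL b w n) ((us b (n - 1)).toNat + 1) =
      -(I * Complex.cos (qW b w n) * vv (qW b w n) (qL b w n) (us b (n - 1)).toNat *
        (cjz (bb b n) (Rh b w (n - 1)) + I)) := by
  have ho := ownL hb hw h0 hn hu
  have h1 := ln_spec hb h0 hu
  have hlh := left_hinge hb F hw h0 hn hu
  have hR0 : 0 < (RR (w n) (Complex.cos (w (ln b n)))).re := by
    rw [hlh]
    exact R0_re hw (by omega) h1.2.1
  have hRR : cjz (bb b n) (R0 b w (ln b n)) = RR (qW b w n) (qL b w n) := by
    rw [← hlh, cjz_RR _ hR0]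
    rfl
  by_cases h3 : us b (n - 1) = true
  · obtain ⟨m, rfl⟩ : ∃ m, n = m + 2 := ⟨n - 2, by have := us_lt hb h3; omega⟩
    have h3' := h3
    rw [show m + 2 - 1 = m + 1 by omega] at h3'
    have hl : ln b (m + 2) = m := by
      unfold ln
      rw [show m + 2 - 1 = m + 1 by omega, h3']
      simp
    have hR1 : RR (qW b w (m + 2)) (qL b w (m + 2)) + I ≠ 0 := fun h => by
      have h4 := congrArg Complex.re h
      rw [add_re, I_re, zero_re, ← hRR, cjz_re, ← hlh] at h4
      linarith only [hR0, h4]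
    have h5 := ho.hrel1 hR1
    have h6 : cjz (bb b (m + 2)) (Rh b w (m + 1)) =
        Rs I (RR (qW b w (m + 2)) (qL b w (m + 2))) (Complex.tan (qW b w (m + 2))) := by
      rw [Rh_left h3', ← hRR, hl, Rs, Rs, map_div₀, map_add, map_add, map_mul, cjz_jj, map_pow, tau,
        map_mul, map_neg, cjz_ofReal, cjz_tan]
      have h7 : (-(sg b (m + 2) : ℂ) * Complex.tan (cjz (bb b (m + 2)) (w (m + 2)))) ^ 2 =
          Complex.tan (qW b w (m + 2)) ^ 2 := by
        rw [mul_pow, neg_sq, sg_sq, one_mul]
        rfl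
      rw [h7]
    rw [h3, show m + 2 - 1 = m + 1 by omega, h6]
    exact h5
  · rw [Bool.not_eq_true] at h3
    have hl : ln b n = n - 1 := by
      unfold ln
      rw [h3]
      simp
    have h6 : cjz (bb b n) (Rh b w (n - 1)) = RR (qW b w n) (qL b w n) := by
      rw [Rh_false (n := n - 1) (by rwa [show n - 1 + 1 = n by omega]) h3, ← hRR, hl]
    rw [h3, h6]
    exact ho.hrel0

/-- the right hinge in the own frame -/
lemma hinge_ownR {n : ℕ} (hn : n < M) (hu : us b n = false) :
    vv (qW b w n) (qR b w n) ((us b (n + 1)).toNat + 1) =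
      -(I * Complex.cos (qW b w n) * vv (qW b w n) (qR b w n) (us b (n + 1)).toNat *
        (cjz (bb b n) (Rh b w n) + I)) := by
  have ho := ownR hb hw hn hu
  have hR0 : 0 < (R0 b w n).re := R0_re hw hn hu
  have hRR : cjz (bb b n) (R0 b w n) = RR (qW b w n) (qR b w n) := cjz_RR _ hR0
  by_cases h3 : us b (n + 1) = true
  · have hR1 : RR (qW b w n) (qR b w n) + I ≠ 0 := fun h => by
      have h4 := congrArg Complex.re h
      rw [add_re, I_re, zero_re, ← hRR, cjz_re] at h4
      linarith only [hR0, h4]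
    have h5 := ho.hrel1 hR1
    have h6 : cjz (bb b n) (Rh b w n) =
        Rs I (RR (qW b w n) (qR b w n)) (Complex.tan (qW b w n)) := by
      rw [Rh_true h3, ← hRR, Rs, Rs, map_div₀, map_add, map_add, map_mul, cjz_jj, map_pow, tau,
        map_mul, map_neg, cjz_ofReal, cjz_tan]
      have h7 : (-(sg b n : ℂ) * Complex.tan (cjz (bb b n) (w n))) ^ 2 =
          Complex.tan (qW b w n) ^ 2 := by
        rw [mul_pow, neg_sq, sg_sq, one_mul]
        rfl
      rw [h7]
    rw [h3, h6]
    exact h5
  · rw [Bool.not_eq_true] at h3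
    rw [h3, Rh_false h3 hu, hRR]
    exact ho.hrel0

end

/-! ### the layers do not vanish -/

omit hb F hw in
lemma lp_ne {v : ℂ} (h : Lp v) : v ≠ 0 ∧ v ^ 2 ≠ 1 := by
  unfold Lp at h
  constructor
  · rintro rfl
    simp at h
  · intro h2
    rw [h2] at h
    simp at h

include hb hw

lemma vvL_ne {n : ℕ} (h0 : 0 < n) (hn : n ≤ M) (hu : us b n = false) {j : ℕ} (hj : j < BB b n) :
    vv (qW b w n) (qL b w n) j ≠ 0 := by
  have ho := ownL hb hw h0 hn hu
  rcases Nat.eq_zero_or_pos j with rfl | hj0
  · rw [ho.v0]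
    exact div_ne_zero (mul_ne_zero I_ne_zero ho.kne) ho.cne
  · rcases Nat.lt_or_ge n M with h | h
    · exact (lp_ne (lay_inner hb hw h0 h hu hj0 hj)).1
    · have : n = M := by omega
      by_cases h2 : j + 1 = BB b n
      · have he := eqM' hb hw this (by omega)
        rw [(vv_end ho he).2 j h2]
        exact one_ne_zero
      · subst this
        exact (lp_ne (lay_last hb hw (by omega) hj0 (by omega))).1

omit F in
lemma lay_last' {n : ℕ} (h : n = M) (hM : 1 ≤ M) {l : ℕ} (hl : 1 ≤ l) (hl' : l + 2 ≤ BB b n) :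
    Lp (vv (qW b w n) (qL b w n) l) := by
  subst h
  exact lay_last hb hw hM hl hl'

lemma vvR_ne (hM : 1 ≤ M) {j : ℕ} (hj : j < BB b 0) : vv (qW b w 0) (qR b w 0) j ≠ 0 := by
  have ho := ownR hb hw (by omega : 0 < M) rfl
  rcases Nat.eq_zero_or_pos j with rfl | hj0
  · rw [ho.v0]
    exact div_ne_zero (mul_ne_zero I_ne_zero ho.kne) ho.cne
  · by_cases h2 : j + 1 = BB b 0
    · have he := eqF hb hw hM
      rw [(vv_end ho he).2 j h2]
      exact one_ne_zero
    · exact (lp_ne (lay_first hb hw hM hj0 (by omega))).1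

end SR

/-! ### the word -/

lemma edges_all {M : ℕ} {b : Fin (M + 2) → ℤ} {Y : Fin (M + 1) → ℂ} {U : Fin (M + 2) → ℕ → ℂ}
    (hG : Glue b Y U) (i : Fin (M + 2)) (l : ℕ)
    (hl : l + (if i = 0 ∨ i = Fin.last (M + 1) then 3 else 2) ≤ (b i).natAbs) :
    (U i (l + 2) - U i (l + 1)) * U i l = -(U i (l + 1) - U i l) := by
  by_cases h0 : i = 0
  · rw [if_pos (Or.inl h0)] at hl
    subst h0
    exact hG.first.edge l (by omega)
  · by_cases h1 : i = Fin.last (M + 1)
    · rw [if_pos (Or.inr h1)] at hl
      subst h1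
      exact hG.last.edge l (by omega)
    · rw [if_neg (by tauto)] at hl
      obtain ⟨j, rfl⟩ := Fin.exists_succ_eq.2 h0
      have hj : j ≠ Fin.last M := fun h2 => h1 (by rw [h2]; rfl)
      obtain ⟨j', rfl⟩ := Fin.exists_castSucc_eq.2 hj
      exact (hG.mid j').edge l hl

lemma left_all {M : ℕ} {b : Fin (M + 2) → ℤ} {Y : Fin (M + 1) → ℂ} {U : Fin (M + 2) → ℕ → ℂ}
    (hG : Glue b Y U) (j : Fin (M + 1)) : U j.succ 0 = hat (b j.succ) (Y j) := by
  by_cases h1 : j = Fin.last M
  · subst h1
    exact hG.last.left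
  · obtain ⟨j', rfl⟩ := Fin.exists_castSucc_eq.2 h1
    exact (hG.mid j').left

lemma ee_ctg {z : ℂ} (h : Complex.sin (Real.pi * z) ≠ 0) :
    Pool.Agent.Work.MP_b30479_gt.LT.ee z = (ctg z + I) / (ctg z - I) := by
  have e1 : Complex.exp (2 * Real.pi * I * z) = Complex.exp (Real.pi * z * I) * Complex.exp (Real.pi * z * I) := by
    rw [← Complex.exp_add]
    congr 1
    ring
  have e2 : Complex.exp (Real.pi * z * I) = Complex.cos (Real.pi * z) + Complex.sin (Real.pi * z) * I :=
    Complex.exp_mul_I _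
  have e3 := Complex.sin_sq_add_cos_sq (Real.pi * z)
  unfold Pool.Agent.Work.MP_b30479_gt.LT.ee ctg
  rw [e1, e2]
  set S := Complex.sin (Real.pi * z)
  set C := Complex.cos (Real.pi * z)
  have h4 : C - S * I ≠ 0 := by
    intro h5
    have h6 : (C - S * I) * (C + S * I) = 1 := by
      linear_combination e3 - S ^ 2 * I_sq
    rw [h5, zero_mul] at h6
    exact zero_ne_one h6
  have h5 : C / S - I = (C - S * I) / S := by field_simp
  have h6 : C / S + I = (C + S * I) / S := by field_simp
  rw [h5, h6, div_div_div_cancel_right₀ h, eq_div_iff h4]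
  linear_combination (C + S * I) * (e3 - S ^ 2 * I_sq)

section
set_option linter.unusedSectionVars false
open SR VOL

variable {M : ℕ} {b : Fin (M + 2) → ℤ} {w : ℕ → ℂ} (hb : ClassW b) (F : RingFacts) (hw : Sol b w)
  (L : LocOK b w)

include L

/-- the shape at a turning point -/
lemma gY_word (j : Fin (M + 1)) :
    gY (tyW b) (zsW b w) j = (Rh b w j.val + I) / (Rh b w j.val - I) := by
  obtain ⟨h1, h2⟩ := L.hinge j.val j.2
  obtain ⟨h3, h4⟩ := acot2_spec h1 h2
  have e : gY (tyW b) (zsW b w) j = Pool.Agent.Work.MP_b30479_gt.LT.ee (acot2 (Rh b w j.val)) := rfl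
  rw [e, ee_ctg ?_, h3]
  intro h5
  have h6 : ctg (acot2 (Rh b w j.val)) = 0 := by
    unfold ctg
    rw [h5, div_zero]
  rw [h3] at h6
  rw [h6] at h5
  have hpi' : (Real.pi : ℂ) ≠ 0 := by exact_mod_cast Real.pi_pos.ne'
  have e2 : (Real.pi : ℂ) * acot2 0 = Real.pi / 2 := by
    have e3 : Complex.arctan 0 = 0 := by simp [Complex.arctan]
    unfold acot2
    rw [e3]
    field_simp
    ring
  rw [e2, Complex.sin_pi_div_two] at h5
  exact one_ne_zero h5

lemma gtyp_word (hb : ClassW b) : GTyp b (tyW b) := by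
  have h0 := hb.first
  have hl := hb.last
  have hl0 : Fin.last (M + 1) ≠ 0 := (Fin.last_pos' (n := M + 1)).ne'
  refine ⟨fun i => tyW_ok hb i, fun i => ?_, fun i => ?_, ?_, ?_⟩
  · unfold tyW
    split_ifs <;> simp
  · by_cases h : (b i).natAbs = 1
    · right
      unfold tyW
      rw [if_pos h]
    · left
      have := hb.ne i
      omega
  · unfold tyW
    rw [if_neg (by omega), if_pos rfl]
    split_ifs <;> simp
  · unfold tyW
    rw [if_neg (by omega), if_neg hl0]
    split_ifs <;> simp

omit L in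
/-- the phase of a ring in the own frame -/
lemma phase_own (i : Fin (M + 2)) (Q : ℂ) (e : Bool) (k : ℕ) :
    Complex.sin ((if 0 < b i then -(I * (-(sg b i.val : ℂ) * Q + if e then I * w i.val else 0)) else
      I * (-(sg b i.val : ℂ) * Q + if e then I * w i.val else 0)) +
      k * -(Real.pi * (-(sg b i.val : ℂ) * w i.val / Real.pi))) =
    sI (b i) * cjz (b i) (Complex.sin (I * cjz (b i) Q + (k + e.toNat : ℕ) * cjz (b i) (w i.val))) := by
  have hpi' : (Real.pi : ℂ) ≠ 0 := by exact_mod_cast Real.pi_pos.ne'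
  have hbv : bb b i.val = b i := bb_val i
  by_cases h : 0 < b i
  · have e1 : sg b i.val = 1 := by
      unfold sg
      rw [hbv, if_pos h]
    rw [if_pos h, e1, cjz_pos h, cjz_pos h, cjz_pos h, sI, if_pos h]
    push_cast
    rw [one_mul]
    congr 1
    cases e
    · simp
      field_simp
    · simp
      field_simp
      linear_combination (-(w i.val)) * I_sq
  · have e1 : sg b i.val = -1 := by
      unfold sg
      rw [hbv, if_neg h]
    rw [if_neg h, e1, cjz_neg h, cjz_neg h, cjz_neg h, sI, if_neg h, ← Complex.sin_conj]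
    push_cast
    rw [neg_one_mul, ← Complex.sin_neg]
    congr 1
    rw [map_add, map_mul, map_mul, conj_conj, conj_conj, conj_I, map_add, map_natCast, map_natCast]
    cases e
    · simp
      field_simp
      ring
    · simp
      field_simp
      linear_combination (w i.val) * I_sq

omit L in
lemma kz_strip {x ζ : ℂ} (h : KZ x ζ) : x ∈ strip ∧ 1 / 2 + x + ζ ∈ strip ∧ 1 / 2 + x - ζ ∈ strip := by
  obtain ⟨k1, k2, _⟩ := h
  have hstr : ∀ z : ℂ, 0 < z.re → z.re < 1 → z ∈ strip := fun z h1 h2 => ⟨h1, h2⟩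
  have := abs_le.1 (le_refl |ζ.re|)
  refine ⟨hstr _ k1 (by linarith only [k1, k2, this, abs_nonneg ζ.re]), hstr _ ?_ ?_, hstr _ ?_ ?_⟩
  · simp only [Complex.add_re, Complex.one_re, Complex.div_ofNat_re]
    linarith only [k1, k2, this, this.1]
  · simp only [Complex.add_re, Complex.one_re, Complex.div_ofNat_re]
    linarith only [k2, this, this.2]
  · simp only [Complex.add_re, Complex.sub_re, Complex.one_re, Complex.div_ofNat_re]
    linarith only [k1, k2, this, this.2]
  · simp only [Complex.add_re, Complex.sub_re, Complex.one_re, Complex.div_ofNat_re]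
    linarith only [k2, this, this.1]

include hb F hw

lemma ring_data (i : Fin (M + 2)) (ht : tyW b i = .ring) : 4 ≤ (b i).natAbs ∧
    us b i.val = false ∧
    xx (tyW b) i (zsW b w) 1 = -(sg b i.val : ℂ) * w i.val / Real.pi ∧
    Complex.cos (w i.val) ≠ 0 ∧
    Complex.sin (Real.pi * xx (tyW b) i (zsW b w) 1) = tau b w i.val * Complex.cos (w i.val) ∧
    Complex.cos (Real.pi * xx (tyW b) i (zsW b w) 1) = Complex.cos (w i.val) := by
  have h4 : 4 ≤ (b i).natAbs := by
    have h0 := hb.ne i
    unfold tyW at ht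
    split_ifs at ht with h1 h2 h3 h4
    omega
  have hu : us b i.val = false := us_of_abs (by omega)
  have hx1 := x_ring (b := b) (w := w) (i := i) (by rw [ht]; rfl)
  have hc := cos_ne F hw (n := i.val) (by have := i.2; omega) hu
  refine ⟨h4, hu, hx1, hc, ?_, ?_⟩
  · rw [hx1, sin_ring]
    unfold tau
    rw [mul_assoc, Complex.tan_mul_cos hc]
  · rw [hx1, cos_ring]

lemma rP_left (i : Fin (M + 2)) (ht : tyW b i = .ring) (h : 0 < i.val) :
    rP (xx (tyW b) i (zsW b w) 0) (xx (tyW b) i (zsW b w) 1) = PL b w i.val := by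
  obtain ⟨h4, hu, hx1, hc, hsin, hcos⟩ := ring_data hb F hw L i ht
  have h4' : 4 ≤ (bb b i.val).natAbs := by rw [bb_val]; exact h4
  have hrun := L.run i
  rw [ht] at hrun
  simp only [RunOk] at hrun
  obtain ⟨h00, hl, hr⟩ := hrun
  have hfl : fl i = true := by
    have : i ≠ 0 := fun h2 => by rw [h2] at h; simp at h
    simp [fl, this]
  obtain ⟨k1, k2, k3⟩ := kz_strip (hl hfl).1
  have hi := i.2
  have e := ring_mid (P := PL b w i.val) k1 k2 k3 (by
    rw [hcos, hsin, ctg_left L h]
    linear_combination Complex.cos (w i.val) * pL hb F hw h (by omega) hu)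
    (L.pl i.val h (by omega) h4')
  rw [rP, show xx (tyW b) i (zsW b w) 0 - xx (tyW b) i (zsW b w) 1 + 1 / 2 =
    1 / 2 + xx (tyW b) i (zsW b w) 0 - xx (tyW b) i (zsW b w) 1 by ring,
    show xx (tyW b) i (zsW b w) 0 + xx (tyW b) i (zsW b w) 1 + 1 / 2 =
    1 / 2 + xx (tyW b) i (zsW b w) 0 + xx (tyW b) i (zsW b w) 1 by ring]
  linear_combination -e / 2

lemma rP_right (i : Fin (M + 2)) (ht : tyW b i = .ring) (h : i.val < M + 1) :
    rP (xx (tyW b) i (zsW b w) 2) (xx (tyW b) i (zsW b w) 1) = PR b w i.val := by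
  obtain ⟨h4, hu, hx1, hc, hsin, hcos⟩ := ring_data hb F hw L i ht
  have h4' : 4 ≤ (bb b i.val).natAbs := by rw [bb_val]; exact h4
  have hrun := L.run i
  rw [ht] at hrun
  simp only [RunOk] at hrun
  obtain ⟨h00, hl, hr⟩ := hrun
  have hfr : fr i = true := by
    have : i ≠ Fin.last (M + 1) := fun h2 => by rw [h2] at h; simp at h
    simp [fr, this]
  obtain ⟨k1, k2, k3⟩ := kz_strip (hr hfr).1
  have e := ring_mid (P := PR b w i.val) k1 k2 k3 (by
    rw [hcos, hsin, ctg_right L h]
    linear_combination Complex.cos (w i.val) * pR hb F hw h hu)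
    (L.pr i.val h h4')
  rw [rP, show xx (tyW b) i (zsW b w) 2 - xx (tyW b) i (zsW b w) 1 + 1 / 2 =
    1 / 2 + xx (tyW b) i (zsW b w) 2 - xx (tyW b) i (zsW b w) 1 by ring,
    show xx (tyW b) i (zsW b w) 2 + xx (tyW b) i (zsW b w) 1 + 1 / 2 =
    1 / 2 + xx (tyW b) i (zsW b w) 2 + xx (tyW b) i (zsW b w) 1 by ring]
  linear_combination -e / 2

/-- the rings are nondegenerate -/
theorem gnv_word : GNv b (tyW b) (zsW b w) := by
  have hsI : ∀ s : ℤ, (sI s : ℂ) ≠ 0 := by
    intro s
    unfold sI
    split_ifs <;> norm_num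
  refine ⟨fun i hi => ?_, fun hi k hk => ?_, fun i hi0 hi k hk => ?_⟩
  · obtain ⟨h4, hu, hx1, hc, hsin, hcos⟩ := ring_data hb F hw L i hi
    have hs : Complex.sin (w i.val) ≠ 0 := by
      intro h
      have h1 := hw.re0 i.val (by have := i.2; omega) hu
      have h2 := hw.re1 i.val (by have := i.2; omega) hu
      have h3 := congrArg Complex.re h
      rw [sp_sin_re, zero_re] at h3
      have h5 : 0 < Real.sin (w i.val).re :=
        Real.sin_pos_of_pos_of_lt_pi h1 (by linarith only [h2, Real.pi_gt_three])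
      have := mul_pos h5 (Real.cosh_pos (w i.val).im)
      linarith only [h3, this]
    rw [show (2 * Real.pi * xx (tyW b) i (zsW b w) 1 : ℂ) =
      2 * (Real.pi * xx (tyW b) i (zsW b w) 1) by ring, Complex.sin_two_mul, hsin, hcos]
    refine mul_ne_zero (mul_ne_zero two_ne_zero (mul_ne_zero ?_ hc)) hc
    unfold tau
    have : Complex.tan (w i.val) ≠ 0 := by
      intro h
      apply hs
      rw [← Complex.tan_mul_cos hc, h, zero_mul]
    refine mul_ne_zero (neg_ne_zero.2 ?_) this
    rcases sg_or (b := b) i.val with h | h <;> rw [h] <;> norm_num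
  · obtain ⟨h4, hu, hx1, hc, hsin, hcos⟩ := ring_data hb F hw L 0 hi
    have h0v : ((0 : Fin (M + 2)) : ℕ) = 0 := rfl
    have e := phase_own (b := b) (w := w) 0 (QQ (w 0) (Complex.cos (w (rn b 0)))) (us b 1) k
    rw [rr0, rP_right hb F hw L 0 hi (by simp), hx1]
    unfold PR
    rw [h0v] at e ⊢
    rw [zero_add, e]
    refine mul_ne_zero (hsI _) ?_
    rw [map_ne_zero]
    have h5 : k + (us b 1).toNat < BB b 0 := by
      unfold BB
      have : bb b 0 = b 0 := bb_val 0
      rw [this, zero_add]
      omega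
    have h6 := vvR_ne hb hw (by omega : 1 ≤ M + 1) h5
    unfold vv at h6
    have h7 := (div_ne_zero_iff.1 h6).1
    rw [QQ_cjR hb hw (by omega) rfl] at h7
    unfold qW at h7
    have h8 : bb b 0 = b 0 := bb_val 0
    rw [h8] at h7
    exact h7
  · obtain ⟨h4, hu, hx1, hc, hsin, hcos⟩ := ring_data hb F hw L i hi
    have hi1 : 0 < i.val := by
      rcases Nat.eq_zero_or_pos i.val with h | h
      · exact absurd (Fin.ext h) hi0
      · exact h
    have hiM : i.val ≤ M + 1 := by have := i.2; omega
    have e := phase_own (b := b) (w := w) i (QQ (w i.val) (Complex.cos (w (ln b i.val))))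
      (us b (i.val - 1)) k
    rw [rr0, rP_left hb F hw L i hi hi1, hx1]
    unfold PL
    rw [e]
    refine mul_ne_zero (hsI _) ?_
    rw [map_ne_zero]
    have h5 : k + (us b (i.val - 1)).toNat < BB b i.val := by
      unfold BB
      rw [bb_val i]
      omega
    have h6 := vvL_ne hb hw hi1 hiM hu h5
    unfold vv at h6
    have h7 := (div_ne_zero_iff.1 h6).1
    rw [QQ_cjL hb hw hi1 hiM hu] at h7
    unfold qW at h7
    rw [bb_val i] at h7
    exact h7

/-! ### the derivatives at the hinges -/

variable (hin : ∀ k, 0 < ((wdat (M := M + 1) (tyW b) b).form k (zsW b w)).re ∧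
    ((wdat (M := M + 1) (tyW b) b).form k (zsW b w)).re < 1)
  (hc : ∀ i, (wdat (M := M + 1) (tyW b) b).dT (zsW b w) i = 0)
include hin hc

lemma hf_left (j : Fin (M + 1)) : hf (b j.castSucc) (gY (tyW b) (zsW b w) j)
    (nbr b (gU b (tyW b) (zsW b w)) j) = (1 + Rh b w j.val ^ 2) / qv b w j.val - 1 := by
  have H := geo_LH (gtyp_word L hb) hin hc (gnv_word hb F hw L)
  have hl0 : (0 : Fin (M + 2)) ≠ Fin.last (M + 1) := (Fin.last_pos' (n := M + 1)).ne
  have n1 : j.castSucc ≠ Fin.last (M + 1) := (Fin.castSucc_lt_last _).ne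
  have e : xx (tyW b) j.castSucc (zsW b w) 2 = zsW b w (.inl (.inl j)) := xx_right (M := M + 1) (tyW b) j (zsW b w)
  have h := H j.castSucc
  simp only [ne_eq, n1, not_false_eq_true, decide_true] at h
  have k1 := hf_r h
  rw [e] at k1
  have k3 : nbr b (gU b (tyW b) (zsW b w)) j = if decide (¬j.castSucc = 0) = false then
      lC (tyW b j.castSucc) (b j.castSucc) (decide (¬j.castSucc = 0)) true
        (xx (tyW b) j.castSucc (zsW b w)) 1 else
      (lC (tyW b j.castSucc) (b j.castSucc) (decide (¬j.castSucc = 0)) true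
        (xx (tyW b) j.castSucc (zsW b w)) ((b j.castSucc).natAbs - 1))⁻¹ := by
    unfold nbr
    by_cases hj : j = 0
    · subst hj
      rw [gU_eq]
      simp [hl0]
    · have hj' : j.castSucc ≠ 0 := by
        intro h
        exact hj (Fin.castSucc_injective _ h)
      rw [if_neg hj, gU_eq]
      simp [hj', n1]
  unfold gY
  rw [k3, ← k1]
  have hs := (side_all hb F hw L (by omega : 1 ≤ M + 1) j.castSucc).1.2
  have hfr : fr j.castSucc = true := by simp [fr, n1]
  have hs2 := hs hfr
  rw [ctg_right L (by have := j.2; simp; omega)] at hs2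
  rw [hfr] at hs2
  exact hs2

lemma hf_right (j : Fin (M + 1)) : hf (b j.succ) (gY (tyW b) (zsW b w) j)
    (gU b (tyW b) (zsW b w) j.succ 1) = (1 + Rh b w j.val ^ 2) / qv b w (j.val + 1) - 1 := by
  have H := geo_LH (gtyp_word L hb) hin hc (gnv_word hb F hw L)
  have n2 : j.succ ≠ 0 := Fin.succ_ne_zero _
  have e' : xx (tyW b) j.succ (zsW b w) 0 = zsW b w (.inl (.inl j)) := xx_left (M := M + 1) (tyW b) j (zsW b w)
  have h' := H j.succ
  simp only [ne_eq, n2, not_false_eq_true, decide_true] at h'
  have k2 := hf_l h'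
  rw [e'] at k2
  have k4 : gU b (tyW b) (zsW b w) j.succ 1 = lC (tyW b j.succ) (b j.succ) true
      (decide (¬j.succ = Fin.last (M + 1))) (xx (tyW b) j.succ (zsW b w)) 1 := by
    rw [gU_eq]
    simp [n2]
  unfold gY
  rw [k4, ← k2]
  have hs := (side_all hb F hw L (by omega : 1 ≤ M + 1) j.succ).1.1
  have hfl : fl j.succ = true := by simp [fl, n2]
  have hs2 := hs hfl
  rw [ctg_left L (by simp)] at hs2
  rw [hfl] at hs2
  simpa using hs2

/-- the chain of an inner or the last digit -/
lemma chain_left (j : Fin (M + 1)) (hu : us b (j.val + 1) = false) (l : ℕ)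
    (hl : l + (if j.succ = Fin.last (M + 1) then 2 else 1) ≤ (b j.succ).natAbs) :
    1 - cjz (b j.succ) (gU b (tyW b) (zsW b w) j.succ (l + 1)) =
      (1 - (vv (qW b w (j.val + 1)) (qL b w (j.val + 1)) (l + (us b j.val).toNat) ^ 2)⁻¹) *
        (1 - cjz (b j.succ) (gU b (tyW b) (zsW b w) j.succ l)) ∧
      1 - cjz (b j.succ) (gU b (tyW b) (zsW b w) j.succ l) ≠ 0 := by
  have hG := geo_glue (gtyp_word L hb) hin hc (gnv_word hb F hw L)
  have hjM := j.2
  obtain ⟨R1, R2⟩ := L.hinge j.val j.2
  have hv : (j.succ).val = j.val + 1 := Fin.val_succ j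
  have hbv : bb b (j.val + 1) = b j.succ := by rw [← hv]; exact bb_val _
  have hBB : BB b (j.val + 1) = (b j.succ).natAbs + (us b j.val).toNat + (us b (j.val + 2)).toNat := by
    unfold BB
    rw [hbv]
    rfl
  have ho := ownL hb hw (by omega : 0 < j.val + 1) (by omega) hu
  have hR1 : cjz (b j.succ) (Rh b w j.val) ≠ I ∧ cjz (b j.succ) (Rh b w j.val) ≠ -I := by
    by_cases h : 0 < b j.succ
    · rw [cjz_pos h]
      exact ⟨R1, R2⟩
    · rw [cjz_neg h]
      constructor
      · intro h2
        apply R2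
        have := congrArg (starRingEnd ℂ) h2
        rwa [conj_conj, conj_I] at this
      · intro h2
        apply R1
        have := congrArg (starRingEnd ℂ) h2
        rwa [conj_conj, map_neg, conj_I, neg_neg] at this
  have hhin := hinge_ownL hb F hw (by omega : 0 < j.val + 1) (by omega) hu
  rw [hbv, Nat.add_sub_cancel] at hhin
  have hleft := left_all hG j
  have hend : ∀ l, l + (if j.succ = Fin.last (M + 1) then 3 else 2) ≤ (b j.succ).natAbs →
      (gU b (tyW b) (zsW b w) j.succ (l + 2) - gU b (tyW b) (zsW b w) j.succ (l + 1)) *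
        gU b (tyW b) (zsW b w) j.succ l = -(gU b (tyW b) (zsW b w) j.succ (l + 1) -
        gU b (tyW b) (zsW b w) j.succ l) := by
    intro l hl
    refine edges_all hG j.succ l ?_
    have h0 : ¬ j.succ = 0 := Fin.succ_ne_zero _
    simpa [h0] using hl
  set W := qW b w (j.val + 1) with hW
  set K := qL b w (j.val + 1) with hK
  set δ := (us b j.val).toNat with hδ
  have key := chain_v (κ := Complex.cos W) (R := cjz (b j.succ) (Rh b w j.val))
    (v := fun l => vv W K (l + δ)) (U := fun l => cjz (b j.succ) (gU b (tyW b) (zsW b w) j.succ l))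
    (d := (b j.succ).natAbs - (if j.succ = Fin.last (M + 1) then 1 else 0)) ho.cne
    (fun l => by
      have := vv_add W K (l + δ)
      rw [show l + δ + 2 = l + 2 + δ by ring, show l + δ + 1 = l + 1 + δ by ring] at this
      exact this)
    (fun l => by
      have := ho.mul (l + δ)
      rw [show l + δ + 2 = l + 2 + δ by ring, show l + δ + 1 = l + 1 + δ by ring] at this
      exact this)
    hR1.1 hR1.2
    (by
      show cjz (b j.succ) (gU b (tyW b) (zsW b w) j.succ 0) = _
      rw [hleft, gY_word L j, cjz_hat])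
    (by
      have h2 := hf_right hb F hw L hin hc j
      rw [qv_ring hu, gY_word L j] at h2
      have h3 := base_own (cos_ne F hw (by omega) hu) R1 R2 h2
      rw [← hbv, ← qW_cos hw, hbv, ← hW] at h3
      show 1 - cjz (b j.succ) (gU b (tyW b) (zsW b w) j.succ 1) =
        _ * _ * (1 - cjz (b j.succ) (gU b (tyW b) (zsW b w) j.succ 0))
      rw [hleft, gY_word L j]
      exact h3)
    (by
      show vv W K (1 + δ) = -(I * Complex.cos W * vv W K (0 + δ) * _)
      rw [zero_add, add_comm 1 δ]
      exact hhin)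
    (fun l hl => by
      show vv W K (l + δ) ≠ 0
      apply vvL_ne hb hw (by omega : 0 < j.val + 1) (by omega) hu
      rw [hBB]
      split_ifs at hl <;> omega)
    (fun l hl1 hl2 => by
      show vv W K (l + δ) ^ 2 ≠ 1
      refine (lp_ne ?_).2
      by_cases h : j.succ = Fin.last (M + 1)
      · rw [if_pos h] at hl2
        have h2 := congrArg Fin.val h
        rw [hv] at h2
        exact lay_last' hb hw h2 (by omega) (by omega) (by rw [hBB]; omega)
      · rw [if_neg h] at hl2
        refine lay_inner hb hw (by omega : 0 < j.val + 1) ?_ hu (by omega) (by rw [hBB]; omega)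
        by_contra hc
        exact h (Fin.ext (by rw [hv]; simp; omega)))
    (fun l hl => by
      have h3 := hend l (by split_ifs at hl ⊢ <;> omega)
      have h4 := congrArg (cjz (b j.succ)) h3
      rw [map_mul, map_sub, map_neg, map_sub] at h4
      exact h4)
    l (by split_ifs at hl ⊢ <;> omega)
  exact key.2

/-- the chain of the first digit -/
lemma chain_first (l : ℕ) (hl : l + 2 ≤ (b 0).natAbs) :
    1 - cjz (b 0) (gU b (tyW b) (zsW b w) 0 (l + 1)) =
      (1 - (vv (qW b w 0) (qR b w 0) (l + (us b 1).toNat) ^ 2)⁻¹) *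
        (1 - cjz (b 0) (gU b (tyW b) (zsW b w) 0 l)) ∧
      1 - cjz (b 0) (gU b (tyW b) (zsW b w) 0 l) ≠ 0 := by
  have hG := geo_glue (gtyp_word L hb) hin hc (gnv_word hb F hw L)
  have hu : us b 0 = false := rfl
  obtain ⟨R1, R2⟩ := L.hinge 0 (by omega)
  have hbv : bb b 0 = b 0 := bb_val 0
  have hBB : BB b 0 = (b 0).natAbs + (us b 1).toNat := by
    unfold BB
    rw [hbv]
    rfl
  have ho := ownR hb hw (by omega : 0 < M + 1) hu
  have hR1 : cjz (b 0) (Rh b w 0) ≠ I ∧ cjz (b 0) (Rh b w 0) ≠ -I := by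
    by_cases h : 0 < b 0
    · rw [cjz_pos h]
      exact ⟨R1, R2⟩
    · rw [cjz_neg h]
      constructor
      · intro h2
        apply R2
        have := congrArg (starRingEnd ℂ) h2
        rwa [conj_conj, conj_I] at this
      · intro h2
        apply R1
        have := congrArg (starRingEnd ℂ) h2
        rwa [conj_conj, map_neg, conj_I, neg_neg] at this
  have hhin := hinge_ownR hb F hw (by omega : 0 < M + 1) hu
  rw [hbv, zero_add] at hhin
  have hgY : gY (tyW b) (zsW b w) 0 = (Rh b w 0 + I) / (Rh b w 0 - I) := gY_word L 0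
  have hleft : gU b (tyW b) (zsW b w) 0 0 = hat (b 0) (gY (tyW b) (zsW b w) 0) := hG.first.left
  set W := qW b w 0 with hW
  set K := qR b w 0 with hK
  set δ := (us b 1).toNat with hδ
  have key := chain_v (κ := Complex.cos W) (R := cjz (b 0) (Rh b w 0))
    (v := fun l => vv W K (l + δ)) (U := fun l => cjz (b 0) (gU b (tyW b) (zsW b w) 0 l))
    (d := (b 0).natAbs - 1) ho.cne
    (fun l => by
      have := vv_add W K (l + δ)
      rw [show l + δ + 2 = l + 2 + δ by ring, show l + δ + 1 = l + 1 + δ by ring] at this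
      exact this)
    (fun l => by
      have := ho.mul (l + δ)
      rw [show l + δ + 2 = l + 2 + δ by ring, show l + δ + 1 = l + 1 + δ by ring] at this
      exact this)
    hR1.1 hR1.2
    (by
      show cjz (b 0) (gU b (tyW b) (zsW b w) 0 0) = _
      rw [hleft, hgY, cjz_hat])
    (by
      have h2 := hf_left hb F hw L hin hc 0
      have h0 : (0 : Fin (M + 1)).castSucc = 0 := rfl
      have h1 : ((0 : Fin (M + 1)) : ℕ) = 0 := rfl
      have h3 : nbr b (gU b (tyW b) (zsW b w)) 0 = gU b (tyW b) (zsW b w) 0 1 := by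
        unfold nbr
        rw [if_pos rfl]
      rw [h3, h0, h1, qv_ring hu, hgY] at h2
      have h3 := base_own (cos_ne F hw (by omega) hu) R1 R2 h2
      rw [← hbv, ← qW_cos hw, hbv, ← hW] at h3
      show 1 - cjz (b 0) (gU b (tyW b) (zsW b w) 0 1) =
        _ * _ * (1 - cjz (b 0) (gU b (tyW b) (zsW b w) 0 0))
      rw [hleft, hgY]
      exact h3)
    (by
      show vv W K (1 + δ) = -(I * Complex.cos W * vv W K (0 + δ) * _)
      rw [zero_add, add_comm 1 δ]
      exact hhin)
    (fun l hl => by
      show vv W K (l + δ) ≠ 0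
      exact vvR_ne hb hw (by omega) (by rw [hBB]; omega))
    (fun l hl1 hl2 => by
      show vv W K (l + δ) ^ 2 ≠ 1
      exact (lp_ne (lay_first hb hw (by omega) (by omega) (by rw [hBB]; omega))).2)
    (fun l hl => by
      have h3 := edges_all hG 0 l (by simp; omega)
      have h4 := congrArg (cjz (b 0)) h3
      rw [map_mul, map_sub, map_neg, map_sub] at h4
      exact h4)
    l (by omega)
  exact key.2

omit hb F hw L hin hc in
lemma im_of_chain {s : ℤ} {u u' : ℂ} {v : ℂ} (h : 1 - cjz s u' = (1 - (v ^ 2)⁻¹) * (1 - cjz s u))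
    (h0 : 1 - cjz s u ≠ 0) (hv : Lp v) : 0 < sI s * ((1 - u') / (1 - u)).im := by
  have e : cjz s ((1 - u') / (1 - u)) = 1 - (v ^ 2)⁻¹ := by
    rw [map_div₀, map_sub, map_sub, map_one, h, mul_div_cancel_right₀ _ h0]
  rw [← cjz_im, e]
  exact hv

/-- **Positivity of the Sakuma-Weeks tetrahedra of a word.** -/
theorem upos_word : UPos b (gU b (tyW b) (zsW b w)) := by
  have hM1 : 1 ≤ M + 1 := by omega
  constructor
  · intro i l hl hl'
    by_cases hi0 : i = 0
    · subst hi0
      rw [if_pos (Or.inl rfl)] at hl'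
      obtain ⟨k1, k2⟩ := chain_first hb F hw L hin hc l hl'
      have hBB : BB b 0 = (b 0).natAbs + (us b 1).toNat := by
        have e0 : bb b 0 = b 0 := bb_val 0
        unfold BB
        rw [e0]
        rfl
      exact im_of_chain k1 k2 (lay_first hb hw hM1 (by omega) (by rw [hBB]; omega))
    · obtain ⟨j, rfl⟩ := Fin.exists_succ_eq.2 hi0
      have hv : (j.succ).val = j.val + 1 := Fin.val_succ j
      have h2 : (b j.succ).natAbs ≠ 1 := by split_ifs at hl' <;> omega
      have hu : us b (j.val + 1) = false := by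
        rw [← hv]
        exact us_of_abs h2
      have hBB : BB b (j.val + 1) = (b j.succ).natAbs + (us b j.val).toNat +
          (us b (j.val + 2)).toNat := by
        unfold BB
        rw [← hv, bb_val j.succ]
        rfl
      have hc' : (if j.succ = 0 ∨ j.succ = Fin.last (M + 1) then 2 else 1) =
          (if j.succ = Fin.last (M + 1) then 2 else 1) := by
        simp [hi0]
      rw [hc'] at hl'
      obtain ⟨k1, k2⟩ := chain_left hb F hw L hin hc j hu l hl'
      refine im_of_chain k1 k2 ?_
      by_cases h : j.succ = Fin.last (M + 1)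
      · rw [if_pos h] at hl'
        have h2 := congrArg Fin.val h
        rw [hv] at h2
        exact lay_last' hb hw h2 (by omega) (by omega) (by rw [hBB]; omega)
      · rw [if_neg h] at hl'
        refine lay_inner hb hw (by omega : 0 < j.val + 1) ?_ hu (by omega) (by rw [hBB]; omega)
        have := j.2
        by_contra hcc
        exact h (Fin.ext (by rw [hv]; simp; omega))
  · intro j hj
    have hv : (j.succ).val = j.val + 1 := Fin.val_succ j
    have hv' : (j.castSucc).val = j.val := Fin.val_castSucc j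
    have hjM := j.2
    have hbj : bb b j.val = b j.castSucc := by rw [← hv']; exact bb_val _
    have hbj' : bb b (j.val + 1) = b j.succ := by rw [← hv]; exact bb_val _
    by_cases hu : us b (j.val + 1) = false
    · -- the right digit is a ring
      have hpos : 0 < (b j.succ).natAbs := Int.natAbs_pos.2 (hb.ne _)
      have hl2 : (if j.succ = Fin.last (M + 1) then 2 else 1) ≤ (b j.succ).natAbs := by
        split_ifs with h
        · rw [h]
          exact hb.last
        · omega
      obtain ⟨k1, k2⟩ := chain_left hb F hw L hin hc j hu 0 (by omega)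
      refine im_of_chain k1 k2 ?_
      rw [zero_add]
      have hBB : BB b (j.val + 1) = (b j.succ).natAbs + (us b j.val).toNat +
          (us b (j.val + 2)).toNat := by
        unfold BB
        rw [← hv, bb_val j.succ]
        rfl
      by_cases h3 : us b j.val = true
      · rw [h3] at hBB ⊢
        rw [Bool.toNat_true] at hBB ⊢
        by_cases h : j.succ = Fin.last (M + 1)
        · have h2 := congrArg Fin.val h
          rw [hv] at h2
          rw [if_pos h] at hl2
          exact lay_last' hb hw h2 (by omega) le_rfl (by rw [hBB]; omega)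
        · refine lay_inner hb hw (by omega : 0 < j.val + 1) ?_ hu le_rfl (by rw [hBB]; omega)
          by_contra hcc
          exact h (Fin.ext (by rw [hv]; simp; omega))
      · rw [Bool.not_eq_true] at h3
        rw [h3, Bool.toNat_false]
        have hl : ln b (j.val + 1) = j.val := by
          unfold ln
          rw [Nat.add_sub_cancel, h3]
          simp
        refine lay_turnL hb hw (by omega : 0 < j.val + 1) (by omega) hu ?_
        rw [hl, hbj, hbj', mul_comm]
        exact hj
    · -- the right digit is absorbed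
      rw [Bool.not_eq_false] at hu
      have hu' : us b j.val = false := by
        have := (us_true hu).2.2.1
        rwa [Nat.add_sub_cancel] at this
      have h1 := us_lt hb hu
      have ho := ownR hb hw (by omega : j.val < M + 1) hu'
      have hG := geo_glue (gtyp_word L hb) hin hc (gnv_word hb F hw L)
      have hturn := hG.turn j
      have hfl := hf_left hb F hw L hin hc j
      rw [hfl] at hturn
      -- the layer of the left digit
      have hLp : Lp (vv (qW b w j.val) (qR b w j.val) 1) := by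
        rcases Nat.eq_zero_or_pos j.val with h0 | h0
        · have hBB : BB b 0 = (b 0).natAbs + (us b 1).toNat := by
            have e0 : bb b 0 = b 0 := bb_val 0
            unfold BB
            rw [e0]
            rfl
          rw [h0] at hu ⊢
          rw [hu, Bool.toNat_true] at hBB
          have := hb.first
          exact lay_first hb hw hM1 le_rfl (by rw [hBB]; omega)
        · have hBB := BB_ge hb (n := j.val) (by omega) hu'
          have he := eqI hb hw h0 (by omega) hu'
          rw [add_comm (QQ (qW b w j.val) (qL b w j.val))] at he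
          rw [vv_mirror he (l := 1) (m := BB b j.val - 1) (by omega)]
          exact lay_inner hb hw h0 (by omega) hu' (by omega) (by omega)
      have hhin := hinge_ownR hb F hw (by omega : j.val < M + 1) hu'
      rw [hu, Bool.toNat_true, hbj] at hhin
      have hsig := sig_v (vv_add (qW b w j.val) (qR b w j.val) 1) (ho.mul 1) hhin
      have hA : cjz (b j.castSucc) ((1 + Rh b w j.val ^ 2) / qv b w j.val - 1) =
          -(vv (qW b w j.val) (qR b w j.val) 1 ^ 2)⁻¹ := by
        rw [qv_ring hu']
        have h5 : (1 + Rh b w j.val ^ 2) / (1 / Complex.cos (w j.val) ^ 2) =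
            Complex.cos (w j.val) ^ 2 * (1 + Rh b w j.val ^ 2) := by
          rw [div_div_eq_mul_div, div_one, mul_comm]
        rw [h5]
        simp only [map_mul, map_sub, map_add, map_one, map_pow]
        rw [← hbj, ← qW_cos hw, hbj, hsig]
        ring
      set A := (1 + Rh b w j.val ^ 2) / qv b w j.val - 1 with hAd
      set H := hf (b j.succ) (gY (tyW b) (zsW b w) j) (gU b (tyW b) (zsW b w) j.succ 1) with hH
      have hA0 : A ≠ 0 := fun h => by
        rw [h, zero_mul] at hturn
        exact zero_ne_one hturn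
      have hH2 : H = A⁻¹ := eq_inv_of_mul_eq_one_right hturn
      have hH3 : cjz (b j.castSucc) H = -(vv (qW b w j.val) (qR b w j.val) 1 ^ 2) := by
        rw [hH2, map_inv₀, hA, inv_neg, inv_inv]
      have hvim : 0 < (vv (qW b w j.val) (qR b w j.val) 1 ^ 2).im := by
        have h6 := hLp
        unfold Lp at h6
        have h7 := (lp_ne hLp).1
        rw [sub_im, Complex.one_im, inv_im, zero_sub, neg_div, neg_neg] at h6
        have h8 : 0 < normSq (vv (qW b w j.val) (qR b w j.val) 1 ^ 2) :=
          normSq_pos.2 (pow_ne_zero 2 h7)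
        exact (div_pos_iff_of_pos_right h8).1 h6
      have hq : (1 - gU b (tyW b) (zsW b w) j.succ 1) / (1 - gU b (tyW b) (zsW b w) j.succ 0) = 1 + H := by
        have hn : hat (b j.succ) (gY (tyW b) (zsW b w) j) - 1 ≠ 0 := by
          intro h9
          rw [hH, hf, h9, div_zero] at hH2
          exact (inv_ne_zero hA0) hH2.symm
        have hn' : 1 - hat (b j.succ) (gY (tyW b) (zsW b w) j) ≠ 0 := by
          intro h9
          apply hn
          linear_combination -h9
        rw [left_all hG j, hH, hf, div_eq_iff hn', add_mul, one_mul]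
        have h10 : ∀ u h : ℂ, h - 1 ≠ 0 → (u - h) / (h - 1) * (1 - h) = -(u - h) := by
          intro u h h11
          rw [div_mul_eq_mul_div, div_eq_iff h11]
          ring
        rw [h10 _ _ hn]
        ring
      rw [hq, add_im, Complex.one_im, zero_add]
      have h12 := congrArg Complex.im hH3
      rw [cjz_im, neg_im] at h12
      have h13 : sI (b j.succ) = -sI (b j.castSucc) := by
        rcases lt_or_ge 0 (b j.castSucc) with h | h
        · have : ¬0 < b j.succ := fun h' => by
            have := mul_pos h h'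
            omega
          rw [sI, sI, if_neg this, if_pos h]
        · have h' : 0 < b j.succ := by
            by_contra hcc
            have := mul_nonneg_of_nonpos_of_nonpos h (not_lt.1 hcc)
            omega
          rw [sI, sI, if_pos h', if_neg (by omega), neg_neg]
      rw [h13, neg_mul, h12, neg_neg]
      exact hvim

end

end Pool.Agent.Work.MP_b30479_gt.G2
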