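import Pool.Agent.Work.MP_b30479_gt.G2.PubTB
import Pool.Agent.Work.MP_b30479_gt.G2.SPosE

/-!
# The saddle point of a word: assembly
-/

namespace Pool.Agent.Work.MP_b30479_gt.G2

open SR

/-- the saddle point data of a word, from a solution of the ring equations in the polygons -/
theorem hsad_of {M : ℕ} {b : Fin (M + 2) → ℤ} (hb : ClassW (M := M + 1) b) (F : RingFacts)
    {w : ℕ → ℂ} (hw : Sol (M := M + 1) b w) (L : LocOK (M := M + 1) b w)
    {P : Par (DD (M := M + 1) (tyW b))}
    {nb : Finset (DD (M := M + 1) (tyW b)) →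
      Finset (DD (M := M + 1) (tyW b) ⊕ ZZ (M := M + 1) (tyW b))}
    (hS : Sadl (wdat (M := M + 1) (tyW b) b) P nb (zsW b w)) : HSad b :=
  ⟨tyW b, P, nb, zsW b w, hS, gtyp_word L hb, gnv_word hb F hw L,
    upos_word hb F hw L hS.inner hS.crit⟩

end Pool.Agent.Work.MP_b30479_gt.G2
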