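import Pool.Agent.Work.MP_b30479_gt.G2.ADat
import Pool.Agent.Work.MP_b30479_gt.LT.Rigid
import Pool.Agent.Work.MP_b30479_gt.LT.XHt

/-!
# The real part of the second derivative of the potential is negative definite

Run by run (`Neg`): kernels of one and two crossings, the inner discrete variable of three crossings,
rings.
-/

namespace Pool.Agent.Work.MP_b30479_gt.G2

open Finset VOL
open Pool.Agent.Work.MP_b30479_gt.LT

/-! ### quadratic forms -/

lemma form2_pos {a b c p q : ℝ} (ha : 0 < a) (hb : 0 < b) (hc : c * (a + b) < a * b)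
    (h : p ≠ 0 ∨ q ≠ 0) : 0 < a * p ^ 2 + b * q ^ 2 - c * (p + q) ^ 2 := by
  have e : (a + b) * (a * p ^ 2 + b * q ^ 2 - c * (p + q) ^ 2) =
      (a * p - b * q) ^ 2 + (a * b - c * (a + b)) * (p + q) ^ 2 := by ring
  have h1 : 0 < (a + b) * (a * p ^ 2 + b * q ^ 2 - c * (p + q) ^ 2) := by
    rw [e]
    rcases eq_or_ne (p + q) 0 with h0 | h0
    · have hq : q = -p := by linarith only [h0]
      have hp : p ≠ 0 := by
        rcases h with h | h
        · exact h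
        · intro h'; apply h; rw [hq, h']; simp
      have : a * p - b * q = (a + b) * p := by rw [hq]; ring
      rw [this, h0]
      have : 0 < ((a + b) * p) ^ 2 := by positivity
      linarith only [this, this]
    · have : 0 < (a * b - c * (a + b)) * (p + q) ^ 2 := by
        have : 0 < a * b - c * (a + b) := by linarith only [hc]
        positivity
      have := sq_nonneg (a * p - b * q)
      linarith
  exact (mul_pos_iff_of_pos_left (by positivity)).1 h1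

lemma form2_pos' {a b c p q : ℝ} (ha : 0 ≤ a) (hb : 0 ≤ b) (hab : 0 < a + b) (hc : c < 0)
    (h : p ≠ 0 ∨ q ≠ 0) : 0 < a * p ^ 2 + b * q ^ 2 - c * (p + q) ^ 2 := by
  rcases eq_or_ne (p + q) 0 with h0 | h0
  · have hq : q = -p := by linarith only [h0]
    have hp : p ≠ 0 := by
      rcases h with h | h
      · exact h
      · intro h'; apply h; rw [hq, h']; simp
    have e : a * p ^ 2 + b * q ^ 2 - c * (p + q) ^ 2 = (a + b) * p ^ 2 := by rw [hq]; ring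
    rw [e]
    positivity
  · have h1 : 0 < -c * (p + q) ^ 2 := by
      have : 0 < -c := by linarith only [hc]
      positivity
    have h2 : 0 ≤ a * p ^ 2 := by positivity
    have h3 : 0 ≤ b * q ^ 2 := by positivity
    linarith only [h1, h2, h3]

lemma formR_pos {A B C p q : ℝ} (h1 : 0 < A + B) (h2 : 0 < 4 * A * B + C * (A + B))
    (h : p ≠ 0 ∨ q ≠ 0) : 0 < A * (p + q) ^ 2 + B * (p - q) ^ 2 + C * p ^ 2 := by
  have e : (A + B) * (A * (p + q) ^ 2 + B * (p - q) ^ 2 + C * p ^ 2) =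
      ((A + B) * q + (A - B) * p) ^ 2 + (4 * A * B + C * (A + B)) * p ^ 2 := by ring
  have h3 : 0 < (A + B) * (A * (p + q) ^ 2 + B * (p - q) ^ 2 + C * p ^ 2) := by
    rw [e]
    rcases eq_or_ne p 0 with h0 | h0
    · have hq : q ≠ 0 := by
        rcases h with h | h
        · exact absurd h0 h
        · exact h
      rw [h0]
      have : 0 < ((A + B) * q) ^ 2 := by positivity
      simpa using this
    · have : 0 < (4 * A * B + C * (A + B)) * p ^ 2 := by positivity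
      have := sq_nonneg ((A + B) * q + (A - B) * p)
      linarith
  exact (mul_pos_iff_of_pos_left h1).1 h3

lemma form3_pos {a m l b c p q r : ℝ} (ham : 0 < a + m) (hl : 0 < a * m + l * (a + m))
    (hb : 0 < b) (hc : c ≤ 0) (h : p ≠ 0 ∨ q ≠ 0 ∨ r ≠ 0) :
    0 < a * p ^ 2 + m * (p - q) ^ 2 + l * q ^ 2 + b * r ^ 2 - c * (q + r) ^ 2 := by
  have e : (a + m) * (a * p ^ 2 + m * (p - q) ^ 2 + l * q ^ 2) =
      ((a + m) * p - m * q) ^ 2 + (a * m + l * (a + m)) * q ^ 2 := by ring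
  have h0 : 0 ≤ -c * (q + r) ^ 2 := mul_nonneg (by linarith only [hc]) (sq_nonneg _)
  have h1 : 0 ≤ (a + m) * (a * p ^ 2 + m * (p - q) ^ 2 + l * q ^ 2) := by
    rw [e]; positivity
  have h2 : 0 ≤ a * p ^ 2 + m * (p - q) ^ 2 + l * q ^ 2 := nonneg_of_mul_nonneg_right h1 ham
  rcases eq_or_ne r 0 with hr | hr
  · have h3 : 0 < (a + m) * (a * p ^ 2 + m * (p - q) ^ 2 + l * q ^ 2) := by
      rw [e]
      rcases eq_or_ne q 0 with hq | hq
      · have hp : p ≠ 0 := by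
          rcases h with h | h | h
          · exact h
          · exact absurd hq h
          · exact absurd hr h
        rw [hq]
        have : 0 < ((a + m) * p) ^ 2 := by positivity
        simpa using this
      · have : 0 < (a * m + l * (a + m)) * q ^ 2 := by positivity
        have := sq_nonneg ((a + m) * p - m * q)
        linarith
    have h4 : 0 < a * p ^ 2 + m * (p - q) ^ 2 + l * q ^ 2 := (mul_pos_iff_of_pos_left ham).1 h3
    have h5 : 0 ≤ b * r ^ 2 := by positivity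
    linarith only [h0, h4, h5]
  · have h5 : 0 < b * r ^ 2 := by positivity
    linarith only [h0, h2, h5]

/-! ### the cotangent -/

lemma cot_form {u v : ℂ} (hu : 0 < u.re) (hv : 0 < v.re)
    (h : |u.re * v.im - v.re * u.im| < u.re + v.re) :
    ((u * v - 1) / (u + v)).re * (u.re + v.re) < u.re * v.re := by
  have hn : 0 < Complex.normSq (u + v) := by
    rw [Complex.normSq_apply]
    have h0 : 0 < (u + v).re := by simp only [Complex.add_re]; linarith only [hu, hv]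
    nlinarith only [h0, mul_self_nonneg (u + v).im, mul_pos h0 h0]
  have hsq : (u.re * v.im - v.re * u.im) ^ 2 < (u.re + v.re) ^ 2 := by
    rw [← sq_abs]
    exact pow_lt_pow_left₀ h (abs_nonneg _) two_ne_zero
  rw [Complex.div_re, ← add_div, div_mul_eq_mul_div, div_lt_iff₀ hn, Complex.normSq_apply]
  simp only [Complex.sub_re, Complex.mul_re, Complex.one_re, Complex.add_re, Complex.sub_im,
    Complex.mul_im, Complex.one_im, Complex.add_im, sub_zero]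
  nlinarith only [hsq, hsq]

lemma ph'_add {w v : ℂ} (hw : w ∈ strip) (hv : v ∈ strip) (hwv : w + v ∈ strip) :
    ph' (w + v) = Real.pi * (((ph' w / Real.pi) * (ph' v / Real.pi) - 1) /
      (ph' w / Real.pi + ph' v / Real.pi)) := by
  have hpi : (Real.pi : ℂ) ≠ 0 := Complex.ofReal_ne_zero.2 Real.pi_ne_zero
  have h1 := sin_pi_ne hw
  have h2 := sin_pi_ne hv
  have h3 := sin_pi_ne hwv
  have e1 : Complex.sin (Real.pi * (w + v)) = Complex.sin (Real.pi * w) * Complex.cos (Real.pi * v) +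
      Complex.cos (Real.pi * w) * Complex.sin (Real.pi * v) := by
    rw [mul_add, Complex.sin_add]
  have e2 : Complex.cos (Real.pi * (w + v)) = Complex.cos (Real.pi * w) * Complex.cos (Real.pi * v) -
      Complex.sin (Real.pi * w) * Complex.sin (Real.pi * v) := by
    rw [mul_add, Complex.cos_add]
  rw [e1] at h3
  unfold ph'
  rw [e1, e2]
  have h4 : Real.pi * Complex.cos (Real.pi * w) / Complex.sin (Real.pi * w) / Real.pi +
      Real.pi * Complex.cos (Real.pi * v) / Complex.sin (Real.pi * v) / Real.pi =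
      (Complex.sin (Real.pi * w) * Complex.cos (Real.pi * v) +
      Complex.cos (Real.pi * w) * Complex.sin (Real.pi * v)) /
      (Complex.sin (Real.pi * w) * Complex.sin (Real.pi * v)) := by
    field_simp
    ring
  have h5 : Real.pi * Complex.cos (Real.pi * w) / Complex.sin (Real.pi * w) / Real.pi *
      (Real.pi * Complex.cos (Real.pi * v) / Complex.sin (Real.pi * v) / Real.pi) - 1 =
      (Complex.cos (Real.pi * w) * Complex.cos (Real.pi * v) -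
      Complex.sin (Real.pi * w) * Complex.sin (Real.pi * v)) /
      (Complex.sin (Real.pi * w) * Complex.sin (Real.pi * v)) := by
    field_simp
  rw [h4, h5, div_div_div_cancel_right₀ (mul_ne_zero h1 h2), mul_div_assoc]

/-- the condition at a hinge of a kernel of one or two crossings: `|Im cot π w| < 1` -/
def Hg (w : ℂ) : Prop := 0 < w.re ∧ w.re < 1 / 2 ∧ |(ph' w).im| < Real.pi

lemma ph'_form {w v : ℂ} (hw : Hg w) (hv : Hg v) :
    (ph' (w + v)).re * ((ph' w).re + (ph' v).re) < (ph' w).re * (ph' v).re := by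
  have hpi := Real.pi_pos
  have sw : w ∈ strip := ⟨hw.1, by linarith only [hw, hw.2.1]⟩
  have sv : v ∈ strip := ⟨hv.1, by linarith only [hv, hv.2.1]⟩
  have swv : w + v ∈ strip := ⟨by simp only [Complex.add_re]; linarith only [hw, hv, hw.1, hv.1],
    by simp only [Complex.add_re]; linarith only [hw, hv, hw.2.1, hv.2.1]⟩
  have pw := ph'_re_pos hw.1 hw.2.1
  have pv := ph'_re_pos hv.1 hv.2.1
  have rw1 : (ph' w / Real.pi).re = (ph' w).re / Real.pi := by simp [Complex.div_ofReal_re]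
  have rv1 : (ph' v / Real.pi).re = (ph' v).re / Real.pi := by simp [Complex.div_ofReal_re]
  have iw1 : (ph' w / Real.pi).im = (ph' w).im / Real.pi := by simp [Complex.div_ofReal_im]
  have iv1 : (ph' v / Real.pi).im = (ph' v).im / Real.pi := by simp [Complex.div_ofReal_im]
  have hw2 : |(ph' w).im / Real.pi| < 1 := by
    rw [abs_div, abs_of_pos hpi, div_lt_one hpi]; exact hw.2.2
  have hv2 : |(ph' v).im / Real.pi| < 1 := by
    rw [abs_div, abs_of_pos hpi, div_lt_one hpi]; exact hv.2.2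
  have qw : 0 < (ph' w).re / Real.pi := by positivity
  have qv : 0 < (ph' v).re / Real.pi := by positivity
  have key := cot_form (u := ph' w / Real.pi) (v := ph' v / Real.pi) (by rw [rw1]; exact qw)
    (by rw [rv1]; exact qv) (by
      rw [rw1, rv1, iw1, iv1]
      have h1 : |(ph' w).re / Real.pi * ((ph' v).im / Real.pi)| < (ph' w).re / Real.pi := by
        rw [abs_mul, abs_of_pos qw]
        nlinarith only [hv2, qw, abs_nonneg ((ph' v).im / Real.pi)]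
      have h2 : |(ph' v).re / Real.pi * ((ph' w).im / Real.pi)| < (ph' v).re / Real.pi := by
        rw [abs_mul, abs_of_pos qv]
        nlinarith only [hw2, qv, abs_nonneg ((ph' w).im / Real.pi)]
      exact (abs_sub _ _).trans_lt (by linarith only [h1, h2]))
  rw [rw1, rv1] at key
  rw [ph'_add sw sv swv, Complex.re_ofReal_mul]
  have e : Real.pi * (((ph' w / Real.pi) * (ph' v / Real.pi) - 1) /
      (ph' w / Real.pi + ph' v / Real.pi)).re * ((ph' w).re + (ph' v).re) =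
      Real.pi ^ 2 * ((((ph' w / Real.pi) * (ph' v / Real.pi) - 1) /
      (ph' w / Real.pi + ph' v / Real.pi)).re * ((ph' w).re / Real.pi + (ph' v).re / Real.pi)) := by
    field_simp
  have e' : (ph' w).re * (ph' v).re =
      Real.pi ^ 2 * ((ph' w).re / Real.pi * ((ph' v).re / Real.pi)) := by
    field_simp
  rw [e, e']
  exact mul_lt_mul_of_pos_left key (by positivity)

/-! ### one twist region -/

/-- the real part of the second derivative of the potential of a twist region is negative definite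
in the variables which occur -/
def Neg (t : Typ) (b : ℤ) (l r : Bool) (x : Fin 3 → ℂ) : Prop :=
  ∀ Y : Fin 3 → ℝ, (l = false → Y 0 = 0) → (r = false → Y 2 = 0) →
    (t.isMid = false → t.isRing = false → Y 1 = 0) → Y ≠ 0 →
    (lQ2 t b l r x fun p => (Y p : ℂ)).re < 0

lemma lQ2_re (t : Typ) (b : ℤ) (l r : Bool) (x : Fin 3 → ℂ) (Y : Fin 3 → ℝ) :
    (lQ2 t b l r x fun p => (Y p : ℂ)).re =
    ((facs t l r).map fun f => (ph' (f.form x)).re / 2 * (∑ p, f.α p * Y p) ^ 2).sum := by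
  have h1 : (un b * ∑ p, ∑ p', (qq2 t p p' : ℂ) * (Y p : ℂ) * (Y p' : ℂ)).re = 0 := by
    have : (∑ p, ∑ p', (qq2 t p p' : ℂ) * (Y p : ℂ) * (Y p' : ℂ)) =
        ((∑ p, ∑ p', (qq2 t p p' : ℝ) * Y p * Y p' : ℝ) : ℂ) := by push_cast; rfl
    rw [this, mul_comm, Complex.re_ofReal_mul]
    unfold un
    split_ifs <;> simp
  unfold lQ2
  rw [Complex.add_re, h1, zero_add]
  generalize facs t l r = L
  induction L with
  | nil => simp
  | cons f L ih =>
    rw [List.map_cons, List.sum_cons, List.map_cons, List.sum_cons, Complex.add_re, ih]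
    congr 1
    have : (∑ p, (f.α p : ℂ) * (Y p : ℂ)) = ((∑ p, (f.α p : ℝ) * Y p : ℝ) : ℂ) := by
      push_cast; rfl
    rw [this, ← Complex.ofReal_pow, mul_comm, Complex.re_ofReal_mul]
    have e2 : (ph' (f.form x) / 2).re = (ph' (f.form x)).re / 2 := by
      rw [show (2 : ℂ) = ((2 : ℝ) : ℂ) by norm_num, Complex.div_ofReal_re]
    rw [e2]
    ring

lemma fin3_ne {Y : Fin 3 → ℝ} (h : Y ≠ 0) : Y 0 ≠ 0 ∨ Y 1 ≠ 0 ∨ Y 2 ≠ 0 := by
  by_contra hc
  push Not at hc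
  apply h
  ext p
  fin_cases p
  · exact hc.1
  · exact hc.2.1
  · exact hc.2.2

lemma re_one_sub (w : ℂ) : (ph' (1 - w)).re = -(ph' w).re := by
  rw [LT.ph'_one_sub]; simp

lemma fm (f : Fac) (x : Fin 3 → ℂ) : f.form x = f.a + (f.α 0 * x 0 + f.α 1 * x 1 + f.α 2 * x 2) := by
  unfold Fac.form
  rw [Fin.sum_univ_three]

lemma re_neg_of_gt {w : ℂ} (h0 : 1 / 2 < w.re) (h1 : w.re < 1) : (ph' w).re < 0 := by
  have := re_one_sub w
  have h2 := ph'_re_pos (z := 1 - w) (by simp; linarith only [h1]) (by simp; linarith only [h0])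
  linarith only [this, h2]

lemma re_nonpos_of_ge {w : ℂ} (h0 : 1 / 2 ≤ w.re) (h1 : w.re < 1) : (ph' w).re ≤ 0 := by
  rcases eq_or_lt_of_le h0 with h | h
  · have e : Real.cos (Real.pi * (1 / 2)) = 0 := by rw [mul_one_div]; exact Real.cos_pi_div_two
    rw [ph'_re ⟨by linarith only [h0, h1], h1⟩, ← h, e]
    simp
  · exact (re_neg_of_gt h h1).le

lemma re_nonneg_of_le {w : ℂ} (h0 : 0 < w.re) (h1 : w.re ≤ 1 / 2) : 0 ≤ (ph' w).re := by
  rcases eq_or_lt_of_le h1 with h | h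
  · have e : Real.cos (Real.pi * (1 / 2)) = 0 := by rw [mul_one_div]; exact Real.cos_pi_div_two
    rw [ph'_re ⟨h0, by linarith only [h0, h1]⟩, h, e]
    simp
  · exact (ph'_re_pos h0 h).le

lemma one_re (b : ℤ) (x : Fin 3 → ℂ) (Y : Fin 3 → ℝ) (hY : Y 1 = 0) :
    (lQ2 .one b true true x fun p => (Y p : ℂ)).re =
    -((ph' (x 0)).re * Y 0 ^ 2 + (ph' (x 2)).re * Y 2 ^ 2 -
      (ph' (x 0 + x 2)).re * (Y 0 + Y 2) ^ 2) / 2 := by
  rw [lQ2_re]
  simp only [facs, Bool.or_self, if_true, List.map_append, List.map_cons, List.map_nil,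
    List.sum_append, List.sum_cons, List.sum_nil, fm, Fin.sum_univ_three]
  have e1 : ((0 : ℝ) : ℂ) + (((![1, 0, 1] : Fin 3 → ℤ) 0 : ℂ) * x 0 + ((![1, 0, 1] : Fin 3 → ℤ) 1 : ℂ) * x 1 +
      ((![1, 0, 1] : Fin 3 → ℤ) 2 : ℂ) * x 2) = x 0 + x 2 := by
    simp
  have e2 : ((1 : ℝ) : ℂ) + (((![-1, 0, 0] : Fin 3 → ℤ) 0 : ℂ) * x 0 +
      ((![-1, 0, 0] : Fin 3 → ℤ) 1 : ℂ) * x 1 + ((![-1, 0, 0] : Fin 3 → ℤ) 2 : ℂ) * x 2) = 1 - x 0 := by
    simp; ring
  have e3 : ((1 : ℝ) : ℂ) + (((![0, 0, -1] : Fin 3 → ℤ) 0 : ℂ) * x 0 +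
      ((![0, 0, -1] : Fin 3 → ℤ) 1 : ℂ) * x 1 + ((![0, 0, -1] : Fin 3 → ℤ) 2 : ℂ) * x 2) = 1 - x 2 := by
    simp; ring
  rw [e1, e2, e3, re_one_sub, re_one_sub]
  simp [hY]
  ring

/-- one crossing, both hinges small in the sense of `Hg` -/
theorem neg_one {b : ℤ} {x : Fin 3 → ℂ} (h0 : Hg (x 0)) (h2 : Hg (x 2)) :
    Neg .one b true true x := by
  intro Y _ _ h1 hY
  have hY1 : Y 1 = 0 := h1 rfl rfl
  have key := form2_pos (p := Y 0) (q := Y 2) (ph'_re_pos h0.1 h0.2.1) (ph'_re_pos h2.1 h2.2.1)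
    (ph'_form h0 h2) (by rcases fin3_ne hY with h | h | h <;> simp_all)
  rw [one_re b x Y hY1]
  linarith only [key]

/-- one crossing, `Re (w + w') > 1 / 2` -/
theorem neg_one' {b : ℤ} {x : Fin 3 → ℂ} (h0 : 0 < (x 0).re) (h0' : (x 0).re ≤ 1 / 2)
    (h2 : 0 < (x 2).re) (h2' : (x 2).re ≤ 1 / 2) (h : 1 / 2 < (x 0).re + (x 2).re)
    (h' : (x 0).re + (x 2).re < 1) : Neg .one b true true x := by
  intro Y _ _ h1 hY
  have hY1 : Y 1 = 0 := h1 rfl rfl
  have hab : 0 < (ph' (x 0)).re + (ph' (x 2)).re := by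
    rcases eq_or_lt_of_le h0' with h3 | h3
    · have := re_nonneg_of_le h0 h0'
      have := ph'_re_pos (z := x 2) h2 (by linarith only [h', h3])
      linarith
    · have := re_nonneg_of_le h2 h2'
      have := ph'_re_pos (z := x 0) h0 h3
      linarith
  have key := form2_pos' (p := Y 0) (q := Y 2) (re_nonneg_of_le h0 h0') (re_nonneg_of_le h2 h2') hab
    (re_neg_of_gt (w := x 0 + x 2) (by simpa using h) (by simpa using h'))
    (by rcases fin3_ne hY with h | h | h <;> simp_all)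
  rw [one_re b x Y hY1]
  linarith only [key]

lemma two_re (b : ℤ) (x : Fin 3 → ℂ) (Y : Fin 3 → ℝ) (hY : Y 1 = 0) :
    (lQ2 .two b true true x fun p => (Y p : ℂ)).re =
    -(2 * (ph' (x 0)).re * Y 0 ^ 2 + 2 * (ph' (x 2)).re * Y 2 ^ 2 -
      (ph' (x 0 + x 2)).re * (Y 0 + Y 2) ^ 2) / 2 := by
  rw [lQ2_re]
  simp only [facs, hL, hR, Bool.or_self, if_true, List.map_append, List.map_cons, List.map_nil,
    List.sum_append, List.sum_cons, List.sum_nil, fm, Fin.sum_univ_three]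
  have e1 : ((0 : ℝ) : ℂ) + (((![1, 0, 1] : Fin 3 → ℤ) 0 : ℂ) * x 0 + ((![1, 0, 1] : Fin 3 → ℤ) 1 : ℂ) * x 1 +
      ((![1, 0, 1] : Fin 3 → ℤ) 2 : ℂ) * x 2) = x 0 + x 2 := by
    simp
  have e2 : ((1 : ℝ) : ℂ) + (((![-1, 0, 0] : Fin 3 → ℤ) 0 : ℂ) * x 0 +
      ((![-1, 0, 0] : Fin 3 → ℤ) 1 : ℂ) * x 1 + ((![-1, 0, 0] : Fin 3 → ℤ) 2 : ℂ) * x 2) = 1 - x 0 := by
    simp; ring
  have e3 : ((1 : ℝ) : ℂ) + (((![0, 0, -1] : Fin 3 → ℤ) 0 : ℂ) * x 0 +
      ((![0, 0, -1] : Fin 3 → ℤ) 1 : ℂ) * x 1 + ((![0, 0, -1] : Fin 3 → ℤ) 2 : ℂ) * x 2) = 1 - x 2 := by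
    simp; ring
  rw [e1, e2, e3, re_one_sub, re_one_sub]
  simp [hY]
  ring

/-- two crossings, both hinges small in the sense of `Hg` -/
theorem neg_two {b : ℤ} {x : Fin 3 → ℂ} (h0 : Hg (x 0)) (h2 : Hg (x 2)) :
    Neg .two b true true x := by
  intro Y _ _ h1 hY
  have hY1 : Y 1 = 0 := h1 rfl rfl
  have p0 := ph'_re_pos h0.1 h0.2.1
  have p2 := ph'_re_pos h2.1 h2.2.1
  have key := form2_pos (a := 2 * (ph' (x 0)).re) (b := 2 * (ph' (x 2)).re)
    (c := (ph' (x 0 + x 2)).re) (p := Y 0) (q := Y 2) (by linarith only [p0]) (by linarith only [p2])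
    (by nlinarith only [h0, h2, p0, p2, ph'_form h0 h2, mul_pos p0 p2])
    (by rcases fin3_ne hY with h | h | h <;> simp_all)
  rw [two_re b x Y hY1]
  linarith only [key]

/-- two crossings at the left end -/
theorem neg_two_left {b : ℤ} {x : Fin 3 → ℂ} (h : x 0 = 0) (h0 : 0 < (x 2).re)
    (h2 : (x 2).re < 1 / 2) : Neg .two b false true x := by
  intro Y hl _ h1 hY
  have hY1 : Y 1 = 0 := h1 rfl rfl
  have hY0 : Y 0 = 0 := hl rfl
  have hY2 : Y 2 ≠ 0 := by rcases fin3_ne hY with h | h | h <;> simp_all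
  have p0 := ph'_re_pos h0 h2
  rw [lQ2_re]
  simp only [facs, hL, hR, Bool.or_true, Bool.false_eq_true, if_false, if_true, List.map_append,
    List.map_cons, List.map_nil, List.sum_append, List.sum_cons, List.sum_nil, fm,
    Fin.sum_univ_three]
  have e1 : ((0 : ℝ) : ℂ) + (((![1, 0, 1] : Fin 3 → ℤ) 0 : ℂ) * x 0 + ((![1, 0, 1] : Fin 3 → ℤ) 1 : ℂ) * x 1 +
      ((![1, 0, 1] : Fin 3 → ℤ) 2 : ℂ) * x 2) = x 2 := by
    simp [h]
  have e3 : ((1 : ℝ) : ℂ) + (((![0, 0, -1] : Fin 3 → ℤ) 0 : ℂ) * x 0 +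
      ((![0, 0, -1] : Fin 3 → ℤ) 1 : ℂ) * x 1 + ((![0, 0, -1] : Fin 3 → ℤ) 2 : ℂ) * x 2) = 1 - x 2 := by
    simp; ring
  rw [e1, e3, re_one_sub]
  simp [hY0, hY1]
  have : 0 < (ph' (x 2)).re * Y 2 ^ 2 := by positivity
  nlinarith only [this, this]

/-- two crossings at the right end -/
theorem neg_two_right {b : ℤ} {x : Fin 3 → ℂ} (h : x 2 = 0) (h0 : 0 < (x 0).re)
    (h2 : (x 0).re < 1 / 2) : Neg .two b true false x := by
  intro Y _ hr h1 hY
  have hY1 : Y 1 = 0 := h1 rfl rfl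
  have hY0 : Y 2 = 0 := hr rfl
  have hY2 : Y 0 ≠ 0 := by rcases fin3_ne hY with h | h | h <;> simp_all
  have p0 := ph'_re_pos h0 h2
  rw [lQ2_re]
  simp only [facs, hL, hR, Bool.or_false, Bool.false_eq_true, if_false, if_true, List.map_append,
    List.map_cons, List.map_nil, List.sum_append, List.sum_cons, List.sum_nil, fm,
    Fin.sum_univ_three]
  have e1 : ((0 : ℝ) : ℂ) + (((![1, 0, 1] : Fin 3 → ℤ) 0 : ℂ) * x 0 + ((![1, 0, 1] : Fin 3 → ℤ) 1 : ℂ) * x 1 +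
      ((![1, 0, 1] : Fin 3 → ℤ) 2 : ℂ) * x 2) = x 0 := by
    simp [h]
  have e3 : ((1 : ℝ) : ℂ) + (((![-1, 0, 0] : Fin 3 → ℤ) 0 : ℂ) * x 0 +
      ((![-1, 0, 0] : Fin 3 → ℤ) 1 : ℂ) * x 1 + ((![-1, 0, 0] : Fin 3 → ℤ) 2 : ℂ) * x 2) = 1 - x 0 := by
    simp; ring
  rw [e1, e3, re_one_sub]
  simp [hY0, hY1]
  have : 0 < (ph' (x 0)).re * Y 0 ^ 2 := by positivity
  nlinarith only [this, this]

/-! ### three crossings -/

/-- the conditions for the inner variable `l` of three crossings with `a1` at `w` -/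
def Hl (w l : ℂ) : Prop := 0 < w.re ∧ w.re ≤ 1 / 2 ∧ 0 < l.re - w.re ∧ l.re - w.re ≤ 1 / 2 ∧
  0 < (ph' w).re * (ph' (l - w)).re + (ph' l).re * ((ph' w).re + (ph' (l - w)).re)

lemma Hl.add_pos {w l : ℂ} (h : Hl w l) : 0 < (ph' w).re + (ph' (l - w)).re := by
  have h1 := re_nonneg_of_le h.1 h.2.1
  have h2 := re_nonneg_of_le (w := l - w) (by simpa using h.2.2.1) (by simpa using h.2.2.2.1)
  rcases eq_or_lt_of_le h1 with h3 | h3
  · rcases eq_or_lt_of_le h2 with h4 | h4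
    · have := h.2.2.2.2
      rw [← h3, ← h4] at this
      simp at this
    · linarith only [h1, h4]
  · linarith only [h2, h3]

theorem neg_threeL {b : ℤ} {x : Fin 3 → ℂ} (h : Hl (x 0) (x 1)) (h0 : 0 < (x 2).re)
    (h1 : (x 2).re < 1 / 2) (h2 : 1 / 2 ≤ (x 1).re + (x 2).re) (h3 : (x 1).re + (x 2).re < 1) :
    Neg .threeL b true true x := by
  intro Y _ _ _ hY
  have key := form3_pos (p := Y 0) (q := Y 1) (r := Y 2) h.add_pos h.2.2.2.2
    (b := 2 * (ph' (x 2)).re) (by linarith only [h0, h1, ph'_re_pos h0 h1])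
    (re_nonpos_of_ge (w := x 1 + x 2) (by simpa using h2) (by simpa using h3)) (fin3_ne hY)
  rw [lQ2_re]
  simp only [facs, hR, if_true, List.map_append, List.map_cons, List.map_nil,
    List.sum_append, List.sum_cons, List.sum_nil, fm, Fin.sum_univ_three]
  have e1 : ((0 : ℝ) : ℂ) + (((![0, 1, 1] : Fin 3 → ℤ) 0 : ℂ) * x 0 + ((![0, 1, 1] : Fin 3 → ℤ) 1 : ℂ) * x 1 +
      ((![0, 1, 1] : Fin 3 → ℤ) 2 : ℂ) * x 2) = x 1 + x 2 := by
    simp
  have e2 : ((1 : ℝ) : ℂ) + (((![1, -1, 0] : Fin 3 → ℤ) 0 : ℂ) * x 0 +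
      ((![1, -1, 0] : Fin 3 → ℤ) 1 : ℂ) * x 1 + ((![1, -1, 0] : Fin 3 → ℤ) 2 : ℂ) * x 2) =
      1 - (x 1 - x 0) := by
    simp; ring
  have e3 : ((1 : ℝ) : ℂ) + (((![0, -1, 0] : Fin 3 → ℤ) 0 : ℂ) * x 0 +
      ((![0, -1, 0] : Fin 3 → ℤ) 1 : ℂ) * x 1 + ((![0, -1, 0] : Fin 3 → ℤ) 2 : ℂ) * x 2) = 1 - x 1 := by
    simp; ring
  have e4 : ((1 : ℝ) : ℂ) + (((![-1, 0, 0] : Fin 3 → ℤ) 0 : ℂ) * x 0 +
      ((![-1, 0, 0] : Fin 3 → ℤ) 1 : ℂ) * x 1 + ((![-1, 0, 0] : Fin 3 → ℤ) 2 : ℂ) * x 2) = 1 - x 0 := by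
    simp; ring
  have e5 : ((1 : ℝ) : ℂ) + (((![0, 0, -1] : Fin 3 → ℤ) 0 : ℂ) * x 0 +
      ((![0, 0, -1] : Fin 3 → ℤ) 1 : ℂ) * x 1 + ((![0, 0, -1] : Fin 3 → ℤ) 2 : ℂ) * x 2) = 1 - x 2 := by
    simp; ring
  rw [e1, e2, e3, e4, e5, re_one_sub, re_one_sub, re_one_sub, re_one_sub]
  simp
  nlinarith only [key, key]

theorem neg_threeR {b : ℤ} {x : Fin 3 → ℂ} (h : Hl (x 2) (x 1)) (h0 : 0 < (x 0).re)
    (h1 : (x 0).re < 1 / 2) (h2 : 1 / 2 ≤ (x 1).re + (x 0).re) (h3 : (x 1).re + (x 0).re < 1) :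
    Neg .threeR b true true x := by
  intro Y _ _ _ hY
  have key := form3_pos (p := Y 2) (q := Y 1) (r := Y 0) h.add_pos h.2.2.2.2
    (b := 2 * (ph' (x 0)).re) (by linarith only [h0, h1, ph'_re_pos h0 h1])
    (re_nonpos_of_ge (w := x 0 + x 1) (by simp; linarith only [h2]) (by simp; linarith only [h3]))
    (by rcases fin3_ne hY with h | h | h <;> simp [h])
  rw [lQ2_re]
  simp only [facs, hL, if_true, List.map_append, List.map_cons, List.map_nil,
    List.sum_append, List.sum_cons, List.sum_nil, fm, Fin.sum_univ_three]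
  have e1 : ((0 : ℝ) : ℂ) + (((![1, 1, 0] : Fin 3 → ℤ) 0 : ℂ) * x 0 + ((![1, 1, 0] : Fin 3 → ℤ) 1 : ℂ) * x 1 +
      ((![1, 1, 0] : Fin 3 → ℤ) 2 : ℂ) * x 2) = x 0 + x 1 := by
    simp
  have e2 : ((1 : ℝ) : ℂ) + (((![0, -1, 1] : Fin 3 → ℤ) 0 : ℂ) * x 0 +
      ((![0, -1, 1] : Fin 3 → ℤ) 1 : ℂ) * x 1 + ((![0, -1, 1] : Fin 3 → ℤ) 2 : ℂ) * x 2) =
      1 - (x 1 - x 2) := by
    simp; ring
  have e3 : ((1 : ℝ) : ℂ) + (((![0, -1, 0] : Fin 3 → ℤ) 0 : ℂ) * x 0 +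
      ((![0, -1, 0] : Fin 3 → ℤ) 1 : ℂ) * x 1 + ((![0, -1, 0] : Fin 3 → ℤ) 2 : ℂ) * x 2) = 1 - x 1 := by
    simp; ring
  have e4 : ((1 : ℝ) : ℂ) + (((![-1, 0, 0] : Fin 3 → ℤ) 0 : ℂ) * x 0 +
      ((![-1, 0, 0] : Fin 3 → ℤ) 1 : ℂ) * x 1 + ((![-1, 0, 0] : Fin 3 → ℤ) 2 : ℂ) * x 2) = 1 - x 0 := by
    simp; ring
  have e5 : ((1 : ℝ) : ℂ) + (((![0, 0, -1] : Fin 3 → ℤ) 0 : ℂ) * x 0 +
      ((![0, 0, -1] : Fin 3 → ℤ) 1 : ℂ) * x 1 + ((![0, 0, -1] : Fin 3 → ℤ) 2 : ℂ) * x 2) = 1 - x 2 := by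
    simp; ring
  rw [e1, e2, e3, e4, e5, re_one_sub, re_one_sub, re_one_sub, re_one_sub]
  simp
  nlinarith only [key, key]

/-- three crossings at the left end, `a1` at the right hinge -/
theorem neg_three_left {b : ℤ} {x : Fin 3 → ℂ} (h : x 0 = 0) (h0 : 0 < (x 2).re)
    (h1 : (x 2).re < 1 / 2) (h2 : 0 < (x 1).re - (x 2).re) (h3 : (x 1).re - (x 2).re < 1 / 2) :
    Neg .threeR b false true x := by
  intro Y hl _ _ hY
  have hY0 : Y 0 = 0 := hl rfl
  have p1 := ph'_re_pos h0 h1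
  have p2 := ph'_re_pos (z := x 1 - x 2) (by simpa using h2) (by simpa using h3)
  rw [lQ2_re]
  simp only [facs, hL, if_true, Bool.false_eq_true, if_false, List.map_append, List.map_cons,
    List.map_nil, List.sum_append, List.sum_cons, List.sum_nil, fm, Fin.sum_univ_three]
  have e1 : ((0 : ℝ) : ℂ) + (((![1, 1, 0] : Fin 3 → ℤ) 0 : ℂ) * x 0 + ((![1, 1, 0] : Fin 3 → ℤ) 1 : ℂ) * x 1 +
      ((![1, 1, 0] : Fin 3 → ℤ) 2 : ℂ) * x 2) = x 1 := by
    simp [h]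
  have e2 : ((1 : ℝ) : ℂ) + (((![0, -1, 1] : Fin 3 → ℤ) 0 : ℂ) * x 0 +
      ((![0, -1, 1] : Fin 3 → ℤ) 1 : ℂ) * x 1 + ((![0, -1, 1] : Fin 3 → ℤ) 2 : ℂ) * x 2) =
      1 - (x 1 - x 2) := by
    simp; ring
  have e3 : ((1 : ℝ) : ℂ) + (((![0, -1, 0] : Fin 3 → ℤ) 0 : ℂ) * x 0 +
      ((![0, -1, 0] : Fin 3 → ℤ) 1 : ℂ) * x 1 + ((![0, -1, 0] : Fin 3 → ℤ) 2 : ℂ) * x 2) = 1 - x 1 := by
    simp; ring
  have e5 : ((1 : ℝ) : ℂ) + (((![0, 0, -1] : Fin 3 → ℤ) 0 : ℂ) * x 0 +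
      ((![0, 0, -1] : Fin 3 → ℤ) 1 : ℂ) * x 1 + ((![0, 0, -1] : Fin 3 → ℤ) 2 : ℂ) * x 2) = 1 - x 2 := by
    simp; ring
  rw [e1, e2, e3, e5, re_one_sub, re_one_sub, re_one_sub]
  simp [hY0]
  have key : 0 < (ph' (x 1 - x 2)).re * (Y 2 - Y 1) ^ 2 + (ph' (x 2)).re * Y 2 ^ 2 := by
    rcases eq_or_ne (Y 2) 0 with h4 | h4
    · have h5 : Y 1 ≠ 0 := by rcases fin3_ne hY with h | h | h <;> simp_all
      have : 0 < (ph' (x 1 - x 2)).re * Y 1 ^ 2 := by positivity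
      rw [h4]
      nlinarith only [this, this]
    · have : 0 < (ph' (x 2)).re * Y 2 ^ 2 := by positivity
      have : 0 ≤ (ph' (x 1 - x 2)).re * (Y 2 - Y 1) ^ 2 := by positivity
      linarith
  nlinarith only [key, key]

/-- three crossings at the right end, `a1` at the left hinge -/
theorem neg_three_right {b : ℤ} {x : Fin 3 → ℂ} (h : x 2 = 0) (h0 : 0 < (x 0).re)
    (h1 : (x 0).re < 1 / 2) (h2 : 0 < (x 1).re - (x 0).re) (h3 : (x 1).re - (x 0).re < 1 / 2) :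
    Neg .threeL b true false x := by
  intro Y _ hr _ hY
  have hY0 : Y 2 = 0 := hr rfl
  have p1 := ph'_re_pos h0 h1
  have p2 := ph'_re_pos (z := x 1 - x 0) (by simpa using h2) (by simpa using h3)
  rw [lQ2_re]
  simp only [facs, hR, if_true, Bool.false_eq_true, if_false, List.map_append, List.map_cons,
    List.map_nil, List.sum_append, List.sum_cons, List.sum_nil, fm, Fin.sum_univ_three]
  have e1 : ((0 : ℝ) : ℂ) + (((![0, 1, 1] : Fin 3 → ℤ) 0 : ℂ) * x 0 + ((![0, 1, 1] : Fin 3 → ℤ) 1 : ℂ) * x 1 +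
      ((![0, 1, 1] : Fin 3 → ℤ) 2 : ℂ) * x 2) = x 1 := by
    simp [h]
  have e2 : ((1 : ℝ) : ℂ) + (((![1, -1, 0] : Fin 3 → ℤ) 0 : ℂ) * x 0 +
      ((![1, -1, 0] : Fin 3 → ℤ) 1 : ℂ) * x 1 + ((![1, -1, 0] : Fin 3 → ℤ) 2 : ℂ) * x 2) =
      1 - (x 1 - x 0) := by
    simp; ring
  have e3 : ((1 : ℝ) : ℂ) + (((![0, -1, 0] : Fin 3 → ℤ) 0 : ℂ) * x 0 +
      ((![0, -1, 0] : Fin 3 → ℤ) 1 : ℂ) * x 1 + ((![0, -1, 0] : Fin 3 → ℤ) 2 : ℂ) * x 2) = 1 - x 1 := by
    simp; ring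
  have e5 : ((1 : ℝ) : ℂ) + (((![-1, 0, 0] : Fin 3 → ℤ) 0 : ℂ) * x 0 +
      ((![-1, 0, 0] : Fin 3 → ℤ) 1 : ℂ) * x 1 + ((![-1, 0, 0] : Fin 3 → ℤ) 2 : ℂ) * x 2) = 1 - x 0 := by
    simp; ring
  rw [e1, e2, e3, e5, re_one_sub, re_one_sub, re_one_sub]
  simp [hY0]
  have key : 0 < (ph' (x 1 - x 0)).re * (Y 0 - Y 1) ^ 2 + (ph' (x 0)).re * Y 0 ^ 2 := by
    rcases eq_or_ne (Y 0) 0 with h4 | h4
    · have h5 : Y 1 ≠ 0 := by rcases fin3_ne hY with h | h | h <;> simp_all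
      have : 0 < (ph' (x 1 - x 0)).re * Y 1 ^ 2 := by positivity
      rw [h4]
      nlinarith only [this, this]
    · have : 0 < (ph' (x 0)).re * Y 0 ^ 2 := by positivity
      have : 0 ≤ (ph' (x 1 - x 0)).re * (Y 0 - Y 1) ^ 2 := by positivity
      linarith
  nlinarith only [key, key]

/-! ### rings -/

/-- the conditions at a hinge `w` of a ring `ζ` -/
def Hr (w ζ : ℂ) : Prop :=
  0 < -(ph' (w + 1 / 2 + ζ)).re - (ph' (w + 1 / 2 - ζ)).re ∧
  0 < 4 * (ph' (w + 1 / 2 + ζ)).re * (ph' (w + 1 / 2 - ζ)).re +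
    2 * (ph' w).re * (-(ph' (w + 1 / 2 + ζ)).re - (ph' (w + 1 / 2 - ζ)).re)

lemma Hr.pos {w ζ : ℂ} (h : Hr w ζ) {p q : ℝ} (hpq : p ≠ 0 ∨ q ≠ 0) :
    0 < -(ph' (w + 1 / 2 + ζ)).re * (p + q) ^ 2 + -(ph' (w + 1 / 2 - ζ)).re * (p - q) ^ 2 +
      2 * (ph' w).re * p ^ 2 :=
  formR_pos (by linarith only [h, h.1]) (by linarith only [h, h.2]) hpq

/-- the condition `Hr` when all angles are positive -/
theorem Hr_of {w ζ : ℂ} (h0 : 0 < w.re) (h1 : w.re < 1 / 2) (h2 : |ζ.re| < w.re)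
    (h3 : |ζ.re| < 1 / 2 - w.re) : Hr w ζ := by
  have a2 := abs_lt.1 h2
  have a3 := abs_lt.1 h3
  have A := re_neg_of_gt (w := w + 1 / 2 + ζ) (by simp; linarith only [a2]) (by simp; linarith only [a3])
  have B := re_neg_of_gt (w := w + 1 / 2 - ζ) (by simp; linarith only [a2]) (by simp; linarith only [a3])
  have C := ph'_re_pos h0 h1
  refine ⟨by linarith only [A, B], ?_⟩
  have h4 : 0 < (ph' (w + 1 / 2 + ζ)).re * (ph' (w + 1 / 2 - ζ)).re := mul_pos_of_neg_of_neg A B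
  have h5 : 0 < (ph' w).re * (-(ph' (w + 1 / 2 + ζ)).re - (ph' (w + 1 / 2 - ζ)).re) :=
    mul_pos C (by linarith only [A, B])
  nlinarith only [h4, h5]

lemma ring_left_re (x : Fin 3 → ℂ) (Y : Fin 3 → ℝ) (l r : Bool) (b : ℤ) :
    (lQ2 .ring b l r x fun p => (Y p : ℂ)).re =
    -((if l then -(ph' (x 0 + 1 / 2 + x 1)).re * (Y 0 + Y 1) ^ 2 +
      -(ph' (x 0 + 1 / 2 - x 1)).re * (Y 0 - Y 1) ^ 2 + 2 * (ph' (x 0)).re * Y 0 ^ 2 else 0) +
    (if r then -(ph' (x 2 + 1 / 2 + x 1)).re * (Y 2 + Y 1) ^ 2 +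
      -(ph' (x 2 + 1 / 2 - x 1)).re * (Y 2 - Y 1) ^ 2 + 2 * (ph' (x 2)).re * Y 2 ^ 2 else 0)) / 2 := by
  have e1 : ((1 / 2 : ℝ) : ℂ) + (((![1, 1, 0] : Fin 3 → ℤ) 0 : ℂ) * x 0 +
      ((![1, 1, 0] : Fin 3 → ℤ) 1 : ℂ) * x 1 + ((![1, 1, 0] : Fin 3 → ℤ) 2 : ℂ) * x 2) =
      x 0 + 1 / 2 + x 1 := by
    simp; ring
  have e2 : ((1 / 2 : ℝ) : ℂ) + (((![1, -1, 0] : Fin 3 → ℤ) 0 : ℂ) * x 0 +
      ((![1, -1, 0] : Fin 3 → ℤ) 1 : ℂ) * x 1 + ((![1, -1, 0] : Fin 3 → ℤ) 2 : ℂ) * x 2) =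
      x 0 + 1 / 2 - x 1 := by
    simp; ring
  have e3 : ((1 / 2 : ℝ) : ℂ) + (((![0, 1, 1] : Fin 3 → ℤ) 0 : ℂ) * x 0 +
      ((![0, 1, 1] : Fin 3 → ℤ) 1 : ℂ) * x 1 + ((![0, 1, 1] : Fin 3 → ℤ) 2 : ℂ) * x 2) =
      x 2 + 1 / 2 + x 1 := by
    simp; ring
  have e4 : ((1 / 2 : ℝ) : ℂ) + (((![0, -1, 1] : Fin 3 → ℤ) 0 : ℂ) * x 0 +
      ((![0, -1, 1] : Fin 3 → ℤ) 1 : ℂ) * x 1 + ((![0, -1, 1] : Fin 3 → ℤ) 2 : ℂ) * x 2) =
      x 2 + 1 / 2 - x 1 := by
    simp; ring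
  have e5 : ((1 : ℝ) : ℂ) + (((![-1, 0, 0] : Fin 3 → ℤ) 0 : ℂ) * x 0 +
      ((![-1, 0, 0] : Fin 3 → ℤ) 1 : ℂ) * x 1 + ((![-1, 0, 0] : Fin 3 → ℤ) 2 : ℂ) * x 2) = 1 - x 0 := by
    simp; ring
  have e6 : ((1 : ℝ) : ℂ) + (((![0, 0, -1] : Fin 3 → ℤ) 0 : ℂ) * x 0 +
      ((![0, 0, -1] : Fin 3 → ℤ) 1 : ℂ) * x 1 + ((![0, 0, -1] : Fin 3 → ℤ) 2 : ℂ) * x 2) = 1 - x 2 := by
    simp; ring
  rw [lQ2_re]
  cases l <;> cases r <;>
  simp only [facs, hL, hR, if_true, Bool.false_eq_true, if_false, List.map_append, List.map_cons,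
    List.map_nil, List.sum_append, List.sum_cons, List.sum_nil, fm, Fin.sum_univ_three, e1, e2, e3,
    e4, e5, e6, re_one_sub] <;> simp <;> ring

/-- a ring -/
theorem neg_ring {b : ℤ} {x : Fin 3 → ℂ} {l r : Bool} (hlr : l = true ∨ r = true)
    (hl : l = true → Hr (x 0) (x 1)) (hr : r = true → Hr (x 2) (x 1)) : Neg .ring b l r x := by
  intro Y h0 h2 _ hY
  rw [ring_left_re]
  have n0 : ∀ {w ζ : ℂ}, Hr w ζ → ∀ p q : ℝ, 0 ≤ -(ph' (w + 1 / 2 + ζ)).re * (p + q) ^ 2 +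
      -(ph' (w + 1 / 2 - ζ)).re * (p - q) ^ 2 + 2 * (ph' w).re * p ^ 2 := by
    intro w ζ h p q
    rcases eq_or_ne p 0 with hp | hp
    · rcases eq_or_ne q 0 with hq | hq
      · simp [hp, hq]
      · exact (h.pos (Or.inr hq)).le
    · exact (h.pos (Or.inl hp)).le
  have hY' := fin3_ne hY
  cases l with
  | true =>
    cases r with
    | true =>
      simp only [if_true]
      have m0 := n0 (hl rfl) (Y 0) (Y 1)
      have m2 := n0 (hr rfl) (Y 2) (Y 1)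
      rcases hY' with h | h | h
      · have := (hl rfl).pos (p := Y 0) (q := Y 1) (Or.inl h)
        linarith only [m2, this]
      · have := (hl rfl).pos (p := Y 0) (q := Y 1) (Or.inr h)
        linarith only [m2, this]
      · have := (hr rfl).pos (p := Y 2) (q := Y 1) (Or.inl h)
        linarith only [m0, this]
    | false =>
      have hr0 : Y 2 = 0 := h2 rfl
      have := (hl rfl).pos (p := Y 0) (q := Y 1) (by rcases hY' with h | h | h <;> simp_all)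
      simp only [if_true, Bool.false_eq_true, if_false]
      linarith only [this]
  | false =>
    have hl0 : Y 0 = 0 := h0 rfl
    have hrt : r = true := by simpa using hlr
    subst hrt
    have := (hr rfl).pos (p := Y 2) (q := Y 1) (by rcases hY' with h | h | h <;> simp_all)
    simp only [if_true, Bool.false_eq_true, if_false]
    linarith only [this]

/-! ### the whole word -/

section
variable {M : ℕ} (t : Fin (M + 1) → Typ) (b : Fin (M + 1) → ℤ) (z : DD t ⊕ ZZ t → ℂ)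

/-- the real local variables -/
noncomputable def yy (i : Fin (M + 1)) (X : DD t ⊕ ZZ t → ℝ) (p : Fin 3) : ℝ := ∑ j, cf t i p j * X j

lemma xx_ofReal (i : Fin (M + 1)) (X : DD t ⊕ ZZ t → ℝ) :
    xx t i (fun j => (X j : ℂ)) = fun p => (yy t i X p : ℂ) := by
  ext p
  unfold xx yy
  push_cast
  rfl

theorem hess_of (h : ∀ i, Neg (t i) (b i) (decide (i ≠ 0)) (decide (i ≠ Fin.last M))
    (xx t i z)) (X : DD t ⊕ ZZ t → ℝ) (hX : X ≠ 0) : ((wdat t b).Q2 z X).re < 0 := by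
  have hv0 : ∀ i, decide (i ≠ (0 : Fin (M + 1))) = false → yy t i X 0 = 0 := by
    intro i hi
    have hi0 : i = 0 := by simpa using hi
    have e := congrFun (xx_ofReal t i X) 0
    rw [hi0, xx_left_zero] at e
    rw [hi0]
    exact_mod_cast e.symm
  have hv2 : ∀ i, decide (i ≠ Fin.last M) = false → yy t i X 2 = 0 := by
    intro i hi
    have hi0 : i = Fin.last M := by simpa using hi
    have e := congrFun (xx_ofReal t i X) 2
    rw [hi0, xx_right_last] at e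
    rw [hi0]
    exact_mod_cast e.symm
  have hv1 : ∀ i, (t i).isMid = false → (t i).isRing = false → yy t i X 1 = 0 := by
    intro i h1 h2
    unfold yy
    refine Finset.sum_eq_zero fun j _ => ?_
    rcases j with (j | m) | v
    · simp [cf]
    · have : m.1 ≠ i := fun h => by have := m.2; rw [h, h1] at this; exact absurd this (by simp)
      simp [cf, this]
    · have : v.1 ≠ i := fun h => by have := v.2; rw [h, h2] at this; exact absurd this (by simp)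
      simp [cf, this]
  have hle : ∀ i, (lQ2 (t i) (b i) (decide (i ≠ 0)) (decide (i ≠ Fin.last M)) (xx t i z)
      fun p => (yy t i X p : ℂ)).re ≤ 0 := by
    intro i
    rcases eq_or_ne (yy t i X) 0 with h0 | h0
    · rw [lQ2_re, h0]
      simp
    · exact (h i _ (hv0 i) (hv2 i) (hv1 i) h0).le
  have hlt : ∃ i, (lQ2 (t i) (b i) (decide (i ≠ 0)) (decide (i ≠ Fin.last M)) (xx t i z)
      fun p => (yy t i X p : ℂ)).re < 0 := by
    obtain ⟨j, hj⟩ := Function.ne_iff.1 hX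
    have hj' : X j ≠ 0 := hj
    rcases j with (j | m) | v
    · refine ⟨j.succ, h _ _ (hv0 _) (hv2 _) (hv1 _) ?_⟩
      intro h0
      have e := congrFun (xx_ofReal t j.succ X) 0
      rw [xx_left, h0] at e
      exact hj' (by exact_mod_cast e)
    · refine ⟨m.1, h _ _ (hv0 _) (hv2 _) (hv1 _) ?_⟩
      intro h0
      have e := congrFun (xx_ofReal t m.1 X) 1
      rw [xx_mid t m.2, h0] at e
      exact hj' (by exact_mod_cast e)
    · refine ⟨v.1, h _ _ (hv0 _) (hv2 _) (hv1 _) ?_⟩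
      intro h0
      have e := congrFun (xx_ofReal t v.1 X) 1
      rw [xx_ring t v.2, h0] at e
      exact hj' (by exact_mod_cast e)
  rw [wdat_Q2]
  have hring : (∑ v : ZZ t, Real.pi * Complex.I * b v.1 * (X (.inr v) : ℂ) ^ 2).re = 0 := by
    rw [Complex.re_sum]
    refine Finset.sum_eq_zero fun v _ => ?_
    have : (Real.pi : ℂ) * Complex.I * b v.1 * (X (.inr v) : ℂ) ^ 2 =
        ((Real.pi * b v.1 * X (.inr v) ^ 2 : ℝ) : ℂ) * Complex.I := by
      push_cast; ring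
    rw [this, Complex.re_ofReal_mul]
    simp
  rw [Complex.add_re, hring, add_zero, Complex.re_sum]
  simp_rw [xx_ofReal]
  obtain ⟨i, hi⟩ := hlt
  exact Finset.sum_neg' (fun i _ => hle i) ⟨i, Finset.mem_univ _, hi⟩

end

end Pool.Agent.Work.MP_b30479_gt.G2
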