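import Mathlib

/-!
# A curve of zeros

`F (θ, m)` is positive at `m = ma θ`, negative at `m = mb θ`, and its derivative in `m` is negative
at every zero in between.  Then the zeros form the graph of a differentiable function.
-/

namespace Pool.Agent.Work.MP_b30479_gt.G2

open Filter Topology Set

/-- at most one zero -/
theorem zero_unique {f f' : ℝ → ℝ} {a b : ℝ} (hf : ∀ m ∈ Icc a b, HasDerivAt f (f' m) m)
    (hz : ∀ m ∈ Icc a b, f m = 0 → f' m < 0) {x y : ℝ} (hx : x ∈ Icc a b) (hy : y ∈ Icc a b)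
    (fx : f x = 0) (fy : f y = 0) : x = y := by
  have key : ∀ x y, x ∈ Icc a b → y ∈ Icc a b → f x = 0 → f y = 0 → ¬ x < y := by
    intro x y hx hy fx fy hxy
    have hsub : Icc x y ⊆ Icc a b := Icc_subset_Icc hx.1 hy.2
    have h1 : ∀ m ∈ Icc x y, f m ≤ 0 := by
      intro m hm
      refine image_le_of_deriv_right_lt_deriv_boundary (f := f) (f' := f') (B := fun _ => 0)
        (B' := fun _ => 0) (a := x) (b := y) ?_ ?_ fx.le (fun _ => hasDerivAt_const _ _) ?_ hm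
      · exact fun m hm => (hf m (hsub hm)).continuousAt.continuousWithinAt
      · exact fun m hm => (hf m (hsub ⟨hm.1, hm.2.le⟩)).hasDerivWithinAt
      · intro m hm h0
        exact hz m (hsub ⟨hm.1, hm.2.le⟩) h0
    have h2 := hz y hy fy
    have h3 := (hf y hy).hasDerivWithinAt (s := Iio y)
    have h4 := (hasDerivWithinAt_iff_tendsto_slope' (by simp)).1 h3
    have h5 : ∀ᶠ m in 𝓝[<] y, slope f y m < 0 := h4.eventually (gt_mem_nhds h2)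
    have h6 : ∀ᶠ m in 𝓝[<] y, m ∈ Ioo x y := Ioo_mem_nhdsLT hxy
    obtain ⟨m, h7, h8⟩ := (h5.and h6).exists
    have h9 := h1 m ⟨h8.1.le, h8.2.le⟩
    rw [slope_def_field, fy, sub_zero] at h7
    rcases div_neg_iff.1 h7 with h | h
    · linarith
    · linarith [h8.2]
  rcases lt_trichotomy x y with h | h | h
  · exact absurd h (key x y hx hy fx fy)
  · exact h
  · exact absurd h (key y x hy hx fy fx)

/-- local curve of zeros -/
theorem local_curve {F : ℝ × ℝ → ℝ} {θ m : ℝ} (hF : ContDiffAt ℝ 1 F (θ, m))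
    {B : ℝ} (hB : HasDerivAt (fun s => F (θ, s)) B m) (hB0 : B ≠ 0) :
    ∃ φ : ℝ → ℝ, φ θ = m ∧ DifferentiableAt ℝ φ θ ∧ ∀ᶠ s in 𝓝 θ, F (s, φ s) = F (θ, m) := by
  have h1 : HasDerivAt (fun s => F (θ, s)) ((fderiv ℝ F (θ, m)) (0, 1)) m := by
    have h2 : HasFDerivAt F (fderiv ℝ F (θ, m)) (θ, m) :=
      (hF.differentiableAt (by simp)).hasFDerivAt
    have h3 : HasDerivAt (fun s : ℝ => ((θ, s) : ℝ × ℝ)) (0, 1) m :=
      (hasDerivAt_const _ _).prodMk (hasDerivAt_id _)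
    exact h2.comp_hasDerivAt m h3
  have h4 : (fderiv ℝ F (θ, m)) (0, 1) = B := h1.unique hB
  have hinv : (fderiv ℝ F (θ, m) ∘L .inr ℝ ℝ ℝ).IsInvertible := by
    refine ⟨ContinuousLinearEquiv.unitsEquivAut ℝ (Units.mk0 B hB0), ?_⟩
    ext
    simp [h4]
  refine ⟨hF.implicitFunction one_ne_zero hinv, hF.implicitFunction_apply_self one_ne_zero hinv,
    (hF.hasStrictFDerivAt_implicitFunction one_ne_zero hinv).hasFDerivAt.differentiableAt,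
    hF.eventually_apply_implicitFunction one_ne_zero hinv⟩

/-- **The curve of zeros.** -/
theorem exists_curve {F : ℝ × ℝ → ℝ} {B : ℝ → ℝ → ℝ} {ma mb : ℝ → ℝ}
    (hma : ContinuousOn ma (Icc 0 1)) (hmb : ContinuousOn mb (Icc 0 1))
    (hab : ∀ θ ∈ Icc (0 : ℝ) 1, ma θ < mb θ)
    (hF : ∀ θ ∈ Icc (0 : ℝ) 1, ∀ m ∈ Icc (ma θ) (mb θ), ContDiffAt ℝ 1 F (θ, m))
    (hB : ∀ θ ∈ Icc (0 : ℝ) 1, ∀ m ∈ Icc (ma θ) (mb θ), HasDerivAt (fun s => F (θ, s)) (B θ m) m)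
    (ha : ∀ θ ∈ Icc (0 : ℝ) 1, 0 < F (θ, ma θ)) (hb : ∀ θ ∈ Icc (0 : ℝ) 1, F (θ, mb θ) < 0)
    (hz : ∀ θ ∈ Icc (0 : ℝ) 1, ∀ m ∈ Icc (ma θ) (mb θ), F (θ, m) = 0 → B θ m < 0) :
    ∃ g : ℝ → ℝ, (∀ θ ∈ Icc (0 : ℝ) 1, g θ ∈ Ioo (ma θ) (mb θ) ∧ F (θ, g θ) = 0 ∧
        ∀ m ∈ Icc (ma θ) (mb θ), F (θ, m) = 0 → m = g θ) ∧ ContinuousOn g (Icc 0 1) ∧
      ∀ θ ∈ Ioo (0 : ℝ) 1, DifferentiableAt ℝ g θ := by
  have hex : ∀ θ ∈ Icc (0 : ℝ) 1, ∃ m ∈ Ioo (ma θ) (mb θ), F (θ, m) = 0 := by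
    intro θ hθ
    have hc : ContinuousOn (fun s => F (θ, s)) (Icc (ma θ) (mb θ)) :=
      fun m hm => (hB θ hθ m hm).continuousAt.continuousWithinAt
    obtain ⟨m, hm, h0⟩ := intermediate_value_Icc' (hab θ hθ).le hc
      (show (0 : ℝ) ∈ Icc (F (θ, mb θ)) (F (θ, ma θ)) from ⟨(hb θ hθ).le, (ha θ hθ).le⟩)
    have h0' : F (θ, m) = 0 := h0
    refine ⟨m, ⟨lt_of_le_of_ne hm.1 ?_, lt_of_le_of_ne hm.2 ?_⟩, h0'⟩
    · rintro rfl
      exact absurd h0' (ha θ hθ).ne'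
    · rintro rfl
      exact absurd h0' (hb θ hθ).ne
  choose! g hg using hex
  have huni : ∀ θ ∈ Icc (0 : ℝ) 1, ∀ m ∈ Icc (ma θ) (mb θ), F (θ, m) = 0 → m = g θ := by
    intro θ hθ m hm h0
    exact zero_unique (f := fun s => F (θ, s)) (hB θ hθ) (hz θ hθ) hm
      (Ioo_subset_Icc_self (hg θ hθ).1) h0 (hg θ hθ).2
  -- local form
  have hloc : ∀ θ ∈ Icc (0 : ℝ) 1, ∃ φ : ℝ → ℝ, φ θ = g θ ∧ DifferentiableAt ℝ φ θ ∧
      ∀ᶠ s in 𝓝[Icc 0 1] θ, φ s = g s := by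
    intro θ hθ
    obtain ⟨hgm, hg0⟩ := hg θ hθ
    have hgI := Ioo_subset_Icc_self hgm
    obtain ⟨φ, h1, h2, h3⟩ := local_curve (hF θ hθ _ hgI) (hB θ hθ _ hgI)
      (hz θ hθ _ hgI hg0).ne
    refine ⟨φ, h1, h2, ?_⟩
    have c1 : ContinuousWithinAt φ (Icc 0 1) θ := h2.continuousAt.continuousWithinAt
    have e1 : ∀ᶠ s in 𝓝[Icc 0 1] θ, ma s < φ s := by
      apply (hma θ hθ).eventually_lt c1
      rw [h1]
      exact hgm.1
    have e2 : ∀ᶠ s in 𝓝[Icc 0 1] θ, φ s < mb s := by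
      apply c1.eventually_lt (hmb θ hθ)
      rw [h1]
      exact hgm.2
    filter_upwards [e1, e2, h3.filter_mono nhdsWithin_le_nhds, self_mem_nhdsWithin] with s s1 s2 s3 s4
    exact huni s s4 _ ⟨s1.le, s2.le⟩ (s3.trans hg0)
  refine ⟨g, fun θ hθ => ⟨(hg θ hθ).1, (hg θ hθ).2, huni θ hθ⟩, ?_, ?_⟩
  · intro θ hθ
    obtain ⟨φ, h1, h2, h3⟩ := hloc θ hθ
    exact h2.continuousAt.continuousWithinAt.congr_of_eventuallyEq
      (h3.mono fun s hs => hs.symm) h1.symm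
  · intro θ hθ
    obtain ⟨φ, h1, h2, h3⟩ := hloc θ (Ioo_subset_Icc_self hθ)
    have h4 : 𝓝[Icc 0 1] θ = 𝓝 θ := nhdsWithin_eq_nhds.2 (Icc_mem_nhds hθ.1 hθ.2)
    rw [h4] at h3
    exact h2.congr_of_eventuallyEq (h3.mono fun s hs => hs.symm)

end Pool.Agent.Work.MP_b30479_gt.G2
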