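import Pool.Agent.Work.MP_b30479_gt.Defs

/-!
# The `q`-Vandermonde identity
-/

namespace Pool.Agent.Work.MP_b30479_gt.G2

open Finset

section
variable {A : Type*} [CommRing A] (t : A)

lemma gauss_succ (n k : ℕ) : gauss t (n + 1) (k + 1) = gauss t n k + t ^ (k + 1) * gauss t n (k + 1) :=
  rfl

lemma gauss_zero_right (n : ℕ) : gauss t n 0 = 1 := by
  cases n <;> rfl

lemma gauss_lt : ∀ {n k : ℕ}, n < k → gauss t n k = 0
  | 0, 0, h => absurd h (lt_irrefl _)
  | 0, k + 1, _ => rfl
  | n + 1, 0, h => by omega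
  | n + 1, k + 1, h => by
      rw [gauss_succ, gauss_lt (by omega), gauss_lt (by omega)]
      ring

/-- `∑_j t^{j(j+r)} [N, j+r] [k, j] = [N+k, k+r]` -/
theorem vandermonde : ∀ k N r : ℕ,
    ∑ j ∈ range (k + 1), t ^ (j * (j + r)) * gauss t N (j + r) * gauss t k j =
      gauss t (N + k) (k + r) := by
  intro k
  induction k with
  | zero =>
    intro N r
    simp [gauss_zero_right]
  | succ k ih =>
    intro N r
    have h1 : ∑ j ∈ range (k + 1 + 1), t ^ (j * (j + r)) * gauss t N (j + r) * gauss t (k + 1) j =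
        ∑ j ∈ range (k + 1), t ^ (j * (j + (r + 1))) * gauss t (N + 1) (j + (r + 1)) *
          gauss t k j := by
      rw [Finset.sum_range_succ' _ (k + 1)]
      have e1 : ∀ j ∈ range (k + 1), t ^ ((j + 1) * (j + 1 + r)) * gauss t N (j + 1 + r) *
          gauss t (k + 1) (j + 1) =
          t ^ (j * (j + (r + 1))) * (t ^ (j + r + 1) * gauss t N (j + r + 1)) * gauss t k j +
          t ^ ((j + 1) * (j + 1 + (r + 1))) * gauss t N (j + 1 + r) * gauss t k (j + 1) := by
        intro j _
        rw [gauss_succ, show (j + 1) * (j + 1 + r) = j * (j + (r + 1)) + (j + r + 1) by ring,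
          show (j + 1) * (j + 1 + (r + 1)) = j * (j + (r + 1)) + (j + r + 1) + (j + 1) by ring,
          show j + 1 + r = j + r + 1 by ring, pow_add, pow_add, pow_add]
        ring
      have e2 : ∑ j ∈ range (k + 1), t ^ (j * (j + (r + 1))) * gauss t N (j + r) * gauss t k j =
          ∑ j ∈ range (k + 1), t ^ ((j + 1) * (j + 1 + (r + 1))) * gauss t N (j + 1 + r) *
            gauss t k (j + 1) + t ^ (0 * (0 + (r + 1))) * gauss t N (0 + r) * gauss t k 0 := by
        rw [← Finset.sum_range_succ' (fun j => t ^ (j * (j + (r + 1))) * gauss t N (j + r) *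
          gauss t k j) (k + 1), Finset.sum_range_succ _ (k + 1), gauss_lt t (Nat.lt_succ_self k),
          mul_zero, add_zero]
      have e3 : ∀ j ∈ range (k + 1), t ^ (j * (j + (r + 1))) * gauss t (N + 1) (j + (r + 1)) *
          gauss t k j =
          t ^ (j * (j + (r + 1))) * (t ^ (j + r + 1) * gauss t N (j + r + 1)) * gauss t k j +
          t ^ (j * (j + (r + 1))) * gauss t N (j + r) * gauss t k j := by
        intro j _
        rw [← add_assoc, gauss_succ]
        ring
      rw [Finset.sum_congr rfl e1, Finset.sum_add_distrib, Finset.sum_congr rfl e3,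
        Finset.sum_add_distrib, e2]
      simp only [zero_mul, pow_zero, one_mul, gauss_zero_right, mul_one]
      ring
    rw [h1, ih (N + 1) (r + 1), show N + 1 + k = N + (k + 1) by ring,
      show k + (r + 1) = k + 1 + r by ring]

end

end Pool.Agent.Work.MP_b30479_gt.G2
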