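import Pool.Agent.Work.MP_b30479_gt.LT.H.AlgH
import Pool.Agent.Work.MP_b30479_gt.G2.Vand

/-!
# The relation between the two braidings
-/

namespace Pool.Agent.Work.MP_b30479_gt.G2

open Finset VOL AX
open Pool.Agent.Work.MP_b30479_gt.LT
open TB hiding PP
open DT (ee ee_add ee_ne ee_zero ee_neg ee_pow ee_int ee_half nn_ne tt_pow)

lemma gauss_mul_qf (t : ℂ) : ∀ {k m : ℕ}, m ≤ k → gauss t k m * qf t m * qf t (k - m) = qf t k
  | k, 0, _ => by
      rw [gauss_zero_right, qf_zero]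
      simp
  | 0, m + 1, h => by omega
  | k + 1, m + 1, h => by
      have h1 := gauss_mul_qf t (k := k) (m := m) (by omega)
      rw [gauss_succ, show k + 1 - (m + 1) = k - m by omega, qf_succ t m, qf_succ t k]
      rcases Nat.lt_or_ge k (m + 1) with h2 | h2
      · have : m = k := by omega
        subst this
        rw [gauss_lt t (Nat.lt_succ_self m)]
        linear_combination (1 - t ^ (m + 1)) * h1
      · have h3 := gauss_mul_qf t (k := k) (m := m + 1) h2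
        obtain ⟨d, rfl⟩ : ∃ d, k = m + 1 + d := ⟨k - (m + 1), by omega⟩
        rw [show m + 1 + d - (m + 1) = d by omega, qf_succ t m] at h3
        rw [show m + 1 + d - m = d + 1 by omega, qf_succ t d] at h1 ⊢
        rw [show m + 1 + d + 1 = (m + 1) + (d + 1) by ring, pow_add t (m + 1) (d + 1)]
        linear_combination (1 - t ^ (m + 1)) * h1 + t ^ (m + 1) * (1 - t ^ (d + 1)) * h3

lemma gauss_fS {s k m : ℕ} (hm : m ≤ k) (hk : k ≤ 2 * s) : gauss (tt s) k m =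
    (fS (2 * s + 1) k : ℂ) / ((fS (2 * s + 1) m : ℂ) * (fS (2 * s + 1) (k - m) : ℂ)) *
      ee s ((m : ℂ) * (k - m) / 2) := by
  have h := gauss_mul_qf (tt s) hm
  rw [VC.qf_ee, VC.qf_ee, VC.qf_ee] at h
  have n1 := fSc_ne (s := s) (m := m) (by omega)
  have n2 := fSc_ne (s := s) (m := k - m) (by omega)
  have n3 := ee_ne s ((m : ℂ) * (m + 1) / 4 - m * ((2 * s + 1 : ℕ) : ℂ) / 4)
  have n4 := ee_ne s (((k - m : ℕ) : ℂ) * (((k - m : ℕ) : ℂ) + 1) / 4 -
    ((k - m : ℕ) : ℂ) * ((2 * s + 1 : ℕ) : ℂ) / 4)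
  have h4 : ee s ((k : ℂ) * (k + 1) / 4 - k * ((2 * s + 1 : ℕ) : ℂ) / 4) =
      ee s ((m : ℂ) * (k - m) / 2) *
      (ee s ((m : ℂ) * (m + 1) / 4 - m * ((2 * s + 1 : ℕ) : ℂ) / 4) *
      ee s (((k - m : ℕ) : ℂ) * (((k - m : ℕ) : ℂ) + 1) / 4 -
        ((k - m : ℕ) : ℂ) * ((2 * s + 1 : ℕ) : ℂ) / 4)) := by
    simp only [← ee_add]
    congr 1
    rw [Nat.cast_sub hm]
    ring
  rw [h4] at h
  generalize ee s ((m : ℂ) * (m + 1) / 4 - m * ((2 * s + 1 : ℕ) : ℂ) / 4) = E1 at *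
  generalize ee s (((k - m : ℕ) : ℂ) * (((k - m : ℕ) : ℂ) + 1) / 4 -
    ((k - m : ℕ) : ℂ) * ((2 * s + 1 : ℕ) : ℂ) / 4) = E2 at *
  generalize ee s ((m : ℂ) * (k - m) / 2) = E3 at *
  rw [div_mul_eq_mul_div, eq_div_iff (mul_ne_zero n1 n2)]
  have h5 : E1 * E2 ≠ 0 := mul_ne_zero n3 n4
  apply mul_right_cancel₀ h5
  linear_combination h

lemma gauss_zero_of_ge {s k m : ℕ} (hm : m ≤ 2 * s) (hkm : k - m ≤ 2 * s) (hk : 2 * s + 1 ≤ k) :
    gauss (tt s) k m = 0 := by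
  have h := gauss_mul_qf (tt s) (show m ≤ k by omega)
  have hp := tt_prim s
  have n1 := qf_ne_zero hp hm
  have n2 := qf_ne_zero hp hkm
  have h0 : qf (tt s) k = 0 := by
    unfold qf
    refine Finset.prod_eq_zero (mem_range.mpr (show 2 * s < k by omega)) ?_
    rw [hp.pow_eq_one, sub_self]
  rw [h0] at h
  rcases mul_eq_zero.mp h with h | h
  · rcases mul_eq_zero.mp h with h | h
    · exact h
    · exact absurd h n1
  · exact absurd h n2

lemma AA_eq_gauss {s : ℕ} (k j : Fin (2 * s + 1)) : AA s k j =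
    gauss (tt s) k j * ee s ((s : ℂ) ^ 2 + k * (s + 1) + (j : ℂ) ^ 2 / 2) := by
  have hk := k.isLt
  have hj := j.isLt
  rw [AA_eq]
  split_ifs with h
  · rw [gauss_fS h (by omega), mul_assoc, ← ee_add]
    push_cast
    congr 2
    ring
  · rw [gauss_lt _ (by omega), zero_mul]

/-- `A Aᵀ = c J A⁻¹`, entrywise -/
theorem AA_AAT {s : ℕ} (k N : Fin (2 * s + 1)) :
    ∑ m : Fin (2 * s + 1), AA s k m * AA s N m = ee s ((s : ℂ) ^ 2) * star (AA s (Fin.rev k) N) := by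
  have hk := k.isLt
  have hN := N.isLt
  have e1 : ∀ m : Fin (2 * s + 1), AA s k m * AA s N m =
      ee s (2 * (s : ℂ) ^ 2 + ((k : ℂ) + N) * (s + 1)) *
      (fun j : ℕ => (tt s) ^ (j * (j + 0)) * gauss (tt s) N (j + 0) * gauss (tt s) k j) m := by
    intro m
    rw [AA_eq_gauss, AA_eq_gauss]
    simp only [add_zero]
    rw [tt_pow]
    have : ee s ((s : ℂ) ^ 2 + k * (s + 1) + (m : ℂ) ^ 2 / 2) *
        ee s ((s : ℂ) ^ 2 + N * (s + 1) + (m : ℂ) ^ 2 / 2) =
        ee s (2 * (s : ℂ) ^ 2 + ((k : ℂ) + N) * (s + 1)) * ee s ((m * m : ℕ) : ℂ) := by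
      simp only [← ee_add]
      congr 1
      push_cast
      ring
    linear_combination gauss (tt s) k m * gauss (tt s) N m * this
  rw [Finset.sum_congr rfl fun m _ => e1 m, ← Finset.mul_sum,
    Fin.sum_univ_eq_sum_range (fun j : ℕ => (tt s) ^ (j * (j + 0)) * gauss (tt s) N (j + 0) *
      gauss (tt s) k j)]
  have e2 : ∑ j ∈ range (2 * s + 1), (tt s) ^ (j * (j + 0)) * gauss (tt s) N (j + 0) *
      gauss (tt s) k j = gauss (tt s) (N + k) (k + 0) := by
    rw [← vandermonde]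
    symm
    apply Finset.sum_subset
    · intro x hx
      rw [mem_range] at hx ⊢
      omega
    · intro x _ hx
      rw [mem_range] at hx
      rw [gauss_lt (tt s) (show (k : ℕ) < x by omega), mul_zero]
  rw [e2, add_zero, AA_eq, Fin.val_rev]
  split_ifs with h
  · rw [gauss_fS (by omega) (by omega)]
    have r1 := fSc_refl (s := s) (m := k) (by omega)
    have r2 := fSc_refl (s := s) (m := (N : ℕ) + k) (by omega)
    have n1 := fSc_ne (s := s) (m := k) (by omega)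
    have n2 := fSc_ne (s := s) (m := N) (by omega)
    have n3 := fSc_ne (s := s) (m := 2 * s - (N + k)) (by omega)
    rw [show (N : ℕ) + k - k = N by omega, show 2 * s + 1 - ((k : ℕ) + 1) = 2 * s - k by omega,
      show 2 * s - (k : ℕ) - N = 2 * s - (N + k) by omega]
    rw [star_mul', Complex.star_def, ee_conj, Complex.conj_ofReal]
    have h1 : (fS (2 * s + 1) (N + k) : ℂ) / ((fS (2 * s + 1) k : ℂ) * (fS (2 * s + 1) N : ℂ)) =
        ((fS (2 * s + 1) (2 * s - k) / (fS (2 * s + 1) N * fS (2 * s + 1) (2 * s - (N + k))) : ℝ) :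
          ℂ) := by
      push_cast
      rw [div_eq_div_iff (mul_ne_zero n1 n2) (mul_ne_zero n2 n3)]
      linear_combination (fS (2 * s + 1) N : ℂ) * r2 - (fS (2 * s + 1) N : ℂ) * r1
    have h2 : ee s (2 * (s : ℂ) ^ 2 + ((k : ℂ) + N) * (s + 1)) *
        ee s ((k : ℂ) * (((N + k : ℕ) : ℂ) - k) / 2) =
        ee s ((s : ℂ) ^ 2) * ee s (-(starRingEnd ℂ) ((s : ℂ) ^ 2 +
          ((2 * s - (k : ℕ) : ℕ) : ℂ) * ((2 * s + 1 : ℕ) : ℂ) / 2 +
          ((2 * s - (k : ℕ) : ℕ) : ℂ) * (1 + (N : ℕ)) / 2)) := by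
      have h3 := ee_int s (2 * s + N)
      have h4 : (((2 * s - (k : ℕ) : ℕ)) : ℂ) = 2 * s - k := by
        rw [Nat.cast_sub (by omega)]
        push_cast
        ring
      have h5 : (starRingEnd ℂ) ((s : ℂ) ^ 2 +
          ((2 * s - (k : ℕ) : ℕ) : ℂ) * ((2 * s + 1 : ℕ) : ℂ) / 2 +
          ((2 * s - (k : ℕ) : ℕ) : ℂ) * (1 + (N : ℕ)) / 2) = (s : ℂ) ^ 2 +
          (2 * s - k) * (2 * s + 1) / 2 + (2 * s - k) * (1 + N) / 2 := by
        simp only [map_add, map_div₀, map_mul, map_pow, map_natCast, map_one, map_ofNat]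
        rw [h4]
        push_cast
        ring
      have h6 : 2 * (s : ℂ) ^ 2 + ((k : ℂ) + N) * (s + 1) +
          (k : ℂ) * (((N + k : ℕ) : ℂ) - k) / 2 = (s : ℂ) ^ 2 + -((s : ℂ) ^ 2 +
          (2 * s - k) * (2 * s + 1) / 2 + (2 * s - k) * (1 + N) / 2) +
          ((2 * s + N : ℤ) : ℂ) * ((2 * s + 1 : ℕ) : ℂ) := by
        push_cast
        ring
      rw [h5, ← ee_add, ← ee_add, h6, ee_add _ _ (((2 * s + N : ℤ) : ℂ) * ((2 * s + 1 : ℕ) : ℂ)), h3,
        mul_one]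
    rw [h1]
    linear_combination ((fS (2 * s + 1) (2 * s - k) / (fS (2 * s + 1) N *
      fS (2 * s + 1) (2 * s - (N + k))) : ℝ) : ℂ) * h2
  · rw [gauss_zero_of_ge (by omega) (by omega) (by omega), mul_zero, star_zero, mul_zero]

end Pool.Agent.Work.MP_b30479_gt.G2
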