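import Pool.Agent.Work.MP_b30479_gt.G2.InvA

/-!
# Chains of matrices and the relations between them
-/

namespace Pool.Agent.Work.MP_b30479_gt.G2

open Finset VOL AX
open Pool.Agent.Work.MP_b30479_gt.LT
open TB hiding PP
open DT (ee ee_add ee_ne ee_zero ee_neg ee_pow ee_int ee_half nn_ne tt_pow)

/-! ### the relation in an algebra -/

section
variable {R : Type*} [Ring R] [Algebra ℂ R] {J P Q : R} {c : ℂ}

lemma rel_pos (hJ : J * J = 1) (h : P * J * P = c • (J * Q * J)) (X Y : R) :
    J * X * (J * P) * (J * (P * Y)) = c • (J * (X * Q) * (J * Y)) := by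
  calc J * X * (J * P) * (J * (P * Y)) = J * X * J * (P * J * P) * Y := by
        simp only [mul_assoc]
    _ = c • (J * X * (J * J) * Q * J * Y) := by
        rw [h]
        simp only [mul_assoc, mul_smul_comm, smul_mul_assoc]
    _ = _ := by
        rw [hJ, mul_one]
        simp only [mul_assoc]

lemma rel_inv (hJ : J * J = 1) (hPQ : P * Q = 1) (hc : c ≠ 0)
    (h : P * J * P = c • (J * Q * J)) : Q * J * Q = c⁻¹ • (J * P * J) := by
  have h1 : (P * J * P) * (Q * J * Q) = 1 := by
    calc (P * J * P) * (Q * J * Q) = P * (J * (P * Q) * J) * Q := by simp only [mul_assoc]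
      _ = 1 := by rw [hPQ, mul_one, hJ, mul_one, hPQ]
  have h2 : (c⁻¹ • (J * P * J)) * (c • (J * Q * J)) = 1 := by
    rw [smul_mul_assoc, mul_smul_comm, smul_smul, inv_mul_cancel₀ hc, one_smul]
    calc J * P * J * (J * Q * J) = J * (P * (J * J) * Q) * J := by simp only [mul_assoc]
      _ = 1 := by rw [hJ, mul_one, hPQ, mul_one, hJ]
  calc Q * J * Q = (c⁻¹ • (J * P * J)) * (c • (J * Q * J)) * (Q * J * Q) := by rw [h2, one_mul]
    _ = (c⁻¹ • (J * P * J)) * ((P * J * P) * (Q * J * Q)) := by rw [h, mul_assoc]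
    _ = _ := by rw [h1, mul_one]

end

/-! ### matrices -/

/-- the reflection -/
def JJ (s : ℕ) : Matrix (Fin (2 * s + 1)) (Fin (2 * s + 1)) ℂ :=
  fun u v => if Fin.rev u = v then 1 else 0

lemma JJ_mul {s : ℕ} (X : Matrix (Fin (2 * s + 1)) (Fin (2 * s + 1)) ℂ) (u v : Fin (2 * s + 1)) :
    (JJ s * X) u v = X (Fin.rev u) v := by
  rw [Matrix.mul_apply, Finset.sum_eq_single (Fin.rev u)]
  · simp [JJ]
  · intro m _ hm
    simp [JJ, Ne.symm hm]
  · intro h
    exact absurd (mem_univ _) h

lemma mul_JJ {s : ℕ} (X : Matrix (Fin (2 * s + 1)) (Fin (2 * s + 1)) ℂ) (u v : Fin (2 * s + 1)) :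
    (X * JJ s) u v = X u (Fin.rev v) := by
  rw [Matrix.mul_apply, Finset.sum_eq_single (Fin.rev v)]
  · simp [JJ]
  · intro m _ hm
    have : ¬ (Fin.rev m = v) := fun h => hm (by rw [← h, Fin.rev_rev])
    simp [JJ, this]
  · intro h
    exact absurd (mem_univ _) h

lemma JJ_JJ (s : ℕ) : JJ s * JJ s = 1 := by
  ext u v
  rw [JJ_mul, JJ, Fin.rev_rev, Matrix.one_apply]

/-- the constant `t^{s²}` -/
noncomputable def cc (s : ℕ) : ℂ := ee s ((s : ℂ) ^ 2)

lemma cc_ne (s : ℕ) : cc s ≠ 0 := ee_ne s _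

lemma AA_trans (s : ℕ) : (AA s).transpose = JJ s * AA s * JJ s := by
  ext u v
  have hu := u.isLt
  have hv := v.isLt
  rw [mul_JJ, JJ_mul, Matrix.transpose_apply]
  have h1 : ∀ k j : Fin (2 * s + 1), AA s k j = KK s 1 (2 * s - k) j := fun k j => by
    have := Pb_KK s 1 k j
    rw [← this]
    simp [Pb]
  rw [h1, h1, Fin.val_rev, Fin.val_rev, show 2 * s - (2 * s + 1 - ((u : ℕ) + 1)) = u by omega,
    show 2 * s + 1 - ((v : ℕ) + 1) = 2 * s - v by omega, KK_symm 1 (by omega) (by omega)]

lemma rel (s : ℕ) : AA s * JJ s * AA s = cc s • (JJ s * AC s * JJ s) := by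
  have h1 : AA s * (AA s).transpose = cc s • (JJ s * AC s) := by
    ext u v
    rw [Matrix.mul_apply, Matrix.smul_apply, JJ_mul]
    simp only [Matrix.transpose_apply]
    rw [AA_AAT]
    rfl
  rw [AA_trans] at h1
  calc AA s * JJ s * AA s = AA s * (JJ s * AA s * JJ s) * JJ s := by
        rw [show AA s * (JJ s * AA s * JJ s) * JJ s = AA s * JJ s * AA s * (JJ s * JJ s) by
          simp only [mul_assoc], JJ_JJ, mul_one]
    _ = _ := by
        rw [h1, smul_mul_assoc]

/-- `σ_1` as a unit -/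
noncomputable def UA (s : ℕ) : (Matrix (Fin (2 * s + 1)) (Fin (2 * s + 1)) ℂ)ˣ :=
  ⟨AA s, AC s, mul_AC s, AC_mul s⟩

lemma Pb_unit (s : ℕ) (b : ℤ) : Pb s b = ((UA s ^ b : (Matrix (Fin (2 * s + 1))
    (Fin (2 * s + 1)) ℂ)ˣ) : Matrix (Fin (2 * s + 1)) (Fin (2 * s + 1)) ℂ) := by
  unfold Pb
  split_ifs with h
  · obtain ⟨m, rfl⟩ := Int.eq_ofNat_of_zero_le h
    rw [Int.natAbs_natCast, zpow_natCast, Units.val_pow_eq_pow_val]
    rfl
  · obtain ⟨m, hm⟩ : ∃ m : ℕ, b = -(m : ℤ) := ⟨b.natAbs, by omega⟩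
    subst hm
    rw [Int.natAbs_neg, Int.natAbs_natCast, zpow_neg, zpow_natCast, ← inv_pow,
      Units.val_pow_eq_pow_val]
    rfl

lemma Pb_add (s : ℕ) (a b : ℤ) : Pb s (a + b) = Pb s a * Pb s b := by
  rw [Pb_unit, Pb_unit, Pb_unit, zpow_add, Units.val_mul]

lemma Pb_one (s : ℕ) : Pb s 1 = AA s := by simp [Pb]

lemma Pb_neg_one (s : ℕ) : Pb s (-1) = AC s := by simp [Pb]

lemma Pb_zero (s : ℕ) : Pb s 0 = 1 := by simp [Pb]

/-- the matrix of a twist region -/
noncomputable def Tm (s : ℕ) (b : ℤ) : Matrix (Fin (2 * s + 1)) (Fin (2 * s + 1)) ℂ :=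
  JJ s * Pb s b

lemma Tm_KK {s : ℕ} (b : ℤ) (u v : Fin (2 * s + 1)) : Tm s b u v = KK s b u v := by
  have hu := u.isLt
  rw [Tm, JJ_mul, Pb_KK, Fin.val_rev]
  congr 1
  omega

theorem Tm_one (s : ℕ) (a b : ℤ) :
    Tm s a * Tm s 1 * Tm s b = cc s • (Tm s (a - 1) * Tm s (b - 1)) := by
  have e1 : Pb s (a - 1) = Pb s a * AC s := by rw [sub_eq_add_neg, Pb_add, Pb_neg_one]
  have e2 : Pb s b = AA s * Pb s (b - 1) := by rw [Pb_pred]
  have := rel_pos (JJ_JJ s) (rel s) (Pb s a) (Pb s (b - 1))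
  unfold Tm
  rw [e1, e2, Pb_one]
  exact this

theorem Tm_neg_one (s : ℕ) (a b : ℤ) :
    Tm s a * Tm s (-1) * Tm s b = (cc s)⁻¹ • (Tm s (a + 1) * Tm s (b + 1)) := by
  have e1 : Pb s (a + 1) = Pb s a * AA s := by rw [Pb_add, Pb_one]
  have e2 : Pb s b = AC s * Pb s (b + 1) := by
    rw [← Pb_neg_one, ← Pb_add]
    congr 1
    ring
  have h := rel_inv (JJ_JJ s) (mul_AC s) (cc_ne s) (rel s)
  have := rel_pos (JJ_JJ s) h (Pb s a) (Pb s (b + 1))
  unfold Tm
  rw [e1, e2, Pb_neg_one]
  exact this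

theorem Tm_zero (s : ℕ) (a b : ℤ) : Tm s a * Tm s 0 * Tm s b = Tm s (a + b) := by
  unfold Tm
  rw [Pb_zero, mul_one, Pb_add]
  calc JJ s * Pb s a * JJ s * (JJ s * Pb s b) = JJ s * (Pb s a * (JJ s * JJ s) * Pb s b) := by
        simp only [mul_assoc]
    _ = _ := by rw [JJ_JJ, mul_one]

/-! ### vectors -/

/-- the vector of a list -/
noncomputable def VV (s : ℕ) : List ℤ → Fin (2 * s + 1) → ℂ
  | [] => Pi.single 0 1
  | b :: l => (Tm s b).mulVec (VV s l)

lemma CS_VV (s : ℕ) : ∀ (l : List ℤ), l ≠ [] → ∀ k : Fin (2 * s + 1), CS s l k = VV s l k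
  | [], h, _ => absurd rfl h
  | [b], _, k => by
      rw [VV, VV, Matrix.mulVec_single_one]
      show KK s b k 0 = Tm s b k 0
      rw [Tm_KK]
      rfl
  | b :: c :: l, _, k => by
      rw [VV]
      show ∑ y' : Fin (2 * s + 1), KK s b k y' * CS s (c :: l) y' =
        ∑ y' : Fin (2 * s + 1), Tm s b k y' * VV s (c :: l) y'
      refine Finset.sum_congr rfl fun y' _ => ?_
      rw [Tm_KK, CS_VV s (c :: l) (List.cons_ne_nil _ _)]

/-! ### orientations -/

/-- sign of the crossings between the positions `0`, `1`; `q` is the position of the strand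
directed downwards -/
def sgI (q : Fin 3) : ℤ := if q = 2 then 1 else -1

/-- the state after a twist region, the positions counted from the other side -/
def nx (b : ℤ) (q : Fin 3) : Fin 3 := Fin.rev (if Even b then q else Equiv.swap 0 1 q)

/-- the writhe -/
def wr : List ℤ → Fin 3 → ℤ
  | [], _ => 0
  | b :: l, q => b * sgI q + wr l (nx b q)

/-- the last state is admissible -/
def EnI : List ℤ → Fin 3 → Prop
  | [], q => q ≠ 2
  | b :: l, q => EnI l (nx b q)

/-- the orientation with the strand `q` directed downwards -/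
def st (q : Fin 3) : Fin 3 → ℤ := fun i => if i = q then -1 else 1

lemma st_swap (i j q : Fin 3) : (fun l => st q (Equiv.swap i j l)) = st (Equiv.swap i j q) := by
  revert i j q
  decide

lemma orientAfter_rep (g : Fin 2) (q : Fin 3) (m : ℕ) (c : Bool) :
    orientAfter (List.replicate m (g, c)) (st q) =
      st (if Even m then q else Equiv.swap g.castSucc g.succ q) := by
  induction m with
  | zero => simp [orientAfter]
  | succ m ih =>
    rw [List.replicate_succ]
    show (fun l => orientAfter (List.replicate m (g, c)) (st q) _) = _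
    rw [ih]
    show (fun l => st _ (Equiv.swap g.castSucc g.succ l)) = _
    rw [st_swap]
    by_cases hm : Even m
    · rw [if_pos hm, if_neg (by rw [Nat.even_add_one]; exact not_not.mpr hm)]
    · rw [if_neg hm, if_pos (by rw [Nat.even_add_one]; exact hm), Equiv.swap_apply_self]

lemma orientAfter_blk (g : Fin 2) (b : ℤ) (q : Fin 3) : orientAfter (blk g b) (st q) =
    st (if Even b then q else Equiv.swap g.castSucc g.succ q) := by
  unfold blk
  rw [orientAfter_rep]
  simp only [Int.natAbs_even]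

lemma st_swap_mul (g : Fin 2) (q : Fin 3) : st (Equiv.swap g.castSucc g.succ q) g.castSucc *
    st (Equiv.swap g.castSucc g.succ q) g.succ = st q g.castSucc * st q g.succ := by
  revert g q
  decide

lemma orientedWrithe_blk (g : Fin 2) (b : ℤ) (q : Fin 3) : orientedWrithe (blk g b) (st q) =
    b * (st q g.castSucc * st q g.succ) := by
  unfold blk
  have key : ∀ (m : ℕ) (c : Bool), orientedWrithe (List.replicate m (g, c)) (st q) =
      m * (if c then 1 else -1) * (st q g.castSucc * st q g.succ) := by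
    intro m c
    induction m with
    | zero => simp [orientedWrithe]
    | succ m ih =>
      rw [List.replicate_succ]
      show orientedWrithe (List.replicate m (g, c)) (st q) + (if c then 1 else -1) *
        (orientAfter (List.replicate m (g, c)) (st q) g.castSucc *
          orientAfter (List.replicate m (g, c)) (st q) g.succ) = _
      have h2 : orientAfter (List.replicate m (g, c)) (st q) g.castSucc *
          orientAfter (List.replicate m (g, c)) (st q) g.succ =
          st q g.castSucc * st q g.succ := by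
        rw [orientAfter_rep]
        split_ifs
        · rfl
        · exact st_swap_mul g q
      rw [ih, h2]
      push_cast
      ring
  rw [key]
  by_cases hb : 0 ≤ b
  · simp only [hb, decide_true, if_true]
    rw [show ((b.natAbs : ℕ) : ℤ) = b by omega]
    ring
  · simp only [hb, decide_false]
    rw [show ((b.natAbs : ℕ) : ℤ) = -b by omega]
    simp

/-! ### the orientations and the writhe of a word -/

lemma nx_even {b : ℤ} (hb : Even b) (q : Fin 3) : nx b q = Fin.rev q := by
  rw [nx, if_pos hb]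

lemma nx_odd {b : ℤ} (hb : ¬ Even b) (q : Fin 3) : nx b q = Fin.rev (Equiv.swap 0 1 q) := by
  rw [nx, if_neg hb]

lemma even_sub_one (b : ℤ) : Even (b - 1) ↔ ¬ Even b := Int.even_sub_one

lemma d1 (q : Fin 3) : st (Equiv.swap 0 1 q) 1 = 1 ↔ Fin.rev q ≠ 2 := by
  revert q
  decide

lemma d2 (q : Fin 3) : st q 1 = 1 ↔ Fin.rev (Equiv.swap 0 1 q) ≠ 2 := by
  revert q
  decide

lemma d3 (q : Fin 3) : st (Fin.rev q) 2 = 1 ↔ Fin.rev q ≠ 2 := by
  revert q
  decide

lemma d4 (q : Fin 3) : st (Equiv.swap 1 2 (Fin.rev q)) 2 = 1 ↔ Fin.rev (Equiv.swap 0 1 q) ≠ 2 := by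
  revert q
  decide

lemma d5 (q : Fin 3) : st (Fin.rev q) 1 * st (Fin.rev q) 2 = sgI q := by
  revert q
  decide

lemma d6 (q : Fin 3) : Equiv.swap 1 2 (Fin.rev q) = Fin.rev (Equiv.swap 0 1 q) := by
  revert q
  decide

lemma d7 (q : Fin 3) : st q 0 * st q 1 = sgI q := by
  revert q
  decide

lemma d8 (q : Fin 3) (h : Fin.rev q ≠ 2) :
    st (Equiv.swap 0 1 q) 1 * st (Equiv.swap 0 1 q) 2 = -sgI q := by
  revert q
  decide

lemma d9 (q : Fin 3) (h : Fin.rev (Equiv.swap 0 1 q) ≠ 2) : st q 1 * st q 2 = -sgI q := by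
  revert q
  decide

lemma topW_orient : ∀ (l : List ℤ), l ≠ [] → ∀ q,
    ((orientAfter (topW 0 l) (st q) 2 = 1 ↔ EnI l q) ∧
      (EnI l q → orientedWrithe (topW 0 l) (st q) = wr l q)) ∧
    ((orientAfter (topW 1 l) (st (Fin.rev q)) 2 = 1 ↔ EnI l q) ∧
      (EnI l q → orientedWrithe (topW 1 l) (st (Fin.rev q)) = wr l q))
  | [], h, _ => absurd rfl h
  | [b], _, q => by
      have e1 : topW 0 [b] = ((1 : Fin 2), false) :: blk 0 (b - 1) := rfl
      have e2 : topW 1 [b] = blk 1 b := rfl
      have e3 : orientAfter (topW 0 [b]) (st q) 2 =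
          st (if Even (b - 1) then q else Equiv.swap 0 1 q) 1 := by
        rw [e1]
        show orientAfter (blk 0 (b - 1)) (st q) 1 = _
        rw [orientAfter_blk]
        rfl
      have e4 : orientedWrithe (topW 0 [b]) (st q) = (b - 1) * (st q 0 * st q 1) -
          st (if Even (b - 1) then q else Equiv.swap 0 1 q) 1 *
          st (if Even (b - 1) then q else Equiv.swap 0 1 q) 2 := by
        rw [e1]
        show orientedWrithe (blk 0 (b - 1)) (st q) + (-1) * (orientAfter (blk 0 (b - 1)) (st q) 1 *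
          orientAfter (blk 0 (b - 1)) (st q) 2) = _
        rw [orientedWrithe_blk, orientAfter_blk]
        show (b - 1) * (st q 0 * st q 1) + (-1) *
          (st (if Even (b - 1) then q else Equiv.swap 0 1 q) 1 *
          st (if Even (b - 1) then q else Equiv.swap 0 1 q) 2) = _
        ring
      have e5 : orientAfter (topW 1 [b]) (st (Fin.rev q)) 2 =
          st (if Even b then Fin.rev q else Equiv.swap 1 2 (Fin.rev q)) 2 := by
        rw [e2, orientAfter_blk]
        rfl
      have e6 : orientedWrithe (topW 1 [b]) (st (Fin.rev q)) =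
          b * (st (Fin.rev q) 1 * st (Fin.rev q) 2) := by
        rw [e2, orientedWrithe_blk]
        rfl
      have e7 : EnI [b] q ↔ nx b q ≠ 2 := Iff.rfl
      have e8 : wr [b] q = b * sgI q := by simp [wr]
      rw [e3, e4, e5, e6, e7, e8, d5, d7]
      simp only [even_sub_one]
      by_cases hb : Even b
      · simp only [hb, not_true_eq_false, if_false, if_true, nx]
        exact ⟨⟨d1 q, fun h => by rw [d8 q h]; ring⟩, d3 q, fun _ => trivial⟩
      · simp only [hb, not_false_eq_true, if_true, if_false, nx]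
        exact ⟨⟨d2 q, fun h => by rw [d9 q h]; ring⟩, d4 q, fun _ => trivial⟩
  | b :: c :: l, _, q => by
      have ih := topW_orient (c :: l) (List.cons_ne_nil _ _) (nx b q)
      have e1 : topW 0 (b :: c :: l) = topW 1 (c :: l) ++ blk 0 b := rfl
      have e2 : topW 1 (b :: c :: l) = topW 0 (c :: l) ++ blk 1 b := rfl
      have e3 : orientAfter (blk 0 b) (st q) = st (Fin.rev (nx b q)) := by
        rw [orientAfter_blk, nx, Fin.rev_rev]
        rfl
      have e4 : orientAfter (blk 1 b) (st (Fin.rev q)) = st (nx b q) := by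
        rw [orientAfter_blk]
        congr 1
        unfold nx
        split_ifs
        · rfl
        · exact d6 q
      have e5 : orientedWrithe (blk 0 b) (st q) = b * sgI q := by
        rw [orientedWrithe_blk]
        congr 1
        exact d7 q
      have e6 : orientedWrithe (blk 1 b) (st (Fin.rev q)) = b * sgI q := by
        rw [orientedWrithe_blk]
        congr 1
        exact d5 q
      have e7 : EnI (b :: c :: l) q ↔ EnI (c :: l) (nx b q) := Iff.rfl
      have e8 : wr (b :: c :: l) q = b * sgI q + wr (c :: l) (nx b q) := rfl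
      rw [e1, e2, orientAfter_append, orientAfter_append, orientedWrithe_append,
        orientedWrithe_append, e3, e4, e5, e6, e7, e8]
      refine ⟨⟨ih.2.1, fun h => ?_⟩, ih.1.1, fun h => ?_⟩
      · rw [ih.2.2 h]
      · rw [ih.1.2 h]

/-- the bottom orientations -/
lemma bot_one : (![1, 1, -1] : Fin 3 → ℤ) = st 2 := by decide

lemma bot_neg : (![1, -1, - -1] : Fin 3 → ℤ) = st 1 := by decide

/-! ### the invariant -/

lemma zpow_cc (s : ℕ) (W : ℤ) :
    Complex.exp (-(2 * Real.pi * Complex.I * W * (s * (s + 1)) / ((2 * s + 1 : ℕ) : ℂ))) =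
      cc s ^ W := by
  have h0 := nn_ne s
  unfold cc DT.ee
  rw [← Complex.exp_int_mul, Complex.exp_eq_exp_iff_exists_int]
  refine ⟨-(s * W), ?_⟩
  push_cast at h0 ⊢
  field_simp
  ring

/-- the invariant in terms of the vectors -/
theorem kashaev_VV {l : List ℤ} (hl : l ≠ []) (δ : ℤ) (s : ℕ) (_hs : 1 ≤ s) :
    twoBridgeKashaev (ltWord l) δ (2 * s + 1) =
      cc s ^ orientedWrithe (ltWord l) ![1, δ, -δ] * VV s l 0 := by
  have e1 : (2 * s + 1 - 1) / 2 = s := by omega
  unfold twoBridgeKashaev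
  rw [e1]
  set u : ℂˣ := Units.mk0 (Complex.exp (2 * Real.pi * Complex.I / ((2 * s + 1 : ℕ) : ℂ)))
    (Complex.exp_ne_zero _) with hu0
  have hu : (u : ℂ) = tt s := rfl
  unfold twoBridgeJones
  rw [← zpow_cc]
  congr 1
  · rw [Units.val_zpow_eq_zpow_val, hu]
    unfold tt
    rw [← Complex.exp_int_mul]
    congr 1
    push_cast
    ring
  · rw [tangle_rep hu, ← CS_VV s l hl]
    exact (row s l hl 0).1

end Pool.Agent.Work.MP_b30479_gt.G2
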