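import Pool.Agent.Work.MP_b30479_gt.G2.InvB

/-!
# Words with the same invariant
-/

namespace Pool.Agent.Work.MP_b30479_gt.G2

open Finset VOL AX
open Pool.Agent.Work.MP_b30479_gt.LT
open TB hiding PP

/-- Two lists with the same orientations and the same invariant (also after prepending digits). -/
def Eqv (l l' : List ℤ) : Prop := ∀ q, (EnI l q ↔ EnI l' q) ∧
  (EnI l q → ∀ s k, cc s ^ wr l q * VV s l k = cc s ^ wr l' q * VV s l' k)

namespace Eqv

lemma refl (l : List ℤ) : Eqv l l := fun _ => ⟨Iff.rfl, fun _ _ _ => rfl⟩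

lemma symm {l l' : List ℤ} (h : Eqv l l') : Eqv l' l := fun q =>
  ⟨(h q).1.symm, fun hq s k => ((h q).2 ((h q).1.mpr hq) s k).symm⟩

lemma trans {l l' l'' : List ℤ} (h : Eqv l l') (h' : Eqv l' l'') : Eqv l l'' := fun q =>
  ⟨(h q).1.trans (h' q).1, fun hq s k =>
    ((h q).2 hq s k).trans ((h' q).2 ((h q).1.mp hq) s k)⟩

lemma cons {l l' : List ℤ} (h : Eqv l l') (b : ℤ) : Eqv (b :: l) (b :: l') := fun q => by
  refine ⟨(h (nx b q)).1, fun hq s k => ?_⟩
  have h1 := (h (nx b q)).2 hq s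
  show cc s ^ (b * sgI q + wr l (nx b q)) * ∑ m : Fin (2 * s + 1), Tm s b k m * VV s l m =
    cc s ^ (b * sgI q + wr l' (nx b q)) * ∑ m : Fin (2 * s + 1), Tm s b k m * VV s l' m
  rw [Finset.mul_sum, Finset.mul_sum]
  refine Finset.sum_congr rfl fun m _ => ?_
  rw [zpow_add₀ (cc_ne s), zpow_add₀ (cc_ne s)]
  linear_combination cc s ^ (b * sgI q) * Tm s b k m * h1 m

/-- the relation gives equality of the invariants -/
theorem kashaev {l l' : List ℤ} (h : Eqv l l') (hl : l ≠ []) (hl' : l' ≠ []) (δ : ℤ) :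
    (IsOrientation (ltWord l) δ ↔ IsOrientation (ltWord l') δ) ∧
      (IsOrientation (ltWord l) δ → ∀ s : ℕ, 1 ≤ s →
        twoBridgeKashaev (ltWord l) δ (2 * s + 1) = twoBridgeKashaev (ltWord l') δ (2 * s + 1)) := by
  have key : ∀ (q : Fin 3), (![1, δ, -δ] : Fin 3 → ℤ) = st q →
      (orientAfter (ltWord l) ![1, δ, -δ] 2 = 1 ↔ orientAfter (ltWord l') ![1, δ, -δ] 2 = 1) ∧
      (orientAfter (ltWord l) ![1, δ, -δ] 2 = 1 → ∀ s : ℕ, 1 ≤ s →
        twoBridgeKashaev (ltWord l) δ (2 * s + 1) =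
          twoBridgeKashaev (ltWord l') δ (2 * s + 1)) := by
    intro q hq
    have t1 := (topW_orient l hl q).1
    have t2 := (topW_orient l' hl' q).1
    rw [hq]
    refine ⟨t1.1.trans ((h q).1.trans t2.1.symm), fun ho s hs => ?_⟩
    have he : EnI l q := t1.1.mp ho
    have he' : EnI l' q := (h q).1.mp he
    rw [kashaev_VV hl δ s hs, kashaev_VV hl' δ s hs, hq]
    show cc s ^ orientedWrithe (topW 0 l) (st q) * _ = cc s ^ orientedWrithe (topW 0 l') (st q) * _
    rw [t1.2 he, t2.2 he']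
    exact (h q).2 he s 0
  unfold IsOrientation
  refine ⟨and_congr_right fun hδ => ?_, fun ho => ?_⟩
  · rcases hδ with rfl | rfl
    · exact (key 2 bot_one).1
    · exact (key 1 bot_neg).1
  · rcases ho.1 with rfl | rfl
    · exact (key 2 bot_one).2 ho.2
    · exact (key 1 bot_neg).2 ho.2

end Eqv

/-! ### the moves -/

lemma nx3 (ea eb : Bool) (q : Fin 3) :
    (Fin.rev (if eb then (Fin.rev (Equiv.swap 0 1 (Fin.rev (if ea then q else Equiv.swap 0 1 q))))
      else Equiv.swap 0 1 (Fin.rev (Equiv.swap 0 1 (Fin.rev (if ea then q else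
        Equiv.swap 0 1 q)))))) =
    (Fin.rev (if !eb then (Fin.rev (if !ea then q else Equiv.swap 0 1 q))
      else Equiv.swap 0 1 (Fin.rev (if !ea then q else Equiv.swap 0 1 q)))) := by
  revert ea eb q
  decide

lemma sg3 (ea : Bool) (q : Fin 3) :
    sgI q + sgI (Fin.rev (if ea then q else Equiv.swap 0 1 q)) +
      sgI (Fin.rev (Equiv.swap 0 1 (Fin.rev (if ea then q else Equiv.swap 0 1 q)))) = -1 ∧
    sgI (Fin.rev (if !ea then q else Equiv.swap 0 1 q)) =
      sgI (Fin.rev (Equiv.swap 0 1 (Fin.rev (if ea then q else Equiv.swap 0 1 q)))) := by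
  revert ea q
  decide

lemma nx_bool (b : ℤ) (q : Fin 3) :
    nx b q = Fin.rev (if decide (Even b) then q else Equiv.swap 0 1 q) := by
  unfold nx
  by_cases h : Even b <;> simp [h]

lemma dec_not {a b : ℤ} (h : Even b ↔ ¬ Even a) : decide (Even b) = !decide (Even a) := by
  by_cases ha : Even a <;> simp [ha, h]

lemma move_aux {a b a' b' e : ℤ} (ha : Even a' ↔ ¬ Even a) (hb : Even b' ↔ ¬ Even b)
    (he : ¬ Even e) (q : Fin 3) :
    nx b (nx e (nx a q)) = nx b' (nx a' q) ∧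
      sgI q + sgI (nx a q) + sgI (nx e (nx a q)) = -1 ∧ sgI (nx a' q) = sgI (nx e (nx a q)) := by
  rw [nx_odd he, nx_bool b, nx_bool b', nx_bool a', nx_bool a, dec_not ha, dec_not hb]
  exact ⟨nx3 _ _ q, sg3 _ q⟩

/-- merging a digit `1` -/
theorem eqv_one (a b : ℤ) (l : List ℤ) : Eqv (a :: 1 :: b :: l) ((a - 1) :: (b - 1) :: l) := by
  intro q
  obtain ⟨h1, h2, h3⟩ := move_aux (a := a) (b := b) (a' := a - 1) (b' := b - 1) (e := 1)
    (even_sub_one a) (even_sub_one b) (by decide) q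
  refine ⟨?_, fun _ s k => ?_⟩
  · show EnI l (nx b (nx 1 (nx a q))) ↔ EnI l (nx (b - 1) (nx (a - 1) q))
    rw [h1]
  · have e1 : wr (a :: 1 :: b :: l) q = wr ((a - 1) :: (b - 1) :: l) q - 1 := by
      show a * sgI q + (1 * sgI (nx a q) + (b * sgI (nx 1 (nx a q)) + wr l (nx b (nx 1 (nx a q))))) =
        (a - 1) * sgI q + ((b - 1) * sgI (nx (a - 1) q) + wr l (nx (b - 1) (nx (a - 1) q))) - 1
      rw [h1, h3]
      linear_combination h2
    have e2 : VV s (a :: 1 :: b :: l) = cc s • VV s ((a - 1) :: (b - 1) :: l) := by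
      show (Tm s a).mulVec ((Tm s 1).mulVec ((Tm s b).mulVec (VV s l))) =
        cc s • (Tm s (a - 1)).mulVec ((Tm s (b - 1)).mulVec (VV s l))
      rw [Matrix.mulVec_mulVec, Matrix.mulVec_mulVec, Matrix.mulVec_mulVec, Tm_one,
        Matrix.smul_mulVec]
    rw [e1, e2, zpow_sub₀ (cc_ne s), zpow_one, Pi.smul_apply, smul_eq_mul]
    have := cc_ne s
    field_simp

/-- merging a digit `-1` -/
theorem eqv_neg_one (a b : ℤ) (l : List ℤ) :
    Eqv (a :: (-1) :: b :: l) ((a + 1) :: (b + 1) :: l) := by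
  have hev : ∀ x : ℤ, Even (x + 1) ↔ ¬ Even x := fun x => Int.even_add_one
  intro q
  obtain ⟨h1, h2, h3⟩ := move_aux (a := a) (b := b) (a' := a + 1) (b' := b + 1) (e := -1)
    (hev a) (hev b) (by decide) q
  refine ⟨?_, fun _ s k => ?_⟩
  · show EnI l (nx b (nx (-1) (nx a q))) ↔ EnI l (nx (b + 1) (nx (a + 1) q))
    rw [h1]
  · have e1 : wr (a :: (-1) :: b :: l) q = wr ((a + 1) :: (b + 1) :: l) q + 1 := by
      show a * sgI q + ((-1) * sgI (nx a q) + (b * sgI (nx (-1) (nx a q)) +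
          wr l (nx b (nx (-1) (nx a q))))) =
        (a + 1) * sgI q + ((b + 1) * sgI (nx (a + 1) q) + wr l (nx (b + 1) (nx (a + 1) q))) + 1
      rw [h1, h3]
      linear_combination -h2
    have e2 : VV s (a :: (-1) :: b :: l) = (cc s)⁻¹ • VV s ((a + 1) :: (b + 1) :: l) := by
      show (Tm s a).mulVec ((Tm s (-1)).mulVec ((Tm s b).mulVec (VV s l))) =
        (cc s)⁻¹ • (Tm s (a + 1)).mulVec ((Tm s (b + 1)).mulVec (VV s l))
      rw [Matrix.mulVec_mulVec, Matrix.mulVec_mulVec, Matrix.mulVec_mulVec,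
        Tm_neg_one, Matrix.smul_mulVec]
    rw [e1, e2, zpow_add₀ (cc_ne s), zpow_one, Pi.smul_apply, smul_eq_mul]
    have := cc_ne s
    field_simp

end Pool.Agent.Work.MP_b30479_gt.G2
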