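import Pool.Agent.Work.MP_b30479_gt.G2.XRog

/-!
# The lifted five-term relation

`C i j` are logarithms of the Ptolemy coordinates `c i j` of five points.  Numerically tested with
random logarithms.

Proof.  Choose `θ` such that `r i = c i 4 e^{-iθ} / c i 3` (`i = 0, 1, 2`) is not in `(-∞, 0]`
(three conditions, so one of four angles works).  For `τ ≥ 0` let
`c i 4 (τ) = c i 4 + τ e^{iθ} c i 3 = c i 3 e^{iθ} (τ + r i)` (`i < 3`), all other `c i j` constant:
the Ptolemy relations remain true.  Logarithms: `C i 4 (τ) = C i 4 - Log (r i) + Log (τ + r i)`.  By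
`rl_deriv` the function `exp (i/π · sum)` is constant (`∑ (-1)^i (α_i dβ_i - β_i dα_i) = 0`
identically).  As `τ → ∞`, `C i 4 (τ) - C i 3 - iθ - log τ → 2πi N i`, the faces `0134`, `0234`,
`1234` degenerate (`rl_lim`, `z → 1`, `m = N 0 - N 1`, `N 0 - N 2`, `N 1 - N 2`), and the face `0124`
tends to the face `0123` with logarithms shifted by `2πi (N 0 - N 1)`, `2πi (N 2 - N 1)`
(`rl_shift`); all the terms with `N` cancel.
-/

namespace Pool.Agent.Work.MP_b30479_gt.G2

open Filter Topology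

/-- the contribution of the face `i j k l` -/
noncomputable def fc {n : ℕ} (C : Fin n → Fin n → ℂ) (i j k l : Fin n) : ℂ :=
  rl (C i l + C j k - C i k - C j l) (C i j + C k l - C i k - C j l)

/-- the Ptolemy relation -/
def Pt {n : ℕ} (C : Fin n → Fin n → ℂ) (i j k l : Fin n) : Prop :=
  Complex.exp (C i l + C j k) + Complex.exp (C i j + C k l) = Complex.exp (C i k + C j l)

namespace LFiveAux

/-- the exponential -/
noncomputable def E (z : ℂ) : ℂ := Complex.exp (Complex.I / Real.pi * z)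

lemma E_add (x y : ℂ) : E (x + y) = E x * E y := by
  unfold E
  rw [mul_add, Complex.exp_add]

lemma E_sub (x y : ℂ) : E (x - y) = E x * (E y)⁻¹ := by
  unfold E
  rw [mul_sub, Complex.exp_sub, div_eq_mul_inv]

lemma E_ne (x : ℂ) : E x ≠ 0 := Complex.exp_ne_zero _

lemma cg_E {x y : ℂ} (h : Cg x y) : E x = E y := by
  have h1 := cg_iff.1 h
  have h2 : E (x - y) = 1 := h1
  rw [E_sub, mul_inv_eq_one₀ (E_ne y)] at h2
  exact h2

lemma E_int (n : ℤ) : E (Real.pi * Complex.I * (2 * Real.pi * Complex.I * n)) = 1 := by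
  unfold E
  have hpi : (Real.pi : ℂ) ≠ 0 := by exact_mod_cast Real.pi_ne_zero
  have e : Complex.I / Real.pi * (Real.pi * Complex.I * (2 * Real.pi * Complex.I * n)) =
      ((-n : ℤ) : ℂ) * (2 * Real.pi * Complex.I) := by
    push_cast
    field_simp
    rw [Complex.I_sq]
    ring
  rw [e]
  exact Complex.exp_int_mul_two_pi_mul_I (-n)

lemma E_cont : Continuous E := by
  unfold E
  fun_prop

/-- the direction -/
lemma dir (ζ : Fin 3 → ℂ) (hζ : ∀ i, ζ i ≠ 0) :
    ∃ w : ℂ, w ≠ 0 ∧ ∀ i, ζ i * w ∈ Complex.slitPlane := by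
  set W : Fin 4 → ℂ := ![1, Complex.I, -1, -Complex.I] with hW
  by_contra hcon
  push Not at hcon
  have hW0 : ∀ a, W a ≠ 0 := by
    intro a
    fin_cases a <;> simp [hW]
  have h1 : ∀ a : Fin 4, ∃ i : Fin 3, ζ i * W a ∉ Complex.slitPlane := fun a => hcon (W a) (hW0 a)
  choose f hf using h1
  obtain ⟨a, b, hab, hfab⟩ := Fintype.exists_ne_map_eq_of_card_lt f (by simp)
  have ha := hf a
  have hb := hf b
  rw [← hfab] at hb
  set z := ζ (f a) with hz
  have hz0 : z ≠ 0 := hζ _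
  have hz1 : z.re ≠ 0 ∨ z.im ≠ 0 := by
    by_contra h
    push Not at h
    exact hz0 (Complex.ext h.1 h.2)
  rw [Complex.mem_slitPlane_iff, not_or, not_lt, not_not] at ha hb
  obtain ⟨ha1, ha2⟩ := ha
  obtain ⟨hb1, hb2⟩ := hb
  fin_cases a <;> fin_cases b <;> simp [hW] at hab ha1 ha2 hb1 hb2 <;>
    rcases hz1 with h | h <;> apply h <;> linarith

/-- `F` has the logarithmic derivative `d` at `t` -/
def LogD (F : ℝ → ℂ) (d : ℂ) (t : ℝ) : Prop := HasDerivAt F (F t * d) t

lemma LogD.mul {F G : ℝ → ℂ} {d e : ℂ} {t : ℝ} (hF : LogD F d t) (hG : LogD G e t) :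
    LogD (fun s => F s * G s) (d + e) t := by
  unfold LogD at *
  refine (HasDerivAt.mul hF hG).congr_deriv ?_
  ring

lemma LogD.inv {F : ℝ → ℂ} {d : ℂ} {t : ℝ} (hF : LogD F d t) (h0 : F t ≠ 0) :
    LogD (fun s => (F s)⁻¹) (-d) t := by
  unfold LogD at *
  refine (HasDerivAt.inv hF h0).congr_deriv ?_
  field_simp

lemma hasDerivAt_ell {r : ℂ} {t : ℝ} (h : (t : ℂ) + r ∈ Complex.slitPlane) :
    HasDerivAt (fun s : ℝ => Complex.log (s + r)) (1 / (t + r)) t :=
  HasDerivAt.clog_real ((Complex.ofRealCLM.hasDerivAt (x := t)).add_const r) h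

lemma slit_add {r : ℂ} (hr : r ∈ Complex.slitPlane) {t : ℝ} (ht : 0 ≤ t) :
    (t : ℂ) + r ∈ Complex.slitPlane := by
  rw [Complex.mem_slitPlane_iff] at *
  simp only [Complex.add_re, Complex.ofReal_re, Complex.add_im, Complex.ofReal_im, zero_add]
  rcases hr with h | h
  · exact Or.inl (by linarith)
  · exact Or.inr h

/-- the difference of the logarithms -/
lemma ell_sub {r s : ℂ} (hr : r ∈ Complex.slitPlane) (hs : s ∈ Complex.slitPlane) {t : ℝ}
    (ht : 0 < t) : Complex.log (t + r) - Complex.log (t + s) =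
      Complex.log (1 + r * (t⁻¹ : ℝ)) - Complex.log (1 + s * (t⁻¹ : ℝ)) := by
  have key : ∀ r : ℂ, r ∈ Complex.slitPlane →
      Complex.log (t + r) = Real.log t + Complex.log (1 + r * (t⁻¹ : ℝ)) := by
    intro r hr
    have ht0 : (t : ℂ) ≠ 0 := by exact_mod_cast ht.ne'
    have e : (t : ℂ) + r = t * (1 + r * (t⁻¹ : ℝ)) := by
      push_cast
      field_simp
    have h0 : (1 + r * (t⁻¹ : ℝ)) ≠ 0 := by
      intro h
      have := Complex.slitPlane_ne_zero (slit_add hr ht.le)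
      rw [e, h, mul_zero] at this
      exact this rfl
    rw [e, Complex.log_ofReal_mul ht h0]
  rw [key r hr, key s hs]
  ring

lemma rel {a b c : ℂ} (h : Complex.exp a + Complex.exp b = Complex.exp c) :
    Complex.exp (a - c) + Complex.exp (b - c) = 1 := by
  rw [Complex.exp_sub, Complex.exp_sub, ← add_div, h, div_self (Complex.exp_ne_zero c)]

/-- the moving logarithm -/
noncomputable def A (C3 Θ r : ℂ) (N : ℤ) (t : ℝ) : ℂ :=
  C3 + Θ + N * (2 * Real.pi * Complex.I) + Complex.log (t + r)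

lemma exp_A (C3 Θ : ℂ) {r : ℂ} (N : ℤ) {t : ℝ} (h : (t : ℂ) + r ≠ 0) :
    Complex.exp (A C3 Θ r N t) = Complex.exp C3 * Complex.exp Θ * (t + r) := by
  unfold A
  rw [Complex.exp_add, Complex.exp_add, Complex.exp_add, Complex.exp_int_mul_two_pi_mul_I,
    Complex.exp_log h]
  ring

lemma deriv_A (C3 Θ : ℂ) {r : ℂ} (N : ℤ) {t : ℝ} (h : (t : ℂ) + r ∈ Complex.slitPlane) :
    HasDerivAt (A C3 Θ r N) (1 / (t + r)) t :=
  (hasDerivAt_ell h).const_add (C3 + Θ + N * (2 * Real.pi * Complex.I))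

lemma im_A (C3 Θ r : ℂ) (N : ℤ) (t : ℝ) :
    |(A C3 Θ r N t).im| ≤ |(C3 + Θ + N * (2 * Real.pi * Complex.I)).im| + Real.pi := by
  unfold A
  rw [Complex.add_im]
  refine (abs_add_le _ _).trans (add_le_add_right ?_ _)
  rw [Complex.log_im]
  exact Complex.abs_arg_le_pi _

lemma lim_ell {r s : ℂ} (hr : r ∈ Complex.slitPlane) (hs : s ∈ Complex.slitPlane) :
    Tendsto (fun n : ℕ => Complex.log (((n : ℝ) : ℂ) + r) - Complex.log (((n : ℝ) : ℂ) + s))
      atTop (𝓝 0) := by
  have h1 : Tendsto (fun n : ℕ => Complex.log (1 + r * (((n : ℝ))⁻¹ : ℝ)) -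
      Complex.log (1 + s * (((n : ℝ))⁻¹ : ℝ))) atTop (𝓝 0) := by
    have h2 : ∀ r : ℂ, Tendsto (fun n : ℕ => Complex.log (1 + r * (((n : ℝ))⁻¹ : ℝ))) atTop
        (𝓝 0) := by
      intro r
      have h3 : Tendsto (fun n : ℕ => 1 + r * ((((n : ℝ))⁻¹ : ℝ) : ℂ)) atTop (𝓝 1) := by
        have h4 : Tendsto (fun n : ℕ => ((((n : ℝ))⁻¹ : ℝ) : ℂ)) atTop (𝓝 ((0 : ℝ) : ℂ)) :=
          (Complex.continuous_ofReal.tendsto 0).comp tendsto_inv_atTop_nhds_zero_nat
        have := (h4.const_mul r).const_add 1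
        simpa using this
      have h5 : ContinuousAt Complex.log 1 := continuousAt_clog (by simp)
      have := h5.tendsto.comp h3
      rw [Complex.log_one] at this
      exact this
    simpa using (h2 r).sub (h2 s)
  refine h1.congr' ?_
  filter_upwards [eventually_gt_atTop 0] with n hn
  exact (ell_sub hr hs (by exact_mod_cast hn)).symm

end LFiveAux

open LFiveAux

namespace LFiveAux

variable {C01 C02 C03 C04 C12 C13 C14 C23 C24 C34 : ℂ}

theorem five_exp
    (h0 : Complex.exp (C14 + C23) + Complex.exp (C12 + C34) = Complex.exp (C13 + C24))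
    (h1 : Complex.exp (C04 + C23) + Complex.exp (C02 + C34) = Complex.exp (C03 + C24))
    (h2 : Complex.exp (C04 + C13) + Complex.exp (C01 + C34) = Complex.exp (C03 + C14))
    (h3 : Complex.exp (C04 + C12) + Complex.exp (C01 + C24) = Complex.exp (C02 + C14))
    (h4 : Complex.exp (C03 + C12) + Complex.exp (C01 + C23) = Complex.exp (C02 + C13)) :
    E (rl (C14 + C23 - C13 - C24) (C12 + C34 - C13 - C24)) *
      (E (rl (C04 + C23 - C03 - C24) (C02 + C34 - C03 - C24)))⁻¹ *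
      E (rl (C04 + C13 - C03 - C14) (C01 + C34 - C03 - C14)) *
      (E (rl (C04 + C12 - C02 - C14) (C01 + C24 - C02 - C14)))⁻¹ *
      E (rl (C03 + C12 - C02 - C13) (C01 + C23 - C02 - C13)) = 1 := by
  have hpi : (Real.pi : ℂ) ≠ 0 := by exact_mod_cast Real.pi_ne_zero
  obtain ⟨w, hw0, hw⟩ := dir ![Complex.exp (C04 - C03), Complex.exp (C14 - C13),
    Complex.exp (C24 - C23)] (by intro i; fin_cases i <;> simp)
  obtain ⟨Θ, hΘ⟩ : ∃ Θ : ℂ, Complex.exp (-Θ) = w := ⟨-Complex.log w, by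
    rw [neg_neg, Complex.exp_log hw0]⟩
  have hr : ∀ X Y : ℂ, Complex.exp (X - Y) * w = Complex.exp (X - Y - Θ) := fun X Y => by
    rw [sub_eq_add_neg (X - Y) Θ, Complex.exp_add, hΘ]
  obtain ⟨r0, hr0⟩ : ∃ r, r = Complex.exp (C04 - C03) * w := ⟨_, rfl⟩
  obtain ⟨r1, hr1⟩ : ∃ r, r = Complex.exp (C14 - C13) * w := ⟨_, rfl⟩
  obtain ⟨r2, hr2⟩ : ∃ r, r = Complex.exp (C24 - C23) * w := ⟨_, rfl⟩
  have s0 : r0 ∈ Complex.slitPlane := by
    have := hw 0
    simpa [← hr0] using this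
  have s1 : r1 ∈ Complex.slitPlane := by
    have := hw 1
    simpa [← hr1] using this
  have s2 : r2 ∈ Complex.slitPlane := by
    have := hw 2
    simpa [← hr2] using this
  have hN : ∀ X Y r : ℂ, r = Complex.exp (X - Y) * w → r ∈ Complex.slitPlane →
      ∃ N : ℤ, A Y Θ r N 0 = X := by
    intro X Y r h hs
    rw [hr] at h
    have h5 : Complex.exp (X - Y - Θ) = Complex.exp (Complex.log r) := by
      rw [Complex.exp_log (Complex.slitPlane_ne_zero hs), h]
    obtain ⟨N, hN⟩ := Complex.exp_eq_exp_iff_exists_int.1 h5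
    refine ⟨N, ?_⟩
    unfold A
    rw [Complex.ofReal_zero, zero_add]
    linear_combination -hN
  obtain ⟨N0, hN0⟩ := hN C04 C03 r0 hr0 s0
  obtain ⟨N1, hN1⟩ := hN C14 C13 r1 hr1 s1
  obtain ⟨N2, hN2⟩ := hN C24 C23 r2 hr2 s2
  set A0 := A C03 Θ r0 N0 with hA0
  set A1 := A C13 Θ r1 N1 with hA1
  set A2 := A C23 Θ r2 N2 with hA2
  -- the values of the exponentials
  have q0 : Complex.exp C04 = Complex.exp C03 * Complex.exp Θ * r0 := by
    rw [← hN0, exp_A C03 Θ N0 (by simpa using Complex.slitPlane_ne_zero s0)]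
    simp
  have q1 : Complex.exp C14 = Complex.exp C13 * Complex.exp Θ * r1 := by
    rw [← hN1, exp_A C13 Θ N1 (by simpa using Complex.slitPlane_ne_zero s1)]
    simp
  have q2 : Complex.exp C24 = Complex.exp C23 * Complex.exp Θ * r2 := by
    rw [← hN2, exp_A C23 Θ N2 (by simpa using Complex.slitPlane_ne_zero s2)]
    simp
  simp only [Complex.exp_add, q0, q1, q2] at h0 h1 h2 h3 h4
  -- the relations for all times
  have R0 : ∀ t : ℝ, (t : ℂ) + r1 ≠ 0 → (t : ℂ) + r2 ≠ 0 →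
      Complex.exp (A1 t + C23 - C13 - A2 t) + Complex.exp (C12 + C34 - C13 - A2 t) = 1 := by
    intro t g1 g2
    have e : Complex.exp (A1 t + C23) + Complex.exp (C12 + C34) = Complex.exp (C13 + A2 t) := by
      rw [Complex.exp_add, Complex.exp_add, Complex.exp_add, hA1, hA2, exp_A _ _ _ g1,
        exp_A _ _ _ g2]
      linear_combination h0
    have := rel e
    rwa [show A1 t + C23 - (C13 + A2 t) = A1 t + C23 - C13 - A2 t by ring,
      show C12 + C34 - (C13 + A2 t) = C12 + C34 - C13 - A2 t by ring] at this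
  have R1 : ∀ t : ℝ, (t : ℂ) + r0 ≠ 0 → (t : ℂ) + r2 ≠ 0 →
      Complex.exp (A0 t + C23 - C03 - A2 t) + Complex.exp (C02 + C34 - C03 - A2 t) = 1 := by
    intro t g1 g2
    have e : Complex.exp (A0 t + C23) + Complex.exp (C02 + C34) = Complex.exp (C03 + A2 t) := by
      rw [Complex.exp_add, Complex.exp_add, Complex.exp_add, hA0, hA2, exp_A _ _ _ g1,
        exp_A _ _ _ g2]
      linear_combination h1
    have := rel e
    rwa [show A0 t + C23 - (C03 + A2 t) = A0 t + C23 - C03 - A2 t by ring,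
      show C02 + C34 - (C03 + A2 t) = C02 + C34 - C03 - A2 t by ring] at this
  have R2 : ∀ t : ℝ, (t : ℂ) + r0 ≠ 0 → (t : ℂ) + r1 ≠ 0 →
      Complex.exp (A0 t + C13 - C03 - A1 t) + Complex.exp (C01 + C34 - C03 - A1 t) = 1 := by
    intro t g1 g2
    have e : Complex.exp (A0 t + C13) + Complex.exp (C01 + C34) = Complex.exp (C03 + A1 t) := by
      rw [Complex.exp_add, Complex.exp_add, Complex.exp_add, hA0, hA1, exp_A _ _ _ g1,
        exp_A _ _ _ g2]
      linear_combination h2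
    have := rel e
    rwa [show A0 t + C13 - (C03 + A1 t) = A0 t + C13 - C03 - A1 t by ring,
      show C01 + C34 - (C03 + A1 t) = C01 + C34 - C03 - A1 t by ring] at this
  have R3 : ∀ t : ℝ, (t : ℂ) + r0 ≠ 0 → (t : ℂ) + r1 ≠ 0 → (t : ℂ) + r2 ≠ 0 →
      Complex.exp (A0 t + C12 - C02 - A1 t) + Complex.exp (C01 + A2 t - C02 - A1 t) = 1 := by
    intro t g0 g1 g2
    have e : Complex.exp (A0 t + C12) + Complex.exp (C01 + A2 t) = Complex.exp (C02 + A1 t) := by
      rw [Complex.exp_add, Complex.exp_add, Complex.exp_add, hA0, hA1, hA2, exp_A _ _ _ g0,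
        exp_A _ _ _ g1, exp_A _ _ _ g2]
      linear_combination h3 + Complex.exp Θ * t * h4
    have := rel e
    rwa [show A0 t + C12 - (C02 + A1 t) = A0 t + C12 - C02 - A1 t by ring,
      show C01 + A2 t - (C02 + A1 t) = C01 + A2 t - C02 - A1 t by ring] at this
  -- the function is constant
  set F : ℝ → ℂ := fun t => E (rl (A1 t + C23 - C13 - A2 t) (C12 + C34 - C13 - A2 t)) *
      (E (rl (A0 t + C23 - C03 - A2 t) (C02 + C34 - C03 - A2 t)))⁻¹ *
      E (rl (A0 t + C13 - C03 - A1 t) (C01 + C34 - C03 - A1 t)) *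
      (E (rl (A0 t + C12 - C02 - A1 t) (C01 + A2 t - C02 - A1 t)))⁻¹ with hF
  have hd : ∀ t : ℝ, 0 ≤ t → HasDerivAt F 0 t := by
    intro t ht
    have d0 := deriv_A C03 Θ N0 (slit_add s0 ht)
    have d1 := deriv_A C13 Θ N1 (slit_add s1 ht)
    have d2 := deriv_A C23 Θ N2 (slit_add s2 ht)
    rw [← hA0] at d0
    rw [← hA1] at d1
    rw [← hA2] at d2
    have ev : ∀ r : ℂ, r ∈ Complex.slitPlane → ∀ᶠ s : ℝ in 𝓝 t, (s : ℂ) + r ≠ 0 := by
      intro r hr
      have h5 : ContinuousAt (fun s : ℝ => (s : ℂ) + r) t := by fun_prop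
      exact h5.eventually_ne (Complex.slitPlane_ne_zero (slit_add hr ht))
    have l0 := rl_deriv (((d1.add_const C23).sub_const C13).sub d2) (d2.const_sub (C12 + C34 - C13))
      (by filter_upwards [ev r1 s1, ev r2 s2] with s g1 g2 using R0 s g1 g2)
    have l1 := rl_deriv (((d0.add_const C23).sub_const C03).sub d2) (d2.const_sub (C02 + C34 - C03))
      (by filter_upwards [ev r0 s0, ev r2 s2] with s g1 g2 using R1 s g1 g2)
    have l2 := rl_deriv (((d0.add_const C13).sub_const C03).sub d1) (d1.const_sub (C01 + C34 - C03))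
      (by filter_upwards [ev r0 s0, ev r1 s1] with s g1 g2 using R2 s g1 g2)
    have l3 := rl_deriv (((d0.add_const C12).sub_const C02).sub d1)
      (((d2.const_add C01).sub_const C02).sub d1)
      (by filter_upwards [ev r0 s0, ev r1 s1, ev r2 s2] with s g0 g1 g2 using R3 s g0 g1 g2)
    have L0 : LogD (fun t => E (rl (A1 t + C23 - C13 - A2 t) (C12 + C34 - C13 - A2 t))) _ t := l0
    have L1 : LogD (fun t => E (rl (A0 t + C23 - C03 - A2 t) (C02 + C34 - C03 - A2 t))) _ t := l1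
    have L2 : LogD (fun t => E (rl (A0 t + C13 - C03 - A1 t) (C01 + C34 - C03 - A1 t))) _ t := l2
    have L3 : LogD (fun t => E (rl (A0 t + C12 - C02 - A1 t) (C01 + A2 t - C02 - A1 t))) _ t := l3
    have L := ((L0.mul (L1.inv (E_ne _))).mul L2).mul (L3.inv (E_ne _))
    unfold LogD at L
    refine L.congr_deriv ?_
    rw [mul_eq_zero]
    right
    simp only [Pi.sub_apply]
    ring
  have hconst : ∀ t : ℝ, 0 ≤ t → F t = F 0 := by
    intro t ht
    refine constant_of_has_deriv_right_zero (a := 0) (b := t) ?_ ?_ t ⟨ht, le_rfl⟩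
    · intro s hs
      exact (hd s hs.1).continuousAt.continuousWithinAt
    · intro s hs
      exact (hd s hs.1).hasDerivWithinAt
  -- the limits
  have gs : ∀ r : ℂ, r ∈ Complex.slitPlane → ∀ n : ℕ, ((n : ℝ) : ℂ) + r ≠ 0 := fun r hr n =>
    Complex.slitPlane_ne_zero (slit_add hr (Nat.cast_nonneg n))
  have T0 := rl_lim (l := atTop) (N1 - N2) (f := fun n : ℕ => A1 n + C23 - C13 - A2 n)
    (g := fun n : ℕ => C12 + C34 - C13 - A2 n)
    (fun n => R0 n (gs r1 s1 n) (gs r2 s2 n)) (by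
      have := (lim_ell s1 s2).const_add (2 * Real.pi * Complex.I * ((N1 - N2 : ℤ) : ℂ))
      rw [add_zero] at this
      refine this.congr fun n => ?_
      rw [hA1, hA2]
      unfold A
      push_cast
      ring) ⟨|(C12 + C34 - C13).im| + (|(C23 + Θ + N2 * (2 * Real.pi * Complex.I)).im| + Real.pi),
      fun n => by
        rw [Complex.sub_im]
        exact (abs_sub _ _).trans (add_le_add_right (im_A _ _ _ _ _) _)⟩
  have T1 := rl_lim (l := atTop) (N0 - N2) (f := fun n : ℕ => A0 n + C23 - C03 - A2 n)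
    (g := fun n : ℕ => C02 + C34 - C03 - A2 n)
    (fun n => R1 n (gs r0 s0 n) (gs r2 s2 n)) (by
      have := (lim_ell s0 s2).const_add (2 * Real.pi * Complex.I * ((N0 - N2 : ℤ) : ℂ))
      rw [add_zero] at this
      refine this.congr fun n => ?_
      rw [hA0, hA2]
      unfold A
      push_cast
      ring) ⟨|(C02 + C34 - C03).im| + (|(C23 + Θ + N2 * (2 * Real.pi * Complex.I)).im| + Real.pi),
      fun n => by
        rw [Complex.sub_im]
        exact (abs_sub _ _).trans (add_le_add_right (im_A _ _ _ _ _) _)⟩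
  have T2 := rl_lim (l := atTop) (N0 - N1) (f := fun n : ℕ => A0 n + C13 - C03 - A1 n)
    (g := fun n : ℕ => C01 + C34 - C03 - A1 n)
    (fun n => R2 n (gs r0 s0 n) (gs r1 s1 n)) (by
      have := (lim_ell s0 s1).const_add (2 * Real.pi * Complex.I * ((N0 - N1 : ℤ) : ℂ))
      rw [add_zero] at this
      refine this.congr fun n => ?_
      rw [hA0, hA1]
      unfold A
      push_cast
      ring) ⟨|(C01 + C34 - C03).im| + (|(C13 + Θ + N1 * (2 * Real.pi * Complex.I)).im| + Real.pi),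
      fun n => by
        rw [Complex.sub_im]
        exact (abs_sub _ _).trans (add_le_add_right (im_A _ _ _ _ _) _)⟩
  -- the face which stays
  have hlog : ∀ r : ℂ, HasDerivAt (fun u : ℝ => Complex.log (1 + r * u)) (r * 1 / (1 + r * (0 : ℝ))) 0 := by
    intro r
    exact HasDerivAt.clog_real (((Complex.ofRealCLM.hasDerivAt (x := 0)).const_mul r).const_add 1)
      (by simp)
  have ev0 : ∀ r : ℂ, ∀ᶠ u : ℝ in 𝓝 0, 1 + r * (u : ℂ) ≠ 0 := by
    intro r
    have h5 : ContinuousAt (fun u : ℝ => 1 + r * (u : ℂ)) 0 := by fun_prop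
    exact h5.eventually_ne (by simp)
  have hT0 : Complex.exp Θ ≠ 0 := Complex.exp_ne_zero Θ
  have h3' : Complex.exp C03 * r0 * Complex.exp C12 + Complex.exp C01 * (Complex.exp C23 * r2) =
      Complex.exp C02 * (Complex.exp C13 * r1) := by
    have : Complex.exp Θ * (Complex.exp C03 * r0 * Complex.exp C12 +
        Complex.exp C01 * (Complex.exp C23 * r2)) =
      Complex.exp Θ * (Complex.exp C02 * (Complex.exp C13 * r1)) := by linear_combination h3
    exact mul_left_cancel₀ hT0 this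
  set f : ℝ → ℂ := fun u => (C03 + C12 - C02 - C13 + 2 * Real.pi * Complex.I * ((N0 - N1 : ℤ) : ℂ)) +
    (Complex.log (1 + r0 * u) - Complex.log (1 + r1 * u)) with hf
  set g : ℝ → ℂ := fun u => (C01 + C23 - C02 - C13 + 2 * Real.pi * Complex.I * ((N2 - N1 : ℤ) : ℂ)) +
    (Complex.log (1 + r2 * u) - Complex.log (1 + r1 * u)) with hg
  have hint : ∀ n : ℤ, Complex.exp (2 * Real.pi * Complex.I * n) = 1 := fun n => by
    rw [mul_comm]
    exact Complex.exp_int_mul_two_pi_mul_I n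
  have hfg : ∀ᶠ u : ℝ in 𝓝 0, Complex.exp (f u) + Complex.exp (g u) = 1 := by
    filter_upwards [ev0 r0, ev0 r1, ev0 r2] with u g0 g1 g2
    have e : Complex.exp (C03 + C12 + Complex.log (1 + r0 * u)) +
        Complex.exp (C01 + C23 + Complex.log (1 + r2 * u)) =
        Complex.exp (C02 + C13 + Complex.log (1 + r1 * u)) := by
      simp only [Complex.exp_add]
      rw [Complex.exp_log g0, Complex.exp_log g1, Complex.exp_log g2]
      linear_combination h4 + u * h3'
    have e1 := rel e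
    have e2 : f u = (C03 + C12 + Complex.log (1 + r0 * u) -
        (C02 + C13 + Complex.log (1 + r1 * u))) + 2 * Real.pi * Complex.I * ((N0 - N1 : ℤ) : ℂ) := by
      rw [hf]
      ring
    have e3 : g u = (C01 + C23 + Complex.log (1 + r2 * u) -
        (C02 + C13 + Complex.log (1 + r1 * u))) + 2 * Real.pi * Complex.I * ((N2 - N1 : ℤ) : ℂ) := by
      rw [hg]
      ring
    rw [e2, e3, Complex.exp_add, Complex.exp_add, hint, hint, mul_one, mul_one]
    exact e1
  have dR := rl_deriv (f := f) (g := g) (((hlog r0).sub (hlog r1)).const_add _)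
    (((hlog r2).sub (hlog r1)).const_add _) hfg
  have T3 : Tendsto (fun n : ℕ => E (rl (A0 n + C12 - C02 - A1 n) (C01 + A2 n - C02 - A1 n))) atTop
      (𝓝 (E (rl (C03 + C12 - C02 - C13 + 2 * Real.pi * Complex.I * ((N0 - N1 : ℤ) : ℂ))
        (C01 + C23 - C02 - C13 + 2 * Real.pi * Complex.I * ((N2 - N1 : ℤ) : ℂ))))) := by
    have c1 := dR.continuousAt.tendsto.comp (tendsto_inv_atTop_nhds_zero_nat (𝕜 := ℝ))
    have e0 : f 0 = C03 + C12 - C02 - C13 + 2 * Real.pi * Complex.I * ((N0 - N1 : ℤ) : ℂ) := by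
      simp [hf]
    have e1 : g 0 = C01 + C23 - C02 - C13 + 2 * Real.pi * Complex.I * ((N2 - N1 : ℤ) : ℂ) := by
      simp [hg]
    rw [e0, e1] at c1
    refine c1.congr' ?_
    filter_upwards [eventually_gt_atTop 0] with n hn
    have hn' : (0 : ℝ) < n := by exact_mod_cast hn
    have e2 : f ((n : ℝ)⁻¹) = A0 n + C12 - C02 - A1 n := by
      have := ell_sub s0 s1 hn'
      rw [hf, hA0, hA1]
      unfold A
      simp only
      rw [← this]
      push_cast
      ring
    have e3 : g ((n : ℝ)⁻¹) = C01 + A2 n - C02 - A1 n := by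
      have := ell_sub s2 s1 hn'
      rw [hg, hA2, hA1]
      unfold A
      simp only
      rw [← this]
      push_cast
      ring
    simp only [Function.comp, E]
    rw [e2, e3]
  have hrel : Complex.exp (C03 + C12 - C02 - C13) + Complex.exp (C01 + C23 - C02 - C13) = 1 := by
    have e : Complex.exp (C03 + C12) + Complex.exp (C01 + C23) = Complex.exp (C02 + C13) := by
      rw [Complex.exp_add, Complex.exp_add, Complex.exp_add]
      exact h4
    have := rel e
    rwa [show C03 + C12 - (C02 + C13) = C03 + C12 - C02 - C13 by ring,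
      show C01 + C23 - (C02 + C13) = C01 + C23 - C02 - C13 by ring] at this
  rw [cg_E (rl_shift hrel (N0 - N1) (N2 - N1))] at T3
  -- the remaining linear terms
  set K : ℂ := ((N1 - N2 : ℤ) : ℂ) * (C12 + C34 - C13) - ((N0 - N2 : ℤ) : ℂ) * (C02 + C34 - C03) +
    ((N0 - N1 : ℤ) : ℂ) * (C01 + C34 - C03) + ((N0 - N1 : ℤ) : ℂ) *
      (C23 - C13 + 2 * Real.pi * Complex.I * ((N2 - N1 : ℤ) : ℂ)) with hK
  have T4 : Tendsto (fun n : ℕ => Real.pi * Complex.I * (((N1 - N2 : ℤ) : ℂ) *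
      (C12 + C34 - C13 - A2 n) - ((N0 - N2 : ℤ) : ℂ) * (C02 + C34 - C03 - A2 n) +
      ((N0 - N1 : ℤ) : ℂ) * (C01 + C34 - C03 - A1 n))) atTop (𝓝 (Real.pi * Complex.I * K)) := by
    have := ((((lim_ell s2 s1).const_mul ((N0 - N1 : ℤ) : ℂ)).const_add K).const_mul
      (Real.pi * Complex.I))
    rw [mul_zero, add_zero] at this
    refine this.congr fun n => ?_
    rw [hK, hA1, hA2]
    unfold A
    push_cast
    ring
  have T5 := (E_cont.tendsto _).comp T4
  have T6 := ((((T0.mul (T1.inv₀ one_ne_zero)).mul T2).mul (T3.inv₀ (E_ne _))).mul T5)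
  have e1 : ∀ n : ℕ, F n = F 0 := fun n => hconst n (Nat.cast_nonneg n)
  have e2 : F 0 = E (rl (C14 + C23 - C13 - C24) (C12 + C34 - C13 - C24)) *
      (E (rl (C04 + C23 - C03 - C24) (C02 + C34 - C03 - C24)))⁻¹ *
      E (rl (C04 + C13 - C03 - C14) (C01 + C34 - C03 - C14)) *
      (E (rl (C04 + C12 - C02 - C14) (C01 + C24 - C02 - C14)))⁻¹ := by
    rw [hF]
    simp only [hN0, hN1, hN2]
  rw [← e2]
  have T7 : Tendsto (fun _ : ℕ => F 0) atTop (𝓝 (1 * 1⁻¹ * 1 *
      (E (rl (C03 + C12 - C02 - C13) (C01 + C23 - C02 - C13) + Real.pi * Complex.I *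
        (((N0 - N1 : ℤ) : ℂ) * (C01 + C23 - C02 - C13) -
          ((N2 - N1 : ℤ) : ℂ) * (C03 + C12 - C02 - C13))))⁻¹ * E (Real.pi * Complex.I * K))) := by
    refine T6.congr fun n => ?_
    rw [← e1 n, hF]
    simp only [Function.comp]
    have c0 : ∀ (x y : ℂ) (m : ℤ), Complex.exp (Complex.I / Real.pi * (x - Real.pi * Complex.I * m * y)) =
        E x * (E (Real.pi * Complex.I * (m * y)))⁻¹ := by
      intro x y m
      rw [← E_sub]
      unfold E
      congr 1
      ring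
    rw [c0, c0, c0]
    rw [mul_add (Real.pi * Complex.I : ℂ), mul_sub (Real.pi * Complex.I : ℂ), E_add, E_sub]
    have n0 := E_ne (Real.pi * Complex.I * (((N1 - N2 : ℤ) : ℂ) * (C12 + C34 - C13 - A2 n)))
    have n1 := E_ne (Real.pi * Complex.I * (((N0 - N2 : ℤ) : ℂ) * (C02 + C34 - C03 - A2 n)))
    have n2 := E_ne (Real.pi * Complex.I * (((N0 - N1 : ℤ) : ℂ) * (C01 + C34 - C03 - A1 n)))
    generalize E (Real.pi * Complex.I * (((N1 - N2 : ℤ) : ℂ) * (C12 + C34 - C13 - A2 n))) = X0 at n0 ⊢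
    generalize E (Real.pi * Complex.I * (((N0 - N2 : ℤ) : ℂ) * (C02 + C34 - C03 - A2 n))) = X1 at n1 ⊢
    generalize E (Real.pi * Complex.I * (((N0 - N1 : ℤ) : ℂ) * (C01 + C34 - C03 - A1 n))) = X2 at n2 ⊢
    have n3 := E_ne (rl (A0 n + C23 - C03 - A2 n) (C02 + C34 - C03 - A2 n))
    have n4 := E_ne (rl (A0 n + C12 - C02 - A1 n) (C01 + A2 n - C02 - A1 n))
    generalize E (rl (A0 n + C23 - C03 - A2 n) (C02 + C34 - C03 - A2 n)) = Y1 at n3 ⊢
    generalize E (rl (A0 n + C12 - C02 - A1 n) (C01 + A2 n - C02 - A1 n)) = Y3 at n4 ⊢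
    generalize E (rl (A1 n + C23 - C13 - A2 n) (C12 + C34 - C13 - A2 n)) = Y0
    generalize E (rl (A0 n + C13 - C03 - A1 n) (C01 + C34 - C03 - A1 n)) = Y2
    field_simp
  have e3 := tendsto_nhds_unique T7 tendsto_const_nhds
  rw [← e3]
  rw [one_mul, inv_one, one_mul, one_mul, mul_assoc, mul_comm (E (Real.pi * Complex.I * K)),
    ← mul_assoc]
  rw [mul_comm (E _)⁻¹, ← E_sub, ← E_add]
  have e4 : rl (C03 + C12 - C02 - C13) (C01 + C23 - C02 - C13) -
      (rl (C03 + C12 - C02 - C13) (C01 + C23 - C02 - C13) + Real.pi * Complex.I *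
        (((N0 - N1 : ℤ) : ℂ) * (C01 + C23 - C02 - C13) -
          ((N2 - N1 : ℤ) : ℂ) * (C03 + C12 - C02 - C13))) + Real.pi * Complex.I * K =
      Real.pi * Complex.I * (2 * Real.pi * Complex.I * (((N0 - N1) * (N2 - N1) : ℤ) : ℂ)) := by
    rw [hK]
    push_cast
    ring
  rw [e4]
  exact E_int _

end LFiveAux

theorem rl_five (C : Fin 5 → Fin 5 → ℂ) (h0 : Pt C 1 2 3 4) (h1 : Pt C 0 2 3 4) (h2 : Pt C 0 1 3 4)
    (h3 : Pt C 0 1 2 4) (h4 : Pt C 0 1 2 3) :
    Cg (fc C 1 2 3 4 - fc C 0 2 3 4 + fc C 0 1 3 4 - fc C 0 1 2 4 + fc C 0 1 2 3) 0 := by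
  have key := five_exp h0 h1 h2 h3 h4
  rw [cg_iff, sub_zero]
  change E _ = 1
  rw [E_add, E_sub, E_add, E_sub]
  exact key

end Pool.Agent.Work.MP_b30479_gt.G2
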