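import Pool.Agent.Work.MP_b30479_gt.G2.RngB

/-!
# Left ramps of the hinges of a ring: definitions

`w = x + i m x` is on the left ramp (`m = T / cl`), `ζ = σ + i η` is the ring variable.
Flat part: `-1/4 ≤ σ ≤ 0`, `η = ρ`.  Ramp: `σ = -1/2 + s`, `η = 4ρs`.
`b = 4`: `ρ ≤ .1045`; `b ≥ 5`: `ρ ≤ .0725`.
First order condition of the ring variable on the ramp: `FP` (a hinge of positive height or `≤ 1/2`
at the other side), `FX` (other hinge `> 1/2`).
-/

namespace Pool.Agent.Work.MP_b30479_gt.G2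

open VOL

namespace LR

/-- `w` on the left ramp with slope `m` -/
structure W (x m : ℝ) (w : ℂ) : Prop where
  re : w.re = x
  im : w.im = m * x
  pos : 0 < x

/-- `ζ` on the flat part -/
structure ZF (ζ : ℂ) : Prop where
  lo : -(1 / 4) ≤ ζ.re
  hi : ζ.re ≤ 0
  pos : 0 < ζ.im
  cap : ζ.im ≤ 1045 / 10000

/-- `ζ` on the ramp -/
structure ZR (s ρ : ℝ) (ζ : ℂ) : Prop where
  re : ζ.re = -(1 / 2) + s
  im : ζ.im = 4 * ρ * s
  pos : 0 < ρ
  lo : 1 / 16 ≤ s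
  hi : s ≤ 1 / 4

/-- bound for the other hinge -/
noncomputable def gE (s : ℝ) : ℝ := if s < 12 / 100 then 1 else 107 / 100 - 17 * s ^ 2

def FP (b s ρ : ℝ) (w ζ : ℂ) : Prop :=
  -(4 * Real.pi * ρ * (2 - b * (1 - 4 * s))) + Dm (4 * ρ) w ζ ≤ 4 * Real.pi * ρ * gE s

def FX (b s ρ : ℝ) (w ζ : ℂ) : Prop :=
  -(4 * Real.pi * ρ * (2 - b * (1 - 4 * s))) + Dm (4 * ρ) w ζ ≤ 45 / 10 * s

/-- lower bounds, all rounds with the other hinge `≤ 1/2` -/
noncomputable def eC (x m : ℝ) : ℝ :=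
  if -(625 / 1000) ≤ m then min (35 / 100) (1064 / 1000 - 74 / 10 * x)
  else min (3 / 10) (84 / 100 - 54 / 10 * x)

/-- first round -/
noncomputable def eL0 (x m : ℝ) : ℝ :=
  if -(625 / 1000) ≤ m then min (35 / 100) (85 / 100 - 8 * x) else 27 / 100 - 26 / 10 * x

end LR

end Pool.Agent.Work.MP_b30479_gt.G2
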