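import Pool.Agent.Work.MP_b30479_gt.G2.LRB0

/-!
# Left ramps of the hinges of a ring: certificates
-/

namespace Pool.Agent.Work.MP_b30479_gt.G2

open VOL NumI

namespace LR

theorem cP5_1 : okB 10000 (tst cB (eK 3 10) (rP 20 2) (eK 0 1)) 0 0 0 0 40 40 1000 8000 9875 625 1200 0 725
    0x1f3e00fbf4182fbf7e80060be7c07f7e8305f3e00f80be7df8001020003e7c07f017cf9f00030467e03f80be7c05f3e020008004f808b0008102000003e7cf80007cf80017cf80a78408000000608000 = true := by
  decide +kernel

theorem cP5_2 : okB 10000 (tst cB (eK 3 10) (rQ 20 193) (eK 0 1)) 0 0 0 0 40 40 1000 8000 9875 1200 2500 0 725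
    0x41a340830834380f80c18208345000e1000006408012640000f80c18208345011a001840810002204001001f0183040050a005810d1a00b020240b021a4010001f0f80f80be03067d100f80fe7c0608102081020004346811a2800045f010204102001a1001cf80810200286fc0608210040020d04340002df01fc05f011ff80be7c040c0020600204041000721f0183262807cf8081820434204007170304080040810104000820404102000000000 = true := by
  decide +kernel

theorem cP5_3 : okB 10000 (tst cB (eL 84 100 54 10) (rP 20 2) (eK 0 1)) 0 0 0 0 40 1000 1600 8000 9875 625 1200 0 725
    0x1fbf02fdf8103fbf817dfa0c07efc00100 = true := by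
  decide +kernel

theorem cP5_4 : okB 10000 (tst cB (eL 84 100 54 10) (rQ 20 193) (eK 0 1)) 0 0 0 0 40 1000 1600 8000 9875 1200 2500 0 725
    0x40808205045010208100040a081040e086fd040808014340871403e0300345100003e0305f3e82fa0be7c01f4100040c20af80c1841bf0183021068d01f01830834680320c1800010204000038714000040e0438a020000315f018d200000d2003e1c00080fc060c107260438d0228981000057c065857c0600002f9f007c060fe7d05f41a8f80fe020008100 = true := by
  decide +kernel

theorem cX5_1 : okB 10000 (tst cB (eL 27 100 26 10) (rP 20 3) kX) 0 0 0 0 40 40 600 8000 9875 625 2500 0 725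
    0x1020008100040810084000c102081cc843208c81060c2043208b01060018408342000800f81060c02bf9f01fc0434ffc0470083000fe7cf9f0003060817cf9f3e02060fefcfbf000206081020810200080010408100030e4cb0400ebe02040c1820810e0402100030403e7cf80be0207f3e43f80818301f3e7c05f3e02000c10204002040810002f84d416000c1fcf9f007c040c102041020401f02030803e7c692410306081020010204f8c4182081010004082040810002041020408001020000000 = true := by
  decide +kernel

theorem cX5_2 : okB 10000 (tst cB (eL 27 100 26 10) (rP 20 3) kX) 0 0 0 0 40 600 800 8000 9875 625 2500 0 725
    0x102040010200000838701f0104f80827c040007cf803e82040820408042040810004204c08304082042c4c003040418204102040010204081008400081042c34082020c1020010204081020008041030410204041008200080041a58c802c580000643e03040c510f864003f808181f9f017cf80c002f9f007c040868d004c0132604c96006401903f0103265be020e64100065958202001fcf80fe020403efd05f3e82f9f41000608103 = true := by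
  decide +kernel

theorem cX5_3 : okB 10000 (tst cB (eL 27 100 26 10) (rP 20 3) kX) 0 0 0 0 40 800 1000 8000 9875 625 2500 0 725
    0x102040810001040c204081008408100810810080040c184082808408341072c080031a348017408181081068208346800404184204008314afe020608080060c10208102040008184081020400042040200183081020408005102604182060c20d1a43e020440b02020c1810e1020a204c083040c8042040002085810106041800608100081007cf80c104bc0fe0215f0181f9f00820837e31000fe020613203f8080fcf80c10007f3e00f9f3e00060c17dfa0befdfa001fefa03f02040c102 = true := by
  decide +kernel

theorem cX5_4 : okB 10000 (tst cB (eL 27 100 26 10) (rP 20 3) kX) 0 0 0 0 40 1000 1200 8000 9875 625 2500 0 725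
    0x102040810082060c20408101040810002000c1840810200081038004041840834f80067fe02040c1030208204081020002081840810204000020408102000208181060c2040e103801458100060c38a3e0838a00881101a34000f8080830604182040020408006fc01f010307f7efdfa001830413e7c01f0183f9f0182fbf7efd000c18203f7ea6fa00183fc1bf000608102 = true := by
  decide +kernel

end LR

end Pool.Agent.Work.MP_b30479_gt.G2
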