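import Pool.Agent.Work.MP_b30479_gt.G2.LRS
import Pool.Agent.Work.MP_b30479_gt.G2.LRB4
import Pool.Agent.Work.MP_b30479_gt.G2.LRB5
import Pool.Agent.Work.MP_b30479_gt.G2.LRBX

/-!
# Left ramps of the hinges `1 | ring`, ring variable on the ramp
-/

namespace Pool.Agent.Work.MP_b30479_gt.G2

open VOL NumI

namespace LR

variable {m x s ρ : ℝ} {w ζ : ℂ}

/-! ### the shifts and bounds -/

theorem eC_le1 (h : -(625 / 1000) ≤ m) : eC x m ≤ 35 / 100 := by
  unfold eC
  rw [if_pos h]
  exact min_le_left _ _

theorem eC_le2 (h : -(625 / 1000) ≤ m) : eC x m ≤ 1064 / 1000 - 74 / 10 * x := by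
  unfold eC
  rw [if_pos h]
  exact min_le_right _ _

theorem eC_le3 (h : m < -(625 / 1000)) : eC x m ≤ 3 / 10 := by
  unfold eC
  rw [if_neg (not_le.mpr h)]
  exact min_le_left _ _

theorem eC_le4 (h : m < -(625 / 1000)) : eC x m ≤ 84 / 100 - 54 / 10 * x := by
  unfold eC
  rw [if_neg (not_le.mpr h)]
  exact min_le_right _ _

theorem eL_le1 (h : -(625 / 1000) ≤ m) : eL0 x m ≤ 35 / 100 := by
  unfold eL0
  rw [if_pos h]
  exact min_le_left _ _

theorem eL_le5 (h : -(625 / 1000) ≤ m) : eL0 x m ≤ 85 / 100 - 8 * x := by
  unfold eL0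
  rw [if_pos h]
  exact min_le_right _ _

theorem eL_le6 (h : m < -(625 / 1000)) : eL0 x m ≤ 27 / 100 - 26 / 10 * x := by
  unfold eL0
  rw [if_neg (not_le.mpr h)]

/-- small `x` -/
theorem one_small (hw : W x m w) (hz : ZR s ρ ζ) (hm : m ≤ 0) (hm' : -(9875 / 10000) ≤ m)
    (hx : x ≤ 4 / 1000) : 35 / 100 ≤ S4 m w ζ + (Real.pi - 6 * x) * m := by
  have h1 := small_ramp hw hz hm (by linarith only [hm']) hx
  have hp := Real.pi_lt_d4
  have h0 := hw.pos
  have hσ : ζ.re ≤ 0 := by rw [hz.re]; linarith only [hx, h0, hz, hz.hi]
  have hσ' : -(1 / 2) ≤ ζ.re := by rw [hz.re]; linarith only [hx, h0, hz, hz.lo]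
  have hη : 0 ≤ ζ.im := by
    rw [hz.im]
    have := hz.pos
    have := hz.lo
    positivity
  have h2 := YY_hinge_nonpos (x := x) (t := m * x) (σ := ζ.re) (η := ζ.im) h0.le (by linarith only [hx, h0])
    (mul_nonpos_of_nonpos_of_nonneg hm h0.le) hσ hσ' hη (w := w) (ζ := ζ) (by
      apply Complex.ext <;> simp [hw.re, hw.im]) (by apply Complex.ext <;> simp)
  have h3 := mul_nonneg_of_nonpos_of_nonpos hm h2
  have h4 : -(3103 / 1000) ≤ (Real.pi - 6 * x) * m := by
    have h5 : (Real.pi - 6 * x) * m = Real.pi * m - 6 * x * m := by ring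
    have h6 : 0 ≤ -(6 * x * m) := by nlinarith only [hm, h0]
    have h7 : -(3103 / 1000) ≤ Real.pi * m := by nlinarith only [hm', hx, h0, hm, hp]
    linarith only [h6, h7]
  unfold S4
  linarith only [hx, h1, h0, h3, h4]

/-- one box -/
theorem box {eX rS kS : F → F} {e r κ : ℝ → ℝ} (he : Ev eX e) (hr : Ev rS r) (hk : Ev kS κ)
    {l0 h0 l1 h1 l2 h2 h3 c : ℕ}
    (h : okB 10000 (tst cB eX rS kS) 0 0 0 0 40 l0 h0 l1 h1 l2 h2 0 h3 c = true)
    (hw : W x m w) (hz : ZR s ρ ζ) (hx : x < 1 / 4) (hm : m < 0)
    (b0 : (l0 : ℝ) / 10000 ≤ x) (b0' : x ≤ (h0 : ℝ) / 10000)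
    (b1 : (l1 : ℝ) / 10000 ≤ -m) (b1' : -m ≤ (h1 : ℝ) / 10000)
    (b2 : (l2 : ℝ) / 10000 ≤ s) (b2' : s ≤ (h2 : ℝ) / 10000) (b3' : ρ ≤ (h3 : ℝ) / 10000)
    (hF : rF (r s) (κ s) x (-m) s ρ ≤ 0) : e x ≤ S4 m w ζ + (Real.pi - 6 * x) * m := by
  have b3 : ((0 : ℕ) : ℝ) / 10000 ≤ ρ := by
    rw [Nat.cast_zero, zero_div]
    exact hz.pos.le
  have h1 := okB_sound0 (tst_ok ev_cB he hr hk) h b0 b0' b1 b1' b2 b2' b3 b3' (dom hw hz hx hm) hF
  rw [← S4_rD hw hz hx] at h1
  linarith only [h1]

/-! ### the first order conditions -/

theorem FP4s (hw : W x m w) (hz : ZR s ρ ζ) (hx : x < 1 / 4) (hs : s < 12 / 100)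
    (h : FP 4 s ρ w ζ) : rF (((16 : ℕ) : ℝ) * s - ((1 : ℕ) : ℝ)) 0 x (-m) s ρ ≤ 0 := by
  have h1 := FP_small hw hz hx hs h
  have e : (4 : ℝ) * 4 * s - (4 - 3) = ((16 : ℕ) : ℝ) * s - ((1 : ℕ) : ℝ) := by push_cast; ring
  rwa [e] at h1

theorem FP4b (hw : W x m w) (hz : ZR s ρ ζ) (hx : x < 1 / 4) (hs : 12 / 100 ≤ s)
    (h : FP 4 s ρ w ζ) :
    rF (((16 : ℕ) : ℝ) * s - ((93 : ℕ) : ℝ) / 100 - 17 * s ^ 2) 0 x (-m) s ρ ≤ 0 := by
  have h1 := FP_big hw hz hx hs h
  have e : (4 : ℝ) * 4 * s - (100 * 4 - 307) / 100 - 17 * s ^ 2 =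
      ((16 : ℕ) : ℝ) * s - ((93 : ℕ) : ℝ) / 100 - 17 * s ^ 2 := by push_cast; ring
  rwa [e] at h1

theorem FP5s (hw : W x m w) (hz : ZR s ρ ζ) (hx : x < 1 / 4) (hs : s < 12 / 100)
    (h : FP 5 s ρ w ζ) : rF (((20 : ℕ) : ℝ) * s - ((2 : ℕ) : ℝ)) 0 x (-m) s ρ ≤ 0 := by
  have h1 := FP_small hw hz hx hs h
  have e : (4 : ℝ) * 5 * s - (5 - 3) = ((20 : ℕ) : ℝ) * s - ((2 : ℕ) : ℝ) := by push_cast; ring
  rwa [e] at h1

theorem FP5b (hw : W x m w) (hz : ZR s ρ ζ) (hx : x < 1 / 4) (hs : 12 / 100 ≤ s)
    (h : FP 5 s ρ w ζ) :
    rF (((20 : ℕ) : ℝ) * s - ((193 : ℕ) : ℝ) / 100 - 17 * s ^ 2) 0 x (-m) s ρ ≤ 0 := by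
  have h1 := FP_big hw hz hx hs h
  have e : (4 : ℝ) * 5 * s - (100 * 5 - 307) / 100 - 17 * s ^ 2 =
      ((20 : ℕ) : ℝ) * s - ((193 : ℕ) : ℝ) / 100 - 17 * s ^ 2 := by push_cast; ring
  rwa [e] at h1

theorem FX4r (hw : W x m w) (hz : ZR s ρ ζ) (hx : x < 1 / 4)
    (h : FX 4 s ρ w ζ) : rF (((16 : ℕ) : ℝ) * s - ((2 : ℕ) : ℝ)) (45 / 10 * s) x (-m) s ρ ≤ 0 := by
  have h1 := FX_rF hw hz hx h
  have e : (4 : ℝ) * 4 * s - (4 - 2) = ((16 : ℕ) : ℝ) * s - ((2 : ℕ) : ℝ) := by push_cast; ring
  rwa [e] at h1

theorem FX5r (hw : W x m w) (hz : ZR s ρ ζ) (hx : x < 1 / 4)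
    (h : FX 5 s ρ w ζ) : rF (((20 : ℕ) : ℝ) * s - ((3 : ℕ) : ℝ)) (45 / 10 * s) x (-m) s ρ ≤ 0 := by
  have h1 := FX_rF hw hz hx h
  have e : (4 : ℝ) * 5 * s - (5 - 2) = ((20 : ℕ) : ℝ) * s - ((3 : ℕ) : ℝ) := by push_cast; ring
  rwa [e] at h1


theorem one_P4 (hw : W x m w) (hz : ZR s ρ ζ) (hρ : ρ ≤ 1045 / 10000)
    (hm : m ≤ -(2375 / 10000)) (hm' : -(8 / 10) ≤ m) (hx : x ≤ 16 / 100) (hF : FP 4 s ρ w ζ) :
    eC x m ≤ S4 m w ζ + (Real.pi - 6 * x) * m := by
  have hm0 : m < 0 := by linarith only [hm]
  have hmq : -(9875 / 10000) ≤ m := by linarith only [hm', hm0]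
  have hx4 : x < 1 / 4 := by linarith only [hx]
  have hs1 := hz.lo
  have hs2 := hz.hi
  rcases le_total x (4 / 1000) with hx1 | hx1
  · have h5 := one_small hw hz hm0.le hmq hx1
    rcases le_or_gt (-(625 / 1000)) m with hm1 | hm1
    · exact (eC_le1 hm1).trans h5
    · exact (eC_le3 hm1).trans (by linarith only [hm', hm0, h5])
  rcases le_or_gt (-(625 / 1000)) m with hm1 | hm1
  · rcases lt_or_ge s (12 / 100) with hs | hs
    · rcases le_total x (965 / 10000) with hx2 | hx2
      · have h5 := box (ev_eK 35 100) (ev_rP 16 1) ev_k0 cP4_1 hw hz hx4 hm0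
          (by push_cast; linarith only [hx1]) (by push_cast; linarith only [hx2]) (by push_cast; linarith only [hm])
          (by push_cast; linarith only [hm1]) (by push_cast; linarith only [hs1]) (by push_cast; linarith only [hs])
          (by push_cast; linarith only [hρ]) (FP4s hw hz hx4 hs hF)
        push_cast at h5
        exact (eC_le1 hm1).trans (by linarith only [h5])
      · rcases le_total x (12 / 100) with hx2 | hx2
        · have h5 := box (ev_eL (n := 1064) (d := 1000) (n' := 74) (d' := 10) (by norm_num)) (ev_rP 16 1) ev_k0 cP4_3 hw hz hx4 hm0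
            (by push_cast; linarith) (by push_cast; linarith only [hx2]) (by push_cast; linarith only [hm])
            (by push_cast; linarith only [hm1]) (by push_cast; linarith only [hs1]) (by push_cast; linarith only [hs])
            (by push_cast; linarith only [hρ]) (FP4s hw hz hx4 hs hF)
          push_cast at h5
          exact (eC_le2 hm1).trans (by linarith only [h5])
        · have h5 := box (ev_eL (n := 1064) (d := 1000) (n' := 74) (d' := 10) (by norm_num)) (ev_rP 16 1) ev_k0 cP4_5 hw hz hx4 hm0
            (by push_cast; linarith only [hx2]) (by push_cast; linarith only [hx]) (by push_cast; linarith only [hm])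
            (by push_cast; linarith only [hm1]) (by push_cast; linarith only [hs1]) (by push_cast; linarith only [hs])
            (by push_cast; linarith only [hρ]) (FP4s hw hz hx4 hs hF)
          push_cast at h5
          exact (eC_le2 hm1).trans (by linarith only [h5])
    · rcases le_total x (965 / 10000) with hx2 | hx2
      · have h5 := box (ev_eK 35 100) (ev_rQ 16 93) ev_k0 cP4_2 hw hz hx4 hm0
          (by push_cast; linarith only [hx1]) (by push_cast; linarith only [hx2]) (by push_cast; linarith only [hm])
          (by push_cast; linarith only [hm1]) (by push_cast; linarith only [hs]) (by push_cast; linarith only [hs2])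
          (by push_cast; linarith only [hρ]) (FP4b hw hz hx4 hs hF)
        push_cast at h5
        exact (eC_le1 hm1).trans (by linarith only [h5])
      · rcases le_total x (12 / 100) with hx2 | hx2
        · have h5 := box (ev_eL (n := 1064) (d := 1000) (n' := 74) (d' := 10) (by norm_num)) (ev_rQ 16 93) ev_k0 cP4_4 hw hz hx4 hm0
            (by push_cast; linarith) (by push_cast; linarith only [hx2]) (by push_cast; linarith only [hm])
            (by push_cast; linarith only [hm1]) (by push_cast; linarith only [hs]) (by push_cast; linarith only [hs2])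
            (by push_cast; linarith only [hρ]) (FP4b hw hz hx4 hs hF)
          push_cast at h5
          exact (eC_le2 hm1).trans (by linarith only [h5])
        · rcases le_total x (14 / 100) with hx2 | hx2
          · have h5 := box (ev_eL (n := 1064) (d := 1000) (n' := 74) (d' := 10) (by norm_num)) (ev_rQ 16 93) ev_k0 cP4_6 hw hz hx4 hm0
              (by push_cast; linarith) (by push_cast; linarith only [hx2]) (by push_cast; linarith only [hm])
              (by push_cast; linarith only [hm1]) (by push_cast; linarith only [hs]) (by push_cast; linarith only [hs2])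
              (by push_cast; linarith only [hρ]) (FP4b hw hz hx4 hs hF)
            push_cast at h5
            exact (eC_le2 hm1).trans (by linarith only [h5])
          · have h5 := box (ev_eL (n := 1064) (d := 1000) (n' := 74) (d' := 10) (by norm_num)) (ev_rQ 16 93) ev_k0 cP4_7 hw hz hx4 hm0
              (by push_cast; linarith only [hx2]) (by push_cast; linarith only [hx]) (by push_cast; linarith only [hm])
              (by push_cast; linarith only [hm1]) (by push_cast; linarith only [hs]) (by push_cast; linarith only [hs2])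
              (by push_cast; linarith only [hρ]) (FP4b hw hz hx4 hs hF)
            push_cast at h5
            exact (eC_le2 hm1).trans (by linarith only [h5])
  · rcases lt_or_ge s (12 / 100) with hs | hs
    · rcases le_total x (1 / 10) with hx2 | hx2
      · have h5 := box (ev_eK 3 10) (ev_rP 16 1) ev_k0 cP4_8 hw hz hx4 hm0
          (by push_cast; linarith only [hx1]) (by push_cast; linarith only [hx2]) (by push_cast; linarith only [hm1])
          (by push_cast; linarith only [hm']) (by push_cast; linarith only [hs1]) (by push_cast; linarith only [hs])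
          (by push_cast; linarith only [hρ]) (FP4s hw hz hx4 hs hF)
        push_cast at h5
        exact (eC_le3 hm1).trans (by linarith only [h5])
      · have h5 := box (ev_eL (n := 84) (d := 100) (n' := 54) (d' := 10) (by norm_num)) (ev_rP 16 1) ev_k0 cP4_10 hw hz hx4 hm0
          (by push_cast; linarith only [hx2]) (by push_cast; linarith only [hx]) (by push_cast; linarith only [hm1])
          (by push_cast; linarith only [hm']) (by push_cast; linarith only [hs1]) (by push_cast; linarith only [hs])
          (by push_cast; linarith only [hρ]) (FP4s hw hz hx4 hs hF)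
        push_cast at h5
        exact (eC_le4 hm1).trans (by linarith only [h5])
    · rcases le_total x (1 / 10) with hx2 | hx2
      · have h5 := box (ev_eK 3 10) (ev_rQ 16 93) ev_k0 cP4_9 hw hz hx4 hm0
          (by push_cast; linarith only [hx1]) (by push_cast; linarith only [hx2]) (by push_cast; linarith only [hm1])
          (by push_cast; linarith only [hm']) (by push_cast; linarith only [hs]) (by push_cast; linarith only [hs2])
          (by push_cast; linarith only [hρ]) (FP4b hw hz hx4 hs hF)
        push_cast at h5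
        exact (eC_le3 hm1).trans (by linarith only [h5])
      · have h5 := box (ev_eL (n := 84) (d := 100) (n' := 54) (d' := 10) (by norm_num)) (ev_rQ 16 93) ev_k0 cP4_11 hw hz hx4 hm0
          (by push_cast; linarith only [hx2]) (by push_cast; linarith only [hx]) (by push_cast; linarith only [hm1])
          (by push_cast; linarith only [hm']) (by push_cast; linarith only [hs]) (by push_cast; linarith only [hs2])
          (by push_cast; linarith only [hρ]) (FP4b hw hz hx4 hs hF)
        push_cast at h5
        exact (eC_le4 hm1).trans (by linarith only [h5])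

theorem one_P5 (hw : W x m w) (hz : ZR s ρ ζ) (hρ : ρ ≤ 725 / 10000)
    (hm : m ≤ -(2375 / 10000)) (hm' : -(9875 / 10000) ≤ m) (hx : x ≤ 16 / 100) (hF : FP 5 s ρ w ζ) :
    eC x m ≤ S4 m w ζ + (Real.pi - 6 * x) * m := by
  have hm0 : m < 0 := by linarith only [hm]
  have hmq : -(9875 / 10000) ≤ m := by linarith only [hm']
  have hx4 : x < 1 / 4 := by linarith only [hx]
  have hs1 := hz.lo
  have hs2 := hz.hi
  rcases le_or_gt (-(8 / 10)) m with hm8 | hm8
  · exact one_P4 hw hz (by linarith only [hρ]) hm hm8 hx (FP_mono hz (by norm_num) hF)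
  have hm1 : m < -(625 / 1000) := by linarith only [hm8]
  rcases le_total x (4 / 1000) with hx1 | hx1
  · have h5 := one_small hw hz hm0.le hmq hx1
    exact (eC_le3 hm1).trans (by linarith only [hm', hm8, h5])
  rcases lt_or_ge s (12 / 100) with hs | hs
  · rcases le_total x (1 / 10) with hx2 | hx2
    · have h5 := box (ev_eK 3 10) (ev_rP 20 2) ev_k0 cP5_1 hw hz hx4 hm0
        (by push_cast; linarith only [hx1]) (by push_cast; linarith only [hx2]) (by push_cast; linarith only [hm8])
        (by push_cast; linarith only [hm']) (by push_cast; linarith only [hs1]) (by push_cast; linarith only [hs])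
        (by push_cast; linarith only [hρ]) (FP5s hw hz hx4 hs hF)
      push_cast at h5
      exact (eC_le3 hm1).trans (by linarith only [h5])
    · have h5 := box (ev_eL (n := 84) (d := 100) (n' := 54) (d' := 10) (by norm_num)) (ev_rP 20 2) ev_k0 cP5_3 hw hz hx4 hm0
        (by push_cast; linarith only [hx2]) (by push_cast; linarith only [hx]) (by push_cast; linarith only [hm8])
        (by push_cast; linarith only [hm']) (by push_cast; linarith only [hs1]) (by push_cast; linarith only [hs])
        (by push_cast; linarith only [hρ]) (FP5s hw hz hx4 hs hF)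
      push_cast at h5
      exact (eC_le4 hm1).trans (by linarith only [h5])
  · rcases le_total x (1 / 10) with hx2 | hx2
    · have h5 := box (ev_eK 3 10) (ev_rQ 20 193) ev_k0 cP5_2 hw hz hx4 hm0
        (by push_cast; linarith only [hx1]) (by push_cast; linarith only [hx2]) (by push_cast; linarith only [hm8])
        (by push_cast; linarith only [hm']) (by push_cast; linarith only [hs]) (by push_cast; linarith only [hs2])
        (by push_cast; linarith only [hρ]) (FP5b hw hz hx4 hs hF)
      push_cast at h5
      exact (eC_le3 hm1).trans (by linarith only [h5])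
    · have h5 := box (ev_eL (n := 84) (d := 100) (n' := 54) (d' := 10) (by norm_num)) (ev_rQ 20 193) ev_k0 cP5_4 hw hz hx4 hm0
        (by push_cast; linarith only [hx2]) (by push_cast; linarith only [hx]) (by push_cast; linarith only [hm8])
        (by push_cast; linarith only [hm']) (by push_cast; linarith only [hs]) (by push_cast; linarith only [hs2])
        (by push_cast; linarith only [hρ]) (FP5b hw hz hx4 hs hF)
      push_cast at h5
      exact (eC_le4 hm1).trans (by linarith only [h5])

theorem one_X4 (hw : W x m w) (hz : ZR s ρ ζ) (hρ : ρ ≤ 1045 / 10000)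
    (hm : m ≤ -(2375 / 10000)) (hm' : -(8 / 10) ≤ m) (hx : x ≤ 12 / 100) (hF : FX 4 s ρ w ζ) :
    eL0 x m ≤ S4 m w ζ + (Real.pi - 6 * x) * m := by
  have hm0 : m < 0 := by linarith only [hm]
  have hmq : -(9875 / 10000) ≤ m := by linarith only [hm', hm0]
  have hx4 : x < 1 / 4 := by linarith only [hx]
  have hs1 := hz.lo
  have hs2 := hz.hi
  rcases le_total x (4 / 1000) with hx1 | hx1
  · have h5 := one_small hw hz hm0.le hmq hx1
    rcases le_or_gt (-(625 / 1000)) m with hm1 | hm1
    · exact (eL_le1 hm1).trans h5
    · have := hw.pos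
      exact (eL_le6 hm1).trans (by linarith only [hx1, h5, this])
  rcases le_or_gt (-(625 / 1000)) m with hm1 | hm1
  · rcases le_total x (4 / 100) with hx2 | hx2
    · have h5 := box (ev_eK 35 100) (ev_rP 16 2) ev_kX cX4_1 hw hz hx4 hm0
        (by push_cast; linarith only [hx1]) (by push_cast; linarith only [hx2]) (by push_cast; linarith only [hm])
        (by push_cast; linarith only [hm1]) (by push_cast; linarith only [hs1]) (by push_cast; linarith only [hs2])
        (by push_cast; linarith only [hρ]) (FX4r hw hz hx4 hF)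
      push_cast at h5
      exact (eL_le1 hm1).trans (by linarith only [h5])
    · rcases le_total x (625 / 10000) with hx2 | hx2
      · have h5 := box (ev_eK 35 100) (ev_rP 16 2) ev_kX cX4_2 hw hz hx4 hm0
          (by push_cast; linarith) (by push_cast; linarith only [hx2]) (by push_cast; linarith only [hm])
          (by push_cast; linarith only [hm1]) (by push_cast; linarith only [hs1]) (by push_cast; linarith only [hs2])
          (by push_cast; linarith only [hρ]) (FX4r hw hz hx4 hF)
        push_cast at h5
        exact (eL_le1 hm1).trans (by linarith only [h5])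
      · rcases le_total x (8 / 100) with hx2 | hx2
        · have h5 := box (ev_eL (n := 85) (d := 100) (n' := 8) (d' := 1) (by norm_num)) (ev_rP 16 2) ev_kX cX4_3 hw hz hx4 hm0
            (by push_cast; linarith) (by push_cast; linarith only [hx2]) (by push_cast; linarith only [hm])
            (by push_cast; linarith only [hm1]) (by push_cast; linarith only [hs1]) (by push_cast; linarith only [hs2])
            (by push_cast; linarith only [hρ]) (FX4r hw hz hx4 hF)
          push_cast at h5
          exact (eL_le5 hm1).trans (by linarith only [h5])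
        · rcases le_total x (1 / 10) with hx2 | hx2
          · have h5 := box (ev_eL (n := 85) (d := 100) (n' := 8) (d' := 1) (by norm_num)) (ev_rP 16 2) ev_kX cX4_4 hw hz hx4 hm0
              (by push_cast; linarith) (by push_cast; linarith only [hx2]) (by push_cast; linarith only [hm])
              (by push_cast; linarith only [hm1]) (by push_cast; linarith only [hs1]) (by push_cast; linarith only [hs2])
              (by push_cast; linarith only [hρ]) (FX4r hw hz hx4 hF)
            push_cast at h5
            exact (eL_le5 hm1).trans (by linarith only [h5])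
          · have h5 := box (ev_eL (n := 85) (d := 100) (n' := 8) (d' := 1) (by norm_num)) (ev_rP 16 2) ev_kX cX4_5 hw hz hx4 hm0
              (by push_cast; linarith only [hx2]) (by push_cast; linarith only [hx]) (by push_cast; linarith only [hm])
              (by push_cast; linarith only [hm1]) (by push_cast; linarith only [hs1]) (by push_cast; linarith only [hs2])
              (by push_cast; linarith only [hρ]) (FX4r hw hz hx4 hF)
            push_cast at h5
            exact (eL_le5 hm1).trans (by linarith only [h5])
  · rcases le_total x (7 / 100) with hx2 | hx2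
    · have h5 := box (ev_eL (n := 27) (d := 100) (n' := 26) (d' := 10) (by norm_num)) (ev_rP 16 2) ev_kX cX4_6 hw hz hx4 hm0
        (by push_cast; linarith only [hx1]) (by push_cast; linarith only [hx2]) (by push_cast; linarith only [hm1])
        (by push_cast; linarith only [hm']) (by push_cast; linarith only [hs1]) (by push_cast; linarith only [hs2])
        (by push_cast; linarith only [hρ]) (FX4r hw hz hx4 hF)
      push_cast at h5
      exact (eL_le6 hm1).trans (by linarith only [h5])
    · rcases le_total x (1 / 10) with hx2 | hx2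
      · have h5 := box (ev_eL (n := 27) (d := 100) (n' := 26) (d' := 10) (by norm_num)) (ev_rP 16 2) ev_kX cX4_7 hw hz hx4 hm0
          (by push_cast; linarith) (by push_cast; linarith only [hx2]) (by push_cast; linarith only [hm1])
          (by push_cast; linarith only [hm']) (by push_cast; linarith only [hs1]) (by push_cast; linarith only [hs2])
          (by push_cast; linarith only [hρ]) (FX4r hw hz hx4 hF)
        push_cast at h5
        exact (eL_le6 hm1).trans (by linarith only [h5])
      · have h5 := box (ev_eL (n := 27) (d := 100) (n' := 26) (d' := 10) (by norm_num)) (ev_rP 16 2) ev_kX cX4_8 hw hz hx4 hm0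
          (by push_cast; linarith only [hx2]) (by push_cast; linarith only [hx]) (by push_cast; linarith only [hm1])
          (by push_cast; linarith only [hm']) (by push_cast; linarith only [hs1]) (by push_cast; linarith only [hs2])
          (by push_cast; linarith only [hρ]) (FX4r hw hz hx4 hF)
        push_cast at h5
        exact (eL_le6 hm1).trans (by linarith only [h5])

theorem one_X5 (hw : W x m w) (hz : ZR s ρ ζ) (hρ : ρ ≤ 725 / 10000)
    (hm : m ≤ -(2375 / 10000)) (hm' : -(9875 / 10000) ≤ m) (hx : x ≤ 12 / 100) (hF : FX 5 s ρ w ζ) :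
    eL0 x m ≤ S4 m w ζ + (Real.pi - 6 * x) * m := by
  have hm0 : m < 0 := by linarith only [hm]
  have hmq : -(9875 / 10000) ≤ m := by linarith only [hm']
  have hx4 : x < 1 / 4 := by linarith only [hx]
  have hs1 := hz.lo
  have hs2 := hz.hi
  rcases le_or_gt (-(8 / 10)) m with hm8 | hm8
  · exact one_X4 hw hz (by linarith only [hρ]) hm hm8 hx (FX_mono hz (by norm_num) hF)
  have hm1 : m < -(625 / 1000) := by linarith only [hm8]
  rcases le_total x (4 / 1000) with hx1 | hx1
  · have h5 := one_small hw hz hm0.le hmq hx1
    have := hw.pos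
    exact (eL_le6 hm1).trans (by linarith only [hx1, h5, this])
  rcases le_total x (6 / 100) with hx2 | hx2
  · have h5 := box (ev_eL (n := 27) (d := 100) (n' := 26) (d' := 10) (by norm_num)) (ev_rP 20 3) ev_kX cX5_1 hw hz hx4 hm0
      (by push_cast; linarith only [hx1]) (by push_cast; linarith only [hx2]) (by push_cast; linarith only [hm8])
      (by push_cast; linarith only [hm']) (by push_cast; linarith only [hs1]) (by push_cast; linarith only [hs2])
      (by push_cast; linarith only [hρ]) (FX5r hw hz hx4 hF)
    push_cast at h5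
    exact (eL_le6 hm1).trans (by linarith only [h5])
  · rcases le_total x (8 / 100) with hx2 | hx2
    · have h5 := box (ev_eL (n := 27) (d := 100) (n' := 26) (d' := 10) (by norm_num)) (ev_rP 20 3) ev_kX cX5_2 hw hz hx4 hm0
        (by push_cast; linarith) (by push_cast; linarith only [hx2]) (by push_cast; linarith only [hm8])
        (by push_cast; linarith only [hm']) (by push_cast; linarith only [hs1]) (by push_cast; linarith only [hs2])
        (by push_cast; linarith only [hρ]) (FX5r hw hz hx4 hF)
      push_cast at h5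
      exact (eL_le6 hm1).trans (by linarith only [h5])
    · rcases le_total x (1 / 10) with hx2 | hx2
      · have h5 := box (ev_eL (n := 27) (d := 100) (n' := 26) (d' := 10) (by norm_num)) (ev_rP 20 3) ev_kX cX5_3 hw hz hx4 hm0
          (by push_cast; linarith) (by push_cast; linarith only [hx2]) (by push_cast; linarith only [hm8])
          (by push_cast; linarith only [hm']) (by push_cast; linarith only [hs1]) (by push_cast; linarith only [hs2])
          (by push_cast; linarith only [hρ]) (FX5r hw hz hx4 hF)
        push_cast at h5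
        exact (eL_le6 hm1).trans (by linarith only [h5])
      · have h5 := box (ev_eL (n := 27) (d := 100) (n' := 26) (d' := 10) (by norm_num)) (ev_rP 20 3) ev_kX cX5_4 hw hz hx4 hm0
          (by push_cast; linarith only [hx2]) (by push_cast; linarith only [hx]) (by push_cast; linarith only [hm8])
          (by push_cast; linarith only [hm']) (by push_cast; linarith only [hs1]) (by push_cast; linarith only [hs2])
          (by push_cast; linarith only [hρ]) (FX5r hw hz hx4 hF)
        push_cast at h5
        exact (eL_le6 hm1).trans (by linarith only [h5])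

end LR

end Pool.Agent.Work.MP_b30479_gt.G2
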