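import Pool.Agent.Work.MP_b30479_gt.G2.LRK
import Pool.Agent.Work.MP_b30479_gt.G2.LR0

/-!
# Left ramps of the hinges of a ring: the functions of the rows, link with `S4` and `Dm`
-/

namespace Pool.Agent.Work.MP_b30479_gt.G2

open VOL NumI

namespace LR

/-! ### coefficient functions -/

/-- `π - 6 x` -/
def cB (X : F) : F := F.pi.sub (F.mulq 6 1 X)
/-- `π / 2` -/
def cA (_ : F) : F := F.mulq 1 2 F.pi
/-- a constant -/
def eK (n d : ℕ) (_ : F) : F := F.rat n d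
/-- `n / d - n' / d' x` -/
def eL (n d n' d' : ℕ) (X : F) : F := (F.rat n d).sub (F.mulq n' d' X)
/-- `3 - b (1 - 4 s)`, `b = 4, 5`; argument `4 b`, `b - 3` -/
def rP (b4 b3 : ℕ) (S : F) : F := (F.mulq b4 1 S).sub (F.rat b3 1)
/-- `307/100 - 17 s^2 - b (1 - 4 s)`; arguments `4 b`, `100 b - 307` -/
def rQ (b4 b3 : ℕ) (S : F) : F := ((F.mulq b4 1 S).sub (F.rat b3 100)).sub (F.mulq 17 1 S.sqn)
/-- `9/2 s` -/
def kX (S : F) : F := F.mulq 45 10 S

lemma mulq1 {n : ℕ} {a : F} {ε : ℕ → ℝ} {x : ℝ} (hε : ∀ i, |ε i| ≤ 1) (h : a.Encl ε x) :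
    (F.mulq n 1 a).Encl ε (n * x) := by
  have := F.Encl.mulq (n := n) (d := 1) (by norm_num) hε h
  push_cast at this
  rwa [div_one] at this

lemma rat1 (n : ℕ) (ε : ℕ → ℝ) : (F.rat n 1).Encl ε (n : ℝ) := by
  have := F.Encl.rat n 1 ε
  push_cast at this
  rwa [div_one] at this

lemma ev_cB : Ev cB (fun x => Real.pi - 6 * x) := by
  intro X ε x hε hX
  have := F.Encl.sub (F.Encl.pi ε) (mulq1 (n := 6) hε hX)
  push_cast at this
  exact this

lemma ev_cA : Ev cA (fun _ => Real.pi / 2) := by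
  intro X ε x hε hX
  have := F.Encl.mulq (n := 1) (d := 2) (by norm_num) hε (F.Encl.pi ε)
  push_cast at this
  have e : (1 : ℝ) / 2 * Real.pi = Real.pi / 2 := by ring
  rw [e] at this
  exact this

lemma ev_eK (n d : ℕ) : Ev (eK n d) (fun _ => (n : ℝ) / d) := by
  intro X ε x hε hX
  exact F.Encl.rat n d ε

lemma ev_eL {n d n' d' : ℕ} (hd : 0 < d') :
    Ev (eL n d n' d') (fun x => (n : ℝ) / d - (n' : ℝ) / d' * x) := by
  intro X ε x hε hX
  exact F.Encl.sub (F.Encl.rat n d ε) (F.Encl.mulq hd hε hX)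

lemma ev_rP (b4 b3 : ℕ) : Ev (rP b4 b3) (fun s => (b4 : ℝ) * s - b3) := by
  intro X ε x hε hX
  exact F.Encl.sub (mulq1 hε hX) (rat1 _ ε)

lemma ev_rQ (b4 b3 : ℕ) : Ev (rQ b4 b3) (fun s => (b4 : ℝ) * s - b3 / 100 - 17 * s ^ 2) := by
  intro X ε x hε hX
  have := F.Encl.sub (F.Encl.sub (mulq1 (n := b4) hε hX) (F.Encl.rat b3 100 ε))
    (mulq1 (n := 17) hε (F.Encl.sqn hε hX))
  push_cast at this
  exact this

lemma ev_kX : Ev kX (fun s => 45 / 10 * s) := by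
  intro X ε x hε hX
  have := F.Encl.mulq (n := 45) (d := 10) (by norm_num) hε hX
  push_cast at this
  exact this

lemma ev_k0 : Ev (eK 0 1) (fun _ => 0) := by
  intro X ε x hε hX
  have := F.Encl.rat 0 1 ε
  push_cast at this
  rw [zero_div] at this
  exact this

/-! ### link -/

variable {m x s ρ : ℝ} {w ζ : ℂ}

theorem u_eq (hw : W x m w) (hz : ZR s ρ ζ) : w + 1 / 2 + ζ = ⟨x + s, 4 * ρ * s - -m * x⟩ := by
  apply Complex.ext
  · have h : ((1 : ℂ) / 2).re = 1 / 2 := by norm_num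
    simp only [Complex.add_re, h, hw.re, hz.re]
    ring
  · have h : ((1 : ℂ) / 2).im = 0 := by norm_num
    simp only [Complex.add_im, h, hw.im, hz.im]
    ring

theorem v_eq (hw : W x m w) (hz : ZR s ρ ζ) : w + 1 / 2 - ζ = vC x (-m) s ρ := by
  apply Complex.ext
  · have h : ((1 : ℂ) / 2).re = 1 / 2 := by norm_num
    simp only [Complex.sub_re, Complex.add_re, h, hw.re, hz.re, vC]
    ring
  · have h : ((1 : ℂ) / 2).im = 0 := by norm_num
    simp only [Complex.sub_im, Complex.add_im, h, hw.im, hz.im, vC]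
    ring

theorem w_eq (hw : W x m w) : w = ⟨x, -(-m * x)⟩ := by
  apply Complex.ext
  · exact hw.re
  · simp only [hw.im]; ring

theorem S4_rD (hw : W x m w) (hz : ZR s ρ ζ) (hx : x < 1 / 4) (c e : ℝ) :
    S4 m w ζ + c * m - e = rD c e x (-m) s ρ := by
  have h1 := hw.pos
  have h2 := hz.lo
  have h3 := hz.hi
  have hw' : w ∈ strip := ⟨by rw [hw.re]; linarith only [h1], by rw [hw.re]; linarith only [hx, h1]⟩
  unfold S4 rD
  rw [u_eq hw hz, v_eq hw hz, LL_lnA' ⟨x + s, _⟩,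
    Num.YY_lnB (u := ⟨x + s, 4 * ρ * s - -m * x⟩) ⟨by simp only; linarith only [hx, h1, h2], by simp only; linarith only [hx, h1, h3]⟩,
    LL_lnA' w, Num.YY_lnB hw', hw.re, hw.im]
  have e1 : lnA x (m * x) = lnA x (-m * x) := by
    rw [neg_mul, lnA_neg]
  have e2 : lnB x (m * x) = -lnB x (-m * x) := by
    rw [neg_mul, lnB_neg, neg_neg]
  rw [e1, e2]
  unfold vA vB
  ring

theorem Dm_rF (hw : W x m w) (hz : ZR s ρ ζ) (hx : x < 1 / 4) (r κ : ℝ) :
    Dm (4 * ρ) w ζ - 4 * ρ * (Real.pi * r) - κ = rF r κ x (-m) s ρ := by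
  have h1 := hw.pos
  have h2 := hz.lo
  have h3 := hz.hi
  unfold Dm Dq rF
  rw [u_eq hw hz, v_eq hw hz, LL_lnA' ⟨x + s, _⟩,
    Num.YY_lnB (u := ⟨x + s, 4 * ρ * s - -m * x⟩) ⟨by simp only; linarith only [hx, h1, h2], by simp only; linarith only [hx, h1, h3]⟩]
  unfold vA vB
  ring

theorem dom (hw : W x m w) (hz : ZR s ρ ζ) (hx : x < 1 / 4) (hm : m < 0) : Dom x (-m) s ρ :=
  ⟨hw.pos, hx, by linarith only [hz, hz.lo], hz.hi, hz.pos.le, by linarith only [hm]⟩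

theorem FP_small {b : ℝ} (hw : W x m w) (hz : ZR s ρ ζ) (hx : x < 1 / 4) (hs : s < 12 / 100)
    (h : FP b s ρ w ζ) : rF (4 * b * s - (b - 3)) 0 x (-m) s ρ ≤ 0 := by
  rw [← Dm_rF hw hz hx]
  unfold FP gE at h
  rw [if_pos hs] at h
  linarith only [h]

theorem FP_big {b : ℝ} (hw : W x m w) (hz : ZR s ρ ζ) (hx : x < 1 / 4) (hs : 12 / 100 ≤ s)
    (h : FP b s ρ w ζ) : rF (4 * b * s - (100 * b - 307) / 100 - 17 * s ^ 2) 0 x (-m) s ρ ≤ 0 := by
  rw [← Dm_rF hw hz hx]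
  unfold FP gE at h
  rw [if_neg (not_lt.mpr hs)] at h
  linarith only [h]

theorem FX_rF {b : ℝ} (hw : W x m w) (hz : ZR s ρ ζ) (hx : x < 1 / 4)
    (h : FX b s ρ w ζ) : rF (4 * b * s - (b - 2)) (45 / 10 * s) x (-m) s ρ ≤ 0 := by
  rw [← Dm_rF hw hz hx]
  unfold FX at h
  linarith only [h]

/-- a larger digit gives a stronger condition -/
theorem FP_mono {b b' : ℝ} (hz : ZR s ρ ζ) (hb : b ≤ b') (h : FP b' s ρ w ζ) : FP b s ρ w ζ := by
  unfold FP at h ⊢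
  have h1 := hz.hi
  have h2 := hz.pos
  have h3 := Real.pi_pos
  have h4 : 0 ≤ 4 * Real.pi * ρ * ((b' - b) * (1 - 4 * s)) :=
    mul_nonneg (by positivity) (mul_nonneg (by linarith only [hb]) (by linarith only [h1]))
  linarith only [h, h4]

theorem FX_mono {b b' : ℝ} (hz : ZR s ρ ζ) (hb : b ≤ b') (h : FX b' s ρ w ζ) : FX b s ρ w ζ := by
  unfold FX at h ⊢
  have h1 := hz.hi
  have h2 := hz.pos
  have h3 := Real.pi_pos
  have h4 : 0 ≤ 4 * Real.pi * ρ * ((b' - b) * (1 - 4 * s)) :=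
    mul_nonneg (by positivity) (mul_nonneg (by linarith only [hb]) (by linarith only [h1]))
  linarith only [h, h4]

end LR

end Pool.Agent.Work.MP_b30479_gt.G2
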