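import Pool.Agent.Work.MP_b30479_gt.G2.LRB

/-!
# Left ramps of the hinges `1 | ring`, ring variable on the ramp, `145/1000 ≤ x ≤ 16/100`
-/

namespace Pool.Agent.Work.MP_b30479_gt.G2

open VOL NumI

namespace LR

/-- a negative constant -/
def eN (n d : ℕ) (_ : F) : F := (F.rat n d).neg

lemma ev_eN (n d : ℕ) : Ev (eN n d) (fun _ => -((n : ℝ) / d)) := by
  intro X ε x hε hX
  have h := F.Encl.rat n d ε
  unfold F.Encl at *
  unfold eN
  rw [F.toA_neg]
  exact A.Encl.neg h

theorem cq4_1 : okB 10000 (tst cB (eN 2 100) (rP 16 1) (eK 0 1)) 0 0 0 0 40 1450 1600 2375 5000 625 1200 0 1045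
    0x57f03fdf8181fdf8182fdf8182 = true := by
  decide +kernel

theorem cq4_2 : okB 10000 (tst cB (eN 2 100) (rQ 16 93) (eK 0 1)) 0 0 0 0 40 1450 1600 2375 5000 1200 2500 0 1045
    0x10204040468d003498303f0183081008d260fe030600204140850d0410502000418d2007e0339f01fc060be03060820a1a340010614883102fe830604105fa0c78211f41fe040417cf803e82fa0befd020c18208102041a0c084000818d260c680f80c6901a000fc063480301f0182061050d0410690040c08d0840181003468d02040032664093200007c07f0183082880d000c1842040183083480321f01820604084203400d200c08301f3e01f80fe030608104080068a0064183081c68114001932008800f80c1810e4008822048000444a110004117fbf4001fa0c1822853e8203f817dfa04182f9f417d05f7e8107f7e81fbf4181060c101 = true := by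
  decide +kernel

theorem cq4_3 : okB 10000 (tst cB (eK 10 100) (rP 16 1) (eK 0 1)) 0 0 0 0 40 1450 1600 5000 8000 625 1200 0 1045
    0xcfc0cafe06c0101fdf8182 = true := by
  decide +kernel

theorem cq4_4 : okB 10000 (tst cB (eK 10 100) (rQ 16 93) (eK 0 1)) 0 0 0 0 40 1450 1600 5000 8000 1200 2500 0 1045
    0x102000e285000243e02f80c183081018d1a34101f80c1820a1028500081851c043020428882fa0be7d05f4103fa0c1820810204000418d1a346820207e03143450003f01801a34690060408d143418101f0182061020400102070410382000c0831a3400a1a04680380c0fc06288100007e03f80c103041020d1a000830a142800614414060c0821bf00fd05f41fd060c288002410b2807f0207f7e830608101 = true := by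
  decide +kernel

theorem cq5_1 : okB 10000 (tst cB (eK 28 100) (rP 20 2) (eK 0 1)) 0 0 0 0 40 1450 1600 8000 9875 625 1200 0 725
    0x1fbf03 = true := by
  decide +kernel

theorem cq5_2 : okB 10000 (tst cB (eK 28 100) (rQ 20 193) (eK 0 1)) 0 0 0 0 40 1450 1600 8000 9875 1200 2500 0 725
    0x1020408001811410500021c5001a0868d003410d1a0068200040fc060c2040810201000c08d1a40001560be03060820d03f01852807e830477e83fc08102 = true := by
  decide +kernel

variable {m x s ρ : ℝ} {w ζ : ℂ}

/-- lower bounds on `[145/1000, 16/100]`, other hinge `≤ 1/2` -/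
noncomputable def eP3 (m : ℝ) : ℝ :=
  if -(1 / 2) ≤ m then -(2 / 100) else if -(8 / 10) ≤ m then 10 / 100 else 28 / 100

theorem one_P4' (hw : W x m w) (hz : ZR s ρ ζ) (hρ : ρ ≤ 1045 / 10000)
    (hm : m ≤ -(2375 / 10000)) (hm' : -(8 / 10) ≤ m) (hx0 : 145 / 1000 ≤ x) (hx : x ≤ 16 / 100)
    (hF : FP 4 s ρ w ζ) : eP3 m ≤ S4 m w ζ + (Real.pi - 6 * x) * m := by
  have hm0 : m < 0 := by linarith only [hm]
  have hx4 : x < 1 / 4 := by linarith only [hm', hx, hm0]
  have hs1 := hz.lo
  have hs2 := hz.hi
  unfold eP3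
  rcases le_or_gt (-(1 / 2)) m with hm1 | hm1
  · rw [if_pos hm1]
    rcases lt_or_ge s (12 / 100) with hs | hs
    · have h5 := box (ev_eN 2 100) (ev_rP 16 1) ev_k0 cq4_1 hw hz hx4 hm0
        (by push_cast; linarith only [hx0]) (by push_cast; linarith only [hx]) (by push_cast; linarith only [hm])
        (by push_cast; linarith only [hm1]) (by push_cast; linarith only [hs1]) (by push_cast; linarith only [hs])
        (by push_cast; linarith only [hρ]) (FP4s hw hz hx4 hs hF)
      push_cast at h5
      linarith only [h5]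
    · have h5 := box (ev_eN 2 100) (ev_rQ 16 93) ev_k0 cq4_2 hw hz hx4 hm0
        (by push_cast; linarith only [hx0]) (by push_cast; linarith only [hx]) (by push_cast; linarith only [hm])
        (by push_cast; linarith only [hm1]) (by push_cast; linarith only [hs]) (by push_cast; linarith only [hs2])
        (by push_cast; linarith only [hρ]) (FP4b hw hz hx4 hs hF)
      push_cast at h5
      linarith only [h5]
  · rw [if_neg (not_le.mpr hm1), if_pos hm']
    rcases lt_or_ge s (12 / 100) with hs | hs
    · have h5 := box (ev_eK 10 100) (ev_rP 16 1) ev_k0 cq4_3 hw hz hx4 hm0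
        (by push_cast; linarith only [hx0]) (by push_cast; linarith only [hx]) (by push_cast; linarith only [hm1])
        (by push_cast; linarith only [hm']) (by push_cast; linarith only [hs1]) (by push_cast; linarith only [hs])
        (by push_cast; linarith only [hρ]) (FP4s hw hz hx4 hs hF)
      push_cast at h5
      linarith only [h5]
    · have h5 := box (ev_eK 10 100) (ev_rQ 16 93) ev_k0 cq4_4 hw hz hx4 hm0
        (by push_cast; linarith only [hx0]) (by push_cast; linarith only [hx]) (by push_cast; linarith only [hm1])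
        (by push_cast; linarith only [hm']) (by push_cast; linarith only [hs]) (by push_cast; linarith only [hs2])
        (by push_cast; linarith only [hρ]) (FP4b hw hz hx4 hs hF)
      push_cast at h5
      linarith only [h5]

theorem one_P5' (hw : W x m w) (hz : ZR s ρ ζ) (hρ : ρ ≤ 725 / 10000)
    (hm : m ≤ -(2375 / 10000)) (hm' : -(9875 / 10000) ≤ m) (hx0 : 145 / 1000 ≤ x)
    (hx : x ≤ 16 / 100) (hF : FP 5 s ρ w ζ) : eP3 m ≤ S4 m w ζ + (Real.pi - 6 * x) * m := by
  rcases le_or_gt (-(8 / 10)) m with hm8 | hm8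
  · exact one_P4' hw hz (by linarith only [hρ]) hm hm8 hx0 hx (FP_mono hz (by norm_num) hF)
  have hm0 : m < 0 := by linarith only [hm', hm8]
  have hx4 : x < 1 / 4 := by linarith only [hm', hx, hm8]
  have hs1 := hz.lo
  have hs2 := hz.hi
  unfold eP3
  rw [if_neg (by linarith only [hx0, hm8, hx4]), if_neg (not_le.mpr hm8)]
  rcases lt_or_ge s (12 / 100) with hs | hs
  · have h5 := box (ev_eK 28 100) (ev_rP 20 2) ev_k0 cq5_1 hw hz hx4 hm0
      (by push_cast; linarith only [hx0]) (by push_cast; linarith only [hx]) (by push_cast; linarith only [hm8])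
      (by push_cast; linarith only [hm']) (by push_cast; linarith only [hs1]) (by push_cast; linarith only [hs])
      (by push_cast; linarith only [hρ]) (FP5s hw hz hx4 hs hF)
    push_cast at h5
    linarith only [h5]
  · have h5 := box (ev_eK 28 100) (ev_rQ 20 193) ev_k0 cq5_2 hw hz hx4 hm0
      (by push_cast; linarith only [hx0]) (by push_cast; linarith only [hx]) (by push_cast; linarith only [hm8])
      (by push_cast; linarith only [hm']) (by push_cast; linarith only [hs]) (by push_cast; linarith only [hs2])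
      (by push_cast; linarith only [hρ]) (FP5b hw hz hx4 hs hF)
    push_cast at h5
    linarith only [h5]

lemma eP3_ge (h0 : 145 / 1000 ≤ x) (h1 : x ≤ 16 / 100) (_ : m ≤ 0) (hm' : -(9875 / 10000) ≤ m) :
    -(18 / 100) ≤ eP3 m + 2 * x * m := by
  unfold eP3
  split_ifs with h2 h3 <;> nlinarith

/-- the same with the shift `π - 4 x` -/
theorem one_P4c (hw : W x m w) (hz : ZR s ρ ζ) (hρ : ρ ≤ 1045 / 10000)
    (hm : m ≤ -(2375 / 10000)) (hm' : -(8 / 10) ≤ m) (hx0 : 145 / 1000 ≤ x) (hx : x ≤ 16 / 100)
    (hF : FP 4 s ρ w ζ) : -(18 / 100) ≤ S4 m w ζ + (Real.pi - 4 * x) * m := by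
  have h1 := one_P4' hw hz hρ hm hm' hx0 hx hF
  have h2 := eP3_ge hx0 hx (by linarith only [hm]) (show -(9875 / 10000) ≤ m by linarith only [hm'])
  linarith only [h1, h2]

theorem one_P5c (hw : W x m w) (hz : ZR s ρ ζ) (hρ : ρ ≤ 725 / 10000)
    (hm : m ≤ -(2375 / 10000)) (hm' : -(9875 / 10000) ≤ m) (hx0 : 145 / 1000 ≤ x)
    (hx : x ≤ 16 / 100) (hF : FP 5 s ρ w ζ) :
    -(18 / 100) ≤ S4 m w ζ + (Real.pi - 4 * x) * m := by
  have h1 := one_P5' hw hz hρ hm hm' hx0 hx hF
  have h2 := eP3_ge hx0 hx (by linarith only [hm]) hm'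
  linarith only [h1, h2]

end LR

end Pool.Agent.Work.MP_b30479_gt.G2
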