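import Pool.Agent.Work.MP_b30479_gt.G2.LRCE
import Pool.Agent.Work.NumU.Tree

/-!
# Left ramps of the ring|ring hinges, heights `≥ 0` (block C)

`LR.rr_flat`, `LR.rr_P4`, `LR.rr_P5`, `LR.rr_X4`, `LR.rr_X5`.  Certificates found with `NumU.cert`.
-/

set_option linter.unusedSimpArgs false

namespace Pool.Agent.Work.MP_b30479_gt.G2

open VOL NumU

namespace LRC

open LR
open NumI (V)

variable {m x s ρ : ℝ} {w ζ : ℂ}

/-- 21 boxes -/
theorem q4a {x y s r : ℝ} (a0 : 100 / 10000 ≤ x) (b0 : x ≤ 1000 / 10000) (a1 : 0 ≤ y) (b1 : y ≤ 5600 / 10000)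
    (a2 : 625 / 10000 ≤ s) (b2 : s ≤ 1200 / 10000) (a3 : 0 ≤ r) (b3 : r ≤ 1045 / 10000) :
    ∃ e ∈ l1a (RG gg1 4), 0 < e.val [x, y, s, r] := by
  have h : chkT (l1a (RG gg1 4)) 24
      18412055681338844806987451081017002308894564352000
      [V.of 10000 100 1000, V.of 10000 0 5600, V.of 10000 625 1200, V.of 10000 0 1045] =
        true := by
    decide +kernel
  exact chkT4 h (by norm_num) (by push_cast; linarith only [a0]) (by push_cast; linarith only [b0])
    (by push_cast; linarith only [a1]) (by push_cast; linarith only [b1]) (by push_cast; linarith only [a2])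
    (by push_cast; linarith only [b2]) (by push_cast; linarith only [a3]) (by push_cast; linarith only [b3])

/-- 23 boxes -/
theorem q4b {x y s r : ℝ} (a0 : 100 / 10000 ≤ x) (b0 : x ≤ 1000 / 10000) (a1 : 0 ≤ y) (b1 : y ≤ 5600 / 10000)
    (a2 : 625 / 10000 ≤ s) (b2 : s ≤ 1200 / 10000) (a3 : 0 ≤ r) (b3 : r ≤ 1045 / 10000) :
    ∃ e ∈ l1b (RG gg1 4), 0 < e.val [x, y, s, r] := by
  have h : chkT (l1b (RG gg1 4)) 24
      916119942658967984702100684633954951228678675214434304
      [V.of 10000 100 1000, V.of 10000 0 5600, V.of 10000 625 1200, V.of 10000 0 1045] =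
        true := by
    decide +kernel
  exact chkT4 h (by norm_num) (by push_cast; linarith only [a0]) (by push_cast; linarith only [b0])
    (by push_cast; linarith only [a1]) (by push_cast; linarith only [b1]) (by push_cast; linarith only [a2])
    (by push_cast; linarith only [b2]) (by push_cast; linarith only [a3]) (by push_cast; linarith only [b3])

/-- 22 boxes -/
theorem q4c {x y s r : ℝ} (a0 : 100 / 10000 ≤ x) (b0 : x ≤ 1000 / 10000) (a1 : 0 ≤ y) (b1 : y ≤ 5600 / 10000)
    (a2 : 625 / 10000 ≤ s) (b2 : s ≤ 1200 / 10000) (a3 : 0 ≤ r) (b3 : r ≤ 1045 / 10000) :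
    ∃ e ∈ l2 (RG gg1 4), 0 < e.val [x, y, s, r] := by
  have h : chkT (l2 (RG gg1 4)) 24
      3580091377294475978513290127193353183809700944740352
      [V.of 10000 100 1000, V.of 10000 0 5600, V.of 10000 625 1200, V.of 10000 0 1045] =
        true := by
    decide +kernel
  exact chkT4 h (by norm_num) (by push_cast; linarith only [a0]) (by push_cast; linarith only [b0])
    (by push_cast; linarith only [a1]) (by push_cast; linarith only [b1]) (by push_cast; linarith only [a2])
    (by push_cast; linarith only [b2]) (by push_cast; linarith only [a3]) (by push_cast; linarith only [b3])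

/-- 52 boxes -/
theorem q4d {x y s r : ℝ} (a0 : 100 / 10000 ≤ x) (b0 : x ≤ 1000 / 10000) (a1 : 0 ≤ y) (b1 : y ≤ 5600 / 10000)
    (a2 : 625 / 10000 ≤ s) (b2 : s ≤ 1200 / 10000) (a3 : 0 ≤ r) (b3 : r ≤ 1045 / 10000) :
    ∃ e ∈ l3 (RG gg1 4), 0 < e.val [x, y, s, r] := by
  have h : chkT (l3 (RG gg1 4)) 24
      7789462791746698408671507545370056218267776357877416683870482979964501661977621530782475804207462941347353379328508065612224
      [V.of 10000 100 1000, V.of 10000 0 5600, V.of 10000 625 1200, V.of 10000 0 1045] =
        true := by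
    decide +kernel
  exact chkT4 h (by norm_num) (by push_cast; linarith only [a0]) (by push_cast; linarith only [b0])
    (by push_cast; linarith only [a1]) (by push_cast; linarith only [b1]) (by push_cast; linarith only [a2])
    (by push_cast; linarith only [b2]) (by push_cast; linarith only [a3]) (by push_cast; linarith only [b3])

/-- 11 boxes -/
theorem q4e {x y s r : ℝ} (a0 : 100 / 10000 ≤ x) (b0 : x ≤ 1000 / 10000) (a1 : 0 ≤ y) (b1 : y ≤ 5600 / 10000)
    (a2 : 625 / 10000 ≤ s) (b2 : s ≤ 1200 / 10000) (a3 : 0 ≤ r) (b3 : r ≤ 1045 / 10000) :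
    ∃ e ∈ l1c (RG gg1 4), 0 < e.val [x, y, s, r] := by
  have h : chkT (l1c (RG gg1 4)) 24
      15230095514882347111620816
      [V.of 10000 100 1000, V.of 10000 0 5600, V.of 10000 625 1200, V.of 10000 0 1045] =
        true := by
    decide +kernel
  exact chkT4 h (by norm_num) (by push_cast; linarith only [a0]) (by push_cast; linarith only [b0])
    (by push_cast; linarith only [a1]) (by push_cast; linarith only [b1]) (by push_cast; linarith only [a2])
    (by push_cast; linarith only [b2]) (by push_cast; linarith only [a3]) (by push_cast; linarith only [b3])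

/-- 1 boxes -/
theorem q4f {x y s r : ℝ} (a0 : 0 ≤ x) (b0 : x ≤ 100 / 10000) (a1 : 0 ≤ y) (b1 : y ≤ 5600 / 10000)
    (a2 : 625 / 10000 ≤ s) (b2 : s ≤ 1200 / 10000) (a3 : 0 ≤ r) (b3 : r ≤ 1045 / 10000) :
    ∃ e ∈ s1 10 (RG gg1 4), 0 < e.val [x, y, s, r] := by
  have h : chkT (s1 10 (RG gg1 4)) 24
      8
      [V.of 10000 0 100, V.of 10000 0 5600, V.of 10000 625 1200, V.of 10000 0 1045] =
        true := by
    decide +kernel
  exact chkT4 h (by norm_num) (by push_cast; linarith only [a0]) (by push_cast; linarith only [b0])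
    (by push_cast; linarith only [a1]) (by push_cast; linarith only [b1]) (by push_cast; linarith only [a2])
    (by push_cast; linarith only [b2]) (by push_cast; linarith only [a3]) (by push_cast; linarith only [b3])

/-- 1 boxes -/
theorem q4g {x y s r : ℝ} (a0 : 0 ≤ x) (b0 : x ≤ 100 / 10000) (a1 : 0 ≤ y) (b1 : y ≤ 5600 / 10000)
    (a2 : 625 / 10000 ≤ s) (b2 : s ≤ 1200 / 10000) (a3 : 0 ≤ r) (b3 : r ≤ 1045 / 10000) :
    ∃ e ∈ s2 10 (RG gg1 4), 0 < e.val [x, y, s, r] := by
  have h : chkT (s2 10 (RG gg1 4)) 24
      8
      [V.of 10000 0 100, V.of 10000 0 5600, V.of 10000 625 1200, V.of 10000 0 1045] =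
        true := by
    decide +kernel
  exact chkT4 h (by norm_num) (by push_cast; linarith only [a0]) (by push_cast; linarith only [b0])
    (by push_cast; linarith only [a1]) (by push_cast; linarith only [b1]) (by push_cast; linarith only [a2])
    (by push_cast; linarith only [b2]) (by push_cast; linarith only [a3]) (by push_cast; linarith only [b3])

/-- 6 boxes -/
theorem q5a {x y s r : ℝ} (a0 : 100 / 10000 ≤ x) (b0 : x ≤ 1000 / 10000) (a1 : 0 ≤ y) (b1 : y ≤ 4650 / 10000)
    (a2 : 625 / 10000 ≤ s) (b2 : s ≤ 1200 / 10000) (a3 : 0 ≤ r) (b3 : r ≤ 725 / 10000) :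
    ∃ e ∈ l1a (RG gg1 5), 0 < e.val [x, y, s, r] := by
  have h : chkT (l1a (RG gg1 5)) 24
      10516648529920
      [V.of 10000 100 1000, V.of 10000 0 4650, V.of 10000 625 1200, V.of 10000 0 725] =
        true := by
    decide +kernel
  exact chkT4 h (by norm_num) (by push_cast; linarith only [a0]) (by push_cast; linarith only [b0])
    (by push_cast; linarith only [a1]) (by push_cast; linarith only [b1]) (by push_cast; linarith only [a2])
    (by push_cast; linarith only [b2]) (by push_cast; linarith only [a3]) (by push_cast; linarith only [b3])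

/-- 11 boxes -/
theorem q5b {x y s r : ℝ} (a0 : 100 / 10000 ≤ x) (b0 : x ≤ 1000 / 10000) (a1 : 0 ≤ y) (b1 : y ≤ 4650 / 10000)
    (a2 : 625 / 10000 ≤ s) (b2 : s ≤ 1200 / 10000) (a3 : 0 ≤ r) (b3 : r ≤ 725 / 10000) :
    ∃ e ∈ l1b (RG gg1 5), 0 < e.val [x, y, s, r] := by
  have h : chkT (l1b (RG gg1 5)) 24
      11563038959822591064805376
      [V.of 10000 100 1000, V.of 10000 0 4650, V.of 10000 625 1200, V.of 10000 0 725] =
        true := by
    decide +kernel
  exact chkT4 h (by norm_num) (by push_cast; linarith only [a0]) (by push_cast; linarith only [b0])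
    (by push_cast; linarith only [a1]) (by push_cast; linarith only [b1]) (by push_cast; linarith only [a2])
    (by push_cast; linarith only [b2]) (by push_cast; linarith only [a3]) (by push_cast; linarith only [b3])

/-- 6 boxes -/
theorem q5c {x y s r : ℝ} (a0 : 100 / 10000 ≤ x) (b0 : x ≤ 1000 / 10000) (a1 : 0 ≤ y) (b1 : y ≤ 4650 / 10000)
    (a2 : 625 / 10000 ≤ s) (b2 : s ≤ 1200 / 10000) (a3 : 0 ≤ r) (b3 : r ≤ 725 / 10000) :
    ∃ e ∈ l2 (RG gg1 5), 0 < e.val [x, y, s, r] := by
  have h : chkT (l2 (RG gg1 5)) 24
      10516648529920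
      [V.of 10000 100 1000, V.of 10000 0 4650, V.of 10000 625 1200, V.of 10000 0 725] =
        true := by
    decide +kernel
  exact chkT4 h (by norm_num) (by push_cast; linarith only [a0]) (by push_cast; linarith only [b0])
    (by push_cast; linarith only [a1]) (by push_cast; linarith only [b1]) (by push_cast; linarith only [a2])
    (by push_cast; linarith only [b2]) (by push_cast; linarith only [a3]) (by push_cast; linarith only [b3])

/-- 8 boxes -/
theorem q5d {x y s r : ℝ} (a0 : 100 / 10000 ≤ x) (b0 : x ≤ 1000 / 10000) (a1 : 0 ≤ y) (b1 : y ≤ 4650 / 10000)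
    (a2 : 625 / 10000 ≤ s) (b2 : s ≤ 1200 / 10000) (a3 : 0 ≤ r) (b3 : r ≤ 725 / 10000) :
    ∃ e ∈ l3 (RG gg1 5), 0 < e.val [x, y, s, r] := by
  have h : chkT (l3 (RG gg1 5)) 24
      614767881439350976
      [V.of 10000 100 1000, V.of 10000 0 4650, V.of 10000 625 1200, V.of 10000 0 725] =
        true := by
    decide +kernel
  exact chkT4 h (by norm_num) (by push_cast; linarith only [a0]) (by push_cast; linarith only [b0])
    (by push_cast; linarith only [a1]) (by push_cast; linarith only [b1]) (by push_cast; linarith only [a2])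
    (by push_cast; linarith only [b2]) (by push_cast; linarith only [a3]) (by push_cast; linarith only [b3])

/-- 3 boxes -/
theorem q5e {x y s r : ℝ} (a0 : 100 / 10000 ≤ x) (b0 : x ≤ 1000 / 10000) (a1 : 0 ≤ y) (b1 : y ≤ 4650 / 10000)
    (a2 : 625 / 10000 ≤ s) (b2 : s ≤ 1200 / 10000) (a3 : 0 ≤ r) (b3 : r ≤ 725 / 10000) :
    ∃ e ∈ l1c (RG gg1 5), 0 < e.val [x, y, s, r] := by
  have h : chkT (l1c (RG gg1 5)) 24
      626896
      [V.of 10000 100 1000, V.of 10000 0 4650, V.of 10000 625 1200, V.of 10000 0 725] =
        true := by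
    decide +kernel
  exact chkT4 h (by norm_num) (by push_cast; linarith only [a0]) (by push_cast; linarith only [b0])
    (by push_cast; linarith only [a1]) (by push_cast; linarith only [b1]) (by push_cast; linarith only [a2])
    (by push_cast; linarith only [b2]) (by push_cast; linarith only [a3]) (by push_cast; linarith only [b3])

/-- 1 boxes -/
theorem q5f {x y s r : ℝ} (a0 : 0 ≤ x) (b0 : x ≤ 100 / 10000) (a1 : 0 ≤ y) (b1 : y ≤ 4650 / 10000)
    (a2 : 625 / 10000 ≤ s) (b2 : s ≤ 1200 / 10000) (a3 : 0 ≤ r) (b3 : r ≤ 725 / 10000) :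
    ∃ e ∈ s1 10 (RG gg1 5), 0 < e.val [x, y, s, r] := by
  have h : chkT (s1 10 (RG gg1 5)) 24
      8
      [V.of 10000 0 100, V.of 10000 0 4650, V.of 10000 625 1200, V.of 10000 0 725] =
        true := by
    decide +kernel
  exact chkT4 h (by norm_num) (by push_cast; linarith only [a0]) (by push_cast; linarith only [b0])
    (by push_cast; linarith only [a1]) (by push_cast; linarith only [b1]) (by push_cast; linarith only [a2])
    (by push_cast; linarith only [b2]) (by push_cast; linarith only [a3]) (by push_cast; linarith only [b3])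

/-- 1 boxes -/
theorem q5g {x y s r : ℝ} (a0 : 0 ≤ x) (b0 : x ≤ 100 / 10000) (a1 : 0 ≤ y) (b1 : y ≤ 4650 / 10000)
    (a2 : 625 / 10000 ≤ s) (b2 : s ≤ 1200 / 10000) (a3 : 0 ≤ r) (b3 : r ≤ 725 / 10000) :
    ∃ e ∈ s2 10 (RG gg1 5), 0 < e.val [x, y, s, r] := by
  have h : chkT (s2 10 (RG gg1 5)) 24
      8
      [V.of 10000 0 100, V.of 10000 0 4650, V.of 10000 625 1200, V.of 10000 0 725] =
        true := by
    decide +kernel
  exact chkT4 h (by norm_num) (by push_cast; linarith only [a0]) (by push_cast; linarith only [b0])
    (by push_cast; linarith only [a1]) (by push_cast; linarith only [b1]) (by push_cast; linarith only [a2])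
    (by push_cast; linarith only [b2]) (by push_cast; linarith only [a3]) (by push_cast; linarith only [b3])

/-- 36 boxes -/
theorem t4a {x y s r : ℝ} (a0 : 100 / 10000 ≤ x) (b0 : x ≤ 1000 / 10000) (a1 : 0 ≤ y) (b1 : y ≤ 5600 / 10000)
    (a2 : 1200 / 10000 ≤ s) (b2 : s ≤ 2500 / 10000) (a3 : 0 ≤ r) (b3 : r ≤ 1045 / 10000) :
    ∃ e ∈ l1a (RG gg2 4), 0 < e.val [x, y, s, r] := by
  have h : chkT (l1a (RG gg2 4)) 24
      24538824623685732668218538635542344500095798271729944304037023327148909636189524992000
      [V.of 10000 100 1000, V.of 10000 0 5600, V.of 10000 1200 2500, V.of 10000 0 1045] =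
        true := by
    decide +kernel
  exact chkT4 h (by norm_num) (by push_cast; linarith only [a0]) (by push_cast; linarith only [b0])
    (by push_cast; linarith only [a1]) (by push_cast; linarith only [b1]) (by push_cast; linarith only [a2])
    (by push_cast; linarith only [b2]) (by push_cast; linarith only [a3]) (by push_cast; linarith only [b3])

/-- 38 boxes -/
theorem t4b {x y s r : ℝ} (a0 : 100 / 10000 ≤ x) (b0 : x ≤ 1000 / 10000) (a1 : 0 ≤ y) (b1 : y ≤ 5600 / 10000)
    (a2 : 1200 / 10000 ≤ s) (b2 : s ≤ 2500 / 10000) (a3 : 0 ≤ r) (b3 : r ≤ 1045 / 10000) :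
    ∃ e ∈ l1b (RG gg2 4), 0 < e.val [x, y, s, r] := by
  have h : chkT (l1b (RG gg2 4)) 24
      1354044236258679018963938244933689628623496089602791683409295296440245188976733471854174208
      [V.of 10000 100 1000, V.of 10000 0 5600, V.of 10000 1200 2500, V.of 10000 0 1045] =
        true := by
    decide +kernel
  exact chkT4 h (by norm_num) (by push_cast; linarith only [a0]) (by push_cast; linarith only [b0])
    (by push_cast; linarith only [a1]) (by push_cast; linarith only [b1]) (by push_cast; linarith only [a2])
    (by push_cast; linarith only [b2]) (by push_cast; linarith only [a3]) (by push_cast; linarith only [b3])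

/-- 28 boxes -/
theorem t4c {x y s r : ℝ} (a0 : 100 / 10000 ≤ x) (b0 : x ≤ 1000 / 10000) (a1 : 0 ≤ y) (b1 : y ≤ 5600 / 10000)
    (a2 : 1200 / 10000 ≤ s) (b2 : s ≤ 2500 / 10000) (a3 : 0 ≤ r) (b3 : r ≤ 1045 / 10000) :
    ∃ e ∈ l2 (RG gg2 4), 0 < e.val [x, y, s, r] := by
  have h : chkT (l2 (RG gg2 4)) 24
      1235392645728696115892042432061597752713601592075892582679167242240
      [V.of 10000 100 1000, V.of 10000 0 5600, V.of 10000 1200 2500, V.of 10000 0 1045] =
        true := by
    decide +kernel
  exact chkT4 h (by norm_num) (by push_cast; linarith only [a0]) (by push_cast; linarith only [b0])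
    (by push_cast; linarith only [a1]) (by push_cast; linarith only [b1]) (by push_cast; linarith only [a2])
    (by push_cast; linarith only [b2]) (by push_cast; linarith only [a3]) (by push_cast; linarith only [b3])

/-- 1 boxes -/
theorem t4f {x y s r : ℝ} (a0 : 0 ≤ x) (b0 : x ≤ 100 / 10000) (a1 : 0 ≤ y) (b1 : y ≤ 5600 / 10000)
    (a2 : 1200 / 10000 ≤ s) (b2 : s ≤ 2500 / 10000) (a3 : 0 ≤ r) (b3 : r ≤ 1045 / 10000) :
    ∃ e ∈ s1 10 (RG gg2 4), 0 < e.val [x, y, s, r] := by
  have h : chkT (s1 10 (RG gg2 4)) 24
      8
      [V.of 10000 0 100, V.of 10000 0 5600, V.of 10000 1200 2500, V.of 10000 0 1045] =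
        true := by
    decide +kernel
  exact chkT4 h (by norm_num) (by push_cast; linarith only [a0]) (by push_cast; linarith only [b0])
    (by push_cast; linarith only [a1]) (by push_cast; linarith only [b1]) (by push_cast; linarith only [a2])
    (by push_cast; linarith only [b2]) (by push_cast; linarith only [a3]) (by push_cast; linarith only [b3])

/-- 1 boxes -/
theorem t4g {x y s r : ℝ} (a0 : 0 ≤ x) (b0 : x ≤ 100 / 10000) (a1 : 0 ≤ y) (b1 : y ≤ 5600 / 10000)
    (a2 : 1200 / 10000 ≤ s) (b2 : s ≤ 2500 / 10000) (a3 : 0 ≤ r) (b3 : r ≤ 1045 / 10000) :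
    ∃ e ∈ s2 10 (RG gg2 4), 0 < e.val [x, y, s, r] := by
  have h : chkT (s2 10 (RG gg2 4)) 24
      8
      [V.of 10000 0 100, V.of 10000 0 5600, V.of 10000 1200 2500, V.of 10000 0 1045] =
        true := by
    decide +kernel
  exact chkT4 h (by norm_num) (by push_cast; linarith only [a0]) (by push_cast; linarith only [b0])
    (by push_cast; linarith only [a1]) (by push_cast; linarith only [b1]) (by push_cast; linarith only [a2])
    (by push_cast; linarith only [b2]) (by push_cast; linarith only [a3]) (by push_cast; linarith only [b3])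

/-- 12 boxes -/
theorem t5a {x y s r : ℝ} (a0 : 100 / 10000 ≤ x) (b0 : x ≤ 1000 / 10000) (a1 : 0 ≤ y) (b1 : y ≤ 4650 / 10000)
    (a2 : 1200 / 10000 ≤ s) (b2 : s ≤ 2500 / 10000) (a3 : 0 ≤ r) (b3 : r ≤ 725 / 10000) :
    ∃ e ∈ l1a (RG gg2 5), 0 < e.val [x, y, s, r] := by
  have h : chkT (l1a (RG gg2 5)) 24
      2961382178470769000436994048
      [V.of 10000 100 1000, V.of 10000 0 4650, V.of 10000 1200 2500, V.of 10000 0 725] =
        true := by
    decide +kernel
  exact chkT4 h (by norm_num) (by push_cast; linarith only [a0]) (by push_cast; linarith only [b0])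
    (by push_cast; linarith only [a1]) (by push_cast; linarith only [b1]) (by push_cast; linarith only [a2])
    (by push_cast; linarith only [b2]) (by push_cast; linarith only [a3]) (by push_cast; linarith only [b3])

/-- 12 boxes -/
theorem t5b {x y s r : ℝ} (a0 : 100 / 10000 ≤ x) (b0 : x ≤ 1000 / 10000) (a1 : 0 ≤ y) (b1 : y ≤ 4650 / 10000)
    (a2 : 1200 / 10000 ≤ s) (b2 : s ≤ 2500 / 10000) (a3 : 0 ≤ r) (b3 : r ≤ 725 / 10000) :
    ∃ e ∈ l1b (RG gg2 5), 0 < e.val [x, y, s, r] := by
  have h : chkT (l1b (RG gg2 5)) 24
      3253906947419468359917899776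
      [V.of 10000 100 1000, V.of 10000 0 4650, V.of 10000 1200 2500, V.of 10000 0 725] =
        true := by
    decide +kernel
  exact chkT4 h (by norm_num) (by push_cast; linarith only [a0]) (by push_cast; linarith only [b0])
    (by push_cast; linarith only [a1]) (by push_cast; linarith only [b1]) (by push_cast; linarith only [a2])
    (by push_cast; linarith only [b2]) (by push_cast; linarith only [a3]) (by push_cast; linarith only [b3])

/-- 9 boxes -/
theorem t5c {x y s r : ℝ} (a0 : 100 / 10000 ≤ x) (b0 : x ≤ 1000 / 10000) (a1 : 0 ≤ y) (b1 : y ≤ 4650 / 10000)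
    (a2 : 1200 / 10000 ≤ s) (b2 : s ≤ 2500 / 10000) (a3 : 0 ≤ r) (b3 : r ≤ 725 / 10000) :
    ∃ e ∈ l2 (RG gg2 5), 0 < e.val [x, y, s, r] := by
  have h : chkT (l2 (RG gg2 5)) 24
      215709660259591761920
      [V.of 10000 100 1000, V.of 10000 0 4650, V.of 10000 1200 2500, V.of 10000 0 725] =
        true := by
    decide +kernel
  exact chkT4 h (by norm_num) (by push_cast; linarith only [a0]) (by push_cast; linarith only [b0])
    (by push_cast; linarith only [a1]) (by push_cast; linarith only [b1]) (by push_cast; linarith only [a2])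
    (by push_cast; linarith only [b2]) (by push_cast; linarith only [a3]) (by push_cast; linarith only [b3])

/-- 1 boxes -/
theorem t5f {x y s r : ℝ} (a0 : 0 ≤ x) (b0 : x ≤ 100 / 10000) (a1 : 0 ≤ y) (b1 : y ≤ 4650 / 10000)
    (a2 : 1200 / 10000 ≤ s) (b2 : s ≤ 2500 / 10000) (a3 : 0 ≤ r) (b3 : r ≤ 725 / 10000) :
    ∃ e ∈ s1 10 (RG gg2 5), 0 < e.val [x, y, s, r] := by
  have h : chkT (s1 10 (RG gg2 5)) 24
      8
      [V.of 10000 0 100, V.of 10000 0 4650, V.of 10000 1200 2500, V.of 10000 0 725] =
        true := by
    decide +kernel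
  exact chkT4 h (by norm_num) (by push_cast; linarith only [a0]) (by push_cast; linarith only [b0])
    (by push_cast; linarith only [a1]) (by push_cast; linarith only [b1]) (by push_cast; linarith only [a2])
    (by push_cast; linarith only [b2]) (by push_cast; linarith only [a3]) (by push_cast; linarith only [b3])

/-- 1 boxes -/
theorem t5g {x y s r : ℝ} (a0 : 0 ≤ x) (b0 : x ≤ 100 / 10000) (a1 : 0 ≤ y) (b1 : y ≤ 4650 / 10000)
    (a2 : 1200 / 10000 ≤ s) (b2 : s ≤ 2500 / 10000) (a3 : 0 ≤ r) (b3 : r ≤ 725 / 10000) :
    ∃ e ∈ s2 10 (RG gg2 5), 0 < e.val [x, y, s, r] := by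
  have h : chkT (s2 10 (RG gg2 5)) 24
      8
      [V.of 10000 0 100, V.of 10000 0 4650, V.of 10000 1200 2500, V.of 10000 0 725] =
        true := by
    decide +kernel
  exact chkT4 h (by norm_num) (by push_cast; linarith only [a0]) (by push_cast; linarith only [b0])
    (by push_cast; linarith only [a1]) (by push_cast; linarith only [b1]) (by push_cast; linarith only [a2])
    (by push_cast; linarith only [b2]) (by push_cast; linarith only [a3]) (by push_cast; linarith only [b3])

/-- 51 boxes -/
theorem x4a {x y s r : ℝ} (a0 : 100 / 10000 ≤ x) (b0 : x ≤ 1000 / 10000) (a1 : 0 ≤ y) (b1 : y ≤ 5600 / 10000)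
    (a2 : 625 / 10000 ≤ s) (b2 : s ≤ 2500 / 10000) (a3 : 0 ≤ r) (b3 : r ≤ 1045 / 10000) :
    ∃ e ∈ l1a (RX 4), 0 < e.val [x, y, s, r] := by
  have h : chkT (l1a (RX 4)) 24
      27452860319787060436720099818894408609797354725657249095968335567017198298921662504541713863179728286240164398317773521408
      [V.of 10000 100 1000, V.of 10000 0 5600, V.of 10000 625 2500, V.of 10000 0 1045] =
        true := by
    decide +kernel
  exact chkT4 h (by norm_num) (by push_cast; linarith only [a0]) (by push_cast; linarith only [b0])
    (by push_cast; linarith only [a1]) (by push_cast; linarith only [b1]) (by push_cast; linarith only [a2])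
    (by push_cast; linarith only [b2]) (by push_cast; linarith only [a3]) (by push_cast; linarith only [b3])

/-- 74 boxes -/
theorem x4b {x y s r : ℝ} (a0 : 100 / 10000 ≤ x) (b0 : x ≤ 1000 / 10000) (a1 : 0 ≤ y) (b1 : y ≤ 5600 / 10000)
    (a2 : 625 / 10000 ≤ s) (b2 : s ≤ 2500 / 10000) (a3 : 0 ≤ r) (b3 : r ≤ 1045 / 10000) :
    ∃ e ∈ l1b (RX 4), 0 < e.val [x, y, s, r] := by
  have h : chkT (l1b (RX 4)) 24
      673142176387130105452244838772309639057775928229079649356015802270884902412094160331199222996913436630476813710376540885431262600962185920768048355383706103542707845819279737344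
      [V.of 10000 100 1000, V.of 10000 0 5600, V.of 10000 625 2500, V.of 10000 0 1045] =
        true := by
    decide +kernel
  exact chkT4 h (by norm_num) (by push_cast; linarith only [a0]) (by push_cast; linarith only [b0])
    (by push_cast; linarith only [a1]) (by push_cast; linarith only [b1]) (by push_cast; linarith only [a2])
    (by push_cast; linarith only [b2]) (by push_cast; linarith only [a3]) (by push_cast; linarith only [b3])

/-- 42 boxes -/
theorem x4c {x y s r : ℝ} (a0 : 100 / 10000 ≤ x) (b0 : x ≤ 1000 / 10000) (a1 : 0 ≤ y) (b1 : y ≤ 5600 / 10000)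
    (a2 : 625 / 10000 ≤ s) (b2 : s ≤ 2500 / 10000) (a3 : 0 ≤ r) (b3 : r ≤ 1045 / 10000) :
    ∃ e ∈ l2 (RX 4), 0 < e.val [x, y, s, r] := by
  have h : chkT (l2 (RX 4)) 24
      6360174496096912085264122080706098958972302175351997659108821893777652584964309330112615406539637248
      [V.of 10000 100 1000, V.of 10000 0 5600, V.of 10000 625 2500, V.of 10000 0 1045] =
        true := by
    decide +kernel
  exact chkT4 h (by norm_num) (by push_cast; linarith only [a0]) (by push_cast; linarith only [b0])
    (by push_cast; linarith only [a1]) (by push_cast; linarith only [b1]) (by push_cast; linarith only [a2])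
    (by push_cast; linarith only [b2]) (by push_cast; linarith only [a3]) (by push_cast; linarith only [b3])

/-- 12 boxes -/
theorem x4d {x y s r : ℝ} (a0 : 100 / 10000 ≤ x) (b0 : x ≤ 1000 / 10000) (a1 : 0 ≤ y) (b1 : y ≤ 5600 / 10000)
    (a2 : 625 / 10000 ≤ s) (b2 : s ≤ 2500 / 10000) (a3 : 0 ≤ r) (b3 : r ≤ 1045 / 10000) :
    ∃ e ∈ l3 (RX 4), 0 < e.val [x, y, s, r] := by
  have h : chkT (l3 (RX 4)) 24
      3956212255356581724612010688
      [V.of 10000 100 1000, V.of 10000 0 5600, V.of 10000 625 2500, V.of 10000 0 1045] =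
        true := by
    decide +kernel
  exact chkT4 h (by norm_num) (by push_cast; linarith only [a0]) (by push_cast; linarith only [b0])
    (by push_cast; linarith only [a1]) (by push_cast; linarith only [b1]) (by push_cast; linarith only [a2])
    (by push_cast; linarith only [b2]) (by push_cast; linarith only [a3]) (by push_cast; linarith only [b3])

/-- 10 boxes -/
theorem x4e {x y s r : ℝ} (a0 : 100 / 10000 ≤ x) (b0 : x ≤ 1000 / 10000) (a1 : 0 ≤ y) (b1 : y ≤ 5600 / 10000)
    (a2 : 625 / 10000 ≤ s) (b2 : s ≤ 2500 / 10000) (a3 : 0 ≤ r) (b3 : r ≤ 1045 / 10000) :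
    ∃ e ∈ l1c (RX 4), 0 < e.val [x, y, s, r] := by
  have h : chkT (l1c (RX 4)) 24
      65404199177456544916176
      [V.of 10000 100 1000, V.of 10000 0 5600, V.of 10000 625 2500, V.of 10000 0 1045] =
        true := by
    decide +kernel
  exact chkT4 h (by norm_num) (by push_cast; linarith only [a0]) (by push_cast; linarith only [b0])
    (by push_cast; linarith only [a1]) (by push_cast; linarith only [b1]) (by push_cast; linarith only [a2])
    (by push_cast; linarith only [b2]) (by push_cast; linarith only [a3]) (by push_cast; linarith only [b3])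

/-- 3 boxes -/
theorem x4f {x y s r : ℝ} (a0 : 0 ≤ x) (b0 : x ≤ 100 / 10000) (a1 : 0 ≤ y) (b1 : y ≤ 5600 / 10000)
    (a2 : 625 / 10000 ≤ s) (b2 : s ≤ 2500 / 10000) (a3 : 0 ≤ r) (b3 : r ≤ 1045 / 10000) :
    ∃ e ∈ s1 10 (RX 4), 0 < e.val [x, y, s, r] := by
  have h : chkT (s1 10 (RX 4)) 24
      559138
      [V.of 10000 0 100, V.of 10000 0 5600, V.of 10000 625 2500, V.of 10000 0 1045] =
        true := by
    decide +kernel
  exact chkT4 h (by norm_num) (by push_cast; linarith only [a0]) (by push_cast; linarith only [b0])
    (by push_cast; linarith only [a1]) (by push_cast; linarith only [b1]) (by push_cast; linarith only [a2])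
    (by push_cast; linarith only [b2]) (by push_cast; linarith only [a3]) (by push_cast; linarith only [b3])

/-- 3 boxes -/
theorem x4g {x y s r : ℝ} (a0 : 0 ≤ x) (b0 : x ≤ 100 / 10000) (a1 : 0 ≤ y) (b1 : y ≤ 5600 / 10000)
    (a2 : 625 / 10000 ≤ s) (b2 : s ≤ 2500 / 10000) (a3 : 0 ≤ r) (b3 : r ≤ 1045 / 10000) :
    ∃ e ∈ s2 10 (RX 4), 0 < e.val [x, y, s, r] := by
  have h : chkT (s2 10 (RX 4)) 24
      563250
      [V.of 10000 0 100, V.of 10000 0 5600, V.of 10000 625 2500, V.of 10000 0 1045] =
        true := by
    decide +kernel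
  exact chkT4 h (by norm_num) (by push_cast; linarith only [a0]) (by push_cast; linarith only [b0])
    (by push_cast; linarith only [a1]) (by push_cast; linarith only [b1]) (by push_cast; linarith only [a2])
    (by push_cast; linarith only [b2]) (by push_cast; linarith only [a3]) (by push_cast; linarith only [b3])

/-- 28 boxes -/
theorem x5a {x y s r : ℝ} (a0 : 100 / 10000 ≤ x) (b0 : x ≤ 1000 / 10000) (a1 : 0 ≤ y) (b1 : y ≤ 4650 / 10000)
    (a2 : 625 / 10000 ≤ s) (b2 : s ≤ 2500 / 10000) (a3 : 0 ≤ r) (b3 : r ≤ 725 / 10000) :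
    ∃ e ∈ l1a (RX 5), 0 < e.val [x, y, s, r] := by
  have h : chkT (l1a (RX 5)) 24
      1119612652929196557636755759911449030660848288853334097366797648384
      [V.of 10000 100 1000, V.of 10000 0 4650, V.of 10000 625 2500, V.of 10000 0 725] =
        true := by
    decide +kernel
  exact chkT4 h (by norm_num) (by push_cast; linarith only [a0]) (by push_cast; linarith only [b0])
    (by push_cast; linarith only [a1]) (by push_cast; linarith only [b1]) (by push_cast; linarith only [a2])
    (by push_cast; linarith only [b2]) (by push_cast; linarith only [a3]) (by push_cast; linarith only [b3])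

/-- 43 boxes -/
theorem x5b {x y s r : ℝ} (a0 : 100 / 10000 ≤ x) (b0 : x ≤ 1000 / 10000) (a1 : 0 ≤ y) (b1 : y ≤ 4650 / 10000)
    (a2 : 625 / 10000 ≤ s) (b2 : s ≤ 2500 / 10000) (a3 : 0 ≤ r) (b3 : r ≤ 725 / 10000) :
    ∃ e ∈ l1b (RX 5), 0 < e.val [x, y, s, r] := by
  have h : chkT (l1b (RX 5)) 24
      1488220482719540913631203649238611317689919512988495241311499564492914120345274045877450754273414480384
      [V.of 10000 100 1000, V.of 10000 0 4650, V.of 10000 625 2500, V.of 10000 0 725] =
        true := by
    decide +kernel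
  exact chkT4 h (by norm_num) (by push_cast; linarith only [a0]) (by push_cast; linarith only [b0])
    (by push_cast; linarith only [a1]) (by push_cast; linarith only [b1]) (by push_cast; linarith only [a2])
    (by push_cast; linarith only [b2]) (by push_cast; linarith only [a3]) (by push_cast; linarith only [b3])

/-- 25 boxes -/
theorem x5c {x y s r : ℝ} (a0 : 100 / 10000 ≤ x) (b0 : x ≤ 1000 / 10000) (a1 : 0 ≤ y) (b1 : y ≤ 4650 / 10000)
    (a2 : 625 / 10000 ≤ s) (b2 : s ≤ 2500 / 10000) (a3 : 0 ≤ r) (b3 : r ≤ 725 / 10000) :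
    ∃ e ∈ l2 (RX 5), 0 < e.val [x, y, s, r] := by
  have h : chkT (l2 (RX 5)) 24
      72989132476914222427013943570756564103064196875212081463808
      [V.of 10000 100 1000, V.of 10000 0 4650, V.of 10000 625 2500, V.of 10000 0 725] =
        true := by
    decide +kernel
  exact chkT4 h (by norm_num) (by push_cast; linarith only [a0]) (by push_cast; linarith only [b0])
    (by push_cast; linarith only [a1]) (by push_cast; linarith only [b1]) (by push_cast; linarith only [a2])
    (by push_cast; linarith only [b2]) (by push_cast; linarith only [a3]) (by push_cast; linarith only [b3])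

/-- 7 boxes -/
theorem x5d {x y s r : ℝ} (a0 : 100 / 10000 ≤ x) (b0 : x ≤ 1000 / 10000) (a1 : 0 ≤ y) (b1 : y ≤ 4650 / 10000)
    (a2 : 625 / 10000 ≤ s) (b2 : s ≤ 2500 / 10000) (a3 : 0 ≤ r) (b3 : r ≤ 725 / 10000) :
    ∃ e ∈ l3 (RX 5), 0 < e.val [x, y, s, r] := by
  have h : chkT (l3 (RX 5)) 24
      3598158378640064
      [V.of 10000 100 1000, V.of 10000 0 4650, V.of 10000 625 2500, V.of 10000 0 725] =
        true := by
    decide +kernel
  exact chkT4 h (by norm_num) (by push_cast; linarith only [a0]) (by push_cast; linarith only [b0])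
    (by push_cast; linarith only [a1]) (by push_cast; linarith only [b1]) (by push_cast; linarith only [a2])
    (by push_cast; linarith only [b2]) (by push_cast; linarith only [a3]) (by push_cast; linarith only [b3])

/-- 7 boxes -/
theorem x5e {x y s r : ℝ} (a0 : 100 / 10000 ≤ x) (b0 : x ≤ 1000 / 10000) (a1 : 0 ≤ y) (b1 : y ≤ 4650 / 10000)
    (a2 : 625 / 10000 ≤ s) (b2 : s ≤ 2500 / 10000) (a3 : 0 ≤ r) (b3 : r ≤ 725 / 10000) :
    ∃ e ∈ l1c (RX 5), 0 < e.val [x, y, s, r] := by
  have h : chkT (l1c (RX 5)) 24
      3898394058695376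
      [V.of 10000 100 1000, V.of 10000 0 4650, V.of 10000 625 2500, V.of 10000 0 725] =
        true := by
    decide +kernel
  exact chkT4 h (by norm_num) (by push_cast; linarith only [a0]) (by push_cast; linarith only [b0])
    (by push_cast; linarith only [a1]) (by push_cast; linarith only [b1]) (by push_cast; linarith only [a2])
    (by push_cast; linarith only [b2]) (by push_cast; linarith only [a3]) (by push_cast; linarith only [b3])

/-- 3 boxes -/
theorem x5f {x y s r : ℝ} (a0 : 0 ≤ x) (b0 : x ≤ 100 / 10000) (a1 : 0 ≤ y) (b1 : y ≤ 4650 / 10000)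
    (a2 : 625 / 10000 ≤ s) (b2 : s ≤ 2500 / 10000) (a3 : 0 ≤ r) (b3 : r ≤ 725 / 10000) :
    ∃ e ∈ s1 10 (RX 5), 0 < e.val [x, y, s, r] := by
  have h : chkT (s1 10 (RX 5)) 24
      559122
      [V.of 10000 0 100, V.of 10000 0 4650, V.of 10000 625 2500, V.of 10000 0 725] =
        true := by
    decide +kernel
  exact chkT4 h (by norm_num) (by push_cast; linarith only [a0]) (by push_cast; linarith only [b0])
    (by push_cast; linarith only [a1]) (by push_cast; linarith only [b1]) (by push_cast; linarith only [a2])
    (by push_cast; linarith only [b2]) (by push_cast; linarith only [a3]) (by push_cast; linarith only [b3])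

/-- 2 boxes -/
theorem x5g {x y s r : ℝ} (a0 : 0 ≤ x) (b0 : x ≤ 100 / 10000) (a1 : 0 ≤ y) (b1 : y ≤ 4650 / 10000)
    (a2 : 625 / 10000 ≤ s) (b2 : s ≤ 2500 / 10000) (a3 : 0 ≤ r) (b3 : r ≤ 725 / 10000) :
    ∃ e ∈ s2 10 (RX 5), 0 < e.val [x, y, s, r] := by
  have h : chkT (s2 10 (RX 5)) 24
      2194
      [V.of 10000 0 100, V.of 10000 0 4650, V.of 10000 625 2500, V.of 10000 0 725] =
        true := by
    decide +kernel
  exact chkT4 h (by norm_num) (by push_cast; linarith only [a0]) (by push_cast; linarith only [b0])
    (by push_cast; linarith only [a1]) (by push_cast; linarith only [b1]) (by push_cast; linarith only [a2])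
    (by push_cast; linarith only [b2]) (by push_cast; linarith only [a3]) (by push_cast; linarith only [b3])

/-- 9 boxes -/
theorem fa {x y s r : ℝ} (a0 : 100 / 10000 ≤ x) (b0 : x ≤ 1000 / 10000) (a1 : 0 ≤ y) (b1 : y ≤ 5600 / 10000)
    (a2 : 0 ≤ s) (b2 : s ≤ 2500 / 10000) (a3 : 0 ≤ r) (b3 : r ≤ 1045 / 10000) :
    ∃ e ∈ [fD], 0 < e.val [x, y, s, r] := by
  have h : chkT ([fD]) 24
      156905560630763225088
      [V.of 10000 100 1000, V.of 10000 0 5600, V.of 10000 0 2500, V.of 10000 0 1045] =
        true := by
    decide +kernel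
  exact chkT4 h (by norm_num) (by push_cast; linarith only [a0]) (by push_cast; linarith only [b0])
    (by push_cast; linarith only [a1]) (by push_cast; linarith only [b1]) (by push_cast; linarith only [a2])
    (by push_cast; linarith only [b2]) (by push_cast; linarith only [a3]) (by push_cast; linarith only [b3])

/-- 1 boxes -/
theorem fb {x y s r : ℝ} (a0 : 0 ≤ x) (b0 : x ≤ 100 / 10000) (a1 : 0 ≤ y) (b1 : y ≤ 5600 / 10000)
    (a2 : 0 ≤ s) (b2 : s ≤ 2500 / 10000) (a3 : 0 ≤ r) (b3 : r ≤ 1045 / 10000) :
    ∃ e ∈ [fS 10], 0 < e.val [x, y, s, r] := by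
  have h : chkT ([fS 10]) 24
      8
      [V.of 10000 0 100, V.of 10000 0 5600, V.of 10000 0 2500, V.of 10000 0 1045] =
        true := by
    decide +kernel
  exact chkT4 h (by norm_num) (by push_cast; linarith only [a0]) (by push_cast; linarith only [b0])
    (by push_cast; linarith only [a1]) (by push_cast; linarith only [b1]) (by push_cast; linarith only [a2])
    (by push_cast; linarith only [b2]) (by push_cast; linarith only [a3]) (by push_cast; linarith only [b3])

end LRC

namespace LR

open LRC

variable {m x s ρ : ℝ} {w ζ : ℂ}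

/-- **Flat part.** -/
theorem rr_flat (hw : W x m w) (hz : ZF ζ) (hm : 0 ≤ m) (hm' : m ≤ 56 / 100)
    (hx : x ≤ 1 / 10) : 0 < S4 m w ζ := by
  have x0 := hw.pos
  have z0 := hz.lo
  have z1 := hz.hi
  have z2 := hz.pos
  have z3 := hz.cap
  exact keyF hw hz hm hx
    (fun h => fa (by linarith only [h]) (by linarith only [hx]) hm (by linarith only [hm']) (by linarith only [z1]) (by linarith only [z0])
      (by linarith only [z2]) (by linarith only [z3]))
    (fun h => fb (by linarith only [x0]) (by linarith only [h]) hm (by linarith only [hm']) (by linarith only [z1]) (by linarith only [z0])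
      (by linarith only [z2]) (by linarith only [z3]))

/-- **Ramp, `b = 4`, other hinge `≤ 1/2`.** -/
theorem rr_P4 (hw : W x m w) (hz : ZR s ρ ζ) (hρ : ρ ≤ 1045 / 10000) (hm : 0 ≤ m)
    (hm' : m ≤ 56 / 100) (hx : x ≤ 1 / 10) (hF : FP 4 s ρ w ζ) : 0 < S4 m w ζ := by
  have x0 := hw.pos
  have s0 := hz.lo
  have s1 := hz.hi
  have r0 := hz.pos
  unfold FP at hF
  unfold gE at hF
  split_ifs at hF with h12
  · have hR : Dm (4 * ρ) w ζ ≤ (RG gg1 4).val [x, m, s, ρ] := by
      simp only [RG, RX, gg1, gg2, LRC.hb, E.val, NumI.lkR]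
      push_cast
      linarith only [hF]
    rcases le_total (1 / 100) x with h | h
    · refine key hw hz hm hx hR (fun _ _ _ => ?_) (fun _ _ h5 => ?_) (fun _ _ => ?_) (fun _ _ => ?_)
        (fun _ _ h5 => ?_)
      · exact q4a (by linarith only [h]) (by linarith only [hx]) hm (by linarith only [hm']) (by linarith only [s0])
          (by linarith only [h12]) (by linarith only [r0]) (by linarith only [hρ])
      · exact q4e (by linarith only [h]) (by linarith only [hx]) hm (by linarith only [hm']) (by linarith only [s0])
          (by linarith only [h12]) (by linarith only [r0]) (by linarith only [hρ])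
      · exact q4b (by linarith only [h]) (by linarith only [hx]) hm (by linarith only [hm']) (by linarith only [s0])
          (by linarith only [h12]) (by linarith only [r0]) (by linarith only [hρ])
      · exact q4c (by linarith only [h]) (by linarith only [hx]) hm (by linarith only [hm']) (by linarith only [s0])
          (by linarith only [h12]) (by linarith only [r0]) (by linarith only [hρ])
      · exact q4d (by linarith only [h]) (by linarith only [hx]) hm (by linarith only [hm']) (by linarith only [s0])
          (by linarith only [h12]) (by linarith only [r0]) (by linarith only [hρ])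
    · refine keyS (n := 10) hw hz hm (by push_cast; linarith only [h]) (by norm_num) hR (fun _ => ?_)
        (fun _ => ?_)
      · exact q4f (by linarith only [x0]) (by linarith only [h]) hm (by linarith only [hm']) (by linarith only [s0])
          (by linarith only [h12]) (by linarith only [r0]) (by linarith only [hρ])
      · exact q4g (by linarith only [x0]) (by linarith only [h]) hm (by linarith only [hm']) (by linarith only [s0])
          (by linarith only [h12]) (by linarith only [r0]) (by linarith only [hρ])
  · have hR : Dm (4 * ρ) w ζ ≤ (RG gg2 4).val [x, m, s, ρ] := by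
      simp only [RG, RX, gg1, gg2, LRC.hb, E.val, NumI.lkR]
      push_cast
      linarith only [hF]
    rcases le_total (1 / 100) x with h | h
    · refine key hw hz hm hx hR (fun _ _ _ => ?_) (fun _ _ h5 => ?_) (fun _ _ => ?_) (fun _ _ => ?_)
        (fun _ _ h5 => ?_)
      · exact t4a (by linarith only [h]) (by linarith only [hx]) hm (by linarith only [hm']) (by linarith only [h12])
          (by linarith only [s1]) (by linarith only [r0]) (by linarith only [hρ])
      · exfalso
        linarith only [hx, x0, h12, h5]
      · exact t4b (by linarith only [h]) (by linarith only [hx]) hm (by linarith only [hm']) (by linarith only [h12])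
          (by linarith only [s1]) (by linarith only [r0]) (by linarith only [hρ])
      · exact t4c (by linarith only [h]) (by linarith only [hx]) hm (by linarith only [hm']) (by linarith only [h12])
          (by linarith only [s1]) (by linarith only [r0]) (by linarith only [hρ])
      · exfalso
        linarith only [hx, x0, h12, h5]
    · refine keyS (n := 10) hw hz hm (by push_cast; linarith only [h]) (by norm_num) hR (fun _ => ?_)
        (fun _ => ?_)
      · exact t4f (by linarith only [x0]) (by linarith only [h]) hm (by linarith only [hm']) (by linarith only [h12])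
          (by linarith only [s1]) (by linarith only [r0]) (by linarith only [hρ])
      · exact t4g (by linarith only [x0]) (by linarith only [h]) hm (by linarith only [hm']) (by linarith only [h12])
          (by linarith only [s1]) (by linarith only [r0]) (by linarith only [hρ])

/-- **Ramp, `b ≥ 5`, other hinge `≤ 1/2`.** -/
theorem rr_P5 (hw : W x m w) (hz : ZR s ρ ζ) (hρ : ρ ≤ 725 / 10000) (hm : 0 ≤ m)
    (hm' : m ≤ 465 / 1000) (hx : x ≤ 1 / 10) (hF : FP 5 s ρ w ζ) : 0 < S4 m w ζ := by
  have x0 := hw.pos
  have s0 := hz.lo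
  have s1 := hz.hi
  have r0 := hz.pos
  unfold FP at hF
  unfold gE at hF
  split_ifs at hF with h12
  · have hR : Dm (4 * ρ) w ζ ≤ (RG gg1 5).val [x, m, s, ρ] := by
      simp only [RG, RX, gg1, gg2, LRC.hb, E.val, NumI.lkR]
      push_cast
      linarith only [hF]
    rcases le_total (1 / 100) x with h | h
    · refine key hw hz hm hx hR (fun _ _ _ => ?_) (fun _ _ h5 => ?_) (fun _ _ => ?_) (fun _ _ => ?_)
        (fun _ _ h5 => ?_)
      · exact q5a (by linarith only [h]) (by linarith only [hx]) hm (by linarith only [hm']) (by linarith only [s0])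
          (by linarith only [h12]) (by linarith only [r0]) (by linarith only [hρ])
      · exact q5e (by linarith only [h]) (by linarith only [hx]) hm (by linarith only [hm']) (by linarith only [s0])
          (by linarith only [h12]) (by linarith only [r0]) (by linarith only [hρ])
      · exact q5b (by linarith only [h]) (by linarith only [hx]) hm (by linarith only [hm']) (by linarith only [s0])
          (by linarith only [h12]) (by linarith only [r0]) (by linarith only [hρ])
      · exact q5c (by linarith only [h]) (by linarith only [hx]) hm (by linarith only [hm']) (by linarith only [s0])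
          (by linarith only [h12]) (by linarith only [r0]) (by linarith only [hρ])
      · exact q5d (by linarith only [h]) (by linarith only [hx]) hm (by linarith only [hm']) (by linarith only [s0])
          (by linarith only [h12]) (by linarith only [r0]) (by linarith only [hρ])
    · refine keyS (n := 10) hw hz hm (by push_cast; linarith only [h]) (by norm_num) hR (fun _ => ?_)
        (fun _ => ?_)
      · exact q5f (by linarith only [x0]) (by linarith only [h]) hm (by linarith only [hm']) (by linarith only [s0])
          (by linarith only [h12]) (by linarith only [r0]) (by linarith only [hρ])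
      · exact q5g (by linarith only [x0]) (by linarith only [h]) hm (by linarith only [hm']) (by linarith only [s0])
          (by linarith only [h12]) (by linarith only [r0]) (by linarith only [hρ])
  · have hR : Dm (4 * ρ) w ζ ≤ (RG gg2 5).val [x, m, s, ρ] := by
      simp only [RG, RX, gg1, gg2, LRC.hb, E.val, NumI.lkR]
      push_cast
      linarith only [hF]
    rcases le_total (1 / 100) x with h | h
    · refine key hw hz hm hx hR (fun _ _ _ => ?_) (fun _ _ h5 => ?_) (fun _ _ => ?_) (fun _ _ => ?_)
        (fun _ _ h5 => ?_)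
      · exact t5a (by linarith only [h]) (by linarith only [hx]) hm (by linarith only [hm']) (by linarith only [h12])
          (by linarith only [s1]) (by linarith only [r0]) (by linarith only [hρ])
      · exfalso
        linarith only [hρ, hx, r0, h12, h5]
      · exact t5b (by linarith only [h]) (by linarith only [hx]) hm (by linarith only [hm']) (by linarith only [h12])
          (by linarith only [s1]) (by linarith only [r0]) (by linarith only [hρ])
      · exact t5c (by linarith only [h]) (by linarith only [hx]) hm (by linarith only [hm']) (by linarith only [h12])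
          (by linarith only [s1]) (by linarith only [r0]) (by linarith only [hρ])
      · exfalso
        linarith only [hρ, hx, r0, h12, h5]
    · refine keyS (n := 10) hw hz hm (by push_cast; linarith only [h]) (by norm_num) hR (fun _ => ?_)
        (fun _ => ?_)
      · exact t5f (by linarith only [x0]) (by linarith only [h]) hm (by linarith only [hm']) (by linarith only [h12])
          (by linarith only [s1]) (by linarith only [r0]) (by linarith only [hρ])
      · exact t5g (by linarith only [x0]) (by linarith only [h]) hm (by linarith only [hm']) (by linarith only [h12])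
          (by linarith only [s1]) (by linarith only [r0]) (by linarith only [hρ])

/-- **Ramp, `b = 4`, any other hinge.** -/
theorem rr_X4 (hw : W x m w) (hz : ZR s ρ ζ) (hρ : ρ ≤ 1045 / 10000) (hm : 0 ≤ m)
    (hm' : m ≤ 56 / 100) (hx : x ≤ 1 / 10) (hF : FX 4 s ρ w ζ) : 0 < S4 m w ζ := by
  have x0 := hw.pos
  have s0 := hz.lo
  have s1 := hz.hi
  have r0 := hz.pos
  unfold FX at hF
  have hR : Dm (4 * ρ) w ζ ≤ (RX 4).val [x, m, s, ρ] := by
    simp only [RG, RX, gg1, gg2, LRC.hb, E.val, NumI.lkR]
    push_cast
    linarith only [hF]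
  rcases le_total (1 / 100) x with h | h
  · refine key hw hz hm hx hR (fun _ _ _ => ?_) (fun _ _ h5 => ?_) (fun _ _ => ?_) (fun _ _ => ?_)
      (fun _ _ h5 => ?_)
    · exact x4a (by linarith only [h]) (by linarith only [hx]) hm (by linarith only [hm']) (by linarith only [s0])
        (by linarith only [s1]) (by linarith only [r0]) (by linarith only [hρ])
    · exact x4e (by linarith only [h]) (by linarith only [hx]) hm (by linarith only [hm']) (by linarith only [s0])
        (by linarith only [s1]) (by linarith only [r0]) (by linarith only [hρ])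
    · exact x4b (by linarith only [h]) (by linarith only [hx]) hm (by linarith only [hm']) (by linarith only [s0])
        (by linarith only [s1]) (by linarith only [r0]) (by linarith only [hρ])
    · exact x4c (by linarith only [h]) (by linarith only [hx]) hm (by linarith only [hm']) (by linarith only [s0])
        (by linarith only [s1]) (by linarith only [r0]) (by linarith only [hρ])
    · exact x4d (by linarith only [h]) (by linarith only [hx]) hm (by linarith only [hm']) (by linarith only [s0])
        (by linarith only [s1]) (by linarith only [r0]) (by linarith only [hρ])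
  · refine keyS (n := 10) hw hz hm (by push_cast; linarith only [h]) (by norm_num) hR (fun _ => ?_)
      (fun _ => ?_)
    · exact x4f (by linarith only [x0]) (by linarith only [h]) hm (by linarith only [hm']) (by linarith only [s0])
        (by linarith only [s1]) (by linarith only [r0]) (by linarith only [hρ])
    · exact x4g (by linarith only [x0]) (by linarith only [h]) hm (by linarith only [hm']) (by linarith only [s0])
        (by linarith only [s1]) (by linarith only [r0]) (by linarith only [hρ])

/-- **Ramp, `b ≥ 5`, any other hinge.** -/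
theorem rr_X5 (hw : W x m w) (hz : ZR s ρ ζ) (hρ : ρ ≤ 725 / 10000) (hm : 0 ≤ m)
    (hm' : m ≤ 465 / 1000) (hx : x ≤ 1 / 10) (hF : FX 5 s ρ w ζ) : 0 < S4 m w ζ := by
  have x0 := hw.pos
  have s0 := hz.lo
  have s1 := hz.hi
  have r0 := hz.pos
  unfold FX at hF
  have hR : Dm (4 * ρ) w ζ ≤ (RX 5).val [x, m, s, ρ] := by
    simp only [RG, RX, gg1, gg2, LRC.hb, E.val, NumI.lkR]
    push_cast
    linarith only [hF]
  rcases le_total (1 / 100) x with h | h
  · refine key hw hz hm hx hR (fun _ _ _ => ?_) (fun _ _ h5 => ?_) (fun _ _ => ?_) (fun _ _ => ?_)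
      (fun _ _ h5 => ?_)
    · exact x5a (by linarith only [h]) (by linarith only [hx]) hm (by linarith only [hm']) (by linarith only [s0])
        (by linarith only [s1]) (by linarith only [r0]) (by linarith only [hρ])
    · exact x5e (by linarith only [h]) (by linarith only [hx]) hm (by linarith only [hm']) (by linarith only [s0])
        (by linarith only [s1]) (by linarith only [r0]) (by linarith only [hρ])
    · exact x5b (by linarith only [h]) (by linarith only [hx]) hm (by linarith only [hm']) (by linarith only [s0])
        (by linarith only [s1]) (by linarith only [r0]) (by linarith only [hρ])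
    · exact x5c (by linarith only [h]) (by linarith only [hx]) hm (by linarith only [hm']) (by linarith only [s0])
        (by linarith only [s1]) (by linarith only [r0]) (by linarith only [hρ])
    · exact x5d (by linarith only [h]) (by linarith only [hx]) hm (by linarith only [hm']) (by linarith only [s0])
        (by linarith only [s1]) (by linarith only [r0]) (by linarith only [hρ])
  · refine keyS (n := 10) hw hz hm (by push_cast; linarith only [h]) (by norm_num) hR (fun _ => ?_)
      (fun _ => ?_)
    · exact x5f (by linarith only [x0]) (by linarith only [h]) hm (by linarith only [hm']) (by linarith only [s0])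
        (by linarith only [s1]) (by linarith only [r0]) (by linarith only [hρ])
    · exact x5g (by linarith only [x0]) (by linarith only [h]) hm (by linarith only [hm']) (by linarith only [s0])
        (by linarith only [s1]) (by linarith only [r0]) (by linarith only [hρ])

/-- first order condition if the gap of the other hinge is nonnegative -/
def FP0 (b s ρ : ℝ) (w ζ : ℂ) : Prop :=
  -(4 * Real.pi * ρ * (2 - b * (1 - 4 * s))) + Dm (4 * ρ) w ζ ≤ 0

theorem FP0.fp {b : ℝ} (hz : ZR s ρ ζ) (h : FP0 b s ρ w ζ) : FP b s ρ w ζ := by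
  have s0 := hz.lo
  have s1 := hz.hi
  have r0 := hz.pos
  refine h.trans ?_
  apply mul_nonneg (by positivity)
  unfold gE
  split_ifs
  · norm_num
  · nlinarith only [s1, s0]

end LR

end Pool.Agent.Work.MP_b30479_gt.G2
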