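import Pool.Agent.Work.MP_b30479_gt.G2.LRaK
import Pool.Agent.Work.MP_b30479_gt.G2.MRX

/-!
# Left ramps of the ring|ring hinges, heights `≥ 0`: expressions

`D` is the side, `F ≤ 0` the first order condition of the ring variable; in `D + F` the logarithm
`LL (w + 1/2 - ζ)` cancels.  Variables: `x`, `m`, `s`, `ρ`.  `v = w + 1/2 - ζ`,
`Re v = 1 - (s - x)`, `Im v = m x - 4 ρ s`, `c = m - 4 ρ`.
-/

namespace Pool.Agent.Work.MP_b30479_gt.G2

open VOL NumU

namespace LRC

open LR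

section
open NumU.E

def cT : E := mul (var 1) (var 0)
def cH : E := mul (mul (q 4 1) (var 3)) (var 2)
def cLu : E := lnA (add (var 0) (var 2)) (add cT cH)
def cYu : E := neg (lnB (add (var 0) (var 2)) (add cT cH))
def cLv : E := lnA (sub (var 2) (var 0)) (sub cT cH)
def cB : E := lnB (sub (var 2) (var 0)) (sub cT cH)
def cLw : E := lnA (var 0) cT
def cYw : E := neg (lnB (var 0) cT)
def cLw0 (n : ℤ) : E := lnA (q n 1000) (mul (var 1) (q n 1000))
/-- `c = m - 4 ρ` -/
def cc : E := sub (var 1) (mul (q 4 1) (var 3))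
/-- `D + F` without `c YY v` -/
def cG0 (R : E) : E := sub (sub (add (mul (q 2 1) (sub cLu cLw))
  (mul (add (var 1) (mul (q 4 1) (var 3))) cYu)) (mul (var 1) (mul (q 2 1) cYw))) R
def cG (R yv : E) : E := add (cG0 R) (mul cc yv)
def cD (yv : E) : E := add (sub (add cLu cLv) (mul (q 2 1) cLw))
  (mul (var 1) (sub (add cYu yv) (mul (q 2 1) cYw)))
def cD0 : E := add (sub (add cLu cLv) (mul (q 2 1) cLw))
  (mul (var 1) (sub cYu (mul (q 2 1) cYw)))
def sG0 (n : ℤ) (R : E) : E := sub (add (mul (q 2 1) (sub cLu (cLw0 n)))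
  (mul (add (var 1) (mul (q 4 1) (var 3))) cYu)) R
def sG (n : ℤ) (R yv : E) : E := add (sG0 n R) (mul cc yv)
def sD (n : ℤ) (yv : E) : E := add (sub (add cLu cLv) (mul (q 2 1) (cLw0 n)))
  (mul (var 1) (add cYu yv))
def hb (b : ℤ) : E := sub (q 2 1) (mul (q b 1) (sub (q 1 1) (mul (q 4 1) (var 2))))
def gg1 : E := q 1 1
def gg2 : E := sub (q 107 100) (mul (q 17 1) (sq (var 2)))
def RG (g : E) (b : ℤ) : E := mul (mul (mul (q 4 1) E.pi) (var 3)) (add (hb b) g)
def RX (b : ℤ) : E := add (mul (mul (mul (q 4 1) E.pi) (var 3)) (hb b)) (mul (q 45 10) (var 2))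
def ehp : E := mul (q 1 2) E.pi
/-- `Im v` -/
def iv : E := sub cT cH
/-- `Im v ≤ 0`, `c ≤ 0`, `x ≤ s` -/
def l1a (R : E) : List E := [cG R cB, cG0 R, cD cB, iv, cc, sub (var 0) (var 2)]
/-- `Im v ≤ 0`, `c ≤ 0`, `s ≤ x` -/
def l1c (R : E) : List E := [cG R cB, cG0 R, cD (neg E.pi), iv, cc, sub (var 2) (var 0)]
/-- `Im v ≤ 0`, `0 ≤ c` -/
def l1b (R : E) : List E := [cG R cB, cG R (neg ehp), cD cB, iv, neg cc, sub (var 0) (var 2)]
/-- `0 ≤ Im v`, `0 ≤ c` -/
def l2 (R : E) : List E := [cG R cB, cG0 R, cD cB, cD0, neg iv, neg cc]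
/-- `0 ≤ Im v`, `c ≤ 0` -/
def l3 (R : E) : List E := [cG R E.pi, cD0, neg iv, cc, sub (var 2) (var 0)]
/-- `Im v ≤ 0`, small `x` -/
def s1 (n : ℤ) (R : E) : List E := [sG n R cB, sD n cB, iv]
/-- `0 ≤ Im v`, small `x` -/
def s2 (n : ℤ) (R : E) : List E := [sG n R cB, sG0 n R, sD n cB, neg iv, neg cc]

def fLu : E := lnA (sub (add (var 0) (q 1 2)) (var 2)) (add cT (var 3))
def fYu : E := neg (lnB (sub (add (var 0) (q 1 2)) (var 2)) (add cT (var 3)))
def fLv : E := lnA (add (add (var 0) (q 1 2)) (var 2)) (sub cT (var 3))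
def fYv : E := neg (lnB (add (add (var 0) (q 1 2)) (var 2)) (sub cT (var 3)))
/-- flat part -/
def fD : E := add (sub (add fLu fLv) (mul (q 2 1) cLw))
  (mul (var 1) (sub (add fYu fYv) (mul (q 2 1) cYw)))
def fS (n : ℤ) : E := add (sub (add fLu fLv) (mul (q 2 1) (cLw0 n))) (mul (var 1) (add fYu fYv))

end

variable {m x s ρ : ℝ} {w ζ : ℂ}

theorem lnB_nonneg {x t : ℝ} (h0 : 0 < x) (h1 : x ≤ 1 / 2) (h2 : 0 ≤ t) : 0 ≤ NumI.lnB x t := by
  have hp := Real.pi_pos
  unfold NumI.lnB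
  rw [Real.arctan_nonneg]
  apply div_nonneg
  · apply mul_nonneg
    · apply Real.cos_nonneg_of_neg_pi_div_two_le_of_le <;> nlinarith only [hp, h0, h1]
    · exact Real.sinh_nonneg_iff.2 (by positivity)
  · apply mul_nonneg
    · exact (Real.sin_pos_of_pos_of_lt_pi (by positivity) (by nlinarith only [hp, h1])).le
    · exact (Real.cosh_pos _).le

/-- what is known about `YY v` near `Re v = 1` -/
theorem YY_neg_im {v : ℂ} {d h : ℝ} (hre : v.re = 1 - d) (him : v.im = h) (h0 : h ≤ 0)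
    (hd : |d| < 1 / 2) : YY v ≤ NumI.lnB d h ∧ YY v ≤ 0 ∧ (0 < d → YY v = NumI.lnB d h) := by
  have hd' := abs_lt.1 hd
  rcases h0.lt_or_eq with h1 | h1
  · have e := LRA.YY_le_form (v := v) (d := d) (h := -h) hre (by rw [him]; ring) (by linarith only [h1]) hd
    rw [LRA.lnB_odd', neg_neg] at e
    refine ⟨e, ?_, ?_⟩
    · rw [YY_neg (by rw [him]; linarith only [h1])]
      have := half_le_Tr (s := -v.im) (x := v.re) (by rw [him]; linarith only [h1]) (by rw [hre]; linarith only [hd'])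
      linarith only [this]
    · intro h3
      rcases LRA.YY_cases (v := v) (d := d) (h := -h) hre (by rw [him]; ring) (by linarith only [h1]) hd with
        ⟨_, h4⟩ | ⟨h4, _⟩ | ⟨h4, _⟩
      · rw [h4, LRA.lnB_odd', neg_neg]
      · linarith only [h3, h4]
      · linarith only [h3, h4]
  · have hz : YY v = 0 := YY_zero (by rw [him, h1])
    have hl : NumI.lnB d h = 0 := by
      rw [h1]
      unfold NumI.lnB
      simp
    rw [hz, hl]
    exact ⟨le_rfl, le_rfl, fun _ => rfl⟩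

theorem YY_pos_im {v : ℂ} {d h : ℝ} (hre : v.re = 1 - d) (him : v.im = h) (h0 : 0 ≤ h)
    (hd : |d| < 1 / 2) : NumI.lnB d h ≤ YY v ∧ 0 ≤ YY v := by
  obtain ⟨h1, h2, -⟩ := YY_neg_im (v := starRingEnd ℂ v) (d := d) (h := -h) (by simpa using hre)
    (by simp [him]) (by linarith only [h0]) hd
  rw [YY_conj, LRA.lnB_odd'] at h1
  rw [YY_conj] at h2
  constructor <;> linarith only [h1, h2]

/-- the numbers which occur -/
structure PV (x m s ρ : ℝ) (w ζ : ℂ) (LU YU LV YV LW YW : ℝ) : Prop where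
  D : S4 m w ζ = LU + LV - 2 * LW + m * (YU + YV - 2 * YW)
  F : Dm (4 * ρ) w ζ = LU + 4 * ρ * YU - (LV + 4 * ρ * YV)
  lu : cLu.val [x, m, s, ρ] = LU
  yu : cYu.val [x, m, s, ρ] = YU
  lw : cLw.val [x, m, s, ρ] = LW
  yw : cYw.val [x, m, s, ρ] = YW
  lv : cLv.val [x, m, s, ρ] = LV
  yn : m * x - 4 * ρ * s ≤ 0 → YV ≤ cB.val [x, m, s, ρ] ∧ YV ≤ 0 ∧
    (x < s → YV = cB.val [x, m, s, ρ])
  yp : 0 ≤ m * x - 4 * ρ * s → cB.val [x, m, s, ρ] ≤ YV ∧ 0 ≤ YV
  ypi : |YV| ≤ Real.pi
  yw0 : YW ≤ 0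
  yb : -(Real.pi / 2) ≤ cB.val [x, m, s, ρ]

theorem pv (hw : W x m w) (hz : ZR s ρ ζ) (hm : 0 ≤ m) (hx : x ≤ 1 / 10) :
    PV x m s ρ w ζ (LL (w + 1 / 2 + ζ)) (YY (w + 1 / 2 + ζ)) (LL (w + 1 / 2 - ζ))
      (YY (w + 1 / 2 - ζ)) (LL w) (YY w) := by
  have hp := Real.pi_pos
  have x0 := hw.pos
  have s0 := hz.lo
  have s1 := hz.hi
  have r0 := hz.pos
  have ure : (w + 1 / 2 + ζ).re = x + s := by simp [hw.re, hz.re]
  have uim : (w + 1 / 2 + ζ).im = m * x + 4 * ρ * s := by simp [hw.im, hz.im]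
  have vre : (w + 1 / 2 - ζ).re = 1 - (s - x) := by simp [hw.re, hz.re]; ring
  have vim : (w + 1 / 2 - ζ).im = m * x - 4 * ρ * s := by simp [hw.im, hz.im]
  have hd : |s - x| < 1 / 2 := by
    rw [abs_lt]
    constructor <;> linarith only [hx, x0, s0, s1]
  have us : w + 1 / 2 + ζ ∈ strip := by
    constructor
    · rw [ure]; linarith only [hx, x0, s0]
    · rw [ure]; linarith only [hx, x0, s1]
  have ws : w ∈ strip := by
    constructor
    · rw [hw.re]; linarith only [x0]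
    · rw [hw.re]; linarith only [hx, x0]
  have tv : cT.val [x, m, s, ρ] = m * x := by
    simp only [cT, E.val, NumI.lkR]
  have hv : cH.val [x, m, s, ρ] = 4 * ρ * s := by
    simp only [cH, E.val, NumI.lkR]
    push_cast
    ring
  have hB : cB.val [x, m, s, ρ] = NumI.lnB (s - x) (m * x - 4 * ρ * s) := by
    simp only [cB, E.val, tv, hv, NumI.lkR]
  refine ⟨rfl, ?_, ?_, ?_, ?_, ?_, ?_, ?_, ?_, ?_, ?_, ?_⟩
  · unfold Dm Dq
    ring
  · rw [LRA.LL_lnA', ure, uim]
    simp only [cLu, E.val, tv, hv, NumI.lkR]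
  · rw [Num.YY_lnB us, ure, uim]
    simp only [cYu, E.val, tv, hv, NumI.lkR]
  · rw [LRA.LL_lnA', hw.re, hw.im]
    simp only [cLw, E.val, tv, NumI.lkR]
  · rw [Num.YY_lnB ws, hw.re, hw.im]
    simp only [cYw, E.val, tv, NumI.lkR]
  · rw [LRA.LL_lnA', vre, vim]
    simp only [cLv, E.val, tv, hv, NumI.lkR]
    rw [LRA.lnA_cosh, LRA.lnA_cosh,
      show 2 * Real.pi * (1 - (s - x)) = 2 * Real.pi - 2 * Real.pi * (s - x) by ring,
      Real.cos_two_pi_sub]
  · intro h
    obtain ⟨h1, h2, h3⟩ := YY_neg_im vre vim h hd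
    rw [hB]
    exact ⟨h1, h2, fun h4 => h3 (by linarith only [h4])⟩
  · intro h
    rw [hB]
    exact YY_pos_im vre vim h hd
  · exact MR.YY_abs_pi (by rw [vre]; linarith only [hx, x0, s1]) (by rw [vre]; linarith only [hx, x0, s0])
  · rw [Num.YY_lnB ws, hw.re, hw.im]
    have := lnB_nonneg x0 (by linarith only [hx, x0]) (mul_nonneg hm x0.le)
    linarith only [this]
  · rw [hB]
    have := MR.lnB_abs (s - x) (m * x - 4 * ρ * s)
    exact (abs_le.1 this).1

/-- the values of the expressions -/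
theorem vals {R : E} {LU YU LV YV LW YW : ℝ} (P : PV x m s ρ w ζ LU YU LV YV LW YW) :
    iv.val [x, m, s, ρ] = m * x - 4 * ρ * s ∧ cc.val [x, m, s, ρ] = m - 4 * ρ ∧
    (cG0 R).val [x, m, s, ρ] = 2 * (LU - LW) + (m + 4 * ρ) * YU - m * (2 * YW) -
      R.val [x, m, s, ρ] ∧
    (∀ yv : E, (cG R yv).val [x, m, s, ρ] = 2 * (LU - LW) + (m + 4 * ρ) * YU -
      m * (2 * YW) - R.val [x, m, s, ρ] + (m - 4 * ρ) * yv.val [x, m, s, ρ]) ∧
    (∀ yv : E, (cD yv).val [x, m, s, ρ] = LU + LV - 2 * LW +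
      m * (YU + yv.val [x, m, s, ρ] - 2 * YW)) ∧
    cD0.val [x, m, s, ρ] = LU + LV - 2 * LW + m * (YU - 2 * YW) := by
  obtain ⟨hD, hF', lu, yu, lw, yw, lv, yn, yp, ypi, yw0, yb⟩ := P
  have eiv : iv.val [x, m, s, ρ] = m * x - 4 * ρ * s := by
    simp only [iv, cT, cH, E.val, NumI.lkR]
    push_cast
    ring
  have ecc : cc.val [x, m, s, ρ] = m - 4 * ρ := by
    simp only [cc, E.val, NumI.lkR]
    push_cast
    ring
  have eG0 : (cG0 R).val [x, m, s, ρ] = 2 * (LU - LW) + (m + 4 * ρ) * YU - m * (2 * YW) -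
      R.val [x, m, s, ρ] := by
    simp only [cG0, E.val, lu, yu, lw, yw, NumI.lkR]
    push_cast
    ring
  have eG : ∀ yv : E, (cG R yv).val [x, m, s, ρ] = 2 * (LU - LW) + (m + 4 * ρ) * YU -
      m * (2 * YW) - R.val [x, m, s, ρ] + (m - 4 * ρ) * yv.val [x, m, s, ρ] := by
    intro yv
    have : (cG R yv).val [x, m, s, ρ] = (cG0 R).val [x, m, s, ρ] +
      cc.val [x, m, s, ρ] * yv.val [x, m, s, ρ] := rfl
    rw [this, eG0, ecc]
  have eDD : ∀ yv : E, (cD yv).val [x, m, s, ρ] = LU + LV - 2 * LW +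
      m * (YU + yv.val [x, m, s, ρ] - 2 * YW) := by
    intro yv
    simp only [cD, E.val, lu, yu, lw, yw, lv, NumI.lkR]
    push_cast
    ring
  have eD0 : cD0.val [x, m, s, ρ] = LU + LV - 2 * LW + m * (YU - 2 * YW) := by
    simp only [cD0, E.val, lu, yu, lw, yw, lv, NumI.lkR]
    push_cast
    ring
  exact ⟨eiv, ecc, eG0, eG, eDD, eD0⟩

/-- **The lists for `x ≥ 1 / 100`.** -/
theorem key {R : E} (hw : W x m w) (hz : ZR s ρ ζ) (hm : 0 ≤ m) (hx : x ≤ 1 / 10)
    (hF : Dm (4 * ρ) w ζ ≤ R.val [x, m, s, ρ])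
    (h1 : m * x - 4 * ρ * s ≤ 0 → m - 4 * ρ ≤ 0 → x < s →
      ∃ e ∈ l1a R, 0 < e.val [x, m, s, ρ])
    (h2 : m * x - 4 * ρ * s ≤ 0 → m - 4 * ρ ≤ 0 → s ≤ x →
      ∃ e ∈ l1c R, 0 < e.val [x, m, s, ρ])
    (h3 : m * x - 4 * ρ * s ≤ 0 → 0 ≤ m - 4 * ρ →
      ∃ e ∈ l1b R, 0 < e.val [x, m, s, ρ])
    (h4 : 0 ≤ m * x - 4 * ρ * s → 0 ≤ m - 4 * ρ →
      ∃ e ∈ l2 R, 0 < e.val [x, m, s, ρ])
    (h5 : 0 ≤ m * x - 4 * ρ * s → m - 4 * ρ ≤ 0 → s ≤ x →
      ∃ e ∈ l3 R, 0 < e.val [x, m, s, ρ]) : 0 < S4 m w ζ := by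
  have P := pv hw hz hm hx
  obtain ⟨eiv, ecc, eG0, eG, eDD, eD0⟩ := vals (R := R) P
  obtain ⟨hD, hF', lu, yu, lw, yw, lv, yn, yp, ypi, yw0, yb⟩ := P
  rw [hF'] at hF
  rw [hD]
  set LU := LL (w + 1 / 2 + ζ)
  set YU := YY (w + 1 / 2 + ζ)
  set LV := LL (w + 1 / 2 - ζ)
  set YV := YY (w + 1 / 2 - ζ)
  set LW := LL w
  set YW := YY w
  have r0 := hz.pos
  have s0 := hz.lo
  have x0 := hw.pos
  have hpi := Real.pi_pos
  have pp := abs_le.1 ypi
  have m0 : 0 ≤ m * x - 4 * ρ * s ∨ 0 ≤ m - 4 * ρ → 0 < m := by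
    rintro (h | h)
    · rcases hm.lt_or_eq with h6 | h6
      · exact h6
      · rw [← h6] at h
        have : 0 < 4 * ρ * s := by positivity
        linarith only [h, this]
    · linarith only [r0, h]
  rcases le_total (m * x - 4 * ρ * s) 0 with hi | hi
  · obtain ⟨y1, y2, y3⟩ := yn hi
    rcases le_total (m - 4 * ρ) 0 with hc | hc
    · have c1 : (m - 4 * ρ) * cB.val [x, m, s, ρ] ≤ (m - 4 * ρ) * YV :=
        mul_le_mul_of_nonpos_left y1 hc
      have c2 : 0 ≤ (m - 4 * ρ) * YV := mul_nonneg_of_nonpos_of_nonpos hc y2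
      rcases lt_or_ge x s with hxs | hxs
      · obtain ⟨e, he, hp⟩ := h1 hi hc hxs
        simp only [l1a, List.mem_cons, List.not_mem_nil, or_false] at he
        rcases he with rfl | rfl | rfl | rfl | rfl | rfl
        · rw [eG] at hp
          linarith only [hF, c1, hp]
        · rw [eG0] at hp
          linarith only [hF, c2, hp]
        · rw [eDD] at hp
          rw [y3 hxs]
          linarith only [hp]
        · rw [eiv] at hp
          linarith only [hi, hp]
        · rw [ecc] at hp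
          linarith only [hc, hp]
        · simp only [E.val, NumI.lkR] at hp
          linarith only [hxs, hp]
      · obtain ⟨e, he, hp⟩ := h2 hi hc hxs
        have c3 : m * -Real.pi ≤ m * YV := mul_le_mul_of_nonneg_left pp.1 hm
        simp only [l1c, List.mem_cons, List.not_mem_nil, or_false] at he
        rcases he with rfl | rfl | rfl | rfl | rfl | rfl
        · rw [eG] at hp
          linarith only [hF, c1, hp]
        · rw [eG0] at hp
          linarith only [hF, c2, hp]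
        · rw [eDD] at hp
          simp only [E.val] at hp
          linarith only [c3, hp]
        · rw [eiv] at hp
          linarith only [hi, hp]
        · rw [ecc] at hp
          linarith only [hc, hp]
        · simp only [E.val, NumI.lkR] at hp
          linarith only [hxs, hp]
    · have mp := m0 (Or.inr hc)
      have hB : YV = cB.val [x, m, s, ρ] := by
        rcases hi.lt_or_eq with h6 | h6
        · apply y3
          have h7 : 4 * ρ * s ≤ m * s := by
            have := mul_le_mul_of_nonneg_right hc (by linarith only [hx, s0, x0] : 0 ≤ s)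
            linarith only [this]
          by_contra h8
          have h9 := mul_le_mul_of_nonneg_left (not_lt.1 h8) mp.le
          linarith only [h6, h7, h9]
        · exact le_antisymm y1 (yp h6.ge).1
      have hxs : x ≤ s := by
        have h7 : 4 * ρ * s ≤ m * s := by
          have := mul_le_mul_of_nonneg_right hc (by linarith only [hx, s0, x0] : 0 ≤ s)
          linarith only [this]
        by_contra h8
        have h9 := mul_lt_mul_of_pos_left (not_le.1 h8) mp
        linarith only [hi, h7, h9]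
      have c1 : (m - 4 * ρ) * -(Real.pi / 2) ≤ (m - 4 * ρ) * YV := by
        rw [hB]
        exact mul_le_mul_of_nonneg_left yb hc
      obtain ⟨e, he, hp⟩ := h3 hi hc
      simp only [l1b, List.mem_cons, List.not_mem_nil, or_false] at he
      rcases he with rfl | rfl | rfl | rfl | rfl | rfl
      · rw [eG, ← hB] at hp
        linarith only [hF, hp]
      · rw [eG] at hp
        simp only [ehp, E.val] at hp
        push_cast at hp
        linarith only [hF, c1, hp]
      · rw [eDD, ← hB] at hp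
        linarith only [hp]
      · rw [eiv] at hp
        linarith only [hi, hp]
      · simp only [E.val] at hp
        rw [ecc] at hp
        linarith only [hc, hp]
      · simp only [E.val, NumI.lkR] at hp
        linarith only [hxs, hp]
  · obtain ⟨y1, y2⟩ := yp hi
    have mp := m0 (Or.inl hi)
    have c4 : 0 ≤ m * YV := mul_nonneg hm y2
    rcases le_total 0 (m - 4 * ρ) with hc | hc
    · have c1 : (m - 4 * ρ) * cB.val [x, m, s, ρ] ≤ (m - 4 * ρ) * YV :=
        mul_le_mul_of_nonneg_left y1 hc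
      have c2 : 0 ≤ (m - 4 * ρ) * YV := mul_nonneg hc y2
      have c3 : m * cB.val [x, m, s, ρ] ≤ m * YV := mul_le_mul_of_nonneg_left y1 hm
      obtain ⟨e, he, hp⟩ := h4 hi hc
      simp only [l2, List.mem_cons, List.not_mem_nil, or_false] at he
      rcases he with rfl | rfl | rfl | rfl | rfl | rfl
      · rw [eG] at hp
        linarith only [hF, c1, hp]
      · rw [eG0] at hp
        linarith only [hF, c2, hp]
      · rw [eDD] at hp
        linarith only [c3, hp]
      · rw [eD0] at hp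
        linarith only [c4, hp]
      · simp only [E.val] at hp
        rw [eiv] at hp
        linarith only [hi, hp]
      · simp only [E.val] at hp
        rw [ecc] at hp
        linarith only [hc, hp]
    · have hxs : s ≤ x := by
        have h7 : m * s ≤ 4 * ρ * s := by
          have := mul_le_mul_of_nonneg_right hc (by linarith only [hx, s0, x0] : 0 ≤ s)
          linarith only [this]
        by_contra h8
        have h9 := mul_lt_mul_of_pos_left (not_le.1 h8) mp
        linarith only [hi, h7, h9]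
      have c1 : (m - 4 * ρ) * Real.pi ≤ (m - 4 * ρ) * YV := mul_le_mul_of_nonpos_left pp.2 hc
      obtain ⟨e, he, hp⟩ := h5 hi hc hxs
      simp only [l3, List.mem_cons, List.not_mem_nil, or_false] at he
      rcases he with rfl | rfl | rfl | rfl | rfl
      · rw [eG] at hp
        simp only [E.val] at hp
        linarith only [hF, c1, hp]
      · rw [eD0] at hp
        linarith only [c4, hp]
      · simp only [E.val] at hp
        rw [eiv] at hp
        linarith only [hi, hp]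
      · rw [ecc] at hp
        linarith only [hc, hp]
      · simp only [E.val, NumI.lkR] at hp
        linarith only [hxs, hp]

/-- **The lists for small `x`.** -/
theorem keyS {R : E} {n : ℤ} (hw : W x m w) (hz : ZR s ρ ζ) (hm : 0 ≤ m)
    (hx : x ≤ (n : ℝ) / 1000) (hn : (n : ℝ) ≤ 60) (hF : Dm (4 * ρ) w ζ ≤ R.val [x, m, s, ρ])
    (h1 : m * x - 4 * ρ * s ≤ 0 → ∃ e ∈ s1 n R, 0 < e.val [x, m, s, ρ])
    (h2 : 0 ≤ m * x - 4 * ρ * s → ∃ e ∈ s2 n R, 0 < e.val [x, m, s, ρ]) :
    0 < S4 m w ζ := by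
  have P := pv hw hz hm (by linarith only [hx, hn])
  obtain ⟨eiv, ecc, -⟩ := vals (R := R) P
  obtain ⟨hD, hF', lu, yu, lw, yw, lv, yn, yp, ypi, yw0, yb⟩ := P
  have hray := LRA.lnA_ray (m := m) hw.pos hx (by linarith only [hn])
  have e1 : NumI.lnA x (m * x) = LL w := by rw [LRA.LL_lnA', hw.re, hw.im]
  have e2 : (cLw0 n).val [x, m, s, ρ] = NumI.lnA ((n : ℝ) / 1000) (m * ((n : ℝ) / 1000)) := by
    simp only [cLw0, E.val, NumI.lkR]
    push_cast
    rfl
  rw [e1, ← e2] at hray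
  rw [hF'] at hF
  rw [hD]
  set LU := LL (w + 1 / 2 + ζ)
  set YU := YY (w + 1 / 2 + ζ)
  set LV := LL (w + 1 / 2 - ζ)
  set YV := YY (w + 1 / 2 - ζ)
  set LW := LL w
  set YW := YY w
  have r0 := hz.pos
  have s0 := hz.lo
  have x0 := hw.pos
  have hxs : x < s := by linarith only [hx, hn, s0, x0]
  have c5 : m * YW ≤ 0 := mul_nonpos_of_nonneg_of_nonpos hm yw0
  have fG0 : (sG0 n R).val [x, m, s, ρ] = 2 * (LU - (cLw0 n).val [x, m, s, ρ]) +
      (m + 4 * ρ) * YU - R.val [x, m, s, ρ] := by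
    simp only [sG0, E.val, lu, yu, NumI.lkR]
    push_cast
    ring
  have fG : ∀ yv : E, (sG n R yv).val [x, m, s, ρ] = 2 * (LU - (cLw0 n).val [x, m, s, ρ]) +
      (m + 4 * ρ) * YU - R.val [x, m, s, ρ] + (m - 4 * ρ) * yv.val [x, m, s, ρ] := by
    intro yv
    have : (sG n R yv).val [x, m, s, ρ] = (sG0 n R).val [x, m, s, ρ] +
      cc.val [x, m, s, ρ] * yv.val [x, m, s, ρ] := rfl
    rw [this, fG0, ecc]
  have fD' : ∀ yv : E, (sD n yv).val [x, m, s, ρ] = LU + LV - 2 * (cLw0 n).val [x, m, s, ρ] +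
      m * (YU + yv.val [x, m, s, ρ]) := by
    intro yv
    simp only [sD, E.val, lu, yu, lv, NumI.lkR]
    push_cast
    ring
  rcases le_total (m * x - 4 * ρ * s) 0 with hi | hi
  · obtain ⟨y1, y2, y3⟩ := yn hi
    have y4 := y3 hxs
    obtain ⟨e, he, hp⟩ := h1 hi
    simp only [s1, List.mem_cons, List.not_mem_nil, or_false] at he
    rcases he with rfl | rfl | rfl
    · rw [fG, ← y4] at hp
      linarith only [hF, hray, c5, hp]
    · rw [fD', ← y4] at hp
      linarith only [hray, c5, hp]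
    · rw [eiv] at hp
      linarith only [hi, hp]
  · obtain ⟨y1, y2⟩ := yp hi
    have hc : 0 ≤ m - 4 * ρ := by
      by_contra h
      have h6 : m * x ≤ 4 * ρ * x := mul_le_mul_of_nonneg_right (by linarith only [h]) x0.le
      have h7 : 4 * ρ * x < 4 * ρ * s := mul_lt_mul_of_pos_left hxs (by positivity)
      linarith only [hi, h6, h7]
    have c1 : (m - 4 * ρ) * cB.val [x, m, s, ρ] ≤ (m - 4 * ρ) * YV :=
      mul_le_mul_of_nonneg_left y1 hc
    have c2 : 0 ≤ (m - 4 * ρ) * YV := mul_nonneg hc y2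
    have c3 : m * cB.val [x, m, s, ρ] ≤ m * YV := mul_le_mul_of_nonneg_left y1 hm
    obtain ⟨e, he, hp⟩ := h2 hi
    simp only [s2, List.mem_cons, List.not_mem_nil, or_false] at he
    rcases he with rfl | rfl | rfl | rfl | rfl
    · rw [fG] at hp
      linarith only [hF, hray, c5, c1, hp]
    · rw [fG0] at hp
      linarith only [hF, hray, c5, c2, hp]
    · rw [fD'] at hp
      linarith only [hray, c5, c3, hp]
    · simp only [E.val] at hp
      rw [eiv] at hp
      linarith only [hi, hp]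
    · simp only [E.val] at hp
      rw [ecc] at hp
      linarith only [hc, hp]

/-- **The flat part of the ring variable.** -/
theorem keyF (hw : W x m w) (hz : ZF ζ) (hm : 0 ≤ m) (hx : x ≤ 1 / 10)
    (h1 : 1 / 100 ≤ x → ∃ e ∈ [fD], 0 < e.val [x, m, -ζ.re, ζ.im])
    (h2 : x ≤ 1 / 100 → ∃ e ∈ [fS 10], 0 < e.val [x, m, -ζ.re, ζ.im]) : 0 < S4 m w ζ := by
  have x0 := hw.pos
  have z0 := hz.lo
  have z1 := hz.hi
  have ure : (w + 1 / 2 + ζ).re = x + 1 / 2 - -ζ.re := by simp [hw.re]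
  have uim : (w + 1 / 2 + ζ).im = m * x + ζ.im := by simp [hw.im]
  have vre : (w + 1 / 2 - ζ).re = x + 1 / 2 + -ζ.re := by simp [hw.re]; ring
  have vim : (w + 1 / 2 - ζ).im = m * x - ζ.im := by simp [hw.im]
  have us : w + 1 / 2 + ζ ∈ strip := by
    constructor
    · rw [ure]; linarith only [hx, x0, z0]
    · rw [ure]; linarith only [hx, x0, z1]
  have vs : w + 1 / 2 - ζ ∈ strip := by
    constructor
    · rw [vre]; linarith only [hx, x0, z1]
    · rw [vre]; linarith only [hx, x0, z0]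
  have ws : w ∈ strip := by
    constructor
    · rw [hw.re]; linarith only [x0]
    · rw [hw.re]; linarith only [hx, x0]
  have hD : S4 m w ζ = LL (w + 1 / 2 + ζ) + LL (w + 1 / 2 - ζ) - 2 * LL w +
      m * (YY (w + 1 / 2 + ζ) + YY (w + 1 / 2 - ζ) - 2 * YY w) := rfl
  rw [hD, Num.LL_lnA us, Num.LL_lnA vs, Num.LL_lnA ws, Num.YY_lnB us, Num.YY_lnB vs,
    Num.YY_lnB ws, ure, uim, vre, vim, hw.re, hw.im]
  rcases le_total (1 / 100) x with h | h
  · obtain ⟨e, he, hp⟩ := h1 h
    simp only [List.mem_cons, List.not_mem_nil, or_false] at he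
    subst he
    simp only [fD, fLu, fLv, fYu, fYv, cLw, cYw, cT, E.val, NumI.lkR] at hp
    push_cast at hp
    linarith only [hp]
  · obtain ⟨e, he, hp⟩ := h2 h
    have hray := LRA.lnA_ray (m := m) hw.pos h (by norm_num)
    have hB := lnB_nonneg x0 (by linarith only [x0, h]) (mul_nonneg hm x0.le)
    have hB' := mul_nonneg hm hB
    simp only [List.mem_cons, List.not_mem_nil, or_false] at he
    subst he
    simp only [fS, fLu, fLv, fYu, fYv, cLw0, cT, E.val, NumI.lkR] at hp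
    push_cast at hp
    norm_num at hp hray ⊢
    linarith only [hB', hp, hray]

end LRC

end Pool.Agent.Work.MP_b30479_gt.G2
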