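import Pool.Agent.Work.MP_b30479_gt.G2.LRF
import Pool.Agent.Work.NumU.Tree

/-!
# Left ramp of `1 | ring` on `145/1000 ≤ x ≤ 16/100`, ring variable on the flat part, `c = π - 4 x`
-/

set_option linter.unusedSimpArgs false
set_option linter.unusedVariables false
set_option linter.unusedTactic false

namespace Pool.Agent.Work.MP_b30479_gt.G2

open VOL

namespace LR

open NumU
open NumU.E (emb)
open NumI (V)

/-- 171 boxes -/
theorem c_flZ {x M y r : ℝ} (a0 : 1450 / 10000 ≤ x) (b0 : x ≤ 1600 / 10000)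
    (a1 : 2375 / 10000 ≤ M) (b1 : M ≤ 9875 / 10000) (a2 : 0 / 10000 ≤ y) (b2 : y ≤ 2500 / 10000)
    (a3 : 0 / 10000 ≤ r) (b3 : r ≤ 3233 / 10000) (hF : fF x M y r ≤ 0) :
    0 < fD (Real.pi - 4 * x) (-(22 / 100)) x M y r := by
  have h : chkT [(emb (.add (.sub (.add (.lnA (.sub (.add (.var 0) (.q 1 2)) (.var 2)) (.sub (.mul (.var 3)
      (.var 3)) (.mul (.var 1) (.var 0)))) (.lnA (.add (.add (.var 0) (.q 1 2)) (.var 2)) (.add
      (.mul (.var 3) (.var 3)) (.mul (.var 1) (.var 0))))) (.mul (.q 2 1) (.lnA (.var 0) (.mul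
      (.var 1) (.var 0))))) (.sub (.mul (.var 1) (.sub (.add (.sub (.lnB (.sub (.add (.var 0) (.q
      1 2)) (.var 2)) (.sub (.mul (.var 3) (.var 3)) (.mul (.var 1) (.var 0)))) (.lnB (.add (.add
      (.var 0) (.q 1 2)) (.var 2)) (.add (.mul (.var 3) (.var 3)) (.mul (.var 1) (.var 0)))))
      (.mul (.q 2 1) (.lnB (.var 0) (.mul (.var 1) (.var 0))))) (.sub .pi (.mul (.q 4 1) (.var
      0))))) (.q (-22) 100)))), (emb (.add (.add (.sub (.add (.lnA (.sub (.add (.var 0) (.q 1 2))
      (.var 2)) (.sub (.mul (.var 3) (.var 3)) (.mul (.var 1) (.var 0)))) (.lnA (.add (.add (.var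
      0) (.q 1 2)) (.var 2)) (.add (.mul (.var 3) (.var 3)) (.mul (.var 1) (.var 0))))) (.mul (.q
      2 1) (.lnA (.var 0) (.mul (.var 1) (.var 0))))) (.sub (.mul (.var 1) (.sub (.add (.sub (.lnB
      (.sub (.add (.var 0) (.q 1 2)) (.var 2)) (.sub (.mul (.var 3) (.var 3)) (.mul (.var 1) (.var
      0)))) (.lnB (.add (.add (.var 0) (.q 1 2)) (.var 2)) (.add (.mul (.var 3) (.var 3)) (.mul
      (.var 1) (.var 0))))) (.mul (.q 2 1) (.lnB (.var 0) (.mul (.var 1) (.var 0))))) (.sub .pi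
      (.mul (.q 4 1) (.var 0))))) (.q (-22) 100))) (.mul (.q 5 10) (.sub (.sub (.lnA (.sub (.add
      (.var 0) (.q 1 2)) (.var 2)) (.sub (.mul (.var 3) (.var 3)) (.mul (.var 1) (.var 0)))) (.lnA
      (.add (.add (.var 0) (.q 1 2)) (.var 2)) (.add (.mul (.var 3) (.var 3)) (.mul (.var 1) (.var
      0))))) (.mul (.q 953 100) (.var 3)))))), (emb (.add (.add (.sub (.add (.lnA (.sub (.add
      (.var 0) (.q 1 2)) (.var 2)) (.sub (.mul (.var 3) (.var 3)) (.mul (.var 1) (.var 0)))) (.lnA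
      (.add (.add (.var 0) (.q 1 2)) (.var 2)) (.add (.mul (.var 3) (.var 3)) (.mul (.var 1) (.var
      0))))) (.mul (.q 2 1) (.lnA (.var 0) (.mul (.var 1) (.var 0))))) (.sub (.mul (.var 1) (.sub
      (.add (.sub (.lnB (.sub (.add (.var 0) (.q 1 2)) (.var 2)) (.sub (.mul (.var 3) (.var 3))
      (.mul (.var 1) (.var 0)))) (.lnB (.add (.add (.var 0) (.q 1 2)) (.var 2)) (.add (.mul (.var
      3) (.var 3)) (.mul (.var 1) (.var 0))))) (.mul (.q 2 1) (.lnB (.var 0) (.mul (.var 1) (.var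
      0))))) (.sub .pi (.mul (.q 4 1) (.var 0))))) (.q (-22) 100))) (.mul (.q 10 10) (.sub (.sub
      (.lnA (.sub (.add (.var 0) (.q 1 2)) (.var 2)) (.sub (.mul (.var 3) (.var 3)) (.mul (.var 1)
      (.var 0)))) (.lnA (.add (.add (.var 0) (.q 1 2)) (.var 2)) (.add (.mul (.var 3) (.var 3))
      (.mul (.var 1) (.var 0))))) (.mul (.q 953 100) (.var 3)))))), (emb (.add (.add (.sub (.add
      (.lnA (.sub (.add (.var 0) (.q 1 2)) (.var 2)) (.sub (.mul (.var 3) (.var 3)) (.mul (.var 1)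
      (.var 0)))) (.lnA (.add (.add (.var 0) (.q 1 2)) (.var 2)) (.add (.mul (.var 3) (.var 3))
      (.mul (.var 1) (.var 0))))) (.mul (.q 2 1) (.lnA (.var 0) (.mul (.var 1) (.var 0))))) (.sub
      (.mul (.var 1) (.sub (.add (.sub (.lnB (.sub (.add (.var 0) (.q 1 2)) (.var 2)) (.sub (.mul
      (.var 3) (.var 3)) (.mul (.var 1) (.var 0)))) (.lnB (.add (.add (.var 0) (.q 1 2)) (.var 2))
      (.add (.mul (.var 3) (.var 3)) (.mul (.var 1) (.var 0))))) (.mul (.q 2 1) (.lnB (.var 0)
      (.mul (.var 1) (.var 0))))) (.sub .pi (.mul (.q 4 1) (.var 0))))) (.q (-22) 100))) (.mul (.q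
      15 10) (.sub (.sub (.lnA (.sub (.add (.var 0) (.q 1 2)) (.var 2)) (.sub (.mul (.var 3) (.var
      3)) (.mul (.var 1) (.var 0)))) (.lnA (.add (.add (.var 0) (.q 1 2)) (.var 2)) (.add (.mul
      (.var 3) (.var 3)) (.mul (.var 1) (.var 0))))) (.mul (.q 953 100) (.var 3)))))), (emb (.add
      (.add (.sub (.add (.lnA (.sub (.add (.var 0) (.q 1 2)) (.var 2)) (.sub (.mul (.var 3) (.var
      3)) (.mul (.var 1) (.var 0)))) (.lnA (.add (.add (.var 0) (.q 1 2)) (.var 2)) (.add (.mul
      (.var 3) (.var 3)) (.mul (.var 1) (.var 0))))) (.mul (.q 2 1) (.lnA (.var 0) (.mul (.var 1)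
      (.var 0))))) (.sub (.mul (.var 1) (.sub (.add (.sub (.lnB (.sub (.add (.var 0) (.q 1 2))
      (.var 2)) (.sub (.mul (.var 3) (.var 3)) (.mul (.var 1) (.var 0)))) (.lnB (.add (.add (.var
      0) (.q 1 2)) (.var 2)) (.add (.mul (.var 3) (.var 3)) (.mul (.var 1) (.var 0))))) (.mul (.q
      2 1) (.lnB (.var 0) (.mul (.var 1) (.var 0))))) (.sub .pi (.mul (.q 4 1) (.var 0))))) (.q
      (-22) 100))) (.mul (.q 20 10) (.sub (.sub (.lnA (.sub (.add (.var 0) (.q 1 2)) (.var 2))
      (.sub (.mul (.var 3) (.var 3)) (.mul (.var 1) (.var 0)))) (.lnA (.add (.add (.var 0) (.q 1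
      2)) (.var 2)) (.add (.mul (.var 3) (.var 3)) (.mul (.var 1) (.var 0))))) (.mul (.q 953 100)
      (.var 3)))))), (emb (.add (.add (.sub (.add (.lnA (.sub (.add (.var 0) (.q 1 2)) (.var 2))
      (.sub (.mul (.var 3) (.var 3)) (.mul (.var 1) (.var 0)))) (.lnA (.add (.add (.var 0) (.q 1
      2)) (.var 2)) (.add (.mul (.var 3) (.var 3)) (.mul (.var 1) (.var 0))))) (.mul (.q 2 1)
      (.lnA (.var 0) (.mul (.var 1) (.var 0))))) (.sub (.mul (.var 1) (.sub (.add (.sub (.lnB
      (.sub (.add (.var 0) (.q 1 2)) (.var 2)) (.sub (.mul (.var 3) (.var 3)) (.mul (.var 1) (.var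
      0)))) (.lnB (.add (.add (.var 0) (.q 1 2)) (.var 2)) (.add (.mul (.var 3) (.var 3)) (.mul
      (.var 1) (.var 0))))) (.mul (.q 2 1) (.lnB (.var 0) (.mul (.var 1) (.var 0))))) (.sub .pi
      (.mul (.q 4 1) (.var 0))))) (.q (-22) 100))) (.mul (.q 30 10) (.sub (.sub (.lnA (.sub (.add
      (.var 0) (.q 1 2)) (.var 2)) (.sub (.mul (.var 3) (.var 3)) (.mul (.var 1) (.var 0)))) (.lnA
      (.add (.add (.var 0) (.q 1 2)) (.var 2)) (.add (.mul (.var 3) (.var 3)) (.mul (.var 1) (.var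
      0))))) (.mul (.q 953 100) (.var 3)))))), (emb (.sub (.sub (.lnA (.sub (.add (.var 0) (.q 1
      2)) (.var 2)) (.sub (.mul (.var 3) (.var 3)) (.mul (.var 1) (.var 0)))) (.lnA (.add (.add
      (.var 0) (.q 1 2)) (.var 2)) (.add (.mul (.var 3) (.var 3)) (.mul (.var 1) (.var 0)))))
      (.mul (.q 953 100) (.var 3))))] 26
      214051831483662022969538441147315810513691224700580191383672847591316539562270582656379967315605405598595227803046565533912260691411629025648272131736232069908522358664752004350078228679097982692165302832085756509911534586459119335475138377188582945349444420983745580824315553690440963191295956723270486731371915242457425703486383193380506617975967096994966673259678880049356029656195901520810643534549299499794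
      [V.of 10000 1450 1600 0, V.of 10000 2375 9875 0, V.of 10000 0 2500 0, V.of 10000 0 3233 0] = true := by
    decide +kernel
  obtain ⟨f, hf, hp⟩ := chkT4 h (by norm_num) (x := x) (y := M) (z := y) (w := r)
    (le_trans (by norm_num) a0) (le_trans b0 (by norm_num))
    (le_trans (by norm_num) a1) (le_trans b1 (by norm_num))
    (le_trans (by norm_num) a2) (le_trans b2 (by norm_num))
    (le_trans (by norm_num) a3) (le_trans b3 (by norm_num))
  unfold fF at hF
  unfold fD
  simp only [List.mem_cons, List.not_mem_nil, or_false] at hf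
  rcases hf with rfl | rfl | rfl | rfl | rfl | rfl | rfl
  · simp only [NumU.E.val, NumI.E.val, NumI.lkR] at hp
    push_cast at hp
    try simp only [div_one] at hp
    rw [show r ^ 2 = r * r by ring] at hF ⊢
    linarith only [hp]
  · simp only [NumU.E.val, NumI.E.val, NumI.lkR] at hp
    push_cast at hp
    try simp only [div_one] at hp
    rw [show r ^ 2 = r * r by ring] at hF ⊢
    linarith only [hF, hp]
  · simp only [NumU.E.val, NumI.E.val, NumI.lkR] at hp
    push_cast at hp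
    try simp only [div_one] at hp
    rw [show r ^ 2 = r * r by ring] at hF ⊢
    linarith only [hF, hp]
  · simp only [NumU.E.val, NumI.E.val, NumI.lkR] at hp
    push_cast at hp
    try simp only [div_one] at hp
    rw [show r ^ 2 = r * r by ring] at hF ⊢
    linarith only [hF, hp]
  · simp only [NumU.E.val, NumI.E.val, NumI.lkR] at hp
    push_cast at hp
    try simp only [div_one] at hp
    rw [show r ^ 2 = r * r by ring] at hF ⊢
    linarith only [hF, hp]
  · simp only [NumU.E.val, NumI.E.val, NumI.lkR] at hp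
    push_cast at hp
    try simp only [div_one] at hp
    rw [show r ^ 2 = r * r by ring] at hF ⊢
    linarith only [hF, hp]
  · simp only [NumU.E.val, NumI.E.val, NumI.lkR] at hp
    push_cast at hp
    try simp only [div_one] at hp
    rw [show r ^ 2 = r * r by ring] at hF ⊢
    exfalso
    linarith only [hF, hp]

/-- 49 boxes -/
theorem c_flN {x M y r : ℝ} (a0 : 1450 / 10000 ≤ x) (b0 : x ≤ 1600 / 10000)
    (a1 : 2375 / 10000 ≤ M) (b1 : M ≤ 9875 / 10000) (a2 : 0 / 10000 ≤ y) (b2 : y ≤ 2050 / 10000)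
    (a3 : 0 / 10000 ≤ r) (b3 : r ≤ 3233 / 10000) :
    0 < fD (Real.pi - 4 * x) (-(22 / 100)) x M y r := by
  have h : chkT [(emb (.add (.sub (.add (.lnA (.sub (.add (.var 0) (.q 1 2)) (.var 2)) (.sub (.mul (.var 3)
      (.var 3)) (.mul (.var 1) (.var 0)))) (.lnA (.add (.add (.var 0) (.q 1 2)) (.var 2)) (.add
      (.mul (.var 3) (.var 3)) (.mul (.var 1) (.var 0))))) (.mul (.q 2 1) (.lnA (.var 0) (.mul
      (.var 1) (.var 0))))) (.sub (.mul (.var 1) (.sub (.add (.sub (.lnB (.sub (.add (.var 0) (.q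
      1 2)) (.var 2)) (.sub (.mul (.var 3) (.var 3)) (.mul (.var 1) (.var 0)))) (.lnB (.add (.add
      (.var 0) (.q 1 2)) (.var 2)) (.add (.mul (.var 3) (.var 3)) (.mul (.var 1) (.var 0)))))
      (.mul (.q 2 1) (.lnB (.var 0) (.mul (.var 1) (.var 0))))) (.sub .pi (.mul (.q 4 1) (.var
      0))))) (.q (-22) 100))))] 26
      335152791172960793534740358304270937683986214212349167526111012132846440030891724865095154259275036134461345500762898
      [V.of 10000 1450 1600 0, V.of 10000 2375 9875 0, V.of 10000 0 2050 0, V.of 10000 0 3233 0] = true := by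
    decide +kernel
  obtain ⟨f, hf, hp⟩ := chkT4 h (by norm_num) (x := x) (y := M) (z := y) (w := r)
    (le_trans (by norm_num) a0) (le_trans b0 (by norm_num))
    (le_trans (by norm_num) a1) (le_trans b1 (by norm_num))
    (le_trans (by norm_num) a2) (le_trans b2 (by norm_num))
    (le_trans (by norm_num) a3) (le_trans b3 (by norm_num))
  unfold fD
  simp only [List.mem_cons, List.not_mem_nil, or_false] at hf
  subst hf
  simp only [NumU.E.val, NumI.E.val, NumI.lkR] at hp
  push_cast at hp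
  try simp only [div_one] at hp
  rw [show r ^ 2 = r * r by ring]
  linarith only [hp]

variable {m x : ℝ} {w ζ : ℂ}

/-- ring variable on the flat part, `c = π - 4 x`; the hypotheses of `one_flatC` -/
theorem one_flatC4 {b : ℝ} (hw : W x m w) (hz : ZF ζ) (hm : m ≤ -(2375 / 10000))
    (hm' : -(9875 / 10000) ≤ m) (hx0 : 145 / 1000 ≤ x) (hx : x ≤ 16 / 100)
    (hb : b ^ 2 * ζ.im ≤ 23 / 10) (hF : -(2 * Real.pi * b * ζ.im) + Dm 0 w ζ ≤ 0) :
    -(22 / 100) ≤ S4 m w ζ + (Real.pi - 4 * x) * m := by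
  have h0 := hw.pos
  have hx4 : x < 1 / 4 := by linarith only [hx, h0]
  have hp := Real.pi_lt_d4
  have hp0 := Real.pi_pos
  have hr : Real.sqrt ζ.im ^ 2 = ζ.im := Real.sq_sqrt hz.pos.le
  have hr0 := Real.sqrt_nonneg ζ.im
  have hG : Dm 0 w ζ ≤ 953 / 100 * Real.sqrt ζ.im := by
    set r := Real.sqrt ζ.im with hrd
    rw [← hr] at hF hb
    have h1 : (2 * Real.pi * (b * r)) ^ 2 ≤ (953 / 100) ^ 2 := by
      have e : (2 * Real.pi * (b * r)) ^ 2 = 4 * Real.pi ^ 2 * (b ^ 2 * r ^ 2) := by ring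
      have e2 : Real.pi ^ 2 ≤ 3.1416 ^ 2 := pow_le_pow_left₀ hp0.le hp.le 2
      have e3 : 0 ≤ b ^ 2 * r ^ 2 := by positivity
      rw [e]
      have : 4 * Real.pi ^ 2 * (b ^ 2 * r ^ 2) ≤ 4 * 3.1416 ^ 2 * (23 / 10) :=
        mul_le_mul (by linarith only [e2]) hb e3 (by norm_num)
      refine this.trans (by norm_num)
    have h2 : 2 * Real.pi * (b * r) ≤ 953 / 100 := (abs_le.mp (abs_le_of_sq_le_sq h1 (by norm_num))).2
    have h3 : 2 * Real.pi * b * r ^ 2 = 2 * Real.pi * (b * r) * r := by ring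
    have h4 := mul_le_mul_of_nonneg_right h2 hr0
    linarith only [hF, h4]
  have hz1 := hz.lo
  have hz2 := hz.hi
  have hr1 := r_le hz hr
  have key := c_flZ (x := x) (M := -m) (y := -ζ.re) (r := Real.sqrt ζ.im) (by linarith only [hx0])
    (by linarith only [hx]) (by linarith only [hm]) (by linarith only [hm']) (by linarith only [hz2]) (by linarith only [hz1]) (by linarith only [hr0])
    (by linarith only [hr1]) (by rw [← Dm_fF hw hr]; linarith only [hG])
  rw [← S4_fD hw hz hr hx4] at key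
  linarith only [key]

/-- the same, the condition only for `σ ≤ -205/1000` -/
theorem one_flatC4S (hw : W x m w) (hz : ZF ζ) (hm : m ≤ -(2375 / 10000))
    (hm' : -(9875 / 10000) ≤ m) (hx0 : 145 / 1000 ≤ x) (hx : x ≤ 16 / 100)
    (hG : ζ.re ≤ -(205 / 1000) → Dm 0 w ζ ≤ 953 / 100 * Real.sqrt ζ.im) :
    -(22 / 100) ≤ S4 m w ζ + (Real.pi - 4 * x) * m := by
  have hx4 : x < 1 / 4 := by linarith only [hx]
  have hr : Real.sqrt ζ.im ^ 2 = ζ.im := Real.sq_sqrt hz.pos.le
  have hr0 := Real.sqrt_nonneg ζ.im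
  have hz1 := hz.lo
  have hz2 := hz.hi
  have hr1 := r_le hz hr
  rcases le_total ζ.re (-(205 / 1000)) with hs | hs
  · have hG := hG hs
    have key := c_flZ (x := x) (M := -m) (y := -ζ.re) (r := Real.sqrt ζ.im) (by linarith only [hx0])
      (by linarith only [hx]) (by linarith only [hm]) (by linarith only [hm']) (by linarith only [hz2]) (by linarith only [hz1]) (by linarith only [hr0])
      (by linarith only [hr1]) (by rw [← Dm_fF hw hr]; linarith only [hG])
    rw [← S4_fD hw hz hr hx4] at key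
    linarith only [key]
  · have key := c_flN (x := x) (M := -m) (y := -ζ.re) (r := Real.sqrt ζ.im) (by linarith only [hx0])
      (by linarith only [hx]) (by linarith only [hm]) (by linarith only [hm']) (by linarith only [hz2]) (by linarith only [hs]) (by linarith only [hr0])
      (by linarith only [hr1])
    rw [← S4_fD hw hz hr hx4] at key
    linarith only [key]

end LR

end Pool.Agent.Work.MP_b30479_gt.G2
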