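import Pool.Agent.Work.MP_b30479_gt.G2.LRaF
import Pool.Agent.Work.MP_b30479_gt.G2.LRCE

/-!
# Left ramps of the hinges of a ring: `3 | ring` for `x ≤ 7/100`, and small positive heights

`lo7_*`: heights `≤ 0`, slopes `≥ -475/1000`, shift `π/2`.  `ps_*`: slopes in `[0, 6/1000]`, four
crossings, `84/1000 ≤ ρ ≤ 895/10000`.
-/

namespace Pool.Agent.Work.MP_b30479_gt.G2

open VOL NumU

namespace LRG

open LR LRC
open NumI (V)

section
open NumU.E

/-- `YY v`, second form -/
def cB2 : E := neg (add (mul (q 1 2) E.pi) (atan (mul (mul (sinPi (sub (var 0) (var 2)))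
  (cosh (mul E.pi (sub cH cT)))) (inv (mul (cosPi (sub (var 0) (var 2)))
    (sinh (mul E.pi (sub cH cT))))))))
/-- `Im v < 0`, `c ≤ 0`, `x ≥ 1/100` -/
def lp (R : E) (k : ℤ) : List E :=
  [sub (cG R cB) (q k 1000), sub (cG R cB2) (q k 1000), sub (cD cB2) (q k 1000),
    sub (cD (neg E.pi)) (q k 1000)]
/-- the same, small `x` -/
def lpS (n : ℤ) (R : E) (k : ℤ) : List E :=
  [sub (sG n R cB) (q k 1000), sub (sD n (neg E.pi)) (q k 1000)]
/-- flat part -/
def lf (k : ℤ) : List E := [sub LRC.fD (q k 1000)]
def lfS (n k : ℤ) : List E := [sub (LRC.fS n) (q k 1000)]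

end

variable {m x s ρ : ℝ} {w ζ : ℂ}

theorem pv (hw : W x m w) (hz : ZR s ρ ζ) (hm : 0 ≤ m) (hx : x ≤ 13 / 100) :
    PV x m s ρ w ζ (LL (w + 1 / 2 + ζ)) (YY (w + 1 / 2 + ζ)) (LL (w + 1 / 2 - ζ))
      (YY (w + 1 / 2 - ζ)) (LL w) (YY w) := by
  have hp := Real.pi_pos
  have x0 := hw.pos
  have s0 := hz.lo
  have s1 := hz.hi
  have r0 := hz.pos
  have ure : (w + 1 / 2 + ζ).re = x + s := by simp [hw.re, hz.re]
  have uim : (w + 1 / 2 + ζ).im = m * x + 4 * ρ * s := by simp [hw.im, hz.im]
  have vre : (w + 1 / 2 - ζ).re = 1 - (s - x) := by simp [hw.re, hz.re]; ring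
  have vim : (w + 1 / 2 - ζ).im = m * x - 4 * ρ * s := by simp [hw.im, hz.im]
  have hd : |s - x| < 1 / 2 := by
    rw [abs_lt]
    constructor <;> linarith only [hx, x0, s0, s1]
  have us : w + 1 / 2 + ζ ∈ strip := by
    constructor
    · rw [ure]; linarith only [hx, x0, s0]
    · rw [ure]; linarith only [hx, x0, s1]
  have ws : w ∈ strip := by
    constructor
    · rw [hw.re]; linarith only [x0]
    · rw [hw.re]; linarith only [hx, x0]
  have tv : cT.val [x, m, s, ρ] = m * x := by
    simp only [cT, E.val, NumI.lkR]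
  have hv : cH.val [x, m, s, ρ] = 4 * ρ * s := by
    simp only [cH, E.val, NumI.lkR]
    push_cast
    ring
  have hB : cB.val [x, m, s, ρ] = NumI.lnB (s - x) (m * x - 4 * ρ * s) := by
    simp only [cB, E.val, tv, hv, NumI.lkR]
  refine ⟨rfl, ?_, ?_, ?_, ?_, ?_, ?_, ?_, ?_, ?_, ?_, ?_⟩
  · unfold Dm Dq
    ring
  · rw [LRA.LL_lnA', ure, uim]
    simp only [cLu, E.val, tv, hv, NumI.lkR]
  · rw [Num.YY_lnB us, ure, uim]
    simp only [cYu, E.val, tv, hv, NumI.lkR]
  · rw [LRA.LL_lnA', hw.re, hw.im]
    simp only [cLw, E.val, tv, NumI.lkR]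
  · rw [Num.YY_lnB ws, hw.re, hw.im]
    simp only [cYw, E.val, tv, NumI.lkR]
  · rw [LRA.LL_lnA', vre, vim]
    simp only [cLv, E.val, tv, hv, NumI.lkR]
    rw [LRA.lnA_cosh, LRA.lnA_cosh,
      show 2 * Real.pi * (1 - (s - x)) = 2 * Real.pi - 2 * Real.pi * (s - x) by ring,
      Real.cos_two_pi_sub]
  · intro h
    obtain ⟨h1, h2, h3⟩ := YY_neg_im vre vim h hd
    rw [hB]
    exact ⟨h1, h2, fun h4 => h3 (by linarith only [h4])⟩
  · intro h
    rw [hB]
    exact YY_pos_im vre vim h hd
  · exact MR.YY_abs_pi (by rw [vre]; linarith only [hx, x0, s1]) (by rw [vre]; linarith only [hx, x0, s0])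
  · rw [Num.YY_lnB ws, hw.re, hw.im]
    have := lnB_nonneg x0 (by linarith only [hx, x0]) (mul_nonneg hm x0.le)
    linarith only [this]
  · rw [hB]
    have := MR.lnB_abs (s - x) (m * x - 4 * ρ * s)
    exact (abs_le.1 this).1

theorem keyP {R : E} {k : ℤ} (hw : W x m w) (hz : ZR s ρ ζ) (hm : 0 ≤ m) (hx : x ≤ 13 / 100)
    (hF : Dm (4 * ρ) w ζ ≤ R.val [x, m, s, ρ]) (hi' : m * x - 4 * ρ * s < 0)
    (hc : m - 4 * ρ ≤ 0) (h : ∃ e ∈ lp R k, 0 < e.val [x, m, s, ρ]) :
    (k : ℝ) / 1000 ≤ S4 m w ζ := by
  have hi := hi'.le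
  have x0 := hw.pos
  have z0 := hz.lo
  have z1 := hz.hi
  have e5 : YY (w + 1 / 2 - ζ) = cB2.val [x, m, s, ρ] := by
    have hd : |s - x| < 1 / 2 := by
      rw [abs_lt]
      constructor <;> linarith only [hx, x0, z0, z1]
    have h1 := LRA.YY_eq_form (v := w + 1 / 2 - ζ) (d := s - x) (h := 4 * ρ * s - m * x)
      (by simp [hw.re, hz.re]; ring) (by simp [hw.im, hz.im]) (by linarith only [hi']) hd
    rw [h1]
    have e6 : cH.val [x, m, s, ρ] = 4 * ρ * s := by
      simp only [cH, E.val, NumI.lkR]
      push_cast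
      ring
    have e7 : cT.val [x, m, s, ρ] = m * x := by
      simp only [cT, E.val, NumI.lkR]
    simp only [cB2, E.val, e6, e7, NumI.lkR]
    push_cast
    rw [show -(s - x) = x - s by ring]
    ring
  have P := pv hw hz hm hx
  obtain ⟨eiv, ecc, eG0, eG, eDD, eD0⟩ := vals (R := R) P
  obtain ⟨hD, hF', lu, yu, lw, yw, lv, yn, yp, ypi, yw0, yb⟩ := P
  rw [hF'] at hF
  rw [hD]
  obtain ⟨y1, y2, y3⟩ := yn hi
  have pp := abs_le.1 ypi
  have c1 := mul_le_mul_of_nonpos_left y1 hc
  have c3 := mul_le_mul_of_nonneg_left pp.1 hm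
  obtain ⟨e, he, hp⟩ := h
  simp only [lp, List.mem_cons, List.not_mem_nil, or_false] at he
  rcases he with rfl | rfl | rfl | rfl
  · have e1 : (E.sub (cG R cB) (E.q k 1000)).val [x, m, s, ρ] =
        (cG R cB).val [x, m, s, ρ] - (E.q k 1000).val [x, m, s, ρ] := rfl
    have e2 : (E.q k 1000).val [x, m, s, ρ] = (k : ℝ) / 1000 := by
      simp only [E.val]
      push_cast
      rfl
    rw [e1, eG, e2] at hp
    linarith only [hF, c1, hp]
  · have e1 : (E.sub (cG R cB2) (E.q k 1000)).val [x, m, s, ρ] =
        (cG R cB2).val [x, m, s, ρ] - (E.q k 1000).val [x, m, s, ρ] := rfl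
    have e2 : (E.q k 1000).val [x, m, s, ρ] = (k : ℝ) / 1000 := by
      simp only [E.val]
      push_cast
      rfl
    rw [e1, eG, e2, ← e5] at hp
    linarith only [hF, hp]
  · have e1 : (E.sub (cD cB2) (E.q k 1000)).val [x, m, s, ρ] =
        (cD cB2).val [x, m, s, ρ] - (E.q k 1000).val [x, m, s, ρ] := rfl
    have e2 : (E.q k 1000).val [x, m, s, ρ] = (k : ℝ) / 1000 := by
      simp only [E.val]
      push_cast
      rfl
    rw [e1, eDD, e2, ← e5] at hp
    linarith only [hp]
  · have e1 : (E.sub (cD (E.neg E.pi)) (E.q k 1000)).val [x, m, s, ρ] =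
        (cD (E.neg E.pi)).val [x, m, s, ρ] - (E.q k 1000).val [x, m, s, ρ] := rfl
    have e2 : (E.q k 1000).val [x, m, s, ρ] = (k : ℝ) / 1000 := by
      simp only [E.val]
      push_cast
      rfl
    have e3 : (E.neg E.pi).val [x, m, s, ρ] = -Real.pi := rfl
    rw [e1, eDD, e2, e3] at hp
    linarith only [c3, hp]

theorem keyPS {R : E} {n k : ℤ} (hw : W x m w) (hz : ZR s ρ ζ) (hm : 0 ≤ m)
    (hx : x ≤ (n : ℝ) / 1000) (hn : (n : ℝ) ≤ 60) (hF : Dm (4 * ρ) w ζ ≤ R.val [x, m, s, ρ])
    (hi : m * x - 4 * ρ * s ≤ 0) (hc : m - 4 * ρ ≤ 0)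
    (h : ∃ e ∈ lpS n R k, 0 < e.val [x, m, s, ρ]) :
    (k : ℝ) / 1000 ≤ S4 m w ζ := by
  have P := pv hw hz hm (by linarith only [hx, hn])
  obtain ⟨eiv, ecc, -⟩ := vals (R := R) P
  obtain ⟨hD, hF', lu, yu, lw, yw, lv, yn, yp, ypi, yw0, yb⟩ := P
  have hray := LRA.lnA_ray (m := m) hw.pos hx (by linarith only [hn])
  have e1 : NumI.lnA x (m * x) = LL w := by rw [LRA.LL_lnA', hw.re, hw.im]
  have e2 : (cLw0 n).val [x, m, s, ρ] = NumI.lnA ((n : ℝ) / 1000) (m * ((n : ℝ) / 1000)) := by
    simp only [cLw0, E.val, NumI.lkR]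
    push_cast
    rfl
  rw [e1, ← e2] at hray
  rw [hF'] at hF
  rw [hD]
  set LU := LL (w + 1 / 2 + ζ)
  set YU := YY (w + 1 / 2 + ζ)
  set LV := LL (w + 1 / 2 - ζ)
  set YV := YY (w + 1 / 2 - ζ)
  set LW := LL w
  set YW := YY w
  have c5 : m * YW ≤ 0 := mul_nonpos_of_nonneg_of_nonpos hm yw0
  obtain ⟨y1, y2, y3⟩ := yn hi
  have pp := abs_le.1 ypi
  have c1 := mul_le_mul_of_nonpos_left y1 hc
  have c3 := mul_le_mul_of_nonneg_left pp.1 hm
  have fG0 : (sG0 n R).val [x, m, s, ρ] = 2 * (LU - (cLw0 n).val [x, m, s, ρ]) +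
      (m + 4 * ρ) * YU - R.val [x, m, s, ρ] := by
    simp only [sG0, E.val, lu, yu, NumI.lkR]
    push_cast
    ring
  have fG : ∀ yv : E, (sG n R yv).val [x, m, s, ρ] = 2 * (LU - (cLw0 n).val [x, m, s, ρ]) +
      (m + 4 * ρ) * YU - R.val [x, m, s, ρ] + (m - 4 * ρ) * yv.val [x, m, s, ρ] := by
    intro yv
    have : (sG n R yv).val [x, m, s, ρ] = (sG0 n R).val [x, m, s, ρ] +
      LRC.cc.val [x, m, s, ρ] * yv.val [x, m, s, ρ] := rfl
    rw [this, fG0, ecc]
  have fD' : ∀ yv : E, (sD n yv).val [x, m, s, ρ] = LU + LV - 2 * (cLw0 n).val [x, m, s, ρ] +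
      m * (YU + yv.val [x, m, s, ρ]) := by
    intro yv
    simp only [sD, E.val, lu, yu, lv, NumI.lkR]
    push_cast
    ring
  have e4 : (E.q k 1000).val [x, m, s, ρ] = (k : ℝ) / 1000 := by
    simp only [E.val]
    push_cast
    rfl
  obtain ⟨e, he, hp⟩ := h
  simp only [lpS, List.mem_cons, List.not_mem_nil, or_false] at he
  rcases he with rfl | rfl
  · have e1 : (E.sub (sG n R cB) (E.q k 1000)).val [x, m, s, ρ] =
        (sG n R cB).val [x, m, s, ρ] - (E.q k 1000).val [x, m, s, ρ] := rfl
    rw [e1, fG, e4] at hp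
    linarith only [hF, hray, c5, c1, hp]
  · have e1 : (E.sub (sD n (E.neg E.pi)) (E.q k 1000)).val [x, m, s, ρ] =
        (sD n (E.neg E.pi)).val [x, m, s, ρ] - (E.q k 1000).val [x, m, s, ρ] := rfl
    have e3 : (E.neg E.pi).val [x, m, s, ρ] = -Real.pi := rfl
    rw [e1, fD', e4, e3] at hp
    linarith only [hray, c5, c3, hp]

theorem keyFl {k : ℤ} (hw : W x m w) (hz : ZF ζ) (hm : 0 ≤ m) (hx : x ≤ 13 / 100)
    (h1 : 1 / 100 ≤ x → ∃ e ∈ lf k, 0 < e.val [x, m, -ζ.re, ζ.im])
    (h2 : x ≤ 1 / 100 → ∃ e ∈ lfS 10 k, 0 < e.val [x, m, -ζ.re, ζ.im]) :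
    (k : ℝ) / 1000 ≤ S4 m w ζ := by
  have x0 := hw.pos
  have z0 := hz.lo
  have z1 := hz.hi
  have ure : (w + 1 / 2 + ζ).re = x + 1 / 2 - -ζ.re := by simp [hw.re]
  have uim : (w + 1 / 2 + ζ).im = m * x + ζ.im := by simp [hw.im]
  have vre : (w + 1 / 2 - ζ).re = x + 1 / 2 + -ζ.re := by simp [hw.re]; ring
  have vim : (w + 1 / 2 - ζ).im = m * x - ζ.im := by simp [hw.im]
  have us : w + 1 / 2 + ζ ∈ strip := by
    constructor
    · rw [ure]; linarith only [hx, x0, z0]
    · rw [ure]; linarith only [hx, x0, z1]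
  have vs : w + 1 / 2 - ζ ∈ strip := by
    constructor
    · rw [vre]; linarith only [hx, x0, z1]
    · rw [vre]; linarith only [hx, x0, z0]
  have ws : w ∈ strip := by
    constructor
    · rw [hw.re]; linarith only [x0]
    · rw [hw.re]; linarith only [hx, x0]
  have hD : S4 m w ζ = LL (w + 1 / 2 + ζ) + LL (w + 1 / 2 - ζ) - 2 * LL w +
      m * (YY (w + 1 / 2 + ζ) + YY (w + 1 / 2 - ζ) - 2 * YY w) := rfl
  rw [hD, Num.LL_lnA us, Num.LL_lnA vs, Num.LL_lnA ws, Num.YY_lnB us, Num.YY_lnB vs,
    Num.YY_lnB ws, ure, uim, vre, vim, hw.re, hw.im]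
  rcases le_total (1 / 100) x with h | h
  · obtain ⟨e, he, hp⟩ := h1 h
    simp only [lf, List.mem_cons, List.not_mem_nil, or_false] at he
    subst he
    simp only [LRC.fD, fLu, fLv, LRC.fYu, LRC.fYv, cLw, cYw, cT, E.val, NumI.lkR] at hp
    push_cast at hp
    linarith only [hp]
  · obtain ⟨e, he, hp⟩ := h2 h
    have hray := LRA.lnA_ray (m := m) hw.pos h (by norm_num)
    have hB := lnB_nonneg x0 (by linarith only [x0, h]) (mul_nonneg hm x0.le)
    have hB' := mul_nonneg hm hB
    simp only [lfS, List.mem_cons, List.not_mem_nil, or_false] at he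
    subst he
    simp only [LRC.fS, fLu, fLv, LRC.fYu, LRC.fYv, cLw0, cT, E.val, NumI.lkR] at hp
    push_cast at hp
    norm_num at hp hray ⊢
    linarith only [hB', hp, hray]

/-- 5 boxes -/
theorem c_fA {x y s r : ℝ} (a0 : 200 / 10000 ≤ x) (b0 : x ≤ 700 / 10000)
    (a1 : 0 ≤ y) (b1 : y ≤ 4750 / 10000) (a2 : 0 ≤ s) (b2 : s ≤ 2500 / 10000)
    (a3 : 0 ≤ r) (b3 : r ≤ 1045 / 10000) :
    ∃ e ∈ [LRA.fD 300], 0 < e.val [x, y, s, r] := by
  have h : chkT ([LRA.fD 300]) 22
      36549695488
      [V.of 10000 200 700, V.of 10000 0 4750, V.of 10000 0 2500, V.of 10000 0 1045] = true := by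
    decide +kernel
  exact chkT4 h (by norm_num) (by push_cast; linarith only [a0]) (by push_cast; linarith only [b0])
    (by push_cast; linarith only [a1]) (by push_cast; linarith only [b1]) (by push_cast; linarith only [a2])
    (by push_cast; linarith only [b2]) (by push_cast; linarith only [a3]) (by push_cast; linarith only [b3])

/-- 1 boxes -/
theorem c_fB {x y s r : ℝ} (a0 : 0 ≤ x) (b0 : x ≤ 200 / 10000)
    (a1 : 0 ≤ y) (b1 : y ≤ 4750 / 10000) (a2 : 0 ≤ s) (b2 : s ≤ 2500 / 10000)
    (a3 : 0 ≤ r) (b3 : r ≤ 1045 / 10000) :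
    ∃ e ∈ [LRA.fDS 20 300], 0 < e.val [x, y, s, r] := by
  have h : chkT ([LRA.fDS 20 300]) 22
      8
      [V.of 10000 0 200, V.of 10000 0 4750, V.of 10000 0 2500, V.of 10000 0 1045] = true := by
    decide +kernel
  exact chkT4 h (by norm_num) (by push_cast; linarith only [a0]) (by push_cast; linarith only [b0])
    (by push_cast; linarith only [a1]) (by push_cast; linarith only [b1]) (by push_cast; linarith only [a2])
    (by push_cast; linarith only [b2]) (by push_cast; linarith only [a3]) (by push_cast; linarith only [b3])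

/-- 31 boxes -/
theorem c_p4a {x y s r : ℝ} (a0 : 100 / 10000 ≤ x) (b0 : x ≤ 700 / 10000)
    (a1 : 0 ≤ y) (b1 : y ≤ 4750 / 10000) (a2 : 625 / 10000 ≤ s) (b2 : s ≤ 1200 / 10000)
    (a3 : 0 ≤ r) (b3 : r ≤ 1045 / 10000) :
    ∃ e ∈ LRA.la (LRA.RP LRA.g1 4) 300 1150, 0 < e.val [x, y, s, r] := by
  have h : chkT (LRA.la (LRA.RP LRA.g1 4) 300 1150) 26
      15044180393911055408840988901694398716450767112508980731644481192220692480
      [V.of 10000 100 700, V.of 10000 0 4750, V.of 10000 625 1200, V.of 10000 0 1045] = true := by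
    decide +kernel
  exact chkT4 h (by norm_num) (by push_cast; linarith only [a0]) (by push_cast; linarith only [b0])
    (by push_cast; linarith only [a1]) (by push_cast; linarith only [b1]) (by push_cast; linarith only [a2])
    (by push_cast; linarith only [b2]) (by push_cast; linarith only [a3]) (by push_cast; linarith only [b3])

/-- 21 boxes -/
theorem c_p4b {x y s r : ℝ} (a0 : 100 / 10000 ≤ x) (b0 : x ≤ 700 / 10000)
    (a1 : 0 ≤ y) (b1 : y ≤ 4750 / 10000) (a2 : 1200 / 10000 ≤ s) (b2 : s ≤ 2500 / 10000)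
    (a3 : 0 ≤ r) (b3 : r ≤ 1045 / 10000) :
    ∃ e ∈ LRA.la (LRA.RP LRA.g2 4) 300 1150, 0 < e.val [x, y, s, r] := by
  have h : chkT (LRA.la (LRA.RP LRA.g2 4) 300 1150) 26
      13984542990191761167269826297542824340193426345984
      [V.of 10000 100 700, V.of 10000 0 4750, V.of 10000 1200 2500, V.of 10000 0 1045] = true := by
    decide +kernel
  exact chkT4 h (by norm_num) (by push_cast; linarith only [a0]) (by push_cast; linarith only [b0])
    (by push_cast; linarith only [a1]) (by push_cast; linarith only [b1]) (by push_cast; linarith only [a2])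
    (by push_cast; linarith only [b2]) (by push_cast; linarith only [a3]) (by push_cast; linarith only [b3])

/-- 1 boxes -/
theorem c_p4c {x y s r : ℝ} (a0 : 0 ≤ x) (b0 : x ≤ 100 / 10000)
    (a1 : 0 ≤ y) (b1 : y ≤ 4750 / 10000) (a2 : 625 / 10000 ≤ s) (b2 : s ≤ 1200 / 10000)
    (a3 : 0 ≤ r) (b3 : r ≤ 1045 / 10000) :
    ∃ e ∈ LRA.ls 10 (LRA.RP LRA.g1 4) 300, 0 < e.val [x, y, s, r] := by
  have h : chkT (LRA.ls 10 (LRA.RP LRA.g1 4) 300) 18
      8
      [V.of 10000 0 100, V.of 10000 0 4750, V.of 10000 625 1200, V.of 10000 0 1045] = true := by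
    decide +kernel
  exact chkT4 h (by norm_num) (by push_cast; linarith only [a0]) (by push_cast; linarith only [b0])
    (by push_cast; linarith only [a1]) (by push_cast; linarith only [b1]) (by push_cast; linarith only [a2])
    (by push_cast; linarith only [b2]) (by push_cast; linarith only [a3]) (by push_cast; linarith only [b3])

/-- 1 boxes -/
theorem c_p4d {x y s r : ℝ} (a0 : 0 ≤ x) (b0 : x ≤ 100 / 10000)
    (a1 : 0 ≤ y) (b1 : y ≤ 4750 / 10000) (a2 : 1200 / 10000 ≤ s) (b2 : s ≤ 2500 / 10000)
    (a3 : 0 ≤ r) (b3 : r ≤ 1045 / 10000) :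
    ∃ e ∈ LRA.ls 10 (LRA.RP LRA.g2 4) 300, 0 < e.val [x, y, s, r] := by
  have h : chkT (LRA.ls 10 (LRA.RP LRA.g2 4) 300) 18
      9
      [V.of 10000 0 100, V.of 10000 0 4750, V.of 10000 1200 2500, V.of 10000 0 1045] = true := by
    decide +kernel
  exact chkT4 h (by norm_num) (by push_cast; linarith only [a0]) (by push_cast; linarith only [b0])
    (by push_cast; linarith only [a1]) (by push_cast; linarith only [b1]) (by push_cast; linarith only [a2])
    (by push_cast; linarith only [b2]) (by push_cast; linarith only [a3]) (by push_cast; linarith only [b3])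

/-- 10 boxes -/
theorem c_p5a {x y s r : ℝ} (a0 : 100 / 10000 ≤ x) (b0 : x ≤ 700 / 10000)
    (a1 : 0 ≤ y) (b1 : y ≤ 4750 / 10000) (a2 : 625 / 10000 ≤ s) (b2 : s ≤ 1200 / 10000)
    (a3 : 0 ≤ r) (b3 : r ≤ 725 / 10000) :
    ∃ e ∈ LRA.la (LRA.RP LRA.g1 5) 300 1310, 0 < e.val [x, y, s, r] := by
  have h : chkT (LRA.la (LRA.RP LRA.g1 5) 300 1310) 26
      60261030712138434134016
      [V.of 10000 100 700, V.of 10000 0 4750, V.of 10000 625 1200, V.of 10000 0 725] = true := by
    decide +kernel
  exact chkT4 h (by norm_num) (by push_cast; linarith only [a0]) (by push_cast; linarith only [b0])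
    (by push_cast; linarith only [a1]) (by push_cast; linarith only [b1]) (by push_cast; linarith only [a2])
    (by push_cast; linarith only [b2]) (by push_cast; linarith only [a3]) (by push_cast; linarith only [b3])

/-- 11 boxes -/
theorem c_p5b {x y s r : ℝ} (a0 : 100 / 10000 ≤ x) (b0 : x ≤ 700 / 10000)
    (a1 : 0 ≤ y) (b1 : y ≤ 4750 / 10000) (a2 : 1200 / 10000 ≤ s) (b2 : s ≤ 2500 / 10000)
    (a3 : 0 ≤ r) (b3 : r ≤ 725 / 10000) :
    ∃ e ∈ LRA.la (LRA.RP LRA.g2 5) 300 1310, 0 < e.val [x, y, s, r] := by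
  have h : chkT (LRA.la (LRA.RP LRA.g2 5) 300 1310) 26
      11567746554340806423580672
      [V.of 10000 100 700, V.of 10000 0 4750, V.of 10000 1200 2500, V.of 10000 0 725] = true := by
    decide +kernel
  exact chkT4 h (by norm_num) (by push_cast; linarith only [a0]) (by push_cast; linarith only [b0])
    (by push_cast; linarith only [a1]) (by push_cast; linarith only [b1]) (by push_cast; linarith only [a2])
    (by push_cast; linarith only [b2]) (by push_cast; linarith only [a3]) (by push_cast; linarith only [b3])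

/-- 1 boxes -/
theorem c_p5c {x y s r : ℝ} (a0 : 0 ≤ x) (b0 : x ≤ 100 / 10000)
    (a1 : 0 ≤ y) (b1 : y ≤ 4750 / 10000) (a2 : 625 / 10000 ≤ s) (b2 : s ≤ 1200 / 10000)
    (a3 : 0 ≤ r) (b3 : r ≤ 725 / 10000) :
    ∃ e ∈ LRA.ls 10 (LRA.RP LRA.g1 5) 300, 0 < e.val [x, y, s, r] := by
  have h : chkT (LRA.ls 10 (LRA.RP LRA.g1 5) 300) 18
      8
      [V.of 10000 0 100, V.of 10000 0 4750, V.of 10000 625 1200, V.of 10000 0 725] = true := by
    decide +kernel
  exact chkT4 h (by norm_num) (by push_cast; linarith only [a0]) (by push_cast; linarith only [b0])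
    (by push_cast; linarith only [a1]) (by push_cast; linarith only [b1]) (by push_cast; linarith only [a2])
    (by push_cast; linarith only [b2]) (by push_cast; linarith only [a3]) (by push_cast; linarith only [b3])

/-- 1 boxes -/
theorem c_p5d {x y s r : ℝ} (a0 : 0 ≤ x) (b0 : x ≤ 100 / 10000)
    (a1 : 0 ≤ y) (b1 : y ≤ 4750 / 10000) (a2 : 1200 / 10000 ≤ s) (b2 : s ≤ 2500 / 10000)
    (a3 : 0 ≤ r) (b3 : r ≤ 725 / 10000) :
    ∃ e ∈ LRA.ls 10 (LRA.RP LRA.g2 5) 300, 0 < e.val [x, y, s, r] := by
  have h : chkT (LRA.ls 10 (LRA.RP LRA.g2 5) 300) 18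
      8
      [V.of 10000 0 100, V.of 10000 0 4750, V.of 10000 1200 2500, V.of 10000 0 725] = true := by
    decide +kernel
  exact chkT4 h (by norm_num) (by push_cast; linarith only [a0]) (by push_cast; linarith only [b0])
    (by push_cast; linarith only [a1]) (by push_cast; linarith only [b1]) (by push_cast; linarith only [a2])
    (by push_cast; linarith only [b2]) (by push_cast; linarith only [a3]) (by push_cast; linarith only [b3])

/-- 43 boxes -/
theorem c_x4a {x y s r : ℝ} (a0 : 100 / 10000 ≤ x) (b0 : x ≤ 700 / 10000)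
    (a1 : 0 ≤ y) (b1 : y ≤ 4750 / 10000) (a2 : 625 / 10000 ≤ s) (b2 : s ≤ 2500 / 10000)
    (a3 : 0 ≤ r) (b3 : r ≤ 1045 / 10000) :
    ∃ e ∈ LRA.la (LRA.RX 4) 300 1150, 0 < e.val [x, y, s, r] := by
  have h : chkT (LRA.la (LRA.RX 4) 300 1150) 26
      1338924726007838951978178429082597900507996004776041534124538211721010038530985419127748925123092152832
      [V.of 10000 100 700, V.of 10000 0 4750, V.of 10000 625 2500, V.of 10000 0 1045] = true := by
    decide +kernel
  exact chkT4 h (by norm_num) (by push_cast; linarith only [a0]) (by push_cast; linarith only [b0])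
    (by push_cast; linarith only [a1]) (by push_cast; linarith only [b1]) (by push_cast; linarith only [a2])
    (by push_cast; linarith only [b2]) (by push_cast; linarith only [a3]) (by push_cast; linarith only [b3])

/-- 3 boxes -/
theorem c_x4c {x y s r : ℝ} (a0 : 0 ≤ x) (b0 : x ≤ 100 / 10000)
    (a1 : 0 ≤ y) (b1 : y ≤ 4750 / 10000) (a2 : 625 / 10000 ≤ s) (b2 : s ≤ 2500 / 10000)
    (a3 : 0 ≤ r) (b3 : r ≤ 1045 / 10000) :
    ∃ e ∈ LRA.ls 10 (LRA.RX 4) 300, 0 < e.val [x, y, s, r] := by
  have h : chkT (LRA.ls 10 (LRA.RX 4) 300) 18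
      559138
      [V.of 10000 0 100, V.of 10000 0 4750, V.of 10000 625 2500, V.of 10000 0 1045] = true := by
    decide +kernel
  exact chkT4 h (by norm_num) (by push_cast; linarith only [a0]) (by push_cast; linarith only [b0])
    (by push_cast; linarith only [a1]) (by push_cast; linarith only [b1]) (by push_cast; linarith only [a2])
    (by push_cast; linarith only [b2]) (by push_cast; linarith only [a3]) (by push_cast; linarith only [b3])

/-- 35 boxes -/
theorem c_x5a {x y s r : ℝ} (a0 : 100 / 10000 ≤ x) (b0 : x ≤ 700 / 10000)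
    (a1 : 0 ≤ y) (b1 : y ≤ 4750 / 10000) (a2 : 625 / 10000 ≤ s) (b2 : s ≤ 2500 / 10000)
    (a3 : 0 ≤ r) (b3 : r ≤ 725 / 10000) :
    ∃ e ∈ LRA.la (LRA.RX 5) 300 1310, 0 < e.val [x, y, s, r] := by
  have h : chkT (LRA.la (LRA.RX 5) 300 1310) 26
      72835201007863730807783692334204036408364103895189843697746462540534926707997671936
      [V.of 10000 100 700, V.of 10000 0 4750, V.of 10000 625 2500, V.of 10000 0 725] = true := by
    decide +kernel
  exact chkT4 h (by norm_num) (by push_cast; linarith only [a0]) (by push_cast; linarith only [b0])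
    (by push_cast; linarith only [a1]) (by push_cast; linarith only [b1]) (by push_cast; linarith only [a2])
    (by push_cast; linarith only [b2]) (by push_cast; linarith only [a3]) (by push_cast; linarith only [b3])

/-- 3 boxes -/
theorem c_x5c {x y s r : ℝ} (a0 : 0 ≤ x) (b0 : x ≤ 100 / 10000)
    (a1 : 0 ≤ y) (b1 : y ≤ 4750 / 10000) (a2 : 625 / 10000 ≤ s) (b2 : s ≤ 2500 / 10000)
    (a3 : 0 ≤ r) (b3 : r ≤ 725 / 10000) :
    ∃ e ∈ LRA.ls 10 (LRA.RX 5) 300, 0 < e.val [x, y, s, r] := by
  have h : chkT (LRA.ls 10 (LRA.RX 5) 300) 18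
      559138
      [V.of 10000 0 100, V.of 10000 0 4750, V.of 10000 625 2500, V.of 10000 0 725] = true := by
    decide +kernel
  exact chkT4 h (by norm_num) (by push_cast; linarith only [a0]) (by push_cast; linarith only [b0])
    (by push_cast; linarith only [a1]) (by push_cast; linarith only [b1]) (by push_cast; linarith only [a2])
    (by push_cast; linarith only [b2]) (by push_cast; linarith only [a3]) (by push_cast; linarith only [b3])

/-- 8 boxes -/
theorem c_psa {x y s r : ℝ} (a0 : 100 / 10000 ≤ x) (b0 : x ≤ 1300 / 10000)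
    (a1 : 0 ≤ y) (b1 : y ≤ 60 / 10000) (a2 : 625 / 10000 ≤ s) (b2 : s ≤ 1200 / 10000)
    (a3 : 840 / 10000 ≤ r) (b3 : r ≤ 895 / 10000) :
    ∃ e ∈ lp (RG gg1 4) 200, 0 < e.val [x, y, s, r] := by
  have h : chkT (lp (RG gg1 4) 200) 26
      689218979157803008
      [V.of 10000 100 1300, V.of 10000 0 60, V.of 10000 625 1200, V.of 10000 840 895] = true := by
    decide +kernel
  exact chkT4 h (by norm_num) (by push_cast; linarith only [a0]) (by push_cast; linarith only [b0])
    (by push_cast; linarith only [a1]) (by push_cast; linarith only [b1]) (by push_cast; linarith only [a2])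
    (by push_cast; linarith only [b2]) (by push_cast; linarith only [a3]) (by push_cast; linarith only [b3])

/-- 14 boxes -/
theorem c_psb {x y s r : ℝ} (a0 : 100 / 10000 ≤ x) (b0 : x ≤ 1300 / 10000)
    (a1 : 0 ≤ y) (b1 : y ≤ 60 / 10000) (a2 : 1200 / 10000 ≤ s) (b2 : s ≤ 2500 / 10000)
    (a3 : 840 / 10000 ≤ r) (b3 : r ≤ 895 / 10000) :
    ∃ e ∈ lp (RG gg2 4) 200, 0 < e.val [x, y, s, r] := by
  have h : chkT (lp (RG gg2 4) 200) 26
      215708779254569826396350934712320
      [V.of 10000 100 1300, V.of 10000 0 60, V.of 10000 1200 2500, V.of 10000 840 895] = true := by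
    decide +kernel
  exact chkT4 h (by norm_num) (by push_cast; linarith only [a0]) (by push_cast; linarith only [b0])
    (by push_cast; linarith only [a1]) (by push_cast; linarith only [b1]) (by push_cast; linarith only [a2])
    (by push_cast; linarith only [b2]) (by push_cast; linarith only [a3]) (by push_cast; linarith only [b3])

/-- 8 boxes -/
theorem c_psa12 {x y s r : ℝ} (a0 : 100 / 10000 ≤ x) (b0 : x ≤ 1200 / 10000)
    (a1 : 0 ≤ y) (b1 : y ≤ 60 / 10000) (a2 : 625 / 10000 ≤ s) (b2 : s ≤ 1200 / 10000)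
    (a3 : 840 / 10000 ≤ r) (b3 : r ≤ 895 / 10000) :
    ∃ e ∈ lp (RG gg1 4) 300, 0 < e.val [x, y, s, r] := by
  have h : chkT (lp (RG gg1 4) 300) 26
      689218979157803008
      [V.of 10000 100 1200, V.of 10000 0 60, V.of 10000 625 1200, V.of 10000 840 895] = true := by
    decide +kernel
  exact chkT4 h (by norm_num) (by push_cast; linarith only [a0]) (by push_cast; linarith only [b0])
    (by push_cast; linarith only [a1]) (by push_cast; linarith only [b1]) (by push_cast; linarith only [a2])
    (by push_cast; linarith only [b2]) (by push_cast; linarith only [a3]) (by push_cast; linarith only [b3])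

/-- 13 boxes -/
theorem c_psb12 {x y s r : ℝ} (a0 : 100 / 10000 ≤ x) (b0 : x ≤ 1200 / 10000)
    (a1 : 0 ≤ y) (b1 : y ≤ 60 / 10000) (a2 : 1200 / 10000 ≤ s) (b2 : s ≤ 2500 / 10000)
    (a3 : 840 / 10000 ≤ r) (b3 : r ≤ 895 / 10000) :
    ∃ e ∈ lp (RG gg2 4) 300, 0 < e.val [x, y, s, r] := by
  have h : chkT (lp (RG gg2 4) 300) 26
      842002515296952875310249443328
      [V.of 10000 100 1200, V.of 10000 0 60, V.of 10000 1200 2500, V.of 10000 840 895] = true := by
    decide +kernel
  exact chkT4 h (by norm_num) (by push_cast; linarith only [a0]) (by push_cast; linarith only [b0])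
    (by push_cast; linarith only [a1]) (by push_cast; linarith only [b1]) (by push_cast; linarith only [a2])
    (by push_cast; linarith only [b2]) (by push_cast; linarith only [a3]) (by push_cast; linarith only [b3])

/-- 1 boxes -/
theorem c_psc {x y s r : ℝ} (a0 : 0 ≤ x) (b0 : x ≤ 100 / 10000)
    (a1 : 0 ≤ y) (b1 : y ≤ 60 / 10000) (a2 : 625 / 10000 ≤ s) (b2 : s ≤ 1200 / 10000)
    (a3 : 840 / 10000 ≤ r) (b3 : r ≤ 895 / 10000) :
    ∃ e ∈ lpS 10 (RG gg1 4) 300, 0 < e.val [x, y, s, r] := by
  have h : chkT (lpS 10 (RG gg1 4) 300) 26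
      8
      [V.of 10000 0 100, V.of 10000 0 60, V.of 10000 625 1200, V.of 10000 840 895] = true := by
    decide +kernel
  exact chkT4 h (by norm_num) (by push_cast; linarith only [a0]) (by push_cast; linarith only [b0])
    (by push_cast; linarith only [a1]) (by push_cast; linarith only [b1]) (by push_cast; linarith only [a2])
    (by push_cast; linarith only [b2]) (by push_cast; linarith only [a3]) (by push_cast; linarith only [b3])

/-- 1 boxes -/
theorem c_psd {x y s r : ℝ} (a0 : 0 ≤ x) (b0 : x ≤ 100 / 10000)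
    (a1 : 0 ≤ y) (b1 : y ≤ 60 / 10000) (a2 : 1200 / 10000 ≤ s) (b2 : s ≤ 2500 / 10000)
    (a3 : 840 / 10000 ≤ r) (b3 : r ≤ 895 / 10000) :
    ∃ e ∈ lpS 10 (RG gg2 4) 300, 0 < e.val [x, y, s, r] := by
  have h : chkT (lpS 10 (RG gg2 4) 300) 26
      8
      [V.of 10000 0 100, V.of 10000 0 60, V.of 10000 1200 2500, V.of 10000 840 895] = true := by
    decide +kernel
  exact chkT4 h (by norm_num) (by push_cast; linarith only [a0]) (by push_cast; linarith only [b0])
    (by push_cast; linarith only [a1]) (by push_cast; linarith only [b1]) (by push_cast; linarith only [a2])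
    (by push_cast; linarith only [b2]) (by push_cast; linarith only [a3]) (by push_cast; linarith only [b3])

/-- 5 boxes -/
theorem c_psfa {x y s r : ℝ} (a0 : 100 / 10000 ≤ x) (b0 : x ≤ 1300 / 10000)
    (a1 : 0 ≤ y) (b1 : y ≤ 60 / 10000) (a2 : 0 ≤ s) (b2 : s ≤ 2500 / 10000)
    (a3 : 840 / 10000 ≤ r) (b3 : r ≤ 895 / 10000) :
    ∃ e ∈ lf 300, 0 < e.val [x, y, s, r] := by
  have h : chkT (lf 300) 22
      36549722112
      [V.of 10000 100 1300, V.of 10000 0 60, V.of 10000 0 2500, V.of 10000 840 895] = true := by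
    decide +kernel
  exact chkT4 h (by norm_num) (by push_cast; linarith only [a0]) (by push_cast; linarith only [b0])
    (by push_cast; linarith only [a1]) (by push_cast; linarith only [b1]) (by push_cast; linarith only [a2])
    (by push_cast; linarith only [b2]) (by push_cast; linarith only [a3]) (by push_cast; linarith only [b3])

/-- 1 boxes -/
theorem c_psfb {x y s r : ℝ} (a0 : 0 ≤ x) (b0 : x ≤ 100 / 10000)
    (a1 : 0 ≤ y) (b1 : y ≤ 60 / 10000) (a2 : 0 ≤ s) (b2 : s ≤ 2500 / 10000)
    (a3 : 840 / 10000 ≤ r) (b3 : r ≤ 895 / 10000) :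
    ∃ e ∈ lfS 10 300, 0 < e.val [x, y, s, r] := by
  have h : chkT (lfS 10 300) 22
      8
      [V.of 10000 0 100, V.of 10000 0 60, V.of 10000 0 2500, V.of 10000 840 895] = true := by
    decide +kernel
  exact chkT4 h (by norm_num) (by push_cast; linarith only [a0]) (by push_cast; linarith only [b0])
    (by push_cast; linarith only [a1]) (by push_cast; linarith only [b1]) (by push_cast; linarith only [a2])
    (by push_cast; linarith only [b2]) (by push_cast; linarith only [a3]) (by push_cast; linarith only [b3])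

end LRG

namespace LR

open LRG LRC

variable {m x s ρ : ℝ} {w ζ : ℂ}

/-- **`3 | ring`, `x ≤ 7/100`: flat part.** -/
theorem lo7_flat (hw : W x m w) (hz : ZF ζ) (hm : m ≤ 0) (hm' : -(475 / 1000) ≤ m)
    (hx : x ≤ 7 / 100) : 3 / 10 ≤ S4 m w ζ + Real.pi / 2 * m := by
  have x0 := hw.pos
  have s0 := hz.lo
  have s1 := hz.hi
  have e0 := hz.pos
  have e1 := hz.cap
  rcases le_total (2 / 100) x with h | h
  · obtain ⟨e, he, hp⟩ := c_fA (x := x) (y := -m) (s := -ζ.re) (r := ζ.im) (by linarith only [h])
      (by linarith only [hx]) (by linarith only [hm]) (by linarith only [hm']) (by linarith only [s1]) (by linarith only [s0]) (by linarith only [e0])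
        (by linarith only [e1])
    have key := LRA.fD_key (k := 300) (t := 1310) hw hz (by linarith only [hx, x0]) (by push_cast; nlinarith only [hm', hx, x0, hm])
      ⟨e, List.mem_cons.2 (Or.inl (List.mem_singleton.1 he)), hp⟩
    push_cast at key
    linarith only [key]
  · have key := LRA.fDS_key (n := 20) (k := 300) hw hz hm (by push_cast; linarith only [h]) (by norm_num)
      (c_fB (by linarith only [x0]) (by linarith only [h]) (by linarith only [hm]) (by linarith only [hm']) (by linarith only [s1]) (by linarith only [s0])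
        (by linarith only [e0]) (by linarith only [e1]))
    push_cast at key
    linarith only [key]

/-- **`3 | ring`, `x ≤ 7/100`: ramp, `b = 4`, other hinge `≤ 1/2`.** -/
theorem lo7_P4 (hw : W x m w) (hz : ZR s ρ ζ) (hρ : ρ ≤ 1045 / 10000) (hm : m ≤ 0)
    (hm' : -(475 / 1000) ≤ m) (hx : x ≤ 7 / 100) (hF : FP 4 s ρ w ζ) :
    3 / 10 ≤ S4 m w ζ + Real.pi / 2 * m := by
  have x0 := hw.pos
  have s0 := hz.lo
  have s1 := hz.hi
  have r0 := hz.pos
  unfold FP gE at hF
  rcases lt_or_ge s (12 / 100) with hs | hs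
  · rw [if_pos hs] at hF
    have hR : Dm (4 * ρ) w ζ ≤ (LRA.RP LRA.g1 4).val [x, -m, s, ρ] := by
      simp only [LRA.RP, LRA.hb, LRA.g1, E.val, NumI.lkR]
      push_cast
      linarith only [hF]
    rcases le_total (1 / 100) x with h | h
    · have key := LRA.la_key (k := 300) (t := 1150) hw hz hm (by linarith only [hx, x0])
        (by push_cast; nlinarith only [hm', hx, x0, hm]) hR
        (c_p4a (by linarith only [h]) (by linarith only [hx]) (by linarith only [hm]) (by linarith only [hm']) (by linarith only [s0])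
          (by linarith only [hs]) (by linarith only [r0]) (by linarith only [hρ]))
      push_cast at key
      linarith only [key]
    · have key := LRA.ls_key (n := 10) (k := 300) hw hz hm (by push_cast; linarith only [h]) (by norm_num) hR
        (c_p4c (by linarith only [x0]) (by linarith only [h]) (by linarith only [hm]) (by linarith only [hm']) (by linarith only [s0])
          (by linarith only [hs]) (by linarith only [r0]) (by linarith only [hρ]))
      push_cast at key
      linarith only [key]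
  · rw [if_neg (not_lt.2 hs)] at hF
    have hR : Dm (4 * ρ) w ζ ≤ (LRA.RP LRA.g2 4).val [x, -m, s, ρ] := by
      simp only [LRA.RP, LRA.hb, LRA.g2, E.val, NumI.lkR]
      push_cast
      linarith only [hF]
    rcases le_total (1 / 100) x with h | h
    · have key := LRA.la_key (k := 300) (t := 1150) hw hz hm (by linarith only [hx, x0])
        (by push_cast; nlinarith only [hm', hx, x0, hm]) hR
        (c_p4b (by linarith only [h]) (by linarith only [hx]) (by linarith only [hm]) (by linarith only [hm']) (by linarith only [hs])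
          (by linarith only [s1]) (by linarith only [r0]) (by linarith only [hρ]))
      push_cast at key
      linarith only [key]
    · have key := LRA.ls_key (n := 10) (k := 300) hw hz hm (by push_cast; linarith only [h]) (by norm_num) hR
        (c_p4d (by linarith only [x0]) (by linarith only [h]) (by linarith only [hm]) (by linarith only [hm']) (by linarith only [hs])
          (by linarith only [s1]) (by linarith only [r0]) (by linarith only [hρ]))
      push_cast at key
      linarith only [key]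

/-- **`3 | ring`, `x ≤ 7/100`: ramp, `b = 5`, other hinge `≤ 1/2`.** -/
theorem lo7_P5 (hw : W x m w) (hz : ZR s ρ ζ) (hρ : ρ ≤ 725 / 10000) (hm : m ≤ 0)
    (hm' : -(475 / 1000) ≤ m) (hx : x ≤ 7 / 100) (hF : FP 5 s ρ w ζ) :
    3 / 10 ≤ S4 m w ζ + Real.pi / 2 * m := by
  have x0 := hw.pos
  have s0 := hz.lo
  have s1 := hz.hi
  have r0 := hz.pos
  unfold FP gE at hF
  rcases lt_or_ge s (12 / 100) with hs | hs
  · rw [if_pos hs] at hF
    have hR : Dm (4 * ρ) w ζ ≤ (LRA.RP LRA.g1 5).val [x, -m, s, ρ] := by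
      simp only [LRA.RP, LRA.hb, LRA.g1, E.val, NumI.lkR]
      push_cast
      linarith only [hF]
    rcases le_total (1 / 100) x with h | h
    · have key := LRA.la_key (k := 300) (t := 1310) hw hz hm (by linarith only [hx, x0])
        (by push_cast; nlinarith only [hm', hx, x0, hm]) hR
        (c_p5a (by linarith only [h]) (by linarith only [hx]) (by linarith only [hm]) (by linarith only [hm']) (by linarith only [s0])
          (by linarith only [hs]) (by linarith only [r0]) (by linarith only [hρ]))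
      push_cast at key
      linarith only [key]
    · have key := LRA.ls_key (n := 10) (k := 300) hw hz hm (by push_cast; linarith only [h]) (by norm_num) hR
        (c_p5c (by linarith only [x0]) (by linarith only [h]) (by linarith only [hm]) (by linarith only [hm']) (by linarith only [s0])
          (by linarith only [hs]) (by linarith only [r0]) (by linarith only [hρ]))
      push_cast at key
      linarith only [key]
  · rw [if_neg (not_lt.2 hs)] at hF
    have hR : Dm (4 * ρ) w ζ ≤ (LRA.RP LRA.g2 5).val [x, -m, s, ρ] := by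
      simp only [LRA.RP, LRA.hb, LRA.g2, E.val, NumI.lkR]
      push_cast
      linarith only [hF]
    rcases le_total (1 / 100) x with h | h
    · have key := LRA.la_key (k := 300) (t := 1310) hw hz hm (by linarith only [hx, x0])
        (by push_cast; nlinarith only [hm', hx, x0, hm]) hR
        (c_p5b (by linarith only [h]) (by linarith only [hx]) (by linarith only [hm]) (by linarith only [hm']) (by linarith only [hs])
          (by linarith only [s1]) (by linarith only [r0]) (by linarith only [hρ]))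
      push_cast at key
      linarith only [key]
    · have key := LRA.ls_key (n := 10) (k := 300) hw hz hm (by push_cast; linarith only [h]) (by norm_num) hR
        (c_p5d (by linarith only [x0]) (by linarith only [h]) (by linarith only [hm]) (by linarith only [hm']) (by linarith only [hs])
          (by linarith only [s1]) (by linarith only [r0]) (by linarith only [hρ]))
      push_cast at key
      linarith only [key]

/-- **`3 | ring`, `x ≤ 7/100`: ramp, `b = 4`, any other hinge.** -/
theorem lo7_X4 (hw : W x m w) (hz : ZR s ρ ζ) (hρ : ρ ≤ 1045 / 10000) (hm : m ≤ 0)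
    (hm' : -(475 / 1000) ≤ m) (hx : x ≤ 7 / 100) (hF : FX 4 s ρ w ζ) :
    3 / 10 ≤ S4 m w ζ + Real.pi / 2 * m := by
  have x0 := hw.pos
  have s0 := hz.lo
  have s1 := hz.hi
  have r0 := hz.pos
  unfold FX at hF
  have hR : Dm (4 * ρ) w ζ ≤ (LRA.RX 4).val [x, -m, s, ρ] := by
    simp only [LRA.RX, LRA.hb, E.val, NumI.lkR]
    push_cast
    linarith only [hF]
  rcases le_total (1 / 100) x with h | h
  · have key := LRA.la_key (k := 300) (t := 1150) hw hz hm (by linarith only [hx, x0])
      (by push_cast; nlinarith only [hm', hx, x0, hm]) hR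
      (c_x4a (by linarith only [h]) (by linarith only [hx]) (by linarith only [hm]) (by linarith only [hm']) (by linarith only [s0]) (by linarith only [s1])
        (by linarith only [r0]) (by linarith only [hρ]))
    push_cast at key
    linarith only [key]
  · have key := LRA.ls_key (n := 10) (k := 300) hw hz hm (by push_cast; linarith only [h]) (by norm_num) hR
      (c_x4c (by linarith only [x0]) (by linarith only [h]) (by linarith only [hm]) (by linarith only [hm']) (by linarith only [s0]) (by linarith only [s1])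
        (by linarith only [r0]) (by linarith only [hρ]))
    push_cast at key
    linarith only [key]

/-- **`3 | ring`, `x ≤ 7/100`: ramp, `b = 5`, any other hinge.** -/
theorem lo7_X5 (hw : W x m w) (hz : ZR s ρ ζ) (hρ : ρ ≤ 725 / 10000) (hm : m ≤ 0)
    (hm' : -(475 / 1000) ≤ m) (hx : x ≤ 7 / 100) (hF : FX 5 s ρ w ζ) :
    3 / 10 ≤ S4 m w ζ + Real.pi / 2 * m := by
  have x0 := hw.pos
  have s0 := hz.lo
  have s1 := hz.hi
  have r0 := hz.pos
  unfold FX at hF
  have hR : Dm (4 * ρ) w ζ ≤ (LRA.RX 5).val [x, -m, s, ρ] := by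
    simp only [LRA.RX, LRA.hb, E.val, NumI.lkR]
    push_cast
    linarith only [hF]
  rcases le_total (1 / 100) x with h | h
  · have key := LRA.la_key (k := 300) (t := 1310) hw hz hm (by linarith only [hx, x0])
      (by push_cast; nlinarith only [hm', hx, x0, hm]) hR
      (c_x5a (by linarith only [h]) (by linarith only [hx]) (by linarith only [hm]) (by linarith only [hm']) (by linarith only [s0]) (by linarith only [s1])
        (by linarith only [r0]) (by linarith only [hρ]))
    push_cast at key
    linarith only [key]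
  · have key := LRA.ls_key (n := 10) (k := 300) hw hz hm (by push_cast; linarith only [h]) (by norm_num) hR
      (c_x5c (by linarith only [x0]) (by linarith only [h]) (by linarith only [hm]) (by linarith only [hm']) (by linarith only [s0]) (by linarith only [s1])
        (by linarith only [r0]) (by linarith only [hρ]))
    push_cast at key
    linarith only [key]

/-- **Small positive heights, flat part.** -/
theorem ps_flat (hw : W x m w) (hz : ZF ζ) (hr : 84 / 1000 ≤ ζ.im) (hρ : ζ.im ≤ 895 / 10000)
    (hm : 0 ≤ m) (hm' : m ≤ 6 / 1000) (hx : x ≤ 13 / 100) :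
    3 / 10 ≤ S4 m w ζ + Real.pi / 2 * m := by
  have x0 := hw.pos
  have s0 := hz.lo
  have s1 := hz.hi
  have hpm : 0 ≤ Real.pi / 2 * m := mul_nonneg (by positivity) hm
  have key := keyFl (k := 300) hw hz hm hx
    (fun h => c_psfa (by linarith only [h]) (by linarith only [hx]) (by linarith only [hm]) (by linarith only [hm']) (by linarith only [s1])
      (by linarith only [s0]) (by linarith only [hr]) (by linarith only [hρ]))
    (fun h => c_psfb (by linarith only [x0]) (by linarith only [h]) (by linarith only [hm]) (by linarith only [hm']) (by linarith only [s1])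
      (by linarith only [s0]) (by linarith only [hr]) (by linarith only [hρ]))
  push_cast at key
  linarith only [hpm, key]

/-- **Small positive heights, ramp, `b = 4`, other hinge `≤ 1/2`.** -/
theorem ps_P4 (hw : W x m w) (hz : ZR s ρ ζ) (hr : 84 / 1000 ≤ ρ) (hρ : ρ ≤ 895 / 10000)
    (hm : 0 ≤ m) (hm' : m ≤ 6 / 1000) (hx : x ≤ 13 / 100) (hF : FP 4 s ρ w ζ) :
    2 / 10 ≤ S4 m w ζ + Real.pi / 2 * m := by
  have x0 := hw.pos
  have s0 := hz.lo
  have s1 := hz.hi
  have r0 := hz.pos
  have hpm : 0 ≤ Real.pi / 2 * m := mul_nonneg (by positivity) hm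
  have hmx : m * x ≤ 6 / 1000 * (13 / 100) :=
    mul_le_mul hm' (by linarith only [hx]) x0.le (by norm_num)
  have hrs : 84 / 1000 * (1 / 16) ≤ ρ * s := mul_le_mul hr s0 (by norm_num) r0.le
  have hi : m * x - 4 * ρ * s < 0 := by nlinarith only [hρ, r0, hmx, hrs]
  have hc : m - 4 * ρ ≤ 0 := by linarith only [hr, hm']
  unfold FP gE at hF
  split_ifs at hF with h12
  · have hR : Dm (4 * ρ) w ζ ≤ (RG gg1 4).val [x, m, s, ρ] := by
      simp only [RG, gg1, LRC.hb, E.val, NumI.lkR]
      push_cast
      linarith only [hF]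
    rcases le_total (1 / 100) x with h | h
    · have key := keyP (k := 200) hw hz hm (by linarith only [hx]) hR hi hc
        (c_psa (by linarith only [h]) (by linarith only [hx]) (by linarith only [hm]) (by linarith only [hm']) (by linarith only [s0])
          (by linarith only [h12]) (by linarith only [hr]) (by linarith only [hρ]))
      push_cast at key
      linarith only [hpm, key]
    · have key := keyPS (n := 10) (k := 300) hw hz hm (by push_cast; linarith only [h]) (by norm_num) hR hi.le
        hc (c_psc (by linarith only [x0]) (by linarith only [h]) (by linarith only [hm]) (by linarith only [hm']) (by linarith only [s0])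
          (by linarith only [h12]) (by linarith only [hr]) (by linarith only [hρ]))
      push_cast at key
      linarith only [x0, hpm, h, key]
  · have hR : Dm (4 * ρ) w ζ ≤ (RG gg2 4).val [x, m, s, ρ] := by
      simp only [RG, gg2, LRC.hb, E.val, NumI.lkR]
      push_cast
      linarith only [hF]
    rcases le_total (1 / 100) x with h | h
    · have key := keyP (k := 200) hw hz hm (by linarith only [hx]) hR hi hc
        (c_psb (by linarith only [h]) (by linarith only [hx]) (by linarith only [hm]) (by linarith only [hm']) (by linarith only [h12])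
          (by linarith only [s1]) (by linarith only [hr]) (by linarith only [hρ]))
      push_cast at key
      linarith only [hpm, key]
    · have key := keyPS (n := 10) (k := 300) hw hz hm (by push_cast; linarith only [h]) (by norm_num) hR hi.le
        hc (c_psd (by linarith only [x0]) (by linarith only [h]) (by linarith only [hm]) (by linarith only [hm']) (by linarith only [h12])
          (by linarith only [s1]) (by linarith only [hr]) (by linarith only [hρ]))
      push_cast at key
      linarith only [x0, hpm, h, key]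

/-- **The same for `x ≤ 12/100`.** -/
theorem ps12_P4 (hw : W x m w) (hz : ZR s ρ ζ) (hr : 84 / 1000 ≤ ρ) (hρ : ρ ≤ 895 / 10000)
    (hm : 0 ≤ m) (hm' : m ≤ 6 / 1000) (hx : x ≤ 12 / 100) (hF : FP 4 s ρ w ζ) :
    3 / 10 ≤ S4 m w ζ + Real.pi / 2 * m := by
  have x0 := hw.pos
  have s0 := hz.lo
  have s1 := hz.hi
  have r0 := hz.pos
  have hpm : 0 ≤ Real.pi / 2 * m := mul_nonneg (by positivity) hm
  have hmx : m * x ≤ 6 / 1000 * (13 / 100) :=
    mul_le_mul hm' (by linarith only [hρ, hx, r0]) x0.le (by norm_num)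
  have hrs : 84 / 1000 * (1 / 16) ≤ ρ * s := mul_le_mul hr s0 (by norm_num) r0.le
  have hi : m * x - 4 * ρ * s < 0 := by nlinarith only [hρ, r0, hmx, hrs]
  have hc : m - 4 * ρ ≤ 0 := by linarith only [hr, hm']
  unfold FP gE at hF
  split_ifs at hF with h12
  · have hR : Dm (4 * ρ) w ζ ≤ (RG gg1 4).val [x, m, s, ρ] := by
      simp only [RG, gg1, LRC.hb, E.val, NumI.lkR]
      push_cast
      linarith only [hF]
    rcases le_total (1 / 100) x with h | h
    · have key := keyP (k := 300) hw hz hm (by linarith only [hx]) hR hi hc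
        (c_psa12 (by linarith only [h]) (by linarith only [hx]) (by linarith only [hm]) (by linarith only [hm']) (by linarith only [s0])
          (by linarith only [h12]) (by linarith only [hr]) (by linarith only [hρ]))
      push_cast at key
      linarith only [hpm, key]
    · have key := keyPS (n := 10) (k := 300) hw hz hm (by push_cast; linarith only [h]) (by norm_num) hR hi.le
        hc (c_psc (by linarith only [x0]) (by linarith only [h]) (by linarith only [hm]) (by linarith only [hm']) (by linarith only [s0])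
          (by linarith only [h12]) (by linarith only [hr]) (by linarith only [hρ]))
      push_cast at key
      linarith only [hpm, key]
  · have hR : Dm (4 * ρ) w ζ ≤ (RG gg2 4).val [x, m, s, ρ] := by
      simp only [RG, gg2, LRC.hb, E.val, NumI.lkR]
      push_cast
      linarith only [hF]
    rcases le_total (1 / 100) x with h | h
    · have key := keyP (k := 300) hw hz hm (by linarith only [hx]) hR hi hc
        (c_psb12 (by linarith only [h]) (by linarith only [hx]) (by linarith only [hm]) (by linarith only [hm']) (by linarith only [h12])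
          (by linarith only [s1]) (by linarith only [hr]) (by linarith only [hρ]))
      push_cast at key
      linarith only [hpm, key]
    · have key := keyPS (n := 10) (k := 300) hw hz hm (by push_cast; linarith only [h]) (by norm_num) hR hi.le
        hc (c_psd (by linarith only [x0]) (by linarith only [h]) (by linarith only [hm]) (by linarith only [hm']) (by linarith only [h12])
          (by linarith only [s1]) (by linarith only [hr]) (by linarith only [hρ]))
      push_cast at key
      linarith only [hpm, key]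

end LR

end Pool.Agent.Work.MP_b30479_gt.G2
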