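import Pool.Agent.Work.NumI.Leaf
import Pool.Agent.Work.MP_b30479_gt.G2.Hess
import Pool.Agent.Work.MP_b30479_gt.G2.MRBase
import Pool.Agent.Work.MP_b30479_gt.G2.SIm
import Pool.Agent.Work.NumI.Tree

/-!
# Left ramps of the hinges of a ring: kernel evaluation on a box

Variables `x`, `M = -m`, `s`, `ρ`; `u = w + 1/2 + ζ`, `v = w + 1/2 - ζ`.

* `rD c e` is `S4 m w ζ + c m - e`, `rF r κ` is the first order condition (`≤ 0`).
* `lf` evaluates `rD + j/10 rF` or `rF` alone, in three forms (`s > x`, all `s`, `x > s`).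
-/

namespace Pool.Agent.Work.MP_b30479_gt.G2

open VOL NumI

namespace LR

/-- `v` -/
noncomputable def vC (x M s ρ : ℝ) : ℂ := ⟨x + 1 - s, -(4 * ρ * s + M * x)⟩

noncomputable def vA (x M s ρ : ℝ) : ℝ := LL (vC x M s ρ)
noncomputable def vB (x M s ρ : ℝ) : ℝ := -YY (vC x M s ρ)

noncomputable def rD (c e x M s ρ : ℝ) : ℝ :=
  lnA (x + s) (4 * ρ * s - M * x) + vA x M s ρ - 2 * lnA x (M * x) +
    (M * (lnB (x + s) (4 * ρ * s - M * x) + vB x M s ρ + 2 * lnB x (M * x) - c) - e)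

noncomputable def rF (r κ x M s ρ : ℝ) : ℝ :=
  lnA (x + s) (4 * ρ * s - M * x) - vA x M s ρ - κ +
    4 * ρ * (vB x M s ρ - lnB (x + s) (4 * ρ * s - M * x) - Real.pi * r)

structure Dom (x M s ρ : ℝ) : Prop where
  x0 : 0 < x
  x1 : x < 1 / 4
  s0 : 0 < s
  s1 : s ≤ 1 / 4
  r0 : 0 ≤ ρ
  m0 : 0 < M

theorem LL_lnA' (u : ℂ) : LL u = lnA u.re u.im := by
  rw [LL_eq', lnA]
  have := Num.den_eq u
  unfold MM at this
  congr 2
  linarith only [this]

theorem vA_eq (x M s ρ : ℝ) : vA x M s ρ = lnA (s - x) (4 * ρ * s + M * x) := by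
  unfold vA
  rw [LL_lnA']
  unfold vC lnA
  simp only
  congr 4
  · have e : Real.pi * (x + 1 - s) = Real.pi - Real.pi * (s - x) := by ring
    rw [e, Real.sin_pi_sub]
  · rw [mul_neg, Real.sinh_neg, neg_sq]

theorem lnA_neg_left (x t : ℝ) : lnA (-x) t = lnA x t := by
  unfold lnA
  rw [mul_neg, Real.sin_neg, neg_sq]

theorem vA_eq2 (x M s ρ : ℝ) : vA x M s ρ = lnA (x - s) (4 * ρ * s + M * x) := by
  rw [vA_eq, ← lnA_neg_left, neg_sub]

theorem vA_eq1 (x M s ρ : ℝ) : vA x M s ρ = (1 : ℕ) / (2 : ℕ) * Real.log ((4 : ℕ) / (1 : ℕ) *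
    (Real.sin (Real.pi * (x - s)) ^ 2 + Real.sinh (Real.pi * (4 * ρ * s + M * x)) ^ 2)) := by
  rw [vA_eq2]
  unfold lnA
  push_cast
  rw [div_one]
  ring

theorem lnB_one_sub (x t : ℝ) : lnB (1 - x) t = -lnB x t := by
  unfold lnB
  have e : Real.pi * (1 - x) = Real.pi - Real.pi * x := by ring
  rw [e, Real.sin_pi_sub, Real.cos_pi_sub, ← Real.arctan_neg]
  congr 1
  ring

theorem lnB_neg' (x t : ℝ) : lnB x (-t) = -lnB x t := lnB_neg x t

theorem vB_eq {x M s ρ : ℝ} (h : Dom x M s ρ) (hs : 0 < s - x) :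
    vB x M s ρ = lnB (s - x) (4 * ρ * s + M * x) := by
  have h1 := h.s1
  have h2 := h.x0
  unfold vB
  rw [Num.YY_lnB (u := vC x M s ρ) ⟨by unfold vC; simp only; linarith only [hs, h1, h2], by unfold vC; simp only; linarith only [hs]⟩]
  unfold vC
  simp only
  have e : x + 1 - s = 1 - (s - x) := by ring
  rw [e, lnB_one_sub, lnB_neg']
  ring

theorem vt_pos {x M s ρ : ℝ} (h : Dom x M s ρ) : 0 < 4 * ρ * s + M * x := by
  have := mul_pos h.m0 h.x0
  have := mul_nonneg h.r0 h.s0.le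
  nlinarith

theorem vB_eq2 {x M s ρ : ℝ} (h : Dom x M s ρ) (hs : 0 < x - s) :
    vB x M s ρ = Real.pi - lnB (x - s) (4 * ρ * s + M * x) := by
  have h1 := h.s0
  have h2 := h.x1
  have ht := vt_pos h
  unfold vB
  have e : vC x M s ρ = (⟨x - s, -(4 * ρ * s + M * x)⟩ : ℂ) + 1 := by
    apply Complex.ext
    · simp only [vC, Complex.add_re, Complex.one_re]; ring
    · simp only [vC, Complex.add_im, Complex.one_im]; ring
  rw [e, YY_add_one, if_neg (by simp only; linarith only [ht]), if_pos (by simp only; linarith only [ht]),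
    Num.YY_lnB (u := (⟨x - s, -(4 * ρ * s + M * x)⟩ : ℂ)) ⟨by simp only; linarith only [hs], by simp only; linarith only [hs, h1, h2]⟩]
  simp only
  rw [lnB_neg']
  ring

theorem arctan_inv' {a b : ℝ} (ha : 0 < a) (hb : 0 < b) :
    Real.arctan (a / b) = Real.pi / 2 - Real.arctan (b / a) := by
  have h := Real.arctan_inv_of_pos (div_pos hb ha)
  rw [inv_div] at h
  exact h

theorem vB_eq1 {x M s ρ : ℝ} (h : Dom x M s ρ) : vB x M s ρ = (1 : ℕ) / (2 : ℕ) * Real.pi +
    Real.arctan (Real.sin (Real.pi * (x - s)) * Real.cosh (Real.pi * (4 * ρ * s + M * x)) *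
      (Real.cos (Real.pi * (x - s)) * Real.sinh (Real.pi * (4 * ρ * s + M * x)))⁻¹) := by
  have hp := Real.pi_pos
  have ht := vt_pos h
  have h1 := h.s0
  have h2 := h.x1
  have h3 := h.s1
  have h4 := h.x0
  have hch := Real.cosh_pos (Real.pi * (4 * ρ * s + M * x))
  have hsh : 0 < Real.sinh (Real.pi * (4 * ρ * s + M * x)) := Real.sinh_pos_iff.mpr (by positivity)
  have hcos : 0 < Real.cos (Real.pi * (x - s)) :=
    Real.cos_pos_of_mem_Ioo ⟨by nlinarith only [hp, h1, h3, h4], by nlinarith only [hp, h1, h2]⟩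
  push_cast
  rcases lt_trichotomy s x with hs | hs | hs
  · have hs' : 0 < x - s := by linarith only [hs]
    rw [vB_eq2 h hs']
    have hsin : 0 < Real.sin (Real.pi * (x - s)) :=
      Real.sin_pos_of_pos_of_lt_pi (by positivity) (by nlinarith only [hp, h1, h2])
    unfold lnB
    have := arctan_inv' (a := Real.cos (Real.pi * (x - s)) * Real.sinh (Real.pi * (4 * ρ * s + M * x)))
      (b := Real.sin (Real.pi * (x - s)) * Real.cosh (Real.pi * (4 * ρ * s + M * x)))
      (by positivity) (by positivity)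
    rw [this, div_eq_mul_inv (Real.sin (Real.pi * (x - s)) * Real.cosh (Real.pi * (4 * ρ * s + M * x)))]
    ring
  · have hx0 : x - s = 0 := by linarith only [hs]
    rw [hx0]
    simp only [mul_zero, Real.sin_zero, zero_mul, Real.arctan_zero, add_zero]
    unfold vB
    have e : vC x M s ρ = (starRingEnd ℂ) (((4 * ρ * s + M * x : ℝ) : ℂ) * Complex.I) + 1 := by
      apply Complex.ext
      · simp [vC, hs]
      · simp [vC]
    have hi : ((starRingEnd ℂ) (((4 * ρ * s + M * x : ℝ) : ℂ) * Complex.I)).im =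
        -(4 * ρ * s + M * x) := by
      rw [Complex.conj_im]
      simp
    rw [e, YY_add_one, if_neg (by rw [hi]; linarith only [ht]), if_pos (by rw [hi]; linarith only [ht]), YY_conj,
      MR.YY_it ht]
    ring
  · have hs' : 0 < s - x := by linarith only [hs]
    rw [vB_eq h hs']
    have hsin : 0 < Real.sin (Real.pi * (s - x)) :=
      Real.sin_pos_of_pos_of_lt_pi (by positivity) (by nlinarith only [hp, h1, h3, h4])
    have es : Real.sin (Real.pi * (x - s)) = -Real.sin (Real.pi * (s - x)) := by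
      rw [← Real.sin_neg]; congr 1; ring
    have ec : Real.cos (Real.pi * (x - s)) = Real.cos (Real.pi * (s - x)) := by
      rw [← Real.cos_neg]; congr 1; ring
    rw [ec] at hcos
    unfold lnB
    have := arctan_inv' (a := Real.cos (Real.pi * (s - x)) * Real.sinh (Real.pi * (4 * ρ * s + M * x)))
      (b := Real.sin (Real.pi * (s - x)) * Real.cosh (Real.pi * (4 * ρ * s + M * x)))
      (by positivity) (by positivity)
    rw [this, es, ec, neg_mul, neg_mul, Real.arctan_neg,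
      div_eq_mul_inv (Real.sin (Real.pi * (s - x)) * Real.cosh (Real.pi * (4 * ρ * s + M * x)))]
    ring

/-! ### evaluation -/

/-- `1/2 log (4 (sin^2 + sinh^2))` -/
def svA (X S vt : F) : Option F :=
  o0 (fun sh => o0 (fun l => some (F.mulq 1 2 l)) (F.log (F.mulq 4 1 ((X.sub S).sinPi.sqn.add sh.sqn))))
    (F.hyp false (F.pi.mul vt))

def svB (X S vt : F) : Option F :=
  o0 (fun sh => o0 (fun ch => o0 (fun iv => o0 (fun at' => some ((F.mulq 1 2 F.pi).add at'))
    (F.atan (((X.sub S).sinPi.mul ch).mul iv))) (F.inv ((X.sub S).cosPi.mul sh)))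
      (F.hyp true (F.pi.mul vt))) (F.hyp false (F.pi.mul vt))

/-- the combination; `j = 40`: only `rF` -/
def comb (j : ℕ) (M r4 cX eX rS kS au bu av bv aw bw : F) : F :=
  (((au.add av).sub (aw.add aw)).add ((M.mul ((bu.add bv).add ((bw.add bw).sub cX))).sub eX)).add
    (F.mulq j 10 (((au.sub av).sub kS).add (r4.mul ((bv.sub bu).sub (F.pi.mul rS)))))

def combF (r4 rS kS au bu av bv : F) : F :=
  ((au.sub av).sub kS).add (r4.mul ((bv.sub bu).sub (F.pi.mul rS)))

def lf (j : ℕ) (cX eX rS kS X M S R : F) (fa fb : F → Option F) : Bool :=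
  let T := M.mul X
  let r4 := F.mulq 4 1 R
  let eta := r4.mul S
  let ut := eta.sub T
  let vt := eta.add T
  let ux := X.add S
  posO' (o0 (fun au => o0 (fun bu => o0 (fun av => o0 (fun bv =>
    cond (Nat.beq j 40) (some (combF r4 rS kS au bu av bv))
      (o0 (fun aw => o0 (fun bw => some (comb j M r4 cX eX rS kS au bu av bv aw bw)) (F.lnB X T)) (F.lnA X T)))
    (fb vt)) (fa vt)) (F.lnB ux ut)) (F.lnA ux ut))

/-- the test with the code `k = 3 j + form` -/
def tst (cX eX rS kS : F → F) (k : ℕ) (X M S R : F) : Bool :=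
  cond (Nat.beq (Nat.mod k 3) 0)
    (cond (posF (S.sub X)) (lf (Nat.div k 3) (cX X) (eX X) (rS S) (kS S) X M S R
      (F.lnA (S.sub X)) (F.lnB (S.sub X))) false)
    (cond (Nat.beq (Nat.mod k 3) 1)
      (lf (Nat.div k 3) (cX X) (eX X) (rS S) (kS S) X M S R (svA X S) (svB X S))
      (cond (posF (X.sub S)) (lf (Nat.div k 3) (cX X) (eX X) (rS S) (kS S) X M S R
        (F.lnA (X.sub S)) (fun vt => o1 (fun b => F.pi.sub b) (F.lnB (X.sub S) vt))) false))

theorem svA_sound {X S vt c : F} {ε : ℕ → ℝ} {x s t : ℝ} (hε : ∀ i, |ε i| ≤ 1) (hX : X.Encl ε x)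
    (hS : S.Encl ε s) (ht : vt.Encl ε t) (h : svA X S vt = some c) :
    c.Encl ε ((1 : ℕ) / (2 : ℕ) * Real.log ((4 : ℕ) / (1 : ℕ) *
      (Real.sin (Real.pi * (x - s)) ^ 2 + Real.sinh (Real.pi * t) ^ 2))) := by
  obtain ⟨sh, hsh, h⟩ := o0_some h
  obtain ⟨l, hl, h⟩ := o0_some h
  rw [← Option.some.inj h]
  refine F.Encl.mulq (by norm_num) hε (F.Encl.log hε ?_ hl)
  refine F.Encl.mulq (by norm_num) hε (F.Encl.add (F.Encl.sqn hε (F.Encl.sinPi hε (F.Encl.sub hX hS)))
    (F.Encl.sqn hε (F.Encl.sinh hε (F.Encl.mul hε (F.Encl.pi ε) ht) hsh)))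

theorem svB_sound {X S vt c : F} {ε : ℕ → ℝ} {x s t : ℝ} (hε : ∀ i, |ε i| ≤ 1) (hX : X.Encl ε x)
    (hS : S.Encl ε s) (ht : vt.Encl ε t) (h : svB X S vt = some c) :
    c.Encl ε ((1 : ℕ) / (2 : ℕ) * Real.pi +
      Real.arctan (Real.sin (Real.pi * (x - s)) * Real.cosh (Real.pi * t) *
      (Real.cos (Real.pi * (x - s)) * Real.sinh (Real.pi * t))⁻¹)) := by
  obtain ⟨sh, hsh, h⟩ := o0_some h
  obtain ⟨ch, hch, h⟩ := o0_some h
  obtain ⟨iv, hiv, h⟩ := o0_some h
  obtain ⟨at', hat, h⟩ := o0_some h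
  rw [← Option.some.inj h]
  have k1 := F.Encl.sinh hε (F.Encl.mul hε (F.Encl.pi ε) ht) hsh
  have k2 := F.Encl.cosh hε (F.Encl.mul hε (F.Encl.pi ε) ht) hch
  have k3 := F.Encl.inv hε (F.Encl.mul hε (F.Encl.cosPi hε (F.Encl.sub hX hS)) k1) hiv
  exact F.Encl.add (F.Encl.mulq (by norm_num) hε (F.Encl.pi ε)) (F.Encl.atan hε (F.Encl.mul hε
    (F.Encl.mul hε (F.Encl.sinPi hε (F.Encl.sub hX hS)) k2) k3) hat)

theorem lf_sound {j : ℕ} {cX eX rS kS X M S R : F} {fa fb : F → Option F} {ε : ℕ → ℝ}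
    {c e r κ x m s ρ : ℝ} (hε : ∀ i, |ε i| ≤ 1) (hX : X.Encl ε x) (hM : M.Encl ε m) (hS : S.Encl ε s)
    (hR : R.Encl ε ρ) (hc : cX.Encl ε c) (he : eX.Encl ε e) (hr : rS.Encl ε r) (hk : kS.Encl ε κ)
    (ha : ∀ {vt c : F}, vt.Encl ε (4 * ρ * s + m * x) → fa vt = some c → c.Encl ε (vA x m s ρ))
    (hb : ∀ {vt c : F}, vt.Encl ε (4 * ρ * s + m * x) → fb vt = some c → c.Encl ε (vB x m s ρ))
    (h : lf j cX eX rS kS X M S R fa fb = true) (hF : rF r κ x m s ρ ≤ 0) : 0 < rD c e x m s ρ := by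
  have kT : (M.mul X).Encl ε (m * x) := F.Encl.mul hε hM hX
  have k4 : (F.mulq 4 1 R).Encl ε (4 * ρ) := by
    have := F.Encl.mulq (n := 4) (d := 1) (by norm_num) hε hR
    push_cast at this
    rwa [div_one] at this
  have kE := F.Encl.mul hε k4 hS
  have kut := F.Encl.sub kE kT
  have kvt := F.Encl.add kE kT
  have kux := F.Encl.add hX hS
  unfold lf at h
  simp only at h
  set G := o0 (fun au => o0 (fun bu => o0 (fun av => o0 (fun bv =>
    cond (Nat.beq j 40) (some (combF (F.mulq 4 1 R) rS kS au bu av bv))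
      (o0 (fun aw => o0 (fun bw => some (comb j M (F.mulq 4 1 R) cX eX rS kS au bu av bv aw bw))
        (F.lnB X (M.mul X))) (F.lnA X (M.mul X))))
    (fb (((F.mulq 4 1 R).mul S).add (M.mul X)))) (fa (((F.mulq 4 1 R).mul S).add (M.mul X))))
    (F.lnB (X.add S) (((F.mulq 4 1 R).mul S).sub (M.mul X))))
    (F.lnA (X.add S) (((F.mulq 4 1 R).mul S).sub (M.mul X))) with hG
  rcases hGc : G with _ | g
  · rw [hGc] at h
    exact absurd h (by simp [posO'])
  rw [hG] at hGc
  obtain ⟨au, hau, h1⟩ := o0_some hGc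
  obtain ⟨bu, hbu, h1⟩ := o0_some h1
  obtain ⟨av, hav, h1⟩ := o0_some h1
  obtain ⟨bv, hbv, h1⟩ := o0_some h1
  have eau := F.Encl.lnA hε kux kut hau
  have ebu := F.Encl.lnB hε kux kut hbu
  have eav := ha kvt hav
  have ebv := hb kvt hbv
  have hpos : posF g = true := by
    have e : G = some g := by rw [hG]; exact hGc
    rw [e] at h
    exact h
  have kF := F.Encl.add (F.Encl.sub (F.Encl.sub eau eav) hk) (F.Encl.mul hε k4
    (F.Encl.sub (F.Encl.sub ebv ebu) (F.Encl.mul hε (F.Encl.pi ε) hr)))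
  rcases hj : Nat.beq j 40 with _ | _
  · rw [hj, cond_false] at h1
    obtain ⟨aw, haw, h1⟩ := o0_some h1
    obtain ⟨bw, hbw, h1⟩ := o0_some h1
    have eaw := F.Encl.lnA hε hX kT haw
    have ebw := F.Encl.lnB hε hX kT hbw
    have kD := F.Encl.add (F.Encl.add (F.Encl.sub (F.Encl.add eau eav) (F.Encl.add eaw eaw))
      (F.Encl.sub (F.Encl.mul hε hM (F.Encl.add (F.Encl.add ebu ebv)
        (F.Encl.sub (F.Encl.add ebw ebw) hc))) he)) (F.Encl.mulq (n := j) (d := 10) (by norm_num) hε kF)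
    have hp := posF_spec hε kD (by rw [← Option.some.inj h1] at hpos; exact hpos)
    have hj0 : (0 : ℝ) ≤ (j : ℝ) / (10 : ℕ) := by positivity
    have := mul_nonpos_of_nonneg_of_nonpos hj0 hF
    unfold rF at this
    unfold rD
    linarith only [hp, this]
  · rw [hj, cond_true] at h1
    have hp := posF_spec hε kF (by rw [← Option.some.inj h1] at hpos; exact hpos)
    unfold rF at hF
    linarith only [hF, hp]

/-- the property which the test proves -/
def Pr (c e r κ : ℝ → ℝ) (x M s ρ : ℝ) : Prop :=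
  Dom x M s ρ → rF (r s) (κ s) x M s ρ ≤ 0 → 0 < rD (c x) (e x) x M s ρ

/-- `g` evaluates `f` -/
def Ev (g : F → F) (f : ℝ → ℝ) : Prop :=
  ∀ {X : F} {ε : ℕ → ℝ} {x : ℝ}, (∀ i, |ε i| ≤ 1) → X.Encl ε x → (g X).Encl ε (f x)

theorem tst_ok {cX eX rS kS : F → F} {c e r κ : ℝ → ℝ} (hc : Ev cX c) (he : Ev eX e) (hr : Ev rS r)
    (hk : Ev kS κ) : TestOk (tst cX eX rS kS) (Pr c e r κ) := by
  intro k X M S R ε x m s ρ hε hX hM hS hR h hD hF
  unfold tst at h
  rcases h0 : Nat.beq (Nat.mod k 3) 0 with _ | _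
  · rw [h0, cond_false] at h
    rcases h1 : Nat.beq (Nat.mod k 3) 1 with _ | _
    · rw [h1, cond_false] at h
      rcases h2 : posF (X.sub S) with _ | _
      · rw [h2, cond_false] at h
        exact absurd h (by simp)
      · rw [h2, cond_true] at h
        have hs := posF_spec hε (F.Encl.sub hX hS) h2
        refine lf_sound hε hX hM hS hR (hc hε hX) (he hε hX) (hr hε hS) (hk hε hS) ?_ ?_ h hF
        · intro vt c hv hc
          rw [vA_eq2]
          exact F.Encl.lnA hε (F.Encl.sub hX hS) hv hc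
        · intro vt c hv hc
          rw [vB_eq2 hD hs]
          obtain ⟨b, hb, rfl⟩ := o1_some hc
          exact F.Encl.sub (F.Encl.pi ε) (F.Encl.lnB hε (F.Encl.sub hX hS) hv hb)
    · rw [h1, cond_true] at h
      refine lf_sound hε hX hM hS hR (hc hε hX) (he hε hX) (hr hε hS) (hk hε hS) ?_ ?_ h hF
      · intro vt c hv hc
        rw [vA_eq1]
        exact svA_sound hε hX hS hv hc
      · intro vt c hv hc
        rw [vB_eq1 hD]
        exact svB_sound hε hX hS hv hc
  · rw [h0, cond_true] at h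
    rcases h2 : posF (S.sub X) with _ | _
    · rw [h2, cond_false] at h
      exact absurd h (by simp)
    · rw [h2, cond_true] at h
      have hs := posF_spec hε (F.Encl.sub hS hX) h2
      refine lf_sound hε hX hM hS hR (hc hε hX) (he hε hX) (hr hε hS) (hk hε hS) ?_ ?_ h hF
      · intro vt c hv hc
        rw [vA_eq]
        exact F.Encl.lnA hε (F.Encl.sub hS hX) hv hc
      · intro vt c hv hc
        rw [vB_eq hD hs]
        exact F.Encl.lnB hε (F.Encl.sub hS hX) hv hc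

end LR

end Pool.Agent.Work.MP_b30479_gt.G2
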