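import Pool.Agent.Work.MP_b30479_gt.G2.LRB0
import Pool.Agent.Work.MP_b30479_gt.G2.WPar

/-!
# Left ramps of the hinges of a ring: small `x`
-/

namespace Pool.Agent.Work.MP_b30479_gt.G2

open VOL NumI

namespace LR

variable {m x s ρ : ℝ} {w ζ : ℂ}

theorem sinh_sq_le {y : ℝ} (h : |y| ≤ 1 / 2) : Real.sinh y ^ 2 ≤ y ^ 2 + 2 * y ^ 4 := by
  have h1 : Real.cosh (2 * y) = 2 * Real.sinh y ^ 2 + 1 := by
    rw [Real.cosh_two_mul, Real.cosh_sq]
    ring
  have h2 := Real.cosh_le_exp_half_sq (2 * y)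
  have e : (2 * y) ^ 2 / 2 = 2 * y ^ 2 := by ring
  rw [e] at h2
  have hy : y ^ 2 ≤ 1 / 4 := by
    have := abs_le.mp h
    nlinarith only [this]
  have h3 := abs_le.mp (Real.abs_exp_sub_one_sub_id_le (x := 2 * y ^ 2) (by
    rw [abs_of_nonneg (by positivity)]
    linarith only [hy]))
  nlinarith only [h1, h2, h3, h3.2]

theorem MMw_le {y : ℝ} (hy : |Real.pi * y| ≤ 1 / 2) :
    MM x y ≤ (Real.pi * x) ^ 2 + ((Real.pi * y) ^ 2 + 2 * (Real.pi * y) ^ 4) := by
  unfold MM
  have h1 := sinh_sq_le hy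
  have h2 : Real.sin (Real.pi * x) ^ 2 ≤ (Real.pi * x) ^ 2 := by
    rw [sq_le_sq]
    exact Real.abs_sin_le_abs
  linarith only [h1, h2]

theorem MMv_ge {t : ℝ} {y : ℝ} (h0 : 0 ≤ t) (h1 : t ≤ 1 / 2) : (2 * t) ^ 2 ≤ MM t y := by
  have hp := Real.pi_pos
  have h2 := Real.mul_le_sin (x := Real.pi * t) (by positivity) (by nlinarith only [h1, hp])
  have e : 2 / Real.pi * (Real.pi * t) = 2 * t := by field_simp
  rw [e] at h2
  unfold MM
  have h3 : (2 * t) ^ 2 ≤ Real.sin (Real.pi * t) ^ 2 := by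
    apply pow_le_pow_left₀ (by positivity) h2
  have h4 := sq_nonneg (Real.sinh (Real.pi * y))
  linarith only [h3, h4]

/-- ramp of the ring variable, `x` small -/
theorem small_ramp (hw : W x m w) (hz : ZR s ρ ζ) (hm : m ≤ 0) (hm' : -(131 / 100) ≤ m)
    (hx : x ≤ 4 / 1000) : 35 / 10 ≤ LL (w + 1 / 2 + ζ) + LL (w + 1 / 2 - ζ) - 2 * LL w := by
  have hp := Real.pi_pos
  have hp2 := Real.pi_lt_d4
  have h1 := hw.pos
  have h2 := hz.lo
  have h3 := hz.hi
  have hv : LL (w + 1 / 2 - ζ) = lnA (s - x) (4 * ρ * s + -m * x) := by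
    rw [v_eq hw hz]
    exact vA_eq x (-m) s ρ
  rw [hv, u_eq hw hz, LL_lnA' ⟨x + s, _⟩, LL_lnA' w, hw.re, hw.im]
  simp only
  unfold lnA
  have a1 : 1 / 16 ≤ 4 * (Real.sin (Real.pi * (x + s)) ^ 2 +
      Real.sinh (Real.pi * (4 * ρ * s - -m * x)) ^ 2) := by
    have := MMv_ge (t := x + s) (y := 4 * ρ * s - -m * x) (by linarith only [hx, h1, h2]) (by linarith only [hx, h1, h3])
    unfold MM at this
    nlinarith only [h2, this, hx, h1]
  have a2 : 54756 / 1000000 ≤ 4 * (Real.sin (Real.pi * (s - x)) ^ 2 +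
      Real.sinh (Real.pi * (4 * ρ * s + -m * x)) ^ 2) := by
    have := MMv_ge (t := s - x) (y := 4 * ρ * s + -m * x) (by linarith only [hx, h1, h2]) (by linarith only [hx, h1, h3])
    unfold MM at this
    have h4 : 585 / 10000 ≤ s - x := by linarith only [hx, h2]
    nlinarith only [hx, h2, this]
  have hmx : |m * x| ≤ 524 / 100000 := by
    rw [abs_le]
    constructor <;> nlinarith only [hm', hm, hx, h1]
  have hpm : |Real.pi * (m * x)| ≤ 16463 / 1000000 := by
    rw [abs_mul, abs_of_pos hp]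
    nlinarith only [hx, hp2, h1, hp, hmx, abs_nonneg (m * x)]
  have a3 : 4 * (Real.sin (Real.pi * x) ^ 2 + Real.sinh (Real.pi * (m * x)) ^ 2) ≤ 172 / 100000 := by
    have := MMw_le (x := x) (y := m * x) (by linarith only [hx, h1, hpm])
    unfold MM at this
    have b1 : (Real.pi * x) ^ 2 ≤ (12567 / 1000000) ^ 2 := by
      apply pow_le_pow_left₀ (by positivity)
      nlinarith only [hx, hp2, h1, hp]
    have b2 : (Real.pi * (m * x)) ^ 2 ≤ (16463 / 1000000) ^ 2 := by
      rw [← sq_abs]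
      exact pow_le_pow_left₀ (abs_nonneg _) hpm 2
    have b3 : (Real.pi * (m * x)) ^ 4 ≤ ((16463 / 1000000) ^ 2) ^ 2 := by
      have e : (Real.pi * (m * x)) ^ 4 = ((Real.pi * (m * x)) ^ 2) ^ 2 := by ring
      rw [e]
      exact pow_le_pow_left₀ (by positivity) b2 2
    linarith only [hx, h1, this, b1, b2, b3]
  have a4 : 0 < 4 * (Real.sin (Real.pi * x) ^ 2 + Real.sinh (Real.pi * (m * x)) ^ 2) := by
    have : 0 < Real.sin (Real.pi * x) :=
      Real.sin_pos_of_pos_of_lt_pi (by positivity) (by nlinarith only [hp, hx])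
    have := sq_nonneg (Real.sinh (Real.pi * (m * x)))
    positivity
  have l1 := Real.log_le_log (by norm_num) a1
  have l2 := Real.log_le_log (by norm_num) a2
  have l3 := Real.log_le_log a4 a3
  have l4 : 7 ≤ Real.log (1 / 16) + Real.log (54756 / 1000000) - 2 * Real.log (172 / 100000) := by
    have e : Real.log (1 / 16) + Real.log (54756 / 1000000) - 2 * Real.log (172 / 100000) =
        Real.log (1 / 16 * (54756 / 1000000) / (172 / 100000) ^ 2) := by
      have k1 := Real.log_div (x := 1 / 16 * (54756 / 1000000)) (y := (172 / 100000) ^ 2) (by norm_num)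
        (by norm_num)
      have k2 := Real.log_mul (x := 1 / 16) (y := 54756 / 1000000) (by norm_num) (by norm_num)
      have k3 : Real.log ((172 / 100000 : ℝ) ^ 2) = 2 * Real.log (172 / 100000) := by
        rw [Real.log_pow]
        push_cast
        ring
      rw [k1, k2, k3]
    rw [e, Real.le_log_iff_exp_le (by norm_num)]
    have e7 : Real.exp 7 = Real.exp 1 ^ 7 := by
      rw [← Real.exp_nat_mul]
      norm_num
    rw [e7]
    have h9 := Real.exp_one_lt_d9
    calc Real.exp 1 ^ 7 ≤ 2.7182818286 ^ 7 := pow_le_pow_left₀ (Real.exp_pos 1).le h9.le 7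
      _ ≤ _ := by norm_num
  linarith only [l1, l2, l3, l4]

/-- `LL` is nonnegative in the middle third of the strip -/
theorem LL_mid {u : ℂ} (h1 : 1 / 6 ≤ u.re) (h2 : u.re ≤ 5 / 6) : 0 ≤ LL u := by
  have hp := Real.pi_pos
  rw [LL_lnA']
  unfold lnA
  have hs : 1 / 2 ≤ Real.sin (Real.pi * u.re) := by
    rcases le_total u.re (1 / 2) with h | h
    · have := Real.sin_le_sin_of_le_of_le_pi_div_two (x := Real.pi / 6) (y := Real.pi * u.re)
        (by linarith only [hp]) (by nlinarith only [hp, h]) (by nlinarith only [h1, hp])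
      rw [Real.sin_pi_div_six] at this
      exact this
    · have := Real.sin_le_sin_of_le_of_le_pi_div_two (x := Real.pi / 6) (y := Real.pi - Real.pi * u.re)
        (by linarith only [hp]) (by nlinarith only [hp, h]) (by nlinarith only [h2, hp])
      rw [Real.sin_pi_div_six, Real.sin_pi_sub] at this
      exact this
  have h3 : 1 ≤ 4 * (Real.sin (Real.pi * u.re) ^ 2 + Real.sinh (Real.pi * u.im) ^ 2) := by
    have := sq_nonneg (Real.sinh (Real.pi * u.im))
    nlinarith only [hs]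
  have := Real.log_nonneg h3
  linarith only [this]

theorem flat_LL (hw : W x m w) (hz : ZF ζ) (hx : x ≤ 83 / 1000) :
    0 ≤ LL (w + 1 / 2 + ζ) + LL (w + 1 / 2 - ζ) := by
  have h1 := hw.pos
  have h2 := hz.lo
  have h3 := hz.hi
  have hh : ((1 : ℂ) / 2).re = 1 / 2 := by norm_num
  have a1 := LL_mid (u := w + 1 / 2 + ζ) (by rw [Complex.add_re, Complex.add_re, hh, hw.re]; linarith only [hx, h1, h2])
    (by rw [Complex.add_re, Complex.add_re, hh, hw.re]; linarith only [hx, h1, h3])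
  have a2 := LL_mid (u := w + 1 / 2 - ζ) (by rw [Complex.sub_re, Complex.add_re, hh, hw.re]; linarith only [hx, h1, h3])
    (by rw [Complex.sub_re, Complex.add_re, hh, hw.re]; linarith only [hx, h1, h2])
  linarith only [a1, a2]

/-- `LL w` for small `x`, bound `K` of `4 |sin πw|^2` -/
theorem LLw_small {K y : ℝ} (hw : W x m w) (hx1 : x < 1) (hy : |Real.pi * (m * x)| ≤ y) (hy1 : y ≤ 1 / 2)
    (hK : 4 * ((Real.pi * x) ^ 2 + (y ^ 2 + 2 * y ^ 4)) ≤ K) : 2 * LL w ≤ Real.log K := by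
  have hp := Real.pi_pos
  have h1 := hw.pos
  rw [LL_lnA' w, hw.re, hw.im]
  unfold lnA
  have a3 : 4 * (Real.sin (Real.pi * x) ^ 2 + Real.sinh (Real.pi * (m * x)) ^ 2) ≤ K := by
    have := MMw_le (x := x) (y := m * x) (by linarith only [hy, hy1])
    unfold MM at this
    have b2 : (Real.pi * (m * x)) ^ 2 ≤ y ^ 2 := by
      rw [← sq_abs]
      exact pow_le_pow_left₀ (abs_nonneg _) hy 2
    have b3 : (Real.pi * (m * x)) ^ 4 ≤ y ^ 4 := by
      have e : (Real.pi * (m * x)) ^ 4 = ((Real.pi * (m * x)) ^ 2) ^ 2 := by ring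
      have e' : y ^ 4 = (y ^ 2) ^ 2 := by ring
      rw [e, e']
      exact pow_le_pow_left₀ (by positivity) b2 2
    linarith only [hK, this, b2, b3]
  have a4 : 0 < 4 * (Real.sin (Real.pi * x) ^ 2 + Real.sinh (Real.pi * (m * x)) ^ 2) := by
    have : 0 < Real.sin (Real.pi * x) :=
      Real.sin_pos_of_pos_of_lt_pi (by positivity) (by nlinarith only [hx1, hp])
    have := sq_nonneg (Real.sinh (Real.pi * (m * x)))
    positivity
  have l3 := Real.log_le_log a4 a3
  linarith only [l3]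

/-- `x ≤ .02`, `|m| ≤ .9875`: `2 LL w ≤ -3.45` -/
theorem LLw_02 (hw : W x m w) (hx : x ≤ 2 / 100) (hm : m ≤ 0) (hm' : -(9875 / 10000) ≤ m) :
    2 * LL w ≤ -(345 / 100) := by
  have hp := Real.pi_pos
  have hp2 := Real.pi_lt_d4
  have h1 := hw.pos
  have hmx : |m * x| ≤ 1975 / 100000 := by
    rw [abs_le]
    constructor <;> nlinarith only [hm', hx, hm, h1]
  have hpm : |Real.pi * (m * x)| ≤ 6206 / 100000 := by
    rw [abs_mul, abs_of_pos hp]
    nlinarith only [hx, hp2, h1, hp, hmx, abs_nonneg (m * x)]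
  have hx2 : (Real.pi * x) ^ 2 ≤ (62832 / 1000000) ^ 2 := by
    apply pow_le_pow_left₀ (by positivity)
    nlinarith only [hp2, hx, hp]
  have h := LLw_small (K := 3134 / 100000) hw (by linarith only [hx, h1]) hpm (by norm_num) (by
    norm_num at hx2 ⊢
    linarith only [hx, h1, hx2])
  refine h.trans ?_
  rw [← Real.log_exp (-(345 / 100))]
  apply Real.log_le_log (by norm_num)
  have e : Real.exp (-(345 / 100)) = (Real.exp (345 / 100))⁻¹ := Real.exp_neg _
  rw [e, le_inv_comm₀ (by norm_num) (Real.exp_pos _)]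
  have e2 : Real.exp (345 / 100) = Real.exp 1 ^ 3 * Real.exp (45 / 100) := by
    rw [← Real.exp_nat_mul, ← Real.exp_add]
    norm_num
  have h9 := Real.exp_one_lt_d9
  have e3 : Real.exp (45 / 100) ≤ 1569 / 1000 := by
    have := Real.exp_bound' (x := 45 / 100) (by norm_num) (by norm_num) (n := 5) (by norm_num)
    refine this.trans ?_
    norm_num [Finset.sum_range_succ, Nat.factorial]
  rw [e2]
  have e4 : Real.exp 1 ^ 3 ≤ 2.7182818286 ^ 3 := pow_le_pow_left₀ (Real.exp_pos 1).le h9.le 3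
  calc Real.exp 1 ^ 3 * Real.exp (45 / 100) ≤ 2.7182818286 ^ 3 * (1569 / 1000) := by
        apply mul_le_mul e4 e3 (Real.exp_pos _).le (by norm_num)
    _ ≤ _ := by norm_num

end LR

end Pool.Agent.Work.MP_b30479_gt.G2
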