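import Mathlib

/-!
# Left ramps of the hinges of a ring, heights `≤ 0`, shift `π / 2` (block A)

`LR.lo_flat`, `LR.lo_P4`, `LR.lo_P5`, `LR.lo_X4`, `LR.lo_X5`.
-/
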