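import Pool.Agent.Work.NumU.Expr

/-!
# Left ramps of the hinges of a ring, heights `≤ 0`, shift `π / 2`: expressions

`D` is the side, `F ≤ 0` the first order condition of the ring variable.  Every expression of the list
`la` is a lower bound of `D` or of `D + F` (in `D + F` the logarithmic singularity at `w + 1/2 - ζ = 1`
cancels).  Variables: `x`, `-m`, `s`, `ρ`.
-/

namespace Pool.Agent.Work.MP_b30479_gt.G2

open VOL NumU

namespace LRA



section
open NumU.E

/-- the height of `w`, the height of `ζ` -/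
def aT : E := neg (mul (var 1) (var 0))
def aH : E := mul (mul (q 4 1) (var 3)) (var 2)
/-- `w + 1/2 + ζ` -/
def aLu : E := lnA (add (var 0) (var 2)) (add aT aH)
def aYu : E := neg (lnB (add (var 0) (var 2)) (add aT aH))
/-- `w + 1/2 - ζ`, first form -/
def aLv1 : E := lnA (sub (var 2) (var 0)) (sub aH aT)
def aYv1 : E := neg (lnB (sub (var 2) (var 0)) (sub aH aT))
/-- `w + 1/2 - ζ`, second form -/
def aLv2 : E := mul (q 1 2) (log (sub (mul (q 2 1) (cosh (mul (mul (q 2 1) E.pi) (sub aH aT))))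
  (mul (q 2 1) (cosPi (mul (q 2 1) (sub (var 0) (var 2)))))))
def aYv2 : E := neg (add (mul (q 1 2) E.pi) (atan (mul (mul (sinPi (sub (var 0) (var 2)))
  (cosh (mul E.pi (sub aH aT)))) (inv (mul (cosPi (sub (var 0) (var 2)))
    (sinh (mul E.pi (sub aH aT))))))))
/-- `w` -/
def aLw : E := lnA (var 0) aT
def aYw : E := neg (lnB (var 0) aT)
/-- `w` for `x ≤ n / 1000` -/
def aLw0 (n : ℤ) : E := lnA (q n 1000) (neg (mul (var 1) (q n 1000)))

/-- `D - k / 1000` -/
def eDD (lv yv : E) (k : ℤ) : E :=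
  sub (sub (sub (sub (add aLu lv) (mul (q 2 1) aLw)) (mul (var 1)
    (sub (add aYu yv) (mul (q 2 1) aYw)))) (mul (mul (q 1 2) E.pi) (var 1))) (q k 1000)
/-- `D + F - k / 1000` without `YY v` -/
def eG0 (R : E) (k : ℤ) : E :=
  sub (sub (sub (add (add (mul (q 2 1) (sub aLu aLw)) (mul (sub (mul (q 4 1) (var 3)) (var 1)) aYu))
    (mul (var 1) (mul (q 2 1) aYw))) (mul (mul (q 1 2) E.pi) (var 1))) (q k 1000)) R
/-- `D + F - k / 1000` -/
def eG (yv R : E) (k : ℤ) : E := sub (eG0 R k) (mul (add (var 1) (mul (q 4 1) (var 3))) yv)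
/-- `D - k / 1000`, small `x` -/
def eDS (n : ℤ) (lv yv : E) (k : ℤ) : E :=
  sub (sub (sub (sub (add aLu lv) (mul (q 2 1) (aLw0 n))) (mul (var 1) (add aYu yv)))
    (mul (mul (q 1 2) E.pi) (var 1))) (q k 1000)
/-- `D + F - k / 1000`, small `x` -/
def eGS (n : ℤ) (yv R : E) (k : ℤ) : E :=
  sub (sub (sub (sub (add (mul (q 2 1) (sub aLu (aLw0 n)))
    (mul (sub (mul (q 4 1) (var 3)) (var 1)) aYu)) (mul (mul (q 1 2) E.pi) (var 1))) (q k 1000)) R)
    (mul (add (var 1) (mul (q 4 1) (var 3))) yv)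

def hb (b : ℤ) : E := sub (q 2 1) (mul (q b 1) (sub (q 1 1) (mul (q 4 1) (var 2))))
def g1 : E := q 1 1
def g2 : E := sub (q 107 100) (mul (q 17 1) (sq (var 2)))
def RP (g : E) (b : ℤ) : E := mul (mul (mul (q 4 1) E.pi) (var 3)) (add (hb b) g)
def RX (b : ℤ) : E := add (mul (mul (mul (q 4 1) E.pi) (var 3)) (hb b)) (mul (q 45 10) (var 2))
/-- `-T > t / 10000` -/
def eT (t : ℤ) : E := sub (mul (var 1) (var 0)) (q t 10000)

/-- the list for `x ≥ 1 / 100` -/
def la (R : E) (k t : ℤ) : List E :=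
  [eG aYv1 R k, eDD aLv1 aYv1 k, eG aYv2 R k, eDD aLv2 aYv2 k, eG0 R k, eT t]
/-- the list for `x ≤ n / 1000` -/
def ls (n : ℤ) (R : E) (k : ℤ) : List E := [eGS n aYv1 R k, eDS n aLv1 aYv1 k]

end

end LRA

end Pool.Agent.Work.MP_b30479_gt.G2
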