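import Pool.Agent.Work.MP_b30479_gt.G2.LRaK
import Pool.Agent.Work.NumU.Tree

/-!
# Left ramps of the hinges of a ring, heights `≤ 0`, shift `π / 2`: the flat part

Variables: `x`, `-m`, `-σ`, `η`.
-/

namespace Pool.Agent.Work.MP_b30479_gt.G2

open VOL NumU

namespace LRA

open LR

section
open NumU.E

def fU : E := lnA (sub (add (var 0) (q 1 2)) (var 2)) (add aT (var 3))
def fYu : E := neg (lnB (sub (add (var 0) (q 1 2)) (var 2)) (add aT (var 3)))
def fV : E := lnA (add (add (var 0) (q 1 2)) (var 2)) (sub aT (var 3))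
def fYv : E := neg (lnB (add (add (var 0) (q 1 2)) (var 2)) (sub aT (var 3)))
/-- `D - k / 1000` -/
def fD (k : ℤ) : E :=
  sub (sub (sub (sub (add fU fV) (mul (q 2 1) aLw)) (mul (var 1)
    (sub (add fYu fYv) (mul (q 2 1) aYw)))) (mul (mul (q 1 2) E.pi) (var 1))) (q k 1000)
/-- `D - k / 1000` for `x ≤ n / 1000` -/
def fDS (n k : ℤ) : E :=
  sub (sub (sub (sub (add fU fV) (mul (q 2 1) (aLw0 n))) (mul (var 1) (add fYu fYv)))
    (mul (mul (q 1 2) E.pi) (var 1))) (q k 1000)

end

variable {m x : ℝ} {w ζ : ℂ}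

theorem fl_val (hw : W x m w) (hz : ZF ζ) (hx : x ≤ 13 / 100) :
    fU.val [x, -m, -ζ.re, ζ.im] = LL (w + 1 / 2 + ζ) ∧
    fYu.val [x, -m, -ζ.re, ζ.im] = YY (w + 1 / 2 + ζ) ∧
    fV.val [x, -m, -ζ.re, ζ.im] = LL (w + 1 / 2 - ζ) ∧
    fYv.val [x, -m, -ζ.re, ζ.im] = YY (w + 1 / 2 - ζ) ∧
    aLw.val [x, -m, -ζ.re, ζ.im] = LL w ∧ aYw.val [x, -m, -ζ.re, ζ.im] = YY w := by
  have x0 := hw.pos
  have s0 := hz.lo
  have s1 := hz.hi
  have ure : (w + 1 / 2 + ζ).re = x + 1 / 2 + ζ.re := by simp [hw.re]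
  have uim : (w + 1 / 2 + ζ).im = m * x + ζ.im := by simp [hw.im]
  have vre : (w + 1 / 2 - ζ).re = x + 1 / 2 - ζ.re := by simp [hw.re]
  have vim : (w + 1 / 2 - ζ).im = m * x - ζ.im := by simp [hw.im]
  have us : w + 1 / 2 + ζ ∈ strip := by
    constructor
    · rw [ure]; linarith only [hx, x0, s0]
    · rw [ure]; linarith only [hx, x0, s1]
  have vs : w + 1 / 2 - ζ ∈ strip := by
    constructor
    · rw [vre]; linarith only [hx, x0, s1]
    · rw [vre]; linarith only [hx, x0, s0]
  have ws : w ∈ strip := by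
    constructor
    · rw [hw.re]; linarith only [x0]
    · rw [hw.re]; linarith only [hx, x0]
  have tv : aT.val [x, -m, -ζ.re, ζ.im] = m * x := by
    simp only [aT, E.val, NumI.lkR]
    ring
  refine ⟨?_, ?_, ?_, ?_, ?_, ?_⟩
  · rw [LL_lnA', ure, uim]
    simp only [fU, E.val, tv, NumI.lkR]
    push_cast
    rw [sub_neg_eq_add]
  · rw [Num.YY_lnB us, ure, uim]
    simp only [fYu, E.val, tv, NumI.lkR]
    push_cast
    rw [sub_neg_eq_add]
  · rw [LL_lnA', vre, vim]
    simp only [fV, E.val, tv, NumI.lkR]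
    push_cast
    rw [← sub_eq_add_neg]
  · rw [Num.YY_lnB vs, vre, vim]
    simp only [fYv, E.val, tv, NumI.lkR]
    push_cast
    rw [← sub_eq_add_neg]
  · rw [LL_lnA', hw.re, hw.im]
    simp only [aLw, E.val, tv, NumI.lkR]
  · rw [Num.YY_lnB ws, hw.re, hw.im]
    simp only [aYw, E.val, tv, NumI.lkR]

theorem fD_key {k t : ℤ} (hw : W x m w) (hz : ZF ζ) (hx : x ≤ 13 / 100)
    (ht : -((t : ℝ) / 10000) ≤ m * x)
    (h : ∃ e ∈ [fD k, eT t], 0 < e.val [x, -m, -ζ.re, ζ.im]) :
    (k : ℝ) / 1000 ≤ S4 m w ζ + Real.pi / 2 * m := by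
  obtain ⟨e, he, hp⟩ := h
  obtain ⟨h1, h2, h3, h4, h5, h6⟩ := fl_val hw hz hx
  simp only [List.mem_cons, List.not_mem_nil, or_false] at he
  unfold S4
  rcases he with rfl | rfl
  · simp only [fD, E.val, h1, h2, h3, h4, h5, h6, NumI.lkR] at hp
    push_cast at hp
    simp only [div_one] at hp
    linarith only [hp]
  · simp only [eT, E.val, NumI.lkR] at hp
    push_cast at hp
    linarith only [ht, hp]

theorem fDS_key {n k : ℤ} (hw : W x m w) (hz : ZF ζ) (hm : m ≤ 0)
    (hx : x ≤ (n : ℝ) / 1000) (hn : (n : ℝ) ≤ 130)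
    (h : ∃ e ∈ [fDS n k], 0 < e.val [x, -m, -ζ.re, ζ.im]) :
    (k : ℝ) / 1000 ≤ S4 m w ζ + Real.pi / 2 * m := by
  have hp := pos_of_chk h
  obtain ⟨h1, h2, h3, h4, h5, h6⟩ := fl_val hw hz (by linarith only [hx, hn])
  have hray := lnA_ray (m := m) hw.pos hx (by linarith only [hn])
  have e1 : NumI.lnA x (m * x) = LL w := by rw [LL_lnA', hw.re, hw.im]
  have e2 : (aLw0 n).val [x, -m, -ζ.re, ζ.im] =
      NumI.lnA ((n : ℝ) / 1000) (m * ((n : ℝ) / 1000)) := by
    simp only [aLw0, E.val, NumI.lkR]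
    push_cast
    rw [neg_mul, neg_neg]
  rw [e1, ← e2] at hray
  have yw0 : 0 ≤ YY w := by
    have him : w.im ≤ 0 := by
      rw [hw.im]
      exact mul_nonpos_of_nonpos_of_nonneg hm hw.pos.le
    rcases him.lt_or_eq with h | h
    · rw [YY_neg h]
      have := Tr_le_half (s := -w.im) (x := w.re) (by linarith only [h]) (by rw [hw.re]; linarith only [hx, hn])
      linarith only [this]
    · rw [YY_zero h]
  have c5 : m * YY w ≤ 0 := mul_nonpos_of_nonpos_of_nonneg hm yw0
  unfold S4
  simp only [fDS, E.val, h1, h2, h3, h4, NumI.lkR] at hp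
  push_cast at hp
  simp only [div_one] at hp
  nlinarith only [hray, c5, hp]

open NumI (V)

/-- 61 boxes -/
theorem c_fA {x y s r : ℝ} (a1 : 200 / 10000 ≤ x) (b1 : x ≤ 1300 / 10000) (a2 : 0 ≤ y) (b2 : y ≤ 13100 / 10000)
    (a3 : 0 ≤ s) (b3 : s ≤ 2500 / 10000) (a4 : 0 ≤ r) (b4 : r ≤ 1045 / 10000) :
    ∃ e ∈ [fD 200, eT 1310], 0 < e.val [x, y, s, r] := by
  have h : chkT ([fD 200, eT 1310]) 22
      26541080515544525649292547112029218602620109916566489911138398111808967700192668607488157229051442684820702914328673219954438232666602387177279488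
      [V.of 10000 200 1300, V.of 10000 0 13100,
        V.of 10000 0 2500, V.of 10000 0 1045] = true := by
    decide +kernel
  exact chkT4 h (by norm_num) (by push_cast; linarith only [a1]) (by push_cast; linarith only [b1])
    (by push_cast; linarith only [a2]) (by push_cast; linarith only [b2]) (by push_cast; linarith only [a3])
    (by push_cast; linarith only [b3]) (by push_cast; linarith only [a4]) (by push_cast; linarith only [b4])

/-- 2 boxes -/
theorem c_fB {x y s r : ℝ} (a1 : 0 ≤ x) (b1 : x ≤ 200 / 10000) (a2 : 0 ≤ y) (b2 : y ≤ 13100 / 10000)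
    (a3 : 0 ≤ s) (b3 : s ≤ 2500 / 10000) (a4 : 0 ≤ r) (b4 : r ≤ 1045 / 10000) :
    ∃ e ∈ [fDS 20 200], 0 < e.val [x, y, s, r] := by
  have h : chkT ([fDS 20 200]) 22
      2178
      [V.of 10000 0 200, V.of 10000 0 13100,
        V.of 10000 0 2500, V.of 10000 0 1045] = true := by
    decide +kernel
  exact chkT4 h (by norm_num) (by push_cast; linarith only [a1]) (by push_cast; linarith only [b1])
    (by push_cast; linarith only [a2]) (by push_cast; linarith only [b2]) (by push_cast; linarith only [a3])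
    (by push_cast; linarith only [b3]) (by push_cast; linarith only [a4]) (by push_cast; linarith only [b4])

end LRA

namespace LR

open LRA

variable {m x : ℝ} {w ζ : ℂ}

/-- **Flat part.** -/
theorem lo_flat (hw : W x m w) (hz : ZF ζ) (hm : m ≤ 0) (hm' : -(131 / 100) ≤ m)
    (hx : x ≤ 13 / 100) (ht : -(131 / 1000) ≤ m * x) :
    2 / 10 ≤ S4 m w ζ + Real.pi / 2 * m := by
  have x0 := hw.pos
  have s0 := hz.lo
  have s1 := hz.hi
  have e0 := hz.pos
  have e1 := hz.cap
  rcases le_total (2 / 100) x with h | h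
  · have key := fD_key (k := 200) (t := 1310) hw hz hx (by push_cast; linarith only [ht])
      (c_fA (by linarith only [h]) (by linarith only [hx]) (by linarith only [hm]) (by linarith only [hm']) (by linarith only [s1]) (by linarith only [s0])
        (by linarith only [e0]) (by linarith only [e1]))
    push_cast at key
    linarith only [key]
  · have key := fDS_key (n := 20) (k := 200) hw hz hm (by push_cast; linarith only [h]) (by norm_num)
      (c_fB (by linarith only [x0]) (by linarith only [h]) (by linarith only [hm]) (by linarith only [hm']) (by linarith only [s1]) (by linarith only [s0])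
        (by linarith only [e0]) (by linarith only [e1]))
    push_cast at key
    linarith only [key]

end LR

end Pool.Agent.Work.MP_b30479_gt.G2
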