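import Pool.Agent.Work.MP_b30479_gt.G2.LRaE
import Pool.Agent.Work.MP_b30479_gt.G2.LR0
import Pool.Agent.Work.MP_b30479_gt.G2.WPar

/-!
# Left ramps of the hinges of a ring, heights `≤ 0`, shift `π / 2`: the expressions are lower bounds
-/

namespace Pool.Agent.Work.MP_b30479_gt.G2

open VOL NumU

namespace LRA

open LR

theorem lnA_cosh (a b : ℝ) : NumI.lnA a b =
    Real.log (2 * Real.cosh (2 * Real.pi * b) - 2 * Real.cos (2 * Real.pi * a)) / 2 := by
  unfold NumI.lnA
  have h := Num.den_eq ⟨a, b⟩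
  unfold NumI.MM at h
  simp only at h
  congr 2
  linarith only [h]

theorem LL_lnA' (u : ℂ) : LL u = NumI.lnA u.re u.im := by
  rw [LL_eq', lnA_cosh]

/-- `LL` increases along rays -/
theorem lnA_ray {x x0 m : ℝ} (h0 : 0 < x) (h1 : x ≤ x0) (h2 : x0 ≤ 1 / 2) :
    NumI.lnA x (m * x) ≤ NumI.lnA x0 (m * x0) := by
  have hp := Real.pi_pos
  unfold NumI.lnA
  have s0 : 0 < Real.sin (Real.pi * x) :=
    Real.sin_pos_of_pos_of_lt_pi (by positivity) (by nlinarith only [hp, h1, h2])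
  have s1 : Real.sin (Real.pi * x) ≤ Real.sin (Real.pi * x0) := by
    apply Real.sin_le_sin_of_le_of_le_pi_div_two <;> nlinarith only [hp, h0, h2, h1]
  have s2 : |Real.sinh (Real.pi * (m * x))| ≤ |Real.sinh (Real.pi * (m * x0))| := by
    rw [Real.abs_sinh, Real.abs_sinh]
    apply Real.sinh_le_sinh.2
    rw [abs_mul, abs_mul, abs_mul, abs_mul, abs_of_pos h0, abs_of_pos (h0.trans_le h1),
      abs_of_pos hp]
    gcongr
  have s3 := sq_le_sq.2 s2
  apply div_le_div_of_nonneg_right _ (by norm_num)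
  apply Real.log_le_log (by positivity)
  nlinarith only [s3, s0, s1]

theorem lnB_flip (d h : ℝ) : NumI.lnB (1 - d) (-h) = NumI.lnB d h := by
  unfold NumI.lnB
  rw [show Real.pi * (1 - d) = Real.pi - Real.pi * d by ring, Real.cos_pi_sub, Real.sin_pi_sub,
    mul_neg, Real.sinh_neg, Real.cosh_neg, neg_mul_neg]

theorem lnB_odd (d h : ℝ) : NumI.lnB (-d) h = -NumI.lnB d h := by
  unfold NumI.lnB
  rw [mul_neg, Real.cos_neg, Real.sin_neg, neg_mul, div_neg, Real.arctan_neg]

theorem lnB_odd' (d h : ℝ) : NumI.lnB d (-h) = -NumI.lnB d h := by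
  unfold NumI.lnB
  rw [mul_neg, Real.sinh_neg, Real.cosh_neg, mul_neg, neg_div, Real.arctan_neg]

/-- `YY` near `1`, `d < 1/2`: the three cases -/
theorem YY_cases {v : ℂ} {d h : ℝ} (hre : v.re = 1 - d) (him : v.im = -h) (h0 : 0 < h)
    (hd : |d| < 1 / 2) : (0 < d ∧ YY v = -NumI.lnB d h) ∨ (d = 0 ∧ YY v = -(Real.pi / 2)) ∨
      (d < 0 ∧ YY v = -Real.pi - NumI.lnB d h) := by
  rw [abs_lt] at hd
  rcases lt_trichotomy d 0 with hd0 | hd0 | hd0
  · right; right
    refine ⟨hd0, ?_⟩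
    have hs : v - 1 ∈ strip := by
      constructor
      · simp [hre]
        linarith only [hd0]
      · simp [hre]
        linarith only [hd, hd0]
    have e := YY_add_one (v - 1)
    rw [sub_add_cancel, if_neg (by simp [him]; linarith only [h0]), if_pos (by simp [him]; linarith only [h0]),
      Num.YY_lnB hs] at e
    have e1 : (v - 1).re = -d := by simp [hre]
    have e2 : (v - 1).im = -h := by simp [him]
    rw [e1, e2, lnB_odd, lnB_odd'] at e
    linarith only [e]
  · right; left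
    refine ⟨hd0, ?_⟩
    rw [YY_neg (by rw [him]; linarith only [h0]), hre, him, hd0, neg_neg, sub_zero, Tr_one h0]
    ring
  · left
    refine ⟨hd0, ?_⟩
    have hs : v ∈ strip := by
      constructor
      · rw [hre]; linarith only [hd, hd0]
      · rw [hre]; linarith only [hd0]
    rw [Num.YY_lnB hs, hre, him, lnB_flip]

theorem YY_le_form {v : ℂ} {d h : ℝ} (hre : v.re = 1 - d) (him : v.im = -h) (h0 : 0 < h)
    (hd : |d| < 1 / 2) : YY v ≤ -NumI.lnB d h := by
  have hp := Real.pi_pos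
  rcases YY_cases hre him h0 hd with ⟨_, h⟩ | ⟨h1, h⟩ | ⟨_, h⟩
  · exact h.le
  · rw [h, h1]
    unfold NumI.lnB
    rw [mul_zero, Real.sin_zero, zero_mul, div_zero, Real.arctan_zero]
    linarith only [hp]
  · rw [h]
    linarith only [hp]

theorem YY_eq_form {v : ℂ} {d h : ℝ} (hre : v.re = 1 - d) (him : v.im = -h) (h0 : 0 < h)
    (hd : |d| < 1 / 2) : YY v = -(Real.pi / 2 + Real.arctan (Real.sin (Real.pi * -d) *
      Real.cosh (Real.pi * h) * (Real.cos (Real.pi * -d) * Real.sinh (Real.pi * h))⁻¹)) := by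
  have hp := Real.pi_pos
  have hd' := abs_lt.1 hd
  have hc : 0 < Real.cos (Real.pi * d) := by
    apply Real.cos_pos_of_mem_Ioo
    constructor <;> nlinarith only [hp, hd', hd'.1, hd'.2]
  have hs : 0 < Real.sinh (Real.pi * h) := Real.sinh_pos_iff.2 (by positivity)
  have hch := Real.cosh_pos (Real.pi * h)
  rw [mul_neg, Real.sin_neg, Real.cos_neg]
  rcases YY_cases hre him h0 hd with ⟨h1, e⟩ | ⟨h1, e⟩ | ⟨h1, e⟩
  · have hsin : 0 < Real.sin (Real.pi * d) :=
      Real.sin_pos_of_pos_of_lt_pi (by positivity) (by nlinarith only [hp, hd', hd'.2])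
    rw [e]
    unfold NumI.lnB
    set A := Real.sin (Real.pi * d) * Real.cosh (Real.pi * h) with hA
    set B := Real.cos (Real.pi * d) * Real.sinh (Real.pi * h) with hB
    have hAp : 0 < A := by positivity
    have hBp : 0 < B := by positivity
    have e1 : B / A = (A / B)⁻¹ := by rw [inv_div]
    rw [e1, Real.arctan_inv_of_pos (by positivity), neg_mul, neg_mul, Real.arctan_neg,
      ← div_eq_mul_inv]
    ring
  · rw [e, h1, mul_zero, Real.sin_zero, neg_zero, zero_mul, zero_mul, Real.arctan_zero, add_zero]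
  · have hsin : 0 < Real.sin (Real.pi * -d) :=
      Real.sin_pos_of_pos_of_lt_pi (by nlinarith only [hp, h1]) (by nlinarith only [hp, hd', hd'.1])
    rw [mul_neg, Real.sin_neg] at hsin
    rw [e]
    unfold NumI.lnB
    set A := -Real.sin (Real.pi * d) * Real.cosh (Real.pi * h) with hA
    set B := Real.cos (Real.pi * d) * Real.sinh (Real.pi * h) with hB
    have hAp : 0 < A := by positivity
    have hBp : 0 < B := by positivity
    have e1 : B / (Real.sin (Real.pi * d) * Real.cosh (Real.pi * h)) = -(A / B)⁻¹ := by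
      rw [hA, inv_div, neg_mul, div_neg, neg_neg]
    rw [e1, Real.arctan_neg, Real.arctan_inv_of_pos (by positivity), ← div_eq_mul_inv]
    ring

/-! ### the values at a point -/

variable {m x s ρ : ℝ} {w ζ : ℂ}

/-- the numbers which occur -/
structure PV (x m s ρ : ℝ) (w ζ : ℂ) (LU YU LV YV LW YW : ℝ) : Prop where
  D : S4 m w ζ = LU + LV - 2 * LW + m * (YU + YV - 2 * YW)
  F : Dm (4 * ρ) w ζ = LU + 4 * ρ * YU - (LV + 4 * ρ * YV)
  lu : aLu.val [x, -m, s, ρ] = LU
  yu : aYu.val [x, -m, s, ρ] = YU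
  lw : aLw.val [x, -m, s, ρ] = LW
  yw : aYw.val [x, -m, s, ρ] = YW
  lv1 : aLv1.val [x, -m, s, ρ] = LV
  lv2 : aLv2.val [x, -m, s, ρ] = LV
  yv1 : YV ≤ aYv1.val [x, -m, s, ρ]
  yv2 : aYv2.val [x, -m, s, ρ] = YV
  yv : YV ≤ 0
  yw0 : 0 ≤ YW

theorem pv (hw : W x m w) (hz : ZR s ρ ζ) (hm : m ≤ 0) (hx : x ≤ 13 / 100) :
    PV x m s ρ w ζ (LL (w + 1 / 2 + ζ)) (YY (w + 1 / 2 + ζ)) (LL (w + 1 / 2 - ζ))
      (YY (w + 1 / 2 - ζ)) (LL w) (YY w) := by
  have hp := Real.pi_pos
  have x0 := hw.pos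
  have s0 := hz.lo
  have s1 := hz.hi
  have r0 := hz.pos
  have ure : (w + 1 / 2 + ζ).re = x + s := by simp [hw.re, hz.re]
  have uim : (w + 1 / 2 + ζ).im = m * x + 4 * ρ * s := by simp [hw.im, hz.im]
  have vre : (w + 1 / 2 - ζ).re = 1 - (s - x) := by simp [hw.re, hz.re]; ring
  have vim : (w + 1 / 2 - ζ).im = -(4 * ρ * s - m * x) := by simp [hw.im, hz.im]
  have hpos : 0 < 4 * ρ * s - m * x := by
    have h1 : 0 < 4 * ρ * s := by positivity
    have h2 : m * x ≤ 0 := mul_nonpos_of_nonpos_of_nonneg hm x0.le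
    linarith only [h1, h2]
  have hd : |s - x| < 1 / 2 := by
    rw [abs_lt]
    constructor <;> linarith only [hx, x0, s0, s1]
  have us : w + 1 / 2 + ζ ∈ strip := by
    constructor
    · rw [ure]; linarith only [hx, x0, s0]
    · rw [ure]; linarith only [hx, x0, s1]
  have ws : w ∈ strip := by
    constructor
    · rw [hw.re]; linarith only [x0]
    · rw [hw.re]; linarith only [hx, x0]
  have tv : aT.val [x, -m, s, ρ] = m * x := by
    simp only [aT, E.val, NumI.lkR]
    ring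
  have hv : aH.val [x, -m, s, ρ] = 4 * ρ * s := by
    simp only [aH, E.val, NumI.lkR]
    push_cast
    ring
  refine ⟨rfl, ?_, ?_, ?_, ?_, ?_, ?_, ?_, ?_, ?_, ?_, ?_⟩
  · unfold Dm Dq
    ring
  · rw [LL_lnA', ure, uim]
    simp only [aLu, E.val, tv, hv, NumI.lkR]
  · rw [Num.YY_lnB us, ure, uim]
    simp only [aYu, E.val, tv, hv, NumI.lkR]
  · rw [LL_lnA', hw.re, hw.im]
    simp only [aLw, E.val, tv, NumI.lkR]
  · rw [Num.YY_lnB ws, hw.re, hw.im]
    simp only [aYw, E.val, tv, NumI.lkR]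
  · rw [LL_lnA', vre, vim]
    simp only [aLv1, E.val, tv, hv, NumI.lkR]
    rw [lnA_cosh, lnA_cosh, mul_neg (2 * Real.pi) (4 * ρ * s - m * x), Real.cosh_neg,
      show 2 * Real.pi * (1 - (s - x)) = 2 * Real.pi - 2 * Real.pi * (s - x) by ring,
      Real.cos_two_pi_sub]
  · rw [LL_eq', vre, vim, mul_neg (2 * Real.pi) (4 * ρ * s - m * x), Real.cosh_neg,
      show 2 * Real.pi * (1 - (s - x)) = 2 * Real.pi - 2 * Real.pi * (s - x) by ring,
      Real.cos_two_pi_sub]
    simp only [aLv2, E.val, tv, hv, NumI.lkR]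
    push_cast
    have e1 : Real.cos (Real.pi * (2 / 1 * (x - s))) = Real.cos (2 * Real.pi * (s - x)) := by
      rw [← Real.cos_neg]
      congr 1
      ring
    rw [e1]
    simp only [div_one]
    ring
  · have h1 := YY_le_form vre vim hpos hd
    refine h1.trans (le_of_eq ?_)
    simp only [aYv1, E.val, tv, hv, NumI.lkR]
  · rw [YY_eq_form vre vim hpos hd]
    simp only [aYv2, E.val, tv, hv, NumI.lkR]
    push_cast
    rw [neg_sub]
    ring
  · rw [YY_neg (by rw [vim]; linarith only [hpos])]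
    have := half_le_Tr (s := -(w + 1 / 2 - ζ).im) (x := (w + 1 / 2 - ζ).re)
      (by rw [vim]; linarith only [hpos]) (by rw [vre]; linarith only [hx, x0, s1])
    linarith only [this]
  · have him : w.im ≤ 0 := by
      rw [hw.im]
      exact mul_nonpos_of_nonpos_of_nonneg hm x0.le
    rcases him.lt_or_eq with h | h
    · rw [YY_neg h]
      have := Tr_le_half (s := -w.im) (x := w.re) (by linarith only [h]) (by rw [hw.re]; linarith only [hx, x0])
      linarith only [this]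
    · rw [YY_zero h]

/-- **The list `la`.** -/
theorem la_key {R : E} {k t : ℤ} (hw : W x m w) (hz : ZR s ρ ζ) (hm : m ≤ 0) (hx : x ≤ 13 / 100)
    (ht : -((t : ℝ) / 10000) ≤ m * x) (hF : Dm (4 * ρ) w ζ ≤ R.val [x, -m, s, ρ])
    (h : ∃ e ∈ la R k t, 0 < e.val [x, -m, s, ρ]) :
    (k : ℝ) / 1000 ≤ S4 m w ζ + Real.pi / 2 * m := by
  obtain ⟨e, he, hp⟩ := h
  have P := pv hw hz hm hx
  obtain ⟨hD, hF', lu, yu, lw, yw, lv1, lv2, yv1, yv2, yv, yw0⟩ := P
  rw [hF'] at hF
  rw [hD]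
  set LU := LL (w + 1 / 2 + ζ)
  set YU := YY (w + 1 / 2 + ζ)
  set LV := LL (w + 1 / 2 - ζ)
  set YV := YY (w + 1 / 2 - ζ)
  set LW := LL w
  set YW := YY w
  have r0 := hz.pos
  have c1 : m * (aYv1.val [x, -m, s, ρ] - YV) ≤ 0 :=
    mul_nonpos_of_nonpos_of_nonneg hm (by linarith only [yv1])
  have c2 : 0 ≤ ρ * (aYv1.val [x, -m, s, ρ] - YV) := mul_nonneg r0.le (by linarith only [yv1])
  have c3 : 0 ≤ m * YV := mul_nonneg_of_nonpos_of_nonpos hm yv
  have c4 : ρ * YV ≤ 0 := mul_nonpos_of_nonneg_of_nonpos r0.le yv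
  simp only [la, List.mem_cons, List.not_mem_nil, or_false] at he
  rcases he with rfl | rfl | rfl | rfl | rfl | rfl
  · simp only [eG, eG0, E.val, lu, yu, lw, yw, NumI.lkR] at hp
    push_cast at hp
    simp only [div_one] at hp
    nlinarith only [hF, c1, c2, hp]
  · simp only [eDD, E.val, lu, yu, lw, yw, lv1, NumI.lkR] at hp
    push_cast at hp
    simp only [div_one] at hp
    nlinarith only [c1, hp]
  · simp only [eG, eG0, E.val, lu, yu, lw, yw, yv2, NumI.lkR] at hp
    push_cast at hp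
    simp only [div_one] at hp
    nlinarith only [hF, hp]
  · simp only [eDD, E.val, lu, yu, lw, yw, lv2, yv2, NumI.lkR] at hp
    push_cast at hp
    simp only [div_one] at hp
    nlinarith only [hp]
  · simp only [eG0, E.val, lu, yu, lw, yw, NumI.lkR] at hp
    push_cast at hp
    simp only [div_one] at hp
    nlinarith only [hF, c3, c4, hp]
  · simp only [eT, E.val, NumI.lkR] at hp
    push_cast at hp
    linarith only [ht, hp]

/-- **The list `ls`.** -/
theorem ls_key {R : E} {n k : ℤ} (hw : W x m w) (hz : ZR s ρ ζ) (hm : m ≤ 0)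
    (hx : x ≤ (n : ℝ) / 1000) (hn : (n : ℝ) ≤ 130) (hF : Dm (4 * ρ) w ζ ≤ R.val [x, -m, s, ρ])
    (h : ∃ e ∈ ls n R k, 0 < e.val [x, -m, s, ρ]) :
    (k : ℝ) / 1000 ≤ S4 m w ζ + Real.pi / 2 * m := by
  obtain ⟨e, he, hp⟩ := h
  have P := pv hw hz hm (by linarith only [hx, hn])
  obtain ⟨hD, hF', lu, yu, lw, yw, lv1, lv2, yv1, yv2, yv, yw0⟩ := P
  have hray := lnA_ray (m := m) hw.pos hx (by linarith only [hn])
  have e1 : NumI.lnA x (m * x) = LL w := by rw [LL_lnA', hw.re, hw.im]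
  have e2 : (aLw0 n).val [x, -m, s, ρ] = NumI.lnA ((n : ℝ) / 1000) (m * ((n : ℝ) / 1000)) := by
    simp only [aLw0, E.val, NumI.lkR]
    push_cast
    rw [neg_mul, neg_neg]
  rw [e1, ← e2] at hray
  rw [hF'] at hF
  rw [hD]
  set LU := LL (w + 1 / 2 + ζ)
  set YU := YY (w + 1 / 2 + ζ)
  set LV := LL (w + 1 / 2 - ζ)
  set YV := YY (w + 1 / 2 - ζ)
  set LW := LL w
  set YW := YY w
  have r0 := hz.pos
  have c1 : m * (aYv1.val [x, -m, s, ρ] - YV) ≤ 0 :=
    mul_nonpos_of_nonpos_of_nonneg hm (by linarith only [yv1])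
  have c2 : 0 ≤ ρ * (aYv1.val [x, -m, s, ρ] - YV) := mul_nonneg r0.le (by linarith only [yv1])
  have c5 : m * YW ≤ 0 := mul_nonpos_of_nonpos_of_nonneg hm yw0
  simp only [ls, List.mem_cons, List.not_mem_nil, or_false] at he
  rcases he with rfl | rfl
  · simp only [eGS, E.val, lu, yu, NumI.lkR] at hp
    push_cast at hp
    simp only [div_one] at hp
    nlinarith only [hF, hray, c1, c2, c5, hp]
  · simp only [eDS, E.val, lu, yu, lv1, NumI.lkR] at hp
    push_cast at hp
    simp only [div_one] at hp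
    nlinarith only [hray, c1, c5, hp]

end LRA

end Pool.Agent.Work.MP_b30479_gt.G2
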