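import Pool.Agent.Work.MP_b30479_gt.G2.LRaK
import Pool.Agent.Work.NumU.Tree

/-!
# Left ramps of the hinges of a ring, heights `≤ 0`, shift `π / 2`: `FP`, `b = 5`
-/

namespace Pool.Agent.Work.MP_b30479_gt.G2

open VOL NumU

namespace LRA

open LR
open NumI (V)

variable {m x s ρ : ℝ} {w ζ : ℂ}

/-- 101 boxes -/
theorem c_p5a {x y s r : ℝ} (a1 : 100 / 10000 ≤ x) (b1 : x ≤ 1300 / 10000) (a2 : 0 ≤ y) (b2 : y ≤ 13100 / 10000)
    (a3 : 625 / 10000 ≤ s) (b3 : s ≤ 1200 / 10000) (a4 : 0 ≤ r) (b4 : r ≤ 725 / 10000) :
    ∃ e ∈ la (RP g1 5) 200 1310, 0 < e.val [x, y, s, r] := by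
  have h : chkT (la (RP g1 5) 200 1310) 26
      70891004489188533306862073727944040141184292206746578066275165100082333775233348880542931040811289582177416981386932686715806237762132363970844506162153931206982468500564843698742142483525132626654791884303465384627921268872988002573437960192
      [V.of 10000 100 1300, V.of 10000 0 13100,
        V.of 10000 625 1200, V.of 10000 0 725] = true := by
    decide +kernel
  exact chkT4 h (by norm_num) (by push_cast; linarith only [a1]) (by push_cast; linarith only [b1])
    (by push_cast; linarith only [a2]) (by push_cast; linarith only [b2]) (by push_cast; linarith only [a3])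
    (by push_cast; linarith only [b3]) (by push_cast; linarith only [a4]) (by push_cast; linarith only [b4])

/-- 173 boxes -/
theorem c_p5b {x y s r : ℝ} (a1 : 100 / 10000 ≤ x) (b1 : x ≤ 1300 / 10000) (a2 : 0 ≤ y) (b2 : y ≤ 13100 / 10000)
    (a3 : 1200 / 10000 ≤ s) (b3 : s ≤ 2500 / 10000) (a4 : 0 ≤ r) (b4 : r ≤ 725 / 10000) :
    ∃ e ∈ la (RP g2 5) 200 1310, 0 < e.val [x, y, s, r] := by
  have h : chkT (la (RP g2 5) 200 1310) 26
      15780365660723392080746107080136171509473762522308654034162750633215385549799791243503014296556740550702828511514449611960319584583320898847683960361469433429628104007873944372256788751733544993452525769394625614469120433100863080958253751486846866760943968181811486462899681375009772532946552993024757264796087485426388489184578945524457428298583109261187650286196972404857873546217446396086942121988387822208352256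
      [V.of 10000 100 1300, V.of 10000 0 13100,
        V.of 10000 1200 2500, V.of 10000 0 725] = true := by
    decide +kernel
  exact chkT4 h (by norm_num) (by push_cast; linarith only [a1]) (by push_cast; linarith only [b1])
    (by push_cast; linarith only [a2]) (by push_cast; linarith only [b2]) (by push_cast; linarith only [a3])
    (by push_cast; linarith only [b3]) (by push_cast; linarith only [a4]) (by push_cast; linarith only [b4])

/-- 7 boxes -/
theorem c_p5c {x y s r : ℝ} (a1 : 0 ≤ x) (b1 : x ≤ 100 / 10000) (a2 : 0 ≤ y) (b2 : y ≤ 13100 / 10000)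
    (a3 : 625 / 10000 ≤ s) (b3 : s ≤ 1200 / 10000) (a4 : 0 ≤ r) (b4 : r ≤ 725 / 10000) :
    ∃ e ∈ ls 10 (RP g1 5) 200, 0 < e.val [x, y, s, r] := by
  have h : chkT (ls 10 (RP g1 5) 200) 18
      2683364973750290
      [V.of 10000 0 100, V.of 10000 0 13100,
        V.of 10000 625 1200, V.of 10000 0 725] = true := by
    decide +kernel
  exact chkT4 h (by norm_num) (by push_cast; linarith only [a1]) (by push_cast; linarith only [b1])
    (by push_cast; linarith only [a2]) (by push_cast; linarith only [b2]) (by push_cast; linarith only [a3])
    (by push_cast; linarith only [b3]) (by push_cast; linarith only [a4]) (by push_cast; linarith only [b4])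

/-- 2 boxes -/
theorem c_p5d {x y s r : ℝ} (a1 : 0 ≤ x) (b1 : x ≤ 100 / 10000) (a2 : 0 ≤ y) (b2 : y ≤ 13100 / 10000)
    (a3 : 1200 / 10000 ≤ s) (b3 : s ≤ 2500 / 10000) (a4 : 0 ≤ r) (b4 : r ≤ 725 / 10000) :
    ∃ e ∈ ls 10 (RP g2 5) 200, 0 < e.val [x, y, s, r] := by
  have h : chkT (ls 10 (RP g2 5) 200) 18
      2178
      [V.of 10000 0 100, V.of 10000 0 13100,
        V.of 10000 1200 2500, V.of 10000 0 725] = true := by
    decide +kernel
  exact chkT4 h (by norm_num) (by push_cast; linarith only [a1]) (by push_cast; linarith only [b1])
    (by push_cast; linarith only [a2]) (by push_cast; linarith only [b2]) (by push_cast; linarith only [a3])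
    (by push_cast; linarith only [b3]) (by push_cast; linarith only [a4]) (by push_cast; linarith only [b4])

end LRA

namespace LR

open LRA

variable {m x s ρ : ℝ} {w ζ : ℂ}

/-- **Ramp, `b = 5`, other hinge `≤ 1/2`.** -/
theorem lo_P5 (hw : W x m w) (hz : ZR s ρ ζ) (hρ : ρ ≤ 725 / 10000) (hm : m ≤ 0)
    (hm' : -(131 / 100) ≤ m) (hx : x ≤ 13 / 100) (ht : -(131 / 1000) ≤ m * x)
    (hF : FP 5 s ρ w ζ) : 2 / 10 ≤ S4 m w ζ + Real.pi / 2 * m := by
  have x0 := hw.pos
  have s0 := hz.lo
  have s1 := hz.hi
  have r0 := hz.pos
  unfold FP gE at hF
  rcases lt_or_ge s (12 / 100) with hs | hs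
  · rw [if_pos hs] at hF
    have hR : Dm (4 * ρ) w ζ ≤ (LRA.RP LRA.g1 5).val [x, -m, s, ρ] := by
      simp only [LRA.RP, LRA.hb, LRA.g1, E.val, NumI.lkR]
      push_cast
      linarith only [hF]
    rcases le_total (1 / 100) x with h | h
    · have key := la_key (k := 200) (t := 1310) hw hz hm hx (by push_cast; linarith only [ht]) hR
        (c_p5a (by linarith only [h]) (by linarith only [hx]) (by linarith only [hm]) (by linarith only [hm']) (by linarith only [s0])
          (by linarith only [hs]) (by linarith only [r0]) (by linarith only [hρ]))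
      push_cast at key
      linarith only [key]
    · have key := ls_key (n := 10) (k := 200) hw hz hm (by push_cast; linarith only [h]) (by norm_num) hR
        (c_p5c (by linarith only [x0]) (by linarith only [h]) (by linarith only [hm]) (by linarith only [hm']) (by linarith only [s0])
          (by linarith only [hs]) (by linarith only [r0]) (by linarith only [hρ]))
      push_cast at key
      linarith only [key]
  · rw [if_neg (not_lt.2 hs)] at hF
    have hR : Dm (4 * ρ) w ζ ≤ (LRA.RP LRA.g2 5).val [x, -m, s, ρ] := by
      simp only [LRA.RP, LRA.hb, LRA.g2, E.val, NumI.lkR]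
      push_cast
      linarith only [hF]
    rcases le_total (1 / 100) x with h | h
    · have key := la_key (k := 200) (t := 1310) hw hz hm hx (by push_cast; linarith only [ht]) hR
        (c_p5b (by linarith only [h]) (by linarith only [hx]) (by linarith only [hm]) (by linarith only [hm']) (by linarith only [hs])
          (by linarith only [s1]) (by linarith only [r0]) (by linarith only [hρ]))
      push_cast at key
      linarith only [key]
    · have key := ls_key (n := 10) (k := 200) hw hz hm (by push_cast; linarith only [h]) (by norm_num) hR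
        (c_p5d (by linarith only [x0]) (by linarith only [h]) (by linarith only [hm]) (by linarith only [hm']) (by linarith only [hs])
          (by linarith only [s1]) (by linarith only [r0]) (by linarith only [hρ]))
      push_cast at key
      linarith only [key]

end LR

end Pool.Agent.Work.MP_b30479_gt.G2
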