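import Pool.Agent.Work.MP_b30479_gt.G2.LRaK
import Pool.Agent.Work.NumU.Tree

/-!
# Left ramps of the hinges of a ring, heights `≤ 0`, shift `π / 2`: `FX`, `b = 5`
-/

namespace Pool.Agent.Work.MP_b30479_gt.G2

open VOL NumU

namespace LRA

open LR
open NumI (V)

variable {m x s ρ : ℝ} {w ζ : ℂ}

/-- 528 boxes -/
theorem c_x5a {x y s r : ℝ} (a1 : 100 / 10000 ≤ x) (b1 : x ≤ 1250 / 10000) (a2 : 0 ≤ y) (b2 : y ≤ 13100 / 10000)
    (a3 : 625 / 10000 ≤ s) (b3 : s ≤ 2500 / 10000) (a4 : 0 ≤ r) (b4 : r ≤ 725 / 10000) :
    ∃ e ∈ la (RX 5) 180 1310, 0 < e.val [x, y, s, r] := by
  have h : chkT (la (RX 5) 180 1310) 26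
      13283623467651499444303675546417343972842364224239219616512618650008845906650913685045381808009607688252693744384639249452563023250387550400160049071319664239084962542670868991377279356926851658517228198027808253355762553102262254937014266928663508613377345428604873661600391096553436523717144430260599966257436579263403361729096546995036942915318893491227308304574845985999493330903886511828743352845747401077955616544290523558394267329452228445038116468461060548418284351369138935833968990163273959784536893066234681576493615627907774468933003127763952536360931972038993888837362607868902973083172269765446878645147960664974369544316211447598027703149927296247112874925889048844679046849100913820921572326744471220225531954822337613315131017735089797352427375145184043820970424179450892954828314641746346844777232777996326382399376233801698927604999949268857332427372122369976508722284879881019804820202677022966101662153567898321383421865459566568723443413691252326039004349118656422250161314928526246466878352967221614972434186134944343165883446764114516522377884047092931746967352878515763018166966896888165378873612731975997751382263439133490049724041199486920829403850651456714932626586921383335451618929165502963528835762588034353187623221394183537914552282906624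
      [V.of 10000 100 1250, V.of 10000 0 13100,
        V.of 10000 625 2500, V.of 10000 0 725] = true := by
    decide +kernel
  exact chkT4 h (by norm_num) (by push_cast; linarith only [a1]) (by push_cast; linarith only [b1])
    (by push_cast; linarith only [a2]) (by push_cast; linarith only [b2]) (by push_cast; linarith only [a3])
    (by push_cast; linarith only [b3]) (by push_cast; linarith only [a4]) (by push_cast; linarith only [b4])

/-- 7 boxes -/
theorem c_x5c {x y s r : ℝ} (a1 : 0 ≤ x) (b1 : x ≤ 100 / 10000) (a2 : 0 ≤ y) (b2 : y ≤ 13100 / 10000)
    (a3 : 625 / 10000 ≤ s) (b3 : s ≤ 2500 / 10000) (a4 : 0 ≤ r) (b4 : r ≤ 725 / 10000) :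
    ∃ e ∈ ls 10 (RX 5) 180, 0 < e.val [x, y, s, r] := by
  have h : chkT (ls 10 (RX 5) 180) 18
      2702090899558946
      [V.of 10000 0 100, V.of 10000 0 13100,
        V.of 10000 625 2500, V.of 10000 0 725] = true := by
    decide +kernel
  exact chkT4 h (by norm_num) (by push_cast; linarith only [a1]) (by push_cast; linarith only [b1])
    (by push_cast; linarith only [a2]) (by push_cast; linarith only [b2]) (by push_cast; linarith only [a3])
    (by push_cast; linarith only [b3]) (by push_cast; linarith only [a4]) (by push_cast; linarith only [b4])

end LRA

namespace LR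

open LRA

variable {m x s ρ : ℝ} {w ζ : ℂ}

/-- **Ramp, `b = 5`, any other hinge.** -/
theorem lo_X5 (hw : W x m w) (hz : ZR s ρ ζ) (hρ : ρ ≤ 725 / 10000) (hm : m ≤ 0)
    (hm' : -(131 / 100) ≤ m) (hx : x ≤ 125 / 1000) (ht : -(131 / 1000) ≤ m * x)
    (hF : FX 5 s ρ w ζ) : 18 / 100 ≤ S4 m w ζ + Real.pi / 2 * m := by
  have x0 := hw.pos
  have s0 := hz.lo
  have s1 := hz.hi
  have r0 := hz.pos
  unfold FX at hF
  have hR : Dm (4 * ρ) w ζ ≤ (LRA.RX 5).val [x, -m, s, ρ] := by
    simp only [LRA.RX, LRA.hb, E.val, NumI.lkR]
    push_cast
    linarith only [hF]
  rcases le_total (1 / 100) x with h | h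
  · have h2 : ∃ e ∈ la (RX 5) 180 1310, 0 < e.val [x, -m, s, ρ] :=
      c_x5a (by linarith only [h]) (by linarith only [hx]) (by linarith only [hm]) (by linarith only [hm']) (by linarith only [s0])
        (by linarith only [s1]) (by linarith only [r0]) (by linarith only [hρ])
    have key := la_key (k := 180) (t := 1310) hw hz hm (by linarith only [hρ, hx, r0]) (by push_cast; linarith only [ht]) hR h2
    push_cast at key
    linarith only [key]
  · have key := ls_key (n := 10) (k := 180) hw hz hm (by push_cast; linarith only [h]) (by norm_num) hR
      (c_x5c (by linarith only [x0]) (by linarith only [h]) (by linarith only [hm]) (by linarith only [hm']) (by linarith only [s0])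
        (by linarith only [s1]) (by linarith only [r0]) (by linarith only [hρ]))
    push_cast at key
    linarith only [key]

end LR

end Pool.Agent.Work.MP_b30479_gt.G2
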