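import Pool.Agent.Work.MP_b30479_gt.G2.CDefs
import Pool.Agent.Work.MP_b30479_gt.G2.CoreL
import Pool.Agent.Work.MP_b30479_gt.LT.CoreG

/-!
# Local behaviour of the factors at an interior point

Local limits on the scale `1 / √n` and sharp bounds near a point, for `SE` and for `Ec`.
-/

namespace Pool.Agent.Work.MP_b30479_gt.G2

open Finset VOL LT MeasureTheory Filter Topology

/-- `SE` on the strip `0 < Re u < 1` -/
def SEok : Prop := ∀ n : ℕ, 4 ≤ n → ∀ u ∈ strip, SE n u = Complex.exp (M n u)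

theorem tendsto_sqrt_nn : Tendsto (fun s => √(nn s)) atTop atTop :=
  Real.tendsto_sqrt_atTop.comp tendsto_nn

theorem tendsto_div_sqrt_nn (Z : ℂ) : Tendsto (fun s => Z / ((√(nn s) : ℝ) : ℂ)) atTop (𝓝 0) := by
  have h1 : Tendsto (fun s => (√(nn s))⁻¹) atTop (𝓝 0) := tendsto_inv_atTop_zero.comp tendsto_sqrt_nn
  have h2 : Tendsto (fun s => (((√(nn s))⁻¹ : ℝ) : ℂ)) atTop (𝓝 ((0 : ℝ) : ℂ)) :=
    (Complex.continuous_ofReal.tendsto 0).comp h1
  have h3 := h2.const_mul Z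
  rw [Complex.ofReal_zero, mul_zero] at h3
  refine h3.congr fun s => ?_
  rw [Complex.ofReal_inv, div_eq_mul_inv]

theorem tendsto_div_nn (c : ℝ) : Tendsto (fun s => ((c / nn s : ℝ) : ℂ)) atTop (𝓝 0) := by
  have h1 : Tendsto (fun s => c / nn s) atTop (𝓝 0) := tendsto_nn.const_div_atTop c
  have h2 := (Complex.continuous_ofReal.tendsto 0).comp h1
  rw [Complex.ofReal_zero] at h2
  exact h2

theorem sqrt_nn_ne (s : ℕ) : ((√(nn s) : ℝ) : ℂ) ≠ 0 := by
  exact_mod_cast (Real.sqrt_pos.mpr (nn_pos s)).ne'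

theorem sqrt_nn_sq (s : ℕ) : ((√(nn s) : ℝ) : ℂ) ^ 2 = nn s := by
  rw [← Complex.ofReal_pow, Real.sq_sqrt (nn_pos s).le]

theorem eventually_four : ∀ᶠ s : ℕ in atTop, 4 ≤ 2 * s + 1 := by
  filter_upwards [eventually_ge_atTop 2] with s hs
  omega

/-- a point of the strip has a margin -/
theorem exists_Sd {u : ℂ} (hu : u ∈ strip) : ∃ δ : ℝ, 0 < δ ∧ δ ≤ 1 / 2 ∧ ∀ v : ℂ, ‖v‖ ≤ δ →
    u + v ∈ Sd δ := by
  refine ⟨min u.re (1 - u.re) / 2, ?_, ?_, fun v hv => ?_⟩
  · have := lt_min hu.1 (sub_pos.mpr hu.2)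
    linarith only [this]
  · have h1 := min_le_left u.re (1 - u.re)
    have h2 := min_le_right u.re (1 - u.re)
    linarith only [h1, h2]
  · have h1 := min_le_left u.re (1 - u.re)
    have h2 := min_le_right u.re (1 - u.re)
    have h3 := (Complex.abs_re_le_norm v).trans hv
    have h4 := abs_le.mp h3
    refine ⟨?_, ?_⟩
    · rw [Complex.add_re]
      linarith only [h1, h4, h4.1]
    · rw [Complex.add_re]
      linarith only [h2, h4, h4.2]

/-- **Local limit of `SE`.** -/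
theorem SE_loc (hSE : SEok) {u : ℂ} (hu : u ∈ strip) (c : ℝ) (V : ℂ) :
    Tendsto (fun s : ℕ => Complex.exp (-((nn s : ℂ) * Fh u) - √(nn s) * (ph u * V)) *
      SE (2 * s + 1) (u + V / √(nn s) + ((c / nn s : ℝ) : ℂ))) atTop
      (𝓝 (Complex.exp (ph' u / 2 * V ^ 2 + c * ph u))) := by
  obtain ⟨δ, hδ, hδ2, hSd⟩ := exists_Sd hu
  set h : ℕ → ℂ := fun s => V / √(nn s) + ((c / nn s : ℝ) : ℂ) with hh
  have hh0 : Tendsto h atTop (𝓝 0) := by
    have := (tendsto_div_sqrt_nn V).add (tendsto_div_nn c)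
    rw [add_zero] at this
    exact this
  have hn0 : Tendsto (fun s => ‖h s‖) atTop (𝓝 0) := by simpa using hh0.norm
  -- the rest of the Taylor expansion
  have hR : Tendsto (fun s => (nn s : ℂ) * (Fh (u + h s) - Fh u - ph u * h s - ph' u * h s ^ 2 / 2))
      atTop (𝓝 0) := by
    rw [Metric.tendsto_nhds]
    intro ε hε
    obtain ⟨δ', hδ', hT⟩ := Fh_taylor_loc hu (ε := ε / (2 * ((‖V‖ + |c|) ^ 2 + 1))) (by positivity)
    filter_upwards [hn0.eventually_lt_const hδ'] with s hs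
    have hn := nn_pos s
    rw [dist_zero_right, norm_mul, Complex.norm_real, Real.norm_of_nonneg hn.le]
    have h1 := hT (h s) hs
    have h2 : nn s * ‖h s‖ ^ 2 ≤ (‖V‖ + |c|) ^ 2 := by
      have h3 : √(nn s) * ‖h s‖ ≤ ‖V‖ + |c| := by
        have h4 : ‖h s‖ ≤ ‖V‖ / √(nn s) + |c| / √(nn s) := by
          refine (norm_add_le _ _).trans (add_le_add ?_ ?_)
          · rw [norm_div, Complex.norm_real, Real.norm_of_nonneg (Real.sqrt_nonneg _)]
          · rw [Complex.norm_real, Real.norm_eq_abs, abs_div, abs_of_pos hn]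
            apply div_le_div_of_nonneg_left (abs_nonneg c) (Real.sqrt_pos.mpr hn)
            rw [Real.sqrt_le_left hn.le]
            nlinarith only [hn, nn_ge_one s]
        have h5 : 0 < √(nn s) := Real.sqrt_pos.mpr hn
        calc √(nn s) * ‖h s‖ ≤ √(nn s) * (‖V‖ / √(nn s) + |c| / √(nn s)) :=
              mul_le_mul_of_nonneg_left h4 h5.le
          _ = ‖V‖ + |c| := by field_simp
      calc nn s * ‖h s‖ ^ 2 = (√(nn s) * ‖h s‖) ^ 2 := by
            rw [mul_pow, Real.sq_sqrt hn.le]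
        _ ≤ (‖V‖ + |c|) ^ 2 := by
            apply pow_le_pow_left₀ (by positivity) h3
    calc nn s * ‖Fh (u + h s) - Fh u - ph u * h s - ph' u * h s ^ 2 / 2‖
        ≤ nn s * (ε / (2 * ((‖V‖ + |c|) ^ 2 + 1)) * ‖h s‖ ^ 2) :=
          mul_le_mul_of_nonneg_left h1 hn.le
      _ = ε / (2 * ((‖V‖ + |c|) ^ 2 + 1)) * (nn s * ‖h s‖ ^ 2) := by ring
      _ ≤ ε / (2 * ((‖V‖ + |c|) ^ 2 + 1)) * (‖V‖ + |c|) ^ 2 :=
          mul_le_mul_of_nonneg_left h2 (by positivity)
      _ < ε := by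
          rw [div_mul_eq_mul_div, div_lt_iff₀ (by positivity)]
          nlinarith only [hε, sq_nonneg (‖V‖ + |c|)]
  -- the correction
  have hJ : Tendsto (fun s => J (nn s) (u + h s)) atTop (𝓝 0) := by
    have h1 : Tendsto (fun s => 1 / (2 * Real.pi * Real.sin (Real.pi * δ)) / nn s) atTop (𝓝 0) :=
      tendsto_nn.const_div_atTop _
    refine squeeze_zero_norm' ?_ h1
    filter_upwards [hn0.eventually_lt_const hδ] with s hs
    exact norm_J_Sd hδ hδ2 (nn_pos s) (hSd _ hs.le)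
  -- the quadratic term
  have hq : Tendsto (fun s => ph' u / 2 * (V + ((c : ℝ) : ℂ) / √(nn s)) ^ 2) atTop
      (𝓝 (ph' u / 2 * V ^ 2)) := by
    have h1 := ((tendsto_div_sqrt_nn c).const_add V).pow 2
    rw [add_zero] at h1
    exact h1.const_mul _
  have hE := ((hR.add hJ).add hq).add_const (c * ph u)
  rw [zero_add, zero_add] at hE
  have hE' := (Complex.continuous_exp.tendsto _).comp hE
  refine hE'.congr' ?_
  filter_upwards [hn0.eventually_lt_const hδ, eventually_four] with s hs h4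
  have hmem : u + h s ∈ strip := Sd_sub hδ (hSd _ hs.le)
  have e0 : u + V / √(nn s) + ((c / nn s : ℝ) : ℂ) = u + h s := by rw [hh]; ring
  have e1 : (((2 * s + 1 : ℕ) : ℝ)) = nn s := rfl
  rw [e0, hSE _ h4 _ hmem, ← Complex.exp_add, Function.comp]
  congr 1
  unfold M
  rw [e1]
  have hq2 := sqrt_nn_sq s
  have hq0 := sqrt_nn_ne s
  have e2 : (nn s : ℂ) * h s = √(nn s) * V + c := by
    rw [hh]
    simp only
    rw [Complex.ofReal_div, ← hq2]
    field_simp
  have e3 : (nn s : ℂ) * h s ^ 2 = (V + (c : ℂ) / √(nn s)) ^ 2 := by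
    rw [hh]
    simp only
    rw [Complex.ofReal_div, ← hq2]
    field_simp
  linear_combination (-(ph u)) * e2 - ph' u / 2 * e3

/-- **Bound of `SE` near an interior point.** -/
theorem SE_near (hSE : SEok) {u : ℂ} (hu : u ∈ strip) (c : ℝ) :
    ∃ C r : ℝ, 0 < C ∧ 0 < r ∧ (∀ v : ℂ, ‖v‖ ≤ r → u + v ∈ strip) ∧
      ∀ᶠ s : ℕ in atTop, ∀ v : ℂ, ‖v‖ ≤ r →
      ‖SE (2 * s + 1) (u + v + ((c / nn s : ℝ) : ℂ))‖ ≤ C * Real.exp (nn s * (Fh (u + v)).re) := by
  obtain ⟨δ, hδ, hδ2, hSd⟩ := exists_Sd hu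
  have hpi := Real.pi_pos
  have hsδ : 0 < Real.sin (Real.pi * δ) := VOL.sin_pi_pos hδ (by linarith only [hδ, hδ2])
  set K : ℝ := Real.pi / Real.sin (Real.pi * δ) with hK
  have hK0 : 0 < K := by positivity
  set B : ℝ := K * |c| ^ 2 + |c| * (‖ph u‖ + K) + 1 / (2 * Real.pi * Real.sin (Real.pi * δ)) with hB
  refine ⟨Real.exp B, δ / 2, Real.exp_pos _, by positivity,
    fun v hv => Sd_sub hδ (hSd v (hv.trans (by linarith only [hδ]))), ?_⟩
  have hc0 : Tendsto (fun s => ‖((c / nn s : ℝ) : ℂ)‖) atTop (𝓝 0) := by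
    simpa using (tendsto_div_nn c).norm
  filter_upwards [hc0.eventually_lt_const (show 0 < δ / 2 by positivity), eventually_four]
    with s hs h4 v hv
  have hn := nn_pos s
  have hn1 := nn_ge_one s
  set d : ℂ := ((c / nn s : ℝ) : ℂ) with hd
  have hnd : nn s * ‖d‖ = |c| := by
    rw [hd, Complex.norm_real, Real.norm_eq_abs, abs_div, abs_of_pos hn]
    field_simp
  have hdc : ‖d‖ ≤ |c| := by
    have : ‖d‖ * 1 ≤ ‖d‖ * nn s := mul_le_mul_of_nonneg_left hn1 (norm_nonneg _)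
    linarith only [hnd, this]
  have hv1 : u + v ∈ Sd δ := hSd v (hv.trans (by linarith only [hδ]))
  have hv2 : u + v + d ∈ Sd δ := by
    rw [add_assoc]
    refine hSd _ ((norm_add_le _ _).trans ?_)
    linarith only [hv, hs]
  have hu1 : u ∈ Sd δ := by
    have := hSd 0 (by simp [hδ.le])
    rwa [add_zero] at this
  have e1 : (((2 * s + 1 : ℕ) : ℝ)) = nn s := rfl
  rw [hSE _ h4 _ (Sd_sub hδ hv2), Complex.norm_exp, ← Real.exp_add]
  apply Real.exp_le_exp.mpr
  have h1 := Fh_taylor hδ hδ2 hv2 hv1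
  rw [add_sub_cancel_left, ← hK] at h1
  have h2 := norm_J_Sd hδ hδ2 hn hv2
  have h3 := ph_lip hδ hδ2 hv1 hu1
  rw [add_sub_cancel_left, ← hK] at h3
  have h5 : ‖ph (u + v)‖ ≤ ‖ph u‖ + K := by
    have h6 := norm_sub_norm_le (ph (u + v)) (ph u)
    have h7 : K * ‖v‖ ≤ K * 1 := mul_le_mul_of_nonneg_left (hv.trans (by linarith only [hδ, hδ2])) hK0.le
    linarith only [h3, h6, h7]
  have h6 : (M (((2 * s + 1 : ℕ) : ℝ)) (u + v + d)).re =
      nn s * (Fh (u + v)).re + (nn s : ℝ) * (Fh (u + v + d) - Fh (u + v) - d * ph (u + v)).re +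
        nn s * (d * ph (u + v)).re + (J (nn s) (u + v + d)).re := by
    rw [e1]
    unfold M
    rw [Complex.add_re, Complex.re_ofReal_mul, Complex.sub_re, Complex.sub_re]
    ring
  rw [h6]
  have h7 : (nn s : ℝ) * (Fh (u + v + d) - Fh (u + v) - d * ph (u + v)).re ≤ K * |c| ^ 2 := by
    have h8 := (Complex.re_le_norm (Fh (u + v + d) - Fh (u + v) - d * ph (u + v))).trans h1
    calc (nn s : ℝ) * (Fh (u + v + d) - Fh (u + v) - d * ph (u + v)).re ≤
          nn s * (K * ‖d‖ ^ 2) := mul_le_mul_of_nonneg_left h8 hn.le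
      _ = K * (nn s * ‖d‖) * ‖d‖ := by ring
      _ = K * |c| * ‖d‖ := by rw [hnd]
      _ ≤ K * |c| * |c| := mul_le_mul_of_nonneg_left hdc (by positivity)
      _ = K * |c| ^ 2 := by ring
  have h8 : nn s * (d * ph (u + v)).re ≤ |c| * (‖ph u‖ + K) := by
    calc nn s * (d * ph (u + v)).re ≤ nn s * ‖d * ph (u + v)‖ :=
          mul_le_mul_of_nonneg_left (Complex.re_le_norm _) hn.le
      _ = nn s * ‖d‖ * ‖ph (u + v)‖ := by rw [norm_mul]; ring
      _ = |c| * ‖ph (u + v)‖ := by rw [hnd]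
      _ ≤ |c| * (‖ph u‖ + K) := mul_le_mul_of_nonneg_left h5 (abs_nonneg c)
  have h9 : (J (nn s) (u + v + d)).re ≤ 1 / (2 * Real.pi * Real.sin (Real.pi * δ)) := by
    refine (Complex.re_le_norm _).trans (h2.trans ?_)
    exact div_le_self (by positivity) hn1
  rw [hB]
  linarith only [h7, h8, h9]

/-- the exponent of the weight of a continuous variable -/
noncomputable def wq (b : ℤ) (z : ℂ) : ℂ := Real.pi * Complex.I * b * z ^ 2 + 2 * Real.pi * Complex.I * z

theorem wq_add (b : ℤ) (z y : ℂ) : wq b (z + y) = wq b z +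
    2 * Real.pi * Complex.I * (b * z + 1) * y + Real.pi * Complex.I * b * y ^ 2 := by
  unfold wq
  ring

theorem norm_sin_le' (w : ℂ) : ‖Complex.sin w‖ ≤ Real.exp |w.im| := by
  unfold Complex.sin
  rw [norm_div, norm_mul, Complex.norm_I, mul_one, Complex.norm_ofNat, div_le_iff₀ (by norm_num)]
  refine (norm_sub_le _ _).trans ?_
  rw [Complex.norm_exp, Complex.norm_exp]
  have e1 : (-w * Complex.I).re = w.im := by simp
  have e2 : (w * Complex.I).re = -w.im := by simp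
  rw [e1, e2]
  have h1 := Real.exp_le_exp.mpr (le_abs_self w.im)
  have h2 := Real.exp_le_exp.mpr (neg_le_abs w.im)
  linarith only [h1, h2]

/-- **Bound of the weight of a continuous variable.** -/
theorem Ec_near {ζ : ℂ} (h0 : 0 < ζ.im) (b : ℤ) : ∃ C : ℝ, 0 < C ∧ ∀ s : ℕ, ∀ v : ℝ,
    ‖Ec (2 * s + 1) b (ζ + v)‖ ≤ C * Real.exp (nn s * (wq b (ζ + v)).re) := by
  have hpi := Real.pi_pos
  set q0 : ℝ := Real.exp (-(2 * Real.pi * ζ.im)) with hq0
  have hq1 : q0 < 1 := by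
    rw [hq0, Real.exp_lt_one_iff]
    have : 0 < 2 * Real.pi * ζ.im := by positivity
    linarith only [this]
  refine ⟨Real.exp (2 * Real.pi * ζ.im) * 4 / (1 - q0) ^ 2,
    by have := sub_pos.mpr hq1; positivity, fun s v => ?_⟩
  have hn := nn_pos s
  have hn1 := nn_ge_one s
  set z : ℂ := ζ + v with hz
  have hzim : z.im = ζ.im := by rw [hz]; simp
  have hzp : 0 < z.im := by rw [hzim]; exact h0
  have ecast : ((2 * s + 1 : ℕ) : ℂ) = ((nn s : ℝ) : ℂ) := by
    unfold nn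
    rw [Complex.ofReal_natCast]
  unfold Ec
  rw [div_eq_mul_one_div, inv_sin_sq hzp (Nat.succ_pos (2 * s)), ecast]
  have hqn : ‖Complex.exp (2 * Real.pi * Complex.I * (nn s : ℝ) * z)‖ ≤ q0 := by
    rw [Complex.norm_exp, hq0]
    apply Real.exp_le_exp.mpr
    have : (2 * Real.pi * Complex.I * ((nn s : ℝ) : ℂ) * z).re = -(2 * Real.pi * nn s * z.im) := by
      simp
    rw [this, hzim]
    have : 2 * Real.pi * ζ.im * 1 ≤ 2 * Real.pi * ζ.im * nn s :=
      mul_le_mul_of_nonneg_left hn1 (by positivity)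
    linarith only [this]
  have hden : (1 - q0) ^ 2 ≤ ‖(1 - Complex.exp (2 * Real.pi * Complex.I * (nn s : ℝ) * z)) ^ 2‖ := by
    rw [norm_pow]
    apply pow_le_pow_left₀ (sub_pos.mpr hq1).le
    have := norm_sub_norm_le (1 : ℂ) (Complex.exp (2 * Real.pi * Complex.I * (nn s : ℝ) * z))
    rw [norm_one] at this
    linarith only [hqn, this]
  have hsin : ‖Complex.sin (2 * Real.pi * z)‖ ≤ Real.exp (2 * Real.pi * ζ.im) := by
    refine (norm_sin_le' _).trans (Real.exp_le_exp.mpr ?_)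
    have : (2 * (Real.pi : ℂ) * z).im = 2 * Real.pi * z.im := by simp
    rw [this, hzim, abs_of_nonneg (by positivity)]
  have e : Complex.exp (Real.pi * Complex.I * b * (nn s : ℝ) * z ^ 2) * Complex.sin (2 * Real.pi * z) *
      (-4 * Complex.exp (2 * Real.pi * Complex.I * (nn s : ℝ) * z) /
      (1 - Complex.exp (2 * Real.pi * Complex.I * (nn s : ℝ) * z)) ^ 2) =
      Complex.exp ((nn s : ℝ) * wq b z) * (Complex.sin (2 * Real.pi * z) * (-4) /
      (1 - Complex.exp (2 * Real.pi * Complex.I * (nn s : ℝ) * z)) ^ 2) := by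
    have : ((nn s : ℝ) : ℂ) * wq b z = Real.pi * Complex.I * b * (nn s : ℝ) * z ^ 2 +
        2 * Real.pi * Complex.I * (nn s : ℝ) * z := by
      unfold wq
      ring
    rw [this, Complex.exp_add]
    ring
  rw [e, norm_mul, Complex.norm_exp, Complex.re_ofReal_mul, norm_div, norm_mul, norm_neg,
    Complex.norm_ofNat, mul_comm]
  apply mul_le_mul_of_nonneg_right _ (Real.exp_pos _).le
  exact div_le_div₀ (by positivity) (mul_le_mul_of_nonneg_right hsin (by norm_num))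
    (by have := sub_pos.mpr hq1; positivity) hden

end Pool.Agent.Work.MP_b30479_gt.G2
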