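import Pool.Agent.Work.MP_b30479_gt.G2.M3P

/-!
# Interior 3-runs, level part: certificates, a digit `1` on the left
-/

namespace Pool.Agent.Work.MP_b30479_gt.G2

namespace M3

open NumI (E V chk)

theorem certL11 : okL p11 true false = true := by decide +kernel
theorem certU11 : okU p11 true = true := by decide +kernel
theorem certL1E : okL p1E true false = true := by decide +kernel
theorem certU1E : okU p1E true = true := by decide +kernel
theorem certL1N : okL p1N true false = true := by decide +kernel
theorem certU1N : okU p1N true = true := by decide +kernel
theorem certL1Z : okL p1Z true false = true := by decide +kernel
theorem certU1Z : okU p1Z true = true := by decide +kernel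

end M3

end Pool.Agent.Work.MP_b30479_gt.G2
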