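import Pool.Agent.Work.MP_b30479_gt.G2.M3S

/-!
# Interior 3-runs, level part: the three determinants
-/

namespace Pool.Agent.Work.MP_b30479_gt.G2

namespace M3

open NumI (E V chk MM PP)
open NumI.E hiding lnA lnB

/-! ### extreme values of `PP` -/

/-- extreme values of `PP x t` -/
noncomputable def kN (h : ℤ) (x : ℝ) : ℝ :=
  if h = 0 then Real.cos (Real.pi * x) else Real.sin (Real.pi * x) * Real.cos (Real.pi * x)
noncomputable def kD (h : ℤ) (x : ℝ) : ℝ :=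
  if h = 0 then Real.sin (Real.pi * x) else Real.sin (Real.pi * x) ^ 2 + (h : ℝ) / 10000

theorem kD_pos {h : ℤ} {x : ℝ} (hx : 0 < Real.sin (Real.pi * x)) (hh : 0 ≤ h) : 0 < kD h x := by
  unfold kD
  have : (0 : ℝ) ≤ h := by exact_mod_cast hh
  split_ifs <;> positivity

theorem val_nP (h : ℤ) (x : E) (xs : List ℝ) : (nP h x).val xs = kN h (x.val xs) := by
  unfold nP kN
  split_ifs <;> rfl

theorem val_dP (h : ℤ) (x : E) (xs : List ℝ) : (dP h x).val xs = kD h (x.val xs) := by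
  unfold dP kD
  split_ifs
  · rfl
  · show Real.sin (Real.pi * _) ^ 2 + (T h).val xs = _
    rw [val_T]

/-- `PP` is between its extreme values -/
theorem PP_between {h : ℤ} {x t : ℝ} (hx : 0 < Real.sin (Real.pi * x)) (hh : 0 < h)
    (ht : Real.sinh (Real.pi * t) ^ 2 ≤ (h : ℝ) / 10000) :
    (0 ≤ Real.cos (Real.pi * x) → kN h x / kD h x ≤ PP x t ∧ PP x t ≤ kN 0 x / kD 0 x) ∧
    (Real.cos (Real.pi * x) ≤ 0 → kN 0 x / kD 0 x ≤ PP x t ∧ PP x t ≤ kN h x / kD h x) := by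
  have hM := NumI.MM_pos (t := t) hx
  have hh' : (0 : ℝ) < h := by exact_mod_cast hh
  have hD : 0 < Real.sin (Real.pi * x) ^ 2 + (h : ℝ) / 10000 := by positivity
  have e0 : kN 0 x / kD 0 x = Real.cos (Real.pi * x) / Real.sin (Real.pi * x) := by simp [kN, kD]
  have e1 : kN h x / kD h x = Real.sin (Real.pi * x) * Real.cos (Real.pi * x) /
      (Real.sin (Real.pi * x) ^ 2 + (h : ℝ) / 10000) := by simp [kN, kD, hh.ne']
  rw [e0, e1]
  unfold PP
  have hs := sq_nonneg (Real.sinh (Real.pi * t))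
  have hle : MM x t ≤ Real.sin (Real.pi * x) ^ 2 + (h : ℝ) / 10000 := by unfold MM; linarith only [ht]
  have hge : Real.sin (Real.pi * x) ^ 2 ≤ MM x t := by unfold MM; linarith only [hs]
  refine ⟨fun hc => ⟨?_, ?_⟩, fun hc => ⟨?_, ?_⟩⟩
  · exact div_le_div_of_nonneg_left (by positivity) hM hle
  · rw [div_le_div_iff₀ hM hx]
    nlinarith only [hge, hc, mul_le_mul_of_nonneg_left hge hc]
  · rw [div_le_div_iff₀ hx hM]
    nlinarith only [hge, hc, mul_le_mul_of_nonneg_left hge (neg_nonneg.2 hc)]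
  · rw [div_le_div_iff₀ hM hD]
    nlinarith only [hle, hx, hc, mul_le_mul_of_nonneg_left hle (mul_nonneg hx.le (neg_nonneg.2 hc))]

/-- an affine function which is positive at the ends -/
theorem aff_pos {α β a b P : ℝ} (h0 : 0 < α + β * a) (h1 : 0 < α + β * b)
    (h : (a ≤ P ∧ P ≤ b) ∨ (b ≤ P ∧ P ≤ a)) : 0 < α + β * P := by
  rcases le_total 0 β with hb | hb
  · rcases h with h | h
    · nlinarith only [h0, h, hb, mul_le_mul_of_nonneg_left h.1 hb]
    · nlinarith only [h1, h, hb, mul_le_mul_of_nonneg_left h.1 hb]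
  · rcases h with h | h
    · nlinarith only [h1, h, hb, mul_le_mul_of_nonpos_left h.2 hb]
    · nlinarith only [h0, h, hb, mul_le_mul_of_nonpos_left h.2 hb]

theorem sinh_sq_le {t a : ℝ} (h : |t| ≤ a) :
    Real.sinh (Real.pi * t) ^ 2 ≤ Real.sinh (Real.pi * a) ^ 2 := by
  have hpi := Real.pi_pos
  rw [← sq_abs (Real.sinh (Real.pi * t)), Real.abs_sinh, abs_mul, abs_of_pos hpi]
  have h0 := abs_nonneg t
  apply pow_le_pow_left₀ (Real.sinh_nonneg_iff.2 (by positivity))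
  exact Real.sinh_le_sinh.2 (by gcongr)

theorem okH_spec {a h : ℤ} (hc : okH a h = true) {t : ℝ} (ht : |t| ≤ (a : ℝ) / 10000) :
    Real.sinh (Real.pi * t) ^ 2 ≤ (h : ℝ) / 10000 := by
  have h2 := NumI.pos_of_chk (NumI.chk_sound hc List.Forall₂.nil)
  simp only [E.val, val_T] at h2
  have := sinh_sq_le ht
  linarith only [h2, this]

/-! ### relations -/

/-- relations between the data -/
structure OkS (s : SPrm) : Prop where
  ul : 0 < s.ul
  vl : 0 < s.vl
  vh : s.vh < 5000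
  uh : s.uh < 5000
  be : 0 ≤ s.be
  be' : s.be ≤ 10
  ga : 0 ≤ s.ga
  ga' : s.ga ≤ 10
  lm : 0 ≤ s.lm
  l1 : 10 * s.vh < 10 * s.l0 + s.lm * s.vh
  lm' : s.lm ≤ 10
  ma : 10 * s.ma ≤ 10 * s.l0 + s.lm * s.vl
  y1 : 10 * s.e - s.be * s.ul + s.ga * s.vl - 10 * s.vl ≤ 50000
  um : 10 * s.e + s.ga * s.vh + (10 - s.be) * s.uh < 100000
  hP : 0 < s.hP
  hR : 0 < s.hR
  hS : 0 < s.hS
  hU : 0 < s.hU
  hC : 0 < s.hC

/-- heights -/
structure HtS (s : SPrm) (tu tv tm : ℝ) : Prop where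
  aP : |tu + tm| ≤ (s.aP : ℝ) / 10000
  aR : |tm| ≤ (s.aR : ℝ) / 10000
  aS : |tv| ≤ (s.aS : ℝ) / 10000
  aU : |tu| ≤ (s.aU : ℝ) / 10000
  aC : |tm - tv| ≤ (s.aC : ℝ) / 10000

/-- real parts -/
structure InS (s : SPrm) (u v m : ℝ) : Prop where
  u0 : (s.ul : ℝ) / 10000 ≤ u
  u1 : u ≤ (s.uh : ℝ) / 10000
  v0 : (s.vl : ℝ) / 10000 ≤ v
  v1 : v ≤ (s.vh : ℝ) / 10000
  m0 : (s.l0 : ℝ) / 10000 + (s.lm : ℝ) / 10 * v ≤ m
  m1 : m ≤ (s.m1 : ℝ) / 10000
  m2 : m ≤ (s.e : ℝ) / 10000 - (s.be : ℝ) / 10 * u + (s.ga : ℝ) / 10 * v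

variable {s : SPrm} {tu tv tm u v m : ℝ}

theorem InS.facts (hi : InS s u v m) (hk : OkS s) : 0 < u ∧ u < 1 / 2 ∧ 0 < v ∧ v < 1 / 2 ∧
    0 < m - v ∧ m - v ≤ 1 / 2 ∧ u + m < 1 ∧ (s.ma : ℝ) / 10000 ≤ m ∧
    m ≤ (s.e : ℝ) / 10000 - (s.be : ℝ) / 10 * u + (s.ga : ℝ) / 10 * ((s.vh : ℝ) / 10000) := by
  have a1 : (0 : ℝ) < s.ul := by exact_mod_cast hk.ul
  have a2 : (0 : ℝ) < s.vl := by exact_mod_cast hk.vl
  have a3 : (s.vh : ℝ) < 5000 := by exact_mod_cast hk.vh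
  have a4 : (s.uh : ℝ) < 5000 := by exact_mod_cast hk.uh
  have a5 : (0 : ℝ) ≤ s.be := by exact_mod_cast hk.be
  have a6 : (s.be : ℝ) ≤ 10 := by exact_mod_cast hk.be'
  have a7 : (0 : ℝ) ≤ s.ga := by exact_mod_cast hk.ga
  have a8 : (s.ga : ℝ) ≤ 10 := by exact_mod_cast hk.ga'
  have a9 : (0 : ℝ) ≤ s.lm := by exact_mod_cast hk.lm
  have b1 : (10 : ℝ) * s.vh < 10 * s.l0 + s.lm * s.vh := by exact_mod_cast hk.l1
  have b2 : (s.lm : ℝ) ≤ 10 := by exact_mod_cast hk.lm'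
  have b3 : (10 : ℝ) * s.ma ≤ 10 * s.l0 + s.lm * s.vl := by exact_mod_cast hk.ma
  have b4 : (10 : ℝ) * s.e - s.be * s.ul + s.ga * s.vl - 10 * s.vl ≤ 50000 := by
    exact_mod_cast hk.y1
  have b5 : (10 : ℝ) * s.e + s.ga * s.vh + (10 - s.be) * s.uh < 100000 := by exact_mod_cast hk.um
  obtain ⟨c1, c2, c3, c4, c5, c6, c7⟩ := hi
  have d1 := mul_le_mul_of_nonneg_left c4 (by linarith only [b2] : (0 : ℝ) ≤ 1 - (s.lm : ℝ) / 10)
  have d2 := mul_le_mul_of_nonneg_left c3 (by linarith only [a8] : (0 : ℝ) ≤ 1 - (s.ga : ℝ) / 10)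
  have d3 := mul_le_mul_of_nonneg_left c1 (by linarith only [a5] : (0 : ℝ) ≤ (s.be : ℝ) / 10)
  have d4 := mul_le_mul_of_nonneg_left c2 (by linarith only [a6] : (0 : ℝ) ≤ 1 - (s.be : ℝ) / 10)
  have d5 := mul_le_mul_of_nonneg_left c4 (by linarith only [a7] : (0 : ℝ) ≤ (s.ga : ℝ) / 10)
  have d6 := mul_le_mul_of_nonneg_left c3 (by linarith only [a9] : (0 : ℝ) ≤ (s.lm : ℝ) / 10)
  refine ⟨by linarith only [a1, c1], by linarith only [a4, c2], by linarith only [a2, c3], by linarith only [a3, c4], by linarith only [b1, c5, d1], by linarith only [b4, c7, d2, d3],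
    by linarith only [b5, c7, d4, d5], by linarith only [b3, c5, d6], by linarith only [c7, d5]⟩

theorem sin_pos_of {x : ℝ} (h0 : 0 < x) (h1 : x < 1) : 0 < Real.sin (Real.pi * x) :=
  Real.sin_pos_of_pos_of_lt_pi (mul_pos Real.pi_pos h0) (by nlinarith only [h1, Real.pi_pos])

theorem cos_nonneg_of {x : ℝ} (h0 : 0 ≤ x) (h1 : x ≤ 1 / 2) : 0 ≤ Real.cos (Real.pi * x) :=
  Real.cos_nonneg_of_neg_pi_div_two_le_of_le (by nlinarith only [h0, Real.pi_pos])
    (by nlinarith only [h1, Real.pi_pos])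

theorem cos_nonpos_of {x : ℝ} (h0 : 1 / 2 ≤ x) (h1 : x ≤ 1) : Real.cos (Real.pi * x) ≤ 0 :=
  Real.cos_nonpos_of_pi_div_two_le_of_le (by nlinarith only [h0, Real.pi_pos])
    (by nlinarith only [h1, Real.pi_pos])

/-- `sin · PP` from below -/
noncomputable def kS (h : ℤ) (x : ℝ) : ℝ :=
  Real.cos (Real.pi * x) * Real.sin (Real.pi * x) ^ 2 * (Real.sin (Real.pi * x) ^ 2 +
    (h : ℝ) / 10000)⁻¹

theorem val_eS (h : ℤ) (x : E) (xs : List ℝ) : (eS h x).val xs = kS h (x.val xs) := by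
  show Real.cos _ * Real.sin _ ^ 2 * (Real.sin _ ^ 2 + (T h).val xs)⁻¹ = _
  rw [val_T]
  rfl

theorem kS_eq {h : ℤ} {x : ℝ} (hh : 0 < h) :
    kS h x = Real.sin (Real.pi * x) * (kN h x / kD h x) := by
  unfold kS kN kD
  rw [if_neg hh.ne', if_neg hh.ne']
  ring

/-- values of the checks; `R`, `P` the extreme values -/
theorem val_eRP (h k : ℤ) (x m' : E) (xs : List ℝ) (hx : 0 < kD h (x.val xs)) :
    (eRP h k x m').val xs = kD h (x.val xs) *
      (kN k (m'.val xs) / kD k (m'.val xs) - kN h (x.val xs) / kD h (x.val xs)) := by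
  show (nP k m').val xs * ((dP k m').val xs)⁻¹ * (dP h x).val xs - (nP h x).val xs = _
  rw [val_nP, val_dP, val_dP, val_nP]
  field_simp

theorem val_eF (h k σ : ℤ) (u' v' m' : E) (xs : List ℝ)
    (hx : 0 < kD h ((add u' m').val xs)) :
    (eF s h k σ u' v' m').val xs = kD h ((add u' m').val xs) *
      (Real.cos (Real.pi * ((sub m' v').val xs)) * (kS s.hS (v'.val xs) +
        Real.sin (Real.pi * v'.val xs) * (kN k (m'.val xs) / kD k (m'.val xs) -
          kN h ((add u' m').val xs) / kD h ((add u' m').val xs)) +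
        σ * (Real.sin (Real.pi * u'.val xs) *
          (kN h ((add u' m').val xs) / kD h ((add u' m').val xs)))) +
        Real.sin (Real.pi * ((sub m' v').val xs)) * (kS s.hS (v'.val xs) *
          (kN k (m'.val xs) / kD k (m'.val xs) -
          kN h ((add u' m').val xs) / kD h ((add u' m').val xs)))) := by
  show Real.cos (Real.pi * ((sub m' v').val xs)) * ((eS s.hS v').val xs * (dP h (add u' m')).val xs +
    Real.sin (Real.pi * v'.val xs) * (eRP h k (add u' m') m').val xs +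
    (σ : ℝ) / (1 : ℕ) * (Real.sin (Real.pi * u'.val xs) * (nP h (add u' m')).val xs)) +
    Real.sin (Real.pi * ((sub m' v').val xs)) * ((eS s.hS v').val xs *
      (eRP h k (add u' m') m').val xs) = _
  rw [val_eRP h k _ _ _ hx, val_eS, val_dP, val_nP]
  field_simp
  push_cast
  ring

theorem val_eE (h σ : ℤ) (u' v' m' : E) (xs : List ℝ)
    (hx : 0 < kD h ((add u' m').val xs)) :
    (eE s h σ u' v' m').val xs = kD h ((add u' m').val xs) *
      (2 * kS s.hU (u'.val xs) - Real.sin (Real.pi * u'.val xs) *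
          (kN h ((add u' m').val xs) / kD h ((add u' m').val xs)) +
        σ * (Real.sin (Real.pi * v'.val xs) *
          (kN h ((add u' m').val xs) / kD h ((add u' m').val xs)))) := by
  show ((2 : ℤ) : ℝ) / (1 : ℕ) * (eS s.hU u').val xs * (dP h (add u' m')).val xs -
    Real.sin (Real.pi * u'.val xs) * (nP h (add u' m')).val xs +
    (σ : ℝ) / (1 : ℕ) * (Real.sin (Real.pi * v'.val xs) * (nP h (add u' m')).val xs) = _
  rw [val_eS, val_dP, val_nP]
  field_simp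
  push_cast
  ring

theorem val_eG0 (h k : ℤ) (u' m' : E) (xs : List ℝ)
    (hx : 0 < kD h ((add u' m').val xs)) :
    (eG0 s h k u' m').val xs = kD h ((add u' m').val xs) *
      (2 * kS s.hU (u'.val xs) * (kN k (m'.val xs) / kD k (m'.val xs) -
          kN h ((add u' m').val xs) / kD h ((add u' m').val xs)) -
        Real.sin (Real.pi * u'.val xs) *
          (kN h ((add u' m').val xs) / kD h ((add u' m').val xs)) *
          (kN k (m'.val xs) / kD k (m'.val xs))) := by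
  show ((2 : ℤ) : ℝ) / (1 : ℕ) * (eS s.hU u').val xs * (eRP h k (add u' m') m').val xs -
    Real.sin (Real.pi * u'.val xs) * (nP h (add u' m')).val xs *
      ((nP k m').val xs * ((dP k m').val xs)⁻¹) = _
  rw [val_eRP h k _ _ _ hx, val_eS, val_nP, val_nP, val_dP]
  field_simp
  push_cast
  ring

theorem val_eG (h k σ : ℤ) (u' v' m' : E) (xs : List ℝ) :
    (eG s h k σ u' v' m').val xs =
      Real.sin (Real.pi * ((sub m' v').val xs)) * Real.cos (Real.pi * ((sub m' v').val xs)) *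
        (eE s h σ u' v' m').val xs +
      (Real.sin (Real.pi * ((sub m' v').val xs)) ^ 2 + (s.hC : ℝ) / 10000) *
        (eG0 s h k u' m').val xs := by
  show _ + (Real.sin _ ^ 2 + (T s.hC).val xs) * _ = _
  rw [val_T]
  rfl

end M3

end Pool.Agent.Work.MP_b30479_gt.G2
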