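import Pool.Agent.Work.MP_b30479_gt.G2.M3D

/-!
# Interior 3-runs, level part: positivity of the three determinants
-/

namespace Pool.Agent.Work.MP_b30479_gt.G2

namespace M3

open NumI (E V chk MM PP)
open NumI.E hiding lnA lnB

variable {s : SPrm} {tu tv tm u v m : ℝ}

/-! ### algebra -/

/-- the first determinant -/
theorem algF {wu wv P Q R S Rk sg sy cy σ : ℝ} (hwv : 0 < wv) (hsy : 0 < sy)
    (hQ0 : 0 ≤ Q) (hQ1 : Q * sy ≤ cy) (hR : Rk ≤ R) (hS : sg ≤ wv * S) (hsg : 0 < sg)
    (hRP : 0 < Rk - P) (hσ : -(wu * |P * Q|) = σ * (wu * P * Q))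
    (h : 0 < cy * (sg + wv * (Rk - P) + σ * (wu * P)) + sy * (sg * (Rk - P))) :
    0 < wv * ((Q + S) * (Q + R - P) - Q ^ 2) - wu * |P * Q| := by
  have h1 : 0 < Q * (sg + wv * (Rk - P) + σ * (wu * P)) + sg * (Rk - P) := by
    rcases le_total 0 (sg + wv * (Rk - P) + σ * (wu * P)) with hX | hX
    · have := mul_pos hsg hRP
      have := mul_nonneg hQ0 hX
      linarith
    · have h2 : cy * (sg + wv * (Rk - P) + σ * (wu * P)) ≤
          Q * sy * (sg + wv * (Rk - P) + σ * (wu * P)) := mul_le_mul_of_nonpos_right hQ1 hX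
      have h3 : 0 < sy * (Q * (sg + wv * (Rk - P) + σ * (wu * P)) + sg * (Rk - P)) := by
        nlinarith only [h, h2]
      exact pos_of_mul_pos_right h3 hsy.le
  have h2 : wv * ((Q + S) * (Q + R - P) - Q ^ 2) - wu * |P * Q| =
      Q * (wv * S + wv * (R - P) + σ * (wu * P)) + wv * S * (R - P) := by
    rw [sub_eq_add_neg, hσ]; ring
  rw [h2]
  have h3 : Q * (sg + wv * (Rk - P)) ≤ Q * (wv * S + wv * (R - P)) := by
    apply mul_le_mul_of_nonneg_left _ hQ0
    have := mul_le_mul_of_nonneg_left hR hwv.le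
    linarith only [hS, this]
  have h4 : sg * (Rk - P) ≤ wv * S * (R - P) :=
    mul_le_mul hS (by linarith only [hR]) hRP.le (hsg.le.trans hS)
  nlinarith only [h1, h3, h4]

/-- the second determinant -/
theorem algG {wu wv P Q R S Rk tg q0 σ : ℝ} (hwu : 0 < wu) (hQ0 : 0 ≤ Q) (hQ : q0 ≤ Q)
    (hR : Rk ≤ R) (hS : tg ≤ wu * S) (hRP : 0 < Rk - P)
    (hσ : -(wv * |P * Q|) = σ * (wv * P * Q)) (hσ' : σ * (wv * P) ≤ 0)
    (hY : 0 < 2 * tg - wu * P + σ * (wv * P))
    (h : 0 < 2 * tg * (Rk - P) - wu * P * Rk ∨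
      0 < q0 * (2 * tg - wu * P + σ * (wv * P)) + (2 * tg * (Rk - P) - wu * P * Rk)) :
    0 < wu * (2 * S * (Q + R - P) - P * (Q + R)) - wv * |P * Q| := by
  have h2 : wu * (2 * S * (Q + R - P) - P * (Q + R)) - wv * |P * Q| =
      Q * (2 * (wu * S) - wu * P + σ * (wv * P)) + (R * (2 * (wu * S) - wu * P) -
        2 * (wu * S) * P) := by
    rw [sub_eq_add_neg, hσ]; ring
  rw [h2]
  have h3 : Q * (2 * tg - wu * P + σ * (wv * P)) ≤
      Q * (2 * (wu * S) - wu * P + σ * (wv * P)) := by
    apply mul_le_mul_of_nonneg_left _ hQ0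
    linarith only [hS]
  have h4 : Rk * (2 * (wu * S) - wu * P) ≤ R * (2 * (wu * S) - wu * P) :=
    mul_le_mul_of_nonneg_right hR (by linarith only [hS, hσ', hY])
  have h5 : 2 * tg * (Rk - P) ≤ 2 * (wu * S) * (Rk - P) :=
    mul_le_mul_of_nonneg_right (by linarith only [hS]) hRP.le
  have h6 : 0 < Q * (2 * tg - wu * P + σ * (wv * P)) + (2 * tg * (Rk - P) - wu * P * Rk) := by
    rcases h with h | h
    · have := mul_nonneg hQ0 hY.le
      linarith only [h, this]
    · have := mul_le_mul_of_nonneg_right hQ hY.le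
      linarith only [h, this]
  nlinarith only [h3, h4, h5, h6]

/-! ### the checks at a point -/

theorem val_linS (u' v' : E) (xs : List ℝ) : (linS s u' v').val xs =
    (s.e : ℝ) / 10000 - (s.be : ℝ) / 10 * u'.val xs + (s.ga : ℝ) / 10 * v'.val xs := by
  simp [linS, E.val, val_T]

/-- the sign condition on `m - 1/2` -/
def mOk (k : ℤ) (m : ℝ) : Prop := if k = 0 then 1 / 2 ≤ m else m ≤ 1 / 2
/-- the sign condition on `u + m - 1/2` -/
def xOk (σ : ℤ) (x : ℝ) : Prop := if σ = 1 then 1 / 2 ≤ x else x ≤ 1 / 2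

theorem val_aM {k : ℤ} {m' : E} {xs : List ℝ} (h : mOk k (m'.val xs)) :
    (aM k m').val xs ≤ 0 := by
  unfold mOk at h
  unfold aM
  split_ifs with hk
  · rw [if_pos hk] at h
    show (T 5000).val xs - _ ≤ 0
    rw [val_T]
    push_cast
    linarith only [h]
  · rw [if_neg hk] at h
    show _ - (T 5000).val xs ≤ 0
    rw [val_T]
    push_cast
    linarith only [h]

theorem val_aX {k : ℤ} {m' : E} {xs : List ℝ} (h : xOk k (m'.val xs)) :
    (aX k m').val xs ≤ 0 := by
  unfold xOk at h
  unfold aX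
  split_ifs with hk
  · rw [if_pos hk] at h
    show (T 5000).val xs - _ ≤ 0
    rw [val_T]
    push_cast
    linarith only [h]
  · rw [if_neg hk] at h
    show _ - (T 5000).val xs ≤ 0
    rw [val_T]
    push_cast
    linarith only [h]

/-- a check in two variables -/
theorem two_pos {e : E} {as : List E} (hk : OkS s) (hi : InS s u v m)
    (h : chk (e :: (as ++ [a2 s])) 60 (boxS2 s) = true) (ha : ∀ a ∈ as, a.val [u, m] ≤ 0) :
    0 < e.val [u, m] := by
  obtain ⟨-, -, -, -, -, -, -, f8, f9⟩ := hi.facts hk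
  obtain ⟨e', he, hp⟩ := NumI.chk2 h (by norm_num) (x := u) (y := m)
    (by push_cast; exact hi.u0) (by push_cast; exact hi.u1) (by push_cast; exact f8)
    (by push_cast; exact hi.m1)
  simp only [List.mem_cons, List.mem_append, List.not_mem_nil, or_false] at he
  rcases he with he | he | he
  · rwa [he] at hp
  · exact absurd hp (not_lt.2 (ha e' he))
  · exfalso
    rw [he] at hp
    have : (a2 s).val [u, m] = m - ((s.e : ℝ) / 10000 - (s.be : ℝ) / 10 * u +
        (s.ga : ℝ) / 10 * ((s.vh : ℝ) / 10000)) := by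
      show m - (linS s (var 0) (T s.vh)).val _ = _
      rw [val_linS, val_T]
      rfl
    rw [this] at hp
    linarith only [f9, hp]

/-- a check in three variables -/
theorem three_pos {e : E} {as : List E} (hk : OkS s) (hi : InS s u v m)
    (h : chk (e :: (as ++ a3 s)) 60 (boxS3 s) = true) (ha : ∀ a ∈ as, a.val [u, v, m] ≤ 0) :
    0 < e.val [u, v, m] := by
  obtain ⟨-, -, -, -, -, -, -, f8, f9⟩ := hi.facts hk
  obtain ⟨e', he, hp⟩ := NumI.chk3 h (by norm_num) (x := u) (y := v) (z := m)
    (by push_cast; exact hi.u0) (by push_cast; exact hi.u1) (by push_cast; exact hi.v0)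
    (by push_cast; exact hi.v1) (by push_cast; exact f8) (by push_cast; exact hi.m1)
  simp only [a3, List.mem_cons, List.mem_append, List.not_mem_nil, or_false] at he
  rcases he with he | he | he | he
  · rwa [he] at hp
  · exact absurd hp (not_lt.2 (ha e' he))
  · exfalso
    rw [he] at hp
    have : (sub (var 2) (linS s (var 0) (var 1))).val [u, v, m] =
        m - ((s.e : ℝ) / 10000 - (s.be : ℝ) / 10 * u + (s.ga : ℝ) / 10 * v) := by
      show m - (linS s (var 0) (var 1)).val _ = _
      rw [val_linS]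
      rfl
    rw [this] at hp
    linarith only [hp, hi, hi.m2]
  · exfalso
    rw [he] at hp
    have : (sub (add (T s.l0) (mul (q s.lm 10) (var 1))) (var 2)).val [u, v, m] =
        (s.l0 : ℝ) / 10000 + (s.lm : ℝ) / 10 * v - m := by
      simp [E.val, val_T]
    rw [this] at hp
    linarith only [hp, hi, hi.m0]

/-- the extreme values for the two heights -/
noncomputable def kap (h : ℤ) (x : ℝ) : ℝ := kN h x / kD h x

/-- the facts at a point -/
structure Facts (s : SPrm) (u v m : ℝ) (k σ h : ℤ) : Prop where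
  rp : 0 < kap k m - kap h (u + m)
  f : 0 < Real.cos (Real.pi * (m - v)) * (kS s.hS v +
        Real.sin (Real.pi * v) * (kap k m - kap h (u + m)) +
        σ * (Real.sin (Real.pi * u) * kap h (u + m))) +
        Real.sin (Real.pi * (m - v)) * (kS s.hS v * (kap k m - kap h (u + m)))
  e : 0 < 2 * kS s.hU u - Real.sin (Real.pi * u) * kap h (u + m) +
        σ * (Real.sin (Real.pi * ((s.vh : ℝ) / 10000)) * kap h (u + m))
  g : 0 < 2 * kS s.hU u * (kap k m - kap h (u + m)) -
        Real.sin (Real.pi * u) * kap h (u + m) * kap k m ∨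
      0 < Real.sin (Real.pi * (m - v)) * Real.cos (Real.pi * (m - v)) *
        (2 * kS s.hU u - Real.sin (Real.pi * u) * kap h (u + m) +
        σ * (Real.sin (Real.pi * v) * kap h (u + m))) +
        (Real.sin (Real.pi * (m - v)) ^ 2 + (s.hC : ℝ) / 10000) *
        (2 * kS s.hU u * (kap k m - kap h (u + m)) -
        Real.sin (Real.pi * u) * kap h (u + m) * kap k m)

theorem facts_of {g : Bool} (hk : OkS s) (hc : okS s g = true) (hi : InS s u v m)
    {k σ h : ℤ} (hkm : (k = 0 ∨ k = s.hR) ∧ mOk k m) (hσ : (σ = 1 ∨ σ = -1) ∧ xOk σ (u + m))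
    (hh : h = 0 ∨ h = s.hP) : Facts s u v m k σ h := by
  obtain ⟨f1, f2, f3, f4, f5, f6, f7, f8, f9⟩ := hi.facts hk
  have hx : 0 < Real.sin (Real.pi * (u + m)) := sin_pos_of (by linarith only [f1, f3, f5]) f7
  have hh0 : 0 ≤ h := by
    rcases hh with hh | hh
    · exact hh.ge
    · rw [hh]; exact hk.hP.le
  have hD : 0 < kD h (u + m) := kD_pos hx hh0
  have hR0 := hk.hR
  unfold okS at hc
  simp only [Bool.and_eq_true, List.all_eq_true] at hc
  have hc1 := hc.1 h (by rcases hh with hh | hh <;> simp [hh])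
  obtain ⟨⟨⟨⟨⟨cR0, cR1⟩, cE1, cE2⟩, cF⟩, cG⟩, cG'⟩ := hc1
  have v2 : ∀ e : E, (add (var 0) (var 1)).val [u, m] = u + m := fun _ => rfl
  have v3 : (add (var 0) (var 2)).val [u, v, m] = u + m := rfl
  have y3 : (sub (var 2) (var 1)).val [u, v, m] = m - v := rfl
  have w2 : (add (var 0) (var 1)).val [u, m] = u + m := rfl
  have hM2 : ∀ a ∈ [aM k (var 1)], a.val [u, m] ≤ 0 := by
    intro a ha
    rw [List.mem_singleton.1 ha]
    exact val_aM hkm.2
  have hX2 : ∀ a ∈ [aX σ (add (var 0) (var 1))], a.val [u, m] ≤ 0 := by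
    intro a ha
    rw [List.mem_singleton.1 ha]
    exact val_aX hσ.2
  have hMX3 : ∀ a ∈ [aX σ (add (var 0) (var 2)), aM k (var 2)], a.val [u, v, m] ≤ 0 := by
    intro a ha
    simp only [List.mem_cons, List.not_mem_nil, or_false] at ha
    rcases ha with ha | ha
    · rw [ha]; exact val_aX hσ.2
    · rw [ha]; exact val_aM hkm.2
  have hrp : okR s h k = true := by
    rcases hkm.1 with hk1 | hk1 <;> rw [hk1] <;> assumption
  have hF : okF s h k σ = true := by
    have := cF k (by rcases hkm.1 with h1 | h1 <;> simp [h1])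
    rcases hσ.1 with h1 | h1 <;> rw [h1]
    exacts [this.1, this.2]
  have hE : okE s h σ = true := by
    rcases hσ.1 with h1 | h1 <;> rw [h1] <;> assumption
  refine ⟨?_, ?_, ?_, ?_⟩
  · have := two_pos (as := [aM k (var 1)]) hk hi hrp hM2
    rw [val_eRP h k _ _ _ (by rw [w2]; exact hD), w2] at this
    exact pos_of_mul_pos_right this hD.le
  · have := three_pos (as := [aX σ (add (var 0) (var 2)), aM k (var 2)]) hk hi hF hMX3
    rw [val_eF h k σ _ _ _ _ (by rw [v3]; exact hD), v3, y3] at this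
    exact pos_of_mul_pos_right this hD.le
  · have := two_pos (as := [aX σ (add (var 0) (var 1))]) hk hi hE hX2
    rw [val_eE h σ _ _ _ _ (by rw [w2]; exact hD), w2, val_T] at this
    exact pos_of_mul_pos_right this hD.le
  · have key : okG0 s h k = true ∨ okG s h k σ = true := by
      rcases hkm.1 with hk1 | hk1
      · rw [hk1]
        split_ifs at cG'
        · exact Or.inl cG'
        · right
          simp only [Bool.and_eq_true] at cG'
          rcases hσ.1 with h1 | h1 <;> rw [h1]
          exacts [cG'.1, cG'.2]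
      · rw [hk1]
        exact Or.inl cG
    rcases key with key | key
    · left
      have := two_pos (as := [aM k (var 1)]) hk hi key hM2
      rw [val_eG0 h k _ _ _ (by rw [w2]; exact hD), w2] at this
      exact pos_of_mul_pos_right this hD.le
    · right
      have := three_pos (as := [aX σ (add (var 0) (var 2)), aM k (var 2)]) hk hi key hMX3
      rw [val_eG, val_eE h σ _ _ _ _ (by rw [v3]; exact hD),
        val_eG0 h k _ _ _ (by rw [v3]; exact hD), v3, y3] at this
      refine pos_of_mul_pos_right (a := kD h (u + m)) ?_ hD.le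
      refine this.trans_eq ?_
      show _ = kD h (u + m) * (Real.sin (Real.pi * (m - v)) * Real.cos (Real.pi * (m - v)) *
        (2 * kS s.hU u - Real.sin (Real.pi * u) * (kN h (u + m) / kD h (u + m)) +
        σ * (Real.sin (Real.pi * v) * (kN h (u + m) / kD h (u + m)))) +
        (Real.sin (Real.pi * (m - v)) ^ 2 + (s.hC : ℝ) / 10000) *
        (2 * kS s.hU u * (kN k m / kD k m - kN h (u + m) / kD h (u + m)) -
        Real.sin (Real.pi * u) * (kN h (u + m) / kD h (u + m)) * (kN k m / kD k m)))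
      simp only [E.val, NumI.lkR_zero, NumI.lkR_one, NumI.lkR_succ]
      ring

end M3

end Pool.Agent.Work.MP_b30479_gt.G2
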