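import Pool.Agent.Work.MP_b30479_gt.G2.M3E

/-!
# Interior 3-runs, level part: the three determinants with the heights
-/

namespace Pool.Agent.Work.MP_b30479_gt.G2

namespace M3

open NumI (MM PP)

variable {s : SPrm} {tu tv tm u v m : ℝ}

theorem kap_zero (x : ℝ) : kap 0 x = Real.cos (Real.pi * x) / Real.sin (Real.pi * x) := by
  simp [kap, kN, kD]

theorem kap_h {h : ℤ} (hh : 0 < h) (x : ℝ) : kap h x =
    Real.sin (Real.pi * x) * Real.cos (Real.pi * x) /
      (Real.sin (Real.pi * x) ^ 2 + (h : ℝ) / 10000) := by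
  simp [kap, kN, kD, hh.ne']

/-- **The three determinants are positive.** -/
theorem dets {g : Bool} (hk : OkS s) (hc : okS s g = true) (hi : InS s u v m)
    (ht : HtS s tu tv tm) :
    0 < PP (m - v) (tm - tv) + PP m tm - PP (u + m) (tu + tm) ∧
    0 < Real.sin (Real.pi * v) * ((PP (m - v) (tm - tv) + PP v tv) *
        (PP (m - v) (tm - tv) + PP m tm - PP (u + m) (tu + tm)) - PP (m - v) (tm - tv) ^ 2) -
      Real.sin (Real.pi * u) * |PP (u + m) (tu + tm) * PP (m - v) (tm - tv)| ∧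
    0 < Real.sin (Real.pi * u) * (2 * PP u tu *
        (PP (m - v) (tm - tv) + PP m tm - PP (u + m) (tu + tm)) -
        PP (u + m) (tu + tm) * (PP (m - v) (tm - tv) + PP m tm)) -
      Real.sin (Real.pi * v) * |PP (u + m) (tu + tm) * PP (m - v) (tm - tv)| := by
  obtain ⟨f1, f2, f3, f4, f5, f6, f7, -, -⟩ := hi.facts hk
  have f8 : 0 < m := by linarith only [f3, f5]
  have f9 : m < 1 := by linarith only [f1, f7]
  have hc' := hc
  unfold okS at hc'
  simp only [Bool.and_eq_true] at hc'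
  obtain ⟨-, h1, h2, h3, h4, h5⟩ := hc'
  have sx : 0 < Real.sin (Real.pi * (u + m)) := sin_pos_of (by linarith only [f1, f3, f5]) f7
  have su : 0 < Real.sin (Real.pi * u) := sin_pos_of f1 (by linarith only [f3, f5, f7])
  have sv : 0 < Real.sin (Real.pi * v) := sin_pos_of f3 (by linarith only [f1, f5, f7])
  have sm : 0 < Real.sin (Real.pi * m) := sin_pos_of f8 f9
  have sy : 0 < Real.sin (Real.pi * (m - v)) := sin_pos_of f5 (by linarith only [f1, f3, f7])
  have cy : 0 ≤ Real.cos (Real.pi * (m - v)) := cos_nonneg_of f5.le f6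
  have cv : 0 < Real.cos (Real.pi * v) := Real.cos_pos_of_mem_Ioo
    ⟨by nlinarith only [f1, f2, f3, Real.pi_pos], by nlinarith only [f4, Real.pi_pos]⟩
  have cu : 0 < Real.cos (Real.pi * u) := Real.cos_pos_of_mem_Ioo
    ⟨by nlinarith only [f1, Real.pi_pos], by nlinarith only [f2, Real.pi_pos]⟩
  have bP := PP_between (h := s.hP) (t := tu + tm) sx hk.hP (okH_spec h1 ht.aP)
  have bR := PP_between (h := s.hR) (t := tm) sm hk.hR (okH_spec h2 ht.aR)
  have bS := PP_between (h := s.hS) (t := tv) sv hk.hS (okH_spec h3 ht.aS)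
  have bU := PP_between (h := s.hU) (t := tu) su hk.hU (okH_spec h4 ht.aU)
  have bC := PP_between (h := s.hC) (t := tm - tv) sy hk.hC (okH_spec h5 ht.aC)
  have hS : kS s.hS v ≤ Real.sin (Real.pi * v) * PP v tv := by
    rw [kS_eq hk.hS]
    exact mul_le_mul_of_nonneg_left (bS.1 cv.le).1 sv.le
  have hU : kS s.hU u ≤ Real.sin (Real.pi * u) * PP u tu := by
    rw [kS_eq hk.hU]
    exact mul_le_mul_of_nonneg_left (bU.1 cu.le).1 su.le
  have hSp : 0 < kS s.hS v := by
    have : (0 : ℝ) < s.hS := by exact_mod_cast hk.hS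
    unfold kS; positivity
  have hUp : 0 < kS s.hU u := by
    have : (0 : ℝ) < s.hU := by exact_mod_cast hk.hU
    unfold kS; positivity
  obtain ⟨q1, q2⟩ := bC.1 cy
  have q1' : kap s.hC (m - v) ≤ PP (m - v) (tm - tv) := q1
  have q2' : PP (m - v) (tm - tv) ≤ kap 0 (m - v) := q2
  have hCp : (0 : ℝ) < s.hC := by exact_mod_cast hk.hC
  have hQ0 : 0 ≤ PP (m - v) (tm - tv) := by
    refine le_trans ?_ q1'
    rw [kap_h hk.hC]
    positivity
  have hQ1 : PP (m - v) (tm - tv) * Real.sin (Real.pi * (m - v)) ≤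
      Real.cos (Real.pi * (m - v)) := by
    rw [kap_zero, le_div_iff₀ sy] at q2'
    exact q2'
  -- the choices
  obtain ⟨k, hkm, hR⟩ : ∃ k : ℤ, ((k = 0 ∨ k = s.hR) ∧ mOk k m) ∧ kap k m ≤ PP m tm := by
    rcases le_total m (1 / 2) with h | h
    · refine ⟨s.hR, ⟨Or.inr rfl, ?_⟩, (bR.1 (cos_nonneg_of f8.le h)).1⟩
      unfold mOk
      rw [if_neg hk.hR.ne']
      exact h
    · refine ⟨0, ⟨Or.inl rfl, ?_⟩, (bR.2 (cos_nonpos_of h f9.le)).1⟩
      unfold mOk
      rw [if_pos rfl]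
      exact h
  obtain ⟨σ, hσ, hbet, hsg⟩ : ∃ σ : ℤ, ((σ = 1 ∨ σ = -1) ∧ xOk σ (u + m)) ∧
      ((kap 0 (u + m) ≤ PP (u + m) (tu + tm) ∧ PP (u + m) (tu + tm) ≤ kap s.hP (u + m)) ∨
      (kap s.hP (u + m) ≤ PP (u + m) (tu + tm) ∧ PP (u + m) (tu + tm) ≤ kap 0 (u + m))) ∧
      (∀ z ∈ [PP (u + m) (tu + tm), kap 0 (u + m), kap s.hP (u + m)], (σ : ℝ) * z ≤ 0) := by
    have hPp : (0 : ℝ) < s.hP := by exact_mod_cast hk.hP
    rcases le_total (1 / 2) (u + m) with h | h
    · have hcx := cos_nonpos_of h f7.le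
      have e0 : kap 0 (u + m) ≤ 0 := by
        rw [kap_zero]; exact div_nonpos_of_nonpos_of_nonneg hcx sx.le
      have eh : kap s.hP (u + m) ≤ 0 := by
        rw [kap_h hk.hP]
        exact div_nonpos_of_nonpos_of_nonneg (mul_nonpos_of_nonneg_of_nonpos sx.le hcx)
          (by positivity)
      obtain ⟨b1, b2⟩ := bP.2 hcx
      refine ⟨1, ⟨Or.inl rfl, ?_⟩, Or.inl ⟨b1, b2⟩, ?_⟩
      · unfold xOk; rw [if_pos rfl]; exact h
      · have b2' : PP (u + m) (tu + tm) ≤ kap s.hP (u + m) := b2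
        intro z hz
        simp only [List.mem_cons, List.not_mem_nil, or_false] at hz
        rcases hz with rfl | rfl | rfl <;> push_cast <;> linarith only [eh, b2', e0]
    · have hcx := cos_nonneg_of (by linarith only [f1, f3, f5] : 0 ≤ u + m) h
      have e0 : 0 ≤ kap 0 (u + m) := by rw [kap_zero]; positivity
      have eh : 0 ≤ kap s.hP (u + m) := by rw [kap_h hk.hP]; positivity
      obtain ⟨b1, b2⟩ := bP.1 hcx
      refine ⟨-1, ⟨Or.inr rfl, ?_⟩, Or.inr ⟨b1, b2⟩, ?_⟩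
      · unfold xOk; rw [if_neg (by norm_num)]; exact h
      · have b1' : kap s.hP (u + m) ≤ PP (u + m) (tu + tm) := b1
        intro z hz
        simp only [List.mem_cons, List.not_mem_nil, or_false] at hz
        rcases hz with rfl | rfl | rfl <;> push_cast <;> linarith only [eh, b1', e0]
  have F0 := facts_of hk hc hi hkm hσ (Or.inl rfl : (0 : ℤ) = 0 ∨ (0 : ℤ) = s.hP)
  have Fh := facts_of hk hc hi hkm hσ (Or.inr rfl : s.hP = 0 ∨ s.hP = s.hP)
  set P := PP (u + m) (tu + tm)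
  set Q := PP (m - v) (tm - tv)
  set R := PP m tm
  set Rk := kap k m
  set κ0 := kap 0 (u + m)
  set κh := kap s.hP (u + m)
  set wu := Real.sin (Real.pi * u)
  set wv := Real.sin (Real.pi * v)
  set w1 := Real.sin (Real.pi * ((s.vh : ℝ) / 10000))
  set yy := Real.sin (Real.pi * (m - v))
  set cc := Real.cos (Real.pi * (m - v))
  have hP0 : (σ : ℝ) * P ≤ 0 := hsg P (by simp)
  have hκ0 : (σ : ℝ) * κ0 ≤ 0 := hsg κ0 (by simp)
  have hκh : (σ : ℝ) * κh ≤ 0 := hsg κh (by simp)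
  -- affine in `P`
  have hRP : 0 < Rk - P := by
    have := aff_pos (α := Rk) (β := -1) (a := κ0) (b := κh) (P := P)
      (by linarith only [F0, F0.rp]) (by linarith only [Fh, Fh.rp]) hbet
    linarith only [this]
  have hF : 0 < cc * (kS s.hS v + wv * (Rk - P) + σ * (wu * P)) +
      yy * (kS s.hS v * (Rk - P)) := by
    have := aff_pos (α := cc * (kS s.hS v + wv * Rk) + yy * (kS s.hS v * Rk))
      (β := cc * (-wv + σ * wu) - yy * kS s.hS v) (a := κ0) (b := κh) (P := P)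
      (by refine F0.f.trans_eq ?_; ring) (by refine Fh.f.trans_eq ?_; ring) hbet
    refine this.trans_eq ?_
    ring
  have hw1 : wv ≤ w1 := by
    apply Real.sin_le_sin_of_le_of_le_pi_div_two
    · nlinarith only [f1, f2, f3, Real.pi_pos]
    · have a3 : (s.vh : ℝ) < 5000 := by exact_mod_cast hk.vh
      nlinarith only [a3, Real.pi_pos]
    · have := hi.v1
      have := Real.pi_pos
      gcongr
  have hE : 0 < 2 * kS s.hU u - wu * P + σ * (w1 * P) := by
    have := aff_pos (α := 2 * kS s.hU u) (β := -wu + σ * w1) (a := κ0) (b := κh) (P := P)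
      (by refine F0.e.trans_eq ?_; ring) (by refine Fh.e.trans_eq ?_; ring) hbet
    refine this.trans_eq ?_
    ring
  have mono : ∀ z : ℝ, (σ : ℝ) * z ≤ 0 → (σ : ℝ) * (w1 * z) ≤ σ * (wv * z) := by
    intro z hz
    nlinarith only [hw1, hz]
  have hY : 0 < 2 * kS s.hU u - wu * P + σ * (wv * P) := by
    linarith only [hE, mono, hP0, mono P hP0]
  -- the second form of the last determinant
  have form : ∀ κ : ℝ, (σ : ℝ) * κ ≤ 0 →
      0 < 2 * kS s.hU u - wu * κ + σ * (w1 * κ) →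
      (0 < 2 * kS s.hU u * (Rk - κ) - wu * κ * Rk ∨
        0 < yy * cc * (2 * kS s.hU u - wu * κ + σ * (wv * κ)) +
          (yy ^ 2 + (s.hC : ℝ) / 10000) * (2 * kS s.hU u * (Rk - κ) - wu * κ * Rk)) →
      0 < yy * cc * (2 * kS s.hU u - wu * κ + σ * (wv * κ)) +
          (yy ^ 2 + (s.hC : ℝ) / 10000) * (2 * kS s.hU u * (Rk - κ) - wu * κ * Rk) := by
    intro κ h1 h2 h3
    rcases h3 with h3 | h3
    · have h4 : 0 < 2 * kS s.hU u - wu * κ + σ * (wv * κ) := by linarith only [h2, mono, h1, mono κ h1]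
      have h5 : 0 ≤ yy * cc := mul_nonneg sy.le cy
      have h6 : 0 < yy ^ 2 + (s.hC : ℝ) / 10000 := by positivity
      have := mul_pos h6 h3
      have := mul_nonneg h5 h4.le
      linarith
    · exact h3
  have g0 := form κ0 hκ0 F0.e F0.g
  have gh := form κh hκh Fh.e Fh.g
  have hG : 0 < yy * cc * (2 * kS s.hU u - wu * P + σ * (wv * P)) +
      (yy ^ 2 + (s.hC : ℝ) / 10000) * (2 * kS s.hU u * (Rk - P) - wu * P * Rk) := by
    have := aff_pos (α := yy * cc * (2 * kS s.hU u) + (yy ^ 2 + (s.hC : ℝ) / 10000) *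
        (2 * kS s.hU u * Rk))
      (β := yy * cc * (-wu + σ * wv) + (yy ^ 2 + (s.hC : ℝ) / 10000) *
        (-(2 * kS s.hU u) - wu * Rk)) (a := κ0) (b := κh) (P := P)
      (by refine g0.trans_eq ?_; ring) (by refine gh.trans_eq ?_; ring) hbet
    refine this.trans_eq ?_
    ring
  have abs1 : |P * Q| = -((σ : ℝ) * (P * Q)) := by
    rcases hσ.1 with h | h
    · rw [h] at hP0 ⊢
      push_cast at hP0 ⊢
      rw [abs_of_nonpos (mul_nonpos_of_nonpos_of_nonneg (by linarith only [hP0]) hQ0)]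
      ring
    · rw [h] at hP0 ⊢
      push_cast at hP0 ⊢
      rw [abs_of_nonneg (mul_nonneg (by linarith only [hP0]) hQ0)]
      ring
  refine ⟨by linarith only [hQ0, hR, hRP], ?_, ?_⟩
  · exact algF (σ := σ) sv sy hQ0 hQ1 hR hS hSp hRP (by rw [abs1]; ring) hF
  · have hyy : 0 < yy ^ 2 + (s.hC : ℝ) / 10000 := by positivity
    refine algG (σ := σ) (q0 := kap s.hC (m - v)) su hQ0 q1' hR hU hRP (by rw [abs1]; ring)
      (by nlinarith only [sv, hP0]) hY (Or.inr ?_)
    rw [kap_h hk.hC]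
    refine pos_of_mul_pos_right (a := yy ^ 2 + (s.hC : ℝ) / 10000) ?_ hyy.le
    have e : (yy ^ 2 + (s.hC : ℝ) / 10000) * (yy * cc / (yy ^ 2 + (s.hC : ℝ) / 10000)) =
        yy * cc := by rw [mul_comm]; exact div_mul_cancel₀ _ hyy.ne'
    refine hG.trans_eq ?_
    linear_combination (-(2 * kS s.hU u - wu * P + σ * (wv * P))) * e

end M3

end Pool.Agent.Work.MP_b30479_gt.G2
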