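import Pool.Agent.Work.MP_b30479_gt.G2.M3U
import Pool.Agent.Work.MP_b30479_gt.G2.M3F
import Pool.Agent.Work.MP_b30479_gt.G2.Num.Link

/-!
# Interior 3-runs, level part: the level data of a pair of classes
-/

namespace Pool.Agent.Work.MP_b30479_gt.G2

open Set

namespace M3

open NumI (MM PP)

/-- the data `p` are covered by the data `s` of the determinants -/
structure Cov (p : Prm) (s : SPrm) : Prop where
  ul : s.ul ≤ p.ul
  uh : p.uh ≤ s.uh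
  vl : s.vl ≤ p.vl
  vh : p.vh ≤ s.vh
  l1 : 10 * s.l0 + s.lm * p.vl ≤ 10 * p.l0 + p.lm * p.vl
  l2 : 10 * s.l0 + s.lm * p.vh ≤ 10 * p.l0 + p.lm * p.vh
  m1 : p.m1 ≤ s.m1
  e : p.e ≤ s.e
  be : p.be = s.be
  ga : p.ga = s.ga
  p0 : -s.aP ≤ p.tul + p.tml
  p1 : p.tuh + p.tmh ≤ s.aP
  r0 : -s.aR ≤ p.tml
  r1 : p.tmh ≤ s.aR
  s0 : -s.aS ≤ p.tvl
  s1 : p.tvh ≤ s.aS
  u0 : -s.aU ≤ p.tul
  u1 : p.tuh ≤ s.aU
  c0 : -s.aC ≤ p.tcl
  c1 : p.tch ≤ s.aC
  /-- the lower end is below the upper end -/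
  lu0 : 10 * p.l0 + p.lm * p.vl + p.be * p.uh < 10 * p.e + p.ga * p.vl
  lu1 : 10 * p.l0 + p.lm * p.vh + p.be * p.uh < 10 * p.e + p.ga * p.vh
  lu2 : 10 * p.l0 + p.lm * p.vh < 10 * p.m1
  m0 : 10 * p.ml ≤ 10 * p.l0 + p.lm * p.vl

variable {p : Prm} {s : SPrm} {tu tv tm u v m : ℝ}

/-- an affine function which is nonnegative at the ends -/
theorem aff_nonneg {α β a b x : ℝ} (h0 : 0 ≤ α + β * a) (h1 : 0 ≤ α + β * b) (ha : a ≤ x)
    (hb : x ≤ b) : 0 ≤ α + β * x := by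
  rcases le_total 0 β with h | h
  · have := mul_le_mul_of_nonneg_left ha h
    linarith only [h0, this]
  · have := mul_le_mul_of_nonpos_left hb h
    linarith only [h1, this]

theorem Cov.hts (hc : Cov p s) (ht : Hts p tu tv tm) : HtS s tu tv tm := by
  have a1 : -(s.aP : ℝ) ≤ p.tul + p.tml := by exact_mod_cast hc.p0
  have a2 : (p.tuh : ℝ) + p.tmh ≤ s.aP := by exact_mod_cast hc.p1
  have a3 : -(s.aR : ℝ) ≤ p.tml := by exact_mod_cast hc.r0
  have a4 : (p.tmh : ℝ) ≤ s.aR := by exact_mod_cast hc.r1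
  have a5 : -(s.aS : ℝ) ≤ p.tvl := by exact_mod_cast hc.s0
  have a6 : (p.tvh : ℝ) ≤ s.aS := by exact_mod_cast hc.s1
  have a7 : -(s.aU : ℝ) ≤ p.tul := by exact_mod_cast hc.u0
  have a8 : (p.tuh : ℝ) ≤ s.aU := by exact_mod_cast hc.u1
  have a9 : -(s.aC : ℝ) ≤ p.tcl := by exact_mod_cast hc.c0
  have b1 : (p.tch : ℝ) ≤ s.aC := by exact_mod_cast hc.c1
  obtain ⟨c1, c2, c3, c4, c5, c6, c7, c8⟩ := ht
  refine ⟨abs_le.2 ⟨?_, ?_⟩, abs_le.2 ⟨?_, ?_⟩, abs_le.2 ⟨?_, ?_⟩, abs_le.2 ⟨?_, ?_⟩,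
    abs_le.2 ⟨?_, ?_⟩⟩ <;> linarith only [a1, c1, c5, a2, c2, c6, a3, a4, a5, c3, a6, c4, a7, a8, a9, c7, b1, c8]

theorem Cov.ins (hc : Cov p s)
    (hu0 : (p.ul : ℝ) / 10000 ≤ u) (hu1 : u ≤ (p.uh : ℝ) / 10000)
    (hv0 : (p.vl : ℝ) / 10000 ≤ v) (hv1 : v ≤ (p.vh : ℝ) / 10000)
    (hm0 : mL p v ≤ m) (hm1 : m ≤ mU p u v) : InS s u v m := by
  have a1 : (s.ul : ℝ) ≤ p.ul := by exact_mod_cast hc.ul
  have a2 : (p.uh : ℝ) ≤ s.uh := by exact_mod_cast hc.uh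
  have a3 : (s.vl : ℝ) ≤ p.vl := by exact_mod_cast hc.vl
  have a4 : (p.vh : ℝ) ≤ s.vh := by exact_mod_cast hc.vh
  have a5 : (10 : ℝ) * s.l0 + s.lm * p.vl ≤ 10 * p.l0 + p.lm * p.vl := by exact_mod_cast hc.l1
  have a6 : (10 : ℝ) * s.l0 + s.lm * p.vh ≤ 10 * p.l0 + p.lm * p.vh := by exact_mod_cast hc.l2
  have a7 : (p.m1 : ℝ) ≤ s.m1 := by exact_mod_cast hc.m1
  have a8 : (p.e : ℝ) ≤ s.e := by exact_mod_cast hc.e
  have a9 : (p.be : ℝ) = s.be := by exact_mod_cast hc.be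
  have b1 : (p.ga : ℝ) = s.ga := by exact_mod_cast hc.ga
  have b2 := aff_nonneg (α := ((p.l0 : ℝ) - s.l0) / 10000) (β := ((p.lm : ℝ) - s.lm) / 10)
    (a := (p.vl : ℝ) / 10000) (b := (p.vh : ℝ) / 10000) (x := v) (by linarith only [a5]) (by linarith only [a6])
    hv0 hv1
  unfold mL at hm0
  have b3 := hm1.trans (min_le_left _ _)
  have b4 := hm1.trans (min_le_right _ _)
  rw [a9, b1] at b4
  exact ⟨by linarith only [hu0, a1], by linarith only [hu1, a2], by linarith only [hv0, a3], by linarith only [hv1, a4], by linarith only [hm0, b2], by linarith only [a7, b3],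
    by linarith only [a8, b4]⟩

/-- **The level data of a pair of classes.** -/
theorem lvl {fl fh f g : Bool} (hk : Ok p) (hkU : OkU p) (hks : OkS s) (hc : Cov p s)
    (hL : okL p fl fh = true) (hU : okU p f = true)
    (hf : f = true → 10 * p.e - p.be * p.ul + p.ga * p.vh ≤ 10 * p.m1)
    (hS : okS s g = true) (ht : Hts p tu tv tm) :
    Lvl tu tv tm ((p.ul : ℝ) / 10000) ((p.uh : ℝ) / 10000) ((p.vl : ℝ) / 10000)
      ((p.vh : ℝ) / 10000) (fun _ v => mL p v) (mU p) := by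
  have a1 : (0 : ℝ) < p.ul := by exact_mod_cast hk.ul
  have a2 : (p.uh : ℝ) ≤ 5000 := by exact_mod_cast hkU.uu'
  have a3 : (500 : ℝ) ≤ p.vl := by exact_mod_cast hk.vl
  have a4 : (p.vh : ℝ) ≤ 5000 := by exact_mod_cast hk.vh'
  have a5 : (10 : ℝ) * p.vh < 10 * p.l0 + p.lm * p.vh := by exact_mod_cast hk.l3
  have a6 : (p.lm : ℝ) ≤ 10 := by exact_mod_cast hk.lm'
  have a7 : (10 : ℝ) * p.l0 + p.lm * p.vl + p.be * p.uh < 10 * p.e + p.ga * p.vl := by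
    exact_mod_cast hc.lu0
  have a8 : (10 : ℝ) * p.l0 + p.lm * p.vh + p.be * p.uh < 10 * p.e + p.ga * p.vh := by
    exact_mod_cast hc.lu1
  have a9 : (10 : ℝ) * p.l0 + p.lm * p.vh < 10 * p.m1 := by exact_mod_cast hc.lu2
  have b1 : (10 : ℝ) * p.ml ≤ 10 * p.l0 + p.lm * p.vl := by exact_mod_cast hc.m0
  have b2 : (0 : ℝ) ≤ p.be := by exact_mod_cast hkU.be
  have b3 : (0 : ℝ) < p.lm := by exact_mod_cast hk.lm
  have b4 : (p.m1 : ℝ) ≤ 7500 := by exact_mod_cast hkU.m1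
  have mono : ∀ u ∈ Icc ((p.ul : ℝ) / 10000) ((p.uh : ℝ) / 10000),
      ∀ v ∈ Icc ((p.vl : ℝ) / 10000) ((p.vh : ℝ) / 10000),
      v < mL p v ∧ mL p v < mU p u v ∧ u + mU p u v < 1 ∧ (p.ml : ℝ) / 10000 ≤ mL p v ∧
        mU p u v ≤ 3 / 4 := by
    intro u hu v hv
    have d1 := mul_le_mul_of_nonneg_left hv.2 (by linarith only [a6] : (0 : ℝ) ≤ 1 - (p.lm : ℝ) / 10)
    have d2 := mul_le_mul_of_nonneg_left hu.2 (by linarith only [b2] : (0 : ℝ) ≤ (p.be : ℝ) / 10)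
    have d3 := mul_le_mul_of_nonneg_left hv.1 (by linarith only [b3] : (0 : ℝ) ≤ (p.lm : ℝ) / 10)
    have d4 := mul_le_mul_of_nonneg_left hv.2 (by linarith only [b3] : (0 : ℝ) ≤ (p.lm : ℝ) / 10)
    have e1 : v < mL p v := by unfold mL; linarith only [a5, d1]
    have e2 : mL p v < mU p u v := by
      unfold mL mU
      refine lt_min (by linarith only [a9, d4]) ?_
      rcases le_total (p.lm : ℝ) p.ga with h | h
      · have := mul_le_mul_of_nonneg_left hv.1 (by linarith only [h] : (0 : ℝ) ≤ ((p.ga : ℝ) - p.lm) / 10)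
        linarith only [a7, d2, this]
      · have := mul_le_mul_of_nonneg_left hv.2 (by linarith only [h] : (0 : ℝ) ≤ ((p.lm : ℝ) - p.ga) / 10)
        linarith only [a8, d2, this]
    have e3 := (hc.ins hu.1 hu.2 hv.1 hv.2 e2.le le_rfl).facts hks
    exact ⟨e1, e2, e3.2.2.2.2.2.2.1, by unfold mL; linarith only [b1, d3],
      (min_le_left _ _).trans (by linarith only [b4])⟩
  have cc : ∀ z : ℂ, ∀ x t : ℝ, z = cx x t → CC z = Real.pi * PP x t := by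
    intro z x t hz
    rw [hz, Num.CC_PP, cx_re, cx_im]
  have hpi := Real.pi_pos
  refine ⟨by positivity, by linarith only [a2], by linarith only [a3], by linarith only [a4], ?_, ?_, ?_, ?_, ?_, ?_, ?_, ?_⟩
  · unfold mL
    exact continuous_const.add (continuous_const.mul continuous_snd)
  · unfold mU
    exact continuous_const.min ((continuous_const.sub (continuous_const.mul continuous_fst)).add
      (continuous_const.mul continuous_snd))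
  · intro u hu v hv
    obtain ⟨e1, e2, e3, -, -⟩ := mono u hu v hv
    exact ⟨e1, e2, e3⟩
  · intro u hu v hv
    obtain ⟨e1, e2, e3, e4, e5⟩ := mono u hu v hv
    exact Phi_pos hk hL ht hu.1 hu.2 hv.1 hv.2 e4 le_rfl
      (MM_pos' (by linarith only [e1]) (by linarith only [a3, e1, e2, e5, hv, hv.1, hu.1, div_pos a1 (by norm_num : (0 : ℝ) < 10000)]))
  · intro u hu v hv
    obtain ⟨e1, e2, e3, e4, e5⟩ := mono u hu v hv
    exact Phi_neg hkU hU hf ht hu.1 hu.2 hv.1 hv.2 le_rfl e5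
      (MM_pos' (by linarith only [a1, a3, e1, e2, e5, hv, hu, hv.1, hu.1, div_pos a1 (by norm_num : (0 : ℝ) < 10000)]) e3)
  · intro u hu v hv m hm hz
    obtain ⟨h1, -, -⟩ := dets hks hS (hc.ins hu.1 hu.2 hv.1 hv.2 hm.1 hm.2) (hc.hts ht)
    rw [cc _ _ _ rfl, cc _ _ _ rfl, cc _ _ _ rfl]
    have := mul_pos hpi h1
    linarith only [this]
  · intro u hu v hv m hm hz
    obtain ⟨-, h1, -⟩ := dets hks hS (hc.ins hu.1 hu.2 hv.1 hv.2 hm.1 hm.2) (hc.hts ht)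
    rw [cc _ _ _ rfl, cc _ _ _ rfl, cc _ _ _ rfl, cc _ _ _ rfl]
    have h2 : |Real.pi * PP (u + m) (tu + tm) * (Real.pi * PP (m - v) (tm - tv))| =
        Real.pi ^ 2 * |PP (u + m) (tu + tm) * PP (m - v) (tm - tv)| := by
      rw [show Real.pi * PP (u + m) (tu + tm) * (Real.pi * PP (m - v) (tm - tv)) =
        Real.pi ^ 2 * (PP (u + m) (tu + tm) * PP (m - v) (tm - tv)) by ring, abs_mul,
        abs_of_pos (pow_pos hpi 2)]
    rw [h2]
    refine (mul_pos (pow_pos hpi 2) h1).trans_eq ?_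
    ring
  · intro u hu v hv m hm hz
    obtain ⟨-, -, h1⟩ := dets hks hS (hc.ins hu.1 hu.2 hv.1 hv.2 hm.1 hm.2) (hc.hts ht)
    rw [cc _ _ _ rfl, cc _ _ _ rfl, cc _ _ _ rfl, cc _ _ _ rfl]
    have h2 : |Real.pi * PP (u + m) (tu + tm) * (Real.pi * PP (m - v) (tm - tv))| =
        Real.pi ^ 2 * |PP (u + m) (tu + tm) * PP (m - v) (tm - tv)| := by
      rw [show Real.pi * PP (u + m) (tu + tm) * (Real.pi * PP (m - v) (tm - tv)) =
        Real.pi ^ 2 * (PP (u + m) (tu + tm) * PP (m - v) (tm - tv)) by ring, abs_mul,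
        abs_of_pos (pow_pos hpi 2)]
    rw [h2]
    refine (mul_pos (pow_pos hpi 2) h1).trans_eq ?_
    ring

/-- **Location of the zeros of the inner derivative.** -/
theorem zero_mem {fl fh f : Bool} (hk : Ok p) (hkU : OkU p)
    (hL : okL p fl fh = true) (hU : okU p f = true)
    (hf : f = true → 10 * p.e - p.be * p.ul + p.ga * p.vh ≤ 10 * p.m1) (ht : Hts p tu tv tm)
    (hu0 : (p.ul : ℝ) / 10000 ≤ u) (hu1 : u ≤ (p.uh : ℝ) / 10000)
    (hv0 : (p.vl : ℝ) / 10000 ≤ v) (hv1 : v ≤ (p.vh : ℝ) / 10000)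
    (hm0 : (p.ml : ℝ) / 10000 ≤ m) (hm1 : m ≤ 3 / 4) (hM1 : 0 < MM (m - v) (tm - tv))
    (hM2 : 0 < MM (u + m) (tu + tm)) (hz : Phi tu tv tm u v m = 0) :
    m ∈ Icc (mL p v) (mU p u v) := by
  constructor
  · by_contra h
    exact (Phi_pos hk hL ht hu0 hu1 hv0 hv1 hm0 (not_le.1 h).le hM1).ne' hz
  · by_contra h
    exact (Phi_neg hkU hU hf ht hu0 hu1 hv0 hv1 (not_le.1 h).le hm1 hM2).ne hz

end M3

end Pool.Agent.Work.MP_b30479_gt.G2
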