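import Pool.Agent.Work.MP_b30479_gt.G2.ML3
import Pool.Agent.Work.NumI.Expr

/-!
# Interior 3-runs: the functions of the heights

`W x t = log |2 sin π(x + it)| + π t` is half the logarithm of a quadratic polynomial in
`e^{2πt}`; this gives the worst heights.
-/

namespace Pool.Agent.Work.MP_b30479_gt.G2

namespace M3

open NumI (lnA MM PP QQ)

theorem LL_cx (x t : ℝ) : LL (cx x t) = lnA x t := by
  rw [LL_eq]
  have h := norm_two_sin_sq (cx x t)
  rw [cx_re, cx_im] at h
  have h1 : 2 * Real.cosh (2 * Real.pi * t) - 2 * Real.cos (2 * Real.pi * x) =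
      4 * (Real.sin (Real.pi * x) ^ 2 + Real.sinh (Real.pi * t) ^ 2) := by
    rw [mul_assoc 2 Real.pi t, Real.cosh_two_mul, mul_assoc 2 Real.pi x, Real.cos_two_mul]
    have e1 := Real.sin_sq_add_cos_sq (Real.pi * x)
    have e2 := Real.cosh_sq (Real.pi * t)
    linarith only [e1, e2]
  unfold lnA
  rw [← h1, ← h, Real.log_pow]
  push_cast
  ring

/-- the quadratic polynomial -/
noncomputable def qd (x y : ℝ) : ℝ := y ^ 2 - 2 * Real.cos (2 * Real.pi * x) * y + 1

theorem qd_eq (x t : ℝ) : qd x (Real.exp (2 * Real.pi * t)) =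
    Real.exp (2 * Real.pi * t) * (4 * MM x t) := by
  unfold qd MM
  have e0 : Real.exp (2 * Real.pi * t) = Real.exp (Real.pi * t) ^ 2 := by
    rw [← Real.exp_nat_mul]; congr 1; push_cast; ring
  have e1 : Real.sinh (Real.pi * t) = (Real.exp (Real.pi * t) - (Real.exp (Real.pi * t))⁻¹) / 2 := by
    rw [Real.sinh_eq, Real.exp_neg]
  have e2 : Real.cos (2 * Real.pi * x) = 1 - 2 * Real.sin (Real.pi * x) ^ 2 := by
    rw [mul_assoc, Real.cos_two_mul]
    have := Real.sin_sq_add_cos_sq (Real.pi * x)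
    linarith only [this]
  have hp := Real.exp_pos (Real.pi * t)
  rw [e0, e1, e2]
  field_simp
  ring

theorem MM_nonneg (x t : ℝ) : 0 ≤ MM x t := by unfold MM; positivity

/-- `log |2 sin π(x + it)| + π t` -/
noncomputable def W (x t : ℝ) : ℝ := lnA x t + Real.pi * t

theorem W_eq {x t : ℝ} (h : 0 < MM x t) :
    W x t = Real.log (qd x (Real.exp (2 * Real.pi * t))) / 2 := by
  rw [qd_eq, Real.log_mul (Real.exp_pos _).ne' (by positivity), Real.log_exp]
  unfold W lnA MM
  ring

theorem qd_pos {x t : ℝ} (h : 0 < MM x t) : 0 < qd x (Real.exp (2 * Real.pi * t)) := by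
  rw [qd_eq]
  have := Real.exp_pos (2 * Real.pi * t)
  positivity

theorem exp_mono {s t : ℝ} (h : s ≤ t) :
    Real.exp (2 * Real.pi * s) ≤ Real.exp (2 * Real.pi * t) := by
  apply Real.exp_le_exp.2
  have := Real.pi_pos
  gcongr

/-- `W` increases with the height above the lowest point -/
theorem W_mono {x s t : ℝ} (hs : 0 < MM x s) (ht : 0 < MM x t) (hst : s ≤ t)
    (hx : Real.cos (2 * Real.pi * x) ≤ Real.exp (2 * Real.pi * s)) : W x s ≤ W x t := by
  rw [W_eq hs, W_eq ht]
  have h1 := exp_mono hst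
  have h2 : qd x (Real.exp (2 * Real.pi * s)) ≤ qd x (Real.exp (2 * Real.pi * t)) := by
    unfold qd
    nlinarith only [h1, hx, mul_nonneg (sub_nonneg.2 h1) (sub_nonneg.2 hx)]
  have := Real.log_le_log (qd_pos hs) h2
  linarith only [this]

/-- `W` is quasi-convex in the height: the maximum is at one of the ends, and there the point is
regular -/
theorem W_le {x s t r : ℝ} (h : 0 < MM x s) (h1 : t ≤ s) (h2 : s ≤ r) :
    (0 < MM x t ∧ W x s ≤ W x t) ∨ (0 < MM x r ∧ W x s ≤ W x r) := by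
  have e1 := exp_mono h1
  have e2 := exp_mono h2
  have hp := qd_pos h
  have key : qd x (Real.exp (2 * Real.pi * s)) ≤ qd x (Real.exp (2 * Real.pi * t)) ∨
      qd x (Real.exp (2 * Real.pi * s)) ≤ qd x (Real.exp (2 * Real.pi * r)) := by
    rcases le_total (Real.cos (2 * Real.pi * x)) (Real.exp (2 * Real.pi * s)) with hc | hc
    · right
      unfold qd
      nlinarith only [e2, hc, mul_nonneg (sub_nonneg.2 e2) (sub_nonneg.2 hc)]
    · left
      unfold qd
      nlinarith only [e1, hc, mul_nonneg (sub_nonneg.2 e1) (sub_nonneg.2 hc)]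
  have pos : ∀ r, 0 < qd x (Real.exp (2 * Real.pi * r)) → 0 < MM x r := by
    intro r hr
    rw [qd_eq] at hr
    rcases (MM_nonneg x r).lt_or_eq with h | h
    · exact h
    · rw [← h] at hr; simp at hr
  rcases key with hk | hk
  · left
    have h3 := pos t (hp.trans_le hk)
    refine ⟨h3, ?_⟩
    rw [W_eq h, W_eq h3]
    have := Real.log_le_log hp hk
    linarith only [this]
  · right
    have h3 := pos r (hp.trans_le hk)
    refine ⟨h3, ?_⟩
    rw [W_eq h, W_eq h3]
    have := Real.log_le_log hp hk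
    linarith only [this]

/-- a lower bound without the height -/
theorem W_ge {x t : ℝ} (h : 0 < Real.sin (Real.pi * (2 * x)) ^ 2) (hM : 0 < MM x t) :
    Real.log (Real.sin (Real.pi * (2 * x)) ^ 2) / 2 ≤ W x t := by
  rw [W_eq hM]
  have h2 : Real.sin (Real.pi * (2 * x)) ^ 2 ≤ qd x (Real.exp (2 * Real.pi * t)) := by
    unfold qd
    have e : 2 * Real.pi * x = Real.pi * (2 * x) := by ring
    rw [e]
    have := Real.sin_sq_add_cos_sq (Real.pi * (2 * x))
    nlinarith only [this, sq_nonneg (Real.exp (2 * Real.pi * t) - Real.cos (Real.pi * (2 * x)))]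
  have := Real.log_le_log h h2
  linarith only [this]

theorem lnA_neg (x t : ℝ) : lnA x (-t) = lnA x t := by
  unfold lnA
  rw [mul_neg, Real.sinh_neg, neg_sq]

theorem MM_neg (x t : ℝ) : MM x (-t) = MM x t := by
  unfold MM
  rw [mul_neg, Real.sinh_neg, neg_sq]

/-- with a small number inside the logarithm -/
noncomputable def lnE (ε x t : ℝ) : ℝ :=
  Real.log (4 * (Real.sin (Real.pi * x) ^ 2 + Real.sinh (Real.pi * t) ^ 2 + ε)) / 2

theorem lnA_le_lnE {ε x t : ℝ} (hε : 0 ≤ ε) (h : 0 < MM x t) : lnA x t ≤ lnE ε x t := by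
  unfold MM at h
  unfold lnA lnE
  have : Real.log (4 * (Real.sin (Real.pi * x) ^ 2 + Real.sinh (Real.pi * t) ^ 2)) ≤
      Real.log (4 * (Real.sin (Real.pi * x) ^ 2 + Real.sinh (Real.pi * t) ^ 2 + ε)) := by
    apply Real.log_le_log (by positivity)
    linarith only [hε]
  linarith only [this]

/-- the inner derivative in terms of `W` -/
theorem Phi_eq (tu tv tm u v m : ℝ) : Phi tu tv tm u v m =
    W (u + m) (tu + tm) - W (m - v) (-(tm - tv)) - (lnA m tm + 3 * Real.pi * tm) := by
  unfold Phi W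
  rw [LL_cx, LL_cx, LL_cx, lnA_neg]
  ring

theorem MM_pos' {x t : ℝ} (h0 : 0 < x) (h1 : x < 1) : 0 < MM x t :=
  NumI.MM_pos (Real.sin_pos_of_pos_of_lt_pi (mul_pos Real.pi_pos h0)
    (by nlinarith only [h1, Real.pi_pos]))

/-- the cosine on an interval symmetric about `1/2` -/
theorem cos_le {x y : ℝ} (h0 : 0 ≤ y) (h1 : y ≤ x) (h2 : x ≤ 1 - y) :
    Real.cos (2 * Real.pi * x) ≤ Real.cos (2 * Real.pi * y) := by
  have hpi := Real.pi_pos
  rcases le_total x (1 / 2) with h | h
  · exact Real.cos_le_cos_of_nonneg_of_le_pi (by positivity) (by nlinarith only [hpi, h]) (by nlinarith only [h1, hpi])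
  · have e : Real.cos (2 * Real.pi * x) = Real.cos (2 * Real.pi * (1 - x)) := by
      rw [show 2 * Real.pi * (1 - x) = 2 * Real.pi - 2 * Real.pi * x by ring,
        Real.cos_two_pi_sub]
    rw [e]
    exact Real.cos_le_cos_of_nonneg_of_le_pi (by positivity) (by nlinarith only [hpi, h]) (by nlinarith only [h2, hpi])

end M3

end Pool.Agent.Work.MP_b30479_gt.G2
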