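import Pool.Agent.Work.MP_b30479_gt.G2.M3N
import Pool.Agent.Work.MP_b30479_gt.G2.M3W

/-!
# Interior 3-runs, level part: sign of the inner derivative
-/

namespace Pool.Agent.Work.MP_b30479_gt.G2

namespace M3

open NumI (E V chk lnA MM)
open NumI.E hiding lnA lnB

/-! ### values -/

theorem val_T (n : ℤ) (xs : List ℝ) : (T n).val xs = (n : ℝ) / 10000 := by
  simp [T, E.val]

theorem val_f1 (x a : E) (xs : List ℝ) : (f1 x a).val xs = W (x.val xs) (a.val xs) := rfl

theorem val_f2 (x c : E) (xs : List ℝ) : (f2 x c).val xs = W (x.val xs) (-(c.val xs)) := by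
  show lnA _ _ - Real.pi * _ = lnA _ _ + Real.pi * _
  rw [lnA_neg]
  ring

theorem val_f3 (m t : E) (xs : List ℝ) : (f3 m t).val xs =
    lnA (m.val xs) (t.val xs) + 3 * Real.pi * t.val xs := by
  simp only [f3, E.val]
  push_cast
  ring

theorem val_f1z (x : E) (xs : List ℝ) : (f1z x).val xs =
    Real.log (Real.sin (Real.pi * (2 * x.val xs)) ^ 2) / 2 := by
  simp only [f1z, E.val]
  push_cast
  ring_nf

theorem le_f2e (x c : E) (xs : List ℝ) (h : 0 < MM (x.val xs) (c.val xs)) :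
    W (x.val xs) (-(c.val xs)) ≤ (f2e x c).val xs := by
  rw [← val_f2]
  have h1 := lnA_le_lnE (ε := 1 / 50) (by norm_num) h
  have h2 : (f2e x c).val xs = lnE (1 / 50) (x.val xs) (c.val xs) - Real.pi * c.val xs := by
    simp only [f2e, lnEE, E.val, lnE]
    push_cast
    ring_nf
  rw [h2]
  show lnA _ _ - Real.pi * _ ≤ _
  linarith only [h1]

/-! ### monotonicity in the real parts -/

theorem sin_ge_left {x y : ℝ} (h0 : 0 ≤ y) (h1 : y ≤ x) (h2 : x ≤ 1 - y) :
    Real.sin (Real.pi * y) ^ 2 ≤ Real.sin (Real.pi * x) ^ 2 := by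
  have h := cos_le h0 h1 h2
  rw [mul_assoc, Real.cos_two_mul, mul_assoc, Real.cos_two_mul] at h
  have e1 := Real.sin_sq_add_cos_sq (Real.pi * x)
  have e2 := Real.sin_sq_add_cos_sq (Real.pi * y)
  linarith only [h, e1, e2]

theorem sin_ge_right {x y : ℝ} (h0 : y ≤ 1) (h1 : x ≤ y) (h2 : 1 - y ≤ x) :
    Real.sin (Real.pi * y) ^ 2 ≤ Real.sin (Real.pi * x) ^ 2 := by
  have h := sin_ge_left (x := 1 - x) (y := 1 - y) (by linarith only [h0]) (by linarith only [h1]) (by linarith only [h2])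
  rw [show Real.pi * (1 - x) = Real.pi - Real.pi * x by ring,
    show Real.pi * (1 - y) = Real.pi - Real.pi * y by ring, Real.sin_pi_sub, Real.sin_pi_sub] at h
  exact h

/-- `1` in the middle -/
theorem sin_le_one {x y : ℝ} (h0 : 1 / 2 ≤ y) (h1 : y ≤ x) (h2 : x ≤ 2 - y) :
    Real.sin (Real.pi * x) ^ 2 ≤ Real.sin (Real.pi * y) ^ 2 := by
  rcases le_total x 1 with h | h
  · exact sin_ge_right h h1 (by linarith only [h0, h1])
  · have := sin_ge_right (x := y) (y := 2 - x) (by linarith only [h]) (by linarith only [h2]) (by linarith only [h0, h2])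
    rw [show Real.pi * (2 - x) = -(Real.pi * x - 2 * Real.pi) by ring, Real.sin_neg, neg_sq,
      Real.sin_sub_two_pi] at this
    exact this

theorem W_le_of_sin {x y t : ℝ} (h : Real.sin (Real.pi * x) ^ 2 ≤ Real.sin (Real.pi * y) ^ 2)
    (hM : 0 < MM x t) : W x t ≤ W y t := by
  unfold MM at hM
  unfold W lnA
  have := Real.log_le_log (by positivity : (0 : ℝ) <
    4 * (Real.sin (Real.pi * x) ^ 2 + Real.sinh (Real.pi * t) ^ 2))
    (by linarith only [h] : 4 * (Real.sin (Real.pi * x) ^ 2 + Real.sinh (Real.pi * t) ^ 2) ≤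
      4 * (Real.sin (Real.pi * y) ^ 2 + Real.sinh (Real.pi * t) ^ 2))
  linarith only [this]

theorem sin_two_pos {x : ℝ} (h0 : 0 < x) (h1 : x < 1) (h : x ≠ 1 / 2) :
    0 < Real.sin (Real.pi * (2 * x)) ^ 2 := by
  have hpi := Real.pi_pos
  apply pow_pos_of_ne
  rcases lt_or_gt_of_ne h with h | h
  · exact (Real.sin_pos_of_pos_of_lt_pi (by positivity) (by nlinarith only [hpi, h])).ne'
  · rw [show Real.pi * (2 * x) = Real.pi * (2 * x - 1) + Real.pi by ring, Real.sin_add_pi]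
    exact (neg_neg_of_pos (Real.sin_pos_of_pos_of_lt_pi (by nlinarith only [hpi, h]) (by nlinarith only [h1, hpi]))).ne
where
  pow_pos_of_ne {a : ℝ} (h : a ≠ 0) : 0 < a ^ 2 := by positivity

/-! ### the data -/

/-- relations between the data -/
structure Ok (p : Prm) : Prop where
  ul : 0 < p.ul
  uh : p.ul ≤ p.uh
  vl : 500 ≤ p.vl
  ml : 0 < p.ml
  vh : p.vl ≤ p.vh
  xl0 : 0 ≤ p.xl
  xl : p.xl < 5000
  lm : 0 < p.lm
  lm' : p.lm ≤ 10
  l1 : 10 * p.uh + 10 * p.l0 + p.lm * p.vh < 100000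
  l3 : 10 * p.vh < 10 * p.l0 + p.lm * p.vh
  l4 : 10 * p.l0 + p.lm * p.vl ≤ 50000 + 10 * p.vl
  vh' : p.vh ≤ 5000
  c0 : chk [sub (E.exp (mul (mul (q 2 1) E.pi) (T (p.tml + p.tul)))) (cosPi (mul (q 2 1) (T p.xl)))]
    1 [] = true

/-- the heights -/
structure Hts (p : Prm) (tu tv tm : ℝ) : Prop where
  tu0 : (p.tul : ℝ) / 10000 ≤ tu
  tu1 : tu ≤ (p.tuh : ℝ) / 10000
  tv0 : (p.tvl : ℝ) / 10000 ≤ tv
  tv1 : tv ≤ (p.tvh : ℝ) / 10000
  tm0 : (p.tml : ℝ) / 10000 ≤ tm
  tm1 : tm ≤ (p.tmh : ℝ) / 10000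
  c0 : (p.tcl : ℝ) / 10000 ≤ tm - tv
  c1 : tm - tv ≤ (p.tch : ℝ) / 10000

/-- the lower end of the range of the inner variable -/
noncomputable def mL (p : Prm) (v : ℝ) : ℝ := (p.l0 : ℝ) / 10000 + (p.lm : ℝ) / 10 * v

variable {p : Prm} {tu tv tm u v m : ℝ}

theorem Ok.cos_xl (h : Ok p) (ht : (p.tml : ℝ) / 10000 ≤ tm) {x : ℝ}
    (h0 : (p.xl : ℝ) / 10000 ≤ x) (h1 : x ≤ 1 - (p.xl : ℝ) / 10000) :
    Real.cos (2 * Real.pi * x) ≤ Real.exp (2 * Real.pi * (tm + (p.tul : ℝ) / 10000)) := by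
  have hx : (0 : ℝ) ≤ p.xl := by exact_mod_cast h.xl0
  have h2 := NumI.pos_of_chk (NumI.chk_sound h.c0 List.Forall₂.nil)
  simp only [E.val, val_T] at h2
  push_cast at h2
  have h3 := cos_le (by positivity) h0 h1
  have h4 : Real.exp (2 / 1 * Real.pi * (((p.tml : ℝ) + p.tul) / 10000)) ≤
      Real.exp (2 * Real.pi * (tm + (p.tul : ℝ) / 10000)) := by
    apply Real.exp_le_exp.2
    have := Real.pi_pos
    rw [show (2 : ℝ) / 1 = 2 by norm_num, add_div]
    gcongr
  have h5 : Real.cos (2 * Real.pi * ((p.xl : ℝ) / 10000)) =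
      Real.cos (Real.pi * (2 / 1 * ((p.xl : ℝ) / 10000))) := by
    congr 1; ring
  rw [h5] at h3
  linarith only [h2, h3, h4]

/-- one line of the table -/
theorem row_pos {y mm : E} {j c : ℕ} {fr : Bool} {a b : ℤ} {s : ℝ}
    (h : chk (rowL p y mm j c fr) 60 (boxL p a b) = true)
    (hs0 : (a : ℝ) / 10000 ≤ s) (hs1 : s ≤ (b : ℝ) / 10000)
    (ht0 : (p.tml : ℝ) / 10000 ≤ tm) (ht1 : tm ≤ (p.tmh : ℝ) / 10000)
    (hg : ∀ e ∈ gA p mm j, e.val [s, tm] ≤ 0)
    (hc : fr = true ∨ (cA p (var 1) c).val [s, tm] ≤ 0)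
    (hM : 0 < MM (y.val [s, tm]) ((cE p (var 1) c).val [s, tm])) :
    0 < (gE p mm (var 1) j).val [s, tm] -
      W (y.val [s, tm]) (-((cE p (var 1) c).val [s, tm])) -
      (lnA (mm.val [s, tm]) tm + 3 * Real.pi * tm) := by
  obtain ⟨e, he, hp⟩ := NumI.chk2 h (by norm_num) (x := s) (y := tm) (by push_cast; exact hs0)
    (by push_cast; exact hs1) (by push_cast; exact ht0) (by push_cast; exact ht1)
  simp only [rowL, List.mem_append, List.mem_cons, List.not_mem_nil, or_false] at he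
  have v1 : (var 1).val [s, tm] = tm := rfl
  have hsub : ∀ a b : E, (sub a b).val [s, tm] = a.val [s, tm] - b.val [s, tm] :=
    fun _ _ => rfl
  have hneg : ∀ a : E, (neg a).val [s, tm] = -(a.val [s, tm]) := fun _ => rfl
  rcases he with he | (he | he) | he
  · rw [he, hsub, hneg, hsub, val_f2, val_f3, v1] at hp
    linarith only [hp]
  · exact absurd hp (not_lt.2 (hg e he))
  · exfalso
    unfold cL at he
    rcases hc with hc | hc
    · subst hc
      simp at he
    · split_ifs at he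
      · simp at he
      · simp only [List.mem_cons, List.not_mem_nil, or_false] at he
        rw [he] at hp
        linarith only [hp, hc]
  · have h2 := le_f2e y (cE p (var 1) c) [s, tm] hM
    rw [he, hsub, hneg, hsub, val_f3, v1] at hp
    linarith only [hp, h2]

/-- the lines of one kind together -/
theorem rows_pos {y mm : E} {c : ℕ} {fr : Bool} {a b : ℤ} {s : ℝ} (hk : Ok p)
    (h : ∀ j < 4, chk (rowL p y mm j c fr) 60 (boxL p a b) = true)
    (hs0 : (a : ℝ) / 10000 ≤ s) (hs1 : s ≤ (b : ℝ) / 10000)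
    (ht0 : (p.tml : ℝ) / 10000 ≤ tm) (ht1 : tm ≤ (p.tmh : ℝ) / 10000)
    (hu0 : (p.ul : ℝ) / 10000 ≤ u) (hu1 : u ≤ (p.uh : ℝ) / 10000)
    (hmm : mm.val [s, tm] = m) (hm0 : 0 < m) (hm1 : (p.uh : ℝ) / 10000 + m < 1)
    (htu : (p.tul : ℝ) / 10000 ≤ tu)
    (hc : fr = true ∨ (cA p (var 1) c).val [s, tm] ≤ 0)
    (hM : 0 < MM (y.val [s, tm]) ((cE p (var 1) c).val [s, tm])) :
    0 < W (u + m) (tu + tm) - W (y.val [s, tm]) (-((cE p (var 1) c).val [s, tm])) -
      (lnA m tm + 3 * Real.pi * tm) := by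
  have a3 : (0 : ℝ) < p.ul := by exact_mod_cast hk.ul
  have a4 : (p.xl : ℝ) < 5000 := by exact_mod_cast hk.xl
  have a6 : (p.ul : ℝ) ≤ p.uh := by exact_mod_cast hk.uh
  have hul : 0 < (p.ul : ℝ) / 10000 := by positivity
  have r0 := row_pos (h 0 (by norm_num)) hs0 hs1 ht0 ht1
  have r1 := row_pos (h 1 (by norm_num)) hs0 hs1 ht0 ht1
  have r2 := row_pos (h 2 (by norm_num)) hs0 hs1 ht0 ht1
  have r3 := row_pos (h 3 (by norm_num)) hs0 hs1 ht0 ht1
  simp only [gA, List.mem_cons, List.not_mem_nil, or_false, forall_eq_or_imp, forall_eq] at r0 r1 r2 r3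
  simp only [E.val, val_T, hmm] at r0 r1 r2 r3
  push_cast at r0 r1 r2 r3
  have g0 : (gE p mm (var 1) 0).val [s, tm] =
      Real.log (Real.sin (Real.pi * (2 * ((p.ul : ℝ) / 10000 + m))) ^ 2) / 2 := by
    show (f1z (add (T p.ul) mm)).val [s, tm] = _
    rw [val_f1z]
    show Real.log (Real.sin (Real.pi * (2 * ((T p.ul).val _ + mm.val _))) ^ 2) / 2 = _
    rw [val_T, hmm]
  have g3 : (gE p mm (var 1) 3).val [s, tm] =
      Real.log (Real.sin (Real.pi * (2 * ((p.uh : ℝ) / 10000 + m))) ^ 2) / 2 := by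
    show (f1z (add (T p.uh) mm)).val [s, tm] = _
    rw [val_f1z]
    show Real.log (Real.sin (Real.pi * (2 * ((T p.uh).val _ + mm.val _))) ^ 2) / 2 = _
    rw [val_T, hmm]
  have g1 : (gE p mm (var 1) 1).val [s, tm] =
      W ((p.ul : ℝ) / 10000 + m) (tm + (p.tul : ℝ) / 10000) := by
    show (f1 (add (T p.ul) mm) (add (var 1) (T p.tul))).val [s, tm] = _
    rw [val_f1]
    show W ((T p.ul).val _ + mm.val _) (tm + (T p.tul).val _) = _
    rw [val_T, val_T, hmm]
  have g2 : (gE p mm (var 1) 2).val [s, tm] =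
      W ((p.uh : ℝ) / 10000 + m) (tm + (p.tul : ℝ) / 10000) := by
    show (f1 (add (T p.uh) mm) (add (var 1) (T p.tul))).val [s, tm] = _
    rw [val_f1]
    show W ((T p.uh).val _ + mm.val _) (tm + (T p.tul).val _) = _
    rw [val_T, val_T, hmm]
  rw [g0] at r0
  rw [g1] at r1
  rw [g2] at r2
  rw [g3] at r3
  rcases le_total (2 * m) (1 - (p.ul : ℝ) / 10000 - (p.uh : ℝ) / 10000) with hmc | hmc
  · set x := (p.ul : ℝ) / 10000 + m with hxd
    have hx0 : 0 < x := by positivity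
    have hx1 : x < 1 := by linarith only [hu0, hu1, hm0, a3, hmc, hxd]
    have hs : Real.sin (Real.pi * x) ^ 2 ≤ Real.sin (Real.pi * (u + m)) ^ 2 :=
      sin_ge_left hx0.le (by linarith only [hu0, hxd]) (by linarith only [hu1, hmc, hxd])
    have hW : W x (tu + tm) ≤ W (u + m) (tu + tm) := W_le_of_sin hs (MM_pos' hx0 hx1)
    rcases le_total m ((p.xl : ℝ) / 10000 - (p.ul : ℝ) / 10000) with hc1 | hc1
    · have := r0 (by linarith only [hc1]) hc hM
      have h5 := W_ge (t := tu + tm) (sin_two_pos hx0 hx1 (by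
        have : x < 1 / 2 := by linarith only [a4, hxd, hc1]
        exact this.ne)) (MM_pos' hx0 hx1)
      linarith only [hW, this, h5]
    · have := r1 ⟨by linarith only [hc1], by linarith only [hmc]⟩ hc hM
      have h5 : W x (tm + (p.tul : ℝ) / 10000) ≤ W x (tu + tm) :=
        W_mono (MM_pos' hx0 hx1) (MM_pos' hx0 hx1) (by linarith only [htu])
          (hk.cos_xl ht0 (by linarith only [hxd, hc1]) (by linarith only [hu0, hu1, a4, hmc, hxd]))
      linarith only [hW, this, h5]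
  · set x := (p.uh : ℝ) / 10000 + m with hxd
    have hx0 : 0 < x := by linarith only [hu0, hu1, hm0, a3, hxd]
    have hs : Real.sin (Real.pi * x) ^ 2 ≤ Real.sin (Real.pi * (u + m)) ^ 2 :=
      sin_ge_right hm1.le (by linarith only [hu1, hxd]) (by linarith only [hu0, hmc, hxd])
    have hW : W x (tu + tm) ≤ W (u + m) (tu + tm) := W_le_of_sin hs (MM_pos' hx0 hm1)
    rcases le_total m (1 - (p.xl : ℝ) / 10000 - (p.uh : ℝ) / 10000) with hc1 | hc1
    · have := r2 ⟨by linarith only [hmc], by linarith only [hc1]⟩ hc hM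
      have h5 : W x (tm + (p.tul : ℝ) / 10000) ≤ W x (tu + tm) :=
        W_mono (MM_pos' hx0 hm1) (MM_pos' hx0 hm1) (by linarith only [htu])
          (hk.cos_xl ht0 (by linarith only [hu0, hu1, a4, hmc, hxd]) (by linarith only [hxd, hc1]))
      linarith only [hW, this, h5]
    · have := r3 (by linarith only [hc1]) hc hM
      have h5 := W_ge (t := tu + tm) (sin_two_pos hx0 hm1 (by
        have : 1 / 2 < x := by linarith only [a4, hxd, hc1]
        exact this.ne')) (MM_pos' hx0 hm1)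
      linarith only [hW, this, h5]

/-- the value of the end `c` of the range of `tm - tv` -/
noncomputable def cv (p : Prm) (tm : ℝ) : ℕ → ℝ
  | 0 => tm - (p.tvh : ℝ) / 10000
  | 1 => (p.tcl : ℝ) / 10000
  | 2 => tm - (p.tvl : ℝ) / 10000
  | _ => (p.tch : ℝ) / 10000

/-- the end `c` is needed -/
def cN (p : Prm) (tm : ℝ) : ℕ → Prop
  | 0 => ((p.tcl : ℝ) + p.tvh) / 10000 ≤ tm
  | 1 => tm ≤ ((p.tcl : ℝ) + p.tvh) / 10000
  | 2 => tm ≤ ((p.tch : ℝ) + p.tvl) / 10000
  | _ => ((p.tch : ℝ) + p.tvl) / 10000 ≤ tm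

theorem val_cE (c : ℕ) (s tm : ℝ) : (cE p (var 1) c).val [s, tm] = cv p tm c := by
  unfold cE cv
  split <;> simp [E.val, val_T]

theorem val_cA {c : ℕ} (s : ℝ) (h : cN p tm c) : (cA p (var 1) c).val [s, tm] ≤ 0 := by
  unfold cN at h
  unfold cA
  split at h <;> simp only [E.val, val_T, NumI.lkR_one] <;> push_cast <;> linarith only [h]

/-- **Positivity**, for one end of the range of `tm - tv`. -/
theorem okL1_pos {c : ℕ} {fr : Bool} (hk : Ok p) (h : okL1 p c fr = true)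
    (hu0 : (p.ul : ℝ) / 10000 ≤ u) (hu1 : u ≤ (p.uh : ℝ) / 10000)
    (hv0 : (p.vl : ℝ) / 10000 ≤ v) (hv1 : v ≤ (p.vh : ℝ) / 10000)
    (hm0 : (p.ml : ℝ) / 10000 ≤ m) (ht0 : (p.tml : ℝ) / 10000 ≤ tm) (ht1 : tm ≤ (p.tmh : ℝ) / 10000)
    (hmL : m ≤ mL p v) (htu : (p.tul : ℝ) / 10000 ≤ tu) (hc : fr = true ∨ cN p tm c)
    (hM : 0 < MM (m - v) (cv p tm c)) :
    0 < W (u + m) (tu + tm) - W (m - v) (-(cv p tm c)) - (lnA m tm + 3 * Real.pi * tm) := by
  unfold okL1 at h
  rw [List.all_eq_true] at h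
  have hh : ∀ j < 4, okLa p c fr j = true ∧ okLb p c fr j = true ∧ okLc p c fr j = true := by
    intro j hj
    have := h j (List.mem_range.2 hj)
    simp only [Bool.and_eq_true] at this
    exact this
  have a1 : (10 : ℝ) * p.uh + 10 * p.l0 + p.lm * p.vh < 100000 := by exact_mod_cast hk.l1
  have a2 : (10 : ℝ) * p.vh < 10 * p.l0 + p.lm * p.vh := by exact_mod_cast hk.l3
  have a3 : (10 : ℝ) * p.l0 + p.lm * p.vl ≤ 50000 + 10 * p.vl := by exact_mod_cast hk.l4
  have a4 : (0 : ℝ) < p.lm := by exact_mod_cast hk.lm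
  have a5 : (p.lm : ℝ) ≤ 10 := by exact_mod_cast hk.lm'
  have a6 : (500 : ℝ) ≤ p.vl := by exact_mod_cast hk.vl
  have a8 : (0 : ℝ) < p.ml := by exact_mod_cast hk.ml
  have a7 : (p.vh : ℝ) ≤ 5000 := by exact_mod_cast hk.vh'
  unfold mL at hmL
  have b1 : (p.lm : ℝ) / 10 * v ≤ (p.lm : ℝ) / 10 * ((p.vh : ℝ) / 10000) := by gcongr
  have b3 : (p.uh : ℝ) / 10000 + m < 1 := by linarith only [hmL, a1, b1]
  have hm00 : 0 < m := by linarith only [hm0, a8]
  have hcc : ∀ s, fr = true ∨ (cA p (var 1) c).val [s, tm] ≤ 0 := fun s =>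
    hc.imp id fun h => val_cA s h
  rcases le_total m v with hmv | hmv
  · -- far end `vh`
    have hy : (sub (T p.vh) (var 0)).val [m, tm] = (p.vh : ℝ) / 10000 - m := by
      simp [E.val, val_T]
    have hs : Real.sin (Real.pi * (m - v)) ^ 2 ≤
        Real.sin (Real.pi * ((p.vh : ℝ) / 10000 - m)) ^ 2 := by
      rw [show Real.pi * (m - v) = -(Real.pi * (v - m)) by ring, Real.sin_neg, neg_sq]
      exact sin_ge_left (by linarith only [hmv]) (by linarith only [hv1]) (by linarith only [hv1, a7, hm00])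
    have hM' : 0 < MM ((p.vh : ℝ) / 10000 - m) (cv p tm c) := by
      unfold MM at hM ⊢
      linarith only [hM, hs]
    have := rows_pos (y := sub (T p.vh) (var 0)) (mm := var 0) (s := m) (u := u) (m := m)
      (tu := tu) hk (fun j hj => (hh j hj).1)
      (by push_cast; linarith only [hm0]) (by linarith only [hv1, hmv]) ht0 ht1 hu0 hu1 rfl hm00 b3 htu (hcc m)
      (by rw [hy, val_cE]; exact hM')
    rw [hy, val_cE] at this
    have h6 := W_le_of_sin (t := -(cv p tm c)) hs (by rw [MM_neg]; exact hM)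
    linarith only [this, h6]
  · rcases le_total m ((p.l0 : ℝ) / 10000 + (p.lm : ℝ) / 10 * ((p.vl : ℝ) / 10000)) with hml | hml
    · have hy : (sub (var 0) (T p.vl)).val [m, tm] = m - (p.vl : ℝ) / 10000 := by
        simp [E.val, val_T]
      have hs : Real.sin (Real.pi * (m - v)) ^ 2 ≤
          Real.sin (Real.pi * (m - (p.vl : ℝ) / 10000)) ^ 2 :=
        sin_ge_left (by linarith only [hmv]) (by linarith only [hv0]) (by linarith only [hv0, a3, hml])
      have hM' : 0 < MM (m - (p.vl : ℝ) / 10000) (cv p tm c) := by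
        unfold MM at hM ⊢
        linarith only [hM, hs]
      have hb : m ≤ (((10 * p.l0 + p.lm * p.vl) / 10 + 1 : ℤ) : ℝ) / 10000 := by
        have h6 : (10 * p.l0 + p.lm * p.vl : ℤ) < 10 * ((10 * p.l0 + p.lm * p.vl) / 10 + 1) := by
          omega
        have h7 : ((10 * p.l0 + p.lm * p.vl : ℤ) : ℝ) <
            ((10 * ((10 * p.l0 + p.lm * p.vl) / 10 + 1) : ℤ) : ℝ) := by
          exact_mod_cast h6
        push_cast at h7 ⊢
        linarith only [hml, h7]
      have := rows_pos (y := sub (var 0) (T p.vl)) (mm := var 0) (s := m) (u := u) (m := m)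
        (tu := tu) hk (fun j hj => (hh j hj).2.1)
        (by linarith only [hv0, hmv]) hb ht0 ht1 hu0 hu1 rfl hm00 b3 htu (hcc m)
        (by rw [hy, val_cE]; exact hM')
      rw [hy, val_cE] at this
      have h6 := W_le_of_sin (t := -(cv p tm c)) hs (by rw [MM_neg]; exact hM)
      linarith only [this, h6]
    · -- on the curve
      set v' := (m - (p.l0 : ℝ) / 10000) / ((p.lm : ℝ) / 10) with hv'
      have hlm : 0 < (p.lm : ℝ) / 10 := by positivity
      have e1 : (p.l0 : ℝ) / 10000 + (p.lm : ℝ) / 10 * v' = m := by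
        rw [hv']; field_simp; ring
      have c1 : (p.vl : ℝ) / 10000 ≤ v' := by
        rw [hv', le_div_iff₀ hlm]; linarith only [hml]
      have c2 : v' ≤ v := by
        rw [hv', div_le_iff₀ hlm]; linarith only [hmL]
      have hy : (sub (mLE p (var 0)) (var 0)).val [v', tm] = m - v' := by
        simp only [mLE, E.val, val_T, NumI.lkR_zero]
        push_cast
        linarith only [e1]
      have hmm : (mLE p (var 0)).val [v', tm] = m := by
        simp only [mLE, E.val, val_T, NumI.lkR_zero]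
        push_cast
        linarith only [e1]
      have hy2 : m - v' ≤ 1 / 2 := by
        have : (1 - (p.lm : ℝ) / 10) * ((p.vl : ℝ) / 10000) ≤ (1 - (p.lm : ℝ) / 10) * v' :=
          mul_le_mul_of_nonneg_left c1 (by linarith only [a5])
        nlinarith only [a3, e1, this]
      have hs : Real.sin (Real.pi * (m - v)) ^ 2 ≤ Real.sin (Real.pi * (m - v')) ^ 2 :=
        sin_ge_left (by linarith only [hmv]) (by linarith only [c2]) (by linarith only [c2, hy2])
      have hM' : 0 < MM (m - v') (cv p tm c) := by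
        unfold MM at hM ⊢
        linarith only [hM, hs]
      have := rows_pos (y := sub (mLE p (var 0)) (var 0)) (mm := mLE p (var 0)) (s := v')
        (u := u) (m := m) (tu := tu) hk (fun j hj => (hh j hj).2.2)
        c1 (by linarith only [hv1, c2]) ht0 ht1 hu0 hu1 hmm hm00 b3 htu (hcc v')
        (by rw [hy, val_cE]; exact hM')
      rw [hy, val_cE] at this
      have h6 := W_le_of_sin (t := -(cv p tm c)) hs (by rw [MM_neg]; exact hM)
      linarith only [this, h6]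

/-- **Positivity of the inner derivative to the left of the range.** -/
theorem Phi_pos {fl fh : Bool} (hk : Ok p) (h : okL p fl fh = true) (ht : Hts p tu tv tm)
    (hu0 : (p.ul : ℝ) / 10000 ≤ u) (hu1 : u ≤ (p.uh : ℝ) / 10000)
    (hv0 : (p.vl : ℝ) / 10000 ≤ v) (hv1 : v ≤ (p.vh : ℝ) / 10000)
    (hm0 : (p.ml : ℝ) / 10000 ≤ m) (hmL : m ≤ mL p v) (hM : 0 < MM (m - v) (tm - tv)) :
    0 < Phi tu tv tm u v m := by
  unfold okL at h
  simp only [Bool.and_eq_true, Bool.or_eq_true] at h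
  obtain ⟨⟨h0, h1⟩, h2, h3⟩ := h
  -- the two ends
  obtain ⟨cl, frl, hl1, hl2, hl3⟩ : ∃ c fr, okL1 p c fr = true ∧ (fr = true ∨ cN p tm c) ∧
      cv p tm c ≤ tm - tv := by
    rcases h1 with h1 | h1
    · exact ⟨0, fl, h0, Or.inl h1, by show tm - (p.tvh : ℝ) / 10000 ≤ _; linarith only [ht, ht.tv1]⟩
    · rcases le_total (((p.tcl : ℝ) + p.tvh) / 10000) tm with hc | hc
      · exact ⟨0, fl, h0, Or.inr hc, by show tm - (p.tvh : ℝ) / 10000 ≤ _; linarith only [ht, ht.tv1]⟩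
      · exact ⟨1, false, h1, Or.inr hc, ht.c0⟩
  obtain ⟨ch, frh, hh1, hh2, hh3⟩ : ∃ c fr, okL1 p c fr = true ∧ (fr = true ∨ cN p tm c) ∧
      tm - tv ≤ cv p tm c := by
    rcases h3 with h3 | h3
    · exact ⟨2, fh, h2, Or.inl h3, by show _ ≤ tm - (p.tvl : ℝ) / 10000; linarith only [ht, ht.tv0]⟩
    · rcases le_total tm (((p.tch : ℝ) + p.tvl) / 10000) with hc | hc
      · exact ⟨2, fh, h2, Or.inr hc, by show _ ≤ tm - (p.tvl : ℝ) / 10000; linarith only [ht, ht.tv0]⟩
      · exact ⟨3, false, h3, Or.inr hc, ht.c1⟩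
  rw [Phi_eq]
  have hM' : 0 < MM (m - v) (-(tm - tv)) := by rw [MM_neg]; exact hM
  rcases W_le hM' (neg_le_neg hh3) (neg_le_neg hl3) with ⟨r1, r2⟩ | ⟨r1, r2⟩
  · rw [MM_neg] at r1
    have := okL1_pos hk hh1 hu0 hu1 hv0 hv1 hm0 ht.tm0 ht.tm1 hmL ht.tu0 hh2 r1
    linarith only [r2, this]
  · rw [MM_neg] at r1
    have := okL1_pos hk hl1 hu0 hu1 hv0 hv1 hm0 ht.tm0 ht.tm1 hmL ht.tu0 hl2 r1
    linarith only [r2, this]

end M3

end Pool.Agent.Work.MP_b30479_gt.G2
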