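import Pool.Agent.Work.MP_b30479_gt.G2.M3N
import Pool.Agent.Work.MP_b30479_gt.VC.AbelPlana

/-!
# Interior 3-runs, level part: checks in pieces

The certificates of the determinants need much memory in one piece; here they are put together
from several kernel computations.
-/

namespace Pool.Agent.Work.MP_b30479_gt.G2

namespace M3

open NumI (E V chk tryE mkEnv best grad1 setL setR)
open NumI.E

/-- the left half of a box -/
def lft (es : List E) (vs : List V) : List V := setL (best vs (grad1 (mkEnv 0 vs) es) 0 0 0) vs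
/-- the right half of a box -/
def rgt (es : List E) (vs : List V) : List V := setR (best vs (grad1 (mkEnv 0 vs) es) 0 0 0) vs

theorem chk_node {es : List E} {n : ℕ} {vs : List V} (h1 : chk es n (lft es vs) = true)
    (h2 : chk es n (rgt es vs) = true) : chk es (n + 1) vs = true := by
  unfold chk
  unfold lft at h1
  unfold rgt at h2
  rw [h1, h2]
  cases tryE (mkEnv 0 vs) es <;> rfl

/-- the expressions of `okF` -/
def esF (p : SPrm) (h k s : ℤ) : List E :=
  eF p h k s (var 0) (var 1) (var 2) :: aX s (add (var 0) (var 2)) :: aM k (var 2) :: a3 p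
/-- the expressions of `okG` -/
def esG (p : SPrm) (h k s : ℤ) : List E :=
  eG p h k s (var 0) (var 1) (var 2) :: aX s (add (var 0) (var 2)) :: aM k (var 2) :: a3 p

/-- the checks in two variables -/
def okS2 (p : SPrm) (h : ℤ) (g : Bool) : Bool :=
  okR p h 0 && okR p h p.hR && (okE p h 1 && okE p h (-1)) && okG0 p h p.hR && (!g || okG0 p h 0)
/-- the checks of constants -/
def okS0 (p : SPrm) : Bool :=
  okH p.aP p.hP && (okH p.aR p.hR && (okH p.aS p.hS && (okH p.aU p.hU && okH p.aC p.hC)))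

theorem okS_intro {p : SPrm} {g : Bool} (c0 : okS0 p = true) (c1 : okS2 p 0 g = true)
    (c2 : okS2 p p.hP g = true)
    (f1 : okF p 0 0 1 = true) (f2 : okF p 0 0 (-1) = true)
    (f3 : okF p 0 p.hR 1 = true) (f4 : okF p 0 p.hR (-1) = true)
    (f5 : okF p p.hP 0 1 = true) (f6 : okF p p.hP 0 (-1) = true)
    (f7 : okF p p.hP p.hR 1 = true) (f8 : okF p p.hP p.hR (-1) = true)
    (g1 : g = false → okG p 0 0 1 = true) (g2 : g = false → okG p 0 0 (-1) = true)
    (g3 : g = false → okG p p.hP 0 1 = true) (g4 : g = false → okG p p.hP 0 (-1) = true) :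
    okS p g = true := by
  unfold okS2 at c1 c2
  unfold okS0 at c0
  simp only [Bool.and_eq_true] at c0 c1 c2
  obtain ⟨⟨⟨⟨r1, r2⟩, e1, e2⟩, q1⟩, w1⟩ := c1
  obtain ⟨⟨⟨⟨r3, r4⟩, e3, e4⟩, q2⟩, w2⟩ := c2
  obtain ⟨k1, k2, k3, k4, k5⟩ := c0
  unfold okS
  cases g with
  | false =>
    simp only [List.all_cons, List.all_nil, r1, r2, r3, r4, e1, e2, e3, e4, q1, q2, f1, f2, f3, f4,
      f5, f6, f7, f8, g1 rfl, g2 rfl, g3 rfl, g4 rfl, k1, k2, k3, k4, k5, Bool.and_true]
    rfl
  | true =>
    simp only [Bool.not_true, Bool.false_or] at w1 w2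
    simp only [List.all_cons, List.all_nil, r1, r2, r3, r4, e1, e2, e3, e4, q1, q2, f1, f2, f3, f4,
      f5, f6, f7, f8, w1, w2, k1, k2, k3, k4, k5, Bool.and_true]
    rfl

end M3

end Pool.Agent.Work.MP_b30479_gt.G2
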