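import Pool.Agent.Work.MP_b30479_gt.G2.M3Sp
import Pool.Agent.Work.MP_b30479_gt.G2.M3P

/-!
# Interior 3-runs, level part: certificates of the determinants, a part
-/

namespace Pool.Agent.Work.MP_b30479_gt.G2

namespace M3

open NumI (E V chk)

theorem cn1_FPRp_R :
    chk (esF sn1 sn1.hP sn1.hR 1) 59 (rgt (esF sn1 sn1.hP sn1.hR 1) (boxS3 sn1)) = true := by decide +kernel

theorem cn1_GP0p_R :
    chk (esG sn1 sn1.hP 0 1) 59 (rgt (esG sn1 sn1.hP 0 1) (boxS3 sn1)) = true := by decide +kernel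

theorem cn1_F00m :
    okF sn1 0 0 (-1) = true := by decide +kernel

end M3

end Pool.Agent.Work.MP_b30479_gt.G2
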