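import Pool.Agent.Work.MP_b30479_gt.G2.M3Sp
import Pool.Agent.Work.MP_b30479_gt.G2.M3P

/-!
# Interior 3-runs, level part: certificates of the determinants, a part
-/

namespace Pool.Agent.Work.MP_b30479_gt.G2

namespace M3

open NumI (E V chk)

theorem cnn_2b :
    okS2 snn snn.hP true = true := by decide +kernel

theorem cnn_F0Rp :
    okF snn 0 snn.hR 1 = true := by decide +kernel

theorem cnn_F00m :
    okF snn 0 0 (-1) = true := by decide +kernel

theorem cnn_FP0m :
    okF snn snn.hP 0 (-1) = true := by decide +kernel

theorem cnn_0 :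
    okS0 snn = true := by decide +kernel

end M3

end Pool.Agent.Work.MP_b30479_gt.G2
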