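import Pool.Agent.Work.MP_b30479_gt.G2.M3S

/-!
# Interior 3-runs, level part: the inner derivative is negative to the right of the range
-/

namespace Pool.Agent.Work.MP_b30479_gt.G2

namespace M3

open NumI (E V chk lnA MM)
open NumI.E hiding lnA lnB

/-- relations between the data, part 2 -/
structure OkU (p : Prm) : Prop where
  ul : 0 < p.ul
  uh : p.ul ≤ p.uh
  vl : 500 ≤ p.vl
  be : 0 ≤ p.be
  ga : 0 ≤ p.ga
  ga' : p.ga ≤ 10
  yl0 : 0 < p.yl
  y1 : p.yl ≤ p.m1 - p.vh
  y2 : 10 * p.yl ≤ 10 * p.e - p.be * p.uh + p.ga * p.vh - 10 * p.vh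
  y3 : p.yl ≤ 2500 + p.vl
  mb : 10 * p.mb ≤ 10 * p.e - p.be * p.uh + p.ga * p.vl
  mb' : p.mb ≤ p.m1
  m1 : p.m1 ≤ 7500
  u1 : 5000 ≤ p.ul + p.mb
  uu : p.ul ≤ 2500
  uu' : p.uh ≤ 5000
  u5 : 10 * p.uh + 10 * p.ul + 2 * (10 * p.e - p.be * p.ul + p.ga * p.vh) ≤ 200000
  u6 : 10 * p.uh + 10 * p.uh + 2 * (10 * p.e - p.be * p.uh + p.ga * p.vh) ≤ 200000
  c0 : chk [sub (E.exp (mul (mul (q 2 1) E.pi) (sub (T 0) (T (p.tmh - p.tvl)))))
      (cosPi (mul (q 2 1) (T p.yl))),
    sub (add (E.exp (mul (mul (q 2 1) E.pi) (sub (T 0) (T (p.tmh - p.tvl)))))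
      (E.exp (mul (mul (q 2 1) E.pi) (sub (T 0) (T p.tch)))))
      (mul (q 2 1) (cosPi (mul (q 2 1) (T p.yl))))] 1 [] = true

/-- the upper end of the range of the inner variable -/
noncomputable def mU (p : Prm) (u v : ℝ) : ℝ :=
  min ((p.m1 : ℝ) / 10000) ((p.e : ℝ) / 10000 - (p.be : ℝ) / 10 * u + (p.ga : ℝ) / 10 * v)

variable {p : Prm} {tu tv tm u v m : ℝ}

/-- `W` increases with the height if the two heights together are above the lowest point -/
theorem W_mono2 {x s t : ℝ} (hs : 0 < MM x s) (ht : 0 < MM x t) (hst : s ≤ t)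
    (hx : 2 * Real.cos (2 * Real.pi * x) ≤ Real.exp (2 * Real.pi * s) + Real.exp (2 * Real.pi * t)) :
    W x s ≤ W x t := by
  rw [W_eq hs, W_eq ht]
  have h1 := exp_mono hst
  have h2 : qd x (Real.exp (2 * Real.pi * s)) ≤ qd x (Real.exp (2 * Real.pi * t)) := by
    unfold qd
    nlinarith only [h1, hx, mul_nonneg (sub_nonneg.2 h1) (sub_nonneg.2 hx)]
  have := Real.log_le_log (qd_pos hs) h2
  linarith only [this]

theorem OkU.W_yl (h : OkU p) (ht : Hts p tu tv tm) {y : ℝ}
    (h0 : (p.yl : ℝ) / 10000 ≤ y) (h1 : y ≤ 1 - (p.yl : ℝ) / 10000) :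
    W y (-(tm - (p.tvl : ℝ) / 10000)) ≤ W y (-(tm - tv)) := by
  have hx : (0 : ℝ) < p.yl := by exact_mod_cast h.yl0
  have hx' : 0 < (p.yl : ℝ) / 10000 := by positivity
  have h3 := cos_le (by positivity) h0 h1
  have hle : -(tm - (p.tvl : ℝ) / 10000) ≤ -(tm - tv) := by linarith only [ht, ht.tv0]
  have h4 : Real.exp (2 / 1 * Real.pi * (0 / 10000 - (((p.tmh : ℝ) - p.tvl) / 10000))) ≤
      Real.exp (2 * Real.pi * (-(tm - (p.tvl : ℝ) / 10000))) := by
    apply Real.exp_le_exp.2
    have := Real.pi_pos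
    rw [show (2 : ℝ) / 1 = 2 by norm_num, sub_div, zero_div]
    apply mul_le_mul_of_nonneg_left _ (by positivity)
    linarith only [ht, ht.tm1]
  have h4' : Real.exp (2 / 1 * Real.pi * (0 / 10000 - ((p.tch : ℝ) / 10000))) ≤
      Real.exp (2 * Real.pi * (-(tm - tv))) := by
    apply Real.exp_le_exp.2
    have := Real.pi_pos
    rw [show (2 : ℝ) / 1 = 2 by norm_num, zero_div]
    apply mul_le_mul_of_nonneg_left _ (by positivity)
    linarith only [ht, ht.c1]
  have h5 : Real.cos (2 * Real.pi * ((p.yl : ℝ) / 10000)) =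
      Real.cos (Real.pi * (2 / 1 * ((p.yl : ℝ) / 10000))) := by
    congr 1; ring
  rw [h5] at h3
  have hm := exp_mono hle
  obtain ⟨e, he, h2⟩ := NumI.chk_sound h.c0 List.Forall₂.nil
  simp only [List.mem_cons, List.not_mem_nil, or_false] at he
  refine W_mono2 (MM_pos' (by linarith only [h0, hx]) (by linarith only [h1, hx])) (MM_pos' (by linarith only [h0, hx]) (by linarith only [h1, hx])) hle ?_
  rcases he with he | he
  · rw [he] at h2
    simp only [E.val, val_T] at h2
    push_cast at h2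
    linarith only [h3, h4, hm, h2]
  · rw [he] at h2
    simp only [E.val, val_T] at h2
    push_cast at h2
    linarith only [h3, h4, h4', h2]

/-- the conclusion from a check at the point `x` instead of `u + m` -/
theorem neg_of {x : ℝ} (hk : OkU p) (ht : Hts p tu tv tm)
    (hy0 : (p.yl : ℝ) / 10000 ≤ m - v) (hy1 : m - v ≤ 1 - (p.yl : ℝ) / 10000)
    (hx : Real.sin (Real.pi * (u + m)) ^ 2 ≤ Real.sin (Real.pi * x) ^ 2)
    (hM : 0 < MM (u + m) (tu + tm))
    (h : ∀ a ∈ [p.tul, p.tuh], 0 < W (m - v) (-(tm - (p.tvl : ℝ) / 10000)) +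
      (lnA m tm + 3 * Real.pi * tm) - W x (tm + (a : ℝ) / 10000)) :
    Phi tu tv tm u v m < 0 := by
  have hyl : (0 : ℝ) < p.yl := by exact_mod_cast hk.yl0
  have hyl' : 0 < (p.yl : ℝ) / 10000 := by positivity
  rw [Phi_eq]
  have h1 := W_le_of_sin hx hM
  have hMx : 0 < MM x (tu + tm) := by
    unfold MM at hM ⊢
    linarith only [hx, hM]
  have h2 : W (m - v) (-(tm - (p.tvl : ℝ) / 10000)) ≤ W (m - v) (-(tm - tv)) :=
    hk.W_yl ht hy0 hy1
  have h3 := h p.tul (by simp)
  have h4 := h p.tuh (by simp)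
  rcases W_le (t := tm + (p.tul : ℝ) / 10000) (r := tm + (p.tuh : ℝ) / 10000) hMx
    (by linarith only [ht, ht.tu0]) (by linarith only [ht, ht.tu1]) with ⟨-, h5⟩ | ⟨-, h5⟩ <;> linarith only [h1, h2, h3, h5, h4]

theorem val_eU (a : ℤ) (x y m' t : E) (xs : List ℝ) : (eU p a x y m' t).val xs =
    W (y.val xs) (-(t.val xs - (p.tvl : ℝ) / 10000)) +
      (lnA (m'.val xs) (t.val xs) + 3 * Real.pi * t.val xs) -
      W (x.val xs) (t.val xs + (a : ℝ) / 10000) := by
  unfold eU
  show (f2 y (sub t (T p.tvl))).val xs + (f3 m' t).val xs - (f1 x (add t (T a))).val xs = _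
  rw [val_f2, val_f3, val_f1]
  show W _ (-(t.val xs - (T p.tvl).val xs)) + _ - W _ (t.val xs + (T a).val xs) = _
  rw [val_T, val_T]

theorem val_lin (u v : E) (xs : List ℝ) : (lin p u v).val xs =
    (p.e : ℝ) / 10000 - (p.be : ℝ) / 10 * u.val xs + (p.ga : ℝ) / 10 * v.val xs := by
  simp [lin, E.val, val_T]

/-- **Negativity of the inner derivative to the right of the range.** -/
theorem Phi_neg {f : Bool} (hk : OkU p) (h : okU p f = true)
    (hf : f = true → 10 * p.e - p.be * p.ul + p.ga * p.vh ≤ 10 * p.m1) (ht : Hts p tu tv tm)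
    (hu0 : (p.ul : ℝ) / 10000 ≤ u) (hu1 : u ≤ (p.uh : ℝ) / 10000)
    (hv0 : (p.vl : ℝ) / 10000 ≤ v) (hv1 : v ≤ (p.vh : ℝ) / 10000)
    (hmU : mU p u v ≤ m) (hm1 : m ≤ 3 / 4) (hM : 0 < MM (u + m) (tu + tm)) :
    Phi tu tv tm u v m < 0 := by
  unfold okU at h
  rw [List.all_eq_true] at h
  have a1 : (0 : ℝ) < p.ul := by exact_mod_cast hk.ul
  have a2 : (p.ul : ℝ) ≤ p.uh := by exact_mod_cast hk.uh
  have a3 : (0 : ℝ) ≤ p.be := by exact_mod_cast hk.be
  have a4 : (0 : ℝ) ≤ p.ga := by exact_mod_cast hk.ga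
  have a5 : (p.ga : ℝ) ≤ 10 := by exact_mod_cast hk.ga'
  have a6 : (p.yl : ℝ) ≤ p.m1 - p.vh := by exact_mod_cast hk.y1
  have a7 : (10 : ℝ) * p.yl ≤ 10 * p.e - p.be * p.uh + p.ga * p.vh - 10 * p.vh := by
    exact_mod_cast hk.y2
  have a8 : (p.yl : ℝ) ≤ 2500 + p.vl := by exact_mod_cast hk.y3
  have a9 : (10 : ℝ) * p.mb ≤ 10 * p.e - p.be * p.uh + p.ga * p.vl := by exact_mod_cast hk.mb
  have b1 : (p.mb : ℝ) ≤ p.m1 := by exact_mod_cast hk.mb'
  have b2 : (p.m1 : ℝ) ≤ 7500 := by exact_mod_cast hk.m1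
  have b3 : (5000 : ℝ) ≤ p.ul + p.mb := by exact_mod_cast hk.u1
  have b4 : (p.ul : ℝ) ≤ 2500 := by exact_mod_cast hk.uu
  have b5 : (p.uh : ℝ) ≤ 5000 := by exact_mod_cast hk.uu'
  have b6 : (10 : ℝ) * p.uh + 10 * p.ul + 2 * (10 * p.e - p.be * p.ul + p.ga * p.vh) ≤ 200000 := by
    exact_mod_cast hk.u5
  have b7 : (10 : ℝ) * p.uh + 10 * p.uh + 2 * (10 * p.e - p.be * p.uh + p.ga * p.vh) ≤ 200000 := by
    exact_mod_cast hk.u6
  have hvg : (p.ga : ℝ) / 10 * v ≤ (p.ga : ℝ) / 10 * ((p.vh : ℝ) / 10000) := by gcongr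
  have hvg' : (p.ga : ℝ) / 10 * ((p.vl : ℝ) / 10000) ≤ (p.ga : ℝ) / 10 * v := by gcongr
  have hub : (p.be : ℝ) / 10 * u ≤ (p.be : ℝ) / 10 * ((p.uh : ℝ) / 10000) := by gcongr
  have hub' : (p.be : ℝ) / 10 * ((p.ul : ℝ) / 10000) ≤ (p.be : ℝ) / 10 * u := by gcongr
  -- ranges
  have hmb : (p.mb : ℝ) / 10000 ≤ m := by
    refine le_trans (le_min ?_ ?_) hmU
    · gcongr
    · linarith only [a9, hvg', hub]
  have hy0 : (p.yl : ℝ) / 10000 ≤ m - v := by
    have h1 : (p.yl : ℝ) / 10000 + v ≤ mU p u v := by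
      refine le_min ?_ ?_
      · linarith only [hv1, a6]
      · have h2 : (1 - (p.ga : ℝ) / 10) * v ≤ (1 - (p.ga : ℝ) / 10) * ((p.vh : ℝ) / 10000) :=
          mul_le_mul_of_nonneg_left hv1 (by linarith only [a5])
        nlinarith only [a7, hub, h2]
    linarith only [hmU, h1]
  have hy1 : m - v ≤ 1 - (p.yl : ℝ) / 10000 := by linarith only [hv0, hm1, a8]
  -- the check at `u = uh`
  have key4 : (2 : ℝ) < u + (p.ul : ℝ) / 10000 + 2 * m → Phi tu tv tm u v m < 0 := by
    intro hc
    refine neg_of (x := (p.uh : ℝ) / 10000 + m - 1) hk ht hy0 hy1 ?_ hM ?_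
    · rw [show Real.pi * (u + m) = Real.pi * (u + m - 1) + Real.pi by ring, Real.sin_add_pi,
        neg_sq]
      exact sin_ge_left (by linarith only [hm1, b4, hc]) (by linarith only [hu1]) (by linarith only [hu1, hm1, a9, b3, b4, b7, hvg, hvg'])
    · intro a ha
      have h1 := h a ha
      simp only [Bool.and_eq_true] at h1
      have h2 := h1.2.2.1
      have hb : (((20000 - p.ul - p.uh) / 2 : ℤ) : ℝ) / 10000 ≤ m := by
        have h6 : 2 * ((20000 - p.ul - p.uh) / 2) ≤ (20000 - p.ul - p.uh : ℤ) := by omega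
        have h7 : ((2 * ((20000 - p.ul - p.uh) / 2) : ℤ) : ℝ) ≤ ((20000 - p.ul - p.uh : ℤ) : ℝ) := by
          exact_mod_cast h6
        push_cast at h7 ⊢
        linarith only [hu1, hc, h7]
      have h3 := NumI.pos_of_chk (NumI.chk3 h2 (by norm_num) (x := v) (y := m) (z := tm)
        (by push_cast; exact hv0) (by push_cast; exact hv1) (by push_cast at hb ⊢; exact hb)
        (by push_cast; linarith only [hm1]) (by push_cast; exact ht.tm0) (by push_cast; exact ht.tm1))
      rw [val_eU] at h3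
      have e1 : (sub (add (T p.uh) (var 1)) (q 1 1)).val [v, m, tm] =
          (p.uh : ℝ) / 10000 + m - 1 := by
        simp [E.val, val_T]
      have e2 : (sub (var 1) (var 0)).val [v, m, tm] = m - v := rfl
      rw [e1, e2] at h3
      exact h3
  rcases lt_or_ge 2 (u + (p.ul : ℝ) / 10000 + 2 * m) with hc | hc
  · exact key4 hc
  -- the checks at `u = ul`
  have e2 : (sub (var 1) (var 0)).val [v, m, tm] = m - v := rfl
  have e3 : (add (T p.ul) (var 1)).val [v, m, tm] = (p.ul : ℝ) / 10000 + m := by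
    simp [E.val, val_T]
  have hsin : Real.sin (Real.pi * (u + m)) ^ 2 ≤
      Real.sin (Real.pi * ((p.ul : ℝ) / 10000 + m)) ^ 2 :=
    sin_le_one (by linarith only [b3, hmb]) (by linarith only [hu0]) (by linarith only [hc])
  rcases le_or_gt ((p.e : ℝ) / 10000 - (p.be : ℝ) / 10 * ((p.ul : ℝ) / 10000) +
      (p.ga : ℝ) / 10 * v) m with h1 | h1
  · refine neg_of hk ht hy0 hy1 hsin hM ?_
    intro a ha
    have h2 := h a ha
    simp only [Bool.and_eq_true] at h2
    obtain ⟨e, he, h3⟩ := NumI.chk3 h2.1 (by norm_num) (x := v) (y := m) (z := tm)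
      (by push_cast; exact hv0) (by push_cast; exact hv1) (by push_cast; exact hmb)
      (by push_cast; linarith only [hm1]) (by push_cast; exact ht.tm0) (by push_cast; exact ht.tm1)
    simp only [List.mem_cons, List.not_mem_nil, or_false] at he
    rcases he with he | he
    · rw [he, val_eU, e3, e2] at h3
      exact h3
    · exfalso
      rw [he] at h3
      have e4 : (sub (lin p (T p.ul) (var 0)) (var 1)).val [v, m, tm] =
          (p.e : ℝ) / 10000 - (p.be : ℝ) / 10 * ((p.ul : ℝ) / 10000) + (p.ga : ℝ) / 10 * v - m := by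
        show (lin p (T p.ul) (var 0)).val _ - m = _
        rw [val_lin, val_T]
        rfl
      rw [e4] at h3
      linarith only [h1, h3]
  · rcases le_or_gt ((p.m1 : ℝ) / 10000) m with h5 | h5
    · have hff : f = false := by
        rcases hfe : f with _ | _
        · rfl
        · exfalso
          have := hf hfe
          have h6 : (10 : ℝ) * p.e - p.be * p.ul + p.ga * p.vh ≤ 10 * p.m1 := by exact_mod_cast this
          linarith only [hvg, h1, h5, h6]
      refine neg_of hk ht hy0 hy1 hsin hM ?_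
      intro a ha
      have h2 := h a ha
      simp only [Bool.and_eq_true, Bool.or_eq_true, hff, Bool.false_eq_true, false_or] at h2
      have h3 := NumI.pos_of_chk (NumI.chk3 h2.2.2.2 (by norm_num) (x := v) (y := m) (z := tm)
        (by push_cast; exact hv0) (by push_cast; exact hv1) (by push_cast; exact h5)
        (by push_cast; linarith only [hm1]) (by push_cast; exact ht.tm0) (by push_cast; exact ht.tm1))
      rw [val_eU, e3, e2] at h3
      exact h3
    · -- on the curve
      have h6 : (p.e : ℝ) / 10000 - (p.be : ℝ) / 10 * u + (p.ga : ℝ) / 10 * v ≤ m := by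
        rcases min_le_iff.1 hmU with h7 | h7
        · exact absurd h7 (not_le.2 h5)
        · exact h7
      have hbe : 0 < (p.be : ℝ) / 10 := by
        rcases a3.lt_or_eq with h7 | h7
        · positivity
        · exfalso
          rw [← h7] at h6 h1
          linarith only [h1, h6]
      set u' := ((p.e : ℝ) / 10000 + (p.ga : ℝ) / 10 * v - m) / ((p.be : ℝ) / 10) with hu'
      have e5 : (p.be : ℝ) / 10 * u' = (p.e : ℝ) / 10000 + (p.ga : ℝ) / 10 * v - m := by
        rw [hu', mul_comm]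
        exact div_mul_cancel₀ _ hbe.ne'
      have c1 : (p.ul : ℝ) / 10000 ≤ u' := by
        rw [hu', le_div_iff₀ hbe]; linarith only [h1]
      have c2 : u' ≤ u := by
        rw [hu', div_le_iff₀ hbe]; linarith only [h6]
      have c3 : u + u' + 2 * m ≤ 2 := by
        have hw : m = (p.e : ℝ) / 10000 + (p.ga : ℝ) / 10 * v - (p.be : ℝ) / 10 * u' := by linarith only [e5]
        rcases le_total (p.be : ℝ) 5 with h7 | h7
        · have h8 : (1 - 2 * ((p.be : ℝ) / 10)) * u' ≤
              (1 - 2 * ((p.be : ℝ) / 10)) * ((p.uh : ℝ) / 10000) :=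
            mul_le_mul_of_nonneg_left (by linarith only [hu1, c2]) (by linarith only [h7])
          nlinarith only [hu1, b7, hvg, e5, h8]
        · have h8 : (2 * ((p.be : ℝ) / 10) - 1) * ((p.ul : ℝ) / 10000) ≤
              (2 * ((p.be : ℝ) / 10) - 1) * u' :=
            mul_le_mul_of_nonneg_left (by linarith only [c1]) (by linarith only [h7])
          nlinarith only [hu1, b6, hvg, e5, h8]
      refine neg_of (x := u' + m) hk ht hy0 hy1 (sin_le_one (by linarith only [b3, hmb, c1]) (by linarith only [c2])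
        (by linarith only [c3])) hM ?_
      intro a ha
      have h2 := h a ha
      simp only [Bool.and_eq_true] at h2
      obtain ⟨e, he, h3⟩ := NumI.chk3 h2.2.1 (by norm_num) (x := u') (y := v) (z := tm)
        (by push_cast; exact c1) (by push_cast; linarith only [hu1, c2]) (by push_cast; exact hv0)
        (by push_cast; exact hv1) (by push_cast; exact ht.tm0) (by push_cast; exact ht.tm1)
      have e6 : (lin p (var 0) (var 1)).val [u', v, tm] = m := by
        rw [val_lin]
        show (p.e : ℝ) / 10000 - (p.be : ℝ) / 10 * u' + (p.ga : ℝ) / 10 * v = m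
        linarith only [e5]
      simp only [List.mem_cons, List.not_mem_nil, or_false] at he
      rcases he with he | he
      · rw [he, val_eU] at h3
        have e7 : (add (var 0) (lin p (var 0) (var 1))).val [u', v, tm] = u' + m := by
          show u' + (lin p (var 0) (var 1)).val _ = _
          rw [e6]
        have e8 : (sub (lin p (var 0) (var 1)) (var 1)).val [u', v, tm] = m - v := by
          show (lin p (var 0) (var 1)).val _ - v = _
          rw [e6]
        rw [e6, e7, e8] at h3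
        exact h3
      · exfalso
        rw [he] at h3
        have e9 : (sub (lin p (var 0) (var 1)) (T p.m1)).val [u', v, tm] =
            m - (p.m1 : ℝ) / 10000 := by
          show (lin p (var 0) (var 1)).val _ - (T p.m1).val _ = _
          rw [e6, val_T]
        rw [e9] at h3
        linarith only [h5, h3]
end M3

end Pool.Agent.Work.MP_b30479_gt.G2
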