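import Pool.Agent.Work.MP_b30479_gt.G2.VDer
import Pool.Agent.Work.MP_b30479_gt.DT.PosSh
import Pool.Agent.Work.MP_b30479_gt.G2.CDefs

/-!
# Monotonicity of the derivatives of `UU`; twist regions with a ring variable

`DT.Tr s x` (`s > 0`) is increasing in `x`, increasing in `s` for `x ∈ [1/2, 1]`, decreasing in `s` for
`x ∈ [0, 1/2]` and `x ∈ [1, 3/2]`.  Consequences for the function `fR w ζ` of a twist region with a
ring variable `ζ` (number of crossings positive) and a hinge `w` with `Im w ≤ 0`: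

* `fR_reflect`: `fR w (σ + iη) ≤ fR w (-σ + iη)` for `0 ≤ σ`, `0 ≤ η`;
* `YY_hinge_nonpos`: the vertical derivative in `w` is `≤ 0` for `Re ζ ≤ 0`;
* `YY_ring_nonneg`, `LL_ring_nonneg`: the derivatives in `ζ` are `≥ 0` for `Re ζ ≤ 0`.
-/

namespace Pool.Agent.Work.MP_b30479_gt.G2

open Finset VOL Filter Topology

/-! ### the function `Tr` -/

theorem Tr_half {s : ℝ} (hs : 0 < s) : DT.Tr s (1 / 2) = Real.pi / 2 := by
  have h := DT.Tr_one_sub hs (1 / 2)
  norm_num at h ⊢
  linarith only [h]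

theorem Tr_add_one (s x : ℝ) : DT.Tr s (x + 1) = DT.Tr s x + Real.pi := by
  have e : Complex.exp (2 * Real.pi * Complex.I * (((x + 1 : ℝ) : ℂ) + s * Complex.I)) =
      Complex.exp (2 * Real.pi * Complex.I * ((x : ℂ) + s * Complex.I)) := by
    rw [show (2 * Real.pi * Complex.I * (((x + 1 : ℝ) : ℂ) + s * Complex.I)) =
      2 * Real.pi * Complex.I * ((x : ℂ) + s * Complex.I) + 2 * Real.pi * Complex.I by
        push_cast; ring, Complex.exp_add, Complex.exp_two_pi_mul_I, mul_one]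
  unfold DT.Tr
  rw [e]
  ring

theorem Tr_mono {s x y : ℝ} (hs : 0 < s) (h : x ≤ y) : DT.Tr s x ≤ DT.Tr s y :=
  (DT.Tr_strictMono hs).monotone h

theorem Tr_one {s : ℝ} (hs : 0 < s) : DT.Tr s 1 = Real.pi := by
  have := Tr_add_one s 0
  rw [zero_add, DT.Tr_zero hs, zero_add] at this
  exact this

/-- monotonicity in the height for `x ∈ [1/2, 1]` -/
theorem Tr_mono_left {s s' x : ℝ} (hs : 0 < s) (h : s ≤ s') (h0 : 1 / 2 ≤ x) (h1 : x ≤ 1) :
    DT.Tr s x ≤ DT.Tr s' x := by
  have hm : MonotoneOn (fun r => DT.Tr r x) (Set.Ioi 0) := by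
    apply monotoneOn_of_deriv_nonneg (convex_Ioi 0)
    · exact fun r hr => (DT.hasDerivAt_Tr_left (Set.mem_Ioi.mp hr)).continuousAt.continuousWithinAt
    · intro r hr
      rw [interior_Ioi] at hr
      exact (DT.hasDerivAt_Tr_left (Set.mem_Ioi.mp hr)).differentiableAt.differentiableWithinAt
    · intro r hr
      rw [interior_Ioi] at hr
      rw [(DT.hasDerivAt_Tr_left (Set.mem_Ioi.mp hr)).deriv]
      have hpi := Real.pi_pos
      have h2 : Real.sin (2 * Real.pi * x) ≤ 0 := by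
        have h3 : 0 ≤ Real.sin (2 * Real.pi * x - Real.pi) := by
          apply Real.sin_nonneg_of_nonneg_of_le_pi <;> nlinarith only [h0, hpi, h1]
        rw [Real.sin_sub_pi] at h3
        linarith only [h3]
      have h4 := DT.LrDer.cosh_gt_cos (v := x) (Set.mem_Ioi.mp hr)
      have h5 : DT.rr r x ≤ 0 := div_nonpos_of_nonpos_of_nonneg h2 (by linarith only [h4])
      nlinarith only [hpi, h5]
  exact hm (Set.mem_Ioi.mpr hs) (Set.mem_Ioi.mpr (hs.trans_le h)) h

/-- monotonicity in the height for `x ∈ [0, 1/2]` -/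
theorem Tr_anti_left {s s' x : ℝ} (hs : 0 < s) (h : s ≤ s') (h0 : 0 ≤ x) (h1 : x ≤ 1 / 2) :
    DT.Tr s' x ≤ DT.Tr s x := by
  have h2 := Tr_mono_left hs h (x := 1 - x) (by linarith only [h1]) (by linarith only [h0])
  rw [DT.Tr_one_sub hs, DT.Tr_one_sub (hs.trans_le h)] at h2
  linarith only [h2]

/-- monotonicity in the height for `x ∈ [1, 3/2]` -/
theorem Tr_anti_left' {s s' x : ℝ} (hs : 0 < s) (h : s ≤ s') (h0 : 1 ≤ x) (h1 : x ≤ 3 / 2) :
    DT.Tr s' x ≤ DT.Tr s x := by
  have h2 := Tr_anti_left hs h (x := x - 1) (by linarith only [h0]) (by linarith only [h1])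
  have h3 := Tr_add_one s (x - 1)
  have h4 := Tr_add_one s' (x - 1)
  rw [sub_add_cancel] at h3 h4
  linarith only [h2, h3, h4]

/-- lower bound for `x ∈ [0, 1/2]` -/
theorem pi_mul_le_Tr {s x : ℝ} (h0 : 0 ≤ x) (h1 : x ≤ 1 / 2) (hs : 0 < s) :
    Real.pi * x ≤ DT.Tr s x := by
  rw [DT.LrDer.Tr_eq]
  have hpi := Real.pi_pos
  have h2 : (Complex.log (1 - DT.LrDer.qq s x)).im ≤ 0 := by
    rw [Complex.log_im]
    have h3 : (1 - DT.LrDer.qq s x).im ≤ 0 := by
      rw [Complex.sub_im, Complex.one_im, DT.LrDer.qq_im]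
      have h4 : 0 ≤ Real.sin (2 * Real.pi * x) := by
        apply Real.sin_nonneg_of_nonneg_of_le_pi <;> nlinarith only [h0, hpi, h1]
      have := mul_nonneg (Real.exp_pos (-(2 * Real.pi * s))).le h4
      linarith only [this]
    rcases h3.lt_or_eq with h4 | h4
    · exact (Complex.arg_neg_iff.mpr h4).le
    · have h5 := (DT.LrDer.one_sub_qq_mem (x := x) hs)
      rcases h5 with h5 | h5
      · exact (Complex.arg_eq_zero_iff.mpr ⟨h5.le, h4⟩).le
      · exact absurd h4 h5
  linarith only [h2]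

theorem Tr_le_half {s x : ℝ} (hs : 0 < s) (h1 : x ≤ 1 / 2) : DT.Tr s x ≤ Real.pi / 2 := by
  rw [← Tr_half hs]
  exact Tr_mono hs h1

theorem half_le_Tr {s x : ℝ} (hs : 0 < s) (h1 : 1 / 2 ≤ x) : Real.pi / 2 ≤ DT.Tr s x := by
  rw [← Tr_half hs]
  exact Tr_mono hs h1

/-- upper bound for `x ∈ [1/2, 1]` -/
theorem Tr_le_pi_mul {s x : ℝ} (h0 : 1 / 2 ≤ x) (h1 : x ≤ 1) (hs : 0 < s) :
    DT.Tr s x ≤ Real.pi * x := by
  have h := pi_mul_le_Tr (x := 1 - x) (by linarith only [h1]) (by linarith only [h0]) hs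
  rw [DT.Tr_one_sub hs] at h
  linarith only [h]

/-- the key comparison: `A + B' = 1 + ...`; heights `s ≤ s'`, `x` or `1 - x` below `y` -/
theorem Tr_le_Tr {s s' x y : ℝ} (hs : 0 < s) (h : s ≤ s') (hx : x ≤ 1) (hxy : x ≤ y)
    (hy : 1 / 2 ≤ y) : DT.Tr s x ≤ DT.Tr s' y := by
  rcases le_total x (1 / 2) with h1 | h1
  · exact (Tr_le_half hs h1).trans (half_le_Tr (hs.trans_le h) hy)
  · exact (Tr_mono_left hs h h1 hx).trans (Tr_mono (hs.trans_le h) hxy)

/-! ### the vertical derivative `YY` -/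

theorem YY_pos {u : ℂ} (h : 0 < u.im) : YY u = DT.Tr u.im u.re - Real.pi / 2 := by
  unfold YY
  rw [if_pos h]

theorem YY_neg {u : ℂ} (h : u.im < 0) : YY u = Real.pi / 2 - DT.Tr (-u.im) u.re := by
  unfold YY
  rw [if_neg (not_lt.mpr h.le), if_pos h]
  ring

theorem YY_zero {u : ℂ} (h : u.im = 0) : YY u = 0 := by
  unfold YY
  rw [h]
  simp

theorem YY_conj (u : ℂ) : YY (starRingEnd ℂ u) = -YY u := by
  rcases lt_trichotomy u.im 0 with h | h | h
  · rw [YY_neg h, YY_pos (by simpa using h)]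
    simp
  · rw [YY_zero h, YY_zero (by simpa using h)]
    simp
  · rw [YY_pos h, YY_neg (by simpa using h)]
    simp

theorem LL_conj (u : ℂ) : LL (starRingEnd ℂ u) = LL u := by
  rw [LL_eq', LL_eq', Complex.conj_im, Complex.conj_re, mul_neg, Real.cosh_neg]

theorem YY_add_one (u : ℂ) : YY (u + 1) = YY u + if 0 < u.im then Real.pi else
    if u.im < 0 then -Real.pi else 0 := by
  rcases lt_trichotomy u.im 0 with h | h | h
  · rw [YY_neg h, YY_neg (by simpa using h), if_neg (not_lt.mpr h.le), if_pos h, Complex.add_re,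
      Complex.add_im, Complex.one_re, Complex.one_im, add_zero, Tr_add_one]
    ring
  · rw [YY_zero h, YY_zero (by simpa using h)]
    simp [h]
  · rw [YY_pos h, YY_pos (by simpa using h), if_pos h, Complex.add_re,
      Complex.add_im, Complex.one_re, Complex.one_im, add_zero, Tr_add_one]
    ring

/-! ### the function of a twist region with a ring variable -/

/-- the part of `V` of a ring next to the hinge `w` (without the quadratic part) -/
noncomputable def fR (w ζ : ℂ) : ℝ := UU (w + 1 / 2 + ζ) + UU (w + 1 / 2 - ζ) - 2 * UU w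

/-- vertical monotonicity of horizontal differences -/
theorem Lr_diff_mono {a b s s' : ℝ} (hab : b ≤ a) (h0 : 0 ≤ s) (h : s ≤ s') :
    DT.Lr s a - DT.Lr s b ≤ DT.Lr s' a - DT.Lr s' b := by
  have hm : MonotoneOn (fun r => DT.Lr r a - DT.Lr r b) (Set.Ici 0) := by
    apply monotoneOn_of_deriv_nonneg (convex_Ici 0)
    · exact ((DT.LrCont.continuous_Lr_left a).sub (DT.LrCont.continuous_Lr_left b)).continuousOn
    · intro r hr
      rw [interior_Ici] at hr
      exact ((DT.hasDerivAt_Lr_left (Set.mem_Ioi.mp hr)).sub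
        (DT.hasDerivAt_Lr_left (Set.mem_Ioi.mp hr))).differentiableAt.differentiableWithinAt
    · intro r hr
      rw [interior_Ici] at hr
      rw [((DT.hasDerivAt_Lr_left (Set.mem_Ioi.mp hr)).fun_sub
        (DT.hasDerivAt_Lr_left (Set.mem_Ioi.mp hr))).deriv]
      linarith only [hr, hab, Tr_mono (Set.mem_Ioi.mp hr) hab]
  exact hm (Set.mem_Ici.mpr h0) (Set.mem_Ici.mpr (h0.trans h)) h

theorem UU_exchange {u v : ℂ} {y y' : ℝ} (huv : v.re ≤ u.re) (h1 : u.im = y) (h2 : v.im = y')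
    (h : |y| ≤ |y'|) {u' v' : ℂ} (hu : u'.re = u.re) (hv : v'.re = v.re) (h3 : u'.im = y')
    (h4 : v'.im = y) : UU u + UU v ≤ UU u' + UU v' := by
  have key := Lr_diff_mono huv (abs_nonneg y) h
  unfold UU
  rw [hu, hv, h1, h2, h3, h4]
  linarith only [key]

/-- **Reflection.**  For a hinge with `Im w ≤ 0` the ring variable may be assumed to have real part
`≤ 0`. -/
theorem fR_reflect {w : ℂ} {σ η : ℝ} (hw : w.im ≤ 0) (hσ : 0 ≤ σ) (hη : 0 ≤ η) :
    fR w (σ + η * Complex.I) ≤ fR w (-σ + η * Complex.I) := by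
  unfold fR
  have h : |w.im + η| ≤ |w.im - η| := by
    rw [← sq_le_sq]
    nlinarith only [hw, hη, mul_nonneg_of_nonpos_of_nonpos hw (neg_nonpos.mpr hη)]
  have := UU_exchange (u := w + 1 / 2 + (σ + η * Complex.I)) (v := w + 1 / 2 - (σ + η * Complex.I))
    (u' := w + 1 / 2 - (-σ + η * Complex.I)) (v' := w + 1 / 2 + (-σ + η * Complex.I))
    (y := w.im + η) (y' := w.im - η) (by simp; linarith only [hσ]) (by simp) (by simp) h (by simp)
    (by simp; ring) (by simp) (by simp)
  linarith only [this]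

/-! ### signs of the derivatives -/

variable {x t σ η : ℝ}

/-- the vertical derivative of `fR` in the direction of the hinge -/
theorem YY_hinge_nonpos (hx0 : 0 ≤ x) (hx : x ≤ 1 / 2) (ht : t ≤ 0) (hσ : σ ≤ 0) (hσ' : -(1 / 2) ≤ σ)
    (hη : 0 ≤ η) {w ζ : ℂ} (hw : w = x + t * Complex.I) (hζ : ζ = σ + η * Complex.I) :
    YY (w + 1 / 2 + ζ) + YY (w + 1 / 2 - ζ) - 2 * YY w ≤ 0 := by
  have wi : w.im = t := by rw [hw]; simp
  have wr : w.re = x := by rw [hw]; simp
  have ui : (w + 1 / 2 + ζ).im = t + η := by rw [hw, hζ]; simp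
  have ur : (w + 1 / 2 + ζ).re = x + 1 / 2 + σ := by rw [hw, hζ]; simp
  have vi : (w + 1 / 2 - ζ).im = t - η := by rw [hw, hζ]; simp
  have vr : (w + 1 / 2 - ζ).re = x + 1 / 2 - σ := by rw [hw, hζ]; simp
  have h1 : 0 ≤ YY w := by
    rcases ht.lt_or_eq with h | h
    · rw [YY_neg (by rw [wi]; exact h), wi, wr]
      linarith only [h, hx, Tr_le_half (s := -t) (x := x) (by linarith only [h]) hx]
    · rw [YY_zero (by rw [wi]; exact h)]
  have h2 : YY (w + 1 / 2 + ζ) + YY (w + 1 / 2 - ζ) ≤ 0 := by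
    rcases eq_or_lt_of_le (show t - η ≤ 0 by linarith only [ht, hη]) with h | h
    · have h3 : t = 0 := by linarith only [hη, h, ht]
      have h4 : η = 0 := by linarith only [hη, ht, h]
      rw [YY_zero (by rw [ui]; linarith only [hη, h, ht]), YY_zero (by rw [vi]; linarith only [h, ht, hη])]
      simp
    · rw [YY_neg (u := w + 1 / 2 - ζ) (by rw [vi]; exact h), vi, vr]
      rcases lt_trichotomy (t + η) 0 with h3 | h3 | h3
      · rw [YY_neg (by rw [ui]; exact h3), ui, ur]
        have h4 := Tr_le_Tr (s := -(t + η)) (s' := -(t - η)) (x := 1 - (x + 1 / 2 + σ))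
          (y := x + 1 / 2 - σ) (by linarith only [h3]) (by linarith only [hη]) (by linarith only [hx0, hσ']) (by linarith only [hx0]) (by linarith only [hx0, hσ])
        rw [DT.Tr_one_sub (by linarith only [h3])] at h4
        linarith only [h4]
      · rw [YY_zero (by rw [ui]; exact h3)]
        linarith only [h, hx0, hσ, half_le_Tr (s := -(t - η)) (x := x + 1 / 2 - σ) (by linarith only [h]) (by linarith only [hx0, hσ])]
      · rw [YY_pos (by rw [ui]; exact h3), ui, ur]
        have h4 := Tr_le_Tr (s := t + η) (s' := -(t - η)) (x := x + 1 / 2 + σ)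
          (y := x + 1 / 2 - σ) (by linarith only [h3]) (by linarith only [ht]) (by linarith only [hx, hσ]) (by linarith only [hσ]) (by linarith only [hx0, hσ])
        linarith only [h4]
  linarith only [h1, h2]

/-- the vertical derivative of `fR` in the direction of the ring variable -/
theorem YY_ring_nonneg (hx0 : 0 ≤ x) (hx : x ≤ 1 / 2) (ht : t ≤ 0) (hσ : σ ≤ 0) (hσ' : -(1 / 2) ≤ σ)
    (hη : 0 ≤ η) {w ζ : ℂ} (hw : w = x + t * Complex.I) (hζ : ζ = σ + η * Complex.I) :
    0 ≤ YY (w + 1 / 2 + ζ) - YY (w + 1 / 2 - ζ) := by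
  have ui : (w + 1 / 2 + ζ).im = t + η := by rw [hw, hζ]; simp
  have ur : (w + 1 / 2 + ζ).re = x + 1 / 2 + σ := by rw [hw, hζ]; simp
  have vi : (w + 1 / 2 - ζ).im = t - η := by rw [hw, hζ]; simp
  have vr : (w + 1 / 2 - ζ).re = x + 1 / 2 - σ := by rw [hw, hζ]; simp
  rcases eq_or_lt_of_le (show t - η ≤ 0 by linarith only [ht, hη]) with h | h
  · have h3 : t = 0 := by linarith only [hη, h, ht]
    have h4 : η = 0 := by linarith only [hη, ht, h]
    rw [YY_zero (by rw [ui]; linarith only [hη, h, ht]), YY_zero (by rw [vi]; linarith only [h, ht, hη])]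
    simp
  · rw [YY_neg (u := w + 1 / 2 - ζ) (by rw [vi]; exact h), vi, vr]
    rcases lt_trichotomy (t + η) 0 with h3 | h3 | h3
    · rw [YY_neg (by rw [ui]; exact h3), ui, ur]
      have h4 := Tr_le_Tr (s := -(t + η)) (s' := -(t - η)) (x := x + 1 / 2 + σ)
        (y := x + 1 / 2 - σ) (by linarith only [h3]) (by linarith only [hη]) (by linarith only [hx, hσ]) (by linarith only [hσ]) (by linarith only [hx0, hσ])
      linarith only [h4]
    · rw [YY_zero (by rw [ui]; exact h3)]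
      linarith only [h, hx0, hσ, half_le_Tr (s := -(t - η)) (x := x + 1 / 2 - σ) (by linarith only [h]) (by linarith only [hx0, hσ])]
    · rw [YY_pos (by rw [ui]; exact h3), ui, ur]
      have h4 := Tr_le_Tr (s := t + η) (s' := -(t - η)) (x := 1 - (x + 1 / 2 + σ))
        (y := x + 1 / 2 - σ) (by linarith only [h3]) (by linarith only [ht]) (by linarith only [hx0, hσ']) (by linarith only [hx0]) (by linarith only [hx0, hσ])
      rw [DT.Tr_one_sub h3] at h4
      linarith only [h4]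

/-- the horizontal derivative of `fR` in the direction of the ring variable -/
theorem LL_ring_nonneg {w ζ : ℂ} (hw : w = x + t * Complex.I) (hζ : ζ = σ + η * Complex.I)
    (h0 : t - η ≠ 0) (h : Real.sinh (2 * Real.pi * t) * Real.sinh (2 * Real.pi * η) ≥
      Real.sin (2 * Real.pi * x) * Real.sin (2 * Real.pi * σ)) :
    0 ≤ LL (w + 1 / 2 + ζ) - LL (w + 1 / 2 - ζ) := by
  have ui : (w + 1 / 2 + ζ).im = t + η := by rw [hw, hζ]; simp
  have ur : (w + 1 / 2 + ζ).re = x + 1 / 2 + σ := by rw [hw, hζ]; simp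
  have vi : (w + 1 / 2 - ζ).im = t - η := by rw [hw, hζ]; simp
  have vr : (w + 1 / 2 - ζ).re = x + 1 / 2 - σ := by rw [hw, hζ]; simp
  rw [LL_eq', LL_eq', ui, ur, vi, vr]
  have e1 : Real.cos (2 * Real.pi * (x + 1 / 2 + σ)) =
      -(Real.cos (2 * Real.pi * x) * Real.cos (2 * Real.pi * σ) -
        Real.sin (2 * Real.pi * x) * Real.sin (2 * Real.pi * σ)) := by
    rw [show 2 * Real.pi * (x + 1 / 2 + σ) = 2 * Real.pi * x + 2 * Real.pi * σ + Real.pi by ring,
      Real.cos_add_pi, Real.cos_add]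
  have e2 : Real.cos (2 * Real.pi * (x + 1 / 2 - σ)) =
      -(Real.cos (2 * Real.pi * x) * Real.cos (2 * Real.pi * σ) +
        Real.sin (2 * Real.pi * x) * Real.sin (2 * Real.pi * σ)) := by
    rw [show 2 * Real.pi * (x + 1 / 2 - σ) = 2 * Real.pi * x - 2 * Real.pi * σ + Real.pi by ring,
      Real.cos_add_pi, Real.cos_sub]
  have e3 : Real.cosh (2 * Real.pi * (t + η)) = Real.cosh (2 * Real.pi * t) *
      Real.cosh (2 * Real.pi * η) + Real.sinh (2 * Real.pi * t) * Real.sinh (2 * Real.pi * η) := by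
    rw [mul_add, Real.cosh_add]
  have e4 : Real.cosh (2 * Real.pi * (t - η)) = Real.cosh (2 * Real.pi * t) *
      Real.cosh (2 * Real.pi * η) - Real.sinh (2 * Real.pi * t) * Real.sinh (2 * Real.pi * η) := by
    rw [mul_sub, Real.cosh_sub]
  have h1 : 1 < Real.cosh (2 * Real.pi * (t - η)) := by
    rw [Real.one_lt_cosh]
    exact mul_ne_zero (by positivity) h0
  have h2 := Real.cos_le_one (2 * Real.pi * (x + 1 / 2 - σ))
  rw [← sub_div]
  apply div_nonneg _ (by norm_num)
  rw [sub_nonneg]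
  apply Real.log_le_log
  · linarith only [h1, h2]
  · rw [e1, e2, e3, e4]
    linarith only [h]

end Pool.Agent.Work.MP_b30479_gt.G2
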