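import Pool.Agent.Work.MP_b30479_gt.G2.RLevS
import Pool.Agent.Work.MP_b30479_gt.G2.RMon
import Pool.Agent.Work.MP_b30479_gt.LT.H.AlgH

/-!
# Mirrored hinges at rings

`fR (conj w) ζ - fR w ζ`: the own terms cancel.  For `Re ζ ≤ 0` the mirror image in the lower half
plane is better (`flip_nonneg`), and the gain is less than `2π |Im w|` as long as `|Re ζ| < 1/2`
(`flip_lt`).  No condition on `Re w`.
-/

namespace Pool.Agent.Work.MP_b30479_gt.G2

open Finset VOL Filter Topology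

/-- strict version of `Lr_diff_mono` -/
theorem Lr_diff_strict {a b s s' : ℝ} (hab : b < a) (h0 : 0 ≤ s) (h : s < s') :
    DT.Lr s a - DT.Lr s b < DT.Lr s' a - DT.Lr s' b := by
  have hm : StrictMonoOn (fun r => DT.Lr r a - DT.Lr r b) (Set.Ici 0) := by
    apply strictMonoOn_of_deriv_pos (convex_Ici 0)
    · exact ((DT.LrCont.continuous_Lr_left a).sub (DT.LrCont.continuous_Lr_left b)).continuousOn
    · intro r hr
      rw [interior_Ici] at hr
      rw [((DT.hasDerivAt_Lr_left (Set.mem_Ioi.mp hr)).fun_sub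
        (DT.hasDerivAt_Lr_left (Set.mem_Ioi.mp hr))).deriv]
      linarith only [hr, hab, DT.Tr_strictMono (Set.mem_Ioi.mp hr) hab]
  exact hm (Set.mem_Ici.mpr h0) (Set.mem_Ici.mpr (h0.trans h.le)) h

/-- the difference of the values at the two mirror images -/
theorem fR_flip {x T σ η : ℝ} (hT : 0 ≤ T) (hη : 0 ≤ η) :
    fR ⟨x, -T⟩ ⟨σ, η⟩ - fR ⟨x, T⟩ ⟨σ, η⟩ =
      (DT.Lr (η + T) (x + 1 / 2 - σ) - DT.Lr (η + T) (x + 1 / 2 + σ)) -
        (DT.Lr |η - T| (x + 1 / 2 - σ) - DT.Lr |η - T| (x + 1 / 2 + σ)) := by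
  unfold fR UU
  simp only [Complex.add_re, Complex.add_im, Complex.sub_re, Complex.sub_im]
  have e1 : ((1 / 2 : ℂ)).re = 1 / 2 := by norm_num
  have e2 : ((1 / 2 : ℂ)).im = 0 := by norm_num
  rw [e1, e2]
  have a1 : |-T + 0 + η| = |η - T| := by
    congr 1
    ring
  have a2 : |-T + 0 - η| = η + T := by
    rw [abs_of_nonpos (by linarith only [hT, hη])]
    ring
  have a3 : |T + 0 + η| = η + T := by
    rw [abs_of_nonneg (by linarith only [hT, hη])]
    ring
  have a4 : |T + 0 - η| = |η - T| := by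
    rw [← abs_neg]
    congr 1
    ring
  have a5 : |-T| = |T| := abs_neg T
  rw [a1, a2, a3, a4, a5]
  ring

/-- for `σ ≤ 0` the mirror image with the negative height is better -/
theorem flip_nonneg {x T σ η : ℝ} (hT : 0 ≤ T) (hη : 0 ≤ η) (hσ : σ ≤ 0) :
    fR ⟨x, T⟩ ⟨σ, η⟩ ≤ fR ⟨x, -T⟩ ⟨σ, η⟩ := by
  have h := fR_flip (x := x) (σ := σ) hT hη
  have h1 : |η - T| ≤ η + T := by
    rw [abs_le]
    constructor <;> linarith only [hη, hT]
  have h2 := Lr_diff_mono (a := x + 1 / 2 - σ) (b := x + 1 / 2 + σ) (by linarith only [hσ])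
    (abs_nonneg (η - T)) h1
  linarith only [h, h2]

/-- the gain is at most `2π min(T, η)` -/
theorem flip_le {x T σ η : ℝ} (hT : 0 ≤ T) (hη : 0 ≤ η) (hσ : -(1 / 2) ≤ σ) :
    fR ⟨x, -T⟩ ⟨σ, η⟩ - fR ⟨x, T⟩ ⟨σ, η⟩ ≤ Real.pi * (η + T - |η - T|) := by
  have h := fR_flip (x := x) (σ := σ) hT hη
  have h1 : |η - T| ≤ η + T := by
    rw [abs_le]
    constructor <;> linarith only [hη, hT]
  have h2 := Lr_diff_mono (a := x + 1 / 2 + σ + 1) (b := x + 1 / 2 - σ) (by linarith only [hσ])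
    (abs_nonneg (η - T)) h1
  rw [DT.Lr_add_one (abs_nonneg _), DT.Lr_add_one (by linarith only [hT, hη])] at h2
  linarith only [h, h2]

/-- **The gain is less than `2πT`.** -/
theorem flip_lt {x T σ η : ℝ} (hT : 0 < T) (hη : 0 ≤ η) (hσ : -(1 / 2) < σ) :
    fR ⟨x, -T⟩ ⟨σ, η⟩ - fR ⟨x, T⟩ ⟨σ, η⟩ < 2 * Real.pi * T := by
  have hpi := Real.pi_pos
  have h := fR_flip (x := x) (σ := σ) hT.le hη
  have h1 : |η - T| ≤ η + T := by
    rw [abs_le]
    constructor <;> linarith only [hη, hT]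
  rcases h1.lt_or_eq with h3 | h3
  · have h2 := Lr_diff_strict (a := x + 1 / 2 + σ + 1) (b := x + 1 / 2 - σ) (by linarith only [hσ])
      (abs_nonneg (η - T)) h3
    rw [DT.Lr_add_one (abs_nonneg _), DT.Lr_add_one (by linarith only [hT, hη])] at h2
    have h4 : η - T ≤ |η - T| := le_abs_self _
    nlinarith only [h, h2, hpi, h4]
  · rw [h3] at h
    rw [h]
    have : 0 < 2 * Real.pi * T := by positivity
    linarith only [this]

/-- reflection of the ring variable and the hinge -/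
theorem fR_mirror (x T σ η : ℝ) : fR ⟨x, -T⟩ ⟨σ, η⟩ = fR ⟨x, T⟩ ⟨-σ, η⟩ := by
  unfold fR UU
  simp only [Complex.add_re, Complex.add_im, Complex.sub_re, Complex.sub_im]
  have e1 : ((1 / 2 : ℂ)).re = 1 / 2 := by norm_num
  have e2 : ((1 / 2 : ℂ)).im = 0 := by norm_num
  rw [e1, e2]
  have a1 : |-T + 0 + η| = |T + 0 - η| := by
    rw [← abs_neg]
    congr 1
    ring
  have a2 : |-T + 0 - η| = |T + 0 + η| := by
    rw [← abs_neg]
    congr 1
    ring
  rw [a1, a2, abs_neg, sub_neg_eq_add, ← sub_eq_add_neg]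
  ring

/-- **A mirrored hinge between two rings of opposite signs**: `T` is the height of the hinge on the
main path in the frame of the first ring; the mirrored state is worse even with the bonus `2π |T|`. -/
theorem unflip_rr {x T σ η σ' η' : ℝ} (hT : T ≠ 0) (hη : 0 ≤ η) (hη' : 0 ≤ η') (hσ : σ ≤ 0)
    (hσ1 : -(1 / 2) < σ) (hσ' : σ' ≤ 0) (hσ1' : -(1 / 2) < σ') :
    fR ⟨x, -T⟩ ⟨σ, η⟩ + fR ⟨x, T⟩ ⟨σ', η'⟩ - 2 * Real.pi * |T| <
      fR ⟨x, T⟩ ⟨σ, η⟩ + fR ⟨x, -T⟩ ⟨σ', η'⟩ := by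
  rcases lt_or_gt_of_ne hT with h | h
  · have h1 := flip_lt (x := x) (T := -T) (by linarith only [h]) hη' hσ1'
    have h2 := flip_nonneg (x := x) (T := -T) (by linarith only [h]) hη hσ
    rw [neg_neg] at h1 h2
    rw [abs_of_neg h]
    linarith only [h1, h2]
  · have h1 := flip_lt (x := x) h hη hσ1
    have h2 := flip_nonneg (x := x) h.le hη' hσ'
    rw [abs_of_pos h]
    linarith only [h1, h2]

end Pool.Agent.Work.MP_b30479_gt.G2
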