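import Pool.Agent.Work.MP_b30479_gt.G2.RngA

/-!
# Tails at rings: monotonicity in a real ring variable

* `pair_anti`, `pair_mono`: `s ↦ UU (w + 1/2 + s) + UU (w + 1/2 - s)` on `[0, 1/2]`;
* `fR_real_le_zero`: `fR w s ≤ fR w 0` for `0 ≤ Re w ≤ 1/2`;
* `fR_tail_nonpos`: `fR x s ≤ 0` for real `x ∈ [1/2, 1]`.
-/

namespace Pool.Agent.Work.MP_b30479_gt.G2

open Finset VOL Filter Topology

/-- the pair of factors with a real ring variable -/
noncomputable def pr2 (x y s : ℝ) : ℝ := UU ⟨x + 1 / 2 + s, y⟩ + UU ⟨x + 1 / 2 - s, y⟩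

theorem hasDerivAt_UU_hor {x y : ℝ} (hy : y ≠ 0) (e s : ℝ) :
    HasDerivAt (fun s : ℝ => UU ⟨x + e * s, y⟩) (e * LL ⟨x + e * s, y⟩) s := by
  have hg : HasDerivAt (fun s : ℝ => (⟨x + e * s, y⟩ : ℂ)) (e : ℂ) s := by
    have h1 : HasDerivAt (fun s : ℝ => ((⟨x, y⟩ : ℂ) + (e : ℂ) * (s : ℂ))) ((e : ℂ) * 1) s :=
      ((Complex.ofRealCLM.hasDerivAt (x := s)).const_mul (e : ℂ)).const_add _
    rw [mul_one] at h1
    refine h1.congr_of_eventuallyEq (Eventually.of_forall fun r => ?_)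
    apply Complex.ext <;> simp
  have h2 := hasDerivAt_UU_im hg (by exact hy)
  refine h2.congr_deriv ?_
  simp

theorem hasDerivAt_pr2 {x y : ℝ} (hy : y ≠ 0) (s : ℝ) :
    HasDerivAt (pr2 x y) (LL ⟨x + 1 / 2 + s, y⟩ - LL ⟨x + 1 / 2 - s, y⟩) s := by
  have h1 := hasDerivAt_UU_hor (x := x + 1 / 2) hy 1 s
  have h2 := hasDerivAt_UU_hor (x := x + 1 / 2) hy (-1) s
  have h3 := h1.add h2
  have e1 : (fun s : ℝ => UU ⟨x + 1 / 2 + 1 * s, y⟩ + UU ⟨x + 1 / 2 + -1 * s, y⟩) = pr2 x y := by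
    funext r
    unfold pr2
    rw [one_mul, show x + 1 / 2 + -1 * r = x + 1 / 2 - r by ring]
  have e2 : 1 * LL ⟨x + 1 / 2 + 1 * s, y⟩ + -1 * LL ⟨x + 1 / 2 + -1 * s, y⟩ =
      LL ⟨x + 1 / 2 + s, y⟩ - LL ⟨x + 1 / 2 - s, y⟩ := by
    rw [one_mul, show x + 1 / 2 + -1 * s = x + 1 / 2 - s by ring]
    ring
  rw [← e1, ← e2]
  exact h3

/-- comparison of the two derivatives -/
theorem LL_pair {x y s : ℝ} (hy : y ≠ 0) (h : 0 ≤ Real.sin (2 * Real.pi * x) * Real.sin (2 * Real.pi * s)) :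
    LL ⟨x + 1 / 2 + s, y⟩ ≤ LL ⟨x + 1 / 2 - s, y⟩ := by
  rw [LL_eq', LL_eq']
  simp only
  have e1 : Real.cos (2 * Real.pi * (x + 1 / 2 + s)) =
      -(Real.cos (2 * Real.pi * x) * Real.cos (2 * Real.pi * s) -
        Real.sin (2 * Real.pi * x) * Real.sin (2 * Real.pi * s)) := by
    rw [show 2 * Real.pi * (x + 1 / 2 + s) = 2 * Real.pi * x + 2 * Real.pi * s + Real.pi by ring,
      Real.cos_add_pi, Real.cos_add]
  have e2 : Real.cos (2 * Real.pi * (x + 1 / 2 - s)) =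
      -(Real.cos (2 * Real.pi * x) * Real.cos (2 * Real.pi * s) +
        Real.sin (2 * Real.pi * x) * Real.sin (2 * Real.pi * s)) := by
    rw [show 2 * Real.pi * (x + 1 / 2 - s) = 2 * Real.pi * x - 2 * Real.pi * s + Real.pi by ring,
      Real.cos_add_pi, Real.cos_sub]
  have h1 : 1 < Real.cosh (2 * Real.pi * y) := by
    rw [Real.one_lt_cosh]
    exact mul_ne_zero (by positivity) hy
  have h2 := Real.cos_le_one (2 * Real.pi * (x + 1 / 2 + s))
  have h3 : Real.log (2 * Real.cosh (2 * Real.pi * y) - 2 * Real.cos (2 * Real.pi * (x + 1 / 2 + s))) ≤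
      Real.log (2 * Real.cosh (2 * Real.pi * y) - 2 * Real.cos (2 * Real.pi * (x + 1 / 2 - s))) := by
    apply Real.log_le_log
    · linarith only [h1, h2]
    · rw [e1, e2]
      linarith only [h]
  linarith only [h3]

theorem LL_pair' {x y s : ℝ} (hy : y ≠ 0) (h : Real.sin (2 * Real.pi * x) * Real.sin (2 * Real.pi * s) ≤ 0) :
    LL ⟨x + 1 / 2 - s, y⟩ ≤ LL ⟨x + 1 / 2 + s, y⟩ := by
  have h1 := LL_pair (x := x) (s := -s) hy (by
    rw [mul_neg, Real.sin_neg, mul_neg]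
    linarith only [h])
  rw [sub_neg_eq_add, ← sub_eq_add_neg] at h1
  exact h1

theorem sin_two_pi_nonneg {x : ℝ} (h0 : 0 ≤ x) (h1 : x ≤ 1 / 2) : 0 ≤ Real.sin (2 * Real.pi * x) := by
  have hpi := Real.pi_pos
  apply Real.sin_nonneg_of_nonneg_of_le_pi <;> nlinarith only [h0, hpi, h1]

theorem sin_two_pi_nonpos {x : ℝ} (h0 : 1 / 2 ≤ x) (h1 : x ≤ 1) : Real.sin (2 * Real.pi * x) ≤ 0 := by
  have h := sin_two_pi_nonneg (x := x - 1 / 2) (by linarith only [h0]) (by linarith only [h1])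
  rw [show 2 * Real.pi * (x - 1 / 2) = 2 * Real.pi * x - Real.pi by ring, Real.sin_sub_pi] at h
  linarith only [h]

theorem continuous_pr2_y (x s : ℝ) : Continuous fun y => pr2 x y s := by
  have h1 : ∀ a : ℝ, Continuous fun y : ℝ => (⟨a, y⟩ : ℂ) := by
    intro a
    have : (fun y : ℝ => (⟨a, y⟩ : ℂ)) = fun y : ℝ => (a : ℂ) + (y : ℂ) * Complex.I := by
      funext y
      apply Complex.ext <;> simp
    rw [this]
    fun_prop
  unfold pr2
  exact (continuous_UU.comp (h1 _)).add (continuous_UU.comp (h1 _))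

theorem le_of_ne_zero {f g : ℝ → ℝ} (hf : Continuous f) (hg : Continuous g)
    (h : ∀ y, y ≠ 0 → f y ≤ g y) (y : ℝ) : f y ≤ g y := by
  by_cases hy : y = 0
  · subst hy
    have h1 : Tendsto f (𝓝[≠] 0) (𝓝 (f 0)) := hf.continuousAt.tendsto.mono_left nhdsWithin_le_nhds
    have h2 : Tendsto g (𝓝[≠] 0) (𝓝 (g 0)) := hg.continuousAt.tendsto.mono_left nhdsWithin_le_nhds
    exact le_of_tendsto_of_tendsto h1 h2 (eventually_nhdsWithin_of_forall fun y hy => h y hy)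
  · exact h y hy

/-- for `x ∈ [0, 1/2]` the pair is antitone in `s ∈ [0, 1/2]` -/
theorem pair_anti {x s s' : ℝ} (y : ℝ) (h0 : 0 ≤ x) (h1 : x ≤ 1 / 2) (hs : 0 ≤ s) (hss : s ≤ s')
    (hs' : s' ≤ 1 / 2) : pr2 x y s' ≤ pr2 x y s := by
  refine le_of_ne_zero (continuous_pr2_y x s') (continuous_pr2_y x s) (fun y hy => ?_) y
  have hm : AntitoneOn (pr2 x y) (Set.Icc 0 (1 / 2)) := by
    apply antitoneOn_of_deriv_nonpos (convex_Icc _ _)
    · exact fun r _ => (hasDerivAt_pr2 hy r).continuousAt.continuousWithinAt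
    · exact fun r _ => (hasDerivAt_pr2 hy r).differentiableAt.differentiableWithinAt
    · intro r hr
      rw [interior_Icc] at hr
      rw [(hasDerivAt_pr2 hy r).deriv]
      have := LL_pair (x := x) (s := r) hy
        (mul_nonneg (sin_two_pi_nonneg h0 h1) (sin_two_pi_nonneg hr.1.le hr.2.le))
      linarith only [this]
  exact hm ⟨hs, by linarith only [hss, hs']⟩ ⟨by linarith only [hs, hss], hs'⟩ hss

/-- for `x ∈ [1/2, 1]` the pair is monotone in `s ∈ [0, 1/2]` -/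
theorem pair_mono {x s s' : ℝ} (y : ℝ) (h0 : 1 / 2 ≤ x) (h1 : x ≤ 1) (hs : 0 ≤ s) (hss : s ≤ s')
    (hs' : s' ≤ 1 / 2) : pr2 x y s ≤ pr2 x y s' := by
  refine le_of_ne_zero (continuous_pr2_y x s) (continuous_pr2_y x s') (fun y hy => ?_) y
  have hm : MonotoneOn (pr2 x y) (Set.Icc 0 (1 / 2)) := by
    apply monotoneOn_of_deriv_nonneg (convex_Icc _ _)
    · exact fun r _ => (hasDerivAt_pr2 hy r).continuousAt.continuousWithinAt
    · exact fun r _ => (hasDerivAt_pr2 hy r).differentiableAt.differentiableWithinAt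
    · intro r hr
      rw [interior_Icc] at hr
      rw [(hasDerivAt_pr2 hy r).deriv]
      have := LL_pair' (x := x) (s := r) hy
        (mul_nonpos_of_nonpos_of_nonneg (sin_two_pi_nonpos h0 h1) (sin_two_pi_nonneg hr.1.le hr.2.le))
      linarith only [this]
  exact hm ⟨hs, by linarith only [hss, hs']⟩ ⟨by linarith only [hs, hss], hs'⟩ hss

theorem fR_real (w : ℂ) (s : ℝ) : fR w s = pr2 w.re w.im |s| - 2 * UU w := by
  have e1 : w + 1 / 2 + (s : ℂ) = ⟨w.re + 1 / 2 + s, w.im⟩ := by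
    apply Complex.ext <;> simp
  have e2 : w + 1 / 2 - (s : ℂ) = ⟨w.re + 1 / 2 - s, w.im⟩ := by
    apply Complex.ext <;> simp
  unfold fR pr2
  rw [e1, e2]
  rcases abs_cases s with ⟨h, -⟩ | ⟨h, -⟩
  · rw [h]
  · rw [h, sub_neg_eq_add, show w.re + 1 / 2 + -s = w.re + 1 / 2 - s by ring,
      add_comm (UU ⟨w.re + 1 / 2 + s, w.im⟩)]

/-- a real ring variable: the maximum is at `0` -/
theorem fR_real_le_zero {w : ℂ} (h0 : 0 ≤ w.re) (h1 : w.re ≤ 1 / 2) {s : ℝ} (hs : |s| ≤ 1 / 2) :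
    fR w s ≤ fR w 0 := by
  have e := fR_real w 0
  rw [Complex.ofReal_zero, abs_zero] at e
  rw [fR_real, e]
  linarith only [h0, h1, hs, pair_anti w.im h0 h1 le_rfl (abs_nonneg s) hs]

/-- a hinge in the tail and a real ring variable -/
theorem fR_tail_nonpos {w : ℂ} (hi : w.im = 0) (h0 : 1 / 2 ≤ w.re) (h1 : w.re ≤ 1) {s : ℝ}
    (hs : |s| ≤ 1 / 2) : fR w s ≤ 0 := by
  have e : fR w ((1 / 2 : ℝ) : ℂ) = 0 := by
    have := fR_half w
    rw [hi, abs_zero, mul_zero] at this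
    rw [← this]
    norm_num
  rw [fR_real, abs_of_pos (by norm_num : (0 : ℝ) < 1 / 2)] at e
  rw [fR_real]
  linarith only [e, h0, h1, hs, pair_mono w.im h0 h1 (abs_nonneg s) hs le_rfl]

end Pool.Agent.Work.MP_b30479_gt.G2
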