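import Pool.Agent.Work.MP_b30479_gt.G2.WCrit

/-!
# Values of the regions in the own frame, and value steps
-/

namespace Pool.Agent.Work.MP_b30479_gt.G2

open Finset VOL Filter Topology

/-- growth rate of a digit `1` with hinges `x`, `k` -/
noncomputable def V1 (x k : ℂ) : ℝ := Real.pi * (x * k - x - k).im + UU (x + k) - UU x - UU k

/-- growth rate of a digit `2` with hinges `x`, `k` (`k = 0` at an end) -/
noncomputable def V2 (x k : ℂ) : ℝ :=
  -(Real.pi / 2 * ((x - k) ^ 2 + x + k).im) + UU (x + k) - 2 * UU x - 2 * UU k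

/-- growth rate of a digit `3`: `u` the hinge with the side `S3`, `v` the inner variable, `w` the
hinge with the side `S2` (`w = 0` at an end) -/
noncomputable def V3 (u v w : ℂ) : ℝ :=
  -(Real.pi / 2 * (2 * u * v + (v - w) ^ 2 - v + w).im) + UU (v + w) - UU (v - u) - UU v - UU u -
    2 * UU w

/-- growth rate of a ring -/
noncomputable def VR (n : ℝ) (w w' ζ : ℂ) : ℝ :=
  (Real.pi * Complex.I * n * ζ ^ 2 + 2 * Real.pi * Complex.I * ζ).re +
    (UU (w + 1 / 2 + ζ) + UU (w + 1 / 2 - ζ) - 2 * UU w) +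
    (UU (w' + 1 / 2 + ζ) + UU (w' + 1 / 2 - ζ) - 2 * UU w')

theorem UU_zero : UU 0 = 0 := by
  have h := UU_neg 0
  simp at h
  linarith

theorem V1_comm (x k : ℂ) : V1 x k = V1 k x := by
  unfold V1
  rw [show x * k - x - k = k * x - k - x by ring, add_comm x k]
  ring

theorem V2_comm (x k : ℂ) : V2 x k = V2 k x := by
  unfold V2
  rw [show (x - k) ^ 2 + x + k = (k - x) ^ 2 + k + x by ring, add_comm x k]
  ring

theorem VR_comm (n : ℝ) (w w' ζ : ℂ) : VR n w w' ζ = VR n w' w ζ := by
  unfold VR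
  ring

theorem UU_half (ζ : ℂ) : UU (0 + 1 / 2 + ζ) + UU (0 + 1 / 2 - ζ) - 2 * UU 0 = 0 := by
  have h := UU_one_sub (0 + 1 / 2 + ζ)
  rw [show (1 : ℂ) - (0 + 1 / 2 + ζ) = 0 + 1 / 2 - ζ by ring] at h
  rw [h, UU_zero]
  ring

theorem own_update_zero (b : ℤ) (t : Typ) (x : Fin 3 → ℂ) (c : ℂ) :
    own b t (Function.update x 0 c) = Function.update (own b t x) 0 (ofr b c) := by
  unfold own ofr
  split_ifs
  · rfl
  · funext p
    fin_cases p <;> simp [cj]

theorem own_update_two (b : ℤ) (t : Typ) (x : Fin 3 → ℂ) (c : ℂ) :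
    own b t (Function.update x 2 c) = Function.update (own b t x) 2 (ofr b c) := by
  unfold own ofr
  split_ifs
  · rfl
  · funext p
    fin_cases p <;> simp [cj]

namespace SR

variable {M : ℕ} {b : Fin (M + 1) → ℤ} {zs : DD (tyW b) ⊕ ZZ (tyW b) → ℂ}
variable {y : DD (tyW b) ⊕ ZZ (tyW b) → ℝ}
variable {h h' : Fin M} {i j j' : Fin (M + 1)} {p : Fin 3}

/-- local variables in the own frame vanish at the missing hinges -/
def EndOk (i : Fin (M + 1)) (X : Fin 3 → ℂ) : Prop :=
  (i = 0 → X 0 = 0) ∧ (i = Fin.last M → X 2 = 0)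

/-- local variables of a point in the own frame of the region `i` -/
noncomputable def Ow (b : Fin (M + 1) → ℤ) (z : DD (tyW b) ⊕ ZZ (tyW b) → ℂ) (i : Fin (M + 1)) :
    Fin 3 → ℂ := own (b i) (tyW b i) (xx (tyW b) i z)

theorem Ow_endOk (z : DD (tyW b) ⊕ ZZ (tyW b) → ℂ) (i : Fin (M + 1)) : EndOk i (Ow b z i) := by
  constructor
  · rintro rfl
    unfold Ow
    rw [own_zero, xx_left_zero, ofr_zero]
  · rintro rfl
    unfold Ow
    rw [own_two, xx_right_last, ofr_zero]

theorem V_eq_OV (hb : ClassW b) (z : DD (tyW b) ⊕ ZZ (tyW b) → ℂ) :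
    (wdat (tyW b) b).V z = ∑ i, OV b i (Ow b z i) := by
  rw [wdat_V_rV]
  exact sum_congr rfl fun i _ => rV_own hb i _

theorem OV_one (hb : ClassW b) (hc : clsW b i = .one) (X : Fin 3 → ℂ) :
    OV b i X = V1 (X 0) (X 2) := by
  have h0 := hb.ne i
  have ht := tyW_of_one hc
  have he := one_inner hb ht
  unfold OV V1
  rw [ht]
  have e0 : decide (i ≠ 0) = true := by simpa using he.1
  have e2 : decide (i ≠ Fin.last M) = true := by simpa using he.2
  rw [e0, e2, V_one]
  unfold sgb
  rw [if_pos (by omega)]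
  ring

theorem OV_two (hb : ClassW b) (hc : clsW b i = .two ∨ clsW b i = .twoE) {X : Fin 3 → ℂ}
    (hX : EndOk i X) : OV b i X = V2 (X 0) (X 2) := by
  have h0 := hb.ne i
  have ht := tyW_of_two hc
  unfold OV V2
  rw [ht, V_two]
  have hs : sgb ((b i).natAbs : ℤ) = 1 := by
    unfold sgb
    rw [if_pos (by omega)]
  rw [hs]
  by_cases h1 : i = 0
  · have hx := hX.1 h1
    by_cases h2 : i = Fin.last M
    · have hx' := hX.2 h2
      simp only [h1, ne_eq, not_true_eq_false, decide_false, Bool.false_eq_true, false_or,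
        if_false, hx, hx', h2 ▸ h1, UU_zero]
      simp [UU_zero]
    · simp only [h1, ne_eq, not_true_eq_false, decide_false, Bool.false_eq_true, false_or,
        if_false, hx, UU_zero]
      rw [h1] at h2
      simp only [h2, not_false_eq_true, decide_true, if_true]
      ring
  · by_cases h2 : i = Fin.last M
    · have hx' := hX.2 h2
      simp only [h2, ne_eq, not_true_eq_false, decide_false, Bool.false_eq_true,
        if_false, hx', UU_zero]
      rw [h2] at h1
      simp only [h1, not_false_eq_true, decide_true, if_true, true_or]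
      ring
    · simp only [h1, h2, ne_eq, not_false_eq_true, decide_true, if_true, true_or]
      ring

theorem OV_three (hb : ClassW b) (hc : clsW b i = .three) (X : Fin 3 → ℂ) :
    OV b i X = V3 (X 0) (X 1) (X 2) := by
  have h3 := clsW_nat3 (Or.inl hc)
  have he := clsW_inner hb (Or.inr (Or.inr hc))
  have ht := tyW_of_three hc
  unfold isEnd at he
  have he' := of_decide_eq_false he
  rw [not_or] at he'
  unfold OV V3
  have e0 : decide (i ≠ 0) = true := by simpa using he'.1
  have e2 : decide (i ≠ Fin.last M) = true := by simpa using he'.2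
  rw [ht, e0, e2, V_threeL, h3]
  simp only [sgb]
  norm_num
  ring

theorem Adj.OV_threeE (A : Adj h i p j) (hc : clsW b i = .threeE) {X : Fin 3 → ℂ}
    (hX : EndOk i X) : OV b i X = V3 (X p) (X 1) 0 := by
  have h3 := clsW_nat3 (Or.inr hc)
  have he := clsW_end (Or.inr hc)
  cases A
  · have h0 : h.castSucc = 0 := by
      unfold isEnd at he
      rcases of_decide_eq_true he with h1 | h1
      · exact h1
      · exact absurd h1 (Fin.castSucc_lt_last h).ne
    have ht : tyW b h.castSucc = .threeR := by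
      unfold tyW
      rw [if_neg (by omega), if_neg (by omega), if_pos h3, if_pos h0]
    have hx := hX.1 h0
    unfold OV V3
    rw [ht, V_threeR, h3, hx, decide_castSucc, h0]
    simp only [sgb, ne_eq, not_true_eq_false, decide_false, Bool.false_eq_true, if_false, if_true]
    rw [UU_zero, zero_add]
    norm_num
    ring
  · have h0 : h.succ = Fin.last M := by
      unfold isEnd at he
      rcases of_decide_eq_true he with h1 | h1
      · exact absurd h1 (Fin.succ_ne_zero h)
      · exact h1
    have ht : tyW b h.succ = .threeL := by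
      unfold tyW
      rw [if_neg (by omega), if_neg (by omega), if_pos h3, if_neg (Fin.succ_ne_zero h)]
    have hx := hX.2 h0
    unfold OV V3
    rw [ht, V_threeL, h3, hx, decide_succ, h0]
    simp only [sgb, ne_eq, not_true_eq_false, decide_false, Bool.false_eq_true, if_false, if_true]
    rw [UU_zero]
    norm_num
    ring

theorem OV_ring (hb : ClassW b) (hc : clsW b i = .ring) {X : Fin 3 → ℂ} (hX : EndOk i X) :
    OV b i X = VR ((b i).natAbs : ℝ) (X 0) (X 2) (X 1) := by
  have ht := tyW_of_ring hb hc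
  unfold OV VR
  rw [ht, V_ring]
  have hh := UU_half (X 1)
  have hn : ((((b i).natAbs : ℕ) : ℤ) : ℂ) = ((((b i).natAbs : ℕ) : ℝ) : ℂ) := by
    rw [Int.cast_natCast, Complex.ofReal_natCast]
  rw [hn]
  by_cases h1 : i = 0
  · rw [hX.1 h1, hh]
    by_cases h2 : i = Fin.last M
    · rw [hX.2 h2, hh]
      simp [h1]
    · rw [h1] at h2 ⊢
      simp only [ne_eq, not_true_eq_false, decide_false, Bool.false_eq_true, if_false, h2,
        not_false_eq_true, decide_true, if_true]
  · by_cases h2 : i = Fin.last M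
    · rw [hX.2 h2, hh]
      rw [h2] at h1 ⊢
      simp only [ne_eq, not_true_eq_false, decide_false, Bool.false_eq_true, if_false, h1,
        not_false_eq_true, decide_true, if_true]
    · simp only [ne_eq, h1, h2, not_false_eq_true, decide_true, if_true]

/-! ### moves -/

theorem xx_congr' {t : Fin (M + 1) → Typ} {z z' : DD t ⊕ ZZ t → ℂ} (i : Fin (M + 1))
    (hz : ∀ j, z j ≠ z' j → ∀ p, cf t i p j = 0) : xx t i z = xx t i z' := by
  funext p
  unfold xx
  refine sum_congr rfl fun j _ => ?_
  by_cases h : z j = z' j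
  · rw [h]
  · rw [hz j h p]
    simp

/-- change of the growth rate if only the regions of `S` are touched -/
theorem V_move (hb : ClassW b) (S : Finset (Fin (M + 1))) {z z' : DD (tyW b) ⊕ ZZ (tyW b) → ℂ}
    (hz : ∀ i, i ∉ S → ∀ j, z j ≠ z' j → ∀ p, cf (tyW b) i p j = 0) :
    (wdat (tyW b) b).V z' - (wdat (tyW b) b).V z =
      ∑ i ∈ S, (OV b i (Ow b z' i) - OV b i (Ow b z i)) := by
  rw [V_eq_OV hb, V_eq_OV hb, ← sum_sub_distrib, ← sum_subset (subset_univ S)]
  intro i _ hi
  unfold Ow
  rw [xx_congr' i (hz i hi), sub_self]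

/-- **Value step**: at a maximiser no move on the paths increases the values of the touched
regions. -/
theorem val_step (hb : ClassW b) (hy : IsMx (wdat (tyW b) b) (wpar b zs) zs y)
    (S : Finset (Fin (M + 1))) {y' : DD (tyW b) ⊕ ZZ (tyW b) → ℝ}
    (hy' : y' ∈ (wpar b zs).box (ZZ (tyW b)))
    (hz : ∀ i, i ∉ S → ∀ j, y j ≠ y' j → ∀ p, cf (tyW b) i p j = 0) :
    ∑ i ∈ S, (OV b i (OY b zs y' i) - OV b i (OY b zs y i)) ≤ 0 := by
  have h1 : (wdat (tyW b) b).V ((wpar b zs).pth zs y') ≤
    (wdat (tyW b) b).V ((wpar b zs).pth zs y) := hy.2 hy'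
  have h2 := V_move hb S (z := (wpar b zs).pth zs y) (z' := (wpar b zs).pth zs y') (fun i hi j hj p =>
    hz i hi j (fun h => hj (by simp only [Par.pth_eq, h])) p)
  unfold OY Xw
  unfold Ow at h2
  rw [← h2]
  linarith

end SR

end Pool.Agent.Work.MP_b30479_gt.G2
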