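import Pool.Agent.Work.MP_b30479_gt.G2.WMainS
import Pool.Agent.Work.MP_b30479_gt.G2.HSadOf

/-!
# The saddle point data of a word from the parts of the domination: arbitrary heights of the modes

The modes are removed strictly for the empty set of tail variables and with `≤` for the other sets.
-/

namespace Pool.Agent.Work.MP_b30479_gt.G2

open Finset VOL Filter Topology

/-- the domination from its three parts, the modes removed first for every set of tail variables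
(`≤` if the set is not empty) -/
theorem dom_of_partsQ {D Z K : Type} [Fintype D] [Fintype Z] [Fintype K]
    {S : Dat D Z K} {P : Par D} {nb : Finset D → Finset (D ⊕ Z)} {zs : D ⊕ Z → ℂ} {v : ℝ}
    (hnb : nb ∅ = ∅)
    (hmain : ∀ z, Adm S P zs ∅ ∅ z 0 → z ≠ zs → S.V z < v)
    (hle : S.V zs ≤ v)
    (hmode0 : ∀ z p, Adm S P zs ∅ ∅ z p → p ≠ 0 →
      ∃ z', Adm S P zs ∅ ∅ z' 0 ∧ S.V z - 2 * Real.pi * ∑ i, p i < S.V z')
    (hmode : ∀ R : Finset D, R ≠ ∅ → ∀ z p, Adm S P zs R (nb R) z p → p ≠ 0 →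
      ∃ z', Adm S P zs R (nb R) z' 0 ∧ S.V z - 2 * Real.pi * ∑ i, p i ≤ S.V z')
    (htail : ∀ R : Finset D, R ≠ ∅ → ∀ z, Adm S P zs R (nb R) z 0 →
      ∃ (R' : Finset D) (z' : D ⊕ Z → ℂ) (p' : D → ℝ), R' ⊂ R ∧ Adm S P zs R' (nb R') z' p' ∧
        S.V z < S.V z' - 2 * Real.pi * ∑ i, p' i) :
    ∀ R : Finset D, (∀ i ∈ R, P.XM i < 1) → ∀ (z : D ⊕ Z → ℂ) (p : D → ℝ),
      Adm S P zs R (nb R) z p → (R = ∅ → p = 0 → z ≠ zs) →
      S.V z - 2 * Real.pi * ∑ i, p i < v := by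
  refine dom_of_parts hnb hmain hle hmode0 ?_
  intro R _ hR0 z p hz
  by_cases hp : p = 0
  · subst hp
    obtain ⟨R', z', p', h1, h2, h3⟩ := htail R hR0 z hz
    refine ⟨R', z', p', h1, h2, ?_⟩
    simpa using h3
  · obtain ⟨z1, hz1, hle⟩ := hmode R hR0 z p hz hp
    obtain ⟨R', z', p', h1, h2, h3⟩ := htail R hR0 z1 hz1
    exact ⟨R', z', p', h1, h2, hle.trans_lt h3⟩

namespace SR

/-- the parameters with given heights of the mirrored paths -/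
noncomputable def wparQ {M : ℕ} (b : Fin (M + 1) → ℤ) (hu hd : DD (tyW b) → ℝ)
    (zs : DD (tyW b) ⊕ ZZ (tyW b) → ℂ) : Par (DD (tyW b)) :=
  { wpar b zs with
    hu := hu
    hd := hd }

/-- removal of the mirrored paths, no tails -/
def ModeOk0 {M : ℕ} (b : Fin (M + 1) → ℤ) (zs : DD (tyW b) ⊕ ZZ (tyW b) → ℂ)
    (P : Par (DD (tyW b))) : Prop :=
  ∀ z p, Adm (wdat (tyW b) b) P zs ∅ ∅ z p → p ≠ 0 → ∃ z',
      Adm (wdat (tyW b) b) P zs ∅ ∅ z' 0 ∧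
      (wdat (tyW b) b).V z - 2 * Real.pi * ∑ i, p i < (wdat (tyW b) b).V z'

/-- removal of the mirrored paths if there are tails -/
def ModeOkR {M : ℕ} (b : Fin (M + 1) → ℤ) (zs : DD (tyW b) ⊕ ZZ (tyW b) → ℂ)
    (P : Par (DD (tyW b))) (nb : Finset (DD (tyW b)) → Finset (DD (tyW b) ⊕ ZZ (tyW b))) : Prop :=
  ∀ R : Finset (DD (tyW b)), R ≠ ∅ → ∀ z p,
    Adm (wdat (tyW b) b) P zs R (nb R) z p → p ≠ 0 → ∃ z',
      Adm (wdat (tyW b) b) P zs R (nb R) z' 0 ∧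
      (wdat (tyW b) b).V z - 2 * Real.pi * ∑ i, p i ≤ (wdat (tyW b) b).V z'

/-- removal of the tails -/
def TailOkQ {M : ℕ} (b : Fin (M + 1) → ℤ) (zs : DD (tyW b) ⊕ ZZ (tyW b) → ℂ)
    (P : Par (DD (tyW b))) (nb : Finset (DD (tyW b)) → Finset (DD (tyW b) ⊕ ZZ (tyW b))) : Prop :=
  ∀ R : Finset (DD (tyW b)), R ≠ ∅ → ∀ z,
    Adm (wdat (tyW b) b) P zs R (nb R) z 0 →
      ∃ (R' : Finset (DD (tyW b))) (z' : DD (tyW b) ⊕ ZZ (tyW b) → ℂ) (p' : DD (tyW b) → ℝ),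
        R' ⊂ R ∧ Adm (wdat (tyW b) b) P zs R' (nb R') z' p' ∧
        (wdat (tyW b) b).V z < (wdat (tyW b) b).V z' - 2 * Real.pi * ∑ i, p' i

/-- removal of the tails, mirrored paths allowed -/
def TailOkM {M : ℕ} (b : Fin (M + 1) → ℤ) (zs : DD (tyW b) ⊕ ZZ (tyW b) → ℂ)
    (P : Par (DD (tyW b))) (nb : Finset (DD (tyW b)) → Finset (DD (tyW b) ⊕ ZZ (tyW b))) : Prop :=
  ∀ R : Finset (DD (tyW b)), R ≠ ∅ → ∀ z p,
    Adm (wdat (tyW b) b) P zs R (nb R) z p →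
      ∃ (R' : Finset (DD (tyW b))) (z' : DD (tyW b) ⊕ ZZ (tyW b) → ℂ) (p' : DD (tyW b) → ℝ),
        R' ⊂ R ∧ Adm (wdat (tyW b) b) P zs R' (nb R') z' p' ∧
        (wdat (tyW b) b).V z - 2 * Real.pi * ∑ i, p i <
          (wdat (tyW b) b).V z' - 2 * Real.pi * ∑ i, p' i

/-- the parts of the domination -/
structure DomQ {M : ℕ} (b : Fin (M + 1) → ℤ) (zs : DD (tyW b) ⊕ ZZ (tyW b) → ℂ) : Prop where
  main : MainPartsS b zs
  rest : ∃ (hu hd : DD (tyW b) → ℝ)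
    (nb : Finset (DD (tyW b)) → Finset (DD (tyW b) ⊕ ZZ (tyW b))),
    (∀ i, 0 < hu i ∧ 0 < hd i) ∧ nb ∅ = ∅ ∧
    (∀ R : Finset (DD (tyW b)), ∀ i ∈ R, .inl i ∈ nb R) ∧ ModeOk0 b zs (wparQ b hu hd zs) ∧
    ((ModeOkR b zs (wparQ b hu hd zs) nb ∧ TailOkQ b zs (wparQ b hu hd zs) nb) ∨
      TailOkM b zs (wparQ b hu hd zs) nb)

/-- **The saddle point structure of a word** from its location and the parts of the domination. -/
theorem sadl_of_domQ {M : ℕ} {b : Fin (M + 1) → ℤ} (hM : 1 ≤ M) (hb : ClassW b) (F : RingFacts)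
    {w : ℕ → ℂ} (hw : Sol b w) (L : LocOK b w) (hL : Loc b (zsW b w))
    (hD : Crit b (zsW b w) → DomQ b (zsW b w)) :
    ∃ (P : Par (DD (tyW b))) (nb : Finset (DD (tyW b)) → Finset (DD (tyW b) ⊕ ZZ (tyW b))),
      Sadl (wdat (tyW b) b) P nb (zsW b w) := by
  have hpar : ∀ hu hd : DD (tyW b) → ℝ, (∀ i, 0 < hu i ∧ 0 < hd i) → ∀ i,
      0 < (wparQ b hu hd (zsW b w)).XM i ∧
      (wparQ b hu hd (zsW b w)).XM i ≤ 1 ∧ 0 < (wparQ b hu hd (zsW b w)).cl i ∧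
      0 < (wparQ b hu hd (zsW b w)).cr i ∧
      (wparQ b hu hd (zsW b w)).cl i + (wparQ b hu hd (zsW b w)).cr i <
        (wparQ b hu hd (zsW b w)).XM i ∧
      0 < (wparQ b hu hd (zsW b w)).hu i ∧ 0 < (wparQ b hu hd (zsW b w)).hd i := by
    intro hu hd hh i
    have g := par1_good b i
    refine ⟨?_, (g.2.2.2).le, g.1, g.2.1, g.2.2.1, (hh i).1, (hh i).2⟩
    show 0 < (par1 b i).XM
    linarith [g.1, g.2.1, g.2.2.1]
  have hC : Crit b (zsW b w) := by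
    by_contra hC
    have hS : Sadl (wdat (tyW b) b) (wparQ b (fun _ => 1) (fun _ => 1) (zsW b w))
        (fun R => R.image Sum.inl) (zsW b w) :=
      sadl_word hb F hw L hM (hpar _ _ (fun _ => ⟨one_pos, one_pos⟩)) (by simp)
        (fun R i hi => Finset.mem_image_of_mem _ hi) (hL.flatD ·)
        (fun v => ⟨hL.flatZ v, hL.rpos v⟩) (fun h1 h2 _ => absurd ⟨fun k => h1 k, h2⟩ hC)
    exact hC ⟨fun k => hS.inner k, hS.crit⟩
  obtain ⟨h1, hu, hd, nb, hh, h2, h3, h4, h5⟩ := hD hC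
  refine ⟨wparQ b hu hd (zsW b w), nb, sadl_word hb F hw L hM (hpar hu hd hh) h2 h3 (hL.flatD ·)
    (fun v => ⟨hL.flatZ v, hL.rpos v⟩) ?_⟩
  intro _ _ _
  have hmain : ∀ z, Adm (wdat (tyW b) b) (wparQ b hu hd (zsW b w)) (zsW b w) ∅ ∅ z 0 →
      z ≠ zsW b w → (wdat (tyW b) b).V z < ((wdat (tyW b) b).T (zsW b w)).re := by
    intro z hz hne
    exact h1.dom hb hL hC z (Adm.main_congr (P := wparQ b hu hd (zsW b w))
      (P' := wpar b (zsW b w)) (fun i => hh i) rfl rfl rfl hz) hne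
  rcases h5 with ⟨h5, h6⟩ | h5
  · exact dom_of_partsQ h2 hmain (V_eq_re_T _ hC.inn).le h4 h5 h6
  · exact dom_of_parts h2 hmain (V_eq_re_T _ hC.inn).le h4 fun R _ hR z p hz => h5 R hR z p hz

/-- **The saddle point data of a word.** -/
theorem hsad_of_domQ {M : ℕ} {b : Fin (M + 2) → ℤ} (hb : ClassW (M := M + 1) b) (F : RingFacts)
    {w : ℕ → ℂ} (hw : Sol (M := M + 1) b w) (L : LocOK (M := M + 1) b w)
    (hL : Loc (M := M + 1) b (zsW (M := M + 1) b w))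
    (hD : Crit (M := M + 1) b (zsW (M := M + 1) b w) →
      DomQ (M := M + 1) b (zsW (M := M + 1) b w)) : HSad b := by
  obtain ⟨P, nb, hS⟩ := sadl_of_domQ (M := M + 1) (by omega) hb F hw L hL hD
  exact hsad_of hb F hw L hS

end SR

end Pool.Agent.Work.MP_b30479_gt.G2
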