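import Pool.Agent.Work.MP_b30479_gt.G2.TRd
import Pool.Agent.Work.MP_b30479_gt.G2.MDd
import Pool.Agent.Work.MP_b30479_gt.G2.WMainQ
import Pool.Agent.Work.MP_b30479_gt.G2.WLeft

/-!
# Words all of whose regions are rings: modes and tails together

`clean_rings`: one step from an admissible point with tails or modes to a point on the main paths.
The heights of the mode paths are `100`.
-/

namespace Pool.Agent.Work.MP_b30479_gt.G2

open Finset VOL Filter Topology

/-! ### paths -/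

theorem tr_le_l {b' c c' x : ℝ} (hc : 0 < c) (hx : 0 ≤ x) : tr 0 b' c c' x ≤ x / c := by
  unfold tr
  apply max_le (by positivity)
  refine (min_le_right _ _).trans ((min_le_left _ _).trans ?_)
  rw [sub_zero]

/-- the value of the mode path of height `100` -/
theorem mode_path {x : ℝ} (h0 : 0 ≤ x) (h1 : x ≤ 1 / 2)
    (ht : 0 < tr 0 (1 / 2) (1 / 10) (2 / 100) x) :
    fR ⟨x, 100 * tr 0 (1 / 2) (1 / 10) (2 / 100) x⟩ 0 ≤
      Real.pi * (100 * tr 0 (1 / 2) (1 / 10) (2 / 100) x) + 2 / 1000 := by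
  have hpi := Real.pi_pos
  have hpi3 : 3.14 < Real.pi := Real.pi_gt_d2
  set t := tr 0 (1 / 2) (1 / 10) (2 / 100) x with htdef
  have ht' : t = min 1 (min ((x - 0) / (1 / 10)) ((1 / 2 - x) / (2 / 100))) := by
    rw [htdef] at ht ⊢
    unfold tr at ht ⊢
    rcases le_total 0 (min 1 (min ((x - 0) / (1 / 10)) ((1 / 2 - x) / (2 / 100)))) with h | h
    · exact max_eq_right h
    · rw [max_eq_left h] at ht
      exact absurd ht (lt_irrefl _)
  have hY : 0 < 100 * t := by linarith only [ht]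
  have key : x ≤ t / 4 ∨ 1 / 2 - x ≤ t / 4 := by
    rcases min_choice 1 (min ((x - 0) / (1 / 10)) ((1 / 2 - x) / (2 / 100))) with e | e
    · rw [e] at ht'
      rcases le_total x (1 / 4) with h | h
      · left
        linarith only [ht', h]
      · right
        linarith only [ht', h]
    · rw [e] at ht'
      rcases min_choice ((x - 0) / (1 / 10)) ((1 / 2 - x) / (2 / 100)) with e' | e'
      · rw [e'] at ht'
        left
        linarith only [ht, ht']
      · rw [e'] at ht'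
        right
        linarith only [ht, ht']
  have hb : ∀ a : ℝ, a ≤ t / 4 → 2 * (a / (Real.pi * (100 * t))) ≤ 2 / 1000 := by
    intro a ha
    rw [mul_div_assoc', div_le_iff₀ (by positivity)]
    nlinarith only [ht, ha, hpi3]
  rcases key with h | h
  · exact (fR_zero_le hY h0 h1).trans (by linarith only [hb, h, hb _ h])
  · exact (fR_zero_le' hY h0 h1).trans (by linarith only [hb, h, hb _ h])

namespace SR

variable {M : ℕ} {b : Fin (M + 1) → ℤ} {zs : DD (tyW b) ⊕ ZZ (tyW b) → ℂ}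
variable {h h' : Fin M} {i j j' : Fin (M + 1)} {p : Fin 3}

/-! ### penalties of slots -/

/-- penalty of the hinge in a slot -/
def pen (q : Fin M → ℝ) (i : Fin (M + 1)) (p : Fin 3) : ℝ :=
  if p = 0 then Fin.cases (motive := fun _ => ℝ) 0 q i else Fin.lastCases (motive := fun _ => ℝ) 0 q i

theorem pen_adj (q : Fin M → ℝ) (A : Adj h i p j) : pen q i p = q h := by
  cases A
  · unfold pen
    rw [if_neg (by decide)]
    exact Fin.lastCases_castSucc ..
  · unfold pen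
    rw [if_pos rfl]
    rfl

theorem pen_none (q : Fin M → ℝ) (hp : p = 0 ∨ p = 2) (hn : ¬ ∃ h j, Adj h i p j) : pen q i p = 0 := by
  rcases hp with rfl | rfl
  · by_cases h0 : i = 0
    · subst h0
      rfl
    · obtain ⟨k, rfl⟩ := Fin.eq_succ_of_ne_zero h0
      exact absurd ⟨k, _, .r⟩ hn
  · by_cases h0 : i = Fin.last M
    · subst h0
      unfold pen
      rw [if_neg (by decide)]
      exact Fin.lastCases_last ..
    · obtain ⟨k, rfl⟩ := Fin.eq_castSucc_of_ne_last h0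
      exact absurd ⟨k, _, .l⟩ hn

theorem sum_pen (q : Fin M → ℝ) : ∑ i, (pen q i 0 + pen q i 2) = 2 * ∑ h, q h := by
  rw [Finset.sum_add_distrib]
  have e0 : ∑ i, pen q i 0 = ∑ h, q h := by
    rw [Fin.sum_univ_succ]
    have : pen q 0 0 = 0 := rfl
    rw [this, zero_add]
    exact Finset.sum_congr rfl fun h _ => pen_adj q .r
  have e2 : ∑ i, pen q i 2 = ∑ h, q h := by
    rw [Fin.sum_univ_castSucc]
    have : pen q (Fin.last M) 2 = 0 := by
      unfold pen
      rw [if_neg (by decide)]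
      exact Fin.lastCases_last ..
    rw [this, add_zero]
    exact Finset.sum_congr rfl fun h _ => pen_adj q .l
  rw [e0, e2]
  ring

/-! ### the new point -/

open Classical in
/-- the target point -/
noncomputable def tzM (zs : DD (tyW b) ⊕ ZZ (tyW b) → ℂ) (R : Finset (DD (tyW b)))
    (z : DD (tyW b) ⊕ ZZ (tyW b) → ℂ) (q : DD (tyW b) → ℝ) : DD (tyW b) ⊕ ZZ (tyW b) → ℂ
  | .inl i => if i ∈ R then wT (zs (.inl i)).im else if q i = 0 then z (.inl i) else
      wM (zs (.inl i)).im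
  | .inr v => if .inr v ∈ nbR b R then ofz (b v.1) (zT (zs (.inr v)).im) else
      if (∃ h p j, Adj h v.1 p j ∧ q (.inl h) ≠ 0) ∧ 3 / 10 < |(z (.inr v)).re| then
        ofz (b v.1) (zM (zs (.inr v)).im) else z (.inr v)

theorem tzM_tail {R : Finset (DD (tyW b))} {i : DD (tyW b)} (h : i ∈ R)
    (z : DD (tyW b) ⊕ ZZ (tyW b) → ℂ) (q : DD (tyW b) → ℝ) :
    tzM zs R z q (.inl i) = wT (zs (.inl i)).im := by
  show (if i ∈ R then wT (zs (.inl i)).im else _) = _
  rw [if_pos h]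

theorem tzM_main {R : Finset (DD (tyW b))} {i : DD (tyW b)} (h : i ∉ R)
    (z : DD (tyW b) ⊕ ZZ (tyW b) → ℂ) {q : DD (tyW b) → ℝ} (hq : q i = 0) :
    tzM zs R z q (.inl i) = z (.inl i) := by
  show (if i ∈ R then _ else if q i = 0 then z (.inl i) else _) = _
  rw [if_neg h, if_pos hq]

theorem tzM_mode {R : Finset (DD (tyW b))} {i : DD (tyW b)} (h : i ∉ R)
    (z : DD (tyW b) ⊕ ZZ (tyW b) → ℂ) {q : DD (tyW b) → ℝ} (hq : q i ≠ 0) :
    tzM zs R z q (.inl i) = wM (zs (.inl i)).im := by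
  show (if i ∈ R then _ else if q i = 0 then _ else wM (zs (.inl i)).im) = _
  rw [if_neg h, if_neg hq]

open Classical in
theorem tzM_tailZ {R : Finset (DD (tyW b))} {v : ZZ (tyW b)} (h : .inr v ∈ nbR b R)
    (z : DD (tyW b) ⊕ ZZ (tyW b) → ℂ) (q : DD (tyW b) → ℝ) :
    tzM zs R z q (.inr v) = ofz (b v.1) (zT (zs (.inr v)).im) := by
  show (if .inr v ∈ nbR b R then ofz (b v.1) (zT (zs (.inr v)).im) else _) = _
  rw [if_pos h]

open Classical in
theorem tzM_modeZ {R : Finset (DD (tyW b))} {v : ZZ (tyW b)} (h : .inr v ∉ nbR b R)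
    {z : DD (tyW b) ⊕ ZZ (tyW b) → ℂ} {q : DD (tyW b) → ℝ}
    (hm : (∃ h p j, Adj h v.1 p j ∧ q (.inl h) ≠ 0) ∧ 3 / 10 < |(z (.inr v)).re|) :
    tzM zs R z q (.inr v) = ofz (b v.1) (zM (zs (.inr v)).im) := by
  show (if .inr v ∈ nbR b R then _ else
      if (∃ h p j, Adj h v.1 p j ∧ q (.inl h) ≠ 0) ∧ 3 / 10 < |(z (.inr v)).re| then
        ofz (b v.1) (zM (zs (.inr v)).im) else z (.inr v)) = _
  rw [if_neg h, if_pos hm]

open Classical in
theorem tzM_mainZ {R : Finset (DD (tyW b))} {v : ZZ (tyW b)} (h : .inr v ∉ nbR b R)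
    {z : DD (tyW b) ⊕ ZZ (tyW b) → ℂ} {q : DD (tyW b) → ℝ}
    (hm : ¬ ((∃ h p j, Adj h v.1 p j ∧ q (.inl h) ≠ 0) ∧ 3 / 10 < |(z (.inr v)).re|)) :
    tzM zs R z q (.inr v) = z (.inr v) := by
  show (if .inr v ∈ nbR b R then _ else
      if (∃ h p j, Adj h v.1 p j ∧ q (.inl h) ≠ 0) ∧ 3 / 10 < |(z (.inr v)).re| then
        ofz (b v.1) (zM (zs (.inr v)).im) else z (.inr v)) = _
  rw [if_neg h, if_neg hm]

theorem ofr_wT (b' : ℤ) (t : ℝ) : ofr b' (wT t) = wT (ofs b' t) := by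
  unfold ofr ofs wT
  split_ifs
  · rfl
  · apply Complex.ext <;> simp

theorem ofr_wM (b' : ℤ) (t : ℝ) : ofr b' (wM t) = wM (ofs b' t) := by
  unfold ofr ofs wM
  split_ifs
  · rfl
  · apply Complex.ext <;> simp

/-- the parameters: mode paths of height `100` -/
noncomputable abbrev wpar100 (b : Fin (M + 1) → ℤ) (zs : DD (tyW b) ⊕ ZZ (tyW b) → ℂ) :
    Par (DD (tyW b)) := wparQ b (fun _ => 100) (fun _ => 100) zs

theorem AllRing.parQ (hA : AllRing b) (h : Fin M) : (wpar100 b zs).XM (.inl h) = 1 / 2 ∧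
    (wpar100 b zs).cl (.inl h) = 1 / 10 ∧ (wpar100 b zs).cr (.inl h) = 2 / 100 := by
  show (par1 b (.inl h)).XM = 1 / 2 ∧ (par1 b (.inl h)).cl = 1 / 10 ∧ (par1 b (.inl h)).cr = 2 / 100
  rw [hA.par]
  exact ⟨rfl, rfl, rfl⟩

/-- a hinge on one of its paths, in the frame of a region -/
theorem On_slot (hA : AllRing b) (hL : Loc b zs) (h : Fin M) (b' : ℤ) {z : ℂ} {q : ℝ}
    (hz : (wpar100 b zs).On (zs (.inl (.inl h))).im (.inl h) z q) :
    (q = 0 → 0 ≤ (ofr b' z).re ∧ (ofr b' z).re ≤ 1 / 2 ∧ |(ofr b' z).im| ≤ 6 / 100 ∧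
      |(ofr b' z).im| ≤ 6 / 10 * (ofr b' z).re) ∧
    (q ≠ 0 → 0 ≤ (ofr b' z).re ∧ (ofr b' z).re ≤ 1 / 2 ∧ q = |(ofr b' z).im| ∧
      fR ⟨(ofr b' z).re, |(ofr b' z).im|⟩ 0 ≤ Real.pi * |(ofr b' z).im| + 2 / 1000) := by
  have ht := hA.height hL h
  obtain ⟨hX, hcl, hcr⟩ := hA.parQ (zs := zs) h
  obtain ⟨x, h0, h1, h2⟩ := hz
  rw [hX, hcl, hcr] at h2
  rw [hX] at h1
  rw [ofr_re, ofr_im, abs_ofs]
  have hu : (wpar100 b zs).hu (.inl h) = 100 := rfl
  have hd : (wpar100 b zs).hd (.inl h) = 100 := rfl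
  rw [hu, hd] at h2
  set t := tr 0 (1 / 2) (1 / 10) (2 / 100) x with htdef
  obtain ⟨t0, t1⟩ := tr_mem 0 (1 / 2) (1 / 10) (2 / 100) x
  rw [← htdef] at t0 t1
  have t2 : t ≤ x / (1 / 10) := tr_le_l (by norm_num) h0
  have him : ∀ c : ℝ, (pt 0 (1 / 2) (1 / 10) (2 / 100) c x).im = c * t := by
    intro c
    unfold pt
    simp [htdef]
  have hzero : t = 0 → ∀ c : ℝ, |(pt 0 (1 / 2) (1 / 10) (2 / 100) c x).im| = 0 := by
    intro e c
    rw [him, e, mul_zero, abs_zero]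
  have hmode : ∀ c : ℝ, |c| = 100 → 100 * t ≠ 0 → 0 ≤ x ∧ x ≤ 1 / 2 ∧
      100 * t = |(pt 0 (1 / 2) (1 / 10) (2 / 100) c x).im| ∧
      fR ⟨x, |(pt 0 (1 / 2) (1 / 10) (2 / 100) c x).im|⟩ 0 ≤
        Real.pi * |(pt 0 (1 / 2) (1 / 10) (2 / 100) c x).im| + 2 / 1000 := by
    intro c hc hne
    have e : |(pt 0 (1 / 2) (1 / 10) (2 / 100) c x).im| = 100 * t := by
      rw [him, abs_mul, hc, abs_of_nonneg t0]
    rw [e]
    have tp : 0 < t := lt_of_le_of_ne t0 fun h => hne (by rw [← h, mul_zero])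
    exact ⟨h0, h1, rfl, mode_path h0 h1 tp⟩
  rcases h2 with ⟨rfl, rfl⟩ | ⟨rfl, rfl⟩ | ⟨rfl, rfl⟩
  · rw [pt_re]
    refine ⟨fun _ => ⟨h0, h1, ?_, ?_⟩, fun h => absurd rfl h⟩
    · rw [him, abs_mul, abs_of_nonneg t0]
      have := abs_nonneg (zs (.inl (.inl h))).im
      nlinarith only [t1, ht, t0]
    · rw [him, abs_mul, abs_of_nonneg t0]
      have := abs_nonneg (zs (.inl (.inl h))).im
      have : |(zs (.inl (.inl h))).im| * t ≤ 59 / 1000 * (x / (1 / 10)) :=
        mul_le_mul ht t2 t0 (by norm_num)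
      linarith only [h0, this]
  · rw [pt_re]
    refine ⟨fun e => ⟨h0, h1, ?_⟩, fun e => hmode 100 (by norm_num) e⟩
    rw [hzero (by linarith only [t0, e])]
    constructor
    · norm_num
    · linarith only [h0]
  · rw [pt_re]
    refine ⟨fun e => ⟨h0, h1, ?_⟩, fun e => hmode (-100) (by norm_num) e⟩
    rw [hzero (by linarith only [t0, e])]
    constructor
    · norm_num
    · linarith only [h0]

/-- one slot of one region -/
theorem slot_M (hA : AllRing b) (hL : Loc b zs)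
    {R : Finset (DD (tyW b))} {z : DD (tyW b) ⊕ ZZ (tyW b) → ℂ} {q : DD (tyW b) → ℝ}
    (hz : Adm (wdat (tyW b) b) (wpar100 b zs) zs R (nbR b R) z q) (i : Fin (M + 1))
    (hp : p = 0 ∨ p = 2) :
    ∃ g : SlK, MSlot g (Ow b z i p) (Ow b (tzM zs R z q) i p) (pen (fun h => q (.inl h)) i p) ∧
      ((∃ h j, Adj h i p j ∧ .inl h ∈ R) ↔ g = .tail) ∧
      ((∃ h j, Adj h i p j ∧ q (.inl h) ≠ 0) ↔ g = .mode) ∧
      (g = .main → Ow b (tzM zs R z q) i p = Ow b z i p) := by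
  rcases slot_cases b i hp with ⟨h0, hn⟩ | ⟨h, j, A⟩
  · refine ⟨.main, ⟨fun _ => ?_, fun h => absurd h (by decide), fun h => absurd h (by decide)⟩,
      ⟨?_, fun h => absurd h (by decide)⟩, ⟨?_, fun h => absurd h (by decide)⟩,
      fun _ => by rw [h0, h0]⟩
    · rw [h0, h0]
      refine ⟨rfl, pen_none _ hp hn, ?_⟩
      norm_num
    · rintro ⟨h, j, A, -⟩
      exact absurd ⟨h, j, A⟩ hn
    · rintro ⟨h, j, A, -⟩
      exact absurd ⟨h, j, A⟩ hn
  · have e0 : (∃ h j, Adj h i p j ∧ (.inl h : DD (tyW b)) ∈ R) ↔ (.inl h : DD (tyW b)) ∈ R := by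
      constructor
      · rintro ⟨h', j', A', hR⟩
        rw [(A.eq_of A').1]
        exact hR
      · exact fun hR => ⟨h, j, A, hR⟩
    have e1 : (∃ h j, Adj h i p j ∧ q (.inl h) ≠ 0) ↔ q (.inl h) ≠ 0 := by
      constructor
      · rintro ⟨h', j', A', hR⟩
        rw [(A.eq_of A').1]
        exact hR
      · exact fun hR => ⟨h, j, A, hR⟩
    rw [Ow_adj _ A, Ow_adj _ A, e0, e1, pen_adj _ A]
    have hT : |ofs (b i) (zs (.inl (.inl h))).im| ≤ 6 / 100 := by
      rw [abs_ofs]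
      linarith only [hA, hL, hA.height hL h]
    by_cases hR : (.inl h : DD (tyW b)) ∈ R
    · obtain ⟨t1, t2, t3, t4⟩ := hz.tail _ hR
      rw [(hA.parQ (zs := zs) h).1] at t2
      rw [tzM_tail hR, ofr_wT]
      refine ⟨.tail, ⟨fun h => absurd h (by decide), fun h => absurd h (by decide),
        fun _ => ⟨?_, ?_, ?_, t4, _, hT, rfl⟩⟩, ⟨fun _ => rfl, fun _ => hR⟩,
        ⟨fun h => absurd t4 h, fun h => absurd h (by decide)⟩, fun h => absurd h (by decide)⟩
      · rw [ofr_im, t1]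
        unfold ofs
        split_ifs <;> simp
      · rw [ofr_re]; exact t2
      · rw [ofr_re]; exact t3
    · have hon := On_slot hA hL h (b i) (hz.onD (.inl h) (by rw [mem_nbR_inl]; exact hR))
      by_cases hq : q (.inl h) = 0
      · obtain ⟨a1, a2, a3, a4⟩ := hon.1 hq
        rw [tzM_main hR z hq]
        exact ⟨.main, ⟨fun _ => ⟨rfl, hq, a1, a2, a3, a4⟩, fun h => absurd h (by decide),
          fun h => absurd h (by decide)⟩, ⟨fun h => absurd h hR, fun h => absurd h (by decide)⟩,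
          ⟨fun h => absurd hq h, fun h => absurd h (by decide)⟩, fun _ => rfl⟩
      · obtain ⟨a1, a2, a3, a4⟩ := hon.2 hq
        rw [tzM_mode hR z hq, ofr_wM]
        exact ⟨.mode, ⟨fun h => absurd h (by decide), fun _ => ⟨a1, a2, a3, a4, _, hT, rfl⟩,
          fun h => absurd h (by decide)⟩, ⟨fun h => absurd h hR, fun h => absurd h (by decide)⟩,
          ⟨fun _ => rfl, fun _ => hq⟩, fun h => absurd h (by decide)⟩

end SR

end Pool.Agent.Work.MP_b30479_gt.G2
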