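import Pool.Agent.Work.MP_b30479_gt.G2.MDe

/-!
# Words all of whose regions are rings: the step
-/

namespace Pool.Agent.Work.MP_b30479_gt.G2

open Finset VOL Filter Topology

namespace SR

variable {M : ℕ} {b : Fin (M + 1) → ℤ} {zs : DD (tyW b) ⊕ ZZ (tyW b) → ℂ}
variable {h h' : Fin M} {i j j' : Fin (M + 1)} {p : Fin 3}

theorem ofz_real (b' : ℤ) {z : ℂ} (h : z.im = 0) : ofz b' z = ((ofs b' z.re : ℝ) : ℂ) := by
  rw [ofz_eq, h]
  simp

theorem ofz_ofz (b' : ℤ) (z : ℂ) : ofz b' (ofz b' z) = z := by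
  unfold ofz
  split_ifs <;> simp

theorem ofz_zt2 (b' : ℤ) (ρ σ : ℝ) : ofz b' (LT.zt ρ σ) = ⟨ofs b' σ, ρ * LT.th (ofs b' σ)⟩ := by
  rw [ofz_eq, zt_eq, th_ofs]
  apply Complex.ext <;> simp

/-- one region -/
theorem region_M (hb : ClassW b) (hA : AllRing b)
    (hL : Loc b zs) {R : Finset (DD (tyW b))} {z : DD (tyW b) ⊕ ZZ (tyW b) → ℂ} {q : DD (tyW b) → ℝ}
    (hz : Adm (wdat (tyW b) b) (wpar100 b zs) zs R (nbR b R) z q) (i : Fin (M + 1)) :
    OV b i (Ow b z i) - Real.pi * (pen (fun h => q (.inl h)) i 0 + pen (fun h => q (.inl h)) i 2) ≤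
        OV b i (Ow b (tzM zs R z q) i) ∧
      ((∃ h p j, Adj h i p j ∧ (.inl h ∈ R ∨ q (.inl h) ≠ 0)) →
        OV b i (Ow b z i) - Real.pi * (pen (fun h => q (.inl h)) i 0 +
          pen (fun h => q (.inl h)) i 2) < OV b i (Ow b (tzM zs R z q) i)) := by
  have hty := tyW_of_ring hb (hA i)
  obtain ⟨v, rfl⟩ : ∃ v : ZZ (tyW b), v.1 = i := ⟨⟨i, by rw [hty]; rfl⟩, rfl⟩
  obtain ⟨g0, s0, a0, m0, c0⟩ := slot_M hA hL hz v.1 (p := 0) (Or.inl rfl)
  obtain ⟨g2, s2, a2, m2, c2⟩ := slot_M hA hL hz v.1 (p := 2) (Or.inr rfl)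
  have hn : (4 : ℝ) ≤ ((b v.1).natAbs : ℝ) := by
    have := ring_four hb hty
    exact_mod_cast this
  have hρ0 := (hL.rpos v).le
  have hρ1 := hL.ring_height hb v
  have htail : (∃ h p j, Adj h v.1 p j ∧ (.inl h : DD (tyW b)) ∈ R) ↔ (g0 = .tail ∨ g2 = .tail) := by
    constructor
    · rintro ⟨h, p, j, A, hR⟩
      rcases A.slot with rfl | rfl
      · exact Or.inl (a0.mp ⟨h, j, A, hR⟩)
      · exact Or.inr (a2.mp ⟨h, j, A, hR⟩)
    · rintro (h | h)
      · obtain ⟨h, j, A, hR⟩ := a0.mpr h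
        exact ⟨h, 0, j, A, hR⟩
      · obtain ⟨h, j, A, hR⟩ := a2.mpr h
        exact ⟨h, 2, j, A, hR⟩
  have hmode : (∃ h p j, Adj h v.1 p j ∧ q (.inl h) ≠ 0) ↔ (g0 = .mode ∨ g2 = .mode) := by
    constructor
    · rintro ⟨h, p, j, A, hR⟩
      rcases A.slot with rfl | rfl
      · exact Or.inl (m0.mp ⟨h, j, A, hR⟩)
      · exact Or.inr (m2.mp ⟨h, j, A, hR⟩)
    · rintro (h | h)
      · obtain ⟨h, j, A, hR⟩ := m0.mpr h
        exact ⟨h, 0, j, A, hR⟩
      · obtain ⟨h, j, A, hR⟩ := m2.mpr h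
        exact ⟨h, 2, j, A, hR⟩
  by_cases hv : .inr v ∈ nbR b R
  · -- next to a tail
    obtain ⟨r1, r2⟩ := hz.reZ v hv
    have hv' := htail.mp ((mem_nbR_inr R v).mp hv)
    have e1 : Ow b z v.1 1 = ((ofs (b v.1) (z (.inr v)).re : ℝ) : ℂ) := by
      rw [Ow_ring, ofz_real _ r1]
    have e2 : Ow b (tzM zs R z q) v.1 1 = zT (zs (.inr v)).im := by
      rw [Ow_ring, tzM_tailZ hv, ofz_ofz]
    have key : OV b v.1 (Ow b z v.1) - Real.pi * (pen (fun h => q (.inl h)) v.1 0 +
        pen (fun h => q (.inl h)) v.1 2) < OV b v.1 (Ow b (tzM zs R z q) v.1) := by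
      rw [OV_ring hb (hA _) (Ow_endOk z _), OV_ring hb (hA _) (Ow_endOk _ _), e1, e2]
      rcases hv' with h | h
      · subst h
        exact ring_tail s0 s2 hn hρ0 hρ1 (by rw [abs_ofs]; exact r2)
      · subst h
        rw [VR_comm, VR_comm _ (Ow b (tzM zs R z q) v.1 0), add_comm (pen _ _ _)]
        exact ring_tail s2 s0 hn hρ0 hρ1 (by rw [abs_ofs]; exact r2)
    exact ⟨key.le, fun _ => key⟩
  · have hnt : ¬ (g0 = .tail ∨ g2 = .tail) := by
      rw [← htail, ← mem_nbR_inr]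
      exact hv
    push Not at hnt
    obtain ⟨hnt0, hnt2⟩ := hnt
    obtain ⟨σ, hσ, eσ⟩ := hz.onZ v hv
    have e1 : Ow b z v.1 1 = ⟨ofs (b v.1) σ, (zs (.inr v)).im * LT.th (ofs (b v.1) σ)⟩ := by
      rw [Ow_ring, eσ, ofz_zt2]
    have ere : (z (.inr v)).re = σ := by
      rw [eσ, zt_eq]
      simp
    by_cases hm : g0 = .mode ∨ g2 = .mode
    · -- next to a mode
      have hm' := hmode.mpr hm
      by_cases hs : |σ| ≤ 3 / 10
      · have e2 : Ow b (tzM zs R z q) v.1 1 = Ow b z v.1 1 := by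
          rw [Ow_ring, Ow_ring, tzM_mainZ hv]
          rintro ⟨-, h⟩
          rw [ere] at h
          linarith
        have key : OV b v.1 (Ow b z v.1) - Real.pi * (pen (fun h => q (.inl h)) v.1 0 +
            pen (fun h => q (.inl h)) v.1 2) < OV b v.1 (Ow b (tzM zs R z q) v.1) := by
          rw [OV_ring hb (hA _) (Ow_endOk z _), OV_ring hb (hA _) (Ow_endOk _ _), e2, e1]
          rcases hm with h | h
          · subst h
            exact ring_near s0 s2 hnt2 hρ0 hρ1 (by rw [abs_ofs]; exact hs)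
          · subst h
            rw [VR_comm, VR_comm _ (Ow b (tzM zs R z q) v.1 0), add_comm (pen _ _ _)]
            exact ring_near s2 s0 hnt0 hρ0 hρ1 (by rw [abs_ofs]; exact hs)
        exact ⟨key.le, fun _ => key⟩
      · push Not at hs
        have e2 : Ow b (tzM zs R z q) v.1 1 = zM (zs (.inr v)).im := by
          rw [Ow_ring, tzM_modeZ hv ⟨hm', by rw [ere]; exact hs⟩, ofz_ofz]
        have key : OV b v.1 (Ow b z v.1) - Real.pi * (pen (fun h => q (.inl h)) v.1 0 +
            pen (fun h => q (.inl h)) v.1 2) < OV b v.1 (Ow b (tzM zs R z q) v.1) := by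
          rw [OV_ring hb (hA _) (Ow_endOk z _), OV_ring hb (hA _) (Ow_endOk _ _), e1, e2]
          rcases hm with h | h
          · subst h
            exact ring_far s0 s2 hnt2 hn hρ0 hρ1 (by rw [abs_ofs]; exact hs) (by rw [abs_ofs]; exact hσ)
          · subst h
            rw [VR_comm, VR_comm _ (Ow b (tzM zs R z q) v.1 0), add_comm (pen _ _ _)]
            exact ring_far s2 s0 hnt0 hn hρ0 hρ1 (by rw [abs_ofs]; exact hs) (by rw [abs_ofs]; exact hσ)
        exact ⟨key.le, fun _ => key⟩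
    · -- unchanged
      push Not at hm
      have g0m : g0 = .main := by
        cases g0
        · rfl
        · exact absurd rfl hm.1
        · exact absurd rfl hnt0
      have g2m : g2 = .main := by
        cases g2
        · rfl
        · exact absurd rfl hm.2
        · exact absurd rfl hnt2
      have e2 : Ow b (tzM zs R z q) v.1 1 = Ow b z v.1 1 := by
        rw [Ow_ring, Ow_ring, tzM_mainZ hv]
        rintro ⟨h, -⟩
        exact absurd (hmode.mp h) (not_or.mpr hm)
      have e : Ow b (tzM zs R z q) v.1 = Ow b z v.1 := by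
        funext p
        fin_cases p
        · exact c0 g0m
        · exact e2
        · exact c2 g2m
      have p0 := (s0.main g0m).2.1
      have p2 := (s2.main g2m).2.1
      rw [e, p0, p2]
      refine ⟨by simp, ?_⟩
      rintro ⟨h, p, j, A, hR | hR⟩
      · exact absurd (htail.mp ⟨h, p, j, A, hR⟩) (not_or.mpr ⟨hnt0, hnt2⟩)
      · exact absurd (hmode.mp ⟨h, p, j, A, hR⟩) (not_or.mpr hm)

theorem sum_DD (hA : AllRing b) (q : DD (tyW b) → ℝ) : ∑ i, q i = ∑ h : Fin M, q (.inl h) := by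
  rw [Fintype.sum_sum_type]
  have : ∑ m, q (.inr m) = 0 := by
    apply Finset.sum_eq_zero
    intro m _
    obtain ⟨h, e⟩ := hA.inl (.inr m)
    exact absurd e (by simp)
  rw [this, add_zero]

/-- **One step from the tails and modes**, words all of whose regions are rings. -/
theorem clean_rings (hb : ClassW b) (hA : AllRing b)
    (hL : Loc b zs) {R : Finset (DD (tyW b))} {z : DD (tyW b) ⊕ ZZ (tyW b) → ℂ}
    {q : DD (tyW b) → ℝ} (hz : Adm (wdat (tyW b) b) (wpar100 b zs) zs R (nbR b R) z q)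
    (hne : R ≠ ∅ ∨ q ≠ 0) :
    Adm (wdat (tyW b) b) (wpar100 b zs) zs ∅ ∅ (tzM zs R z q) 0 ∧
      (wdat (tyW b) b).V z - 2 * Real.pi * ∑ i, q i < (wdat (tyW b) b).V (tzM zs R z q) := by
  have hsc : ∀ (h : Fin M) (x : ℝ), tr 0 (1 / 2) (1 / 10) (2 / 100) x = 1 → 0 ≤ x → x ≤ 1 / 2 →
      (wpar100 b zs).On (zs (.inl (.inl h))).im (.inl h) ⟨x, (zs (.inl (.inl h))).im⟩ 0 := by
    intro h x hx h0 h1
    obtain ⟨hX, hcl, hcr⟩ := hA.parQ (zs := zs) h
    refine ⟨x, h0, by rw [hX]; exact h1, Or.inl ⟨?_, rfl⟩⟩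
    rw [hX, hcl, hcr]
    unfold pt
    rw [hx, mul_one]
    apply Complex.ext <;> simp
  refine ⟨⟨?_, ?_, ?_, ?_, ?_, ?_⟩, ?_⟩
  · exact fun i hi => absurd hi (Finset.notMem_empty i)
  · exact fun i _ hi => absurd hi (Finset.notMem_empty _)
  · exact fun v hv => absurd hv (Finset.notMem_empty _)
  · intro i _
    obtain ⟨h, rfl⟩ := hA.inl i
    by_cases hi : (.inl h : DD (tyW b)) ∈ R
    · rw [tzM_tail hi]
      exact hsc h (1 / 4) (by unfold tr; norm_num) (by norm_num) (by norm_num)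
    · by_cases hq : q (.inl h) = 0
      · rw [tzM_main hi z hq]
        have := hz.onD (.inl h) (by rw [mem_nbR_inl]; exact hi)
        rwa [hq] at this
      · rw [tzM_mode hi z hq]
        exact hsc h (17 / 100) (by unfold tr; norm_num) (by norm_num) (by norm_num)
  · intro v _
    by_cases hv : .inr v ∈ nbR b R
    · rw [tzM_tailZ hv]
      refine ⟨ofs (b v.1) (-(1 / 8)), ?_, ?_⟩
      · rw [abs_ofs]
        norm_num
      · have e2 : LT.th (ofs (b v.1) (-(1 / 8))) = 1 := by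
          rw [th_ofs]
          exact th_of_le (by norm_num [abs_of_neg])
        rw [zt_eq, e2, mul_one]
        unfold ofz ofs zT
        split_ifs
        · apply Complex.ext <;> simp
        · apply Complex.ext <;> simp
    · by_cases hm : (∃ h p j, Adj h v.1 p j ∧ q (.inl h) ≠ 0) ∧ 3 / 10 < |(z (.inr v)).re|
      · rw [tzM_modeZ hv hm]
        refine ⟨ofs (b v.1) (-(11 / 40)), ?_, ?_⟩
        · rw [abs_ofs]
          norm_num [abs_of_neg]
        · have e2 : LT.th (ofs (b v.1) (-(11 / 40))) = 9 / 10 := by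
            rw [th_ofs, th_of_ge (by norm_num [abs_of_neg])]
            norm_num [abs_of_neg]
          rw [zt_eq, e2]
          unfold ofz ofs zM
          split_ifs
          · apply Complex.ext <;> simp [mul_comm]
          · apply Complex.ext <;> simp [mul_comm]
      · rw [tzM_mainZ hv hm]
        exact hz.onZ v hv
  · intro k hk hk'
    have h0 : ∀ j, (wdat (tyW b) b).A k j = 0 := by
      intro j
      rcases j with i | v
      · by_contra hne
        exact absurd (hk' i hne) (Finset.notMem_empty _)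
      · exact hk v
    have hf : ∀ z, (wdat (tyW b) b).form k z = (wdat (tyW b) b).a k := by
      intro z
      unfold Dat.form
      simp [h0]
    have := hz.wall k hk fun i hi => absurd (h0 (.inl i)) hi
    rw [hf] at this ⊢
    exact this
  · rw [V_eq_OV hb, V_eq_OV hb, sum_DD hA]
    have hreg := fun i => region_M hb hA hL hz i
    have hex : ∃ h : Fin M, .inl h ∈ R ∨ q (.inl h) ≠ 0 := by
      rcases hne with hR | hq
      · obtain ⟨i, hi⟩ := Finset.nonempty_iff_ne_empty.mpr hR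
        obtain ⟨h, rfl⟩ := hA.inl i
        exact ⟨h, Or.inl hi⟩
      · obtain ⟨i, hi⟩ := Function.ne_iff.mp hq
        obtain ⟨h, rfl⟩ := hA.inl i
        exact ⟨h, Or.inr hi⟩
    obtain ⟨h, hh⟩ := hex
    have hs := Finset.sum_lt_sum (fun i _ => (hreg i).1)
      ⟨h.castSucc, Finset.mem_univ _, (hreg h.castSucc).2 ⟨h, 2, h.succ, .l, hh⟩⟩
    have e := sum_pen (fun h => q (.inl h))
    rw [Finset.sum_sub_distrib, ← Finset.mul_sum, e] at hs
    linarith

/-- **Modes and tails of words all of whose regions are rings.** -/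
theorem rest_rings (hb : ClassW b) (hA : AllRing b) (hL : Loc b zs) :
    ModeOk0 b zs (wpar100 b zs) ∧ TailOkM b zs (wpar100 b zs) (nbR b) := by
  constructor
  · intro z p hz hp
    have hz' : Adm (wdat (tyW b) b) (wpar100 b zs) zs ∅ (nbR b ∅) z p := by
      rw [nbR_empty]
      exact hz
    obtain ⟨h1, h2⟩ := clean_rings hb hA hL hz' (Or.inr hp)
    exact ⟨_, h1, h2⟩
  · intro R hR z p hz
    obtain ⟨h1, h2⟩ := clean_rings hb hA hL hz (Or.inl hR)
    refine ⟨∅, tzM zs R z p, 0, Finset.ssubset_iff_subset_ne.mpr ⟨Finset.empty_subset _, hR.symm⟩, ?_, ?_⟩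
    · rw [nbR_empty]
      exact h1
    · simpa using h2

/-- the domination of words all of whose regions are rings from the main paths -/
theorem domQ_rings (hb : ClassW b) (hA : AllRing b) (hL : Loc b zs) (hP : MainPartsS b zs) :
    DomQ b zs := by
  obtain ⟨h1, h2⟩ := rest_rings hb hA hL
  refine ⟨hP, fun _ => 100, fun _ => 100, nbR b, fun i => ⟨by norm_num, by norm_num⟩, nbR_empty,
    fun R i hi => (mem_nbR_inl R i).mpr hi, h1, Or.inr h2⟩

end SR

end Pool.Agent.Work.MP_b30479_gt.G2
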