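import Pool.Agent.Work.MP_b30479_gt.G2.MPFoc

/-!
# Domination on the main paths, sum form

At a hinge only the sum of the horizontal derivatives of the two adjacent runs has to be pushed
back.
-/

namespace Pool.Agent.Work.MP_b30479_gt.G2

open Finset VOL Filter Topology

section

variable {M : ℕ} {t : Fin (M + 1) → Typ} {b : Fin (M + 1) → ℤ}
variable {P : Par (DD t)} {zs : DD t ⊕ ZZ t → ℂ} {y : DD t ⊕ ZZ t → ℝ}

/-- **Push-back at the hinge `h`, sum form**: if the displacement of the hinge `h` is the largest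
one, then the sum of the horizontal derivatives of the two runs has the right sign. -/
def PushS (t : Fin (M + 1) → Typ) (b : Fin (M + 1) → ℤ) (P : Par (DD t))
    (zs : DD t ⊕ ZZ t → ℂ) (y : DD t ⊕ ZZ t → ℝ) (h : Fin M) : Prop :=
  ((zs (.inl (.inl h))).re < y (.inl (.inl h)) →
    (∀ k : Fin M, |gh (y (.inl (.inl k))) - gh (zs (.inl (.inl k))).re| ≤
      gh (y (.inl (.inl h))) - gh (zs (.inl (.inl h))).re) →
    rside t b h.castSucc 2 0 (xx t h.castSucc (P.pth zs y)) +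
      rside t b h.succ 0 0 (xx t h.succ (P.pth zs y)) < 0) ∧
  (y (.inl (.inl h)) < (zs (.inl (.inl h))).re →
    (∀ k : Fin M, |gh (y (.inl (.inl k))) - gh (zs (.inl (.inl k))).re| ≤
      gh (zs (.inl (.inl h))).re - gh (y (.inl (.inl h)))) →
    0 < rside t b h.castSucc 2 0 (xx t h.castSucc (P.pth zs y)) +
      rside t b h.succ 0 0 (xx t h.succ (P.pth zs y)))

/-- **Push-back of the run `i` in the hinge slot `p` with slacks** `f` (upwards) and `g`
(downwards), functions of the displacement in the gauge. `Push'` is the case `f = g = 0`. -/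
def PushQ (t : Fin (M + 1) → Typ) (b : Fin (M + 1) → ℤ) (i : Fin (M + 1)) (p q : Fin 3)
    (X Xs : Fin 3 → ℂ) (f g : ℝ → ℝ) : Prop :=
  ((Xs p).re < (X p).re → |gh (X q).re - gh (Xs q).re| ≤ gh (X p).re - gh (Xs p).re →
    rside t b i p 0 X < rside t b i p 0 Xs + f (gh (X p).re - gh (Xs p).re)) ∧
  ((X p).re < (Xs p).re → |gh (X q).re - gh (Xs q).re| ≤ gh (Xs p).re - gh (X p).re →
    rside t b i p 0 Xs < rside t b i p 0 X + g (gh (Xs p).re - gh (X p).re))

theorem Push'.q {i : Fin (M + 1)} {p q : Fin 3} {X Xs : Fin 3 → ℂ}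
    (h : Push' t b i p q X Xs) {f g : ℝ → ℝ} (hf : ∀ m, 0 < m → 0 ≤ f m)
    (hg : ∀ m, 0 < m → 0 ≤ g m) (h0 : (X p).re ∈ Set.Ioo (0 : ℝ) 1)
    (h1 : (Xs p).re ∈ Set.Ioo (0 : ℝ) 1) : PushQ t b i p q X Xs f g := by
  refine ⟨fun a c => ?_, fun a c => ?_⟩
  · have := hf _ (sub_pos.2 (strictMonoOn_gh h1 h0 a))
    linarith [h.1 a c]
  · have := hg _ (sub_pos.2 (strictMonoOn_gh h0 h1 a))
    linarith [h.2 a c]

/-- the sum of the two sides at the saddle vanishes -/
theorem side_sum_zero (hin : ∀ k, (wdat t b).form k zs ∈ strip)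
    (hcrit : ∀ i, (wdat t b).dT zs i = 0) (h : Fin M) :
    rside t b h.castSucc 2 0 (xx t h.castSucc zs) + rside t b h.succ 0 0 (xx t h.succ zs) = 0 := by
  rw [← rside_of_hinge, zero_mul, add_zero]
  exact DV_crit _ hin hcrit _

/-- the displacements of the hinges of a run are bounded by the largest one -/
theorem gauge_le (P : Par (DD t)) (zs : DD t ⊕ ZZ t → ℂ) (y : DD t ⊕ ZZ t → ℝ) {R : ℝ}
    (hR : 0 ≤ R) (hj : ∀ k : Fin M, |gh (y (.inl (.inl k))) - gh (zs (.inl (.inl k))).re| ≤ R)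
    (i : Fin (M + 1)) :
    |gh (xx t i (P.pth zs y) 0).re - gh (xx t i zs 0).re| ≤ R ∧
      |gh (xx t i (P.pth zs y) 2).re - gh (xx t i zs 2).re| ≤ R := by
  constructor
  · rcases Fin.eq_zero_or_eq_succ i with h | ⟨h, rfl⟩
    · subst h
      rw [xx_left_zero, xx_left_zero, sub_self, abs_zero]
      exact hR
    · rw [xx_left, xx_left, P.pth_eq, P.pp_re]
      exact hj h
  · rcases Fin.eq_castSucc_or_eq_last i with ⟨h, rfl⟩ | h
    · rw [xx_right, xx_right, P.pth_eq, P.pp_re]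
      exact hj h
    · subst h
      rw [xx_right_last, xx_right_last, sub_self, abs_zero]
      exact hR

/-- **The sum form from the two runs, with slacks which cancel.** -/
theorem PushS.of_q (hin : ∀ k, (wdat t b).form k zs ∈ strip)
    (hcrit : ∀ i, (wdat t b).dT zs i = 0) {h : Fin M} {f g f' g' : ℝ → ℝ}
    (h1 : PushQ t b h.castSucc 2 0 (xx t h.castSucc (P.pth zs y)) (xx t h.castSucc zs) f g)
    (h2 : PushQ t b h.succ 0 2 (xx t h.succ (P.pth zs y)) (xx t h.succ zs) f' g')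
    (hf : f (gh (y (.inl (.inl h))) - gh (zs (.inl (.inl h))).re) +
      f' (gh (y (.inl (.inl h))) - gh (zs (.inl (.inl h))).re) ≤ 0)
    (hg : g (gh (zs (.inl (.inl h))).re - gh (y (.inl (.inl h)))) +
      g' (gh (zs (.inl (.inl h))).re - gh (y (.inl (.inl h)))) ≤ 0) :
    PushS t b P zs y h := by
  have e1 : (xx t h.castSucc (P.pth zs y) 2).re = y (.inl (.inl h)) := by
    rw [xx_right, P.pth_eq, P.pp_re]
  have e2 : (xx t h.succ (P.pth zs y) 0).re = y (.inl (.inl h)) := by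
    rw [xx_left, P.pth_eq, P.pp_re]
  have e3 : (xx t h.castSucc zs 2) = zs (.inl (.inl h)) := xx_right t h zs
  have e4 : (xx t h.succ zs 0) = zs (.inl (.inl h)) := xx_left t h zs
  have hs := side_sum_zero hin hcrit h
  refine ⟨fun hlt hj => ?_, fun hlt hj => ?_⟩
  · have hR := (abs_nonneg _).trans (hj h)
    have hg := gauge_le P zs y hR hj
    have l1 := h1.1 (by rw [e1, e3]; exact hlt) (by rw [e1, e3]; exact (hg h.castSucc).1)
    have l2 := h2.1 (by rw [e2, e4]; exact hlt) (by rw [e2, e4]; exact (hg h.succ).2)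
    rw [e1, e3] at l1
    rw [e2, e4] at l2
    linarith
  · have hR := (abs_nonneg _).trans (hj h)
    have hg := gauge_le P zs y hR hj
    have l1 := h1.2 (by rw [e1, e3]; exact hlt) (by rw [e1, e3]; exact (hg h.castSucc).1)
    have l2 := h2.2 (by rw [e2, e4]; exact hlt) (by rw [e2, e4]; exact (hg h.succ).2)
    rw [e1, e3] at l1
    rw [e2, e4] at l2
    linarith

/-- the sum form from the push-back of both runs -/
theorem PushS.of_push (hin : ∀ k, (wdat t b).form k zs ∈ strip)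
    (hcrit : ∀ i, (wdat t b).dT zs i = 0) {h : Fin M}
    (h1 : Push' t b h.castSucc 2 0 (xx t h.castSucc (P.pth zs y)) (xx t h.castSucc zs))
    (h2 : Push' t b h.succ 0 2 (xx t h.succ (P.pth zs y)) (xx t h.succ zs)) :
    PushS t b P zs y h := by
  refine PushS.of_q (f := fun _ => 0) (g := fun _ => 0) (f' := fun _ => 0) (g' := fun _ => 0)
    hin hcrit ⟨fun a c => ?_, fun a c => ?_⟩ ⟨fun a c => ?_, fun a c => ?_⟩ (by simp) (by simp)
  · rw [add_zero]; exact h1.1 a c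
  · rw [add_zero]; exact h1.2 a c
  · rw [add_zero]; exact h2.1 a c
  · rw [add_zero]; exact h2.2 a c

/-- **Domination on the product of the main paths from local hypotheses, sum form.** -/
theorem dom_of_pushS (hS : Std t P)
    (hone : ∀ h : Fin M, t h.castSucc = .one → t h.succ = .one →
      sgb (b h.castSucc) + sgb (b h.succ) = 0)
    (hD : ∀ i, P.cl i < (zs (.inl i)).re ∧ (zs (.inl i)).re < P.XM i - P.cr i)
    (hZ : ∀ v, |(zs (.inr v)).re| < 1 / 4)
    (hring : ∀ y, IsMx (wdat t b) P zs y → ∀ v : ZZ t, |y (.inr v)| < 1 / 2)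
    (hcap : ∀ y, IsMx (wdat t b) P zs y → (∀ h : Fin M, 0 < y (.inl (.inl h))) →
      ∀ h : Fin M, P.cl (.inl h) ≤ y (.inl (.inl h)) ∧
        y (.inl (.inl h)) ≤ P.XM (.inl h) - P.cr (.inl h))
    (hinner : ∀ y, IsMx (wdat t b) P zs y →
      (∀ h : Fin M, y (.inl (.inl h)) = (zs (.inl (.inl h))).re) → ∀ j, y j = (zs j).re)
    (hpush : ∀ y, IsMx (wdat t b) P zs y → (∀ h : Fin M, P.cl (.inl h) ≤ y (.inl (.inl h)) ∧
        y (.inl (.inl h)) ≤ P.XM (.inl h) - P.cr (.inl h)) → ∀ h : Fin M, PushS t b P zs y h)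
    {x : DD t ⊕ ZZ t → ℝ} (hx : x ∈ P.box (ZZ t)) (hne : P.pth zs x ≠ zs) :
    (wdat t b).V (P.pth zs x) < (wdat t b).V zs := by
  have hP := hS.good
  have hXM : ∀ i, 0 < P.cr i := fun i => (hP i).2.1
  have hXM' : ∀ i, P.XM i ≤ 1 := fun i => (hS.XM i).le
  have hJ : ∀ j ∈ Set.range (fun h : Fin M => (Sum.inl (Sum.inl h) : DD t ⊕ ZZ t)),
      ∃ h : Fin M, j = .inl (.inl h) := by
    rintro j ⟨h, rfl⟩
    exact ⟨h, rfl⟩
  have hcap1 : ∀ y, IsMx (wdat t b) P zs y → (∀ i ∈ Set.range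
      (fun h : Fin M => (Sum.inl (Sum.inl h) : DD t ⊕ ZZ t)), plo (DD t) (ZZ t) i < y i) →
      ∀ h : Fin M, P.cl (.inl h) ≤ y (.inl (.inl h)) ∧
        y (.inl (.inl h)) ≤ P.XM (.inl h) - P.cr (.inl h) :=
    fun y hy hpos => hcap y hy fun h => hpos _ ⟨h, rfl⟩
  refine path_dom (wdat t b) hP hD hZ (Set.range fun h : Fin M => (Sum.inl (Sum.inl h) : DD t ⊕ ZZ t))
    (Set.range fun h : Fin M => (Sum.inl (Sum.inl h) : DD t ⊕ ZZ t)) (g := fun _ => gh)
    (C := fun _ => Set.Ioo 0 1) (fun j _ => strictMonoOn_gh) ?_ ?_ ?_ ?_ ?_ ?_ hx hne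
  · intro y hy hpos j hj
    obtain ⟨h, rfl⟩ := hJ j hj
    exact ⟨hpos _ hj, hy.lt_one hS _⟩
  · intro j hj
    obtain ⟨h, rfl⟩ := hJ j hj
    have h1 := hD (.inl h)
    exact ⟨(hP (.inl h)).1.trans h1.1, by linarith [h1.2, hXM (.inl h), hXM' (.inl h)]⟩
  · intro y hy j hj hy0
    obtain ⟨h, rfl⟩ := hJ j hj
    exact wall_hinge t b hS.std hone hP zs hy.1 (fun j => hy.lt_one hS j) (hring y hy) h hy0
  · intro y hy hpos hj
    exact hinner y hy fun h => hj _ ⟨h, rfl⟩
  · intro y hy hpos i hi hlt hj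
    obtain ⟨h, rfl⟩ := hJ i hi
    have hc := hcap1 y hy hpos
    have hsl : P.sL zs (.inl (.inl h)) (y (.inl (.inl h))) = 0 :=
      sL_flat zs _ ((hD (.inl h)).1.trans hlt) (hc h).2
    have h0 : 0 < y (.inl (.inl h)) := (hP (.inl h)).1.trans_le (hc h).1
    have l := (hpush y hy hc h).1 hlt fun k => hj _ ⟨k, rfl⟩
    refine ⟨forms_hinge t b (hy.rfac_left hS h h0) (hy.rfac_right hS h h0),
      fun hcon => absurd hsl hcon, ?_⟩
    rw [hsl, rside_of_hinge]
    exact l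
  · intro y hy hpos i hi hlt hj
    obtain ⟨h, rfl⟩ := hJ i hi
    have hc := hcap1 y hy hpos
    have hsl : P.sR zs (.inl (.inl h)) (y (.inl (.inl h))) = 0 :=
      sR_flat zs _ (hc h).1 (hlt.trans (hD (.inl h)).2)
    have h0 : 0 < y (.inl (.inl h)) := (hP (.inl h)).1.trans_le (hc h).1
    have l := (hpush y hy hc h).2 hlt fun k => hj _ ⟨k, rfl⟩
    refine ⟨forms_hinge t b (hy.rfac_left hS h h0) (hy.rfac_right hS h h0),
      fun hcon => absurd hsl hcon, ?_⟩
    rw [hsl, rside_of_hinge]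
    exact l

end

end Pool.Agent.Work.MP_b30479_gt.G2
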