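import Pool.Agent.Work.MP_b30479_gt.G2.WMain
import Pool.Agent.Work.MP_b30479_gt.G2.MPSum

/-!
# Domination on the main paths from its parts, sum form of the push-back
-/

namespace Pool.Agent.Work.MP_b30479_gt.G2

open Finset VOL Filter Topology

namespace SR

variable {M : ℕ} {b : Fin (M + 1) → ℤ} {zs : DD (tyW b) ⊕ ZZ (tyW b) → ℂ}

/-- **The parts of the argument on the main paths**, sum form of the push-back. -/
structure MainPartsS (b : Fin (M + 1) → ℤ) (zs : DD (tyW b) ⊕ ZZ (tyW b) → ℂ) : Prop where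
  /-- the ring variables are not at the ends of their paths -/
  ring : ∀ y, Mx b zs y → ∀ v : ZZ (tyW b), |y (.inr v)| < 1 / 2
  /-- the left rounds -/
  left : ∀ y, Mx b zs y → (∀ h : Fin M, 0 < y (.inl (.inl h))) → ∀ h : Fin M,
    wcl b h ≤ y (.inl (.inl h))
  /-- the right rounds -/
  right : ∀ y, Mx b zs y → (∀ h : Fin M, wcl b h ≤ y (.inl (.inl h))) → ∀ h : Fin M,
    y (.inl (.inl h)) ≤ wXM b h - wcr b h
  /-- uniqueness of the inner variables -/
  mid : ∀ y, Mx b zs y → (∀ h : Fin M, y (.inl (.inl h)) = (zs (.inl (.inl h))).re) →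
    ∀ m : {i : Fin (M + 1) // (tyW b i).isMid = true}, y (.inl (.inr m)) = (zs (.inl (.inr m))).re
  rin : ∀ y, Mx b zs y → (∀ h : Fin M, y (.inl (.inl h)) = (zs (.inl (.inl h))).re) →
    ∀ v : ZZ (tyW b), y (.inr v) = (zs (.inr v)).re
  /-- push-back, sum form -/
  push : ∀ y, Mx b zs y → Flat b y → ∀ h : Fin M, PushS (tyW b) b (wpar b zs) zs y h

/-- the sum form follows from the push-back of both runs -/
theorem MainParts.toS (hC : Crit b zs) (hP : MainParts b zs) : MainPartsS b zs where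
  ring := hP.ring
  left := hP.left
  right := hP.right
  mid := hP.mid
  rin := hP.rin
  push y hy hf h := by
    obtain ⟨h1, h2⟩ := push_hinge h fun i p j A => hP.push y hy hf A
    exact PushS.of_push hC.inn hC.dT h1 h2

/-- **Domination on the main paths.** -/
theorem MainPartsS.dom (hb : ClassW b) (hL : Loc b zs) (hC : Crit b zs) (hP : MainPartsS b zs)
    (z : DD (tyW b) ⊕ ZZ (tyW b) → ℂ)
    (hz : Adm (wdat (tyW b) b) (wpar b zs) zs ∅ ∅ z 0) (hne : z ≠ zs) :
    (wdat (tyW b) b).V z < ((wdat (tyW b) b).T zs).re := by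
  refine dom_paths (wpar_hu b zs) hC.inn ?_ hz hne
  intro x hx hx'
  refine dom_of_pushS (std_wpar b zs) ?_ hL.flatD hL.flatZ hP.ring ?_ ?_ ?_ hx hx'
  · intro h h1 h2
    exact tyW_one b hb h h1 h2
  · intro y hy hpos h
    exact ⟨hP.left y hy hpos h, hP.right y hy (hP.left y hy hpos) h⟩
  · intro y hy hh j
    rcases j with (h | m) | v
    · exact hh h
    · exact hP.mid y hy hh m
    · exact hP.rin y hy hh v
  · intro y hy hf h
    exact hP.push y hy hf h

/-- **The domination.** -/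
theorem MainPartsS.all {nb : Finset (DD (tyW b)) → Finset (DD (tyW b) ⊕ ZZ (tyW b))}
    (hb : ClassW b) (hL : Loc b zs) (hC : Crit b zs) (hP : MainPartsS b zs) (hnb : nb ∅ = ∅)
    (hmode : ∀ z p, Adm (wdat (tyW b) b) (wpar b zs) zs ∅ ∅ z p → p ≠ 0 → ∃ z',
      Adm (wdat (tyW b) b) (wpar b zs) zs ∅ ∅ z' 0 ∧
      (wdat (tyW b) b).V z - 2 * Real.pi * ∑ i, p i < (wdat (tyW b) b).V z')
    (htail : ∀ R : Finset (DD (tyW b)), R ≠ ∅ → ∀ z p,
      Adm (wdat (tyW b) b) (wpar b zs) zs R (nb R) z p →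
      ∃ (R' : Finset (DD (tyW b))) (z' : DD (tyW b) ⊕ ZZ (tyW b) → ℂ) (p' : DD (tyW b) → ℝ),
        R' ⊂ R ∧ Adm (wdat (tyW b) b) (wpar b zs) zs R' (nb R') z' p' ∧
        (wdat (tyW b) b).V z - 2 * Real.pi * ∑ i, p i <
          (wdat (tyW b) b).V z' - 2 * Real.pi * ∑ i, p' i) :
    ∀ R : Finset (DD (tyW b)), (∀ i ∈ R, (wpar b zs).XM i < 1) →
      ∀ (z : DD (tyW b) ⊕ ZZ (tyW b) → ℂ) (p : DD (tyW b) → ℝ),
      Adm (wdat (tyW b) b) (wpar b zs) zs R (nb R) z p → (R = ∅ → p = 0 → z ≠ zs) →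
      (wdat (tyW b) b).V z - 2 * Real.pi * ∑ i, p i < ((wdat (tyW b) b).T zs).re :=
  dom_of_parts hnb (hP.dom hb hL hC) (V_eq_re_T _ hC.inn).le hmode
    fun R _ hR z p hz => htail R hR z p hz

end SR

end Pool.Agent.Work.MP_b30479_gt.G2
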