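import Pool.Agent.Work.MP_b30479_gt.G2.RngUr
import Pool.Agent.Work.MP_b30479_gt.G2.GE
import Pool.Agent.Work.MP_b30479_gt.G2.RngO
import Pool.Agent.Work.NumI.Leaf

/-!
# Ring sides: left ramps, ring variable near the end of its path
-/

namespace Pool.Agent.Work.MP_b30479_gt.G2

open Finset VOL Filter Topology
open NumU (uu uu_neg uu_add_one uu_one_sub UU_uu)

variable {x t σ η c a b s ρ T θ y K κ m l : ℝ} {w w' ζ : ℂ} {k k' : RKe}

/-- the logarithmic part of the derivative in the ring variable -/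
theorem LLp_ge (hC2 : 0 < Real.cosh (2 * Real.pi * (t - η)) - Real.cos (2 * Real.pi * (x - s)))
    (hN : 0 ≤ Real.sin (2 * Real.pi * s) * Real.sin (2 * Real.pi * x) +
      Real.sinh (2 * Real.pi * t) * Real.sinh (2 * Real.pi * η)) :
    0 < Real.cosh (2 * Real.pi * t) * Real.cosh (2 * Real.pi * η) -
      Real.cos (2 * Real.pi * s) * Real.cos (2 * Real.pi * x) ∧
    (Real.sin (2 * Real.pi * s) * Real.sin (2 * Real.pi * x) +
      Real.sinh (2 * Real.pi * t) * Real.sinh (2 * Real.pi * η)) /
    (Real.cosh (2 * Real.pi * t) * Real.cosh (2 * Real.pi * η) -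
      Real.cos (2 * Real.pi * s) * Real.cos (2 * Real.pi * x)) ≤
    LL ⟨x + s, t + η⟩ - LL ⟨x - s, t - η⟩ := by
  set C1 := Real.cosh (2 * Real.pi * (t + η)) - Real.cos (2 * Real.pi * (x + s)) with hC1
  set C2 := Real.cosh (2 * Real.pi * (t - η)) - Real.cos (2 * Real.pi * (x - s)) with hC2'
  set N := Real.sin (2 * Real.pi * s) * Real.sin (2 * Real.pi * x) +
      Real.sinh (2 * Real.pi * t) * Real.sinh (2 * Real.pi * η) with hNN
  set D0 := Real.cosh (2 * Real.pi * t) * Real.cosh (2 * Real.pi * η) -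
      Real.cos (2 * Real.pi * s) * Real.cos (2 * Real.pi * x) with hD0
  have hdiff : C1 - C2 = 2 * N := by
    rw [hC1, hC2', hNN, mul_add, mul_sub, mul_add, mul_sub, Real.cosh_add, Real.cosh_sub, Real.cos_add,
      Real.cos_sub]
    ring
  have hsum : C1 + C2 = 2 * D0 := by
    rw [hC1, hC2', hD0, mul_add, mul_sub, mul_add, mul_sub, Real.cosh_add, Real.cosh_sub, Real.cos_add,
      Real.cos_sub]
    ring
  have hC1p : 0 < C1 := by linarith only [hC2, hN, hdiff]
  refine ⟨by linarith only [hC2, hN, hdiff, hsum], ?_⟩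
  have hLL : LL ⟨x + s, t + η⟩ - LL ⟨x - s, t - η⟩ = Real.log (C1 / C2) / 2 := by
    rw [LL_eq', LL_eq']
    simp only
    rw [show 2 * Real.cosh (2 * Real.pi * (t + η)) - 2 * Real.cos (2 * Real.pi * (x + s)) = 2 * C1 by
      rw [hC1]; ring, show 2 * Real.cosh (2 * Real.pi * (t - η)) - 2 * Real.cos (2 * Real.pi * (x - s)) =
      2 * C2 by rw [hC2']; ring, Real.log_mul two_ne_zero hC1p.ne', Real.log_mul two_ne_zero hC2.ne',
      Real.log_div hC1p.ne' hC2.ne']
    ring
  rw [hLL]
  have h1 := Real.le_log_one_add_of_nonneg (x := (C1 - C2) / C2) (by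
    apply div_nonneg _ hC2.le
    linarith only [hN, hdiff])
  have e1 : 1 + (C1 - C2) / C2 = C1 / C2 := by field_simp; ring
  have e2 : 2 * ((C1 - C2) / C2) / ((C1 - C2) / C2 + 2) = 2 * (N / D0) := by
    have hs2 : C1 + C2 ≠ 0 := by linarith only [hC2, hN, hdiff]
    have e3 : (C1 - C2) / C2 + 2 = (C1 + C2) / C2 := by field_simp; ring
    rw [e3, show 2 * ((C1 - C2) / C2) / ((C1 + C2) / C2) = 2 * ((C1 - C2) / (C1 + C2)) by
      field_simp, hdiff, hsum, mul_div_mul_left _ _ two_ne_zero]
  rw [e1, e2] at h1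
  linarith only [h1]

theorem LLp_gt (hC2 : 0 < Real.cosh (2 * Real.pi * (t - η)) - Real.cos (2 * Real.pi * (x - s)))
    (hK : 0 ≤ K) (h : K * (Real.cosh (2 * Real.pi * t) * Real.cosh (2 * Real.pi * η) -
      Real.cos (2 * Real.pi * s) * Real.cos (2 * Real.pi * x)) <
      Real.sin (2 * Real.pi * s) * Real.sin (2 * Real.pi * x) +
      Real.sinh (2 * Real.pi * t) * Real.sinh (2 * Real.pi * η)) :
    K < LL ⟨x + s, t + η⟩ - LL ⟨x - s, t - η⟩ := by
  have hD : 0 ≤ Real.cosh (2 * Real.pi * t) * Real.cosh (2 * Real.pi * η) -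
      Real.cos (2 * Real.pi * s) * Real.cos (2 * Real.pi * x) := by
    have h1 := Real.one_le_cosh (2 * Real.pi * t)
    have h2 := Real.one_le_cosh (2 * Real.pi * η)
    have h3 : Real.cos (2 * Real.pi * s) * Real.cos (2 * Real.pi * x) ≤ 1 := by
      have := abs_le.1 (show |Real.cos (2 * Real.pi * s) * Real.cos (2 * Real.pi * x)| ≤ 1 by
        rw [abs_mul]
        exact mul_le_one₀ (Real.abs_cos_le_one _) (abs_nonneg _) (Real.abs_cos_le_one _))
      exact this.2
    nlinarith only [h1, h2, h3]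
  obtain ⟨h1, h2⟩ := LLp_ge hC2 (le_trans (mul_nonneg hK hD) h.le)
  refine lt_of_lt_of_le ?_ h2
  rwa [lt_div_iff₀ h1]

/-- convexity of `cosh` -/
theorem cosh_mul_le (hl : 0 ≤ l) (hl1 : l ≤ 1) (z : ℝ) : Real.cosh (l * z) ≤ 1 + l * (Real.cosh z - 1) := by
  have key : ∀ z : ℝ, Real.exp (l * z) ≤ l * Real.exp z + (1 - l) := by
    intro z
    have h := convexOn_exp.2 (Set.mem_univ z) (Set.mem_univ (0 : ℝ)) hl (sub_nonneg.mpr hl1)
      (by ring)
    simpa using h
  have h1 := key z
  have h2 := key (-z)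
  rw [Real.cosh_eq, Real.cosh_eq, show -(l * z) = l * -z by ring]
  linarith only [h1, h2]

theorem mul_cos_le (hl : 0 ≤ l) (hl1 : l ≤ 1) (ha : 0 ≤ a) (ha1 : a ≤ Real.pi / 2) :
    1 - l * (1 - Real.cos a) ≤ Real.cos (l * a) := by
  have h := strictConcaveOn_cos_Icc.concaveOn.2 (show a ∈ Set.Icc (-(Real.pi / 2)) (Real.pi / 2) from
    ⟨by linarith only [ha, ha1, Real.pi_pos], ha1⟩) (show (0 : ℝ) ∈ Set.Icc (-(Real.pi / 2)) (Real.pi / 2) from
    ⟨by linarith only [ha, ha1, Real.pi_pos], by linarith only [ha, ha1, Real.pi_pos]⟩) hl (sub_nonneg.mpr hl1) (by ring)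
  simp only [smul_eq_mul, mul_zero, add_zero, Real.cos_zero, mul_one] at h
  linarith only [h]

theorem sin_s_ge (hs : 0 ≤ s) (hs' : s ≤ 1 / 16) : 612 / 100 * s ≤ Real.sin (2 * Real.pi * s) := by
  have hpi := Real.pi_pos
  have h1 := mul_sin_le (l := 16 * s) (a := Real.pi / 8) (by linarith only [hs]) (by linarith only [hs']) (by positivity)
    (by linarith only [hpi])
  rw [show 16 * s * (Real.pi / 8) = 2 * Real.pi * s by ring] at h1
  have h2 := mul_le_mul_of_nonneg_left rowU3.1 (show 0 ≤ 16 * s by linarith only [hs])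
  linarith only [hs, h1, h2]

/-- **A**, height `≤ 0`: the derivative is large unless `x < s / 4` -/
theorem negA (hs : 0 < s) (hs' : s ≤ 1 / 16) (hx : s / 4 ≤ x) (hx' : x ≤ 13 / 100) (hη0 : 0 < η)
    (hη : η ≤ 144 / 100 * s ^ 2) (ht : t ≤ 0) (ht1 : -t ≤ 131 / 100 * x) (ht2 : -t ≤ 131 / 1000) :
    45 / 10 * s < LL ⟨x + s, t + η⟩ - LL ⟨x - s, t - η⟩ := by
  have hpi := Real.pi_pos
  have hpi4 := Real.pi_lt_d4
  have hx0 : 0 < x := by linarith only [hs, hx]
  have hC2 : 0 < Real.cosh (2 * Real.pi * (t - η)) - Real.cos (2 * Real.pi * (x - s)) :=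
    cosh_sub_cos_pos (u := ⟨x - s, t - η⟩) (sin_ne_of_im (by simp only; linarith only [hη0, ht]))
  refine LLp_gt hC2 (by positivity) ?_
  obtain ⟨r1, r2, r3, r4, -, -⟩ := rowU4
  obtain ⟨-, q2, q3, q4⟩ := rowU3
  -- `η ≤ (9 / 1600) (16 s)`
  have e1 : η ≤ 16 * s * (9 / 1600) := by nlinarith only [hη, hs, hs']
  have hSs := sin_s_ge hs.le hs'
  have hA0 : 0 ≤ Real.sin (2 * Real.pi * x) := by
    apply Real.sin_nonneg_of_nonneg_of_le_pi
    · positivity
    · nlinarith only [hs, hpi, hs', hx']
  have hB0 : 0 ≤ Real.sinh (2 * Real.pi * -t) := by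
    rw [Real.sinh_nonneg_iff]
    have : 0 ≤ -t := by linarith only [ht]
    positivity
  have hSη : Real.sinh (2 * Real.pi * η) ≤ 57 / 100 * s := by
    have h1 : Real.sinh (2 * Real.pi * η) ≤ Real.sinh (16 * s * (2 * Real.pi * (9 / 1600))) := by
      rw [Real.sinh_le_sinh]
      nlinarith only [hs, hs', hpi, e1]
    have h2 := sinh_mul_le (l := 16 * s) (z := 2 * Real.pi * (9 / 1600)) (by linarith only [hη0, e1]) (by linarith only [hs'])
      (by positivity)
    have h3 := mul_le_mul_of_nonneg_left r1 (show 0 ≤ 16 * s by linarith only [hη0, e1])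
    linarith only [hη0, e1, h1, h2, h3]
  have hN : s * (612 / 100 * Real.sin (2 * Real.pi * x) - 57 / 100 * Real.sinh (2 * Real.pi * -t)) ≤
      Real.sin (2 * Real.pi * s) * Real.sin (2 * Real.pi * x) +
      Real.sinh (2 * Real.pi * t) * Real.sinh (2 * Real.pi * η) := by
    have h1 := mul_le_mul_of_nonneg_right hSs hA0
    have h2 := mul_le_mul_of_nonneg_left hSη hB0
    have h3 : Real.sinh (2 * Real.pi * t) = -Real.sinh (2 * Real.pi * -t) := by
      rw [mul_neg, Real.sinh_neg, neg_neg]
    rw [h3]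
    linarith only [h1, h2]
  refine lt_of_lt_of_le ?_ hN
  rw [show 45 / 10 * s = s * (9 / 2) by ring, mul_assoc]
  apply mul_lt_mul_of_pos_left _ hs
  have hct : Real.cosh (2 * Real.pi * t) = Real.cosh (2 * Real.pi * -t) := by
    rw [mul_neg, Real.cosh_neg]
  rw [hct]
  rcases le_total (1 / 64) x with h64 | h64
  · refine lt_of_le_of_lt ?_ (rowU1 h64 hx' (by linarith only [ht] : 0 ≤ -t) ht2 ht1)
    have h1 : Real.cosh (2 * Real.pi * η) ≤ 10007 / 10000 := by
      refine le_trans ?_ r2
      rw [Real.cosh_le_cosh, abs_of_pos (by positivity), abs_of_pos (by positivity)]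
      nlinarith only [hs, hs', hpi, e1]
    have h2 : 9238 / 10000 ≤ Real.cos (2 * Real.pi * s) := by
      refine q2.trans ?_
      apply Real.cos_le_cos_of_nonneg_of_le_pi <;> nlinarith only [hs, hpi, hs']
    have h3 : 0 ≤ Real.cos (2 * Real.pi * x) := by
      apply Real.cos_nonneg_of_neg_pi_div_two_le_of_le <;> nlinarith only [hs, hpi, hs', hx, hx']
    have h4 := Real.cosh_pos (2 * Real.pi * -t)
    have h5 := mul_le_mul_of_nonneg_left h1 h4.le
    have h6 := mul_le_mul_of_nonneg_right h2 h3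
    linarith only [h5, h6]
  · -- scaling
    set l := 64 * x with hl
    have l0 : 0 < l := by linarith only [hx, hη0, e1]
    have l1 : l ≤ 1 := by linarith only [h64]
    have k1 : l * (98 / 1000) ≤ Real.sin (2 * Real.pi * x) := by
      have h1 := mul_sin_le (l := l) (a := Real.pi / 32) l0.le l1 (by positivity) (by linarith only [hpi])
      rw [show l * (Real.pi / 32) = 2 * Real.pi * x by rw [hl]; ring] at h1
      have h2 := mul_le_mul_of_nonneg_left q3 l0.le
      linarith only [h1, h2]
    have k2 : Real.sinh (2 * Real.pi * -t) ≤ l * (1290 / 10000) := by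
      have h1 : Real.sinh (2 * Real.pi * -t) ≤ Real.sinh (l * (2 * Real.pi * (131 / 6400))) := by
        rw [Real.sinh_le_sinh, hl]
        nlinarith only [hs, hs', ht1, hpi]
      have h2 := sinh_mul_le (l := l) (z := 2 * Real.pi * (131 / 6400)) l0.le l1 (by positivity)
      have h3 := mul_le_mul_of_nonneg_left r3 l0.le
      linarith only [h1, h2, h3]
    have k3 : Real.cosh (2 * Real.pi * -t) ≤ 1 + l * (84 / 10000) := by
      have h1 : Real.cosh (2 * Real.pi * -t) ≤ Real.cosh (l * (2 * Real.pi * (131 / 6400))) := by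
        rw [Real.cosh_le_cosh, abs_of_nonneg (by have : 0 ≤ -t := by linarith only [ht]
                                                 positivity), abs_of_pos (by positivity), hl]
        nlinarith only [hs, hs', ht1, hpi]
      have h2 := cosh_mul_le l0.le l1 (2 * Real.pi * (131 / 6400))
      have h3 := mul_le_mul_of_nonneg_left r4 l0.le
      linarith only [h1, h2, h3]
    have k4 : Real.cosh (2 * Real.pi * η) ≤ 1 + l * (7 / 10000) := by
      have h1 : Real.cosh (2 * Real.pi * η) ≤ Real.cosh (l * (2 * Real.pi * (9 / 1600))) := by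
        rw [Real.cosh_le_cosh, abs_of_pos (by positivity), abs_of_pos (by positivity), hl]
        nlinarith only [hs, hs', hx, hpi, e1]
      have h2 := cosh_mul_le l0.le l1 (2 * Real.pi * (9 / 1600))
      have h3 := mul_le_mul_of_nonneg_left r2 l0.le
      linarith only [h1, h2, h3]
    have k5 : 1 - l * (762 / 10000) ≤ Real.cos (2 * Real.pi * s) := by
      have h1 := mul_cos_le (l := l) (a := Real.pi / 8) l0.le l1 (by positivity) (by linarith only [hpi])
      have h2 := mul_le_mul_of_nonneg_left q2 l0.le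
      have h3 : Real.cos (l * (Real.pi / 8)) ≤ Real.cos (2 * Real.pi * s) := by
        apply Real.cos_le_cos_of_nonneg_of_le_pi
        · positivity
        · nlinarith only [hs', hpi, hη0, e1, h64]
        · rw [hl]
          nlinarith only [hs, hs', hx, hpi]
      linarith only [h1, h2, h3]
    have k6 : 1 - l * (49 / 10000) ≤ Real.cos (2 * Real.pi * x) := by
      have h1 := mul_cos_le (l := l) (a := Real.pi / 32) l0.le l1 (by positivity) (by linarith only [hpi])
      rw [show l * (Real.pi / 32) = 2 * Real.pi * x by rw [hl]; ring] at h1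
      have h2 := mul_le_mul_of_nonneg_left q4 l0.le
      linarith only [h1, h2]
    have k7 : Real.cosh (2 * Real.pi * -t) * Real.cosh (2 * Real.pi * η) ≤
        (1 + l * (84 / 10000)) * (1 + l * (7 / 10000)) :=
      mul_le_mul k3 k4 (Real.cosh_pos _).le (by positivity)
    have k8 : (1 - l * (762 / 10000)) * (1 - l * (49 / 10000)) ≤
        Real.cos (2 * Real.pi * s) * Real.cos (2 * Real.pi * x) :=
      mul_le_mul k5 k6 (by linarith only [hs', hx', hη0, e1]) (le_trans (by linarith only [hs', hx', hη0, e1]) k5)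
    have k9 : l ^ 2 ≤ l := by nlinarith only [hs, h64, hs', hx]
    nlinarith only [hx, hη0, e1, k1, k2, k7, k8]

/-- **A**, height `≥ 0` -/
theorem posA (hs : 0 < s) (hs' : s ≤ 1 / 16) (hx : s / 4 ≤ x) (hx' : x ≤ 1 / 10) (hη0 : 0 < η)
    (hη : η ≤ 418 / 1000 * s) (ht : 0 ≤ t) (ht1 : t ≤ 56 / 100 * x) (hne : x ≠ s ∨ t ≠ η) :
    55 / 10 * s < LL ⟨x + s, t + η⟩ - LL ⟨x - s, t - η⟩ := by
  have hpi := Real.pi_pos
  have hpi4 := Real.pi_lt_d4
  have hx0 : 0 < x := by linarith only [hx, hη0, hη]
  have hC2 : 0 < Real.cosh (2 * Real.pi * (t - η)) - Real.cos (2 * Real.pi * (x - s)) := by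
    rcases hne with h | h
    · have h1 := Real.one_le_cosh (2 * Real.pi * (t - η))
      have h2 : Real.cos (2 * Real.pi * (x - s)) < 1 := by
        rw [← Real.cos_abs, ← Real.cos_zero]
        have h3 : 0 < |x - s| := abs_pos.mpr (sub_ne_zero.mpr h)
        have h4 : |x - s| ≤ 1 / 2 := by
          rw [abs_le]
          constructor <;> linarith only [hs', hη0, hη, hx0, hx']
        have h5 : |2 * Real.pi * (x - s)| = 2 * Real.pi * |x - s| := by
          rw [abs_mul, abs_of_pos (by positivity)]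
        rw [h5]
        apply Real.cos_lt_cos_of_nonneg_of_le_pi le_rfl
        · nlinarith only [hs', hη0, hη, hpi, h4]
        · positivity
      linarith only [h1, h2]
    · exact cosh_sub_cos_pos (u := ⟨x - s, t - η⟩) (sin_ne_of_im (by
        simp only
        intro hc
        apply h
        linarith only [hc]))
  refine LLp_gt hC2 (by positivity) ?_
  obtain ⟨-, -, -, -, r5, r6⟩ := rowU4
  obtain ⟨-, q2, q3, q4⟩ := rowU3
  have e1 : η ≤ 16 * s * (418 / 16000) := by nlinarith only [hη]
  have hSs := sin_s_ge hs.le hs'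
  have hA0 : 0 ≤ Real.sin (2 * Real.pi * x) := by
    apply Real.sin_nonneg_of_nonneg_of_le_pi
    · positivity
    · nlinarith only [hs, hpi, hs', hx']
  have hN : s * (612 / 100 * Real.sin (2 * Real.pi * x)) ≤
      Real.sin (2 * Real.pi * s) * Real.sin (2 * Real.pi * x) +
      Real.sinh (2 * Real.pi * t) * Real.sinh (2 * Real.pi * η) := by
    have h1 := mul_le_mul_of_nonneg_right hSs hA0
    have h2 : 0 ≤ Real.sinh (2 * Real.pi * t) * Real.sinh (2 * Real.pi * η) := by
      apply mul_nonneg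
      · rw [Real.sinh_nonneg_iff]
        positivity
      · rw [Real.sinh_nonneg_iff]
        positivity
    linarith only [h1, h2]
  refine lt_of_lt_of_le ?_ hN
  rw [show 55 / 10 * s = s * (55 / 10) by ring, mul_assoc]
  apply mul_lt_mul_of_pos_left _ hs
  rcases le_total (1 / 64) x with h64 | h64
  · refine lt_of_le_of_lt ?_ (rowU2 h64 hx')
    have h1 : Real.cosh (2 * Real.pi * η) ≤ 10136 / 10000 := by
      refine le_trans ?_ r5
      rw [Real.cosh_le_cosh, abs_of_pos (by positivity), abs_of_pos (by positivity)]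
      nlinarith only [hs, hs', hpi, hη]
    have h0 : Real.cosh (2 * Real.pi * t) ≤ Real.cosh (2 * Real.pi * (56 / 100 * x)) := by
      rw [Real.cosh_le_cosh, abs_of_nonneg (by positivity), abs_of_pos (by positivity)]
      nlinarith only [hs', hη0, hη, ht1, hpi]
    have h2 : 9238 / 10000 ≤ Real.cos (2 * Real.pi * s) := by
      refine q2.trans ?_
      apply Real.cos_le_cos_of_nonneg_of_le_pi <;> nlinarith only [hs, hpi, hs']
    have h3 : 0 ≤ Real.cos (2 * Real.pi * x) := by
      apply Real.cos_nonneg_of_neg_pi_div_two_le_of_le <;> nlinarith only [hs, hpi, hs', hx, hx']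
    have h5 := mul_le_mul h0 h1 (Real.cosh_pos _).le (Real.cosh_pos _).le
    have h6 := mul_le_mul_of_nonneg_right h2 h3
    linarith only [h5, h6]
  · -- scaling
    set l := 64 * x with hl
    have l0 : 0 < l := by linarith only [hx0]
    have l1 : l ≤ 1 := by linarith only [h64]
    have k1 : l * (98 / 1000) ≤ Real.sin (2 * Real.pi * x) := by
      have h1 := mul_sin_le (l := l) (a := Real.pi / 32) l0.le l1 (by positivity) (by linarith only [hpi])
      rw [show l * (Real.pi / 32) = 2 * Real.pi * x by rw [hl]; ring] at h1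
      have h2 := mul_le_mul_of_nonneg_left q3 l0.le
      linarith only [h1, h2]
    have k3 : Real.cosh (2 * Real.pi * t) ≤ 1 + l * (16 / 10000) := by
      have h1 : Real.cosh (2 * Real.pi * t) ≤ Real.cosh (l * (2 * Real.pi * (56 / 6400))) := by
        rw [Real.cosh_le_cosh, abs_of_nonneg (by positivity), abs_of_pos (by positivity), hl]
        nlinarith only [hs', hη0, hη, ht1, hpi]
      have h2 := cosh_mul_le l0.le l1 (2 * Real.pi * (56 / 6400))
      have h3 := mul_le_mul_of_nonneg_left r6 l0.le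
      linarith only [h1, h2, h3]
    have k4 : Real.cosh (2 * Real.pi * η) ≤ 1 + l * (136 / 10000) := by
      have h1 : Real.cosh (2 * Real.pi * η) ≤ Real.cosh (l * (2 * Real.pi * (418 / 16000))) := by
        rw [Real.cosh_le_cosh, abs_of_pos (by positivity), abs_of_pos (by positivity), hl]
        nlinarith only [hs, hs', hx, hpi, hη]
      have h2 := cosh_mul_le l0.le l1 (2 * Real.pi * (418 / 16000))
      have h3 := mul_le_mul_of_nonneg_left r5 l0.le
      linarith only [h1, h2, h3]
    have k5 : 1 - l * (762 / 10000) ≤ Real.cos (2 * Real.pi * s) := by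
      have h1 := mul_cos_le (l := l) (a := Real.pi / 8) l0.le l1 (by positivity) (by linarith only [hpi])
      have h2 := mul_le_mul_of_nonneg_left q2 l0.le
      have h3 : Real.cos (l * (Real.pi / 8)) ≤ Real.cos (2 * Real.pi * s) := by
        apply Real.cos_le_cos_of_nonneg_of_le_pi
        · positivity
        · nlinarith only [hs, hpi, hs', hx']
        · rw [hl]
          nlinarith only [hs, hs', hx, hpi]
      linarith only [h1, h2, h3]
    have k6 : 1 - l * (49 / 10000) ≤ Real.cos (2 * Real.pi * x) := by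
      have h1 := mul_cos_le (l := l) (a := Real.pi / 32) l0.le l1 (by positivity) (by linarith only [hpi])
      rw [show l * (Real.pi / 32) = 2 * Real.pi * x by rw [hl]; ring] at h1
      have h2 := mul_le_mul_of_nonneg_left q4 l0.le
      linarith only [h1, h2]
    have k7 : Real.cosh (2 * Real.pi * t) * Real.cosh (2 * Real.pi * η) ≤
        (1 + l * (16 / 10000)) * (1 + l * (136 / 10000)) :=
      mul_le_mul k3 k4 (Real.cosh_pos _).le (by positivity)
    have k8 : (1 - l * (762 / 10000)) * (1 - l * (49 / 10000)) ≤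
        Real.cos (2 * Real.pi * s) * Real.cos (2 * Real.pi * x) :=
      mul_le_mul k5 k6 (by linarith only [hx0, h64]) (le_trans (by linarith only [hx0, h64]) k5)
    have k9 : l ^ 2 ≤ l := by nlinarith only [hs, h64, hs', hx]
    nlinarith only [hx0, k1, k7, k8]

end Pool.Agent.Work.MP_b30479_gt.G2
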