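import Pool.Agent.Work.MP_b30479_gt.G2.RngG

/-!
# Ring sides: the value move of the ring variable to `-1/4` for four crossings
-/

namespace Pool.Agent.Work.MP_b30479_gt.G2

open Finset VOL Filter Topology
open NumU (uu uu_neg uu_add_one uu_one_sub UU_uu)

variable {x t σ η c a b s ρ T θ y K κ : ℝ} {w w' : ℂ} {k k' : RKe}

/-! ### small hinges -/

section
open NumI NumI.E

private theorem row0 (h0 : 0 ≤ x) (h1 : x ≤ 5 / 1000) (h2 : 0 ≤ t) (h3 : t ≤ 28 / 10000) :
    2 * Real.cosh (2 * Real.pi * t) - 2 * Real.cos (2 * Real.pi * x) ≤ 1 / 10 := by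
  have h : chk [sub (q 1 10) (sub (mul (q 2 1) (cosh (mul (mul (q 2 1) pi) (var 1))))
      (mul (q 2 1) (cosPi (mul (q 2 1) (var 0)))))] 10
      [V.of 10000 0 50, V.of 10000 0 28] = true := by decide +kernel
  have hp := pos_of_chk (chk2 h (by norm_num) (x := x) (y := t)
    (by norm_num; linarith only [h0]) (by norm_num; linarith only [h1]) (by norm_num; linarith only [h2]) (by norm_num; linarith only [h3]))
  simp only [E.val, NumI.lkR] at hp
  simp only [Int.cast_ofNat, Nat.cast_ofNat, Int.cast_one, Nat.cast_one, div_one] at hp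
  rw [show Real.pi * (2 * x) = 2 * Real.pi * x by ring] at hp
  linarith only [hp]

private theorem row1 (h0 : 0 ≤ x) (h1 : x ≤ 5 / 1000) : Real.cos (2 * Real.pi * (1 / 4 - x)) ≤ 1 / 2 := by
  have h : chk [sub (q 1 2) (cosPi (mul (q 2 1) (sub (q 1 4) (var 0))))] 10
      [V.of 10000 0 50] = true := by decide +kernel
  have hp := pos_of_chk (chk1 h (by norm_num) (x := x)
    (by norm_num; linarith only [h0]) (by norm_num; linarith only [h1]))
  simp only [E.val, NumI.lkR] at hp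
  simp only [Int.cast_ofNat, Nat.cast_ofNat, Int.cast_one, Nat.cast_one, div_one] at hp
  rw [show Real.pi * (2 * (1 / 4 - x)) = 2 * Real.pi * (1 / 4 - x) by ring] at hp
  linarith only [hp]

end

theorem log_tenth : Real.log (1 / 10) ≤ -2 := by
  have h : (2 : ℝ) ≤ Real.log 10 := by
    rw [Real.le_log_iff_exp_le (by norm_num)]
    have h1 := Real.exp_one_lt_d9
    have h2 : Real.exp 2 = Real.exp 1 * Real.exp 1 := by rw [← Real.exp_add]; norm_num
    have h3 := Real.exp_pos 1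
    rw [h2]
    nlinarith only [h1, h3]
  rw [one_div, Real.log_inv]
  linarith only [h]

theorem uu_zero_re (t : ℝ) : uu 0 t = -(Real.pi / 2 * |t|) := by
  have h6 := uu_add_one 0 t
  have h7 := uu_one_sub 0 t
  rw [zero_add] at h6
  rw [sub_zero] at h7
  linarith only [h6, h7]

/-- `uu` near `0` -/
theorem uu_small_le (h0 : 0 ≤ x) (h1 : x ≤ 5 / 1000) (h2 : 0 ≤ t) (h3 : t ≤ 28 / 10000) :
    uu x t ≤ -(Real.pi / 2 * t) - x := by
  have hpi := Real.pi_pos
  have key := anti_one (f := fun s => uu s t + s) (f' := fun s => LL ⟨s, t⟩ + 1) (a := 0) (b := x)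
    0 h0 ((continuous_uu_x t).add continuous_id) (fun s hs0 hs1 _ => by
      refine ⟨(hasDerivAt_uu_x (sin_ne_of_strip ⟨hs0, by simp only; linarith only [h1, hs0, hs1]⟩)).add (hasDerivAt_id s), ?_⟩
      rw [LL_eq']
      simp only
      have h4 := row0 (x := s) (t := t) hs0.le (by linarith only [h1, hs1]) h2 h3
      have h5 := cosh_sub_cos_pos (u := ⟨s, t⟩) (sin_ne_of_strip ⟨hs0, by simp only; linarith only [h1, hs0, hs1]⟩)
      simp only at h5
      have h6 := Real.log_le_log (by linarith only [h5]) h4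
      linarith only [h6, log_tenth])
  simp only [add_zero] at key
  rw [uu_zero_re, abs_of_nonneg h2] at key
  linarith only [key]

theorem YY_ge_neg_half {u : ℂ} (h0 : 0 ≤ u.re) (h1 : u.re ≤ 1) : -(Real.pi / 2) ≤ YY u := by
  have hpi := Real.pi_pos
  rcases lt_trichotomy u.im 0 with h | h | h
  · rw [YY_neg h]
    have := Tr_mono (s := -u.im) (by linarith only [h]) h1
    rw [Tr_one (by linarith only [h])] at this
    linarith only [this]
  · rw [YY_zero h]
    linarith only [hpi]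
  · rw [YY_pos h]
    linarith only [h, h0, Tr_nonneg (s := u.im) (x := u.re) h h0]

theorem LL_nonneg_of {u : ℂ} (h : Real.cos (2 * Real.pi * u.re) ≤ 1 / 2) : 0 ≤ LL u := by
  rw [LL_eq']
  have h1 := Real.one_le_cosh (2 * Real.pi * u.im)
  have := Real.log_nonneg (show 1 ≤ 2 * Real.cosh (2 * Real.pi * u.im) - 2 * Real.cos (2 * Real.pi * u.re) by
    linarith only [h, h1])
  linarith only [this]

/-- the pair of factors near `1/4` and `3/4` -/
theorem pair_ge (h0 : 0 < x) (h1 : x ≤ 5 / 1000) (h2 : 0 ≤ t) (h3 : t ≤ 56 / 100 * x) :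
    -(18 / 10 * x) ≤ uu (x + 1 / 4) (t + ρ) + uu (x + 3 / 4) (t - ρ) := by
  have hpi := Real.pi_pos
  have hpi4 := Real.pi_lt_d4
  set κ := t / x with hκ
  have hκ0 : 0 ≤ κ := by positivity
  have hκ1 : κ ≤ 56 / 100 := by rw [hκ, div_le_iff₀ h0]; exact h3
  have hκx : κ * x = t := by rw [hκ]; field_simp
  set u : ℂ := ⟨1 / 4, ρ⟩ with hu
  set v : ℂ := ⟨3 / 4, -ρ⟩ with hv
  have ure : ∀ s : ℝ, (u + s * (((1 : ℝ) : ℂ) * (1 + κ * Complex.I))) = ⟨1 / 4 + s, ρ + κ * s⟩ := by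
    intro s
    apply Complex.ext <;> simp [hu]
    ring
  have vre : ∀ s : ℝ, (v + s * (((1 : ℝ) : ℂ) * (1 + κ * Complex.I))) = ⟨3 / 4 + s, -ρ + κ * s⟩ := by
    intro s
    apply Complex.ext <;> simp [hv]
    ring
  have hd : ∀ s ∈ Set.Icc (0 : ℝ) x, HasDerivAt (fun s : ℝ =>
      UU (u + s * (((1 : ℝ) : ℂ) * (1 + κ * Complex.I))) +
      UU (v + s * (((1 : ℝ) : ℂ) * (1 + κ * Complex.I))) + 18 / 10 * s)
      (1 * Dq κ (u + s * (((1 : ℝ) : ℂ) * (1 + κ * Complex.I))) +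
      1 * Dq κ (v + s * (((1 : ℝ) : ℂ) * (1 + κ * Complex.I))) + 18 / 10) s := by
    intro s hs
    have a1 := hasDerivAt_UU_q (u := u) (a := 1) (m := κ) (s := s) (by
      rw [ure]
      exact QQm_strip ⟨by simp only; linarith only [h0, h1, hs, hs.1], by simp only; linarith only [h0, h1, hs, hs.2]⟩)
    have a2 := hasDerivAt_UU_q (u := v) (a := 1) (m := κ) (s := s) (by
      rw [vre]
      exact QQm_strip ⟨by simp only; linarith only [h0, h1, hs, hs.1], by simp only; linarith only [h0, h1, hs, hs.2]⟩)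
    have a3 : HasDerivAt (fun s : ℝ => 18 / 10 * s) (18 / 10) s := by
      simpa using (hasDerivAt_id s).const_mul (18 / 10)
    exact (a1.add a2).add a3
  have hm : MonotoneOn (fun s : ℝ =>
      UU (u + s * (((1 : ℝ) : ℂ) * (1 + κ * Complex.I))) +
      UU (v + s * (((1 : ℝ) : ℂ) * (1 + κ * Complex.I))) + 18 / 10 * s) (Set.Icc 0 x) := by
    apply monotoneOn_of_deriv_nonneg (convex_Icc _ _)
    · exact fun s hs => (hd s hs).continuousAt.continuousWithinAt
    · intro s hs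
      rw [interior_Icc] at hs
      exact (hd s ⟨hs.1.le, hs.2.le⟩).differentiableAt.differentiableWithinAt
    · intro s hs
      rw [interior_Icc] at hs
      rw [(hd s ⟨hs.1.le, hs.2.le⟩).deriv, ure, vre]
      have c1 : Real.cos (2 * Real.pi * (1 / 4 + s)) ≤ 1 / 2 := by
        have : Real.cos (2 * Real.pi * (1 / 4 + s)) ≤ 0 := by
          apply Real.cos_nonpos_of_pi_div_two_le_of_le <;> nlinarith only [h0, h1, hpi, hs, hs.1, hs.2]
        linarith only [h0, h1, this]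
      have c2 : Real.cos (2 * Real.pi * (3 / 4 + s)) ≤ 1 / 2 := by
        have : Real.cos (2 * Real.pi * (3 / 4 + s)) = Real.cos (2 * Real.pi * (1 / 4 - s)) := by
          rw [← Real.cos_two_pi_sub]
          congr 1
          ring
        rw [this]
        exact row1 hs.1.le (by linarith only [h1, hs, hs.2])
      have l1 : 0 ≤ LL ⟨1 / 4 + s, ρ + κ * s⟩ := LL_nonneg_of c1
      have l2 : 0 ≤ LL ⟨3 / 4 + s, -ρ + κ * s⟩ := LL_nonneg_of c2
      have y1 : -(Real.pi / 2) ≤ YY ⟨1 / 4 + s, ρ + κ * s⟩ :=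
        YY_ge_neg_half (by simp only; linarith only [h0, h1, hs, hs.1]) (by simp only; linarith only [h0, h1, hs, hs.2])
      have y2 : -(Real.pi / 2) ≤ YY ⟨3 / 4 + s, -ρ + κ * s⟩ :=
        YY_ge_neg_half (by simp only; linarith only [h0, h1, hs, hs.1]) (by simp only; linarith only [h0, h1, hs, hs.2])
      unfold Dq
      have m1 := mul_le_mul_of_nonneg_left y1 hκ0
      have m2 := mul_le_mul_of_nonneg_left y2 hκ0
      nlinarith only [h1, hpi4, l1, l2, m1, m2, h0, hpi, hκ1]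
  have h := hm (Set.left_mem_Icc.mpr h0.le) (Set.right_mem_Icc.mpr h0.le) h0.le
  simp only at h
  rw [ure, vre, ure, vre, hκx] at h
  have e0 : UU (⟨1 / 4 + 0, ρ + κ * 0⟩ : ℂ) + UU (⟨3 / 4 + 0, -ρ + κ * 0⟩ : ℂ) = 0 := by
    have := UU_one_sub (⟨1 / 4 + 0, ρ + κ * 0⟩ : ℂ)
    have e : (1 : ℂ) - ⟨1 / 4 + 0, ρ + κ * 0⟩ = ⟨3 / 4 + 0, -ρ + κ * 0⟩ := by
      apply Complex.ext <;> simp
      norm_num
    rw [e] at this
    linarith only [this]
  have e1 : uu (x + 1 / 4) (t + ρ) = UU (⟨1 / 4 + x, ρ + t⟩ : ℂ) := by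
    rw [UU_uu]
    simp only
    rw [add_comm x, add_comm t]
  have e2 : uu (x + 3 / 4) (t - ρ) = UU (⟨3 / 4 + x, -ρ + t⟩ : ℂ) := by
    rw [UU_uu]
    simp only
    rw [add_comm x, show t - ρ = -ρ + t by ring]
  rw [e1, e2]
  linarith only [h, e0]

/-- **move of the ring variable to `-1/4`**, `x ≤ .27` -/
theorem fu_quarter_gt (h0 : 0 < x) (h1 : x ≤ 27 / 100) (h2 : 0 ≤ t) (h3 : t ≤ 56 / 1000)
    (h4 : t ≤ 56 / 100 * x) (hρ : 0 ≤ ρ) (hρ' : ρ ≤ 1045 / 10000) :
    Real.pi * t < fu x t (-(1 / 4)) ρ := by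
  rcases le_total x (5 / 1000) with h5 | h5
  · have k1 := pair_ge (ρ := ρ) h0 h5 h2 h4
    have k2 := uu_small_le h0.le h5 h2 (by linarith only [h4, h5])
    unfold fu
    rw [show x + 1 / 2 + -(1 / 4) = x + 1 / 4 by ring, show x + 1 / 2 - -(1 / 4) = x + 3 / 4 by ring]
    linarith only [h0, k1, k2]
  · rcases le_total x (6 / 100) with h6 | h6
    · exact RV.r11 h2 h5 h4 h6 hρ hρ'
    · rcases le_total x (1 / 4) with h7 | h7
      · have k := C3a (w := ⟨x, t⟩) (ζ := ⟨-(1 / 4), ρ⟩) h6 h7 (by simp only; linarith only [h0, h2, h7]) h3 h4 rfl hρ hρ'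
        have e := fR_fu ⟨x, t⟩ ⟨-(1 / 4), ρ⟩
        unfold fR at e
        rw [e] at k
        simp only at k
        have : 0 ≤ Real.pi / 2 * ρ := by positivity
        linarith only [k, this]
      · exact RV.r10 h2 h3 h7 h1 hρ hρ'

/-- `x ≤ .48` -/
theorem fu_quarter_ge (h0 : 0 < x) (h1 : x ≤ 48 / 100) (h2 : 0 ≤ t) (h3 : t ≤ 56 / 1000)
    (h4 : t ≤ 56 / 100 * x) (hρ : 0 < ρ) (hρ' : ρ ≤ 1045 / 10000) :
    Real.pi * t - 16 / 100 < fu x t (-(1 / 4)) ρ := by
  rcases le_total x (27 / 100) with h5 | h5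
  · have := fu_quarter_gt h0 h5 h2 h3 h4 hρ.le hρ'
    linarith only [hρ, hρ', this]
  · have k := fu_x_anti_le (a := x) (b := 48 / 100) (t := t) (σ := -(1 / 4)) (ρ := ρ) h5 h1
      (by norm_num) h2 h3 hρ hρ' (by rw [abs_neg, abs_of_pos] <;> norm_num)
    rw [th_of_le (by rw [abs_neg, abs_of_pos] <;> norm_num), mul_one] at k
    have := RV.r9b h2 h3 hρ.le hρ'
    linarith only [k, this]

end Pool.Agent.Work.MP_b30479_gt.G2
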