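import Pool.Agent.Work.NumI.Expr

/-!
# Ring sides: rows of numbers for ring variables near the end of their path
-/

namespace Pool.Agent.Work.MP_b30479_gt.G2

variable {x t σ η c a b s ρ T θ y K κ m : ℝ}

open NumI NumI.E

theorem rowU1 (h0 : 1 / 64 ≤ x) (h1 : x ≤ 13 / 100) (h2 : 0 ≤ t) (h3 : t ≤ 131 / 1000)
    (h4 : t ≤ 131 / 100 * x) :
    9 / 2 * (10007 / 10000 * Real.cosh (2 * Real.pi * t) - 9238 / 10000 * Real.cos (2 * Real.pi * x)) <
      612 / 100 * Real.sin (2 * Real.pi * x) - 57 / 100 * Real.sinh (2 * Real.pi * t) := by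
  have h : chk [sub (sub (mul (q 612 100) (sinPi (mul (q 2 1) (var 0)))) (mul (q 57 100)
      (sinh (mul (mul (q 2 1) pi) (var 1))))) (mul (q 9 2) (sub (mul (q 10007 10000)
      (cosh (mul (mul (q 2 1) pi) (var 1)))) (mul (q 9238 10000) (cosPi (mul (q 2 1) (var 0)))))),
      sub (var 1) (mul (q 131 100) (var 0))] 30
      [V.of 10000 156 1300, V.of 10000 0 1310] = true := by decide +kernel
  obtain ⟨f, hf, hp⟩ := chk2 h (by norm_num) (x := x) (y := t)
    (by norm_num; linarith only [h0]) (by norm_num; linarith only [h1]) (by norm_num; linarith only [h2]) (by norm_num; linarith only [h3])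
  simp only [List.mem_cons, List.not_mem_nil, or_false] at hf
  rcases hf with rfl | rfl
  · simp only [E.val, NumI.lkR] at hp
    simp only [Int.cast_ofNat, Nat.cast_ofNat, Int.cast_one, Nat.cast_one, div_one] at hp
    rw [show Real.pi * (2 * x) = 2 * Real.pi * x by ring] at hp
    linarith only [hp]
  · simp only [E.val, NumI.lkR] at hp
    simp only [Int.cast_ofNat, Nat.cast_ofNat, Int.cast_one, Nat.cast_one, div_one] at hp
    exfalso
    linarith only [h4, hp]

theorem rowU2 (h0 : 1 / 64 ≤ x) (h1 : x ≤ 1 / 10) :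
    55 / 10 * (10136 / 10000 * Real.cosh (2 * Real.pi * (56 / 100 * x)) -
      9238 / 10000 * Real.cos (2 * Real.pi * x)) < 612 / 100 * Real.sin (2 * Real.pi * x) := by
  have h : chk [sub (mul (q 612 100) (sinPi (mul (q 2 1) (var 0)))) (mul (q 55 10) (sub (mul (q 10136 10000)
      (cosh (mul (mul (q 2 1) pi) (mul (q 56 100) (var 0))))) (mul (q 9238 10000)
      (cosPi (mul (q 2 1) (var 0))))))] 30 [V.of 10000 156 1000] = true := by decide +kernel
  have hp := pos_of_chk (chk1 h (by norm_num) (x := x)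
    (by norm_num; linarith only [h0]) (by norm_num; linarith only [h1]))
  simp only [E.val, NumI.lkR] at hp
  simp only [Int.cast_ofNat, Nat.cast_ofNat, Int.cast_one, Nat.cast_one, div_one] at hp
  rw [show Real.pi * (2 * x) = 2 * Real.pi * x by ring] at hp
  linarith only [hp]

/-- constants -/
theorem rowU3 : 3826 / 10000 ≤ Real.sin (Real.pi / 8) ∧ 9238 / 10000 ≤ Real.cos (Real.pi / 8) ∧
    98 / 1000 ≤ Real.sin (Real.pi / 32) ∧ 9951 / 10000 ≤ Real.cos (Real.pi / 32) := by
  have h1 : chk [sub (sinPi (q 1 8)) (q 3825 10000)] 10 [V.of 1 0 0] = true := by decide +kernel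
  have h1' : chk [sub (sinPi (q 1 8)) (q 3826 10000)] 10 [V.of 1 0 0] = true := by decide +kernel
  have h2 : chk [sub (cosPi (q 1 8)) (q 9238 10000)] 10 [V.of 1 0 0] = true := by decide +kernel
  have h3 : chk [sub (sinPi (q 1 32)) (q 98 1000)] 10 [V.of 1 0 0] = true := by decide +kernel
  have h4 : chk [sub (cosPi (q 1 32)) (q 9951 10000)] 10 [V.of 1 0 0] = true := by decide +kernel
  have p1 := pos_of_chk (chk1 h1' (by norm_num) (x := 0) (by norm_num) (by norm_num))
  have p2 := pos_of_chk (chk1 h2 (by norm_num) (x := 0) (by norm_num) (by norm_num))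
  have p3 := pos_of_chk (chk1 h3 (by norm_num) (x := 0) (by norm_num) (by norm_num))
  have p4 := pos_of_chk (chk1 h4 (by norm_num) (x := 0) (by norm_num) (by norm_num))
  simp only [E.val] at p1 p2 p3 p4
  simp only [Int.cast_ofNat, Nat.cast_ofNat, Int.cast_one, Nat.cast_one] at p1 p2 p3 p4
  rw [show Real.pi * (1 / 8) = Real.pi / 8 by ring] at p1 p2
  rw [show Real.pi * (1 / 32) = Real.pi / 32 by ring] at p3 p4
  refine ⟨?_, ?_, ?_, ?_⟩ <;> linarith only [p1, p2, p3, p4]

theorem rowU4 : Real.sinh (2 * Real.pi * (9 / 1600)) ≤ 3537 / 100000 ∧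
    Real.cosh (2 * Real.pi * (9 / 1600)) ≤ 10007 / 10000 ∧
    Real.sinh (2 * Real.pi * (131 / 6400)) ≤ 1290 / 10000 ∧
    Real.cosh (2 * Real.pi * (131 / 6400)) ≤ 10084 / 10000 ∧
    Real.cosh (2 * Real.pi * (418 / 16000)) ≤ 10136 / 10000 ∧
    Real.cosh (2 * Real.pi * (56 / 6400)) ≤ 10016 / 10000 := by
  have h1 : chk [sub (q 3537 100000) (sinh (mul (mul (q 2 1) pi) (q 9 1600)))] 10 [V.of 1 0 0] = true := by
    decide +kernel
  have h2 : chk [sub (q 10007 10000) (cosh (mul (mul (q 2 1) pi) (q 9 1600)))] 10 [V.of 1 0 0] = true := by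
    decide +kernel
  have h3 : chk [sub (q 1290 10000) (sinh (mul (mul (q 2 1) pi) (q 131 6400)))] 10 [V.of 1 0 0] = true := by
    decide +kernel
  have h4 : chk [sub (q 10084 10000) (cosh (mul (mul (q 2 1) pi) (q 131 6400)))] 10 [V.of 1 0 0] = true := by
    decide +kernel
  have h5 : chk [sub (q 10136 10000) (cosh (mul (mul (q 2 1) pi) (q 418 16000)))] 10 [V.of 1 0 0] = true := by
    decide +kernel
  have h6 : chk [sub (q 10016 10000) (cosh (mul (mul (q 2 1) pi) (q 56 6400)))] 10 [V.of 1 0 0] = true := by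
    decide +kernel
  have p1 := pos_of_chk (chk1 h1 (by norm_num) (x := 0) (by norm_num) (by norm_num))
  have p2 := pos_of_chk (chk1 h2 (by norm_num) (x := 0) (by norm_num) (by norm_num))
  have p3 := pos_of_chk (chk1 h3 (by norm_num) (x := 0) (by norm_num) (by norm_num))
  have p4 := pos_of_chk (chk1 h4 (by norm_num) (x := 0) (by norm_num) (by norm_num))
  have p5 := pos_of_chk (chk1 h5 (by norm_num) (x := 0) (by norm_num) (by norm_num))
  have p6 := pos_of_chk (chk1 h6 (by norm_num) (x := 0) (by norm_num) (by norm_num))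
  simp only [E.val] at p1 p2 p3 p4 p5 p6
  simp only [Int.cast_ofNat, Nat.cast_ofNat, Nat.cast_one, div_one] at p1 p2 p3 p4 p5 p6
  refine ⟨?_, ?_, ?_, ?_, ?_, ?_⟩ <;> linarith only [p1, p2, p3, p4, p5, p6]

/-- final row, hinges next to `2`, `3`, ring of height `≤ 0` -/
theorem rowU5 (h0 : 0 ≤ m) (h1 : m ≤ 131 / 100) :
    18 / 100 < Real.log 24 - Real.log (1 + m ^ 2) - 282 / 1000 + 2 * m * Real.arctan (99 / 100 * m) -
      m * (m / 5) - Real.pi / 2 * m := by
  have h : chk [sub (sub (add (sub (sub (log (q 24 1)) (log (add (q 1 1) (mul (var 0) (var 0)))))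
      (q 282 1000)) (mul (mul (q 2 1) (var 0)) (atan (mul (q 99 100) (var 0)))))
      (add (mul (q 1 5) (mul (var 0) (var 0))) (mul (mul (q 1 2) pi) (var 0)))) (q 18 100)] 20
      [V.of 10000 0 13100] = true := by decide +kernel
  have hp := pos_of_chk (chk1 h (by norm_num) (x := m)
    (by norm_num; linarith only [h0]) (by norm_num; linarith only [h1]))
  simp only [E.val, NumI.lkR] at hp
  simp only [Int.cast_ofNat, Nat.cast_ofNat, Int.cast_one, Nat.cast_one, div_one] at hp
  rw [show m * m = m ^ 2 by ring] at hp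
  linarith only [hp]

/-- final row, hinges next to `1` -/
theorem rowU6 (h0 : 0 ≤ m) (h1 : m ≤ 9875 / 10000) :
    35 / 100 < Real.log 24 - Real.log (1 + m ^ 2) - 282 / 1000 + 2 * m * Real.arctan (99 / 100 * m) -
      m * (m / 5) - Real.pi * m := by
  have h : chk [sub (sub (add (sub (sub (log (q 24 1)) (log (add (q 1 1) (mul (var 0) (var 0)))))
      (q 282 1000)) (mul (mul (q 2 1) (var 0)) (atan (mul (q 99 100) (var 0)))))
      (add (mul (q 1 5) (mul (var 0) (var 0))) (mul pi (var 0)))) (q 35 100)] 20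
      [V.of 10000 0 9875] = true := by decide +kernel
  have hp := pos_of_chk (chk1 h (by norm_num) (x := m)
    (by norm_num; linarith only [h0]) (by norm_num; linarith only [h1]))
  simp only [E.val, NumI.lkR] at hp
  simp only [Int.cast_ofNat, Nat.cast_ofNat, Int.cast_one, Nat.cast_one, div_one] at hp
  rw [show m * m = m ^ 2 by ring] at hp
  linarith only [hp]

/-- final row, positive height -/
theorem rowU7 (h0 : 0 ≤ m) (h1 : m ≤ 56 / 100) :
    0 < Real.log 24 - Real.log (1 + m ^ 2) - 344 / 1000 - Real.pi * m := by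
  have h : chk [sub (sub (sub (log (q 24 1)) (log (add (q 1 1) (mul (var 0) (var 0)))))
      (q 344 1000)) (mul pi (var 0))] 20
      [V.of 10000 0 5600] = true := by decide +kernel
  have hp := pos_of_chk (chk1 h (by norm_num) (x := m)
    (by norm_num; linarith only [h0]) (by norm_num; linarith only [h1]))
  simp only [E.val, NumI.lkR] at hp
  simp only [Int.cast_ofNat, Nat.cast_ofNat, Int.cast_one, Nat.cast_one, div_one] at hp
  rw [show m * m = m ^ 2 by ring] at hp
  linarith only [hp]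

theorem rowU8 : 24298 / 100000 ≤ Real.sin (5 * Real.pi / 64) ∧ Real.sinh (Real.pi * (131 / 6400)) ≤ 644 / 10000 ∧
    9987 / 10000 ≤ Real.cos (Real.pi / 64) ∧ Real.cosh (Real.pi * (131 / 6400)) ≤ 10021 / 10000 := by
  have h1 : chk [sub (sinPi (q 5 64)) (q 24298 100000)] 10 [V.of 1 0 0] = true := by decide +kernel
  have h2 : chk [sub (q 644 10000) (sinh (mul pi (q 131 6400)))] 10 [V.of 1 0 0] = true := by
    decide +kernel
  have h3 : chk [sub (cosPi (q 1 64)) (q 9987 10000)] 10 [V.of 1 0 0] = true := by decide +kernel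
  have h4 : chk [sub (q 10021 10000) (cosh (mul pi (q 131 6400)))] 10 [V.of 1 0 0] = true := by
    decide +kernel
  have p1 := pos_of_chk (chk1 h1 (by norm_num) (x := 0) (by norm_num) (by norm_num))
  have p2 := pos_of_chk (chk1 h2 (by norm_num) (x := 0) (by norm_num) (by norm_num))
  have p3 := pos_of_chk (chk1 h3 (by norm_num) (x := 0) (by norm_num) (by norm_num))
  have p4 := pos_of_chk (chk1 h4 (by norm_num) (x := 0) (by norm_num) (by norm_num))
  simp only [E.val] at p1 p2 p3 p4
  simp only [Int.cast_ofNat, Nat.cast_ofNat, Int.cast_one] at p1 p2 p3 p4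
  rw [show Real.pi * (5 / 64) = 5 * Real.pi / 64 by ring] at p1
  rw [show Real.pi * (1 / 64) = Real.pi / 64 by ring] at p3
  refine ⟨?_, ?_, ?_, ?_⟩ <;> linarith only [p1, p2, p3, p4]

end Pool.Agent.Work.MP_b30479_gt.G2
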