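import Pool.Agent.Work.MP_b30479_gt.G2.RC3e
import Pool.Agent.Work.MP_b30479_gt.G2.GE
import Pool.Agent.Work.MP_b30479_gt.G2.RngN
import Pool.Agent.Work.MP_b30479_gt.G2.RngP2
import Pool.Agent.Work.MP_b30479_gt.G2.RngUr

/-!
# Ring sides: left ramps, ring variable near the end of its path, bounds of the side
-/

namespace Pool.Agent.Work.MP_b30479_gt.G2

open Finset VOL Filter Topology

variable {x t σ η c a b s ρ T θ y K κ m l : ℝ} {w w' ζ : ℂ} {k k' : RKe}

theorem lnB_im_neg (x t : ℝ) : NumI.lnB x (-t) = -NumI.lnB x t := by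
  unfold NumI.lnB
  rw [mul_neg, Real.sinh_neg, Real.cosh_neg, mul_neg, neg_div, Real.arctan_neg]

theorem arctan_le_id (h : 0 ≤ y) : Real.arctan y ≤ y := by
  have h0 : 0 ≤ Real.arctan y := Real.arctan_nonneg.2 h
  have h1 := Real.le_tan h0 (Real.arctan_lt_pi_div_two y)
  rwa [Real.tan_arctan] at h1

/-- the hinge is small compared with the ring variable -/
theorem LLd_ge (hs' : s ≤ 1 / 16) (hx0 : 0 < x) (hx : x ≤ s / 4) (hm : |m| ≤ 131 / 100) :
    (Real.log 24 - Real.log (1 + m ^ 2)) / 2 ≤ LL ⟨x + s, y⟩ - LL ⟨x, m * x⟩ := by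
  have hpi := Real.pi_pos
  have hpi4 := Real.pi_lt_d4
  obtain ⟨r1, r2, -, -⟩ := rowU8
  set l := 64 * x with hl
  have l0 : 0 < l := by linarith only [hx0]
  have l1 : l ≤ 1 := by linarith only [hs', hx]
  have hm2 : 0 < 1 + m ^ 2 := by positivity
  have hu : 118 / 1000 * l ^ 2 ≤ Real.cosh (2 * Real.pi * y) - Real.cos (2 * Real.pi * (x + s)) := by
    have h1 := Real.one_le_cosh (2 * Real.pi * y)
    have h2 : Real.cos (2 * Real.pi * (x + s)) = 1 - 2 * Real.sin (Real.pi * (x + s)) ^ 2 := by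
      rw [show 2 * Real.pi * (x + s) = 2 * (Real.pi * (x + s)) by ring, Real.cos_two_mul, Real.cos_sq']
      ring
    have h3 : l * (24298 / 100000) ≤ Real.sin (Real.pi * (x + s)) := by
      have a1 := mul_sin_le (l := l) (a := 5 * Real.pi / 64) l0.le l1 (by positivity) (by linarith only [hpi])
      have a2 := mul_le_mul_of_nonneg_left r1 l0.le
      have a3 : Real.sin (l * (5 * Real.pi / 64)) ≤ Real.sin (Real.pi * (x + s)) := by
        rw [hl]
        apply Real.sin_le_sin_of_le_of_le_pi_div_two <;> nlinarith only [hpi, hx0, hs', hx]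
      linarith only [a1, a2, a3]
    have h4 : (l * (24298 / 100000)) ^ 2 ≤ Real.sin (Real.pi * (x + s)) ^ 2 :=
      pow_le_pow_left₀ (by positivity) h3 2
    rw [h2]
    nlinarith only [h1, h4]
  have hw : Real.cosh (2 * Real.pi * (m * x)) - Real.cos (2 * Real.pi * x) ≤
      484 / 100000 * l ^ 2 * (1 + m ^ 2) := by
    have e1 : Real.cosh (2 * Real.pi * (m * x)) = 1 + 2 * Real.sinh (Real.pi * (|m| * x)) ^ 2 := by
      have : Real.sinh (Real.pi * (|m| * x)) ^ 2 = Real.sinh (Real.pi * (m * x)) ^ 2 := by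
        rcases abs_choice m with h | h
        · rw [h]
        · rw [h, show Real.pi * (-m * x) = -(Real.pi * (m * x)) by ring, Real.sinh_neg]
          ring
      rw [this, show 2 * Real.pi * (m * x) = 2 * (Real.pi * (m * x)) by ring, Real.cosh_two_mul,
        Real.cosh_sq]
      ring
    have e2 : Real.cos (2 * Real.pi * x) = 1 - 2 * Real.sin (Real.pi * x) ^ 2 := by
      rw [show 2 * Real.pi * x = 2 * (Real.pi * x) by ring, Real.cos_two_mul, Real.cos_sq']
      ring
    have h1 : Real.sin (Real.pi * x) ^ 2 ≤ (Real.pi * x) ^ 2 := by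
      apply pow_le_pow_left₀
      · apply Real.sin_nonneg_of_nonneg_of_le_pi
        · positivity
        · nlinarith only [hpi, hs', hx]
      · exact Real.sin_le (by positivity)
    have h2 : Real.sinh (Real.pi * (|m| * x)) ≤ l * (|m| / (131 / 100)) * (644 / 10000) := by
      have a1 := sinh_mul_le (l := l * (|m| / (131 / 100))) (z := Real.pi * (131 / 6400)) (by positivity) (by
        have : |m| / (131 / 100) ≤ 1 := by
          rw [div_le_one (by norm_num)]
          exact hm
        have h0 : 0 ≤ |m| / (131 / 100) := by positivity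
        nlinarith only [hs', hx, hx0, hm]) (by positivity)
      have a2 : l * (|m| / (131 / 100)) * (Real.pi * (131 / 6400)) = Real.pi * (|m| * x) := by
        rw [hl]
        ring
      rw [a2] at a1
      have a3 : 0 ≤ l * (|m| / (131 / 100)) := by positivity
      have a4 := mul_le_mul_of_nonneg_left r2 a3
      linarith only [a1, a4]
    have h3 : Real.sinh (Real.pi * (|m| * x)) ^ 2 ≤ (l * (|m| / (131 / 100)) * (644 / 10000)) ^ 2 := by
      apply pow_le_pow_left₀ _ h2
      rw [Real.sinh_nonneg_iff]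
      positivity
    have h4 : (l * (|m| / (131 / 100)) * (644 / 10000)) ^ 2 ≤ 242 / 100000 * l ^ 2 * m ^ 2 := by
      have : (l * (|m| / (131 / 100)) * (644 / 10000)) ^ 2 = (644 / 13100) ^ 2 * l ^ 2 * |m| ^ 2 := by ring
      rw [this, sq_abs]
      have : 0 ≤ l ^ 2 * m ^ 2 := by positivity
      nlinarith only [this]
    have h5 : (Real.pi * x) ^ 2 ≤ 242 / 100000 * l ^ 2 := by
      rw [hl]
      have : Real.pi ^ 2 ≤ 98700 / 10000 := by nlinarith only [hpi4, hs', hx, hx0, hpi]
      have : 0 ≤ x ^ 2 := by positivity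
      nlinarith
    rw [e1, e2]
    linarith only [h1, h3, h4, h5]
  have hp : 0 < Real.cosh (2 * Real.pi * (m * x)) - Real.cos (2 * Real.pi * x) :=
    cosh_sub_cos_pos (u := ⟨x, m * x⟩) (sin_ne_of_strip ⟨by simpa using hx0, by simp only; linarith only [hs', hx0, hx]⟩)
  have hl2 : 0 < l ^ 2 := by positivity
  rw [LL_eq', LL_eq']
  simp only
  have key : Real.log 24 - Real.log (1 + m ^ 2) ≤
      Real.log (2 * Real.cosh (2 * Real.pi * y) - 2 * Real.cos (2 * Real.pi * (x + s))) -
      Real.log (2 * Real.cosh (2 * Real.pi * (m * x)) - 2 * Real.cos (2 * Real.pi * x)) := by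
    rw [← Real.log_div (by norm_num) hm2.ne', ← Real.log_div (by nlinarith only [hu, hl2]) (by linarith only [hp])]
    apply Real.log_le_log (by positivity)
    rw [div_le_div_iff₀ hm2 (by linarith only [hp])]
    nlinarith only [hu, hw, hp]
  linarith only [key]

/-- the height part at the near point -/
theorem YYu_le (hx0 : 0 < x) (hx : x ≤ s / 4) (hs' : s ≤ 1 / 16) (hm : 0 ≤ m) (hη : 0 ≤ η) :
    YY ⟨x + s, -(m * x) + η⟩ ≤ m / 5 := by
  have hpi := Real.pi_pos
  rcases le_or_gt 0 (-(m * x) + η) with h | h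
  · rcases h.eq_or_lt with h1 | h1
    · rw [← h1, YY_mk_zero]
      positivity
    · rw [YY_mk_pos h1]
      have := Tr_le_half (s := -(m * x) + η) (x := x + s) h1 (by linarith only [hx0, hx, hs'])
      have : 0 ≤ m / 5 := by positivity
      linarith
  · have hs : (⟨x + s, -(m * x) + η⟩ : ℂ) ∈ strip := ⟨by simp only; linarith only [hx0, hx], by simp only; linarith only [hx0, hx, hs']⟩
    rw [Num.YY_lnB hs, show -(m * x) + η = -(m * x - η) by ring, lnB_im_neg, neg_neg]
    unfold NumI.lnB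
    set z := Real.pi * (m * x - η) with hz
    set q := Real.pi * (x + s) with hq
    have z0 : 0 < z := by
      rw [hz]
      have : 0 < m * x - η := by linarith only [h]
      positivity
    have q0 : 0 < q := by
      rw [hq]
      have : 0 < x + s := by linarith only [hx0, hx]
      positivity
    have q1 : q < Real.pi / 2 := by rw [hq]; nlinarith only [hx0, hpi, hx, hs']
    have hsq : 0 < Real.sin q := Real.sin_pos_of_pos_of_lt_pi q0 (by linarith only [q0, q1])
    have hcq : 0 < Real.cos q := Real.cos_pos_of_mem_Ioo ⟨by linarith only [q0, q1], q1⟩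
    have h1 : Real.cos q * q ≤ Real.sin q := by
      have := Real.lt_tan q0 q1
      rw [Real.tan_eq_sin_div_cos, lt_div_iff₀ hcq] at this
      linarith only [this]
    have h2 : Real.sinh z ≤ z * Real.cosh z := by
      have key : ∀ z : ℝ, 0 ≤ z → Real.sinh z ≤ z * Real.cosh z := by
        intro z hz
        have hm : MonotoneOn (fun z : ℝ => z * Real.cosh z - Real.sinh z) (Set.Ici 0) := by
          apply monotoneOn_of_deriv_nonneg (convex_Ici 0)
          · fun_prop
          · fun_prop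
          · intro r hr
            rw [interior_Ici] at hr
            have hd : HasDerivAt (fun z : ℝ => z * Real.cosh z - Real.sinh z)
                (1 * Real.cosh r + r * Real.sinh r - Real.cosh r) r :=
              ((hasDerivAt_id r).mul (Real.hasDerivAt_cosh r)).sub (Real.hasDerivAt_sinh r)
            rw [hd.deriv]
            have : 0 ≤ Real.sinh r := Real.sinh_nonneg_iff.2 (le_of_lt hr)
            have hr' : 0 < r := hr
            nlinarith only [hx0, hx, hs', this, hr']
        have := hm (Set.mem_Ici.2 le_rfl) (Set.mem_Ici.2 hz) hz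
        simp at this
        exact this
      exact key z z0.le
    have hch := Real.cosh_pos z
    have h3 : Real.cos q * Real.sinh z / (Real.sin q * Real.cosh z) ≤ z / q := by
      rw [div_le_div_iff₀ (by positivity) q0]
      have a1 := mul_le_mul_of_nonneg_left h2 (show 0 ≤ Real.cos q * q by positivity)
      have a2 := mul_le_mul_of_nonneg_right h1 (show 0 ≤ z * Real.cosh z by positivity)
      nlinarith only [a1, a2]
    have h4 : Real.arctan (Real.cos q * Real.sinh z / (Real.sin q * Real.cosh z)) ≤ z / q := by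
      refine (Real.arctan_le_arctan_iff.2 h3).trans ?_
      exact arctan_le_id (by positivity)
    refine h4.trans ?_
    rw [hz, hq, div_le_div_iff₀ q0 (by norm_num)]
    have : (m * x - η) * 5 ≤ m * (x + s) := by nlinarith only [hη, hx, hm]
    nlinarith only [hx0, hx, z0, hη, q0]

/-- the height part at the hinge -/
theorem YYw_ge (hx0 : 0 < x) (hx : x ≤ 1 / 64) (hm : 0 ≤ m) (hm' : m ≤ 131 / 100) :
    Real.arctan (99 / 100 * m) ≤ YY ⟨x, -(m * x)⟩ := by
  have hpi := Real.pi_pos
  obtain ⟨-, -, r3, r4⟩ := rowU8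
  have hs : (⟨x, -(m * x)⟩ : ℂ) ∈ strip := ⟨by simpa using hx0, by simp only; linarith only [hx0, hx]⟩
  rw [Num.YY_lnB hs, lnB_im_neg, neg_neg]
  unfold NumI.lnB
  apply Real.arctan_le_arctan_iff.2
  have q0 : 0 < Real.pi * x := by positivity
  have hsq : 0 < Real.sin (Real.pi * x) := Real.sin_pos_of_pos_of_lt_pi q0 (by nlinarith only [q0, hx, hpi])
  have hch := Real.cosh_pos (Real.pi * (m * x))
  rw [le_div_iff₀ (by positivity)]
  have h1 : Real.sin (Real.pi * x) ≤ Real.pi * x := Real.sin_le q0.le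
  have h2 : Real.cosh (Real.pi * (m * x)) ≤ 10021 / 10000 := by
    refine le_trans ?_ r4
    rw [Real.cosh_le_cosh, abs_of_nonneg (by positivity), abs_of_pos (by positivity)]
    apply mul_le_mul_of_nonneg_left _ hpi.le
    nlinarith only [hx, hx0, hm']
  have h3 : 9987 / 10000 ≤ Real.cos (Real.pi * x) := by
    refine r3.trans ?_
    apply Real.cos_le_cos_of_nonneg_of_le_pi q0.le
    · linarith only [hpi]
    · nlinarith only [hx, hpi]
  have h4 : Real.pi * (m * x) ≤ Real.sinh (Real.pi * (m * x)) := self_le_sinh (by positivity)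
  have h5 : Real.sin (Real.pi * x) * Real.cosh (Real.pi * (m * x)) ≤ Real.pi * x * (10021 / 10000) :=
    mul_le_mul h1 h2 hch.le q0.le
  have h6 : 9987 / 10000 * (Real.pi * (m * x)) ≤ Real.cos (Real.pi * x) * Real.sinh (Real.pi * (m * x)) :=
    mul_le_mul h3 h4 (by positivity) (by linarith only [hx0, hx, h3])
  have h7 : 99 / 100 * m * (Real.sin (Real.pi * x) * Real.cosh (Real.pi * (m * x))) ≤
      99 / 100 * m * (Real.pi * x * (10021 / 10000)) := mul_le_mul_of_nonneg_left h5 (by positivity)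
  have h8 : 0 ≤ Real.pi * (m * x) := by positivity
  nlinarith only [h6, h7, h8]

/-- **B**, height `≤ 0` -/
theorem negB (hs : 0 < s) (hs' : s ≤ 1 / 16) (hx0 : 0 < x) (hx : x ≤ s / 4) (hη0 : 0 < η)
    (hm : 0 ≤ m) (hm' : m ≤ 131 / 100)
    (hE : LL ⟨x + s, -(m * x) + η⟩ - LL ⟨x - s, -(m * x) - η⟩ ≤ 45 / 10 * s) :
    Real.log 24 - Real.log (1 + m ^ 2) - 282 / 1000 + 2 * m * Real.arctan (99 / 100 * m) - m * (m / 5) ≤
      LL ⟨x + s, -(m * x) + η⟩ + LL ⟨x + 1 - s, -(m * x) - η⟩ - 2 * LL ⟨x, -(m * x)⟩ +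
      -m * (YY ⟨x + s, -(m * x) + η⟩ + YY ⟨x + 1 - s, -(m * x) - η⟩ - 2 * YY ⟨x, -(m * x)⟩) := by
  have h1 := LLd_ge (m := -m) (y := -(m * x) + η) hs' hx0 hx (by rw [abs_neg, abs_of_nonneg hm]; exact hm')
  rw [neg_sq, neg_mul] at h1
  have h2 := YYu_le (η := η) hx0 hx hs' hm hη0.le
  have h3 := YYw_ge hx0 (by linarith only [hs', hx]) hm hm'
  have h4 : YY ⟨x + 1 - s, -(m * x) - η⟩ ≤ 0 := RC3e.YY_nonpos (by simp only; linarith only [hs', hx0, hx]) (by
    simp only
    have : 0 ≤ m * x := by positivity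
    linarith only [hη0, this])
  rw [LL_shift]
  have h5 := mul_le_mul_of_nonneg_left h2 hm
  have h6 := mul_le_mul_of_nonneg_left h3 hm
  have h7 := mul_nonneg hm (neg_nonneg.2 h4)
  nlinarith only [hs', hx0, hx, hE, h1, h5, h6, h7]

/-- **B**, height `≥ 0` -/
theorem posB (hs : 0 < s) (hs' : s ≤ 1 / 16) (hx0 : 0 < x) (hx : x ≤ s / 4)
    (hm : 0 ≤ m) (hm' : m ≤ 56 / 100)
    (hE : LL ⟨x + s, m * x + η⟩ - LL ⟨x - s, m * x - η⟩ ≤ 55 / 10 * s) :
    0 < LL ⟨x + s, m * x + η⟩ + LL ⟨x + 1 - s, m * x - η⟩ - 2 * LL ⟨x, m * x⟩ +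
      m * (YY ⟨x + s, m * x + η⟩ + YY ⟨x + 1 - s, m * x - η⟩ - 2 * YY ⟨x, m * x⟩) := by
  have h1 := LLd_ge (m := m) (y := m * x + η) hs' hx0 hx (by rw [abs_of_nonneg hm]; linarith only [hs', hx0, hx, hm'])
  have h2 : -(Real.pi / 2) ≤ YY ⟨x + s, m * x + η⟩ := YY_ge_neg_half (by simp only; linarith only [hx0, hx])
    (by simp only; linarith only [hs', hx0, hx])
  have h3 : -(Real.pi / 2) ≤ YY ⟨x + 1 - s, m * x - η⟩ := YY_ge_neg_half (by simp only; linarith only [hs', hx0, hx])
    (by simp only; linarith only [hx0, hx])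
  have h4 : YY ⟨x, m * x⟩ ≤ 0 := by
    rcases hm.eq_or_lt with h | h
    · rw [← h, zero_mul, YY_mk_zero]
    · rw [YY_mk_pos (by positivity)]
      have := Tr_le_half (s := m * x) (x := x) (by positivity) (by linarith only [hs', hx0, hx])
      linarith only [this]
  rw [LL_shift]
  have h5 := mul_le_mul_of_nonneg_left h2 hm
  have h6 := mul_le_mul_of_nonneg_left h3 hm
  have h7 := mul_nonneg hm (neg_nonneg.2 h4)
  have h8 := rowU7 hm hm'
  nlinarith only [hs', hx0, hx, hE, h1, h5, h6, h7, h8]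

end Pool.Agent.Work.MP_b30479_gt.G2
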