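import Pool.Agent.Work.MP_b30479_gt.G2.RngW
import Pool.Agent.Work.MP_b30479_gt.G2.LRC
import Pool.Agent.Work.MP_b30479_gt.G2.LRF
import Pool.Agent.Work.MP_b30479_gt.G2.LRaF
import Pool.Agent.Work.MP_b30479_gt.G2.LRaP4
import Pool.Agent.Work.MP_b30479_gt.G2.LRaP5
import Pool.Agent.Work.MP_b30479_gt.G2.LRaX4
import Pool.Agent.Work.MP_b30479_gt.G2.LRaX5
import Pool.Agent.Work.MP_b30479_gt.G2.RngU
import Pool.Agent.Work.MP_b30479_gt.G2.RngV

/-!
# Ring sides: lower bounds on the left ramps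
-/

namespace Pool.Agent.Work.MP_b30479_gt.G2

open Finset VOL Filter Topology

variable {x t σ η c a b s ρ T θ y K κ m l : ℝ} {w w' ζ : ℂ} {k k' : RKe}

theorem S4_ramp (h0 : 0 ≤ s) (h1 : s ≤ 1 / 4) (m ρ : ℝ) (w : ℂ) :
    S4 m w (LT.zt ρ (-(1 / 2) + s)) = LL ⟨w.re + s, w.im + 4 * ρ * s⟩ +
      LL ⟨w.re + 1 - s, w.im - 4 * ρ * s⟩ - 2 * LL w +
      m * (YY ⟨w.re + s, w.im + 4 * ρ * s⟩ + YY ⟨w.re + 1 - s, w.im - 4 * ρ * s⟩ - 2 * YY w) := by
  unfold S4
  have e1 : w + 1 / 2 + LT.zt ρ (-(1 / 2) + s) = ⟨w.re + s, w.im + 4 * ρ * s⟩ := by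
    rw [zt_eq, th_ramp h0 h1]
    apply Complex.ext <;> simp
  have e2 : w + 1 / 2 - LT.zt ρ (-(1 / 2) + s) = ⟨w.re + 1 - s, w.im - 4 * ρ * s⟩ := by
    rw [zt_eq, th_ramp h0 h1]
    apply Complex.ext <;> simp
    ring
  rw [e1, e2]

theorem LR.W.eq (hw : LR.W x m w) : w = ⟨x, m * x⟩ := by
  apply Complex.ext
  · exact hw.re
  · exact hw.im

/-- the ring variable near the end, height `≤ 0` -/
theorem tiny_bound_neg (hρ : 0 < ρ) (hs : 0 < s) (hs' : s ≤ 1 / 16) (H : HOk ρ w) (hw : LR.W x m w)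
    (hm : m ≤ 0) (hm' : -(131 / 100) ≤ m) (hx : x ≤ 13 / 100) (ht : -(131 / 1000) ≤ m * x)
    (hF : Dm (4 * ρ) w (LT.zt ρ (-(1 / 2) + s)) ≤ 45 / 10 * s - 4 * Real.pi * ρ) :
    Real.log 24 - Real.log (1 + (-m) ^ 2) - 282 / 1000 + 2 * -m * Real.arctan (99 / 100 * -m) -
      -m * (-m / 5) ≤ S4 m w (LT.zt ρ (-(1 / 2) + s)) := by
  obtain ⟨hE, hρs⟩ := tiny_neg hρ hs hs' H hF
  have hx0 := hw.pos
  rw [hw.re, hw.im] at hE
  have η0 : 0 < 4 * ρ * s := by positivity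
  rcases le_or_gt (s / 4) x with h1 | h1
  · exfalso
    have h2 : 0 ≤ -m := by linarith only [hm]
    have := negA (x := x) (t := m * x) (η := 4 * ρ * s) hs hs' h1 hx η0 (by nlinarith only [hs, hρs])
      (by nlinarith only [hs, hs', hm, hx0]) (by nlinarith only [hs, hs', hm', hx0]) (by linarith only [ht])
    linarith only [hE, this]
  · rw [S4_ramp hs.le (by linarith only [hs', hx0, h1]), hw.re, hw.im]
    have key := negB (x := x) (m := -m) (η := 4 * ρ * s) hs hs' hx0 h1.le η0 (by linarith only [hm]) (by linarith only [hm'])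
      (by rw [neg_mul, neg_neg]; exact hE)
    rw [neg_mul m x, neg_neg (m * x), neg_neg m] at key
    rw [hw.eq]
    exact key

/-- **Left ramp of a hinge with shift `π / 2`** -/
theorem RPl.lo (P : RPl b ρ w w' σ) (hb : 4 ≤ b) (hρ : 0 < ρ) (hc : RCap b ρ) (H : HOk ρ w)
    (hw : LR.W x m w) (hm : m ≤ 0) (hm' : -(131 / 100) ≤ m) (hm4 : b < 5 → -(115 / 100) ≤ m)
    (hx : x ≤ 13 / 100) (ht : -(131 / 1000) ≤ m * x) (ht4 : b < 5 → -(115 / 1000) ≤ m * x)
    (hX : 1 / 2 < w'.re → x ≤ 125 / 1000) :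
    18 / 100 ≤ S4 m w (LT.zt ρ σ) + Real.pi / 2 * m ∧
      (w'.re ≤ 1 / 2 → 2 / 10 ≤ S4 m w (LT.zt ρ σ) + Real.pi / 2 * m) := by
  cases P with
  | flat h =>
    have := LR.lo_flat hw h hm hm' hx ht
    exact ⟨by linarith only [this], fun _ => this⟩
  | pos s e h hs hF =>
    have hFP := FP_of h.pos (by linarith only [h, h.lo]) h.hi hF
    have : 2 / 10 ≤ S4 m w (LT.zt ρ σ) + Real.pi / 2 * m := by
      rcases lt_or_ge b 5 with h5 | h5
      · exact LR.lo_P4 hw h hc.1 hm (hm4 h5) hx (ht4 h5) (LR.FP_mono h hb hFP)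
      · exact LR.lo_P5 hw h (hc.2.1 h5) hm hm' hx ht (LR.FP_mono h h5 hFP)
    exact ⟨by linarith only [this], fun _ => this⟩
  | far s e h hF hx' =>
    refine ⟨?_, fun h2 => absurd h2 (not_le.2 hx')⟩
    rcases lt_or_ge b 5 with h5 | h5
    · exact LR.lo_X4 hw h hc.1 hm (hm4 h5) (hX hx') (ht4 h5) (LR.FX_mono h hb hF)
    · exact LR.lo_X5 hw h (hc.2.1 h5) hm hm' (hX hx') ht (LR.FX_mono h h5 hF)
  | tiny s e h0 h1 hF hx' =>
    refine ⟨?_, fun h2 => absurd h2 (not_le.2 hx')⟩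
    subst e
    have k1 := tiny_bound_neg hρ h0 h1 H hw hm hm' hx ht hF
    have k2 := rowU5 (m := -m) (by linarith only [hm]) (by linarith only [hm'])
    linarith only [k1, k2]

/-- **Left ramp of a hinge next to a digit `1`**, shift `π - 6 x`, first round -/
theorem RPl.one (P : RPl b ρ w w' σ) (hb : 4 ≤ b) (hρ : 0 < ρ) (hc : RCap b ρ) (H : HOk ρ w)
    (hw : LR.W x m w) (hm : m ≤ -(2375 / 10000)) (hm' : -(9875 / 10000) ≤ m)
    (hm4 : b < 5 → -(8 / 10) ≤ m) (hx : x ≤ 12 / 100) :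
    min (LR.eC x m) (LR.eL0 x m) ≤ S4 m w (LT.zt ρ σ) + (Real.pi - 6 * x) * m := by
  have hx0 := hw.pos
  cases P with
  | flat h => exact (min_le_right _ _).trans (LR.one_flatL hw h hm hm' hx)
  | pos s e h hs hF =>
    have hFP := FP_of h.pos (by linarith only [hx, hx0, h, h.lo]) h.hi hF
    refine (min_le_left _ _).trans ?_
    rcases lt_or_ge b 5 with h5 | h5
    · exact LR.one_P4 hw h hc.1 hm (hm4 h5) (by linarith only [hx, hx0]) (LR.FP_mono h hb hFP)
    · exact LR.one_P5 hw h (hc.2.1 h5) hm hm' (by linarith only [hx, hx0]) (LR.FP_mono h h5 hFP)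
  | far s e h hF hx' =>
    refine (min_le_right _ _).trans ?_
    rcases lt_or_ge b 5 with h5 | h5
    · exact LR.one_X4 hw h hc.1 hm (hm4 h5) hx (LR.FX_mono h hb hF)
    · exact LR.one_X5 hw h (hc.2.1 h5) hm hm' hx (LR.FX_mono h h5 hF)
  | tiny s e h0 h1 hF hx' =>
    subst e
    refine (min_le_right _ _).trans ?_
    have k1 := tiny_bound_neg hρ h0 h1 H hw (by linarith only [hm, h0, h1]) (by linarith only [hm', h0, h1]) (by linarith only [hx, h0, h1])
      (by nlinarith only [hm', hx, h0, h1, hm]) hF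
    have k2 := rowU6 (m := -m) (by linarith only [hm, h0, h1]) (by linarith only [hm'])
    have k3 : LR.eL0 x m ≤ 35 / 100 := by
      unfold LR.eL0
      split_ifs
      · exact min_le_left _ _
      · linarith only [hx0, h0, h1]
    have k4 : 0 ≤ x * -m := mul_nonneg hx0.le (by linarith only [hm, h0, h1])
    linarith only [k1, k2, k3, k4]

/-- **Left ramp of a hinge next to a digit `1`**, all rounds in which the other hinge is `≤ 1/2` -/
theorem RPl.oneC (P : RPl b ρ w w' σ) (hb : 4 ≤ b) (hρ : 0 < ρ) (hc : RCap b ρ)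
    (hbρ : b ^ 2 * ρ ≤ 23 / 10) (hfl : -(1 / 4) ≤ σ → -(2 * Real.pi * b * ρ) + Dm 0 w (LT.zt ρ σ) ≤ 0)
    (hσ : σ ≤ 0) (hw : LR.W x m w) (hm : m ≤ -(2375 / 10000)) (hm' : -(9875 / 10000) ≤ m)
    (hm4 : b < 5 → -(8 / 10) ≤ m) (hx : x ≤ 16 / 100) (hx' : w'.re ≤ 1 / 2) :
    LR.eC x m ≤ S4 m w (LT.zt ρ σ) + (Real.pi - 6 * x) * m := by
  cases P with
  | flat h =>
    have h4 : -(1 / 4) ≤ σ := by
      have := h.lo
      rwa [zt_re] at this
    have e : (LT.zt ρ σ).im = ρ := by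
      rw [zt_im, th_of_le (by rw [abs_of_nonpos hσ]; linarith only [h4]), mul_one]
    exact LR.one_flatC (b := b) hw h hm hm' hx (by rw [e]; exact hbρ) (by rw [e]; exact hfl h4)
  | pos s e h hs hF =>
    have hFP := FP_of h.pos (by linarith only [h, h.lo]) h.hi hF
    rcases lt_or_ge b 5 with h5 | h5
    · exact LR.one_P4 hw h hc.1 hm (hm4 h5) hx (LR.FP_mono h hb hFP)
    · exact LR.one_P5 hw h (hc.2.1 h5) hm hm' hx (LR.FP_mono h h5 hFP)
  | far s e h hF hxx => exact absurd hx' (not_le.2 hxx)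
  | tiny s e h0 h1 hF hxx => exact absurd hx' (not_le.2 hxx)

/-- **Left ramp of a ring|ring hinge**, own height `≥ 0` -/
theorem RPl.rr_pos (P : RPl b ρ w w' σ) (hb : 4 ≤ b) (hρ : 0 < ρ) (hc : RCap b ρ)
    (hns : w + 1 / 2 - LT.zt ρ σ ≠ 1) (hw : LR.W x m w) (hm : 0 ≤ m) (hm' : m ≤ 56 / 100)
    (hm5 : 5 ≤ b → m ≤ 465 / 1000) (hx : x ≤ 1 / 10) : 0 < S4 m w (LT.zt ρ σ) := by
  have hx0 := hw.pos
  cases P with
  | flat h => exact LR.rr_flat hw h hm hm' hx
  | pos s e h hs hF =>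
    have hFP := FP_of h.pos (by linarith only [hx, hx0, h, h.lo]) h.hi hF
    rcases lt_or_ge b 5 with h5 | h5
    · exact LR.rr_P4 hw h hc.1 hm hm' hx (LR.FP_mono h hb hFP)
    · exact LR.rr_P5 hw h (hc.2.1 h5) hm (hm5 h5) hx (LR.FP_mono h h5 hFP)
  | far s e h hF hx' =>
    rcases lt_or_ge b 5 with h5 | h5
    · exact LR.rr_X4 hw h hc.1 hm hm' hx (LR.FX_mono h hb hF)
    · exact LR.rr_X5 hw h (hc.2.1 h5) hm (hm5 h5) hx (LR.FX_mono h h5 hF)
  | tiny s e h0 h1 hF hx' =>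
    subst e
    have t0 : 0 ≤ w.im := by
      rw [hw.im]
      positivity
    have hE := tiny_pos hρ hc.1 h0 h1 (by rw [hw.re]; exact hx0.le) (by rw [hw.re]; linarith only [hx, h0, h1]) t0 hF
    rw [hw.re, hw.im] at hE
    have η0 : 0 < 4 * ρ * s := by positivity
    rcases le_or_gt (s / 4) x with h2 | h2
    · exfalso
      have hne : x ≠ s ∨ m * x ≠ 4 * ρ * s := by
        by_contra hcon
        push Not at hcon
        apply hns
        rw [zt_eq, th_ramp h0.le (by linarith only [h0, h1])]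
        apply Complex.ext
        · simp
          rw [hw.re, hcon.1]
          ring
        · simp
          rw [hw.im, hcon.2]
          ring
      have := posA (x := x) (t := m * x) (η := 4 * ρ * s) h0 h1 h2 hx η0
        (by nlinarith only [h0, hc, hc.1]) (by positivity) (by nlinarith only [hm', hx0]) hne
      linarith only [hE, this]
    · rw [S4_ramp h0.le (by linarith only [hx0, h1, h2]), hw.re, hw.im, hw.eq]
      exact posB (x := x) (m := m) h0 h1 hx0 h2.le hm hm' hE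

end Pool.Agent.Work.MP_b30479_gt.G2
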