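import Pool.Agent.Work.MP_b30479_gt.G2.RngC
import Pool.Agent.Work.NumI.ChkS

/-!
# The horizontal derivative of `fR` in the direction of the hinge on `[27/100, 7/10]`, small heights
-/

namespace Pool.Agent.Work.MP_b30479_gt.G2

open Finset VOL Filter Topology

theorem ring_Q_pos_side {x t σ ρ : ℝ} (hρ : 0 ≤ ρ) (hσ : |σ| < 1 / 2) (hq : 1 / 4 ≤ |σ|)
    (R0 : 0 ≤ 1 - Real.cos (2 * Real.pi * x) * Real.cosh (2 * Real.pi * t))
    (θ1 : √2 * Real.sinh (Real.pi * ρ) ≤ 1)
    (p0 : 0 < (1 - Real.cos (2 * Real.pi * x) * Real.cosh (2 * Real.pi * t)) * (1 - (√2 * Real.sinh (Real.pi * ρ)) ^ 2) - 2 * |Real.sin (2 * Real.pi * x) * Real.sinh (2 * Real.pi * t)| * (√2 * Real.sinh (Real.pi * ρ)))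
    (p1 : 0 < (1 - Real.cos (2 * Real.pi * x) * Real.cosh (2 * Real.pi * t)) - |Real.sin (2 * Real.pi * x) * Real.sinh (2 * Real.pi * t)| * (√2 * Real.sinh (Real.pi * ρ)) * (3 + (√2 * Real.sinh (Real.pi * ρ)) ^ 2) / 2 -
    (1 + (√2 * Real.sinh (Real.pi * ρ)) ^ 2) ^ 2 / 2) :
    0 < 2 * (1 - Real.cos (2 * Real.pi * x) * Real.cosh (2 * Real.pi * t)) *
      (1 + Real.cos (2 * Real.pi * σ) * Real.cosh (2 * Real.pi * (ρ * LT.th σ))) -
      2 * Real.sin (2 * Real.pi * σ) * Real.sinh (2 * Real.pi * (ρ * LT.th σ)) *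
        Real.sin (2 * Real.pi * x) * Real.sinh (2 * Real.pi * t) -
      (Real.cos (2 * Real.pi * σ) + Real.cosh (2 * Real.pi * (ρ * LT.th σ))) ^ 2 := by
  have hpi := Real.pi_pos
  set R := 1 - Real.cos (2 * Real.pi * x) * Real.cosh (2 * Real.pi * t) with hR
  set I := |Real.sin (2 * Real.pi * x) * Real.sinh (2 * Real.pi * t)| with hI
  have I0 : 0 ≤ I := abs_nonneg _
  have hth : 0 ≤ LT.th σ := by
    unfold LT.th
    apply le_min <;> linarith only [hσ, hq]
  have hsh : 0 ≤ Real.sinh (2 * Real.pi * (ρ * LT.th σ)) := by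
    rw [Real.sinh_nonneg_iff]
    positivity
  have key : 2 * Real.sin (2 * Real.pi * σ) * Real.sinh (2 * Real.pi * (ρ * LT.th σ)) *
      Real.sin (2 * Real.pi * x) * Real.sinh (2 * Real.pi * t) ≤
      2 * I * Real.sinh (2 * Real.pi * (ρ * LT.th σ)) * |Real.sin (2 * Real.pi * σ)| := by
    calc _ = 2 * Real.sinh (2 * Real.pi * (ρ * LT.th σ)) * (Real.sin (2 * Real.pi * σ) *
        (Real.sin (2 * Real.pi * x) * Real.sinh (2 * Real.pi * t))) := by ring
      _ ≤ 2 * Real.sinh (2 * Real.pi * (ρ * LT.th σ)) * (|Real.sin (2 * Real.pi * σ)| * I) := by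
        apply mul_le_mul_of_nonneg_left _ (by positivity)
        rw [hI, ← abs_mul]
        exact le_abs_self _
      _ = _ := by ring
  have hth1 : LT.th σ = 2 - 4 * |σ| := by
    unfold LT.th
    exact min_eq_right (by linarith only [hq])
  set D := Real.pi * (1 - 2 * |σ|) with hD
  have hD00 : 0 < D := by rw [hD]; apply mul_pos hpi; linarith only [hσ]
  have hD0 : 0 ≤ D := hD00.le
  have hDle : D / 2 ≤ Real.pi / 4 := by rw [hD]; nlinarith only [hq, hpi]
  have eH : 2 * Real.pi * (ρ * LT.th σ) = 2 * (2 * ρ * D) := by rw [hth1, hD]; ring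
  have ec : Real.cos (2 * Real.pi * σ) = -Real.cos D := by
    rw [← Real.cos_abs, abs_mul, abs_of_pos (by positivity), ← Real.cos_pi_sub, hD]
    congr 1
    ring
  have es : |Real.sin (2 * Real.pi * σ)| = Real.sin D := by
    have : Real.sin D = Real.sin (2 * Real.pi * |σ|) := by
      rw [← Real.sin_pi_sub, hD]
      congr 1
      ring
    have h2 : 0 ≤ Real.sin D := by
      apply Real.sin_nonneg_of_nonneg_of_le_pi hD0
      linarith only [hD00, hDle]
    rw [← abs_of_nonneg h2, this]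
    rcases abs_choice σ with h | h <;> rw [h]
    rw [mul_neg, Real.sin_neg, abs_neg]
  rw [es] at key
  rw [ec]
  rw [eH] at key hsh ⊢
  have hs1 : 0 < Real.sin (D / 2) := by
    apply Real.sin_pos_of_pos_of_lt_pi (by positivity)
    linarith only [hD00, hDle]
  have hs1' : Real.sin (D / 2) ^ 2 ≤ 1 / 2 := by
    have a1 : Real.sin (D / 2) ≤ Real.sin (Real.pi / 4) := by
      apply Real.sin_le_sin_of_le_of_le_pi_div_two <;> linarith only [hD00, hDle]
    rw [Real.sin_pi_div_four] at a1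
    have a2 := pow_le_pow_left₀ hs1.le a1 2
    rw [div_pow, Real.sq_sqrt (by norm_num)] at a2
    linarith only [a2]
  have hs2 : 0 ≤ Real.sinh (2 * ρ * D) := by
    rw [Real.sinh_nonneg_iff]
    positivity
  have hθ : Real.sinh (2 * ρ * D) ≤ (√2 * Real.sinh (Real.pi * ρ)) * Real.sin (D / 2) := by
    have l0 : 0 ≤ 1 - 2 * |σ| := by linarith only [hσ]
    set l := 2 * (1 - 2 * |σ|) with hl
    have b1 := sinh_mul_le (l := l) (z := Real.pi * ρ) (by positivity) (by linarith only [hq])
      (by positivity)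
    have b2 := mul_le_sin_quarter (l := l) (by positivity) (by linarith only [hq])
    rw [show l * (Real.pi * ρ) = 2 * ρ * D by rw [hl, hD]; ring] at b1
    rw [show l * (Real.pi / 4) = D / 2 by rw [hl, hD]; ring] at b2
    have b3 : 0 ≤ Real.sinh (Real.pi * ρ) := by
      rw [Real.sinh_nonneg_iff]
      positivity
    have b4 := mul_le_mul_of_nonneg_left b2 (show 0 ≤ √2 * Real.sinh (Real.pi * ρ) by positivity)
    have b5 : √2 * √2 = 2 := Real.mul_self_sqrt (by norm_num)
    calc _ ≤ l * Real.sinh (Real.pi * ρ) := b1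
      _ = √2 * Real.sinh (Real.pi * ρ) * (l * (√2 / 2)) := by
        linear_combination (-(l * Real.sinh (Real.pi * ρ)) / 2) * b5
      _ ≤ _ := b4
  have hm : (Real.cos (D / 2) * Real.cosh (2 * ρ * D)) ^ 2 =
      (1 - Real.sin (D / 2) ^ 2) * (1 + Real.sinh (2 * ρ * D) ^ 2) := by
    rw [mul_pow, Real.cos_sq', Real.cosh_sq]
    ring
  have := ring_Q_side_pos I0 R0 hs1 hs1' hs2 hθ θ1 hm p0 p1
  have c1 : Real.cos D = 1 - 2 * Real.sin (D / 2) ^ 2 := by
    rw [show D = 2 * (D / 2) by ring, Real.cos_two_mul, Real.cos_sq',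
      show 2 * (D / 2) / 2 = D / 2 by ring]
    ring
  have c2 : Real.sin D = 2 * Real.sin (D / 2) * Real.cos (D / 2) := by
    rw [show D = 2 * (D / 2) by ring, Real.sin_two_mul, show 2 * (D / 2) / 2 = D / 2 by ring]
  have c3 : Real.cosh (2 * (2 * ρ * D)) = 1 + 2 * Real.sinh (2 * ρ * D) ^ 2 := by
    rw [Real.cosh_two_mul, Real.cosh_sq]
    ring
  have c4 : Real.sinh (2 * (2 * ρ * D)) = 2 * Real.sinh (2 * ρ * D) * Real.cosh (2 * ρ * D) :=
    Real.sinh_two_mul _
  rw [c2, c4] at key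
  rw [c1]
  rw [c4, c3] at *
  generalize Real.sin (D / 2) = s1 at *
  generalize Real.cos (D / 2) = c1 at *
  generalize Real.sinh (2 * ρ * D) = s2 at *
  generalize Real.cosh (2 * ρ * D) = c2 at *
  nlinarith only [key, this]

section
open NumI NumI.E

private def pi2 : E := mul (q 2 1) pi
private def cX : E := cosPi (mul (q 2 1) (var 0))
private def sX : E := sinPi (mul (q 2 1) (var 0))
private def cT : E := cosh (mul pi2 (var 1))
private def sT : E := sinh (mul pi2 (var 1))
private def cH : E := cosh (mul pi2 (var 2))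
private def sH : E := sinh (mul pi2 (var 2))
private def cA : E := cosPi (mul (q 2 1) (var 3))
private def sA : E := sinPi (mul (q 2 1) (var 3))
private def eR : E := sub (q 1 1) (mul cX cT)
private def eQ : E := sub (sub (mul (mul (q 2 1) eR) (add (q 1 1) (mul cA cH)))
  (mul (mul (q 2 1) (mul sA sH)) (mul sX sT))) (sq (add cA cH))
private def th : E := mul (q 14143 10000) (sinh (mul pi (var 2)))
private def p0 : E := sub (mul eR (sub (q 1 1) (sq th))) (mul (mul (q 2 1) (mul sX sT)) th)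
private def p1 : E := sub (sub eR (mul (q 1 2) (mul (mul (mul sX sT) th) (add (q 3 1) (sq th)))))
  (mul (q 1 2) (sq (add (q 1 1) (sq th))))

theorem Q_mid_num_h1_q1 : chk [eQ] 37
    (NumI.setL 2 (NumI.setL 0 (NumI.setL 3 [V.of 10000 2700 3000, V.of 10000 0 560, V.of 10000 0 1045,
    V.of 10000 0 2500]))) = true := by
  decide +kernel

theorem Q_mid_num_h1_q2 : chk [eQ] 36
    (NumI.setL 2 (NumI.setR 2 (NumI.setL 0 (NumI.setL 3 [V.of 10000 2700 3000, V.of 10000 0 560, V.of 10000 0 1045,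
    V.of 10000 0 2500])))) = true := by
  decide +kernel

theorem Q_mid_num_h1_q3 : chk [eQ] 36
    (NumI.setR 2 (NumI.setR 2 (NumI.setL 0 (NumI.setL 3 [V.of 10000 2700 3000, V.of 10000 0 560, V.of 10000 0 1045,
    V.of 10000 0 2500])))) = true := by
  decide +kernel

theorem Q_mid_num_h1_q4 : chk [eQ] 38
    (NumI.setR 0 (NumI.setL 3 [V.of 10000 2700 3000, V.of 10000 0 560, V.of 10000 0 1045,
    V.of 10000 0 2500])) = true := by
  decide +kernel

theorem Q_mid_num_h1_q5 : chk [eQ] 39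
    (NumI.setR 3 [V.of 10000 2700 3000, V.of 10000 0 560, V.of 10000 0 1045,
    V.of 10000 0 2500]) = true := by
  decide +kernel

theorem Q_mid_num_h1 : chk [eQ] 40
    [V.of 10000 2700 3000, V.of 10000 0 560, V.of 10000 0 1045,
    V.of 10000 0 2500] = true :=
  NumI.chk_node (i := 3) (by decide +kernel)
    (NumI.chk_node (i := 0) (by decide +kernel)
      (NumI.chk_node (i := 2) (by decide +kernel)
        Q_mid_num_h1_q1
        (NumI.chk_node (i := 2) (by decide +kernel)
          Q_mid_num_h1_q2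
          Q_mid_num_h1_q3))
      Q_mid_num_h1_q4)
    Q_mid_num_h1_q5

/-- the mid part on `[27/100, 3/10]` -/
theorem Q_mid_num {x τ ρ a : ℝ} (hx : 27 / 100 ≤ x) (hx' : x ≤ 3 / 10) (hτ : 0 ≤ τ)
    (hτ' : τ ≤ 56 / 1000) (hρ : 0 ≤ ρ) (hρ' : ρ ≤ 1045 / 10000) (ha : 0 ≤ a) (ha' : a ≤ 1 / 4) :
    0 < 2 * (1 - Real.cos (2 * Real.pi * x) * Real.cosh (2 * Real.pi * τ)) *
      (1 + Real.cos (2 * Real.pi * a) * Real.cosh (2 * Real.pi * ρ)) -
      2 * Real.sin (2 * Real.pi * a) * Real.sinh (2 * Real.pi * ρ) *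
        (Real.sin (2 * Real.pi * x) * Real.sinh (2 * Real.pi * τ)) -
      (Real.cos (2 * Real.pi * a) + Real.cosh (2 * Real.pi * ρ)) ^ 2 := by
  have g : chk [eQ] 40 [V.of 10000 2700 3000, V.of 10000 0 560, V.of 10000 0 1045,
    V.of 10000 0 2500] = true := Q_mid_num_h1
  have h := pos_of_chk (chk4 g (by norm_num) (x := x) (y := τ) (z := ρ) (w := a)
    (by norm_num; linarith only [hx]) (by norm_num; linarith only [hx']) (by norm_num; linarith only [hτ])
    (by norm_num; linarith only [hτ']) (by norm_num; linarith only [hρ]) (by norm_num; linarith only [hρ']) (by norm_num; linarith only [ha])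
    (by norm_num; linarith only [ha']))
  simp only [eQ, eR, pi2, cX, sX, cT, sT, cH, sH, cA, sA, E.val, lkR_zero, lkR_one, lkR_succ] at h
  simp only [Int.cast_ofNat, Nat.cast_ofNat, Int.cast_one, Nat.cast_one, div_one] at h
  rw [show 2 * Real.pi * x = Real.pi * (2 * x) by ring,
    show 2 * Real.pi * a = Real.pi * (2 * a) by ring]
  linarith only [h]

theorem Q_side_num {x τ ρ : ℝ} (hx : 27 / 100 ≤ x) (hx' : x ≤ 3 / 10) (hτ : 0 ≤ τ)
    (hτ' : τ ≤ 56 / 1000) (hρ : 0 ≤ ρ) (hρ' : ρ ≤ 1045 / 10000) :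
    0 < (1 - Real.cos (2 * Real.pi * x) * Real.cosh (2 * Real.pi * τ)) *
        (1 - (14143 / 10000 * Real.sinh (Real.pi * ρ)) ^ 2) -
      2 * (Real.sin (2 * Real.pi * x) * Real.sinh (2 * Real.pi * τ)) *
        (14143 / 10000 * Real.sinh (Real.pi * ρ)) ∧
    0 < (1 - Real.cos (2 * Real.pi * x) * Real.cosh (2 * Real.pi * τ)) -
      (Real.sin (2 * Real.pi * x) * Real.sinh (2 * Real.pi * τ)) *
        (14143 / 10000 * Real.sinh (Real.pi * ρ)) *
        (3 + (14143 / 10000 * Real.sinh (Real.pi * ρ)) ^ 2) / 2 -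
      (1 + (14143 / 10000 * Real.sinh (Real.pi * ρ)) ^ 2) ^ 2 / 2 := by
  have g0 : chk [p0] 40 [V.of 10000 2700 3000, V.of 10000 0 560, V.of 10000 0 1045] = true := by
    decide +kernel
  have g1 : chk [p1] 40 [V.of 10000 2700 3000, V.of 10000 0 560, V.of 10000 0 1045] = true := by
    decide +kernel
  have h0 := pos_of_chk (chk3 g0 (by norm_num) (x := x) (y := τ) (z := ρ)
    (by norm_num; linarith only [hx]) (by norm_num; linarith only [hx']) (by norm_num; linarith only [hτ])
    (by norm_num; linarith only [hτ']) (by norm_num; linarith only [hρ]) (by norm_num; linarith only [hρ']))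
  have h1 := pos_of_chk (chk3 g1 (by norm_num) (x := x) (y := τ) (z := ρ)
    (by norm_num; linarith only [hx]) (by norm_num; linarith only [hx']) (by norm_num; linarith only [hτ])
    (by norm_num; linarith only [hτ']) (by norm_num; linarith only [hρ]) (by norm_num; linarith only [hρ']))
  simp only [p0, p1, th, eR, pi2, cX, sX, cT, sT, E.val, lkR_zero, lkR_one, lkR_succ] at h0 h1
  simp only [Int.cast_ofNat, Nat.cast_ofNat, Int.cast_one, Nat.cast_one, div_one] at h0 h1
  rw [show 2 * Real.pi * x = Real.pi * (2 * x) by ring]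
  constructor
  · linarith only [h0]
  · linarith only [h1]

end

theorem Q_pos_rr {x t σ ρ : ℝ} (hx : 27 / 100 ≤ x) (hx' : x ≤ 7 / 10) (hρ : 0 ≤ ρ)
    (hρ' : ρ ≤ 1045 / 10000) (ht : |t| ≤ 56 / 1000) (hσ : |σ| < 1 / 2) :
    0 < 2 * (1 - Real.cos (2 * Real.pi * x) * Real.cosh (2 * Real.pi * t)) *
      (1 + Real.cos (2 * Real.pi * σ) * Real.cosh (2 * Real.pi * (ρ * LT.th σ))) -
      2 * Real.sin (2 * Real.pi * σ) * Real.sinh (2 * Real.pi * (ρ * LT.th σ)) *
        Real.sin (2 * Real.pi * x) * Real.sinh (2 * Real.pi * t) -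
      (Real.cos (2 * Real.pi * σ) + Real.cosh (2 * Real.pi * (ρ * LT.th σ))) ^ 2 := by
  have hpi := Real.pi_pos
  have c3 : Real.cosh (2 * Real.pi * t) = Real.cosh (2 * Real.pi * |t|) := by
    rcases abs_choice t with h | h <;> rw [h]
    rw [mul_neg, Real.cosh_neg]
  have c4 : |Real.sinh (2 * Real.pi * t)| = Real.sinh (2 * Real.pi * |t|) := by
    rw [Real.abs_sinh, abs_mul, abs_of_pos (show 0 < 2 * Real.pi by positivity)]
  have c5 : 0 < Real.cosh (2 * Real.pi * |t|) := Real.cosh_pos _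
  have c6 : 0 ≤ Real.sinh (2 * Real.pi * |t|) := by rw [← c4]; exact abs_nonneg _
  rcases le_total x (3 / 10) with h3 | h3
  · have hs : 0 ≤ Real.sin (2 * Real.pi * x) := by
      apply Real.sin_nonneg_of_nonneg_of_le_pi
      · positivity
      · nlinarith only [hx', hpi, h3]
    have eI : |Real.sin (2 * Real.pi * x) * Real.sinh (2 * Real.pi * t)| =
        Real.sin (2 * Real.pi * x) * Real.sinh (2 * Real.pi * |t|) := by
      rw [abs_mul, c4, abs_of_nonneg hs]
    rcases le_total |σ| (1 / 4) with hq | hq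
    · have h := Q_mid_num hx h3 (abs_nonneg t) ht hρ hρ' (abs_nonneg σ) hq
      rw [th_of_le hq, mul_one]
      have e1 : Real.cos (2 * Real.pi * |σ|) = Real.cos (2 * Real.pi * σ) := by
        rcases abs_choice σ with h | h <;> rw [h]
        rw [mul_neg, Real.cos_neg]
      have e2 : Real.sin (2 * Real.pi * |σ|) = |Real.sin (2 * Real.pi * σ)| := by
        have : 0 ≤ Real.sin (2 * Real.pi * |σ|) := by
          apply Real.sin_nonneg_of_nonneg_of_le_pi
          · positivity
          · nlinarith only [hσ, hpi]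
        rw [← abs_of_nonneg this]
        rcases abs_choice σ with h | h <;> rw [h]
        rw [mul_neg, Real.sin_neg, abs_neg]
      rw [e1, e2, ← c3] at h
      have hsh : 0 ≤ Real.sinh (2 * Real.pi * ρ) := by
        rw [Real.sinh_nonneg_iff]
        positivity
      have key : Real.sin (2 * Real.pi * σ) * (Real.sin (2 * Real.pi * x) *
          Real.sinh (2 * Real.pi * t)) ≤ |Real.sin (2 * Real.pi * σ)| *
          (Real.sin (2 * Real.pi * x) * Real.sinh (2 * Real.pi * |t|)) := by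
        rw [← eI, ← abs_mul]
        exact le_abs_self _
      have key2 := mul_le_mul_of_nonneg_left key (show 0 ≤ 2 * Real.sinh (2 * Real.pi * ρ) by
        positivity)
      linarith only [h, key2]
    · obtain ⟨h0, h1⟩ := Q_side_num hx h3 (abs_nonneg t) ht hρ hρ'
      have a2 : (0 : ℝ) ≤ √2 := Real.sqrt_nonneg _
      have a3 : √2 ≤ 14143 / 10000 := by
        rw [Real.sqrt_le_left (by norm_num)]
        norm_num
      have a4 : 0 ≤ Real.sinh (Real.pi * ρ) := by
        rw [Real.sinh_nonneg_iff]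
        positivity
      rw [← c3, ← eI] at h0 h1
      set y := 14143 / 10000 * Real.sinh (Real.pi * ρ) with hy
      have hxy : √2 * Real.sinh (Real.pi * ρ) ≤ y := mul_le_mul_of_nonneg_right a3 a4
      have hx0 : 0 ≤ √2 * Real.sinh (Real.pi * ρ) := mul_nonneg a2 a4
      have hy0 : 0 ≤ y := hx0.trans hxy
      set θ := √2 * Real.sinh (Real.pi * ρ) with hθ
      set R := 1 - Real.cos (2 * Real.pi * x) * Real.cosh (2 * Real.pi * t) with hR
      have hI0 := abs_nonneg (Real.sin (2 * Real.pi * x) * Real.sinh (2 * Real.pi * t))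
      set I := |Real.sin (2 * Real.pi * x) * Real.sinh (2 * Real.pi * t)| with hI
      have hR0 : 0 < R := by
        have : Real.cos (2 * Real.pi * x) ≤ 0 := by
          apply Real.cos_nonpos_of_pi_div_two_le_of_le <;> nlinarith only [hpi, hx, hx']
        have h5 : 0 < Real.cosh (2 * Real.pi * t) := Real.cosh_pos _
        rw [hR]
        nlinarith only [hq, hσ, c3, this, c5]
      have hy1 : y ^ 2 ≤ 1 := by
        by_contra h
        push Not at h
        have : R * (1 - y ^ 2) < 0 := mul_neg_of_pos_of_neg hR0 (by linarith only [h])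
        have : 0 ≤ 2 * I * y := by positivity
        linarith
      have hy2 : y ≤ 1 := by nlinarith only [hy, hy1, hσ, hq, a4]
      have d1 : θ ^ 2 ≤ y ^ 2 := pow_le_pow_left₀ hx0 hxy 2
      have d2 : I * θ ≤ I * y := mul_le_mul_of_nonneg_left hxy hI0
      have d3 : R * (1 - y ^ 2) ≤ R * (1 - θ ^ 2) := mul_le_mul_of_nonneg_left (by linarith only [d1]) hR0.le
      have d4 : I * θ * (3 + θ ^ 2) ≤ I * y * (3 + y ^ 2) :=
        mul_le_mul d2 (by linarith only [d1]) (by positivity) (by positivity)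
      have d5 : (1 + θ ^ 2) ^ 2 ≤ (1 + y ^ 2) ^ 2 := pow_le_pow_left₀ (by positivity) (by linarith only [d1]) 2
      exact ring_Q_pos_side hρ hσ hq hR0.le (hxy.trans hy2) (by linarith only [h0, d2, d3]) (by linarith only [h1, d4, d5])
  · have hc : RCondS (1 - Real.cos (2 * Real.pi * x) * Real.cosh (2 * Real.pi * t))
        |Real.sin (2 * Real.pi * x) * Real.sinh (2 * Real.pi * t)| ρ := by
      obtain ⟨c1, c2⟩ := cos_hinge h3 hx'
      rw [c3, abs_mul, c4]
      exact (RCondS_b hρ hρ' (abs_nonneg t) (by linarith only [ht])).mono hρ (by nlinarith only [c5, c1])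
        (mul_le_mul_of_nonneg_right c2 c6) (by positivity)
    exact ring_Q_pos hρ hσ hc

/-- the singular factor -/
theorem LL_two_mul_lt {w : ℂ} (h0 : 1 / 4 < w.re) (h1 : w.re < 3 / 4)
    (hs : Complex.sin (Real.pi * (2 * w)) ≠ 0) : LL (2 * w) - 2 * LL w < 0 := by
  have hpi := Real.pi_pos
  have e : Complex.sin (Real.pi * (2 * w)) = 2 * Complex.sin (Real.pi * w) *
      Complex.cos (Real.pi * w) := by
    rw [show (Real.pi : ℂ) * (2 * w) = 2 * (Real.pi * w) by ring, Complex.sin_two_mul]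
  have hc : Complex.cos (Real.pi * w) ≠ 0 := by
    intro h
    rw [h, mul_zero] at e
    exact hs e
  have hw : w ∈ strip := ⟨by linarith only [h0], by linarith only [h1]⟩
  have hsn := sin_ne_of_strip hw
  rw [LL_eq, LL_eq, e]
  have n1 : ‖(2 : ℂ) * (2 * Complex.sin (Real.pi * w) * Complex.cos (Real.pi * w))‖ =
      ‖2 * Complex.sin (Real.pi * w)‖ * ‖2 * Complex.cos (Real.pi * w)‖ := by
    rw [← norm_mul]
    congr 1
    ring
  rw [n1, Real.log_mul (by simpa using hsn) (by simpa using hc)]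
  have key : ‖2 * Complex.cos (Real.pi * w)‖ < ‖2 * Complex.sin (Real.pi * w)‖ := by
    rw [norm_mul, norm_mul]
    apply mul_lt_mul_of_pos_left _ (by simp)
    have h2 : Complex.normSq (Complex.cos (Real.pi * w)) <
        Complex.normSq (Complex.sin (Real.pi * w)) := by
      have ew : (Real.pi : ℂ) * w = ((Real.pi * w.re : ℝ) : ℂ) + ((Real.pi * w.im : ℝ) : ℂ) *
          Complex.I := by
        apply Complex.ext <;> simp
      rw [ew]
      set a := Real.pi * w.re with ha
      set b := Real.pi * w.im with hb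
      rw [Complex.cos_add_mul_I, Complex.sin_add_mul_I, ← Complex.ofReal_cos, ← Complex.ofReal_sin,
        ← Complex.ofReal_cosh, ← Complex.ofReal_sinh]
      have e1 : Complex.normSq (((Real.cos a : ℝ) : ℂ) * ((Real.cosh b : ℝ) : ℂ) -
          ((Real.sin a : ℝ) : ℂ) * ((Real.sinh b : ℝ) : ℂ) * Complex.I) =
          Real.cos a ^ 2 * Real.cosh b ^ 2 + Real.sin a ^ 2 * Real.sinh b ^ 2 := by
        generalize Real.cos a = p
        generalize Real.cosh b = q
        generalize Real.sin a = r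
        generalize Real.sinh b = s
        rw [Complex.normSq_apply]
        simp
        ring
      have e2 : Complex.normSq (((Real.sin a : ℝ) : ℂ) * ((Real.cosh b : ℝ) : ℂ) +
          ((Real.cos a : ℝ) : ℂ) * ((Real.sinh b : ℝ) : ℂ) * Complex.I) =
          Real.sin a ^ 2 * Real.cosh b ^ 2 + Real.cos a ^ 2 * Real.sinh b ^ 2 := by
        generalize Real.cos a = p
        generalize Real.cosh b = q
        generalize Real.sin a = r
        generalize Real.sinh b = s
        rw [Complex.normSq_apply]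
        simp
        ring
      rw [e1, e2, Real.cosh_sq b]
      have h3 : Real.cos (2 * a) < 0 := by
        have : Real.cos (2 * a) = -Real.cos (Real.pi - 2 * a) := by
          rw [Real.cos_pi_sub, neg_neg]
        rw [this]
        have : 0 < Real.cos (Real.pi - 2 * a) := by
          apply Real.cos_pos_of_mem_Ioo
          constructor <;> nlinarith only [h1, hpi, h0]
        linarith only [this]
      rw [Real.cos_two_mul'] at h3
      nlinarith only [h3]
    rw [← Complex.sq_norm, ← Complex.sq_norm] at h2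
    exact lt_of_pow_lt_pow_left₀ 2 (norm_nonneg _) h2
  have := Real.log_lt_log (by simpa using hc) key
  linarith only [this]

/-- The level inequality from the quadratic inequality (also with the convention `log 0 = 0`) -/
theorem LL_neg_of_Q {w : ℂ} {σ ρ : ℝ} (hx : 1 / 4 < w.re) (hx' : w.re < 3 / 4) (hρ : 0 < ρ)
    (hσ : |σ| < 1 / 2)
    (hQ : 0 < 2 * (1 - Real.cos (2 * Real.pi * w.re) * Real.cosh (2 * Real.pi * w.im)) *
      (1 + Real.cos (2 * Real.pi * σ) * Real.cosh (2 * Real.pi * (ρ * LT.th σ))) -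
      2 * Real.sin (2 * Real.pi * σ) * Real.sinh (2 * Real.pi * (ρ * LT.th σ)) *
        Real.sin (2 * Real.pi * w.re) * Real.sinh (2 * Real.pi * w.im) -
      (Real.cos (2 * Real.pi * σ) + Real.cosh (2 * Real.pi * (ρ * LT.th σ))) ^ 2) :
    LL (w + 1 / 2 + LT.zt ρ σ) + LL (w + 1 / 2 - LT.zt ρ σ) - 2 * LL w < 0 := by
  have hpi := Real.pi_pos
  set ζ := LT.zt ρ σ with hζ
  have hη : 0 < ρ * LT.th σ := mul_pos hρ (th_pos hσ)
  obtain ⟨hs0, hs1⟩ := abs_lt.mp hσ
  have zr : ζ.re = σ := by rw [hζ]; simp [LT.zt]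
  have zi : ζ.im = ρ * LT.th σ := by rw [hζ, zt_eq]; simp
  have hsing : ∀ u : ℂ, 0 < u.re → u.re < 2 → Complex.sin (Real.pi * u) = 0 → u = 1 := by
    intro u h0 h1 hu
    rw [Complex.sin_eq_zero_iff] at hu
    obtain ⟨k, hk⟩ := hu
    have hu' : u = k := by
      have : (Real.pi : ℂ) ≠ 0 := by exact_mod_cast Real.pi_ne_zero
      have h2 : (Real.pi : ℂ) * u = Real.pi * k := by rw [hk]; ring
      exact mul_left_cancel₀ this h2
    rw [hu'] at h0 h1 ⊢
    simp at h0 h1
    have : k = 1 := by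
      have a1 : (0 : ℤ) < k := by exact_mod_cast h0
      have a2 : k < (2 : ℤ) := by exact_mod_cast h1
      omega
    rw [this]
    simp
  by_cases hu : Complex.sin (Real.pi * (w + 1 / 2 + ζ)) = 0
  · have h1 := hsing _ (by simp [zr]; linarith only [hx, hs0]) (by simp [zr]; linarith only [hx', hs1]) hu
    have h2 : w + 1 / 2 - ζ = 2 * w := by linear_combination -h1
    have h3 : Complex.sin (Real.pi * (2 * w)) ≠ 0 := by
      intro h4
      have h5 := hsing (2 * w) (by simp; linarith only [hx]) (by simp; linarith only [hx']) h4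
      have h6 : ζ = 0 := by linear_combination h1 - h5 / 2
      rw [h6] at zi
      simp at zi
      rcases zi with h | h
      · exact hρ.ne' h
      · exact (th_pos hσ).ne' h
    have h4 := LL_two_mul_lt (w := w) (by linarith only [hx]) (by linarith only [hx']) h3
    have h5 : LL (w + 1 / 2 + ζ) = 0 := by rw [LL_eq, hu]; simp
    rw [h2, h5]
    linarith only [h4]
  by_cases hv : Complex.sin (Real.pi * (w + 1 / 2 - ζ)) = 0
  · have h1 := hsing _ (by simp [zr]; linarith only [hx, hs1]) (by simp [zr]; linarith only [hx', hs0]) hv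
    have h2 : w + 1 / 2 + ζ = 2 * w := by linear_combination -h1
    have h3 : Complex.sin (Real.pi * (2 * w)) ≠ 0 := by
      rw [← h2]
      exact hu
    have h4 := LL_two_mul_lt (w := w) (by linarith only [hx]) (by linarith only [hx']) h3
    have h5 : LL (w + 1 / 2 - ζ) = 0 := by rw [LL_eq, hv]; simp
    rw [h2, h5]
    linarith only [h4]
  have pos : ∀ u : ℂ, Complex.sin (Real.pi * u) ≠ 0 → 0 < 2 * Real.cosh (2 * Real.pi * u.im) -
      2 * Real.cos (2 * Real.pi * u.re) := by
    intro u hu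
    by_contra hcon
    push Not at hcon
    have h1 := Real.one_le_cosh (2 * Real.pi * u.im)
    have h2 := Real.cos_le_one (2 * Real.pi * u.re)
    have h3 : Real.cosh (2 * Real.pi * u.im) = 1 := by linarith only [h1, hcon, h2]
    have h4 : Real.cos (2 * Real.pi * u.re) = 1 := by linarith only [hcon, h1, h2]
    have h5 : u.im = 0 := by
      by_contra h
      have := Real.one_lt_cosh.mpr (show 2 * Real.pi * u.im ≠ 0 by positivity)
      linarith only [hcon, h2, this]
    apply hu
    rw [Real.cos_eq_one_iff] at h4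
    obtain ⟨k, hk⟩ := h4
    have h6 : u = k := by
      apply Complex.ext
      · simp
        have : (k : ℝ) * (2 * Real.pi) = u.re * (2 * Real.pi) := by linarith only [hk]
        exact (mul_right_cancel₀ (by positivity) this).symm
      · simpa using h5
    rw [h6, mul_comm]
    exact Complex.sin_int_mul_pi k
  rw [LL_eq', LL_eq', LL_eq']
  have n1 := pos _ hu
  have n2 := pos _ hv
  have n0 := pos w (sin_ne_of_strip ⟨by linarith only [hx], by linarith only [hx']⟩)
  have ui : (w + 1 / 2 + ζ).im = w.im + ρ * LT.th σ := by simp [zi]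
  have ur : (w + 1 / 2 + ζ).re = w.re + 1 / 2 + σ := by simp [zr]
  have vi : (w + 1 / 2 - ζ).im = w.im - ρ * LT.th σ := by simp [zi]
  have vr : (w + 1 / 2 - ζ).re = w.re + 1 / 2 - σ := by simp [zr]
  rw [ui, ur] at n1 ⊢
  rw [vi, vr] at n2 ⊢
  set x := w.re
  set t := w.im
  set η := ρ * LT.th σ
  have e1 : 2 * Real.cosh (2 * Real.pi * (t + η)) - 2 * Real.cos (2 * Real.pi * (x + 1 / 2 + σ)) =
      2 * (Real.cosh (2 * Real.pi * t + 2 * Real.pi * η) +
        Real.cos (2 * Real.pi * x + 2 * Real.pi * σ)) := by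
    rw [show 2 * Real.pi * (x + 1 / 2 + σ) = 2 * Real.pi * x + 2 * Real.pi * σ + Real.pi by ring,
      Real.cos_add_pi, mul_add]
    ring
  have e2 : 2 * Real.cosh (2 * Real.pi * (t - η)) - 2 * Real.cos (2 * Real.pi * (x + 1 / 2 - σ)) =
      2 * (Real.cosh (2 * Real.pi * t - 2 * Real.pi * η) +
        Real.cos (2 * Real.pi * x - 2 * Real.pi * σ)) := by
    rw [show 2 * Real.pi * (x + 1 / 2 - σ) = 2 * Real.pi * x - 2 * Real.pi * σ + Real.pi by ring,
      Real.cos_add_pi, mul_sub]
    ring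
  rw [← ring_prod] at hQ
  rw [e1] at n1 ⊢
  rw [e2] at n2 ⊢
  have hl : Real.log (2 * (Real.cosh (2 * Real.pi * t + 2 * Real.pi * η) +
        Real.cos (2 * Real.pi * x + 2 * Real.pi * σ))) +
      Real.log (2 * (Real.cosh (2 * Real.pi * t - 2 * Real.pi * η) +
        Real.cos (2 * Real.pi * x - 2 * Real.pi * σ))) <
      2 * Real.log (2 * Real.cosh (2 * Real.pi * t) - 2 * Real.cos (2 * Real.pi * x)) := by
    rw [← Real.log_mul n1.ne' n2.ne', ← Real.log_rpow n0]
    apply Real.log_lt_log (mul_pos n1 n2)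
    rw [Real.rpow_two]
    nlinarith only [hQ]
  linarith only [hl]

/-- **The level inequality** for small heights: for every ring variable inside -/
theorem LL_neg_rr {w : ℂ} {σ ρ : ℝ} (hx : 27 / 100 ≤ w.re) (hx' : w.re ≤ 7 / 10) (hρ : 0 < ρ)
    (hρ' : ρ ≤ 1045 / 10000) (ht : |w.im| ≤ 56 / 1000) (hσ : |σ| < 1 / 2) :
    LL (w + 1 / 2 + LT.zt ρ σ) + LL (w + 1 / 2 - LT.zt ρ σ) - 2 * LL w < 0 :=
  LL_neg_of_Q (by linarith only [hx, hρ, hρ']) (by linarith only [hx', hρ, hρ']) hρ hσ (Q_pos_rr hx hx' hρ.le hρ' ht hσ)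

/-- **The level inequality** on `[3/10, 7/10]`: for every ring variable inside -/
theorem LL_lev_neg {w : ℂ} {σ ρ : ℝ} (hx : 3 / 10 ≤ w.re) (hx' : w.re ≤ 7 / 10) (hρ : 0 < ρ)
    (ht : (|w.im| ≤ 158 / 1000 ∧ ρ ≤ 9 / 100) ∨ (|w.im| ≤ 125 / 1000 ∧ ρ ≤ 1045 / 10000))
    (hσ : |σ| < 1 / 2) :
    LL (w + 1 / 2 + LT.zt ρ σ) + LL (w + 1 / 2 - LT.zt ρ σ) - 2 * LL w < 0 := by
  have hpi := Real.pi_pos
  refine LL_neg_of_Q (by linarith only [hx]) (by linarith only [hx']) hρ hσ (ring_Q_pos hρ.le hσ ?_)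
  obtain ⟨c1, c2⟩ := cos_hinge hx hx'
  have c3 : Real.cosh (2 * Real.pi * w.im) = Real.cosh (2 * Real.pi * |w.im|) := by
    rcases abs_choice w.im with h | h <;> rw [h]
    rw [mul_neg, Real.cosh_neg]
  have c4 : |Real.sinh (2 * Real.pi * w.im)| = Real.sinh (2 * Real.pi * |w.im|) := by
    rw [Real.abs_sinh, abs_mul, abs_of_pos (show 0 < 2 * Real.pi by positivity)]
  have c5 : 0 < Real.cosh (2 * Real.pi * |w.im|) := Real.cosh_pos _
  have c6 : 0 ≤ Real.sinh (2 * Real.pi * |w.im|) := by rw [← c4]; exact abs_nonneg _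
  rw [c3, abs_mul, c4]
  rcases ht with ⟨ha, hb⟩ | ⟨ha, hb⟩
  · exact (RCondS_a hρ.le hb (abs_nonneg _) ha).mono hρ.le (by nlinarith only [c1, c5])
      (mul_le_mul_of_nonneg_right c2 c6) (by positivity)
  · exact (RCondS_b hρ.le hb (abs_nonneg _) ha).mono hρ.le (by nlinarith only [c1, c5])
      (mul_le_mul_of_nonneg_right c2 c6) (by positivity)

end Pool.Agent.Work.MP_b30479_gt.G2
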