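import Pool.Agent.Work.MP_b30479_gt.G2.RVa

/-!
# Values at a ring|ring hinge: rows
-/

set_option linter.unusedSimpArgs false

namespace Pool.Agent.Work.MP_b30479_gt.G2

open VOL NumU

namespace RV

variable {T s ρ x t : ℝ}

theorem r10 (h0 : 0 ≤ t) (h1 : t ≤ 56 / 1000) (h2 : 1 / 4 ≤ x) (h3 : x ≤ 27 / 100) (h4 : 0 ≤ ρ)
    (h5 : ρ ≤ 1045 / 10000) : Real.pi * t < fu x t (-(1 / 4)) ρ := by
  have k1 := pi_le_abs (t - ρ)
  have k2 := pi_le_abs (ρ - t)
  rw [abs_sub_comm] at k2
  unfold fu
  rw [show x + 1 / 2 + -(1 / 4) = 1 / 4 + x by ring]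
  rcases le_total x (26 / 100) with hx | hx
  · have h : chk [m3' (E.sub (E.var 1) er), m3' (E.sub er (E.var 1))] 24
        [NumI.V.of 10000 2500 2600, NumI.V.of 10000 0 560, NumI.V.of 10000 0 1045] = true := by
      decide +kernel
    obtain ⟨f, hf, hp⟩ := chk3 h (by norm_num) (x := x) (y := t) (z := ρ)
      (by norm_num; linarith only [h2]) (by norm_num; linarith only [hx]) (by norm_num; linarith only [h0])
      (by norm_num; linarith only [h1]) (by norm_num; linarith only [h4]) (by norm_num; linarith only [h5])
    have h7 : uu (1 / 100 + 1) (t - ρ) ≤ uu (x + 1 / 2 - -(1 / 4)) (t - ρ) :=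
      anti1 (by linarith only [h2]) (by linarith only [hx]) (by norm_num) (by rw [abs_le]; constructor <;> linarith only [h0, h5, h1, h4])
    rw [uu_add_one] at h7
    simp only [List.mem_cons, List.not_mem_nil, or_false] at hf
    rcases hf with rfl | rfl
    · simp only [m3', er, E.val, NumI.lkR] at hp
      push_cast at hp
      simp only [div_one, zero_div] at hp
      linarith only [k1, h7, hp]
    · simp only [m3', er, E.val, NumI.lkR] at hp
      push_cast at hp
      simp only [div_one, zero_div] at hp
      linarith only [k2, h7, hp]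
  · have h : chk [m3 (E.sub (E.var 1) er), m3 (E.sub er (E.var 1))] 24
        [NumI.V.of 10000 2600 2700, NumI.V.of 10000 0 560, NumI.V.of 10000 0 1045] = true := by
      decide +kernel
    obtain ⟨f, hf, hp⟩ := chk3 h (by norm_num) (x := x) (y := t) (z := ρ)
      (by norm_num; linarith only [hx]) (by norm_num; linarith only [h3]) (by norm_num; linarith only [h0])
      (by norm_num; linarith only [h1]) (by norm_num; linarith only [h4]) (by norm_num; linarith only [h5])
    rw [beyond (show x + 1 / 2 - -(1 / 4) = (x - 1 / 4) + 1 by ring)]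
    simp only [List.mem_cons, List.not_mem_nil, or_false] at hf
    rcases hf with rfl | rfl
    · simp only [m3, er, E.val, NumI.lkR] at hp
      push_cast at hp
      simp only [div_one, zero_div] at hp
      linarith only [k1, hp]
    · simp only [m3, er, E.val, NumI.lkR] at hp
      push_cast at hp
      simp only [div_one, zero_div] at hp
      linarith only [k2, hp]

theorem r11 (h0 : 0 ≤ t) (h2 : 5 / 1000 ≤ x) (h1 : t ≤ 56 / 100 * x) (h3 : x ≤ 6 / 100) (h4 : 0 ≤ ρ)
    (h5 : ρ ≤ 1045 / 10000) : Real.pi * t < fu x t (-(1 / 4)) ρ := by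
  have hx : 0 < x := by linarith only [h2]
  have hm0 : 0 ≤ t / x := by positivity
  have hm1 : t / x ≤ 56 / 100 := by rw [div_le_iff₀ hx]; exact h1
  have ht : t / x * x = t := by field_simp
  unfold fu
  rw [show x + 1 / 2 + -(1 / 4) = 1 / 4 + x by ring, show x + 1 / 2 - -(1 / 4) = 3 / 4 + x by ring]
  rcases le_total x (2 / 100) with hx | hx
  · have h : chk [m4] 24
        [NumI.V.of 10000 50 200, NumI.V.of 10000 0 5600, NumI.V.of 10000 0 1045] = true := by
      decide +kernel
    have hp := pos_of_chk (chk3 h (by norm_num) (x := x) (y := t / x) (z := ρ)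
      (by norm_num; linarith only [h2]) (by norm_num; linarith only [hx]) (by norm_num; linarith only [hm0])
      (by norm_num; linarith only [hm1]) (by norm_num; linarith only [h4]) (by norm_num; linarith only [h5]))
    simp only [m4, er, E.val, NumI.lkR, ht] at hp
    push_cast at hp
    simp only [div_one, zero_div] at hp
    linarith only [hp]
  · have h : chk [m4] 24
        [NumI.V.of 10000 200 600, NumI.V.of 10000 0 5600, NumI.V.of 10000 0 1045] = true := by
      decide +kernel
    have hp := pos_of_chk (chk3 h (by norm_num) (x := x) (y := t / x) (z := ρ)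
      (by norm_num; linarith only [hx]) (by norm_num; linarith only [h3]) (by norm_num; linarith only [hm0])
      (by norm_num; linarith only [hm1]) (by norm_num; linarith only [h4]) (by norm_num; linarith only [h5]))
    simp only [m4, er, E.val, NumI.lkR, ht] at hp
    push_cast at hp
    simp only [div_one, zero_div] at hp
    linarith only [hp]

end RV

end Pool.Agent.Work.MP_b30479_gt.G2
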