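import Pool.Agent.Work.MP_b30479_gt.G2.RVb
import Pool.Agent.Work.MP_b30479_gt.G2.RVc
import Pool.Agent.Work.MP_b30479_gt.G2.RVd
import Pool.Agent.Work.MP_b30479_gt.G2.RVe
import Pool.Agent.Work.MP_b30479_gt.G2.RVf

/-!
# Values at a ring|ring hinge: rows (found with NumU)

`fu x t σ η` is `fR (x + i t) (σ + i η)`.  The hinge is moved to `105/1000 + i T`.
-/
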