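import Pool.Agent.Work.MP_b30479_gt.G2.WRngZ
import Pool.Agent.Work.MP_b30479_gt.G2.RngY
import Pool.Agent.Work.MP_b30479_gt.G2.LRG
import Pool.Agent.Work.MP_b30479_gt.G2.RngX

/-!
# Rings in a word: the left ramps of the hinges
-/

namespace Pool.Agent.Work.MP_b30479_gt.G2

open Finset VOL Filter Topology

theorem eL0_le_eC {x m : ℝ} (h0 : 0 ≤ x) (h1 : x ≤ 12 / 100) : LR.eL0 x m ≤ LR.eC x m := by
  unfold LR.eL0 LR.eC
  split_ifs
  · exact le_min (min_le_left _ _) ((min_le_right _ _).trans (by linarith only [h0]))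
  · exact le_min (by linarith only [h0]) (by linarith only [h1])

/-- **Left ramp of a hinge next to a digit `1`**, shift `π - 6 x`, first round -/
theorem RPl.oneL {b ρ σ x m : ℝ} {w w' : ℂ} (P : RPl b ρ w w' σ) (hb : 4 ≤ b) (hρ : 0 < ρ) (hc : RCap b ρ)
    (H : HOk ρ w) (hw : LR.W x m w) (hm : m ≤ -(2375 / 10000)) (hm' : -(9875 / 10000) ≤ m)
    (hm4 : b < 5 → -(8 / 10) ≤ m) (hx : x ≤ 12 / 100) :
    LR.eL0 x m ≤ S4 m w (LT.zt ρ σ) + (Real.pi - 6 * x) * m :=
  (le_min (eL0_le_eC hw.pos.le hx) le_rfl).trans (P.one hb hρ hc H hw hm hm' hm4 hx)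

/-- a ring|ring hinge on its left ramp: the side of the ring is positive -/
theorem RPl.rr_side {b ρ σ x m : ℝ} {w w' : ℂ} (P : RPl b ρ w w' σ) (hb : 4 ≤ b) (hρ : 0 < ρ)
    (hc : RCap b ρ) (hk : RKe.ok .rr b w) (hns : w + 1 / 2 - LT.zt ρ σ ≠ 1) (hw : LR.W x m w)
    (hm0 : -(385 / 1000) ≤ m) (hm' : m ≤ 56 / 100) (hm5 : 5 ≤ b → m ≤ 465 / 1000)
    (hx : x ≤ 1 / 10) : 0 < S4 m w (LT.zt ρ σ) := by
  have hpi := Real.pi_pos
  have hx0 := hw.pos
  rcases le_total 0 m with h | h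
  · exact P.rr_pos hb hρ hc hns hw h hm' hm5 hx
  · have him : w.im ≤ 0 := by
      rw [hw.im]
      exact mul_nonpos_of_nonpos_of_nonneg h hx0.le
    have H := HOk_of hρ hb hc hk (fun _ => him) (by rw [hw.re]; linarith only [hx, hx0])
    have key := (P.lo hb hρ hc H hw h (by linarith only [hm0, hx, hx0]) (fun _ => by linarith only [hm0, hx, hx0]) (by linarith only [hx, hx0])
      (by nlinarith only [hx, hx0, hm0]) (fun _ => by nlinarith only [hx, hx0, hm0]) (fun _ => by linarith only [hx, hx0])).1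
    have : Real.pi / 2 * m ≤ 0 := mul_nonpos_of_nonneg_of_nonpos (by positivity) h
    linarith only [hx, hx0, key, this]

section
open NumI
open NumI.E

/-- final row, hinges `3 | ring` -/
theorem rowU7t {m : ℝ} (h0 : 0 ≤ m) (h1 : m ≤ 475 / 1000) :
    3 / 10 < Real.log 24 - Real.log (1 + m ^ 2) - 282 / 1000 + 2 * m * Real.arctan (99 / 100 * m) -
      m * (m / 5) - Real.pi / 2 * m := by
  have h : chk [sub (sub (add (sub (sub (log (q 24 1)) (log (add (q 1 1) (mul (var 0) (var 0)))))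
      (q 282 1000)) (mul (mul (q 2 1) (var 0)) (atan (mul (q 99 100) (var 0)))))
      (add (mul (q 1 5) (mul (var 0) (var 0))) (mul (mul (q 1 2) pi) (var 0)))) (q 30 100)] 20
      [V.of 10000 0 4750] = true := by decide +kernel
  have hp := pos_of_chk (chk1 h (by norm_num) (x := m)
    (by norm_num; linarith only [h0]) (by norm_num; linarith only [h1]))
  simp only [E.val, NumI.lkR] at hp
  simp only [Int.cast_ofNat, Nat.cast_ofNat, Int.cast_one, Nat.cast_one, div_one] at hp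
  rw [show m * m = m ^ 2 by ring] at hp
  linarith only [hp]

end

/-- **Left ramp of a hinge `3 | ring`**, `x ≤ 7/100` -/
theorem RPl.three {b ρ σ x m : ℝ} {w w' : ℂ} (P : RPl b ρ w w' σ) (hb : 4 ≤ b) (hρ : 0 < ρ)
    (hc : RCap b ρ) (H : HOk ρ w) (hw : LR.W x m w) (hm : m ≤ 0) (hm' : -(475 / 1000) ≤ m)
    (hx : x ≤ 7 / 100) : 3 / 10 ≤ S4 m w (LT.zt ρ σ) + Real.pi / 2 * m := by
  have hx0 := hw.pos
  cases P with
  | flat h => exact LR.lo7_flat hw h hm hm' hx
  | pos s e h hs hF =>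
    have hFP := FP_of h.pos (by linarith only [hx, hx0, h, h.lo]) h.hi hF
    rcases lt_or_ge b 5 with h5 | h5
    · exact LR.lo7_P4 hw h hc.1 hm hm' hx (LR.FP_mono h hb hFP)
    · exact LR.lo7_P5 hw h (hc.2.1 h5) hm hm' hx (LR.FP_mono h h5 hFP)
  | far s e h hF hx' =>
    rcases lt_or_ge b 5 with h5 | h5
    · exact LR.lo7_X4 hw h hc.1 hm hm' hx (LR.FX_mono h hb hF)
    · exact LR.lo7_X5 hw h (hc.2.1 h5) hm hm' hx (LR.FX_mono h h5 hF)
  | tiny s e h0 h1 hF hx' =>
    subst e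
    have k1 := tiny_bound_neg hρ h0 h1 H hw hm (by linarith only [hm', h0, h1]) (by linarith only [hx, h0, h1]) (by nlinarith only [hm', h0, h1, hm, hx]) hF
    have k2 := rowU7t (m := -m) (by linarith only [hm]) (by linarith only [hm'])
    linarith only [k1, k2]

namespace SR

variable {M : ℕ} {b : Fin (M + 1) → ℤ} {zs : DD (tyW b) ⊕ ZZ (tyW b) → ℂ}
variable {y : DD (tyW b) ⊕ ZZ (tyW b) → ℝ}
variable {h h' : Fin M} {i j j' : Fin (M + 1)} {p : Fin 3}

/-- the other hinge of a ring is bounded -/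
theorem Adj.other_le (A : Adj h i p j) {C : ℝ} (hC : 0 ≤ C)
    (H : ∀ {h' j'}, Adj h' i p.rev j' → y (.inl (.inl h')) ≤ C) : (Yw b zs y i p.rev).re ≤ C := by
  rcases A.other b zs y with ⟨-, h0⟩ | ⟨-, h', j', A'⟩
  · rw [h0]
    exact hC
  · rw [A'.re]
    exact H A'

/-- a hinge on its left ramp -/
theorem Adj.lw (A : Adj h i p j) (hy : Mx b zs y) (h0 : 0 < y (.inl (.inl h)))
    (hx : y (.inl (.inl h)) ≤ wcl b h) :
    LR.W (y (.inl (.inl h))) (ofs (b i) ((zs (.inl (.inl h))).im / wcl b h)) (Yw b zs y i p) := by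
  have hrh := A.rh hy
  obtain ⟨g1, g2, g3⟩ := A.good (b := b)
  refine ⟨A.re, ?_, h0⟩
  rw [hrh.im, A.re, tr_a g1 g2 g3 h0.le hx, ofs_div]
  ring

/-- the height of a hinge next to `2`, `3` -/
theorem Adj.t_lo (A : Adj h i p j) (hb : ClassW b) (hL : Loc b zs) (hX : LocX b zs)
    (hc : clsW b i = .ring) (hj1 : clsW b j ≠ .one) (hj : clsW b j ≠ .ring)
    (h0 : 0 < y (.inl (.inl h))) (hE : ¬Exh b zs y h i j) :
    -(131 / 1000) ≤ ofs (b i) (zs (.inl (.inl h))).im ∧ ofs (b i) (zs (.inl (.inl h))).im ≤ 0 ∧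
      (((b i).natAbs : ℝ) < 5 → -(115 / 1000) ≤ ofs (b i) (zs (.inl (.inl h))).im) := by
  have h4 := ring_four hb (tyW_of_ring hb hc)
  have hop := A.opp hb (Or.inr hj)
  have hop' : b j * b i < 0 := by rwa [mul_comm] at hop
  obtain ⟨-, -, t0, t1⟩ := A.box hb hL
  rw [hc, A.ss hop] at t0 t1
  have eo := ofs_opp hop' (zs (.inl (.inl h))).im
  refine ⟨?_, ?_, fun h5 => ?_⟩
  · refine le_trans ?_ t0
    generalize clsW b j = B at hj hj1
    cases B <;> first | exact absurd rfl hj | exact absurd rfl hj1 | norm_num [hbox]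
  · by_cases h3 : clsW b j = .three
    · by_contra hcon
      exact hE ⟨h3, not_le.1 hcon, h0⟩
    · refine t1.trans ?_
      generalize clsW b j = B at hj hj1 h3
      cases B <;> first | exact absurd rfl hj | exact absurd rfl hj1 | exact absurd rfl h3 | norm_num [hbox]
  · have := natAbs_lt (c := 5) (k := 5) (by norm_num) h5
    have := hX.lo4 A.symm hj1 hj hc (by omega)
    linarith only [eo, this]

/-- the height of a hinge next to a digit `1` -/
theorem Adj.t_one (A : Adj h i p j) (hb : ClassW b) (hL : Loc b zs) (hX : LocX b zs)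
    (hc : clsW b i = .ring) (hj : clsW b j = .one) :
    -(158 / 1000) ≤ ofs (b i) (zs (.inl (.inl h))).im ∧
      ofs (b i) (zs (.inl (.inl h))).im ≤ -(38 / 1000) ∧
      (((b i).natAbs : ℝ) < 5 → -(128 / 1000) ≤ ofs (b i) (zs (.inl (.inl h))).im) := by
  have h4 := ring_four hb (tyW_of_ring hb hc)
  have hop := A.opp hb (Or.inr (by rw [hj]; decide))
  have hop' : b j * b i < 0 := by rwa [mul_comm] at hop
  obtain ⟨-, -, t0, t1⟩ := A.box hb hL
  rw [hc, A.ss hop, hj] at t0 t1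
  have eo := ofs_opp hop' (zs (.inl (.inl h))).im
  simp only [hbox] at t0 t1
  refine ⟨t0, t1, fun h5 => ?_⟩
  have := natAbs_lt (c := 5) (k := 5) (by norm_num) h5
  have := hX.one4 A.symm hj hc (by omega)
  linarith only [eo, this]

/-- the place of the ring variable -/
theorem Adj.rpl (A : Adj h i p j) (hb : ClassW b) (hL : Loc b zs) (hX : LocX b zs)
    (hR : LocR b zs) (hy : Mx b zs y) (hc : clsW b i = .ring) (hx : y (.inl (.inl h)) ≤ 1 / 2) :
    ∃ ρ σ : ℝ, ∃ k' : RKe, RPk b zs y i p ((b i).natAbs : ℝ) ρ σ (rkw b zs y h i j) k' ∧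
      RPl ((b i).natAbs : ℝ) ρ (Yw b zs y i p) (Yw b zs y i p.rev) σ ∧
      (∀ v : ZZ (tyW b), v.1 = i → ρ = (zs (.inr v)).im ∧ σ = ofs (b i) (y (.inr v))) := by
  obtain ⟨v, hv, k', P⟩ := A.rpk hb hL hX hR hy hc
  refine ⟨_, _, k', P, P.rm.place P.cap P.ok P.ok' P.lt P.le (by rw [A.re]; exact hx) P.cp P.cp',
    fun v' hv' => ?_⟩
  have : v' = v := by
    apply Subtype.ext
    rw [hv', hv]
  rw [this]
  exact ⟨rfl, rfl⟩

/-- **The side of a ring at a ring|ring hinge on its left ramp.** -/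
theorem Adj.ring_L_ring (A : Adj h i p j) (hb : ClassW b) (hL : Loc b zs) (hX : LocX b zs)
    (hR : LocR b zs) (hy : Mx b zs y) (hc : clsW b i = .ring) (hj : clsW b j = .ring)
    (h0 : 0 < y (.inl (.inl h))) (hx : y (.inl (.inl h)) ≤ 1 / 10) :
    0 < Sw b zs y i p ((zs (.inl (.inl h))).im / wcl b h) := by
  obtain ⟨ρ, σ, k', P, Q, -⟩ := A.rpl hb hL hX hR hy hc (by linarith only [h0, hx])
  obtain ⟨-, e2, -⟩ := A.par_rr hc hj
  have hw := A.lw hy h0 (by rw [e2]; exact hx)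
  obtain ⟨t1, t2, t3, t4⟩ := A.rrt hb hL hX hR hc hj
  have hk := P.ok
  rw [rkw_rr.2 hj] at hk
  have hns : Yw b zs y i p + 1 / 2 - LT.zt ρ σ ≠ 1 := by
    intro hs
    have h1 := congrArg Complex.re hs
    simp only [Complex.sub_re, Complex.add_re, zt_re, A.re, Complex.one_re] at h1
    norm_num at h1
    have h2 := P.rm.ns (abs_lt.1 P.lt).1 P.le P.ok.re_nonneg (by rw [A.re]; linarith only [h0, hx, h1, P.le])
      P.ok'.re_nonneg (by linarith only [h0, hx, h1, P, P.ok'.re_le])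
    exact h2 hs
  rw [A.side_ring hb hc, P.z]
  have em : ofs (b i) ((zs (.inl (.inl h))).im / wcl b h) = ofs (b i) (zs (.inl (.inl h))).im * 10 := by
    rw [ofs_div, e2]
    ring
  refine Q.rr_side P.rm.b4 P.rm.ρ0 P.cap hk hns hw ?_ ?_ ?_ hx
  · rw [em]
    linarith only [t1]
  · rw [em]
    linarith only [t2]
  · intro h5
    rw [em]
    linarith only [t4, h5, t4 h5]

/-- **Floor of the ring|ring hinges.** -/
theorem rr_floor (hb : ClassW b) (hL : Loc b zs) (hX : LocX b zs) (hR : LocR b zs) (hy : Mx b zs y)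
    (hpos : ∀ h : Fin M, 0 < y (.inl (.inl h))) (A : Adj h i p j) (hc : clsW b i = .ring)
    (hj : clsW b j = .ring) : 1 / 10 ≤ y (.inl (.inl h)) := by
  have key := left_step' hb hy hpos (Bad := fun h => clsW b h.castSucc = .ring ∧
    clsW b h.succ = .ring ∧ y (.inl (.inl h)) < 1 / 10) (fun _ => 0) (fun h hB => by
      obtain ⟨e1, -, -⟩ := (Adj.l (h := h)).par_rr hB.1 hB.2.1
      rw [e1]
      linarith only [hB, hB.2.2]) (fun {h i j p} A _ hB _ => by
      have hij : clsW b i = .ring ∧ clsW b j = .ring := by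
        cases A
        · exact ⟨hB.1, hB.2.1⟩
        · exact ⟨hB.2.1, hB.1⟩
      obtain ⟨-, e2, -⟩ := A.par_rr hij.1 hij.2
      have h1 := A.ring_L_ring hb hL hX hR hy hij.1 hij.2 (hpos h) hB.2.2.le
      have h2 := A.symm.ring_L_ring hb hL hX hR hy hij.2 hij.1 (hpos h) hB.2.2.le
      rw [slR_ramp (by rw [e2]; exact hB.2.2)]
      exact LStep.of_adj A (c := 0) (e1 := Sw b zs y i p ((zs (.inl (.inl h))).im / wcl b h))
        (e2 := Sw b zs y j p.rev ((zs (.inl (.inl h))).im / wcl b h)) (fun _ => rfl)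
        (by linarith only [h1, h2]) (by linarith only []) (by linarith only [])) h
  by_contra hcon
  push Not at hcon
  apply key
  cases A
  · exact ⟨hc, hj, hcon⟩
  · exact ⟨hj, hc, hcon⟩

/-- the condition on a hinge that is not next to a ring and not exceptional -/
theorem Adj.hok (A : Adj h i p j) {B ρ σ : ℝ} {k' : RKe} (P : RPk b zs y i p B ρ σ (rkw b zs y h i j) k')
    (hj : clsW b j ≠ .ring) (hE : ¬Exh b zs y h i j) (hx : y (.inl (.inl h)) ≤ 1 / 2) :
    HOk ρ (Yw b zs y i p) := by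
  have hk := P.ok
  rw [rkw_neg hE] at hk
  exact HOk_of P.rm.ρ0 P.rm.b4 P.cap hk (fun hu => absurd hu (by rw [rkd_up hj]; decide))
    (by rw [A.re]; exact hx)

theorem not_exh (hj : clsW b j = .one) : ¬Exh b zs y h i j := fun hE => by
  have := hE.1
  rw [hj] at this
  exact absurd this (by decide)

/-- **The side of a ring at a hinge `1 | ring` on its left ramp**, first rounds -/
theorem Adj.ring_L_one (A : Adj h i p j) (hb : ClassW b) (hL : Loc b zs) (hX : LocX b zs)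
    (hR : LocR b zs) (hy : Mx b zs y) (hc : clsW b i = .ring) (hj : clsW b j = .one)
    (h0 : 0 < y (.inl (.inl h))) (hx : y (.inl (.inl h)) ≤ 12 / 100) :
    LR.eL0 (y (.inl (.inl h))) (ofs (b i) (zs (.inl (.inl h))).im / (16 / 100)) ≤
      Sw b zs y i p ((zs (.inl (.inl h))).im / wcl b h) +
        (Real.pi - 6 * y (.inl (.inl h))) * ofs (b i) ((zs (.inl (.inl h))).im / wcl b h) := by
  obtain ⟨ρ, σ, k', P, Q, -⟩ := A.rpl hb hL hX hR hy hc (by linarith only [h0, hx])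
  obtain ⟨-, e2, -⟩ := A.par_ring_one hc hj
  have hw := A.lw hy h0 (by rw [e2]; linarith only [h0, hx])
  obtain ⟨t1, t2, t3⟩ := A.t_one hb hL hX hc hj
  have H := A.hok P (by rw [hj]; decide) (not_exh hj) (by linarith only [h0, hx])
  rw [A.side_ring hb hc, P.z]
  rw [ofs_div, e2] at hw ⊢
  exact Q.oneL P.rm.b4 P.rm.ρ0 P.cap H hw (by rw [div_le_iff₀ (by norm_num)]; linarith only [t2])
    (by rw [le_div_iff₀ (by norm_num)]; linarith only [t1])
    (fun h5 => by rw [le_div_iff₀ (by norm_num)]; linarith only [t3, h5, t3 h5]) hx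

/-- the bound `b² ρ ≤ 2.3` -/
theorem RPk.sq {B ρ σ : ℝ} {k k' : RKe} (P : RPk b zs y i p B ρ σ k k') (hb : ClassW b)
    (hc : clsW b i = .ring) (hB : B = ((b i).natAbs : ℝ)) : B ^ 2 * ρ ≤ 23 / 10 := by
  obtain ⟨c4, c5, c6, c7, c8⟩ := P.cap
  have h4 := ring_four hb (tyW_of_ring hb hc)
  have hρ := P.rm.ρ0
  rcases (show (b i).natAbs = 4 ∨ (b i).natAbs = 5 ∨ (b i).natAbs = 6 ∨ (b i).natAbs = 7 ∨
    8 ≤ (b i).natAbs by omega) with h5 | h5 | h5 | h5 | h5
  · rw [hB, h5]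
    norm_num
    linarith only [c4, hρ]
  · rw [hB, h5] at c5 ⊢
    have := c5 (by norm_num)
    norm_num
    linarith only [hρ, this]
  · rw [hB, h5] at c6 ⊢
    have := c6 (by norm_num)
    norm_num
    linarith only [hρ, this]
  · rw [hB, h5] at c7 ⊢
    have := c7 (by norm_num)
    norm_num
    linarith only [hρ, this]
  · rw [hB] at c8 ⊢
    exact c8 (by exact_mod_cast h5)

/-- the same, all rounds in which the other hinge is `≤ 36/100` -/
theorem Adj.ring_LC_one (A : Adj h i p j) (hb : ClassW b) (hL : Loc b zs) (hX : LocX b zs)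
    (hR : LocR b zs) (hy : Mx b zs y) (hc : clsW b i = .ring) (hj : clsW b j = .one)
    (h0 : 0 < y (.inl (.inl h))) (hx : y (.inl (.inl h)) ≤ 16 / 100)
    (H : ∀ {h' j'}, Adj h' i p.rev j' → y (.inl (.inl h')) ≤ 36 / 100) :
    LR.eC (y (.inl (.inl h))) (ofs (b i) (zs (.inl (.inl h))).im / (16 / 100)) ≤
      Sw b zs y i p ((zs (.inl (.inl h))).im / wcl b h) +
        (Real.pi - 6 * y (.inl (.inl h))) * ofs (b i) ((zs (.inl (.inl h))).im / wcl b h) := by
  obtain ⟨ρ, σ, k', P, Q, -⟩ := A.rpl hb hL hX hR hy hc (by linarith only [h0, hx])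
  obtain ⟨-, e2, -⟩ := A.par_ring_one hc hj
  have hw := A.lw hy h0 (by rw [e2]; exact hx)
  obtain ⟨t1, t2, t3⟩ := A.t_one hb hL hX hc hj
  have hH := A.other_le (zs := zs) (by norm_num) H
  have hbρ := P.sq hb hc rfl
  have hfl : -(1 / 4) ≤ σ → -(2 * Real.pi * ((b i).natAbs : ℝ) * ρ) + Dm 0 (Yw b zs y i p) (LT.zt ρ σ) ≤ 0 := by
    intro h5
    exact P.rm.flat_le P.cap P.ok' P.ok.re_nonneg (by rw [A.re]; exact hx) (by
      rw [hw.im, ofs_div, e2]
      exact mul_nonpos_of_nonpos_of_nonneg (div_nonpos_of_nonpos_of_nonneg (by linarith only [h0, hx, t2]) (by norm_num))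
        h0.le) hH h5 P.le
  rw [A.side_ring hb hc, P.z]
  rw [ofs_div, e2] at hw ⊢
  exact Q.oneC P.rm.b4 P.rm.ρ0 P.cap hbρ hfl P.le hw (by rw [div_le_iff₀ (by norm_num)]; linarith only [t2])
    (by rw [le_div_iff₀ (by norm_num)]; linarith only [t1])
    (fun h5 => by rw [le_div_iff₀ (by norm_num)]; linarith only [t3, h5, t3 h5]) hx (by linarith only [h0, hx, hH])

/-- the side of an exceptional ring on the left ramp -/
theorem Adj.ring_L_exc (A : Adj h i p j) (hb : ClassW b) (hL : Loc b zs) (hX : LocX b zs)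
    (hR : LocR b zs) (hy : Mx b zs y) (hc : clsW b i = .ring) (hE : Exh b zs y h i j)
    (hx : y (.inl (.inl h)) ≤ wcl b h) :
    2 / 10 ≤ Sw b zs y i p ((zs (.inl (.inl h))).im / wcl b h) +
        Real.pi / 2 * ofs (b i) ((zs (.inl (.inl h))).im / wcl b h) ∧
      (y (.inl (.inl h)) ≤ 12 / 100 → 3 / 10 ≤ Sw b zs y i p ((zs (.inl (.inl h))).im / wcl b h) +
        Real.pi / 2 * ofs (b i) ((zs (.inl (.inl h))).im / wcl b h)) := by
  have E := A.exc hb hR hc hE
  have hop := A.opp hb (Or.inr (by rw [hE.1]; decide))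
  have hop' : b j * b i < 0 := by rwa [mul_comm] at hop
  have eo := ofs_opp hop' (zs (.inl (.inl h))).im
  have hlo := E.lo
  have hj : clsW b j ≠ .ring := by rw [hE.1]; decide
  have hj1 : clsW b j ≠ .one := by rw [hE.1]; decide
  obtain ⟨-, ⟨e1, e2⟩, -⟩ := A.par_ring_lo hc hj1 hj
  have e12 : 12 / 100 ≤ wcl b h := by
    rw [A.cl_eq b, hc, hE.1]
    unfold hpp
    split_ifs <;> simp only [hp] <;> norm_num
  obtain ⟨v, hv, k', P⟩ := A.rpk hb hL hX hR hy hc
  have Q := P.rm.place P.cap P.ok P.ok' P.lt P.le (by rw [A.re]; linarith only [hx, e2]) P.cp P.cp'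
  have hw := A.lw hy hE.2.2 hx
  have hk' : k' = .rr := P.oth (rkw_pos hE)
  have hx27 : (Yw b zs y i p.rev).re ≤ 27 / 100 := by
    have := P.cp'
    rw [hk'] at this
    exact this
  have hr0 := E.r0 v hv
  have hr1 := E.r1 v hv
  have c0 : 0 < wcl b h := by linarith only [e12]
  have hT := hE.2.1
  rw [A.side_ring hb hc, P.z]
  rw [ofs_div] at hw ⊢
  have hm0 : 0 ≤ ofs (b i) (zs (.inl (.inl h))).im / wcl b h := div_nonneg hT.le c0.le
  have hm1 : ofs (b i) (zs (.inl (.inl h))).im / wcl b h ≤ 6 / 1000 := by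
    rw [div_le_iff₀ c0]
    linarith only [eo, hlo, e12, hT]
  have hb4 : ((b i).natAbs : ℝ) = 4 := by
    rw [E.n4]
    norm_num
  cases Q with
  | flat hz =>
    have h4 : -(1 / 4) ≤ ofs (b i) (y (.inr v)) := by
      have := hz.lo
      rwa [zt_re] at this
    have e : (LT.zt (zs (.inr v)).im (ofs (b i) (y (.inr v)))).im = (zs (.inr v)).im := by
      rw [zt_im, th_of_le (by rw [abs_of_nonpos P.le]; linarith only [h4]), mul_one]
    have := LR.ps_flat hw hz (by rw [e]; exact hr0) (by rw [e]; exact hr1) hm0 hm1 (by linarith only [hx, e2])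
    exact ⟨by linarith only [eo, hlo, hT, this], fun _ => this⟩
  | pos s e hz hs hF =>
    have hFP := FP_of hz.pos (by linarith only [eo, hlo, hT, hz, hz.lo]) hz.hi hF
    rw [hb4] at hFP
    exact ⟨LR.ps_P4 hw hz hr0 hr1 hm0 hm1 (by linarith only [hx, e2]) hFP,
      fun h12 => LR.ps12_P4 hw hz hr0 hr1 hm0 hm1 h12 hFP⟩
  | far s e hz hF hx' => exact absurd hx27 (by linarith only [eo, hlo, hx27, hT, hx'])
  | tiny s e h0 h1 hF hx' => exact absurd hx27 (by linarith only [eo, hlo, hx27, hT, hx'])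

/-- **The side of a ring at a hinge next to `2`, `3` on its left ramp** -/
theorem Adj.ring_L_lo (A : Adj h i p j) (hb : ClassW b) (hL : Loc b zs) (hX : LocX b zs)
    (hR : LocR b zs) (hy : Mx b zs y) (hc : clsW b i = .ring) (hj1 : clsW b j ≠ .one)
    (hj : clsW b j ≠ .ring) (h0 : 0 < y (.inl (.inl h))) (hx : y (.inl (.inl h)) ≤ wcl b h)
    (hx' : y (.inl (.inl h)) ≤ 125 / 1000) :
    18 / 100 ≤ Sw b zs y i p ((zs (.inl (.inl h))).im / wcl b h) +
        Real.pi / 2 * ofs (b i) ((zs (.inl (.inl h))).im / wcl b h) := by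
  by_cases hE : Exh b zs y h i j
  · have := (A.ring_L_exc hb hL hX hR hy hc hE hx).1
    linarith only [h0, hx', this]
  obtain ⟨ρ, σ, k', P, Q, -⟩ := A.rpl hb hL hX hR hy hc (by linarith only [h0, hx'])
  obtain ⟨-, ⟨e1, e2⟩, -⟩ := A.par_ring_lo hc hj1 hj
  have hw := A.lw hy h0 hx
  obtain ⟨t1, t2, t3⟩ := A.t_lo hb hL hX hc hj1 hj h0 hE
  have H := A.hok P hj hE (by linarith only [h0, hx'])
  rw [A.side_ring hb hc, P.z]
  rw [ofs_div] at hw ⊢
  set T := ofs (b i) (zs (.inl (.inl h))).im with hT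
  set c := wcl b h with hcl
  set x := y (.inl (.inl h)) with hxd
  have c0 : 0 < c := by linarith only [h0, hx]
  have k1 : ∀ a : ℝ, 0 ≤ a → -a ≤ T → -a ≤ T / c * x := by
    intro a ha hTa
    have h1 : x / c ≤ 1 := (div_le_one c0).2 hx
    have h2 : 0 ≤ x / c := by positivity
    have h3 : T / c * x = T * (x / c) := by ring
    rw [h3]
    have h4 : -T * (x / c) ≤ a * 1 := mul_le_mul (by linarith only [hTa]) h1 h2 ha
    linarith only [h4]
  refine (Q.lo P.rm.b4 P.rm.ρ0 P.cap H hw (div_nonpos_of_nonpos_of_nonneg t2 c0.le)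
    (by rw [le_div_iff₀ c0]; linarith only [t1, e1]) (fun h5 => by rw [le_div_iff₀ c0]; linarith only [e1, t3, h5, t3 h5])
    (by linarith only [h0, hx']) (k1 _ (by norm_num) t1) (fun h5 => k1 _ (by norm_num) (t3 h5)) (fun _ => hx')).1

/-- **The side of a ring at a hinge `3 | ring`**, `x ≤ 7/100` -/
theorem Adj.ring_L_three (A : Adj h i p j) (hb : ClassW b) (hL : Loc b zs) (hX : LocX b zs)
    (hR : LocR b zs) (hy : Mx b zs y) (hc : clsW b i = .ring) (hj : clsW b j = .three)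
    (h0 : 0 < y (.inl (.inl h))) (hx : y (.inl (.inl h)) ≤ 7 / 100) :
    3 / 10 ≤ Sw b zs y i p ((zs (.inl (.inl h))).im / wcl b h) +
        Real.pi / 2 * ofs (b i) ((zs (.inl (.inl h))).im / wcl b h) := by
  have hj1 : clsW b j ≠ .one := by rw [hj]; decide
  have hj2 : clsW b j ≠ .ring := by rw [hj]; decide
  have e12 : 12 / 100 ≤ wcl b h := by
    rw [A.cl_eq b, hc, hj]
    unfold hpp
    split_ifs <;> simp only [hp] <;> norm_num
  by_cases hE : Exh b zs y h i j
  · exact (A.ring_L_exc hb hL hX hR hy hc hE (by linarith only [h0, hx, e12])).2 (by linarith only [h0, hx])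
  obtain ⟨ρ, σ, k', P, Q, -⟩ := A.rpl hb hL hX hR hy hc (by linarith only [h0, hx])
  have hw := A.lw hy h0 (by linarith only [h0, hx, e12])
  obtain ⟨-, t2, -⟩ := A.t_lo hb hL hX hc hj1 hj2 h0 hE
  have t1 : -(57 / 1000) ≤ ofs (b i) (zs (.inl (.inl h))).im := by
    have hop := A.opp hb (Or.inr hj2)
    obtain ⟨-, -, t0, -⟩ := A.box hb hL
    rw [hc, A.ss hop, hj] at t0
    simp only [hbox] at t0
    exact t0
  have H := A.hok P hj2 hE (by linarith only [h0, hx])
  rw [A.side_ring hb hc, P.z]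
  rw [ofs_div] at hw ⊢
  have c0 : 0 < wcl b h := by linarith only [h0, hx, e12]
  exact Q.three P.rm.b4 P.rm.ρ0 P.cap H hw (div_nonpos_of_nonpos_of_nonneg t2 c0.le)
    (by rw [le_div_iff₀ c0]; linarith only [e12, t1]) hx

/-- the same, if the other hinge is `≤ 1/2` -/
theorem Adj.ring_LC_lo (A : Adj h i p j) (hb : ClassW b) (hL : Loc b zs) (hX : LocX b zs)
    (hR : LocR b zs) (hy : Mx b zs y) (hc : clsW b i = .ring) (hj1 : clsW b j ≠ .one)
    (hj : clsW b j ≠ .ring) (h0 : 0 < y (.inl (.inl h))) (hx : y (.inl (.inl h)) ≤ wcl b h)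
    (H' : ∀ {h' j'}, Adj h' i p.rev j' → y (.inl (.inl h')) ≤ 1 / 2) :
    2 / 10 ≤ Sw b zs y i p ((zs (.inl (.inl h))).im / wcl b h) +
        Real.pi / 2 * ofs (b i) ((zs (.inl (.inl h))).im / wcl b h) := by
  by_cases hE : Exh b zs y h i j
  · have := (A.ring_L_exc hb hL hX hR hy hc hE hx).1
    linarith only [this]
  obtain ⟨-, ⟨e1, e2⟩, -⟩ := A.par_ring_lo hc hj1 hj
  obtain ⟨ρ, σ, k', P, Q, -⟩ := A.rpl hb hL hX hR hy hc (by linarith only [h0, hx, e2])
  have hw := A.lw hy h0 hx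
  obtain ⟨t1, t2, t3⟩ := A.t_lo hb hL hX hc hj1 hj h0 hE
  have H := A.hok P hj hE (by linarith only [h0, hx, e2])
  rw [A.side_ring hb hc, P.z]
  rw [ofs_div] at hw ⊢
  set T := ofs (b i) (zs (.inl (.inl h))).im with hT
  set c := wcl b h with hcl
  set x := y (.inl (.inl h)) with hxd
  have c0 : 0 < c := by linarith only [h0, hx]
  have hoth := A.other_half (zs := zs) H'
  have k1 : ∀ a : ℝ, 0 ≤ a → -a ≤ T → -a ≤ T / c * x := by
    intro a ha hTa
    have h1 : x / c ≤ 1 := (div_le_one c0).2 hx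
    have h2 : 0 ≤ x / c := by positivity
    have h3 : T / c * x = T * (x / c) := by ring
    rw [h3]
    have h4 : -T * (x / c) ≤ a * 1 := mul_le_mul (by linarith only [hTa]) h1 h2 ha
    linarith only [h4]
  refine (Q.lo P.rm.b4 P.rm.ρ0 P.cap H hw (div_nonpos_of_nonpos_of_nonneg t2 c0.le)
    (by rw [le_div_iff₀ c0]; linarith only [t1, e1]) (fun h5 => by rw [le_div_iff₀ c0]; linarith only [e1, t3, h5, t3 h5])
    (by linarith only [e2, hx]) (k1 _ (by norm_num) t1) (fun h5 => k1 _ (by norm_num) (t3 h5))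
    (fun hx'' => absurd hoth (not_le.2 hx''))).2 hoth

end SR

end Pool.Agent.Work.MP_b30479_gt.G2
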