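import Pool.Agent.Work.MP_b30479_gt.G2.VDat

/-!
# Second derivatives along curves
-/

namespace Pool.Agent.Work.MP_b30479_gt.G2

open Finset VOL Filter Topology

/-- minus the imaginary part of `π cot (π u)` -/
noncomputable def SS (u : ℂ) : ℝ :=
  Real.pi * (Real.sinh (2 * Real.pi * u.im) /
    (Real.cosh (2 * Real.pi * u.im) - Real.cos (2 * Real.pi * u.re)))

theorem norm_two_sin_sq (u : ℂ) : ‖2 * Complex.sin (Real.pi * u)‖ ^ 2 =
    2 * Real.cosh (2 * Real.pi * u.im) - 2 * Real.cos (2 * Real.pi * u.re) := by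
  have := DT.norm_two_sin u.im u.re
  rwa [Complex.re_add_im] at this

theorem cosh_sub_cos_pos {u : ℂ} (h : Complex.sin (Real.pi * u) ≠ 0) :
    0 < Real.cosh (2 * Real.pi * u.im) - Real.cos (2 * Real.pi * u.re) := by
  have h1 := norm_two_sin_sq u
  have h2 : 0 < ‖2 * Complex.sin (Real.pi * u)‖ ^ 2 := by
    have : ‖2 * Complex.sin (Real.pi * u)‖ ≠ 0 := norm_ne_zero_iff.mpr (mul_ne_zero two_ne_zero h)
    positivity
  linarith only [h1, h2]

theorem sin_ne_of_im {u : ℂ} (h : u.im ≠ 0) : Complex.sin (Real.pi * u) ≠ 0 := by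
  intro hc
  have h1 := norm_two_sin_sq u
  rw [hc] at h1
  have h2 := DT.el_arg_pos (v := u.re) h
  simp only [mul_zero, norm_zero] at h1
  linarith only [h2, h1]

theorem sin_ne_of_strip {u : ℂ} (h : u ∈ strip) : Complex.sin (Real.pi * u) ≠ 0 := by
  by_cases h0 : u.im = 0
  · have h2 : u = (u.re : ℂ) := by
      apply Complex.ext
      · simp
      · simpa using h0
    have h3 : 0 < Real.sin (Real.pi * u.re) := by
      apply Real.sin_pos_of_pos_of_lt_pi
      · exact mul_pos Real.pi_pos h.1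
      · have := mul_lt_mul_of_pos_left h.2 Real.pi_pos
        linarith only [this]
    rw [h2, ← Complex.ofReal_mul, ← Complex.ofReal_sin]
    exact_mod_cast h3.ne'
  · exact sin_ne_of_im h0

/-- derivative of `LL` along a curve -/
theorem hasDerivAt_LL {g : ℝ → ℂ} {d : ℂ} {t : ℝ} (hg : HasDerivAt g d t)
    (h0 : Complex.sin (Real.pi * g t) ≠ 0) :
    HasDerivAt (fun t => LL (g t)) (d.re * CC (g t) + d.im * SS (g t)) t := by
  have hre : HasDerivAt (fun t => (g t).re) d.re t :=
    Complex.reCLM.hasFDerivAt.comp_hasDerivAt t hg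
  have him : HasDerivAt (fun t => (g t).im) d.im t :=
    Complex.imCLM.hasFDerivAt.comp_hasDerivAt t hg
  have hp := cosh_sub_cos_pos h0
  have e1 : (fun t => LL (g t)) = fun t =>
      Real.log (2 * Real.cosh (2 * Real.pi * (g t).im) - 2 * Real.cos (2 * Real.pi * (g t).re)) / 2 := by
    funext t
    rw [LL_eq']
  rw [e1]
  have h1 := (((him.const_mul (2 * Real.pi)).cosh.const_mul 2).fun_sub
    ((hre.const_mul (2 * Real.pi)).cos.const_mul 2)).log (by linarith only [hp]) |>.div_const 2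
  refine h1.congr_deriv ?_
  unfold CC SS
  have hne : Real.cosh (2 * Real.pi * (g t).im) - Real.cos (2 * Real.pi * (g t).re) ≠ 0 := hp.ne'
  have hne2 : 2 * Real.cosh (2 * Real.pi * (g t).im) - 2 * Real.cos (2 * Real.pi * (g t).re) ≠ 0 := by
    linarith only [hp]
  rw [show 2 * Real.cosh (2 * Real.pi * (g t).im) - 2 * Real.cos (2 * Real.pi * (g t).re) =
    2 * (Real.cosh (2 * Real.pi * (g t).im) - Real.cos (2 * Real.pi * (g t).re)) by ring]
  field_simp
  ring

/-- derivative of the height derivative of `Lr` along a curve -/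
theorem hasDerivAt_Tr_comp {r X : ℝ → ℝ} {r' X' t : ℝ} (hr : HasDerivAt r r' t)
    (hX : HasDerivAt X X' t) (h0 : 0 < r t) :
    HasDerivAt (fun t => DT.Tr (r t) (X t)) (r' * (-(Real.pi * DT.rr (r t) (X t))) +
      X' * (Real.pi * Real.sinh (2 * Real.pi * r t) /
      (Real.cosh (2 * Real.pi * r t) - Real.cos (2 * Real.pi * X t)))) t := by
  have hev : ∀ᶠ v : ℝ × ℝ in 𝓝 (r t, X t), 0 < v.1 :=
    continuous_fst.continuousAt.eventually (lt_mem_nhds h0)
  have hd : ∀ v : ℝ × ℝ, 0 < v.1 → Real.cosh (2 * Real.pi * v.1) - Real.cos (2 * Real.pi * v.2) ≠ 0 := by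
    intro v hv
    have := DT.el_arg_pos (v := v.2) hv.ne'
    intro hc
    linarith only [this, hc]
  have c1 : ContinuousAt (fun v : ℝ × ℝ => -(Real.pi * DT.rr v.1 v.2)) (r t, X t) := by
    unfold DT.rr
    apply ContinuousAt.neg
    apply ContinuousAt.mul continuousAt_const
    apply ContinuousAt.div
    · fun_prop
    · fun_prop
    · exact hd _ h0
  have c2 : ContinuousAt (fun v : ℝ × ℝ => Real.pi * Real.sinh (2 * Real.pi * v.1) /
      (Real.cosh (2 * Real.pi * v.1) - Real.cos (2 * Real.pi * v.2))) (r t, X t) := by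
    apply ContinuousAt.div
    · fun_prop
    · fun_prop
    · exact hd _ h0
  have key := hasStrictFDerivAt_uncurry_coprod (𝕜 := ℝ) (u := (r t, X t)) (f := DT.Tr)
    (f₁ := fun ρ x => ContinuousLinearMap.toSpanSingleton ℝ (-(Real.pi * DT.rr ρ x)))
    (f₂ := fun ρ x => ContinuousLinearMap.toSpanSingleton ℝ (Real.pi * Real.sinh (2 * Real.pi * ρ) /
      (Real.cosh (2 * Real.pi * ρ) - Real.cos (2 * Real.pi * x))))
    (by
      filter_upwards [hev] with v hv
      exact (DT.hasDerivAt_Tr_left hv).hasFDerivAt)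
    (by
      filter_upwards [hev] with v hv
      exact (DT.hasDerivAt_Tr_right hv).hasFDerivAt)
    (by
      have := (ContinuousLinearMap.toSpanSingletonCLE (𝕜 := ℝ) (E := ℝ)).continuous.continuousAt.comp c1
      exact this)
    (by
      have := (ContinuousLinearMap.toSpanSingletonCLE (𝕜 := ℝ) (E := ℝ)).continuous.continuousAt.comp c2
      exact this)
  have h1 := key.hasFDerivAt.comp_hasDerivAt t (hr.prodMk hX)
  refine h1.congr_deriv ?_
  simp [ContinuousLinearMap.coprod_apply, Function.HasUncurry.uncurry]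

/-- derivative of `YY` along a curve, away from the real axis -/
theorem hasDerivAt_YY_im {g : ℝ → ℂ} {d : ℂ} {t : ℝ} (hg : HasDerivAt g d t) (h0 : (g t).im ≠ 0) :
    HasDerivAt (fun t => YY (g t)) (d.re * SS (g t) - d.im * CC (g t)) t := by
  have hre : HasDerivAt (fun t => (g t).re) d.re t :=
    Complex.reCLM.hasFDerivAt.comp_hasDerivAt t hg
  have him : HasDerivAt (fun t => (g t).im) d.im t :=
    Complex.imCLM.hasFDerivAt.comp_hasDerivAt t hg
  rcases lt_or_gt_of_ne h0 with h | h
  · have h1 := hasDerivAt_Tr_comp him.fun_neg hre (by linarith only [h] : 0 < -(g t).im)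
    have h2 := (h1.sub_const (Real.pi / 2)).fun_neg
    have hev : (fun t => YY (g t)) =ᶠ[𝓝 t] fun t => -(DT.Tr (-(g t).im) (g t).re - Real.pi / 2) := by
      filter_upwards [him.continuousAt.eventually (gt_mem_nhds h)] with s hs
      unfold YY
      rw [if_neg (not_lt.mpr (le_of_lt hs)), if_pos hs]
    refine (h2.congr_of_eventuallyEq hev).congr_deriv ?_
    unfold SS CC DT.rr
    have e : 2 * Real.pi * -(g t).im = -(2 * Real.pi * (g t).im) := by ring
    rw [e, Real.sinh_neg, Real.cosh_neg]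
    ring
  · have h1 := hasDerivAt_Tr_comp him hre h
    have h2 := h1.sub_const (Real.pi / 2)
    have hev : (fun t => YY (g t)) =ᶠ[𝓝 t] fun t => DT.Tr (g t).im (g t).re - Real.pi / 2 := by
      filter_upwards [him.continuousAt.eventually (lt_mem_nhds h)] with s hs
      unfold YY
      rw [if_pos hs]
    refine (h2.congr_of_eventuallyEq hev).congr_deriv ?_
    unfold SS CC DT.rr
    ring

/-- `π cot (π u) = CC u - i SS u` -/
theorem ph'_eq {u : ℂ} (h : Complex.sin (Real.pi * u) ≠ 0) : ph' u = CC u - SS u * Complex.I := by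
  have hp := cosh_sub_cos_pos h
  set a := Real.pi * u.re with ha
  set b := Real.pi * u.im with hb
  have eu : (Real.pi : ℂ) * u = (a : ℂ) + (b : ℂ) * Complex.I := by
    rw [ha, hb]
    push_cast
    conv_lhs => rw [← Complex.re_add_im u]
    ring
  have es : Complex.sin (Real.pi * u) = ((Real.sin a * Real.cosh b : ℝ) : ℂ) +
      ((Real.cos a * Real.sinh b : ℝ) : ℂ) * Complex.I := by
    rw [eu, Complex.sin_add_mul_I]
    push_cast
    ring
  have ec : Complex.cos (Real.pi * u) = ((Real.cos a * Real.cosh b : ℝ) : ℂ) -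
      ((Real.sin a * Real.sinh b : ℝ) : ℂ) * Complex.I := by
    rw [eu, Complex.cos_add_mul_I]
    push_cast
    ring
  have e2a : Real.sin (2 * Real.pi * u.re) = 2 * Real.sin a * Real.cos a := by
    rw [mul_assoc 2 Real.pi, Real.sin_two_mul]
  have e2b : Real.sinh (2 * Real.pi * u.im) = 2 * Real.sinh b * Real.cosh b := by
    rw [mul_assoc 2 Real.pi, Real.sinh_two_mul]
  have e2c : Real.cosh (2 * Real.pi * u.im) = Real.cosh b ^ 2 + Real.sinh b ^ 2 := by
    rw [mul_assoc 2 Real.pi, Real.cosh_two_mul]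
  have e2d : Real.cos (2 * Real.pi * u.re) = 2 * Real.cos a ^ 2 - 1 := by
    rw [mul_assoc 2 Real.pi, Real.cos_two_mul]
  have h1 := Real.sin_sq_add_cos_sq a
  have h2 := Real.cosh_sq b
  have hq : ((Real.cosh (2 * Real.pi * u.im) - Real.cos (2 * Real.pi * u.re) : ℝ) : ℂ) ≠ 0 := by
    exact_mod_cast hp.ne'
  unfold ph' CC SS
  rw [div_eq_iff h, es, ec]
  have h3 : ((Real.pi * (Real.sin (2 * Real.pi * u.re) /
      (Real.cosh (2 * Real.pi * u.im) - Real.cos (2 * Real.pi * u.re))) : ℝ) : ℂ) -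
      ((Real.pi * (Real.sinh (2 * Real.pi * u.im) /
      (Real.cosh (2 * Real.pi * u.im) - Real.cos (2 * Real.pi * u.re))) : ℝ) : ℂ) * Complex.I =
      (Real.pi * ((Real.sin (2 * Real.pi * u.re) : ℝ) - (Real.sinh (2 * Real.pi * u.im) : ℝ) *
        Complex.I)) / ((Real.cosh (2 * Real.pi * u.im) - Real.cos (2 * Real.pi * u.re) : ℝ) : ℂ) := by
    push_cast
    ring
  rw [h3, div_mul_eq_mul_div, eq_div_iff hq]
  rw [e2a, e2b, e2c, e2d]
  push_cast
  have h1' : (Real.sin a : ℂ) ^ 2 + (Real.cos a : ℂ) ^ 2 = 1 := by exact_mod_cast h1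
  have h2' : (Real.cosh b : ℂ) ^ 2 = (Real.sinh b : ℂ) ^ 2 + 1 := by exact_mod_cast h2
  push_cast at h1' h2'
  have hI := Complex.I_sq
  generalize Complex.sin (a : ℂ) = S at *
  generalize Complex.cos (a : ℂ) = C at *
  generalize Complex.sinh (b : ℂ) = s at *
  generalize Complex.cosh (b : ℂ) = c at *
  linear_combination (Real.pi : ℂ) * ((C * c + S * s * Complex.I) * h2' - 2 * C * c * h1' +
    2 * s ^ 2 * c * C * hI)

/-- derivative of `YY` along a curve -/
theorem hasDerivAt_YY {g : ℝ → ℂ} {d : ℂ} {t : ℝ} (hg : HasDerivAt g d t)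
    (h0 : (g t).im ≠ 0 ∨ g t ∈ strip) :
    HasDerivAt (fun t => YY (g t)) (d.re * SS (g t) - d.im * CC (g t)) t := by
  rcases h0 with h0 | h0
  · exact hasDerivAt_YY_im hg h0
  · have h1 := (hasDerivAt_ph h0).comp t hg
    have h2 : HasDerivAt (fun t => (ph (g t)).im) (ph' (g t) * d).im t :=
      Complex.imCLM.hasFDerivAt.comp_hasDerivAt t h1
    have h3 : HasDerivAt (fun t => -(ph (g t)).im) (-(ph' (g t) * d).im) t := h2.fun_neg
    have hev : (fun t => YY (g t)) =ᶠ[𝓝 t] fun t => -(ph (g t)).im := by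
      filter_upwards [hg.continuousAt.eventually (strip_open.mem_nhds h0)] with s hs
      rw [ph_im hs, neg_neg]
    refine (h3.congr_of_eventuallyEq hev).congr_deriv ?_
    rw [ph'_eq (sin_ne_of_strip h0)]
    simp only [Complex.mul_im, Complex.sub_re, Complex.sub_im, Complex.ofReal_re, Complex.ofReal_im,
      Complex.mul_re, Complex.I_re, Complex.I_im]
    ring

theorem hasDerivAt_LL' {g : ℝ → ℂ} {d : ℂ} {t : ℝ} (hg : HasDerivAt g d t)
    (h0 : (g t).im ≠ 0 ∨ g t ∈ strip) :
    HasDerivAt (fun t => LL (g t)) (d.re * CC (g t) + d.im * SS (g t)) t :=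
  hasDerivAt_LL hg (h0.elim sin_ne_of_im sin_ne_of_strip)

variable {D Z K : Type} [Fintype D] [Fintype Z] [Fintype K]

/-- the bilinear form of second derivatives: `Re (∂_X ∂_Y T)` -/
noncomputable def Dat.HH (S : Dat D Z K) (z X Y : D ⊕ Z → ℂ) : ℝ :=
  (∑ i, ∑ j, S.q i j * (X i * Y j + Y i * X j) + ∑ v, 2 * Real.pi * Complex.I * S.b v *
    Y (.inr v) * X (.inr v)).re +
    ∑ k, ((S.aff k X * S.aff k Y).re * CC (S.form k z) + (S.aff k X * S.aff k Y).im * SS (S.form k z))

omit [Fintype K] in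
/-- derivative of the form along a curve -/
theorem hasDerivAt_form_curve (S : Dat D Z K) (k : K) {z : ℝ → D ⊕ Z → ℂ} {Y : D ⊕ Z → ℂ} {t : ℝ}
    (hz : ∀ i, HasDerivAt (fun t => z t i) (Y i) t) :
    HasDerivAt (fun t => S.form k (z t)) (S.aff k Y) t := by
  unfold Dat.form Dat.aff
  apply HasDerivAt.const_add
  apply HasDerivAt.fun_sum
  intro i _
  exact (hz i).const_mul _

/-- **The derivative of `S.DV z X` along a curve.** -/
theorem hasDerivAt_DV (S : Dat D Z K) {z : ℝ → D ⊕ Z → ℂ} {X Y : D ⊕ Z → ℂ} {t : ℝ}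
    (hz : ∀ i, HasDerivAt (fun t => z t i) (Y i) t)
    (h1 : ∀ k, (S.aff k X).re ≠ 0 → Complex.sin (Real.pi * S.form k (z t)) ≠ 0)
    (h2 : ∀ k, (S.aff k X).im ≠ 0 → (S.form k (z t)).im ≠ 0 ∨ S.form k (z t) ∈ strip) :
    HasDerivAt (fun t => S.DV (z t) X) (S.HH (z t) X Y) t := by
  unfold Dat.DV Dat.HH
  refine HasDerivAt.add ?_ ?_
  · have hA : HasDerivAt (fun t => S.dqv (z t) X) (∑ i, ∑ j, S.q i j *
        (X i * Y j + Y i * X j) + ∑ v, 2 * Real.pi * Complex.I * S.b v * Y (.inr v) * X (.inr v))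
        t := by
      unfold Dat.dqv
      refine HasDerivAt.add ?_ ?_
      · have h3 : HasDerivAt (fun t => ∑ i, ∑ j, S.q i j * (X i * z t j + z t i * X j))
            (∑ i, ∑ j, S.q i j * (X i * Y j + Y i * X j)) t := by
          apply HasDerivAt.fun_sum
          intro i _
          apply HasDerivAt.fun_sum
          intro j _
          exact (((hz j).const_mul (X i)).add ((hz i).mul_const (X j))).const_mul (S.q i j)
        exact h3.add_const _
      · apply HasDerivAt.fun_sum
        intro v _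
        have h4 := ((((hz (.inr v)).const_mul (S.b v : ℂ)).add_const 1).const_mul
          (2 * Real.pi * Complex.I)).mul_const (X (.inr v))
        refine h4.congr_deriv ?_
        ring
    exact Complex.reCLM.hasFDerivAt.comp_hasDerivAt t hA
  · apply HasDerivAt.fun_sum
    intro k _
    have hf := hasDerivAt_form_curve S k hz
    have a1 : HasDerivAt (fun t => (S.aff k X).re * LL (S.form k (z t)))
        ((S.aff k X).re * ((S.aff k Y).re * CC (S.form k (z t)) +
          (S.aff k Y).im * SS (S.form k (z t)))) t := by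
      by_cases hk : (S.aff k X).re = 0
      · rw [hk]
        simpa using hasDerivAt_const t (0 : ℝ)
      · exact (hasDerivAt_LL hf (h1 k hk)).const_mul _
    have a2 : HasDerivAt (fun t => (S.aff k X).im * YY (S.form k (z t)))
        ((S.aff k X).im * ((S.aff k Y).re * SS (S.form k (z t)) -
          (S.aff k Y).im * CC (S.form k (z t)))) t := by
      by_cases hk : (S.aff k X).im = 0
      · rw [hk]
        simpa using hasDerivAt_const t (0 : ℝ)
      · exact (hasDerivAt_YY hf (h2 k hk)).const_mul _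
    refine (a1.add a2).congr_deriv ?_
    rw [Complex.mul_re, Complex.mul_im]
    ring

end Pool.Agent.Work.MP_b30479_gt.G2
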