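import Pool.Agent.Work.MP_b30479_gt.G2.MaxP
import Pool.Agent.Work.MP_b30479_gt.G2.VHess
import Pool.Agent.Work.MP_b30479_gt.G2.ImpC

/-!
# Interior 3-runs, level part: the two sides push back

`u` is the hinge on the `k2` side, `v` the hinge on the `a1` side, `m` the inner variable, which
follows the curve of zeros of the inner derivative.  Nothing is assumed about the zeros except
three inequalities (`Lvl`).
-/

namespace Pool.Agent.Work.MP_b30479_gt.G2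

open Filter Topology Set

namespace M3

/-- the point with real part `x` and height `t` -/
noncomputable def cx (x t : ℝ) : ℂ := (x : ℂ) + (t : ℂ) * Complex.I

@[simp] theorem cx_re (x t : ℝ) : (cx x t).re = x := by simp [cx]
@[simp] theorem cx_im (x t : ℝ) : (cx x t).im = t := by simp [cx]

theorem cx_eq (z : ℂ) : z = cx z.re z.im := (Complex.re_add_im z).symm

theorem cx_add (x t y s : ℝ) : cx x t + cx y s = cx (x + y) (t + s) := by
  apply Complex.ext <;> simp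

theorem cx_sub (x t y s : ℝ) : cx x t - cx y s = cx (x - y) (t - s) := by
  apply Complex.ext <;> simp

theorem sin_cx_ne {x t : ℝ} (h0 : 0 < x) (h1 : x < 1) :
    Complex.sin (Real.pi * cx x t) ≠ 0 := by
  apply sin_ne_of_strip
  constructor
  · simpa using h0
  · simpa using h1

/-- derivative of `LL` along a level -/
theorem hasDerivAt_LLcx {p : ℝ → ℝ} {p' θ t : ℝ} (hp : HasDerivAt p p' θ) (h0 : 0 < p θ)
    (h1 : p θ < 1) : HasDerivAt (fun θ => LL (cx (p θ) t)) (p' * CC (cx (p θ) t)) θ := by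
  have h2 : HasDerivAt (fun θ => cx (p θ) t) (p' : ℂ) θ := by
    unfold cx
    exact hp.ofReal_comp.add_const _
  have h3 := hasDerivAt_LL h2 (sin_cx_ne h0 h1)
  refine h3.congr_deriv ?_
  simp

/-- derivative of the run in the inner variable (frame with sign `+`), level part -/
noncomputable def Phi (tu tv tm u v m : ℝ) : ℝ :=
  LL (cx (u + m) (tu + tm)) - LL (cx (m - v) (tm - tv)) - LL (cx m tm) -
    Real.pi * (tm + tv - tu)

/-- the `a1` side, level part -/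
noncomputable def DV (tv tm v m : ℝ) : ℝ := LL (cx (m - v) (tm - tv)) - LL (cx v tv)

/-- the `k2` side, level part -/
noncomputable def DU (tu tm u m : ℝ) : ℝ := LL (cx (u + m) (tu + tm)) - 2 * LL (cx u tu)

/-- a function with negative derivative -/
theorem lt_of_neg {F F' : ℝ → ℝ} (h : ∀ θ ∈ Icc (0 : ℝ) 1, HasDerivAt F (F' θ) θ)
    (hneg : ∀ θ ∈ Icc (0 : ℝ) 1, F' θ < 0) : F 1 < F 0 := by
  obtain ⟨c, hc, h1⟩ := exists_hasDerivAt_eq_slope F F' one_pos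
    (fun θ hθ => (h θ hθ).continuousAt.continuousWithinAt)
    (fun θ hθ => h θ ⟨hθ.1.le, hθ.2.le⟩)
  have h2 := hneg c ⟨hc.1.le, hc.2.le⟩
  rw [h1, sub_zero, div_one] at h2
  linarith only [h2]

theorem contDiffAt_LLcx {f : ℝ × ℝ → ℝ} {p : ℝ × ℝ} (hf : ContDiffAt ℝ 1 f p) {t : ℝ}
    (h0 : 0 < f p) (h1 : f p < 1) : ContDiffAt ℝ 1 (fun q => LL (cx (f q) t)) p := by
  have hs := sin_cx_ne (t := t) h0 h1
  have h2 : ContDiffAt ℝ 1 (fun q : ℝ × ℝ => (2 : ℂ) * Complex.sin (Real.pi * cx (f q) t)) p := by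
    unfold cx
    have : ContDiffAt ℝ 1 (fun q : ℝ × ℝ => ((f q : ℝ) : ℂ)) p :=
      Complex.ofRealCLM.contDiff.contDiffAt.comp p hf
    exact contDiffAt_const.mul ((Complex.contDiff_sin.restrict_scalars ℝ).contDiffAt.comp p
      (contDiffAt_const.mul (this.add contDiffAt_const)))
  have h3 : (2 : ℂ) * Complex.sin (Real.pi * cx (f p) t) ≠ 0 := mul_ne_zero two_ne_zero hs
  have h4 := (h2.norm ℝ h3).log (norm_ne_zero_iff.2 h3)
  refine h4.congr_of_eventuallyEq (Eventually.of_forall fun q => ?_)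
  exact LL_eq _

theorem contDiffAt_Phi {f g : ℝ × ℝ → ℝ} {p : ℝ × ℝ} (hf : ContDiffAt ℝ 1 f p)
    (hg : ContDiffAt ℝ 1 g p) {tu tv tm : ℝ} (a1 : 0 < p.2) (a2 : p.2 < 1) (a3 : 0 < p.2 - g p)
    (a4 : p.2 - g p < 1) (a5 : 0 < f p + p.2) (a6 : f p + p.2 < 1) :
    ContDiffAt ℝ 1 (fun q : ℝ × ℝ => Phi tu tv tm (f q) (g q) q.2) p := by
  have k3 : ContDiffAt ℝ 1 (fun q : ℝ × ℝ => q.2) p := contDiffAt_snd
  unfold Phi
  exact (((contDiffAt_LLcx (hf.add k3) a5 a6).sub (contDiffAt_LLcx (k3.sub hg) a3 a4)).sub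
      (contDiffAt_LLcx k3 a1 a2)).sub contDiffAt_const

theorem contDiff_ghi : ContDiff ℝ 1 ghi := by
  unfold ghi
  exact contDiff_const.mul (Real.contDiff_arctan.comp Real.contDiff_exp)

theorem contDiff_gc (a x : ℝ) : ContDiff ℝ 1 (gc a x) := by
  unfold gc
  exact contDiff_ghi.comp (by fun_prop)

/-- the level data of a region: in the rectangle `[ul, uh] × [vl, vh]` the inner derivative is
positive at `mL`, negative at `mU`, and in between at every zero the three determinants are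
positive -/
structure Lvl (tu tv tm ul uh vl vh : ℝ) (mL mU : ℝ → ℝ → ℝ) : Prop where
  ul0 : 0 < ul
  uh1 : uh < 1
  vl0 : 0 < vl
  vh1 : vh < 1
  cL : Continuous fun p : ℝ × ℝ => mL p.1 p.2
  cU : Continuous fun p : ℝ × ℝ => mU p.1 p.2
  lu : ∀ u ∈ Icc ul uh, ∀ v ∈ Icc vl vh, v < mL u v ∧ mL u v < mU u v ∧ u + mU u v < 1
  sL : ∀ u ∈ Icc ul uh, ∀ v ∈ Icc vl vh, 0 < Phi tu tv tm u v (mL u v)
  sU : ∀ u ∈ Icc ul uh, ∀ v ∈ Icc vl vh, Phi tu tv tm u v (mU u v) < 0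
  hD : ∀ u ∈ Icc ul uh, ∀ v ∈ Icc vl vh, ∀ m ∈ Icc (mL u v) (mU u v), Phi tu tv tm u v m = 0 →
    0 < CC (cx (m - v) (tm - tv)) + CC (cx m tm) - CC (cx (u + m) (tu + tm))
  hF : ∀ u ∈ Icc ul uh, ∀ v ∈ Icc vl vh, ∀ m ∈ Icc (mL u v) (mU u v), Phi tu tv tm u v m = 0 →
    0 < Real.sin (Real.pi * v) * ((CC (cx (m - v) (tm - tv)) + CC (cx v tv)) *
        (CC (cx (m - v) (tm - tv)) + CC (cx m tm) - CC (cx (u + m) (tu + tm))) -
        CC (cx (m - v) (tm - tv)) ^ 2) -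
      Real.sin (Real.pi * u) * |CC (cx (u + m) (tu + tm)) * CC (cx (m - v) (tm - tv))|
  hG : ∀ u ∈ Icc ul uh, ∀ v ∈ Icc vl vh, ∀ m ∈ Icc (mL u v) (mU u v), Phi tu tv tm u v m = 0 →
    0 < Real.sin (Real.pi * u) * (2 * CC (cx u tu) *
        (CC (cx (m - v) (tm - tv)) + CC (cx m tm) - CC (cx (u + m) (tu + tm))) -
        CC (cx (u + m) (tu + tm)) * (CC (cx (m - v) (tm - tv)) + CC (cx m tm))) -
      Real.sin (Real.pi * v) * |CC (cx (u + m) (tu + tm)) * CC (cx (m - v) (tm - tv))|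

variable {tu tv tm ul uh vl vh : ℝ} {mL mU : ℝ → ℝ → ℝ} (h : Lvl tu tv tm ul uh vl vh mL mU)

include h

theorem Lvl.hu {u : ℝ} (hu : u ∈ Icc ul uh) : u ∈ Ioo (0 : ℝ) 1 :=
  ⟨h.ul0.trans_le hu.1, hu.2.trans_lt h.uh1⟩

theorem Lvl.hv {v : ℝ} (hv : v ∈ Icc vl vh) : v ∈ Ioo (0 : ℝ) 1 :=
  ⟨h.vl0.trans_le hv.1, hv.2.trans_lt h.vh1⟩

theorem Lvl.gcu {u0 u1 θ : ℝ} (h0 : u0 ∈ Icc ul uh) (h1 : u1 ∈ Icc ul uh)
    (hθ : θ ∈ Icc (0 : ℝ) 1) : gc u0 u1 θ ∈ Icc ul uh := by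
  have := gc_mem_uIcc (h.hu h0) (h.hu h1) hθ.1 hθ.2
  rcases le_total u0 u1 with hc | hc
  · rw [uIcc_of_le hc] at this
    exact ⟨h0.1.trans this.1, this.2.trans h1.2⟩
  · rw [uIcc_of_ge hc] at this
    exact ⟨h1.1.trans this.1, this.2.trans h0.2⟩

theorem Lvl.gcv {u0 u1 θ : ℝ} (h0 : u0 ∈ Icc vl vh) (h1 : u1 ∈ Icc vl vh)
    (hθ : θ ∈ Icc (0 : ℝ) 1) : gc u0 u1 θ ∈ Icc vl vh := by
  have := gc_mem_uIcc (h.hv h0) (h.hv h1) hθ.1 hθ.2
  rcases le_total u0 u1 with hc | hc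
  · rw [uIcc_of_le hc] at this
    exact ⟨h0.1.trans this.1, this.2.trans h1.2⟩
  · rw [uIcc_of_ge hc] at this
    exact ⟨h1.1.trans this.1, this.2.trans h0.2⟩

/-- range of the arguments -/
theorem Lvl.dom {u v m : ℝ} (hu : u ∈ Icc ul uh) (hv : v ∈ Icc vl vh)
    (hm : m ∈ Icc (mL u v) (mU u v)) : 0 < m ∧ m < 1 ∧ 0 < m - v ∧ m - v < 1 ∧ 0 < u + m ∧
      u + m < 1 := by
  obtain ⟨a1, a2, a3⟩ := h.lu u hu v hv
  obtain ⟨b1, b2⟩ := h.hu hu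
  obtain ⟨c1, c2⟩ := h.hv hv
  obtain ⟨d1, d2⟩ := hm
  refine ⟨?_, ?_, ?_, ?_, ?_, ?_⟩ <;> linarith only [a1, c1, d1, a3, b1, d2]

theorem Lvl.deriv_m {u v m : ℝ} (hu : u ∈ Icc ul uh) (hv : v ∈ Icc vl vh)
    (hm : m ∈ Icc (mL u v) (mU u v)) : HasDerivAt (fun s => Phi tu tv tm u v s)
      (-(CC (cx (m - v) (tm - tv)) + CC (cx m tm) - CC (cx (u + m) (tu + tm)))) m := by
  obtain ⟨a1, a2, a3, a4, a5, a6⟩ := h.dom hu hv hm
  have q1 := hasDerivAt_LLcx (t := tu + tm) ((hasDerivAt_id m).const_add u) a5 a6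
  have q2 := hasDerivAt_LLcx (t := tm - tv) ((hasDerivAt_id m).sub_const v) a3 a4
  have q3 := hasDerivAt_LLcx (t := tm) (hasDerivAt_id m) a1 a2
  have q4 := ((q1.sub q2).sub q3).sub_const (Real.pi * (tm + tv - tu))
  refine q4.congr_deriv ?_
  simp only [id]
  ring

theorem Lvl.unique {u v m m' : ℝ} (hu : u ∈ Icc ul uh) (hv : v ∈ Icc vl vh)
    (hm : m ∈ Icc (mL u v) (mU u v)) (hm' : m' ∈ Icc (mL u v) (mU u v))
    (h0 : Phi tu tv tm u v m = 0) (h1 : Phi tu tv tm u v m' = 0) : m = m' :=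
  zero_unique (fun _ hs => h.deriv_m hu hv hs)
    (fun _ hs hz => neg_neg_of_pos (h.hD u hu v hv _ hs hz)) hm hm' h0 h1

attribute [local irreducible] Phi CC

variable {u0 v0 m0 u1 v1 m1 : ℝ} (hu0 : u0 ∈ Icc ul uh) (hv0 : v0 ∈ Icc vl vh)
  (hu1 : u1 ∈ Icc ul uh) (hv1 : v1 ∈ Icc vl vh)

include hu0 hv0 hu1 hv1

/-- the curve -/
theorem Lvl.curve : ∃ g : ℝ → ℝ, (∀ θ ∈ Icc (0 : ℝ) 1,
      g θ ∈ Icc (mL (gc u0 u1 θ) (gc v0 v1 θ)) (mU (gc u0 u1 θ) (gc v0 v1 θ)) ∧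
      Phi tu tv tm (gc u0 u1 θ) (gc v0 v1 θ) (g θ) = 0) ∧ ContinuousOn g (Icc 0 1) ∧
      ∀ θ ∈ Ioo (0 : ℝ) 1, DifferentiableAt ℝ g θ := by
  have cu := continuous_gc u0 u1
  have cv := continuous_gc v0 v1
  have cL : Continuous fun θ => mL (gc u0 u1 θ) (gc v0 v1 θ) := h.cL.comp (cu.prodMk cv)
  have cU : Continuous fun θ => mU (gc u0 u1 θ) (gc v0 v1 θ) := h.cU.comp (cu.prodMk cv)
  have k4 : ∀ θ ∈ Icc (0 : ℝ) 1, ∀ m ∈ Icc (mL (gc u0 u1 θ) (gc v0 v1 θ))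
      (mU (gc u0 u1 θ) (gc v0 v1 θ)), ContDiffAt ℝ 1
        (fun p : ℝ × ℝ => Phi tu tv tm (gc u0 u1 p.1) (gc v0 v1 p.1) p.2) (θ, m) := by
    intro θ hθ m hm
    obtain ⟨a1, a2, a3, a4, a5, a6⟩ := h.dom (h.gcu hu0 hu1 hθ) (h.gcv hv0 hv1 hθ) hm
    have e1 : ContDiffAt ℝ 1 (fun p : ℝ × ℝ => gc u0 u1 p.1) (θ, m) :=
      (contDiff_gc u0 u1).contDiffAt.comp (θ, m) contDiffAt_fst
    have e2 : ContDiffAt ℝ 1 (fun p : ℝ × ℝ => gc v0 v1 p.1) (θ, m) :=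
      (contDiff_gc v0 v1).contDiffAt.comp (θ, m) contDiffAt_fst
    exact contDiffAt_Phi e1 e2 a1 a2 a3 a4 a5 a6
  have k3 : ∀ θ ∈ Icc (0 : ℝ) 1, mL (gc u0 u1 θ) (gc v0 v1 θ) < mU (gc u0 u1 θ) (gc v0 v1 θ) :=
    fun θ hθ => (h.lu _ (h.gcu hu0 hu1 hθ) _ (h.gcv hv0 hv1 hθ)).2.1
  have k5 : ∀ θ ∈ Icc (0 : ℝ) 1, ∀ m ∈ Icc (mL (gc u0 u1 θ) (gc v0 v1 θ))
      (mU (gc u0 u1 θ) (gc v0 v1 θ)),
      HasDerivAt (fun s => Phi tu tv tm (gc u0 u1 θ) (gc v0 v1 θ) s)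
        (-(CC (cx (m - gc v0 v1 θ) (tm - tv)) + CC (cx m tm) - CC (cx (gc u0 u1 θ + m)
          (tu + tm)))) m := by
    intro θ hθ m hm
    exact h.deriv_m (h.gcu hu0 hu1 hθ) (h.gcv hv0 hv1 hθ) hm
  have k6 : ∀ θ ∈ Icc (0 : ℝ) 1,
      0 < Phi tu tv tm (gc u0 u1 θ) (gc v0 v1 θ) (mL (gc u0 u1 θ) (gc v0 v1 θ)) := by
    intro θ hθ
    exact h.sL _ (h.gcu hu0 hu1 hθ) _ (h.gcv hv0 hv1 hθ)
  have k7 : ∀ θ ∈ Icc (0 : ℝ) 1,
      Phi tu tv tm (gc u0 u1 θ) (gc v0 v1 θ) (mU (gc u0 u1 θ) (gc v0 v1 θ)) < 0 := by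
    intro θ hθ
    exact h.sU _ (h.gcu hu0 hu1 hθ) _ (h.gcv hv0 hv1 hθ)
  have k8 : ∀ θ ∈ Icc (0 : ℝ) 1, ∀ m ∈ Icc (mL (gc u0 u1 θ) (gc v0 v1 θ))
      (mU (gc u0 u1 θ) (gc v0 v1 θ)), Phi tu tv tm (gc u0 u1 θ) (gc v0 v1 θ) m = 0 →
      -(CC (cx (m - gc v0 v1 θ) (tm - tv)) + CC (cx m tm) - CC (cx (gc u0 u1 θ + m)
          (tu + tm))) < 0 := by
    intro θ hθ m hm hz
    exact neg_neg_of_pos (h.hD _ (h.gcu hu0 hu1 hθ) _ (h.gcv hv0 hv1 hθ) m hm hz)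
  obtain ⟨g, h1, h2, h3⟩ := exists_curve
    (F := fun p : ℝ × ℝ => Phi tu tv tm (gc u0 u1 p.1) (gc v0 v1 p.1) p.2)
    (B := fun θ m => -(CC (cx (m - gc v0 v1 θ) (tm - tv)) +
      CC (cx m tm) - CC (cx (gc u0 u1 θ + m) (tu + tm))))
    (ma := fun θ => mL (gc u0 u1 θ) (gc v0 v1 θ)) (mb := fun θ => mU (gc u0 u1 θ) (gc v0 v1 θ))
    cL.continuousOn cU.continuousOn k3 k4 k5 k6 k7 k8
  exact ⟨g, fun θ hθ => ⟨Ioo_subset_Icc_self (h1 θ hθ).1, (h1 θ hθ).2.1⟩, h2, h3⟩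

/-- derivatives along the curve -/
theorem Lvl.curve_deriv {g : ℝ → ℝ} (hg : ∀ θ ∈ Icc (0 : ℝ) 1,
      g θ ∈ Icc (mL (gc u0 u1 θ) (gc v0 v1 θ)) (mU (gc u0 u1 θ) (gc v0 v1 θ)) ∧
      Phi tu tv tm (gc u0 u1 θ) (gc v0 v1 θ) (g θ) = 0) {θ : ℝ} (hθ : θ ∈ Ioo (0 : ℝ) 1)
    (hd : DifferentiableAt ℝ g θ) :
    let u := gc u0 u1 θ
    let v := gc v0 v1 θ
    let m := g θ
    let P := CC (cx (u + m) (tu + tm))
    let Q := CC (cx (m - v) (tm - tv))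
    let R := CC (cx m tm)
    let a := (gh u1 - gh u0) * (Real.sin (Real.pi * u) / Real.pi)
    let b := (gh v1 - gh v0) * (Real.sin (Real.pi * v) / Real.pi)
    deriv g θ * (Q + R - P) = a * P + b * Q ∧
    HasDerivAt (fun θ => DV tv tm (gc v0 v1 θ) (g θ))
      ((deriv g θ - b) * Q - b * CC (cx v tv)) θ ∧
    HasDerivAt (fun θ => DU tu tm (gc u0 u1 θ) (g θ))
      ((a + deriv g θ) * P - 2 * (a * CC (cx u tu))) θ := by
  intro u v m P Q R a b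
  have hθ' := Ioo_subset_Icc_self hθ
  obtain ⟨g1, g2⟩ := hg θ hθ'
  have hu := h.gcu hu0 hu1 hθ'
  have hv := h.gcv hv0 hv1 hθ'
  obtain ⟨a1, a2, a3, a4, a5, a6⟩ := h.dom hu hv g1
  have d1 : HasDerivAt (gc u0 u1) a θ := hasDerivAt_gc _ _ _
  have d2 : HasDerivAt (gc v0 v1) b θ := hasDerivAt_gc _ _ _
  have d3 : HasDerivAt g (deriv g θ) θ := hd.hasDerivAt
  have q1 := hasDerivAt_LLcx (t := tu + tm) (d1.add d3) a5 a6
  have q2 := hasDerivAt_LLcx (t := tm - tv) (d3.sub d2) a3 a4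
  have q3 := hasDerivAt_LLcx (t := tm) d3 a1 a2
  have q5 := hasDerivAt_LLcx (t := tv) d2 (h.hv hv).1 (h.hv hv).2
  have q6 := (hasDerivAt_LLcx (t := tu) d1 (h.hu hu).1 (h.hu hu).2).const_mul 2
  refine ⟨?_, q2.sub q5, q1.sub q6⟩
  have q4 := ((q1.sub q2).sub q3).sub_const (Real.pi * (tm + tv - tu))
  have z1 : HasDerivAt (fun θ => Phi tu tv tm (gc u0 u1 θ) (gc v0 v1 θ) (g θ)) 0 θ := by
    refine (hasDerivAt_const θ (0 : ℝ)).congr_of_eventuallyEq ?_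
    filter_upwards [Icc_mem_nhds hθ.1 hθ.2] with s hs
    exact (hg s hs).2
  have z2 : HasDerivAt (fun θ => Phi tu tv tm (gc u0 u1 θ) (gc v0 v1 θ) (g θ))
      ((a + deriv g θ) * P - (deriv g θ - b) * Q - deriv g θ * R) θ := by
    unfold Phi
    exact q4
  have z3 := z1.unique z2
  linarith only [z3]

variable (hm0 : m0 ∈ Icc (mL u0 v0) (mU u0 v0)) (z0 : Phi tu tv tm u0 v0 m0 = 0)
  (hm1 : m1 ∈ Icc (mL u1 v1) (mU u1 v1)) (z1 : Phi tu tv tm u1 v1 m1 = 0)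

include hm0 z0 hm1 z1

/-- the ends of the curve -/
theorem Lvl.curve_ends {g : ℝ → ℝ} (hg : ∀ θ ∈ Icc (0 : ℝ) 1,
      g θ ∈ Icc (mL (gc u0 u1 θ) (gc v0 v1 θ)) (mU (gc u0 u1 θ) (gc v0 v1 θ)) ∧
      Phi tu tv tm (gc u0 u1 θ) (gc v0 v1 θ) (g θ) = 0) : g 0 = m0 ∧ g 1 = m1 := by
  obtain ⟨a1, a2⟩ := hg 0 ⟨le_rfl, zero_le_one⟩
  obtain ⟨b1, b2⟩ := hg 1 ⟨zero_le_one, le_rfl⟩
  rw [gc_zero (h.hu hu0), gc_zero (h.hv hv0)] at a1 a2
  rw [gc_one (h.hu hu1), gc_one (h.hv hv1)] at b1 b2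
  exact ⟨h.unique hu0 hv0 a1 hm0 a2 z0, h.unique hu1 hv1 b1 hm1 b2 z1⟩

/-- **The `a1` side is pushed back.** -/
theorem Lvl.DV_lt (hv : gh v0 < gh v1) (hu : |gh u1 - gh u0| ≤ gh v1 - gh v0) :
    DV tv tm v1 m1 < DV tv tm v0 m0 := by
  have hpi := Real.pi_pos
  obtain ⟨g, g1, g2, g3⟩ := h.curve hu0 hv0 hu1 hv1
  obtain ⟨e0, e1⟩ := h.curve_ends hu0 hv0 hu1 hv1 hm0 z0 hm1 z1 g1
  have hcont : ContinuousOn (fun θ => DV tv tm (gc v0 v1 θ) (g θ)) (Icc 0 1) := by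
    intro θ hθ
    have hvv := h.gcv hv0 hv1 hθ
    obtain ⟨a1, a2, a3, a4, a5, a6⟩ := h.dom (h.gcu hu0 hu1 hθ) hvv (g1 θ hθ).1
    have c1 : ContinuousWithinAt (gc v0 v1) (Icc 0 1) θ :=
      (continuous_gc v0 v1).continuousWithinAt
    have c2 := g2 θ hθ
    have l1 := ((hasDerivAt_LLcx (t := tm - tv) (hasDerivAt_id (g θ - gc v0 v1 θ)) a3
      a4).continuousAt.comp_continuousWithinAt (f := fun θ => g θ - gc v0 v1 θ) (s := Icc 0 1)
      (x := θ) (c2.sub c1))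
    have l2 := ((hasDerivAt_LLcx (t := tv) (hasDerivAt_id (gc v0 v1 θ)) (h.hv hvv).1
      (h.hv hvv).2).continuousAt.comp_continuousWithinAt (f := gc v0 v1) (s := Icc 0 1)
      (x := θ) c1)
    exact l1.sub l2
  obtain ⟨c, hc, h4⟩ := exists_hasDerivAt_eq_slope _ _ one_pos hcont
    (fun θ hθ => (h.curve_deriv hu0 hv0 hu1 hv1 g1 hθ (g3 θ hθ)).2.1)
  have hc' := Ioo_subset_Icc_self hc
  have k1 := (h.curve_deriv hu0 hv0 hu1 hv1 g1 hc (g3 c hc)).1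
  have huu := h.gcu hu0 hu1 hc'
  have hvv := h.gcv hv0 hv1 hc'
  have kD := h.hD _ huu _ hvv _ (g1 c hc').1 (g1 c hc').2
  have kF := h.hF _ huu _ hvv _ (g1 c hc').1 (g1 c hc').2
  have su : 0 < Real.sin (Real.pi * gc u0 u1 c) :=
    Real.sin_pos_of_pos_of_lt_pi (mul_pos hpi (h.hu huu).1) (by nlinarith only [hpi, h, huu, (h.hu huu).2])
  rw [sub_zero, div_one, e0, e1, gc_zero (h.hv hv0), gc_one (h.hv hv1)] at h4
  set u := gc u0 u1 c
  set v := gc v0 v1 c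
  set m := g c
  set P := CC (cx (u + m) (tu + tm))
  set Q := CC (cx (m - v) (tm - tv))
  set R := CC (cx m tm)
  set S := CC (cx v tv)
  set w := deriv g c
  set b := gh v1 - gh v0
  set a := gh u1 - gh u0
  have hb : 0 < b := sub_pos.2 hv
  have k2 : ((w - b * (Real.sin (Real.pi * v) / Real.pi)) * Q -
      b * (Real.sin (Real.pi * v) / Real.pi) * S) * (Q + R - P) < 0 := by
    have e : ((w - b * (Real.sin (Real.pi * v) / Real.pi)) * Q -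
      b * (Real.sin (Real.pi * v) / Real.pi) * S) * (Q + R - P) =
      (a * (Real.sin (Real.pi * u)) * (P * Q) - b * (Real.sin (Real.pi * v) *
        ((Q + S) * (Q + R - P) - Q ^ 2))) / Real.pi := by
      have : ((w - b * (Real.sin (Real.pi * v) / Real.pi)) * Q -
        b * (Real.sin (Real.pi * v) / Real.pi) * S) * (Q + R - P) = (w * (Q + R - P)) * Q -
          b * (Real.sin (Real.pi * v) / Real.pi) * (Q + S) * (Q + R - P) := by ring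
      rw [this, k1]
      field_simp
      ring
    rw [e]
    apply div_neg_of_neg_of_pos _ hpi
    have a1 : a * Real.sin (Real.pi * u) * (P * Q) ≤ b * (Real.sin (Real.pi * u) * |P * Q|) := by
      calc a * Real.sin (Real.pi * u) * (P * Q) ≤ |a * Real.sin (Real.pi * u) * (P * Q)| :=
            le_abs_self _
        _ = |a| * (Real.sin (Real.pi * u) * |P * Q|) := by
            rw [abs_mul, abs_mul, abs_of_pos su]; ring
        _ ≤ b * (Real.sin (Real.pi * u) * |P * Q|) := by gcongr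
    have a3 := mul_pos hb kF
    nlinarith only [a1, a3]
  have k3 := neg_of_mul_neg_left k2 kD.le
  rw [h4] at k3
  linarith only [k3]

/-- **The `k2` side is pushed back.** -/
theorem Lvl.DU_lt (hu : gh u0 < gh u1) (hv : |gh v1 - gh v0| ≤ gh u1 - gh u0) :
    DU tu tm u1 m1 < DU tu tm u0 m0 := by
  have hpi := Real.pi_pos
  obtain ⟨g, g1, g2, g3⟩ := h.curve hu0 hv0 hu1 hv1
  obtain ⟨e0, e1⟩ := h.curve_ends hu0 hv0 hu1 hv1 hm0 z0 hm1 z1 g1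
  have hcont : ContinuousOn (fun θ => DU tu tm (gc u0 u1 θ) (g θ)) (Icc 0 1) := by
    intro θ hθ
    have huu := h.gcu hu0 hu1 hθ
    obtain ⟨a1, a2, a3, a4, a5, a6⟩ := h.dom huu (h.gcv hv0 hv1 hθ) (g1 θ hθ).1
    have c1 : ContinuousWithinAt (gc u0 u1) (Icc 0 1) θ :=
      (continuous_gc u0 u1).continuousWithinAt
    have c2 := g2 θ hθ
    have l1 := ((hasDerivAt_LLcx (t := tu + tm) (hasDerivAt_id (gc u0 u1 θ + g θ)) a5
      a6).continuousAt.comp_continuousWithinAt (f := fun θ => gc u0 u1 θ + g θ) (s := Icc 0 1)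
      (x := θ) (c1.add c2))
    have l2 := ((hasDerivAt_LLcx (t := tu) (hasDerivAt_id (gc u0 u1 θ)) (h.hu huu).1
      (h.hu huu).2).continuousAt.comp_continuousWithinAt (f := gc u0 u1) (s := Icc 0 1)
      (x := θ) c1)
    exact l1.sub (l2.const_mul 2)
  obtain ⟨c, hc, h4⟩ := exists_hasDerivAt_eq_slope _ _ one_pos hcont
    (fun θ hθ => (h.curve_deriv hu0 hv0 hu1 hv1 g1 hθ (g3 θ hθ)).2.2)
  have hc' := Ioo_subset_Icc_self hc
  have k1 := (h.curve_deriv hu0 hv0 hu1 hv1 g1 hc (g3 c hc)).1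
  have huu := h.gcu hu0 hu1 hc'
  have hvv := h.gcv hv0 hv1 hc'
  have kD := h.hD _ huu _ hvv _ (g1 c hc').1 (g1 c hc').2
  have kG := h.hG _ huu _ hvv _ (g1 c hc').1 (g1 c hc').2
  have sv : 0 < Real.sin (Real.pi * gc v0 v1 c) :=
    Real.sin_pos_of_pos_of_lt_pi (mul_pos hpi (h.hv hvv).1) (by nlinarith only [hpi, h, hvv, (h.hv hvv).2])
  rw [sub_zero, div_one, e0, e1, gc_zero (h.hu hu0), gc_one (h.hu hu1)] at h4
  set u := gc u0 u1 c
  set v := gc v0 v1 c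
  set m := g c
  set P := CC (cx (u + m) (tu + tm))
  set Q := CC (cx (m - v) (tm - tv))
  set R := CC (cx m tm)
  set S := CC (cx u tu)
  set w := deriv g c
  set b := gh v1 - gh v0
  set a := gh u1 - gh u0
  have ha : 0 < a := sub_pos.2 hu
  have k2 : ((a * (Real.sin (Real.pi * u) / Real.pi) + w) * P -
      2 * (a * (Real.sin (Real.pi * u) / Real.pi) * S)) * (Q + R - P) < 0 := by
    have e : ((a * (Real.sin (Real.pi * u) / Real.pi) + w) * P -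
      2 * (a * (Real.sin (Real.pi * u) / Real.pi) * S)) * (Q + R - P) =
      (b * (Real.sin (Real.pi * v)) * (P * Q) - a * (Real.sin (Real.pi * u) *
        (2 * S * (Q + R - P) - P * (Q + R)))) / Real.pi := by
      have : ((a * (Real.sin (Real.pi * u) / Real.pi) + w) * P -
        2 * (a * (Real.sin (Real.pi * u) / Real.pi) * S)) * (Q + R - P) =
          (w * (Q + R - P)) * P + a * (Real.sin (Real.pi * u) / Real.pi) * P * (Q + R - P) -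
          2 * (a * (Real.sin (Real.pi * u) / Real.pi) * S) * (Q + R - P) := by ring
      rw [this, k1]
      field_simp
      ring
    rw [e]
    apply div_neg_of_neg_of_pos _ hpi
    have a1 : b * Real.sin (Real.pi * v) * (P * Q) ≤ a * (Real.sin (Real.pi * v) * |P * Q|) := by
      calc b * Real.sin (Real.pi * v) * (P * Q) ≤ |b * Real.sin (Real.pi * v) * (P * Q)| :=
            le_abs_self _
        _ = |b| * (Real.sin (Real.pi * v) * |P * Q|) := by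
            rw [abs_mul, abs_mul, abs_of_pos sv]; ring
        _ ≤ a * (Real.sin (Real.pi * v) * |P * Q|) := by gcongr
    have a3 := mul_pos ha kG
    nlinarith only [a1, a3]
  have k3 := neg_of_mul_neg_left k2 kD.le
  rw [h4] at k3
  linarith only [k3]

end M3

end Pool.Agent.Work.MP_b30479_gt.G2
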