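import Pool.Agent.Work.MP_b30479_gt.G2.MRBase
import Pool.Agent.Work.NumU.Node

/-!
# `UU` decreases in the real part near `0` and `1`
-/

namespace Pool.Agent.Work.MP_b30479_gt.G2

open VOL NumU

namespace UA

section
open NumI NumI.E

/-- the condition for the rectangle `|Re| ≤ s0`, `|Im| ≤ y0` -/
def Kc (s0 y0 : ℝ) : Prop :=
  2 * Real.cosh (Real.pi * (2 * y0)) - 2 * Real.cos (Real.pi * (2 * s0)) ≤ 1

theorem kc_7_13 : Kc (7 / 100) (13 / 100) := by
  have h : chk [sub (q 1 1) (sub (mul (q 2 1) (cosh (mul pi (q 26 100))))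
      (mul (q 2 1) (cosPi (q 14 100))))] 1 [V.of 1 0 0] = true := by decide +kernel
  have hp := pos_of_chk (chk1 h (by norm_num) (x := 0) (by norm_num) (by norm_num))
  unfold Kc
  simp only [val] at hp
  norm_num at hp ⊢
  linarith only [hp]

theorem kc_6_14 : Kc (6 / 100) (14 / 100) := by
  have h : chk [sub (q 1 1) (sub (mul (q 2 1) (cosh (mul pi (q 28 100))))
      (mul (q 2 1) (cosPi (q 12 100))))] 1 [V.of 1 0 0] = true := by decide +kernel
  have hp := pos_of_chk (chk1 h (by norm_num) (x := 0) (by norm_num) (by norm_num))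
  unfold Kc
  simp only [val] at hp
  norm_num at hp ⊢
  linarith only [hp]

theorem kc_2_15 : Kc (2 / 100) (15 / 100) := by
  have h : chk [sub (q 1 1) (sub (mul (q 2 1) (cosh (mul pi (q 30 100))))
      (mul (q 2 1) (cosPi (q 4 100))))] 1 [V.of 1 0 0] = true := by decide +kernel
  have hp := pos_of_chk (chk1 h (by norm_num) (x := 0) (by norm_num) (by norm_num))
  unfold Kc
  simp only [val] at hp
  norm_num at hp ⊢
  linarith only [hp]

end

/-- `LL ≤ 0` on the rectangle -/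
theorem LL_nonpos {s0 y0 : ℝ} (K : Kc s0 y0) (h1 : s0 ≤ 1 / 2) {s y : ℝ} (hs : |s| ≤ s0)
    (hy : |y| ≤ y0) : LL ⟨s, y⟩ ≤ 0 := by
  have hp := Real.pi_pos
  have h3 : LL ⟨s, y⟩ ≤ Real.log 1 / 2 := by
    apply MR.LL_le_log le_rfl
    have h4 : Real.cosh (2 * Real.pi * y) ≤ Real.cosh (Real.pi * (2 * y0)) := by
      apply Real.cosh_le_cosh.2
      rw [abs_mul, abs_of_pos (by positivity : 0 < 2 * Real.pi), abs_mul, abs_of_pos hp, abs_mul,
        abs_of_pos (by norm_num : (0 : ℝ) < 2), abs_of_nonneg ((abs_nonneg y).trans hy)]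
      nlinarith only [hy, hp]
    have h5 : Real.cos (Real.pi * (2 * s0)) ≤ Real.cos (2 * Real.pi * s) := by
      rw [← Real.cos_abs (2 * Real.pi * s), abs_mul, abs_of_pos (by positivity : 0 < 2 * Real.pi)]
      apply Real.cos_le_cos_of_nonneg_of_le_pi
      · positivity
      · nlinarith only [h1, hp]
      · nlinarith only [hs, hp]
    unfold Kc at K
    simp only
    linarith only [K, h4, h5]
  rw [Real.log_one] at h3
  linarith only [h3]

theorem anti0 {s0 y0 : ℝ} (K : Kc s0 y0) (h1 : s0 ≤ 1 / 2) {a b y : ℝ} (hab : a ≤ b)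
    (h : ∀ s ∈ Set.Ioo a b, s ≠ 0 ∧ |s| ≤ s0) (hy : |y| ≤ y0) : uu b y ≤ uu a y := by
  have hp := Real.pi_pos
  have hpt : ∀ s : ℝ, (y : ℂ) * Complex.I + ((1 * s : ℝ) : ℂ) = ⟨s, y⟩ := by
    intro s
    apply Complex.ext <;> simp
  have hd : ∀ s ∈ Set.Ioo a b, HasDerivAt
      (fun s : ℝ => UU ((y : ℂ) * Complex.I + ((1 * s : ℝ) : ℂ))) (1 * LL ⟨s, y⟩) s := by
    intro s hs
    have h2 := hasDerivAt_UU_level ((y : ℂ) * Complex.I) 1 s (by
      rw [hpt]
      intro hc
      rw [Complex.sin_eq_zero_iff] at hc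
      obtain ⟨k, hk⟩ := hc
      have hk1 : (⟨s, y⟩ : ℂ) = k := by
        have : (Real.pi : ℂ) ≠ 0 := by exact_mod_cast hp.ne'
        apply mul_left_cancel₀ this
        rw [hk]
        ring
      have hk2 := congrArg Complex.re hk1
      simp only [Complex.intCast_re] at hk2
      obtain ⟨a1, a2⟩ := h s hs
      rw [hk2, abs_le] at a2
      have a3 : (-1 : ℤ) < k := by
        have : (-1 : ℝ) < k := by linarith only [h1, a2]
        exact_mod_cast this
      have a4 : k < (1 : ℤ) := by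
        have : (k : ℝ) < 1 := by linarith only [h1, a2]
        exact_mod_cast this
      apply a1
      rw [hk2]
      have : k = 0 := by omega
      simp [this])
    rw [hpt] at h2
    exact h2
  have hanti : AntitoneOn (fun s : ℝ => UU ((y : ℂ) * Complex.I + ((1 * s : ℝ) : ℂ)))
      (Set.Icc a b) := by
    apply antitoneOn_of_deriv_nonpos (convex_Icc _ _)
    · apply Continuous.continuousOn
      exact continuous_UU.comp (by fun_prop)
    · rw [interior_Icc]
      exact fun s hs => (hd s hs).differentiableAt.differentiableWithinAt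
    · rw [interior_Icc]
      intro s hs
      rw [(hd s hs).deriv, one_mul]
      exact LL_nonpos K h1 (h s hs).2 hy
  have h2 := hanti (Set.left_mem_Icc.2 hab) (Set.right_mem_Icc.2 hab) hab
  simp only [hpt] at h2
  exact h2

/-- `uu` decreases near `0` -/
theorem anti {s0 y0 : ℝ} (K : Kc s0 y0) (h1 : s0 ≤ 1 / 2) {a b y : ℝ} (ha : -s0 ≤ a) (hab : a ≤ b)
    (hb : b ≤ s0) (hy : |y| ≤ y0) : uu b y ≤ uu a y := by
  rcases le_or_gt 0 a with h | h
  · exact anti0 K h1 hab (fun s hs => ⟨(lt_of_le_of_lt h hs.1).ne', by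
      rw [abs_le]; constructor <;> linarith only [ha, hs, hb, hs.1, hs.2]⟩) hy
  · rcases le_or_gt b 0 with h' | h'
    · exact anti0 K h1 hab (fun s hs => ⟨(lt_of_lt_of_le hs.2 h').ne, by
        rw [abs_le]; constructor <;> linarith only [ha, hs, hb, hs.1, hs.2]⟩) hy
    · exact (anti0 K h1 h'.le (fun s hs => ⟨hs.1.ne', by
        rw [abs_le]; constructor <;> linarith only [ha, h, hs, hb, hs.1, hs.2]⟩) hy).trans
        (anti0 K h1 h.le (fun s hs => ⟨hs.2.ne, by
        rw [abs_le]; constructor <;> linarith only [ha, hs, h, hs.1, hs.2]⟩) hy)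

/-- `uu` decreases near `1` -/
theorem anti1 {s0 y0 : ℝ} (K : Kc s0 y0) (h1 : s0 ≤ 1 / 2) {a b y : ℝ} (ha : 1 - s0 ≤ a)
    (hab : a ≤ b) (hb : b ≤ 1 + s0) (hy : |y| ≤ y0) : uu b y ≤ uu a y := by
  have e1 := uu_add_one (a - 1) y
  have e2 := uu_add_one (b - 1) y
  rw [sub_add_cancel] at e1 e2
  rw [e1, e2]
  have := anti K h1 (a := a - 1) (b := b - 1) (y := y) (by linarith only [ha]) (by linarith only [hab]) (by linarith only [hb]) hy
  linarith only [this]

theorem uu_zero (y : ℝ) : uu 0 y = -(Real.pi / 2 * |y|) := by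
  unfold uu UU
  simp only [DT.Lr_zero_right]
  ring

theorem uu_one (y : ℝ) : uu 1 y = Real.pi / 2 * |y| := by
  have h := uu_one_sub 0 y
  rw [sub_zero, uu_zero, neg_neg] at h
  exact h

/-- near `1`, on the right -/
theorem le_right {s0 y0 : ℝ} (K : Kc s0 y0) (h1 : s0 ≤ 1 / 2) {b y : ℝ}
    (ha : 1 ≤ b) (hb : b ≤ 1 + s0) (hy : |y| ≤ y0) : uu b y ≤ Real.pi / 2 * |y| := by
  rw [← uu_one]
  exact anti1 K h1 (by have := (abs_nonneg y).trans hy; linarith only [ha, hb]) ha hb hy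

/-- near `1`, on the left -/
theorem ge_left {s0 y0 : ℝ} (K : Kc s0 y0) (h1 : s0 ≤ 1 / 2) {b y : ℝ}
    (ha : 1 - s0 ≤ b) (hb : b ≤ 1) (hy : |y| ≤ y0) : Real.pi / 2 * |y| ≤ uu b y := by
  rw [← uu_one]
  exact anti1 K h1 ha hb (by linarith only [ha, hb]) hy

/-- near `0`, on the right -/
theorem le_zero {s0 y0 : ℝ} (K : Kc s0 y0) (h1 : s0 ≤ 1 / 2) {b y : ℝ}
    (ha : 0 ≤ b) (hb : b ≤ s0) (hy : |y| ≤ y0) : uu b y ≤ -(Real.pi / 2 * |y|) := by
  rw [← uu_zero]
  exact anti K h1 (by linarith only [ha, hb]) ha hb hy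

end UA

end Pool.Agent.Work.MP_b30479_gt.G2
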