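import Pool.Agent.Work.MP_b30479_gt.G2.S0RQ
import Pool.Agent.Work.MP_b30479_gt.G2.RV
import Pool.Agent.Work.MP_b30479_gt.G2.UAnti
import Pool.Agent.Work.NumU.Tree

/-!
# The own side of an interior `3` at slot `0`: angles behind and beside the strip
-/

set_option linter.unusedVariables false

namespace Pool.Agent.Work.MP_b30479_gt.G2

open VOL NumU

namespace S0R

/-! ### the right ramp of the inner variable -/

theorem mul_le_of_nonpos {t a b : ℝ} (ht : t ≤ 0) (h : a ≤ b) : -20 * t * a ≤ -20 * t * b :=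
  mul_le_mul_of_nonneg_left h (by linarith only [ht])

theorem mul_le_of_nonneg {t a b : ℝ} (ht : 0 ≤ t) (h : b ≤ a) : -20 * t * a ≤ -20 * t * b := by
  have := mul_le_mul_of_nonneg_left h (by linarith only [ht] : 0 ≤ 20 * t)
  linarith only [this]

theorem YY_le_neg {z : ℂ} {q : ℝ} (hy : z.im < 0) (h0 : 0 < q) (h1 : q < 1) (h : q ≤ z.re) :
    YY z ≤ -NumI.lnB q z.im := by
  have hs : (⟨q, z.im⟩ : ℂ) ∈ strip := ⟨h0, h1⟩
  have e : YY ⟨q, z.im⟩ = -NumI.lnB q z.im := Num.YY_lnB hs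
  rw [← e, YY_neg hy, YY_neg (by exact hy)]
  have := Tr_mono (s := -z.im) (by linarith only [hy]) h
  simp only
  linarith only [this]

theorem YY_le_pos {z : ℂ} {q : ℝ} (hy : 0 ≤ z.im) (h0 : 0 < q) (h1 : q < 1) (h : z.re ≤ q) :
    YY z ≤ -NumI.lnB q z.im := by
  have hs : (⟨q, z.im⟩ : ℂ) ∈ strip := ⟨h0, h1⟩
  have e : YY ⟨q, z.im⟩ = -NumI.lnB q z.im := Num.YY_lnB hs
  rcases hy.eq_or_lt with hy | hy
  · rw [← e, YY_zero hy.symm, YY_zero (by exact hy.symm)]
  · rw [← e, YY_pos hy, YY_pos (by exact hy)]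
    have := Tr_mono (s := z.im) hy h
    simp only
    linarith only [this]

theorem YY_le_one {z : ℂ} (hy : 0 ≤ z.im) (h : z.re ≤ 1) : YY z ≤ Real.pi * (1 / 2) := by
  have hpi := Real.pi_pos
  rcases hy.eq_or_lt with hy | hy
  · rw [YY_zero hy.symm]
    positivity
  · rw [YY_pos hy]
    have := Tr_mono (s := z.im) hy h
    rw [Tr_one hy] at this
    linarith only [this]

theorem neg_pi_le_YY {z : ℂ} (h0 : 0 ≤ z.re) (h : z.re ≤ 3 / 2) : -Real.pi ≤ YY z := by
  have hpi := Real.pi_pos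
  rcases lt_trichotomy z.im 0 with hy | hy | hy
  · rw [YY_neg hy]
    have := Tr_mono (s := -z.im) (by linarith only [hy]) h
    rw [show (3 / 2 : ℝ) = 1 / 2 + 1 by norm_num, Tr_add_one, Tr_half (by linarith only [hy])] at this
    linarith only [this]
  · rw [YY_zero hy]
    linarith only [hpi]
  · rw [YY_pos hy]
    have := Tr_mono (s := z.im) hy h0
    rw [DT.Tr_zero hy] at this
    linarith only [hpi, this]

/-- values at the point behind `1` -/
theorem behind {z : ℂ} (h0 : 1 < z.re) (h1 : z.re < 2) :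
    LL z = NumI.lnA (z.re - 1) z.im ∧ (z.im < 0 → YY z = -Real.pi - NumI.lnB (z.re - 1) z.im) := by
  have h : z - 1 ∈ strip := by
    constructor <;> simp only [Complex.sub_re, Complex.one_re] <;> linarith only [h0, h1]
  have e1 := LL_add_one (z - 1)
  have e2 := YY_add_one (z - 1)
  rw [sub_add_cancel] at e1 e2
  have f1 := Num.LL_lnA h
  have f2 := Num.YY_lnB h
  simp only [Complex.sub_re, Complex.one_re, Complex.sub_im, Complex.one_im, sub_zero] at f1 f2
  refine ⟨by rw [e1, f1], fun hy => ?_⟩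
  have hi' : (z - 1).im < 0 := by
    simp only [Complex.sub_im, Complex.one_im]
    linarith only [hy]
  rw [if_neg (not_lt.2 hi'.le), if_pos hi'] at e2
  rw [e2, f2]
  ring

end S0R

end Pool.Agent.Work.MP_b30479_gt.G2
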