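import Pool.Agent.Work.MP_b30479_gt.G2.S0RQ
import Pool.Agent.Work.NumU.Tree

/-!
# `ring | 3` at slot `0`, the exceptional case: rows, right ramp of the inner variable
-/

set_option linter.unusedSimpArgs false
set_option linter.unusedVariables false

namespace Pool.Agent.Work.MP_b30479_gt.G2

open VOL NumU

namespace S0R

open NumU.E ER

theorem kr1 {x a w b s t : ℝ} (ua1 : 5000 / 10000 ≤ x) (ua2 : x ≤ 6000 / 10000) (ua3 : -(10 / 10000) ≤ a) (ua4 : a ≤ 0 / 10000) (ua5 : 0 / 10000 ≤ w) (ua6 : w ≤ 1800 / 10000) (ua7 : -(1145 / 10000) ≤ b) (ua8 : b ≤ 0 / 10000) (ua9 : 0 / 10000 ≤ s) (ua10 : s ≤ 500 / 10000) (ua11 : -(1057 / 10000) ≤ t) (ua12 : t ≤ -(150 / 10000)) (ua13 : 8 / 10 - s + w ≤ 9300 / 10000) :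
    rG (8 / 10 - s + w) (-NumI.lnB (8 / 10 - s + w) (20 * (t * s) + b)) x a w b s t < 0 := by
  have h : chkT [neg (G pp (neg (E.lnB pp (add hh ER.b)))), sub pp (q 9300 10000)] 40
    304678301987019589834788046472833449151757853809725962999747519025919031458396042160211228301870204728402
    [NumI.V.of 10000 5000 6000, NumI.V.of 10000 (-10) 0, NumI.V.of 10000 0 1800, NumI.V.of 10000 (-1145) 0, NumI.V.of 10000 0 500, NumI.V.of 10000 (-1057) (-150)] = true := by
    decide +kernel
  obtain ⟨f, hf, hp⟩ := chkT_sound h (xs := [x, a, w, b, s, t])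
    (List.Forall₂.cons (NumI.V.of_mem (by norm_num) (by norm_num; linarith only [ua1]) (by norm_num; linarith only [ua2])) (List.Forall₂.cons (NumI.V.of_mem (by norm_num) (by norm_num; linarith only [ua3]) (by norm_num; linarith only [ua4])) (List.Forall₂.cons (NumI.V.of_mem (by norm_num) (by norm_num; linarith only [ua5]) (by norm_num; linarith only [ua6])) (List.Forall₂.cons (NumI.V.of_mem (by norm_num) (by norm_num; linarith only [ua7]) (by norm_num; linarith only [ua8])) (List.Forall₂.cons (NumI.V.of_mem (by norm_num) (by norm_num; linarith only [ua9]) (by norm_num; linarith only [ua10])) (List.Forall₂.cons (NumI.V.of_mem (by norm_num) (by norm_num; linarith only [ua11]) (by norm_num; linarith only [ua12])) List.Forall₂.nil))))))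
  by_contra hc
  push Not at hc
  simp only [List.mem_cons, List.not_mem_nil, or_false] at hf
  rcases hf with rfl | rfl
  · simp only [G_val, V_val, ER.pp, ER.rr, ER.hh, ER.x, ER.a, ER.w, ER.b, ER.s, ER.t, E.val, NumI.lkR] at hp
    push_cast at hp
    linarith only [hc, hp]
  · simp only [G_val, V_val, ER.pp, ER.rr, ER.hh, ER.x, ER.a, ER.w, ER.b, ER.s, ER.t, E.val, NumI.lkR] at hp
    push_cast at hp
    linarith only [ua13, hp]

theorem kr2 {x a w b s t : ℝ} (ua1 : 5000 / 10000 ≤ x) (ua2 : x ≤ 6000 / 10000) (ua3 : -(10 / 10000) ≤ a) (ua4 : a ≤ 0 / 10000) (ua5 : 1300 / 10000 ≤ w) (ua6 : w ≤ 3200 / 10000) (ua7 : -(1145 / 10000) ≤ b) (ua8 : b ≤ 0 / 10000) (ua9 : 0 / 10000 ≤ s) (ua10 : s ≤ 500 / 10000) (ua11 : -(1057 / 10000) ≤ t) (ua12 : t ≤ -(150 / 10000)) (ua13 : 9300 / 10000 ≤ 8 / 10 - s + w) (ua14 : 8 / 10 - s + w ≤ 10700 / 10000) :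
    rG (9300 / 10000) (-NumI.lnB (9300 / 10000) (20 * (t * s) + b)) x a w b s t < 0 := by
  have h : chkT [neg (G (q 9300 10000) (neg (E.lnB (q 9300 10000) (add hh ER.b)))), sub (q 9300 10000) pp, sub pp (q 10700 10000)] 40
    613483737752568645
    [NumI.V.of 10000 5000 6000, NumI.V.of 10000 (-10) 0, NumI.V.of 10000 1300 3200, NumI.V.of 10000 (-1145) 0, NumI.V.of 10000 0 500, NumI.V.of 10000 (-1057) (-150)] = true := by
    decide +kernel
  obtain ⟨f, hf, hp⟩ := chkT_sound h (xs := [x, a, w, b, s, t])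
    (List.Forall₂.cons (NumI.V.of_mem (by norm_num) (by norm_num; linarith only [ua1]) (by norm_num; linarith only [ua2])) (List.Forall₂.cons (NumI.V.of_mem (by norm_num) (by norm_num; linarith only [ua3]) (by norm_num; linarith only [ua4])) (List.Forall₂.cons (NumI.V.of_mem (by norm_num) (by norm_num; linarith only [ua5]) (by norm_num; linarith only [ua6])) (List.Forall₂.cons (NumI.V.of_mem (by norm_num) (by norm_num; linarith only [ua7]) (by norm_num; linarith only [ua8])) (List.Forall₂.cons (NumI.V.of_mem (by norm_num) (by norm_num; linarith only [ua9]) (by norm_num; linarith only [ua10])) (List.Forall₂.cons (NumI.V.of_mem (by norm_num) (by norm_num; linarith only [ua11]) (by norm_num; linarith only [ua12])) List.Forall₂.nil))))))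
  by_contra hc
  push Not at hc
  simp only [List.mem_cons, List.not_mem_nil, or_false] at hf
  rcases hf with rfl | rfl | rfl
  · simp only [G_val, V_val, ER.pp, ER.rr, ER.hh, ER.x, ER.a, ER.w, ER.b, ER.s, ER.t, E.val, NumI.lkR] at hp
    push_cast at hp
    linarith only [hc, hp]
  · simp only [G_val, V_val, ER.pp, ER.rr, ER.hh, ER.x, ER.a, ER.w, ER.b, ER.s, ER.t, E.val, NumI.lkR] at hp
    push_cast at hp
    linarith only [ua13, hp]
  · simp only [G_val, V_val, ER.pp, ER.rr, ER.hh, ER.x, ER.a, ER.w, ER.b, ER.s, ER.t, E.val, NumI.lkR] at hp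
    push_cast at hp
    linarith only [ua14, hp]

theorem kr3 {x a w b s t : ℝ} (ua1 : 5000 / 10000 ≤ x) (ua2 : x ≤ 6000 / 10000) (ua3 : -(10 / 10000) ≤ a) (ua4 : a ≤ 0 / 10000) (ua5 : 2700 / 10000 ≤ w) (ua6 : w ≤ 3900 / 10000) (ua7 : -(1145 / 10000) ≤ b) (ua8 : b ≤ 0 / 10000) (ua9 : 0 / 10000 ≤ s) (ua10 : s ≤ 500 / 10000) (ua11 : -(1057 / 10000) ≤ t) (ua12 : t ≤ -(150 / 10000)) (ua13 : 10700 / 10000 ≤ 8 / 10 - s + w) :
    rG (8 / 10 - s + w - 1) (-Real.pi - NumI.lnB (8 / 10 - s + w - 1) (20 * (t * s) + b)) x a w b s t < 0 := by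
  have h : chkT [neg (G (sub pp (q 1 1)) (sub (neg pi) (E.lnB (sub pp (q 1 1)) (add hh ER.b)))), sub (q 10700 10000) pp] 40
    15042505307056869000646134553261085211944070157531760349871496159098647106
    [NumI.V.of 10000 5000 6000, NumI.V.of 10000 (-10) 0, NumI.V.of 10000 2700 3900, NumI.V.of 10000 (-1145) 0, NumI.V.of 10000 0 500, NumI.V.of 10000 (-1057) (-150)] = true := by
    decide +kernel
  obtain ⟨f, hf, hp⟩ := chkT_sound h (xs := [x, a, w, b, s, t])
    (List.Forall₂.cons (NumI.V.of_mem (by norm_num) (by norm_num; linarith only [ua1]) (by norm_num; linarith only [ua2])) (List.Forall₂.cons (NumI.V.of_mem (by norm_num) (by norm_num; linarith only [ua3]) (by norm_num; linarith only [ua4])) (List.Forall₂.cons (NumI.V.of_mem (by norm_num) (by norm_num; linarith only [ua5]) (by norm_num; linarith only [ua6])) (List.Forall₂.cons (NumI.V.of_mem (by norm_num) (by norm_num; linarith only [ua7]) (by norm_num; linarith only [ua8])) (List.Forall₂.cons (NumI.V.of_mem (by norm_num)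 (by norm_num; linarith only [ua9]) (by norm_num; linarith only [ua10])) (List.Forall₂.cons (NumI.V.of_mem (by norm_num) (by norm_num; linarith only [ua11]) (by norm_num; linarith only [ua12])) List.Forall₂.nil))))))
  by_contra hc
  push Not at hc
  simp only [List.mem_cons, List.not_mem_nil, or_false] at hf
  rcases hf with rfl | rfl
  · simp only [G_val, V_val, ER.pp, ER.rr, ER.hh, ER.x, ER.a, ER.w, ER.b, ER.s, ER.t, E.val, NumI.lkR] at hp
    push_cast at hp
    linarith only [hc, hp]
  · simp only [G_val, V_val, ER.pp, ER.rr, ER.hh, ER.x, ER.a, ER.w, ER.b, ER.s, ER.t, E.val, NumI.lkR] at hp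
    push_cast at hp
    linarith only [ua13, hp]

end S0R

end Pool.Agent.Work.MP_b30479_gt.G2
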