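import Pool.Agent.Work.MP_b30479_gt.G2.V2O2D

/-!
# Value moves of the hinge `2 | 3`: the digit `2`, rows 2
-/

namespace Pool.Agent.Work.MP_b30479_gt.G2

open VOL NumU

namespace V2A

open NumU.E

section
open NumI (V)

theorem o27_2 : chkT (O2 (q 27 100) vT eh27 fg27 []) 60
    142771075
    [V.of 10000 5000 6000, V.of 10000 (-50) 570, V.of 10000 3700 5300, V.of 10000 (-985) 960] = true := by
  decide +kernel

theorem o27_3 : chkT (O3 (q 27 100) vT eh27 fg27 []) 60
    1530519444894802628492807761421863963064283240976640448145626118602114301111997573947065845645094116014119424424192162218783810417991086375494077724847733222668354443340296649085063821551227751120203361099632734751060732209809415488442506254564037349301706890066882617719580978976367127306903268958826162946610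
    [V.of 10000 5000 6000, V.of 10000 (-50) 570, V.of 10000 4300 7000, V.of 10000 (-985) 960] = true := by
  decide +kernel

theorem o27_4 : chkT (O4 (q 27 100) vT eh27 fg27 []) 60
    430206344600249231799201624041261458750168313016163080939404765580529904701494124568761358027066668413247559278729979797647679765049002076873157312403833622231827291122963671997640583861997473070083204841957504624083584722155129620291355936435269190923446956197767690478343404570299813358291208427188393404103486789802758962
    [V.of 10000 5000 6000, V.of 10000 (-50) 570, V.of 10000 4300 7000, V.of 10000 (-985) 960] = true := by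
  decide +kernel

theorem o27_5 : chkT (O5 (q 27 100) vT eh27 fg27 []) 60
    159908739
    [V.of 10000 5000 6000, V.of 10000 (-50) 570, V.of 10000 7000 7600, V.of 10000 (-985) 960] = true := by
  decide +kernel

theorem o27_6 : chkT (O6 (q 27 100) vT eh27 fg27 []) 60
    36641540099
    [V.of 10000 5000 6000, V.of 10000 (-50) 570, V.of 10000 7000 7600, V.of 10000 (-985) 960] = true := by
  decide +kernel

theorem o27_7 : chkT (O7 (q 27 100) vT eh27 fg27 []) 60
    40937687091
    [V.of 10000 5000 6000, V.of 10000 (-50) 570, V.of 10000 7600 8000, V.of 10000 (-985) 960] = true := by
  decide +kernel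

theorem o27_8 : chkT (O8 (q 27 100) vT eh27 fg27 []) 60
    9352425736211
    [V.of 10000 5000 6000, V.of 10000 (-50) 570, V.of 10000 7600 8000, V.of 10000 (-985) 960] = true := by
  decide +kernel

theorem o27_0 : chkT (OS (q 27 100) vT eh27 fg27) 60
    6587590016470957574199888636770759484371378245491618376947833481682190384189652941655344998108808844143391929246151187314427700213574135870863383451716442397684969938149120899005151119289107543338560444150648861984335300331218532972155774148911791998352408695576115528256463223111188198216320446040096298388933660148482
    [V.of 1000 500 600, V.of 1000 (-5) 57, V.of 1000 0 125, V.of 1000 (-850) 770] = true := by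
  decide +kernel

end

end V2A

end Pool.Agent.Work.MP_b30479_gt.G2
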