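import Pool.Agent.Work.MP_b30479_gt.G2.V2O2D

/-!
# Value moves of the hinge `2 | 3`: the digit `2`, rows 4
-/

namespace Pool.Agent.Work.MP_b30479_gt.G2

open VOL NumU

namespace V2A

open NumU.E

section
open NumI (V)

theorem o41_2 : chkT (O2 (q 41 100) ehc41 eh27 fg41 []) 60
    10283100844863634202460195
    [V.of 10000 5000 6000, V.of 10000 (-50) 570, V.of 10000 3700 5300, V.of 10000 (-985) 960] = true := by
  decide +kernel

theorem o41_3 : chkT (O3 (q 41 100) ehc41 eh27 fg41 []) 60
    13549405185386874479605848628985496873664263444719929006739049720126455734714470528560768869855353814216266812292699570974614102248571697021019979713343934910407819605927844277259300298056498166804547384701565898928562211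
    [V.of 10000 5000 6000, V.of 10000 (-50) 570, V.of 10000 4300 5600, V.of 10000 (-985) 960] = true := by
  decide +kernel

theorem o41_4 : chkT (O4 (q 41 100) ehc41 eh27 fg41 []) 60
    201595426916809058476463987077229130678187900992171211261644818030587231979953372220595740171512883438176076735369213151440110987712219200321379866249890307650099412909353450173789293113265976897605534470950994651668160501594419
    [V.of 10000 5000 6000, V.of 10000 (-50) 570, V.of 10000 4300 5600, V.of 10000 (-985) 960] = true := by
  decide +kernel

theorem o41_5 : chkT (O5 (q 41 100) ehc41 eh27 fg41 []) 60
    45011895296598145598211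
    [V.of 10000 5000 6000, V.of 10000 (-50) 570, V.of 10000 5600 6200, V.of 10000 (-985) 960] = true := by
  decide +kernel

theorem o41_6 : chkT (O6 (q 41 100) ehc41 eh27 fg41 []) 60
    40205262066847160832771
    [V.of 10000 5000 6000, V.of 10000 (-50) 570, V.of 10000 5600 6200, V.of 10000 (-985) 960] = true := by
  decide +kernel

theorem o41_7 : chkT (O7 (q 41 100) ehc41 eh27 fg41 []) 60
    4772185152430405808954509195177195104101232045290757688761122113731867611544188449010466
    [V.of 10000 5000 6000, V.of 10000 (-50) 570, V.of 10000 6200 8000, V.of 10000 (-985) 960] = true := by
  decide +kernel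

theorem o41_8 : chkT (O8 (q 41 100) ehc41 eh27 fg41 []) 60
    5129662234110371332099845685003283474605103663046186204323130008630993118847042121926688264244684112850222396194
    [V.of 10000 5000 6000, V.of 10000 (-50) 570, V.of 10000 6200 8000, V.of 10000 (-985) 960] = true := by
  decide +kernel

theorem o41_0 : chkT (OS (q 41 100) ehc41 eh27 fg41) 60
    73058754397429944016492837584407920128104089705676229178470619249351535111908218323476045155920883009287266061155135129642918103275443855870180786332460513128022620668534470071162163194715828283245743817893592137698502577057335097113145854376202169343629716014443878646391985136738868112215390969326144967111067573589008758555359859261598627282454266796340084217175339399248746366929432085664272090928900277715627982360917875467266386392304031305730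
    [V.of 1000 500 600, V.of 1000 (-5) 57, V.of 1000 0 125, V.of 1000 (-850) 770] = true := by
  decide +kernel

end

end V2A

end Pool.Agent.Work.MP_b30479_gt.G2
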