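import Pool.Agent.Work.MP_b30479_gt.G2.V2O2A
import Pool.Agent.Work.MP_b30479_gt.G2.V2O2B
import Pool.Agent.Work.MP_b30479_gt.G2.V2O2C
import Pool.Agent.Work.MP_b30479_gt.G2.V2O2E

/-!
# Value moves of the hinge `2 | 3`: the digit `2`, the value moves
-/

namespace Pool.Agent.Work.MP_b30479_gt.G2

open VOL NumU

namespace V2A

open NumU.E

variable {x T h k κ : ℝ}

theorem o27 (hx : 1 / 2 ≤ x) (hx' : x ≤ 6 / 10) (hT : -(5 / 1000) ≤ T) (hT' : T ≤ 57 / 1000)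
    (hl : 125 / 1000 ≤ k) (hl' : k ≤ 8 / 10) (ht : -(985 / 10000) ≤ h) (ht' : h ≤ 96 / 1000)
    (hr : 56 / 100 ≤ k → -(82 / 1000) ≤ h ∧ h ≤ 15 / 1000) :
    g27 x (-T) < dvO (27 / 100) T x (h27 x T) k h +
      (NumU.uu (27 / 100 + k) (T + h) - NumU.uu (x + k) (h27 x T + h)) := by
  obtain ⟨m1, m2⟩ := h27_mem (T := T) hx hx' (a := 5 / 1000) (b := 57 / 1000) (by linarith only [hT])
    (by linarith only [hT']) (by norm_num) (by norm_num)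
  have e0 : (q 27 100).val [x, T, k, h] = 27 / 100 := by norm_num [E.val]
  have := other_row (c := q 27 100) (hc := vT) (hx := eh27) (g := fg27) (es := [])
    (xs := [x, T, k, h]) (cc := 27 / 100) (k := k) (hk := h) (x := x) rfl rfl rfl e0
    (by rw [eh27_val, abs_le]; constructor <;> linarith only [ht, m1, ht', m2])
    (fun h0 => by
      obtain ⟨b1, b2⟩ := hr (by linarith only [h0])
      rw [vT_val, abs_le]; constructor <;> linarith only [hT, b1, hT', ht', b2])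
    (fun h1 => use4 o27_1 (by norm_num) (by
      refine ⟨⟨?_, ?_⟩, ⟨?_, ?_⟩, ⟨?_, ?_⟩, ⟨?_, ?_⟩⟩ <;>
        push_cast <;> linarith only [hx, hx', hT, hT', hl, h1, ht, ht']))
    (fun h1 h2 => use4 o27_2 (by norm_num) (by
      refine ⟨⟨?_, ?_⟩, ⟨?_, ?_⟩, ⟨?_, ?_⟩, ⟨?_, ?_⟩⟩ <;>
        push_cast <;> linarith only [hx, hx', hT, hT', h1, h2, ht, ht']))
    (fun h1 h2 => use4 o27_3 (by norm_num) (by
      refine ⟨⟨?_, ?_⟩, ⟨?_, ?_⟩, ⟨?_, ?_⟩, ⟨?_, ?_⟩⟩ <;>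
        push_cast <;> linarith only [hx, hx', hT, hT', h1, h2, ht, ht']))
    (fun h1 h2 => use4 o27_4 (by norm_num) (by
      refine ⟨⟨?_, ?_⟩, ⟨?_, ?_⟩, ⟨?_, ?_⟩, ⟨?_, ?_⟩⟩ <;>
        push_cast <;> linarith only [hx, hx', hT, hT', h1, h2, ht, ht']))
    (fun h1 h2 => use4 o27_5 (by norm_num) (by
      refine ⟨⟨?_, ?_⟩, ⟨?_, ?_⟩, ⟨?_, ?_⟩, ⟨?_, ?_⟩⟩ <;>
        push_cast <;> linarith only [hx, hx', hT, hT', h1, h2, ht, ht']))
    (fun h1 h2 => use4 o27_6 (by norm_num) (by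
      refine ⟨⟨?_, ?_⟩, ⟨?_, ?_⟩, ⟨?_, ?_⟩, ⟨?_, ?_⟩⟩ <;>
        push_cast <;> linarith only [hx, hx', hT, hT', h1, h2, ht, ht']))
    (fun h1 => use4 o27_7 (by norm_num) (by
      refine ⟨⟨?_, ?_⟩, ⟨?_, ?_⟩, ⟨?_, ?_⟩, ⟨?_, ?_⟩⟩ <;>
        push_cast <;> linarith only [hx, hx', hT, hT', h1, hl', ht, ht']))
    (fun h1 => use4 o27_8 (by norm_num) (by
      refine ⟨⟨?_, ?_⟩, ⟨?_, ?_⟩, ⟨?_, ?_⟩, ⟨?_, ?_⟩⟩ <;>
        push_cast <;> linarith only [hx, hx', hT, hT', h1, hl', ht, ht']))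
    all_nil
  rw [eh27_val, fg27_val, vT_val] at this
  exact this

theorem o27' (hx : 1 / 2 ≤ x) (hx' : x ≤ 6 / 10) (hT : -(5 / 1000) ≤ T) (hT' : T ≤ 57 / 1000)
    (hl : 0 ≤ k) (hl' : k ≤ 125 / 1000) (ht : -(850 / 1000) ≤ κ) (ht' : κ ≤ 770 / 1000) :
    g27 x (-T) < dvO (27 / 100) T x (h27 x T) k (κ * k) +
      (NumU.uu (27 / 100 + k) (T + κ * k) - NumU.uu (x + k) (h27 x T + κ * k)) := by
  have key : ∃ e ∈ OS (q 27 100) vT eh27 fg27, 0 < e.val [x, T, k, κ] :=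
    use4 o27_0 (by norm_num) (by
      refine ⟨⟨?_, ?_⟩, ⟨?_, ?_⟩, ⟨?_, ?_⟩, ⟨?_, ?_⟩⟩ <;>
        push_cast <;> linarith only [hx, hx', hT, hT', hl, hl', ht, ht'])
  have := of_list key all_nil
  rw [FOe_val] at this
  have e0 : (q 27 100).val [x, T, k, κ] = 27 / 100 := by norm_num [E.val]
  have e1 : vkk.val [x, T, k, κ] = κ * k := rfl
  have e2 : (sub (uu (add (q 27 100) vl) (add vkk vT)) (uu vk (add vkk eh27))).val [x, T, k, κ] =
      NumU.uu (27 / 100 + k) (κ * k + T) - NumU.uu (x + k) (κ * k + h27 x T) := by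
    have e3 : vl.val [x, T, k, κ] = k := rfl
    have e4 : vk.val [x, T, k, κ] = x + k := rfl
    have e5 := eh27_val (x := x) (T := T) (r := [k, κ])
    have e6 := vT_val (x := x) (T := T) (r := [k, κ])
    simp only [E.val, e1, e3, e4] at e0 e5 e6 ⊢
    rw [e0, e5, e6]
  rw [e0, e1, e2, eh27_val, fg27_val, vT_val] at this
  have e7 : vl.val [x, T, k, κ] = k := rfl
  have e8 : vx.val [x, T, k, κ] = x := rfl
  rw [e7, e8] at this
  rw [add_comm T (κ * k), add_comm (h27 x T) (κ * k)]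
  linarith only [this]

theorem o41 (hx : 1 / 2 ≤ x) (hx' : x ≤ 6 / 10) (hT : -(5 / 1000) ≤ T) (hT' : T ≤ 57 / 1000)
    (hl : 125 / 1000 ≤ k) (hl' : k ≤ 8 / 10) (ht : -(985 / 10000) ≤ h) (ht' : h ≤ 96 / 1000)
    (hr : 56 / 100 ≤ k → -(82 / 1000) ≤ h ∧ h ≤ 15 / 1000) :
    g41 x (-T) < dvO (41 / 100) (T * (19 / 27)) x (h27 x T) k h +
      (NumU.uu (41 / 100 + k) ((T * (19 / 27)) + h) - NumU.uu (x + k) (h27 x T + h)) := by
  obtain ⟨m1, m2⟩ := h27_mem (T := T) hx hx' (a := 5 / 1000) (b := 57 / 1000) (by linarith only [hT])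
    (by linarith only [hT']) (by norm_num) (by norm_num)
  have e0 : (q 41 100).val [x, T, k, h] = 41 / 100 := by norm_num [E.val]
  have := other_row (c := q 41 100) (hc := ehc41) (hx := eh27) (g := fg41) (es := [])
    (xs := [x, T, k, h]) (cc := 41 / 100) (k := k) (hk := h) (x := x) rfl rfl rfl e0
    (by rw [eh27_val, abs_le]; constructor <;> linarith only [ht, m1, ht', m2])
    (fun h0 => by
      obtain ⟨b1, b2⟩ := hr (by linarith only [h0])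
      rw [ehc41_val, abs_le]; constructor <;> linarith only [hT, b1, hT', ht'])
    (fun h1 => use4 o41_1 (by norm_num) (by
      refine ⟨⟨?_, ?_⟩, ⟨?_, ?_⟩, ⟨?_, ?_⟩, ⟨?_, ?_⟩⟩ <;>
        push_cast <;> linarith only [hx, hx', hT, hT', hl, h1, ht, ht']))
    (fun h1 h2 => use4 o41_2 (by norm_num) (by
      refine ⟨⟨?_, ?_⟩, ⟨?_, ?_⟩, ⟨?_, ?_⟩, ⟨?_, ?_⟩⟩ <;>
        push_cast <;> linarith only [hx, hx', hT, hT', h1, h2, ht, ht']))
    (fun h1 h2 => use4 o41_3 (by norm_num) (by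
      refine ⟨⟨?_, ?_⟩, ⟨?_, ?_⟩, ⟨?_, ?_⟩, ⟨?_, ?_⟩⟩ <;>
        push_cast <;> linarith only [hx, hx', hT, hT', h1, h2, ht, ht']))
    (fun h1 h2 => use4 o41_4 (by norm_num) (by
      refine ⟨⟨?_, ?_⟩, ⟨?_, ?_⟩, ⟨?_, ?_⟩, ⟨?_, ?_⟩⟩ <;>
        push_cast <;> linarith only [hx, hx', hT, hT', h1, h2, ht, ht']))
    (fun h1 h2 => use4 o41_5 (by norm_num) (by
      refine ⟨⟨?_, ?_⟩, ⟨?_, ?_⟩, ⟨?_, ?_⟩, ⟨?_, ?_⟩⟩ <;>
        push_cast <;> linarith only [hx, hx', hT, hT', h1, h2, ht, ht']))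
    (fun h1 h2 => use4 o41_6 (by norm_num) (by
      refine ⟨⟨?_, ?_⟩, ⟨?_, ?_⟩, ⟨?_, ?_⟩, ⟨?_, ?_⟩⟩ <;>
        push_cast <;> linarith only [hx, hx', hT, hT', h1, h2, ht, ht']))
    (fun h1 => use4 o41_7 (by norm_num) (by
      refine ⟨⟨?_, ?_⟩, ⟨?_, ?_⟩, ⟨?_, ?_⟩, ⟨?_, ?_⟩⟩ <;>
        push_cast <;> linarith only [hx, hx', hT, hT', h1, hl', ht, ht']))
    (fun h1 => use4 o41_8 (by norm_num) (by
      refine ⟨⟨?_, ?_⟩, ⟨?_, ?_⟩, ⟨?_, ?_⟩, ⟨?_, ?_⟩⟩ <;>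
        push_cast <;> linarith only [hx, hx', hT, hT', h1, hl', ht, ht']))
    all_nil
  rw [eh27_val, fg41_val, ehc41_val] at this
  exact this

theorem o41' (hx : 1 / 2 ≤ x) (hx' : x ≤ 6 / 10) (hT : -(5 / 1000) ≤ T) (hT' : T ≤ 57 / 1000)
    (hl : 0 ≤ k) (hl' : k ≤ 125 / 1000) (ht : -(850 / 1000) ≤ κ) (ht' : κ ≤ 770 / 1000) :
    g41 x (-T) < dvO (41 / 100) (T * (19 / 27)) x (h27 x T) k (κ * k) +
      (NumU.uu (41 / 100 + k) ((T * (19 / 27)) + κ * k) - NumU.uu (x + k) (h27 x T + κ * k)) := by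
  have key : ∃ e ∈ OS (q 41 100) ehc41 eh27 fg41, 0 < e.val [x, T, k, κ] :=
    use4 o41_0 (by norm_num) (by
      refine ⟨⟨?_, ?_⟩, ⟨?_, ?_⟩, ⟨?_, ?_⟩, ⟨?_, ?_⟩⟩ <;>
        push_cast <;> linarith only [hx, hx', hT, hT', hl, hl', ht, ht'])
  have := of_list key all_nil
  rw [FOe_val] at this
  have e0 : (q 41 100).val [x, T, k, κ] = 41 / 100 := by norm_num [E.val]
  have e1 : vkk.val [x, T, k, κ] = κ * k := rfl
  have e2 : (sub (uu (add (q 41 100) vl) (add vkk ehc41)) (uu vk (add vkk eh27))).val [x, T, k, κ] =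
      NumU.uu (41 / 100 + k) (κ * k + (T * (19 / 27))) - NumU.uu (x + k) (κ * k + h27 x T) := by
    have e3 : vl.val [x, T, k, κ] = k := rfl
    have e4 : vk.val [x, T, k, κ] = x + k := rfl
    have e5 := eh27_val (x := x) (T := T) (r := [k, κ])
    have e6 := ehc41_val (x := x) (T := T) (r := [k, κ])
    simp only [E.val, e1, e3, e4] at e0 e5 e6 ⊢
    rw [e0, e5, e6]
  rw [e0, e1, e2, eh27_val, fg41_val, ehc41_val] at this
  have e7 : vl.val [x, T, k, κ] = k := rfl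
  have e8 : vx.val [x, T, k, κ] = x := rfl
  rw [e7, e8] at this
  rw [add_comm (T * (19 / 27)) (κ * k), add_comm (h27 x T) (κ * k)]
  linarith only [this]

end V2A

end Pool.Agent.Work.MP_b30479_gt.G2
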