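import Pool.Agent.Work.MP_b30479_gt.G2.V2Row

/-!
# Value moves of the hinge `2e | 3` (side `S3` of an inner digit `3`): the inner digit
-/

namespace Pool.Agent.Work.MP_b30479_gt.G2

open VOL NumU

namespace V2A

open NumU.E

section
open NumI (V)

theorem r2e_1 : chkT (R1 (q 18 100) vT eh30 vt eg2e []) 60
    127618103070553146972802095743171753425970274070710026119072086192039493192433146531230492585861913387609493484390133984694852336105290252292873127466282032103562950690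
    [V.of 1000 500 600, V.of 1000 (-98) (-76), V.of 1000 300 570, V.of 1000 (-123) 0] = true := by
  decide +kernel

theorem r2e_2 : chkT (R2 (q 18 100) vT eh30 vt eg2e []) 60
    898497730472705527630444691350749437689251793866658960874838434451
    [V.of 1000 500 600, V.of 1000 (-98) (-76), V.of 1000 300 570, V.of 1000 (-123) 0] = true := by
  decide +kernel

theorem r2e_3 : chkT (R3 (q 18 100) vT eh30 vt eg2e []) 60
    2179
    [V.of 1000 500 600, V.of 1000 (-98) (-76), V.of 1000 470 630, V.of 1000 (-123) 0] = true := by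
  decide +kernel

theorem r2e_4 : chkT (R4 (q 18 100) vT eh30 vt eg2e []) 60
    35279507367821770224293571187507295615702698837023629818005779581677954155173776846829355437900282893170008119702383248496773123416536345285799612284740752229404684848850215451624226
    [V.of 1000 500 600, V.of 1000 (-98) (-76), V.of 1000 530 800, V.of 1000 (-123) 0] = true := by
  decide +kernel

theorem l2eL_1 : chkT (L1 (q 18 100) vT (q 46 100) eh30 eg2e []) 60
    896196010630986963296976179939117640448770427483362427066298737700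
    [V.of 10000 5000 6000, V.of 10000 (-980) (-760), V.of 10000 500 3000, V.of 10000 (-1230) (-640), V.of 10000 0 3900, V.of 10000 (-1145) 570] = true := by
  decide +kernel

theorem l2eL_2 : chkT (L2 (q 18 100) vT (q 46 100) eh30 eg2e []) 60
    9
    [V.of 10000 5000 6000, V.of 10000 (-980) (-760), V.of 10000 500 3000, V.of 10000 (-1230) (-640), V.of 10000 0 3900, V.of 10000 (-1145) 570] = true := by
  decide +kernel

theorem l2eP_1 : chkT (P1 (q 18 100) vT (q 46 100) eh30 eg2e []) 60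
    2178
    [V.of 10000 5000 6000, V.of 10000 (-980) (-760), V.of 10000 0 500, V.of 10000 (-1230) (-640), V.of 10000 0 600, V.of 10000 (-1145) 570] = true := by
  decide +kernel

theorem l2eP_2 : chkT (P2 (q 18 100) vT (q 46 100) eh30 eg2e []) 60
    8
    [V.of 10000 5000 6000, V.of 10000 (-980) (-760), V.of 10000 0 500, V.of 10000 (-1230) (-640), V.of 10000 0 600, V.of 10000 (-1145) 570] = true := by
  decide +kernel

theorem l2eP_3 : chkT (P3 (q 18 100) vT (q 46 100) eh30 eg2e []) 60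
    13687423151165179653327135424132118034200134965320415432680516
    [V.of 10000 5000 6000, V.of 10000 (-980) (-760), V.of 10000 0 500, V.of 10000 (-1230) (-640), V.of 10000 100 3900, V.of 10000 (-1145) 570] = true := by
  decide +kernel

theorem l2eP_4 : chkT (P4 (q 18 100) vT (q 46 100) eh30 eg2e []) 60
    674842153404954626386225800260
    [V.of 10000 5000 6000, V.of 10000 (-980) (-760), V.of 10000 0 500, V.of 10000 (-1230) (-640), V.of 10000 100 3900, V.of 10000 (-1145) 570] = true := by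
  decide +kernel

end

variable {x T l h t w S : ℝ}

theorem r2e (hx : 1 / 2 ≤ x) (hx' : x ≤ 6 / 10) (hT : -(98 / 1000) ≤ T) (hT' : T ≤ -(76 / 1000))
    (hl : 300 / 1000 ≤ l) (hl' : l ≤ 800 / 1000) (hh : -(123 / 1000) ≤ h) (hh' : h ≤ 0) :
    0 < dvR (18 / 100) T x (h30 x T) l h + g2e x T + uu (l - x) (h - h30 x T) := by
  obtain ⟨m1, m2⟩ := h30_mem (T := T) hx hx' (a := 98 / 1000) (b := 0) (by linarith only [hT]) (by linarith only [hT']) (by norm_num)
    (by norm_num)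
  have ev : vt.val [x, T, l, h] = h := rfl
  have := right_row (c := q 18 100) (hc := vT) (hx := eh30) (g := eg2e) (hl := vt) (es := [])
    (xs := [x, T, l, h]) (l := l) (x := x) rfl rfl
    (by rw [eh30_val, ev, abs_le]; constructor <;> linarith only [hh, m2, hh', m1]) all_nil
    (fun h1 => use4 r2e_1 (by norm_num) (by
      refine ⟨⟨?_, ?_⟩, ⟨?_, ?_⟩, ⟨?_, ?_⟩, ⟨?_, ?_⟩⟩ <;>
        push_cast <;> linarith only [hx, hx', hT, hT', hl, h1, hh, hh']))
    (fun h1 => use4 r2e_2 (by norm_num) (by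
      refine ⟨⟨?_, ?_⟩, ⟨?_, ?_⟩, ⟨?_, ?_⟩, ⟨?_, ?_⟩⟩ <;>
        push_cast <;> linarith only [hx, hx', hT, hT', hl, h1, hh, hh']))
    (fun h1 h2 => use4 r2e_3 (by norm_num) (by
      refine ⟨⟨?_, ?_⟩, ⟨?_, ?_⟩, ⟨?_, ?_⟩, ⟨?_, ?_⟩⟩ <;>
        push_cast <;> linarith only [hx, hx', hT, hT', h1, h2, hh, hh']))
    (fun h1 => use4 r2e_4 (by norm_num) (by
      refine ⟨⟨?_, ?_⟩, ⟨?_, ?_⟩, ⟨?_, ?_⟩, ⟨?_, ?_⟩⟩ <;>
        push_cast <;> linarith only [hx, hx', hT, hT', h1, hl', hh, hh']))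
  rw [eh30_val, eg2e_val] at this
  have e : (q 18 100).val [x, T, l, h] = 18 / 100 := by norm_num [E.val]
  rw [e] at this
  exact this

theorem l2eL (hx : 1 / 2 ≤ x) (hx' : x ≤ 6 / 10) (hT : -(98 / 1000) ≤ T) (hT' : T ≤ -(76 / 1000))
    (hl : 5 / 100 ≤ l) (hl' : l ≤ 300 / 1000) (ht : -(123 / 1000) ≤ t) (ht' : t ≤ -(64 / 1000)) (hw : 0 ≤ w)
    (hw' : w ≤ 39 / 100) (hS : -(1145 / 10000) ≤ S) (hS' : S ≤ 57 / 1000) :
    0 < dvL (18 / 100) T (46 / 100) x (h30 x T) l t w S + g2e x T + uu (l - x) (t - h30 x T) := by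
  have := left_row (c := q 18 100) (hc := vT) (l' := q 46 100) (hx := eh30) (g := eg2e) (es := [])
    (x := x) (T := T) (l := l) (t := t) (w := w) (S := S) all_nil
    (use6 l2eL_1 (by norm_num) (by
      refine ⟨⟨?_, ?_⟩, ⟨?_, ?_⟩, ⟨?_, ?_⟩, ⟨?_, ?_⟩, ⟨?_, ?_⟩, ⟨?_, ?_⟩⟩ <;>
        push_cast <;> linarith only [hx, hx', hT, hT', hl, hl', ht, ht', hw, hw', hS, hS']))
    (use6 l2eL_2 (by norm_num) (by
      refine ⟨⟨?_, ?_⟩, ⟨?_, ?_⟩, ⟨?_, ?_⟩, ⟨?_, ?_⟩, ⟨?_, ?_⟩, ⟨?_, ?_⟩⟩ <;>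
        push_cast <;> linarith only [hx, hx', hT, hT', hl, hl', ht, ht', hw, hw', hS, hS']))
  rw [eh30_val, eg2e_val] at this
  have e : (q 18 100).val [x, T, l, t, w, S] = 18 / 100 := by norm_num [E.val]
  have e' : (q 46 100).val [x, T, l, t, w, S] = 46 / 100 := by norm_num [E.val]
  rw [e, e'] at this
  exact this

theorem l2eP (hx : 1 / 2 ≤ x) (hx' : x ≤ 6 / 10) (hT : -(98 / 1000) ≤ T) (hT' : T ≤ -(76 / 1000))
    (hl : 0 ≤ l) (hl' : l ≤ 5 / 100) (ht : -(123 / 1000) ≤ t) (ht' : t ≤ -(64 / 1000)) (hw : 0 ≤ w)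
    (hw' : w ≤ 39 / 100) (hS : -(1145 / 10000) ≤ S) (hS' : S ≤ 57 / 1000)
    (hs : w ≤ 6 / 100 → |S| ≤ 78 / 100 * w) :
    0 < dvG (18 / 100) T (46 / 100) t x (h30 x T) l (20 * (t * l)) w S + g2e x T +
      (uu l (20 * (t * l)) - uu (l + w) (20 * (t * l) + S) +
        uu (l - x) (20 * (t * l) - h30 x T)) := by
  have := ramp_row (c := q 18 100) (hc := vT) (l' := q 46 100) (hx := eh30) (g := eg2e) (es := [])
    (x := x) (T := T) (l := l) (t := t) (w := w) (S := S) all_nil hl hl' hw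
    (by rw [abs_le]; constructor <;> linarith only [ht, ht']) hs
    (fun h1 => use6 l2eP_1 (by norm_num) (by
      refine ⟨⟨?_, ?_⟩, ⟨?_, ?_⟩, ⟨?_, ?_⟩, ⟨?_, ?_⟩, ⟨?_, ?_⟩, ⟨?_, ?_⟩⟩ <;>
        push_cast <;> linarith only [hx, hx', hT, hT', hl, hl', ht, ht', hw, h1, hS, hS']))
    (fun h1 => use6 l2eP_2 (by norm_num) (by
      refine ⟨⟨?_, ?_⟩, ⟨?_, ?_⟩, ⟨?_, ?_⟩, ⟨?_, ?_⟩, ⟨?_, ?_⟩, ⟨?_, ?_⟩⟩ <;>
        push_cast <;> linarith only [hx, hx', hT, hT', hl, hl', ht, ht', hw, h1, hS, hS']))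
    (fun h1 => use6 l2eP_3 (by norm_num) (by
      refine ⟨⟨?_, ?_⟩, ⟨?_, ?_⟩, ⟨?_, ?_⟩, ⟨?_, ?_⟩, ⟨?_, ?_⟩, ⟨?_, ?_⟩⟩ <;>
        push_cast <;> linarith only [hx, hx', hT, hT', hl, hl', ht, ht', h1, hw', hS, hS']))
    (fun h1 => use6 l2eP_4 (by norm_num) (by
      refine ⟨⟨?_, ?_⟩, ⟨?_, ?_⟩, ⟨?_, ?_⟩, ⟨?_, ?_⟩, ⟨?_, ?_⟩, ⟨?_, ?_⟩⟩ <;>
        push_cast <;> linarith only [hx, hx', hT, hT', hl, hl', ht, ht', h1, hw', hS, hS']))
  rw [eh30_val, eg2e_val] at this
  have e : (q 18 100).val [x, T, l, t, w, S] = 18 / 100 := by norm_num [E.val]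
  have e' : (q 46 100).val [x, T, l, t, w, S] = 46 / 100 := by norm_num [E.val]
  rw [e, e'] at this
  exact this

end V2A

end Pool.Agent.Work.MP_b30479_gt.G2
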