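import Pool.Agent.Work.MP_b30479_gt.G2.S0RKE
import Pool.Agent.Work.MP_b30479_gt.G2.S0RKR
import Pool.Agent.Work.MP_b30479_gt.G2.S0RKV
import Pool.Agent.Work.MP_b30479_gt.G2.S0RHA
import Pool.Agent.Work.MP_b30479_gt.G2.V2C

/-!
# `ring | 3` at slot `0`, the exceptional case: real level

`-7/10000 ≤ T ≤ 0`, the right neighbour is a digit `1`, no floors: the side of the `3` is
`< -9/1000` on `[.50, .60]` if `v.re ≥ x - .13`, and the joint move of the hinge to `28/100` and of
the inner variable to `42/100` gains `28/10000` on `[.38, .60]` if `v.re ≤ x - .13`.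
-/

namespace Pool.Agent.Work.MP_b30479_gt.G2

open VOL NumU

namespace S0R

/-- windows of the exceptional case -/
structure KEx (t : ℝ) (w : ℂ) : Prop where
  t0 : -(1057 / 10000) ≤ t
  t1 : t ≤ -(15 / 1000)
  w0 : 0 ≤ w.re
  w1 : w.re ≤ 39 / 100
  i0 : -(1145 / 10000) ≤ w.im
  i1 : w.im ≤ -(48 / 1000) * w.re
  i2 : -(1145 / 1500) * w.re ≤ w.im

theorem KEx.i {t : ℝ} {w : ℂ} (h : KEx t w) : w.im ≤ 0 := by
  have := h.i1
  have := h.w0
  linarith

/-- the joint move -/
theorem x_low {T t : ℝ} {u v w : ℂ} (hx : 38 / 100 ≤ u.re) (hx' : u.re ≤ 60 / 100)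
    (hu : u.im = 10 / 3 * T * (6 / 10 - u.re)) (hT : -(7 / 10000) ≤ T) (hT' : T ≤ 0)
    (hK : KEx t w) (hrh : RH v t (8 / 10) (5 / 100) (5 / 100)) (hl : v.re ≤ u.re - 13 / 100)
    {u' v' : ℂ} (hu1 : u'.re = 28 / 100) (hu2 : u'.im = T) (hv1 : v'.re = 42 / 100)
    (hv2 : v'.im = t) : 28 / 10000 < V3 u' v' w - V3 u v w := by
  obtain ⟨t0, t1, w0, w1, i0, i1, i2⟩ := hK
  have hw := (KEx.mk t0 t1 w0 w1 i0 i1 i2).i
  have hr0 := hrh.re0
  have ha : -(6 / 10000) ≤ u.im := by
    rw [hu]
    nlinarith only [hT, hx, hT']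
  have ha' : u.im ≤ 0 := by
    rw [hu]
    nlinarith only [hx', hT']
  have hv1' : v'.re = 4200 / 10000 := by rw [hv1]; norm_num
  rcases le_total (5 / 100) v.re with h | h
  · have hv := V2A.mid_flat hrh h (by linarith only [hx', hl])
    rw [J_core (w := w) hu1 hu2 rfl hv hv1' hv2 (by linarith only [t1, ha])]
    rcases le_total w.re (13 / 100) with g | g
    · exact kj1 (le_trans (by norm_num) hx) (le_trans hx' (by norm_num)) ha (le_trans ha' (by norm_num)) hT (le_trans hT' (by norm_num)) (le_trans (by norm_num) w0) (le_trans g (by norm_num)) i0 (le_trans hw (by norm_num)) (le_trans (by norm_num) h) (by linarith only [hx', hl]) t0 (le_trans t1 (by norm_num)) (by linarith only [hl]) i2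
    rcases le_total w.re (26 / 100) with g' | g'
    · exact kj2 (le_trans (by norm_num) hx) (le_trans hx' (by norm_num)) ha (le_trans ha' (by norm_num)) hT (le_trans hT' (by norm_num)) (le_trans (by norm_num) g) (le_trans g' (by norm_num)) i0 (le_trans hw (by norm_num)) (le_trans (by norm_num) h) (by linarith only [hx', hl]) t0 (le_trans t1 (by norm_num)) (by linarith only [hl]) i2
    · exact kj3 (le_trans (by norm_num) hx) (le_trans hx' (by norm_num)) ha (le_trans ha' (by norm_num)) hT (le_trans hT' (by norm_num)) (le_trans (by norm_num) g') (le_trans w1 (by norm_num)) i0 (le_trans hw (by norm_num)) (le_trans (by norm_num) h) (by linarith only [hx', hl]) t0 (le_trans t1 (by norm_num)) (by linarith only [hl]) i2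
  · have hv := V2A.mid_left hrh h
    have htr : t * v.re ≤ 0 := mul_nonpos_of_nonpos_of_nonneg (le_trans t1 (by norm_num)) hr0
    have htr' : -(1057 / 10000) * (1 / 20) ≤ t * v.re := by nlinarith only [h, t0, hr0]
    have hK := fun {P V : ℝ} => K_core (P := P) (V := V) (u := u) (w := w) hu1 hu2 rfl hv hv1' hv2
      (by linarith only [ha, htr])
    have hab : |20 * (t * v.re)| ≤ 13 / 100 := by
      rw [abs_le]
      constructor <;> linarith only [htr', htr]
    have hV := UA.anti UA.kc_7_13 (by norm_num) (a := v.re) (b := 1 / 20) (y := 20 * (t * v.re))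
      (le_trans (by norm_num) hr0) (le_trans h (by norm_num)) (by norm_num) hab
    rcases le_total w.re (2 / 100) with g | g
    · rcases le_total v.re (2 / 100) with g' | g'
      · have htr2 : -(1057 / 10000) * (2 / 100) ≤ t * v.re := by nlinarith only [g', t0, hr0]
        have hV2 := UA.anti UA.kc_7_13 (by norm_num) (a := v.re) (b := 1 / 50)
          (y := 20 * (t * v.re)) (le_trans (by norm_num) hr0) (le_trans g' (by norm_num)) (by norm_num) hab
        have hP : uu (v.re + w.re) (20 * (t * v.re) + w.im) ≤
            -Real.pi * (1 / 2) * -(20 * (t * v.re) + w.im) := by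
          have := UA.anti UA.kc_7_13 (by norm_num) (a := 0) (b := v.re + w.re)
            (y := 20 * (t * v.re) + w.im) (by norm_num) (by linarith only [w0, hr0]) (by linarith only [g, g']) (by
              rw [abs_le]
              constructor <;> linarith only [i2, htr', g, w0, i1, htr])
          rw [UA.uu_zero, abs_of_nonpos (by linarith only [w0, i1, htr])] at this
          linarith only [this]
        have h1 := hK hP hV2
        have h2 := kk0 (x := u.re) (a := u.im) (T := T) (w := w.re) (b := w.im) (r := v.re)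
          (t := t) (le_trans (by norm_num) hx) (le_trans hx' (by norm_num)) ha (le_trans ha' (by norm_num)) hT (le_trans hT' (by norm_num)) (le_trans (by norm_num) w0) (le_trans g (by norm_num)) (by linarith only [i2, g]) (le_trans hw (by norm_num)) (le_trans (by norm_num) hr0) (le_trans g' (by norm_num)) t0 (le_trans t1 (by norm_num)) i2
        linarith only [h1, h2]
      · have h1 := hK le_rfl hV
        have h2 := kk1 (x := u.re) (a := u.im) (T := T) (w := w.re) (b := w.im) (r := v.re)
          (t := t) (le_trans (by norm_num) hx) (le_trans hx' (by norm_num)) ha (le_trans ha' (by norm_num)) hT (le_trans hT' (by norm_num)) (le_trans (by norm_num) w0) (le_trans g (by norm_num)) i0 (le_trans hw (by norm_num)) (le_trans (by norm_num) g') (le_trans h (by norm_num)) t0 (le_trans t1 (by norm_num)) i2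
        linarith only [h1, h2]
    · have h1 := hK le_rfl hV
      rcases le_total w.re (20 / 100) with g' | g'
      · have h2 := kk2 (x := u.re) (a := u.im) (T := T) (w := w.re) (b := w.im) (r := v.re)
          (t := t) (le_trans (by norm_num) hx) (le_trans hx' (by norm_num)) ha (le_trans ha' (by norm_num)) hT (le_trans hT' (by norm_num)) (le_trans (by norm_num) g) (le_trans g' (by norm_num)) i0 (le_trans hw (by norm_num)) (le_trans (by norm_num) hr0) (le_trans h (by norm_num)) t0 (le_trans t1 (by norm_num)) i2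
        linarith only [h1, h2]
      · have h2 := kk3 (x := u.re) (a := u.im) (T := T) (w := w.re) (b := w.im) (r := v.re)
          (t := t) (le_trans (by norm_num) hx) (le_trans hx' (by norm_num)) ha (le_trans ha' (by norm_num)) hT (le_trans hT' (by norm_num)) (le_trans (by norm_num) g') (le_trans w1 (by norm_num)) i0 (le_trans hw (by norm_num)) (le_trans (by norm_num) hr0) (le_trans h (by norm_num)) t0 (le_trans t1 (by norm_num)) i2
        linarith only [h1, h2]

/-- the inner variable is not on its right ramp -/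
theorem x_ramp {s t : ℝ} {u v w : ℂ} (hx : 1 / 2 ≤ u.re) (hx' : u.re ≤ 60 / 100)
    (ha : -(10 / 10000) ≤ u.im) (ha' : u.im ≤ 0) (hK : KEx t w) (hv : v.re = 8 / 10 - s)
    (hv' : v.im = 20 * (t * s)) (hs : 0 ≤ s) (hs' : s ≤ 5 / 100)
    (hS : 0 ≤ SM (-20 * t) u v w) (hr : SinNe (v + w)) : False := by
  have hpi := Real.pi_pos
  have hw := hK.i
  obtain ⟨t0, t1, w0, w1, i0, i1, i2⟩ := hK
  have hre : (v + w).re = 8 / 10 - s + w.re := by rw [Complex.add_re, hv]
  have him : (v + w).im = 20 * (t * s) + w.im := by rw [Complex.add_im, hv']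
  have core : ∀ {q Y : ℝ}, LL (v + w) ≤ NumI.lnA q (20 * (t * s) + w.im) →
      -20 * t * YY (v + w) ≤ -20 * t * Y → rG q Y u.re u.im w.re w.im s t < 0 → False := by
    intro q Y h1 h2 h3
    refine absurd hS (not_le.2 (ramp_core hv hv' (by linarith only [hx', hv, hs']) (by linarith only [hx, hv, hs]) (by linarith only [hv, hs'])
      (by linarith only [hv, hs]) ?_ h2 h3))
    rw [hv']
    exact h1
  have hts : t * s ≤ 0 := mul_nonpos_of_nonpos_of_nonneg (le_trans t1 (by norm_num)) hs
  rcases le_total (8 / 10 - s + w.re) (93 / 100) with h | h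
  · have hst : v + w ∈ strip := ⟨by rw [hre]; linarith only [hs', w0], by rw [hre]; linarith only [h]⟩
    have e1 : LL (v + w) ≤ NumI.lnA (8 / 10 - s + w.re) (20 * (t * s) + w.im) := by
      rw [Num.LL_lnA hst, hre, him]
    have e2 : YY (v + w) = -NumI.lnB (8 / 10 - s + w.re) (20 * (t * s) + w.im) := by
      rw [Num.YY_lnB hst, hre, him]
    exact core e1 (by rw [e2]) (kr1 (le_trans (by norm_num) hx) (le_trans hx' (by norm_num)) ha (le_trans ha' (by norm_num)) (le_trans (by norm_num) w0) (by linarith only [hs', h]) i0 (le_trans hw (by norm_num)) (le_trans (by norm_num) hs) (le_trans hs' (by norm_num)) t0 (le_trans t1 (by norm_num)) (le_trans h (by norm_num)))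
  have hy : 20 * (t * s) + w.im < 0 := by nlinarith only [hs, i1, hts, h]
  rcases le_total (8 / 10 - s + w.re) (107 / 100) with h' | h'
  · have hf : LL (v + w) ≤ NumI.lnA (9300 / 10000) (20 * (t * s) + w.im) := by
      rw [← him]
      exact LL_far (by norm_num) (by norm_num) (by rw [hre]; linarith only [h]) (by rw [hre]; linarith only [h']) hr
    refine core hf (mul_le_of_nonpos (le_trans t1 (by norm_num)) ?_) (kr2 (le_trans (by norm_num) hx) (le_trans hx' (by norm_num)) ha (le_trans ha' (by norm_num)) (by linarith only [hs, h]) (by linarith only [hs', h']) i0 (le_trans hw (by norm_num)) (le_trans (by norm_num) hs) (le_trans hs' (by norm_num)) t0 (le_trans t1 (by norm_num)) (le_trans (by norm_num) h) (le_trans h' (by norm_num)))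
    rw [← him]
    exact YY_le_neg (by rw [him]; exact hy) (by norm_num) (by norm_num) (by rw [hre]; linarith only [h])
  · obtain ⟨e1, e2⟩ := behind (z := v + w) (by rw [hre]; linarith only [h']) (by rw [hre]; linarith only [hs, w1])
    have e3 := e2 (by rw [him]; exact hy)
    rw [hre, him] at e1 e3
    exact core e1.le (by rw [e3]) (kr3 (le_trans (by norm_num) hx) (le_trans hx' (by norm_num)) ha (le_trans ha' (by norm_num)) (by linarith only [hs, h']) (le_trans w1 (by norm_num)) i0 (le_trans hw (by norm_num)) (le_trans (by norm_num) hs) (le_trans hs' (by norm_num)) t0 (le_trans t1 (by norm_num)) (le_trans (by norm_num) h'))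

/-- the side of the `3` -/
theorem x_side {T t : ℝ} {u v w : ℂ} (hx : 1 / 2 ≤ u.re) (hx' : u.re ≤ 60 / 100)
    (hu : u.im = 10 / 3 * T * (6 / 10 - u.re)) (hT : -(7 / 10000) ≤ T) (hT' : T ≤ 0)
    (hs : T - t ≤ 105 / 1000) (hK : KEx t w) (hv : v.im = t) (hp : u.re - 13 / 100 ≤ v.re)
    (hv' : v.re ≤ 75 / 100) (hS : 0 ≤ SM 0 u v w) (hr : SinNe (v + w)) (hr' : SinNe (v - u)) :
    S3 1 (-(10 / 3 * T)) u v < -(9 / 1000) := by
  have hw := hK.i
  obtain ⟨t0, t1, w0, w1, i0, i1, i2⟩ := hK
  rcases le_total (v.re - u.re) (1 / 10) with h | h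
  · refine near_le (κ := Real.pi + NumI.lnB (1300 / 10000) (t - rui (10 / 3) u.re T))
      (by norm_num) hT' hu (abs_le.2 ⟨by linarith only [hp], by linarith only [h]⟩) (by norm_num)
      (lt_of_lt_of_le (by norm_num) hx) (lt_of_le_of_lt hx' (by norm_num)) hv hr' ?_ (by linarith only [hp]) (nx9 (le_trans (by norm_num) hx) (le_trans hx' (by norm_num)) hT (le_trans hT' (by norm_num)) t0 (le_trans t1 (by norm_num)))
    have := YY_le_lnB (u := v - u) (q := 1300 / 10000) (abs_le.2 ⟨by rw [Complex.sub_re]; linarith only [hp],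
      by rw [Complex.sub_re]; linarith only [h]⟩) (by norm_num) (by norm_num)
    rwa [Complex.sub_im, hv, hu] at this
  · have hrow : rS (10 / 3) u.re T (v.re - u.re) t < -(9 / 1000) ∨
        rF0 (10 / 3) u.re T (v.re - u.re) t < -(9 / 1000) := by
      rcases le_total (v.re - u.re) (18 / 100) with g | g
      · exact fx9a (le_trans (by norm_num) hx) (le_trans hx' (by norm_num)) hT (le_trans hT' (by norm_num)) (le_trans (by norm_num) h) (le_trans g (by norm_num)) t0 (le_trans t1 (by norm_num)) (by linarith only [hv']) hs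
      · exact fx9b (le_trans (by norm_num) hx) (le_trans hx' (by norm_num)) hT (le_trans hT' (by norm_num)) (le_trans (by norm_num) g) (by linarith only [hx, hv']) t0 (le_trans t1 (by norm_num)) (by linarith only [hv']) hs
    have e : u.re + (v.re - u.re) = v.re := by ring
    rcases hrow with g | g
    · rw [S3_eq (lt_of_lt_of_le (by norm_num) h) (by linarith only [hx, hv']) (lt_of_lt_of_le (by norm_num) hx) (lt_of_le_of_lt hx' (by norm_num))]
      unfold rS rM rui at g
      rw [hu, hv]
      rw [e] at g
      linarith only [g]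
    · have hH : Real.pi * w.im + LL (v + w) ≤ Real.pi * 0 + NumI.lnA v.re (v.im + 0) :=
        H_le (by linarith only [hx, h]) (le_trans hv' (by norm_num)) (by linarith only [w0]) (by linarith only [hv', w1]) hw (by rw [hv]; linarith only [hT, hs, i0]) hr
      have h4 := S3_far (m := -(10 / 3 * T)) (lt_of_lt_of_le (by norm_num) h) (by linarith only [hx, hv']) (lt_of_lt_of_le (by norm_num) hx)
        (lt_of_le_of_lt hx' (by norm_num)) hS hH
      unfold rF0 rM rui at g
      rw [add_zero] at h4
      rw [hu, hv] at h4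
      rw [e] at g
      linarith only [g, h4]

end S0R

end Pool.Agent.Work.MP_b30479_gt.G2
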