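import Pool.Agent.Work.MP_b30479_gt.G2.S0RB
import Pool.Agent.Work.MP_b30479_gt.G2.WVal

/-!
# The own side of an interior `3` at slot `0`, right ramp: the inner variable on its ramps and value
moves of the inner variable

Real forms and expressions.
-/

set_option linter.unusedSimpArgs false

namespace Pool.Agent.Work.MP_b30479_gt.G2

open VOL NumU

namespace S0R

/-! ### the right ramp of the inner variable

`u = x + a i`, `w = w + b i`, `v = 8/10 - s + 20 t s i` -/

noncomputable def rSA (x a s t : ℝ) : ℝ :=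
  -(Real.pi * (a + 20 * (t * s))) - NumI.lnA (8 / 10 - s - x) (20 * (t * s) - a) -
    NumI.lnA (8 / 10 - s) (20 * (t * s))

noncomputable def rSB (x a s t : ℝ) : ℝ :=
  NumI.lnB (8 / 10 - s - x) (20 * (t * s) - a) + NumI.lnB (8 / 10 - s) (20 * (t * s)) +
    Real.pi * (1 / 2 - (x + (8 / 10 - s)))

/-- upper bound of `SM (-20 t)`; `q` the point of `LL (v + w)`, `Y` the bound of `YY (v + w)` -/
noncomputable def rG (q Y x a w b s t : ℝ) : ℝ :=
  rSA x a s t + Real.pi * b + NumI.lnA q (20 * (t * s) + b) +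
    -20 * t * (rSB x a s t + (Real.pi * w + Y))

/-- value of the region up to a constant, `v = p + h i`; `P` the value of `UU (v + w)` -/
noncomputable def rV (P x a w b p h : ℝ) : ℝ :=
  P - uu (p - x) (h - a) - uu p h - Real.pi / 2 *
    (2 * (x * h + a * p) + 2 * ((p - w) * (h - b)) - h + b)

theorem V3_rV (u v w : ℂ) : V3 u v w =
    rV (uu (v.re + w.re) (v.im + w.im)) u.re u.im w.re w.im v.re v.im - UU u - 2 * UU w := by
  have e1 : (2 * u * v + (v - w) ^ 2 - v + w).im =
      2 * (u.re * v.im + u.im * v.re) + 2 * ((v.re - w.re) * (v.im - w.im)) - v.im + w.im := by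
    simp only [pow_two, Complex.add_im, Complex.sub_im, Complex.sub_re, Complex.mul_im,
      Complex.mul_re, Complex.re_ofNat, Complex.im_ofNat]
    ring
  unfold V3 rV
  rw [e1, UU_uu (v + w), UU_uu (v - u), UU_uu v]
  simp only [Complex.add_re, Complex.add_im, Complex.sub_re, Complex.sub_im]
  ring

namespace ER
open NumU.E

def x : E := var 0
def a : E := var 1
def w : E := var 2
def b : E := var 3
def s : E := var 4
def t : E := var 5
def rr : E := sub (q 8 10) s
def hh : E := mul (q 20 1) (mul t s)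
def mm : E := mul (q (-20) 1) t
def pp : E := add rr w
def SA : E :=
  sub (sub (neg (mul pi (add a hh))) (E.lnA (sub rr x) (sub hh a))) (E.lnA rr hh)
def SB : E :=
  add (add (E.lnB (sub rr x) (sub hh a)) (E.lnB rr hh)) (mul pi (sub (q 1 2) (add x rr)))
def G (q' Y : E) : E :=
  add (add (add SA (mul pi b)) (E.lnA q' (add hh b))) (mul mm (add SB (add (mul pi w) Y)))

/-- value, `v = p + h i` -/
def V (P x a w b p h : E) : E :=
  sub (sub (sub P (E.uu (sub p x) (sub h a))) (E.uu p h)) (mul (mul pi (q 1 2))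
    (add (sub (add (mul (q 2 1) (add (mul x h) (mul a p))) (mul (q 2 1) (mul (sub p w) (sub h b))))
      h) b))

theorem V_val (P x a w b p h : E) (l : List ℝ) : (V P x a w b p h).val l =
    rV (P.val l) (x.val l) (a.val l) (w.val l) (b.val l) (p.val l) (h.val l) := by
  unfold rV
  simp only [V, E.val]
  push_cast
  ring

theorem G_val (q' Y : E) {x a w b s t : ℝ} : (G q' Y).val [x, a, w, b, s, t] =
    rG (q'.val [x, a, w, b, s, t]) (Y.val [x, a, w, b, s, t]) x a w b s t := by
  unfold rG rSA rSB
  simp only [G, SA, SB, mm, rr, hh, ER.x, ER.a, ER.w, ER.b, ER.s, ER.t, E.val, NumI.lkR]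
  push_cast
  simp only [div_one]

end ER

/-- the first order condition on the right ramp of the inner variable -/
theorem ramp_core {q Y s t : ℝ} {u v w : ℂ} (hv : v.re = 8 / 10 - s) (hv' : v.im = 20 * (t * s))
    (h0 : 0 < v.re - u.re) (h1 : v.re - u.re < 1) (h2 : 0 < v.re) (h3 : v.re < 1)
    (hL : LL (v + w) ≤ NumI.lnA q (v.im + w.im)) (hY : -20 * t * YY (v + w) ≤ -20 * t * Y)
    (hrow : rG q Y u.re u.im w.re w.im s t < 0) : SM (-20 * t) u v w < 0 := by
  have h : v - u ∈ strip := ⟨by rw [Complex.sub_re]; exact h0, by rw [Complex.sub_re]; exact h1⟩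
  have h' : v ∈ strip := ⟨h2, h3⟩
  unfold SM
  rw [Num.LL_lnA h, Num.YY_lnB h, Num.LL_lnA h', Num.YY_lnB h', Complex.sub_re, Complex.sub_im]
  unfold rG rSA rSB at hrow
  rw [hv, hv'] at *
  nlinarith

/-- `LL (v + w)` at most the value at a smaller real part -/
theorem LL_far {z : ℂ} {p : ℝ} (hp : 1 / 2 ≤ p) (hp' : p ≤ 1) (h0 : p ≤ z.re) (h1 : z.re ≤ 2 - p)
    (hr : SinNe z) : LL z ≤ NumI.lnA p z.im := by
  have e1 : LL ⟨p, z.im⟩ = NumI.lnA p z.im := LL_lnA' _
  rw [← e1, LL_eq', LL_eq']
  have a1 : 0 < 2 * Real.cosh (2 * Real.pi * z.im) - 2 * Real.cos (2 * Real.pi * z.re) := by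
    have h2 : 0 < NumI.MM z.re z.im := by
      have h0 : 0 ≤ NumI.MM z.re z.im := by
        unfold NumI.MM
        positivity
      rcases h0.lt_or_eq with h1 | h1
      · exact h1
      · exfalso
        unfold NumI.MM at h1
        have h2 : Real.sin (Real.pi * z.re) = 0 := by
          nlinarith [sq_nonneg (Real.sin (Real.pi * z.re)),
            sq_nonneg (Real.sinh (Real.pi * z.im))]
        have h3 : Real.sinh (Real.pi * z.im) = 0 := by
          nlinarith [sq_nonneg (Real.sin (Real.pi * z.re)),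
            sq_nonneg (Real.sinh (Real.pi * z.im))]
        apply hr
        rw [Complex.sin_eq]
        have e1 : ((Real.pi : ℂ) * z).re = Real.pi * z.re := by simp
        have e2 : ((Real.pi : ℂ) * z).im = Real.pi * z.im := by simp
        rw [e1, e2, ← Complex.ofReal_sin, ← Complex.ofReal_sinh, h2, h3]
        simp
    have h3 := Num.den_eq z
    linarith
  have hcos := cos_le hp hp' h0 h1
  apply div_le_div_of_nonneg_right _ (by norm_num)
  apply Real.log_le_log a1
  simp only
  linarith

end S0R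

end Pool.Agent.Work.MP_b30479_gt.G2
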