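import Pool.Agent.Work.MP_b30479_gt.G2.S0RC
import Pool.Agent.Work.MP_b30479_gt.G2.S0RQ
import Pool.Agent.Work.MP_b30479_gt.G2.UAnti

/-!
# The own side of an interior `3` at slot `0`, right ramp: value moves of a low inner variable

Real forms and expressions. `u = x + a i`, `w = w + b i`, `v = r + t i` (flat) or
`v = r + 20 t r i` (left ramp, `r ≤ 1/20`); `v` is moved to `c + t i`.
-/

set_option linter.unusedSimpArgs false

namespace Pool.Agent.Work.MP_b30479_gt.G2

open VOL NumU

namespace S0R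

noncomputable def rD (c σ x a w b r t : ℝ) : ℝ :=
  uu (c + w) (t + b) - uu (r + w) (t + b) + (uu (1 + r - x) (t - a) + σ * Real.pi * (t - a)) -
    uu (c - x) (t - a) - (uu c t - uu r t) + -(Real.pi * (c - r) * (t + a - b))

noncomputable def rE (c σ x a w b r t : ℝ) : ℝ :=
  uu (c + w) (t + b) - uu (r + w) (20 * (t * r) + b) +
    (uu (1 + r - x) (20 * (t * r) - a) + σ * Real.pi * (20 * (t * r) - a)) -
    uu (c - x) (t - a) - (uu c t - uu (1 / 20) (20 * (t * r))) +
    -(Real.pi * (1 / 2) * (2 * (x * t + a * c) + 2 * ((c - w) * (t - b)) - t + b -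
      (2 * (x * (20 * (t * r)) + a * r) + 2 * ((r - w) * (20 * (t * r) - b)) -
        20 * (t * r) + b)))

namespace EV
open NumU.E

def x : E := var 0
def T : E := var 1
def w : E := var 2
def b : E := var 3
def r : E := var 4
def t : E := var 5
def a (k : ℤ) (l : ℕ) : E := EE.ui k l
def D (k : ℤ) (l : ℕ) (c : E) (σ : ℤ) : E :=
  add (sub (sub (add (sub (E.uu (add c w) (add t b)) (E.uu (add r w) (add t b)))
    (add (E.uu (sub (add (q 1 1) r) x) (sub t (a k l))) (mul (mul (q σ 1) pi) (sub t (a k l)))))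
    (E.uu (sub c x) (sub t (a k l)))) (sub (E.uu c t) (E.uu r t)))
    (neg (mul (mul pi (sub c r)) (sub (add t (a k l)) b)))
def h : E := mul (q 20 1) (mul t r)
def R (k : ℤ) (l : ℕ) (c : E) (σ : ℤ) : E :=
  add (sub (sub (add (sub (E.uu (add c w) (add t b)) (E.uu (add r w) (add h b)))
    (add (E.uu (sub (add (q 1 1) r) x) (sub h (a k l))) (mul (mul (q σ 1) pi) (sub h (a k l)))))
    (E.uu (sub c x) (sub t (a k l)))) (sub (E.uu c t) (E.uu (q 1 20) h)))
    (neg (mul (mul pi (q 1 2)) (sub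
      (add (sub (add (mul (q 2 1) (add (mul x t) (mul (a k l) c)))
        (mul (q 2 1) (mul (sub c w) (sub t b)))) t) b)
      (add (sub (add (mul (q 2 1) (add (mul x h) (mul (a k l) r)))
        (mul (q 2 1) (mul (sub r w) (sub h b)))) h) b))))

theorem D_val (k : ℤ) (l : ℕ) (c : E) (σ : ℤ) {x T w b r t : ℝ} :
    (D k l c σ).val [x, T, w, b, r, t] = rD (c.val [x, T, w, b, r, t]) σ x
      (rui ((k : ℝ) / l) x T) w b r t := by
  unfold rD
  simp only [D, EV.x, EV.a, EV.w, EV.b, EV.r, EV.t, EE.ui_val, E.val, NumI.lkR]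
  push_cast
  simp only [div_one]

theorem R_val (k : ℤ) (l : ℕ) (c : E) (σ : ℤ) {x T w b r t : ℝ} :
    (R k l c σ).val [x, T, w, b, r, t] = rE (c.val [x, T, w, b, r, t]) σ x
      (rui ((k : ℝ) / l) x T) w b r t := by
  unfold rE
  simp only [R, EV.x, EV.a, EV.w, EV.b, EV.r, EV.t, EV.h, EE.ui_val, E.val, NumI.lkR]
  push_cast
  simp only [div_one]

theorem h_val {x T w b r t : ℝ} : h.val [x, T, w, b, r, t] = 20 * (t * r) := by
  simp only [h, EV.r, EV.t, E.val, NumI.lkR]
  push_cast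
  simp only [div_one]

end EV

/-- the move from the flat part -/
theorem D_core {c σ r t : ℝ} {u v v' w : ℂ} (hv : v.re = r) (hv' : v.im = t) (hc : v'.re = c)
    (hc' : v'.im = t) (hσ : |t - u.im| = -(σ * (t - u.im))) :
    V3 u v' w - V3 u v w = rD c σ u.re u.im w.re w.im r t := by
  have e := uu_add_one (r - u.re) (t - u.im)
  rw [hσ] at e
  rw [V3_rV, V3_rV, hv, hv', hc, hc']
  unfold rV rD
  rw [show 1 + r - u.re = r - u.re + 1 by ring]
  linarith only [e]

/-- the move from the left ramp -/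
theorem R_core {c σ r t : ℝ} {u v v' w : ℂ} (hr : 0 ≤ r) (hr' : r ≤ 5 / 100) (hv : v.re = r)
    (hv' : v.im = 20 * (t * r)) (hc : v'.re = c) (hc' : v'.im = t)
    (hσ : |20 * (t * r) - u.im| = -(σ * (20 * (t * r) - u.im))) (ht : |t| ≤ 13 / 100) :
    rE c σ u.re u.im w.re w.im r t ≤ V3 u v' w - V3 u v w := by
  have e := uu_add_one (r - u.re) (20 * (t * r) - u.im)
  rw [hσ] at e
  have h1 : |20 * (t * r)| ≤ 13 / 100 := by
    rw [show 20 * (t * r) = (20 * r) * t by ring, abs_mul, abs_of_nonneg (by linarith only [hr])]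
    nlinarith only [hr', hr, ht, abs_nonneg t]
  have h2 := UA.anti UA.kc_7_13 (by norm_num) (a := r) (b := 1 / 20) (y := 20 * (t * r))
    (by linarith only [hr]) (by linarith only [hr']) (by norm_num) h1
  rw [V3_rV, V3_rV, hv, hv', hc, hc']
  unfold rV rE
  rw [show 1 + r - u.re = r - u.re + 1 by ring]
  linarith only [e, h2]

end S0R

end Pool.Agent.Work.MP_b30479_gt.G2
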