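import Pool.Agent.Work.MP_b30479_gt.G2.WLocG
import Pool.Agent.Work.MP_b30479_gt.G2.WMain

/-!
# Rings in a word: parameters, the ring variable
-/

namespace Pool.Agent.Work.MP_b30479_gt.G2

open Finset VOL Filter Topology

namespace SR

variable {M : ℕ} {b : Fin (M + 1) → ℤ} {zs : DD (tyW b) ⊕ ZZ (tyW b) → ℂ}
variable {y : DD (tyW b) ⊕ ZZ (tyW b) → ℝ}
variable {h h' : Fin M} {i j j' : Fin (M + 1)} {p : Fin 3}

/-- location facts of the hinges of rings -/
structure LocR (b : Fin (M + 1) → ℤ) (zs : DD (tyW b) ⊕ ZZ (tyW b) → ℂ) : Prop where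
  rr : ∀ {h : Fin M} {i j : Fin (M + 1)} {p : Fin 3}, Adj h i p j → clsW b i = .ring →
    clsW b j = .ring → ofs (b i) (zs (.inl (.inl h))).im ≤ 56 / 1000 ∧
      (5 ≤ (b i).natAbs → ofs (b i) (zs (.inl (.inl h))).im ≤ 465 / 10000)
  three : ∀ {h : Fin M} {i j : Fin (M + 1)} {p : Fin 3}, Adj h i p j → clsW b i = .three →
    clsW b j = .ring → 0 ≤ ofs (b i) (zs (.inl (.inl h))).im ∨ Exc3 b zs h i j p

theorem natAbs_lt {n : ℕ} {c : ℝ} {k : ℕ} (hc : c = k) (h : (n : ℝ) < c) : n < k := by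
  rw [hc] at h
  exact_mod_cast h

theorem Adj.par_rr (A : Adj h i p j) (hc : clsW b i = .ring) (hj : clsW b j = .ring) :
    wXM b h = 1 / 2 ∧ wcl b h = 1 / 10 ∧ wcr b h = 2 / 100 := by
  rw [A.XM_eq b, A.cl_eq b, A.cr_eq b, hc, hj]
  unfold hpp
  split_ifs <;> simp [hp] <;> norm_num

theorem Adj.par_ring_one (A : Adj h i p j) (hc : clsW b i = .ring) (hj : clsW b j = .one) :
    wXM b h = 65 / 100 ∧ wcl b h = 16 / 100 ∧ wcr b h = 29 / 100 := by
  rw [A.XM_eq b, A.cl_eq b, A.cr_eq b, hc, hj]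
  unfold hpp
  split_ifs <;> simp [hp, hp1]

theorem Adj.par_ring_lo (A : Adj h i p j) (hc : clsW b i = .ring) (hj : clsW b j ≠ .one)
    (hj' : clsW b j ≠ .ring) :
    wXM b h = 60 / 100 ∧ (10 / 100 ≤ wcl b h ∧ wcl b h ≤ 13 / 100) ∧
      (30 / 100 ≤ wcr b h ∧ wcr b h ≤ 34 / 100) := by
  rw [A.XM_eq b, A.cl_eq b, A.cr_eq b, hc]
  unfold hpp
  generalize clsW b j = B at hj hj'
  split_ifs <;> cases B <;> first | exact absurd rfl hj | exact absurd rfl hj' | (simp [hp]; norm_num)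

/-- the caps for the imaginary part of a ring variable -/
theorem ring_cap (hb : ClassW b) (hL : Loc b zs) (v : ZZ (tyW b)) :
    RCap ((b v.1).natAbs : ℝ) (zs (.inr v)).im := by
  have h4 := ring_four hb (tyW_ring v.2)
  obtain ⟨-, -, -, h1⟩ := hL.ring v
  rw [ofz_im] at h1
  set n := (b v.1).natAbs with hn
  have key : (zbox n (isEnd v.1)).t1 ≤ (if n = 4 then 1045 / 10000 else if n = 5 then 725 / 10000
      else if n = 6 then 52 / 1000 else if n = 7 then 40 / 1000 else 23 / 10 / (n : ℝ) ^ 2) := by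
    unfold zbox
    split_ifs <;> simp only <;> (try norm_num)
    · apply div_le_div_of_nonneg_right _ (by positivity)
      norm_num
  have h2 := h1.trans key
  have h8 : 8 ≤ n → 23 / 10 / (n : ℝ) ^ 2 ≤ 36 / 1000 := by
    intro h8
    rw [div_le_iff₀ (by positivity)]
    have : (8 : ℝ) ≤ n := by exact_mod_cast h8
    nlinarith only [this]
  rcases (show n = 4 ∨ n = 5 ∨ n = 6 ∨ n = 7 ∨ 8 ≤ n by omega) with h5 | h5 | h5 | h5 | h5
  · rw [h5] at h2 ⊢
    norm_num at h2
    refine ⟨by linarith only [h2], ?_, ?_, ?_, ?_⟩ <;> intro hh <;> exfalso <;> norm_num at hh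
  · rw [h5] at h2 ⊢
    norm_num at h2
    refine ⟨by linarith only [h2], fun _ => by linarith only [h2], ?_, ?_, ?_⟩ <;> intro hh <;> exfalso <;> norm_num at hh
  · rw [h5] at h2 ⊢
    norm_num at h2
    refine ⟨by linarith only [h2], fun _ => by linarith only [h2], fun _ => by linarith only [h2], ?_, ?_⟩ <;> intro hh <;>
      exfalso <;> norm_num at hh
  · rw [h5] at h2 ⊢
    norm_num at h2
    refine ⟨by linarith only [h2], fun _ => by linarith only [h2], fun _ => by linarith only [h2], fun _ => by linarith only [h2], ?_⟩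
    intro hh
    exfalso
    norm_num at hh
  · rw [if_neg (by omega), if_neg (by omega), if_neg (by omega), if_neg (by omega)] at h2
    have h9 := h8 h5
    refine ⟨by linarith only [h2, h9], fun _ => by linarith only [h2, h9], fun _ => by linarith only [h2, h9], fun _ => by linarith only [h2, h9], fun _ => ?_⟩
    have hp : (0 : ℝ) < (n : ℝ) ^ 2 := by
      have : (0 : ℝ) < n := by exact_mod_cast (show 0 < n by omega)
      positivity
    rw [le_div_iff₀ hp] at h2
    linarith only [h2]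

/-- the ring at a hinge -/
theorem Adj.ring (A : Adj h i p j) (hb : ClassW b) (hL : Loc b zs) (hy : Mx b zs y)
    (hc : clsW b i = .ring) : ∃ v : ZZ (tyW b), v.1 = i ∧ RCap ((b i).natAbs : ℝ) (zs (.inr v)).im ∧
      RM ((b i).natAbs : ℝ) (zs (.inr v)).im (Yw b zs y i p) (Yw b zs y i p.rev)
        (ofs (b i) (y (.inr v))) ∧
      OY b zs y i 1 = LT.zt (zs (.inr v)).im (ofs (b i) (y (.inr v))) := by
  have ht := tyW_of_ring hb hc
  refine ⟨⟨i, by rw [ht]; rfl⟩, rfl, ring_cap hb hL ⟨i, by rw [ht]; rfl⟩, ?_, ?_⟩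
  · have key := ring_RM hb hL hy ⟨i, by rw [ht]; rfl⟩
    rcases A.slot with rfl | rfl
    · exact key
    · exact key.symm
  · rw [OY_ring ht]
    exact Zw_eq (⟨i, by rw [ht]; rfl⟩ : ZZ (tyW b))

end SR

end Pool.Agent.Work.MP_b30479_gt.G2
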