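import Pool.Agent.Work.MP_b30479_gt.G2.WVal

/-!
# Value steps for one hinge
-/

namespace Pool.Agent.Work.MP_b30479_gt.G2

open Finset VOL Filter Topology

namespace SR

variable {M : ℕ} {b : Fin (M + 1) → ℤ} {zs : DD (tyW b) ⊕ ZZ (tyW b) → ℂ}
variable {y : DD (tyW b) ⊕ ZZ (tyW b) → ℝ}
variable {h h' : Fin M} {i j j' : Fin (M + 1)} {p : Fin 3}

/-- the point `c` of the path of the hinge `h` in the frame of a region with sign `s` -/
noncomputable def pw (b : Fin (M + 1) → ℤ) (zs : DD (tyW b) ⊕ ZZ (tyW b) → ℂ) (s : ℤ) (h : Fin M)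
    (c : ℝ) : ℂ := ofr s ((wpar b zs).pp zs (.inl (.inl h)) c)

/-- the point is on the path -/
theorem pw_RH (s : ℤ) (h : Fin M) {c : ℝ} (h0 : 0 ≤ c) (h1 : c ≤ wXM b h) :
    RH (pw b zs s h c) (ofs s (zs (.inl (.inl h))).im) (wXM b h) (wcl b h) (wcr b h) := by
  unfold pw
  refine ⟨?_, ?_, ?_⟩
  · rw [ofr_pp_re]; exact h0
  · rw [ofr_pp_re]; exact h1
  · rw [ofr_pp_re, ofr_im, Par.pp_im]
    exact ofs_mul' _ _ _

theorem pw_re (s : ℤ) (h : Fin M) (c : ℝ) : (pw b zs s h c).re = c := ofr_pp_re _ _ _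

/-- on the flat part -/
theorem pw_flat (s : ℤ) (h : Fin M) {c : ℝ} (h0 : wcl b h ≤ c) (h1 : c ≤ wXM b h - wcr b h) :
    pw b zs s h c = (c : ℂ) + ((ofs s (zs (.inl (.inl h))).im : ℝ) : ℂ) * Complex.I :=
  ofr_pp_flat (wpar_good b zs) zs _ s h0 h1

/-- change of the value of the region `i` if the hinge in the slot `p` is moved to `z` -/
noncomputable def dV (b : Fin (M + 1) → ℤ) (i : Fin (M + 1)) (p : Fin 3) (X : Fin 3 → ℂ) (z : ℂ) :
    ℝ := OV b i (Function.update X p z) - OV b i X

/-- **Value step for one hinge.** -/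
theorem val_hinge (hb : ClassW b) (hy : IsMx (wdat (tyW b) b) (wpar b zs) zs y) (A : Adj h i p j)
    {c : ℝ} (h0 : 0 ≤ c) (h1 : c ≤ wXM b h) :
    dV b i p (OY b zs y i) (pw b zs (b i) h c) +
      dV b j p.rev (OY b zs y j) (pw b zs (b j) h c) ≤ 0 := by
  have key : dV b h.castSucc 2 (OY b zs y h.castSucc) (pw b zs (b h.castSucc) h c) +
      dV b h.succ 0 (OY b zs y h.succ) (pw b zs (b h.succ) h c) ≤ 0 := by
    have h2 := hy.upd (.inl (.inl h)) (c := c) h0 h1
    have h3 := V_upd_hinge (tyW b) b h ((wpar b zs).pth zs y) ((wpar b zs).pp zs (.inl (.inl h)) c)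
    rw [rV_own hb, rV_own hb, rV_own hb, rV_own hb, own_update_two, own_update_zero] at h3
    unfold dV OY pw Xw
    linarith
  cases A
  · exact key
  · rw [add_comm]
    exact key

/-! ### closed forms -/

theorem EndOk.upd {X : Fin 3 → ℂ} (hX : EndOk i X) (A : Adj h i p j) (z : ℂ) :
    EndOk i (Function.update X p z) := by
  cases A
  · refine ⟨fun h0 => ?_, fun h0 => absurd h0 (Fin.castSucc_lt_last h).ne⟩
    rw [Function.update_of_ne (by decide)]
    exact hX.1 h0
  · refine ⟨fun h0 => absurd h0 (Fin.succ_ne_zero h), fun h0 => ?_⟩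
    rw [Function.update_of_ne (by decide)]
    exact hX.2 h0

theorem dV_one (hb : ClassW b) (A : Adj h i p j) (hc : clsW b i = .one) (X : Fin 3 → ℂ) (z : ℂ) :
    dV b i p X z = V1 z (X p.rev) - V1 (X p) (X p.rev) := by
  unfold dV
  rw [OV_one hb hc, OV_one hb hc]
  cases A
  · rw [Function.update_self, Function.update_of_ne (by decide), V1_comm (X 0) z,
      V1_comm (X 0) (X 2)]
    rfl
  · rw [Function.update_self, Function.update_of_ne (by decide)]
    rfl

theorem dV_two (hb : ClassW b) (A : Adj h i p j) (hc : clsW b i = .two ∨ clsW b i = .twoE)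
    {X : Fin 3 → ℂ} (hX : EndOk i X) (z : ℂ) :
    dV b i p X z = V2 z (X p.rev) - V2 (X p) (X p.rev) := by
  unfold dV
  rw [OV_two hb hc hX, OV_two hb hc (hX.upd A z)]
  cases A
  · rw [Function.update_self, Function.update_of_ne (by decide), V2_comm (X 0) z,
      V2_comm (X 0) (X 2)]
    rfl
  · rw [Function.update_self, Function.update_of_ne (by decide)]
    rfl

/-- end region with two crossings -/
theorem dV_twoE (hb : ClassW b) (A : Adj h i p j) (hc : clsW b i = .twoE)
    {X : Fin 3 → ℂ} (hX : EndOk i X) (z : ℂ) :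
    dV b i p X z = V2 z 0 - V2 (X p) 0 := by
  have he := clsW_end (Or.inl hc)
  rw [dV_two hb A (Or.inr hc) hX]
  have h0 : X p.rev = 0 := by
    unfold isEnd at he
    cases A
    · rcases of_decide_eq_true he with h1 | h1
      · exact hX.1 h1
      · exact absurd h1 (Fin.castSucc_lt_last h).ne
    · rcases of_decide_eq_true he with h1 | h1
      · exact absurd h1 (Fin.succ_ne_zero h)
      · exact hX.2 h1
  rw [h0]

/-- hinge on the left of an inner region with three crossings (side `S3`) -/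
theorem dV_three0 (hb : ClassW b) (hc : clsW b i = .three) (X : Fin 3 → ℂ) (z : ℂ) :
    dV b i 0 X z = V3 z (X 1) (X 2) - V3 (X 0) (X 1) (X 2) := by
  unfold dV
  rw [OV_three hb hc, OV_three hb hc, Function.update_self, Function.update_of_ne (by decide),
    Function.update_of_ne (by decide)]

/-- hinge on the right of an inner region with three crossings (side `S2`) -/
theorem dV_three2 (hb : ClassW b) (hc : clsW b i = .three) (X : Fin 3 → ℂ) (z : ℂ) :
    dV b i 2 X z = V3 (X 0) (X 1) z - V3 (X 0) (X 1) (X 2) := by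
  unfold dV
  rw [OV_three hb hc, OV_three hb hc, Function.update_self, Function.update_of_ne (by decide),
    Function.update_of_ne (by decide)]

theorem dV_threeE (A : Adj h i p j) (hc : clsW b i = .threeE)
    {X : Fin 3 → ℂ} (hX : EndOk i X) (z : ℂ) :
    dV b i p X z = V3 z (X 1) 0 - V3 (X p) (X 1) 0 := by
  unfold dV
  rw [A.OV_threeE hc hX, A.OV_threeE hc (hX.upd A z), Function.update_self,
    Function.update_of_ne (by cases A <;> decide)]

theorem dV_ring (hb : ClassW b) (A : Adj h i p j) (hc : clsW b i = .ring)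
    {X : Fin 3 → ℂ} (hX : EndOk i X) (z : ℂ) :
    dV b i p X z =
      (UU (z + 1 / 2 + X 1) + UU (z + 1 / 2 - X 1) - 2 * UU z) -
        (UU (X p + 1 / 2 + X 1) + UU (X p + 1 / 2 - X 1) - 2 * UU (X p)) := by
  unfold dV
  rw [OV_ring hb hc hX, OV_ring hb hc (hX.upd A z)]
  unfold VR
  cases A
  · rw [Function.update_self, Function.update_of_ne (by decide), Function.update_of_ne (by decide)]
    ring
  · rw [Function.update_self, Function.update_of_ne (by decide), Function.update_of_ne (by decide)]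
    ring

/-! ### the hinge variable of the local point -/

/-- the hinge `h` in the frame of the region `i` -/
theorem OY_hinge (y : DD (tyW b) ⊕ ZZ (tyW b) → ℝ) (A : Adj h i p j) :
    OY b zs y i p = pw b zs (b i) h (y (.inl (.inl h))) := by
  unfold pw
  cases A
  · unfold OY Xw
    rw [own_two, xx_right]
    rfl
  · unfold OY Xw
    rw [own_zero, xx_left]
    rfl

end SR

end Pool.Agent.Work.MP_b30479_gt.G2
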