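import Pool.Agent.Work.MP_b30479_gt.G2.RPushA
import Pool.Agent.Work.MP_b30479_gt.G2.M3N
import Pool.Agent.Work.MP_b30479_gt.G2.ML3
import Pool.Agent.Work.MP_b30479_gt.G2.MPSum
import Pool.Agent.Work.MP_b30479_gt.G2.S0RKB
import Pool.Agent.Work.MP_b30479_gt.G2.S0RW
import Pool.Agent.Work.MP_b30479_gt.G2.WRng0
import Pool.Agent.Work.MP_b30479_gt.G2.WValH

/-!
# The push of a ring in a word

The state of the ring variable (`RingSt`), the hinges as points `lv x T`, the saddle point, the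
push-back in terms of real data (`Adj.push_ring2`, `Adj.push_ring1`).
-/

namespace Pool.Agent.Work.MP_b30479_gt.G2

open Finset VOL Filter Topology

namespace SR

variable {M : ℕ} {b : Fin (M + 1) → ℤ} {zs : DD (tyW b) ⊕ ZZ (tyW b) → ℂ}
variable {y : DD (tyW b) ⊕ ZZ (tyW b) → ℝ}
variable {h h' : Fin M} {i j j' : Fin (M + 1)} {p : Fin 3}

/-- **The ring variables of a maximiser.** -/
structure RingSt (b : Fin (M + 1) → ℤ) (zs : DD (tyW b) ⊕ ZZ (tyW b) → ℂ)
    (y : DD (tyW b) ⊕ ZZ (tyW b) → ℝ) : Prop where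
  neg : ∀ v : ZZ (tyW b), ofs (b v.1) (y (.inr v)) ≤ 0
  ge : ∀ v : ZZ (tyW b), -(1 / 4) - 1 / (2 * ((b v.1).natAbs : ℝ)) ≤ ofs (b v.1) (y (.inr v))
  /-- on the ramp: a hinge beyond `1/2 - |σ|` is not higher than the ring variable -/
  t : ∀ {h : Fin M} {i j : Fin (M + 1)} {p : Fin 3} (v : ZZ (tyW b)), v.1 = i → Adj h i p j →
    ofs (b i) (y (.inr v)) < -(1 / 4) → 1 / 2 + ofs (b i) (y (.inr v)) ≤ y (.inl (.inl h)) →
    ofs (b i) (zs (.inl (.inl h))).im ≤
      4 * (zs (.inr v)).im * (1 / 2 + ofs (b i) (y (.inr v)))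

/-- no factor of a ring at a hinge of a maximiser vanishes -/
theorem Adj.ring_ne (A : Adj h i p j) (hb : ClassW b) (hy : Mx b zs y)
    (h0 : 0 < y (.inl (.inl h))) (hc : clsW b i = .ring) :
    SinNe (Yw b zs y i p + 1 / 2 + Zw b zs y i) ∧ SinNe (Yw b zs y i p + 1 / 2 - Zw b zs y i) := by
  have ht := tyW_of_ring hb hc
  have key : SinNe (Xw b zs y i p + 1 / 2 + Xw b zs y i 1) ∧
      SinNe (Xw b zs y i p + 1 / 2 - Xw b zs y i 1) := by
    have v3 : ∀ w u : ℂ, 1 / 2 + (w + u) = w + 1 / 2 + u := fun w u => by ring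
    have v4 : ∀ w u : ℂ, 1 / 2 + (w + -u) = w + 1 / 2 - u := fun w u => by ring
    have v5 : ∀ w u : ℂ, 1 / 2 + (u + w) = w + 1 / 2 + u := fun w u => by ring
    have v6 : ∀ w u : ℂ, 1 / 2 + (-u + w) = w + 1 / 2 - u := fun w u => by ring
    cases A
    · have h1 := IsMx.rfac_left hy (std_wpar b zs) h h0
      unfold rfac at h1
      rw [decide_castSucc, ht] at h1
      have e1 := h1 ⟨![0, 1, 1], 1 / 2, 0⟩ (by
        generalize decide (h.castSucc ≠ 0) = l
        cases l <;> simp [facs, hL, hR]) (by simp)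
      have e2 := h1 ⟨![0, -1, 1], 1 / 2, 0⟩ (by
        generalize decide (h.castSucc ≠ 0) = l
        cases l <;> simp [facs, hL, hR]) (by simp)
      simp [Fac.form_mk] at e1 e2
      have a1 := v5 (Xw b zs y h.castSucc 2) (Xw b zs y h.castSucc 1)
      have a2 := v6 (Xw b zs y h.castSucc 2) (Xw b zs y h.castSucc 1)
      rw [← a1, ← a2]
      unfold Xw
      simp only [one_div] at e1 e2 ⊢
      exact ⟨e1, e2⟩
    · have h1 := IsMx.rfac_right hy (std_wpar b zs) h h0
      unfold rfac at h1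
      rw [decide_succ, ht] at h1
      have e1 := h1 ⟨![1, 1, 0], 1 / 2, 0⟩ (by
        generalize decide (h.succ ≠ Fin.last M) = r
        cases r <;> simp [facs, hL, hR]) (by simp)
      have e2 := h1 ⟨![1, -1, 0], 1 / 2, 0⟩ (by
        generalize decide (h.succ ≠ Fin.last M) = r
        cases r <;> simp [facs, hL, hR]) (by simp)
      simp [Fac.form_mk] at e1 e2
      have a1 := v3 (Xw b zs y h.succ 0) (Xw b zs y h.succ 1)
      have a2 := v4 (Xw b zs y h.succ 0) (Xw b zs y h.succ 1)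
      rw [← a1, ← a2]
      unfold Xw
      simp only [one_div] at e1 e2 ⊢
      exact ⟨e1, e2⟩
  unfold Yw Zw ofr ofz
  split_ifs with h5
  · exact key
  · have e : ∀ u : ℂ, SinNe u → SinNe (starRingEnd ℂ u) := by
      intro u hu h6
      apply hu
      have h2 : (starRingEnd ℂ) (Complex.sin ((Real.pi : ℂ) * u)) = 0 := by
        rw [← Complex.sin_conj, map_mul, Complex.conj_ofReal]
        exact h6
      simpa using h2
    have k1 := e _ key.1
    have k2 := e _ key.2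
    simp only [map_add, map_sub, map_div₀, map_one, map_ofNat] at k1 k2
    constructor
    · rw [← sub_eq_add_neg]
      exact k2
    · rw [sub_neg_eq_add]
      exact k1

/-! ### real form of the data of a ring -/

theorem Adj.Ys_lvR (A : Adj h i p j) :
    Ys b zs i p = lv (zs (.inl (.inl h))).re (ofs (b i) (zs (.inl (.inl h))).im) :=
  Complex.ext (by rw [A.Ys_re, lv_re]) (by rw [A.Ys_im, lv_im])

theorem Adj.Yw_lvR (A : Adj h i p j) (hf : Flat b y) :
    Yw b zs y i p = lv (y (.inl (.inl h))) (ofs (b i) (zs (.inl (.inl h))).im) := by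
  have e : Yw b zs y i p = pw b zs (b i) h (y (.inl (.inl h))) := A.Yw_eq
  rw [e, pw_flat (b i) h (hf h).1 (hf h).2]
  rfl

theorem Zs_lv (v : ZZ (tyW b)) :
    Zs b zs v.1 = lv ((1 / 2 + ofs (b v.1) (zs (.inr v)).re) - 1 / 2) (zs (.inr v)).im := by
  unfold Zs
  rw [xx_ring (tyW b) v.2]
  apply Complex.ext
  · rw [ofz_re, lv_re]
    ring
  · rw [ofz_im, lv_im]

section

variable {v : ZZ (tyW b)}

/-- the real data of a ring and a hinge: no factor is singular -/
theorem Adj.ring_St (A : Adj h i p j) (hb : ClassW b) (hy : Mx b zs y) (hf : Flat b y)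
    (hc : clsW b i = .ring) (hv : v.1 = i) (R : RingSt b zs y)
    (h0 : 0 < y (.inl (.inl h))) :
    RC.St ((b i).natAbs : ℝ) (zs (.inr v)).im (ofs (b i) (y (.inr v)))
      (ofs (b i) (zs (.inl (.inl h))).im) (y (.inl (.inl h))) := by
  have hn := A.ring_ne hb hy h0 hc
  have hz : Zw b zs y i = LT.zt (zs (.inr v)).im (ofs (b i) (y (.inr v))) := by
    have := Zw_eq (zs := zs) (y := y) v
    rw [hv] at this
    exact this
  rw [A.Yw_lvR hf, hz] at hn
  have hneg := R.neg v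
  have hge := R.ge v
  rw [hv] at hneg hge
  refine ⟨hneg, hge, fun h1 h2 => R.t v hv A h1 h2, fun h1 => ?_, fun h1 h2 => ?_⟩
  · rw [RC.zt_flat _ h1 (by linarith only [hneg])] at hn
    exact RC.Nz_of_sin hn.1 hn.2
  · rw [RC.zt_lv _ h1.le] at hn
    apply hn.2
    have e : lv (y (.inl (.inl h))) (ofs (b i) (zs (.inl (.inl h))).im) + 1 / 2 -
        lv ((1 / 2 + ofs (b i) (y (.inr v))) - 1 / 2)
          (4 * (zs (.inr v)).im * (1 / 2 + ofs (b i) (y (.inr v)))) = 1 := by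
      rw [h2.1, h2.2]
      unfold lv
      push_cast
      ring
    rw [e, mul_one, Complex.sin_pi]

/-- the critical equation of the saddle point in the ring variable -/
theorem Adj.ring_crit (A : Adj h i p j) (hC : Crit b zs) (hv : v.1 = i) :
    RC.Dx (zs (.inl (.inl h))).re (1 / 2 + ofs (b i) (zs (.inr v)).re)
      (ofs (b i) (zs (.inl (.inl h))).im) (zs (.inr v)).im +
      Dm 0 (Ys b zs i p.rev) (Zs b zs i) = 2 * Real.pi * ((b i).natAbs : ℝ) * (zs (.inr v)).im := by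
  have h1 := (hC.ring v).1
  have hz := Zs_lv (zs := zs) v
  have him : (Zs b zs v.1).im = (zs (.inr v)).im := by rw [hz, lv_im]
  rw [hv] at h1 hz him
  unfold RD1 at h1
  rw [him] at h1
  have e1 : ∀ w : ℂ, LL (w + 1 / 2 + Zs b zs i) - LL (w + 1 / 2 - Zs b zs i) =
      Dm 0 w (Zs b zs i) := by
    intro w
    unfold Dm Dq
    ring
  rw [e1, e1] at h1
  have e2 := RC.Dm_eq (zs (.inl (.inl h))).re (1 / 2 + ofs (b i) (zs (.inr v)).re)
      (ofs (b i) (zs (.inl (.inl h))).im) (zs (.inr v)).im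
  rw [← hz, ← A.Ys_lvR] at e2
  rw [← e2]
  rcases A.slot with rfl | rfl
  · have : (0 : Fin 3).rev = 2 := rfl
    rw [this]
    linarith only [h1]
  · have : (2 : Fin 3).rev = 0 := rfl
    rw [this]
    linarith only [h1]

theorem Adj.ring_crit2 (A : Adj h i p j) (A' : Adj h' i p.rev j') (hC : Crit b zs) (hv : v.1 = i) :
    RC.Dx (zs (.inl (.inl h))).re (1 / 2 + ofs (b i) (zs (.inr v)).re)
      (ofs (b i) (zs (.inl (.inl h))).im) (zs (.inr v)).im +
      RC.Dx (zs (.inl (.inl h'))).re (1 / 2 + ofs (b i) (zs (.inr v)).re)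
      (ofs (b i) (zs (.inl (.inl h'))).im) (zs (.inr v)).im =
      2 * Real.pi * ((b i).natAbs : ℝ) * (zs (.inr v)).im := by
  have h1 := A.ring_crit hC hv
  have hz := Zs_lv (zs := zs) v
  rw [hv] at hz
  rw [A'.Ys_lvR, hz, RC.Dm_eq] at h1
  exact h1

theorem Adj.ring_crit1 (A : Adj h i p j) (he : isEnd i = true) (hC : Crit b zs) (hv : v.1 = i) :
    RC.Dx (zs (.inl (.inl h))).re (1 / 2 + ofs (b i) (zs (.inr v)).re)
      (ofs (b i) (zs (.inl (.inl h))).im) (zs (.inr v)).im =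
      2 * Real.pi * ((b i).natAbs : ℝ) * (zs (.inr v)).im := by
  have h1 := A.ring_crit hC hv
  rw [A.Ys_other he, RC.Dm_zero_left] at h1
  linarith only [h1]

/-! ### the push of a ring -/

/-- all real data of a ring `v` seen from a hinge `h`: the statements of the maximiser -/
theorem Adj.ring_RM2 (A : Adj h i p j) (A' : Adj h' i p.rev j') (hb : ClassW b) (hL : Loc b zs)
    (hy : Mx b zs y) (hf : Flat b y) (hc : clsW b i = .ring) (hv : v.1 = i) :
    RM ((b i).natAbs : ℝ) (zs (.inr v)).im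
      (lv (y (.inl (.inl h))) (ofs (b i) (zs (.inl (.inl h))).im))
      (lv (y (.inl (.inl h'))) (ofs (b i) (zs (.inl (.inl h'))).im)) (ofs (b i) (y (.inr v))) := by
  obtain ⟨v', hv', -, hM, -⟩ := A.ring hb hL hy hc
  have e : v' = v := Subtype.ext (hv'.trans hv.symm)
  subst e
  rw [A.Yw_lvR hf, A'.Yw_lvR hf] at hM
  exact hM

theorem Adj.ring_RM1 (A : Adj h i p j) (he : isEnd i = true) (hb : ClassW b) (hL : Loc b zs)
    (hy : Mx b zs y) (hf : Flat b y) (hc : clsW b i = .ring) (hv : v.1 = i) :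
    RM ((b i).natAbs : ℝ) (zs (.inr v)).im
      (lv (y (.inl (.inl h))) (ofs (b i) (zs (.inl (.inl h))).im)) 0
      (ofs (b i) (y (.inr v))) := by
  obtain ⟨v', hv', -, hM, -⟩ := A.ring hb hL hy hc
  have e : v' = v := Subtype.ext (hv'.trans hv.symm)
  subst e
  have e0 : Yw b zs y i p.rev = 0 := by
    rcases A.other b zs y with ⟨-, h0⟩ | ⟨h1, -⟩
    · exact h0
    · rw [he] at h1
      simp at h1
  rw [A.Yw_lvR hf, e0] at hM
  exact hM

theorem Adj.Zw_at (_ : Adj h i p j) (hv : v.1 = i) :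
    Zw b zs y i = LT.zt (zs (.inr v)).im (ofs (b i) (y (.inr v))) := by
  have := Zw_eq (zs := zs) (y := y) v
  rw [hv] at this
  exact this

theorem Adj.Zs_at (_ : Adj h i p j) (hv : v.1 = i) :
    Zs b zs i = lv ((1 / 2 + ofs (b i) (zs (.inr v)).re) - 1 / 2) (zs (.inr v)).im := by
  have := Zs_lv (zs := zs) v
  rw [hv] at this
  exact this

theorem Adj.pushQ_ring (A : Adj h i p j) (hb : ClassW b) (hf : Flat b y) (hc : clsW b i = .ring)
    (hv : v.1 = i) {f g : ℝ → ℝ}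
    (H : |gh (Yw b zs y i p.rev).re - gh (Ys b zs i p.rev).re| ≤
        |gh (y (.inl (.inl h))) - gh (zs (.inl (.inl h))).re| →
      ((zs (.inl (.inl h))).re < y (.inl (.inl h)) →
        S4 0 (lv (y (.inl (.inl h))) (ofs (b i) (zs (.inl (.inl h))).im))
          (LT.zt (zs (.inr v)).im (ofs (b i) (y (.inr v)))) <
        S4 0 (lv (zs (.inl (.inl h))).re (ofs (b i) (zs (.inl (.inl h))).im))
          (lv ((1 / 2 + ofs (b i) (zs (.inr v)).re) - 1 / 2) (zs (.inr v)).im) +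
          f (gh (y (.inl (.inl h))) - gh (zs (.inl (.inl h))).re)) ∧
      (y (.inl (.inl h)) < (zs (.inl (.inl h))).re →
        S4 0 (lv (zs (.inl (.inl h))).re (ofs (b i) (zs (.inl (.inl h))).im))
          (lv ((1 / 2 + ofs (b i) (zs (.inr v)).re) - 1 / 2) (zs (.inr v)).im) <
        S4 0 (lv (y (.inl (.inl h))) (ofs (b i) (zs (.inl (.inl h))).im))
          (LT.zt (zs (.inr v)).im (ofs (b i) (y (.inr v)))) +
          g (gh (zs (.inl (.inl h))).re - gh (y (.inl (.inl h)))))) :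
    PushQ (tyW b) b i p p.rev (Xw b zs y i) (xx (tyW b) i zs) f g := by
  have e1 : (Xw b zs y i p).re = y (.inl (.inl h)) := by
    rw [← ofr_re (b i)]
    exact A.re
  have e2 : (xx (tyW b) i zs p).re = (zs (.inl (.inl h))).re := by
    rw [A.xs_eq]
  have e3 : (Yw b zs y i p.rev).re = (Xw b zs y i p.rev).re := ofr_re _ _
  have e4 : (Ys b zs i p.rev).re = (xx (tyW b) i zs p.rev).re := ofr_re _ _
  rw [e3, e4] at H
  unfold PushQ
  rw [A.rs_ring _ _ hb hc, A.rs_ring _ _ hb hc, ofs_zero', e1, e2]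
  have z1 : ofz (b i) (Xw b zs y i 1) = Zw b zs y i := rfl
  have z2 : ofz (b i) (xx (tyW b) i zs 1) = Zs b zs i := rfl
  have y1 : ofr (b i) (Xw b zs y i p) = Yw b zs y i p := rfl
  have y2 : ofr (b i) (xx (tyW b) i zs p) = Ys b zs i p := rfl
  rw [z1, z2, y1, y2, A.Zw_at hv, A.Zs_at hv, A.Yw_lvR hf, A.Ys_lvR]
  refine ⟨fun h1 h2 => (H (h2.trans (le_abs_self _))).1 h1, fun h1 h2 => (H (h2.trans ?_)).2 h1⟩
  rw [abs_sub_comm]
  exact le_abs_self _

/-- **The push of an interior ring in a word.** -/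
theorem Adj.push_ring2 (A : Adj h i p j) (A' : Adj h' i p.rev j') (hb : ClassW b) (hL : Loc b zs)
    (hy : Mx b zs y) (hf : Flat b y) (hc : clsW b i = .ring) (R : RingSt b zs y) (hv : v.1 = i)
    {cl cp cl' cp' : ℝ} {f g : ℝ → ℝ}
    (H : RC.RP2 ((b i).natAbs : ℝ) (zs (.inl (.inl h))).re (1 / 2 + ofs (b i) (zs (.inr v)).re)
      (ofs (b i) (zs (.inl (.inl h))).im) (zs (.inr v)).im cl cp (zs (.inl (.inl h'))).re
      (ofs (b i) (zs (.inl (.inl h'))).im) cl' cp' f g)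
    (hx : y (.inl (.inl h)) ∈ Set.Icc cl cp) (hx' : y (.inl (.inl h')) ∈ Set.Icc cl' cp')
    (hcl : 0 < cl) (hcl' : 0 < cl') (hcp : cp < 1 / 2) (hcp' : cp' < 1 / 2) :
    PushQ (tyW b) b i p p.rev (Xw b zs y i) (xx (tyW b) i zs) f g := by
  refine A.pushQ_ring hb hf hc hv fun hN => ?_
  rw [A'.re, A'.Ys_re] at hN
  exact RC.push_two H (A.ring_RM2 A' hb hL hy hf hc hv)
    (A.ring_St hb hy hf hc hv R (by linarith only [hcl, hx, hx.1]))
    (A'.ring_St hb hy hf hc hv R (by linarith only [hcl', hx', hx'.1])) hx hx' hcl hcl' hcp hcp' hN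

/-- **The push of a ring at an end of a word.** -/
theorem Adj.push_ring1 (A : Adj h i p j) (he : isEnd i = true) (hb : ClassW b) (hL : Loc b zs)
    (hy : Mx b zs y) (hf : Flat b y) (hc : clsW b i = .ring) (R : RingSt b zs y) (hv : v.1 = i)
    {cl cp : ℝ} {f g : ℝ → ℝ}
    (H : RC.RP1 ((b i).natAbs : ℝ) (zs (.inl (.inl h))).re (1 / 2 + ofs (b i) (zs (.inr v)).re)
      (ofs (b i) (zs (.inl (.inl h))).im) (zs (.inr v)).im cl cp f g)
    (hx : y (.inl (.inl h)) ∈ Set.Icc cl cp) (hcl : 0 < cl) (hcp : cp < 1 / 2) :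
    PushQ (tyW b) b i p p.rev (Xw b zs y i) (xx (tyW b) i zs) f g :=
  A.pushQ_ring hb hf hc hv fun _ => RC.push_one H (A.ring_RM1 he hb hL hy hf hc hv)
    (A.ring_St hb hy hf hc hv R (by linarith only [hcl, hx, hx.1])) hx hcl hcp

theorem PushQ.push' {i : Fin (M + 1)} {p q : Fin 3} {X Xs : Fin 3 → ℂ}
    (h : PushQ (tyW b) b i p q X Xs (fun _ => 0) (fun _ => 0)) : Push' (tyW b) b i p q X Xs := by
  unfold PushQ at h
  simp only [add_zero] at h
  exact h

theorem ofs_inj {c : ℤ} {s t : ℝ} (h : ofs c s = ofs c t) : s = t := by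
  unfold ofs at h
  split_ifs at h
  · exact h
  · linarith only [h]

/-- **Inner statement for an interior ring in a word.** -/
theorem Adj.in_ring2 (A : Adj h i p j) (A' : Adj h' i p.rev j') (hb : ClassW b) (hL : Loc b zs)
    (hC : Crit b zs) (hy : Mx b zs y) (hf : Flat b y) (hc : clsW b i = .ring) (R : RingSt b zs y)
    (hv : v.1 = i) {lam α β cl cp cl' cp' : ℝ}
    (hp : RC.LI (zs (.inl (.inl h))).re (1 / 2 + ofs (b i) (zs (.inr v)).re)
      (ofs (b i) (zs (.inl (.inl h))).im) (zs (.inr v)).im)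
    (hq : RC.LI (zs (.inl (.inl h'))).re (1 / 2 + ofs (b i) (zs (.inr v)).re)
      (ofs (b i) (zs (.inl (.inl h'))).im) (zs (.inr v)).im)
    (rp : RC.RampOK lam α β ((b i).natAbs : ℝ) (zs (.inl (.inl h))).re
      (1 / 2 + ofs (b i) (zs (.inr v)).re) (ofs (b i) (zs (.inl (.inl h))).im) (zs (.inr v)).im cl cp)
    (rq : RC.RampOK lam α β ((b i).natAbs : ℝ) (zs (.inl (.inl h'))).re
      (1 / 2 + ofs (b i) (zs (.inr v)).re) (ofs (b i) (zs (.inl (.inl h'))).im) (zs (.inr v)).im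
        cl' cp')
    (hα : 0 < α) (hys : 1 / 4 < 1 / 2 + ofs (b i) (zs (.inr v)).re)
    (hx : (zs (.inl (.inl h))).re ∈ Set.Icc cl cp) (hx' : (zs (.inl (.inl h'))).re ∈ Set.Icc cl' cp')
    (hcl : 0 < cl) (hcl' : 0 < cl') (hcp : cp < 1 / 2) (hcp' : cp' < 1 / 2)
    (e : y (.inl (.inl h)) = (zs (.inl (.inl h))).re)
    (e' : y (.inl (.inl h')) = (zs (.inl (.inl h'))).re) : y (.inr v) = (zs (.inr v)).re := by
  have hM := A.ring_RM2 A' hb hL hy hf hc hv
  have s := A.ring_St hb hy hf hc hv R (by rw [e]; linarith only [hcl, hx, hx.1])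
  have s' := A'.ring_St hb hy hf hc hv R (by rw [e']; linarith only [hcl', hx', hx'.1])
  rw [e, e'] at hM
  rw [e] at s
  rw [e'] at s'
  have key := RC.in_two hp hq rp rq hα (A.ring_crit2 A' hC hv) hys hM s s' hx hx' hcl hcl' hcp hcp'
  exact ofs_inj (c := b i) (by linarith only [key])

/-- **Inner statement for a ring at an end of a word.** -/
theorem Adj.in_ring1 (A : Adj h i p j) (he : isEnd i = true) (hb : ClassW b) (hL : Loc b zs)
    (hC : Crit b zs) (hy : Mx b zs y) (hf : Flat b y) (hc : clsW b i = .ring) (R : RingSt b zs y)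
    (hv : v.1 = i) {cl cp : ℝ}
    (hp : RC.LI (zs (.inl (.inl h))).re (1 / 2 + ofs (b i) (zs (.inr v)).re)
      (ofs (b i) (zs (.inl (.inl h))).im) (zs (.inr v)).im)
    (rp : RC.RampOK1 ((b i).natAbs : ℝ) (zs (.inl (.inl h))).re
      (1 / 2 + ofs (b i) (zs (.inr v)).re) (ofs (b i) (zs (.inl (.inl h))).im) (zs (.inr v)).im cl cp)
    (hys : 1 / 4 < 1 / 2 + ofs (b i) (zs (.inr v)).re)
    (hx : (zs (.inl (.inl h))).re ∈ Set.Icc cl cp) (hcl : 0 < cl) (hcp : cp < 1 / 2)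
    (e : y (.inl (.inl h)) = (zs (.inl (.inl h))).re) : y (.inr v) = (zs (.inr v)).re := by
  have hM := A.ring_RM1 he hb hL hy hf hc hv
  have s := A.ring_St hb hy hf hc hv R (by rw [e]; linarith only [hcl, hx, hx.1])
  rw [e] at hM s
  have key := RC.in_one hp rp (A.ring_crit1 he hC hv) hys hM s hx hcl hcp
  exact ofs_inj (c := b i) (by linarith only [key])

end

end SR

end Pool.Agent.Work.MP_b30479_gt.G2
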