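import Pool.Agent.Work.MP_b30479_gt.G2.WRngZ
import Pool.Agent.Work.MP_b30479_gt.G2.RPush

/-!
# Rings in a word: the state of the ring variables when the hinges are on their flat parts
-/

namespace Pool.Agent.Work.MP_b30479_gt.G2

open Finset VOL Filter Topology

namespace SR

variable {M : ℕ} {b : Fin (M + 1) → ℤ} {zs : DD (tyW b) ⊕ ZZ (tyW b) → ℂ}
variable {y : DD (tyW b) ⊕ ZZ (tyW b) → ℝ}
variable {h h' : Fin M} {i j j' : Fin (M + 1)} {p : Fin 3}

/-- a hinge of a ring on its flat part -/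
theorem Adj.ring_flat (A : Adj h i p j) (hy : Mx b zs y) (hf : Flat b y) (hc : clsW b i = .ring) :
    1 / 10 ≤ y (.inl (.inl h)) ∧ y (.inl (.inl h)) ≤ 48 / 100 ∧
      (Yw b zs y i p).im = ofs (b i) (zs (.inl (.inl h))).im := by
  have h1 := (hf h).1
  have h2 := (hf h).2
  have hrh := A.rh hy
  obtain ⟨g1, g2, g3⟩ := A.good (b := b)
  have him : (Yw b zs y i p).im = ofs (b i) (zs (.inl (.inl h))).im := by
    rw [hrh.im, A.re, tr_b g1 g2 h1 h2, mul_one]
  by_cases hj : clsW b j = .ring
  · obtain ⟨e1, e2, e3⟩ := A.par_rr hc hj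
    rw [e2] at h1
    rw [e1, e3] at h2
    exact ⟨h1, by linarith only [h2], him⟩
  · by_cases hj1 : clsW b j = .one
    · obtain ⟨e1, e2, e3⟩ := A.par_ring_one hc hj1
      rw [e2] at h1
      rw [e1, e3] at h2
      exact ⟨by linarith only [h1, g1, e2], by linarith only [h2, g1, e2], him⟩
    · obtain ⟨e1, e2, e3⟩ := A.par_ring_lo hc hj1 hj
      rw [e1] at h2
      exact ⟨by linarith only [h1, e2, e2.1], by linarith only [h2, g2, e3, e3.1], him⟩

/-- the hinges of a ring are `≤ 1/2` -/
theorem slot_half (hy : Mx b zs y) (hf : Flat b y) (hc : clsW b i = .ring) (hp : p = 0 ∨ p = 2) :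
    (Yw b zs y i p).re ≤ 1 / 2 := by
  rcases hp with rfl | rfl
  · by_cases h0 : i = 0
    · rw [h0, Yw_zero]
      norm_num
    · obtain ⟨k, rfl⟩ := Fin.eq_succ_of_ne_zero h0
      have := ((Adj.r (h := k)).ring_flat hy hf hc).2.1
      rw [(Adj.r (h := k)).re]
      linarith only [this]
  · by_cases h0 : i = Fin.last M
    · rw [h0, Yw_last]
      norm_num
    · obtain ⟨k, hk⟩ := Fin.eq_castSucc_of_ne_last h0
      subst hk
      have := ((Adj.l (h := k)).ring_flat hy hf hc).2.1
      rw [(Adj.l (h := k)).re]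
      linarith only [this]

/-- **The state of the ring variables.** -/
theorem ringSt (hb : ClassW b) (hL : Loc b zs) (hX : LocX b zs) (hR : LocR b zs) (hy : Mx b zs y)
    (hf : Flat b y) : RingSt b zs y := by
  refine ⟨fun v => ring_nonpos hb hL hX hR hy v, fun v => ?_, ?_⟩
  · have hc := clsW_ring hb v
    obtain ⟨k, k', K, K'⟩ := rk_slots hb hL hX hR hy hc
    have r := ring_RM hb hL hy v
    have hlt : |ofs (b v.1) (y (.inr v))| < 1 / 2 := by
      rw [abs_ofs]
      exact ring_lt_half hb hL hX hR hy v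
    exact r.ge (ring_cap hb hL v) K.ok K'.ok (abs_lt.1 hlt).1 (slot_half hy hf hc (Or.inl rfl))
      (slot_half hy hf hc (Or.inr rfl)) (K.cp hb hL hX hR hy hc v rfl) (K'.cp hb hL hX hR hy hc v rfl)
  · intro h i j p v hv A hσ hx
    have hc : clsW b i = .ring := by rw [← hv]; exact clsW_ring hb v
    obtain ⟨v', hv', k', P⟩ := A.rpk hb hL hX hR hy hc
    have ev : v' = v := by
      apply Subtype.ext
      rw [hv', hv]
    subst ev
    obtain ⟨x0, x1, him⟩ := A.ring_flat hy hf hc
    have hs : 0 < 1 / 2 + ofs (b i) (y (.inr v')) := by linarith only [P, (abs_lt.1 P.lt).1]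
    have e : ofs (b i) (y (.inr v')) = -(1 / 2) + (1 / 2 + ofs (b i) (y (.inr v'))) := by ring
    have r := P.rm
    rw [e] at r
    have hother : (Yw b zs y i p.rev).re ≤ 1 / 2 := by
      apply slot_half hy hf hc
      rcases A.slot with rfl | rfl
      · right; rfl
      · left; rfl
    have key := r.height_le P.cap P.ok P.ok' hs (by linarith only [hσ]) (by rw [A.re]; exact x0)
      (by rw [A.re]; linarith only [hσ, x1, hs]) hother P.cp P.cp' (by rw [A.re]; exact hx)
    rw [him] at key
    exact key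

end SR

end Pool.Agent.Work.MP_b30479_gt.G2
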