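import Pool.Agent.Work.MP_b30479_gt.G2.RWa
import Pool.Agent.Work.MP_b30479_gt.G2.WRngL
import Pool.Agent.Work.MP_b30479_gt.G2.WMainS
import Pool.Agent.Work.MP_b30479_gt.G2.WRngS
import Pool.Agent.Work.MP_b30479_gt.G2.TRd

/-!
# The main paths of the words all of whose regions have at least four crossings
-/

namespace Pool.Agent.Work.MP_b30479_gt.G2

open Finset VOL Filter Topology

namespace SR

variable {M : ℕ} {b : Fin (M + 1) → ℤ} {zs : DD (tyW b) ⊕ ZZ (tyW b) → ℂ}
variable {y : DD (tyW b) ⊕ ZZ (tyW b) → ℝ}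

theorem RLoc.mainParts (H : RLoc b zs) (hA : AllRing b) : MainPartsS b zs where
  ring y hy v := ring_lt_half H.hb H.hL H.hX H.hR hy v
  left y hy hpos h := by
    obtain ⟨-, e2, -⟩ := (Adj.l (h := h)).par_rr (b := b) (hA _) (hA _)
    rw [e2]
    exact rr_floor H.hb H.hL H.hX H.hR hy hpos (Adj.l (h := h)) (hA _) (hA _)
  right y hy _ h := by
    obtain ⟨e1, -, e3⟩ := (Adj.l (h := h)).par_rr (b := b) (hA _) (hA _)
    rw [e1, e3]
    have := (Adj.l (h := h)).rr_cap H.hb H.hL H.hX H.hR hy (hA _) (hA _)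
    linarith
  mid y hy _ m := by
    have := tyW_of_ring H.hb (hA m.1)
    have h2 := m.2
    rw [this] at h2
    exact absurd h2 (by decide)
  rin y hy he v := by
    have hf : Flat b y := fun h => by
      obtain ⟨e1, e2, e3⟩ := (Adj.l (h := h)).par_rr (b := b) (hA _) (hA _)
      have := H.xs_flat (Adj.l (h := h)) (hA _)
      rw [hA] at this
      simp only [fcl, fcp, Set.mem_Icc] at this
      rw [he, e1, e2, e3]
      constructor <;> linarith [this.1, this.2]
    exact H.rin_all hA hy hf (ringSt H.hb H.hL H.hX H.hR hy hf) he v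
  push y hy hf h := by
    have key := push_hinge (b := b) (zs := zs) (y := y) h fun i p j A =>
      H.push_all hA hy hf (ringSt H.hb H.hL H.hX H.hR hy hf)
        (capped_all H.hb H.hL H.hX H.hR hA hy) A
    exact PushS.of_push H.hC.inn H.hC.dT key.1 key.2

end SR

end Pool.Agent.Work.MP_b30479_gt.G2
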