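import Pool.Agent.Work.MP_b30479_gt.G2.MPSide

/-!
# END 3: a 3-run at the end of a word (one hinge, one inner variable), level part

For `threeL` at the right end (`x 2 = 0`) and `threeR` at the left end (`x 0 = 0`).
-/

namespace Pool.Agent.Work.MP_b30479_gt.G2

open Finset VOL Filter Topology

/-! ### monotonicity of `LL` on horizontal lines -/

/-- `LL` on a horizontal line depends on `sin² π x` only -/
theorem LL_lt_of_sin {u u' : ℂ} (him : u.im = u'.im) (h0 : 0 < Real.sin (Real.pi * u.re) ^ 2)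
    (h : Real.sin (Real.pi * u.re) ^ 2 < Real.sin (Real.pi * u'.re) ^ 2) : LL u < LL u' := by
  rw [LL_eq', LL_eq', him]
  have e : ∀ x : ℝ, 2 * Real.cos (2 * Real.pi * x) = 2 - 4 * Real.sin (Real.pi * x) ^ 2 := by
    intro x
    rw [show 2 * Real.pi * x = 2 * (Real.pi * x) by ring, Real.cos_two_mul, Real.cos_sq']
    ring
  rw [e, e]
  have hc := Real.one_le_cosh (2 * Real.pi * u'.im)
  have := Real.log_lt_log (show 0 < 2 * Real.cosh (2 * Real.pi * u'.im) -
    (2 - 4 * Real.sin (Real.pi * u.re) ^ 2) by linarith only [h0, hc])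
    (show 2 * Real.cosh (2 * Real.pi * u'.im) - (2 - 4 * Real.sin (Real.pi * u.re) ^ 2) <
      2 * Real.cosh (2 * Real.pi * u'.im) - (2 - 4 * Real.sin (Real.pi * u'.re) ^ 2) by linarith only [h])
  linarith only [this]

/-- `LL` is strictly increasing on `(0, 1/2]`; beyond, up to `1 - x` -/
theorem LL_lt {u u' : ℂ} (him : u.im = u'.im) (h0 : 0 < u.re) (h : u.re < u'.re)
    (h1 : u.re + u'.re < 1) : LL u < LL u' := by
  have hpi := Real.pi_pos
  have hs0 : 0 < Real.sin (Real.pi * u.re) :=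
    Real.sin_pos_of_pos_of_lt_pi (by positivity) (by nlinarith only [hpi, h, h1])
  refine LL_lt_of_sin him (by positivity) ?_
  have key : Real.sin (Real.pi * u.re) < Real.sin (Real.pi * u'.re) := by
    rw [← sub_pos, Real.sin_sub_sin]
    have a1 : 0 < Real.sin ((Real.pi * u'.re - Real.pi * u.re) / 2) :=
      Real.sin_pos_of_pos_of_lt_pi (by nlinarith only [h, hpi]) (by nlinarith only [hpi, h0, h1])
    have a2 : 0 < Real.cos ((Real.pi * u'.re + Real.pi * u.re) / 2) :=
      Real.cos_pos_of_mem_Ioo ⟨by nlinarith only [hpi, h0, h], by nlinarith only [h1, hpi]⟩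
    positivity
  exact pow_lt_pow_left₀ key hs0.le two_ne_zero

/-- injectivity of `LL` on horizontal segments -/
theorem LL_inj {u u' : ℂ} (him : u.im = u'.im) (h0 : 0 < u.re) (h1 : u.re ≤ 1 / 2)
    (h0' : 0 < u'.re) (h1' : u'.re ≤ 1 / 2) (h : LL u = LL u') : u = u' := by
  apply Complex.ext _ him
  rcases lt_trichotomy u.re u'.re with h2 | h2 | h2
  · exact absurd h (LL_lt him h0 h2 (by linarith only [h1', h2])).ne
  · exact h2
  · exact absurd h.symm (LL_lt him.symm h0' h2 (by linarith only [h1, h2])).ne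

/-! ### the inner variable -/

section
variable (b : ℤ) (l r : Bool) {x y : Fin 3 → ℂ}

theorem end3L_mid (h2 : x 2 = 0) : (ldat .threeL b l r).d1 (lx x) (.inl 1) =
    -(sgb b * Real.pi * ((x 0).im + (x 1).im)) - LL (x 1 - x 0) := by
  rw [d1_threeL_one, h2]
  simp only [Complex.zero_im, add_zero]
  ring

theorem end3R_mid (h0 : x 0 = 0) : (ldat .threeR b l r).d1 (lx x) (.inl 1) =
    -(sgb b * Real.pi * ((x 2).im + (x 1).im)) - LL (x 1 - x 2) := by
  rw [d1_threeR_one, h0]
  simp only [Complex.zero_im, zero_add]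
  ring

theorem end3L_mid2 (h2 : x 2 = 0) : (ldat .threeL b l r).d2 (lx x) (.inl 1) =
    -(sgb b * Real.pi * ((x 0).re + (x 1).re - 1 / 2)) - YY (x 1 - x 0) := by
  rw [d2_threeL_one, h2]
  simp only [Complex.zero_re, add_zero]
  ring

theorem end3R_mid2 (h0 : x 0 = 0) : (ldat .threeR b l r).d2 (lx x) (.inl 1) =
    -(sgb b * Real.pi * ((x 2).re + (x 1).re - 1 / 2)) - YY (x 1 - x 2) := by
  rw [d2_threeR_one, h0]
  simp only [Complex.zero_re, zero_add]
  ring

/-! ### the side of the hinge when the inner variable is at a level critical point -/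

/-- the side of the hinge, inner variable at its level critical point -/
theorem end3L_side (h2 : x 2 = 0) (hm : (ldat .threeL b true r).d1 (lx x) (.inl 1) = 0) :
    (ldat .threeL b true r).d1 (lx x) (.inl 0) =
      -(sgb b * Real.pi * ((x 0).im + 2 * (x 1).im)) - LL (x 0) := by
  rw [end3L_mid b true r h2] at hm
  rw [d1_threeL_zero]
  linarith only [hm]

theorem end3R_side (h0 : x 0 = 0) (hm : (ldat .threeR b l true).d1 (lx x) (.inl 1) = 0) :
    (ldat .threeR b l true).d1 (lx x) (.inl 2) =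
      -(sgb b * Real.pi * ((x 2).im + 2 * (x 1).im)) - LL (x 2) := by
  rw [end3R_mid b l true h0] at hm
  rw [d1_threeR_two]
  linarith only [hm]

/-- **Push-back of the side, level part**, to the right. -/
theorem end3L_push (h2 : x 2 = 0) (h2' : y 2 = 0)
    (hm : (ldat .threeL b true r).d1 (lx x) (.inl 1) = 0)
    (hm' : (ldat .threeL b true r).d1 (lx y) (.inl 1) = 0)
    (h0i : (x 0).im = (y 0).im) (h1i : (x 1).im = (y 1).im)
    (hx0 : 0 < (x 0).re) (hxy : (x 0).re < (y 0).re) (h1 : (x 0).re + (y 0).re < 1) :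
    (ldat .threeL b true r).d1 (lx y) (.inl 0) < (ldat .threeL b true r).d1 (lx x) (.inl 0) := by
  rw [end3L_side b r h2 hm, end3L_side b r h2' hm', h0i, h1i]
  linarith only [h0i, hx0, hxy, h1, LL_lt h0i hx0 hxy h1]

theorem end3R_push (h0 : x 0 = 0) (h0' : y 0 = 0)
    (hm : (ldat .threeR b l true).d1 (lx x) (.inl 1) = 0)
    (hm' : (ldat .threeR b l true).d1 (lx y) (.inl 1) = 0)
    (h2i : (x 2).im = (y 2).im) (h1i : (x 1).im = (y 1).im)
    (hx0 : 0 < (x 2).re) (hxy : (x 2).re < (y 2).re) (h1 : (x 2).re + (y 2).re < 1) :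
    (ldat .threeR b l true).d1 (lx y) (.inl 2) < (ldat .threeR b l true).d1 (lx x) (.inl 2) := by
  rw [end3R_side b l h0 hm, end3R_side b l h0' hm', h2i, h1i]
  linarith only [h2i, hx0, hxy, h1, LL_lt h2i hx0 hxy h1]

/-- the inner variable is determined by the hinge (level part) -/
theorem end3L_inner (h2 : x 2 = 0) (h2' : y 2 = 0) (h0 : x 0 = y 0) (h1i : (x 1).im = (y 1).im)
    (hm : (ldat .threeL b l r).d1 (lx x) (.inl 1) = 0)
    (hm' : (ldat .threeL b l r).d1 (lx y) (.inl 1) = 0)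
    (hx : 0 < (x 1 - x 0).re) (hx' : (x 1 - x 0).re ≤ 1 / 2)
    (hy : 0 < (y 1 - y 0).re) (hy' : (y 1 - y 0).re ≤ 1 / 2) : x 1 = y 1 := by
  rw [end3L_mid b l r h2] at hm
  rw [end3L_mid b l r h2'] at hm'
  rw [h0, h1i] at hm
  have e : LL (x 1 - x 0) = LL (y 1 - y 0) := by rw [h0]; linarith only [hm, hm']
  have := LL_inj (by simp [h0, h1i]) hx hx' hy hy' e
  rw [h0] at this
  exact sub_left_injective this

theorem end3R_inner (h2 : x 0 = 0) (h2' : y 0 = 0) (h0 : x 2 = y 2) (h1i : (x 1).im = (y 1).im)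
    (hm : (ldat .threeR b l r).d1 (lx x) (.inl 1) = 0)
    (hm' : (ldat .threeR b l r).d1 (lx y) (.inl 1) = 0)
    (hx : 0 < (x 1 - x 2).re) (hx' : (x 1 - x 2).re ≤ 1 / 2)
    (hy : 0 < (y 1 - y 2).re) (hy' : (y 1 - y 2).re ≤ 1 / 2) : x 1 = y 1 := by
  rw [end3R_mid b l r h2] at hm
  rw [end3R_mid b l r h2'] at hm'
  rw [h0, h1i] at hm
  have e : LL (x 1 - x 2) = LL (y 1 - y 2) := by rw [h0]; linarith only [hm, hm']
  have := LL_inj (by simp [h0, h1i]) hx hx' hy hy' e
  rw [h0] at this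
  exact sub_left_injective this

end

end Pool.Agent.Work.MP_b30479_gt.G2
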