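import Pool.Agent.Work.NumI.Expr

/-!
# Certificates with a given subdivision and alternatives

`T` is a binary tree; a leaf names the clause (a list of expressions, all positive) which holds on
its box.
-/

namespace Pool.Agent.Work.NumI

/-- subdivision: `a`, ..., `e` clauses `0`, ..., `4`; `x`, `y`, `z`, `w` bisect variable `0`, ..., `3` -/
inductive Tr
  | a | b | c | d | e
  | x (l r : Tr) | y (l r : Tr) | z (l r : Tr) | w (l r : Tr)

/-- all expressions are positive -/
def allP (env : List A) : List E → Bool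
  | [] => true
  | e :: es => cond (posO (e.ev env)) (allP env es) false

/-- the clause number `n` holds -/
def allN (env : List A) : List (List E) → ℕ → Bool
  | [], _ => false
  | c :: _, 0 => allP env c
  | _ :: t, n + 1 => allN env t n

/-- the checker -/
def runT (cs : List (List E)) : Tr → List V → Bool
  | .a, vs => allN (mkEnv 0 vs) cs 0
  | .b, vs => allN (mkEnv 0 vs) cs 1
  | .c, vs => allN (mkEnv 0 vs) cs 2
  | .d, vs => allN (mkEnv 0 vs) cs 3
  | .e, vs => allN (mkEnv 0 vs) cs 4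
  | .x l r, vs => cond (runT cs l (setL 0 vs)) (runT cs r (setR 0 vs)) false
  | .y l r, vs => cond (runT cs l (setL 1 vs)) (runT cs r (setR 1 vs)) false
  | .z l r, vs => cond (runT cs l (setL 2 vs)) (runT cs r (setR 2 vs)) false
  | .w l r, vs => cond (runT cs l (setL 3 vs)) (runT cs r (setR 3 vs)) false

theorem allP_spec {env : List A} {ε : ℕ → ℝ} {xs : List ℝ} (hε : ∀ i, |ε i| ≤ 1)
    (henv : List.Forall₂ (fun a x => a.Encl ε x) env xs) :
    ∀ {es : List E}, allP env es = true → ∀ e ∈ es, 0 < e.val xs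
  | [], _ => by simp
  | e :: es, h => by
    unfold allP at h
    rcases h1 : posO (e.ev env) with _ | _
    · rw [h1, cond_false] at h
      exact absurd h (by simp)
    · rw [h1, cond_true] at h
      intro e' he'
      rcases List.mem_cons.1 he' with rfl | he'
      · rcases h2 : e'.ev env with _ | c
        · rw [h2] at h1; exact absurd h1 (by simp [posO])
        · rw [h2] at h1
          exact posA_spec hε (E.ev_sound hε e' henv h2) h1
      · exact allP_spec hε henv h e' he'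

theorem allN_spec {env : List A} {ε : ℕ → ℝ} {xs : List ℝ} (hε : ∀ i, |ε i| ≤ 1)
    (henv : List.Forall₂ (fun a x => a.Encl ε x) env xs) :
    ∀ {cs : List (List E)} {n : ℕ}, allN env cs n = true → ∃ c ∈ cs, ∀ e ∈ c, 0 < e.val xs
  | [], _, h => absurd h (by simp [allN])
  | c :: _, 0, h => ⟨c, List.mem_cons_self, allP_spec hε henv h⟩
  | _ :: t, n + 1, h => by
    obtain ⟨c, hc, h'⟩ := allN_spec hε henv (cs := t) (n := n) h
    exact ⟨c, List.mem_cons_of_mem _ hc, h'⟩

theorem runT_sound {cs : List (List E)} : ∀ {T : Tr} {vs : List V}, runT cs T vs = true →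
    ∀ {xs : List ℝ}, List.Forall₂ V.Mem vs xs → ∃ c ∈ cs, ∀ e ∈ c, 0 < e.val xs := by
  have leaf : ∀ (n : ℕ) {vs : List V}, allN (mkEnv 0 vs) cs n = true →
      ∀ {xs : List ℝ}, List.Forall₂ V.Mem vs xs → ∃ c ∈ cs, ∀ e ∈ c, 0 < e.val xs :=
    fun n vs h xs hx => allN_spec (eps_le hx) (mkEnv_spec hx (fun n => rfl)) h
  have node : ∀ (i : ℕ) {l r : Tr},
      (∀ {vs : List V}, runT cs l vs = true → ∀ {xs : List ℝ}, List.Forall₂ V.Mem vs xs →
        ∃ c ∈ cs, ∀ e ∈ c, 0 < e.val xs) →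
      (∀ {vs : List V}, runT cs r vs = true → ∀ {xs : List ℝ}, List.Forall₂ V.Mem vs xs →
        ∃ c ∈ cs, ∀ e ∈ c, 0 < e.val xs) →
      ∀ {vs : List V}, cond (runT cs l (setL i vs)) (runT cs r (setR i vs)) false = true →
      ∀ {xs : List ℝ}, List.Forall₂ V.Mem vs xs → ∃ c ∈ cs, ∀ e ∈ c, 0 < e.val xs := by
    intro i l r hl hr vs h xs hx
    rcases h2 : runT cs l (setL i vs) with _ | _
    · rw [h2] at h; exact absurd h (by simp)
    · rw [h2, cond_true] at h
      rcases set_split (i := i) hx with h3 | h3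
      · exact hl h2 h3
      · exact hr h h3
  intro T
  induction T with
  | a => exact fun h => leaf 0 h
  | b => exact fun h => leaf 1 h
  | c => exact fun h => leaf 2 h
  | d => exact fun h => leaf 3 h
  | e => exact fun h => leaf 4 h
  | x l r hl hr => exact fun h => node 0 hl hr h
  | y l r hl hr => exact fun h => node 1 hl hr h
  | z l r hl hr => exact fun h => node 2 hl hr h
  | w l r hl hr => exact fun h => node 3 hl hr h

theorem runT2 {cs : List (List E)} {T : Tr} {N : ℕ} {l1 h1 l2 h2 : ℤ} {k1 k2 : ℕ}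
    (h : runT cs T [V.of N l1 h1 k1, V.of N l2 h2 k2] = true) (hN : 0 < N) {x y : ℝ}
    (a1 : (l1 : ℝ) / N ≤ x) (b1 : x ≤ (h1 : ℝ) / N)
    (a2 : (l2 : ℝ) / N ≤ y) (b2 : y ≤ (h2 : ℝ) / N) : ∃ c ∈ cs, ∀ e ∈ c, 0 < e.val [x, y] :=
  runT_sound h (List.Forall₂.cons (V.of_mem hN a1 b1) (List.Forall₂.cons (V.of_mem hN a2 b2)
    List.Forall₂.nil))

theorem runT3 {cs : List (List E)} {T : Tr} {N : ℕ} {l1 h1 l2 h2 l3 h3 : ℤ} {k1 k2 k3 : ℕ}
    (h : runT cs T [V.of N l1 h1 k1, V.of N l2 h2 k2, V.of N l3 h3 k3] = true) (hN : 0 < N)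
    {x y z : ℝ} (a1 : (l1 : ℝ) / N ≤ x) (b1 : x ≤ (h1 : ℝ) / N)
    (a2 : (l2 : ℝ) / N ≤ y) (b2 : y ≤ (h2 : ℝ) / N)
    (a3 : (l3 : ℝ) / N ≤ z) (b3 : z ≤ (h3 : ℝ) / N) : ∃ c ∈ cs, ∀ e ∈ c, 0 < e.val [x, y, z] :=
  runT_sound h (List.Forall₂.cons (V.of_mem hN a1 b1) (List.Forall₂.cons (V.of_mem hN a2 b2)
    (List.Forall₂.cons (V.of_mem hN a3 b3) List.Forall₂.nil)))

/-! ### search (for `#eval` only) -/

/-- the first clause which holds -/
def firstC (env : List A) : List (List E) → ℕ → Option ℕ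
  | [], _ => none
  | c :: t, n => if allP env c then some n else firstC env t (n + 1)

end Pool.Agent.Work.NumI
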