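import Pool.Agent.Work.MP_b30479_gt.G2.MLM
import Pool.Agent.Work.MP_b30479_gt.G2.MLT
import Pool.Agent.Work.MP_b30479_gt.G2.MPWall
import Pool.Agent.Work.MP_b30479_gt.G2.RLev

/-!
# Sides at slope `0`: rows with three variables

`w` is the own hinge, `x` the other hinge, `T` the height of the own hinge; the height of the other
hinge is `K`.
-/

namespace Pool.Agent.Work.MP_b30479_gt.G2

open Real Set VOL NumI NumI.E

namespace MF

/-! ### expressions: variables `w`, `x`, `T`; then `K`, `T + K` -/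

/-- factor of the height of the other hinge: `1` (`c = 0`) or `(X - x) / c` (thousandths) -/
def eTr (X : ℤ) : ℕ → E
  | 0 => q 1 1
  | c + 1 => mul (q 1000 (c + 1)) (sub (q X 1000) (var 1))

noncomputable def rTr (X : ℤ) (c : ℕ) (x : ℝ) : ℝ :=
  match c with
  | 0 => 1
  | c + 1 => 1000 / ((c : ℝ) + 1) * ((X : ℝ) / 1000 - x)

def eV (j : ℕ) (n e : ℤ) (K : E) : E :=
  lt K (lt (add (var 2) (var 3)) (sub (sub (add (mul E.pi (add (var 3) (mul (q n 10) (var 2))))
    (E.lnA (add (var 0) (var 1)) (var 4))) (mul (q j 1) (E.lnA (var 0) (var 2)))) (q e 1000)))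

def eM (K : E) : E :=
  sub (E.exp (mul (mul (q 2 1) E.pi) (add (var 2) K))) (cosPi (mul (q 2 1) (add (var 0) (var 1))))

def eW (j : ℕ) (n e : ℤ) : E :=
  sub (sub (add (mul E.pi (mul (q (n - 10) 10) (var 2)))
    (E.log (sinPi (mul (q 2 1) (sub (q 1 1) (add (var 0) (var 1)))))))
    (mul (q j 1) (E.lnA (var 0) (var 2)))) (q e 1000)

def kA (a X : ℤ) (c : ℕ) : E := mul (q a 10000) (eTr X c)
def kS (s X : ℤ) (c : ℕ) : E := mul (sub (q s 10000) (var 2)) (eTr X c)

/-- clauses of a row: `e` in thousandths, `a`, `s` in ten thousandths -/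
def row (j : ℕ) (n e a s X : ℤ) (c : ℕ) : List (List E) :=
  [[eV j n e (kA a X c), eM (kA a X c)], [eV j n e (kS s X c), eM (kS s X c)],
    [sub (add (var 0) (var 1)) (q 1 2), eW j n e]]

def bx (w0 w1 x0 x1 t0 t1 : ℤ) : List V := [V.of 10000 w0 w1 4, V.of 10000 x0 x1 4, V.of 10000 t0 t1 4]

/-- the side at slope `0` with the shift `n / 10 π` -/
noncomputable def fs (j : ℕ) (n : ℝ) (w x T K : ℝ) : ℝ :=
  π * (K + n / 10 * T) + lnA (w + x) (T + K) - j * lnA w T

variable {j c : ℕ} {n e a s X w0 w1 x0 x1 t0 t1 : ℤ} {w x T K : ℝ} {tr : Tr}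

theorem eTr_val (X : ℤ) (c : ℕ) (w x : ℝ) (t : List ℝ) : (eTr X c).val (w :: x :: t) = rTr X c x := by
  cases c
  · simp [eTr, rTr, val]
  · simp only [eTr, rTr, val, lkR_one]
    push_cast
    ring

theorem kA_val (a X : ℤ) (c : ℕ) (w x : ℝ) (t : List ℝ) :
    (kA a X c).val (w :: x :: t) = (a : ℝ) / 10000 * rTr X c x := by
  simp only [kA, val, eTr_val]
  push_cast
  ring

theorem kS_val (s X : ℤ) (c : ℕ) (w x T : ℝ) (t : List ℝ) :
    (kS s X c).val (w :: x :: T :: t) = ((s : ℝ) / 10000 - T) * rTr X c x := by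
  simp only [kS, val, eTr_val, lkR_succ, lkR_zero]
  push_cast
  ring

theorem eV_val {k : E} {κ : ℝ} (hk : k.val [w, x, T] = κ) :
    (eV j n e k).val [w, x, T] = fs j n w x T κ - (e : ℝ) / 1000 := by
  simp only [eV, val, lkR_zero, lkR_succ, List.cons_append, List.nil_append, hk, fs]
  push_cast
  ring

theorem eM_val {k : E} {κ : ℝ} (hk : k.val [w, x, T] = κ) (h : 0 < (eM k).val [w, x, T]) :
    cos (2 * π * (w + x)) + 0 * sin (2 * π * (w + x)) ≤ Real.exp (2 * π * (T + κ)) := by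
  simp only [eM, val, lkR_zero, lkR_succ, hk] at h
  push_cast at h
  have e1 : π * (2 / 1 * (w + x)) = 2 * π * (w + x) := by ring
  rw [e1, div_one] at h
  linarith only [h]

theorem eW_val (h : 0 < (eW j n e).val [w, x, T]) :
    (e : ℝ) / 1000 < π * ((n - 10) / 10 * T) + log (sin (2 * π * (1 - (w + x)))) - j * lnA w T := by
  simp only [eW, val, lkR_zero, lkR_succ] at h
  push_cast at h
  have e1 : π * (2 / 1 * (1 / 1 - (w + x))) = 2 * π * (1 - (w + x)) := by ring
  rw [e1, div_one] at h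
  linarith only [h]

theorem fs_mono (hw : 0 < w) (hx : 0 < x) (hs : w + x < 1) {κ : ℝ} (hk : κ ≤ K)
    (h : cos (2 * π * (w + x)) + 0 * sin (2 * π * (w + x)) ≤ Real.exp (2 * π * (T + κ))) :
    fs j n w x T κ ≤ fs j n w x T K := by
  have h1 := HH_mono (0 : ℝ) (by linarith only [hw, hx]) hs (show T + κ ≤ T + K by linarith only [hk]) h
  unfold HH at h1
  unfold fs
  linarith only [h1]

/-- **Soundness of a row.** -/
theorem row_of (h : runT (row j n e a s X c) tr (bx w0 w1 x0 x1 t0 t1) = true)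
    (hw : (w0 : ℝ) / 10000 ≤ w ∧ w ≤ (w1 : ℝ) / 10000)
    (hx : (x0 : ℝ) / 10000 ≤ x ∧ x ≤ (x1 : ℝ) / 10000)
    (hT : (t0 : ℝ) / 10000 ≤ T ∧ T ≤ (t1 : ℝ) / 10000) (hw' : 0 < w) (hx' : 0 < x)
    (hs : w + x < 1) (h1 : (a : ℝ) / 10000 * rTr X c x ≤ K)
    (h2 : ((s : ℝ) / 10000 - T) * rTr X c x ≤ K) :
    (e : ℝ) / 1000 < fs j n w x T K := by
  obtain ⟨cl, hcl, hp⟩ := runT3 h (by norm_num) (x := w) (y := x) (z := T) (by push_cast; exact hw.1)
    (by push_cast; exact hw.2) (by push_cast; exact hx.1) (by push_cast; exact hx.2)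
    (by push_cast; exact hT.1) (by push_cast; exact hT.2)
  simp only [row, List.mem_cons, List.not_mem_nil, or_false] at hcl
  rcases hcl with rfl | rfl | rfl
  · have g1 := hp _ List.mem_cons_self
    have g2 := hp _ (List.mem_cons_of_mem _ List.mem_cons_self)
    rw [eV_val (kA_val _ _ _ _ _ _)] at g1
    have g3 := fs_mono (j := j) (n := n) hw' hx' hs h1 (eM_val (kA_val _ _ _ _ _ _) g2)
    linarith only [g1, g3]
  · have g1 := hp _ List.mem_cons_self
    have g2 := hp _ (List.mem_cons_of_mem _ List.mem_cons_self)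
    rw [eV_val (kS_val _ _ _ _ _ _ _)] at g1
    have g3 := fs_mono (j := j) (n := n) hw' hx' hs h2 (eM_val (kS_val _ _ _ _ _ _ _) g2)
    linarith only [g1, g3]
  · have g1 := hp _ List.mem_cons_self
    have g2 := eW_val (hp _ (List.mem_cons_of_mem _ List.mem_cons_self))
    simp only [val, lkR_zero, lkR_succ] at g1
    push_cast at g1
    have g3 := HH_low' (a := w + x) (T + K) 0 (by linarith only [g1]) hs
    have g4 : g0 0 = 0 := by simp [g0]
    rw [g4] at g3
    unfold HH at g3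
    unfold fs
    linarith only [g2, g3]

/-! ### the side of a `2` at an end: variables `w`, `T` -/

def rowE (n e : ℤ) : List (List E) :=
  [[sub (sub (mul E.pi (mul (q n 10) (var 1))) (E.lnA (var 0) (var 1))) (q e 1000)]]

def bxE (w0 w1 t0 t1 : ℤ) : List V := [V.of 10000 w0 w1 4, V.of 10000 t0 t1 4]

theorem rowE_of (h : runT (rowE n e) tr (bxE w0 w1 t0 t1) = true)
    (hw : (w0 : ℝ) / 10000 ≤ w ∧ w ≤ (w1 : ℝ) / 10000)
    (hT : (t0 : ℝ) / 10000 ≤ T ∧ T ≤ (t1 : ℝ) / 10000) :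
    (e : ℝ) / 1000 < π * (n / 10 * T) - lnA w T := by
  obtain ⟨cl, hcl, hp⟩ := runT2 h (by norm_num) (x := w) (y := T) (by push_cast; exact hw.1)
    (by push_cast; exact hw.2) (by push_cast; exact hT.1) (by push_cast; exact hT.2)
  simp only [rowE, List.mem_cons, List.not_mem_nil, or_false] at hcl
  subst hcl
  have g1 := hp _ List.mem_cons_self
  simp only [val, lkR_zero, lkR_succ] at g1
  push_cast at g1
  linarith only [g1]

/-! ### the sides -/

theorem S1_fs (hw : 0 < w) (hx : 0 < x) (hs : w + x < 1) (n : ℝ) :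
    S1 1 0 (lv w T) (lv x K) + n / 10 * π * T = fs 1 n w x T K := by
  unfold S1 fs
  rw [lv_add, LL_lv _ (by linarith only [hw, hx]) hs, LL_lv _ hw (by linarith only [hx, hs]), lv_im]
  push_cast
  ring

theorem S2_fs (hw : 0 < w) (hx : 0 < x) (hs : w + x < 1) (n : ℝ) :
    S2 1 0 (lv w T) (lv x K) + (n + 10) / 10 * π * T = fs 2 n w x T K := by
  unfold S2 fs
  rw [lv_add, LL_lv _ (by linarith only [hw, hx]) hs, LL_lv _ hw (by linarith only [hx, hs]), lv_im, lv_im]
  push_cast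
  ring

theorem S2E_fs (hw : 0 < w) (hs : w < 1) (n : ℝ) :
    S2 1 0 (lv w T) 0 + (n + 10) / 10 * π * T = π * (n / 10 * T) - lnA w T := by
  unfold S2
  rw [add_zero, LL_lv _ hw hs, lv_im]
  simp only [Complex.zero_im, Complex.zero_re]
  ring

end MF

end Pool.Agent.Work.MP_b30479_gt.G2
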