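import Pool.Agent.Work.MP_b30479_gt.G2.MFA

/-!
# Conditional floors: certificates

Generated.
-/

namespace Pool.Agent.Work.MP_b30479_gt.G2.MF

open NumI NumI.E

theorem a2_0 : runT (row 1 10 540 460 780 0 0)
    (.x .a (.z (.x .a (.z .b (.x .a (.z (.x .a (.y .a (.z .b (.x .a (.y .a (.z .b .a)))))) .a)))) .a))
    (bx 1600 2341 4000 4250 100 770) = true := by decide +kernel

theorem aE_0 : runT (row 1 10 359 870 510 0 0)
    (.x .a (.x .a (.x .a .b)))
    (bx 1400 2466 4000 4250 (-450) (-250)) = true := by decide +kernel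

theorem a1_0 : runT (row 1 0 627 390 420 0 0)
    (.x .a (.x .a (.x .a (.z (.z .b .a) (.z .a .a)))))
    (bx 1500 1915 4000 4250 (-160) 500) = true := by decide +kernel

theorem g1_0 : runT (row 1 0 385 180 110 0 0)
    .a
    (bx 1500 1915 4000 4250 (-360) 400) = true := by decide +kernel

theorem h1_0 : runT (row 1 0 276 440 70 0 0)
    .a
    (bx 1500 1915 4000 4250 (-550) (-320)) = true := by decide +kernel

theorem b2_0_0 : runT (row 2 0 (-539) (-985) (-9000) 0 0)
    (.x (.y .a .a) (.x (.y .a .a) (.y .a (.y .a .a))))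
    (bx 1600 2341 1000 5100 (-770) (-100)) = true := by decide +kernel

theorem b2_0_1 : runT (row 2 0 (-539) (-985) (-9000) 800 290)
    (.x .a .a)
    (bx 1600 2341 5100 5350 (-770) (-100)) = true := by decide +kernel

theorem b2_0_2 : runT (row 2 0 (-539) (-800) (-9000) 800 290)
    (.x .a (.x .a (.x .a (.x .a (.y .a (.z .a (.z .a .a)))))))
    (bx 1600 2341 5350 5600 (-770) (-100)) = true := by decide +kernel

theorem bE_0 : runT (rowE 0 (-358))
    (.x .a (.x .a (.x .a .a)))
    (bxE 1400 2466 250 450) = true := by decide +kernel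

theorem b1_0_0 : runT (row 1 0 (-626) (-690) (-670) 0 0)
    (.y .a (.y .a .a))
    (bx 1500 1915 1250 6000 (-500) 160) = true := by decide +kernel

theorem b1_0_1 : runT (row 1 0 (-626) (-690) (-670) 800 200)
    (.y .b (.x .c (.y .c (.x .c (.z .c (.y .b (.x .b (.z .c (.y .a (.z .a .a))))))))))
    (bx 1500 1915 6000 7000 (-500) 160) = true := by decide +kernel

theorem c1_0 : runT (row 1 0 (-384) (-60) (-9000) 0 0)
    (.y (.y .a .a) (.y .a (.y .a .a)))
    (bx 1500 1915 1100 6500 (-400) 360) = true := by decide +kernel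

theorem d1_0 : runT (row 1 0 (-275) (-600) (-9000) 0 0)
    (.y .a .a)
    (bx 1500 1915 1250 3700 320 550) = true := by decide +kernel

theorem a2_1 : runT (row 1 10 511 460 780 0 0)
    (.x .a (.z (.x .a (.z .b (.x .a (.z (.y .a (.x .a (.z .b (.z .b .a)))) .a)))) .a))
    (bx 1600 2313 4250 4500 100 770) = true := by decide +kernel

theorem aE_1 : runT (row 1 10 341 870 510 0 0)
    (.x .a (.x .a (.x .a .b)))
    (bx 1400 2407 4250 4500 (-450) (-250)) = true := by decide +kernel

theorem a1_1 : runT (row 1 0 606 390 420 0 0)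
    (.x .a (.x .a (.x .a (.y (.z .a .a) (.z (.z .b .a) (.z .a .a))))))
    (bx 1500 1899 4250 4500 (-160) 500) = true := by decide +kernel

theorem g1_1 : runT (row 1 0 365 180 110 0 0)
    .a
    (bx 1500 1899 4250 4500 (-360) 400) = true := by decide +kernel

theorem h1_1 : runT (row 1 0 261 440 70 0 0)
    .a
    (bx 1500 1899 4250 4500 (-550) (-320)) = true := by decide +kernel

theorem b2_1_0 : runT (row 2 0 (-510) (-985) (-9000) 0 0)
    (.x (.y .a .a) (.x .b (.y .a (.y .a .a))))
    (bx 1600 2313 1000 5100 (-770) (-100)) = true := by decide +kernel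

theorem b2_1_1 : runT (row 2 0 (-510) (-985) (-9000) 800 290)
    (.x .a .a)
    (bx 1600 2313 5100 5350 (-770) (-100)) = true := by decide +kernel

theorem b2_1_2 : runT (row 2 0 (-510) (-800) (-9000) 800 290)
    (.x .a (.x .a (.x .a (.x .a (.y .a (.z .a (.z .a .a)))))))
    (bx 1600 2313 5350 5600 (-770) (-100)) = true := by decide +kernel

theorem bE_1 : runT (rowE 0 (-340))
    (.x .a (.x .a (.x .a .a)))
    (bxE 1400 2407 250 450) = true := by decide +kernel

theorem b1_1_0 : runT (row 1 0 (-605) (-690) (-670) 0 0)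
    (.y .a (.y .a .a))
    (bx 1500 1899 1250 6000 (-500) 160) = true := by decide +kernel

theorem b1_1_1 : runT (row 1 0 (-605) (-690) (-670) 800 200)
    (.y .b (.x .c (.y .b (.x .c (.z .c (.y .b (.x .b (.z .c (.y .a (.z .a .a))))))))))
    (bx 1500 1899 6000 7000 (-500) 160) = true := by decide +kernel

theorem c1_1 : runT (row 1 0 (-364) (-60) (-9000) 0 0)
    (.y (.y .a .a) (.y .a (.y .a .a)))
    (bx 1500 1899 1100 6500 (-400) 360) = true := by decide +kernel

theorem d1_1 : runT (row 1 0 (-260) (-600) (-9000) 0 0)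
    (.y .a .a)
    (bx 1500 1899 1250 3700 320 550) = true := by decide +kernel

theorem a2_2 : runT (row 1 10 478 460 780 0 0)
    (.x .a (.z (.x .a (.z .b (.x .a (.z (.y .a (.x .a (.z .b (.z .b .a)))) .a)))) .a))
    (bx 1600 2282 4500 4750 100 770) = true := by decide +kernel

theorem aE_2 : runT (row 1 10 320 870 510 0 0)
    (.x .a (.x .a (.x .a .b)))
    (bx 1400 2344 4500 4750 (-450) (-250)) = true := by decide +kernel

theorem a1_2 : runT (row 1 0 580 390 420 0 0)
    (.x .a (.x .a (.x .a (.y (.z .a .a) (.z (.z .b .a) (.z .a .a))))))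
    (bx 1500 1879 4500 4750 (-160) 500) = true := by decide +kernel

theorem g1_2 : runT (row 1 0 341 180 110 0 0)
    .a
    (bx 1500 1879 4500 4750 (-360) 400) = true := by decide +kernel

theorem h1_2 : runT (row 1 0 244 440 70 0 0)
    .a
    (bx 1500 1879 4500 4750 (-550) (-320)) = true := by decide +kernel

theorem b2_2_0 : runT (row 2 0 (-477) (-985) (-9000) 0 0)
    (.x (.y .a .a) (.x .b (.y .a (.y .a .a))))
    (bx 1600 2282 1000 5100 (-770) (-100)) = true := by decide +kernel

theorem b2_2_1 : runT (row 2 0 (-477) (-985) (-9000) 800 290)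
    (.x .a .a)
    (bx 1600 2282 5100 5350 (-770) (-100)) = true := by decide +kernel

theorem b2_2_2 : runT (row 2 0 (-477) (-800) (-9000) 800 290)
    (.x .a (.x .a (.x .a (.x .a (.y .a (.z .a (.z .a .a)))))))
    (bx 1600 2282 5350 5600 (-770) (-100)) = true := by decide +kernel

theorem bE_2 : runT (rowE 0 (-319))
    (.x .a (.x .a (.x .a .a)))
    (bxE 1400 2344 250 450) = true := by decide +kernel

theorem b1_2_0 : runT (row 1 0 (-579) (-690) (-670) 0 0)
    (.y .a (.y .a .a))
    (bx 1500 1879 1250 6000 (-500) 160) = true := by decide +kernel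

theorem b1_2_1 : runT (row 1 0 (-579) (-690) (-670) 800 200)
    (.y .b (.x .c (.y .b (.x .c (.z .c (.y .b (.x .b (.z .b (.y .a (.z .a .a))))))))))
    (bx 1500 1879 6000 7000 (-500) 160) = true := by decide +kernel

theorem c1_2 : runT (row 1 0 (-340) (-60) (-9000) 0 0)
    (.y (.y .a .a) (.y .a (.y .a .a)))
    (bx 1500 1879 1100 6500 (-400) 360) = true := by decide +kernel

theorem d1_2 : runT (row 1 0 (-243) (-600) (-9000) 0 0)
    (.y .a .a)
    (bx 1500 1879 1250 3700 320 550) = true := by decide +kernel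

theorem a2_3 : runT (row 1 10 441 460 780 0 0)
    (.x .a (.z (.x .a (.z .b (.x .a (.z (.y .a (.x .a (.y .b (.z .b (.z .b .a))))) .a)))) .a))
    (bx 1600 2248 4750 5000 100 770) = true := by decide +kernel

theorem aE_3 : runT (row 1 10 298 870 510 0 0)
    (.x .a (.x .a (.x .a .b)))
    (bx 1400 2277 4750 5000 (-450) (-250)) = true := by decide +kernel

theorem a1_3 : runT (row 1 0 550 390 420 0 0)
    (.x .a (.x .a (.x .a (.y (.z .a .a) (.z (.z .b (.x .a (.y .a (.x .a (.y .a (.z (.x .a (.z (.z .b
    .a) .a)) .a)))))) (.z .a .a))))))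
    (bx 1500 1856 4750 5000 (-160) 500) = true := by decide +kernel

theorem g1_3 : runT (row 1 0 314 180 110 0 0)
    .a
    (bx 1500 1856 4750 5000 (-360) 400) = true := by decide +kernel

theorem h1_3 : runT (row 1 0 223 440 70 0 0)
    .a
    (bx 1500 1856 4750 5000 (-550) (-320)) = true := by decide +kernel

theorem b2_3_0 : runT (row 2 0 (-440) (-985) (-9000) 0 0)
    (.x (.y .a .a) (.x .b (.y .a (.y .a .a))))
    (bx 1600 2248 1000 5100 (-770) (-100)) = true := by decide +kernel

theorem b2_3_1 : runT (row 2 0 (-440) (-985) (-9000) 800 290)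
    (.x .a (.x .a .a))
    (bx 1600 2248 5100 5350 (-770) (-100)) = true := by decide +kernel

theorem b2_3_2 : runT (row 2 0 (-440) (-800) (-9000) 800 290)
    (.x .a (.x .a (.x .a (.x .a (.y .a (.z .a (.z .a .a)))))))
    (bx 1600 2248 5350 5600 (-770) (-100)) = true := by decide +kernel

theorem bE_3 : runT (rowE 0 (-297))
    (.x .a (.x .a (.x .a .a)))
    (bxE 1400 2277 250 450) = true := by decide +kernel

theorem b1_3_0 : runT (row 1 0 (-549) (-690) (-670) 0 0)
    (.y .a (.y .a .a))
    (bx 1500 1856 1250 6000 (-500) 160) = true := by decide +kernel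

theorem b1_3_1 : runT (row 1 0 (-549) (-690) (-670) 800 200)
    (.y .b (.x .c (.y .b (.x .c (.z .c (.y .b (.x .b (.z .b (.y .a (.z .a .a))))))))))
    (bx 1500 1856 6000 7000 (-500) 160) = true := by decide +kernel

theorem c1_3 : runT (row 1 0 (-313) (-60) (-9000) 0 0)
    (.y (.y .a .a) (.y .a (.y .a .a)))
    (bx 1500 1856 1100 6500 (-400) 360) = true := by decide +kernel

theorem d1_3 : runT (row 1 0 (-222) (-600) (-9000) 0 0)
    (.y .a .a)
    (bx 1500 1856 1250 3700 320 550) = true := by decide +kernel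

theorem a2_4 : runT (row 1 10 375 460 780 650 150)
    (.x .a (.z (.x .a (.x .b (.x .b (.z .b (.y .a .b))))) .a))
    (bx 1600 2187 5000 5250 100 770) = true := by decide +kernel

theorem aE_4 : runT (row 1 10 250 870 510 650 150)
    (.x .a (.x .a (.x .a .b)))
    (bx 1400 2145 5000 5250 (-450) (-250)) = true := by decide +kernel

theorem a1_4 : runT (row 1 0 499 390 420 650 150)
    (.x .a (.x .a (.y .a (.x (.y .a .a) (.y (.z .a .a) (.z (.z .b (.x .a (.y .a (.x .a (.z (.z .a .a)
    .a))))) (.z .a .a)))))))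
    (bx 1500 1816 5000 5250 (-160) 500) = true := by decide +kernel

theorem g1_4 : runT (row 1 0 274 180 110 650 150)
    .a
    (bx 1500 1816 5000 5250 (-360) 400) = true := by decide +kernel

theorem h1_4 : runT (row 1 0 188 440 70 650 150)
    .a
    (bx 1500 1816 5000 5250 (-550) (-320)) = true := by decide +kernel

theorem b2_4_0 : runT (row 2 0 (-374) (-985) (-9000) 0 0)
    (.x (.y .a .a) (.x .b (.y (.y .a .a) (.y .a .a))))
    (bx 1600 2187 1000 5100 (-770) (-100)) = true := by decide +kernel

theorem b2_4_1 : runT (row 2 0 (-374) (-985) (-9000) 800 290)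
    (.x .a (.x .a .a))
    (bx 1600 2187 5100 5350 (-770) (-100)) = true := by decide +kernel

theorem b2_4_2 : runT (row 2 0 (-374) (-800) (-9000) 800 290)
    (.x .a (.x .a (.x .a (.x .a (.y .a (.z .a (.z .a .a)))))))
    (bx 1600 2187 5350 5600 (-770) (-100)) = true := by decide +kernel

theorem bE_4 : runT (rowE 0 (-249))
    (.x .a (.x .a (.x .a .a)))
    (bxE 1400 2145 250 450) = true := by decide +kernel

theorem b1_4_0 : runT (row 1 0 (-498) (-690) (-670) 0 0)
    (.y .a .b)
    (bx 1500 1816 1250 6000 (-500) 160) = true := by decide +kernel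

theorem b1_4_1 : runT (row 1 0 (-498) (-690) (-670) 800 200)
    (.y .b (.x .c (.y .b (.x .c (.z .c (.y .a (.x .b (.z .b (.y .a (.z .a .a))))))))))
    (bx 1500 1816 6000 7000 (-500) 160) = true := by decide +kernel

theorem c1_4 : runT (row 1 0 (-273) (-60) (-9000) 0 0)
    (.y (.y .a .a) (.y .a (.y .a .a)))
    (bx 1500 1816 1100 6500 (-400) 360) = true := by decide +kernel

theorem d1_4 : runT (row 1 0 (-187) (-600) (-9000) 0 0)
    (.y .a .a)
    (bx 1500 1816 1250 3700 320 550) = true := by decide +kernel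

theorem a2_5 : runT (row 1 10 301 460 780 650 150)
    (.x .a (.z (.x .a (.z (.x .b .b) .b)) .a))
    (bx 1600 2117 5250 5500 100 770) = true := by decide +kernel

theorem aE_5 : runT (row 1 10 202 870 510 650 150)
    (.x .a (.x .a (.y .a (.x .a .b))))
    (bx 1400 2021 5250 5500 (-450) (-250)) = true := by decide +kernel

theorem a1_5 : runT (row 1 0 444 390 420 650 150)
    (.x .a (.x .a (.y .a (.x (.z .a .a) (.y (.z .a .a) (.z (.z .b .a) (.x .a (.y .a (.z .a .a)))))))))
    (bx 1500 1772 5250 5500 (-160) 500) = true := by decide +kernel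

theorem g1_5 : runT (row 1 0 232 180 110 650 150)
    .a
    (bx 1500 1772 5250 5500 (-360) 400) = true := by decide +kernel

theorem h1_5 : runT (row 1 0 152 440 70 650 150)
    .a
    (bx 1500 1772 5250 5500 (-550) (-320)) = true := by decide +kernel

theorem b2_5_0 : runT (row 2 0 (-300) (-985) (-9000) 0 0)
    (.x (.y .a .a) (.x (.y .a .a) (.y (.y .a .a) (.y .a .a))))
    (bx 1600 2117 1000 5100 (-770) (-100)) = true := by decide +kernel

theorem b2_5_1 : runT (row 2 0 (-300) (-985) (-9000) 800 290)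
    (.x .a (.x .a .a))
    (bx 1600 2117 5100 5350 (-770) (-100)) = true := by decide +kernel

theorem b2_5_2 : runT (row 2 0 (-300) (-800) (-9000) 800 290)
    (.x .a (.x .a (.x .a (.x (.y .a .a) (.y .a (.z (.z (.z .a .a) .a) .a))))))
    (bx 1600 2117 5350 5600 (-770) (-100)) = true := by decide +kernel

theorem bE_5 : runT (rowE 0 (-201))
    (.x .a (.x .a (.x .a .a)))
    (bxE 1400 2021 250 450) = true := by decide +kernel

theorem b1_5_0 : runT (row 1 0 (-443) (-690) (-670) 0 0)
    (.y .a .b)
    (bx 1500 1772 1250 6000 (-500) 160) = true := by decide +kernel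

theorem b1_5_1 : runT (row 1 0 (-443) (-690) (-670) 800 200)
    (.y .b (.x .c (.y .b (.z .c (.x .a (.y .a (.z .a (.x .a (.z .a .a)))))))))
    (bx 1500 1772 6000 7000 (-500) 160) = true := by decide +kernel

theorem c1_5 : runT (row 1 0 (-231) (-60) (-9000) 0 0)
    (.y (.y .a .a) (.y .a (.y .a .a)))
    (bx 1500 1772 1100 6500 (-400) 360) = true := by decide +kernel

theorem d1_5 : runT (row 1 0 (-151) (-600) (-9000) 0 0)
    (.y .a .a)
    (bx 1500 1772 1250 3700 320 550) = true := by decide +kernel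

theorem a2_6 : runT (row 1 5 204 460 780 650 150)
    (.x .a (.x .a (.z (.y .a (.x .b (.x .b (.y .b (.z .b (.z (.y .a .b) .a)))))) .a)))
    (bx 1600 2048 5500 5750 100 770) = true := by decide +kernel

theorem aE_6 : runT (row 1 10 153 870 510 650 150)
    (.x .a (.x .a (.y .a (.x .a .b))))
    (bx 1400 1904 5500 5750 (-450) (-250)) = true := by decide +kernel

theorem a1_6 : runT (row 1 0 384 390 420 650 150)
    (.x .a (.y .a (.x .a (.y (.z .a .a) (.x (.z .a .a) (.z (.z .b .a) (.z .a .a)))))))
    (bx 1500 1724 5500 5750 (-160) 500) = true := by decide +kernel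

theorem g1_6 : runT (row 1 0 186 180 110 650 150)
    .a
    (bx 1500 1724 5500 5750 (-360) 400) = true := by decide +kernel

theorem h1_6 : runT (row 1 0 113 440 70 650 150)
    .a
    (bx 1500 1724 5500 5750 (-550) (-320)) = true := by decide +kernel

theorem b2_6_0 : runT (row 2 (-5) (-203) (-985) (-9000) 0 0)
    (.x (.y .a .a) (.y (.y .a .a) (.y .a .a)))
    (bx 1600 2048 1000 5100 (-770) (-100)) = true := by decide +kernel

theorem b2_6_1 : runT (row 2 (-5) (-203) (-985) (-9000) 800 290)
    (.x .a .a)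
    (bx 1600 2048 5100 5350 (-770) (-100)) = true := by decide +kernel

theorem b2_6_2 : runT (row 2 (-5) (-203) (-800) (-9000) 800 290)
    (.x .a (.x .a (.x .a (.z .a (.z .a (.y .a .a))))))
    (bx 1600 2048 5350 5600 (-770) (-100)) = true := by decide +kernel

theorem bE_6 : runT (rowE 0 (-152))
    (.x .a (.x .a .a))
    (bxE 1400 1904 250 450) = true := by decide +kernel

theorem b1_6_0 : runT (row 1 0 (-383) (-690) (-670) 0 0)
    (.y .a .b)
    (bx 1500 1724 1250 6000 (-500) 160) = true := by decide +kernel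

theorem b1_6_1 : runT (row 1 0 (-383) (-690) (-670) 800 200)
    (.y .a (.y .b (.x .b (.z .c (.y .a (.x .a (.z .a (.z .a .a))))))))
    (bx 1500 1724 6000 7000 (-500) 160) = true := by decide +kernel

theorem c1_6 : runT (row 1 0 (-185) (-60) (-9000) 0 0)
    (.y (.y .a .a) (.y .a (.y .a .a)))
    (bx 1500 1724 1100 6500 (-400) 360) = true := by decide +kernel

theorem d1_6 : runT (row 1 0 (-112) (-600) (-9000) 0 0)
    (.y .a .a)
    (bx 1500 1724 1250 3700 320 550) = true := by decide +kernel

theorem a2_7 : runT (row 1 5 120 460 780 650 150)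
    (.x .a (.x .a (.z (.y .a (.x .a (.z .b .a))) .a)))
    (bx 1600 1975 5750 6000 100 770) = true := by decide +kernel

theorem aE_7 : runT (row 1 10 104 870 510 650 150)
    (.x .a (.x .a (.y .a (.z (.x .a .b) .a))))
    (bx 1400 1794 5750 6000 (-450) (-250)) = true := by decide +kernel

theorem a1_7 : runT (row 1 0 320 390 420 650 150)
    (.x .a (.y .a (.x .a (.y .a (.x (.z .a .a) (.z (.z .b .a) (.y .a (.z .a .a))))))))
    (bx 1500 1673 5750 6000 (-160) 500) = true := by decide +kernel

theorem g1_7 : runT (row 1 0 137 180 110 650 150)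
    .a
    (bx 1500 1673 5750 6000 (-360) 400) = true := by decide +kernel

theorem h1_7 : runT (row 1 0 72 440 70 650 150)
    .a
    (bx 1500 1673 5750 6000 (-550) (-320)) = true := by decide +kernel

theorem b2_7_0 : runT (row 2 (-5) (-119) (-985) (-9000) 0 0)
    (.x (.y .a .a) (.y (.y .a .a) (.y .a .a)))
    (bx 1600 1975 1000 5100 (-770) (-100)) = true := by decide +kernel

theorem b2_7_1 : runT (row 2 (-5) (-119) (-985) (-9000) 800 290)
    (.x .a .a)
    (bx 1600 1975 5100 5350 (-770) (-100)) = true := by decide +kernel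

theorem b2_7_2 : runT (row 2 (-5) (-119) (-800) (-9000) 800 290)
    (.x .a (.x .a (.x .a (.z .a (.z .a .a)))))
    (bx 1600 1975 5350 5600 (-770) (-100)) = true := by decide +kernel

theorem bE_7 : runT (rowE 0 (-103))
    (.x .a (.x .a .a))
    (bxE 1400 1794 250 450) = true := by decide +kernel

theorem b1_7_0 : runT (row 1 0 (-319) (-690) (-670) 0 0)
    (.y .a .a)
    (bx 1500 1673 1250 6000 (-500) 160) = true := by decide +kernel

theorem b1_7_1 : runT (row 1 0 (-319) (-690) (-670) 800 200)
    (.y .a (.y .b (.x .b (.z .b (.y .a (.x .a (.y .a (.z .a (.x .a (.z .a .a))))))))))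
    (bx 1500 1673 6000 7000 (-500) 160) = true := by decide +kernel

theorem c1_7 : runT (row 1 0 (-136) (-60) (-9000) 0 0)
    (.y (.y .a .a) (.y .a .a))
    (bx 1500 1673 1100 6500 (-400) 360) = true := by decide +kernel

theorem d1_7 : runT (row 1 0 (-71) (-600) (-9000) 0 0)
    (.y .a .a)
    (bx 1500 1673 1250 3700 320 550) = true := by decide +kernel

theorem a2_8 : runT (row 1 5 31 460 780 650 150)
    (.x .a (.y .a (.z (.x .a (.z (.y .a .b) .a)) .a)))
    (bx 1600 1900 6000 6250 100 770) = true := by decide +kernel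

theorem aE_8 : runT (row 1 10 54 870 510 650 150)
    (.x .a (.y .a (.x .a (.z (.y .a .b) .a))))
    (bx 1400 1690 6000 6250 (-450) (-250)) = true := by decide +kernel

theorem a1_8 : runT (row 1 0 252 390 420 650 150)
    (.y .a (.x .a (.y (.x .a .a) (.x (.z .a .a) (.z .a (.y .a (.z .a .a)))))))
    (bx 1500 1617 6000 6250 (-160) 500) = true := by decide +kernel

theorem g1_8 : runT (row 1 0 83 180 110 650 150)
    .a
    (bx 1500 1617 6000 6250 (-360) 400) = true := by decide +kernel

theorem h1_8 : runT (row 1 0 30 440 70 650 150)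
    .a
    (bx 1500 1617 6000 6250 (-550) (-320)) = true := by decide +kernel

theorem b2_8_0 : runT (row 2 (-5) (-30) (-985) (-9000) 0 0)
    (.x (.y (.y .a .a) .a) (.y (.y .a .a) (.y .a .a)))
    (bx 1600 1900 1000 5100 (-770) (-100)) = true := by decide +kernel

theorem b2_8_1 : runT (row 2 (-5) (-30) (-985) (-9000) 800 290)
    (.x .a .a)
    (bx 1600 1900 5100 5350 (-770) (-100)) = true := by decide +kernel

theorem b2_8_2 : runT (row 2 (-5) (-30) (-800) (-9000) 800 290)
    (.x .a (.x .a (.x .a (.z .a (.z .a .a)))))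
    (bx 1600 1900 5350 5600 (-770) (-100)) = true := by decide +kernel

theorem bE_8 : runT (rowE 0 (-53))
    (.x .a (.x .a .a))
    (bxE 1400 1690 250 450) = true := by decide +kernel

theorem b1_8_0 : runT (row 1 0 (-251) (-690) (-670) 0 0)
    (.y .a .a)
    (bx 1500 1617 1250 6000 (-500) 160) = true := by decide +kernel

theorem b1_8_1 : runT (row 1 0 (-251) (-690) (-670) 800 200)
    (.y .a (.y .b (.x .b (.y .b (.z .b (.y .a (.z .a (.z .a .a))))))))
    (bx 1500 1617 6000 7000 (-500) 160) = true := by decide +kernel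

theorem c1_8 : runT (row 1 0 (-82) (-60) (-9000) 0 0)
    (.y (.y .a .a) (.y .a .a))
    (bx 1500 1617 1100 6500 (-400) 360) = true := by decide +kernel

theorem d1_8 : runT (row 1 0 (-29) (-600) (-9000) 0 0)
    (.y .a .a)
    (bx 1500 1617 1250 3700 320 550) = true := by decide +kernel

theorem a2_9 : runT (row 1 5 (-62) 460 780 650 150)
    (.x .a (.y .a (.z (.x .a (.y .a (.z (.z .a .a) .a))) .a)))
    (bx 1600 1824 6250 6500 100 770) = true := by decide +kernel

theorem aE_9 : runT (row 1 10 5 870 510 650 150)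
    (.x .a (.y .a (.x .a (.z (.y .a .a) .a))))
    (bx 1400 1594 6250 6500 (-450) (-250)) = true := by decide +kernel

theorem a1_9 : runT (row 1 0 179 390 420 650 150)
    (.y .a (.z .a (.y .a (.x .a (.y .a (.z .a (.z .a .a)))))))
    (bx 1500 1558 6250 6500 (-160) 500) = true := by decide +kernel

theorem g1_9 : runT (row 1 0 25 180 110 650 150)
    .a
    (bx 1500 1558 6250 6500 (-360) 400) = true := by decide +kernel

theorem h1_9 : runT (row 1 0 (-12) 440 70 650 150)
    .a
    (bx 1500 1558 6250 6500 (-550) (-320)) = true := by decide +kernel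

theorem b2_9_0 : runT (row 2 (-5) 63 (-985) (-9000) 0 0)
    (.y (.y (.y (.x .a (.y (.z .a .a) .a)) .a) .a) (.y .a .a))
    (bx 1600 1824 1000 5100 (-770) (-100)) = true := by decide +kernel

theorem b2_9_1 : runT (row 2 (-5) 63 (-985) (-9000) 800 290)
    (.z .a .a)
    (bx 1600 1824 5100 5350 (-770) (-100)) = true := by decide +kernel

theorem b2_9_2 : runT (row 2 (-5) 63 (-800) (-9000) 800 290)
    (.x .a (.x .a (.x .a (.z .a (.z .a .a)))))
    (bx 1600 1824 5350 5600 (-770) (-100)) = true := by decide +kernel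

theorem bE_9 : runT (rowE 0 (-4))
    (.x .a .a)
    (bxE 1400 1594 250 450) = true := by decide +kernel

theorem b1_9_0 : runT (row 1 0 (-178) (-690) (-670) 0 0)
    (.y .a .a)
    (bx 1500 1558 1250 6000 (-500) 160) = true := by decide +kernel

theorem b1_9_1 : runT (row 1 0 (-178) (-690) (-670) 800 200)
    (.y .a (.y .a (.y .b (.z .b (.x .a (.y .a (.z .a (.y .a (.z .a .a)))))))))
    (bx 1500 1558 6000 7000 (-500) 160) = true := by decide +kernel

theorem c1_9 : runT (row 1 0 (-24) (-60) (-9000) 0 0)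
    (.y (.y .a .a) (.y .a .a))
    (bx 1500 1558 1100 6500 (-400) 360) = true := by decide +kernel

theorem d1_9 : runT (row 1 0 13 (-600) (-9000) 0 0)
    (.y .a .a)
    (bx 1500 1558 1250 3700 320 550) = true := by decide +kernel

end Pool.Agent.Work.MP_b30479_gt.G2.MF
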