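import Pool.Agent.Work.MP_b30479_gt.G2.MFB

/-!
# Conditional floors: real inequalities

`x` is the hinge `1 | 3`, `w` the other hinge of the digit `1`.  Generated.
-/

namespace Pool.Agent.Work.MP_b30479_gt.G2

open Real Set VOL NumI NumI.E

namespace MF

/-- the ranges of `x` -/
def xi : ℕ → ℤ
  | 0 => 4000
  | 1 => 4250
  | 2 => 4500
  | 3 => 4750
  | 4 => 5000
  | 5 => 5250
  | 6 => 5500
  | 7 => 5750
  | 8 => 6000
  | 9 => 6250
  | _ => 6500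

/-- conditional floors of `2 | 1` -/
def fl2 : ℕ → ℤ
  | 0 => 2341
  | 1 => 2313
  | 2 => 2282
  | 3 => 2248
  | 4 => 2187
  | 5 => 2117
  | 6 => 2048
  | 7 => 1975
  | 8 => 1900
  | _ => 1824

/-- conditional floors of `2 | 1`, the `2` at an end -/
def flE : ℕ → ℤ
  | 0 => 2466
  | 1 => 2407
  | 2 => 2344
  | 3 => 2277
  | 4 => 2145
  | 5 => 2021
  | 6 => 1904
  | 7 => 1794
  | 8 => 1690
  | _ => 1594

/-- conditional floors of `1 | 1` -/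
def fl1 : ℕ → ℤ
  | 0 => 1915
  | 1 => 1899
  | 2 => 1879
  | 3 => 1856
  | 4 => 1816
  | 5 => 1772
  | 6 => 1724
  | 7 => 1673
  | 8 => 1617
  | _ => 1558

/-- shifts (tenths of `π`) -/
def sh2 : ℕ → ℤ
  | 0 => 10
  | 1 => 10
  | 2 => 10
  | 3 => 10
  | 4 => 10
  | 5 => 10
  | 6 => 5
  | 7 => 5
  | 8 => 5
  | _ => 5

/-- bounds for the side of the `1` at `2 | 1` -/
def ea2 : ℕ → ℤ
  | 0 => 540
  | 1 => 511
  | 2 => 478
  | 3 => 441
  | 4 => 375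
  | 5 => 301
  | 6 => 204
  | 7 => 120
  | 8 => 31
  | _ => (-62)

/-- bounds for the side of the `1` at `2 | 1`, the `2` at an end -/
def eaE : ℕ → ℤ
  | 0 => 359
  | 1 => 341
  | 2 => 320
  | 3 => 298
  | 4 => 250
  | 5 => 202
  | 6 => 153
  | 7 => 104
  | 8 => 54
  | _ => 5

/-- bounds for the side of the `1` at `1 | 1`, far neighbour a `1` -/
def ea1 : ℕ → ℤ
  | 0 => 627
  | 1 => 606
  | 2 => 580
  | 3 => 550
  | 4 => 499
  | 5 => 444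
  | 6 => 384
  | 7 => 320
  | 8 => 252
  | _ => 179

/-- bounds for the side of the `1` at `1 | 1`, general -/
def eg1 : ℕ → ℤ
  | 0 => 385
  | 1 => 365
  | 2 => 341
  | 3 => 314
  | 4 => 274
  | 5 => 232
  | 6 => 186
  | 7 => 137
  | 8 => 83
  | _ => 25

/-- bounds for the side of the `1` at `1 | 1`, far neighbour a `2` at an end -/
def eh1 : ℕ → ℤ
  | 0 => 276
  | 1 => 261
  | 2 => 244
  | 3 => 223
  | 4 => 188
  | 5 => 152
  | 6 => 113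
  | 7 => 72
  | 8 => 30
  | _ => (-12)

/-- the factor of the height of the hinge `1 | 3` on its path -/
noncomputable def trx (k : ℕ) (x : ℝ) : ℝ := if k < 4 then 1 else (65 / 100 - x) / (15 / 100)

theorem trx_nonneg {k : ℕ} {x : ℝ} (hx : x ≤ 65 / 100) : 0 ≤ trx k x := by
  unfold trx
  split_ifs
  · norm_num
  · apply div_nonneg <;> linarith only [hx]

theorem trx_lo {k : ℕ} (hk : k < 4) (x : ℝ) : rTr 0 0 x = trx k x := by
  unfold trx rTr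
  rw [if_pos hk]

theorem trx_hi {k : ℕ} (hk : ¬ k < 4) (x : ℝ) : rTr 650 150 x = trx k x := by
  unfold trx rTr
  rw [if_neg hk]
  push_cast
  ring

theorem xi_le {k : ℕ} (hk : k < 10) {x : ℝ} (hx : x ≤ (xi (k + 1) : ℝ) / 10000) : x ≤ 65 / 100 := by
  refine hx.trans ?_
  interval_cases k <;> simp only [xi] <;> norm_num

theorem xi_pos {k : ℕ} (hk : k < 10) {x : ℝ} (hx : (xi k : ℝ) / 10000 ≤ x) : 40 / 100 ≤ x := by
  refine le_trans ?_ hx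
  interval_cases k <;> simp only [xi] <;> norm_num

variable {k : ℕ} {w x T κ K v : ℝ}

theorem mulK {r κ a : ℝ} (hr : 0 ≤ r) (h : a ≤ κ) : a * r ≤ κ * r := mul_le_mul_of_nonneg_right h hr

/-- the side of the `1` at `2 | 1` -/
theorem own2 (hk : k < 10) (hw : ((1600 : ℤ) : ℝ) / 10000 ≤ w ∧ w ≤ (fl2 k : ℝ) / 10000)
    (hx : (xi k : ℝ) / 10000 ≤ x ∧ x ≤ (xi (k + 1) : ℝ) / 10000)
    (hT : ((100 : ℤ) : ℝ) / 10000 ≤ T ∧ T ≤ ((770 : ℤ) : ℝ) / 10000)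
    (hκ : ((460 : ℤ) : ℝ) / 10000 ≤ κ) (hS : ((780 : ℤ) : ℝ) / 10000 - T ≤ κ) (hs : w + x < 1) :
    (ea2 k : ℝ) / 1000 < fs 1 (sh2 k) w x T (κ * trx k x) := by
  have hw' : 0 < w := lt_of_lt_of_le (by norm_num) hw.1
  have hx' : 0 < x := lt_of_lt_of_le (by norm_num) (xi_pos hk hx.1)
  have hr := trx_nonneg (k := k) (xi_le hk hx.2)
  have g1 := mulK hr hκ
  have g2 := mulK hr hS
  rcases Nat.lt_or_ge k 4 with h4 | h4
  · rw [← trx_lo h4] at g1 g2 ⊢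
    interval_cases k
    · exact row_of a2_0 hw hx hT hw' hx' hs g1 g2
    · exact row_of a2_1 hw hx hT hw' hx' hs g1 g2
    · exact row_of a2_2 hw hx hT hw' hx' hs g1 g2
    · exact row_of a2_3 hw hx hT hw' hx' hs g1 g2
  · rw [← trx_hi (Nat.not_lt.2 h4)] at g1 g2 ⊢
    interval_cases k
    · exact row_of a2_4 hw hx hT hw' hx' hs g1 g2
    · exact row_of a2_5 hw hx hT hw' hx' hs g1 g2
    · exact row_of a2_6 hw hx hT hw' hx' hs g1 g2
    · exact row_of a2_7 hw hx hT hw' hx' hs g1 g2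
    · exact row_of a2_8 hw hx hT hw' hx' hs g1 g2
    · exact row_of a2_9 hw hx hT hw' hx' hs g1 g2

/-- the side of the `1` at `2 | 1`, the `2` at an end -/
theorem ownE (hk : k < 10) (hw : ((1400 : ℤ) : ℝ) / 10000 ≤ w ∧ w ≤ (flE k : ℝ) / 10000)
    (hx : (xi k : ℝ) / 10000 ≤ x ∧ x ≤ (xi (k + 1) : ℝ) / 10000)
    (hT : (((-450) : ℤ) : ℝ) / 10000 ≤ T ∧ T ≤ (((-250) : ℤ) : ℝ) / 10000)
    (hκ : ((870 : ℤ) : ℝ) / 10000 ≤ κ) (hS : ((510 : ℤ) : ℝ) / 10000 - T ≤ κ) (hs : w + x < 1) :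
    (eaE k : ℝ) / 1000 < fs 1 ((10 : ℤ) : ℝ) w x T (κ * trx k x) := by
  have hw' : 0 < w := lt_of_lt_of_le (by norm_num) hw.1
  have hx' : 0 < x := lt_of_lt_of_le (by norm_num) (xi_pos hk hx.1)
  have hr := trx_nonneg (k := k) (xi_le hk hx.2)
  have g1 := mulK hr hκ
  have g2 := mulK hr hS
  rcases Nat.lt_or_ge k 4 with h4 | h4
  · rw [← trx_lo h4] at g1 g2 ⊢
    interval_cases k
    · exact row_of aE_0 hw hx hT hw' hx' hs g1 g2
    · exact row_of aE_1 hw hx hT hw' hx' hs g1 g2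
    · exact row_of aE_2 hw hx hT hw' hx' hs g1 g2
    · exact row_of aE_3 hw hx hT hw' hx' hs g1 g2
  · rw [← trx_hi (Nat.not_lt.2 h4)] at g1 g2 ⊢
    interval_cases k
    · exact row_of aE_4 hw hx hT hw' hx' hs g1 g2
    · exact row_of aE_5 hw hx hT hw' hx' hs g1 g2
    · exact row_of aE_6 hw hx hT hw' hx' hs g1 g2
    · exact row_of aE_7 hw hx hT hw' hx' hs g1 g2
    · exact row_of aE_8 hw hx hT hw' hx' hs g1 g2
    · exact row_of aE_9 hw hx hT hw' hx' hs g1 g2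

/-- the side of the `1` at `1 | 1`, far neighbour a `1` -/
theorem own1 (hk : k < 10) (hw : ((1500 : ℤ) : ℝ) / 10000 ≤ w ∧ w ≤ (fl1 k : ℝ) / 10000)
    (hx : (xi k : ℝ) / 10000 ≤ x ∧ x ≤ (xi (k + 1) : ℝ) / 10000)
    (hT : (((-160) : ℤ) : ℝ) / 10000 ≤ T ∧ T ≤ ((500 : ℤ) : ℝ) / 10000)
    (hκ : ((390 : ℤ) : ℝ) / 10000 ≤ κ) (hS : ((420 : ℤ) : ℝ) / 10000 - T ≤ κ) (hs : w + x < 1) :
    (ea1 k : ℝ) / 1000 < fs 1 ((0 : ℤ) : ℝ) w x T (κ * trx k x) := by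
  have hw' : 0 < w := lt_of_lt_of_le (by norm_num) hw.1
  have hx' : 0 < x := lt_of_lt_of_le (by norm_num) (xi_pos hk hx.1)
  have hr := trx_nonneg (k := k) (xi_le hk hx.2)
  have g1 := mulK hr hκ
  have g2 := mulK hr hS
  rcases Nat.lt_or_ge k 4 with h4 | h4
  · rw [← trx_lo h4] at g1 g2 ⊢
    interval_cases k
    · exact row_of a1_0 hw hx hT hw' hx' hs g1 g2
    · exact row_of a1_1 hw hx hT hw' hx' hs g1 g2
    · exact row_of a1_2 hw hx hT hw' hx' hs g1 g2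
    · exact row_of a1_3 hw hx hT hw' hx' hs g1 g2
  · rw [← trx_hi (Nat.not_lt.2 h4)] at g1 g2 ⊢
    interval_cases k
    · exact row_of a1_4 hw hx hT hw' hx' hs g1 g2
    · exact row_of a1_5 hw hx hT hw' hx' hs g1 g2
    · exact row_of a1_6 hw hx hT hw' hx' hs g1 g2
    · exact row_of a1_7 hw hx hT hw' hx' hs g1 g2
    · exact row_of a1_8 hw hx hT hw' hx' hs g1 g2
    · exact row_of a1_9 hw hx hT hw' hx' hs g1 g2

/-- the side of the `1` at `1 | 1`, general -/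
theorem own1g (hk : k < 10) (hw : ((1500 : ℤ) : ℝ) / 10000 ≤ w ∧ w ≤ (fl1 k : ℝ) / 10000)
    (hx : (xi k : ℝ) / 10000 ≤ x ∧ x ≤ (xi (k + 1) : ℝ) / 10000)
    (hT : (((-360) : ℤ) : ℝ) / 10000 ≤ T ∧ T ≤ ((400 : ℤ) : ℝ) / 10000)
    (hκ : ((180 : ℤ) : ℝ) / 10000 ≤ κ) (hS : ((110 : ℤ) : ℝ) / 10000 - T ≤ κ) (hs : w + x < 1) :
    (eg1 k : ℝ) / 1000 < fs 1 ((0 : ℤ) : ℝ) w x T (κ * trx k x) := by
  have hw' : 0 < w := lt_of_lt_of_le (by norm_num) hw.1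
  have hx' : 0 < x := lt_of_lt_of_le (by norm_num) (xi_pos hk hx.1)
  have hr := trx_nonneg (k := k) (xi_le hk hx.2)
  have g1 := mulK hr hκ
  have g2 := mulK hr hS
  rcases Nat.lt_or_ge k 4 with h4 | h4
  · rw [← trx_lo h4] at g1 g2 ⊢
    interval_cases k
    · exact row_of g1_0 hw hx hT hw' hx' hs g1 g2
    · exact row_of g1_1 hw hx hT hw' hx' hs g1 g2
    · exact row_of g1_2 hw hx hT hw' hx' hs g1 g2
    · exact row_of g1_3 hw hx hT hw' hx' hs g1 g2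
  · rw [← trx_hi (Nat.not_lt.2 h4)] at g1 g2 ⊢
    interval_cases k
    · exact row_of g1_4 hw hx hT hw' hx' hs g1 g2
    · exact row_of g1_5 hw hx hT hw' hx' hs g1 g2
    · exact row_of g1_6 hw hx hT hw' hx' hs g1 g2
    · exact row_of g1_7 hw hx hT hw' hx' hs g1 g2
    · exact row_of g1_8 hw hx hT hw' hx' hs g1 g2
    · exact row_of g1_9 hw hx hT hw' hx' hs g1 g2

/-- the side of the `1` at `1 | 1`, far neighbour a `2` at an end -/
theorem own1h (hk : k < 10) (hw : ((1500 : ℤ) : ℝ) / 10000 ≤ w ∧ w ≤ (fl1 k : ℝ) / 10000)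
    (hx : (xi k : ℝ) / 10000 ≤ x ∧ x ≤ (xi (k + 1) : ℝ) / 10000)
    (hT : (((-550) : ℤ) : ℝ) / 10000 ≤ T ∧ T ≤ (((-320) : ℤ) : ℝ) / 10000)
    (hκ : ((440 : ℤ) : ℝ) / 10000 ≤ κ) (hS : ((70 : ℤ) : ℝ) / 10000 - T ≤ κ) (hs : w + x < 1) :
    (eh1 k : ℝ) / 1000 < fs 1 ((0 : ℤ) : ℝ) w x T (κ * trx k x) := by
  have hw' : 0 < w := lt_of_lt_of_le (by norm_num) hw.1
  have hx' : 0 < x := lt_of_lt_of_le (by norm_num) (xi_pos hk hx.1)
  have hr := trx_nonneg (k := k) (xi_le hk hx.2)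
  have g1 := mulK hr hκ
  have g2 := mulK hr hS
  rcases Nat.lt_or_ge k 4 with h4 | h4
  · rw [← trx_lo h4] at g1 g2 ⊢
    interval_cases k
    · exact row_of h1_0 hw hx hT hw' hx' hs g1 g2
    · exact row_of h1_1 hw hx hT hw' hx' hs g1 g2
    · exact row_of h1_2 hw hx hT hw' hx' hs g1 g2
    · exact row_of h1_3 hw hx hT hw' hx' hs g1 g2
  · rw [← trx_hi (Nat.not_lt.2 h4)] at g1 g2 ⊢
    interval_cases k
    · exact row_of h1_4 hw hx hT hw' hx' hs g1 g2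
    · exact row_of h1_5 hw hx hT hw' hx' hs g1 g2
    · exact row_of h1_6 hw hx hT hw' hx' hs g1 g2
    · exact row_of h1_7 hw hx hT hw' hx' hs g1 g2
    · exact row_of h1_8 hw hx hT hw' hx' hs g1 g2
    · exact row_of h1_9 hw hx hT hw' hx' hs g1 g2

/-- the side of the `2` at `2 | 1` -/
theorem two2 (hk : k < 10) (hw : ((1600 : ℤ) : ℝ) / 10000 ≤ w ∧ w ≤ (fl2 k : ℝ) / 10000)
    (hT : (((-770) : ℤ) : ℝ) / 10000 ≤ T ∧ T ≤ (((-100) : ℤ) : ℝ) / 10000) (hs : w + v < 1)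
    (hv : 100 / 1000 ≤ v ∧ v ≤ 56 / 100) (h1 : v ≤ 51 / 100 → -(985 / 10000) ≤ K)
    (h2 : 51 / 100 ≤ v → -(985 / 10000) * rTr 800 290 v ≤ K)
    (h3 : 535 / 1000 < v → -(800 / 10000) * rTr 800 290 v ≤ K) :
    ((1 - ea2 k : ℤ) : ℝ) / 1000 < fs 2 ((sh2 k - 10 : ℤ) : ℝ) w v T K := by
  have hw' : 0 < w := lt_of_lt_of_le (by norm_num) hw.1
  have hv' : 0 < v := lt_of_lt_of_le (by norm_num) hv.1
  obtain ⟨hT1, hT2⟩ := hT
  have hT1' : -(770 / 10000) ≤ T := by push_cast at hT1; linarith only [hT1]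
  have hr : 0 ≤ rTr 800 290 v := by
    unfold rTr
    push_cast
    have := hv.2
    apply mul_nonneg <;> linarith only [hw, hs, hv]
  rcases le_total v (51 / 100) with c1 | c1
  · have g1 : (((-985) : ℤ) : ℝ) / 10000 * rTr 0 0 v ≤ K := by
      have := h1 c1
      unfold rTr
      push_cast
      linarith only [this]
    have g2 : ((((-9000) : ℤ) : ℝ) / 10000 - T) * rTr 0 0 v ≤ K := by
      have := h1 c1
      unfold rTr
      push_cast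
      linarith only [hT1, this]
    have hx : ((1000 : ℤ) : ℝ) / 10000 ≤ v ∧ v ≤ ((5100 : ℤ) : ℝ) / 10000 := by
      push_cast
      constructor <;> linarith only [hv, c1, hv.1]
    interval_cases k
    · exact row_of b2_0_0 hw hx ⟨hT1, hT2⟩ hw' hv' hs g1 g2
    · exact row_of b2_1_0 hw hx ⟨hT1, hT2⟩ hw' hv' hs g1 g2
    · exact row_of b2_2_0 hw hx ⟨hT1, hT2⟩ hw' hv' hs g1 g2
    · exact row_of b2_3_0 hw hx ⟨hT1, hT2⟩ hw' hv' hs g1 g2
    · exact row_of b2_4_0 hw hx ⟨hT1, hT2⟩ hw' hv' hs g1 g2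
    · exact row_of b2_5_0 hw hx ⟨hT1, hT2⟩ hw' hv' hs g1 g2
    · exact row_of b2_6_0 hw hx ⟨hT1, hT2⟩ hw' hv' hs g1 g2
    · exact row_of b2_7_0 hw hx ⟨hT1, hT2⟩ hw' hv' hs g1 g2
    · exact row_of b2_8_0 hw hx ⟨hT1, hT2⟩ hw' hv' hs g1 g2
    · exact row_of b2_9_0 hw hx ⟨hT1, hT2⟩ hw' hv' hs g1 g2
  rcases le_or_gt v (535 / 1000) with c2 | c2
  · have g0 := h2 c1
    have g1 : (((-985) : ℤ) : ℝ) / 10000 * rTr 800 290 v ≤ K := by
      push_cast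
      linarith only [g0]
    have g2 : ((((-9000) : ℤ) : ℝ) / 10000 - T) * rTr 800 290 v ≤ K := by
      refine (mul_le_mul_of_nonneg_right ?_ hr).trans g0
      push_cast
      linarith only [hs, hw', hT1, c1]
    have hx : ((5100 : ℤ) : ℝ) / 10000 ≤ v ∧ v ≤ ((5350 : ℤ) : ℝ) / 10000 := by
      push_cast
      constructor <;> linarith only [c1, c2]
    interval_cases k
    · exact row_of b2_0_1 hw hx ⟨hT1, hT2⟩ hw' hv' hs g1 g2
    · exact row_of b2_1_1 hw hx ⟨hT1, hT2⟩ hw' hv' hs g1 g2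
    · exact row_of b2_2_1 hw hx ⟨hT1, hT2⟩ hw' hv' hs g1 g2
    · exact row_of b2_3_1 hw hx ⟨hT1, hT2⟩ hw' hv' hs g1 g2
    · exact row_of b2_4_1 hw hx ⟨hT1, hT2⟩ hw' hv' hs g1 g2
    · exact row_of b2_5_1 hw hx ⟨hT1, hT2⟩ hw' hv' hs g1 g2
    · exact row_of b2_6_1 hw hx ⟨hT1, hT2⟩ hw' hv' hs g1 g2
    · exact row_of b2_7_1 hw hx ⟨hT1, hT2⟩ hw' hv' hs g1 g2
    · exact row_of b2_8_1 hw hx ⟨hT1, hT2⟩ hw' hv' hs g1 g2
    · exact row_of b2_9_1 hw hx ⟨hT1, hT2⟩ hw' hv' hs g1 g2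
  · have g0 := h3 c2
    have g1 : (((-800) : ℤ) : ℝ) / 10000 * rTr 800 290 v ≤ K := by
      push_cast
      linarith only [g0]
    have g2 : ((((-9000) : ℤ) : ℝ) / 10000 - T) * rTr 800 290 v ≤ K := by
      refine (mul_le_mul_of_nonneg_right ?_ hr).trans g0
      push_cast
      linarith only [hs, hw', hT1, c2]
    have hx : ((5350 : ℤ) : ℝ) / 10000 ≤ v ∧ v ≤ ((5600 : ℤ) : ℝ) / 10000 := by
      push_cast
      constructor <;> linarith only [c2, hv, hv.2]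
    interval_cases k
    · exact row_of b2_0_2 hw hx ⟨hT1, hT2⟩ hw' hv' hs g1 g2
    · exact row_of b2_1_2 hw hx ⟨hT1, hT2⟩ hw' hv' hs g1 g2
    · exact row_of b2_2_2 hw hx ⟨hT1, hT2⟩ hw' hv' hs g1 g2
    · exact row_of b2_3_2 hw hx ⟨hT1, hT2⟩ hw' hv' hs g1 g2
    · exact row_of b2_4_2 hw hx ⟨hT1, hT2⟩ hw' hv' hs g1 g2
    · exact row_of b2_5_2 hw hx ⟨hT1, hT2⟩ hw' hv' hs g1 g2
    · exact row_of b2_6_2 hw hx ⟨hT1, hT2⟩ hw' hv' hs g1 g2
    · exact row_of b2_7_2 hw hx ⟨hT1, hT2⟩ hw' hv' hs g1 g2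
    · exact row_of b2_8_2 hw hx ⟨hT1, hT2⟩ hw' hv' hs g1 g2
    · exact row_of b2_9_2 hw hx ⟨hT1, hT2⟩ hw' hv' hs g1 g2

/-- the side of a `2` at an end at `2 | 1` -/
theorem twoE2 (hk : k < 10) (hw : ((1400 : ℤ) : ℝ) / 10000 ≤ w ∧ w ≤ (flE k : ℝ) / 10000)
    (hT : ((250 : ℤ) : ℝ) / 10000 ≤ T ∧ T ≤ ((450 : ℤ) : ℝ) / 10000) :
    ((1 - eaE k : ℤ) : ℝ) / 1000 < π * (((0 : ℤ) : ℝ) / 10 * T) - lnA w T := by
  interval_cases k
  · exact rowE_of bE_0 hw hT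
  · exact rowE_of bE_1 hw hT
  · exact rowE_of bE_2 hw hT
  · exact rowE_of bE_3 hw hT
  · exact rowE_of bE_4 hw hT
  · exact rowE_of bE_5 hw hT
  · exact rowE_of bE_6 hw hT
  · exact rowE_of bE_7 hw hT
  · exact rowE_of bE_8 hw hT
  · exact rowE_of bE_9 hw hT

/-- the side of the other `1`, its other neighbour a `1` -/
theorem oth1 (hk : k < 10) (hw : ((1500 : ℤ) : ℝ) / 10000 ≤ w ∧ w ≤ (fl1 k : ℝ) / 10000)
    (hT : (((-500) : ℤ) : ℝ) / 10000 ≤ T ∧ T ≤ ((160 : ℤ) : ℝ) / 10000) (hs : w + v < 1)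
    (hv : 125 / 1000 ≤ v ∧ v ≤ 70 / 100)
    (h1 : v ≤ 60 / 100 → -(690 / 10000) ≤ K ∧ -(670 / 10000) - T ≤ K)
    (h2 : 60 / 100 ≤ v → -(690 / 10000) * rTr 800 200 v ≤ K ∧
      (-(670 / 10000) - T) * rTr 800 200 v ≤ K) :
    ((1 - ea1 k : ℤ) : ℝ) / 1000 < fs 1 ((0 : ℤ) : ℝ) w v T K := by
  have hw' : 0 < w := lt_of_lt_of_le (by norm_num) hw.1
  have hv' : 0 < v := lt_of_lt_of_le (by norm_num) hv.1
  rcases le_total v (60 / 100) with c1 | c1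
  · obtain ⟨g1', g2'⟩ := h1 c1
    have g1 : (((-690) : ℤ) : ℝ) / 10000 * rTr 0 0 v ≤ K := by
      unfold rTr
      push_cast
      linarith only [g1']
    have g2 : ((((-670) : ℤ) : ℝ) / 10000 - T) * rTr 0 0 v ≤ K := by
      unfold rTr
      push_cast
      linarith only [g2']
    have hx : ((1250 : ℤ) : ℝ) / 10000 ≤ v ∧ v ≤ ((6000 : ℤ) : ℝ) / 10000 := by
      push_cast
      constructor <;> linarith only [hv, c1, hv.1]
    interval_cases k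
    · exact row_of b1_0_0 hw hx hT hw' hv' hs g1 g2
    · exact row_of b1_1_0 hw hx hT hw' hv' hs g1 g2
    · exact row_of b1_2_0 hw hx hT hw' hv' hs g1 g2
    · exact row_of b1_3_0 hw hx hT hw' hv' hs g1 g2
    · exact row_of b1_4_0 hw hx hT hw' hv' hs g1 g2
    · exact row_of b1_5_0 hw hx hT hw' hv' hs g1 g2
    · exact row_of b1_6_0 hw hx hT hw' hv' hs g1 g2
    · exact row_of b1_7_0 hw hx hT hw' hv' hs g1 g2
    · exact row_of b1_8_0 hw hx hT hw' hv' hs g1 g2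
    · exact row_of b1_9_0 hw hx hT hw' hv' hs g1 g2
  · obtain ⟨g1', g2'⟩ := h2 c1
    have g1 : (((-690) : ℤ) : ℝ) / 10000 * rTr 800 200 v ≤ K := by
      push_cast
      linarith only [g1']
    have g2 : ((((-670) : ℤ) : ℝ) / 10000 - T) * rTr 800 200 v ≤ K := by
      push_cast
      linarith only [g2']
    have hx : ((6000 : ℤ) : ℝ) / 10000 ≤ v ∧ v ≤ ((7000 : ℤ) : ℝ) / 10000 := by
      push_cast
      constructor <;> linarith only [c1, hv, hv.2]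
    interval_cases k
    · exact row_of b1_0_1 hw hx hT hw' hv' hs g1 g2
    · exact row_of b1_1_1 hw hx hT hw' hv' hs g1 g2
    · exact row_of b1_2_1 hw hx hT hw' hv' hs g1 g2
    · exact row_of b1_3_1 hw hx hT hw' hv' hs g1 g2
    · exact row_of b1_4_1 hw hx hT hw' hv' hs g1 g2
    · exact row_of b1_5_1 hw hx hT hw' hv' hs g1 g2
    · exact row_of b1_6_1 hw hx hT hw' hv' hs g1 g2
    · exact row_of b1_7_1 hw hx hT hw' hv' hs g1 g2
    · exact row_of b1_8_1 hw hx hT hw' hv' hs g1 g2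
    · exact row_of b1_9_1 hw hx hT hw' hv' hs g1 g2

/-- the side of the other `1`, general -/
theorem oth1g (hk : k < 10) (hw : ((1500 : ℤ) : ℝ) / 10000 ≤ w ∧ w ≤ (fl1 k : ℝ) / 10000)
    (hT : (((-400) : ℤ) : ℝ) / 10000 ≤ T ∧ T ≤ ((360 : ℤ) : ℝ) / 10000) (hs : w + v < 1)
    (hv : 110 / 1000 ≤ v ∧ v ≤ 65 / 100) (hK : -(60 / 10000) ≤ K) :
    ((1 - eg1 k : ℤ) : ℝ) / 1000 < fs 1 ((0 : ℤ) : ℝ) w v T K := by
  have hw' : 0 < w := lt_of_lt_of_le (by norm_num) hw.1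
  have hv' : 0 < v := lt_of_lt_of_le (by norm_num) hv.1
  have g1 : (((-60) : ℤ) : ℝ) / 10000 * rTr 0 0 v ≤ K := by
    unfold rTr
    push_cast
    linarith only [hK]
  have g2 : ((((-9000) : ℤ) : ℝ) / 10000 - T) * rTr 0 0 v ≤ K := by
    have := hT.1
    unfold rTr
    push_cast at *
    linarith only [hK, hT]
  have hx : ((1100 : ℤ) : ℝ) / 10000 ≤ v ∧ v ≤ ((6500 : ℤ) : ℝ) / 10000 := by
    push_cast
    constructor <;> linarith only [hv, hv.1, hv.2]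
  interval_cases k
  · exact row_of c1_0 hw hx hT hw' hv' hs g1 g2
  · exact row_of c1_1 hw hx hT hw' hv' hs g1 g2
  · exact row_of c1_2 hw hx hT hw' hv' hs g1 g2
  · exact row_of c1_3 hw hx hT hw' hv' hs g1 g2
  · exact row_of c1_4 hw hx hT hw' hv' hs g1 g2
  · exact row_of c1_5 hw hx hT hw' hv' hs g1 g2
  · exact row_of c1_6 hw hx hT hw' hv' hs g1 g2
  · exact row_of c1_7 hw hx hT hw' hv' hs g1 g2
  · exact row_of c1_8 hw hx hT hw' hv' hs g1 g2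
  · exact row_of c1_9 hw hx hT hw' hv' hs g1 g2

/-- the side of the other `1`, its other neighbour a `2` at an end -/
theorem oth1h (hk : k < 10) (hw : ((1500 : ℤ) : ℝ) / 10000 ≤ w ∧ w ≤ (fl1 k : ℝ) / 10000)
    (hT : ((320 : ℤ) : ℝ) / 10000 ≤ T ∧ T ≤ ((550 : ℤ) : ℝ) / 10000) (hs : w + v < 1)
    (hv : 125 / 1000 ≤ v ∧ v ≤ 37 / 100) (hK : -(600 / 10000) ≤ K) :
    ((1 - eh1 k : ℤ) : ℝ) / 1000 < fs 1 ((0 : ℤ) : ℝ) w v T K := by
  have hw' : 0 < w := lt_of_lt_of_le (by norm_num) hw.1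
  have hv' : 0 < v := lt_of_lt_of_le (by norm_num) hv.1
  have g1 : (((-600) : ℤ) : ℝ) / 10000 * rTr 0 0 v ≤ K := by
    unfold rTr
    push_cast
    linarith only [hK]
  have g2 : ((((-9000) : ℤ) : ℝ) / 10000 - T) * rTr 0 0 v ≤ K := by
    have := hT.1
    unfold rTr
    push_cast at *
    linarith only [hK, hT]
  have hx : ((1250 : ℤ) : ℝ) / 10000 ≤ v ∧ v ≤ ((3700 : ℤ) : ℝ) / 10000 := by
    push_cast
    constructor <;> linarith only [hv, hv.1, hv.2]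
  interval_cases k
  · exact row_of d1_0 hw hx hT hw' hv' hs g1 g2
  · exact row_of d1_1 hw hx hT hw' hv' hs g1 g2
  · exact row_of d1_2 hw hx hT hw' hv' hs g1 g2
  · exact row_of d1_3 hw hx hT hw' hv' hs g1 g2
  · exact row_of d1_4 hw hx hT hw' hv' hs g1 g2
  · exact row_of d1_5 hw hx hT hw' hv' hs g1 g2
  · exact row_of d1_6 hw hx hT hw' hv' hs g1 g2
  · exact row_of d1_7 hw hx hT hw' hv' hs g1 g2
  · exact row_of d1_8 hw hx hT hw' hv' hs g1 g2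
  · exact row_of d1_9 hw hx hT hw' hv' hs g1 g2

end MF

end Pool.Agent.Work.MP_b30479_gt.G2
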