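import Pool.Agent.Work.MP_b30479_gt.G2.MFD

/-!
# Conditional floors of `2 | 1` on the second level

The hinge `1 | 3` (the `3` on the right) is in `[40 / 100, 47 / 100]`, all hinges of the digits `2` are
at most `495 / 1000`.  Rows generated.
-/

namespace Pool.Agent.Work.MP_b30479_gt.G2

open Real Set VOL NumI NumI.E

namespace MF

theorem a3_0 : runT (row 1 10 505 460 780 0 0)
    (.x .a (.z (.x .a (.z .b (.x .a (.z (.x .a (.z .b (.z .b .a))) .a)))) .a))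
    (bx 1600 2460 4000 4100 100 770) = true := by decide +kernel

theorem b3_0 : runT (row 2 0 (-504) (-985) (-9000) 0 0)
    (.x (.y .a .a) (.x (.y .a .a) (.y (.y .a .a) (.y .a (.y .a (.x .a (.y .a (.x .a (.y .a (.z .a (.z
    .a .a)))))))))))
    (bx 1600 2460 1000 4950 (-770) (-100)) = true := by decide +kernel

theorem a3_1 : runT (row 1 10 495 460 780 0 0)
    (.x .a (.z (.x .a (.z .b (.x .a (.z (.x .a (.z .b (.z .b .a))) .a)))) .a))
    (bx 1600 2448 4100 4200 100 770) = true := by decide +kernel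

theorem b3_1 : runT (row 2 0 (-494) (-985) (-9000) 0 0)
    (.x (.y .a .a) (.x (.y .a .a) (.y (.y .a .a) (.y .a (.y .a (.x .a (.y .a (.x .a (.y .a (.z .a (.z
    .a .a)))))))))))
    (bx 1600 2448 1000 4950 (-770) (-100)) = true := by decide +kernel

theorem a3_2 : runT (row 1 10 484 460 780 0 0)
    (.x .a (.z (.x .a (.z .b (.x .a (.z (.x .a (.z .b (.z .b .a))) .a)))) .a))
    (bx 1600 2436 4200 4300 100 770) = true := by decide +kernel

theorem b3_2 : runT (row 2 0 (-483) (-985) (-9000) 0 0)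
    (.x (.y .a .a) (.x (.y .a .a) (.y (.y .a .a) (.y .a (.y .a (.x .a (.y .a (.x .a (.y .a (.z .a (.z
    .a .a)))))))))))
    (bx 1600 2436 1000 4950 (-770) (-100)) = true := by decide +kernel

theorem a3_3 : runT (row 1 10 472 460 780 0 0)
    (.x .a (.z (.x .a (.z .b (.x .a (.z (.x .a (.z .b (.z .b .a))) .a)))) .a))
    (bx 1600 2423 4300 4400 100 770) = true := by decide +kernel

theorem b3_3 : runT (row 2 0 (-471) (-985) (-9000) 0 0)
    (.x (.y .a .a) (.x (.y .a .a) (.y (.y .a .a) (.y .a (.y .a (.x .a (.y .a (.x .a (.y .a (.z .a (.z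
    .a .a)))))))))))
    (bx 1600 2423 1000 4950 (-770) (-100)) = true := by decide +kernel

theorem a3_4 : runT (row 1 10 460 460 780 0 0)
    (.x .a (.z (.x .a (.z .b (.x .a (.z (.x .a (.z .b (.z .b .a))) .a)))) .a))
    (bx 1600 2409 4400 4500 100 770) = true := by decide +kernel

theorem b3_4 : runT (row 2 0 (-459) (-985) (-9000) 0 0)
    (.x (.y .a .a) (.x (.y .a .a) (.y (.y .a .a) (.y .a (.y .a (.x .a (.y .a (.x .a (.y .a (.z .a (.z
    .a .a)))))))))))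
    (bx 1600 2409 1000 4950 (-770) (-100)) = true := by decide +kernel

theorem a3_5 : runT (row 1 10 447 460 780 0 0)
    (.x .a (.z (.x .a (.z .b (.x .a (.z (.x .a (.z .b (.z .b .a))) .a)))) .a))
    (bx 1600 2395 4500 4600 100 770) = true := by decide +kernel

theorem b3_5 : runT (row 2 0 (-446) (-985) (-9000) 0 0)
    (.x (.y .a .a) (.x (.y .a .a) (.y (.y .a .a) (.y .a (.y .a (.x .a (.y .a (.x .a (.y .a (.z .a (.z
    .a .a)))))))))))
    (bx 1600 2395 1000 4950 (-770) (-100)) = true := by decide +kernel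

theorem a3_6 : runT (row 1 10 434 460 780 0 0)
    (.x .a (.z (.x .a (.z .b (.x .a (.z (.x .a (.z .b (.z .b .a))) .a)))) .a))
    (bx 1600 2380 4600 4700 100 770) = true := by decide +kernel

theorem b3_6 : runT (row 2 0 (-433) (-985) (-9000) 0 0)
    (.x (.y .a .a) (.x (.y .a .a) (.y (.y .a .a) (.y .a (.y .a (.x .a (.y .a (.x .a (.y .a (.z .a (.z
    .a .a)))))))))))
    (bx 1600 2380 1000 4950 (-770) (-100)) = true := by decide +kernel

/-- the ranges of `x` -/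
def xi3 : ℕ → ℤ
  | 0 => 4000
  | 1 => 4100
  | 2 => 4200
  | 3 => 4300
  | 4 => 4400
  | 5 => 4500
  | 6 => 4600
  | _ => 4700

/-- conditional floors of `2 | 1` -/
def fl3 : ℕ → ℤ
  | 0 => 2460
  | 1 => 2448
  | 2 => 2436
  | 3 => 2423
  | 4 => 2409
  | 5 => 2395
  | _ => 2380

/-- bounds for the side of the `1` -/
def ea3 : ℕ → ℤ
  | 0 => 505
  | 1 => 495
  | 2 => 484
  | 3 => 472
  | 4 => 460
  | 5 => 447
  | _ => 434

theorem xi3_le {k : ℕ} (hk : k < 7) {x : ℝ} (hx : x ≤ (xi3 (k + 1) : ℝ) / 10000) : x ≤ 47 / 100 := by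
  refine hx.trans ?_
  interval_cases k <;> simp only [xi3] <;> norm_num

theorem xi3_pos {k : ℕ} (hk : k < 7) {x : ℝ} (hx : (xi3 k : ℝ) / 10000 ≤ x) : 40 / 100 ≤ x := by
  refine le_trans ?_ hx
  interval_cases k <;> simp only [xi3] <;> norm_num

theorem fl3_le {k : ℕ} (hk : k < 7) : (fl3 k : ℝ) / 10000 ≤ 246 / 1000 := by
  interval_cases k <;> simp only [fl3] <;> norm_num

variable {k : ℕ} {w x T κ K v : ℝ}

theorem rTr00 (v : ℝ) : rTr 0 0 v = 1 := by
  unfold rTr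
  simp

/-- the side of the `1` at `2 | 1` -/
theorem own3 (hk : k < 7) (hw : ((1600 : ℤ) : ℝ) / 10000 ≤ w ∧ w ≤ (fl3 k : ℝ) / 10000)
    (hx : (xi3 k : ℝ) / 10000 ≤ x ∧ x ≤ (xi3 (k + 1) : ℝ) / 10000)
    (hT : ((100 : ℤ) : ℝ) / 10000 ≤ T ∧ T ≤ ((770 : ℤ) : ℝ) / 10000)
    (hκ : ((460 : ℤ) : ℝ) / 10000 ≤ κ) (hS : ((780 : ℤ) : ℝ) / 10000 - T ≤ κ) (hs : w + x < 1) :
    (ea3 k : ℝ) / 1000 < fs 1 ((10 : ℤ) : ℝ) w x T κ := by
  have hw' : 0 < w := lt_of_lt_of_le (by norm_num) hw.1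
  have hx' : 0 < x := lt_of_lt_of_le (by norm_num) (xi3_pos hk hx.1)
  have g1 : ((460 : ℤ) : ℝ) / 10000 * rTr 0 0 x ≤ κ := by rw [rTr00, mul_one]; exact hκ
  have g2 : (((780 : ℤ) : ℝ) / 10000 - T) * rTr 0 0 x ≤ κ := by rw [rTr00, mul_one]; exact hS
  interval_cases k
  · exact row_of a3_0 hw hx hT hw' hx' hs g1 g2
  · exact row_of a3_1 hw hx hT hw' hx' hs g1 g2
  · exact row_of a3_2 hw hx hT hw' hx' hs g1 g2
  · exact row_of a3_3 hw hx hT hw' hx' hs g1 g2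
  · exact row_of a3_4 hw hx hT hw' hx' hs g1 g2
  · exact row_of a3_5 hw hx hT hw' hx' hs g1 g2
  · exact row_of a3_6 hw hx hT hw' hx' hs g1 g2

/-- the side of the `2` at `2 | 1` -/
theorem two3 (hk : k < 7) (hw : ((1600 : ℤ) : ℝ) / 10000 ≤ w ∧ w ≤ (fl3 k : ℝ) / 10000)
    (hT : (((-770) : ℤ) : ℝ) / 10000 ≤ T ∧ T ≤ (((-100) : ℤ) : ℝ) / 10000) (hs : w + v < 1)
    (hv : 100 / 1000 ≤ v ∧ v ≤ 495 / 1000) (hK : -(985 / 10000) ≤ K) :
    ((1 - ea3 k : ℤ) : ℝ) / 1000 < fs 2 ((0 : ℤ) : ℝ) w v T K := by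
  have hw' : 0 < w := lt_of_lt_of_le (by norm_num) hw.1
  have hv' : 0 < v := lt_of_lt_of_le (by norm_num) hv.1
  obtain ⟨hT1, hT2⟩ := hT
  have g1 : (((-985) : ℤ) : ℝ) / 10000 * rTr 0 0 v ≤ K := by
    rw [rTr00]
    push_cast
    linarith
  have g2 : ((((-9000) : ℤ) : ℝ) / 10000 - T) * rTr 0 0 v ≤ K := by
    rw [rTr00]
    push_cast at *
    linarith
  have hx : ((1000 : ℤ) : ℝ) / 10000 ≤ v ∧ v ≤ ((4950 : ℤ) : ℝ) / 10000 := by
    push_cast
    constructor <;> linarith [hv.1, hv.2]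
  interval_cases k
  · exact row_of b3_0 hw hx ⟨hT1, hT2⟩ hw' hv' hs g1 g2
  · exact row_of b3_1 hw hx ⟨hT1, hT2⟩ hw' hv' hs g1 g2
  · exact row_of b3_2 hw hx ⟨hT1, hT2⟩ hw' hv' hs g1 g2
  · exact row_of b3_3 hw hx ⟨hT1, hT2⟩ hw' hv' hs g1 g2
  · exact row_of b3_4 hw hx ⟨hT1, hT2⟩ hw' hv' hs g1 g2
  · exact row_of b3_5 hw hx ⟨hT1, hT2⟩ hw' hv' hs g1 g2
  · exact row_of b3_6 hw hx ⟨hT1, hT2⟩ hw' hv' hs g1 g2

end MF

open Finset VOL Filter Topology

namespace SR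

open ML

variable {M : ℕ} {b : Fin (M + 1) → ℤ} {zs : DD (tyW b) ⊕ ZZ (tyW b) → ℂ}
variable {y : DD (tyW b) ⊕ ZZ (tyW b) → ℝ}
variable {h h' : Fin M} {i j j' : Fin (M + 1)}

/-- **Conditional floor of a hinge `2 | 1`, second level.** -/
theorem cf_two3 {k : ℕ} (hk : k < 7) (hb : ClassW b) (hL : Loc b zs) (hX : LocX b zs)
    (hy : Mx b zs y) (hF : Flr b y F2)
    (hv : ∀ {h : Fin M} {i j : Fin (M + 1)} {p : Fin 3}, Adj h i p j → clsW b i = .two →
      y (.inl (.inl h)) ≤ 495 / 1000)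
    (A : Adj h i 2 j) (A' : Adj h' i 0 j') (hi : clsW b i = .one) (hj : clsW b j = .three)
    (hj' : clsW b j' = .two) (hx : (MF.xi3 k : ℝ) / 10000 ≤ y (.inl (.inl h)))
    (hx' : y (.inl (.inl h)) ≤ (MF.xi3 (k + 1) : ℝ) / 10000) :
    (MF.fl3 k : ℝ) / 10000 ≤ y (.inl (.inl h')) := by
  by_contra hcon
  push Not at hcon
  have hfl := MF.fl3_le hk
  have hop := A'.opp hb (Or.inl (by rw [hi]; decide))
  obtain ⟨w1, w2, -, -⟩ := hX.win A' A hi
  obtain ⟨v1, -, v3, -⟩ := hX.win A A' hi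
  rw [hj, hj'] at w1 w2 v1 v3
  simp only [cw] at w1 w2 v1 v3
  have hcl : wcl b h' = ((160 : ℤ) : ℝ) / 1000 := by
    rw [A'.cl_one hi, hj']
    rfl
  have hF1 := hF A'
  rw [hi, hj'] at hF1
  simp only [F2] at hF1
  have x0 := MF.xi3_pos hk hx
  have x1 := MF.xi3_le hk hx'
  obtain ⟨h2, l, A2⟩ := A'.symm.other' b (clsW_inner hb (Or.inr (Or.inl hj')))
  have g1 := hF A2
  have g2 := hv A2 hj'
  rw [hj'] at g1
  have g3 : (100 : ℝ) / 1000 ≤ y (.inl (.inl h2)) := by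
    refine le_trans ?_ g1
    cases clsW b l <;> simp only [F2] <;> (try split_ifs) <;> norm_num
  have hw : wcl b h' ≤ y (.inl (.inl h')) := by
    rw [hcl]
    push_cast
    linarith
  have hfe : y (.inl (.inl h')) ≤ wXM b h' - wcr b h' := by
    have := A'.fe_low hi
    linarith
  have hsum : y (.inl (.inl h')) + y (.inl (.inl h)) < 1 := by linarith
  have hsum2 : y (.inl (.inl h')) + y (.inl (.inl h2)) < 1 := by linarith
  have hw0 : 0 < y (.inl (.inl h')) := by linarith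
  have hx0 : 0 < y (.inl (.inl h)) := by linarith
  have hv0 : 0 < y (.inl (.inl h2)) := by linarith
  have hw' : ((1600 : ℤ) : ℝ) / 10000 ≤ y (.inl (.inl h')) := by
    push_cast
    linarith
  have s1 := MF.own3 hk ⟨hw', hcon.le⟩ ⟨hx, hx'⟩
    (T := ofs (b i) (zs (.inl (.inl h'))).im) (κ := ofs (b i) (zs (.inl (.inl h))).im)
    ⟨by push_cast; linarith, by push_cast; linarith⟩ (by push_cast; linarith)
    (by push_cast; linarith) hsum
  obtain ⟨p1, p2, p3⟩ := A.par13 hi hj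
  have e0 := A.Yw_fl hy (by rw [p2]; linarith) (by rw [p1, p3]; linarith)
  have e1 := A'.side_one hb hi (zs := zs) (y := y) 0
  have e2 := A'.Yw_fl hy hw hfe
  rw [show (0 : Fin 3).rev = 2 from rfl, ofs_zero', e0, e2] at e1
  have e3 := MF.S1_fs (w := y (.inl (.inl h'))) (x := y (.inl (.inl h)))
    (T := ofs (b i) (zs (.inl (.inl h'))).im) (K := ofs (b i) (zs (.inl (.inl h))).im) hw0 hx0
    hsum (((10 : ℤ) : ℝ))
  rw [← e1] at e3
  rw [← e3] at s1
  have hop2 := A2.opp hb (Or.inl (by rw [hj']; decide))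
  obtain ⟨-, -, b3, -⟩ := A2.box hb hL
  rw [hj', A2.ss hop2] at b3
  rw [show (Fin.rev (Fin.rev (0 : Fin 3))) = 0 from rfl] at A2
  have hlow : -(985 / 10000) ≤ (Yw b zs y j' 0).im := by
    refine A2.im_low hy (by norm_num) (le_trans ?_ b3)
    generalize clsW b l = B
    cases B <;> simp only [hbox] <;> norm_num
  have hT2 : ofs (b j') (zs (.inl (.inl h'))).im = -ofs (b i) (zs (.inl (.inl h'))).im :=
    ofs_opp hop _
  have s2 := MF.two3 hk ⟨hw', hcon.le⟩ (T := ofs (b j') (zs (.inl (.inl h'))).im)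
    (K := (Yw b zs y j' 0).im)
    ⟨by push_cast; linarith, by push_cast; linarith⟩ hsum2 ⟨g3, g2⟩ hlow
  refine A'.flat_left hy hw (lt_of_le_of_ne hfe ?_) ?_
  · intro h5
    have := A'.fe_low hi
    linarith
  · have q1 := A'.symm.side_two hb (Or.inl hj') (zs := zs) (y := y) 0
    have q2 := A'.symm.Yw_fl hy hw hfe
    have q3 := A2.Yw_lv (zs := zs) (y := y)
    rw [show (0 : Fin 3).rev = 2 from rfl] at q1 q2 ⊢
    rw [show (2 : Fin 3).rev = 0 from rfl] at q1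
    rw [ofs_zero', q2, q3] at q1
    have q4 := MF.S2_fs (w := y (.inl (.inl h'))) (x := y (.inl (.inl h2)))
      (T := ofs (b j') (zs (.inl (.inl h'))).im) (K := (Yw b zs y j' 0).im) hw0 hv0
      hsum2 (((0 : ℤ) : ℝ))
    rw [← q1] at q4
    rw [← q4] at s2
    push_cast at s1 s2
    rw [hT2] at s2
    linarith

end SR

end Pool.Agent.Work.MP_b30479_gt.G2
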