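import Pool.Agent.Work.MP_b30479_gt.G2.MLW

/-!
# A digit `1` next to slot `2` of a `3`, without an order of the ratios

The hinge `3 | 1` is between `110 / 1000` and `131 / 1000`; floors `F1`.  Rows generated.
-/

namespace Pool.Agent.Work.MP_b30479_gt.G2

open Real Set VOL NumI NumI.E SR

namespace ML

theorem os_1 : runT (row 1 (cE 2 0 4500) 320 (-80) (-22) 150 0 1)
    (.z (.z (.z (.y (.z (.y .a .b) .a) (.z (.x .a (.y .a .a)) .a)) .b) .b) (.z .b (.z .b (.y (.y (.x
    .a (.z .a (.y (.x .b .b) .b))) .a) .a))))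
    (bx 110 131 1400 6134 125 700) = true := by decide +kernel

theorem os_2 : runT (row 1 (cE 2 0 4500) 400 0 46 150 0 1)
    (.z (.z (.z .a .a) .a) .a)
    (bx 110 131 3066 6267 150 560) = true := by decide +kernel

theorem os_2e : runT (row 1 (cE 2 0 4500) 400 (-45) 51 150 0 1)
    (.z (.z (.z (.x .a (.z (.x .a (.y .a .a)) .a)) .a) .a) .a)
    (bx 110 131 5800 7634 125 370) = true := by decide +kernel

theorem ot_1 : runT (row 1 (cE 2 0 4500) 340 (-80) (-22) 150 0 1)
    (.z (.z (.z (.z (.y .a (.z .a .a)) .b) .a) .a) (.z .a (.y (.y (.z .a .b) .b) .a)))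
    (bx 110 124 1400 6134 125 700) = true := by decide +kernel

variable {T x y k : ℝ}

theorem los_1 (H : (⟨110, 131, 210, 920, -80, -22, 125, 700, 0, 1⟩ : Dat).H T x y k) (h0 : 0 < x) (h0' : 0 < y) (hs : x + y < 1) :
    ((320 : ℤ) : ℝ) / 1000 < sd 1 (cR 2 0 4500 x) x (T / (((150 : ℤ) : ℝ) / 1000)) y k :=
  use_row (Or.inl rfl) os_1 _ (by decide) H h0 h0' hs

theorem los_2 (H : (⟨110, 131, 460, 940, 0, 46, 150, 560, 0, 1⟩ : Dat).H T x y k) (h0 : 0 < x) (h0' : 0 < y) (hs : x + y < 1) :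
    ((400 : ℤ) : ℝ) / 1000 < sd 1 (cR 2 0 4500 x) x (T / (((150 : ℤ) : ℝ) / 1000)) y k :=
  use_row (Or.inl rfl) os_2 _ (by decide) H h0 h0' hs

theorem los_2e (H : (⟨110, 131, 870, 1145, -45, 51, 125, 370, 0, 1⟩ : Dat).H T x y k) (h0 : 0 < x) (h0' : 0 < y) (hs : x + y < 1) :
    ((400 : ℤ) : ℝ) / 1000 < sd 1 (cR 2 0 4500 x) x (T / (((150 : ℤ) : ℝ) / 1000)) y k :=
  use_row (Or.inl rfl) os_2e _ (by decide) H h0 h0' hs

theorem lot_1 (H : (⟨110, 124, 210, 920, -80, -22, 125, 700, 0, 1⟩ : Dat).H T x y k) (h0 : 0 < x) (h0' : 0 < y) (hs : x + y < 1) :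
    ((340 : ℤ) : ℝ) / 1000 < sd 1 (cR 2 0 4500 x) x (T / (((150 : ℤ) : ℝ) / 1000)) y k :=
  use_row (Or.inl rfl) ot_1 _ (by decide) H h0 h0' hs

end ML

open Finset VOL Filter Topology

namespace SR

open ML

variable {M : ℕ} {b : Fin (M + 1) → ℤ} {zs : DD (tyW b) ⊕ ZZ (tyW b) → ℂ}
variable {y : DD (tyW b) ⊕ ZZ (tyW b) → ℝ}
variable {h h' : Fin M} {i j j' : Fin (M + 1)} {p : Fin 3}

/-- **A digit `1` next to slot `2` of a `3`**, floors `F1`, no order of the ratios. -/
theorem Adj.one_S2 (A : Adj h i p j) (A' : Adj h' i p.rev j') (hb : ClassW b) (hX : LocX b zs)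
    (hy : Mx b zs y) (hpos : ∀ h : Fin M, 0 < y (.inl (.inl h))) (hF : Flr b y F1)
    (hc : clsW b i = .one) (hj : clsW b j = .three) (hp : p ≠ 2)
    (hx0 : 110 / 1000 ≤ y (.inl (.inl h))) (hx : y (.inl (.inl h)) ≤ 131 / 1000)
    (hcap : y (.inl (.inl h')) ≤ (cpz 1 .threeB (clsW b j') : ℝ) / 1000) :
    (32 : ℝ) / 100 ≤ Sw b zs y i p ((zs (.inl (.inl h))).im / wcl b h) +
      (Real.pi - 9 / 2 * y (.inl (.inl h))) * ofs (b i) ((zs (.inl (.inl h))).im / wcl b h) := by
  have hcl : wcl b h = ((150 : ℤ) : ℝ) / 1000 := by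
    rw [A.cl_one hc, hj]
    simp only [k7, if_neg hp]
    rfl
  have ok := okp_of hb A A' hc
  have hF' := hF A'
  obtain ⟨w1, w2, w3, -⟩ := hX.win A A' hc
  obtain ⟨v1, -, -, -⟩ := hX.win A' A.rr hc
  have hs : y (.inl (.inl h)) + y (.inl (.inl h')) < 1 := by
    have : (cpz 1 .threeB (clsW b j') : ℝ) ≤ 700 := by
      generalize clsW b j' = C
      cases C <;> simp only [cpz] <;> norm_num
    linarith
  have e1 := A.one_sd A' hb hy hc (by rw [hcl]; push_cast; linarith) (hpos h) (hpos h') hs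
    (Real.pi - 9 / 2 * y (.inl (.inl h)))
  rw [hj] at ok w1 w2 w3 v1
  rw [e1, hcl]
  have e2 : Real.pi - 9 / 2 * y (.inl (.inl h)) = cR 2 0 4500 (y (.inl (.inl h))) := by
    unfold cR
    push_cast
    ring
  rw [e2]
  have hk : ∀ {a s : ℝ}, a ≤ 0 → a ≤ ofs (b i) (zs (.inl (.inl h'))).im →
      s - ofs (b i) (zs (.inl (.inl h))).im ≤ 0 →
      s ≤ ofs (b i) (zs (.inl (.inl h))).im + ofs (b i) (zs (.inl (.inl h'))).im →
      a ≤ (Yw b zs y i p.rev).im ∧
        s - ofs (b i) (zs (.inl (.inl h))).im ≤ (Yw b zs y i p.rev).im :=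
    fun ha ha' hs1 hs2 => ⟨A'.im_low hy ha ha', A'.im_low hy hs1 (by linarith)⟩
  have hv := (hpos h').le
  cases hj' : clsW b j'
  case one =>
    rw [hc, hj'] at hF'
    rw [hj'] at w1 w2 w3 v1 hcap
    simp only [cw, F1, cpz] at w1 w2 w3 v1 hF' hcap
    have t11 := (abs_le.1 (hX.t11 hb A' hc hj')).1
    obtain ⟨k1, k2⟩ := hk (a := -(80 / 1000)) (s := -(22 / 1000)) (by norm_num) (by linarith)
      (by linarith) (by linarith)
    exact le_trans (by norm_num) (los_1
      ⟨by push_cast; linarith, by push_cast; linarith, by push_cast; linarith,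
        by push_cast; linarith, by push_cast; linarith, by push_cast; linarith,
        by push_cast; linarith, by push_cast at hcap ⊢; linarith,
        by push_cast; linarith⟩ (hpos h) (hpos h') hs).le
  case two =>
    rw [hc, hj'] at hF'
    rw [hj'] at w1 w2 w3 v1 hcap
    simp only [cw, F1, cpz] at w1 w2 w3 v1 hF' hcap
    obtain ⟨k1, k2⟩ := hk (a := 0) (s := 46 / 1000) (by norm_num) (by linarith)
      (by linarith) (by linarith)
    exact le_trans (by norm_num) (los_2
      ⟨by push_cast; linarith, by push_cast; linarith, by push_cast; linarith,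
        by push_cast; linarith, by push_cast; linarith, by push_cast; linarith,
        by push_cast; linarith, by push_cast at hcap ⊢; linarith,
        by push_cast; linarith⟩ (hpos h) (hpos h') hs).le
  case twoE =>
    rw [hc, hj'] at hF'
    rw [hj'] at w1 w2 w3 v1 hcap
    simp only [cw, F1, cpz] at w1 w2 w3 v1 hF' hcap
    obtain ⟨k1, k2⟩ := hk (a := -(45 / 1000)) (s := 51 / 1000) (by norm_num) (by linarith)
      (by linarith) (by linarith)
    exact le_trans (by norm_num) (los_2e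
      ⟨by push_cast; linarith, by push_cast; linarith, by push_cast; linarith,
        by push_cast; linarith, by push_cast; linarith, by push_cast; linarith,
        by push_cast; linarith, by push_cast at hcap ⊢; linarith,
        by push_cast; linarith⟩ (hpos h) (hpos h') hs).le
  all_goals exact absurd ok (by rw [hj']; simp [ML.okp])

/-- **A digit `1` next to slot `2` of a `3`**, floors `F1`, shorter range. -/
theorem Adj.one_S2b (A : Adj h i p j) (A' : Adj h' i p.rev j') (hb : ClassW b) (hX : LocX b zs)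
    (hy : Mx b zs y) (hpos : ∀ h : Fin M, 0 < y (.inl (.inl h))) (hF : Flr b y F1)
    (hc : clsW b i = .one) (hj : clsW b j = .three) (hp : p ≠ 2)
    (hx0 : 110 / 1000 ≤ y (.inl (.inl h))) (hx : y (.inl (.inl h)) ≤ 124 / 1000)
    (hcap : y (.inl (.inl h')) ≤ (cpz 1 .threeB (clsW b j') : ℝ) / 1000) :
    (34 : ℝ) / 100 ≤ Sw b zs y i p ((zs (.inl (.inl h))).im / wcl b h) +
      (Real.pi - 9 / 2 * y (.inl (.inl h))) * ofs (b i) ((zs (.inl (.inl h))).im / wcl b h) := by
  have hcl : wcl b h = ((150 : ℤ) : ℝ) / 1000 := by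
    rw [A.cl_one hc, hj]
    simp only [k7, if_neg hp]
    rfl
  have ok := okp_of hb A A' hc
  have hF' := hF A'
  obtain ⟨w1, w2, w3, -⟩ := hX.win A A' hc
  obtain ⟨v1, -, -, -⟩ := hX.win A' A.rr hc
  have hs : y (.inl (.inl h)) + y (.inl (.inl h')) < 1 := by
    have : (cpz 1 .threeB (clsW b j') : ℝ) ≤ 700 := by
      generalize clsW b j' = C
      cases C <;> simp only [cpz] <;> norm_num
    linarith
  have e1 := A.one_sd A' hb hy hc (by rw [hcl]; push_cast; linarith) (hpos h) (hpos h') hs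
    (Real.pi - 9 / 2 * y (.inl (.inl h)))
  rw [hj] at ok w1 w2 w3 v1
  rw [e1, hcl]
  have e2 : Real.pi - 9 / 2 * y (.inl (.inl h)) = cR 2 0 4500 (y (.inl (.inl h))) := by
    unfold cR
    push_cast
    ring
  rw [e2]
  have hk : ∀ {a s : ℝ}, a ≤ 0 → a ≤ ofs (b i) (zs (.inl (.inl h'))).im →
      s - ofs (b i) (zs (.inl (.inl h))).im ≤ 0 →
      s ≤ ofs (b i) (zs (.inl (.inl h))).im + ofs (b i) (zs (.inl (.inl h'))).im →
      a ≤ (Yw b zs y i p.rev).im ∧
        s - ofs (b i) (zs (.inl (.inl h))).im ≤ (Yw b zs y i p.rev).im :=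
    fun ha ha' hs1 hs2 => ⟨A'.im_low hy ha ha', A'.im_low hy hs1 (by linarith)⟩
  have hv := (hpos h').le
  cases hj' : clsW b j'
  case one =>
    rw [hc, hj'] at hF'
    rw [hj'] at w1 w2 w3 v1 hcap
    simp only [cw, F1, cpz] at w1 w2 w3 v1 hF' hcap
    have t11 := (abs_le.1 (hX.t11 hb A' hc hj')).1
    obtain ⟨k1, k2⟩ := hk (a := -(80 / 1000)) (s := -(22 / 1000)) (by norm_num) (by linarith)
      (by linarith) (by linarith)
    exact le_trans (by norm_num) (lot_1
      ⟨by push_cast; linarith, by push_cast; linarith, by push_cast; linarith,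
        by push_cast; linarith, by push_cast; linarith, by push_cast; linarith,
        by push_cast; linarith, by push_cast at hcap ⊢; linarith,
        by push_cast; linarith⟩ (hpos h) (hpos h') hs).le
  case two =>
    rw [hc, hj'] at hF'
    rw [hj'] at w1 w2 w3 v1 hcap
    simp only [cw, F1, cpz] at w1 w2 w3 v1 hF' hcap
    obtain ⟨k1, k2⟩ := hk (a := 0) (s := 46 / 1000) (by norm_num) (by linarith)
      (by linarith) (by linarith)
    exact le_trans (by norm_num) (los_2
      ⟨by push_cast; linarith, by push_cast; linarith, by push_cast; linarith,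
        by push_cast; linarith, by push_cast; linarith, by push_cast; linarith,
        by push_cast; linarith, by push_cast at hcap ⊢; linarith,
        by push_cast; linarith⟩ (hpos h) (hpos h') hs).le
  case twoE =>
    rw [hc, hj'] at hF'
    rw [hj'] at w1 w2 w3 v1 hcap
    simp only [cw, F1, cpz] at w1 w2 w3 v1 hF' hcap
    obtain ⟨k1, k2⟩ := hk (a := -(45 / 1000)) (s := 51 / 1000) (by norm_num) (by linarith)
      (by linarith) (by linarith)
    exact le_trans (by norm_num) (los_2e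
      ⟨by push_cast; linarith, by push_cast; linarith, by push_cast; linarith,
        by push_cast; linarith, by push_cast; linarith, by push_cast; linarith,
        by push_cast; linarith, by push_cast at hcap ⊢; linarith,
        by push_cast; linarith⟩ (hpos h) (hpos h') hs).le
  all_goals exact absurd ok (by rw [hj']; simp [ML.okp])

end SR

end Pool.Agent.Work.MP_b30479_gt.G2
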