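import Pool.Agent.Work.NumU.GenD

/-!
# Mirrored paths, kind `1 | 2`: expressions of the rows

Hinge between a digit `1` (the lower side) and a digit `2`: it is at `x` on its mirrored path (ramp
`80/100, 16/100, 29/100`, height `16/100`), the target is `c + i e`.  The gains of both sides are
separated by the functions `al1`, ..., `al4` of `x` and of the height `T` of the main path.
-/

namespace Pool.Agent.Work.NumG

open MP_b30479_gt.G2
open NumU (uu uu_neg UU_uu)

namespace K12

/-! ### expressions -/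

def X : E := .var 0
def T : E := .var 1
def Y : E := .var 2
def S : E := .var 3

/-- height of the mirrored path at `x` -/
def ax : E := .mul (E.c 1600) (E.tr 800 160 290 X)

/-- functions between the two sides -/
def al (y0 : ℤ) (l : List (ℤ × ℤ × ℕ)) (q : ℤ) : E := .sub (E.pl X y0 l) (.mul (.q q 10) T)

def al1 : E := al (-244) [(0, 9, 10), (10, -17, 20), (30, -11, 20), (40, -3, 5), (50, -2, 5),
  (60, -11, 20), (80, -9, 20)] 21
def al2 : E := al (-425) [(100, -59, 20), (120, -9, 20), (140, -1, 4), (160, 113, 40),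
  (200, -39, 200), (250, -13, 50), (300, -8, 25), (400, -2, 25), (500, 9, 50), (510, 3, 1)] 22
def al3 : E := al (-951) [(550, 6, 5), (600, 23, 50), (650, 12, 25), (700, 47, 200)] 24
def al4 : E := al (-434) [(740, 73, 30)] 25

/-- side of the `1`: hinge moved from `x - i a` to `c + i e`, other hinge at `y + i s` -/
def gA (c e al s : E) : E :=
  .sub (.add (.sub (.uw (.add c Y) (.add e s)) (.uw (.add X Y) (.sub s ax)))
    (.mul .pi (.add (.mul (.sub c X) s) (.mul (.sub Y (.q 1 1)) (.add e ax))))) al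

/-- the same, for large heights -/
def gX (c e al s : E) : E :=
  .sub (.add (.sub (.ux (.add c Y) (.add e s)) (.ux (.add X Y) (.sub s ax)))
    (.mul .pi (.add (.mul (.sub c X) s) (.mul (.sub Y (.q 1 1)) (.add e ax))))) al

/-- side of the `2`: hinge moved from `x + i a` to `c - i e`, other hinge kept at `y + i s` -/
def gB (c e al s : E) : E :=
  .add (.add (.sub (.uw (.add c Y) (.sub s e)) (.uw (.add X Y) (.add s ax)))
      (.mul (.q 3 1) (.sub (.uw X ax) (.uw c e))))
    (.add (.mul .pi (.add (.add (.mul (.sub c Y) (.add e s)) (.mul (.sub X Y) (.sub ax s)))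
      (.add (.mul (.q 1 2) (.add e ax)) (.mul (.q 2 1) ax)))) al)

/-- side of the `2`: the other hinge moved from `y + i s` to `d - i f`, gain `ph` behind it -/
def gR (c e al s d f ph : E) : E :=
  .add (.add (.add (.sub (.uw (.add c d) (.add e f)) (.uw (.add X Y) (.add ax s)))
      (.mul (.q 3 1) (.sub (.uw X ax) (.uw c e)))) (.mul (.q 2 1) (.sub (.uw Y s) (.uw d f))))
    (.add (.mul .pi (.add (.add (.mul (.sub c d) (.sub e f)) (.mul (.sub X Y) (.sub ax s)))
      (.add (.mul (.q 1 2) (.add (.add e f) (.add ax s))) (.mul (.q 2 1) ax)))) (.add ph al))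

/-- positions of the other hinges -/
def sUp : E := .mul S (E.tr 860 150 200 Y)
def sDn : E := .neg (.mul S (E.tr 860 130 200 Y))
def s3a : E := .neg (.mul (.q 1 2) (E.tr 650 130 150 Y))
def hUp : E := .mul S (E.tr 700 140 350 Y)
def bUp : E := .mul S (E.tr 600 125 300 Y)
def bDn : E := .neg (.mul S (E.tr 600 100 270 Y))
def b3a : E := .neg (.mul (.q 3 10) (E.tr 600 120 270 Y))
def tY : E := E.tr 800 160 290 Y
def tX : E := E.tr 800 160 290 X
def wM : E := .neg (.mul S tY)
def wU : E := .mul (E.c 1600) tY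
def wD : E := .neg (.mul (E.c 1600) tY)

/-- lower bounds for the gain behind the other hinge of the `2` at `y`, height `t` of its main path at
the other `1`: main path, moved to `7/20`; mirrored path, moved to `1/4` or `7/20` -/
def phM (y t : E) : E := .sub (.sub (.q (-215) 1000) (.mul (.q 37 100) (.sub y (.q 65 100))))
  (.mul t (.add (.q 113 100) (.mul (.q 91 10) (.sub y (.q 65 100)))))
def phM0 (y : E) : E := .sub (.q (-215) 1000) (.mul (.q 37 100) (.sub y (.q 65 100)))
def phU (y t : E) : E := .sub (E.pl y (-280) [(0, 4, 1), (50, -1, 5), (100, -4, 5), (150, -14, 5),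
  (200, -5, 4)]) (.mul (.q 16 10) t)
def phV (y t : E) : E := .sub (.sub (.q (-12) 100) (.mul (.q 75 100) (.sub y (.q 6 10))))
  (.mul (.q 24 10) t)
def phD (y : E) : E := .sub (.q 100 1000) (.mul (.q 28 10) (.sub y (.q 65 100)))

/-- behind the other hinge: hinge moved from `x + i t` to `d + i f`, penalty `p`, next hinge at
`y + i s` -/
def gF (d f t p ph s : E) : E :=
  .sub (.add (.sub (.sub (.uw (.add d Y) (.add f s)) (.uw d f)) (.sub (.uw (.add X Y) (.add t s))
    (.uw X t))) (.mul .pi (.add (.add (.mul (.sub d X) s) (.mul (.sub Y (.q 1 1)) (.sub f t)))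
    (.mul (.q 2 1) p)))) ph
def gFX (d f t p ph s : E) : E :=
  .sub (.add (.sub (.sub (.ux (.add d Y) (.add f s)) (.uw d f)) (.sub (.ux (.add X Y) (.add t s))
    (.uw X t))) (.mul .pi (.add (.add (.mul (.sub d X) s) (.mul (.sub Y (.q 1 1)) (.sub f t)))
    (.mul (.q 2 1) p)))) ph

/-- targets and their heights -/
def e1 : E := .mul (.q 3 4) T
def c12 : E := E.c 1200
def c20 : E := E.c 2000
def c25 : E := E.c 2500
def c35 : E := E.c 3500
def c50 : E := E.c 5000
def z0 : E := .q 0 1
def uX : E := .neg ax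
def mX : E := .mul T tX

/-! ### values -/

/-- ramp function -/
noncomputable def tR (XM : ℤ) (cl cr : ℕ) (x : ℝ) : ℝ :=
  MP_b30479_gt.G2.tr 0 ((XM : ℝ) / 1000) ((cl : ℝ) / 1000) ((cr : ℝ) / 1000) x

/-- height of the mirrored path -/
noncomputable def aR (x : ℝ) : ℝ := ((1600 : ℤ) : ℝ) / ((10000 : ℕ) : ℝ) * tR 800 160 290 x

noncomputable def RA (c e al s x y : ℝ) : ℝ :=
  uu (c + y) (e + s) - uu (x + y) (s - aR x) +
    Real.pi * ((c - x) * s + (y - 1) * (e + aR x)) - al

noncomputable def RB (c e al s x y : ℝ) : ℝ :=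
  uu (c + y) (s - e) - uu (x + y) (s + aR x) + 3 * (uu x (aR x) - uu c e) +
    (Real.pi * ((c - y) * (e + s) + (x - y) * (aR x - s) + (1 / 2 * (e + aR x) + 2 * aR x)) + al)

noncomputable def RR (c e al s d f ph x y : ℝ) : ℝ :=
  uu (c + d) (e + f) - uu (x + y) (aR x + s) + 3 * (uu x (aR x) - uu c e) +
    2 * (uu y s - uu d f) + (Real.pi * ((c - d) * (e - f) + (x - y) * (aR x - s) +
      (1 / 2 * (e + f + (aR x + s)) + 2 * aR x)) + (ph + al))

noncomputable def RF (d f t p ph s x y : ℝ) : ℝ :=
  uu (d + y) (f + s) - uu d f - (uu (x + y) (t + s) - uu x t) +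
    Real.pi * ((d - x) * s + (y - 1) * (f - t) + 2 * p) - ph

variable {x t y u : ℝ}

theorem ax_val (l : List ℝ) : ax.val (x :: l) = aR x := by
  unfold ax aR tR
  simp only [E.c, E.val, X, E.tr_val (XM := 800) (cl := 160) (cr := 290) (by norm_num) (by norm_num)
    (by norm_num), NumI.lkR]

theorem gA_val (c e al s : E) : (gA c e al s).val [x, t, y, u] =
    RA (c.val [x, t, y, u]) (e.val [x, t, y, u]) (al.val [x, t, y, u]) (s.val [x, t, y, u]) x y := by
  unfold RA
  simp only [gA, E.val, ax_val, X, Y, NumI.lkR]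
  norm_num

theorem gX_val (c e al s : E) : (gX c e al s).val [x, t, y, u] =
    RA (c.val [x, t, y, u]) (e.val [x, t, y, u]) (al.val [x, t, y, u]) (s.val [x, t, y, u]) x y := by
  unfold RA
  simp only [gX, E.val, ax_val, X, Y, NumI.lkR]
  norm_num

theorem gB_val (c e al s : E) : (gB c e al s).val [x, t, y, u] =
    RB (c.val [x, t, y, u]) (e.val [x, t, y, u]) (al.val [x, t, y, u]) (s.val [x, t, y, u]) x y := by
  unfold RB
  simp only [gB, E.val, ax_val, X, Y, NumI.lkR]
  norm_num

theorem gR_val (c e al s d f ph : E) : (gR c e al s d f ph).val [x, t, y, u] =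
    RR (c.val [x, t, y, u]) (e.val [x, t, y, u]) (al.val [x, t, y, u]) (s.val [x, t, y, u])
      (d.val [x, t, y, u]) (f.val [x, t, y, u]) (ph.val [x, t, y, u]) x y := by
  unfold RR
  simp only [gR, E.val, ax_val, X, Y, NumI.lkR]
  norm_num

theorem gF_val (d f w p ph s : E) : (gF d f w p ph s).val [x, t, y, u] =
    RF (d.val [x, t, y, u]) (f.val [x, t, y, u]) (w.val [x, t, y, u]) (p.val [x, t, y, u])
      (ph.val [x, t, y, u]) (s.val [x, t, y, u]) x y := by
  unfold RF
  simp only [gF, E.val, X, Y, NumI.lkR]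
  norm_num

theorem gFX_val (d f w p ph s : E) : (gFX d f w p ph s).val [x, t, y, u] =
    RF (d.val [x, t, y, u]) (f.val [x, t, y, u]) (w.val [x, t, y, u]) (p.val [x, t, y, u])
      (ph.val [x, t, y, u]) (s.val [x, t, y, u]) x y := by
  unfold RF
  simp only [gFX, E.val, X, Y, NumI.lkR]
  norm_num

end K12

end Pool.Agent.Work.NumG
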