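import Pool.Agent.Work.MP_b30479_gt.G2.MJA

/-!
# Mirrored paths, kind `1 | 2`: the gains of the regions
-/

namespace Pool.Agent.Work.NumG

open MP_b30479_gt.G2
open NumU (uu uu_neg UU_uu)

namespace K12

/-- gain of the digit `1` -/
theorem V1_A (c e al s x y : ℝ) : V1 ⟨c, e⟩ ⟨y, s⟩ - V1 ⟨x, -aR x⟩ ⟨y, s⟩ =
    RA c e al s x y + al + (uu x (aR x) - uu c e) := by
  unfold MP_b30479_gt.G2.V1 RA
  simp only [UU_uu, Complex.add_re, Complex.add_im, Complex.sub_im, Complex.mul_im]
  rw [uu_neg x (aR x), show -aR x + s = s - aR x by ring]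
  ring

/-- gain of the digit `2`, the other hinge kept -/
theorem V2_B (c e al s x y : ℝ) : V2 ⟨c, -e⟩ ⟨y, s⟩ - V2 ⟨x, aR x⟩ ⟨y, s⟩ =
    RB c e al s x y - al - 2 * Real.pi * aR x - (uu x (aR x) - uu c e) := by
  unfold MP_b30479_gt.G2.V2 RB
  simp only [UU_uu, Complex.add_re, Complex.add_im, Complex.sub_im, Complex.sub_re,
    Complex.mul_im, pow_two]
  rw [uu_neg c e, show -e + s = s - e by ring, add_comm (aR x) s]
  ring

/-- gain of the digit `2`, the other hinge responds -/
theorem V2_R (c e al s d f ph x y : ℝ) : V2 ⟨c, -e⟩ ⟨d, -f⟩ - V2 ⟨x, aR x⟩ ⟨y, s⟩ =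
    RR c e al s d f ph x y - ph - al - 2 * Real.pi * aR x - (uu x (aR x) - uu c e) := by
  have h1 : uu (c + d) (-e + -f) = uu (c + d) (e + f) := by
    rw [← neg_add, uu_neg]
  unfold MP_b30479_gt.G2.V2 RR
  simp only [UU_uu, Complex.add_re, Complex.add_im, Complex.sub_im, Complex.sub_re,
    Complex.mul_im, pow_two]
  rw [uu_neg c e, uu_neg d f, h1]
  ring

/-- gain of a far digit `1` -/
theorem V1_F (d f t p ph s x y : ℝ) : V1 ⟨d, f⟩ ⟨y, s⟩ - V1 ⟨x, t⟩ ⟨y, s⟩ + 2 * Real.pi * p =
    RF d f t p ph s x y + ph := by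
  unfold MP_b30479_gt.G2.V1 RF
  simp only [UU_uu, Complex.add_re, Complex.add_im, Complex.sub_im, Complex.mul_im]
  ring

/-! ### values of the parameters -/

variable {x t y u : ℝ}

/-- value of a function of `x` and of the height -/
noncomputable def lR (al : E) (x t : ℝ) : ℝ := al.val [x, t]

theorem al1_val : al1.val [x, t, y, u] = lR al1 x t := rfl

theorem al2_val : al2.val [x, t, y, u] = lR al2 x t := rfl

theorem al3_val : al3.val [x, t, y, u] = lR al3 x t := rfl

theorem al4_val : al4.val [x, t, y, u] = lR al4 x t := rfl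

theorem c12_val (xs : List ℝ) : c12.val xs = 12 / 100 := by
  simp only [c12, E.c, E.val]
  norm_num

theorem c20_val (xs : List ℝ) : c20.val xs = 20 / 100 := by
  simp only [c20, E.c, E.val]
  norm_num

theorem c25_val (xs : List ℝ) : c25.val xs = 25 / 100 := by
  simp only [c25, E.c, E.val]
  norm_num

theorem c35_val (xs : List ℝ) : c35.val xs = 35 / 100 := by
  simp only [c35, E.c, E.val]
  norm_num

theorem c50_val (xs : List ℝ) : c50.val xs = 50 / 100 := by
  simp only [c50, E.c, E.val]
  norm_num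

theorem z0_val (xs : List ℝ) : z0.val xs = 0 := by
  simp only [z0, E.val]
  norm_num

theorem T_val : T.val [x, t, y, u] = t := rfl

theorem S_val : S.val [x, t, y, u] = u := rfl

theorem e1_val : e1.val [x, t, y, u] = 3 / 4 * t := by
  simp only [e1, T, E.val, NumI.lkR]
  norm_num

theorem tY_val : tY.val [x, t, y, u] = tR 800 160 290 y := by
  simp only [tY, tR, Y, NumI.lkR, E.val, E.tr_val (XM := 800) (cl := 160) (cr := 290) (by norm_num)
    (by norm_num) (by norm_num)]

theorem tX_val : tX.val [x, t, y, u] = tR 800 160 290 x := by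
  simp only [tX, tR, X, NumI.lkR, E.val, E.tr_val (XM := 800) (cl := 160) (cr := 290) (by norm_num)
    (by norm_num) (by norm_num)]

theorem aR_eq (y : ℝ) : aR y = 16 / 100 * tR 800 160 290 y := by
  unfold aR
  norm_num

theorem sUp_val : sUp.val [x, t, y, u] = u * tR 860 150 200 y := by
  simp only [sUp, S, tR, Y, NumI.lkR, E.val, E.tr_val (XM := 860) (cl := 150) (cr := 200)
    (by norm_num) (by norm_num) (by norm_num)]

theorem sDn_val : sDn.val [x, t, y, u] = -(u * tR 860 130 200 y) := by
  simp only [sDn, S, tR, Y, NumI.lkR, E.val, E.tr_val (XM := 860) (cl := 130) (cr := 200)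
    (by norm_num) (by norm_num) (by norm_num)]

theorem s3a_val : s3a.val [x, t, y, u] = -(1 / 2 * tR 650 130 150 y) := by
  simp only [s3a, tR, Y, NumI.lkR, E.val, E.tr_val (XM := 650) (cl := 130) (cr := 150)
    (by norm_num) (by norm_num) (by norm_num)]
  norm_num

theorem hUp_val : hUp.val [x, t, y, u] = u * tR 700 140 350 y := by
  simp only [hUp, S, tR, Y, NumI.lkR, E.val, E.tr_val (XM := 700) (cl := 140) (cr := 350)
    (by norm_num) (by norm_num) (by norm_num)]

theorem bUp_val : bUp.val [x, t, y, u] = u * tR 600 125 300 y := by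
  simp only [bUp, S, tR, Y, NumI.lkR, E.val, E.tr_val (XM := 600) (cl := 125) (cr := 300)
    (by norm_num) (by norm_num) (by norm_num)]

theorem bDn_val : bDn.val [x, t, y, u] = -(u * tR 600 100 270 y) := by
  simp only [bDn, S, tR, Y, NumI.lkR, E.val, E.tr_val (XM := 600) (cl := 100) (cr := 270)
    (by norm_num) (by norm_num) (by norm_num)]

theorem b3a_val : b3a.val [x, t, y, u] = -(3 / 10 * tR 600 120 270 y) := by
  simp only [b3a, tR, Y, NumI.lkR, E.val, E.tr_val (XM := 600) (cl := 120) (cr := 270)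
    (by norm_num) (by norm_num) (by norm_num)]
  norm_num

theorem wM_val : wM.val [x, t, y, u] = -(u * tR 800 160 290 y) := by
  simp only [wM, S, NumI.lkR, E.val, tY_val]

theorem wU_val : wU.val [x, t, y, u] = aR y := by
  rw [aR_eq]
  simp only [wU, E.c, E.val, tY_val]
  norm_num

theorem wD_val : wD.val [x, t, y, u] = -aR y := by
  rw [aR_eq]
  simp only [wD, E.c, E.val, tY_val]
  norm_num

theorem uX_val : uX.val [x, t, y, u] = -aR x := by
  simp only [uX, E.val, ax_val]

theorem mX_val : mX.val [x, t, y, u] = t * tR 800 160 290 x := by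
  simp only [mX, T, E.val, NumI.lkR, tX_val]

/-! ### gains behind the other hinge of the `2` -/

noncomputable def pM (y t : ℝ) : ℝ :=
  -215 / 1000 - 37 / 100 * (y - 65 / 100) - t * (113 / 100 + 91 / 10 * (y - 65 / 100))
noncomputable def pM0 (y : ℝ) : ℝ := -215 / 1000 - 37 / 100 * (y - 65 / 100)
noncomputable def pU (y t : ℝ) : ℝ :=
  plR y (-280) [(0, 4, 1), (50, -1, 5), (100, -4, 5), (150, -14, 5), (200, -5, 4)] - 16 / 10 * t
noncomputable def pV (y t : ℝ) : ℝ := -12 / 100 - 75 / 100 * (y - 6 / 10) - 24 / 10 * t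
noncomputable def pD (y : ℝ) : ℝ := 100 / 1000 - 28 / 10 * (y - 65 / 100)

theorem phM_val (a c : E) (xs : List ℝ) : (phM a c).val xs = pM (a.val xs) (c.val xs) := by
  unfold phM pM
  simp only [E.val]
  norm_num

theorem phM0_val (a : E) (xs : List ℝ) : (phM0 a).val xs = pM0 (a.val xs) := by
  unfold phM0 pM0
  simp only [E.val]
  norm_num

theorem phU_val (a c : E) (xs : List ℝ) : (phU a c).val xs = pU (a.val xs) (c.val xs) := by
  unfold phU pU
  simp only [E.val, E.pl_val]
  norm_num

theorem phV_val (a c : E) (xs : List ℝ) : (phV a c).val xs = pV (a.val xs) (c.val xs) := by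
  unfold phV pV
  simp only [E.val]
  norm_num

theorem phD_val (a : E) (xs : List ℝ) : (phD a).val xs = pD (a.val xs) := by
  unfold phD pD
  simp only [E.val]
  norm_num

theorem X_val : X.val [x, t, y, u] = x := rfl

theorem Y_val : Y.val [x, t, y, u] = y := rfl

end K12

end Pool.Agent.Work.NumG
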