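import Pool.Agent.Work.MP_b30479_gt.G2.MJA
import Pool.Agent.Work.NumU.GenF

/-!
# Rows: kind `1 | 2`, side of the `1`, first zones
-/

namespace Pool.Agent.Work.NumG

namespace K12

theorem a1u : chkF [gA c12 e1 al1 sUp] 10000 0 0 0 0 40 0 1000 0 800 0 8600 0 1600 7933827447553490243627204014634372918819909308425160352289119170141473382317494774376590888133582748805806792437834344681387623469874134396867380259567228647912832658554604813065205599533394759930222902055884695383060350509132783915195343546091876843749147443458 = true := by
  decide +kernel

theorem a1d : chkF [gA c12 e1 al1 sDn] 10000 0 0 0 0 40 0 1000 0 800 0 8600 0 1600 410169265497332506788190601115811610157718427876393975951122279370304756165550287320456328463169914005454950316383716288320428457192347651843811965902665930554406256210869973025411804213320766704704882906555398614945705319159533605519618 = true := by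
  decide +kernel

theorem a1t : chkF [gX c12 e1 al1 s3a] 10000 0 0 0 0 40 0 1000 0 770 0 6500 0 0 40664121096944962208755250463793905241182959028347325427432343446322379626205117303337298860547619503169386354921439490 = true := by
  decide +kernel

theorem a1h : chkF [gA c12 e1 al1 hUp] 10000 0 0 0 1600 40 0 1000 800 985 0 7000 0 2200 25035503274235740624902585973247914381952683875587717093132013344665829275932413018567041683223086883508100920975392883009113271413226334127415288172021120580816714902297213992393040658094712152471559021864914388483643535019567251714 = true := by
  decide +kernel

theorem a2u : chkF [gA c20 T al2 sUp] 10000 0 0 0 0 40 1000 5500 0 800 0 8600 0 1600 683774350000951674715222930316295543768952836773812351110684987132584579627073046263224606672879188076666623790006009949975729759161007165996594611889775609410108430537022915657527731953874771932994821023221159173147224540364541564777589414967558372632441628443510524404122305116733475231625075338912396395670804695630198943077636970989465587083620726437005824357527697755855441222535671190557596002336859128374418413573276247861437271105003725029014321168137590152053657731074 = true := by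
  decide +kernel

theorem a2d : chkF [gA c20 T al2 sDn] 10000 0 0 0 0 40 1000 5500 0 800 0 8600 0 1600 586719920050152332314046004065514423899946933116294088696728382748318258877389399899705842850096102308151597473653591802841631482884669433181623621680903145496339411998013241976928936242452019531735700281149934827021171087838356833348993350386416660653201878890385670017194566438901347156545609169177648987066988225621133328733435403071275323948048407539642446867153686433831030990220382851289885502314098315112191432762679727944869014989711005242091696603108835922642286004810962573338960891700321917336946143994651451546684832270926926754373291081099026452895843262213118878330173679947349904584372627332760008857978475464005550082 = true := by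
  decide +kernel

theorem a2t : chkF [gX c20 T al2 s3a] 10000 0 0 0 0 40 1000 5500 0 770 0 6500 0 0 178837280221669539251924912888397046695510435122759372554318725382564107404636104498301178484625199624402950855903830108362097295618 = true := by
  decide +kernel

theorem a2h : chkF [gA c20 T al2 hUp] 10000 0 0 0 1600 40 1000 5500 800 985 0 7000 0 2200 2129816818491037899617052061948979060710801467126332058331618169744016104426018969399844644054468825810835139226353561015280830223462543011877651293185440510427000137189734235860118162559589817398802481710185793921239169778091969380716546606293079939482151463591673364482 = true := by
  decide +kernel

end K12

end Pool.Agent.Work.NumG
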