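import Pool.Agent.Work.MP_b30479_gt.G2.MJA
import Pool.Agent.Work.NumU.GenF

/-!
# Rows: kind `1 | 2`, side of the `1`, last zones
-/

namespace Pool.Agent.Work.NumG

namespace K12

theorem a3u : chkF [gA c35 T al3 sUp] 10000 0 0 0 0 40 5500 7400 0 800 0 8600 0 1600 347442620505726092709404857870068103636289282982640730748734135138757749400040666445590018132103335003691401945856825314577209666054845387631604399514193511705029245273427644985546932186780333875148571784545461895426 = true := by
  decide +kernel

theorem a3d : chkF [gA c35 T al3 sDn] 10000 0 0 0 0 40 5500 7400 0 800 0 8600 0 1600 211146556209691823463384073752580585347320954333281891039755632917629540374657388543039969519404772819985538801992542148496546220868308971158397794681090 = true := by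
  decide +kernel

theorem a3t : chkF [gX c35 T al3 s3a] 10000 0 0 0 0 40 5500 7400 0 770 0 6500 0 0 92057519908497787491624086406534656108328386818 = true := by
  decide +kernel

theorem a3h : chkF [gA c35 T al3 hUp] 10000 0 0 0 1600 40 5500 7400 800 985 0 7000 0 2200 15214707431167978713747625399110326994061924427859996044073452586109063122685767132281259901488334067690250482921691058335551291553996472557854885476375200775785366421762 = true := by
  decide +kernel

theorem a4u : chkF [gA c50 T al4 sUp] 10000 0 0 0 0 40 7400 7800 0 800 0 8600 0 1600 294295346848723096552425417982576858824046733089875200028191716479115116235802480865323294499227672157937221444975202654689205757286530517532510479342823983095596150054913705265150359246999683330 = true := by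
  decide +kernel

theorem a4d : chkF [gA c50 T al4 sDn] 10000 0 0 0 0 40 7400 7800 0 800 0 8600 0 1600 249274110986831499620602085445463617840407837485143023303066674469645770846293885612059897807571538313101420258615035055639268704238262854130314677229320820035462465834746114 = true := by
  decide +kernel

theorem a4t : chkF [gX c50 T al4 s3a] 10000 0 0 0 0 40 7400 7800 0 770 0 6500 0 0 5618830182193754513550032320729078732718338 = true := by
  decide +kernel

theorem a4h : chkF [gA c50 T al4 hUp] 10000 0 0 0 1600 40 7400 7800 800 985 0 7000 0 2200 7831861049894576397648866832284101939104258093017084480825348589280579786781166174466 = true := by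
  decide +kernel

theorem a5u1 : chkF [gA c50 T al4 sUp] 10000 0 0 0 0 40 7800 8000 0 800 0 4000 0 1600 294286470912493951759194291173406452261717036034433636153799983831137931237257142120669662686640438905487824404113550426063456715388897321652607248250594508482179682644177631927798257729130234114 = true := by
  decide +kernel

theorem a5u2 : chkF [gA c50 T al4 sUp] 10000 0 0 0 0 40 7800 8000 0 800 7800 8600 0 1600 1277612758194946736875315970434 = true := by
  decide +kernel

theorem a5u3 : chkF [gA c50 T al4 sUp] 10000 0 0 0 0 40 7800 8000 0 800 4000 7800 0 300 17730170290690 = true := by
  decide +kernel

theorem a5d : chkF [gA c50 T al4 sDn] 10000 0 0 0 0 40 7800 8000 0 800 0 8600 0 1600 25035503274598604356655577101711319509081346796651335577510802865181970403787400441616792424165702019950494902318695122410867687042519436880003134120487705037667257870665394397936247669975187338862921768297710017964533787788870451458 = true := by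
  decide +kernel

theorem a5t : chkF [gX c50 T al4 s3a] 10000 0 0 0 0 40 7800 8000 0 770 0 6500 0 0 5618830182193754513550032320729078732718338 = true := by
  decide +kernel

theorem a5h : chkF [gA c50 T al4 hUp] 10000 0 0 0 1600 40 7800 8000 800 985 0 7000 0 2200 478018862908604516458060719743902706244156377747624785206926331042226085143019778 = true := by
  decide +kernel

end K12

end Pool.Agent.Work.NumG
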