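import Pool.Agent.Work.MP_b30479_gt.G2.MJB
import Pool.Agent.Work.MP_b30479_gt.G2.MJR1
import Pool.Agent.Work.MP_b30479_gt.G2.MJR2

/-!
# Mirrored paths, kind `1 | 2`: side of the `1`
-/

namespace Pool.Agent.Work.NumG

open MP_b30479_gt.G2
open NumU (uu uu_neg UU_uu)

namespace K12

variable {x t y s : ℝ}

/-- **Positions of the other hinge of the `1`**; `t` is the height of the hinge `1 | 2`. -/
inductive PA (t y s : ℝ) : Prop
  | u (S : ℝ) (ht : t ≤ 8 / 100) (y0 : 0 ≤ y) (y1 : y ≤ 86 / 100) (S0 : 0 ≤ S) (S1 : S ≤ 16 / 100)
      (e : s = S * tR 860 150 200 y)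
  | d (S : ℝ) (ht : t ≤ 8 / 100) (y0 : 0 ≤ y) (y1 : y ≤ 86 / 100) (S0 : 0 ≤ S) (S1 : S ≤ 16 / 100)
      (e : s = -(S * tR 860 130 200 y))
  | t (t0 : 1 / 100 ≤ t) (ht : t ≤ 77 / 1000) (y0 : 0 ≤ y) (y1 : y ≤ 65 / 100)
      (e : s = -(1 / 2 * tR 650 130 150 y))
  | h (S : ℝ) (ht : 8 / 100 ≤ t) (y0 : 0 ≤ y) (y1 : y ≤ 70 / 100) (S0 : -(16 / 100) ≤ S)
      (S1 : S ≤ 6 / 100) (e : s = S * tR 700 140 350 y)

theorem zA1 (x0 : 0 ≤ x) (x1 : x ≤ 1 / 10) (t0 : 0 ≤ t) (t1 : t ≤ 985 / 10000)
    (h : PA t y s) : 0 < RA (12 / 100) (3 / 4 * t) (lR al1 x t) s x y := by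
  cases h with
  | u S ht y0 y1 S0 S1 e =>
    obtain ⟨e', he, hp⟩ := chkF4 a1u (by norm_num) (x := x) (y := t) (z := y) (w := S)
        (by norm_num; linarith only [x0]) (by norm_num; linarith only [x1]) (by norm_num; linarith only [t0]) (by norm_num; linarith only [ht])
        (by norm_num; linarith only [y0]) (by norm_num; linarith only [y1]) (by norm_num; linarith only [S0]) (by norm_num; linarith only [S1])
    rw [List.mem_singleton] at he
    rw [he, gA_val, c12_val, e1_val, al1_val, sUp_val] at hp
    rw [e]
    exact hp
  | d S ht y0 y1 S0 S1 e =>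
    obtain ⟨e', he, hp⟩ := chkF4 a1d (by norm_num) (x := x) (y := t) (z := y) (w := S)
        (by norm_num; linarith only [x0]) (by norm_num; linarith only [x1]) (by norm_num; linarith only [t0]) (by norm_num; linarith only [ht])
        (by norm_num; linarith only [y0]) (by norm_num; linarith only [y1]) (by norm_num; linarith only [S0]) (by norm_num; linarith only [S1])
    rw [List.mem_singleton] at he
    rw [he, gA_val, c12_val, e1_val, al1_val, sDn_val] at hp
    rw [e]
    exact hp
  | t t0' ht y0 y1 e =>
    obtain ⟨e', he, hp⟩ := chkF4 a1t (by norm_num) (x := x) (y := t) (z := y) (w := 0)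
        (by norm_num; linarith only [x0]) (by norm_num; linarith only [x1]) (by norm_num; linarith only [t0']) (by norm_num; linarith only [ht])
        (by norm_num; linarith only [y0]) (by norm_num; linarith only [y1]) (by norm_num) (by norm_num)
    rw [List.mem_singleton] at he
    rw [he, gX_val, c12_val, e1_val, al1_val, s3a_val] at hp
    rw [e]
    exact hp
  | h S ht y0 y1 S0 S1 e =>
    obtain ⟨e', he, hp⟩ := chkF4 a1h (by norm_num) (x := x) (y := t) (z := y) (w := S)
        (by norm_num; linarith only [x0]) (by norm_num; linarith only [x1]) (by norm_num; linarith only [ht]) (by norm_num; linarith only [t1])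
        (by norm_num; linarith only [y0]) (by norm_num; linarith only [y1]) (by norm_num; linarith only [S0]) (by norm_num; linarith only [S1])
    rw [List.mem_singleton] at he
    rw [he, gA_val, c12_val, e1_val, al1_val, hUp_val] at hp
    rw [e]
    exact hp

theorem zA2 (x0 : 1 / 10 ≤ x) (x1 : x ≤ 55 / 100) (t0 : 0 ≤ t) (t1 : t ≤ 985 / 10000)
    (h : PA t y s) : 0 < RA (20 / 100) (t) (lR al2 x t) s x y := by
  cases h with
  | u S ht y0 y1 S0 S1 e =>
    obtain ⟨e', he, hp⟩ := chkF4 a2u (by norm_num) (x := x) (y := t) (z := y) (w := S)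
        (by norm_num; linarith only [x0]) (by norm_num; linarith only [x1]) (by norm_num; linarith only [t0]) (by norm_num; linarith only [ht])
        (by norm_num; linarith only [y0]) (by norm_num; linarith only [y1]) (by norm_num; linarith only [S0]) (by norm_num; linarith only [S1])
    rw [List.mem_singleton] at he
    rw [he, gA_val, c20_val, T_val, al2_val, sUp_val] at hp
    rw [e]
    exact hp
  | d S ht y0 y1 S0 S1 e =>
    obtain ⟨e', he, hp⟩ := chkF4 a2d (by norm_num) (x := x) (y := t) (z := y) (w := S)
        (by norm_num; linarith only [x0]) (by norm_num; linarith only [x1]) (by norm_num; linarith only [t0]) (by norm_num; linarith only [ht])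
        (by norm_num; linarith only [y0]) (by norm_num; linarith only [y1]) (by norm_num; linarith only [S0]) (by norm_num; linarith only [S1])
    rw [List.mem_singleton] at he
    rw [he, gA_val, c20_val, T_val, al2_val, sDn_val] at hp
    rw [e]
    exact hp
  | t t0' ht y0 y1 e =>
    obtain ⟨e', he, hp⟩ := chkF4 a2t (by norm_num) (x := x) (y := t) (z := y) (w := 0)
        (by norm_num; linarith only [x0]) (by norm_num; linarith only [x1]) (by norm_num; linarith only [t0']) (by norm_num; linarith only [ht])
        (by norm_num; linarith only [y0]) (by norm_num; linarith only [y1]) (by norm_num) (by norm_num)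
    rw [List.mem_singleton] at he
    rw [he, gX_val, c20_val, T_val, al2_val, s3a_val] at hp
    rw [e]
    exact hp
  | h S ht y0 y1 S0 S1 e =>
    obtain ⟨e', he, hp⟩ := chkF4 a2h (by norm_num) (x := x) (y := t) (z := y) (w := S)
        (by norm_num; linarith only [x0]) (by norm_num; linarith only [x1]) (by norm_num; linarith only [ht]) (by norm_num; linarith only [t1])
        (by norm_num; linarith only [y0]) (by norm_num; linarith only [y1]) (by norm_num; linarith only [S0]) (by norm_num; linarith only [S1])
    rw [List.mem_singleton] at he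
    rw [he, gA_val, c20_val, T_val, al2_val, hUp_val] at hp
    rw [e]
    exact hp

theorem zA3 (x0 : 55 / 100 ≤ x) (x1 : x ≤ 74 / 100) (t0 : 0 ≤ t) (t1 : t ≤ 985 / 10000)
    (h : PA t y s) : 0 < RA (35 / 100) (t) (lR al3 x t) s x y := by
  cases h with
  | u S ht y0 y1 S0 S1 e =>
    obtain ⟨e', he, hp⟩ := chkF4 a3u (by norm_num) (x := x) (y := t) (z := y) (w := S)
        (by norm_num; linarith only [x0]) (by norm_num; linarith only [x1]) (by norm_num; linarith only [t0]) (by norm_num; linarith only [ht])
        (by norm_num; linarith only [y0]) (by norm_num; linarith only [y1]) (by norm_num; linarith only [S0]) (by norm_num; linarith only [S1])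
    rw [List.mem_singleton] at he
    rw [he, gA_val, c35_val, T_val, al3_val, sUp_val] at hp
    rw [e]
    exact hp
  | d S ht y0 y1 S0 S1 e =>
    obtain ⟨e', he, hp⟩ := chkF4 a3d (by norm_num) (x := x) (y := t) (z := y) (w := S)
        (by norm_num; linarith only [x0]) (by norm_num; linarith only [x1]) (by norm_num; linarith only [t0]) (by norm_num; linarith only [ht])
        (by norm_num; linarith only [y0]) (by norm_num; linarith only [y1]) (by norm_num; linarith only [S0]) (by norm_num; linarith only [S1])
    rw [List.mem_singleton] at he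
    rw [he, gA_val, c35_val, T_val, al3_val, sDn_val] at hp
    rw [e]
    exact hp
  | t t0' ht y0 y1 e =>
    obtain ⟨e', he, hp⟩ := chkF4 a3t (by norm_num) (x := x) (y := t) (z := y) (w := 0)
        (by norm_num; linarith only [x0]) (by norm_num; linarith only [x1]) (by norm_num; linarith only [t0']) (by norm_num; linarith only [ht])
        (by norm_num; linarith only [y0]) (by norm_num; linarith only [y1]) (by norm_num) (by norm_num)
    rw [List.mem_singleton] at he
    rw [he, gX_val, c35_val, T_val, al3_val, s3a_val] at hp
    rw [e]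
    exact hp
  | h S ht y0 y1 S0 S1 e =>
    obtain ⟨e', he, hp⟩ := chkF4 a3h (by norm_num) (x := x) (y := t) (z := y) (w := S)
        (by norm_num; linarith only [x0]) (by norm_num; linarith only [x1]) (by norm_num; linarith only [ht]) (by norm_num; linarith only [t1])
        (by norm_num; linarith only [y0]) (by norm_num; linarith only [y1]) (by norm_num; linarith only [S0]) (by norm_num; linarith only [S1])
    rw [List.mem_singleton] at he
    rw [he, gA_val, c35_val, T_val, al3_val, hUp_val] at hp
    rw [e]
    exact hp

theorem zA4 (x0 : 74 / 100 ≤ x) (x1 : x ≤ 78 / 100) (t0 : 0 ≤ t) (t1 : t ≤ 985 / 10000)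
    (h : PA t y s) : 0 < RA (50 / 100) (t) (lR al4 x t) s x y := by
  cases h with
  | u S ht y0 y1 S0 S1 e =>
    obtain ⟨e', he, hp⟩ := chkF4 a4u (by norm_num) (x := x) (y := t) (z := y) (w := S)
        (by norm_num; linarith only [x0]) (by norm_num; linarith only [x1]) (by norm_num; linarith only [t0]) (by norm_num; linarith only [ht])
        (by norm_num; linarith only [y0]) (by norm_num; linarith only [y1]) (by norm_num; linarith only [S0]) (by norm_num; linarith only [S1])
    rw [List.mem_singleton] at he
    rw [he, gA_val, c50_val, T_val, al4_val, sUp_val] at hp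
    rw [e]
    exact hp
  | d S ht y0 y1 S0 S1 e =>
    obtain ⟨e', he, hp⟩ := chkF4 a4d (by norm_num) (x := x) (y := t) (z := y) (w := S)
        (by norm_num; linarith only [x0]) (by norm_num; linarith only [x1]) (by norm_num; linarith only [t0]) (by norm_num; linarith only [ht])
        (by norm_num; linarith only [y0]) (by norm_num; linarith only [y1]) (by norm_num; linarith only [S0]) (by norm_num; linarith only [S1])
    rw [List.mem_singleton] at he
    rw [he, gA_val, c50_val, T_val, al4_val, sDn_val] at hp
    rw [e]
    exact hp
  | t t0' ht y0 y1 e =>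
    obtain ⟨e', he, hp⟩ := chkF4 a4t (by norm_num) (x := x) (y := t) (z := y) (w := 0)
        (by norm_num; linarith only [x0]) (by norm_num; linarith only [x1]) (by norm_num; linarith only [t0']) (by norm_num; linarith only [ht])
        (by norm_num; linarith only [y0]) (by norm_num; linarith only [y1]) (by norm_num) (by norm_num)
    rw [List.mem_singleton] at he
    rw [he, gX_val, c50_val, T_val, al4_val, s3a_val] at hp
    rw [e]
    exact hp
  | h S ht y0 y1 S0 S1 e =>
    obtain ⟨e', he, hp⟩ := chkF4 a4h (by norm_num) (x := x) (y := t) (z := y) (w := S)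
        (by norm_num; linarith only [x0]) (by norm_num; linarith only [x1]) (by norm_num; linarith only [ht]) (by norm_num; linarith only [t1])
        (by norm_num; linarith only [y0]) (by norm_num; linarith only [y1]) (by norm_num; linarith only [S0]) (by norm_num; linarith only [S1])
    rw [List.mem_singleton] at he
    rw [he, gA_val, c50_val, T_val, al4_val, hUp_val] at hp
    rw [e]
    exact hp

/-- the last zone: some positions are left -/
theorem zA5 (x0 : 78 / 100 ≤ x) (x1 : x ≤ 80 / 100) (t0 : 0 ≤ t) (t1 : t ≤ 985 / 10000)
    (h : PA t y s) : 0 < RA (50 / 100) (t) (lR al4 x t) s x y ∨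
      (t ≤ 8 / 100 ∧ 40 / 100 ≤ y ∧ y ≤ 78 / 100 ∧ ∃ S : ℝ, 3 / 100 ≤ S ∧
        s = S * tR 860 150 200 y) := by
  cases h with
  | u S ht y0 y1 S0 S1 e =>
    rcases le_total y (40 / 100) with hy | hy
    · left
      obtain ⟨e', he, hp⟩ := chkF4 a5u1 (by norm_num) (x := x) (y := t) (z := y) (w := S)
        (by norm_num; linarith only [x0]) (by norm_num; linarith only [x1]) (by norm_num; linarith only [t0]) (by norm_num; linarith only [ht])
        (by norm_num; linarith only [y0]) (by norm_num; linarith only [hy]) (by norm_num; linarith only [S0]) (by norm_num; linarith only [S1])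
      rw [List.mem_singleton] at he
      rw [he, gA_val, c50_val, T_val, al4_val, sUp_val] at hp
      rw [e]
      exact hp
    rcases le_total (78 / 100) y with hy' | hy'
    · left
      obtain ⟨e', he, hp⟩ := chkF4 a5u2 (by norm_num) (x := x) (y := t) (z := y) (w := S)
        (by norm_num; linarith only [x0]) (by norm_num; linarith only [x1]) (by norm_num; linarith only [t0]) (by norm_num; linarith only [ht])
        (by norm_num; linarith only [hy']) (by norm_num; linarith only [y1]) (by norm_num; linarith only [S0]) (by norm_num; linarith only [S1])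
      rw [List.mem_singleton] at he
      rw [he, gA_val, c50_val, T_val, al4_val, sUp_val] at hp
      rw [e]
      exact hp
    rcases le_total S (3 / 100) with hS | hS
    · left
      obtain ⟨e', he, hp⟩ := chkF4 a5u3 (by norm_num) (x := x) (y := t) (z := y) (w := S)
        (by norm_num; linarith only [x0]) (by norm_num; linarith only [x1]) (by norm_num; linarith only [t0]) (by norm_num; linarith only [ht])
        (by norm_num; linarith only [hy]) (by norm_num; linarith only [hy']) (by norm_num; linarith only [S0]) (by norm_num; linarith only [hS])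
      rw [List.mem_singleton] at he
      rw [he, gA_val, c50_val, T_val, al4_val, sUp_val] at hp
      rw [e]
      exact hp
    · exact Or.inr ⟨ht, hy, hy', S, hS, e⟩
  | d S ht y0 y1 S0 S1 e =>
    left
    obtain ⟨e', he, hp⟩ := chkF4 a5d (by norm_num) (x := x) (y := t) (z := y) (w := S)
        (by norm_num; linarith only [x0]) (by norm_num; linarith only [x1]) (by norm_num; linarith only [t0]) (by norm_num; linarith only [ht])
        (by norm_num; linarith only [y0]) (by norm_num; linarith only [y1]) (by norm_num; linarith only [S0]) (by norm_num; linarith only [S1])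
    rw [List.mem_singleton] at he
    rw [he, gA_val, c50_val, T_val, al4_val, sDn_val] at hp
    rw [e]
    exact hp
  | t t0' ht y0 y1 e =>
    left
    obtain ⟨e', he, hp⟩ := chkF4 a5t (by norm_num) (x := x) (y := t) (z := y) (w := 0)
        (by norm_num; linarith only [x0]) (by norm_num; linarith only [x1]) (by norm_num; linarith only [t0']) (by norm_num; linarith only [ht])
        (by norm_num; linarith only [y0]) (by norm_num; linarith only [y1]) (by norm_num) (by norm_num)
    rw [List.mem_singleton] at he
    rw [he, gX_val, c50_val, T_val, al4_val, s3a_val] at hp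
    rw [e]
    exact hp
  | h S ht y0 y1 S0 S1 e =>
    left
    obtain ⟨e', he, hp⟩ := chkF4 a5h (by norm_num) (x := x) (y := t) (z := y) (w := S)
        (by norm_num; linarith only [x0]) (by norm_num; linarith only [x1]) (by norm_num; linarith only [ht]) (by norm_num; linarith only [t1])
        (by norm_num; linarith only [y0]) (by norm_num; linarith only [y1]) (by norm_num; linarith only [S0]) (by norm_num; linarith only [S1])
    rw [List.mem_singleton] at he
    rw [he, gA_val, c50_val, T_val, al4_val, hUp_val] at hp
    rw [e]
    exact hp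

end K12

end Pool.Agent.Work.NumG
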