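import Pool.Agent.Work.MP_b30479_gt.G2.MJC
import Pool.Agent.Work.MP_b30479_gt.G2.MJR3
import Pool.Agent.Work.MP_b30479_gt.G2.MJR7
import Pool.Agent.Work.MP_b30479_gt.G2.MJR8

/-!
# Mirrored paths, kind `1 | 2`: side of the `2`, the region behind it
-/

namespace Pool.Agent.Work.NumG

open MP_b30479_gt.G2
open NumU (uu uu_neg UU_uu)

namespace K12

variable {x t y s : ℝ}

/-- **Positions of the other hinge of the `2`**, no `1` behind it. -/
inductive PB (y s : ℝ) : Prop
  | u (S : ℝ) (y0 : 0 ≤ y) (y1 : y ≤ 60 / 100) (S0 : 0 ≤ S) (S1 : S ≤ 96 / 1000)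
      (e : s = S * tR 600 125 300 y)
  | d (S : ℝ) (y0 : 0 ≤ y) (y1 : y ≤ 60 / 100) (S0 : 0 ≤ S) (S1 : S ≤ 85 / 1000)
      (e : s = -(S * tR 600 100 270 y))
  | t (y0 : 0 ≤ y) (y1 : y ≤ 60 / 100) (e : s = -(3 / 10 * tR 600 120 270 y))

theorem zB1 (x0 : 0 ≤ x) (x1 : x ≤ 1 / 10) (t0 : 0 ≤ t) (t1 : t ≤ 985 / 10000)
    (h : PB y s) : 0 < RB (12 / 100) (3 / 4 * t) (lR al1 x t) s x y := by
  cases h with
  | u S y0 y1 S0 S1 e =>
    obtain ⟨e', he, hp⟩ := chkF4 b1u (by norm_num) (x := x) (y := t) (z := y) (w := S)
        (by norm_num; linarith only [x0]) (by norm_num; linarith only [x1]) (by norm_num; linarith only [t0]) (by norm_num; linarith only [t1])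
        (by norm_num; linarith only [y0]) (by norm_num; linarith only [y1]) (by norm_num; linarith only [S0]) (by norm_num; linarith only [S1])
    rw [List.mem_singleton] at he
    rw [he, gB_val, c12_val, e1_val, al1_val, bUp_val] at hp
    rw [e]
    exact hp
  | d S y0 y1 S0 S1 e =>
    obtain ⟨e', he, hp⟩ := chkF4 b1d (by norm_num) (x := x) (y := t) (z := y) (w := S)
        (by norm_num; linarith only [x0]) (by norm_num; linarith only [x1]) (by norm_num; linarith only [t0]) (by norm_num; linarith only [t1])
        (by norm_num; linarith only [y0]) (by norm_num; linarith only [y1]) (by norm_num; linarith only [S0]) (by norm_num; linarith only [S1])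
    rw [List.mem_singleton] at he
    rw [he, gB_val, c12_val, e1_val, al1_val, bDn_val] at hp
    rw [e]
    exact hp
  | t y0 y1 e =>
    obtain ⟨e', he, hp⟩ := chkF4 b1t (by norm_num) (x := x) (y := t) (z := y) (w := 0)
        (by norm_num; linarith only [x0]) (by norm_num; linarith only [x1]) (by norm_num; linarith only [t0]) (by norm_num; linarith only [t1])
        (by norm_num; linarith only [y0]) (by norm_num; linarith only [y1]) (by norm_num) (by norm_num)
    rw [List.mem_singleton] at he
    rw [he, gB_val, c12_val, e1_val, al1_val, b3a_val] at hp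
    rw [e]
    exact hp

theorem zB2 (x0 : 1 / 10 ≤ x) (x1 : x ≤ 55 / 100) (t0 : 0 ≤ t) (t1 : t ≤ 985 / 10000)
    (h : PB y s) : 0 < RB (20 / 100) (t) (lR al2 x t) s x y := by
  cases h with
  | u S y0 y1 S0 S1 e =>
    obtain ⟨e', he, hp⟩ := chkF4 b2u (by norm_num) (x := x) (y := t) (z := y) (w := S)
        (by norm_num; linarith only [x0]) (by norm_num; linarith only [x1]) (by norm_num; linarith only [t0]) (by norm_num; linarith only [t1])
        (by norm_num; linarith only [y0]) (by norm_num; linarith only [y1]) (by norm_num; linarith only [S0]) (by norm_num; linarith only [S1])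
    rw [List.mem_singleton] at he
    rw [he, gB_val, c20_val, T_val, al2_val, bUp_val] at hp
    rw [e]
    exact hp
  | d S y0 y1 S0 S1 e =>
    obtain ⟨e', he, hp⟩ := chkF4 b2d (by norm_num) (x := x) (y := t) (z := y) (w := S)
        (by norm_num; linarith only [x0]) (by norm_num; linarith only [x1]) (by norm_num; linarith only [t0]) (by norm_num; linarith only [t1])
        (by norm_num; linarith only [y0]) (by norm_num; linarith only [y1]) (by norm_num; linarith only [S0]) (by norm_num; linarith only [S1])
    rw [List.mem_singleton] at he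
    rw [he, gB_val, c20_val, T_val, al2_val, bDn_val] at hp
    rw [e]
    exact hp
  | t y0 y1 e =>
    obtain ⟨e', he, hp⟩ := chkF4 b2t (by norm_num) (x := x) (y := t) (z := y) (w := 0)
        (by norm_num; linarith only [x0]) (by norm_num; linarith only [x1]) (by norm_num; linarith only [t0]) (by norm_num; linarith only [t1])
        (by norm_num; linarith only [y0]) (by norm_num; linarith only [y1]) (by norm_num) (by norm_num)
    rw [List.mem_singleton] at he
    rw [he, gB_val, c20_val, T_val, al2_val, b3a_val] at hp
    rw [e]
    exact hp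

theorem zB3 (x0 : 55 / 100 ≤ x) (x1 : x ≤ 74 / 100) (t0 : 0 ≤ t) (t1 : t ≤ 985 / 10000)
    (h : PB y s) : 0 < RB (35 / 100) (t) (lR al3 x t) s x y := by
  cases h with
  | u S y0 y1 S0 S1 e =>
    obtain ⟨e', he, hp⟩ := chkF4 b3u (by norm_num) (x := x) (y := t) (z := y) (w := S)
        (by norm_num; linarith only [x0]) (by norm_num; linarith only [x1]) (by norm_num; linarith only [t0]) (by norm_num; linarith only [t1])
        (by norm_num; linarith only [y0]) (by norm_num; linarith only [y1]) (by norm_num; linarith only [S0]) (by norm_num; linarith only [S1])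
    rw [List.mem_singleton] at he
    rw [he, gB_val, c35_val, T_val, al3_val, bUp_val] at hp
    rw [e]
    exact hp
  | d S y0 y1 S0 S1 e =>
    obtain ⟨e', he, hp⟩ := chkF4 b3d (by norm_num) (x := x) (y := t) (z := y) (w := S)
        (by norm_num; linarith only [x0]) (by norm_num; linarith only [x1]) (by norm_num; linarith only [t0]) (by norm_num; linarith only [t1])
        (by norm_num; linarith only [y0]) (by norm_num; linarith only [y1]) (by norm_num; linarith only [S0]) (by norm_num; linarith only [S1])
    rw [List.mem_singleton] at he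
    rw [he, gB_val, c35_val, T_val, al3_val, bDn_val] at hp
    rw [e]
    exact hp
  | t y0 y1 e =>
    obtain ⟨e', he, hp⟩ := chkF4 b3t (by norm_num) (x := x) (y := t) (z := y) (w := 0)
        (by norm_num; linarith only [x0]) (by norm_num; linarith only [x1]) (by norm_num; linarith only [t0]) (by norm_num; linarith only [t1])
        (by norm_num; linarith only [y0]) (by norm_num; linarith only [y1]) (by norm_num) (by norm_num)
    rw [List.mem_singleton] at he
    rw [he, gB_val, c35_val, T_val, al3_val, b3a_val] at hp
    rw [e]
    exact hp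

theorem zB4 (x0 : 74 / 100 ≤ x) (x1 : x ≤ 80 / 100) (t0 : 0 ≤ t) (t1 : t ≤ 985 / 10000)
    (h : PB y s) : 0 < RB (50 / 100) (t) (lR al4 x t) s x y := by
  cases h with
  | u S y0 y1 S0 S1 e =>
    obtain ⟨e', he, hp⟩ := chkF4 b4u (by norm_num) (x := x) (y := t) (z := y) (w := S)
        (by norm_num; linarith only [x0]) (by norm_num; linarith only [x1]) (by norm_num; linarith only [t0]) (by norm_num; linarith only [t1])
        (by norm_num; linarith only [y0]) (by norm_num; linarith only [y1]) (by norm_num; linarith only [S0]) (by norm_num; linarith only [S1])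
    rw [List.mem_singleton] at he
    rw [he, gB_val, c50_val, T_val, al4_val, bUp_val] at hp
    rw [e]
    exact hp
  | d S y0 y1 S0 S1 e =>
    obtain ⟨e', he, hp⟩ := chkF4 b4d (by norm_num) (x := x) (y := t) (z := y) (w := S)
        (by norm_num; linarith only [x0]) (by norm_num; linarith only [x1]) (by norm_num; linarith only [t0]) (by norm_num; linarith only [t1])
        (by norm_num; linarith only [y0]) (by norm_num; linarith only [y1]) (by norm_num; linarith only [S0]) (by norm_num; linarith only [S1])
    rw [List.mem_singleton] at he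
    rw [he, gB_val, c50_val, T_val, al4_val, bDn_val] at hp
    rw [e]
    exact hp
  | t y0 y1 e =>
    obtain ⟨e', he, hp⟩ := chkF4 b4t (by norm_num) (x := x) (y := t) (z := y) (w := 0)
        (by norm_num; linarith only [x0]) (by norm_num; linarith only [x1]) (by norm_num; linarith only [t0]) (by norm_num; linarith only [t1])
        (by norm_num; linarith only [y0]) (by norm_num; linarith only [y1]) (by norm_num) (by norm_num)
    rw [List.mem_singleton] at he
    rw [he, gB_val, c50_val, T_val, al4_val, b3a_val] at hp
    rw [e]
    exact hp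

/-- main path, not below the real axis -/
theorem fM (x0 : 60 / 100 ≤ x) (x1 : x ≤ 80 / 100) (t0 : 0 ≤ t) (t1 : t ≤ 985 / 10000) (h : PA t y s) :
    0 < RF (35 / 100) t (t * tR 800 160 290 x) (0) (pM x t) s x y := by
  cases h with
  | u S ht y0 y1 S0 S1 e =>
    obtain ⟨e', he, hp⟩ := chkF4 fm1u (by norm_num) (x := x) (y := t) (z := y) (w := S)
        (by norm_num; linarith only [x0]) (by norm_num; linarith only [x1]) (by norm_num; linarith only [t0]) (by norm_num; linarith only [ht])
        (by norm_num; linarith only [y0]) (by norm_num; linarith only [y1]) (by norm_num; linarith only [S0]) (by norm_num; linarith only [S1])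
    rw [List.mem_singleton] at he
    rw [he, gF_val, c35_val, T_val, mX_val, z0_val, phM_val, X_val, T_val, sUp_val] at hp
    rw [e]
    exact hp
  | d S ht y0 y1 S0 S1 e =>
    obtain ⟨e', he, hp⟩ := chkF4 fm1d (by norm_num) (x := x) (y := t) (z := y) (w := S)
        (by norm_num; linarith only [x0]) (by norm_num; linarith only [x1]) (by norm_num; linarith only [t0]) (by norm_num; linarith only [ht])
        (by norm_num; linarith only [y0]) (by norm_num; linarith only [y1]) (by norm_num; linarith only [S0]) (by norm_num; linarith only [S1])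
    rw [List.mem_singleton] at he
    rw [he, gF_val, c35_val, T_val, mX_val, z0_val, phM_val, X_val, T_val, sDn_val] at hp
    rw [e]
    exact hp
  | t t0' ht y0 y1 e =>
    obtain ⟨e', he, hp⟩ := chkF4 fm1t (by norm_num) (x := x) (y := t) (z := y) (w := 0)
        (by norm_num; linarith only [x0]) (by norm_num; linarith only [x1]) (by norm_num; linarith only [t0']) (by norm_num; linarith only [t1, ht])
        (by norm_num; linarith only [y0]) (by norm_num; linarith only [y1]) (by norm_num) (by norm_num)
    rw [List.mem_singleton] at he
    rw [he, gFX_val, c35_val, T_val, mX_val, z0_val, phM_val, X_val, T_val, s3a_val] at hp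
    rw [e]
    exact hp
  | h S ht y0 y1 S0 S1 e =>
    obtain ⟨e', he, hp⟩ := chkF4 fm1h (by norm_num) (x := x) (y := t) (z := y) (w := S)
        (by norm_num; linarith only [x0]) (by norm_num; linarith only [x1]) (by norm_num; linarith only [ht]) (by norm_num; linarith only [t1])
        (by norm_num; linarith only [y0]) (by norm_num; linarith only [y1]) (by norm_num; linarith only [S0]) (by norm_num; linarith only [S1])
    rw [List.mem_singleton] at he
    rw [he, gF_val, c35_val, T_val, mX_val, z0_val, phM_val, X_val, T_val, hUp_val] at hp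
    rw [e]
    exact hp

/-- main path, not above the real axis -/
theorem fM0 (x0 : 60 / 100 ≤ x) (x1 : x ≤ 80 / 100) (t0 : -(18 / 1000) ≤ t) (t1 : t ≤ 0) (h : PA t y s) :
    0 < RF (35 / 100) t (t * tR 800 160 290 x) (0) (pM0 x) s x y := by
  cases h with
  | u S ht y0 y1 S0 S1 e =>
    obtain ⟨e', he, hp⟩ := chkF4 fm0u (by norm_num) (x := x) (y := t) (z := y) (w := S)
        (by norm_num; linarith only [x0]) (by norm_num; linarith only [x1]) (by norm_num; linarith only [t0]) (by norm_num; linarith only [t1])
        (by norm_num; linarith only [y0]) (by norm_num; linarith only [y1]) (by norm_num; linarith only [S0]) (by norm_num; linarith only [S1])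
    rw [List.mem_singleton] at he
    rw [he, gF_val, c35_val, T_val, mX_val, z0_val, phM0_val, X_val, sUp_val] at hp
    rw [e]
    exact hp
  | d S ht y0 y1 S0 S1 e =>
    obtain ⟨e', he, hp⟩ := chkF4 fm0d (by norm_num) (x := x) (y := t) (z := y) (w := S)
        (by norm_num; linarith only [x0]) (by norm_num; linarith only [x1]) (by norm_num; linarith only [t0]) (by norm_num; linarith only [t1])
        (by norm_num; linarith only [y0]) (by norm_num; linarith only [y1]) (by norm_num; linarith only [S0]) (by norm_num; linarith only [S1])
    rw [List.mem_singleton] at he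
    rw [he, gF_val, c35_val, T_val, mX_val, z0_val, phM0_val, X_val, sDn_val] at hp
    rw [e]
    exact hp
  | t t0' ht y0 y1 e => linarith only [t1, t0']
  | h S ht y0 y1 S0 S1 e => linarith only [t1, ht]

/-- mirrored path, lower one -/
theorem fU2 (x0 : 4 / 100 ≤ x) (x1 : x ≤ 60 / 100) (t0 : 0 ≤ t) (t1 : t ≤ 985 / 10000) (h : PA t y s) :
    0 < RF (25 / 100) t (-aR x) (aR x) (pU x t) s x y := by
  cases h with
  | u S ht y0 y1 S0 S1 e =>
    obtain ⟨e', he, hp⟩ := chkF4 fu2u (by norm_num) (x := x) (y := t) (z := y) (w := S)
        (by norm_num; linarith only [x0]) (by norm_num; linarith only [x1]) (by norm_num; linarith only [t0]) (by norm_num; linarith only [ht])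
        (by norm_num; linarith only [y0]) (by norm_num; linarith only [y1]) (by norm_num; linarith only [S0]) (by norm_num; linarith only [S1])
    rw [List.mem_singleton] at he
    rw [he, gF_val, c25_val, T_val, uX_val, ax_val, phU_val, X_val, T_val, sUp_val] at hp
    rw [e]
    exact hp
  | d S ht y0 y1 S0 S1 e =>
    obtain ⟨e', he, hp⟩ := chkF4 fu2d (by norm_num) (x := x) (y := t) (z := y) (w := S)
        (by norm_num; linarith only [x0]) (by norm_num; linarith only [x1]) (by norm_num; linarith only [t0]) (by norm_num; linarith only [ht])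
        (by norm_num; linarith only [y0]) (by norm_num; linarith only [y1]) (by norm_num; linarith only [S0]) (by norm_num; linarith only [S1])
    rw [List.mem_singleton] at he
    rw [he, gF_val, c25_val, T_val, uX_val, ax_val, phU_val, X_val, T_val, sDn_val] at hp
    rw [e]
    exact hp
  | t t0' ht y0 y1 e =>
    obtain ⟨e', he, hp⟩ := chkF4 fu2t (by norm_num) (x := x) (y := t) (z := y) (w := 0)
        (by norm_num; linarith only [x0]) (by norm_num; linarith only [x1]) (by norm_num; linarith only [t0']) (by norm_num; linarith only [t1, ht])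
        (by norm_num; linarith only [y0]) (by norm_num; linarith only [y1]) (by norm_num) (by norm_num)
    rw [List.mem_singleton] at he
    rw [he, gFX_val, c25_val, T_val, uX_val, ax_val, phU_val, X_val, T_val, s3a_val] at hp
    rw [e]
    exact hp
  | h S ht y0 y1 S0 S1 e =>
    obtain ⟨e', he, hp⟩ := chkF4 fu2h (by norm_num) (x := x) (y := t) (z := y) (w := S)
        (by norm_num; linarith only [x0]) (by norm_num; linarith only [x1]) (by norm_num; linarith only [ht]) (by norm_num; linarith only [t1])
        (by norm_num; linarith only [y0]) (by norm_num; linarith only [y1]) (by norm_num; linarith only [S0]) (by norm_num; linarith only [S1])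
    rw [List.mem_singleton] at he
    rw [he, gF_val, c25_val, T_val, uX_val, ax_val, phU_val, X_val, T_val, hUp_val] at hp
    rw [e]
    exact hp

/-- mirrored path, lower one -/
theorem fU3 (x0 : 60 / 100 ≤ x) (x1 : x ≤ 80 / 100) (t0 : 0 ≤ t) (t1 : t ≤ 985 / 10000) (h : PA t y s) :
    0 < RF (35 / 100) t (-aR x) (aR x) (pV x t) s x y := by
  cases h with
  | u S ht y0 y1 S0 S1 e =>
    obtain ⟨e', he, hp⟩ := chkF4 fu3u (by norm_num) (x := x) (y := t) (z := y) (w := S)
        (by norm_num; linarith only [x0]) (by norm_num; linarith only [x1]) (by norm_num; linarith only [t0]) (by norm_num; linarith only [ht])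
        (by norm_num; linarith only [y0]) (by norm_num; linarith only [y1]) (by norm_num; linarith only [S0]) (by norm_num; linarith only [S1])
    rw [List.mem_singleton] at he
    rw [he, gF_val, c35_val, T_val, uX_val, ax_val, phV_val, X_val, T_val, sUp_val] at hp
    rw [e]
    exact hp
  | d S ht y0 y1 S0 S1 e =>
    obtain ⟨e', he, hp⟩ := chkF4 fu3d (by norm_num) (x := x) (y := t) (z := y) (w := S)
        (by norm_num; linarith only [x0]) (by norm_num; linarith only [x1]) (by norm_num; linarith only [t0]) (by norm_num; linarith only [ht])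
        (by norm_num; linarith only [y0]) (by norm_num; linarith only [y1]) (by norm_num; linarith only [S0]) (by norm_num; linarith only [S1])
    rw [List.mem_singleton] at he
    rw [he, gF_val, c35_val, T_val, uX_val, ax_val, phV_val, X_val, T_val, sDn_val] at hp
    rw [e]
    exact hp
  | t t0' ht y0 y1 e =>
    obtain ⟨e', he, hp⟩ := chkF4 fu3t (by norm_num) (x := x) (y := t) (z := y) (w := 0)
        (by norm_num; linarith only [x0]) (by norm_num; linarith only [x1]) (by norm_num; linarith only [t0']) (by norm_num; linarith only [t1, ht])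
        (by norm_num; linarith only [y0]) (by norm_num; linarith only [y1]) (by norm_num) (by norm_num)
    rw [List.mem_singleton] at he
    rw [he, gFX_val, c35_val, T_val, uX_val, ax_val, phV_val, X_val, T_val, s3a_val] at hp
    rw [e]
    exact hp
  | h S ht y0 y1 S0 S1 e =>
    obtain ⟨e', he, hp⟩ := chkF4 fu3h (by norm_num) (x := x) (y := t) (z := y) (w := S)
        (by norm_num; linarith only [x0]) (by norm_num; linarith only [x1]) (by norm_num; linarith only [ht]) (by norm_num; linarith only [t1])
        (by norm_num; linarith only [y0]) (by norm_num; linarith only [y1]) (by norm_num; linarith only [S0]) (by norm_num; linarith only [S1])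
    rw [List.mem_singleton] at he
    rw [he, gF_val, c35_val, T_val, uX_val, ax_val, phV_val, X_val, T_val, hUp_val] at hp
    rw [e]
    exact hp

/-- mirrored path, upper one -/
theorem fD2 (x0 : 65 / 100 ≤ x) (x1 : x ≤ 80 / 100) (t0 : -(18 / 1000) ≤ t) (t1 : t ≤ 0) (h : PA t y s) :
    0 < RF (25 / 100) t (aR x) (aR x) (pD x) s x y := by
  cases h with
  | u S ht y0 y1 S0 S1 e =>
    obtain ⟨e', he, hp⟩ := chkF4 fd2u (by norm_num) (x := x) (y := t) (z := y) (w := S)
        (by norm_num; linarith only [x0]) (by norm_num; linarith only [x1]) (by norm_num; linarith only [t0]) (by norm_num; linarith only [t1])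
        (by norm_num; linarith only [y0]) (by norm_num; linarith only [y1]) (by norm_num; linarith only [S0]) (by norm_num; linarith only [S1])
    rw [List.mem_singleton] at he
    rw [he, gF_val, c25_val, T_val, ax_val, phD_val, X_val, sUp_val] at hp
    rw [e]
    exact hp
  | d S ht y0 y1 S0 S1 e =>
    obtain ⟨e', he, hp⟩ := chkF4 fd2d (by norm_num) (x := x) (y := t) (z := y) (w := S)
        (by norm_num; linarith only [x0]) (by norm_num; linarith only [x1]) (by norm_num; linarith only [t0]) (by norm_num; linarith only [t1])
        (by norm_num; linarith only [y0]) (by norm_num; linarith only [y1]) (by norm_num; linarith only [S0]) (by norm_num; linarith only [S1])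
    rw [List.mem_singleton] at he
    rw [he, gF_val, c25_val, T_val, ax_val, phD_val, X_val, sDn_val] at hp
    rw [e]
    exact hp
  | t t0' ht y0 y1 e => linarith only [t1, t0']
  | h S ht y0 y1 S0 S1 e => linarith only [t1, ht]

end K12

end Pool.Agent.Work.NumG
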