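import Pool.Agent.Work.MP_b30479_gt.G2.MJA
import Pool.Agent.Work.NumU.GenF

/-!
# Rows: kind `1 | 2`, side of the `2`, another `1` behind it, second zone
-/

namespace Pool.Agent.Work.NumG

namespace K12

theorem r2m1 : chkF [gB c20 T al2 wM] 10000 0 0 0 180 40 1000 5500 0 985 0 6000 0 1165 153460218134847144007923325274462131695149459904986003257119973428101128528421467205475824710793219953394434890817674287151666372368381302898307677652386717091406981400054071479504504445102509937200071673547945744993857141278617184446188058688152602423412235468080349729690708311059496962 = true := by
  decide +kernel

theorem r2m2 : chkF [gB c20 T al2 wM, gR c20 T al2 wM c35 S (phM Y S)] 10000 0 0 0 0 40 1000 5500 0 985 6000 8000 0 985 1175885499925882164181662802904850540544162172749247965744896734147285814741584588114997095002892881220234250861445875144187686258266241460103584881327647192005814596341824214753381425115838554534646797112940566677163259851875478753655651272617289051032955810871863288340334528961266083434632492788777005798401033638032540244305074518130458624 = true := by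
  decide +kernel

theorem r2m3 : chkF [gB c20 T al2 wM, gR c20 T al2 wM c35 S (phM0 Y)] 10000 0 0 0 180 40 1000 5500 0 985 6000 8000 0 180 367855861215698573338761753426304647866003612078958549633649253516191681717082296687088718087172159781219571402526078014020065416111881323581466866768188757035476497734768056447319882686147854336 = true := by
  decide +kernel

theorem r2u0 : chkF [gB c20 T al2 wU] 10000 0 0 0 0 40 1000 5500 0 985 0 400 0 0 1082195968 = true := by
  decide +kernel

theorem r2u1 : chkF [gB c20 T al2 wU, gR c20 T al2 wU c25 S (phU Y S)] 10000 0 0 0 0 40 1000 5500 0 985 400 6000 0 985 9789234611173697768159004040498424768998058992719954700560086602347227507115465670658 = true := by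
  decide +kernel

theorem r2u2 : chkF [gB c20 T al2 wU, gR c20 T al2 wU c35 S (phV Y S)] 10000 0 0 0 0 40 1000 5500 0 985 6000 8000 0 985 13644532229877491762754793974129590140484988984707177811526361001665869473687580902883357954799279273590631375293863209287581696 = true := by
  decide +kernel

theorem r2d1 : chkF [gB c20 T al2 wD] 10000 0 0 0 0 40 1000 5500 0 985 0 6500 0 0 4084167885778160194743482461004422337706928684836080591520796048633886876000204074812545350318229454345806187422363395344418504765341668065796212924371953220579955905279614287874 = true := by
  decide +kernel

theorem r2d2 : chkF [gB c20 T al2 wD, gR c20 T al2 wD c25 S (phD Y)] 10000 0 0 0 180 40 1000 5500 0 985 6500 8000 0 180 981667872274932490392915775935724577617255893415585120598027332684606336576293845380724421722216511126520162711404165033986933878908730833141760 = true := by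
  decide +kernel

end K12

end Pool.Agent.Work.NumG
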