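import Pool.Agent.Work.MP_b30479_gt.G2.MJA
import Pool.Agent.Work.NumU.GenF

/-!
# Rows: kind `1 | 2`, side of the `2`, another `1` behind it, last zones
-/

namespace Pool.Agent.Work.NumG

namespace K12

theorem r3m1 : chkF [gB c35 T al3 wM] 10000 0 0 0 180 40 5500 7400 0 985 0 6000 0 1165 10915857133632454154021558256164973430198931858301080424801637908028107016941175303553359197951914244389998482271561830566461698 = true := by
  decide +kernel

theorem r3m2 : chkF [gB c35 T al3 wM, gR c35 T al3 wM c35 S (phM Y S)] 10000 0 0 0 0 40 5500 7400 0 985 6000 8000 0 985 1352744962 = true := by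
  decide +kernel

theorem r3m3 : chkF [gB c35 T al3 wM, gR c35 T al3 wM c35 S (phM0 Y)] 10000 0 0 0 180 40 5500 7400 0 985 6000 8000 0 180 82562 = true := by
  decide +kernel

theorem r3u0 : chkF [gB c35 T al3 wU] 10000 0 0 0 0 40 5500 7400 0 985 0 400 0 0 66048 = true := by
  decide +kernel

theorem r3u1 : chkF [gB c35 T al3 wU, gR c35 T al3 wU c25 S (phU Y S)] 10000 0 0 0 0 40 5500 7400 0 985 400 6000 0 985 2627936805958929723006411615747101998691173343596719912067844228623959194664982062945278132482 = true := by
  decide +kernel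

theorem r3u2 : chkF [gB c35 T al3 wU, gR c35 T al3 wU c35 S (phV Y S)] 10000 0 0 0 0 40 5500 7400 0 985 6000 8000 0 985 82562 = true := by
  decide +kernel

theorem r3d1 : chkF [gB c35 T al3 wD] 10000 0 0 0 0 40 5500 7400 0 985 0 6500 0 0 564310956094617698125579706781153939841607648918179247829490551061950252398510978528902999831369220354 = true := by
  decide +kernel

theorem r3d2 : chkF [gB c35 T al3 wD, gR c35 T al3 wD c25 S (phD Y)] 10000 0 0 0 180 40 5500 7400 0 985 6500 8000 0 180 82560 = true := by
  decide +kernel

theorem r4m1 : chkF [gB c50 T al4 wM] 10000 0 0 0 180 40 7400 8000 0 985 0 6000 0 1165 211140187842649271863409707445308974702567856131070314414266821798381323943891500183831911027257012422952348612393753789188083939576962486879186761842946 = true := by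
  decide +kernel

theorem r4m2 : chkF [gB c50 T al4 wM, gR c50 T al4 wM c35 S (phM Y S)] 10000 0 0 0 0 40 7400 8000 0 985 6000 8000 0 985 82562 = true := by
  decide +kernel

theorem r4m3 : chkF [gB c50 T al4 wM, gR c50 T al4 wM c35 S (phM0 Y)] 10000 0 0 0 180 40 7400 8000 0 985 6000 8000 0 180 5 = true := by
  decide +kernel

theorem r4u0 : chkF [gB c50 T al4 wU] 10000 0 0 0 0 40 7400 8000 0 985 0 400 0 0 1082130946 = true := by
  decide +kernel

theorem r4u1 : chkF [gB c50 T al4 wU, gR c50 T al4 wU c25 S (phU Y S)] 10000 0 0 0 0 40 7400 8000 0 985 400 6000 0 985 9789471774800794194445487404778667140603085974156910530443533132074307156032870187266 = true := by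
  decide +kernel

theorem r4u2 : chkF [gB c50 T al4 wU, gR c50 T al4 wU c35 S (phV Y S)] 10000 0 0 0 0 40 7400 8000 0 985 6000 8000 0 985 5 = true := by
  decide +kernel

theorem r4d1 : chkF [gB c50 T al4 wD] 10000 0 0 0 0 40 7400 8000 0 985 0 6500 0 0 1508361393221239084433811155568814777183310207549698 = true := by
  decide +kernel

theorem r4d2 : chkF [gB c50 T al4 wD, gR c50 T al4 wD c25 S (phD Y)] 10000 0 0 0 180 40 7400 8000 0 985 6500 8000 0 180 5 = true := by
  decide +kernel

end K12

end Pool.Agent.Work.NumG
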