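import Pool.Agent.Work.MP_b30479_gt.G2.MJD
import Pool.Agent.Work.MP_b30479_gt.G2.MJR4
import Pool.Agent.Work.MP_b30479_gt.G2.MJR5
import Pool.Agent.Work.MP_b30479_gt.G2.MJR6

/-!
# Mirrored paths, kind `1 | 2`: side of the `2`, a `1` behind it
-/

namespace Pool.Agent.Work.NumG

open MP_b30479_gt.G2
open NumU (uu uu_neg UU_uu)

namespace K12

variable {x t y s T p : ℝ}

/-- **Positions of the other hinge of the `2`**, a `1` behind it; `T` is the height of this hinge in
the frame of the `1`, `p` the penalty. -/
inductive PW (T y s p : ℝ) : Prop
  | main (y0 : 0 ≤ y) (y1 : y ≤ 80 / 100) (T0 : -(18 / 1000) ≤ T) (T1 : T ≤ 985 / 10000)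
      (e : s = -(T * tR 800 160 290 y)) (hp : p = 0)
  | up (y0 : 0 ≤ y) (y1 : y ≤ 80 / 100) (T0 : 0 ≤ T) (T1 : T ≤ 985 / 10000) (e : s = aR y)
      (hp : p = aR y)
  | dn (y0 : 0 ≤ y) (y1 : y ≤ 80 / 100) (T0 : -(18 / 1000) ≤ T) (T1 : T ≤ 0) (e : s = -aR y)
      (hp : p = aR y)

theorem zW1 (x0 : 0 ≤ x) (x1 : x ≤ 1 / 10) (t0 : 0 ≤ t) (t1 : t ≤ 985 / 10000)
    (h : PW T y s p) : 0 < RB (12 / 100) (3 / 4 * t) (lR al1 x t) s x y ∨ ∃ d ph : ℝ,
      (d = 25 / 100 ∨ d = 35 / 100) ∧ 0 < RR (12 / 100) (3 / 4 * t) (lR al1 x t) s d T ph x y ∧
      ∀ k s', PA T k s' → 0 < RF d T (-s) p ph s' y k := by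
  cases h with
  | main y0 y1 T0 T1 e hp =>
    rcases le_total y (60 / 100) with hy | hy
    · left
      obtain ⟨e', he, hq⟩ := chkF4 r1m1 (by norm_num) (x := x) (y := t) (z := y) (w := T)
        (by norm_num; linarith only [x0]) (by norm_num; linarith only [x1]) (by norm_num; linarith only [t0]) (by norm_num; linarith only [t1])
        (by norm_num; linarith only [y0]) (by norm_num; linarith only [hy]) (by norm_num; linarith only [T0]) (by norm_num; linarith only [T1])
      rw [List.mem_singleton] at he
      rw [he, gB_val, c12_val, e1_val, al1_val, wM_val] at hq
      rw [e]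
      exact hq
    rcases le_total 0 T with hT | hT
    · obtain ⟨e', he, hq⟩ := chkF4 r1m2 (by norm_num) (x := x) (y := t) (z := y) (w := T)
        (by norm_num; linarith only [x0]) (by norm_num; linarith only [x1]) (by norm_num; linarith only [t0]) (by norm_num; linarith only [t1])
        (by norm_num; linarith only [hy]) (by norm_num; linarith only [y1]) (by norm_num; linarith only [hT]) (by norm_num; linarith only [T1])
      rw [List.mem_cons, List.mem_singleton] at he
      rcases he with he | he
      · left
        rw [he, gB_val, c12_val, e1_val, al1_val, wM_val] at hq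
        rw [e]
        exact hq
      · right
        rw [he, gR_val, c12_val, e1_val, al1_val, wM_val, c35_val, S_val, phM_val, Y_val, S_val] at hq
        refine ⟨35 / 100, pM y T, Or.inr rfl, by rw [e]; exact hq, fun k s' hk => ?_⟩
        rw [e, hp, neg_neg]
        exact fM (by linarith only [hy]) (by linarith only [y1]) (by linarith only [hT]) (by linarith only [T1]) hk
    · obtain ⟨e', he, hq⟩ := chkF4 r1m3 (by norm_num) (x := x) (y := t) (z := y) (w := T)
        (by norm_num; linarith only [x0]) (by norm_num; linarith only [x1]) (by norm_num; linarith only [t0]) (by norm_num; linarith only [t1])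
        (by norm_num; linarith only [hy]) (by norm_num; linarith only [y1]) (by norm_num; linarith only [T0]) (by norm_num; linarith only [hT])
      rw [List.mem_cons, List.mem_singleton] at he
      rcases he with he | he
      · left
        rw [he, gB_val, c12_val, e1_val, al1_val, wM_val] at hq
        rw [e]
        exact hq
      · right
        rw [he, gR_val, c12_val, e1_val, al1_val, wM_val, c35_val, S_val, phM0_val, Y_val] at hq
        refine ⟨35 / 100, pM0 y, Or.inr rfl, by rw [e]; exact hq, fun k s' hk => ?_⟩
        rw [e, hp, neg_neg]
        exact fM0 (by linarith only [hy]) (by linarith only [y1]) (by linarith only [T0]) (by linarith only [hT]) hk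
  | up y0 y1 T0 T1 e hp =>
    rcases le_total y (4 / 100) with hy | hy
    · left
      obtain ⟨e', he, hq⟩ := chkF4 r1u0 (by norm_num) (x := x) (y := t) (z := y) (w := 0)
        (by norm_num; linarith only [x0]) (by norm_num; linarith only [x1]) (by norm_num; linarith only [t0]) (by norm_num; linarith only [t1])
        (by norm_num; linarith only [y0]) (by norm_num; linarith only [hy]) (by norm_num) (by norm_num)
      rw [List.mem_singleton] at he
      rw [he, gB_val, c12_val, e1_val, al1_val, wU_val] at hq
      rw [e]
      exact hq
    rcases le_total y (60 / 100) with hy' | hy'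
    · obtain ⟨e', he, hq⟩ := chkF4 r1u1 (by norm_num) (x := x) (y := t) (z := y) (w := T)
        (by norm_num; linarith only [x0]) (by norm_num; linarith only [x1]) (by norm_num; linarith only [t0]) (by norm_num; linarith only [t1])
        (by norm_num; linarith only [hy]) (by norm_num; linarith only [hy']) (by norm_num; linarith only [T0]) (by norm_num; linarith only [T1])
      rw [List.mem_cons, List.mem_singleton] at he
      rcases he with he | he
      · left
        rw [he, gB_val, c12_val, e1_val, al1_val, wU_val] at hq
        rw [e]
        exact hq
      · right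
        rw [he, gR_val, c12_val, e1_val, al1_val, wU_val, c25_val, S_val, phU_val, Y_val, S_val] at hq
        refine ⟨25 / 100, pU y T, Or.inl rfl, by rw [e]; exact hq, fun k s' hk => ?_⟩
        rw [e, hp]
        exact fU2 (by linarith only [hy]) (by linarith only [hy']) (by linarith only [T0]) (by linarith only [T1]) hk
    · obtain ⟨e', he, hq⟩ := chkF4 r1u2 (by norm_num) (x := x) (y := t) (z := y) (w := T)
        (by norm_num; linarith only [x0]) (by norm_num; linarith only [x1]) (by norm_num; linarith only [t0]) (by norm_num; linarith only [t1])
        (by norm_num; linarith only [hy']) (by norm_num; linarith only [y1]) (by norm_num; linarith only [T0]) (by norm_num; linarith only [T1])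
      rw [List.mem_cons, List.mem_singleton] at he
      rcases he with he | he
      · left
        rw [he, gB_val, c12_val, e1_val, al1_val, wU_val] at hq
        rw [e]
        exact hq
      · right
        rw [he, gR_val, c12_val, e1_val, al1_val, wU_val, c35_val, S_val, phV_val, Y_val, S_val] at hq
        refine ⟨35 / 100, pV y T, Or.inr rfl, by rw [e]; exact hq, fun k s' hk => ?_⟩
        rw [e, hp]
        exact fU3 (by linarith only [hy']) (by linarith only [y1]) (by linarith only [T0]) (by linarith only [T1]) hk
  | dn y0 y1 T0 T1 e hp =>
    rcases le_total y (65 / 100) with hy | hy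
    · left
      obtain ⟨e', he, hq⟩ := chkF4 r1d1 (by norm_num) (x := x) (y := t) (z := y) (w := 0)
        (by norm_num; linarith only [x0]) (by norm_num; linarith only [x1]) (by norm_num; linarith only [t0]) (by norm_num; linarith only [t1])
        (by norm_num; linarith only [y0]) (by norm_num; linarith only [hy]) (by norm_num) (by norm_num)
      rw [List.mem_singleton] at he
      rw [he, gB_val, c12_val, e1_val, al1_val, wD_val] at hq
      rw [e]
      exact hq
    · obtain ⟨e', he, hq⟩ := chkF4 r1d2 (by norm_num) (x := x) (y := t) (z := y) (w := T)
        (by norm_num; linarith only [x0]) (by norm_num; linarith only [x1]) (by norm_num; linarith only [t0]) (by norm_num; linarith only [t1])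
        (by norm_num; linarith only [hy]) (by norm_num; linarith only [y1]) (by norm_num; linarith only [T0]) (by norm_num; linarith only [T1])
      rw [List.mem_cons, List.mem_singleton] at he
      rcases he with he | he
      · left
        rw [he, gB_val, c12_val, e1_val, al1_val, wD_val] at hq
        rw [e]
        exact hq
      · right
        rw [he, gR_val, c12_val, e1_val, al1_val, wD_val, c25_val, S_val, phD_val, Y_val] at hq
        refine ⟨25 / 100, pD y, Or.inl rfl, by rw [e]; exact hq, fun k s' hk => ?_⟩
        rw [e, hp, neg_neg]
        exact fD2 (by linarith only [hy]) (by linarith only [y1]) (by linarith only [T0]) (by linarith only [T1]) hk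

theorem zW2 (x0 : 1 / 10 ≤ x) (x1 : x ≤ 55 / 100) (t0 : 0 ≤ t) (t1 : t ≤ 985 / 10000)
    (h : PW T y s p) : 0 < RB (20 / 100) (t) (lR al2 x t) s x y ∨ ∃ d ph : ℝ,
      (d = 25 / 100 ∨ d = 35 / 100) ∧ 0 < RR (20 / 100) (t) (lR al2 x t) s d T ph x y ∧
      ∀ k s', PA T k s' → 0 < RF d T (-s) p ph s' y k := by
  cases h with
  | main y0 y1 T0 T1 e hp =>
    rcases le_total y (60 / 100) with hy | hy
    · left
      obtain ⟨e', he, hq⟩ := chkF4 r2m1 (by norm_num) (x := x) (y := t) (z := y) (w := T)
        (by norm_num; linarith only [x0]) (by norm_num; linarith only [x1]) (by norm_num; linarith only [t0]) (by norm_num; linarith only [t1])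
        (by norm_num; linarith only [y0]) (by norm_num; linarith only [hy]) (by norm_num; linarith only [T0]) (by norm_num; linarith only [T1])
      rw [List.mem_singleton] at he
      rw [he, gB_val, c20_val, T_val, al2_val, wM_val] at hq
      rw [e]
      exact hq
    rcases le_total 0 T with hT | hT
    · obtain ⟨e', he, hq⟩ := chkF4 r2m2 (by norm_num) (x := x) (y := t) (z := y) (w := T)
        (by norm_num; linarith only [x0]) (by norm_num; linarith only [x1]) (by norm_num; linarith only [t0]) (by norm_num; linarith only [t1])
        (by norm_num; linarith only [hy]) (by norm_num; linarith only [y1]) (by norm_num; linarith only [hT]) (by norm_num; linarith only [T1])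
      rw [List.mem_cons, List.mem_singleton] at he
      rcases he with he | he
      · left
        rw [he, gB_val, c20_val, T_val, al2_val, wM_val] at hq
        rw [e]
        exact hq
      · right
        rw [he, gR_val, c20_val, T_val, al2_val, wM_val, c35_val, S_val, phM_val, Y_val, S_val] at hq
        refine ⟨35 / 100, pM y T, Or.inr rfl, by rw [e]; exact hq, fun k s' hk => ?_⟩
        rw [e, hp, neg_neg]
        exact fM (by linarith only [hy]) (by linarith only [y1]) (by linarith only [hT]) (by linarith only [T1]) hk
    · obtain ⟨e', he, hq⟩ := chkF4 r2m3 (by norm_num) (x := x) (y := t) (z := y) (w := T)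
        (by norm_num; linarith only [x0]) (by norm_num; linarith only [x1]) (by norm_num; linarith only [t0]) (by norm_num; linarith only [t1])
        (by norm_num; linarith only [hy]) (by norm_num; linarith only [y1]) (by norm_num; linarith only [T0]) (by norm_num; linarith only [hT])
      rw [List.mem_cons, List.mem_singleton] at he
      rcases he with he | he
      · left
        rw [he, gB_val, c20_val, T_val, al2_val, wM_val] at hq
        rw [e]
        exact hq
      · right
        rw [he, gR_val, c20_val, T_val, al2_val, wM_val, c35_val, S_val, phM0_val, Y_val] at hq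
        refine ⟨35 / 100, pM0 y, Or.inr rfl, by rw [e]; exact hq, fun k s' hk => ?_⟩
        rw [e, hp, neg_neg]
        exact fM0 (by linarith only [hy]) (by linarith only [y1]) (by linarith only [T0]) (by linarith only [hT]) hk
  | up y0 y1 T0 T1 e hp =>
    rcases le_total y (4 / 100) with hy | hy
    · left
      obtain ⟨e', he, hq⟩ := chkF4 r2u0 (by norm_num) (x := x) (y := t) (z := y) (w := 0)
        (by norm_num; linarith only [x0]) (by norm_num; linarith only [x1]) (by norm_num; linarith only [t0]) (by norm_num; linarith only [t1])
        (by norm_num; linarith only [y0]) (by norm_num; linarith only [hy]) (by norm_num) (by norm_num)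
      rw [List.mem_singleton] at he
      rw [he, gB_val, c20_val, T_val, al2_val, wU_val] at hq
      rw [e]
      exact hq
    rcases le_total y (60 / 100) with hy' | hy'
    · obtain ⟨e', he, hq⟩ := chkF4 r2u1 (by norm_num) (x := x) (y := t) (z := y) (w := T)
        (by norm_num; linarith only [x0]) (by norm_num; linarith only [x1]) (by norm_num; linarith only [t0]) (by norm_num; linarith only [t1])
        (by norm_num; linarith only [hy]) (by norm_num; linarith only [hy']) (by norm_num; linarith only [T0]) (by norm_num; linarith only [T1])
      rw [List.mem_cons, List.mem_singleton] at he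
      rcases he with he | he
      · left
        rw [he, gB_val, c20_val, T_val, al2_val, wU_val] at hq
        rw [e]
        exact hq
      · right
        rw [he, gR_val, c20_val, T_val, al2_val, wU_val, c25_val, S_val, phU_val, Y_val, S_val] at hq
        refine ⟨25 / 100, pU y T, Or.inl rfl, by rw [e]; exact hq, fun k s' hk => ?_⟩
        rw [e, hp]
        exact fU2 (by linarith only [hy]) (by linarith only [hy']) (by linarith only [T0]) (by linarith only [T1]) hk
    · obtain ⟨e', he, hq⟩ := chkF4 r2u2 (by norm_num) (x := x) (y := t) (z := y) (w := T)
        (by norm_num; linarith only [x0]) (by norm_num; linarith only [x1]) (by norm_num; linarith only [t0]) (by norm_num; linarith only [t1])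
        (by norm_num; linarith only [hy']) (by norm_num; linarith only [y1]) (by norm_num; linarith only [T0]) (by norm_num; linarith only [T1])
      rw [List.mem_cons, List.mem_singleton] at he
      rcases he with he | he
      · left
        rw [he, gB_val, c20_val, T_val, al2_val, wU_val] at hq
        rw [e]
        exact hq
      · right
        rw [he, gR_val, c20_val, T_val, al2_val, wU_val, c35_val, S_val, phV_val, Y_val, S_val] at hq
        refine ⟨35 / 100, pV y T, Or.inr rfl, by rw [e]; exact hq, fun k s' hk => ?_⟩
        rw [e, hp]
        exact fU3 (by linarith only [hy']) (by linarith only [y1]) (by linarith only [T0]) (by linarith only [T1]) hk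
  | dn y0 y1 T0 T1 e hp =>
    rcases le_total y (65 / 100) with hy | hy
    · left
      obtain ⟨e', he, hq⟩ := chkF4 r2d1 (by norm_num) (x := x) (y := t) (z := y) (w := 0)
        (by norm_num; linarith only [x0]) (by norm_num; linarith only [x1]) (by norm_num; linarith only [t0]) (by norm_num; linarith only [t1])
        (by norm_num; linarith only [y0]) (by norm_num; linarith only [hy]) (by norm_num) (by norm_num)
      rw [List.mem_singleton] at he
      rw [he, gB_val, c20_val, T_val, al2_val, wD_val] at hq
      rw [e]
      exact hq
    · obtain ⟨e', he, hq⟩ := chkF4 r2d2 (by norm_num) (x := x) (y := t) (z := y) (w := T)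
        (by norm_num; linarith only [x0]) (by norm_num; linarith only [x1]) (by norm_num; linarith only [t0]) (by norm_num; linarith only [t1])
        (by norm_num; linarith only [hy]) (by norm_num; linarith only [y1]) (by norm_num; linarith only [T0]) (by norm_num; linarith only [T1])
      rw [List.mem_cons, List.mem_singleton] at he
      rcases he with he | he
      · left
        rw [he, gB_val, c20_val, T_val, al2_val, wD_val] at hq
        rw [e]
        exact hq
      · right
        rw [he, gR_val, c20_val, T_val, al2_val, wD_val, c25_val, S_val, phD_val, Y_val] at hq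
        refine ⟨25 / 100, pD y, Or.inl rfl, by rw [e]; exact hq, fun k s' hk => ?_⟩
        rw [e, hp, neg_neg]
        exact fD2 (by linarith only [hy]) (by linarith only [y1]) (by linarith only [T0]) (by linarith only [T1]) hk

theorem zW3 (x0 : 55 / 100 ≤ x) (x1 : x ≤ 74 / 100) (t0 : 0 ≤ t) (t1 : t ≤ 985 / 10000)
    (h : PW T y s p) : 0 < RB (35 / 100) (t) (lR al3 x t) s x y ∨ ∃ d ph : ℝ,
      (d = 25 / 100 ∨ d = 35 / 100) ∧ 0 < RR (35 / 100) (t) (lR al3 x t) s d T ph x y ∧
      ∀ k s', PA T k s' → 0 < RF d T (-s) p ph s' y k := by
  cases h with
  | main y0 y1 T0 T1 e hp =>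
    rcases le_total y (60 / 100) with hy | hy
    · left
      obtain ⟨e', he, hq⟩ := chkF4 r3m1 (by norm_num) (x := x) (y := t) (z := y) (w := T)
        (by norm_num; linarith only [x0]) (by norm_num; linarith only [x1]) (by norm_num; linarith only [t0]) (by norm_num; linarith only [t1])
        (by norm_num; linarith only [y0]) (by norm_num; linarith only [hy]) (by norm_num; linarith only [T0]) (by norm_num; linarith only [T1])
      rw [List.mem_singleton] at he
      rw [he, gB_val, c35_val, T_val, al3_val, wM_val] at hq
      rw [e]
      exact hq
    rcases le_total 0 T with hT | hT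
    · obtain ⟨e', he, hq⟩ := chkF4 r3m2 (by norm_num) (x := x) (y := t) (z := y) (w := T)
        (by norm_num; linarith only [x0]) (by norm_num; linarith only [x1]) (by norm_num; linarith only [t0]) (by norm_num; linarith only [t1])
        (by norm_num; linarith only [hy]) (by norm_num; linarith only [y1]) (by norm_num; linarith only [hT]) (by norm_num; linarith only [T1])
      rw [List.mem_cons, List.mem_singleton] at he
      rcases he with he | he
      · left
        rw [he, gB_val, c35_val, T_val, al3_val, wM_val] at hq
        rw [e]
        exact hq
      · right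
        rw [he, gR_val, c35_val, T_val, al3_val, wM_val, S_val, phM_val, Y_val, S_val] at hq
        refine ⟨35 / 100, pM y T, Or.inr rfl, by rw [e]; exact hq, fun k s' hk => ?_⟩
        rw [e, hp, neg_neg]
        exact fM (by linarith only [hy]) (by linarith only [y1]) (by linarith only [hT]) (by linarith only [T1]) hk
    · obtain ⟨e', he, hq⟩ := chkF4 r3m3 (by norm_num) (x := x) (y := t) (z := y) (w := T)
        (by norm_num; linarith only [x0]) (by norm_num; linarith only [x1]) (by norm_num; linarith only [t0]) (by norm_num; linarith only [t1])
        (by norm_num; linarith only [hy]) (by norm_num; linarith only [y1]) (by norm_num; linarith only [T0]) (by norm_num; linarith only [hT])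
      rw [List.mem_cons, List.mem_singleton] at he
      rcases he with he | he
      · left
        rw [he, gB_val, c35_val, T_val, al3_val, wM_val] at hq
        rw [e]
        exact hq
      · right
        rw [he, gR_val, c35_val, T_val, al3_val, wM_val, S_val, phM0_val, Y_val] at hq
        refine ⟨35 / 100, pM0 y, Or.inr rfl, by rw [e]; exact hq, fun k s' hk => ?_⟩
        rw [e, hp, neg_neg]
        exact fM0 (by linarith only [hy]) (by linarith only [y1]) (by linarith only [T0]) (by linarith only [hT]) hk
  | up y0 y1 T0 T1 e hp =>
    rcases le_total y (4 / 100) with hy | hy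
    · left
      obtain ⟨e', he, hq⟩ := chkF4 r3u0 (by norm_num) (x := x) (y := t) (z := y) (w := 0)
        (by norm_num; linarith only [x0]) (by norm_num; linarith only [x1]) (by norm_num; linarith only [t0]) (by norm_num; linarith only [t1])
        (by norm_num; linarith only [y0]) (by norm_num; linarith only [hy]) (by norm_num) (by norm_num)
      rw [List.mem_singleton] at he
      rw [he, gB_val, c35_val, T_val, al3_val, wU_val] at hq
      rw [e]
      exact hq
    rcases le_total y (60 / 100) with hy' | hy'
    · obtain ⟨e', he, hq⟩ := chkF4 r3u1 (by norm_num) (x := x) (y := t) (z := y) (w := T)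
        (by norm_num; linarith only [x0]) (by norm_num; linarith only [x1]) (by norm_num; linarith only [t0]) (by norm_num; linarith only [t1])
        (by norm_num; linarith only [hy]) (by norm_num; linarith only [hy']) (by norm_num; linarith only [T0]) (by norm_num; linarith only [T1])
      rw [List.mem_cons, List.mem_singleton] at he
      rcases he with he | he
      · left
        rw [he, gB_val, c35_val, T_val, al3_val, wU_val] at hq
        rw [e]
        exact hq
      · right
        rw [he, gR_val, c35_val, T_val, al3_val, wU_val, c25_val, S_val, phU_val, Y_val, S_val] at hq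
        refine ⟨25 / 100, pU y T, Or.inl rfl, by rw [e]; exact hq, fun k s' hk => ?_⟩
        rw [e, hp]
        exact fU2 (by linarith only [hy]) (by linarith only [hy']) (by linarith only [T0]) (by linarith only [T1]) hk
    · obtain ⟨e', he, hq⟩ := chkF4 r3u2 (by norm_num) (x := x) (y := t) (z := y) (w := T)
        (by norm_num; linarith only [x0]) (by norm_num; linarith only [x1]) (by norm_num; linarith only [t0]) (by norm_num; linarith only [t1])
        (by norm_num; linarith only [hy']) (by norm_num; linarith only [y1]) (by norm_num; linarith only [T0]) (by norm_num; linarith only [T1])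
      rw [List.mem_cons, List.mem_singleton] at he
      rcases he with he | he
      · left
        rw [he, gB_val, c35_val, T_val, al3_val, wU_val] at hq
        rw [e]
        exact hq
      · right
        rw [he, gR_val, c35_val, T_val, al3_val, wU_val, S_val, phV_val, Y_val, S_val] at hq
        refine ⟨35 / 100, pV y T, Or.inr rfl, by rw [e]; exact hq, fun k s' hk => ?_⟩
        rw [e, hp]
        exact fU3 (by linarith only [hy']) (by linarith only [y1]) (by linarith only [T0]) (by linarith only [T1]) hk
  | dn y0 y1 T0 T1 e hp =>
    rcases le_total y (65 / 100) with hy | hy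
    · left
      obtain ⟨e', he, hq⟩ := chkF4 r3d1 (by norm_num) (x := x) (y := t) (z := y) (w := 0)
        (by norm_num; linarith only [x0]) (by norm_num; linarith only [x1]) (by norm_num; linarith only [t0]) (by norm_num; linarith only [t1])
        (by norm_num; linarith only [y0]) (by norm_num; linarith only [hy]) (by norm_num) (by norm_num)
      rw [List.mem_singleton] at he
      rw [he, gB_val, c35_val, T_val, al3_val, wD_val] at hq
      rw [e]
      exact hq
    · obtain ⟨e', he, hq⟩ := chkF4 r3d2 (by norm_num) (x := x) (y := t) (z := y) (w := T)
        (by norm_num; linarith only [x0]) (by norm_num; linarith only [x1]) (by norm_num; linarith only [t0]) (by norm_num; linarith only [t1])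
        (by norm_num; linarith only [hy]) (by norm_num; linarith only [y1]) (by norm_num; linarith only [T0]) (by norm_num; linarith only [T1])
      rw [List.mem_cons, List.mem_singleton] at he
      rcases he with he | he
      · left
        rw [he, gB_val, c35_val, T_val, al3_val, wD_val] at hq
        rw [e]
        exact hq
      · right
        rw [he, gR_val, c35_val, T_val, al3_val, wD_val, c25_val, S_val, phD_val, Y_val] at hq
        refine ⟨25 / 100, pD y, Or.inl rfl, by rw [e]; exact hq, fun k s' hk => ?_⟩
        rw [e, hp, neg_neg]
        exact fD2 (by linarith only [hy]) (by linarith only [y1]) (by linarith only [T0]) (by linarith only [T1]) hk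

theorem zW4 (x0 : 74 / 100 ≤ x) (x1 : x ≤ 80 / 100) (t0 : 0 ≤ t) (t1 : t ≤ 985 / 10000)
    (h : PW T y s p) : 0 < RB (50 / 100) (t) (lR al4 x t) s x y ∨ ∃ d ph : ℝ,
      (d = 25 / 100 ∨ d = 35 / 100) ∧ 0 < RR (50 / 100) (t) (lR al4 x t) s d T ph x y ∧
      ∀ k s', PA T k s' → 0 < RF d T (-s) p ph s' y k := by
  cases h with
  | main y0 y1 T0 T1 e hp =>
    rcases le_total y (60 / 100) with hy | hy
    · left
      obtain ⟨e', he, hq⟩ := chkF4 r4m1 (by norm_num) (x := x) (y := t) (z := y) (w := T)
        (by norm_num; linarith only [x0]) (by norm_num; linarith only [x1]) (by norm_num; linarith only [t0]) (by norm_num; linarith only [t1])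
        (by norm_num; linarith only [y0]) (by norm_num; linarith only [hy]) (by norm_num; linarith only [T0]) (by norm_num; linarith only [T1])
      rw [List.mem_singleton] at he
      rw [he, gB_val, c50_val, T_val, al4_val, wM_val] at hq
      rw [e]
      exact hq
    rcases le_total 0 T with hT | hT
    · obtain ⟨e', he, hq⟩ := chkF4 r4m2 (by norm_num) (x := x) (y := t) (z := y) (w := T)
        (by norm_num; linarith only [x0]) (by norm_num; linarith only [x1]) (by norm_num; linarith only [t0]) (by norm_num; linarith only [t1])
        (by norm_num; linarith only [hy]) (by norm_num; linarith only [y1]) (by norm_num; linarith only [hT]) (by norm_num; linarith only [T1])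
      rw [List.mem_cons, List.mem_singleton] at he
      rcases he with he | he
      · left
        rw [he, gB_val, c50_val, T_val, al4_val, wM_val] at hq
        rw [e]
        exact hq
      · right
        rw [he, gR_val, c50_val, T_val, al4_val, wM_val, c35_val, S_val, phM_val, Y_val, S_val] at hq
        refine ⟨35 / 100, pM y T, Or.inr rfl, by rw [e]; exact hq, fun k s' hk => ?_⟩
        rw [e, hp, neg_neg]
        exact fM (by linarith only [hy]) (by linarith only [y1]) (by linarith only [hT]) (by linarith only [T1]) hk
    · obtain ⟨e', he, hq⟩ := chkF4 r4m3 (by norm_num) (x := x) (y := t) (z := y) (w := T)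
        (by norm_num; linarith only [x0]) (by norm_num; linarith only [x1]) (by norm_num; linarith only [t0]) (by norm_num; linarith only [t1])
        (by norm_num; linarith only [hy]) (by norm_num; linarith only [y1]) (by norm_num; linarith only [T0]) (by norm_num; linarith only [hT])
      rw [List.mem_cons, List.mem_singleton] at he
      rcases he with he | he
      · left
        rw [he, gB_val, c50_val, T_val, al4_val, wM_val] at hq
        rw [e]
        exact hq
      · right
        rw [he, gR_val, c50_val, T_val, al4_val, wM_val, c35_val, S_val, phM0_val, Y_val] at hq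
        refine ⟨35 / 100, pM0 y, Or.inr rfl, by rw [e]; exact hq, fun k s' hk => ?_⟩
        rw [e, hp, neg_neg]
        exact fM0 (by linarith only [hy]) (by linarith only [y1]) (by linarith only [T0]) (by linarith only [hT]) hk
  | up y0 y1 T0 T1 e hp =>
    rcases le_total y (4 / 100) with hy | hy
    · left
      obtain ⟨e', he, hq⟩ := chkF4 r4u0 (by norm_num) (x := x) (y := t) (z := y) (w := 0)
        (by norm_num; linarith only [x0]) (by norm_num; linarith only [x1]) (by norm_num; linarith only [t0]) (by norm_num; linarith only [t1])
        (by norm_num; linarith only [y0]) (by norm_num; linarith only [hy]) (by norm_num) (by norm_num)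
      rw [List.mem_singleton] at he
      rw [he, gB_val, c50_val, T_val, al4_val, wU_val] at hq
      rw [e]
      exact hq
    rcases le_total y (60 / 100) with hy' | hy'
    · obtain ⟨e', he, hq⟩ := chkF4 r4u1 (by norm_num) (x := x) (y := t) (z := y) (w := T)
        (by norm_num; linarith only [x0]) (by norm_num; linarith only [x1]) (by norm_num; linarith only [t0]) (by norm_num; linarith only [t1])
        (by norm_num; linarith only [hy]) (by norm_num; linarith only [hy']) (by norm_num; linarith only [T0]) (by norm_num; linarith only [T1])
      rw [List.mem_cons, List.mem_singleton] at he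
      rcases he with he | he
      · left
        rw [he, gB_val, c50_val, T_val, al4_val, wU_val] at hq
        rw [e]
        exact hq
      · right
        rw [he, gR_val, c50_val, T_val, al4_val, wU_val, c25_val, S_val, phU_val, Y_val, S_val] at hq
        refine ⟨25 / 100, pU y T, Or.inl rfl, by rw [e]; exact hq, fun k s' hk => ?_⟩
        rw [e, hp]
        exact fU2 (by linarith only [hy]) (by linarith only [hy']) (by linarith only [T0]) (by linarith only [T1]) hk
    · obtain ⟨e', he, hq⟩ := chkF4 r4u2 (by norm_num) (x := x) (y := t) (z := y) (w := T)
        (by norm_num; linarith only [x0]) (by norm_num; linarith only [x1]) (by norm_num; linarith only [t0]) (by norm_num; linarith only [t1])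
        (by norm_num; linarith only [hy']) (by norm_num; linarith only [y1]) (by norm_num; linarith only [T0]) (by norm_num; linarith only [T1])
      rw [List.mem_cons, List.mem_singleton] at he
      rcases he with he | he
      · left
        rw [he, gB_val, c50_val, T_val, al4_val, wU_val] at hq
        rw [e]
        exact hq
      · right
        rw [he, gR_val, c50_val, T_val, al4_val, wU_val, c35_val, S_val, phV_val, Y_val, S_val] at hq
        refine ⟨35 / 100, pV y T, Or.inr rfl, by rw [e]; exact hq, fun k s' hk => ?_⟩
        rw [e, hp]
        exact fU3 (by linarith only [hy']) (by linarith only [y1]) (by linarith only [T0]) (by linarith only [T1]) hk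
  | dn y0 y1 T0 T1 e hp =>
    rcases le_total y (65 / 100) with hy | hy
    · left
      obtain ⟨e', he, hq⟩ := chkF4 r4d1 (by norm_num) (x := x) (y := t) (z := y) (w := 0)
        (by norm_num; linarith only [x0]) (by norm_num; linarith only [x1]) (by norm_num; linarith only [t0]) (by norm_num; linarith only [t1])
        (by norm_num; linarith only [y0]) (by norm_num; linarith only [hy]) (by norm_num) (by norm_num)
      rw [List.mem_singleton] at he
      rw [he, gB_val, c50_val, T_val, al4_val, wD_val] at hq
      rw [e]
      exact hq
    · obtain ⟨e', he, hq⟩ := chkF4 r4d2 (by norm_num) (x := x) (y := t) (z := y) (w := T)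
        (by norm_num; linarith only [x0]) (by norm_num; linarith only [x1]) (by norm_num; linarith only [t0]) (by norm_num; linarith only [t1])
        (by norm_num; linarith only [hy]) (by norm_num; linarith only [y1]) (by norm_num; linarith only [T0]) (by norm_num; linarith only [T1])
      rw [List.mem_cons, List.mem_singleton] at he
      rcases he with he | he
      · left
        rw [he, gB_val, c50_val, T_val, al4_val, wD_val] at hq
        rw [e]
        exact hq
      · right
        rw [he, gR_val, c50_val, T_val, al4_val, wD_val, c25_val, S_val, phD_val, Y_val] at hq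
        refine ⟨25 / 100, pD y, Or.inl rfl, by rw [e]; exact hq, fun k s' hk => ?_⟩
        rw [e, hp, neg_neg]
        exact fD2 (by linarith only [hy]) (by linarith only [y1]) (by linarith only [T0]) (by linarith only [T1]) hk

end K12

end Pool.Agent.Work.NumG
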