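import Pool.Agent.Work.MP_b30479_gt.G2.RngB
import Pool.Agent.Work.MP_b30479_gt.G2.RngKd
import Pool.Agent.Work.MP_b30479_gt.G2.S2Poly

/-!
# The ring variable at a maximiser: lower location for heights `≤ 0`
-/

namespace Pool.Agent.Work.MP_b30479_gt.G2

open Finset VOL Filter Topology

theorem re_im_eq (w : ℂ) : w = (w.re : ℂ) + (w.im : ℂ) * Complex.I := (Complex.re_add_im w).symm

/-- the derivative in the ring variable is `≥ 0` for heights `≤ 0` -/
theorem Dm_nonneg {m σ η : ℝ} {w : ℂ} (hm : 0 ≤ m) (hx0 : 0 ≤ w.re) (hx : w.re ≤ 1 / 2)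
    (ht : w.im ≤ 0) (hσ : σ ≤ 0) (hσ' : -(1 / 2) ≤ σ) (hη : 0 < η)
    (h : Real.sinh (2 * Real.pi * -w.im) * Real.sinh (2 * Real.pi * η) ≤
      Real.sin (2 * Real.pi * w.re) * Real.sin (2 * Real.pi * -σ)) {ζ : ℂ}
    (hζ : ζ = σ + η * Complex.I) : 0 ≤ Dm m w ζ := by
  have h1 := LL_ring_nonneg (x := w.re) (t := w.im) (σ := σ) (η := η) (w := w) (ζ := ζ)
    (re_im_eq w) hζ (by linarith only [ht, hη]) (by
      rw [mul_neg, Real.sinh_neg, mul_neg, Real.sin_neg] at h
      linarith only [h])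
  have h2 := YY_ring_nonneg (x := w.re) (t := w.im) (σ := σ) (η := η) hx0 hx ht hσ hσ' hη.le
    (re_im_eq w) hζ
  unfold Dm Dq
  have := mul_nonneg hm h2
  linarith only [h1, this]

theorem mul_sin_le {l a : ℝ} (hl : 0 ≤ l) (hl1 : l ≤ 1) (ha : 0 ≤ a) (ha1 : a ≤ Real.pi) :
    l * Real.sin a ≤ Real.sin (l * a) := by
  have h := strictConcaveOn_sin_Icc.concaveOn.2 (show a ∈ Set.Icc 0 Real.pi from ⟨ha, ha1⟩)
    (show (0 : ℝ) ∈ Set.Icc 0 Real.pi from ⟨le_rfl, Real.pi_pos.le⟩) hl (sub_nonneg.mpr hl1)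
    (by ring)
  simpa using h

/-- condition on a point of the path -/
def PCond (ρ : ℝ) (w : ℂ) : Prop :=
  Real.sinh (2 * Real.pi * -w.im) * Real.sinh (2 * Real.pi * ρ) ≤ Real.sin (2 * Real.pi * w.re)

theorem PCond.ring {ρ σ : ℝ} {w : ℂ} (h : PCond ρ w) (hρ : 0 ≤ ρ) (h0 : -(1 / 2) ≤ σ)
    (h1 : σ ≤ -(1 / 4)) (ht : w.im ≤ 0) :
    Real.sinh (2 * Real.pi * -w.im) * Real.sinh (2 * Real.pi * (ρ * LT.th σ)) ≤
      Real.sin (2 * Real.pi * w.re) * Real.sin (2 * Real.pi * -σ) := by
  have hpi := Real.pi_pos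
  have hth : LT.th σ = 2 + 4 * σ := by
    have : |σ| = -σ := abs_of_nonpos (by linarith only [h1])
    rw [th_of_ge (by rw [this]; linarith only [h1]), this]
    ring
  set l := 2 + 4 * σ with hl
  have l0 : 0 ≤ l := by linarith only [h0]
  have l1 : l ≤ 1 := by linarith only [h1]
  have e1 : Real.sin (2 * Real.pi * -σ) = Real.sin (Real.pi / 2 * l) := by
    rw [← Real.sin_pi_sub, hl]
    congr 1
    ring
  have e2 : l ≤ Real.sin (Real.pi / 2 * l) := by
    have := Real.mul_le_sin (x := Real.pi / 2 * l) (by positivity) (by nlinarith only [h1, hpi])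
    calc l = 2 / Real.pi * (Real.pi / 2 * l) := by field_simp
      _ ≤ _ := this
  have e3 : Real.sinh (2 * Real.pi * (ρ * l)) ≤ l * Real.sinh (2 * Real.pi * ρ) := by
    have := sinh_mul_le (z := 2 * Real.pi * ρ) l0 l1 (by positivity)
    rwa [show l * (2 * Real.pi * ρ) = 2 * Real.pi * (ρ * l) by ring] at this
  have e4 : 0 ≤ Real.sinh (2 * Real.pi * -w.im) := by
    rw [Real.sinh_nonneg_iff]
    have : 0 ≤ -w.im := by linarith only [ht]
    positivity
  have e5 : 0 ≤ Real.sinh (2 * Real.pi * ρ) := by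
    rw [Real.sinh_nonneg_iff]
    positivity
  rw [hth, e1]
  unfold PCond at h
  have e6 : 0 ≤ Real.sin (2 * Real.pi * w.re) := (mul_nonneg e4 e5).trans h
  calc _ ≤ Real.sinh (2 * Real.pi * -w.im) * (l * Real.sinh (2 * Real.pi * ρ)) :=
        mul_le_mul_of_nonneg_left e3 e4
    _ = l * (Real.sinh (2 * Real.pi * -w.im) * Real.sinh (2 * Real.pi * ρ)) := by ring
    _ ≤ l * Real.sin (2 * Real.pi * w.re) := mul_le_mul_of_nonneg_left h l0
    _ ≤ _ := by
      rw [mul_comm]
      exact mul_le_mul_of_nonneg_left e2 e6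

theorem zt_mk {ρ σ : ℝ} : LT.zt ρ σ = (σ : ℂ) + ((ρ * LT.th σ : ℝ) : ℂ) * Complex.I := rfl

/-- the derivative on the left ramp of the ring variable, heights `≤ 0` -/
theorem Dm_ramp_nonneg {b ρ σ : ℝ} {w : ℂ} (hρ : 0 < ρ) (h : PCond ρ w) (h0 : -(1 / 2) < σ)
    (h1 : σ ≤ -(1 / 4)) (ht : w.im ≤ 0) (hx0 : 0 ≤ w.re) (hx : w.re ≤ 1 / 2) {m : ℝ}
    (hm : 0 ≤ m) : 0 ≤ Dm m w (LT.zt ρ σ) := by
  have hth : 0 < LT.th σ := th_pos (by rw [abs_lt]; constructor <;> linarith only [h0, h1])
  exact Dm_nonneg hm hx0 hx ht (by linarith only [h0, h1]) h0.le (mul_pos hρ hth)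
    (h.ring hρ.le h0.le h1 ht) zt_mk

/-! ### the condition holds on the paths -/

theorem PCond_zero (ρ : ℝ) : PCond ρ 0 := by
  unfold PCond
  simp

/-- a path which ends at `1/2` -/
theorem PCond_half {ρ T cl cr : ℝ} {w : ℂ} (hρ : 0 ≤ ρ) (hT : T ≤ 0)
    (hcl : 0 < cl) (hcr : 0 < cr) (hcc : cl + cr < 1 / 2)
    (hw : RH w T (1 / 2) cl cr)
    (k1 : Real.sinh (2 * Real.pi * -T) * Real.sinh (2 * Real.pi * ρ) ≤ Real.sin (2 * Real.pi * cl))
    (k2 : Real.sinh (2 * Real.pi * -T) * Real.sinh (2 * Real.pi * ρ) ≤ Real.sin (2 * Real.pi * cr)) :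
    PCond ρ w := by
  have hpi := Real.pi_pos
  obtain ⟨r0, rM, him⟩ := hw
  have hk : 0 ≤ Real.sinh (2 * Real.pi * ρ) := by
    rw [Real.sinh_nonneg_iff]
    positivity
  have hT' : 0 ≤ 2 * Real.pi * -T := by
    have : 0 ≤ -T := by linarith only [hT]
    positivity
  set k := Real.sinh (2 * Real.pi * ρ)
  unfold PCond
  rcases le_total w.re cl with h1 | h1
  · rw [tr_a hcl hcr hcc r0 h1] at him
    have l0 : 0 ≤ w.re / cl := by positivity
    have l1 : w.re / cl ≤ 1 := (div_le_one hcl).mpr h1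
    have a1 := sinh_mul_le l0 l1 hT'
    have a2 := mul_sin_le l0 l1 (show 0 ≤ 2 * Real.pi * cl by positivity) (by nlinarith only [hcr, hpi, hcc])
    have a3 := mul_le_mul_of_nonneg_right a1 hk
    have a4 := mul_le_mul_of_nonneg_left k1 l0
    have e1 : w.re / cl * (2 * Real.pi * -T) = 2 * Real.pi * -w.im := by rw [him]; ring
    have e2 : w.re / cl * (2 * Real.pi * cl) = 2 * Real.pi * w.re := by field_simp
    rw [e1] at a3
    rw [e2] at a2
    nlinarith only [a2, a3, a4]
  · rcases le_total w.re (1 / 2 - cr) with h2 | h2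
    · rw [tr_b hcl hcr h1 h2, mul_one] at him
      rw [him]
      rcases le_total w.re (1 / 4) with h3 | h3
      · refine k1.trans ?_
        apply Real.sin_le_sin_of_le_of_le_pi_div_two <;> nlinarith only [hpi, hcl, hcr, hcc, h3, h1]
      · refine k2.trans ?_
        rw [← Real.sin_pi_sub (2 * Real.pi * w.re)]
        apply Real.sin_le_sin_of_le_of_le_pi_div_two <;> nlinarith only [hpi, hcr, hcl, hcc, h3, h2]
    · rw [tr_c hcl hcr hcc h2 rM] at him
      have l0 : 0 ≤ (1 / 2 - w.re) / cr := div_nonneg (by linarith only [rM]) hcr.le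
      have l1 : (1 / 2 - w.re) / cr ≤ 1 := (div_le_one hcr).mpr (by linarith only [h2])
      have a1 := sinh_mul_le l0 l1 hT'
      have a2 := mul_sin_le l0 l1 (show 0 ≤ 2 * Real.pi * cr by positivity) (by nlinarith only [hcl, hpi, hcc])
      have a3 := mul_le_mul_of_nonneg_right a1 hk
      have a4 := mul_le_mul_of_nonneg_left k2 l0
      have e1 : (1 / 2 - w.re) / cr * (2 * Real.pi * -T) = 2 * Real.pi * -w.im := by rw [him]; ring
      have e2 : Real.sin ((1 / 2 - w.re) / cr * (2 * Real.pi * cr)) =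
          Real.sin (2 * Real.pi * w.re) := by
        rw [← Real.sin_pi_sub (2 * Real.pi * w.re)]
        congr 1
        field_simp
      rw [e1] at a3
      rw [e2] at a2
      nlinarith only [a2, a3, a4]

/-- the beginning of a path: `c0 ≤ cl`, `Re w ≤ 1/2 - c0` -/
theorem PCond_start {ρ T XM cl cr c0 : ℝ} {w : ℂ} (hρ : 0 ≤ ρ) (hT : T ≤ 0) (hc0 : 0 < c0)
    (hcl : c0 ≤ cl) (hcl' : cl ≤ 1 / 4) (hcr : 0 < cr) (hcc : cl + cr < XM)
    (hw : RH w T XM cl cr) (hx : w.re ≤ 1 / 2 - c0)
    (k1 : Real.sinh (2 * Real.pi * -T) * Real.sinh (2 * Real.pi * ρ) ≤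
      Real.sin (2 * Real.pi * c0)) :
    PCond ρ w := by
  have hpi := Real.pi_pos
  obtain ⟨r0, rM, him⟩ := hw
  have hcl0 : 0 < cl := by linarith only [hc0, hcl]
  have hk : 0 ≤ Real.sinh (2 * Real.pi * ρ) := by
    rw [Real.sinh_nonneg_iff]
    positivity
  have hT' : 0 ≤ 2 * Real.pi * -T := by
    have : 0 ≤ -T := by linarith only [hT]
    positivity
  have k1' : Real.sinh (2 * Real.pi * -T) * Real.sinh (2 * Real.pi * ρ) ≤
      Real.sin (2 * Real.pi * cl) := k1.trans (by
    apply Real.sin_le_sin_of_le_of_le_pi_div_two <;> nlinarith only [hpi, hc0, hcl', hcl])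
  set k := Real.sinh (2 * Real.pi * ρ)
  unfold PCond
  rcases le_total w.re cl with h1 | h1
  · rw [tr_a hcl0 hcr hcc r0 h1] at him
    have l0 : 0 ≤ w.re / cl := by positivity
    have l1 : w.re / cl ≤ 1 := (div_le_one hcl0).mpr h1
    have a1 := sinh_mul_le l0 l1 hT'
    have a2 := mul_sin_le l0 l1 (show 0 ≤ 2 * Real.pi * cl by positivity) (by nlinarith only [hpi, hcl'])
    have a3 := mul_le_mul_of_nonneg_right a1 hk
    have a4 := mul_le_mul_of_nonneg_left k1' l0
    have e1 : w.re / cl * (2 * Real.pi * -T) = 2 * Real.pi * -w.im := by rw [him]; ring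
    have e2 : w.re / cl * (2 * Real.pi * cl) = 2 * Real.pi * w.re := by field_simp
    rw [e1] at a3
    rw [e2] at a2
    nlinarith only [a2, a3, a4]
  · have h3 : -w.im ≤ -T := by
      rw [him]
      have t0 : 0 ≤ tr 0 XM cl cr w.re := le_max_left _ _
      have t1 : tr 0 XM cl cr w.re ≤ 1 := max_le zero_le_one (min_le_left _ _)
      nlinarith only [hT, t1]
    have h4 : Real.sinh (2 * Real.pi * -w.im) ≤ Real.sinh (2 * Real.pi * -T) := by
      rw [Real.sinh_le_sinh]
      nlinarith only [hc0, hcl, hcl', hpi, h3]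
    refine (mul_le_mul_of_nonneg_right h4 hk).trans (k1.trans ?_)
    rcases le_total w.re (1 / 4) with h5 | h5
    · apply Real.sin_le_sin_of_le_of_le_pi_div_two <;> nlinarith only [hpi, hc0, hcl, hcl', h5, h1]
    · rw [← Real.sin_pi_sub (2 * Real.pi * w.re)]
      apply Real.sin_le_sin_of_le_of_le_pi_div_two <;> nlinarith only [hpi, hc0, hcl, hcl', h5, hx]

/-- the height on the right ramp -/
theorem RH.neg_im_le {T XM cl cr : ℝ} {w : ℂ} (h : RH w T XM cl cr) (hT : T ≤ 0) (hcr : 0 < cr) :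
    -w.im ≤ -T * ((XM - w.re) / cr) := by
  rw [h.im]
  have h1 : tr 0 XM cl cr w.re ≤ (XM - w.re) / cr := by
    have h2 : 0 ≤ (XM - w.re) / cr := div_nonneg (by linarith only [h, h.reM]) hcr.le
    unfold tr
    refine max_le h2 ?_
    refine (min_le_right _ _).trans ?_
    exact min_le_right _ _
  nlinarith only [hT, h1]

/-! ### numbers -/

section
open NumI NumI.E

private def k0 (n : ℤ) : E := sub (sinPi (q n 100)) (mul (sinh (mul (mul (q 2 1) pi) (var 0)))
  (sinh (mul (mul (q 2 1) pi) (var 1))))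

private theorem k0_of {n : ℤ} {τ ρ : ℝ} (h : 0 < (k0 n).val [τ, ρ]) :
    Real.sinh (2 * Real.pi * τ) * Real.sinh (2 * Real.pi * ρ) ≤
      Real.sin (2 * Real.pi * ((n : ℝ) / 200)) := by
  simp only [k0, E.val, lkR_zero, lkR_one] at h
  simp only [Int.cast_ofNat, Nat.cast_ofNat, Int.cast_one, Nat.cast_one, div_one] at h
  have e : 2 * Real.pi * ((n : ℝ) / 200) = Real.pi * (n / 100) := by ring
  rw [e]
  linarith only [h]

theorem K_lo4 {τ ρ : ℝ} (h0 : 0 ≤ τ) (h1 : τ ≤ 115 / 1000) (h2 : 0 ≤ ρ) (h3 : ρ ≤ 1045 / 10000) :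
    Real.sinh (2 * Real.pi * τ) * Real.sinh (2 * Real.pi * ρ) ≤
      Real.sin (2 * Real.pi * (1 / 10)) := by
  have g : chk [k0 20] 40 [V.of 10000 0 1150, V.of 10000 0 1045] = true := by decide +kernel
  have := k0_of (pos_of_chk (chk2 g (x := τ) (y := ρ) (by norm_num) (by simpa using h0)
    (by norm_num; linarith only [h1]) (by simpa using h2) (by norm_num; linarith only [h3])))
  norm_num at this ⊢
  linarith only [this]

theorem K_lo5 {τ ρ : ℝ} (h0 : 0 ≤ τ) (h1 : τ ≤ 131 / 1000) (h2 : 0 ≤ ρ) (h3 : ρ ≤ 725 / 10000) :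
    Real.sinh (2 * Real.pi * τ) * Real.sinh (2 * Real.pi * ρ) ≤
      Real.sin (2 * Real.pi * (1 / 10)) := by
  have g : chk [k0 20] 40 [V.of 10000 0 1310, V.of 10000 0 725] = true := by decide +kernel
  have := k0_of (pos_of_chk (chk2 g (x := τ) (y := ρ) (by norm_num) (by simpa using h0)
    (by norm_num; linarith only [h1]) (by simpa using h2) (by norm_num; linarith only [h3])))
  norm_num at this ⊢
  linarith only [this]

theorem K_rr4 {τ ρ : ℝ} (h0 : 0 ≤ τ) (h1 : τ ≤ 25 / 1000) (h2 : 0 ≤ ρ) (h3 : ρ ≤ 1045 / 10000) :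
    Real.sinh (2 * Real.pi * τ) * Real.sinh (2 * Real.pi * ρ) ≤
      Real.sin (2 * Real.pi * (2 / 100)) := by
  have g : chk [k0 4] 40 [V.of 10000 0 250, V.of 10000 0 1045] = true := by decide +kernel
  have := k0_of (pos_of_chk (chk2 g (x := τ) (y := ρ) (by norm_num) (by simpa using h0)
    (by norm_num; linarith only [h1]) (by simpa using h2) (by norm_num; linarith only [h3])))
  norm_num at this ⊢
  linarith only [this]

theorem K_rr5 {τ ρ : ℝ} (h0 : 0 ≤ τ) (h1 : τ ≤ 4 / 100) (h2 : 0 ≤ ρ) (h3 : ρ ≤ 725 / 10000) :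
    Real.sinh (2 * Real.pi * τ) * Real.sinh (2 * Real.pi * ρ) ≤
      Real.sin (2 * Real.pi * (2 / 100)) := by
  have g : chk [k0 4] 40 [V.of 10000 0 400, V.of 10000 0 725] = true := by decide +kernel
  have := k0_of (pos_of_chk (chk2 g (x := τ) (y := ρ) (by norm_num) (by simpa using h0)
    (by norm_num; linarith only [h1]) (by simpa using h2) (by norm_num; linarith only [h3])))
  norm_num at this ⊢
  linarith only [this]

theorem K_one4 {τ ρ : ℝ} (h0 : 0 ≤ τ) (h1 : τ ≤ 128 / 1000) (h2 : 0 ≤ ρ) (h3 : ρ ≤ 1045 / 10000) :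
    Real.sinh (2 * Real.pi * τ) * Real.sinh (2 * Real.pi * ρ) ≤
      Real.sin (2 * Real.pi * (14 / 100)) := by
  have g : chk [k0 28] 40 [V.of 10000 0 1280, V.of 10000 0 1045] = true := by decide +kernel
  have := k0_of (pos_of_chk (chk2 g (x := τ) (y := ρ) (by norm_num) (by simpa using h0)
    (by norm_num; linarith only [h1]) (by simpa using h2) (by norm_num; linarith only [h3])))
  norm_num at this ⊢
  linarith only [this]

theorem K_one5 {τ ρ : ℝ} (h0 : 0 ≤ τ) (h1 : τ ≤ 158 / 1000) (h2 : 0 ≤ ρ) (h3 : ρ ≤ 725 / 10000) :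
    Real.sinh (2 * Real.pi * τ) * Real.sinh (2 * Real.pi * ρ) ≤
      Real.sin (2 * Real.pi * (14 / 100)) := by
  have g : chk [k0 28] 40 [V.of 10000 0 1580, V.of 10000 0 725] = true := by decide +kernel
  have := k0_of (pos_of_chk (chk2 g (x := τ) (y := ρ) (by norm_num) (by simpa using h0)
    (by norm_num; linarith only [h1]) (by simpa using h2) (by norm_num; linarith only [h3])))
  norm_num at this ⊢
  linarith only [this]

/-- `x = var 0`; `a/1000`: the height, `r/10000`: `ρ` -/
private def kr (a r : ℤ) : E := sub (sinPi (mul (q 2 1) (var 0))) (mul (sinh (mul (mul (q 2 1) pi)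
  (mul (q a 290) (sub (q 65 100) (var 0))))) (sinh (mul (mul (q 2 1) pi) (q r 10000))))

private theorem K_oneR4 {x : ℝ} (h0 : 36 / 100 ≤ x) (h1 : x ≤ 40 / 100) :
    Real.sinh (2 * Real.pi * (128 / 290 * (65 / 100 - x))) *
      Real.sinh (2 * Real.pi * (1045 / 10000)) ≤ Real.sin (2 * Real.pi * x) := by
  have g : chk [kr 128 1045] 40 [V.of 100 36 40] = true := by decide +kernel
  have := pos_of_chk (chk1 g (x := x) (by norm_num) (by norm_num; linarith only [h0]) (by norm_num; linarith only [h1]))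
  simp only [kr, E.val, NumI.lkR] at this
  simp only [Int.cast_ofNat, Nat.cast_ofNat, Nat.cast_one, div_one] at this
  rw [show Real.pi * (2 * x) = 2 * Real.pi * x by ring] at this
  linarith only [this]

private theorem K_oneR5 {x : ℝ} (h0 : 36 / 100 ≤ x) (h1 : x ≤ 40 / 100) :
    Real.sinh (2 * Real.pi * (158 / 290 * (65 / 100 - x))) *
      Real.sinh (2 * Real.pi * (725 / 10000)) ≤ Real.sin (2 * Real.pi * x) := by
  have g : chk [kr 158 725] 40 [V.of 100 36 40] = true := by decide +kernel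
  have := pos_of_chk (chk1 g (x := x) (by norm_num) (by norm_num; linarith only [h0]) (by norm_num; linarith only [h1]))
  simp only [kr, E.val, NumI.lkR] at this
  simp only [Int.cast_ofNat, Nat.cast_ofNat, Nat.cast_one, div_one] at this
  rw [show Real.pi * (2 * x) = 2 * Real.pi * x by ring] at this
  linarith only [this]

theorem K_loR4 {τ ρ : ℝ} (h0 : 0 ≤ τ) (h1 : τ ≤ 768 / 10000) (h2 : 0 ≤ ρ) (h3 : ρ ≤ 1045 / 10000) :
    Real.sinh (2 * Real.pi * τ) * Real.sinh (2 * Real.pi * ρ) ≤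
      Real.sin (2 * Real.pi * (8 / 100)) := by
  have g : chk [k0 16] 40 [V.of 10000 0 768, V.of 10000 0 1045] = true := by decide +kernel
  have := k0_of (pos_of_chk (chk2 g (x := τ) (y := ρ) (by norm_num) (by simpa using h0)
    (by norm_num; linarith only [h1]) (by simpa using h2) (by norm_num; linarith only [h3])))
  norm_num at this ⊢
  linarith only [this]

theorem K_loR5 {τ ρ : ℝ} (h0 : 0 ≤ τ) (h1 : τ ≤ 875 / 10000) (h2 : 0 ≤ ρ) (h3 : ρ ≤ 725 / 10000) :
    Real.sinh (2 * Real.pi * τ) * Real.sinh (2 * Real.pi * ρ) ≤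
      Real.sin (2 * Real.pi * (8 / 100)) := by
  have g : chk [k0 16] 40 [V.of 10000 0 875, V.of 10000 0 725] = true := by decide +kernel
  have := k0_of (pos_of_chk (chk2 g (x := τ) (y := ρ) (by norm_num) (by simpa using h0)
    (by norm_num; linarith only [h1]) (by simpa using h2) (by norm_num; linarith only [h3])))
  norm_num at this ⊢
  linarith only [this]

end

theorem sin_cr_le : Real.sin (2 * Real.pi * (2 / 100)) ≤ Real.sin (2 * Real.pi * (1 / 10)) := by
  have hpi := Real.pi_pos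
  apply Real.sin_le_sin_of_le_of_le_pi_div_two <;> nlinarith only [hpi]

/-- comparison of the condition at two heights -/
theorem PCond_of_le {ρ ρ' τ : ℝ} {w : ℂ} (h0 : 0 ≤ -w.im) (h1 : -w.im ≤ τ) (h2 : 0 ≤ ρ) (h3 : ρ ≤ ρ')
    (h : Real.sinh (2 * Real.pi * τ) * Real.sinh (2 * Real.pi * ρ') ≤ Real.sin (2 * Real.pi * w.re)) :
    PCond ρ w := by
  have hpi := Real.pi_pos
  unfold PCond
  refine le_trans ?_ h
  have a1 : Real.sinh (2 * Real.pi * -w.im) ≤ Real.sinh (2 * Real.pi * τ) := by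
    rw [Real.sinh_le_sinh]
    nlinarith only [h1, hpi]
  have a2 : Real.sinh (2 * Real.pi * ρ) ≤ Real.sinh (2 * Real.pi * ρ') := by
    rw [Real.sinh_le_sinh]
    nlinarith only [h3, hpi]
  have a3 : 0 ≤ Real.sinh (2 * Real.pi * ρ) := by
    rw [Real.sinh_nonneg_iff]; positivity
  have a4 : 0 ≤ Real.sinh (2 * Real.pi * -w.im) := by
    rw [Real.sinh_nonneg_iff]; positivity
  exact mul_le_mul a1 a2 a3 (a4.trans a1)

/-! ### near `x = 1/2` -/

/-- condition on a point of the path near `1/2` -/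
def PMid (ρ : ℝ) (w : ℂ) : Prop := 40 / 100 ≤ w.re ∧
  ((ρ ≤ 1045 / 10000 ∧ -(1321 / 10000) ≤ w.im) ∨ (ρ ≤ 52 / 1000 ∧ -(1365 / 10000) ≤ w.im))

section
open NumI NumI.E

private theorem s1 : Real.sinh (2 * Real.pi * (1321 / 10000)) * Real.sinh (2 * Real.pi * (1045 / 10000)) ≤
    2 * Real.pi * (1045 / 10000) := by
  have g : chk [sub (mul (mul (q 2 1) pi) (q 1045 10000)) (mul (sinh (mul (mul (q 2 1) pi) (q 1321 10000)))
      (sinh (mul (mul (q 2 1) pi) (q 1045 10000))))] 10 [V.of 1 0 0] = true := by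
    decide +kernel
  have h := pos_of_chk (chk1 g (by norm_num) (x := 0) (by norm_num) (by norm_num))
  simp only [E.val] at h
  simp only [Int.cast_ofNat, Nat.cast_ofNat, Nat.cast_one, div_one] at h
  linarith only [h]

private theorem s2 : Real.sinh (2 * Real.pi * (1365 / 10000)) * Real.sinh (2 * Real.pi * (52 / 1000)) ≤
    2 * Real.pi * (52 / 1000) := by
  have g : chk [sub (mul (mul (q 2 1) pi) (q 52 1000)) (mul (sinh (mul (mul (q 2 1) pi) (q 1365 10000)))
      (sinh (mul (mul (q 2 1) pi) (q 52 1000))))] 10 [V.of 1 0 0] = true := by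
    decide +kernel
  have h := pos_of_chk (chk1 g (by norm_num) (x := 0) (by norm_num) (by norm_num))
  simp only [E.val] at h
  simp only [Int.cast_ofNat, Nat.cast_ofNat, Nat.cast_one, div_one] at h
  linarith only [h]

end

/-- the product of hyperbolic sines near `1/2` -/
theorem PMid.prod {ρ : ℝ} {w : ℂ} (h : PMid ρ w) (hρ : 0 ≤ ρ) (ht : w.im ≤ 0) :
    Real.sinh (2 * Real.pi * -w.im) * Real.sinh (2 * Real.pi * ρ) ≤ 2 * Real.pi * ρ := by
  have hpi := Real.pi_pos
  have key : ∀ τ r : ℝ, 0 < r → ρ ≤ r → -w.im ≤ τ →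
      Real.sinh (2 * Real.pi * τ) * Real.sinh (2 * Real.pi * r) ≤ 2 * Real.pi * r →
      Real.sinh (2 * Real.pi * -w.im) * Real.sinh (2 * Real.pi * ρ) ≤ 2 * Real.pi * ρ := by
    intro τ r hr h1 h2 h3
    have a0 : 0 ≤ -w.im := by linarith only [ht]
    have a1 : Real.sinh (2 * Real.pi * -w.im) ≤ Real.sinh (2 * Real.pi * τ) := by
      rw [Real.sinh_le_sinh]
      nlinarith only [hpi, h2]
    have a2 : 0 ≤ Real.sinh (2 * Real.pi * -w.im) := by
      rw [Real.sinh_nonneg_iff]; positivity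
    have a3 : Real.sinh (2 * Real.pi * ρ) ≤ ρ / r * Real.sinh (2 * Real.pi * r) := by
      have := sinh_mul_le (l := ρ / r) (z := 2 * Real.pi * r) (by positivity)
        ((div_le_one hr).mpr h1) (by positivity)
      rwa [show ρ / r * (2 * Real.pi * r) = 2 * Real.pi * ρ by field_simp] at this
    have a4 : 0 ≤ Real.sinh (2 * Real.pi * ρ) := by
      rw [Real.sinh_nonneg_iff]; positivity
    calc _ ≤ Real.sinh (2 * Real.pi * τ) * (ρ / r * Real.sinh (2 * Real.pi * r)) :=
          mul_le_mul a1 a3 a4 (a2.trans a1)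
      _ = ρ / r * (Real.sinh (2 * Real.pi * τ) * Real.sinh (2 * Real.pi * r)) := by ring
      _ ≤ ρ / r * (2 * Real.pi * r) := mul_le_mul_of_nonneg_left h3 (by positivity)
      _ = 2 * Real.pi * ρ := by field_simp
  rcases h.2 with ⟨h1, h2⟩ | ⟨h1, h2⟩
  · exact key (1321 / 10000) (1045 / 10000) (by norm_num) h1 (by linarith only [h2]) s1
  · exact key (1365 / 10000) (52 / 1000) (by norm_num) h1 (by linarith only [h2]) s2

/-- the logarithmic part of the derivative in the ring variable -/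
theorem LL_ring_ge {x t s η N : ℝ} (hN0 : 0 < N) (ht : t ≤ 0) (hη : 0 < η)
    (hN : N ≤ 1 - Real.cos (2 * Real.pi * (x + s))) :
    -((Real.sinh (2 * Real.pi * -t) * Real.sinh (2 * Real.pi * η) -
      Real.sin (2 * Real.pi * x) * Real.sin (2 * Real.pi * s)) / N) ≤
    LL ⟨x + s, t + η⟩ - LL ⟨x - s, t - η⟩ ∨
    0 ≤ LL ⟨x + s, t + η⟩ - LL ⟨x - s, t - η⟩ := by
  have hpi := Real.pi_pos
  have p1 : 0 < Real.cosh (2 * Real.pi * (t - η)) - Real.cos (2 * Real.pi * (x - s)) :=
    cosh_sub_cos_pos (u := ⟨x - s, t - η⟩) (sin_ne_of_im (by simp only; linarith only [ht, hη]))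
  have c1 := Real.one_le_cosh (2 * Real.pi * (t + η))
  have p2 : N ≤ Real.cosh (2 * Real.pi * (t + η)) - Real.cos (2 * Real.pi * (x + s)) := by linarith only [hN, c1]
  have e1 : (Real.cosh (2 * Real.pi * (t - η)) - Real.cos (2 * Real.pi * (x - s))) -
      (Real.cosh (2 * Real.pi * (t + η)) - Real.cos (2 * Real.pi * (x + s))) =
      2 * (Real.sinh (2 * Real.pi * -t) * Real.sinh (2 * Real.pi * η) -
      Real.sin (2 * Real.pi * x) * Real.sin (2 * Real.pi * s)) := by
    rw [mul_add, mul_sub, mul_add, mul_sub, Real.cosh_add, Real.cosh_sub, Real.cos_add, Real.cos_sub,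
      mul_neg, Real.sinh_neg]
    ring
  set D := Real.cosh (2 * Real.pi * (t - η)) - Real.cos (2 * Real.pi * (x - s)) with hD
  set M := Real.cosh (2 * Real.pi * (t + η)) - Real.cos (2 * Real.pi * (x + s)) with hM
  set S := Real.sinh (2 * Real.pi * -t) * Real.sinh (2 * Real.pi * η) -
      Real.sin (2 * Real.pi * x) * Real.sin (2 * Real.pi * s) with hS
  have hM0 : 0 < M := by linarith only [hN0, hN, c1]
  have e2 : LL ⟨x + s, t + η⟩ - LL ⟨x - s, t - η⟩ = -(Real.log (D / M) / 2) := by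
    rw [LL_eq', LL_eq']
    simp only
    rw [show 2 * Real.cosh (2 * Real.pi * (t + η)) - 2 * Real.cos (2 * Real.pi * (x + s)) = 2 * M by
      rw [hM]; ring, show 2 * Real.cosh (2 * Real.pi * (t - η)) - 2 * Real.cos (2 * Real.pi * (x - s)) =
      2 * D by rw [hD]; ring, Real.log_mul two_ne_zero hM0.ne', Real.log_mul two_ne_zero p1.ne',
      Real.log_div p1.ne' hM0.ne']
    ring
  rw [e2]
  rcases le_total 0 S with h | h
  · left
    have h1 := Real.log_le_sub_one_of_pos (div_pos p1 hM0)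
    have h2 : D / M - 1 = 2 * S / M := by
      rw [← e1]
      field_simp
    have h3 : 2 * S / M ≤ 2 * S / N := div_le_div_of_nonneg_left (by linarith only [h]) hN0 p2
    have h4 : 2 * S / N = 2 * (S / N) := by ring
    linarith only [h1, h2, h3, h4]
  · right
    have h1 : D / M ≤ 1 := by
      rw [div_le_one hM0]
      linarith only [e1, h]
    have h2 := Real.log_nonpos (div_pos p1 hM0).le h1
    linarith only [h2]

/-- the height part of the derivative in the ring variable, heights `≤ 0`, `s ≤ x` -/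
theorem YY_ring_ge {x t s η : ℝ} (hs : 0 ≤ s) (hxs : 0 ≤ x - s) (hxs' : x - s ≤ 1 / 2)
    (hxs1 : x + s ≤ 1) (ht : t ≤ 0) (hη : 0 < η) :
    Real.pi * (x - s) + Real.pi / 2 - Real.pi * |x + s - 1 / 2| ≤
      YY ⟨x + s, t + η⟩ - YY ⟨x + 1 - s, t - η⟩ := by
  have hpi := Real.pi_pos
  have hv : YY ⟨x + 1 - s, t - η⟩ ≤ -(Real.pi / 2) - Real.pi * (x - s) := by
    rw [YY_neg (u := ⟨x + 1 - s, t - η⟩) (by simp only; linarith only [ht, hη])]
    simp only
    rw [show x + 1 - s = (x - s) + 1 by ring, Tr_add_one]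
    have := pi_mul_le_Tr (s := -(t - η)) (x := x - s) hxs hxs' (by linarith only [ht, hη])
    linarith only [this]
  have hu : -(Real.pi * |x + s - 1 / 2|) ≤ YY ⟨x + s, t + η⟩ := by
    rcases lt_trichotomy (t + η) 0 with h | h | h
    · rw [YY_neg (u := ⟨x + s, t + η⟩) h]
      simp only
      rcases le_total (x + s) (1 / 2) with h1 | h1
      · have := Tr_le_half (s := -(t + η)) (x := x + s) (by linarith only [h]) h1
        have h2 : 0 ≤ Real.pi * |x + s - 1 / 2| := by positivity
        linarith only [this, h2]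
      · have := Tr_le_pi_mul (s := -(t + η)) (x := x + s) h1 hxs1 (by linarith only [h])
        rw [abs_of_nonneg (by linarith only [h1])]
        linarith only [this]
    · rw [YY_zero (u := ⟨x + s, t + η⟩) h]
      have h2 : 0 ≤ Real.pi * |x + s - 1 / 2| := by positivity
      linarith only [h2]
    · rw [YY_pos (u := ⟨x + s, t + η⟩) h]
      simp only
      rcases le_total (x + s) (1 / 2) with h1 | h1
      · have := pi_mul_le_Tr (s := t + η) (x := x + s) (by linarith only [hs, hxs]) h1 h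
        rw [abs_of_nonpos (by linarith only [h1])]
        linarith only [this]
      · have := half_le_Tr (s := t + η) (x := x + s) h h1
        have h2 : 0 ≤ Real.pi * |x + s - 1 / 2| := by positivity
        linarith only [this, h2]
  linarith only [hv, hu]

/-- the derivative in the ring variable near `x = 1/2` -/
theorem Dm_mid_nonneg {ρ σ : ℝ} {w : ℂ} (hρ : 0 < ρ) (h : PMid ρ w) (h0 : -(1 / 2) < σ)
    (h1 : σ ≤ -(1 / 4)) (ht : w.im ≤ 0) (hx : w.re ≤ 1 / 2) {m : ℝ} (hm : m = 4 * ρ) :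
    0 ≤ Dm m w (LT.zt ρ σ) := by
  have hpi := Real.pi_pos
  have hx0 := h.1
  have hth : LT.th σ = 2 + 4 * σ := by
    have : |σ| = -σ := abs_of_nonpos (by linarith only [h0, h1])
    rw [th_of_ge (by rw [this]; linarith only [h1]), this]
    ring
  set s := 1 / 2 + σ with hs
  have s0 : 0 < s := by linarith only [h0, hs]
  have s1 : s ≤ 1 / 4 := by linarith only [h1, hs]
  have hη : ρ * LT.th σ = 4 * ρ * s := by rw [hth, hs]; ring
  have η0 : 0 < 4 * ρ * s := by positivity
  have e1 : w + 1 / 2 + LT.zt ρ σ = ⟨w.re + s, w.im + 4 * ρ * s⟩ := by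
    rw [zt_eq, hη]
    apply Complex.ext <;> simp [hs]
    ring
  have e2 : w + 1 / 2 - LT.zt ρ σ = ⟨w.re + 1 - s, w.im - 4 * ρ * s⟩ := by
    rw [zt_eq, hη]
    apply Complex.ext <;> simp [hs]
    ring
  have e3 : LL ⟨w.re + 1 - s, w.im - 4 * ρ * s⟩ = LL ⟨w.re - s, w.im - 4 * ρ * s⟩ := by
    rw [← LL_add_one ⟨w.re - s, w.im - 4 * ρ * s⟩]
    congr 1
    apply Complex.ext <;> simp
    ring
  unfold Dm Dq
  rw [e1, e2, e3]
  have hc : Real.cos (2 * Real.pi * (w.re + s)) ≤ 0 := by
    apply Real.cos_nonpos_of_pi_div_two_le_of_le <;> nlinarith only [h0, hpi, h1, hx0, hs, hx]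
  have k1 := LL_ring_ge (x := w.re) (t := w.im) (s := s) (η := 4 * ρ * s) (N := 1) one_pos ht η0
    (by linarith only [hc])
  have k2 := YY_ring_ge (x := w.re) (t := w.im) (s := s) (η := 4 * ρ * s) s0.le (by linarith only [h0, h1, hx0, hs])
    (by linarith only [hx, s0]) (by linarith only [h0, h1, hx, hs]) ht η0
  have k3 : Real.pi / 2 ≤ Real.pi * (w.re - s) + Real.pi / 2 - Real.pi * |w.re + s - 1 / 2| := by
    rcases le_total (w.re + s) (1 / 2) with h3 | h3
    · rw [abs_of_nonpos (by linarith only [h3])]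
      nlinarith only [h0, hpi, h1, hx0]
    · rw [abs_of_nonneg (by linarith only [h3])]
      nlinarith only [h0, h1, hpi, hs]
  have k4 : m * (Real.pi / 2) ≤ m * (YY ⟨w.re + s, w.im + 4 * ρ * s⟩ -
      YY ⟨w.re + 1 - s, w.im - 4 * ρ * s⟩) := by
    apply mul_le_mul_of_nonneg_left (k3.trans k2)
    rw [hm]; positivity
  rw [hm] at k4 ⊢
  rcases k1 with k1 | k1
  · have k5 : Real.sinh (2 * Real.pi * -w.im) * Real.sinh (2 * Real.pi * (4 * ρ * s)) ≤
        2 * Real.pi * ρ := by
      have a1 := h.prod hρ.le ht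
      have a2 : Real.sinh (2 * Real.pi * (4 * ρ * s)) ≤ 4 * s * Real.sinh (2 * Real.pi * ρ) := by
        have := sinh_mul_le (l := 4 * s) (z := 2 * Real.pi * ρ) (by linarith only [s0]) (by linarith only [h1, hs])
          (by positivity)
        rwa [show 4 * s * (2 * Real.pi * ρ) = 2 * Real.pi * (4 * ρ * s) by ring] at this
      have a3 : 0 ≤ Real.sinh (2 * Real.pi * -w.im) := by
        rw [Real.sinh_nonneg_iff]
        have : 0 ≤ -w.im := by linarith only [ht]
        positivity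
      calc _ ≤ Real.sinh (2 * Real.pi * -w.im) * (4 * s * Real.sinh (2 * Real.pi * ρ)) :=
            mul_le_mul_of_nonneg_left a2 a3
        _ = 4 * s * (Real.sinh (2 * Real.pi * -w.im) * Real.sinh (2 * Real.pi * ρ)) := by ring
        _ ≤ 1 * (2 * Real.pi * ρ) := by
          apply mul_le_mul (by linarith only [h1, hs]) a1
          · apply mul_nonneg a3
            rw [Real.sinh_nonneg_iff]; positivity
          · norm_num
        _ = _ := one_mul _
    have k6 : 0 ≤ Real.sin (2 * Real.pi * w.re) * Real.sin (2 * Real.pi * s) := by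
      apply mul_nonneg
      · apply Real.sin_nonneg_of_nonneg_of_le_pi
        · have : 0 ≤ w.re := by linarith only [hx0]
          positivity
        · nlinarith only [h0, h1, hx, hpi]
      · apply Real.sin_nonneg_of_nonneg_of_le_pi
        · positivity
        · nlinarith only [h0, hpi, h1, hs]
    rw [div_one] at k1
    linarith only [k4, k1, k5, k6]
  · have k5 : 0 ≤ 4 * ρ * (Real.pi / 2) := by positivity
    linarith only [k4, k1, k5]

/-- the conditions on a hinge under which the location theorem is proved by derivatives -/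
structure HOk (ρ : ℝ) (w : ℂ) : Prop where
  re0 : 0 ≤ w.re
  re1 : w.re ≤ 1 / 2
  im : w.im ≤ 0
  pc : PCond ρ w ∨ PMid ρ w

theorem HOk.nonneg {ρ σ : ℝ} {w : ℂ} (h : HOk ρ w) (hρ : 0 < ρ) (h0 : -(1 / 2) < σ)
    (h1 : σ ≤ -(1 / 4)) : 0 ≤ Dm (4 * ρ) w (LT.zt ρ σ) := by
  rcases h.pc with hp | hp
  · exact Dm_ramp_nonneg (b := 4) hρ hp h0 h1 h.im h.re0 h.re1 (by positivity)
  · exact Dm_mid_nonneg hρ hp h0 h1 h.im h.re1 rfl

/-- all hinges with height `≤ 0` -/
theorem HOk_of {b ρ : ℝ} {w : ℂ} {k : RKe} (hρ : 0 < ρ) (hb : 4 ≤ b) (hc : RCap b ρ)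
    (h : k.ok b w) (hk : k.up = true → w.im ≤ 0) (hx : w.re ≤ 1 / 2) : HOk ρ w := by
  have hpi := Real.pi_pos
  obtain ⟨c4, c5, c6, -, -⟩ := hc
  cases k with
  | no =>
    have h0 : w = 0 := h
    rw [h0]
    exact ⟨by simp, by simp, by simp, Or.inl (PCond_zero ρ)⟩
  | one =>
    obtain ⟨T, cr, t1, t2, t3, t4, ⟨r1, r2⟩, hw⟩ := h
    have him : w.im ≤ 0 := by
      rw [hw.im]
      exact mul_nonpos_of_nonpos_of_nonneg (by linarith only [hρ, c4, t2]) (le_max_left _ _)
    refine ⟨hw.re0, hx, him, ?_⟩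
    have hni := hw.neg_im_le (by linarith only [hρ, c4, t2]) (by linarith only [hρ, c4, r1])
    rcases le_total w.re (36 / 100) with h36 | h36
    · left
      refine PCond_start (c0 := 14 / 100) hρ.le (by linarith only [hρ, c4, t2]) (by norm_num) (by norm_num)
        (by norm_num) (by linarith only [hρ, c4, r1]) (by linarith only [hρ, c4, r2]) hw (by linarith only [h36]) ?_
      rcases lt_or_ge b 5 with hb5 | hb5
      · exact K_one4 (by linarith only [hρ, c4, t2]) (by linarith only [t3, hb5, t3 hb5]) hρ.le c4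
      · exact K_one5 (by linarith only [hρ, c4, t2]) (by linarith only [t1]) hρ.le (c5 hb5)
    · have hx1 : 0 ≤ 65 / 100 - w.re := by linarith only [hρ, hx, c4]
      have e : ∀ a : ℝ, -T ≤ a → -w.im ≤ a / (29 / 100) * (65 / 100 - w.re) := by
        intro a ha
        refine hni.trans ?_
        have h1 : 0 ≤ (65 / 100 - w.re) / cr := div_nonneg hx1 (by linarith only [hρ, c4, r1])
        have h2 : (65 / 100 - w.re) / cr ≤ (65 / 100 - w.re) / (29 / 100) :=
          div_le_div_of_nonneg_left hx1 (by norm_num) r1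
        calc -T * ((65 / 100 - w.re) / cr) ≤ a * ((65 / 100 - w.re) / cr) :=
              mul_le_mul_of_nonneg_right ha h1
          _ ≤ a * ((65 / 100 - w.re) / (29 / 100)) := mul_le_mul_of_nonneg_left h2 (by linarith only [hρ, c4, t2, ha])
          _ = _ := by ring
      rcases le_total w.re (40 / 100) with h42 | h42
      · left
        rcases lt_or_ge b 5 with hb5 | hb5
        · refine PCond_of_le (by linarith only [him]) ((e (128 / 1000) (by linarith only [t3, hb5, t3 hb5])).trans (le_of_eq ?_))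
            hρ.le c4 (K_oneR4 h36 h42)
          ring
        · refine PCond_of_le (by linarith only [him]) ((e (158 / 1000) (by linarith only [t1])).trans (le_of_eq ?_))
            hρ.le (c5 hb5) (K_oneR5 h36 h42)
          ring
      · right
        refine ⟨h42, ?_⟩
        rcases lt_or_ge b 6 with hb6 | hb6
        · left
          have := e (138 / 1000) (by linarith only [t4, hb6, t4 hb6])
          refine ⟨c4, ?_⟩
          have h3 : (138 / 1000 : ℝ) / (29 / 100) * (65 / 100 - w.re) ≤ 1321 / 10000 := by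
            rw [show (138 / 1000 : ℝ) / (29 / 100) = 138 / 290 by norm_num]
            linarith only [hρ, c4, h42]
          linarith only [hρ, c4, h42, this]
        · right
          have := e (158 / 1000) (by linarith only [t1])
          refine ⟨c6 hb6, ?_⟩
          have h3 : (158 / 1000 : ℝ) / (29 / 100) * (65 / 100 - w.re) ≤ 1365 / 10000 := by
            rw [show (158 / 1000 : ℝ) / (29 / 100) = 158 / 290 by norm_num]
            linarith only [hρ, c4, h42]
          linarith only [hρ, c4, h42, this]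
  | lo =>
    obtain ⟨T, cl, cr, t1, t2, t3, ⟨l1, l2⟩, ⟨r1, r2⟩, hw⟩ := h
    have him : w.im ≤ 0 := by
      rw [hw.im]
      exact mul_nonpos_of_nonpos_of_nonneg t2 (le_max_left _ _)
    refine ⟨hw.re0, hx, him, ?_⟩
    have hni := hw.neg_im_le t2 (by linarith only [hρ, c4, r1])
    rcases le_total w.re (40 / 100) with h40 | h40
    · left
      have hK : Real.sinh (2 * Real.pi * -T) * Real.sinh (2 * Real.pi * ρ) ≤
          Real.sin (2 * Real.pi * (1 / 10)) := by
        rcases lt_or_ge b 5 with hb5 | hb5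
        · exact K_lo4 (by linarith only [t2]) (by linarith only [t3, hb5, t3 hb5]) hρ.le c4
        · exact K_lo5 (by linarith only [t2]) (by linarith only [t1]) hρ.le (c5 hb5)
      exact PCond_start (c0 := 1 / 10) hρ.le t2 (by norm_num) l1 (by linarith only [hρ, c4, l2]) (by linarith only [hρ, c4, r1])
        (by linarith only [hρ, c4, l2, r2]) hw (by linarith only [h40]) hK
    · have e : ∀ a : ℝ, -T ≤ a → -w.im ≤ a * (2 / 3) := by
        intro a ha
        refine hni.trans ?_
        have h1 : 0 ≤ (60 / 100 - w.re) / cr := div_nonneg (by linarith only [hρ, hx, c4]) (by linarith only [hρ, c4, r1])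
        have h2 : (60 / 100 - w.re) / cr ≤ 2 / 3 := by
          rw [div_le_iff₀ (by linarith only [hρ, c4, r1])]
          linarith only [r1, h40]
        have h3 : 0 ≤ -T := by linarith only [t2]
        calc -T * ((60 / 100 - w.re) / cr) ≤ a * ((60 / 100 - w.re) / cr) :=
              mul_le_mul_of_nonneg_right ha h1
          _ ≤ _ := mul_le_mul_of_nonneg_left h2 (by linarith only [t2, ha])
      rcases le_total w.re (42 / 100) with h42 | h42
      · left
        have h8 : Real.sin (2 * Real.pi * (8 / 100)) ≤ Real.sin (2 * Real.pi * w.re) := by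
          rw [← Real.sin_pi_sub (2 * Real.pi * w.re)]
          apply Real.sin_le_sin_of_le_of_le_pi_div_two <;> nlinarith only [hpi, hρ, c4, h40, h42]
        rcases lt_or_ge b 5 with hb5 | hb5
        · refine PCond_of_le (ρ' := 1045 / 10000) (τ := 768 / 10000) (by linarith only [him])
            ((e (115 / 1000) (by linarith only [t3, hb5, t3 hb5])).trans (by norm_num)) hρ.le c4
            ((K_loR4 (by norm_num) le_rfl (by norm_num) le_rfl).trans h8)
        · refine PCond_of_le (ρ' := 725 / 10000) (τ := 875 / 10000) (by linarith only [him])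
            ((e (131 / 1000) (by linarith only [t1])).trans (by norm_num)) hρ.le (c5 hb5)
            ((K_loR5 (by norm_num) le_rfl (by norm_num) le_rfl).trans h8)
      · right
        have := e (131 / 1000) (by linarith only [t1])
        exact ⟨by linarith only [h40], Or.inl ⟨c4, by linarith only [hρ, c4, this]⟩⟩
  | rr =>
    obtain ⟨T, t1, t2, t3, -, hw⟩ := h
    have him := hk rfl
    rcases le_or_gt T 0 with hT | hT
    · have hK : Real.sinh (2 * Real.pi * -T) * Real.sinh (2 * Real.pi * ρ) ≤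
          Real.sin (2 * Real.pi * (2 / 100)) := by
        rcases lt_or_ge b 5 with hb5 | hb5
        · exact K_rr4 (by linarith only [hT]) (by linarith only [t3, hb5, t3 hb5]) hρ.le c4
        · exact K_rr5 (by linarith only [hT]) (by linarith only [hρ, c4, t1]) hρ.le (c5 hb5)
      exact ⟨hw.re0, hw.reM, him, Or.inl (PCond_half hρ.le hT (by norm_num) (by norm_num) (by norm_num)
        hw (hK.trans sin_cr_le) hK)⟩
    · have h0 : w.im = 0 := le_antisymm him (by
        rw [hw.im]
        exact mul_nonneg hT.le (le_max_left _ _))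
      refine ⟨hw.re0, hw.reM, him, ?_⟩
      left
      unfold PCond
      rw [h0, neg_zero, mul_zero, Real.sinh_zero, zero_mul]
      have := hw.re0
      have := hw.reM
      apply Real.sin_nonneg_of_nonneg_of_le_pi
      · positivity
      · nlinarith only [hx, hpi]
  | ps => exact absurd (hk rfl) (not_le.2 h.2.1)

/-- **Lower location, heights `≤ 0`.** -/
theorem RM.ge_of_nonpos {b ρ σ : ℝ} {w w' : ℂ} (h : RM b ρ w w' σ) (h1 : HOk ρ w) (h2 : HOk ρ w')
    (h0 : -(1 / 2) < σ) : -(1 / 4) - 1 / (2 * b) ≤ σ := by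
  by_contra hcon
  push Not at hcon
  have hb := h.b4
  have hρ := h.ρ0
  have hpi := Real.pi_pos
  have hb0 : 0 < 1 / (2 * b) := by positivity
  have hσ : σ < -(1 / 4) := by linarith only [hcon, hb0]
  have key := h.right_ramp h0 hσ h1.re0 (by linarith only [h0, hcon, hb0, h1, h1.re1]) h2.re0 (by linarith only [h0, hcon, hb0, h2, h2.re1])
  have a1 := h1.nonneg hρ h0 hσ.le
  have a2 := h2.nonneg hρ h0 hσ.le
  have a3 : 2 + b + 4 * b * σ < 0 := by
    have : 4 * b * σ < 4 * b * (-(1 / 4) - 1 / (2 * b)) :=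
      mul_lt_mul_of_pos_left hcon (by positivity)
    have e : 4 * b * (-(1 / 4) - 1 / (2 * b)) = -b - 2 := by
      field_simp
      ring
    linarith only [this, e]
  have a4 : 0 < -(4 * Real.pi * ρ * (2 + b + 4 * b * σ)) := by
    have : 4 * Real.pi * ρ * (2 + b + 4 * b * σ) < 0 :=
      mul_neg_of_pos_of_neg (by positivity) a3
    linarith only [key, a1, a2, this]
  linarith only [key, a1, a2, a4]

end Pool.Agent.Work.MP_b30479_gt.G2
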