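import Pool.Agent.Work.MP_b30479_gt.G2.RngB
import Pool.Agent.Work.NumU.Node

/-!
# Ring sides: tools (first order condition with arbitrary limits, monotonicity in the hinge)
-/

namespace Pool.Agent.Work.MP_b30479_gt.G2

open Finset VOL Filter Topology NumU

/-! ### one exceptional point -/

theorem strict_anti_one {f f' : ℝ → ℝ} {a b : ℝ} (c : ℝ) (hab : a < b) (hf : Continuous f)
    (h : ∀ x, a < x → x < b → x ≠ c → HasDerivAt f (f' x) x ∧ f' x < 0) : f b < f a := by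
  have key : ∀ a' b', a ≤ a' → a' < b' → b' ≤ b → (∀ x, a' < x → x < b' → x ≠ c) → f b' < f a' := by
    intro a' b' h1 h2 h3 h4
    have hs : StrictAntiOn f (Set.Icc a' b') := by
      apply strictAntiOn_of_deriv_neg (convex_Icc _ _) hf.continuousOn
      rw [interior_Icc]
      intro x hx
      obtain ⟨p, q⟩ := h x (by linarith only [h1, hx, hx.1]) (by linarith only [h3, hx, hx.2]) (h4 x hx.1 hx.2)
      rw [p.deriv]
      exact q
    exact hs ⟨le_rfl, h2.le⟩ ⟨h2.le, le_rfl⟩ h2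
  by_cases hc : a < c ∧ c < b
  · exact (key c b hc.1.le hc.2 le_rfl fun x hx _ => hx.ne').trans
      (key a c le_rfl hc.1 hc.2.le fun x _ hx => hx.ne)
  · exact key a b le_rfl hab le_rfl fun x h1 h2 h3 => hc ⟨h3 ▸ h1, h3 ▸ h2⟩

theorem anti_one {f f' : ℝ → ℝ} {a b : ℝ} (c : ℝ) (hab : a ≤ b) (hf : Continuous f)
    (h : ∀ x, a < x → x < b → x ≠ c → HasDerivAt f (f' x) x ∧ f' x ≤ 0) : f b ≤ f a := by
  have key : ∀ a' b', a ≤ a' → a' ≤ b' → b' ≤ b → (∀ x, a' < x → x < b' → x ≠ c) → f b' ≤ f a' := by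
    intro a' b' h1 h2 h3 h4
    have hs : AntitoneOn f (Set.Icc a' b') := by
      apply antitoneOn_of_deriv_nonpos (convex_Icc _ _) hf.continuousOn
      · rw [interior_Icc]
        intro x hx
        exact (h x (by linarith only [h1, hx, hx.1]) (by linarith only [h3, hx, hx.2]) (h4 x hx.1 hx.2)).1.differentiableAt.differentiableWithinAt
      · rw [interior_Icc]
        intro x hx
        obtain ⟨p, q⟩ := h x (by linarith only [h1, hx, hx.1]) (by linarith only [h3, hx, hx.2]) (h4 x hx.1 hx.2)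
        rw [p.deriv]
        exact q
    exact hs ⟨le_rfl, h2⟩ ⟨h2, le_rfl⟩ h2
  by_cases hc : a < c ∧ c < b
  · exact (key c b hc.1.le hc.2.le le_rfl fun x hx _ => hx.ne').trans
      (key a c le_rfl hc.1.le hc.2.le fun x _ hx => hx.ne)
  · exact key a b le_rfl hab le_rfl fun x h1 h2 h3 => hc ⟨h3 ▸ h1, h3 ▸ h2⟩

theorem mono_one {f f' : ℝ → ℝ} {a b : ℝ} (c : ℝ) (hab : a ≤ b) (hf : Continuous f)
    (h : ∀ x, a < x → x < b → x ≠ c → HasDerivAt f (f' x) x ∧ 0 ≤ f' x) : f a ≤ f b := by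
  have := anti_one (f := fun x => -f x) (f' := fun x => -f' x) c hab hf.neg (fun x h1 h2 h3 =>
    ⟨(h x h1 h2 h3).1.neg, by linarith only [h, h1, h2, h3, (h x h1 h2 h3).2]⟩)
  linarith only [this]

/-! ### the first order condition with arbitrary bounds -/

/-- **First order condition to the right**, for any lower bounds of the derivatives. -/
theorem RM.right_le_K {b ρ σ m K1 K2 : ℝ} {w w' : ℂ} (h : RM b ρ w w' σ)
    (hm : ∀ᶠ s : ℝ in 𝓝[>] 0, |σ + s| ≤ 1 / 2 ∧ ρ * LT.th (σ + s) = ρ * LT.th σ + s * m)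
    (h1 : ∀ᶠ s : ℝ in 𝓝[>] 0, K1 < Dm m w (LT.zt ρ σ + s * (1 + m * Complex.I)))
    (h2 : ∀ᶠ s : ℝ in 𝓝[>] 0, K2 < Dm m w' (LT.zt ρ σ + s * (1 + m * Complex.I))) :
    nd b m σ (ρ * LT.th σ) + K1 + K2 ≤ 0 := by
  by_contra hcon
  push Not at hcon
  set ζ := LT.zt ρ σ with hζ
  set η := ρ * LT.th σ with hη
  set G := nd b m σ η + K1 + K2 with hG
  set F : ℝ → ℝ := fun s => -(2 * Real.pi * (η + s * m) * (b * (σ + s) + 1)) +
    fR w (ζ + s * (1 + m * Complex.I)) + fR w' (ζ + s * (1 + m * Complex.I)) with hF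
  have hzt : ∀ s : ℝ, ρ * LT.th (σ + s) = η + s * m →
      LT.zt ρ (σ + s) = ζ + s * (1 + m * Complex.I) := by
    intro s hs
    rw [zt_eq, hs, hζ, zt_eq, ← hη]
    push_cast
    ring
  have hFrg : ∀ s : ℝ, ρ * LT.th (σ + s) = η + s * m → rg b ρ w w' (σ + s) = F s := by
    intro s hs
    unfold rg
    rw [hzt s hs, hs]
  have hev := h1.and (h2.and ((FC.reg w ζ m).and (FC.reg w' ζ m)))
  have hpol : ∀ᶠ s : ℝ in 𝓝[>] 0, nd b m σ η - G / 2 < nd b m (σ + s) (η + s * m) := by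
    have hc : ContinuousAt (fun s : ℝ => nd b m (σ + s) (η + s * m)) 0 := by
      unfold nd
      fun_prop
    have h3 := hc.eventually (lt_mem_nhds (a := nd b m σ η - G / 2) (by
      simp only [add_zero, zero_mul]
      linarith only [hcon]))
    exact h3.filter_mono nhdsWithin_le_nhds
  have hall := hev.and (hpol.and hm)
  obtain ⟨r, hr0, hr⟩ := mem_nhdsGT_iff_exists_Ioo_subset.1 hall
  have hr0' : (0 : ℝ) < r := hr0
  have hder : ∀ s ∈ Set.Ioo (0 : ℝ) r, HasDerivAt F (nd b m (σ + s) (η + s * m) +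
      Dm m w (ζ + s * (1 + m * Complex.I)) + Dm m w' (ζ + s * (1 + m * Complex.I))) s := by
    intro s hs
    obtain ⟨⟨-, -, ⟨q1, q2⟩, ⟨q3, q4⟩⟩, -, -⟩ := hr hs
    have p1 : HasDerivAt (fun s : ℝ => -(2 * Real.pi * (η + s * m) * (b * (σ + s) + 1)))
        (nd b m (σ + s) (η + s * m)) s := by
      have a1 : HasDerivAt (fun s : ℝ => η + s * m) m s := by
        simpa using ((hasDerivAt_id s).mul_const m).const_add η
      have a2 : HasDerivAt (fun s : ℝ => b * (σ + s) + 1) b s := by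
        simpa using (((hasDerivAt_id s).const_add σ).const_mul b).add_const 1
      have a3 := ((a1.const_mul (2 * Real.pi)).mul a2).neg
      refine a3.congr_deriv ?_
      unfold nd
      ring
    exact (p1.add (hasDerivAt_fR q1 q2)).add (hasDerivAt_fR q3 q4)
  have hcont : ContinuousOn F (Set.Icc 0 (r / 2)) := by
    apply Continuous.continuousOn
    have := continuous_UU
    rw [hF]
    unfold fR
    fun_prop
  have hmono : StrictMonoOn F (Set.Icc 0 (r / 2)) := by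
    apply strictMonoOn_of_deriv_pos (convex_Icc _ _) hcont
    intro s hs
    rw [interior_Icc] at hs
    have hs' : s ∈ Set.Ioo (0 : ℝ) r := ⟨hs.1, by linarith only [hr0', hs, hs.2]⟩
    rw [(hder s hs').deriv]
    obtain ⟨⟨a1, a2, -, -⟩, a3, -⟩ := hr hs'
    linarith only [hcon, a1, a2, a3]
  have hr2 : r / 2 ∈ Set.Ioo (0 : ℝ) r := ⟨by linarith only [hr0'], by linarith only [hr0']⟩
  have h3 := hmono (Set.left_mem_Icc.mpr (by linarith only [hr0'])) (Set.right_mem_Icc.mpr (by linarith only [hr0']))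
    (show (0 : ℝ) < r / 2 by linarith only [hr0'])
  obtain ⟨-, -, hab, hth⟩ := hr hr2
  have h4 := h.mx (σ + r / 2) hab
  have h5 : rg b ρ w w' σ = F 0 := by
    have := hFrg 0 (by simp [hη])
    rwa [add_zero] at this
  rw [hFrg _ hth, h5] at h4
  linarith only [h3, h4]

/-- the singular case: arbitrarily large derivatives -/
theorem FC.ev_sing {w ζ : ℂ} (h : FC w ζ) (hs : w + 1 / 2 - ζ = 1) (m C : ℝ) :
    ∀ᶠ s : ℝ in 𝓝[>] 0, C < Dm m w (ζ + s * (1 + m * Complex.I)) := by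
  have h1 := ev_fac (m := m) (a := 1) (u := w + 1 / 2 + ζ)
    (fun hs => absurd hs (sin_ne_of_strip h.s1)) (fun _ hn => absurd h.s1 hn) one_pos
  have h2 := ev_factor_sing (u := w + 1 / 2 - ζ) (c := ((-1 : ℝ) : ℂ) * (1 + m * Complex.I)) (m := m)
    (a := -1) (by simp) (by norm_num) (by rw [hs]; simp) (C + 1 - 1 * Dq m (w + 1 / 2 + ζ))
  filter_upwards [h1, h2] with s a1 a2
  unfold Dm
  have e1 : w + 1 / 2 + (ζ + s * (1 + m * Complex.I)) =
      w + 1 / 2 + ζ + s * (((1 : ℝ) : ℂ) * (1 + m * Complex.I)) := by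
    push_cast
    ring
  have e2 : w + 1 / 2 - (ζ + s * (1 + m * Complex.I)) =
      w + 1 / 2 - ζ + s * (((-1 : ℝ) : ℂ) * (1 + m * Complex.I)) := by
    push_cast
    ring
  rw [e1, e2]
  unfold Dq at *
  linarith only [a1, a2]

theorem RM.ev_ramp {b ρ σ : ℝ} {w w' : ℂ} (_ : RM b ρ w w' σ) (h0 : -(1 / 2) < σ)
    (h1 : σ < -(1 / 4)) : ∀ᶠ s : ℝ in 𝓝[>] 0, |σ + s| ≤ 1 / 2 ∧
      ρ * LT.th (σ + s) = ρ * LT.th σ + s * (4 * ρ) := by
  have e : ∀ s : ℝ, 0 ≤ s → s < -(1 / 4) - σ → LT.th (σ + s) = 2 + 4 * (σ + s) := by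
    intro s hs0 hs
    have : |σ + s| = -(σ + s) := abs_of_neg (by linarith only [h0, h1, hs])
    rw [th_of_ge (by rw [this]; linarith only [hs]), this]
    ring
  have hth : LT.th σ = 2 + 4 * σ := by
    have := e 0 le_rfl (by linarith only [h1])
    rwa [add_zero] at this
  filter_upwards [ev_small (show 0 < -(1 / 4) - σ by linarith only [h1])] with s hs
  refine ⟨?_, ?_⟩
  · rw [abs_le]
    constructor <;> linarith only [h0, hs, hs.1, hs.2]
  · rw [e s hs.1.le hs.2, hth]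
    ring

theorem RM.ev_flat {b ρ σ : ℝ} {w w' : ℂ} (_ : RM b ρ w w' σ) (h0 : -(1 / 4) ≤ σ)
    (h1 : σ ≤ 0) : ∀ᶠ s : ℝ in 𝓝[>] 0, |σ + s| ≤ 1 / 2 ∧
      ρ * LT.th (σ + s) = ρ * LT.th σ + s * 0 := by
  have e : ∀ s : ℝ, 0 ≤ s → s < 1 / 4 - σ → LT.th (σ + s) = 1 := by
    intro s hs0 hs
    apply th_of_le
    rw [abs_le]
    constructor <;> linarith only [h0, hs0, hs]
  have hth : LT.th σ = 1 := by
    have := e 0 le_rfl (by linarith only [h1])
    rwa [add_zero] at this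
  filter_upwards [ev_small (show 0 < 1 / 4 - σ by linarith only [h1])] with s hs
  refine ⟨?_, ?_⟩
  · rw [abs_le]
    constructor <;> linarith only [h0, hs, hs.1, hs.2]
  · rw [e s hs.1.le hs.2, hth]
    ring

/-- **no singular factor** at a maximiser -/
theorem RM.ns {b ρ σ : ℝ} {w w' : ℂ} (h : RM b ρ w w' σ) (h0 : -(1 / 2) < σ)
    (h1 : σ ≤ 0) (hw : 0 ≤ w.re) (hw1 : w.re + σ < 1 / 2) (hw' : 0 ≤ w'.re)
    (hw1' : w'.re + σ < 1 / 2) : w + 1 / 2 - LT.zt ρ σ ≠ 1 := by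
  intro hs
  have hzr : (LT.zt ρ σ).re = σ := by simp [LT.zt]
  have f1 := FC.of hw (by rw [hzr]; exact hw1) (by rw [hzr]; linarith only [h1]) (by rw [hzr]; exact h0)
  have f2 := FC.of hw' (by rw [hzr]; exact hw1') (by rw [hzr]; linarith only [h1]) (by rw [hzr]; exact h0)
  rcases lt_or_ge σ (-(1 / 4)) with h2 | h2
  · have key := h.right_le_K (h.ev_ramp h0 h2)
      (f1.ev_sing hs (4 * ρ) (1 - nd b (4 * ρ) σ (ρ * LT.th σ) - (Dm (4 * ρ) w' (LT.zt ρ σ) - 1)))
      (f2.ev (4 * ρ) one_pos)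
    linarith only [h0, h2, key]
  · have key := h.right_le_K (h.ev_flat h2 h1)
      (f1.ev_sing hs 0 (1 - nd b 0 σ (ρ * LT.th σ) - (Dm 0 w' (LT.zt ρ σ) - 1)))
      (f2.ev 0 one_pos)
    linarith only [key]

/-! ### derivatives of `uu` -/

theorem hasDerivAt_uu_x {x y : ℝ} (h : Complex.sin (Real.pi * (⟨x, y⟩ : ℂ)) ≠ 0) :
    HasDerivAt (fun x => uu x y) (LL ⟨x, y⟩) x := by
  have hpt : ∀ s : ℝ, (y : ℂ) * Complex.I + ((1 * s : ℝ) : ℂ) = ⟨s, y⟩ := by
    intro s
    apply Complex.ext <;> simp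
  have h2 := hasDerivAt_UU_level ((y : ℂ) * Complex.I) 1 x (by rw [hpt]; exact h)
  simp only [hpt] at h2
  rw [one_mul] at h2
  exact h2

theorem hasDerivAt_uu_y {x y : ℝ} (h : y ≠ 0 ∨ (0 < x ∧ x < 1)) :
    HasDerivAt (fun y => uu x y) (YY ⟨x, y⟩) y := by
  have hg : HasDerivAt (fun y : ℝ => (x : ℂ) + y * Complex.I) Complex.I y := by
    have := ((Complex.ofRealCLM.hasDerivAt (x := y)).mul_const Complex.I).const_add (x : ℂ)
    simpa using this
  have e : ∀ y : ℝ, (x : ℂ) + y * Complex.I = ⟨x, y⟩ := by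
    intro y
    apply Complex.ext <;> simp
  have h2 := hasDerivAt_UU hg (by
    rcases h with h | h
    · left; simpa using h
    · right; exact ⟨by simpa using h.1, by simpa using h.2⟩)
  simp only [e] at h2
  refine h2.congr_deriv ?_
  simp

theorem continuous_uu_x (y : ℝ) : Continuous fun x => uu x y := by
  have h : (fun x => uu x y) = fun x : ℝ => UU ((x : ℂ) + y * Complex.I) := by
    funext x
    rw [UU_uu]
    simp
  rw [h]
  exact continuous_UU.comp (by fun_prop)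

theorem continuous_uu_y (x : ℝ) : Continuous fun y => uu x y := by
  have h : (fun y => uu x y) = fun y : ℝ => UU ((x : ℂ) + y * Complex.I) := by
    funext y
    rw [UU_uu]
    simp
  rw [h]
  exact continuous_UU.comp (by fun_prop)

end Pool.Agent.Work.MP_b30479_gt.G2
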