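import Pool.Agent.Work.MP_b30479_gt.G2.MJE
import Pool.Agent.Work.MP_b30479_gt.G2.RngF
import Pool.Agent.Work.MP_b30479_gt.G2.R32A
import Pool.Agent.Work.MP_b30479_gt.G2.RngC

/-!
# Mirrored paths, kind `1 | 2`: the point above the mirrored one as target; existence of a target
-/

namespace Pool.Agent.Work.NumG

open MP_b30479_gt.G2 MP_b30479_gt.VOL
open NumU (uu uu_neg UU_uu)

namespace K12

theorem uu_lip {X : ℝ} (h0 : 0 ≤ X) (h1 : X ≤ 1) (t t' : ℝ) :
    |uu X t - uu X t'| ≤ Real.pi / 2 * |t - t'| := by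
  have hp := Real.pi_pos
  rcases h0.eq_or_lt with h0 | h0
  · rw [← h0, NumX.uu_zero_left, NumX.uu_zero_left]
    have e : -(Real.pi * |t| / 2) - -(Real.pi * |t'| / 2) = -(Real.pi / 2 * (|t| - |t'|)) := by ring
    rw [e, abs_neg, abs_mul, abs_of_pos (by positivity : 0 < Real.pi / 2)]
    exact mul_le_mul_of_nonneg_left (abs_abs_sub_abs_le _ _) (by positivity)
  rcases h1.eq_or_lt with h1 | h1
  · have e1 : ∀ t, uu X t = Real.pi / 2 * |t| := by
      intro t
      rw [h1, NumX.uu_sub_one, sub_self, NumX.uu_zero_left]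
      ring
    rw [e1, e1, ← mul_sub, abs_mul, abs_of_pos (by positivity : 0 < Real.pi / 2)]
    exact mul_le_mul_of_nonneg_left (abs_abs_sub_abs_le _ _) (by positivity)
  · have hd : ∀ t, HasDerivAt (fun y => uu X y) (YY ⟨X, t⟩) t := fun t =>
      hasDerivAt_uu_y (Or.inr ⟨h0, h1⟩)
    have h2 := Convex.norm_image_sub_le_of_norm_hasDerivWithin_le (f := fun y => uu X y)
      (f' := fun t => YY ⟨X, t⟩) (C := Real.pi / 2) (s := Set.univ)
      (fun t _ => (hd t).hasDerivWithinAt) (fun t _ => NumX.abs_yy_le h0.le h1.le) convex_univ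
      (Set.mem_univ t') (Set.mem_univ t)
    exact h2

theorem uu_mono {x t t' : ℝ} (h0 : 1 / 2 ≤ x) (h1 : x < 1) (ht : 0 ≤ t) (h : t ≤ t') :
    uu x t ≤ uu x t' := by
  have hd : ∀ t, HasDerivAt (fun y => uu x y) (YY ⟨x, t⟩) t := fun t =>
    hasDerivAt_uu_y (Or.inr ⟨by linarith only [h0, h1], h1⟩)
  have hm : MonotoneOn (fun y => uu x y) (Set.Ici 0) := by
    apply monotoneOn_of_deriv_nonneg (convex_Ici 0)
    · exact fun t _ => (hd t).continuousAt.continuousWithinAt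
    · exact fun t _ => (hd t).differentiableAt.differentiableWithinAt
    · intro t ht
      rw [(hd t).deriv]
      rw [interior_Ici] at ht
      exact MR.YY_nonneg h0 (le_of_lt ht)
  exact hm ht (ht.trans h) h

/-- **Target above the mirrored point.** -/
theorem flip {x a e y s y2 s2 : ℝ} (x0 : 78 / 100 ≤ x) (x1 : x < 80 / 100) (y0 : 40 / 100 ≤ y)
    (y1 : y ≤ 78 / 100) (v0 : 0 ≤ y2) (v1 : y2 ≤ 80 / 100) (e0 : 0 ≤ e) (ha : 2 * e ≤ a)
    (a0 : 0 < a) (hs : a ≤ s) :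
    0 < V1 ⟨x, e⟩ ⟨y, s⟩ - V1 ⟨x, -a⟩ ⟨y, s⟩ + (V2 ⟨x, -e⟩ ⟨y2, s2⟩ - V2 ⟨x, a⟩ ⟨y2, s2⟩) +
      2 * Real.pi * a := by
  have hp := Real.pi_pos
  have e1 : V1 ⟨x, e⟩ ⟨y, s⟩ - V1 ⟨x, -a⟩ ⟨y, s⟩ = uu (x + y) (e + s) - uu (x + y) (s - a) +
      Real.pi * ((y - 1) * (e + a)) + (uu x a - uu x e) := by
    unfold MP_b30479_gt.G2.V1
    simp only [UU_uu, Complex.add_re, Complex.add_im, Complex.sub_im, Complex.mul_im]
    rw [uu_neg x a, show -a + s = s - a by ring]
    ring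
  have e2 : V2 ⟨x, -e⟩ ⟨y2, s2⟩ - V2 ⟨x, a⟩ ⟨y2, s2⟩ = uu (x + y2) (s2 - e) - uu (x + y2) (s2 + a) +
      Real.pi * ((x - y2 + 1 / 2) * (e + a)) + 2 * (uu x a - uu x e) := by
    unfold MP_b30479_gt.G2.V2
    simp only [UU_uu, Complex.add_re, Complex.add_im, Complex.sub_im, Complex.sub_re,
      Complex.mul_im, pow_two]
    rw [uu_neg x e, show -e + s2 = s2 - e by ring, add_comm a s2]
    ring
  have h1 : Real.pi / 2 * (e + a) ≤ uu (x + y) (e + s) - uu (x + y) (s - a) := by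
    rw [NumX.uu_sub_one (x + y) (e + s), NumX.uu_sub_one (x + y) (s - a),
      abs_of_nonneg (by linarith only [e0, a0, hs] : 0 ≤ e + s), abs_of_nonneg (by linarith only [hs] : 0 ≤ s - a)]
    have h2 := uu_lip (X := x + y - 1) (by linarith only [x0, x1, y0]) (by linarith only [x0, x1, y1]) (e + s) (s - a)
    rw [show e + s - (s - a) = e + a by ring, abs_of_nonneg (by linarith only [e0, a0] : 0 ≤ e + a)] at h2
    have h3 := (abs_le.1 h2).1
    nlinarith only [h3]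
  have h2 : -(3 / 2 * Real.pi * (e + a)) ≤ uu (x + y2) (s2 - e) - uu (x + y2) (s2 + a) := by
    have hea : |s2 - e - (s2 + a)| = e + a := by
      rw [show s2 - e - (s2 + a) = -(e + a) by ring, abs_neg, abs_of_nonneg (by linarith only [e0, a0])]
    rcases le_total (x + y2) 1 with h | h
    · have h3 := uu_lip (X := x + y2) (by linarith only [x0, x1, v0]) h (s2 - e) (s2 + a)
      rw [hea] at h3
      have h4 := (abs_le.1 h3).1
      have h5 : 0 ≤ Real.pi * (e + a) := by positivity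
      linarith only [h4, h5]
    · rw [NumX.uu_sub_one (x + y2) (s2 - e), NumX.uu_sub_one (x + y2) (s2 + a)]
      have h3 := uu_lip (X := x + y2 - 1) (by linarith only [h]) (by linarith only [x0, x1, v1]) (s2 - e) (s2 + a)
      rw [hea] at h3
      have h4 := (abs_le.1 h3).1
      have h5 := abs_sub_abs_le_abs_sub (s2 + a) (s2 - e)
      rw [abs_sub_comm (s2 + a) (s2 - e), hea] at h5
      have h6 := mul_le_mul_of_nonneg_left h5 hp.le
      linarith only [h4, h6]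
  have h3 := uu_mono (x := x) (by linarith only [x0, x1]) (by linarith only [x0, x1]) e0 (by linarith only [ha, a0] : e ≤ a)
  rw [e1, e2]
  have h4 : 0 ≤ (y + x - y2 - 38 / 100) * (e + a) := mul_nonneg (by linarith only [x0, y0, v1]) (by linarith only [e0, a0])
  have h5 := mul_nonneg hp.le h4
  have h6 : 0 ≤ Real.pi * (a - 2 * e) := mul_nonneg hp.le (by linarith only [ha])
  have h7 : 0 < Real.pi * a := mul_pos hp a0
  nlinarith only [h1, h2, h3, h5, h6, h7]

/-! ### existence of a target -/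

/-- **Position of the other hinge of the `2`** and what is gained behind it: `F d T ph`, the hinge
moved to `d - i T`, gain at least `ph`. -/
def K2 (F : ℝ → ℝ → ℝ → Prop) (y s : ℝ) : Prop :=
  PB y s ∨ ∃ T p, PW T y s p ∧ ∀ d ph, (d = 25 / 100 ∨ d = 35 / 100) →
    (∀ k s', PA T k s' → 0 < RF d T (-s) p ph s' y k) → F d T ph

/-- the sum of the gains is positive -/
def Pos (F : ℝ → ℝ → ℝ → Prop) (c e x y s y2 s2 : ℝ) : Prop :=
  0 < V1 ⟨c, e⟩ ⟨y, s⟩ - V1 ⟨x, -aR x⟩ ⟨y, s⟩ + (V2 ⟨c, -e⟩ ⟨y2, s2⟩ - V2 ⟨x, aR x⟩ ⟨y2, s2⟩) +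
      2 * Real.pi * aR x ∨
    ∃ d T ph, F d T ph ∧ 0 < V1 ⟨c, e⟩ ⟨y, s⟩ - V1 ⟨x, -aR x⟩ ⟨y, s⟩ +
      (V2 ⟨c, -e⟩ ⟨d, -T⟩ - V2 ⟨x, aR x⟩ ⟨y2, s2⟩ + ph) + 2 * Real.pi * aR x

variable {F : ℝ → ℝ → ℝ → Prop} {c e l x t y s y2 s2 : ℝ}

theorem Pos.of (hA : 0 < RA c e l s x y) (h : 0 < RB c e l s2 x y2 ∨ ∃ d T ph, F d T ph ∧
    0 < RR c e l s2 d T ph x y2) : Pos F c e x y s y2 s2 := by
  rcases h with h | ⟨d, T, ph, hF, h⟩
  · left
    rw [V1_A c e l s x y, V2_B c e l s2 x y2]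
    linarith only [hA, h]
  · right
    refine ⟨d, T, ph, hF, ?_⟩
    rw [V1_A c e l s x y, V2_R c e l s2 d T ph x y2]
    linarith only [hA, h]

theorem K2.zone (h : K2 F y2 s2) (hB : PB y2 s2 → 0 < RB c e l s2 x y2)
    (hW : ∀ T p, PW T y2 s2 p → 0 < RB c e l s2 x y2 ∨ ∃ d ph : ℝ,
      (d = 25 / 100 ∨ d = 35 / 100) ∧ 0 < RR c e l s2 d T ph x y2 ∧
      ∀ k s', PA T k s' → 0 < RF d T (-s2) p ph s' y2 k) :
    0 < RB c e l s2 x y2 ∨ ∃ d T ph, F d T ph ∧ 0 < RR c e l s2 d T ph x y2 := by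
  rcases h with h | ⟨T, p, h, hf⟩
  · exact Or.inl (hB h)
  · rcases hW T p h with h1 | ⟨d, ph, hd, h1, h2⟩
    · exact Or.inl h1
    · exact Or.inr ⟨d, T, ph, hf d ph hd h2, h1⟩

theorem K2.re (h : K2 F y2 s2) : 0 ≤ y2 ∧ y2 ≤ 80 / 100 := by
  rcases h with h | ⟨T, p, h, -⟩
  · cases h <;> constructor <;> linarith
  · cases h <;> constructor <;> linarith

theorem tR_one {y : ℝ} (h0 : 16 / 100 ≤ y) (h1 : y ≤ 51 / 100) : tR 800 160 290 y = 1 := by
  unfold tR MP_b30479_gt.G2.tr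
  have h2 : 1 ≤ (y - 0) / (((160 : ℕ) : ℝ) / 1000) := by
    rw [le_div_iff₀ (by norm_num)]
    norm_num
    linarith only [h0]
  have h3 : 1 ≤ (((800 : ℤ) : ℝ) / 1000 - y) / (((290 : ℕ) : ℝ) / 1000) := by
    rw [le_div_iff₀ (by norm_num)]
    norm_num
    linarith only [h1]
  rw [min_eq_left (le_min h2 h3), max_eq_right zero_le_one]

theorem tR_12 : tR 800 160 290 (12 / 100) = 3 / 4 := by
  unfold tR MP_b30479_gt.G2.tr
  norm_num

/-- **Existence of a target.** -/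
theorem key (x0 : 0 < x) (x1 : x < 80 / 100) (t0 : 0 ≤ t) (t1 : t ≤ 985 / 10000) (hA : PA t y s)
    (hB : K2 F y2 s2) :
    ∃ c : ℝ, 0 ≤ c ∧ c ≤ 80 / 100 ∧ Pos F c (t * tR 800 160 290 c) x y s y2 s2 := by
  rcases le_total x (1 / 10) with h | h
  · refine ⟨12 / 100, by norm_num, by norm_num, ?_⟩
    rw [tR_12, mul_comm]
    exact Pos.of (zA1 x0.le h t0 t1 hA) (hB.zone (zB1 x0.le h t0 t1) fun T p =>
      zW1 x0.le h t0 t1)
  rcases le_total x (55 / 100) with h' | h'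
  · refine ⟨20 / 100, by norm_num, by norm_num, ?_⟩
    rw [tR_one (by norm_num) (by norm_num), mul_one]
    exact Pos.of (zA2 h h' t0 t1 hA) (hB.zone (zB2 h h' t0 t1) fun T p => zW2 h h' t0 t1)
  rcases le_total x (74 / 100) with h2 | h2
  · refine ⟨35 / 100, by norm_num, by norm_num, ?_⟩
    rw [tR_one (by norm_num) (by norm_num), mul_one]
    exact Pos.of (zA3 h' h2 t0 t1 hA) (hB.zone (zB3 h' h2 t0 t1) fun T p => zW3 h' h2 t0 t1)
  have h4 := hB.zone (zB4 h2 x1.le t0 t1) fun T p => zW4 h2 x1.le t0 t1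
  rcases le_total x (78 / 100) with h3 | h3
  · refine ⟨50 / 100, by norm_num, by norm_num, ?_⟩
    rw [tR_one (by norm_num) (by norm_num), mul_one]
    exact Pos.of (zA4 h2 h3 t0 t1 hA) h4
  rcases zA5 h3 x1.le t0 t1 hA with h5 | ⟨ht, y0, y1, S, hS, hs⟩
  · refine ⟨50 / 100, by norm_num, by norm_num, ?_⟩
    rw [tR_one (by norm_num) (by norm_num), mul_one]
    exact Pos.of h5 h4
  · -- the point above the mirrored one
    have e1 : tR 800 160 290 x = (80 / 100 - x) / (29 / 100) := by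
      unfold tR MP_b30479_gt.G2.tr
      have h6 : (((800 : ℤ) : ℝ) / 1000 - x) / (((290 : ℕ) : ℝ) / 1000) =
        (80 / 100 - x) / (29 / 100) := by norm_num
      have h7 : (80 / 100 - x) / (29 / 100) ≤ 1 := by
        rw [div_le_one (by norm_num)]
        linarith only [x1, h3]
      have h8 : 1 ≤ (x - 0) / (((160 : ℕ) : ℝ) / 1000) := by
        rw [le_div_iff₀ (by norm_num)]
        norm_num
        linarith only [x1, h3]
      rw [h6, min_eq_right (h7.trans h8), min_eq_right h7, max_eq_right]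
      exact div_nonneg (by linarith only [x1]) (by norm_num)
    have hτ : 0 < tR 800 160 290 x := by
      rw [e1]
      exact div_pos (by linarith only [x1]) (by norm_num)
    have hτ' : tR 800 160 290 x ≤ 2 / 29 := by
      rw [e1, div_le_iff₀ (by norm_num)]
      linarith only [h3]
    have e2 : 40 / 100 ≤ tR 860 150 200 y := by
      unfold tR MP_b30479_gt.G2.tr
      refine le_max_of_le_right (le_min (by norm_num) (le_min ?_ ?_))
      · rw [le_div_iff₀ (by norm_num)]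
        norm_num
        linarith only [y0]
      · rw [le_div_iff₀ (by norm_num)]
        norm_num
        linarith only [y1]
    have hs' : 12 / 1000 ≤ s := by
      rw [hs]
      nlinarith only [hS, e2, x1, h3]
    have ha := aR_eq x
    refine ⟨x, x0.le, x1.le, Or.inl ?_⟩
    obtain ⟨v0, v1⟩ := hB.re
    refine flip h3 x1 y0 y1 v0 v1 (mul_nonneg t0 hτ.le) ?_ ?_ ?_
    · rw [ha]
      nlinarith only [e1, x0, x1, ht, t0]
    · rw [ha]
      positivity
    · rw [ha]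
      linarith only [h3, e1, hτ, hs']

end K12

end Pool.Agent.Work.NumG
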