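import Pool.Agent.Work.MP_b30479_gt.G2.WMMK
import Pool.Agent.Work.MP_b30479_gt.G2.ML3
import Pool.Agent.Work.MP_b30479_gt.G2.RngJ

/-!
# Mirrored paths: the positions of the neighbours

`NbT`: the real variables are the variables of the regions touched by the tails.  `NPos`: position
of the other hinge of a region, `IPos`: position of the inner variable; the walls.
-/

namespace Pool.Agent.Work.MP_b30479_gt.G2

open Finset VOL Filter Topology

namespace SR

variable {M : ℕ} {b : Fin (M + 1) → ℤ} {zs : DD (tyW b) ⊕ ZZ (tyW b) → ℂ}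
variable {R : Finset (DD (tyW b))} {nb : Finset (DD (tyW b) ⊕ ZZ (tyW b))}
variable {z : DD (tyW b) ⊕ ZZ (tyW b) → ℂ} {p : DD (tyW b) → ℝ}
variable {h h' : Fin M} {i j j' : Fin (M + 1)} {s : Fin 3} {x c : ℝ}

/-- the region `m` is touched by a tail -/
def Tch (b : Fin (M + 1) → ℤ) (R : Finset (DD (tyW b))) (m : Fin (M + 1)) : Prop :=
  ∃ d ∈ R, ∃ q : Fin 3, cf (tyW b) m q (.inl d) ≠ 0

/-- the inner variable of a region at an end with three crossings, the region behind its hinge is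
touched -/
def EndM (b : Fin (M + 1) → ℤ) (R : Finset (DD (tyW b))) (v : DD (tyW b) ⊕ ZZ (tyW b)) : Prop :=
  ∃ m : {i : Fin (M + 1) // (tyW b i).isMid = true}, v = .inl (.inr m) ∧
    clsW b m.1 = .threeE ∧ ∃ (h : Fin M) (s : Fin 3) (j : Fin (M + 1)), Adj h m.1 s j ∧ Tch b R j

/-- the real variables: all variables of all touched regions, and the inner variables of the ends
behind touched regions -/
structure NbT (b : Fin (M + 1) → ℤ) (R : Finset (DD (tyW b)))
    (nb : Finset (DD (tyW b) ⊕ ZZ (tyW b))) : Prop where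
  ok : NbOk b R nb
  endM : ∀ v, EndM b R v → v ∈ nb
  conv : ∀ v ∈ nb, (∃ m, Tch b R m ∧ ∃ q, cf (tyW b) m q v ≠ 0) ∨ EndM b R v

open Classical in
/-- all variables of all touched regions, and the inner variables of the ends behind touched
regions -/
noncomputable def nbT (b : Fin (M + 1) → ℤ) (R : Finset (DD (tyW b))) :
    Finset (DD (tyW b) ⊕ ZZ (tyW b)) :=
  univ.filter fun v => (∃ m, Tch b R m ∧ ∃ q, cf (tyW b) m q v ≠ 0) ∨ EndM b R v

theorem nbT_ok (b : Fin (M + 1) → ℤ) (R : Finset (DD (tyW b))) : NbT b R (nbT b R) := by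
  classical
  refine ⟨⟨?_, ?_⟩, ?_, ?_⟩
  · intro i hi
    obtain ⟨m, q, hm⟩ := exists_cf (b := b) (.inl i)
    unfold nbT
    rw [Finset.mem_filter]
    exact ⟨Finset.mem_univ _, Or.inl ⟨m, ⟨i, hi, q, hm⟩, q, hm⟩⟩
  · intro d hd m q hq v q' hq'
    unfold nbT
    rw [Finset.mem_filter]
    exact ⟨Finset.mem_univ _, Or.inl ⟨m, ⟨d, hd, q, hq⟩, q', hq'⟩⟩
  · intro v hv
    unfold nbT
    rw [Finset.mem_filter]
    exact ⟨Finset.mem_univ _, Or.inr hv⟩
  · intro v hv
    unfold nbT at hv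
    rw [Finset.mem_filter] at hv
    exact hv.2

theorem EndM.empty {v : DD (tyW b) ⊕ ZZ (tyW b)} (h0 : EndM b ∅ v) : False := by
  obtain ⟨m, -, -, h, s, j, -, d, hd, -⟩ := h0
  exact absurd hd (Finset.notMem_empty d)

theorem NbT.empty : NbT b ∅ ∅ := ⟨NbOk.empty, fun _ h0 => h0.empty.elim, by simp⟩

theorem nbT_empty : nbT b ∅ = ∅ := by
  classical
  unfold nbT
  rw [Finset.filter_eq_empty_iff]
  rintro v - (⟨m, ⟨d, hd, -⟩, -⟩ | h0)
  · exact absurd hd (Finset.notMem_empty d)
  · exact h0.empty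

theorem Adj.cf_ne (A : Adj h i s j) : cf (tyW b) i s (.inl (.inl h)) ≠ 0 := by
  cases A <;> simp [cf]

/-- a region with a hinge which is not real is not touched -/
theorem NbT.not_tch (hN : NbT b R nb) (A : Adj h i s j) (hn : Sum.inl (Sum.inl h) ∉ nb) :
    ¬ Tch b R i := by
  rintro ⟨d, hd, q, hq⟩
  exact hn (hN.ok.2 d hd i q hq _ s A.cf_ne)

/-- all variables of a touched region are real -/
theorem NbT.mem (hN : NbT b R nb) {m : Fin (M + 1)} (hm : Tch b R m)
    {v : DD (tyW b) ⊕ ZZ (tyW b)} {q : Fin 3} (hq : cf (tyW b) m q v ≠ 0) : v ∈ nb := by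
  obtain ⟨d, hd, q', hq'⟩ := hm
  exact hN.ok.2 d hd m q' hq' v q hq

theorem NbT.conv_hinge (hN : NbT b R nb) (hn : Sum.inl (Sum.inl h') ∈ nb) :
    ∃ m, Tch b R m ∧ ∃ q, cf (tyW b) m q (.inl (.inl h')) ≠ 0 := by
  rcases hN.conv _ hn with h1 | ⟨m, e, -⟩
  · exact h1
  · simp at e

theorem NbT.conv_ring (hN : NbT b R nb) {v : ZZ (tyW b)} (hn : Sum.inr v ∈ nb) :
    ∃ m, Tch b R m ∧ ∃ q, cf (tyW b) m q (.inr v) ≠ 0 := by
  rcases hN.conv _ hn with h1 | ⟨m, e, -⟩
  · exact h1
  · simp at e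

/-- two hinges in the same slot of a region are equal -/
theorem Adj.eq_of_slot {k k' : Fin (M + 1)} (A : Adj h i s k) (A' : Adj h' i s k') : h = h' := by
  generalize hi : i = i' at A'
  generalize hs : s = s' at A'
  cases A with
  | l =>
    cases A' with
    | l => exact Fin.castSucc_injective _ hi
    | r => exact absurd hs (by decide)
  | r =>
    cases A' with
    | l => exact absurd hs (by decide)
    | r => exact Fin.succ_injective _ hi

/-- an end has one hinge -/
theorem Adj.slot_end {s' : Fin 3} (A : Adj h i s j) (A' : Adj h' i s' j') (he : isEnd i = true) :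
    s = s' := by
  unfold isEnd at he
  have he' := of_decide_eq_true he
  cases A with
  | l =>
    have h0 : h.castSucc = 0 := he'.resolve_right (Fin.castSucc_lt_last h).ne
    generalize hi : h.castSucc = i' at A' h0
    cases A' with
    | l => rfl
    | r => exact absurd h0 (Fin.succ_ne_zero _)
  | r =>
    have h0 : h.succ = Fin.last M := he'.resolve_left (Fin.succ_ne_zero h)
    generalize hi : h.succ = i' at A' h0
    cases A' with
    | l => exact absurd h0 (Fin.castSucc_lt_last _).ne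
    | r => rfl

/-- the region behind a real hinge of an untouched region is touched -/
theorem NbT.beyond (hN : NbT b R nb) (A' : Adj h' i s j') (hi : ¬ Tch b R i)
    (hn : Sum.inl (Sum.inl h') ∈ nb) : Tch b R j' ∧ (Sum.inl h' : DD (tyW b)) ∉ R := by
  constructor
  · obtain ⟨m, hm, q, hq⟩ := hN.conv_hinge hn
    have h1 := cf_hinge_ne hq
    rcases h1 with ⟨e, -⟩ | ⟨e, -⟩
    · cases A'
      · exact absurd (e ▸ hm) hi
      · exact e ▸ hm
    · cases A'
      · exact e ▸ hm
      · exact absurd (e ▸ hm) hi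
  · intro hR
    exact hi ⟨_, hR, s, A'.cf_ne⟩

/-! ### the other hinge -/

/-- position of the hinge `h'` (in the slot `s` of the region `i`) in the frame of the region `i` -/
inductive NPos (b : Fin (M + 1) → ℤ) (zs : DD (tyW b) ⊕ ZZ (tyW b) → ℂ)
    (nb : Finset (DD (tyW b) ⊕ ZZ (tyW b))) (p : DD (tyW b) → ℝ) (h' : Fin M) (i : Fin (M + 1))
    (s : Fin 3) (X : ℂ) : Prop
  | main (y : ℝ) (y0 : 0 ≤ y) (y1 : y ≤ wXM b h') (hn : Sum.inl (Sum.inl h') ∉ nb)
      (e : X = ⟨y, Th b zs h' i * trh b h' y⟩) (hp : p (.inl h') = 0)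
  | real (y : ℝ) (y0 : 0 ≤ y) (y1 : y ≤ wXM b h') (hn : Sum.inl (Sum.inl h') ∈ nb)
      (e : X = ⟨y, 0⟩) (hp : p (.inl h') = 0)
  | up (y : ℝ) (y0 : 0 ≤ y) (y1 : y ≤ wXM b h') (hn : Sum.inl (Sum.inl h') ∉ nb)
      (hr : ¬ RH1 b (.inl h')) (hT : Th b zs h' i ≤ 0)
      (e : X = ⟨y, mhs b h' s.rev * trh b h' y⟩) (hp : p (.inl h') = mhs b h' s.rev * trh b h' y)
  | dn (y : ℝ) (y0 : 0 ≤ y) (y1 : y ≤ wXM b h') (hn : Sum.inl (Sum.inl h') ∉ nb)
      (hr : ¬ RH1 b (.inl h')) (hT : 0 ≤ Th b zs h' i)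
      (e : X = ⟨y, -(mhs b h' s * trh b h' y)⟩) (hp : p (.inl h') = mhs b h' s * trh b h' y)

theorem MM.pstN (hR : ∀ i ∈ R, Sum.inl i ∈ nb) (hM : MM b zs R nb z p) {i : DD (tyW b)}
    (hn : Sum.inl i ∉ nb) (hr : ¬ RH1 b i) :
    ∃ x : ℝ, 0 ≤ x ∧ x ≤ (wpar b zs).XM i ∧ (z (.inl i)).re = x ∧
      (((z (.inl i)).im = (zs (.inl i)).im *
          tr 0 ((wpar b zs).XM i) ((wpar b zs).cl i) ((wpar b zs).cr i) x ∧ p i = 0) ∨
        ((zs (.inl i)).im ≤ 0 ∧ (z (.inl i)).im = mtu b i *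
          tr 0 ((wpar b zs).XM i) ((wpar b zs).cl i) ((wpar b zs).cr i) x ∧ p i = mtu b i *
          tr 0 ((wpar b zs).XM i) ((wpar b zs).cl i) ((wpar b zs).cr i) x) ∨
        (0 ≤ (zs (.inl i)).im ∧ (z (.inl i)).im = -(mtd b i *
          tr 0 ((wpar b zs).XM i) ((wpar b zs).cl i) ((wpar b zs).cr i) x) ∧ p i = mtd b i *
          tr 0 ((wpar b zs).XM i) ((wpar b zs).cl i) ((wpar b zs).cr i) x)) := by
  have hhu : (wparM b zs).hu i = if 0 < (zs (.inl i)).im then (zs (.inl i)).im else mtu b i := by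
    show mhu b zs i = _
    rcases i with h | m
    · simp only [RH1] at hr
      simp only [mhu, if_neg hr]
    · rfl
  have hhd : (wparM b zs).hd i = if (zs (.inl i)).im < 0 then -(zs (.inl i)).im else mtd b i := by
    show mhd b zs i = _
    rcases i with h | m
    · simp only [RH1] at hr
      simp only [mhd, if_neg hr]
    · rfl
  obtain ⟨x, h0, h1, h2⟩ := hM.adm.onD i hn
  refine ⟨x, h0, h1, ?_, ?_⟩
  · rcases h2 with h2 | h2 | h2 <;> rw [h2.1, ptm_re]
  · have ht := tr_mem 0 ((wpar b zs).XM i) ((wpar b zs).cl i) ((wpar b zs).cr i) x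
    rcases h2 with ⟨e1, e2⟩ | ⟨e1, e2⟩ | ⟨e1, e2⟩
    · left
      rw [e1, ptm_im]
      exact ⟨rfl, e2⟩
    · rw [hhu] at e1 e2
      by_cases hT : 0 < (zs (.inl i)).im
      · left
        rw [if_pos hT] at e1 e2
        have h3 : p i ≤ 0 := hM.pen_zero hR hn ⟨x, h0, h1, Or.inl ⟨e1, rfl⟩⟩
        refine ⟨by rw [e1, ptm_im]; rfl, le_antisymm h3 ?_⟩
        rw [e2]
        exact mul_nonneg hT.le ht.1
      · right; left
        rw [if_neg hT] at e1 e2
        exact ⟨not_lt.1 hT, by rw [e1, ptm_im]; rfl, e2⟩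
    · rw [hhd] at e1 e2
      by_cases hT : (zs (.inl i)).im < 0
      · left
        rw [if_pos hT] at e1 e2
        have e1' : z (.inl i) = pt 0 ((wparM b zs).XM i) ((wparM b zs).cl i)
            ((wparM b zs).cr i) (zs (.inl i)).im x := by
          rw [e1, neg_neg]
        have h3 : p i ≤ 0 := hM.pen_zero hR hn ⟨x, h0, h1, Or.inl ⟨e1', rfl⟩⟩
        refine ⟨by rw [e1', ptm_im]; rfl, le_antisymm h3 ?_⟩
        rw [e2]
        exact mul_nonneg (by linarith only [hT]) ht.1
      · right; right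
        rw [if_neg hT] at e1 e2
        refine ⟨not_lt.1 hT, ?_, e2⟩
        rw [e1, ptm_im, neg_mul]
        rfl

/-- **Position of a hinge** in the frame of one of its regions. -/
theorem MM.npos0 (hb : ClassW b) (hR : ∀ i ∈ R, Sum.inl i ∈ nb) (hM : MM b zs R nb z p)
    (hq : ∀ h : Fin M, RH1 b (.inl h) → p (.inl h) = 0) (A' : Adj h' i s j')
    (hnR : (Sum.inl h' : DD (tyW b)) ∉ R) : NPos b zs nb p h' i s (Ow b z i s) := by
  have hcx : ∀ {X Y : ℂ}, X.re = Y.re → X.im = Y.im → X = Y := fun h1 h2 => Complex.ext h1 h2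
  rw [Ow_adj z A']
  by_cases hn : Sum.inl (Sum.inl h') ∈ nb
  · obtain ⟨e1, e2, e3, e4⟩ := hM.adm.reD _ hnR hn
    refine .real (z (.inl (.inl h'))).re e2 e3 hn (hcx (ofr_re _ _) ?_) e4
    rw [ofr_im, e1, ofs_zero]
  by_cases hr : RH1 b (.inl h')
  · have hp0 := hq h' hr
    obtain ⟨x, h0, h1, h2⟩ := hM.adm.onD (.inl h') hn
    have hu : 0 < (wparM b zs).hu (.inl h') := (mh_pos (b := b) (zs := zs) (.inl h')).1
    have hd : 0 < (wparM b zs).hd (.inl h') := (mh_pos (b := b) (zs := zs) (.inl h')).2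
    refine .main x h0 h1 hn ?_ hp0
    have e : ∀ H : ℝ, H * trh b h' x = 0 → H ≠ 0 → trh b h' x = 0 := by
      intro H h3 h4
      rcases mul_eq_zero.1 h3 with h5 | h5
      · exact absurd h5 h4
      · exact h5
    rcases h2 with ⟨e1, e2⟩ | ⟨e1, e2⟩ | ⟨e1, e2⟩
    · apply hcx
      · rw [ofr_re, e1, ptm_re]
      · rw [ofr_im, e1, ptm_im, ofs_mulR]
        rfl
    · have h3 : trh b h' x = 0 := e _ (by rw [hp0] at e2; exact e2.symm) hu.ne'
      apply hcx
      · rw [ofr_re, e1, ptm_re]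
      · rw [ofr_im, e1, ptm_im, ofs_mulR]
        show _ * trh b h' x = _
        rw [h3]
        simp
    · have h3 : trh b h' x = 0 := e _ (by rw [hp0] at e2; exact e2.symm) hd.ne'
      apply hcx
      · rw [ofr_re, e1, ptm_re]
      · rw [ofr_im, e1, ptm_im, ofs_mulR]
        show _ * trh b h' x = _
        rw [h3]
        simp
  · have hnr : clsW b i ≠ .ring := by
      intro hc
      apply hr
      cases A'
      · exact Or.inl hc
      · exact Or.inr hc
    obtain ⟨m1, m2⟩ := mt_frame hb A' hnr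
    obtain ⟨x, h0, h1, h2, h3⟩ := hM.pstN hR hn hr
    rcases h3 with ⟨e1, e2⟩ | ⟨T0, e1, e2⟩ | ⟨T0, e1, e2⟩
    · refine .main x h0 h1 hn (hcx ?_ ?_) e2
      · rw [ofr_re, h2]
      · rw [ofr_im, e1, ofs_mulR]
        rfl
    · by_cases hb : 0 < b i
      · rw [if_pos hb] at m1 m2
        rw [m1] at e1 e2
        refine .up x h0 h1 hn hr ?_ (hcx ?_ ?_) e2
        · unfold Th
          rw [ofs_pos hb]
          exact T0
        · rw [ofr_re, h2]
        · rw [ofr_im, e1, ofs_pos hb]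
          rfl
      · have ho : ∀ m : ℝ, ofs (b i) m = -m := fun m => by unfold ofs; rw [if_neg hb]
        rw [if_neg hb] at m1 m2
        rw [m2] at e1 e2
        refine .dn x h0 h1 hn hr ?_ (hcx ?_ ?_) e2
        · unfold Th
          rw [ho]
          linarith only [T0]
        · rw [ofr_re, h2]
        · rw [ofr_im, e1, ho]
          rfl
    · by_cases hb : 0 < b i
      · rw [if_pos hb] at m1 m2
        rw [m2] at e1 e2
        refine .dn x h0 h1 hn hr ?_ (hcx ?_ ?_) e2
        · unfold Th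
          rw [ofs_pos hb]
          exact T0
        · rw [ofr_re, h2]
        · rw [ofr_im, e1, ofs_pos hb]
          rfl
      · have ho : ∀ m : ℝ, ofs (b i) m = -m := fun m => by unfold ofs; rw [if_neg hb]
        rw [if_neg hb] at m1 m2
        rw [m1] at e1 e2
        refine .up x h0 h1 hn hr ?_ (hcx ?_ ?_) e2
        · unfold Th
          rw [ho]
          linarith only [T0]
        · rw [ofr_re, h2]
        · rw [ofr_im, e1, ho, neg_neg]
          rfl

/-- **The other hinge** of a region of a hinge which is not real. -/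
theorem MM.npos (hb : ClassW b) (hN : NbT b R nb) (hM : MM b zs R nb z p)
    (hq : ∀ h : Fin M, RH1 b (.inl h) → p (.inl h) = 0) (A : Adj h i s j)
    (hn : Sum.inl (Sum.inl h) ∉ nb) (A' : Adj h' i s.rev j') :
    NPos b zs nb p h' i s.rev (Ow b z i s.rev) :=
  hM.npos0 hb hN.ok.1 hq A' fun hR => hN.not_tch A hn ⟨_, hR, s.rev, A'.cf_ne⟩

theorem NPos.re {X : ℂ} (h0 : NPos b zs nb p h' i s X) : 0 ≤ X.re ∧ X.re ≤ wXM b h' := by
  cases h0 with
  | main y y0 y1 hn e hp => rw [e]; exact ⟨y0, y1⟩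
  | real y y0 y1 hn e hp => rw [e]; exact ⟨y0, y1⟩
  | up y y0 y1 hn hr hT e hp => rw [e]; exact ⟨y0, y1⟩
  | dn y y0 y1 hn hr hT e hp => rw [e]; exact ⟨y0, y1⟩

theorem trh_mem (h : Fin M) (x : ℝ) : 0 ≤ trh b h x ∧ trh b h x ≤ 1 := tr_mem _ _ _ _ _

/-- all positions are in the trapezoid of height `H` -/
theorem NPos.abs_im {X : ℂ} (h0 : NPos b zs nb p h' i s X) {H : ℝ}
    (h1 : |Th b zs h' i| ≤ H) (h2 : ¬ RH1 b (.inl h') → mhs b h' s.rev ≤ H ∧ mhs b h' s ≤ H) :
    |X.im| ≤ H * trh b h' X.re := by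
  have ht := trh_mem (b := b) h' X.re
  have hH : 0 ≤ H := (abs_nonneg _).trans h1
  cases h0 with
  | main y y0 y1 hn e hp =>
    rw [e] at ht ⊢
    show |Th b zs h' i * trh b h' y| ≤ H * trh b h' y
    rw [abs_mul, abs_of_nonneg ht.1]
    exact mul_le_mul_of_nonneg_right h1 ht.1
  | real y y0 y1 hn e hp =>
    rw [e] at ht ⊢
    show |(0 : ℝ)| ≤ H * trh b h' y
    rw [abs_zero]
    exact mul_nonneg hH ht.1
  | up y y0 y1 hn hr hT e hp =>
    rw [e] at ht ⊢
    have h3 := mul_le_mul_of_nonneg_right (h2 hr).1 ht.1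
    have h4 := mul_nonneg (mhs_pos (b := b) h' s.rev).le ht.1
    show |mhs b h' s.rev * trh b h' y| ≤ H * trh b h' y
    rw [abs_of_nonneg h4]
    exact h3
  | dn y y0 y1 hn hr hT e hp =>
    rw [e] at ht ⊢
    have h3 := mul_le_mul_of_nonneg_right (h2 hr).2 ht.1
    have h4 := mul_nonneg (mhs_pos (b := b) h' s).le ht.1
    show |-(mhs b h' s * trh b h' y)| ≤ H * trh b h' y
    rw [abs_neg, abs_of_nonneg h4]
    exact h3

/-- the hinge `h'` moved to `c'` on its main path -/
theorem SideG.hinge' (A : Adj h i s j) (A' : Adj h' i s.rev j') (hn : Sum.inl (Sum.inl h') ∉ nb)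
    {c' : ℝ} (h0 : 0 ≤ c') (h1 : c' ≤ wXM b h') :
    SideG b zs nb z p h i (tg b zs h c)
      (OV b i (Function.update (Function.update (Ow b z i) s (tgo b zs h i c)) s.rev
        (tgo b zs h' i c')) - OV b i (Ow b z i) +
      (OV b j' (Function.update (Ow b z j') s (tgo b zs h' j' c')) - OV b j' (Ow b z j')) +
      2 * Real.pi * p (.inl h')) := by
  have h2 := SideG.hinge (b := b) (zs := zs) (nb := nb) (z := z) (p := p) A A' (tg b zs h c)
    (tg b zs h' c') 0 hn (onP_tg h0 h1)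
  rw [ofr_tg, ofr_tg, ofr_tg] at h2
  refine h2.mono (le_of_eq ?_)
  ring

/-! ### the inner variable -/

/-- height of the saddle point at the inner variable in the own frame -/
noncomputable def Tm (b : Fin (M + 1) → ℤ) (zs : DD (tyW b) ⊕ ZZ (tyW b) → ℂ)
    (m : {i : Fin (M + 1) // (tyW b i).isMid = true}) : ℝ := ofs (b m.1) (zs (.inl (.inr m))).im

/-- ramp function of the inner variable -/
noncomputable def trm (b : Fin (M + 1) → ℤ) (m : {i : Fin (M + 1) // (tyW b i).isMid = true})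
    (x : ℝ) : ℝ := tr 0 (mp (clsW b m.1)).XM (mp (clsW b m.1)).cl (mp (clsW b m.1)).cr x

/-- position of the inner variable in the own frame -/
inductive IPos (b : Fin (M + 1) → ℤ) (zs : DD (tyW b) ⊕ ZZ (tyW b) → ℂ) (p : DD (tyW b) → ℝ)
    (m : {i : Fin (M + 1) // (tyW b i).isMid = true}) (X : ℂ) : Prop
  | main (y : ℝ) (y0 : 0 ≤ y) (y1 : y ≤ (mp (clsW b m.1)).XM) (e : X = ⟨y, Tm b zs m * trm b m y⟩)
      (hp : p (.inr m) = 0)
  | up (y : ℝ) (y0 : 0 ≤ y) (y1 : y ≤ (mp (clsW b m.1)).XM) (hT : Tm b zs m ≤ 0)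
      (e : X = ⟨y, 16 / 100 * trm b m y⟩) (hp : p (.inr m) = 16 / 100 * trm b m y)
  | dn (y : ℝ) (y0 : 0 ≤ y) (y1 : y ≤ (mp (clsW b m.1)).XM) (hT : 0 ≤ Tm b zs m)
      (e : X = ⟨y, -(16 / 100 * trm b m y)⟩) (hp : p (.inr m) = 16 / 100 * trm b m y)

theorem cf_inner_ne {m : {i : Fin (M + 1) // (tyW b i).isMid = true}} {k : Fin (M + 1)}
    {q : Fin 3} (h0 : cf (tyW b) k q (.inl (.inr m)) ≠ 0) : m.1 = k := by
  by_contra hc
  simp [cf, hc] at h0

/-- the inner variable of an untouched interior region is not real -/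
theorem NbT.inner_nn (hN : NbT b R nb) (m : {i : Fin (M + 1) // (tyW b i).isMid = true})
    (ht : ¬ Tch b R m.1) (hc : clsW b m.1 ≠ .threeE) : Sum.inl (Sum.inr m) ∉ nb := by
  intro hn
  rcases hN.conv _ hn with ⟨k, hk, q, hq⟩ | ⟨m', e, h2, -⟩
  · exact ht (cf_inner_ne hq ▸ hk)
  · obtain rfl : m = m' := by simpa using e
    exact hc h2

/-- the inner variable of a region with a hinge which is not real is not real -/
theorem NbT.inner_nnA (hN : NbT b R nb) (m : {i : Fin (M + 1) // (tyW b i).isMid = true})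
    (A : Adj h m.1 s j) (hn : Sum.inl (Sum.inl h) ∉ nb) : Sum.inl (Sum.inr m) ∉ nb := by
  intro hm
  rcases hN.conv _ hm with ⟨k, hk, q, hq⟩ | ⟨m', e, h2, h', s', j', A', ht⟩
  · exact hN.not_tch A hn (cf_inner_ne hq ▸ hk)
  · obtain rfl : m = m' := by simpa using e
    have e2 : s = s' := A.slot_end A' (clsW_end (Or.inr h2))
    subst e2
    have e3 : h = h' := A.eq_of_slot A'
    subst e3
    exact hn (hN.mem ht A'.symm.cf_ne)

/-- the hinge of an end whose inner variable is not real is not real -/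
theorem NbT.end_nn (hN : NbT b R nb) (m : {i : Fin (M + 1) // (tyW b i).isMid = true})
    (A : Adj h m.1 s j) (hc : clsW b m.1 = .threeE) (hn : Sum.inl (Sum.inr m) ∉ nb) :
    Sum.inl (Sum.inl h) ∉ nb := by
  intro hh
  have h0 : ¬ Tch b R m.1 := fun h1 => hn (hN.mem h1 (q := 1) (by simp [cf]))
  exact hn (hN.endM _ ⟨m, rfl, hc, h, s, j, A, (hN.beyond A h0 hh).1⟩)

theorem Ow_inner (m : {i : Fin (M + 1) // (tyW b i).isMid = true})
    (z : DD (tyW b) ⊕ ZZ (tyW b) → ℂ) : Ow b z m.1 1 = ofr (b m.1) (z (.inl (.inr m))) := by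
  unfold Ow
  rw [own_one]
  · exact congrArg _ (xx_mid (tyW b) m.2 z)
  · intro h0
    have := m.2
    rw [h0] at this
    simp [Typ.isMid] at this

theorem MM.ipos0 (hR : ∀ i ∈ R, Sum.inl i ∈ nb) (hM : MM b zs R nb z p)
    (m : {i : Fin (M + 1) // (tyW b i).isMid = true}) (hn : Sum.inl (Sum.inr m) ∉ nb) :
    IPos b zs p m (Ow b z m.1 1) := by
  have hcx : ∀ {X Y : ℂ}, X.re = Y.re → X.im = Y.im → X = Y := fun h1 h2 => Complex.ext h1 h2
  rw [Ow_inner]
  obtain ⟨x, h0, h1, h2, h3⟩ := hM.pstN hR (i := .inr m) hn (by simp [RH1])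
  have hm1 : mtu b (.inr m) = 16 / 100 := rfl
  have hm2 : mtd b (.inr m) = 16 / 100 := rfl
  rw [hm1, hm2] at h3
  rcases h3 with ⟨e1, e2⟩ | ⟨T0, e1, e2⟩ | ⟨T0, e1, e2⟩
  · refine .main x h0 h1 (hcx ?_ ?_) e2
    · rw [ofr_re, h2]
    · rw [ofr_im, e1, ofs_mulR]
      rfl
  · by_cases hb : 0 < b m.1
    · refine .up x h0 h1 ?_ (hcx ?_ ?_) e2
      · unfold Tm
        rw [ofs_pos hb]
        exact T0
      · rw [ofr_re, h2]
      · rw [ofr_im, e1, ofs_pos hb]
        rfl
    · have ho : ∀ t : ℝ, ofs (b m.1) t = -t := fun t => by unfold ofs; rw [if_neg hb]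
      refine .dn x h0 h1 ?_ (hcx ?_ ?_) e2
      · unfold Tm
        rw [ho]
        linarith only [T0]
      · rw [ofr_re, h2]
      · rw [ofr_im, e1, ho]
        rfl
  · by_cases hb : 0 < b m.1
    · refine .dn x h0 h1 ?_ (hcx ?_ ?_) e2
      · unfold Tm
        rw [ofs_pos hb]
        exact T0
      · rw [ofr_re, h2]
      · rw [ofr_im, e1, ofs_pos hb]
        rfl
    · have ho : ∀ t : ℝ, ofs (b m.1) t = -t := fun t => by unfold ofs; rw [if_neg hb]
      refine .up x h0 h1 ?_ (hcx ?_ ?_) e2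
      · unfold Tm
        rw [ho]
        linarith only [T0]
      · rw [ofr_re, h2]
      · rw [ofr_im, e1, ho, neg_neg]
        rfl

/-- **The inner variable** of a region with a hinge which is not real. -/
theorem MM.ipos (hN : NbT b R nb) (hM : MM b zs R nb z p)
    (m : {i : Fin (M + 1) // (tyW b i).isMid = true}) (A : Adj h m.1 s j)
    (hn : Sum.inl (Sum.inl h) ∉ nb) :
    Sum.inl (Sum.inr m) ∉ nb ∧ IPos b zs p m (Ow b z m.1 1) :=
  ⟨hN.inner_nnA m A hn, hM.ipos0 hN.ok.1 m (hN.inner_nnA m A hn)⟩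

/-! ### walls -/

/-- the walls of a touched region -/
theorem MM.wallR (hN : NbT b R nb) (hM : MM b zs R nb z p) (ht : Tch b R i)
    (hr : ∀ v : ZZ (tyW b), v.1 ≠ i) {f : Fac}
    (hf : f ∈ facs (tyW b i) (decide (i ≠ 0)) (decide (i ≠ Fin.last M))) :
    (f.form (xx (tyW b) i z)).re ≤ 1 := by
  obtain ⟨n, hn, rfl⟩ := List.mem_iff_getElem.1 hf
  have h1 := hM.adm.wall ⟨i, ⟨n, hn⟩⟩ ?_ ?_
  · rw [wdat_form] at h1
    exact h1
  · intro v
    simp only [wdat]
    refine Finset.sum_eq_zero fun q _ => ?_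
    have : cf (tyW b) i q (.inr v) = 0 := by
      simp [cf, hr v]
    rw [this]
    simp
  · intro d hd
    simp only [wdat] at hd
    obtain ⟨q, -, hq⟩ := Finset.exists_ne_zero_of_sum_ne_zero hd
    refine hN.mem ht (q := q) ?_
    intro h0
    apply hq
    rw [h0]
    simp

theorem ring_ne (hc : clsW b i ≠ .ring) (v : ZZ (tyW b)) : v.1 ≠ i := by
  intro e
  have h1 := tyW_ring v.2
  rw [e] at h1
  apply hc
  by_contra h2
  have : clsW b i = .one ∨ clsW b i = .two ∨ clsW b i = .twoE ∨ clsW b i = .three ∨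
      clsW b i = .threeE := by
    rcases hcl : clsW b i <;> simp_all
  rcases this with h3 | h3 | h3 | h3 | h3
  · rw [tyW_of_one h3] at h1; exact absurd h1 (by decide)
  · rw [tyW_of_two (Or.inl h3)] at h1; exact absurd h1 (by decide)
  · rw [tyW_of_two (Or.inr h3)] at h1; exact absurd h1 (by decide)
  · rw [tyW_of_three h3] at h1; exact absurd h1 (by decide)
  · have h4 := clsW_nat3 (Or.inr h3)
    unfold tyW at h1
    rw [if_neg (by omega), if_neg (by omega), if_pos h4] at h1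
    split_ifs at h1

theorem Ow_re0 (z : DD (tyW b) ⊕ ZZ (tyW b) → ℂ) (i : Fin (M + 1)) :
    (Ow b z i 0).re = (xx (tyW b) i z 0).re := by
  unfold Ow
  rw [own_zero, ofr_re]

theorem Ow_re2 (z : DD (tyW b) ⊕ ZZ (tyW b) → ℂ) (i : Fin (M + 1)) :
    (Ow b z i 2).re = (xx (tyW b) i z 2).re := by
  unfold Ow
  rw [own_two, ofr_re]

theorem Ow_re1 (z : DD (tyW b) ⊕ ZZ (tyW b) → ℂ) (h : tyW b i ≠ .ring) :
    (Ow b z i 1).re = (xx (tyW b) i z 1).re := by
  unfold Ow
  rw [own_one h, ofr_re]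

/-- wall of a touched region with one crossing or with two crossings -/
theorem MM.wall12 (hb : ClassW b) (hN : NbT b R nb) (hM : MM b zs R nb z p) (ht : Tch b R i)
    (hc : clsW b i = .one ∨ clsW b i = .two) :
    (Ow b z i 0).re + (Ow b z i 2).re ≤ 1 := by
  rw [Ow_re0, Ow_re2]
  have hr : clsW b i ≠ .ring := by
    rcases hc with h | h <;> rw [h] <;> decide
  have he : isEnd i = false := by
    rcases hc with h | h
    · exact clsW_inner hb (Or.inl h)
    · exact clsW_inner hb (Or.inr (Or.inl h))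
  unfold isEnd at he
  have he' := of_decide_eq_false he
  rw [not_or] at he'
  have e0 : decide (i ≠ 0) = true := by simpa using he'.1
  have e2 : decide (i ≠ Fin.last M) = true := by simpa using he'.2
  have h1 := hM.wallR hN ht (ring_ne hr) (f := ⟨![1, 0, 1], 0, 1 / 2⟩) (by
    rw [e0, e2]
    rcases hc with h | h
    · rw [tyW_of_one h]; simp [facs]
    · rw [tyW_of_two (Or.inl h)]; simp [facs])
  simp only [Fac.form, Fin.sum_univ_three] at h1
  simpa using h1

/-- walls of a touched interior region with three crossings -/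
theorem MM.wall3 (hN : NbT b R nb) (hM : MM b zs R nb z p) (ht : Tch b R i)
    (hc : clsW b i = .three) :
    (Ow b z i 1).re + (Ow b z i 2).re ≤ 1 ∧ (Ow b z i 0).re ≤ (Ow b z i 1).re := by
  have hty := tyW_of_three hc
  have hr : clsW b i ≠ .ring := by rw [hc]; decide
  rw [Ow_re0, Ow_re1 z (by rw [hty]; decide), Ow_re2]
  have h1 := hM.wallR hN ht (ring_ne hr) (f := ⟨![0, 1, 1], 0, 1 / 2⟩) (by
    rw [hty]; simp [facs])
  have h2 := hM.wallR hN ht (ring_ne hr) (f := ⟨![1, -1, 0], 1, -(1 / 2)⟩) (by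
    rw [hty]; simp [facs])
  simp only [Fac.form, Fin.sum_univ_three] at h1 h2
  constructor
  · simpa using h1
  · simp at h2
    linarith only [h2]

/-- the tail -/
theorem MM.tail_re (hM : MM b zs R nb z p) {d : DD (tyW b)} (hd : d ∈ R) :
    (wpar b zs).XM d ≤ (z (.inl d)).re := (hM.adm.tail d hd).2.1

theorem adj_of_cf {m : Fin (M + 1)} {q : Fin 3} (h0 : cf (tyW b) m q (.inl (.inl h)) ≠ 0) :
    ∃ k, Adj h m q k := by
  rcases cf_hinge_ne h0 with ⟨rfl, rfl⟩ | ⟨rfl, rfl⟩
  · exact ⟨_, .l⟩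
  · exact ⟨_, .r⟩

theorem wXM_ge (A : Adj h i s j) (hi : clsW b i ≠ .ring) : 6 / 10 ≤ wXM b h := by
  have key : ∀ P A B Q : Cl, (A ≠ .ring ∨ B ≠ .ring) → (6 : ℝ) / 10 ≤ (hp P A B Q).XM := by
    intro P A B Q hAB
    rcases A <;> rcases B <;> simp only [hp, hp1] <;> first
      | (split_ifs <;> norm_num; done)
      | (norm_num; done)
      | (rcases hAB with hAB | hAB <;> exact absurd rfl hAB)
  unfold wXM
  apply key
  cases A
  · exact Or.inl hi
  · exact Or.inr hi

/-- **A real hinge** of an untouched region: the walls of the region behind. -/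
theorem MM.real_le (hb : ClassW b) (hN : NbT b R nb) (hM : MM b zs R nb z p)
    (A' : Adj h' i s j') (hi : ¬ Tch b R i) (hn : Sum.inl (Sum.inl h') ∈ nb)
    (hc : clsW b j' = .one ∨ clsW b j' = .two ∨ (clsW b j' = .three ∧ s = 0)) :
    (Ow b z i s).re ≤ 2 / 5 := by
  obtain ⟨ht, hR⟩ := hN.beyond A' hi hn
  have e1 : (Ow b z i s).re = (Ow b z j' s.rev).re := by
    rw [Ow_adj z A', Ow_adj z A'.symm, ofr_re, ofr_re]
  rw [e1]
  have hnr : clsW b j' ≠ .ring := by
    rcases hc with h | h | ⟨h, -⟩ <;> rw [h] <;> decide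
  have hslot := A'.slot
  have key : ∀ {h2 : Fin M} {q : Fin 3} {k}, (Sum.inl h2 : DD (tyW b)) ∈ R → Adj h2 j' q k →
      q = s ∧ 6 / 10 ≤ (Ow b z j' q).re := by
    intro h2 q k h2R A2
    constructor
    · by_contra hq
      have h3 : q = s.rev := by
        rcases A2.slot with rfl | rfl <;> rcases hslot with rfl | rfl
        · exact absurd rfl hq
        · rfl
        · rfl
        · exact absurd rfl hq
      subst h3
      exact hR (A2.eq_of_slot A'.symm ▸ h2R)
    · rw [Ow_adj z A2, ofr_re]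
      exact (wXM_ge A2 hnr).trans (hM.tail_re h2R)
  have ht' := ht
  obtain ⟨d, hd, q, hq⟩ := ht
  rcases hc with hc | hc
  · have h1 := hM.wall12 hb hN ht' (Or.inl hc)
    rcases d with h2 | m
    · obtain ⟨k, A2⟩ := adj_of_cf hq
      obtain ⟨rfl, h3⟩ := key hd A2
      rcases hslot with rfl | rfl
      · show (Ow b z j' 2).re ≤ 2 / 5
        linarith only [h1, h3]
      · show (Ow b z j' 0).re ≤ 2 / 5
        linarith only [h1, h3]
    · exfalso
      have h2 := m.2
      rw [cf_inner_ne hq, tyW_of_one hc] at h2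
      exact absurd h2 (by decide)
  rcases hc with hc | ⟨hc, rfl⟩
  · have h1 := hM.wall12 hb hN ht' (Or.inr hc)
    rcases d with h2 | m
    · obtain ⟨k, A2⟩ := adj_of_cf hq
      obtain ⟨rfl, h3⟩ := key hd A2
      rcases hslot with rfl | rfl
      · show (Ow b z j' 2).re ≤ 2 / 5
        linarith only [h1, h3]
      · show (Ow b z j' 0).re ≤ 2 / 5
        linarith only [h1, h3]
    · exfalso
      have h2 := m.2
      rw [cf_inner_ne hq, tyW_of_two (Or.inl hc)] at h2
      exact absurd h2 (by decide)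
  · obtain ⟨h1, h2⟩ := hM.wall3 hN ht' hc
    show (Ow b z j' 2).re ≤ 2 / 5
    rcases d with h2' | m
    · obtain ⟨k, A2⟩ := adj_of_cf hq
      obtain ⟨rfl, h3⟩ := key hd A2
      linarith only [h1, h2, h3]
    · have e : m.1 = j' := cf_inner_ne hq
      subst e
      have h3 := hM.tail_re hd
      have h4 : (wpar b zs).XM (.inr m) = 8 / 10 := by
        show (mp (clsW b m.1)).XM = 8 / 10
        rw [hc]
        rfl
      rw [h4] at h3
      rw [Ow_inner, ofr_re] at h1
      linarith only [h1, h3]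

/-- no real hinge before an end with two crossings -/
theorem MM.real_twoE (hN : NbT b R nb) (A' : Adj h' i s j') (hi : ¬ Tch b R i)
    (hn : Sum.inl (Sum.inl h') ∈ nb) (hc : clsW b j' = .twoE) : False := by
  obtain ⟨⟨d, hd, q, hq⟩, hR⟩ := hN.beyond A' hi hn
  rcases d with h2 | m
  · obtain ⟨k, A2⟩ := adj_of_cf hq
    have he := clsW_end (Or.inl hc)
    have hs : q = s.rev := by
      by_contra hq'
      have h3 : q = s := by
        rcases A2.slot with rfl | rfl <;> rcases A'.slot with rfl | rfl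
        · rfl
        · exact absurd rfl hq'
        · exact absurd rfl hq'
        · rfl
      subst h3
      -- the end has only one hinge
      unfold isEnd at he
      have he' := of_decide_eq_true he
      cases A' with
      | l =>
        rcases he' with h4 | h4
        · exact Fin.succ_ne_zero _ h4
        · generalize hj : h'.succ = j2 at A2
          generalize hs2 : (2 : Fin 3) = s2 at A2
          cases A2 with
          | l =>
            rw [h4] at hj
            exact (Fin.castSucc_lt_last h2).ne hj.symm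
          | r => exact absurd hs2 (by decide)
      | r =>
        rcases he' with h4 | h4
        · generalize hj : h'.castSucc = j2 at A2
          generalize hs2 : (0 : Fin 3) = s2 at A2
          cases A2 with
          | l => exact absurd hs2 (by decide)
          | r =>
            rw [h4] at hj
            exact Fin.succ_ne_zero _ hj.symm
        · exact (Fin.castSucc_lt_last h').ne h4
    subst hs
    exact hR (A2.eq_of_slot A'.symm ▸ hd)
  · have h2 := m.2
    rw [cf_inner_ne hq, tyW_of_two (Or.inr hc)] at h2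
    exact absurd h2 (by decide)

end SR

end Pool.Agent.Work.MP_b30479_gt.G2
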