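import Pool.Agent.Work.MP_b30479_gt.G2.WMR0

/-!
# Mirrored paths: cells

`Cell`: a range of `x`, a target `c/100` and linear bounds; its two rows (`Cell.A`: the mode is the
lower path, `Cell.B`: the upper one), and the row `Cell.S` if the region on the side `A` is an end
with two crossings.
-/

set_option linter.unusedVariables false
set_option linter.unusedSimpArgs false

namespace Pool.Agent.Work.MP_b30479_gt.G2

open VOL NumU

namespace KR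

open NumI (V)

structure Cell where
  x0 : ℤ
  x1 : ℤ
  t0 : ℤ
  t1 : ℤ
  c : ℤ
  en : ℤ
  ed : ℕ
  a0 : ℤ
  a1 : ℤ
  ad : ℕ
  l0 : ℤ
  l1 : ℤ
  m0 : ℤ
  m1 : ℤ
  p0 : ℤ
  p1 : ℤ
  p2 : ℤ

namespace Cell

variable (k : Cell)

def A (dm : Dm) (y0 y1 : ℤ) : Pm :=
  ⟨dm, k.x0, k.x1, k.t0, k.t1, k.c, k.en, k.ed, k.a0, k.a1, k.ad, -1,
    2 * k.l0 + 2 * k.m0 + k.p0, 2 * k.l1 + k.p1, 2 * k.m1 + k.p2, 0, 0, y0, y1⟩
def B (dm : Dm) (y0 y1 : ℤ) : Pm :=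
  ⟨dm, k.x0, k.x1, k.t0, k.t1, k.c, k.en, k.ed, k.a0, k.a1, k.ad, 1,
    2 * k.l0 + 2 * k.m0 - k.p0, 2 * k.l1 - k.p1, 2 * k.m1 - k.p2, 2, 0, y0, y1⟩
def S (dm : Dm) : Pm :=
  ⟨dm, k.x0, k.x1, k.t0, k.t1, k.c, k.en, k.ed, k.a0, k.a1, k.ad, 1,
    3 * k.l0 + 3 * k.m0, 3 * k.l1, 3 * k.m1, 2, 1, 0, 80⟩

noncomputable def e (T : ℝ) : ℝ := (k.en : ℝ) / k.ed * T
noncomputable def a (x : ℝ) : ℝ := (k.a0 : ℝ) / k.ad + (k.a1 : ℝ) / k.ad * x

/-- linear lower bound for `uu x (a x)` -/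
def LB : Prop := ∀ x : ℝ, (k.x0 : ℝ) / 10000 ≤ x → x ≤ (k.x1 : ℝ) / 10000 →
  (k.l0 : ℝ) / 10000 + (k.l1 : ℝ) / 10000 * x ≤ uu x (k.a x)
/-- linear lower bound for `-uu c (e T)` -/
def MB : Prop := ∀ T : ℝ, (k.t0 : ℝ) / 10000 ≤ T → T ≤ (k.t1 : ℝ) / 10000 →
  (k.m0 : ℝ) / 10000 + (k.m1 : ℝ) / 10000 * T ≤ -uu ((k.c : ℝ) / 100) (k.e T)

def lOK (c : ℕ) : Bool :=
  chkT [.sub (.uu (.var 0) (.add (.q k.a0 k.ad) (.mul (.q k.a1 k.ad) (.var 0))))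
    (.add (.q k.l0 10000) (.mul (.q k.l1 10000) (.var 0)))] 60 c [V.of 10000 k.x0 k.x1]
def l0OK (c : ℕ) : Bool :=
  chkT [.sub (.uu (.q 5 1000) (.var 0)) (.q k.l0 10000)] 60 c [V.of 10000 0 100]
def mOK (c : ℕ) : Bool :=
  chkT [.sub (.neg (.uu (.q k.c 100) (.mul (.q k.en k.ed) (.var 0))))
    (.add (.q k.m0 10000) (.mul (.q k.m1 10000) (.var 0)))] 60 c [V.of 10000 k.t0 k.t1]

variable {k}

theorem chkT1 {es : List E} {fuel c N : ℕ} {l1 h1 : ℤ} {k1 : ℕ}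
    (h : chkT es fuel c [V.of N l1 h1 k1] = true) (hN : 0 < N) {x : ℝ}
    (a1 : (l1 : ℝ) / N ≤ x) (b1 : x ≤ (h1 : ℝ) / N) : ∃ e ∈ es, 0 < e.val [x] :=
  chkT_sound h (List.Forall₂.cons (V.of_mem hN a1 b1) List.Forall₂.nil)

theorem lb_of {c : ℕ} (h : k.lOK c = true) : k.LB := by
  intro x h0 h1
  have hc : ((10000 : ℕ) : ℝ) = 10000 := by norm_num
  obtain ⟨e, he, hp⟩ := chkT1 h (by norm_num) (x := x) (by rw [hc]; exact h0)
    (by rw [hc]; exact h1)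
  simp only [List.mem_cons, List.not_mem_nil, or_false] at he
  subst he
  simp only [E.val, NumI.lkR] at hp
  push_cast at hp
  unfold Cell.a
  linarith only [hp]

theorem lb_of0 {c : ℕ} (h : k.l0OK c = true) (hx0 : k.x0 = 0) (hx1 : k.x1 ≤ 50) (hl : k.l1 = 0)
    (ha : ∀ x : ℝ, 0 ≤ x → x ≤ 5 / 1000 → 0 ≤ k.a x ∧ k.a x ≤ 1 / 100) : k.LB := by
  intro x h0 h1
  have hx1' : (k.x1 : ℝ) ≤ 50 := by exact_mod_cast hx1
  rw [hx0] at h0
  push_cast at h0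
  rw [zero_div] at h0
  obtain ⟨a0, a1⟩ := ha x h0 (by linarith only [h1, hx1'])
  have hc : ((10000 : ℕ) : ℝ) = 10000 := by norm_num
  obtain ⟨e, he, hp⟩ := chkT1 h (by norm_num) (x := k.a x) (by rw [hc]; push_cast; linarith only [a0])
    (by rw [hc]; push_cast; linarith only [a1])
  simp only [List.mem_cons, List.not_mem_nil, or_false] at he
  subst he
  simp only [E.val, NumI.lkR] at hp
  push_cast at hp
  have h2 := TL.E1.anti (a := x) (b := 5 / 1000) (y := k.a x) (by linarith only [h0]) (by linarith only [h1, hx1'])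
    (by norm_num) (by rw [abs_of_nonneg a0]; linarith only [a1])
  rw [hl]
  push_cast
  linarith only [hp, h2]

theorem mb_of {c : ℕ} (h : k.mOK c = true) : k.MB := by
  intro T h0 h1
  have hc : ((10000 : ℕ) : ℝ) = 10000 := by norm_num
  obtain ⟨e, he, hp⟩ := chkT1 h (by norm_num) (x := T) (by rw [hc]; exact h0)
    (by rw [hc]; exact h1)
  simp only [List.mem_cons, List.not_mem_nil, or_false] at he
  subst he
  simp only [E.val, NumI.lkR] at hp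
  push_cast at hp
  unfold Cell.e
  linarith only [hp]

/-- both sides -/
theorem two {dA dB : Dm} {yA0 yA1 yB0 yB1 : ℤ} (hl : k.LB) (hm : k.MB)
    (hA : (k.A dA yA0 yA1).Side) (hB : (k.B dB yB0 yB1).Side) {x T y β y' β' : ℝ}
    (hx0 : (k.x0 : ℝ) / 10000 ≤ x) (hx1 : x ≤ (k.x1 : ℝ) / 10000) (ht0 : (k.t0 : ℝ) / 10000 ≤ T)
    (ht1 : T ≤ (k.t1 : ℝ) / 10000) (h0 : (yA0 : ℝ) / 100 ≤ y) (h1 : y ≤ (yA1 : ℝ) / 100)
    (h0' : (yB0 : ℝ) / 100 ≤ y') (h1' : y' ≤ (yB1 : ℝ) / 100) (hd : dA.In y β)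
    (hd' : dB.In y' β') :
    0 < gg ((k.c : ℝ) / 100) (-k.e T) x (-k.a x) y β + gg ((k.c : ℝ) / 100) (k.e T) x (k.a x) y' β' +
      2 * Real.pi * k.a x := by
  have g1 := hA x T y β hx0 hx1 ht0 ht1 h0 h1 hd
  have g2 := hB x T y' β' hx0 hx1 ht0 ht1 h0' h1' hd'
  have g3 := hl x hx0 hx1
  have g4 := hm T ht0 ht1
  simp only [Pm.F, Pm.e, Pm.a, Cell.A, Cell.B] at g1 g2
  unfold gg
  rw [uu_neg ((k.c : ℝ) / 100) (k.e T), uu_neg x (k.a x)]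
  push_cast at g1 g2
  have e1 : ((-1 : ℝ) * ((k.en : ℝ) / k.ed * T)) = -k.e T := by unfold Cell.e; ring
  have e2 : ((1 : ℝ) * ((k.en : ℝ) / k.ed * T)) = k.e T := by unfold Cell.e; ring
  have e3 : ((-1 : ℝ) * ((k.a0 : ℝ) / k.ad + (k.a1 : ℝ) / k.ad * x)) = -k.a x := by
    unfold Cell.a; ring
  have e4 : ((1 : ℝ) * ((k.a0 : ℝ) / k.ad + (k.a1 : ℝ) / k.ad * x)) = k.a x := by
    unfold Cell.a; ring
  rw [e1, e3] at g1
  rw [e2, e4] at g2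
  have e5 : ((k.a0 : ℝ) / k.ad + (k.a1 : ℝ) / k.ad * x) = k.a x := rfl
  rw [e5] at g1 g2
  linarith only [g3, g4, g1, g2]

/-- an end with two crossings on the side `A` -/
theorem one {dB : Dm} (hl : k.LB) (hm : k.MB) (hB : (k.S dB).Side) {x T y β : ℝ}
    (hx0 : (k.x0 : ℝ) / 10000 ≤ x) (hx1 : x ≤ (k.x1 : ℝ) / 10000) (ht0 : (k.t0 : ℝ) / 10000 ≤ T)
    (ht1 : T ≤ (k.t1 : ℝ) / 10000) (h0 : 0 ≤ y) (h1 : y ≤ 80 / 100) (hd : dB.In y β) :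
    0 < g0 ((k.c : ℝ) / 100) (-k.e T) x (-k.a x) + gg ((k.c : ℝ) / 100) (k.e T) x (k.a x) y β +
      2 * Real.pi * k.a x := by
  have g2 := hB x T y β hx0 hx1 ht0 ht1 (by simp only [Cell.S]; push_cast; linarith only [h0])
    (by simp only [Cell.S]; push_cast; linarith only [h1]) hd
  have g3 := hl x hx0 hx1
  have g4 := hm T ht0 ht1
  simp only [Pm.F, Pm.e, Pm.a, Cell.S] at g2
  unfold gg g0
  rw [uu_neg ((k.c : ℝ) / 100) (k.e T), uu_neg x (k.a x)]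
  push_cast at g2
  have e2 : ((1 : ℝ) * ((k.en : ℝ) / k.ed * T)) = k.e T := by unfold Cell.e; ring
  have e4 : ((1 : ℝ) * ((k.a0 : ℝ) / k.ad + (k.a1 : ℝ) / k.ad * x)) = k.a x := by
    unfold Cell.a; ring
  rw [e2, e4] at g2
  have e5 : ((k.a0 : ℝ) / k.ad + (k.a1 : ℝ) / k.ad * x) = k.a x := rfl
  have e6 : ((k.en : ℝ) / k.ed * T) = k.e T := rfl
  rw [e5, e6] at g2
  linarith only [g3, g4, g2]

end Cell

/-! ### the two regions -/

/-- a hinge with the mode path of height `16/100` at `x` can be moved: regions with the value `V2`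
on both sides, other variables `y + iβ` (side of the lower path) and `y' + iβ'` -/
def Two (XM cl cr : ℝ) (T x y β y' β' : ℝ) : Prop :=
  ∃ c, 0 ≤ c ∧ c ≤ XM ∧ 0 < gg c (-(T * tr 0 XM cl cr c)) x (-(16 / 100 * tr 0 XM cl cr x)) y β +
    gg c (T * tr 0 XM cl cr c) x (16 / 100 * tr 0 XM cl cr x) y' β' +
    2 * Real.pi * (16 / 100 * tr 0 XM cl cr x)

/-- the same, an end with two crossings on the side of the lower path -/
def One (XM cl cr : ℝ) (T x y β : ℝ) : Prop :=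
  ∃ c, 0 ≤ c ∧ c ≤ XM ∧ 0 < g0 c (-(T * tr 0 XM cl cr c)) x (-(16 / 100 * tr 0 XM cl cr x)) +
    gg c (T * tr 0 XM cl cr c) x (16 / 100 * tr 0 XM cl cr x) y β +
    2 * Real.pi * (16 / 100 * tr 0 XM cl cr x)

end KR

end Pool.Agent.Work.MP_b30479_gt.G2
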