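import Pool.Agent.Work.MP_b30479_gt.G2.MJD
import Pool.Agent.Work.MP_b30479_gt.G2.WMMN
import Pool.Agent.Work.MP_b30479_gt.G2.WMR1

/-!
# Mirrored paths, kind `1 | 2`: the other hinge of the digit `1`
-/

namespace Pool.Agent.Work.MP_b30479_gt.G2

open Finset VOL Filter Topology SR NumG

namespace K12

/-! ### positions from linear inequalities -/

/-- a number between `0` and `H τ` -/
theorem exS {H τ t : ℝ} (hH : 0 ≤ H) (hτ : 0 ≤ τ) (h0 : 0 ≤ t) (h1 : t ≤ H * τ) :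
    ∃ S : ℝ, 0 ≤ S ∧ S ≤ H ∧ t = S * τ := by
  rcases hτ.eq_or_lt with h2 | h2
  · refine ⟨0, le_rfl, hH, ?_⟩
    rw [← h2] at h1 ⊢
    linarith only [h0, h1]
  · refine ⟨t / τ, div_nonneg h0 hτ, ?_, (div_mul_cancel₀ _ h2.ne').symm⟩
    rwa [div_le_iff₀ h2]

/-- below the three lines of a ramp function -/
theorem le_tR {XM : ℤ} {cl cr : ℕ} {y t H : ℝ} (hcl : 0 < cl) (hcr : 0 < cr) (hH : 0 < H)
    (h1 : t ≤ H) (h2 : (cl : ℝ) / 1000 * t ≤ H * y)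
    (h3 : (cr : ℝ) / 1000 * t ≤ H * ((XM : ℝ) / 1000 - y)) : t ≤ H * K12.tR XM cl cr y := by
  have hcl' : (0 : ℝ) < (cl : ℝ) / 1000 := by positivity
  have hcr' : (0 : ℝ) < (cr : ℝ) / 1000 := by positivity
  unfold K12.tR tr
  rw [← div_le_iff₀' hH]
  refine le_max_of_le_right (le_min ?_ (le_min ?_ ?_))
  · rw [div_le_one hH]
    exact h1
  · rw [sub_zero, le_div_iff₀ hcl', div_mul_eq_mul_div, div_le_iff₀ hH]
    linarith only [h2]
  · rw [le_div_iff₀ hcr', div_mul_eq_mul_div, div_le_iff₀ hH]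
    linarith only [h3]

theorem tR_nonneg (XM : ℤ) (cl cr : ℕ) (y : ℝ) : 0 ≤ K12.tR XM cl cr y := le_max_left _ _

variable {t y s : ℝ}

theorem pa_u (ht : t ≤ 8 / 100) (y0 : 0 ≤ y) (y1 : y ≤ 86 / 100) (s0 : 0 ≤ s) (s1 : s ≤ 16 / 100)
    (s2 : 15 / 16 * s ≤ y) (s3 : 20 / 16 * s ≤ 86 / 100 - y) : K12.PA t y s := by
  obtain ⟨S, a1, a2, a3⟩ := exS (H := 16 / 100) (by norm_num) (tR_nonneg 860 150 200 y) s0
    (le_tR (by norm_num) (by norm_num) (by norm_num) s1 (by norm_num; linarith only [s2])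
      (by norm_num; linarith only [s3]))
  exact .u S ht y0 y1 a1 a2 a3

theorem pa_d (ht : t ≤ 8 / 100) (y0 : 0 ≤ y) (y1 : y ≤ 86 / 100) (s0 : s ≤ 0)
    (s1 : -s ≤ 16 / 100) (s2 : 13 / 16 * -s ≤ y) (s3 : 20 / 16 * -s ≤ 86 / 100 - y) :
    K12.PA t y s := by
  obtain ⟨S, a1, a2, a3⟩ := exS (H := 16 / 100) (by norm_num) (tR_nonneg 860 130 200 y)
    (by linarith only [s0] : 0 ≤ -s)
    (le_tR (by norm_num) (by norm_num) (by norm_num) s1 (by norm_num; linarith only [s2])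
      (by norm_num; linarith only [s3]))
  exact .d S ht y0 y1 a1 a2 (by linarith only [a3])

theorem pa_h (ht : 8 / 100 ≤ t) (y0 : 0 ≤ y) (y1 : y ≤ 70 / 100)
    (h1 : 0 ≤ s → s ≤ 6 / 100 ∧ 14 / 6 * s ≤ y ∧ 35 / 6 * s ≤ 70 / 100 - y)
    (h2 : s ≤ 0 → -s ≤ 16 / 100 ∧ 14 / 16 * -s ≤ y ∧ 35 / 16 * -s ≤ 70 / 100 - y) :
    K12.PA t y s := by
  rcases le_total 0 s with h | h
  · obtain ⟨b1, b2, b3⟩ := h1 h
    obtain ⟨S, a1, a2, a3⟩ := exS (H := 6 / 100) (by norm_num) (tR_nonneg 700 140 350 y) h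
      (le_tR (by norm_num) (by norm_num) (by norm_num) b1 (by norm_num; linarith only [b2])
        (by norm_num; linarith only [b3]))
    exact .h S ht y0 y1 (by linarith only [a1]) a2 a3
  · obtain ⟨b1, b2, b3⟩ := h2 h
    obtain ⟨S, a1, a2, a3⟩ := exS (H := 16 / 100) (by norm_num) (tR_nonneg 700 140 350 y)
      (by linarith only [h] : 0 ≤ -s)
      (le_tR (by norm_num) (by norm_num) (by norm_num) b1 (by norm_num; linarith only [b2])
        (by norm_num; linarith only [b3]))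
    exact .h (-S) ht y0 y1 (by linarith only [a2]) (by linarith only [a1]) (by linarith only [a3])

theorem pb_u (y0 : 0 ≤ y) (y1 : y ≤ 60 / 100) (s0 : 0 ≤ s) (s1 : s ≤ 96 / 1000)
    (s2 : 125 / 96 * s ≤ y) (s3 : 300 / 96 * s ≤ 60 / 100 - y) : K12.PB y s := by
  obtain ⟨S, a1, a2, a3⟩ := exS (H := 96 / 1000) (by norm_num) (tR_nonneg 600 125 300 y) s0
    (le_tR (by norm_num) (by norm_num) (by norm_num) s1 (by norm_num; linarith only [s2])
      (by norm_num; linarith only [s3]))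
  exact .u S y0 y1 a1 a2 a3

theorem pb_d (y0 : 0 ≤ y) (y1 : y ≤ 60 / 100) (s0 : s ≤ 0) (s1 : -s ≤ 85 / 1000)
    (s2 : 100 / 85 * -s ≤ y) (s3 : 270 / 85 * -s ≤ 60 / 100 - y) : K12.PB y s := by
  obtain ⟨S, a1, a2, a3⟩ := exS (H := 85 / 1000) (by norm_num) (tR_nonneg 600 100 270 y)
    (by linarith only [s0] : 0 ≤ -s)
    (le_tR (by norm_num) (by norm_num) (by norm_num) s1 (by norm_num; linarith only [s2])
      (by norm_num; linarith only [s3]))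
  exact .d S y0 y1 a1 a2 (by linarith only [a3])

end K12

variable {M : ℕ} {b : Fin (M + 1) → ℤ} {zs : DD (tyW b) ⊕ ZZ (tyW b) → ℂ}
variable {R : Finset (DD (tyW b))} {nb : Finset (DD (tyW b) ⊕ ZZ (tyW b))}
variable {z : DD (tyW b) ⊕ ZZ (tyW b) → ℂ} {p : DD (tyW b) → ℝ}
variable {h h' : Fin M} {i j j' : Fin (M + 1)} {s q : Fin 3} {x c : ℝ}

namespace K12

/-! ### hinges without modes -/

theorem adj_cases {i1 j1 : Fin (M + 1)} {s1 : Fin 3} (A : Adj h i s j) (A1 : Adj h i1 s1 j1) :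
    (i1 = i ∧ s1 = s ∧ j1 = j) ∨ (i1 = j ∧ s1 = s.rev ∧ j1 = i) := by
  cases A <;> cases A1
  · exact Or.inl ⟨rfl, rfl, rfl⟩
  · exact Or.inr ⟨rfl, rfl, rfl⟩
  · exact Or.inr ⟨rfl, rfl, rfl⟩
  · exact Or.inl ⟨rfl, rfl, rfl⟩

theorem adj_ring (A : Adj h i s j) : RH1 b (.inl h) ↔ clsW b i = .ring ∨ clsW b j = .ring := by
  cases A
  · exact Iff.rfl
  · exact or_comm

/-- no mode at the hinge -/
theorem p_zero (hb : ClassW b) (hN : NbT b R nb) (hM : MM b zs R nb z p) (A : Adj h i s j)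
    (hi : clsW b i ≠ .ring) (hj : clsW b j ≠ .ring) (k1 : ∀ x, ¬ Md b zs nb z p h i s j x)
    (k2 : ∀ x, ¬ Md b zs nb z p h j s.rev i x) : p (.inl h) = 0 := by
  have hr : clsW b h.castSucc ≠ .ring ∧ clsW b h.succ ≠ .ring := by
    cases A
    · exact ⟨hi, hj⟩
    · exact ⟨hj, hi⟩
  rcases hM.md hb hN.ok.1 h hr.1 hr.2 with h0 | ⟨i1, s1, j1, x, D⟩
  · exact h0
  · rcases adj_cases A D.adj with ⟨rfl, rfl, rfl⟩ | ⟨rfl, rfl, rfl⟩
    · exact (k1 x D).elim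
    · exact (k2 x D).elim

/-- position of a hinge without penalty -/
theorem flat {X : ℂ} (P : NPos b zs nb p h i s X) (hp : p (.inl h) = 0) {lo hi : ℝ} (l0 : lo ≤ 0)
    (h0 : 0 ≤ hi) (T0 : lo ≤ Th b zs h i) (T1 : Th b zs h i ≤ hi) :
    lo * trh b h X.re ≤ X.im ∧ X.im ≤ hi * trh b h X.re := by
  have ht := trh_mem (b := b) h X.re
  cases P with
  | main y y0 y1 hn e hp =>
    rw [e] at ht ⊢
    exact ⟨mul_le_mul_of_nonneg_right T0 ht.1, mul_le_mul_of_nonneg_right T1 ht.1⟩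
  | real y y0 y1 hn e hp =>
    rw [e] at ht ⊢
    exact ⟨mul_nonpos_of_nonpos_of_nonneg l0 ht.1, mul_nonneg h0 ht.1⟩
  | up y y0 y1 hn hr hT e hp' =>
    rw [e] at ht ⊢
    have h2 : mhs b h s.rev * trh b h y = 0 := by rw [← hp', hp]
    simp only
    rw [h2]
    exact ⟨mul_nonpos_of_nonpos_of_nonneg l0 ht.1, mul_nonneg h0 ht.1⟩
  | dn y y0 y1 hn hr hT e hp' =>
    rw [e] at ht ⊢
    have h2 : mhs b h s * trh b h y = 0 := by rw [← hp', hp]
    simp only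
    rw [h2, neg_zero]
    exact ⟨mul_nonpos_of_nonpos_of_nonneg l0 ht.1, mul_nonneg h0 ht.1⟩

/-! ### parameters -/

theorem par_one_one (A : Adj h i s j) (hi : clsW b i = .one) (hj : clsW b j = .one) :
    wXM b h ≤ 86 / 100 ∧ wcl b h = 15 / 100 ∧ wcr b h = 20 / 100 := by
  unfold wXM wcl wcr
  cases A <;> rw [hi, hj] <;> simp only [hp] <;> split_ifs <;> norm_num

theorem par_one_two (A : Adj h i s j)
    (hc : clsW b i = .one ∧ clsW b j = .two ∨ clsW b i = .two ∧ clsW b j = .one) :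
    wXM b h = 80 / 100 ∧ wcl b h = 16 / 100 ∧ wcr b h = 29 / 100 := by
  unfold wXM wcl wcr
  rcases hc with ⟨hi, hj⟩ | ⟨hi, hj⟩ <;> cases A <;> rw [hi, hj] <;> exact ⟨rfl, rfl, rfl⟩

theorem par_one_twoE (A : Adj h i s j) (hi : clsW b i = .one) (hj : clsW b j = .twoE) :
    wXM b h = 70 / 100 ∧ wcl b h = 14 / 100 ∧ wcr b h = 35 / 100 := by
  unfold wXM wcl wcr
  cases A <;> rw [hi, hj] <;> exact ⟨rfl, rfl, rfl⟩

theorem par_one_three2 (A : Adj h i 2 j) (hi : clsW b i = .one) (hj : clsW b j = .three) :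
    wXM b h = 65 / 100 ∧ wcl b h = 13 / 100 ∧ wcr b h = 15 / 100 := by
  unfold wXM wcl wcr
  cases A
  rw [hi, hj]
  exact ⟨rfl, rfl, rfl⟩

theorem par_one_three0 (A : Adj h i 0 j) (hi : clsW b i = .one) (hj : clsW b j = .three) :
    wXM b h = 65 / 100 ∧ wcl b h = 15 / 100 ∧ wcr b h = 29 / 100 := by
  unfold wXM wcl wcr
  cases A
  rw [hi, hj]
  exact ⟨rfl, rfl, rfl⟩

theorem par_one_threeE (A : Adj h i s j) (hi : clsW b i = .one) (hj : clsW b j = .threeE) :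
    wXM b h = 60 / 100 ∧ wcl b h = 14 / 100 ∧ wcr b h = 25 / 100 := by
  unfold wXM wcl wcr
  cases A <;> rw [hi, hj] <;> exact ⟨rfl, rfl, rfl⟩

theorem par_one_ring (A : Adj h i s j) (hi : clsW b i = .one) (hj : clsW b j = .ring) :
    wXM b h = 65 / 100 ∧ wcl b h = 16 / 100 ∧ wcr b h = 29 / 100 := by
  unfold wXM wcl wcr
  cases A <;> rw [hi, hj] <;> exact ⟨rfl, rfl, rfl⟩

end K12

end Pool.Agent.Work.MP_b30479_gt.G2
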