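import Pool.Agent.Work.MP_b30479_gt.G2.WAdj

/-!
# The inner variable of a digit `3` between two digits `1`

`h`: the hinge between the digit `3` at `i` and the digit `1` at `j` (first slot), `h2`: the hinge
behind this digit `1`.
-/

namespace Pool.Agent.Work.MP_b30479_gt.G2

namespace SR

variable {M : ℕ}

/-- **The inner variable of a digit `3` between two digits `1`.** -/
structure LocM1 (b : Fin (M + 1) → ℤ) (zs : DD (tyW b) ⊕ ZZ (tyW b) → ℂ) : Prop where
  one0 : ∀ {h h' h2 : Fin M} {i j k r : Fin (M + 1)} (hm : (tyW b i).isMid = true),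
    Adj h i 0 j → Adj h' i 2 k → Adj h2 j 0 r → clsW b i = .three → clsW b j = .one →
    clsW b k = .one → clsW b r = .one →
    -(78 / 1000) ≤ ofs (b i) (zs (.inl (.inr ⟨i, hm⟩))).im
  one1 : ∀ {h h' h2 : Fin M} {i j k r : Fin (M + 1)} (hm : (tyW b i).isMid = true),
    Adj h i 0 j → Adj h' i 2 k → Adj h2 j 0 r → clsW b i = .three → clsW b j = .one →
    clsW b k = .one → clsW b r = .one →
    -(20 / 1000) ≤ ofs (b j) (zs (.inl (.inl h2))).im →
    -(69 / 1000) ≤ ofs (b i) (zs (.inl (.inr ⟨i, hm⟩))).im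
  two0 : ∀ {h h' h2 : Fin M} {i j k r : Fin (M + 1)} (hm : (tyW b i).isMid = true),
    Adj h i 0 j → Adj h' i 2 k → Adj h2 j 0 r → clsW b i = .three → clsW b j = .one →
    clsW b k = .one → clsW b r = .two →
    -(58 / 1000) ≤ ofs (b i) (zs (.inl (.inr ⟨i, hm⟩))).im
  two1 : ∀ {h h' h2 : Fin M} {i j k r : Fin (M + 1)} (hm : (tyW b i).isMid = true),
    Adj h i 0 j → Adj h' i 2 k → Adj h2 j 0 r → clsW b i = .three → clsW b j = .one →
    clsW b k = .one → clsW b r = .two →
    45 / 1000 ≤ ofs (b j) (zs (.inl (.inl h2))).im →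
    -(51 / 1000) ≤ ofs (b i) (zs (.inl (.inr ⟨i, hm⟩))).im

end SR

end Pool.Agent.Work.MP_b30479_gt.G2
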