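import Pool.Agent.Work.MP_b30479_gt.G2.WAdj

/-!
# The inner variable of a digit `3` next to a digit `3`
-/

namespace Pool.Agent.Work.MP_b30479_gt.G2

namespace SR

variable {M : ℕ}

/-- **The inner variable of a digit `3` next to a digit `3` at the last slot.** -/
structure LocM3 (b : Fin (M + 1) → ℤ) (zs : DD (tyW b) ⊕ ZZ (tyW b) → ℂ) : Prop where
  three : ∀ {h h' : Fin M} {i j k : Fin (M + 1)} (hm : (tyW b i).isMid = true),
    Adj h i 0 j → Adj h' i 2 k → clsW b i = .three → clsW b k = .three →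
    ofs (b i) (zs (.inl (.inr ⟨i, hm⟩))).im ≤ -(5 / 1000)

end SR

end Pool.Agent.Work.MP_b30479_gt.G2
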