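import Pool.Agent.Work.MP_b30479_gt.G2.WLocM

/-!
# The inner variable of a digit `3` between two digits `1`
-/

namespace Pool.Agent.Work.MP_b30479_gt.G2

namespace SR

variable {M : ℕ}

/-- **The inner variable of a digit `3` between two digits `1`**, with a digit `2` at an end
behind the digit `1` at the first slot. -/
structure LocM4 (b : Fin (M + 1) → ℤ) (zs : DD (tyW b) ⊕ ZZ (tyW b) → ℂ) : Prop where
  tail : ∀ {h h' h2 : Fin M} {i j k r : Fin (M + 1)} (hm : (tyW b i).isMid = true),
    Adj h i 0 j → Adj h' i 2 k → Adj h2 j 0 r → clsW b i = .three → clsW b j = .one →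
    clsW b r = .twoE → clsW b k = .one →
    (⟨-(725 / 10000), -(440 / 10000), 370 / 10000, 560 / 10000, -(1120 / 10000),
      -(965 / 10000)⟩ : MWin).In (ofs (b i) (zs (.inl (.inr ⟨i, hm⟩))).im)
      (ofs (b i) (zs (.inl (.inl h))).im)

end SR

end Pool.Agent.Work.MP_b30479_gt.G2
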