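import Pool.Agent.Work.MP_b30479_gt.G2.WLocP
import Pool.Agent.Work.MP_b30479_gt.G2.WLocX
import Pool.Agent.Work.MP_b30479_gt.G2.WLocS
import Pool.Agent.Work.MP_b30479_gt.G2.WLocR
import Pool.Agent.Work.MP_b30479_gt.G2.WLocQ
import Pool.Agent.Work.MP_b30479_gt.G2.WLocU
import Pool.Agent.Work.MP_b30479_gt.G2.WLocF
import Pool.Agent.Work.MP_b30479_gt.G2.WLocN
import Pool.Agent.Work.MP_b30479_gt.G2.WLocO
import Pool.Agent.Work.MP_b30479_gt.G2.WLocT
import Pool.Agent.Work.MP_b30479_gt.G2.WRng0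

/-!
# All location facts
-/

namespace Pool.Agent.Work.MP_b30479_gt.G2

open Finset VOL Filter Topology

namespace SR

variable {M : ℕ}

/-- **All location facts** used on the main paths. -/
structure LocA (b : Fin (M + 1) → ℤ) (zs : DD (tyW b) ⊕ ZZ (tyW b) → ℂ) : Prop where
  L : Loc b zs
  X : LocX b zs
  P : LocP b zs
  R : LocR b zs
  G : LocRg b zs
  S : LocS b zs
  C : Crit b zs
  T : LocRt b zs
  F : LocR4 b zs
  E : Loc3 b zs
  D : LocMd b zs
  N : LocM1 b zs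
  O : LocM2 b zs
  Q : LocM3 b zs
  U : LocM4 b zs

end SR

end Pool.Agent.Work.MP_b30479_gt.G2
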