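import Pool.Agent.Work.MP_b30479_gt.G2.MKB
import Pool.Agent.Work.MP_b30479_gt.G2.MKC
import Pool.Agent.Work.MP_b30479_gt.G2.WLocA
import Pool.Agent.Work.MP_b30479_gt.G2.WRnd

/-!
# Modes `2e | 1` and `1 | 2e`
-/

namespace Pool.Agent.Work.MP_b30479_gt.G2

open Finset VOL Filter Topology SR NumG

namespace MKA

theorem row1 {x T y t : ℝ} (x0 : 0 ≤ x) (x1 : x ≤ 700 / 1000) (T0 : 0 ≤ T) (T1 : T ≤ 66 / 1000)
    (h : (0 ≤ y ∧ y ≤ 86 / 100 ∧ ∃ θ : ℝ, -1 ≤ θ ∧ θ ≤ 1 ∧
      t = θ * (16 / 100 * tr 0 (86 / 100) (13 / 100) (20 / 100) y)) ∨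
      (0 ≤ y ∧ y ≤ 65 / 100 ∧ t = -(1 / 2 * tr 0 (65 / 100) (13 / 100) (15 / 100) y))) :
    ∃ c : ℝ, 0 ≤ c ∧ c ≤ 700 / 1000 ∧ 0 < G1 c T x ⟨y, t⟩ := by
  rcases h with ⟨y0, y1, θ, θ0, θ1, ht⟩ | ⟨y0, y1, ht⟩
  · have hv : teE.val [x, T, y, θ] = t := by
      rw [ht, teE]
      simp only [E.val, NumI.lkR, E.tr_val (XM := 860) (cl := 130) (cr := 200) (by norm_num)
        (by norm_num) (by norm_num), q16]
      norm_num
    have hr : ∃ e ∈ [TE 1 3500 teE, TE 1 1500 teE, TE 1 1000 teE], 0 < e.val [x, T, y, θ] := by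
      rcases le_total x (350 / 1000) with hx | hx
      · exact chkF4 r1a (by norm_num) (by norm_num; linarith only [x0]) (by norm_num; linarith only [hx])
          (by norm_num; linarith only [T0]) (by norm_num; linarith only [T1]) (by norm_num; linarith only [y0])
          (by norm_num; linarith only [y1]) (by norm_num; linarith only [θ0]) (by norm_num; linarith only [θ1])
      · exact chkF4 r1b (by norm_num) (by norm_num; linarith only [hx]) (by norm_num; linarith only [x1])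
          (by norm_num; linarith only [T0]) (by norm_num; linarith only [T1]) (by norm_num; linarith only [y0])
          (by norm_num; linarith only [y1]) (by norm_num; linarith only [θ0]) (by norm_num; linarith only [θ1])
    obtain ⟨e, he, hp⟩ := hr
    simp only [List.mem_cons, List.not_mem_nil, or_false] at he
    rcases he with rfl | rfl | rfl
    · rw [TE_val, hv] at hp
      exact ⟨_, by norm_num, by norm_num, hp⟩
    · rw [TE_val, hv] at hp
      exact ⟨_, by norm_num, by norm_num, hp⟩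
    · rw [TE_val, hv] at hp
      exact ⟨_, by norm_num, by norm_num, hp⟩
  · have hv : t3E.val [x, T, y, 0] = t := by
      rw [ht, t3E]
      simp only [E.val, E.tr_val (XM := 650) (cl := 130) (cr := 150) (by norm_num)
        (by norm_num) (by norm_num), NumI.lkR]
      norm_num
    obtain ⟨e, he, hp⟩ := chkF4 r1c (by norm_num) (x := x) (y := T) (z := y) (w := 0)
      (by norm_num; linarith only [x0]) (by norm_num; linarith only [x1])
      (by norm_num; linarith only [T0]) (by norm_num; linarith only [T1]) (by norm_num; linarith only [y0])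
      (by norm_num; linarith only [y1]) (by norm_num) (by norm_num)
    simp only [List.mem_cons, List.not_mem_nil, or_false] at he
    rcases he with rfl | rfl | rfl
    · rw [TE_val, hv] at hp
      exact ⟨_, by norm_num, by norm_num, hp⟩
    · rw [TE_val, hv] at hp
      exact ⟨_, by norm_num, by norm_num, hp⟩
    · rw [TE_val, hv] at hp
      exact ⟨_, by norm_num, by norm_num, hp⟩

theorem row2 {x T y t : ℝ} (x0 : 0 ≤ x) (x1 : x ≤ 700 / 1000) (T0 : 0 ≤ T) (T1 : T ≤ 1 / 1000)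
    (y0 : 0 ≤ y) (y1 : y ≤ 700 / 1000) (h : ∃ θ : ℝ, -1 ≤ θ ∧ θ ≤ 1 ∧ t = θ * (16 / 100 * τ7 y)) :
    ∃ c : ℝ, 0 ≤ c ∧ c ≤ 700 / 1000 ∧ 0 < G2 c T x ⟨y, t⟩ := by
  obtain ⟨θ, θ0, θ1, ht⟩ := h
  have hv : t2E.val [x, T, y, θ] = t := by
    rw [ht, t2E]
    unfold τ7
    simp only [E.val, NumI.lkR, E.tr_val (XM := 700) (cl := 140) (cr := 350) (by norm_num)
      (by norm_num) (by norm_num), q16]
  obtain ⟨e, he, hp⟩ := chkF4 r2 (by norm_num) (x := x) (y := T) (z := y) (w := θ)
    (by norm_num; linarith only [x0]) (by norm_num; linarith only [x1])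
    (by norm_num; linarith only [T0]) (by norm_num; linarith only [T1]) (by norm_num; linarith only [y0])
    (by norm_num; linarith only [y1]) (by norm_num; linarith only [θ0]) (by norm_num; linarith only [θ1])
  simp only [List.mem_cons, List.not_mem_nil, or_false] at he
  rcases he with rfl | rfl
  · rw [TE_val', hv] at hp
    exact ⟨_, by norm_num, by norm_num, hp⟩
  · rw [TE_val', hv] at hp
    exact ⟨_, by norm_num, by norm_num, hp⟩

end MKA

variable {M : ℕ} {b : Fin (M + 1) → ℤ} {zs : DD (tyW b) ⊕ ZZ (tyW b) → ℂ}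

/-- **Modes `2e | 1`.** -/
theorem kd_twoE_one (hb : ClassW b) (L : LocA b zs) (s : Fin 3) : Kd b zs .twoE .one s := by
  intro R nb z p h i j x hN hM hq D hi hj
  obtain ⟨hXM, ht, hm⟩ := MKA.par_twoE D.adj (Or.inl ⟨hi, hj⟩)
  have B := D.adj.symm
  obtain ⟨h', j', A'⟩ := B.other' b (clsW_inner hb (Or.inl hj))
  have P := hM.npos hb hN hq B D.nn A'
  have hTj := (Th_mem hb L.L B (by rw [hj]; decide)).1
  rw [hj, hi, D.Tj] at hTj
  simp only [hbox] at hTj
  have hx1 := D.x1
  rw [hXM] at hx1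
  have key : ∀ c, 0 ≤ c → c ≤ 700 / 1000 →
      MKA.G1 c (Th b zs h i) x (Ow b z j s.rev.rev) ≤ 0 := by
    intro c h0 h1
    have k1 := keep_twoE (zs := zs) (nb := nb) (z := z) (p := p) (c := c) hb D.adj hi
    have k2 := keep_one (zs := zs) (nb := nb) (z := z) (p := p) (c := c) hb B hj
    have := D.star hb hN.ok.1 hM h0 (by rw [hXM]; exact h1) k1 k2
    rw [D.own, D.opp, hm, ht] at this
    unfold tgo at this
    rw [D.Tj, ht, neg_mul] at this
    unfold MKA.G1
    exact this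
  obtain ⟨c, h0, h1, h2⟩ := MKA.row1 (x := x) (T := Th b zs h i) (y := (Ow b z j s.rev.rev).re)
    (t := (Ow b z j s.rev.rev).im) D.x0.le hx1.le D.T0 (by linarith only [hTj]) (by
      rcases MKA.one_pos hb L.L A' hj P with h3 | ⟨-, -, h3⟩
      · exact Or.inl h3
      · exact Or.inr h3)
  exact absurd h2 (not_lt.2 (key c h0 h1))

/-- **Modes `1 | 2e`.** -/
theorem kd_one_twoE (hb : ClassW b) (L : LocA b zs) (s : Fin 3) : Kd b zs .one .twoE s := by
  intro R nb z p h i j x hN hM hq D hi hj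
  obtain ⟨hXM, ht, hm⟩ := MKA.par_twoE D.adj (Or.inr ⟨hi, hj⟩)
  have B := D.adj.symm
  obtain ⟨h', j', A'⟩ := D.adj.other' b (clsW_inner hb (Or.inl hi))
  have P := hM.npos hb hN hq D.adj D.nn A'
  obtain ⟨-, hT1, -, -⟩ := L.X.win D.adj A' hi
  have hT0 := D.T0
  have hx1 := D.x1
  rw [hXM] at hx1
  -- the other neighbour is a `2` at an end
  have hP : clsW b j' = .twoE := by
    by_contra hc
    have hT1' : Th b zs h i ≤ (cw (clsW b j') (clsW b j)).t1 := hT1
    rw [hj] at hT1'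
    have hk := okp_of hb D.adj A' hi
    rcases hP : clsW b j' <;> rw [hP] at hT1' hc <;> simp only [cw] at hT1' <;>
      first | exact hc rfl | linarith only [hT0, hT1']
  rw [hj, hP] at hT1
  simp only [cw] at hT1
  have hT1' : Th b zs h i ≤ 1 / 1000 := hT1
  obtain ⟨hXM', ht', hm'⟩ := MKA.par_twoE A' (Or.inr ⟨hi, hP⟩)
  have hX0 := P.re
  rw [hXM'] at hX0
  have hTh := MKA.Th_one hb L.L A' hi
  have him := P.abs_im hTh fun _ => ⟨(hm' _).le, (hm' _).le⟩
  rw [ht'] at him
  have key : ∀ c, 0 ≤ c → c ≤ 700 / 1000 →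
      MKA.G2 c (Th b zs h i) x (Ow b z i s.rev) ≤ 0 := by
    intro c h0 h1
    have k1 := keep_one (zs := zs) (nb := nb) (z := z) (p := p) (c := c) hb D.adj hi
    have k2 := keep_twoE (zs := zs) (nb := nb) (z := z) (p := p) (c := c) hb B hj
    have := D.star hb hN.ok.1 hM h0 (by rw [hXM]; exact h1) k1 k2
    rw [D.own, D.opp, hm, ht] at this
    unfold tgo at this
    rw [D.Tj, ht, neg_mul] at this
    unfold MKA.G2
    exact this
  obtain ⟨c, h0, h1, h2⟩ := MKA.row2 (x := x) (T := Th b zs h i) (y := (Ow b z i s.rev).re)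
    (t := (Ow b z i s.rev).im) D.x0.le hx1.le hT0 hT1' hX0.1 hX0.2 (MKA.theta him)
  exact absurd h2 (not_lt.2 (key c h0 h1))

end Pool.Agent.Work.MP_b30479_gt.G2
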