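import Pool.Agent.Work.MP_b30479_gt.G2.WMRN
import Pool.Agent.Work.MP_b30479_gt.G2.WMR1

/-!
# Mirrored paths: kinds of hinges from the statements `Two`, `One`
-/

namespace Pool.Agent.Work.MP_b30479_gt.G2

open Finset VOL Filter Topology

namespace SR

variable {M : ℕ} {b : Fin (M + 1) → ℤ} {zs : DD (tyW b) ⊕ ZZ (tyW b) → ℂ}
variable {R : Finset (DD (tyW b))} {nb : Finset (DD (tyW b) ⊕ ZZ (tyW b))}
variable {z : DD (tyW b) ⊕ ZZ (tyW b) → ℂ} {p : DD (tyW b) → ℝ}
variable {h h' : Fin M} {i j j' : Fin (M + 1)} {s : Fin 3} {x c : ℝ}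

theorem V3_sub (u l w w' : ℂ) : V3 u l w' - V3 u l w = V2 w' l - V2 w l := by
  unfold V3 V2
  simp only [Complex.add_im, Complex.sub_im, pow_two, Complex.mul_im, Complex.sub_re,
    Complex.re_ofNat, Complex.im_ofNat, Complex.mul_re]
  rw [add_comm w' l, add_comm w l]
  ring

/-- gain of a region with the value `V2`, own side of the mode -/
theorem gain_own (D : Md b zs nb z p h i s j x) (h16 : mhs b h s = 16 / 100) (Y : ℂ) :
    V2 (tgo b zs h i c) Y - V2 (Ow b z i s) Y =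
      KR.gg c (-(Th b zs h i * trh b h c)) x (-(16 / 100 * trh b h x)) Y.re Y.im := by
  have h1 := KR.gg_eq c (-(Th b zs h i * trh b h c)) x (-(16 / 100 * trh b h x)) Y.re Y.im
  rw [neg_neg] at h1
  rw [D.own, h16]
  exact h1

theorem gain_opp (D : Md b zs nb z p h i s j x) (h16 : mhs b h s = 16 / 100) (Y : ℂ) :
    V2 (tgo b zs h j c) Y - V2 (Ow b z j s.rev) Y =
      KR.gg c (Th b zs h i * trh b h c) x (16 / 100 * trh b h x) Y.re Y.im := by
  have h1 := KR.gg_eq c (Th b zs h i * trh b h c) x (16 / 100 * trh b h x) Y.re Y.im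
  rw [D.opp, h16]
  unfold tgo
  rw [D.Tj, neg_mul]
  exact h1

theorem gain_own0 (D : Md b zs nb z p h i s j x) (h16 : mhs b h s = 16 / 100) :
    V2 (tgo b zs h i c) 0 - V2 (Ow b z i s) 0 =
      KR.g0 c (-(Th b zs h i * trh b h c)) x (-(16 / 100 * trh b h x)) := by
  have h1 := KR.g0_eq c (-(Th b zs h i * trh b h c)) x (-(16 / 100 * trh b h x))
  rw [neg_neg] at h1
  rw [D.own, h16]
  exact h1

theorem trh_eq {XM cl cr : ℝ} (h1 : wXM b h = XM ∧ wcl b h = cl ∧ wcr b h = cr) (y : ℝ) :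
    trh b h y = tr 0 XM cl cr y := by
  unfold trh
  rw [h1.1, h1.2.1, h1.2.2]

/-- two regions with the value `V2` -/
theorem Md.two (hb : ClassW b) (hN : NbT b R nb) (hM : MM b zs R nb z p)
    (D : Md b zs nb z p h i s j x) {XM cl cr : ℝ}
    (h1 : wXM b h = XM ∧ wcl b h = cl ∧ wcr b h = cr) (h16 : mhs b h s = 16 / 100) {Y Y' : ℂ}
    (k1 : ∀ c : ℝ, SideG b zs nb z p h i (tg b zs h c) (V2 (tgo b zs h i c) Y - V2 (Ow b z i s) Y))
    (k2 : ∀ c : ℝ, SideG b zs nb z p h j (tg b zs h c)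
      (V2 (tgo b zs h j c) Y' - V2 (Ow b z j s.rev) Y'))
    (r : KR.Two XM cl cr (Th b zs h i) x Y.re Y.im Y'.re Y'.im) : False := by
  obtain ⟨c, c0, c1, g⟩ := r
  have h2 := D.star hb hN.ok.1 hM c0 (by rw [h1.1]; exact c1) (k1 c) (k2 c)
  rw [gain_own D h16, gain_opp D h16, h16] at h2
  rw [trh_eq h1, trh_eq h1] at h2
  linarith

/-- an end with two crossings and a region with the value `V2` -/
theorem Md.one (hb : ClassW b) (hN : NbT b R nb) (hM : MM b zs R nb z p)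
    (D : Md b zs nb z p h i s j x) {XM cl cr : ℝ}
    (h1 : wXM b h = XM ∧ wcl b h = cl ∧ wcr b h = cr) (h16 : mhs b h s = 16 / 100)
    (hi : clsW b i = .twoE) {Y' : ℂ}
    (k2 : ∀ c : ℝ, SideG b zs nb z p h j (tg b zs h c)
      (V2 (tgo b zs h j c) Y' - V2 (Ow b z j s.rev) Y'))
    (r : KR.One XM cl cr (Th b zs h i) x Y'.re Y'.im) : False := by
  obtain ⟨c, c0, c1, g⟩ := r
  have h2 := D.star hb hN.ok.1 hM c0 (by rw [h1.1]; exact c1)
    (keep_twoE (c := c) hb D.adj hi) (k2 c)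
  rw [gain_own0 D h16, gain_opp D h16, h16] at h2
  rw [trh_eq h1, trh_eq h1] at h2
  linarith

/-- the side of an interior region with three crossings, hinge in the slot `2` -/
theorem side_three2 (hb : ClassW b) (A : Adj h i 2 j) (hc : clsW b i = .three) (c : ℝ) :
    SideG b zs nb z p h i (tg b zs h c)
      (V2 (tgo b zs h i c) (Ow b z i 1) - V2 (Ow b z i 2) (Ow b z i 1)) := by
  have h1 := keep_three2 (zs := zs) (nb := nb) (z := z) (p := p) (c := c) hb A hc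
  rwa [V3_sub] at h1

/-- **Kind `2 | 2`.** -/
theorem par_two_two (A : Adj h i s j) (hi : clsW b i = .two) (hj : clsW b j = .two) :
    wXM b h = 60 / 100 ∧ wcl b h = 10 / 100 ∧ wcr b h = 28 / 100 := by
  unfold wXM wcl wcr
  cases A
  · rw [hi, hj]; exact ⟨rfl, rfl, rfl⟩
  · rw [hi, hj]; exact ⟨rfl, rfl, rfl⟩

theorem par_twoE_two (A : Adj h i s j) (hi : clsW b i = .twoE) (hj : clsW b j = .two) :
    wXM b h = 60 / 100 ∧ wcl b h = 10 / 100 ∧ wcr b h = 33 / 100 := by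
  unfold wXM wcl wcr
  cases A
  · rw [hi, hj]; exact ⟨rfl, rfl, rfl⟩
  · rw [hi, hj]; exact ⟨rfl, rfl, rfl⟩

theorem par_three2 (A : Adj h i 2 j) (hi : clsW b i = .three) (hj : clsW b j ≠ .one) :
    wXM b h = 60 / 100 ∧ wcl b h = 13 / 100 ∧ wcr b h = 30 / 100 := by
  unfold wXM wcl wcr
  cases A
  rw [hi]
  rcases hk : clsW b h.succ
  case one => exact absurd hk hj
  all_goals exact ⟨rfl, rfl, rfl⟩

/-- no region with three crossings in the slot `0` -/
theorem mhs_adj (A : Adj h i s j) (h1 : ¬ (s = 0 ∧ clsW b i = .three))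
    (h2 : ¬ (s = 2 ∧ clsW b j = .three)) (q : Fin 3) : mhs b h q = 16 / 100 := by
  apply mhs_16
  cases A
  · exact fun h3 => h2 ⟨rfl, h3⟩
  · exact fun h3 => h1 ⟨rfl, h3⟩

end SR

end Pool.Agent.Work.MP_b30479_gt.G2
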