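import Pool.Agent.Work.MP_b30479_gt.G2.MJG
import Pool.Agent.Work.MP_b30479_gt.G2.MKD
import Pool.Agent.Work.MP_b30479_gt.G2.WMRK

/-!
# Mirrored paths, kind `1 | 2`: positions of the other hinge of the digit `1`
-/

namespace Pool.Agent.Work.MP_b30479_gt.G2

open Finset VOL Filter Topology SR NumG

variable {M : ℕ} {b : Fin (M + 1) → ℤ} {zs : DD (tyW b) ⊕ ZZ (tyW b) → ℂ}
variable {R : Finset (DD (tyW b))} {nb : Finset (DD (tyW b) ⊕ ZZ (tyW b))}
variable {z : DD (tyW b) ⊕ ZZ (tyW b) → ℂ} {p : DD (tyW b) → ℝ}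
variable {h h' : Fin M} {i j j' : Fin (M + 1)} {s q : Fin 3} {x c : ℝ}

namespace K12

/-- from bounds by multiples of the ramp function -/
theorem pa_of {T : ℝ} {X : ℂ} (Hu Hd XM cl cr : ℝ) (hT : T ≤ 8 / 100)
    (hre : 0 ≤ X.re ∧ X.re ≤ wXM b h) (hX : wXM b h ≤ XM ∧ cl ≤ wcl b h ∧ cr ≤ wcr b h)
    (h2 : X.im ≤ Hu * trh b h X.re) (h1 : -X.im ≤ Hd * trh b h X.re) (hXM : XM ≤ 86 / 100)
    (u1 : Hu ≤ 16 / 100) (u2 : 15 / 16 * Hu ≤ cl) (u3 : 20 / 16 * Hu ≤ cr) (d1 : Hd ≤ 16 / 100)
    (d2 : 13 / 16 * Hd ≤ cl) (d3 : 20 / 16 * Hd ≤ cr) : K12.PA T X.re X.im := by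
  obtain ⟨t0, t1, t2, t3⟩ := trh_ub (b := b) h hre.1 hre.2
  have e2 := mul_le_mul_of_nonneg_right hX.2.1 t0
  have e3 := mul_le_mul_of_nonneg_right hX.2.2 t0
  rcases le_total 0 X.im with h0 | h0
  · have f1 := mul_le_mul_of_nonneg_right u1 t0
    have f2 := mul_le_mul_of_nonneg_right u2 t0
    have f3 := mul_le_mul_of_nonneg_right u3 t0
    exact pa_u hT hre.1 (by linarith only [hre, hX, hXM, hre.2, hX.1]) h0 (by linarith only [h2, t1, f1]) (by linarith only [h2, t2, e2, f2])
      (by linarith only [hX, h2, hXM, t3, e3, f3, hX.1])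
  · have f1 := mul_le_mul_of_nonneg_right d1 t0
    have f2 := mul_le_mul_of_nonneg_right d2 t0
    have f3 := mul_le_mul_of_nonneg_right d3 t0
    exact pa_d hT hre.1 (by linarith only [hre, hX, hXM, hre.2, hX.1]) h0 (by linarith only [h1, t1, f1]) (by linarith only [h1, t2, e2, f2])
      (by linarith only [hX, h1, hXM, t3, e3, f3, hX.1])

/-- positions at a hinge with the main path above -/
theorem pos_two {X : ℂ} (P : NPos b zs nb p h i s X) {Hu Hd : ℝ} (T0 : 0 < Th b zs h i)
    (T1 : Th b zs h i ≤ Hu) (d0 : 0 ≤ Hd) (h2 : ¬ RH1 b (.inl h) → mhs b h s ≤ Hd) :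
    X.im ≤ Hu * trh b h X.re ∧ -X.im ≤ Hd * trh b h X.re := by
  have ht := trh_mem (b := b) h X.re
  have u0 : 0 ≤ Hu := by linarith only [T0, T1]
  cases P with
  | main y y0 y1 hn e hp =>
    rw [e] at ht ⊢
    have a1 := mul_le_mul_of_nonneg_right T1 ht.1
    have a2 := mul_nonneg T0.le ht.1
    have a3 := mul_nonneg d0 ht.1
    simp only at a1 a2 a3 ⊢
    exact ⟨a1, by linarith only [a2, a3]⟩
  | real y y0 y1 hn e hp =>
    rw [e] at ht ⊢
    simp only [neg_zero]
    exact ⟨mul_nonneg u0 ht.1, mul_nonneg d0 ht.1⟩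
  | up y y0 y1 hn hr hT e hp => exact absurd hT (not_le.2 T0)
  | dn y y0 y1 hn hr hT e hp =>
    rw [e] at ht ⊢
    have a1 := mul_le_mul_of_nonneg_right (h2 hr) ht.1
    have a2 := mul_nonneg (mhs_pos (b := b) h s).le ht.1
    have a3 := mul_nonneg u0 ht.1
    simp only [neg_neg] at a1 a2 a3 ⊢
    exact ⟨by linarith only [a2, a3], a1⟩

/-- **The other hinge of a digit `1` next to a digit `2`.** -/
theorem k1_pos (hb : ClassW b) (L : LocA b zs) (hN : NbT b R nb) (hM : MM b zs R nb z p)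
    (hq : ∀ h : Fin M, RH1 b (.inl h) → p (.inl h) = 0) (A : Adj h i s j)
    (hn : Sum.inl (Sum.inl h) ∉ nb) (A' : Adj h' i s.rev j') (hi : clsW b i = .one)
    (hj : clsW b j = .two) :
    K12.PA (Th b zs h i) (Ow b z i s.rev).re (Ow b z i s.rev).im := by
  have P := hM.npos hb hN hq A hn A'
  have hre := P.re
  obtain ⟨-, hT, -, -⟩ := L.X.win A A' hi
  have A2 : Adj h i s.rev.rev j := by rwa [Fin.rev_rev]
  obtain ⟨hU0, hU1, -, -⟩ := L.X.win A' A2 hi
  have hT' : Th b zs h i ≤ (cw (clsW b j') (clsW b j)).t1 := hT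
  have hU0' : (cw (clsW b j) (clsW b j')).t0 ≤ Th b zs h' i := hU0
  have hU1' : Th b zs h' i ≤ (cw (clsW b j) (clsW b j')).t1 := hU1
  have hT0' : (cw (clsW b j') (clsW b j)).t0 ≤ Th b zs h i := (L.X.win A A' hi).1
  clear hT hU0 hU1
  rw [hj] at hT' hU0' hU1' hT0'
  have ht := trh_ub (b := b) h' hre.1 hre.2
  rcases hC : clsW b j' <;> rw [hC] at hT' hU0' hU1' hT0' <;>
    simp only [cw] at hT' hU0' hU1' hT0'
  case one =>
    obtain ⟨e1, e2, e3⟩ := par_one_one A' hi hC
    have hm : ∀ q, mhs b h' q = 16 / 100 := mhs_adj A' (by rw [hi]; simp) (by rw [hC]; simp)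
    have h2 := P.two (Hu := 16 / 100) (Hd := 16 / 100) (by norm_num) (by norm_num) (by linarith only [hU1'])
      (by linarith only [hU0']) fun _ => ⟨(hm _).le, (hm _).le⟩
    exact pa_of _ _ (86 / 100) (15 / 100) (20 / 100) (by linarith only [hT']) hre ⟨e1, e2.ge, e3.ge⟩
      h2.1 h2.2 le_rfl (by norm_num) (by norm_num) (by norm_num) (by norm_num) (by norm_num)
      (by norm_num)
  case two =>
    obtain ⟨e1, e2, e3⟩ := par_one_two A' (Or.inl ⟨hi, hC⟩)
    have hm : ∀ q, mhs b h' q = 16 / 100 := mhs_adj A' (by rw [hi]; simp) (by rw [hC]; simp)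
    have h2 := P.two (Hu := 16 / 100) (Hd := 16 / 100) (by norm_num) (by norm_num) (by linarith only [hU1'])
      (by linarith only [hU0']) fun _ => ⟨(hm _).le, (hm _).le⟩
    exact pa_of _ _ (80 / 100) (16 / 100) (29 / 100) (by linarith only [hT']) hre ⟨e1.le, e2.ge, e3.ge⟩
      h2.1 h2.2 (by norm_num) (by norm_num) (by norm_num) (by norm_num) (by norm_num)
      (by norm_num) (by norm_num)
  case twoE =>
    obtain ⟨e1, e2, e3⟩ := par_one_twoE A' hi hC
    have hp0 : p (.inl h') = 0 := p_zero hb hN hM A' (by rw [hi]; decide) (by rw [hC]; decide)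
      (fun x D => kd_one_twoE hb L _ hN hM hq D hi hC)
      (fun x D => kd_twoE_one hb L _ hN hM hq D hC hi)
    obtain ⟨f1, f2⟩ := flat P hp0 (lo := -(49 / 1000)) (hi := 0) (by norm_num) le_rfl
      (by linarith only [hU0']) (by linarith only [hU1'])
    rcases le_total (Th b zs h i) (8 / 100) with h8 | h8
    · exact pa_of 0 (49 / 1000) (70 / 100) (14 / 100) (35 / 100) h8 hre
        ⟨e1.le, e2.ge, e3.ge⟩ f2 (by linarith only [f1]) (by norm_num) (by norm_num) (by norm_num)
        (by norm_num) (by norm_num) (by norm_num) (by norm_num)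
    · rw [e1, e2, e3] at ht
      rw [e1] at hre
      refine pa_h h8 hre.1 (by linarith only [hre, hre.2]) (fun h0 => ?_) fun h0 => ?_
      · refine ⟨?_, ?_, ?_⟩ <;> linarith only [f2, hre, hre.2]
      · refine ⟨?_, ?_, ?_⟩ <;> linarith only [ht, f1, hre, ht.2.1]
  case three =>
    rcases A'.slot with hs | hs
    · -- the `3` is to the left
      rw [hs] at A' P hre ⊢
      obtain ⟨e1, e2, e3⟩ := par_one_three0 A' hi hC
      have hm : ∀ q, mhs b h' q = 16 / 100 := mhs_adj A' (by rw [hi]; simp) (by simp)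
      have h2 := pos_two P (Hu := 94 / 1000) (Hd := 16 / 100) (by linarith only [hU0']) (by linarith only [hU1'])
        (by norm_num) fun _ => (hm _).le
      exact pa_of _ _ (65 / 100) (15 / 100) (29 / 100) (by linarith only [hT']) hre ⟨e1.le, e2.ge, e3.ge⟩
        h2.1 h2.2 (by norm_num) (by norm_num) (by norm_num) (by norm_num) (by norm_num)
        (by norm_num) (by norm_num)
    · -- the `3` is to the right
      rw [hs] at A' P hre ⊢
      obtain ⟨e1, e2, e3⟩ := par_one_three2 A' hi hC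
      have htr : ∀ y, trh b h' y = K12.tR 650 130 150 y := by
        intro y
        unfold K12.tR trh
        rw [e1, e2, e3]
        norm_num
      have hmain : p (.inl h') = 0 → K12.PA (Th b zs h i) (Ow b z i 2).re (Ow b z i 2).im := by
        intro hp0
        obtain ⟨f1, f2⟩ := flat P hp0 (lo := 0) (hi := 94 / 1000) le_rfl (by norm_num)
          (by linarith only [hU0']) (by linarith only [hU1'])
        exact pa_of (94 / 1000) 0 (65 / 100) (13 / 100) (15 / 100) (by linarith only [hT']) hre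
          ⟨e1.le, e2.ge, e3.ge⟩ f2 (by linarith only [f1]) (by norm_num) (by norm_num) (by norm_num)
          (by norm_num) (by norm_num) (by norm_num) (by norm_num)
      cases P with
      | main y y0 y1 hn e hp => exact hmain hp
      | real y y0 y1 hn e hp => exact hmain hp
      | up y y0 y1 hn hr hT e hp => linarith only [hU0', hT]
      | dn y y0 y1 hn hr hT e hp =>
        have hm : mhs b h' 2 = 1 / 2 := by
          unfold mhs
          cases A'
          rw [hi, hC]
          simp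
        rw [hm, htr] at e
        rw [e]
        exact .t (by linarith only [hT0']) (by linarith only [hT']) y0 (by simp only; linarith only [e1, y1]) rfl
  case threeE =>
    obtain ⟨e1, e2, e3⟩ := par_one_threeE A' hi hC
    have hm : ∀ q, mhs b h' q = 16 / 100 := mhs_adj A' (by rw [hi]; simp) (by rw [hC]; simp)
    have h2 := pos_two P (Hu := 59 / 1000) (Hd := 16 / 100) (by linarith only [hU0']) (by linarith only [hU1'])
      (by norm_num) fun _ => (hm _).le
    rcases le_total (Th b zs h i) (8 / 100) with h8 | h8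
    · exact pa_of _ _ (60 / 100) (14 / 100) (25 / 100) h8 hre ⟨e1.le, e2.ge, e3.ge⟩
        h2.1 h2.2 (by norm_num) (by norm_num) (by norm_num) (by norm_num) (by norm_num)
        (by norm_num) (by norm_num)
    · rw [e1, e2, e3] at ht
      rw [e1] at hre
      refine pa_h h8 hre.1 (by linarith only [hre, hre.2]) (fun h0 => ?_) fun h0 => ?_
      · refine ⟨?_, ?_, ?_⟩ <;> linarith only [ht, h2, hre, ht.1, ht.2.1, ht.2.2.1, ht.2.2.2, h2.1]
      · refine ⟨?_, ?_, ?_⟩ <;> linarith only [ht, h2, ht.1, ht.2.1, ht.2.2.1, ht.2.2.2, h2.2]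
  case ring =>
    obtain ⟨e1, e2, e3⟩ := par_one_ring A' hi hC
    have h2 := pos_two P (Hu := 145 / 1000) (Hd := 0) (by linarith only [hU0']) (by linarith only [hU1']) le_rfl
      fun hr => absurd ((adj_ring A').2 (Or.inr hC)) hr
    exact pa_of _ _ (65 / 100) (16 / 100) (29 / 100) (by linarith only [hT']) hre ⟨e1.le, e2.ge, e3.ge⟩
      h2.1 h2.2 (by norm_num) (by norm_num) (by norm_num) (by norm_num) (by norm_num)
      (by norm_num) (by norm_num)

end K12

end Pool.Agent.Work.MP_b30479_gt.G2
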