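import Pool.Agent.Work.MP_b30479_gt.G2.WMMN
import Pool.Agent.Work.MP_b30479_gt.G2.M3N

/-!
# Mirrored paths: responses of the far sides

`FarG`: what is gained behind the hinge `h'` of a region if this hinge is kept or moved.  The star
moves with responses in several regions, the star move of the inner variable.
-/

namespace Pool.Agent.Work.MP_b30479_gt.G2

open Finset VOL Filter Topology

namespace SR

variable {M : ℕ} {b : Fin (M + 1) → ℤ} {zs : DD (tyW b) ⊕ ZZ (tyW b) → ℂ}
variable {R : Finset (DD (tyW b))} {nb : Finset (DD (tyW b) ⊕ ZZ (tyW b))}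
variable {z : DD (tyW b) ⊕ ZZ (tyW b) → ℂ} {p : DD (tyW b) → ℝ}
variable {h h' h0 h2 : Fin M} {i j j' j0 j2 : Fin (M + 1)} {s : Fin 3} {x c : ℝ}

/-- **Gain behind the hinge `h'`** (the regions on the side of `j'`), the hinge at `X`; the penalty
of `h'` is included. -/
def FarG (b : Fin (M + 1) → ℤ) (zs : DD (tyW b) ⊕ ZZ (tyW b) → ℂ)
    (nb : Finset (DD (tyW b) ⊕ ZZ (tyW b))) (z : DD (tyW b) ⊕ ZZ (tyW b) → ℂ)
    (p : DD (tyW b) → ℝ) (h' : Fin M) (j' : Fin (M + 1)) (X : ℂ) (f : ℝ) : Prop :=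
  ∃ (z' : DD (tyW b) ⊕ ZZ (tyW b) → ℂ) (p' : DD (tyW b) → ℝ), z' (.inl (.inl h')) = X ∧
    (∀ v, (z' v ≠ z v ∨ pe p' v ≠ pe p v) → v ∉ nb ∧ OnP b zs v (z' v) (pe p' v) ∧
      (v = .inl (.inl h') ∨ ∀ m, m ∉ sideR h' j' → ∀ q, cf (tyW b) m q v = 0)) ∧
    f ≤ ∑ m ∈ sideR h' j', (OV b m (Ow b z' m) - OV b m (Ow b z m)) -
      2 * Real.pi * (∑ k, p' k - ∑ k, p k)

/-- the hinge is kept -/
theorem FarG.keep (h' : Fin M) (j' : Fin (M + 1)) :
    FarG b zs nb z p h' j' (z (.inl (.inl h'))) 0 := by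
  refine ⟨z, p, rfl, ?_, ?_⟩
  · intro v hv
    simp at hv
  · simp

theorem FarG.mono {X : ℂ} {f f' : ℝ} (hg : FarG b zs nb z p h' j' X f) (h1 : f' ≤ f) :
    FarG b zs nb z p h' j' X f' := by
  obtain ⟨z1, p1, e1, c1, k1⟩ := hg
  exact ⟨z1, p1, e1, c1, h1.trans k1⟩

open Classical in
/-- the hinge is moved to a point of the main path -/
theorem FarG.move (hn : Sum.inl (Sum.inl h') ∉ nb) {X : ℂ}
    (hX : OnP b zs (.inl (.inl h')) X 0) {g : ℝ} (k : SideG b zs nb z p h' j' X g) :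
    FarG b zs nb z p h' j' X (g + 2 * Real.pi * p (.inl h')) := by
  obtain ⟨z1, p1, e1, c1, k1⟩ := k
  refine ⟨z1, Function.update p1 (.inl h') 0, e1, ?_, ?_⟩
  · intro v hv
    by_cases hvh : v = .inl (.inl h')
    · subst hvh
      refine ⟨hn, ?_, Or.inl rfl⟩
      have : pe (Function.update p1 (.inl h') 0) (.inl (.inl h')) = 0 := by simp [pe]
      rw [this, e1]
      exact hX
    · have e : pe (Function.update p1 (.inl h') 0) v = pe p1 v := by
        rcases v with k | v
        · have : k ≠ Sum.inl h' := by simpa using hvh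
          simp [pe, Function.update_of_ne this]
        · rfl
      rw [e] at hv ⊢
      obtain ⟨a1, a2, a3⟩ := c1 v hvh hv
      exact ⟨a1, a2, Or.inr a3⟩
  · have hs : ∀ q : DD (tyW b) → ℝ, ∑ k, q k = q (.inl h') + pex h' q := fun q =>
      (Finset.add_sum_erase univ q (Finset.mem_univ _)).symm
    have e : pex h' (Function.update p1 (.inl h') 0) = pex h' p1 := by
      unfold pex
      refine Finset.sum_congr rfl fun k hk => ?_
      rw [Function.update_of_ne (Finset.ne_of_mem_erase hk)]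
    rw [hs (Function.update p1 (.inl h') 0), hs p, e, Function.update_self]
    linarith

/-! ### sides -/

theorem Adj.sideR_eq (A : Adj h i s j) (A' : Adj h' i s.rev j') :
    sideR h i = insert i (sideR h' j') ∧ i ∉ sideR h' j' := by
  cases A with
  | l =>
    generalize hi' : h.castSucc = i' at A'
    generalize hs' : (2 : Fin 3).rev = s' at A'
    cases A' with
    | l => exact absurd hs' (by decide)
    | r =>
      have e1 : h.val = h'.val + 1 := by
        have := congrArg Fin.val hi'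
        simpa using this
      rw [← hi', sideR_l, sideR_l]
      constructor
      · ext m
        simp only [Finset.mem_filter, Finset.mem_univ, true_and, Finset.mem_insert]
        rw [Fin.le_def, Fin.le_def, Fin.ext_iff]
        simp
        omega
      · simp only [Finset.mem_filter, Finset.mem_univ, true_and]
        rw [Fin.le_def]
        simp
        omega
  | r =>
    generalize hi' : h.succ = i' at A'
    generalize hs' : (0 : Fin 3).rev = s' at A'
    cases A' with
    | r => exact absurd hs' (by decide)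
    | l =>
      have e1 : h'.val = h.val + 1 := by
        have := congrArg Fin.val hi'
        simpa using this.symm
      rw [← hi', sideR_r, sideR_r]
      constructor
      · ext m
        simp only [Finset.mem_filter, Finset.mem_univ, true_and, Finset.mem_insert]
        rw [Fin.lt_def, Fin.lt_def, Fin.ext_iff]
        simp
        omega
      · simp only [Finset.mem_filter, Finset.mem_univ, true_and]
        rw [Fin.lt_def]
        simp
        omega

/-- the regions around the hinge `h'` -/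
theorem cf_hinge_side (A' : Adj h' i s j') {m : Fin (M + 1)} (h1 : m ≠ i) (h2 : m ≠ j')
    (q : Fin 3) : cf (tyW b) m q (.inl (.inl h')) = 0 := by
  cases A'
  · exact cf_hinge_zero h1 h2 q
  · exact cf_hinge_zero h2 h1 q

theorem Adj.mem_far (A' : Adj h' i s j') : j' ∈ sideR h' j' ∧ i ∉ sideR h' j' := by
  have := A'.symm.mem_side
  exact this

/-- **One side, the other hinge of the region responds** together with everything behind it, and
one more variable `v0` of the region. -/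
theorem SideG.far (A : Adj h i s j) (A' : Adj h' i s.rev j') (u : ℂ) {X : ℂ} {f : ℝ}
    (F : FarG b zs nb z p h' j' X f) (v0 : Option (DD (tyW b) ⊕ ZZ (tyW b))) (ζ : ℂ) (q : ℝ)
    (hv : ∀ v ∈ v0, v ∉ nb ∧ OnP b zs v ζ (qe v q) ∧ cf (tyW b) i 1 v ≠ 0 ∧
      (∀ m, m ≠ i → ∀ q', cf (tyW b) m q' v = 0)) :
    ∃ z' : DD (tyW b) ⊕ ZZ (tyW b) → ℂ, z' (.inl (.inl h)) = u ∧ z' (.inl (.inl h')) = X ∧
      (∀ v ∈ v0, z' v = ζ) ∧
      (∀ v, v ≠ .inl (.inl h) → v ≠ .inl (.inl h') → v ∉ v0 → ∀ q', cf (tyW b) i q' v ≠ 0 →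
        z' v = z v) ∧
      SideG b zs nb z p h i u (OV b i (Ow b z' i) - OV b i (Ow b z i) + f -
        2 * Real.pi * (v0.elim 0 fun v => qe v q - pe p v)) := by
  classical
  obtain ⟨z1, p1, e1, c1, k1⟩ := F
  obtain ⟨hsd, hnot⟩ := A.sideR_eq A'
  have hne : (Sum.inl (Sum.inl h') : DD (tyW b) ⊕ ZZ (tyW b)) ≠ .inl (.inl h) := by
    simpa using (A.side2 (b := b) A').2.1
  -- the variables
  have hv0h : ∀ v ∈ v0, v ≠ .inl (.inl h) ∧ v ≠ .inl (.inl h') := by
    intro v hv'
    obtain ⟨-, -, a3, -⟩ := hv v hv'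
    constructor
    · rintro rfl
      simp [cf] at a3
    · rintro rfl
      simp [cf] at a3
  have hc1 : ∀ v, (z1 v ≠ z v ∨ pe p1 v ≠ pe p v) → v ≠ .inl (.inl h') → ∀ q', cf (tyW b) i q' v = 0 := by
    intro v hv' hvh q'
    rcases (c1 v hv').2.2 with h3 | h3
    · exact absurd h3 hvh
    · exact h3 i hnot q'
  set z2 : DD (tyW b) ⊕ ZZ (tyW b) → ℂ := fun v => if v = .inl (.inl h) then u else
    if v ∈ v0 then ζ else z1 v with hz2
  set p2 : DD (tyW b) → ℝ := fun k => if (Sum.inl k : DD (tyW b) ⊕ ZZ (tyW b)) ∈ v0 then q else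
    if k = Sum.inl h then p k else p1 k with hp2
  have hzh : z2 (.inl (.inl h)) = u := by simp [hz2]
  have hzh' : z2 (.inl (.inl h')) = X := by
    rw [hz2]
    simp only
    rw [if_neg hne, if_neg (fun hh => (hv0h _ hh).2 rfl), e1]
  have hzv : ∀ v ∈ v0, z2 v = ζ := by
    intro v hv'
    rw [hz2]
    simp only
    rw [if_neg (hv0h v hv').1, if_pos hv']
  have hzo : ∀ v, v ≠ .inl (.inl h) → v ∉ v0 → z2 v = z1 v := by
    intro v h3 h4
    rw [hz2]
    simp only
    rw [if_neg h3, if_neg h4]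
  have hpe : ∀ v, v ≠ .inl (.inl h) → v ∉ v0 → pe p2 v = pe p1 v := by
    intro v h3 h4
    rcases v with k | v
    · show p2 k = p1 k
      rw [hp2]
      simp only
      rw [if_neg h4, if_neg (by simpa using h3)]
    · rfl
  have hz1i : ∀ v, v ≠ .inl (.inl h') → ∀ q', cf (tyW b) i q' v ≠ 0 → z1 v = z v := by
    intro v h3 q' h4
    by_contra h5
    exact h4 (hc1 v (Or.inl h5) h3 q')
  refine ⟨z2, hzh, hzh', hzv, ?_, ?_⟩
  · intro v h3 h4 h5 q' h6
    rw [hzo v h3 h5]
    exact hz1i v h4 q' h6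
  refine ⟨z2, p2, hzh, ?_, ?_⟩
  · intro v hvh hch
    by_cases hv' : v ∈ v0
    · obtain ⟨a1, a2, a3, a4⟩ := hv v hv'
      refine ⟨a1, ?_, fun m hm q' => a4 m ?_ q'⟩
      · rw [hzv v hv']
        have : pe p2 v = qe v q := by
          rcases v with k | v
          · show p2 k = q
            rw [hp2]
            simp only
            rw [if_pos hv']
          · rfl
        rw [this]
        exact a2
      · rintro rfl
        exact hm (by rw [hsd]; exact Finset.mem_insert_self _ _)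
    · rw [hzo v hvh hv', hpe v hvh hv'] at hch ⊢
      obtain ⟨a1, a2, a3⟩ := c1 v hch
      refine ⟨a1, a2, fun m hm q' => ?_⟩
      rw [hsd, Finset.mem_insert, not_or] at hm
      rcases a3 with h3 | h3
      · subst h3
        refine cf_hinge_side A' hm.1 ?_ q'
        rintro rfl
        exact hm.2 A'.mem_far.1
      · exact h3 m hm.2 q'
  · -- the sum
    rw [hsd, Finset.sum_insert hnot]
    have hfar : ∀ m ∈ sideR h' j', Ow b z2 m = Ow b z1 m := by
      intro m hm
      refine Ow_congr m fun v hv' q' => ?_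
      have hmi : m ≠ i := fun e => hnot (e ▸ hm)
      by_cases h3 : v = .inl (.inl h)
      · subst h3
        refine sideR_hinge A ?_ hmi q'
        rw [hsd]
        exact Finset.mem_insert_of_mem hm
      · by_cases h4 : v ∈ v0
        · exact (hv v h4).2.2.2 m hmi q'
        · exact absurd (hzo v h3 h4) hv'
    have s1 : ∑ m ∈ sideR h' j', (OV b m (Ow b z2 m) - OV b m (Ow b z m)) =
        ∑ m ∈ sideR h' j', (OV b m (Ow b z1 m) - OV b m (Ow b z m)) :=
      Finset.sum_congr rfl fun m hm => by rw [hfar m hm]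
    rw [s1]
    -- penalties
    have hp1h : p1 (.inl h) = p (.inl h) := by
      by_contra h3
      have h4 := (c1 (.inl (.inl h)) (Or.inr h3)).2.2
      rcases h4 with h5 | h5
      · exact hne h5.symm
      · have h6 := h5 i hnot s
        exact A.cf_ne h6
    have hpen : pex h p2 - pex h p = (∑ k, p1 k - ∑ k, p k) +
        (v0.elim 0 fun v => qe v q - pe p v) := by
      have hs : ∀ q : DD (tyW b) → ℝ, ∑ k, q k = q (.inl h) + pex h q := fun q =>
        (Finset.add_sum_erase univ q (Finset.mem_univ _)).symm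
      rw [hs p1, hs p, hp1h]
      have : pex h p2 - pex h p1 = (v0.elim 0 fun v => qe v q - pe p v) := by
        unfold pex
        rw [← Finset.sum_sub_distrib]
        rcases v0 with _ | v
        · rw [Finset.sum_eq_zero]
          · rfl
          · intro k hk
            rw [hp2]
            simp only
            rw [if_neg (by simp), if_neg (Finset.ne_of_mem_erase hk), sub_self]
        · rcases v with k0 | v
          · have hk0 : k0 ≠ Sum.inl h := by
              have := (hv0h _ (Option.mem_some_self _)).1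
              simpa using this
            rw [Finset.sum_eq_single k0]
            · show p2 k0 - p1 k0 = q - p k0
              have h7 : p1 k0 = p k0 := by
                by_contra h3
                have h4 := (hv _ (Option.mem_some_self _)).2.2.1
                exact h4 (hc1 (.inl k0) (Or.inr h3) (hv0h _ (Option.mem_some_self _)).2 1)
              rw [hp2, h7]
              simp
            · intro k hk hkk
              rw [hp2]
              simp only
              rw [if_neg, if_neg (Finset.ne_of_mem_erase hk), sub_self]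
              simpa using fun e : k0 = k => hkk e.symm
            · intro h3
              exact absurd (Finset.mem_erase.2 ⟨hk0, Finset.mem_univ _⟩) h3
          · rw [Finset.sum_eq_zero]
            · show (0 : ℝ) = 0 - 0
              ring
            · intro k hk
              rw [hp2]
              simp only
              rw [if_neg (by simp), if_neg (Finset.ne_of_mem_erase hk), sub_self]
      linarith
    rw [hpen]
    linarith

/-! ### classes of regions -/

theorem ofr_z (A : Adj h i s j) : ofr (b i) (z (.inl (.inl h))) = Ow b z i s := (Ow_adj z A).symm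

/-- digit `1`, the other hinge responds (or is kept: `FarG.keep`) -/
theorem far_one (hb : ClassW b) (A : Adj h i s j) (A' : Adj h' i s.rev j') (hc : clsW b i = .one)
    {X : ℂ} {f : ℝ} (F : FarG b zs nb z p h' j' X f) :
    SideG b zs nb z p h i (tg b zs h c)
      (V1 (tgo b zs h i c) (ofr (b i) X) - V1 (Ow b z i s) (Ow b z i s.rev) + f) := by
  obtain ⟨z', e1, e2, -, -, S⟩ := SideG.far A A' (tg b zs h c) F none 0 0 (by simp)
  refine S.mono (le_of_eq ?_)
  have a1 : Ow b z' i s = tgo b zs h i c := by rw [Ow_adj z' A, e1, ofr_tg]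
  have a2 : Ow b z' i s.rev = ofr (b i) X := by rw [Ow_adj z' A', e2]
  rw [OV_one hb hc, OV_one hb hc, ← a1, ← a2]
  simp only [Option.elim]
  rcases A.slot with rfl | rfl
  · show V1 (Ow b z' i 0) (Ow b z' i 2) - V1 (Ow b z i 0) (Ow b z i 2) + f = _
    ring
  · show V1 (Ow b z' i 2) (Ow b z' i 0) - V1 (Ow b z i 2) (Ow b z i 0) + f = _
    rw [V1_comm, V1_comm (Ow b z i 2)]
    ring

/-- digit `2` -/
theorem far_two (hb : ClassW b) (A : Adj h i s j) (A' : Adj h' i s.rev j') (hc : clsW b i = .two)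
    {X : ℂ} {f : ℝ} (F : FarG b zs nb z p h' j' X f) :
    SideG b zs nb z p h i (tg b zs h c)
      (V2 (tgo b zs h i c) (ofr (b i) X) - V2 (Ow b z i s) (Ow b z i s.rev) + f) := by
  obtain ⟨z', e1, e2, -, -, S⟩ := SideG.far A A' (tg b zs h c) F none 0 0 (by simp)
  refine S.mono (le_of_eq ?_)
  have a1 : Ow b z' i s = tgo b zs h i c := by rw [Ow_adj z' A, e1, ofr_tg]
  have a2 : Ow b z' i s.rev = ofr (b i) X := by rw [Ow_adj z' A', e2]
  rw [OV_two hb (Or.inl hc) (Ow_endOk _ _), OV_two hb (Or.inl hc) (Ow_endOk _ _), ← a1, ← a2]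
  simp only [Option.elim]
  rcases A.slot with rfl | rfl
  · show V2 (Ow b z' i 0) (Ow b z' i 2) - V2 (Ow b z i 0) (Ow b z i 2) + f = _
    ring
  · show V2 (Ow b z' i 2) (Ow b z' i 0) - V2 (Ow b z i 2) (Ow b z i 0) + f = _
    rw [V2_comm, V2_comm (Ow b z i 2)]
    ring

theorem ofr_ptm (m : {i : Fin (M + 1) // (tyW b i).isMid = true}) (c' : ℝ) :
    ofr (b m.1) (pt 0 ((wpar b zs).XM (.inr m)) ((wpar b zs).cl (.inr m))
      ((wpar b zs).cr (.inr m)) (zs (.inl (.inr m))).im c') = tgi b zs m c' := by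
  apply Complex.ext
  · rw [ofr_re, ptm_re]
    rfl
  · rw [ofr_im, ptm_im, ofs_mulR]
    rfl

theorem inner_cond (m : {i : Fin (M + 1) // (tyW b i).isMid = true})
    (hn : Sum.inl (Sum.inr m) ∉ nb) {c' : ℝ} (h0 : 0 ≤ c') (h1 : c' ≤ (mp (clsW b m.1)).XM) :
    ∀ v ∈ (some (.inl (.inr m)) : Option (DD (tyW b) ⊕ ZZ (tyW b))), v ∉ nb ∧
      OnP b zs v (pt 0 ((wpar b zs).XM (.inr m)) ((wpar b zs).cl (.inr m))
      ((wpar b zs).cr (.inr m)) (zs (.inl (.inr m))).im c') (qe v 0) ∧ cf (tyW b) m.1 1 v ≠ 0 ∧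
      (∀ k, k ≠ m.1 → ∀ q', cf (tyW b) k q' v = 0) := by
  intro v hv
  obtain rfl : .inl (.inr m) = v := by simpa using hv
  refine ⟨hn, onP_main (.inr m) h0 h1, by simp [cf], ?_⟩
  intro k hk q'
  simp [cf, hk.symm]

/-- digit `3`, the hinge in the slot `0` is moved, the inner variable to `c'`, the hinge in the slot
`2` responds -/
theorem far_three0i (hb : ClassW b) (m : {i : Fin (M + 1) // (tyW b i).isMid = true})
    (A : Adj h m.1 0 j) (A' : Adj h' m.1 2 j') (hc : clsW b m.1 = .three)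
    (hn : Sum.inl (Sum.inr m) ∉ nb) {c' : ℝ} (h0 : 0 ≤ c') (h1 : c' ≤ 8 / 10) (u : ℂ)
    {X : ℂ} {f : ℝ} (F : FarG b zs nb z p h' j' X f) :
    SideG b zs nb z p h m.1 u
      (V3 (ofr (b m.1) u) (tgi b zs m c') (ofr (b m.1) X) -
        V3 (Ow b z m.1 0) (Ow b z m.1 1) (Ow b z m.1 2) + f + 2 * Real.pi * p (.inr m)) := by
  obtain ⟨z', e1, e2, e3, -, S⟩ := SideG.far A A' u F (some (.inl (.inr m)))
    (pt 0 ((wpar b zs).XM (.inr m)) ((wpar b zs).cl (.inr m))
      ((wpar b zs).cr (.inr m)) (zs (.inl (.inr m))).im c') 0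
    (inner_cond m hn h0 (by rw [hc]; exact h1))
  refine S.mono (le_of_eq ?_)
  have a1 : Ow b z' m.1 0 = ofr (b m.1) u := by rw [Ow_adj z' A, e1]
  have a2 : Ow b z' m.1 2 = ofr (b m.1) X := by rw [Ow_adj z' A', e2]
  have a3 : Ow b z' m.1 1 = tgi b zs m c' := by
    rw [Ow_inner, e3 _ rfl, ofr_ptm]
  rw [OV_three hb hc, OV_three hb hc, ← a1, ← a2, ← a3]
  simp only [Option.elim, qe, pe]
  ring

/-- digit `3`, the hinge in the slot `2` is moved, the inner variable to `c'`, the hinge in the slot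
`0` responds -/
theorem far_three2i (hb : ClassW b) (m : {i : Fin (M + 1) // (tyW b i).isMid = true})
    (A : Adj h m.1 2 j) (A' : Adj h' m.1 0 j') (hc : clsW b m.1 = .three)
    (hn : Sum.inl (Sum.inr m) ∉ nb) {c' : ℝ} (h0 : 0 ≤ c') (h1 : c' ≤ 8 / 10) (u : ℂ)
    {X : ℂ} {f : ℝ} (F : FarG b zs nb z p h' j' X f) :
    SideG b zs nb z p h m.1 u
      (V3 (ofr (b m.1) X) (tgi b zs m c') (ofr (b m.1) u) -
        V3 (Ow b z m.1 0) (Ow b z m.1 1) (Ow b z m.1 2) + f + 2 * Real.pi * p (.inr m)) := by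
  obtain ⟨z', e1, e2, e3, -, S⟩ := SideG.far A A' u F (some (.inl (.inr m)))
    (pt 0 ((wpar b zs).XM (.inr m)) ((wpar b zs).cl (.inr m))
      ((wpar b zs).cr (.inr m)) (zs (.inl (.inr m))).im c') 0
    (inner_cond m hn h0 (by rw [hc]; exact h1))
  refine S.mono (le_of_eq ?_)
  have a1 : Ow b z' m.1 2 = ofr (b m.1) u := by rw [Ow_adj z' A, e1]
  have a2 : Ow b z' m.1 0 = ofr (b m.1) X := by rw [Ow_adj z' A', e2]
  have a3 : Ow b z' m.1 1 = tgi b zs m c' := by
    rw [Ow_inner, e3 _ rfl, ofr_ptm]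
  rw [OV_three hb hc, OV_three hb hc, ← a1, ← a2, ← a3]
  simp only [Option.elim, qe, pe]
  ring

/-- digit `3`, the hinge in the slot `0` is moved, the inner variable is kept, the hinge in the slot
`2` responds -/
theorem far_three0 (hb : ClassW b) (A : Adj h i 0 j) (A' : Adj h' i 2 j') (hc : clsW b i = .three)
    (u : ℂ) {X : ℂ} {f : ℝ} (F : FarG b zs nb z p h' j' X f) :
    SideG b zs nb z p h i u
      (V3 (ofr (b i) u) (Ow b z i 1) (ofr (b i) X) -
        V3 (Ow b z i 0) (Ow b z i 1) (Ow b z i 2) + f) := by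
  obtain ⟨z', e1, e2, -, e4, S⟩ := SideG.far A A' u F none 0 0 (by simp)
  refine S.mono (le_of_eq ?_)
  have hm : (tyW b i).isMid = true := by rw [tyW_of_three hc]; rfl
  have a1 : Ow b z' i 0 = ofr (b i) u := by rw [Ow_adj z' A, e1]
  have a2 : Ow b z' i 2 = ofr (b i) X := by rw [Ow_adj z' A', e2]
  have a3 : Ow b z' i 1 = Ow b z i 1 := by
    have h3 := Ow_inner (b := b) ⟨i, hm⟩ z'
    have h4 := Ow_inner (b := b) ⟨i, hm⟩ z
    simp only at h3 h4
    rw [h3, h4, e4 _ (by simp) (by simp) (by simp) 1 (by simp [cf])]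
  rw [OV_three hb hc, OV_three hb hc, a1, a2, a3]
  simp only [Option.elim]
  ring

/-- digit `3`, the hinge in the slot `2` is moved, the inner variable is kept, the hinge in the slot
`0` responds -/
theorem far_three2 (hb : ClassW b) (A : Adj h i 2 j) (A' : Adj h' i 0 j') (hc : clsW b i = .three)
    (u : ℂ) {X : ℂ} {f : ℝ} (F : FarG b zs nb z p h' j' X f) :
    SideG b zs nb z p h i u
      (V3 (ofr (b i) X) (Ow b z i 1) (ofr (b i) u) -
        V3 (Ow b z i 0) (Ow b z i 1) (Ow b z i 2) + f) := by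
  obtain ⟨z', e1, e2, -, e4, S⟩ := SideG.far A A' u F none 0 0 (by simp)
  refine S.mono (le_of_eq ?_)
  have hm : (tyW b i).isMid = true := by rw [tyW_of_three hc]; rfl
  have a1 : Ow b z' i 2 = ofr (b i) u := by rw [Ow_adj z' A, e1]
  have a2 : Ow b z' i 0 = ofr (b i) X := by rw [Ow_adj z' A', e2]
  have a3 : Ow b z' i 1 = Ow b z i 1 := by
    have h3 := Ow_inner (b := b) ⟨i, hm⟩ z'
    have h4 := Ow_inner (b := b) ⟨i, hm⟩ z
    simp only at h3 h4
    rw [h3, h4, e4 _ (by simp) (by simp) (by simp) 1 (by simp [cf])]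
  rw [OV_three hb hc, OV_three hb hc, a1, a2, a3]
  simp only [Option.elim]
  ring

/-! ### star moves of other variables -/

/-- **A move on one side of a hinge which is kept.** -/
theorem MM.star_keep (hb : ClassW b) (hR : ∀ i ∈ R, Sum.inl i ∈ nb) (hM : MM b zs R nb z p)
    {g : ℝ} (k : SideG b zs nb z p h i (z (.inl (.inl h))) g) : g ≤ 0 := by
  classical
  obtain ⟨z1, p1, e1, c1, k1⟩ := k
  set p3 : DD (tyW b) → ℝ := Function.update p1 (.inl h) (p (.inl h)) with hp3
  have hpe : ∀ v, v ≠ .inl (.inl h) → pe p3 v = pe p1 v := by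
    intro v hv
    rcases v with k | v
    · have : k ≠ Sum.inl h := by simpa using hv
      simp [pe, hp3, Function.update_of_ne this]
    · rfl
  have hmv : Mv b zs nb z p z1 p3 := by
    refine ⟨fun v hv => ?_⟩
    have hvh : v ≠ .inl (.inl h) := by
      rintro rfl
      rw [e1] at hv
      simp [pe, hp3] at hv
    rw [hpe v hvh] at hv ⊢
    obtain ⟨a1, a2, -⟩ := c1 v hvh hv
    exact ⟨a1, a2⟩
  have h1 := hM.step hb hR hmv (sideR h i) (by
    intro m hm v hv q
    have hvh : v ≠ .inl (.inl h) := by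
      rintro rfl
      exact hv e1.symm
    exact (c1 v hvh (Or.inl fun e => hv e.symm)).2.2 m hm q)
  have hs : ∀ q : DD (tyW b) → ℝ, ∑ k, q k = q (.inl h) + pex h q := fun q =>
    (Finset.add_sum_erase univ q (Finset.mem_univ _)).symm
  have e : pex h p3 = pex h p1 := by
    unfold pex
    refine Finset.sum_congr rfl fun k hk => ?_
    rw [hp3, Function.update_of_ne (Finset.ne_of_mem_erase hk)]
  have h4 : ∑ k, (p3 k - p k) = pex h p1 - pex h p := by
    rw [Finset.sum_sub_distrib, hs p3, hs p, e, hp3, Function.update_self]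
    ring
  rw [h4] at h1
  linarith

/-- the inner variable of an interior `3` is moved to `c'`; the hinge in the slot `0` is kept, the
hinge in the slot `2` responds (or is kept) -/
theorem MM.inner3 (hb : ClassW b) (hR : ∀ i ∈ R, Sum.inl i ∈ nb) (hM : MM b zs R nb z p)
    (m : {i : Fin (M + 1) // (tyW b i).isMid = true})
    (A0 : Adj h0 m.1 0 j0) (A2 : Adj h2 m.1 2 j2) (hc : clsW b m.1 = .three)
    (hn : Sum.inl (Sum.inr m) ∉ nb) {c' : ℝ} (k0 : 0 ≤ c') (k1 : c' ≤ 8 / 10)
    {X2 : ℂ} {f2 : ℝ} (F2 : FarG b zs nb z p h2 j2 X2 f2) :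
    V3 (Ow b z m.1 0) (tgi b zs m c') (ofr (b m.1) X2) -
        V3 (Ow b z m.1 0) (Ow b z m.1 1) (Ow b z m.1 2) + f2 + 2 * Real.pi * p (.inr m) ≤ 0 := by
  have h1 := hM.star_keep hb hR (far_three0i hb m A0 A2 hc hn k0 k1 (z (.inl (.inl h0))) F2)
  rwa [ofr_z A0] at h1

/-- the inner variable of an interior `3` is moved to `c'`; the hinge in the slot `2` is kept, the
hinge in the slot `0` responds (or is kept) -/
theorem MM.inner3' (hb : ClassW b) (hR : ∀ i ∈ R, Sum.inl i ∈ nb) (hM : MM b zs R nb z p)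
    (m : {i : Fin (M + 1) // (tyW b i).isMid = true})
    (A0 : Adj h0 m.1 0 j0) (A2 : Adj h2 m.1 2 j2) (hc : clsW b m.1 = .three)
    (hn : Sum.inl (Sum.inr m) ∉ nb) {c' : ℝ} (k0 : 0 ≤ c') (k1 : c' ≤ 8 / 10)
    {X0 : ℂ} {f0 : ℝ} (F0 : FarG b zs nb z p h0 j0 X0 f0) :
    V3 (ofr (b m.1) X0) (tgi b zs m c') (Ow b z m.1 2) -
        V3 (Ow b z m.1 0) (Ow b z m.1 1) (Ow b z m.1 2) + f0 + 2 * Real.pi * p (.inr m) ≤ 0 := by
  have h1 := hM.star_keep hb hR (far_three2i hb m A2 A0 hc hn k0 k1 (z (.inl (.inl h2))) F0)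
  rwa [ofr_z A2] at h1

/-- the inner variable of an interior `3` is moved to `c'`, the hinge in the slot `0` to `c0`; the
hinge in the slot `2` responds (or is kept) -/
theorem MM.inner3b (hb : ClassW b) (hR : ∀ i ∈ R, Sum.inl i ∈ nb) (hM : MM b zs R nb z p)
    (m : {i : Fin (M + 1) // (tyW b i).isMid = true})
    (A0 : Adj h0 m.1 0 j0) (A2 : Adj h2 m.1 2 j2) (hc : clsW b m.1 = .three)
    (hn : Sum.inl (Sum.inr m) ∉ nb) {c' : ℝ} (k0 : 0 ≤ c') (k1 : c' ≤ 8 / 10)
    (hn0 : Sum.inl (Sum.inl h0) ∉ nb) {c0 : ℝ} (l0 : 0 ≤ c0) (l1 : c0 ≤ wXM b h0) {g : ℝ}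
    (G : SideG b zs nb z p h0 j0 (tg b zs h0 c0) g)
    {X2 : ℂ} {f2 : ℝ} (F2 : FarG b zs nb z p h2 j2 X2 f2) :
    V3 (tgo b zs h0 m.1 c0) (tgi b zs m c') (ofr (b m.1) X2) -
        V3 (Ow b z m.1 0) (Ow b z m.1 1) (Ow b z m.1 2) + f2 + 2 * Real.pi * p (.inr m) +
      g + 2 * Real.pi * p (.inl h0) ≤ 0 := by
  have h1 := hM.star hb hR A0 hn0 (onP_tg l0 l1)
    (far_three0i hb m A0 A2 hc hn k0 k1 (tg b zs h0 c0) F2) G
  rwa [ofr_tg] at h1

/-- the inner variable of an end `3` is moved to `c'`, the hinge is kept -/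
theorem MM.inner3E (hb : ClassW b) (hR : ∀ i ∈ R, Sum.inl i ∈ nb) (hM : MM b zs R nb z p)
    (m : {i : Fin (M + 1) // (tyW b i).isMid = true}) (A : Adj h m.1 s j)
    (hc : clsW b m.1 = .threeE) (hn : Sum.inl (Sum.inr m) ∉ nb) {c' : ℝ} (k0 : 0 ≤ c')
    (k1 : c' ≤ 77 / 100) :
    V3 (Ow b z m.1 s) (tgi b zs m c') 0 - V3 (Ow b z m.1 s) (Ow b z m.1 1) 0 +
      2 * Real.pi * p (.inr m) ≤ 0 := by
  have h1 := SideG.inner (b := b) (zs := zs) (nb := nb) (z := z) (p := p) m A (z (.inl (.inl h)))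
    (pt 0 ((wpar b zs).XM (.inr m)) ((wpar b zs).cl (.inr m)) ((wpar b zs).cr (.inr m))
      (zs (.inl (.inr m))).im c') 0 hn (onP_main (.inr m) k0 (by
        show c' ≤ (mp (clsW b m.1)).XM
        rw [hc]; exact k1))
  rw [ofr_ptm, ofr_z A, Function.update_eq_self, A.OV_threeE hc (endOk_upd1 (Ow_endOk z m.1) _),
    A.OV_threeE hc (Ow_endOk z m.1), Function.update_self,
    Function.update_of_ne (show s ≠ 1 by rcases A.slot with hs | hs <;> rw [hs] <;> decide)] at h1
  have h2 := hM.star_keep hb hR h1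
  linarith

/-- the inner variable of an end `3` is moved to `c'`, the hinge to `c` -/
theorem MM.inner3Eb (hb : ClassW b) (hR : ∀ i ∈ R, Sum.inl i ∈ nb) (hM : MM b zs R nb z p)
    (m : {i : Fin (M + 1) // (tyW b i).isMid = true}) (A : Adj h m.1 s j)
    (hc : clsW b m.1 = .threeE) (hn : Sum.inl (Sum.inr m) ∉ nb) {c' : ℝ} (k0 : 0 ≤ c')
    (k1 : c' ≤ 77 / 100) (hnh : Sum.inl (Sum.inl h) ∉ nb) (l0 : 0 ≤ c) (l1 : c ≤ wXM b h) {g : ℝ}
    (G : SideG b zs nb z p h j (tg b zs h c) g) :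
    V3 (tgo b zs h m.1 c) (tgi b zs m c') 0 - V3 (Ow b z m.1 s) (Ow b z m.1 1) 0 +
      2 * Real.pi * p (.inr m) + g + 2 * Real.pi * p (.inl h) ≤ 0 :=
  hM.star hb hR A hnh (onP_tg l0 l1) (inner_threeE m A hc hn k0 k1) G

/-! ### gains of a region behind a hinge (all other variables kept) -/

/-- the hinge `h'` is moved to `c'`, the region behind it is a `1` -/
theorem FarG.one (hb : ClassW b) (A : Adj h' j' s i) (hc : clsW b j' = .one)
    (hn : Sum.inl (Sum.inl h') ∉ nb) (l0 : 0 ≤ c) (l1 : c ≤ wXM b h') :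
    FarG b zs nb z p h' j' (tg b zs h' c) (V1 (tgo b zs h' j' c) (Ow b z j' s.rev) -
      V1 (Ow b z j' s) (Ow b z j' s.rev) + 2 * Real.pi * p (.inl h')) :=
  FarG.move hn (onP_tg l0 l1) (keep_one hb A hc)

/-- the region behind is a `2` -/
theorem FarG.two (hb : ClassW b) (A : Adj h' j' s i) (hc : clsW b j' = .two ∨ clsW b j' = .twoE)
    (hn : Sum.inl (Sum.inl h') ∉ nb) (l0 : 0 ≤ c) (l1 : c ≤ wXM b h') :
    FarG b zs nb z p h' j' (tg b zs h' c) (V2 (tgo b zs h' j' c) (Ow b z j' s.rev) -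
      V2 (Ow b z j' s) (Ow b z j' s.rev) + 2 * Real.pi * p (.inl h')) :=
  FarG.move hn (onP_tg l0 l1) (keep_two hb A hc)

/-- the region behind is a `2` at an end -/
theorem FarG.twoE (hb : ClassW b) (A : Adj h' j' s i) (hc : clsW b j' = .twoE)
    (hn : Sum.inl (Sum.inl h') ∉ nb) (l0 : 0 ≤ c) (l1 : c ≤ wXM b h') :
    FarG b zs nb z p h' j' (tg b zs h' c) (V2 (tgo b zs h' j' c) 0 - V2 (Ow b z j' s) 0 +
      2 * Real.pi * p (.inl h')) :=
  FarG.move hn (onP_tg l0 l1) (keep_twoE hb A hc)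

/-- the region behind is a `3`, the hinge in its slot `0` -/
theorem FarG.three0 (hb : ClassW b) (A : Adj h' j' 0 i) (hc : clsW b j' = .three)
    (hn : Sum.inl (Sum.inl h') ∉ nb) (l0 : 0 ≤ c) (l1 : c ≤ wXM b h') :
    FarG b zs nb z p h' j' (tg b zs h' c)
      (V3 (tgo b zs h' j' c) (Ow b z j' 1) (Ow b z j' 2) -
        V3 (Ow b z j' 0) (Ow b z j' 1) (Ow b z j' 2) + 2 * Real.pi * p (.inl h')) :=
  FarG.move hn (onP_tg l0 l1) (keep_three0 hb A hc)

/-- the region behind is a `3`, the hinge in its slot `2` -/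
theorem FarG.three2 (hb : ClassW b) (A : Adj h' j' 2 i) (hc : clsW b j' = .three)
    (hn : Sum.inl (Sum.inl h') ∉ nb) (l0 : 0 ≤ c) (l1 : c ≤ wXM b h') :
    FarG b zs nb z p h' j' (tg b zs h' c)
      (V3 (Ow b z j' 0) (Ow b z j' 1) (tgo b zs h' j' c) -
        V3 (Ow b z j' 0) (Ow b z j' 1) (Ow b z j' 2) + 2 * Real.pi * p (.inl h')) :=
  FarG.move hn (onP_tg l0 l1) (keep_three2 hb A hc)

/-- the region behind is a `3` at an end -/
theorem FarG.threeE (A : Adj h' j' s i) (hc : clsW b j' = .threeE)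
    (hn : Sum.inl (Sum.inl h') ∉ nb) (l0 : 0 ≤ c) (l1 : c ≤ wXM b h') :
    FarG b zs nb z p h' j' (tg b zs h' c) (V3 (tgo b zs h' j' c) (Ow b z j' 1) 0 -
      V3 (Ow b z j' s) (Ow b z j' 1) 0 + 2 * Real.pi * p (.inl h')) :=
  FarG.move hn (onP_tg l0 l1) (keep_threeE A hc)

end SR

end Pool.Agent.Work.MP_b30479_gt.G2
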