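import Pool.Agent.Work.MP_b30479_gt.G2.MJH
import Pool.Agent.Work.MP_b30479_gt.G2.MJF
import Pool.Agent.Work.MP_b30479_gt.G2.WMMF

/-!
# Mirrored paths: kind `1 | 2`
-/

namespace Pool.Agent.Work.MP_b30479_gt.G2

open Finset VOL Filter Topology SR NumG

variable {M : ℕ} {b : Fin (M + 1) → ℤ} {zs : DD (tyW b) ⊕ ZZ (tyW b) → ℂ}
variable {R : Finset (DD (tyW b))} {nb : Finset (DD (tyW b) ⊕ ZZ (tyW b))}
variable {z : DD (tyW b) ⊕ ZZ (tyW b) → ℂ} {p : DD (tyW b) → ℝ}
variable {h h' : Fin M} {i j j' : Fin (M + 1)} {s q : Fin 3} {x c : ℝ}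

namespace K12

/-- from bounds by multiples of the ramp function -/
theorem pb_of {X : ℂ} (Hu Hd cl cr : ℝ) (hre : 0 ≤ X.re ∧ X.re ≤ wXM b h)
    (hX : wXM b h = 60 / 100 ∧ cl ≤ wcl b h ∧ cr ≤ wcr b h)
    (h2 : X.im ≤ Hu * trh b h X.re) (h1 : -X.im ≤ Hd * trh b h X.re)
    (u1 : Hu ≤ 96 / 1000) (u2 : 125 / 96 * Hu ≤ cl) (u3 : 300 / 96 * Hu ≤ cr)
    (d1 : Hd ≤ 85 / 1000) (d2 : 100 / 85 * Hd ≤ cl) (d3 : 270 / 85 * Hd ≤ cr) :
    K12.PB X.re X.im := by
  obtain ⟨t0, t1, t2, t3⟩ := trh_ub (b := b) h hre.1 hre.2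
  have e2 := mul_le_mul_of_nonneg_right hX.2.1 t0
  have e3 := mul_le_mul_of_nonneg_right hX.2.2 t0
  rw [hX.1] at t3
  have hre2 := hre.2
  rw [hX.1] at hre2
  rcases le_total 0 X.im with h0 | h0
  · have f1 := mul_le_mul_of_nonneg_right u1 t0
    have f2 := mul_le_mul_of_nonneg_right u2 t0
    have f3 := mul_le_mul_of_nonneg_right u3 t0
    exact pb_u hre.1 hre2 h0 (by linarith only [h2, t1, f1]) (by linarith only [h2, t2, e2, f2]) (by linarith only [h2, t3, e3, f3])
  · have f1 := mul_le_mul_of_nonneg_right d1 t0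
    have f2 := mul_le_mul_of_nonneg_right d2 t0
    have f3 := mul_le_mul_of_nonneg_right d3 t0
    exact pb_d hre.1 hre2 h0 (by linarith only [h1, t1, f1]) (by linarith only [h1, t2, e2, f2]) (by linarith only [h1, t3, e3, f3])

theorem par_two_three2 (A : Adj h i 2 j) (hi : clsW b i = .two) (hj : clsW b j = .three) :
    wXM b h = 60 / 100 ∧ wcl b h = 12 / 100 ∧ wcr b h = 27 / 100 := by
  unfold wXM wcl wcr
  cases A
  rw [hi, hj]
  exact ⟨rfl, rfl, rfl⟩

theorem par_two_three0 (A : Adj h i 0 j) (hi : clsW b i = .two) (hj : clsW b j = .three) :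
    wXM b h = 60 / 100 ∧ wcl b h = 13 / 100 ∧ wcr b h = 30 / 100 := by
  unfold wXM wcl wcr
  cases A
  rw [hi, hj]
  exact ⟨rfl, rfl, rfl⟩

theorem par_two_threeE (A : Adj h i s j) (hi : clsW b i = .two) (hj : clsW b j = .threeE) :
    wXM b h = 60 / 100 ∧ wcl b h = 10 / 100 ∧ wcr b h = 30 / 100 := by
  unfold wXM wcl wcr
  cases A <;> rw [hi, hj] <;> exact ⟨rfl, rfl, rfl⟩

theorem par_two_ring (A : Adj h i s j) (hi : clsW b i = .two) (hj : clsW b j = .ring) :
    wXM b h = 60 / 100 ∧ wcl b h = 125 / 1000 ∧ wcr b h = 30 / 100 := by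
  unfold wXM wcl wcr
  cases A <;> rw [hi, hj] <;> exact ⟨rfl, rfl, rfl⟩

theorem trh_12 (h1 : wXM b h = 80 / 100 ∧ wcl b h = 16 / 100 ∧ wcr b h = 29 / 100) (y : ℝ) :
    trh b h y = K12.tR 800 160 290 y := by
  unfold K12.tR
  rw [trh_eq h1]
  norm_num

/-- what is gained behind the other hinge of the `2` -/
def FF (b : Fin (M + 1) → ℤ) (zs : DD (tyW b) ⊕ ZZ (tyW b) → ℂ)
    (nb : Finset (DD (tyW b) ⊕ ZZ (tyW b))) (z : DD (tyW b) ⊕ ZZ (tyW b) → ℂ)
    (p : DD (tyW b) → ℝ) (h' : Fin M) (j' : Fin (M + 1)) (d T ph : ℝ) : Prop :=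
  (d = 25 / 100 ∨ d = 35 / 100) ∧ T = Th b zs h' j' ∧ clsW b j' = .one ∧
    FarG b zs nb z p h' j' (tg b zs h' d) ph

/-- **The other hinge of a digit `2`.** -/
theorem k2_pos (hb : ClassW b) (L : LocA b zs) (k22 : ∀ s, Kd b zs .two .two s)
    (kE2 : ∀ s, Kd b zs .twoE .two s) (k23' : Kd b zs .two .three 0) (k32 : Kd b zs .three .two 0)
    (k32' : Kd b zs .three .two 2) (k2e : ∀ s, Kd b zs .two .threeE s)
    (ke2 : ∀ s, Kd b zs .threeE .two s) (hN : NbT b R nb) (hM : MM b zs R nb z p)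
    (hq : ∀ h : Fin M, RH1 b (.inl h) → p (.inl h) = 0) (A : Adj h i s j)
    (hn : Sum.inl (Sum.inl h) ∉ nb) (A' : Adj h' i s.rev j') (hi : clsW b i = .two) :
    K12.K2 (FF b zs nb z p h' j') (Ow b z i s.rev).re (Ow b z i s.rev).im := by
  have P := hM.npos hb hN hq A hn A'
  have hre := P.re
  have hT := Th_mem hb L.L A' (by rw [hi]; decide)
  rw [hi] at hT
  rcases hC : clsW b j' <;> rw [hC] at hT <;> simp only [hbox] at hT
  case one =>
    obtain ⟨e1, e2, e3⟩ := par_one_two A' (Or.inr ⟨hi, hC⟩)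
    have hm : ∀ q, mhs b h' q = 16 / 100 := mhs_adj A' (by rw [hi]; simp) (by rw [hC]; simp)
    have htr := trh_12 ⟨e1, e2, e3⟩
    have hTj : Th b zs h' i = -Th b zs h' j' :=
      ofs_neg_of_opp (by rw [mul_comm]; exact sign_adj hb A' (by rw [hi]; decide)) _
    rw [e1] at hre
    -- what is gained behind it
    have hfar : Sum.inl (Sum.inl h') ∉ nb → ∀ pp, p (.inl h') = pp → ∀ d ph,
        (d = 25 / 100 ∨ d = 35 / 100) → (∀ k s', K12.PA (Th b zs h' j') k s' →
          0 < K12.RF d (Th b zs h' j') (-(Ow b z i s.rev).im) pp ph s' (Ow b z i s.rev).re k) →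
        FF b zs nb z p h' j' d (Th b zs h' j') ph := by
      intro hn' pp hp d ph hd hF
      refine ⟨hd, rfl, hC, ?_⟩
      have B := A'.symm
      obtain ⟨h2, j2, A2⟩ := B.other' b (clsW_inner hb (Or.inl hC))
      have hk := k1_pos hb L hN hM hq B hn' A2 hC hi
      have h3 := hF _ _ hk
      have hd' : 0 ≤ d ∧ d ≤ 80 / 100 := by rcases hd with rfl | rfl <;> norm_num
      have h4 := FarG.one (zs := zs) (z := z) (p := p) (c := d) hb B hC hn' hd'.1
        (by rw [e1]; exact hd'.2)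
      refine h4.mono ?_
      have h5 : Ow b z j' s.rev.rev = ⟨(Ow b z i s.rev).re, -(Ow b z i s.rev).im⟩ := by
        rw [Ow_adj z A'.symm, Ow_adj z A', ofr_opp (sign_adj hb A' (by rw [hi]; decide))]
        rfl
      have h6 : tgo b zs h' j' d = ⟨d, Th b zs h' j'⟩ := by
        unfold tgo
        rw [htr, K12.tR_one, mul_one] <;> rcases hd with rfl | rfl <;> norm_num
      have h7 := K12.V1_F d (Th b zs h' j') (-(Ow b z i s.rev).im) pp ph
        (Ow b z j' s.rev.rev.rev).im (Ow b z i s.rev).re (Ow b z j' s.rev.rev.rev).re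
      rw [h5, h6, hp]
      linarith only [h3, h7]
    cases P with
    | main y y0 y1 hn' e hp =>
      right
      refine ⟨Th b zs h' j', 0, ?_, hfar hn' 0 hp⟩
      rw [e]
      rw [htr] at e ⊢
      refine .main y0 (by rw [← e1]; exact y1) (by linarith only [hT, hTj]) (by linarith only [hT, hTj]) ?_ rfl
      simp only
      rw [hTj]
      ring
    | real y y0 y1 hn' e hp =>
      left
      have h8 := hM.real_le hb hN A' (hN.not_tch A hn) hn' (Or.inl hC)
      rw [e] at h8 ⊢
      simp only at h8 ⊢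
      exact pb_u y0 (by linarith only [h8]) le_rfl (by norm_num) (by linarith only [y0]) (by linarith only [h8])
    | up y y0 y1 hn' hr hT' e hp =>
      right
      refine ⟨Th b zs h' j', _, ?_, hfar hn' _ hp⟩
      rw [e]
      rw [hm, htr]
      refine .up y0 (by rw [← e1]; exact y1) (by linarith only [hTj, hT']) (by linarith only [hT, hTj]) ?_ ?_
      · rw [K12.aR_eq]
      · rw [K12.aR_eq]
    | dn y y0 y1 hn' hr hT' e hp =>
      right
      refine ⟨Th b zs h' j', _, ?_, hfar hn' _ hp⟩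
      rw [e]
      rw [hm, htr]
      refine .dn y0 (by rw [← e1]; exact y1) (by linarith only [hT, hTj]) (by linarith only [hTj, hT']) ?_ ?_
      · rw [K12.aR_eq]
      · rw [K12.aR_eq]
  case two =>
    left
    obtain ⟨e1, e2, e3⟩ := par_two_two A' hi hC
    have hp0 : p (.inl h') = 0 := p_zero hb hN hM A' (by rw [hi]; decide) (by rw [hC]; decide)
      (fun x D => k22 _ hN hM hq D hi hC) (fun x D => k22 _ hN hM hq D hC hi)
    obtain ⟨f1, f2⟩ := flat P hp0 (lo := -(41 / 1000)) (hi := 41 / 1000) (by norm_num)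
      (by norm_num) (by linarith only [hT]) (by linarith only [hT])
    exact pb_of (41 / 1000) (41 / 1000) (10 / 100) (28 / 100) hre ⟨e1, e2.ge, e3.ge⟩ f2
      (by linarith only [f1]) (by norm_num) (by norm_num) (by norm_num) (by norm_num) (by norm_num)
      (by norm_num)
  case twoE =>
    left
    obtain ⟨e1, e2, e3⟩ := par_twoE_two A'.symm hC hi
    have hp0 : p (.inl h') = 0 := p_zero hb hN hM A' (by rw [hi]; decide) (by rw [hC]; decide)
      (fun x D => by
        have h1 := D.T0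
        linarith only [hT, h1])
      (fun x D => kE2 _ hN hM hq D hC hi)
    obtain ⟨f1, f2⟩ := flat P hp0 (lo := -(85 / 1000)) (hi := 0) (by norm_num)
      (by norm_num) (by linarith only [hT]) (by linarith only [hT])
    exact pb_of 0 (85 / 1000) (10 / 100) (33 / 100) hre ⟨e1, e2.ge, e3.ge⟩ f2
      (by linarith only [f1]) (by norm_num) (by norm_num) (by norm_num) (by norm_num) (by norm_num)
      (by norm_num)
  case three =>
    rcases A'.slot with hs | hs
    · -- the `3` is to the left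
      left
      rw [hs] at A' P hre ⊢
      obtain ⟨e1, e2, e3⟩ := par_two_three0 A' hi hC
      have hp0 : p (.inl h') = 0 := p_zero hb hN hM A' (by rw [hi]; decide) (by rw [hC]; decide)
        (fun x D => k23' hN hM hq D hi hC) (fun x D => k32' hN hM hq D hC hi)
      obtain ⟨f1, f2⟩ := flat P hp0 (lo := -(5 / 1000)) (hi := 57 / 1000) (by norm_num)
        (by norm_num) (by linarith only [hT]) (by linarith only [hT])
      exact pb_of (57 / 1000) (5 / 1000) (13 / 100) (30 / 100) hre ⟨e1, e2.ge, e3.ge⟩ f2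
        (by linarith only [f1]) (by norm_num) (by norm_num) (by norm_num) (by norm_num) (by norm_num)
        (by norm_num)
    · -- the `3` is to the right
      left
      rw [hs] at A' P hre ⊢
      obtain ⟨e1, e2, e3⟩ := par_two_three2 A' hi hC
      have htr : ∀ y, trh b h' y = K12.tR 600 120 270 y := by
        intro y
        unfold K12.tR
        rw [trh_eq ⟨e1, e2, e3⟩]
        norm_num
      have hflat : p (.inl h') = 0 → K12.PB (Ow b z i 2).re (Ow b z i 2).im := by
        intro hp0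
        obtain ⟨f1, f2⟩ := flat P hp0 (lo := -(5 / 1000)) (hi := 57 / 1000) (by norm_num)
          (by norm_num) (by linarith only [hT]) (by linarith only [hT])
        exact pb_of (57 / 1000) (5 / 1000) (12 / 100) (27 / 100) hre ⟨e1, e2.ge, e3.ge⟩ f2
          (by linarith only [f1]) (by norm_num) (by norm_num) (by norm_num) (by norm_num) (by norm_num)
          (by norm_num)
      rcases hM.md hb hN.ok.1 h' (by cases A'; rw [hi]; decide) (by cases A'; rw [hC]; decide)
        with h0 | ⟨i1, s1, j1, x1, D⟩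
      · exact hflat h0
      rcases adj_cases A' D.adj with ⟨rfl, rfl, rfl⟩ | ⟨rfl, rfl, rfl⟩
      · have hm : mhs b h' 2 = 3 / 10 := by
          unfold mhs
          cases A'
          rw [hi, hC]
          simp
        have e := D.own
        rw [hm, htr] at e
        have hx := D.x1
        rw [e1] at hx
        rw [e]
        exact .t D.x0.le (by simp only; linarith only [hx]) rfl
      · exact (k32 hN hM hq D hC hi).elim
  case threeE =>
    left
    obtain ⟨e1, e2, e3⟩ := par_two_threeE A' hi hC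
    have hp0 : p (.inl h') = 0 := p_zero hb hN hM A' (by rw [hi]; decide) (by rw [hC]; decide)
      (fun x D => k2e _ hN hM hq D hi hC) (fun x D => ke2 _ hN hM hq D hC hi)
    obtain ⟨f1, f2⟩ := flat P hp0 (lo := -(13 / 1000)) (hi := 26 / 1000) (by norm_num)
      (by norm_num) (by linarith only [hT]) (by linarith only [hT])
    exact pb_of (26 / 1000) (13 / 1000) (10 / 100) (30 / 100) hre ⟨e1, e2.ge, e3.ge⟩ f2
      (by linarith only [f1]) (by norm_num) (by norm_num) (by norm_num) (by norm_num) (by norm_num)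
      (by norm_num)
  case ring =>
    left
    obtain ⟨e1, e2, e3⟩ := par_two_ring A' hi hC
    have hp0 : p (.inl h') = 0 := hq _ ((adj_ring A').2 (Or.inr hC))
    obtain ⟨f1, f2⟩ := flat P hp0 (lo := 0) (hi := 96 / 1000) (by norm_num)
      (by norm_num) (by linarith only [hT]) (by linarith only [hT])
    exact pb_of (96 / 1000) 0 (125 / 1000) (30 / 100) hre ⟨e1, e2.ge, e3.ge⟩ f2
      (by linarith only [f1]) (by norm_num) (by norm_num) (by norm_num) (by norm_num) (by norm_num)
      (by norm_num)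

end K12

/-- **Modes `1 | 2`.** -/
theorem kind_one_two (hb : ClassW b) (L : LocA b zs) (k22 : ∀ s, Kd b zs .two .two s)
    (kE2 : ∀ s, Kd b zs .twoE .two s) (k23' : Kd b zs .two .three 0) (k32 : Kd b zs .three .two 0)
    (k32' : Kd b zs .three .two 2) (k2e : ∀ s, Kd b zs .two .threeE s)
    (ke2 : ∀ s, Kd b zs .threeE .two s) (s : Fin 3) : Kd b zs .one .two s := by
  intro R nb z p h i j x hN hM hq D hi hj
  have hpar := K12.par_one_two D.adj (Or.inl ⟨hi, hj⟩)
  have htr := K12.trh_12 (b := b) (h := h) hpar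
  have hm : mhs b h s = 16 / 100 := mhs_adj D.adj (by rw [hi]; simp) (by rw [hj]; simp) _
  have B := D.adj.symm
  obtain ⟨h1, j1, A1⟩ := D.adj.other' b (clsW_inner hb (Or.inl hi))
  obtain ⟨h2, j2, A2⟩ := B.other' b (clsW_inner hb (Or.inr (Or.inl hj)))
  have hA := K12.k1_pos hb L hN hM hq D.adj D.nn A1 hi hj
  have hB := K12.k2_pos hb L k22 kE2 k23' k32 k32' k2e ke2 hN hM hq B D.nn A2 hj
  have hT := (Th_mem hb L.L D.adj (by rw [hi]; decide)).2
  rw [hi, hj] at hT
  simp only [hbox] at hT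
  have hx1 := D.x1
  rw [hpar.1] at hx1
  have ha : mhs b h s * trh b h x = K12.aR x := by
    rw [hm, htr, K12.aR_eq]
  obtain ⟨c, c0, c1, hpos⟩ := K12.key D.x0 hx1 D.T0 hT hA hB
  have k1 := keep_one (zs := zs) (nb := nb) (z := z) (p := p) (c := c) hb D.adj hi
  have et : tgo b zs h i c = ⟨c, Th b zs h i * K12.tR 800 160 290 c⟩ := by
    unfold tgo
    rw [htr]
  have et' : tgo b zs h j c = ⟨c, -(Th b zs h i * K12.tR 800 160 290 c)⟩ := by
    unfold tgo
    rw [htr, D.Tj, neg_mul]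
  rw [et, D.own, ha] at k1
  rcases hpos with hpos | ⟨d, T, ph, ⟨hd, hT', hc2, hF⟩, hpos⟩
  · have k2 := keep_two (zs := zs) (nb := nb) (z := z) (p := p) (c := c) hb B (Or.inl hj)
    rw [et', D.opp, ha] at k2
    have h3 := D.star hb hN.ok.1 hM c0 (by rw [hpar.1]; exact c1) k1 k2
    rw [ha] at h3
    exact absurd h3 (not_le.2 hpos)
  · have k2 := far_two (c := c) hb B A2 hj hF
    have hpar2 := K12.par_one_two A2 (Or.inr ⟨hj, hc2⟩)
    have hTj : Th b zs h2 j = -Th b zs h2 j2 :=
      ofs_neg_of_opp (by rw [mul_comm]; exact sign_adj hb A2 (by rw [hj]; decide)) _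
    have e4 : ofr (b j) (tg b zs h2 d) = ⟨d, -T⟩ := by
      rw [ofr_tg]
      unfold tgo
      rw [K12.trh_12 hpar2, K12.tR_one, mul_one, hT', hTj] <;> rcases hd with rfl | rfl <;> norm_num
    rw [et', D.opp, ha, e4] at k2
    have h3 := D.star hb hN.ok.1 hM c0 (by rw [hpar.1]; exact c1) k1 k2
    rw [ha] at h3
    exact absurd h3 (not_le.2 hpos)

end Pool.Agent.Work.MP_b30479_gt.G2
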