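import Pool.Agent.Work.MP_b30479_gt.G2.VDer

/-!
# The level inequality for twist regions with one crossing
-/

namespace Pool.Agent.Work.MP_b30479_gt.G2

open Real

/-- `CC` in terms of `sin`, `cos`, `sinh` -/
theorem CC_eq (u : ℂ) : CC u = π * (sin (π * u.re) * cos (π * u.re) /
    (sinh (π * u.im) ^ 2 + sin (π * u.re) ^ 2)) := by
  unfold CC
  have h1 : sin (2 * π * u.re) = 2 * (sin (π * u.re) * cos (π * u.re)) := by
    rw [mul_assoc 2 π, sin_two_mul, mul_assoc]
  have h2 : cosh (2 * π * u.im) - cos (2 * π * u.re) =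
      2 * (sinh (π * u.im) ^ 2 + sin (π * u.re) ^ 2) := by
    have e1 : cosh (2 * π * u.im) = 1 + 2 * sinh (π * u.im) ^ 2 := by
      rw [mul_assoc 2 π, cosh_two_mul, cosh_sq]
      ring
    have e2 : cos (2 * π * u.re) = 1 - 2 * sin (π * u.re) ^ 2 := by
      rw [mul_assoc 2 π, cos_two_mul, cos_sq']
      ring
    rw [e1, e2]
    ring
  rw [h1, h2, mul_div_mul_left _ _ (two_ne_zero)]

/-- the algebraic core; `p = sin a`, `q = cos a`, `p' = sin a'`, `σ = sin (a + a')`,
`κ = cos (a + a')` -/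
theorem k1_core {p q p' σ κ S T : ℝ} (hp : 0 < p) (hσ : 0 < σ) (hS : 0 ≤ S) (hT : 0 ≤ T)
    (h0 : q * σ - p * κ = p')
    (h1 : 0 ≤ κ → (p + p') * κ * σ * S < σ * p ^ 2 * p' * (1 - κ) + p ^ 2 * q * T)
    (h2 : κ < 0 → 0 < q → (p' - p) * (-κ) * σ * S < σ * p ^ 2 * p' * (1 + κ) + p ^ 2 * q * T)
    (h3 : κ < 0 → q ≤ 0 → -q * T < σ * p' * (1 + κ)) :
    p' * |σ * κ / (T + σ ^ 2)| < p * (p * q / (S + p ^ 2) - σ * κ / (T + σ ^ 2)) := by
  have hA : 0 < S + p ^ 2 := by positivity
  have hB : 0 < T + σ ^ 2 := by positivity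
  rcases le_or_gt 0 κ with hk | hk
  · have a1 : 0 ≤ σ * κ / (T + σ ^ 2) := by positivity
    rw [abs_of_nonneg a1]
    have a2 : (p + p') * (σ * κ / (T + σ ^ 2)) < p * (p * q / (S + p ^ 2)) := by
      rw [← mul_div_assoc, ← mul_div_assoc, div_lt_div_iff₀ hB hA]
      have := h1 hk
      have e : p * (p * q) * (T + σ ^ 2) - (p + p') * (σ * κ) * (S + p ^ 2) =
          σ * p ^ 2 * (q * σ - p * κ - p' * κ) + p ^ 2 * q * T - (p + p') * κ * σ * S := by ring
      rw [h0] at e
      nlinarith only [this, e]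
    linarith only [a2]
  · have a1 : σ * κ / (T + σ ^ 2) ≤ 0 := by
      apply div_nonpos_of_nonpos_of_nonneg
      · nlinarith only [hσ, hk]
      · positivity
    rw [abs_of_nonpos a1]
    rcases lt_or_ge 0 q with hq | hq
    · have a2 : (p' - p) * (-(σ * κ / (T + σ ^ 2))) < p * (p * q / (S + p ^ 2)) := by
        rw [← neg_div, ← mul_div_assoc, ← mul_div_assoc, div_lt_div_iff₀ hB hA]
        have := h2 hk hq
        have e : p * (p * q) * (T + σ ^ 2) - (p' - p) * (-(σ * κ)) * (S + p ^ 2) =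
            σ * p ^ 2 * (q * σ - p * κ + p' * κ) + p ^ 2 * q * T - (p' - p) * (-κ) * σ * S := by
          ring
        rw [h0] at e
        nlinarith only [this, e]
      linarith only [a2]
    · have a2 : p * (p * (-q) / (S + p ^ 2)) < (p - p') * (-(σ * κ / (T + σ ^ 2))) := by
        have b1 : p * (p * (-q) / (S + p ^ 2)) ≤ -q := by
          rw [← mul_div_assoc, div_le_iff₀ hA]
          nlinarith only [hS, hq]
        refine b1.trans_lt ?_
        rw [← neg_div, ← mul_div_assoc, lt_div_iff₀ hB]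
        have := h3 hk hq
        have e : (p - p') * (-(σ * κ)) - -q * (T + σ ^ 2) =
            σ * (q * σ - p * κ + p' * κ) + q * T := by ring
        rw [h0] at e
        nlinarith only [this, e]
      have e2 : p * (p * (-q) / (S + p ^ 2)) = -(p * (p * q / (S + p ^ 2))) := by ring
      rw [e2] at a2
      linarith only [a2]

/-- **The level inequality of a twist region with one crossing.** -/
theorem k1_level {u v : ℂ} (hu : 0 < u.re) (hv : 0 < v.re) (hs : u.re + v.re < 1)
    (h1 : u.re + v.re ≤ 1 / 2 →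
      (sin (π * u.re) + sin (π * v.re)) * cos (π * (u.re + v.re)) * sin (π * (u.re + v.re)) *
        sinh (π * u.im) ^ 2 <
      sin (π * (u.re + v.re)) * sin (π * u.re) ^ 2 * sin (π * v.re) *
        (1 - cos (π * (u.re + v.re))) +
        sin (π * u.re) ^ 2 * cos (π * u.re) * sinh (π * (u.im + v.im)) ^ 2)
    (h2 : 1 / 2 < u.re + v.re → u.re < 1 / 2 →
      (sin (π * v.re) - sin (π * u.re)) * (-cos (π * (u.re + v.re))) * sin (π * (u.re + v.re)) *
        sinh (π * u.im) ^ 2 <
      sin (π * (u.re + v.re)) * sin (π * u.re) ^ 2 * sin (π * v.re) *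
        (1 + cos (π * (u.re + v.re))) +
        sin (π * u.re) ^ 2 * cos (π * u.re) * sinh (π * (u.im + v.im)) ^ 2)
    (h3 : 1 / 2 ≤ u.re → -cos (π * u.re) * sinh (π * (u.im + v.im)) ^ 2 <
      sin (π * (u.re + v.re)) * sin (π * v.re) * (1 + cos (π * (u.re + v.re)))) :
    sin (π * v.re) * |CC (u + v)| < sin (π * u.re) * (CC u - CC (u + v)) := by
  have hpi := pi_pos
  have e0 : cos (π * u.re) * sin (π * (u.re + v.re)) - sin (π * u.re) * cos (π * (u.re + v.re)) =
      sin (π * v.re) := by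
    have : π * v.re = π * (u.re + v.re) - π * u.re := by ring
    rw [this, sin_sub]
    ring
  have key := k1_core (p := sin (π * u.re)) (q := cos (π * u.re)) (p' := sin (π * v.re))
    (σ := sin (π * (u.re + v.re))) (κ := cos (π * (u.re + v.re))) (S := sinh (π * u.im) ^ 2)
    (T := sinh (π * (u.im + v.im)) ^ 2)
    (sin_pos_of_pos_of_lt_pi (by positivity) (by nlinarith only [hv, hpi, hs]))
    (sin_pos_of_pos_of_lt_pi (by positivity) (by nlinarith only [hs, hpi])) (sq_nonneg _) (sq_nonneg _) e0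
    (fun hk => h1 ?_) (fun hk hq => h2 ?_ ?_) (fun hk hq => h3 ?_)
  · rw [CC_eq u, CC_eq (u + v)]
    simp only [Complex.add_re, Complex.add_im]
    rw [abs_mul, abs_of_pos hpi]
    nlinarith only [key, hpi, mul_lt_mul_of_pos_left key hpi]
  · by_contra hc
    push Not at hc
    have := cos_neg_of_pi_div_two_lt_of_lt (x := π * (u.re + v.re)) (by nlinarith only [hpi, hc]) (by nlinarith only [hu, hpi, hv, hs])
    linarith only [hk, this]
  · by_contra hc
    push Not at hc
    have := cos_nonneg_of_mem_Icc (x := π * (u.re + v.re)) ⟨by nlinarith only [hpi, hu, hv], by nlinarith only [hu, hv, hs, hpi, hc]⟩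
    linarith only [hk, this]
  · by_contra hc
    push Not at hc
    have := cos_nonpos_of_pi_div_two_le_of_le (x := π * u.re) (by nlinarith only [hu, hv, hs, hpi, hc]) (by nlinarith only [hpi, hv, hs])
    linarith only [hq, this]
  · by_contra hc
    push Not at hc
    have := cos_pos_of_mem_Ioo (x := π * u.re) ⟨by nlinarith only [hpi, hu], by nlinarith only [hpi, hc]⟩
    linarith only [hq, this]

theorem CC_nonneg {u : ℂ} (h0 : 0 ≤ u.re) (h1 : u.re ≤ 1 / 2) : 0 ≤ CC u := by
  have hpi := pi_pos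
  rw [CC_eq]
  have a1 : 0 ≤ sin (π * u.re) := sin_nonneg_of_nonneg_of_le_pi (by positivity) (by nlinarith only [hpi, h1])
  have a2 : 0 ≤ cos (π * u.re) := cos_nonneg_of_mem_Icc ⟨by nlinarith only [hpi, h0], by nlinarith only [h1, hpi]⟩
  positivity

theorem CC_pos {u : ℂ} (h0 : 0 < u.re) (h1 : u.re < 1 / 2) : 0 < CC u := by
  have hpi := pi_pos
  rw [CC_eq]
  have a1 : 0 < sin (π * u.re) := sin_pos_of_pos_of_lt_pi (by positivity) (by nlinarith only [hpi, h1])
  have a2 : 0 < cos (π * u.re) := cos_pos_of_mem_Ioo ⟨by nlinarith only [hpi, h0], by nlinarith only [h1, hpi]⟩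
  positivity

theorem k2_core {p q p' σ κ S T : ℝ} (hp : 0 < p) (hq : 0 ≤ q) (hp' : 0 < p') (hσ : 0 < σ)
    (hS : 0 ≤ S) (hT : 0 ≤ T) (h0 : q * σ - p * κ = p') (hκ : κ < 1) (hκ' : -1 < κ)
    (hSp : S ≤ p ^ 2) :
    p' * |σ * κ / (T + σ ^ 2)| < p * (2 * (p * q / (S + p ^ 2)) - σ * κ / (T + σ ^ 2)) := by
  have hA : 0 < S + p ^ 2 := by positivity
  have hB : 0 < T + σ ^ 2 := by positivity
  have hqT : 0 ≤ p ^ 2 * q * T := by positivity
  rcases le_or_gt 0 κ with hk | hk
  · have a1 : 0 ≤ σ * κ / (T + σ ^ 2) := by positivity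
    rw [abs_of_nonneg a1]
    have a2 : (p + p') * (σ * κ / (T + σ ^ 2)) < p * (2 * (p * q / (S + p ^ 2))) := by
      have e0 : p * (2 * (p * q / (S + p ^ 2))) = 2 * p * (p * q) / (S + p ^ 2) := by ring
      rw [e0, ← mul_div_assoc, div_lt_div_iff₀ hB hA]
      have e : 2 * p * (p * q) * (T + σ ^ 2) - (p + p') * (σ * κ) * (S + p ^ 2) =
          σ * p ^ 2 * (2 * (q * σ - p * κ) + p * κ - p' * κ) + 2 * (p ^ 2 * q * T) -
            (p + p') * κ * σ * S := by ring
      rw [h0] at e
      have f1 : (p + p') * κ * σ * S ≤ (p + p') * κ * σ * p ^ 2 := by gcongr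
      have f2 : 0 < σ * p ^ 2 * (2 * p' * (1 - κ)) := by
        have : 0 < 1 - κ := by linarith only [hκ]
        positivity
      nlinarith only [hqT, e, f1, f2]
    linarith only [a2]
  · have a1 : σ * κ / (T + σ ^ 2) ≤ 0 := by
      apply div_nonpos_of_nonpos_of_nonneg
      · nlinarith only [hσ, hk]
      · positivity
    rw [abs_of_nonpos a1]
    rcases lt_or_ge p p' with hpp | hpp
    · have a2 : (p' - p) * (-(σ * κ / (T + σ ^ 2))) < p * (2 * (p * q / (S + p ^ 2))) := by
        have e0 : p * (2 * (p * q / (S + p ^ 2))) = 2 * p * (p * q) / (S + p ^ 2) := by ring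
        rw [e0, ← neg_div, ← mul_div_assoc, div_lt_div_iff₀ hB hA]
        have e : 2 * p * (p * q) * (T + σ ^ 2) - (p' - p) * (-(σ * κ)) * (S + p ^ 2) =
            σ * p ^ 2 * (2 * (q * σ - p * κ) + p * κ + p' * κ) + 2 * (p ^ 2 * q * T) -
              (p' - p) * (-κ) * σ * S := by ring
        rw [h0] at e
        have f1 : (p' - p) * (-κ) * σ * S ≤ (p' - p) * (-κ) * σ * p ^ 2 := by
          have g1 : 0 ≤ p' - p := by linarith only [hpp]
          have g2 : 0 ≤ -κ := by linarith only [hk]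
          gcongr
        have f2 : 0 < σ * p ^ 2 * (2 * p' * (1 + κ)) := by
          have : 0 < 1 + κ := by linarith only [hκ']
          positivity
        nlinarith only [hqT, e, f1, f2]
      linarith only [a2]
    · have b1 : 0 ≤ p * (2 * (p * q / (S + p ^ 2))) := by positivity
      have b2 : p' * -(σ * κ / (T + σ ^ 2)) ≤ p * -(σ * κ / (T + σ ^ 2)) := by
        have : 0 ≤ -(σ * κ / (T + σ ^ 2)) := by linarith only [a1]
        gcongr
      rcases lt_or_eq_of_le hq with hq0 | hq0
      · have b3 : 0 < p * (2 * (p * q / (S + p ^ 2))) := by positivity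
        linarith only [b2, b3]
      · have c1 : -κ * p = p' := by rw [← hq0] at h0; linarith only [h0]
        have c2 : σ * κ / (T + σ ^ 2) < 0 := by
          apply div_neg_of_neg_of_pos
          · nlinarith
          · positivity
        have c3 : p' < p := by nlinarith only [c1, hp, hκ']
        have c4 : p' * -(σ * κ / (T + σ ^ 2)) < p * -(σ * κ / (T + σ ^ 2)) := by
          have : 0 < -(σ * κ / (T + σ ^ 2)) := by linarith only [c2]
          gcongr
        linarith only [b1, c4]

/-- **The level inequality of a twist region with two crossings.** -/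
theorem k2_level {u v : ℂ} (hu : 0 < u.re) (hu' : u.re ≤ 1 / 2) (hv : 0 < v.re)
    (hs : u.re + v.re < 1) (ht : |sinh (π * u.im)| ≤ sin (π * u.re)) :
    sin (π * v.re) * |CC (u + v)| < sin (π * u.re) * (2 * CC u - CC (u + v)) := by
  have hpi := pi_pos
  have e0 : cos (π * u.re) * sin (π * (u.re + v.re)) - sin (π * u.re) * cos (π * (u.re + v.re)) =
      sin (π * v.re) := by
    have : π * v.re = π * (u.re + v.re) - π * u.re := by ring
    rw [this, sin_sub]
    ring
  have hc : -1 < cos (π * (u.re + v.re)) ∧ cos (π * (u.re + v.re)) < 1 := by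
    constructor
    · rw [← cos_pi]
      exact cos_lt_cos_of_nonneg_of_le_pi (by positivity) le_rfl (by nlinarith only [hs, hpi])
    · rw [← cos_zero]
      exact cos_lt_cos_of_nonneg_of_le_pi le_rfl (by nlinarith only [hu, hu', hs, hpi]) (by positivity)
  have key := k2_core (p := sin (π * u.re)) (q := cos (π * u.re)) (p' := sin (π * v.re))
    (σ := sin (π * (u.re + v.re))) (κ := cos (π * (u.re + v.re))) (S := sinh (π * u.im) ^ 2)
    (T := sinh (π * (u.im + v.im)) ^ 2)
    (sin_pos_of_pos_of_lt_pi (by positivity) (by nlinarith only [hpi, hu']))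
    (cos_nonneg_of_mem_Icc ⟨by nlinarith only [hpi, hu], by nlinarith only [hu', hpi]⟩)
    (sin_pos_of_pos_of_lt_pi (by positivity) (by nlinarith only [hu, hpi, hs]))
    (sin_pos_of_pos_of_lt_pi (by positivity) (by nlinarith only [hs, hpi])) (sq_nonneg _) (sq_nonneg _) e0
    hc.2 hc.1 (by rw [← sq_abs]; gcongr)
  rw [CC_eq u, CC_eq (u + v)]
  simp only [Complex.add_re, Complex.add_im]
  rw [abs_mul, abs_of_pos hpi]
  nlinarith only [key, hpi, mul_lt_mul_of_pos_left key hpi]

end Pool.Agent.Work.MP_b30479_gt.G2
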