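import Pool.Agent.Work.MP_b30479_gt.G2.WMMA
import Pool.Agent.Work.NumU.GenD
import Pool.Agent.Work.MP_b30479_gt.G2.RngO

/-!
# Kinds of modes next to a digit `±1`: common tools

`tot`: total gain of a hinge between a digit `1` and a `2` at an end, with the penalty.
`one_pos`: the other hinge of a digit `1` is in a trapezoid of height `16/100`, or it is on the
lower mirrored path of height `1/2` next to a `3`.
-/

namespace Pool.Agent.Work.MP_b30479_gt.G2

open Finset VOL Filter Topology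

namespace MKA

open NumG

/-! ### expressions -/

/-- total gain; `e = 1`: the digit `1` is the upper side, `e = -1`: it is the lower side; the hinge
is at `x` on its mirrored path of height `s`, the target is `c + i d`; the other hinge of the digit
`1` is at `y + i t` -/
def tot (e : ℤ) (c d x s y t : E) : E :=
  .add (.add (.mul .pi (.add (.add (.mul (.sub c x) t) (.mul (.q e 1) (.mul (.sub (.q 1 1) y)
      (.add d s)))) (.sub (.mul (.q 2 1) s) (.mul (.q e 2) (.add (.mul d (.add (.mul (.q 2 1) c)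
        (.q 1 1))) (.mul s (.add (.mul (.q 2 1) x) (.q 1 1))))))))
    (.sub (.ux (.add c y) (.sub t (.mul (.q e 1) d))) (.ux (.add x y) (.add t (.mul (.q e 1) s)))))
    (.mul (.q 2 1) (.sub (.ux x s) (.ux c d)))

theorem uu0 : NumU.uu 0 0 = 0 := by
  have h := TL.uu_zero 0
  rw [abs_zero, mul_zero, neg_zero] at h
  exact h

/-- the `2` at the end is the lower side -/
theorem tot_val (c d x s y t : E) (xs : List ℝ) : (tot 1 c d x s y t).val xs =
    (V2 ⟨c.val xs, d.val xs⟩ 0 - V2 ⟨x.val xs, -s.val xs⟩ 0) +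
      (V1 ⟨c.val xs, -d.val xs⟩ ⟨y.val xs, t.val xs⟩ - V1 ⟨x.val xs, s.val xs⟩ ⟨y.val xs, t.val xs⟩) +
      2 * Real.pi * s.val xs := by
  unfold V1 V2
  simp only [tot, E.val, NumU.UU_uu, Complex.add_re, Complex.add_im, Complex.sub_im, Complex.mul_im,
    pow_two, add_zero, sub_zero, Complex.zero_re, Complex.zero_im, uu0, NumU.uu_neg]
  push_cast
  ring_nf

/-- the digit `1` is the lower side -/
theorem tot_val' (c d x s y t : E) (xs : List ℝ) : (tot (-1) c d x s y t).val xs =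
    (V1 ⟨c.val xs, d.val xs⟩ ⟨y.val xs, t.val xs⟩ - V1 ⟨x.val xs, -s.val xs⟩ ⟨y.val xs, t.val xs⟩) +
      (V2 ⟨c.val xs, -d.val xs⟩ 0 - V2 ⟨x.val xs, s.val xs⟩ 0) +
      2 * Real.pi * s.val xs := by
  unfold V1 V2
  simp only [tot, E.val, NumU.UU_uu, Complex.add_re, Complex.add_im, Complex.sub_im, Complex.mul_im,
    pow_two, add_zero, sub_zero, Complex.zero_re, Complex.zero_im, uu0, NumU.uu_neg]
  push_cast
  ring_nf

/-- height of the hinge on its mirrored path -/
def hE : E := .mul (.q 1600 10000) (E.tr 700 140 350 (.var 0))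

/-- total gain for the target `cn / 10000`; `t` is the height of the other hinge -/
def TE (e cn : ℤ) (t : E) : E :=
  tot e (.q cn 10000) (.mul (.var 1) (E.tr 700 140 350 (.q cn 10000))) (.var 0) hE (.var 2) t

/-- ramp function of the hinge -/
noncomputable def τ7 (x : ℝ) : ℝ := tr 0 (((700 : ℤ) : ℝ) / 1000) (((140 : ℕ) : ℝ) / 1000) (((350 : ℕ) : ℝ) / 1000) x

/-- total gain, the `2` at the end is the lower side -/
noncomputable def G1 (c T x : ℝ) (X : ℂ) : ℝ :=
  (V2 ⟨c, T * τ7 c⟩ 0 - V2 ⟨x, -(16 / 100 * τ7 x)⟩ 0) +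
    (V1 ⟨c, -(T * τ7 c)⟩ X - V1 ⟨x, 16 / 100 * τ7 x⟩ X) + 2 * Real.pi * (16 / 100 * τ7 x)

/-- total gain, the digit `1` is the lower side -/
noncomputable def G2 (c T x : ℝ) (X : ℂ) : ℝ :=
  (V1 ⟨c, T * τ7 c⟩ X - V1 ⟨x, -(16 / 100 * τ7 x)⟩ X) +
    (V2 ⟨c, -(T * τ7 c)⟩ 0 - V2 ⟨x, 16 / 100 * τ7 x⟩ 0) + 2 * Real.pi * (16 / 100 * τ7 x)

theorem q16 : (((1600 : ℤ) : ℝ) / ((10000 : ℕ) : ℝ)) = 16 / 100 := by norm_num

theorem TE_val (cn : ℤ) (t : E) (x T y θ : ℝ) : (TE 1 cn t).val [x, T, y, θ] =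
    G1 ((cn : ℝ) / (10000 : ℕ)) T x ⟨y, t.val [x, T, y, θ]⟩ := by
  unfold TE G1 τ7
  rw [tot_val]
  simp only [hE, E.val, NumI.lkR, E.tr_val (XM := 700) (cl := 140) (cr := 350) (by norm_num)
    (by norm_num) (by norm_num), q16]

theorem TE_val' (cn : ℤ) (t : E) (x T y θ : ℝ) : (TE (-1) cn t).val [x, T, y, θ] =
    G2 ((cn : ℝ) / (10000 : ℕ)) T x ⟨y, t.val [x, T, y, θ]⟩ := by
  unfold TE G2 τ7
  rw [tot_val']
  simp only [hE, E.val, NumI.lkR, E.tr_val (XM := 700) (cl := 140) (cr := 350) (by norm_num)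
    (by norm_num) (by norm_num), q16]

/-! ### a point of a trapezoid -/

theorem theta {H τ t : ℝ} (h : |t| ≤ H * τ) : ∃ θ : ℝ, -1 ≤ θ ∧ θ ≤ 1 ∧ t = θ * (H * τ) := by
  rcases eq_or_lt_of_le ((abs_nonneg t).trans h) with h0 | h0
  · refine ⟨0, by norm_num, by norm_num, ?_⟩
    rw [← h0] at h ⊢
    rw [abs_nonpos_iff.1 h]
    ring
  · refine ⟨t / (H * τ), ?_, ?_, (div_mul_cancel₀ _ h0.ne').symm⟩
    · rw [le_div_iff₀ h0]
      linarith only [h, (abs_le.1 h).1]
    · rw [div_le_iff₀ h0]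
      linarith only [h, (abs_le.1 h).2]

theorem tr_env {XM cl cr y : ℝ} (y0 : 0 ≤ y) (y1 : y ≤ XM) (hX : XM ≤ 86 / 100)
    (hl : 13 / 100 ≤ cl) (hr : 20 / 100 ≤ cr ∨ XM = 65 / 100 ∧ cr = 15 / 100) :
    tr 0 XM cl cr y ≤ tr 0 (86 / 100) (13 / 100) (20 / 100) y := by
  unfold tr
  have hcl : 0 < cl := by linarith only [hl]
  have e1 : (y - 0) / cl ≤ (y - 0) / (13 / 100) := by
    rw [sub_zero]
    exact div_le_div_of_nonneg_left y0 (by norm_num) hl
  refine max_le_max le_rfl (le_min (min_le_left _ _) (le_min ?_ ?_))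
  · exact (min_le_right _ _).trans ((min_le_left _ _).trans e1)
  · rcases hr with hr | ⟨rfl, rfl⟩
    · have hcr : 0 < cr := by linarith only [hr]
      refine (min_le_right _ _).trans ((min_le_right _ _).trans ?_)
      refine (div_le_div_of_nonneg_left (by linarith only [y1]) (by norm_num) hr).trans ?_
      exact div_le_div_of_nonneg_right (by linarith only [hX]) (by norm_num)
    · rcases le_total y (2 / 100) with h | h
      · refine (min_le_left _ _).trans ?_
        rw [le_div_iff₀ (by norm_num)]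
        linarith only [y1]
      · refine (min_le_right _ _).trans ((min_le_right _ _).trans ?_)
        rw [div_le_div_iff₀ (by norm_num) (by norm_num)]
        linarith only [h]

end MKA

open SR MKA

variable {M : ℕ} {b : Fin (M + 1) → ℤ} {zs : DD (tyW b) ⊕ ZZ (tyW b) → ℂ}
variable {R : Finset (DD (tyW b))} {nb : Finset (DD (tyW b) ⊕ ZZ (tyW b))}
variable {z : DD (tyW b) ⊕ ZZ (tyW b) → ℂ} {p : DD (tyW b) → ℝ}
variable {h h' : Fin M} {i j j' : Fin (M + 1)} {s : Fin 3} {x c : ℝ}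

namespace MKA

/-- parameters of a hinge of a digit `1` -/
theorem par_one (A : Adj h i s j) (hi : clsW b i = .one) :
    wXM b h ≤ 86 / 100 ∧ 13 / 100 ≤ wcl b h ∧ (20 / 100 ≤ wcr b h ∨
      wXM b h = 65 / 100 ∧ wcr b h = 15 / 100) ∧
      (clsW b j = .three → s = 2 → wXM b h = 65 / 100 ∧ wcl b h = 13 / 100 ∧
        wcr b h = 15 / 100) := by
  rw [A.XM_eq b, A.cl_eq b, A.cr_eq b, hi]
  unfold hpp
  rcases A.slot with rfl | rfl
  · rw [if_neg (by decide)]
    rcases hj : clsW b j <;> simp only [hp, hp1] <;> (try split_ifs) <;> norm_num <;> simp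
  · rw [if_pos rfl]
    rcases hj : clsW b j <;> simp only [hp, hp1] <;> (try split_ifs) <;> norm_num <;> simp

/-- heights of the mirrored paths of a hinge of a digit `1` -/
theorem mhs_one (A : Adj h i s j) (hi : clsW b i = .one) (q : Fin 3) :
    mhs b h q = 16 / 100 ∨ clsW b j = .three ∧ s = 2 ∧ mhs b h q = 1 / 2 := by
  unfold mhs
  cases A with
  | l =>
    rw [hi]
    by_cases hj : clsW b h.succ = .three
    · right
      exact ⟨hj, rfl, by simp [hj]⟩
    · left
      simp [hj]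
  | r =>
    left
    rw [hi]
    simp

/-- height of the saddle point at a hinge of a digit `1` -/
theorem Th_one (hb : ClassW b) (hL : Loc b zs) (A : Adj h i s j) (hi : clsW b i = .one) :
    |Th b zs h i| ≤ 16 / 100 := by
  have h1 := Th_mem hb hL A (by rw [hi]; decide)
  rw [hi] at h1
  rw [abs_le]
  rcases hj : clsW b j <;> rw [hj] at h1 <;> simp only [hbox] at h1 <;>
    constructor <;> linarith only [h1, h1.1, h1.2]

/-- **The other hinge of a digit `1`.** -/
theorem one_pos (hb : ClassW b) (hL : Loc b zs) (A : Adj h' i s j') (hi : clsW b i = .one)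
    {X : ℂ} (P : NPos b zs nb p h' i s X) :
    (0 ≤ X.re ∧ X.re ≤ 86 / 100 ∧ ∃ θ : ℝ, -1 ≤ θ ∧ θ ≤ 1 ∧
      X.im = θ * (16 / 100 * tr 0 (86 / 100) (13 / 100) (20 / 100) X.re)) ∨
    (clsW b j' = .three ∧ s = 2 ∧ 0 ≤ X.re ∧ X.re ≤ 65 / 100 ∧ X.im =
      -(1 / 2 * tr 0 (65 / 100) (13 / 100) (15 / 100) X.re)) := by
  have hT := Th_one hb hL A hi
  obtain ⟨hX, hl, hr, h3⟩ := par_one A hi
  have hre := P.re
  have he := tr_env hre.1 hre.2 hX hl hr
  have main : |X.im| ≤ 16 / 100 * trh b h' X.re → (0 ≤ X.re ∧ X.re ≤ 86 / 100 ∧ ∃ θ : ℝ, -1 ≤ θ ∧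
      θ ≤ 1 ∧ X.im = θ * (16 / 100 * tr 0 (86 / 100) (13 / 100) (20 / 100) X.re)) := by
    intro h1
    refine ⟨hre.1, hre.2.trans hX, theta (h1.trans ?_)⟩
    exact mul_le_mul_of_nonneg_left he (by norm_num)
  rcases mhs_one A hi s with hm | ⟨hj, hs, hm⟩
  · left
    apply main
    refine P.abs_im hT fun _ => ?_
    rcases mhs_one A hi s.rev with hm' | ⟨hj, hs, hm'⟩
    · exact ⟨hm'.le, hm.le⟩
    · exfalso
      subst hs
      have h4 : mhs b h' 2 = 1 / 2 := by
        unfold mhs at hm' ⊢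
        cases A with
        | l => rw [hi, hj]; simp
      rw [h4] at hm
      norm_num at hm
  · have ht := trh_mem (b := b) h' X.re
    have hT2 : 0 < Th b zs h' i := by
      have h1 := Th_mem hb hL A (by rw [hi]; decide)
      rw [hi, hj] at h1
      simp only [hbox] at h1
      linarith only [h1, h1.1]
    cases P with
    | main y y0 y1 hn e hp =>
      left
      apply main
      rw [e] at ht ⊢
      show |Th b zs h' i * trh b h' y| ≤ 16 / 100 * trh b h' y
      rw [abs_mul, abs_of_nonneg ht.1]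
      exact mul_le_mul_of_nonneg_right hT ht.1
    | real y y0 y1 hn e hp =>
      left
      apply main
      rw [e] at ht ⊢
      show |(0 : ℝ)| ≤ 16 / 100 * trh b h' y
      rw [abs_zero]
      exact mul_nonneg (by norm_num) ht.1
    | up y y0 y1 hn hr hT e hp => exact absurd hT (not_le.2 hT2)
    | dn y y0 y1 hn hr hT e hp =>
      right
      obtain ⟨e1, e2, e3⟩ := h3 hj hs
      rw [e]
      refine ⟨hj, hs, y0, by rw [e1] at y1; exact y1, ?_⟩
      show -(mhs b h' s * trh b h' y) = _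
      rw [hm]
      unfold trh
      rw [e1, e2, e3]

/-- parameters of a hinge between a digit `1` and a `2` at an end -/
theorem par_twoE (A : Adj h i s j) (hc : clsW b i = .twoE ∧ clsW b j = .one ∨
    clsW b i = .one ∧ clsW b j = .twoE) :
    wXM b h = 700 / 1000 ∧ (∀ x, trh b h x = τ7 x) ∧ ∀ q, mhs b h q = 16 / 100 := by
  have h1 : wXM b h = 700 / 1000 ∧ wcl b h = 140 / 1000 ∧ wcr b h = 350 / 1000 := by
    rw [A.XM_eq b, A.cl_eq b, A.cr_eq b]
    unfold hpp
    rcases hc with ⟨hi, hj⟩ | ⟨hi, hj⟩ <;> rw [hi, hj] <;> simp only [hp, hp1] <;> split_ifs <;>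
      norm_num
  refine ⟨h1.1, fun x => ?_, fun q => ?_⟩
  · unfold trh τ7
    rw [h1.1, h1.2.1, h1.2.2]
    norm_num
  · unfold mhs
    cases A with
    | l => rcases hc with ⟨hi, hj⟩ | ⟨hi, hj⟩ <;> rw [hi, hj] <;> simp
    | r => rcases hc with ⟨hi, hj⟩ | ⟨hi, hj⟩ <;> rw [hi, hj] <;> simp

end MKA

end Pool.Agent.Work.MP_b30479_gt.G2
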