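import Pool.Agent.Work.MP_b30479_gt.G2.WMMD
import Pool.Agent.Work.NumU.GenD

/-!
# Modes `1 | 3`, the `3` at an end: expressions and the kink of the first order condition
-/

namespace Pool.Agent.Work.MP_b30479_gt.G2

open Finset VOL Filter Topology

namespace MKE

open NumG

/-- ramp function of the hinge -/
def tauE (x : E) : E := E.tr 600 140 250 x
/-- height of the mirrored path at the variable `0` -/
def sE : E := .mul (E.c 1600) (tauE (.var 0))
/-- height of the other hinge of the digit `1` -/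
def tkE : E := .mul (.var 3) (.mul (E.c 1600) (E.tr 860 130 200 (.var 2)))
/-- difference of the values of a digit `1` at `c + i d` and at `x - i s` -/
def dk (c d x s y t : E) : E :=
  .add (.add (.mul .pi (.add (.mul (.sub c x) t) (.mul (.sub y (.q 1 1)) (.add d s))))
    (.sub (.ux (.add c y) (.add t d)) (.ux (.add x y) (.sub t s)))) (.sub (.ux x s) (.ux c d))
/-- value of a digit `3` at an end -/
def V3x (x t y s : E) : E :=
  .neg (.add (.mul .pi (.sub (.add (.mul x s) (.mul y (.add t s))) (.mul (.q 1 2) s)))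
    (.add (.ux (.sub y x) (.sub s t)) (.ux x t)))
/-- ramp function of the inner variable -/
def tlE (y : E) : E := E.tr 770 100 200 y
/-- bound for the gain of the digit `1`: the variables `0`, `1` are `x`, `T` -/
def phE (a0 : ℤ) (a : List (ℤ × ℤ × ℕ)) (s0 : ℤ) (s : List (ℤ × ℤ × ℕ)) : E :=
  .sub (E.pl (.var 0) a0 a) (.mul (.var 1) (E.pl (.var 0) s0 s))
/-- gain of the digit `1`, minus the bound -/
def kk (cn : ℤ) (ph : E) : E :=
  .sub (dk (E.c cn) (.mul (.var 1) (tauE (E.c cn))) (.var 0) sE (.var 2) tkE) ph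
/-- bound of the old value of the `3`, minus this value; variables `x`, `y_l`, `T_l` -/
def old (O t p : E) : E := .sub (.add O p) (V3x (.var 0) sE (.var 1) t)
def tm : E := .mul (.var 2) (tlE (.var 1))
def tu : E := .mul (E.c 1600) (tlE (.var 1))
def pp : E := .mul .pi (.mul (E.c 3200) (tlE (.var 1)))
/-- the new value minus the old one; variables `x`, `T`, `T_l` -/
def clo (cn mn : ℤ) (O ph ex : E) : E :=
  .add (.sub (.add (V3x (E.c cn) (.neg (.mul (.var 1) (tauE (E.c cn)))) (E.c mn)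
    (.mul (.var 2) (tlE (E.c mn)))) ph) O) (.add (.mul .pi (.mul (E.c 3200) (tauE (.var 0)))) ex)
/-- slope of the mirrored path -/
def mR : E := .q 64 100
/-- factor of the first order condition -/
def mu : E := .q 2 10
def kR (cn : ℤ) (ph : E) : D :=
  .add (.of (kk cn ph)) (.mul (.of mu) (D.dh1 (.var 0) (.neg sE) (.var 2) tkE mR))
def oldR (O t p : E) : D :=
  .add (.of (old O t p)) (.mul (.of mu) (D.dh3a (.var 0) sE (.var 1) t (.neg mR)))
/-- only the inner variable is moved -/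
def inn (mn : ℤ) (t p : E) : E :=
  .add (.sub (V3x (.var 0) sE (E.c mn) (.mul (.var 2) (tlE (E.c mn)))) (V3x (.var 0) sE (.var 1) t)) p
/-- variables `x`, `T`, `y_l`, `T_l` -/
def tm' : E := .mul (.var 3) (tlE (.var 2))
def tu' : E := .mul (E.c 1600) (tlE (.var 2))
def pp' : E := .mul .pi (.mul (E.c 3200) (tlE (.var 2)))
def keep (cn : ℤ) (ph t : E) : E :=
  .add (.sub (.add (V3x (E.c cn) (.neg (.mul (.var 1) (tauE (E.c cn)))) (.var 2) t) ph)
    (V3x (.var 0) sE (.var 2) t)) (.mul .pi (.mul (E.c 3200) (tauE (.var 0))))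
def resp (cn mn : ℤ) (ph t p : E) : E :=
  .add (.sub (.add (V3x (E.c cn) (.neg (.mul (.var 1) (tauE (E.c cn)))) (E.c mn)
    (.mul (.var 3) (tlE (E.c mn)))) ph) (V3x (.var 0) sE (.var 2) t))
    (.add p (.mul .pi (.mul (E.c 3200) (tauE (.var 0)))))

/-! ### real functions -/

noncomputable def τ6 (x : ℝ) : ℝ :=
  tr 0 (((600 : ℤ) : ℝ) / 1000) (((140 : ℕ) : ℝ) / 1000) (((250 : ℕ) : ℝ) / 1000) x
noncomputable def τl (x : ℝ) : ℝ :=
  tr 0 (((770 : ℤ) : ℝ) / 1000) (((100 : ℕ) : ℝ) / 1000) (((200 : ℕ) : ℝ) / 1000) x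

/-- gain of the digit `1` -/
noncomputable def Gk (c T x : ℝ) (X : ℂ) : ℝ :=
  V1 ⟨c, T * τ6 c⟩ X - V1 ⟨x, -(16 / 100 * τ6 x)⟩ X
/-- the bound -/
noncomputable def ph (a0 : ℤ) (a : List (ℤ × ℤ × ℕ)) (s0 : ℤ) (s : List (ℤ × ℤ × ℕ)) (x T : ℝ) : ℝ :=
  plR x a0 a - T * plR x s0 s

theorem tauE_val (x : E) (xs : List ℝ) : (tauE x).val xs = τ6 (x.val xs) :=
  E.tr_val (XM := 600) (cl := 140) (cr := 250) (by norm_num) (by norm_num) (by norm_num) _ _
theorem tlE_val (x : E) (xs : List ℝ) : (tlE x).val xs = τl (x.val xs) :=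
  E.tr_val (XM := 770) (cl := 100) (cr := 200) (by norm_num) (by norm_num) (by norm_num) _ _
theorem c_val (n : ℤ) (xs : List ℝ) : (E.c n).val xs = (n : ℝ) / 10000 := by
  show (n : ℝ) / ((10000 : ℕ) : ℝ) = _
  norm_num
theorem sE_val (x : ℝ) (xs : List ℝ) : sE.val (x :: xs) = 16 / 100 * τ6 x := by
  show (E.c 1600).val (x :: xs) * (tauE (.var 0)).val (x :: xs) = _
  rw [c_val, tauE_val]
  show ((1600 : ℤ) : ℝ) / 10000 * τ6 x = _
  norm_num

theorem dk_val (c d x s y t : E) (xs : List ℝ) : (dk c d x s y t).val xs =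
    V1 ⟨c.val xs, d.val xs⟩ ⟨y.val xs, t.val xs⟩ -
      V1 ⟨x.val xs, -s.val xs⟩ ⟨y.val xs, t.val xs⟩ := by
  unfold V1
  simp only [dk, E.val, NumU.UU_uu, Complex.add_re, Complex.add_im, Complex.sub_im, Complex.mul_im,
    NumU.uu_neg]
  push_cast
  rw [show t.val xs - s.val xs = -s.val xs + t.val xs by ring,
    show t.val xs + d.val xs = d.val xs + t.val xs by ring]
  ring

theorem V3x_val (x t y s : E) (xs : List ℝ) : (V3x x t y s).val xs =
    V3 ⟨x.val xs, t.val xs⟩ ⟨y.val xs, s.val xs⟩ 0 := by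
  rw [← E.V3e_val]
  simp only [V3x, E.V3e, E.val]

theorem ph_val (a0 : ℤ) (a : List (ℤ × ℤ × ℕ)) (s0 : ℤ) (s : List (ℤ × ℤ × ℕ)) (x T : ℝ)
    (xs : List ℝ) : (phE a0 a s0 s).val (x :: T :: xs) = ph a0 a s0 s x T := by
  simp only [phE, E.val, E.pl_val]
  rfl

end MKE

end Pool.Agent.Work.MP_b30479_gt.G2
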