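import Pool.Agent.Work.MP_b30479_gt.G2.MKE

/-!
# Modes `1 | 3`, the `3` at an end: the inequalities
-/

namespace Pool.Agent.Work.MP_b30479_gt.G2

open Finset VOL Filter Topology

namespace MKE

open NumG

/-! ### values of the expressions -/

theorem tkE_val (x T y θ : ℝ) : tkE.val [x, T, y, θ] =
    θ * (16 / 100 * tr 0 (86 / 100) (13 / 100) (20 / 100) y) := by
  show θ * ((E.c 1600).val [x, T, y, θ] * (E.tr 860 130 200 (.var 2)).val [x, T, y, θ]) = _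
  rw [c_val, E.tr_val (by norm_num) (by norm_num) (by norm_num)]
  show θ * (((1600 : ℤ) : ℝ) / 10000 * tr 0 _ _ _ y) = _
  norm_num

theorem kk_val (cn : ℤ) (a0 : ℤ) (a : List (ℤ × ℤ × ℕ)) (s0 : ℤ) (s : List (ℤ × ℤ × ℕ))
    (x T y θ : ℝ) : (kk cn (phE a0 a s0 s)).val [x, T, y, θ] =
      Gk (cn / 10000) T x ⟨y, θ * (16 / 100 * tr 0 (86 / 100) (13 / 100) (20 / 100) y)⟩ -
        ph a0 a s0 s x T := by
  show (dk (E.c cn) (.mul (.var 1) (tauE (E.c cn))) (.var 0) sE (.var 2) tkE).val [x, T, y, θ] -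
    (phE a0 a s0 s).val [x, T, y, θ] = _
  rw [dk_val, ph_val, tkE_val, sE_val, c_val]
  have e1 : (E.mul (.var 1) (tauE (E.c cn))).val [x, T, y, θ] = T * τ6 (cn / 10000) := by
    show T * (tauE (E.c cn)).val [x, T, y, θ] = _
    rw [tauE_val, c_val]
  rw [e1]
  rfl

theorem kR_val (cn : ℤ) (a0 : ℤ) (a : List (ℤ × ℤ × ℕ)) (s0 : ℤ) (s : List (ℤ × ℤ × ℕ))
    (x T y θ : ℝ) : (kR cn (phE a0 a s0 s)).val [x, T, y, θ] =
      Gk (cn / 10000) T x ⟨y, θ * (16 / 100 * tr 0 (86 / 100) (13 / 100) (20 / 100) y)⟩ -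
        ph a0 a s0 s x T + 2 / 10 * dh1 ⟨x, -(16 / 100 * τ6 x)⟩
          ⟨y, θ * (16 / 100 * tr 0 (86 / 100) (13 / 100) (20 / 100) y)⟩ (64 / 100) := by
  show (kk cn (phE a0 a s0 s)).val [x, T, y, θ] + mu.val [x, T, y, θ] *
    (D.dh1 (.var 0) (.neg sE) (.var 2) tkE mR).val [x, T, y, θ] = _
  rw [kk_val, D.dh1_val]
  have e1 : (E.neg sE).val [x, T, y, θ] = -(16 / 100 * τ6 x) := by
    show -(sE.val [x, T, y, θ]) = _
    rw [sE_val]
  have e2 : mR.val [x, T, y, θ] = 64 / 100 := by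
    show ((64 : ℤ) : ℝ) / ((100 : ℕ) : ℝ) = _
    norm_num
  have e3 : mu.val [x, T, y, θ] = 2 / 10 := by
    show ((2 : ℤ) : ℝ) / ((10 : ℕ) : ℝ) = _
    norm_num
  rw [e1, e2, e3, tkE_val]
  rfl

theorem tm_val (x y T w : ℝ) : tm.val [x, y, T, w] = T * τl y := by
  show T * (tlE (.var 1)).val [x, y, T, w] = _
  rw [tlE_val]
  rfl

theorem tu_val (x y T w : ℝ) : tu.val [x, y, T, w] = 16 / 100 * τl y := by
  show (E.c 1600).val [x, y, T, w] * (tlE (.var 1)).val [x, y, T, w] = _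
  rw [tlE_val, c_val]
  show ((1600 : ℤ) : ℝ) / 10000 * τl y = _
  norm_num

theorem pp_val (x y T w : ℝ) : pp.val [x, y, T, w] = 2 * Real.pi * (16 / 100 * τl y) := by
  show Real.pi * ((E.c 3200).val [x, y, T, w] * (tlE (.var 1)).val [x, y, T, w]) = _
  rw [tlE_val, c_val]
  show Real.pi * (((3200 : ℤ) : ℝ) / 10000 * τl y) = _
  push_cast
  ring

theorem tm'_val (x T y w : ℝ) : tm'.val [x, T, y, w] = w * τl y := by
  show w * (tlE (.var 2)).val [x, T, y, w] = _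
  rw [tlE_val]
  rfl

theorem tu'_val (x T y w : ℝ) : tu'.val [x, T, y, w] = 16 / 100 * τl y := by
  show (E.c 1600).val [x, T, y, w] * (tlE (.var 2)).val [x, T, y, w] = _
  rw [tlE_val, c_val]
  show ((1600 : ℤ) : ℝ) / 10000 * τl y = _
  norm_num

theorem pp'_val (x T y w : ℝ) : pp'.val [x, T, y, w] = 2 * Real.pi * (16 / 100 * τl y) := by
  show Real.pi * ((E.c 3200).val [x, T, y, w] * (tlE (.var 2)).val [x, T, y, w]) = _
  rw [tlE_val, c_val]
  show Real.pi * (((3200 : ℤ) : ℝ) / 10000 * τl y) = _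
  push_cast
  ring

/-- value of the digit `3`, the hinge on its mirrored path at `x` -/
noncomputable def W (x : ℝ) (X : ℂ) : ℝ := V3 ⟨x, 16 / 100 * τ6 x⟩ X 0

theorem W_val (y t : E) (x : ℝ) (xs : List ℝ) : (V3x (.var 0) sE y t).val (x :: xs) =
    W x ⟨y.val (x :: xs), t.val (x :: xs)⟩ := by
  rw [V3x_val, sE_val]
  rfl

theorem old_val (O t p : E) (x y T w : ℝ) : (old O t p).val [x, y, T, w] =
    O.val [x, y, T, w] + p.val [x, y, T, w] - W x ⟨y, t.val [x, y, T, w]⟩ := by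
  show O.val [x, y, T, w] + p.val [x, y, T, w] - (V3x (.var 0) sE (.var 1) t).val [x, y, T, w] = _
  rw [W_val]
  rfl

theorem inn_val (mn : ℤ) (t p : E) (x y T w : ℝ) : (inn mn t p).val [x, y, T, w] =
    W x ⟨mn / 10000, T * τl (mn / 10000)⟩ - W x ⟨y, t.val [x, y, T, w]⟩ + p.val [x, y, T, w] := by
  show (V3x (.var 0) sE (E.c mn) (.mul (.var 2) (tlE (E.c mn)))).val [x, y, T, w] -
    (V3x (.var 0) sE (.var 1) t).val [x, y, T, w] + p.val [x, y, T, w] = _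
  rw [W_val, W_val, c_val]
  have e1 : (E.mul (.var 2) (tlE (E.c mn))).val [x, y, T, w] = T * τl (mn / 10000) := by
    show T * (tlE (E.c mn)).val [x, y, T, w] = _
    rw [tlE_val, c_val]
  rw [e1]
  rfl

theorem oldR_val (O t p : E) (x y T w : ℝ) : (oldR O t p).val [x, y, T, w] =
    O.val [x, y, T, w] + p.val [x, y, T, w] - W x ⟨y, t.val [x, y, T, w]⟩ +
      2 / 10 * dh3a ⟨x, 16 / 100 * τ6 x⟩ ⟨y, t.val [x, y, T, w]⟩ (-(64 / 100)) := by
  show (old O t p).val [x, y, T, w] + mu.val [x, y, T, w] *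
    (D.dh3a (.var 0) sE (.var 1) t (.neg mR)).val [x, y, T, w] = _
  rw [old_val, D.dh3a_val]
  have e2 : (E.neg mR).val [x, y, T, w] = -(64 / 100) := by
    show -(((64 : ℤ) : ℝ) / ((100 : ℕ) : ℝ)) = _
    norm_num
  have e3 : mu.val [x, y, T, w] = 2 / 10 := by
    show ((2 : ℤ) : ℝ) / ((10 : ℕ) : ℝ) = _
    norm_num
  rw [e2, e3, sE_val]
  rfl

/-- value of the digit `3` at the target `c` -/
noncomputable def N (c T : ℝ) (X : ℂ) : ℝ := V3 ⟨c, -(T * τ6 c)⟩ X 0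

theorem N_val (cn : ℤ) (y t : E) (x T : ℝ) (xs : List ℝ) :
    (V3x (E.c cn) (.neg (.mul (.var 1) (tauE (E.c cn)))) y t).val (x :: T :: xs) =
      N (cn / 10000) T ⟨y.val (x :: T :: xs), t.val (x :: T :: xs)⟩ := by
  rw [V3x_val, c_val]
  have e1 : (E.neg (.mul (.var 1) (tauE (E.c cn)))).val (x :: T :: xs) = -(T * τ6 (cn / 10000)) := by
    show -(T * (tauE (E.c cn)).val (x :: T :: xs)) = _
    rw [tauE_val, c_val]
  rw [e1]
  rfl

theorem pen_val (x : ℝ) (xs : List ℝ) : (E.mul .pi (.mul (E.c 3200) (tauE (.var 0)))).val (x :: xs) =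
    2 * Real.pi * (16 / 100 * τ6 x) := by
  show Real.pi * ((E.c 3200).val (x :: xs) * (tauE (.var 0)).val (x :: xs)) = _
  rw [tauE_val, c_val]
  show Real.pi * (((3200 : ℤ) : ℝ) / 10000 * τ6 x) = _
  push_cast
  ring

theorem clo_val (cn mn : ℤ) (O ex : E) (a0 : ℤ) (a : List (ℤ × ℤ × ℕ)) (s0 : ℤ)
    (s : List (ℤ × ℤ × ℕ)) (x T u w : ℝ) : (clo cn mn O (phE a0 a s0 s) ex).val [x, T, u, w] =
      N (cn / 10000) T ⟨mn / 10000, u * τl (mn / 10000)⟩ + ph a0 a s0 s x T -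
        O.val [x, T, u, w] + (2 * Real.pi * (16 / 100 * τ6 x) + ex.val [x, T, u, w]) := by
  show (V3x (E.c cn) (.neg (.mul (.var 1) (tauE (E.c cn)))) (E.c mn)
    (.mul (.var 2) (tlE (E.c mn)))).val [x, T, u, w] + (phE a0 a s0 s).val [x, T, u, w] -
    O.val [x, T, u, w] + ((E.mul .pi (.mul (E.c 3200) (tauE (.var 0)))).val [x, T, u, w] +
      ex.val [x, T, u, w]) = _
  rw [N_val, ph_val, pen_val, c_val]
  have e1 : (E.mul (.var 2) (tlE (E.c mn))).val [x, T, u, w] = u * τl (mn / 10000) := by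
    show u * (tlE (E.c mn)).val [x, T, u, w] = _
    rw [tlE_val, c_val]
  rw [e1]

theorem keep_val (cn : ℤ) (t : E) (a0 : ℤ) (a : List (ℤ × ℤ × ℕ)) (s0 : ℤ)
    (s : List (ℤ × ℤ × ℕ)) (x T y w : ℝ) : (keep cn (phE a0 a s0 s) t).val [x, T, y, w] =
      N (cn / 10000) T ⟨y, t.val [x, T, y, w]⟩ + ph a0 a s0 s x T - W x ⟨y, t.val [x, T, y, w]⟩ +
        2 * Real.pi * (16 / 100 * τ6 x) := by
  show (V3x (E.c cn) (.neg (.mul (.var 1) (tauE (E.c cn)))) (.var 2) t).val [x, T, y, w] +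
    (phE a0 a s0 s).val [x, T, y, w] - (V3x (.var 0) sE (.var 2) t).val [x, T, y, w] +
    (E.mul .pi (.mul (E.c 3200) (tauE (.var 0)))).val [x, T, y, w] = _
  rw [N_val, ph_val, pen_val, W_val]
  rfl

theorem resp_val (cn mn : ℤ) (t p : E) (a0 : ℤ) (a : List (ℤ × ℤ × ℕ)) (s0 : ℤ)
    (s : List (ℤ × ℤ × ℕ)) (x T y w : ℝ) : (resp cn mn (phE a0 a s0 s) t p).val [x, T, y, w] =
      N (cn / 10000) T ⟨mn / 10000, w * τl (mn / 10000)⟩ + ph a0 a s0 s x T -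
        W x ⟨y, t.val [x, T, y, w]⟩ + (p.val [x, T, y, w] + 2 * Real.pi * (16 / 100 * τ6 x)) := by
  show (V3x (E.c cn) (.neg (.mul (.var 1) (tauE (E.c cn)))) (E.c mn)
    (.mul (.var 3) (tlE (E.c mn)))).val [x, T, y, w] + (phE a0 a s0 s).val [x, T, y, w] -
    (V3x (.var 0) sE (.var 2) t).val [x, T, y, w] + (p.val [x, T, y, w] +
    (E.mul .pi (.mul (E.c 3200) (tauE (.var 0)))).val [x, T, y, w]) = _
  rw [N_val, ph_val, pen_val, W_val, c_val]
  have e1 : (E.mul (.var 3) (tlE (E.c mn))).val [x, T, y, w] = w * τl (mn / 10000) := by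
    show w * (tlE (E.c mn)).val [x, T, y, w] = _
    rw [tlE_val, c_val]
  rw [e1]
  rfl

theorem z_val (xs : List ℝ) : (E.c 0).val xs = 0 := by
  rw [c_val]
  norm_num

end MKE

end Pool.Agent.Work.MP_b30479_gt.G2
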