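import Pool.Agent.Work.MP_b30479_gt.G2.WMMD

/-!
# The kink of the first order condition at an end with three crossings

If the difference of the inner variable and of the hinge of an end `3` is real and in `(-1, 0)`, then
the value is not differentiable along the mirrored path, and the hinge is not at a maximum.
-/

namespace Pool.Agent.Work.MP_b30479_gt.G2

open Finset VOL Filter Topology

/-- the value of a digit `3` with one of the two branches at the kink -/
noncomputable def V3s (σ : ℝ) (u v w : ℂ) : ℝ :=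
  -(Real.pi / 2 * (2 * u * v + (v - w) ^ 2 - v + w).im) + UU (v + w) - UU (v - u + 1) - UU v -
    UU u - 2 * UU w + σ * (Real.pi * (v - u).im)

theorem V3s_le {σ : ℝ} (h : |σ| ≤ 1) (u v w : ℂ) : V3s σ u v w ≤ V3 u v w := by
  have h1 := UU_add_one (v - u)
  have h2 : σ * (Real.pi * (v - u).im) ≤ Real.pi * |(v - u).im| := by
    have h3 : σ * (Real.pi * (v - u).im) ≤ |σ * (Real.pi * (v - u).im)| := le_abs_self _
    rw [abs_mul, abs_mul, abs_of_pos Real.pi_pos] at h3
    have h4 : |σ| * (Real.pi * |(v - u).im|) ≤ 1 * (Real.pi * |(v - u).im|) :=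
      mul_le_mul_of_nonneg_right h (by positivity)
    linarith only [h3, h4]
  unfold V3s V3
  linarith only [h1, h2]

theorem V3s_eq {σ : ℝ} {u v : ℂ} (w : ℂ) (h : (v - u).im = 0) : V3s σ u v w = V3 u v w := by
  have h1 := UU_add_one (v - u)
  rw [h, abs_zero, mul_zero, add_zero] at h1
  unfold V3s V3
  rw [h, h1]
  ring

theorem hasDerivAt_V3s {g : ℝ → ℂ} {m t : ℝ} (σ : ℝ) (hg : HasDerivAt g (1 + m * Complex.I) t)
    (v w : ℂ) (h1 : DOk (g t)) (h2 : v - g t + 1 ∈ strip) :
    HasDerivAt (fun t => V3s σ (g t) v w) (-(Real.pi * (v.im + m * v.re)) - dU (g t) m +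
      dU (v - g t + 1) m - σ * (Real.pi * m)) t := by
  have a1 := hasDerivAt_dU hg h1
  have a2 : HasDerivAt (fun t => UU (v - g t + 1)) (-dU (v - g t + 1) m) t := by
    refine (hasDerivAt_UU ((hg.const_sub v).add_const 1) (Or.inr h2)).congr_deriv ?_
    unfold dU
    simp
    ring
  have a4 : HasDerivAt (fun t => 2 * g t * v + (v - w) ^ 2 - v + w)
      (2 * (1 + m * Complex.I) * v) t := by
    have := (((hg.const_mul 2).mul_const v).add_const ((v - w) ^ 2 - v + w))
    refine (this.congr_of_eventuallyEq (Eventually.of_forall fun s => ?_)).congr_deriv rfl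
    ring
  have a3 := ((hasDerivAt_im' a4).const_mul (Real.pi / 2)).neg
  have a5 := ((hasDerivAt_im' (hg.const_sub v)).const_mul Real.pi).const_mul σ
  refine (((((a3.add_const (UU (v + w))).sub a2).sub_const (UU v)).sub a1 |>.sub_const
    (2 * UU w)).add a5).congr_deriv ?_
  simp
  ring

namespace SR

variable {M : ℕ} {b : Fin (M + 1) → ℤ} {zs : DD (tyW b) ⊕ ZZ (tyW b) → ℂ}
variable {R : Finset (DD (tyW b))} {nb : Finset (DD (tyW b) ⊕ ZZ (tyW b))}
variable {z : DD (tyW b) ⊕ ZZ (tyW b) → ℂ} {p : DD (tyW b) → ℝ}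
variable {h h' : Fin M} {i j j' : Fin (M + 1)} {s : Fin 3} {x c : ℝ}

/-- **A kink is no maximum.** -/
theorem Md.kinkE (hb : ClassW b) (hR : ∀ i ∈ R, Sum.inl i ∈ nb) (hM : MM b zs R nb z p)
    (D : Md b zs nb z p h i s j x) (hj : clsW b j = .threeE) {di dt : ℝ}
    (ki : HasDerivAt (fun y => OV b i (Function.update (Ow b z i) s
      ⟨y, -mhs b h s * trh b h y⟩)) di x) (kt : HasDerivAt (trh b h) dt x) (h0 : dt ≠ 0)
    (e0 : (Ow b z j 1 - Ow b z j s.rev).im = 0) (e1 : -1 < (Ow b z j 1 - Ow b z j s.rev).re)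
    (e2 : (Ow b z j 1 - Ow b z j s.rev).re < 0) : False := by
  have B := D.adj.symm
  have hOV : ∀ u : ℂ, OV b j (Function.update (Ow b z j) s.rev u) = V3 u (Ow b z j 1) 0 := by
    intro u
    rw [B.OV_threeE hj (endOk_upd B (Ow_endOk z j) _), Function.update_self,
      Function.update_of_ne (by rcases B.slot with hs | hs <;> rw [hs] <;> decide)]
  have hx : (⟨x, mhs b h s * trh b h x⟩ : ℂ) = Ow b z j s.rev := D.opp.symm
  have hg := hasDerivAt_curve (a := mhs b h s) kt
  have hst : Ow b z j 1 - (⟨x, mhs b h s * trh b h x⟩ : ℂ) + 1 ∈ strip := by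
    rw [hx]
    unfold strip
    constructor
    · rw [Complex.add_re, Complex.one_re]; linarith only [e1]
    · rw [Complex.add_re, Complex.one_re]; linarith only [e2]
  have key : ∀ σ : ℝ, |σ| ≤ 1 → di + (-(Real.pi * ((Ow b z j 1).im + mhs b h s * dt *
      (Ow b z j 1).re)) - dU (Ow b z j s.rev) (mhs b h s * dt) +
      dU (Ow b z j 1 - Ow b z j s.rev + 1) (mhs b h s * dt) - σ * (Real.pi * (mhs b h s * dt))) -
      2 * Real.pi * (mhs b h s * dt) = 0 := by
    intro σ hσ
    have kj := hasDerivAt_V3s σ hg (Ow b z j 1) 0 (by rw [hx]; exact D.ok_opp) hst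
    rw [hx] at kj
    have hmax : IsLocalMax (fun y => OV b i (Function.update (Ow b z i) s
        ⟨y, -mhs b h s * trh b h y⟩) + V3s σ ⟨y, mhs b h s * trh b h y⟩ (Ow b z j 1) 0 -
        2 * Real.pi * (mhs b h s * trh b h y)) x := by
      filter_upwards [Ioo_mem_nhds D.x0 D.x1] with y hy
      have h1 := D.mstep hb hR hM hy.1.le hy.2.le
      rw [hOV, hOV] at h1
      have h2 := V3s_le hσ (⟨y, mhs b h s * trh b h y⟩ : ℂ) (Ow b z j 1) 0
      have h3 : V3s σ ⟨x, mhs b h s * trh b h x⟩ (Ow b z j 1) 0 =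
          V3 ⟨x, mhs b h s * trh b h x⟩ (Ow b z j 1) 0 := V3s_eq 0 (by rw [hx]; exact e0)
      simp only [neg_mul] at h1 ⊢
      rw [h3]
      linarith only [h1, h2]
    exact hmax.hasDerivAt_eq_zero ((ki.add kj).sub ((kt.const_mul (mhs b h s)).const_mul
      (2 * Real.pi)))
  have a1 := key 1 (by norm_num)
  have a2 := key (-1) (by norm_num)
  have a3 : Real.pi * (mhs b h s * dt) = 0 := by linarith only [a1, a2]
  rcases mul_eq_zero.1 a3 with h4 | h4
  · exact Real.pi_ne_zero h4
  · rcases mul_eq_zero.1 h4 with h5 | h5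
    · exact (mhs_pos h s).ne' h5
    · exact h0 h5

end SR

end Pool.Agent.Work.MP_b30479_gt.G2
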