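import Pool.Agent.Work.NumU.GenD

/-!
# Mirrored paths: expressions of the rows of `WMGf*` and `WMGr*`

Definitions only, in a file with few imports (the certificates need nothing else).
-/

namespace Pool.Agent.Work.MP_b30479_gt.G2.KE

open NumG

/-- height of the mirrored path of the hinge, variable `0` -/
def hh (cl : ℕ) : E := .mul (E.c 1600) (E.tr 600 cl 300 (.var 0))

/-- ramp function of the inner variable of an end, variable `1` -/
def li : E := E.tr 770 100 200 (.var 1)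

/-- expressions: bound `O` of the old value minus the value; lower path -/
def oD (y0 : ℤ) (l : List (ℤ × ℤ × ℕ)) (cl : ℕ) (t : E) : E :=
  .sub (E.pl (.var 0) y0 l) (E.V3e (.var 0) (.neg (hh cl)) (.var 1) t)

/-- upper path -/
def oU (y0 : ℤ) (l : List (ℤ × ℤ × ℕ)) (cl : ℕ) (t : E) : E :=
  .sub (E.pl (.var 0) y0 l) (E.V3e (.var 0) (hh cl) (.var 1) t)

/-- modes of the inner variable -/
def oDp (y0 : ℤ) (l : List (ℤ × ℤ × ℕ)) (cl : ℕ) (t : E) : E :=
  .sub (.add (E.pl (.var 0) y0 l) (.mul .pi (.mul (E.c 3200) li)))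
    (E.V3e (.var 0) (.neg (hh cl)) (.var 1) t)

def oUp (y0 : ℤ) (l : List (ℤ × ℤ × ℕ)) (cl : ℕ) (t : E) : E :=
  .sub (.add (E.pl (.var 0) y0 l) (.mul .pi (.mul (E.c 3200) li)))
    (E.V3e (.var 0) (hh cl) (.var 1) t)

def aff (n0 n1 : ℤ) (t : E) : E := .add (E.c n0) (.mul (E.c n1) t)

/-- penalty of the mode -/
def P2 (cl : ℕ) : E := .mul .pi (.mul (.q 2 1) (hh cl))

/-- new value of an end `3`, upper height -/
def nP (n0 n1 : ℤ) : E :=
  .sub (E.V3e (E.c 1500) (.var 0) (E.c 3000) (.var 1)) (aff n0 n1 (.var 0))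

/-- new value of an end `3`, lower height -/
def nN (n0 n1 : ℤ) : E :=
  .sub (E.V3e (E.c 1500) (.neg (.var 0)) (E.c 3000) (.var 1)) (aff n0 n1 (.var 0))

/-- height of the other hinge of a `2` -/
def kk : E := .sub (.mul (.var 2) (.mul (E.c 1600) (E.tr 800 100 290 (.var 1))))
  (.mul (.sub (.q 1 1) (.var 2)) (.mul (E.c 3000) (E.tr 800 120 470 (.var 1))))

/-- height of the inner variable of a `3` -/
def ll : E := .mul (.var 2) (.mul (E.c 1600) (E.tr 800 50 50 (.var 1)))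

/-- `2` on the lower path -/
def fD (n0 n1 y0 : ℤ) (l : List (ℤ × ℤ × ℕ)) (cl : ℕ) (k : E) : E :=
  .sub (.add (.add (E.dV2 (E.c 1500) (.var 3) (.var 0) (.neg (hh cl)) (.var 1) k)
    (aff n0 n1 (.var 3))) (P2 cl)) (E.pl (.var 0) y0 l)

/-- `2` on the upper path -/
def fU (n0 n1 y0 : ℤ) (l : List (ℤ × ℤ × ℕ)) (cl : ℕ) (k : E) : E :=
  .sub (.add (.add (E.dV2 (E.c 1500) (.neg (.var 3)) (.var 0) (hh cl) (.var 1) k)
    (aff n0 n1 (.var 3))) (P2 cl)) (E.pl (.var 0) y0 l)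

/-- `2` at an end on the lower path -/
def fE (n0 n1 y0 : ℤ) (l : List (ℤ × ℤ × ℕ)) : E :=
  .sub (.add (.add (.sub (E.V2e (E.c 1500) (.var 1)) (E.V2e (.var 0) (.neg (hh 100))))
    (aff n0 n1 (.var 1))) (P2 100)) (E.pl (.var 0) y0 l)

/-- two ends with two crossings -/
def fEE : E := .add (.add (.sub (E.V2e (E.c 1500) (.var 1)) (E.V2e (.var 0) (.neg (hh 100))))
  (.sub (E.V2e (E.c 1500) (.neg (.var 1))) (E.V2e (.var 0) (hh 100)))) (P2 100)

/-- two ends with three crossings -/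
def fTT (n y0 : ℤ) (l : List (ℤ × ℤ × ℕ)) (y0' : ℤ) (l' : List (ℤ × ℤ × ℕ)) : E :=
  .sub (.add (E.c n) (P2 100)) (.add (E.pl (.var 0) y0 l) (E.pl (.var 0) y0' l'))

def eVF (x t y s : E) : E :=
  .sub (.uw y s) (.add (.mul .pi (.sub (.add (.mul x s) (.mul y t)) s))
    (.add (.uw (.sub y x) (.sub s t)) (.uw x t)))

/-- hinge in the slot `2` of the `3`: ramp function -/
def uW : E := .mul (E.c 1600) (E.tr 650 130 290 (.var 2))

/-- ramp function of the inner variable `y` -/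
def tL (y : E) : E := E.tr 800 50 50 y

/-- far gain: inner variable `y + i t` (variables `0`, `1`) to `m + i T` -/
def gL (m : ℤ) (t : E) : E :=
  E.dV2 (E.c m) (.var 1) (.var 0) t (.var 2) (.mul (.var 3) uW)

def penL : E := .mul .pi (.mul (E.c 3200) (tL (.var 0)))

/-- the bounds of the losses -/
def e30 (y T : E) : E :=
  E.mx (.add (E.pl y (-80) [(0, 3, 1), (10, -43, 40), (50, 7, 40), (100, -32, 25), (150, -9, 10), (200, -31, 50), (250, -23, 50), (275, -21, 25), (300, 39, 20)])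
    (.mul (E.c 5000) T)) (E.pl y (-80)
    [(0, 3, 1), (10, -43, 40), (50, -261, 200), (100, -23, 100), (200, -59, 100), (250, -3, 5), (300, 51, 50), (350, -1, 10), (450, -3, 25), (500, -1, 10), (600, -3, 25), (700, -17, 50), (750, 21, 25)])

def e45 (y : E) : E := E.pl y 8 [(600, -17, 100), (700, -1, 100), (750, 14, 25)]

def em (y : E) : E := E.pl y (-90) [(0, -75, 8), (48, 75, 8), (750, 111, 10)]

/-- rows -/
def g30m : E := .add (gL 3000 (.mul (.var 1) (tL (.var 0)))) (e30 (.var 0) (.var 1))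

def g45m : E := .add (gL 4500 (.mul (.var 1) (tL (.var 0)))) (e45 (.var 0))

def g30u : E := .add (.add (gL 3000 (.mul (E.c 1600) (tL (.var 0)))) penL) (em (.var 0))

def g30d : E := .add (.add (gL 3000 (.neg (.mul (E.c 1600) (tL (.var 0))))) penL) (em (.var 0))

/-- old value of the end `3` -/
def oL : List (ℤ × ℤ × ℕ) := [(0, 127, 25), (25, -11, 15), (100, -673, 150), (300, -39, 25), (350, 3, 25), (450, -17, 50), (525, -13, 75)]

def bas (n0 n1 : ℤ) : E := .add (aff n0 n1 (.var 1)) (.sub (P2 120) (E.pl (.var 0) 252 oL))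

def eK (cc n0 n1 : ℤ) (t : E) : E :=
  .add (bas n0 n1) (.sub (E.Va (E.c cc) (.neg (.var 1)) (.var 2) t) (E.Va (.var 0) (hh 120) (.var 2) t))

def eR (cc m n0 n1 : ℤ) (t : E) : E :=
  .add (bas n0 n1) (.sub (eVF (E.c cc) (.neg (.var 1)) (E.c m) (.var 3)) (eVF (.var 0) (hh 120) (.var 2) t))

def tM : E := .mul (.var 3) (tL (.var 2))

def tU : E := .mul (E.c 1600) (tL (.var 2))

/-- new value of an end `3`, general targets -/
def nQ (cc m n0 n1 : ℤ) : E :=
  .sub (E.V3e (E.c cc) (.var 0) (E.c m) (.var 1)) (aff n0 n1 (.var 0))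

/-- the rows -/
def rM (cc n0 n1 : ℤ) : List E := [eK cc n0 n1 tM, .sub (eR cc 3000 n0 n1 tM) (e30 (.var 2) (.var 3))]

def rM3 (cc n0 n1 : ℤ) : List E := [eK cc n0 n1 tM, .sub (eR cc 3000 n0 n1 tM) (e30 (.var 2) (.var 3)),
  .sub (eR cc 4500 n0 n1 tM) (e45 (.var 2))]

def rU (cc n0 n1 : ℤ) : List E := [eK cc n0 n1 tU, .sub (eR cc 3000 n0 n1 tU) (em (.var 2))]

def rD (cc n0 n1 : ℤ) : List E :=
  [eK cc n0 n1 (.neg tU), .sub (eR cc 3000 n0 n1 (.neg tU)) (em (.var 2))]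

end Pool.Agent.Work.MP_b30479_gt.G2.KE
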