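import Pool.Agent.Work.MP_b30479_gt.G2.WMRK
import Pool.Agent.Work.MP_b30479_gt.G2.WMGx
import Pool.Agent.Work.MP_b30479_gt.G2.M3N
import Pool.Agent.Work.NumU.GenF

/-!
# Mirrored paths: old values of an end `3` and other tools for the kinds of hinges
-/

namespace Pool.Agent.Work.MP_b30479_gt.G2

open Finset VOL Filter Topology

namespace KE

open NumG

/-- the inequality of a row with one expression -/
theorem chk1 {e : E} {N o0 o1 o2 o3 fuel l0 h0 l1 h1 l2 h2 l3 h3 c : ℕ}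
    (h : chkF [e] N o0 o1 o2 o3 fuel l0 h0 l1 h1 l2 h2 l3 h3 c = true) (hN : 0 < N) {x y z w : ℝ}
    (hx : ((l0 : ℝ) - o0) / N ≤ x ∧ x ≤ ((h0 : ℝ) - o0) / N)
    (hy : ((l1 : ℝ) - o1) / N ≤ y ∧ y ≤ ((h1 : ℝ) - o1) / N)
    (hz : ((l2 : ℝ) - o2) / N ≤ z ∧ z ≤ ((h2 : ℝ) - o2) / N)
    (hw : ((l3 : ℝ) - o3) / N ≤ w ∧ w ≤ ((h3 : ℝ) - o3) / N) :
    0 < e.val [x, y, z, w] := by
  obtain ⟨f, hf, hv⟩ := chkF4 h hN hx.1 hx.2 hy.1 hy.2 hz.1 hz.2 hw.1 hw.2
  rw [List.mem_singleton] at hf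
  rwa [hf] at hv

theorem hh_val {cl : ℕ} (h0 : 0 < cl) (h1 : cl ≤ 300) (x : ℝ) (xs : List ℝ) :
    (hh cl).val (x :: xs) = 16 / 100 * tr 0 (6 / 10) ((cl : ℝ) / 1000) (3 / 10) x := by
  unfold hh E.c
  simp only [E.val]
  rw [E.tr_val h0 (by norm_num) (by omega)]
  have e0 : (E.var 0).val (x :: xs) = x := rfl
  rw [e0]
  norm_num

theorem li_val (x y : ℝ) (xs : List ℝ) :
    li.val (x :: y :: xs) = tr 0 (77 / 100) (1 / 10) (2 / 10) y := by
  unfold li
  rw [E.tr_val (by norm_num) (by norm_num) (by norm_num)]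
  have e0 : (E.var 1).val (x :: y :: xs) = y := rfl
  rw [e0]
  norm_num

/-- **Old value** of an end with three crossings, hinge on a mirrored path (`σ = ± 16/100`), minus
the penalty of the inner variable: less than `O` -/
structure Old (cl σ : ℝ) (O : ℝ → ℝ) : Prop where
  main : ∀ {x y T : ℝ}, 0 ≤ x → x ≤ 6 / 10 → 0 ≤ y → y ≤ 77 / 100 → -(45 / 1000) ≤ T →
    T ≤ 59 / 1000 → V3 ⟨x, σ * tr 0 (6 / 10) cl (3 / 10) x⟩
      ⟨y, T * tr 0 (77 / 100) (1 / 10) (2 / 10) y⟩ 0 < O x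
  up : ∀ {x y : ℝ}, 0 ≤ x → x ≤ 6 / 10 → 0 ≤ y → y ≤ 77 / 100 →
    V3 ⟨x, σ * tr 0 (6 / 10) cl (3 / 10) x⟩ ⟨y, 16 / 100 * tr 0 (77 / 100) (1 / 10) (2 / 10) y⟩ 0 -
      2 * Real.pi * (16 / 100 * tr 0 (77 / 100) (1 / 10) (2 / 10) y) < O x
  dn : ∀ {x y : ℝ}, 0 ≤ x → x ≤ 6 / 10 → 0 ≤ y → y ≤ 77 / 100 →
    V3 ⟨x, σ * tr 0 (6 / 10) cl (3 / 10) x⟩
      ⟨y, -(16 / 100 * tr 0 (77 / 100) (1 / 10) (2 / 10) y)⟩ 0 -
      2 * Real.pi * (16 / 100 * tr 0 (77 / 100) (1 / 10) (2 / 10) y) < O x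

section

variable {cl : ℕ} {y0 : ℤ} {l : List (ℤ × ℤ × ℕ)} {f c c' c'' : ℕ}

theorem Old.ofD (h0 : 0 < cl) (h1 : cl ≤ 300)
    (hm : chkF [oD y0 l cl (.mul (.var 2) li)] 1000 0 0 45 0 f 0 600 0 770 0 104 0 0 c = true)
    (hu : chkF [oDp y0 l cl (.mul (E.c 1600) li)] 1000 0 0 0 0 f 0 600 0 770 0 0 0 0 c' = true)
    (hd : chkF [oDp y0 l cl (.mul (E.c (-1600)) li)] 1000 0 0 0 0 f 0 600 0 770 0 0 0 0 c'' = true) :
    Old ((cl : ℝ) / 1000) (-(16 / 100)) fun x => plR x y0 l := by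
  constructor
  · intro x y T x0 x1 k0 k1 T0 T1
    have h2 := chk1 hm (by norm_num) (x := x) (y := y) (z := T) (w := 0)
      (by constructor <;> push_cast <;> linarith only [x0, x1]) (by constructor <;> push_cast <;> linarith only [k0, k1])
      (by constructor <;> push_cast <;> linarith only [T0, T1]) (by constructor <;> norm_num)
    have e := hh_val h0 h1 x [y, T, 0]
    have e' := li_val x y [T, 0]
    simp only [oD, E.val, E.V3e_val, E.pl_val] at h2
    rw [e, e'] at h2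
    have a0 : (E.var 0).val [x, y, T, 0] = x := rfl
    have a1 : (E.var 1).val [x, y, T, 0] = y := rfl
    have a2 : (E.var 2).val [x, y, T, 0] = T := rfl
    simp only [E.val] at a0 a1 a2
    rw [a0, a1, a2, ← neg_mul] at h2
    linarith only [h2]
  · intro x y x0 x1 k0 k1
    have h2 := chk1 hu (by norm_num) (x := x) (y := y) (z := 0) (w := 0)
      (by constructor <;> push_cast <;> linarith only [x0, x1]) (by constructor <;> push_cast <;> linarith only [k0, k1])
      (by constructor <;> norm_num) (by constructor <;> norm_num)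
    have e := hh_val h0 h1 x [y, 0, 0]
    have e' := li_val x y [0, 0]
    simp only [oDp, E.val, E.V3e_val, E.pl_val, E.c] at h2
    rw [e, e'] at h2
    have a0 : (E.var 0).val [x, y, 0, 0] = x := rfl
    have a1 : (E.var 1).val [x, y, 0, 0] = y := rfl
    simp only [E.val] at a0 a1
    rw [a0, a1, ← neg_mul] at h2
    push_cast at h2
    rw [show (1600 : ℝ) / 10000 = 16 / 100 by norm_num, show (3200 : ℝ) / 10000 = 32 / 100 by norm_num] at h2
    linarith only [h2]
  · intro x y x0 x1 k0 k1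
    have h2 := chk1 hd (by norm_num) (x := x) (y := y) (z := 0) (w := 0)
      (by constructor <;> push_cast <;> linarith only [x0, x1]) (by constructor <;> push_cast <;> linarith only [k0, k1])
      (by constructor <;> norm_num) (by constructor <;> norm_num)
    have e := hh_val h0 h1 x [y, 0, 0]
    have e' := li_val x y [0, 0]
    simp only [oDp, E.val, E.V3e_val, E.pl_val, E.c] at h2
    rw [e, e'] at h2
    have a0 : (E.var 0).val [x, y, 0, 0] = x := rfl
    have a1 : (E.var 1).val [x, y, 0, 0] = y := rfl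
    simp only [E.val] at a0 a1
    rw [a0, a1, ← neg_mul] at h2
    push_cast at h2
    rw [show (-1600 : ℝ) / 10000 = -(16 / 100) by norm_num,
      show (3200 : ℝ) / 10000 = 32 / 100 by norm_num] at h2
    simp only [neg_mul] at h2 ⊢
    linarith only [h2]

theorem Old.ofU (h0 : 0 < cl) (h1 : cl ≤ 300)
    (hm : chkF [oU y0 l cl (.mul (.var 2) li)] 1000 0 0 45 0 f 0 600 0 770 0 104 0 0 c = true)
    (hu : chkF [oUp y0 l cl (.mul (E.c 1600) li)] 1000 0 0 0 0 f 0 600 0 770 0 0 0 0 c' = true)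
    (hd : chkF [oUp y0 l cl (.mul (E.c (-1600)) li)] 1000 0 0 0 0 f 0 600 0 770 0 0 0 0 c'' = true) :
    Old ((cl : ℝ) / 1000) (16 / 100) fun x => plR x y0 l := by
  constructor
  · intro x y T x0 x1 k0 k1 T0 T1
    have h2 := chk1 hm (by norm_num) (x := x) (y := y) (z := T) (w := 0)
      (by constructor <;> push_cast <;> linarith only [x0, x1]) (by constructor <;> push_cast <;> linarith only [k0, k1])
      (by constructor <;> push_cast <;> linarith only [T0, T1]) (by constructor <;> norm_num)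
    have e := hh_val h0 h1 x [y, T, 0]
    have e' := li_val x y [T, 0]
    simp only [oU, E.val, E.V3e_val, E.pl_val] at h2
    rw [e, e'] at h2
    have a0 : (E.var 0).val [x, y, T, 0] = x := rfl
    have a1 : (E.var 1).val [x, y, T, 0] = y := rfl
    have a2 : (E.var 2).val [x, y, T, 0] = T := rfl
    simp only [E.val] at a0 a1 a2
    rw [a0, a1, a2] at h2
    linarith only [h2]
  · intro x y x0 x1 k0 k1
    have h2 := chk1 hu (by norm_num) (x := x) (y := y) (z := 0) (w := 0)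
      (by constructor <;> push_cast <;> linarith only [x0, x1]) (by constructor <;> push_cast <;> linarith only [k0, k1])
      (by constructor <;> norm_num) (by constructor <;> norm_num)
    have e := hh_val h0 h1 x [y, 0, 0]
    have e' := li_val x y [0, 0]
    simp only [oUp, E.val, E.V3e_val, E.pl_val, E.c] at h2
    rw [e, e'] at h2
    have a0 : (E.var 0).val [x, y, 0, 0] = x := rfl
    have a1 : (E.var 1).val [x, y, 0, 0] = y := rfl
    simp only [E.val] at a0 a1
    rw [a0, a1] at h2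
    push_cast at h2
    rw [show (1600 : ℝ) / 10000 = 16 / 100 by norm_num, show (3200 : ℝ) / 10000 = 32 / 100 by norm_num] at h2
    linarith only [h2]
  · intro x y x0 x1 k0 k1
    have h2 := chk1 hd (by norm_num) (x := x) (y := y) (z := 0) (w := 0)
      (by constructor <;> push_cast <;> linarith only [x0, x1]) (by constructor <;> push_cast <;> linarith only [k0, k1])
      (by constructor <;> norm_num) (by constructor <;> norm_num)
    have e := hh_val h0 h1 x [y, 0, 0]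
    have e' := li_val x y [0, 0]
    simp only [oUp, E.val, E.V3e_val, E.pl_val, E.c] at h2
    rw [e, e'] at h2
    have a0 : (E.var 0).val [x, y, 0, 0] = x := rfl
    have a1 : (E.var 1).val [x, y, 0, 0] = y := rfl
    simp only [E.val] at a0 a1
    rw [a0, a1] at h2
    push_cast at h2
    rw [show (-1600 : ℝ) / 10000 = -(16 / 100) by norm_num,
      show (3200 : ℝ) / 10000 = 32 / 100 by norm_num] at h2
    simp only [neg_mul] at h2 ⊢
    linarith only [h2]

end

end KE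

namespace SR

variable {M : ℕ} {b : Fin (M + 1) → ℤ} {zs : DD (tyW b) ⊕ ZZ (tyW b) → ℂ}
variable {R : Finset (DD (tyW b))} {nb : Finset (DD (tyW b) ⊕ ZZ (tyW b))}
variable {z : DD (tyW b) ⊕ ZZ (tyW b) → ℂ} {p : DD (tyW b) → ℝ}
variable {h h' : Fin M} {i j j' : Fin (M + 1)} {s : Fin 3} {x c : ℝ}

/-- height of the inner variable of an end -/
theorem TmE_mem (hL : Loc b zs) (m : {i : Fin (M + 1) // (tyW b i).isMid = true})
    (hc : clsW b m.1 = .threeE) : -(45 / 1000) ≤ Tm b zs m ∧ Tm b zs m ≤ 59 / 1000 := by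
  have h1 := hL.midE m (clsW_end (Or.inr hc))
  obtain ⟨-, -, h3, h4⟩ := h1
  rw [ofr_im] at h3 h4
  exact ⟨h3, h4⟩

theorem trmE (m : {i : Fin (M + 1) // (tyW b i).isMid = true}) (hc : clsW b m.1 = .threeE) (y : ℝ) :
    trm b m y = tr 0 (77 / 100) (1 / 10) (2 / 10) y := by
  unfold trm
  rw [hc]
  rfl

theorem tgi_E (m : {i : Fin (M + 1) // (tyW b i).isMid = true}) (hc : clsW b m.1 = .threeE)
    {y : ℝ} (h0 : 1 / 10 ≤ y) (h1 : y ≤ 57 / 100) : tgi b zs m y = ⟨y, Tm b zs m⟩ := by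
  have h2 := trmE m hc y
  unfold trm at h2
  unfold tgi
  rw [h2]
  have h3 : tr 0 (77 / 100) (1 / 10) (2 / 10) y = 1 := by
    unfold tr
    rw [sub_zero, min_eq_left (le_min ((one_le_div (by norm_num)).2 h0)
      ((one_le_div (by norm_num)).2 (by linarith only [h1])))]
    norm_num
  rw [h3, mul_one]
  rfl

/-- the old value at an end with three crossings -/
theorem IPos.old (hL : Loc b zs) (m : {i : Fin (M + 1) // (tyW b i).isMid = true})
    (hc : clsW b m.1 = .threeE) {X : ℂ} (h0 : IPos b zs p m X) {cl σ : ℝ} {O : ℝ → ℝ}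
    (H : KE.Old cl σ O) (x0 : 0 ≤ x) (x1 : x ≤ 6 / 10) :
    V3 ⟨x, σ * tr 0 (6 / 10) cl (3 / 10) x⟩ X 0 - 2 * Real.pi * p (.inr m) < O x := by
  have hT := TmE_mem hL m hc
  have hx : ∀ y : ℝ, y ≤ (mp (clsW b m.1)).XM → y ≤ 77 / 100 := by
    intro y hy
    rw [hc] at hy
    exact hy
  cases h0 with
  | main y y0 y1 e hp =>
    rw [e, hp, trmE m hc, mul_zero, sub_zero]
    exact H.main x0 x1 y0 (hx y y1) hT.1 hT.2
  | up y y0 y1 _ e hp =>
    rw [e, hp, trmE m hc]
    exact H.up x0 x1 y0 (hx y y1)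
  | dn y y0 y1 _ e hp =>
    rw [e, hp, trmE m hc]
    exact H.dn x0 x1 y0 (hx y y1)

theorem trh_flat {XM cl cr : ℝ} (h1 : wXM b h = XM ∧ wcl b h = cl ∧ wcr b h = cr) (hc0 : 0 < cl)
    (hr0 : 0 < cr) (h2 : cl ≤ c) (h3 : c ≤ XM - cr) : trh b h c = 1 := by
  rw [trh_eq h1]
  unfold tr
  rw [sub_zero, min_eq_left (le_min ((one_le_div hc0).2 h2) ((one_le_div hr0).2 (by linarith only [h3])))]
  norm_num

end SR

end Pool.Agent.Work.MP_b30479_gt.G2
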