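import Pool.Agent.Work.MP_b30479_gt.G2.MKF
import Pool.Agent.Work.MP_b30479_gt.G2.MKG
import Pool.Agent.Work.MP_b30479_gt.G2.MKH
import Pool.Agent.Work.MP_b30479_gt.G2.MKI
import Pool.Agent.Work.MP_b30479_gt.G2.MKJ
import Pool.Agent.Work.MP_b30479_gt.G2.WMGa

/-!
# Modes `1 | 3`, the `3` at an end: the inequalities
-/

namespace Pool.Agent.Work.MP_b30479_gt.G2

open Finset VOL Filter Topology

namespace MKE

open NumG

/-- bound for the gain of the digit `1` -/
noncomputable def φ0 (x T : ℝ) : ℝ := ph (-54) [(0, -22, 5)] (823) [(0, -19, 5)] x T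
/-- bound for the gain of the digit `1` -/
noncomputable def φ1 (x T : ℝ) : ℝ := ph (-159) [(20, -79, 15)] (1200) [(20, -59, 15)] x T
/-- bound for the gain of the digit `1` -/
noncomputable def φ2 (x T : ℝ) : ℝ := ph (-316) [(50, -179, 45)] (1880) [(50, 25, 3)] x T
/-- bound for the gain of the digit `1` -/
noncomputable def φ3 (x T : ℝ) : ℝ := ph (-709) [] (2090) [] x T
/-- bound for the gain of the digit `1` -/
noncomputable def φK (x T : ℝ) : ℝ := ph (-658) [(360, 69, 28), (500, -283, 700)] (1954) [(360, -3, 10)] x T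
/-- bound for the gain of the digit `1` -/
noncomputable def φR (x T : ℝ) : ℝ := ph (-1086) [(360, 157, 80)] (2044) [(360, -71, 80)] x T
/-- bound for the old value of the digit `3` -/
noncomputable def Oo (x : ℝ) : ℝ := plR x (329) [(50, 31, 20), (70, -17, 60), (85, 19, 15), (100, 89, 120), (140, -2771, 840), (350, -583, 210), (360, 3, 2), (400, -1, 5), (500, -7, 20), (580, 3, 10)]
/-- bound for the old value of the digit `3`, with the first order condition -/
noncomputable def OR (x : ℝ) : ℝ := plR x (940) [(360, -119, 60)]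

/-- the other hinge of the digit `1` -/
def KP (X : ℂ) : Prop := 0 ≤ X.re ∧ X.re ≤ 86 / 100 ∧ ∃ θ : ℝ, -1 ≤ θ ∧ θ ≤ 1 ∧
  X.im = θ * (16 / 100 * tr 0 (86 / 100) (13 / 100) (20 / 100) X.re)

/-- the inner variable of the digit `3` and its penalty -/
def LP (u q : ℝ) (X : ℂ) : Prop := ∃ y : ℝ, 0 ≤ y ∧ y ≤ 77 / 100 ∧
  ((X = ⟨y, u * τl y⟩ ∧ q = 0) ∨ (X = ⟨y, 16 / 100 * τl y⟩ ∧ q = 16 / 100 * τl y) ∨
    (X = ⟨y, -(16 / 100 * τl y)⟩ ∧ q = 16 / 100 * τl y))

variable {x T u q : ℝ} {X : ℂ}

theorem KP.eq {X : ℂ} {θ : ℝ}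
    (h : X.im = θ * (16 / 100 * tr 0 (86 / 100) (13 / 100) (20 / 100) X.re)) :
    (⟨X.re, θ * (16 / 100 * tr 0 (86 / 100) (13 / 100) (20 / 100) X.re)⟩ : ℂ) = X := by
  rw [← h]

theorem g0 (x0 : 0 / 1000 ≤ x) (x1 : x ≤ 20 / 1000) (T0 : 10 / 1000 ≤ T) (T1 : T ≤ 78 / 1000)
    (hX : KP X) : φ0 x T < Gk (550 / 10000) T x X := by
  obtain ⟨y0, y1, θ, θ0, θ1, ht⟩ := hX
  have h := KE.chk1 k0 (by norm_num) (x := x) (y := T) (z := X.re) (w := θ)
    (by constructor <;> push_cast <;> linarith only [x0, x1]) (by constructor <;> push_cast <;> linarith only [T0, T1])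
    (by constructor <;> push_cast <;> linarith only [y0, y1]) (by constructor <;> push_cast <;> linarith only [θ0, θ1])
  rw [kk_val, KP.eq ht] at h
  push_cast at h
  unfold φ0
  linarith only [h]

theorem g1 (x0 : 20 / 1000 ≤ x) (x1 : x ≤ 50 / 1000) (T0 : 10 / 1000 ≤ T) (T1 : T ≤ 78 / 1000)
    (hX : KP X) : φ1 x T < Gk (850 / 10000) T x X := by
  obtain ⟨y0, y1, θ, θ0, θ1, ht⟩ := hX
  have h := KE.chk1 k1 (by norm_num) (x := x) (y := T) (z := X.re) (w := θ)
    (by constructor <;> push_cast <;> linarith only [x0, x1]) (by constructor <;> push_cast <;> linarith only [T0, T1])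
    (by constructor <;> push_cast <;> linarith only [y0, y1]) (by constructor <;> push_cast <;> linarith only [θ0, θ1])
  rw [kk_val, KP.eq ht] at h
  push_cast at h
  unfold φ1
  linarith only [h]

theorem g2 (x0 : 50 / 1000 ≤ x) (x1 : x ≤ 140 / 1000) (T0 : 10 / 1000 ≤ T) (T1 : T ≤ 78 / 1000)
    (hX : KP X) : φ2 x T < Gk (2000 / 10000) T x X := by
  obtain ⟨y0, y1, θ, θ0, θ1, ht⟩ := hX
  have h := KE.chk1 k2 (by norm_num) (x := x) (y := T) (z := X.re) (w := θ)
    (by constructor <;> push_cast <;> linarith only [x0, x1]) (by constructor <;> push_cast <;> linarith only [T0, T1])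
    (by constructor <;> push_cast <;> linarith only [y0, y1]) (by constructor <;> push_cast <;> linarith only [θ0, θ1])
  rw [kk_val, KP.eq ht] at h
  push_cast at h
  unfold φ2
  linarith only [h]

theorem g3 (x0 : 140 / 1000 ≤ x) (x1 : x ≤ 360 / 1000) (T0 : 10 / 1000 ≤ T) (T1 : T ≤ 78 / 1000)
    (hX : KP X) : φ3 x T < Gk (2500 / 10000) T x X := by
  obtain ⟨y0, y1, θ, θ0, θ1, ht⟩ := hX
  have h := KE.chk1 k3 (by norm_num) (x := x) (y := T) (z := X.re) (w := θ)
    (by constructor <;> push_cast <;> linarith only [x0, x1]) (by constructor <;> push_cast <;> linarith only [T0, T1])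
    (by constructor <;> push_cast <;> linarith only [y0, y1]) (by constructor <;> push_cast <;> linarith only [θ0, θ1])
  rw [kk_val, KP.eq ht] at h
  push_cast at h
  unfold φ3
  linarith only [h]

theorem gK (x0 : 360 / 1000 ≤ x) (x1 : x ≤ 600 / 1000) (T0 : 10 / 1000 ≤ T) (T1 : T ≤ 78 / 1000)
    (hy : 370 / 1000 ≤ X.re) (hX : KP X) : φK x T < Gk (3000 / 10000) T x X := by
  obtain ⟨y0, y1, θ, θ0, θ1, ht⟩ := hX
  have h := KE.chk1 kK (by norm_num) (x := x) (y := T) (z := X.re) (w := θ)
    (by constructor <;> push_cast <;> linarith only [x0, x1]) (by constructor <;> push_cast <;> linarith only [T0, T1])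
    (by constructor <;> push_cast <;> linarith only [hy, y1]) (by constructor <;> push_cast <;> linarith only [θ0, θ1])
  rw [kk_val, KP.eq ht] at h
  push_cast at h
  unfold φK
  linarith only [h]

theorem gR (x0 : 360 / 1000 ≤ x) (x1 : x ≤ 600 / 1000) (T0 : 10 / 1000 ≤ T) (T1 : T ≤ 78 / 1000)
    (hy : X.re ≤ 370 / 1000) (hX : KP X) : φR x T < Gk (2500 / 10000) T x X +
      2 / 10 * dh1 ⟨x, -(16 / 100 * τ6 x)⟩ X (64 / 100) := by
  obtain ⟨y0, y1, θ, θ0, θ1, ht⟩ := hX
  obtain ⟨e, he, h⟩ := chkD4 kR1 (by norm_num) (x := x) (y := T) (z := X.re) (w := θ)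
    (by push_cast; linarith only [x0]) (by push_cast; linarith only [x1]) (by push_cast; linarith only [T0])
    (by push_cast; linarith only [T1]) (by push_cast; linarith only [y0]) (by push_cast; linarith only [hy])
    (by push_cast; linarith only [θ0]) (by push_cast; linarith only [θ1])
  rw [List.mem_singleton] at he
  rw [he, kR_val, KP.eq ht] at h
  push_cast at h
  unfold φR
  linarith only [h]

theorem oO (x0 : 50 / 1000 ≤ x) (x1 : x ≤ 600 / 1000) (u0 : -(45 / 1000) ≤ u) (u1 : u ≤ 59 / 1000)
    (hX : LP u q X) : W x X - 2 * Real.pi * q < Oo x := by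
  obtain ⟨y, y0, y1, ⟨rfl, rfl⟩ | ⟨rfl, rfl⟩ | ⟨rfl, rfl⟩⟩ := hX
  · have h := KE.chk1 om (by norm_num) (x := x) (y := y) (z := u) (w := 0)
      (by constructor <;> push_cast <;> linarith only [x0, x1]) (by constructor <;> push_cast <;> linarith only [y0, y1])
      (by constructor <;> push_cast <;> linarith only [u0, u1]) (by constructor <;> norm_num)
    rw [old_val, tm_val, z_val, E.pl_val] at h
    have e : (E.var 0).val [x, y, u, 0] = x := rfl
    rw [e] at h
    unfold Oo
    linarith only [h]
  · have h := KE.chk1 ou (by norm_num) (x := x) (y := y) (z := 0) (w := 0)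
      (by constructor <;> push_cast <;> linarith only [x0, x1]) (by constructor <;> push_cast <;> linarith only [y0, y1])
      (by constructor <;> norm_num) (by constructor <;> norm_num)
    rw [old_val, tu_val, pp_val, E.pl_val] at h
    have e : (E.var 0).val [x, y, 0, 0] = x := rfl
    rw [e] at h
    unfold Oo
    linarith only [h]
  · have h := KE.chk1 od (by norm_num) (x := x) (y := y) (z := 0) (w := 0)
      (by constructor <;> push_cast <;> linarith only [x0, x1]) (by constructor <;> push_cast <;> linarith only [y0, y1])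
      (by constructor <;> norm_num) (by constructor <;> norm_num)
    have e' : (E.neg tu).val [x, y, 0, 0] = -(16 / 100 * τl y) := by
      show -(tu.val [x, y, 0, 0]) = _
      rw [tu_val]
    rw [old_val, e', pp_val, E.pl_val] at h
    have e : (E.var 0).val [x, y, 0, 0] = x := rfl
    rw [e] at h
    unfold Oo
    linarith only [h]

theorem τl_77 : τl (((7700 : ℤ) : ℝ) / 10000) = 0 := by
  unfold τl tr
  norm_num

theorem τl_0 : τl (((0 : ℤ) : ℝ) / 10000) = 0 := by
  unfold τl tr
  norm_num

/-- the alternatives with the first order condition -/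
def AltR (x q : ℝ) (X : ℂ) : Prop :=
  0 < W x ⟨77 / 100, 0⟩ - W x X + 2 * Real.pi * q ∨ 0 < W x 0 - W x X + 2 * Real.pi * q ∨
    W x X - 2 * Real.pi * q - 2 / 10 * dh3a ⟨x, 16 / 100 * τ6 x⟩ X (-(64 / 100)) < OR x

theorem c0 : (⟨((0 : ℤ) : ℝ) / 10000, 0⟩ : ℂ) = 0 := by
  apply Complex.ext <;> norm_num

theorem c77 : (⟨((7700 : ℤ) : ℝ) / 10000, 0⟩ : ℂ) = ⟨77 / 100, 0⟩ := by
  apply Complex.ext <;> norm_num

theorem oR (x0 : 360 / 1000 ≤ x) (x1 : x ≤ 600 / 1000) (u0 : -(45 / 1000) ≤ u) (u1 : u ≤ 59 / 1000)
    (hX : LP u q X) : AltR x q X := by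
  obtain ⟨y, y0, y1, ⟨rfl, rfl⟩ | ⟨rfl, rfl⟩ | ⟨rfl, rfl⟩⟩ := hX
  · obtain ⟨e, he, h⟩ := chkD4 oRm (by norm_num) (x := x) (y := y) (z := u) (w := 0)
      (by push_cast; linarith only [x0]) (by push_cast; linarith only [x1]) (by push_cast; linarith only [y0])
      (by push_cast; linarith only [y1]) (by push_cast; linarith only [u0]) (by push_cast; linarith only [u1])
      (by norm_num) (by norm_num)
    have e0 : (E.var 0).val [x, y, u, 0] = x := rfl
    simp only [List.mem_cons, List.not_mem_nil, or_false] at he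
    rcases he with rfl | rfl | rfl
    · left
      change 0 < (inn 7700 tm (E.c 0)).val [x, y, u, 0] at h
      rw [inn_val, τl_77, mul_zero, c77, tm_val, z_val] at h
      linarith only [h]
    · right; left
      change 0 < (inn 0 tm (E.c 0)).val [x, y, u, 0] at h
      rw [inn_val, τl_0, mul_zero, c0, tm_val, z_val] at h
      linarith only [h]
    · right; right
      rw [oldR_val, tm_val, z_val, E.pl_val, e0] at h
      unfold OR
      linarith only [h]
  · obtain ⟨e, he, h⟩ := chkD4 oRu (by norm_num) (x := x) (y := y) (z := 0) (w := 0)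
      (by push_cast; linarith only [x0]) (by push_cast; linarith only [x1]) (by push_cast; linarith only [y0])
      (by push_cast; linarith only [y1]) (by push_cast; linarith only []) (by push_cast; linarith only [])
      (by norm_num) (by norm_num)
    have e0 : (E.var 0).val [x, y, 0, 0] = x := rfl
    simp only [List.mem_cons, List.not_mem_nil, or_false] at he
    rcases he with rfl | rfl | rfl
    · left
      change 0 < (inn 7700 tu pp).val [x, y, 0, 0] at h
      rw [inn_val, τl_77, mul_zero, c77, tu_val, pp_val] at h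
      linarith only [h]
    · right; left
      change 0 < (inn 0 tu pp).val [x, y, 0, 0] at h
      rw [inn_val, τl_0, mul_zero, c0, tu_val, pp_val] at h
      linarith only [h]
    · right; right
      rw [oldR_val, tu_val, pp_val, E.pl_val, e0] at h
      unfold OR
      linarith only [h]
  · obtain ⟨e, he, h⟩ := chkD4 oRd (by norm_num) (x := x) (y := y) (z := 0) (w := 0)
      (by push_cast; linarith only [x0]) (by push_cast; linarith only [x1]) (by push_cast; linarith only [y0])
      (by push_cast; linarith only [y1]) (by push_cast; linarith only []) (by push_cast; linarith only [])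
      (by norm_num) (by norm_num)
    have e0 : (E.var 0).val [x, y, 0, 0] = x := rfl
    have e' : (E.neg tu).val [x, y, 0, 0] = -(16 / 100 * τl y) := by
      show -(tu.val [x, y, 0, 0]) = _
      rw [tu_val]
    simp only [List.mem_cons, List.not_mem_nil, or_false] at he
    rcases he with rfl | rfl | rfl
    · left
      change 0 < (inn 7700 (.neg tu) pp).val [x, y, 0, 0] at h
      rw [inn_val, τl_77, mul_zero, c77, e', pp_val] at h
      linarith only [h]
    · right; left
      change 0 < (inn 0 (.neg tu) pp).val [x, y, 0, 0] at h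
      rw [inn_val, τl_0, mul_zero, c0, e', pp_val] at h
      linarith only [h]
    · right; right
      rw [oldR_val, e', pp_val, E.pl_val, e0] at h
      unfold OR
      linarith only [h]

theorem spL (x0 : 360 / 1000 ≤ x) (x1 : x ≤ 600 / 1000) :
    0 < W x 0 - W x ⟨x, 16 / 100 * τ6 x⟩ := by
  have h := KE.chk1 sp (by norm_num) (x := x) (y := 0) (z := 0) (w := 0)
    (by constructor <;> push_cast <;> linarith only [x0, x1]) (by constructor <;> norm_num)
    (by constructor <;> norm_num) (by constructor <;> norm_num)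
  change 0 < (V3x (.var 0) sE (E.c 0) (E.c 0)).val [x, 0, 0, 0] -
    (V3x (.var 0) sE (.var 0) sE).val [x, 0, 0, 0] at h
  rw [W_val, W_val, z_val, sE_val] at h
  exact h

theorem cl2 (x0 : 50 / 1000 ≤ x) (x1 : x ≤ 140 / 1000) (T0 : 10 / 1000 ≤ T) (T1 : T ≤ 78 / 1000)
    (u0 : -(45 / 1000) ≤ u) (u1 : u ≤ 59 / 1000) :
    Oo x < N (2000 / 10000) T ⟨4 / 10, u * τl (4 / 10)⟩ + φ2 x T + 2 * Real.pi * (16 / 100 * τ6 x) := by
  have h := KE.chk1 c2 (by norm_num) (x := x) (y := T) (z := u) (w := 0)
    (by constructor <;> push_cast <;> linarith only [x0, x1]) (by constructor <;> push_cast <;> linarith only [T0, T1])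
    (by constructor <;> push_cast <;> linarith only [u0, u1]) (by constructor <;> norm_num)
  rw [clo_val, E.pl_val, z_val] at h
  have e : (E.var 0).val [x, T, u, 0] = x := rfl
  rw [e] at h
  push_cast at h
  rw [show (4000 : ℝ) / 10000 = 4 / 10 by norm_num] at h
  unfold φ2 Oo
  linarith only [h]

theorem cl3 (x0 : 140 / 1000 ≤ x) (x1 : x ≤ 360 / 1000) (T0 : 10 / 1000 ≤ T) (T1 : T ≤ 78 / 1000)
    (u0 : -(45 / 1000) ≤ u) (u1 : u ≤ 59 / 1000) :
    Oo x < N (2500 / 10000) T ⟨4 / 10, u * τl (4 / 10)⟩ + φ3 x T + 2 * Real.pi * (16 / 100 * τ6 x) := by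
  have h := KE.chk1 c3 (by norm_num) (x := x) (y := T) (z := u) (w := 0)
    (by constructor <;> push_cast <;> linarith only [x0, x1]) (by constructor <;> push_cast <;> linarith only [T0, T1])
    (by constructor <;> push_cast <;> linarith only [u0, u1]) (by constructor <;> norm_num)
  rw [clo_val, E.pl_val, z_val] at h
  have e : (E.var 0).val [x, T, u, 0] = x := rfl
  rw [e] at h
  push_cast at h
  rw [show (4000 : ℝ) / 10000 = 4 / 10 by norm_num] at h
  unfold φ3 Oo
  linarith only [h]

theorem clK (x0 : 360 / 1000 ≤ x) (x1 : x ≤ 600 / 1000) (T0 : 10 / 1000 ≤ T) (T1 : T ≤ 78 / 1000)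
    (u0 : -(45 / 1000) ≤ u) (u1 : u ≤ 59 / 1000) :
    Oo x < N (3000 / 10000) T ⟨4 / 10, u * τl (4 / 10)⟩ + φK x T + 2 * Real.pi * (16 / 100 * τ6 x) := by
  have h := KE.chk1 cK (by norm_num) (x := x) (y := T) (z := u) (w := 0)
    (by constructor <;> push_cast <;> linarith only [x0, x1]) (by constructor <;> push_cast <;> linarith only [T0, T1])
    (by constructor <;> push_cast <;> linarith only [u0, u1]) (by constructor <;> norm_num)
  rw [clo_val, E.pl_val, z_val] at h
  have e : (E.var 0).val [x, T, u, 0] = x := rfl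
  rw [e] at h
  push_cast at h
  rw [show (4000 : ℝ) / 10000 = 4 / 10 by norm_num] at h
  unfold φK Oo
  linarith only [h]

theorem clR (x0 : 360 / 1000 ≤ x) (x1 : x ≤ 600 / 1000) (T0 : 10 / 1000 ≤ T) (T1 : T ≤ 78 / 1000)
    (u0 : -(45 / 1000) ≤ u) (u1 : u ≤ 59 / 1000) :
    OR x < N (2500 / 10000) T ⟨4 / 10, u * τl (4 / 10)⟩ + φR x T + 2 * Real.pi * (16 / 100 * τ6 x) + 2 / 10 * (2 * Real.pi * (64 / 100)) := by
  have h := KE.chk1 cR (by norm_num) (x := x) (y := T) (z := u) (w := 0)
    (by constructor <;> push_cast <;> linarith only [x0, x1]) (by constructor <;> push_cast <;> linarith only [T0, T1])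
    (by constructor <;> push_cast <;> linarith only [u0, u1]) (by constructor <;> norm_num)
  have e' : (E.mul .pi (.mul (.q 2 1) (.mul mu mR))).val [x, T, u, 0] =
      2 / 10 * (2 * Real.pi * (64 / 100)) := by
    show Real.pi * (((2 : ℤ) : ℝ) / ((1 : ℕ) : ℝ) * ((((2 : ℤ) : ℝ) / ((10 : ℕ) : ℝ)) *
      (((64 : ℤ) : ℝ) / ((100 : ℕ) : ℝ)))) = _
    push_cast
    ring
  rw [clo_val, E.pl_val, e'] at h
  have e : (E.var 0).val [x, T, u, 0] = x := rfl
  rw [e] at h
  push_cast at h
  rw [show (4000 : ℝ) / 10000 = 4 / 10 by norm_num] at h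
  unfold φR OR
  linarith only [h]

theorem sL0 (x0 : 0 / 1000 ≤ x) (x1 : x ≤ 20 / 1000) (T0 : 10 / 1000 ≤ T) (T1 : T ≤ 78 / 1000)
    (u0 : -(45 / 1000) ≤ u) (u1 : u ≤ 59 / 1000) (hX : LP u q X) :
    0 < N (550 / 10000) T X + φ0 x T - W x X + 2 * Real.pi * (16 / 100 * τ6 x) ∨
    0 < N (550 / 10000) T ⟨2000 / 10000, u * τl (2000 / 10000)⟩ + φ0 x T - W x X +
      (2 * Real.pi * q + 2 * Real.pi * (16 / 100 * τ6 x)) := by
  obtain ⟨y, y0, y1, ⟨rfl, rfl⟩ | ⟨rfl, rfl⟩ | ⟨rfl, rfl⟩⟩ := hX
  · obtain ⟨e, he, h⟩ := chkF4 s0m (by norm_num) (x := x) (y := T) (z := y) (w := u)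
      (by push_cast; linarith only [x0]) (by push_cast; linarith only [x1]) (by push_cast; linarith only [T0])
      (by push_cast; linarith only [T1]) (by push_cast; linarith only [y0]) (by push_cast; linarith only [y1])
      (by push_cast; linarith only [u0]) (by push_cast; linarith only [u1])
    simp only [List.mem_cons, List.not_mem_nil, or_false] at he
    rcases he with rfl | rfl
    · left
      rw [keep_val, tm'_val] at h
      push_cast at h
      unfold φ0
      linarith only [h]
    · right
      rw [resp_val, tm'_val, z_val] at h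
      push_cast at h
      unfold φ0
      linarith only [h]
  · obtain ⟨e, he, h⟩ := chkF4 s0u (by norm_num) (x := x) (y := T) (z := y) (w := u)
      (by push_cast; linarith only [x0]) (by push_cast; linarith only [x1]) (by push_cast; linarith only [T0])
      (by push_cast; linarith only [T1]) (by push_cast; linarith only [y0]) (by push_cast; linarith only [y1])
      (by push_cast; linarith only [u0]) (by push_cast; linarith only [u1])
    simp only [List.mem_cons, List.not_mem_nil, or_false] at he
    rcases he with rfl | rfl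
    · left
      rw [keep_val, tu'_val] at h
      push_cast at h
      unfold φ0
      linarith only [h]
    · right
      rw [resp_val, tu'_val, pp'_val] at h
      push_cast at h
      unfold φ0
      linarith only [h]
  · obtain ⟨e, he, h⟩ := chkF4 s0d (by norm_num) (x := x) (y := T) (z := y) (w := u)
      (by push_cast; linarith only [x0]) (by push_cast; linarith only [x1]) (by push_cast; linarith only [T0])
      (by push_cast; linarith only [T1]) (by push_cast; linarith only [y0]) (by push_cast; linarith only [y1])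
      (by push_cast; linarith only [u0]) (by push_cast; linarith only [u1])
    have e' : (E.neg tu').val [x, T, y, u] = -(16 / 100 * τl y) := by
      show -(tu'.val [x, T, y, u]) = _
      rw [tu'_val]
    simp only [List.mem_cons, List.not_mem_nil, or_false] at he
    rcases he with rfl | rfl
    · left
      rw [keep_val, e'] at h
      push_cast at h
      unfold φ0
      linarith only [h]
    · right
      rw [resp_val, e', pp'_val] at h
      push_cast at h
      unfold φ0
      linarith only [h]

theorem sL1 (x0 : 20 / 1000 ≤ x) (x1 : x ≤ 50 / 1000) (T0 : 10 / 1000 ≤ T) (T1 : T ≤ 78 / 1000)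
    (u0 : -(45 / 1000) ≤ u) (u1 : u ≤ 59 / 1000) (hX : LP u q X) :
    0 < N (850 / 10000) T X + φ1 x T - W x X + 2 * Real.pi * (16 / 100 * τ6 x) ∨
    0 < N (850 / 10000) T ⟨2000 / 10000, u * τl (2000 / 10000)⟩ + φ1 x T - W x X +
      (2 * Real.pi * q + 2 * Real.pi * (16 / 100 * τ6 x)) ∨
    0 < N (850 / 10000) T ⟨3000 / 10000, u * τl (3000 / 10000)⟩ + φ1 x T - W x X +
      (2 * Real.pi * q + 2 * Real.pi * (16 / 100 * τ6 x)) := by
  obtain ⟨y, y0, y1, ⟨rfl, rfl⟩ | ⟨rfl, rfl⟩ | ⟨rfl, rfl⟩⟩ := hX
  · obtain ⟨e, he, h⟩ := chkF4 s1m (by norm_num) (x := x) (y := T) (z := y) (w := u)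
      (by push_cast; linarith only [x0]) (by push_cast; linarith only [x1]) (by push_cast; linarith only [T0])
      (by push_cast; linarith only [T1]) (by push_cast; linarith only [y0]) (by push_cast; linarith only [y1])
      (by push_cast; linarith only [u0]) (by push_cast; linarith only [u1])
    simp only [List.mem_cons, List.not_mem_nil, or_false] at he
    rcases he with rfl | rfl | rfl
    · left
      rw [keep_val, tm'_val] at h
      push_cast at h
      unfold φ1
      linarith only [h]
    · right; left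
      rw [resp_val, tm'_val, z_val] at h
      push_cast at h
      unfold φ1
      linarith only [h]
    · right; right
      rw [resp_val, tm'_val, z_val] at h
      push_cast at h
      unfold φ1
      linarith only [h]
  · obtain ⟨e, he, h⟩ := chkF4 s1u (by norm_num) (x := x) (y := T) (z := y) (w := u)
      (by push_cast; linarith only [x0]) (by push_cast; linarith only [x1]) (by push_cast; linarith only [T0])
      (by push_cast; linarith only [T1]) (by push_cast; linarith only [y0]) (by push_cast; linarith only [y1])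
      (by push_cast; linarith only [u0]) (by push_cast; linarith only [u1])
    simp only [List.mem_cons, List.not_mem_nil, or_false] at he
    rcases he with rfl | rfl | rfl
    · left
      rw [keep_val, tu'_val] at h
      push_cast at h
      unfold φ1
      linarith only [h]
    · right; left
      rw [resp_val, tu'_val, pp'_val] at h
      push_cast at h
      unfold φ1
      linarith only [h]
    · right; right
      rw [resp_val, tu'_val, pp'_val] at h
      push_cast at h
      unfold φ1
      linarith only [h]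
  · obtain ⟨e, he, h⟩ := chkF4 s1d (by norm_num) (x := x) (y := T) (z := y) (w := u)
      (by push_cast; linarith only [x0]) (by push_cast; linarith only [x1]) (by push_cast; linarith only [T0])
      (by push_cast; linarith only [T1]) (by push_cast; linarith only [y0]) (by push_cast; linarith only [y1])
      (by push_cast; linarith only [u0]) (by push_cast; linarith only [u1])
    have e' : (E.neg tu').val [x, T, y, u] = -(16 / 100 * τl y) := by
      show -(tu'.val [x, T, y, u]) = _
      rw [tu'_val]
    simp only [List.mem_cons, List.not_mem_nil, or_false] at he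
    rcases he with rfl | rfl | rfl
    · left
      rw [keep_val, e'] at h
      push_cast at h
      unfold φ1
      linarith only [h]
    · right; left
      rw [resp_val, e', pp'_val] at h
      push_cast at h
      unfold φ1
      linarith only [h]
    · right; right
      rw [resp_val, e', pp'_val] at h
      push_cast at h
      unfold φ1
      linarith only [h]

end MKE

end Pool.Agent.Work.MP_b30479_gt.G2
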