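import Pool.Agent.Work.MP_b30479_gt.G2.MKL
import Pool.Agent.Work.MP_b30479_gt.G2.MKK
import Pool.Agent.Work.MP_b30479_gt.G2.MKA
import Pool.Agent.Work.MP_b30479_gt.G2.WLocA
import Pool.Agent.Work.MP_b30479_gt.G2.WMMF
import Pool.Agent.Work.MP_b30479_gt.G2.WRnd

/-!
# Modes `1 | 3`, the `3` at an end
-/

namespace Pool.Agent.Work.MP_b30479_gt.G2

open Finset VOL Filter Topology SR NumG

namespace MKE

theorem τl_nonneg (y : ℝ) : 0 ≤ τl y := by
  unfold τl tr
  exact le_max_left _ _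

theorem LP.q0 {u q : ℝ} {X : ℂ} (h : LP u q X) : 0 ≤ q := by
  obtain ⟨y, y0, y1, ⟨-, rfl⟩ | ⟨-, rfl⟩ | ⟨-, rfl⟩⟩ := h
  · exact le_rfl
  · have := τl_nonneg y; positivity
  · have := τl_nonneg y; positivity

theorem τl_77' : τl (77 / 100) = 0 := by
  unfold τl tr
  norm_num

theorem τl_0' : τl 0 = 0 := by
  unfold τl tr
  norm_num

/-- **The contradiction.** -/
theorem no13 {x T u q : ℝ} {K L : ℂ} (x0 : 0 ≤ x) (x1 : x ≤ 600 / 1000) (T0 : 10 / 1000 ≤ T)
    (T1 : T ≤ 78 / 1000) (u0 : -(45 / 1000) ≤ u) (u1 : u ≤ 59 / 1000) (hK : KP K) (hL : LP u q L)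
    (keyK : ∀ c, 0 ≤ c → c ≤ 6 / 10 → Gk c T x K + (N c T L - W x L) +
      2 * Real.pi * (16 / 100 * τ6 x) ≤ 0)
    (keyI : ∀ c c', 0 ≤ c → c ≤ 6 / 10 → 0 ≤ c' → c' ≤ 77 / 100 → Gk c T x K +
      (N c T ⟨c', u * τl c'⟩ - W x L + 2 * Real.pi * q) + 2 * Real.pi * (16 / 100 * τ6 x) ≤ 0)
    (keyJ : ∀ c', 0 ≤ c' → c' ≤ 77 / 100 → W x ⟨c', u * τl c'⟩ - W x L + 2 * Real.pi * q ≤ 0)
    (foc : 360 / 1000 ≤ x → K.re ≤ 370 / 1000 → L ≠ ⟨x, 16 / 100 * τ6 x⟩ →
      dh1 ⟨x, -(16 / 100 * τ6 x)⟩ K (64 / 100) + dh3a ⟨x, 16 / 100 * τ6 x⟩ L (-(64 / 100)) +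
        2 * Real.pi * (64 / 100) = 0) : False := by
  rcases le_total x (20 / 1000) with h0 | h0
  · have a1 := g0 (by linarith only [x0]) h0 T0 T1 hK
    rcases sL0 (by linarith only [x0]) h0 T0 T1 u0 u1 hL with h | h
    · have := keyK (550 / 10000) (by norm_num) (by norm_num)
      linarith only [a1, h, this]
    · have := keyI (550 / 10000) (2000 / 10000) (by norm_num) (by norm_num) (by norm_num)
        (by norm_num)
      linarith only [a1, h, this]
  rcases le_total x (50 / 1000) with h1 | h1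
  · have a1 := g1 h0 h1 T0 T1 hK
    rcases sL1 h0 h1 T0 T1 u0 u1 hL with h | h | h
    · have := keyK (850 / 10000) (by norm_num) (by norm_num)
      linarith only [a1, h, this]
    · have := keyI (850 / 10000) (2000 / 10000) (by norm_num) (by norm_num) (by norm_num)
        (by norm_num)
      linarith only [a1, h, this]
    · have := keyI (850 / 10000) (3000 / 10000) (by norm_num) (by norm_num) (by norm_num)
        (by norm_num)
      linarith only [a1, h, this]
  rcases le_total x (140 / 1000) with h2 | h2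
  · have a1 := g2 h1 h2 T0 T1 hK
    have a2 := oO h1 x1 u0 u1 hL
    have a3 := cl2 h1 h2 T0 T1 u0 u1
    have := keyI (2000 / 10000) (4 / 10) (by norm_num) (by norm_num) (by norm_num) (by norm_num)
    linarith only [a1, a2, a3, this]
  rcases le_total x (360 / 1000) with h3 | h3
  · have a1 := g3 h2 h3 T0 T1 hK
    have a2 := oO h1 x1 u0 u1 hL
    have a3 := cl3 h2 h3 T0 T1 u0 u1
    have := keyI (2500 / 10000) (4 / 10) (by norm_num) (by norm_num) (by norm_num) (by norm_num)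
    linarith only [a1, a2, a3, this]
  rcases le_total K.re (370 / 1000) with h4 | h4
  · by_cases hL0 : L = ⟨x, 16 / 100 * τ6 x⟩
    · have a1 := spL h3 x1
      have a2 := keyJ 0 le_rfl (by norm_num)
      rw [τl_0', mul_zero, show (⟨0, 0⟩ : ℂ) = 0 from rfl, hL0] at a2
      have a3 : 0 ≤ 2 * Real.pi * q := mul_nonneg (by positivity) hL.q0
      linarith only [a1, a2, a3]
    · have a1 := gR h3 x1 T0 T1 h4 hK
      have a3 := clR h3 x1 T0 T1 u0 u1
      rcases oR h3 x1 u0 u1 hL with h | h | h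
      · have := keyJ (77 / 100) (by norm_num) le_rfl
        rw [τl_77', mul_zero] at this
        linarith only [h, this]
      · have := keyJ 0 le_rfl (by norm_num)
        rw [τl_0', mul_zero, show (⟨0, 0⟩ : ℂ) = 0 from rfl] at this
        linarith only [h, this]
      · have b1 := keyI (2500 / 10000) (4 / 10) (by norm_num) (by norm_num) (by norm_num)
          (by norm_num)
        have b2 := foc h3 h4 hL0
        linarith only [a1, a3, h, b1, b2]
  · have a1 := gK h3 x1 T0 T1 h4 hK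
    have a2 := oO h1 x1 u0 u1 hL
    have a3 := clK h3 x1 T0 T1 u0 u1
    have := keyI (3000 / 10000) (4 / 10) (by norm_num) (by norm_num) (by norm_num) (by norm_num)
    linarith only [a1, a2, a3, this]

end MKE

variable {M : ℕ} {b : Fin (M + 1) → ℤ} {zs : DD (tyW b) ⊕ ZZ (tyW b) → ℂ}
variable {R : Finset (DD (tyW b))} {nb : Finset (DD (tyW b) ⊕ ZZ (tyW b))}
variable {z : DD (tyW b) ⊕ ZZ (tyW b) → ℂ} {p : DD (tyW b) → ℝ}
variable {h h' : Fin M} {i j j' : Fin (M + 1)} {s : Fin 3} {x c : ℝ}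

namespace MKE

/-- parameters of a hinge between a digit `1` and a `3` at an end -/
theorem par_threeE (A : Adj h i s j) (hi : clsW b i = .one) (hj : clsW b j = .threeE) :
    wXM b h = 6 / 10 ∧ wcl b h = 14 / 100 ∧ wcr b h = 25 / 100 ∧ (∀ x, trh b h x = τ6 x) ∧
      ∀ q, mhs b h q = 16 / 100 := by
  have h1 : wXM b h = 600 / 1000 ∧ wcl b h = 140 / 1000 ∧ wcr b h = 250 / 1000 := by
    rw [A.XM_eq b, A.cl_eq b, A.cr_eq b]
    unfold hpp
    rw [hi, hj]
    simp only [hp, hp1]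
    split_ifs <;> norm_num
  refine ⟨by rw [h1.1]; norm_num, by rw [h1.2.1]; norm_num, by rw [h1.2.2]; norm_num,
    fun x => ?_, fun q => ?_⟩
  · unfold trh τ6
    rw [h1.1, h1.2.1, h1.2.2]
    norm_num
  · unfold mhs
    cases A with
    | l => rw [hi, hj]; simp
    | r => rw [hi, hj]; simp

theorem LP_of (hL : Loc b zs) (m : {i : Fin (M + 1) // (tyW b i).isMid = true})
    (hc : clsW b m.1 = .threeE) {X : ℂ} (I : IPos b zs p m X) :
    LP (SR.Tm b zs m) (p (.inr m)) X := by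
  have e : ∀ y, trm b m y = τl y := by
    intro y
    rw [trmE m hc]
    unfold τl
    norm_num
  have hx : ∀ y : ℝ, y ≤ (mp (clsW b m.1)).XM → y ≤ 77 / 100 := by
    intro y hy
    rw [hc] at hy
    exact hy
  cases I with
  | main y y0 y1 e' hp => exact ⟨y, y0, hx y y1, Or.inl ⟨by rw [e', e], hp⟩⟩
  | up y y0 y1 _ e' hp => exact ⟨y, y0, hx y y1, Or.inr (Or.inl ⟨by rw [e', e], by rw [hp, e]⟩)⟩
  | dn y y0 y1 _ e' hp => exact ⟨y, y0, hx y y1, Or.inr (Or.inr ⟨by rw [e', e], by rw [hp, e]⟩)⟩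

theorem tgi_eq (m : {i : Fin (M + 1) // (tyW b i).isMid = true}) (hc : clsW b m.1 = .threeE)
    (y : ℝ) : tgi b zs m y = ⟨y, SR.Tm b zs m * τl y⟩ := by
  unfold tgi
  have e := trmE m hc y
  unfold trm at e
  rw [e]
  unfold τl SR.Tm
  norm_num

end MKE

/-- **Modes `1 | 3`, the `3` at an end.** -/
theorem kd_one_threeE (hb : ClassW b) (L : LocA b zs) (s : Fin 3) : Kd b zs .one .threeE s := by
  intro R nb z p h i j x hN hM hq D hi hj
  obtain ⟨m, rfl⟩ : ∃ m : {i : Fin (M + 1) // (tyW b i).isMid = true}, m.1 = j :=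
    ⟨⟨j, tyW_isMid (Or.inr hj)⟩, rfl⟩
  obtain ⟨hXM, hcl, hcr, ht, hm⟩ := MKE.par_threeE D.adj hi hj
  have B := D.adj.symm
  obtain ⟨h', j', A'⟩ := D.adj.other' b (clsW_inner hb (Or.inl hi))
  have P := hM.npos hb hN hq D.adj D.nn A'
  obtain ⟨hT0, hT1, -, -⟩ := L.X.win D.adj A' hi
  have hTT : 10 / 1000 ≤ Th b zs h i ∧ Th b zs h i ≤ 78 / 1000 := by
    have hT0' : (cw (clsW b j') (clsW b m.1)).t0 ≤ Th b zs h i := hT0
    have hT1' : Th b zs h i ≤ (cw (clsW b j') (clsW b m.1)).t1 := hT1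
    rw [hj] at hT0' hT1'
    have hk := okp_of hb D.adj A' hi
    rw [hj] at hk
    unfold ML.okp at hk
    rcases hP : clsW b j' <;> rw [hP] at hT0' hT1' hk <;> simp only [cw] at hT0' hT1' <;>
      first | (constructor <;> linarith only [hT0', hT1']) | (exfalso; simp at hk)
  obtain ⟨hnn, I⟩ := hM.ipos hN m B D.nn
  have hLP := MKE.LP_of L.L m hj I
  have hu := TmE_mem L.L m hj
  have hx1 := D.x1
  rw [hXM] at hx1
  have hown : Ow b z i s = ⟨x, -(16 / 100 * MKE.τ6 x)⟩ := by rw [D.own, hm, ht]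
  have hopp : Ow b z m.1 s.rev = ⟨x, 16 / 100 * MKE.τ6 x⟩ := by rw [D.opp, hm, ht]
  have htg : ∀ c, tgo b zs h i c = ⟨c, Th b zs h i * MKE.τ6 c⟩ := fun c => by
    unfold tgo; rw [ht]
  have htg' : ∀ c, tgo b zs h m.1 c = ⟨c, -(Th b zs h i * MKE.τ6 c)⟩ := fun c => by
    unfold tgo; rw [ht, D.Tj, neg_mul]
  refine MKE.no13 (K := Ow b z i s.rev) (L := Ow b z m.1 1) D.x0.le (by linarith only [hx1]) hTT.1 hTT.2
    hu.1 hu.2 ?_ hLP ?_ ?_ ?_ ?_
  · rcases MKA.one_pos hb L.L A' hi P with h3 | ⟨h3, -, -⟩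
    · exact h3
    · exfalso
      have hk := okp_of hb D.adj A' hi
      rw [hj, h3] at hk
      unfold ML.okp at hk
      simp at hk
  · intro c c0 c1
    have k1 := keep_one (zs := zs) (nb := nb) (z := z) (p := p) (c := c) hb D.adj hi
    have k2 := keep_threeE (zs := zs) (nb := nb) (z := z) (p := p) (c := c) B hj
    have := D.star hb hN.ok.1 hM c0 (by rw [hXM]; exact c1) k1 k2
    rw [hown, hopp, hm, ht, htg, htg'] at this
    exact this
  · intro c c' c0 c1 c0' c1'
    have k1 := keep_one (zs := zs) (nb := nb) (z := z) (p := p) (c := c) hb D.adj hi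
    have k2 := inner_threeE (zs := zs) (z := z) (p := p) (c := c) m B hj hnn c0' c1'
    have := D.star hb hN.ok.1 hM c0 (by rw [hXM]; exact c1) k1 k2
    rw [hown, hopp, hm, ht, htg, htg', MKE.tgi_eq m hj] at this
    exact this
  · intro c' c0 c1
    have := hM.inner3E hb hN.ok.1 m B hj hnn c0 c1
    rw [hopp, MKE.tgi_eq m hj] at this
    exact this
  · intro hx hK hne
    have hkt := (trh_right (b := b) (h := h) (x := x) (by rw [hXM, hcr]; linarith only [hx]) D.x1).2
    have hK0 := P.re.1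
    have dK : DOk (Ow b z i s + Ow b z i s.rev) := by
      right
      rw [hown]
      unfold strip
      constructor
      · show 0 < x + _
        linarith only [hx, hK0, D.x0]
      · show x + _ < 1
        linarith only [hx1, hK]
    have ki := der_one hb D.adj hi (a := -mhs b h s) hkt D.own' D.ok_own dK
    have e1 : -mhs b h s * -(1 / wcr b h) = 64 / 100 := by
      rw [hm, hcr]; norm_num
    have e2 : mhs b h s * -(1 / wcr b h) = -(64 / 100) := by
      rw [hm, hcr]; norm_num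
    by_cases hd : DOk (Ow b z m.1 1 - Ow b z m.1 s.rev)
    · have kj := der_threeE B hj (a := mhs b h s) hkt (by rw [D.opp]) D.ok_opp hd
      have hf := D.foc hb hN.ok.1 hM ki kj hkt
      rw [e1, e2, hown, hopp] at hf
      linarith only [hf]
    · exfalso
      unfold DOk at hd
      push Not at hd
      obtain ⟨d1, d2⟩ := hd
      obtain ⟨y, y0, y1, hy⟩ := hLP
      have hre : (Ow b z m.1 1).re = y := by
        rcases hy with ⟨e, -⟩ | ⟨e, -⟩ | ⟨e, -⟩ <;> rw [e]
      have hre2 : (Ow b z m.1 s.rev).re = x := by rw [hopp]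
      rcases lt_trichotomy (Ow b z m.1 1 - Ow b z m.1 s.rev).re 0 with h4 | h4 | h4
      · refine D.kinkE hb hN.ok.1 hM hj ki hkt ?_ d1 ?_ h4
        · rw [hcr]; norm_num
        · rw [Complex.sub_re, hre, hre2]
          linarith only [hx1, y0]
      · apply hne
        have : Ow b z m.1 1 - Ow b z m.1 s.rev = 0 := Complex.ext h4 d1
        rw [← hopp]
        exact sub_eq_zero.1 this
      · apply d2
        unfold strip
        refine ⟨h4, ?_⟩
        rw [Complex.sub_re, hre, hre2]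
        linarith only [hx, y1, D.x0]

end Pool.Agent.Work.MP_b30479_gt.G2
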