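import Pool.Agent.Work.MP_b30479_gt.G2.WMMD
import Pool.Agent.Work.NumU.GenD

/-!
# Modes `2 | 1`: expressions
-/

namespace Pool.Agent.Work.MP_b30479_gt.G2

open Finset VOL Filter Topology

namespace MKN

open NumG

/-- ramp function of the hinge -/
def tauE (x : E) : E := E.tr 800 160 290 x
/-- height of the mirrored path at the variable `0` -/
def sE : E := .mul (E.c 1600) (tauE (.var 0))
/-- height of the other hinge of the digit `2`; variables `2`, `3` -/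
def tmE : E := .sub (.mul (.var 3) (.mul (E.c 1600) (E.tr 800 100 290 (.var 2))))
  (.mul (.sub (.q 1 1) (.var 3)) (.mul (E.c 3000) (E.tr 800 120 470 (.var 2))))
/-- height of the other hinge of the digit `1` -/
def tkE : E := .mul (.var 3) (.mul (E.c 1600) (E.tr 860 130 200 (.var 2)))
/-- value of a digit `2` at `c + i d` minus the value at `x + i e`, other hinge `y + i t` -/
def d2E (c d x e y t : E) : E :=
  .add (.sub (.mul (.q 2 1) (.sub (.ux x e) (.ux c d)))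
      (.mul .pi (.add (.sub (.mul (.sub c y) (.sub d t)) (.mul (.sub x y) (.sub e t)))
        (.mul (.q 1 2) (.sub d e)))))
    (.sub (.ux (.add c y) (.add d t)) (.ux (.add x y) (.add e t)))
/-- the same for a digit `1` -/
def d1E (c d x e y t : E) : E :=
  .add (.sub (.mul .pi (.add (.mul (.sub c x) t) (.mul (.sub y (.q 1 1)) (.sub d e))))
      (.sub (.ux c d) (.ux x e)))
    (.sub (.ux (.add c y) (.add d t)) (.ux (.add x y) (.add e t)))
/-- a bound; variables `x`, `T` -/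
def phE (a0 : ℤ) (a : List (ℤ × ℤ × ℕ)) (s0 : ℤ) : E :=
  .sub (E.pl (.var 0) a0 a) (.mul (.q s0 1000) (.var 1))
/-- gain of the digit `2` -/
def G2E (cn : ℤ) : E := d2E (E.c cn) (.mul (.var 1) (tauE (E.c cn))) (.var 0) (.neg sE) (.var 2) tmE
/-- gain of the digit `1` -/
def G1E (cn : ℤ) : E := d1E (E.c cn) (.neg (.mul (.var 1) (tauE (E.c cn)))) (.var 0) sE (.var 2) tkE
/-- penalty -/
def penE : E := .mul .pi (.mul (E.c 3200) (tauE (.var 0)))
/-- slope of the mirrored path `16/29` -/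
def mR : E := .q 16 29
/-- factor of the first order condition -/
def mu : E := .q 2 10
/-- gain of the digit `2` with the first order condition -/
def R2 (cn : ℤ) (ph : E) : D :=
  .add (.of (.sub (G2E cn) ph)) (.mul (.of mu) (D.dh2 (.var 0) (.neg sE) (.var 2) tmE mR))
/-- gain of the digit `1` with the first order condition -/
def R1 (cn : ℤ) (ph : E) : D :=
  .add (.of (.add (.add (G1E cn) ph) (.add penE (.mul .pi (.mul (.q 2 1) (.mul mu mR))))))
    (.mul (.of mu) (D.dh1 (.var 0) sE (.var 2) tkE (.neg mR)))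
/-- singular positions: variables `x`, `T` -/
def G2s (cn : ℤ) : E := d2E (E.c cn) (.mul (.var 1) (tauE (E.c cn))) (.var 0) (.neg sE) (.sub (.q 1 1) (.var 0)) sE
def G1s (cn : ℤ) : E := d1E (E.c cn) (.neg (.mul (.var 1) (tauE (E.c cn)))) (.var 0) sE (.sub (.q 1 1) (.var 0)) (.neg sE)

/-! ### real functions -/

/-- ramp function of the hinge -/
noncomputable def τ8 (x : ℝ) : ℝ :=
  tr 0 (((800 : ℤ) : ℝ) / 1000) (((160 : ℕ) : ℝ) / 1000) (((290 : ℕ) : ℝ) / 1000) x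
/-- gain of the digit `2` -/
noncomputable def M2 (c T x : ℝ) (X : ℂ) : ℝ :=
  V2 ⟨c, T * τ8 c⟩ X - V2 ⟨x, -(16 / 100 * τ8 x)⟩ X
/-- gain of the digit `1` -/
noncomputable def M1 (c T x : ℝ) (X : ℂ) : ℝ :=
  V1 ⟨c, -(T * τ8 c)⟩ X - V1 ⟨x, 16 / 100 * τ8 x⟩ X
/-- a bound -/
noncomputable def ph (a0 : ℤ) (a : List (ℤ × ℤ × ℕ)) (s0 : ℤ) (x T : ℝ) : ℝ :=
  plR x a0 a - s0 / 1000 * T

theorem tauE_val (x : E) (xs : List ℝ) : (tauE x).val xs = τ8 (x.val xs) :=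
  E.tr_val (XM := 800) (cl := 160) (cr := 290) (by norm_num) (by norm_num) (by norm_num) _ _
theorem c_val (n : ℤ) (xs : List ℝ) : (E.c n).val xs = (n : ℝ) / 10000 := by
  show (n : ℝ) / ((10000 : ℕ) : ℝ) = _
  norm_num
theorem sE_val (x : ℝ) (xs : List ℝ) : sE.val (x :: xs) = 16 / 100 * τ8 x := by
  show (E.c 1600).val (x :: xs) * (tauE (.var 0)).val (x :: xs) = _
  rw [c_val, tauE_val]
  show ((1600 : ℤ) : ℝ) / 10000 * τ8 x = _
  norm_num
theorem penE_val (x : ℝ) (xs : List ℝ) : penE.val (x :: xs) = 2 * Real.pi * (16 / 100 * τ8 x) := by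
  show Real.pi * ((E.c 3200).val (x :: xs) * (tauE (.var 0)).val (x :: xs)) = _
  rw [tauE_val, c_val]
  show Real.pi * (((3200 : ℤ) : ℝ) / 10000 * τ8 x) = _
  push_cast
  ring
theorem ph_val (a0 : ℤ) (a : List (ℤ × ℤ × ℕ)) (s0 : ℤ) (x T : ℝ) (xs : List ℝ) :
    (phE a0 a s0).val (x :: T :: xs) = ph a0 a s0 x T := by
  show (E.pl (.var 0) a0 a).val (x :: T :: xs) - (s0 : ℝ) / ((1000 : ℕ) : ℝ) * T = _
  rw [E.pl_val]
  unfold ph
  norm_num
  rfl

theorem d2E_val (c d x e y t : E) (xs : List ℝ) : (d2E c d x e y t).val xs =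
    V2 ⟨c.val xs, d.val xs⟩ ⟨y.val xs, t.val xs⟩ - V2 ⟨x.val xs, e.val xs⟩ ⟨y.val xs, t.val xs⟩ := by
  unfold V2
  simp only [d2E, E.val, NumU.UU_uu, Complex.add_re, Complex.add_im, Complex.sub_im, Complex.sub_re,
    Complex.mul_im, pow_two]
  push_cast
  ring

theorem d1E_val (c d x e y t : E) (xs : List ℝ) : (d1E c d x e y t).val xs =
    V1 ⟨c.val xs, d.val xs⟩ ⟨y.val xs, t.val xs⟩ - V1 ⟨x.val xs, e.val xs⟩ ⟨y.val xs, t.val xs⟩ := by
  unfold V1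
  simp only [d1E, E.val, NumU.UU_uu, Complex.add_re, Complex.add_im, Complex.sub_im, Complex.mul_im]
  push_cast
  ring

/-- height of the other hinge of the digit `2` -/
noncomputable def tm2 (y s : ℝ) : ℝ := s * (16 / 100 * tr 0 (8 / 10) (1 / 10) (29 / 100) y) -
  (1 - s) * (3 / 10 * tr 0 (8 / 10) (12 / 100) (47 / 100) y)
/-- height of the other hinge of the digit `1` -/
noncomputable def tk1 (y θ : ℝ) : ℝ := θ * (16 / 100 * tr 0 (86 / 100) (13 / 100) (20 / 100) y)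

theorem tmE_val (x T y s : ℝ) : tmE.val [x, T, y, s] = tm2 y s := by
  show s * ((E.c 1600).val [x, T, y, s] * (E.tr 800 100 290 (.var 2)).val [x, T, y, s]) -
    (((1 : ℤ) : ℝ) / ((1 : ℕ) : ℝ) - s) * ((E.c 3000).val [x, T, y, s] *
      (E.tr 800 120 470 (.var 2)).val [x, T, y, s]) = _
  rw [c_val, c_val, E.tr_val (by norm_num) (by norm_num) (by norm_num),
    E.tr_val (by norm_num) (by norm_num) (by norm_num)]
  show s * (((1600 : ℤ) : ℝ) / 10000 * tr 0 _ _ _ y) - (((1 : ℤ) : ℝ) / ((1 : ℕ) : ℝ) - s) *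
    (((3000 : ℤ) : ℝ) / 10000 * tr 0 _ _ _ y) = _
  unfold tm2
  norm_num

theorem tkE_val (x T y θ : ℝ) : tkE.val [x, T, y, θ] = tk1 y θ := by
  show θ * ((E.c 1600).val [x, T, y, θ] * (E.tr 860 130 200 (.var 2)).val [x, T, y, θ]) = _
  rw [c_val, E.tr_val (by norm_num) (by norm_num) (by norm_num)]
  show θ * (((1600 : ℤ) : ℝ) / 10000 * tr 0 _ _ _ y) = _
  unfold tk1
  norm_num

theorem tg_val (cn : ℤ) (x T : ℝ) (xs : List ℝ) :
    (E.mul (.var 1) (tauE (E.c cn))).val (x :: T :: xs) = T * τ8 (cn / 10000) := by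
  show T * (tauE (E.c cn)).val (x :: T :: xs) = _
  rw [tauE_val, c_val]

theorem G2E_val (cn : ℤ) (x T y s : ℝ) : (G2E cn).val [x, T, y, s] =
    M2 (cn / 10000) T x ⟨y, tm2 y s⟩ := by
  unfold G2E
  rw [d2E_val, tg_val, tmE_val, c_val]
  have e1 : (E.neg sE).val [x, T, y, s] = -(16 / 100 * τ8 x) := by
    show -(sE.val [x, T, y, s]) = _
    rw [sE_val]
  rw [e1]
  rfl

theorem G1E_val (cn : ℤ) (x T y s : ℝ) : (G1E cn).val [x, T, y, s] =
    M1 (cn / 10000) T x ⟨y, tk1 y s⟩ := by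
  unfold G1E
  rw [d1E_val, sE_val, tkE_val, c_val]
  have e1 : (E.neg (.mul (.var 1) (tauE (E.c cn)))).val [x, T, y, s] = -(T * τ8 (cn / 10000)) := by
    show -((E.mul (.var 1) (tauE (E.c cn))).val [x, T, y, s]) = _
    rw [tg_val]
  rw [e1]
  rfl

theorem mR_val (xs : List ℝ) : mR.val xs = 16 / 29 := by
  show ((16 : ℤ) : ℝ) / ((29 : ℕ) : ℝ) = _
  norm_num

theorem mu_val (xs : List ℝ) : mu.val xs = 2 / 10 := by
  show ((2 : ℤ) : ℝ) / ((10 : ℕ) : ℝ) = _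
  norm_num

theorem R2_val (cn : ℤ) (a0 : ℤ) (a : List (ℤ × ℤ × ℕ)) (s0 : ℤ) (x T y s : ℝ) :
    (R2 cn (phE a0 a s0)).val [x, T, y, s] = M2 (cn / 10000) T x ⟨y, tm2 y s⟩ - ph a0 a s0 x T +
      2 / 10 * dh2 ⟨x, -(16 / 100 * τ8 x)⟩ ⟨y, tm2 y s⟩ (16 / 29) := by
  show (G2E cn).val [x, T, y, s] - (phE a0 a s0).val [x, T, y, s] + mu.val [x, T, y, s] *
    (D.dh2 (.var 0) (.neg sE) (.var 2) tmE mR).val [x, T, y, s] = _
  rw [G2E_val, ph_val, mu_val, D.dh2_val, mR_val, tmE_val]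
  have e1 : (E.neg sE).val [x, T, y, s] = -(16 / 100 * τ8 x) := by
    show -(sE.val [x, T, y, s]) = _
    rw [sE_val]
  rw [e1]
  rfl

theorem R1_val (cn : ℤ) (a0 : ℤ) (a : List (ℤ × ℤ × ℕ)) (s0 : ℤ) (x T y s : ℝ) :
    (R1 cn (phE a0 a s0)).val [x, T, y, s] = M1 (cn / 10000) T x ⟨y, tk1 y s⟩ + ph a0 a s0 x T +
      2 * Real.pi * (16 / 100 * τ8 x) + 2 / 10 * (2 * Real.pi * (16 / 29)) +
      2 / 10 * dh1 ⟨x, 16 / 100 * τ8 x⟩ ⟨y, tk1 y s⟩ (-(16 / 29)) := by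
  show ((G1E cn).val [x, T, y, s] + (phE a0 a s0).val [x, T, y, s] + (penE.val [x, T, y, s] +
    Real.pi * (((2 : ℤ) : ℝ) / ((1 : ℕ) : ℝ) * (mu.val [x, T, y, s] * mR.val [x, T, y, s])))) +
    mu.val [x, T, y, s] * (D.dh1 (.var 0) sE (.var 2) tkE (.neg mR)).val [x, T, y, s] = _
  rw [G1E_val, ph_val, mu_val, D.dh1_val, mR_val, tkE_val, penE_val, sE_val]
  have e1 : (E.neg mR).val [x, T, y, s] = -(16 / 29) := by
    show -(mR.val [x, T, y, s]) = _
    rw [mR_val]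
  rw [e1]
  have e2 : (E.var 0).val [x, T, y, s] = x := rfl
  have e3 : (E.var 2).val [x, T, y, s] = y := rfl
  rw [e2, e3]
  push_cast
  ring

theorem G2s_val (cn : ℤ) (x T y s : ℝ) : (G2s cn).val [x, T, y, s] =
    M2 (cn / 10000) T x ⟨1 - x, 16 / 100 * τ8 x⟩ := by
  unfold G2s
  rw [d2E_val, tg_val, sE_val, c_val]
  have e1 : (E.neg sE).val [x, T, y, s] = -(16 / 100 * τ8 x) := by
    show -(sE.val [x, T, y, s]) = _
    rw [sE_val]
  have e2 : (E.sub (.q 1 1) (.var 0)).val [x, T, y, s] = 1 - x := by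
    show ((1 : ℤ) : ℝ) / ((1 : ℕ) : ℝ) - x = _
    norm_num
  rw [e1, e2]
  rfl

theorem G1s_val (cn : ℤ) (x T y s : ℝ) : (G1s cn).val [x, T, y, s] =
    M1 (cn / 10000) T x ⟨1 - x, -(16 / 100 * τ8 x)⟩ := by
  unfold G1s
  rw [d1E_val, sE_val, c_val]
  have e1 : (E.neg (.mul (.var 1) (tauE (E.c cn)))).val [x, T, y, s] = -(T * τ8 (cn / 10000)) := by
    show -((E.mul (.var 1) (tauE (E.c cn))).val [x, T, y, s]) = _
    rw [tg_val]
  have e2 : (E.sub (.q 1 1) (.var 0)).val [x, T, y, s] = 1 - x := by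
    show ((1 : ℤ) : ℝ) / ((1 : ℕ) : ℝ) - x = _
    norm_num
  have e3 : (E.neg sE).val [x, T, y, s] = -(16 / 100 * τ8 x) := by
    show -(sE.val [x, T, y, s]) = _
    rw [sE_val]
  rw [e1, e2, e3]
  rfl

end MKN

end Pool.Agent.Work.MP_b30479_gt.G2
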