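import Pool.Agent.Work.MP_b30479_gt.G2.WMMD

/-!
# The first order condition at kinks

`SubD f d x`: `d` is the derivative at `x` of a function below `f` which touches `f` at `x`.  At a
maximum the first order condition holds for all choices of such derivatives (`Md.foc_sub`); hence a
mode where the value of a digit `1` or `2` has a kink (the sum of its hinges is real and between `1`
and `2`) is no maximum (`kink_one`, `kink_two`).
-/

namespace Pool.Agent.Work.MP_b30479_gt.G2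

open Finset VOL Filter Topology

/-- `d` is the derivative at `x` of a function below `f` which touches `f` at `x` -/
def SubD (f : ℝ → ℝ) (d x : ℝ) : Prop :=
  ∃ g : ℝ → ℝ, HasDerivAt g d x ∧ g x = f x ∧ ∀ᶠ y in 𝓝 x, g y ≤ f y

theorem SubD.of_der {f : ℝ → ℝ} {d x : ℝ} (h : HasDerivAt f d x) : SubD f d x :=
  ⟨f, h, rfl, Eventually.of_forall fun _ => le_rfl⟩

theorem SubD.add {f g : ℝ → ℝ} {d e x : ℝ} (hf : SubD f d x) (hg : HasDerivAt g e x) :
    SubD (fun y => f y + g y) (d + e) x := by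
  obtain ⟨k, h1, h2, h3⟩ := hf
  refine ⟨fun y => k y + g y, h1.add hg, ?_, ?_⟩
  · simp only [h2]
  · filter_upwards [h3] with y hy
    linarith

/-- the kink of `UU` between `1` and `2` -/
theorem subD_UU {g : ℝ → ℂ} {m x : ℝ} (hg : HasDerivAt g (1 + m * Complex.I) x)
    (h0 : (g x).im = 0) (h1 : g x - 1 ∈ strip) {σ : ℝ} (hσ : |σ| ≤ 1) :
    SubD (fun t => UU (g t)) (dU (g x - 1) m + σ * (Real.pi * m)) x := by
  have a1 := hasDerivAt_dU (hg.sub_const 1) (Or.inr h1)
  have a2 := ((hasDerivAt_im' hg).const_mul Real.pi).const_mul σ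
  have key : ∀ w : ℂ, UU w = UU (w - 1) + Real.pi * |w.im| := by
    intro w
    have h2 := UU_add_one (w - 1)
    rw [sub_add_cancel] at h2
    rw [h2]
    simp
  refine ⟨fun t => UU (g t - 1) + σ * (Real.pi * (g t).im), ?_, ?_, ?_⟩
  · refine (a1.add a2).congr_deriv ?_
    simp
  · show UU (g x - 1) + σ * (Real.pi * (g x).im) = UU (g x)
    rw [key (g x), h0]
    simp
  · refine Eventually.of_forall fun t => ?_
    show UU (g t - 1) + σ * (Real.pi * (g t).im) ≤ UU (g t)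
    rw [key (g t)]
    have h3 : σ * (Real.pi * (g t).im) ≤ |σ * (Real.pi * (g t).im)| := le_abs_self _
    rw [abs_mul, abs_mul, abs_of_pos Real.pi_pos] at h3
    have h4 : |σ| * (Real.pi * |(g t).im|) ≤ 1 * (Real.pi * |(g t).im|) :=
      mul_le_mul_of_nonneg_right hσ (by positivity)
    linarith

namespace SR

variable {M : ℕ} {b : Fin (M + 1) → ℤ} {zs : DD (tyW b) ⊕ ZZ (tyW b) → ℂ}
variable {R : Finset (DD (tyW b))} {nb : Finset (DD (tyW b) ⊕ ZZ (tyW b))}
variable {z : DD (tyW b) ⊕ ZZ (tyW b) → ℂ} {p : DD (tyW b) → ℝ}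
variable {h h' : Fin M} {i j j' : Fin (M + 1)} {s : Fin 3} {x c : ℝ}

/-- **The first order condition** for functions below the values. -/
theorem Md.foc_sub (hb : ClassW b) (hR : ∀ i ∈ R, Sum.inl i ∈ nb) (hM : MM b zs R nb z p)
    (D : Md b zs nb z p h i s j x) {di dj dt : ℝ}
    (ki : SubD (fun y => OV b i (Function.update (Ow b z i) s
      ⟨y, -mhs b h s * trh b h y⟩)) di x)
    (kj : SubD (fun y => OV b j (Function.update (Ow b z j) s.rev
      ⟨y, mhs b h s * trh b h y⟩)) dj x) (kt : HasDerivAt (trh b h) dt x) :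
    di + dj - 2 * Real.pi * (mhs b h s * dt) = 0 := by
  obtain ⟨f, f1, f2, f3⟩ := ki
  obtain ⟨g, g1, g2, g3⟩ := kj
  have hmax : IsLocalMax (fun y => f y + g y - 2 * Real.pi * (mhs b h s * trh b h y)) x := by
    filter_upwards [Ioo_mem_nhds D.x0 D.x1, f3, g3] with y hy h1 h2
    have h3 := D.mstep hb hR hM hy.1.le hy.2.le
    simp only [neg_mul] at h1 f2
    rw [f2, g2]
    linarith
  exact hmax.hasDerivAt_eq_zero ((f1.add g1).sub ((kt.const_mul (mhs b h s)).const_mul
    (2 * Real.pi)))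

/-- the kink of a digit `1` -/
theorem kink_one (hb : ClassW b) (A : Adj h i s j) (hc : clsW b i = .one) {τ : ℝ → ℝ} {a dt : ℝ}
    (kt : HasDerivAt τ dt x) (e0 : Ow b z i s = ⟨x, a * τ x⟩) (h1 : DOk (Ow b z i s))
    (h2 : (Ow b z i s + Ow b z i s.rev).im = 0) (h3 : Ow b z i s + Ow b z i s.rev - 1 ∈ strip) :
    ∃ C : ℝ, ∀ σ : ℝ, |σ| ≤ 1 → SubD (fun y => OV b i (Function.update (Ow b z i) s
      ⟨y, a * τ y⟩)) (C + σ * (Real.pi * (a * dt))) x := by
  have hg := hasDerivAt_curve (a := a) kt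
  set k := Ow b z i s.rev with hk
  have a1 := hasDerivAt_dU hg (by rw [← e0]; exact h1)
  have a3 := (hasDerivAt_im' (((hg.mul_const k).sub hg).sub_const k)).const_mul Real.pi
  obtain ⟨C, a4⟩ : ∃ C, HasDerivAt (fun y : ℝ => Real.pi * ((⟨y, a * τ y⟩ : ℂ) * k -
      ⟨y, a * τ y⟩ - k).im - UU ⟨y, a * τ y⟩ - UU k) C x := ⟨_, (a3.sub a1).sub_const (UU k)⟩
  refine ⟨dU (Ow b z i s + k - 1) (a * dt) + C, fun σ hσ => ?_⟩
  · have a2 := subD_UU (hg.add_const k) (by rw [← e0]; exact h2) (by rw [← e0]; exact h3) hσ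
    have a5 := a2.add a4
    rw [← e0] at a5
    obtain ⟨g, g1, g2, g3⟩ := a5
    have hf : ∀ y : ℝ, OV b i (Function.update (Ow b z i) s ⟨y, a * τ y⟩) =
        UU ((⟨y, a * τ y⟩ : ℂ) + k) + (Real.pi * ((⟨y, a * τ y⟩ : ℂ) * k - ⟨y, a * τ y⟩ - k).im -
          UU ⟨y, a * τ y⟩ - UU k) := by
      intro y
      have e1 : OV b i (Function.update (Ow b z i) s ⟨y, a * τ y⟩) =
          V1 (⟨y, a * τ y⟩ : ℂ) (Ow b z i s.rev) := by
        rw [OV_one hb hc]
        cases A
        · rw [Function.update_self, Function.update_of_ne (by decide), V1_comm]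
          rfl
        · rw [Function.update_self, Function.update_of_ne (by decide)]
          rfl
      rw [e1, ← hk]
      unfold V1
      ring
    refine ⟨g, ?_, ?_, ?_⟩
    · refine g1.congr_deriv ?_
      ring
    · rw [g2]
      exact (hf x).symm
    · filter_upwards [g3] with y hy
      rw [hf]
      exact hy

/-- the kink of a digit `2` -/
theorem kink_two (hb : ClassW b) (A : Adj h i s j) (hc : clsW b i = .two ∨ clsW b i = .twoE)
    {τ : ℝ → ℝ} {a dt : ℝ}
    (kt : HasDerivAt τ dt x) (e0 : Ow b z i s = ⟨x, a * τ x⟩) (h1 : DOk (Ow b z i s))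
    (h2 : (Ow b z i s + Ow b z i s.rev).im = 0) (h3 : Ow b z i s + Ow b z i s.rev - 1 ∈ strip) :
    ∃ C : ℝ, ∀ σ : ℝ, |σ| ≤ 1 → SubD (fun y => OV b i (Function.update (Ow b z i) s
      ⟨y, a * τ y⟩)) (C + σ * (Real.pi * (a * dt))) x := by
  have hg := hasDerivAt_curve (a := a) kt
  set k := Ow b z i s.rev with hk
  have a1 := hasDerivAt_dU hg (by rw [← e0]; exact h1)
  have a6 : HasDerivAt (fun t : ℝ => ((⟨t, a * τ t⟩ : ℂ) - k) ^ 2 + ⟨t, a * τ t⟩ + k)
      (2 * ((⟨x, a * τ x⟩ : ℂ) - k) * (1 + (a * dt : ℝ) * Complex.I) +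
        (1 + (a * dt : ℝ) * Complex.I)) x := by
    have := (((hg.sub_const k).fun_pow 2).add hg).add_const k
    refine this.congr_deriv ?_
    norm_num
  have a3 := ((hasDerivAt_im' a6).const_mul (Real.pi / 2)).neg
  obtain ⟨C, a4⟩ : ∃ C, HasDerivAt (fun y : ℝ => -(Real.pi / 2 * (((⟨y, a * τ y⟩ : ℂ) - k) ^ 2 +
      (⟨y, a * τ y⟩ : ℂ) + k).im) - 2 * UU (⟨y, a * τ y⟩ : ℂ) - 2 * UU k) C x :=
    ⟨_, (a3.sub (a1.const_mul 2)).sub_const (2 * UU k)⟩
  refine ⟨dU (Ow b z i s + k - 1) (a * dt) + C, fun σ hσ => ?_⟩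
  · have a2 := subD_UU (hg.add_const k) (by rw [← e0]; exact h2) (by rw [← e0]; exact h3) hσ
    have a5 := a2.add a4
    rw [← e0] at a5
    obtain ⟨g, g1, g2, g3⟩ := a5
    have hf : ∀ y : ℝ, OV b i (Function.update (Ow b z i) s ⟨y, a * τ y⟩) =
        UU ((⟨y, a * τ y⟩ : ℂ) + k) + (-(Real.pi / 2 * (((⟨y, a * τ y⟩ : ℂ) - k) ^ 2 +
          (⟨y, a * τ y⟩ : ℂ) + k).im) - 2 * UU (⟨y, a * τ y⟩ : ℂ) - 2 * UU k) := by
      intro y
      have e1 : OV b i (Function.update (Ow b z i) s ⟨y, a * τ y⟩) =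
          V2 (⟨y, a * τ y⟩ : ℂ) (Ow b z i s.rev) := by
        rw [OV_two hb hc (endOk_upd A (Ow_endOk z i) _)]
        cases A
        · rw [Function.update_self, Function.update_of_ne (by decide), V2_comm]
          rfl
        · rw [Function.update_self, Function.update_of_ne (by decide)]
          rfl
      rw [e1, ← hk]
      unfold V2
      ring
    refine ⟨g, ?_, ?_, ?_⟩
    · refine g1.congr_deriv ?_
      ring
    · rw [g2]
      exact (hf x).symm
    · filter_upwards [g3] with y hy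
      rw [hf]
      exact hy

end SR

end Pool.Agent.Work.MP_b30479_gt.G2
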