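import Pool.Agent.Work.MP_b30479_gt.G2.MKO
import Pool.Agent.Work.MP_b30479_gt.G2.MKP
import Pool.Agent.Work.MP_b30479_gt.G2.MKQ
import Pool.Agent.Work.MP_b30479_gt.G2.MKR
import Pool.Agent.Work.MP_b30479_gt.G2.WMGa

/-!
# Modes `2 | 1`: the inequalities
-/

namespace Pool.Agent.Work.MP_b30479_gt.G2

open Finset VOL Filter Topology

namespace MKN

open NumG

/-- a bound -/
noncomputable def φA (x T : ℝ) : ℝ := ph (75) [(0, -63, 10), (20, 19, 10), (50, -1, 50), (100, -3, 100), (160, 19, 5)] 1250 x T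
/-- a bound -/
noncomputable def φB (x T : ℝ) : ℝ := ph (-600) [(200, -63, 200)] 1930 x T
/-- a bound -/
noncomputable def φC (x T : ℝ) : ℝ := ph (-591) [(400, -4, 55), (510, 103, 55)] 2120 x T
/-- a bound -/
noncomputable def φR (x T : ℝ) : ℝ := ph (-870) [(530, 7, 5), (600, 7, 30), (660, 41, 210), (730, 3, 5)] 2200 x T
/-- a bound -/
noncomputable def φp (x T : ℝ) : ℝ := ph (-480) [(530, 83, 54)] 2330 x T
/-- a bound -/
noncomputable def φq (x T : ℝ) : ℝ := ph (-410) [(530, 9, 7), (600, -1, 28), (640, -21, 20), (740, -23, 15)] 0 x T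

/-- the other hinge of the digit `2` -/
def MP (X : ℂ) : Prop := 0 ≤ X.re ∧ X.re ≤ 8 / 10 ∧ ∃ s : ℝ, 0 ≤ s ∧ s ≤ 1 ∧ X.im = tm2 X.re s
/-- the other hinge of the digit `1` -/
def KP (X : ℂ) : Prop := 0 ≤ X.re ∧ X.re ≤ 86 / 100 ∧ ∃ θ : ℝ, -1 ≤ θ ∧ θ ≤ 1 ∧ X.im = tk1 X.re θ

variable {x T : ℝ} {X : ℂ}

theorem MP.eq {X : ℂ} {s : ℝ} (h : X.im = tm2 X.re s) : (⟨X.re, tm2 X.re s⟩ : ℂ) = X := by
  rw [← h]
theorem KP.eq {X : ℂ} {s : ℝ} (h : X.im = tk1 X.re s) : (⟨X.re, tk1 X.re s⟩ : ℂ) = X := by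
  rw [← h]

theorem gA2 (x0 : 0 / 1000 ≤ x) (x1 : x ≤ 200 / 1000) (T0 : 0 ≤ T) (T1 : T ≤ 18 / 1000)
    (hX : MP X) : φA x T < M2 (1000 / 10000) T x X := by
  obtain ⟨y0, y1, s, s0, s1, ht⟩ := hX
  have h := KE.chk1 a2 (by norm_num) (x := x) (y := T) (z := X.re) (w := s)
    (by constructor <;> push_cast <;> linarith only [x0, x1]) (by constructor <;> push_cast <;> linarith only [T0, T1])
    (by constructor <;> push_cast <;> linarith only [y0, y1]) (by constructor <;> push_cast <;> linarith only [s0, s1])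
  rw [show ∀ a b : E, ∀ l, (E.sub a b).val l = a.val l - b.val l from fun _ _ _ => rfl, G2E_val,
    ph_val, MP.eq ht] at h
  push_cast at h
  unfold φA
  linarith only [h]

theorem gA1 (x0 : 0 / 1000 ≤ x) (x1 : x ≤ 200 / 1000) (T0 : 0 ≤ T) (T1 : T ≤ 18 / 1000)
    (hX : KP X) : 0 < M1 (1000 / 10000) T x X + φA x T + 2 * Real.pi * (16 / 100 * τ8 x) := by
  obtain ⟨y0, y1, θ, θ0, θ1, ht⟩ := hX
  have h := KE.chk1 a1 (by norm_num) (x := x) (y := T) (z := X.re) (w := θ)
    (by constructor <;> push_cast <;> linarith only [x0, x1]) (by constructor <;> push_cast <;> linarith only [T0, T1])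
    (by constructor <;> push_cast <;> linarith only [y0, y1]) (by constructor <;> push_cast <;> linarith only [θ0, θ1])
  rw [show ∀ a b c : E, ∀ l, (E.add (E.add a b) c).val l = a.val l + b.val l + c.val l from
    fun _ _ _ _ => rfl, G1E_val, ph_val, penE_val, KP.eq ht] at h
  push_cast at h
  unfold φA
  linarith only [h]

theorem gB2 (x0 : 200 / 1000 ≤ x) (x1 : x ≤ 400 / 1000) (T0 : 0 ≤ T) (T1 : T ≤ 18 / 1000)
    (hX : MP X) : φB x T < M2 (1500 / 10000) T x X := by
  obtain ⟨y0, y1, s, s0, s1, ht⟩ := hX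
  have h := KE.chk1 b2 (by norm_num) (x := x) (y := T) (z := X.re) (w := s)
    (by constructor <;> push_cast <;> linarith only [x0, x1]) (by constructor <;> push_cast <;> linarith only [T0, T1])
    (by constructor <;> push_cast <;> linarith only [y0, y1]) (by constructor <;> push_cast <;> linarith only [s0, s1])
  rw [show ∀ a b : E, ∀ l, (E.sub a b).val l = a.val l - b.val l from fun _ _ _ => rfl, G2E_val,
    ph_val, MP.eq ht] at h
  push_cast at h
  unfold φB
  linarith only [h]

theorem gB1 (x0 : 200 / 1000 ≤ x) (x1 : x ≤ 400 / 1000) (T0 : 0 ≤ T) (T1 : T ≤ 18 / 1000)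
    (hX : KP X) : 0 < M1 (1500 / 10000) T x X + φB x T + 2 * Real.pi * (16 / 100 * τ8 x) := by
  obtain ⟨y0, y1, θ, θ0, θ1, ht⟩ := hX
  have h := KE.chk1 b1 (by norm_num) (x := x) (y := T) (z := X.re) (w := θ)
    (by constructor <;> push_cast <;> linarith only [x0, x1]) (by constructor <;> push_cast <;> linarith only [T0, T1])
    (by constructor <;> push_cast <;> linarith only [y0, y1]) (by constructor <;> push_cast <;> linarith only [θ0, θ1])
  rw [show ∀ a b c : E, ∀ l, (E.add (E.add a b) c).val l = a.val l + b.val l + c.val l from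
    fun _ _ _ _ => rfl, G1E_val, ph_val, penE_val, KP.eq ht] at h
  push_cast at h
  unfold φB
  linarith only [h]

theorem gC2 (x0 : 400 / 1000 ≤ x) (x1 : x ≤ 530 / 1000) (T0 : 0 ≤ T) (T1 : T ≤ 18 / 1000)
    (hX : MP X) : φC x T < M2 (2000 / 10000) T x X := by
  obtain ⟨y0, y1, s, s0, s1, ht⟩ := hX
  have h := KE.chk1 c2 (by norm_num) (x := x) (y := T) (z := X.re) (w := s)
    (by constructor <;> push_cast <;> linarith only [x0, x1]) (by constructor <;> push_cast <;> linarith only [T0, T1])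
    (by constructor <;> push_cast <;> linarith only [y0, y1]) (by constructor <;> push_cast <;> linarith only [s0, s1])
  rw [show ∀ a b : E, ∀ l, (E.sub a b).val l = a.val l - b.val l from fun _ _ _ => rfl, G2E_val,
    ph_val, MP.eq ht] at h
  push_cast at h
  unfold φC
  linarith only [h]

theorem gC1 (x0 : 400 / 1000 ≤ x) (x1 : x ≤ 530 / 1000) (T0 : 0 ≤ T) (T1 : T ≤ 18 / 1000)
    (hX : KP X) : 0 < M1 (2000 / 10000) T x X + φC x T + 2 * Real.pi * (16 / 100 * τ8 x) := by
  obtain ⟨y0, y1, θ, θ0, θ1, ht⟩ := hX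
  have h := KE.chk1 c1 (by norm_num) (x := x) (y := T) (z := X.re) (w := θ)
    (by constructor <;> push_cast <;> linarith only [x0, x1]) (by constructor <;> push_cast <;> linarith only [T0, T1])
    (by constructor <;> push_cast <;> linarith only [y0, y1]) (by constructor <;> push_cast <;> linarith only [θ0, θ1])
  rw [show ∀ a b c : E, ∀ l, (E.add (E.add a b) c).val l = a.val l + b.val l + c.val l from
    fun _ _ _ _ => rfl, G1E_val, ph_val, penE_val, KP.eq ht] at h
  push_cast at h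
  unfold φC
  linarith only [h]

theorem gP2 (x0 : 530 / 1000 ≤ x) (x1 : x ≤ 800 / 1000) (T0 : 0 ≤ T) (T1 : T ≤ 18 / 1000)
    (hX : MP X) : φp x T < M2 (3000 / 10000) T x X := by
  obtain ⟨y0, y1, s, s0, s1, ht⟩ := hX
  have h := KE.chk1 p2 (by norm_num) (x := x) (y := T) (z := X.re) (w := s)
    (by constructor <;> push_cast <;> linarith only [x0, x1]) (by constructor <;> push_cast <;> linarith only [T0, T1])
    (by constructor <;> push_cast <;> linarith only [y0, y1]) (by constructor <;> push_cast <;> linarith only [s0, s1])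
  rw [show ∀ a b : E, ∀ l, (E.sub a b).val l = a.val l - b.val l from fun _ _ _ => rfl, G2E_val,
    ph_val, MP.eq ht] at h
  push_cast at h
  unfold φp
  linarith only [h]

theorem gQ1 (x0 : 530 / 1000 ≤ x) (x1 : x ≤ 800 / 1000) (T0 : 0 ≤ T) (T1 : T ≤ 18 / 1000)
    (hX : KP X) : φq x T < M1 (3000 / 10000) T x X := by
  obtain ⟨y0, y1, θ, θ0, θ1, ht⟩ := hX
  have h := KE.chk1 q1 (by norm_num) (x := x) (y := T) (z := X.re) (w := θ)
    (by constructor <;> push_cast <;> linarith only [x0, x1]) (by constructor <;> push_cast <;> linarith only [T0, T1])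
    (by constructor <;> push_cast <;> linarith only [y0, y1]) (by constructor <;> push_cast <;> linarith only [θ0, θ1])
  rw [show ∀ a b : E, ∀ l, (E.sub a b).val l = a.val l - b.val l from fun _ _ _ => rfl, G1E_val,
    ph_val, KP.eq ht] at h
  push_cast at h
  unfold φq
  linarith only [h]

theorem gR2 (x0 : 530 / 1000 ≤ x) (x1 : x ≤ 800 / 1000) (T0 : 0 ≤ T) (T1 : T ≤ 18 / 1000)
    (hX : MP X) : 0 < M2 (3000 / 10000) T x X + φq x T + 2 * Real.pi * (16 / 100 * τ8 x) ∨
      0 < M2 (2000 / 10000) T x X - φR x T + 2 / 10 * dh2 ⟨x, -(16 / 100 * τ8 x)⟩ X (16 / 29) := by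
  obtain ⟨y0, y1, s, s0, s1, ht⟩ := hX
  obtain ⟨e, he, h⟩ := chkD4 r2 (by norm_num) (x := x) (y := T) (z := X.re) (w := s)
    (by push_cast; linarith only [x0]) (by push_cast; linarith only [x1]) (by push_cast; linarith only [T0])
    (by push_cast; linarith only [T1]) (by push_cast; linarith only [y0]) (by push_cast; linarith only [y1])
    (by push_cast; linarith only [s0]) (by push_cast; linarith only [s1])
  simp only [List.mem_cons, List.not_mem_nil, or_false] at he
  rcases he with rfl | rfl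
  · left
    rw [show ∀ a b c : E, ∀ l, (D.of (E.add (E.add a b) c)).val l = a.val l + b.val l + c.val l from
      fun _ _ _ _ => rfl, G2E_val, ph_val, penE_val, MP.eq ht] at h
    push_cast at h
    unfold φq
    linarith only [h]
  · right
    rw [R2_val, MP.eq ht] at h
    push_cast at h
    unfold φR
    linarith only [h]

theorem gR1 (x0 : 530 / 1000 ≤ x) (x1 : x ≤ 800 / 1000) (T0 : 0 ≤ T) (T1 : T ≤ 18 / 1000)
    (hX : KP X) : 0 < M1 (3000 / 10000) T x X + φp x T + 2 * Real.pi * (16 / 100 * τ8 x) ∨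
      0 < M1 (2000 / 10000) T x X + φR x T + 2 * Real.pi * (16 / 100 * τ8 x) +
        2 / 10 * (2 * Real.pi * (16 / 29)) +
        2 / 10 * dh1 ⟨x, 16 / 100 * τ8 x⟩ X (-(16 / 29)) := by
  obtain ⟨y0, y1, θ, θ0, θ1, ht⟩ := hX
  obtain ⟨e, he, h⟩ := chkD4 r1 (by norm_num) (x := x) (y := T) (z := X.re) (w := θ)
    (by push_cast; linarith only [x0]) (by push_cast; linarith only [x1]) (by push_cast; linarith only [T0])
    (by push_cast; linarith only [T1]) (by push_cast; linarith only [y0]) (by push_cast; linarith only [y1])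
    (by push_cast; linarith only [θ0]) (by push_cast; linarith only [θ1])
  simp only [List.mem_cons, List.not_mem_nil, or_false] at he
  rcases he with rfl | rfl
  · left
    rw [show ∀ a b c : E, ∀ l, (D.of (E.add (E.add a b) c)).val l = a.val l + b.val l + c.val l from
      fun _ _ _ _ => rfl, G1E_val, ph_val, penE_val, KP.eq ht] at h
    push_cast at h
    unfold φp
    linarith only [h]
  · right
    rw [R1_val, KP.eq ht] at h
    push_cast at h
    unfold φR
    linarith only [h]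

theorem gS2 (x0 : 530 / 1000 ≤ x) (x1 : x ≤ 800 / 1000) (T0 : 0 ≤ T) (T1 : T ≤ 18 / 1000) :
    0 < M2 (3000 / 10000) T x ⟨1 - x, 16 / 100 * τ8 x⟩ + φq x T +
      2 * Real.pi * (16 / 100 * τ8 x) := by
  have h := KE.chk1 s2 (by norm_num) (x := x) (y := T) (z := 0) (w := 0)
    (by constructor <;> push_cast <;> linarith only [x0, x1]) (by constructor <;> push_cast <;> linarith only [T0, T1])
    (by constructor <;> norm_num) (by constructor <;> norm_num)
  rw [show ∀ a b c : E, ∀ l, (E.add (E.add a b) c).val l = a.val l + b.val l + c.val l from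
    fun _ _ _ _ => rfl, G2s_val, ph_val, penE_val] at h
  push_cast at h
  unfold φq
  linarith only [h]

theorem gS1 (x0 : 530 / 1000 ≤ x) (x1 : x ≤ 800 / 1000) (T0 : 0 ≤ T) (T1 : T ≤ 18 / 1000) :
    0 < M1 (3000 / 10000) T x ⟨1 - x, -(16 / 100 * τ8 x)⟩ + φp x T +
      2 * Real.pi * (16 / 100 * τ8 x) := by
  have h := KE.chk1 s1 (by norm_num) (x := x) (y := T) (z := 0) (w := 0)
    (by constructor <;> push_cast <;> linarith only [x0, x1]) (by constructor <;> push_cast <;> linarith only [T0, T1])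
    (by constructor <;> norm_num) (by constructor <;> norm_num)
  rw [show ∀ a b c : E, ∀ l, (E.add (E.add a b) c).val l = a.val l + b.val l + c.val l from
    fun _ _ _ _ => rfl, G1s_val, ph_val, penE_val] at h
  push_cast at h
  unfold φp
  linarith only [h]

/-- **The contradiction.** -/
theorem no21 {K : ℂ} (x0 : 0 ≤ x) (x1 : x ≤ 800 / 1000) (T0 : 0 ≤ T) (T1 : T ≤ 18 / 1000)
    (hM : MP X) (hK : KP K)
    (key : ∀ c, 0 ≤ c → c ≤ 8 / 10 → M2 c T x X + M1 c T x K +
      2 * Real.pi * (16 / 100 * τ8 x) ≤ 0)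
    (foc : 530 / 1000 ≤ x → X = ⟨1 - x, 16 / 100 * τ8 x⟩ ∨ K = ⟨1 - x, -(16 / 100 * τ8 x)⟩ ∨
      dh2 ⟨x, -(16 / 100 * τ8 x)⟩ X (16 / 29) + dh1 ⟨x, 16 / 100 * τ8 x⟩ K (-(16 / 29)) +
        2 * Real.pi * (16 / 29) = 0) : False := by
  rcases le_total x (200 / 1000) with h0 | h0
  · have a1 := gA2 (by linarith only [x0]) h0 T0 T1 hM
    have a2 := gA1 (by linarith only [x0]) h0 T0 T1 hK
    have := key (1000 / 10000) (by norm_num) (by norm_num)
    linarith only [a1, a2, this]
  rcases le_total x (400 / 1000) with h1 | h1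
  · have a1 := gB2 h0 h1 T0 T1 hM
    have a2 := gB1 h0 h1 T0 T1 hK
    have := key (1500 / 10000) (by norm_num) (by norm_num)
    linarith only [a1, a2, this]
  rcases le_total x (530 / 1000) with h2 | h2
  · have a1 := gC2 h1 h2 T0 T1 hM
    have a2 := gC1 h1 h2 T0 T1 hK
    have := key (2000 / 10000) (by norm_num) (by norm_num)
    linarith only [a1, a2, this]
  have k2 := key (2000 / 10000) (by norm_num) (by norm_num)
  have k3 := key (3000 / 10000) (by norm_num) (by norm_num)
  have p2 := gP2 h2 x1 T0 T1 hM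
  have q1 := gQ1 h2 x1 T0 T1 hK
  rcases foc h2 with rfl | rfl | hf
  · have := gS2 h2 x1 T0 T1
    linarith only [q1, k3, this]
  · have := gS1 h2 x1 T0 T1
    linarith only [p2, k3, this]
  · rcases gR2 h2 x1 T0 T1 hM with h3 | h3
    · linarith only [k3, q1, h3]
    · rcases gR1 h2 x1 T0 T1 hK with h4 | h4
      · linarith only [k3, p2, h4]
      · linarith only [k2, hf, h3, h4]

end MKN

end Pool.Agent.Work.MP_b30479_gt.G2
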