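import Pool.Agent.Work.MP_b30479_gt.G2.WMGa

/-!
# Mirrored paths: rows of the kinds of hinges with an end `3`, definitions
-/

namespace Pool.Agent.Work.MP_b30479_gt.G2

open Finset VOL Filter Topology

namespace KE

open NumG

/-! ### parameters of neighbours -/

theorem par_mem {a b k : ℝ} (h1 : -a ≤ k) (h2 : k ≤ b) :
    ∃ s : ℝ, 0 ≤ s ∧ s ≤ 1 ∧ k = s * b - (1 - s) * a := by
  by_cases h : a + b = 0
  · exact ⟨0, le_rfl, zero_le_one, by linarith only [h1, h2, h]⟩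
  · have hp : 0 < a + b := lt_of_le_of_ne (by linarith only [h1, h2]) (Ne.symm h)
    refine ⟨(k + a) / (a + b), div_nonneg (by linarith only [h1]) hp.le, (div_le_one hp).2 (by linarith only [h2]), ?_⟩
    field_simp
    ring

theorem par_abs {a k : ℝ} (h1 : |k| ≤ a) : ∃ θ : ℝ, -1 ≤ θ ∧ θ ≤ 1 ∧ k = θ * a := by
  rw [abs_le] at h1
  obtain ⟨s, s0, s1, e⟩ := par_mem (a := a) (b := a) h1.1 h1.2
  exact ⟨2 * s - 1, by linarith only [s0], by linarith only [s1], by rw [e]; ring⟩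

/-- a linear bound by a ramp function -/
theorem le_tr {H XM cl cr y k : ℝ} (hl : 0 < cl) (hr : 0 < cr) (h1 : k ≤ H)
    (h2 : cl * k ≤ H * y) (h3 : cr * k ≤ H * (XM - y)) (h4 : 0 < H) : k ≤ H * tr 0 XM cl cr y := by
  unfold tr
  refine le_trans ?_ (mul_le_mul_of_nonneg_left (le_max_right _ _) h4.le)
  have e1 : k ≤ H * ((y - 0) / cl) := by
    rw [sub_zero, mul_div_assoc', le_div_iff₀ hl]
    linarith only [h2]
  have e2 : k ≤ H * ((XM - y) / cr) := by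
    rw [mul_div_assoc', le_div_iff₀ hr]
    linarith only [h3]
  rw [mul_min_of_nonneg _ _ h4.le, mul_min_of_nonneg _ _ h4.le]
  exact le_min (by linarith only [h1]) (le_min e1 e2)

/-- the other hinge of a digit `2` -/
theorem d2_par {y β : ℝ} (h : KR.D2.In y β) : ∃ s : ℝ, 0 ≤ s ∧ s ≤ 1 ∧
    β = s * (16 / 100 * tr 0 (8 / 10) (1 / 10) (29 / 100) y) -
      (1 - s) * (3 / 10 * tr 0 (8 / 10) (12 / 100) (47 / 100) y) := by
  obtain ⟨h1, h2, h3, h4, h5, h6⟩ := h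
  simp only [KR.D2] at h1 h2 h3 h4 h5 h6
  push_cast at h1 h2 h3 h4 h5 h6
  have e1 : β ≤ 16 / 100 * tr 0 (8 / 10) (1 / 10) (29 / 100) y :=
    le_tr (by norm_num) (by norm_num) (by linarith only [h6]) (by linarith only [h1]) (by linarith only [h2]) (by norm_num)
  have e2 : -β ≤ 3 / 10 * tr 0 (8 / 10) (12 / 100) (47 / 100) y :=
    le_tr (by norm_num) (by norm_num) (by linarith only [h5]) (by linarith only [h3]) (by linarith only [h4]) (by norm_num)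
  exact par_mem (by linarith only [e2]) e1

/-- the inner variable of a digit `3` -/
theorem dl_par {y β : ℝ} (h : KR.DL.In y β) : ∃ θ : ℝ, -1 ≤ θ ∧ θ ≤ 1 ∧
    β = θ * (16 / 100 * tr 0 (8 / 10) (5 / 100) (5 / 100) y) := by
  obtain ⟨h1, h2, h3, h4, h5, h6⟩ := h
  simp only [KR.DL] at h1 h2 h3 h4 h5 h6
  push_cast at h1 h2 h3 h4 h5 h6
  have e1 : β ≤ 16 / 100 * tr 0 (8 / 10) (5 / 100) (5 / 100) y :=
    le_tr (by norm_num) (by norm_num) (by linarith only [h6]) (by linarith only [h1]) (by linarith only [h2]) (by norm_num)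
  have e2 : -β ≤ 16 / 100 * tr 0 (8 / 10) (5 / 100) (5 / 100) y :=
    le_tr (by norm_num) (by norm_num) (by linarith only [h5]) (by linarith only [h3]) (by linarith only [h4]) (by norm_num)
  exact par_abs (abs_le.2 ⟨by linarith only [e2], e1⟩)

/-! ### expressions -/

theorem v0 (x y z w : ℝ) : NumI.lkR [x, y, z, w] 0 = x := rfl
theorem v1 (x y z w : ℝ) : NumI.lkR [x, y, z, w] 1 = y := rfl
theorem v2 (x y z w : ℝ) : NumI.lkR [x, y, z, w] 2 = z := rfl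
theorem v3 (x y z w : ℝ) : NumI.lkR [x, y, z, w] 3 = w := rfl

theorem nP_val {n0 n1 : ℤ} {x y z w : ℝ} : (nP n0 n1).val [x, y, z, w] =
    V3 ⟨15 / 100, x⟩ ⟨3 / 10, y⟩ 0 - ((n0 : ℝ) / 10000 + (n1 : ℝ) / 10000 * x) := by
  simp only [nP, aff, E.val, E.V3e_val, E.c, v0, v1]
  push_cast
  norm_num

theorem nN_val {n0 n1 : ℤ} {x y z w : ℝ} : (nN n0 n1).val [x, y, z, w] =
    V3 ⟨15 / 100, -x⟩ ⟨3 / 10, y⟩ 0 - ((n0 : ℝ) / 10000 + (n1 : ℝ) / 10000 * x) := by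
  simp only [nN, aff, E.val, E.V3e_val, E.c, v0, v1]
  push_cast
  norm_num

theorem kk_val {x y z w : ℝ} : kk.val [x, y, z, w] =
    z * (16 / 100 * tr 0 (8 / 10) (1 / 10) (29 / 100) y) -
      (1 - z) * (3 / 10 * tr 0 (8 / 10) (12 / 100) (47 / 100) y) := by
  simp only [kk, E.val, E.c]
  rw [E.tr_val (by norm_num) (by norm_num) (by norm_num),
    E.tr_val (by norm_num) (by norm_num) (by norm_num)]
  simp only [E.val, v0, v1, v2]
  norm_num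

theorem ll_val {x y z w : ℝ} : ll.val [x, y, z, w] =
    z * (16 / 100 * tr 0 (8 / 10) (5 / 100) (5 / 100) y) := by
  simp only [ll, E.val, E.c]
  rw [E.tr_val (by norm_num) (by norm_num) (by norm_num)]
  simp only [E.val, v1, v2]
  norm_num

theorem P2_val {cl : ℕ} (h0 : 0 < cl) (h1 : cl ≤ 300) {x y z w : ℝ} : (P2 cl).val [x, y, z, w] =
    2 * Real.pi * (16 / 100 * tr 0 (6 / 10) ((cl : ℝ) / 1000) (3 / 10) x) := by
  simp only [P2, E.val]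
  rw [hh_val h0 h1]
  push_cast
  ring

theorem fD_val {n0 n1 y0 : ℤ} {l : List (ℤ × ℤ × ℕ)} {cl : ℕ} (h0 : 0 < cl) (h1 : cl ≤ 300) {k : E}
    {x y z w : ℝ} : (fD n0 n1 y0 l cl k).val [x, y, z, w] =
    V2 ⟨15 / 100, w⟩ ⟨y, k.val [x, y, z, w]⟩ -
      V2 ⟨x, -(16 / 100 * tr 0 (6 / 10) ((cl : ℝ) / 1000) (3 / 10) x)⟩ ⟨y, k.val [x, y, z, w]⟩ +
      ((n0 : ℝ) / 10000 + (n1 : ℝ) / 10000 * w) +
      2 * Real.pi * (16 / 100 * tr 0 (6 / 10) ((cl : ℝ) / 1000) (3 / 10) x) - plR x y0 l := by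
  simp only [fD, aff, E.val, E.dV2_val, E.pl_val, E.c, v0, v1, v3, P2_val h0 h1, hh_val h0 h1]
  push_cast
  rw [show (1500 : ℝ) / 10000 = 15 / 100 by norm_num]

theorem fU_val {n0 n1 y0 : ℤ} {l : List (ℤ × ℤ × ℕ)} {cl : ℕ} (h0 : 0 < cl) (h1 : cl ≤ 300) {k : E}
    {x y z w : ℝ} : (fU n0 n1 y0 l cl k).val [x, y, z, w] =
    V2 ⟨15 / 100, -w⟩ ⟨y, k.val [x, y, z, w]⟩ -
      V2 ⟨x, 16 / 100 * tr 0 (6 / 10) ((cl : ℝ) / 1000) (3 / 10) x⟩ ⟨y, k.val [x, y, z, w]⟩ +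
      ((n0 : ℝ) / 10000 + (n1 : ℝ) / 10000 * w) +
      2 * Real.pi * (16 / 100 * tr 0 (6 / 10) ((cl : ℝ) / 1000) (3 / 10) x) - plR x y0 l := by
  simp only [fU, aff, E.val, E.dV2_val, E.pl_val, E.c, v0, v1, v3, P2_val h0 h1, hh_val h0 h1]
  push_cast
  rw [show (1500 : ℝ) / 10000 = 15 / 100 by norm_num]

theorem fE_val {n0 n1 y0 : ℤ} {l : List (ℤ × ℤ × ℕ)} {x y z w : ℝ} :
    (fE n0 n1 y0 l).val [x, y, z, w] =
    V2 ⟨15 / 100, y⟩ 0 - V2 ⟨x, -(16 / 100 * tr 0 (6 / 10) (1 / 10) (3 / 10) x)⟩ 0 +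
      ((n0 : ℝ) / 10000 + (n1 : ℝ) / 10000 * y) +
      2 * Real.pi * (16 / 100 * tr 0 (6 / 10) (1 / 10) (3 / 10) x) - plR x y0 l := by
  simp only [fE, aff, E.val, E.V2e_val, E.pl_val, E.c, v0, v1, P2_val (show 0 < 100 by norm_num)
    (by norm_num), hh_val (show 0 < 100 by norm_num) (by norm_num)]
  push_cast
  rw [show (1500 : ℝ) / 10000 = 15 / 100 by norm_num, show (100 : ℝ) / 1000 = 1 / 10 by norm_num]

theorem fEE_val {x y z w : ℝ} : fEE.val [x, y, z, w] =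
    V2 ⟨15 / 100, y⟩ 0 - V2 ⟨x, -(16 / 100 * tr 0 (6 / 10) (1 / 10) (3 / 10) x)⟩ 0 +
      (V2 ⟨15 / 100, -y⟩ 0 - V2 ⟨x, 16 / 100 * tr 0 (6 / 10) (1 / 10) (3 / 10) x⟩ 0) +
      2 * Real.pi * (16 / 100 * tr 0 (6 / 10) (1 / 10) (3 / 10) x) := by
  simp only [fEE, E.val, E.V2e_val, E.c, v0, v1, P2_val (show 0 < 100 by norm_num)
    (by norm_num), hh_val (show 0 < 100 by norm_num) (by norm_num)]
  push_cast
  rw [show (1500 : ℝ) / 10000 = 15 / 100 by norm_num, show (100 : ℝ) / 1000 = 1 / 10 by norm_num]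

theorem fTT_val {n y0 y0' : ℤ} {l l' : List (ℤ × ℤ × ℕ)} {x y z w : ℝ} :
    (fTT n y0 l y0' l').val [x, y, z, w] =
    (n : ℝ) / 10000 + 2 * Real.pi * (16 / 100 * tr 0 (6 / 10) (1 / 10) (3 / 10) x) -
      (plR x y0 l + plR x y0' l') := by
  simp only [fTT, E.val, E.pl_val, E.c, v0, P2_val (show 0 < 100 by norm_num) (by norm_num)]
  push_cast
  rw [show (100 : ℝ) / 1000 = 1 / 10 by norm_num]

end KE

end Pool.Agent.Work.MP_b30479_gt.G2
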