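import Pool.Agent.Work.MP_b30479_gt.G2.MKT
import Pool.Agent.Work.MP_b30479_gt.G2.WMGb
import Pool.Agent.Work.MP_b30479_gt.G2.MKA
import Pool.Agent.Work.MP_b30479_gt.G2.MKS
import Pool.Agent.Work.MP_b30479_gt.G2.WLocA
import Pool.Agent.Work.MP_b30479_gt.G2.WRnd

/-!
# Modes `2 | 1`
-/

namespace Pool.Agent.Work.MP_b30479_gt.G2

open Finset VOL Filter Topology SR NumG

variable {M : ℕ} {b : Fin (M + 1) → ℤ} {zs : DD (tyW b) ⊕ ZZ (tyW b) → ℂ}
variable {R : Finset (DD (tyW b))} {nb : Finset (DD (tyW b) ⊕ ZZ (tyW b))}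
variable {z : DD (tyW b) ⊕ ZZ (tyW b) → ℂ} {p : DD (tyW b) → ℝ}
variable {h h' : Fin M} {i j j' : Fin (M + 1)} {s : Fin 3} {x c : ℝ}

namespace MKN

/-- parameters of a hinge between a digit `2` and a digit `1` -/
theorem par_two_one (A : Adj h i s j) (hi : clsW b i = .two) (hj : clsW b j = .one) :
    wXM b h = 8 / 10 ∧ wcr b h = 29 / 100 ∧ (∀ x, trh b h x = τ8 x) ∧
      ∀ q, mhs b h q = 16 / 100 := by
  have h1 : wXM b h = 800 / 1000 ∧ wcl b h = 160 / 1000 ∧ wcr b h = 290 / 1000 := by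
    rw [A.XM_eq b, A.cl_eq b, A.cr_eq b]
    unfold hpp
    rw [hi, hj]
    simp only [hp, hp1]
    split_ifs <;> norm_num
  refine ⟨by rw [h1.1]; norm_num, by rw [h1.2.2]; norm_num, fun x => ?_, fun q => ?_⟩
  · unfold trh τ8
    rw [h1.1, h1.2.1, h1.2.2]
    norm_num
  · unfold mhs
    cases A with
    | l => rw [hi, hj]; simp
    | r => rw [hi, hj]; simp

/-- the positions of the sum of two hinges -/
theorem sum_cases {u X : ℂ} (h0 : 0 < u.re) (h1 : 0 ≤ X.re) (h2 : u.re + X.re < 2) :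
    DOk (u + X) ∨ X = ⟨1 - u.re, -u.im⟩ ∨ ((u + X).im = 0 ∧ u + X - 1 ∈ strip) := by
  by_cases hi : (u + X).im = 0
  · rcases lt_trichotomy (u.re + X.re) 1 with h3 | h3 | h3
    · left; right
      exact ⟨by rw [Complex.add_re]; linarith only [h0, h1], by rw [Complex.add_re]; exact h3⟩
    · right; left
      rw [Complex.add_im] at hi
      apply Complex.ext
      · show X.re = 1 - u.re
        linarith only [h3]
      · show X.im = -u.im
        linarith only [hi]
    · right; right
      refine ⟨hi, ?_, ?_⟩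
      · rw [Complex.sub_re, Complex.add_re, Complex.one_re]; linarith only [h3]
      · rw [Complex.sub_re, Complex.add_re, Complex.one_re]; linarith only [h2]
  · left; left
    exact hi

end MKN

/-- **Modes `2 | 1`.** -/
theorem kd_two_one (hb : ClassW b) (L : LocA b zs) (s : Fin 3) : Kd b zs .two .one s := by
  intro R nb z p h i j x hN hM hq D hi hj
  obtain ⟨hXM, hcr, ht, hm⟩ := MKN.par_two_one D.adj hi hj
  have B := D.adj.symm
  obtain ⟨h2, j2, A2⟩ := D.adj.other' b (clsW_inner hb (Or.inr (Or.inl hi)))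
  obtain ⟨h1, j1, A1⟩ := B.other' b (clsW_inner hb (Or.inl hj))
  have P1 := hM.npos hb hN hq B D.nn A1
  have P2 := (hM.npos hb hN hq D.adj D.nn A2).d2 hb L.L A2 hi
  have hT1 := (Th_mem hb L.L D.adj (by rw [hi]; decide)).2
  rw [hi, hj] at hT1
  simp only [hbox] at hT1
  have hT0 := D.T0
  have hx0 := D.x0
  have hx1 := D.x1
  rw [hXM] at hx1
  have hown : Ow b z i s = ⟨x, -(16 / 100 * MKN.τ8 x)⟩ := by rw [D.own, hm, ht]
  have hopp : Ow b z j s.rev = ⟨x, 16 / 100 * MKN.τ8 x⟩ := by rw [D.opp, hm, ht]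
  have htg : ∀ c, tgo b zs h i c = ⟨c, Th b zs h i * MKN.τ8 c⟩ := fun c => by
    unfold tgo; rw [ht]
  have htg' : ∀ c, tgo b zs h j c = ⟨c, -(Th b zs h i * MKN.τ8 c)⟩ := fun c => by
    unfold tgo; rw [ht, D.Tj, neg_mul]
  have hMP : MKN.MP (Ow b z i s.rev) := by
    obtain ⟨m0, m1, m2⟩ := P2
    obtain ⟨t, t0, t1, e⟩ := KE.d2_par m2
    exact ⟨m0, m1, t, t0, t1, e⟩
  have hKP : MKN.KP (Ow b z j s.rev.rev) := by
    rcases MKA.one_pos hb L.L A1 hj P1 with h3 | ⟨h3, -, -⟩
    · exact h3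
    · exfalso
      obtain ⟨hw, -, -, -⟩ := L.X.win B A1 hj
      have hw' : (cw (clsW b j1) (clsW b i)).t0 ≤ Th b zs h j := hw
      rw [h3, hi, D.Tj] at hw'
      simp only [cw] at hw'
      linarith only [hT0, hx0, hx1, hw']
  refine MKN.no21 (X := Ow b z i s.rev) (K := Ow b z j s.rev.rev) hx0.le (by linarith only [hx1]) hT0
    (by linarith only [hT1]) hMP hKP ?_ ?_
  · intro c c0 c1
    have k1 := keep_two (zs := zs) (nb := nb) (z := z) (p := p) (c := c) hb D.adj (Or.inl hi)
    have k2 := keep_one (zs := zs) (nb := nb) (z := z) (p := p) (c := c) hb B hj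
    have := D.star hb hN.ok.1 hM c0 (by rw [hXM]; exact c1) k1 k2
    rw [hown, hopp, hm, ht, htg, htg'] at this
    exact this
  · intro hx
    have hkt := (trh_right (b := b) (h := h) (x := x) (by rw [hXM, hcr]; linarith only [hx0, hx]) D.x1).2
    have e1 : -mhs b h s * -(1 / wcr b h) = 16 / 29 := by
      rw [hm, hcr]; norm_num
    have e2 : mhs b h s * -(1 / wcr b h) = -(16 / 29) := by
      rw [hm, hcr]; norm_num
    have r1 : (Ow b z i s).re = x := by rw [hown]
    have r2 : (Ow b z j s.rev).re = x := by rw [hopp]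
    have r3 := hMP.1
    have r4 := hMP.2.1
    have r5 := hKP.1
    have r6 := hKP.2.1
    rcases MKN.sum_cases (u := Ow b z i s) (X := Ow b z i s.rev) (by rw [r1]; exact hx0) r3
      (by rw [r1]; linarith only [P2, hx0, hx1]) with m1 | m1 | m1
    · have ki := der_two hb D.adj (Or.inl hi) (a := -mhs b h s) hkt D.own' D.ok_own m1
      rcases MKN.sum_cases (u := Ow b z j s.rev) (X := Ow b z j s.rev.rev)
        (by rw [r2]; exact hx0) r5 (by rw [r2]; linarith only [hx0, hx1, r6]) with n1 | n1 | n1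
      · right; right
        have kj := der_one hb B hj (a := mhs b h s) hkt (by rw [D.opp]) D.ok_opp n1
        have hf := D.foc hb hN.ok.1 hM ki kj hkt
        rw [e1, e2, hown, hopp] at hf
        linarith only [hf]
      · right; left
        rw [n1, hopp]
      · exfalso
        obtain ⟨C, hC⟩ := kink_one hb B hj (a := mhs b h s) hkt (by rw [D.opp]) D.ok_opp n1.1 n1.2
        have f1 := D.foc_sub hb hN.ok.1 hM (SubD.of_der ki) (hC 1 (by norm_num)) hkt
        have f2 := D.foc_sub hb hN.ok.1 hM (SubD.of_der ki) (hC (-1) (by norm_num)) hkt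
        rw [e2] at f1 f2
        have := Real.pi_pos
        linarith only [f1, f2, this]
    · left
      rw [m1, hown, neg_neg]
    · obtain ⟨C, hC⟩ := kink_two hb D.adj (Or.inl hi) (a := -mhs b h s) hkt D.own' D.ok_own
        m1.1 m1.2
      rcases MKN.sum_cases (u := Ow b z j s.rev) (X := Ow b z j s.rev.rev)
        (by rw [r2]; exact hx0) r5 (by rw [r2]; linarith only [hx0, hx1, r6]) with n1 | n1 | n1
      · exfalso
        have kj := der_one hb B hj (a := mhs b h s) hkt (by rw [D.opp]) D.ok_opp n1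
        have f1 := D.foc_sub hb hN.ok.1 hM (hC 1 (by norm_num)) (SubD.of_der kj) hkt
        have f2 := D.foc_sub hb hN.ok.1 hM (hC (-1) (by norm_num)) (SubD.of_der kj) hkt
        rw [e1] at f1 f2
        have := Real.pi_pos
        linarith only [f1, f2, this]
      · right; left
        rw [n1, hopp]
      · exfalso
        obtain ⟨C', hC'⟩ := kink_one hb B hj (a := mhs b h s) hkt (by rw [D.opp]) D.ok_opp
          n1.1 n1.2
        have f1 := D.foc_sub hb hN.ok.1 hM (hC 1 (by norm_num)) (hC' 0 (by norm_num)) hkt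
        have f2 := D.foc_sub hb hN.ok.1 hM (hC (-1) (by norm_num)) (hC' 0 (by norm_num)) hkt
        rw [e1] at f1 f2
        have := Real.pi_pos
        linarith only [f1, f2, this]

end Pool.Agent.Work.MP_b30479_gt.G2
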