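import Pool.Agent.Work.MP_b30479_gt.AX.DefsB
import Pool.Agent.Work.MP_b30479_gt.DT.LrDer

/-!
# END 3, location of the inner variable: the function and its elementary bounds
-/

namespace Pool.Agent.Work.MP_b30479_gt.G2

open Finset Filter Topology

namespace L3

/-! ### the function `lam x = - ∫_0^x log (2 sin π v) dv` -/

/-- minus the Lobachevsky type integral -/
noncomputable def lam (x : ℝ) : ℝ := -DT.Lr 0 x

theorem lam_zero : lam 0 = 0 := by
  unfold lam
  rw [DT.Lr_zero_right, neg_zero]

theorem lam_half : lam (1 / 2) = 0 := by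
  unfold lam
  rw [DT.Lr_half le_rfl]
  simp

theorem continuous_lam : Continuous lam := by
  unfold lam DT.Lr
  exact (intervalIntegral.continuous_primitive (fun a b => DT.el_intble 0 a b) 0).neg

theorem sin_pi_pos {x : ℝ} (h0 : 0 < x) (h1 : x < 1) : 0 < Real.sin (Real.pi * x) :=
  Real.sin_pos_of_pos_of_lt_pi (mul_pos Real.pi_pos h0)
    (by have := mul_lt_mul_of_pos_left h1 Real.pi_pos; linarith only [this])

theorem hasDerivAt_lam {x : ℝ} (h0 : 0 < x) (h1 : x < 1) :
    HasDerivAt lam (-Real.log (2 * Real.sin (Real.pi * x))) x := by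
  have h := (DT.hasDerivAt_Lr_zero (sin_pi_pos h0 h1).ne').neg
  refine h.congr_deriv ?_
  rw [DT.el_zero]
  unfold Lob.ff
  rfl

/-- `lam` is concave on `[0, 1/2]` -/
theorem lam_concave : ConcaveOn ℝ (Set.Icc 0 (1 / 2)) lam := by
  apply AntitoneOn.concaveOn_of_deriv (convex_Icc _ _) continuous_lam.continuousOn
  · intro x hx
    rw [interior_Icc] at hx
    exact (hasDerivAt_lam hx.1 (by linarith only [hx, hx.2])).differentiableAt.differentiableWithinAt
  · intro x hx y hy hxy
    rw [interior_Icc] at hx hy
    rw [(hasDerivAt_lam hx.1 (by linarith only [hx, hx.2])).deriv,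
      (hasDerivAt_lam hy.1 (by linarith only [hy, hy.2])).deriv]
    have hpi := Real.pi_pos
    have h1 := sin_pi_pos hx.1 (by linarith only [hx, hx.2])
    apply neg_le_neg
    apply Real.log_le_log (by linarith only [h1])
    have : Real.sin (Real.pi * x) ≤ Real.sin (Real.pi * y) :=
      Real.sin_le_sin_of_le_of_le_pi_div_two (by nlinarith only [hpi, hx, hx.1]) (by nlinarith only [hpi, hy, hy.2])
        (mul_le_mul_of_nonneg_left hxy hpi.le)
    linarith only [this]

/-- chord bound -/
theorem lam_chord {p q x A B : ℝ} (hp : 0 ≤ p) (hpq : p < q) (hq : q ≤ 1 / 2) (h1 : p ≤ x) (h2 : x ≤ q)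
    (hA : A ≤ lam p) (hB : B ≤ lam q) : A + (B - A) * ((x - p) / (q - p)) ≤ lam x := by
  have hd : 0 < q - p := by linarith only [hpq]
  have a0 : 0 ≤ (q - x) / (q - p) := div_nonneg (by linarith only [h2]) hd.le
  have b0 : 0 ≤ (x - p) / (q - p) := div_nonneg (by linarith only [h1]) hd.le
  have ab : (q - x) / (q - p) + (x - p) / (q - p) = 1 := by
    field_simp
    ring
  have key := lam_concave.2 (x := p) (y := q) ⟨hp, by linarith only [hpq, hq]⟩ ⟨by linarith only [hp, hpq], hq⟩ a0 b0 ab
  have e : ((q - x) / (q - p)) • p + ((x - p) / (q - p)) • q = x := by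
    simp only [smul_eq_mul]
    field_simp
    ring
  rw [e] at key
  simp only [smul_eq_mul] at key
  have e2 : (q - x) / (q - p) = 1 - (x - p) / (q - p) := by linarith only [ab]
  rw [e2] at key a0
  nlinarith only [key, hA, a0, hB, b0, mul_le_mul_of_nonneg_left hA a0, mul_le_mul_of_nonneg_left hB b0]

theorem sin_log_bound {y : ℝ} (h0 : 0 < y) (h1 : y ≤ Real.pi / 2) :
    Real.log (Real.sin y) ≤ Real.log y - y ^ 2 / 6 := by
  have hpi := Real.pi_pos
  -- `G = sin y (1 - y²/3) - y cos y ≥ 0`
  have tanp : ∀ y ∈ Set.Icc 0 (Real.pi / 2), 0 ≤ Real.sin y - y * Real.cos y := by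
    intro y hy
    rcases eq_or_lt_of_le hy.1 with h | h
    · rw [← h]
      simp
    · rcases eq_or_lt_of_le hy.2 with h2 | h2
      · rw [h2]
        simp
      · have h3 := (Real.lt_tan h h2).le
        have hc : 0 < Real.cos y := Real.cos_pos_of_mem_Ioo ⟨by linarith only [h, h2], h2⟩
        rw [Real.tan_eq_sin_div_cos, le_div_iff₀ hc] at h3
        linarith only [h3]
  have hG : MonotoneOn (fun y => Real.sin y * (1 - y ^ 2 / 3) - y * Real.cos y)
      (Set.Icc 0 (Real.pi / 2)) := by
    apply monotoneOn_of_deriv_nonneg (convex_Icc _ _)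
    · fun_prop
    · fun_prop
    · intro x hx
      rw [interior_Icc] at hx
      have hd : HasDerivAt (fun y => Real.sin y * (1 - y ^ 2 / 3) - y * Real.cos y)
          (x / 3 * (Real.sin x - x * Real.cos x)) x := by
        have h1 := (Real.hasDerivAt_sin x).mul
          (((hasDerivAt_pow 2 x).div_const 3).const_sub 1)
        have h2 := (hasDerivAt_id x).mul (Real.hasDerivAt_cos x)
        refine (h1.sub h2).congr_deriv ?_
        simp
        ring
      rw [hd.deriv]
      exact mul_nonneg (by linarith only [hx, hx.1]) (tanp x ⟨hx.1.le, hx.2.le⟩)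
  have hF : AntitoneOn (fun y => Real.log (Real.sin y) - Real.log y + y ^ 2 / 6)
      (Set.Ioc 0 (Real.pi / 2)) := by
    apply antitoneOn_of_deriv_nonpos (convex_Ioc _ _)
    · intro x hx
      have hs : 0 < Real.sin x := Real.sin_pos_of_pos_of_lt_pi hx.1 (by linarith only [h0, h1, hx, hx.2])
      have hx1 := hx.1
      apply ContinuousAt.continuousWithinAt
      have c1 : ContinuousAt (fun y => Real.log (Real.sin y)) x :=
        (Real.continuous_sin.continuousAt).log hs.ne'
      have c2 : ContinuousAt (fun y : ℝ => Real.log y) x := Real.continuousAt_log hx1.ne'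
      exact (c1.sub c2).add (by fun_prop)
    · intro x hx
      rw [interior_Ioc] at hx
      have hs : 0 < Real.sin x := Real.sin_pos_of_pos_of_lt_pi hx.1 (by linarith only [h0, h1, hx, hx.2])
      exact ((((Real.hasDerivAt_sin x).log hs.ne').sub (Real.hasDerivAt_log hx.1.ne')).add
        ((hasDerivAt_pow 2 x).div_const 6)).differentiableAt.differentiableWithinAt
    · intro x hx
      rw [interior_Ioc] at hx
      have hs : 0 < Real.sin x := Real.sin_pos_of_pos_of_lt_pi hx.1 (by linarith only [h0, h1, hx, hx.2])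
      have hd := (((Real.hasDerivAt_sin x).log hs.ne').sub (Real.hasDerivAt_log hx.1.ne')).add
        ((hasDerivAt_pow 2 x).div_const 6)
      have hd' : HasDerivAt (fun y => Real.log (Real.sin y) - Real.log y + y ^ 2 / 6) _ x := hd
      rw [hd'.deriv]
      have hg := hG (a := 0) (b := x) ⟨le_rfl, by positivity⟩ ⟨hx.1.le, hx.2.le⟩ hx.1.le
      simp only [Real.sin_zero, zero_mul, sub_zero] at hg
      have hx1 := hx.1
      have e : Real.cos x / Real.sin x - x⁻¹ + (2 : ℕ) * x ^ (2 - 1) / 6 =
          -(Real.sin x * (1 - x ^ 2 / 3) - x * Real.cos x) / (x * Real.sin x) := by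
        field_simp
        push_cast
        ring
      rw [e]
      exact div_nonpos_of_nonpos_of_nonneg (by linarith only [hg]) (by positivity)
  -- the limit at zero
  have hlim : ∀ ε : ℝ, 0 < ε → Real.log (Real.sin y) - Real.log y + y ^ 2 / 6 ≤ ε := by
    intro ε hε
    set z : ℝ := min y (min 1 (ε / 2)) with hz
    have hz0 : 0 < z := lt_min h0 (lt_min one_pos (by linarith only [hε]))
    have hzy : z ≤ y := min_le_left _ _
    have hz1 : z ≤ 1 := (min_le_right _ _).trans (min_le_left _ _)
    have hz2 : z ≤ ε / 2 := (min_le_right _ _).trans (min_le_right _ _)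
    have h3 := hF (a := z) (b := y) ⟨hz0, hzy.trans h1⟩ ⟨h0, h1⟩ hzy
    simp only at h3
    have h4 : Real.log (Real.sin z) ≤ Real.log z :=
      Real.log_le_log (Real.sin_pos_of_pos_of_lt_pi hz0 (by linarith only [h0, h1, hzy, Real.pi_gt_three]))
        (Real.sin_lt hz0).le
    nlinarith only [hz0, hz2, h3, h4, hz1]
  have h5 : Real.log (Real.sin y) - Real.log y + y ^ 2 / 6 ≤ 0 :=
    le_of_forall_pos_le_add fun ε hε => by linarith only [hlim, hε, hlim ε hε]
  linarith only [h5]

/-- lower bound for `lam` -/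
theorem lam_ge {x : ℝ} (h0 : 0 < x) (h1 : x ≤ 1 / 2) :
    x * (1 - Real.log (2 * Real.pi * x)) + Real.pi ^ 2 * x ^ 3 / 18 ≤ lam x := by
  have hpi := Real.pi_pos
  have hm : MonotoneOn (fun x => lam x - (x - (2 * Real.pi * x) * Real.log (2 * Real.pi * x) /
      (2 * Real.pi) + Real.pi ^ 2 * x ^ 3 / 18)) (Set.Icc 0 (1 / 2)) := by
    apply monotoneOn_of_deriv_nonneg (convex_Icc _ _)
    · apply Continuous.continuousOn
      have c1 := continuous_lam
      have c2 : Continuous fun x : ℝ => (2 * Real.pi * x) * Real.log (2 * Real.pi * x) :=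
        Real.continuous_mul_log.comp (continuous_const.mul continuous_id)
      have c3 : Continuous fun x : ℝ => x - (2 * Real.pi * x) * Real.log (2 * Real.pi * x) /
        (2 * Real.pi) + Real.pi ^ 2 * x ^ 3 / 18 :=
        (continuous_id.sub (c2.div_const _)).add (by fun_prop)
      exact c1.sub c3
    all_goals
      intro x hx
      rw [interior_Icc] at hx
      have hx1 := hx.1
      have h2 : 0 < 2 * Real.pi * x := by positivity
      have d1 := hasDerivAt_lam hx.1 (by linarith only [h0, h1, hx, hx.2])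
      have d0 : HasDerivAt (fun x : ℝ => 2 * Real.pi * x) (2 * Real.pi) x := by
        simpa using (hasDerivAt_id x).const_mul (2 * Real.pi)
      have d2 := (d0.mul (d0.log h2.ne')).div_const (2 * Real.pi)
      have d3 := ((hasDerivAt_pow 3 x).const_mul (Real.pi ^ 2)).div_const 18
      have d4 := d1.sub (((hasDerivAt_id x).sub d2).add d3)
      have d5 : HasDerivAt (fun x => lam x - (x - (2 * Real.pi * x) * Real.log (2 * Real.pi * x) /
        (2 * Real.pi) + Real.pi ^ 2 * x ^ 3 / 18)) _ x := d4
    · exact d5.differentiableAt.differentiableWithinAt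
    · rw [d5.deriv]
      have h3 := sin_log_bound (y := Real.pi * x) (by positivity) (by nlinarith only [hpi, hx, hx.2])
      have h4 := sin_pi_pos hx.1 (by linarith only [h0, h1, hx, hx.2])
      rw [Real.log_mul two_ne_zero h4.ne']
      have h5 : Real.log (2 * Real.pi * x) = Real.log 2 + Real.log (Real.pi * x) := by
        rw [mul_assoc, Real.log_mul two_ne_zero (by positivity)]
      have e : (2 * Real.pi * Real.log (2 * Real.pi * x) + 2 * Real.pi * x *
          (2 * Real.pi / (2 * Real.pi * x))) / (2 * Real.pi) = Real.log (2 * Real.pi * x) + 1 := by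
        field_simp
      rw [e, h5]
      norm_num
      nlinarith only [h3]
  have h2 := hm (a := 0) (b := x) ⟨le_rfl, by norm_num⟩ ⟨h0.le, h1⟩ h0.le
  simp only [lam_zero, mul_zero, zero_mul, zero_div, sub_zero, add_zero] at h2
  have e : 2 * Real.pi * x * Real.log (2 * Real.pi * x) / (2 * Real.pi) =
      x * Real.log (2 * Real.pi * x) := by
    field_simp
  rw [e] at h2
  norm_num at h2
  linarith only [h2]

end L3

end Pool.Agent.Work.MP_b30479_gt.G2
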