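import Mathlib

/-!
# A maximum principle with gauges
-/

namespace Pool.Agent.Work.MP_b30479_gt.G2

open Filter Topology Set Function

/-! ### maximisers -/

/-- if a continuous function on a compact set has no maximiser except `xs`, then `xs` is the
strict maximum -/
theorem lt_of_max_eq {X : Type*} [TopologicalSpace X] {K : Set X} (hK : IsCompact K) {f : X → ℝ}
    (hf : ContinuousOn f K) {xs : X} (h : ∀ x ∈ K, IsMaxOn f K x → x = xs) :
    ∀ x ∈ K, x ≠ xs → f x < f xs := by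
  intro x hx hne
  obtain ⟨y, hy, hmax⟩ := hK.exists_isMaxOn ⟨x, hx⟩ hf
  have e := h y hy hmax
  subst e
  have h0 : f x ≤ f y := hmax hx
  rcases lt_or_eq_of_le h0 with h1 | h1
  · exact h1
  · exfalso
    apply hne
    apply h x hx
    intro z hz
    exact (hmax hz).trans h1.ge

/-- one-sided derivatives at one-sided maximisers -/
theorem deriv_right_nonpos {f : ℝ → ℝ} {x d r : ℝ} (hr : x < r) (hm : ∀ s ∈ Ioo x r, f s ≤ f x)
    (hd : HasDerivWithinAt f d (Ici x) x) : d ≤ 0 := by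
  by_contra hcon
  push Not at hcon
  have h1 := (hasDerivWithinAt_iff_tendsto_slope' (lt_irrefl x)).1 hd.Ioi_of_Ici
  have h2 : ∀ᶠ z in 𝓝[>] x, 0 < slope f x z := h1.eventually (lt_mem_nhds hcon)
  have h3 : ∀ᶠ z in 𝓝[>] x, z ∈ Ioo x r := Ioo_mem_nhdsGT hr
  obtain ⟨z, hz1, hz2⟩ := (h2.and h3).exists
  rw [slope_def_field] at hz1
  have := hm z hz2
  have h4 : 0 < z - x := sub_pos.2 hz2.1
  have h5 : (f z - f x) / (z - x) ≤ 0 := div_nonpos_of_nonpos_of_nonneg (by linarith only [this]) h4.le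
  linarith only [hz1, h5]

theorem deriv_left_nonneg {f : ℝ → ℝ} {x d r : ℝ} (hr : r < x) (hm : ∀ s ∈ Ioo r x, f s ≤ f x)
    (hd : HasDerivWithinAt f d (Iic x) x) : 0 ≤ d := by
  by_contra hcon
  push Not at hcon
  have h1 := (hasDerivWithinAt_iff_tendsto_slope' (s := Iio x) (lt_irrefl x)).1 hd.Iio_of_Iic
  have h2 : ∀ᶠ z in 𝓝[<] x, slope f x z < 0 := h1.eventually (gt_mem_nhds hcon)
  have h3 : ∀ᶠ z in 𝓝[<] x, z ∈ Ioo r x := Ioo_mem_nhdsLT hr
  obtain ⟨z, hz1, hz2⟩ := (h2.and h3).exists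
  rw [slope_def_field] at hz1
  have := hm z hz2
  have h4 : z - x < 0 := sub_neg.2 hz2.2
  have h5 : 0 ≤ (f z - f x) / (z - x) := div_nonneg_of_nonpos (by linarith only [this]) h4.le
  linarith only [hz1, h5]

section box
variable {ι : Type*} [DecidableEq ι] {f : (ι → ℝ) → ℝ} {lo hi : ι → ℝ}

theorem update_mem_box {x : ι → ℝ} (hx : x ∈ Icc lo hi) {i : ι} {s : ℝ} (h1 : lo i ≤ s)
    (h2 : s ≤ hi i) : update x i s ∈ Icc lo hi := by
  constructor
  · intro j
    by_cases hj : j = i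
    · subst hj; simpa using h1
    · rw [update_of_ne hj]; exact hx.1 j
  · intro j
    by_cases hj : j = i
    · subst hj; simpa using h2
    · rw [update_of_ne hj]; exact hx.2 j

/-- at a maximiser, right derivatives are `≤ 0` -/
theorem max_right {x : ι → ℝ} (hx : x ∈ Icc lo hi) (hm : IsMaxOn f (Icc lo hi) x) {i : ι}
    (h : x i < hi i) {d : ℝ}
    (hd : HasDerivWithinAt (fun s => f (update x i s)) d (Ici (x i)) (x i)) : d ≤ 0 := by
  refine deriv_right_nonpos h (fun s hs => ?_) hd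
  simp only [update_eq_self]
  exact hm (update_mem_box hx ((hx.1 i).trans hs.1.le) hs.2.le)

/-- at a maximiser, left derivatives are `≥ 0` -/
theorem max_left {x : ι → ℝ} (hx : x ∈ Icc lo hi) (hm : IsMaxOn f (Icc lo hi) x) {i : ι}
    (h : lo i < x i) {d : ℝ}
    (hd : HasDerivWithinAt (fun s => f (update x i s)) d (Iic (x i)) (x i)) : 0 ≤ d := by
  refine deriv_left_nonneg h (fun s hs => ?_) hd
  simp only [update_eq_self]
  exact hm (update_mem_box hx hs.1.le (hs.2.le.trans (hx.2 i)))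

/-- at a maximiser in the interior, derivatives are `0` -/
theorem max_deriv {x : ι → ℝ} (hx : x ∈ Icc lo hi) (hm : IsMaxOn f (Icc lo hi) x) {i : ι}
    (h1 : lo i < x i) (h2 : x i < hi i) {d : ℝ}
    (hd : HasDerivAt (fun s => f (update x i s)) d (x i)) : d = 0 :=
  le_antisymm (max_right hx hm h2 hd.hasDerivWithinAt) (max_left hx hm h1 hd.hasDerivWithinAt)

/-- maximisers can be moved away from the lower boundary (in the coordinates of `B`) -/
theorem exists_max_pos [Finite ι] (B : Set ι) {xs : ι → ℝ} (hxs : ∀ i, lo i < xs i)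
    (hlh : ∀ i, xs i ≤ hi i)
    (hbd : ∀ y ∈ Icc lo hi, IsMaxOn f (Icc lo hi) y → ∀ i ∈ B, y i = lo i →
      ∀ᶠ s in 𝓝[>] (lo i), f y ≤ f (update y i s))
    (x : ι → ℝ) (hx : x ∈ Icc lo hi) (hm : IsMaxOn f (Icc lo hi) x) (hne : x ≠ xs) :
    ∃ y ∈ Icc lo hi, IsMaxOn f (Icc lo hi) y ∧ y ≠ xs ∧ ∀ i ∈ B, lo i < y i := by
  have hfin : ∀ y : ι → ℝ, {i | y i = lo i}.Finite := fun y => Set.toFinite _
  obtain ⟨N, hN⟩ : ∃ N, N = {i | x i = lo i}.ncard := ⟨_, rfl⟩
  induction N using Nat.strong_induction_on generalizing x with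
  | _ N ih =>
    by_cases h : ∀ i ∈ B, lo i < x i
    · exact ⟨x, hx, hm, hne, h⟩
    · push Not at h
      obtain ⟨i, hiB, hi'⟩ := h
      have hi : x i = lo i := le_antisymm hi' (hx.1 i)
      have h1 := hbd x hx hm i hiB hi
      have h2 : ∀ᶠ s in 𝓝[>] (lo i), s ∈ Ioo (lo i) (xs i) := Ioo_mem_nhdsGT (hxs i)
      obtain ⟨s, hs1, hs2⟩ := (h1.and h2).exists
      have hmem := update_mem_box hx (i := i) hs2.1.le (hs2.2.le.trans (hlh i))
      refine ih {j | update x i s j = lo j}.ncard ?_ (update x i s) hmem ?_ ?_ rfl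
      · rw [hN]
        apply Set.ncard_lt_ncard _ (hfin x)
        refine ⟨fun j hj => ?_, fun hsub => ?_⟩
        · by_cases hji : j = i
          · subst hji; exact hi
          · simp only [mem_ofPred_eq] at hj ⊢
            rwa [update_of_ne hji] at hj
        · have := hsub (a := i) hi
          simp only [mem_ofPred_eq, update_self] at this
          exact hs2.1.ne' this
      · intro z hz
        exact (hm hz).trans hs1
      · intro he
        have := congrFun he i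
        rw [update_self] at this
        exact hs2.2.ne this

omit [DecidableEq ι] in
/-- an index with maximal displacement -/
theorem exists_max_gauge [Finite ι] (J : Set ι) {xs : ι → ℝ} {g : ι → ℝ → ℝ} {x : ι → ℝ}
    {C : ι → Set ℝ} (hg : ∀ i ∈ J, StrictMonoOn (g i) (C i)) (hx : ∀ i ∈ J, x i ∈ C i)
    (hxs : ∀ i ∈ J, xs i ∈ C i) (hne : ∃ i ∈ J, x i ≠ xs i) :
    ∃ i ∈ J, x i ≠ xs i ∧ ∀ j ∈ J, |g j (x j) - g j (xs j)| ≤ |g i (x i) - g i (xs i)| := by
  obtain ⟨k, hk, hkne⟩ := hne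
  obtain ⟨i, hiJ, hi⟩ := Set.exists_max_image J (fun j => |g j (x j) - g j (xs j)|)
    (Set.toFinite J) ⟨k, hk⟩
  refine ⟨i, hiJ, fun he => hkne ?_, hi⟩
  have h1 := hi k hk
  rw [he, sub_self, abs_zero] at h1
  have h2 : g k (x k) = g k (xs k) := sub_eq_zero.1 (abs_eq_zero.1 (le_antisymm h1 (abs_nonneg _)))
  exact (hg k hk).injOn (hx k hk) (hxs k hk) h2

/-- **Maximum principle.**  `J` is the set of the indices which are compared, `C i` contains the
values of the variable `i` at all maximisers, `B` is the set of the indices for which maximisers are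
moved away from the lower boundary. -/
theorem max_principle [Finite ι] (J B : Set ι) {xs : ι → ℝ} (hf : ContinuousOn f (Icc lo hi))
    (hxs : ∀ i, xs i ∈ Ioc (lo i) (hi i)) {g : ι → ℝ → ℝ} {C : ι → Set ℝ}
    (hg : ∀ i ∈ J, StrictMonoOn (g i) (C i))
    (hC : ∀ y ∈ Icc lo hi, IsMaxOn f (Icc lo hi) y → (∀ i ∈ B, lo i < y i) → ∀ i ∈ J, y i ∈ C i)
    (hCs : ∀ i ∈ J, xs i ∈ C i)
    (hbd : ∀ y ∈ Icc lo hi, IsMaxOn f (Icc lo hi) y → ∀ i ∈ B, y i = lo i →
      ∀ᶠ s in 𝓝[>] (lo i), f y ≤ f (update y i s))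
    (hJ : ∀ y ∈ Icc lo hi, IsMaxOn f (Icc lo hi) y → (∀ i ∈ B, lo i < y i) → (∀ i ∈ J, y i = xs i) →
      y = xs)
    (hL : ∀ y ∈ Icc lo hi, IsMaxOn f (Icc lo hi) y → (∀ i ∈ B, lo i < y i) → ∀ i ∈ J, xs i < y i →
      (∀ j ∈ J, |g j (y j) - g j (xs j)| ≤ g i (y i) - g i (xs i)) →
      ∃ d < 0, HasDerivWithinAt (fun s => f (update y i s)) d (Iic (y i)) (y i))
    (hR : ∀ y ∈ Icc lo hi, IsMaxOn f (Icc lo hi) y → (∀ i ∈ B, lo i < y i) → ∀ i ∈ J, y i < xs i →
      (∀ j ∈ J, |g j (y j) - g j (xs j)| ≤ g i (xs i) - g i (y i)) →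
      ∃ d > 0, HasDerivWithinAt (fun s => f (update y i s)) d (Ici (y i)) (y i)) :
    ∀ x ∈ Icc lo hi, x ≠ xs → f x < f xs := by
  refine lt_of_max_eq isCompact_Icc hf fun x hx hm => ?_
  by_contra hne
  obtain ⟨y, hy, hym, hyne, hpos⟩ := exists_max_pos B (fun i => (hxs i).1) (fun i => (hxs i).2) hbd
    x hx hm hne
  have hy' : ∀ i ∈ J, y i ∈ C i := hC y hy hym hpos
  have hex : ∃ i ∈ J, y i ≠ xs i := by
    by_contra hcon
    push Not at hcon
    exact hyne (hJ y hy hym hpos hcon)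
  obtain ⟨i, hiJ, hi1, hi2⟩ := exists_max_gauge J hg hy' hCs hex
  rcases lt_or_gt_of_ne hi1 with h | h
  · have h1 := hg i hiJ (hy' i hiJ) (hCs i hiJ) h
    rw [abs_sub_comm (g i (y i)), abs_of_pos (sub_pos.2 h1)] at hi2
    obtain ⟨d, hd, hder⟩ := hR y hy hym hpos i hiJ h hi2
    exact absurd (max_right hy hym (h.trans_le (hxs i).2) hder) (not_le.2 hd)
  · have h1 := hg i hiJ (hCs i hiJ) (hy' i hiJ) h
    rw [abs_of_pos (sub_pos.2 h1)] at hi2
    obtain ⟨d, hd, hder⟩ := hL y hy hym hpos i hiJ h hi2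
    exact absurd (max_left hy hym ((hxs i).1.trans h) hder) (not_le.2 hd)

/-- at an interior maximiser the second derivative is `≤ 0` -/
theorem max_second {x : ι → ℝ} (hx : x ∈ Icc lo hi) (hm : IsMaxOn f (Icc lo hi) x) {i : ι}
    (h1 : lo i < x i) (h2 : x i < hi i) {F' : ℝ → ℝ} {d : ℝ}
    (hd : ∀ᶠ s in 𝓝 (x i), HasDerivAt (fun s => f (update x i s)) (F' s) s)
    (hd2 : HasDerivAt F' d (x i)) : d ≤ 0 := by
  have hF0 : F' (x i) = 0 := max_deriv hx hm h1 h2 hd.self_of_nhds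
  by_contra hcon
  push Not at hcon
  have h3 := (hasDerivWithinAt_iff_tendsto_slope' (s := Ioi (x i)) (by simp)).1
    hd2.hasDerivWithinAt
  have h4 : ∀ᶠ s in 𝓝[>] (x i), 0 < slope F' (x i) s := h3.eventually (lt_mem_nhds hcon)
  have h5 : ∀ᶠ s in 𝓝[>] (x i), HasDerivAt (fun s => f (update x i s)) (F' s) s :=
    hd.filter_mono nhdsWithin_le_nhds
  obtain ⟨r, hr, hr2⟩ := mem_nhdsGT_iff_exists_Ioo_subset.1 (h4.and h5)
  have hr' : x i < min r (hi i) := lt_min hr h2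
  obtain ⟨s, hs1, hs2⟩ := exists_between hr'
  have hmono : StrictMonoOn (fun s => f (update x i s)) (Icc (x i) s) := by
    refine strictMonoOn_of_deriv_pos (convex_Icc _ _) ?_ ?_
    · intro y hy
      rcases eq_or_lt_of_le hy.1 with h | h
      · rw [← h]
        exact hd.self_of_nhds.continuousAt.continuousWithinAt
      · exact (hr2 ⟨h, hy.2.trans_lt (hs2.trans_le (min_le_left _ _))⟩).2.continuousAt.continuousWithinAt
    · rw [interior_Icc]
      intro y hy
      have h6 := hr2 ⟨hy.1, hy.2.trans (hs2.trans_le (min_le_left _ _))⟩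
      rw [h6.2.deriv]
      have h7 : 0 < slope F' (x i) y := h6.1
      rw [slope_def_field, hF0, sub_zero] at h7
      have h8 : 0 < y - x i := sub_pos.2 hy.1
      exact (div_pos_iff_of_pos_right h8).1 h7
  have h9 := hmono (left_mem_Icc.2 hs1.le) (right_mem_Icc.2 hs1.le) hs1
  simp only [update_eq_self] at h9
  have h10 : f (update x i s) ≤ f x :=
    hm (update_mem_box hx ((hx.1 i).trans hs1.le) (hs2.le.trans (min_le_right _ _)))
  linarith only [h9, h10]

end box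

/-! ### the gauge -/

/-- the gauge `log tan (π x / 2)` -/
noncomputable def gh (x : ℝ) : ℝ := Real.log (Real.tan (Real.pi * x / 2))

/-- its inverse -/
noncomputable def ghi (y : ℝ) : ℝ := 2 / Real.pi * Real.arctan (Real.exp y)

theorem ghi_mem (y : ℝ) : ghi y ∈ Ioo (0 : ℝ) 1 := by
  have h1 := Real.pi_pos
  have h2 := Real.arctan_lt_pi_div_two (Real.exp y)
  have h3 : 0 < Real.arctan (Real.exp y) := Real.arctan_pos.2 (Real.exp_pos y)
  unfold ghi
  constructor
  · positivity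
  · calc 2 / Real.pi * Real.arctan (Real.exp y) < 2 / Real.pi * (Real.pi / 2) := by gcongr
      _ = 1 := by field_simp

theorem ghi_gh {x : ℝ} (hx : x ∈ Ioo (0 : ℝ) 1) : ghi (gh x) = x := by
  have h1 := Real.pi_pos
  have h2 : 0 < Real.pi * x / 2 := by have := hx.1; positivity
  have h3 : Real.pi * x / 2 < Real.pi / 2 := by nlinarith only [h1, hx, hx.2]
  unfold ghi gh
  rw [Real.exp_log (Real.tan_pos_of_pos_of_lt_pi_div_two h2 h3), Real.arctan_tan (by linarith only [h2, h3]) h3]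
  field_simp

theorem gh_ghi (y : ℝ) : gh (ghi y) = y := by
  unfold gh ghi
  have h1 := Real.pi_pos
  have : Real.pi * (2 / Real.pi * Real.arctan (Real.exp y)) / 2 = Real.arctan (Real.exp y) := by
    field_simp
  rw [this, Real.tan_arctan, Real.log_exp]

theorem strictMono_ghi : StrictMono ghi := by
  intro a b hab
  unfold ghi
  have h1 := Real.pi_pos
  have := Real.arctan_strictMono (Real.exp_strictMono hab)
  gcongr

theorem gh_lt {x y : ℝ} (hx : x ∈ Ioo (0 : ℝ) 1) (hy : y ∈ Ioo (0 : ℝ) 1) :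
    gh x < gh y ↔ x < y := by
  rw [← strictMono_ghi.lt_iff_lt, ghi_gh hx, ghi_gh hy]

theorem strictMonoOn_gh : StrictMonoOn gh (Ioo 0 1) := fun _ hx _ hy h => (gh_lt hx hy).2 h

theorem hasDerivAt_ghi (y : ℝ) : HasDerivAt ghi (Real.sin (Real.pi * ghi y) / Real.pi) y := by
  have h1 := Real.pi_pos
  have h := ((Real.hasDerivAt_arctan (Real.exp y)).comp y (Real.hasDerivAt_exp y)).const_mul
    (2 / Real.pi)
  refine h.congr_deriv ?_
  have e1 : Real.pi * ghi y = 2 * Real.arctan (Real.exp y) := by unfold ghi; field_simp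
  rw [e1, Real.sin_two_mul, Real.sin_arctan, Real.cos_arctan]
  have h2 : 0 < 1 + Real.exp y ^ 2 := by positivity
  have h3 : √(1 + Real.exp y ^ 2) * √(1 + Real.exp y ^ 2) = 1 + Real.exp y ^ 2 :=
    Real.mul_self_sqrt h2.le
  have h4 : √(1 + Real.exp y ^ 2) ≠ 0 := (Real.sqrt_pos.2 h2).ne'
  field_simp
  rw [sq (√(1 + Real.exp y ^ 2)), h3]

/-- the curve from `a` to `x` -/
noncomputable def gc (a x θ : ℝ) : ℝ := ghi ((1 - θ) * gh a + θ * gh x)

theorem gc_zero {a x : ℝ} (ha : a ∈ Ioo (0 : ℝ) 1) : gc a x 0 = a := by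
  unfold gc
  rw [sub_zero, one_mul, zero_mul, add_zero, ghi_gh ha]

theorem gc_one {a x : ℝ} (hx : x ∈ Ioo (0 : ℝ) 1) : gc a x 1 = x := by
  unfold gc
  rw [sub_self, one_mul, zero_mul, zero_add, ghi_gh hx]

theorem gc_mem (a x θ : ℝ) : gc a x θ ∈ Ioo (0 : ℝ) 1 := ghi_mem _

theorem hasDerivAt_gc (a x θ : ℝ) :
    HasDerivAt (gc a x) ((gh x - gh a) * (Real.sin (Real.pi * gc a x θ) / Real.pi)) θ := by
  have h1 : HasDerivAt (fun θ : ℝ => (1 - θ) * gh a + θ * gh x) (-1 * gh a + 1 * gh x) θ :=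
    (((hasDerivAt_id' θ).const_sub 1).mul_const _).add ((hasDerivAt_id' θ).mul_const _)
  have h2 := (hasDerivAt_ghi ((1 - θ) * gh a + θ * gh x)).comp θ h1
  refine h2.congr_deriv ?_
  unfold gc
  ring

theorem continuous_gc (a x : ℝ) : Continuous (gc a x) :=
  continuous_iff_continuousAt.2 fun θ => (hasDerivAt_gc a x θ).continuousAt

theorem gc_self {a : ℝ} (ha : a ∈ Ioo (0 : ℝ) 1) (θ : ℝ) : gc a a θ = a := by
  unfold gc
  rw [show (1 - θ) * gh a + θ * gh a = gh a by ring, ghi_gh ha]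

/-- between the end points, increasing case -/
theorem gc_mem_Icc {a x θ : ℝ} (ha : a ∈ Ioo (0 : ℝ) 1) (hx : x ∈ Ioo (0 : ℝ) 1) (h : a ≤ x)
    (h0 : 0 ≤ θ) (h1 : θ ≤ 1) : gc a x θ ∈ Icc a x := by
  have h2 : gh a ≤ gh x := strictMonoOn_gh.monotoneOn ha hx h
  constructor
  · calc a = ghi (gh a) := (ghi_gh ha).symm
      _ ≤ _ := strictMono_ghi.monotone (by nlinarith only [h0, h2])
  · calc _ ≤ ghi (gh x) := strictMono_ghi.monotone (by nlinarith only [h1, h2])
      _ = x := ghi_gh hx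

/-- between the end points, decreasing case -/
theorem gc_mem_Icc' {a x θ : ℝ} (ha : a ∈ Ioo (0 : ℝ) 1) (hx : x ∈ Ioo (0 : ℝ) 1) (h : x ≤ a)
    (h0 : 0 ≤ θ) (h1 : θ ≤ 1) : gc a x θ ∈ Icc x a := by
  have h2 : gh x ≤ gh a := strictMonoOn_gh.monotoneOn hx ha h
  constructor
  · calc x = ghi (gh x) := (ghi_gh hx).symm
      _ ≤ _ := strictMono_ghi.monotone (by nlinarith only [h1, h2])
  · calc _ ≤ ghi (gh a) := strictMono_ghi.monotone (by nlinarith only [h0, h2])
      _ = a := ghi_gh ha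

theorem gc_mem_uIcc {a x θ : ℝ} (ha : a ∈ Ioo (0 : ℝ) 1) (hx : x ∈ Ioo (0 : ℝ) 1)
    (h0 : 0 ≤ θ) (h1 : θ ≤ 1) : gc a x θ ∈ uIcc a x := by
  rcases le_total a x with h | h
  · rw [uIcc_of_le h]; exact gc_mem_Icc ha hx h h0 h1
  · rw [uIcc_of_ge h]; exact gc_mem_Icc' ha hx h h0 h1

/-- the gauge displacement along the curve -/
theorem gh_gc (a x θ : ℝ) : gh (gc a x θ) = (1 - θ) * gh a + θ * gh x := gh_ghi _

end Pool.Agent.Work.MP_b30479_gt.G2
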