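import Pool.Agent.Work.MP_b30479_gt.G2.VDer
import Pool.Agent.Work.MP_b30479_gt.G2.CDefs
import Pool.Agent.Work.MP_b30479_gt.LT.Core

/-!
# Derivatives of the growth rate `S.V` along real and complex directions; concavity
-/

namespace Pool.Agent.Work.MP_b30479_gt.G2

open Finset VOL Filter Topology

variable {D Z K : Type} [Fintype D] [Fintype Z] [Fintype K] [DecidableEq D]

/-- the linear part of the form `k` -/
noncomputable def Dat.aff (S : Dat D Z K) (k : K) (X : D ⊕ Z → ℂ) : ℂ := ∑ i, S.A k i * X i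

/-- the derivative of the polynomial part of `S.T` at `z` in direction `X` -/
noncomputable def Dat.dqv (S : Dat D Z K) (z X : D ⊕ Z → ℂ) : ℂ :=
  ∑ i, ∑ j, S.q i j * (X i * z j + z i * X j) + ∑ i, S.r i * X i +
    ∑ v, 2 * Real.pi * Complex.I * (S.b v * z (.inr v) + 1) * X (.inr v)

/-- the point `z + x X` -/
noncomputable def zx (z X : D ⊕ Z → ℂ) (x : ℝ) : D ⊕ Z → ℂ := fun i => z i + x * X i

/-- the derivative of `S.V` in direction `X` -/
noncomputable def Dat.DV (S : Dat D Z K) (z X : D ⊕ Z → ℂ) : ℝ :=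
  (S.dqv z X).re + ∑ k, ((S.aff k X).re * LL (S.form k z) + (S.aff k X).im * YY (S.form k z))

omit [Fintype K] [DecidableEq D] in
theorem form_zx (S : Dat D Z K) (k : K) (z X : D ⊕ Z → ℂ) (x : ℝ) :
    S.form k (zx z X x) = S.form k z + x * S.aff k X := by
  unfold Dat.form Dat.aff zx
  simp only [mul_add, sum_add_distrib, mul_sum]
  have : ∀ i, (S.A k i : ℂ) * (x * X i) = x * (S.A k i * X i) := fun i => by ring
  simp only [this]
  ring

omit [Fintype K] [DecidableEq D] in
theorem hasDerivAt_form (S : Dat D Z K) (k : K) (z X : D ⊕ Z → ℂ) (x : ℝ) :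
    HasDerivAt (fun x : ℝ => S.form k (zx z X x)) (S.aff k X) x := by
  simp only [form_zx]
  have := ((Complex.ofRealCLM.hasDerivAt (x := x)).mul_const (S.aff k X)).const_add (S.form k z)
  simpa using this

/-- the polynomial part of the potential -/
noncomputable def Dat.pol (S : Dat D Z K) (z : D ⊕ Z → ℂ) : ℂ :=
  S.quad z + ∑ v, (Real.pi * Complex.I * S.b v * z (.inr v) ^ 2 + 2 * Real.pi * Complex.I * z (.inr v))

omit [Fintype K] [DecidableEq D] in
theorem hasDerivAt_pol (S : Dat D Z K) (z X : D ⊕ Z → ℂ) (x : ℝ) :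
    HasDerivAt (fun x : ℝ => S.pol (zx z X x)) (S.dqv (zx z X x) X) x := by
  have hz : ∀ i, HasDerivAt (fun x : ℝ => zx z X x i) (X i) x := by
    intro i
    unfold zx
    have := ((Complex.ofRealCLM.hasDerivAt (x := x)).mul_const (X i)).const_add (z i)
    simpa using this
  unfold Dat.pol Dat.quad Dat.dqv
  refine HasDerivAt.add (HasDerivAt.add ?_ ?_) ?_
  · apply HasDerivAt.fun_sum
    intro i _
    apply HasDerivAt.fun_sum
    intro j _
    have h1 := ((hz i).const_mul (S.q i j)).mul (hz j)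
    refine h1.congr_deriv ?_
    ring
  · apply HasDerivAt.fun_sum
    intro i _
    exact (hz i).const_mul (S.r i)
  · apply HasDerivAt.fun_sum
    intro v _
    have h1 := (((hz (.inr v)).fun_pow 2).const_mul (Real.pi * Complex.I * S.b v)).add
      ((hz (.inr v)).const_mul (2 * Real.pi * Complex.I))
    refine h1.congr_deriv ?_
    simp only [Nat.cast_ofNat, Nat.add_one_sub_one, pow_one]
    ring

/-- **Derivative of `S.V` in a complex direction.** -/
theorem hasDerivAt_V (S : Dat D Z K) (z X : D ⊕ Z → ℂ) (x : ℝ)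
    (h : ∀ k, S.aff k X ≠ 0 → (S.form k (zx z X x)).im ≠ 0 ∨ S.form k (zx z X x) ∈ strip) :
    HasDerivAt (fun x : ℝ => S.V (zx z X x)) (S.DV (zx z X x) X) x := by
  have e1 : (fun x : ℝ => S.V (zx z X x)) = fun x => (S.pol (zx z X x)).re +
      ∑ k, UU (S.form k (zx z X x)) := rfl
  rw [e1]
  unfold Dat.DV
  refine HasDerivAt.add ?_ ?_
  · exact Complex.reCLM.hasFDerivAt.comp_hasDerivAt x (hasDerivAt_pol S z X x)
  · apply HasDerivAt.fun_sum
    intro k _
    by_cases hk : S.aff k X = 0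
    · have e2 : (fun x : ℝ => UU (S.form k (zx z X x))) = fun _ => UU (S.form k z) := by
        funext y
        rw [form_zx, hk, mul_zero, add_zero]
      rw [e2, hk]
      simpa using hasDerivAt_const x (UU (S.form k z))
    · exact hasDerivAt_UU (hasDerivAt_form S k z X x) (h k hk)

/-! ### real directions -/

/-- the linear part, real directions -/
noncomputable def Dat.affR (S : Dat D Z K) (k : K) (X : D ⊕ Z → ℝ) : ℝ := ∑ i, S.A k i * X i

omit [Fintype K] [DecidableEq D] in
theorem aff_real (S : Dat D Z K) (k : K) (X : D ⊕ Z → ℝ) :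
    S.aff k (fun i => (X i : ℂ)) = (S.affR k X : ℂ) := by
  unfold Dat.aff Dat.affR
  push_cast
  rfl

/-- the derivative of `S.V` in a real direction -/
noncomputable def Dat.DR (S : Dat D Z K) (z : D ⊕ Z → ℂ) (X : D ⊕ Z → ℝ) : ℝ :=
  (S.dqv z fun i => (X i : ℂ)).re + ∑ k, S.affR k X * LL (S.form k z)

/-- the second derivative of `S.V` in a real direction -/
noncomputable def Dat.DDR (S : Dat D Z K) (z : D ⊕ Z → ℂ) (X : D ⊕ Z → ℝ) : ℝ :=
  (2 * ∑ i, ∑ j, S.q i j * X i * X j + ∑ v, 2 * Real.pi * Complex.I * S.b v *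
    (X (.inr v) : ℂ) ^ 2).re + ∑ k, S.affR k X ^ 2 * CC (S.form k z)

/-- the point `z + x X`, `X` real -/
noncomputable def zr (z : D ⊕ Z → ℂ) (X : D ⊕ Z → ℝ) (x : ℝ) : D ⊕ Z → ℂ :=
  fun i => z i + ((x * X i : ℝ) : ℂ)

omit [Fintype D] [Fintype Z] [DecidableEq D] in
theorem zr_eq (z : D ⊕ Z → ℂ) (X : D ⊕ Z → ℝ) (x : ℝ) : zr z X x = zx z (fun i => (X i : ℂ)) x := by
  funext i
  unfold zr zx
  push_cast
  rfl

omit [Fintype K] [DecidableEq D] in
theorem form_zr (S : Dat D Z K) (k : K) (z : D ⊕ Z → ℂ) (X : D ⊕ Z → ℝ) (x : ℝ) :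
    S.form k (zr z X x) = S.form k z + (S.affR k X * x : ℝ) := by
  rw [zr_eq, form_zx, aff_real]
  push_cast
  ring

/-- **Derivative of `S.V` in a real direction.** -/
theorem hasDerivAt_VR (S : Dat D Z K) (z : D ⊕ Z → ℂ) (X : D ⊕ Z → ℝ) (x : ℝ)
    (h : ∀ k, S.affR k X ≠ 0 → Complex.sin (Real.pi * S.form k (zr z X x)) ≠ 0) :
    HasDerivAt (fun x : ℝ => S.V (zr z X x)) (S.DR (zr z X x) X) x := by
  have e1 : (fun x : ℝ => S.V (zr z X x)) = fun x => (S.pol (zr z X x)).re +
      ∑ k, UU (S.form k (zr z X x)) := rfl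
  rw [e1]
  unfold Dat.DR
  refine HasDerivAt.add ?_ ?_
  · have h1 := Complex.reCLM.hasFDerivAt.comp_hasDerivAt x
      (hasDerivAt_pol S z (fun i => (X i : ℂ)) x)
    rw [← zr_eq] at h1
    refine h1.congr_of_eventuallyEq (Eventually.of_forall fun y => ?_)
    simp only [Function.comp_def, ← zr_eq]
    rfl
  · apply HasDerivAt.fun_sum
    intro k _
    by_cases hk : S.affR k X = 0
    · have e2 : (fun x : ℝ => UU (S.form k (zr z X x))) = fun _ => UU (S.form k z) := by
        funext y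
        rw [form_zr, hk, zero_mul, Complex.ofReal_zero, add_zero]
      rw [e2, hk]
      simpa using hasDerivAt_const x (UU (S.form k z))
    · have h1 := h k hk
      rw [form_zr] at h1
      have h2 := hasDerivAt_UU_level (S.form k z) (S.affR k X) x h1
      simp only [form_zr]
      exact h2

omit [Fintype K] [DecidableEq D] in
theorem hasDerivAt_dq (S : Dat D Z K) (z : D ⊕ Z → ℂ) (X : D ⊕ Z → ℝ) (x : ℝ) :
    HasDerivAt (fun x : ℝ => S.dqv (zr z X x) fun i => (X i : ℂ))
      (2 * ∑ i, ∑ j, S.q i j * X i * X j + ∑ v, 2 * Real.pi * Complex.I * S.b v *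
        (X (.inr v) : ℂ) ^ 2) x := by
  have hz : ∀ i, HasDerivAt (fun x : ℝ => zr z X x i) (X i : ℂ) x := by
    intro i
    unfold zr
    have := ((hasDerivAt_id x).mul_const (X i)).ofReal_comp.const_add (z i)
    simpa using this
  unfold Dat.dqv
  refine HasDerivAt.add ?_ ?_
  · have h1 : HasDerivAt (fun x : ℝ => ∑ i, ∑ j, S.q i j * ((X i : ℂ) * zr z X x j +
        zr z X x i * (X j : ℂ))) (∑ i, ∑ j, 2 * (S.q i j * X i * X j)) x := by
      apply HasDerivAt.fun_sum
      intro i _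
      apply HasDerivAt.fun_sum
      intro j _
      have h2 := (((hz j).const_mul (X i : ℂ)).add ((hz i).mul_const (X j : ℂ))).const_mul (S.q i j)
      refine h2.congr_deriv ?_
      ring
    have h3 := h1.add_const (∑ i, S.r i * (X i : ℂ))
    refine h3.congr_deriv ?_
    simp only [mul_sum]
  · apply HasDerivAt.fun_sum
    intro v _
    have h2 := ((((hz (.inr v)).const_mul (S.b v : ℂ)).add_const 1).const_mul
      (2 * Real.pi * Complex.I)).mul_const (X (.inr v) : ℂ)
    refine h2.congr_deriv ?_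
    ring

/-- **Second derivative of `S.V` in a real direction.** -/
theorem hasDerivAt_DR (S : Dat D Z K) (z : D ⊕ Z → ℂ) (X : D ⊕ Z → ℝ) (x : ℝ)
    (h : ∀ k, S.affR k X ≠ 0 → Complex.sin (Real.pi * S.form k (zr z X x)) ≠ 0) :
    HasDerivAt (fun x : ℝ => S.DR (zr z X x) X) (S.DDR (zr z X x) X) x := by
  unfold Dat.DR Dat.DDR
  refine HasDerivAt.add ?_ ?_
  · exact Complex.reCLM.hasFDerivAt.comp_hasDerivAt x (hasDerivAt_dq S z X x)
  · apply HasDerivAt.fun_sum
    intro k _
    by_cases hk : S.affR k X = 0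
    · rw [hk]
      simpa using hasDerivAt_const x (0 : ℝ)
    · have h1 := h k hk
      rw [form_zr] at h1
      have h2 := (hasDerivAt_LL_level (S.form k z) (S.affR k X) x h1).const_mul (S.affR k X)
      simp only [form_zr]
      refine h2.congr_deriv ?_
      ring

omit [DecidableEq D] in
/-- the real derivative is the real part of the derivative of the potential -/
theorem DR_eq (S : Dat D Z K) (z : D ⊕ Z → ℂ) (X : D ⊕ Z → ℝ) :
    S.DR z X = (∑ i, (X i : ℂ) * S.dT z i).re := by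
  have h1 : ∑ i, (X i : ℂ) * S.dT z i = (S.dqv z fun i => (X i : ℂ)) +
      ∑ k, (S.affR k X : ℂ) * ph (S.form k z) := by
    unfold Dat.dT Dat.dqv Dat.affR
    simp only [mul_add, sum_add_distrib]
    have a1 : ∑ i, (X i : ℂ) * ∑ k, (S.A k i : ℂ) * ph (S.form k z) =
        ∑ k, ((∑ i, (S.A k i : ℝ) * X i : ℝ) : ℂ) * ph (S.form k z) := by
      simp only [mul_sum]
      rw [sum_comm]
      apply sum_congr rfl
      intro k _
      push_cast
      rw [sum_mul]
      apply sum_congr rfl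
      intro i _
      ring
    have a2 : ∑ i, (X i : ℂ) * Sum.elim (fun _ => 0) (fun v => 2 * Real.pi * Complex.I *
        (S.b v * z (.inr v) + 1)) i = ∑ v, 2 * Real.pi * Complex.I * (S.b v * z (.inr v) + 1) *
        (X (.inr v) : ℂ) := by
      rw [Fintype.sum_sum_type]
      simp only [Sum.elim_inl, mul_zero, sum_const_zero, zero_add, Sum.elim_inr]
      apply sum_congr rfl
      intro v _
      ring
    have a3 : ∑ i, (X i : ℂ) * ∑ j, (S.q i j + S.q j i) * z j =
        ∑ i, ∑ j, S.q i j * ((X i : ℂ) * z j) + ∑ i, ∑ j, S.q i j * (z i * (X j : ℂ)) := by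
      simp only [mul_sum]
      have b1 : ∀ i j, (X i : ℂ) * ((S.q i j + S.q j i) * z j) =
          S.q i j * ((X i : ℂ) * z j) + S.q j i * (z j * (X i : ℂ)) := fun i j => by ring
      simp only [b1, sum_add_distrib]
      congr 1
      exact sum_comm
    rw [a1, a3]
    simp only [mul_add] at a2 ⊢
    rw [a2]
    have a4 : ∑ i, (X i : ℂ) * S.r i = ∑ i, S.r i * (X i : ℂ) := sum_congr rfl fun i _ => mul_comm _ _
    rw [a4]
  rw [h1, Complex.add_re, Complex.re_sum]
  unfold Dat.DR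
  congr 1
  apply sum_congr rfl
  intro k _
  rw [Complex.re_ofReal_mul, ph_re]

/-- **Concavity on a segment.** -/
theorem V_lt_of_concave (S : Dat D Z K) {z : D ⊕ Z → ℂ} {X : D ⊕ Z → ℝ}
    (h0 : ∀ x ∈ Set.Icc (0 : ℝ) 1, ∀ k, S.affR k X ≠ 0 →
      Complex.sin (Real.pi * S.form k (zr z X x)) ≠ 0)
    (h2 : ∀ x ∈ Set.Ioo (0 : ℝ) 1, S.DDR (zr z X x) X < 0) (h1 : S.DR z X ≤ 0) :
    S.V (zr z X 1) < S.V z := by
  have z0 : zr z X 0 = z := by
    funext i
    simp [zr]
  have hg : ∀ x ∈ Set.Icc (0 : ℝ) 1, HasDerivAt (fun x => S.V (zr z X x)) (S.DR (zr z X x) X) x :=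
    fun x hx => hasDerivAt_VR S z X x (h0 x hx)
  have hg' : ∀ x ∈ Set.Icc (0 : ℝ) 1, HasDerivAt (fun x => S.DR (zr z X x) X)
      (S.DDR (zr z X x) X) x := fun x hx => hasDerivAt_DR S z X x (h0 x hx)
  have hanti : StrictAntiOn (fun x => S.DR (zr z X x) X) (Set.Icc 0 1) := by
    apply strictAntiOn_of_deriv_neg (convex_Icc 0 1)
    · exact fun x hx => (hg' x hx).continuousAt.continuousWithinAt
    · intro x hx
      rw [interior_Icc] at hx
      rw [(hg' x (Set.Ioo_subset_Icc_self hx)).deriv]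
      exact h2 x hx
  have hneg : ∀ x ∈ Set.Ioc (0 : ℝ) 1, S.DR (zr z X x) X < 0 := by
    intro x hx
    have h3 := hanti (Set.left_mem_Icc.mpr zero_le_one) ⟨hx.1.le, hx.2⟩ hx.1
    simp only [z0] at h3
    linarith
  have hV : StrictAntiOn (fun x => S.V (zr z X x)) (Set.Icc 0 1) := by
    apply strictAntiOn_of_deriv_neg (convex_Icc 0 1)
    · exact fun x hx => (hg x hx).continuousAt.continuousWithinAt
    · intro x hx
      rw [interior_Icc] at hx
      rw [(hg x (Set.Ioo_subset_Icc_self hx)).deriv]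
      exact hneg x ⟨hx.1, hx.2.le⟩
  have h4 := hV (Set.left_mem_Icc.mpr zero_le_one) (Set.right_mem_Icc.mpr zero_le_one) zero_lt_one
  simp only [z0] at h4
  exact h4

end Pool.Agent.Work.MP_b30479_gt.G2
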