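import Pool.Agent.Work.MP_b30479_gt.G2.Compact
import Pool.Agent.Work.MP_b30479_gt.G2.MaxP
import Pool.Agent.Work.MP_b30479_gt.G2.VDat

/-!
# The path map: one-sided derivatives of the growth rate, the saddle
-/

namespace Pool.Agent.Work.MP_b30479_gt.G2

open Finset VOL Filter Topology

variable {D Z K : Type} [Fintype D] [Fintype Z] [Fintype K]

/-! ### linearity of `DV` -/

omit [Fintype K] in
theorem aff_add (S : Dat D Z K) (k : K) (X Y : D ⊕ Z → ℂ) :
    S.aff k (X + Y) = S.aff k X + S.aff k Y := by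
  unfold Dat.aff
  simp [mul_add, Finset.sum_add_distrib]

omit [Fintype K] in
theorem aff_smul (S : Dat D Z K) (k : K) (a : ℝ) (X : D ⊕ Z → ℂ) :
    S.aff k (a • X) = a * S.aff k X := by
  unfold Dat.aff
  rw [Finset.mul_sum]
  refine Finset.sum_congr rfl fun i _ => ?_
  simp only [Pi.smul_apply, Complex.real_smul]
  ring

omit [Fintype K] in
theorem dq_add (S : Dat D Z K) (z X Y : D ⊕ Z → ℂ) : S.dqv z (X + Y) = S.dqv z X + S.dqv z Y := by
  unfold Dat.dqv
  have e1 : ∀ i j, S.q i j * ((X + Y) i * z j + z i * (X + Y) j) =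
      S.q i j * (X i * z j + z i * X j) + S.q i j * (Y i * z j + z i * Y j) := fun i j => by
    simp only [Pi.add_apply]
    ring
  have e2 : ∀ i, S.r i * (X + Y) i = S.r i * X i + S.r i * Y i := fun i => by
    simp only [Pi.add_apply]
    ring
  have e3 : ∀ v, 2 * Real.pi * Complex.I * (S.b v * z (.inr v) + 1) * (X + Y) (.inr v) =
      2 * Real.pi * Complex.I * (S.b v * z (.inr v) + 1) * X (.inr v) +
      2 * Real.pi * Complex.I * (S.b v * z (.inr v) + 1) * Y (.inr v) := fun v => by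
    simp only [Pi.add_apply]
    ring
  simp_rw [e1, e2, e3, Finset.sum_add_distrib]
  ring

omit [Fintype K] in
theorem dq_smul (S : Dat D Z K) (z : D ⊕ Z → ℂ) (a : ℝ) (X : D ⊕ Z → ℂ) :
    S.dqv z (a • X) = a * S.dqv z X := by
  unfold Dat.dqv
  have e1 : ∀ i j, S.q i j * ((a • X) i * z j + z i * (a • X) j) =
      a * (S.q i j * (X i * z j + z i * X j)) := fun i j => by
    simp only [Pi.smul_apply, Complex.real_smul]
    ring
  have e2 : ∀ i, S.r i * (a • X) i = a * (S.r i * X i) := fun i => by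
    simp only [Pi.smul_apply, Complex.real_smul]
    ring
  have e3 : ∀ v, 2 * Real.pi * Complex.I * (S.b v * z (.inr v) + 1) * (a • X) (.inr v) =
      a * (2 * Real.pi * Complex.I * (S.b v * z (.inr v) + 1) * X (.inr v)) := fun v => by
    simp only [Pi.smul_apply, Complex.real_smul]
    ring
  simp_rw [e1, e2, e3, ← Finset.mul_sum]
  ring

theorem DV_add (S : Dat D Z K) (z X Y : D ⊕ Z → ℂ) : S.DV z (X + Y) = S.DV z X + S.DV z Y := by
  unfold Dat.DV
  rw [dq_add, Complex.add_re]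
  simp_rw [aff_add, Complex.add_re, Complex.add_im]
  have : ∀ k, ((S.aff k X).re + (S.aff k Y).re) * LL (S.form k z) +
      ((S.aff k X).im + (S.aff k Y).im) * YY (S.form k z) =
      ((S.aff k X).re * LL (S.form k z) + (S.aff k X).im * YY (S.form k z)) +
      ((S.aff k Y).re * LL (S.form k z) + (S.aff k Y).im * YY (S.form k z)) := fun k => by ring
  simp_rw [this, Finset.sum_add_distrib]
  ring

theorem DV_smul (S : Dat D Z K) (z : D ⊕ Z → ℂ) (a : ℝ) (X : D ⊕ Z → ℂ) :
    S.DV z (a • X) = a * S.DV z X := by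
  unfold Dat.DV
  rw [dq_smul, Complex.re_ofReal_mul]
  simp_rw [aff_smul, Complex.re_ofReal_mul, Complex.im_ofReal_mul]
  rw [mul_add, Finset.mul_sum]
  congr 1
  refine Finset.sum_congr rfl fun k _ => ?_
  ring

variable [DecidableEq D] [DecidableEq Z]

/-- the derivative of `S.V` in the variable `j`, horizontal direction -/
noncomputable def Dat.d1 (S : Dat D Z K) (z : D ⊕ Z → ℂ) (j : D ⊕ Z) : ℝ := S.DV z (Pi.single j 1)

/-- the derivative of `S.V` in the variable `j`, vertical direction -/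
noncomputable def Dat.d2 (S : Dat D Z K) (z : D ⊕ Z → ℂ) (j : D ⊕ Z) : ℝ :=
  S.DV z (Pi.single j Complex.I)

theorem DV_single (S : Dat D Z K) (z : D ⊕ Z → ℂ) (j : D ⊕ Z) (m : ℝ) :
    S.DV z (Pi.single j (1 + m * Complex.I)) = S.d1 z j + m * S.d2 z j := by
  have e : (Pi.single j (1 + m * Complex.I) : D ⊕ Z → ℂ) =
      Pi.single j (1 : ℂ) + m • (Pi.single j Complex.I : D ⊕ Z → ℂ) := by
    funext i
    by_cases h : i = j
    · subst h; simp
    · simp [Pi.single_eq_of_ne h]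
  rw [e, DV_add, DV_smul]
  rfl

omit [Fintype K] in
theorem aff_single (S : Dat D Z K) (k : K) (j : D ⊕ Z) (c : ℂ) :
    S.aff k (Pi.single j c) = S.A k j * c := by
  unfold Dat.aff
  rw [Finset.sum_eq_single j]
  · simp
  · intro i _ hi
    rw [Pi.single_eq_of_ne hi, mul_zero]
  · intro h
    exact absurd (Finset.mem_univ _) h

omit [Fintype D] [Fintype Z] [DecidableEq D] [DecidableEq Z] in
theorem zx_zero (z X : D ⊕ Z → ℂ) : zx z X 0 = z := by
  funext i
  simp [zx]

/-- derivative of `S.V` in a coordinate direction -/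
theorem hasDerivAt_V_single (S : Dat D Z K) (z : D ⊕ Z → ℂ) (j : D ⊕ Z) (m : ℝ)
    (h1 : ∀ k, S.A k j ≠ 0 → Complex.sin (Real.pi * S.form k z) ≠ 0)
    (h2 : m ≠ 0 → ∀ k, S.A k j ≠ 0 → (S.form k z).im ≠ 0 ∨ S.form k z ∈ strip) :
    HasDerivAt (fun s : ℝ => S.V (zx z (Pi.single j (1 + m * Complex.I)) s))
      (S.DV z (Pi.single j (1 + m * Complex.I))) 0 := by
  by_cases hm : m = 0
  · subst hm
    have e1 : (Pi.single j (1 + (0 : ℝ) * Complex.I) : D ⊕ Z → ℂ) =
        fun i => ((Pi.single j 1 : D ⊕ Z → ℝ) i : ℂ) := by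
      funext i
      by_cases h : i = j
      · subst h; simp
      · simp [Pi.single_eq_of_ne h]
    have h3 := hasDerivAt_VR S z (Pi.single j 1) 0 (by
      intro k hk
      rw [zr_eq, ← e1, zx_zero]
      apply h1 k
      intro h
      apply hk
      have := aff_real S k (Pi.single j 1)
      rw [← e1, aff_single, h] at this
      simpa using this.symm)
    have e2 : ∀ s : ℝ, zr z (Pi.single j 1) s = zx z (Pi.single j (1 + (0 : ℝ) * Complex.I)) s := by
      intro s
      rw [zr_eq, ← e1]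
    simp_rw [e2, zx_zero] at h3
    refine h3.congr_deriv ?_
    unfold Dat.DR Dat.DV
    rw [e1]
    simp only [aff_real, Complex.ofReal_re, Complex.ofReal_im, zero_mul, add_zero]
  · have h3 := hasDerivAt_V S z (Pi.single j (1 + m * Complex.I)) 0 (by
      intro k hk
      rw [zx_zero]
      apply h2 hm k
      intro h
      apply hk
      rw [aff_single, h]
      simp)
    rw [zx_zero] at h3
    exact h3

/-! ### paths -/

omit [Fintype D] [Fintype Z] [DecidableEq D] [DecidableEq Z] in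
/-- the height functions of the paths -/
noncomputable def Par.hgt (P : Par D) (zs : D ⊕ Z → ℂ) : D ⊕ Z → ℝ → ℝ
  | .inl i, x => (zs (.inl i)).im * tr 0 (P.XM i) (P.cl i) (P.cr i) x
  | .inr v, σ => (zs (.inr v)).im * LT.th σ

omit [Fintype D] [Fintype Z] [DecidableEq D] [DecidableEq Z] in
/-- the point on the product of the paths -/
noncomputable def Par.pth (P : Par D) (zs : D ⊕ Z → ℂ) (x : D ⊕ Z → ℝ) : D ⊕ Z → ℂ :=
  fun j => (x j : ℂ) + (P.hgt zs j (x j) : ℂ) * Complex.I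

/-- the slope to the right -/
noncomputable def Par.sR (P : Par D) (zs : D ⊕ Z → ℂ) : D ⊕ Z → ℝ → ℝ
  | .inl i, x => (zs (.inl i)).im * if x < P.cl i then 1 / P.cl i else
      if x < P.XM i - P.cr i then 0 else -(1 / P.cr i)
  | .inr v, σ => (zs (.inr v)).im * if σ < -(1 / 4) then 4 else if σ < 1 / 4 then 0 else -4

/-- the slope to the left -/
noncomputable def Par.sL (P : Par D) (zs : D ⊕ Z → ℂ) : D ⊕ Z → ℝ → ℝ
  | .inl i, x => (zs (.inl i)).im * if x ≤ P.cl i then 1 / P.cl i else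
      if x ≤ P.XM i - P.cr i then 0 else -(1 / P.cr i)
  | .inr v, σ => (zs (.inr v)).im * if σ ≤ -(1 / 4) then 4 else if σ ≤ 1 / 4 then 0 else -4

/-- lower ends -/
noncomputable def plo (D Z : Type) : D ⊕ Z → ℝ
  | .inl _ => 0
  | .inr _ => -(1 / 2)

/-- upper ends -/
noncomputable def Par.hi (P : Par D) : D ⊕ Z → ℝ
  | .inl i => P.XM i
  | .inr _ => 1 / 2

theorem tr_a {b c c' x : ℝ} (hc : 0 < c) (hc' : 0 < c') (hb : c + c' < b) (h0 : 0 ≤ x)
    (h1 : x ≤ c) : tr 0 b c c' x = x / c := by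
  unfold tr
  rw [sub_zero]
  have h2 : x / c ≤ 1 := (div_le_one hc).2 h1
  have h3 : 1 ≤ (b - x) / c' := (one_le_div hc').2 (by linarith only [hb, h1])
  rw [min_eq_left (h2.trans h3), min_eq_right h2, max_eq_right (div_nonneg h0 hc.le)]

theorem tr_b {b c c' x : ℝ} (hc : 0 < c) (hc' : 0 < c') (h0 : c ≤ x)
    (h1 : x ≤ b - c') : tr 0 b c c' x = 1 := by
  unfold tr
  rw [sub_zero]
  have h2 : 1 ≤ x / c := (one_le_div hc).2 h0
  have h3 : 1 ≤ (b - x) / c' := (one_le_div hc').2 (by linarith only [h1])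
  rw [min_eq_left (le_min h2 h3), max_eq_right zero_le_one]

theorem tr_c {b c c' x : ℝ} (hc : 0 < c) (hc' : 0 < c') (hb : c + c' < b) (h0 : b - c' ≤ x)
    (h1 : x ≤ b) : tr 0 b c c' x = (b - x) / c' := by
  unfold tr
  rw [sub_zero]
  have h2 : (b - x) / c' ≤ 1 := (div_le_one hc').2 (by linarith only [h0])
  have h3 : 1 ≤ x / c := (one_le_div hc).2 (by linarith only [hb, h0])
  rw [min_eq_right (h2.trans h3), min_eq_right h2, max_eq_right (div_nonneg (by linarith only [h1]) hc'.le)]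

/-- conditions on the parameters of the paths -/
def Par.Good (P : Par D) : Prop := ∀ i, 0 < P.cl i ∧ 0 < P.cr i ∧ P.cl i + P.cr i < P.XM i

omit [Fintype D] [Fintype Z] [DecidableEq D] [DecidableEq Z] in
/-- the height is linear to the right of every point -/
theorem hgt_right {P : Par D} (hP : P.Good) (zs : D ⊕ Z → ℂ) (j : D ⊕ Z) {x : ℝ}
    (h0 : plo D Z j ≤ x) (h1 : x < P.hi j) :
    ∃ r > x, ∀ s ∈ Set.Icc x r, P.hgt zs j s = P.hgt zs j x + (s - x) * P.sR zs j x := by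
  rcases j with i | v
  · obtain ⟨hc, hc', hb⟩ := hP i
    simp only [plo, Par.hi, Par.hgt, Par.sR] at *
    by_cases hx1 : x < P.cl i
    · refine ⟨P.cl i, hx1, fun s hs => ?_⟩
      rw [tr_a hc hc' hb (h0.trans hs.1) hs.2, tr_a hc hc' hb h0 hx1.le, if_pos hx1]
      ring
    · push Not at hx1
      by_cases hx2 : x < P.XM i - P.cr i
      · refine ⟨P.XM i - P.cr i, hx2, fun s hs => ?_⟩
        rw [tr_b hc hc' (hx1.trans hs.1) hs.2, tr_b hc hc' hx1 hx2.le, if_neg (not_lt.2 hx1),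
          if_pos hx2]
        ring
      · push Not at hx2
        refine ⟨P.XM i, h1, fun s hs => ?_⟩
        rw [tr_c hc hc' hb (hx2.trans hs.1) hs.2, tr_c hc hc' hb hx2 h1.le, if_neg (not_lt.2 hx1),
          if_neg (not_lt.2 hx2)]
        field_simp
        ring
  · simp only [plo, Par.hi, Par.hgt, Par.sR] at *
    unfold LT.th
    by_cases hx1 : x < -(1 / 4)
    · refine ⟨-(1 / 4), hx1, fun s hs => ?_⟩
      rw [abs_of_nonpos (by linarith only [hs, hs.2]), abs_of_nonpos (by linarith only [h1, hx1]), if_pos hx1,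
        min_eq_right (by linarith only [hs, hs.2]), min_eq_right (by linarith only [hx1])]
      ring
    · push Not at hx1
      by_cases hx2 : x < 1 / 4
      · refine ⟨1 / 4, hx2, fun s hs => ?_⟩
        have e1 : |s| ≤ 1 / 4 := abs_le.2 ⟨by linarith only [hx1, hs, hs.1], hs.2⟩
        have e2 : |x| ≤ 1 / 4 := abs_le.2 ⟨by linarith only [hx1], hx2.le⟩
        rw [min_eq_left (by linarith only [e1]), min_eq_left (by linarith only [e2]), if_neg (not_lt.2 hx1), if_pos hx2]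
        ring
      · push Not at hx2
        refine ⟨1 / 2, h1, fun s hs => ?_⟩
        rw [abs_of_nonneg (by linarith only [h1, hx2, hs, hs.1]), abs_of_nonneg (by linarith only [h1, hx2]), if_neg (not_lt.2 hx1),
          if_neg (not_lt.2 hx2), min_eq_right (by linarith only [hx2, hs, hs.1]), min_eq_right (by linarith only [hx2])]
        ring

omit [Fintype D] [Fintype Z] [DecidableEq D] [DecidableEq Z] in
/-- the height is linear to the left of every point -/
theorem hgt_left {P : Par D} (hP : P.Good) (zs : D ⊕ Z → ℂ) (j : D ⊕ Z) {x : ℝ}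
    (h0 : plo D Z j < x) (h1 : x ≤ P.hi j) :
    ∃ r < x, ∀ s ∈ Set.Icc r x, P.hgt zs j s = P.hgt zs j x + (s - x) * P.sL zs j x := by
  rcases j with i | v
  · obtain ⟨hc, hc', hb⟩ := hP i
    simp only [plo, Par.hi, Par.hgt, Par.sL] at *
    by_cases hx1 : x ≤ P.cl i
    · refine ⟨0, h0, fun s hs => ?_⟩
      rw [tr_a hc hc' hb hs.1 (hs.2.trans hx1), tr_a hc hc' hb h0.le hx1, if_pos hx1]
      ring
    · push Not at hx1
      by_cases hx2 : x ≤ P.XM i - P.cr i
      · refine ⟨P.cl i, hx1, fun s hs => ?_⟩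
        rw [tr_b hc hc' hs.1 (hs.2.trans hx2), tr_b hc hc' hx1.le hx2, if_neg (not_le.2 hx1),
          if_pos hx2]
        ring
      · push Not at hx2
        refine ⟨P.XM i - P.cr i, hx2, fun s hs => ?_⟩
        rw [tr_c hc hc' hb hs.1 (hs.2.trans h1), tr_c hc hc' hb hx2.le h1, if_neg (not_le.2 hx1),
          if_neg (not_le.2 hx2)]
        field_simp
        ring
  · simp only [plo, Par.hi, Par.hgt, Par.sL] at *
    unfold LT.th
    by_cases hx1 : x ≤ -(1 / 4)
    · refine ⟨-(1 / 2), h0, fun s hs => ?_⟩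
      rw [abs_of_nonpos (by linarith only [h0, hx1, hs, hs.2]), abs_of_nonpos (by linarith only [h0, hx1]), if_pos hx1,
        min_eq_right (by linarith only [hx1, hs, hs.2]), min_eq_right (by linarith only [hx1])]
      ring
    · push Not at hx1
      by_cases hx2 : x ≤ 1 / 4
      · refine ⟨-(1 / 4), hx1, fun s hs => ?_⟩
        have e1 : |s| ≤ 1 / 4 := abs_le.2 ⟨by linarith only [hs, hs.1], by linarith only [hx2, hs, hs.2]⟩
        have e2 : |x| ≤ 1 / 4 := abs_le.2 ⟨by linarith only [hx1], hx2⟩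
        rw [min_eq_left (by linarith only [e1]), min_eq_left (by linarith only [e2]), if_neg (not_le.2 hx1), if_pos hx2]
        ring
      · push Not at hx2
        refine ⟨1 / 4, hx2, fun s hs => ?_⟩
        rw [abs_of_nonneg (by linarith only [hs, hs.1]), abs_of_nonneg (by linarith only [hx2]), if_neg (not_le.2 hx1),
          if_neg (not_le.2 hx2), min_eq_right (by linarith only [hs, hs.1]), min_eq_right (by linarith only [hx2])]
        ring

omit [Fintype D] [Fintype Z] in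
theorem pth_update (P : Par D) (zs : D ⊕ Z → ℂ) (x : D ⊕ Z → ℝ) (j : D ⊕ Z) {s m : ℝ}
    (h : P.hgt zs j s = P.hgt zs j (x j) + (s - x j) * m) :
    P.pth zs (Function.update x j s) = zx (P.pth zs x) (Pi.single j (1 + m * Complex.I)) (s - x j) := by
  funext i
  unfold Par.pth zx
  by_cases hi : i = j
  · subst hi
    rw [Function.update_self, h, Pi.single_eq_same]
    push_cast
    ring
  · rw [Function.update_of_ne hi, Pi.single_eq_of_ne hi]
    simp

/-- **Right derivative of the growth rate on the product of the paths.** -/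
theorem hasDerivWithinAt_V_right (S : Dat D Z K) {P : Par D} (hP : P.Good) (zs : D ⊕ Z → ℂ)
    {x : D ⊕ Z → ℝ} {j : D ⊕ Z} (h0 : plo D Z j ≤ x j) (hx : x j < P.hi j)
    (h1 : ∀ k, S.A k j ≠ 0 → Complex.sin (Real.pi * S.form k (P.pth zs x)) ≠ 0)
    (h2 : P.sR zs j (x j) ≠ 0 → ∀ k, S.A k j ≠ 0 → (S.form k (P.pth zs x)).im ≠ 0 ∨
      S.form k (P.pth zs x) ∈ strip) :
    HasDerivWithinAt (fun s => S.V (P.pth zs (Function.update x j s)))
      (S.d1 (P.pth zs x) j + P.sR zs j (x j) * S.d2 (P.pth zs x) j) (Set.Ici (x j)) (x j) := by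
  obtain ⟨r, hr, hlin⟩ := hgt_right hP zs j h0 hx
  have h3 := hasDerivAt_V_single S (P.pth zs x) j (P.sR zs j (x j)) h1 h2
  rw [DV_single] at h3
  rw [← sub_self (x j)] at h3
  have h5 := h3.comp_sub_const (x j) (x j)
  refine (h5.hasDerivWithinAt (s := Set.Ici (x j))).congr_of_eventuallyEq ?_ ?_
  · have : Set.Icc (x j) r ∈ 𝓝[≥] (x j) := Icc_mem_nhdsGE hr
    filter_upwards [this] with s hs
    rw [pth_update P zs x j (hlin s hs)]
  · rw [pth_update P zs x j (hlin _ ⟨le_rfl, hr.le⟩)]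

/-- **Left derivative of the growth rate on the product of the paths.** -/
theorem hasDerivWithinAt_V_left (S : Dat D Z K) {P : Par D} (hP : P.Good) (zs : D ⊕ Z → ℂ)
    {x : D ⊕ Z → ℝ} {j : D ⊕ Z} (h0 : plo D Z j < x j) (hx : x j ≤ P.hi j)
    (h1 : ∀ k, S.A k j ≠ 0 → Complex.sin (Real.pi * S.form k (P.pth zs x)) ≠ 0)
    (h2 : P.sL zs j (x j) ≠ 0 → ∀ k, S.A k j ≠ 0 → (S.form k (P.pth zs x)).im ≠ 0 ∨
      S.form k (P.pth zs x) ∈ strip) :
    HasDerivWithinAt (fun s => S.V (P.pth zs (Function.update x j s)))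
      (S.d1 (P.pth zs x) j + P.sL zs j (x j) * S.d2 (P.pth zs x) j) (Set.Iic (x j)) (x j) := by
  obtain ⟨r, hr, hlin⟩ := hgt_left hP zs j h0 hx
  have h3 := hasDerivAt_V_single S (P.pth zs x) j (P.sL zs j (x j)) h1 h2
  rw [DV_single] at h3
  rw [← sub_self (x j)] at h3
  have h5 := h3.comp_sub_const (x j) (x j)
  refine (h5.hasDerivWithinAt (s := Set.Iic (x j))).congr_of_eventuallyEq ?_ ?_
  · have : Set.Icc r (x j) ∈ 𝓝[≤] (x j) := Icc_mem_nhdsLE hr
    filter_upwards [this] with s hs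
    rw [pth_update P zs x j (hlin s hs)]
  · rw [pth_update P zs x j (hlin _ ⟨hr.le, le_rfl⟩)]

/-! ### the saddle -/

omit [DecidableEq D] [DecidableEq Z] in
/-- the derivative of `S.V` is the real part of the derivative of the potential -/
theorem DV_eq_dT (S : Dat D Z K) {z : D ⊕ Z → ℂ} (hin : ∀ k, S.form k z ∈ strip) (X : D ⊕ Z → ℂ) :
    S.DV z X = (∑ i, X i * S.dT z i).re := by
  have h1 : ∑ i, X i * S.dT z i = S.dqv z X + ∑ k, S.aff k X * ph (S.form k z) := by
    unfold Dat.dT Dat.dqv Dat.aff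
    simp only [mul_add, sum_add_distrib]
    have a1 : ∑ i, X i * ∑ k, (S.A k i : ℂ) * ph (S.form k z) =
        ∑ k, (∑ i, (S.A k i : ℂ) * X i) * ph (S.form k z) := by
      simp only [mul_sum]
      rw [sum_comm]
      apply sum_congr rfl
      intro k _
      rw [sum_mul]
      apply sum_congr rfl
      intro i _
      ring
    have a2 : ∑ i, X i * Sum.elim (fun _ => 0) (fun v => 2 * Real.pi * Complex.I *
        (S.b v * z (.inr v) + 1)) i = ∑ v, 2 * Real.pi * Complex.I * (S.b v * z (.inr v) + 1) *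
        X (.inr v) := by
      rw [Fintype.sum_sum_type]
      simp only [Sum.elim_inl, mul_zero, sum_const_zero, zero_add, Sum.elim_inr]
      apply sum_congr rfl
      intro v _
      ring
    have a3 : ∑ i, X i * ∑ j, (S.q i j + S.q j i) * z j =
        ∑ i, ∑ j, S.q i j * (X i * z j) + ∑ i, ∑ j, S.q i j * (z i * X j) := by
      simp only [mul_sum]
      have b1 : ∀ i j, X i * ((S.q i j + S.q j i) * z j) =
          S.q i j * (X i * z j) + S.q j i * (z j * X i) := fun i j => by ring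
      simp only [b1, sum_add_distrib]
      congr 1
      exact sum_comm
    rw [a1, a3]
    simp only [mul_add] at a2 ⊢
    rw [a2]
    have a4 : ∑ i, X i * S.r i = ∑ i, S.r i * X i := sum_congr rfl fun i _ => mul_comm _ _
    rw [a4]
  rw [h1, Complex.add_re, Complex.re_sum]
  unfold Dat.DV
  congr 1
  apply sum_congr rfl
  intro k _
  rw [Complex.mul_re, ph_re, ph_im (hin k)]
  ring

omit [DecidableEq D] [DecidableEq Z] in
theorem DV_crit (S : Dat D Z K) {z : D ⊕ Z → ℂ} (hin : ∀ k, S.form k z ∈ strip)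
    (hc : ∀ i, S.dT z i = 0) (X : D ⊕ Z → ℂ) : S.DV z X = 0 := by
  rw [DV_eq_dT S hin]
  simp [hc]

omit [Fintype D] [Fintype Z] [DecidableEq D] [DecidableEq Z] in
/-- the saddle is on the product of the paths -/
theorem pth_re {P : Par D} {zs : D ⊕ Z → ℂ} (hP : P.Good)
    (hD : ∀ i, P.cl i ≤ (zs (.inl i)).re ∧ (zs (.inl i)).re ≤ P.XM i - P.cr i)
    (hZ : ∀ v, |(zs (.inr v)).re| ≤ 1 / 4) : P.pth zs (fun j => (zs j).re) = zs := by
  funext j
  unfold Par.pth
  have h1 : P.hgt zs j (zs j).re = (zs j).im := by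
    rcases j with i | v
    · obtain ⟨hc, hc', hb⟩ := hP i
      simp only [Par.hgt]
      rw [tr_b hc hc' (hD i).1 (hD i).2, mul_one]
    · simp only [Par.hgt]
      unfold LT.th
      rw [min_eq_left (by linarith only [hZ, hZ v]), mul_one]
  rw [h1]
  exact Complex.re_add_im _

omit [Fintype D] [Fintype Z] [DecidableEq D] [DecidableEq Z] in
theorem continuous_pth (P : Par D) (zs : D ⊕ Z → ℂ) : Continuous (P.pth zs) := by
  refine continuous_pi fun j => ?_
  unfold Par.pth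
  rcases j with i | v
  · unfold Par.hgt tr
    fun_prop
  · unfold Par.hgt LT.th
    fun_prop

/-- the box of the parameters -/
def Par.box (P : Par D) (Z : Type) : Set (D ⊕ Z → ℝ) := Set.Icc (plo D Z) P.hi

/-- `x` is a maximiser on the product of the paths -/
def IsMx (S : Dat D Z K) (P : Par D) (zs : D ⊕ Z → ℂ) (x : D ⊕ Z → ℝ) : Prop :=
  x ∈ P.box Z ∧ IsMaxOn (fun x => S.V (P.pth zs x)) (P.box Z) x

/-- first order condition at a maximiser, to the right -/
theorem IsMx.right {S : Dat D Z K} {P : Par D} {zs : D ⊕ Z → ℂ} {x : D ⊕ Z → ℝ}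
    (h : IsMx S P zs x) (hP : P.Good) {j : D ⊕ Z} (hx : x j < P.hi j)
    (h1 : ∀ k, S.A k j ≠ 0 → Complex.sin (Real.pi * S.form k (P.pth zs x)) ≠ 0)
    (h2 : P.sR zs j (x j) ≠ 0 → ∀ k, S.A k j ≠ 0 → (S.form k (P.pth zs x)).im ≠ 0 ∨
      S.form k (P.pth zs x) ∈ strip) :
    S.d1 (P.pth zs x) j + P.sR zs j (x j) * S.d2 (P.pth zs x) j ≤ 0 :=
  max_right h.1 h.2 hx (hasDerivWithinAt_V_right S hP zs (h.1.1 j) hx h1 h2)

/-- first order condition at a maximiser, to the left -/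
theorem IsMx.left {S : Dat D Z K} {P : Par D} {zs : D ⊕ Z → ℂ} {x : D ⊕ Z → ℝ}
    (h : IsMx S P zs x) (hP : P.Good) {j : D ⊕ Z} (hx : plo D Z j < x j)
    (h1 : ∀ k, S.A k j ≠ 0 → Complex.sin (Real.pi * S.form k (P.pth zs x)) ≠ 0)
    (h2 : P.sL zs j (x j) ≠ 0 → ∀ k, S.A k j ≠ 0 → (S.form k (P.pth zs x)).im ≠ 0 ∨
      S.form k (P.pth zs x) ∈ strip) :
    0 ≤ S.d1 (P.pth zs x) j + P.sL zs j (x j) * S.d2 (P.pth zs x) j :=
  max_left h.1 h.2 hx (hasDerivWithinAt_V_left S hP zs hx (h.1.2 j) h1 h2)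

/-- **Maximum principle on the product of the paths.** -/
theorem path_dom (S : Dat D Z K) {P : Par D} (hP : P.Good) {zs : D ⊕ Z → ℂ}
    (hD : ∀ i, P.cl i < (zs (.inl i)).re ∧ (zs (.inl i)).re < P.XM i - P.cr i)
    (hZ : ∀ v, |(zs (.inr v)).re| < 1 / 4) (J B : Set (D ⊕ Z)) {g : D ⊕ Z → ℝ → ℝ}
    {C : D ⊕ Z → Set ℝ} (hg : ∀ j ∈ J, StrictMonoOn (g j) (C j))
    (hC : ∀ y, IsMx S P zs y → (∀ i ∈ B, plo D Z i < y i) → ∀ j ∈ J, y j ∈ C j)
    (hCs : ∀ j ∈ J, (zs j).re ∈ C j)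
    (hbd : ∀ y, IsMx S P zs y → ∀ i ∈ B, y i = plo D Z i → ∀ᶠ s in 𝓝[>] (plo D Z i),
      S.V (P.pth zs y) ≤ S.V (P.pth zs (Function.update y i s)))
    (hJ : ∀ y, IsMx S P zs y → (∀ i ∈ B, plo D Z i < y i) → (∀ j ∈ J, y j = (zs j).re) →
      ∀ j, y j = (zs j).re)
    (hL : ∀ y, IsMx S P zs y → (∀ i ∈ B, plo D Z i < y i) → ∀ i ∈ J, (zs i).re < y i →
      (∀ j ∈ J, |g j (y j) - g j (zs j).re| ≤ g i (y i) - g i (zs i).re) →
      (∀ k, S.A k i ≠ 0 → Complex.sin (Real.pi * S.form k (P.pth zs y)) ≠ 0) ∧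
      (P.sL zs i (y i) ≠ 0 → ∀ k, S.A k i ≠ 0 → (S.form k (P.pth zs y)).im ≠ 0 ∨
        S.form k (P.pth zs y) ∈ strip) ∧
      S.d1 (P.pth zs y) i + P.sL zs i (y i) * S.d2 (P.pth zs y) i < 0)
    (hR : ∀ y, IsMx S P zs y → (∀ i ∈ B, plo D Z i < y i) → ∀ i ∈ J, y i < (zs i).re →
      (∀ j ∈ J, |g j (y j) - g j (zs j).re| ≤ g i (zs i).re - g i (y i)) →
      (∀ k, S.A k i ≠ 0 → Complex.sin (Real.pi * S.form k (P.pth zs y)) ≠ 0) ∧
      (P.sR zs i (y i) ≠ 0 → ∀ k, S.A k i ≠ 0 → (S.form k (P.pth zs y)).im ≠ 0 ∨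
        S.form k (P.pth zs y) ∈ strip) ∧
      0 < S.d1 (P.pth zs y) i + P.sR zs i (y i) * S.d2 (P.pth zs y) i)
    {x : D ⊕ Z → ℝ} (hx : x ∈ P.box Z) (hne : P.pth zs x ≠ zs) : S.V (P.pth zs x) < S.V zs := by
  have hxs : P.pth zs (fun j => (zs j).re) = zs :=
    pth_re hP (fun i => ⟨(hD i).1.le, (hD i).2.le⟩) (fun v => (hZ v).le)
  have hmem : ∀ i, (zs i).re ∈ Set.Ioo (plo D Z i) (P.hi i) := by
    intro i
    rcases i with i | v
    · obtain ⟨hc, hc', hb⟩ := hP i
      simp only [plo, Par.hi]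
      exact ⟨hc.trans (hD i).1, by linarith only [hc', hD, (hD i).2]⟩
    · simp only [plo, Par.hi]
      have := abs_lt.1 (hZ v)
      exact ⟨by linarith only [this], by linarith only [this]⟩
  have key := max_principle (f := fun x => S.V (P.pth zs x)) (lo := plo D Z) (hi := P.hi) J B
    (xs := fun j => (zs j).re)
    (S.continuous_V.comp (continuous_pth P zs)).continuousOn
    (fun i => ⟨(hmem i).1, (hmem i).2.le⟩) hg
    (fun y hy hm hpos => hC y ⟨hy, hm⟩ hpos) hCs
    (fun y hy hm i hiB hi => hbd y ⟨hy, hm⟩ i hiB hi)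
    (fun y hy hm hpos hj => funext (hJ y ⟨hy, hm⟩ hpos hj))
    (fun y hy hm hpos i hi hlt hgj => by
      obtain ⟨h1, h2, h3⟩ := hL y ⟨hy, hm⟩ hpos i hi hlt hgj
      exact ⟨_, h3, hasDerivWithinAt_V_left S hP zs ((hmem i).1.trans hlt) (hy.2 i) h1 h2⟩)
    (fun y hy hm hpos i hi hlt hgj => by
      obtain ⟨h1, h2, h3⟩ := hR y ⟨hy, hm⟩ hpos i hi hlt hgj
      exact ⟨_, h3, hasDerivWithinAt_V_right S hP zs (hy.1 i) (hlt.trans (hmem i).2) h1 h2⟩)
    x hx (fun h => hne (by rw [h]; exact hxs))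
  simpa only [hxs] using key

omit [Fintype K] [DecidableEq D] [DecidableEq Z] in
/-- admissible points without penalties and without real variables are on the main paths -/
theorem Adm.exists_pth {S : Dat D Z K} {P : Par D} {zs : D ⊕ Z → ℂ} {R : Finset D}
    {z : D ⊕ Z → ℂ} (hP : ∀ i, 0 < P.hu i ∧ 0 < P.hd i)
    (h : Adm S P zs R ∅ z 0) : ∃ x ∈ P.box Z, z = P.pth zs x := by
  have h1 : ∀ i, ∃ x : ℝ, 0 ≤ x ∧ x ≤ P.XM i ∧
      z (.inl i) = pt 0 (P.XM i) (P.cl i) (P.cr i) (zs (.inl i)).im x := by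
    intro i
    obtain ⟨x, hx0, hx1, hx⟩ := h.onD i (Finset.notMem_empty _)
    refine ⟨x, hx0, hx1, ?_⟩
    rcases hx with hx | hx | hx
    · exact hx.1
    · have h2 : tr 0 (P.XM i) (P.cl i) (P.cr i) x = 0 := by
        have h3 := hx.2
        simp only [Pi.zero_apply] at h3
        rcases mul_eq_zero.1 h3.symm with h4 | h4
        · exact absurd h4 (hP i).1.ne'
        · exact h4
      rw [hx.1]
      unfold pt
      rw [h2, mul_zero, mul_zero]
    · have h2 : tr 0 (P.XM i) (P.cl i) (P.cr i) x = 0 := by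
        have h3 := hx.2
        simp only [Pi.zero_apply] at h3
        rcases mul_eq_zero.1 h3.symm with h4 | h4
        · exact absurd h4 (hP i).2.ne'
        · exact h4
      rw [hx.1]
      unfold pt
      rw [h2, mul_zero, mul_zero]
  have h2 : ∀ v, ∃ σ : ℝ, |σ| ≤ 1 / 2 ∧ z (.inr v) = LT.zt (zs (.inr v)).im σ :=
    fun v => h.onZ v (Finset.notMem_empty _)
  choose x hx0 hx1 hx2 using h1
  choose σ hσ1 hσ2 using h2
  refine ⟨Sum.elim x σ, ⟨?_, ?_⟩, ?_⟩
  · rintro (i | v)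
    · exact hx0 i
    · simp only [plo, Sum.elim_inr]
      exact (abs_le.1 (hσ1 v)).1
  · rintro (i | v)
    · exact hx1 i
    · simp only [Par.hi, Sum.elim_inr]
      exact (abs_le.1 (hσ1 v)).2
  · funext j
    rcases j with i | v
    · rw [hx2]
      rfl
    · rw [hσ2]
      rfl

end Pool.Agent.Work.MP_b30479_gt.G2
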