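import Pool.Agent.Work.MP_b30479_gt.G2.ML3a
import Pool.Agent.Work.MP_b30479_gt.G2.MPPath
import Pool.Agent.Work.MP_b30479_gt.G2.RMon

/-!
# END 3, location of the inner variable: paths, derivatives, values
-/

namespace Pool.Agent.Work.MP_b30479_gt.G2

open Finset VOL Filter Topology

namespace L3

/-- the path of the inner variable, `h` its height -/
noncomputable def mpt (h c : ℝ) : ℂ :=
  (c : ℂ) + ((h * tr 0 (77 / 100) (1 / 10) (1 / 5) c : ℝ) : ℂ) * Complex.I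

/-- the growth rate of an end with three crossings without the terms in the hinge `v` alone -/
noncomputable def Wm (v m : ℂ) : ℝ := -(Real.pi / 2 * (2 * v * m + m ^ 2 - m).im) - UU (m - v)

/-- `μ` maximises `Wm v` on the path -/
structure MaxM (v : ℂ) (h μ : ℝ) : Prop where
  m0 : 0 ≤ μ
  m1 : μ ≤ 77 / 100
  mx : ∀ c, 0 ≤ c → c ≤ 77 / 100 → Wm v (mpt h c) ≤ Wm v (mpt h μ)

theorem mpt_re (h c : ℝ) : (mpt h c).re = c := by simp [mpt]
theorem mpt_im (h c : ℝ) : (mpt h c).im = h * tr 0 (77 / 100) (1 / 10) (1 / 5) c := by simp [mpt]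

theorem mpt_left {h c : ℝ} (h0 : 0 ≤ c) (h1 : c ≤ 1 / 10) : (mpt h c).im = 10 * h * c := by
  rw [mpt_im, tr_a (by norm_num) (by norm_num) (by norm_num) h0 h1]
  ring

theorem mpt_mid {h c : ℝ} (h0 : 1 / 10 ≤ c) (h1 : c ≤ 57 / 100) : (mpt h c).im = h := by
  rw [mpt_im, tr_b (by norm_num) (by norm_num) h0 (by norm_num; linarith only [h1]), mul_one]

theorem mpt_right {h c : ℝ} (h0 : 57 / 100 ≤ c) (h1 : c ≤ 77 / 100) :
    (mpt h c).im = 5 * h * (77 / 100 - c) := by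
  rw [mpt_im, tr_c (by norm_num) (by norm_num) (by norm_num) (by norm_num; linarith only [h0]) h1]
  ring

theorem Wm_val (v m : ℂ) : Wm v m = -(Real.pi * v.im * m.re) -
    Real.pi * m.im * (v.re + m.re - 1 / 2) - UU (m - v) := by
  unfold Wm
  simp [pow_two]
  ring

/-! ### bounds for `UU` -/

/-- `UU` is below its boundary values for `Re ≤ 1/2` -/
theorem UU_le_lam {u : ℂ} (h : u.re ≤ 1 / 2) : UU u ≤ -lam u.re := by
  have h1 := Lr_diff_mono h le_rfl (abs_nonneg u.im)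
  rw [DT.Lr_half le_rfl, DT.Lr_half (abs_nonneg _)] at h1
  unfold UU lam
  linarith only [h1]

theorem UU_ge_left {u : ℂ} (h : -(1 / 2) ≤ u.re) : lam (-u.re) - Real.pi * |u.im| ≤ UU u := by
  have h1 := Lr_diff_mono (a := 1 / 2) (b := -u.re) (by linarith only [h]) le_rfl (abs_nonneg u.im)
  rw [DT.Lr_half le_rfl, DT.Lr_half (abs_nonneg _), DT.Lr_neg, DT.Lr_neg] at h1
  unfold UU lam
  rw [DT.Lr_neg]
  linarith only [h1]

/-- the value at a flat point to the right of the hinge -/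
theorem Wm_ge {v m : ℂ} (h : m.re - v.re ≤ 1 / 2) : -(Real.pi * v.im * m.re) -
    Real.pi * m.im * (v.re + m.re - 1 / 2) + lam (m.re - v.re) ≤ Wm v m := by
  have := UU_le_lam (u := m - v) (by simpa using h)
  rw [Complex.sub_re] at this
  rw [Wm_val]
  linarith only [this]

/-- the value at a point to the left of the hinge -/
theorem Wm_le {v m : ℂ} (h : v.re - m.re ≤ 1 / 2) : Wm v m ≤ -(Real.pi * v.im * m.re) -
    Real.pi * m.im * (v.re + m.re - 1 / 2) - lam (v.re - m.re) + Real.pi * |m.im - v.im| := by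
  have := UU_ge_left (u := m - v) (by simp only [Complex.sub_re]; linarith only [h])
  rw [Complex.sub_re, Complex.sub_im, neg_sub] at this
  rw [Wm_val]
  linarith only [this]

/-! ### derivatives -/

/-- `Wm v` along a line -/
theorem hasDerivAt_Wm (v : ℂ) (r q c : ℝ)
    (h : ((c : ℂ) + ((r + q * c : ℝ) : ℂ) * Complex.I - v).im ≠ 0 ∨
      ((c : ℂ) + ((r + q * c : ℝ) : ℂ) * Complex.I - v) ∈ strip) :
    HasDerivAt (fun c : ℝ => Wm v ((c : ℂ) + ((r + q * c : ℝ) : ℂ) * Complex.I))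
      (-(Real.pi * (v.im + (r + q * c))) - Real.pi * q * (v.re + c - 1 / 2) -
        LL ((c : ℂ) + ((r + q * c : ℝ) : ℂ) * Complex.I - v) -
        q * YY ((c : ℂ) + ((r + q * c : ℝ) : ℂ) * Complex.I - v)) c := by
  have d0 : HasDerivAt (fun c : ℝ => r + q * c) q c := by
    simpa using ((hasDerivAt_id c).const_mul q).const_add r
  have d1 : HasDerivAt (fun c : ℝ => (c : ℂ) + ((r + q * c : ℝ) : ℂ) * Complex.I - v)
      (1 + (q : ℂ) * Complex.I) c := by
    have a1 : HasDerivAt (fun c : ℝ => (c : ℂ)) 1 c := by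
      simpa using (hasDerivAt_id c).ofReal_comp
    exact (a1.add (d0.ofReal_comp.mul_const Complex.I)).sub_const v
  have d2 := hasDerivAt_UU d1 h
  have d3 : HasDerivAt (fun c : ℝ => -(Real.pi * v.im * c) -
      Real.pi * (r + q * c) * (v.re + c - 1 / 2))
      (-(Real.pi * v.im) - (Real.pi * q * (v.re + c - 1 / 2) + Real.pi * (r + q * c))) c := by
    have b1 : HasDerivAt (fun c : ℝ => -(Real.pi * v.im * c)) (-(Real.pi * v.im)) c := by
      simpa using ((hasDerivAt_id c).const_mul (Real.pi * v.im)).fun_neg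
    have b2 : HasDerivAt (fun c : ℝ => v.re + c - 1 / 2) 1 c :=
      ((hasDerivAt_id c).const_add v.re).sub_const (1 / 2)
    have b3 := (d0.const_mul Real.pi).mul b2
    refine (b1.sub b3).congr_deriv ?_
    ring
  have e : (fun c : ℝ => Wm v ((c : ℂ) + ((r + q * c : ℝ) : ℂ) * Complex.I)) =
      fun c : ℝ => (-(Real.pi * v.im * c) - Real.pi * (r + q * c) * (v.re + c - 1 / 2)) -
        UU ((c : ℂ) + ((r + q * c : ℝ) : ℂ) * Complex.I - v) := by
    funext c
    rw [Wm_val]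
    simp
  rw [e]
  refine (d3.sub d2).congr_deriv ?_
  simp
  ring

/-- `Wm v` along a horizontal line -/
theorem hasDerivAt_Wm_level (v : ℂ) (r c : ℝ)
    (h : Complex.sin (Real.pi * ((c : ℂ) + (r : ℂ) * Complex.I - v)) ≠ 0) :
    HasDerivAt (fun c : ℝ => Wm v ((c : ℂ) + (r : ℂ) * Complex.I))
      (-(Real.pi * (v.im + r)) - LL ((c : ℂ) + (r : ℂ) * Complex.I - v)) c := by
  have e0 : ∀ c : ℝ, (c : ℂ) + (r : ℂ) * Complex.I - v = ((r : ℂ) * Complex.I - v) + ((1 * c : ℝ) : ℂ) := by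
    intro c
    push_cast
    ring
  have d2 := hasDerivAt_UU_level ((r : ℂ) * Complex.I - v) 1 c (by rw [← e0]; exact h)
  have d3 : HasDerivAt (fun c : ℝ => -(Real.pi * v.im * c) -
      Real.pi * r * (v.re + c - 1 / 2)) (-(Real.pi * v.im) - Real.pi * r) c := by
    have b1 : HasDerivAt (fun c : ℝ => -(Real.pi * v.im * c)) (-(Real.pi * v.im)) c := by
      simpa using ((hasDerivAt_id c).const_mul (Real.pi * v.im)).fun_neg
    have b2 : HasDerivAt (fun c : ℝ => v.re + c - 1 / 2) 1 c :=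
      ((hasDerivAt_id c).const_add v.re).sub_const (1 / 2)
    have b3 := b2.const_mul (Real.pi * r)
    refine (b1.sub b3).congr_deriv ?_
    ring
  have e : (fun c : ℝ => Wm v ((c : ℂ) + (r : ℂ) * Complex.I)) =
      fun c : ℝ => (-(Real.pi * v.im * c) - Real.pi * r * (v.re + c - 1 / 2)) -
        UU ((r : ℂ) * Complex.I - v + ((1 * c : ℝ) : ℂ)) := by
    funext c
    rw [Wm_val, e0]
    simp
  rw [e]
  refine (d3.sub d2).congr_deriv ?_
  rw [← e0]
  ring

/-- a maximiser has no positive right derivative -/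
theorem MaxM.right {v : ℂ} {h μ : ℝ} (H : MaxM v h μ) {f : ℝ → ℝ} {D b : ℝ} (hb : μ < b)
    (hb1 : b ≤ 77 / 100) (hf : ∀ c, μ ≤ c → c ≤ b → Wm v (mpt h c) = f c) (hD : HasDerivAt f D μ) :
    D ≤ 0 := by
  refine deriv_right_nonpos (f := f) hb (fun s hs => ?_) hD.hasDerivWithinAt
  rw [← hf s hs.1.le hs.2.le, ← hf μ le_rfl hb.le]
  exact H.mx s (H.m0.trans hs.1.le) (hs.2.le.trans hb1)

/-- a maximiser has no negative left derivative -/
theorem MaxM.left {v : ℂ} {h μ : ℝ} (H : MaxM v h μ) {f : ℝ → ℝ} {D b : ℝ} (hb : b < μ)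
    (hb1 : 0 ≤ b) (hf : ∀ c, b ≤ c → c ≤ μ → Wm v (mpt h c) = f c) (hD : HasDerivAt f D μ) :
    0 ≤ D := by
  refine deriv_left_nonneg (f := f) hb (fun s hs => ?_) hD.hasDerivWithinAt
  rw [← hf s hs.1.le hs.2.le, ← hf μ hb.le le_rfl]
  exact H.mx s (hb1.trans hs.1.le) (hs.2.le.trans H.m1)

theorem mpt_eq_of_im {h c y : ℝ} (hy : (mpt h c).im = y) : mpt h c = (c : ℂ) + (y : ℂ) * Complex.I := by
  apply Complex.ext
  · rw [mpt_re]; simp
  · rw [hy]; simp

/-- first-order condition on the left ramp -/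
theorem MaxM.ramp_left {v : ℂ} {h μ : ℝ} (H : MaxM v h μ) (h1 : μ < 1 / 10)
    (hs : (mpt h μ - v).im ≠ 0 ∨ mpt h μ - v ∈ strip) :
    -(Real.pi * (v.im + 10 * h * μ)) - Real.pi * (10 * h) * (v.re + μ - 1 / 2) - LL (mpt h μ - v) -
      10 * h * YY (mpt h μ - v) ≤ 0 := by
  have e : ∀ c : ℝ, 0 ≤ c → c ≤ 1 / 10 → mpt h c = (c : ℂ) + ((0 + 10 * h * c : ℝ) : ℂ) * Complex.I :=
    fun c c0 c1 => mpt_eq_of_im (by rw [mpt_left c0 c1]; ring)
  have hd := hasDerivAt_Wm v 0 (10 * h) μ (by rw [← e μ H.m0 h1.le]; exact hs)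
  have := H.right (b := 1 / 10) h1 (by norm_num)
    (fun c c0 c1 => by rw [e c (H.m0.trans c0) c1]) hd
  rw [← e μ H.m0 h1.le] at this
  linarith only [this]

/-- first-order condition on the right ramp, to the left -/
theorem MaxM.ramp_right {v : ℂ} {h μ : ℝ} (H : MaxM v h μ) (h1 : 57 / 100 < μ)
    (hs : (mpt h μ - v).im ≠ 0 ∨ mpt h μ - v ∈ strip) :
    0 ≤ -(Real.pi * (v.im + 5 * h * (77 / 100 - μ))) + Real.pi * (5 * h) * (v.re + μ - 1 / 2) -
      LL (mpt h μ - v) + 5 * h * YY (mpt h μ - v) := by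
  have e : ∀ c : ℝ, 57 / 100 ≤ c → c ≤ 77 / 100 → mpt h c =
      (c : ℂ) + ((5 * h * (77 / 100) + -(5 * h) * c : ℝ) : ℂ) * Complex.I :=
    fun c c0 c1 => mpt_eq_of_im (by rw [mpt_right c0 c1]; ring)
  have hd := hasDerivAt_Wm v (5 * h * (77 / 100)) (-(5 * h)) μ
    (by rw [← e μ h1.le H.m1]; exact hs)
  have := H.left (b := 57 / 100) h1 (by norm_num)
    (fun c c0 c1 => by rw [e c c0 (c1.trans H.m1)]) hd
  rw [← e μ h1.le H.m1] at this
  linarith only [this]

/-- first-order condition on the level, to the right -/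
theorem MaxM.level_right {v : ℂ} {h μ : ℝ} (H : MaxM v h μ) (h0 : 1 / 10 ≤ μ) (h1 : μ < 57 / 100)
    (hs : Complex.sin (Real.pi * (mpt h μ - v)) ≠ 0) :
    -(Real.pi * (v.im + h)) ≤ LL (mpt h μ - v) := by
  have e : ∀ c : ℝ, 1 / 10 ≤ c → c ≤ 57 / 100 → mpt h c = (c : ℂ) + (h : ℂ) * Complex.I :=
    fun c c0 c1 => mpt_eq_of_im (mpt_mid c0 c1)
  have hd := hasDerivAt_Wm_level v h μ (by rw [← e μ h0 h1.le]; exact hs)
  have := H.right (b := 57 / 100) h1 (by norm_num)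
    (fun c c0 c1 => by rw [e c (h0.trans c0) c1]) hd
  rw [← e μ h0 h1.le] at this
  linarith only [this]

/-- first-order condition on the level, to the left -/
theorem MaxM.level_left {v : ℂ} {h μ : ℝ} (H : MaxM v h μ) (h0 : 1 / 10 < μ) (h1 : μ ≤ 57 / 100)
    (hs : Complex.sin (Real.pi * (mpt h μ - v)) ≠ 0) :
    LL (mpt h μ - v) ≤ -(Real.pi * (v.im + h)) := by
  have e : ∀ c : ℝ, 1 / 10 ≤ c → c ≤ 57 / 100 → mpt h c = (c : ℂ) + (h : ℂ) * Complex.I :=
    fun c c0 c1 => mpt_eq_of_im (mpt_mid c0 c1)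
  have hd := hasDerivAt_Wm_level v h μ (by rw [← e μ h0.le h1]; exact hs)
  have := H.left (b := 1 / 10) h0 (by norm_num)
    (fun c c0 c1 => by rw [e c c0 (c1.trans h1)]) hd
  rw [← e μ h0.le h1] at this
  linarith only [this]

end L3

end Pool.Agent.Work.MP_b30479_gt.G2
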