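import Pool.Agent.Work.MP_b30479_gt.G2.ML3n
import Pool.Agent.Work.MP_b30479_gt.G2.MEnd3
import Pool.Agent.Work.MP_b30479_gt.G2.ML3b

/-!
# END 3, location of the inner variable: tools
-/

namespace Pool.Agent.Work.MP_b30479_gt.G2

open Finset VOL Filter Topology

namespace L3

/-! ### piecewise linear lower bounds of `lam` -/

theorem lam_a {w : ℝ} (h0 : 0 ≤ w) (h1 : w ≤ 1 / 20) : 2156 / 1000 * w ≤ lam w := by
  have := lam_chord (p := 0) (q := 1 / 20) (x := w) (A := 0) (B := 1078 / 10000) le_rfl (by norm_num)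
    (by norm_num) h0 h1 lam_zero.ge lam_20
  norm_num at this
  linarith only [this]

theorem lam_b {w : ℝ} (h0 : 1 / 20 ≤ w) (h1 : w ≤ 1 / 10) :
    1078 / 10000 + 78 / 100 * (w - 1 / 20) ≤ lam w := by
  have := lam_chord (p := 1 / 20) (q := 1 / 10) (x := w) (by norm_num) (by norm_num)
    (by norm_num) h0 h1 lam_20 lam_10
  norm_num at this
  linarith only [this]

theorem lam_c {w : ℝ} (h0 : 1 / 10 ≤ w) (h1 : w ≤ 1 / 6) :
    1468 / 10000 + 22 / 100 * (w - 1 / 10) ≤ lam w := by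
  have := lam_chord (p := 1 / 10) (q := 1 / 6) (x := w) (by norm_num) (by norm_num)
    (by norm_num) h0 h1 lam_10 lam_6
  norm_num at this
  linarith only [h0, this]

theorem lam_d {w : ℝ} (h0 : 1 / 6 ≤ w) (h1 : w ≤ 1 / 4) :
    1615 / 10000 - 1908 / 10000 * (w - 1 / 6) ≤ lam w := by
  have := lam_chord (p := 1 / 6) (q := 1 / 4) (x := w) (by norm_num) (by norm_num)
    (by norm_num) h0 h1 lam_6 lam_4
  norm_num at this
  linarith only [this]

theorem lam_e {w : ℝ} (h0 : 1 / 4 ≤ w) (h1 : w ≤ 35 / 100) :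
    1456 / 10000 - 486 / 1000 * (w - 1 / 4) ≤ lam w := by
  have := lam_chord (p := 1 / 4) (q := 35 / 100) (x := w) (by norm_num) (by norm_num)
    (by norm_num) h0 h1 lam_4 lam_35
  norm_num at this
  linarith only [this]

/-! ### values -/

/-- comparison with the point `a + 1/6` on the level -/
theorem gap {v : ℂ} {h μ a t : ℝ} (ha : v.re = a) (ht : v.im = t) (H : MaxM v h μ)
    (h0 : 0 ≤ a) (h1 : a ≤ 4 / 10) (hw : μ ≤ a) :
    lam (1 / 6) + lam (a - μ) ≤ Real.pi * (t * (a - μ + 1 / 6) + h * (2 * a - 1 / 3) -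
      (mpt h μ).im * (a + μ - 1 / 2) + |(mpt h μ).im - t|) := by
  have e1 := H.mx (a + 1 / 6) (by linarith only [h0]) (by linarith only [h1])
  have e2 := Wm_le (v := v) (m := mpt h μ) (by rw [mpt_re, ha]; linarith only [h1, H, H.m0])
  have e3 := Wm_ge (v := v) (m := mpt h (a + 1 / 6)) (by rw [mpt_re, ha]; linarith only [])
  rw [mpt_re, ha, ht] at e2
  rw [mpt_re, ha, ht, mpt_mid (by linarith only [h0]) (by linarith only [h1]), add_sub_cancel_left] at e3
  nlinarith only [e1, e2, e3]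

/-! ### reflection -/

theorem Lr_lt {ρ w : ℝ} (hρ : 0 ≤ ρ) (h0 : 0 < w) (h1 : w ≤ 1 / 2) :
    DT.Lr ρ w < w * DT.el ρ w := by
  have hc : Continuous (DT.Lr ρ) := by
    unfold DT.Lr
    exact intervalIntegral.continuous_primitive (fun a b => DT.el_intble ρ a b) 0
  have hd : ∀ x ∈ Set.Ioo 0 w, HasDerivAt (DT.Lr ρ) (DT.el ρ x) x := by
    intro x hx
    rcases hρ.lt_or_eq with h | h
    · exact DT.hasDerivAt_Lr h
    · rw [← h]
      exact DT.hasDerivAt_Lr_zero (sin_pi_pos hx.1 (by linarith only [h0, h1, hx, hx.2])).ne'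
  obtain ⟨c, hc1, hc2⟩ := exists_hasDerivAt_eq_slope (DT.Lr ρ) (DT.el ρ) h0 hc.continuousOn hd
  have h2 : DT.el ρ c < DT.el ρ w := by
    have := LL_lt (u := (c : ℂ) + (ρ : ℂ) * Complex.I) (u' := (w : ℂ) + (ρ : ℂ) * Complex.I)
      (by simp) (by simpa using hc1.1) (by simpa using hc1.2) (by simp; linarith only [h1, hc1, hc1.2])
    unfold LL at this
    simpa [abs_of_nonneg hρ] using this
  rw [DT.Lr_zero_right, sub_zero, sub_zero] at hc2
  rw [hc2] at h2
  rw [div_lt_iff₀ h0] at h2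
  linarith only [h2]

/-- a maximiser on the level to the left of the hinge is not worse than its reflection -/
theorem reflect {v : ℂ} {h μ a t : ℝ} (ha : v.re = a) (ht : v.im = t) (H : MaxM v h μ)
    (h0 : 1 / 10 ≤ μ) (hw : μ < a) (h1 : 2 * a - μ ≤ 57 / 100) :
    (a - μ) * -(Real.pi * (t + h)) ≤ DT.Lr |h - t| (a - μ) := by
  have e1 := H.mx (2 * a - μ) (by linarith only [h0, hw, h1]) (by linarith only [h0, hw, h1])
  have i1 : (mpt h (2 * a - μ)).im = h := mpt_mid (by linarith only [h0, hw]) h1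
  have i2 : (mpt h μ).im = h := mpt_mid h0 (by linarith only [hw, h1])
  rw [Wm_val, Wm_val, mpt_re, mpt_re, i1, i2, ha, ht] at e1
  unfold UU at e1
  rw [Complex.sub_im, Complex.sub_im, Complex.sub_re, Complex.sub_re, mpt_re, mpt_re, i1, i2, ha,
    ht, show μ - a = -(a - μ) by ring, DT.Lr_neg, show 2 * a - μ - a = a - μ by ring] at e1
  linarith only [e1]

theorem LL_left {v : ℂ} {h μ a t y : ℝ} (ha : v.re = a) (ht : v.im = t) (hy : (mpt h μ).im = y) :
    LL (mpt h μ - v) = DT.el |y - t| (a - μ) := by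
  unfold LL
  rw [Complex.sub_im, Complex.sub_re, mpt_re, hy, ha, ht, ← DT.el_neg]
  congr 1
  ring

/-- the reflection excludes critical points on the level to the left of the hinge -/
theorem reflect_false {v : ℂ} {h μ a t : ℝ} (ha : v.re = a) (ht : v.im = t) (H : MaxM v h μ)
    (h0 : 1 / 10 ≤ μ) (hw : μ < a) (hw' : a - μ ≤ 1 / 2) (h1 : 2 * a - μ ≤ 57 / 100)
    (hl : LL (mpt h μ - v) ≤ -(Real.pi * (t + h))) : False := by
  have e1 := reflect ha ht H h0 hw h1
  rw [LL_left ha ht (mpt_mid h0 (by linarith only [hw, h1]))] at hl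
  have e2 := Lr_lt (abs_nonneg (h - t)) (sub_pos.2 hw) hw'
  have e3 := mul_le_mul_of_nonneg_left hl (sub_pos.2 hw).le
  linarith only [e1, e2, e3]

/-- an upper bound for `Lr ρ` -/
theorem Lr_le_lin {ρ w : ℝ} (hρ : 0 < ρ) (h0 : 0 ≤ w) :
    DT.Lr ρ w ≤ ((2 * Real.cosh (2 * Real.pi * ρ) - 1) * w - Real.sin (2 * Real.pi * w) / Real.pi) / 2 := by
  have hpi := Real.pi_pos
  have hd : ∀ x, HasDerivAt (fun w => ((2 * Real.cosh (2 * Real.pi * ρ) - 1) * w -
      Real.sin (2 * Real.pi * w) / Real.pi) / 2 - DT.Lr ρ w)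
      ((2 * Real.cosh (2 * Real.pi * ρ) - 1 - 2 * Real.cos (2 * Real.pi * x)) / 2 - DT.el ρ x) x := by
    intro x
    have d1 := (hasDerivAt_id x).const_mul (2 * Real.cosh (2 * Real.pi * ρ) - 1)
    have d2 : HasDerivAt (fun w : ℝ => 2 * Real.pi * w) (2 * Real.pi) x := by
      simpa using (hasDerivAt_id x).const_mul (2 * Real.pi)
    have d3 := ((d1.sub (d2.sin.div_const Real.pi)).div_const 2).sub (DT.hasDerivAt_Lr (x := x) hρ)
    refine d3.congr_deriv ?_
    field_simp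
  have hm : MonotoneOn (fun w => ((2 * Real.cosh (2 * Real.pi * ρ) - 1) * w -
      Real.sin (2 * Real.pi * w) / Real.pi) / 2 - DT.Lr ρ w) (Set.Ici 0) := by
    apply monotoneOn_of_deriv_nonneg (convex_Ici _)
    · exact fun x _ => (hd x).continuousAt.continuousWithinAt
    · exact fun x _ => (hd x).differentiableAt.differentiableWithinAt
    · intro x _
      rw [(hd x).deriv]
      unfold DT.el
      have h4 := DT.LrDer.cosh_gt_cos (v := x) hρ
      have h3 := Real.log_le_sub_one_of_pos (show 0 < 2 * Real.cosh (2 * Real.pi * ρ) -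
        2 * Real.cos (2 * Real.pi * x) by linarith only [h4])
      linarith only [h3]
  have h2 := hm (a := 0) (b := w) (Set.mem_Ici.2 le_rfl) (Set.mem_Ici.2 h0) h0
  simp only [mul_zero, Real.sin_zero, zero_div, sub_zero, DT.Lr_zero_right] at h2
  linarith only [h2]

theorem Lr_neg_six {ρ w : ℝ} (hρ : 0 < ρ) (hρ' : ρ ≤ 1139 / 10000) (h0 : 0 < w) (h1 : w ≤ 1 / 6) :
    DT.Lr ρ w < 0 := by
  have hp1 := Real.pi_gt_d4
  have hp2 := Real.pi_lt_d4
  have hpi := Real.pi_pos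
  have e1 := Lr_le_lin hρ h0.le
  have e2 := cosh_bd (y := ρ) (by rw [abs_of_pos hρ]; linarith only [hρ', hp1, hp2])
  have e3 := Real.sin_gt_sub_cube (x := 2 * Real.pi * w) (by positivity)
  have hr2 : ρ ^ 2 ≤ (1139 / 10000) ^ 2 := pow_le_pow_left₀ hρ.le hρ' 2
  have e4 : 2 * Real.cosh (2 * Real.pi * ρ) - 1 ≤ 1588 / 1000 := by nlinarith only [hp1, hp2, e2, hr2, sq_nonneg ρ]
  have hpp : Real.pi ^ 2 ≤ 98697 / 10000 := by nlinarith only [hρ, hp2, hρ', hp1]
  have hw2 : w ^ 2 ≤ 1 / 36 := by nlinarith only [h1, hρ, hρ', h0]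
  have e5 : 163 / 100 * w < Real.sin (2 * Real.pi * w) / Real.pi := by
    rw [lt_div_iff₀ hpi]
    refine lt_of_le_of_lt ?_ e3
    have : (2 * Real.pi * w) ^ 3 / 6 = Real.pi * w * (4 / 3 * Real.pi ^ 2 * w ^ 2) := by ring
    rw [this]
    have h6 : 4 / 3 * Real.pi ^ 2 * w ^ 2 ≤ 37 / 100 := by nlinarith only [hp1, hp2, hw2, hpp, sq_nonneg w]
    have h7 : 0 < Real.pi * w := by positivity
    nlinarith only [h6, h7, mul_le_mul_of_nonneg_left h6 h7.le]
  nlinarith only [e1, hρ, e5, hρ', h0, hp1, hp2, e4]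

end L3

end Pool.Agent.Work.MP_b30479_gt.G2
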