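import Pool.Agent.Work.MP_b30479_gt.G2.ML3b
import Pool.Agent.Work.MP_b30479_gt.G2.Num.Link
import Pool.Agent.Work.NumI.ChkS

/-!
# END 3, location of the inner variable: the right ramp
-/

namespace Pool.Agent.Work.MP_b30479_gt.G2

open Finset VOL Filter Topology

namespace L3

open Pool.Agent.Work.NumI Pool.Agent.Work.NumI.E

/-- `5 h`; variables `a t h μ` -/
def ek : E := mul (q 5 1) (var 2)
def ehp : E := mul ek (sub (q 77 100) (var 3))
def ex : E := sub (var 3) (var 0)
def ey : E := sub ehp (var 1)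

/-- minus the left derivative on the right ramp -/
def eD : E := add (sub (mul pi (add (var 1) ehp)) (mul (mul pi ek) (sub (add (var 0) (var 3)) (q 1 2))))
  (add (lnA ex ey) (mul ek (lnB ex ey)))

theorem eD_val {a t h μ : ℝ} (hp : 0 < eD.val [a, t, h, μ]) :
    -(Real.pi * (t + 5 * h * (77 / 100 - μ))) + Real.pi * (5 * h) * (a + μ - 1 / 2) -
      NumI.lnA (μ - a) (5 * h * (77 / 100 - μ) - t) -
      5 * h * NumI.lnB (μ - a) (5 * h * (77 / 100 - μ) - t) < 0 := by
  simp only [eD, ek, ehp, ex, ey, E.val, lkR] at hp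
  push_cast at hp
  simp only [div_one] at hp
  linarith only [hp]

def ec1 : E := sub (var 2) (add (q 655 10000) (mul (q 38 100) (var 1)))
def ec2 : E := sub (neg (mul (q 56 100) (var 0))) (var 1)

theorem ec1_val {a t h μ : ℝ} (hp : 0 < ec1.val [a, t, h, μ]) : 655 / 10000 + 38 / 100 * t < h := by
  simp only [ec1, E.val, lkR] at hp
  push_cast at hp
  linarith only [hp]

theorem ec2_val {a t h μ : ℝ} (hp : 0 < ec2.val [a, t, h, μ]) : t < -(56 / 100 * a) := by
  simp only [ec2, E.val, lkR] at hp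
  push_cast at hp
  linarith only [hp]

theorem rowN_h1_q1 : chk [eD, ec1, ec2] 38
    (NumI.setL 3 (NumI.setL 0 [V.of 10000 0 3500, V.of 10000 (-780) 0, V.of 10000 0 655,
    V.of 10000 5700 7700])) = true := by
  decide +kernel

theorem rowN_h1_q2 : chk [eD, ec1, ec2] 37
    (NumI.setL 2 (NumI.setR 3 (NumI.setL 0 [V.of 10000 0 3500, V.of 10000 (-780) 0, V.of 10000 0 655,
    V.of 10000 5700 7700]))) = true := by
  decide +kernel

theorem rowN_h1_q3 : chk [eD, ec1, ec2] 36
    (NumI.setL 3 (NumI.setR 2 (NumI.setR 3 (NumI.setL 0 [V.of 10000 0 3500, V.of 10000 (-780) 0, V.of 10000 0 655,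
    V.of 10000 5700 7700])))) = true := by
  decide +kernel

theorem rowN_h1_q4 : chk [eD, ec1, ec2] 35
    (NumI.setL 1 (NumI.setR 3 (NumI.setR 2 (NumI.setR 3 (NumI.setL 0 [V.of 10000 0 3500, V.of 10000 (-780) 0, V.of 10000 0 655,
    V.of 10000 5700 7700]))))) = true := by
  decide +kernel

theorem rowN_h1_q5 : chk [eD, ec1, ec2] 33
    (NumI.setL 3 (NumI.setL 0 (NumI.setR 1 (NumI.setR 3 (NumI.setR 2 (NumI.setR 3 (NumI.setL 0 [V.of 10000 0 3500, V.of 10000 (-780) 0, V.of 10000 0 655,
    V.of 10000 5700 7700]))))))) = true := by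
  decide +kernel

theorem rowN_h1_q6 : chk [eD, ec1, ec2] 31
    (NumI.setL 2 (NumI.setL 0 (NumI.setR 3 (NumI.setL 0 (NumI.setR 1 (NumI.setR 3 (NumI.setR 2 (NumI.setR 3 (NumI.setL 0 [V.of 10000 0 3500, V.of 10000 (-780) 0, V.of 10000 0 655,
    V.of 10000 5700 7700]))))))))) = true := by
  decide +kernel

theorem rowN_h1_q7 : chk [eD, ec1, ec2] 30
    (NumI.setL 1 (NumI.setR 2 (NumI.setL 0 (NumI.setR 3 (NumI.setL 0 (NumI.setR 1 (NumI.setR 3 (NumI.setR 2 (NumI.setR 3 (NumI.setL 0 [V.of 10000 0 3500, V.of 10000 (-780) 0, V.of 10000 0 655,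
    V.of 10000 5700 7700])))))))))) = true := by
  decide +kernel

theorem rowN_h1_q8 : chk [eD, ec1, ec2] 29
    (NumI.setL 3 (NumI.setR 1 (NumI.setR 2 (NumI.setL 0 (NumI.setR 3 (NumI.setL 0 (NumI.setR 1 (NumI.setR 3 (NumI.setR 2 (NumI.setR 3 (NumI.setL 0 [V.of 10000 0 3500, V.of 10000 (-780) 0, V.of 10000 0 655,
    V.of 10000 5700 7700]))))))))))) = true := by
  decide +kernel

theorem rowN_h1_q9 : chk [eD, ec1, ec2] 27
    (NumI.setL 1 (NumI.setL 0 (NumI.setR 3 (NumI.setR 1 (NumI.setR 2 (NumI.setL 0 (NumI.setR 3 (NumI.setL 0 (NumI.setR 1 (NumI.setR 3 (NumI.setR 2 (NumI.setR 3 (NumI.setL 0 [V.of 10000 0 3500, V.of 10000 (-780) 0, V.of 10000 0 655,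
    V.of 10000 5700 7700]))))))))))))) = true := by
  decide +kernel

theorem rowN_h1_q10 : chk [eD, ec1, ec2] 26
    (NumI.setL 2 (NumI.setR 1 (NumI.setL 0 (NumI.setR 3 (NumI.setR 1 (NumI.setR 2 (NumI.setL 0 (NumI.setR 3 (NumI.setL 0 (NumI.setR 1 (NumI.setR 3 (NumI.setR 2 (NumI.setR 3 (NumI.setL 0 [V.of 10000 0 3500, V.of 10000 (-780) 0, V.of 10000 0 655,
    V.of 10000 5700 7700])))))))))))))) = true := by
  decide +kernel

theorem rowN_h1_q11 : chk [eD, ec1, ec2] 25
    (NumI.setL 3 (NumI.setR 2 (NumI.setR 1 (NumI.setL 0 (NumI.setR 3 (NumI.setR 1 (NumI.setR 2 (NumI.setL 0 (NumI.setR 3 (NumI.setL 0 (NumI.setR 1 (NumI.setR 3 (NumI.setR 2 (NumI.setR 3 (NumI.setL 0 [V.of 10000 0 3500, V.of 10000 (-780) 0, V.of 10000 0 655,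
    V.of 10000 5700 7700]))))))))))))))) = true := by
  decide +kernel

theorem rowN_h1_q12 : chk [eD, ec1, ec2] 25
    (NumI.setR 3 (NumI.setR 2 (NumI.setR 1 (NumI.setL 0 (NumI.setR 3 (NumI.setR 1 (NumI.setR 2 (NumI.setL 0 (NumI.setR 3 (NumI.setL 0 (NumI.setR 1 (NumI.setR 3 (NumI.setR 2 (NumI.setR 3 (NumI.setL 0 [V.of 10000 0 3500, V.of 10000 (-780) 0, V.of 10000 0 655,
    V.of 10000 5700 7700]))))))))))))))) = true := by
  decide +kernel

theorem rowN_h1_q13 : chk [eD, ec1, ec2] 28
    (NumI.setR 0 (NumI.setR 3 (NumI.setR 1 (NumI.setR 2 (NumI.setL 0 (NumI.setR 3 (NumI.setL 0 (NumI.setR 1 (NumI.setR 3 (NumI.setR 2 (NumI.setR 3 (NumI.setL 0 [V.of 10000 0 3500, V.of 10000 (-780) 0, V.of 10000 0 655,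
    V.of 10000 5700 7700])))))))))))) = true := by
  decide +kernel

theorem rowN_h1_q14 : chk [eD, ec1, ec2] 32
    (NumI.setR 0 (NumI.setR 3 (NumI.setL 0 (NumI.setR 1 (NumI.setR 3 (NumI.setR 2 (NumI.setR 3 (NumI.setL 0 [V.of 10000 0 3500, V.of 10000 (-780) 0, V.of 10000 0 655,
    V.of 10000 5700 7700])))))))) = true := by
  decide +kernel

theorem rowN_h1_q15 : chk [eD, ec1, ec2] 34
    (NumI.setR 0 (NumI.setR 1 (NumI.setR 3 (NumI.setR 2 (NumI.setR 3 (NumI.setL 0 [V.of 10000 0 3500, V.of 10000 (-780) 0, V.of 10000 0 655,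
    V.of 10000 5700 7700])))))) = true := by
  decide +kernel

theorem rowN_h1_q16 : chk [eD, ec1, ec2] 38
    (NumI.setL 2 (NumI.setR 0 [V.of 10000 0 3500, V.of 10000 (-780) 0, V.of 10000 0 655,
    V.of 10000 5700 7700])) = true := by
  decide +kernel

theorem rowN_h1_q17 : chk [eD, ec1, ec2] 38
    (NumI.setR 2 (NumI.setR 0 [V.of 10000 0 3500, V.of 10000 (-780) 0, V.of 10000 0 655,
    V.of 10000 5700 7700])) = true := by
  decide +kernel

theorem rowN_h1 : chk [eD, ec1, ec2] 40
    [V.of 10000 0 3500, V.of 10000 (-780) 0, V.of 10000 0 655,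
    V.of 10000 5700 7700] = true :=
  NumI.chk_node (i := 0) (by decide +kernel)
    (NumI.chk_node (i := 3) (by decide +kernel)
      rowN_h1_q1
      (NumI.chk_node (i := 2) (by decide +kernel)
        rowN_h1_q2
        (NumI.chk_node (i := 3) (by decide +kernel)
          rowN_h1_q3
          (NumI.chk_node (i := 1) (by decide +kernel)
            rowN_h1_q4
            (NumI.chk_node (i := 0) (by decide +kernel)
              (NumI.chk_node (i := 3) (by decide +kernel)
                rowN_h1_q5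
                (NumI.chk_node (i := 0) (by decide +kernel)
                  (NumI.chk_node (i := 2) (by decide +kernel)
                    rowN_h1_q6
                    (NumI.chk_node (i := 1) (by decide +kernel)
                      rowN_h1_q7
                      (NumI.chk_node (i := 3) (by decide +kernel)
                        rowN_h1_q8
                        (NumI.chk_node (i := 0) (by decide +kernel)
                          (NumI.chk_node (i := 1) (by decide +kernel)
                            rowN_h1_q9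
                            (NumI.chk_node (i := 2) (by decide +kernel)
                              rowN_h1_q10
                              (NumI.chk_node (i := 3) (by decide +kernel)
                                rowN_h1_q11
                                rowN_h1_q12)))
                          rowN_h1_q13))))
                  rowN_h1_q14))
              rowN_h1_q15)))))
    (NumI.chk_node (i := 2) (by decide +kernel)
      rowN_h1_q16
      rowN_h1_q17)

/-- the right ramp, heights of the hinge `≤ 0` -/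
theorem rowN {a t h μ : ℝ} (a0 : 0 ≤ a) (a1 : a ≤ 35 / 100) (t0 : -(78 / 1000) ≤ t) (t1 : t ≤ 0)
    (h0 : 0 ≤ h) (h1 : h ≤ 655 / 10000 + 38 / 100 * t) (ta : -(56 / 100 * a) ≤ t)
    (m0 : 57 / 100 ≤ μ) (m1 : μ ≤ 77 / 100) :
    -(Real.pi * (t + 5 * h * (77 / 100 - μ))) + Real.pi * (5 * h) * (a + μ - 1 / 2) -
      NumI.lnA (μ - a) (5 * h * (77 / 100 - μ) - t) -
      5 * h * NumI.lnB (μ - a) (5 * h * (77 / 100 - μ) - t) < 0 := by
  have hc : chk [eD, ec1, ec2] 40 [V.of 10000 0 3500, V.of 10000 (-780) 0, V.of 10000 0 655,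
    V.of 10000 5700 7700] = true := rowN_h1
  obtain ⟨e, he, hp⟩ := chk4 hc (by norm_num) (x := a) (y := t) (z := h) (w := μ)
    (by norm_num; linarith only [a0]) (by norm_num; linarith only [a1]) (by norm_num; linarith only [t0]) (by norm_num; linarith only [t1])
    (by norm_num; linarith only [h0]) (by norm_num; linarith only [t1, h1]) (by norm_num; linarith only [m0]) (by norm_num; linarith only [m1])
  simp only [List.mem_cons, List.not_mem_nil, or_false] at he
  rcases he with rfl | rfl | rfl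
  · exact eD_val hp
  · exact absurd (ec1_val hp) (by linarith only [h1])
  · exact absurd (ec2_val hp) (by linarith only [ta])

/-- the right ramp, heights of the hinge `≥ 0`, `a ≤ 26/100` -/
theorem rowP {a t h μ : ℝ} (a0 : 0 ≤ a) (a1 : a ≤ 26 / 100) (t0 : 0 ≤ t) (t1 : t ≤ 58 / 1000)
    (h0 : 0 ≤ h) (h1 : h ≤ 59 / 1000) (m0 : 57 / 100 ≤ μ) (m1 : μ ≤ 77 / 100) :
    -(Real.pi * (t + 5 * h * (77 / 100 - μ))) + Real.pi * (5 * h) * (a + μ - 1 / 2) -
      NumI.lnA (μ - a) (5 * h * (77 / 100 - μ) - t) -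
      5 * h * NumI.lnB (μ - a) (5 * h * (77 / 100 - μ) - t) < 0 := by
  have hc : chk [eD] 40 [V.of 10000 0 2600, V.of 10000 0 580, V.of 10000 0 590,
    V.of 10000 5700 7700] = true := by decide +kernel
  exact eD_val (pos_of_chk (chk4 hc (by norm_num) (x := a) (y := t) (z := h) (w := μ)
    (by norm_num; linarith only [a0]) (by norm_num; linarith only [a1]) (by norm_num; linarith only [t0]) (by norm_num; linarith only [t1])
    (by norm_num; linarith only [h0]) (by norm_num; linarith only [h1]) (by norm_num; linarith only [m0]) (by norm_num; linarith only [m1])))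

/-- the right ramp, heights of the hinge `≥ 0`, `a ≥ 26/100` -/
theorem rowP' {a t h μ : ℝ} (a0 : 26 / 100 ≤ a) (a1 : a ≤ 30 / 100) (t0 : 0 ≤ t) (t1 : t ≤ 28 / 1000)
    (h0 : 0 ≤ h) (h1 : h ≤ 50 / 1000) (m0 : 57 / 100 ≤ μ) (m1 : μ ≤ 77 / 100) :
    -(Real.pi * (t + 5 * h * (77 / 100 - μ))) + Real.pi * (5 * h) * (a + μ - 1 / 2) -
      NumI.lnA (μ - a) (5 * h * (77 / 100 - μ) - t) -
      5 * h * NumI.lnB (μ - a) (5 * h * (77 / 100 - μ) - t) < 0 := by
  have hc : chk [eD] 40 [V.of 10000 2600 3000, V.of 10000 0 280, V.of 10000 0 500,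
    V.of 10000 5700 7700] = true := by decide +kernel
  exact eD_val (pos_of_chk (chk4 hc (by norm_num) (x := a) (y := t) (z := h) (w := μ)
    (by norm_num; linarith only [a0]) (by norm_num; linarith only [a1]) (by norm_num; linarith only [t0]) (by norm_num; linarith only [t1])
    (by norm_num; linarith only [h0]) (by norm_num; linarith only [h1]) (by norm_num; linarith only [m0]) (by norm_num; linarith only [m1])))

/-- the right ramp is excluded by its first-order condition -/
theorem right_false {v : ℂ} {h μ a t : ℝ} (ha : v.re = a) (ht : v.im = t) (H : MaxM v h μ)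
    (a0 : 0 < a) (hm : 57 / 100 < μ) (hx : 0 < μ - a)
    (row : -(Real.pi * (t + 5 * h * (77 / 100 - μ))) + Real.pi * (5 * h) * (a + μ - 1 / 2) -
      NumI.lnA (μ - a) (5 * h * (77 / 100 - μ) - t) -
      5 * h * NumI.lnB (μ - a) (5 * h * (77 / 100 - μ) - t) < 0) : False := by
  have hs : mpt h μ - v ∈ strip := by
    constructor
    · rw [Complex.sub_re, mpt_re, ha]
      exact hx
    · rw [Complex.sub_re, mpt_re, ha]
      linarith only [a0, hx, H, H.m1]
  have h1 := H.ramp_right hm (Or.inr hs)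
  rw [Num.LL_lnA hs, Num.YY_lnB hs, Complex.sub_re, Complex.sub_im, mpt_re,
    mpt_right hm.le H.m1, ha, ht] at h1
  linarith only [row, h1]

end L3

end Pool.Agent.Work.MP_b30479_gt.G2
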