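import Pool.Agent.Work.MP_b30479_gt.G2.ML3e

/-!
# END 3, location of the inner variable: next to an end with two or three crossings
-/

namespace Pool.Agent.Work.MP_b30479_gt.G2

open Finset VOL Filter Topology

namespace L3

open Pool.Agent.Work.NumI Pool.Agent.Work.NumI.E

theorem log_27 : 40 / 100 ≤ Real.log (2 * Real.sin (Real.pi * (27 / 100))) := by
  have h : chk [sub (log (mul (q 2 1) (sinPi (q 27 100)))) (q 40 100)] 1 [] = true := by
    decide +kernel
  have hp := pos_of_chk (chk_sound h (xs := []) List.Forall₂.nil)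
  simp only [E.val] at hp
  push_cast at hp
  simp only [div_one] at hp
  linarith only [hp]

theorem rowE {a t h μ : ℝ} (a0 : 0 ≤ a) (a1 : a ≤ 30 / 100) (t0 : -(69 / 1000) ≤ t) (t1 : t ≤ 0)
    (h0 : -(27 / 1000) ≤ h) (h1 : h ≤ -(19 / 1000)) (m0 : 57 / 100 ≤ μ) (m1 : μ ≤ 77 / 100) :
    -(Real.pi * (t + 5 * h * (77 / 100 - μ))) + Real.pi * (5 * h) * (a + μ - 1 / 2) -
      NumI.lnA (μ - a) (5 * h * (77 / 100 - μ) - t) -
      5 * h * NumI.lnB (μ - a) (5 * h * (77 / 100 - μ) - t) < 0 := by
  have hc : chk [eD] 40 [V.of 10000 0 3000, V.of 10000 (-690) 0, V.of 10000 (-270) (-190),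
    V.of 10000 5700 7700] = true := by decide +kernel
  exact eD_val (pos_of_chk (chk4 hc (by norm_num) (x := a) (y := t) (z := h) (w := μ)
    (by norm_num; linarith only [a0]) (by norm_num; linarith only [a1]) (by norm_num; linarith only [t0]) (by norm_num; linarith only [t1])
    (by norm_num; linarith only [h0]) (by norm_num; linarith only [h1]) (by norm_num; linarith only [m0]) (by norm_num; linarith only [m1])))

theorem rowT {a t h μ : ℝ} (a0 : 0 ≤ a) (a1 : a ≤ 30 / 100) (t0 : -(1 / 1000) ≤ t)
    (t1 : t ≤ 1 / 1000) (h0 : -(2 / 1000) ≤ h) (h1 : h ≤ 2 / 1000) (m0 : 57 / 100 ≤ μ)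
    (m1 : μ ≤ 77 / 100) :
    -(Real.pi * (t + 5 * h * (77 / 100 - μ))) + Real.pi * (5 * h) * (a + μ - 1 / 2) -
      NumI.lnA (μ - a) (5 * h * (77 / 100 - μ) - t) -
      5 * h * NumI.lnB (μ - a) (5 * h * (77 / 100 - μ) - t) < 0 := by
  have hc : chk [eD] 40 [V.of 10000 0 3000, V.of 10000 (-10) 10, V.of 10000 (-20) 20,
    V.of 10000 5700 7700] = true := by decide +kernel
  exact eD_val (pos_of_chk (chk4 hc (by norm_num) (x := a) (y := t) (z := h) (w := μ)
    (by norm_num; linarith only [a0]) (by norm_num; linarith only [a1]) (by norm_num; linarith only [t0]) (by norm_num; linarith only [t1])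
    (by norm_num; linarith only [h0]) (by norm_num; linarith only [h1]) (by norm_num; linarith only [m0]) (by norm_num; linarith only [m1])))

/-! ### left ramp, next to an end with two crossings; variables `a t h x`, `μ = a + x` -/

def k2 : E := mul (q 10 1) (var 2)
def emu : E := add (var 0) (var 3)
def y2 : E := sub (mul k2 emu) (var 1)
def eL : E := add (sub (neg (mul pi (add (var 1) (mul k2 emu))))
    (mul (mul pi k2) (sub (add (var 0) emu) (q 1 2))))
  (sub (mul k2 (lnB (var 3) y2)) (lnA (var 3) y2))
def eLc : E := sub emu (q 1 10)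

theorem rowEL {a t h x : ℝ} (a0 : 0 ≤ a) (t0 : -(69 / 1000) ≤ t) (t1 : t ≤ 0)
    (h0 : -(27 / 1000) ≤ h) (h1 : h ≤ -(19 / 1000)) (x0 : 45 / 1000 ≤ x) (m1 : a + x ≤ 1 / 10) :
    0 < -(Real.pi * (t + 10 * h * (a + x))) - Real.pi * (10 * h) * (a + (a + x) - 1 / 2) -
      NumI.lnA x (10 * h * (a + x) - t) + 10 * h * NumI.lnB x (10 * h * (a + x) - t) := by
  have hc : chk [eL, eLc] 40 [V.of 10000 0 1000, V.of 10000 (-690) 0, V.of 10000 (-270) (-190),
    V.of 10000 450 1000] = true := by decide +kernel
  obtain ⟨e, he, hp⟩ := chk4 hc (by norm_num) (x := a) (y := t) (z := h) (w := x)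
    (by norm_num; linarith only [a0]) (by norm_num; linarith only [x0, m1]) (by norm_num; linarith only [t0]) (by norm_num; linarith only [t1])
    (by norm_num; linarith only [h0]) (by norm_num; linarith only [h1]) (by norm_num; linarith only [x0]) (by norm_num; linarith only [a0, m1])
  simp only [List.mem_cons, List.not_mem_nil, or_false] at he
  rcases he with rfl | rfl
  · simp only [eL, k2, emu, y2, E.val, lkR] at hp
    push_cast at hp
    simp only [div_one] at hp
    linarith only [hp]
  · simp only [eLc, emu, E.val, lkR] at hp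
    push_cast at hp
    linarith only [m1, hp]

/-- polynomial part of the comparison of values -/
theorem polyE {w S H μ : ℝ} (w0 : 0 ≤ w) (w1 : w ≤ 1 / 20) (S0 : 0 ≤ S) (S1 : S ≤ 69 / 1000)
    (Sa : S ≤ 69 / 100 * (w + μ)) (H0 : 19 / 1000 ≤ H) (H1 : H ≤ 27 / 1000) (m0 : 0 ≤ μ)
    (m1 : μ ≤ 1 / 10) :
    S * (5 / 6 - w) + H * (1 / 3 - 2 * w - 17 * μ + 10 * w * μ + 20 * μ ^ 2) ≤ 51 / 1000 := by
  have hc : chk [sub (q 51 1000) (add (mul (var 1) (sub (q 5 6) (var 0)))
      (mul (var 2) (add (sub (sub (q 1 3) (mul (q 2 1) (var 0))) (mul (q 17 1) (var 3)))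
        (add (mul (mul (q 10 1) (var 0)) (var 3)) (mul (q 20 1) (sq (var 3))))))),
      sub (var 1) (mul (q 69 100) (add (var 0) (var 3)))] 40
      [V.of 10000 0 500, V.of 10000 0 690, V.of 10000 190 270, V.of 10000 0 1000] = true := by
    decide +kernel
  obtain ⟨e, he, hp⟩ := chk4 hc (by norm_num) (x := w) (y := S) (z := H) (w := μ)
    (by norm_num; linarith only [w0]) (by norm_num; linarith only [w1]) (by norm_num; linarith only [S0]) (by norm_num; linarith only [S1])
    (by norm_num; linarith only [H0]) (by norm_num; linarith only [H1]) (by norm_num; linarith only [m0]) (by norm_num; linarith only [m1])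
  simp only [List.mem_cons, List.not_mem_nil, or_false] at he
  rcases he with rfl | rfl
  · simp only [E.val, lkR] at hp
    push_cast at hp
    simp only [div_one] at hp
    linarith only [hp]
  · simp only [E.val, lkR] at hp
    push_cast at hp
    linarith only [Sa, hp]

section
variable {v : ℂ} {h μ a t : ℝ} (ha : v.re = a) (ht : v.im = t) (H : MaxM v h μ)
  (a0 : 0 < a) (a1 : a ≤ 30 / 100) (t0 : -(69 / 1000) ≤ t) (t1 : t ≤ 0)
  (h0 : -(27 / 1000) ≤ h) (h1 : h ≤ -(19 / 1000)) (ta : -(69 / 100 * a) ≤ t)

include ha ht H a0 a1 t0 t1 h0 h1 ta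

/-- the hinge is to the left of the inner variable -/
theorem E_left (hw : μ ≤ a) : False := by
  have hp2 : Real.pi < 31416 / 10000 := by
    have := Real.pi_lt_d4
    norm_num at this ⊢
    linarith only [this]
  have hpi := Real.pi_pos
  have m0 := H.m0
  have e := gap ha ht H a0.le (by linarith only [a0, a1]) hw
  have l6 := lam_6
  set w := a - μ with hwd
  have w0 : 0 ≤ w := by linarith only [hw]
  have haw : a = w + μ := by rw [hwd]; ring
  have step : ∀ B : ℝ, 0 ≤ B → t * (w + 1 / 6) + h * (2 * a - 1 / 3) -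
      (mpt h μ).im * (a + μ - 1 / 2) + |(mpt h μ).im - t| ≤ B →
      lam (1 / 6) + lam w ≤ 31416 / 10000 * B := fun B hB hB2 =>
    e.trans ((mul_le_mul_of_nonneg_left hB2 hpi.le).trans (mul_le_mul_of_nonneg_right hp2.le hB))
  have lw : 0 ≤ lam w ∧ (1 / 20 ≤ w → 97 / 1000 ≤ lam w) := by
    rcases le_total w (1 / 20) with c1 | c1
    · have := lam_a w0 c1
      refine ⟨by nlinarith only [hw, this], fun c => ?_⟩
      have c2 : w = 1 / 20 := by linarith only [c, c1]
      rw [c2] at this ⊢
      linarith only [a0, a1, this]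
    rcases le_total w (1 / 10) with c2 | c2
    · have := lam_b c1 c2
      exact ⟨by linarith only [a0, a1, c1, this], fun _ => by linarith only [a0, a1, c1, this]⟩
    rcases le_total w (1 / 6) with c3 | c3
    · have := lam_c c2 c3
      exact ⟨by linarith only [a0, a1, c2, this], fun _ => by linarith only [a0, a1, c2, this]⟩
    rcases le_total w (1 / 4) with c4 | c4
    · have := lam_d c3 c4
      exact ⟨by linarith only [a0, a1, m0, this], fun _ => by linarith only [a0, a1, m0, this]⟩
    · have := lam_e c4 (by linarith only [a0, a1, m0])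
      exact ⟨by linarith only [a0, a1, m0, this], fun _ => by linarith only [a0, a1, m0, this]⟩
  rcases le_total μ (1 / 10) with hm | hm
  · have hi := mpt_left (h := h) m0 hm
    rcases le_or_gt 0 ((mpt h μ).im - t) with hy | hy
    · rw [abs_of_nonneg hy, hi] at step
      have hX : t * (w + 1 / 6) + h * (2 * a - 1 / 3) - 10 * h * μ * (a + μ - 1 / 2) +
          (10 * h * μ - t) = -t * (5 / 6 - w) +
            -h * (1 / 3 - 2 * w - 17 * μ + 10 * w * μ + 20 * μ ^ 2) := by
        rw [haw]
        ring
      rw [hX] at step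
      rcases le_total w (1 / 20) with c1 | c1
      · have := step _ (by norm_num) (polyE w0 c1 (by linarith only [t1]) (by linarith only [t0])
          (by rw [← haw]; linarith only [ta]) (by linarith only [h1]) (by linarith only [h0]) m0 hm)
        linarith only [l6, lw, this, lw.1]
      · have k1 : -t * (5 / 6 - w) ≤ 69 / 1000 * (5 / 6 - 1 / 20) := by
          calc -t * (5 / 6 - w) ≤ -t * (5 / 6 - 1 / 20) :=
                mul_le_mul_of_nonneg_left (by linarith only [c1]) (by linarith only [t1])
            _ ≤ _ := mul_le_mul_of_nonneg_right (by linarith only [t0]) (by norm_num)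
        have k2 : -h * (1 / 3 - 2 * w - 17 * μ + 10 * w * μ + 20 * μ ^ 2) ≤ 27 / 1000 * (1 / 3) := by
          have : 1 / 3 - 2 * w - 17 * μ + 10 * w * μ + 20 * μ ^ 2 ≤ 1 / 3 := by nlinarith only [a0, a1, m0, hw]
          calc _ ≤ -h * (1 / 3) := mul_le_mul_of_nonneg_left this (by linarith only [h1])
            _ ≤ _ := mul_le_mul_of_nonneg_right (by linarith only [h0]) (by norm_num)
        have := step (69 / 1000 * (5 / 6 - 1 / 20) + 27 / 1000 * (1 / 3)) (by norm_num)
          (by linarith only [k1, k2])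
        linarith only [l6, this, lw, c1, lw.2 c1]
    · rw [abs_of_neg hy, hi] at step
      have hX : t * (w + 1 / 6) + h * (2 * a - 1 / 3) - 10 * h * μ * (a + μ - 1 / 2) +
          -(10 * h * μ - t) = t * (w + 7 / 6) + -h * (1 / 3 - 2 * a + 10 * μ * (a + μ + 1 / 2)) := by
        ring
      rw [hX] at step
      have k1 : t * (w + 7 / 6) ≤ 0 := mul_nonpos_of_nonpos_of_nonneg t1 (by linarith only [a0, hm])
      have k2 : -h * (1 / 3 - 2 * a + 10 * μ * (a + μ + 1 / 2)) ≤ 27 / 1000 * (5 / 4) := by
        have k3 : 10 * μ * (a + μ + 1 / 2) ≤ 1 * (9 / 10) := by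
          apply mul_le_mul (by linarith only [hm]) (by linarith only [a1, hm]) (by linarith only [a0, a1, m0]) (by norm_num)
        calc _ ≤ -h * (5 / 4) := mul_le_mul_of_nonneg_left (by linarith only [a0, k3]) (by linarith only [h1])
          _ ≤ _ := mul_le_mul_of_nonneg_right (by linarith only [h0]) (by norm_num)
      have := step (27 / 1000 * (5 / 4)) (by norm_num) (by linarith only [k1, k2])
      linarith only [l6, lw, this, lw.1]
  · have hi : (mpt h μ).im = h := mpt_mid hm (by linarith only [a0, a1, hw])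
    rw [hi] at step
    have k0 : |h - t| ≤ 5 / 100 := by rw [abs_le]; constructor <;> linarith only [a0, a1, t1, h0, t0, h1]
    have k1 : t * (w + 1 / 6) ≤ 0 := mul_nonpos_of_nonpos_of_nonneg t1 (by linarith only [a0, a1, hw])
    have hX : h * (2 * a - 1 / 3) - h * (a + μ - 1 / 2) = h * (w + 1 / 6) := by
      rw [hwd]; ring
    have k2 : h * (w + 1 / 6) ≤ 0 := mul_nonpos_of_nonpos_of_nonneg (by linarith only [a0, a1, h1]) (by linarith only [a0, a1, hw])
    have := step (5 / 100) (by norm_num) (by linarith only [k0, k1, k2])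
    linarith only [a0, a1, l6, lw, this, lw.1]

/-- left ramp, the hinge to the left of the inner variable -/
theorem E_b4 (hw : a < μ) (hm : μ < 1 / 10) : False := by
  have hp2 : Real.pi < 31416 / 10000 := by
    have := Real.pi_lt_d4
    norm_num at this ⊢
    linarith only [this]
  have hpi := Real.pi_pos
  have m0 := H.m0
  have hi := mpt_left (h := h) m0 hm.le
  have yb : (mpt h μ - v).im = 10 * h * μ - t := by rw [Complex.sub_im, hi, ht]
  have xb : (mpt h μ - v).re = μ - a := by rw [Complex.sub_re, mpt_re, ha]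
  have hs : mpt h μ - v ∈ strip := by
    constructor
    · rw [xb]; linarith only [hw]
    · rw [xb]; linarith only [a0, hw, hm]
  have f := H.ramp_left hm (Or.inr hs)
  rw [Num.LL_lnA hs, Num.YY_lnB hs, xb, yb, ha, ht] at f
  rcases le_total (45 / 1000) (μ - a) with c | c
  · have r := rowEL a0.le t0 t1 h0 h1 c (by linarith only [hm])
    rw [show a + (μ - a) = μ by ring] at r
    linarith only [f, r]
  · have f' := H.ramp_left hm (Or.inr hs)
    rw [ha, ht] at f'
    have a2 : a < 1 / 10 := by linarith only [hw, hm]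
    have g1 : -(Real.pi * (t + 10 * h * μ)) ≥ 0 := by
      have : 0 ≤ Real.pi * -(t + 10 * h * μ) := mul_nonneg hpi.le (by nlinarith only [t1, a0, h1, hw, c, a1])
      linarith only [this]
    have g2 : -(Real.pi * (10 * h) * (a + μ - 1 / 2)) ≥ -(4242 / 10000) := by
      have k1 : Real.pi * (-h * (1 / 2 - a - μ)) ≤ 31416 / 10000 * (27 / 1000 * (1 / 2)) := by
        apply mul_le_mul hp2.le _ _ (by norm_num)
        · apply mul_le_mul (by linarith only [h0]) (by linarith only [a0, hw]) (by linarith only [hw, hm, c]) (by norm_num)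
        · exact mul_nonneg (by linarith only [h1, hw, c]) (by linarith only [hw, hm, c])
      linarith only [hw, c, k1]
    rcases le_or_gt (10 * h * μ - t) 0 with hy | hy
    · have hL := LL_le_half (u := mpt h μ - v) (by
          rw [yb, abs_le]
          constructor <;> nlinarith only [t1, a0, h0, hw, hm, c, a1, hy]) (Or.inl (by rw [xb]; linarith only [hw]))
        (by rw [xb, abs_of_pos (by linarith only [hw])]; linarith only [hw, c])
      rw [xb, yb] at hL
      have yl : -(27 / 1000) ≤ 10 * h * μ - t := by nlinarith only [t1, a0, h0, hm, a1, hw]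
      have hY : 0 ≤ YY (mpt h μ - v) := by
        rcases hy.lt_or_eq with d | d
        · rw [YY_neg (by rw [yb]; exact d)]
          have := Tr_le_half (s := -(mpt h μ - v).im) (x := (mpt h μ - v).re)
            (by rw [yb]; linarith only [d]) (by rw [xb]; linarith only [c, yl, d])
          linarith only [this]
        · rw [YY_zero (by rw [yb]; exact d)]
      have f2 : 0 ≤ -(10 * h) * YY (mpt h μ - v) := mul_nonneg (by linarith only [h1, hw, c]) hY
      have x2 : (μ - a) ^ 2 ≤ (45 / 1000) ^ 2 := pow_le_pow_left₀ (by linarith only [hw]) c 2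
      have y2 : (10 * h * μ - t) ^ 2 ≤ (27 / 1000) ^ 2 := by
        rw [← neg_sq]
        exact pow_le_pow_left₀ (by linarith only [hy]) (by linarith only [yl]) 2
      have y4 : (10 * h * μ - t) ^ 2 * (1 + 1106 / 100 * (10 * h * μ - t) ^ 2) ≤
          (27 / 1000) ^ 2 * (1 + 1106 / 100 * (27 / 1000) ^ 2) := by
        apply mul_le_mul y2 (by linarith only [y2]) (by positivity) (by positivity)
      nlinarith only [hw, c, f', g1, g2, hL, f2, x2, y4]
    · have yu : 10 * h * μ - t ≤ 5 / 100 := by nlinarith only [h1, ta, a0, hw, hm, a1, t0, h0]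
      have hL := LL_le_fifth (u := mpt h μ - v) (by
          rw [yb, abs_of_pos hy]
          linarith only [hw, c, yu]) (by rw [yb]; exact hy.ne')
      rw [xb, yb] at hL
      have hY : -(Real.pi / 2) ≤ YY (mpt h μ - v) := by
        rw [YY_pos (by rw [yb]; exact hy)]
        have := pi_mul_le_Tr (x := (mpt h μ - v).re) (s := (mpt h μ - v).im)
          (by rw [xb]; linarith only [hw]) (by rw [xb]; linarith only [hw, c]) (by rw [yb]; exact hy)
        have k : 0 ≤ Real.pi * (mpt h μ - v).re := mul_nonneg hpi.le (by rw [xb]; linarith only [hw])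
        linarith only [this, k]
      have f2 : -(4242 / 10000) ≤ -(10 * h) * YY (mpt h μ - v) := by
        have k1 : -(10 * h) * (-(Real.pi / 2)) ≤ -(10 * h) * YY (mpt h μ - v) :=
          mul_le_mul_of_nonneg_left hY (by linarith only [h1, hw, c])
        have k2 : Real.pi * -h ≤ 31416 / 10000 * (27 / 1000) := by
          apply mul_le_mul hp2.le (by linarith only [h0]) (by linarith only [h1, hw, c]) (by norm_num)
        linarith only [hw, c, k1, k2]
      have x2 : (μ - a) ^ 2 ≤ (45 / 1000) ^ 2 := pow_le_pow_left₀ (by linarith only [hw]) c 2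
      have y2 : (10 * h * μ - t) ^ 2 ≤ (5 / 100) ^ 2 := pow_le_pow_left₀ hy.le yu 2
      have y2' : (10 * h * μ - t) ^ 2 ≤ (1 / 2 * a) ^ 2 :=
        pow_le_pow_left₀ hy.le (by nlinarith only [hw, c, f', g1, g2, hL, f2, x2, y2]) 2
      have y3 : (1 / 2 * a) ^ 2 ≤ a / 40 := by nlinarith only [hw, c, f', g1, g2, hL, f2, x2, y2]
      have y4 : (10 * h * μ - t) ^ 2 * (1 + 1106 / 100 * (10 * h * μ - t) ^ 2) ≤
          a / 40 * (1 + 1106 / 100 * (5 / 100) ^ 2) := by
        apply mul_le_mul (y2'.trans y3) (by linarith only [hw, hm, y2', y3]) (by positivity) (by positivity)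
      -- the positive part of the linear terms
      have g3 : -(Real.pi * (10 * h) * (a + μ - 1 / 2)) ≥ -(4242 / 10000) + 1 * a := by
        have k1 : Real.pi * (-h * (1 / 2 - a - μ)) ≤ 31416 / 10000 * (27 / 1000 * (1 / 2 - 2 * a)) := by
          apply mul_le_mul hp2.le _ _ (by norm_num)
          · apply mul_le_mul (by linarith only [hw, hm, c, f', g1, g2, hL, f2, x2, y4]) (by linarith only [hw, hm, c, f', g1, g2, hL, f2, x2, y4]) (by linarith only [hw, hm, c, f', g1, g2, hL, f2, x2, y4]) (by norm_num)
          · exact mul_nonneg (by linarith only [hw, hm, c, f', g1, g2, hL, f2, x2, y4]) (by linarith only [hw, hm, c, f', g1, g2, hL, f2, x2, y4])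
        linarith only [hw, hm, c, f', g1, g2, hL, f2, x2, y4]
      have g4 : -(Real.pi * (t + 10 * h * μ)) ≥ 5 / 10 * a := by
        have k1 : 3 * (-(t + 10 * h * μ)) ≤ Real.pi * -(t + 10 * h * μ) :=
          mul_le_mul_of_nonneg_right (by linarith only [hw, hm, c, f', g1, g2, hL, f2, x2, y4, Real.pi_gt_three]) (by nlinarith only [hw, hm, c, f', g1, g2, hL, f2, x2, y4])
        nlinarith only [hw, hm, c, f', g1, g2, hL, f2, x2, y4]
      nlinarith only [hw, hm, c, f', g1, g2, hL, f2, x2, y4]

/-- the left knee -/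
theorem E_knee (hw : a < μ) (hm : μ = 1 / 10) : False := by
  have hpi := Real.pi_pos
  have hi : (mpt h μ).im = h := mpt_mid hm.ge (by rw [hm]; norm_num)
  have yb : (mpt h μ - v).im = h - t := by rw [Complex.sub_im, hi, ht]
  have xb : (mpt h μ - v).re = μ - a := by rw [Complex.sub_re, mpt_re, ha]
  have hs : Complex.sin (Real.pi * (mpt h μ - v)) ≠ 0 := by
    apply sin_ne_of_re
    · rw [xb, abs_of_pos (by linarith only [hw])]; linarith only [hw]
    · rw [xb, abs_of_pos (by linarith only [hw])]; linarith only [a0, hw, hm]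
  have f := H.level_right hm.ge (by rw [hm]; norm_num) hs
  rw [ht] at f
  have y0 : |h - t| ≤ 5 / 100 := by rw [abs_le]; constructor <;> linarith only [a0, t1, h0, hw, hm, h1, ta]
  have h2 := LL_le_half (u := mpt h μ - v) (by rw [yb]; linarith only [a0, hw, hm, y0])
    (Or.inl (by rw [xb]; linarith only [hw])) (by rw [xb, abs_of_nonneg (by linarith only [hw])]; linarith only [a0, hw, hm])
  rw [xb, yb] at h2
  have x2 : (μ - a) ^ 2 ≤ (1 / 10) ^ 2 := pow_le_pow_left₀ (by linarith only [hw]) (by linarith only [a0, hm]) 2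
  have y2 : (h - t) ^ 2 ≤ (5 / 100) ^ 2 := by
    rw [← sq_abs]
    exact pow_le_pow_left₀ (abs_nonneg _) y0 2
  have y4 : (h - t) ^ 2 * (1 + 1106 / 100 * (h - t) ^ 2) ≤
      (5 / 100) ^ 2 * (1 + 1106 / 100 * (5 / 100) ^ 2) := by
    apply mul_le_mul y2 (by linarith only [y2]) (by positivity) (by positivity)
  have k : 0 ≤ Real.pi * -(t + h) := mul_nonneg hpi.le (by linarith only [a0, t1, h1, hw, hm])
  nlinarith only [a0, hw, hm, f, h2, x2, y4, k]

/-- **Location of the inner variable, next to an end with two crossings.** -/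
theorem locE : LocM v h μ := by
  have hpi := Real.pi_pos
  have hp2 : Real.pi < 31416 / 10000 := by
    have := Real.pi_lt_d4
    norm_num at this ⊢
    linarith only [this]
  have xb : (mpt h μ - v).re = μ - a := by rw [Complex.sub_re, mpt_re, ha]
  have kap : -(Real.pi * (t + h)) ≤ 31 / 100 := by nlinarith only [a1, hp2, a0, t0, hpi, h0]
  rcases le_or_gt μ a with d | d
  · exact (E_left ha ht H a0 a1 t0 t1 h0 h1 ta d).elim
  have hs : Complex.sin (Real.pi * (mpt h μ - v)) ≠ 0 := by
    apply sin_ne_of_re
    · rw [xb]; exact abs_pos.2 (by linarith only [d])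
    · rw [xb, abs_lt]; constructor <;> linarith only [a0, a1, d, H, H.m1]
  rcases lt_trichotomy μ (1 / 10) with c | c | c
  · exact (E_b4 ha ht H a0 a1 t0 t1 h0 h1 ta d c).elim
  · exact (E_knee ha ht H a0 a1 t0 t1 h0 h1 ta d c).elim
  · rcases lt_trichotomy μ (57 / 100) with e | e | e
    · have f1 := H.level_right c.le e hs
      have f2 := H.level_left c e.le hs
      refine ⟨c, e, by rw [ha]; linarith only [d], ?_, le_antisymm f2 f1⟩
      rw [ha]
      by_contra hcon
      push Not at hcon
      have e := LL_ge_real (x := 27 / 100) (u := mpt h μ - v) (by norm_num)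
        (by rw [xb]; linarith only [a0, e, hcon]) (by rw [xb]; linarith only [a0, e, hcon])
      have := log_27
      rw [ht] at f2
      linarith
    · exfalso
      have f2 := H.level_left c e.le hs
      rw [ht] at f2
      have e := LL_ge_real (x := 27 / 100) (u := mpt h μ - v) (by norm_num)
        (by rw [xb]; linarith only [a1, e]) (by rw [xb]; linarith only [a0, d, e])
      have := log_27
      linarith only [kap, f2, e, this]
    · exact (right_false ha ht H a0 e (by linarith only [d])
        (rowE a0.le a1 t0 t1 h0 h1 e.le H.m1)).elim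

end

section
variable {v : ℂ} {h μ a t : ℝ} (ha : v.re = a) (ht : v.im = t) (H : MaxM v h μ)
  (a0 : 0 < a) (a1 : a ≤ 30 / 100) (t0 : -(1 / 1000) ≤ t) (t1 : t ≤ 1 / 1000)
  (h0 : -(2 / 1000) ≤ h) (h1 : h ≤ 2 / 1000)

include ha ht H a0 a1 t0 t1 h0 h1

theorem T_im : |(mpt h μ).im| ≤ 2 / 1000 := by
  have hh : |h| ≤ 2 / 1000 := abs_le.2 ⟨h0, h1⟩
  have hi : |(mpt h μ).im| ≤ |h| := by
    rw [mpt_im, abs_mul]
    apply mul_le_of_le_one_right (abs_nonneg h)
    unfold tr
    rw [abs_le]
    constructor
    · linarith only [a0, a1, le_max_left 0 (min 1 (min ((μ - 0) / (1 / 10)) ((77 / 100 - μ) / (1 / 5))))]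
    · exact max_le zero_le_one (min_le_left _ _)
  linarith only [hh, hi]

theorem T_left (hw : μ ≤ a) : False := by
  have hp2 : Real.pi < 31416 / 10000 := by
    have := Real.pi_lt_d4
    norm_num at this ⊢
    linarith only [this]
  have hpi := Real.pi_pos
  have m0 := H.m0
  have e := gap ha ht H a0.le (by linarith only [a0, a1]) hw
  have l6 := lam_6
  have lw : 0 ≤ lam (a - μ) := by
    rcases le_total (a - μ) (1 / 20) with c1 | c1
    · have := lam_a (w := a - μ) (by linarith only [hw]) c1
      nlinarith only [hw, this]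
    rcases le_total (a - μ) (1 / 10) with c2 | c2
    · have := lam_b c1 c2
      linarith only [a0, a1, c1, this]
    rcases le_total (a - μ) (1 / 6) with c3 | c3
    · have := lam_c c2 c3
      linarith only [a0, a1, c2, this]
    rcases le_total (a - μ) (1 / 4) with c4 | c4
    · have := lam_d c3 c4
      linarith only [a0, a1, m0, this]
    · have := lam_e c4 (by linarith only [a0, a1, m0])
      linarith only [a0, a1, m0, this]
  have hi := abs_le.1 (T_im ha ht H a0 a1 t0 t1 h0 h1)
  have k1 : t * (a - μ + 1 / 6) ≤ 1 / 1000 * (1 / 2) := by nlinarith only [a1, t1, a0, t0, m0, hw]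
  have k2 : h * (2 * a - 1 / 3) ≤ 2 / 1000 * (1 / 2) := by nlinarith only [h1, a0, a1, h0]
  have k3 : -((mpt h μ).im * (a + μ - 1 / 2)) ≤ 2 / 1000 * (1 / 2) := by nlinarith only [m0, a0, a1, hi, hw]
  have k4 : |(mpt h μ).im - t| ≤ 3 / 1000 := by rw [abs_le]; constructor <;> linarith only [t1, hi, t0]
  have k5 : Real.pi * (t * (a - μ + 1 / 6) + h * (2 * a - 1 / 3) -
      (mpt h μ).im * (a + μ - 1 / 2) + |(mpt h μ).im - t|) ≤ 31416 / 10000 * (55 / 10000) := by
    calc _ ≤ Real.pi * (55 / 10000) := mul_le_mul_of_nonneg_left (by linarith only [k1, k2, k3, k4]) hpi.le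
      _ ≤ _ := mul_le_mul_of_nonneg_right hp2.le (by norm_num)
  linarith only [a0, a1, e, l6, lw, k5]

/-- **Location of the inner variable, all heights tiny.** -/
theorem locT : LocM v h μ := by
  have hpi := Real.pi_pos
  have hp2 : Real.pi < 31416 / 10000 := by
    have := Real.pi_lt_d4
    norm_num at this ⊢
    linarith only [this]
  have xb : (mpt h μ - v).re = μ - a := by rw [Complex.sub_re, mpt_re, ha]
  have kap : |Real.pi * (t + h)| ≤ 95 / 10000 := by
    rw [abs_mul, abs_of_pos hpi]
    have : |t + h| ≤ 3 / 1000 := by rw [abs_le]; constructor <;> linarith only [t0, h0, t1, h1]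
    calc _ ≤ 31416 / 10000 * (3 / 1000) := mul_le_mul hp2.le this (abs_nonneg _) (by norm_num)
      _ ≤ _ := by norm_num
  have kap' := abs_le.1 kap
  rcases le_or_gt μ a with d | d
  · exact (T_left ha ht H a0 a1 t0 t1 h0 h1 d).elim
  have hs : Complex.sin (Real.pi * (mpt h μ - v)) ≠ 0 := by
    apply sin_ne_of_re
    · rw [xb]; exact abs_pos.2 (by linarith only [d])
    · rw [xb, abs_lt]; constructor <;> linarith only [a0, a1, d, H, H.m1]
  have hi := abs_le.1 (T_im ha ht H a0 a1 t0 t1 h0 h1)
  have yb : (mpt h μ - v).im = (mpt h μ).im - t := by rw [Complex.sub_im, ht]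
  have y0 : |(mpt h μ).im - t| ≤ 3 / 1000 := by rw [abs_le]; constructor <;> linarith only [t1, hi, t0]
  have y2 : ((mpt h μ).im - t) ^ 2 ≤ (3 / 1000) ^ 2 := by
    rw [← sq_abs]
    exact pow_le_pow_left₀ (abs_nonneg _) y0 2
  have y4 : ((mpt h μ).im - t) ^ 2 * (1 + 1106 / 100 * ((mpt h μ).im - t) ^ 2) ≤
      (3 / 1000) ^ 2 * (1 + 1106 / 100 * (3 / 1000) ^ 2) := by
    apply mul_le_mul y2 (by linarith only [y2]) (by positivity) (by positivity)
  have hL : μ ≤ 1 / 10 → LL (mpt h μ - v) ≤ -(45 / 100) := by
    intro c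
    have h2 := LL_le_half (u := mpt h μ - v) (by rw [yb]; linarith only [a0, d, y0, c])
      (Or.inl (by rw [xb]; linarith only [d])) (by rw [xb, abs_of_nonneg (by linarith only [d])]; linarith only [a0, d, c])
    rw [xb, yb] at h2
    have x2 : (μ - a) ^ 2 ≤ (1 / 10) ^ 2 := pow_le_pow_left₀ (by linarith only [d]) (by linarith only [a0, c]) 2
    linarith only [a0, d, y4, c, h2, x2]
  rcases lt_trichotomy μ (1 / 10) with c | c | c
  · exfalso
    have hst : mpt h μ - v ∈ strip := by
      constructor
      · rw [xb]; linarith only [d]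
      · rw [xb]; linarith only [a0, d, c]
    have f := H.ramp_left c (Or.inr hst)
    have hY : |YY (mpt h μ - v)| ≤ 2 := by
      rcases lt_trichotomy (mpt h μ - v).im 0 with e | e | e
      · rw [YY_neg e, abs_le]
        have k1 := Tr_le_half (s := -(mpt h μ - v).im) (x := (mpt h μ - v).re) (by linarith only [e])
          (by rw [xb]; linarith only [a0, d, c])
        have k2 := pi_mul_le_Tr (x := (mpt h μ - v).re) (s := -(mpt h μ - v).im)
          (by rw [xb]; linarith only [d]) (by rw [xb]; linarith only [a0, d, c]) (by linarith only [e])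
        have k3 : 0 ≤ Real.pi * (mpt h μ - v).re := mul_nonneg hpi.le (by rw [xb]; linarith only [d])
        constructor <;> linarith only [k1, t1, hp2, hi, yb, e, k2, k3]
      · rw [YY_zero e]
        norm_num
      · rw [YY_pos e, abs_le]
        have k1 := Tr_le_half (s := (mpt h μ - v).im) (x := (mpt h μ - v).re) e
          (by rw [xb]; linarith only [a0, c])
        have k2 := pi_mul_le_Tr (x := (mpt h μ - v).re) (s := (mpt h μ - v).im)
          (by rw [xb]; linarith only [d]) (by rw [xb]; linarith only [a0, c]) e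
        have k3 : 0 ≤ Real.pi * (mpt h μ - v).re := mul_nonneg hpi.le (by rw [xb]; linarith only [d])
        constructor <;> linarith only [t0, hp2, hi, yb, e, k2, k3, k1]
    have hY' := abs_le.1 hY
    rw [ha, ht] at f
    have g0 := hL c.le
    have g1 : Real.pi * (t + 10 * h * μ) ≤ 95 / 10000 := by
      have e1 : |t + 10 * h * μ| ≤ 3 / 1000 := by
        rw [abs_le]; constructor <;> nlinarith only [t0, a0, h0, c, a1, d, t1, h1, H.m0]
      have e2 : Real.pi * (t + 10 * h * μ) ≤ Real.pi * (3 / 1000) :=
        mul_le_mul_of_nonneg_left (abs_le.1 e1).2 hpi.le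
      nlinarith only [a0, hp2, d, c, e2]
    have g2 : Real.pi * (10 * h) * (a + μ - 1 / 2) ≤ 7 / 100 := by
      have e1 : 10 * h * (a + μ - 1 / 2) ≤ 2 / 100 := by nlinarith only [h0, a0, h1, d, c, a1, H.m0]
      have e2 : Real.pi * (10 * h * (a + μ - 1 / 2)) ≤ Real.pi * (2 / 100) :=
        mul_le_mul_of_nonneg_left e1 hpi.le
      nlinarith only [a0, hp2, d, c, e2]
    have g3 : 10 * h * YY (mpt h μ - v) ≤ 4 / 100 := by
      have e1 : |10 * h * YY (mpt h μ - v)| ≤ 2 / 100 * 2 := by
        rw [abs_mul]
        apply mul_le_mul _ hY (abs_nonneg _) (by norm_num)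
        rw [abs_le]; constructor <;> linarith only [h0, h1]
      have := (abs_le.1 e1).2
      linarith only [a0, d, c, f, g0, g1, g2, this]
    linarith only [a0, d, c, f, g0, g1, g2, g3]
  · exfalso
    have f := H.level_right c.ge (by rw [c]; norm_num) hs
    rw [ht] at f
    have := hL c.le
    linarith only [a0, kap', d, c, f, this]
  · rcases lt_trichotomy μ (57 / 100) with e | e | e
    · have f1 := H.level_right c.le e hs
      have f2 := H.level_left c e.le hs
      refine ⟨c, e, by rw [ha]; linarith only [d], ?_, le_antisymm f2 f1⟩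
      rw [ha]
      by_contra hcon
      push Not at hcon
      have e := LL_ge_real (x := 27 / 100) (u := mpt h μ - v) (by norm_num)
        (by rw [xb]; linarith only [a0, e, hcon]) (by rw [xb]; linarith only [a0, e, hcon])
      have := log_27
      rw [ht] at f2
      linarith
    · exfalso
      have f2 := H.level_left c e.le hs
      rw [ht] at f2
      have e := LL_ge_real (x := 27 / 100) (u := mpt h μ - v) (by norm_num)
        (by rw [xb]; linarith only [a1, e]) (by rw [xb]; linarith only [a0, d, e])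
      have := log_27
      linarith only [kap', f2, e, this]
    · exact (right_false ha ht H a0 e (by linarith only [d])
        (rowT a0.le a1 t0 t1 h0 h1 e.le H.m1)).elim

end

end L3

end Pool.Agent.Work.MP_b30479_gt.G2
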