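import Pool.Agent.Work.MP_b30479_gt.G2.MPMir
import Pool.Agent.Work.MP_b30479_gt.G2.RMon

/-!
# The ring variable at a maximiser: normal form

`b ≥ 4`, the hinges `w`, `w'` (`0` if absent) are fixed, the ring variable is `LT.zt ρ σ`.
-/

namespace Pool.Agent.Work.MP_b30479_gt.G2

open Finset VOL Filter Topology

/-- the growth rate of a ring run as a function of the parameter of the ring variable -/
noncomputable def rg (b ρ : ℝ) (w w' : ℂ) (c : ℝ) : ℝ :=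
  -(2 * Real.pi * (ρ * LT.th c) * (b * c + 1)) + fR w (LT.zt ρ c) + fR w' (LT.zt ρ c)

/-- `σ` maximises `rg` -/
structure RM (b ρ : ℝ) (w w' : ℂ) (σ : ℝ) : Prop where
  b4 : 4 ≤ b
  ρ0 : 0 < ρ
  mem : |σ| ≤ 1 / 2
  mx : ∀ c, |c| ≤ 1 / 2 → rg b ρ w w' c ≤ rg b ρ w w' σ

theorem RM.symm {b ρ σ : ℝ} {w w' : ℂ} (h : RM b ρ w w' σ) : RM b ρ w' w σ :=
  ⟨h.b4, h.ρ0, h.mem, fun c hc => by have := h.mx c hc; unfold rg at *; linarith⟩

theorem fR_zero (ζ : ℂ) : fR 0 ζ = 0 := by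
  unfold fR
  have h1 := UU_one_sub (1 / 2 + ζ)
  have h2 := UU_one_sub (1 / 2 : ℂ)
  have h3 : UU 0 = 0 := by
    have h4 := UU_neg 0
    simp at h4
    linarith
  rw [show (1 : ℂ) - (1 / 2 + ζ) = 0 + 1 / 2 - ζ by ring, show (1 / 2 : ℂ) + ζ = 0 + 1 / 2 + ζ by ring] at h1
  rw [h1, h3]
  ring

theorem re_quad_ring (b : ℤ) (ρ c : ℝ) :
    (Real.pi * Complex.I * b * LT.zt ρ c ^ 2 + 2 * Real.pi * Complex.I * LT.zt ρ c).re =
      -(2 * Real.pi * (ρ * LT.th c) * (b * c + 1)) := by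
  unfold LT.zt
  simp [pow_two]
  ring

/-- the growth rate of a ring run in normal form -/
theorem V_ring_rg (b : ℤ) (l r : Bool) (x : Fin 3 → ℂ) (h0 : l = false → x 0 = 0)
    (h2 : r = false → x 2 = 0) {ρ c : ℝ} (h1 : x 1 = LT.zt ρ c) :
    (ldat .ring b l r).V (lx x) = rg b ρ (x 0) (x 2) c := by
  rw [V_ring, h1, re_quad_ring]
  unfold rg
  congr 1
  · congr 1
    cases l
    · rw [h0 rfl, fR_zero]; simp
    · simp [fR]
  · cases r
    · rw [h2 rfl, fR_zero]; simp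
    · simp [fR]

/-- **Transfer**: a maximiser of the growth rate of a ring run -/
theorem RM_of_ldat {b : ℤ} (hb : 4 ≤ b) {l r : Bool} {x : Fin 3 → ℂ} (h0 : l = false → x 0 = 0)
    (h2 : r = false → x 2 = 0) {ρ σ : ℝ} (hρ : 0 < ρ) (hσ : |σ| ≤ 1 / 2) (h1 : x 1 = LT.zt ρ σ)
    (mx : ∀ c, |c| ≤ 1 / 2 → (ldat .ring b l r).V (lx (Function.update x 1 (LT.zt ρ c))) ≤
      (ldat .ring b l r).V (lx x)) : RM b ρ (x 0) (x 2) σ := by
  refine ⟨by exact_mod_cast hb, hρ, hσ, fun c hc => ?_⟩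
  have h := mx c hc
  rw [V_ring_rg b l r x h0 h2 h1, V_ring_rg b l r (Function.update x 1 (LT.zt ρ c)) (by simpa using h0)
    (by simpa using h2) (c := c) (ρ := ρ) (by simp)] at h
  simpa using h

/-! ### hinges of a ring on their paths -/

/-- the hinge `w` of a ring, in the own frame of the ring, lies on its path; `T` is the height of
the saddle point in the own frame -/
structure RH (w : ℂ) (T XM cl cr : ℝ) : Prop where
  re0 : 0 ≤ w.re
  reM : w.re ≤ XM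
  im : w.im = T * tr 0 XM cl cr w.re

/-- the kinds of hinges of a ring: absent, next to a digit `1`, next to a `2` or `3`, next to a ring -/
inductive RKd
  | no | one | lo | rr
  deriving DecidableEq

/-- the ranges of the heights (they depend on the number `b` of crossings), with the parameters of
the paths -/
def RKd.ok : RKd → ℝ → ℂ → Prop
  | .no, _, w => w = 0
  | .one, b, w => ∃ T cr : ℝ, -(158 / 1000) ≤ T ∧ T ≤ -(38 / 1000) ∧ (b < 5 → -(128 / 1000) ≤ T) ∧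
      (b < 6 → -(138 / 1000) ≤ T) ∧ (29 / 100 ≤ cr ∧ cr ≤ 33 / 100) ∧
      RH w T (65 / 100) (16 / 100) cr
  | .lo, b, w => ∃ T cl cr : ℝ, -(131 / 1000) ≤ T ∧ T ≤ 0 ∧ (b < 5 → -(115 / 1000) ≤ T) ∧
      (1 / 10 ≤ cl ∧ cl ≤ 13 / 100) ∧ (30 / 100 ≤ cr ∧ cr ≤ 34 / 100) ∧ RH w T (60 / 100) cl cr
  | .rr, b, w => ∃ T : ℝ, -(385 / 10000) ≤ T ∧ T ≤ 56 / 1000 ∧ (b < 5 → -(25 / 1000) ≤ T) ∧
      (5 ≤ b → T ≤ 465 / 10000) ∧ RH w T (1 / 2) (1 / 10) (2 / 100)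

/-- caps for the imaginary part of the ring variable -/
def RCap (b ρ : ℝ) : Prop :=
  ρ ≤ 1045 / 10000 ∧ (5 ≤ b → ρ ≤ 725 / 10000) ∧ (6 ≤ b → ρ ≤ 52 / 1000) ∧
    (7 ≤ b → ρ ≤ 4 / 100) ∧ (8 ≤ b → b ^ 2 * ρ ≤ 23 / 10)

end Pool.Agent.Work.MP_b30479_gt.G2
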