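import Pool.Agent.Work.MP_b30479_gt.G2.ML3h
import Pool.Agent.Work.MP_b30479_gt.G2.RLev

/-!
# END 3: the side on the left ramp
-/

namespace Pool.Agent.Work.MP_b30479_gt.G2

open Finset VOL Filter Topology

namespace L3

open Pool.Agent.Work.NumI Pool.Agent.Work.NumI.E

/-- the height on the left ramp; variables `a T h x`, `icl = 1 / cl` -/
def etL (icl : E) : E := mul (mul icl (var 1)) (var 0)

/-- side plus shift -/
def eS (icl c : E) : E :=
  add (sub (neg (mul pi (add (etL icl) (mul (q 2 1) (var 2))))) (lnA (var 0) (etL icl)))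
    (mul (mul icl (var 1)) (add (sub (lnB (var 0) (etL icl)) (lnB (var 3) (sub (var 2) (etL icl))))
      (sub c (mul pi (add (var 3) (var 0))))))

/-- the same for small `a`, with a constant for the logarithm -/
def eS0 (icl c : E) : E :=
  add (sub (q 25 10) (mul pi (add (etL icl) (mul (q 2 1) (var 2)))))
    (mul (mul icl (var 1)) (sub (sub c (mul pi (add (var 3) (var 0))))
      (lnB (var 3) (sub (var 2) (etL icl)))))

/-- the first order condition of the inner variable -/
def eK (icl : E) : E := add (lnA (var 3) (sub (var 2) (etL icl))) (mul pi (add (etL icl) (var 2)))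

theorem LL_small {a m : ℝ} (a0 : 0 < a) (a1 : a ≤ 1 / 100) (hm : |m| ≤ 7 / 10) {v : ℂ} (hr : v.re = a)
    (hi : v.im = m * a) : LL v ≤ -(25 / 10) := by
  have hm2 : m ^ 2 ≤ 49 / 100 := by
    rw [← sq_abs]
    have := pow_le_pow_left₀ (abs_nonneg m) hm 2
    linarith only [this]
  have hpi := Real.pi_pos
  have hia : |v.im| ≤ 115 / 1000 := by
    rw [hi, abs_mul, abs_of_pos a0]
    nlinarith only [a1, a0, hm]
  have h1 := arg_le hia
  rw [hr, hi] at h1
  have i2 : (m * a) ^ 2 ≤ 49 / 100 * a ^ 2 := by nlinarith only [hm2, sq_nonneg a]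
  have a2 : a ^ 2 ≤ (1 / 100) ^ 2 := pow_le_pow_left₀ a0.le a1 2
  have z1 : 2 * Real.cosh (2 * Real.pi * (m * a)) - 2 * Real.cos (2 * Real.pi * a) ≤ 589 / 100000 := by
    refine h1.trans ?_
    have : (m * a) ^ 2 * (1 + 1106 / 100 * (m * a) ^ 2) ≤ 49 / 100 * a ^ 2 * (1 + 1106 / 100 * (1 / 100) ^ 2) := by
      apply mul_le_mul i2 (by linarith only [a0, a1, i2, a2]) (by positivity) (by positivity)
    nlinarith only [a0, a1, a2, this]
  have hpos : 0 < 2 * Real.cosh (2 * Real.pi * (m * a)) - 2 * Real.cos (2 * Real.pi * a) := by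
    have h4 : Real.cos (2 * Real.pi * a) = 1 - 2 * Real.sin (Real.pi * a) ^ 2 := by
      rw [mul_assoc, Real.cos_two_mul, Real.cos_sq']
      ring
    have h5 := sin_pi_pos a0 (by linarith only [a0, a1])
    have h6 := Real.one_le_cosh (2 * Real.pi * (m * a))
    rw [h4]
    have := pow_pos h5 2
    linarith only [h6, this]
  rw [LL_eq', hr, hi]
  have h7 : Real.log (2 * Real.cosh (2 * Real.pi * (m * a)) - 2 * Real.cos (2 * Real.pi * a)) ≤
      Real.log (589 / 100000) := Real.log_le_log hpos z1
  have h8 : Real.log (589 / 100000) < -(51 / 10) := by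
    have h : chk [sub (q (-51) 10) (log (q 589 100000))] 1 [] = true := by decide +kernel
    have hp := pos_of_chk (chk_sound h (xs := []) List.Forall₂.nil)
    simp only [E.val] at hp
    push_cast at hp
    linarith only [hp]
  linarith only [z1, hpos, h7, h8]

/-- **The side on the left ramp from numerical rows.** -/
theorem left_bound {B : SR.Cl} {T h μ a k c e : ℝ} {v : ℂ} (hT : HT B T h) (L : LocM v h μ)
    (k0 : 0 < k) (kT : |k * T| ≤ 7 / 10) (hr : v.re = a) (hi : v.im = k * T * a) (a0 : 0 < a)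
    (ka : k * a ≤ 1)
    (row : 1 / 100 ≤ a → ∀ x, 1 / 20 ≤ x → x ≤ 1 / 2 →
      NumI.lnA x (h - k * T * a) + Real.pi * (k * T * a + h) = 0 →
      e < -(Real.pi * (k * T * a + 2 * h)) - NumI.lnA a (k * T * a) +
        k * T * (NumI.lnB a (k * T * a) - NumI.lnB x (h - k * T * a) + (c - Real.pi * (x + a))))
    (row0 : a ≤ 1 / 100 → ∀ x, 1 / 20 ≤ x → x ≤ 1 / 2 →
      e < 25 / 10 - Real.pi * (k * T * a + 2 * h) +
        k * T * (c - Real.pi * (x + a) - NumI.lnB x (h - k * T * a))) :
    e < S3 1 (k * T) v (mpt h μ) + c * (k * T) := by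
  have hx := x_ge_class (τ := k * a) hT L (by positivity) ka (by rw [hi]; ring)
  have ha1 : a < 57 / 100 := by rw [← hr]; linarith only [hr, a0, hx, L, L.2.1, L.2.2.1]
  rw [S3_loc L]
  obtain ⟨l1, l2, l3, l4, l5⟩ := L
  rw [hr] at hx l3 l4
  have hst : v ∈ strip := ⟨by rw [hr]; exact a0, by rw [hr]; linarith only [l2, l3]⟩
  have yb : (mpt h μ - v).im = h - k * T * a := by rw [Complex.sub_im, mpt_mid l1.le l2.le, hi]
  have xb : (mpt h μ - v).re = μ - a := by rw [Complex.sub_re, mpt_re, hr]
  have hsu : mpt h μ - v ∈ strip := ⟨by rw [xb]; exact l3, by rw [xb]; linarith only [a0, l2, l3]⟩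
  rw [Num.LL_lnA hsu, xb, yb, hi] at l5
  rcases le_total (1 / 100) a with c1 | c1
  · have := row c1 (μ - a) hx.2 l4.le (by rw [l5]; ring)
    rw [Num.LL_lnA hst, Num.YY_lnB hst, Num.YY_lnB hsu, xb, yb, hr, hi]
    have e1 : μ - a + a = μ := by ring
    rw [e1] at this
    linarith only [this]
  · have h0 := row0 c1 (μ - a) hx.2 l4.le
    have hL := LL_small a0 c1 kT hr hi
    rw [Num.YY_lnB hsu, xb, yb, hi]
    have e1 : μ - a + a = μ := by ring
    rw [e1] at h0
    have hY : 0 ≤ -(k * T * YY v) := by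
      rcases lt_trichotomy v.im 0 with d | d | d
      · rw [YY_neg d]
        have h1 := Tr_le_half (s := -v.im) (x := v.re) (by linarith only [d]) (by rw [hr]; linarith only [a0, c1])
        have h2 : k * T < 0 := by
          rw [hi] at d
          by_contra hc
          push Not at hc
          nlinarith only [d, a0, hc]
        nlinarith only [hi, h1, a0, d]
      · rw [YY_zero d]
        simp
      · rw [YY_pos d]
        have h1 := Tr_le_half (s := v.im) (x := v.re) d (by rw [hr]; linarith only [a0, c1])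
        have h2 : 0 < k * T := by
          rw [hi] at d
          by_contra hc
          push Not at hc
          nlinarith only [d, a0, hc]
        nlinarith only [hi, h1, a0, d]
    linarith only [h0, hL, hY]

/-- evaluation of the expressions -/
theorem eS_val {icl c : E} {k γ a T h x : ℝ} (hk : icl.val [a, T, h, x] = k)
    (hc : c.val [a, T, h, x] = γ) : (eS icl c).val [a, T, h, x] =
      -(Real.pi * (k * T * a + 2 * h)) - NumI.lnA a (k * T * a) +
        k * T * (NumI.lnB a (k * T * a) - NumI.lnB x (h - k * T * a) + (γ - Real.pi * (x + a))) := by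
  simp only [eS, etL, E.val, lkR, hk, hc]
  norm_num

theorem eS0_val {icl c : E} {k γ a T h x : ℝ} (hk : icl.val [a, T, h, x] = k)
    (hc : c.val [a, T, h, x] = γ) : (eS0 icl c).val [a, T, h, x] =
      25 / 10 - Real.pi * (k * T * a + 2 * h) +
        k * T * (γ - Real.pi * (x + a) - NumI.lnB x (h - k * T * a)) := by
  simp only [eS0, etL, E.val, lkR, hk, hc]
  norm_num

theorem eK_val {icl : E} {k a T h x : ℝ} (hk : icl.val [a, T, h, x] = k) :
    (eK icl).val [a, T, h, x] =
      NumI.lnA x (h - k * T * a) + Real.pi * (k * T * a + h) := by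
  simp only [eK, etL, E.val, lkR, hk]

end L3

end Pool.Agent.Work.MP_b30479_gt.G2
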