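import Pool.Agent.Work.MP_b30479_gt.G2.ML3i
import Pool.Agent.Work.NumI.ChkS

/-!
# END 3: the side on the left ramp, numerical rows
-/

namespace Pool.Agent.Work.MP_b30479_gt.G2

open Finset VOL Filter Topology

namespace L3

open Pool.Agent.Work.NumI Pool.Agent.Work.NumI.E

def cN : E := sub (var 2) (add (q 655 10000) (mul (q 38 100) (var 1)))

theorem cN_val {a T h x : ℝ} (hp : 0 < cN.val [a, T, h, x]) : 655 / 10000 + 38 / 100 * T < h := by
  simp only [cN, E.val, lkR] at hp
  push_cast at hp
  linarith only [hp]

theorem left_one_h1_q1 : chk [sub (eS (q 100 14) (sub pi (mul (q 9 2) (var 0)))) (q (-34) 100), eK (q 100 14), neg (eK (q 100 14)), cN] 26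
    (NumI.setL 0 (NumI.setL 0 (NumI.setL 3 (NumI.setL 3 [V.of 10000 100 1400, V.of 10000 (-780) (-100), V.of 10000 50 620, V.of 10000 500 5000])))) = true := by
  decide +kernel

theorem left_one_h1_q2 : chk [sub (eS (q 100 14) (sub pi (mul (q 9 2) (var 0)))) (q (-34) 100), eK (q 100 14), neg (eK (q 100 14)), cN] 26
    (NumI.setR 0 (NumI.setL 0 (NumI.setL 3 (NumI.setL 3 [V.of 10000 100 1400, V.of 10000 (-780) (-100), V.of 10000 50 620, V.of 10000 500 5000])))) = true := by
  decide +kernel

theorem left_one_h1_q3 : chk [sub (eS (q 100 14) (sub pi (mul (q 9 2) (var 0)))) (q (-34) 100), eK (q 100 14), neg (eK (q 100 14)), cN] 26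
    (NumI.setL 0 (NumI.setR 0 (NumI.setL 3 (NumI.setL 3 [V.of 10000 100 1400, V.of 10000 (-780) (-100), V.of 10000 50 620, V.of 10000 500 5000])))) = true := by
  decide +kernel

theorem left_one_h1_q4 : chk [sub (eS (q 100 14) (sub pi (mul (q 9 2) (var 0)))) (q (-34) 100), eK (q 100 14), neg (eK (q 100 14)), cN] 25
    (NumI.setL 2 (NumI.setR 0 (NumI.setR 0 (NumI.setL 3 (NumI.setL 3 [V.of 10000 100 1400, V.of 10000 (-780) (-100), V.of 10000 50 620, V.of 10000 500 5000]))))) = true := by
  decide +kernel

theorem left_one_h1_q5 : chk [sub (eS (q 100 14) (sub pi (mul (q 9 2) (var 0)))) (q (-34) 100), eK (q 100 14), neg (eK (q 100 14)), cN] 24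
    (NumI.setL 1 (NumI.setR 2 (NumI.setR 0 (NumI.setR 0 (NumI.setL 3 (NumI.setL 3 [V.of 10000 100 1400, V.of 10000 (-780) (-100), V.of 10000 50 620, V.of 10000 500 5000])))))) = true := by
  decide +kernel

theorem left_one_h1_q6 : chk [sub (eS (q 100 14) (sub pi (mul (q 9 2) (var 0)))) (q (-34) 100), eK (q 100 14), neg (eK (q 100 14)), cN] 24
    (NumI.setR 1 (NumI.setR 2 (NumI.setR 0 (NumI.setR 0 (NumI.setL 3 (NumI.setL 3 [V.of 10000 100 1400, V.of 10000 (-780) (-100), V.of 10000 50 620, V.of 10000 500 5000])))))) = true := by
  decide +kernel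

theorem left_one_h1_q7 : chk [sub (eS (q 100 14) (sub pi (mul (q 9 2) (var 0)))) (q (-34) 100), eK (q 100 14), neg (eK (q 100 14)), cN] 28
    (NumI.setR 3 (NumI.setL 3 [V.of 10000 100 1400, V.of 10000 (-780) (-100), V.of 10000 50 620, V.of 10000 500 5000])) = true := by
  decide +kernel

theorem left_one_h1_q8 : chk [sub (eS (q 100 14) (sub pi (mul (q 9 2) (var 0)))) (q (-34) 100), eK (q 100 14), neg (eK (q 100 14)), cN] 29
    (NumI.setR 3 [V.of 10000 100 1400, V.of 10000 (-780) (-100), V.of 10000 50 620, V.of 10000 500 5000]) = true := by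
  decide +kernel

theorem left_one_h1 : chk [sub (eS (q 100 14) (sub pi (mul (q 9 2) (var 0)))) (q (-34) 100), eK (q 100 14), neg (eK (q 100 14)), cN] 30
    [V.of 10000 100 1400, V.of 10000 (-780) (-100), V.of 10000 50 620, V.of 10000 500 5000] = true :=
  NumI.chk_node (i := 3) (by decide +kernel)
    (NumI.chk_node (i := 3) (by decide +kernel)
      (NumI.chk_node (i := 0) (by decide +kernel)
        (NumI.chk_node (i := 0) (by decide +kernel)
          left_one_h1_q1
          left_one_h1_q2)
        (NumI.chk_node (i := 0) (by decide +kernel)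
          left_one_h1_q3
          (NumI.chk_node (i := 2) (by decide +kernel)
            left_one_h1_q4
            (NumI.chk_node (i := 1) (by decide +kernel)
              left_one_h1_q5
              left_one_h1_q6))))
      left_one_h1_q7)
    left_one_h1_q8

theorem left_one_h2 : chk [sub (eS0 (q 100 14) (sub pi (mul (q 9 2) (var 0)))) (q (-34) 100)] 30
    [V.of 10000 0 100, V.of 10000 (-780) (-100), V.of 10000 50 620, V.of 10000 500 5000] = true := by
  decide +kernel

/-- end 3 next to `one`, left ramp, `cl = 14 / 100` -/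
theorem left_one {T h μ a : ℝ} {v : ℂ} (hT : HT .one T h) (L : LocM v h μ)
    (hr : v.re = a) (hi : v.im = (100 / 14) * T * a) (a0 : 0 < a) (a1 : a ≤ 14 / 100) :
    -(34 / 100) < S3 1 ((100 / 14) * T) v (mpt h μ) + (Real.pi - 9 / 2 * a) * ((100 / 14) * T) := by
  have hT' := hT
  obtain ⟨T0, T1, h0, h1⟩ := hT
  have kv : ∀ x : ℝ, ((q 100 14) : E).val [a, T, h, x] = (100 / 14) := fun x => by
    simp only [E.val]; norm_num
  have cv : ∀ x : ℝ, ((sub pi (mul (q 9 2) (var 0))) : E).val [a, T, h, x] = (Real.pi - 9 / 2 * a) := fun x => by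
    simp only [E.val, lkR]; push_cast; ring
  refine left_bound hT' L (by norm_num) (by rw [abs_le]; constructor <;> linarith only [a0, a1, T0, T1]) hr hi a0
    (by linarith only [a1]) ?_ ?_
  · intro a2 x x0 x1 hK
    have hc : chk [sub (eS (q 100 14) (sub pi (mul (q 9 2) (var 0)))) (q (-34) 100), eK (q 100 14), neg (eK (q 100 14)), cN] 30
      [V.of 10000 100 1400, V.of 10000 (-780) (-100), V.of 10000 50 620, V.of 10000 500 5000] = true := left_one_h1
    obtain ⟨e, he, hp⟩ := chk4 hc (by norm_num) (x := a) (y := T) (z := h) (w := x)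
      (by norm_num; linarith only [a2]) (by norm_num; linarith only [a1]) (by norm_num; linarith only [T0])
      (by norm_num; linarith only [T1]) (by norm_num; linarith only [h0]) (by norm_num; linarith only [a0, a1, T1, h1])
      (by norm_num; linarith only [x0]) (by norm_num; linarith only [x1])
    simp only [List.mem_cons, List.not_mem_nil, or_false] at he
    rcases he with rfl | rfl | rfl | rfl
    · rw [E.val, eS_val (kv x) (cv x)] at hp
      simp only [E.val] at hp
      push_cast at hp
      linarith only [hp]
    · rw [eK_val (kv x)] at hp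
      linarith only [hK, hp]
    · rw [E.val, eK_val (kv x)] at hp
      linarith only [hK, hp]
    · exact absurd (cN_val hp) (by linarith only [h1])
  · intro a2 x x0 x1
    have hc : chk [sub (eS0 (q 100 14) (sub pi (mul (q 9 2) (var 0)))) (q (-34) 100)] 30
      [V.of 10000 0 100, V.of 10000 (-780) (-100), V.of 10000 50 620, V.of 10000 500 5000] = true := left_one_h2
    have hp := pos_of_chk (chk4 hc (by norm_num) (x := a) (y := T) (z := h) (w := x)
      (by norm_num; linarith only [a0]) (by norm_num; linarith only [a2]) (by norm_num; linarith only [T0])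
      (by norm_num; linarith only [T1]) (by norm_num; linarith only [h0]) (by norm_num; linarith only [a0, T1, h1, a2])
      (by norm_num; linarith only [x0]) (by norm_num; linarith only [x1]))
    rw [E.val, eS0_val (kv x) (cv x)] at hp
    simp only [E.val] at hp
    push_cast at hp
    linarith only [hp]

/-- end 3 next to `two`, left ramp, `cl = 1 / 10` -/
theorem left_two {T h μ a : ℝ} {v : ℂ} (hT : HT .two T h) (L : LocM v h μ)
    (hr : v.re = a) (hi : v.im = 10 * T * a) (a0 : 0 < a) (a1 : a ≤ 1 / 10) :
    10 / 100 < S3 1 (10 * T) v (mpt h μ) + (Real.pi / 2) * (10 * T) := by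
  have hT' := hT
  obtain ⟨T0, T1, h0, h1, h2⟩ := hT
  have kv : ∀ x : ℝ, ((q 10 1) : E).val [a, T, h, x] = 10 := fun x => by
    simp only [E.val]; norm_num
  have cv : ∀ x : ℝ, ((mul (q 1 2) pi) : E).val [a, T, h, x] = (Real.pi / 2) := fun x => by
    simp only [E.val, lkR]; push_cast; ring
  refine left_bound hT' L (by norm_num) (by rw [abs_le]; constructor <;> linarith only [a0, a1, T0, T1]) hr hi a0
    (by linarith only [a1]) ?_ ?_
  · intro a2 x x0 x1 hK
    have hc : chk [sub (eS (q 10 1) (mul (q 1 2) pi)) (q 10 100), eK (q 10 1), neg (eK (q 10 1))] 30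
      [V.of 10000 100 1000, V.of 10000 (-260) 130, V.of 10000 0 500, V.of 10000 500 5000] = true := by
      decide +kernel
    obtain ⟨e, he, hp⟩ := chk4 hc (by norm_num) (x := a) (y := T) (z := h) (w := x)
      (by norm_num; linarith only [a2]) (by norm_num; linarith only [a1]) (by norm_num; linarith only [T0])
      (by norm_num; linarith only [T1]) (by norm_num; linarith only [h0]) (by norm_num; linarith only [h1])
      (by norm_num; linarith only [x0]) (by norm_num; linarith only [x1])
    simp only [List.mem_cons, List.not_mem_nil, or_false] at he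
    rcases he with rfl | rfl | rfl
    · rw [E.val, eS_val (kv x) (cv x)] at hp
      simp only [E.val] at hp
      push_cast at hp
      linarith only [hp]
    · rw [eK_val (kv x)] at hp
      linarith only [hK, hp]
    · rw [E.val, eK_val (kv x)] at hp
      linarith only [hK, hp]
  · intro a2 x x0 x1
    have hc : chk [sub (eS0 (q 10 1) (mul (q 1 2) pi)) (q 10 100)] 30
      [V.of 10000 0 100, V.of 10000 (-260) 130, V.of 10000 0 500, V.of 10000 500 5000] = true := by
      decide +kernel
    have hp := pos_of_chk (chk4 hc (by norm_num) (x := a) (y := T) (z := h) (w := x)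
      (by norm_num; linarith only [a0]) (by norm_num; linarith only [a2]) (by norm_num; linarith only [T0])
      (by norm_num; linarith only [T1]) (by norm_num; linarith only [h0]) (by norm_num; linarith only [h1])
      (by norm_num; linarith only [x0]) (by norm_num; linarith only [x1]))
    rw [E.val, eS0_val (kv x) (cv x)] at hp
    simp only [E.val] at hp
    push_cast at hp
    linarith only [hp]

/-- end 3 next to `twoE`, left ramp, `cl = 1 / 10` -/
theorem left_twoE {T h μ a : ℝ} {v : ℂ} (hT : HT .twoE T h) (L : LocM v h μ)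
    (hr : v.re = a) (hi : v.im = 10 * T * a) (a0 : 0 < a) (a1 : a ≤ 1 / 10) :
    40 / 100 < S3 1 (10 * T) v (mpt h μ) + (Real.pi / 2) * (10 * T) := by
  have hT' := hT
  obtain ⟨T0, T1, h0, h1⟩ := hT
  have kv : ∀ x : ℝ, ((q 10 1) : E).val [a, T, h, x] = 10 := fun x => by
    simp only [E.val]; norm_num
  have cv : ∀ x : ℝ, ((mul (q 1 2) pi) : E).val [a, T, h, x] = (Real.pi / 2) := fun x => by
    simp only [E.val, lkR]; push_cast; ring
  refine left_bound hT' L (by norm_num) (by rw [abs_le]; constructor <;> linarith only [a0, a1, T0, T1]) hr hi a0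
    (by linarith only [a1]) ?_ ?_
  · intro a2 x x0 x1 hK
    have hc : chk [sub (eS (q 10 1) (mul (q 1 2) pi)) (q 40 100), eK (q 10 1), neg (eK (q 10 1))] 30
      [V.of 10000 100 1000, V.of 10000 (-690) (-650), V.of 10000 (-270) (-190), V.of 10000 500 5000] = true := by
      decide +kernel
    obtain ⟨e, he, hp⟩ := chk4 hc (by norm_num) (x := a) (y := T) (z := h) (w := x)
      (by norm_num; linarith only [a2]) (by norm_num; linarith only [a1]) (by norm_num; linarith only [T0])
      (by norm_num; linarith only [T1]) (by norm_num; linarith only [h0]) (by norm_num; linarith only [h1])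
      (by norm_num; linarith only [x0]) (by norm_num; linarith only [x1])
    simp only [List.mem_cons, List.not_mem_nil, or_false] at he
    rcases he with rfl | rfl | rfl
    · rw [E.val, eS_val (kv x) (cv x)] at hp
      simp only [E.val] at hp
      push_cast at hp
      linarith only [hp]
    · rw [eK_val (kv x)] at hp
      linarith only [hK, hp]
    · rw [E.val, eK_val (kv x)] at hp
      linarith only [hK, hp]
  · intro a2 x x0 x1
    have hc : chk [sub (eS0 (q 10 1) (mul (q 1 2) pi)) (q 40 100)] 30
      [V.of 10000 0 100, V.of 10000 (-690) (-650), V.of 10000 (-270) (-190), V.of 10000 500 5000] = true := by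
      decide +kernel
    have hp := pos_of_chk (chk4 hc (by norm_num) (x := a) (y := T) (z := h) (w := x)
      (by norm_num; linarith only [a0]) (by norm_num; linarith only [a2]) (by norm_num; linarith only [T0])
      (by norm_num; linarith only [T1]) (by norm_num; linarith only [h0]) (by norm_num; linarith only [h1])
      (by norm_num; linarith only [x0]) (by norm_num; linarith only [x1]))
    rw [E.val, eS0_val (kv x) (cv x)] at hp
    simp only [E.val] at hp
    push_cast at hp
    linarith only [hp]

/-- end 3 next to `three`, left ramp, `cl = 1 / 10` -/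
theorem left_three {T h μ a : ℝ} {v : ℂ} (hT : HT .three T h) (L : LocM v h μ)
    (hr : v.re = a) (hi : v.im = 10 * T * a) (a0 : 0 < a) (a1 : a ≤ 1 / 10) :
    20 / 100 < S3 1 (10 * T) v (mpt h μ) + (Real.pi / 2) * (10 * T) := by
  have hT' := hT
  obtain ⟨T0, T1, h1, h0⟩ := hT
  have kv : ∀ x : ℝ, ((q 10 1) : E).val [a, T, h, x] = 10 := fun x => by
    simp only [E.val]; norm_num
  have cv : ∀ x : ℝ, ((mul (q 1 2) pi) : E).val [a, T, h, x] = (Real.pi / 2) := fun x => by
    simp only [E.val, lkR]; push_cast; ring
  refine left_bound hT' L (by norm_num) (by rw [abs_le]; constructor <;> linarith only [a0, a1, T0, T1]) hr hi a0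
    (by linarith only [a1]) ?_ ?_
  · intro a2 x x0 x1 hK
    have hc : chk [sub (eS (q 10 1) (mul (q 1 2) pi)) (q 20 100), eK (q 10 1), neg (eK (q 10 1))] 30
      [V.of 10000 100 1000, V.of 10000 50 280, V.of 10000 0 430, V.of 10000 500 5000] = true := by
      decide +kernel
    obtain ⟨e, he, hp⟩ := chk4 hc (by norm_num) (x := a) (y := T) (z := h) (w := x)
      (by norm_num; linarith only [a2]) (by norm_num; linarith only [a1]) (by norm_num; linarith only [T0])
      (by norm_num; linarith only [T1]) (by norm_num; linarith only [a0, a1, T0, h0]) (by norm_num; linarith only [h1])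
      (by norm_num; linarith only [x0]) (by norm_num; linarith only [x1])
    simp only [List.mem_cons, List.not_mem_nil, or_false] at he
    rcases he with rfl | rfl | rfl
    · rw [E.val, eS_val (kv x) (cv x)] at hp
      simp only [E.val] at hp
      push_cast at hp
      linarith only [hp]
    · rw [eK_val (kv x)] at hp
      linarith only [hK, hp]
    · rw [E.val, eK_val (kv x)] at hp
      linarith only [hK, hp]
  · intro a2 x x0 x1
    have hc : chk [sub (eS0 (q 10 1) (mul (q 1 2) pi)) (q 20 100)] 30
      [V.of 10000 0 100, V.of 10000 50 280, V.of 10000 0 430, V.of 10000 500 5000] = true := by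
      decide +kernel
    have hp := pos_of_chk (chk4 hc (by norm_num) (x := a) (y := T) (z := h) (w := x)
      (by norm_num; linarith only [a0]) (by norm_num; linarith only [a2]) (by norm_num; linarith only [T0])
      (by norm_num; linarith only [T1]) (by norm_num; linarith only [a0, T0, h0, a2]) (by norm_num; linarith only [h1])
      (by norm_num; linarith only [x0]) (by norm_num; linarith only [x1]))
    rw [E.val, eS0_val (kv x) (cv x)] at hp
    simp only [E.val] at hp
    push_cast at hp
    linarith only [hp]

/-- end 3 next to `three`, left ramp, `cl = 15 / 100` -/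
theorem left_three15 {T h μ a : ℝ} {v : ℂ} (hT : HT .three T h) (L : LocM v h μ)
    (hr : v.re = a) (hi : v.im = (100 / 15) * T * a) (a0 : 0 < a) (a1 : a ≤ 15 / 100) :
    -(18 / 100) < S3 1 ((100 / 15) * T) v (mpt h μ) + (Real.pi / 2) * ((100 / 15) * T) := by
  have hT' := hT
  obtain ⟨T0, T1, h1, h0⟩ := hT
  have kv : ∀ x : ℝ, ((q 100 15) : E).val [a, T, h, x] = (100 / 15) := fun x => by
    simp only [E.val]; norm_num
  have cv : ∀ x : ℝ, ((mul (q 1 2) pi) : E).val [a, T, h, x] = (Real.pi / 2) := fun x => by
    simp only [E.val, lkR]; push_cast; ring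
  refine left_bound hT' L (by norm_num) (by rw [abs_le]; constructor <;> linarith only [a0, a1, T0, T1]) hr hi a0
    (by linarith only [a1]) ?_ ?_
  · intro a2 x x0 x1 hK
    have hc : chk [sub (eS (q 100 15) (mul (q 1 2) pi)) (q (-18) 100), eK (q 100 15), neg (eK (q 100 15))] 30
      [V.of 10000 100 1500, V.of 10000 50 280, V.of 10000 0 430, V.of 10000 500 5000] = true := by
      decide +kernel
    obtain ⟨e, he, hp⟩ := chk4 hc (by norm_num) (x := a) (y := T) (z := h) (w := x)
      (by norm_num; linarith only [a2]) (by norm_num; linarith only [a1]) (by norm_num; linarith only [T0])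
      (by norm_num; linarith only [T1]) (by norm_num; linarith only [a0, a1, T0, h0]) (by norm_num; linarith only [h1])
      (by norm_num; linarith only [x0]) (by norm_num; linarith only [x1])
    simp only [List.mem_cons, List.not_mem_nil, or_false] at he
    rcases he with rfl | rfl | rfl
    · rw [E.val, eS_val (kv x) (cv x)] at hp
      simp only [E.val] at hp
      push_cast at hp
      linarith only [hp]
    · rw [eK_val (kv x)] at hp
      linarith only [hK, hp]
    · rw [E.val, eK_val (kv x)] at hp
      linarith only [hK, hp]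
  · intro a2 x x0 x1
    have hc : chk [sub (eS0 (q 100 15) (mul (q 1 2) pi)) (q (-18) 100)] 30
      [V.of 10000 0 100, V.of 10000 50 280, V.of 10000 0 430, V.of 10000 500 5000] = true := by
      decide +kernel
    have hp := pos_of_chk (chk4 hc (by norm_num) (x := a) (y := T) (z := h) (w := x)
      (by norm_num; linarith only [a0]) (by norm_num; linarith only [a2]) (by norm_num; linarith only [T0])
      (by norm_num; linarith only [T1]) (by norm_num; linarith only [a0, T0, h0, a2]) (by norm_num; linarith only [h1])
      (by norm_num; linarith only [x0]) (by norm_num; linarith only [x1]))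
    rw [E.val, eS0_val (kv x) (cv x)] at hp
    simp only [E.val] at hp
    push_cast at hp
    linarith only [hp]

/-- end 3 next to `threeE`, left ramp, `cl = 1 / 10` -/
theorem left_threeE {T h μ a : ℝ} {v : ℂ} (hT : HT .threeE T h) (L : LocM v h μ)
    (hr : v.re = a) (hi : v.im = 10 * T * a) (a0 : 0 < a) (a1 : a ≤ 1 / 10) :
    40 / 100 < S3 1 (10 * T) v (mpt h μ) + (Real.pi / 2) * (10 * T) := by
  have hT' := hT
  obtain ⟨T0, T1, h0, h1⟩ := hT
  have kv : ∀ x : ℝ, ((q 10 1) : E).val [a, T, h, x] = 10 := fun x => by
    simp only [E.val]; norm_num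
  have cv : ∀ x : ℝ, ((mul (q 1 2) pi) : E).val [a, T, h, x] = (Real.pi / 2) := fun x => by
    simp only [E.val, lkR]; push_cast; ring
  refine left_bound hT' L (by norm_num) (by rw [abs_le]; constructor <;> linarith only [a0, a1, T0, T1]) hr hi a0
    (by linarith only [a1]) ?_ ?_
  · intro a2 x x0 x1 hK
    have hc : chk [sub (eS (q 10 1) (mul (q 1 2) pi)) (q 40 100), eK (q 10 1), neg (eK (q 10 1))] 30
      [V.of 10000 100 1000, V.of 10000 (-10) 10, V.of 10000 (-20) 20, V.of 10000 500 5000] = true := by
      decide +kernel
    obtain ⟨e, he, hp⟩ := chk4 hc (by norm_num) (x := a) (y := T) (z := h) (w := x)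
      (by norm_num; linarith only [a2]) (by norm_num; linarith only [a1]) (by norm_num; linarith only [T0])
      (by norm_num; linarith only [T1]) (by norm_num; linarith only [h0]) (by norm_num; linarith only [h1])
      (by norm_num; linarith only [x0]) (by norm_num; linarith only [x1])
    simp only [List.mem_cons, List.not_mem_nil, or_false] at he
    rcases he with rfl | rfl | rfl
    · rw [E.val, eS_val (kv x) (cv x)] at hp
      simp only [E.val] at hp
      push_cast at hp
      linarith only [hp]
    · rw [eK_val (kv x)] at hp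
      linarith only [hK, hp]
    · rw [E.val, eK_val (kv x)] at hp
      linarith only [hK, hp]
  · intro a2 x x0 x1
    have hc : chk [sub (eS0 (q 10 1) (mul (q 1 2) pi)) (q 40 100)] 30
      [V.of 10000 0 100, V.of 10000 (-10) 10, V.of 10000 (-20) 20, V.of 10000 500 5000] = true := by
      decide +kernel
    have hp := pos_of_chk (chk4 hc (by norm_num) (x := a) (y := T) (z := h) (w := x)
      (by norm_num; linarith only [a0]) (by norm_num; linarith only [a2]) (by norm_num; linarith only [T0])
      (by norm_num; linarith only [T1]) (by norm_num; linarith only [h0]) (by norm_num; linarith only [h1])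
      (by norm_num; linarith only [x0]) (by norm_num; linarith only [x1]))
    rw [E.val, eS0_val (kv x) (cv x)] at hp
    simp only [E.val] at hp
    push_cast at hp
    linarith only [hp]

/-- end 3 next to `ring`, left ramp, `cl = 1 / 10` -/
theorem left_ring {T h μ a : ℝ} {v : ℂ} (hT : HT .ring T h) (L : LocM v h μ)
    (hr : v.re = a) (hi : v.im = 10 * T * a) (a0 : 0 < a) (a1 : a ≤ 1 / 10) :
    10 / 100 < S3 1 (10 * T) v (mpt h μ) + (Real.pi / 2) * (10 * T) := by
  have hT' := hT
  obtain ⟨T0, T1, h1, h0⟩ := hT
  have kv : ∀ x : ℝ, ((q 10 1) : E).val [a, T, h, x] = 10 := fun x => by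
    simp only [E.val]; norm_num
  have cv : ∀ x : ℝ, ((mul (q 1 2) pi) : E).val [a, T, h, x] = (Real.pi / 2) := fun x => by
    simp only [E.val, lkR]; push_cast; ring
  refine left_bound hT' L (by norm_num) (by rw [abs_le]; constructor <;> linarith only [a0, a1, T0, T1]) hr hi a0
    (by linarith only [a1]) ?_ ?_
  · intro a2 x x0 x1 hK
    have hc : chk [sub (eS (q 10 1) (mul (q 1 2) pi)) (q 10 100), eK (q 10 1), neg (eK (q 10 1))] 30
      [V.of 10000 100 1000, V.of 10000 180 580, V.of 10000 90 590, V.of 10000 500 5000] = true := by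
      decide +kernel
    obtain ⟨e, he, hp⟩ := chk4 hc (by norm_num) (x := a) (y := T) (z := h) (w := x)
      (by norm_num; linarith only [a2]) (by norm_num; linarith only [a1]) (by norm_num; linarith only [T0])
      (by norm_num; linarith only [T1]) (by norm_num; linarith only [T0, h0]) (by norm_num; linarith only [h1])
      (by norm_num; linarith only [x0]) (by norm_num; linarith only [x1])
    simp only [List.mem_cons, List.not_mem_nil, or_false] at he
    rcases he with rfl | rfl | rfl
    · rw [E.val, eS_val (kv x) (cv x)] at hp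
      simp only [E.val] at hp
      push_cast at hp
      linarith only [hp]
    · rw [eK_val (kv x)] at hp
      linarith only [hK, hp]
    · rw [E.val, eK_val (kv x)] at hp
      linarith only [hK, hp]
  · intro a2 x x0 x1
    have hc : chk [sub (eS0 (q 10 1) (mul (q 1 2) pi)) (q 10 100)] 30
      [V.of 10000 0 100, V.of 10000 180 580, V.of 10000 90 590, V.of 10000 500 5000] = true := by
      decide +kernel
    have hp := pos_of_chk (chk4 hc (by norm_num) (x := a) (y := T) (z := h) (w := x)
      (by norm_num; linarith only [a0]) (by norm_num; linarith only [a2]) (by norm_num; linarith only [T0])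
      (by norm_num; linarith only [T1]) (by norm_num; linarith only [T0, h0]) (by norm_num; linarith only [h1])
      (by norm_num; linarith only [x0]) (by norm_num; linarith only [x1]))
    rw [E.val, eS0_val (kv x) (cv x)] at hp
    simp only [E.val] at hp
    push_cast at hp
    linarith only [hp]

end L3

end Pool.Agent.Work.MP_b30479_gt.G2
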