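import Pool.Agent.Work.MP_b30479_gt.G2.ML3h
import Pool.Agent.Work.MP_b30479_gt.G2.WMid

/-!
# END 3: the height of the inner variable at the saddle point
-/

namespace Pool.Agent.Work.MP_b30479_gt.G2

open Finset VOL Filter Topology

namespace L3

open Pool.Agent.Work.NumI Pool.Agent.Work.NumI.E

theorem SM_zero (m : ℝ) (v u : ℂ) : SM m v u 0 = -(Real.pi * (v.im + u.im)) - LL (u - v) +
    m * (-(Real.pi * (v.re + u.re - 1 / 2)) - YY (u - v)) := by
  unfold SM
  simp only [Complex.zero_im, Complex.zero_re, add_zero]
  ring

/-- the saddle point equation as an equation of complex numbers -/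
theorem exp_of_crit {v u : ℂ} (hst : u - v ∈ strip)
    (h1 : LL (u - v) = -(Real.pi * (v.im + u.im)))
    (h2 : YY (u - v) = -(Real.pi * (v.re + u.re - 1 / 2))) :
    Complex.exp (2 * Real.pi * Complex.I * u) * (1 - Complex.exp (2 * Real.pi * Complex.I * v)) =
      Complex.exp (2 * Real.pi * Complex.I * v) := by
  have hne : 2 * Complex.sin (Real.pi * (u - v)) ≠ 0 := by
    apply mul_ne_zero two_ne_zero
    apply sin_ne_of_re
    · rw [abs_of_pos hst.1]; exact hst.1
    · rw [abs_of_pos hst.1]; exact hst.2
  have hph : ph (u - v) = Complex.I * Real.pi * (v + u - 1 / 2) := by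
    apply Complex.ext
    · rw [ph_re, h1]
      simp [Complex.mul_re]
    · rw [ph_im hst, h2]
      simp [Complex.mul_im]
  have hexp : 2 * Complex.sin (Real.pi * (u - v)) =
      Complex.exp (Complex.I * Real.pi * (v + u - 1 / 2)) := by
    rw [← hph]
    unfold ph
    rw [Complex.exp_log hne]
  have e1 : Complex.exp (Complex.I * Real.pi * (v + u - 1 / 2)) =
      -Complex.I * Complex.exp (Complex.I * Real.pi * (v + u)) := by
    rw [show Complex.I * Real.pi * (v + u - 1 / 2) = Complex.I * Real.pi * (v + u) +
      -(Real.pi / 2 * Complex.I) by ring, Complex.exp_add, Complex.exp_neg,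
      Complex.exp_pi_div_two_mul_I]
    rw [Complex.inv_I]
    ring
  rw [e1, Complex.sin] at hexp
  -- multiply by `exp (iπ (u + v))`
  have e2 : Complex.exp (-(Real.pi * (u - v)) * Complex.I) *
      Complex.exp (Complex.I * Real.pi * (v + u)) = Complex.exp (2 * Real.pi * Complex.I * v) := by
    rw [← Complex.exp_add]
    congr 1
    ring
  have e3 : Complex.exp (Real.pi * (u - v) * Complex.I) *
      Complex.exp (Complex.I * Real.pi * (v + u)) = Complex.exp (2 * Real.pi * Complex.I * u) := by
    rw [← Complex.exp_add]
    congr 1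
    ring
  have e4 : Complex.exp (Complex.I * Real.pi * (v + u)) * Complex.exp (Complex.I * Real.pi * (v + u)) =
      Complex.exp (2 * Real.pi * Complex.I * u) * Complex.exp (2 * Real.pi * Complex.I * v) := by
    rw [← Complex.exp_add, ← Complex.exp_add]
    congr 1
    ring
  have key : 2 * ((Complex.exp (-(Real.pi * (u - v)) * Complex.I) -
      Complex.exp (Real.pi * (u - v) * Complex.I)) * Complex.I / 2) *
        Complex.exp (Complex.I * Real.pi * (v + u)) =
      -Complex.I * Complex.exp (Complex.I * Real.pi * (v + u)) *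
        Complex.exp (Complex.I * Real.pi * (v + u)) := by rw [hexp]
  have I2 : Complex.I * Complex.I = -1 := Complex.I_mul_I
  linear_combination Complex.I * key + e2 - e3 + e4 -
    (Complex.exp (-(Real.pi * (u - v)) * Complex.I) * Complex.exp (Complex.I * Real.pi * (v + u)) -
      Complex.exp (Real.pi * (u - v) * Complex.I) * Complex.exp (Complex.I * Real.pi * (v + u)) +
      Complex.exp (Complex.I * Real.pi * (v + u)) * Complex.exp (Complex.I * Real.pi * (v + u))) * I2

/-- **The height of the inner variable at the saddle point.** -/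
theorem height3 {v u : ℂ} (hv : v ∈ strip) (hst : u - v ∈ strip)
    (h1 : LL (u - v) = -(Real.pi * (v.im + u.im)))
    (h2 : YY (u - v) = -(Real.pi * (v.re + u.re - 1 / 2))) :
    u.im = v.im / 2 + LL v / (2 * Real.pi) := by
  have hpi := Real.pi_pos
  have h := exp_of_crit hst h1 h2
  have hn : ∀ z : ℂ, ‖Complex.exp (2 * Real.pi * Complex.I * z)‖ =
      Real.exp (-(2 * Real.pi * z.im)) := by
    intro z
    rw [Complex.norm_exp]
    congr 1
    simp [Complex.mul_re, Complex.mul_im]
  have hs : Complex.sin (Real.pi * v) ≠ 0 := by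
    apply sin_ne_of_re
    · rw [abs_of_pos hv.1]; exact hv.1
    · rw [abs_of_pos hv.1]; exact hv.2
  -- `1 - e^{2π i v} = -2i sin (π v) e^{π i v}`
  have e5 : 1 - Complex.exp (2 * Real.pi * Complex.I * v) =
      -Complex.I * (2 * Complex.sin (Real.pi * v)) * Complex.exp (Real.pi * Complex.I * v) := by
    rw [Complex.sin]
    have a1 : Complex.exp (-(Real.pi * v) * Complex.I) * Complex.exp (Real.pi * Complex.I * v) = 1 := by
      rw [← Complex.exp_add, ← Complex.exp_zero]
      congr 1
      ring
    have a2 : Complex.exp (Real.pi * v * Complex.I) * Complex.exp (Real.pi * Complex.I * v) =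
        Complex.exp (2 * Real.pi * Complex.I * v) := by
      rw [← Complex.exp_add]
      congr 1
      ring
    have I2 : Complex.I * Complex.I = -1 := Complex.I_mul_I
    linear_combination (-1 : ℂ) * a1 + a2 + (Complex.exp (-(Real.pi * v) * Complex.I) *
      Complex.exp (Real.pi * Complex.I * v) - Complex.exp (Real.pi * v * Complex.I) *
      Complex.exp (Real.pi * Complex.I * v)) * I2
  have h3 := congrArg (fun z : ℂ => ‖z‖) h
  simp only [norm_mul] at h3
  rw [hn, hn, e5, norm_mul, norm_mul, norm_neg, Complex.norm_I, one_mul] at h3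
  have h4 : ‖2 * Complex.sin (Real.pi * v)‖ = Real.exp (LL v) := by
    rw [LL_eq, Real.exp_log]
    exact norm_pos_iff.2 (mul_ne_zero two_ne_zero hs)
  have h5 : ‖Complex.exp (Real.pi * Complex.I * v)‖ = Real.exp (-(Real.pi * v.im)) := by
    rw [Complex.norm_exp]
    congr 1
    simp [Complex.mul_re, Complex.mul_im]
  rw [h4, h5, ← Real.exp_add, ← Real.exp_add] at h3
  have h6 := Real.exp_injective h3
  field_simp
  linarith only [h6]

/-- a bound `h < H` as an inequality for `LL` -/
theorem h_lt {v : ℂ} {h H : ℝ} (hh : h = v.im / 2 + LL v / (2 * Real.pi))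
    (hL : LL v < Real.pi * (2 * H - v.im)) : h < H := by
  have hpi := Real.pi_pos
  rw [hh]
  have : LL v / (2 * Real.pi) < H - v.im / 2 := by
    rw [div_lt_iff₀ (by positivity)]
    linarith only [hL]
  linarith only [this]

theorem lt_h {v : ℂ} {h H : ℝ} (hh : h = v.im / 2 + LL v / (2 * Real.pi))
    (hL : Real.pi * (2 * H - v.im) < LL v) : H < h := by
  have hpi := Real.pi_pos
  rw [hh]
  have : H - v.im / 2 < LL v / (2 * Real.pi) := by
    rw [lt_div_iff₀ (by positivity)]
    linarith only [hL]
  linarith only [this]

/-- `2 π (H - h)` for `H = a0 + a1 t`; variables `a t` -/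
def eUp (a0 a1 : E) : E :=
  sub (mul pi (sub (mul (q 2 1) (add a0 (mul a1 (var 1)))) (var 1))) (lnA (var 0) (var 1))

theorem eUp_val {a0 a1 : E} {x t A0 A1 : ℝ} (h0 : a0.val [x, t] = A0) (h1 : a1.val [x, t] = A1) :
    (eUp a0 a1).val [x, t] = Real.pi * (2 * (A0 + A1 * t) - t) - NumI.lnA x t := by
  simp only [eUp, E.val, lkR, h0, h1]
  norm_num

/-- **Typed heights from the box of the hinge.** -/
theorem HT_of_box {B : SR.Cl} {s : Bool} {v u : ℂ} (hb : (SR.hbox .threeE B s).In v)
    (hh : u.im = v.im / 2 + LL v / (2 * Real.pi)) : HT B v.im u.im := by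
  have hst : v ∈ strip := by
    unfold SR.Box.In at hb
    obtain ⟨b1, b2, -, -⟩ := hb
    constructor
    · refine lt_of_lt_of_le ?_ b1
      cases B <;> simp only [SR.hbox] <;> norm_num
    · refine lt_of_le_of_lt b2 ?_
      cases B <;> simp only [SR.hbox] <;> norm_num
  have hLA := Num.LL_lnA hst
  cases B with
  | one =>
    simp only [SR.hbox, SR.Box.In] at hb
    obtain ⟨b1, b2, b3, b4⟩ := hb
    have c1 : chk [eUp (q 655 10000) (q 38 100)] 20 [V.of 1000 212 274, V.of 1000 (-78) (-10)] = true := by
      decide +kernel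
    have c2 : chk [neg (eUp (q 5 1000) (q 0 1))] 20 [V.of 1000 212 274, V.of 1000 (-78) (-10)] = true := by
      decide +kernel
    have p1 := pos_of_chk (chk2 c1 (by norm_num) (x := v.re) (y := v.im) (by norm_num; linarith only [b1])
      (by norm_num; linarith only [b2]) (by norm_num; linarith only [b3]) (by norm_num; linarith only [b4]))
    have p2 := pos_of_chk (chk2 c2 (by norm_num) (x := v.re) (y := v.im) (by norm_num; linarith only [b1])
      (by norm_num; linarith only [b2]) (by norm_num; linarith only [b3]) (by norm_num; linarith only [b4]))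
    rw [eUp_val (A0 := 655 / 10000) (A1 := 38 / 100) (by simp [E.val]) (by simp [E.val]),
      ← hLA] at p1
    rw [E.val, eUp_val (A0 := 5 / 1000) (A1 := 0) (by simp only [E.val]; norm_num)
      (by simp only [E.val]; norm_num), ← hLA] at p2
    exact ⟨b3, b4, (lt_h hh (by linarith only [p2])).le, (h_lt hh (by linarith only [p1])).le⟩
  | two =>
    simp only [SR.hbox, SR.Box.In] at hb
    obtain ⟨b1, b2, b3, b4⟩ := hb
    have c1 : chk [eUp (q 50 1000) (q 0 1)] 20 [V.of 1000 181 227, V.of 1000 (-26) 13] = true := by
      decide +kernel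
    have c2 : chk [neg (eUp (q 0 1) (q 0 1))] 20 [V.of 1000 181 227, V.of 1000 (-26) 13] = true := by
      decide +kernel
    have c3 : chk [neg (eUp (q 0 1) (q 1 2))] 20 [V.of 1000 181 227, V.of 1000 (-26) 13] = true := by
      decide +kernel
    have p1 := pos_of_chk (chk2 c1 (by norm_num) (x := v.re) (y := v.im) (by norm_num; linarith only [b1])
      (by norm_num; linarith only [b2]) (by norm_num; linarith only [b3]) (by norm_num; linarith only [b4]))
    have p2 := pos_of_chk (chk2 c2 (by norm_num) (x := v.re) (y := v.im) (by norm_num; linarith only [b1])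
      (by norm_num; linarith only [b2]) (by norm_num; linarith only [b3]) (by norm_num; linarith only [b4]))
    have p3 := pos_of_chk (chk2 c3 (by norm_num) (x := v.re) (y := v.im) (by norm_num; linarith only [b1])
      (by norm_num; linarith only [b2]) (by norm_num; linarith only [b3]) (by norm_num; linarith only [b4]))
    rw [eUp_val (A0 := 50 / 1000) (A1 := 0) (by simp only [E.val]; norm_num)
      (by simp only [E.val]; norm_num), ← hLA] at p1
    rw [E.val, eUp_val (A0 := 0) (A1 := 0) (by simp only [E.val]; norm_num)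
      (by simp only [E.val]; norm_num), ← hLA] at p2
    rw [E.val, eUp_val (A0 := 0) (A1 := 1 / 2) (by simp only [E.val]; norm_num)
      (by simp only [E.val]; norm_num), ← hLA] at p3
    exact ⟨b3, b4, (lt_h hh (by linarith only [p2])).le, (h_lt hh (by linarith only [p1])).le,
      (lt_h (H := v.im / 2) hh (by linarith only [p3])).le⟩
  | twoE =>
    simp only [SR.hbox, SR.Box.In] at hb
    obtain ⟨b1, b2, b3, b4⟩ := hb
    have c1 : chk [eUp (q (-19) 1000) (q 0 1)] 20 [V.of 1000 162 166, V.of 1000 (-69) (-65)] = true := by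
      decide +kernel
    have c2 : chk [neg (eUp (q (-27) 1000) (q 0 1))] 20 [V.of 1000 162 166, V.of 1000 (-69) (-65)] = true := by
      decide +kernel
    have p1 := pos_of_chk (chk2 c1 (by norm_num) (x := v.re) (y := v.im) (by norm_num; linarith only [b1])
      (by norm_num; linarith only [b2]) (by norm_num; linarith only [b3]) (by norm_num; linarith only [b4]))
    have p2 := pos_of_chk (chk2 c2 (by norm_num) (x := v.re) (y := v.im) (by norm_num; linarith only [b1])
      (by norm_num; linarith only [b2]) (by norm_num; linarith only [b3]) (by norm_num; linarith only [b4]))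
    rw [eUp_val (A0 := -(19 / 1000)) (A1 := 0) (by simp only [E.val]; norm_num)
      (by simp only [E.val]; norm_num), ← hLA] at p1
    rw [E.val, eUp_val (A0 := -(27 / 1000)) (A1 := 0) (by simp only [E.val]; norm_num)
      (by simp only [E.val]; norm_num), ← hLA] at p2
    exact ⟨b3, b4, (lt_h hh (by linarith only [p2])).le, (h_lt hh (by linarith only [p1])).le⟩
  | three =>
    simp only [SR.hbox, SR.Box.In] at hb
    obtain ⟨b1, b2, b3, b4⟩ := hb
    have c1 : chk [eUp (q 43 1000) (q 0 1)] 20 [V.of 1000 179 201, V.of 1000 5 28] = true := by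
      decide +kernel
    have c3 : chk [neg (eUp (q 0 1) (q 1 2))] 20 [V.of 1000 179 201, V.of 1000 5 28] = true := by
      decide +kernel
    have p1 := pos_of_chk (chk2 c1 (by norm_num) (x := v.re) (y := v.im) (by norm_num; linarith only [b1])
      (by norm_num; linarith only [b2]) (by norm_num; linarith only [b3]) (by norm_num; linarith only [b4]))
    have p3 := pos_of_chk (chk2 c3 (by norm_num) (x := v.re) (y := v.im) (by norm_num; linarith only [b1])
      (by norm_num; linarith only [b2]) (by norm_num; linarith only [b3]) (by norm_num; linarith only [b4]))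
    rw [eUp_val (A0 := 43 / 1000) (A1 := 0) (by simp only [E.val]; norm_num)
      (by simp only [E.val]; norm_num), ← hLA] at p1
    rw [E.val, eUp_val (A0 := 0) (A1 := 1 / 2) (by simp only [E.val]; norm_num)
      (by simp only [E.val]; norm_num), ← hLA] at p3
    exact ⟨b3, b4, (h_lt hh (by linarith only [p1])).le, (lt_h (H := v.im / 2) hh (by linarith only [p3])).le⟩
  | threeE =>
    simp only [SR.hbox, SR.Box.In] at hb
    obtain ⟨b1, b2, b3, b4⟩ := hb
    have c1 : chk [eUp (q 2 1000) (q 0 1)] 20 [V.of 1000 165 168, V.of 1000 (-1) 1] = true := by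
      decide +kernel
    have c2 : chk [neg (eUp (q (-2) 1000) (q 0 1))] 20 [V.of 1000 165 168, V.of 1000 (-1) 1] = true := by
      decide +kernel
    have p1 := pos_of_chk (chk2 c1 (by norm_num) (x := v.re) (y := v.im) (by norm_num; linarith only [b1])
      (by norm_num; linarith only [b2]) (by norm_num; linarith only [b3]) (by norm_num; linarith only [b4]))
    have p2 := pos_of_chk (chk2 c2 (by norm_num) (x := v.re) (y := v.im) (by norm_num; linarith only [b1])
      (by norm_num; linarith only [b2]) (by norm_num; linarith only [b3]) (by norm_num; linarith only [b4]))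
    rw [eUp_val (A0 := 2 / 1000) (A1 := 0) (by simp only [E.val]; norm_num)
      (by simp only [E.val]; norm_num), ← hLA] at p1
    rw [E.val, eUp_val (A0 := -(2 / 1000)) (A1 := 0) (by simp only [E.val]; norm_num)
      (by simp only [E.val]; norm_num), ← hLA] at p2
    exact ⟨by linarith only [b3], by linarith only [b4], (lt_h hh (by linarith only [p2])).le, (h_lt hh (by linarith only [p1])).le⟩
  | ring =>
    simp only [SR.hbox, SR.Box.In] at hb
    obtain ⟨b1, b2, b3, b4⟩ := hb
    have c1 : chk [eUp (q 59 1000) (q 0 1)] 20 [V.of 1000 171 195, V.of 1000 18 58] = true := by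
      decide +kernel
    have c3 : chk [neg (eUp (q 0 1) (q 1 2))] 20 [V.of 1000 171 195, V.of 1000 18 58] = true := by
      decide +kernel
    have p1 := pos_of_chk (chk2 c1 (by norm_num) (x := v.re) (y := v.im) (by norm_num; linarith only [b1])
      (by norm_num; linarith only [b2]) (by norm_num; linarith only [b3]) (by norm_num; linarith only [b4]))
    have p3 := pos_of_chk (chk2 c3 (by norm_num) (x := v.re) (y := v.im) (by norm_num; linarith only [b1])
      (by norm_num; linarith only [b2]) (by norm_num; linarith only [b3]) (by norm_num; linarith only [b4]))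
    rw [eUp_val (A0 := 59 / 1000) (A1 := 0) (by simp only [E.val]; norm_num)
      (by simp only [E.val]; norm_num), ← hLA] at p1
    rw [E.val, eUp_val (A0 := 0) (A1 := 1 / 2) (by simp only [E.val]; norm_num)
      (by simp only [E.val]; norm_num), ← hLA] at p3
    exact ⟨b3, b4, (h_lt hh (by linarith only [p1])).le, (lt_h (H := v.im / 2) hh (by linarith only [p3])).le⟩

end L3

end Pool.Agent.Work.MP_b30479_gt.G2
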