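import Pool.Agent.Work.MP_b30479_gt.G2.ML3j
import Pool.Agent.Work.NumI.ChkS

/-!
# END 3: the side on the left ramp, further numerical rows
-/

namespace Pool.Agent.Work.MP_b30479_gt.G2

open Finset VOL Filter Topology

namespace L3

open Pool.Agent.Work.NumI Pool.Agent.Work.NumI.E

theorem left_one0_h1_q1 : chk [sub (eS (q 100 14) (sub pi (mul (q 9 2) (var 0)))) (q (-9) 100), eK (q 100 14), neg (eK (q 100 14)), cN] 26
    (NumI.setL 1 (NumI.setL 0 (NumI.setL 0 (NumI.setL 3 [V.of 10000 100 700, V.of 10000 (-780) (-100), V.of 10000 50 620, V.of 10000 500 5000])))) = true := by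
  decide +kernel

theorem left_one0_h1_q2 : chk [sub (eS (q 100 14) (sub pi (mul (q 9 2) (var 0)))) (q (-9) 100), eK (q 100 14), neg (eK (q 100 14)), cN] 26
    (NumI.setR 1 (NumI.setL 0 (NumI.setL 0 (NumI.setL 3 [V.of 10000 100 700, V.of 10000 (-780) (-100), V.of 10000 50 620, V.of 10000 500 5000])))) = true := by
  decide +kernel

theorem left_one0_h1_q3 : chk [sub (eS (q 100 14) (sub pi (mul (q 9 2) (var 0)))) (q (-9) 100), eK (q 100 14), neg (eK (q 100 14)), cN] 26
    (NumI.setL 1 (NumI.setR 0 (NumI.setL 0 (NumI.setL 3 [V.of 10000 100 700, V.of 10000 (-780) (-100), V.of 10000 50 620, V.of 10000 500 5000])))) = true := by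
  decide +kernel

theorem left_one0_h1_q4 : chk [sub (eS (q 100 14) (sub pi (mul (q 9 2) (var 0)))) (q (-9) 100), eK (q 100 14), neg (eK (q 100 14)), cN] 26
    (NumI.setR 1 (NumI.setR 0 (NumI.setL 0 (NumI.setL 3 [V.of 10000 100 700, V.of 10000 (-780) (-100), V.of 10000 50 620, V.of 10000 500 5000])))) = true := by
  decide +kernel

theorem left_one0_h1_q5 : chk [sub (eS (q 100 14) (sub pi (mul (q 9 2) (var 0)))) (q (-9) 100), eK (q 100 14), neg (eK (q 100 14)), cN] 26
    (NumI.setL 0 (NumI.setL 1 (NumI.setR 0 (NumI.setL 3 [V.of 10000 100 700, V.of 10000 (-780) (-100), V.of 10000 50 620, V.of 10000 500 5000])))) = true := by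
  decide +kernel

theorem left_one0_h1_q6 : chk [sub (eS (q 100 14) (sub pi (mul (q 9 2) (var 0)))) (q (-9) 100), eK (q 100 14), neg (eK (q 100 14)), cN] 25
    (NumI.setL 1 (NumI.setR 0 (NumI.setL 1 (NumI.setR 0 (NumI.setL 3 [V.of 10000 100 700, V.of 10000 (-780) (-100), V.of 10000 50 620, V.of 10000 500 5000]))))) = true := by
  decide +kernel

theorem left_one0_h1_q7 : chk [sub (eS (q 100 14) (sub pi (mul (q 9 2) (var 0)))) (q (-9) 100), eK (q 100 14), neg (eK (q 100 14)), cN] 25
    (NumI.setR 1 (NumI.setR 0 (NumI.setL 1 (NumI.setR 0 (NumI.setL 3 [V.of 10000 100 700, V.of 10000 (-780) (-100), V.of 10000 50 620, V.of 10000 500 5000]))))) = true := by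
  decide +kernel

theorem left_one0_h1_q8 : chk [sub (eS (q 100 14) (sub pi (mul (q 9 2) (var 0)))) (q (-9) 100), eK (q 100 14), neg (eK (q 100 14)), cN] 27
    (NumI.setR 1 (NumI.setR 0 (NumI.setL 3 [V.of 10000 100 700, V.of 10000 (-780) (-100), V.of 10000 50 620, V.of 10000 500 5000]))) = true := by
  decide +kernel

theorem left_one0_h1_q9 : chk [sub (eS (q 100 14) (sub pi (mul (q 9 2) (var 0)))) (q (-9) 100), eK (q 100 14), neg (eK (q 100 14)), cN] 29
    (NumI.setR 3 [V.of 10000 100 700, V.of 10000 (-780) (-100), V.of 10000 50 620, V.of 10000 500 5000]) = true := by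
  decide +kernel

theorem left_one0_h1 : chk [sub (eS (q 100 14) (sub pi (mul (q 9 2) (var 0)))) (q (-9) 100), eK (q 100 14), neg (eK (q 100 14)), cN] 30
    [V.of 10000 100 700, V.of 10000 (-780) (-100), V.of 10000 50 620, V.of 10000 500 5000] = true :=
  NumI.chk_node (i := 3) (by decide +kernel)
    (NumI.chk_node (i := 0) (by decide +kernel)
      (NumI.chk_node (i := 0) (by decide +kernel)
        (NumI.chk_node (i := 1) (by decide +kernel)
          left_one0_h1_q1
          left_one0_h1_q2)
        (NumI.chk_node (i := 1) (by decide +kernel)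
          left_one0_h1_q3
          left_one0_h1_q4))
      (NumI.chk_node (i := 1) (by decide +kernel)
        (NumI.chk_node (i := 0) (by decide +kernel)
          left_one0_h1_q5
          (NumI.chk_node (i := 1) (by decide +kernel)
            left_one0_h1_q6
            left_one0_h1_q7))
        left_one0_h1_q8))
    left_one0_h1_q9

theorem left_one0_h2 : chk [sub (eS0 (q 100 14) (sub pi (mul (q 9 2) (var 0)))) (q (-9) 100)] 30
    [V.of 10000 0 100, V.of 10000 (-780) (-100), V.of 10000 50 620, V.of 10000 500 5000] = true := by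
  decide +kernel

/-- end 3 next to `one`, left ramp, `cl = 14 / 100`, first round -/
theorem left_one0 {T h μ a : ℝ} {v : ℂ} (hT : HT .one T h) (L : LocM v h μ)
    (hr : v.re = a) (hi : v.im = (100 / 14) * T * a) (a0 : 0 < a) (a1 : a ≤ 7 / 100) :
    -(9 / 100) < S3 1 ((100 / 14) * T) v (mpt h μ) + (Real.pi - 9 / 2 * a) * ((100 / 14) * T) := by
  have hT' := hT
  obtain ⟨T0, T1, h0, h1⟩ := hT
  have kv : ∀ x : ℝ, ((q 100 14) : E).val [a, T, h, x] = (100 / 14) := fun x => by
    simp only [E.val]; norm_num
  have cv : ∀ x : ℝ, ((sub pi (mul (q 9 2) (var 0))) : E).val [a, T, h, x] = (Real.pi - 9 / 2 * a) := fun x => by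
    simp only [E.val, lkR]; push_cast; ring
  refine left_bound hT' L (by norm_num) (by rw [abs_le]; constructor <;> linarith only [a0, a1, T0, T1]) hr hi a0
    (by linarith only [a0, a1]) ?_ ?_
  · intro a2 x x0 x1 hK
    have hc : chk [sub (eS (q 100 14) (sub pi (mul (q 9 2) (var 0)))) (q (-9) 100), eK (q 100 14), neg (eK (q 100 14)), cN] 30
      [V.of 10000 100 700, V.of 10000 (-780) (-100), V.of 10000 50 620, V.of 10000 500 5000] = true := left_one0_h1
    obtain ⟨e, he, hp⟩ := chk4 hc (by norm_num) (x := a) (y := T) (z := h) (w := x)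
      (by norm_num; linarith only [a2]) (by norm_num; linarith only [a1]) (by norm_num; linarith only [T0])
      (by norm_num; linarith only [T1]) (by norm_num; linarith only [h0]) (by norm_num; linarith only [a0, a1, T1, h1])
      (by norm_num; linarith only [x0]) (by norm_num; linarith only [x1])
    simp only [List.mem_cons, List.not_mem_nil, or_false] at he
    rcases he with rfl | rfl | rfl | rfl
    · rw [E.val, eS_val (kv x) (cv x)] at hp
      simp only [E.val] at hp
      push_cast at hp
      linarith only [hp]
    · rw [eK_val (kv x)] at hp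
      linarith only [hK, hp]
    · rw [E.val, eK_val (kv x)] at hp
      linarith only [hK, hp]
    · exact absurd (cN_val hp) (by linarith only [h1])
  · intro a2 x x0 x1
    have hc : chk [sub (eS0 (q 100 14) (sub pi (mul (q 9 2) (var 0)))) (q (-9) 100)] 30
      [V.of 10000 0 100, V.of 10000 (-780) (-100), V.of 10000 50 620, V.of 10000 500 5000] = true := left_one0_h2
    have hp := pos_of_chk (chk4 hc (by norm_num) (x := a) (y := T) (z := h) (w := x)
      (by norm_num; linarith only [a0]) (by norm_num; linarith only [a2]) (by norm_num; linarith only [T0])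
      (by norm_num; linarith only [T1]) (by norm_num; linarith only [h0]) (by norm_num; linarith only [a0, T1, h1, a2])
      (by norm_num; linarith only [x0]) (by norm_num; linarith only [x1]))
    rw [E.val, eS0_val (kv x) (cv x)] at hp
    simp only [E.val] at hp
    push_cast at hp
    linarith only [hp]

/-- end 3 next to `three`, left ramp, `cl = 12 / 100` -/
theorem left_three12 {T h μ a : ℝ} {v : ℂ} (hT : HT .three T h) (L : LocM v h μ)
    (hr : v.re = a) (hi : v.im = (100 / 12) * T * a) (a0 : 0 < a) (a1 : a ≤ 12 / 100) :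
    4 / 100 < S3 1 ((100 / 12) * T) v (mpt h μ) + (Real.pi / 2) * ((100 / 12) * T) := by
  have hT' := hT
  obtain ⟨T0, T1, h1, h0⟩ := hT
  have kv : ∀ x : ℝ, ((q 100 12) : E).val [a, T, h, x] = (100 / 12) := fun x => by
    simp only [E.val]; norm_num
  have cv : ∀ x : ℝ, ((mul (q 1 2) pi) : E).val [a, T, h, x] = (Real.pi / 2) := fun x => by
    simp only [E.val]; push_cast; ring
  refine left_bound hT' L (by norm_num) (by rw [abs_le]; constructor <;> linarith only [a0, a1, T0, T1]) hr hi a0
    (by linarith only [a1]) ?_ ?_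
  · intro a2 x x0 x1 hK
    have hc : chk [sub (eS (q 100 12) (mul (q 1 2) pi)) (q 4 100), eK (q 100 12), neg (eK (q 100 12))] 30
      [V.of 10000 100 1200, V.of 10000 50 280, V.of 10000 0 430, V.of 10000 500 5000] = true := by
      decide +kernel
    obtain ⟨e, he, hp⟩ := chk4 hc (by norm_num) (x := a) (y := T) (z := h) (w := x)
      (by norm_num; linarith only [a2]) (by norm_num; linarith only [a1]) (by norm_num; linarith only [T0])
      (by norm_num; linarith only [T1]) (by norm_num; linarith only [a0, a1, T0, h0]) (by norm_num; linarith only [h1])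
      (by norm_num; linarith only [x0]) (by norm_num; linarith only [x1])
    simp only [List.mem_cons, List.not_mem_nil, or_false] at he
    rcases he with rfl | rfl | rfl
    · rw [E.val, eS_val (kv x) (cv x)] at hp
      simp only [E.val] at hp
      push_cast at hp
      linarith only [hp]
    · rw [eK_val (kv x)] at hp
      linarith only [hK, hp]
    · rw [E.val, eK_val (kv x)] at hp
      linarith only [hK, hp]
  · intro a2 x x0 x1
    have hc : chk [sub (eS0 (q 100 12) (mul (q 1 2) pi)) (q 4 100)] 30
      [V.of 10000 0 100, V.of 10000 50 280, V.of 10000 0 430, V.of 10000 500 5000] = true := by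
      decide +kernel
    have hp := pos_of_chk (chk4 hc (by norm_num) (x := a) (y := T) (z := h) (w := x)
      (by norm_num; linarith only [a0]) (by norm_num; linarith only [a2]) (by norm_num; linarith only [T0])
      (by norm_num; linarith only [T1]) (by norm_num; linarith only [a0, T0, h0, a2]) (by norm_num; linarith only [h1])
      (by norm_num; linarith only [x0]) (by norm_num; linarith only [x1]))
    rw [E.val, eS0_val (kv x) (cv x)] at hp
    simp only [E.val] at hp
    push_cast at hp
    linarith only [hp]

/-- end 3 next to `three`, left ramp, `cl = 13 / 100` -/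
theorem left_three13 {T h μ a : ℝ} {v : ℂ} (hT : HT .three T h) (L : LocM v h μ)
    (hr : v.re = a) (hi : v.im = (100 / 13) * T * a) (a0 : 0 < a) (a1 : a ≤ 13 / 100) :
    -(4 / 100) < S3 1 ((100 / 13) * T) v (mpt h μ) + (Real.pi / 2) * ((100 / 13) * T) := by
  have hT' := hT
  obtain ⟨T0, T1, h1, h0⟩ := hT
  have kv : ∀ x : ℝ, ((q 100 13) : E).val [a, T, h, x] = (100 / 13) := fun x => by
    simp only [E.val]; norm_num
  have cv : ∀ x : ℝ, ((mul (q 1 2) pi) : E).val [a, T, h, x] = (Real.pi / 2) := fun x => by
    simp only [E.val]; push_cast; ring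
  refine left_bound hT' L (by norm_num) (by rw [abs_le]; constructor <;> linarith only [a0, a1, T0, T1]) hr hi a0
    (by linarith only [a1]) ?_ ?_
  · intro a2 x x0 x1 hK
    have hc : chk [sub (eS (q 100 13) (mul (q 1 2) pi)) (q (-4) 100), eK (q 100 13), neg (eK (q 100 13))] 30
      [V.of 10000 100 1300, V.of 10000 50 280, V.of 10000 0 430, V.of 10000 500 5000] = true := by
      decide +kernel
    obtain ⟨e, he, hp⟩ := chk4 hc (by norm_num) (x := a) (y := T) (z := h) (w := x)
      (by norm_num; linarith only [a2]) (by norm_num; linarith only [a1]) (by norm_num; linarith only [T0])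
      (by norm_num; linarith only [T1]) (by norm_num; linarith only [a0, a1, T0, h0]) (by norm_num; linarith only [h1])
      (by norm_num; linarith only [x0]) (by norm_num; linarith only [x1])
    simp only [List.mem_cons, List.not_mem_nil, or_false] at he
    rcases he with rfl | rfl | rfl
    · rw [E.val, eS_val (kv x) (cv x)] at hp
      simp only [E.val] at hp
      push_cast at hp
      linarith only [hp]
    · rw [eK_val (kv x)] at hp
      linarith only [hK, hp]
    · rw [E.val, eK_val (kv x)] at hp
      linarith only [hK, hp]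
  · intro a2 x x0 x1
    have hc : chk [sub (eS0 (q 100 13) (mul (q 1 2) pi)) (q (-4) 100)] 30
      [V.of 10000 0 100, V.of 10000 50 280, V.of 10000 0 430, V.of 10000 500 5000] = true := by
      decide +kernel
    have hp := pos_of_chk (chk4 hc (by norm_num) (x := a) (y := T) (z := h) (w := x)
      (by norm_num; linarith only [a0]) (by norm_num; linarith only [a2]) (by norm_num; linarith only [T0])
      (by norm_num; linarith only [T1]) (by norm_num; linarith only [a0, T0, h0, a2]) (by norm_num; linarith only [h1])
      (by norm_num; linarith only [x0]) (by norm_num; linarith only [x1]))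
    rw [E.val, eS0_val (kv x) (cv x)] at hp
    simp only [E.val] at hp
    push_cast at hp
    linarith only [hp]

end L3

end Pool.Agent.Work.MP_b30479_gt.G2
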