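import Pool.Agent.Work.MP_b30479_gt.G2.ML3p
import Pool.Agent.Work.NumU.Expr
import Pool.Agent.Work.MP_b30479_gt.G2.ML3h
import Pool.Agent.Work.NumU.ChkS

/-!
# END 3: the side on the right ramp, numerical rows
-/

namespace Pool.Agent.Work.MP_b30479_gt.G2

open Finset VOL Filter Topology

namespace L3

open NumI (V lkR)
open NumU NumU.E

/-! ### expressions; variables `a T h μ`, `k = 1 / cr` -/

def xt (k : E) : E := mul (mul k (var 1)) (sub (q 6 10) (var 0))
def xs (k : E) : E := neg (mul k (var 1))
def xm : E := mul (mul (q 10 1) (var 2)) (var 3)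
def xy (k : E) : E := sub xm (xt k)

def xGA (k sg : E) : E :=
  sub (E.uu (sub (var 0) (var 3)) (sub (xt k) xm))
    (mul pi (sub (add (mul (xt k) (var 3)) (mul xm (sub (add (var 0) (var 3)) (q 1 2))))
      (mul sg (xy k))))

def xDA (k sg : E) : E :=
  add (sub (sub (E.lnA (sub (var 0) (var 3)) (sub (xt k) xm)) (E.lnA (var 0) (xt k))) (mul pi xm))
    (mul (xs k) (sub (sub (E.lnB (var 0) (xt k)) (E.lnB (sub (var 0) (var 3)) (sub (xt k) xm)))
      (mul pi (add (var 3) sg))))

def x77 (k : E) : E :=
  neg (add (mul (mul pi (q 77 100)) (xt k)) (E.uu (sub (q 77 100) (var 0)) (neg (xt k))))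

def x57 (k : E) : E :=
  neg (add (mul pi (add (mul (q 57 100) (xt k)) (mul (var 2) (add (var 0) (q 7 100)))))
    (E.uu (sub (q 57 100) (var 0)) (sub (var 2) (xt k))))

def xDB (k n : E) : E :=
  add (add (sub (neg (mul pi (add (xt k) (mul (q 2 1) (var 2))))) (E.lnA (var 0) (xt k)))
    (mul (xs k) (sub (E.lnB (var 0) (xt k)) (mul pi (var 3))))) (mul n (mul (xs k) (mul (q 1 2) pi)))

def xH : E := mul (mul (q 5 1) (var 2)) (sub (q 77 100) (var 3))

def xDC (k : E) : E :=
  add (sub (sub (E.lnA (sub (var 3) (var 0)) (sub xH (xt k))) (E.lnA (var 0) (xt k))) (mul pi xH))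
    (mul (xs k) (sub (sub (E.lnB (var 0) (xt k)) (E.lnB (sub (var 3) (var 0)) (sub xH (xt k))))
      (mul pi (var 3))))

def xFC (k : E) : E :=
  sub (add (neg (mul pi (add (xt k) xH))) (mul (mul (q 5 1) (var 2))
    (sub (mul pi (sub (add (var 0) (var 3)) (q 1 2)))
      (E.lnB (sub (var 3) (var 0)) (sub xH (xt k))))))
    (E.lnA (sub (var 3) (var 0)) (sub xH (xt k)))

def xDR (k sg : E) : E :=
  add (add (sub (sub (q (-35) 100) (E.lnA (var 0) (xt k))) (mul pi xH))
    (mul (xs k) (sub (E.lnB (var 0) (xt k)) (mul pi (var 3))))) (mul sg (mul (xs k) pi))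

/-- `e - (D + γ s)` -/
def xR (k D c e : E) : E := sub e (add D (mul c (xs k)))

section
variable {k sg c e n : E} {κ σ γ ε ν a T h μ : ℝ}

theorem xGA_val (hk : k.val [a, T, h, μ] = κ) (hs : sg.val [a, T, h, μ] = σ) :
    (xGA k sg).val [a, T, h, μ] = gA a (κ * T * (6 / 10 - a)) h μ σ := by
  simp only [xGA, xt, xm, xy, gA, E.val, lkR, hk, hs]
  push_cast
  simp only [div_one]

theorem xDA_val (hk : k.val [a, T, h, μ] = κ) (hs : sg.val [a, T, h, μ] = σ) :
    (xDA k sg).val [a, T, h, μ] = DA a (κ * T * (6 / 10 - a)) h μ σ (-(κ * T)) := by
  simp only [xDA, xt, xm, xs, DA, E.val, lkR, hk, hs]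
  push_cast
  simp only [div_one]

theorem x77_val (hk : k.val [a, T, h, μ] = κ) :
    (x77 k).val [a, T, h, μ] = V77 a (κ * T * (6 / 10 - a)) := by
  simp only [x77, xt, V77, E.val, lkR, hk]
  push_cast
  rfl

theorem x57_val (hk : k.val [a, T, h, μ] = κ) :
    (x57 k).val [a, T, h, μ] = V57 a (κ * T * (6 / 10 - a)) h := by
  simp only [x57, xt, V57, E.val, lkR, hk]
  push_cast
  rfl

theorem xDB_val (hk : k.val [a, T, h, μ] = κ) (hn : n.val [a, T, h, μ] = ν) :
    (xDB k n).val [a, T, h, μ] =
      DB a (κ * T * (6 / 10 - a)) h μ (-(κ * T)) (ν * (-(κ * T) * (Real.pi / 2))) := by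
  simp only [xDB, xt, xs, DB, E.val, lkR, hk, hn]
  push_cast
  ring

theorem xDC_val (hk : k.val [a, T, h, μ] = κ) :
    (xDC k).val [a, T, h, μ] = DC a (κ * T * (6 / 10 - a)) h μ (-(κ * T)) := by
  simp only [xDC, xt, xH, xs, DC, E.val, lkR, hk]
  push_cast
  simp only [div_one]

theorem xFC_val (hk : k.val [a, T, h, μ] = κ) :
    (xFC k).val [a, T, h, μ] = FC a (κ * T * (6 / 10 - a)) h μ := by
  simp only [xFC, xt, xH, FC, E.val, lkR, hk]
  push_cast
  simp only [div_one]

theorem xDR_val (hk : k.val [a, T, h, μ] = κ) (hs : sg.val [a, T, h, μ] = σ)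
    (hσ : σ * (-(κ * T)) = |(-(κ * T))|) :
    (xDR k sg).val [a, T, h, μ] = DR a (κ * T * (6 / 10 - a)) h μ (-(κ * T)) := by
  simp only [xDR, xt, xH, xs, DR, E.val, lkR, hk, hs, ← hσ]
  push_cast
  ring

theorem xR_val {D : E} (hk : k.val [a, T, h, μ] = κ) (hc : c.val [a, T, h, μ] = γ)
    (he : e.val [a, T, h, μ] = ε) : (xR k D c e).val [a, T, h, μ] =
      ε - (D.val [a, T, h, μ] + γ * (-(κ * T))) := by
  simp only [xR, xs, E.val, lkR, hk, hc, he]

end

theorem n0 : 0 < 10000 := by norm_num

theorem bl {l : ℤ} {x : ℝ} (h : (l : ℝ) ≤ 10000 * x) : (l : ℝ) / ((10000 : ℕ) : ℝ) ≤ x := by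
  rw [div_le_iff₀ (by norm_num)]
  push_cast
  linarith only [h]

theorem bu {l : ℤ} {x : ℝ} (h : 10000 * x ≤ (l : ℝ)) : x ≤ (l : ℝ) / ((10000 : ℕ) : ℝ) := by
  rw [le_div_iff₀ (by norm_num)]
  push_cast
  linarith only [h]

theorem bb_zero {s y : ℝ} (hs : 0 ≤ s) (hy : 0 ≤ y) : bb s y = 0 := by
  unfold bb
  rw [if_pos ⟨hs, hy⟩]

theorem bb_le {s y : ℝ} : bb s y ≤ |s| * (Real.pi / 2) := by
  have := Real.pi_pos
  unfold bb
  split_ifs
  · positivity
  · exact le_rfl

theorem DB_mono {a t h μ s β β' : ℝ} (hb : β ≤ β') : DB a t h μ s β ≤ DB a t h μ s β' := by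
  unfold DB
  linarith only [hb]

theorem right_two_a_h1 : chk [sub (x57 (q 10 3)) (xGA (q 10 3) (q 1 1)), xR (q 10 3) (xDA (q 10 3) (q 1 1)) (q 0 1) (q (-40) 100), sub (mul (q 1 2) (var 1)) (var 2), neg (xy (q 10 3))] 30
    [V.of 10000 3000 4000, V.of 10000 (-260) 130, V.of 10000 0 500, V.of 10000 0 1000] = true := by
  decide +kernel

theorem right_two_a_h2 : chk [sub (x57 (q 10 3)) (xGA (q 10 3) (q (-1) 1)), xR (q 10 3) (xDA (q 10 3) (q (-1) 1)) (q 0 1) (q (-40) 100), sub (mul (q 1 2) (var 1)) (var 2), xy (q 10 3)] 30
    [V.of 10000 3000 4000, V.of 10000 (-260) 130, V.of 10000 0 500, V.of 10000 0 1000] = true := by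
  decide +kernel

theorem right_two_a_h3 : chk [xR (q 10 3) (xDB (q 10 3) (q 0 1)) (q 0 1) (q (-40) 100), sub (mul (q 1 2) (var 1)) (var 2)] 30
    [V.of 10000 3000 4000, V.of 10000 (-260) 0, V.of 10000 0 500, V.of 10000 3000 5700] = true := by
  decide +kernel

theorem right_two_a_h4 : chk [xR (q 10 3) (xDB (q 10 3) (q (-1) 1)) (q 0 1) (q (-40) 100), sub (mul (q 1 2) (var 1)) (var 2)] 30
    [V.of 10000 3000 4000, V.of 10000 0 130, V.of 10000 0 500, V.of 10000 3000 5700] = true := by
  decide +kernel

theorem right_two_a_h5_q1 : chk [xR (q 10 3) (xDC (q 10 3)) (q 0 1) (q (-40) 100), neg (xFC (q 10 3)), sub (mul (q 1 2) (var 1)) (var 2), sub (q 5 100) (sub (var 3) (var 0))] 28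
    (NumI.setL 0 (NumI.setL 3 [V.of 10000 3000 4000, V.of 10000 (-260) 130, V.of 10000 0 500, V.of 10000 5700 7700])) = true := by
  decide +kernel

theorem right_two_a_h5_q2 : chk [xR (q 10 3) (xDC (q 10 3)) (q 0 1) (q (-40) 100), neg (xFC (q 10 3)), sub (mul (q 1 2) (var 1)) (var 2), sub (q 5 100) (sub (var 3) (var 0))] 26
    (NumI.setL 0 (NumI.setL 3 (NumI.setR 0 (NumI.setL 3 [V.of 10000 3000 4000, V.of 10000 (-260) 130, V.of 10000 0 500, V.of 10000 5700 7700])))) = true := by
  decide +kernel

theorem right_two_a_h5_q3 : chk [xR (q 10 3) (xDC (q 10 3)) (q 0 1) (q (-40) 100), neg (xFC (q 10 3)), sub (mul (q 1 2) (var 1)) (var 2), sub (q 5 100) (sub (var 3) (var 0))] 26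
    (NumI.setR 0 (NumI.setL 3 (NumI.setR 0 (NumI.setL 3 [V.of 10000 3000 4000, V.of 10000 (-260) 130, V.of 10000 0 500, V.of 10000 5700 7700])))) = true := by
  decide +kernel

theorem right_two_a_h5_q4 : chk [xR (q 10 3) (xDC (q 10 3)) (q 0 1) (q (-40) 100), neg (xFC (q 10 3)), sub (mul (q 1 2) (var 1)) (var 2), sub (q 5 100) (sub (var 3) (var 0))] 27
    (NumI.setR 3 (NumI.setR 0 (NumI.setL 3 [V.of 10000 3000 4000, V.of 10000 (-260) 130, V.of 10000 0 500, V.of 10000 5700 7700]))) = true := by
  decide +kernel

theorem right_two_a_h5_q5 : chk [xR (q 10 3) (xDC (q 10 3)) (q 0 1) (q (-40) 100), neg (xFC (q 10 3)), sub (mul (q 1 2) (var 1)) (var 2), sub (q 5 100) (sub (var 3) (var 0))] 29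
    (NumI.setR 3 [V.of 10000 3000 4000, V.of 10000 (-260) 130, V.of 10000 0 500, V.of 10000 5700 7700]) = true := by
  decide +kernel

theorem right_two_a_h5 : chk [xR (q 10 3) (xDC (q 10 3)) (q 0 1) (q (-40) 100), neg (xFC (q 10 3)), sub (mul (q 1 2) (var 1)) (var 2), sub (q 5 100) (sub (var 3) (var 0))] 30
    [V.of 10000 3000 4000, V.of 10000 (-260) 130, V.of 10000 0 500, V.of 10000 5700 7700] = true :=
  NumU.chk_node (i := 3) (by decide +kernel)
    (NumU.chk_node (i := 0) (by decide +kernel)
      right_two_a_h5_q1
      (NumU.chk_node (i := 3) (by decide +kernel)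
        (NumU.chk_node (i := 0) (by decide +kernel)
          right_two_a_h5_q2
          right_two_a_h5_q3)
        right_two_a_h5_q4))
    right_two_a_h5_q5

/-- end 3 next to `two`, right ramp -/
theorem right_two_a {T h μ a : ℝ} {v : ℂ} (hT : HT .two T h) (H : MaxM v h μ)
    (hr : v.re = a) (hi : v.im = 10 / 3 * T * (6 / 10 - a)) (a0 : 300 / 1000 ≤ a)
    (a1 : a ≤ 400 / 1000) :
    S3 1 (-(10 / 3 * T)) v (mpt h μ) ≤ -(40 / 100) := by
  obtain ⟨T0, T1, h0, h1, hT2⟩ := hT
  have hpi := Real.pi_pos
  have kv : ∀ μ : ℝ, ((q 10 3) : E).val [a, T, h, μ] = 10 / 3 := fun μ => by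
    simp only [E.val]; norm_num
  have cv : ∀ μ : ℝ, ((q 0 1) : E).val [a, T, h, μ] = 0 := fun μ => by
    simp only [E.val]; norm_num
  have ev : ∀ μ : ℝ, ((q (-40) 100) : E).val [a, T, h, μ] = -(40 / 100) := fun μ => by
    simp only [E.val]; norm_num
  have hh : |h| ≤ 655 / 10000 := by rw [abs_le]; constructor <;> linarith only [h0, h1]
  have htr : 52 / 100 ≤ a → |10 / 3 * T * (6 / 10 - a)| ≤ 25 / 1000 := fun c => by
    rw [abs_le]; constructor <;> nlinarith only [a1, c]
  rw [show S3 1 (-(10 / 3 * T)) v (mpt h μ) = S3 1 (-(10 / 3 * T)) v (mpt h μ) + 0 * (-(10 / 3 * T)) by ring]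
  refine right3 hr hi H (by linarith only [a0]) (by linarith only [a1]) hh htr ?_ ?_ ?_ ?_
  · intro m1 m0 σ hσ hy
    rcases hσ with rfl | rfl
    · have hc : chk [sub (x57 (q 10 3)) (xGA (q 10 3) (q 1 1)), xR (q 10 3) (xDA (q 10 3) (q 1 1)) (q 0 1) (q (-40) 100), sub (mul (q 1 2) (var 1)) (var 2), neg (xy (q 10 3))] 30
          [V.of 10000 3000 4000, V.of 10000 (-260) 130, V.of 10000 0 500, V.of 10000 0 1000] = true := right_two_a_h1
      obtain ⟨e, he, hp⟩ := chk4 hc n0 (x := a) (y := T) (z := h) (w := μ)
        (bl (by push_cast; linarith only [a0])) (bu (by push_cast; linarith only [a1]))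
        (bl (by push_cast; linarith only [T0])) (bu (by push_cast; linarith only [T1]))
        (bl (by push_cast; linarith only [h0])) (bu (by push_cast; linarith only [h1]))
        (bl (by push_cast; linarith only [m0])) (bu (by push_cast; linarith only [m1]))
      simp only [List.mem_cons, List.not_mem_nil, or_false] at he
      rcases he with rfl | rfl | rfl | rfl
      · left
        have sv : ((q 1 1) : E).val [a, T, h, μ] = 1 := by simp only [E.val]; norm_num
        rw [E.val, x57_val (kv μ), xGA_val (kv μ) sv] at hp
        linarith only [hp]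
      · right; right
        have sv : ((q 1 1) : E).val [a, T, h, μ] = 1 := by simp only [E.val]; norm_num
        rw [xR_val (kv μ) (cv μ) (ev μ), xDA_val (kv μ) sv] at hp
        linarith only [hp]
      · simp only [E.val, lkR] at hp
        push_cast at hp
        exact absurd hp (by linarith only [hT2, hp])
      · simp only [xy, xm, xt, E.val, lkR] at hp
        push_cast at hp
        exact absurd hp (by linarith only [hy, hp])
    · have hc : chk [sub (x57 (q 10 3)) (xGA (q 10 3) (q (-1) 1)), xR (q 10 3) (xDA (q 10 3) (q (-1) 1)) (q 0 1) (q (-40) 100), sub (mul (q 1 2) (var 1)) (var 2), xy (q 10 3)] 30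
          [V.of 10000 3000 4000, V.of 10000 (-260) 130, V.of 10000 0 500, V.of 10000 0 1000] = true := right_two_a_h2
      obtain ⟨e, he, hp⟩ := chk4 hc n0 (x := a) (y := T) (z := h) (w := μ)
        (bl (by push_cast; linarith only [a0])) (bu (by push_cast; linarith only [a1]))
        (bl (by push_cast; linarith only [T0])) (bu (by push_cast; linarith only [T1]))
        (bl (by push_cast; linarith only [h0])) (bu (by push_cast; linarith only [h1]))
        (bl (by push_cast; linarith only [m0])) (bu (by push_cast; linarith only [m1]))
      simp only [List.mem_cons, List.not_mem_nil, or_false] at he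
      rcases he with rfl | rfl | rfl | rfl
      · left
        have sv : ((q (-1) 1) : E).val [a, T, h, μ] = -1 := by simp only [E.val]; norm_num
        rw [E.val, x57_val (kv μ), xGA_val (kv μ) sv] at hp
        linarith only [hp]
      · right; right
        have sv : ((q (-1) 1) : E).val [a, T, h, μ] = -1 := by simp only [E.val]; norm_num
        rw [xR_val (kv μ) (cv μ) (ev μ), xDA_val (kv μ) sv] at hp
        linarith only [hp]
      · simp only [E.val, lkR] at hp
        push_cast at hp
        exact absurd hp (by linarith only [hT2, hp])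
      · simp only [xy, xm, xt, E.val, lkR] at hp
        push_cast at hp
        exact absurd hp (by linarith only [hy, hp])
  · intro w c1
    rcases le_total T 0 with d | d
    · have hb := bb_zero (s := -(10 / 3 * T)) (y := h - 10 / 3 * T * (6 / 10 - a)) (by linarith only [d]) (by nlinarith only [hT2, d, a0, h0, a1])
      rw [hb]
      have hz : (0 : ℝ) = 0 * (-(10 / 3 * T) * (Real.pi / 2)) := by ring
      rw [hz]
      have hc : chk [xR (q 10 3) (xDB (q 10 3) (q 0 1)) (q 0 1) (q (-40) 100), sub (mul (q 1 2) (var 1)) (var 2)] 30
          [V.of 10000 3000 4000, V.of 10000 (-260) 0, V.of 10000 0 500, V.of 10000 3000 5700] = true := right_two_a_h3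
      obtain ⟨e, he, hp⟩ := chk4 hc n0 (x := a) (y := T) (z := h) (w := μ)
        (bl (by push_cast; linarith only [a0])) (bu (by push_cast; linarith only [a1, w, c1]))
        (bl (by push_cast; linarith only [T0])) (bu (by push_cast; linarith only [T1, d]))
        (bl (by push_cast; linarith only [h0])) (bu (by push_cast; linarith only [h1]))
        (bl (by push_cast; linarith only [a0, w])) (bu (by push_cast; linarith only [c1]))
      simp only [List.mem_cons, List.not_mem_nil, or_false] at he
      rcases he with rfl | rfl
      · have nv : ((q 0 1) : E).val [a, T, h, μ] = 0 := by simp only [E.val]; norm_num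
        rw [xR_val (kv μ) (cv μ) (ev μ), xDB_val (kv μ) nv] at hp
        linarith only [hp]
      · simp only [E.val, lkR] at hp
        push_cast at hp
        exact absurd hp (by linarith only [hT2, hp])
    · have hb : bb (-(10 / 3 * T)) (h - 10 / 3 * T * (6 / 10 - a)) ≤ -1 * (-(10 / 3 * T) * (Real.pi / 2)) := by
        refine bb_le.trans (le_of_eq ?_)
        rw [abs_of_nonpos (by linarith only [d])]
        ring
      refine (add_le_add_left (DB_mono hb) _).trans ?_
      have hc : chk [xR (q 10 3) (xDB (q 10 3) (q (-1) 1)) (q 0 1) (q (-40) 100), sub (mul (q 1 2) (var 1)) (var 2)] 30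
          [V.of 10000 3000 4000, V.of 10000 0 130, V.of 10000 0 500, V.of 10000 3000 5700] = true := right_two_a_h4
      obtain ⟨e, he, hp⟩ := chk4 hc n0 (x := a) (y := T) (z := h) (w := μ)
        (bl (by push_cast; linarith only [a0])) (bu (by push_cast; linarith only [a1, w, c1]))
        (bl (by push_cast; linarith only [T0, d])) (bu (by push_cast; linarith only [T1]))
        (bl (by push_cast; linarith only [h0])) (bu (by push_cast; linarith only [h1]))
        (bl (by push_cast; linarith only [a0, w])) (bu (by push_cast; linarith only [c1]))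
      simp only [List.mem_cons, List.not_mem_nil, or_false] at he
      rcases he with rfl | rfl
      · have nv : ((q (-1) 1) : E).val [a, T, h, μ] = -1 := by simp only [E.val]; norm_num
        rw [xR_val (kv μ) (cv μ) (ev μ), xDB_val (kv μ) nv] at hp
        linarith only [hp]
      · simp only [E.val, lkR] at hp
        push_cast at hp
        exact absurd hp (by linarith only [hT2, hp])
  · intro m0 m1 w f
    have hc : chk [xR (q 10 3) (xDC (q 10 3)) (q 0 1) (q (-40) 100), neg (xFC (q 10 3)), sub (mul (q 1 2) (var 1)) (var 2), sub (q 5 100) (sub (var 3) (var 0))] 30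
        [V.of 10000 3000 4000, V.of 10000 (-260) 130, V.of 10000 0 500, V.of 10000 5700 7700] = true := right_two_a_h5
    obtain ⟨e, he, hp⟩ := chk4 hc n0 (x := a) (y := T) (z := h) (w := μ)
      (bl (by push_cast; linarith only [a0])) (bu (by push_cast; linarith only [a1]))
      (bl (by push_cast; linarith only [T0])) (bu (by push_cast; linarith only [T1]))
      (bl (by push_cast; linarith only [h0])) (bu (by push_cast; linarith only [h1]))
      (bl (by push_cast; linarith only [m0])) (bu (by push_cast; linarith only [m1]))
    simp only [List.mem_cons, List.not_mem_nil, or_false] at he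
    rcases he with rfl | rfl | rfl | rfl
    · rw [xR_val (kv μ) (cv μ) (ev μ), xDC_val (kv μ)] at hp
      linarith only [hp]
    · rw [E.val, xFC_val (kv μ)] at hp
      exact absurd hp (by linarith only [f])
    · simp only [E.val, lkR] at hp
      push_cast at hp
      exact absurd hp (by linarith only [hT2, hp])
    · simp only [E.val, lkR] at hp
      push_cast at hp
      exact absurd hp (by linarith only [a1, m0, hp])
  · intro d0 m0 m1
    exact absurd d0 (by linarith only [a1, d0])

/-- end 3 next to `two`, right ramp -/
theorem right_two_b {T h μ a : ℝ} {v : ℂ} (hT : HT .two T h) (H : MaxM v h μ)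
    (hr : v.re = a) (hi : v.im = 10 / 3 * T * (6 / 10 - a)) (a0 : 400 / 1000 ≤ a)
    (a1 : a ≤ 600 / 1000) :
    S3 1 (-(10 / 3 * T)) v (mpt h μ) ≤ -(2 / 100) := by
  obtain ⟨T0, T1, h0, h1, hT2⟩ := hT
  have hpi := Real.pi_pos
  have kv : ∀ μ : ℝ, ((q 10 3) : E).val [a, T, h, μ] = 10 / 3 := fun μ => by
    simp only [E.val]; norm_num
  have cv : ∀ μ : ℝ, ((q 0 1) : E).val [a, T, h, μ] = 0 := fun μ => by
    simp only [E.val]; norm_num
  have ev : ∀ μ : ℝ, ((q (-2) 100) : E).val [a, T, h, μ] = -(2 / 100) := fun μ => by
    simp only [E.val]; norm_num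
  have hh : |h| ≤ 655 / 10000 := by rw [abs_le]; constructor <;> linarith only [h0, h1]
  have htr : 52 / 100 ≤ a → |10 / 3 * T * (6 / 10 - a)| ≤ 25 / 1000 := fun c => by
    rw [abs_le]; constructor <;> nlinarith only [a1, T0, a0, T1]
  rw [show S3 1 (-(10 / 3 * T)) v (mpt h μ) = S3 1 (-(10 / 3 * T)) v (mpt h μ) + 0 * (-(10 / 3 * T)) by ring]
  refine right3 hr hi H (by linarith only [a0]) (by linarith only [a1]) hh htr ?_ ?_ ?_ ?_
  · intro m1 m0 σ hσ hy
    rcases le_total a (43 / 100) with d | d
    · rcases hσ with rfl | rfl
      · have hc : chk [sub (x57 (q 10 3)) (xGA (q 10 3) (q 1 1)), xR (q 10 3) (xDA (q 10 3) (q 1 1)) (q 0 1) (q (-2) 100), sub (mul (q 1 2) (var 1)) (var 2), neg (xy (q 10 3))] 30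
            [V.of 10000 4000 4300, V.of 10000 (-260) 130, V.of 10000 0 500, V.of 10000 0 1000] = true := by
          decide +kernel
        obtain ⟨e, he, hp⟩ := chk4 hc n0 (x := a) (y := T) (z := h) (w := μ)
          (bl (by push_cast; linarith only [a0, d])) (bu (by push_cast; linarith only [a1, d]))
          (bl (by push_cast; linarith only [T0])) (bu (by push_cast; linarith only [T1]))
          (bl (by push_cast; linarith only [h0])) (bu (by push_cast; linarith only [h1]))
          (bl (by push_cast; linarith only [m0])) (bu (by push_cast; linarith only [m1]))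
        simp only [List.mem_cons, List.not_mem_nil, or_false] at he
        rcases he with rfl | rfl | rfl | rfl
        · left
          have sv : ((q 1 1) : E).val [a, T, h, μ] = 1 := by simp only [E.val]; norm_num
          rw [E.val, x57_val (kv μ), xGA_val (kv μ) sv] at hp
          linarith only [hp]
        · right; right
          have sv : ((q 1 1) : E).val [a, T, h, μ] = 1 := by simp only [E.val]; norm_num
          rw [xR_val (kv μ) (cv μ) (ev μ), xDA_val (kv μ) sv] at hp
          linarith only [hp]
        · simp only [E.val, lkR] at hp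
          push_cast at hp
          exact absurd hp (by linarith only [hT2, hp])
        · simp only [xy, xm, xt, E.val, lkR] at hp
          push_cast at hp
          exact absurd hp (by linarith only [hy, hp])
      · have hc : chk [sub (x57 (q 10 3)) (xGA (q 10 3) (q (-1) 1)), xR (q 10 3) (xDA (q 10 3) (q (-1) 1)) (q 0 1) (q (-2) 100), sub (mul (q 1 2) (var 1)) (var 2), xy (q 10 3)] 30
            [V.of 10000 4000 4300, V.of 10000 (-260) 130, V.of 10000 0 500, V.of 10000 0 1000] = true := by
          decide +kernel
        obtain ⟨e, he, hp⟩ := chk4 hc n0 (x := a) (y := T) (z := h) (w := μ)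
          (bl (by push_cast; linarith only [a0, d])) (bu (by push_cast; linarith only [a1, d]))
          (bl (by push_cast; linarith only [T0])) (bu (by push_cast; linarith only [T1]))
          (bl (by push_cast; linarith only [h0])) (bu (by push_cast; linarith only [h1]))
          (bl (by push_cast; linarith only [m0])) (bu (by push_cast; linarith only [m1]))
        simp only [List.mem_cons, List.not_mem_nil, or_false] at he
        rcases he with rfl | rfl | rfl | rfl
        · left
          have sv : ((q (-1) 1) : E).val [a, T, h, μ] = -1 := by simp only [E.val]; norm_num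
          rw [E.val, x57_val (kv μ), xGA_val (kv μ) sv] at hp
          linarith only [hp]
        · right; right
          have sv : ((q (-1) 1) : E).val [a, T, h, μ] = -1 := by simp only [E.val]; norm_num
          rw [xR_val (kv μ) (cv μ) (ev μ), xDA_val (kv μ) sv] at hp
          linarith only [hp]
        · simp only [E.val, lkR] at hp
          push_cast at hp
          exact absurd hp (by linarith only [hT2, hp])
        · simp only [xy, xm, xt, E.val, lkR] at hp
          push_cast at hp
          exact absurd hp (by linarith only [hy, hp])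
    · rcases hσ with rfl | rfl
      · have hc : chk [sub (x77 (q 10 3)) (xGA (q 10 3) (q 1 1)), xR (q 10 3) (xDA (q 10 3) (q 1 1)) (q 0 1) (q (-2) 100), sub (mul (q 1 2) (var 1)) (var 2), neg (xy (q 10 3))] 30
            [V.of 10000 4300 6000, V.of 10000 (-260) 130, V.of 10000 0 500, V.of 10000 0 1000] = true := by
          decide +kernel
        obtain ⟨e, he, hp⟩ := chk4 hc n0 (x := a) (y := T) (z := h) (w := μ)
          (bl (by push_cast; linarith only [a0, d])) (bu (by push_cast; linarith only [a1, d]))
          (bl (by push_cast; linarith only [T0])) (bu (by push_cast; linarith only [T1]))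
          (bl (by push_cast; linarith only [h0])) (bu (by push_cast; linarith only [h1]))
          (bl (by push_cast; linarith only [m0])) (bu (by push_cast; linarith only [m1]))
        simp only [List.mem_cons, List.not_mem_nil, or_false] at he
        rcases he with rfl | rfl | rfl | rfl
        · right; left
          have sv : ((q 1 1) : E).val [a, T, h, μ] = 1 := by simp only [E.val]; norm_num
          rw [E.val, x77_val (kv μ), xGA_val (kv μ) sv] at hp
          linarith only [hp]
        · right; right
          have sv : ((q 1 1) : E).val [a, T, h, μ] = 1 := by simp only [E.val]; norm_num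
          rw [xR_val (kv μ) (cv μ) (ev μ), xDA_val (kv μ) sv] at hp
          linarith only [hp]
        · simp only [E.val, lkR] at hp
          push_cast at hp
          exact absurd hp (by linarith only [hT2, hp])
        · simp only [xy, xm, xt, E.val, lkR] at hp
          push_cast at hp
          exact absurd hp (by linarith only [hy, hp])
      · have hc : chk [sub (x77 (q 10 3)) (xGA (q 10 3) (q (-1) 1)), xR (q 10 3) (xDA (q 10 3) (q (-1) 1)) (q 0 1) (q (-2) 100), sub (mul (q 1 2) (var 1)) (var 2), xy (q 10 3)] 30
            [V.of 10000 4300 6000, V.of 10000 (-260) 130, V.of 10000 0 500, V.of 10000 0 1000] = true := by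
          decide +kernel
        obtain ⟨e, he, hp⟩ := chk4 hc n0 (x := a) (y := T) (z := h) (w := μ)
          (bl (by push_cast; linarith only [a0, d])) (bu (by push_cast; linarith only [a1, d]))
          (bl (by push_cast; linarith only [T0])) (bu (by push_cast; linarith only [T1]))
          (bl (by push_cast; linarith only [h0])) (bu (by push_cast; linarith only [h1]))
          (bl (by push_cast; linarith only [m0])) (bu (by push_cast; linarith only [m1]))
        simp only [List.mem_cons, List.not_mem_nil, or_false] at he
        rcases he with rfl | rfl | rfl | rfl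
        · right; left
          have sv : ((q (-1) 1) : E).val [a, T, h, μ] = -1 := by simp only [E.val]; norm_num
          rw [E.val, x77_val (kv μ), xGA_val (kv μ) sv] at hp
          linarith only [hp]
        · right; right
          have sv : ((q (-1) 1) : E).val [a, T, h, μ] = -1 := by simp only [E.val]; norm_num
          rw [xR_val (kv μ) (cv μ) (ev μ), xDA_val (kv μ) sv] at hp
          linarith only [hp]
        · simp only [E.val, lkR] at hp
          push_cast at hp
          exact absurd hp (by linarith only [hT2, hp])
        · simp only [xy, xm, xt, E.val, lkR] at hp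
          push_cast at hp
          exact absurd hp (by linarith only [hy, hp])
  · intro w c1
    rcases le_total T 0 with d | d
    · have hb := bb_zero (s := -(10 / 3 * T)) (y := h - 10 / 3 * T * (6 / 10 - a)) (by linarith only [d]) (by nlinarith only [a0, h0, a1, hT2, d])
      rw [hb]
      have hz : (0 : ℝ) = 0 * (-(10 / 3 * T) * (Real.pi / 2)) := by ring
      rw [hz]
      have hc : chk [xR (q 10 3) (xDB (q 10 3) (q 0 1)) (q 0 1) (q (-2) 100), sub (mul (q 1 2) (var 1)) (var 2)] 30
          [V.of 10000 4000 5700, V.of 10000 (-260) 0, V.of 10000 0 500, V.of 10000 4000 5700] = true := by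
        decide +kernel
      obtain ⟨e, he, hp⟩ := chk4 hc n0 (x := a) (y := T) (z := h) (w := μ)
        (bl (by push_cast; linarith only [a0])) (bu (by push_cast; linarith only [a1, w, c1]))
        (bl (by push_cast; linarith only [T0])) (bu (by push_cast; linarith only [T1, d]))
        (bl (by push_cast; linarith only [h0])) (bu (by push_cast; linarith only [h1]))
        (bl (by push_cast; linarith only [a0, w])) (bu (by push_cast; linarith only [c1]))
      simp only [List.mem_cons, List.not_mem_nil, or_false] at he
      rcases he with rfl | rfl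
      · have nv : ((q 0 1) : E).val [a, T, h, μ] = 0 := by simp only [E.val]; norm_num
        rw [xR_val (kv μ) (cv μ) (ev μ), xDB_val (kv μ) nv] at hp
        linarith only [hp]
      · simp only [E.val, lkR] at hp
        push_cast at hp
        exact absurd hp (by linarith only [hT2, hp])
    · have hb : bb (-(10 / 3 * T)) (h - 10 / 3 * T * (6 / 10 - a)) ≤ -1 * (-(10 / 3 * T) * (Real.pi / 2)) := by
        refine bb_le.trans (le_of_eq ?_)
        rw [abs_of_nonpos (by linarith only [d])]
        ring
      refine (add_le_add_left (DB_mono hb) _).trans ?_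
      have hc : chk [xR (q 10 3) (xDB (q 10 3) (q (-1) 1)) (q 0 1) (q (-2) 100), sub (mul (q 1 2) (var 1)) (var 2)] 30
          [V.of 10000 4000 5700, V.of 10000 0 130, V.of 10000 0 500, V.of 10000 4000 5700] = true := by
        decide +kernel
      obtain ⟨e, he, hp⟩ := chk4 hc n0 (x := a) (y := T) (z := h) (w := μ)
        (bl (by push_cast; linarith only [a0])) (bu (by push_cast; linarith only [a1, w, c1]))
        (bl (by push_cast; linarith only [T0, d])) (bu (by push_cast; linarith only [T1]))
        (bl (by push_cast; linarith only [h0])) (bu (by push_cast; linarith only [h1]))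
        (bl (by push_cast; linarith only [a0, w])) (bu (by push_cast; linarith only [c1]))
      simp only [List.mem_cons, List.not_mem_nil, or_false] at he
      rcases he with rfl | rfl
      · have nv : ((q (-1) 1) : E).val [a, T, h, μ] = -1 := by simp only [E.val]; norm_num
        rw [xR_val (kv μ) (cv μ) (ev μ), xDB_val (kv μ) nv] at hp
        linarith only [hp]
      · simp only [E.val, lkR] at hp
        push_cast at hp
        exact absurd hp (by linarith only [hT2, hp])
  · intro m0 m1 w f
    have hc : chk [xR (q 10 3) (xDC (q 10 3)) (q 0 1) (q (-2) 100), neg (xFC (q 10 3)), sub (mul (q 1 2) (var 1)) (var 2), sub (q 5 100) (sub (var 3) (var 0))] 30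
        [V.of 10000 4000 6000, V.of 10000 (-260) 130, V.of 10000 0 500, V.of 10000 5700 7700] = true := by
      decide +kernel
    obtain ⟨e, he, hp⟩ := chk4 hc n0 (x := a) (y := T) (z := h) (w := μ)
      (bl (by push_cast; linarith only [a0])) (bu (by push_cast; linarith only [a1]))
      (bl (by push_cast; linarith only [T0])) (bu (by push_cast; linarith only [T1]))
      (bl (by push_cast; linarith only [h0])) (bu (by push_cast; linarith only [h1]))
      (bl (by push_cast; linarith only [m0])) (bu (by push_cast; linarith only [m1]))
    simp only [List.mem_cons, List.not_mem_nil, or_false] at he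
    rcases he with rfl | rfl | rfl | rfl
    · rw [xR_val (kv μ) (cv μ) (ev μ), xDC_val (kv μ)] at hp
      linarith only [hp]
    · rw [E.val, xFC_val (kv μ)] at hp
      exact absurd hp (by linarith only [f])
    · simp only [E.val, lkR] at hp
      push_cast at hp
      exact absurd hp (by linarith only [hT2, hp])
    · simp only [E.val, lkR] at hp
      push_cast at hp
      exact absurd hp (by linarith only [w, hp])
  · intro d0 m0 m1
    rcases le_total T 0 with d | d
    · have sv : ((q 1 1) : E).val [a, T, h, μ] = 1 := by simp only [E.val]; norm_num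
      have hs : (1 : ℝ) * (-(10 / 3 * T)) = |(-(10 / 3 * T))| := by
        rw [abs_of_nonneg (by linarith only [d])]; ring
      have hc : chk [xR (q 10 3) (xDR (q 10 3) (q 1 1)) (q 0 1) (q (-2) 100)] 30
          [V.of 10000 5200 6000, V.of 10000 (-260) 0, V.of 10000 0 500, V.of 10000 5700 6500] = true := by
        decide +kernel
      obtain ⟨e, he, hp⟩ := chk4 hc n0 (x := a) (y := T) (z := h) (w := μ)
        (bl (by push_cast; linarith only [a0, d0])) (bu (by push_cast; linarith only [a1]))
        (bl (by push_cast; linarith only [T0])) (bu (by push_cast; linarith only [T1, d]))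
        (bl (by push_cast; linarith only [h0])) (bu (by push_cast; linarith only [h1]))
        (bl (by push_cast; linarith only [m0])) (bu (by push_cast; linarith only [m1]))
      simp only [List.mem_cons, List.not_mem_nil, or_false] at he
      subst he
      rw [xR_val (kv μ) (cv μ) (ev μ), xDR_val (kv μ) sv hs] at hp
      linarith only [hp]
    · have sv : ((q (-1) 1) : E).val [a, T, h, μ] = -1 := by simp only [E.val]; norm_num
      have hs : (-1 : ℝ) * (-(10 / 3 * T)) = |(-(10 / 3 * T))| := by
        rw [abs_of_nonpos (by linarith only [d])]; ring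
      have hc : chk [xR (q 10 3) (xDR (q 10 3) (q (-1) 1)) (q 0 1) (q (-2) 100)] 30
          [V.of 10000 5200 6000, V.of 10000 0 130, V.of 10000 0 500, V.of 10000 5700 6500] = true := by
        decide +kernel
      obtain ⟨e, he, hp⟩ := chk4 hc n0 (x := a) (y := T) (z := h) (w := μ)
        (bl (by push_cast; linarith only [a0, d0])) (bu (by push_cast; linarith only [a1]))
        (bl (by push_cast; linarith only [T0, d])) (bu (by push_cast; linarith only [T1]))
        (bl (by push_cast; linarith only [h0])) (bu (by push_cast; linarith only [h1]))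
        (bl (by push_cast; linarith only [m0])) (bu (by push_cast; linarith only [m1]))
      simp only [List.mem_cons, List.not_mem_nil, or_false] at he
      subst he
      rw [xR_val (kv μ) (cv μ) (ev μ), xDR_val (kv μ) sv hs] at hp
      linarith only [hp]

/-- end 3 next to `twoE`, right ramp -/
theorem right_twoE {T h μ a : ℝ} {v : ℂ} (hT : HT .twoE T h) (H : MaxM v h μ)
    (hr : v.re = a) (hi : v.im = 10 / 3 * T * (6 / 10 - a)) (a0 : 300 / 1000 ≤ a)
    (a1 : a ≤ 600 / 1000) :
    S3 1 (-(10 / 3 * T)) v (mpt h μ) ≤ -(30 / 100) := by
  obtain ⟨T0, T1, h0, h1⟩ := hT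
  have hpi := Real.pi_pos
  have kv : ∀ μ : ℝ, ((q 10 3) : E).val [a, T, h, μ] = 10 / 3 := fun μ => by
    simp only [E.val]; norm_num
  have cv : ∀ μ : ℝ, ((q 0 1) : E).val [a, T, h, μ] = 0 := fun μ => by
    simp only [E.val]; norm_num
  have ev : ∀ μ : ℝ, ((q (-30) 100) : E).val [a, T, h, μ] = -(30 / 100) := fun μ => by
    simp only [E.val]; norm_num
  have hh : |h| ≤ 655 / 10000 := by rw [abs_le]; constructor <;> linarith only [h0, h1]
  have htr : 52 / 100 ≤ a → |10 / 3 * T * (6 / 10 - a)| ≤ 25 / 1000 := fun c => by
    rw [abs_le]; constructor <;> nlinarith only [T0, c, a0, T1, a1]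
  rw [show S3 1 (-(10 / 3 * T)) v (mpt h μ) = S3 1 (-(10 / 3 * T)) v (mpt h μ) + 0 * (-(10 / 3 * T)) by ring]
  refine right3 hr hi H (by linarith only [a0]) (by linarith only [a1]) hh htr ?_ ?_ ?_ ?_
  · intro m1 m0 σ hσ hy
    rcases le_total a (43 / 100) with d | d
    · rcases hσ with rfl | rfl
      · have hc : chk [sub (x57 (q 10 3)) (xGA (q 10 3) (q 1 1)), xR (q 10 3) (xDA (q 10 3) (q 1 1)) (q 0 1) (q (-30) 100), neg (xy (q 10 3))] 30
            [V.of 10000 3000 4300, V.of 10000 (-690) (-650), V.of 10000 (-270) (-190), V.of 10000 0 1000] = true := by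
          decide +kernel
        obtain ⟨e, he, hp⟩ := chk4 hc n0 (x := a) (y := T) (z := h) (w := μ)
          (bl (by push_cast; linarith only [a0, d])) (bu (by push_cast; linarith only [a1, d]))
          (bl (by push_cast; linarith only [T0])) (bu (by push_cast; linarith only [T1]))
          (bl (by push_cast; linarith only [h0])) (bu (by push_cast; linarith only [h1]))
          (bl (by push_cast; linarith only [m0])) (bu (by push_cast; linarith only [m1]))
        simp only [List.mem_cons, List.not_mem_nil, or_false] at he
        rcases he with rfl | rfl | rfl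
        · left
          have sv : ((q 1 1) : E).val [a, T, h, μ] = 1 := by simp only [E.val]; norm_num
          rw [E.val, x57_val (kv μ), xGA_val (kv μ) sv] at hp
          linarith only [hp]
        · right; right
          have sv : ((q 1 1) : E).val [a, T, h, μ] = 1 := by simp only [E.val]; norm_num
          rw [xR_val (kv μ) (cv μ) (ev μ), xDA_val (kv μ) sv] at hp
          linarith only [hp]
        · simp only [xy, xm, xt, E.val, lkR] at hp
          push_cast at hp
          exact absurd hp (by linarith only [hy, hp])
      · have hc : chk [sub (x57 (q 10 3)) (xGA (q 10 3) (q (-1) 1)), xR (q 10 3) (xDA (q 10 3) (q (-1) 1)) (q 0 1) (q (-30) 100), xy (q 10 3)] 30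
            [V.of 10000 3000 4300, V.of 10000 (-690) (-650), V.of 10000 (-270) (-190), V.of 10000 0 1000] = true := by
          decide +kernel
        obtain ⟨e, he, hp⟩ := chk4 hc n0 (x := a) (y := T) (z := h) (w := μ)
          (bl (by push_cast; linarith only [a0, d])) (bu (by push_cast; linarith only [a1, d]))
          (bl (by push_cast; linarith only [T0])) (bu (by push_cast; linarith only [T1]))
          (bl (by push_cast; linarith only [h0])) (bu (by push_cast; linarith only [h1]))
          (bl (by push_cast; linarith only [m0])) (bu (by push_cast; linarith only [m1]))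
        simp only [List.mem_cons, List.not_mem_nil, or_false] at he
        rcases he with rfl | rfl | rfl
        · left
          have sv : ((q (-1) 1) : E).val [a, T, h, μ] = -1 := by simp only [E.val]; norm_num
          rw [E.val, x57_val (kv μ), xGA_val (kv μ) sv] at hp
          linarith only [hp]
        · right; right
          have sv : ((q (-1) 1) : E).val [a, T, h, μ] = -1 := by simp only [E.val]; norm_num
          rw [xR_val (kv μ) (cv μ) (ev μ), xDA_val (kv μ) sv] at hp
          linarith only [hp]
        · simp only [xy, xm, xt, E.val, lkR] at hp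
          push_cast at hp
          exact absurd hp (by linarith only [hy, hp])
    · rcases hσ with rfl | rfl
      · have hc : chk [sub (x77 (q 10 3)) (xGA (q 10 3) (q 1 1)), xR (q 10 3) (xDA (q 10 3) (q 1 1)) (q 0 1) (q (-30) 100), neg (xy (q 10 3))] 30
            [V.of 10000 4300 6000, V.of 10000 (-690) (-650), V.of 10000 (-270) (-190), V.of 10000 0 1000] = true := by
          decide +kernel
        obtain ⟨e, he, hp⟩ := chk4 hc n0 (x := a) (y := T) (z := h) (w := μ)
          (bl (by push_cast; linarith only [a0, d])) (bu (by push_cast; linarith only [a1, d]))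
          (bl (by push_cast; linarith only [T0])) (bu (by push_cast; linarith only [T1]))
          (bl (by push_cast; linarith only [h0])) (bu (by push_cast; linarith only [h1]))
          (bl (by push_cast; linarith only [m0])) (bu (by push_cast; linarith only [m1]))
        simp only [List.mem_cons, List.not_mem_nil, or_false] at he
        rcases he with rfl | rfl | rfl
        · right; left
          have sv : ((q 1 1) : E).val [a, T, h, μ] = 1 := by simp only [E.val]; norm_num
          rw [E.val, x77_val (kv μ), xGA_val (kv μ) sv] at hp
          linarith only [hp]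
        · right; right
          have sv : ((q 1 1) : E).val [a, T, h, μ] = 1 := by simp only [E.val]; norm_num
          rw [xR_val (kv μ) (cv μ) (ev μ), xDA_val (kv μ) sv] at hp
          linarith only [hp]
        · simp only [xy, xm, xt, E.val, lkR] at hp
          push_cast at hp
          exact absurd hp (by linarith only [hy, hp])
      · have hc : chk [sub (x77 (q 10 3)) (xGA (q 10 3) (q (-1) 1)), xR (q 10 3) (xDA (q 10 3) (q (-1) 1)) (q 0 1) (q (-30) 100), xy (q 10 3)] 30
            [V.of 10000 4300 6000, V.of 10000 (-690) (-650), V.of 10000 (-270) (-190), V.of 10000 0 1000] = true := by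
          decide +kernel
        obtain ⟨e, he, hp⟩ := chk4 hc n0 (x := a) (y := T) (z := h) (w := μ)
          (bl (by push_cast; linarith only [a0, d])) (bu (by push_cast; linarith only [a1, d]))
          (bl (by push_cast; linarith only [T0])) (bu (by push_cast; linarith only [T1]))
          (bl (by push_cast; linarith only [h0])) (bu (by push_cast; linarith only [h1]))
          (bl (by push_cast; linarith only [m0])) (bu (by push_cast; linarith only [m1]))
        simp only [List.mem_cons, List.not_mem_nil, or_false] at he
        rcases he with rfl | rfl | rfl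
        · right; left
          have sv : ((q (-1) 1) : E).val [a, T, h, μ] = -1 := by simp only [E.val]; norm_num
          rw [E.val, x77_val (kv μ), xGA_val (kv μ) sv] at hp
          linarith only [hp]
        · right; right
          have sv : ((q (-1) 1) : E).val [a, T, h, μ] = -1 := by simp only [E.val]; norm_num
          rw [xR_val (kv μ) (cv μ) (ev μ), xDA_val (kv μ) sv] at hp
          linarith only [hp]
        · simp only [xy, xm, xt, E.val, lkR] at hp
          push_cast at hp
          exact absurd hp (by linarith only [hy, hp])
  · intro w c1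
    rcases le_total (10 / 3 * T * (6 / 10 - a)) h with d | d
    · have hb := bb_zero (s := -(10 / 3 * T)) (y := h - 10 / 3 * T * (6 / 10 - a)) (by linarith only [T1]) (by linarith only [d])
      rw [hb]
      have hz : (0 : ℝ) = 0 * (-(10 / 3 * T) * (Real.pi / 2)) := by ring
      rw [hz]
      have hc : chk [xR (q 10 3) (xDB (q 10 3) (q 0 1)) (q 0 1) (q (-30) 100), sub (xt (q 10 3)) (var 2)] 30
          [V.of 10000 3000 5700, V.of 10000 (-690) (-650), V.of 10000 (-270) (-190), V.of 10000 3000 5700] = true := by
        decide +kernel
      obtain ⟨e, he, hp⟩ := chk4 hc n0 (x := a) (y := T) (z := h) (w := μ)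
        (bl (by push_cast; linarith only [a0])) (bu (by push_cast; linarith only [a1, w, c1]))
        (bl (by push_cast; linarith only [T0])) (bu (by push_cast; linarith only [T1]))
        (bl (by push_cast; linarith only [h0])) (bu (by push_cast; linarith only [h1]))
        (bl (by push_cast; linarith only [a0, w])) (bu (by push_cast; linarith only [c1]))
      simp only [List.mem_cons, List.not_mem_nil, or_false] at he
      rcases he with rfl | rfl
      · have nv : ((q 0 1) : E).val [a, T, h, μ] = 0 := by simp only [E.val]; norm_num
        rw [xR_val (kv μ) (cv μ) (ev μ), xDB_val (kv μ) nv] at hp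
        linarith only [hp]
      · simp only [xt, E.val, lkR] at hp
        push_cast at hp
        exact absurd hp (by linarith only [d, hp])
    · have hb : bb (-(10 / 3 * T)) (h - 10 / 3 * T * (6 / 10 - a)) ≤ 1 * (-(10 / 3 * T) * (Real.pi / 2)) := by
        refine bb_le.trans (le_of_eq ?_)
        rw [abs_of_nonneg (by linarith only [T1])]
        ring
      refine (add_le_add_left (DB_mono hb) _).trans ?_
      have hc : chk [xR (q 10 3) (xDB (q 10 3) (q 1 1)) (q 0 1) (q (-30) 100), sub (var 2) (xt (q 10 3)), sub (var 0) (var 3)] 30
          [V.of 10000 3000 5700, V.of 10000 (-690) (-650), V.of 10000 (-270) (-190), V.of 10000 3000 5700] = true := by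
        decide +kernel
      obtain ⟨e, he, hp⟩ := chk4 hc n0 (x := a) (y := T) (z := h) (w := μ)
        (bl (by push_cast; linarith only [a0])) (bu (by push_cast; linarith only [a1, w, c1]))
        (bl (by push_cast; linarith only [T0])) (bu (by push_cast; linarith only [T1]))
        (bl (by push_cast; linarith only [h0])) (bu (by push_cast; linarith only [h1]))
        (bl (by push_cast; linarith only [a0, w])) (bu (by push_cast; linarith only [c1]))
      simp only [List.mem_cons, List.not_mem_nil, or_false] at he
      rcases he with rfl | rfl | rfl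
      · have nv : ((q 1 1) : E).val [a, T, h, μ] = 1 := by simp only [E.val]; norm_num
        rw [xR_val (kv μ) (cv μ) (ev μ), xDB_val (kv μ) nv] at hp
        linarith only [hp]
      · simp only [xt, E.val, lkR] at hp
        push_cast at hp
        exact absurd hp (by linarith only [d, hp])
      · simp only [E.val, lkR] at hp
        exact absurd hp (by linarith only [w, hp])
  · intro m0 m1 w f
    have hc : chk [xR (q 10 3) (xDC (q 10 3)) (q 0 1) (q (-30) 100), neg (xFC (q 10 3)), sub (q 5 100) (sub (var 3) (var 0))] 30
        [V.of 10000 3000 6000, V.of 10000 (-690) (-650), V.of 10000 (-270) (-190), V.of 10000 5700 7700] = true := by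
      decide +kernel
    obtain ⟨e, he, hp⟩ := chk4 hc n0 (x := a) (y := T) (z := h) (w := μ)
      (bl (by push_cast; linarith only [a0])) (bu (by push_cast; linarith only [a1]))
      (bl (by push_cast; linarith only [T0])) (bu (by push_cast; linarith only [T1]))
      (bl (by push_cast; linarith only [h0])) (bu (by push_cast; linarith only [h1]))
      (bl (by push_cast; linarith only [m0])) (bu (by push_cast; linarith only [m1]))
    simp only [List.mem_cons, List.not_mem_nil, or_false] at he
    rcases he with rfl | rfl | rfl
    · rw [xR_val (kv μ) (cv μ) (ev μ), xDC_val (kv μ)] at hp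
      linarith only [hp]
    · rw [E.val, xFC_val (kv μ)] at hp
      exact absurd hp (by linarith only [f])
    · simp only [E.val, lkR] at hp
      push_cast at hp
      exact absurd hp (by linarith only [w, hp])
  · intro d0 m0 m1
    have sv : ((q 1 1) : E).val [a, T, h, μ] = 1 := by simp only [E.val]; norm_num
    have hs : (1 : ℝ) * (-(10 / 3 * T)) = |(-(10 / 3 * T))| := by
      rw [abs_of_nonneg (by linarith only [T1])]; ring
    have hc : chk [xR (q 10 3) (xDR (q 10 3) (q 1 1)) (q 0 1) (q (-30) 100)] 30
        [V.of 10000 5200 6000, V.of 10000 (-690) (-650), V.of 10000 (-270) (-190), V.of 10000 5700 6500] = true := by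
      decide +kernel
    obtain ⟨e, he, hp⟩ := chk4 hc n0 (x := a) (y := T) (z := h) (w := μ)
      (bl (by push_cast; linarith only [a0, d0])) (bu (by push_cast; linarith only [a1]))
      (bl (by push_cast; linarith only [T0])) (bu (by push_cast; linarith only [T1]))
      (bl (by push_cast; linarith only [h0])) (bu (by push_cast; linarith only [h1]))
      (bl (by push_cast; linarith only [m0])) (bu (by push_cast; linarith only [m1]))
    simp only [List.mem_cons, List.not_mem_nil, or_false] at he
    subst he
    rw [xR_val (kv μ) (cv μ) (ev μ), xDR_val (kv μ) sv hs] at hp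
    linarith only [hp]

/-- end 3 next to `three`, right ramp -/
theorem right_three_a {T h μ a : ℝ} {v : ℂ} (hT : HT .three T h) (H : MaxM v h μ)
    (hr : v.re = a) (hi : v.im = 10 / 3 * T * (6 / 10 - a)) (a0 : 300 / 1000 ≤ a)
    (a1 : a ≤ 400 / 1000) :
    S3 1 (-(10 / 3 * T)) v (mpt h μ) ≤ -(35 / 100) := by
  obtain ⟨T0, T1, h1, hT2⟩ := hT
  have hpi := Real.pi_pos
  have kv : ∀ μ : ℝ, ((q 10 3) : E).val [a, T, h, μ] = 10 / 3 := fun μ => by
    simp only [E.val]; norm_num
  have cv : ∀ μ : ℝ, ((q 0 1) : E).val [a, T, h, μ] = 0 := fun μ => by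
    simp only [E.val]; norm_num
  have ev : ∀ μ : ℝ, ((q (-35) 100) : E).val [a, T, h, μ] = -(35 / 100) := fun μ => by
    simp only [E.val]; norm_num
  have hh : |h| ≤ 655 / 10000 := by rw [abs_le]; constructor <;> linarith only [T0, hT2, h1]
  have htr : 52 / 100 ≤ a → |10 / 3 * T * (6 / 10 - a)| ≤ 25 / 1000 := fun c => by
    rw [abs_le]; constructor <;> nlinarith only [a1, c]
  rw [show S3 1 (-(10 / 3 * T)) v (mpt h μ) = S3 1 (-(10 / 3 * T)) v (mpt h μ) + 0 * (-(10 / 3 * T)) by ring]
  refine right3 hr hi H (by linarith only [a0]) (by linarith only [a1]) hh htr ?_ ?_ ?_ ?_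
  · intro m1 m0 σ hσ hy
    rcases hσ with rfl | rfl
    · have hc : chk [sub (x57 (q 10 3)) (xGA (q 10 3) (q 1 1)), xR (q 10 3) (xDA (q 10 3) (q 1 1)) (q 0 1) (q (-35) 100), sub (mul (q 1 2) (var 1)) (var 2), neg (xy (q 10 3))] 30
          [V.of 10000 3000 4000, V.of 10000 50 280, V.of 10000 0 430, V.of 10000 0 1000] = true := by
        decide +kernel
      obtain ⟨e, he, hp⟩ := chk4 hc n0 (x := a) (y := T) (z := h) (w := μ)
        (bl (by push_cast; linarith only [a0])) (bu (by push_cast; linarith only [a1]))
        (bl (by push_cast; linarith only [T0])) (bu (by push_cast; linarith only [T1]))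
        (bl (by push_cast; linarith only [hT2, T0])) (bu (by push_cast; linarith only [h1]))
        (bl (by push_cast; linarith only [m0])) (bu (by push_cast; linarith only [m1]))
      simp only [List.mem_cons, List.not_mem_nil, or_false] at he
      rcases he with rfl | rfl | rfl | rfl
      · left
        have sv : ((q 1 1) : E).val [a, T, h, μ] = 1 := by simp only [E.val]; norm_num
        rw [E.val, x57_val (kv μ), xGA_val (kv μ) sv] at hp
        linarith only [hp]
      · right; right
        have sv : ((q 1 1) : E).val [a, T, h, μ] = 1 := by simp only [E.val]; norm_num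
        rw [xR_val (kv μ) (cv μ) (ev μ), xDA_val (kv μ) sv] at hp
        linarith only [hp]
      · simp only [E.val, lkR] at hp
        push_cast at hp
        exact absurd hp (by linarith only [hT2, hp])
      · simp only [xy, xm, xt, E.val, lkR] at hp
        push_cast at hp
        exact absurd hp (by linarith only [hy, hp])
    · have hc : chk [sub (x57 (q 10 3)) (xGA (q 10 3) (q (-1) 1)), xR (q 10 3) (xDA (q 10 3) (q (-1) 1)) (q 0 1) (q (-35) 100), sub (mul (q 1 2) (var 1)) (var 2), xy (q 10 3)] 30
          [V.of 10000 3000 4000, V.of 10000 50 280, V.of 10000 0 430, V.of 10000 0 1000] = true := by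
        decide +kernel
      obtain ⟨e, he, hp⟩ := chk4 hc n0 (x := a) (y := T) (z := h) (w := μ)
        (bl (by push_cast; linarith only [a0])) (bu (by push_cast; linarith only [a1]))
        (bl (by push_cast; linarith only [T0])) (bu (by push_cast; linarith only [T1]))
        (bl (by push_cast; linarith only [hT2, T0])) (bu (by push_cast; linarith only [h1]))
        (bl (by push_cast; linarith only [m0])) (bu (by push_cast; linarith only [m1]))
      simp only [List.mem_cons, List.not_mem_nil, or_false] at he
      rcases he with rfl | rfl | rfl | rfl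
      · left
        have sv : ((q (-1) 1) : E).val [a, T, h, μ] = -1 := by simp only [E.val]; norm_num
        rw [E.val, x57_val (kv μ), xGA_val (kv μ) sv] at hp
        linarith only [hp]
      · right; right
        have sv : ((q (-1) 1) : E).val [a, T, h, μ] = -1 := by simp only [E.val]; norm_num
        rw [xR_val (kv μ) (cv μ) (ev μ), xDA_val (kv μ) sv] at hp
        linarith only [hp]
      · simp only [E.val, lkR] at hp
        push_cast at hp
        exact absurd hp (by linarith only [hT2, hp])
      · simp only [xy, xm, xt, E.val, lkR] at hp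
        push_cast at hp
        exact absurd hp (by linarith only [hy, hp])
  · intro w c1
    have hb : bb (-(10 / 3 * T)) (h - 10 / 3 * T * (6 / 10 - a)) ≤ -1 * (-(10 / 3 * T) * (Real.pi / 2)) := by
      refine bb_le.trans (le_of_eq ?_)
      rw [abs_of_nonpos (by linarith only [T0])]
      ring
    refine (add_le_add_left (DB_mono hb) _).trans ?_
    have hc : chk [xR (q 10 3) (xDB (q 10 3) (q (-1) 1)) (q 0 1) (q (-35) 100), sub (mul (q 1 2) (var 1)) (var 2)] 30
        [V.of 10000 3000 4000, V.of 10000 50 280, V.of 10000 0 430, V.of 10000 3000 5700] = true := by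
      decide +kernel
    obtain ⟨e, he, hp⟩ := chk4 hc n0 (x := a) (y := T) (z := h) (w := μ)
      (bl (by push_cast; linarith only [a0])) (bu (by push_cast; linarith only [a1, w, c1]))
      (bl (by push_cast; linarith only [T0])) (bu (by push_cast; linarith only [T1]))
      (bl (by push_cast; linarith only [hT2, T0])) (bu (by push_cast; linarith only [h1]))
      (bl (by push_cast; linarith only [a0, w])) (bu (by push_cast; linarith only [c1]))
    simp only [List.mem_cons, List.not_mem_nil, or_false] at he
    rcases he with rfl | rfl
    · have nv : ((q (-1) 1) : E).val [a, T, h, μ] = -1 := by simp only [E.val]; norm_num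
      rw [xR_val (kv μ) (cv μ) (ev μ), xDB_val (kv μ) nv] at hp
      linarith only [hp]
    · simp only [E.val, lkR] at hp
      push_cast at hp
      exact absurd hp (by linarith only [hT2, hp])
  · intro m0 m1 w f
    have hc : chk [xR (q 10 3) (xDC (q 10 3)) (q 0 1) (q (-35) 100), neg (xFC (q 10 3)), sub (mul (q 1 2) (var 1)) (var 2), sub (q 5 100) (sub (var 3) (var 0))] 30
        [V.of 10000 3000 4000, V.of 10000 50 280, V.of 10000 0 430, V.of 10000 5700 7700] = true := by
      decide +kernel
    obtain ⟨e, he, hp⟩ := chk4 hc n0 (x := a) (y := T) (z := h) (w := μ)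
      (bl (by push_cast; linarith only [a0])) (bu (by push_cast; linarith only [a1]))
      (bl (by push_cast; linarith only [T0])) (bu (by push_cast; linarith only [T1]))
      (bl (by push_cast; linarith only [hT2, T0])) (bu (by push_cast; linarith only [h1]))
      (bl (by push_cast; linarith only [m0])) (bu (by push_cast; linarith only [m1]))
    simp only [List.mem_cons, List.not_mem_nil, or_false] at he
    rcases he with rfl | rfl | rfl | rfl
    · rw [xR_val (kv μ) (cv μ) (ev μ), xDC_val (kv μ)] at hp
      linarith only [hp]
    · rw [E.val, xFC_val (kv μ)] at hp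
      exact absurd hp (by linarith only [f])
    · simp only [E.val, lkR] at hp
      push_cast at hp
      exact absurd hp (by linarith only [hT2, hp])
    · simp only [E.val, lkR] at hp
      push_cast at hp
      exact absurd hp (by linarith only [a1, m0, hp])
  · intro d0 m0 m1
    exact absurd d0 (by linarith only [a1, d0])

/-- end 3 next to `three`, right ramp -/
theorem right_three_b {T h μ a : ℝ} {v : ℂ} (hT : HT .three T h) (H : MaxM v h μ)
    (hr : v.re = a) (hi : v.im = 10 / 3 * T * (6 / 10 - a)) (a0 : 400 / 1000 ≤ a)
    (a1 : a ≤ 600 / 1000) :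
    S3 1 (-(10 / 3 * T)) v (mpt h μ) ≤ 3 / 100 := by
  obtain ⟨T0, T1, h1, hT2⟩ := hT
  have hpi := Real.pi_pos
  have kv : ∀ μ : ℝ, ((q 10 3) : E).val [a, T, h, μ] = 10 / 3 := fun μ => by
    simp only [E.val]; norm_num
  have cv : ∀ μ : ℝ, ((q 0 1) : E).val [a, T, h, μ] = 0 := fun μ => by
    simp only [E.val]; norm_num
  have ev : ∀ μ : ℝ, ((q 3 100) : E).val [a, T, h, μ] = 3 / 100 := fun μ => by
    simp only [E.val]; norm_num
  have hh : |h| ≤ 655 / 10000 := by rw [abs_le]; constructor <;> linarith only [T0, hT2, h1]
  have htr : 52 / 100 ≤ a → |10 / 3 * T * (6 / 10 - a)| ≤ 25 / 1000 := fun c => by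
    rw [abs_le]; constructor <;> nlinarith only [a1, T0, a0, T1, c]
  rw [show S3 1 (-(10 / 3 * T)) v (mpt h μ) = S3 1 (-(10 / 3 * T)) v (mpt h μ) + 0 * (-(10 / 3 * T)) by ring]
  refine right3 hr hi H (by linarith only [a0]) (by linarith only [a1]) hh htr ?_ ?_ ?_ ?_
  · intro m1 m0 σ hσ hy
    rcases le_total a (43 / 100) with d | d
    · rcases hσ with rfl | rfl
      · have hc : chk [sub (x57 (q 10 3)) (xGA (q 10 3) (q 1 1)), xR (q 10 3) (xDA (q 10 3) (q 1 1)) (q 0 1) (q 3 100), sub (mul (q 1 2) (var 1)) (var 2), neg (xy (q 10 3))] 30
            [V.of 10000 4000 4300, V.of 10000 50 280, V.of 10000 0 430, V.of 10000 0 1000] = true := by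
          decide +kernel
        obtain ⟨e, he, hp⟩ := chk4 hc n0 (x := a) (y := T) (z := h) (w := μ)
          (bl (by push_cast; linarith only [a0, d])) (bu (by push_cast; linarith only [a1, d]))
          (bl (by push_cast; linarith only [T0])) (bu (by push_cast; linarith only [T1]))
          (bl (by push_cast; linarith only [hT2, T0])) (bu (by push_cast; linarith only [h1]))
          (bl (by push_cast; linarith only [m0])) (bu (by push_cast; linarith only [m1]))
        simp only [List.mem_cons, List.not_mem_nil, or_false] at he
        rcases he with rfl | rfl | rfl | rfl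
        · left
          have sv : ((q 1 1) : E).val [a, T, h, μ] = 1 := by simp only [E.val]; norm_num
          rw [E.val, x57_val (kv μ), xGA_val (kv μ) sv] at hp
          linarith only [hp]
        · right; right
          have sv : ((q 1 1) : E).val [a, T, h, μ] = 1 := by simp only [E.val]; norm_num
          rw [xR_val (kv μ) (cv μ) (ev μ), xDA_val (kv μ) sv] at hp
          linarith only [hp]
        · simp only [E.val, lkR] at hp
          push_cast at hp
          exact absurd hp (by linarith only [hT2, hp])
        · simp only [xy, xm, xt, E.val, lkR] at hp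
          push_cast at hp
          exact absurd hp (by linarith only [hy, hp])
      · have hc : chk [sub (x57 (q 10 3)) (xGA (q 10 3) (q (-1) 1)), xR (q 10 3) (xDA (q 10 3) (q (-1) 1)) (q 0 1) (q 3 100), sub (mul (q 1 2) (var 1)) (var 2), xy (q 10 3)] 30
            [V.of 10000 4000 4300, V.of 10000 50 280, V.of 10000 0 430, V.of 10000 0 1000] = true := by
          decide +kernel
        obtain ⟨e, he, hp⟩ := chk4 hc n0 (x := a) (y := T) (z := h) (w := μ)
          (bl (by push_cast; linarith only [a0, d])) (bu (by push_cast; linarith only [a1, d]))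
          (bl (by push_cast; linarith only [T0])) (bu (by push_cast; linarith only [T1]))
          (bl (by push_cast; linarith only [hT2, T0])) (bu (by push_cast; linarith only [h1]))
          (bl (by push_cast; linarith only [m0])) (bu (by push_cast; linarith only [m1]))
        simp only [List.mem_cons, List.not_mem_nil, or_false] at he
        rcases he with rfl | rfl | rfl | rfl
        · left
          have sv : ((q (-1) 1) : E).val [a, T, h, μ] = -1 := by simp only [E.val]; norm_num
          rw [E.val, x57_val (kv μ), xGA_val (kv μ) sv] at hp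
          linarith only [hp]
        · right; right
          have sv : ((q (-1) 1) : E).val [a, T, h, μ] = -1 := by simp only [E.val]; norm_num
          rw [xR_val (kv μ) (cv μ) (ev μ), xDA_val (kv μ) sv] at hp
          linarith only [hp]
        · simp only [E.val, lkR] at hp
          push_cast at hp
          exact absurd hp (by linarith only [hT2, hp])
        · simp only [xy, xm, xt, E.val, lkR] at hp
          push_cast at hp
          exact absurd hp (by linarith only [hy, hp])
    · rcases hσ with rfl | rfl
      · have hc : chk [sub (x77 (q 10 3)) (xGA (q 10 3) (q 1 1)), xR (q 10 3) (xDA (q 10 3) (q 1 1)) (q 0 1) (q 3 100), sub (mul (q 1 2) (var 1)) (var 2), neg (xy (q 10 3))] 30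
            [V.of 10000 4300 6000, V.of 10000 50 280, V.of 10000 0 430, V.of 10000 0 1000] = true := by
          decide +kernel
        obtain ⟨e, he, hp⟩ := chk4 hc n0 (x := a) (y := T) (z := h) (w := μ)
          (bl (by push_cast; linarith only [a0, d])) (bu (by push_cast; linarith only [a1, d]))
          (bl (by push_cast; linarith only [T0])) (bu (by push_cast; linarith only [T1]))
          (bl (by push_cast; linarith only [hT2, T0])) (bu (by push_cast; linarith only [h1]))
          (bl (by push_cast; linarith only [m0])) (bu (by push_cast; linarith only [m1]))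
        simp only [List.mem_cons, List.not_mem_nil, or_false] at he
        rcases he with rfl | rfl | rfl | rfl
        · right; left
          have sv : ((q 1 1) : E).val [a, T, h, μ] = 1 := by simp only [E.val]; norm_num
          rw [E.val, x77_val (kv μ), xGA_val (kv μ) sv] at hp
          linarith only [hp]
        · right; right
          have sv : ((q 1 1) : E).val [a, T, h, μ] = 1 := by simp only [E.val]; norm_num
          rw [xR_val (kv μ) (cv μ) (ev μ), xDA_val (kv μ) sv] at hp
          linarith only [hp]
        · simp only [E.val, lkR] at hp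
          push_cast at hp
          exact absurd hp (by linarith only [hT2, hp])
        · simp only [xy, xm, xt, E.val, lkR] at hp
          push_cast at hp
          exact absurd hp (by linarith only [hy, hp])
      · have hc : chk [sub (x77 (q 10 3)) (xGA (q 10 3) (q (-1) 1)), xR (q 10 3) (xDA (q 10 3) (q (-1) 1)) (q 0 1) (q 3 100), sub (mul (q 1 2) (var 1)) (var 2), xy (q 10 3)] 30
            [V.of 10000 4300 6000, V.of 10000 50 280, V.of 10000 0 430, V.of 10000 0 1000] = true := by
          decide +kernel
        obtain ⟨e, he, hp⟩ := chk4 hc n0 (x := a) (y := T) (z := h) (w := μ)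
          (bl (by push_cast; linarith only [a0, d])) (bu (by push_cast; linarith only [a1, d]))
          (bl (by push_cast; linarith only [T0])) (bu (by push_cast; linarith only [T1]))
          (bl (by push_cast; linarith only [hT2, T0])) (bu (by push_cast; linarith only [h1]))
          (bl (by push_cast; linarith only [m0])) (bu (by push_cast; linarith only [m1]))
        simp only [List.mem_cons, List.not_mem_nil, or_false] at he
        rcases he with rfl | rfl | rfl | rfl
        · right; left
          have sv : ((q (-1) 1) : E).val [a, T, h, μ] = -1 := by simp only [E.val]; norm_num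
          rw [E.val, x77_val (kv μ), xGA_val (kv μ) sv] at hp
          linarith only [hp]
        · right; right
          have sv : ((q (-1) 1) : E).val [a, T, h, μ] = -1 := by simp only [E.val]; norm_num
          rw [xR_val (kv μ) (cv μ) (ev μ), xDA_val (kv μ) sv] at hp
          linarith only [hp]
        · simp only [E.val, lkR] at hp
          push_cast at hp
          exact absurd hp (by linarith only [hT2, hp])
        · simp only [xy, xm, xt, E.val, lkR] at hp
          push_cast at hp
          exact absurd hp (by linarith only [hy, hp])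
  · intro w c1
    have hb : bb (-(10 / 3 * T)) (h - 10 / 3 * T * (6 / 10 - a)) ≤ -1 * (-(10 / 3 * T) * (Real.pi / 2)) := by
      refine bb_le.trans (le_of_eq ?_)
      rw [abs_of_nonpos (by linarith only [T0])]
      ring
    refine (add_le_add_left (DB_mono hb) _).trans ?_
    have hc : chk [xR (q 10 3) (xDB (q 10 3) (q (-1) 1)) (q 0 1) (q 3 100), sub (mul (q 1 2) (var 1)) (var 2)] 30
        [V.of 10000 4000 5700, V.of 10000 50 280, V.of 10000 0 430, V.of 10000 4000 5700] = true := by
      decide +kernel
    obtain ⟨e, he, hp⟩ := chk4 hc n0 (x := a) (y := T) (z := h) (w := μ)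
      (bl (by push_cast; linarith only [a0])) (bu (by push_cast; linarith only [a1, w, c1]))
      (bl (by push_cast; linarith only [T0])) (bu (by push_cast; linarith only [T1]))
      (bl (by push_cast; linarith only [hT2, T0])) (bu (by push_cast; linarith only [h1]))
      (bl (by push_cast; linarith only [a0, w])) (bu (by push_cast; linarith only [c1]))
    simp only [List.mem_cons, List.not_mem_nil, or_false] at he
    rcases he with rfl | rfl
    · have nv : ((q (-1) 1) : E).val [a, T, h, μ] = -1 := by simp only [E.val]; norm_num
      rw [xR_val (kv μ) (cv μ) (ev μ), xDB_val (kv μ) nv] at hp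
      linarith only [hp]
    · simp only [E.val, lkR] at hp
      push_cast at hp
      exact absurd hp (by linarith only [hT2, hp])
  · intro m0 m1 w f
    have hc : chk [xR (q 10 3) (xDC (q 10 3)) (q 0 1) (q 3 100), neg (xFC (q 10 3)), sub (mul (q 1 2) (var 1)) (var 2), sub (q 5 100) (sub (var 3) (var 0))] 30
        [V.of 10000 4000 6000, V.of 10000 50 280, V.of 10000 0 430, V.of 10000 5700 7700] = true := by
      decide +kernel
    obtain ⟨e, he, hp⟩ := chk4 hc n0 (x := a) (y := T) (z := h) (w := μ)
      (bl (by push_cast; linarith only [a0])) (bu (by push_cast; linarith only [a1]))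
      (bl (by push_cast; linarith only [T0])) (bu (by push_cast; linarith only [T1]))
      (bl (by push_cast; linarith only [hT2, T0])) (bu (by push_cast; linarith only [h1]))
      (bl (by push_cast; linarith only [m0])) (bu (by push_cast; linarith only [m1]))
    simp only [List.mem_cons, List.not_mem_nil, or_false] at he
    rcases he with rfl | rfl | rfl | rfl
    · rw [xR_val (kv μ) (cv μ) (ev μ), xDC_val (kv μ)] at hp
      linarith only [hp]
    · rw [E.val, xFC_val (kv μ)] at hp
      exact absurd hp (by linarith only [f])
    · simp only [E.val, lkR] at hp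
      push_cast at hp
      exact absurd hp (by linarith only [hT2, hp])
    · simp only [E.val, lkR] at hp
      push_cast at hp
      exact absurd hp (by linarith only [w, hp])
  · intro d0 m0 m1
    have sv : ((q (-1) 1) : E).val [a, T, h, μ] = -1 := by simp only [E.val]; norm_num
    have hs : (-1 : ℝ) * (-(10 / 3 * T)) = |(-(10 / 3 * T))| := by
      rw [abs_of_nonpos (by linarith only [T0])]; ring
    have hc : chk [xR (q 10 3) (xDR (q 10 3) (q (-1) 1)) (q 0 1) (q 3 100)] 30
        [V.of 10000 5200 6000, V.of 10000 50 280, V.of 10000 0 430, V.of 10000 5700 6500] = true := by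
      decide +kernel
    obtain ⟨e, he, hp⟩ := chk4 hc n0 (x := a) (y := T) (z := h) (w := μ)
      (bl (by push_cast; linarith only [a0, d0])) (bu (by push_cast; linarith only [a1]))
      (bl (by push_cast; linarith only [T0])) (bu (by push_cast; linarith only [T1]))
      (bl (by push_cast; linarith only [hT2, T0])) (bu (by push_cast; linarith only [h1]))
      (bl (by push_cast; linarith only [m0])) (bu (by push_cast; linarith only [m1]))
    simp only [List.mem_cons, List.not_mem_nil, or_false] at he
    subst he
    rw [xR_val (kv μ) (cv μ) (ev μ), xDR_val (kv μ) sv hs] at hp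
    linarith only [hp]

/-- end 3 next to `three`, right ramp, shift `π` -/
theorem right_three_pa {T h μ a : ℝ} {v : ℂ} (hT : HT .three T h) (H : MaxM v h μ)
    (hr : v.re = a) (hi : v.im = 10 / 3 * T * (6 / 10 - a)) (a0 : 300 / 1000 ≤ a)
    (a1 : a ≤ 400 / 1000) :
    S3 1 (-(10 / 3 * T)) v (mpt h μ) + Real.pi * (-(10 / 3 * T)) ≤ -(45 / 100) := by
  obtain ⟨T0, T1, h1, hT2⟩ := hT
  have hpi := Real.pi_pos
  have kv : ∀ μ : ℝ, ((q 10 3) : E).val [a, T, h, μ] = 10 / 3 := fun μ => by
    simp only [E.val]; norm_num
  have cv : ∀ μ : ℝ, (pi : E).val [a, T, h, μ] = Real.pi := fun μ => by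
    simp only [E.val]
  have ev : ∀ μ : ℝ, ((q (-45) 100) : E).val [a, T, h, μ] = -(45 / 100) := fun μ => by
    simp only [E.val]; norm_num
  have hh : |h| ≤ 655 / 10000 := by rw [abs_le]; constructor <;> linarith only [T0, hT2, h1]
  have htr : 52 / 100 ≤ a → |10 / 3 * T * (6 / 10 - a)| ≤ 25 / 1000 := fun c => by
    rw [abs_le]; constructor <;> nlinarith only [a1, c]
  refine right3 hr hi H (by linarith only [a0]) (by linarith only [a1]) hh htr ?_ ?_ ?_ ?_
  · intro m1 m0 σ hσ hy
    rcases hσ with rfl | rfl
    · have hc : chk [sub (x57 (q 10 3)) (xGA (q 10 3) (q 1 1)), xR (q 10 3) (xDA (q 10 3) (q 1 1)) pi (q (-45) 100), sub (mul (q 1 2) (var 1)) (var 2), neg (xy (q 10 3))] 30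
          [V.of 10000 3000 4000, V.of 10000 50 280, V.of 10000 0 430, V.of 10000 0 1000] = true := by
        decide +kernel
      obtain ⟨e, he, hp⟩ := chk4 hc n0 (x := a) (y := T) (z := h) (w := μ)
        (bl (by push_cast; linarith only [a0])) (bu (by push_cast; linarith only [a1]))
        (bl (by push_cast; linarith only [T0])) (bu (by push_cast; linarith only [T1]))
        (bl (by push_cast; linarith only [hT2, T0])) (bu (by push_cast; linarith only [h1]))
        (bl (by push_cast; linarith only [m0])) (bu (by push_cast; linarith only [m1]))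
      simp only [List.mem_cons, List.not_mem_nil, or_false] at he
      rcases he with rfl | rfl | rfl | rfl
      · left
        have sv : ((q 1 1) : E).val [a, T, h, μ] = 1 := by simp only [E.val]; norm_num
        rw [E.val, x57_val (kv μ), xGA_val (kv μ) sv] at hp
        linarith only [hp]
      · right; right
        have sv : ((q 1 1) : E).val [a, T, h, μ] = 1 := by simp only [E.val]; norm_num
        rw [xR_val (kv μ) (cv μ) (ev μ), xDA_val (kv μ) sv] at hp
        linarith only [hp]
      · simp only [E.val, lkR] at hp
        push_cast at hp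
        exact absurd hp (by linarith only [hT2, hp])
      · simp only [xy, xm, xt, E.val, lkR] at hp
        push_cast at hp
        exact absurd hp (by linarith only [hy, hp])
    · have hc : chk [sub (x57 (q 10 3)) (xGA (q 10 3) (q (-1) 1)), xR (q 10 3) (xDA (q 10 3) (q (-1) 1)) pi (q (-45) 100), sub (mul (q 1 2) (var 1)) (var 2), xy (q 10 3)] 30
          [V.of 10000 3000 4000, V.of 10000 50 280, V.of 10000 0 430, V.of 10000 0 1000] = true := by
        decide +kernel
      obtain ⟨e, he, hp⟩ := chk4 hc n0 (x := a) (y := T) (z := h) (w := μ)
        (bl (by push_cast; linarith only [a0])) (bu (by push_cast; linarith only [a1]))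
        (bl (by push_cast; linarith only [T0])) (bu (by push_cast; linarith only [T1]))
        (bl (by push_cast; linarith only [hT2, T0])) (bu (by push_cast; linarith only [h1]))
        (bl (by push_cast; linarith only [m0])) (bu (by push_cast; linarith only [m1]))
      simp only [List.mem_cons, List.not_mem_nil, or_false] at he
      rcases he with rfl | rfl | rfl | rfl
      · left
        have sv : ((q (-1) 1) : E).val [a, T, h, μ] = -1 := by simp only [E.val]; norm_num
        rw [E.val, x57_val (kv μ), xGA_val (kv μ) sv] at hp
        linarith only [hp]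
      · right; right
        have sv : ((q (-1) 1) : E).val [a, T, h, μ] = -1 := by simp only [E.val]; norm_num
        rw [xR_val (kv μ) (cv μ) (ev μ), xDA_val (kv μ) sv] at hp
        linarith only [hp]
      · simp only [E.val, lkR] at hp
        push_cast at hp
        exact absurd hp (by linarith only [hT2, hp])
      · simp only [xy, xm, xt, E.val, lkR] at hp
        push_cast at hp
        exact absurd hp (by linarith only [hy, hp])
  · intro w c1
    have hb : bb (-(10 / 3 * T)) (h - 10 / 3 * T * (6 / 10 - a)) ≤ -1 * (-(10 / 3 * T) * (Real.pi / 2)) := by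
      refine bb_le.trans (le_of_eq ?_)
      rw [abs_of_nonpos (by linarith only [T0])]
      ring
    refine (add_le_add_left (DB_mono hb) _).trans ?_
    have hc : chk [xR (q 10 3) (xDB (q 10 3) (q (-1) 1)) pi (q (-45) 100), sub (mul (q 1 2) (var 1)) (var 2)] 30
        [V.of 10000 3000 4000, V.of 10000 50 280, V.of 10000 0 430, V.of 10000 3000 5700] = true := by
      decide +kernel
    obtain ⟨e, he, hp⟩ := chk4 hc n0 (x := a) (y := T) (z := h) (w := μ)
      (bl (by push_cast; linarith only [a0])) (bu (by push_cast; linarith only [a1, w, c1]))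
      (bl (by push_cast; linarith only [T0])) (bu (by push_cast; linarith only [T1]))
      (bl (by push_cast; linarith only [hT2, T0])) (bu (by push_cast; linarith only [h1]))
      (bl (by push_cast; linarith only [a0, w])) (bu (by push_cast; linarith only [c1]))
    simp only [List.mem_cons, List.not_mem_nil, or_false] at he
    rcases he with rfl | rfl
    · have nv : ((q (-1) 1) : E).val [a, T, h, μ] = -1 := by simp only [E.val]; norm_num
      rw [xR_val (kv μ) (cv μ) (ev μ), xDB_val (kv μ) nv] at hp
      linarith only [hp]
    · simp only [E.val, lkR] at hp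
      push_cast at hp
      exact absurd hp (by linarith only [hT2, hp])
  · intro m0 m1 w f
    have hc : chk [xR (q 10 3) (xDC (q 10 3)) pi (q (-45) 100), neg (xFC (q 10 3)), sub (mul (q 1 2) (var 1)) (var 2), sub (q 5 100) (sub (var 3) (var 0))] 30
        [V.of 10000 3000 4000, V.of 10000 50 280, V.of 10000 0 430, V.of 10000 5700 7700] = true := by
      decide +kernel
    obtain ⟨e, he, hp⟩ := chk4 hc n0 (x := a) (y := T) (z := h) (w := μ)
      (bl (by push_cast; linarith only [a0])) (bu (by push_cast; linarith only [a1]))
      (bl (by push_cast; linarith only [T0])) (bu (by push_cast; linarith only [T1]))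
      (bl (by push_cast; linarith only [hT2, T0])) (bu (by push_cast; linarith only [h1]))
      (bl (by push_cast; linarith only [m0])) (bu (by push_cast; linarith only [m1]))
    simp only [List.mem_cons, List.not_mem_nil, or_false] at he
    rcases he with rfl | rfl | rfl | rfl
    · rw [xR_val (kv μ) (cv μ) (ev μ), xDC_val (kv μ)] at hp
      linarith only [hp]
    · rw [E.val, xFC_val (kv μ)] at hp
      exact absurd hp (by linarith only [f])
    · simp only [E.val, lkR] at hp
      push_cast at hp
      exact absurd hp (by linarith only [hT2, hp])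
    · simp only [E.val, lkR] at hp
      push_cast at hp
      exact absurd hp (by linarith only [a1, m0, hp])
  · intro d0 m0 m1
    exact absurd d0 (by linarith only [a1, d0])

/-- end 3 next to `three`, right ramp, shift `π` -/
theorem right_three_pb {T h μ a : ℝ} {v : ℂ} (hT : HT .three T h) (H : MaxM v h μ)
    (hr : v.re = a) (hi : v.im = 10 / 3 * T * (6 / 10 - a)) (a0 : 400 / 1000 ≤ a)
    (a1 : a ≤ 600 / 1000) :
    S3 1 (-(10 / 3 * T)) v (mpt h μ) + Real.pi * (-(10 / 3 * T)) ≤ -(20 / 100) := by
  obtain ⟨T0, T1, h1, hT2⟩ := hT
  have hpi := Real.pi_pos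
  have kv : ∀ μ : ℝ, ((q 10 3) : E).val [a, T, h, μ] = 10 / 3 := fun μ => by
    simp only [E.val]; norm_num
  have cv : ∀ μ : ℝ, (pi : E).val [a, T, h, μ] = Real.pi := fun μ => by
    simp only [E.val]
  have ev : ∀ μ : ℝ, ((q (-20) 100) : E).val [a, T, h, μ] = -(20 / 100) := fun μ => by
    simp only [E.val]; norm_num
  have hh : |h| ≤ 655 / 10000 := by rw [abs_le]; constructor <;> linarith only [T0, hT2, h1]
  have htr : 52 / 100 ≤ a → |10 / 3 * T * (6 / 10 - a)| ≤ 25 / 1000 := fun c => by
    rw [abs_le]; constructor <;> nlinarith only [a1, T0, a0, T1, c]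
  refine right3 hr hi H (by linarith only [a0]) (by linarith only [a1]) hh htr ?_ ?_ ?_ ?_
  · intro m1 m0 σ hσ hy
    rcases le_total a (43 / 100) with d | d
    · rcases hσ with rfl | rfl
      · have hc : chk [sub (x57 (q 10 3)) (xGA (q 10 3) (q 1 1)), xR (q 10 3) (xDA (q 10 3) (q 1 1)) pi (q (-20) 100), sub (mul (q 1 2) (var 1)) (var 2), neg (xy (q 10 3))] 30
            [V.of 10000 4000 4300, V.of 10000 50 280, V.of 10000 0 430, V.of 10000 0 1000] = true := by
          decide +kernel
        obtain ⟨e, he, hp⟩ := chk4 hc n0 (x := a) (y := T) (z := h) (w := μ)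
          (bl (by push_cast; linarith only [a0, d])) (bu (by push_cast; linarith only [a1, d]))
          (bl (by push_cast; linarith only [T0])) (bu (by push_cast; linarith only [T1]))
          (bl (by push_cast; linarith only [hT2, T0])) (bu (by push_cast; linarith only [h1]))
          (bl (by push_cast; linarith only [m0])) (bu (by push_cast; linarith only [m1]))
        simp only [List.mem_cons, List.not_mem_nil, or_false] at he
        rcases he with rfl | rfl | rfl | rfl
        · left
          have sv : ((q 1 1) : E).val [a, T, h, μ] = 1 := by simp only [E.val]; norm_num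
          rw [E.val, x57_val (kv μ), xGA_val (kv μ) sv] at hp
          linarith only [hp]
        · right; right
          have sv : ((q 1 1) : E).val [a, T, h, μ] = 1 := by simp only [E.val]; norm_num
          rw [xR_val (kv μ) (cv μ) (ev μ), xDA_val (kv μ) sv] at hp
          linarith only [hp]
        · simp only [E.val, lkR] at hp
          push_cast at hp
          exact absurd hp (by linarith only [hT2, hp])
        · simp only [xy, xm, xt, E.val, lkR] at hp
          push_cast at hp
          exact absurd hp (by linarith only [hy, hp])
      · have hc : chk [sub (x57 (q 10 3)) (xGA (q 10 3) (q (-1) 1)), xR (q 10 3) (xDA (q 10 3) (q (-1) 1)) pi (q (-20) 100), sub (mul (q 1 2) (var 1)) (var 2), xy (q 10 3)] 30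
            [V.of 10000 4000 4300, V.of 10000 50 280, V.of 10000 0 430, V.of 10000 0 1000] = true := by
          decide +kernel
        obtain ⟨e, he, hp⟩ := chk4 hc n0 (x := a) (y := T) (z := h) (w := μ)
          (bl (by push_cast; linarith only [a0, d])) (bu (by push_cast; linarith only [a1, d]))
          (bl (by push_cast; linarith only [T0])) (bu (by push_cast; linarith only [T1]))
          (bl (by push_cast; linarith only [hT2, T0])) (bu (by push_cast; linarith only [h1]))
          (bl (by push_cast; linarith only [m0])) (bu (by push_cast; linarith only [m1]))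
        simp only [List.mem_cons, List.not_mem_nil, or_false] at he
        rcases he with rfl | rfl | rfl | rfl
        · left
          have sv : ((q (-1) 1) : E).val [a, T, h, μ] = -1 := by simp only [E.val]; norm_num
          rw [E.val, x57_val (kv μ), xGA_val (kv μ) sv] at hp
          linarith only [hp]
        · right; right
          have sv : ((q (-1) 1) : E).val [a, T, h, μ] = -1 := by simp only [E.val]; norm_num
          rw [xR_val (kv μ) (cv μ) (ev μ), xDA_val (kv μ) sv] at hp
          linarith only [hp]
        · simp only [E.val, lkR] at hp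
          push_cast at hp
          exact absurd hp (by linarith only [hT2, hp])
        · simp only [xy, xm, xt, E.val, lkR] at hp
          push_cast at hp
          exact absurd hp (by linarith only [hy, hp])
    · rcases hσ with rfl | rfl
      · have hc : chk [sub (x77 (q 10 3)) (xGA (q 10 3) (q 1 1)), xR (q 10 3) (xDA (q 10 3) (q 1 1)) pi (q (-20) 100), sub (mul (q 1 2) (var 1)) (var 2), neg (xy (q 10 3))] 30
            [V.of 10000 4300 6000, V.of 10000 50 280, V.of 10000 0 430, V.of 10000 0 1000] = true := by
          decide +kernel
        obtain ⟨e, he, hp⟩ := chk4 hc n0 (x := a) (y := T) (z := h) (w := μ)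
          (bl (by push_cast; linarith only [a0, d])) (bu (by push_cast; linarith only [a1, d]))
          (bl (by push_cast; linarith only [T0])) (bu (by push_cast; linarith only [T1]))
          (bl (by push_cast; linarith only [hT2, T0])) (bu (by push_cast; linarith only [h1]))
          (bl (by push_cast; linarith only [m0])) (bu (by push_cast; linarith only [m1]))
        simp only [List.mem_cons, List.not_mem_nil, or_false] at he
        rcases he with rfl | rfl | rfl | rfl
        · right; left
          have sv : ((q 1 1) : E).val [a, T, h, μ] = 1 := by simp only [E.val]; norm_num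
          rw [E.val, x77_val (kv μ), xGA_val (kv μ) sv] at hp
          linarith only [hp]
        · right; right
          have sv : ((q 1 1) : E).val [a, T, h, μ] = 1 := by simp only [E.val]; norm_num
          rw [xR_val (kv μ) (cv μ) (ev μ), xDA_val (kv μ) sv] at hp
          linarith only [hp]
        · simp only [E.val, lkR] at hp
          push_cast at hp
          exact absurd hp (by linarith only [hT2, hp])
        · simp only [xy, xm, xt, E.val, lkR] at hp
          push_cast at hp
          exact absurd hp (by linarith only [hy, hp])
      · have hc : chk [sub (x77 (q 10 3)) (xGA (q 10 3) (q (-1) 1)), xR (q 10 3) (xDA (q 10 3) (q (-1) 1)) pi (q (-20) 100), sub (mul (q 1 2) (var 1)) (var 2), xy (q 10 3)] 30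
            [V.of 10000 4300 6000, V.of 10000 50 280, V.of 10000 0 430, V.of 10000 0 1000] = true := by
          decide +kernel
        obtain ⟨e, he, hp⟩ := chk4 hc n0 (x := a) (y := T) (z := h) (w := μ)
          (bl (by push_cast; linarith only [a0, d])) (bu (by push_cast; linarith only [a1, d]))
          (bl (by push_cast; linarith only [T0])) (bu (by push_cast; linarith only [T1]))
          (bl (by push_cast; linarith only [hT2, T0])) (bu (by push_cast; linarith only [h1]))
          (bl (by push_cast; linarith only [m0])) (bu (by push_cast; linarith only [m1]))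
        simp only [List.mem_cons, List.not_mem_nil, or_false] at he
        rcases he with rfl | rfl | rfl | rfl
        · right; left
          have sv : ((q (-1) 1) : E).val [a, T, h, μ] = -1 := by simp only [E.val]; norm_num
          rw [E.val, x77_val (kv μ), xGA_val (kv μ) sv] at hp
          linarith only [hp]
        · right; right
          have sv : ((q (-1) 1) : E).val [a, T, h, μ] = -1 := by simp only [E.val]; norm_num
          rw [xR_val (kv μ) (cv μ) (ev μ), xDA_val (kv μ) sv] at hp
          linarith only [hp]
        · simp only [E.val, lkR] at hp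
          push_cast at hp
          exact absurd hp (by linarith only [hT2, hp])
        · simp only [xy, xm, xt, E.val, lkR] at hp
          push_cast at hp
          exact absurd hp (by linarith only [hy, hp])
  · intro w c1
    have hb : bb (-(10 / 3 * T)) (h - 10 / 3 * T * (6 / 10 - a)) ≤ -1 * (-(10 / 3 * T) * (Real.pi / 2)) := by
      refine bb_le.trans (le_of_eq ?_)
      rw [abs_of_nonpos (by linarith only [T0])]
      ring
    refine (add_le_add_left (DB_mono hb) _).trans ?_
    have hc : chk [xR (q 10 3) (xDB (q 10 3) (q (-1) 1)) pi (q (-20) 100), sub (mul (q 1 2) (var 1)) (var 2)] 30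
        [V.of 10000 4000 5700, V.of 10000 50 280, V.of 10000 0 430, V.of 10000 4000 5700] = true := by
      decide +kernel
    obtain ⟨e, he, hp⟩ := chk4 hc n0 (x := a) (y := T) (z := h) (w := μ)
      (bl (by push_cast; linarith only [a0])) (bu (by push_cast; linarith only [a1, w, c1]))
      (bl (by push_cast; linarith only [T0])) (bu (by push_cast; linarith only [T1]))
      (bl (by push_cast; linarith only [hT2, T0])) (bu (by push_cast; linarith only [h1]))
      (bl (by push_cast; linarith only [a0, w])) (bu (by push_cast; linarith only [c1]))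
    simp only [List.mem_cons, List.not_mem_nil, or_false] at he
    rcases he with rfl | rfl
    · have nv : ((q (-1) 1) : E).val [a, T, h, μ] = -1 := by simp only [E.val]; norm_num
      rw [xR_val (kv μ) (cv μ) (ev μ), xDB_val (kv μ) nv] at hp
      linarith only [hp]
    · simp only [E.val, lkR] at hp
      push_cast at hp
      exact absurd hp (by linarith only [hT2, hp])
  · intro m0 m1 w f
    have hc : chk [xR (q 10 3) (xDC (q 10 3)) pi (q (-20) 100), neg (xFC (q 10 3)), sub (mul (q 1 2) (var 1)) (var 2), sub (q 5 100) (sub (var 3) (var 0))] 30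
        [V.of 10000 4000 6000, V.of 10000 50 280, V.of 10000 0 430, V.of 10000 5700 7700] = true := by
      decide +kernel
    obtain ⟨e, he, hp⟩ := chk4 hc n0 (x := a) (y := T) (z := h) (w := μ)
      (bl (by push_cast; linarith only [a0])) (bu (by push_cast; linarith only [a1]))
      (bl (by push_cast; linarith only [T0])) (bu (by push_cast; linarith only [T1]))
      (bl (by push_cast; linarith only [hT2, T0])) (bu (by push_cast; linarith only [h1]))
      (bl (by push_cast; linarith only [m0])) (bu (by push_cast; linarith only [m1]))
    simp only [List.mem_cons, List.not_mem_nil, or_false] at he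
    rcases he with rfl | rfl | rfl | rfl
    · rw [xR_val (kv μ) (cv μ) (ev μ), xDC_val (kv μ)] at hp
      linarith only [hp]
    · rw [E.val, xFC_val (kv μ)] at hp
      exact absurd hp (by linarith only [f])
    · simp only [E.val, lkR] at hp
      push_cast at hp
      exact absurd hp (by linarith only [hT2, hp])
    · simp only [E.val, lkR] at hp
      push_cast at hp
      exact absurd hp (by linarith only [w, hp])
  · intro d0 m0 m1
    have sv : ((q (-1) 1) : E).val [a, T, h, μ] = -1 := by simp only [E.val]; norm_num
    have hs : (-1 : ℝ) * (-(10 / 3 * T)) = |(-(10 / 3 * T))| := by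
      rw [abs_of_nonpos (by linarith only [T0])]; ring
    have hc : chk [xR (q 10 3) (xDR (q 10 3) (q (-1) 1)) pi (q (-20) 100)] 30
        [V.of 10000 5200 6000, V.of 10000 50 280, V.of 10000 0 430, V.of 10000 5700 6500] = true := by
      decide +kernel
    obtain ⟨e, he, hp⟩ := chk4 hc n0 (x := a) (y := T) (z := h) (w := μ)
      (bl (by push_cast; linarith only [a0, d0])) (bu (by push_cast; linarith only [a1]))
      (bl (by push_cast; linarith only [T0])) (bu (by push_cast; linarith only [T1]))
      (bl (by push_cast; linarith only [hT2, T0])) (bu (by push_cast; linarith only [h1]))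
      (bl (by push_cast; linarith only [m0])) (bu (by push_cast; linarith only [m1]))
    simp only [List.mem_cons, List.not_mem_nil, or_false] at he
    subst he
    rw [xR_val (kv μ) (cv μ) (ev μ), xDR_val (kv μ) sv hs] at hp
    linarith only [hp]

/-- end 3 next to `threeE`, right ramp -/
theorem right_threeE {T h μ a : ℝ} {v : ℂ} (hT : HT .threeE T h) (H : MaxM v h μ)
    (hr : v.re = a) (hi : v.im = 10 / 3 * T * (6 / 10 - a)) (a0 : 300 / 1000 ≤ a)
    (a1 : a ≤ 600 / 1000) :
    S3 1 (-(10 / 3 * T)) v (mpt h μ) ≤ -(40 / 100) := by
  obtain ⟨T0, T1, h0, h1⟩ := hT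
  have hpi := Real.pi_pos
  have kv : ∀ μ : ℝ, ((q 10 3) : E).val [a, T, h, μ] = 10 / 3 := fun μ => by
    simp only [E.val]; norm_num
  have cv : ∀ μ : ℝ, ((q 0 1) : E).val [a, T, h, μ] = 0 := fun μ => by
    simp only [E.val]; norm_num
  have ev : ∀ μ : ℝ, ((q (-40) 100) : E).val [a, T, h, μ] = -(40 / 100) := fun μ => by
    simp only [E.val]; norm_num
  have hh : |h| ≤ 655 / 10000 := by rw [abs_le]; constructor <;> linarith only [h0, h1]
  have htr : 52 / 100 ≤ a → |10 / 3 * T * (6 / 10 - a)| ≤ 25 / 1000 := fun c => by
    rw [abs_le]; constructor <;> nlinarith only [a1, T0, a0, T1]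
  rw [show S3 1 (-(10 / 3 * T)) v (mpt h μ) = S3 1 (-(10 / 3 * T)) v (mpt h μ) + 0 * (-(10 / 3 * T)) by ring]
  refine right3 hr hi H (by linarith only [a0]) (by linarith only [a1]) hh htr ?_ ?_ ?_ ?_
  · intro m1 m0 σ hσ hy
    rcases le_total a (43 / 100) with d | d
    · rcases hσ with rfl | rfl
      · have hc : chk [sub (x57 (q 10 3)) (xGA (q 10 3) (q 1 1)), xR (q 10 3) (xDA (q 10 3) (q 1 1)) (q 0 1) (q (-40) 100), neg (xy (q 10 3))] 30
            [V.of 10000 3000 4300, V.of 10000 (-10) 10, V.of 10000 (-20) 20, V.of 10000 0 1000] = true := by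
          decide +kernel
        obtain ⟨e, he, hp⟩ := chk4 hc n0 (x := a) (y := T) (z := h) (w := μ)
          (bl (by push_cast; linarith only [a0, d])) (bu (by push_cast; linarith only [a1, d]))
          (bl (by push_cast; linarith only [T0])) (bu (by push_cast; linarith only [T1]))
          (bl (by push_cast; linarith only [h0])) (bu (by push_cast; linarith only [h1]))
          (bl (by push_cast; linarith only [m0])) (bu (by push_cast; linarith only [m1]))
        simp only [List.mem_cons, List.not_mem_nil, or_false] at he
        rcases he with rfl | rfl | rfl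
        · left
          have sv : ((q 1 1) : E).val [a, T, h, μ] = 1 := by simp only [E.val]; norm_num
          rw [E.val, x57_val (kv μ), xGA_val (kv μ) sv] at hp
          linarith only [hp]
        · right; right
          have sv : ((q 1 1) : E).val [a, T, h, μ] = 1 := by simp only [E.val]; norm_num
          rw [xR_val (kv μ) (cv μ) (ev μ), xDA_val (kv μ) sv] at hp
          linarith only [hp]
        · simp only [xy, xm, xt, E.val, lkR] at hp
          push_cast at hp
          exact absurd hp (by linarith only [hy, hp])
      · have hc : chk [sub (x57 (q 10 3)) (xGA (q 10 3) (q (-1) 1)), xR (q 10 3) (xDA (q 10 3) (q (-1) 1)) (q 0 1) (q (-40) 100), xy (q 10 3)] 30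
            [V.of 10000 3000 4300, V.of 10000 (-10) 10, V.of 10000 (-20) 20, V.of 10000 0 1000] = true := by
          decide +kernel
        obtain ⟨e, he, hp⟩ := chk4 hc n0 (x := a) (y := T) (z := h) (w := μ)
          (bl (by push_cast; linarith only [a0, d])) (bu (by push_cast; linarith only [a1, d]))
          (bl (by push_cast; linarith only [T0])) (bu (by push_cast; linarith only [T1]))
          (bl (by push_cast; linarith only [h0])) (bu (by push_cast; linarith only [h1]))
          (bl (by push_cast; linarith only [m0])) (bu (by push_cast; linarith only [m1]))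
        simp only [List.mem_cons, List.not_mem_nil, or_false] at he
        rcases he with rfl | rfl | rfl
        · left
          have sv : ((q (-1) 1) : E).val [a, T, h, μ] = -1 := by simp only [E.val]; norm_num
          rw [E.val, x57_val (kv μ), xGA_val (kv μ) sv] at hp
          linarith only [hp]
        · right; right
          have sv : ((q (-1) 1) : E).val [a, T, h, μ] = -1 := by simp only [E.val]; norm_num
          rw [xR_val (kv μ) (cv μ) (ev μ), xDA_val (kv μ) sv] at hp
          linarith only [hp]
        · simp only [xy, xm, xt, E.val, lkR] at hp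
          push_cast at hp
          exact absurd hp (by linarith only [hy, hp])
    · rcases hσ with rfl | rfl
      · have hc : chk [sub (x77 (q 10 3)) (xGA (q 10 3) (q 1 1)), xR (q 10 3) (xDA (q 10 3) (q 1 1)) (q 0 1) (q (-40) 100), neg (xy (q 10 3))] 30
            [V.of 10000 4300 6000, V.of 10000 (-10) 10, V.of 10000 (-20) 20, V.of 10000 0 1000] = true := by
          decide +kernel
        obtain ⟨e, he, hp⟩ := chk4 hc n0 (x := a) (y := T) (z := h) (w := μ)
          (bl (by push_cast; linarith only [a0, d])) (bu (by push_cast; linarith only [a1, d]))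
          (bl (by push_cast; linarith only [T0])) (bu (by push_cast; linarith only [T1]))
          (bl (by push_cast; linarith only [h0])) (bu (by push_cast; linarith only [h1]))
          (bl (by push_cast; linarith only [m0])) (bu (by push_cast; linarith only [m1]))
        simp only [List.mem_cons, List.not_mem_nil, or_false] at he
        rcases he with rfl | rfl | rfl
        · right; left
          have sv : ((q 1 1) : E).val [a, T, h, μ] = 1 := by simp only [E.val]; norm_num
          rw [E.val, x77_val (kv μ), xGA_val (kv μ) sv] at hp
          linarith only [hp]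
        · right; right
          have sv : ((q 1 1) : E).val [a, T, h, μ] = 1 := by simp only [E.val]; norm_num
          rw [xR_val (kv μ) (cv μ) (ev μ), xDA_val (kv μ) sv] at hp
          linarith only [hp]
        · simp only [xy, xm, xt, E.val, lkR] at hp
          push_cast at hp
          exact absurd hp (by linarith only [hy, hp])
      · have hc : chk [sub (x77 (q 10 3)) (xGA (q 10 3) (q (-1) 1)), xR (q 10 3) (xDA (q 10 3) (q (-1) 1)) (q 0 1) (q (-40) 100), xy (q 10 3)] 30
            [V.of 10000 4300 6000, V.of 10000 (-10) 10, V.of 10000 (-20) 20, V.of 10000 0 1000] = true := by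
          decide +kernel
        obtain ⟨e, he, hp⟩ := chk4 hc n0 (x := a) (y := T) (z := h) (w := μ)
          (bl (by push_cast; linarith only [a0, d])) (bu (by push_cast; linarith only [a1, d]))
          (bl (by push_cast; linarith only [T0])) (bu (by push_cast; linarith only [T1]))
          (bl (by push_cast; linarith only [h0])) (bu (by push_cast; linarith only [h1]))
          (bl (by push_cast; linarith only [m0])) (bu (by push_cast; linarith only [m1]))
        simp only [List.mem_cons, List.not_mem_nil, or_false] at he
        rcases he with rfl | rfl | rfl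
        · right; left
          have sv : ((q (-1) 1) : E).val [a, T, h, μ] = -1 := by simp only [E.val]; norm_num
          rw [E.val, x77_val (kv μ), xGA_val (kv μ) sv] at hp
          linarith only [hp]
        · right; right
          have sv : ((q (-1) 1) : E).val [a, T, h, μ] = -1 := by simp only [E.val]; norm_num
          rw [xR_val (kv μ) (cv μ) (ev μ), xDA_val (kv μ) sv] at hp
          linarith only [hp]
        · simp only [xy, xm, xt, E.val, lkR] at hp
          push_cast at hp
          exact absurd hp (by linarith only [hy, hp])
  · intro w c1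
    rcases le_total T 0 with d | d
    · have hb : bb (-(10 / 3 * T)) (h - 10 / 3 * T * (6 / 10 - a)) ≤ 1 * (-(10 / 3 * T) * (Real.pi / 2)) := by
        refine bb_le.trans (le_of_eq ?_)
        rw [abs_of_nonneg (by linarith only [d])]
        ring
      refine (add_le_add_left (DB_mono hb) _).trans ?_
      have hc : chk [xR (q 10 3) (xDB (q 10 3) (q 1 1)) (q 0 1) (q (-40) 100)] 30
          [V.of 10000 3000 5700, V.of 10000 (-10) 0, V.of 10000 (-20) 20, V.of 10000 3000 5700] = true := by
        decide +kernel
      obtain ⟨e, he, hp⟩ := chk4 hc n0 (x := a) (y := T) (z := h) (w := μ)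
        (bl (by push_cast; linarith only [a0])) (bu (by push_cast; linarith only [a1, w, c1]))
        (bl (by push_cast; linarith only [T0])) (bu (by push_cast; linarith only [T1, d]))
        (bl (by push_cast; linarith only [h0])) (bu (by push_cast; linarith only [h1]))
        (bl (by push_cast; linarith only [a0, w])) (bu (by push_cast; linarith only [c1]))
      simp only [List.mem_cons, List.not_mem_nil, or_false] at he
      subst he
      have nv : ((q 1 1) : E).val [a, T, h, μ] = 1 := by simp only [E.val]; norm_num
      rw [xR_val (kv μ) (cv μ) (ev μ), xDB_val (kv μ) nv] at hp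
      linarith only [hp]
    · have hb : bb (-(10 / 3 * T)) (h - 10 / 3 * T * (6 / 10 - a)) ≤ -1 * (-(10 / 3 * T) * (Real.pi / 2)) := by
        refine bb_le.trans (le_of_eq ?_)
        rw [abs_of_nonpos (by linarith only [d])]
        ring
      refine (add_le_add_left (DB_mono hb) _).trans ?_
      have hc : chk [xR (q 10 3) (xDB (q 10 3) (q (-1) 1)) (q 0 1) (q (-40) 100)] 30
          [V.of 10000 3000 5700, V.of 10000 0 10, V.of 10000 (-20) 20, V.of 10000 3000 5700] = true := by
        decide +kernel
      obtain ⟨e, he, hp⟩ := chk4 hc n0 (x := a) (y := T) (z := h) (w := μ)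
        (bl (by push_cast; linarith only [a0])) (bu (by push_cast; linarith only [a1, w, c1]))
        (bl (by push_cast; linarith only [T0, d])) (bu (by push_cast; linarith only [T1]))
        (bl (by push_cast; linarith only [h0])) (bu (by push_cast; linarith only [h1]))
        (bl (by push_cast; linarith only [a0, w])) (bu (by push_cast; linarith only [c1]))
      simp only [List.mem_cons, List.not_mem_nil, or_false] at he
      subst he
      have nv : ((q (-1) 1) : E).val [a, T, h, μ] = -1 := by simp only [E.val]; norm_num
      rw [xR_val (kv μ) (cv μ) (ev μ), xDB_val (kv μ) nv] at hp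
      linarith only [hp]
  · intro m0 m1 w f
    have hc : chk [xR (q 10 3) (xDC (q 10 3)) (q 0 1) (q (-40) 100), neg (xFC (q 10 3)), sub (q 5 100) (sub (var 3) (var 0))] 30
        [V.of 10000 3000 6000, V.of 10000 (-10) 10, V.of 10000 (-20) 20, V.of 10000 5700 7700] = true := by
      decide +kernel
    obtain ⟨e, he, hp⟩ := chk4 hc n0 (x := a) (y := T) (z := h) (w := μ)
      (bl (by push_cast; linarith only [a0])) (bu (by push_cast; linarith only [a1]))
      (bl (by push_cast; linarith only [T0])) (bu (by push_cast; linarith only [T1]))
      (bl (by push_cast; linarith only [h0])) (bu (by push_cast; linarith only [h1]))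
      (bl (by push_cast; linarith only [m0])) (bu (by push_cast; linarith only [m1]))
    simp only [List.mem_cons, List.not_mem_nil, or_false] at he
    rcases he with rfl | rfl | rfl
    · rw [xR_val (kv μ) (cv μ) (ev μ), xDC_val (kv μ)] at hp
      linarith only [hp]
    · rw [E.val, xFC_val (kv μ)] at hp
      exact absurd hp (by linarith only [f])
    · simp only [E.val, lkR] at hp
      push_cast at hp
      exact absurd hp (by linarith only [w, hp])
  · intro d0 m0 m1
    rcases le_total T 0 with d | d
    · have sv : ((q 1 1) : E).val [a, T, h, μ] = 1 := by simp only [E.val]; norm_num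
      have hs : (1 : ℝ) * (-(10 / 3 * T)) = |(-(10 / 3 * T))| := by
        rw [abs_of_nonneg (by linarith only [d])]; ring
      have hc : chk [xR (q 10 3) (xDR (q 10 3) (q 1 1)) (q 0 1) (q (-40) 100)] 30
          [V.of 10000 5200 6000, V.of 10000 (-10) 0, V.of 10000 (-20) 20, V.of 10000 5700 6500] = true := by
        decide +kernel
      obtain ⟨e, he, hp⟩ := chk4 hc n0 (x := a) (y := T) (z := h) (w := μ)
        (bl (by push_cast; linarith only [a0, d0])) (bu (by push_cast; linarith only [a1]))
        (bl (by push_cast; linarith only [T0])) (bu (by push_cast; linarith only [T1, d]))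
        (bl (by push_cast; linarith only [h0])) (bu (by push_cast; linarith only [h1]))
        (bl (by push_cast; linarith only [m0])) (bu (by push_cast; linarith only [m1]))
      simp only [List.mem_cons, List.not_mem_nil, or_false] at he
      subst he
      rw [xR_val (kv μ) (cv μ) (ev μ), xDR_val (kv μ) sv hs] at hp
      linarith only [hp]
    · have sv : ((q (-1) 1) : E).val [a, T, h, μ] = -1 := by simp only [E.val]; norm_num
      have hs : (-1 : ℝ) * (-(10 / 3 * T)) = |(-(10 / 3 * T))| := by
        rw [abs_of_nonpos (by linarith only [d])]; ring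
      have hc : chk [xR (q 10 3) (xDR (q 10 3) (q (-1) 1)) (q 0 1) (q (-40) 100)] 30
          [V.of 10000 5200 6000, V.of 10000 0 10, V.of 10000 (-20) 20, V.of 10000 5700 6500] = true := by
        decide +kernel
      obtain ⟨e, he, hp⟩ := chk4 hc n0 (x := a) (y := T) (z := h) (w := μ)
        (bl (by push_cast; linarith only [a0, d0])) (bu (by push_cast; linarith only [a1]))
        (bl (by push_cast; linarith only [T0, d])) (bu (by push_cast; linarith only [T1]))
        (bl (by push_cast; linarith only [h0])) (bu (by push_cast; linarith only [h1]))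
        (bl (by push_cast; linarith only [m0])) (bu (by push_cast; linarith only [m1]))
      simp only [List.mem_cons, List.not_mem_nil, or_false] at he
      subst he
      rw [xR_val (kv μ) (cv μ) (ev μ), xDR_val (kv μ) sv hs] at hp
      linarith only [hp]

/-- end 3 next to `ring`, right ramp -/
theorem right_ring_a {T h μ a : ℝ} {v : ℂ} (hT : HT .ring T h) (H : MaxM v h μ)
    (hr : v.re = a) (hi : v.im = 100 / 34 * T * (6 / 10 - a)) (a0 : 260 / 1000 ≤ a)
    (a1 : a ≤ 320 / 1000) :
    S3 1 (-(100 / 34 * T)) v (mpt h μ) ≤ -(12 / 100) := by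
  obtain ⟨T0, T1, h1, hT2⟩ := hT
  have hpi := Real.pi_pos
  have kv : ∀ μ : ℝ, ((q 100 34) : E).val [a, T, h, μ] = 100 / 34 := fun μ => by
    simp only [E.val]; norm_num
  have cv : ∀ μ : ℝ, ((q 0 1) : E).val [a, T, h, μ] = 0 := fun μ => by
    simp only [E.val]; norm_num
  have ev : ∀ μ : ℝ, ((q (-12) 100) : E).val [a, T, h, μ] = -(12 / 100) := fun μ => by
    simp only [E.val]; norm_num
  have hh : |h| ≤ 655 / 10000 := by rw [abs_le]; constructor <;> linarith only [T0, hT2, h1]
  have htr : 52 / 100 ≤ a → |100 / 34 * T * (6 / 10 - a)| ≤ 25 / 1000 := fun c => by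
    rw [abs_le]; constructor <;> nlinarith only [a1, c]
  rw [show S3 1 (-(100 / 34 * T)) v (mpt h μ) = S3 1 (-(100 / 34 * T)) v (mpt h μ) + 0 * (-(100 / 34 * T)) by ring]
  refine right3 hr hi H (by linarith only [a0]) (by linarith only [a1]) hh htr ?_ ?_ ?_ ?_
  · intro m1 m0 σ hσ hy
    rcases hσ with rfl | rfl
    · have hc : chk [sub (x57 (q 100 34)) (xGA (q 100 34) (q 1 1)), xR (q 100 34) (xDA (q 100 34) (q 1 1)) (q 0 1) (q (-12) 100), sub (mul (q 1 2) (var 1)) (var 2), neg (xy (q 100 34))] 30
          [V.of 10000 2600 3200, V.of 10000 180 580, V.of 10000 90 590, V.of 10000 0 1000] = true := by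
        decide +kernel
      obtain ⟨e, he, hp⟩ := chk4 hc n0 (x := a) (y := T) (z := h) (w := μ)
        (bl (by push_cast; linarith only [a0])) (bu (by push_cast; linarith only [a1]))
        (bl (by push_cast; linarith only [T0])) (bu (by push_cast; linarith only [T1]))
        (bl (by push_cast; linarith only [hT2, T0])) (bu (by push_cast; linarith only [h1]))
        (bl (by push_cast; linarith only [m0])) (bu (by push_cast; linarith only [m1]))
      simp only [List.mem_cons, List.not_mem_nil, or_false] at he
      rcases he with rfl | rfl | rfl | rfl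
      · left
        have sv : ((q 1 1) : E).val [a, T, h, μ] = 1 := by simp only [E.val]; norm_num
        rw [E.val, x57_val (kv μ), xGA_val (kv μ) sv] at hp
        linarith only [hp]
      · right; right
        have sv : ((q 1 1) : E).val [a, T, h, μ] = 1 := by simp only [E.val]; norm_num
        rw [xR_val (kv μ) (cv μ) (ev μ), xDA_val (kv μ) sv] at hp
        linarith only [hp]
      · simp only [E.val, lkR] at hp
        push_cast at hp
        exact absurd hp (by linarith only [hT2, hp])
      · simp only [xy, xm, xt, E.val, lkR] at hp
        push_cast at hp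
        exact absurd hp (by linarith only [hy, hp])
    · have hc : chk [sub (x57 (q 100 34)) (xGA (q 100 34) (q (-1) 1)), xR (q 100 34) (xDA (q 100 34) (q (-1) 1)) (q 0 1) (q (-12) 100), sub (mul (q 1 2) (var 1)) (var 2), xy (q 100 34)] 30
          [V.of 10000 2600 3200, V.of 10000 180 580, V.of 10000 90 590, V.of 10000 0 1000] = true := by
        decide +kernel
      obtain ⟨e, he, hp⟩ := chk4 hc n0 (x := a) (y := T) (z := h) (w := μ)
        (bl (by push_cast; linarith only [a0])) (bu (by push_cast; linarith only [a1]))
        (bl (by push_cast; linarith only [T0])) (bu (by push_cast; linarith only [T1]))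
        (bl (by push_cast; linarith only [hT2, T0])) (bu (by push_cast; linarith only [h1]))
        (bl (by push_cast; linarith only [m0])) (bu (by push_cast; linarith only [m1]))
      simp only [List.mem_cons, List.not_mem_nil, or_false] at he
      rcases he with rfl | rfl | rfl | rfl
      · left
        have sv : ((q (-1) 1) : E).val [a, T, h, μ] = -1 := by simp only [E.val]; norm_num
        rw [E.val, x57_val (kv μ), xGA_val (kv μ) sv] at hp
        linarith only [hp]
      · right; right
        have sv : ((q (-1) 1) : E).val [a, T, h, μ] = -1 := by simp only [E.val]; norm_num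
        rw [xR_val (kv μ) (cv μ) (ev μ), xDA_val (kv μ) sv] at hp
        linarith only [hp]
      · simp only [E.val, lkR] at hp
        push_cast at hp
        exact absurd hp (by linarith only [hT2, hp])
      · simp only [xy, xm, xt, E.val, lkR] at hp
        push_cast at hp
        exact absurd hp (by linarith only [hy, hp])
  · intro w c1
    have hb : bb (-(100 / 34 * T)) (h - 100 / 34 * T * (6 / 10 - a)) ≤ -1 * (-(100 / 34 * T) * (Real.pi / 2)) := by
      refine bb_le.trans (le_of_eq ?_)
      rw [abs_of_nonpos (by linarith only [T0])]
      ring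
    refine (add_le_add_left (DB_mono hb) _).trans ?_
    have hc : chk [xR (q 100 34) (xDB (q 100 34) (q (-1) 1)) (q 0 1) (q (-12) 100), sub (mul (q 1 2) (var 1)) (var 2)] 30
        [V.of 10000 2600 3200, V.of 10000 180 580, V.of 10000 90 590, V.of 10000 2600 5700] = true := by
      decide +kernel
    obtain ⟨e, he, hp⟩ := chk4 hc n0 (x := a) (y := T) (z := h) (w := μ)
      (bl (by push_cast; linarith only [a0])) (bu (by push_cast; linarith only [a1, w, c1]))
      (bl (by push_cast; linarith only [T0])) (bu (by push_cast; linarith only [T1]))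
      (bl (by push_cast; linarith only [hT2, T0])) (bu (by push_cast; linarith only [h1]))
      (bl (by push_cast; linarith only [a0, w])) (bu (by push_cast; linarith only [c1]))
    simp only [List.mem_cons, List.not_mem_nil, or_false] at he
    rcases he with rfl | rfl
    · have nv : ((q (-1) 1) : E).val [a, T, h, μ] = -1 := by simp only [E.val]; norm_num
      rw [xR_val (kv μ) (cv μ) (ev μ), xDB_val (kv μ) nv] at hp
      linarith only [hp]
    · simp only [E.val, lkR] at hp
      push_cast at hp
      exact absurd hp (by linarith only [hT2, hp])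
  · intro m0 m1 w f
    have hc : chk [xR (q 100 34) (xDC (q 100 34)) (q 0 1) (q (-12) 100), neg (xFC (q 100 34)), sub (mul (q 1 2) (var 1)) (var 2), sub (q 5 100) (sub (var 3) (var 0))] 30
        [V.of 10000 2600 3200, V.of 10000 180 580, V.of 10000 90 590, V.of 10000 5700 7700] = true := by
      decide +kernel
    obtain ⟨e, he, hp⟩ := chk4 hc n0 (x := a) (y := T) (z := h) (w := μ)
      (bl (by push_cast; linarith only [a0])) (bu (by push_cast; linarith only [a1]))
      (bl (by push_cast; linarith only [T0])) (bu (by push_cast; linarith only [T1]))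
      (bl (by push_cast; linarith only [hT2, T0])) (bu (by push_cast; linarith only [h1]))
      (bl (by push_cast; linarith only [m0])) (bu (by push_cast; linarith only [m1]))
    simp only [List.mem_cons, List.not_mem_nil, or_false] at he
    rcases he with rfl | rfl | rfl | rfl
    · rw [xR_val (kv μ) (cv μ) (ev μ), xDC_val (kv μ)] at hp
      linarith only [hp]
    · rw [E.val, xFC_val (kv μ)] at hp
      exact absurd hp (by linarith only [f])
    · simp only [E.val, lkR] at hp
      push_cast at hp
      exact absurd hp (by linarith only [hT2, hp])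
    · simp only [E.val, lkR] at hp
      push_cast at hp
      exact absurd hp (by linarith only [a1, m0, hp])
  · intro d0 m0 m1
    exact absurd d0 (by linarith only [a1, d0])

/-- end 3 next to `ring`, right ramp, shift `π` -/
theorem right_ring_b {T h μ a : ℝ} {v : ℂ} (hT : HT .ring T h) (H : MaxM v h μ)
    (hr : v.re = a) (hi : v.im = 100 / 34 * T * (6 / 10 - a)) (a0 : 320 / 1000 ≤ a)
    (a1 : a ≤ 600 / 1000) :
    S3 1 (-(100 / 34 * T)) v (mpt h μ) + Real.pi * (-(100 / 34 * T)) ≤ -(7 / 100) := by
  obtain ⟨T0, T1, h1, hT2⟩ := hT
  have hpi := Real.pi_pos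
  have kv : ∀ μ : ℝ, ((q 100 34) : E).val [a, T, h, μ] = 100 / 34 := fun μ => by
    simp only [E.val]; norm_num
  have cv : ∀ μ : ℝ, (pi : E).val [a, T, h, μ] = Real.pi := fun μ => by
    simp only [E.val]
  have ev : ∀ μ : ℝ, ((q (-7) 100) : E).val [a, T, h, μ] = -(7 / 100) := fun μ => by
    simp only [E.val]; norm_num
  have hh : |h| ≤ 655 / 10000 := by rw [abs_le]; constructor <;> linarith only [T0, hT2, h1]
  have htr : 52 / 100 ≤ a → |100 / 34 * T * (6 / 10 - a)| ≤ 25 / 1000 := fun c => by
    rw [abs_le]; constructor <;> nlinarith only [a1, T0, c, T1]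
  refine right3 hr hi H (by linarith only [a0]) (by linarith only [a1]) hh htr ?_ ?_ ?_ ?_
  · intro m1 m0 σ hσ hy
    rcases le_total a (43 / 100) with d | d
    · rcases hσ with rfl | rfl
      · have hc : chk [sub (x57 (q 100 34)) (xGA (q 100 34) (q 1 1)), xR (q 100 34) (xDA (q 100 34) (q 1 1)) pi (q (-7) 100), sub (mul (q 1 2) (var 1)) (var 2), neg (xy (q 100 34))] 30
            [V.of 10000 3200 4300, V.of 10000 180 580, V.of 10000 90 590, V.of 10000 0 1000] = true := by
          decide +kernel
        obtain ⟨e, he, hp⟩ := chk4 hc n0 (x := a) (y := T) (z := h) (w := μ)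
          (bl (by push_cast; linarith only [a0, d])) (bu (by push_cast; linarith only [a1, d]))
          (bl (by push_cast; linarith only [T0])) (bu (by push_cast; linarith only [T1]))
          (bl (by push_cast; linarith only [hT2, T0])) (bu (by push_cast; linarith only [h1]))
          (bl (by push_cast; linarith only [m0])) (bu (by push_cast; linarith only [m1]))
        simp only [List.mem_cons, List.not_mem_nil, or_false] at he
        rcases he with rfl | rfl | rfl | rfl
        · left
          have sv : ((q 1 1) : E).val [a, T, h, μ] = 1 := by simp only [E.val]; norm_num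
          rw [E.val, x57_val (kv μ), xGA_val (kv μ) sv] at hp
          linarith only [hp]
        · right; right
          have sv : ((q 1 1) : E).val [a, T, h, μ] = 1 := by simp only [E.val]; norm_num
          rw [xR_val (kv μ) (cv μ) (ev μ), xDA_val (kv μ) sv] at hp
          linarith only [hp]
        · simp only [E.val, lkR] at hp
          push_cast at hp
          exact absurd hp (by linarith only [hT2, hp])
        · simp only [xy, xm, xt, E.val, lkR] at hp
          push_cast at hp
          exact absurd hp (by linarith only [hy, hp])
      · have hc : chk [sub (x57 (q 100 34)) (xGA (q 100 34) (q (-1) 1)), xR (q 100 34) (xDA (q 100 34) (q (-1) 1)) pi (q (-7) 100), sub (mul (q 1 2) (var 1)) (var 2), xy (q 100 34)] 30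
            [V.of 10000 3200 4300, V.of 10000 180 580, V.of 10000 90 590, V.of 10000 0 1000] = true := by
          decide +kernel
        obtain ⟨e, he, hp⟩ := chk4 hc n0 (x := a) (y := T) (z := h) (w := μ)
          (bl (by push_cast; linarith only [a0, d])) (bu (by push_cast; linarith only [a1, d]))
          (bl (by push_cast; linarith only [T0])) (bu (by push_cast; linarith only [T1]))
          (bl (by push_cast; linarith only [hT2, T0])) (bu (by push_cast; linarith only [h1]))
          (bl (by push_cast; linarith only [m0])) (bu (by push_cast; linarith only [m1]))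
        simp only [List.mem_cons, List.not_mem_nil, or_false] at he
        rcases he with rfl | rfl | rfl | rfl
        · left
          have sv : ((q (-1) 1) : E).val [a, T, h, μ] = -1 := by simp only [E.val]; norm_num
          rw [E.val, x57_val (kv μ), xGA_val (kv μ) sv] at hp
          linarith only [hp]
        · right; right
          have sv : ((q (-1) 1) : E).val [a, T, h, μ] = -1 := by simp only [E.val]; norm_num
          rw [xR_val (kv μ) (cv μ) (ev μ), xDA_val (kv μ) sv] at hp
          linarith only [hp]
        · simp only [E.val, lkR] at hp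
          push_cast at hp
          exact absurd hp (by linarith only [hT2, hp])
        · simp only [xy, xm, xt, E.val, lkR] at hp
          push_cast at hp
          exact absurd hp (by linarith only [hy, hp])
    · rcases hσ with rfl | rfl
      · have hc : chk [sub (x77 (q 100 34)) (xGA (q 100 34) (q 1 1)), xR (q 100 34) (xDA (q 100 34) (q 1 1)) pi (q (-7) 100), sub (mul (q 1 2) (var 1)) (var 2), neg (xy (q 100 34))] 30
            [V.of 10000 4300 6000, V.of 10000 180 580, V.of 10000 90 590, V.of 10000 0 1000] = true := by
          decide +kernel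
        obtain ⟨e, he, hp⟩ := chk4 hc n0 (x := a) (y := T) (z := h) (w := μ)
          (bl (by push_cast; linarith only [a0, d])) (bu (by push_cast; linarith only [a1, d]))
          (bl (by push_cast; linarith only [T0])) (bu (by push_cast; linarith only [T1]))
          (bl (by push_cast; linarith only [hT2, T0])) (bu (by push_cast; linarith only [h1]))
          (bl (by push_cast; linarith only [m0])) (bu (by push_cast; linarith only [m1]))
        simp only [List.mem_cons, List.not_mem_nil, or_false] at he
        rcases he with rfl | rfl | rfl | rfl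
        · right; left
          have sv : ((q 1 1) : E).val [a, T, h, μ] = 1 := by simp only [E.val]; norm_num
          rw [E.val, x77_val (kv μ), xGA_val (kv μ) sv] at hp
          linarith only [hp]
        · right; right
          have sv : ((q 1 1) : E).val [a, T, h, μ] = 1 := by simp only [E.val]; norm_num
          rw [xR_val (kv μ) (cv μ) (ev μ), xDA_val (kv μ) sv] at hp
          linarith only [hp]
        · simp only [E.val, lkR] at hp
          push_cast at hp
          exact absurd hp (by linarith only [hT2, hp])
        · simp only [xy, xm, xt, E.val, lkR] at hp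
          push_cast at hp
          exact absurd hp (by linarith only [hy, hp])
      · have hc : chk [sub (x77 (q 100 34)) (xGA (q 100 34) (q (-1) 1)), xR (q 100 34) (xDA (q 100 34) (q (-1) 1)) pi (q (-7) 100), sub (mul (q 1 2) (var 1)) (var 2), xy (q 100 34)] 30
            [V.of 10000 4300 6000, V.of 10000 180 580, V.of 10000 90 590, V.of 10000 0 1000] = true := by
          decide +kernel
        obtain ⟨e, he, hp⟩ := chk4 hc n0 (x := a) (y := T) (z := h) (w := μ)
          (bl (by push_cast; linarith only [a0, d])) (bu (by push_cast; linarith only [a1, d]))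
          (bl (by push_cast; linarith only [T0])) (bu (by push_cast; linarith only [T1]))
          (bl (by push_cast; linarith only [hT2, T0])) (bu (by push_cast; linarith only [h1]))
          (bl (by push_cast; linarith only [m0])) (bu (by push_cast; linarith only [m1]))
        simp only [List.mem_cons, List.not_mem_nil, or_false] at he
        rcases he with rfl | rfl | rfl | rfl
        · right; left
          have sv : ((q (-1) 1) : E).val [a, T, h, μ] = -1 := by simp only [E.val]; norm_num
          rw [E.val, x77_val (kv μ), xGA_val (kv μ) sv] at hp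
          linarith only [hp]
        · right; right
          have sv : ((q (-1) 1) : E).val [a, T, h, μ] = -1 := by simp only [E.val]; norm_num
          rw [xR_val (kv μ) (cv μ) (ev μ), xDA_val (kv μ) sv] at hp
          linarith only [hp]
        · simp only [E.val, lkR] at hp
          push_cast at hp
          exact absurd hp (by linarith only [hT2, hp])
        · simp only [xy, xm, xt, E.val, lkR] at hp
          push_cast at hp
          exact absurd hp (by linarith only [hy, hp])
  · intro w c1
    have hb : bb (-(100 / 34 * T)) (h - 100 / 34 * T * (6 / 10 - a)) ≤ -1 * (-(100 / 34 * T) * (Real.pi / 2)) := by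
      refine bb_le.trans (le_of_eq ?_)
      rw [abs_of_nonpos (by linarith only [T0])]
      ring
    refine (add_le_add_left (DB_mono hb) _).trans ?_
    have hc : chk [xR (q 100 34) (xDB (q 100 34) (q (-1) 1)) pi (q (-7) 100), sub (mul (q 1 2) (var 1)) (var 2)] 30
        [V.of 10000 3200 5700, V.of 10000 180 580, V.of 10000 90 590, V.of 10000 3200 5700] = true := by
      decide +kernel
    obtain ⟨e, he, hp⟩ := chk4 hc n0 (x := a) (y := T) (z := h) (w := μ)
      (bl (by push_cast; linarith only [a0])) (bu (by push_cast; linarith only [a1, w, c1]))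
      (bl (by push_cast; linarith only [T0])) (bu (by push_cast; linarith only [T1]))
      (bl (by push_cast; linarith only [hT2, T0])) (bu (by push_cast; linarith only [h1]))
      (bl (by push_cast; linarith only [a0, w])) (bu (by push_cast; linarith only [c1]))
    simp only [List.mem_cons, List.not_mem_nil, or_false] at he
    rcases he with rfl | rfl
    · have nv : ((q (-1) 1) : E).val [a, T, h, μ] = -1 := by simp only [E.val]; norm_num
      rw [xR_val (kv μ) (cv μ) (ev μ), xDB_val (kv μ) nv] at hp
      linarith only [hp]
    · simp only [E.val, lkR] at hp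
      push_cast at hp
      exact absurd hp (by linarith only [hT2, hp])
  · intro m0 m1 w f
    have hc : chk [xR (q 100 34) (xDC (q 100 34)) pi (q (-7) 100), neg (xFC (q 100 34)), sub (mul (q 1 2) (var 1)) (var 2), sub (q 5 100) (sub (var 3) (var 0))] 30
        [V.of 10000 3200 6000, V.of 10000 180 580, V.of 10000 90 590, V.of 10000 5700 7700] = true := by
      decide +kernel
    obtain ⟨e, he, hp⟩ := chk4 hc n0 (x := a) (y := T) (z := h) (w := μ)
      (bl (by push_cast; linarith only [a0])) (bu (by push_cast; linarith only [a1]))
      (bl (by push_cast; linarith only [T0])) (bu (by push_cast; linarith only [T1]))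
      (bl (by push_cast; linarith only [hT2, T0])) (bu (by push_cast; linarith only [h1]))
      (bl (by push_cast; linarith only [m0])) (bu (by push_cast; linarith only [m1]))
    simp only [List.mem_cons, List.not_mem_nil, or_false] at he
    rcases he with rfl | rfl | rfl | rfl
    · rw [xR_val (kv μ) (cv μ) (ev μ), xDC_val (kv μ)] at hp
      linarith only [hp]
    · rw [E.val, xFC_val (kv μ)] at hp
      exact absurd hp (by linarith only [f])
    · simp only [E.val, lkR] at hp
      push_cast at hp
      exact absurd hp (by linarith only [hT2, hp])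
    · simp only [E.val, lkR] at hp
      push_cast at hp
      exact absurd hp (by linarith only [w, hp])
  · intro d0 m0 m1
    have sv : ((q (-1) 1) : E).val [a, T, h, μ] = -1 := by simp only [E.val]; norm_num
    have hs : (-1 : ℝ) * (-(100 / 34 * T)) = |(-(100 / 34 * T))| := by
      rw [abs_of_nonpos (by linarith only [T0])]; ring
    have hc : chk [xR (q 100 34) (xDR (q 100 34) (q (-1) 1)) pi (q (-7) 100)] 30
        [V.of 10000 5200 6000, V.of 10000 180 580, V.of 10000 90 590, V.of 10000 5700 6500] = true := by
      decide +kernel
    obtain ⟨e, he, hp⟩ := chk4 hc n0 (x := a) (y := T) (z := h) (w := μ)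
      (bl (by push_cast; linarith only [a0, d0])) (bu (by push_cast; linarith only [a1]))
      (bl (by push_cast; linarith only [T0])) (bu (by push_cast; linarith only [T1]))
      (bl (by push_cast; linarith only [hT2, T0])) (bu (by push_cast; linarith only [h1]))
      (bl (by push_cast; linarith only [m0])) (bu (by push_cast; linarith only [m1]))
    simp only [List.mem_cons, List.not_mem_nil, or_false] at he
    subst he
    rw [xR_val (kv μ) (cv μ) (ev μ), xDR_val (kv μ) sv hs] at hp
    linarith only [hp]

end L3

end Pool.Agent.Work.MP_b30479_gt.G2
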