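import Pool.Agent.Work.MP_b30479_gt.G2.ML3q
import Pool.Agent.Work.NumU.Tree

/-!
# Values near the integers, states of the inner variable of an end with three crossings next to a
digit `1`
-/

namespace Pool.Agent.Work.MP_b30479_gt.G2

open Finset VOL Filter Topology

namespace L3

open NumI (lnA lnB)
open NumU (uu UU_uu)

/-! ### `Lr` near zero -/

theorem cosh_135 : 2 * Real.cosh (Real.pi * (270 / 1000)) ≤ 277 / 100 := by
  have h : NumI.chk [NumI.E.sub (NumI.E.q 277 100) (NumI.E.mul (NumI.E.q 2 1)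
      (NumI.E.cosh (NumI.E.mul NumI.E.pi (NumI.E.q 270 1000))))] 1 [NumI.V.of 1 0 0] = true := by
    decide +kernel
  have hp := NumI.pos_of_chk (NumI.chk1 h (by norm_num) (x := 0) (by norm_num) (by norm_num))
  simp only [NumI.E.val] at hp
  norm_num at hp ⊢
  linarith only [hp]

theorem Lr_nonpos {ρ x : ℝ} (hρ : 0 ≤ ρ) (hρ' : ρ ≤ 135 / 1000) (h0 : 0 ≤ x) (h1 : x ≤ 7 / 100) :
    DT.Lr ρ x ≤ 0 := by
  have hp2 := Real.pi_lt_d4
  have hpi := Real.pi_pos
  rcases h0.eq_or_lt with h0 | h0
  · rw [← h0, DT.Lr_zero_right]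
  rcases hρ.eq_or_lt with hρ | hρ
  · have := lam_ge h0 (by linarith only [h1, h0])
    have h2 : Real.log (2 * Real.pi * x) ≤ 0 := by
      apply Real.log_nonpos (by positivity)
      nlinarith
    have h3 : 0 ≤ x * (1 - Real.log (2 * Real.pi * x)) := mul_nonneg h0.le (by linarith only [h1, h0, h2])
    have h4 : 0 ≤ Real.pi ^ 2 * x ^ 3 / 18 := by positivity
    unfold lam at this
    rw [← hρ]
    linarith only [this, h3, h4]
  have e1 := Lr_le_lin hρ h0.le
  have e2 : Real.cosh (2 * Real.pi * ρ) ≤ Real.cosh (Real.pi * (270 / 1000)) := by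
    rw [Real.cosh_le_cosh, abs_of_pos (by positivity), abs_of_pos (by positivity)]
    nlinarith only [hρ', hpi]
  have e3 := Real.sin_gt_sub_cube (x := 2 * Real.pi * x) (by positivity)
  have e4 := cosh_135
  have hpp : Real.pi ^ 2 ≤ 98697 / 10000 := by nlinarith only [hp2, hpi]
  have hw2 : x ^ 2 ≤ (7 / 100) ^ 2 := pow_le_pow_left₀ h0.le h1 2
  have e5 : 19 / 10 * x < Real.sin (2 * Real.pi * x) / Real.pi := by
    rw [lt_div_iff₀ hpi]
    refine lt_of_le_of_lt ?_ e3
    have : (2 * Real.pi * x) ^ 3 / 6 = Real.pi * x * (4 / 3 * Real.pi ^ 2 * x ^ 2) := by ring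
    rw [this]
    have h6 : 4 / 3 * Real.pi ^ 2 * x ^ 2 ≤ 1 / 10 := by nlinarith only [h1, h0, hw2, hpp, sq_nonneg x]
    have h7 : 0 < Real.pi * x := by positivity
    nlinarith only [h6, h7, mul_le_mul_of_nonneg_left h6 h7.le]
  nlinarith

theorem Lr_ge_lam {ρ x : ℝ} (hρ : 0 ≤ ρ) (h0 : 0 ≤ x) : -lam x ≤ DT.Lr ρ x := by
  have h1 := Lr_diff_mono (a := x) (b := 0) h0 le_rfl hρ
  rw [DT.Lr_zero_right, DT.Lr_zero_right] at h1
  unfold lam
  linarith only [h1]

/-! ### tangents of `lam` -/

theorem lam_tangent {x y : ℝ} (h0 : 0 ≤ x) (h1 : x ≤ 1 / 2) (y0 : 0 < y) (y1 : y ≤ 1 / 2) :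
    lam x ≤ lam y + -Real.log (2 * Real.sin (Real.pi * y)) * (x - y) := by
  have hpi := Real.pi_pos
  have anti : ∀ p q, 0 < p → p ≤ q → q ≤ 1 / 2 →
      -Real.log (2 * Real.sin (Real.pi * q)) ≤ -Real.log (2 * Real.sin (Real.pi * p)) := by
    intro p q hp hpq hq
    have := sin_pi_pos hp (by linarith only [y0, y1, hpq, hq])
    apply neg_le_neg
    apply Real.log_le_log (by linarith only [this])
    have : Real.sin (Real.pi * p) ≤ Real.sin (Real.pi * q) :=
      Real.sin_le_sin_of_le_of_le_pi_div_two (by nlinarith only [y0, hpi, y1, hp]) (by nlinarith only [y0, y1, hpi, hq])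
        (mul_le_mul_of_nonneg_left hpq hpi.le)
    linarith only [this]
  rcases lt_trichotomy x y with h | h | h
  · obtain ⟨c, hc1, hc2⟩ := exists_hasDerivAt_eq_slope lam
      (fun x => -Real.log (2 * Real.sin (Real.pi * x))) h continuous_lam.continuousOn
      (fun z hz => hasDerivAt_lam (h0.trans_lt hz.1) (by linarith only [y0, y1, hz, hz.2]))
    have h2 := anti c y (h0.trans_lt hc1.1) hc1.2.le y1
    have hc2' : -Real.log (2 * Real.sin (Real.pi * c)) * (y - x) = lam y - lam x := by
      rw [hc2, div_mul_cancel₀ _ (sub_pos.2 h).ne']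
    nlinarith only [hc2', h2, h, mul_le_mul_of_nonneg_right h2 (sub_pos.2 h).le]
  · rw [h, sub_self, mul_zero, add_zero]
  · obtain ⟨c, hc1, hc2⟩ := exists_hasDerivAt_eq_slope lam
      (fun x => -Real.log (2 * Real.sin (Real.pi * x))) h continuous_lam.continuousOn
      (fun z hz => hasDerivAt_lam (y0.trans hz.1) (by linarith only [h1, y0, h, hz, hz.2]))
    have h2 := anti y c y0 hc1.1.le (by linarith only [h1, hc1, hc1.2])
    have hc2' : -Real.log (2 * Real.sin (Real.pi * c)) * (x - y) = lam x - lam y := by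
      rw [hc2, div_mul_cancel₀ _ (sub_pos.2 h).ne']
    nlinarith only [hc2', h2, h, mul_le_mul_of_nonneg_right h2 (sub_pos.2 h).le]

theorem lam_uu (x : ℝ) : lam x = -uu x 0 := by
  unfold lam uu UU
  simp

section
open NumU NumU.E

theorem tan_1 : lam (1 / 100) ≤ 3769 / 100000 ∧
    -Real.log (2 * Real.sin (Real.pi * (1 / 100))) ≤ 2768 / 1000 ∧
    2767 / 1000 ≤ -Real.log (2 * Real.sin (Real.pi * (1 / 100))) := by
  have h1 : NumU.chk [add (q 3769 100000) (NumU.E.uu (q 1 100) (q 0 1))] 1 [NumI.V.of 1 0 0] =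
      true := by decide +kernel
  have h2 : NumU.chk [add (q 2768 1000) (log (mul (q 2 1) (sinPi (q 1 100))))] 1
      [NumI.V.of 1 0 0] = true := by decide +kernel
  have h3 : NumU.chk [sub (neg (log (mul (q 2 1) (sinPi (q 1 100))))) (q 2767 1000)] 1
      [NumI.V.of 1 0 0] = true := by decide +kernel
  have p1 := NumU.pos_of_chk (NumU.chk1 h1 (by norm_num) (x := 0) (by norm_num) (by norm_num))
  have p2 := NumU.pos_of_chk (NumU.chk1 h2 (by norm_num) (x := 0) (by norm_num) (by norm_num))
  have p3 := NumU.pos_of_chk (NumU.chk1 h3 (by norm_num) (x := 0) (by norm_num) (by norm_num))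
  simp only [E.val] at p1 p2 p3
  push_cast at p1 p2 p3
  rw [zero_div] at p1
  refine ⟨?_, ?_, ?_⟩
  · rw [lam_uu]; linarith only [p1]
  · norm_num at p2 ⊢; linarith only [p2]
  · norm_num at p3 ⊢; linarith only [p3]

theorem tan_3 : lam (3 / 100) ≤ 801 / 10000 ∧
    -Real.log (2 * Real.sin (Real.pi * (3 / 100))) ≤ 1671 / 1000 ∧
    1669 / 1000 ≤ -Real.log (2 * Real.sin (Real.pi * (3 / 100))) := by
  have h1 : NumU.chk [add (q 801 10000) (NumU.E.uu (q 3 100) (q 0 1))] 1 [NumI.V.of 1 0 0] =
      true := by decide +kernel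
  have h2 : NumU.chk [add (q 1671 1000) (log (mul (q 2 1) (sinPi (q 3 100))))] 1
      [NumI.V.of 1 0 0] = true := by decide +kernel
  have h3 : NumU.chk [sub (neg (log (mul (q 2 1) (sinPi (q 3 100))))) (q 1669 1000)] 1
      [NumI.V.of 1 0 0] = true := by decide +kernel
  have p1 := NumU.pos_of_chk (NumU.chk1 h1 (by norm_num) (x := 0) (by norm_num) (by norm_num))
  have p2 := NumU.pos_of_chk (NumU.chk1 h2 (by norm_num) (x := 0) (by norm_num) (by norm_num))
  have p3 := NumU.pos_of_chk (NumU.chk1 h3 (by norm_num) (x := 0) (by norm_num) (by norm_num))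
  simp only [E.val] at p1 p2 p3
  push_cast at p1 p2 p3
  rw [zero_div] at p1
  refine ⟨?_, ?_, ?_⟩
  · rw [lam_uu]; linarith only [p1]
  · norm_num at p2 ⊢; linarith only [p2]
  · norm_num at p3 ⊢; linarith only [p3]

end

theorem lam_le_a {x : ℝ} (h0 : 0 ≤ x) (h1 : x ≤ 1 / 2) : lam x ≤ 102 / 10000 + 277 / 100 * x := by
  obtain ⟨t1, t2, t3⟩ := tan_1
  have := lam_tangent h0 h1 (y := 1 / 100) (by norm_num) (by norm_num)
  rcases le_total x (1 / 100) with h | h
  · nlinarith only [h0, t1, t3, this, t2]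
  · nlinarith only [t1, t3, this, h, h0, t2]

theorem lam_le_b {x : ℝ} (h0 : 0 ≤ x) (h1 : x ≤ 1 / 2) : lam x ≤ 302 / 10000 + 1673 / 1000 * x := by
  obtain ⟨t1, t2, t3⟩ := tan_3
  have := lam_tangent h0 h1 (y := 3 / 100) (by norm_num) (by norm_num)
  rcases le_total x (3 / 100) with h | h
  · nlinarith only [h0, t1, t3, this, t2]
  · nlinarith only [t1, t3, this, h, h0, t2]

theorem lam_20' : lam (1 / 20) ≤ 1081 / 10000 ∧ 0 ≤ -Real.log (2 * Real.sin (Real.pi * (1 / 20))) := by
  have h1 : NumU.chk [NumU.E.add (NumU.E.q 1081 10000) (NumU.E.uu (NumU.E.q 1 20) (NumU.E.q 0 1))] 1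
      [NumI.V.of 1 0 0] = true := by decide +kernel
  have h2 : NumU.chk [NumU.E.neg (NumU.E.log (NumU.E.mul (NumU.E.q 2 1)
      (NumU.E.sinPi (NumU.E.q 1 20))))] 1 [NumI.V.of 1 0 0] = true := by decide +kernel
  have p1 := NumU.pos_of_chk (NumU.chk1 h1 (by norm_num) (x := 0) (by norm_num) (by norm_num))
  have p2 := NumU.pos_of_chk (NumU.chk1 h2 (by norm_num) (x := 0) (by norm_num) (by norm_num))
  simp only [NumU.E.val] at p1 p2
  push_cast at p1 p2
  rw [zero_div] at p1
  constructor
  · rw [lam_uu]; linarith only [p1]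
  · norm_num at p2 ⊢; linarith only [p2]

theorem lam_le_20 {x : ℝ} (h0 : 0 ≤ x) (h1 : x ≤ 1 / 20) : lam x ≤ 1081 / 10000 := by
  obtain ⟨t1, t2⟩ := lam_20'
  have := lam_tangent h0 (by linarith only [h1]) (y := 1 / 20) (by norm_num) (by norm_num)
  nlinarith only [t1, this, t2, h1, mul_nonneg t2 (sub_nonneg.2 h1)]

/-! ### `UU` near the integers -/

theorem neg_UU_le {u : ℂ} (h0 : 0 ≤ u.re) : -UU u ≤ lam u.re + Real.pi / 2 * |u.im| := by
  have := Lr_ge_lam (abs_nonneg u.im) h0
  unfold UU
  linarith only [this]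

theorem UU_near {u : ℂ} (h1 : u.re ≤ 1) : UU u ≤ lam (1 - u.re) + Real.pi / 2 * |u.im| := by
  have h := neg_UU_le (u := 1 - u) (by rw [Complex.sub_re, Complex.one_re]; linarith only [h1])
  rw [UU_one_sub, neg_neg, Complex.sub_re, Complex.one_re, Complex.sub_im, Complex.one_im,
    zero_sub, abs_neg] at h
  exact h

theorem UU_beyond {u : ℂ} (h0 : 1 ≤ u.re) (h1 : u.re ≤ 107 / 100) (hy : |u.im| ≤ 135 / 1000) :
    UU u ≤ Real.pi / 2 * |u.im| := by
  have e := UU_add_one (u - 1)
  rw [sub_add_cancel] at e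
  have r2 : (u - 1).im = u.im := by simp
  have h2 := Lr_nonpos (abs_nonneg u.im) hy (x := (u - 1).re) (by simp; linarith only [h0])
    (by simp; linarith only [h1])
  unfold UU at e
  rw [r2] at e
  unfold UU
  rw [e]
  linarith only [h2]

theorem UU_below {u : ℂ} (h0 : 93 / 100 ≤ u.re) (h1 : u.re ≤ 1) (hy : |u.im| ≤ 135 / 1000) :
    Real.pi / 2 * |u.im| ≤ UU u := by
  have e := UU_one_sub u
  have r2 : (1 - u).im = -u.im := by simp
  have h2 := Lr_nonpos (abs_nonneg u.im) hy (x := (1 - u).re) (by simp; linarith only [h1])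
    (by simp; linarith only [h0])
  unfold UU at e
  rw [r2, abs_neg] at e
  unfold UU
  linarith only [e, h2]

theorem UU_zero_near {u : ℂ} (h0 : |u.re| ≤ 1 / 20) (hy : |u.im| ≤ 135 / 1000) :
    -UU u ≤ 1081 / 10000 + Real.pi / 2 * |u.im| := by
  obtain ⟨h1, h2⟩ := abs_le.1 h0
  rcases le_total 0 u.re with h | h
  · have := neg_UU_le h
    have := lam_le_20 h h2
    linarith
  · have h3 := Lr_nonpos (abs_nonneg u.im) hy (x := -u.re) (by linarith only [h]) (by linarith only [h1])
    rw [DT.Lr_neg] at h3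
    unfold UU
    linarith only [h3]

/-! ### states of the inner variable next to a digit `1` -/

/-- values on the level and on the right ramp -/
noncomputable def SLv (a t h μ : ℝ) : ℝ :=
  -(Real.pi * (t * μ + h * (a + μ - 1 / 2)) + uu (μ - a) (h - t))

noncomputable def SRv (a t h μ : ℝ) : ℝ :=
  -(Real.pi * (t * μ + 5 * h * (77 / 100 - μ) * (a + μ - 1 / 2)) +
    uu (μ - a) (5 * h * (77 / 100 - μ) - t))

section
open NumU NumU.E
open NumI (V lkR)

def cN1 : E := sub (var 2) (add (q 655 10000) (mul (q 38 100) (var 1)))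

theorem cN1_val {a T h μ : ℝ} (hp : 0 < cN1.val [a, T, h, μ]) : 655 / 10000 + 38 / 100 * T < h := by
  simp only [cN1, E.val, lkR] at hp
  push_cast at hp
  linarith only [hp]

theorem left_row {a T h μ : ℝ} (a0 : 35 / 100 ≤ a) (a1 : a ≤ 6 / 10) (T0 : -(78 / 1000) ≤ T)
    (T1 : T ≤ -(10 / 1000)) (h0 : 5 / 1000 ≤ h) (h1 : h ≤ 655 / 10000 + 38 / 100 * T)
    (m0 : 0 ≤ μ) (m1 : μ ≤ 1 / 10) :
    gA a (4 * T * (6 / 10 - a)) h μ 1 < V57 a (4 * T * (6 / 10 - a)) h ∨
      gA a (4 * T * (6 / 10 - a)) h μ 1 < V77 a (4 * T * (6 / 10 - a)) := by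
  have kv : ∀ μ : ℝ, ((q 4 1) : E).val [a, T, h, μ] = 4 := fun μ => by
    simp only [E.val]; norm_num
  have sv : ∀ μ : ℝ, ((q 1 1) : E).val [a, T, h, μ] = 1 := fun μ => by
    simp only [E.val]; norm_num
  have hc : chkT [sub (x57 (q 4 1)) (xGA (q 4 1) (q 1 1)), sub (x77 (q 4 1)) (xGA (q 4 1) (q 1 1)),
      cN1] 28 249232996794751788398448833614500228357927375754685270675166114046318590260918054118921782987218575106578365465566343566657477248138861527447543219676522948904212651069648513542911944300649547359947535089127398782612095640879970089912242224 [V.of 10000 3500 6000 4, V.of 10000 (-780) (-100) 4, V.of 10000 50 620 4,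
      V.of 10000 0 1000 4] = true := by
    decide +kernel
  obtain ⟨e, he, hp⟩ := chkT4 hc n0 (x := a) (y := T) (z := h) (w := μ)
    (bl (by push_cast; linarith only [a0])) (bu (by push_cast; linarith only [a1]))
    (bl (by push_cast; linarith only [T0])) (bu (by push_cast; linarith only [T1]))
    (bl (by push_cast; linarith only [h0])) (bu (by push_cast; linarith only [T1, h1]))
    (bl (by push_cast; linarith only [m0])) (bu (by push_cast; linarith only [m1]))
  simp only [List.mem_cons, List.not_mem_nil, or_false] at he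
  rcases he with rfl | rfl | rfl
  · left
    rw [E.val, x57_val (kv μ), xGA_val (kv μ) (sv μ)] at hp
    linarith only [hp]
  · right
    rw [E.val, x77_val (kv μ), xGA_val (kv μ) (sv μ)] at hp
    linarith only [hp]
  · exact absurd (cN1_val hp) (by linarith only [h1])

def xNr : E := sub (x77 (q 4 1)) (add (neg (mul pi (add (mul (xt (q 4 1)) (var 3))
  (mul xH (sub (add (var 0) (var 3)) (q 1 2)))))) (add (q 1081 10000)
    (mul (mul pi (q 1 2)) (sub xH (xt (q 4 1))))))

theorem near_row {a T h μ : ℝ} (a0 : 52 / 100 ≤ a) (a1 : a ≤ 6 / 10) (T0 : -(78 / 1000) ≤ T)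
    (T1 : T ≤ -(10 / 1000)) (h0 : 5 / 1000 ≤ h) (h1 : h ≤ 655 / 10000 + 38 / 100 * T)
    (m0 : 57 / 100 ≤ μ) (m1 : μ ≤ 65 / 100) (hx : |μ - a| ≤ 1 / 20) :
    -(Real.pi * (4 * T * (6 / 10 - a) * μ + 5 * h * (77 / 100 - μ) * (a + μ - 1 / 2))) +
      (1081 / 10000 + Real.pi / 2 * (5 * h * (77 / 100 - μ) - 4 * T * (6 / 10 - a))) <
      V77 a (4 * T * (6 / 10 - a)) := by
  have kv : ∀ μ : ℝ, ((q 4 1) : E).val [a, T, h, μ] = 4 := fun μ => by
    simp only [E.val]; norm_num
  have hc : chkT [xNr, cN1, sub (sub (var 3) (var 0)) (q 5 100),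
      sub (q (-5) 100) (sub (var 3) (var 0))] 28 157051922078687637536 [V.of 10000 5200 6000 4,
      V.of 10000 (-780) (-100) 4, V.of 10000 50 620 4, V.of 10000 5700 6500 4] = true := by
    decide +kernel
  obtain ⟨e, he, hp⟩ := chkT4 hc n0 (x := a) (y := T) (z := h) (w := μ)
    (bl (by push_cast; linarith only [a0])) (bu (by push_cast; linarith only [a1]))
    (bl (by push_cast; linarith only [T0])) (bu (by push_cast; linarith only [T1]))
    (bl (by push_cast; linarith only [h0])) (bu (by push_cast; linarith only [T1, h1]))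
    (bl (by push_cast; linarith only [m0])) (bu (by push_cast; linarith only [m1]))
  simp only [List.mem_cons, List.not_mem_nil, or_false] at he
  obtain ⟨x0, x1⟩ := abs_le.1 hx
  rcases he with rfl | rfl | rfl | rfl
  · have e1 := x77_val (kv μ)
    simp only [xNr, E.val, e1] at hp
    simp only [xt, xH, E.val, lkR] at hp
    push_cast at hp
    linarith only [hp]
  · exact absurd (cN1_val hp) (by linarith only [h1])
  · simp only [E.val, lkR] at hp
    push_cast at hp
    exact absurd hp (by linarith only [x1, hp])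
  · simp only [E.val, lkR] at hp
    push_cast at hp
    exact absurd hp (by linarith only [a1, m0, hp])

end

/-- **The value of an end with three crossings next to a digit `1`, right ramp of the hinge.** -/
theorem val_one {T h μ a B : ℝ} {v : ℂ} (hT : HT .one T h) (H : MaxM v h μ) (hr : v.re = a)
    (hi : v.im = 4 * T * (6 / 10 - a)) (a0 : 35 / 100 ≤ a) (a1 : a ≤ 6 / 10)
    (rB : a + 1 / 20 ≤ μ → μ ≤ 57 / 100 → SLv a (4 * T * (6 / 10 - a)) h μ ≤ B)
    (rC : 57 / 100 ≤ μ → μ ≤ 77 / 100 → a + 1 / 20 ≤ μ → SRv a (4 * T * (6 / 10 - a)) h μ ≤ B) :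
    Wm v (mpt h μ) ≤ B := by
  obtain ⟨T0, T1, h0, h1⟩ := hT
  have hpi := Real.pi_pos
  have hp2 : Real.pi < 32 / 10 := by linarith only [Real.pi_lt_d2]
  have hh : |h| ≤ 655 / 10000 := by rw [abs_le]; constructor <;> linarith only [h0, T1, h1]
  have m0 := H.m0
  have m1 := H.m1
  set t := 4 * T * (6 / 10 - a) with ht
  have t0 : t ≤ 0 := by nlinarith only [a1, ht, T1]
  have t1 : T ≤ t := by nlinarith only [a0, ht, T1]
  have xb : (mpt h μ - v).re = μ - a := by rw [Complex.sub_re, mpt_re, hr]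
  have hne := ne_hinge hr hi H (by linarith only [a0]) a1 hh
  rcases le_or_gt μ (1 / 10) with c | c
  · -- left ramp
    have w := Wm_left (h := h) hr hi m0 c (σ := 1) (Or.inl rfl) (by nlinarith only [a1, m0, ht, T1, h0])
    have r0 := left_row a0 a1 T0 T1 h0 h1 m0 c
    rw [← ht] at r0
    rcases r0 with r | r
    · exact absurd (V57_le hr hi H) (by rw [w]; linarith only [r])
    · exact absurd (V77_le hr hi H) (by rw [w]; linarith only [r])
  have near : 57 / 100 ≤ μ → |μ - a| ≤ 1 / 20 → False := by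
    intro d1 d2
    obtain ⟨x0, x1⟩ := abs_le.1 d2
    have i := mpt_right (h := h) d1 m1
    have yb : (mpt h μ - v).im = 5 * h * (77 / 100 - μ) - t := by rw [Complex.sub_im, i, hi]
    have y0 : 0 ≤ 5 * h * (77 / 100 - μ) := by nlinarith only [a1, x1, h0, m1]
    have y1 : 5 * h * (77 / 100 - μ) ≤ h := by nlinarith only [d1, h0]
    have ya : |(mpt h μ - v).im| = 5 * h * (77 / 100 - μ) - t := by
      rw [yb, abs_of_nonneg (by linarith only [t0, y0])]
    have z := UU_zero_near (u := mpt h μ - v) (by rw [xb]; exact d2) (by rw [ya]; linarith only [T0, h1, t1, y1])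
    have r := near_row (by linarith only [d1, x1]) a1 T0 T1 h0 h1 d1 (by linarith only [a1, x1]) d2
    rw [← ht] at r
    have l := V77_le hr hi H
    rw [Wm_val, mpt_re, i, hr, hi] at l
    rw [ya] at z
    linarith only [z, r, l]
  rcases le_or_gt μ (57 / 100) with c1 | c1
  · rcases c1.eq_or_lt with c2 | c2
    · rcases le_or_gt (|μ - a|) (1 / 20) with w | w
      · exact (near c2.ge w).elim
      · have w' : a + 1 / 20 ≤ μ := by
          rcases lt_abs.1 w with w | w
          · linarith only [w]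
          · linarith only [a1, c2, w]
        have i := mpt_mid (h := h) c.le c1
        have r := rB w' c1
        unfold SLv at r
        rw [Wm_val, UU_uu, xb, Complex.sub_im, mpt_re, i, hr, hi]
        linarith only [r]
    · rcases lt_or_ge μ a with w | w
      · exact (level_false hr hi H c c2 w a1).elim
      rcases lt_or_ge μ (a + 1 / 20) with w' | w'
      · -- too close to the hinge
        have i := mpt_mid (h := h) c.le c1
        have yb : (mpt h μ - v).im = h - t := by rw [Complex.sub_im, i, hi]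
        have hsin : Complex.sin (Real.pi * (mpt h μ - v)) ≠ 0 := by
          rcases hne with h2 | h2
          · apply sin_ne_of_re (abs_pos.2 h2)
            rw [xb, abs_lt]
            constructor <;> linarith only [w, a0, m1]
          · exact sin_ne_of_im h2
        have l := H.level_right c.le c2 hsin
        have y0 : 0 ≤ h - t := by linarith only [h0, t0]
        have y1 : h - t ≤ 114 / 1000 := by linarith only [T0, h1, t1]
        have k := LL_le_half (u := mpt h μ - v) (by rw [yb, abs_of_nonneg y0]; linarith only [T0, h1, t1]) hne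
          (by rw [xb, abs_of_nonneg (by linarith only [w])]; linarith only [a0, m1])
        rw [xb, yb] at k
        rw [hi] at l
        have k1 : (μ - a) ^ 2 ≤ (1 / 20) ^ 2 :=
          pow_le_pow_left₀ (by linarith only [w]) (by linarith only [w']) 2
        have k2 : (h - t) ^ 2 ≤ 114 / 1000 * (h - t) := by nlinarith only [h1, T0, h0, t0, T1, t1]
        have k3 : (h - t) ^ 2 * (1 + 1106 / 100 * (h - t) ^ 2) ≤ 131 / 1000 * (h - t) := by
          have k4 : (h - t) ^ 2 ≤ (114 / 1000) ^ 2 := pow_le_pow_left₀ y0 y1 2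
          have k5 : 1 + 1106 / 100 * (h - t) ^ 2 ≤ 1144 / 1000 := by linarith only [T0, h1, t1, k2]
          have k6 := mul_le_mul k2 k5 (by positivity) (by linarith only [h0, t0])
          linarith only [h0, t0, k6]
        have k7 : Real.pi * (t + h) ≤ 32 / 10 * (66 / 1000) := by
          rcases le_total 0 (t + h) with g | g
          · exact mul_le_mul hp2.le (by linarith only [T1, h1, t0]) g (by norm_num)
          · have := mul_nonpos_of_nonneg_of_nonpos hpi.le g
            linarith only [T0, h1, t1, l, k, k1, k3, this]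
        have k8 : 0 ≤ 5 * (h - t) - 0 := by linarith only [l, k, k1, k3, k7]
        have k9 : Real.pi * (t + h) ≤ 32 / 10 * (h + t) ∨ h + t ≤ 0 := by
          rcases le_total 0 (t + h) with g | g
          · left
            rw [add_comm h t]
            exact mul_le_mul_of_nonneg_right hp2.le g
          · right
            linarith only [h1, t1, l, k, k1, k3, k7]
        rcases k9 with k9 | k9
        · nlinarith only [h1, t1, l, k, k1, k3, k7, k9]
        · have := mul_nonpos_of_nonneg_of_nonpos hpi.le (show t + h ≤ 0 by linarith only [h1, t1, l, k, k1, k3, k7])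
          nlinarith only [T0, h1, t1, l, k, k1, k3, this]
      · have i := mpt_mid (h := h) c.le c1
        have r := rB w' c1
        unfold SLv at r
        rw [Wm_val, UU_uu, xb, Complex.sub_im, mpt_re, i, hr, hi]
        linarith only [r]
  · rcases le_or_gt (|μ - a|) (1 / 20) with w | w
    · exact (near c1.le w).elim
    · have w' : a + 1 / 20 ≤ μ := by
        rcases lt_abs.1 w with w | w
        · linarith only [w]
        · linarith only [a1, c1, w]
      have i := mpt_right (h := h) c1.le m1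
      have r := rC c1.le m1 w'
      unfold SRv at r
      rw [Wm_val, UU_uu, xb, Complex.sub_im, mpt_re, i, hr, hi]
      linarith only [r]

end L3

end Pool.Agent.Work.MP_b30479_gt.G2
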