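import Pool.Agent.Work.MP_b30479_gt.G2.ML3r

/-!
# Value moves of a hinge between a digit `1` and an end with three crossings: rows

The hinge is moved from its right ramp to the point `c` of its level and the inner variable of the
end to `c + 1/6 - 577/1000 (T + h)`.  The changes of the two regions are compared with a bilinear
function of the position of the hinge and of its height.
-/

namespace Pool.Agent.Work.MP_b30479_gt.G2

open Finset VOL Filter Topology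

namespace L3

open NumI (V lkR)
open NumU NumU.E

/-! ### the comparison function -/

noncomputable def fr (m t x0 x1 x2 x3 : ℤ) (a S : ℝ) : ℝ := (x0 : ℝ) / 100000 +
  (x1 : ℝ) / 10000 * (a - (m : ℝ) / 100) + ((x2 : ℝ) / 10000 * (S - (t : ℝ) / 10000) +
    (x3 : ℝ) / 10000 * ((a - (m : ℝ) / 100) * (S - (t : ℝ) / 10000)))

def fe (m t x0 x1 x2 x3 : ℤ) (S : E) : E :=
  add (add (q x0 100000) (mul (q x1 10000) (sub (var 0) (q m 100))))
    (add (mul (q x2 10000) (sub S (q t 10000)))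
      (mul (q x3 10000) (mul (sub (var 0) (q m 100)) (sub S (q t 10000)))))

theorem fe_val {m t x0 x1 x2 x3 : ℤ} {S : E} {a s : ℝ} {l : List ℝ} (h : S.val (a :: l) = s) :
    (fe m t x0 x1 x2 x3 S).val (a :: l) = fr m t x0 x1 x2 x3 a s := by
  simp only [fe, fr, E.val, lkR, h]
  push_cast
  ring

/-! ### the end with three crossings -/

/-- the value after the move -/
noncomputable def tg (c T h : ℝ) : ℝ :=
  -(Real.pi * (T * (c + (1 / 6 - 577 / 1000 * (T + h))) +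
    h * (2 * c + (1 / 6 - 577 / 1000 * (T + h)) - 1 / 2)) +
      uu (1 / 6 - 577 / 1000 * (T + h)) (h - T)) - uu c T

theorem tg_eq {v : ℂ} {c T h : ℝ} (hr : v.re = c) (hi : v.im = T)
    (h0 : 1 / 10 ≤ c + (1 / 6 - 577 / 1000 * (T + h)))
    (h1 : c + (1 / 6 - 577 / 1000 * (T + h)) ≤ 57 / 100) :
    Wm v (mpt h (c + (1 / 6 - 577 / 1000 * (T + h)))) - UU v = tg c T h := by
  have i := mpt_mid (h := h) h0 h1
  rw [Wm_val, UU_uu, UU_uu, Complex.sub_re, Complex.sub_im, mpt_re, i, hr, hi]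
  unfold tg
  rw [show c + (1 / 6 - 577 / 1000 * (T + h)) - c = 1 / 6 - 577 / 1000 * (T + h) by ring]
  ring

def xp : E := sub (q 1 6) (mul (q 577 1000) (add (var 1) (var 2)))

def xtg (c : E) : E := sub (neg (add (mul pi (add (mul (var 1) (add c xp))
  (mul (var 2) (sub (add (mul (q 2 1) c) xp) (q 1 2))))) (E.uu xp (sub (var 2) (var 1)))))
    (E.uu c (var 1))

def xSL : E := neg (add (mul pi (add (mul (xt (q 4 1)) (var 3))
  (mul (var 2) (sub (add (var 0) (var 3)) (q 1 2))))) (E.uu (sub (var 3) (var 0))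
    (sub (var 2) (xt (q 4 1)))))

def xSR : E := neg (add (mul pi (add (mul (xt (q 4 1)) (var 3))
  (mul xH (sub (add (var 0) (var 3)) (q 1 2))))) (E.uu (sub (var 3) (var 0))
    (sub xH (xt (q 4 1)))))

/-- `κ / 10000 + T / 3 - h` -/
def xK (κ : ℤ) : E := sub (add (q κ 10000) (mul (q 1 3) (var 1))) (var 2)

def alt3 (X c f : E) (κ : ℤ) : List E :=
  [sub (sub (add (xtg c) (E.uu (var 0) (xt (q 4 1)))) X) f, cN1, xK κ,
    sub (q 5 100) (sub (var 3) (var 0))]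

section
variable {a T h μ : ℝ} {c f : E} {γ φ : ℝ} {κ a0 a1 T0 T1 m0 m1 : ℤ} {n ce : ℕ}

theorem four_val {l : List ℝ} : ((q 4 1) : E).val l = 4 := by
  simp only [E.val]; norm_num

theorem row3_of {X : E} {ξ : ℝ} (hX : X.val [a, T, h, μ] = ξ)
    (hc : chkT (alt3 X c f κ) n ce [V.of 10000 a0 a1 4, V.of 10000 T0 T1 4, V.of 10000 50 620 4,
      V.of 10000 m0 m1 4] = true)
    (ha : (a0 : ℝ) ≤ 10000 * a ∧ 10000 * a ≤ (a1 : ℝ))
    (hT : (T0 : ℝ) ≤ 10000 * T ∧ 10000 * T ≤ (T1 : ℝ))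
    (hm : (m0 : ℝ) ≤ 10000 * μ ∧ 10000 * μ ≤ (m1 : ℝ))
    (hh : 5 / 1000 ≤ h) (hh' : h ≤ 62 / 1000) (h1 : h ≤ 655 / 10000 + 38 / 100 * T)
    (hk : (κ : ℝ) / 10000 + 1 / 3 * T ≤ h) (hx : a + 1 / 20 ≤ μ)
    (cv : c.val [a, T, h, μ] = γ) (fv : f.val [a, T, h, μ] = φ) :
    ξ ≤ tg γ T h + uu a (4 * T * (6 / 10 - a)) - φ := by
  obtain ⟨e, he, hp⟩ := chkT4 hc n0 (x := a) (y := T) (z := h) (w := μ)
    (bl ha.1) (bu ha.2) (bl hT.1) (bu hT.2) (bl (by push_cast; linarith only [hh]))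
    (bu (by push_cast; linarith only [hh'])) (bl hm.1) (bu hm.2)
  simp only [alt3, List.mem_cons, List.not_mem_nil, or_false] at he
  rcases he with rfl | rfl | rfl | rfl
  · have e1 : (xtg c).val [a, T, h, μ] = tg γ T h := by
      simp only [xtg, xp, tg, E.val, lkR, cv]
      push_cast
      simp only [div_one]
    have e2 : (xt (q 4 1)).val [a, T, h, μ] = 4 * T * (6 / 10 - a) := by
      simp only [xt, E.val, lkR]
      push_cast
      simp only [div_one]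
    simp only [E.val, e1, e2, fv, hX, lkR] at hp
    linarith only [hp]
  · exact absurd (cN1_val hp) (by linarith only [h1])
  · simp only [xK, E.val, lkR] at hp
    push_cast at hp
    exact absurd hp (by linarith only [hk, hp])
  · simp only [E.val, lkR] at hp
    push_cast at hp
    exact absurd hp (by linarith only [hx, hp])

theorem xSL_val : xSL.val [a, T, h, μ] = SLv a (4 * T * (6 / 10 - a)) h μ := by
  simp only [xSL, xt, SLv, E.val, lkR]
  push_cast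
  simp only [div_one]

theorem xSR_val : xSR.val [a, T, h, μ] = SRv a (4 * T * (6 / 10 - a)) h μ := by
  simp only [xSR, xt, xH, SRv, E.val, lkR]
  push_cast
  simp only [div_one]

end

/-! ### the digit `1` -/

/-- change of the value of the digit `1`: the hinge is moved from `a` to `c`; `k`, `τ`: position and
height of the other hinge -/
noncomputable def D1 (c a T k τ : ℝ) : ℝ :=
  Real.pi * ((c - a) * τ + (T - 4 * T * (6 / 10 - a)) * (k - 1)) +
    (uu (c + k) (T + τ) - uu (a + k) (4 * T * (6 / 10 - a) + τ)) +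
    (uu a (4 * T * (6 / 10 - a)) - uu c T)

def xT : E := mul (mul (q 4 1) (var 1)) (sub (q 6 10) (var 0))

/-- `tp` the height of the other hinge, `G` a lower bound of `uu (c + k) (T + τ)`, `U` an upper
bound of `uu (a + k) (t + τ)` -/
def vB (c tp G U f : E) : E :=
  add (add (add (mul pi (add (mul (sub c (var 0)) tp) (mul (sub (var 1) xT) (sub (var 2) (q 1 1)))))
    (sub G U)) (sub (E.uu (var 0) xT) (E.uu c (var 1)))) f

/-- the two lower bounds -/
def gU (c tp : E) : E := E.uu (add c (var 2)) (add (var 1) tp)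
def gL (tp : E) : E := mul (mul pi (q 1 2)) (add (var 1) tp)

/-- the upper bounds -/
def uA (tp : E) : E := E.uu (add (var 0) (var 2)) (add xT tp)
def uN (m n : ℤ) (tp sg : E) : E := add (add (q m 10000) (mul (q n 1000) (sub (q 1 1)
  (add (var 0) (var 2))))) (mul (mul (q 1 2) pi) (mul sg (add xT tp)))
def uH (tp sg : E) : E := mul (mul (q 1 2) pi) (mul sg (add xT tp))
def uB (tp sg : E) : E := add (E.uu (sub (add (var 0) (var 2)) (q 1 1)) (add xT tp))
  (mul pi (mul sg (add xT tp)))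

/-- constraints: `T + K ≤ s1`, `s0 ≤ T + K` (variables `a T k K`) -/
def cS1 (s : ℤ) : E := sub (add (var 1) (var 3)) (q s 10000)
def cS0 (s : ℤ) : E := sub (q s 10000) (add (var 1) (var 3))
/-- constraints: `a + k ≤ s`, `s ≤ a + k` -/
def cA1 (s : ℤ) : E := sub (add (var 0) (var 2)) (q s 10000)
def cA0 (s : ℤ) : E := sub (q s 10000) (add (var 0) (var 2))
/-- constraint on the sign of the height of the sum -/
def cY (tp sg : E) : E := neg (mul sg (add xT tp))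

def altI (c tp G f : E) (s0 s1 S1 : ℤ) : List E :=
  [vB c tp G (uA tp) f, cS1 s1, cS0 s0, cA1 S1]

def altN (c tp G f sg : E) (s0 s1 : ℤ) : List E :=
  [vB c tp G (uA tp) f, vB c tp G (uN 102 2770 tp sg) f, vB c tp G (uN 302 1673 tp sg) f,
    cY tp sg, cS1 s1, cS0 s0, cA1 10000, cA0 9500]

def altH (c tp G f sg : E) (s0 s1 : ℤ) : List E :=
  [vB c tp G (uB tp sg) f, vB c tp G (uH tp sg) f, cY tp sg, cS1 s1, cS0 s0, cA1 10700,
    cA0 10000]

def altB (c tp G f sg : E) (s0 s1 : ℤ) : List E :=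
  [vB c tp G (uB tp sg) f, cY tp sg, cS1 s1, cS0 s0, cA0 10700]

section
variable {a T k K : ℝ} {c tp G U f sg : E} {γ τ σ φ : ℝ}
variable {a0 a1 T0 T1 k0 k1 K0 K1 s0 s1 S1 : ℤ} {n ce : ℕ}

theorem xT_val : xT.val [a, T, k, K] = 4 * T * (6 / 10 - a) := by
  simp only [xT, E.val, lkR]
  push_cast
  simp only [div_one]

theorem vB_pos (hp : 0 < (vB c tp G U f).val [a, T, k, K]) (cv : c.val [a, T, k, K] = γ)
    (tv : tp.val [a, T, k, K] = τ) (fv : f.val [a, T, k, K] = φ)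
    (hG : G.val [a, T, k, K] ≤ uu (γ + k) (T + τ))
    (hU : uu (a + k) (4 * T * (6 / 10 - a) + τ) ≤ U.val [a, T, k, K]) : 0 < D1 γ a T k τ + φ := by
  simp only [vB, E.val, cv, tv, fv, xT_val, lkR] at hp
  push_cast at hp
  unfold D1
  linarith only [hG, hU, hp]

/-- data of a row -/
structure Row1 (c tp G f : E) (a T k K γ τ φ : ℝ) (s0 s1 : ℤ) : Prop where
  cv : c.val [a, T, k, K] = γ
  tv : tp.val [a, T, k, K] = τ
  fv : f.val [a, T, k, K] = φ
  hG : G.val [a, T, k, K] ≤ uu (γ + k) (T + τ)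
  h0 : (s0 : ℝ) / 10000 ≤ T + K
  h1 : T + K ≤ (s1 : ℝ) / 10000

theorem Row1.cS1 (R : Row1 c tp G f a T k K γ τ φ s0 s1) :
    ¬ 0 < (L3.cS1 s1).val [a, T, k, K] := by
  simp only [L3.cS1, E.val, lkR]
  push_cast
  linarith only [R, R.h1]

theorem Row1.cS0 (R : Row1 c tp G f a T k K γ τ φ s0 s1) :
    ¬ 0 < (L3.cS0 s0).val [a, T, k, K] := by
  simp only [L3.cS0, E.val, lkR]
  push_cast
  linarith only [R, R.h0]

theorem cA1_not {s : ℤ} (h : a + k ≤ (s : ℝ) / 10000) : ¬ 0 < (cA1 s).val [a, T, k, K] := by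
  simp only [cA1, E.val, lkR]
  push_cast
  linarith only [h]

theorem cA0_not {s : ℤ} (h : (s : ℝ) / 10000 ≤ a + k) : ¬ 0 < (cA0 s).val [a, T, k, K] := by
  simp only [cA0, E.val, lkR]
  push_cast
  linarith only [h]

theorem cY_not (tv : tp.val [a, T, k, K] = τ) (sv : sg.val [a, T, k, K] = σ)
    (h : 0 ≤ σ * (4 * T * (6 / 10 - a) + τ)) : ¬ 0 < (cY tp sg).val [a, T, k, K] := by
  simp only [cY, E.val, xT_val, tv, sv]
  linarith only [h]

theorem abs_sg {y : ℝ} (hσ : σ = 1 ∨ σ = -1) (h : 0 ≤ σ * y) : |y| = σ * y := by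
  rcases hσ with rfl | rfl
  · rw [abs_of_nonneg (by linarith only [h])]; ring
  · rw [abs_of_nonpos (by linarith only [h])]; ring

theorem rowI1 (R : Row1 c tp G f a T k K γ τ φ s0 s1)
    (hc : chkT (altI c tp G f s0 s1 S1) n ce [V.of 10000 a0 a1 4, V.of 10000 T0 T1 4,
      V.of 10000 k0 k1 4, V.of 10000 K0 K1 4] = true)
    (ha : (a0 : ℝ) ≤ 10000 * a ∧ 10000 * a ≤ (a1 : ℝ))
    (hT : (T0 : ℝ) ≤ 10000 * T ∧ 10000 * T ≤ (T1 : ℝ))
    (hk : (k0 : ℝ) ≤ 10000 * k ∧ 10000 * k ≤ (k1 : ℝ))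
    (hK : (K0 : ℝ) ≤ 10000 * K ∧ 10000 * K ≤ (K1 : ℝ)) (hS : a + k ≤ (S1 : ℝ) / 10000) :
    0 < D1 γ a T k τ + φ := by
  obtain ⟨e, he, hp⟩ := chkT4 hc n0 (x := a) (y := T) (z := k) (w := K)
    (bl ha.1) (bu ha.2) (bl hT.1) (bu hT.2) (bl hk.1) (bu hk.2) (bl hK.1) (bu hK.2)
  simp only [altI, List.mem_cons, List.not_mem_nil, or_false] at he
  rcases he with rfl | rfl | rfl | rfl
  · refine vB_pos hp R.cv R.tv R.fv R.hG ?_
    simp only [uA, E.val, xT_val, R.tv, lkR]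
    exact le_rfl
  · exact absurd hp R.cS1
  · exact absurd hp R.cS0
  · exact absurd hp (cA1_not hS)

theorem rowN1 (R : Row1 c tp G f a T k K γ τ φ s0 s1) (sv : sg.val [a, T, k, K] = σ)
    (hσ : σ = 1 ∨ σ = -1)
    (hc : chkT (altN c tp G f sg s0 s1) n ce [V.of 10000 a0 a1 4, V.of 10000 T0 T1 4,
      V.of 10000 k0 k1 4, V.of 10000 K0 K1 4] = true)
    (ha : (a0 : ℝ) ≤ 10000 * a ∧ 10000 * a ≤ (a1 : ℝ))
    (hT : (T0 : ℝ) ≤ 10000 * T ∧ 10000 * T ≤ (T1 : ℝ))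
    (hk : (k0 : ℝ) ≤ 10000 * k ∧ 10000 * k ≤ (k1 : ℝ))
    (hK : (K0 : ℝ) ≤ 10000 * K ∧ 10000 * K ≤ (K1 : ℝ)) (hS0 : 95 / 100 ≤ a + k)
    (hS : a + k ≤ 1) (hy : 0 ≤ σ * (4 * T * (6 / 10 - a) + τ)) :
    0 < D1 γ a T k τ + φ := by
  have hpi := Real.pi_pos
  obtain ⟨e, he, hp⟩ := chkT4 hc n0 (x := a) (y := T) (z := k) (w := K)
    (bl ha.1) (bu ha.2) (bl hT.1) (bu hT.2) (bl hk.1) (bu hk.2) (bl hK.1) (bu hK.2)
  have near : uu (a + k) (4 * T * (6 / 10 - a) + τ) ≤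
      lam (1 - (a + k)) + Real.pi / 2 * (σ * (4 * T * (6 / 10 - a) + τ)) := by
    have := UU_near (u := ⟨a + k, 4 * T * (6 / 10 - a) + τ⟩) hS
    rw [← abs_sg hσ hy]
    exact this
  have l1 := lam_le_a (x := 1 - (a + k)) (by linarith only [hS]) (by linarith only [hS0])
  have l2 := lam_le_b (x := 1 - (a + k)) (by linarith only [hS]) (by linarith only [hS0])
  simp only [altN, List.mem_cons, List.not_mem_nil, or_false] at he
  rcases he with rfl | rfl | rfl | rfl | rfl | rfl | rfl | rfl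
  · refine vB_pos hp R.cv R.tv R.fv R.hG ?_
    simp only [uA, E.val, xT_val, R.tv, lkR]
    exact le_rfl
  · refine vB_pos hp R.cv R.tv R.fv R.hG ?_
    simp only [uN, E.val, xT_val, R.tv, sv, lkR]
    push_cast
    linarith only [near, l1]
  · refine vB_pos hp R.cv R.tv R.fv R.hG ?_
    simp only [uN, E.val, xT_val, R.tv, sv, lkR]
    push_cast
    linarith only [near, l2]
  · exact absurd hp (cY_not R.tv sv hy)
  · exact absurd hp R.cS1
  · exact absurd hp R.cS0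
  · exact absurd hp (cA1_not (by push_cast; linarith only [hS]))
  · exact absurd hp (cA0_not (by push_cast; linarith only [hS0]))

theorem uu_shift {x y : ℝ} (hσ : σ = 1 ∨ σ = -1) (hy : 0 ≤ σ * y) :
    uu x y = uu (x - 1) y + Real.pi * (σ * y) := by
  have := uu_add_one (x - 1) y
  rw [sub_add_cancel, abs_sg hσ hy] at this
  exact this

theorem rowH1 (R : Row1 c tp G f a T k K γ τ φ s0 s1) (sv : sg.val [a, T, k, K] = σ)
    (hσ : σ = 1 ∨ σ = -1)
    (hc : chkT (altH c tp G f sg s0 s1) n ce [V.of 10000 a0 a1 4, V.of 10000 T0 T1 4,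
      V.of 10000 k0 k1 4, V.of 10000 K0 K1 4] = true)
    (ha : (a0 : ℝ) ≤ 10000 * a ∧ 10000 * a ≤ (a1 : ℝ))
    (hT : (T0 : ℝ) ≤ 10000 * T ∧ 10000 * T ≤ (T1 : ℝ))
    (hk : (k0 : ℝ) ≤ 10000 * k ∧ 10000 * k ≤ (k1 : ℝ))
    (hK : (K0 : ℝ) ≤ 10000 * K ∧ 10000 * K ≤ (K1 : ℝ)) (hS0 : 1 ≤ a + k)
    (hS : a + k ≤ 107 / 100) (hy : 0 ≤ σ * (4 * T * (6 / 10 - a) + τ))
    (hy' : σ * (4 * T * (6 / 10 - a) + τ) ≤ 135 / 1000) :
    0 < D1 γ a T k τ + φ := by
  have hpi := Real.pi_pos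
  obtain ⟨e, he, hp⟩ := chkT4 hc n0 (x := a) (y := T) (z := k) (w := K)
    (bl ha.1) (bu ha.2) (bl hT.1) (bu hT.2) (bl hk.1) (bu hk.2) (bl hK.1) (bu hK.2)
  have beyond : uu (a + k) (4 * T * (6 / 10 - a) + τ) ≤
      Real.pi / 2 * (σ * (4 * T * (6 / 10 - a) + τ)) := by
    have := UU_beyond (u := ⟨a + k, 4 * T * (6 / 10 - a) + τ⟩) hS0 hS
      (by show |4 * T * (6 / 10 - a) + τ| ≤ _; rw [abs_sg hσ hy]; exact hy')
    rw [← abs_sg hσ hy]
    exact this
  have shift := uu_shift (x := a + k) hσ hy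
  simp only [altH, List.mem_cons, List.not_mem_nil, or_false] at he
  rcases he with rfl | rfl | rfl | rfl | rfl | rfl | rfl
  · refine vB_pos hp R.cv R.tv R.fv R.hG ?_
    simp only [uB, E.val, xT_val, R.tv, sv, lkR]
    push_cast
    rw [shift, div_one]
  · refine vB_pos hp R.cv R.tv R.fv R.hG ?_
    simp only [uH, E.val, xT_val, R.tv, sv]
    push_cast
    linarith only [beyond]
  · exact absurd hp (cY_not R.tv sv hy)
  · exact absurd hp R.cS1
  · exact absurd hp R.cS0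
  · exact absurd hp (cA1_not (by push_cast; linarith only [hS]))
  · exact absurd hp (cA0_not (by push_cast; linarith only [hS0]))

theorem rowB1 (R : Row1 c tp G f a T k K γ τ φ s0 s1) (sv : sg.val [a, T, k, K] = σ)
    (hσ : σ = 1 ∨ σ = -1)
    (hc : chkT (altB c tp G f sg s0 s1) n ce [V.of 10000 a0 a1 4, V.of 10000 T0 T1 4,
      V.of 10000 k0 k1 4, V.of 10000 K0 K1 4] = true)
    (ha : (a0 : ℝ) ≤ 10000 * a ∧ 10000 * a ≤ (a1 : ℝ))
    (hT : (T0 : ℝ) ≤ 10000 * T ∧ 10000 * T ≤ (T1 : ℝ))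
    (hk : (k0 : ℝ) ≤ 10000 * k ∧ 10000 * k ≤ (k1 : ℝ))
    (hK : (K0 : ℝ) ≤ 10000 * K ∧ 10000 * K ≤ (K1 : ℝ)) (hS0 : 107 / 100 ≤ a + k)
    (hy : 0 ≤ σ * (4 * T * (6 / 10 - a) + τ)) :
    0 < D1 γ a T k τ + φ := by
  obtain ⟨e, he, hp⟩ := chkT4 hc n0 (x := a) (y := T) (z := k) (w := K)
    (bl ha.1) (bu ha.2) (bl hT.1) (bu hT.2) (bl hk.1) (bu hk.2) (bl hK.1) (bu hK.2)
  have shift := uu_shift (x := a + k) hσ hy
  simp only [altB, List.mem_cons, List.not_mem_nil, or_false] at he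
  rcases he with rfl | rfl | rfl | rfl | rfl
  · refine vB_pos hp R.cv R.tv R.fv R.hG ?_
    simp only [uB, E.val, xT_val, R.tv, sv, lkR]
    push_cast
    rw [shift, div_one]
  · exact absurd hp (cY_not R.tv sv hy)
  · exact absurd hp R.cS1
  · exact absurd hp R.cS0
  · exact absurd hp (cA0_not (by push_cast; linarith only [hS0]))

/-- the lower bound near one -/
theorem gL_le (tv : tp.val [a, T, k, K] = τ)
    (h0 : 93 / 100 ≤ γ + k) (h1 : γ + k ≤ 1) (hy : |T + τ| ≤ 135 / 1000) :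
    (gL tp).val [a, T, k, K] ≤ uu (γ + k) (T + τ) := by
  have hpi := Real.pi_pos
  have := UU_below (u := ⟨γ + k, T + τ⟩) h0 h1 hy
  have h2 : Real.pi / 2 * (T + τ) ≤ Real.pi / 2 * |T + τ| :=
    mul_le_mul_of_nonneg_left (le_abs_self _) (by positivity)
  simp only [gL, E.val, tv, lkR]
  push_cast
  refine le_trans ?_ (h2.trans this)
  linarith only []

theorem gU_le (cv : c.val [a, T, k, K] = γ) (tv : tp.val [a, T, k, K] = τ) :
    (gU c tp).val [a, T, k, K] ≤ uu (γ + k) (T + τ) := by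
  simp only [gU, E.val, tv, cv, lkR]
  exact le_rfl

end

theorem tr01 (XM cl cr x : ℝ) : 0 ≤ tr 0 XM cl cr x ∧ tr 0 XM cl cr x ≤ 1 :=
  ⟨le_max_left _ _, max_le zero_le_one (min_le_left _ _)⟩

/-- bounds of the heights -/
theorem hts {a T K r : ℝ} (a0 : 35 / 100 ≤ a) (a1 : a ≤ 6 / 10) (T0 : 0 ≤ T) (T1 : T ≤ 1 / 10)
    (r0 : 0 ≤ r) (r1 : r ≤ 1) (K0 : -(1 / 10) ≤ K) (K1 : K ≤ 1 / 10) (S1 : T + K ≤ 134 / 1000) :
    |4 * T * (6 / 10 - a) + K * r| ≤ 135 / 1000 ∧ |T + K * r| ≤ 135 / 1000 := by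
  have h1 : 0 ≤ 4 * T * (6 / 10 - a) := mul_nonneg (by linarith only [T0]) (by linarith only [a1])
  have h2 : 4 * T * (6 / 10 - a) ≤ T := by nlinarith only [a0, T0]
  rcases le_total 0 K with h | h
  · have h3 : 0 ≤ K * r := mul_nonneg h r0
    have h4 : K * r ≤ K := by nlinarith only [r1, h]
    rw [abs_of_nonneg (by linarith only [h1, h3]), abs_of_nonneg (by linarith only [T0, h3])]
    constructor <;> linarith only [S1, h2, h4]
  · have h3 : K * r ≤ 0 := mul_nonpos_of_nonpos_of_nonneg h r0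
    have h4 : K ≤ K * r := by nlinarith only [r1, h]
    rw [abs_le, abs_le]
    refine ⟨⟨?_, ?_⟩, ?_, ?_⟩ <;> linarith only [K0, h1, h4, T1, h2, h3, T0]

end L3

end Pool.Agent.Work.MP_b30479_gt.G2
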