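import Pool.Agent.Work.MP_b30479_gt.G2.ML3s
import Pool.Agent.Work.NumU.TreeS

/-!
# Value moves of a hinge `1 | 3e`: the digit `1`, other neighbour of class `two`
-/

namespace Pool.Agent.Work.MP_b30479_gt.G2

open Finset VOL Filter Topology

namespace L3

open NumI (V lkR)
open NumU NumU.E

set_option linter.unusedTactic false

theorem d1_two_A_h2_q1 : Pool.Agent.Work.NumU.runT (altI (q 3 10) (var 3) (gU (q 3 10) (var 3)) (fe 37 400 4493 8150 443 140925 (var 1)) 830 1340 9500) 25
    5333283146796601037651012386738535847324979250905029990828310394906485562034919454706440351822890198912522537040389321766522793348391994471968512062616174812613280812543659406360896282973229067663161521154181569665540482059856630429862709366645137342998920656350067292432131326404733310184547888045997951209515385832483340156451146546222545458803574033635635352086250386954966221465822315537424599887469684129506874002669936638269868167025263914673774572805576057624393824063115883206159898651933769624861595109364726058685361752246630740914252345523442698469614307274180604235647304118597552703473809339255964983721572199932518291750223226899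
    (Pool.Agent.Work.NumI.setL 0 (Pool.Agent.Work.NumI.setL 2 (Pool.Agent.Work.NumI.setL 2 ([V.of 10000 3500 3900 4, V.of 10000 300 590 4, V.of 10000 1600 5100 4, V.of 10000 320 910 4])))) =
    146905711997862311785708851584848253545883688912783645298054130762725959427760136762665057625630009210404621193722158463029711345711151771249128967888375070354170181531804736600613190308814335941156031593132137352071441554918908960878972784127364286517239385308395983516662035467278250928002767372980365432276695077529121750902230646988466795138498388935051870756 := by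
  decide +kernel

theorem d1_two_A_h2_q2 : Pool.Agent.Work.NumU.runT (altI (q 3 10) (var 3) (gU (q 3 10) (var 3)) (fe 37 400 4493 8150 443 140925 (var 1)) 830 1340 9500) 25
    146905711997862311785708851584848253545883688912783645298054130762725959427760136762665057625630009210404621193722158463029711345711151771249128967888375070354170181531804736600613190308814335941156031593132137352071441554918908960878972784127364286517239385308395983516662035467278250928002767372980365432276695077529121750902230646988466795138498388935051870755
    (Pool.Agent.Work.NumI.setR 0 (Pool.Agent.Work.NumI.setL 2 (Pool.Agent.Work.NumI.setL 2 ([V.of 10000 3500 3900 4, V.of 10000 300 590 4, V.of 10000 1600 5100 4, V.of 10000 320 910 4])))) =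
    159441385103800476512858029269022492642485666805897157757213770051956677332055781288960146703306619106776070293990873149562480666988016906417557658138310315993490707058113921121846583154226929730097 := by
  decide +kernel

theorem d1_two_A_h2_q3 : Pool.Agent.Work.NumU.runT (altI (q 3 10) (var 3) (gU (q 3 10) (var 3)) (fe 37 400 4493 8150 443 140925 (var 1)) 830 1340 9500) 26
    159441385103800476512858029269022492642485666805897157757213770051956677332055781288960146703306619106776070293990873149562480666988016906417557658138310315993490707058113921121846583154226929730096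
    (Pool.Agent.Work.NumI.setR 2 (Pool.Agent.Work.NumI.setL 2 ([V.of 10000 3500 3900 4, V.of 10000 300 590 4, V.of 10000 1600 5100 4, V.of 10000 320 910 4]))) =
    209200678036371943774078222609379275091527090331283108355 := by
  decide +kernel

theorem d1_two_A_h2_q4 : Pool.Agent.Work.NumU.runT (altI (q 3 10) (var 3) (gU (q 3 10) (var 3)) (fe 37 400 4493 8150 443 140925 (var 1)) 830 1340 9500) 27
    209200678036371943774078222609379275091527090331283108354
    (Pool.Agent.Work.NumI.setR 2 ([V.of 10000 3500 3900 4, V.of 10000 300 590 4, V.of 10000 1600 5100 4, V.of 10000 320 910 4])) =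
    1 := by
  decide +kernel

theorem d1_two_A {a T k K : ℝ} (a0 : 3500 / 10000 ≤ a) (a1 : a ≤ 3900 / 10000)
    (T0 : 300 / 10000 ≤ T) (T1 : T ≤ 590 / 10000) (K0 : 320 / 10000 ≤ K)
    (K1 : K ≤ 910 / 10000) (S0 : 830 / 10000 ≤ T + K) (S1 : T + K ≤ 1340 / 10000)
    (k0 : 7 / 100 ≤ k) (k1 : k ≤ 5600 / 10000) :
    0 < D1 (3 / 10) a T k (K * tr 0 (80 / 100) (16 / 100) (29 / 100) k) +
      fr 37 400 4493 8150 443 140925 a T := by
  have cv : ((q 3 10) : E).val [a, T, k, K] = 3 / 10 := by
    simp only [E.val]; norm_num
  have fv : (fe 37 400 4493 8150 443 140925 (var 1)).val [a, T, k, K] = fr 37 400 4493 8150 443 140925 a T :=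
    fe_val (by simp only [E.val, lkR])
  have p1 : ((q 1 1) : E).val [a, T, k, K] = 1 := by simp only [E.val]; norm_num
  have p2 : ((q (-1) 1) : E).val [a, T, k, K] = -1 := by simp only [E.val]; norm_num
  rcases le_total k (1600 / 10000) with c0 | c0
  · have e : tr 0 (80 / 100) (16 / 100) (29 / 100) k = k / (16 / 100) :=
      tr_a (by norm_num) (by norm_num) (by norm_num) (by linarith only [k0]) (by linarith only [k0, k1, c0])
    have tv : (mul (mul (q 10000 1600) (var 2)) (var 3)).val [a, T, k, K] = K * tr 0 (80 / 100) (16 / 100) (29 / 100) k := by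
      rw [e]; simp only [E.val, lkR]; push_cast; ring
    obtain ⟨y1, y2⟩ := hts (a := a) (T := T) (K := K) (r := tr 0 (80 / 100) (16 / 100) (29 / 100) k) (by linarith only [a0]) (by linarith only [a1])
      (by linarith only [T0]) (by linarith only [T1]) (tr01 _ _ _ _).1
      (tr01 _ _ _ _).2 (by linarith only [K0]) (by linarith only [K1]) (by linarith only [S1])
    have Rr : Row1 (q 3 10) (mul (mul (q 10000 1600) (var 2)) (var 3)) (gU (q 3 10) (mul (mul (q 10000 1600) (var 2)) (var 3)))
      (fe 37 400 4493 8150 443 140925 (var 1)) a T k K (3 / 10) (K * tr 0 (80 / 100) (16 / 100) (29 / 100) k)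
      (fr 37 400 4493 8150 443 140925 a T) 830 1340 :=
      ⟨cv, tv, fv, gU_le cv tv, by push_cast; linarith only [S0],
        by push_cast; linarith only [S1]⟩
    have hc : chkT (altI (q 3 10) (mul (mul (q 10000 1600) (var 2)) (var 3)) (gU (q 3 10) (mul (mul (q 10000 1600) (var 2)) (var 3))) (fe 37 400 4493 8150 443 140925 (var 1)) 830 1340 9500)
        28 19802257437800254311065508625201527316921724330821906570490911481137037610268080431349896208345984413084182689643844897194277145466851219734835880282852476151351702800881469740789833762861602950173195651900355175769004066350089041936504447122277446932529641785059868930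
        [V.of 10000 3500 3900 4, V.of 10000 300 590 4, V.of 10000 700 1600 4, V.of 10000 320 910 4] = true := by
      decide +kernel
    exact rowI1 Rr hc ⟨by push_cast; linarith only [a0], by push_cast; linarith only [a1]⟩
      ⟨by push_cast; linarith only [T0], by push_cast; linarith only [T1]⟩
      ⟨by push_cast; linarith only [a0, a1, k0, k1, c0], by push_cast; linarith only [a0, a1, k0, k1, c0]⟩
      ⟨by push_cast; linarith only [K0], by push_cast; linarith only [K1]⟩ (by push_cast; linarith only [a0, a1, k0, k1, c0])
  rcases le_total k (5100 / 10000) with c1 | c1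
  · have e : tr 0 (80 / 100) (16 / 100) (29 / 100) k = 1 :=
      tr_b (by norm_num) (by norm_num) (by linarith only [k0, k1, c0, c1]) (by linarith only [k0, k1, c0, c1])
    have tv : (var 3).val [a, T, k, K] = K * tr 0 (80 / 100) (16 / 100) (29 / 100) k := by
      rw [e]; simp only [E.val, lkR]; ring
    obtain ⟨y1, y2⟩ := hts (a := a) (T := T) (K := K) (r := tr 0 (80 / 100) (16 / 100) (29 / 100) k) (by linarith only [a0]) (by linarith only [a1])
      (by linarith only [T0]) (by linarith only [T1]) (tr01 _ _ _ _).1
      (tr01 _ _ _ _).2 (by linarith only [K0]) (by linarith only [K1]) (by linarith only [S1])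
    have Rr : Row1 (q 3 10) (var 3) (gU (q 3 10) (var 3))
      (fe 37 400 4493 8150 443 140925 (var 1)) a T k K (3 / 10) (K * tr 0 (80 / 100) (16 / 100) (29 / 100) k)
      (fr 37 400 4493 8150 443 140925 a T) 830 1340 :=
      ⟨cv, tv, fv, gU_le cv tv, by push_cast; linarith only [S0],
        by push_cast; linarith only [S1]⟩
    have hc : chkT (altI (q 3 10) (var 3) (gU (q 3 10) (var 3)) (fe 37 400 4493 8150 443 140925 (var 1)) 830 1340 9500)
        28 21845127769278877850218546736081042830643115011707002842432759377536964862095030086477579681066558254745692311717434661955677361555013609357183025408475852032463998208178828928454231175058346261148309590647527709350053814517172758240717657565778482556923579008409875629802009912953787638515908149436407608154175020369851761280823896253327546199259439241771562402145281584967541643124008204441291161139075826194460155914936060470353380012135480994503780650211639532029517103362522657612430944878320720383433093567957917936375241737202199514784777607264021292931540202595043754949211357669775575873428723053592432573323559730923594923008914337378338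
        [V.of 10000 3500 3900 4, V.of 10000 300 590 4, V.of 10000 1600 5100 4, V.of 10000 320 910 4] = true :=
      Pool.Agent.Work.NumU.chkT_of (Pool.Agent.Work.NumU.runT_split rfl rfl rfl
        (Pool.Agent.Work.NumU.runT_split rfl rfl rfl
          (Pool.Agent.Work.NumU.runT_split rfl rfl rfl
            d1_two_A_h2_q1
            d1_two_A_h2_q2)
          d1_two_A_h2_q3)
        d1_two_A_h2_q4)
    exact rowI1 Rr hc ⟨by push_cast; linarith only [a0], by push_cast; linarith only [a1]⟩
      ⟨by push_cast; linarith only [T0], by push_cast; linarith only [T1]⟩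
      ⟨by push_cast; linarith only [a0, a1, k0, k1, c0, c1], by push_cast; linarith only [a0, a1, k0, k1, c0, c1]⟩
      ⟨by push_cast; linarith only [K0], by push_cast; linarith only [K1]⟩ (by push_cast; linarith only [a0, a1, k0, k1, c0, c1])
  have e : tr 0 (80 / 100) (16 / 100) (29 / 100) k = (80 / 100 - k) / (29 / 100) :=
    tr_c (by norm_num) (by norm_num) (by norm_num) (by linarith only [k0, k1, c0, c1]) (by linarith only [k0, k1, c0, c1])
  have tv : (mul (mul (q 10000 2900) (sub (q 8000 10000) (var 2))) (var 3)).val [a, T, k, K] = K * tr 0 (80 / 100) (16 / 100) (29 / 100) k := by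
    rw [e]; simp only [E.val, lkR]; push_cast; ring
  obtain ⟨y1, y2⟩ := hts (a := a) (T := T) (K := K) (r := tr 0 (80 / 100) (16 / 100) (29 / 100) k) (by linarith only [a0]) (by linarith only [a1])
    (by linarith only [T0]) (by linarith only [T1]) (tr01 _ _ _ _).1
    (tr01 _ _ _ _).2 (by linarith only [K0]) (by linarith only [K1]) (by linarith only [S1])
  have Rr : Row1 (q 3 10) (mul (mul (q 10000 2900) (sub (q 8000 10000) (var 2))) (var 3)) (gU (q 3 10) (mul (mul (q 10000 2900) (sub (q 8000 10000) (var 2))) (var 3)))
    (fe 37 400 4493 8150 443 140925 (var 1)) a T k K (3 / 10) (K * tr 0 (80 / 100) (16 / 100) (29 / 100) k)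
    (fr 37 400 4493 8150 443 140925 a T) 830 1340 :=
    ⟨cv, tv, fv, gU_le cv tv, by push_cast; linarith only [S0],
      by push_cast; linarith only [S1]⟩
  have hc : chkT (altI (q 3 10) (mul (mul (q 10000 2900) (sub (q 8000 10000) (var 2))) (var 3)) (gU (q 3 10) (mul (mul (q 10000 2900) (sub (q 8000 10000) (var 2))) (var 3))) (fe 37 400 4493 8150 443 140925 (var 1)) 830 1340 9500)
      28 36566476848
      [V.of 10000 3500 3900 4, V.of 10000 300 590 4, V.of 10000 5100 5600 4, V.of 10000 320 910 4] = true := by
    decide +kernel
  exact rowI1 Rr hc ⟨by push_cast; linarith only [a0], by push_cast; linarith only [a1]⟩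
    ⟨by push_cast; linarith only [T0], by push_cast; linarith only [T1]⟩
    ⟨by push_cast; linarith only [a0, a1, k0, k1, c0, c1], by push_cast; linarith only [a0, a1, k0, k1, c0, c1]⟩
    ⟨by push_cast; linarith only [K0], by push_cast; linarith only [K1]⟩ (by push_cast; linarith only [a0, a1, k0, k1, c0, c1])

theorem d1_two_B_h2_q1 : Pool.Agent.Work.NumU.runT (altI (q 3 10) (var 3) (gU (q 3 10) (var 3)) (fe 45 400 11038 7111 5398 101127 (var 1)) 830 1340 9500) 26
    4859379143783762275107315684174559285342348434136145974692120330147297405248944951823960435126718538262012624795246894329931173326292861357122409638913660457108122266319833108395773188389265035804923170479517467304332246745167897265581530586526261061652925837276430683475191984649864531372335036030263919185180857250036819448582208744680010302153180532479837395417789189490423502418275972196077243233933940331033142016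
    (Pool.Agent.Work.NumI.setL 2 (Pool.Agent.Work.NumI.setL 2 ([V.of 10000 3900 5000 4, V.of 10000 300 590 4, V.of 10000 1600 5100 4, V.of 10000 320 910 4]))) =
    5458906105243404819087452721029959587943284673279578581248204187057362581714383361 := by
  decide +kernel

theorem d1_two_B_h2_q2 : Pool.Agent.Work.NumU.runT (altI (q 3 10) (var 3) (gU (q 3 10) (var 3)) (fe 45 400 11038 7111 5398 101127 (var 1)) 830 1340 9500) 26
    5458906105243404819087452721029959587943284673279578581248204187057362581714383360
    (Pool.Agent.Work.NumI.setR 2 (Pool.Agent.Work.NumI.setL 2 ([V.of 10000 3900 5000 4, V.of 10000 300 590 4, V.of 10000 1600 5100 4, V.of 10000 320 910 4]))) =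
    15299113484341902821340545663254077443 := by
  decide +kernel

theorem d1_two_B_h2_q3 : Pool.Agent.Work.NumU.runT (altI (q 3 10) (var 3) (gU (q 3 10) (var 3)) (fe 45 400 11038 7111 5398 101127 (var 1)) 830 1340 9500) 27
    15299113484341902821340545663254077442
    (Pool.Agent.Work.NumI.setR 2 ([V.of 10000 3900 5000 4, V.of 10000 300 590 4, V.of 10000 1600 5100 4, V.of 10000 320 910 4])) =
    1 := by
  decide +kernel

theorem d1_two_B {a T k K : ℝ} (a0 : 3900 / 10000 ≤ a) (a1 : a ≤ 5000 / 10000)
    (T0 : 300 / 10000 ≤ T) (T1 : T ≤ 590 / 10000) (K0 : 320 / 10000 ≤ K)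
    (K1 : K ≤ 910 / 10000) (S0 : 830 / 10000 ≤ T + K) (S1 : T + K ≤ 1340 / 10000)
    (k0 : 7 / 100 ≤ k) (k1 : k ≤ 5600 / 10000) :
    0 < D1 (3 / 10) a T k (K * tr 0 (80 / 100) (16 / 100) (29 / 100) k) +
      fr 45 400 11038 7111 5398 101127 a T := by
  have cv : ((q 3 10) : E).val [a, T, k, K] = 3 / 10 := by
    simp only [E.val]; norm_num
  have fv : (fe 45 400 11038 7111 5398 101127 (var 1)).val [a, T, k, K] = fr 45 400 11038 7111 5398 101127 a T :=
    fe_val (by simp only [E.val, lkR])
  have p1 : ((q 1 1) : E).val [a, T, k, K] = 1 := by simp only [E.val]; norm_num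
  have p2 : ((q (-1) 1) : E).val [a, T, k, K] = -1 := by simp only [E.val]; norm_num
  rcases le_total k (1600 / 10000) with c0 | c0
  · have e : tr 0 (80 / 100) (16 / 100) (29 / 100) k = k / (16 / 100) :=
      tr_a (by norm_num) (by norm_num) (by norm_num) (by linarith only [k0]) (by linarith only [k0, k1, c0])
    have tv : (mul (mul (q 10000 1600) (var 2)) (var 3)).val [a, T, k, K] = K * tr 0 (80 / 100) (16 / 100) (29 / 100) k := by
      rw [e]; simp only [E.val, lkR]; push_cast; ring
    obtain ⟨y1, y2⟩ := hts (a := a) (T := T) (K := K) (r := tr 0 (80 / 100) (16 / 100) (29 / 100) k) (by linarith only [a0]) (by linarith only [a1])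
      (by linarith only [T0]) (by linarith only [T1]) (tr01 _ _ _ _).1
      (tr01 _ _ _ _).2 (by linarith only [K0]) (by linarith only [K1]) (by linarith only [S1])
    have Rr : Row1 (q 3 10) (mul (mul (q 10000 1600) (var 2)) (var 3)) (gU (q 3 10) (mul (mul (q 10000 1600) (var 2)) (var 3)))
      (fe 45 400 11038 7111 5398 101127 (var 1)) a T k K (3 / 10) (K * tr 0 (80 / 100) (16 / 100) (29 / 100) k)
      (fr 45 400 11038 7111 5398 101127 a T) 830 1340 :=
      ⟨cv, tv, fv, gU_le cv tv, by push_cast; linarith only [S0],
        by push_cast; linarith only [S1]⟩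
    have hc : chkT (altI (q 3 10) (mul (mul (q 10000 1600) (var 2)) (var 3)) (gU (q 3 10) (mul (mul (q 10000 1600) (var 2)) (var 3))) (fe 45 400 11038 7111 5398 101127 (var 1)) 830 1340 9500)
        28 1417621859695115627650214688470352953053571758391548546131658551908754485655750369441536216206974695321793409663916623327442215646030003963553907523918831869793135139684083449574915122719472743663482267839360497479668949136363562689874360448396911999759883162091761393548229646976823584
        [V.of 10000 3900 5000 4, V.of 10000 300 590 4, V.of 10000 700 1600 4, V.of 10000 320 910 4] = true := by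
      decide +kernel
    exact rowI1 Rr hc ⟨by push_cast; linarith only [a0], by push_cast; linarith only [a1]⟩
      ⟨by push_cast; linarith only [T0], by push_cast; linarith only [T1]⟩
      ⟨by push_cast; linarith only [a0, a1, k0, k1, c0], by push_cast; linarith only [a0, a1, k0, k1, c0]⟩
      ⟨by push_cast; linarith only [K0], by push_cast; linarith only [K1]⟩ (by push_cast; linarith only [a0, a1, k0, k1, c0])
  rcases le_total k (5100 / 10000) with c1 | c1
  · have e : tr 0 (80 / 100) (16 / 100) (29 / 100) k = 1 :=
      tr_b (by norm_num) (by norm_num) (by linarith only [k0, k1, c0, c1]) (by linarith only [k0, k1, c0, c1])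
    have tv : (var 3).val [a, T, k, K] = K * tr 0 (80 / 100) (16 / 100) (29 / 100) k := by
      rw [e]; simp only [E.val, lkR]; ring
    obtain ⟨y1, y2⟩ := hts (a := a) (T := T) (K := K) (r := tr 0 (80 / 100) (16 / 100) (29 / 100) k) (by linarith only [a0]) (by linarith only [a1])
      (by linarith only [T0]) (by linarith only [T1]) (tr01 _ _ _ _).1
      (tr01 _ _ _ _).2 (by linarith only [K0]) (by linarith only [K1]) (by linarith only [S1])
    have Rr : Row1 (q 3 10) (var 3) (gU (q 3 10) (var 3))
      (fe 45 400 11038 7111 5398 101127 (var 1)) a T k K (3 / 10) (K * tr 0 (80 / 100) (16 / 100) (29 / 100) k)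
      (fr 45 400 11038 7111 5398 101127 a T) 830 1340 :=
      ⟨cv, tv, fv, gU_le cv tv, by push_cast; linarith only [S0],
        by push_cast; linarith only [S1]⟩
    rcases le_total (a + k) (95 / 100) with d0 | d0
    · have hc : chkT (altI (q 3 10) (var 3) (gU (q 3 10) (var 3)) (fe 45 400 11038 7111 5398 101127 (var 1)) 830 1340 9500)
          28 1244001060808643142427472815148687177047641199138853369521182804517708135743729907666933871392439945795075231947583204948462380371530972507423336867561897077019679300177877275749317936227651849166060331642756471629909055166762981699988871830150722831783149014342766254969649148070365320031317769223747563311406299456009425778837045438638082637351214216314838373226954032509548416619078648882195774267887088724744484356130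
          [V.of 10000 3900 5000 4, V.of 10000 300 590 4, V.of 10000 1600 5100 4, V.of 10000 320 910 4] = true :=
      Pool.Agent.Work.NumU.chkT_of (Pool.Agent.Work.NumU.runT_split rfl rfl rfl
        (Pool.Agent.Work.NumU.runT_split rfl rfl rfl
          d1_two_B_h2_q1
          d1_two_B_h2_q2)
        d1_two_B_h2_q3)
      exact rowI1 Rr hc ⟨by push_cast; linarith only [a0], by push_cast; linarith only [a1]⟩
        ⟨by push_cast; linarith only [T0], by push_cast; linarith only [T1]⟩
        ⟨by push_cast; linarith only [a0, a1, k0, k1, c0, c1, d0], by push_cast; linarith only [a0, a1, k0, k1, c0, c1, d0]⟩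
        ⟨by push_cast; linarith only [K0], by push_cast; linarith only [K1]⟩ (by push_cast; linarith only [a0, a1, k0, k1, c0, c1, d0])
    · rcases le_total (a + k) (1) with d1 | d1
      · rcases le_total 0 (4 * T * (6 / 10 - a) + K * tr 0 (80 / 100) (16 / 100) (29 / 100) k) with y | y
        · have hc : chkT (altN (q 3 10) (var 3) (gU (q 3 10) (var 3)) (fe 45 400 11038 7111 5398 101127 (var 1)) (q 1 1) 830 1340)
              28 40844167168
              [V.of 10000 3900 5000 4, V.of 10000 300 590 4, V.of 10000 4500 5100 4, V.of 10000 320 910 4] = true := by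
            decide +kernel
          exact rowN1 Rr p1 (Or.inl rfl) hc ⟨by push_cast; linarith only [a0], by push_cast; linarith only [a1]⟩
            ⟨by push_cast; linarith only [T0], by push_cast; linarith only [T1]⟩
            ⟨by push_cast; linarith only [a0, a1, k0, k1, c0, c1, d0, d1], by push_cast; linarith only [a0, a1, k0, k1, c0, c1, d0, d1]⟩
            ⟨by push_cast; linarith only [K0], by push_cast; linarith only [K1]⟩
            (by push_cast; linarith only [a0, a1, k0, k1, c0, c1, d0, d1]) (by push_cast; linarith only [a0, a1, k0, k1, c0, c1, d0, d1]) (by linarith only [y])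
        · have hc : chkT (altN (q 3 10) (var 3) (gU (q 3 10) (var 3)) (fe 45 400 11038 7111 5398 101127 (var 1)) (q (-1) 1) 830 1340)
              28 10
              [V.of 10000 3900 5000 4, V.of 10000 300 590 4, V.of 10000 4500 5100 4, V.of 10000 320 910 4] = true := by
            decide +kernel
          exact rowN1 Rr p2 (Or.inr rfl) hc ⟨by push_cast; linarith only [a0], by push_cast; linarith only [a1]⟩
            ⟨by push_cast; linarith only [T0], by push_cast; linarith only [T1]⟩
            ⟨by push_cast; linarith only [a0, a1, k0, k1, c0, c1, d0, d1], by push_cast; linarith only [a0, a1, k0, k1, c0, c1, d0, d1]⟩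
            ⟨by push_cast; linarith only [K0], by push_cast; linarith only [K1]⟩
            (by push_cast; linarith only [a0, a1, k0, k1, c0, c1, d0, d1]) (by push_cast; linarith only [a0, a1, k0, k1, c0, c1, d0, d1]) (by linarith only [y])
      · rcases le_total 0 (4 * T * (6 / 10 - a) + K * tr 0 (80 / 100) (16 / 100) (29 / 100) k) with y | y
        · have hc : chkT (altH (q 3 10) (var 3) (gU (q 3 10) (var 3)) (fe 45 400 11038 7111 5398 101127 (var 1)) (q 1 1) 830 1340)
              28 9
              [V.of 10000 3900 5000 4, V.of 10000 300 590 4, V.of 10000 5000 5100 4, V.of 10000 320 910 4] = true := by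
            decide +kernel
          exact rowH1 Rr p1 (Or.inl rfl) hc ⟨by push_cast; linarith only [a0], by push_cast; linarith only [a1]⟩
            ⟨by push_cast; linarith only [T0], by push_cast; linarith only [T1]⟩
            ⟨by push_cast; linarith only [a0, a1, k0, k1, c0, c1, d0, d1], by push_cast; linarith only [a0, a1, k0, k1, c0, c1, d0, d1]⟩
            ⟨by push_cast; linarith only [K0], by push_cast; linarith only [K1]⟩
            (by push_cast; linarith only [a0, a1, k0, k1, c0, c1, d0, d1]) (by push_cast; linarith only [a0, a1, k0, k1, c0, c1, d0, d1]) (by linarith only [y]) (by linarith only [(abs_le.1 y1).1, (abs_le.1 y1).2])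
        · have hc : chkT (altH (q 3 10) (var 3) (gU (q 3 10) (var 3)) (fe 45 400 11038 7111 5398 101127 (var 1)) (q (-1) 1) 830 1340)
              28 9
              [V.of 10000 3900 5000 4, V.of 10000 300 590 4, V.of 10000 5000 5100 4, V.of 10000 320 910 4] = true := by
            decide +kernel
          exact rowH1 Rr p2 (Or.inr rfl) hc ⟨by push_cast; linarith only [a0], by push_cast; linarith only [a1]⟩
            ⟨by push_cast; linarith only [T0], by push_cast; linarith only [T1]⟩
            ⟨by push_cast; linarith only [a0, a1, k0, k1, c0, c1, d0, d1], by push_cast; linarith only [a0, a1, k0, k1, c0, c1, d0, d1]⟩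
            ⟨by push_cast; linarith only [K0], by push_cast; linarith only [K1]⟩
            (by push_cast; linarith only [a0, a1, k0, k1, c0, c1, d0, d1]) (by push_cast; linarith only [a0, a1, k0, k1, c0, c1, d0, d1]) (by linarith only [y]) (by linarith only [(abs_le.1 y1).1, (abs_le.1 y1).2])
  have e : tr 0 (80 / 100) (16 / 100) (29 / 100) k = (80 / 100 - k) / (29 / 100) :=
    tr_c (by norm_num) (by norm_num) (by norm_num) (by linarith only [k0, k1, c0, c1]) (by linarith only [k0, k1, c0, c1])
  have tv : (mul (mul (q 10000 2900) (sub (q 8000 10000) (var 2))) (var 3)).val [a, T, k, K] = K * tr 0 (80 / 100) (16 / 100) (29 / 100) k := by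
    rw [e]; simp only [E.val, lkR]; push_cast; ring
  obtain ⟨y1, y2⟩ := hts (a := a) (T := T) (K := K) (r := tr 0 (80 / 100) (16 / 100) (29 / 100) k) (by linarith only [a0]) (by linarith only [a1])
    (by linarith only [T0]) (by linarith only [T1]) (tr01 _ _ _ _).1
    (tr01 _ _ _ _).2 (by linarith only [K0]) (by linarith only [K1]) (by linarith only [S1])
  have Rr : Row1 (q 3 10) (mul (mul (q 10000 2900) (sub (q 8000 10000) (var 2))) (var 3)) (gU (q 3 10) (mul (mul (q 10000 2900) (sub (q 8000 10000) (var 2))) (var 3)))
    (fe 45 400 11038 7111 5398 101127 (var 1)) a T k K (3 / 10) (K * tr 0 (80 / 100) (16 / 100) (29 / 100) k)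
    (fr 45 400 11038 7111 5398 101127 a T) 830 1340 :=
    ⟨cv, tv, fv, gU_le cv tv, by push_cast; linarith only [S0],
      by push_cast; linarith only [S1]⟩
  rcases le_total (a + k) (95 / 100) with d0 | d0
  · have hc : chkT (altI (q 3 10) (mul (mul (q 10000 2900) (sub (q 8000 10000) (var 2))) (var 3)) (gU (q 3 10) (mul (mul (q 10000 2900) (sub (q 8000 10000) (var 2))) (var 3))) (fe 45 400 11038 7111 5398 101127 (var 1)) 830 1340 9500)
        28 50334302976
        [V.of 10000 3900 5000 4, V.of 10000 300 590 4, V.of 10000 5100 5600 4, V.of 10000 320 910 4] = true := by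
      decide +kernel
    exact rowI1 Rr hc ⟨by push_cast; linarith only [a0], by push_cast; linarith only [a1]⟩
      ⟨by push_cast; linarith only [T0], by push_cast; linarith only [T1]⟩
      ⟨by push_cast; linarith only [a0, a1, k0, k1, c0, c1, d0], by push_cast; linarith only [a0, a1, k0, k1, c0, c1, d0]⟩
      ⟨by push_cast; linarith only [K0], by push_cast; linarith only [K1]⟩ (by push_cast; linarith only [a0, a1, k0, k1, c0, c1, d0])
  · rcases le_total (a + k) (1) with d1 | d1
    · rcases le_total 0 (4 * T * (6 / 10 - a) + K * tr 0 (80 / 100) (16 / 100) (29 / 100) k) with y | y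
      · have hc : chkT (altN (q 3 10) (mul (mul (q 10000 2900) (sub (q 8000 10000) (var 2))) (var 3)) (gU (q 3 10) (mul (mul (q 10000 2900) (sub (q 8000 10000) (var 2))) (var 3))) (fe 45 400 11038 7111 5398 101127 (var 1)) (q 1 1) 830 1340)
            28 11721907929856
            [V.of 10000 3900 5000 4, V.of 10000 300 590 4, V.of 10000 5100 5600 4, V.of 10000 320 910 4] = true := by
          decide +kernel
        exact rowN1 Rr p1 (Or.inl rfl) hc ⟨by push_cast; linarith only [a0], by push_cast; linarith only [a1]⟩
          ⟨by push_cast; linarith only [T0], by push_cast; linarith only [T1]⟩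
          ⟨by push_cast; linarith only [a0, a1, k0, k1, c0, c1, d0, d1], by push_cast; linarith only [a0, a1, k0, k1, c0, c1, d0, d1]⟩
          ⟨by push_cast; linarith only [K0], by push_cast; linarith only [K1]⟩
          (by push_cast; linarith only [a0, a1, k0, k1, c0, c1, d0, d1]) (by push_cast; linarith only [a0, a1, k0, k1, c0, c1, d0, d1]) (by linarith only [y])
      · have hc : chkT (altN (q 3 10) (mul (mul (q 10000 2900) (sub (q 8000 10000) (var 2))) (var 3)) (gU (q 3 10) (mul (mul (q 10000 2900) (sub (q 8000 10000) (var 2))) (var 3))) (fe 45 400 11038 7111 5398 101127 (var 1)) (q (-1) 1) 830 1340)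
            28 9
            [V.of 10000 3900 5000 4, V.of 10000 300 590 4, V.of 10000 5100 5600 4, V.of 10000 320 910 4] = true := by
          decide +kernel
        exact rowN1 Rr p2 (Or.inr rfl) hc ⟨by push_cast; linarith only [a0], by push_cast; linarith only [a1]⟩
          ⟨by push_cast; linarith only [T0], by push_cast; linarith only [T1]⟩
          ⟨by push_cast; linarith only [a0, a1, k0, k1, c0, c1, d0, d1], by push_cast; linarith only [a0, a1, k0, k1, c0, c1, d0, d1]⟩
          ⟨by push_cast; linarith only [K0], by push_cast; linarith only [K1]⟩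
          (by push_cast; linarith only [a0, a1, k0, k1, c0, c1, d0, d1]) (by push_cast; linarith only [a0, a1, k0, k1, c0, c1, d0, d1]) (by linarith only [y])
    · rcases le_total 0 (4 * T * (6 / 10 - a) + K * tr 0 (80 / 100) (16 / 100) (29 / 100) k) with y | y
      · have hc : chkT (altH (q 3 10) (mul (mul (q 10000 2900) (sub (q 8000 10000) (var 2))) (var 3)) (gU (q 3 10) (mul (mul (q 10000 2900) (sub (q 8000 10000) (var 2))) (var 3))) (fe 45 400 11038 7111 5398 101127 (var 1)) (q 1 1) 830 1340)
            28 9
            [V.of 10000 3900 5000 4, V.of 10000 300 590 4, V.of 10000 5100 5600 4, V.of 10000 320 910 4] = true := by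
          decide +kernel
        exact rowH1 Rr p1 (Or.inl rfl) hc ⟨by push_cast; linarith only [a0], by push_cast; linarith only [a1]⟩
          ⟨by push_cast; linarith only [T0], by push_cast; linarith only [T1]⟩
          ⟨by push_cast; linarith only [a0, a1, k0, k1, c0, c1, d0, d1], by push_cast; linarith only [a0, a1, k0, k1, c0, c1, d0, d1]⟩
          ⟨by push_cast; linarith only [K0], by push_cast; linarith only [K1]⟩
          (by push_cast; linarith only [a0, a1, k0, k1, c0, c1, d0, d1]) (by push_cast; linarith only [a0, a1, k0, k1, c0, c1, d0, d1]) (by linarith only [y]) (by linarith only [(abs_le.1 y1).1, (abs_le.1 y1).2])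
      · have hc : chkT (altH (q 3 10) (mul (mul (q 10000 2900) (sub (q 8000 10000) (var 2))) (var 3)) (gU (q 3 10) (mul (mul (q 10000 2900) (sub (q 8000 10000) (var 2))) (var 3))) (fe 45 400 11038 7111 5398 101127 (var 1)) (q (-1) 1) 830 1340)
            28 9
            [V.of 10000 3900 5000 4, V.of 10000 300 590 4, V.of 10000 5100 5600 4, V.of 10000 320 910 4] = true := by
          decide +kernel
        exact rowH1 Rr p2 (Or.inr rfl) hc ⟨by push_cast; linarith only [a0], by push_cast; linarith only [a1]⟩
          ⟨by push_cast; linarith only [T0], by push_cast; linarith only [T1]⟩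
          ⟨by push_cast; linarith only [a0, a1, k0, k1, c0, c1, d0, d1], by push_cast; linarith only [a0, a1, k0, k1, c0, c1, d0, d1]⟩
          ⟨by push_cast; linarith only [K0], by push_cast; linarith only [K1]⟩
          (by push_cast; linarith only [a0, a1, k0, k1, c0, c1, d0, d1]) (by push_cast; linarith only [a0, a1, k0, k1, c0, c1, d0, d1]) (by linarith only [y]) (by linarith only [(abs_le.1 y1).1, (abs_le.1 y1).2])

theorem d1_two_C {a T k K : ℝ} (a0 : 5000 / 10000 ≤ a) (a1 : a ≤ 6000 / 10000)
    (T0 : 300 / 10000 ≤ T) (T1 : T ≤ 590 / 10000) (K0 : 320 / 10000 ≤ K)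
    (K1 : K ≤ 910 / 10000) (S0 : 830 / 10000 ≤ T + K) (S1 : T + K ≤ 1340 / 10000)
    (k0 : 7 / 100 ≤ k) (k1 : k ≤ 5600 / 10000) :
    0 < D1 (3 / 10) a T k (K * tr 0 (80 / 100) (16 / 100) (29 / 100) k) +
      fr 55 400 17398 5893 19307 174738 a T := by
  have cv : ((q 3 10) : E).val [a, T, k, K] = 3 / 10 := by
    simp only [E.val]; norm_num
  have fv : (fe 55 400 17398 5893 19307 174738 (var 1)).val [a, T, k, K] = fr 55 400 17398 5893 19307 174738 a T :=
    fe_val (by simp only [E.val, lkR])
  have p1 : ((q 1 1) : E).val [a, T, k, K] = 1 := by simp only [E.val]; norm_num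
  have p2 : ((q (-1) 1) : E).val [a, T, k, K] = -1 := by simp only [E.val]; norm_num
  rcases le_total k (1600 / 10000) with c0 | c0
  · have e : tr 0 (80 / 100) (16 / 100) (29 / 100) k = k / (16 / 100) :=
      tr_a (by norm_num) (by norm_num) (by norm_num) (by linarith only [k0]) (by linarith only [k0, k1, c0])
    have tv : (mul (mul (q 10000 1600) (var 2)) (var 3)).val [a, T, k, K] = K * tr 0 (80 / 100) (16 / 100) (29 / 100) k := by
      rw [e]; simp only [E.val, lkR]; push_cast; ring
    obtain ⟨y1, y2⟩ := hts (a := a) (T := T) (K := K) (r := tr 0 (80 / 100) (16 / 100) (29 / 100) k) (by linarith only [a0]) (by linarith only [a1])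
      (by linarith only [T0]) (by linarith only [T1]) (tr01 _ _ _ _).1
      (tr01 _ _ _ _).2 (by linarith only [K0]) (by linarith only [K1]) (by linarith only [S1])
    have Rr : Row1 (q 3 10) (mul (mul (q 10000 1600) (var 2)) (var 3)) (gU (q 3 10) (mul (mul (q 10000 1600) (var 2)) (var 3)))
      (fe 55 400 17398 5893 19307 174738 (var 1)) a T k K (3 / 10) (K * tr 0 (80 / 100) (16 / 100) (29 / 100) k)
      (fr 55 400 17398 5893 19307 174738 a T) 830 1340 :=
      ⟨cv, tv, fv, gU_le cv tv, by push_cast; linarith only [S0],
        by push_cast; linarith only [S1]⟩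
    have hc : chkT (altI (q 3 10) (mul (mul (q 10000 1600) (var 2)) (var 3)) (gU (q 3 10) (mul (mul (q 10000 1600) (var 2)) (var 3))) (fe 55 400 17398 5893 19307 174738 (var 1)) 830 1340 9500)
        28 336177544174495040441730547097840378430166555101956130121995443395891272303829477938215941454526350641438969783582752
        [V.of 10000 5000 6000 4, V.of 10000 300 590 4, V.of 10000 700 1600 4, V.of 10000 320 910 4] = true := by
      decide +kernel
    exact rowI1 Rr hc ⟨by push_cast; linarith only [a0], by push_cast; linarith only [a1]⟩
      ⟨by push_cast; linarith only [T0], by push_cast; linarith only [T1]⟩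
      ⟨by push_cast; linarith only [a0, a1, k0, k1, c0], by push_cast; linarith only [a0, a1, k0, k1, c0]⟩
      ⟨by push_cast; linarith only [K0], by push_cast; linarith only [K1]⟩ (by push_cast; linarith only [a0, a1, k0, k1, c0])
  rcases le_total k (5100 / 10000) with c1 | c1
  · have e : tr 0 (80 / 100) (16 / 100) (29 / 100) k = 1 :=
      tr_b (by norm_num) (by norm_num) (by linarith only [k0, k1, c0, c1]) (by linarith only [k0, k1, c0, c1])
    have tv : (var 3).val [a, T, k, K] = K * tr 0 (80 / 100) (16 / 100) (29 / 100) k := by
      rw [e]; simp only [E.val, lkR]; ring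
    obtain ⟨y1, y2⟩ := hts (a := a) (T := T) (K := K) (r := tr 0 (80 / 100) (16 / 100) (29 / 100) k) (by linarith only [a0]) (by linarith only [a1])
      (by linarith only [T0]) (by linarith only [T1]) (tr01 _ _ _ _).1
      (tr01 _ _ _ _).2 (by linarith only [K0]) (by linarith only [K1]) (by linarith only [S1])
    have Rr : Row1 (q 3 10) (var 3) (gU (q 3 10) (var 3))
      (fe 55 400 17398 5893 19307 174738 (var 1)) a T k K (3 / 10) (K * tr 0 (80 / 100) (16 / 100) (29 / 100) k)
      (fr 55 400 17398 5893 19307 174738 a T) 830 1340 :=
      ⟨cv, tv, fv, gU_le cv tv, by push_cast; linarith only [S0],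
        by push_cast; linarith only [S1]⟩
    rcases le_total (a + k) (95 / 100) with d0 | d0
    · have hc : chkT (altI (q 3 10) (var 3) (gU (q 3 10) (var 3)) (fe 55 400 17398 5893 19307 174738 (var 1)) 830 1340 9500)
          28 2180523893733543010989580165543865370852995638995925386531440563964230638267382866300989526632663417736198702098801289189198505555207008290
          [V.of 10000 5000 6000 4, V.of 10000 300 590 4, V.of 10000 1600 4500 4, V.of 10000 320 910 4] = true := by
        decide +kernel
      exact rowI1 Rr hc ⟨by push_cast; linarith only [a0], by push_cast; linarith only [a1]⟩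
        ⟨by push_cast; linarith only [T0], by push_cast; linarith only [T1]⟩
        ⟨by push_cast; linarith only [a0, a1, k0, k1, c0, c1, d0], by push_cast; linarith only [a0, a1, k0, k1, c0, c1, d0]⟩
        ⟨by push_cast; linarith only [K0], by push_cast; linarith only [K1]⟩ (by push_cast; linarith only [a0, a1, k0, k1, c0, c1, d0])
    · rcases le_total (a + k) (1) with d1 | d1
      · rcases le_total 0 (4 * T * (6 / 10 - a) + K * tr 0 (80 / 100) (16 / 100) (29 / 100) k) with y | y
        · have hc : chkT (altN (q 3 10) (var 3) (gU (q 3 10) (var 3)) (fe 55 400 17398 5893 19307 174738 (var 1)) (q 1 1) 830 1340)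
              28 45333017861610572841474
              [V.of 10000 5000 6000 4, V.of 10000 300 590 4, V.of 10000 3500 5000 4, V.of 10000 320 910 4] = true := by
            decide +kernel
          exact rowN1 Rr p1 (Or.inl rfl) hc ⟨by push_cast; linarith only [a0], by push_cast; linarith only [a1]⟩
            ⟨by push_cast; linarith only [T0], by push_cast; linarith only [T1]⟩
            ⟨by push_cast; linarith only [a0, a1, k0, k1, c0, c1, d0, d1], by push_cast; linarith only [a0, a1, k0, k1, c0, c1, d0, d1]⟩
            ⟨by push_cast; linarith only [K0], by push_cast; linarith only [K1]⟩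
            (by push_cast; linarith only [a0, a1, k0, k1, c0, c1, d0, d1]) (by push_cast; linarith only [a0, a1, k0, k1, c0, c1, d0, d1]) (by linarith only [y])
        · have hc : chkT (altN (q 3 10) (var 3) (gU (q 3 10) (var 3)) (fe 55 400 17398 5893 19307 174738 (var 1)) (q (-1) 1) 830 1340)
              28 10
              [V.of 10000 5000 6000 4, V.of 10000 300 590 4, V.of 10000 3500 5000 4, V.of 10000 320 910 4] = true := by
            decide +kernel
          exact rowN1 Rr p2 (Or.inr rfl) hc ⟨by push_cast; linarith only [a0], by push_cast; linarith only [a1]⟩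
            ⟨by push_cast; linarith only [T0], by push_cast; linarith only [T1]⟩
            ⟨by push_cast; linarith only [a0, a1, k0, k1, c0, c1, d0, d1], by push_cast; linarith only [a0, a1, k0, k1, c0, c1, d0, d1]⟩
            ⟨by push_cast; linarith only [K0], by push_cast; linarith only [K1]⟩
            (by push_cast; linarith only [a0, a1, k0, k1, c0, c1, d0, d1]) (by push_cast; linarith only [a0, a1, k0, k1, c0, c1, d0, d1]) (by linarith only [y])
      · rcases le_total (a + k) (107 / 100) with d2 | d2
        · rcases le_total 0 (4 * T * (6 / 10 - a) + K * tr 0 (80 / 100) (16 / 100) (29 / 100) k) with y | y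
          · have hc : chkT (altH (q 3 10) (var 3) (gU (q 3 10) (var 3)) (fe 55 400 17398 5893 19307 174738 (var 1)) (q 1 1) 830 1340)
                28 9
                [V.of 10000 5000 6000 4, V.of 10000 300 590 4, V.of 10000 4000 5100 4, V.of 10000 320 910 4] = true := by
              decide +kernel
            exact rowH1 Rr p1 (Or.inl rfl) hc ⟨by push_cast; linarith only [a0], by push_cast; linarith only [a1]⟩
              ⟨by push_cast; linarith only [T0], by push_cast; linarith only [T1]⟩
              ⟨by push_cast; linarith only [a0, a1, k0, k1, c0, c1, d0, d1, d2], by push_cast; linarith only [a0, a1, k0, k1, c0, c1, d0, d1, d2]⟩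
              ⟨by push_cast; linarith only [K0], by push_cast; linarith only [K1]⟩
              (by push_cast; linarith only [a0, a1, k0, k1, c0, c1, d0, d1, d2]) (by push_cast; linarith only [a0, a1, k0, k1, c0, c1, d0, d1, d2]) (by linarith only [y]) (by linarith only [(abs_le.1 y1).1, (abs_le.1 y1).2])
          · have hc : chkT (altH (q 3 10) (var 3) (gU (q 3 10) (var 3)) (fe 55 400 17398 5893 19307 174738 (var 1)) (q (-1) 1) 830 1340)
                28 9
                [V.of 10000 5000 6000 4, V.of 10000 300 590 4, V.of 10000 4000 5100 4, V.of 10000 320 910 4] = true := by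
              decide +kernel
            exact rowH1 Rr p2 (Or.inr rfl) hc ⟨by push_cast; linarith only [a0], by push_cast; linarith only [a1]⟩
              ⟨by push_cast; linarith only [T0], by push_cast; linarith only [T1]⟩
              ⟨by push_cast; linarith only [a0, a1, k0, k1, c0, c1, d0, d1, d2], by push_cast; linarith only [a0, a1, k0, k1, c0, c1, d0, d1, d2]⟩
              ⟨by push_cast; linarith only [K0], by push_cast; linarith only [K1]⟩
              (by push_cast; linarith only [a0, a1, k0, k1, c0, c1, d0, d1, d2]) (by push_cast; linarith only [a0, a1, k0, k1, c0, c1, d0, d1, d2]) (by linarith only [y]) (by linarith only [(abs_le.1 y1).1, (abs_le.1 y1).2])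
        · rcases le_total 0 (4 * T * (6 / 10 - a) + K * tr 0 (80 / 100) (16 / 100) (29 / 100) k) with y | y
          · have hc : chkT (altB (q 3 10) (var 3) (gU (q 3 10) (var 3)) (fe 55 400 17398 5893 19307 174738 (var 1)) (q 1 1) 830 1340)
                28 2240
                [V.of 10000 5000 6000 4, V.of 10000 300 590 4, V.of 10000 4700 5100 4, V.of 10000 320 910 4] = true := by
              decide +kernel
            exact rowB1 Rr p1 (Or.inl rfl) hc ⟨by push_cast; linarith only [a0], by push_cast; linarith only [a1]⟩
              ⟨by push_cast; linarith only [T0], by push_cast; linarith only [T1]⟩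
              ⟨by push_cast; linarith only [a0, a1, k0, k1, c0, c1, d0, d1, d2], by push_cast; linarith only [a0, a1, k0, k1, c0, c1, d0, d1, d2]⟩
              ⟨by push_cast; linarith only [K0], by push_cast; linarith only [K1]⟩
              (by push_cast; linarith only [a0, a1, k0, k1, c0, c1, d0, d1, d2]) (by linarith only [y])
          · have hc : chkT (altB (q 3 10) (var 3) (gU (q 3 10) (var 3)) (fe 55 400 17398 5893 19307 174738 (var 1)) (q (-1) 1) 830 1340)
                28 9
                [V.of 10000 5000 6000 4, V.of 10000 300 590 4, V.of 10000 4700 5100 4, V.of 10000 320 910 4] = true := by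
              decide +kernel
            exact rowB1 Rr p2 (Or.inr rfl) hc ⟨by push_cast; linarith only [a0], by push_cast; linarith only [a1]⟩
              ⟨by push_cast; linarith only [T0], by push_cast; linarith only [T1]⟩
              ⟨by push_cast; linarith only [a0, a1, k0, k1, c0, c1, d0, d1, d2], by push_cast; linarith only [a0, a1, k0, k1, c0, c1, d0, d1, d2]⟩
              ⟨by push_cast; linarith only [K0], by push_cast; linarith only [K1]⟩
              (by push_cast; linarith only [a0, a1, k0, k1, c0, c1, d0, d1, d2]) (by linarith only [y])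
  have e : tr 0 (80 / 100) (16 / 100) (29 / 100) k = (80 / 100 - k) / (29 / 100) :=
    tr_c (by norm_num) (by norm_num) (by norm_num) (by linarith only [k0, k1, c0, c1]) (by linarith only [k0, k1, c0, c1])
  have tv : (mul (mul (q 10000 2900) (sub (q 8000 10000) (var 2))) (var 3)).val [a, T, k, K] = K * tr 0 (80 / 100) (16 / 100) (29 / 100) k := by
    rw [e]; simp only [E.val, lkR]; push_cast; ring
  obtain ⟨y1, y2⟩ := hts (a := a) (T := T) (K := K) (r := tr 0 (80 / 100) (16 / 100) (29 / 100) k) (by linarith only [a0]) (by linarith only [a1])
    (by linarith only [T0]) (by linarith only [T1]) (tr01 _ _ _ _).1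
    (tr01 _ _ _ _).2 (by linarith only [K0]) (by linarith only [K1]) (by linarith only [S1])
  have Rr : Row1 (q 3 10) (mul (mul (q 10000 2900) (sub (q 8000 10000) (var 2))) (var 3)) (gU (q 3 10) (mul (mul (q 10000 2900) (sub (q 8000 10000) (var 2))) (var 3)))
    (fe 55 400 17398 5893 19307 174738 (var 1)) a T k K (3 / 10) (K * tr 0 (80 / 100) (16 / 100) (29 / 100) k)
    (fr 55 400 17398 5893 19307 174738 a T) 830 1340 :=
    ⟨cv, tv, fv, gU_le cv tv, by push_cast; linarith only [S0],
      by push_cast; linarith only [S1]⟩
  rcases le_total (a + k) (107 / 100) with d0 | d0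
  · rcases le_total 0 (4 * T * (6 / 10 - a) + K * tr 0 (80 / 100) (16 / 100) (29 / 100) k) with y | y
    · have hc : chkT (altH (q 3 10) (mul (mul (q 10000 2900) (sub (q 8000 10000) (var 2))) (var 3)) (gU (q 3 10) (mul (mul (q 10000 2900) (sub (q 8000 10000) (var 2))) (var 3))) (fe 55 400 17398 5893 19307 174738 (var 1)) (q 1 1) 830 1340)
          28 9
          [V.of 10000 5000 6000 4, V.of 10000 300 590 4, V.of 10000 5100 5600 4, V.of 10000 320 910 4] = true := by
        decide +kernel
      exact rowH1 Rr p1 (Or.inl rfl) hc ⟨by push_cast; linarith only [a0], by push_cast; linarith only [a1]⟩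
        ⟨by push_cast; linarith only [T0], by push_cast; linarith only [T1]⟩
        ⟨by push_cast; linarith only [a0, a1, k0, k1, c0, c1, d0], by push_cast; linarith only [a0, a1, k0, k1, c0, c1, d0]⟩
        ⟨by push_cast; linarith only [K0], by push_cast; linarith only [K1]⟩
        (by push_cast; linarith only [a0, a1, k0, k1, c0, c1, d0]) (by push_cast; linarith only [a0, a1, k0, k1, c0, c1, d0]) (by linarith only [y]) (by linarith only [(abs_le.1 y1).1, (abs_le.1 y1).2])
    · have hc : chkT (altH (q 3 10) (mul (mul (q 10000 2900) (sub (q 8000 10000) (var 2))) (var 3)) (gU (q 3 10) (mul (mul (q 10000 2900) (sub (q 8000 10000) (var 2))) (var 3))) (fe 55 400 17398 5893 19307 174738 (var 1)) (q (-1) 1) 830 1340)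
          28 9
          [V.of 10000 5000 6000 4, V.of 10000 300 590 4, V.of 10000 5100 5600 4, V.of 10000 320 910 4] = true := by
        decide +kernel
      exact rowH1 Rr p2 (Or.inr rfl) hc ⟨by push_cast; linarith only [a0], by push_cast; linarith only [a1]⟩
        ⟨by push_cast; linarith only [T0], by push_cast; linarith only [T1]⟩
        ⟨by push_cast; linarith only [a0, a1, k0, k1, c0, c1, d0], by push_cast; linarith only [a0, a1, k0, k1, c0, c1, d0]⟩
        ⟨by push_cast; linarith only [K0], by push_cast; linarith only [K1]⟩
        (by push_cast; linarith only [a0, a1, k0, k1, c0, c1, d0]) (by push_cast; linarith only [a0, a1, k0, k1, c0, c1, d0]) (by linarith only [y]) (by linarith only [(abs_le.1 y1).1, (abs_le.1 y1).2])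
  · rcases le_total 0 (4 * T * (6 / 10 - a) + K * tr 0 (80 / 100) (16 / 100) (29 / 100) k) with y | y
    · have hc : chkT (altB (q 3 10) (mul (mul (q 10000 2900) (sub (q 8000 10000) (var 2))) (var 3)) (gU (q 3 10) (mul (mul (q 10000 2900) (sub (q 8000 10000) (var 2))) (var 3))) (fe 55 400 17398 5893 19307 174738 (var 1)) (q 1 1) 830 1340)
          28 143163424
          [V.of 10000 5000 6000 4, V.of 10000 300 590 4, V.of 10000 5100 5600 4, V.of 10000 320 910 4] = true := by
        decide +kernel
      exact rowB1 Rr p1 (Or.inl rfl) hc ⟨by push_cast; linarith only [a0], by push_cast; linarith only [a1]⟩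
        ⟨by push_cast; linarith only [T0], by push_cast; linarith only [T1]⟩
        ⟨by push_cast; linarith only [a0, a1, k0, k1, c0, c1, d0], by push_cast; linarith only [a0, a1, k0, k1, c0, c1, d0]⟩
        ⟨by push_cast; linarith only [K0], by push_cast; linarith only [K1]⟩
        (by push_cast; linarith only [a0, a1, k0, k1, c0, c1, d0]) (by linarith only [y])
    · have hc : chkT (altB (q 3 10) (mul (mul (q 10000 2900) (sub (q 8000 10000) (var 2))) (var 3)) (gU (q 3 10) (mul (mul (q 10000 2900) (sub (q 8000 10000) (var 2))) (var 3))) (fe 55 400 17398 5893 19307 174738 (var 1)) (q (-1) 1) 830 1340)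
          28 9
          [V.of 10000 5000 6000 4, V.of 10000 300 590 4, V.of 10000 5100 5600 4, V.of 10000 320 910 4] = true := by
        decide +kernel
      exact rowB1 Rr p2 (Or.inr rfl) hc ⟨by push_cast; linarith only [a0], by push_cast; linarith only [a1]⟩
        ⟨by push_cast; linarith only [T0], by push_cast; linarith only [T1]⟩
        ⟨by push_cast; linarith only [a0, a1, k0, k1, c0, c1, d0], by push_cast; linarith only [a0, a1, k0, k1, c0, c1, d0]⟩
        ⟨by push_cast; linarith only [K0], by push_cast; linarith only [K1]⟩
        (by push_cast; linarith only [a0, a1, k0, k1, c0, c1, d0]) (by linarith only [y])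

end L3

end Pool.Agent.Work.MP_b30479_gt.G2
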