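import Pool.Agent.Work.MP_b30479_gt.G2.ML3s

/-!
# Value moves of a hinge `1 | 3e`: the digit `1`, other neighbour of class `twoE`
-/

namespace Pool.Agent.Work.MP_b30479_gt.G2

open Finset VOL Filter Topology

namespace L3

open NumI (V lkR)
open NumU NumU.E

set_option linter.unusedTactic false

theorem d1_twoE_A {a T k K : ℝ} (a0 : 3500 / 10000 ≤ a) (a1 : a ≤ 3900 / 10000)
    (T0 : 690 / 10000 ≤ T) (T1 : T ≤ 780 / 10000) (K0 : -(240 / 10000) ≤ K)
    (K1 : K ≤ -(110 / 10000)) (S0 : 510 / 10000 ≤ T + K) (S1 : T + K ≤ 640 / 10000)
    (k0 : 7 / 100 ≤ k) (k1 : k ≤ 7000 / 10000) :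
    0 < D1 (3 / 10) a T k (K * tr 0 (70 / 100) (14 / 100) (35 / 100) k) +
      fr 37 735 3079 9602 817 93176 a T := by
  have cv : ((q 3 10) : E).val [a, T, k, K] = 3 / 10 := by
    simp only [E.val]; norm_num
  have fv : (fe 37 735 3079 9602 817 93176 (var 1)).val [a, T, k, K] = fr 37 735 3079 9602 817 93176 a T :=
    fe_val (by simp only [E.val, lkR])
  have p1 : ((q 1 1) : E).val [a, T, k, K] = 1 := by simp only [E.val]; norm_num
  have p2 : ((q (-1) 1) : E).val [a, T, k, K] = -1 := by simp only [E.val]; norm_num
  rcases le_total k (1400 / 10000) with c0 | c0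
  · have e : tr 0 (70 / 100) (14 / 100) (35 / 100) k = k / (14 / 100) :=
      tr_a (by norm_num) (by norm_num) (by norm_num) (by linarith only [k0]) (by linarith only [k0, k1, c0])
    have tv : (mul (mul (q 10000 1400) (var 2)) (var 3)).val [a, T, k, K] = K * tr 0 (70 / 100) (14 / 100) (35 / 100) k := by
      rw [e]; simp only [E.val, lkR]; push_cast; ring
    obtain ⟨y1, y2⟩ := hts (a := a) (T := T) (K := K) (r := tr 0 (70 / 100) (14 / 100) (35 / 100) k) (by linarith only [a0]) (by linarith only [a1])
      (by linarith only [T0]) (by linarith only [T1]) (tr01 _ _ _ _).1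
      (tr01 _ _ _ _).2 (by linarith only [K0]) (by linarith only [K1]) (by linarith only [S1])
    have Rr : Row1 (q 3 10) (mul (mul (q 10000 1400) (var 2)) (var 3)) (gU (q 3 10) (mul (mul (q 10000 1400) (var 2)) (var 3)))
      (fe 37 735 3079 9602 817 93176 (var 1)) a T k K (3 / 10) (K * tr 0 (70 / 100) (14 / 100) (35 / 100) k)
      (fr 37 735 3079 9602 817 93176 a T) 510 640 :=
      ⟨cv, tv, fv, gU_le cv tv, by push_cast; linarith only [S0],
        by push_cast; linarith only [S1]⟩
    have hc : chkT (altI (q 3 10) (mul (mul (q 10000 1400) (var 2)) (var 3)) (gU (q 3 10) (mul (mul (q 10000 1400) (var 2)) (var 3))) (fe 37 735 3079 9602 817 93176 (var 1)) 510 640 9500)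
        28 2178
        [V.of 10000 3500 3900 4, V.of 10000 690 780 4, V.of 10000 700 1400 4, V.of 10000 (-240) (-110) 4] = true := by
      decide +kernel
    exact rowI1 Rr hc ⟨by push_cast; linarith only [a0], by push_cast; linarith only [a1]⟩
      ⟨by push_cast; linarith only [T0], by push_cast; linarith only [T1]⟩
      ⟨by push_cast; linarith only [a0, a1, k0, k1, c0], by push_cast; linarith only [a0, a1, k0, k1, c0]⟩
      ⟨by push_cast; linarith only [K0], by push_cast; linarith only [K1]⟩ (by push_cast; linarith only [a0, a1, k0, k1, c0])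
  rcases le_total k (3500 / 10000) with c1 | c1
  · have e : tr 0 (70 / 100) (14 / 100) (35 / 100) k = 1 :=
      tr_b (by norm_num) (by norm_num) (by linarith only [k0, k1, c0, c1]) (by linarith only [k0, k1, c0, c1])
    have tv : (var 3).val [a, T, k, K] = K * tr 0 (70 / 100) (14 / 100) (35 / 100) k := by
      rw [e]; simp only [E.val, lkR]; ring
    obtain ⟨y1, y2⟩ := hts (a := a) (T := T) (K := K) (r := tr 0 (70 / 100) (14 / 100) (35 / 100) k) (by linarith only [a0]) (by linarith only [a1])
      (by linarith only [T0]) (by linarith only [T1]) (tr01 _ _ _ _).1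
      (tr01 _ _ _ _).2 (by linarith only [K0]) (by linarith only [K1]) (by linarith only [S1])
    have Rr : Row1 (q 3 10) (var 3) (gU (q 3 10) (var 3))
      (fe 37 735 3079 9602 817 93176 (var 1)) a T k K (3 / 10) (K * tr 0 (70 / 100) (14 / 100) (35 / 100) k)
      (fr 37 735 3079 9602 817 93176 a T) 510 640 :=
      ⟨cv, tv, fv, gU_le cv tv, by push_cast; linarith only [S0],
        by push_cast; linarith only [S1]⟩
    have hc : chkT (altI (q 3 10) (var 3) (gU (q 3 10) (var 3)) (fe 37 735 3079 9602 817 93176 (var 1)) 510 640 9500)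
        28 2395321020219906
        [V.of 10000 3500 3900 4, V.of 10000 690 780 4, V.of 10000 1400 3500 4, V.of 10000 (-240) (-110) 4] = true := by
      decide +kernel
    exact rowI1 Rr hc ⟨by push_cast; linarith only [a0], by push_cast; linarith only [a1]⟩
      ⟨by push_cast; linarith only [T0], by push_cast; linarith only [T1]⟩
      ⟨by push_cast; linarith only [a0, a1, k0, k1, c0, c1], by push_cast; linarith only [a0, a1, k0, k1, c0, c1]⟩
      ⟨by push_cast; linarith only [K0], by push_cast; linarith only [K1]⟩ (by push_cast; linarith only [a0, a1, k0, k1, c0, c1])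
  rcases le_total k (6600 / 10000) with c2 | c2
  · have e : tr 0 (70 / 100) (14 / 100) (35 / 100) k = (70 / 100 - k) / (35 / 100) :=
      tr_c (by norm_num) (by norm_num) (by norm_num) (by linarith only [k0, k1, c0, c1, c2]) (by linarith only [k0, k1, c0, c1, c2])
    have tv : (mul (mul (q 10000 3500) (sub (q 7000 10000) (var 2))) (var 3)).val [a, T, k, K] = K * tr 0 (70 / 100) (14 / 100) (35 / 100) k := by
      rw [e]; simp only [E.val, lkR]; push_cast; ring
    obtain ⟨y1, y2⟩ := hts (a := a) (T := T) (K := K) (r := tr 0 (70 / 100) (14 / 100) (35 / 100) k) (by linarith only [a0]) (by linarith only [a1])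
      (by linarith only [T0]) (by linarith only [T1]) (tr01 _ _ _ _).1
      (tr01 _ _ _ _).2 (by linarith only [K0]) (by linarith only [K1]) (by linarith only [S1])
    have Rr : Row1 (q 3 10) (mul (mul (q 10000 3500) (sub (q 7000 10000) (var 2))) (var 3)) (gU (q 3 10) (mul (mul (q 10000 3500) (sub (q 7000 10000) (var 2))) (var 3)))
      (fe 37 735 3079 9602 817 93176 (var 1)) a T k K (3 / 10) (K * tr 0 (70 / 100) (14 / 100) (35 / 100) k)
      (fr 37 735 3079 9602 817 93176 a T) 510 640 :=
      ⟨cv, tv, fv, gU_le cv tv, by push_cast; linarith only [S0],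
        by push_cast; linarith only [S1]⟩
    rcases le_total (a + k) (95 / 100) with d0 | d0
    · have hc : chkT (altI (q 3 10) (mul (mul (q 10000 3500) (sub (q 7000 10000) (var 2))) (var 3)) (gU (q 3 10) (mul (mul (q 10000 3500) (sub (q 7000 10000) (var 2))) (var 3))) (fe 37 735 3079 9602 817 93176 (var 1)) 510 640 9500)
          28 2395321020219938
          [V.of 10000 3500 3900 4, V.of 10000 690 780 4, V.of 10000 3500 6000 4, V.of 10000 (-240) (-110) 4] = true := by
        decide +kernel
      exact rowI1 Rr hc ⟨by push_cast; linarith only [a0], by push_cast; linarith only [a1]⟩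
        ⟨by push_cast; linarith only [T0], by push_cast; linarith only [T1]⟩
        ⟨by push_cast; linarith only [a0, a1, k0, k1, c0, c1, c2, d0], by push_cast; linarith only [a0, a1, k0, k1, c0, c1, c2, d0]⟩
        ⟨by push_cast; linarith only [K0], by push_cast; linarith only [K1]⟩ (by push_cast; linarith only [a0, a1, k0, k1, c0, c1, c2, d0])
    · rcases le_total (a + k) (1) with d1 | d1
      · rcases le_total 0 (4 * T * (6 / 10 - a) + K * tr 0 (70 / 100) (14 / 100) (35 / 100) k) with y | y
        · have hc : chkT (altN (q 3 10) (mul (mul (q 10000 3500) (sub (q 7000 10000) (var 2))) (var 3)) (gU (q 3 10) (mul (mul (q 10000 3500) (sub (q 7000 10000) (var 2))) (var 3))) (fe 37 735 3079 9602 817 93176 (var 1)) (q 1 1) 510 640)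
              28 2703157971396610
              [V.of 10000 3500 3900 4, V.of 10000 690 780 4, V.of 10000 5600 6500 4, V.of 10000 (-240) (-110) 4] = true := by
            decide +kernel
          exact rowN1 Rr p1 (Or.inl rfl) hc ⟨by push_cast; linarith only [a0], by push_cast; linarith only [a1]⟩
            ⟨by push_cast; linarith only [T0], by push_cast; linarith only [T1]⟩
            ⟨by push_cast; linarith only [a0, a1, k0, k1, c0, c1, c2, d0, d1], by push_cast; linarith only [a0, a1, k0, k1, c0, c1, c2, d0, d1]⟩
            ⟨by push_cast; linarith only [K0], by push_cast; linarith only [K1]⟩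
            (by push_cast; linarith only [a0, a1, k0, k1, c0, c1, c2, d0, d1]) (by push_cast; linarith only [a0, a1, k0, k1, c0, c1, c2, d0, d1]) (by linarith only [y])
        · have hc : chkT (altN (q 3 10) (mul (mul (q 10000 3500) (sub (q 7000 10000) (var 2))) (var 3)) (gU (q 3 10) (mul (mul (q 10000 3500) (sub (q 7000 10000) (var 2))) (var 3))) (fe 37 735 3079 9602 817 93176 (var 1)) (q (-1) 1) 510 640)
              28 9
              [V.of 10000 3500 3900 4, V.of 10000 690 780 4, V.of 10000 5600 6500 4, V.of 10000 (-240) (-110) 4] = true := by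
            decide +kernel
          exact rowN1 Rr p2 (Or.inr rfl) hc ⟨by push_cast; linarith only [a0], by push_cast; linarith only [a1]⟩
            ⟨by push_cast; linarith only [T0], by push_cast; linarith only [T1]⟩
            ⟨by push_cast; linarith only [a0, a1, k0, k1, c0, c1, c2, d0, d1], by push_cast; linarith only [a0, a1, k0, k1, c0, c1, c2, d0, d1]⟩
            ⟨by push_cast; linarith only [K0], by push_cast; linarith only [K1]⟩
            (by push_cast; linarith only [a0, a1, k0, k1, c0, c1, c2, d0, d1]) (by push_cast; linarith only [a0, a1, k0, k1, c0, c1, c2, d0, d1]) (by linarith only [y])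
      · rcases le_total 0 (4 * T * (6 / 10 - a) + K * tr 0 (70 / 100) (14 / 100) (35 / 100) k) with y | y
        · have hc : chkT (altH (q 3 10) (mul (mul (q 10000 3500) (sub (q 7000 10000) (var 2))) (var 3)) (gU (q 3 10) (mul (mul (q 10000 3500) (sub (q 7000 10000) (var 2))) (var 3))) (fe 37 735 3079 9602 817 93176 (var 1)) (q 1 1) 510 640)
              28 9
              [V.of 10000 3500 3900 4, V.of 10000 690 780 4, V.of 10000 6100 6600 4, V.of 10000 (-240) (-110) 4] = true := by
            decide +kernel
          exact rowH1 Rr p1 (Or.inl rfl) hc ⟨by push_cast; linarith only [a0], by push_cast; linarith only [a1]⟩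
            ⟨by push_cast; linarith only [T0], by push_cast; linarith only [T1]⟩
            ⟨by push_cast; linarith only [a0, a1, k0, k1, c0, c1, c2, d0, d1], by push_cast; linarith only [a0, a1, k0, k1, c0, c1, c2, d0, d1]⟩
            ⟨by push_cast; linarith only [K0], by push_cast; linarith only [K1]⟩
            (by push_cast; linarith only [a0, a1, k0, k1, c0, c1, c2, d0, d1]) (by push_cast; linarith only [a0, a1, k0, k1, c0, c1, c2, d0, d1]) (by linarith only [y]) (by linarith only [(abs_le.1 y1).1, (abs_le.1 y1).2])
        · have hc : chkT (altH (q 3 10) (mul (mul (q 10000 3500) (sub (q 7000 10000) (var 2))) (var 3)) (gU (q 3 10) (mul (mul (q 10000 3500) (sub (q 7000 10000) (var 2))) (var 3))) (fe 37 735 3079 9602 817 93176 (var 1)) (q (-1) 1) 510 640)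
              28 9
              [V.of 10000 3500 3900 4, V.of 10000 690 780 4, V.of 10000 6100 6600 4, V.of 10000 (-240) (-110) 4] = true := by
            decide +kernel
          exact rowH1 Rr p2 (Or.inr rfl) hc ⟨by push_cast; linarith only [a0], by push_cast; linarith only [a1]⟩
            ⟨by push_cast; linarith only [T0], by push_cast; linarith only [T1]⟩
            ⟨by push_cast; linarith only [a0, a1, k0, k1, c0, c1, c2, d0, d1], by push_cast; linarith only [a0, a1, k0, k1, c0, c1, c2, d0, d1]⟩
            ⟨by push_cast; linarith only [K0], by push_cast; linarith only [K1]⟩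
            (by push_cast; linarith only [a0, a1, k0, k1, c0, c1, c2, d0, d1]) (by push_cast; linarith only [a0, a1, k0, k1, c0, c1, c2, d0, d1]) (by linarith only [y]) (by linarith only [(abs_le.1 y1).1, (abs_le.1 y1).2])
  have e : tr 0 (70 / 100) (14 / 100) (35 / 100) k = (70 / 100 - k) / (35 / 100) :=
    tr_c (by norm_num) (by norm_num) (by norm_num) (by linarith only [k0, k1, c0, c1, c2]) (by linarith only [k0, k1, c0, c1, c2])
  have tv : (mul (mul (q 10000 3500) (sub (q 7000 10000) (var 2))) (var 3)).val [a, T, k, K] = K * tr 0 (70 / 100) (14 / 100) (35 / 100) k := by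
    rw [e]; simp only [E.val, lkR]; push_cast; ring
  obtain ⟨y1, y2⟩ := hts (a := a) (T := T) (K := K) (r := tr 0 (70 / 100) (14 / 100) (35 / 100) k) (by linarith only [a0]) (by linarith only [a1])
    (by linarith only [T0]) (by linarith only [T1]) (tr01 _ _ _ _).1
    (tr01 _ _ _ _).2 (by linarith only [K0]) (by linarith only [K1]) (by linarith only [S1])
  have Rr : Row1 (q 3 10) (mul (mul (q 10000 3500) (sub (q 7000 10000) (var 2))) (var 3)) (gL (mul (mul (q 10000 3500) (sub (q 7000 10000) (var 2))) (var 3)))
    (fe 37 735 3079 9602 817 93176 (var 1)) a T k K (3 / 10) (K * tr 0 (70 / 100) (14 / 100) (35 / 100) k)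
    (fr 37 735 3079 9602 817 93176 a T) 510 640 :=
    ⟨cv, tv, fv, gL_le tv (by linarith only [k0, k1, c0, c1, c2]) (by linarith only [k1]) y2, by push_cast; linarith only [S0],
      by push_cast; linarith only [S1]⟩
  rcases le_total (a + k) (107 / 100) with d0 | d0
  · rcases le_total 0 (4 * T * (6 / 10 - a) + K * tr 0 (70 / 100) (14 / 100) (35 / 100) k) with y | y
    · have hc : chkT (altH (q 3 10) (mul (mul (q 10000 3500) (sub (q 7000 10000) (var 2))) (var 3)) (gL (mul (mul (q 10000 3500) (sub (q 7000 10000) (var 2))) (var 3))) (fe 37 735 3079 9602 817 93176 (var 1)) (q 1 1) 510 640)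
          28 9
          [V.of 10000 3500 3900 4, V.of 10000 690 780 4, V.of 10000 6600 7000 4, V.of 10000 (-240) (-110) 4] = true := by
        decide +kernel
      exact rowH1 Rr p1 (Or.inl rfl) hc ⟨by push_cast; linarith only [a0], by push_cast; linarith only [a1]⟩
        ⟨by push_cast; linarith only [T0], by push_cast; linarith only [T1]⟩
        ⟨by push_cast; linarith only [a0, a1, k0, k1, c0, c1, c2, d0], by push_cast; linarith only [a0, a1, k0, k1, c0, c1, c2, d0]⟩
        ⟨by push_cast; linarith only [K0], by push_cast; linarith only [K1]⟩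
        (by push_cast; linarith only [a0, a1, k0, k1, c0, c1, c2, d0]) (by push_cast; linarith only [a0, a1, k0, k1, c0, c1, c2, d0]) (by linarith only [y]) (by linarith only [(abs_le.1 y1).1, (abs_le.1 y1).2])
    · have hc : chkT (altH (q 3 10) (mul (mul (q 10000 3500) (sub (q 7000 10000) (var 2))) (var 3)) (gL (mul (mul (q 10000 3500) (sub (q 7000 10000) (var 2))) (var 3))) (fe 37 735 3079 9602 817 93176 (var 1)) (q (-1) 1) 510 640)
          28 9
          [V.of 10000 3500 3900 4, V.of 10000 690 780 4, V.of 10000 6600 7000 4, V.of 10000 (-240) (-110) 4] = true := by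
        decide +kernel
      exact rowH1 Rr p2 (Or.inr rfl) hc ⟨by push_cast; linarith only [a0], by push_cast; linarith only [a1]⟩
        ⟨by push_cast; linarith only [T0], by push_cast; linarith only [T1]⟩
        ⟨by push_cast; linarith only [a0, a1, k0, k1, c0, c1, c2, d0], by push_cast; linarith only [a0, a1, k0, k1, c0, c1, c2, d0]⟩
        ⟨by push_cast; linarith only [K0], by push_cast; linarith only [K1]⟩
        (by push_cast; linarith only [a0, a1, k0, k1, c0, c1, c2, d0]) (by push_cast; linarith only [a0, a1, k0, k1, c0, c1, c2, d0]) (by linarith only [y]) (by linarith only [(abs_le.1 y1).1, (abs_le.1 y1).2])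
  · rcases le_total 0 (4 * T * (6 / 10 - a) + K * tr 0 (70 / 100) (14 / 100) (35 / 100) k) with y | y
    · have hc : chkT (altB (q 3 10) (mul (mul (q 10000 3500) (sub (q 7000 10000) (var 2))) (var 3)) (gL (mul (mul (q 10000 3500) (sub (q 7000 10000) (var 2))) (var 3))) (fe 37 735 3079 9602 817 93176 (var 1)) (q 1 1) 510 640)
          28 8
          [V.of 10000 3500 3900 4, V.of 10000 690 780 4, V.of 10000 6800 7000 4, V.of 10000 (-240) (-110) 4] = true := by
        decide +kernel
      exact rowB1 Rr p1 (Or.inl rfl) hc ⟨by push_cast; linarith only [a0], by push_cast; linarith only [a1]⟩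
        ⟨by push_cast; linarith only [T0], by push_cast; linarith only [T1]⟩
        ⟨by push_cast; linarith only [a0, a1, k0, k1, c0, c1, c2, d0], by push_cast; linarith only [a0, a1, k0, k1, c0, c1, c2, d0]⟩
        ⟨by push_cast; linarith only [K0], by push_cast; linarith only [K1]⟩
        (by push_cast; linarith only [a0, a1, k0, k1, c0, c1, c2, d0]) (by linarith only [y])
    · have hc : chkT (altB (q 3 10) (mul (mul (q 10000 3500) (sub (q 7000 10000) (var 2))) (var 3)) (gL (mul (mul (q 10000 3500) (sub (q 7000 10000) (var 2))) (var 3))) (fe 37 735 3079 9602 817 93176 (var 1)) (q (-1) 1) 510 640)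
          28 8
          [V.of 10000 3500 3900 4, V.of 10000 690 780 4, V.of 10000 6800 7000 4, V.of 10000 (-240) (-110) 4] = true := by
        decide +kernel
      exact rowB1 Rr p2 (Or.inr rfl) hc ⟨by push_cast; linarith only [a0], by push_cast; linarith only [a1]⟩
        ⟨by push_cast; linarith only [T0], by push_cast; linarith only [T1]⟩
        ⟨by push_cast; linarith only [a0, a1, k0, k1, c0, c1, c2, d0], by push_cast; linarith only [a0, a1, k0, k1, c0, c1, c2, d0]⟩
        ⟨by push_cast; linarith only [K0], by push_cast; linarith only [K1]⟩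
        (by push_cast; linarith only [a0, a1, k0, k1, c0, c1, c2, d0]) (by linarith only [y])

theorem d1_twoE_B {a T k K : ℝ} (a0 : 3900 / 10000 ≤ a) (a1 : a ≤ 5000 / 10000)
    (T0 : 690 / 10000 ≤ T) (T1 : T ≤ 780 / 10000) (K0 : -(240 / 10000) ≤ K)
    (K1 : K ≤ -(110 / 10000)) (S0 : 510 / 10000 ≤ T + K) (S1 : T + K ≤ 640 / 10000)
    (k0 : 7 / 100 ≤ k) (k1 : k ≤ 7000 / 10000) :
    0 < D1 (3 / 10) a T k (K * tr 0 (70 / 100) (14 / 100) (35 / 100) k) +
      fr 45 735 11037 9968 8728 100016 a T := by
  have cv : ((q 3 10) : E).val [a, T, k, K] = 3 / 10 := by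
    simp only [E.val]; norm_num
  have fv : (fe 45 735 11037 9968 8728 100016 (var 1)).val [a, T, k, K] = fr 45 735 11037 9968 8728 100016 a T :=
    fe_val (by simp only [E.val, lkR])
  have p1 : ((q 1 1) : E).val [a, T, k, K] = 1 := by simp only [E.val]; norm_num
  have p2 : ((q (-1) 1) : E).val [a, T, k, K] = -1 := by simp only [E.val]; norm_num
  rcases le_total k (1400 / 10000) with c0 | c0
  · have e : tr 0 (70 / 100) (14 / 100) (35 / 100) k = k / (14 / 100) :=
      tr_a (by norm_num) (by norm_num) (by norm_num) (by linarith only [k0]) (by linarith only [k0, k1, c0])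
    have tv : (mul (mul (q 10000 1400) (var 2)) (var 3)).val [a, T, k, K] = K * tr 0 (70 / 100) (14 / 100) (35 / 100) k := by
      rw [e]; simp only [E.val, lkR]; push_cast; ring
    obtain ⟨y1, y2⟩ := hts (a := a) (T := T) (K := K) (r := tr 0 (70 / 100) (14 / 100) (35 / 100) k) (by linarith only [a0]) (by linarith only [a1])
      (by linarith only [T0]) (by linarith only [T1]) (tr01 _ _ _ _).1
      (tr01 _ _ _ _).2 (by linarith only [K0]) (by linarith only [K1]) (by linarith only [S1])
    have Rr : Row1 (q 3 10) (mul (mul (q 10000 1400) (var 2)) (var 3)) (gU (q 3 10) (mul (mul (q 10000 1400) (var 2)) (var 3)))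
      (fe 45 735 11037 9968 8728 100016 (var 1)) a T k K (3 / 10) (K * tr 0 (70 / 100) (14 / 100) (35 / 100) k)
      (fr 45 735 11037 9968 8728 100016 a T) 510 640 :=
      ⟨cv, tv, fv, gU_le cv tv, by push_cast; linarith only [S0],
        by push_cast; linarith only [S1]⟩
    have hc : chkT (altI (q 3 10) (mul (mul (q 10000 1400) (var 2)) (var 3)) (gU (q 3 10) (mul (mul (q 10000 1400) (var 2)) (var 3))) (fe 45 735 11037 9968 8728 100016 (var 1)) 510 640 9500)
        28 559136
        [V.of 10000 3900 5000 4, V.of 10000 690 780 4, V.of 10000 700 1400 4, V.of 10000 (-240) (-110) 4] = true := by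
      decide +kernel
    exact rowI1 Rr hc ⟨by push_cast; linarith only [a0], by push_cast; linarith only [a1]⟩
      ⟨by push_cast; linarith only [T0], by push_cast; linarith only [T1]⟩
      ⟨by push_cast; linarith only [a0, a1, k0, k1, c0], by push_cast; linarith only [a0, a1, k0, k1, c0]⟩
      ⟨by push_cast; linarith only [K0], by push_cast; linarith only [K1]⟩ (by push_cast; linarith only [a0, a1, k0, k1, c0])
  rcases le_total k (3500 / 10000) with c1 | c1
  · have e : tr 0 (70 / 100) (14 / 100) (35 / 100) k = 1 :=
      tr_b (by norm_num) (by norm_num) (by linarith only [k0, k1, c0, c1]) (by linarith only [k0, k1, c0, c1])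
    have tv : (var 3).val [a, T, k, K] = K * tr 0 (70 / 100) (14 / 100) (35 / 100) k := by
      rw [e]; simp only [E.val, lkR]; ring
    obtain ⟨y1, y2⟩ := hts (a := a) (T := T) (K := K) (r := tr 0 (70 / 100) (14 / 100) (35 / 100) k) (by linarith only [a0]) (by linarith only [a1])
      (by linarith only [T0]) (by linarith only [T1]) (tr01 _ _ _ _).1
      (tr01 _ _ _ _).2 (by linarith only [K0]) (by linarith only [K1]) (by linarith only [S1])
    have Rr : Row1 (q 3 10) (var 3) (gU (q 3 10) (var 3))
      (fe 45 735 11037 9968 8728 100016 (var 1)) a T k K (3 / 10) (K * tr 0 (70 / 100) (14 / 100) (35 / 100) k)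
      (fr 45 735 11037 9968 8728 100016 a T) 510 640 :=
      ⟨cv, tv, fv, gU_le cv tv, by push_cast; linarith only [S0],
        by push_cast; linarith only [S1]⟩
    have hc : chkT (altI (q 3 10) (var 3) (gU (q 3 10) (var 3)) (fe 45 735 11037 9968 8728 100016 (var 1)) 510 640 9500)
        28 9380754391554
        [V.of 10000 3900 5000 4, V.of 10000 690 780 4, V.of 10000 1400 3500 4, V.of 10000 (-240) (-110) 4] = true := by
      decide +kernel
    exact rowI1 Rr hc ⟨by push_cast; linarith only [a0], by push_cast; linarith only [a1]⟩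
      ⟨by push_cast; linarith only [T0], by push_cast; linarith only [T1]⟩
      ⟨by push_cast; linarith only [a0, a1, k0, k1, c0, c1], by push_cast; linarith only [a0, a1, k0, k1, c0, c1]⟩
      ⟨by push_cast; linarith only [K0], by push_cast; linarith only [K1]⟩ (by push_cast; linarith only [a0, a1, k0, k1, c0, c1])
  rcases le_total k (6600 / 10000) with c2 | c2
  · have e : tr 0 (70 / 100) (14 / 100) (35 / 100) k = (70 / 100 - k) / (35 / 100) :=
      tr_c (by norm_num) (by norm_num) (by norm_num) (by linarith only [k0, k1, c0, c1, c2]) (by linarith only [k0, k1, c0, c1, c2])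
    have tv : (mul (mul (q 10000 3500) (sub (q 7000 10000) (var 2))) (var 3)).val [a, T, k, K] = K * tr 0 (70 / 100) (14 / 100) (35 / 100) k := by
      rw [e]; simp only [E.val, lkR]; push_cast; ring
    obtain ⟨y1, y2⟩ := hts (a := a) (T := T) (K := K) (r := tr 0 (70 / 100) (14 / 100) (35 / 100) k) (by linarith only [a0]) (by linarith only [a1])
      (by linarith only [T0]) (by linarith only [T1]) (tr01 _ _ _ _).1
      (tr01 _ _ _ _).2 (by linarith only [K0]) (by linarith only [K1]) (by linarith only [S1])
    have Rr : Row1 (q 3 10) (mul (mul (q 10000 3500) (sub (q 7000 10000) (var 2))) (var 3)) (gU (q 3 10) (mul (mul (q 10000 3500) (sub (q 7000 10000) (var 2))) (var 3)))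
      (fe 45 735 11037 9968 8728 100016 (var 1)) a T k K (3 / 10) (K * tr 0 (70 / 100) (14 / 100) (35 / 100) k)
      (fr 45 735 11037 9968 8728 100016 a T) 510 640 :=
      ⟨cv, tv, fv, gU_le cv tv, by push_cast; linarith only [S0],
        by push_cast; linarith only [S1]⟩
    rcases le_total (a + k) (95 / 100) with d0 | d0
    · have hc : chkT (altI (q 3 10) (mul (mul (q 10000 3500) (sub (q 7000 10000) (var 2))) (var 3)) (gU (q 3 10) (mul (mul (q 10000 3500) (sub (q 7000 10000) (var 2))) (var 3))) (fe 45 735 11037 9968 8728 100016 (var 1)) 510 640 9500)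
          28 3626966403666555695209677314
          [V.of 10000 3900 5000 4, V.of 10000 690 780 4, V.of 10000 3500 5600 4, V.of 10000 (-240) (-110) 4] = true := by
        decide +kernel
      exact rowI1 Rr hc ⟨by push_cast; linarith only [a0], by push_cast; linarith only [a1]⟩
        ⟨by push_cast; linarith only [T0], by push_cast; linarith only [T1]⟩
        ⟨by push_cast; linarith only [a0, a1, k0, k1, c0, c1, c2, d0], by push_cast; linarith only [a0, a1, k0, k1, c0, c1, c2, d0]⟩
        ⟨by push_cast; linarith only [K0], by push_cast; linarith only [K1]⟩ (by push_cast; linarith only [a0, a1, k0, k1, c0, c1, c2, d0])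
    · rcases le_total (a + k) (1) with d1 | d1
      · rcases le_total 0 (4 * T * (6 / 10 - a) + K * tr 0 (70 / 100) (14 / 100) (35 / 100) k) with y | y
        · have hc : chkT (altN (q 3 10) (mul (mul (q 10000 3500) (sub (q 7000 10000) (var 2))) (var 3)) (gU (q 3 10) (mul (mul (q 10000 3500) (sub (q 7000 10000) (var 2))) (var 3))) (fe 45 735 11037 9968 8728 100016 (var 1)) (q 1 1) 510 640)
              28 10557577527810
              [V.of 10000 3900 5000 4, V.of 10000 690 780 4, V.of 10000 4500 6100 4, V.of 10000 (-240) (-110) 4] = true := by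
            decide +kernel
          exact rowN1 Rr p1 (Or.inl rfl) hc ⟨by push_cast; linarith only [a0], by push_cast; linarith only [a1]⟩
            ⟨by push_cast; linarith only [T0], by push_cast; linarith only [T1]⟩
            ⟨by push_cast; linarith only [a0, a1, k0, k1, c0, c1, c2, d0, d1], by push_cast; linarith only [a0, a1, k0, k1, c0, c1, c2, d0, d1]⟩
            ⟨by push_cast; linarith only [K0], by push_cast; linarith only [K1]⟩
            (by push_cast; linarith only [a0, a1, k0, k1, c0, c1, c2, d0, d1]) (by push_cast; linarith only [a0, a1, k0, k1, c0, c1, c2, d0, d1]) (by linarith only [y])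
        · have hc : chkT (altN (q 3 10) (mul (mul (q 10000 3500) (sub (q 7000 10000) (var 2))) (var 3)) (gU (q 3 10) (mul (mul (q 10000 3500) (sub (q 7000 10000) (var 2))) (var 3))) (fe 45 735 11037 9968 8728 100016 (var 1)) (q (-1) 1) 510 640)
              28 11
              [V.of 10000 3900 5000 4, V.of 10000 690 780 4, V.of 10000 4500 6100 4, V.of 10000 (-240) (-110) 4] = true := by
            decide +kernel
          exact rowN1 Rr p2 (Or.inr rfl) hc ⟨by push_cast; linarith only [a0], by push_cast; linarith only [a1]⟩
            ⟨by push_cast; linarith only [T0], by push_cast; linarith only [T1]⟩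
            ⟨by push_cast; linarith only [a0, a1, k0, k1, c0, c1, c2, d0, d1], by push_cast; linarith only [a0, a1, k0, k1, c0, c1, c2, d0, d1]⟩
            ⟨by push_cast; linarith only [K0], by push_cast; linarith only [K1]⟩
            (by push_cast; linarith only [a0, a1, k0, k1, c0, c1, c2, d0, d1]) (by push_cast; linarith only [a0, a1, k0, k1, c0, c1, c2, d0, d1]) (by linarith only [y])
      · rcases le_total (a + k) (107 / 100) with d2 | d2
        · rcases le_total 0 (4 * T * (6 / 10 - a) + K * tr 0 (70 / 100) (14 / 100) (35 / 100) k) with y | y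
          · have hc : chkT (altH (q 3 10) (mul (mul (q 10000 3500) (sub (q 7000 10000) (var 2))) (var 3)) (gU (q 3 10) (mul (mul (q 10000 3500) (sub (q 7000 10000) (var 2))) (var 3))) (fe 45 735 11037 9968 8728 100016 (var 1)) (q 1 1) 510 640)
                28 9
                [V.of 10000 3900 5000 4, V.of 10000 690 780 4, V.of 10000 5000 6600 4, V.of 10000 (-240) (-110) 4] = true := by
              decide +kernel
            exact rowH1 Rr p1 (Or.inl rfl) hc ⟨by push_cast; linarith only [a0], by push_cast; linarith only [a1]⟩
              ⟨by push_cast; linarith only [T0], by push_cast; linarith only [T1]⟩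
              ⟨by push_cast; linarith only [a0, a1, k0, k1, c0, c1, c2, d0, d1, d2], by push_cast; linarith only [a0, a1, k0, k1, c0, c1, c2, d0, d1, d2]⟩
              ⟨by push_cast; linarith only [K0], by push_cast; linarith only [K1]⟩
              (by push_cast; linarith only [a0, a1, k0, k1, c0, c1, c2, d0, d1, d2]) (by push_cast; linarith only [a0, a1, k0, k1, c0, c1, c2, d0, d1, d2]) (by linarith only [y]) (by linarith only [(abs_le.1 y1).1, (abs_le.1 y1).2])
          · have hc : chkT (altH (q 3 10) (mul (mul (q 10000 3500) (sub (q 7000 10000) (var 2))) (var 3)) (gU (q 3 10) (mul (mul (q 10000 3500) (sub (q 7000 10000) (var 2))) (var 3))) (fe 45 735 11037 9968 8728 100016 (var 1)) (q (-1) 1) 510 640)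
                28 9
                [V.of 10000 3900 5000 4, V.of 10000 690 780 4, V.of 10000 5000 6600 4, V.of 10000 (-240) (-110) 4] = true := by
              decide +kernel
            exact rowH1 Rr p2 (Or.inr rfl) hc ⟨by push_cast; linarith only [a0], by push_cast; linarith only [a1]⟩
              ⟨by push_cast; linarith only [T0], by push_cast; linarith only [T1]⟩
              ⟨by push_cast; linarith only [a0, a1, k0, k1, c0, c1, c2, d0, d1, d2], by push_cast; linarith only [a0, a1, k0, k1, c0, c1, c2, d0, d1, d2]⟩
              ⟨by push_cast; linarith only [K0], by push_cast; linarith only [K1]⟩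
              (by push_cast; linarith only [a0, a1, k0, k1, c0, c1, c2, d0, d1, d2]) (by push_cast; linarith only [a0, a1, k0, k1, c0, c1, c2, d0, d1, d2]) (by linarith only [y]) (by linarith only [(abs_le.1 y1).1, (abs_le.1 y1).2])
        · rcases le_total 0 (4 * T * (6 / 10 - a) + K * tr 0 (70 / 100) (14 / 100) (35 / 100) k) with y | y
          · have hc : chkT (altB (q 3 10) (mul (mul (q 10000 3500) (sub (q 7000 10000) (var 2))) (var 3)) (gU (q 3 10) (mul (mul (q 10000 3500) (sub (q 7000 10000) (var 2))) (var 3))) (fe 45 735 11037 9968 8728 100016 (var 1)) (q 1 1) 510 640)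
                28 9356733189152
                [V.of 10000 3900 5000 4, V.of 10000 690 780 4, V.of 10000 5700 6600 4, V.of 10000 (-240) (-110) 4] = true := by
              decide +kernel
            exact rowB1 Rr p1 (Or.inl rfl) hc ⟨by push_cast; linarith only [a0], by push_cast; linarith only [a1]⟩
              ⟨by push_cast; linarith only [T0], by push_cast; linarith only [T1]⟩
              ⟨by push_cast; linarith only [a0, a1, k0, k1, c0, c1, c2, d0, d1, d2], by push_cast; linarith only [a0, a1, k0, k1, c0, c1, c2, d0, d1, d2]⟩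
              ⟨by push_cast; linarith only [K0], by push_cast; linarith only [K1]⟩
              (by push_cast; linarith only [a0, a1, k0, k1, c0, c1, c2, d0, d1, d2]) (by linarith only [y])
          · have hc : chkT (altB (q 3 10) (mul (mul (q 10000 3500) (sub (q 7000 10000) (var 2))) (var 3)) (gU (q 3 10) (mul (mul (q 10000 3500) (sub (q 7000 10000) (var 2))) (var 3))) (fe 45 735 11037 9968 8728 100016 (var 1)) (q (-1) 1) 510 640)
                28 9
                [V.of 10000 3900 5000 4, V.of 10000 690 780 4, V.of 10000 5700 6600 4, V.of 10000 (-240) (-110) 4] = true := by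
              decide +kernel
            exact rowB1 Rr p2 (Or.inr rfl) hc ⟨by push_cast; linarith only [a0], by push_cast; linarith only [a1]⟩
              ⟨by push_cast; linarith only [T0], by push_cast; linarith only [T1]⟩
              ⟨by push_cast; linarith only [a0, a1, k0, k1, c0, c1, c2, d0, d1, d2], by push_cast; linarith only [a0, a1, k0, k1, c0, c1, c2, d0, d1, d2]⟩
              ⟨by push_cast; linarith only [K0], by push_cast; linarith only [K1]⟩
              (by push_cast; linarith only [a0, a1, k0, k1, c0, c1, c2, d0, d1, d2]) (by linarith only [y])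
  have e : tr 0 (70 / 100) (14 / 100) (35 / 100) k = (70 / 100 - k) / (35 / 100) :=
    tr_c (by norm_num) (by norm_num) (by norm_num) (by linarith only [k0, k1, c0, c1, c2]) (by linarith only [k0, k1, c0, c1, c2])
  have tv : (mul (mul (q 10000 3500) (sub (q 7000 10000) (var 2))) (var 3)).val [a, T, k, K] = K * tr 0 (70 / 100) (14 / 100) (35 / 100) k := by
    rw [e]; simp only [E.val, lkR]; push_cast; ring
  obtain ⟨y1, y2⟩ := hts (a := a) (T := T) (K := K) (r := tr 0 (70 / 100) (14 / 100) (35 / 100) k) (by linarith only [a0]) (by linarith only [a1])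
    (by linarith only [T0]) (by linarith only [T1]) (tr01 _ _ _ _).1
    (tr01 _ _ _ _).2 (by linarith only [K0]) (by linarith only [K1]) (by linarith only [S1])
  have Rr : Row1 (q 3 10) (mul (mul (q 10000 3500) (sub (q 7000 10000) (var 2))) (var 3)) (gL (mul (mul (q 10000 3500) (sub (q 7000 10000) (var 2))) (var 3)))
    (fe 45 735 11037 9968 8728 100016 (var 1)) a T k K (3 / 10) (K * tr 0 (70 / 100) (14 / 100) (35 / 100) k)
    (fr 45 735 11037 9968 8728 100016 a T) 510 640 :=
    ⟨cv, tv, fv, gL_le tv (by linarith only [k0, k1, c0, c1, c2]) (by linarith only [k1]) y2, by push_cast; linarith only [S0],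
      by push_cast; linarith only [S1]⟩
  rcases le_total (a + k) (107 / 100) with d0 | d0
  · rcases le_total 0 (4 * T * (6 / 10 - a) + K * tr 0 (70 / 100) (14 / 100) (35 / 100) k) with y | y
    · have hc : chkT (altH (q 3 10) (mul (mul (q 10000 3500) (sub (q 7000 10000) (var 2))) (var 3)) (gL (mul (mul (q 10000 3500) (sub (q 7000 10000) (var 2))) (var 3))) (fe 45 735 11037 9968 8728 100016 (var 1)) (q 1 1) 510 640)
          28 8
          [V.of 10000 3900 5000 4, V.of 10000 690 780 4, V.of 10000 6600 6800 4, V.of 10000 (-240) (-110) 4] = true := by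
        decide +kernel
      exact rowH1 Rr p1 (Or.inl rfl) hc ⟨by push_cast; linarith only [a0], by push_cast; linarith only [a1]⟩
        ⟨by push_cast; linarith only [T0], by push_cast; linarith only [T1]⟩
        ⟨by push_cast; linarith only [a0, a1, k0, k1, c0, c1, c2, d0], by push_cast; linarith only [a0, a1, k0, k1, c0, c1, c2, d0]⟩
        ⟨by push_cast; linarith only [K0], by push_cast; linarith only [K1]⟩
        (by push_cast; linarith only [a0, a1, k0, k1, c0, c1, c2, d0]) (by push_cast; linarith only [a0, a1, k0, k1, c0, c1, c2, d0]) (by linarith only [y]) (by linarith only [(abs_le.1 y1).1, (abs_le.1 y1).2])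
    · have hc : chkT (altH (q 3 10) (mul (mul (q 10000 3500) (sub (q 7000 10000) (var 2))) (var 3)) (gL (mul (mul (q 10000 3500) (sub (q 7000 10000) (var 2))) (var 3))) (fe 45 735 11037 9968 8728 100016 (var 1)) (q (-1) 1) 510 640)
          28 8
          [V.of 10000 3900 5000 4, V.of 10000 690 780 4, V.of 10000 6600 6800 4, V.of 10000 (-240) (-110) 4] = true := by
        decide +kernel
      exact rowH1 Rr p2 (Or.inr rfl) hc ⟨by push_cast; linarith only [a0], by push_cast; linarith only [a1]⟩
        ⟨by push_cast; linarith only [T0], by push_cast; linarith only [T1]⟩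
        ⟨by push_cast; linarith only [a0, a1, k0, k1, c0, c1, c2, d0], by push_cast; linarith only [a0, a1, k0, k1, c0, c1, c2, d0]⟩
        ⟨by push_cast; linarith only [K0], by push_cast; linarith only [K1]⟩
        (by push_cast; linarith only [a0, a1, k0, k1, c0, c1, c2, d0]) (by push_cast; linarith only [a0, a1, k0, k1, c0, c1, c2, d0]) (by linarith only [y]) (by linarith only [(abs_le.1 y1).1, (abs_le.1 y1).2])
  · rcases le_total 0 (4 * T * (6 / 10 - a) + K * tr 0 (70 / 100) (14 / 100) (35 / 100) k) with y | y
    · have hc : chkT (altB (q 3 10) (mul (mul (q 10000 3500) (sub (q 7000 10000) (var 2))) (var 3)) (gL (mul (mul (q 10000 3500) (sub (q 7000 10000) (var 2))) (var 3))) (fe 45 735 11037 9968 8728 100016 (var 1)) (q 1 1) 510 640)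
          28 8
          [V.of 10000 3900 5000 4, V.of 10000 690 780 4, V.of 10000 6600 7000 4, V.of 10000 (-240) (-110) 4] = true := by
        decide +kernel
      exact rowB1 Rr p1 (Or.inl rfl) hc ⟨by push_cast; linarith only [a0], by push_cast; linarith only [a1]⟩
        ⟨by push_cast; linarith only [T0], by push_cast; linarith only [T1]⟩
        ⟨by push_cast; linarith only [a0, a1, k0, k1, c0, c1, c2, d0], by push_cast; linarith only [a0, a1, k0, k1, c0, c1, c2, d0]⟩
        ⟨by push_cast; linarith only [K0], by push_cast; linarith only [K1]⟩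
        (by push_cast; linarith only [a0, a1, k0, k1, c0, c1, c2, d0]) (by linarith only [y])
    · have hc : chkT (altB (q 3 10) (mul (mul (q 10000 3500) (sub (q 7000 10000) (var 2))) (var 3)) (gL (mul (mul (q 10000 3500) (sub (q 7000 10000) (var 2))) (var 3))) (fe 45 735 11037 9968 8728 100016 (var 1)) (q (-1) 1) 510 640)
          28 8
          [V.of 10000 3900 5000 4, V.of 10000 690 780 4, V.of 10000 6600 7000 4, V.of 10000 (-240) (-110) 4] = true := by
        decide +kernel
      exact rowB1 Rr p2 (Or.inr rfl) hc ⟨by push_cast; linarith only [a0], by push_cast; linarith only [a1]⟩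
        ⟨by push_cast; linarith only [T0], by push_cast; linarith only [T1]⟩
        ⟨by push_cast; linarith only [a0, a1, k0, k1, c0, c1, c2, d0], by push_cast; linarith only [a0, a1, k0, k1, c0, c1, c2, d0]⟩
        ⟨by push_cast; linarith only [K0], by push_cast; linarith only [K1]⟩
        (by push_cast; linarith only [a0, a1, k0, k1, c0, c1, c2, d0]) (by linarith only [y])

theorem d1_twoE_C {a T k K : ℝ} (a0 : 5000 / 10000 ≤ a) (a1 : a ≤ 6000 / 10000)
    (T0 : 690 / 10000 ≤ T) (T1 : T ≤ 780 / 10000) (K0 : -(240 / 10000) ≤ K)
    (K1 : K ≤ -(110 / 10000)) (S0 : 510 / 10000 ≤ T + K) (S1 : T + K ≤ 640 / 10000)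
    (k0 : 7 / 100 ≤ k) (k1 : k ≤ 7000 / 10000) :
    0 < D1 (3 / 10) a T k (K * tr 0 (70 / 100) (14 / 100) (35 / 100) k) +
      fr 55 735 20721 9678 19055 107500 a T := by
  have cv : ((q 3 10) : E).val [a, T, k, K] = 3 / 10 := by
    simp only [E.val]; norm_num
  have fv : (fe 55 735 20721 9678 19055 107500 (var 1)).val [a, T, k, K] = fr 55 735 20721 9678 19055 107500 a T :=
    fe_val (by simp only [E.val, lkR])
  have p1 : ((q 1 1) : E).val [a, T, k, K] = 1 := by simp only [E.val]; norm_num
  have p2 : ((q (-1) 1) : E).val [a, T, k, K] = -1 := by simp only [E.val]; norm_num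
  rcases le_total k (1400 / 10000) with c0 | c0
  · have e : tr 0 (70 / 100) (14 / 100) (35 / 100) k = k / (14 / 100) :=
      tr_a (by norm_num) (by norm_num) (by norm_num) (by linarith only [k0]) (by linarith only [k0, k1, c0])
    have tv : (mul (mul (q 10000 1400) (var 2)) (var 3)).val [a, T, k, K] = K * tr 0 (70 / 100) (14 / 100) (35 / 100) k := by
      rw [e]; simp only [E.val, lkR]; push_cast; ring
    obtain ⟨y1, y2⟩ := hts (a := a) (T := T) (K := K) (r := tr 0 (70 / 100) (14 / 100) (35 / 100) k) (by linarith only [a0]) (by linarith only [a1])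
      (by linarith only [T0]) (by linarith only [T1]) (tr01 _ _ _ _).1
      (tr01 _ _ _ _).2 (by linarith only [K0]) (by linarith only [K1]) (by linarith only [S1])
    have Rr : Row1 (q 3 10) (mul (mul (q 10000 1400) (var 2)) (var 3)) (gU (q 3 10) (mul (mul (q 10000 1400) (var 2)) (var 3)))
      (fe 55 735 20721 9678 19055 107500 (var 1)) a T k K (3 / 10) (K * tr 0 (70 / 100) (14 / 100) (35 / 100) k)
      (fr 55 735 20721 9678 19055 107500 a T) 510 640 :=
      ⟨cv, tv, fv, gU_le cv tv, by push_cast; linarith only [S0],
        by push_cast; linarith only [S1]⟩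
    have hc : chkT (altI (q 3 10) (mul (mul (q 10000 1400) (var 2)) (var 3)) (gU (q 3 10) (mul (mul (q 10000 1400) (var 2)) (var 3))) (fe 55 735 20721 9678 19055 107500 (var 1)) 510 640 9500)
        28 2176
        [V.of 10000 5000 6000 4, V.of 10000 690 780 4, V.of 10000 700 1400 4, V.of 10000 (-240) (-110) 4] = true := by
      decide +kernel
    exact rowI1 Rr hc ⟨by push_cast; linarith only [a0], by push_cast; linarith only [a1]⟩
      ⟨by push_cast; linarith only [T0], by push_cast; linarith only [T1]⟩
      ⟨by push_cast; linarith only [a0, a1, k0, k1, c0], by push_cast; linarith only [a0, a1, k0, k1, c0]⟩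
      ⟨by push_cast; linarith only [K0], by push_cast; linarith only [K1]⟩ (by push_cast; linarith only [a0, a1, k0, k1, c0])
  rcases le_total k (3500 / 10000) with c1 | c1
  · have e : tr 0 (70 / 100) (14 / 100) (35 / 100) k = 1 :=
      tr_b (by norm_num) (by norm_num) (by linarith only [k0, k1, c0, c1]) (by linarith only [k0, k1, c0, c1])
    have tv : (var 3).val [a, T, k, K] = K * tr 0 (70 / 100) (14 / 100) (35 / 100) k := by
      rw [e]; simp only [E.val, lkR]; ring
    obtain ⟨y1, y2⟩ := hts (a := a) (T := T) (K := K) (r := tr 0 (70 / 100) (14 / 100) (35 / 100) k) (by linarith only [a0]) (by linarith only [a1])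
      (by linarith only [T0]) (by linarith only [T1]) (tr01 _ _ _ _).1
      (tr01 _ _ _ _).2 (by linarith only [K0]) (by linarith only [K1]) (by linarith only [S1])
    have Rr : Row1 (q 3 10) (var 3) (gU (q 3 10) (var 3))
      (fe 55 735 20721 9678 19055 107500 (var 1)) a T k K (3 / 10) (K * tr 0 (70 / 100) (14 / 100) (35 / 100) k)
      (fr 55 735 20721 9678 19055 107500 a T) 510 640 :=
      ⟨cv, tv, fv, gU_le cv tv, by push_cast; linarith only [S0],
        by push_cast; linarith only [S1]⟩
    have hc : chkT (altI (q 3 10) (var 3) (gU (q 3 10) (var 3)) (fe 55 735 20721 9678 19055 107500 (var 1)) 510 640 9500)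
        28 36549199906
        [V.of 10000 5000 6000 4, V.of 10000 690 780 4, V.of 10000 1400 3500 4, V.of 10000 (-240) (-110) 4] = true := by
      decide +kernel
    exact rowI1 Rr hc ⟨by push_cast; linarith only [a0], by push_cast; linarith only [a1]⟩
      ⟨by push_cast; linarith only [T0], by push_cast; linarith only [T1]⟩
      ⟨by push_cast; linarith only [a0, a1, k0, k1, c0, c1], by push_cast; linarith only [a0, a1, k0, k1, c0, c1]⟩
      ⟨by push_cast; linarith only [K0], by push_cast; linarith only [K1]⟩ (by push_cast; linarith only [a0, a1, k0, k1, c0, c1])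
  rcases le_total k (6600 / 10000) with c2 | c2
  · have e : tr 0 (70 / 100) (14 / 100) (35 / 100) k = (70 / 100 - k) / (35 / 100) :=
      tr_c (by norm_num) (by norm_num) (by norm_num) (by linarith only [k0, k1, c0, c1, c2]) (by linarith only [k0, k1, c0, c1, c2])
    have tv : (mul (mul (q 10000 3500) (sub (q 7000 10000) (var 2))) (var 3)).val [a, T, k, K] = K * tr 0 (70 / 100) (14 / 100) (35 / 100) k := by
      rw [e]; simp only [E.val, lkR]; push_cast; ring
    obtain ⟨y1, y2⟩ := hts (a := a) (T := T) (K := K) (r := tr 0 (70 / 100) (14 / 100) (35 / 100) k) (by linarith only [a0]) (by linarith only [a1])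
      (by linarith only [T0]) (by linarith only [T1]) (tr01 _ _ _ _).1
      (tr01 _ _ _ _).2 (by linarith only [K0]) (by linarith only [K1]) (by linarith only [S1])
    have Rr : Row1 (q 3 10) (mul (mul (q 10000 3500) (sub (q 7000 10000) (var 2))) (var 3)) (gU (q 3 10) (mul (mul (q 10000 3500) (sub (q 7000 10000) (var 2))) (var 3)))
      (fe 55 735 20721 9678 19055 107500 (var 1)) a T k K (3 / 10) (K * tr 0 (70 / 100) (14 / 100) (35 / 100) k)
      (fr 55 735 20721 9678 19055 107500 a T) 510 640 :=
      ⟨cv, tv, fv, gU_le cv tv, by push_cast; linarith only [S0],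
        by push_cast; linarith only [S1]⟩
    rcases le_total (a + k) (95 / 100) with d0 | d0
    · have hc : chkT (altI (q 3 10) (mul (mul (q 10000 3500) (sub (q 7000 10000) (var 2))) (var 3)) (gU (q 3 10) (mul (mul (q 10000 3500) (sub (q 7000 10000) (var 2))) (var 3))) (fe 55 735 20721 9678 19055 107500 (var 1)) 510 640 9500)
          28 929540657689561767001977260034
          [V.of 10000 5000 6000 4, V.of 10000 690 780 4, V.of 10000 3500 4500 4, V.of 10000 (-240) (-110) 4] = true := by
        decide +kernel
      exact rowI1 Rr hc ⟨by push_cast; linarith only [a0], by push_cast; linarith only [a1]⟩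
        ⟨by push_cast; linarith only [T0], by push_cast; linarith only [T1]⟩
        ⟨by push_cast; linarith only [a0, a1, k0, k1, c0, c1, c2, d0], by push_cast; linarith only [a0, a1, k0, k1, c0, c1, c2, d0]⟩
        ⟨by push_cast; linarith only [K0], by push_cast; linarith only [K1]⟩ (by push_cast; linarith only [a0, a1, k0, k1, c0, c1, c2, d0])
    · rcases le_total (a + k) (1) with d1 | d1
      · rcases le_total 0 (4 * T * (6 / 10 - a) + K * tr 0 (70 / 100) (14 / 100) (35 / 100) k) with y | y
        · have hc : chkT (altN (q 3 10) (mul (mul (q 10000 3500) (sub (q 7000 10000) (var 2))) (var 3)) (gU (q 3 10) (mul (mul (q 10000 3500) (sub (q 7000 10000) (var 2))) (var 3))) (fe 55 735 20721 9678 19055 107500 (var 1)) (q 1 1) 510 640)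
              28 160989698
              [V.of 10000 5000 6000 4, V.of 10000 690 780 4, V.of 10000 3500 5000 4, V.of 10000 (-240) (-110) 4] = true := by
            decide +kernel
          exact rowN1 Rr p1 (Or.inl rfl) hc ⟨by push_cast; linarith only [a0], by push_cast; linarith only [a1]⟩
            ⟨by push_cast; linarith only [T0], by push_cast; linarith only [T1]⟩
            ⟨by push_cast; linarith only [a0, a1, k0, k1, c0, c1, c2, d0, d1], by push_cast; linarith only [a0, a1, k0, k1, c0, c1, c2, d0, d1]⟩
            ⟨by push_cast; linarith only [K0], by push_cast; linarith only [K1]⟩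
            (by push_cast; linarith only [a0, a1, k0, k1, c0, c1, c2, d0, d1]) (by push_cast; linarith only [a0, a1, k0, k1, c0, c1, c2, d0, d1]) (by linarith only [y])
        · have hc : chkT (altN (q 3 10) (mul (mul (q 10000 3500) (sub (q 7000 10000) (var 2))) (var 3)) (gU (q 3 10) (mul (mul (q 10000 3500) (sub (q 7000 10000) (var 2))) (var 3))) (fe 55 735 20721 9678 19055 107500 (var 1)) (q (-1) 1) 510 640)
              28 10
              [V.of 10000 5000 6000 4, V.of 10000 690 780 4, V.of 10000 3500 5000 4, V.of 10000 (-240) (-110) 4] = true := by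
            decide +kernel
          exact rowN1 Rr p2 (Or.inr rfl) hc ⟨by push_cast; linarith only [a0], by push_cast; linarith only [a1]⟩
            ⟨by push_cast; linarith only [T0], by push_cast; linarith only [T1]⟩
            ⟨by push_cast; linarith only [a0, a1, k0, k1, c0, c1, c2, d0, d1], by push_cast; linarith only [a0, a1, k0, k1, c0, c1, c2, d0, d1]⟩
            ⟨by push_cast; linarith only [K0], by push_cast; linarith only [K1]⟩
            (by push_cast; linarith only [a0, a1, k0, k1, c0, c1, c2, d0, d1]) (by push_cast; linarith only [a0, a1, k0, k1, c0, c1, c2, d0, d1]) (by linarith only [y])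
      · rcases le_total (a + k) (107 / 100) with d2 | d2
        · rcases le_total 0 (4 * T * (6 / 10 - a) + K * tr 0 (70 / 100) (14 / 100) (35 / 100) k) with y | y
          · have hc : chkT (altH (q 3 10) (mul (mul (q 10000 3500) (sub (q 7000 10000) (var 2))) (var 3)) (gU (q 3 10) (mul (mul (q 10000 3500) (sub (q 7000 10000) (var 2))) (var 3))) (fe 55 735 20721 9678 19055 107500 (var 1)) (q 1 1) 510 640)
                28 9
                [V.of 10000 5000 6000 4, V.of 10000 690 780 4, V.of 10000 4000 5700 4, V.of 10000 (-240) (-110) 4] = true := by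
              decide +kernel
            exact rowH1 Rr p1 (Or.inl rfl) hc ⟨by push_cast; linarith only [a0], by push_cast; linarith only [a1]⟩
              ⟨by push_cast; linarith only [T0], by push_cast; linarith only [T1]⟩
              ⟨by push_cast; linarith only [a0, a1, k0, k1, c0, c1, c2, d0, d1, d2], by push_cast; linarith only [a0, a1, k0, k1, c0, c1, c2, d0, d1, d2]⟩
              ⟨by push_cast; linarith only [K0], by push_cast; linarith only [K1]⟩
              (by push_cast; linarith only [a0, a1, k0, k1, c0, c1, c2, d0, d1, d2]) (by push_cast; linarith only [a0, a1, k0, k1, c0, c1, c2, d0, d1, d2]) (by linarith only [y]) (by linarith only [(abs_le.1 y1).1, (abs_le.1 y1).2])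
          · have hc : chkT (altH (q 3 10) (mul (mul (q 10000 3500) (sub (q 7000 10000) (var 2))) (var 3)) (gU (q 3 10) (mul (mul (q 10000 3500) (sub (q 7000 10000) (var 2))) (var 3))) (fe 55 735 20721 9678 19055 107500 (var 1)) (q (-1) 1) 510 640)
                28 9
                [V.of 10000 5000 6000 4, V.of 10000 690 780 4, V.of 10000 4000 5700 4, V.of 10000 (-240) (-110) 4] = true := by
              decide +kernel
            exact rowH1 Rr p2 (Or.inr rfl) hc ⟨by push_cast; linarith only [a0], by push_cast; linarith only [a1]⟩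
              ⟨by push_cast; linarith only [T0], by push_cast; linarith only [T1]⟩
              ⟨by push_cast; linarith only [a0, a1, k0, k1, c0, c1, c2, d0, d1, d2], by push_cast; linarith only [a0, a1, k0, k1, c0, c1, c2, d0, d1, d2]⟩
              ⟨by push_cast; linarith only [K0], by push_cast; linarith only [K1]⟩
              (by push_cast; linarith only [a0, a1, k0, k1, c0, c1, c2, d0, d1, d2]) (by push_cast; linarith only [a0, a1, k0, k1, c0, c1, c2, d0, d1, d2]) (by linarith only [y]) (by linarith only [(abs_le.1 y1).1, (abs_le.1 y1).2])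
        · rcases le_total 0 (4 * T * (6 / 10 - a) + K * tr 0 (70 / 100) (14 / 100) (35 / 100) k) with y | y
          · have hc : chkT (altB (q 3 10) (mul (mul (q 10000 3500) (sub (q 7000 10000) (var 2))) (var 3)) (gU (q 3 10) (mul (mul (q 10000 3500) (sub (q 7000 10000) (var 2))) (var 3))) (fe 55 735 20721 9678 19055 107500 (var 1)) (q 1 1) 510 640)
                28 2401883830403586
                [V.of 10000 5000 6000 4, V.of 10000 690 780 4, V.of 10000 4700 6600 4, V.of 10000 (-240) (-110) 4] = true := by
              decide +kernel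
            exact rowB1 Rr p1 (Or.inl rfl) hc ⟨by push_cast; linarith only [a0], by push_cast; linarith only [a1]⟩
              ⟨by push_cast; linarith only [T0], by push_cast; linarith only [T1]⟩
              ⟨by push_cast; linarith only [a0, a1, k0, k1, c0, c1, c2, d0, d1, d2], by push_cast; linarith only [a0, a1, k0, k1, c0, c1, c2, d0, d1, d2]⟩
              ⟨by push_cast; linarith only [K0], by push_cast; linarith only [K1]⟩
              (by push_cast; linarith only [a0, a1, k0, k1, c0, c1, c2, d0, d1, d2]) (by linarith only [y])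
          · have hc : chkT (altB (q 3 10) (mul (mul (q 10000 3500) (sub (q 7000 10000) (var 2))) (var 3)) (gU (q 3 10) (mul (mul (q 10000 3500) (sub (q 7000 10000) (var 2))) (var 3))) (fe 55 735 20721 9678 19055 107500 (var 1)) (q (-1) 1) 510 640)
                28 9382358794754
                [V.of 10000 5000 6000 4, V.of 10000 690 780 4, V.of 10000 4700 6600 4, V.of 10000 (-240) (-110) 4] = true := by
              decide +kernel
            exact rowB1 Rr p2 (Or.inr rfl) hc ⟨by push_cast; linarith only [a0], by push_cast; linarith only [a1]⟩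
              ⟨by push_cast; linarith only [T0], by push_cast; linarith only [T1]⟩
              ⟨by push_cast; linarith only [a0, a1, k0, k1, c0, c1, c2, d0, d1, d2], by push_cast; linarith only [a0, a1, k0, k1, c0, c1, c2, d0, d1, d2]⟩
              ⟨by push_cast; linarith only [K0], by push_cast; linarith only [K1]⟩
              (by push_cast; linarith only [a0, a1, k0, k1, c0, c1, c2, d0, d1, d2]) (by linarith only [y])
  have e : tr 0 (70 / 100) (14 / 100) (35 / 100) k = (70 / 100 - k) / (35 / 100) :=
    tr_c (by norm_num) (by norm_num) (by norm_num) (by linarith only [k0, k1, c0, c1, c2]) (by linarith only [k0, k1, c0, c1, c2])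
  have tv : (mul (mul (q 10000 3500) (sub (q 7000 10000) (var 2))) (var 3)).val [a, T, k, K] = K * tr 0 (70 / 100) (14 / 100) (35 / 100) k := by
    rw [e]; simp only [E.val, lkR]; push_cast; ring
  obtain ⟨y1, y2⟩ := hts (a := a) (T := T) (K := K) (r := tr 0 (70 / 100) (14 / 100) (35 / 100) k) (by linarith only [a0]) (by linarith only [a1])
    (by linarith only [T0]) (by linarith only [T1]) (tr01 _ _ _ _).1
    (tr01 _ _ _ _).2 (by linarith only [K0]) (by linarith only [K1]) (by linarith only [S1])
  have Rr : Row1 (q 3 10) (mul (mul (q 10000 3500) (sub (q 7000 10000) (var 2))) (var 3)) (gL (mul (mul (q 10000 3500) (sub (q 7000 10000) (var 2))) (var 3)))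
    (fe 55 735 20721 9678 19055 107500 (var 1)) a T k K (3 / 10) (K * tr 0 (70 / 100) (14 / 100) (35 / 100) k)
    (fr 55 735 20721 9678 19055 107500 a T) 510 640 :=
    ⟨cv, tv, fv, gL_le tv (by linarith only [k0, k1, c0, c1, c2]) (by linarith only [k1]) y2, by push_cast; linarith only [S0],
      by push_cast; linarith only [S1]⟩
  rcases le_total 0 (4 * T * (6 / 10 - a) + K * tr 0 (70 / 100) (14 / 100) (35 / 100) k) with y | y
  · have hc : chkT (altB (q 3 10) (mul (mul (q 10000 3500) (sub (q 7000 10000) (var 2))) (var 3)) (gL (mul (mul (q 10000 3500) (sub (q 7000 10000) (var 2))) (var 3))) (fe 55 735 20721 9678 19055 107500 (var 1)) (q 1 1) 510 640)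
        28 8
        [V.of 10000 5000 6000 4, V.of 10000 690 780 4, V.of 10000 6600 7000 4, V.of 10000 (-240) (-110) 4] = true := by
      decide +kernel
    exact rowB1 Rr p1 (Or.inl rfl) hc ⟨by push_cast; linarith only [a0], by push_cast; linarith only [a1]⟩
      ⟨by push_cast; linarith only [T0], by push_cast; linarith only [T1]⟩
      ⟨by push_cast; linarith only [a0, a1, k0, k1, c0, c1, c2], by push_cast; linarith only [a0, a1, k0, k1, c0, c1, c2]⟩
      ⟨by push_cast; linarith only [K0], by push_cast; linarith only [K1]⟩
      (by push_cast; linarith only [a0, a1, k0, k1, c0, c1, c2]) (by linarith only [y])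
  · have hc : chkT (altB (q 3 10) (mul (mul (q 10000 3500) (sub (q 7000 10000) (var 2))) (var 3)) (gL (mul (mul (q 10000 3500) (sub (q 7000 10000) (var 2))) (var 3))) (fe 55 735 20721 9678 19055 107500 (var 1)) (q (-1) 1) 510 640)
        28 8
        [V.of 10000 5000 6000 4, V.of 10000 690 780 4, V.of 10000 6600 7000 4, V.of 10000 (-240) (-110) 4] = true := by
      decide +kernel
    exact rowB1 Rr p2 (Or.inr rfl) hc ⟨by push_cast; linarith only [a0], by push_cast; linarith only [a1]⟩
      ⟨by push_cast; linarith only [T0], by push_cast; linarith only [T1]⟩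
      ⟨by push_cast; linarith only [a0, a1, k0, k1, c0, c1, c2], by push_cast; linarith only [a0, a1, k0, k1, c0, c1, c2]⟩
      ⟨by push_cast; linarith only [K0], by push_cast; linarith only [K1]⟩
      (by push_cast; linarith only [a0, a1, k0, k1, c0, c1, c2]) (by linarith only [y])

end L3

end Pool.Agent.Work.MP_b30479_gt.G2
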