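import Pool.Agent.Work.MP_b30479_gt.G2.ML3s

/-!
# Value moves of a hinge `1 | 3e`: the digit `1`, other hinge `1 | 1` with the long path
-/

namespace Pool.Agent.Work.MP_b30479_gt.G2

open Finset VOL Filter Topology

namespace L3

open NumI (V lkR)
open NumU NumU.E

set_option linter.unusedTactic false

theorem d1_oneX_A {a T k K : ℝ} (a0 : 3500 / 10000 ≤ a) (a1 : a ≤ 3900 / 10000)
    (T0 : 100 / 10000 ≤ T) (T1 : T ≤ 580 / 10000) (K0 : -(610 / 10000) ≤ K)
    (K1 : K ≤ 650 / 10000) (S0 : -(110 / 10000) ≤ T + K) (S1 : T + K ≤ 1010 / 10000)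
    (k0 : 6000 / 10000 ≤ k) (k1 : k ≤ 7000 / 10000) :
    0 < D1 (3 / 10) a T k (K * tr 0 (86 / 100) (15 / 100) (20 / 100) k) +
      fr 37 400 3606 7534 751 104344 a T := by
  have cv : ((q 3 10) : E).val [a, T, k, K] = 3 / 10 := by
    simp only [E.val]; norm_num
  have fv : (fe 37 400 3606 7534 751 104344 (var 1)).val [a, T, k, K] = fr 37 400 3606 7534 751 104344 a T :=
    fe_val (by simp only [E.val, lkR])
  have p1 : ((q 1 1) : E).val [a, T, k, K] = 1 := by simp only [E.val]; norm_num
  have p2 : ((q (-1) 1) : E).val [a, T, k, K] = -1 := by simp only [E.val]; norm_num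
  rcases le_total k (6600 / 10000) with c0 | c0
  · have e : tr 0 (86 / 100) (15 / 100) (20 / 100) k = 1 :=
      tr_b (by norm_num) (by norm_num) (by linarith only [k0, k1, c0]) (by linarith only [k0, k1, c0])
    have tv : (var 3).val [a, T, k, K] = K * tr 0 (86 / 100) (15 / 100) (20 / 100) k := by
      rw [e]; simp only [E.val, lkR]; ring
    obtain ⟨y1, y2⟩ := hts (a := a) (T := T) (K := K) (r := tr 0 (86 / 100) (15 / 100) (20 / 100) k) (by linarith only [a0]) (by linarith only [a1])
      (by linarith only [T0]) (by linarith only [T1]) (tr01 _ _ _ _).1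
      (tr01 _ _ _ _).2 (by linarith only [K0]) (by linarith only [K1]) (by linarith only [S1])
    have Rr : Row1 (q 3 10) (var 3) (gU (q 3 10) (var 3))
      (fe 37 400 3606 7534 751 104344 (var 1)) a T k K (3 / 10) (K * tr 0 (86 / 100) (15 / 100) (20 / 100) k)
      (fr 37 400 3606 7534 751 104344 a T) (-110) 1010 :=
      ⟨cv, tv, fv, gU_le cv tv, by push_cast; linarith only [S0],
        by push_cast; linarith only [S1]⟩
    rcases le_total (a + k) (1) with d0 | d0
    · rcases le_total 0 (4 * T * (6 / 10 - a) + K * tr 0 (86 / 100) (15 / 100) (20 / 100) k) with y | y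
      · have hc : chkT (altN (q 3 10) (var 3) (gU (q 3 10) (var 3)) (fe 37 400 3606 7534 751 104344 (var 1)) (q 1 1) (-110) 1010)
            28 411943598387515228095961236687147812817990374706391397021704052830472217531480448434112698931
            [V.of 10000 3500 3900 4, V.of 10000 100 580 4, V.of 10000 6000 6500 4, V.of 10000 (-610) 650 4] = true := by
          decide +kernel
        exact rowN1 Rr p1 (Or.inl rfl) hc ⟨by push_cast; linarith only [a0], by push_cast; linarith only [a1]⟩
          ⟨by push_cast; linarith only [T0], by push_cast; linarith only [T1]⟩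
          ⟨by push_cast; linarith only [a0, a1, k0, k1, c0, d0], by push_cast; linarith only [a0, a1, k0, k1, c0, d0]⟩
          ⟨by push_cast; linarith only [K0], by push_cast; linarith only [K1]⟩
          (by push_cast; linarith only [a0, a1, k0, k1, c0, d0]) (by push_cast; linarith only [a0, a1, k0, k1, c0, d0]) (by linarith only [y])
      · have hc : chkT (altN (q 3 10) (var 3) (gU (q 3 10) (var 3)) (fe 37 400 3606 7534 751 104344 (var 1)) (q (-1) 1) (-110) 1010)
            28 178889491
            [V.of 10000 3500 3900 4, V.of 10000 100 580 4, V.of 10000 6000 6500 4, V.of 10000 (-610) 650 4] = true := by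
          decide +kernel
        exact rowN1 Rr p2 (Or.inr rfl) hc ⟨by push_cast; linarith only [a0], by push_cast; linarith only [a1]⟩
          ⟨by push_cast; linarith only [T0], by push_cast; linarith only [T1]⟩
          ⟨by push_cast; linarith only [a0, a1, k0, k1, c0, d0], by push_cast; linarith only [a0, a1, k0, k1, c0, d0]⟩
          ⟨by push_cast; linarith only [K0], by push_cast; linarith only [K1]⟩
          (by push_cast; linarith only [a0, a1, k0, k1, c0, d0]) (by push_cast; linarith only [a0, a1, k0, k1, c0, d0]) (by linarith only [y])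
    · rcases le_total 0 (4 * T * (6 / 10 - a) + K * tr 0 (86 / 100) (15 / 100) (20 / 100) k) with y | y
      · have hc : chkT (altH (q 3 10) (var 3) (gU (q 3 10) (var 3)) (fe 37 400 3606 7534 751 104344 (var 1)) (q 1 1) (-110) 1010)
            28 160667955
            [V.of 10000 3500 3900 4, V.of 10000 100 580 4, V.of 10000 6100 6600 4, V.of 10000 (-610) 650 4] = true := by
          decide +kernel
        exact rowH1 Rr p1 (Or.inl rfl) hc ⟨by push_cast; linarith only [a0], by push_cast; linarith only [a1]⟩
          ⟨by push_cast; linarith only [T0], by push_cast; linarith only [T1]⟩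
          ⟨by push_cast; linarith only [a0, a1, k0, k1, c0, d0], by push_cast; linarith only [a0, a1, k0, k1, c0, d0]⟩
          ⟨by push_cast; linarith only [K0], by push_cast; linarith only [K1]⟩
          (by push_cast; linarith only [a0, a1, k0, k1, c0, d0]) (by push_cast; linarith only [a0, a1, k0, k1, c0, d0]) (by linarith only [y]) (by linarith only [(abs_le.1 y1).1, (abs_le.1 y1).2])
      · have hc : chkT (altH (q 3 10) (var 3) (gU (q 3 10) (var 3)) (fe 37 400 3606 7534 751 104344 (var 1)) (q (-1) 1) (-110) 1010)
            28 629043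
            [V.of 10000 3500 3900 4, V.of 10000 100 580 4, V.of 10000 6100 6600 4, V.of 10000 (-610) 650 4] = true := by
          decide +kernel
        exact rowH1 Rr p2 (Or.inr rfl) hc ⟨by push_cast; linarith only [a0], by push_cast; linarith only [a1]⟩
          ⟨by push_cast; linarith only [T0], by push_cast; linarith only [T1]⟩
          ⟨by push_cast; linarith only [a0, a1, k0, k1, c0, d0], by push_cast; linarith only [a0, a1, k0, k1, c0, d0]⟩
          ⟨by push_cast; linarith only [K0], by push_cast; linarith only [K1]⟩
          (by push_cast; linarith only [a0, a1, k0, k1, c0, d0]) (by push_cast; linarith only [a0, a1, k0, k1, c0, d0]) (by linarith only [y]) (by linarith only [(abs_le.1 y1).1, (abs_le.1 y1).2])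
  have e : tr 0 (86 / 100) (15 / 100) (20 / 100) k = (86 / 100 - k) / (20 / 100) :=
    tr_c (by norm_num) (by norm_num) (by norm_num) (by linarith only [k0, k1, c0]) (by linarith only [k0, k1, c0])
  have tv : (mul (mul (q 10000 2000) (sub (q 8600 10000) (var 2))) (var 3)).val [a, T, k, K] = K * tr 0 (86 / 100) (15 / 100) (20 / 100) k := by
    rw [e]; simp only [E.val, lkR]; push_cast; ring
  obtain ⟨y1, y2⟩ := hts (a := a) (T := T) (K := K) (r := tr 0 (86 / 100) (15 / 100) (20 / 100) k) (by linarith only [a0]) (by linarith only [a1])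
    (by linarith only [T0]) (by linarith only [T1]) (tr01 _ _ _ _).1
    (tr01 _ _ _ _).2 (by linarith only [K0]) (by linarith only [K1]) (by linarith only [S1])
  have Rr : Row1 (q 3 10) (mul (mul (q 10000 2000) (sub (q 8600 10000) (var 2))) (var 3)) (gL (mul (mul (q 10000 2000) (sub (q 8600 10000) (var 2))) (var 3)))
    (fe 37 400 3606 7534 751 104344 (var 1)) a T k K (3 / 10) (K * tr 0 (86 / 100) (15 / 100) (20 / 100) k)
    (fr 37 400 3606 7534 751 104344 a T) (-110) 1010 :=
    ⟨cv, tv, fv, gL_le tv (by linarith only [k0, k1, c0]) (by linarith only [k1]) y2, by push_cast; linarith only [S0],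
      by push_cast; linarith only [S1]⟩
  rcases le_total (a + k) (107 / 100) with d0 | d0
  · rcases le_total 0 (4 * T * (6 / 10 - a) + K * tr 0 (86 / 100) (15 / 100) (20 / 100) k) with y | y
    · have hc : chkT (altH (q 3 10) (mul (mul (q 10000 2000) (sub (q 8600 10000) (var 2))) (var 3)) (gL (mul (mul (q 10000 2000) (sub (q 8600 10000) (var 2))) (var 3))) (fe 37 400 3606 7534 751 104344 (var 1)) (q 1 1) (-110) 1010)
          28 2451
          [V.of 10000 3500 3900 4, V.of 10000 100 580 4, V.of 10000 6600 7000 4, V.of 10000 (-610) 650 4] = true := by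
        decide +kernel
      exact rowH1 Rr p1 (Or.inl rfl) hc ⟨by push_cast; linarith only [a0], by push_cast; linarith only [a1]⟩
        ⟨by push_cast; linarith only [T0], by push_cast; linarith only [T1]⟩
        ⟨by push_cast; linarith only [a0, a1, k0, k1, c0, d0], by push_cast; linarith only [a0, a1, k0, k1, c0, d0]⟩
        ⟨by push_cast; linarith only [K0], by push_cast; linarith only [K1]⟩
        (by push_cast; linarith only [a0, a1, k0, k1, c0, d0]) (by push_cast; linarith only [a0, a1, k0, k1, c0, d0]) (by linarith only [y]) (by linarith only [(abs_le.1 y1).1, (abs_le.1 y1).2])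
    · have hc : chkT (altH (q 3 10) (mul (mul (q 10000 2000) (sub (q 8600 10000) (var 2))) (var 3)) (gL (mul (mul (q 10000 2000) (sub (q 8600 10000) (var 2))) (var 3))) (fe 37 400 3606 7534 751 104344 (var 1)) (q (-1) 1) (-110) 1010)
          28 1221724254944110130697010272156011949084502705844793554253011736812250415772795465207918899
          [V.of 10000 3500 3900 4, V.of 10000 100 580 4, V.of 10000 6600 7000 4, V.of 10000 (-610) 650 4] = true := by
        decide +kernel
      exact rowH1 Rr p2 (Or.inr rfl) hc ⟨by push_cast; linarith only [a0], by push_cast; linarith only [a1]⟩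
        ⟨by push_cast; linarith only [T0], by push_cast; linarith only [T1]⟩
        ⟨by push_cast; linarith only [a0, a1, k0, k1, c0, d0], by push_cast; linarith only [a0, a1, k0, k1, c0, d0]⟩
        ⟨by push_cast; linarith only [K0], by push_cast; linarith only [K1]⟩
        (by push_cast; linarith only [a0, a1, k0, k1, c0, d0]) (by push_cast; linarith only [a0, a1, k0, k1, c0, d0]) (by linarith only [y]) (by linarith only [(abs_le.1 y1).1, (abs_le.1 y1).2])
  · rcases le_total 0 (4 * T * (6 / 10 - a) + K * tr 0 (86 / 100) (15 / 100) (20 / 100) k) with y | y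
    · have hc : chkT (altB (q 3 10) (mul (mul (q 10000 2000) (sub (q 8600 10000) (var 2))) (var 3)) (gL (mul (mul (q 10000 2000) (sub (q 8600 10000) (var 2))) (var 3))) (fe 37 400 3606 7534 751 104344 (var 1)) (q 1 1) (-110) 1010)
          28 614807322117046579
          [V.of 10000 3500 3900 4, V.of 10000 100 580 4, V.of 10000 6800 7000 4, V.of 10000 (-610) 650 4] = true := by
        decide +kernel
      exact rowB1 Rr p1 (Or.inl rfl) hc ⟨by push_cast; linarith only [a0], by push_cast; linarith only [a1]⟩
        ⟨by push_cast; linarith only [T0], by push_cast; linarith only [T1]⟩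
        ⟨by push_cast; linarith only [a0, a1, k0, k1, c0, d0], by push_cast; linarith only [a0, a1, k0, k1, c0, d0]⟩
        ⟨by push_cast; linarith only [K0], by push_cast; linarith only [K1]⟩
        (by push_cast; linarith only [a0, a1, k0, k1, c0, d0]) (by linarith only [y])
    · have hc : chkT (altB (q 3 10) (mul (mul (q 10000 2000) (sub (q 8600 10000) (var 2))) (var 3)) (gL (mul (mul (q 10000 2000) (sub (q 8600 10000) (var 2))) (var 3))) (fe 37 400 3606 7534 751 104344 (var 1)) (q (-1) 1) (-110) 1010)
          28 157380682103135088947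
          [V.of 10000 3500 3900 4, V.of 10000 100 580 4, V.of 10000 6800 7000 4, V.of 10000 (-610) 650 4] = true := by
        decide +kernel
      exact rowB1 Rr p2 (Or.inr rfl) hc ⟨by push_cast; linarith only [a0], by push_cast; linarith only [a1]⟩
        ⟨by push_cast; linarith only [T0], by push_cast; linarith only [T1]⟩
        ⟨by push_cast; linarith only [a0, a1, k0, k1, c0, d0], by push_cast; linarith only [a0, a1, k0, k1, c0, d0]⟩
        ⟨by push_cast; linarith only [K0], by push_cast; linarith only [K1]⟩
        (by push_cast; linarith only [a0, a1, k0, k1, c0, d0]) (by linarith only [y])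

theorem d1_oneX_B {a T k K : ℝ} (a0 : 3900 / 10000 ≤ a) (a1 : a ≤ 5000 / 10000)
    (T0 : 100 / 10000 ≤ T) (T1 : T ≤ 580 / 10000) (K0 : -(610 / 10000) ≤ K)
    (K1 : K ≤ 650 / 10000) (S0 : -(110 / 10000) ≤ T + K) (S1 : T + K ≤ 1010 / 10000)
    (k0 : 6000 / 10000 ≤ k) (k1 : k ≤ 7000 / 10000) :
    0 < D1 (3 / 10) a T k (K * tr 0 (86 / 100) (15 / 100) (20 / 100) k) +
      fr 45 400 9516 7121 10921 163227 a T := by
  have cv : ((q 3 10) : E).val [a, T, k, K] = 3 / 10 := by
    simp only [E.val]; norm_num
  have fv : (fe 45 400 9516 7121 10921 163227 (var 1)).val [a, T, k, K] = fr 45 400 9516 7121 10921 163227 a T :=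
    fe_val (by simp only [E.val, lkR])
  have p1 : ((q 1 1) : E).val [a, T, k, K] = 1 := by simp only [E.val]; norm_num
  have p2 : ((q (-1) 1) : E).val [a, T, k, K] = -1 := by simp only [E.val]; norm_num
  rcases le_total k (6600 / 10000) with c0 | c0
  · have e : tr 0 (86 / 100) (15 / 100) (20 / 100) k = 1 :=
      tr_b (by norm_num) (by norm_num) (by linarith only [k0, k1, c0]) (by linarith only [k0, k1, c0])
    have tv : (var 3).val [a, T, k, K] = K * tr 0 (86 / 100) (15 / 100) (20 / 100) k := by
      rw [e]; simp only [E.val, lkR]; ring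
    obtain ⟨y1, y2⟩ := hts (a := a) (T := T) (K := K) (r := tr 0 (86 / 100) (15 / 100) (20 / 100) k) (by linarith only [a0]) (by linarith only [a1])
      (by linarith only [T0]) (by linarith only [T1]) (tr01 _ _ _ _).1
      (tr01 _ _ _ _).2 (by linarith only [K0]) (by linarith only [K1]) (by linarith only [S1])
    have Rr : Row1 (q 3 10) (var 3) (gU (q 3 10) (var 3))
      (fe 45 400 9516 7121 10921 163227 (var 1)) a T k K (3 / 10) (K * tr 0 (86 / 100) (15 / 100) (20 / 100) k)
      (fr 45 400 9516 7121 10921 163227 a T) (-110) 1010 :=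
      ⟨cv, tv, fv, gU_le cv tv, by push_cast; linarith only [S0],
        by push_cast; linarith only [S1]⟩
    rcases le_total (a + k) (1) with d0 | d0
    · rcases le_total 0 (4 * T * (6 / 10 - a) + K * tr 0 (86 / 100) (15 / 100) (20 / 100) k) with y | y
      · have hc : chkT (altN (q 3 10) (var 3) (gU (q 3 10) (var 3)) (fe 45 400 9516 7121 10921 163227 (var 1)) (q 1 1) (-110) 1010)
            28 2451
            [V.of 10000 3900 5000 4, V.of 10000 100 580 4, V.of 10000 6000 6100 4, V.of 10000 (-610) 650 4] = true := by
          decide +kernel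
        exact rowN1 Rr p1 (Or.inl rfl) hc ⟨by push_cast; linarith only [a0], by push_cast; linarith only [a1]⟩
          ⟨by push_cast; linarith only [T0], by push_cast; linarith only [T1]⟩
          ⟨by push_cast; linarith only [a0, a1, k0, k1, c0, d0], by push_cast; linarith only [a0, a1, k0, k1, c0, d0]⟩
          ⟨by push_cast; linarith only [K0], by push_cast; linarith only [K1]⟩
          (by push_cast; linarith only [a0, a1, k0, k1, c0, d0]) (by push_cast; linarith only [a0, a1, k0, k1, c0, d0]) (by linarith only [y])
      · have hc : chkT (altN (q 3 10) (var 3) (gU (q 3 10) (var 3)) (fe 45 400 9516 7121 10921 163227 (var 1)) (q (-1) 1) (-110) 1010)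
            28 9
            [V.of 10000 3900 5000 4, V.of 10000 100 580 4, V.of 10000 6000 6100 4, V.of 10000 (-610) 650 4] = true := by
          decide +kernel
        exact rowN1 Rr p2 (Or.inr rfl) hc ⟨by push_cast; linarith only [a0], by push_cast; linarith only [a1]⟩
          ⟨by push_cast; linarith only [T0], by push_cast; linarith only [T1]⟩
          ⟨by push_cast; linarith only [a0, a1, k0, k1, c0, d0], by push_cast; linarith only [a0, a1, k0, k1, c0, d0]⟩
          ⟨by push_cast; linarith only [K0], by push_cast; linarith only [K1]⟩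
          (by push_cast; linarith only [a0, a1, k0, k1, c0, d0]) (by push_cast; linarith only [a0, a1, k0, k1, c0, d0]) (by linarith only [y])
    · rcases le_total (a + k) (107 / 100) with d1 | d1
      · rcases le_total 0 (4 * T * (6 / 10 - a) + K * tr 0 (86 / 100) (15 / 100) (20 / 100) k) with y | y
        · have hc : chkT (altH (q 3 10) (var 3) (gU (q 3 10) (var 3)) (fe 45 400 9516 7121 10921 163227 (var 1)) (q 1 1) (-110) 1010)
              28 627603
              [V.of 10000 3900 5000 4, V.of 10000 100 580 4, V.of 10000 6000 6600 4, V.of 10000 (-610) 650 4] = true := by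
            decide +kernel
          exact rowH1 Rr p1 (Or.inl rfl) hc ⟨by push_cast; linarith only [a0], by push_cast; linarith only [a1]⟩
            ⟨by push_cast; linarith only [T0], by push_cast; linarith only [T1]⟩
            ⟨by push_cast; linarith only [a0, a1, k0, k1, c0, d0, d1], by push_cast; linarith only [a0, a1, k0, k1, c0, d0, d1]⟩
            ⟨by push_cast; linarith only [K0], by push_cast; linarith only [K1]⟩
            (by push_cast; linarith only [a0, a1, k0, k1, c0, d0, d1]) (by push_cast; linarith only [a0, a1, k0, k1, c0, d0, d1]) (by linarith only [y]) (by linarith only [(abs_le.1 y1).1, (abs_le.1 y1).2])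
        · have hc : chkT (altH (q 3 10) (var 3) (gU (q 3 10) (var 3)) (fe 45 400 9516 7121 10921 163227 (var 1)) (q (-1) 1) (-110) 1010)
              28 2451
              [V.of 10000 3900 5000 4, V.of 10000 100 580 4, V.of 10000 6000 6600 4, V.of 10000 (-610) 650 4] = true := by
            decide +kernel
          exact rowH1 Rr p2 (Or.inr rfl) hc ⟨by push_cast; linarith only [a0], by push_cast; linarith only [a1]⟩
            ⟨by push_cast; linarith only [T0], by push_cast; linarith only [T1]⟩
            ⟨by push_cast; linarith only [a0, a1, k0, k1, c0, d0, d1], by push_cast; linarith only [a0, a1, k0, k1, c0, d0, d1]⟩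
            ⟨by push_cast; linarith only [K0], by push_cast; linarith only [K1]⟩
            (by push_cast; linarith only [a0, a1, k0, k1, c0, d0, d1]) (by push_cast; linarith only [a0, a1, k0, k1, c0, d0, d1]) (by linarith only [y]) (by linarith only [(abs_le.1 y1).1, (abs_le.1 y1).2])
      · rcases le_total 0 (4 * T * (6 / 10 - a) + K * tr 0 (86 / 100) (15 / 100) (20 / 100) k) with y | y
        · have hc : chkT (altB (q 3 10) (var 3) (gU (q 3 10) (var 3)) (fe 45 400 9516 7121 10921 163227 (var 1)) (q 1 1) (-110) 1010)
              28 674526848967416388756388757536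
              [V.of 10000 3900 5000 4, V.of 10000 100 580 4, V.of 10000 6000 6600 4, V.of 10000 (-610) 650 4] = true := by
            decide +kernel
          exact rowB1 Rr p1 (Or.inl rfl) hc ⟨by push_cast; linarith only [a0], by push_cast; linarith only [a1]⟩
            ⟨by push_cast; linarith only [T0], by push_cast; linarith only [T1]⟩
            ⟨by push_cast; linarith only [a0, a1, k0, k1, c0, d0, d1], by push_cast; linarith only [a0, a1, k0, k1, c0, d0, d1]⟩
            ⟨by push_cast; linarith only [K0], by push_cast; linarith only [K1]⟩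
            (by push_cast; linarith only [a0, a1, k0, k1, c0, d0, d1]) (by linarith only [y])
        · have hc : chkT (altB (q 3 10) (var 3) (gU (q 3 10) (var 3)) (fe 45 400 9516 7121 10921 163227 (var 1)) (q (-1) 1) (-110) 1010)
              28 40291406932545473610288
              [V.of 10000 3900 5000 4, V.of 10000 100 580 4, V.of 10000 6000 6600 4, V.of 10000 (-610) 650 4] = true := by
            decide +kernel
          exact rowB1 Rr p2 (Or.inr rfl) hc ⟨by push_cast; linarith only [a0], by push_cast; linarith only [a1]⟩
            ⟨by push_cast; linarith only [T0], by push_cast; linarith only [T1]⟩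
            ⟨by push_cast; linarith only [a0, a1, k0, k1, c0, d0, d1], by push_cast; linarith only [a0, a1, k0, k1, c0, d0, d1]⟩
            ⟨by push_cast; linarith only [K0], by push_cast; linarith only [K1]⟩
            (by push_cast; linarith only [a0, a1, k0, k1, c0, d0, d1]) (by linarith only [y])
  have e : tr 0 (86 / 100) (15 / 100) (20 / 100) k = (86 / 100 - k) / (20 / 100) :=
    tr_c (by norm_num) (by norm_num) (by norm_num) (by linarith only [k0, k1, c0]) (by linarith only [k0, k1, c0])
  have tv : (mul (mul (q 10000 2000) (sub (q 8600 10000) (var 2))) (var 3)).val [a, T, k, K] = K * tr 0 (86 / 100) (15 / 100) (20 / 100) k := by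
    rw [e]; simp only [E.val, lkR]; push_cast; ring
  obtain ⟨y1, y2⟩ := hts (a := a) (T := T) (K := K) (r := tr 0 (86 / 100) (15 / 100) (20 / 100) k) (by linarith only [a0]) (by linarith only [a1])
    (by linarith only [T0]) (by linarith only [T1]) (tr01 _ _ _ _).1
    (tr01 _ _ _ _).2 (by linarith only [K0]) (by linarith only [K1]) (by linarith only [S1])
  have Rr : Row1 (q 3 10) (mul (mul (q 10000 2000) (sub (q 8600 10000) (var 2))) (var 3)) (gL (mul (mul (q 10000 2000) (sub (q 8600 10000) (var 2))) (var 3)))
    (fe 45 400 9516 7121 10921 163227 (var 1)) a T k K (3 / 10) (K * tr 0 (86 / 100) (15 / 100) (20 / 100) k)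
    (fr 45 400 9516 7121 10921 163227 a T) (-110) 1010 :=
    ⟨cv, tv, fv, gL_le tv (by linarith only [k0, k1, c0]) (by linarith only [k1]) y2, by push_cast; linarith only [S0],
      by push_cast; linarith only [S1]⟩
  rcases le_total (a + k) (107 / 100) with d0 | d0
  · rcases le_total 0 (4 * T * (6 / 10 - a) + K * tr 0 (86 / 100) (15 / 100) (20 / 100) k) with y | y
    · have hc : chkT (altH (q 3 10) (mul (mul (q 10000 2000) (sub (q 8600 10000) (var 2))) (var 3)) (gL (mul (mul (q 10000 2000) (sub (q 8600 10000) (var 2))) (var 3))) (fe 45 400 9516 7121 10921 163227 (var 1)) (q 1 1) (-110) 1010)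
          28 2451
          [V.of 10000 3900 5000 4, V.of 10000 100 580 4, V.of 10000 6600 6800 4, V.of 10000 (-610) 650 4] = true := by
        decide +kernel
      exact rowH1 Rr p1 (Or.inl rfl) hc ⟨by push_cast; linarith only [a0], by push_cast; linarith only [a1]⟩
        ⟨by push_cast; linarith only [T0], by push_cast; linarith only [T1]⟩
        ⟨by push_cast; linarith only [a0, a1, k0, k1, c0, d0], by push_cast; linarith only [a0, a1, k0, k1, c0, d0]⟩
        ⟨by push_cast; linarith only [K0], by push_cast; linarith only [K1]⟩
        (by push_cast; linarith only [a0, a1, k0, k1, c0, d0]) (by push_cast; linarith only [a0, a1, k0, k1, c0, d0]) (by linarith only [y]) (by linarith only [(abs_le.1 y1).1, (abs_le.1 y1).2])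
    · have hc : chkT (altH (q 3 10) (mul (mul (q 10000 2000) (sub (q 8600 10000) (var 2))) (var 3)) (gL (mul (mul (q 10000 2000) (sub (q 8600 10000) (var 2))) (var 3))) (fe 45 400 9516 7121 10921 163227 (var 1)) (q (-1) 1) (-110) 1010)
          28 3832384490516496
          [V.of 10000 3900 5000 4, V.of 10000 100 580 4, V.of 10000 6600 6800 4, V.of 10000 (-610) 650 4] = true := by
        decide +kernel
      exact rowH1 Rr p2 (Or.inr rfl) hc ⟨by push_cast; linarith only [a0], by push_cast; linarith only [a1]⟩
        ⟨by push_cast; linarith only [T0], by push_cast; linarith only [T1]⟩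
        ⟨by push_cast; linarith only [a0, a1, k0, k1, c0, d0], by push_cast; linarith only [a0, a1, k0, k1, c0, d0]⟩
        ⟨by push_cast; linarith only [K0], by push_cast; linarith only [K1]⟩
        (by push_cast; linarith only [a0, a1, k0, k1, c0, d0]) (by push_cast; linarith only [a0, a1, k0, k1, c0, d0]) (by linarith only [y]) (by linarith only [(abs_le.1 y1).1, (abs_le.1 y1).2])
  · rcases le_total 0 (4 * T * (6 / 10 - a) + K * tr 0 (86 / 100) (15 / 100) (20 / 100) k) with y | y
    · have hc : chkT (altB (q 3 10) (mul (mul (q 10000 2000) (sub (q 8600 10000) (var 2))) (var 3)) (gL (mul (mul (q 10000 2000) (sub (q 8600 10000) (var 2))) (var 3))) (fe 45 400 9516 7121 10921 163227 (var 1)) (q 1 1) (-110) 1010)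
          28 143145008
          [V.of 10000 3900 5000 4, V.of 10000 100 580 4, V.of 10000 6600 7000 4, V.of 10000 (-610) 650 4] = true := by
        decide +kernel
      exact rowB1 Rr p1 (Or.inl rfl) hc ⟨by push_cast; linarith only [a0], by push_cast; linarith only [a1]⟩
        ⟨by push_cast; linarith only [T0], by push_cast; linarith only [T1]⟩
        ⟨by push_cast; linarith only [a0, a1, k0, k1, c0, d0], by push_cast; linarith only [a0, a1, k0, k1, c0, d0]⟩
        ⟨by push_cast; linarith only [K0], by push_cast; linarith only [K1]⟩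
        (by push_cast; linarith only [a0, a1, k0, k1, c0, d0]) (by linarith only [y])
    · have hc : chkT (altB (q 3 10) (mul (mul (q 10000 2000) (sub (q 8600 10000) (var 2))) (var 3)) (gL (mul (mul (q 10000 2000) (sub (q 8600 10000) (var 2))) (var 3))) (fe 45 400 9516 7121 10921 163227 (var 1)) (q (-1) 1) (-110) 1010)
          28 157051922627951788336
          [V.of 10000 3900 5000 4, V.of 10000 100 580 4, V.of 10000 6600 7000 4, V.of 10000 (-610) 650 4] = true := by
        decide +kernel
      exact rowB1 Rr p2 (Or.inr rfl) hc ⟨by push_cast; linarith only [a0], by push_cast; linarith only [a1]⟩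
        ⟨by push_cast; linarith only [T0], by push_cast; linarith only [T1]⟩
        ⟨by push_cast; linarith only [a0, a1, k0, k1, c0, d0], by push_cast; linarith only [a0, a1, k0, k1, c0, d0]⟩
        ⟨by push_cast; linarith only [K0], by push_cast; linarith only [K1]⟩
        (by push_cast; linarith only [a0, a1, k0, k1, c0, d0]) (by linarith only [y])

theorem d1_oneX_C {a T k K : ℝ} (a0 : 5000 / 10000 ≤ a) (a1 : a ≤ 6000 / 10000)
    (T0 : 100 / 10000 ≤ T) (T1 : T ≤ 580 / 10000) (K0 : -(610 / 10000) ≤ K)
    (K1 : K ≤ 650 / 10000) (S0 : -(110 / 10000) ≤ T + K) (S1 : T + K ≤ 1010 / 10000)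
    (k0 : 6000 / 10000 ≤ k) (k1 : k ≤ 7000 / 10000) :
    0 < D1 (3 / 10) a T k (K * tr 0 (86 / 100) (15 / 100) (20 / 100) k) +
      fr 55 400 16147 5733 20145 196602 a T := by
  have cv : ((q 3 10) : E).val [a, T, k, K] = 3 / 10 := by
    simp only [E.val]; norm_num
  have fv : (fe 55 400 16147 5733 20145 196602 (var 1)).val [a, T, k, K] = fr 55 400 16147 5733 20145 196602 a T :=
    fe_val (by simp only [E.val, lkR])
  have p1 : ((q 1 1) : E).val [a, T, k, K] = 1 := by simp only [E.val]; norm_num
  have p2 : ((q (-1) 1) : E).val [a, T, k, K] = -1 := by simp only [E.val]; norm_num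
  rcases le_total k (6600 / 10000) with c0 | c0
  · have e : tr 0 (86 / 100) (15 / 100) (20 / 100) k = 1 :=
      tr_b (by norm_num) (by norm_num) (by linarith only [k0, k1, c0]) (by linarith only [k0, k1, c0])
    have tv : (var 3).val [a, T, k, K] = K * tr 0 (86 / 100) (15 / 100) (20 / 100) k := by
      rw [e]; simp only [E.val, lkR]; ring
    obtain ⟨y1, y2⟩ := hts (a := a) (T := T) (K := K) (r := tr 0 (86 / 100) (15 / 100) (20 / 100) k) (by linarith only [a0]) (by linarith only [a1])
      (by linarith only [T0]) (by linarith only [T1]) (tr01 _ _ _ _).1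
      (tr01 _ _ _ _).2 (by linarith only [K0]) (by linarith only [K1]) (by linarith only [S1])
    have Rr : Row1 (q 3 10) (var 3) (gU (q 3 10) (var 3))
      (fe 55 400 16147 5733 20145 196602 (var 1)) a T k K (3 / 10) (K * tr 0 (86 / 100) (15 / 100) (20 / 100) k)
      (fr 55 400 16147 5733 20145 196602 a T) (-110) 1010 :=
      ⟨cv, tv, fv, gU_le cv tv, by push_cast; linarith only [S0],
        by push_cast; linarith only [S1]⟩
    rcases le_total 0 (4 * T * (6 / 10 - a) + K * tr 0 (86 / 100) (15 / 100) (20 / 100) k) with y | y
    · have hc : chkT (altB (q 3 10) (var 3) (gU (q 3 10) (var 3)) (fe 55 400 16147 5733 20145 196602 (var 1)) (q 1 1) (-110) 1010)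
          28 2179
          [V.of 10000 5000 6000 4, V.of 10000 100 580 4, V.of 10000 6000 6600 4, V.of 10000 (-610) 650 4] = true := by
        decide +kernel
      exact rowB1 Rr p1 (Or.inl rfl) hc ⟨by push_cast; linarith only [a0], by push_cast; linarith only [a1]⟩
        ⟨by push_cast; linarith only [T0], by push_cast; linarith only [T1]⟩
        ⟨by push_cast; linarith only [a0, a1, k0, k1, c0], by push_cast; linarith only [a0, a1, k0, k1, c0]⟩
        ⟨by push_cast; linarith only [K0], by push_cast; linarith only [K1]⟩
        (by push_cast; linarith only [a0, a1, k0, k1, c0]) (by linarith only [y])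
    · have hc : chkT (altB (q 3 10) (var 3) (gU (q 3 10) (var 3)) (fe 55 400 16147 5733 20145 196602 (var 1)) (q (-1) 1) (-110) 1010)
          28 2179
          [V.of 10000 5000 6000 4, V.of 10000 100 580 4, V.of 10000 6000 6600 4, V.of 10000 (-610) 650 4] = true := by
        decide +kernel
      exact rowB1 Rr p2 (Or.inr rfl) hc ⟨by push_cast; linarith only [a0], by push_cast; linarith only [a1]⟩
        ⟨by push_cast; linarith only [T0], by push_cast; linarith only [T1]⟩
        ⟨by push_cast; linarith only [a0, a1, k0, k1, c0], by push_cast; linarith only [a0, a1, k0, k1, c0]⟩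
        ⟨by push_cast; linarith only [K0], by push_cast; linarith only [K1]⟩
        (by push_cast; linarith only [a0, a1, k0, k1, c0]) (by linarith only [y])
  have e : tr 0 (86 / 100) (15 / 100) (20 / 100) k = (86 / 100 - k) / (20 / 100) :=
    tr_c (by norm_num) (by norm_num) (by norm_num) (by linarith only [k0, k1, c0]) (by linarith only [k0, k1, c0])
  have tv : (mul (mul (q 10000 2000) (sub (q 8600 10000) (var 2))) (var 3)).val [a, T, k, K] = K * tr 0 (86 / 100) (15 / 100) (20 / 100) k := by
    rw [e]; simp only [E.val, lkR]; push_cast; ring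
  obtain ⟨y1, y2⟩ := hts (a := a) (T := T) (K := K) (r := tr 0 (86 / 100) (15 / 100) (20 / 100) k) (by linarith only [a0]) (by linarith only [a1])
    (by linarith only [T0]) (by linarith only [T1]) (tr01 _ _ _ _).1
    (tr01 _ _ _ _).2 (by linarith only [K0]) (by linarith only [K1]) (by linarith only [S1])
  have Rr : Row1 (q 3 10) (mul (mul (q 10000 2000) (sub (q 8600 10000) (var 2))) (var 3)) (gL (mul (mul (q 10000 2000) (sub (q 8600 10000) (var 2))) (var 3)))
    (fe 55 400 16147 5733 20145 196602 (var 1)) a T k K (3 / 10) (K * tr 0 (86 / 100) (15 / 100) (20 / 100) k)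
    (fr 55 400 16147 5733 20145 196602 a T) (-110) 1010 :=
    ⟨cv, tv, fv, gL_le tv (by linarith only [k0, k1, c0]) (by linarith only [k1]) y2, by push_cast; linarith only [S0],
      by push_cast; linarith only [S1]⟩
  rcases le_total 0 (4 * T * (6 / 10 - a) + K * tr 0 (86 / 100) (15 / 100) (20 / 100) k) with y | y
  · have hc : chkT (altB (q 3 10) (mul (mul (q 10000 2000) (sub (q 8600 10000) (var 2))) (var 3)) (gL (mul (mul (q 10000 2000) (sub (q 8600 10000) (var 2))) (var 3))) (fe 55 400 16147 5733 20145 196602 (var 1)) (q 1 1) (-110) 1010)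
        28 8
        [V.of 10000 5000 6000 4, V.of 10000 100 580 4, V.of 10000 6600 7000 4, V.of 10000 (-610) 650 4] = true := by
      decide +kernel
    exact rowB1 Rr p1 (Or.inl rfl) hc ⟨by push_cast; linarith only [a0], by push_cast; linarith only [a1]⟩
      ⟨by push_cast; linarith only [T0], by push_cast; linarith only [T1]⟩
      ⟨by push_cast; linarith only [a0, a1, k0, k1, c0], by push_cast; linarith only [a0, a1, k0, k1, c0]⟩
      ⟨by push_cast; linarith only [K0], by push_cast; linarith only [K1]⟩
      (by push_cast; linarith only [a0, a1, k0, k1, c0]) (by linarith only [y])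
  · have hc : chkT (altB (q 3 10) (mul (mul (q 10000 2000) (sub (q 8600 10000) (var 2))) (var 3)) (gL (mul (mul (q 10000 2000) (sub (q 8600 10000) (var 2))) (var 3))) (fe 55 400 16147 5733 20145 196602 (var 1)) (q (-1) 1) (-110) 1010)
        28 8
        [V.of 10000 5000 6000 4, V.of 10000 100 580 4, V.of 10000 6600 7000 4, V.of 10000 (-610) 650 4] = true := by
      decide +kernel
    exact rowB1 Rr p2 (Or.inr rfl) hc ⟨by push_cast; linarith only [a0], by push_cast; linarith only [a1]⟩
      ⟨by push_cast; linarith only [T0], by push_cast; linarith only [T1]⟩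
      ⟨by push_cast; linarith only [a0, a1, k0, k1, c0], by push_cast; linarith only [a0, a1, k0, k1, c0]⟩
      ⟨by push_cast; linarith only [K0], by push_cast; linarith only [K1]⟩
      (by push_cast; linarith only [a0, a1, k0, k1, c0]) (by linarith only [y])

end L3

end Pool.Agent.Work.MP_b30479_gt.G2
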