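import Pool.Agent.Work.MP_b30479_gt.G2.MLA
import Pool.Agent.Work.MP_b30479_gt.G2.C5Defs

/-!
# The left ramps: monotonicity in the height of the partner
-/

namespace Pool.Agent.Work.MP_b30479_gt.G2

open Real Set VOL NumI

theorem HH_eq {a : ℝ} (b m : ℝ) (h0 : 0 < a) (h1 : a < 1) :
    HH a b m = LL (lv a b) + π * b + m * (π * a + YY (lv a b)) := by
  unfold HH
  rw [LL_lv _ h0 h1, YY_lv _ h0 h1]
  ring

theorem hasDerivAt_lv_im (a b : ℝ) : HasDerivAt (fun b : ℝ => lv a b) Complex.I b := by
  unfold lv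
  have h1 : HasDerivAt (fun b : ℝ => (b : ℂ) * Complex.I) (1 * Complex.I) b :=
    (Complex.ofRealCLM.hasDerivAt (x := b)).mul_const Complex.I
  rw [one_mul] at h1
  exact h1.const_add _

theorem hasDerivAt_HH {a b : ℝ} (m : ℝ) (h0 : 0 < a) (h1 : a < 1) :
    HasDerivAt (fun b => HH a b m) (SS (lv a b) + π - m * CC (lv a b)) b := by
  have e : (fun b => HH a b m) = fun b => LL (lv a b) + π * b + m * (π * a + YY (lv a b)) := by
    funext b
    exact HH_eq b m h0 h1
  rw [e]
  have hg := hasDerivAt_lv_im a b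
  have hs : lv a b ∈ strip := lv_strip b h0 h1
  have k1 := hasDerivAt_LL' hg (Or.inr hs)
  have k2 := hasDerivAt_YY hg (Or.inr hs)
  have k3 := (k1.add ((hasDerivAt_id' b).const_mul π)).add ((k2.const_add (π * a)).const_mul m)
  refine k3.congr_deriv ?_
  rw [Complex.I_re, Complex.I_im]
  ring

/-- on a vertical line `HH` increases above a point where the derivative is not negative -/
theorem HH_mono {a b0 b : ℝ} (m : ℝ) (h0 : 0 < a) (h1 : a < 1) (hb : b0 ≤ b)
    (hc : cos (2 * π * a) + m * sin (2 * π * a) ≤ exp (2 * π * b0)) :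
    HH a b0 m ≤ HH a b m := by
  have hpi := pi_pos
  have hmono : MonotoneOn (fun b => HH a b m) (Ici b0) := by
    apply monotoneOn_of_deriv_nonneg (convex_Ici b0)
    · exact fun z _ => (hasDerivAt_HH m h0 h1).continuousAt.continuousWithinAt
    · exact fun z _ => (hasDerivAt_HH m h0 h1).differentiableAt.differentiableWithinAt
    · intro z hz
      rw [interior_Ici] at hz
      rw [(hasDerivAt_HH m h0 h1).deriv]
      have hp := cosh_sub_cos_pos (u := lv a z) (sin_ne_of_strip (lv_strip z h0 h1))
      unfold SS CC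
      rw [lv_re, lv_im] at *
      have hz' : b0 ≤ z := le_of_lt hz
      have e1 : exp (2 * π * b0) ≤ exp (2 * π * z) :=
        exp_le_exp.2 (mul_le_mul_of_nonneg_left hz' (by positivity))
      have e2 : exp (2 * π * z) = cosh (2 * π * z) + sinh (2 * π * z) := (cosh_add_sinh _).symm
      have e3 : π * (sinh (2 * π * z) / (cosh (2 * π * z) - cos (2 * π * a))) + π -
          m * (π * (sin (2 * π * a) / (cosh (2 * π * z) - cos (2 * π * a)))) =
          π * ((cosh (2 * π * z) + sinh (2 * π * z) - (cos (2 * π * a) + m * sin (2 * π * a))) /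
            (cosh (2 * π * z) - cos (2 * π * a))) := by
        have hne := hp.ne'
        rw [show cosh (2 * π * z) + sinh (2 * π * z) - (cos (2 * π * a) + m * sin (2 * π * a)) =
          sinh (2 * π * z) + (cosh (2 * π * z) - cos (2 * π * a)) - m * sin (2 * π * a) by ring]
        generalize cosh (2 * π * z) - cos (2 * π * a) = D at hne hp ⊢
        field_simp
      rw [e3]
      apply mul_nonneg hpi.le
      apply div_nonneg _ hp.le
      rw [← e2]
      linarith
  exact hmono self_mem_Ici hb hb

theorem lnA_one_sub (a b : ℝ) : lnA (1 - a) b = lnA a b := Num.A_one_sub a b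

theorem lnB_one_sub (a b : ℝ) : lnB (1 - a) b = -lnB a b := Num.B_one_sub a b

theorem g0_neg (m : ℝ) : g0 (-m) = g0 m := by
  unfold g0
  rw [arctan_neg]
  ring_nf

/-- lower bound on a vertical line, real part above `1 / 2` -/
theorem HH_low' {a : ℝ} (b m : ℝ) (ha : 1 / 2 < a) (ha' : a < 1) :
    log (sin (2 * π * (1 - a))) + (2 * π * a - π) * m + g0 m ≤ HH a b m := by
  have h := HH_low (a := 1 - a) b (-m) (by linarith) (by linarith)
  rw [g0_neg] at h
  unfold HH at *
  rw [lnA_one_sub, lnB_one_sub] at h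
  linarith

end Pool.Agent.Work.MP_b30479_gt.G2
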