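import Pool.Agent.Work.MP_b30479_gt.G2.MLR

/-!
# The left ramps: rows in the neighbourhood of the wall
-/

namespace Pool.Agent.Work.MP_b30479_gt.G2

open Real Set VOL NumI

namespace ML

theorem g0_nonpos (m : ℝ) : g0 m ≤ 0 := by
  have h := log_cos_le (m := m) (ψ := 0) (by linarith only [pi_pos]) (by linarith only [pi_pos])
  rw [cos_zero, log_one] at h
  unfold g0
  linarith only [h]

theorem NN_le {x μ : ℝ} (h0 : 0 < x) (h1 : x ≤ 1 / 50) (hm : |μ| ≤ 132 / 100) :
    NN x μ ≤ log (2 * π * x) + g0 μ + 1 / 50 := HH_small h0 h1 hm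

theorem log_two_pi_le {x : ℝ} (h0 : 0 < x) (h1 : x ≤ 1 / 50) :
    log (2 * π * x) ≤ log (π / 25) := by
  have := pi_pos
  apply log_le_log (by positivity)
  nlinarith only [h1, this]

/-- the sine on a short interval -/
theorem sin_short {x y : ℝ} (h0 : 0 < x) (h1 : x ≤ 1 / 50) (h2 : 0 ≤ y) (h3 : y ≤ 47 / 100) :
    log (sin (π * (2 * (y + 1 / 50)))) - log (π / 25) ≤
      log (sin (π * (2 * (x + y)))) - log (2 * π * x) := by
  have hpi := pi_pos
  have a1 : 0 < sin (π * (2 * (y + 1 / 50))) :=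
    sin_pos_of_pos_of_lt_pi (by positivity) (by nlinarith only [h0, hpi, h1, h3])
  have a2 : 0 < sin (π * (2 * (x + y))) :=
    sin_pos_of_pos_of_lt_pi (by positivity) (by nlinarith only [h0, hpi, h1, h3])
  have a3 : 0 ≤ sin (π * (2 * y)) := sin_nonneg_of_nonneg_of_le_pi (by positivity) (by nlinarith only [h0, hpi, h1, h3])
  have m1 : π * (2 * y) ∈ Icc 0 π := ⟨by positivity, by nlinarith only [h0, hpi, h1, h3]⟩
  have m2 : π * (2 * (y + 1 / 50)) ∈ Icc 0 π := ⟨by positivity, by nlinarith only [h0, hpi, h1, h3]⟩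
  have hc := strictConcaveOn_sin_Icc.concaveOn.2 m1 m2
    (show 0 ≤ 1 - 50 * x by linarith only [h1]) (show 0 ≤ 50 * x by linarith only [h0]) (by ring)
  simp only [smul_eq_mul] at hc
  have e : (1 - 50 * x) * (π * (2 * y)) + 50 * x * (π * (2 * (y + 1 / 50))) =
      π * (2 * (x + y)) := by ring
  rw [e] at hc
  have h4 : 50 * x * sin (π * (2 * (y + 1 / 50))) ≤ sin (π * (2 * (x + y))) := by
    have := mul_nonneg (show 0 ≤ 1 - 50 * x by linarith only [h1]) a3
    linarith only [hc, this]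
  rw [← log_div a1.ne' (by positivity), ← log_div a2.ne' (by positivity)]
  apply log_le_log (by positivity)
  rw [div_le_div_iff₀ (by positivity) (by positivity)]
  have h5 := mul_le_mul_of_nonneg_right h4 (show 0 ≤ π / 25 by positivity)
  linarith only [h5]

/-- the sine close to the wall -/
theorem sin_close {x y : ℝ} (h0 : 0 < x) (h1 : x ≤ 1 / 50) (h2 : 7 / 9 * x ≤ y)
    (h3 : y ≤ 3 / 100) :
    53 / 100 ≤ log (sin (π * (2 * (x + y)))) - log (2 * π * x) := by
  have hpi := pi_pos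
  have hpi4 : π < 3.1416 := pi_lt_d4
  have hs0 : 0 < x + y := by linarith only [h0, h2]
  have hs1 : x + y ≤ 1 / 20 := by linarith only [h1, h3]
  set z := π * (2 * (x + y)) with hz
  have hz0 : 0 < z := by positivity
  have hz1 : z ≤ 0.31416 := by
    rw [hz]
    nlinarith only [h3, hpi4, h0, h1, hpi, h2]
  have a2 : 0 < sin z := sin_pos_of_pos_of_lt_pi hz0 (by linarith only [h0, h1, hz1, pi_gt_d4])
  have b1 := sin_gt_sub_cube hz0
  have b2 : z * (975 / 1000) ≤ sin z := by
    have h5 : z ^ 2 ≤ 0.31416 ^ 2 := pow_le_pow_left₀ hz0.le hz1 2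
    have h6 : z ^ 3 / 6 = z * (z ^ 2 / 6) := by ring
    rw [h6] at b1
    norm_num at h5
    nlinarith only [hz1, h0, a2, b1, h1, hz0]
  have h7 : 2 * π * x * (17 / 10) ≤ sin z := by
    refine le_trans ?_ b2
    rw [hz]
    have : x * (17 / 10) ≤ (x + y) * (975 / 1000) := by linarith only [h0, h2]
    nlinarith only [h0, hz0, h1, h2, hpi]
  rw [← log_div a2.ne' (by positivity)]
  have h8 : 17 / 10 ≤ sin z / (2 * π * x) := by
    rw [le_div_iff₀ (by positivity)]
    linarith only [h7]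
  have h9 : log (17 / 10) ≤ log (sin z / (2 * π * x)) := log_le_log (by norm_num) h8
  have h10 : (53 : ℝ) / 100 ≤ log (17 / 10) := by
    rw [le_log_iff_exp_le (by norm_num)]
    have h11 := exp_one_lt_d9
    have h12 : exp (53 / 100) ^ 100 = exp 1 ^ 53 := by
      rw [← exp_nat_mul, ← exp_nat_mul]
      norm_num
    by_contra hc
    push Not at hc
    have h13 : (17 / 10 : ℝ) ^ 100 < exp (53 / 100) ^ 100 :=
      pow_lt_pow_left₀ hc (by norm_num) (by norm_num)
    have h14 : exp 1 ^ 53 ≤ (2.7182818286 : ℝ) ^ 53 :=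
      pow_le_pow_left₀ (exp_pos 1).le h11.le 53
    rw [h12] at h13
    have h15 : (2.7182818286 : ℝ) ^ 53 < (17 / 10 : ℝ) ^ 100 := by norm_num
    linarith only [h0, h1, h13, h14]
  linarith only [h9, h10]


/-! ### the expressions; variables `x μ y`, `x ≤ 1 / 50` -/

open E

/-- `j (log (π / 25) + 1 / 50)` -/
def nW (j : ℕ) : E := mul (q j 1) (add (E.log (mul (q 1 25) E.pi)) (q 1 50))

def nS (j : ℕ) (c : E) : E :=
  add (sub (sub (E.log (sinPi (mul (q 2 1) (add (var 2) (q 1 50)))))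
      (mul E.pi (mul (q (2 * j - 2) 1) (mul (var 0) (var 1))))) (nW j))
    (mul (var 1) (add (mul (mul (q 2 1) E.pi) (var 2)) (sub c (mul (q 1 j) E.pi))))

def n0 (c : E) : E :=
  add (q 51 100) (mul (var 1) (add (mul (mul (q 2 1) E.pi) (var 2)) (sub c E.pi)))

def nF (j : ℕ) (c k : E) : E :=
  lt (mul (var 0) (var 1)) (lt (add (var 0) (var 2)) (lt (add (var 3) k)
   (add (sub (add (E.lnA (var 4) (var 5))
      (mul E.pi (sub k (mul (q (2 * j - 2) 1) (var 3))))) (nW j))
    (mul (var 1) (add (sub (mul E.pi (var 2)) (E.lnB (var 4) (var 5)))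
      (sub c (mul (q 1 j) E.pi)))))))

def nP (j : ℕ) (c : E) : E :=
  add (sub (sub (E.log (sinPi (mul (q 2 1) (sub (q 1 1) (add (var 0) (var 2))))))
      (mul E.pi (mul (q (2 * j - 2) 1) (mul (var 0) (var 1))))) (nW j))
    (mul (var 1) (add (mul E.pi (sub (mul (q 2 1) (var 2)) (q 1 1))) (sub c (mul (q 1 j) E.pi))))

/-- the clauses of a row at the wall -/
def rowN (j : ℕ) (c : E) (e a : ℤ) : List (List E) :=
  [[sub (q 47 100) (var 2), sub (nS j c) (q e 1000)],
   [sub (q 1 1) (q (j - 1) 1), sub (q 3 100) (var 2), sub (n0 c) (q e 1000)],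
   [sub (nF j c (q a 1000)) (q e 1000), rC (q a 1000)],
   [sub (add (var 0) (var 2)) (q 1 2), sub (nP j c) (q e 1000)]]

variable {j : ℕ} {p ca cb e a m0 m1 y0 y1 : ℤ} {x μ y k c : ℝ} {T : Tr}

theorem nW_val (xs : List ℝ) : (nW j).val xs = j * (Real.log (π / 25) + 1 / 50) := by
  simp only [nW, val]
  push_cast
  rw [show (1 : ℝ) / 25 * π = π / 25 by ring]
  ring

/-- the side in terms of a lower bound of `HH` near the wall -/
theorem sd_wall (hj : j = 1 ∨ j = 2) (h0 : 0 < x) (h1 : x ≤ 1 / 50) (hμ : |μ| ≤ 132 / 100)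
    (c : ℝ) : HH (x + y) (x * μ + k) μ - j * (Real.log (π / 25) + 1 / 50) - j * (2 * π * (x * μ)) +
      (c - π / j) * μ ≤ sd j c x μ y k := by
  have h2 := NN_le h0 h1 hμ
  have h3 := log_two_pi_le h0 h1
  have h4 := g0_nonpos μ
  unfold sd
  rcases hj with rfl | rfl
  · push_cast
    linarith only [h2, h3, h4]
  · push_cast
    linarith only [h2, h3, h4]

/-- **Soundness of a row at the wall.** -/
theorem rowN_of (hj : j = 1 ∨ j = 2) (h : runT (rowN j (cE p ca cb) e a) T
      (bx 0 20 m0 m1 y0 y1) = true) (h0 : 0 < x) (h1 : x ≤ 1 / 50) (hμ : |μ| ≤ 132 / 100)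
    (hm : (m0 : ℝ) / 10000 ≤ μ ∧ μ ≤ (m1 : ℝ) / 10000)
    (hy : (y0 : ℝ) / 1000 ≤ y ∧ y ≤ (y1 : ℝ) / 1000)
    (h0' : 0 < y) (hs : x + y < 1) (ha : (a : ℝ) / 1000 ≤ k) (hr : j = 1 → 7 / 9 * x ≤ y) :
    (e : ℝ) / 1000 < sd j (cR p ca cb x) x μ y k := by
  obtain ⟨cl, hcl, hp⟩ := runT3 h (by norm_num) (rg (p := 0) (z := x) (by push_cast; linarith only [h0]))
    (rg' (p := 20) (z := x) (by push_cast; linarith only [h1])) (rm hm.1) (rm' hm.2) (rg hy.1) (rg' hy.2)
  have hw := sd_wall (y := y) (k := k) hj h0 h1 hμ (cR p ca cb x)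
  simp only [rowN, List.mem_cons, List.not_mem_nil, or_false] at hcl
  rcases hcl with rfl | rfl | rfl | rfl
  · have p1 := hp _ List.mem_cons_self
    have p2 := hp _ (List.mem_cons_of_mem _ List.mem_cons_self)
    simp only [nS, val, lkR_zero, lkR_succ, cE_val, nW_val] at p1 p2
    push_cast at p1
    have h2 := NN_le h0 h1 hμ
    have h3 := log_two_pi_le h0 h1
    have h4 := g0_nonpos μ
    have h5 := sin_short h0 h1 h0'.le (by linarith only [p1])
    have h6 := HH_low (a := x + y) (x * μ + k) μ (by linarith only [h0, h0']) (by linarith only [h0, h1, p1])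
    have e1 : 2 * π * (x + y) = π * (2 * (x + y)) := by ring
    rw [e1] at h6
    have e2 : π * (((2 : ℤ) : ℝ) / ((1 : ℕ) : ℝ) * (y + ((1 : ℤ) : ℝ) / ((50 : ℕ) : ℝ))) =
        π * (2 * (y + 1 / 50)) := by push_cast; ring
    rw [e2] at p2
    unfold sd
    rcases hj with rfl | rfl
    · push_cast at p2 ⊢
      linarith only [h2, h5, h6, p2]
    · push_cast at p2 ⊢
      linarith only [h2, h3, h4, h5, h6, p2]
  · have p0 := hp _ List.mem_cons_self
    have p1 := hp _ (List.mem_cons_of_mem _ List.mem_cons_self)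
    have p2 := hp _ (List.mem_cons_of_mem _ (List.mem_cons_of_mem _ List.mem_cons_self))
    simp only [n0, val, lkR_zero, lkR_succ, cE_val] at p0 p1 p2
    rcases hj with rfl | rfl
    · push_cast at p1 p2
      have h2 := NN_le h0 h1 hμ
      have h5 := sin_close h0 h1 (hr rfl) (by linarith only [p1])
      have h6 := HH_low (a := x + y) (x * μ + k) μ (by linarith only [h0, h0']) (by linarith only [h0, h1, p1])
      have e1 : 2 * π * (x + y) = π * (2 * (x + y)) := by ring
      rw [e1] at h6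
      unfold sd
      push_cast
      linarith only [p2, h2, h5, h6]
    · exfalso
      norm_num at p0
  · have p1 := hp _ List.mem_cons_self
    have p2 := hp _ (List.mem_cons_of_mem _ List.mem_cons_self)
    simp only [nF, val, lkR_zero, lkR_succ, List.cons_append, List.nil_append, cE_val, nW_val] at p1
    have h3 := rC_val _ x μ y ((a : ℝ) / 1000) (by simp [val]) p2
    have h4 := sd_mono (j := j) (cR p ca cb x) h0 h0' hs ha h3
    have h7 := sd_wall (y := y) (k := (a : ℝ) / 1000) hj h0 h1 hμ (cR p ca cb x)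
    unfold HH at h7
    rcases hj with rfl | rfl
    · push_cast at p1 h7 h4 ⊢
      linarith only [h4, p1, h7]
    · push_cast at p1 h7 h4 ⊢
      linarith only [h4, h7, p1]
  · have p1 := hp _ List.mem_cons_self
    have p2 := hp _ (List.mem_cons_of_mem _ List.mem_cons_self)
    simp only [nP, val, lkR_zero, lkR_succ, cE_val, nW_val] at p1 p2
    push_cast at p1
    have h2 := NN_le h0 h1 hμ
    have h3 := log_two_pi_le h0 h1
    have h4 := g0_nonpos μ
    have h6 := HH_low' (a := x + y) (x * μ + k) μ (by linarith only [p1]) hs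
    have e2 : π * (((2 : ℤ) : ℝ) / ((1 : ℕ) : ℝ) * (((1 : ℤ) : ℝ) / ((1 : ℕ) : ℝ) - (x + y))) =
        2 * π * (1 - (x + y)) := by push_cast; ring
    rw [e2] at p2
    unfold sd
    rcases hj with rfl | rfl
    · push_cast at p2 ⊢
      linarith only [h2, h3, h6, p2]
    · push_cast at p2 ⊢
      linarith only [h2, h3, h4, h6, p2]

/-! ### the side of an end -/

/-- variables `x μ` -/
def eE (c : E) : E :=
  lt (mul (var 0) (var 1))
   (sub (mul (var 1) (sub (add (E.lnB (var 0) (var 2)) c) (mul (q 1 2) E.pi)))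
     (add (E.lnA (var 0) (var 2)) (mul (mul (q 2 1) E.pi) (var 2))))

def nE (c : E) : E :=
  sub (sub (mul (var 1) (sub c (mul (q 1 2) E.pi))) (mul (mul (q 2 1) E.pi)
    (mul (var 0) (var 1)))) (nW 1)

/-- shift, variables `x μ` -/
theorem cE_val2 (x μ : ℝ) (t : List ℝ) : (cE p ca cb).val (x :: μ :: t) = cR p ca cb x := by
  simp only [cE, cR, val, lkR_zero]
  push_cast
  ring

variable {x0 x1 : ℤ}

theorem rowE_of (h : runT [[sub (eE (cE p ca cb)) (q e 1000)]] T
      [V.of 10000 (10 * x0) (10 * x1) 4, V.of 10000 m0 m1 4] = true)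
    (hx : (x0 : ℝ) / 1000 ≤ x ∧ x ≤ (x1 : ℝ) / 1000)
    (hm : (m0 : ℝ) / 10000 ≤ μ ∧ μ ≤ (m1 : ℝ) / 10000) :
    (e : ℝ) / 1000 < sE (cR p ca cb x) x μ := by
  obtain ⟨cl, hcl, hp⟩ := runT2 h (by norm_num) (rg hx.1) (rg' hx.2) (rm hm.1) (rm' hm.2)
  simp only [List.mem_cons, List.not_mem_nil, or_false] at hcl
  subst hcl
  have p1 := hp _ List.mem_cons_self
  simp only [eE, val, lkR_zero, lkR_succ, List.cons_append, List.nil_append, cE_val2] at p1
  unfold sE NN
  push_cast at p1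
  linarith only [p1]

theorem rowNE_of (h : runT [[sub (nE (cE p ca cb)) (q e 1000)]] T
      [V.of 10000 (10 * 0) (10 * 20) 4, V.of 10000 m0 m1 4] = true)
    (h0 : 0 < x) (h1 : x ≤ 1 / 50) (hμ : |μ| ≤ 132 / 100)
    (hm : (m0 : ℝ) / 10000 ≤ μ ∧ μ ≤ (m1 : ℝ) / 10000) :
    (e : ℝ) / 1000 < sE (cR p ca cb x) x μ := by
  obtain ⟨cl, hcl, hp⟩ := runT2 h (by norm_num) (rg (p := 0) (z := x) (by push_cast; linarith only [h0]))
    (rg' (p := 20) (z := x) (by push_cast; linarith only [h1])) (rm hm.1) (rm' hm.2)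
  simp only [List.mem_cons, List.not_mem_nil, or_false] at hcl
  subst hcl
  have p1 := hp _ List.mem_cons_self
  simp only [nE, val, lkR_zero, lkR_succ, cE_val2, nW_val] at p1
  have h2 := NN_le h0 h1 hμ
  have h3 := log_two_pi_le h0 h1
  have h4 := g0_nonpos μ
  unfold sE
  push_cast at p1
  linarith only [h2, h3, h4, p1]

end ML

end Pool.Agent.Work.MP_b30479_gt.G2
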