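import Pool.Agent.Work.MP_b30479_gt.G2.MLM
import Pool.Agent.Work.MP_b30479_gt.G2.MLT
import Pool.Agent.Work.MP_b30479_gt.G2.MPWall
import Pool.Agent.Work.MP_b30479_gt.G2.RLev

/-!
# The left ramps: rows with certificates

Everything is in the own frame of the region (digit `1` or `2`) whose side is estimated; `x`, `μ`:
position and slope of the own hinge, `y`, `k`: position and height of the other hinge.
-/

namespace Pool.Agent.Work.MP_b30479_gt.G2

open Real Set VOL NumI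

namespace ML

/-- `Re ((1 + i μ) log (2 sin π x (1 + i μ)))` -/
noncomputable def NN (x μ : ℝ) : ℝ := lnA x (x * μ) - μ * lnB x (x * μ)

/-- the side of a digit `j` with the shift `c` -/
noncomputable def sd (j : ℕ) (c x μ y k : ℝ) : ℝ :=
  HH (x + y) (x * μ + k) μ - j * (NN x μ + 2 * π * (x * μ)) + (c - π / j) * μ

/-- the side of a digit `2` at an end with the shift `c` -/
noncomputable def sE (c x μ : ℝ) : ℝ := -(NN x μ + 2 * π * (x * μ)) + (c - π / 2) * μ

theorem S1_sd {x μ y k : ℝ} (c : ℝ) (hx : 0 < x) (hy : 0 < y) (hs : x + y < 1) :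
    S1 1 μ (lv x (x * μ)) (lv y k) + c * μ = sd 1 c x μ y k := by
  unfold S1 sd HH NN
  rw [lv_add, LL_lv _ (by linarith only [hx, hy]) hs, LL_lv _ hx (by linarith only [hy, hs]), YY_lv _ (by linarith only [hx, hy]) hs,
    YY_lv _ hx (by linarith only [hy, hs]), lv_re, lv_im]
  push_cast
  ring

theorem S2_sd {x μ y k : ℝ} (c : ℝ) (hx : 0 < x) (hy : 0 < y) (hs : x + y < 1) :
    S2 1 μ (lv x (x * μ)) (lv y k) + c * μ = sd 2 c x μ y k := by
  unfold S2 sd HH NN
  rw [lv_add, LL_lv _ (by linarith only [hx, hy]) hs, LL_lv _ hx (by linarith only [hy, hs]), YY_lv _ (by linarith only [hx, hy]) hs,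
    YY_lv _ hx (by linarith only [hy, hs]), lv_re, lv_im, lv_re, lv_im]
  push_cast
  ring

theorem S2_sE {x μ : ℝ} (c : ℝ) (hx : 0 < x) (hs : x < 1) :
    S2 1 μ (lv x (x * μ)) 0 + c * μ = sE c x μ := by
  unfold S2 sE NN
  rw [add_zero, LL_lv _ hx hs, YY_lv _ hx hs, lv_re, lv_im]
  simp only [Complex.zero_im, Complex.zero_re]
  ring

/-! ### the expressions; variables `x μ y` -/

open E

/-- shift `p / 2 π + a / 1000 - b / 1000 x` -/
def cE (p a b : ℤ) : E := sub (add (mul (q p 2) E.pi) (q a 1000)) (mul (q b 1000) (var 0))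

/-- real shift -/
noncomputable def cR (p a b : ℤ) (x : ℝ) : ℝ := (p : ℝ) / 2 * π + (a : ℝ) / 1000 - (b : ℝ) / 1000 * x

/-- `s / 1000 - l / 1000 μ` -/
def kE (s l : ℤ) : E := sub (q s 1000) (mul (q l 1000) (var 1))

/-- the side with partner at height `k`; `3 = x μ`, `4 = x + y`, `5 = x μ + k` -/
def rF (j : ℕ) (c k : E) : E :=
  lt (mul (var 0) (var 1)) (lt (add (var 0) (var 2)) (lt (add (var 3) k)
   (add (add (sub (E.lnA (var 4) (var 5)) (mul (q j 1) (E.lnA (var 0) (var 3))))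
      (mul E.pi (sub k (mul (q (2 * j - 2) 1) (var 3)))))
    (mul (var 1) (add (add (sub (mul E.pi (var 2)) (E.lnB (var 4) (var 5)))
      (mul (q j 1) (E.lnB (var 0) (var 3)))) (sub c (mul (q 1 j) E.pi)))))))

/-- the condition of monotonicity -/
def rC (k : E) : E :=
  lt (mul (q 2 1) (add (var 0) (var 2)))
   (sub (E.exp (mul (mul (q 2 1) E.pi) (add (mul (var 0) (var 1)) k)))
     (add (cosPi (var 3)) (mul (var 1) (sinPi (var 3)))))

/-- vertical minimum, `x + y < 1 / 2` -/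
def rL (j : ℕ) (c : E) : E :=
  lt (mul (var 0) (var 1)) (lt (add (var 0) (var 2))
   (add (add (sub (E.log (sinPi (mul (q 2 1) (var 4)))) (mul (q j 1) (E.lnA (var 0) (var 3))))
      (sub (sub (mul (q 1 2) (E.log (add (q 1 1) (sq (var 1))))) (mul (var 1) (E.atan (var 1))))
        (mul E.pi (mul (q (2 * j - 2) 1) (var 3)))))
    (mul (var 1) (add (add (mul (mul (q 2 1) E.pi) (var 2)) (mul (q j 1) (E.lnB (var 0) (var 3))))
      (sub c (mul (q 1 j) E.pi))))))

/-- vertical minimum, `1 / 2 < x + y` -/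
def rP (j : ℕ) (c : E) : E :=
  lt (mul (var 0) (var 1)) (lt (add (var 0) (var 2))
   (add (add (sub (E.log (sinPi (mul (q 2 1) (sub (q 1 1) (var 4)))))
        (mul (q j 1) (E.lnA (var 0) (var 3))))
      (sub (sub (mul (q 1 2) (E.log (add (q 1 1) (sq (var 1))))) (mul (var 1) (E.atan (var 1))))
        (mul E.pi (mul (q (2 * j - 2) 1) (var 3)))))
    (mul (var 1) (add (add (mul E.pi (sub (mul (q 2 1) (var 2)) (q 1 1)))
      (mul (q j 1) (E.lnB (var 0) (var 3)))) (sub c (mul (q 1 j) E.pi))))))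

/-- the clauses of a row: partner at height at least `a / 1000` and `s / 1000 - l / 1000 μ`, bound
`e / 1000`, escape `y < ra / rb x` -/
def row (j : ℕ) (c : E) (e a s l ra : ℤ) (rb : ℕ) : List (List E) :=
  [[sub (rF j c (q a 1000)) (q e 1000), rC (q a 1000)],
   [sub (rF j c (kE s l)) (q e 1000), rC (kE s l)],
   [sub (q 1 2) (add (var 0) (var 2)), sub (rL j c) (q e 1000)],
   [sub (add (var 0) (var 2)) (q 1 2), sub (rP j c) (q e 1000)],
   [sub (mul (q ra rb) (var 0)) (var 2)]]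

/-- box -/
def bx (x0 x1 m0 m1 y0 y1 : ℤ) : List V :=
  [V.of 10000 (10 * x0) (10 * x1) 4, V.of 10000 m0 m1 4, V.of 10000 (10 * y0) (10 * y1) 4]

/-! ### soundness -/

variable {j rb : ℕ} {p ca cb e a s l ra x0 x1 m0 m1 y0 y1 : ℤ} {x μ y k c : ℝ} {T : Tr}

theorem rg {p : ℤ} {z : ℝ} (h : (p : ℝ) / 1000 ≤ z) :
    (((10 * p : ℤ) : ℝ)) / ((10000 : ℕ) : ℝ) ≤ z := by
  push_cast
  linarith only [h]

theorem rg' {p : ℤ} {z : ℝ} (h : z ≤ (p : ℝ) / 1000) :
    z ≤ (((10 * p : ℤ) : ℝ)) / ((10000 : ℕ) : ℝ) := by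
  push_cast
  linarith only [h]

theorem rm {p : ℤ} {z : ℝ} (h : (p : ℝ) / 10000 ≤ z) : (p : ℝ) / ((10000 : ℕ) : ℝ) ≤ z := by
  push_cast
  linarith only [h]

theorem rm' {p : ℤ} {z : ℝ} (h : z ≤ (p : ℝ) / 10000) : z ≤ (p : ℝ) / ((10000 : ℕ) : ℝ) := by
  push_cast
  linarith only [h]

theorem cE_val (x μ y : ℝ) (t : List ℝ) : (cE p ca cb).val (x :: μ :: y :: t) = cR p ca cb x := by
  simp only [cE, cR, val, lkR_zero]
  push_cast
  ring

theorem rC_val (kk : E) (x μ y κ : ℝ) (hk : kk.val [x, μ, y, 2 * (x + y)] = κ)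
    (h : 0 < (rC kk).val [x, μ, y]) :
    cos (2 * π * (x + y)) + μ * sin (2 * π * (x + y)) ≤ Real.exp (2 * π * (x * μ + κ)) := by
  unfold rC at h
  simp only [val, lkR_zero, lkR_succ, List.cons_append, List.nil_append] at h
  push_cast at h
  norm_num at h
  rw [hk] at h
  have e1 : π * (2 * (x + y)) = 2 * π * (x + y) := by ring
  rw [e1] at h
  linarith only [h]

theorem rF_val (kk : E) (x μ y κ : ℝ) (hj : j = 1 ∨ j = 2)
    (hk : kk.val [x, μ, y, x * μ, x + y] = κ) (hk' : kk.val [x, μ, y, x * μ, x + y, x * μ + κ] = κ) :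
    (rF j (cE p ca cb) kk).val [x, μ, y] = sd j (cR p ca cb x) x μ y κ := by
  unfold rF
  simp only [val, lkR_zero, lkR_succ, List.cons_append, List.nil_append, cE_val]
  rw [hk, hk']
  unfold sd HH NN
  rcases hj with rfl | rfl
  · push_cast
    ring
  · push_cast
    ring

theorem rL_val (x μ y : ℝ) (hj : j = 1 ∨ j = 2) :
    (rL j (cE p ca cb)).val [x, μ, y] = log (sin (2 * π * (x + y))) + 2 * π * (x + y) * μ + g0 μ -
      j * (NN x μ + 2 * π * (x * μ)) + (cR p ca cb x - π / j) * μ := by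
  unfold rL
  simp only [val, lkR_zero, lkR_succ, List.cons_append, List.nil_append, cE_val]
  have e1 : π * (((2 : ℤ) : ℝ) / ((1 : ℕ) : ℝ) * (x + y)) = 2 * π * (x + y) := by push_cast; ring
  rw [e1]
  unfold g0 NN
  rcases hj with rfl | rfl
  · push_cast
    rw [show (1 : ℝ) / 1 + μ ^ 2 = 1 + μ ^ 2 by norm_num]
    ring
  · push_cast
    rw [show (1 : ℝ) / 1 + μ ^ 2 = 1 + μ ^ 2 by norm_num]
    ring

theorem rP_val (x μ y : ℝ) (hj : j = 1 ∨ j = 2) :
    (rP j (cE p ca cb)).val [x, μ, y] = log (sin (2 * π * (1 - (x + y)))) +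
      (2 * π * (x + y) - π) * μ + g0 μ -
      j * (NN x μ + 2 * π * (x * μ)) + (cR p ca cb x - π / j) * μ := by
  unfold rP
  simp only [val, lkR_zero, lkR_succ, List.cons_append, List.nil_append, cE_val]
  have e1 : π * (((2 : ℤ) : ℝ) / ((1 : ℕ) : ℝ) * (((1 : ℤ) : ℝ) / ((1 : ℕ) : ℝ) - (x + y))) =
      2 * π * (1 - (x + y)) := by push_cast; ring
  rw [e1]
  unfold g0 NN
  rcases hj with rfl | rfl
  · push_cast
    rw [show (1 : ℝ) / 1 + μ ^ 2 = 1 + μ ^ 2 by norm_num]
    ring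
  · push_cast
    rw [show (1 : ℝ) / 1 + μ ^ 2 = 1 + μ ^ 2 by norm_num]
    ring

theorem sd_mono (c : ℝ) (hx : 0 < x) (hy : 0 < y) (hs : x + y < 1) {κ : ℝ} (hk : κ ≤ k)
    (h : cos (2 * π * (x + y)) + μ * sin (2 * π * (x + y)) ≤ Real.exp (2 * π * (x * μ + κ))) :
    sd j c x μ y κ ≤ sd j c x μ y k := by
  unfold sd
  have := HH_mono μ (by linarith only [hx, hy]) hs (show x * μ + κ ≤ x * μ + k by linarith only [hk]) h
  linarith only [this]

/-- **Soundness of a row.** -/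
theorem row_of (hj : j = 1 ∨ j = 2) (h : runT (row j (cE p ca cb) e a s l ra rb) T
      (bx x0 x1 m0 m1 y0 y1) = true)
    (hx : (x0 : ℝ) / 1000 ≤ x ∧ x ≤ (x1 : ℝ) / 1000)
    (hm : (m0 : ℝ) / 10000 ≤ μ ∧ μ ≤ (m1 : ℝ) / 10000)
    (hy : (y0 : ℝ) / 1000 ≤ y ∧ y ≤ (y1 : ℝ) / 1000)
    (h0 : 0 < x) (h0' : 0 < y) (hs : x + y < 1) (ha : (a : ℝ) / 1000 ≤ k)
    (hb : (s : ℝ) / 1000 - (l : ℝ) / 1000 * μ ≤ k) (hr : (ra : ℝ) / rb * x ≤ y) :
    (e : ℝ) / 1000 < sd j (cR p ca cb x) x μ y k := by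
  obtain ⟨cl, hcl, hp⟩ := runT3 h (by norm_num) (rg hx.1) (rg' hx.2) (rm hm.1) (rm' hm.2)
    (rg hy.1) (rg' hy.2)
  simp only [row, List.mem_cons, List.not_mem_nil, or_false] at hcl
  rcases hcl with rfl | rfl | rfl | rfl | rfl
  · have h1 := hp _ List.mem_cons_self
    have h2 := hp _ (List.mem_cons_of_mem _ List.mem_cons_self)
    rw [E.val, rF_val _ x μ y ((a : ℝ) / 1000) hj (by simp [val]) (by simp [val])] at h1
    have h3 := rC_val _ x μ y ((a : ℝ) / 1000) (by simp [val]) h2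
    simp only [val] at h1
    push_cast at h1
    have h4 := sd_mono (j := j) (cR p ca cb x) h0 h0' hs ha h3
    linarith only [h1, h4]
  · have h1 := hp _ List.mem_cons_self
    have h2 := hp _ (List.mem_cons_of_mem _ List.mem_cons_self)
    have ev : ∀ t : List ℝ, (kE s l).val (x :: μ :: t) = (s : ℝ) / 1000 - (l : ℝ) / 1000 * μ := by
      intro t
      simp only [kE, val, lkR_one]
      push_cast
      ring
    rw [E.val, rF_val _ x μ y _ hj (ev _) (ev _)] at h1
    have h3 := rC_val _ x μ y _ (ev _) h2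
    simp only [val] at h1
    push_cast at h1
    have h4 := sd_mono (j := j) (cR p ca cb x) h0 h0' hs hb h3
    linarith only [h1, h4]
  · have h1 := hp _ List.mem_cons_self
    have h2 := hp _ (List.mem_cons_of_mem _ List.mem_cons_self)
    rw [E.val, rL_val x μ y hj] at h2
    simp only [val, lkR_zero, lkR_succ] at h1 h2
    push_cast at h1 h2
    have h3 := HH_low (a := x + y) (x * μ + k) μ (by linarith only [h0, h0']) (by linarith only [h1])
    unfold sd
    linarith only [h2, h3]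
  · have h1 := hp _ List.mem_cons_self
    have h2 := hp _ (List.mem_cons_of_mem _ List.mem_cons_self)
    rw [E.val, rP_val x μ y hj] at h2
    simp only [val, lkR_zero, lkR_succ] at h1 h2
    push_cast at h1 h2
    have h3 := HH_low' (a := x + y) (x * μ + k) μ (by linarith only [h1]) hs
    unfold sd
    linarith only [h2, h3]
  · exfalso
    have h1 := hp _ List.mem_cons_self
    simp only [val, lkR_zero, lkR_succ] at h1
    linarith only [hr, h1]

end ML

end Pool.Agent.Work.MP_b30479_gt.G2
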