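import Pool.Agent.Work.MP_b30479_gt.G2.MLN

/-!
# The left ramps: from rows to statements with integer tables
-/

namespace Pool.Agent.Work.MP_b30479_gt.G2

open Real Set VOL NumI

namespace ML

/-- ranges: `x`, `y` in thousandths, `T` in ten thousandths, `a / 1000 ≤ k`, `s / 1000 - T ≤ k`,
`ra / rb x ≤ y` -/
structure Dat where
  x0 : ℤ
  x1 : ℤ
  t0 : ℤ
  t1 : ℤ
  a : ℤ
  s : ℤ
  y0 : ℤ
  y1 : ℤ
  ra : ℤ
  rb : ℕ

structure Dat.H (D : Dat) (T x y k : ℝ) : Prop where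
  x0 : (D.x0 : ℝ) / 1000 ≤ x
  x1 : x ≤ (D.x1 : ℝ) / 1000
  t0 : (D.t0 : ℝ) / 10000 ≤ T
  t1 : T ≤ (D.t1 : ℝ) / 10000
  a : (D.a : ℝ) / 1000 ≤ k
  s : (D.s : ℝ) / 1000 - T ≤ k
  y0 : (D.y0 : ℝ) / 1000 ≤ y
  y1 : y ≤ (D.y1 : ℝ) / 1000
  r : (D.ra : ℝ) / D.rb * x ≤ y

/-- the ranges `D` are in the box -/
def Dat.ok (D : Dat) (cl x0 x1 m0 m1 a s y0 y1 ra : ℤ) (rb : ℕ) : Bool :=
  decide (x0 ≤ D.x0) && decide (D.x1 ≤ x1) && decide (m0 * cl ≤ 1000 * D.t0) &&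
  decide (1000 * D.t1 ≤ m1 * cl) && decide (a ≤ D.a) && decide (s ≤ D.s) &&
  (decide (y0 ≤ D.y0) || decide (y0 * D.rb ≤ D.ra * D.x0)) && decide (D.y1 ≤ y1) &&
  decide (ra * D.rb ≤ D.ra * rb) && decide (0 < rb) && decide (0 < D.rb) && decide (0 < cl) &&
  decide (0 ≤ D.ra)

variable {D : Dat} {cl x0 x1 m0 m1 a s y0 y1 ra e p ca cb : ℤ} {rb j : ℕ} {T x y k : ℝ} {Tt : Tr}

theorem Dat.ok_spec (h : D.ok cl x0 x1 m0 m1 a s y0 y1 ra rb = true) :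
    x0 ≤ D.x0 ∧ D.x1 ≤ x1 ∧ m0 * cl ≤ 1000 * D.t0 ∧ 1000 * D.t1 ≤ m1 * cl ∧ a ≤ D.a ∧ s ≤ D.s ∧
    (y0 ≤ D.y0 ∨ y0 * D.rb ≤ D.ra * D.x0) ∧ D.y1 ≤ y1 ∧ ra * D.rb ≤ D.ra * rb ∧ 0 < rb ∧
    0 < D.rb ∧ 0 < cl ∧ 0 ≤ D.ra := by
  unfold Dat.ok at h
  simp only [Bool.and_eq_true, Bool.or_eq_true, decide_eq_true_eq] at h
  tauto

theorem Dat.H.box (H : D.H T x y k) (h : D.ok cl x0 x1 m0 m1 a s y0 y1 ra rb = true) :
    ((x0 : ℝ) / 1000 ≤ x ∧ x ≤ (x1 : ℝ) / 1000) ∧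
    ((m0 : ℝ) / 10000 ≤ T / ((cl : ℝ) / 1000) ∧ T / ((cl : ℝ) / 1000) ≤ (m1 : ℝ) / 10000) ∧
    ((y0 : ℝ) / 1000 ≤ y ∧ y ≤ (y1 : ℝ) / 1000) ∧ (a : ℝ) / 1000 ≤ k ∧ (s : ℝ) / 1000 - T ≤ k ∧
    (0 < x → (ra : ℝ) / rb * x ≤ y) ∧ (0 : ℝ) < (cl : ℝ) / 1000 := by
  obtain ⟨h1, h2, h3, h4, h5, h6, h7, h8, h9, h10, h11, h12, h13⟩ := Dat.ok_spec h
  have g1 : (x0 : ℝ) ≤ D.x0 := by exact_mod_cast h1
  have g2 : (D.x1 : ℝ) ≤ x1 := by exact_mod_cast h2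
  have g3 : (m0 : ℝ) * cl ≤ 1000 * D.t0 := by exact_mod_cast h3
  have g4 : (1000 : ℝ) * D.t1 ≤ m1 * cl := by exact_mod_cast h4
  have g5 : (a : ℝ) ≤ D.a := by exact_mod_cast h5
  have g6 : (s : ℝ) ≤ D.s := by exact_mod_cast h6
  have g8 : (D.y1 : ℝ) ≤ y1 := by exact_mod_cast h8
  have g9 : (ra : ℝ) * D.rb ≤ D.ra * rb := by exact_mod_cast h9
  have g10 : (0 : ℝ) < rb := by exact_mod_cast h10
  have g11 : (0 : ℝ) < D.rb := by exact_mod_cast h11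
  have g12 : (0 : ℝ) < cl := by exact_mod_cast h12
  have g13 : (0 : ℝ) ≤ D.ra := by exact_mod_cast h13
  have Hx0 := H.x0
  have Hx1 := H.x1
  have Ht0 := H.t0
  have Ht1 := H.t1
  have Hy0 := H.y0
  have Hy1 := H.y1
  have Hr := H.r
  refine ⟨⟨by linarith only [g1, Hx0], by linarith only [g2, Hx1]⟩, ⟨?_, ?_⟩, ⟨?_, by linarith only [g8, Hy1]⟩, by linarith only [g5, H, H.a],
    by linarith only [g6, H, H.s], fun hx => ?_, by positivity⟩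
  · rw [le_div_iff₀ (by positivity)]
    have : (m0 : ℝ) / 10000 * (cl / 1000) = m0 * cl / 10000000 := by ring
    rw [this]
    linarith only [g3, Ht0]
  · rw [div_le_iff₀ (by positivity)]
    have : (m1 : ℝ) / 10000 * (cl / 1000) = m1 * cl / 10000000 := by ring
    rw [this]
    linarith only [g4, Ht1]
  · rcases h7 with h7 | h7
    · have g7 : (y0 : ℝ) ≤ D.y0 := by exact_mod_cast h7
      linarith only [Hy0, g7]
    · have g7 : (y0 : ℝ) * D.rb ≤ D.ra * D.x0 := by exact_mod_cast h7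
      have e1 : (y0 : ℝ) ≤ D.ra / D.rb * D.x0 := by
        rw [div_mul_eq_mul_div, le_div_iff₀ g11]
        exact g7
      have e2 : (D.ra : ℝ) / D.rb * (D.x0 / 1000) ≤ D.ra / D.rb * x :=
        mul_le_mul_of_nonneg_left Hx0 (by positivity)
      linarith only [Hr, e1, e2]
  · refine le_trans ?_ Hr
    apply mul_le_mul_of_nonneg_right _ hx.le
    rw [div_le_div_iff₀ g10 g11]
    exact g9

theorem use_row (hj : j = 1 ∨ j = 2) (h : runT (row j (cE p ca cb) e a s cl ra rb) Tt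
      (bx x0 x1 m0 m1 y0 y1) = true) (D : Dat)
    (hD : D.ok cl x0 x1 m0 m1 a s y0 y1 ra rb = true) (H : D.H T x y k)
    (h0 : 0 < x) (h0' : 0 < y) (hs : x + y < 1) :
    (e : ℝ) / 1000 < sd j (cR p ca cb x) x (T / ((cl : ℝ) / 1000)) y k := by
  obtain ⟨h1, h2, h3, h4, h5, h6, h7⟩ := H.box hD
  refine row_of hj h h1 h2 h3 h0 h0' hs h4 ?_ (h6 h0)
  have : (cl : ℝ) / 1000 * (T / ((cl : ℝ) / 1000)) = T := mul_div_cancel₀ _ h7.ne'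
  rw [this]
  exact h5

theorem use_rowN (hj : j = 1 ∨ j = 2) (h : runT (rowN j (cE p ca cb) e a) Tt
      (bx 0 20 m0 m1 y0 y1) = true) (D : Dat)
    (hD : D.ok cl 0 20 m0 m1 a s y0 y1 ra rb = true)
    (hD' : (decide (-13200 ≤ m0) && decide (m1 ≤ 13200) &&
      (decide (j = 2) || decide (7 * (D.rb : ℤ) ≤ 9 * D.ra))) = true) (H : D.H T x y k)
    (h0 : 0 < x) (h0' : 0 < y) (hs : x + y < 1) :
    (e : ℝ) / 1000 < sd j (cR p ca cb x) x (T / ((cl : ℝ) / 1000)) y k := by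
  obtain ⟨h1, h2, h3, h4, h5, h6, h7⟩ := H.box hD
  simp only [Bool.and_eq_true, Bool.or_eq_true, decide_eq_true_eq] at hD'
  obtain ⟨⟨k1, k2⟩, k3⟩ := hD'
  have k1' : (-13200 : ℝ) ≤ m0 := by exact_mod_cast k1
  have k2' : (m1 : ℝ) ≤ 13200 := by exact_mod_cast k2
  have hx1 : x ≤ 1 / 50 := by
    have := h1.2
    push_cast at this
    linarith only [h1]
  refine rowN_of hj h h0 hx1 ?_ h2 h3 h0' hs h4 ?_
  · rw [abs_le]
    constructor <;> linarith only [h2, k1', k2', h2.1, h2.2]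
  · intro hj1
    rcases k3 with k3 | k3
    · omega
    · have g : (7 : ℝ) * D.rb ≤ 9 * D.ra := by exact_mod_cast k3
      have g11 : (0 : ℝ) < D.rb := by exact_mod_cast (Dat.ok_spec hD).2.2.2.2.2.2.2.2.2.2.1
      refine le_trans ?_ H.r
      apply mul_le_mul_of_nonneg_right _ h0.le
      rw [div_le_div_iff₀ (by norm_num) g11]
      linarith only [g]

/-- restriction of the range of `x` -/
theorem Dat.H.cut (H : D.H T x y k) {u v : ℤ} (h1 : (u : ℝ) / 1000 ≤ x) (h2 : x ≤ (v : ℝ) / 1000) :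
    Dat.H { D with x0 := u, x1 := v } T x y k :=
  ⟨h1, h2, H.t0, H.t1, H.a, H.s, H.y0, H.y1, H.r⟩

end ML

end Pool.Agent.Work.MP_b30479_gt.G2
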