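import Pool.Agent.Work.MP_b30479_gt.G2.MLN

/-!
# The left ramps: certificates of a digit `2`
-/

namespace Pool.Agent.Work.MP_b30479_gt.G2.ML

open NumI NumI.E

theorem w0_1_0 : runT (rowN 2 (cE 0 2700 0) 350 (-99))
    (.z (.z (.z (.y .a .a) .a) .a) (.z .c .d))
    (bx 0 20 (-5000) 1125 0 800) = true := by decide +kernel

theorem w0_1_1 : runT (row 2 (cE 0 2700 0) 350 (-99) (-300) 160 0 1)
    (.z (.y (.z (.y (.z (.x (.z (.x .c .c) .c) (.z .c .c)) (.x .c .c)) (.z (.x (.z .c .c) (.z .c .c))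
    .c)) (.x .a .a)) (.z (.z (.z (.x .c .c) .c) .c) (.x .a .a))) (.y (.x (.z .a .d) (.z .a .d)) (.z .a
    .d)))
    (bx 20 45 (-5000) 1125 0 800) = true := by decide +kernel

theorem w0_1_2 : runT (row 2 (cE 0 4320 36000) 350 (-99) (-300) 160 0 1)
    (.z (.y (.z (.z (.z (.x .c .c) .c) .c) .a) (.z (.z (.z (.x .c .c) .c) .c) .a)) (.y (.z .a (.z .d
    (.y (.x .d .d) .d))) (.z .a .d)))
    (bx 45 70 (-5000) 1125 0 800) = true := by decide +kernel

theorem w1_1_0 : runT (row 2 (cE 0 2400 0) 190 (-99) (-300) 160 0 1)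
    (.y (.z (.z (.x .c (.z .a .a)) .a) (.x .a .b)) (.z (.z .c .a) .a))
    (bx 70 100 (-5000) 1125 70 560) = true := by decide +kernel

theorem w1_1_1 : runT (row 2 (cE 0 3200 8000) 190 (-99) (-300) 160 0 1)
    (.y (.z (.x (.z (.z .a .a) .a) (.z (.z (.y .a .a) .a) .a)) (.x (.z .a (.y .a .a)) (.z .a (.z (.x
    .a .a) (.x (.y .a .a) (.y .a .a)))))) (.z (.x (.z (.z (.x .c .a) .a) .a) (.z (.z (.x .a (.z (.y .a
    (.y .a .a)) .a)) .a) .a)) (.x (.y .a .a) (.z .a (.y (.x .a .a) .a)))))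
    (bx 100 150 (-5000) 1125 70 560) = true := by decide +kernel

theorem w2_1_0 : runT (row 2 (cE 0 2100 0) 100 (-99) (-300) 160 0 1)
    (.y (.z (.z .a .a) (.z .a (.z .a (.y (.y .d .a) (.y .a .a))))) (.y (.z (.z .a .a) (.z .a (.z .a
    .a))) (.z (.z .a .a) (.z .a .a))))
    (bx 150 160 (-5000) 1125 100 560) = true := by decide +kernel

theorem w0_1e_0 : runT (rowN 2 (cE 0 2700 0) 350 (-99))
    (.z (.z (.z (.z .a .a) .a) .a) (.z .c .d))
    (bx 0 20 (-6157) (-2000) 0 800) = true := by decide +kernel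

theorem w0_1e_1 : runT (row 2 (cE 0 2700 0) 350 (-99) (-300) 160 0 1)
    (.z (.y (.z (.y (.z (.x (.z (.x .c .c) .c) (.z .c .c)) (.x .c .a)) (.z (.x (.z (.x .c .c) .c) (.z
    .c .c)) (.x .c .a))) (.x .a .a)) (.z (.y (.z (.x (.z .c .c) (.z .c .c)) .c) (.z (.z (.x .c .c) .c)
    .c)) .a)) (.x (.z .a .d) (.z .a (.y .d .d))))
    (bx 20 45 (-6157) (-2000) 0 800) = true := by decide +kernel

theorem w0_1e_2 : runT (row 2 (cE 0 4320 36000) 350 (-99) (-300) 160 0 1)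
    (.z (.z (.z (.z (.x (.y .c .c) .c) (.y .c .c)) (.y .a .c)) .a) (.z (.y .a .a) (.y (.z .d (.z .d
    (.x .d (.y .d .d)))) (.x .d .d))))
    (bx 45 70 (-6157) (-2000) 0 800) = true := by decide +kernel

theorem w1_1e_0 : runT (row 2 (cE 0 2400 0) 190 (-99) (-300) 160 0 1)
    (.z (.x (.z (.z .c .a) .a) (.z (.y .a .c) .a)) (.x .b (.y .a .a)))
    (bx 70 100 (-6157) (-2000) 70 560) = true := by decide +kernel

theorem w1_1e_1 : runT (row 2 (cE 0 3200 8000) 190 (-99) (-300) 160 0 1)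
    (.z (.x (.z (.y .a .a) .a) (.z (.y .a (.z (.y .a .a) .a)) (.y .a .a))) (.x (.y (.z .a (.z .a .a))
    (.z .a .a)) (.z (.y .a .a) (.z (.y .a .a) (.y (.x .a (.y .d .a)) (.x .a (.y .a .a)))))))
    (bx 100 150 (-6157) (-2000) 70 560) = true := by decide +kernel

theorem w2_1e_0 : runT (row 2 (cE 0 2100 0) 100 (-99) (-300) 160 0 1)
    (.z (.z (.y .a .a) .a) (.z (.y .a .a) (.z (.y .a .a) (.y (.y .d (.z .a .d)) (.y .a .a)))))
    (bx 150 160 (-6157) (-2000) 100 560) = true := by decide +kernel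

theorem w0_2_0 : runT (rowN 2 (cE 1 0 0) 100 (-99))
    (.y (.z (.z (.z .a .a) .a) (.z .c .d)) (.z (.z (.z .a .a) .a) (.z .c .d)))
    (bx 0 20 (-4100) 4100 0 800) = true := by decide +kernel

theorem w0_2_1 : runT (row 2 (cE 1 0 0) 100 (-99) (-300) 100 0 1)
    (.y (.z (.y (.z (.y (.z (.x (.x (.x .c .c) .c) .c) (.x .c .c)) (.z (.x (.x (.x .c .c) .c) .c) (.x
    .c .c))) (.x .a .a)) (.z (.y (.z (.x (.x (.x .c .c) .c) .c) (.x .c .c)) (.z (.x (.x (.x .c .c) .c)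
    .c) (.x .c .c))) (.x .a .a))) (.y (.z (.x .a .a) (.x .d .d)) (.z (.x .a .a) (.x .d .d)))) (.z (.y
    (.z (.y (.z (.y (.x (.x (.x .c .c) .c) .c) (.z (.x (.x .c .c) .c) (.x .c .c))) (.x .c .c)) (.z (.y
    (.z (.x (.x .c .c) .c) (.x .c .c)) (.z (.x (.x .c .c) .c) (.x .c .c))) (.x .c .c))) (.x (.x .c .a)
    .a)) (.z (.y (.z (.y (.z (.x (.x .c .c) .c) (.x .c .c)) (.z (.x (.x .c .c) .c) (.x .c .c))) (.x .c
    .c)) (.z (.y (.z (.x (.x .c .c) .c) (.x .c .c)) (.z (.x (.x .c .c) .c) (.x .c .c))) (.x .c .c)))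
    (.x (.x .c .c) (.z .a .a)))) (.y (.z (.x .a .a) (.x .d .d)) (.z (.x .a .a) (.x .d .d)))))
    (bx 20 70 (-4100) 4100 0 800) = true := by decide +kernel

theorem w1_2_2 : runT (row 2 (cE 1 0 0) 200 (-99) (-300) 100 0 1)
    (.y (.z (.z (.x .c .c) .a) .b) (.z (.z (.x .c .c) .a) .b))
    (bx 70 100 (-4100) 4100 70 560) = true := by decide +kernel

theorem w0_2e_0 : runT (rowN 2 (cE 1 0 0) 100 (-99))
    (.z (.z (.z .a .a) .a) (.z .c .d))
    (bx 0 20 (-8500) (-4500) 0 800) = true := by decide +kernel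

theorem w0_2e_1 : runT (row 2 (cE 1 0 0) 100 (-99) (-300) 100 0 1)
    (.z (.y (.z (.y (.z (.x (.x (.x .c .c) .c) .c) (.x .a .a)) (.z (.x (.x (.x .c .c) .c) .c) (.x .a
    .a))) (.x (.x .a .a) .a)) (.z (.y (.z (.x (.x (.x .c .c) .c) .c) (.x .c .a)) (.z (.x (.x (.x .c
    .c) .c) .c) (.x .c .a))) (.x .a .a))) (.y (.z (.x (.x .a .a) (.z .a .d)) (.x (.x .d .d) (.x .d
    .d))) (.z (.x .a .a) (.x (.x .d .d) .d))))
    (bx 20 70 (-8500) (-4500) 0 800) = true := by decide +kernel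

theorem w1_2e_2 : runT (row 2 (cE 1 0 0) 200 (-99) (-300) 100 0 1)
    (.z (.z (.y .a .c) .a) (.z .a (.z .a .a)))
    (bx 70 100 (-8500) (-4500) 70 560) = true := by decide +kernel

theorem w0_3a_0 : runT (rowN 2 (cE 1 0 0) 100 (-99))
    (.z (.z (.z .a .a) .a) (.z .c .d))
    (bx 0 20 (-417) 4750 0 800) = true := by decide +kernel

theorem w0_3a_1 : runT (row 2 (cE 1 0 0) 100 (-99) (-300) 120 0 1)
    (.z (.y (.z (.y (.z (.y (.x (.x (.x .c .c) .c) .c) (.z (.x (.x .c .c) .c) (.x .c .c))) (.x .c .c))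
    (.z (.y (.z (.x (.x .c .c) .c) (.x .c .c)) (.z (.x (.x .c .c) .c) (.x .c .c))) (.x .c .c))) (.x
    (.x .c .c) .a)) (.z (.y (.z (.y (.z (.x (.x .c .c) .c) (.x .c .c)) (.z (.x (.x .c .c) .c) (.x .c
    .c))) (.x .c .c)) (.z (.y (.z (.x (.x .c .c) .c) (.x .c .c)) (.z (.x (.x .c .c) .c) (.x .c .c)))
    (.x .c .c))) (.x (.x .c .c) (.z .c .a)))) (.y (.z (.x .a .a) (.x .d .d)) (.z (.x .a .a) (.x .d
    .d))))
    (bx 20 70 (-417) 4750 0 800) = true := by decide +kernel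

theorem w1_3a_2 : runT (row 2 (cE 1 0 0) 200 (-99) (-300) 120 0 1)
    (.y (.z (.z (.x .c .c) .a) (.x .a .a)) (.z (.x (.z .c .a) (.z (.x .c .c) .a)) (.x .a .a)))
    (bx 70 120 (-417) 4750 70 560) = true := by decide +kernel

theorem w0_3b_0 : runT (rowN 2 (cE 1 0 0) 100 (-99))
    (.z (.z (.z .a .a) .a) (.z .c .d))
    (bx 0 20 (-385) 4385 0 800) = true := by decide +kernel

theorem w0_3b_1 : runT (row 2 (cE 1 0 0) 100 (-99) (-300) 130 0 1)
    (.z (.y (.z (.y (.z (.y (.x (.x (.x .c .c) .c) .c) (.z (.x (.x .c .c) .c) (.x .c .c))) (.x .c .c))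
    (.z (.y (.z (.x (.x .c .c) .c) (.x .c .c)) (.z (.x (.x .c .c) .c) (.x .c .c))) (.x .c .c))) (.x
    (.x .c .a) .a)) (.z (.y (.z (.y (.z (.x (.x .c .c) .c) (.x .c .c)) (.z (.x (.x .c .c) .c) (.x .c
    .c))) (.x .c .c)) (.z (.y (.z (.x (.x .c .c) .c) (.x .c .c)) (.z (.x (.x .c .c) .c) (.x .c .c)))
    (.x .c .c))) (.x (.x .c .c) (.z .a .a)))) (.y (.z (.x .a .a) (.x .d .d)) (.z (.x .a .a) (.x .d
    .d))))
    (bx 20 70 (-385) 4385 0 800) = true := by decide +kernel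

theorem w1_3b_2 : runT (row 2 (cE 1 0 0) 200 (-99) (-300) 130 0 1)
    (.z (.x (.z (.y .c .c) .a) (.z (.x (.y .c .c) (.z (.y .c (.x .c .c)) .a)) (.x .a .a))) (.x .b (.y
    .b .b)))
    (bx 70 130 (-385) 4385 70 560) = true := by decide +kernel

theorem w0_3e_0 : runT (rowN 2 (cE 1 0 0) 100 (-99))
    (.z (.z (.z .a .a) .a) (.z .c .d))
    (bx 0 20 (-1300) 2600 0 800) = true := by decide +kernel

theorem w0_3e_1 : runT (row 2 (cE 1 0 0) 100 (-99) (-300) 100 0 1)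
    (.z (.z (.y (.z (.y (.x (.x (.x .c .c) .c) .c) (.z (.x (.x .c .c) .c) (.x .c .c))) (.x .c .c)) (.z
    (.y (.z (.x (.x .c .c) .c) (.x .c .c)) (.z (.x (.x .c .c) .c) (.x .c .c))) (.x .c .c))) (.x (.x .c
    .c) .a)) (.z (.x .a .a) (.x .d .d)))
    (bx 20 70 (-1300) 2600 0 800) = true := by decide +kernel

theorem w1_3e_2 : runT (row 2 (cE 1 0 0) 200 (-99) (-300) 100 0 1)
    (.z (.z (.x .c .c) .a) .a)
    (bx 70 100 (-1300) 2600 70 560) = true := by decide +kernel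

theorem w0_Z_0 : runT (rowN 2 (cE 1 0 0) 100 (-99))
    (.z (.z (.z .a .a) .a) (.z .c .d))
    (bx 0 20 800 7680 0 800) = true := by decide +kernel

theorem w0_Z_1 : runT (row 2 (cE 1 0 0) 100 (-99) (-300) 125 0 1)
    (.z (.y (.z (.y (.z (.y (.z (.x (.x .c .c) .c) (.x .c .c)) (.z (.x (.x .c .c) .c) (.x .c .c))) (.x
    .c .c)) (.z (.y (.z (.x (.x .c .c) .c) (.x .c .c)) (.z (.x (.x .c .c) .c) (.x .c .c))) (.x .c
    .c))) (.x (.x .c .c) (.z .a .a))) (.z (.y (.z (.y (.z (.x (.x .c .c) .c) (.x .c .c)) (.z (.x (.x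
    .c .c) .c) (.x .c .c))) (.x .c .c)) (.z (.y (.z (.x (.x .c .c) .c) (.x .c .c)) (.z (.x (.x .c .c)
    .c) (.x .c .c))) (.x .c .c))) (.x (.x .c .c) (.z .c .a)))) (.y (.z (.x .a .a) (.x .d .d)) (.z (.x
    .a .a) (.x (.x .a .a) .d))))
    (bx 20 70 800 7680 0 800) = true := by decide +kernel

theorem w1_Z_2 : runT (row 2 (cE 1 0 0) 200 (-99) (-300) 125 0 1)
    (.y (.z (.x (.z .c .a) (.z (.z (.x .c (.x .c .c)) .a) .a)) (.x .a .b)) (.z (.x (.z (.x .c .c) .c)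
    (.z (.z (.x .c (.y .c .c)) (.x .c .a)) .a)) (.x .a .b)))
    (bx 70 125 800 7680 70 560) = true := by decide +kernel

theorem e0_1_0 : runT [[sub (nE (cE 0 1300 0)) (q 350 1000)]]
    .a
    [V.of 10000 (10 * 0) (10 * 20) 4, V.of 10000 (-72) 4715 4] = true := by decide +kernel

theorem e0_1_1 : runT [[sub (eE (cE 0 1300 0)) (q 350 1000)]]
    (.x (.x .a .a) (.x .a .a))
    [V.of 10000 (10 * 20) (10 * 70) 4, V.of 10000 (-72) 4715 4] = true := by decide +kernel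

theorem e1_1 : runT [[sub (eE (cE 0 1950 0)) (q 0 1000)]]
    (.x .a (.y .a .a))
    [V.of 10000 (10 * 70) (10 * 125) 4, V.of 10000 (-72) 4715 4] = true := by decide +kernel

theorem e2_1 : runT [[sub (eE (cE 0 2100 0)) (q 0 1000)]]
    (.y .a .a)
    [V.of 10000 (10 * 125) (10 * 140) 4, V.of 10000 (-72) 4715 4] = true := by decide +kernel

theorem e_2_0 : runT [[sub (nE (cE 1 0 0)) (q 200 1000)]]
    .a
    [V.of 10000 (10 * 0) (10 * 20) 4, V.of 10000 4500 8500 4] = true := by decide +kernel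

theorem e_2_1 : runT [[sub (eE (cE 1 0 0)) (q 200 1000)]]
    (.x (.x .a .a) (.x .a (.x .a (.y .a .a))))
    [V.of 10000 (10 * 20) (10 * 100) 4, V.of 10000 4500 8500 4] = true := by decide +kernel

theorem e_2e_0 : runT [[sub (nE (cE 1 0 0)) (q 400 1000)]]
    .a
    [V.of 10000 (10 * 0) (10 * 20) 4, V.of 10000 (-100) 100 4] = true := by decide +kernel

theorem e_2e_1 : runT [[sub (eE (cE 1 0 0)) (q 400 1000)]]
    (.x (.x .a .a) (.x .a .a))
    [V.of 10000 (10 * 20) (10 * 100) 4, V.of 10000 (-100) 100 4] = true := by decide +kernel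

theorem e_3a_0 : runT [[sub (nE (cE 1 0 0)) (q (-80) 1000)]]
    .a
    [V.of 10000 (10 * 0) (10 * 20) 4, V.of 10000 6333 8167 4] = true := by decide +kernel

theorem e_3a_1 : runT [[sub (eE (cE 1 0 0)) (q (-80) 1000)]]
    (.x (.x .a .a) (.x .a (.x .a (.x .a .a))))
    [V.of 10000 (10 * 20) (10 * 120) 4, V.of 10000 6333 8167 4] = true := by decide +kernel

theorem e_3b_0 : runT [[sub (nE (cE 1 0 0)) (q (-190) 1000)]]
    .a
    [V.of 10000 (10 * 0) (10 * 20) 4, V.of 10000 5846 7539 4] = true := by decide +kernel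

theorem e_3b_1 : runT [[sub (eE (cE 1 0 0)) (q (-190) 1000)]]
    (.x (.x .a .a) (.x .a (.x .a (.x .a .a))))
    [V.of 10000 (10 * 20) (10 * 130) 4, V.of 10000 5846 7539 4] = true := by decide +kernel

theorem e_3e_0 : runT [[sub (nE (cE 1 0 0)) (q 200 1000)]]
    .a
    [V.of 10000 (10 * 0) (10 * 20) 4, V.of 10000 6500 6900 4] = true := by decide +kernel

theorem e_3e_1 : runT [[sub (eE (cE 1 0 0)) (q 200 1000)]]
    (.x (.x .a .a) (.x .a .a))
    [V.of 10000 (10 * 20) (10 * 100) 4, V.of 10000 6500 6900 4] = true := by decide +kernel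

theorem e_Z_0 : runT [[sub (nE (cE 1 0 0)) (q (-168) 1000)]]
    .a
    [V.of 10000 (10 * 0) (10 * 20) 4, V.of 10000 7040 10480 4] = true := by decide +kernel

theorem e_Z_1 : runT [[sub (eE (cE 1 0 0)) (q (-168) 1000)]]
    (.x (.x (.x .a .a) .a) (.x .a (.x .a (.y .a (.x .a (.y .a (.x .a .a)))))))
    [V.of 10000 (10 * 20) (10 * 125) 4, V.of 10000 7040 10480 4] = true := by decide +kernel

end Pool.Agent.Work.MP_b30479_gt.G2.ML
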