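import Pool.Agent.Work.MP_b30479_gt.G2.MLSD
import Pool.Agent.Work.MP_b30479_gt.G2.MLSC

/-!
# The left ramps: bounds for the side of a digit `2`

Generated.
-/

namespace Pool.Agent.Work.MP_b30479_gt.G2

open Real Set VOL NumI SR

namespace ML

/-- windows of a hinge `2 | B` in the frame of the digit `2` (ten thousandths) -/
def tw : K7 → ℤ × ℤ
  | .one => (-800, 180)
  | .two => (-410, 410)
  | .twoE => (-850, -450)
  | .threeA => (-50, 570)
  | .threeB => (-50, 570)
  | .threeE => (-130, 260)
  | .ring => (100, 960)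

/-- windows of a hinge `2 | B` of a digit `2` at an end (ten thousandths) -/
def twE : K7 → ℤ × ℤ
  | .one => (-10, 660)
  | .two => (450, 850)
  | .twoE => (-10, 10)
  | .threeA => (760, 980)
  | .threeB => (760, 980)
  | .threeE => (650, 690)
  | .ring => (880, 1310)

/-- length of the left ramp of a hinge `2 | B` -/
def clz2 : K7 → ℤ
  | .one => 160
  | .two => 100
  | .twoE => 100
  | .threeA => 120
  | .threeB => 130
  | .threeE => 100
  | .ring => 125

/-- data -/
def dW (x0 x1 t0 t1 y0 y1 : ℤ) : Dat := ⟨x0, x1, t0, t1, -99, -300, y0, y1, 0, 1⟩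

/-- bounds for the side of a digit `2` at an end, away from the digits `1` (thousandths) -/
def eE2 : K7 → ℤ
  | .one => 0
  | .two => 200
  | .twoE => 400
  | .threeA => -80
  | .threeB => -190
  | .threeE => 200
  | .ring => -168

variable {B : K7} {C : Cl} {T x y k : ℝ}

theorem two_real0 (hB : B ≠ .one) (H : (dW 0 70 (tw B).1 (tw B).2 0 800).H T x y k) (h0 : 0 < x)
    (h0' : 0 < y) (hs : x + y < 1) :
    ((100 : ℤ) : ℝ) / 1000 < sd 2 (cR 1 0 0 x) x (T / ((clz2 B : ℝ) / 1000)) y k := by
  have hx0 := H.x0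
  have hx1 := H.x1
  simp only [dW] at hx0 hx1
  push_cast at hx0 hx1
  cases B
  case one => exact absurd rfl hB
  case two =>
    rcases le_total x (20 / 1000) with hx | hx
    · exact use_rowN (s := -10000) (ra := 0) (rb := 1) (Or.inr rfl) w0_2_0 _ (by decide) (by decide)
        (H.cut (u := 0) (v := 20) (by push_cast; linarith only [h0]) (by push_cast; linarith only [hx])) h0 h0' hs
    · exact use_row (Or.inr rfl) w0_2_1 _ (by decide)
        (H.cut (u := 20) (v := 70) (by push_cast; linarith only [hx]) (by push_cast; linarith only [hx1])) h0 h0' hs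
  case twoE =>
    rcases le_total x (20 / 1000) with hx | hx
    · exact use_rowN (s := -10000) (ra := 0) (rb := 1) (Or.inr rfl) w0_2e_0 _ (by decide) (by decide)
        (H.cut (u := 0) (v := 20) (by push_cast; linarith only [h0]) (by push_cast; linarith only [hx])) h0 h0' hs
    · exact use_row (Or.inr rfl) w0_2e_1 _ (by decide)
        (H.cut (u := 20) (v := 70) (by push_cast; linarith only [hx]) (by push_cast; linarith only [hx1])) h0 h0' hs
  case threeA =>
    rcases le_total x (20 / 1000) with hx | hx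
    · exact use_rowN (s := -10000) (ra := 0) (rb := 1) (Or.inr rfl) w0_3a_0 _ (by decide) (by decide)
        (H.cut (u := 0) (v := 20) (by push_cast; linarith only [h0]) (by push_cast; linarith only [hx])) h0 h0' hs
    · exact use_row (Or.inr rfl) w0_3a_1 _ (by decide)
        (H.cut (u := 20) (v := 70) (by push_cast; linarith only [hx]) (by push_cast; linarith only [hx1])) h0 h0' hs
  case threeB =>
    rcases le_total x (20 / 1000) with hx | hx
    · exact use_rowN (s := -10000) (ra := 0) (rb := 1) (Or.inr rfl) w0_3b_0 _ (by decide) (by decide)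
        (H.cut (u := 0) (v := 20) (by push_cast; linarith only [h0]) (by push_cast; linarith only [hx])) h0 h0' hs
    · exact use_row (Or.inr rfl) w0_3b_1 _ (by decide)
        (H.cut (u := 20) (v := 70) (by push_cast; linarith only [hx]) (by push_cast; linarith only [hx1])) h0 h0' hs
  case threeE =>
    rcases le_total x (20 / 1000) with hx | hx
    · exact use_rowN (s := -10000) (ra := 0) (rb := 1) (Or.inr rfl) w0_3e_0 _ (by decide) (by decide)
        (H.cut (u := 0) (v := 20) (by push_cast; linarith only [h0]) (by push_cast; linarith only [hx])) h0 h0' hs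
    · exact use_row (Or.inr rfl) w0_3e_1 _ (by decide)
        (H.cut (u := 20) (v := 70) (by push_cast; linarith only [hx]) (by push_cast; linarith only [hx1])) h0 h0' hs
  case ring =>
    rcases le_total x (20 / 1000) with hx | hx
    · exact use_rowN (s := -10000) (ra := 0) (rb := 1) (Or.inr rfl) w0_Z_0 _ (by decide) (by decide)
        (H.cut (u := 0) (v := 20) (by push_cast; linarith only [h0]) (by push_cast; linarith only [hx])) h0 h0' hs
    · exact use_row (Or.inr rfl) w0_Z_1 _ (by decide)
        (H.cut (u := 20) (v := 70) (by push_cast; linarith only [hx]) (by push_cast; linarith only [hx1])) h0 h0' hs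

theorem two_real1 (hB : B ≠ .one) (H : (dW 70 (clz2 B) (tw B).1 (tw B).2 70 560).H T x y k)
    (h0 : 0 < x) (h0' : 0 < y) (hs : x + y < 1) :
    ((200 : ℤ) : ℝ) / 1000 < sd 2 (cR 1 0 0 x) x (T / ((clz2 B : ℝ) / 1000)) y k := by
  cases B
  case one => exact absurd rfl hB
  case two => exact use_row (Or.inr rfl) w1_2_2 _ (by decide) H h0 h0' hs
  case twoE => exact use_row (Or.inr rfl) w1_2e_2 _ (by decide) H h0 h0' hs
  case threeA => exact use_row (Or.inr rfl) w1_3a_2 _ (by decide) H h0 h0' hs
  case threeB => exact use_row (Or.inr rfl) w1_3b_2 _ (by decide) H h0 h0' hs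
  case threeE => exact use_row (Or.inr rfl) w1_3e_2 _ (by decide) H h0 h0' hs
  case ring => exact use_row (Or.inr rfl) w1_Z_2 _ (by decide) H h0 h0' hs

theorem two_one0 (E : Bool) (H : (dW 0 70 (cond E (-985) (-800)) (cond E (-320) 180) 0 800).H T x y k)
    (h0 : 0 < x) (h0' : 0 < y) (hs : x + y < 1) :
    ((350 : ℤ) : ℝ) / 1000 < sd 2 (shO 0 .two x) x (T / (((160 : ℤ) : ℝ) / 1000)) y k := by
  have hx0 := H.x0
  have hx1 := H.x1
  simp only [dW] at hx0 hx1
  push_cast at hx0 hx1
  cases E
  case false =>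
    simp only [shO]
    split_ifs with hx
    · push_cast at hx
      rcases le_total x (20 / 1000) with hx' | hx'
      · exact use_rowN (s := -10000) (ra := 0) (rb := 1) (Or.inr rfl) w0_1_0 _ (by decide) (by decide)
          (H.cut (u := 0) (v := 20) (by push_cast; linarith only [h0]) (by push_cast; linarith only [hx'])) h0 h0' hs
      · exact use_row (Or.inr rfl) w0_1_1 _ (by decide)
          (H.cut (u := 20) (v := 45) (by push_cast; linarith only [hx']) (by push_cast; linarith only [hx])) h0 h0' hs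
    · push_cast at hx
      exact use_row (Or.inr rfl) w0_1_2 _ (by decide)
        (H.cut (u := 45) (v := 70) (by push_cast; linarith only [hx]) (by push_cast; linarith only [hx1])) h0 h0' hs
  case true =>
    simp only [shO]
    split_ifs with hx
    · push_cast at hx
      rcases le_total x (20 / 1000) with hx' | hx'
      · exact use_rowN (s := -10000) (ra := 0) (rb := 1) (Or.inr rfl) w0_1e_0 _ (by decide) (by decide)
          (H.cut (u := 0) (v := 20) (by push_cast; linarith only [h0]) (by push_cast; linarith only [hx'])) h0 h0' hs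
      · exact use_row (Or.inr rfl) w0_1e_1 _ (by decide)
          (H.cut (u := 20) (v := 45) (by push_cast; linarith only [hx']) (by push_cast; linarith only [hx])) h0 h0' hs
    · push_cast at hx
      exact use_row (Or.inr rfl) w0_1e_2 _ (by decide)
        (H.cut (u := 45) (v := 70) (by push_cast; linarith only [hx]) (by push_cast; linarith only [hx1])) h0 h0' hs

theorem two_one1 (E : Bool) (H : (dW 70 150 (cond E (-985) (-800)) (cond E (-320) 180) 70 560).H T x y k)
    (h0 : 0 < x) (h0' : 0 < y) (hs : x + y < 1) :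
    ((190 : ℤ) : ℝ) / 1000 < sd 2 (shO 1 .two x) x (T / (((160 : ℤ) : ℝ) / 1000)) y k := by
  have hx0 := H.x0
  have hx1 := H.x1
  simp only [dW] at hx0 hx1
  push_cast at hx0 hx1
  cases E
  case false =>
    simp only [shO]
    split_ifs with hx
    · push_cast at hx
      exact use_row (Or.inr rfl) w1_1_0 _ (by decide)
        (H.cut (u := 70) (v := 100) (by push_cast; linarith only [hx0]) (by push_cast; linarith only [hx])) h0 h0' hs
    · push_cast at hx
      exact use_row (Or.inr rfl) w1_1_1 _ (by decide)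
        (H.cut (u := 100) (v := 150) (by push_cast; linarith only [hx]) (by push_cast; linarith only [hx1])) h0 h0' hs
  case true =>
    simp only [shO]
    split_ifs with hx
    · push_cast at hx
      exact use_row (Or.inr rfl) w1_1e_0 _ (by decide)
        (H.cut (u := 70) (v := 100) (by push_cast; linarith only [hx0]) (by push_cast; linarith only [hx])) h0 h0' hs
    · push_cast at hx
      exact use_row (Or.inr rfl) w1_1e_1 _ (by decide)
        (H.cut (u := 100) (v := 150) (by push_cast; linarith only [hx]) (by push_cast; linarith only [hx1])) h0 h0' hs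

theorem two_one2 (E : Bool) (H : (dW 150 160 (cond E (-985) (-800)) (cond E (-320) 180) 100 560).H T x y k)
    (h0 : 0 < x) (h0' : 0 < y) (hs : x + y < 1) :
    ((100 : ℤ) : ℝ) / 1000 < sd 2 (shO 2 .two x) x (T / (((160 : ℤ) : ℝ) / 1000)) y k := by
  have hx0 := H.x0
  have hx1 := H.x1
  simp only [dW] at hx0 hx1
  push_cast at hx0 hx1
  cases E
  case false =>
    exact use_row (Or.inr rfl) w2_1_0 _ (by decide) H h0 h0' hs
  case true =>
    exact use_row (Or.inr rfl) w2_1e_0 _ (by decide) H h0 h0' hs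

theorem mu_box {t0 t1 m0 m1 cl : ℤ} (ht0 : (t0 : ℝ) / 10000 ≤ T) (ht1 : T ≤ (t1 : ℝ) / 10000)
    (h : (decide (m0 * cl ≤ 1000 * t0) && decide (1000 * t1 ≤ m1 * cl) && decide (0 < cl)) = true) :
    (m0 : ℝ) / 10000 ≤ T / ((cl : ℝ) / 1000) ∧ T / ((cl : ℝ) / 1000) ≤ (m1 : ℝ) / 10000 := by
  simp only [Bool.and_eq_true, decide_eq_true_eq] at h
  obtain ⟨⟨h1, h2⟩, h3⟩ := h
  have g1 : (m0 : ℝ) * cl ≤ 1000 * t0 := by exact_mod_cast h1
  have g2 : (1000 : ℝ) * t1 ≤ m1 * cl := by exact_mod_cast h2
  have g3 : (0 : ℝ) < cl := by exact_mod_cast h3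
  constructor
  · rw [le_div_iff₀ (by positivity)]
    have : (m0 : ℝ) / 10000 * (cl / 1000) = m0 * cl / 10000000 := by ring
    rw [this]
    linarith only [ht0, g1]
  · rw [div_le_iff₀ (by positivity)]
    have : (m1 : ℝ) / 10000 * (cl / 1000) = m1 * cl / 10000000 := by ring
    rw [this]
    linarith only [ht1, g2]

theorem twoE_real (hB : B ≠ .one) (ht0 : ((twE B).1 : ℝ) / 10000 ≤ T)
    (ht1 : T ≤ ((twE B).2 : ℝ) / 10000) (h0 : 0 < x) (h1 : x ≤ (clz2 B : ℝ) / 1000) :
    (eE2 B : ℝ) / 1000 < sE (cR 1 0 0 x) x (T / ((clz2 B : ℝ) / 1000)) := by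
  cases B
  case one => exact absurd rfl hB
  case two =>
    simp only [clz2] at h1
    push_cast at h1
    rcases le_total x (20 / 1000) with hx | hx
    · have hμ := mu_box (m0 := 4500) (m1 := 8500) (cl := 100) ht0 ht1 (by decide)
      have ha : |T / (((100 : ℤ) : ℝ) / 1000)| ≤ 132 / 100 :=
        abs_le.2 ⟨by linarith only [h0, hx, hμ, hμ.1], by linarith only [h0, hx, hμ, hμ.2]⟩
      exact rowNE_of e_2_0 h0 (by linarith only [hx]) ha hμ
    · have hμ := mu_box (m0 := 4500) (m1 := 8500) (cl := 100) ht0 ht1 (by decide)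
      exact rowE_of e_2_1 ⟨by push_cast; linarith only [hx], by push_cast; linarith only [h1]⟩ hμ
  case twoE =>
    simp only [clz2] at h1
    push_cast at h1
    rcases le_total x (20 / 1000) with hx | hx
    · have hμ := mu_box (m0 := -100) (m1 := 100) (cl := 100) ht0 ht1 (by decide)
      have ha : |T / (((100 : ℤ) : ℝ) / 1000)| ≤ 132 / 100 :=
        abs_le.2 ⟨by linarith only [h0, hx, hμ, hμ.1], by linarith only [h0, hx, hμ, hμ.2]⟩
      exact rowNE_of e_2e_0 h0 (by linarith only [hx]) ha hμ
    · have hμ := mu_box (m0 := -100) (m1 := 100) (cl := 100) ht0 ht1 (by decide)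
      exact rowE_of e_2e_1 ⟨by push_cast; linarith only [hx], by push_cast; linarith only [h1]⟩ hμ
  case threeA =>
    simp only [clz2] at h1
    push_cast at h1
    rcases le_total x (20 / 1000) with hx | hx
    · have hμ := mu_box (m0 := 6333) (m1 := 8167) (cl := 120) ht0 ht1 (by decide)
      have ha : |T / (((120 : ℤ) : ℝ) / 1000)| ≤ 132 / 100 :=
        abs_le.2 ⟨by linarith only [h0, hx, hμ, hμ.1], by linarith only [h0, hx, hμ, hμ.2]⟩
      exact rowNE_of e_3a_0 h0 (by linarith only [hx]) ha hμ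
    · have hμ := mu_box (m0 := 6333) (m1 := 8167) (cl := 120) ht0 ht1 (by decide)
      exact rowE_of e_3a_1 ⟨by push_cast; linarith only [hx], by push_cast; linarith only [h1]⟩ hμ
  case threeB =>
    simp only [clz2] at h1
    push_cast at h1
    rcases le_total x (20 / 1000) with hx | hx
    · have hμ := mu_box (m0 := 5846) (m1 := 7539) (cl := 130) ht0 ht1 (by decide)
      have ha : |T / (((130 : ℤ) : ℝ) / 1000)| ≤ 132 / 100 :=
        abs_le.2 ⟨by linarith only [h0, hx, hμ, hμ.1], by linarith only [h0, hx, hμ, hμ.2]⟩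
      exact rowNE_of e_3b_0 h0 (by linarith only [hx]) ha hμ
    · have hμ := mu_box (m0 := 5846) (m1 := 7539) (cl := 130) ht0 ht1 (by decide)
      exact rowE_of e_3b_1 ⟨by push_cast; linarith only [hx], by push_cast; linarith only [h1]⟩ hμ
  case threeE =>
    simp only [clz2] at h1
    push_cast at h1
    rcases le_total x (20 / 1000) with hx | hx
    · have hμ := mu_box (m0 := 6500) (m1 := 6900) (cl := 100) ht0 ht1 (by decide)
      have ha : |T / (((100 : ℤ) : ℝ) / 1000)| ≤ 132 / 100 :=
        abs_le.2 ⟨by linarith only [h0, hx, hμ, hμ.1], by linarith only [h0, hx, hμ, hμ.2]⟩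
      exact rowNE_of e_3e_0 h0 (by linarith only [hx]) ha hμ
    · have hμ := mu_box (m0 := 6500) (m1 := 6900) (cl := 100) ht0 ht1 (by decide)
      exact rowE_of e_3e_1 ⟨by push_cast; linarith only [hx], by push_cast; linarith only [h1]⟩ hμ
  case ring =>
    simp only [clz2] at h1
    push_cast at h1
    rcases le_total x (20 / 1000) with hx | hx
    · have hμ := mu_box (m0 := 7040) (m1 := 10480) (cl := 125) ht0 ht1 (by decide)
      have ha : |T / (((125 : ℤ) : ℝ) / 1000)| ≤ 132 / 100 :=
        abs_le.2 ⟨by linarith only [h0, hx, hμ, hμ.1], by linarith only [h0, hx, hμ, hμ.2]⟩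
      exact rowNE_of e_Z_0 h0 (by linarith only [hx]) ha hμ
    · have hμ := mu_box (m0 := 7040) (m1 := 10480) (cl := 125) ht0 ht1 (by decide)
      exact rowE_of e_Z_1 ⟨by push_cast; linarith only [hx], by push_cast; linarith only [h1]⟩ hμ

theorem twoE_one0 (ht0 : ((-10 : ℤ) : ℝ) / 10000 ≤ T) (ht1 : T ≤ ((660 : ℤ) : ℝ) / 10000)
    (h0 : 0 < x) (h1 : x ≤ 70 / 1000) :
    ((350 : ℤ) : ℝ) / 1000 < sE (shO 0 .twoE x) x (T / (((140 : ℤ) : ℝ) / 1000)) := by
  rcases le_total x (20 / 1000) with hx | hx
  · have hμ := mu_box (m0 := -72) (m1 := 4715) (cl := 140) ht0 ht1 (by decide)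
    have ha : |T / (((140 : ℤ) : ℝ) / 1000)| ≤ 132 / 100 :=
      abs_le.2 ⟨by linarith only [ht0, h0, hx, hμ.1], by linarith only [ht1, h0, hx, hμ.2]⟩
    exact rowNE_of e0_1_0 h0 (by linarith only [hx]) ha hμ
  · have hμ := mu_box (m0 := -72) (m1 := 4715) (cl := 140) ht0 ht1 (by decide)
    exact rowE_of e0_1_1 ⟨by push_cast; linarith only [hx], by push_cast; linarith only [h1]⟩ hμ

theorem twoE_one1 (ht0 : ((-10 : ℤ) : ℝ) / 10000 ≤ T) (ht1 : T ≤ ((660 : ℤ) : ℝ) / 10000)
    (h0 : 70 / 1000 ≤ x) (h1 : x ≤ 125 / 1000) :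
    ((0 : ℤ) : ℝ) / 1000 < sE (shO 1 .twoE x) x (T / (((140 : ℤ) : ℝ) / 1000)) := by
  have hμ := mu_box (m0 := -72) (m1 := 4715) (cl := 140) ht0 ht1 (by decide)
  exact rowE_of e1_1 ⟨by push_cast; linarith only [h0], by push_cast; linarith only [h1]⟩ hμ

theorem twoE_one2 (ht0 : ((-10 : ℤ) : ℝ) / 10000 ≤ T) (ht1 : T ≤ ((660 : ℤ) : ℝ) / 10000)
    (h0 : 125 / 1000 ≤ x) (h1 : x ≤ 140 / 1000) :
    ((0 : ℤ) : ℝ) / 1000 < sE (shO 2 .twoE x) x (T / (((140 : ℤ) : ℝ) / 1000)) := by
  have hμ := mu_box (m0 := -72) (m1 := 4715) (cl := 140) ht0 ht1 (by decide)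
  exact rowE_of e2_1 ⟨by push_cast; linarith only [h0], by push_cast; linarith only [h1]⟩ hμ

end ML

end Pool.Agent.Work.MP_b30479_gt.G2
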