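import Pool.Agent.Work.MP_b30479_gt.G2.MLW
import Pool.Agent.Work.MP_b30479_gt.G2.MLSE

/-!
# The left ramps: sides of the digit `2` in a word, steps at the hinges between small digits
-/

namespace Pool.Agent.Work.MP_b30479_gt.G2

open Finset VOL Filter Topology

namespace SR

open ML

variable {M : ℕ} {b : Fin (M + 1) → ℤ} {zs : DD (tyW b) ⊕ ZZ (tyW b) → ℂ}
variable {y : DD (tyW b) ⊕ ZZ (tyW b) → ℝ}
variable {h h' : Fin M} {i j j' : Fin (M + 1)} {p : Fin 3}

theorem Adj.cl_two (A : Adj h i p j) (hc : clsW b i = .two) :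
    wcl b h = (clz2 (k7 p (clsW b j)) : ℝ) / 1000 := by
  have e1 : ¬ (0 : Fin 3) = 2 := by decide
  rw [A.cl_eq b, hc]
  generalize clsW b j = B
  unfold hpp
  rcases A.slot with rfl | rfl
  · rw [if_neg (by decide)]
    cases B <;> simp only [hp, hp1, k7, e1, if_false] <;> (try split_ifs) <;> simp only [clz2] <;>
      norm_num
  · rw [if_pos rfl]
    cases B <;> simp only [hp, hp1, k7, if_true] <;> (try split_ifs) <;> simp only [clz2] <;>
      norm_num

theorem Adj.cl_twoE (A : Adj h i p j) (hc : clsW b i = .twoE) (hj : clsW b j ≠ .one) :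
    wcl b h = (clz2 (k7 p (clsW b j)) : ℝ) / 1000 := by
  have e1 : ¬ (0 : Fin 3) = 2 := by decide
  rw [A.cl_eq b, hc]
  generalize clsW b j = B at hj
  unfold hpp
  rcases A.slot with rfl | rfl
  · rw [if_neg (by decide)]
    cases B <;> first | exact absurd rfl hj | skip
    all_goals simp only [hp, hp1, k7, e1, if_false] <;> (try split_ifs) <;> simp only [clz2] <;>
      norm_num
  · rw [if_pos rfl]
    cases B <;> first | exact absurd rfl hj | skip
    all_goals simp only [hp, hp1, k7, if_true] <;> (try split_ifs) <;> simp only [clz2] <;>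
      norm_num

theorem Adj.XM_two_le (A : Adj h i p j) (hc : clsW b i = .two) : wXM b h ≤ 80 / 100 := by
  rw [A.XM_eq b, hc]
  generalize clsW b j = B
  unfold hpp
  split_ifs <;> cases B <;> simp only [hp, hp1] <;> norm_num

theorem Adj.low_two (A : Adj h i p j) (hb : ClassW b) (hL : Loc b zs) (hy : Mx b zs y)
    (hc : clsW b i = .two) : -(99 / 1000) ≤ (Yw b zs y i p).im := by
  have hop := A.opp hb (Or.inl (by rw [hc]; decide))
  obtain ⟨-, -, h3, h4⟩ := A.box hb hL
  rw [hc, A.ss hop] at h3 h4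
  refine A.im_low hy (by norm_num) (le_trans ?_ h3)
  generalize clsW b j = B
  cases B <;> norm_num [hbox]

/-- the data of the side of a digit `2` -/
theorem Adj.two_H (A' : Adj h' i p.rev j') (hb : ClassW b) (hL : Loc b zs)
    (hy : Mx b zs y) (hc : clsW b i = .two) {x0 x1 t0 t1 y0 y1 : ℤ} {T x : ℝ} (ht : -2000 ≤ t0)
    (g0 : (t0 : ℝ) / 10000 ≤ T) (g1 : T ≤ (t1 : ℝ) / 10000)
    (k0 : (x0 : ℝ) / 1000 ≤ x) (k1 : x ≤ (x1 : ℝ) / 1000)
    (l0 : (y0 : ℝ) / 1000 ≤ y (.inl (.inl h'))) (l1 : y (.inl (.inl h')) ≤ (y1 : ℝ) / 1000) :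
    (dW x0 x1 t0 t1 y0 y1).H T x (y (.inl (.inl h'))) (Yw b zs y i p.rev).im := by
  have k := A'.low_two hb hL hy hc
  have ht' : (-2000 : ℝ) ≤ t0 := by exact_mod_cast ht
  have hp : 0 ≤ y (.inl (.inl h')) := by
    have := (A'.rh hy).re0
    rwa [A'.re] at this
  refine ⟨k0, k1, g0, g1, ?_, ?_, l0, l1, ?_⟩
  · simp only [dW]; push_cast; linarith only [k]
  · simp only [dW]; push_cast; linarith only [g0, k, ht']
  · simp only [dW]; push_cast; simpa using hp

/-! ### digit `2`, away from the digits `1` -/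

theorem tw_box (p : Fin 3) {B : Cl} (hB : B ≠ .one) {T : ℝ} (h3 : (hbox .two B false).t0 ≤ T)
    (h4 : T ≤ (hbox .two B false).t1) : ((tw (k7 p B)).1 : ℝ) / 10000 ≤ T ∧
      T ≤ ((tw (k7 p B)).2 : ℝ) / 10000 := by
  cases B <;> first | exact absurd rfl hB | skip
  all_goals
    simp only [hbox] at h3 h4
    simp only [k7]
    (try split_ifs) <;> simp only [tw] <;> push_cast <;> constructor <;> linarith only [h3, h4]

theorem k7_ne_one {p : Fin 3} {B : Cl} (hB : B ≠ .one) : k7 p B ≠ .one := by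
  cases B <;> first | exact absurd rfl hB | skip
  all_goals simp only [k7]; (try split_ifs) <;> decide

theorem tw_ge (K : K7) : -2000 ≤ (tw K).1 := by cases K <;> decide

/-- **A digit `2` away from the digits `1`, round `L0`.** -/
theorem Adj.two_L0 (A : Adj h i p j) (A' : Adj h' i p.rev j') (hb : ClassW b) (hL : Loc b zs)
    (hy : Mx b zs y) (hpos : ∀ h : Fin M, 0 < y (.inl (.inl h))) (hc : clsW b i = .two)
    (hj : clsW b j ≠ .one) (hx : y (.inl (.inl h)) ≤ 70 / 1000) :
    1 / 10 ≤ Sw b zs y i p ((zs (.inl (.inl h))).im / wcl b h) +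
      Real.pi / 2 * ofs (b i) ((zs (.inl (.inl h))).im / wcl b h) := by
  have hop := A.opp hb (Or.inl (by rw [hc]; decide))
  obtain ⟨-, -, h3, h4⟩ := A.box hb hL
  rw [hc, A.ss hop] at h3 h4
  obtain ⟨g0, g1⟩ := tw_box p hj h3 h4
  have hXM : y (.inl (.inl h')) ≤ 80 / 100 := by
    have := (A'.rh hy).reM
    rw [A'.re] at this
    exact this.trans (A'.XM_two_le hc)
  have hcl : y (.inl (.inl h)) ≤ wcl b h := by
    have h1 : (100 : ℤ) ≤ clz2 (k7 p (clsW b j)) := by
      generalize k7 p (clsW b j) = K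
      cases K <;> decide
    have h2 : (100 : ℝ) ≤ clz2 (k7 p (clsW b j)) := by exact_mod_cast h1
    rw [A.cl_two hc]
    linarith only [hx, h2]
  have H := A'.two_H hb hL hy hc (x0 := 0) (x1 := 70) (y0 := 0) (y1 := 800) (tw_ge _) g0 g1
    (x := y (.inl (.inl h))) (by push_cast; linarith only [hpos, hpos h]) (by push_cast; linarith only [hx])
    (by push_cast; linarith only [hpos, hpos h']) (by push_cast; linarith only [hXM])
  have := two_real0 (k7_ne_one hj) H (hpos h) (hpos h') (by linarith only [hx, hXM])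
  rw [← A.cl_two hc] at this
  rw [A.two_sd A' hb hy hc hcl (hpos h) (hpos h') (by linarith only [hx, hXM])]
  have e : cR 1 0 0 (y (.inl (.inl h))) = Real.pi / 2 := by unfold cR; push_cast; ring
  rw [e] at this
  push_cast at this
  linarith only [this]

/-- **A digit `2` away from the digits `1`, rounds `L1` and `L2`.** -/
theorem Adj.two_L1 (A : Adj h i p j) (A' : Adj h' i p.rev j') (hb : ClassW b) (hL : Loc b zs)
    (hy : Mx b zs y) (hpos : ∀ h : Fin M, 0 < y (.inl (.inl h))) (hc : clsW b i = .two)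
    (hj : clsW b j ≠ .one) (hx0 : 70 / 1000 ≤ y (.inl (.inl h))) (hx : y (.inl (.inl h)) ≤ wcl b h)
    (hy0 : 70 / 1000 ≤ y (.inl (.inl h'))) (hy1 : y (.inl (.inl h')) ≤ 56 / 100) :
    2 / 10 ≤ Sw b zs y i p ((zs (.inl (.inl h))).im / wcl b h) +
      Real.pi / 2 * ofs (b i) ((zs (.inl (.inl h))).im / wcl b h) := by
  have hop := A.opp hb (Or.inl (by rw [hc]; decide))
  obtain ⟨-, -, h3, h4⟩ := A.box hb hL
  rw [hc, A.ss hop] at h3 h4
  obtain ⟨g0, g1⟩ := tw_box p hj h3 h4
  have hcl := hx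
  rw [A.cl_two hc] at hcl
  have h13 : y (.inl (.inl h)) ≤ 16 / 100 := by
    have h1 : clz2 (k7 p (clsW b j)) ≤ (160 : ℤ) := by
      generalize k7 p (clsW b j) = K
      cases K <;> decide
    have h2 : (clz2 (k7 p (clsW b j)) : ℝ) ≤ 160 := by exact_mod_cast h1
    linarith only [hcl, h2]
  have H := A'.two_H hb hL hy hc (x0 := 70) (y0 := 70) (y1 := 560) (tw_ge _) g0 g1
    (x := y (.inl (.inl h))) (by push_cast; linarith only [hx0]) hcl
    (by push_cast; linarith only [hy0]) (by push_cast; linarith only [hy1])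
  have := two_real1 (k7_ne_one hj) H (hpos h) (hpos h') (by linarith only [hy1, h13])
  rw [← A.cl_two hc] at this
  rw [A.two_sd A' hb hy hc hx (hpos h) (hpos h') (by linarith only [hy1, h13])]
  have e : cR 1 0 0 (y (.inl (.inl h))) = Real.pi / 2 := by unfold cR; push_cast; ring
  rw [e] at this
  push_cast at this
  linarith only [this]

/-! ### digit `2` next to a digit `1` -/

/-- the window of a hinge `2 | 1` in the frame of the digit `2` -/
theorem Adj.two_win (A : Adj h i p j) (hb : ClassW b) (hX : LocX b zs) (hc : clsW b i = .two)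
    (hj : clsW b j = .one) : ∃ E : Bool,
    ((cond E (-985) (-800) : ℤ) : ℝ) / 10000 ≤ ofs (b i) (zs (.inl (.inl h))).im ∧
      ofs (b i) (zs (.inl (.inl h))).im ≤ ((cond E (-320) 180 : ℤ) : ℝ) / 10000 := by
  have hop := A.symm.opp hb (Or.inl (by rw [hj]; decide))
  obtain ⟨h1, j1, A1⟩ := A.symm.other_one hb hj
  obtain ⟨w1, w2, -, -⟩ := hX.win A.symm A1 hj
  rw [ofs_opp hop, hc] at *
  refine ⟨decide (clsW b j1 = .twoE ∨ clsW b j1 = .threeE), ?_⟩
  generalize clsW b j1 = C at w1 w2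
  cases C <;> simp only [cw] at w1 w2 <;> simp only [reduceCtorEq, or_false, false_or, or_self, decide_true, decide_false, cond_true, cond_false] <;>
    push_cast <;> constructor <;> linarith only [w2, w1]

theorem Adj.cl_two_one (A : Adj h i p j) (hc : clsW b i = .two) (hj : clsW b j = .one) :
    wcl b h = ((160 : ℤ) : ℝ) / 1000 := by
  rw [A.cl_two hc, hj]
  rfl

/-- **A digit `2` next to a digit `1`, round `L0`.** -/
theorem Adj.two_one_L0 (A : Adj h i p j) (A' : Adj h' i p.rev j') (hb : ClassW b) (hL : Loc b zs)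
    (hX : LocX b zs) (hy : Mx b zs y) (hpos : ∀ h : Fin M, 0 < y (.inl (.inl h)))
    (hc : clsW b i = .two) (hj : clsW b j = .one) (hx : y (.inl (.inl h)) ≤ 70 / 1000) :
    35 / 100 ≤ Sw b zs y i p ((zs (.inl (.inl h))).im / wcl b h) +
      shO 0 .two (y (.inl (.inl h))) * ofs (b i) ((zs (.inl (.inl h))).im / wcl b h) := by
  obtain ⟨E, g0, g1⟩ := A.two_win hb hX hc hj
  have hXM : y (.inl (.inl h')) ≤ 80 / 100 := by
    have := (A'.rh hy).reM
    rw [A'.re] at this
    exact this.trans (A'.XM_two_le hc)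
  have hcl : y (.inl (.inl h)) ≤ wcl b h := by
    rw [A.cl_two_one hc hj]; push_cast; linarith only [hx]
  have H := A'.two_H hb hL hy hc (x0 := 0) (x1 := 70) (y0 := 0) (y1 := 800)
    (by cases E <;> decide) g0 g1
    (x := y (.inl (.inl h))) (by push_cast; linarith only [hpos, hpos h]) (by push_cast; linarith only [hx])
    (by push_cast; linarith only [hpos, hpos h']) (by push_cast; linarith only [hXM])
  have := two_one0 E H (hpos h) (hpos h') (by linarith only [hx, hXM])
  rw [← A.cl_two_one hc hj] at this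
  rw [A.two_sd A' hb hy hc hcl (hpos h) (hpos h') (by linarith only [hx, hXM])]
  push_cast at this
  linarith only [this]

/-- **A digit `2` next to a digit `1`, round `L1`.** -/
theorem Adj.two_one_L1 (A : Adj h i p j) (A' : Adj h' i p.rev j') (hb : ClassW b) (hL : Loc b zs)
    (hX : LocX b zs) (hy : Mx b zs y) (hpos : ∀ h : Fin M, 0 < y (.inl (.inl h)))
    (hc : clsW b i = .two) (hj : clsW b j = .one) (hx0 : 70 / 1000 ≤ y (.inl (.inl h)))
    (hx : y (.inl (.inl h)) ≤ 150 / 1000) (hy0 : 70 / 1000 ≤ y (.inl (.inl h')))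
    (hy1 : y (.inl (.inl h')) ≤ 56 / 100) :
    19 / 100 ≤ Sw b zs y i p ((zs (.inl (.inl h))).im / wcl b h) +
      shO 1 .two (y (.inl (.inl h))) * ofs (b i) ((zs (.inl (.inl h))).im / wcl b h) := by
  obtain ⟨E, g0, g1⟩ := A.two_win hb hX hc hj
  have hcl : y (.inl (.inl h)) ≤ wcl b h := by
    rw [A.cl_two_one hc hj]; push_cast; linarith only [hx]
  have H := A'.two_H hb hL hy hc (x0 := 70) (x1 := 150) (y0 := 70) (y1 := 560)
    (by cases E <;> decide) g0 g1
    (x := y (.inl (.inl h))) (by push_cast; linarith only [hx0]) (by push_cast; linarith only [hx])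
    (by push_cast; linarith only [hy0]) (by push_cast; linarith only [hy1])
  have := two_one1 E H (hpos h) (hpos h') (by linarith only [hx, hy1])
  rw [← A.cl_two_one hc hj] at this
  rw [A.two_sd A' hb hy hc hcl (hpos h) (hpos h') (by linarith only [hx, hy1])]
  push_cast at this
  linarith only [this]

/-- **A digit `2` next to a digit `1`, round `L2`.** -/
theorem Adj.two_one_L2 (A : Adj h i p j) (A' : Adj h' i p.rev j') (hb : ClassW b) (hL : Loc b zs)
    (hX : LocX b zs) (hy : Mx b zs y) (hpos : ∀ h : Fin M, 0 < y (.inl (.inl h)))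
    (hc : clsW b i = .two) (hj : clsW b j = .one) (hx0 : 150 / 1000 ≤ y (.inl (.inl h)))
    (hx : y (.inl (.inl h)) ≤ 160 / 1000) (hy0 : 100 / 1000 ≤ y (.inl (.inl h')))
    (hy1 : y (.inl (.inl h')) ≤ 56 / 100) :
    10 / 100 ≤ Sw b zs y i p ((zs (.inl (.inl h))).im / wcl b h) +
      shO 2 .two (y (.inl (.inl h))) * ofs (b i) ((zs (.inl (.inl h))).im / wcl b h) := by
  obtain ⟨E, g0, g1⟩ := A.two_win hb hX hc hj
  have hcl : y (.inl (.inl h)) ≤ wcl b h := by
    rw [A.cl_two_one hc hj]; push_cast; linarith only [hx]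
  have H := A'.two_H hb hL hy hc (x0 := 150) (x1 := 160) (y0 := 100) (y1 := 560)
    (by cases E <;> decide) g0 g1
    (x := y (.inl (.inl h))) (by push_cast; linarith only [hx0]) (by push_cast; linarith only [hx])
    (by push_cast; linarith only [hy0]) (by push_cast; linarith only [hy1])
  have := two_one2 E H (hpos h) (hpos h') (by linarith only [hx, hy1])
  rw [← A.cl_two_one hc hj] at this
  rw [A.two_sd A' hb hy hc hcl (hpos h) (hpos h') (by linarith only [hx, hy1])]
  push_cast at this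
  linarith only [this]

/-! ### digit `2` at an end -/

theorem twE_box (p : Fin 3) (B : Cl) {T : ℝ} (h3 : (hbox .twoE B false).t0 ≤ T)
    (h4 : T ≤ (hbox .twoE B false).t1) : ((twE (k7 p B)).1 : ℝ) / 10000 ≤ T ∧
      T ≤ ((twE (k7 p B)).2 : ℝ) / 10000 := by
  cases B <;> simp only [hbox] at h3 h4 <;> simp only [k7] <;> (try split_ifs) <;>
    simp only [twE] <;> push_cast <;> constructor <;> linarith only [h3, h4]

/-- **A digit `2` at an end, away from the digits `1`.** -/
theorem Adj.twoE_L (A : Adj h i p j) (hb : ClassW b) (hL : Loc b zs)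
    (hy : Mx b zs y) (hpos : ∀ h : Fin M, 0 < y (.inl (.inl h))) (hc : clsW b i = .twoE)
    (hj : clsW b j ≠ .one) (hx : y (.inl (.inl h)) ≤ wcl b h) :
    (eE2 (k7 p (clsW b j)) : ℝ) / 1000 ≤ Sw b zs y i p ((zs (.inl (.inl h))).im / wcl b h) +
      Real.pi / 2 * ofs (b i) ((zs (.inl (.inl h))).im / wcl b h) := by
  have hop := A.opp hb (Or.inl (by rw [hc]; decide))
  obtain ⟨-, -, h3, h4⟩ := A.box hb hL
  rw [hc, A.ss hop] at h3 h4
  obtain ⟨g0, g1⟩ := twE_box p (clsW b j) h3 h4
  have hcl := hx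
  rw [A.cl_twoE hc hj] at hcl
  have h13 : y (.inl (.inl h)) < 1 := by
    have h1 : clz2 (k7 p (clsW b j)) ≤ (160 : ℤ) := by
      generalize k7 p (clsW b j) = K
      cases K <;> decide
    have h2 : (clz2 (k7 p (clsW b j)) : ℝ) ≤ 160 := by exact_mod_cast h1
    linarith only [hcl, h2]
  have := twoE_real (k7_ne_one hj) g0 g1 (hpos h) hcl
  rw [← A.cl_twoE hc hj] at this
  rw [A.twoE_sE hb hy hc hx (hpos h) h13]
  have e : cR 1 0 0 (y (.inl (.inl h))) = Real.pi / 2 := by unfold cR; push_cast; ring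
  rw [e] at this
  exact this.le

theorem Adj.cl_twoE_one (A : Adj h i p j) (hc : clsW b i = .twoE) (hj : clsW b j = .one) :
    wcl b h = ((140 : ℤ) : ℝ) / 1000 := by
  rw [A.symm.cl_one hj, hc]
  rfl

/-- **A digit `2` at an end, next to a digit `1`.** -/
theorem Adj.twoE_one_L (A : Adj h i p j) (hb : ClassW b) (hL : Loc b zs)
    (hy : Mx b zs y) (hpos : ∀ h : Fin M, 0 < y (.inl (.inl h))) (hc : clsW b i = .twoE)
    (hj : clsW b j = .one) {n : ℕ} {e : ℝ}
    (hn : (n = 0 ∧ e = 35 / 100 ∧ y (.inl (.inl h)) ≤ 70 / 1000) ∨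
      (n = 1 ∧ e = 0 ∧ 70 / 1000 ≤ y (.inl (.inl h)) ∧ y (.inl (.inl h)) ≤ 125 / 1000) ∨
      (n = 2 ∧ e = 0 ∧ 125 / 1000 ≤ y (.inl (.inl h)) ∧ y (.inl (.inl h)) ≤ 140 / 1000)) :
    e ≤ Sw b zs y i p ((zs (.inl (.inl h))).im / wcl b h) +
      shO n .twoE (y (.inl (.inl h))) * ofs (b i) ((zs (.inl (.inl h))).im / wcl b h) := by
  have hop := A.opp hb (Or.inl (by rw [hc]; decide))
  obtain ⟨-, -, h3, h4⟩ := A.box hb hL
  rw [hc, A.ss hop] at h3 h4
  obtain ⟨g0, g1⟩ := twE_box p (clsW b j) h3 h4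
  rw [hj] at g0 g1
  have hcl := A.cl_twoE_one hc hj
  rcases hn with ⟨rfl, rfl, hx⟩ | ⟨rfl, rfl, hx0, hx⟩ | ⟨rfl, rfl, hx0, hx⟩
  · have := twoE_one0 g0 g1 (hpos h) hx
    rw [← hcl] at this
    rw [A.twoE_sE hb hy hc (by rw [hcl]; push_cast; linarith only [hx]) (hpos h) (by linarith only [hx])]
    push_cast at this
    linarith only [this]
  · have := twoE_one1 g0 g1 hx0 hx
    rw [← hcl] at this
    rw [A.twoE_sE hb hy hc (by rw [hcl]; push_cast; linarith only [hx]) (hpos h) (by linarith only [hx])]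
    push_cast at this
    linarith only [this]
  · have := twoE_one2 g0 g1 hx0 hx
    rw [← hcl] at this
    rw [A.twoE_sE hb hy hc (by rw [hcl]; push_cast; linarith only [hx]) (hpos h) (by linarith only [hx])]
    push_cast at this
    linarith only [this]

end SR

end Pool.Agent.Work.MP_b30479_gt.G2
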