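import Pool.Agent.Work.MP_b30479_gt.G2.MLW

/-!
# The round `L3`: a digit `1` next to a ring

The hinge `1 | ring` is between `145 / 1000` and `160 / 1000`; floors of the round `L2`.  Rows
generated.
-/

namespace Pool.Agent.Work.MP_b30479_gt.G2

open Real Set VOL NumI NumI.E SR

namespace ML

theorem oz_1 : runT (row 1 (cE 2 0 4000) 280 (-80) (-10) 160 0 1)
    (.y (.z (.z (.z (.z (.y .b (.z (.x .a (.y .a .a)) .a)) .b) .a) .a) (.z .a (.z .a .b))) (.z (.z (.z
    (.z (.y (.z (.x .a (.y .a .a)) .a) (.z (.x .a (.y .a .a)) .a)) .a) .a) .a) (.z .a .a)))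
    (bx 145 160 2375 8500 150 640) = true := by decide +kernel

theorem oz_2 : runT (row 1 (cE 2 0 4000) 450 (-8) 63 160 0 1)
    (.z (.z (.z (.y (.y .a .a) (.x .a .a)) (.y .a .a)) .b) (.y .a .a))
    (bx 145 160 3937 9063 160 560) = true := by decide +kernel

theorem oz_E : runT (row 1 (cE 2 0 4000) 280 (-61) 64 160 0 1)
    (.z (.z (.z (.y (.z (.x .a (.y .b (.x .a .a))) .a) (.z (.x .a (.x .a (.y .a .a))) .a)) .b) .a) .a)
    (bx 145 160 6250 9875 140 370) = true := by decide +kernel

variable {T x y k : ℝ}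

theorem lz_1 (H : (⟨145, 160, 380, 1360, -80, -10, 150, 640, 0, 1⟩ : Dat).H T x y k) (h0 : 0 < x) (h0' : 0 < y) (hs : x + y < 1) :
    ((280 : ℤ) : ℝ) / 1000 < sd 1 (cR 2 0 4000 x) x (T / (((160 : ℤ) : ℝ) / 1000)) y k :=
  use_row (Or.inl rfl) oz_1 _ (by decide) H h0 h0' hs

theorem lz_2 (H : (⟨145, 160, 630, 1450, -8, 63, 160, 560, 0, 1⟩ : Dat).H T x y k) (h0 : 0 < x) (h0' : 0 < y) (hs : x + y < 1) :
    ((450 : ℤ) : ℝ) / 1000 < sd 1 (cR 2 0 4000 x) x (T / (((160 : ℤ) : ℝ) / 1000)) y k :=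
  use_row (Or.inl rfl) oz_2 _ (by decide) H h0 h0' hs

theorem lz_E (H : (⟨145, 160, 1000, 1580, -61, 64, 140, 370, 0, 1⟩ : Dat).H T x y k) (h0 : 0 < x) (h0' : 0 < y) (hs : x + y < 1) :
    ((280 : ℤ) : ℝ) / 1000 < sd 1 (cR 2 0 4000 x) x (T / (((160 : ℤ) : ℝ) / 1000)) y k :=
  use_row (Or.inl rfl) oz_E _ (by decide) H h0 h0' hs

end ML

open Finset VOL Filter Topology

namespace SR

open ML

variable {M : ℕ} {b : Fin (M + 1) → ℤ} {zs : DD (tyW b) ⊕ ZZ (tyW b) → ℂ}
variable {y : DD (tyW b) ⊕ ZZ (tyW b) → ℝ}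
variable {h h' : Fin M} {i j j' : Fin (M + 1)} {p : Fin 3}

/-- **A digit `1` in the round `L3`** (next to a ring), with the floors of the round `L2`. -/
theorem Adj.one_L3b (A : Adj h i p j) (A' : Adj h' i p.rev j') (hb : ClassW b) (hX : LocX b zs)
    (hy : Mx b zs y) (hpos : ∀ h : Fin M, 0 < y (.inl (.inl h))) (hF : Flr b y F2)
    (hc : clsW b i = .one) (hj : clsW b j = .ring)
    (hx0 : 145 / 1000 ≤ y (.inl (.inl h))) (hx : y (.inl (.inl h)) ≤ 160 / 1000)
    (hcap : y (.inl (.inl h')) ≤ (cpz 2 .ring (clsW b j') : ℝ) / 1000) :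
    (28 : ℝ) / 100 ≤ Sw b zs y i p ((zs (.inl (.inl h))).im / wcl b h) +
      (Real.pi - 4 * y (.inl (.inl h))) * ofs (b i) ((zs (.inl (.inl h))).im / wcl b h) := by
  have hcl : wcl b h = ((160 : ℤ) : ℝ) / 1000 := by
    rw [A.cl_one hc, hj]
    rfl
  have ok := okp_of hb A A' hc
  have hF' := hF A'
  obtain ⟨w1, w2, w3, -⟩ := hX.win A A' hc
  obtain ⟨v1, -, -, -⟩ := hX.win A' A.rr hc
  have hs : y (.inl (.inl h)) + y (.inl (.inl h')) < 1 := by
    have : (cpz 2 .ring (clsW b j') : ℝ) ≤ 650 := by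
      generalize clsW b j' = C
      cases C <;> simp only [cpz] <;> norm_num
    linarith only [hx, hcap, this]
  have e1 := A.one_sd A' hb hy hc (by rw [hcl]; push_cast; linarith only [hx]) (hpos h) (hpos h') hs
    (Real.pi - 4 * y (.inl (.inl h)))
  rw [hj] at ok w1 w2 w3 v1
  rw [e1, hcl]
  have e2 : Real.pi - 4 * y (.inl (.inl h)) = cR 2 0 4000 (y (.inl (.inl h))) := by
    unfold cR
    push_cast
    ring
  rw [e2]
  have hk : ∀ {a s : ℝ}, a ≤ 0 → a ≤ ofs (b i) (zs (.inl (.inl h'))).im →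
      s - ofs (b i) (zs (.inl (.inl h))).im ≤ 0 →
      s ≤ ofs (b i) (zs (.inl (.inl h))).im + ofs (b i) (zs (.inl (.inl h'))).im →
      a ≤ (Yw b zs y i p.rev).im ∧
        s - ofs (b i) (zs (.inl (.inl h))).im ≤ (Yw b zs y i p.rev).im :=
    fun ha ha' hs1 hs2 => ⟨A'.im_low hy ha ha', A'.im_low hy hs1 (by linarith only [hs2])⟩
  have hv := (hpos h').le
  cases hj' : clsW b j'
  case one =>
    rw [hc, hj'] at hF'
    rw [hj'] at w1 w2 w3 v1 hcap
    simp only [cw, F2, cpz] at w1 w2 w3 v1 hF' hcap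
    have t11 := (abs_le.1 (hX.t11 hb A' hc hj')).1
    obtain ⟨k1, k2⟩ := hk (a := -(80 / 1000)) (s := -(10 / 1000)) (by norm_num) t11 (by linarith only [hx0, hF', w1, hs]) w3
    exact le_trans (by norm_num) (lz_1
      ⟨by push_cast; linarith only [hx0], by push_cast; linarith only [hx], by push_cast; linarith only [w1],
        by push_cast; linarith only [w2], by push_cast; linarith only [k1], by push_cast; linarith only [k2],
        by push_cast; linarith only [hF'], by push_cast at hcap ⊢; linarith only [hcap],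
        by push_cast; linarith only [hx0, hF', hs]⟩ (hpos h) (hpos h') hs).le
  case two =>
    rw [hc, hj'] at hF'
    rw [hj'] at w1 w2 w3 v1 hcap
    simp only [cw, F2, cpz] at w1 w2 w3 v1 hF' hcap
    obtain ⟨k1, k2⟩ := hk (a := -(8 / 1000)) (s := 63 / 1000) (by norm_num) (by linarith only [v1]) (by linarith only [w1])
      (by linarith only [hx0, hF', w3, hs])
    exact le_trans (by norm_num) (lz_2
      ⟨by push_cast; linarith only [hx0], by push_cast; linarith only [hx], by push_cast; linarith only [w1],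
        by push_cast; linarith only [w2], by push_cast; linarith only [k1], by push_cast; linarith only [k2],
        by push_cast; linarith only [hF'], by push_cast at hcap ⊢; linarith only [hcap],
        by push_cast; linarith only [hx0, hF', hs]⟩ (hpos h) (hpos h') hs).le
  case twoE =>
    rw [hc, hj'] at hF'
    rw [hj'] at w1 w2 w3 v1 hcap
    simp only [cw, F2, cpz] at w1 w2 w3 v1 hF' hcap
    obtain ⟨k1, k2⟩ := hk (a := -(61 / 1000)) (s := 64 / 1000) (by norm_num) (by linarith only [v1])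
      (by linarith only [hx0, hF', w1, hs]) (by linarith only [w3])
    exact le_trans (by norm_num) (lz_E
      ⟨by push_cast; linarith only [hx0], by push_cast; linarith only [hx], by push_cast; linarith only [w1],
        by push_cast; linarith only [w2], by push_cast; linarith only [k1], by push_cast; linarith only [k2],
        by push_cast; linarith only [hF'], by push_cast at hcap ⊢; linarith only [hcap],
        by push_cast; linarith only [hx0, hF', hs]⟩ (hpos h) (hpos h') hs).le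
  all_goals exact absurd ok (by rw [hj']; simp [ML.okp])

end SR

end Pool.Agent.Work.MP_b30479_gt.G2
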