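import Pool.Agent.Work.MP_b30479_gt.G2.MLDef
import Pool.Agent.Work.MP_b30479_gt.G2.Rng

/-!
# The left ramps: sides of the digits `1`, `2` and of a `2` at an end
-/

namespace Pool.Agent.Work.MP_b30479_gt.G2

open Real Set VOL

namespace ML

open SR

variable {B C : Cl} {w v : ℂ} {T T' XM XM' cr cr' cl' : ℝ}

/-- **first left round, digit `1`** with neighbours `B` (at `w`) and `C` (at `v`) -/
theorem one_left0 (hBC : okp B C) (hw : RH w T XM (cl1 B) cr) (hv : RH v T' XM' (cl1 C) cr')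
    (hcr : 0 < cr) (hX : cl1 B + cr < XM) (hcr' : 0 < cr') (hX' : cl1 C + cr' < XM')
    (hM' : XM' ≤ XM1 C) (hT0 : lo1 B ≤ T) (hT1 : T ≤ hi1 B) (hT0' : lo1 C ≤ T') (hT1' : T' ≤ hi1 C)
    (h0 : 0 < w.re) (h0' : 0 < v.re) (hx : w.re ≤ 7 / 10 * cl1 B)
    (hy : w.re / cl1 B ≤ v.re / cl1 C) :
    e10 B ≤ S1 1 (T / cl1 B) w v + sh1 B w.re * (T / cl1 B) := by
  sorry

/-- **second left round, digit `1`** -/
theorem one_left1 (hBC : okp B C) (hw : RH w T XM (cl1 B) cr) (hv : RH v T' XM' (cl1 C) cr')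
    (hcr : 0 < cr) (hX : cl1 B + cr < XM) (hcr' : 0 < cr') (hX' : cl1 C + cr' < XM')
    (hT0 : lo1 B ≤ T) (hT1 : T ≤ hi1 B) (hT0' : lo1 C ≤ T') (hT1' : T' ≤ hi1 C)
    (h11 : B = .one → C = .one → -(1 / 10) ≤ T + T')
    (hx0 : 7 / 10 * cl1 B ≤ w.re) (hx : w.re ≤ cl1 B) (hy : w.re / cl1 B ≤ v.re / cl1 C)
    (hcap : v.re ≤ cap1 C) :
    e11 B ≤ S1 1 (T / cl1 B) w v + sh1 B w.re * (T / cl1 B) := by
  sorry

/-- **digit `2` next to a digit `1`** -/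
theorem two_left_one (hw : RH w T XM (16 / 100) cr) (hv : RH v T' XM' cl' cr')
    (hcr : 0 < cr) (hX : 16 / 100 + cr < XM) (hcl' : 0 < cl') (hcr' : 0 < cr') (hX' : cl' + cr' < XM')
    (hM' : XM' ≤ 65 / 100) (hT0 : -(985 / 10000) ≤ T) (hT1 : T ≤ 18 / 1000)
    (hT' : |T'| ≤ 985 / 10000) (hT'' : |T'| ≤ 96 / 100 * cl')
    (h0 : 0 < w.re) (h0' : 0 < v.re) (hx : w.re ≤ 16 / 100)
    (hcap : 112 / 1000 < w.re → v.re ≤ 485 / 1000) :
    -(5 / 100) ≤ S2 1 (T / (16 / 100)) w v + (π - 9 / 2 * w.re) * (T / (16 / 100)) := by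
  sorry

/-- **digit `2` next to another region** -/
theorem two_left (hw : RH w T XM (1 / 10) cr) (hv : RH v T' XM' cl' cr')
    (hcr : 0 < cr) (hX : 1 / 10 + cr < XM) (hcl' : 0 < cl') (hcr' : 0 < cr') (hX' : cl' + cr' < XM')
    (hM' : XM' ≤ 65 / 100) (hT0 : -(85 / 1000) ≤ T) (hT1 : T ≤ 96 / 1000)
    (hT' : |T'| ≤ 985 / 10000) (hT'' : |T'| ≤ 96 / 100 * cl')
    (h0 : 0 < w.re) (h0' : 0 < v.re) (hx : w.re ≤ 1 / 10) :
    1 / 10 ≤ S2 1 (T / (1 / 10)) w v + π / 2 * (T / (1 / 10)) := by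
  sorry

/-- **end `2` next to a digit `1`**, first left round -/
theorem twoE_left_one0 (hw : RH w T XM (16 / 100) cr) (hcr : 0 < cr) (hX : 16 / 100 + cr < XM)
    (hT0 : -(1 / 1000) ≤ T) (hT1 : T ≤ 66 / 1000) (h0 : 0 < w.re) (hx : w.re ≤ 112 / 1000) :
    2 / 10 ≤ S2 1 (T / (16 / 100)) w 0 + (π - 9 / 2 * w.re) * (T / (16 / 100)) := by
  sorry

/-- **end `2` next to a digit `1`**, second left round -/
theorem twoE_left_one1 (hw : RH w T XM (16 / 100) cr) (hcr : 0 < cr) (hX : 16 / 100 + cr < XM)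
    (hT0 : -(1 / 1000) ≤ T) (hT1 : T ≤ 66 / 1000) (h0 : 0 < w.re) (hx : w.re ≤ 16 / 100) :
    -(5 / 100) ≤ S2 1 (T / (16 / 100)) w 0 + (π - 9 / 2 * w.re) * (T / (16 / 100)) := by
  sorry

/-- **end `2` next to an interior `3`** -/
theorem twoE_left_three (hw : RH w T XM (15 / 100) cr) (hcr : 0 < cr) (hX : 15 / 100 + cr < XM)
    (hT0 : 76 / 1000 ≤ T) (hT1 : T ≤ 98 / 1000) (h0 : 0 < w.re) (hx : w.re ≤ 15 / 100) :
    -(38 / 100) ≤ S2 1 (T / (15 / 100)) w 0 + π / 2 * (T / (15 / 100)) := by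
  sorry

/-- **end `2` next to another region** -/
theorem twoE_left (hw : RH w T XM (1 / 10) cr) (hcr : 0 < cr) (hX : 1 / 10 + cr < XM)
    (hT0 : -(1 / 1000) ≤ T) (hT1 : T ≤ 131 / 1000) (h0 : 0 < w.re) (hx : w.re ≤ 1 / 10) :
    2 / 10 ≤ S2 1 (T / (1 / 10)) w 0 + π / 2 * (T / (1 / 10)) := by
  sorry

end ML

end Pool.Agent.Work.MP_b30479_gt.G2
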