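import Pool.Agent.Work.MP_b30479_gt.G2.MaxP
import Pool.Agent.Work.MP_b30479_gt.G2.VHess

/-!
# Level side lemmas: finite differences along the gauge curves
-/

namespace Pool.Agent.Work.MP_b30479_gt.G2

open Real Set VOL

/-- the point with real part `x` at height `t` -/
noncomputable def lv (x t : ℝ) : ℂ := (x : ℂ) + (t : ℂ) * Complex.I

@[simp] theorem lv_re (x t : ℝ) : (lv x t).re = x := by simp [lv]
@[simp] theorem lv_im (x t : ℝ) : (lv x t).im = t := by simp [lv]

theorem lv_add (x t x' t' : ℝ) : lv x t + lv x' t' = lv (x + x') (t + t') := by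
  unfold lv
  push_cast
  ring

theorem lv_eq (u : ℂ) : lv u.re u.im = u := Complex.re_add_im u

theorem lv_sin_ne {x t : ℝ} (h0 : 0 < x) (h1 : x < 1) : Complex.sin (Real.pi * lv x t) ≠ 0 :=
  sin_ne_of_strip ⟨by simpa using h0, by simpa using h1⟩

theorem hasDerivAt_LL_lv {x t : ℝ} (h0 : 0 < x) (h1 : x < 1) :
    HasDerivAt (fun x : ℝ => LL (lv x t)) (CC (lv x t)) x := by
  have e : ∀ x : ℝ, (t : ℂ) * Complex.I + (x : ℂ) = lv x t := by
    intro x
    unfold lv
    ring
  have h := hasDerivAt_LL_level ((t : ℂ) * Complex.I) 1 x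
    (by rw [one_mul, e]; exact lv_sin_ne h0 h1)
  simpa only [one_mul, e] using h

/-- two positive numbers below one have sum below one iff the sum of the gauges is negative -/
theorem add_lt_one_iff {x y : ℝ} (hx : x ∈ Ioo (0 : ℝ) 1) (hy : y ∈ Ioo (0 : ℝ) 1) :
    x + y < 1 ↔ gh x + gh y < 0 := by
  have hp := Real.pi_pos
  have h1 : y ∈ Ioo (0 : ℝ) 1 := hy
  have h2 : 1 - y ∈ Ioo (0 : ℝ) 1 := ⟨by linarith only [hy, hy.2], by linarith only [hy, hy.1]⟩
  have h3 : gh (1 - y) = -gh y := by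
    unfold gh
    have e : Real.pi * (1 - y) / 2 = Real.pi / 2 - Real.pi * y / 2 := by ring
    rw [e, Real.tan_pi_div_two_sub, Real.log_inv]
  have h4 := gh_lt hx h2
  rw [h3] at h4
  constructor
  · intro h
    have := h4.2 (by linarith only [h])
    linarith only [this]
  · intro h
    have := h4.1 (by linarith only [h])
    linarith only [this]

/-- **finite difference along the gauge curves** -/
theorem lev_fd {k a a' x x' τ τ' : ℝ} (ha : a ∈ Ioo (0 : ℝ) 1) (ha' : a' ∈ Ioo (0 : ℝ) 1)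
    (hx : x ∈ Ioo (0 : ℝ) 1) (hx' : x' ∈ Ioo (0 : ℝ) 1) (hlt : a < x)
    (hg : |gh x' - gh a'| ≤ gh x - gh a) (hs : a + a' < 1) (hs1 : x + x' < 1)
    (hL : ∀ u u' : ℝ, u ∈ Icc a x → u' ∈ uIcc a' x' → u + u' < 1 →
      gh u + gh u' ≤ max (gh a + gh a') (gh x + gh x') →
      sin (π * u') * |CC (lv u τ + lv u' τ')| <
        sin (π * u) * (k * CC (lv u τ) - CC (lv u τ + lv u' τ'))) :
    LL (lv x τ + lv x' τ') - k * LL (lv x τ) < LL (lv a τ + lv a' τ') - k * LL (lv a τ) := by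
  have hpi := Real.pi_pos
  have hΔ : 0 < gh x - gh a := by
    have := (gh_lt ha hx).2 hlt
    linarith only [this]
  have hD := abs_le.1 hg
  have hsum : ∀ θ ∈ Icc (0 : ℝ) 1, gh (gc a x θ) + gh (gc a' x' θ) ≤
      max (gh a + gh a') (gh x + gh x') := by
    intro θ hθ
    rw [gh_gc, gh_gc]
    have e : (1 - θ) * gh a + θ * gh x + ((1 - θ) * gh a' + θ * gh x') =
        (1 - θ) * (gh a + gh a') + θ * (gh x + gh x') := by ring
    rw [e]
    have h1 := le_max_left (gh a + gh a') (gh x + gh x')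
    have h2 := le_max_right (gh a + gh a') (gh x + gh x')
    have h3 : 0 ≤ 1 - θ := by linarith only [hθ, hθ.2]
    have h4 := mul_le_mul_of_nonneg_left h1 h3
    have h5 := mul_le_mul_of_nonneg_left h2 hθ.1
    nlinarith only [h4, h5]
  have hmax : max (gh a + gh a') (gh x + gh x') < 0 :=
    max_lt ((add_lt_one_iff ha ha').1 hs) ((add_lt_one_iff hx hx').1 hs1)
  have hone : ∀ θ ∈ Icc (0 : ℝ) 1, gc a x θ + gc a' x' θ < 1 := fun θ hθ =>
    (add_lt_one_iff (gc_mem _ _ _) (gc_mem _ _ _)).2 ((hsum θ hθ).trans_lt hmax)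
  set F : ℝ → ℝ := fun θ => LL (lv (gc a x θ + gc a' x' θ) (τ + τ')) - k * LL (lv (gc a x θ) τ)
    with hF
  have hder : ∀ θ ∈ Icc (0 : ℝ) 1, HasDerivAt F
      (CC (lv (gc a x θ + gc a' x' θ) (τ + τ')) *
          ((gh x - gh a) * (sin (π * gc a x θ) / π) + (gh x' - gh a') * (sin (π * gc a' x' θ) / π)) -
        k * (CC (lv (gc a x θ) τ) * ((gh x - gh a) * (sin (π * gc a x θ) / π)))) θ := by
    intro θ hθ
    have m1 := gc_mem a x θ
    have m2 := gc_mem a' x' θ
    have h1 := hasDerivAt_gc a x θ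
    have h2 := hasDerivAt_gc a' x' θ
    have h3 := (hasDerivAt_LL_lv (t := τ) m1.1 m1.2).comp θ h1
    have h4 := (hasDerivAt_LL_lv (t := τ + τ') (add_pos m1.1 m2.1) (hone θ hθ)).comp θ (h1.add h2)
    exact h4.sub (h3.const_mul k)
  have hneg : ∀ θ ∈ Icc (0 : ℝ) 1,
      CC (lv (gc a x θ + gc a' x' θ) (τ + τ')) *
          ((gh x - gh a) * (sin (π * gc a x θ) / π) + (gh x' - gh a') * (sin (π * gc a' x' θ) / π)) -
        k * (CC (lv (gc a x θ) τ) * ((gh x - gh a) * (sin (π * gc a x θ) / π))) < 0 := by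
    intro θ hθ
    have m1 := gc_mem a x θ
    have m2 := gc_mem a' x' θ
    have h1 := hL _ _ (gc_mem_Icc ha hx hlt.le hθ.1 hθ.2) (gc_mem_uIcc ha' hx' hθ.1 hθ.2)
      (hone θ hθ) (hsum θ hθ)
    rw [lv_add] at h1
    set c := CC (lv (gc a x θ + gc a' x' θ) (τ + τ'))
    set d := CC (lv (gc a x θ) τ)
    have s2 : 0 < sin (π * gc a' x' θ) :=
      sin_pos_of_pos_of_lt_pi (mul_pos hpi m2.1) (by nlinarith only [hpi, m2, m2.2])
    set p := sin (π * gc a x θ)
    set p' := sin (π * gc a' x' θ)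
    have e : c * ((gh x - gh a) * (p / π) + (gh x' - gh a') * (p' / π)) -
        k * (d * ((gh x - gh a) * (p / π))) =
        ((gh x' - gh a') * c * p' - (gh x - gh a) * (p * (k * d - c))) / π := by
      field_simp
      ring
    rw [e]
    apply div_neg_of_neg_of_pos _ hpi
    have h2 : (gh x' - gh a') * c * p' ≤ (gh x - gh a) * (p' * |c|) := by
      have h3 : (gh x' - gh a') * c ≤ (gh x - gh a) * |c| := by
        calc (gh x' - gh a') * c ≤ |(gh x' - gh a') * c| := le_abs_self _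
          _ = |gh x' - gh a'| * |c| := abs_mul _ _
          _ ≤ _ := mul_le_mul_of_nonneg_right hg (abs_nonneg _)
      calc (gh x' - gh a') * c * p' ≤ (gh x - gh a) * |c| * p' := mul_le_mul_of_nonneg_right h3 s2.le
        _ = _ := by ring
    have h4 := mul_lt_mul_of_pos_left h1 hΔ
    linarith only [h2, h4]
  have hanti : F 1 < F 0 := by
    have hc : ContinuousOn F (Icc 0 1) := fun θ hθ => (hder θ hθ).continuousAt.continuousWithinAt
    have := strictAntiOn_of_deriv_neg (convex_Icc (0 : ℝ) 1) hc (by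
      intro θ hθ
      rw [interior_Icc] at hθ
      rw [(hder θ ⟨hθ.1.le, hθ.2.le⟩).deriv]
      exact hneg θ ⟨hθ.1.le, hθ.2.le⟩)
    exact this ⟨le_rfl, zero_le_one⟩ ⟨zero_le_one, le_rfl⟩ zero_lt_one
  simp only [hF, gc_one hx, gc_one hx', gc_zero ha, gc_zero ha'] at hanti
  rw [lv_add, lv_add]
  exact hanti

/-- **finite difference along the gauge curves**, with a lower bound which is linear in the gauge
and may be negative close to the lower end -/
theorem lev_fd_lin {k α g0 a a' x x' τ τ' : ℝ} (ha : a ∈ Ioo (0 : ℝ) 1) (ha' : a' ∈ Ioo (0 : ℝ) 1)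
    (hx : x ∈ Ioo (0 : ℝ) 1) (hx' : x' ∈ Ioo (0 : ℝ) 1) (hlt : a < x)
    (hg : |gh x' - gh a'| ≤ gh x - gh a) (hs : a + a' < 1) (hs1 : x + x' < 1) (hα : 0 < α)
    (hg0 : 2 * g0 < gh a + gh x)
    (hL : ∀ u u' : ℝ, u ∈ Icc a x → u' ∈ uIcc a' x' → u + u' < 1 →
      gh u + gh u' ≤ max (gh a + gh a') (gh x + gh x') →
      α * (gh u - g0) + sin (π * u') * |CC (lv u τ + lv u' τ')| ≤
        sin (π * u) * (k * CC (lv u τ) - CC (lv u τ + lv u' τ'))) :
    LL (lv x τ + lv x' τ') - k * LL (lv x τ) < LL (lv a τ + lv a' τ') - k * LL (lv a τ) := by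
  have hpi := Real.pi_pos
  have hΔ : 0 < gh x - gh a := by
    have := (gh_lt ha hx).2 hlt
    linarith only [this]
  have hsum : ∀ θ ∈ Icc (0 : ℝ) 1, gh (gc a x θ) + gh (gc a' x' θ) ≤
      max (gh a + gh a') (gh x + gh x') := by
    intro θ hθ
    rw [gh_gc, gh_gc]
    have h1 := le_max_left (gh a + gh a') (gh x + gh x')
    have h2 := le_max_right (gh a + gh a') (gh x + gh x')
    have h3 : 0 ≤ 1 - θ := by linarith only [hθ, hθ.2]
    have h4 := mul_le_mul_of_nonneg_left h1 h3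
    have h5 := mul_le_mul_of_nonneg_left h2 hθ.1
    nlinarith only [h4, h5]
  have hmax : max (gh a + gh a') (gh x + gh x') < 0 :=
    max_lt ((add_lt_one_iff ha ha').1 hs) ((add_lt_one_iff hx hx').1 hs1)
  have hone : ∀ θ ∈ Icc (0 : ℝ) 1, gc a x θ + gc a' x' θ < 1 := fun θ hθ =>
    (add_lt_one_iff (gc_mem _ _ _) (gc_mem _ _ _)).2 ((hsum θ hθ).trans_lt hmax)
  set c0 := (gh x - gh a) / π * α with hc0
  have hc0' : 0 < c0 := by positivity
  set F : ℝ → ℝ := fun θ => LL (lv (gc a x θ + gc a' x' θ) (τ + τ')) - k * LL (lv (gc a x θ) τ) +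
    c0 * ((gh a - g0) * θ + (gh x - gh a) * (θ ^ 2 / 2)) with hF
  have hder : ∀ θ ∈ Icc (0 : ℝ) 1, HasDerivAt F
      (CC (lv (gc a x θ + gc a' x' θ) (τ + τ')) *
          ((gh x - gh a) * (sin (π * gc a x θ) / π) + (gh x' - gh a') * (sin (π * gc a' x' θ) / π)) -
        k * (CC (lv (gc a x θ) τ) * ((gh x - gh a) * (sin (π * gc a x θ) / π))) +
        c0 * ((gh a - g0) + (gh x - gh a) * θ)) θ := by
    intro θ hθ
    have m1 := gc_mem a x θ
    have m2 := gc_mem a' x' θ
    have h1 := hasDerivAt_gc a x θ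
    have h2 := hasDerivAt_gc a' x' θ
    have h3 := (hasDerivAt_LL_lv (t := τ) m1.1 m1.2).comp θ h1
    have h4 := (hasDerivAt_LL_lv (t := τ + τ') (add_pos m1.1 m2.1) (hone θ hθ)).comp θ (h1.add h2)
    have h5 : HasDerivAt (fun θ : ℝ => c0 * ((gh a - g0) * θ + (gh x - gh a) * (θ ^ 2 / 2)))
        (c0 * ((gh a - g0) + (gh x - gh a) * θ)) θ := by
      have e1 := ((hasDerivAt_id' θ).const_mul (gh a - g0)).add
        ((((hasDerivAt_id' θ).pow 2).div_const 2).const_mul (gh x - gh a))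
      refine (e1.const_mul c0).congr_deriv ?_
      simp
    exact (h4.sub (h3.const_mul k)).add h5
  have hneg : ∀ θ ∈ Icc (0 : ℝ) 1,
      CC (lv (gc a x θ + gc a' x' θ) (τ + τ')) *
          ((gh x - gh a) * (sin (π * gc a x θ) / π) + (gh x' - gh a') * (sin (π * gc a' x' θ) / π)) -
        k * (CC (lv (gc a x θ) τ) * ((gh x - gh a) * (sin (π * gc a x θ) / π))) +
        c0 * ((gh a - g0) + (gh x - gh a) * θ) ≤ 0 := by
    intro θ hθ
    have m1 := gc_mem a x θ
    have m2 := gc_mem a' x' θ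
    have h1 := hL _ _ (gc_mem_Icc ha hx hlt.le hθ.1 hθ.2) (gc_mem_uIcc ha' hx' hθ.1 hθ.2)
      (hone θ hθ) (hsum θ hθ)
    rw [lv_add] at h1
    have e0 : gh (gc a x θ) - g0 = (gh a - g0) + (gh x - gh a) * θ := by
      rw [gh_gc]
      ring
    rw [e0] at h1
    set c := CC (lv (gc a x θ + gc a' x' θ) (τ + τ'))
    set d := CC (lv (gc a x θ) τ)
    have s2 : 0 < sin (π * gc a' x' θ) :=
      sin_pos_of_pos_of_lt_pi (mul_pos hpi m2.1) (by nlinarith only [hpi, m2, m2.2])
    set p := sin (π * gc a x θ)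
    set p' := sin (π * gc a' x' θ)
    have e : c * ((gh x - gh a) * (p / π) + (gh x' - gh a') * (p' / π)) -
        k * (d * ((gh x - gh a) * (p / π))) + c0 * ((gh a - g0) + (gh x - gh a) * θ) =
        ((gh x' - gh a') * c * p' - (gh x - gh a) * (p * (k * d - c)) +
          (gh x - gh a) * (α * ((gh a - g0) + (gh x - gh a) * θ))) / π := by
      rw [hc0]
      field_simp
      ring
    rw [e]
    apply div_nonpos_of_nonpos_of_nonneg _ hpi.le
    have h2 : (gh x' - gh a') * c * p' ≤ (gh x - gh a) * (p' * |c|) := by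
      have h3 : (gh x' - gh a') * c ≤ (gh x - gh a) * |c| := by
        calc (gh x' - gh a') * c ≤ |(gh x' - gh a') * c| := le_abs_self _
          _ = |gh x' - gh a'| * |c| := abs_mul _ _
          _ ≤ _ := mul_le_mul_of_nonneg_right hg (abs_nonneg _)
      calc (gh x' - gh a') * c * p' ≤ (gh x - gh a) * |c| * p' := mul_le_mul_of_nonneg_right h3 s2.le
        _ = _ := by ring
    have h4 := mul_le_mul_of_nonneg_left h1 hΔ.le
    linarith only [h2, h4]
  have hanti : F 1 ≤ F 0 := by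
    have hc : ContinuousOn F (Icc 0 1) := fun θ hθ => (hder θ hθ).continuousAt.continuousWithinAt
    have := antitoneOn_of_deriv_nonpos (convex_Icc (0 : ℝ) 1) hc
      (fun θ hθ => by
        rw [interior_Icc] at hθ
        exact (hder θ ⟨hθ.1.le, hθ.2.le⟩).differentiableAt.differentiableWithinAt) (by
      intro θ hθ
      rw [interior_Icc] at hθ
      rw [(hder θ ⟨hθ.1.le, hθ.2.le⟩).deriv]
      exact hneg θ ⟨hθ.1.le, hθ.2.le⟩)
    exact this ⟨le_rfl, zero_le_one⟩ ⟨zero_le_one, le_rfl⟩ zero_le_one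
  have hpos : 0 < c0 * ((gh a - g0) * 1 + (gh x - gh a) * (1 ^ 2 / 2)) := by
    apply mul_pos hc0'
    linarith only [hg0]
  simp only [hF, gc_one hx, gc_one hx', gc_zero ha, gc_zero ha'] at hanti
  rw [lv_add, lv_add]
  linarith only [hpos, hanti]

end Pool.Agent.Work.MP_b30479_gt.G2
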