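import Pool.Agent.Work.MP_b30479_gt.G2.MLev
import Pool.Agent.Work.MP_b30479_gt.G2.MK1
import Pool.Agent.Work.MP_b30479_gt.LT.H.AlgH
import Pool.Agent.Work.NumI.Expr

/-!
# Level push of the side of a digit `1`: the inequality, with certificates
-/

namespace Pool.Agent.Work.MP_b30479_gt.G2

open Real Set VOL

/-- the algebraic core with a lower bound `ℓ` -/
theorem k1_core_lin {p q p' σ κ S T T0 ℓ : ℝ} (hp : 0 < p) (hσ : 0 < σ) (hp' : 0 < p')
    (hS : 0 ≤ S) (hT0 : 0 ≤ T0) (hT : T0 ≤ T) (h0 : q * σ - p * κ = p')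
    (h1 : 0 ≤ κ → ℓ * ((S + p ^ 2) * (T0 + σ ^ 2)) ≤
      σ * (p ^ 2 * p') * (1 - κ) + p ^ 2 * q * T0 - (p + p') * κ * σ * S)
    (h2 : κ < 0 → ℓ * ((S + p ^ 2) * (T0 + σ ^ 2)) ≤
      σ * (p ^ 2 * p') * (1 + κ) + p ^ 2 * q * T0 + (p' - p) * κ * σ * S)
    (h3 : κ < 0 → p' < p → ℓ * (S + p ^ 2) ≤ p ^ 2 * q) :
    ℓ + p' * |σ * κ / (T + σ ^ 2)| ≤ p * (p * q / (S + p ^ 2) - σ * κ / (T + σ ^ 2)) := by
  have hA : 0 < S + p ^ 2 := by positivity
  have hB0 : 0 < T0 + σ ^ 2 := by positivity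
  have hB : 0 < T + σ ^ 2 := by linarith only [hT, hB0]
  have e3 : p * (p * q / (S + p ^ 2)) = p ^ 2 * q / (S + p ^ 2) := by ring
  rcases le_or_gt 0 κ with hk | hk
  · have a1 : 0 ≤ σ * κ / (T + σ ^ 2) := by positivity
    rw [abs_of_nonneg a1]
    have a2 : σ * κ / (T + σ ^ 2) ≤ σ * κ / (T0 + σ ^ 2) := by
      apply div_le_div_of_nonneg_left (by positivity) hB0 (by linarith only [hT])
    have a3 : ℓ + (p + p') * (σ * κ / (T0 + σ ^ 2)) ≤ p ^ 2 * q / (S + p ^ 2) := by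
      have h := h1 hk
      rw [← mul_div_assoc, ← sub_nonneg]
      have e : p ^ 2 * q / (S + p ^ 2) - (ℓ + (p + p') * (σ * κ) / (T0 + σ ^ 2)) =
          (p ^ 2 * q * (T0 + σ ^ 2) - (p + p') * (σ * κ) * (S + p ^ 2) -
            ℓ * ((S + p ^ 2) * (T0 + σ ^ 2))) / ((S + p ^ 2) * (T0 + σ ^ 2)) := by
        field_simp
        ring
      rw [e]
      apply div_nonneg _ (by positivity)
      have e2 : p ^ 2 * q * (T0 + σ ^ 2) - (p + p') * (σ * κ) * (S + p ^ 2) =
          σ * p ^ 2 * (q * σ - p * κ - p' * κ) + p ^ 2 * q * T0 - (p + p') * κ * σ * S := by ring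
      rw [e2, h0]
      nlinarith only [h]
    have a4 : (p + p') * (σ * κ / (T + σ ^ 2)) ≤ (p + p') * (σ * κ / (T0 + σ ^ 2)) :=
      mul_le_mul_of_nonneg_left a2 (by positivity)
    rw [mul_sub, e3]
    linarith only [a3, a4]
  · have a1 : σ * κ / (T + σ ^ 2) ≤ 0 := by
      apply div_nonpos_of_nonpos_of_nonneg
      · nlinarith only [hσ, hk]
      · positivity
    rw [abs_of_nonpos a1]
    rcases lt_or_ge p' p with hpp | hpp
    · have h := h3 hk hpp
      have a5 : ℓ ≤ p ^ 2 * q / (S + p ^ 2) := by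
        rw [le_div_iff₀ hA]
        exact h
      have a6 : 0 ≤ (p - p') * -(σ * κ / (T + σ ^ 2)) :=
        mul_nonneg (by linarith only [hpp]) (by linarith only [a1])
      rw [mul_sub, e3]
      linarith only [a5, a6]
    · have a2 : σ * κ / (T0 + σ ^ 2) ≤ σ * κ / (T + σ ^ 2) := by
        have h5 : -(σ * κ) / (T + σ ^ 2) ≤ -(σ * κ) / (T0 + σ ^ 2) :=
          div_le_div_of_nonneg_left (by nlinarith only [hσ, hk]) hB0 (by linarith only [hT])
        rw [neg_div, neg_div] at h5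
        linarith only [h5]
      have a3 : ℓ + (p' - p) * -(σ * κ / (T0 + σ ^ 2)) ≤ p ^ 2 * q / (S + p ^ 2) := by
        have h := h2 hk
        rw [← sub_nonneg]
        have e : p ^ 2 * q / (S + p ^ 2) - (ℓ + (p' - p) * -(σ * κ / (T0 + σ ^ 2))) =
            (p ^ 2 * q * (T0 + σ ^ 2) + (p' - p) * (σ * κ) * (S + p ^ 2) -
              ℓ * ((S + p ^ 2) * (T0 + σ ^ 2))) / ((S + p ^ 2) * (T0 + σ ^ 2)) := by
          field_simp
          ring
        rw [e]
        apply div_nonneg _ (by positivity)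
        have e2 : p ^ 2 * q * (T0 + σ ^ 2) + (p' - p) * (σ * κ) * (S + p ^ 2) =
            σ * p ^ 2 * (q * σ - p * κ + p' * κ) + p ^ 2 * q * T0 + (p' - p) * κ * σ * S := by ring
        rw [e2, h0]
        nlinarith only [h]
      have a4 : (p' - p) * -(σ * κ / (T + σ ^ 2)) ≤ (p' - p) * -(σ * κ / (T0 + σ ^ 2)) :=
        mul_le_mul_of_nonneg_left (by linarith only [a2]) (by linarith only [hpp])
      rw [mul_sub, e3]
      linarith only [a3, a4]

noncomputable def P1r (u v t T0 : ℝ) : ℝ :=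
  sin (π * (u + v)) * (sin (π * u) ^ 2 * sin (π * v)) * (1 - cos (π * (u + v))) +
    sin (π * u) ^ 2 * cos (π * u) * T0 -
    (sin (π * u) + sin (π * v)) * cos (π * (u + v)) * sin (π * (u + v)) * sinh (π * t) ^ 2

noncomputable def P2r (u v t T0 : ℝ) : ℝ :=
  sin (π * (u + v)) * (sin (π * u) ^ 2 * sin (π * v)) * (1 + cos (π * (u + v))) +
    sin (π * u) ^ 2 * cos (π * u) * T0 +
    (sin (π * v) - sin (π * u)) * cos (π * (u + v)) * sin (π * (u + v)) * sinh (π * t) ^ 2

noncomputable def dnr (u v t T0 : ℝ) : ℝ :=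
  (sinh (π * t) ^ 2 + sin (π * u) ^ 2) * (T0 + sin (π * (u + v)) ^ 2)

theorem sin_sum {u v : ℝ} : cos (π * u) * sin (π * (u + v)) - sin (π * u) * cos (π * (u + v)) =
    sin (π * v) := by
  have : π * v = π * (u + v) - π * u := by ring
  rw [this, sin_sub]
  ring

theorem sin_pi_pos {u : ℝ} (h0 : 0 < u) (h1 : u < 1) : 0 < sin (π * u) :=
  sin_pos_of_pos_of_lt_pi (mul_pos pi_pos h0) (by nlinarith only [h1, pi_pos])

theorem cos_sum_nonneg {s : ℝ} (h0 : 0 < s) (h : s ≤ 1 / 2) : 0 ≤ cos (π * s) :=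
  cos_nonneg_of_mem_Icc ⟨by nlinarith only [h0, pi_pos], by nlinarith only [h0, h, pi_pos]⟩

theorem half_of_cos_nonneg {s : ℝ} (h1 : s < 1) (h : 0 ≤ cos (π * s)) : s ≤ 1 / 2 := by
  by_contra hc
  push Not at hc
  have := cos_neg_of_pi_div_two_lt_of_lt (x := π * s) (by nlinarith only [hc, pi_pos])
    (by nlinarith only [h1, pi_pos])
  linarith only [h, this]

theorem half_of_cos_neg {s : ℝ} (h0 : 0 < s) (h : cos (π * s) < 0) : 1 / 2 < s := by
  by_contra hc
  push Not at hc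
  linarith only [h, h0, hc, cos_sum_nonneg h0 hc]

/-- the level inequality with a linear lower bound -/
theorem k1_level_lin {u v t t' T0 ℓ : ℝ} (hu : 0 < u) (hv : 0 < v) (hs : u + v < 1)
    (hT0 : 0 ≤ T0) (hT : T0 ≤ sinh (π * (t + t')) ^ 2)
    (h1 : u + v ≤ 1 / 2 → ℓ * dnr u v t T0 ≤ P1r u v t T0)
    (h2 : 1 / 2 < u + v → ℓ * dnr u v t T0 ≤ P2r u v t T0)
    (h3 : 1 / 2 < u + v → ℓ * (sinh (π * t) ^ 2 + sin (π * u) ^ 2) ≤
      sin (π * u) ^ 2 * cos (π * u)) :
    π * ℓ + sin (π * v) * |CC (lv u t + lv v t')| ≤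
      sin (π * u) * (1 * CC (lv u t) - CC (lv u t + lv v t')) := by
  have hpi := pi_pos
  have s1 : 0 < sin (π * u) := sin_pi_pos hu (by linarith only [hv, hs])
  have s2 : 0 < sin (π * v) := sin_pi_pos hv (by linarith only [hu, hs])
  have s3 : 0 < sin (π * (u + v)) := sin_pi_pos (by linarith only [hu, hv]) hs
  have key := k1_core_lin (p := sin (π * u)) (q := cos (π * u)) (p' := sin (π * v))
    (σ := sin (π * (u + v))) (κ := cos (π * (u + v))) (S := sinh (π * t) ^ 2)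
    (T := sinh (π * (t + t')) ^ 2) (T0 := T0) (ℓ := ℓ) s1 s3 s2 (sq_nonneg _) hT0 hT sin_sum
    (fun hk => h1 (half_of_cos_nonneg hs hk))
    (fun hk => h2 (half_of_cos_neg (by linarith only [hu, hv]) hk))
    (fun hk _ => h3 (half_of_cos_neg (by linarith only [hu, hv]) hk))
  have e1 : CC (lv u t) = π * (sin (π * u) * cos (π * u) / (sinh (π * t) ^ 2 + sin (π * u) ^ 2)) := by
    rw [CC_eq, lv_re, lv_im]
  have e2 : CC (lv u t + lv v t') = π * (sin (π * (u + v)) * cos (π * (u + v)) /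
      (sinh (π * (t + t')) ^ 2 + sin (π * (u + v)) ^ 2)) := by
    rw [lv_add, CC_eq, lv_re, lv_im]
  rw [e1, e2, abs_mul, abs_of_pos hpi, one_mul]
  generalize sin (π * u) * cos (π * u) / (sinh (π * t) ^ 2 + sin (π * u) ^ 2) = X at *
  generalize sin (π * (u + v)) * cos (π * (u + v)) /
      (sinh (π * (t + t')) ^ 2 + sin (π * (u + v)) ^ 2) = Y at *
  have := mul_le_mul_of_nonneg_left key hpi.le
  linarith only [this]

/-- the level inequality, strict form -/
theorem k1_level_str {u v t t' T0 : ℝ} (hu : 0 < u) (hu' : u ≤ 1 / 2) (hv : 0 < v)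
    (hs : u + v < 1) (hT : T0 ≤ sinh (π * (t + t')) ^ 2)
    (h1 : u + v ≤ 1 / 2 → 0 < P1r u v t T0)
    (h2 : 1 / 2 < u + v → 0 < P2r u v t T0) :
    sin (π * v) * |CC (lv u t + lv v t')| <
      sin (π * u) * (1 * CC (lv u t) - CC (lv u t + lv v t')) := by
  have hpi := pi_pos
  have s1 : 0 < sin (π * u) := sin_pi_pos hu (by linarith only [hv, hs])
  have s2 : 0 < sin (π * v) := sin_pi_pos hv (by linarith only [hu, hs])
  have s3 : 0 < sin (π * (u + v)) := sin_pi_pos (by linarith only [hu, hv]) hs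
  have c1 : 0 ≤ cos (π * u) := cos_sum_nonneg hu hu'
  have hT' := mul_le_mul_of_nonneg_left hT (show 0 ≤ sin (π * u) ^ 2 * cos (π * u) by positivity)
  have k1 : u + v ≤ 1 / 2 →
      (sin (π * u) + sin (π * v)) * cos (π * (u + v)) * sin (π * (u + v)) * sinh (π * t) ^ 2 <
      sin (π * (u + v)) * sin (π * u) ^ 2 * sin (π * v) * (1 - cos (π * (u + v))) +
        sin (π * u) ^ 2 * cos (π * u) * sinh (π * (t + t')) ^ 2 := by
    intro h
    have := h1 h
    unfold P1r at this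
    linarith only [hT', this]
  have k2 : 1 / 2 < u + v → u < 1 / 2 →
      (sin (π * v) - sin (π * u)) * (-cos (π * (u + v))) * sin (π * (u + v)) * sinh (π * t) ^ 2 <
      sin (π * (u + v)) * sin (π * u) ^ 2 * sin (π * v) * (1 + cos (π * (u + v))) +
        sin (π * u) ^ 2 * cos (π * u) * sinh (π * (t + t')) ^ 2 := by
    intro h _
    have := h2 h
    unfold P2r at this
    linarith only [hT', this]
  have k3 : 1 / 2 ≤ u → -cos (π * u) * sinh (π * (t + t')) ^ 2 <
      sin (π * (u + v)) * sin (π * v) * (1 + cos (π * (u + v))) := by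
    intro h
    have e : u = 1 / 2 := le_antisymm hu' h
    have e2 : cos (π * u) = 0 := by rw [e, mul_one_div, cos_pi_div_two]
    rw [e2]
    have h5 : -1 < cos (π * (u + v)) := by
      rw [← cos_pi]
      exact cos_lt_cos_of_nonneg_of_le_pi (by positivity) le_rfl (by nlinarith only [hs, hpi])
    have : 0 < 1 + cos (π * (u + v)) := by linarith only [h5]
    rw [neg_zero, zero_mul]
    positivity
  have key := k1_level (u := lv u t) (v := lv v t') (by rw [lv_re]; exact hu)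
    (by rw [lv_re]; exact hv) (by rw [lv_re, lv_re]; exact hs)
    (by rw [lv_re, lv_re, lv_im, lv_im]; exact k1) (by rw [lv_re, lv_re, lv_im, lv_im]; exact k2)
    (by rw [lv_re, lv_re, lv_im, lv_im]; exact k3)
  rw [lv_re, lv_re] at key
  rw [one_mul]
  exact key

/-! ### the gauge and the sum -/

/-- `gh u + gh v ≤ log P` in terms of sines and cosines -/
theorem gh_sum_le {u v P : ℝ} (hu : u ∈ Ioo (0 : ℝ) 1) (hv : v ∈ Ioo (0 : ℝ) 1) (hP : 0 < P) :
    gh u + gh v ≤ log P ↔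
      sin (π * (1 / 2 * u)) * sin (π * (1 / 2 * v)) ≤
        P * (cos (π * (1 / 2 * u)) * cos (π * (1 / 2 * v))) := by
  have hpi := pi_pos
  have a1 : 0 < sin (π * (1 / 2 * u)) := sin_pi_pos (by linarith only [hu, hu.1]) (by linarith only [hu, hu.2])
  have a2 : 0 < sin (π * (1 / 2 * v)) := sin_pi_pos (by linarith only [hv, hv.1]) (by linarith only [hv, hv.2])
  have a3 : 0 < cos (π * (1 / 2 * u)) :=
    cos_pos_of_mem_Ioo ⟨by nlinarith only [hpi, hu, hu.1], by nlinarith only [hpi, hu, hu.2]⟩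
  have a4 : 0 < cos (π * (1 / 2 * v)) :=
    cos_pos_of_mem_Ioo ⟨by nlinarith only [hpi, hv, hv.1], by nlinarith only [hpi, hv, hv.2]⟩
  have e1 : gh u = log (sin (π * (1 / 2 * u)) / cos (π * (1 / 2 * u))) := by
    unfold gh
    rw [tan_eq_sin_div_cos]
    have : π * u / 2 = π * (1 / 2 * u) := by ring
    rw [this]
  have e2 : gh v = log (sin (π * (1 / 2 * v)) / cos (π * (1 / 2 * v))) := by
    unfold gh
    rw [tan_eq_sin_div_cos]
    have : π * v / 2 = π * (1 / 2 * v) := by ring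
    rw [this]
  rw [e1, e2, ← log_mul (by positivity) (by positivity), log_le_log_iff (by positivity) hP,
    div_mul_div_comm, div_le_iff₀ (by positivity)]

/-- the gauge of two numbers with a bounded sum -/
theorem gh_sum_of_sum {x y s c P : ℝ} (hx : x ∈ Ioo (0 : ℝ) 1) (hy : y ∈ Ioo (0 : ℝ) 1)
    (hs : x + y ≤ s) (hs1 : s ≤ 1) (hc : c ≤ cos (π * (s / 2))) (hP0 : 0 < P) (hP1 : P ≤ 1)
    (hP : 1 - P ≤ (1 + P) * c) : gh x + gh y ≤ log P := by
  have hpi := pi_pos
  rw [gh_sum_le hx hy hP0]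
  have e1 := cos_add (π * (1 / 2 * x)) (π * (1 / 2 * y))
  have e2 := cos_sub (π * (1 / 2 * x)) (π * (1 / 2 * y))
  have h1 : cos (π * (s / 2)) ≤ cos (π * (1 / 2 * x) + π * (1 / 2 * y)) := by
    apply cos_le_cos_of_nonneg_of_le_pi
    · nlinarith only [hpi, hx, hy, hx.1, hy.1]
    · nlinarith only [hpi, hs1]
    · nlinarith only [hs, hpi]
  have h2 : cos (π * (1 / 2 * x) - π * (1 / 2 * y)) ≤ 1 := cos_le_one _
  have h3 : (1 - P) * cos (π * (1 / 2 * x) - π * (1 / 2 * y)) ≤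
      (1 + P) * cos (π * (1 / 2 * x) + π * (1 / 2 * y)) := by
    have a : (1 - P) * cos (π * (1 / 2 * x) - π * (1 / 2 * y)) ≤ (1 - P) * 1 :=
      mul_le_mul_of_nonneg_left h2 (by linarith only [hP1])
    have b : (1 + P) * c ≤ (1 + P) * cos (π * (1 / 2 * x) + π * (1 / 2 * y)) :=
      mul_le_mul_of_nonneg_left (hc.trans h1) (by linarith only [hP0])
    linarith only [hP, a, b]
  rw [e1, e2] at h3
  nlinarith only [h3]

open NumI NumI.E

theorem chk0 {e : E} (h : chk [e] 1 [] = true) : 0 < e.val [] :=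
  pos_of_chk (chk_sound h List.Forall₂.nil)

theorem cos_465 : (109 : ℝ) / 1000 ≤ Real.cos (π * ((93 / 100) / 2)) := by
  have h : chk [E.sub (E.cosPi (E.q 465 1000)) (E.q 109 1000)] 1 [] = true := by decide +kernel
  have := chk0 h
  simp only [val] at this
  push_cast at this
  have e : (93 : ℝ) / 100 / 2 = 465 / 1000 := by norm_num
  rw [e]
  linarith only [this]

theorem cos_400 : (309 : ℝ) / 1000 ≤ Real.cos (π * ((80 / 100) / 2)) := by
  have h : chk [E.sub (E.cosPi (E.q 400 1000)) (E.q 309 1000)] 1 [] = true := by decide +kernel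
  have := chk0 h
  simp only [val] at this
  push_cast at this
  have e : (80 : ℝ) / 100 / 2 = 400 / 1000 := by norm_num
  rw [e]
  linarith only [this]

theorem cos_380 : (368 : ℝ) / 1000 ≤ Real.cos (π * ((76 / 100) / 2)) := by
  have h : chk [E.sub (E.cosPi (E.q 380 1000)) (E.q 368 1000)] 1 [] = true := by decide +kernel
  have := chk0 h
  simp only [val] at this
  push_cast at this
  have e : (76 : ℝ) / 100 / 2 = 380 / 1000 := by norm_num
  rw [e]
  linarith only [this]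

end Pool.Agent.Work.MP_b30479_gt.G2
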