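import Pool.Agent.Work.MP_b30479_gt.G2.MPRun

/-!
# Domination on the main paths: the form needed in `Sadl`
-/

namespace Pool.Agent.Work.MP_b30479_gt.G2

open Finset VOL Filter Topology

/-- at the saddle the growth rate is the real part of the potential -/
theorem V_eq_re_T {D Z K : Type} [Fintype D] [Fintype Z] [Fintype K] (S : Dat D Z K)
    {z : D ⊕ Z → ℂ} (hin : ∀ k, S.form k z ∈ strip) : S.V z = (S.T z).re := by
  unfold Dat.V Dat.T
  rw [Complex.add_re (S.quad z + _) (∑ k, Fh (S.form k z)), Complex.re_sum (s := Finset.univ)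
    (f := fun k => Fh (S.form k z))]
  congr 1
  exact Finset.sum_congr rfl fun k _ => UU_eq_Fh (hin k)

section
variable {M : ℕ} {t : Fin (M + 1) → Typ} {b : Fin (M + 1) → ℤ}
variable {P : Par (DD t)} {zs : DD t ⊕ ZZ t → ℂ}

/-- the part `R = ∅`, `p = 0` of the domination -/
theorem dom_paths (hh : ∀ i, 0 < P.hu i ∧ 0 < P.hd i)
    (hin : ∀ k, (wdat t b).form k zs ∈ strip)
    (h : ∀ x ∈ P.box (ZZ t), P.pth zs x ≠ zs → (wdat t b).V (P.pth zs x) < (wdat t b).V zs)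
    {z : DD t ⊕ ZZ t → ℂ} (hz : Adm (wdat t b) P zs ∅ ∅ z 0) (hne : z ≠ zs) :
    (wdat t b).V z < ((wdat t b).T zs).re := by
  obtain ⟨x, hx, rfl⟩ := hz.exists_pth hh
  rw [← V_eq_re_T _ hin]
  exact h x hx hne

/-! ### unpacking the local variables -/

/-- the left hinge of the run `h.succ` at a point of the paths -/
theorem loc_left (h : Fin M) (y : DD t ⊕ ZZ t → ℝ) :
    xx t h.succ (P.pth zs y) 0 = P.pp zs (.inl (.inl h)) (y (.inl (.inl h))) := by
  rw [xx_left]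
  rfl

/-- the right hinge of the run `h.castSucc` at a point of the paths -/
theorem loc_right (h : Fin M) (y : DD t ⊕ ZZ t → ℝ) :
    xx t h.castSucc (P.pth zs y) 2 = P.pp zs (.inl (.inl h)) (y (.inl (.inl h))) := by
  rw [xx_right]
  rfl

theorem loc_mid {i : Fin (M + 1)} (hi : (t i).isMid = true) (y : DD t ⊕ ZZ t → ℝ) :
    xx t i (P.pth zs y) 1 = P.pp zs (.inl (.inr ⟨i, hi⟩)) (y (.inl (.inr ⟨i, hi⟩))) := by
  rw [xx_mid t hi]
  rfl

theorem loc_ring {i : Fin (M + 1)} (hi : (t i).isRing = true) (y : DD t ⊕ ZZ t → ℝ) :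
    xx t i (P.pth zs y) 1 = P.pp zs (.inr ⟨i, hi⟩) (y (.inr ⟨i, hi⟩)) := by
  rw [xx_ring t hi]
  rfl

/-- path points of a discrete variable on the flat part -/
theorem pp_flat {D Z : Type} {P : Par D} (hP : P.Good) (zs : D ⊕ Z → ℂ) (i : D) {x : ℝ}
    (h0 : P.cl i ≤ x) (h1 : x ≤ P.XM i - P.cr i) :
    P.pp zs (.inl i) x = (x : ℂ) + ((zs (.inl i)).im : ℂ) * Complex.I := by
  obtain ⟨hc, hc', hb⟩ := hP i
  unfold Par.pp
  simp only [Par.hgt]
  rw [tr_b hc hc' h0 h1, mul_one]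

/-- path points of a discrete variable on the left ramp -/
theorem pp_left {D Z : Type} {P : Par D} (hP : P.Good) (zs : D ⊕ Z → ℂ) (i : D) {x : ℝ}
    (h0 : 0 ≤ x) (h1 : x ≤ P.cl i) :
    P.pp zs (.inl i) x = (x : ℂ) + (((zs (.inl i)).im * (x / P.cl i) : ℝ) : ℂ) * Complex.I := by
  obtain ⟨hc, hc', hb⟩ := hP i
  unfold Par.pp
  simp only [Par.hgt]
  rw [tr_a hc hc' hb h0 h1]

/-- path points of a discrete variable on the right ramp -/
theorem pp_right {D Z : Type} {P : Par D} (hP : P.Good) (zs : D ⊕ Z → ℂ) (i : D) {x : ℝ}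
    (h0 : P.XM i - P.cr i ≤ x) (h1 : x ≤ P.XM i) :
    P.pp zs (.inl i) x =
      (x : ℂ) + (((zs (.inl i)).im * ((P.XM i - x) / P.cr i) : ℝ) : ℂ) * Complex.I := by
  obtain ⟨hc, hc', hb⟩ := hP i
  unfold Par.pp
  simp only [Par.hgt]
  rw [tr_c hc hc' hb h0 h1]

/-- path points of a continuous variable -/
theorem pp_ring {D Z : Type} (P : Par D) (zs : D ⊕ Z → ℂ) (v : Z) (σ : ℝ) :
    P.pp zs (.inr v) σ = (σ : ℂ) + (((zs (.inr v)).im * LT.th σ : ℝ) : ℂ) * Complex.I := rfl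

theorem pp_ring_flat {D Z : Type} (P : Par D) (zs : D ⊕ Z → ℂ) (v : Z) {σ : ℝ} (h : |σ| ≤ 1 / 4) :
    P.pp zs (.inr v) σ = (σ : ℂ) + ((zs (.inr v)).im : ℂ) * Complex.I := by
  rw [pp_ring]
  unfold LT.th
  rw [min_eq_left (by linarith), mul_one]

end

end Pool.Agent.Work.MP_b30479_gt.G2
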