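import Pool.Agent.Work.MP_b30479_gt.G2.MPWall

/-!
# Maximisers: the local interface, and the domination theorem from local hypotheses
-/

namespace Pool.Agent.Work.MP_b30479_gt.G2

open Finset VOL Filter Topology

/-- the point with parameter `c` on the path of the variable `j` -/
noncomputable def Par.pp {D Z : Type} (P : Par D) (zs : D ⊕ Z → ℂ) (j : D ⊕ Z) (c : ℝ) : ℂ :=
  (c : ℂ) + (P.hgt zs j c : ℂ) * Complex.I

theorem Par.pth_eq {D Z : Type} (P : Par D) (zs : D ⊕ Z → ℂ) (y : D ⊕ Z → ℝ) (j : D ⊕ Z) :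
    P.pth zs y j = P.pp zs j (y j) := rfl

theorem Par.pp_re {D Z : Type} (P : Par D) (zs : D ⊕ Z → ℂ) (j : D ⊕ Z) (c : ℝ) :
    (P.pp zs j c).re = c := by simp [Par.pp]

theorem Par.pp_im {D Z : Type} (P : Par D) (zs : D ⊕ Z → ℂ) (j : D ⊕ Z) (c : ℝ) :
    (P.pp zs j c).im = P.hgt zs j c := by simp [Par.pp]

theorem Par.pth_update_pp {D Z : Type} [DecidableEq D] [DecidableEq Z] (P : Par D)
    (zs : D ⊕ Z → ℂ) (y : D ⊕ Z → ℝ) (j : D ⊕ Z) (c : ℝ) :
    P.pth zs (Function.update y j c) = Function.update (P.pth zs y) j (P.pp zs j c) := by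
  funext k
  by_cases hk : k = j
  · subst hk
    simp [Par.pth_eq]
  · rw [Par.pth_eq, Function.update_of_ne hk, Function.update_of_ne hk, Par.pth_eq]

section
variable {M : ℕ} (t : Fin (M + 1) → Typ) (b : Fin (M + 1) → ℤ)

theorem xx_update' (i : Fin (M + 1)) (z : DD t ⊕ ZZ t → ℂ) (j : DD t ⊕ ZZ t) (c : ℂ) (p : Fin 3) :
    xx t i (Function.update z j c) p = xx t i z p + cf t i p j * (c - z j) := by
  have e : Function.update z j c = z + Pi.single j (c - z j) := by
    funext k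
    by_cases h : k = j
    · subst h; simp
    · simp [h]
  rw [e, xx_add, xx_single]

theorem xx_upd_hinge_left (h : Fin M) (z : DD t ⊕ ZZ t → ℂ) (c : ℂ) :
    xx t h.castSucc (Function.update z (.inl (.inl h)) c) =
      Function.update (xx t h.castSucc z) 2 c := by
  have hne : h.castSucc ≠ h.succ := (Fin.castSucc_lt_succ).ne
  funext p
  rw [xx_update']
  fin_cases p
  · simp [cf, hne.symm]
  · simp [cf]
  · simp [cf, xx_right]

theorem xx_upd_hinge_right (h : Fin M) (z : DD t ⊕ ZZ t → ℂ) (c : ℂ) :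
    xx t h.succ (Function.update z (.inl (.inl h)) c) =
      Function.update (xx t h.succ z) 0 c := by
  have hne : h.castSucc ≠ h.succ := (Fin.castSucc_lt_succ).ne
  funext p
  rw [xx_update']
  fin_cases p
  · simp [cf, xx_left]
  · simp [cf]
  · simp [cf, hne]

theorem xx_upd_hinge_ne (h : Fin M) (z : DD t ⊕ ZZ t → ℂ) (c : ℂ) (i : Fin (M + 1))
    (h1 : i ≠ h.castSucc) (h2 : i ≠ h.succ) :
    xx t i (Function.update z (.inl (.inl h)) c) = xx t i z := by
  funext p
  rw [xx_update']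
  simp [cf, Ne.symm h1, Ne.symm h2]

theorem xx_upd_mid (m : {i : Fin (M + 1) // (t i).isMid = true}) (z : DD t ⊕ ZZ t → ℂ) (c : ℂ) :
    xx t m.1 (Function.update z (.inl (.inr m)) c) = Function.update (xx t m.1 z) 1 c := by
  funext p
  rw [xx_update']
  fin_cases p
  · simp [cf]
  · have := xx_mid t m.2 z
    simp [cf, this]
  · simp [cf]

theorem xx_upd_mid_ne (m : {i : Fin (M + 1) // (t i).isMid = true}) (z : DD t ⊕ ZZ t → ℂ) (c : ℂ)
    (i : Fin (M + 1)) (h : i ≠ m.1) :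
    xx t i (Function.update z (.inl (.inr m)) c) = xx t i z := by
  funext p
  rw [xx_update']
  simp [cf, Ne.symm h]

theorem xx_upd_ring (v : ZZ t) (z : DD t ⊕ ZZ t → ℂ) (c : ℂ) :
    xx t v.1 (Function.update z (.inr v) c) = Function.update (xx t v.1 z) 1 c := by
  funext p
  rw [xx_update']
  fin_cases p
  · simp [cf]
  · have := xx_ring t v.2 z
    simp [cf, this]
  · simp [cf]

theorem xx_upd_ring_ne (v : ZZ t) (z : DD t ⊕ ZZ t → ℂ) (c : ℂ)
    (i : Fin (M + 1)) (h : i ≠ v.1) :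
    xx t i (Function.update z (.inr v) c) = xx t i z := by
  funext p
  rw [xx_update']
  simp [cf, Ne.symm h]

/-- the growth rate of the run `i` as a function of its local variables -/
noncomputable def rV (i : Fin (M + 1)) (x : Fin 3 → ℂ) : ℝ := (rdat t b i).V (lx x)

theorem wdat_V_rV (z : DD t ⊕ ZZ t → ℂ) : (wdat t b).V z = ∑ i, rV t b i (xx t i z) :=
  wdat_V_eq t b z

/-- moving a hinge changes the two neighbouring runs only -/
theorem V_upd_hinge (h : Fin M) (z : DD t ⊕ ZZ t → ℂ) (c : ℂ) :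
    (wdat t b).V (Function.update z (.inl (.inl h)) c) - (wdat t b).V z =
      (rV t b h.castSucc (Function.update (xx t h.castSucc z) 2 c) -
        rV t b h.castSucc (xx t h.castSucc z)) +
      (rV t b h.succ (Function.update (xx t h.succ z) 0 c) - rV t b h.succ (xx t h.succ z)) := by
  have hne : h.castSucc ≠ h.succ := (Fin.castSucc_lt_succ).ne
  rw [wdat_V_rV, wdat_V_rV, ← Finset.sum_sub_distrib,
    ← Finset.sum_subset (Finset.subset_univ {h.castSucc, h.succ}), Finset.sum_pair hne,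
    xx_upd_hinge_left, xx_upd_hinge_right]
  intro i _ hi
  simp only [Finset.mem_insert, Finset.mem_singleton, not_or] at hi
  rw [xx_upd_hinge_ne t h z c i hi.1 hi.2, sub_self]

theorem V_upd_mid (m : {i : Fin (M + 1) // (t i).isMid = true}) (z : DD t ⊕ ZZ t → ℂ) (c : ℂ) :
    (wdat t b).V (Function.update z (.inl (.inr m)) c) - (wdat t b).V z =
      rV t b m.1 (Function.update (xx t m.1 z) 1 c) - rV t b m.1 (xx t m.1 z) := by
  rw [wdat_V_rV, wdat_V_rV, ← Finset.sum_sub_distrib, Finset.sum_eq_single m.1, xx_upd_mid]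
  · intro i _ hi
    rw [xx_upd_mid_ne t m z c i hi, sub_self]
  · intro h
    exact absurd (Finset.mem_univ _) h

theorem V_upd_ring (v : ZZ t) (z : DD t ⊕ ZZ t → ℂ) (c : ℂ) :
    (wdat t b).V (Function.update z (.inr v) c) - (wdat t b).V z =
      rV t b v.1 (Function.update (xx t v.1 z) 1 c) - rV t b v.1 (xx t v.1 z) := by
  rw [wdat_V_rV, wdat_V_rV, ← Finset.sum_sub_distrib, Finset.sum_eq_single v.1, xx_upd_ring]
  · intro i _ hi
    rw [xx_upd_ring_ne t v z c i hi, sub_self]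
  · intro h
    exact absurd (Finset.mem_univ _) h

variable {t b}
variable {P : Par (DD t)} {zs : DD t ⊕ ZZ t → ℂ} {y : DD t ⊕ ZZ t → ℝ}

/-- replacing one coordinate of a maximiser does not increase the growth rate -/
theorem IsMx.upd {D Z K : Type} [Fintype D] [Fintype Z] [Fintype K] [DecidableEq D] [DecidableEq Z]
    {S : Dat D Z K} {P : Par D} {zs : D ⊕ Z → ℂ} {y : D ⊕ Z → ℝ} (h : IsMx S P zs y) (j : D ⊕ Z)
    {c : ℝ} (h0 : plo D Z j ≤ c) (h1 : c ≤ P.hi j) :
    S.V (Function.update (P.pth zs y) j (P.pp zs j c)) ≤ S.V (P.pth zs y) := by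
  have h2 : S.V (P.pth zs (Function.update y j c)) ≤ S.V (P.pth zs y) :=
    h.2 (update_mem_box h.1 h0 h1)
  rwa [P.pth_update_pp] at h2

/-- the inner discrete variable of a run maximises the growth rate of the run over its path -/
theorem IsMx.mid (h : IsMx (wdat t b) P zs y) (m : {i : Fin (M + 1) // (t i).isMid = true}) {c : ℝ}
    (h0 : 0 ≤ c) (h1 : c ≤ P.XM (.inr m)) :
    rV t b m.1 (Function.update (xx t m.1 (P.pth zs y)) 1 (P.pp zs (.inl (.inr m)) c)) ≤
      rV t b m.1 (xx t m.1 (P.pth zs y)) := by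
  have h2 := h.upd (.inl (.inr m)) (c := c) h0 h1
  have h3 := V_upd_mid t b m (P.pth zs y) (P.pp zs (.inl (.inr m)) c)
  linarith

/-- the inner continuous variable of a run maximises the growth rate of the run over its path -/
theorem IsMx.rng (h : IsMx (wdat t b) P zs y) (v : ZZ t) {c : ℝ}
    (h0 : -(1 / 2) ≤ c) (h1 : c ≤ 1 / 2) :
    rV t b v.1 (Function.update (xx t v.1 (P.pth zs y)) 1 (P.pp zs (.inr v) c)) ≤
      rV t b v.1 (xx t v.1 (P.pth zs y)) := by
  have h2 := h.upd (.inr v) (c := c) h0 h1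
  have h3 := V_upd_ring t b v (P.pth zs y) (P.pp zs (.inr v) c)
  linarith

/-- `side` of the run `i` -/
noncomputable def rside (t : Fin (M + 1) → Typ) (b : Fin (M + 1) → ℤ) (i : Fin (M + 1)) (p : Fin 3)
    (m : ℝ) (x : Fin 3 → ℂ) : ℝ :=
  side (t i) (b i) (decide (i ≠ 0)) (decide (i ≠ Fin.last M)) p m x

/-- all factors of the run `i` which contain the local variable `p` satisfy `Q` -/
def rfac (t : Fin (M + 1) → Typ) (i : Fin (M + 1)) (p : Fin 3) (x : Fin 3 → ℂ) (Q : ℂ → Prop) :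
    Prop :=
  FacAll (t i) (decide (i ≠ 0)) (decide (i ≠ Fin.last M)) p x Q

theorem rside_of_mid (z : DD t ⊕ ZZ t → ℂ) (m : {i : Fin (M + 1) // (t i).isMid = true}) (q : ℝ) :
    (wdat t b).d1 z (.inl (.inr m)) + q * (wdat t b).d2 z (.inl (.inr m)) =
      rside t b m.1 1 q (xx t m.1 z) := by
  rw [wdat_d1_mid, wdat_d2_mid]
  rfl

theorem rside_of_ring (z : DD t ⊕ ZZ t → ℂ) (v : ZZ t) (q : ℝ) :
    (wdat t b).d1 z (.inr v) + q * (wdat t b).d2 z (.inr v) = rside t b v.1 1 q (xx t v.1 z) := by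
  rw [wdat_d1_ring, wdat_d2_ring]
  rfl

theorem rside_of_hinge (z : DD t ⊕ ZZ t → ℂ) (h : Fin M) (q : ℝ) :
    (wdat t b).d1 z (.inl (.inl h)) + q * (wdat t b).d2 z (.inl (.inl h)) =
      rside t b h.castSucc 2 q (xx t h.castSucc z) + rside t b h.succ 0 q (xx t h.succ z) := by
  rw [wdat_d1_hinge, wdat_d2_hinge]
  unfold rside side rdat rx
  ring

/-- first-order condition for the inner discrete variable, to the right -/
theorem IsMx.mid_right (h : IsMx (wdat t b) P zs y) (hP : P.Good)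
    (m : {i : Fin (M + 1) // (t i).isMid = true}) (hx : y (.inl (.inr m)) < P.XM (.inr m))
    (hf : rfac t m.1 1 (xx t m.1 (P.pth zs y)) (QQm (P.sR zs (.inl (.inr m)) (y (.inl (.inr m)))))) :
    rside t b m.1 1 (P.sR zs (.inl (.inr m)) (y (.inl (.inr m)))) (xx t m.1 (P.pth zs y)) ≤ 0 := by
  have h1 := forms_mid t b hf
  rw [← rside_of_mid]
  exact h.right hP hx (fun k hk => (h1 k hk).1) (fun hm k hk => (h1 k hk).2 hm)

theorem IsMx.mid_left (h : IsMx (wdat t b) P zs y) (hP : P.Good)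
    (m : {i : Fin (M + 1) // (t i).isMid = true}) (hx : 0 < y (.inl (.inr m)))
    (hf : rfac t m.1 1 (xx t m.1 (P.pth zs y)) (QQm (P.sL zs (.inl (.inr m)) (y (.inl (.inr m)))))) :
    0 ≤ rside t b m.1 1 (P.sL zs (.inl (.inr m)) (y (.inl (.inr m)))) (xx t m.1 (P.pth zs y)) := by
  have h1 := forms_mid t b hf
  rw [← rside_of_mid]
  exact h.left hP hx (fun k hk => (h1 k hk).1) (fun hm k hk => (h1 k hk).2 hm)

theorem IsMx.rng_right (h : IsMx (wdat t b) P zs y) (hP : P.Good) (v : ZZ t)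
    (hx : y (.inr v) < 1 / 2)
    (hf : rfac t v.1 1 (xx t v.1 (P.pth zs y)) (QQm (P.sR zs (.inr v) (y (.inr v))))) :
    rside t b v.1 1 (P.sR zs (.inr v) (y (.inr v))) (xx t v.1 (P.pth zs y)) ≤ 0 := by
  have h1 := forms_ring t b hf
  rw [← rside_of_ring]
  exact h.right hP hx (fun k hk => (h1 k hk).1) (fun hm k hk => (h1 k hk).2 hm)

theorem IsMx.rng_left (h : IsMx (wdat t b) P zs y) (hP : P.Good) (v : ZZ t)
    (hx : -(1 / 2) < y (.inr v))
    (hf : rfac t v.1 1 (xx t v.1 (P.pth zs y)) (QQm (P.sL zs (.inr v) (y (.inr v))))) :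
    0 ≤ rside t b v.1 1 (P.sL zs (.inr v) (y (.inr v))) (xx t v.1 (P.pth zs y)) := by
  have h1 := forms_ring t b hf
  rw [← rside_of_ring]
  exact h.left hP hx (fun k hk => (h1 k hk).1) (fun hm k hk => (h1 k hk).2 hm)

/-- first-order condition for a hinge, to the right -/
theorem IsMx.hinge_right (h : IsMx (wdat t b) P zs y) (hP : P.Good) (k : Fin M)
    (hx : y (.inl (.inl k)) < P.XM (.inl k))
    (hf1 : rfac t k.castSucc 2 (xx t k.castSucc (P.pth zs y))
      (QQm (P.sR zs (.inl (.inl k)) (y (.inl (.inl k))))))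
    (hf2 : rfac t k.succ 0 (xx t k.succ (P.pth zs y))
      (QQm (P.sR zs (.inl (.inl k)) (y (.inl (.inl k)))))) :
    rside t b k.castSucc 2 (P.sR zs (.inl (.inl k)) (y (.inl (.inl k))))
        (xx t k.castSucc (P.pth zs y)) +
      rside t b k.succ 0 (P.sR zs (.inl (.inl k)) (y (.inl (.inl k))))
        (xx t k.succ (P.pth zs y)) ≤ 0 := by
  have h1 := forms_hinge t b hf1 hf2
  rw [← rside_of_hinge]
  exact h.right hP hx (fun k hk => (h1 k hk).1) (fun hm k hk => (h1 k hk).2 hm)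

theorem IsMx.hinge_left (h : IsMx (wdat t b) P zs y) (hP : P.Good) (k : Fin M)
    (hx : 0 < y (.inl (.inl k)))
    (hf1 : rfac t k.castSucc 2 (xx t k.castSucc (P.pth zs y))
      (QQm (P.sL zs (.inl (.inl k)) (y (.inl (.inl k))))))
    (hf2 : rfac t k.succ 0 (xx t k.succ (P.pth zs y))
      (QQm (P.sL zs (.inl (.inl k)) (y (.inl (.inl k)))))) :
    0 ≤ rside t b k.castSucc 2 (P.sL zs (.inl (.inl k)) (y (.inl (.inl k))))
        (xx t k.castSucc (P.pth zs y)) +
      rside t b k.succ 0 (P.sL zs (.inl (.inl k)) (y (.inl (.inl k))))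
        (xx t k.succ (P.pth zs y)) := by
  have h1 := forms_hinge t b hf1 hf2
  rw [← rside_of_hinge]
  exact h.left hP hx (fun k hk => (h1 k hk).1) (fun hm k hk => (h1 k hk).2 hm)

/-! ### domination from local hypotheses -/

/-- nonzero sine -/
def SinNe (u : ℂ) : Prop := Complex.sin (Real.pi * u) ≠ 0

/-- **Push-back of the run `i` in the hinge slot `p`** (`q` is the other hinge slot): if the
displacement of `X p` from the saddle value `Xs p` is at least as large as that of `X q` (in the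
gauge), then the horizontal derivative is pushed back. -/
def Push (t : Fin (M + 1) → Typ) (b : Fin (M + 1) → ℤ) (i : Fin (M + 1)) (p q : Fin 3)
    (X Xs : Fin 3 → ℂ) : Prop :=
  ((Xs p).re < (X p).re → |gh (X q).re - gh (Xs q).re| ≤ gh (X p).re - gh (Xs p).re →
    rfac t i p X SinNe ∧ rside t b i p 0 X < rside t b i p 0 Xs) ∧
  ((X p).re < (Xs p).re → |gh (X q).re - gh (Xs q).re| ≤ gh (Xs p).re - gh (X p).re →
    rfac t i p X SinNe ∧ rside t b i p 0 Xs < rside t b i p 0 X)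

theorem QQm_zero {u : ℂ} : QQm 0 u ↔ SinNe u := by
  unfold QQm SinNe
  simp

/-- the slopes on the flat part -/
theorem sR_flat {D Z : Type} {P : Par D} (zs : D ⊕ Z → ℂ) (i : D) {x : ℝ} (h0 : P.cl i ≤ x)
    (h1 : x < P.XM i - P.cr i) : P.sR zs (.inl i) x = 0 := by
  simp only [Par.sR]
  rw [if_neg (not_lt.2 h0), if_pos h1, mul_zero]

theorem sL_flat {D Z : Type} {P : Par D} (zs : D ⊕ Z → ℂ) (i : D) {x : ℝ} (h0 : P.cl i < x)
    (h1 : x ≤ P.XM i - P.cr i) : P.sL zs (.inl i) x = 0 := by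
  simp only [Par.sL]
  rw [if_neg (not_le.2 h0), if_pos h1, mul_zero]

theorem decide_castSucc (h : Fin M) : decide (h.castSucc ≠ Fin.last M) = true := by
  simp [Fin.castSucc_ne_last]

theorem decide_succ (h : Fin M) : decide (h.succ ≠ 0) = true := by simp [Fin.succ_ne_zero]

/-- **Domination on the product of the main paths from local hypotheses.** -/
theorem dom_of_push (hstd : ∀ i, (t i).Std)
    (hone : ∀ h : Fin M, t h.castSucc = .one → t h.succ = .one →
      sgb (b h.castSucc) + sgb (b h.succ) = 0)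
    (hP : P.Good) (hXM' : ∀ i, P.XM i ≤ 1) (hin : ∀ k, (wdat t b).form k zs ∈ strip) (hcrit : ∀ i, (wdat t b).dT zs i = 0)
    (hD : ∀ i, P.cl i < (zs (.inl i)).re ∧ (zs (.inl i)).re < P.XM i - P.cr i)
    (hZ : ∀ v, |(zs (.inr v)).re| < 1 / 4)
    (hy1 : ∀ y, IsMx (wdat t b) P zs y → ∀ j : DD t, y (.inl j) < 1)
    (hring : ∀ y, IsMx (wdat t b) P zs y → ∀ v : ZZ t, |y (.inr v)| < 1 / 2)
    (hcap : ∀ y, IsMx (wdat t b) P zs y → (∀ h : Fin M, 0 < y (.inl (.inl h))) →
      ∀ h : Fin M, P.cl (.inl h) ≤ y (.inl (.inl h)) ∧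
        y (.inl (.inl h)) ≤ P.XM (.inl h) - P.cr (.inl h))
    (hinner : ∀ y, IsMx (wdat t b) P zs y →
      (∀ h : Fin M, y (.inl (.inl h)) = (zs (.inl (.inl h))).re) → ∀ j, y j = (zs j).re)
    (hpush : ∀ y, IsMx (wdat t b) P zs y → (∀ h : Fin M, P.cl (.inl h) ≤ y (.inl (.inl h)) ∧
        y (.inl (.inl h)) ≤ P.XM (.inl h) - P.cr (.inl h)) → ∀ h : Fin M,
      Push t b h.castSucc 2 0 (xx t h.castSucc (P.pth zs y)) (xx t h.castSucc zs) ∧
      Push t b h.succ 0 2 (xx t h.succ (P.pth zs y)) (xx t h.succ zs))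
    {x : DD t ⊕ ZZ t → ℝ} (hx : x ∈ P.box (ZZ t)) (hne : P.pth zs x ≠ zs) :
    (wdat t b).V (P.pth zs x) < (wdat t b).V zs := by
  have hXM : ∀ i, 0 < P.cr i := fun i => (hP i).2.1
  have hJ : ∀ j ∈ Set.range (fun h : Fin M => (Sum.inl (Sum.inl h) : DD t ⊕ ZZ t)),
      ∃ h : Fin M, j = .inl (.inl h) := by
    rintro j ⟨h, rfl⟩
    exact ⟨h, rfl⟩
  have hcap1 : ∀ y, IsMx (wdat t b) P zs y → (∀ i ∈ Set.range
      (fun h : Fin M => (Sum.inl (Sum.inl h) : DD t ⊕ ZZ t)), plo (DD t) (ZZ t) i < y i) →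
      ∀ h : Fin M, P.cl (.inl h) ≤ y (.inl (.inl h)) ∧
        y (.inl (.inl h)) ≤ P.XM (.inl h) - P.cr (.inl h) :=
    fun y hy hpos => hcap y hy fun h => hpos _ ⟨h, rfl⟩
  -- the comparison of the gauges in local variables
  have hgauge : ∀ (y : DD t ⊕ ZZ t → ℝ) (R : ℝ), 0 ≤ R →
      (∀ j ∈ Set.range (fun h : Fin M => (Sum.inl (Sum.inl h) : DD t ⊕ ZZ t)),
        |gh (y j) - gh (zs j).re| ≤ R) → ∀ i : Fin (M + 1),
      |gh (xx t i (P.pth zs y) 0).re - gh (xx t i zs 0).re| ≤ R ∧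
      |gh (xx t i (P.pth zs y) 2).re - gh (xx t i zs 2).re| ≤ R := by
    intro y R hR hj i
    constructor
    · rcases Fin.eq_zero_or_eq_succ i with h | ⟨h, rfl⟩
      · subst h
        rw [xx_left_zero, xx_left_zero, sub_self, abs_zero]
        exact hR
      · rw [xx_left, xx_left, P.pth_eq, P.pp_re]
        exact hj _ ⟨h, rfl⟩
    · rcases Fin.eq_castSucc_or_eq_last i with ⟨h, rfl⟩ | h
      · rw [xx_right, xx_right, P.pth_eq, P.pp_re]
        exact hj _ ⟨h, rfl⟩
      · subst h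
        rw [xx_right_last, xx_right_last, sub_self, abs_zero]
        exact hR
  -- the sum of the two sides at the saddle
  have hs0 : ∀ h : Fin M, rside t b h.castSucc 2 0 (xx t h.castSucc zs) +
      rside t b h.succ 0 0 (xx t h.succ zs) = 0 := by
    intro h
    rw [← rside_of_hinge, zero_mul, add_zero]
    exact DV_crit _ hin hcrit _
  refine path_dom (wdat t b) hP hD hZ (Set.range fun h : Fin M => (Sum.inl (Sum.inl h) : DD t ⊕ ZZ t))
    (Set.range fun h : Fin M => (Sum.inl (Sum.inl h) : DD t ⊕ ZZ t)) (g := fun _ => gh)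
    (C := fun _ => Set.Ioo 0 1) (fun j _ => strictMonoOn_gh) ?_ ?_ ?_ ?_ ?_ ?_ hx hne
  · intro y hy hpos j hj
    obtain ⟨h, rfl⟩ := hJ j hj
    exact ⟨hpos _ hj, hy1 y hy _⟩
  · intro j hj
    obtain ⟨h, rfl⟩ := hJ j hj
    have h1 := hD (.inl h)
    exact ⟨(hP (.inl h)).1.trans h1.1, by linarith [h1.2, hXM (.inl h), hXM' (.inl h)]⟩
  · intro y hy j hj hy0
    obtain ⟨h, rfl⟩ := hJ j hj
    exact wall_hinge t b hstd hone hP zs hy.1 (hy1 y hy) (hring y hy) h hy0
  · intro y hy hpos hj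
    exact hinner y hy fun h => hj _ ⟨h, rfl⟩
  · intro y hy hpos i hi hlt hj
    obtain ⟨h, rfl⟩ := hJ i hi
    have hc := hcap1 y hy hpos
    have hsl : P.sL zs (.inl (.inl h)) (y (.inl (.inl h))) = 0 :=
      sL_flat zs _ ((hD (.inl h)).1.trans hlt) (hc h).2
    have hR : 0 ≤ gh (y (.inl (.inl h))) - gh (zs (.inl (.inl h))).re :=
      (abs_nonneg _).trans (hj _ hi)
    have hg := hgauge y _ hR hj
    obtain ⟨p1, p2⟩ := hpush y hy hc h
    have e1 : (xx t h.castSucc (P.pth zs y) 2).re = y (.inl (.inl h)) := by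
      rw [xx_right, P.pth_eq, P.pp_re]
    have e2 : (xx t h.succ (P.pth zs y) 0).re = y (.inl (.inl h)) := by
      rw [xx_left, P.pth_eq, P.pp_re]
    have e3 : (xx t h.castSucc zs 2) = zs (.inl (.inl h)) := xx_right t h zs
    have e4 : (xx t h.succ zs 0) = zs (.inl (.inl h)) := xx_left t h zs
    obtain ⟨f1, l1⟩ := p1.1 (by rw [e1, e3]; exact hlt) (by rw [e1, e3]; exact (hg h.castSucc).1)
    obtain ⟨f2, l2⟩ := p2.1 (by rw [e2, e4]; exact hlt) (by rw [e2, e4]; exact (hg h.succ).2)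
    refine ⟨forms_hinge t b f1 f2, fun hcon => absurd hsl hcon, ?_⟩
    rw [hsl, rside_of_hinge]
    linarith [hs0 h]
  · intro y hy hpos i hi hlt hj
    obtain ⟨h, rfl⟩ := hJ i hi
    have hc := hcap1 y hy hpos
    have hsl : P.sR zs (.inl (.inl h)) (y (.inl (.inl h))) = 0 :=
      sR_flat zs _ (hc h).1 (hlt.trans (hD (.inl h)).2)
    have hR : 0 ≤ gh (zs (.inl (.inl h))).re - gh (y (.inl (.inl h))) :=
      (abs_nonneg _).trans (hj _ hi)
    have hg := hgauge y _ hR hj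
    obtain ⟨p1, p2⟩ := hpush y hy hc h
    have e1 : (xx t h.castSucc (P.pth zs y) 2).re = y (.inl (.inl h)) := by
      rw [xx_right, P.pth_eq, P.pp_re]
    have e2 : (xx t h.succ (P.pth zs y) 0).re = y (.inl (.inl h)) := by
      rw [xx_left, P.pth_eq, P.pp_re]
    have e3 : (xx t h.castSucc zs 2) = zs (.inl (.inl h)) := xx_right t h zs
    have e4 : (xx t h.succ zs 0) = zs (.inl (.inl h)) := xx_left t h zs
    obtain ⟨f1, l1⟩ := p1.2 (by rw [e1, e3]; exact hlt) (by rw [e1, e3]; exact (hg h.castSucc).1)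
    obtain ⟨f2, l2⟩ := p2.2 (by rw [e2, e4]; exact hlt) (by rw [e2, e4]; exact (hg h.succ).2)
    refine ⟨forms_hinge t b f1 f2, fun hcon => absurd hsl hcon, ?_⟩
    rw [hsl, rside_of_hinge]
    linarith [hs0 h]

end

end Pool.Agent.Work.MP_b30479_gt.G2
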