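import Pool.Agent.Work.MP_b30479_gt.G2.MPMir
import Pool.Agent.Work.MP_b30479_gt.G2.MPRun

/-!
# Sides in the own frame

The sides of a run with sign `b` in the hinge slots `0` and `2` are the functions `S1`, `S2`, `S3`,
`S4` of the variables in the own frame: unchanged for `b > 0`, conjugated for `b < 0`.
-/

namespace Pool.Agent.Work.MP_b30479_gt.G2

open Finset VOL Filter Topology

/-- a point in the own frame of a run with sign `b` -/
noncomputable def ofr (b : ℤ) (z : ℂ) : ℂ := if 0 < b then z else starRingEnd ℂ z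

/-- a height or slope in the own frame of a run with sign `b` -/
noncomputable def ofs (b : ℤ) (m : ℝ) : ℝ := if 0 < b then m else -m

theorem ofr_pos {b : ℤ} (hb : 0 < b) (z : ℂ) : ofr b z = z := if_pos hb
theorem ofs_pos {b : ℤ} (hb : 0 < b) (m : ℝ) : ofs b m = m := if_pos hb
theorem ofr_neg {b : ℤ} (hb : b < 0) (z : ℂ) : ofr b z = starRingEnd ℂ z := if_neg (by omega)
theorem ofs_neg {b : ℤ} (hb : b < 0) (m : ℝ) : ofs b m = -m := if_neg (by omega)

theorem ofr_re (b : ℤ) (z : ℂ) : (ofr b z).re = z.re := by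
  unfold ofr
  split_ifs <;> simp

theorem ofr_im (b : ℤ) (z : ℂ) : (ofr b z).im = ofs b z.im := by
  unfold ofr ofs
  split_ifs <;> simp

theorem ofr_zero (b : ℤ) : ofr b 0 = 0 := by
  unfold ofr
  split_ifs <;> simp

theorem ofs_zero (b : ℤ) : ofs b 0 = 0 := by
  unfold ofs
  split_ifs <;> simp

theorem ofs_mul (b : ℤ) (c m : ℝ) : ofs b (c * m) = c * ofs b m := by
  unfold ofs
  split_ifs <;> ring

theorem ofs_mul' (b : ℤ) (c m : ℝ) : ofs b (m * c) = ofs b m * c := by
  unfold ofs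
  split_ifs <;> ring

theorem ofs_div (b : ℤ) (c m : ℝ) : ofs b (m / c) = ofs b m / c := by
  unfold ofs
  split_ifs <;> ring

theorem ofs_neg' (b : ℤ) (m : ℝ) : ofs b (-m) = -ofs b m := by
  unfold ofs
  split_ifs <;> ring

theorem abs_ofs (b : ℤ) (m : ℝ) : |ofs b m| = |m| := by
  unfold ofs
  split_ifs
  · rfl
  · exact abs_neg m

/-- opposite signs: opposite heights -/
theorem ofs_opp {b b' : ℤ} (h : b * b' < 0) (m : ℝ) : ofs b' m = -ofs b m := by
  rcases lt_trichotomy b 0 with h1 | h1 | h1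
  · have : 0 < b' := by
      by_contra h2
      push Not at h2
      nlinarith
    rw [ofs_neg h1, ofs_pos this, neg_neg]
  · simp [h1] at h
  · have : b' < 0 := by
      by_contra h2
      push Not at h2
      nlinarith
    rw [ofs_pos h1, ofs_neg this]

/-- equal signs: equal heights -/
theorem ofs_same {b b' : ℤ} (h : 0 < b * b') (m : ℝ) : ofs b' m = ofs b m := by
  rcases lt_trichotomy b 0 with h1 | h1 | h1
  · have : b' < 0 := by
      by_contra h2
      push Not at h2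
      nlinarith
    rw [ofs_neg h1, ofs_neg this]
  · simp [h1] at h
  · have : 0 < b' := by
      by_contra h2
      push Not at h2
      nlinarith
    rw [ofs_pos h1, ofs_pos this]

theorem ofr_strip {b : ℤ} {z : ℂ} : ofr b z ∈ strip ↔ z ∈ strip := by
  unfold strip
  simp only [Set.mem_ofPred_eq, ofr_re]

theorem ofr_eq (b : ℤ) (z : ℂ) : ofr b z = (z.re : ℂ) + ((ofs b z.im : ℝ) : ℂ) * Complex.I := by
  apply Complex.ext <;> simp [ofr_re, ofr_im]

/-! ### the functions `S1`, …, `S4` of conjugate variables -/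

theorem S1_conj (σ m : ℝ) (w v : ℂ) :
    S1 σ (-m) (starRingEnd ℂ w) (starRingEnd ℂ v) = S1 (-σ) m w v := by
  unfold S1
  rw [cadd, LL_conj, LL_conj, YY_conj, YY_conj]
  simp only [Complex.conj_im, Complex.conj_re]
  ring

theorem S2_conj (σ m : ℝ) (w v : ℂ) :
    S2 σ (-m) (starRingEnd ℂ w) (starRingEnd ℂ v) = S2 (-σ) m w v := by
  unfold S2
  rw [cadd, LL_conj, LL_conj, YY_conj, YY_conj]
  simp only [Complex.conj_im, Complex.conj_re]
  ring

theorem S3_conj (σ m : ℝ) (w v : ℂ) :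
    S3 σ (-m) (starRingEnd ℂ w) (starRingEnd ℂ v) = S3 (-σ) m w v := by
  unfold S3
  rw [csub, LL_conj, LL_conj, YY_conj, YY_conj]
  simp only [Complex.conj_im, Complex.conj_re]
  ring

theorem S4_conj (m : ℝ) (w ζ : ℂ) :
    S4 (-m) (starRingEnd ℂ w) (starRingEnd ℂ ζ) = S4 m w ζ := by
  unfold S4
  have e1 : starRingEnd ℂ w + 1 / 2 + starRingEnd ℂ ζ = starRingEnd ℂ (w + 1 / 2 + ζ) := by
    rw [map_add, map_add, ← chalf]
  have e2 : starRingEnd ℂ w + 1 / 2 - starRingEnd ℂ ζ = starRingEnd ℂ (w + 1 / 2 - ζ) := by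
    rw [map_sub, map_add, ← chalf]
  rw [e1, e2, LL_conj, LL_conj, LL_conj, YY_conj, YY_conj, YY_conj]
  ring

theorem S4_neg (m : ℝ) (w ζ : ℂ) : S4 m w (-ζ) = S4 m w ζ := by
  unfold S4
  rw [sub_neg_eq_add, ← sub_eq_add_neg]
  ring

theorem S1_ofr {b : ℤ} (hb : b ≠ 0) (m : ℝ) (w v : ℂ) :
    S1 (sgb b) m w v = S1 1 (ofs b m) (ofr b w) (ofr b v) := by
  rcases lt_or_gt_of_ne hb with h | h
  · rw [ofs_neg h, ofr_neg h, ofr_neg h, S1_conj]
    congr 1
    unfold sgb
    rw [if_neg (by omega)]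
  · rw [ofs_pos h, ofr_pos h, ofr_pos h]
    congr 1
    unfold sgb
    rw [if_pos h]

theorem S2_ofr {b : ℤ} (hb : b ≠ 0) (m : ℝ) (w v : ℂ) :
    S2 (sgb b) m w v = S2 1 (ofs b m) (ofr b w) (ofr b v) := by
  rcases lt_or_gt_of_ne hb with h | h
  · rw [ofs_neg h, ofr_neg h, ofr_neg h, S2_conj]
    congr 1
    unfold sgb
    rw [if_neg (by omega)]
  · rw [ofs_pos h, ofr_pos h, ofr_pos h]
    congr 1
    unfold sgb
    rw [if_pos h]

theorem S3_ofr {b : ℤ} (hb : b ≠ 0) (m : ℝ) (w v : ℂ) :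
    S3 (sgb b) m w v = S3 1 (ofs b m) (ofr b w) (ofr b v) := by
  rcases lt_or_gt_of_ne hb with h | h
  · rw [ofs_neg h, ofr_neg h, ofr_neg h, S3_conj]
    congr 1
    unfold sgb
    rw [if_neg (by omega)]
  · rw [ofs_pos h, ofr_pos h, ofr_pos h]
    congr 1
    unfold sgb
    rw [if_pos h]

/-- the variable of a ring in its own frame: `ζ` for `b > 0`, `-conj ζ` for `b < 0` -/
noncomputable def ofz (b : ℤ) (z : ℂ) : ℂ := if 0 < b then z else -starRingEnd ℂ z

theorem ofz_re (b : ℤ) (z : ℂ) : (ofz b z).re = ofs b z.re := by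
  unfold ofz ofs
  split_ifs <;> simp

theorem ofz_im (b : ℤ) (z : ℂ) : (ofz b z).im = z.im := by
  unfold ofz
  split_ifs <;> simp

theorem ofz_eq (b : ℤ) (z : ℂ) : ofz b z = ((ofs b z.re : ℝ) : ℂ) + (z.im : ℂ) * Complex.I := by
  apply Complex.ext <;> simp [ofz_re, ofz_im]

theorem S4_ofr (b : ℤ) (m : ℝ) (w v : ℂ) : S4 m w v = S4 (ofs b m) (ofr b w) (ofz b v) := by
  unfold ofs ofr ofz
  split_ifs
  · rfl
  · rw [S4_neg, S4_conj]

/-! ### the sides -/

section
variable {b : ℤ} (hb : b ≠ 0) (l r : Bool) (m : ℝ) (x : Fin 3 → ℂ)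

theorem side_one_zero' : side .one b true r 0 m x = S1 (sgb b) m (x 0) (x 2) := by
  unfold side S1
  rw [d1_one_zero, d2_one_zero]

theorem side_one_two' : side .one b l true 2 m x = S1 (sgb b) m (x 2) (x 0) := by
  unfold side S1
  rw [d1_one_two, d2_one_two, add_comm (x 2) (x 0)]

theorem side_two_zero' : side .two b true r 0 m x = S2 (sgb b) m (x 0) (x 2) := by
  unfold side S2
  rw [d1_two_zero, d2_two_zero]

theorem side_two_two' : side .two b l true 2 m x = S2 (sgb b) m (x 2) (x 0) := by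
  unfold side S2
  rw [d1_two_two, d2_two_two, add_comm (x 2) (x 0)]

theorem side_threeL_zero' : side .threeL b true r 0 m x = S3 (sgb b) m (x 0) (x 1) := by
  unfold side S3
  rw [d1_threeL_zero, d2_threeL_zero]

theorem side_threeL_two' : side .threeL b l true 2 m x = S2 (sgb b) m (x 2) (x 1) := by
  unfold side S2
  rw [d1_threeL_two, d2_threeL_two, add_comm (x 2) (x 1)]

theorem side_threeR_zero' : side .threeR b true r 0 m x = S2 (sgb b) m (x 0) (x 1) := by
  unfold side S2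
  rw [d1_threeR_zero, d2_threeR_zero]

theorem side_threeR_two' : side .threeR b l true 2 m x = S3 (sgb b) m (x 2) (x 1) := by
  unfold side S3
  rw [d1_threeR_two, d2_threeR_two]

theorem side_ring_zero' : side .ring b true r 0 m x = S4 m (x 0) (x 1) := by
  unfold side S4
  rw [d1_ring_zero, d2_ring_zero]

theorem side_ring_two' : side .ring b l true 2 m x = S4 m (x 2) (x 1) := by
  unfold side S4
  rw [d1_ring_two, d2_ring_two]

include hb

theorem side_one_zero : side .one b true r 0 m x = S1 1 (ofs b m) (ofr b (x 0)) (ofr b (x 2)) := by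
  rw [side_one_zero', S1_ofr hb]

theorem side_one_two : side .one b l true 2 m x = S1 1 (ofs b m) (ofr b (x 2)) (ofr b (x 0)) := by
  rw [side_one_two', S1_ofr hb]

theorem side_two_zero : side .two b true r 0 m x = S2 1 (ofs b m) (ofr b (x 0)) (ofr b (x 2)) := by
  rw [side_two_zero', S2_ofr hb]

theorem side_two_two : side .two b l true 2 m x = S2 1 (ofs b m) (ofr b (x 2)) (ofr b (x 0)) := by
  rw [side_two_two', S2_ofr hb]

theorem side_threeL_zero :
    side .threeL b true r 0 m x = S3 1 (ofs b m) (ofr b (x 0)) (ofr b (x 1)) := by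
  rw [side_threeL_zero', S3_ofr hb]

theorem side_threeL_two :
    side .threeL b l true 2 m x = S2 1 (ofs b m) (ofr b (x 2)) (ofr b (x 1)) := by
  rw [side_threeL_two', S2_ofr hb]

theorem side_threeR_zero :
    side .threeR b true r 0 m x = S2 1 (ofs b m) (ofr b (x 0)) (ofr b (x 1)) := by
  rw [side_threeR_zero', S2_ofr hb]

theorem side_threeR_two :
    side .threeR b l true 2 m x = S3 1 (ofs b m) (ofr b (x 2)) (ofr b (x 1)) := by
  rw [side_threeR_two', S3_ofr hb]

omit hb in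
theorem side_ring_zero'' :
    side .ring b true r 0 m x = S4 (ofs b m) (ofr b (x 0)) (ofz b (x 1)) := by
  rw [side_ring_zero', S4_ofr b]

omit hb in
theorem side_ring_two'' :
    side .ring b l true 2 m x = S4 (ofs b m) (ofr b (x 2)) (ofz b (x 1)) := by
  rw [side_ring_two', S4_ofr b]

end

/-! ### conditions on the factors -/

section
set_option linter.unusedSimpArgs false

theorem sinNe_one_sub {u : ℂ} : SinNe (1 - u) ↔ SinNe u := by
  unfold SinNe
  rw [mul_sub, mul_one, Complex.sin_pi_sub]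

theorem qqm_one_sub {m : ℝ} {u : ℂ} (h : QQm m u) : QQm m (1 - u) := by
  refine ⟨sinNe_one_sub.2 h.1, fun hm => ?_⟩
  rcases h.2 hm with h1 | h1
  · left
    simpa using h1
  · right
    have a1 := h1.1
    have a2 := h1.2
    constructor <;> simp <;> linarith

theorem facAll_one_zero {r : Bool} {x : Fin 3 → ℂ} {m : ℝ} (h1 : QQm m (x 0))
    (h2 : QQm m (x 0 + x 2)) : FacAll .one true r 0 x (QQm m) := by
  have v1 : ∀ w : ℂ, 1 + -w = 1 - w := fun w => by ring
  have h1' := qqm_one_sub h1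
  intro f hf hf0
  cases r <;>
  · simp [facs, hL, hR] at hf
    rcases hf with rfl | rfl | rfl <;> simp_all [Fac.form_mk]

theorem facAll_two_zero {r : Bool} {x : Fin 3 → ℂ} {m : ℝ} (h1 : QQm m (x 0))
    (h2 : QQm m (x 0 + x 2)) : FacAll .two true r 0 x (QQm m) := by
  have v1 : ∀ w : ℂ, 1 + -w = 1 - w := fun w => by ring
  have h1' := qqm_one_sub h1
  intro f hf hf0
  cases r <;>
  · simp [facs, hL, hR] at hf
    rcases hf with rfl | rfl | rfl <;> simp_all [Fac.form_mk]

theorem facAll_threeL_zero {r : Bool} {x : Fin 3 → ℂ} {m : ℝ} (h1 : QQm m (x 0))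
    (h2 : QQm m (x 1 - x 0)) : FacAll .threeL true r 0 x (QQm m) := by
  have v1 : ∀ w : ℂ, 1 + -w = 1 - w := fun w => by ring
  have v2 : ∀ w u : ℂ, 1 + (w + -u) = 1 - (u - w) := fun w u => by ring
  have h1' := qqm_one_sub h1
  have h2' := qqm_one_sub h2
  intro f hf hf0
  cases r <;>
  · simp [facs, hL, hR] at hf
    rcases hf with rfl | rfl | rfl | rfl | rfl <;> simp_all [Fac.form_mk]

theorem facAll_threeR_zero {r : Bool} {x : Fin 3 → ℂ} {m : ℝ} (h1 : QQm m (x 0))
    (h2 : QQm m (x 0 + x 1)) : FacAll .threeR true r 0 x (QQm m) := by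
  have v1 : ∀ w : ℂ, 1 + -w = 1 - w := fun w => by ring
  have h1' := qqm_one_sub h1
  intro f hf hf0
  cases r <;>
  · simp [facs, hL, hR] at hf
    rcases hf with rfl | rfl | rfl | rfl | rfl <;> simp_all [Fac.form_mk]

theorem facAll_ring_zero {r : Bool} {x : Fin 3 → ℂ} {m : ℝ} (h1 : QQm m (x 0))
    (h2 : QQm m (x 0 + 1 / 2 + x 1)) (h3 : QQm m (x 0 + 1 / 2 - x 1)) :
    FacAll .ring true r 0 x (QQm m) := by
  have v1 : ∀ w : ℂ, 1 + -w = 1 - w := fun w => by ring
  have v3 : ∀ w u : ℂ, 1 / 2 + (w + u) = w + 1 / 2 + u := fun w u => by ring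
  have v4 : ∀ w u : ℂ, 1 / 2 + (w + -u) = w + 1 / 2 - u := fun w u => by ring
  have h1' := qqm_one_sub h1
  intro f hf hf0
  cases r <;>
  · simp [facs, hL, hR] at hf
    rcases hf with rfl | rfl | rfl | rfl | rfl | rfl <;> simp_all [Fac.form_mk]

theorem facAll_one_two {l : Bool} {x : Fin 3 → ℂ} {m : ℝ} (h1 : QQm m (x 2))
    (h2 : QQm m (x 2 + x 0)) : FacAll .one l true 2 x (QQm m) :=
  (facAll_mir .one l true 2 x _).1 (facAll_one_zero (x := mir3 x) (r := l) h1 h2)

theorem facAll_two_two {l : Bool} {x : Fin 3 → ℂ} {m : ℝ} (h1 : QQm m (x 2))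
    (h2 : QQm m (x 2 + x 0)) : FacAll .two l true 2 x (QQm m) :=
  (facAll_mir .two l true 2 x _).1 (facAll_two_zero (x := mir3 x) (r := l) h1 h2)

theorem facAll_threeR_two {l : Bool} {x : Fin 3 → ℂ} {m : ℝ} (h1 : QQm m (x 2))
    (h2 : QQm m (x 1 - x 2)) : FacAll .threeR l true 2 x (QQm m) :=
  (facAll_mir .threeR l true 2 x _).1 (facAll_threeL_zero (x := mir3 x) (r := l) h1 h2)

theorem facAll_threeL_two {l : Bool} {x : Fin 3 → ℂ} {m : ℝ} (h1 : QQm m (x 2))
    (h2 : QQm m (x 2 + x 1)) : FacAll .threeL l true 2 x (QQm m) :=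
  (facAll_mir .threeL l true 2 x _).1 (facAll_threeR_zero (x := mir3 x) (r := l) h1 h2)

theorem facAll_ring_two {l : Bool} {x : Fin 3 → ℂ} {m : ℝ} (h1 : QQm m (x 2))
    (h2 : QQm m (x 2 + 1 / 2 + x 1)) (h3 : QQm m (x 2 + 1 / 2 - x 1)) :
    FacAll .ring l true 2 x (QQm m) :=
  (facAll_mir .ring l true 2 x _).1 (facAll_ring_zero (x := mir3 x) (r := l) h1 h2 h3)

end

end Pool.Agent.Work.MP_b30479_gt.G2
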