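import Pool.Agent.Work.MP_b30479_gt.G2.MPReg
import Pool.Agent.Work.MP_b30479_gt.G2.MPFin
import Pool.Agent.Work.MP_b30479_gt.G2.MPSym
import Pool.Agent.Work.MP_b30479_gt.G2.S2Poly

/-!
# First order conditions of words without conditions on the factors
-/

namespace Pool.Agent.Work.MP_b30479_gt.G2

open Finset VOL Filter Topology

/-- the condition on the factors which contain a hinge -/
def Reg0 (α : ℤ) (u : ℂ) : Prop := 0 < u.re ∧ (Complex.sin (Real.pi * u) = 0 → 0 < α)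

theorem reg0_one_sub {w : ℂ} (hw : w ∈ strip) (α : ℤ) : Reg0 α (1 - w) := by
  have h1 := hw.1
  have h2 := hw.2
  refine ⟨by simp; linarith only [h2], fun h => ?_⟩
  exact absurd h (sinNe_one_sub.2 (sin_ne_of_strip hw))

theorem reg0_pos {u : ℂ} (h : 0 < u.re) : Reg0 1 u := ⟨h, fun _ => one_pos⟩

section
set_option linter.unusedSimpArgs false

theorem facCo_zero {t : Typ} (ht : t.Std) (r : Bool) {x : Fin 3 → ℂ} (hw : x 0 ∈ strip)
    (h2 : 0 ≤ (x 2).re) (h1 : t.isMid = true → 0 ≤ (x 1).re ∧ (x 1).re < 1)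
    (hr : t = .ring → |(x 1).re| ≤ 1 / 2) : FacCo t true r 0 x Reg0 := by
  have v1 : ∀ w : ℂ, 1 + -w = 1 - w := fun w => by ring
  have v2 : ∀ w u : ℂ, 1 + (w + -u) = 1 - (u - w) := fun w u => by ring
  have v3 : ∀ w u : ℂ, 1 / 2 + (w + u) = w + 1 / 2 + u := fun w u => by ring
  have v4 : ∀ w u : ℂ, 1 / 2 + (w + -u) = w + 1 / 2 - u := fun w u => by ring
  have a1 := hw.1
  have a2 := hw.2
  have b1 := reg0_one_sub hw (-1)
  cases t with
  | one =>
    have b2 : Reg0 1 (x 0 + x 2) := reg0_pos (by simp; linarith only [h2, a1])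
    intro f hf hf0
    cases r <;>
    · simp [facs, hL, hR] at hf
      rcases hf with rfl | rfl | rfl <;> simp_all [Fac.form_mk]
  | two =>
    have b2 : Reg0 1 (x 0 + x 2) := reg0_pos (by simp; linarith only [h2, a1])
    intro f hf hf0
    cases r <;>
    · simp [facs, hL, hR] at hf
      rcases hf with rfl | rfl | rfl <;> simp_all [Fac.form_mk]
  | threeL =>
    have c := h1 rfl
    have b2 : Reg0 1 (1 - (x 1 - x 0)) := reg0_pos (by simp; linarith only [a1, c, c.2])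
    intro f hf hf0
    cases r <;>
    · simp [facs, hL, hR] at hf
      rcases hf with rfl | rfl | rfl | rfl | rfl <;> simp_all [Fac.form_mk]
  | threeR =>
    have c := h1 rfl
    have b2 : Reg0 1 (x 0 + x 1) := reg0_pos (by simp; linarith only [a1, c, c.1])
    intro f hf hf0
    cases r <;>
    · simp [facs, hL, hR] at hf
      rcases hf with rfl | rfl | rfl | rfl | rfl <;> simp_all [Fac.form_mk]
  | fourL => exact ht.elim
  | fourR => exact ht.elim
  | ring =>
    have c := abs_le.1 (hr rfl)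
    have b2 : Reg0 1 (x 0 + 1 / 2 + x 1) := reg0_pos (by simp; linarith only [a1, c, c.1])
    have b3 : Reg0 1 (x 0 + 1 / 2 - x 1) := reg0_pos (by simp; linarith only [a1, c, c.2])
    intro f hf hf0
    cases r <;>
    · simp [facs, hL, hR] at hf
      rcases hf with rfl | rfl | rfl | rfl | rfl | rfl <;> simp_all [Fac.form_mk]

theorem facCo_mir (t : Typ) (l r : Bool) (p : Fin 3) (x : Fin 3 → ℂ) (Q : ℤ → ℂ → Prop) :
    FacCo t.mir r l (Fin.rev p) (mir3 x) Q ↔ FacCo t l r p x Q := by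
  unfold FacCo
  rw [← all_mir t l r fun f => f.α (Fin.rev p) ≠ 0 → Q (f.α (Fin.rev p)) (f.form (mir3 x))]
  simp only [Fac.mir_form]
  simp [Fac.mir]

theorem Typ.mir_std {t : Typ} (ht : t.Std) : t.mir.Std := by cases t <;> exact ht

theorem Typ.mir_isMid (t : Typ) : t.mir.isMid = t.isMid := by cases t <;> rfl

theorem facCo_two {t : Typ} (ht : t.Std) (l : Bool) {x : Fin 3 → ℂ} (hw : x 2 ∈ strip)
    (h2 : 0 ≤ (x 0).re) (h1 : t.isMid = true → 0 ≤ (x 1).re ∧ (x 1).re < 1)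
    (hr : t = .ring → |(x 1).re| ≤ 1 / 2) : FacCo t l true 2 x Reg0 := by
  have h := facCo_zero (t := t.mir) (Typ.mir_std ht) l (x := mir3 x) hw h2
    (fun h => h1 (by rwa [Typ.mir_isMid] at h)) (fun h => hr ((mir_ring t).1 h))
  exact (facCo_mir t l true 2 x Reg0).1 h

end

section
variable {M : ℕ} {t : Fin (M + 1) → Typ} {b : Fin (M + 1) → ℤ}
variable {P : Par (DD t)} {zs : DD t ⊕ ZZ t → ℂ} {y : DD t ⊕ ZZ t → ℝ}

/-- the general conditions on the paths -/
structure Std (t : Fin (M + 1) → Typ) (P : Par (DD t)) : Prop where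
  std : ∀ i, (t i).Std
  good : P.Good
  XM : ∀ i, P.XM i < 1

theorem IsMx.lt_one (h : IsMx (wdat t b) P zs y) (hS : Std t P) (j : DD t) : y (.inl j) < 1 :=
  lt_of_le_of_lt (h.1.2 (.inl j)) (hS.XM j)

theorem IsMx.nonneg (h : IsMx (wdat t b) P zs y) (j : DD t) : 0 ≤ y (.inl j) := h.1.1 (.inl j)

theorem IsMx.ring_le (h : IsMx (wdat t b) P zs y) (v : ZZ t) : |y (.inr v)| ≤ 1 / 2 :=
  abs_le.2 ⟨h.1.1 (.inr v), h.1.2 (.inr v)⟩

/-- real parts of the local variables -/
theorem IsMx.loc (h : IsMx (wdat t b) P zs y) (hS : Std t P) (i : Fin (M + 1)) :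
    0 ≤ (xx t i (P.pth zs y) 0).re ∧ 0 ≤ (xx t i (P.pth zs y) 2).re ∧
    ((t i).isMid = true → 0 ≤ (xx t i (P.pth zs y) 1).re ∧ (xx t i (P.pth zs y) 1).re < 1) ∧
    (t i = .ring → |(xx t i (P.pth zs y) 1).re| ≤ 1 / 2) := by
  refine ⟨?_, ?_, ?_, ?_⟩
  · rcases Fin.eq_zero_or_eq_succ i with h0 | ⟨k, rfl⟩
    · subst h0
      rw [xx_left_zero]
      simp
    · rw [loc_left, P.pp_re]
      exact h.nonneg _
  · rcases Fin.eq_castSucc_or_eq_last i with ⟨k, rfl⟩ | h0
    · rw [loc_right, P.pp_re]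
      exact h.nonneg _
    · subst h0
      rw [xx_right_last]
      simp
  · intro hi
    rw [loc_mid hi, P.pp_re]
    exact ⟨h.nonneg _, h.lt_one hS _⟩
  · intro hi
    have hi' : (t i).isRing = true := by rw [hi]; rfl
    rw [loc_ring hi', P.pp_re]
    exact h.ring_le _

theorem IsMx.strip_hinge (h : IsMx (wdat t b) P zs y) (hS : Std t P) (k : Fin M)
    (hk : 0 < y (.inl (.inl k))) : P.pp zs (.inl (.inl k)) (y (.inl (.inl k))) ∈ strip := by
  constructor
  · rw [P.pp_re]; exact hk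
  · rw [P.pp_re]; exact h.lt_one hS _

theorem IsMx.facCo_left (h : IsMx (wdat t b) P zs y) (hS : Std t P) (k : Fin M)
    (hk : 0 < y (.inl (.inl k))) : FacCo (t k.castSucc) (decide (k.castSucc ≠ 0))
      (decide (k.castSucc ≠ Fin.last M)) 2 (xx t k.castSucc (P.pth zs y)) Reg0 := by
  obtain ⟨h0, h2, h1, hr⟩ := h.loc hS k.castSucc
  rw [decide_castSucc]
  refine facCo_two (hS.std _) _ ?_ h0 h1 hr
  rw [loc_right]
  exact h.strip_hinge hS k hk

theorem IsMx.facCo_right (h : IsMx (wdat t b) P zs y) (hS : Std t P) (k : Fin M)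
    (hk : 0 < y (.inl (.inl k))) : FacCo (t k.succ) (decide (k.succ ≠ 0))
      (decide (k.succ ≠ Fin.last M)) 0 (xx t k.succ (P.pth zs y)) Reg0 := by
  obtain ⟨h0, h2, h1, hr⟩ := h.loc hS k.succ
  rw [decide_succ]
  refine facCo_zero (hS.std _) _ ?_ h2 h1 hr
  rw [loc_left]
  exact h.strip_hinge hS k hk

/-- **First order condition for a hinge, to the left.** -/
theorem IsMx.foc_left (h : IsMx (wdat t b) P zs y) (hS : Std t P) (k : Fin M)
    (hk : 0 < y (.inl (.inl k))) :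
    (∀ q, (wdat t b).A q (.inl (.inl k)) ≠ 0 → SinNe ((wdat t b).form q (P.pth zs y))) ∧
    0 ≤ rside t b k.castSucc 2 (P.sL zs (.inl (.inl k)) (y (.inl (.inl k))))
        (xx t k.castSucc (P.pth zs y)) +
      rside t b k.succ 0 (P.sL zs (.inl (.inl k)) (y (.inl (.inl k))))
        (xx t k.succ (P.pth zs y)) := by
  have h1 := co_hinge t b (h.facCo_left hS k hk) (h.facCo_right hS k hk)
  rw [← rside_of_hinge]
  exact h.left_gen hS.good hk (fun q hq => (h1 q hq).1) (fun q hq => (h1 q hq).2)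

/-- **First order condition for a hinge, to the right.** -/
theorem IsMx.foc_right (h : IsMx (wdat t b) P zs y) (hS : Std t P) (k : Fin M)
    (hk : 0 < y (.inl (.inl k))) (hx : y (.inl (.inl k)) < P.XM (.inl k)) :
    rside t b k.castSucc 2 (P.sR zs (.inl (.inl k)) (y (.inl (.inl k))))
        (xx t k.castSucc (P.pth zs y)) +
      rside t b k.succ 0 (P.sR zs (.inl (.inl k)) (y (.inl (.inl k))))
        (xx t k.succ (P.pth zs y)) ≤ 0 := by
  have h1 := co_hinge t b (h.facCo_left hS k hk) (h.facCo_right hS k hk)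
  rw [← rside_of_hinge]
  exact (h.right_gen hS.good (j := .inl (.inl k)) hx (fun q hq => (h1 q hq).1)
    (fun q hq hs => absurd hs ((h.foc_left hS k hk).1 q hq))).2

/-- all factors which contain the hinge are regular -/
theorem IsMx.rfac_left (h : IsMx (wdat t b) P zs y) (hS : Std t P) (k : Fin M)
    (hk : 0 < y (.inl (.inl k))) : rfac t k.castSucc 2 (xx t k.castSucc (P.pth zs y)) SinNe := by
  have h1 := (h.foc_left hS k hk).1
  intro f hf hf0
  obtain ⟨n, hn⟩ := List.get_of_mem hf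
  have h2 := h1 ⟨k.castSucc, n⟩
  have e : (wdat t b).A ⟨k.castSucc, n⟩ (.inl (.inl k)) = f.α 2 := by
    have hne : k.castSucc ≠ k.succ := (Fin.castSucc_lt_succ).ne
    show ∑ p, (fac t ⟨k.castSucc, n⟩).α p * cf t k.castSucc p (.inl (.inl k)) = f.α 2
    rw [Fin.sum_univ_three, ← hn]
    simp [cf, hne.symm, fac]
  rw [e, wdat_form] at h2
  have h3 := h2 hf0
  have e2 : fac t ⟨k.castSucc, n⟩ = f := hn
  rw [e2] at h3
  exact h3

theorem IsMx.rfac_right (h : IsMx (wdat t b) P zs y) (hS : Std t P) (k : Fin M)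
    (hk : 0 < y (.inl (.inl k))) : rfac t k.succ 0 (xx t k.succ (P.pth zs y)) SinNe := by
  have h1 := (h.foc_left hS k hk).1
  intro f hf hf0
  obtain ⟨n, hn⟩ := List.get_of_mem hf
  have h2 := h1 ⟨k.succ, n⟩
  have e : (wdat t b).A ⟨k.succ, n⟩ (.inl (.inl k)) = f.α 0 := by
    have hne : k.castSucc ≠ k.succ := (Fin.castSucc_lt_succ).ne
    show ∑ p, (fac t ⟨k.succ, n⟩).α p * cf t k.succ p (.inl (.inl k)) = f.α 0
    rw [Fin.sum_univ_three, ← hn]
    simp [cf, hne, fac]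
  rw [e, wdat_form] at h2
  have h3 := h2 hf0
  have e2 : fac t ⟨k.succ, n⟩ = f := hn
  rw [e2] at h3
  exact h3

end

/-! ### inner variables -/

/-- regular factors with positive real part -/
def Reg1 (_ : ℤ) (u : ℂ) : Prop := 0 < u.re ∧ SinNe u

section
set_option linter.unusedSimpArgs false

theorem facCo_mid {t : Typ} (hm : t.isMid = true) (ht : t.Std) {l r : Bool} {x : Fin 3 → ℂ}
    (h1 : x 1 ∈ strip) (h0 : 0 ≤ (x 0).re) (h2 : 0 ≤ (x 2).re)
    (r0 : x 0 = 0 ∨ FacAll t l r 0 x SinNe) (r2 : x 2 = 0 ∨ FacAll t l r 2 x SinNe) :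
    FacCo t l r 1 x Reg1 := by
  have v1 : ∀ w : ℂ, 1 + -w = 1 - w := fun w => by ring
  have v2 : ∀ w u : ℂ, 1 + (w + -u) = 1 - (u - w) := fun w u => by ring
  have v3 : ∀ w u : ℂ, 1 + (-u + w) = 1 - (u - w) := fun w u => by ring
  have a1 := h1.1
  have a2 := h1.2
  have c3 : Reg1 0 (1 - x 1) := ⟨by simp; linarith only [a2], sinNe_one_sub.2 (sin_ne_of_strip h1)⟩
  cases t with
  | one => exact absurd hm (by decide)
  | two => exact absurd hm (by decide)
  | threeL =>
    have c1 : Reg1 0 (x 1 + x 2) := by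
      refine ⟨by simp; linarith only [h2, a1], ?_⟩
      rcases r2 with r2 | r2
      · rw [r2, add_zero]
        exact sin_ne_of_strip h1
      · have := r2 ⟨![0, 1, 1], 0, 1 / 2⟩ (by cases l <;> cases r <;> simp [facs, hL, hR])
          (by simp)
        simpa [Fac.form_mk] using this
    have c2 : Reg1 0 (1 - (x 1 - x 0)) := by
      refine ⟨by simp; linarith only [h0, a2], ?_⟩
      rcases r0 with r0 | r0
      · rw [r0, sub_zero]
        exact c3.2
      · have := r0 ⟨![1, -1, 0], 1, -(1 / 2)⟩ (by cases l <;> cases r <;> simp [facs, hL, hR])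
          (by simp)
        have e := this
        simp [Fac.form_mk] at e
        rwa [v2] at e
    intro f hf hf0
    cases l <;> cases r <;>
    · simp [facs, hL, hR] at hf
      rcases hf with rfl | rfl | rfl | rfl | rfl | rfl | rfl <;> simp_all [Fac.form_mk, Reg1]
  | threeR =>
    have c1 : Reg1 0 (x 0 + x 1) := by
      refine ⟨by simp; linarith only [h0, a1], ?_⟩
      rcases r0 with r0 | r0
      · rw [r0, zero_add]
        exact sin_ne_of_strip h1
      · have := r0 ⟨![1, 1, 0], 0, 1 / 2⟩ (by cases l <;> cases r <;> simp [facs, hL, hR])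
          (by simp)
        simpa [Fac.form_mk] using this
    have c2 : Reg1 0 (1 - (x 1 - x 2)) := by
      refine ⟨by simp; linarith only [h2, a2], ?_⟩
      rcases r2 with r2 | r2
      · rw [r2, sub_zero]
        exact c3.2
      · have := r2 ⟨![0, -1, 1], 1, -(1 / 2)⟩ (by cases l <;> cases r <;> simp [facs, hL, hR])
          (by simp)
        have e := this
        simp [Fac.form_mk] at e
        rwa [v3] at e
    intro f hf hf0
    cases l <;> cases r <;>
    · simp [facs, hL, hR] at hf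
      rcases hf with rfl | rfl | rfl | rfl | rfl | rfl | rfl <;> simp_all [Fac.form_mk, Reg1]
  | fourL => exact ht.elim
  | fourR => exact ht.elim
  | ring => exact absurd hm (by decide)

theorem facCo_ring {l r : Bool} {x : Fin 3 → ℂ} (h1 : |(x 1).re| ≤ 1 / 2)
    (r0 : l = true → 0 < (x 0).re ∧ FacAll .ring l r 0 x SinNe)
    (r2 : r = true → 0 < (x 2).re ∧ FacAll .ring l r 2 x SinNe) :
    FacCo .ring l r 1 x Reg1 := by
  have v1 : ∀ w : ℂ, 1 + -w = 1 - w := fun w => by ring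
  have v3 : ∀ w u : ℂ, 1 / 2 + (w + u) = w + 1 / 2 + u := fun w u => by ring
  have v4 : ∀ w u : ℂ, 1 / 2 + (w + -u) = w + 1 / 2 - u := fun w u => by ring
  have a := abs_le.1 h1
  have c1 : l = true → Reg1 0 (1 / 2 + (x 0 + x 1)) ∧ Reg1 0 (1 / 2 + (x 0 + -x 1)) := by
    intro hl
    obtain ⟨p0, r0⟩ := r0 hl
    have e1 := r0 ⟨![1, 1, 0], 1 / 2, 0⟩ (by subst hl; simp [facs]) (by simp)
    have e2 := r0 ⟨![1, -1, 0], 1 / 2, 0⟩ (by subst hl; simp [facs]) (by simp)
    refine ⟨⟨by simp; linarith only [a, p0, a.1], ?_⟩, ⟨by simp; linarith only [a, p0, a.2], ?_⟩⟩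
    · simpa [Fac.form_mk] using e1
    · simpa [Fac.form_mk] using e2
  have c2 : r = true → Reg1 0 (1 / 2 + (x 1 + x 2)) ∧ Reg1 0 (1 / 2 + (-x 1 + x 2)) := by
    intro hl
    obtain ⟨p0, r2⟩ := r2 hl
    have e1 := r2 ⟨![0, 1, 1], 1 / 2, 0⟩ (by subst hl; simp [facs]) (by simp)
    have e2 := r2 ⟨![0, -1, 1], 1 / 2, 0⟩ (by subst hl; simp [facs]) (by simp)
    refine ⟨⟨by simp; linarith only [a, p0, a.1], ?_⟩, ⟨by simp; linarith only [a, p0, a.2], ?_⟩⟩
    · simpa [Fac.form_mk] using e1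
    · simpa [Fac.form_mk] using e2
  intro f hf hf0
  cases l <;> cases r <;>
  · simp [facs, hL, hR] at hf
    try rcases hf with rfl | rfl | rfl | rfl | rfl | rfl | rfl | rfl
    all_goals simp_all [Fac.form_mk, Reg1]

end

section
variable {M : ℕ} {t : Fin (M + 1) → Typ} {b : Fin (M + 1) → ℤ}
variable {P : Par (DD t)} {zs : DD t ⊕ ZZ t → ℂ} {y : DD t ⊕ ZZ t → ℝ}

/-- in a hinge slot the variable vanishes (no hinge) or the factors are regular -/
theorem IsMx.slots (h : IsMx (wdat t b) P zs y) (hS : Std t P)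
    (hpos : ∀ k : Fin M, 0 < y (.inl (.inl k))) (i : Fin (M + 1)) :
    ((i = 0 ∧ xx t i (P.pth zs y) 0 = 0) ∨ (i ≠ 0 ∧ 0 < (xx t i (P.pth zs y) 0).re ∧
      rfac t i 0 (xx t i (P.pth zs y)) SinNe)) ∧
    ((i = Fin.last M ∧ xx t i (P.pth zs y) 2 = 0) ∨ (i ≠ Fin.last M ∧
      0 < (xx t i (P.pth zs y) 2).re ∧ rfac t i 2 (xx t i (P.pth zs y)) SinNe)) := by
  constructor
  · rcases Fin.eq_zero_or_eq_succ i with h0 | ⟨k, rfl⟩
    · left
      subst h0
      exact ⟨rfl, xx_left_zero _ _⟩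
    · right
      refine ⟨Fin.succ_ne_zero k, ?_, h.rfac_right hS k (hpos k)⟩
      rw [loc_left, P.pp_re]
      exact hpos k
  · rcases Fin.eq_castSucc_or_eq_last i with ⟨k, rfl⟩ | h0
    · right
      refine ⟨Fin.castSucc_ne_last k, ?_, h.rfac_left hS k (hpos k)⟩
      rw [loc_right, P.pp_re]
      exact hpos k
    · left
      subst h0
      exact ⟨rfl, xx_right_last _ _⟩

theorem IsMx.facCo_mid (h : IsMx (wdat t b) P zs y) (hS : Std t P)
    (hpos : ∀ k : Fin M, 0 < y (.inl (.inl k))) (m : {i : Fin (M + 1) // (t i).isMid = true})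
    (hm : 0 < y (.inl (.inr m))) : FacCo (t m.1) (decide (m.1 ≠ 0)) (decide (m.1 ≠ Fin.last M)) 1
      (xx t m.1 (P.pth zs y)) Reg1 := by
  obtain ⟨h0, h2, -, -⟩ := h.loc hS m.1
  obtain ⟨s0, s2⟩ := h.slots hS hpos m.1
  refine G2.facCo_mid m.2 (hS.std _) ?_ h0 h2 (s0.imp (fun h => h.2) fun h => h.2.2)
    (s2.imp (fun h => h.2) fun h => h.2.2)
  rw [loc_mid m.2]
  constructor
  · rw [P.pp_re]; exact hm
  · rw [P.pp_re]; exact h.lt_one hS _

/-- **First order conditions for the inner discrete variable.** -/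
theorem IsMx.foc_mid_left (h : IsMx (wdat t b) P zs y) (hS : Std t P)
    (hpos : ∀ k : Fin M, 0 < y (.inl (.inl k))) (m : {i : Fin (M + 1) // (t i).isMid = true})
    (hm : 0 < y (.inl (.inr m))) :
    0 ≤ rside t b m.1 1 (P.sL zs (.inl (.inr m)) (y (.inl (.inr m)))) (xx t m.1 (P.pth zs y)) := by
  have h1 := co_mid t b (h.facCo_mid hS hpos m hm)
  rw [← rside_of_mid]
  exact (h.left_gen hS.good (j := .inl (.inr m)) hm (fun q hq => (h1 q hq).1)
    (fun q hq hs => absurd hs (h1 q hq).2)).2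

theorem IsMx.foc_mid_right (h : IsMx (wdat t b) P zs y) (hS : Std t P)
    (hpos : ∀ k : Fin M, 0 < y (.inl (.inl k))) (m : {i : Fin (M + 1) // (t i).isMid = true})
    (hm : 0 < y (.inl (.inr m))) (hx : y (.inl (.inr m)) < P.XM (.inr m)) :
    rside t b m.1 1 (P.sR zs (.inl (.inr m)) (y (.inl (.inr m)))) (xx t m.1 (P.pth zs y)) ≤ 0 := by
  have h1 := co_mid t b (h.facCo_mid hS hpos m hm)
  rw [← rside_of_mid]
  exact (h.right_gen hS.good (j := .inl (.inr m)) hx (fun q hq => (h1 q hq).1)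
    (fun q hq hs => absurd hs (h1 q hq).2)).2

theorem IsMx.facCo_ring (h : IsMx (wdat t b) P zs y) (hS : Std t P)
    (hpos : ∀ k : Fin M, 0 < y (.inl (.inl k))) (v : ZZ t) :
    FacCo (t v.1) (decide (v.1 ≠ 0)) (decide (v.1 ≠ Fin.last M)) 1
      (xx t v.1 (P.pth zs y)) Reg1 := by
  have hv : t v.1 = .ring := by
    have := v.2
    cases hc : t v.1 <;> simp [hc, Typ.isRing] at this ⊢
  obtain ⟨-, -, -, hr⟩ := h.loc hS v.1
  obtain ⟨s0, s2⟩ := h.slots hS hpos v.1
  rw [hv]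
  refine G2.facCo_ring (hr hv) ?_ ?_
  · intro hl
    have hl' : v.1 ≠ 0 := by simpa using hl
    rcases s0 with s0 | s0
    · exact absurd s0.1 hl'
    · refine ⟨s0.2.1, ?_⟩
      have := s0.2.2
      unfold rfac at this
      rwa [hv] at this
  · intro hl
    have hl' : v.1 ≠ Fin.last M := by simpa using hl
    rcases s2 with s0 | s0
    · exact absurd s0.1 hl'
    · refine ⟨s0.2.1, ?_⟩
      have := s0.2.2
      unfold rfac at this
      rwa [hv] at this

/-- **First order conditions for the inner continuous variable.** -/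
theorem IsMx.foc_ring_left (h : IsMx (wdat t b) P zs y) (hS : Std t P)
    (hpos : ∀ k : Fin M, 0 < y (.inl (.inl k))) (v : ZZ t) (hx : -(1 / 2) < y (.inr v)) :
    0 ≤ rside t b v.1 1 (P.sL zs (.inr v) (y (.inr v))) (xx t v.1 (P.pth zs y)) := by
  have h1 := co_ring t b (h.facCo_ring hS hpos v)
  rw [← rside_of_ring]
  exact (h.left_gen hS.good (j := .inr v) hx (fun q hq => (h1 q hq).1)
    (fun q hq hs => absurd hs (h1 q hq).2)).2

theorem IsMx.foc_ring_right (h : IsMx (wdat t b) P zs y) (hS : Std t P)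
    (hpos : ∀ k : Fin M, 0 < y (.inl (.inl k))) (v : ZZ t) (hx : y (.inr v) < 1 / 2) :
    rside t b v.1 1 (P.sR zs (.inr v) (y (.inr v))) (xx t v.1 (P.pth zs y)) ≤ 0 := by
  have h1 := co_ring t b (h.facCo_ring hS hpos v)
  rw [← rside_of_ring]
  exact (h.right_gen hS.good (j := .inr v) hx (fun q hq => (h1 q hq).1)
    (fun q hq hs => absurd hs (h1 q hq).2)).2

/-- **Push-back of the run `i` in the hinge slot `p`**, without the condition on the factors. -/
def Push' (t : Fin (M + 1) → Typ) (b : Fin (M + 1) → ℤ) (i : Fin (M + 1)) (p q : Fin 3)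
    (X Xs : Fin 3 → ℂ) : Prop :=
  ((Xs p).re < (X p).re → |gh (X q).re - gh (Xs q).re| ≤ gh (X p).re - gh (Xs p).re →
    rside t b i p 0 X < rside t b i p 0 Xs) ∧
  ((X p).re < (Xs p).re → |gh (X q).re - gh (Xs q).re| ≤ gh (Xs p).re - gh (X p).re →
    rside t b i p 0 Xs < rside t b i p 0 X)

/-- **Domination on the product of the main paths from local hypotheses**, second form: the factors
are regular at every maximiser, and the caps are closed. -/
theorem dom_of_push' (hS : Std t P)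
    (hone : ∀ h : Fin M, t h.castSucc = .one → t h.succ = .one →
      sgb (b h.castSucc) + sgb (b h.succ) = 0)
    (hin : ∀ k, (wdat t b).form k zs ∈ strip) (hcrit : ∀ i, (wdat t b).dT zs i = 0)
    (hD : ∀ i, P.cl i < (zs (.inl i)).re ∧ (zs (.inl i)).re < P.XM i - P.cr i)
    (hZ : ∀ v, |(zs (.inr v)).re| < 1 / 4)
    (hring : ∀ y, IsMx (wdat t b) P zs y → ∀ v : ZZ t, |y (.inr v)| < 1 / 2)
    (hcap : ∀ y, IsMx (wdat t b) P zs y → (∀ h : Fin M, 0 < y (.inl (.inl h))) →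
      ∀ h : Fin M, P.cl (.inl h) ≤ y (.inl (.inl h)) ∧
        y (.inl (.inl h)) ≤ P.XM (.inl h) - P.cr (.inl h))
    (hinner : ∀ y, IsMx (wdat t b) P zs y →
      (∀ h : Fin M, y (.inl (.inl h)) = (zs (.inl (.inl h))).re) → ∀ j, y j = (zs j).re)
    (hpush : ∀ y, IsMx (wdat t b) P zs y → (∀ h : Fin M, P.cl (.inl h) ≤ y (.inl (.inl h)) ∧
        y (.inl (.inl h)) ≤ P.XM (.inl h) - P.cr (.inl h)) → ∀ h : Fin M,
      Push' t b h.castSucc 2 0 (xx t h.castSucc (P.pth zs y)) (xx t h.castSucc zs) ∧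
      Push' t b h.succ 0 2 (xx t h.succ (P.pth zs y)) (xx t h.succ zs))
    {x : DD t ⊕ ZZ t → ℝ} (hx : x ∈ P.box (ZZ t)) (hne : P.pth zs x ≠ zs) :
    (wdat t b).V (P.pth zs x) < (wdat t b).V zs := by
  refine dom_of_push hS.std hone hS.good (fun i => (hS.XM i).le) hin hcrit hD hZ
    (fun y hy j => hy.lt_one hS j) hring hcap hinner ?_ hx hne
  intro y hy hc h
  have hpos : 0 < y (.inl (.inl h)) := (hS.good (.inl h)).1.trans_le (hc h).1
  obtain ⟨p1, p2⟩ := hpush y hy hc h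
  have f1 := hy.rfac_left hS h hpos
  have f2 := hy.rfac_right hS h hpos
  exact ⟨⟨fun a c => ⟨f1, p1.1 a c⟩, fun a c => ⟨f1, p1.2 a c⟩⟩,
    ⟨fun a c => ⟨f2, p2.1 a c⟩, fun a c => ⟨f2, p2.2 a c⟩⟩⟩

end

end Pool.Agent.Work.MP_b30479_gt.G2
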