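import Pool.Agent.Work.MP_b30479_gt.G2.MPSide

/-!
# Second derivatives of a run in closed form, push-back for one run
-/

namespace Pool.Agent.Work.MP_b30479_gt.G2

open Finset VOL Filter Topology

theorem CC_neg (u : ℂ) : CC (-u) = -CC u := by
  unfold CC
  simp only [Complex.neg_re, Complex.neg_im, mul_neg, Real.sin_neg, Real.cosh_neg, Real.cos_neg,
    neg_div, mul_neg]

theorem SS_neg (u : ℂ) : SS (-u) = -SS u := by
  unfold SS
  simp only [Complex.neg_re, Complex.neg_im, mul_neg, Real.sinh_neg, Real.cosh_neg, Real.cos_neg,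
    neg_div, mul_neg]

theorem CC_add_one (u : ℂ) : CC (u + 1) = CC u := by
  unfold CC
  simp only [Complex.add_re, Complex.one_re, Complex.add_im, Complex.one_im, add_zero, mul_add,
    mul_one, Real.cos_add_two_pi, Real.sin_add_two_pi]

theorem SS_add_one (u : ℂ) : SS (u + 1) = SS u := by
  unfold SS
  simp only [Complex.add_re, Complex.one_re, Complex.add_im, Complex.one_im, add_zero, mul_add,
    mul_one, Real.cos_add_two_pi]

theorem CC_one_sub (u : ℂ) : CC (1 - u) = -CC u := by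
  rw [show (1 : ℂ) - u = -u + 1 by ring, CC_add_one, CC_neg]

theorem SS_one_sub (u : ℂ) : SS (1 - u) = -SS u := by
  rw [show (1 : ℂ) - u = -u + 1 by ring, SS_add_one, SS_neg]

/-- the derivative of `LL` in direction `y`, `Re (y π cot (π u))` -/
noncomputable def CS (u y : ℂ) : ℝ := y.re * CC u + y.im * SS u

theorem CS_real (u : ℂ) (y : ℝ) : CS u y = y * CC u := by
  simp [CS]

theorem CS_one_sub (u y : ℂ) : CS (1 - u) y = -CS u y := by
  unfold CS
  rw [CC_one_sub, SS_one_sub]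
  ring

theorem CS_neg_right (u y : ℂ) : CS u (-y) = -CS u y := by
  unfold CS
  simp only [Complex.neg_re, Complex.neg_im]
  ring

/-- the second derivative of a run in list form -/
theorem ldat_HH_gen (t : Typ) (b : ℤ) (l r : Bool) (x X Y : Fin 3 → ℂ) :
    (ldat t b l r).HH (lx x) (lx X) (lx Y) =
      (un b * (∑ p, (∑ q, (qq2 t p q + qq2 t q p : ℤ) * Y q) * X p)).re +
      (if t = .ring then 2 * Real.pi * Complex.I * b * X 1 * Y 1 else 0 : ℂ).re +
      ((facs t l r).map fun f =>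
        ((∑ p, f.α p * X p : ℂ) * (∑ p, f.α p * Y p : ℂ)).re * CC (f.form x) +
        ((∑ p, f.α p * X p : ℂ) * (∑ p, f.α p * Y p : ℂ)).im * SS (f.form x)).sum := by
  unfold Dat.HH
  rw [← sum_listR]
  simp only [ldat_form, ldat_aff]
  congr 1
  rw [← Complex.add_re]
  congr 1
  unfold ldat lx
  simp only [Fintype.sum_sum_type, Finset.univ_eq_empty, Finset.sum_empty, add_zero, Sum.elim_inl]
  by_cases h : t = .ring
  · subst h
    simp [Fin.sum_univ_three, qq2]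
    ring
  · simp only [h, false_and, if_false, add_zero, Fin.sum_univ_three]
    push_cast
    ring

/-- the second derivative of a run, one direction horizontal -/
theorem ldat_HH (t : Typ) (b : ℤ) (l r : Bool) (x Y : Fin 3 → ℂ) (p : Fin 3) :
    (ldat t b l r).HH (lx x) (Pi.single (.inl p) 1) (lx Y) =
      -(sgb b * Real.pi / 2 * (∑ q, (qq2 t p q + qq2 t q p : ℤ) * (Y q).im)) +
      (if t = .ring ∧ p = 1 then -(2 * Real.pi * b * (Y 1).im) else 0) +
      ((facs t l r).map fun f => f.α p * CS (f.form x) (∑ q, f.α q * Y q)).sum := by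
  rw [lx_single, ldat_HH_gen]
  have e1 : ∀ g : Fin 3 → ℂ, ∑ q, g q * (Pi.single p 1 : Fin 3 → ℂ) q = g p := by
    intro g
    simp [Pi.single_apply]
  have e2 : ∀ f : Fac, ∑ q, (f.α q : ℂ) * (Pi.single p 1 : Fin 3 → ℂ) q = f.α p := fun f =>
    e1 fun q => (f.α q : ℂ)
  rw [e1, un_re_mul]
  simp only [e2]
  congr 2
  · congr 2
    simp [Complex.add_im, Complex.im_sum]
  · by_cases h : t = .ring
    · by_cases hp : p = 1
      · subst hp
        simp [h]
      · simp [h, hp, Ne.symm hp]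
    · simp [h]
  · congr 1
    funext f
    unfold CS
    generalize ∑ q, (f.α q : ℂ) * Y q = w
    simp only [Complex.mul_re, Complex.mul_im, Complex.intCast_re, Complex.intCast_im, zero_mul,
      sub_zero, add_zero]
    ring

section
set_option linter.unusedSimpArgs false
set_option linter.unusedTactic false
set_option linter.unreachableTactic false
variable (b : ℤ) (l r : Bool) (x Y : Fin 3 → ℂ)

theorem HH_one_zero : (ldat .one b true r).HH (lx x) (Pi.single (.inl 0) 1) (lx Y) =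
    sgb b * Real.pi * (Y 2).im + CS (x 0 + x 2) (Y 0 + Y 2) - CS (x 0) (Y 0) := by
  rw [ldat_HH]
  cases r <;> simp [facs, hL, hR, qq2, Fin.sum_univ_three, Fac.form_mk, f1 x, f2 x, f3 x, f4 x, f5 x, CS_one_sub, CS, CC_one_sub, SS_one_sub] <;> ring

theorem HH_one_two : (ldat .one b l true).HH (lx x) (Pi.single (.inl 2) 1) (lx Y) =
    sgb b * Real.pi * (Y 0).im + CS (x 0 + x 2) (Y 0 + Y 2) - CS (x 2) (Y 2) := by
  rw [ldat_HH]
  cases l <;> simp [facs, hL, hR, qq2, Fin.sum_univ_three, Fac.form_mk, f1 x, f2 x, f3 x, f4 x, f5 x, CS_one_sub, CS, CC_one_sub, SS_one_sub] <;> ring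

theorem HH_two_zero : (ldat .two b true r).HH (lx x) (Pi.single (.inl 0) 1) (lx Y) =
    sgb b * Real.pi * ((Y 2).im - (Y 0).im) + CS (x 0 + x 2) (Y 0 + Y 2) - 2 * CS (x 0) (Y 0) := by
  rw [ldat_HH]
  cases r <;> simp [facs, hL, hR, qq2, Fin.sum_univ_three, Fac.form_mk, f1 x, f2 x, f3 x, f4 x, f5 x, CS_one_sub, CS, CC_one_sub, SS_one_sub] <;> ring

theorem HH_two_two : (ldat .two b l true).HH (lx x) (Pi.single (.inl 2) 1) (lx Y) =
    sgb b * Real.pi * ((Y 0).im - (Y 2).im) + CS (x 0 + x 2) (Y 0 + Y 2) - 2 * CS (x 2) (Y 2) := by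
  rw [ldat_HH]
  cases l <;> simp [facs, hL, hR, qq2, Fin.sum_univ_three, Fac.form_mk, f1 x, f2 x, f3 x, f4 x, f5 x, CS_one_sub, CS, CC_one_sub, SS_one_sub] <;> ring

theorem HH_threeL_zero : (ldat .threeL b true r).HH (lx x) (Pi.single (.inl 0) 1) (lx Y) =
    -(sgb b * Real.pi * (Y 1).im) + CS (x 1 - x 0) (Y 1 - Y 0) - CS (x 0) (Y 0) := by
  rw [ldat_HH]
  cases r <;> simp [facs, hL, hR, qq2, Fin.sum_univ_three, Fac.form_mk, f1 x, f2 x, f3 x, f4 x, f5 x, CS_one_sub, CS, CC_one_sub, SS_one_sub] <;> ring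

theorem HH_threeL_one : (ldat .threeL b l r).HH (lx x) (Pi.single (.inl 1) 1) (lx Y) =
    sgb b * Real.pi * ((Y 2).im - (Y 0).im - (Y 1).im) + CS (x 1 + x 2) (Y 1 + Y 2) - CS (x 1 - x 0) (Y 1 - Y 0) - CS (x 1) (Y 1) := by
  rw [ldat_HH]
  cases l <;> cases r <;> simp [facs, hL, hR, qq2, Fin.sum_univ_three, Fac.form_mk, f1 x, f2 x, f3 x, f4 x, f5 x, CS_one_sub, CS, CC_one_sub, SS_one_sub] <;> ring

theorem HH_threeL_two : (ldat .threeL b l true).HH (lx x) (Pi.single (.inl 2) 1) (lx Y) =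
    sgb b * Real.pi * ((Y 1).im - (Y 2).im) + CS (x 1 + x 2) (Y 1 + Y 2) - 2 * CS (x 2) (Y 2) := by
  rw [ldat_HH]
  cases l <;> simp [facs, hL, hR, qq2, Fin.sum_univ_three, Fac.form_mk, f1 x, f2 x, f3 x, f4 x, f5 x, CS_one_sub, CS, CC_one_sub, SS_one_sub] <;> ring

theorem HH_threeR_two : (ldat .threeR b l true).HH (lx x) (Pi.single (.inl 2) 1) (lx Y) =
    -(sgb b * Real.pi * (Y 1).im) + CS (x 1 - x 2) (Y 1 - Y 2) - CS (x 2) (Y 2) := by
  rw [ldat_HH]
  cases l <;> simp [facs, hL, hR, qq2, Fin.sum_univ_three, Fac.form_mk, f1 x, f2 x, f3 x, f4 x, f5 x, CS_one_sub, CS, CC_one_sub, SS_one_sub] <;> ring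

theorem HH_threeR_one : (ldat .threeR b l r).HH (lx x) (Pi.single (.inl 1) 1) (lx Y) =
    sgb b * Real.pi * ((Y 0).im - (Y 2).im - (Y 1).im) + CS (x 0 + x 1) (Y 0 + Y 1) - CS (x 1 - x 2) (Y 1 - Y 2) - CS (x 1) (Y 1) := by
  rw [ldat_HH]
  cases l <;> cases r <;> simp [facs, hL, hR, qq2, Fin.sum_univ_three, Fac.form_mk, f1 x, f2 x, f3 x, f4 x, f5 x, CS_one_sub, CS, CC_one_sub, SS_one_sub] <;> ring

theorem HH_threeR_zero : (ldat .threeR b true r).HH (lx x) (Pi.single (.inl 0) 1) (lx Y) =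
    sgb b * Real.pi * ((Y 1).im - (Y 0).im) + CS (x 0 + x 1) (Y 0 + Y 1) - 2 * CS (x 0) (Y 0) := by
  rw [ldat_HH]
  cases r <;> simp [facs, hL, hR, qq2, Fin.sum_univ_three, Fac.form_mk, f1 x, f2 x, f3 x, f4 x, f5 x, CS_one_sub, CS, CC_one_sub, SS_one_sub] <;> ring

theorem HH_ring_zero : (ldat .ring b true r).HH (lx x) (Pi.single (.inl 0) 1) (lx Y) =
    CS (x 0 + 1 / 2 + x 1) (Y 0 + Y 1) + CS (x 0 + 1 / 2 - x 1) (Y 0 - Y 1) - 2 * CS (x 0) (Y 0) := by
  rw [ldat_HH]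
  cases r <;> simp [facs, hL, hR, qq2, Fin.sum_univ_three, Fac.form_mk, f1 x, f2 x, f3 x, g1 x, g2 x, g3 x, g4 x, CS_one_sub, CS, CC_one_sub, SS_one_sub] <;> ring

theorem HH_ring_two : (ldat .ring b l true).HH (lx x) (Pi.single (.inl 2) 1) (lx Y) =
    CS (x 2 + 1 / 2 + x 1) (Y 2 + Y 1) + CS (x 2 + 1 / 2 - x 1) (Y 2 - Y 1) - 2 * CS (x 2) (Y 2) := by
  rw [ldat_HH]
  cases l <;> simp [facs, hL, hR, qq2, Fin.sum_univ_three, Fac.form_mk, f1 x, f2 x, f3 x, g1 x, g2 x, g3 x, g4 x, CS_one_sub, CS, CC_one_sub, SS_one_sub] <;> ring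

theorem HH_ring_one : (ldat .ring b l r).HH (lx x) (Pi.single (.inl 1) 1) (lx Y) =
    -(2 * Real.pi * b * (Y 1).im) +
      (if l = true then CS (x 0 + 1 / 2 + x 1) (Y 0 + Y 1) - CS (x 0 + 1 / 2 - x 1) (Y 0 - Y 1) else 0) +
      (if r = true then CS (x 2 + 1 / 2 + x 1) (Y 2 + Y 1) - CS (x 2 + 1 / 2 - x 1) (Y 2 - Y 1) else 0) := by
  rw [ldat_HH]
  cases l <;> cases r <;> simp [facs, hL, hR, qq2, Fin.sum_univ_three, Fac.form_mk, f1 x, f2 x, f3 x, g1 x, g2 x, g3 x, g4 x, CS_one_sub, CS, CC_one_sub, SS_one_sub] <;> ring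

end

end Pool.Agent.Work.MP_b30479_gt.G2
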