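import Pool.Agent.Work.MP_b30479_gt.G2.ADat
import Pool.Agent.Work.MP_b30479_gt.G2.VHess

/-!
# One run as a `Dat` of its own
-/

namespace Pool.Agent.Work.MP_b30479_gt.G2

open Finset VOL Filter Topology

/-- the data of one run; the variables are the left hinge, the inner variable, the right hinge
(all of them in the discrete slot; the weight of `ζ` is in the quadratic part) -/
noncomputable def ldat (t : Typ) (b : ℤ) (l r : Bool) :
    Dat (Fin 3) Empty (Fin (facs t l r).length) where
  A k := Sum.elim ((facs t l r).get k).α fun e => e.elim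
  a k := ((facs t l r).get k).a
  c k := ((facs t l r).get k).c
  b v := v.elim
  q := Sum.elim (fun p => Sum.elim (fun p' => un b * qq2 t p p' +
    if t = .ring ∧ p = 1 ∧ p' = 1 then Real.pi * Complex.I * b else 0) fun e => e.elim)
      fun e => e.elim
  r := Sum.elim (fun p => un b * rr1 t p +
    if t = .ring ∧ p = 1 then 2 * Real.pi * Complex.I else 0) fun e => e.elim
  e := Sum.elim (fun p => -(un b * rr1 t p)) fun e => e.elim

/-- points of one run -/
def lx (x : Fin 3 → ℂ) : Fin 3 ⊕ Empty → ℂ := Sum.elim x fun e => e.elim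

@[simp] theorem lx_inl (x : Fin 3 → ℂ) (p : Fin 3) : lx x (.inl p) = x p := rfl

theorem ldat_form (t : Typ) (b : ℤ) (l r : Bool) (k : Fin (facs t l r).length) (x : Fin 3 → ℂ) :
    (ldat t b l r).form k (lx x) = ((facs t l r).get k).form x := by
  unfold Dat.form Fac.form ldat lx
  simp [Fintype.sum_sum_type]

theorem ldat_aff (t : Typ) (b : ℤ) (l r : Bool) (k : Fin (facs t l r).length) (X : Fin 3 → ℂ) :
    (ldat t b l r).aff k (lx X) = ∑ p, ((facs t l r).get k).α p * X p := by
  unfold Dat.aff ldat lx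
  simp [Fintype.sum_sum_type]

/-- the quadratic polynomial of one run with the weight of `ζ` -/
theorem ldat_quad (t : Typ) (b : ℤ) (l r : Bool) (x : Fin 3 → ℂ) :
    (ldat t b l r).quad (lx x) = lquad t b x + if t = .ring then
      Real.pi * Complex.I * b * x 1 ^ 2 + 2 * Real.pi * Complex.I * x 1 else 0 := by
  unfold Dat.quad ldat lx lquad
  simp only [Fintype.sum_sum_type, Finset.univ_eq_empty, Finset.sum_empty, add_zero, Sum.elim_inl]
  by_cases h : t = .ring
  · subst h
    simp [Fin.sum_univ_three]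
    ring
  · simp only [h, false_and, if_false, add_zero]
    simp only [Fin.sum_univ_three]
    ring

theorem ldat_V (t : Typ) (b : ℤ) (l r : Bool) (x : Fin 3 → ℂ) :
    (ldat t b l r).V (lx x) = lV t b l r x + (if t = .ring then
      Real.pi * Complex.I * b * x 1 ^ 2 + 2 * Real.pi * Complex.I * x 1 else 0 : ℂ).re := by
  unfold Dat.V lV
  rw [ldat_quad]
  simp only [ldat_form, Finset.univ_eq_empty, Finset.sum_empty, add_zero, Complex.add_re]
  rw [sum_listR (facs t l r) fun f => UU (f.form x)]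
  ring

section
variable {M : ℕ} (t : Fin (M + 1) → Typ) (b : Fin (M + 1) → ℤ)

/-- the data of the run `i` -/
noncomputable abbrev rdat (i : Fin (M + 1)) :=
  ldat (t i) (b i) (decide (i ≠ 0)) (decide (i ≠ Fin.last M))

/-- the local variables of the run `i` -/
noncomputable def rx (i : Fin (M + 1)) (z : DD t ⊕ ZZ t → ℂ) : Fin 3 ⊕ Empty → ℂ := lx (xx t i z)

theorem sum_ring (f : (i : Fin (M + 1)) → ℂ → ℂ) (z : DD t ⊕ ZZ t → ℂ) :
    ∑ v : ZZ t, f v.1 (z (.inr v)) = ∑ i, if t i = .ring then f i (xx t i z 1) else 0 := by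
  have h1 : ∀ i, (if t i = .ring then f i (xx t i z 1) else 0) =
      if (t i).isRing = true then f i (xx t i z 1) else 0 := by
    intro i
    cases h : t i <;> simp [Typ.isRing]
  simp_rw [h1]
  rw [← Finset.sum_filter]
  have h2 : ∀ v : ZZ t, f v.1 (z (.inr v)) = f v.1 (xx t v.1 z 1) := fun v => by
    rw [xx_ring t v.2 z]
  simp_rw [h2]
  exact (Finset.sum_subtype (Finset.univ.filter fun i => (t i).isRing = true) (by simp)
    (fun i => f i (xx t i z 1))).symm

theorem xx_add (i : Fin (M + 1)) (z X : DD t ⊕ ZZ t → ℂ) (p : Fin 3) :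
    xx t i (z + X) p = xx t i z p + xx t i X p := by
  unfold xx
  simp [mul_add, Finset.sum_add_distrib]

theorem xx_neg (i : Fin (M + 1)) (X : DD t ⊕ ZZ t → ℂ) (p : Fin 3) :
    xx t i (-X) p = -xx t i X p := by
  unfold xx
  simp

/-- **The growth rate is the sum over the runs.** -/
theorem wdat_V_eq (z : DD t ⊕ ZZ t → ℂ) : (wdat t b).V z = ∑ i, (rdat t b i).V (rx t i z) := by
  unfold rdat rx
  simp_rw [ldat_V, Finset.sum_add_distrib, ← Complex.re_sum]
  rw [wdat_V, ← sum_ring t (fun i w => Real.pi * Complex.I * b i * w ^ 2 +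
    2 * Real.pi * Complex.I * w), Complex.re_sum]

/-- the bilinear part -/
theorem dq_eq {D Z K : Type} [Fintype D] [Fintype Z] (S : Dat D Z K) (z X : D ⊕ Z → ℂ) :
    S.dqv z X = S.quad (z + X) - S.quad z - S.quad X + (S.quad X - S.quad (-X)) / 2 +
      ∑ v, 2 * Real.pi * Complex.I * (S.b v * z (.inr v) + 1) * X (.inr v) := by
  have e1 : ∀ Y : D ⊕ Z → ℂ, S.quad Y = ∑ i, ∑ j, S.q i j * Y i * Y j + ∑ i, S.r i * Y i :=
    fun Y => rfl
  have e2 : ∑ i, ∑ j, S.q i j * (z + X) i * (z + X) j = ∑ i, ∑ j, S.q i j * z i * z j +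
      ∑ i, ∑ j, S.q i j * X i * X j + ∑ i, ∑ j, S.q i j * (X i * z j + z i * X j) := by
    simp_rw [← Finset.sum_add_distrib]
    refine Finset.sum_congr rfl fun i _ => Finset.sum_congr rfl fun j _ => ?_
    simp only [Pi.add_apply]
    ring
  have e3 : ∑ i, S.r i * (z + X) i = ∑ i, S.r i * z i + ∑ i, S.r i * X i := by
    simp_rw [← Finset.sum_add_distrib]
    refine Finset.sum_congr rfl fun i _ => ?_
    simp only [Pi.add_apply]
    ring
  have e4 : ∑ i, ∑ j, S.q i j * (-X) i * (-X) j = ∑ i, ∑ j, S.q i j * X i * X j := by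
    simp
  have e5 : ∑ i, S.r i * (-X) i = -∑ i, S.r i * X i := by simp
  rw [e1 (z + X), e1 z, e1 X, e1 (-X), e2, e3, e4, e5]
  unfold Dat.dqv
  ring

theorem lx_add (x y : Fin 3 → ℂ) : lx (x + y) = lx x + lx y := by
  funext i
  rcases i with p | e
  · rfl
  · exact e.elim

theorem lx_neg (x : Fin 3 → ℂ) : lx (-x) = -lx x := by
  funext i
  rcases i with p | e
  · rfl
  · exact e.elim

theorem wdat_dq (z X : DD t ⊕ ZZ t → ℂ) :
    (wdat t b).dqv z X = ∑ i, (rdat t b i).dqv (rx t i z) (rx t i X) := by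
  have e1 : ∀ i, xx t i (z + X) = xx t i z + xx t i X := fun i => funext fun p => xx_add t i z X p
  have e2 : ∀ i, xx t i (-X) = -xx t i X := fun i => funext fun p => xx_neg t i X p
  have e3 : ∀ i, (rdat t b i).dqv (rx t i z) (rx t i X) =
      (lquad (t i) (b i) (xx t i (z + X)) - lquad (t i) (b i) (xx t i z) -
        lquad (t i) (b i) (xx t i X) + (lquad (t i) (b i) (xx t i X) -
        lquad (t i) (b i) (xx t i (-X))) / 2) + if t i = .ring then
      2 * Real.pi * Complex.I * (b i * xx t i z 1 + 1) * xx t i X 1 else 0 := by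
    intro i
    unfold rx rdat
    rw [dq_eq, ← lx_add, ← lx_neg]
    simp only [ldat_quad, Finset.univ_eq_empty, Finset.sum_empty, add_zero]
    rw [e1, e2]
    by_cases h : t i = .ring
    · simp only [h, if_true, Pi.add_apply, Pi.neg_apply]
      ring
    · simp only [h, if_false]
      ring
  simp_rw [e3]
  rw [dq_eq, wdat_quad, wdat_quad, wdat_quad, wdat_quad, Finset.sum_add_distrib]
  congr 1
  · simp only [Finset.sum_add_distrib, Finset.sum_sub_distrib, ← Finset.sum_div]
  · rw [← Finset.sum_filter]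
    have h2 : ∀ v : ZZ t, 2 * Real.pi * Complex.I * ((wdat t b).b v * z (.inr v) + 1) * X (.inr v) =
        2 * Real.pi * Complex.I * (b v.1 * xx t v.1 z 1 + 1) * xx t v.1 X 1 := fun v => by
      rw [xx_ring t v.2 z, xx_ring t v.2 X]
      rfl
    simp_rw [h2]
    refine (Finset.sum_subtype (Finset.univ.filter fun i => t i = .ring) (fun i => ?_)
      (fun i => 2 * Real.pi * Complex.I * (b i * xx t i z 1 + 1) * xx t i X 1)).symm
    simp only [Finset.mem_filter, Finset.mem_univ, true_and]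
    cases h : t i <;> simp [Typ.isRing]

theorem wdat_aff (k : KF t) (X : DD t ⊕ ZZ t → ℂ) :
    (wdat t b).aff k X = (rdat t b k.1).aff k.2 (rx t k.1 X) := by
  unfold rdat rx
  rw [ldat_aff]
  unfold Dat.aff wdat xx
  simp only
  push_cast
  simp_rw [Finset.sum_mul, Finset.mul_sum]
  rw [Finset.sum_comm]
  refine Finset.sum_congr rfl fun p _ => Finset.sum_congr rfl fun j _ => ?_
  unfold fac
  ring

theorem wdat_form' (k : KF t) (z : DD t ⊕ ZZ t → ℂ) :
    (wdat t b).form k z = (rdat t b k.1).form k.2 (rx t k.1 z) := by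
  unfold rdat rx
  rw [ldat_form, wdat_form]
  rfl

/-- **The first derivatives are sums over the runs.** -/
theorem wdat_DV (z X : DD t ⊕ ZZ t → ℂ) :
    (wdat t b).DV z X = ∑ i, (rdat t b i).DV (rx t i z) (rx t i X) := by
  unfold Dat.DV
  rw [wdat_dq, Complex.re_sum, Fintype.sum_sigma, ← Finset.sum_add_distrib]
  simp_rw [wdat_aff, wdat_form']

/-- **The second derivatives are sums over the runs.** -/
theorem wdat_HH (z X Y : DD t ⊕ ZZ t → ℂ) :
    (wdat t b).HH z X Y = ∑ i, (rdat t b i).HH (rx t i z) (rx t i X) (rx t i Y) := by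
  have e0 : ∀ {D Z K : Type} [Fintype D] [Fintype Z] [Fintype K] (S : Dat D Z K)
      (z X Y : D ⊕ Z → ℂ), S.HH z X Y = (S.dqv Y X - S.dqv 0 X).re +
      ∑ k, ((S.aff k X * S.aff k Y).re * CC (S.form k z) +
        (S.aff k X * S.aff k Y).im * SS (S.form k z)) := by
    intro D Z K _ _ _ S z X Y
    have h1 : ∑ v, 2 * Real.pi * Complex.I * (S.b v * Y (.inr v) + 1) * X (.inr v) =
        ∑ v, 2 * Real.pi * Complex.I * S.b v * Y (.inr v) * X (.inr v) +
        ∑ v, 2 * Real.pi * Complex.I * (S.b v * (0 : ℂ) + 1) * X (.inr v) := by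
      rw [← Finset.sum_add_distrib]
      exact Finset.sum_congr rfl fun v _ => by ring
    have h2 : ∑ i, ∑ j, S.q i j * (X i * (0 : D ⊕ Z → ℂ) j + (0 : D ⊕ Z → ℂ) i * X j) = 0 := by
      simp
    unfold Dat.HH Dat.dqv
    rw [h1, h2]
    simp only [Pi.zero_apply]
    congr 2
    ring
  rw [e0, wdat_dq, wdat_dq, Fintype.sum_sigma, ← Finset.sum_sub_distrib, Complex.re_sum,
    ← Finset.sum_add_distrib]
  refine Finset.sum_congr rfl fun i _ => ?_
  rw [e0]
  have e1 : rx t i (0 : DD t ⊕ ZZ t → ℂ) = 0 := by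
    funext j
    rcases j with p | e
    · unfold rx xx
      simp
    · exact e.elim
  rw [e1]
  simp_rw [wdat_aff, wdat_form']

end

end Pool.Agent.Work.MP_b30479_gt.G2
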