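import Pool.Agent.Work.MP_b30479_gt.G2.MPWall

/-!
# Mirror images of runs
-/

namespace Pool.Agent.Work.MP_b30479_gt.G2

open Finset VOL Filter Topology

/-- the mirror image of a type -/
def Typ.mir : Typ → Typ
  | .threeL => .threeR
  | .threeR => .threeL
  | .fourL => .fourR
  | .fourR => .fourL
  | t => t

theorem Typ.mir_mir (t : Typ) : t.mir.mir = t := by cases t <;> rfl

/-- the local variables in the reversed order -/
def mir3 (x : Fin 3 → ℂ) : Fin 3 → ℂ := fun p => x (Fin.rev p)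

theorem mir3_zero (x : Fin 3 → ℂ) : mir3 x 0 = x 2 := rfl
theorem mir3_one (x : Fin 3 → ℂ) : mir3 x 1 = x 1 := rfl
theorem mir3_two (x : Fin 3 → ℂ) : mir3 x 2 = x 0 := rfl

theorem mir3_mir3 (x : Fin 3 → ℂ) : mir3 (mir3 x) = x := by
  funext p
  simp [mir3]

theorem mir3_update (x : Fin 3 → ℂ) (p : Fin 3) (c : ℂ) :
    mir3 (Function.update x p c) = Function.update (mir3 x) (Fin.rev p) c := by
  funext q
  unfold mir3
  by_cases h : q = Fin.rev p
  · subst h
    simp
  · rw [Function.update_of_ne h, Function.update_of_ne]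
    intro h2
    apply h
    rw [← h2, Fin.rev_rev]

/-- the mirror image of a factor -/
def Fac.mir (f : Fac) : Fac := ⟨fun p => f.α (Fin.rev p), f.a, f.c⟩

theorem Fac.mir_form (f : Fac) (x : Fin 3 → ℂ) : f.mir.form (mir3 x) = f.form x := by
  unfold Fac.form Fac.mir mir3
  simp only [Fin.sum_univ_three]
  have e0 : Fin.rev (0 : Fin 3) = 2 := rfl
  have e1 : Fin.rev (1 : Fin 3) = 1 := rfl
  have e2 : Fin.rev (2 : Fin 3) = 0 := rfl
  rw [e0, e1, e2]
  ring

theorem fac_mk_mir (α : Fin 3 → ℤ) (a c : ℝ) :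
    (Fac.mk α a c).mir = ⟨![α 2, α 1, α 0], a, c⟩ := by
  unfold Fac.mir
  congr 1
  funext p
  fin_cases p <;> rfl

theorem sum_mir (t : Typ) (l r : Bool) (F : Fac → ℝ) :
    ((facs t l r).map fun f => F f.mir).sum = ((facs t.mir r l).map F).sum := by
  cases t <;> cases l <;> cases r <;>
    simp [facs, hL, hR, Typ.mir, fac_mk_mir] <;> ring

theorem all_mir (t : Typ) (l r : Bool) (Q : Fac → Prop) :
    (∀ f ∈ facs t l r, Q f.mir) ↔ ∀ f ∈ facs t.mir r l, Q f := by
  cases t <;> cases l <;> cases r <;>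
    simp [facs, hL, hR, Typ.mir, fac_mk_mir] <;> tauto

theorem qq2_mir (t : Typ) (p q : Fin 3) : qq2 t.mir (Fin.rev p) (Fin.rev q) = qq2 t p q := by
  cases t <;> revert p q <;> decide

theorem rr1_mir (t : Typ) (p : Fin 3) : rr1 t.mir (Fin.rev p) = rr1 t p := by
  cases t <;> revert p <;> decide

theorem sum_rev {E : Type*} [AddCommMonoid E] (g : Fin 3 → E) : ∑ q, g (Fin.rev q) = ∑ q, g q :=
  Equiv.sum_comp Fin.revPerm g

theorem lquad_mir (t : Typ) (b : ℤ) (x : Fin 3 → ℂ) : lquad t.mir b (mir3 x) = lquad t b x := by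
  unfold lquad
  congr 2
  · rw [← sum_rev]
    refine Finset.sum_congr rfl fun p _ => ?_
    rw [← sum_rev]
    refine Finset.sum_congr rfl fun q _ => ?_
    rw [qq2_mir]
    simp only [mir3, Fin.rev_rev]
  · rw [← sum_rev]
    refine Finset.sum_congr rfl fun p _ => ?_
    rw [rr1_mir]
    simp only [mir3, Fin.rev_rev]

theorem mir_ring (t : Typ) : t.mir = .ring ↔ t = .ring := by cases t <;> simp [Typ.mir]

/-- the growth rate of the mirror image -/
theorem ldat_V_mir (t : Typ) (b : ℤ) (l r : Bool) (x : Fin 3 → ℂ) :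
    (ldat t.mir b r l).V (lx (mir3 x)) = (ldat t b l r).V (lx x) := by
  rw [ldat_V, ldat_V]
  unfold lV
  rw [lquad_mir, ← sum_mir t l r fun f => UU (f.form (mir3 x))]
  simp only [Fac.mir_form, mir_ring, mir3_one]

theorem rev_eq_one {p : Fin 3} : Fin.rev p = 1 ↔ p = 1 := by revert p; decide

theorem d1_mir (t : Typ) (b : ℤ) (l r : Bool) (x : Fin 3 → ℂ) (p : Fin 3) :
    (ldat t.mir b r l).d1 (lx (mir3 x)) (.inl (Fin.rev p)) = (ldat t b l r).d1 (lx x) (.inl p) := by
  rw [ldat_d1, ldat_d1, ← sum_mir t l r fun f => f.α (Fin.rev p) * LL (f.form (mir3 x))]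
  simp only [Fac.mir_form, mir_ring, mir3_one, rev_eq_one]
  congr 2
  · rw [← sum_rev]
    simp only [qq2_mir, mir3, Fin.rev_rev]
  · congr 1
    funext f
    simp [Fac.mir]

theorem d2_mir (t : Typ) (b : ℤ) (l r : Bool) (x : Fin 3 → ℂ) (p : Fin 3) :
    (ldat t.mir b r l).d2 (lx (mir3 x)) (.inl (Fin.rev p)) = (ldat t b l r).d2 (lx x) (.inl p) := by
  rw [ldat_d2, ldat_d2, ← sum_mir t l r fun f => f.α (Fin.rev p) * YY (f.form (mir3 x))]
  simp only [Fac.mir_form, mir_ring, mir3_one, rev_eq_one, rr1_mir]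
  congr 2
  · rw [← sum_rev]
    simp only [qq2_mir, mir3, Fin.rev_rev]
  · congr 1
    funext f
    simp [Fac.mir]

/-- **Sides of the mirror image.** -/
theorem side_mir (t : Typ) (b : ℤ) (l r : Bool) (p : Fin 3) (m : ℝ) (x : Fin 3 → ℂ) :
    side t.mir b r l (Fin.rev p) m (mir3 x) = side t b l r p m x := by
  unfold side
  rw [d1_mir, d2_mir]

theorem facAll_mir (t : Typ) (l r : Bool) (p : Fin 3) (x : Fin 3 → ℂ) (Q : ℂ → Prop) :
    FacAll t.mir r l (Fin.rev p) (mir3 x) Q ↔ FacAll t l r p x Q := by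
  unfold FacAll
  rw [← all_mir t l r fun f => f.α (Fin.rev p) ≠ 0 → Q (f.form (mir3 x))]
  simp only [Fac.mir_form]
  simp [Fac.mir]

/-! ### complex conjugation -/

theorem LL_conj (u : ℂ) : LL (starRingEnd ℂ u) = LL u := by
  unfold LL
  simp

theorem YY_conj (u : ℂ) : YY (starRingEnd ℂ u) = -YY u := by
  unfold YY
  simp only [Complex.conj_im, Complex.conj_re]
  rcases lt_trichotomy u.im 0 with h | h | h
  · rw [if_pos (by linarith), if_neg (by linarith), if_pos h]
    ring
  · rw [h]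
    simp
  · rw [if_neg (by linarith), if_pos (by linarith), if_pos h]
    ring

/-- conjugate local variables; the variable `ζ` of a ring goes to `-conj ζ` -/
noncomputable def cj (t : Typ) (x : Fin 3 → ℂ) : Fin 3 → ℂ := fun p =>
  if t = .ring ∧ p = 1 then -starRingEnd ℂ (x p) else starRingEnd ℂ (x p)

theorem cj_zero (t : Typ) (x : Fin 3 → ℂ) : cj t x 0 = starRingEnd ℂ (x 0) := by simp [cj]
theorem cj_two (t : Typ) (x : Fin 3 → ℂ) : cj t x 2 = starRingEnd ℂ (x 2) := by simp [cj]
theorem cj_one {t : Typ} (ht : t ≠ .ring) (x : Fin 3 → ℂ) : cj t x 1 = starRingEnd ℂ (x 1) := by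
  simp [cj, ht]
theorem cj_ring (x : Fin 3 → ℂ) : cj .ring x 1 = -starRingEnd ℂ (x 1) := by simp [cj]

theorem sgb_neg {b : ℤ} (hb : b ≠ 0) : sgb (-b) = -sgb b := by
  unfold sgb
  rcases lt_or_gt_of_ne hb with h | h
  · rw [if_pos (by omega), if_neg (by omega)]
    ring
  · rw [if_neg (by omega), if_pos h]

theorem cadd (u v : ℂ) : starRingEnd ℂ u + starRingEnd ℂ v = starRingEnd ℂ (u + v) :=
  (map_add _ _ _).symm

theorem csub (u v : ℂ) : starRingEnd ℂ u - starRingEnd ℂ v = starRingEnd ℂ (u - v) :=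
  (map_sub _ _ _).symm

theorem chalf : (1 / 2 : ℂ) = starRingEnd ℂ (1 / 2) := by
  rw [map_div₀, map_one, map_ofNat]

section
variable {b : ℤ} (hb : b ≠ 0) (l r : Bool) (m : ℝ) (x : Fin 3 → ℂ)
include hb

theorem side_cj_zero (t : Typ) (ht : t.Std) :
    side t (-b) true r 0 (-m) (cj t x) = side t b true r 0 m x := by
  unfold side
  cases t with
  | one =>
    rw [d1_one_zero, d2_one_zero, d1_one_zero, d2_one_zero, cj_zero, cj_two, sgb_neg hb, cadd,
      LL_conj, LL_conj, YY_conj, YY_conj]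
    simp only [Complex.conj_im, Complex.conj_re]
    ring
  | two =>
    rw [d1_two_zero, d2_two_zero, d1_two_zero, d2_two_zero, cj_zero, cj_two, sgb_neg hb, cadd,
      LL_conj, LL_conj, YY_conj, YY_conj]
    simp only [Complex.conj_im, Complex.conj_re]
    ring
  | threeL =>
    rw [d1_threeL_zero, d2_threeL_zero, d1_threeL_zero, d2_threeL_zero, cj_zero,
      cj_one (by decide), sgb_neg hb, csub, LL_conj, LL_conj, YY_conj, YY_conj]
    simp only [Complex.conj_im, Complex.conj_re]
    ring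
  | threeR =>
    rw [d1_threeR_zero, d2_threeR_zero, d1_threeR_zero, d2_threeR_zero, cj_zero,
      cj_one (by decide), sgb_neg hb, cadd, LL_conj, LL_conj, YY_conj, YY_conj]
    simp only [Complex.conj_im, Complex.conj_re]
    ring
  | fourL => exact ht.elim
  | fourR => exact ht.elim
  | ring =>
    have e1 : starRingEnd ℂ (x 0) + 1 / 2 + -starRingEnd ℂ (x 1) =
        starRingEnd ℂ (x 0 + 1 / 2 - x 1) := by
      rw [map_sub, map_add, ← chalf]
      ring
    have e2 : starRingEnd ℂ (x 0) + 1 / 2 - -starRingEnd ℂ (x 1) =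
        starRingEnd ℂ (x 0 + 1 / 2 + x 1) := by
      rw [map_add, map_add, ← chalf]
      ring
    rw [d1_ring_zero, d2_ring_zero, d1_ring_zero, d2_ring_zero, cj_zero, cj_ring, e1, e2,
      LL_conj, LL_conj, LL_conj, YY_conj, YY_conj, YY_conj]
    ring

theorem side_cj_two (t : Typ) (ht : t.Std) :
    side t (-b) l true 2 (-m) (cj t x) = side t b l true 2 m x := by
  have h1 := side_mir t (-b) l true 2 (-m) (cj t x)
  have h2 := side_mir t b l true 2 m x
  have e0 : Fin.rev (2 : Fin 3) = 0 := rfl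
  have e1 : mir3 (cj t x) = cj t.mir (mir3 x) := by
    funext p
    unfold mir3 cj
    have h3 : (t.mir = .ring ∧ p = 1) ↔ (t = .ring ∧ Fin.rev p = 1) := by
      rw [mir_ring, rev_eq_one]
    by_cases h : t = .ring ∧ Fin.rev p = 1
    · rw [if_pos h, if_pos (h3.2 h)]
    · rw [if_neg h, if_neg (fun hc => h (h3.1 hc))]
  have ht' : t.mir.Std := by
    cases t <;> exact ht
  rw [← h1, ← h2, e0, e1]
  exact side_cj_zero hb l m (mir3 x) t.mir ht'

theorem side_cj_mid (t : Typ) (ht : t.isMid = true) (hs : t.Std) :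
    side t (-b) l r 1 (-m) (cj t x) = side t b l r 1 m x := by
  unfold side
  cases t with
  | one => exact absurd ht (by decide)
  | two => exact absurd ht (by decide)
  | threeL =>
    rw [d1_threeL_one, d2_threeL_one, d1_threeL_one, d2_threeL_one, cj_zero,
      cj_one (by decide), cj_two, sgb_neg hb, csub, cadd, LL_conj, LL_conj, LL_conj, YY_conj,
      YY_conj, YY_conj]
    simp only [Complex.conj_im, Complex.conj_re]
    ring
  | threeR =>
    rw [d1_threeR_one, d2_threeR_one, d1_threeR_one, d2_threeR_one, cj_zero,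
      cj_one (by decide), cj_two, sgb_neg hb, csub, cadd, LL_conj, LL_conj, LL_conj, YY_conj,
      YY_conj, YY_conj]
    simp only [Complex.conj_im, Complex.conj_re]
    ring
  | fourL => exact hs.elim
  | fourR => exact hs.elim
  | ring => exact absurd ht (by decide)

omit hb in
theorem side_cj_ring :
    side .ring (-b) l r 1 (-m) (cj .ring x) = -side .ring b l r 1 m x := by
  have f : ∀ y : ℂ, starRingEnd ℂ y + 1 / 2 + -starRingEnd ℂ (x 1) =
      starRingEnd ℂ (y + 1 / 2 - x 1) := by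
    intro y
    rw [map_sub, map_add, ← chalf]
    ring
  have g : ∀ y : ℂ, starRingEnd ℂ y + 1 / 2 - -starRingEnd ℂ (x 1) =
      starRingEnd ℂ (y + 1 / 2 + x 1) := by
    intro y
    rw [map_add, map_add, ← chalf]
    ring
  unfold side
  rw [d1_ring_one, d2_ring_one, d1_ring_one, d2_ring_one, cj_zero, cj_two, cj_ring, f, f, g, g]
  simp only [LL_conj, YY_conj, Complex.neg_im, Complex.neg_re, Complex.conj_im, Complex.conj_re]
  push_cast
  split_ifs <;> ring

omit hb in
theorem fac_form_cj (t : Typ) (f : Fac) (x : Fin 3 → ℂ) (ht : t ≠ .ring) :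
    f.form (cj t x) = starRingEnd ℂ (f.form x) := by
  unfold Fac.form cj
  simp [ht]

end

/-! ### values in closed form -/

section
set_option linter.unusedSimpArgs false
variable (b : ℤ) (l r : Bool) (x : Fin 3 → ℂ)

theorem V_ring : (ldat .ring b l r).V (lx x) =
    (Real.pi * Complex.I * b * x 1 ^ 2 + 2 * Real.pi * Complex.I * x 1).re +
      (if l = true then UU (x 0 + 1 / 2 + x 1) + UU (x 0 + 1 / 2 - x 1) - 2 * UU (x 0) else 0) +
      (if r = true then UU (x 2 + 1 / 2 + x 1) + UU (x 2 + 1 / 2 - x 1) - 2 * UU (x 2) else 0) := by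
  rw [ldat_V]
  unfold lV lquad
  cases l <;> cases r <;> simp [facs, hL, hR, qq2, rr1, Fin.sum_univ_three, Fac.form_mk, f1 x, f2 x,
    f3 x, g1 x, g2 x, g3 x, g4 x, UU_one_sub] <;> ring

theorem V_one : (ldat .one b true true).V (lx x) =
    sgb b * Real.pi * (x 0 * x 2 - x 0 - x 2).im + UU (x 0 + x 2) - UU (x 0) - UU (x 2) := by
  rw [ldat_V]
  unfold lV lquad
  rw [un_re_mul]
  simp [facs, qq2, rr1, Fin.sum_univ_three, Fac.form_mk, f1 x, f3 x, UU_one_sub]
  ring

theorem V_two : (ldat .two b l r).V (lx x) =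
    -(sgb b * Real.pi / 2 * ((x 0 - x 2) ^ 2 + x 0 + x 2).im) +
      (if l = true ∨ r = true then UU (x 0 + x 2) else 0) +
      (if l = true then -(2 * UU (x 0)) else 0) + (if r = true then -(2 * UU (x 2)) else 0) := by
  rw [ldat_V]
  unfold lV lquad
  rw [un_re_mul]
  cases l <;> cases r <;> simp [facs, hL, hR, qq2, rr1, Fin.sum_univ_three, Fac.form_mk, f1 x,
    f3 x, UU_one_sub, pow_two] <;> ring_nf <;> simp

theorem V_threeL : (ldat .threeL b l r).V (lx x) =
    -(sgb b * Real.pi / 2 * (2 * x 0 * x 1 + (x 1 - x 2) ^ 2 - x 1 + x 2).im) +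
      UU (x 1 + x 2) - UU (x 1 - x 0) - UU (x 1) +
      (if l = true then -UU (x 0) else 0) + (if r = true then -(2 * UU (x 2)) else 0) := by
  rw [ldat_V]
  unfold lV lquad
  rw [un_re_mul]
  cases l <;> cases r <;> simp [facs, hL, hR, qq2, rr1, Fin.sum_univ_three, Fac.form_mk, f1 x,
    f2 x, f3 x, f4 x, f5 x, UU_one_sub, pow_two] <;> ring

theorem V_threeR : (ldat .threeR b l r).V (lx x) =
    -(sgb b * Real.pi / 2 * (2 * x 2 * x 1 + (x 1 - x 0) ^ 2 - x 1 + x 0).im) +
      UU (x 0 + x 1) - UU (x 1 - x 2) - UU (x 1) +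
      (if r = true then -UU (x 2) else 0) + (if l = true then -(2 * UU (x 0)) else 0) := by
  rw [ldat_V]
  unfold lV lquad
  rw [un_re_mul]
  cases l <;> cases r <;> simp [facs, hL, hR, qq2, rr1, Fin.sum_univ_three, Fac.form_mk, f1 x,
    f2 x, f3 x, f4 x, f5 x, UU_one_sub, pow_two] <;> ring

end

section
variable {b : ℤ} (hb : b ≠ 0) (l r : Bool) (x : Fin 3 → ℂ)
include hb

/-- the growth rate of the conjugate -/
theorem ldat_V_cj (t : Typ) (ht : t.Std) :
    (ldat t (-b) l r).V (lx (cj t x)) = (ldat t b l r).V (lx x) := by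
  by_cases hr : t = .ring
  · subst hr
    have f : ∀ y : ℂ, starRingEnd ℂ y + 1 / 2 + -starRingEnd ℂ (x 1) =
        starRingEnd ℂ (y + 1 / 2 - x 1) := by
      intro y
      rw [map_sub, map_add, ← chalf]
      ring
    have g : ∀ y : ℂ, starRingEnd ℂ y + 1 / 2 - -starRingEnd ℂ (x 1) =
        starRingEnd ℂ (y + 1 / 2 + x 1) := by
      intro y
      rw [map_add, map_add, ← chalf]
      ring
    rw [V_ring, V_ring, cj_zero, cj_two, cj_ring, f, f, g, g]
    simp only [UU_conj]
    have e : (Real.pi * Complex.I * ((-b : ℤ) : ℂ) * (-starRingEnd ℂ (x 1)) ^ 2 +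
        2 * Real.pi * Complex.I * -starRingEnd ℂ (x 1)) =
        starRingEnd ℂ (Real.pi * Complex.I * b * x 1 ^ 2 + 2 * Real.pi * Complex.I * x 1) := by
      simp [Complex.conj_ofNat]
    rw [e, Complex.conj_re]
    split_ifs <;> ring
  · have hun : un (-b) = starRingEnd ℂ (un b) := by
      unfold un
      rcases lt_or_gt_of_ne hb with h | h
      · rw [if_pos (by omega), if_neg (by omega)]
        simp [Complex.conj_ofNat]
        ring
      · rw [if_neg (by omega), if_pos h]
        simp [Complex.conj_ofNat]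
        ring
    rw [ldat_V, ldat_V, if_neg hr, if_neg hr]
    congr 1
    unfold lV
    congr 1
    · have : lquad t (-b) (cj t x) = starRingEnd ℂ (lquad t b x) := by
        unfold lquad
        rw [hun]
        simp [cj, hr]
      rw [this, Complex.conj_re]
    · congr 1
      apply List.map_congr_left
      intro f _
      rw [fac_form_cj t f x hr, UU_conj]

end

end Pool.Agent.Work.MP_b30479_gt.G2
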