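import Pool.Agent.Work.MP_b30479_gt.G2.MPSym
import Pool.Agent.Work.MP_b30479_gt.G2.MPFin

/-!
# Words: from the sides of the runs to the domination on the main paths
-/

namespace Pool.Agent.Work.MP_b30479_gt.G2

open Finset VOL Filter Topology

/-! ### ordering the hinges -/

/-- if the least value of `f` is never below `θ`, then no value is -/
theorem left_phase {n : ℕ} {f : Fin n → ℝ} {θ : ℝ}
    (h : ∀ i, f i < θ → (∀ j, f i ≤ f j) → False) (i : Fin n) : θ ≤ f i := by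
  have : Nonempty (Fin n) := ⟨i⟩
  obtain ⟨k, hk⟩ := Finite.exists_min f
  by_contra hi
  push Not at hi
  exact h k ((hk i).trans_lt hi) hk

theorem right_phase {n : ℕ} {f : Fin n → ℝ} {θ : ℝ}
    (h : ∀ i, θ < f i → (∀ j, f j ≤ f i) → False) (i : Fin n) : f i ≤ θ := by
  have : Nonempty (Fin n) := ⟨i⟩
  obtain ⟨k, hk⟩ := Finite.exists_max f
  by_contra hi
  push Not at hi
  exact h k (hi.trans_le (hk i)) hk

/-- several phases: the values `θ i` depend on the hinge -/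
theorem left_phase' {n : ℕ} {y c : Fin n → ℝ} (hc : ∀ i, 0 < c i) {θ : ℝ}
    (h : ∀ i, y i < θ * c i → (∀ j, y i / c i ≤ y j / c j) → False) (i : Fin n) :
    θ * c i ≤ y i := by
  have := left_phase (f := fun i => y i / c i) (θ := θ)
    (fun i hi hj => h i ((div_lt_iff₀ (hc i)).1 hi) hj) i
  exact (le_div_iff₀ (hc i)).1 this

section
variable {M : ℕ} {t : Fin (M + 1) → Typ} {b : Fin (M + 1) → ℤ}
variable {P : Par (DD t)} {zs : DD t ⊕ ZZ t → ℂ} {y : DD t ⊕ ZZ t → ℝ}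

/-- **Left ramp of a hinge between runs of opposite signs.**  `c μ` is a shift which cancels. -/
theorem IsMx.left_alt (h : IsMx (wdat t b) P zs y) (hP : P.Good) (k : Fin M)
    (hb : b k.castSucc * b k.succ < 0)
    (hx : y (.inl (.inl k)) < P.XM (.inl k))
    (hf1 : rfac t k.castSucc 2 (xx t k.castSucc (P.pth zs y))
      (QQm (P.sR zs (.inl (.inl k)) (y (.inl (.inl k))))))
    (hf2 : rfac t k.succ 0 (xx t k.succ (P.pth zs y))
      (QQm (P.sR zs (.inl (.inl k)) (y (.inl (.inl k))))))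
    {c e1 e2 : ℝ} (he : 0 < e1 + e2)
    (h1 : e1 ≤ rside t b k.castSucc 2 (P.sR zs (.inl (.inl k)) (y (.inl (.inl k))))
        (xx t k.castSucc (P.pth zs y)) +
      c * ofs (b k.castSucc) (P.sR zs (.inl (.inl k)) (y (.inl (.inl k)))))
    (h2 : e2 ≤ rside t b k.succ 0 (P.sR zs (.inl (.inl k)) (y (.inl (.inl k))))
        (xx t k.succ (P.pth zs y)) +
      c * ofs (b k.succ) (P.sR zs (.inl (.inl k)) (y (.inl (.inl k))))) : False := by
  have h3 := h.hinge_right hP k hx hf1 hf2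
  rw [ofs_opp hb] at h2
  linarith only [he, h1, h2, h3]

/-- **Right ramp of a hinge between runs of opposite signs.** -/
theorem IsMx.right_alt (h : IsMx (wdat t b) P zs y) (hP : P.Good) (k : Fin M)
    (hb : b k.castSucc * b k.succ < 0)
    (hx : 0 < y (.inl (.inl k)))
    (hf1 : rfac t k.castSucc 2 (xx t k.castSucc (P.pth zs y))
      (QQm (P.sL zs (.inl (.inl k)) (y (.inl (.inl k))))))
    (hf2 : rfac t k.succ 0 (xx t k.succ (P.pth zs y))
      (QQm (P.sL zs (.inl (.inl k)) (y (.inl (.inl k))))))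
    {c e1 e2 : ℝ} (he : e1 + e2 < 0)
    (h1 : rside t b k.castSucc 2 (P.sL zs (.inl (.inl k)) (y (.inl (.inl k))))
        (xx t k.castSucc (P.pth zs y)) +
      c * ofs (b k.castSucc) (P.sL zs (.inl (.inl k)) (y (.inl (.inl k)))) ≤ e1)
    (h2 : rside t b k.succ 0 (P.sL zs (.inl (.inl k)) (y (.inl (.inl k))))
        (xx t k.succ (P.pth zs y)) +
      c * ofs (b k.succ) (P.sL zs (.inl (.inl k)) (y (.inl (.inl k)))) ≤ e2) : False := by
  have h3 := h.hinge_left hP k hx hf1 hf2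
  rw [ofs_opp hb] at h2
  linarith only [he, h1, h2, h3]

/-- **Hinge between runs of equal signs**: both sides have the right sign. -/
theorem IsMx.left_same (h : IsMx (wdat t b) P zs y) (hP : P.Good) (k : Fin M)
    (hx : y (.inl (.inl k)) < P.XM (.inl k))
    (hf1 : rfac t k.castSucc 2 (xx t k.castSucc (P.pth zs y))
      (QQm (P.sR zs (.inl (.inl k)) (y (.inl (.inl k))))))
    (hf2 : rfac t k.succ 0 (xx t k.succ (P.pth zs y))
      (QQm (P.sR zs (.inl (.inl k)) (y (.inl (.inl k))))))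
    {e1 e2 : ℝ} (he : 0 < e1 + e2)
    (h1 : e1 ≤ rside t b k.castSucc 2 (P.sR zs (.inl (.inl k)) (y (.inl (.inl k))))
        (xx t k.castSucc (P.pth zs y)))
    (h2 : e2 ≤ rside t b k.succ 0 (P.sR zs (.inl (.inl k)) (y (.inl (.inl k))))
        (xx t k.succ (P.pth zs y))) : False := by
  have h3 := h.hinge_right hP k hx hf1 hf2
  linarith only [he, h1, h2, h3]

theorem IsMx.right_same (h : IsMx (wdat t b) P zs y) (hP : P.Good) (k : Fin M)
    (hx : 0 < y (.inl (.inl k)))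
    (hf1 : rfac t k.castSucc 2 (xx t k.castSucc (P.pth zs y))
      (QQm (P.sL zs (.inl (.inl k)) (y (.inl (.inl k))))))
    (hf2 : rfac t k.succ 0 (xx t k.succ (P.pth zs y))
      (QQm (P.sL zs (.inl (.inl k)) (y (.inl (.inl k))))))
    {e1 e2 : ℝ} (he : e1 + e2 < 0)
    (h1 : rside t b k.castSucc 2 (P.sL zs (.inl (.inl k)) (y (.inl (.inl k))))
        (xx t k.castSucc (P.pth zs y)) ≤ e1)
    (h2 : rside t b k.succ 0 (P.sL zs (.inl (.inl k)) (y (.inl (.inl k))))
        (xx t k.succ (P.pth zs y)) ≤ e2) : False := by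
  have h3 := h.hinge_left hP k hx hf1 hf2
  linarith only [he, h1, h2, h3]

/-! ### slopes on the ramps -/

theorem sR_left {D Z : Type} {P : Par D} (zs : D ⊕ Z → ℂ) (i : D) {x : ℝ} (h : x < P.cl i) :
    P.sR zs (.inl i) x = (zs (.inl i)).im / P.cl i := by
  simp only [Par.sR]
  rw [if_pos h]
  ring

theorem sL_right {D Z : Type} {P : Par D} (hP : P.Good) (zs : D ⊕ Z → ℂ) (i : D) {x : ℝ}
    (h : P.XM i - P.cr i < x) :
    P.sL zs (.inl i) x = -((zs (.inl i)).im / P.cr i) := by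
  obtain ⟨hc, hc', hb⟩ := hP i
  simp only [Par.sL]
  rw [if_neg (by linarith only [h, hb]), if_neg (by linarith only [h])]
  ring

theorem sL_left {D Z : Type} {P : Par D} (zs : D ⊕ Z → ℂ) (i : D) {x : ℝ} (h : x ≤ P.cl i) :
    P.sL zs (.inl i) x = (zs (.inl i)).im / P.cl i := by
  simp only [Par.sL]
  rw [if_pos h]
  ring

theorem sR_right {D Z : Type} {P : Par D} (hP : P.Good) (zs : D ⊕ Z → ℂ) (i : D) {x : ℝ}
    (h : P.XM i - P.cr i ≤ x) :
    P.sR zs (.inl i) x = -((zs (.inl i)).im / P.cr i) := by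
  obtain ⟨hc, hc', hb⟩ := hP i
  simp only [Par.sR]
  rw [if_neg (by linarith only [h, hb]), if_neg (by linarith only [h])]
  ring

/-- the path point in the own frame on the left ramp: `x + i μ x` with `μ = T / cl` -/
theorem ofr_pp_left {D Z : Type} {P : Par D} (hP : P.Good) (zs : D ⊕ Z → ℂ) (i : D) (b : ℤ) {x : ℝ}
    (h0 : 0 ≤ x) (h1 : x ≤ P.cl i) :
    ofr b (P.pp zs (.inl i) x) =
      (x : ℂ) + ((ofs b (zs (.inl i)).im * (x / P.cl i) : ℝ) : ℂ) * Complex.I := by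
  rw [pp_left hP zs i h0 h1, ofr_eq]
  congr 3
  · simp
  · simp [ofs_mul']

theorem ofr_pp_flat {D Z : Type} {P : Par D} (hP : P.Good) (zs : D ⊕ Z → ℂ) (i : D) (b : ℤ) {x : ℝ}
    (h0 : P.cl i ≤ x) (h1 : x ≤ P.XM i - P.cr i) :
    ofr b (P.pp zs (.inl i) x) = (x : ℂ) + ((ofs b (zs (.inl i)).im : ℝ) : ℂ) * Complex.I := by
  rw [pp_flat hP zs i h0 h1, ofr_eq]
  congr 3
  · simp
  · simp

theorem ofr_pp_right {D Z : Type} {P : Par D} (hP : P.Good) (zs : D ⊕ Z → ℂ) (i : D) (b : ℤ) {x : ℝ}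
    (h0 : P.XM i - P.cr i ≤ x) (h1 : x ≤ P.XM i) :
    ofr b (P.pp zs (.inl i) x) =
      (x : ℂ) + ((ofs b (zs (.inl i)).im * ((P.XM i - x) / P.cr i) : ℝ) : ℂ) * Complex.I := by
  rw [pp_right hP zs i h0 h1, ofr_eq]
  congr 3
  · simp
  · simp [ofs_mul']

/-- the height on the path is a fraction of the height of the saddle point -/
theorem hgt_frac {D Z : Type} {P : Par D} (hP : P.Good) (zs : D ⊕ Z → ℂ) (i : D) {x : ℝ}
    (h0 : 0 ≤ x) (h1 : x ≤ P.XM i) :
    ∃ τ : ℝ, 0 ≤ τ ∧ τ ≤ 1 ∧ P.hgt zs (.inl i) x = (zs (.inl i)).im * τ := by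
  refine ⟨tr 0 (P.XM i) (P.cl i) (P.cr i) x, ?_, ?_, rfl⟩
  · unfold tr
    exact le_max_left _ _
  · unfold tr
    exact max_le zero_le_one (min_le_left _ _)

end

end Pool.Agent.Work.MP_b30479_gt.G2
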