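import Pool.Agent.Work.MP_b30479_gt.G2.MLevB
import Pool.Agent.Work.MP_b30479_gt.G2.MLT

/-!
# Level push of a digit `1`: rows with two variables

The inequalities are affine in `sinh (π t) ^ 2`, so it is enough to check them at the two ends of its
range.
-/

namespace Pool.Agent.Work.MP_b30479_gt.G2

open Real Set VOL NumI NumI.E

namespace MQ

/-! ### expressions: variables `u`, `v`; then `p`, `q`, `p'`, `s`, `σ`, `κ` -/

def bd (e : E) : E :=
  lt (sinPi (var 0)) (lt (cosPi (var 0)) (lt (sinPi (var 1)) (lt (add (var 0) (var 1))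
    (lt (sinPi (var 5)) (lt (cosPi (var 5)) e)))))

def f1 (S T : ℤ) : E :=
  sub (add (mul (mul (var 6) (mul (sq (var 2)) (var 4))) (sub (q 1 1) (var 7)))
    (mul (mul (sq (var 2)) (var 3)) (q T 100000)))
    (mul (mul (mul (add (var 2) (var 4)) (var 7)) (var 6)) (q S 100000))

def f2 (S T : ℤ) : E :=
  add (add (mul (mul (var 6) (mul (sq (var 2)) (var 4))) (add (q 1 1) (var 7)))
    (mul (mul (sq (var 2)) (var 3)) (q T 100000)))
    (mul (mul (mul (sub (var 4) (var 2)) (var 7)) (var 6)) (q S 100000))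

def dn (S T : ℤ) : E :=
  mul (add (q S 100000) (sq (var 2))) (add (q T 100000) (sq (var 6)))

/-- `α (gh u - g)` -/
def el (α g : ℤ) : E :=
  mul (q α 100) (sub (log (mul (sinPi (mul (q 1 2) (var 0)))
    (inv (cosPi (mul (q 1 2) (var 0)))))) (q g 10000))

def sL : E := sub (q 1 2) (add (var 0) (var 1))
def sR : E := sub (add (var 0) (var 1)) (q 1 2)

def gP (P : ℤ) : E :=
  sub (mul (sinPi (mul (q 1 2) (var 0))) (sinPi (mul (q 1 2) (var 1))))
    (mul (q P 1000) (mul (cosPi (mul (q 1 2) (var 0))) (cosPi (mul (q 1 2) (var 1)))))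

/-- clauses of a strict row -/
def cS (S0 S1 T P : ℤ) : List (List E) :=
  [[sL, bd (f1 S0 T), bd (f1 S1 T)], [sR, bd (f2 S0 T), bd (f2 S1 T)],
    [bd (f1 S0 T), bd (f1 S1 T), bd (f2 S0 T), bd (f2 S1 T)], [gP P]]

def g1 (S T α g : ℤ) : E := bd (sub (f1 S T) (mul (el α g) (dn S T)))
def g2 (S T α g : ℤ) : E := bd (sub (f2 S T) (mul (el α g) (dn S T)))
def g3 (S α g : ℤ) : E :=
  bd (sub (mul (sq (var 2)) (var 3)) (mul (el α g) (add (q S 100000) (sq (var 2)))))

/-- clauses of a row with slack `α (gh u - g)` -/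
def cL (S0 S1 T P α g : ℤ) : List (List E) :=
  [[sL, g1 S0 T α g, g1 S1 T α g], [sR, g2 S0 T α g, g2 S1 T α g, g3 S0 α g, g3 S1 α g],
    [g1 S0 T α g, g1 S1 T α g, g2 S0 T α g, g2 S1 T α g, g3 S0 α g, g3 S1 α g], [gP P]]

variable {S0 S1 T P α g u0 u1 v0 v1 : ℤ} {tr : Tr} {u v t t' : ℝ}

theorem affine_pos {A B s0 s1 s : ℝ} (h0 : 0 < A - B * s0) (h1 : 0 < A - B * s1) (hs0 : s0 ≤ s)
    (hs1 : s ≤ s1) : 0 < A - B * s := by
  rcases le_total 0 B with hB | hB
  · have := mul_le_mul_of_nonneg_left hs1 hB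
    linarith only [h1, this]
  · have := mul_le_mul_of_nonpos_left hs0 hB
    linarith only [h0, this]

/-- the two cases -/
def Two (u v s0 s1 : ℝ) (F1 F2 : ℝ → ℝ) : Prop :=
  (u + v ≤ 1 / 2 → 0 < F1 s0 ∧ 0 < F1 s1) ∧ (1 / 2 < u + v → 0 < F2 s0 ∧ 0 < F2 s1)

noncomputable def F1 (u v T : ℝ) (s : ℝ) : ℝ :=
  sin (π * (u + v)) * (sin (π * u) ^ 2 * sin (π * v)) * (1 - cos (π * (u + v))) +
    sin (π * u) ^ 2 * cos (π * u) * T -
    (sin (π * u) + sin (π * v)) * cos (π * (u + v)) * sin (π * (u + v)) * s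

noncomputable def F2 (u v T : ℝ) (s : ℝ) : ℝ :=
  sin (π * (u + v)) * (sin (π * u) ^ 2 * sin (π * v)) * (1 + cos (π * (u + v))) +
    sin (π * u) ^ 2 * cos (π * u) * T +
    (sin (π * v) - sin (π * u)) * cos (π * (u + v)) * sin (π * (u + v)) * s

noncomputable def DN (u v T : ℝ) (s : ℝ) : ℝ :=
  (s + sin (π * u) ^ 2) * (T + sin (π * (u + v)) ^ 2)

noncomputable def EL (α g : ℤ) (u : ℝ) : ℝ :=
  (α : ℝ) / 100 * (log (sin (π * (1 / 2 * u)) / cos (π * (1 / 2 * u))) - (g : ℝ) / 10000)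

theorem bd_f1 (S T : ℤ) : (bd (f1 S T)).val [u, v] = F1 u v ((T : ℝ) / 100000) ((S : ℝ) / 100000) := by
  simp only [bd, f1, val, lkR_zero, lkR_succ, List.cons_append, List.nil_append, F1]
  push_cast
  ring

theorem bd_f2 (S T : ℤ) : (bd (f2 S T)).val [u, v] = F2 u v ((T : ℝ) / 100000) ((S : ℝ) / 100000) := by
  simp only [bd, f2, val, lkR_zero, lkR_succ, List.cons_append, List.nil_append, F2]
  push_cast
  ring

theorem g1_val (S T α g : ℤ) : (g1 S T α g).val [u, v] =
    F1 u v ((T : ℝ) / 100000) ((S : ℝ) / 100000) -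
      EL α g u * DN u v ((T : ℝ) / 100000) ((S : ℝ) / 100000) := by
  simp only [g1, bd, f1, el, dn, val, lkR_zero, lkR_succ, List.cons_append, List.nil_append, F1, DN,
    EL]
  push_cast
  ring_nf

theorem g2_val (S T α g : ℤ) : (g2 S T α g).val [u, v] =
    F2 u v ((T : ℝ) / 100000) ((S : ℝ) / 100000) -
      EL α g u * DN u v ((T : ℝ) / 100000) ((S : ℝ) / 100000) := by
  simp only [g2, bd, f2, el, dn, val, lkR_zero, lkR_succ, List.cons_append, List.nil_append, F2, DN,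
    EL]
  push_cast
  ring_nf

theorem g3_val (S α g : ℤ) : (g3 S α g).val [u, v] =
    sin (π * u) ^ 2 * cos (π * u) - EL α g u * ((S : ℝ) / 100000 + sin (π * u) ^ 2) := by
  simp only [g3, bd, el, val, lkR_zero, lkR_succ, List.cons_append, List.nil_append, EL]
  push_cast
  ring_nf

theorem sL_val : sL.val [u, v] = 1 / 2 - (u + v) := by
  simp only [sL, val, lkR_zero, lkR_succ]
  push_cast
  ring

theorem sR_val : sR.val [u, v] = u + v - 1 / 2 := by
  simp only [sR, val, lkR_zero, lkR_succ]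
  push_cast
  ring

theorem gP_neg (hu : u ∈ Ioo (0 : ℝ) 1) (hv : v ∈ Ioo (0 : ℝ) 1) (hP : 0 < P)
    (h : gh u + gh v ≤ Real.log ((P : ℝ) / 1000)) : ¬ 0 < (gP P).val [u, v] := by
  have hP' : (0 : ℝ) < (P : ℝ) / 1000 := by
    have : (0 : ℝ) < P := by exact_mod_cast hP
    positivity
  have := (gh_sum_le hu hv hP').1 h
  simp only [gP, val, lkR_zero, lkR_succ]
  push_cast
  linarith only [this]

theorem EL_gh : EL α g u = (α : ℝ) / 100 * (gh u - (g : ℝ) / 10000) := by
  unfold EL gh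
  rw [tan_eq_sin_div_cos]
  have : π * u / 2 = π * (1 / 2 * u) := by ring
  rw [this]

/-- **A strict row.** -/
theorem row_str (h : runT (cS S0 S1 T P) tr [V.of 1000 u0 u1 4, V.of 1000 v0 v1 4] = true)
    (hP0 : 0 < P) (a0 : (u0 : ℝ) / 1000 ≤ u) (a1 : u ≤ (u1 : ℝ) / 1000)
    (b0 : (v0 : ℝ) / 1000 ≤ v) (b1 : v ≤ (v1 : ℝ) / 1000) (hu : 0 < u) (hu' : u ≤ 1 / 2)
    (hv : 0 < v) (hs : u + v < 1) (hS0 : (S0 : ℝ) / 100000 ≤ sinh (π * t) ^ 2)
    (hS1 : sinh (π * t) ^ 2 ≤ (S1 : ℝ) / 100000)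
    (hT : (T : ℝ) / 100000 ≤ sinh (π * (t + t')) ^ 2)
    (hP : gh u + gh v ≤ Real.log ((P : ℝ) / 1000)) :
    sin (π * v) * |CC (lv u t + lv v t')| <
      sin (π * u) * (1 * CC (lv u t) - CC (lv u t + lv v t')) := by
  have key : Two u v ((S0 : ℝ) / 100000) ((S1 : ℝ) / 100000) (F1 u v ((T : ℝ) / 100000))
      (F2 u v ((T : ℝ) / 100000)) := by
    obtain ⟨c, hc, hpos⟩ := runT2 h (by norm_num) (x := u) (y := v) (by exact_mod_cast a0)
      (by exact_mod_cast a1) (by exact_mod_cast b0) (by exact_mod_cast b1)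
    simp only [cS, List.mem_cons, List.not_mem_nil, or_false] at hc
    rcases hc with rfl | rfl | rfl | rfl
    · simp only [List.mem_cons, List.not_mem_nil, or_false, forall_eq_or_imp, forall_eq, bd_f1,
        sL_val] at hpos
      exact ⟨fun _ => hpos.2, fun h => by linarith only [hpos, h, hpos.1]⟩
    · simp only [List.mem_cons, List.not_mem_nil, or_false, forall_eq_or_imp, forall_eq, bd_f2,
        sR_val] at hpos
      exact ⟨fun h => by linarith only [hpos, h, hpos.1], fun _ => hpos.2⟩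
    · simp only [List.mem_cons, List.not_mem_nil, or_false, forall_eq_or_imp, forall_eq, bd_f2,
        bd_f1] at hpos
      exact ⟨fun _ => ⟨hpos.1, hpos.2.1⟩, fun _ => hpos.2.2⟩
    · exact absurd (hpos _ List.mem_cons_self)
        (gP_neg ⟨hu, by linarith only [hv, hs]⟩ ⟨hv, by linarith only [hu, hs]⟩ hP0 hP)
  refine k1_level_str hu hu' hv hs hT (fun h1 => ?_) (fun h1 => ?_)
  · have k := key.1 h1
    have := affine_pos (s := sinh (π * t) ^ 2) (A := sin (π * (u + v)) * (sin (π * u) ^ 2 *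
      sin (π * v)) * (1 - cos (π * (u + v))) + sin (π * u) ^ 2 * cos (π * u) * ((T : ℝ) / 100000))
      (B := (sin (π * u) + sin (π * v)) * cos (π * (u + v)) * sin (π * (u + v)))
      (by simpa only [F1] using k.1) (by simpa only [F1] using k.2) hS0 hS1
    unfold P1r
    linarith only [this]
  · have k := key.2 h1
    have := affine_pos (s := sinh (π * t) ^ 2) (A := sin (π * (u + v)) * (sin (π * u) ^ 2 *
      sin (π * v)) * (1 + cos (π * (u + v))) + sin (π * u) ^ 2 * cos (π * u) * ((T : ℝ) / 100000))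
      (B := -((sin (π * v) - sin (π * u)) * cos (π * (u + v)) * sin (π * (u + v))))
      (by have := k.1; simp only [F2] at this; linarith only [this])
      (by have := k.2; simp only [F2] at this; linarith only [this]) hS0 hS1
    unfold P2r
    linarith only [this]

/-- **A row with slack.** -/
theorem row_lin (h : runT (cL S0 S1 T P α g) tr [V.of 1000 u0 u1 4, V.of 1000 v0 v1 4] = true)
    (hP0 : 0 < P) (hT0 : 0 ≤ T) (a0 : (u0 : ℝ) / 1000 ≤ u) (a1 : u ≤ (u1 : ℝ) / 1000)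
    (b0 : (v0 : ℝ) / 1000 ≤ v) (b1 : v ≤ (v1 : ℝ) / 1000) (hu : 0 < u)
    (hv : 0 < v) (hs : u + v < 1) (hS0 : (S0 : ℝ) / 100000 ≤ sinh (π * t) ^ 2)
    (hS1 : sinh (π * t) ^ 2 ≤ (S1 : ℝ) / 100000)
    (hT : (T : ℝ) / 100000 ≤ sinh (π * (t + t')) ^ 2)
    (hP : gh u + gh v ≤ Real.log ((P : ℝ) / 1000)) :
    π * ((α : ℝ) / 100) * (gh u - (g : ℝ) / 10000) + sin (π * v) * |CC (lv u t + lv v t')| ≤
      sin (π * u) * (1 * CC (lv u t) - CC (lv u t + lv v t')) := by
  have hT0' : (0 : ℝ) ≤ (T : ℝ) / 100000 := by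
    have : (0 : ℝ) ≤ T := by exact_mod_cast hT0
    positivity
  have key : Two u v ((S0 : ℝ) / 100000) ((S1 : ℝ) / 100000)
      (fun s => F1 u v ((T : ℝ) / 100000) s - EL α g u * DN u v ((T : ℝ) / 100000) s)
      (fun s => F2 u v ((T : ℝ) / 100000) s - EL α g u * DN u v ((T : ℝ) / 100000) s) ∧
      (1 / 2 < u + v →
        0 < sin (π * u) ^ 2 * cos (π * u) - EL α g u * ((S0 : ℝ) / 100000 + sin (π * u) ^ 2) ∧
        0 < sin (π * u) ^ 2 * cos (π * u) - EL α g u * ((S1 : ℝ) / 100000 + sin (π * u) ^ 2)) := by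
    obtain ⟨c, hc, hpos⟩ := runT2 h (by norm_num) (x := u) (y := v) (by exact_mod_cast a0)
      (by exact_mod_cast a1) (by exact_mod_cast b0) (by exact_mod_cast b1)
    simp only [cL, List.mem_cons, List.not_mem_nil, or_false] at hc
    rcases hc with rfl | rfl | rfl | rfl
    · simp only [List.mem_cons, List.not_mem_nil, or_false, forall_eq_or_imp, forall_eq, g1_val,
        sL_val] at hpos
      exact ⟨⟨fun _ => hpos.2, fun h => by linarith only [hpos, h, hpos.1]⟩, fun h => by linarith only [hpos, h, hpos.1]⟩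
    · simp only [List.mem_cons, List.not_mem_nil, or_false, forall_eq_or_imp, forall_eq, g2_val,
        g3_val, sR_val] at hpos
      exact ⟨⟨fun h => by linarith only [hpos, h, hpos.1], fun _ => ⟨hpos.2.1, hpos.2.2.1⟩⟩,
        fun _ => hpos.2.2.2⟩
    · simp only [List.mem_cons, List.not_mem_nil, or_false, forall_eq_or_imp, forall_eq, g2_val,
        g1_val, g3_val] at hpos
      exact ⟨⟨fun _ => ⟨hpos.1, hpos.2.1⟩, fun _ => ⟨hpos.2.2.1, hpos.2.2.2.1⟩⟩,
        fun _ => hpos.2.2.2.2⟩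
    · exact absurd (hpos _ List.mem_cons_self)
        (gP_neg ⟨hu, by linarith only [hv, hs]⟩ ⟨hv, by linarith only [hu, hs]⟩ hP0 hP)
  have e := EL_gh (α := α) (g := g) (u := u)
  rw [e] at key
  set ℓ := (α : ℝ) / 100 * (gh u - (g : ℝ) / 10000) with hℓ
  have hk := k1_level_lin (t := t) (t' := t') (ℓ := ℓ) hu hv hs hT0' hT (fun h1 => ?_)
    (fun h1 => ?_) (fun h1 => ?_)
  · have e2 : π * ((α : ℝ) / 100) * (gh u - (g : ℝ) / 10000) = π * ℓ := by rw [hℓ]; ring
    rw [e2]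
    exact hk
  · have k := key.1.1 h1
    have := affine_pos (s := sinh (π * t) ^ 2) (A := sin (π * (u + v)) * (sin (π * u) ^ 2 *
      sin (π * v)) * (1 - cos (π * (u + v))) + sin (π * u) ^ 2 * cos (π * u) * ((T : ℝ) / 100000) -
      ℓ * (sin (π * u) ^ 2 * ((T : ℝ) / 100000 + sin (π * (u + v)) ^ 2)))
      (B := (sin (π * u) + sin (π * v)) * cos (π * (u + v)) * sin (π * (u + v)) +
        ℓ * ((T : ℝ) / 100000 + sin (π * (u + v)) ^ 2))
      (by have := k.1; simp only [F1, DN] at this; linarith only [this])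
      (by have := k.2; simp only [F1, DN] at this; linarith only [this]) hS0 hS1
    unfold P1r dnr
    linarith only [this]
  · have k := key.1.2 h1
    have := affine_pos (s := sinh (π * t) ^ 2) (A := sin (π * (u + v)) * (sin (π * u) ^ 2 *
      sin (π * v)) * (1 + cos (π * (u + v))) + sin (π * u) ^ 2 * cos (π * u) * ((T : ℝ) / 100000) -
      ℓ * (sin (π * u) ^ 2 * ((T : ℝ) / 100000 + sin (π * (u + v)) ^ 2)))
      (B := -((sin (π * v) - sin (π * u)) * cos (π * (u + v)) * sin (π * (u + v))) +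
        ℓ * ((T : ℝ) / 100000 + sin (π * (u + v)) ^ 2))
      (by have := k.1; simp only [F2, DN] at this; linarith only [this])
      (by have := k.2; simp only [F2, DN] at this; linarith only [this]) hS0 hS1
    unfold P2r dnr
    linarith only [this]
  · have k := key.2 h1
    have := affine_pos (s := sinh (π * t) ^ 2) (A := sin (π * u) ^ 2 * cos (π * u) -
      ℓ * sin (π * u) ^ 2) (B := ℓ)
      (by linarith only [k, k.1]) (by linarith only [k, k.2]) hS0 hS1
    linarith only [this]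

end MQ

end Pool.Agent.Work.MP_b30479_gt.G2
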