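import Pool.Agent.Work.MP_b30479_gt.G2.MQA

/-!
# Level push of a digit `1`: from rows to finite differences
-/

namespace Pool.Agent.Work.MP_b30479_gt.G2

open Real Set VOL NumI NumI.E

namespace MQ

variable {S0 S1 T P α g u0 u1 v0 v1 t0 t1 τ : ℤ} {tr : Tr} {t t' : ℝ}

/-- the level inequality on a box, strict form -/
def LevS (u0 u1 v0 v1 P : ℤ) (t t' : ℝ) : Prop :=
  ∀ u v : ℝ, (u0 : ℝ) / 1000 ≤ u → u ≤ (u1 : ℝ) / 1000 → (v0 : ℝ) / 1000 ≤ v →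
    v ≤ (v1 : ℝ) / 1000 → u ≤ 1 / 2 → u + v < 1 → gh u + gh v ≤ Real.log ((P : ℝ) / 1000) →
    sin (π * v) * |CC (lv u t + lv v t')| <
      sin (π * u) * (1 * CC (lv u t) - CC (lv u t + lv v t'))

/-- the level inequality on a box, with slack -/
def LevL (u0 u1 v0 v1 P α g : ℤ) (t t' : ℝ) : Prop :=
  ∀ u v : ℝ, (u0 : ℝ) / 1000 ≤ u → u ≤ (u1 : ℝ) / 1000 → (v0 : ℝ) / 1000 ≤ v →
    v ≤ (v1 : ℝ) / 1000 → u + v < 1 → gh u + gh v ≤ Real.log ((P : ℝ) / 1000) →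
    π * ((α : ℝ) / 100) * (gh u - (g : ℝ) / 10000) + sin (π * v) * |CC (lv u t + lv v t')| ≤
      sin (π * u) * (1 * CC (lv u t) - CC (lv u t + lv v t'))

/-- numerical check of the bounds for `sinh ^ 2` -/
def okS (t0 t1 τ S0 S1 T : ℤ) : Bool :=
  (decide (S0 ≤ 0) || (chk [sub (sq (E.sinh (mul pi (q t0 10000)))) (q S0 100000)] 1 [] &&
    decide (0 ≤ t0))) &&
  (decide (0 ≤ t1) && chk [sub (q S1 100000) (sq (E.sinh (mul pi (q t1 10000))))] 1 []) &&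
  (decide (T ≤ 0) || (chk [sub (sq (E.sinh (mul pi (q τ 10000)))) (q T 100000)] 1 [] &&
    decide (0 ≤ τ)))

theorem sinh_sq_le {a b : ℝ} (h0 : 0 ≤ a) (h : a ≤ b) : sinh (π * a) ^ 2 ≤ sinh (π * b) ^ 2 := by
  have hp := pi_pos
  have h1 : 0 ≤ sinh (π * a) := sinh_nonneg_iff.2 (by positivity)
  have h2 : sinh (π * a) ≤ sinh (π * b) := sinh_le_sinh.2 (by nlinarith only [h, hp])
  nlinarith only [h1, h2]

theorem sinh_sq_abs (a : ℝ) : sinh (π * a) ^ 2 = sinh (π * |a|) ^ 2 := by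
  rw [← sq_abs (sinh (π * a)), abs_sinh, abs_mul, abs_of_pos pi_pos]

theorem okS_spec (h : okS t0 t1 τ S0 S1 T = true) (h1 : |t| ≤ (t1 : ℝ) / 10000)
    (h2 : t0 ≤ 0 ∨ (t0 : ℝ) / 10000 ≤ t) (h3 : τ ≤ 0 ∨ (τ : ℝ) / 10000 ≤ t + t')
    (h0 : t0 ≤ 0 → S0 ≤ 0) (h0' : τ ≤ 0 → T ≤ 0) :
    (S0 : ℝ) / 100000 ≤ sinh (π * t) ^ 2 ∧ sinh (π * t) ^ 2 ≤ (S1 : ℝ) / 100000 ∧
      (T : ℝ) / 100000 ≤ sinh (π * (t + t')) ^ 2 := by
  simp only [okS, Bool.and_eq_true, Bool.or_eq_true, decide_eq_true_eq] at h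
  obtain ⟨⟨k1, k2⟩, k3⟩ := h
  refine ⟨?_, ?_, ?_⟩
  · rcases k1 with k1 | ⟨k1, k1'⟩
    · have : (S0 : ℝ) ≤ 0 := by exact_mod_cast k1
      have h5 := sq_nonneg (sinh (π * t))
      have : (S0 : ℝ) / 100000 ≤ 0 := div_nonpos_of_nonpos_of_nonneg this (by norm_num)
      linarith
    · rcases h2 with h2 | h2
      · have : (S0 : ℝ) ≤ 0 := by exact_mod_cast h0 h2
        have h5 := sq_nonneg (sinh (π * t))
        have : (S0 : ℝ) / 100000 ≤ 0 := div_nonpos_of_nonpos_of_nonneg this (by norm_num)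
        linarith
      · have h6 := chk0 k1
        simp only [val] at h6
        have h7 : (0 : ℝ) ≤ (t0 : ℝ) / 10000 := by
          have : (0 : ℝ) ≤ t0 := by exact_mod_cast k1'
          positivity
        have h8 := sinh_sq_le h7 h2
        push_cast at h6
        linarith only [h6, h8]
  · have h6 := chk0 k2.2
    simp only [val] at h6
    have h8 := sinh_sq_le (abs_nonneg t) h1
    rw [sinh_sq_abs t]
    push_cast at h6
    linarith only [h6, h8]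
  · rcases k3 with k3 | ⟨k3, k3'⟩
    · have : (T : ℝ) ≤ 0 := by exact_mod_cast k3
      have h5 := sq_nonneg (sinh (π * (t + t')))
      have : (T : ℝ) / 100000 ≤ 0 := div_nonpos_of_nonpos_of_nonneg this (by norm_num)
      linarith
    · rcases h3 with h3 | h3
      · have : (T : ℝ) ≤ 0 := by exact_mod_cast h0' h3
        have h5 := sq_nonneg (sinh (π * (t + t')))
        have : (T : ℝ) / 100000 ≤ 0 := div_nonpos_of_nonpos_of_nonneg this (by norm_num)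
        linarith
      · have h6 := chk0 k3
        simp only [val] at h6
        have h7 : (0 : ℝ) ≤ (τ : ℝ) / 10000 := by
          have : (0 : ℝ) ≤ τ := by exact_mod_cast k3'
          positivity
        have h8 := sinh_sq_le h7 h3
        push_cast at h6
        linarith only [h6, h8]

/-- side conditions of a row -/
def okR (t0 t1 τ S0 S1 T P u0 v0 : ℤ) : Bool :=
  okS t0 t1 τ S0 S1 T && decide (t0 ≤ 0 → S0 ≤ 0) && decide (τ ≤ 0 → T ≤ 0) && decide (0 < P) &&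
    decide (0 ≤ T) && decide (0 < u0) && decide (0 < v0)

theorem levS_of (h : runT (cS S0 S1 T P) tr [V.of 1000 u0 u1 4, V.of 1000 v0 v1 4] = true)
    (hk : okR t0 t1 τ S0 S1 T P u0 v0 = true) (h1 : |t| ≤ (t1 : ℝ) / 10000)
    (h2 : t0 ≤ 0 ∨ (t0 : ℝ) / 10000 ≤ t) (h3 : τ ≤ 0 ∨ (τ : ℝ) / 10000 ≤ t + t') :
    LevS u0 u1 v0 v1 P t t' := by
  simp only [okR, Bool.and_eq_true, decide_eq_true_eq] at hk
  obtain ⟨⟨⟨⟨⟨⟨k1, k2⟩, k3⟩, k4⟩, k5⟩, k6⟩, k7⟩ := hk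
  obtain ⟨m1, m2, m3⟩ := okS_spec k1 h1 h2 h3 k2 k3
  have k6' : (0 : ℝ) < (u0 : ℝ) / 1000 := by
    have : (0 : ℝ) < u0 := by exact_mod_cast k6
    positivity
  have k7' : (0 : ℝ) < (v0 : ℝ) / 1000 := by
    have : (0 : ℝ) < v0 := by exact_mod_cast k7
    positivity
  intro u v a0 a1 b0 b1 hu hs hP
  exact row_str h k4 a0 a1 b0 b1 (by linarith only [k6', a0]) hu (by linarith only [k7', b0]) hs m1 m2 m3 hP

theorem levL_of (h : runT (cL S0 S1 T P α g) tr [V.of 1000 u0 u1 4, V.of 1000 v0 v1 4] = true)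
    (hk : okR t0 t1 τ S0 S1 T P u0 v0 = true) (h1 : |t| ≤ (t1 : ℝ) / 10000)
    (h2 : t0 ≤ 0 ∨ (t0 : ℝ) / 10000 ≤ t) (h3 : τ ≤ 0 ∨ (τ : ℝ) / 10000 ≤ t + t') :
    LevL u0 u1 v0 v1 P α g t t' := by
  simp only [okR, Bool.and_eq_true, decide_eq_true_eq] at hk
  obtain ⟨⟨⟨⟨⟨⟨k1, k2⟩, k3⟩, k4⟩, k5⟩, k6⟩, k7⟩ := hk
  obtain ⟨m1, m2, m3⟩ := okS_spec k1 h1 h2 h3 k2 k3
  have k6' : (0 : ℝ) < (u0 : ℝ) / 1000 := by
    have : (0 : ℝ) < u0 := by exact_mod_cast k6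
    positivity
  have k7' : (0 : ℝ) < (v0 : ℝ) / 1000 := by
    have : (0 : ℝ) < v0 := by exact_mod_cast k7
    positivity
  intro u v a0 a1 b0 b1 hs hP
  exact row_lin h k4 k5 a0 a1 b0 b1 (by linarith only [k6', a0]) (by linarith only [k7', b0]) hs m1 m2 m3 hP

/-! ### finite differences -/

theorem mem_uIcc_bd {l r a b c : ℝ} (h : c ∈ uIcc a b) (ha : l ≤ a) (hb : l ≤ b) (ha' : a ≤ r)
    (hb' : b ≤ r) : l ≤ c ∧ c ≤ r := by
  rcases mem_uIcc.1 h with h | h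
  · exact ⟨ha.trans h.1, h.2.trans hb'⟩
  · exact ⟨hb.trans h.1, h.2.trans ha'⟩

variable {a a' x x' : ℝ}

theorem LevS.fd (H : LevS u0 u1 v0 v1 P t t') (ha : (u0 : ℝ) / 1000 ≤ a)
    (hx : x ≤ (u1 : ℝ) / 1000) (hx2 : x ≤ 1 / 2) (ha' : (v0 : ℝ) / 1000 ≤ a')
    (hx' : (v0 : ℝ) / 1000 ≤ x') (hb' : a' ≤ (v1 : ℝ) / 1000) (hy' : x' ≤ (v1 : ℝ) / 1000)
    (p1 : 0 < a) (p2 : 0 < a') (p4 : 0 < x') (hlt : a < x)
    (hg : |gh x' - gh a'| ≤ gh x - gh a) (hs : a + a' < 1) (hs1 : x + x' < 1)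
    (hP : gh a + gh a' ≤ Real.log ((P : ℝ) / 1000))
    (hP' : gh x + gh x' ≤ Real.log ((P : ℝ) / 1000)) :
    LL (lv x t + lv x' t') - LL (lv x t) < LL (lv a t + lv a' t') - LL (lv a t) := by
  have := lev_fd (k := 1) (τ := t) (τ' := t') ⟨p1, by linarith only [hx2, p1, hlt]⟩ ⟨p2, by linarith only [p1, hs]⟩
    ⟨p1.trans hlt, by linarith only [hx2, p1, hlt]⟩ ⟨p4, by linarith only [p1, hlt, hs1]⟩ hlt hg hs hs1 (fun u u' hu hu' hsum hmax => by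
      obtain ⟨q1, q2⟩ := mem_uIcc_bd hu' ha' hx' hb' hy'
      exact H u u' (ha.trans hu.1) (hu.2.trans hx) q1 q2 (hu.2.trans hx2) hsum
        (hmax.trans (max_le hP hP')))
  linarith only [this]

theorem LevL.fd (H : LevL u0 u1 v0 v1 P α g t t') (hα : 0 < α) (ha : (u0 : ℝ) / 1000 ≤ a)
    (hx : x ≤ (u1 : ℝ) / 1000) (ha' : (v0 : ℝ) / 1000 ≤ a')
    (hx' : (v0 : ℝ) / 1000 ≤ x') (hb' : a' ≤ (v1 : ℝ) / 1000) (hy' : x' ≤ (v1 : ℝ) / 1000)
    (p1 : 0 < a) (p2 : 0 < a') (p4 : 0 < x') (hlt : a < x)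
    (hg : |gh x' - gh a'| ≤ gh x - gh a) (hs : a + a' < 1) (hs1 : x + x' < 1)
    (hg0 : 2 * ((g : ℝ) / 10000) < gh a + gh x)
    (hP : gh a + gh a' ≤ Real.log ((P : ℝ) / 1000))
    (hP' : gh x + gh x' ≤ Real.log ((P : ℝ) / 1000)) :
    LL (lv x t + lv x' t') - LL (lv x t) < LL (lv a t + lv a' t') - LL (lv a t) := by
  have hα' : (0 : ℝ) < α := by exact_mod_cast hα
  have hp := pi_pos
  have := lev_fd_lin (k := 1) (τ := t) (τ' := t') (α := π * ((α : ℝ) / 100))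
    (g0 := (g : ℝ) / 10000) ⟨p1, by linarith only [p4, hlt, hs1]⟩ ⟨p2, by linarith only [p1, hs]⟩
    ⟨p1.trans hlt, by linarith only [p4, hs1]⟩ ⟨p4, by linarith only [p1, hlt, hs1]⟩ hlt hg hs hs1 (by positivity) hg0
    (fun u u' hu hu' hsum hmax => by
      obtain ⟨q1, q2⟩ := mem_uIcc_bd hu' ha' hx' hb' hy'
      exact H u u' (ha.trans hu.1) (hu.2.trans hx) q1 q2 hsum
        (hmax.trans (max_le hP hP')))
  linarith only [this]

/-- the gauge at a rational point -/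
def ghE (n : ℤ) : E := E.log (mul (sinPi (q n 2000)) (inv (cosPi (q n 2000))))

theorem ghE_val (n : ℤ) : (ghE n).val [] = gh ((n : ℝ) / 1000) := by
  simp only [ghE, val]
  unfold gh
  rw [tan_eq_sin_div_cos]
  have : π * ((n : ℝ) / 1000) / 2 = π * ((n : ℝ) / ((2000 : ℕ) : ℝ)) := by push_cast; ring
  rw [this]
  simp only [div_eq_mul_inv]

def okG (a x g : ℤ) : Bool := chk [sub (add (ghE a) (ghE x)) (q (2 * g) 10000)] 1 []

theorem okG_spec {n m : ℤ} (h : okG n m g = true) (hn : 0 < n) (hm : 0 < m)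
    (h1 : (n : ℝ) / 1000 ≤ a) (h2 : (m : ℝ) / 1000 ≤ x) (ha : a < 1) (hx : x < 1) :
    2 * ((g : ℝ) / 10000) < gh a + gh x := by
  have h6 := chk0 h
  simp only [val, ghE_val] at h6
  push_cast at h6
  have hn' : (0 : ℝ) < n := by exact_mod_cast hn
  have hm' : (0 : ℝ) < m := by exact_mod_cast hm
  have n1 : (n : ℝ) / 1000 ∈ Ioo (0 : ℝ) 1 := ⟨by positivity, by linarith only [h1, ha]⟩
  have m1 : (m : ℝ) / 1000 ∈ Ioo (0 : ℝ) 1 := ⟨by positivity, by linarith only [h2, hx]⟩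
  have k1 : gh ((n : ℝ) / 1000) ≤ gh a := by
    rcases h1.eq_or_lt with e | e
    · rw [e]
    · exact ((gh_lt n1 ⟨n1.1.trans e, ha⟩).2 e).le
  have k2 : gh ((m : ℝ) / 1000) ≤ gh x := by
    rcases h2.eq_or_lt with e | e
    · rw [e]
    · exact ((gh_lt m1 ⟨m1.1.trans e, hx⟩).2 e).le
  linarith only [h6, k1, k2]

end MQ

end Pool.Agent.Work.MP_b30479_gt.G2
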