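import Pool.Agent.Work.MP_b30479_gt.G2.MQB

/-!
# Level push of a digit `1`: certificates

Generated.
-/

namespace Pool.Agent.Work.MP_b30479_gt.G2.MQ

open NumI NumI.E

variable {t t' : ℝ}

theorem s1_c : runT (cS 0 6451 0 730)
    (.x (.y (.x (.y (.y (.x (.y (.x (.y (.x .a .a) .a) .a) (.x .a .a)) (.y .a .a)) (.x (.x .a .a) .c))
    (.x (.y .c .c) .c)) (.y (.y (.x .a .c) .c) .b)) (.x (.x (.y .b (.y .b (.y .b .b))) (.y .b (.y .b
    (.y .b (.y .b .b))))) (.y (.y .b (.x .b .b)) (.y (.y (.x .b .b) (.x .b (.y .b .b))) (.y (.x (.y .b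
    .b) (.y (.x .b .b) (.x .b .b))) (.x (.y .b (.x .b .b)) (.x (.y .b (.x .b .b)) .d))))))) (.y (.y
    (.x .c (.y .b .b)) (.x (.y .b .b) (.x (.y .b .b) (.y .b (.y .b .b))))) (.y (.x (.y (.y .b (.x .b
    .b)) (.y (.x .b (.x .b .b)) (.x .b (.x .b (.y .b .b))))) (.y (.x (.y .b (.x .b .b)) (.y (.x .b .b)
    (.x (.y .b .b) .d))) (.x (.y (.x .b (.y .b .b)) (.x (.y .b .d) .d)) .d))) (.x (.y (.x (.y (.x .b
    .b) (.y (.x .b .b) (.x .b .d))) (.y (.x (.y .b .b) .d) .d)) (.x (.y (.x (.y (.x .b .b) .d) .d) .d)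
    .d)) .d))))
    [V.of 1000 150 500 4, V.of 1000 150 640 4] = true := by decide +kernel

theorem s1 (h1 : |t| ≤ (800 : ℝ) / 10000) :
    LevS 150 500 150 640 730 t t' :=
  levS_of (t0 := 0) (t1 := 800) (τ := 0) s1_c (by decide +kernel) (by push_cast; exact h1)
    (Or.inl le_rfl) (Or.inl le_rfl)

theorem s2_c : runT (cS 0 4362 0 730)
    (.x (.y (.x (.y (.x (.y (.x (.y (.x .a .a) .a) .a) (.x .a .a)) (.y (.x .a .a) .a)) (.x (.y .a .c)
    .c)) (.y (.y (.x .a .c) .c) .c)) (.x (.x (.y .c .b) (.y .b .b)) (.y .b (.y .b .b)))) (.y (.y (.x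
    .c .b) (.x .b (.y .b .b))) (.y (.x (.x .b .b) (.x (.y .b .b) (.y .b (.x .b (.y .b .b))))) (.x (.y
    (.x .b .b) (.x .b (.y .b (.x .b .b)))) (.y (.x (.y .b (.x .b .b)) (.y (.x .b .b) (.x .b .d))) (.x
    (.y (.x .b .b) (.x .b .d)) .d))))))
    [V.of 1000 150 500 4, V.of 1000 130 500 4] = true := by decide +kernel

theorem s2 (h1 : |t| ≤ (660 : ℝ) / 10000) :
    LevS 150 500 130 500 730 t t' :=
  levS_of (t0 := 0) (t1 := 660) (τ := 0) s2_c (by decide +kernel) (by push_cast; exact h1)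
    (Or.inl le_rfl) (Or.inl le_rfl)

theorem s3_c : runT (cS 98 8399 6125 730)
    (.x (.y (.x (.y (.x (.y (.x (.y (.x .a .a) .a) .a) (.x .a .a)) (.y .a .a)) (.x (.y .a .c) .c)) (.y
    (.y (.x .a .c) .c) .c)) (.x (.y .c (.x .b .b)) (.y .b (.x .b .b)))) (.y (.y (.y .c .b) (.x .b (.y
    .b .b))) (.y (.x (.x .b .b) (.x (.y .b .b) (.y .b (.y .b .b)))) (.x (.y (.y .b .b) (.x .b .b)) (.y
    (.x (.y .b .b) (.y (.x .b .b) (.x .b .d))) (.x (.y .b .b) .d))))))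
    [V.of 1000 160 500 4, V.of 1000 130 500 4] = true := by decide +kernel

theorem s3 (h1 : |t| ≤ (910 : ℝ) / 10000) (h2 : (100 : ℝ) / 10000 ≤ t) (h3 : (780 : ℝ) / 10000 ≤ t + t') :
    LevS 160 500 130 500 730 t t' :=
  levS_of (t0 := 100) (t1 := 910) (τ := 780) s3_c (by decide +kernel) (by push_cast; exact h1)
    (Or.inr (by push_cast; exact h2)) (Or.inr (by push_cast; exact h3))

theorem s4_c : runT (cS 2291 9990 435 730)
    (.x (.x (.y (.x (.y (.x .a .a) .a) .c) (.x .c .c)) (.y .c .b)) (.y (.x .b .b) (.x .b (.x .b .b))))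
    [V.of 1000 160 500 4, V.of 1000 200 350 4] = true := by decide +kernel

theorem s4 (h1 : |t| ≤ (990 : ℝ) / 10000) (h2 : (480 : ℝ) / 10000 ≤ t) (h3 : (210 : ℝ) / 10000 ≤ t + t') :
    LevS 160 500 200 350 730 t t' :=
  levS_of (t0 := 480) (t1 := 990) (τ := 210) s4_c (by decide +kernel) (by push_cast; exact h1)
    (Or.inr (by push_cast; exact h2)) (Or.inr (by push_cast; exact h3))

theorem s5_c : runT (cS 0 36 0 730)
    (.x (.y (.x (.y (.x .a .a) .a) (.y .a .a)) (.x (.y .a .c) .c)) (.y (.x (.y .a .c) .c) .c))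
    [V.of 1000 140 350 4, V.of 1000 140 350 4] = true := by decide +kernel

theorem s5 (h1 : |t| ≤ (60 : ℝ) / 10000) :
    LevS 140 350 140 350 730 t t' :=
  levS_of (t0 := 0) (t1 := 60) (τ := 0) s5_c (by decide +kernel) (by push_cast; exact h1)
    (Or.inl le_rfl) (Or.inl le_rfl)

theorem s6_c : runT (cS 0 3476 0 730)
    (.x (.y (.y (.x (.y (.x (.y .a .a) .a) (.x .a .a)) (.y (.x .a .a) .c)) (.x (.y .c .c) .c)) (.x (.y
    .b (.y .b (.x .b .b))) (.y .b (.y .b (.y .b (.y .b .b)))))) (.y (.y (.y (.x .c .c) .c) (.x .b .b))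
    (.y (.x (.y .b .b) (.y .b (.y .b .b))) (.y (.y (.x .b (.y .b .b)) (.x .b (.x .b (.y .b .b)))) (.y
    (.x (.y .b .b) (.x (.y .b .b) (.y (.x .b .b) .d))) (.x (.y (.x .b .b) (.x .b (.y .b .b))) (.x (.y
    (.x .b .b) .d) .d)))))))
    [V.of 1000 140 350 4, V.of 1000 150 640 4] = true := by decide +kernel

theorem s6 (h1 : |t| ≤ (590 : ℝ) / 10000) :
    LevS 140 350 150 640 730 t t' :=
  levS_of (t0 := 0) (t1 := 590) (τ := 0) s6_c (by decide +kernel) (by push_cast; exact h1)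
    (Or.inl le_rfl) (Or.inl le_rfl)

theorem s7_c : runT (cS 4772 6126 2589 730)
    (.x (.x (.y (.x (.y .a .a) .a) .c) (.y .c .c)) (.y .c .b))
    [V.of 1000 140 350 4, V.of 1000 200 350 4] = true := by decide +kernel

theorem s7 (h1 : |t| ≤ (780 : ℝ) / 10000) (h2 : (690 : ℝ) / 10000 ≤ t) (h3 : (510 : ℝ) / 10000 ≤ t + t') :
    LevS 140 350 200 350 730 t t' :=
  levS_of (t0 := 690) (t1 := 780) (τ := 510) s7_c (by decide +kernel) (by push_cast; exact h1)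
    (Or.inr (by push_cast; exact h2)) (Or.inr (by push_cast; exact h3))

theorem s8_c : runT (cS 320 7302 0 730)
    (.y (.x (.y (.x (.y (.x .a .c) .c) (.y .c .b)) (.x .c .b)) (.y (.x .b .b) (.x (.y .b .b) (.y .b
    (.x .b (.y .b .b)))))) (.y (.x (.x (.y .b .b) (.y .b (.y .b (.y .b .b)))) (.y (.x (.y .b (.x .b
    .b)) (.x (.y .b (.x .b .b)) (.y (.x .b .b) (.x (.y .b .b) .d)))) (.x (.y (.x .b (.y .b .b)) (.x
    (.y .b .b) (.y (.x .b .b) (.x .b .b)))) (.x (.y (.x (.y .b .b) .d) .d) .d)))) (.x (.y (.y (.x .b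
    (.x .b (.y .b .b))) (.x (.y .b .b) (.x (.y .b .b) (.y (.x .b .b) (.x .b .b))))) (.x (.y (.x .b (.y
    .b .b)) (.y (.x .b (.x .b .b)) (.x .b (.x .b (.y .b .b))))) (.y (.x (.y (.x .b .b) (.x .b .b)) (.y
    (.x .b .d) .d)) (.x (.y (.x (.y .b .b) .d) .d) .d)))) (.x (.y (.y (.x (.y (.x .b .b) (.x .b .b))
    .d) .d) .d) .d))))
    [V.of 1000 226 500 4, V.of 1000 150 640 4] = true := by decide +kernel

theorem s8 (h1 : |t| ≤ (850 : ℝ) / 10000) (h2 : (180 : ℝ) / 10000 ≤ t) :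
    LevS 226 500 150 640 730 t t' :=
  levS_of (t0 := 180) (t1 := 850) (τ := 0) s8_c (by decide +kernel) (by push_cast; exact h1)
    (Or.inr (by push_cast; exact h2)) (Or.inl le_rfl)

theorem s9_c : runT (cS 2102 8978 6125 730)
    (.x (.y (.y (.x (.y .a .c) .c) (.x .c .b)) (.x (.y .b .b) (.y .b (.y .b .b)))) (.y (.y (.y .b .b)
    (.x .b (.x .b .b))) (.y (.x (.y .b .b) (.y (.x .b .b) (.x .b (.y .b (.x .b .b))))) (.x (.y (.x .b
    .b) (.x .b .b)) (.y (.x (.y .b .b) (.y (.x .b .b) .d)) (.x (.y .b .b) .d))))))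
    [V.of 1000 226 500 4, V.of 1000 160 510 4] = true := by decide +kernel

theorem s9 (h1 : |t| ≤ (940 : ℝ) / 10000) (h2 : (460 : ℝ) / 10000 ≤ t) (h3 : (780 : ℝ) / 10000 ≤ t + t') :
    LevS 226 500 160 510 730 t t' :=
  levS_of (t0 := 460) (t1 := 940) (τ := 780) s9_c (by decide +kernel) (by push_cast; exact h1)
    (Or.inr (by push_cast; exact h2)) (Or.inr (by push_cast; exact h3))

theorem s10_c : runT (cS 7658 13631 2589 730)
    (.x (.x (.y .c .b) .c) (.y (.y .b .b) (.x .b (.x .b .b))))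
    [V.of 1000 226 500 4, V.of 1000 200 350 4] = true := by decide +kernel

theorem s10 (h1 : |t| ≤ (1150 : ℝ) / 10000) (h2 : (870 : ℝ) / 10000 ≤ t) (h3 : (510 : ℝ) / 10000 ≤ t + t') :
    LevS 226 500 200 350 730 t t' :=
  levS_of (t0 := 870) (t1 := 1150) (τ := 510) s10_c (by decide +kernel) (by push_cast; exact h1)
    (Or.inr (by push_cast; exact h2)) (Or.inr (by push_cast; exact h3))

theorem s11_c : runT (cS 3127 17916 3241 730)
    (.x (.y (.y (.y (.x .a .c) .c) .b) (.y (.x .b .b) (.y (.x .b .b) (.y .b (.y .b .b))))) (.y (.y .c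
    .b) (.y (.y .b (.y .b .b)) (.y (.y .b (.x .b .b)) (.y (.x .b .b) (.x .b .b))))))
    [V.of 1000 214 360 4, V.of 1000 190 600 4] = true := by decide +kernel

theorem s11 (h1 : |t| ≤ (1310 : ℝ) / 10000) (h2 : (560 : ℝ) / 10000 ≤ t) (h3 : (570 : ℝ) / 10000 ≤ t + t') :
    LevS 214 360 190 600 730 t t' :=
  levS_of (t0 := 560) (t1 := 1310) (τ := 570) s11_c (by decide +kernel) (by push_cast; exact h1)
    (Or.inr (by push_cast; exact h2)) (Or.inr (by push_cast; exact h3))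

theorem s12_c : runT (cS 1431 14384 618 730)
    (.x (.y (.y (.y (.x .a .c) .c) .b) (.y (.y .b (.x .b .b)) (.y (.y .b (.x .b .b)) (.y (.x .b (.y .b
    .b)) (.y (.x .b (.x .b .b)) (.x (.y .b .b) (.x .b .b))))))) (.y (.y .c .b) (.y (.y .b (.y .b (.x
    .b .b))) (.y (.y (.x .b (.y .b .b)) (.x (.y .b .b) (.y .b (.x .b .b)))) (.y (.x (.y .b (.x .b .b))
    (.x (.y .b .b) .d)) (.x (.x (.y .b .b) .d) .d))))))
    [V.of 1000 214 360 4, V.of 1000 190 640 4] = true := by decide +kernel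

theorem s12 (h1 : |t| ≤ (1180 : ℝ) / 10000) (h2 : (380 : ℝ) / 10000 ≤ t) (h3 : (250 : ℝ) / 10000 ≤ t + t') :
    LevS 214 360 190 640 730 t t' :=
  levS_of (t0 := 380) (t1 := 1180) (τ := 250) s12_c (by decide +kernel) (by push_cast; exact h1)
    (Or.inr (by push_cast; exact h2)) (Or.inr (by push_cast; exact h3))

theorem s13a_c : runT (cS 4633 11282 435 730)
    (.x (.y (.y (.y .c .c) .b) (.y (.y .b .b) (.y (.y .b (.x .b .b)) (.y (.x .b (.y .b .b)) (.y (.x .b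
    .b) (.x .b (.x .b .b))))))) (.y (.y .c .b) (.y (.y .b (.y .b (.x .b .b))) (.y (.y (.x .b (.y .b
    .b)) (.x (.y .b .b) (.x .b (.y .b .b)))) (.y (.x (.y .b (.x .b .b)) (.x (.y .b .b) .d)) (.x (.x
    (.y .b .b) .d) .d))))))
    [V.of 1000 214 360 4, V.of 1000 190 640 4] = true := by decide +kernel

theorem s13a (h1 : |t| ≤ (1050 : ℝ) / 10000) (h2 : (680 : ℝ) / 10000 ≤ t) (h3 : (210 : ℝ) / 10000 ≤ t + t') :
    LevS 214 360 190 640 730 t t' :=
  levS_of (t0 := 680) (t1 := 1050) (τ := 210) s13a_c (by decide +kernel) (by push_cast; exact h1)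
    (Or.inr (by push_cast; exact h2)) (Or.inr (by push_cast; exact h3))

theorem s13b_c : runT (cS 11281 14384 775 730)
    (.x (.y (.y (.y (.x .a .c) .c) .b) (.y (.y .b (.x .b .b)) (.y (.y .b (.x .b .b)) (.y (.x .b (.y .b
    .b)) (.y (.x .b .b) (.x (.y .b .b) (.x .b .b))))))) (.y (.y .c .b) (.y (.y .b (.y .b (.x .b .b)))
    (.y (.y (.x .b (.y .b .b)) (.x (.y .b .b) (.x .b .b))) (.y (.x (.x .b .b) (.x .b .b)) (.x (.y (.x
    .b .b) .b) .b))))))
    [V.of 1000 214 360 4, V.of 1000 190 640 4] = true := by decide +kernel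

theorem s13b (h1 : |t| ≤ (1180 : ℝ) / 10000) (h2 : (1050 : ℝ) / 10000 ≤ t) (h3 : (280 : ℝ) / 10000 ≤ t + t') :
    LevS 214 360 190 640 730 t t' :=
  levS_of (t0 := 1050) (t1 := 1180) (τ := 280) s13b_c (by decide +kernel) (by push_cast; exact h1)
    (Or.inr (by push_cast; exact h2)) (Or.inr (by push_cast; exact h3))

theorem s13c_c : runT (cS 14383 17061 1668 730)
    (.x (.y (.y (.y (.x .a .c) .c) .b) (.y (.y .b (.x .b .b)) (.y (.y .b (.x .b .b)) (.y (.x .b .b)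
    (.y (.x .b .b) (.x (.y .b .b) .b)))))) (.y (.y .c .b) (.y (.y .b (.y .b (.y .b .b))) (.y (.y (.x
    .b .b) (.x .b (.y .b .b))) (.y (.x (.y .b .b) .b) (.x .b .b))))))
    [V.of 1000 214 360 4, V.of 1000 190 640 4] = true := by decide +kernel

theorem s13c (h1 : |t| ≤ (1280 : ℝ) / 10000) (h2 : (1180 : ℝ) / 10000 ≤ t) (h3 : (410 : ℝ) / 10000 ≤ t + t') :
    LevS 214 360 190 640 730 t t' :=
  levS_of (t0 := 1180) (t1 := 1280) (τ := 410) s13c_c (by decide +kernel) (by push_cast; exact h1)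
    (Or.inr (by push_cast; exact h2)) (Or.inr (by push_cast; exact h3))

theorem s14_c : runT (cS 3968 22227 8977 730)
    (.y (.y (.x (.y (.x .a .a) .c) .c) (.x .c .b)) (.x (.y .b (.x .b .b)) (.y .b (.y .b .b))))
    [V.of 1000 214 360 4, V.of 1000 160 510 4] = true := by decide +kernel

theorem s14 (h1 : |t| ≤ (1450 : ℝ) / 10000) (h2 : (630 : ℝ) / 10000 ≤ t) (h3 : (940 : ℝ) / 10000 ≤ t + t') :
    LevS 214 360 160 510 730 t t' :=
  levS_of (t0 := 630) (t1 := 1450) (τ := 940) s14_c (by decide +kernel) (by push_cast; exact h1)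
    (Or.inr (by push_cast; exact h2)) (Or.inr (by push_cast; exact h3))

theorem s15_c : runT (cS 10198 26730 4097 730)
    (.x (.y (.x .c .c) .c) (.y .c .b))
    [V.of 1000 214 360 4, V.of 1000 200 350 4] = true := by decide +kernel

theorem s15 (h1 : |t| ≤ (1580 : ℝ) / 10000) (h2 : (1000 : ℝ) / 10000 ≤ t) (h3 : (640 : ℝ) / 10000 ≤ t + t') :
    LevS 214 360 200 350 730 t t' :=
  levS_of (t0 := 1000) (t1 := 1580) (τ := 640) s15_c (by decide +kernel) (by push_cast; exact h1)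
    (Or.inr (by push_cast; exact h2)) (Or.inr (by push_cast; exact h3))

theorem l1_c : runT (cL 320 7302 48 528 30 (-12835))
    (.y (.y (.x (.y (.x (.y (.x (.y (.x (.y .a .a) .a) .a) (.y .a .a)) (.x .a .a)) (.y (.x .a .a) .a))
    (.x (.x .a .a) .a)) (.y (.y (.x .a .a) (.x .a .c)) (.x .c .c))) (.x (.x (.y .c .c) .c) (.x .c (.y
    .b .b)))) (.x (.x (.y .b (.y .b (.x .b (.y .b .b)))) (.y (.x .b .b) (.y (.x .b .b) (.y (.x .b .b)
    (.x (.y .b .b) (.y .b (.x .b (.x .b .d)))))))) (.y (.x (.y .b (.x .b .b)) (.y (.x .b .b) (.y (.x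
    .b .b) (.x .b (.y .b (.y .b .b)))))) (.y (.y (.x (.x .b .b) (.y (.x .b (.x .b .d)) (.x (.y .b .b)
    .d))) (.y (.x (.x .b .b) (.y (.x (.x .b .d) .d) .d)) (.x (.x .b (.x .b .b)) .d))) (.x (.y (.y (.x
    .b (.x .b .d)) (.x (.y .b (.x .b .b)) .d)) (.y (.x (.y (.x .b .d) .d) .d) .d)) .d)))))
    [V.of 1000 130 314 4, V.of 1000 150 640 4] = true := by decide +kernel

theorem l1 (h1 : |t| ≤ (850 : ℝ) / 10000) (h2 : (180 : ℝ) / 10000 ≤ t) (h3 : (70 : ℝ) / 10000 ≤ t + t') :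
    LevL 130 314 150 640 528 30 (-12835) t t' :=
  levL_of (t0 := 180) (t1 := 850) (τ := 70) l1_c (by decide +kernel) (by push_cast; exact h1)
    (Or.inr (by push_cast; exact h2)) (Or.inr (by push_cast; exact h3))

theorem l2_c : runT (cL 2102 8978 6125 528 30 (-12835))
    (.y (.x (.y (.x (.y (.x (.y .a .a) .a) (.x .a .a)) (.y (.y .a .a) .a)) (.x (.y .a .c) .c)) (.y (.y
    (.x .a .c) (.x .c .c)) (.x .c .b))) (.x (.x (.y .c .b) (.y .b .b)) (.x (.y .b (.x .b .b)) (.y .b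
    (.y .b (.x .b .b))))))
    [V.of 1000 130 314 4, V.of 1000 160 510 4] = true := by decide +kernel

theorem l2 (h1 : |t| ≤ (940 : ℝ) / 10000) (h2 : (460 : ℝ) / 10000 ≤ t) (h3 : (780 : ℝ) / 10000 ≤ t + t') :
    LevL 130 314 160 510 528 30 (-12835) t t' :=
  levL_of (t0 := 460) (t1 := 940) (τ := 780) l2_c (by decide +kernel) (by push_cast; exact h1)
    (Or.inr (by push_cast; exact h2)) (Or.inr (by push_cast; exact h3))

theorem l3_c : runT (cL 7658 13631 2589 528 40 (-12835))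
    (.x (.y (.x (.y (.x (.y .a .a) .a) (.x .a .a)) (.y (.x .a .a) .a)) (.x .c .c)) (.y (.y (.x .c .c)
    .c) (.x .c .b)))
    [V.of 1000 130 314 4, V.of 1000 200 350 4] = true := by decide +kernel

theorem l3 (h1 : |t| ≤ (1150 : ℝ) / 10000) (h2 : (870 : ℝ) / 10000 ≤ t) (h3 : (510 : ℝ) / 10000 ≤ t + t') :
    LevL 130 314 200 350 528 40 (-12835) t t' :=
  levL_of (t0 := 870) (t1 := 1150) (τ := 510) l3_c (by decide +kernel) (by push_cast; exact h1)
    (Or.inr (by push_cast; exact h2)) (Or.inr (by push_cast; exact h3))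

theorem l4_c : runT (cL 3127 17916 3241 462 35 (-12060))
    (.y (.y (.x (.y (.x (.y (.x .a .a) .a) (.y .a .a)) (.x .a .c)) (.y (.y .c .c) .c)) (.x (.x .c .c)
    (.y .b .b))) (.x (.x (.y .b (.y .b (.y .b .b))) (.y .b (.y .b (.y (.x .b .b) (.x .b (.y .b
    .b)))))) (.y (.x (.y .b .b) (.y .b (.x .b (.y .b .b)))) (.y (.x (.y .b (.x .b .b)) (.y (.x .b .d)
    .d)) (.y (.x (.x .b .d) .d) .d)))))
    [V.of 1000 160 298 4, V.of 1000 190 600 4] = true := by decide +kernel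

theorem l4 (h1 : |t| ≤ (1310 : ℝ) / 10000) (h2 : (560 : ℝ) / 10000 ≤ t) (h3 : (570 : ℝ) / 10000 ≤ t + t') :
    LevL 160 298 190 600 462 35 (-12060) t t' :=
  levL_of (t0 := 560) (t1 := 1310) (τ := 570) l4_c (by decide +kernel) (by push_cast; exact h1)
    (Or.inr (by push_cast; exact h2)) (Or.inr (by push_cast; exact h3))

theorem l5a_c : runT (cL 1431 12662 618 462 35 (-12060))
    (.y (.y (.x (.y (.x (.y .a .a) .a) (.x .a .c)) (.y (.y .c .c) .c)) (.x (.x .c .c) (.y .b .b))) (.y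
    (.x (.x .b (.y .b .b)) (.x (.y .b (.x .b .b)) (.y .b (.y (.x .b .b) (.x .b .d))))) (.y (.x (.x .b
    (.y .b (.x .b .b))) (.x (.y (.x .b .b) (.y (.x .b .d) .d)) .d)) (.x (.x (.y (.x .b .b) (.x (.y .b
    .b) (.y .b (.x .b .b)))) (.y (.x .b (.y .b .d)) (.y (.x (.y .b .d) .d) .d))) .d))))
    [V.of 1000 160 298 4, V.of 1000 190 640 4] = true := by decide +kernel

theorem l5a (h1 : |t| ≤ (1110 : ℝ) / 10000) (h2 : (380 : ℝ) / 10000 ≤ t) (h3 : (250 : ℝ) / 10000 ≤ t + t') :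
    LevL 160 298 190 640 462 35 (-12060) t t' :=
  levL_of (t0 := 380) (t1 := 1110) (τ := 250) l5a_c (by decide +kernel) (by push_cast; exact h1)
    (Or.inr (by push_cast; exact h2)) (Or.inr (by push_cast; exact h3))

theorem l5b_c : runT (cL 2388 14384 1668 462 35 (-12060))
    (.y (.y (.x (.y (.x (.y .a .a) .a) (.x .a .c)) (.y (.y .c .c) .c)) (.x (.x .c .c) (.y .b .b))) (.y
    (.x (.x .b (.y .b .b)) (.x (.y .b (.x .b .b)) (.y (.x .b .b) (.y (.x .b .b) (.x .b .d))))) (.y (.x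
    (.x (.x .b .b) (.y .b (.x .b .b))) (.x (.y (.x .b .b) (.y (.x .b .d) .d)) .d)) (.x (.y (.x (.x .b
    .b) (.x .b (.y .b .d))) (.x (.x (.y .b .b) (.y .b (.y .b .b))) (.y (.x (.y .b .b) .d) .d))) .d))))
    [V.of 1000 160 298 4, V.of 1000 190 640 4] = true := by decide +kernel

theorem l5b (h1 : |t| ≤ (1180 : ℝ) / 10000) (h2 : (490 : ℝ) / 10000 ≤ t) (h3 : (410 : ℝ) / 10000 ≤ t + t') :
    LevL 160 298 190 640 462 35 (-12060) t t' :=
  levL_of (t0 := 490) (t1 := 1180) (τ := 410) l5b_c (by decide +kernel) (by push_cast; exact h1)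
    (Or.inr (by push_cast; exact h2)) (Or.inr (by push_cast; exact h3))

theorem l6a_c : runT (cL 4633 11282 435 462 35 (-12060))
    (.y (.y (.x (.y (.x (.y .a .a) .a) (.x .a .c)) (.y (.y .c .c) .c)) (.x (.x .c .c) (.y .b .b))) (.y
    (.x (.x .b (.y .b .b)) (.x (.y .b (.x .b .b)) (.y .b (.y .b (.x .b .d))))) (.y (.x (.x .b (.y .b
    .b)) (.x (.y (.x .b .b) (.y (.x .b .b) .d)) .d)) (.x (.x (.y .b (.x .b (.y .b .b))) (.y (.x .b (.y
    .b .d)) (.y (.x .b .d) .d))) .d))))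
    [V.of 1000 160 298 4, V.of 1000 190 640 4] = true := by decide +kernel

theorem l6a (h1 : |t| ≤ (1050 : ℝ) / 10000) (h2 : (680 : ℝ) / 10000 ≤ t) (h3 : (210 : ℝ) / 10000 ≤ t + t') :
    LevL 160 298 190 640 462 35 (-12060) t t' :=
  levL_of (t0 := 680) (t1 := 1050) (τ := 210) l6a_c (by decide +kernel) (by push_cast; exact h1)
    (Or.inr (by push_cast; exact h2)) (Or.inr (by push_cast; exact h3))

theorem l6b_c : runT (cL 11281 14384 775 462 35 (-12060))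
    (.y (.y (.x (.y (.x (.y (.x .a .a) .a) .a) (.x .a .c)) (.y (.y .c .c) .c)) (.x (.x .c .c) (.y .b
    .b))) (.y (.x (.x .b (.y .b .b)) (.x (.y .b (.x .b .b)) (.y (.x .b .b) (.y (.x .b .b) (.x .b
    .d))))) (.y (.x (.x (.x .b .b) (.y .b (.x .b .b))) (.x (.y (.x .b (.y .b .b)) (.y (.x .b .d) .d))
    .d)) (.x (.y (.x (.x .b .b) (.y (.x .b (.y .b .b)) (.x .b .d))) (.x (.x (.y .b (.x .b .b)) (.y .b
    (.y (.x .b (.y .b .b)) (.x (.y .b (.x .b (.y .b .b))) .d)))) (.y (.x (.y (.x .b .d) .d) .d) .d)))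
    .d))))
    [V.of 1000 160 298 4, V.of 1000 190 640 4] = true := by decide +kernel

theorem l6b (h1 : |t| ≤ (1180 : ℝ) / 10000) (h2 : (1050 : ℝ) / 10000 ≤ t) (h3 : (280 : ℝ) / 10000 ≤ t + t') :
    LevL 160 298 190 640 462 35 (-12060) t t' :=
  levL_of (t0 := 1050) (t1 := 1180) (τ := 280) l6b_c (by decide +kernel) (by push_cast; exact h1)
    (Or.inr (by push_cast; exact h2)) (Or.inr (by push_cast; exact h3))

theorem l6c_c : runT (cL 14383 15557 1668 462 42 (-12060))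
    (.y (.y (.x (.y (.x (.y (.x .a .a) .a) (.y .a .a)) (.x .a .c)) (.y (.x .c .c) .c)) (.x (.y .c .b)
    (.y .b (.x .b .b)))) (.y (.x (.y .b (.x .b .b)) (.x (.y .b (.x .b (.y .b .b))) (.y (.y .b .b) (.y
    (.x .b (.y .b (.x .b .d))) (.x (.y .b (.y .b .d)) .d))))) (.y (.x (.x (.x .b .b) (.y .b (.x .b (.y
    .b .b)))) (.x (.y (.x .b (.y .b .d)) (.y (.x (.y .b .b) .d) .d)) .d)) (.x (.y (.x (.x .b .b) (.y
    (.x .b (.x .b .d)) (.x (.x .b .b) .d))) (.x (.x (.y .b (.x .b .b)) (.y (.x .b .b) (.y (.x .b (.y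
    .b .b)) (.x (.y .b .b) .d)))) (.y (.x (.y (.x .b .d) .d) .d) .d))) .d))))
    [V.of 1000 160 298 4, V.of 1000 190 640 4] = true := by decide +kernel

theorem l6c (h1 : |t| ≤ (1225 : ℝ) / 10000) (h2 : (1180 : ℝ) / 10000 ≤ t) (h3 : (410 : ℝ) / 10000 ≤ t + t') :
    LevL 160 298 190 640 462 42 (-12060) t t' :=
  levL_of (t0 := 1180) (t1 := 1225) (τ := 410) l6c_c (by decide +kernel) (by push_cast; exact h1)
    (Or.inr (by push_cast; exact h2)) (Or.inr (by push_cast; exact h3))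

theorem l6d_c : runT (cL 15556 16368 2057 462 42 (-12060))
    (.y (.y (.x (.y (.x (.y (.x .a .a) .a) (.y .a .a)) (.x .a .c)) (.y (.x .c .c) .c)) (.x (.y .c .b)
    (.y .b (.x .b .b)))) (.y (.x (.y .b (.x .b .b)) (.x (.y .b (.x .b (.y .b .b))) (.y (.x .b (.x .b
    .b)) (.y (.x .b (.y .b (.x .b .d))) (.x (.y .b (.y .b .d)) .d))))) (.y (.x (.x (.x .b .b) (.y .b
    (.x .b (.y .b .b)))) (.x (.y (.x .b (.y .b .d)) (.y (.x (.x .b .b) .d) .d)) .d)) (.x (.y (.x (.x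
    .b .b) (.y (.x .b (.x .b .d)) (.x (.y .b (.x .b .b)) .d))) (.x (.x (.y .b (.x .b .b)) (.y (.x .b
    .b) (.y (.x .b (.x .b .d)) (.x (.y .b (.x .b .b)) .d)))) (.y (.x (.y (.x .b .d) .d) .d) .d)))
    .d))))
    [V.of 1000 160 298 4, V.of 1000 190 640 4] = true := by decide +kernel

theorem l6d (h1 : |t| ≤ (1255 : ℝ) / 10000) (h2 : (1225 : ℝ) / 10000 ≤ t) (h3 : (455 : ℝ) / 10000 ≤ t + t') :
    LevL 160 298 190 640 462 42 (-12060) t t' :=
  levL_of (t0 := 1225) (t1 := 1255) (τ := 455) l6d_c (by decide +kernel) (by push_cast; exact h1)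
    (Or.inr (by push_cast; exact h2)) (Or.inr (by push_cast; exact h3))

theorem l6e_c : runT (cL 16367 17061 2339 462 42 (-12060))
    (.y (.y (.x (.y (.x (.y (.y .a .a) .a) (.y .a .a)) (.x .a .c)) (.y (.x .c .c) .c)) (.x (.y .c .b)
    (.y .b (.x .b .b)))) (.y (.x (.y .b (.x .b .b)) (.x (.y .b (.x .b (.y .b .b))) (.y (.x .b (.x .b
    .b)) (.y (.x .b (.y .b (.x .b .d))) (.x (.y .b (.y .b .d)) .d))))) (.y (.x (.x (.x .b .b) (.y .b
    (.x .b (.y .b .b)))) (.x (.y (.x (.y .b .b) (.y .b .d)) (.y (.x (.x .b .d) .d) .d)) .d)) (.x (.y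
    (.x (.x .b .b) (.y (.x .b (.x .b .d)) (.x (.y .b (.x .b .b)) .d))) (.x (.x (.y .b (.x .b .b)) (.y
    (.x .b .b) (.y (.x .b (.x .b .d)) (.x (.y .b (.x .b (.x .b .d))) .d)))) (.y (.x (.y (.x .b .d) .d)
    .d) .d))) .d))))
    [V.of 1000 160 298 4, V.of 1000 190 640 4] = true := by decide +kernel

theorem l6e (h1 : |t| ≤ (1280 : ℝ) / 10000) (h2 : (1255 : ℝ) / 10000 ≤ t) (h3 : (485 : ℝ) / 10000 ≤ t + t') :
    LevL 160 298 190 640 462 42 (-12060) t t' :=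
  levL_of (t0 := 1255) (t1 := 1280) (τ := 485) l6e_c (by decide +kernel) (by push_cast; exact h1)
    (Or.inr (by push_cast; exact h2)) (Or.inr (by push_cast; exact h3))

theorem l7a_c : runT (cL 3968 12426 8977 462 40 (-12060))
    (.y (.y (.x (.y (.x (.y .a .a) .a) (.x .a .a)) (.y (.x .a .c) .c)) (.x (.y .c .c) .c)) (.x (.y .c
    (.x .b .b)) (.x (.y .b (.x .b .b)) (.y .b (.y .b (.y .b .b))))))
    [V.of 1000 160 298 4, V.of 1000 160 510 4] = true := by decide +kernel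

theorem l7a (h1 : |t| ≤ (1100 : ℝ) / 10000) (h2 : (630 : ℝ) / 10000 ≤ t) (h3 : (940 : ℝ) / 10000 ≤ t + t') :
    LevL 160 298 160 510 462 40 (-12060) t t' :=
  levL_of (t0 := 630) (t1 := 1100) (τ := 940) l7a_c (by decide +kernel) (by push_cast; exact h1)
    (Or.inr (by push_cast; exact h2)) (Or.inr (by push_cast; exact h3))

theorem l7b_c : runT (cL 12425 16231 10624 462 40 (-12060))
    (.y (.y (.x (.y (.x (.y (.x .a .a) .a) (.y .a .a)) (.x .a .a)) (.y (.x .a .c) .c)) (.x (.y .c .c)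
    .c)) (.x (.y .c (.x .b .b)) (.y (.x .b .b) (.x (.x .b .b) (.y .b (.y .b .b))))))
    [V.of 1000 160 298 4, V.of 1000 160 510 4] = true := by decide +kernel

theorem l7b (h1 : |t| ≤ (1250 : ℝ) / 10000) (h2 : (1100 : ℝ) / 10000 ≤ t) (h3 : (1020 : ℝ) / 10000 ≤ t + t') :
    LevL 160 298 160 510 462 40 (-12060) t t' :=
  levL_of (t0 := 1100) (t1 := 1250) (τ := 1020) l7b_c (by decide +kernel) (by push_cast; exact h1)
    (Or.inr (by push_cast; exact h2)) (Or.inr (by push_cast; exact h3))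

theorem l7c_c : runT (cL 16230 19093 14130 462 45 (-12060))
    (.y (.y (.y (.x (.x (.y (.x .a .a) .a) (.y .a .a)) (.x (.y .a .a) .c)) (.x (.x .a .a) .c)) (.x (.y
    .c .c) .c)) (.x (.y .c (.x .b .b)) (.y (.x .b .b) (.x (.y .b .b) (.y .b (.y .b (.x .b .b)))))))
    [V.of 1000 160 298 4, V.of 1000 160 510 4] = true := by decide +kernel

theorem l7c (h1 : |t| ≤ (1350 : ℝ) / 10000) (h2 : (1250 : ℝ) / 10000 ≤ t) (h3 : (1170 : ℝ) / 10000 ≤ t + t') :
    LevL 160 298 160 510 462 45 (-12060) t t' :=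
  levL_of (t0 := 1250) (t1 := 1350) (τ := 1170) l7c_c (by decide +kernel) (by push_cast; exact h1)
    (Or.inr (by push_cast; exact h2)) (Or.inr (by push_cast; exact h3))

theorem l7d_c : runT (cL 19092 22227 16781 462 45 (-12060))
    (.y (.y (.y (.x (.y (.x (.x .a .a) (.y .a .a)) (.x .a .a)) (.y (.x .a .a) (.x .a .c))) (.x (.x .a
    .a) .c)) (.x (.x .c .c) .c)) (.x (.y .c (.x .b .b)) (.y (.x .b (.y .b .b)) (.x (.y .b .b) (.y (.x
    .b .b) (.y .b (.x .b .b)))))))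
    [V.of 1000 160 298 4, V.of 1000 160 510 4] = true := by decide +kernel

theorem l7d (h1 : |t| ≤ (1450 : ℝ) / 10000) (h2 : (1350 : ℝ) / 10000 ≤ t) (h3 : (1270 : ℝ) / 10000 ≤ t + t') :
    LevL 160 298 160 510 462 45 (-12060) t t' :=
  levL_of (t0 := 1350) (t1 := 1450) (τ := 1270) l7d_c (by decide +kernel) (by push_cast; exact h1)
    (Or.inr (by push_cast; exact h2)) (Or.inr (by push_cast; exact h3))

theorem l8a_c : runT (cL 10198 16231 4097 462 50 (-12060))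
    (.y (.x (.y (.x .a .a) (.x .a .c)) (.x .c .c)) (.x (.x .c .c) .b))
    [V.of 1000 160 298 4, V.of 1000 200 350 4] = true := by decide +kernel

theorem l8a (h1 : |t| ≤ (1250 : ℝ) / 10000) (h2 : (1000 : ℝ) / 10000 ≤ t) (h3 : (640 : ℝ) / 10000 ≤ t + t') :
    LevL 160 298 200 350 462 50 (-12060) t t' :=
  levL_of (t0 := 1000) (t1 := 1250) (τ := 640) l8a_c (by decide +kernel) (by push_cast; exact h1)
    (Or.inr (by push_cast; exact h2)) (Or.inr (by push_cast; exact h3))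

theorem l8b_c : runT (cL 16230 21257 4097 462 50 (-12060))
    (.y (.x (.y (.x (.y .a .a) .a) (.x .a .c)) (.y (.x .c .c) .c)) (.x (.x .c .c) (.y .b .b)))
    [V.of 1000 160 298 4, V.of 1000 200 350 4] = true := by decide +kernel

theorem l8b (h1 : |t| ≤ (1420 : ℝ) / 10000) (h2 : (1250 : ℝ) / 10000 ≤ t) (h3 : (640 : ℝ) / 10000 ≤ t + t') :
    LevL 160 298 200 350 462 50 (-12060) t t' :=
  levL_of (t0 := 1250) (t1 := 1420) (τ := 640) l8b_c (by decide +kernel) (by push_cast; exact h1)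
    (Or.inr (by push_cast; exact h2)) (Or.inr (by push_cast; exact h3))

theorem l8c_c : runT (cL 21256 26730 6616 462 50 (-12060))
    (.y (.x (.y (.x (.y (.x (.y .a .a) .a) .a) (.y .a .a)) (.x .a .c)) (.y (.x .c .c) .c)) (.x (.y .c
    .c) (.y .b .b)))
    [V.of 1000 160 298 4, V.of 1000 200 350 4] = true := by decide +kernel

theorem l8c (h1 : |t| ≤ (1580 : ℝ) / 10000) (h2 : (1420 : ℝ) / 10000 ≤ t) (h3 : (810 : ℝ) / 10000 ≤ t + t') :
    LevL 160 298 200 350 462 50 (-12060) t t' :=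
  levL_of (t0 := 1420) (t1 := 1580) (τ := 810) l8c_c (by decide +kernel) (by push_cast; exact h1)
    (Or.inr (by push_cast; exact h2)) (Or.inr (by push_cast; exact h3))

end Pool.Agent.Work.MP_b30479_gt.G2.MQ
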