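import Pool.Agent.Work.MP_b30479_gt.G2.MQC
import Pool.Agent.Work.MP_b30479_gt.G2.WLocP
import Pool.Agent.Work.MP_b30479_gt.G2.MLDef
import Pool.Agent.Work.MP_b30479_gt.G2.WLocX

/-!
# Level push of a digit `1`: all types of neighbours
-/

namespace Pool.Agent.Work.MP_b30479_gt.G2

open Real Set VOL NumI NumI.E SR

namespace MQ

theorem cos_450 : (1562 : ℝ) / 10000 ≤ Real.cos (π * ((90 / 100) / 2)) := by
  have h : chk [E.sub (E.cosPi (E.q 450 1000)) (E.q 1562 10000)] 1 [] = true := by decide +kernel
  have := chk0 h
  simp only [val] at this
  push_cast at this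
  have e : (90 : ℝ) / 100 / 2 = 450 / 1000 := by norm_num
  rw [e]
  linarith only [this]

variable {x x' a a' t t' : ℝ} {u0 u1 v0 v1 P α g : ℤ}

/-- positions of the hinges: `x`, `x'` moved, `a`, `a'` at the saddle point -/
structure Bs (x x' a a' : ℝ) : Prop where
  x0 : 0 < x
  x0' : 0 < x'
  a0 : 0 < a
  a0' : 0 < a'
  x5 : x ≤ 1 / 2
  a5 : a ≤ 1 / 2
  sx : x + x' ≤ 90 / 100
  sa : a + a' ≤ 80 / 100

theorem Bs.P730 (B : Bs x x' a a') : gh x + gh x' ≤ Real.log (((730 : ℤ) : ℝ) / 1000) :=
  gh_sum_of_sum ⟨B.x0, by linarith only [B, B.x5]⟩ ⟨B.x0', by linarith only [B, B.sx, B.x0]⟩ B.sx (by norm_num)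
    cos_450 (by norm_num) (by norm_num) (by norm_num)

theorem Bs.P528 (B : Bs x x' a a') : gh a + gh a' ≤ Real.log (((528 : ℤ) : ℝ) / 1000) :=
  gh_sum_of_sum ⟨B.a0, by linarith only [B, B.a5]⟩ ⟨B.a0', by linarith only [B, B.sa, B.a0]⟩ B.sa (by norm_num)
    cos_400 (by norm_num) (by norm_num) (by norm_num)

theorem Bs.P462 (B : Bs x x' a a') (h : a + a' ≤ 76 / 100) :
    gh a + gh a' ≤ Real.log (((462 : ℤ) : ℝ) / 1000) :=
  gh_sum_of_sum ⟨B.a0, by linarith only [B, B.a5]⟩ ⟨B.a0', by linarith only [h, B, B.sa, B.a0]⟩ h (by norm_num)
    cos_380 (by norm_num) (by norm_num) (by norm_num)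

theorem log_mono {P P' : ℤ} (h0 : 0 < P) (h : P ≤ P') :
    Real.log ((P : ℝ) / 1000) ≤ Real.log ((P' : ℝ) / 1000) := by
  have h1 : (0 : ℝ) < P := by exact_mod_cast h0
  have h2 : (P : ℝ) ≤ P' := by exact_mod_cast h
  exact Real.log_le_log (by positivity) (by linarith only [h2])

/-- upward -/
def Up (x x' a a' t t' : ℝ) : Prop :=
  a < x → |gh x' - gh a'| ≤ gh x - gh a →
    LL (lv x t + lv x' t') - LL (lv x t) < LL (lv a t + lv a' t') - LL (lv a t)

/-- downward -/
def Dn (x x' a a' t t' : ℝ) : Prop :=
  x < a → |gh x' - gh a'| ≤ gh a - gh x →
    LL (lv a t + lv a' t') - LL (lv a t) < LL (lv x t + lv x' t') - LL (lv x t)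

theorem up_S (B : Bs x x' a a') (H : LevS u0 u1 v0 v1 730 t t') (ha : (u0 : ℝ) / 1000 ≤ a)
    (hx : x ≤ (u1 : ℝ) / 1000) (ha' : (v0 : ℝ) / 1000 ≤ a') (hx' : (v0 : ℝ) / 1000 ≤ x')
    (hb' : a' ≤ (v1 : ℝ) / 1000) (hy' : x' ≤ (v1 : ℝ) / 1000) : Up x x' a a' t t' := fun hlt hg =>
  H.fd ha hx B.x5 ha' hx' hb' hy' B.a0 B.a0' B.x0' hlt hg (by linarith only [B, B.sa]) (by linarith only [B, B.sx])
    (B.P528.trans (log_mono (by norm_num) (by norm_num))) B.P730

theorem dn_S (B : Bs x x' a a') (H : LevS u0 u1 v0 v1 730 t t') (ha : (u0 : ℝ) / 1000 ≤ x)
    (hx : a ≤ (u1 : ℝ) / 1000) (ha' : (v0 : ℝ) / 1000 ≤ a') (hx' : (v0 : ℝ) / 1000 ≤ x')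
    (hb' : a' ≤ (v1 : ℝ) / 1000) (hy' : x' ≤ (v1 : ℝ) / 1000) : Dn x x' a a' t t' := fun hlt hg =>
  H.fd ha hx B.a5 hx' ha' hy' hb' B.x0 B.x0' B.a0' hlt (by rwa [abs_sub_comm])
    (by linarith only [B, B.sx]) (by linarith only [B, B.sa]) B.P730
    (B.P528.trans (log_mono (by norm_num) (by norm_num)))

theorem dn_L (B : Bs x x' a a') (H : LevL u0 u1 v0 v1 P α g t t') (hα : 0 < α)
    (hP : gh a + gh a' ≤ Real.log ((P : ℝ) / 1000)) {r : ℤ} (hr : 0 < r) (hu : 0 < u0)
    (hG : okG u0 r g = true) (hra : (r : ℝ) / 1000 ≤ a) (ha : (u0 : ℝ) / 1000 ≤ x)
    (hx : a ≤ (u1 : ℝ) / 1000) (ha' : (v0 : ℝ) / 1000 ≤ a') (hx' : (v0 : ℝ) / 1000 ≤ x')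
    (hb' : a' ≤ (v1 : ℝ) / 1000) (hy' : x' ≤ (v1 : ℝ) / 1000) : Dn x x' a a' t t' := fun hlt hg =>
  H.fd hα ha hx hx' ha' hy' hb' B.x0 B.x0' B.a0' hlt (by rwa [abs_sub_comm])
    (by linarith only [B, B.sx]) (by linarith only [B, B.sa])
    (okG_spec hG hu hr ha hra (by linarith only [B, B.x5]) (by linarith only [B, B.a5]))
    ((by have := (abs_le.1 hg).2; linarith only [this] : gh x + gh x' ≤ gh a + gh a').trans hP) hP

/-! ### tables -/

/-- lower bounds for a hinge `1 | B` of a digit `1` with other neighbour `C` (thousandths) -/
def fz : Cl → Cl → ℤ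
  | .one, .ring => 190
  | .one, _ => 150
  | .two, _ => 160
  | .twoE, .one => 150
  | .twoE, .twoE => 140
  | .twoE, _ => 200
  | .three, _ => 130
  | .threeE, _ => 140
  | .ring, _ => 160

/-- upper bounds for a hinge `1 | B` (thousandths) -/
def cz : Cl → ℤ
  | .one => 640
  | .two => 510
  | .twoE => 350
  | .three => 500
  | .threeE => 350
  | .ring => 360

/-- range of a hinge `1 | B` at the saddle point (thousandths) -/
def rz : Cl → ℤ × ℤ
  | .one => (275, 500)
  | .two => (236, 392)
  | .twoE => (217, 311)
  | .three => (226, 314)
  | .threeE => (212, 274)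
  | .ring => (214, 298)

/-- the data of a digit `1` with neighbours of the classes `B` (own hinge) and `C` -/
structure RD (B C : Cl) (x x' a a' T T' : ℝ) : Prop where
  bs : Bs x x' a a'
  ok : ML.okp B C
  f : (fz B C : ℝ) / 1000 ≤ x
  f' : (fz C B : ℝ) / 1000 ≤ x'
  c : x ≤ (cz B : ℝ) / 1000
  c' : x' ≤ (cz C : ℝ) / 1000
  r0 : ((rz B).1 : ℝ) / 1000 ≤ a
  r1 : a ≤ ((rz B).2 : ℝ) / 1000
  r0' : ((rz C).1 : ℝ) / 1000 ≤ a'
  r1' : a' ≤ ((rz C).2 : ℝ) / 1000
  w0 : (SR.cw C B).t0 ≤ T
  w1 : T ≤ (SR.cw C B).t1
  w2 : (SR.cw C B).s0 ≤ T + T'
  w3 : (SR.cw B C).t0 ≤ T'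
  t11 : B = .one → |T| ≤ 80 / 1000
  p1 : C = .one → ∃ Q q, (SR.pcw B Q).In T' T q ∧ (Q = .one → x' ≤ 600 / 1000)
  p2 : B = .one → ∃ Q q, (SR.pcw C Q).In T T' q
  sz : B = .ring → C = .one → a + a' ≤ 76 / 100

theorem both_S (B : Bs x x' a a') (H : LevS u0 u1 v0 v1 730 t t') (g0 : (u0 : ℝ) / 1000 ≤ x)
    (g1 : x ≤ (u1 : ℝ) / 1000) (g2 : (u0 : ℝ) / 1000 ≤ a) (g3 : a ≤ (u1 : ℝ) / 1000)
    (ha' : (v0 : ℝ) / 1000 ≤ a') (hx' : (v0 : ℝ) / 1000 ≤ x')
    (hb' : a' ≤ (v1 : ℝ) / 1000) (hy' : x' ≤ (v1 : ℝ) / 1000) :
    Up x x' a a' t t' ∧ Dn x x' a a' t t' :=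
  ⟨up_S B H g2 g1 ha' hx' hb' hy', dn_S B H g0 g3 ha' hx' hb' hy'⟩

theorem abs_le' {a b : ℝ} (h1 : -b ≤ a) (h2 : a ≤ b) : |a| ≤ b := abs_le.2 ⟨h1, h2⟩

theorem real_one {C : Cl} (D : RD .one C x x' a a' t t') : Up x x' a a' t t' ∧ Dn x x' a a' t t' := by
  obtain ⟨bs, ok, f, f', c, c', r0, r1, r0', r1', w0, w1, w2, w3, t11, p1, p2, sz⟩ := D
  have h1 := t11 rfl
  obtain ⟨Q, q, hq⟩ := p2 rfl
  have hx := bs.x5
  have ha := bs.a5
  cases C <;> simp only [fz, cz, rz, SR.cw] at * <;> push_cast at *
  case one => exact both_S bs (s1 (by linarith only [h1])) (by push_cast; linarith only [f]) (by push_cast; linarith only [hx]) (by push_cast; linarith only [r0]) (by push_cast; linarith only [ha]) (by push_cast; linarith only [r0']) (by push_cast; linarith only [f']) (by push_cast; linarith only [r1']) (by push_cast; linarith only [c'])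
  case two => exact both_S bs (s1 (by linarith only [h1])) (by push_cast; linarith only [f]) (by push_cast; linarith only [hx]) (by push_cast; linarith only [r0]) (by push_cast; linarith only [ha]) (by push_cast; linarith only [r0']) (by push_cast; linarith only [f']) (by push_cast; linarith only [r1']) (by push_cast; linarith only [c'])
  case twoE => exact both_S bs (s1 (by linarith only [h1])) (by push_cast; linarith only [f]) (by push_cast; linarith only [hx]) (by push_cast; linarith only [r0]) (by push_cast; linarith only [ha]) (by push_cast; linarith only [r0']) (by push_cast; linarith only [f']) (by push_cast; linarith only [r1']) (by push_cast; linarith only [c'])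
  case three =>
    have h2 : |t| ≤ (660 : ℝ) / 10000 := by
      have k1 := hq.t0
      have k2 := hq.t1
      apply abs_le' <;> cases Q <;> simp only [SR.pcw] at k1 k2 <;> linarith only [k1, w1]
    exact both_S bs (s2 h2) (by push_cast; linarith only [f]) (by push_cast; linarith only [hx]) (by push_cast; linarith only [r0]) (by push_cast; linarith only [ha]) (by push_cast; linarith only [r0']) (by push_cast; linarith only [f']) (by push_cast; linarith only [r1']) (by push_cast; linarith only [c'])
  case threeE => exact both_S bs (s2 (abs_le' (by linarith only [w0]) (by linarith only [w1]))) (by push_cast; linarith only [f]) (by push_cast; linarith only [hx]) (by push_cast; linarith only [r0]) (by push_cast; linarith only [ha]) (by push_cast; linarith only [r0']) (by push_cast; linarith only [f']) (by push_cast; linarith only [r1']) (by push_cast; linarith only [c'])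
  case ring => exact both_S bs (s1 (by linarith only [h1])) (by push_cast; linarith only [f]) (by push_cast; linarith only [hx]) (by push_cast; linarith only [r0]) (by push_cast; linarith only [ha]) (by push_cast; linarith only [r0']) (by push_cast; linarith only [f']) (by push_cast; linarith only [r1']) (by push_cast; linarith only [c'])

theorem real_two {C : Cl} (D : RD .two C x x' a a' t t') : Up x x' a a' t t' ∧ Dn x x' a a' t t' := by
  obtain ⟨bs, ok, f, f', c, c', r0, r1, r0', r1', w0, w1, w2, w3, t11, p1, p2, sz⟩ := D
  have hx := bs.x5
  have ha := bs.a5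
  cases C <;> simp only [fz, cz, rz, SR.cw] at * <;> push_cast at *
  case one => exact both_S bs (s1 (abs_le' (by linarith only [w0]) (by linarith only [w1]))) (by push_cast; linarith only [f]) (by push_cast; linarith only [hx]) (by push_cast; linarith only [r0]) (by push_cast; linarith only [r1]) (by push_cast; linarith only [r0']) (by push_cast; linarith only [f']) (by push_cast; linarith only [r1']) (by push_cast; linarith only [c'])
  case two => exact both_S bs (s1 (abs_le' (by linarith only [w0]) (by linarith only [w1]))) (by push_cast; linarith only [f]) (by push_cast; linarith only [hx]) (by push_cast; linarith only [r0]) (by push_cast; linarith only [r1]) (by push_cast; linarith only [r0']) (by push_cast; linarith only [f']) (by push_cast; linarith only [r1']) (by push_cast; linarith only [c'])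
  case twoE => exact both_S bs (s4 (abs_le' (by linarith only [w0]) (by linarith only [w1])) (by linarith only [w0]) (by linarith only [w2])) (by push_cast; linarith only [f]) (by push_cast; linarith only [hx]) (by push_cast; linarith only [r0]) (by push_cast; linarith only [r1]) (by push_cast; linarith only [r0']) (by push_cast; linarith only [f']) (by push_cast; linarith only [r1']) (by push_cast; linarith only [c'])
  case three => exact both_S bs (s3 (abs_le' (by linarith only [w0]) (by linarith only [w1])) (by linarith only [w0]) (by linarith only [w2])) (by push_cast; linarith only [f]) (by push_cast; linarith only [hx]) (by push_cast; linarith only [r0]) (by push_cast; linarith only [r1]) (by push_cast; linarith only [r0']) (by push_cast; linarith only [f']) (by push_cast; linarith only [r1']) (by push_cast; linarith only [c'])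
  case threeE => exact both_S bs (s3 (abs_le' (by linarith only [w0]) (by linarith only [w1])) (by linarith only [w0]) (by linarith only [w2])) (by push_cast; linarith only [f]) (by push_cast; linarith only [hx]) (by push_cast; linarith only [r0]) (by push_cast; linarith only [r1]) (by push_cast; linarith only [r0']) (by push_cast; linarith only [f']) (by push_cast; linarith only [r1']) (by push_cast; linarith only [c'])
  case ring => exact both_S bs (s1 (abs_le' (by linarith only [w0]) (by linarith only [w1]))) (by push_cast; linarith only [f]) (by push_cast; linarith only [hx]) (by push_cast; linarith only [r0]) (by push_cast; linarith only [r1]) (by push_cast; linarith only [r0']) (by push_cast; linarith only [f']) (by push_cast; linarith only [r1']) (by push_cast; linarith only [c'])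

theorem real_twoE {C : Cl} (D : RD .twoE C x x' a a' t t') : Up x x' a a' t t' ∧ Dn x x' a a' t t' := by
  obtain ⟨bs, ok, f, f', c, c', r0, r1, r0', r1', w0, w1, w2, w3, t11, p1, p2, sz⟩ := D
  have hx := bs.x5
  have ha := bs.a5
  cases C <;> simp only [fz, cz, rz, SR.cw] at * <;> push_cast at *
  case one => exact both_S bs (s1 (abs_le' (by linarith only [w0]) (by linarith only [w1]))) (by push_cast; linarith only [f]) (by push_cast; linarith only [c]) (by push_cast; linarith only [r0]) (by push_cast; linarith only [r1]) (by push_cast; linarith only [r0']) (by push_cast; linarith only [f']) (by push_cast; linarith only [r1']) (by push_cast; linarith only [c'])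
  case two => exact both_S bs (s1 (abs_le' (by linarith only [w0]) (by linarith only [w1]))) (by push_cast; linarith only [f]) (by push_cast; linarith only [c]) (by push_cast; linarith only [r0]) (by push_cast; linarith only [r1]) (by push_cast; linarith only [r0']) (by push_cast; linarith only [f']) (by push_cast; linarith only [r1']) (by push_cast; linarith only [c'])
  case twoE => exact both_S bs (s5 (abs_le' (by linarith only [w0]) (by linarith only [w1]))) (by push_cast; linarith only [f]) (by push_cast; linarith only [c]) (by push_cast; linarith only [r0]) (by push_cast; linarith only [r1]) (by push_cast; linarith only [r0']) (by push_cast; linarith only [f']) (by push_cast; linarith only [r1']) (by push_cast; linarith only [c'])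
  case three => exact both_S bs (s2 (abs_le' (by linarith only [w0]) (by linarith only [w1]))) (by push_cast; linarith only [f]) (by push_cast; linarith only [c]) (by push_cast; linarith only [r0]) (by push_cast; linarith only [r1]) (by push_cast; linarith only [r0']) (by push_cast; linarith only [f']) (by push_cast; linarith only [r1']) (by push_cast; linarith only [c'])
  case threeE => exact both_S bs (s2 (abs_le' (by linarith only [w0]) (by linarith only [w1]))) (by push_cast; linarith only [f]) (by push_cast; linarith only [c]) (by push_cast; linarith only [r0]) (by push_cast; linarith only [r1]) (by push_cast; linarith only [r0']) (by push_cast; linarith only [f']) (by push_cast; linarith only [r1']) (by push_cast; linarith only [c'])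
  case ring => exact both_S bs (s1 (abs_le' (by linarith only [w0]) (by linarith only [w1]))) (by push_cast; linarith only [f]) (by push_cast; linarith only [c]) (by push_cast; linarith only [r0]) (by push_cast; linarith only [r1]) (by push_cast; linarith only [r0']) (by push_cast; linarith only [f']) (by push_cast; linarith only [r1']) (by push_cast; linarith only [c'])

theorem real_threeE {C : Cl} (D : RD .threeE C x x' a a' t t') :
    Up x x' a a' t t' ∧ Dn x x' a a' t t' := by
  obtain ⟨bs, ok, f, f', c, c', r0, r1, r0', r1', w0, w1, w2, w3, t11, p1, p2, sz⟩ := D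
  have hx := bs.x5
  have ha := bs.a5
  cases C <;> simp only [fz, cz, rz, SR.cw] at * <;> push_cast at *
  case one => exact both_S bs (s6 (abs_le' (by linarith only [w0]) (by linarith only [w1]))) (by push_cast; linarith only [f]) (by push_cast; linarith only [c]) (by push_cast; linarith only [r0]) (by push_cast; linarith only [r1]) (by push_cast; linarith only [r0']) (by push_cast; linarith only [f']) (by push_cast; linarith only [r1']) (by push_cast; linarith only [c'])
  case two => exact both_S bs (s6 (abs_le' (by linarith only [w0]) (by linarith only [w1]))) (by push_cast; linarith only [f]) (by push_cast; linarith only [c]) (by push_cast; linarith only [r0]) (by push_cast; linarith only [r1]) (by push_cast; linarith only [r0']) (by push_cast; linarith only [f']) (by push_cast; linarith only [r1']) (by push_cast; linarith only [c'])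
  case twoE => exact both_S bs (s7 (abs_le' (by linarith only [w0]) (by linarith only [w1])) (by linarith only [w0]) (by linarith only [w2])) (by push_cast; linarith only [f]) (by push_cast; linarith only [c]) (by push_cast; linarith only [r0]) (by push_cast; linarith only [r1]) (by push_cast; linarith only [r0']) (by push_cast; linarith only [f']) (by push_cast; linarith only [r1']) (by push_cast; linarith only [c'])
  all_goals exact absurd ok (by simp [ML.okp])

theorem real_three {C : Cl} (D : RD .three C x x' a a' t t') :
    Up x x' a a' t t' ∧ Dn x x' a a' t t' := by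
  obtain ⟨bs, ok, f, f', c, c', r0, r1, r0', r1', w0, w1, w2, w3, t11, p1, p2, sz⟩ := D
  have hx := bs.x5
  have ha := bs.a5
  have hP := bs.P528
  have hG : okG 130 226 (-12835) = true := by decide +kernel
  cases C <;> simp only [fz, cz, rz, SR.cw] at * <;> push_cast at *
  case one =>
    obtain ⟨Q, q, hq, -⟩ := p1 trivial
    have h2 : |t| ≤ (850 : ℝ) / 10000 ∧ (180 : ℝ) / 10000 ≤ t ∧ (70 : ℝ) / 10000 ≤ t + t' := by
      have k1 := hq.k0
      have k2 := hq.k1
      have k3 := hq.a0
      refine ⟨abs_le' ?_ ?_, ?_, ?_⟩ <;> cases Q <;> simp only [SR.pcw] at k1 k2 k3 <;> linarith only [k1, w0, k2, k3]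
    exact ⟨up_S bs (s8 h2.1 h2.2.1) (by push_cast; linarith only [r0]) (by push_cast; linarith only [hx]) (by push_cast; linarith only [r0']) (by push_cast; linarith only [f']) (by push_cast; linarith only [r1']) (by push_cast; linarith only [c']),
      dn_L bs (l1 h2.1 h2.2.1 h2.2.2) (by norm_num) (by push_cast; exact hP) (r := 226) (by norm_num)
        (by norm_num) hG (by push_cast; linarith only [r0]) (by push_cast; linarith only [f]) (by push_cast; linarith only [r1]) (by push_cast; linarith only [r0']) (by push_cast; linarith only [f']) (by push_cast; linarith only [r1']) (by push_cast; linarith only [c'])⟩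
  case two =>
    have h2 : |t| ≤ (940 : ℝ) / 10000 := abs_le' (by linarith only [w0]) (by linarith only [w1])
    have h3 : (460 : ℝ) / 10000 ≤ t := by linarith only [w0]
    have h4 : (780 : ℝ) / 10000 ≤ t + t' := by linarith only [w2]
    exact ⟨up_S bs (s9 h2 h3 h4) (by push_cast; linarith only [r0]) (by push_cast; linarith only [hx]) (by push_cast; linarith only [r0']) (by push_cast; linarith only [f']) (by push_cast; linarith only [r1']) (by push_cast; linarith only [c']),
      dn_L bs (l2 h2 h3 h4) (by norm_num) (by push_cast; exact hP) (r := 226) (by norm_num)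
        (by norm_num) hG (by push_cast; linarith only [r0]) (by push_cast; linarith only [f]) (by push_cast; linarith only [r1]) (by push_cast; linarith only [r0']) (by push_cast; linarith only [f']) (by push_cast; linarith only [r1']) (by push_cast; linarith only [c'])⟩
  case twoE =>
    have h2 : |t| ≤ (1150 : ℝ) / 10000 := abs_le' (by linarith only [w0]) (by linarith only [w1])
    have h3 : (870 : ℝ) / 10000 ≤ t := by linarith only [w0]
    have h4 : (510 : ℝ) / 10000 ≤ t + t' := by linarith only [w2]
    exact ⟨up_S bs (s10 h2 h3 h4) (by push_cast; linarith only [r0]) (by push_cast; linarith only [hx]) (by push_cast; linarith only [r0']) (by push_cast; linarith only [f']) (by push_cast; linarith only [r1']) (by push_cast; linarith only [c']),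
      dn_L bs (l3 h2 h3 h4) (by norm_num) (by push_cast; exact hP) (r := 226) (by norm_num)
        (by norm_num) hG (by push_cast; linarith only [r0]) (by push_cast; linarith only [f]) (by push_cast; linarith only [r1]) (by push_cast; linarith only [r0']) (by push_cast; linarith only [f']) (by push_cast; linarith only [r1']) (by push_cast; linarith only [c'])⟩
  all_goals exact absurd ok (by simp [ML.okp])

theorem dn_Z (B : Bs x x' a a') (hG : okG 160 214 g = true) {α : ℤ}
    (H : LevL 160 298 v0 v1 462 α g t t') (hα : 0 < α)
    (hP : gh a + gh a' ≤ Real.log (((462 : ℤ) : ℝ) / 1000))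
    (g0 : (160 : ℝ) / 1000 ≤ x) (g2 : (214 : ℝ) / 1000 ≤ a) (g3 : a ≤ (298 : ℝ) / 1000)
    (ha' : (v0 : ℝ) / 1000 ≤ a') (hx' : (v0 : ℝ) / 1000 ≤ x')
    (hb' : a' ≤ (v1 : ℝ) / 1000) (hy' : x' ≤ (v1 : ℝ) / 1000) : Dn x x' a a' t t' :=
  dn_L B H hα hP (r := 214) (by norm_num) (by norm_num) hG (by push_cast; exact g2)
    (by push_cast; exact g0) (by push_cast; exact g3) ha' hx' hb' hy'

theorem real_ring_one (D : RD .ring .one x x' a a' t t') :
    Up x x' a a' t t' ∧ Dn x x' a a' t t' := by
  obtain ⟨bs, ok, f, f', c, c', r0, r1, r0', r1', w0, w1, w2, w3, t11, p1, p2, sz⟩ := D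
  have hx := bs.x5
  have ha := bs.a5
  have hP := bs.P462 (sz rfl rfl)
  have hG : okG 160 214 (-12060) = true := by decide +kernel
  obtain ⟨Q, q, hq, hq1⟩ := p1 rfl
  have k1 := hq.k0
  have k2 := hq.k1
  have k3 := hq.a0
  have k4 := hq.t0
  simp only [fz, cz, rz, SR.cw] at *
  push_cast at *
  cases Q <;> simp only [SR.pcw] at k1 k2 k3 k4
  case one =>
    have h5 := hq1 rfl
    have h2 : |t| ≤ (1310 : ℝ) / 10000 := abs_le' (by linarith only [k1]) (by linarith only [k2])
    have h3 : (560 : ℝ) / 10000 ≤ t := by linarith only [k1]
    have h4 : (570 : ℝ) / 10000 ≤ t + t' := by linarith only [k3]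
    exact ⟨up_S bs (s11 h2 h3 h4) (by push_cast; linarith only [r0]) (by push_cast; linarith only [c]) (by push_cast; linarith only [r0']) (by push_cast; linarith only [f']) (by push_cast; linarith only [r1']) (by push_cast; linarith only [h5]),
      dn_Z bs hG (l4 h2 h3 h4) (by norm_num) (by push_cast; exact hP) (by push_cast; linarith only [f]) (by push_cast; linarith only [r0]) (by push_cast; linarith only [r1]) (by push_cast; linarith only [r0']) (by push_cast; linarith only [f']) (by push_cast; linarith only [r1']) (by push_cast; linarith only [h5])⟩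
  case two =>
    have h2 : |t| ≤ (1180 : ℝ) / 10000 := abs_le' (by linarith only [k1]) (by linarith only [k2])
    have h3 : (490 : ℝ) / 10000 ≤ t := by linarith only [k1]
    have h4 : (410 : ℝ) / 10000 ≤ t + t' := by linarith only [k3]
    exact ⟨up_S bs (s12 h2 (by linarith only [k1]) (by linarith only [k3])) (by push_cast; linarith only [r0]) (by push_cast; linarith only [c]) (by push_cast; linarith only [r0']) (by push_cast; linarith only [f']) (by push_cast; linarith only [r1']) (by push_cast; linarith only [c']),
      dn_Z bs hG (l5b h2 h3 h4) (by norm_num) (by push_cast; exact hP) (by push_cast; linarith only [f]) (by push_cast; linarith only [r0]) (by push_cast; linarith only [r1]) (by push_cast; linarith only [r0']) (by push_cast; linarith only [f']) (by push_cast; linarith only [r1']) (by push_cast; linarith only [c'])⟩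
  case twoE =>
    constructor
    · rcases le_total t (105 / 1000) with hc | hc
      · exact up_S bs (s13a (abs_le' (by linarith only [k1]) (by linarith only [hc])) (by linarith only [k1]) (by linarith only [k3])) (by push_cast; linarith only [r0]) (by push_cast; linarith only [c]) (by push_cast; linarith only [r0']) (by push_cast; linarith only [f']) (by push_cast; linarith only [r1']) (by push_cast; linarith only [c'])
      rcases le_total t (118 / 1000) with hd | hd
      · exact up_S bs (s13b (abs_le' (by linarith only [hc]) (by linarith only [hd])) (by linarith only [hc]) (by linarith only [k4, hc])) (by push_cast; linarith only [r0]) (by push_cast; linarith only [c]) (by push_cast; linarith only [r0']) (by push_cast; linarith only [f']) (by push_cast; linarith only [r1']) (by push_cast; linarith only [c'])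
      · exact up_S bs (s13c (abs_le' (by linarith only [hd]) (by linarith only [k2])) (by linarith only [hd]) (by linarith only [k4, hd])) (by push_cast; linarith only [r0]) (by push_cast; linarith only [c]) (by push_cast; linarith only [r0']) (by push_cast; linarith only [f']) (by push_cast; linarith only [r1']) (by push_cast; linarith only [c'])
    · rcases le_total t (105 / 1000) with hc | hc
      · exact dn_Z bs hG (l6a (abs_le' (by linarith only [k1]) (by linarith only [hc])) (by linarith only [k1]) (by linarith only [k3])) (by norm_num) (by push_cast; exact hP) (by push_cast; linarith only [f]) (by push_cast; linarith only [r0]) (by push_cast; linarith only [r1]) (by push_cast; linarith only [r0']) (by push_cast; linarith only [f']) (by push_cast; linarith only [r1']) (by push_cast; linarith only [c'])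
      rcases le_total t (118 / 1000) with hd | hd
      · exact dn_Z bs hG (l6b (abs_le' (by linarith only [hc]) (by linarith only [hd])) (by linarith only [hc]) (by linarith only [k4, hc])) (by norm_num) (by push_cast; exact hP) (by push_cast; linarith only [f]) (by push_cast; linarith only [r0]) (by push_cast; linarith only [r1]) (by push_cast; linarith only [r0']) (by push_cast; linarith only [f']) (by push_cast; linarith only [r1']) (by push_cast; linarith only [c'])
      rcases le_total t (1225 / 10000) with he | he
      · exact dn_Z bs hG (l6c (abs_le' (by linarith only [hd]) (by linarith only [he])) (by linarith only [hd]) (by linarith only [k4, hd])) (by norm_num) (by push_cast; exact hP) (by push_cast; linarith only [f]) (by push_cast; linarith only [r0]) (by push_cast; linarith only [r1]) (by push_cast; linarith only [r0']) (by push_cast; linarith only [f']) (by push_cast; linarith only [r1']) (by push_cast; linarith only [c'])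
      rcases le_total t (1255 / 10000) with hf | hf
      · exact dn_Z bs hG (l6d (abs_le' (by linarith only [he]) (by linarith only [hf])) (by linarith only [he]) (by linarith only [k4, he])) (by norm_num) (by push_cast; exact hP) (by push_cast; linarith only [f]) (by push_cast; linarith only [r0]) (by push_cast; linarith only [r1]) (by push_cast; linarith only [r0']) (by push_cast; linarith only [f']) (by push_cast; linarith only [r1']) (by push_cast; linarith only [c'])
      · exact dn_Z bs hG (l6e (abs_le' (by linarith only [hf]) (by linarith only [k2])) (by linarith only [hf]) (by linarith only [k4, hf])) (by norm_num) (by push_cast; exact hP) (by push_cast; linarith only [f]) (by push_cast; linarith only [r0]) (by push_cast; linarith only [r1]) (by push_cast; linarith only [r0']) (by push_cast; linarith only [f']) (by push_cast; linarith only [r1']) (by push_cast; linarith only [c'])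
  all_goals
    have h2 : |t| ≤ (1110 : ℝ) / 10000 := abs_le' (by linarith only [k1, w0]) (by linarith only [k2])
    have h3 : (380 : ℝ) / 10000 ≤ t := by linarith only [k1, w0]
    have h4 : (250 : ℝ) / 10000 ≤ t + t' := by linarith only [k3]
    exact ⟨up_S bs (s12 (by linarith only [h2]) h3 h4) (by push_cast; linarith only [r0]) (by push_cast; linarith only [c]) (by push_cast; linarith only [r0']) (by push_cast; linarith only [f']) (by push_cast; linarith only [r1']) (by push_cast; linarith only [c']),
      dn_Z bs hG (l5a h2 h3 h4) (by norm_num) (by push_cast; exact hP) (by push_cast; linarith only [f]) (by push_cast; linarith only [r0]) (by push_cast; linarith only [r1]) (by push_cast; linarith only [r0']) (by push_cast; linarith only [f']) (by push_cast; linarith only [r1']) (by push_cast; linarith only [c'])⟩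

theorem gh_log_le (B : Bs x x' a a') {s c : ℝ} {P : ℤ} (hP0 : (0 : ℝ) < (P : ℝ) / 1000)
    (hP1 : (P : ℝ) / 1000 ≤ 1) (h : a + a' ≤ s) (hs : s ≤ 1) (hc : c ≤ Real.cos (π * (s / 2)))
    (hP : 1 - (P : ℝ) / 1000 ≤ (1 + (P : ℝ) / 1000) * c) :
    gh a + gh a' ≤ Real.log ((P : ℝ) / 1000) :=
  gh_sum_of_sum ⟨B.a0, by linarith only [B, B.a5]⟩ ⟨B.a0', by linarith only [B, B.sa, B.a0]⟩ h hs hc hP0 hP1 hP

theorem real_ring {C : Cl} (D : RD .ring C x x' a a' t t') :
    Up x x' a a' t t' ∧ Dn x x' a a' t t' := by
  have D' := D
  obtain ⟨bs, ok, f, f', c, c', r0, r1, r0', r1', w0, w1, w2, w3, t11, p1, p2, sz⟩ := D'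
  have hx := bs.x5
  have ha := bs.a5
  have hG : okG 160 214 (-12060) = true := by decide +kernel
  cases C
  case one => exact real_ring_one D
  case two =>
    simp only [fz, cz, rz, SR.cw] at *
    push_cast at *
    have hP : gh a + gh a' ≤ Real.log (((462 : ℤ) : ℝ) / 1000) := by
      refine bs.P462 ?_
      linarith only [r1, r1']
    refine ⟨up_S bs (s14 (abs_le' (by linarith only [w0]) (by linarith only [w1])) (by linarith only [w0]) (by linarith only [w2])) (by push_cast; linarith only [r0]) (by push_cast; linarith only [c]) (by push_cast; linarith only [r0']) (by push_cast; linarith only [f']) (by push_cast; linarith only [r1']) (by push_cast; linarith only [c']), ?_⟩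
    rcases le_total t (110 / 1000) with hc | hc
    · exact dn_Z bs hG (l7a (abs_le' (by linarith only [w0]) (by linarith only [hc])) (by linarith only [w0]) (by linarith only [w2])) (by norm_num) hP (by push_cast; linarith only [f]) (by push_cast; linarith only [r0]) (by push_cast; linarith only [r1]) (by push_cast; linarith only [r0']) (by push_cast; linarith only [f']) (by push_cast; linarith only [r1']) (by push_cast; linarith only [c'])
    rcases le_total t (125 / 1000) with hd | hd
    · exact dn_Z bs hG (l7b (abs_le' (by linarith only [hc]) (by linarith only [hd])) (by linarith only [hc]) (by linarith only [w3, hc])) (by norm_num) hP (by push_cast; linarith only [f]) (by push_cast; linarith only [r0]) (by push_cast; linarith only [r1]) (by push_cast; linarith only [r0']) (by push_cast; linarith only [f']) (by push_cast; linarith only [r1']) (by push_cast; linarith only [c'])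
    rcases le_total t (135 / 1000) with he | he
    · exact dn_Z bs hG (l7c (abs_le' (by linarith only [hd]) (by linarith only [he])) (by linarith only [hd]) (by linarith only [w3, hd])) (by norm_num) hP (by push_cast; linarith only [f]) (by push_cast; linarith only [r0]) (by push_cast; linarith only [r1]) (by push_cast; linarith only [r0']) (by push_cast; linarith only [f']) (by push_cast; linarith only [r1']) (by push_cast; linarith only [c'])
    · exact dn_Z bs hG (l7d (abs_le' (by linarith only [he]) (by linarith only [w1])) (by linarith only [he]) (by linarith only [w3, he])) (by norm_num) hP (by push_cast; linarith only [f]) (by push_cast; linarith only [r0]) (by push_cast; linarith only [r1]) (by push_cast; linarith only [r0']) (by push_cast; linarith only [f']) (by push_cast; linarith only [r1']) (by push_cast; linarith only [c'])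
  case twoE =>
    simp only [fz, cz, rz, SR.cw] at *
    push_cast at *
    have hP : gh a + gh a' ≤ Real.log (((462 : ℤ) : ℝ) / 1000) := by
      refine bs.P462 ?_
      linarith only [r1, r1']
    refine ⟨up_S bs (s15 (abs_le' (by linarith only [w0]) (by linarith only [w1])) (by linarith only [w0]) (by linarith only [w2])) (by push_cast; linarith only [r0]) (by push_cast; linarith only [c]) (by push_cast; linarith only [r0']) (by push_cast; linarith only [f']) (by push_cast; linarith only [r1']) (by push_cast; linarith only [c']), ?_⟩
    rcases le_total t (125 / 1000) with hc | hc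
    · exact dn_Z bs hG (l8a (abs_le' (by linarith only [w0]) (by linarith only [hc])) (by linarith only [w0]) (by linarith only [w2])) (by norm_num) hP (by push_cast; linarith only [f]) (by push_cast; linarith only [r0]) (by push_cast; linarith only [r1]) (by push_cast; linarith only [r0']) (by push_cast; linarith only [f']) (by push_cast; linarith only [r1']) (by push_cast; linarith only [c'])
    rcases le_total t (142 / 1000) with hd | hd
    · exact dn_Z bs hG (l8b (abs_le' (by linarith only [hc]) (by linarith only [hd])) (by linarith only [hc]) (by linarith only [w2])) (by norm_num) hP (by push_cast; linarith only [f]) (by push_cast; linarith only [r0]) (by push_cast; linarith only [r1]) (by push_cast; linarith only [r0']) (by push_cast; linarith only [f']) (by push_cast; linarith only [r1']) (by push_cast; linarith only [c'])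
    · exact dn_Z bs hG (l8c (abs_le' (by linarith only [hd]) (by linarith only [w1])) (by linarith only [hd]) (by linarith only [w3, hd])) (by norm_num) hP (by push_cast; linarith only [f]) (by push_cast; linarith only [r0]) (by push_cast; linarith only [r1]) (by push_cast; linarith only [r0']) (by push_cast; linarith only [f']) (by push_cast; linarith only [r1']) (by push_cast; linarith only [c'])
  all_goals exact absurd ok (by simp [ML.okp])

/-- **Level push of a digit `1`, all types of neighbours.** -/
theorem real_push {B C : Cl} (D : RD B C x x' a a' t t') :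
    Up x x' a a' t t' ∧ Dn x x' a a' t t' := by
  cases B
  · exact real_one D
  · exact real_two D
  · exact real_twoE D
  · exact real_three D
  · exact real_threeE D
  · exact real_ring D

end MQ

end Pool.Agent.Work.MP_b30479_gt.G2
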