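import Pool.Agent.Work.MP_b30479_gt.G2.MQB
import Pool.Agent.Work.MP_b30479_gt.G2.MLA
import Pool.Agent.Work.MP_b30479_gt.G2.MPSide

/-!
# Flat parts: sums of the two sides at slope `0`, real inequalities

Sides of digits `1`, `2`, `2` at an end.
-/

namespace Pool.Agent.Work.MP_b30479_gt.G2

open Real Set VOL NumI NumI.E

namespace MQ

variable {x v v' t k r s z : ℝ}

theorem LLlv (h0 : 0 < x) (h1 : x < 1) (t : ℝ) :
    LL (lv x t) = Real.log (4 * (sin (π * x) ^ 2 + sinh (π * t) ^ 2)) / 2 := by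
  rw [LL_lv t h0 h1]
  rfl

theorem LL_ge_sin (h0 : 0 < x) (h1 : x < 1) (t : ℝ) : Real.log (2 * sin (π * x)) ≤ LL (lv x t) := by
  have hs := sin_pi_pos h0 h1
  rw [LLlv h0 h1]
  have e : Real.log (2 * sin (π * x)) = Real.log ((2 * sin (π * x)) ^ 2) / 2 := by
    rw [Real.log_pow]; push_cast; ring
  rw [e]
  have : Real.log ((2 * sin (π * x)) ^ 2) ≤ Real.log (4 * (sin (π * x) ^ 2 + sinh (π * t) ^ 2)) := by
    apply Real.log_le_log (by positivity)
    nlinarith only [sq_nonneg (sinh (π * t))]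
  linarith only [this]

theorem LL_le_of {A H : ℝ} (h0 : 0 < x) (h1 : x < 1) (hA : sin (π * x) ^ 2 ≤ A)
    (hH : sinh (π * t) ^ 2 ≤ H) : LL (lv x t) ≤ Real.log (4 * (A + H)) / 2 := by
  have hs := sin_pi_pos h0 h1
  rw [LLlv h0 h1]
  have : Real.log (4 * (sin (π * x) ^ 2 + sinh (π * t) ^ 2)) ≤ Real.log (4 * (A + H)) := by
    apply Real.log_le_log (by positivity)
    linarith only [hA, hH]
  linarith only [this]

theorem LL_le_exp (h0 : 0 < x) (h1 : x < 1) (t : ℝ) :
    LL (lv x t) ≤ Real.log (exp (π * t) + exp (-(π * t))) := by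
  have hs := sin_pi_pos h0 h1
  rw [LLlv h0 h1]
  have e0 : 0 < exp (π * t) + exp (-(π * t)) := by positivity
  have e : Real.log (exp (π * t) + exp (-(π * t))) =
      Real.log ((exp (π * t) + exp (-(π * t))) ^ 2) / 2 := by
    rw [Real.log_pow]; push_cast; ring
  rw [e]
  have : Real.log (4 * (sin (π * x) ^ 2 + sinh (π * t) ^ 2)) ≤
      Real.log ((exp (π * t) + exp (-(π * t))) ^ 2) := by
    apply Real.log_le_log (by positivity)
    have h2 : exp (π * t) + exp (-(π * t)) = 2 * cosh (π * t) := by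
      rw [Real.cosh_eq]; ring
    rw [h2]
    have h3 := Real.cosh_sq (π * t)
    have h4 := Real.sin_sq_le_one (π * x)
    nlinarith only [h3, h4]
  linarith only [this]

theorem sinh_sq_le' {a H : ℝ} (h0 : |t| ≤ a) (h : sinh (π * a) ^ 2 ≤ H) : sinh (π * t) ^ 2 ≤ H := by
  rw [sinh_sq_abs t]
  exact (sinh_sq_le (abs_nonneg t) h0).trans h

theorem sum_pos {κ A B c : ℝ} (hB : 0 < B) (hc : exp (-κ) ≤ c) (h : c * B < A) :
    0 < κ + Real.log A - Real.log B := by
  have hc0 : 0 < c := (exp_pos _).trans_le hc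
  have h1 : Real.log (c * B) < Real.log A := Real.log_lt_log (by positivity) h
  rw [Real.log_mul hc0.ne' hB.ne'] at h1
  have h2 : -κ ≤ Real.log c := by
    rw [Real.le_log_iff_exp_le hc0]
    exact hc
  linarith only [h1, h2]

/-- `exp (π a) ≤ c` from a numerical check -/
theorem exp_le {n c : ℤ} {d e : ℕ} (h : chk [sub (q c e) (E.exp (mul pi (q n d)))] 1 [] = true)
    {κ : ℝ} (hκ : -κ ≤ π * ((n : ℝ) / d)) : exp (-κ) ≤ (c : ℝ) / e := by
  have h6 := chk0 h
  simp only [val] at h6
  exact (exp_le_exp.2 hκ).trans (by linarith only [h6])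

theorem sinh_le_c {n c : ℤ} {d e : ℕ}
    (h : chk [sub (q c e) (sq (E.sinh (mul pi (q n d))))] 1 [] = true) :
    sinh (π * ((n : ℝ) / d)) ^ 2 ≤ (c : ℝ) / e := by
  have h6 := chk0 h
  simp only [val] at h6
  linarith only [h6]

/-! ### lower bounds on the flat parts -/

/-- variables `x`, `v`, `v'` -/
def eA (c H : ℤ) : E :=
  sub (mul (sinPi (add (var 0) (var 1))) (sinPi (add (var 0) (var 2))))
    (mul (q c 10000) (add (sq (sinPi (var 0))) (q H 10000)))

/-- variables `x`, `v` -/
def eB (c H : ℤ) : E :=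
  sub (sinPi (add (var 0) (var 1))) (mul (q c 10000) (add (sq (sinPi (var 0))) (q H 10000)))

theorem cA : runT [[eA 10820 600]] (.z .a .a)
    [V.of 100 15 19 4, V.of 100 16 36 4, V.of 100 13 60 4] = true := by decide +kernel

theorem cB : runT [[eB 18730 373]] .a [V.of 100 14 20 4, V.of 100 13 51 4] = true := by
  decide +kernel

theorem cB' : runT [[eB 22540 507]] .a [V.of 100 14 15 4, V.of 100 15 64 4] = true := by
  decide +kernel

/-- **`1 | 1` next to a ring, `x ≤ .19`.** -/
theorem flat_11Z (hx0 : 15 / 100 ≤ x) (hx1 : x ≤ 19 / 100) (hv0 : 16 / 100 ≤ v)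
    (hv1 : v ≤ 36 / 100) (hv0' : 13 / 100 ≤ v') (hv1' : v' ≤ 60 / 100) (ht : |t| ≤ 77 / 1000)
    (hk : -(25 / 1000) ≤ k + r) :
    0 < π * k + LL (lv (x + v) (t + k)) - LL (lv x t) +
      (π * r + LL (lv (x + v') (-t + r)) - LL (lv x (-t))) := by
  obtain ⟨c, hc, hpos⟩ := runT3 cA (by norm_num) (x := x) (y := v) (z := v') (by push_cast; linarith only [hx0])
    (by push_cast; linarith only [hx1]) (by push_cast; linarith only [hv0]) (by push_cast; linarith only [hv1])
    (by push_cast; linarith only [hv0']) (by push_cast; linarith only [hv1'])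
  simp only [List.mem_cons, List.not_mem_nil, or_false] at hc
  subst hc
  have h1 := hpos _ List.mem_cons_self
  simp only [eA, val, lkR_zero, lkR_succ] at h1
  push_cast at h1
  have hp := pi_pos
  have hH : sinh (π * t) ^ 2 ≤ 600 / 10000 := by
    have h2 := sinh_le_c (n := 77) (c := 600) (d := 1000) (e := 10000) (by decide +kernel)
    push_cast at h2
    exact sinh_sq_le' ht h2
  have hE : exp (-(π * (k + r))) ≤ 10820 / 10000 := by
    have := exp_le (n := 25) (c := 10820) (d := 1000) (e := 10000) (by decide +kernel)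
      (κ := π * (k + r)) (by push_cast; nlinarith only [hk, hp])
    push_cast at this
    exact this
  have s1 := sin_pi_pos (u := x + v) (by linarith only [hx0, hv0]) (by linarith only [hx1, hv1])
  have s2 := sin_pi_pos (u := x + v') (by linarith only [hx0, hv0']) (by linarith only [hx1, hv1'])
  have s3 := sin_pi_pos (u := x) (by linarith only [hx0]) (by linarith only [hx1])
  have key := sum_pos (κ := π * (k + r)) (A := sin (π * (x + v)) * sin (π * (x + v')))
    (B := sin (π * x) ^ 2 + sinh (π * t) ^ 2) (by positivity) hE (by nlinarith only [h1, hH])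
  have g1 := LL_ge_sin (x := x + v) (by linarith only [hx0, hv0]) (by linarith only [hx1, hv1]) (t + k)
  have g2 := LL_ge_sin (x := x + v') (by linarith only [hx0, hv0']) (by linarith only [hx1, hv1']) (-t + r)
  have g3 := LLlv (x := x) (by linarith only [hx0]) (by linarith only [hx1]) t
  have g4 := LLlv (x := x) (by linarith only [hx0]) (by linarith only [hx1]) (-t)
  have e1 : sinh (π * -t) ^ 2 = sinh (π * t) ^ 2 := by rw [mul_neg, sinh_neg, neg_sq]
  rw [e1] at g4
  have hB : 0 < sin (π * x) ^ 2 + sinh (π * t) ^ 2 := by positivity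
  rw [Real.log_mul (by norm_num) hB.ne'] at g3 g4
  rw [Real.log_mul (by norm_num) s1.ne'] at g1
  rw [Real.log_mul (by norm_num) s2.ne'] at g2
  rw [Real.log_mul s1.ne' s2.ne'] at key
  have e4 : Real.log 4 = 2 * Real.log 2 := by
    rw [show (4 : ℝ) = 2 ^ 2 by norm_num, Real.log_pow]; push_cast; ring
  rw [e4] at g3 g4
  rw [g3, g4]
  linarith only [key, g1, g2]

/-- the side of a `2` at an end and of the digit `1` next to it -/
theorem flat_E_core {c H : ℝ} (hx0 : 0 < x) (hv : 0 < v) (hs : x + v < 1)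
    (hH : sinh (π * t) ^ 2 ≤ H) (hE : exp (-(π * (t + k))) ≤ c)
    (h : 2 * c * (sin (π * x) ^ 2 + H) < sin (π * (x + v))) :
    0 < π * k + LL (lv (x + v) (t + k)) - LL (lv x t) + (-(π * -t) - LL (lv x (-t))) := by
  have s1 := sin_pi_pos (u := x + v) (by linarith only [hx0, hv]) hs
  have s3 := sin_pi_pos (u := x) hx0 (by linarith only [hv, hs])
  have hc : 0 < c := (exp_pos _).trans_le hE
  have hB : 0 < sin (π * x) ^ 2 + sinh (π * t) ^ 2 := by positivity
  have key := sum_pos (κ := π * (t + k)) (A := sin (π * (x + v)))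
    (B := 2 * (sin (π * x) ^ 2 + sinh (π * t) ^ 2)) (by positivity) hE (by
      have : c * (2 * (sin (π * x) ^ 2 + sinh (π * t) ^ 2)) ≤ 2 * c * (sin (π * x) ^ 2 + H) := by
        have := mul_le_mul_of_nonneg_left hH hc.le
        linarith only [this]
      linarith only [h, this])
  have g1 := LL_ge_sin (x := x + v) (by linarith only [hx0, hv]) hs (t + k)
  have g3 := LLlv (x := x) hx0 (by linarith only [hv, hs]) t
  have g4 := LLlv (x := x) hx0 (by linarith only [hv, hs]) (-t)
  have e1 : sinh (π * -t) ^ 2 = sinh (π * t) ^ 2 := by rw [mul_neg, sinh_neg, neg_sq]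
  rw [e1] at g4
  rw [Real.log_mul (by norm_num) hB.ne'] at g3 g4 key
  rw [Real.log_mul (by norm_num) s1.ne'] at g1
  have e4 : Real.log 4 = 2 * Real.log 2 := by
    rw [show (4 : ℝ) = 2 ^ 2 by norm_num, Real.log_pow]; push_cast; ring
  rw [e4] at g3 g4
  rw [g3, g4]
  linarith only [key, g1]

/-- **`1 | 2` at an end, other neighbour not a `1`, `x ≤ .20`.** -/
theorem flat_E (hx0 : 14 / 100 ≤ x) (hx1 : x ≤ 20 / 100) (hv0 : 13 / 100 ≤ v)
    (hv1 : v ≤ 51 / 100) (ht : |t| ≤ 61 / 1000) (hk : 21 / 1000 ≤ t + k) :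
    0 < π * k + LL (lv (x + v) (t + k)) - LL (lv x t) + (-(π * -t) - LL (lv x (-t))) := by
  obtain ⟨c, hc, hpos⟩ := runT2 cB (by norm_num) (x := x) (y := v) (by push_cast; linarith only [hx0])
    (by push_cast; linarith only [hx1]) (by push_cast; linarith only [hv0]) (by push_cast; linarith only [hv1])
  simp only [List.mem_cons, List.not_mem_nil, or_false] at hc
  subst hc
  have h1 := hpos _ List.mem_cons_self
  simp only [eB, val, lkR_zero, lkR_succ] at h1
  push_cast at h1
  have hp := pi_pos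
  have h2 := sinh_le_c (n := 61) (c := 373) (d := 1000) (e := 10000) (by decide +kernel)
  have h3 := exp_le (n := -21) (c := 9365) (d := 1000) (e := 10000) (by decide +kernel)
      (κ := π * (t + k)) (by push_cast; nlinarith only [hk, hp])
  push_cast at h2 h3
  exact flat_E_core (c := 9365 / 10000) (H := 373 / 10000) (by linarith only [hx0]) (by linarith only [hv0])
    (by linarith only [hx1, hv1]) (sinh_sq_le' ht h2) h3 (by linarith only [h1])

/-- **`1 | 2` at an end, other neighbour a `1`, `x ≤ .15`.** -/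
theorem flat_E1 (hx0 : 14 / 100 ≤ x) (hx1 : x ≤ 15 / 100) (hv0 : 15 / 100 ≤ v)
    (hv1 : v ≤ 64 / 100) (ht : |t| ≤ 71 / 1000) (hk : -(38 / 1000) ≤ t + k) :
    0 < π * k + LL (lv (x + v) (t + k)) - LL (lv x t) + (-(π * -t) - LL (lv x (-t))) := by
  obtain ⟨c, hc, hpos⟩ := runT2 cB' (by norm_num) (x := x) (y := v) (by push_cast; linarith only [hx0])
    (by push_cast; linarith only [hx1]) (by push_cast; linarith only [hv0]) (by push_cast; linarith only [hv1])
  simp only [List.mem_cons, List.not_mem_nil, or_false] at hc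
  subst hc
  have h1 := hpos _ List.mem_cons_self
  simp only [eB, val, lkR_zero, lkR_succ] at h1
  push_cast at h1
  have hp := pi_pos
  have h2 := sinh_le_c (n := 71) (c := 507) (d := 1000) (e := 10000) (by decide +kernel)
  have h3 := exp_le (n := 38) (c := 11270) (d := 1000) (e := 10000) (by decide +kernel)
      (κ := π * (t + k)) (by push_cast; nlinarith only [hk, hp])
  push_cast at h2 h3
  exact flat_E_core (c := 11270 / 10000) (H := 507 / 10000) (by linarith only [hx0]) (by linarith only [hv0])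
    (by linarith only [hx1, hv1]) (sinh_sq_le' ht h2) h3 (by linarith only [h1])

/-! ### sums -/

theorem sin_sq_le_955 (h0 : 90 / 100 ≤ s) (h1 : s ≤ 1) : sin (π * s) ^ 2 ≤ 955 / 10000 := by
  have hp := pi_pos
  have h2 : sin (π * s) = sin (π * (1 - s)) := by
    rw [show π * (1 - s) = π - π * s by ring, sin_pi_sub]
  have h3 : 0 ≤ sin (π * (1 - s)) := sin_nonneg_of_nonneg_of_le_pi (by nlinarith only [h1, hp]) (by nlinarith only [hp, h0])
  have h4 : sin (π * (1 - s)) ≤ sin (π * (1 / 10)) :=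
    sin_le_sin_of_le_of_le_pi_div_two (by nlinarith only [hp, h1]) (by nlinarith only [hp]) (by nlinarith only [h0, hp])
  have h5 := chk0 (e := sub (q 955 10000) (sq (sinPi (q 1 10)))) (by decide +kernel)
  simp only [val] at h5
  push_cast at h5
  rw [h2]
  nlinarith only [h5, h3, h4]

/-- `sin` is large between `.45` and `x1` -/
theorem sin_ge_of {x1 c : ℝ} (h0 : 45 / 100 ≤ x) (h1 : x ≤ x1) (hx1 : x1 ≤ 1)
    (h2 : c ≤ sin (π * (45 / 100))) (h3 : c ≤ sin (π * x1)) : c ≤ sin (π * x) := by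
  have hp := pi_pos
  rcases le_total x (1 / 2) with h | h
  · exact h2.trans (sin_le_sin_of_le_of_le_pi_div_two (by nlinarith only [hp]) (by nlinarith only [hp, h]) (by nlinarith only [h0, hp]))
  · have e : ∀ y, sin (π * y) = sin (π * (1 - y)) := fun y => by
      rw [show π * (1 - y) = π - π * y by ring, sin_pi_sub]
    rw [e x]
    rw [e x1] at h3
    exact h3.trans (sin_le_sin_of_le_of_le_pi_div_two (by nlinarith only [hp, hx1]) (by nlinarith only [hp, h]) (by nlinarith only [h1, hp]))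

/-- core of the sum rows at a hinge `1 | 1` -/
theorem flat_sum_core {H1 H2 c1 S4 : ℝ} (hx0 : 0 < x) (hx1 : x < 1) (hs0 : 90 / 100 ≤ x + v)
    (hs1 : x + v < 1) (hv' : 0 < v') (hs' : x + v' < 1)
    (hc : k + r ≤ c1) (hH1 : sinh (π * (t + k)) ^ 2 ≤ H1) (hH2 : sinh (π * (-t + r)) ^ 2 ≤ H2)
    (hS : S4 ≤ sin (π * x)) (hS0 : 0 < S4)
    (hnum : Real.exp (2 * (π * c1)) * ((955 / 10000 + H1) * (1 + H2)) < (S4 ^ 2) ^ 2) :
    π * k + LL (lv (x + v) (t + k)) - LL (lv x t) +
      (π * r + LL (lv (x + v') (-t + r)) - LL (lv x (-t))) < 0 := by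
  have hp := pi_pos
  have hH1' : 0 ≤ H1 := (sq_nonneg _).trans hH1
  have hH2' : 0 ≤ H2 := (sq_nonneg _).trans hH2
  have g1 := LL_le_of (x := x + v) (by linarith only [hs0, hs1]) hs1 (sin_sq_le_955 hs0 hs1.le) hH1
  have g2 := LL_le_of (x := x + v') (by linarith only [hx0, hv']) hs' (Real.sin_sq_le_one _) hH2
  have g3 := LL_ge_sin (x := x) hx0 hx1 t
  have g4 := LL_ge_sin (x := x) hx0 hx1 (-t)
  have g5 : Real.log (2 * S4) ≤ Real.log (2 * sin (π * x)) :=
    Real.log_le_log (by positivity) (by linarith only [hS])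
  have hn := Real.log_lt_log (by positivity) hnum
  rw [Real.log_mul (exp_pos _).ne' (by positivity), Real.log_exp, Real.log_mul (by positivity)
    (by positivity), Real.log_pow, Real.log_pow] at hn
  rw [Real.log_mul (by norm_num) (by positivity)] at g1 g2 g5
  have e4 : Real.log 4 = 2 * Real.log 2 := by
    rw [show (4 : ℝ) = 2 ^ 2 by norm_num, Real.log_pow]; push_cast; ring
  rw [e4] at g1 g2
  push_cast at hn
  have h9 : π * (k + r) ≤ π * c1 := mul_le_mul_of_nonneg_left hc hp.le
  linarith only [g1, g2, g3, g4, g5, hn, h9]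

/-- numerical check of a sum row: `c1`, `a1`, `b1` in thousandths, `x1` in hundredths -/
def okF (c1 a1 b1 x1 : ℤ) : Bool :=
  chk [sub (sq (sq (sinPi (q x1 100))))
    (mul (E.exp (mul (q 2 1) (mul pi (q c1 1000))))
      (mul (add (q 955 10000) (sq (E.sinh (mul pi (q a1 1000)))))
        (add (q 1 1) (sq (E.sinh (mul pi (q b1 1000)))))))] 1 [] &&
  chk [sub (sinPi (q 45 100)) (sinPi (q x1 100))] 1 []

theorem flat_sum {c1 a1 b1 x1 : ℤ} (hok : okF c1 a1 b1 x1 = true) (hx0 : 45 / 100 ≤ x)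
    (hx1 : x ≤ (x1 : ℝ) / 100) (hx2 : (x1 : ℝ) / 100 ≤ 1 - 1 / 100) (hs0 : 90 / 100 ≤ x + v)
    (hs1 : x + v < 1) (hv' : 0 < v') (hs' : x + v' < 1) (hc : k + r ≤ (c1 : ℝ) / 1000)
    (ha : |t + k| ≤ (a1 : ℝ) / 1000) (hb : |-t + r| ≤ (b1 : ℝ) / 1000) :
    π * k + LL (lv (x + v) (t + k)) - LL (lv x t) +
      (π * r + LL (lv (x + v') (-t + r)) - LL (lv x (-t))) < 0 := by
  simp only [okF, Bool.and_eq_true] at hok
  have h1 := chk0 hok.1
  have h2 := chk0 hok.2
  simp only [val] at h1 h2
  push_cast at h1 h2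
  have hpos : 0 < sin (π * ((x1 : ℝ) / 100)) := sin_pi_pos (by linarith only [hx0, hx1, hs0, hs1]) (by linarith only [hx2, hs0, hs1])
  exact flat_sum_core (c1 := (c1 : ℝ) / 1000) (S4 := sin (π * ((x1 : ℝ) / 100))) (by linarith only [hx0, hs0, hs1])
    (by linarith only [hx1, hx2, hs0, hs1]) hs0 hs1 hv' hs' hc (sinh_sq_le' ha le_rfl) (sinh_sq_le' hb le_rfl)
    (sin_ge_of hx0 hx1 (by linarith only [hx2, hs0, hs1]) (by linarith only [h2]) le_rfl) hpos (by linarith only [h1])

/-- one of the outer neighbours is a digit `1` -/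
theorem okF_X : okF 118 144 144 60 = true := by decide +kernel

/-- no outer neighbour is a digit `1` -/
theorem okF_Y : okF 172 102 102 64 = true := by decide +kernel

/-- the sum at a hinge `1 | 2` -/
theorem flat_sum_two (hx0 : 45 / 100 ≤ x) (hx1 : x ≤ 51 / 100) (hs0 : 90 / 100 ≤ x + v)
    (hs1 : x + v < 1) (hv' : 0 < v') (hs' : x + v' < 1) (hS : |t + k| ≤ 148 / 1000)
    (ht0 : -(18 / 1000) ≤ t) (ht1 : t ≤ 79 / 1000) (hr : r ≤ 96 / 1000) :
    π * k + LL (lv (x + v) (t + k)) - LL (lv x t) +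
      (π * (r - -t) + LL (lv (x + v') (-t + r)) - 2 * LL (lv x (-t))) < 0 := by
  have hp := pi_pos
  have g1 := LL_le_of (x := x + v) (H := Real.sinh (π * (148 / 1000)) ^ 2) (by linarith only [hs0, hs1]) hs1
    (sin_sq_le_955 hs0 hs1.le) (sinh_sq_le' hS le_rfl)
  have g2 := LL_le_exp (x := x + v') (by linarith only [hx0, hs0, hs1, hv']) hs' (-t + r)
  have g3 := LL_ge_sin (x := x) (by linarith only [hx0, hs0, hs1]) (by linarith only [hx1, hs0, hs1]) t
  have g4 := LL_ge_sin (x := x) (by linarith only [hx0, hs0, hs1]) (by linarith only [hx1, hs0, hs1]) (-t)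
  -- `π r + log (e^(π z) + e^(-π z)) ≤ log G`, `z = r - t`
  have h1 := chk0 (e := sub (q 322 100) (add (E.exp (mul pi (q 210 1000)))
    (E.exp (mul pi (q 79 1000))))) (by decide +kernel)
  simp only [val] at h1
  push_cast at h1
  have h2 : π * r + Real.log (Real.exp (π * (-t + r)) + Real.exp (-(π * (-t + r)))) ≤
      Real.log (322 / 100) := by
    have e1 : π * r = Real.log (Real.exp (π * r)) := (Real.log_exp _).symm
    nth_rewrite 1 [e1]
    rw [← Real.log_mul (exp_pos _).ne' (by positivity)]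
    apply Real.log_le_log (by positivity)
    rw [mul_add, ← Real.exp_add, ← Real.exp_add]
    have k1 : Real.exp (π * r + π * (-t + r)) ≤ Real.exp (π * (210 / 1000)) := by
      apply Real.exp_le_exp.2
      nlinarith only [hs0, hs1, ht0, hp, hr]
    have k2 : Real.exp (π * r + -(π * (-t + r))) ≤ Real.exp (π * (79 / 1000)) := by
      apply Real.exp_le_exp.2
      nlinarith only [hs0, hs1, ht1, hp]
    linarith only [h1, k1, k2]
  have h3 := chk0 (e := sub (mul (q 3 2) (E.log (mul (q 4 1) (q 9755 10000))))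
    (add (mul pi (q 148 1000)) (add (mul (q 1 2) (E.log (mul (q 4 1) (add (q 955 10000)
      (sq (E.sinh (mul pi (q 148 1000)))))))) (E.log (q 322 100))))) (by decide +kernel)
  simp only [val] at h3
  push_cast at h3
  have h4 : Real.log (4 * (9755 / 10000)) / 2 ≤ Real.log (2 * sin (π * x)) := by
    have a1 := chk0 (e := sub (sq (sinPi (q 45 100))) (q 9755 10000)) (by decide +kernel)
    have a2 := chk0 (e := sub (sinPi (q 51 100)) (sinPi (q 45 100))) (by decide +kernel)
    simp only [val] at a1 a2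
    push_cast at a1 a2
    have a3 : sin (π * (45 / 100)) ≤ sin (π * x) := sin_ge_of hx0 hx1 (by norm_num) le_rfl (by linarith only [a2])
    have a4 : 0 < sin (π * (45 / 100)) := sin_pi_pos (by norm_num) (by norm_num)
    have e : Real.log (2 * sin (π * x)) = Real.log ((2 * sin (π * x)) ^ 2) / 2 := by
      rw [Real.log_pow]; push_cast; ring
    rw [e]
    have : Real.log (4 * (9755 / 10000)) ≤ Real.log ((2 * sin (π * x)) ^ 2) := by
      apply Real.log_le_log (by positivity)
      nlinarith only [hs0, a1, hs1, a3, a4]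
    linarith only [this]
  have h5 : π * (t + k) ≤ π * (148 / 1000) :=
    mul_le_mul_of_nonneg_left ((le_abs_self _).trans hS) hp.le
  linarith only [g1, g2, g3, g4, h2, h3, h4, h5]

end MQ

end Pool.Agent.Work.MP_b30479_gt.G2
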