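import Pool.Agent.Work.MP_b30479_gt.G2.MQF
import Pool.Agent.Work.MP_b30479_gt.G2.MQD
import Pool.Agent.Work.MP_b30479_gt.G2.WLocS

/-!
# The push of a digit `1`, below `1/2`
-/

namespace Pool.Agent.Work.MP_b30479_gt.G2

open Finset VOL Filter Topology

namespace SR

open ML

variable {M : ℕ} {b : Fin (M + 1) → ℤ} {zs : DD (tyW b) ⊕ ZZ (tyW b) → ℂ}
variable {y : DD (tyW b) ⊕ ZZ (tyW b) → ℝ}
variable {h h' h'' : Fin M} {i j j' l : Fin (M + 1)} {p : Fin 3}

theorem fz_le_clz (p : Fin 3) (B C : Cl) (h1 : ¬ (B = .one ∧ C = .ring))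
    (h2 : B = .twoE → C = .twoE) : (MQ.fz B C : ℝ) / 1000 ≤ (clz (k7 p B) : ℝ) / 1000 := by
  cases B <;> cases C <;> first
    | exact absurd ⟨rfl, rfl⟩ h1
    | exact absurd (h2 rfl) (by decide)
    | (simp only [MQ.fz, k7]; (try split_ifs) <;> simp only [clz] <;> norm_num)

/-- the floors of the hinges of a digit `1` -/
theorem Adj.fz_le (A : Adj h i p j) (A' : Adj h' i p.rev j') (hb : ClassW b) (hX : LocX b zs)
    (hP : LocP b zs) (hy : Mx b zs y) (hf : Flat b y) (hc : clsW b i = .one)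
    (h64 : clsW b j' = .one → y (.inl (.inl h')) ≤ 64 / 100) :
    (MQ.fz (clsW b j) (clsW b j') : ℝ) / 1000 ≤ y (.inl (.inl h)) := by
  by_cases h1 : clsW b j = .one ∧ clsW b j' = .ring
  · have := flat_ring_one hb hP hy hf A A' hc h1.1 h1.2
    rw [h1.1, h1.2]
    simp only [MQ.fz]
    push_cast
    exact this
  by_cases h2 : clsW b j = .twoE → clsW b j' = .twoE
  · exact (fz_le_clz p _ _ h1 h2).trans (A.clf hf hc)
  · push Not at h2
    obtain ⟨h2, h3⟩ := h2
    by_cases h4 : clsW b j' = .one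
    · have := flat_twoE_one hb hP hy hf A A' hc h2 h4 (h64 h4)
      rw [h2, h4]
      simp only [MQ.fz]
      push_cast
      exact this
    · have h5 := flat_twoE hb hX hy hf A A' hc h2 h4 h3
      rw [h2]
      refine le_trans ?_ h5
      generalize clsW b j' = C at *
      cases C <;> simp only [MQ.fz] <;> norm_num

/-- the caps of the hinges of a digit `1` -/
theorem Adj.cz_le (A : Adj h i p j) (hf : Flat b y) (hc : clsW b i = .one)
    (h64 : clsW b j = .one → y (.inl (.inl h)) ≤ 64 / 100) :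
    y (.inl (.inl h)) ≤ (MQ.cz (clsW b j) : ℝ) / 1000 := by
  by_cases h1 : clsW b j = .one
  · rw [h1]
    simp only [MQ.cz]
    push_cast
    linarith [h64 h1]
  · refine (A.fe hf hc).trans ?_
    generalize clsW b j = B at *
    cases B <;> first
      | exact absurd rfl h1
      | (simp only [SR.fe, MQ.cz]; norm_num)

theorem rz_tab (B : Cl) (s : Bool) : ((MQ.rz B).1 : ℝ) / 1000 ≤ (hbox .one B s).x0 ∧
    (hbox .one B s).x1 ≤ ((MQ.rz B).2 : ℝ) / 1000 := by
  cases B <;> simp only [MQ.rz, hbox] <;> constructor <;> norm_num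

theorem Adj.rz_box (A : Adj h i p j) (hb : ClassW b) (hL : Loc b zs) (hc : clsW b i = .one) :
    ((MQ.rz (clsW b j)).1 : ℝ) / 1000 ≤ (zs (.inl (.inl h))).re ∧
    (zs (.inl (.inl h))).re ≤ ((MQ.rz (clsW b j)).2 : ℝ) / 1000 := by
  have h1 := A.box hb hL
  rw [hc] at h1
  have h2 := rz_tab (clsW b j) (ssW b h)
  exact ⟨h2.1.trans h1.1, h1.2.1.trans h2.2⟩

theorem rz_pos (B : Cl) : (0 : ℝ) < ((MQ.rz B).1 : ℝ) / 1000 := by
  cases B <;> simp only [MQ.rz] <;> norm_num

/-- **The data of the level push of a digit `1`.** -/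
theorem Adj.rd (A : Adj h i p j) (A' : Adj h' i p.rev j') (hb : ClassW b) (hL : Loc b zs)
    (hX : LocX b zs) (hP : LocP b zs) (hS : LocS b zs) (hy : Mx b zs y) (hf : Flat b y)
    (h64 : ∀ {h : Fin M} {i j : Fin (M + 1)} {p : Fin 3}, Adj h i p j → clsW b i = .one →
      clsW b j = .one → y (.inl (.inl h)) ≤ 64 / 100)
    (hs : Sum1 b y (90 / 100)) (hc : clsW b i = .one) (h5 : y (.inl (.inl h)) ≤ 1 / 2) :
    MQ.RD (clsW b j) (clsW b j') (y (.inl (.inl h))) (y (.inl (.inl h')))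
      (zs (.inl (.inl h))).re (zs (.inl (.inl h'))).re (ofs (b i) (zs (.inl (.inl h))).im)
      (ofs (b i) (zs (.inl (.inl h'))).im) := by
  have r := A.rz_box hb hL hc
  have r' := A'.rz_box hb hL hc
  have w := hX.win A A' hc
  have w' := hX.win A' A.rr hc
  exact
    { bs :=
        { x0 := (wcl_pos h).trans_le (hf h).1
          x0' := (wcl_pos h').trans_le (hf h').1
          a0 := (rz_pos _).trans_le r.1
          a0' := (rz_pos _).trans_le r'.1
          x5 := h5
          a5 := (hL.half h).le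
          sx := hs A A' hc
          sa := hS.sum A A' hc }
      ok := okp_of hb A A' hc
      f := A.fz_le A' hb hX hP hy hf hc (h64 A' hc)
      f' := A'.fz_le A.rr hb hX hP hy hf hc (h64 A hc)
      c := A.cz_le hf hc (h64 A hc)
      c' := A'.cz_le hf hc (h64 A' hc)
      r0 := r.1
      r1 := r.2
      r0' := r'.1
      r1' := r'.2
      w0 := w.1
      w1 := w.2.1
      w2 := w.2.2.1
      w3 := w'.1
      t11 := fun hj => hX.t11 hb A hc hj
      p1 := fun hj' => by
        obtain ⟨h'', l, A''⟩ := A'.symm.other_one hb hj'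
        rw [Fin.rev_rev] at A''
        exact ⟨clsW b l, _, hP.pair A' A.rr A'' hc hj', fun hl => A'.symm.fe11 A''.rr hf hj' hc hl⟩
      p2 := fun hj => by
        obtain ⟨h'', l, A''⟩ := A.symm.other_one hb hj
        rw [Fin.rev_rev] at A''
        exact ⟨clsW b l, _, hP.pair A A' A'' hc hj⟩
      sz := fun h1 h2 => hS.sumZ A A' hc h1 h2 }

/-- **Push of a digit `1`, hinge below `1/2`.** -/
theorem Adj.push1 (A : Adj h i p j) (hb : ClassW b) (hL : Loc b zs)
    (hX : LocX b zs) (hP : LocP b zs) (hS : LocS b zs) (hy : Mx b zs y) (hf : Flat b y)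
    (h64 : ∀ {h : Fin M} {i j : Fin (M + 1)} {p : Fin 3}, Adj h i p j → clsW b i = .one →
      clsW b j = .one → y (.inl (.inl h)) ≤ 64 / 100)
    (hs : Sum1 b y (90 / 100)) (hc : clsW b i = .one) (h5 : y (.inl (.inl h)) ≤ 1 / 2) :
    Push' (tyW b) b i p p.rev (Xw b zs y i) (xx (tyW b) i zs) := by
  obtain ⟨h', j', A'⟩ := A.other_one hb hc
  obtain ⟨up, dn⟩ := MQ.real_push (A.rd A' hb hL hX hP hS hy hf h64 hs hc h5)
  apply A.push_one hb hc
  rw [A.Yw_flat hy hf, A'.Yw_flat hy hf, A.Ys_lv, A'.Ys_lv]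
  unfold PushV S1
  simp only [lv_re, lv_im, zero_mul, add_zero, one_mul]
  constructor
  · intro h1 h2
    linarith [up h1 h2]
  · intro h1 h2
    linarith [dn h1 h2]

end SR

end Pool.Agent.Work.MP_b30479_gt.G2
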