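import Pool.Agent.Work.MP_b30479_gt.G2.MQA

/-!
# Level push of a digit `1` with constant slack

The slack `μ` is constant in the gauge.  The rows are bilinear in the squares of the hyperbolic
sines of the two heights, so it is enough to check them at the four corners.
-/

namespace Pool.Agent.Work.MP_b30479_gt.G2

open Real Set VOL NumI NumI.E

namespace MQ

/-! ### the core -/

theorem k1_core_c {p q p' σ κ S T μ : ℝ} (hp : 0 < p) (hσ : 0 < σ)
    (hS : 0 ≤ S) (hT : 0 ≤ T) (h0 : q * σ - p * κ = p')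
    (h1 : 0 ≤ κ → 0 ≤ σ * (p ^ 2 * p') * (1 - κ) + p ^ 2 * q * T - (p + p') * κ * σ * S -
      μ * ((S + p ^ 2) * (T + σ ^ 2)))
    (h2 : κ < 0 → 0 ≤ σ * (p ^ 2 * p') * (1 + κ) + p ^ 2 * q * T + (p' - p) * κ * σ * S -
      μ * ((S + p ^ 2) * (T + σ ^ 2))) :
    μ + p' * |σ * κ / (T + σ ^ 2)| ≤ p * (p * q / (S + p ^ 2) - σ * κ / (T + σ ^ 2)) := by
  have hA : 0 < S + p ^ 2 := by positivity
  have hB : 0 < T + σ ^ 2 := by positivity
  have e3 : p * (p * q / (S + p ^ 2)) = p ^ 2 * q / (S + p ^ 2) := by ring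
  rcases le_or_gt 0 κ with hk | hk
  · have a1 : 0 ≤ σ * κ / (T + σ ^ 2) := by positivity
    rw [abs_of_nonneg a1]
    have h := h1 hk
    rw [mul_sub, e3, ← sub_nonneg]
    have e : p ^ 2 * q / (S + p ^ 2) - p * (σ * κ / (T + σ ^ 2)) -
        (μ + p' * (σ * κ / (T + σ ^ 2))) =
        (p ^ 2 * q * (T + σ ^ 2) - (p + p') * (σ * κ) * (S + p ^ 2) -
          μ * ((S + p ^ 2) * (T + σ ^ 2))) / ((S + p ^ 2) * (T + σ ^ 2)) := by
      field_simp
      ring
    rw [e]
    apply div_nonneg _ (by positivity)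
    have e2 : p ^ 2 * q * (T + σ ^ 2) - (p + p') * (σ * κ) * (S + p ^ 2) =
        σ * p ^ 2 * (q * σ - p * κ - p' * κ) + p ^ 2 * q * T - (p + p') * κ * σ * S := by ring
    rw [e2, h0]
    nlinarith only [h]
  · have a1 : σ * κ / (T + σ ^ 2) ≤ 0 := by
      apply div_nonpos_of_nonpos_of_nonneg
      · nlinarith only [hσ, hk]
      · positivity
    rw [abs_of_nonpos a1]
    have h := h2 hk
    rw [mul_sub, e3, ← sub_nonneg]
    have e : p ^ 2 * q / (S + p ^ 2) - p * (σ * κ / (T + σ ^ 2)) -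
        (μ + p' * -(σ * κ / (T + σ ^ 2))) =
        (p ^ 2 * q * (T + σ ^ 2) + (p' - p) * (σ * κ) * (S + p ^ 2) -
          μ * ((S + p ^ 2) * (T + σ ^ 2))) / ((S + p ^ 2) * (T + σ ^ 2)) := by
      field_simp
      ring
    rw [e]
    apply div_nonneg _ (by positivity)
    have e2 : p ^ 2 * q * (T + σ ^ 2) + (p' - p) * (σ * κ) * (S + p ^ 2) =
        σ * p ^ 2 * (q * σ - p * κ + p' * κ) + p ^ 2 * q * T + (p' - p) * κ * σ * S := by ring
    rw [e2, h0]
    nlinarith only [h]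

theorem bil_pos {a b c d s t s0 s1 t0 t1 : ℝ} (h00 : 0 < a + b * s0 + c * t0 + d * (s0 * t0))
    (h01 : 0 < a + b * s0 + c * t1 + d * (s0 * t1)) (h10 : 0 < a + b * s1 + c * t0 + d * (s1 * t0))
    (h11 : 0 < a + b * s1 + c * t1 + d * (s1 * t1)) (hs0 : s0 ≤ s) (hs1 : s ≤ s1) (ht0 : t0 ≤ t)
    (ht1 : t ≤ t1) : 0 < a + b * s + c * t + d * (s * t) := by
  have k0 := affine_pos (A := a + b * s0) (B := -(c + d * s0)) (s := t) (s0 := t0) (s1 := t1)
    (by linarith only [h00]) (by linarith only [h01]) ht0 ht1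
  have k1 := affine_pos (A := a + b * s1) (B := -(c + d * s1)) (s := t) (s0 := t0) (s1 := t1)
    (by linarith only [h10]) (by linarith only [h11]) ht0 ht1
  have k2 := affine_pos (A := a + c * t) (B := -(b + d * t)) (s := s) (s0 := s0) (s1 := s1)
    (by linarith only [k0]) (by linarith only [k1]) hs0 hs1
  linarith only [k2]

/-! ### rows -/

/-- the slack `μ - α (gh u - g)` -/
def sk (μ α g : ℤ) : E := sub (q μ 10000) (el α g)

def c1E (S T μ α g : ℤ) : E := bd (sub (f1 S T) (mul (sk μ α g) (dn S T)))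
def c2E (S T μ α g : ℤ) : E := bd (sub (f2 S T) (mul (sk μ α g) (dn S T)))

def gQ (Q : ℤ) : E :=
  sub (mul (q Q 1000) (mul (cosPi (mul (q 1 2) (var 0))) (cosPi (mul (q 1 2) (var 1)))))
    (mul (sinPi (mul (q 1 2) (var 0))) (sinPi (mul (q 1 2) (var 1))))

/-- clauses of a row with slack `μ - α (gh u - g)` -/
def cC (S0 S1 T0 T1 μ α g P Q : ℤ) : List (List E) :=
  [[sL, c1E S0 T0 μ α g, c1E S0 T1 μ α g, c1E S1 T0 μ α g, c1E S1 T1 μ α g],
    [sR, c2E S0 T0 μ α g, c2E S0 T1 μ α g, c2E S1 T0 μ α g, c2E S1 T1 μ α g],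
    [c1E S0 T0 μ α g, c1E S0 T1 μ α g, c1E S1 T0 μ α g, c1E S1 T1 μ α g,
      c2E S0 T0 μ α g, c2E S0 T1 μ α g, c2E S1 T0 μ α g, c2E S1 T1 μ α g], [gP P], [gQ Q]]

variable {S0 S1 T0 T1 μ α g P Q u0 u1 v0 v1 : ℤ} {tr : Tr} {u v t t' : ℝ}

/-- the slack -/
noncomputable def SLK (μ α g : ℤ) (u : ℝ) : ℝ :=
  (μ : ℝ) / 10000 - (α : ℝ) / 100 * (gh u - (g : ℝ) / 10000)

theorem c1E_val (S T μ α g : ℤ) : (c1E S T μ α g).val [u, v] =
    F1 u v ((T : ℝ) / 100000) ((S : ℝ) / 100000) -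
      SLK μ α g u * DN u v ((T : ℝ) / 100000) ((S : ℝ) / 100000) := by
  unfold SLK
  rw [← EL_gh]
  simp only [c1E, sk, bd, f1, el, dn, val, lkR_zero, lkR_succ, List.cons_append, List.nil_append, F1,
    DN, EL]
  push_cast
  ring_nf

theorem c2E_val (S T μ α g : ℤ) : (c2E S T μ α g).val [u, v] =
    F2 u v ((T : ℝ) / 100000) ((S : ℝ) / 100000) -
      SLK μ α g u * DN u v ((T : ℝ) / 100000) ((S : ℝ) / 100000) := by
  unfold SLK
  rw [← EL_gh]
  simp only [c2E, sk, bd, f2, el, dn, val, lkR_zero, lkR_succ, List.cons_append, List.nil_append, F2,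
    DN, EL]
  push_cast
  ring_nf

theorem gQ_neg (hu : u ∈ Ioo (0 : ℝ) 1) (hv : v ∈ Ioo (0 : ℝ) 1) (hQ : 0 < Q)
    (h : Real.log ((Q : ℝ) / 1000) ≤ gh u + gh v) : ¬ 0 < (gQ Q).val [u, v] := by
  intro hc
  have hQ' : (0 : ℝ) < (Q : ℝ) / 1000 := by
    have : (0 : ℝ) < Q := by exact_mod_cast hQ
    positivity
  simp only [gQ, val, lkR_zero, lkR_succ] at hc
  push_cast at hc
  have hpi := pi_pos
  have a1 : 0 < sin (π * (1 / 2 * u)) := sin_pi_pos (by linarith only [hu, hu.1]) (by linarith only [hu, hu.2])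
  have a2 : 0 < sin (π * (1 / 2 * v)) := sin_pi_pos (by linarith only [hv, hv.1]) (by linarith only [hv, hv.2])
  have a3 : 0 < cos (π * (1 / 2 * u)) :=
    cos_pos_of_mem_Ioo ⟨by nlinarith only [hpi, hu, hu.1], by nlinarith only [hpi, hu, hu.2]⟩
  have a4 : 0 < cos (π * (1 / 2 * v)) :=
    cos_pos_of_mem_Ioo ⟨by nlinarith only [hpi, hv, hv.1], by nlinarith only [hpi, hv, hv.2]⟩
  have e1 : gh u = Real.log (sin (π * (1 / 2 * u)) / cos (π * (1 / 2 * u))) := by
    unfold gh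
    rw [tan_eq_sin_div_cos]
    have : π * u / 2 = π * (1 / 2 * u) := by ring
    rw [this]
  have e2 : gh v = Real.log (sin (π * (1 / 2 * v)) / cos (π * (1 / 2 * v))) := by
    unfold gh
    rw [tan_eq_sin_div_cos]
    have : π * v / 2 = π * (1 / 2 * v) := by ring
    rw [this]
  rw [e1, e2, ← Real.log_mul (by positivity) (by positivity),
    Real.log_le_log_iff hQ' (by positivity), div_mul_div_comm, le_div_iff₀ (by positivity)] at h
  linarith only [h, hc]

/-- **A row with slack.** -/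
theorem row_con (h : runT (cC S0 S1 T0 T1 μ α g P Q) tr [V.of 1000 u0 u1 4, V.of 1000 v0 v1 4] = true)
    (hP0 : 0 < P) (hQ0 : 0 < Q) (a0 : (u0 : ℝ) / 1000 ≤ u) (a1 : u ≤ (u1 : ℝ) / 1000)
    (b0 : (v0 : ℝ) / 1000 ≤ v) (b1 : v ≤ (v1 : ℝ) / 1000) (hu : 0 < u)
    (hv : 0 < v) (hs : u + v < 1) (hS0 : (S0 : ℝ) / 100000 ≤ sinh (π * t) ^ 2)
    (hS1 : sinh (π * t) ^ 2 ≤ (S1 : ℝ) / 100000)
    (hT0 : (T0 : ℝ) / 100000 ≤ sinh (π * (t + t')) ^ 2)
    (hT1 : sinh (π * (t + t')) ^ 2 ≤ (T1 : ℝ) / 100000)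
    (hP : gh u + gh v ≤ Real.log ((P : ℝ) / 1000))
    (hQ : Real.log ((Q : ℝ) / 1000) ≤ gh u + gh v) :
    π * SLK μ α g u + sin (π * v) * |CC (lv u t + lv v t')| ≤
      sin (π * u) * (1 * CC (lv u t) - CC (lv u t + lv v t')) := by
  have hpi := pi_pos
  have s1 : 0 < sin (π * u) := sin_pi_pos hu (by linarith only [hv, hs])
  have s3 : 0 < sin (π * (u + v)) := sin_pi_pos (by linarith only [hu, hv]) hs
  have hb1 : (∀ S ∈ [S0, S1], ∀ T ∈ [T0, T1], 0 < (c1E S T μ α g).val [u, v]) →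
      0 < F1 u v (sinh (π * (t + t')) ^ 2) (sinh (π * t) ^ 2) -
        SLK μ α g u * DN u v (sinh (π * (t + t')) ^ 2) (sinh (π * t) ^ 2) := by
    intro hk
    have k00 := hk S0 (by simp) T0 (by simp)
    have k01 := hk S0 (by simp) T1 (by simp)
    have k10 := hk S1 (by simp) T0 (by simp)
    have k11 := hk S1 (by simp) T1 (by simp)
    rw [c1E_val] at k00 k01 k10 k11
    unfold F1 DN at *
    have := bil_pos
      (a := sin (π * (u + v)) * (sin (π * u) ^ 2 * sin (π * v)) * (1 - cos (π * (u + v))) -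
        SLK μ α g u * (sin (π * u) ^ 2 * sin (π * (u + v)) ^ 2))
      (b := -((sin (π * u) + sin (π * v)) * cos (π * (u + v)) * sin (π * (u + v))) -
        SLK μ α g u * sin (π * (u + v)) ^ 2)
      (c := sin (π * u) ^ 2 * cos (π * u) - SLK μ α g u * sin (π * u) ^ 2)
      (d := -(SLK μ α g u)) (s := sinh (π * t) ^ 2) (t := sinh (π * (t + t')) ^ 2)
      (s0 := (S0 : ℝ) / 100000) (s1 := (S1 : ℝ) / 100000) (t0 := (T0 : ℝ) / 100000)
      (t1 := (T1 : ℝ) / 100000) (by linarith only [k00]) (by linarith only [k01]) (by linarith only [k10]) (by linarith only [k11])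
      hS0 hS1 hT0 hT1
    linarith only [this]
  have hb2 : (∀ S ∈ [S0, S1], ∀ T ∈ [T0, T1], 0 < (c2E S T μ α g).val [u, v]) →
      0 < F2 u v (sinh (π * (t + t')) ^ 2) (sinh (π * t) ^ 2) -
        SLK μ α g u * DN u v (sinh (π * (t + t')) ^ 2) (sinh (π * t) ^ 2) := by
    intro hk
    have k00 := hk S0 (by simp) T0 (by simp)
    have k01 := hk S0 (by simp) T1 (by simp)
    have k10 := hk S1 (by simp) T0 (by simp)
    have k11 := hk S1 (by simp) T1 (by simp)
    rw [c2E_val] at k00 k01 k10 k11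
    unfold F2 DN at *
    have := bil_pos
      (a := sin (π * (u + v)) * (sin (π * u) ^ 2 * sin (π * v)) * (1 + cos (π * (u + v))) -
        SLK μ α g u * (sin (π * u) ^ 2 * sin (π * (u + v)) ^ 2))
      (b := (sin (π * v) - sin (π * u)) * cos (π * (u + v)) * sin (π * (u + v)) -
        SLK μ α g u * sin (π * (u + v)) ^ 2)
      (c := sin (π * u) ^ 2 * cos (π * u) - SLK μ α g u * sin (π * u) ^ 2)
      (d := -(SLK μ α g u)) (s := sinh (π * t) ^ 2) (t := sinh (π * (t + t')) ^ 2)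
      (s0 := (S0 : ℝ) / 100000) (s1 := (S1 : ℝ) / 100000) (t0 := (T0 : ℝ) / 100000)
      (t1 := (T1 : ℝ) / 100000) (by linarith only [k00]) (by linarith only [k01]) (by linarith only [k10]) (by linarith only [k11])
      hS0 hS1 hT0 hT1
    linarith only [this]
  have key : (u + v ≤ 1 / 2 → 0 < F1 u v (sinh (π * (t + t')) ^ 2) (sinh (π * t) ^ 2) -
        SLK μ α g u * DN u v (sinh (π * (t + t')) ^ 2) (sinh (π * t) ^ 2)) ∧
      (1 / 2 < u + v → 0 < F2 u v (sinh (π * (t + t')) ^ 2) (sinh (π * t) ^ 2) -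
        SLK μ α g u * DN u v (sinh (π * (t + t')) ^ 2) (sinh (π * t) ^ 2)) := by
    obtain ⟨c, hc, hpos⟩ := runT2 h (by norm_num) (x := u) (y := v) (by exact_mod_cast a0)
      (by exact_mod_cast a1) (by exact_mod_cast b0) (by exact_mod_cast b1)
    simp only [cC, List.mem_cons, List.not_mem_nil, or_false] at hc
    rcases hc with rfl | rfl | rfl | rfl | rfl
    · simp only [List.mem_cons, List.not_mem_nil, or_false, forall_eq_or_imp, forall_eq,
        sL_val] at hpos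
      obtain ⟨p0, p1, p2, p3, p4⟩ := hpos
      refine ⟨fun _ => hb1 ?_, fun h => by linarith only [p0, h]⟩
      simp only [List.mem_cons, List.not_mem_nil, or_false, forall_eq_or_imp, forall_eq]
      exact ⟨⟨p1, p2⟩, p3, p4⟩
    · simp only [List.mem_cons, List.not_mem_nil, or_false, forall_eq_or_imp, forall_eq,
        sR_val] at hpos
      obtain ⟨p0, p1, p2, p3, p4⟩ := hpos
      refine ⟨fun h => by linarith only [p0, h], fun _ => hb2 ?_⟩
      simp only [List.mem_cons, List.not_mem_nil, or_false, forall_eq_or_imp, forall_eq]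
      exact ⟨⟨p1, p2⟩, p3, p4⟩
    · simp only [List.mem_cons, List.not_mem_nil, or_false, forall_eq_or_imp, forall_eq] at hpos
      obtain ⟨p1, p2, p3, p4, p5, p6, p7, p8⟩ := hpos
      refine ⟨fun _ => hb1 ?_, fun _ => hb2 ?_⟩ <;>
        simp only [List.mem_cons, List.not_mem_nil, or_false, forall_eq_or_imp, forall_eq]
      · exact ⟨⟨p1, p2⟩, p3, p4⟩
      · exact ⟨⟨p5, p6⟩, p7, p8⟩
    · exact absurd (hpos _ List.mem_cons_self)
        (gP_neg ⟨hu, by linarith only [hv, hs]⟩ ⟨hv, by linarith only [hu, hs]⟩ hP0 hP)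
    · exact absurd (hpos _ List.mem_cons_self)
        (gQ_neg ⟨hu, by linarith only [hv, hs]⟩ ⟨hv, by linarith only [hu, hs]⟩ hQ0 hQ)
  have core := k1_core_c (p := sin (π * u)) (q := cos (π * u)) (p' := sin (π * v))
    (σ := sin (π * (u + v))) (κ := cos (π * (u + v))) (S := sinh (π * t) ^ 2)
    (T := sinh (π * (t + t')) ^ 2) (μ := SLK μ α g u) s1 s3 (sq_nonneg _) (sq_nonneg _) sin_sum
    (fun hk => by
      have := key.1 (half_of_cos_nonneg hs hk)
      unfold F1 DN at this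
      linarith only [this])
    (fun hk => by
      have := key.2 (half_of_cos_neg (by linarith only [hu, hv]) hk)
      unfold F2 DN at this
      linarith only [this])
  have e1 : CC (lv u t) = π * (sin (π * u) * cos (π * u) / (sinh (π * t) ^ 2 + sin (π * u) ^ 2)) := by
    rw [CC_eq, lv_re, lv_im]
  have e2 : CC (lv u t + lv v t') = π * (sin (π * (u + v)) * cos (π * (u + v)) /
      (sinh (π * (t + t')) ^ 2 + sin (π * (u + v)) ^ 2)) := by
    rw [lv_add, CC_eq, lv_re, lv_im]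
  rw [e1, e2, abs_mul, abs_of_pos hpi, one_mul]
  generalize sin (π * u) * cos (π * u) / (sinh (π * t) ^ 2 + sin (π * u) ^ 2) = X at *
  generalize sin (π * (u + v)) * cos (π * (u + v)) /
      (sinh (π * (t + t')) ^ 2 + sin (π * (u + v)) ^ 2) = Y at *
  have := mul_le_mul_of_nonneg_left core hpi.le
  linarith only [this]

/-! ### finite differences -/

theorem lev_fd_c {a a' x x' τ τ' μ α g0 : ℝ} (ha : a ∈ Ioo (0 : ℝ) 1) (ha' : a' ∈ Ioo (0 : ℝ) 1)
    (hx : x ∈ Ioo (0 : ℝ) 1) (hx' : x' ∈ Ioo (0 : ℝ) 1) (hlt : a < x)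
    (hg : |gh x' - gh a'| ≤ gh x - gh a) (hs : a + a' < 1) (hs1 : x + x' < 1)
    (hL : ∀ u u' : ℝ, u ∈ Icc a x → u' ∈ uIcc a' x' → u + u' < 1 →
      gh u + gh u' ≤ max (gh a + gh a') (gh x + gh x') →
      min (gh a + gh a') (gh x + gh x') ≤ gh u + gh u' →
      π * (μ - α * (gh u - g0)) + sin (π * u') * |CC (lv u τ + lv u' τ')| ≤
        sin (π * u) * (1 * CC (lv u τ) - CC (lv u τ + lv u' τ'))) :
    LL (lv x τ + lv x' τ') - LL (lv x τ) + (μ - α * ((gh a + gh x) / 2 - g0)) * (gh x - gh a) ≤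
      LL (lv a τ + lv a' τ') - LL (lv a τ) := by
  have hpi := Real.pi_pos
  have hΔ : 0 < gh x - gh a := by
    have := (gh_lt ha hx).2 hlt
    linarith only [this]
  have hsum : ∀ θ ∈ Icc (0 : ℝ) 1, gh (gc a x θ) + gh (gc a' x' θ) ≤
      max (gh a + gh a') (gh x + gh x') := by
    intro θ hθ
    rw [gh_gc, gh_gc]
    have h1 := le_max_left (gh a + gh a') (gh x + gh x')
    have h2 := le_max_right (gh a + gh a') (gh x + gh x')
    have h3 : 0 ≤ 1 - θ := by linarith only [hθ, hθ.2]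
    have h4 := mul_le_mul_of_nonneg_left h1 h3
    have h5 := mul_le_mul_of_nonneg_left h2 hθ.1
    nlinarith only [h4, h5]
  have hsum' : ∀ θ ∈ Icc (0 : ℝ) 1, min (gh a + gh a') (gh x + gh x') ≤
      gh (gc a x θ) + gh (gc a' x' θ) := by
    intro θ hθ
    rw [gh_gc, gh_gc]
    have h1 := min_le_left (gh a + gh a') (gh x + gh x')
    have h2 := min_le_right (gh a + gh a') (gh x + gh x')
    have h3 : 0 ≤ 1 - θ := by linarith only [hθ, hθ.2]
    have h4 := mul_le_mul_of_nonneg_left h1 h3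
    have h5 := mul_le_mul_of_nonneg_left h2 hθ.1
    nlinarith only [h4, h5]
  have hmax : max (gh a + gh a') (gh x + gh x') < 0 :=
    max_lt ((add_lt_one_iff ha ha').1 hs) ((add_lt_one_iff hx hx').1 hs1)
  have hone : ∀ θ ∈ Icc (0 : ℝ) 1, gc a x θ + gc a' x' θ < 1 := fun θ hθ =>
    (add_lt_one_iff (gc_mem _ _ _) (gc_mem _ _ _)).2 ((hsum θ hθ).trans_lt hmax)
  set F : ℝ → ℝ := fun θ => LL (lv (gc a x θ + gc a' x' θ) (τ + τ')) - LL (lv (gc a x θ) τ) +
    (gh x - gh a) * ((μ - α * (gh a - g0)) * θ - α * (gh x - gh a) * (θ ^ 2 / 2)) with hF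
  have hder : ∀ θ ∈ Icc (0 : ℝ) 1, HasDerivAt F
      (CC (lv (gc a x θ + gc a' x' θ) (τ + τ')) *
          ((gh x - gh a) * (sin (π * gc a x θ) / π) + (gh x' - gh a') * (sin (π * gc a' x' θ) / π)) -
        CC (lv (gc a x θ) τ) * ((gh x - gh a) * (sin (π * gc a x θ) / π)) +
        (gh x - gh a) * (μ - α * (gh a - g0) - α * (gh x - gh a) * θ)) θ := by
    intro θ hθ
    have m1 := gc_mem a x θ
    have m2 := gc_mem a' x' θ
    have h1 := hasDerivAt_gc a x θ
    have h2 := hasDerivAt_gc a' x' θ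
    have h3 := (hasDerivAt_LL_lv (t := τ) m1.1 m1.2).comp θ h1
    have h4 := (hasDerivAt_LL_lv (t := τ + τ') (add_pos m1.1 m2.1) (hone θ hθ)).comp θ (h1.add h2)
    have h5 : HasDerivAt (fun θ : ℝ => (gh x - gh a) * ((μ - α * (gh a - g0)) * θ -
        α * (gh x - gh a) * (θ ^ 2 / 2)))
        ((gh x - gh a) * (μ - α * (gh a - g0) - α * (gh x - gh a) * θ)) θ := by
      have e1 := ((hasDerivAt_id' θ).const_mul (μ - α * (gh a - g0))).sub
        ((((hasDerivAt_id' θ).pow 2).div_const 2).const_mul (α * (gh x - gh a)))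
      refine (e1.const_mul (gh x - gh a)).congr_deriv ?_
      simp
    exact (h4.sub h3).add h5
  have hneg : ∀ θ ∈ Icc (0 : ℝ) 1,
      CC (lv (gc a x θ + gc a' x' θ) (τ + τ')) *
          ((gh x - gh a) * (sin (π * gc a x θ) / π) + (gh x' - gh a') * (sin (π * gc a' x' θ) / π)) -
        CC (lv (gc a x θ) τ) * ((gh x - gh a) * (sin (π * gc a x θ) / π)) +
        (gh x - gh a) * (μ - α * (gh a - g0) - α * (gh x - gh a) * θ) ≤ 0 := by
    intro θ hθ
    have m1 := gc_mem a x θ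
    have m2 := gc_mem a' x' θ
    have h1 := hL _ _ (gc_mem_Icc ha hx hlt.le hθ.1 hθ.2) (gc_mem_uIcc ha' hx' hθ.1 hθ.2)
      (hone θ hθ) (hsum θ hθ) (hsum' θ hθ)
    rw [lv_add] at h1
    have e0 : gh (gc a x θ) - g0 = (gh a - g0) + (gh x - gh a) * θ := by
      rw [gh_gc]
      ring
    rw [e0] at h1
    set c := CC (lv (gc a x θ + gc a' x' θ) (τ + τ'))
    set d := CC (lv (gc a x θ) τ)
    have s2 : 0 < sin (π * gc a' x' θ) :=
      sin_pos_of_pos_of_lt_pi (mul_pos hpi m2.1) (by nlinarith only [hpi, m2, m2.2])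
    set p := sin (π * gc a x θ)
    set p' := sin (π * gc a' x' θ)
    have e : c * ((gh x - gh a) * (p / π) + (gh x' - gh a') * (p' / π)) -
        d * ((gh x - gh a) * (p / π)) +
          (gh x - gh a) * (μ - α * (gh a - g0) - α * (gh x - gh a) * θ) =
        ((gh x' - gh a') * c * p' - (gh x - gh a) * (p * (1 * d - c)) +
          (gh x - gh a) * (π * (μ - α * ((gh a - g0) + (gh x - gh a) * θ)))) / π := by
      field_simp
      ring
    rw [e]
    apply div_nonpos_of_nonpos_of_nonneg _ hpi.le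
    have h2 : (gh x' - gh a') * c * p' ≤ (gh x - gh a) * (p' * |c|) := by
      have h3 : (gh x' - gh a') * c ≤ (gh x - gh a) * |c| := by
        calc (gh x' - gh a') * c ≤ |(gh x' - gh a') * c| := le_abs_self _
          _ = |gh x' - gh a'| * |c| := abs_mul _ _
          _ ≤ _ := mul_le_mul_of_nonneg_right hg (abs_nonneg _)
      calc (gh x' - gh a') * c * p' ≤ (gh x - gh a) * |c| * p' := mul_le_mul_of_nonneg_right h3 s2.le
        _ = _ := by ring
    have h4 := mul_le_mul_of_nonneg_left h1 hΔ.le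
    linarith only [h2, h4]
  have hanti : F 1 ≤ F 0 := by
    have hc : ContinuousOn F (Icc 0 1) := fun θ hθ => (hder θ hθ).continuousAt.continuousWithinAt
    have := antitoneOn_of_deriv_nonpos (convex_Icc (0 : ℝ) 1) hc
      (fun θ hθ => by
        rw [interior_Icc] at hθ
        exact (hder θ ⟨hθ.1.le, hθ.2.le⟩).differentiableAt.differentiableWithinAt) (by
      intro θ hθ
      rw [interior_Icc] at hθ
      rw [(hder θ ⟨hθ.1.le, hθ.2.le⟩).deriv]
      exact hneg θ ⟨hθ.1.le, hθ.2.le⟩)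
    exact this ⟨le_rfl, zero_le_one⟩ ⟨zero_le_one, le_rfl⟩ zero_le_one
  simp only [hF, gc_one hx, gc_one hx', gc_zero ha, gc_zero ha'] at hanti
  rw [lv_add, lv_add]
  linarith only [hanti]

end MQ

end Pool.Agent.Work.MP_b30479_gt.G2
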