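import Pool.Agent.Work.MP_b30479_gt.G2.MQH
import Pool.Agent.Work.MP_b30479_gt.G2.MQE

/-!
# Level push of a digit `1` between a ring and a `2`, upwards, with slack
-/

namespace Pool.Agent.Work.MP_b30479_gt.G2

open Real Set VOL NumI NumI.E

namespace MQ

theorem q1 : runT (cC 3968 17061 8977 13631 3850 4 (-6809) 359 165)
    (.y (.y (.x (.y .e (.x .e (.y .e (.x (.y .e .a) .c)))) (.y (.x .e (.y .e (.x (.y .e .c) (.y (.x .e
    (.y .e (.y .e .b))) .b)))) (.x (.y (.x (.y .e .c) .c) .c) (.y .b .b)))) (.x (.y (.x (.y (.x .e .c)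
    .c) .c) .c) (.x .b (.x .b .b)))) (.y (.x (.y .b .b) (.x (.y .b .b) (.y .b (.y .b (.x .b (.y .b (.x
    .b .b))))))) (.x (.y (.x .b .b) (.x (.x .b .b) (.y (.x .b .b) (.x (.y .b .b) (.y (.x .b .b) (.x
    (.y .b (.x .b (.y .b (.x .b (.y (.x .b .d) .d))))) (.y (.x .b (.y (.x .b .d) .d)) (.x (.y (.x (.y
    .b .d) .d) .d) .d)))))))) (.y (.x (.y .b (.x .b (.y .b (.x .b .b)))) (.y (.x (.y .b .b) (.y (.x .b
    (.y (.x .b (.y .b .d)) (.x (.y .b .d) .d))) (.x (.y (.x .b (.y .b .d)) .d) .d))) (.x (.y (.x .b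
    (.y (.x .b .b) .d)) (.x (.y (.x .b .d) .d) .d)) .d))) (.x (.y (.x (.y .b (.x .b (.y .b (.x .b
    .d)))) (.y (.x (.y .b .b) .d) .d)) (.x (.y (.x (.y .b (.x (.y .b .d) .d)) .d) .d) .d)) .d)))))
    [V.of 1000 256 360 4, V.of 1000 140 392 4] = true := by decide +kernel

theorem q2 : runT (cC 3968 17061 13630 20625 3870 6 (-6809) 359 165)
    (.y (.y (.x (.y .e (.y .e (.x .e (.x (.y .e .a) .c)))) (.y (.x .e (.y .e (.x (.y .e .c) (.y (.x .b
    (.y .e .b)) .b)))) (.x (.y (.x (.y .e .c) .c) .c) (.y .b .b)))) (.x (.y (.x (.y (.x .e .c) .c) .c)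
    .c) (.x .b (.x .b .b)))) (.y (.x (.y .b .b) (.x (.y .b .b) (.y .b (.x .b (.y .b (.x .b .b))))))
    (.x (.y (.x .b .b) (.x (.y .b .b) (.y .b (.x .b (.y .b (.x .b (.y (.x .b .b) (.x (.y .b .d)
    .d)))))))) (.y (.x (.y .b (.x .b (.y .b .b))) (.y (.x .b (.y (.x .b (.x .b (.y (.y .b .d) .d)))
    (.x (.y .b .d) .d))) (.x (.y (.x .b (.y .b .d)) (.x (.y .b .d) .d)) .d))) (.x (.y (.x (.y .b (.x
    .b .b)) (.y (.x .b .d) .d)) (.x (.y (.x (.y .b (.x .b .d)) .d) .d) .d)) .d)))))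
    [V.of 1000 256 360 4, V.of 1000 140 392 4] = true := by decide +kernel

theorem q3 : runT (cC 3968 17061 20624 38671 3920 10 (-6809) 359 165)
    (.y (.y (.x (.y .e (.y .e (.x .e (.x (.y .e .a) .c)))) (.y (.x .e (.y .e (.x (.y .e .c) (.y (.y .e
    .b) .b)))) (.x (.y (.x (.y .e .c) .c) .c) (.y .b .b)))) (.x (.y (.x (.y (.y .e (.x .e .c)) .c) .c)
    (.x .c .b)) (.x .b (.x .b .b)))) (.y (.x (.y .b .b) (.x (.y .b .b) (.y .b (.y .b (.x .b (.y .b
    .b)))))) (.x (.y (.x .b .b) (.x (.y .b .b) (.y .b (.x .b (.y .b (.x .b (.y .b (.x .b .d))))))))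
    (.y (.x (.y .b (.x .b .b)) (.y (.x .b (.y (.x .b (.x .b (.y .b .d))) (.x (.y .b .d) .d))) (.x (.y
    (.x .b .b) (.x (.y .b .b) .d)) .d))) (.x (.y (.x (.y .b .b) (.y (.x .b .d) .d)) (.x (.y (.x .b .d)
    .d) .d)) .d)))))
    [V.of 1000 256 360 4, V.of 1000 140 392 4] = true := by decide +kernel

theorem q4 : runT (cC 3968 20004 8977 38671 3560 0 (-6809) 359 165)
    (.y (.y (.x (.y .e (.y .e (.x .e (.x (.y .e .a) .c)))) (.y (.x .e (.y .e (.y (.x .e .b) .c))) (.x
    (.y (.x (.y .e .c) .c) .c) .b))) (.x (.y (.x (.y (.x .e .c) .c) .c) .c) (.x .b .b))) (.y (.x (.y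
    .b .b) (.x (.y .b .b) (.y .b (.x .b (.y .b .b))))) (.x (.y (.x .b .b) (.x .b (.y .b (.x .b .b))))
    (.y (.x (.y .b .b) (.y (.x .b (.x .b (.y .b .d))) (.x (.y .b (.x .b .d)) .d))) (.x (.y (.x .b (.y
    .b .d)) (.x (.y (.x .b .b) .d) .d)) .d)))))
    [V.of 1000 256 360 4, V.of 1000 140 392 4] = true := by decide +kernel

/-! ### numerical facts -/

/-- the gauge at a rational point -/
def ghF (n : ℤ) : E := E.log (mul (sinPi (q n 20000)) (inv (cosPi (q n 20000))))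

theorem ghF_val (n : ℤ) : (ghF n).val [] = gh ((n : ℝ) / 10000) := by
  simp only [ghF, val]
  unfold gh
  rw [tan_eq_sin_div_cos]
  have : π * ((n : ℝ) / 10000) / 2 = π * ((n : ℝ) / ((20000 : ℕ) : ℝ)) := by push_cast; ring
  rw [this]
  simp only [div_eq_mul_inv]

theorem gh_num1 : Real.log ((165 : ℤ) / 1000) < gh ((2563 : ℤ) / 10000) + gh ((2360 : ℤ) / 10000) := by
  have h := chk0 (e := sub (add (ghF 2563) (ghF 2360)) (E.log (q 165 1000))) (by decide +kernel)
  simp only [val, ghF_val] at h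
  push_cast at h ⊢
  linarith only [h]

theorem gh_num2 : gh ((2983 : ℤ) / 10000) + gh ((3920 : ℤ) / 10000) < Real.log ((359 : ℤ) / 1000) := by
  have h := chk0 (e := sub (E.log (q 359 1000)) (add (ghF 2983) (ghF 3920))) (by decide +kernel)
  simp only [val, ghF_val] at h
  push_cast at h ⊢
  linarith only [h]

theorem gh_num3 : gh ((1400 : ℤ) / 10000) + gh ((3600 : ℤ) / 10000) < Real.log ((165 : ℤ) / 1000) := by
  have h := chk0 (e := sub (E.log (q 165 1000)) (add (ghF 1400) (ghF 3600))) (by decide +kernel)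
  simp only [val, ghF_val] at h
  push_cast at h ⊢
  linarith only [h]

/-- the mean slack is more than `c` -/
def okM (μ α g c : ℤ) : Bool :=
  chk [sub (sub (q μ 10000) (mul (q α 100) (sub (mul (q 1 2) (add (ghF 2983) (ghF 3600))) (q g 10000))))
    (q c 10000)] 1 []

theorem okM_spec {μ α g c : ℤ} (h : okM μ α g c = true) : (c : ℝ) / 10000 < (μ : ℝ) / 10000 -
    (α : ℝ) / 100 * ((gh ((2983 : ℤ) / 10000) + gh ((3600 : ℤ) / 10000)) / 2 - (g : ℝ) / 10000) := by
  have h := chk0 h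
  simp only [val, ghF_val] at h
  push_cast at h ⊢
  linarith only [h]

def okI (n0 n1 c0 c1 : ℤ) : Bool :=
  chk [sub (sq (E.sinh (mul pi (q n0 10000)))) (q c0 100000)] 1 [] && decide (0 ≤ n0) &&
    chk [sub (q c1 100000) (sq (E.sinh (mul pi (q n1 10000))))] 1 []

theorem okI_spec {n0 n1 c0 c1 : ℤ} (h : okI n0 n1 c0 c1 = true) {τ : ℝ} (h0 : (n0 : ℝ) / 10000 ≤ τ)
    (h1 : τ ≤ (n1 : ℝ) / 10000) : (c0 : ℝ) / 100000 ≤ sinh (π * τ) ^ 2 ∧
      sinh (π * τ) ^ 2 ≤ (c1 : ℝ) / 100000 := by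
  simp only [okI, Bool.and_eq_true, decide_eq_true_eq] at h
  obtain ⟨⟨k1, k2⟩, k3⟩ := h
  have k1 := chk0 k1
  have k3 := chk0 k3
  simp only [val] at k1 k3
  push_cast at k1 k3
  have k2' : (0 : ℝ) ≤ (n0 : ℝ) / 10000 := by
    have : (0 : ℝ) ≤ n0 := by exact_mod_cast k2
    positivity
  have g1 := sinh_sq_le k2' h0
  have g2 := sinh_sq_le (k2'.trans h0) h1
  constructor <;> linarith only [k1, g1, k3, g2]

theorem gh_le {a b : ℝ} (ha : a ∈ Ioo (0 : ℝ) 1) (hb : b ∈ Ioo (0 : ℝ) 1) (h : a ≤ b) :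
    gh a ≤ gh b := by
  rcases h.eq_or_lt with e | e
  · rw [e]
  · exact ((gh_lt ha hb).2 e).le

theorem le_of_gh {a b : ℝ} (ha : a ∈ Ioo (0 : ℝ) 1) (hb : b ∈ Ioo (0 : ℝ) 1) (h : gh a ≤ gh b) :
    a ≤ b := by
  by_contra hc
  push Not at hc
  linarith only [h, hb, ha, hc, (gh_lt hb ha).2 hc]

theorem LL_sin_le {s r τ : ℝ} (hs : s ∈ Ioo (0 : ℝ) 1) (hr : r ∈ Ioo (0 : ℝ) 1)
    (h : sin (π * s) ≤ sin (π * r)) : LL (lv s τ) ≤ LL (lv r τ) := by
  have p1 := sin_pi_pos hs.1 hs.2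
  rw [LLlv hs.1 hs.2, LLlv hr.1 hr.2]
  have : Real.log (4 * (sin (π * s) ^ 2 + sinh (π * τ) ^ 2)) ≤
      Real.log (4 * (sin (π * r) ^ 2 + sinh (π * τ) ^ 2)) := by
    apply Real.log_le_log (by positivity)
    nlinarith only [h, p1]
  linarith only [this]

variable {S0 S1 T0 T1 μ α g : ℤ} {tr : Tr} {a a' x x' t t' : ℝ}

/-- **Upwards with slack.** -/
theorem slk (h : runT (cC S0 S1 T0 T1 μ α g 359 165) tr [V.of 1000 256 360 4, V.of 1000 140 392 4] =
      true) (hα : 0 ≤ α) (a0 : 2563 / 10000 ≤ a) (a1 : a ≤ 2983 / 10000) (b0 : 236 / 1000 ≤ a')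
    (b1 : a' ≤ 392 / 1000) (hx : x ≤ 360 / 1000) (hx' : 0 < x') (hs1 : x + x' < 1) (hlt : a < x)
    (hg : |gh x' - gh a'| ≤ gh x - gh a)
    (hS : (S0 : ℝ) / 100000 ≤ sinh (π * t) ^ 2 ∧ sinh (π * t) ^ 2 ≤ (S1 : ℝ) / 100000)
    (hT : (T0 : ℝ) / 100000 ≤ sinh (π * (t + t')) ^ 2 ∧
      sinh (π * (t + t')) ^ 2 ≤ (T1 : ℝ) / 100000) {c : ℤ} (hc : okM μ α g c = true) :
    LL (lv x t + lv x' t') - LL (lv x t) + (c : ℝ) / 10000 * (gh x - gh a) <
      LL (lv a t + lv a' t') - LL (lv a t) := by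
  have A : a ∈ Ioo (0 : ℝ) 1 := ⟨by linarith only [a0, hx, hlt], by linarith only [a0, hx, hlt]⟩
  have A' : a' ∈ Ioo (0 : ℝ) 1 := ⟨by linarith only [a0, b0, hx, hlt], by linarith only [a0, b1, hx, hlt]⟩
  have X : x ∈ Ioo (0 : ℝ) 1 := ⟨by linarith only [a0, hx, hlt], by linarith only [a0, hx, hlt]⟩
  have X' : x' ∈ Ioo (0 : ℝ) 1 := ⟨hx', by linarith only [a0, hx, hs1, hlt, X.1]⟩
  have n1 := gh_num1
  have n2 := gh_num2
  have n3 := gh_num3
  push_cast at n1 n2 n3
  have ga0 : gh (2563 / 10000) ≤ gh a := gh_le ⟨by norm_num, by norm_num⟩ A a0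
  have ga1 : gh a ≤ gh (2983 / 10000) := gh_le A ⟨by norm_num, by norm_num⟩ a1
  have gb0 : gh (2360 / 10000) ≤ gh a' := gh_le ⟨by norm_num, by norm_num⟩ A' (by linarith only [b0])
  have gb1 : gh a' ≤ gh (3920 / 10000) := gh_le A' ⟨by norm_num, by norm_num⟩ (by linarith only [b1])
  have gx : gh x ≤ gh (3600 / 10000) := gh_le X ⟨by norm_num, by norm_num⟩ (by linarith only [hx])
  have hP : gh a + gh a' ≤ Real.log (((359 : ℤ) : ℝ) / 1000) := by push_cast; linarith only [n2, ga1, gb1]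
  have hQ : Real.log (((165 : ℤ) : ℝ) / 1000) ≤ gh a + gh a' := by push_cast; linarith only [n1, ga0, gb0]
  have hm : 0 < gh x - gh a := by linarith only [A, X, hlt, (gh_lt A X).2 hlt]
  obtain ⟨g1, g2⟩ := abs_le.1 hg
  set w := ghi (gh a + gh a' - gh x) with hw
  have W : w ∈ Ioo (0 : ℝ) 1 := ghi_mem _
  have gw : gh w = gh a + gh a' - gh x := gh_ghi _
  have hwx : w ≤ x' := le_of_gh W X' (by linarith only [g1, gw])
  have hwa : w ≤ a' := le_of_gh W A' (by linarith only [hm, gw])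
  have hw14 : 140 / 1000 ≤ w := by
    by_contra hcon
    push Not at hcon
    have := gh_le W ⟨by norm_num, by norm_num⟩ (show w ≤ 1400 / 10000 by linarith only [hcon])
    push_cast at hQ
    linarith only [n1, n3, ga0, gb0, gx, gw, this]
  have fin : ∀ z : ℝ, z ∈ Ioo (0 : ℝ) 1 → w ≤ z → z ≤ 392 / 1000 → x + z < 1 →
      |gh z - gh a'| ≤ gh x - gh a → gh x + gh z ≤ Real.log (((359 : ℤ) : ℝ) / 1000) →
      LL (lv x t + lv x' t') ≤ LL (lv x t + lv z t') →
      LL (lv x t + lv x' t') - LL (lv x t) + (c : ℝ) / 10000 * (gh x - gh a) <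
        LL (lv a t + lv a' t') - LL (lv a t) := by
    intro z Z hwz hz hxz hgz hPz hLz
    have gz : gh a + gh a' ≤ gh x + gh z := by
      have := gh_le W Z hwz
      linarith only [gw, this]
    have key := lev_fd_c (τ := t) (τ' := t') (μ := (μ : ℝ) / 10000) (α := (α : ℝ) / 100)
      (g0 := (g : ℝ) / 10000) A A' X Z hlt hgz (by linarith only [a0, b1, hx, hlt]) hxz
      (fun u u' hu hu' hsum hmax hmin => by
        obtain ⟨q1, q2⟩ := mem_uIcc_bd (l := 140 / 1000) (r := 392 / 1000) hu' (by linarith only [a0, b0, hx, hlt])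
          (by linarith only [hw14, hwz]) b1 hz
        exact row_con (μ := μ) (α := α) (g := g) h (by norm_num) (by norm_num)
          (by push_cast; linarith only [a0, hx, hlt, hu, hu.1]) (by push_cast; linarith only [hx, hu, hu.2]) (by push_cast; exact q1)
          (by push_cast; exact q2) (by linarith only [a0, hx, hlt, hu, hu.1]) (by linarith only [a0, hx, hlt, q1]) hsum hS.1 hS.2 hT.1 hT.2
          (hmax.trans (max_le hP hPz)) ((le_min hQ (hQ.trans gz)).trans hmin))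
    have hM := okM_spec hc
    push_cast at hM
    have hα' : (0 : ℝ) ≤ (α : ℝ) / 100 := by
      have : (0 : ℝ) ≤ α := by exact_mod_cast hα
      positivity
    have h1 : (α : ℝ) / 100 * ((gh a + gh x) / 2 - (g : ℝ) / 10000) ≤
        (α : ℝ) / 100 * ((gh (2983 / 10000) + gh (3600 / 10000)) / 2 - (g : ℝ) / 10000) :=
      mul_le_mul_of_nonneg_left (by linarith only [ga1, gx]) hα'
    have h2 : (c : ℝ) / 10000 * (gh x - gh a) <
        ((μ : ℝ) / 10000 - (α : ℝ) / 100 * ((gh a + gh x) / 2 - (g : ℝ) / 10000)) *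
          (gh x - gh a) := mul_lt_mul_of_pos_right (by linarith only [hM, h1]) hm
    linarith only [hLz, key, h2]
  rcases le_or_gt (1 / 2) (x + w) with hh | hh
  · refine fin w W le_rfl (hwa.trans b1) (by linarith only [a0, b1, hx, hlt, hwa]) ?_ (by rw [gw]; linarith only [n2, ga1, gb1]) ?_
    · rw [gw, abs_le]
      constructor <;> linarith only [hm]
    · rw [lv_add, lv_add]
      refine LL_sin_le ⟨by linarith only [a0, hx, hx', hlt, X.1], hs1⟩ ⟨by linarith only [a0, hx, hlt, hw14, X.1], by linarith only [a0, b1, hx, hlt, hwa]⟩ ?_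
      have hpi := pi_pos
      have e : ∀ s, sin (π * s) = sin (π * (1 - s)) := fun s => by
        rw [show π * (1 - s) = π - π * s by ring, sin_pi_sub]
      rw [e (x + x'), e (x + w)]
      exact sin_le_sin_of_le_of_le_pi_div_two (by nlinarith only [hpi, hs1]) (by nlinarith only [a0, hx, hlt, hh, hpi]) (by nlinarith only [a0, hx, hlt, hwx, hpi])
  · have hz0 : w ≤ min x' (1 / 2 - x) := le_min hwx (by linarith only [hh])
    have hz1 : min x' (1 / 2 - x) ≤ x' := min_le_left _ _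
    have hz2 : min x' (1 / 2 - x) ≤ 1 / 2 - x := min_le_right _ _
    have Z : min x' (1 / 2 - x) ∈ Ioo (0 : ℝ) 1 := ⟨by linarith only [a0, hx, hlt, hw14, hz0, W.1], by linarith only [a0, hs1, hlt, hw14, hh, hz1, X'.2]⟩
    refine fin _ Z hz0 (by linarith only [a0, hlt, hw14, hh, hz2]) (by linarith only [hs1, hz1]) ?_ ?_ ?_
    · have k1 := gh_le Z X' hz1
      have k2 := gh_le W Z hz0
      rw [abs_le]
      constructor <;> linarith only [gw, k2, g2, k1]
    · have hc4 : (7 : ℝ) / 10 ≤ Real.cos (π * ((1 / 2) / 2)) := by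
        have h := chk0 (e := sub (cosPi (q 1 4)) (q 7 10)) (by decide +kernel)
        simp only [val] at h
        push_cast at h
        have e : (1 : ℝ) / 2 / 2 = 1 / 4 := by norm_num
        rw [e]
        linarith only [h]
      exact gh_sum_of_sum X Z (s := 1 / 2) (by linarith only [hz2]) (by norm_num) hc4 (by norm_num)
        (by norm_num) (by norm_num)
    · rw [lv_add, lv_add]
      refine LL_sin_le ⟨by linarith only [a0, hx, hx', hlt, X.1], hs1⟩ ⟨by linarith only [a0, hx, hlt, hw14, hz0, X.1, Z.1], by linarith only [hs1, hz1]⟩ ?_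
      rcases min_cases x' (1 / 2 - x) with ⟨e, -⟩ | ⟨e, -⟩
      · rw [e]
      · rw [e, show x + (1 / 2 - x) = 1 / 2 by ring, show π * (1 / 2) = π / 2 by ring,
          sin_pi_div_two]
        exact sin_le_one _

theorem q1_i : okI 630 1280 3968 17061 = true := by decide +kernel

theorem q1_j : okI 940 1150 8977 13631 = true := by decide +kernel

theorem q2_i : okI 630 1280 3968 17061 = true := by decide +kernel

theorem q2_j : okI 1150 1400 13630 20625 = true := by decide +kernel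

theorem q3_i : okI 630 1280 3968 17061 = true := by decide +kernel

theorem q3_j : okI 1400 1870 20624 38671 = true := by decide +kernel

theorem q4_i : okI 630 1380 3968 20004 = true := by decide +kernel

theorem q4_j : okI 940 1870 8977 38671 = true := by decide +kernel

/-- **`1 | ring` upwards, other neighbour a `2`, height at most `.128`.** -/
theorem slack_38 (a0 : 2563 / 10000 ≤ a) (a1 : a ≤ 2983 / 10000) (b0 : 236 / 1000 ≤ a')
    (b1 : a' ≤ 392 / 1000) (hx : x ≤ 360 / 1000) (hx' : 0 < x') (hs1 : x + x' < 1) (hlt : a < x)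
    (hg : |gh x' - gh a'| ≤ gh x - gh a) (t0 : 63 / 1000 ≤ t) (t1 : t ≤ 128 / 1000)
    (s0 : 94 / 1000 ≤ t + t') (s1 : t + t' ≤ 187 / 1000) :
    LL (lv x t + lv x' t') - LL (lv x t) + 38 / 100 * (gh x - gh a) <
      LL (lv a t + lv a' t') - LL (lv a t) := by
  have e : (38 : ℝ) / 100 = ((3800 : ℤ) : ℝ) / 10000 := by norm_num
  rw [e]
  rcases le_total (t + t') (115 / 1000) with h1 | h1
  · exact slk q1 (by norm_num) a0 a1 b0 b1 hx hx' hs1 hlt hg
      (okI_spec q1_i (by push_cast; linarith only [t0]) (by push_cast; linarith only [t1]))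
      (okI_spec q1_j (by push_cast; linarith only [s0]) (by push_cast; linarith only [h1])) (by decide +kernel)
  rcases le_total (t + t') (140 / 1000) with h2 | h2
  · exact slk q2 (by norm_num) a0 a1 b0 b1 hx hx' hs1 hlt hg
      (okI_spec q2_i (by push_cast; linarith only [t0]) (by push_cast; linarith only [t1]))
      (okI_spec q2_j (by push_cast; linarith only [h1]) (by push_cast; linarith only [h2])) (by decide +kernel)
  · exact slk q3 (by norm_num) a0 a1 b0 b1 hx hx' hs1 hlt hg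
      (okI_spec q3_i (by push_cast; linarith only [t0]) (by push_cast; linarith only [t1]))
      (okI_spec q3_j (by push_cast; linarith only [h2]) (by push_cast; linarith only [s1])) (by decide +kernel)

/-- **`1 | ring` upwards, other neighbour a `2`, height at most `.138`.** -/
theorem slack_355 (a0 : 2563 / 10000 ≤ a) (a1 : a ≤ 2983 / 10000) (b0 : 236 / 1000 ≤ a')
    (b1 : a' ≤ 392 / 1000) (hx : x ≤ 360 / 1000) (hx' : 0 < x') (hs1 : x + x' < 1) (hlt : a < x)
    (hg : |gh x' - gh a'| ≤ gh x - gh a) (t0 : 63 / 1000 ≤ t) (t1 : t ≤ 138 / 1000)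
    (s0 : 94 / 1000 ≤ t + t') (s1 : t + t' ≤ 187 / 1000) :
    LL (lv x t + lv x' t') - LL (lv x t) + 355 / 1000 * (gh x - gh a) <
      LL (lv a t + lv a' t') - LL (lv a t) := by
  have e : (355 : ℝ) / 1000 = ((3550 : ℤ) : ℝ) / 10000 := by norm_num
  rw [e]
  exact slk q4 (by norm_num) a0 a1 b0 b1 hx hx' hs1 hlt hg
      (okI_spec q4_i (by push_cast; linarith only [t0]) (by push_cast; linarith only [t1]))
      (okI_spec q4_j (by push_cast; linarith only [s0]) (by push_cast; linarith only [s1])) (by decide +kernel)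

end MQ

end Pool.Agent.Work.MP_b30479_gt.G2
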