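import Pool.Agent.Work.MP_b30479_gt.G2.MQI
import Pool.Agent.Work.MP_b30479_gt.G2.MQG
import Pool.Agent.Work.MP_b30479_gt.G2.MPSum

/-!
# Push of the neighbours of a ring with slack
-/

namespace Pool.Agent.Work.MP_b30479_gt.G2

open Real Set VOL NumI NumI.E

namespace MQ

/-! ### a digit `2` at an end, downwards -/

/-- one variable `u` -/
def eE (S α g : ℤ) : E :=
  sub (mul (sq (sinPi (var 0))) (cosPi (var 0)))
    (mul (el α g) (add (q S 100000) (sq (sinPi (var 0)))))

theorem eE_val (S α g : ℤ) (u : ℝ) : (eE S α g).val [u] =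
    sin (π * u) ^ 2 * cos (π * u) - EL α g u * ((S : ℝ) / 100000 + sin (π * u) ^ 2) := by
  simp only [eE, el, val, lkR_zero, EL]
  push_cast
  ring_nf

theorem rE : runT [[eE 13700 22 (-37741)]] (.x (.x (.x .a .a) .a) (.x .a .a))
    [V.of 1000 125 186 4] = true := by
  decide +kernel

theorem nE : okI 0 1150 (-1) 13700 = true := by decide +kernel

theorem nE' : (1 : ℝ) / 2 < 22 / 100 * ((gh (125 / 1000) + gh (164 / 1000)) / 2 + 37741 / 10000) := by
  have h := chk0 (e := sub (mul (q 22 100) (add (mul (q 1 2) (add (ghF 1250) (ghF 1640)))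
    (q 37741 10000))) (q 1 2)) (by decide +kernel)
  simp only [val, ghF_val] at h
  push_cast at h
  have e1 : (1250 : ℝ) / 10000 = 125 / 1000 := by norm_num
  have e2 : (1640 : ℝ) / 10000 = 164 / 1000 := by norm_num
  rw [e1, e2] at h
  linarith only [h]

/-- **A digit `2` at an end next to a ring, downwards.** -/
theorem slackE {a x t : ℝ} (a0 : 164 / 1000 ≤ a) (a1 : a ≤ 186 / 1000) (hx : 125 / 1000 ≤ x)
    (hlt : x < a) (t0 : 0 ≤ t) (t1 : t ≤ 115 / 1000) :
    1 / 2 * (gh a - gh x) < LL (lv a t) - LL (lv x t) := by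
  have hpi := pi_pos
  have A : a ∈ Ioo (0 : ℝ) 1 := ⟨by linarith only [hx, hlt], by linarith only [a1, hx, hlt]⟩
  have X : x ∈ Ioo (0 : ℝ) 1 := ⟨by linarith only [hx], by linarith only [a1, hlt]⟩
  have hm : 0 < gh a - gh x := by linarith only [X, A, hlt, (gh_lt X A).2 hlt]
  have hS := (okI_spec nE (τ := t) (by push_cast; linarith only [t0]) (by push_cast; linarith only [t1])).2
  set F : ℝ → ℝ := fun θ => LL (lv (gc x a θ) t) - (gh a - gh x) *
    (22 / 100 * ((gh x + 37741 / 10000) * θ + (gh a - gh x) * (θ ^ 2 / 2))) with hF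
  have hder : ∀ θ ∈ Icc (0 : ℝ) 1, HasDerivAt F
      (CC (lv (gc x a θ) t) * ((gh a - gh x) * (sin (π * gc x a θ) / π)) - (gh a - gh x) *
        (22 / 100 * ((gh x + 37741 / 10000) + (gh a - gh x) * θ))) θ := by
    intro θ hθ
    have m1 := gc_mem x a θ
    have h1 := hasDerivAt_gc x a θ
    have h3 := (hasDerivAt_LL_lv (t := t) m1.1 m1.2).comp θ h1
    have h5 : HasDerivAt (fun θ : ℝ => (gh a - gh x) *
        (22 / 100 * ((gh x + 37741 / 10000) * θ + (gh a - gh x) * (θ ^ 2 / 2))))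
        ((gh a - gh x) * (22 / 100 * ((gh x + 37741 / 10000) + (gh a - gh x) * θ))) θ := by
      have e1 := ((hasDerivAt_id' θ).const_mul (gh x + 37741 / 10000)).add
        ((((hasDerivAt_id' θ).pow 2).div_const 2).const_mul (gh a - gh x))
      refine ((e1.const_mul (22 / 100)).const_mul (gh a - gh x)).congr_deriv ?_
      simp
    exact h3.sub h5
  have hpos : ∀ θ ∈ Icc (0 : ℝ) 1, 0 < CC (lv (gc x a θ) t) * ((gh a - gh x) *
      (sin (π * gc x a θ) / π)) - (gh a - gh x) *
        (22 / 100 * ((gh x + 37741 / 10000) + (gh a - gh x) * θ)) := by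
    intro θ hθ
    have m1 := gc_mem x a θ
    obtain ⟨b0, b1⟩ := gc_mem_Icc X A hlt.le hθ.1 hθ.2
    have e0 : (gh x + 37741 / 10000) + (gh a - gh x) * θ = gh (gc x a θ) + 37741 / 10000 := by
      rw [gh_gc]
      ring
    rw [e0]
    set u := gc x a θ
    have hu : 0 < u := m1.1
    have s1 := sin_pi_pos m1.1 m1.2
    obtain ⟨c, hc, hp⟩ := runT_sound rE (xs := [u]) (List.Forall₂.cons
      (V.of_mem (by norm_num) (by push_cast; linarith only [hx, b0]) (by push_cast; linarith only [a1, b1])) List.Forall₂.nil)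
    simp only [List.mem_cons, List.not_mem_nil, or_false] at hc
    subst hc
    have h1 := hp _ List.mem_cons_self
    rw [eE_val, EL_gh] at h1
    push_cast at h1 hS
    rw [CC_eq, lv_re, lv_im]
    have hD : 0 < sinh (π * t) ^ 2 + sin (π * u) ^ 2 := by positivity
    have e1 : π * (sin (π * u) * cos (π * u) / (sinh (π * t) ^ 2 + sin (π * u) ^ 2)) *
        ((gh a - gh x) * (sin (π * u) / π)) =
        (gh a - gh x) * (sin (π * u) ^ 2 * cos (π * u) / (sinh (π * t) ^ 2 + sin (π * u) ^ 2)) := by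
      field_simp
    rw [e1, ← mul_sub]
    apply mul_pos hm
    rw [sub_pos, lt_div_iff₀ hD]
    have hl : 0 ≤ 22 / 100 * (gh u + 37741 / 10000) := by
      have g1 : gh (125 / 1000) ≤ gh u := gh_le ⟨by norm_num, by norm_num⟩ m1 (hx.trans b0)
      have g2 := chk0 (e := add (ghF 1250) (q 2 1)) (by decide +kernel)
      simp only [val, ghF_val] at g2
      push_cast at g2
      have e2 : (1250 : ℝ) / 10000 = 125 / 1000 := by norm_num
      rw [e2] at g2
      linarith only [g1, g2]
    have h2 := mul_le_mul_of_nonneg_left hS hl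
    linarith only [h1, h2]
  have hmono : F 0 < F 1 := by
    have hc : ContinuousOn F (Icc 0 1) := fun θ hθ => (hder θ hθ).continuousAt.continuousWithinAt
    have := strictMonoOn_of_deriv_pos (convex_Icc (0 : ℝ) 1) hc (by
      intro θ hθ
      rw [interior_Icc] at hθ
      rw [(hder θ ⟨hθ.1.le, hθ.2.le⟩).deriv]
      exact hpos θ ⟨hθ.1.le, hθ.2.le⟩)
    exact this ⟨le_rfl, zero_le_one⟩ ⟨zero_le_one, le_rfl⟩ zero_lt_one
  simp only [hF, gc_one A, gc_zero X] at hmono
  have n := nE'
  have gx : gh (125 / 1000) ≤ gh x := gh_le ⟨by norm_num, by norm_num⟩ X hx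
  have ga : gh (164 / 1000) ≤ gh a := gh_le ⟨by norm_num, by norm_num⟩ A a0
  have h2 : 1 / 2 * (gh a - gh x) < (22 / 100 * ((gh x + gh a) / 2 + 37741 / 10000)) *
      (gh a - gh x) := mul_lt_mul_of_pos_right (by linarith only [n, gx, ga]) hm
  nlinarith only [hmono, h2]

end MQ

open Finset VOL Filter Topology

namespace SR

open ML

variable {M : ℕ} {b : Fin (M + 1) → ℤ} {zs : DD (tyW b) ⊕ ZZ (tyW b) → ℂ}
variable {y : DD (tyW b) ⊕ ZZ (tyW b) → ℝ}
variable {h h' h'' : Fin M} {i j j' l : Fin (M + 1)} {p : Fin 3}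

/-- the push with slacks in terms of the own frame -/
theorem Adj.pushQ_iff (_ : Adj h i p j) {f g : ℝ → ℝ} :
    PushQ (tyW b) b i p p.rev (Xw b zs y i) (xx (tyW b) i zs) f g ↔
    (((Ys b zs i p).re < (Yw b zs y i p).re →
      |gh (Yw b zs y i p.rev).re - gh (Ys b zs i p.rev).re| ≤
        gh (Yw b zs y i p).re - gh (Ys b zs i p).re →
      rside (tyW b) b i p 0 (Xw b zs y i) < rside (tyW b) b i p 0 (xx (tyW b) i zs) +
        f (gh (Yw b zs y i p).re - gh (Ys b zs i p).re)) ∧
    ((Yw b zs y i p).re < (Ys b zs i p).re →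
      |gh (Yw b zs y i p.rev).re - gh (Ys b zs i p.rev).re| ≤
        gh (Ys b zs i p).re - gh (Yw b zs y i p).re →
      rside (tyW b) b i p 0 (xx (tyW b) i zs) < rside (tyW b) b i p 0 (Xw b zs y i) +
        g (gh (Ys b zs i p).re - gh (Yw b zs y i p).re))) := by
  unfold PushQ Yw Ys
  simp only [ofr_re]

/-- **Push of a digit `1` between a ring and a `2`, with slack `c` upwards.** -/
theorem Adj.pushQ_one (A : Adj h i p j) (A' : Adj h' i p.rev j') (hb : ClassW b) (hL : Loc b zs)
    (hX : LocX b zs) (hP : LocP b zs) (hS : LocS b zs) (hy : Mx b zs y) (hf : Flat b y)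
    (h64 : ∀ {h : Fin M} {i j : Fin (M + 1)} {p : Fin 3}, Adj h i p j → clsW b i = .one →
      clsW b j = .one → y (.inl (.inl h)) ≤ 64 / 100)
    (hs : Sum1 b y (90 / 100)) (hc : clsW b i = .one) (hj : clsW b j = .ring)
    (hj' : clsW b j' = .two) (h5 : y (.inl (.inl h)) ≤ 36 / 100)
    (r0 : 2563 / 10000 ≤ (zs (.inl (.inl h))).re) {c : ℝ}
    (hT : (c = 38 / 100 ∧ ofs (b i) (zs (.inl (.inl h))).im ≤ 128 / 1000) ∨
      (c = 355 / 1000 ∧ ofs (b i) (zs (.inl (.inl h))).im ≤ 138 / 1000)) :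
    PushQ (tyW b) b i p p.rev (Xw b zs y i) (xx (tyW b) i zs) (fun m => -(c * m)) (fun _ => 0) := by
  have hpush := A.push1 hb hL hX hP hS hy hf h64 hs hc (by linarith only [h5])
  rw [A.push_iff] at hpush
  rw [A.pushQ_iff]
  refine ⟨fun h1 h2 => ?_, fun h1 h2 => ?_⟩
  · rw [A.rs_one _ _ hb hc, A.rs_one _ _ hb hc, ofs_zero']
    change S1 1 0 (Yw b zs y i p) (Yw b zs y i p.rev) <
      S1 1 0 (Ys b zs i p) (Ys b zs i p.rev) + _
    have w := hX.win A A' hc
    rw [hj, hj'] at w
    simp only [cw] at w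
    obtain ⟨w1, w2, w3, w4⟩ := w
    have r := A.rz_box hb hL hc
    have r' := A'.rz_box hb hL hc
    rw [hj] at r
    rw [hj'] at r'
    simp only [MQ.rz] at r r'
    push_cast at r r'
    have hx' := (wcl_pos h').trans_le (hf h').1
    have hss := hs A A' hc
    simp only [A.Yw_flat hy hf, A'.Yw_flat hy hf, A.Ys_lv, A'.Ys_lv, lv_re] at h1 h2 ⊢
    unfold S1
    simp only [lv_re, lv_im, zero_mul, add_zero, one_mul]
    rcases hT with ⟨e, hT⟩ | ⟨e, hT⟩
    · have := MQ.slack_38 (t := ofs (b i) (zs (.inl (.inl h))).im)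
        (t' := ofs (b i) (zs (.inl (.inl h'))).im) r0 (by linarith only [h5, r, h1]) (by linarith only [r']) (by linarith only [r'])
        (by linarith only [h5]) hx' (by linarith only [h5, r0, hss, h1]) h1 h2 (by linarith only [w1]) hT (by linarith only [w3]) (by linarith only [w4])
      rw [e]
      linarith only [this]
    · have := MQ.slack_355 (t := ofs (b i) (zs (.inl (.inl h))).im)
        (t' := ofs (b i) (zs (.inl (.inl h'))).im) r0 (by linarith only [h5, r, h1]) (by linarith only [r']) (by linarith only [r'])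
        (by linarith only [h5]) hx' (by linarith only [h5, r0, hss, h1]) h1 h2 (by linarith only [w1]) hT (by linarith only [w3]) (by linarith only [w4])
      rw [e]
      linarith only [this]
  · simpa using hpush.2 h1 h2

/-- **Push of a digit `2` at an end next to a `4`, with slack `1 / 2` downwards.** -/
theorem Adj.pushQ_twoE (A : Adj h i p j) (hb : ClassW b) (hL : Loc b zs) (hX : LocX b zs)
    (hy : Mx b zs y) (hf : Flat b y) (hc : clsW b i = .twoE) (hj : clsW b j = .ring)
    (h4 : (b j).natAbs = 4) (h5 : y (.inl (.inl h)) ≤ 1 / 2) :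
    PushQ (tyW b) b i p p.rev (Xw b zs y i) (xx (tyW b) i zs) (fun _ => 0)
      (fun m => -(1 / 2 * m)) := by
  have hpush := A.push2E hb hL hy hf hc h5
  rw [A.push_iff] at hpush
  rw [A.pushQ_iff]
  have he := clsW_end (Or.inl hc)
  have h0 : Yw b zs y i p.rev = 0 := by
    rcases A.other b zs y with ⟨-, h0⟩ | ⟨he', -⟩
    · exact h0
    · rw [he] at he'
      exact absurd he' (by decide)
  have h0' : Ys b zs i p.rev = 0 := A.Ys_other he
  refine ⟨fun h1 h2 => ?_, fun h1 h2 => ?_⟩
  · simpa using hpush.1 h1 h2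
  · rw [A.rs_two _ _ hb (Or.inr hc), A.rs_two _ _ hb (Or.inr hc), ofs_zero']
    change S2 1 0 (Ys b zs i p) (Ys b zs i p.rev) <
      S2 1 0 (Yw b zs y i p) (Yw b zs y i p.rev) + _
    have hT := hX.lo4 A (by rw [hc]; decide) (by rw [hc]; decide) hj h4
    have hop := A.opp hb (Or.inl (by rw [hc]; decide))
    have hB := A.box hb hL
    rw [hc, hj, A.ss hop] at hB
    simp only [hbox] at hB
    have hcl : (125 : ℝ) / 1000 ≤ y (.inl (.inl h)) := by
      have h6 := (hf h).1
      rw [A.cl_eq b, hc, hj] at h6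
      unfold hpp at h6
      split_ifs at h6 <;> simp only [hp] at h6 <;> exact h6
    simp only [h0, h0', A.Yw_flat hy hf, A.Ys_lv, lv_re] at h1 h2 ⊢
    unfold S2
    simp only [lv_re, lv_im, zero_mul, add_zero, one_mul, Complex.zero_im]
    have := MQ.slackE (t := ofs (b i) (zs (.inl (.inl h))).im) hB.1 hB.2.1 hcl h1
      (by linarith only [hB, hB.2.2.1]) hT
    linarith only [this]

end SR

end Pool.Agent.Work.MP_b30479_gt.G2
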