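import Pool.Agent.Work.MP_b30479_gt.G2.RV
import Pool.Agent.Work.NumU.ChkS

/-!
# The right ramp of a hinge between a digit `1` and an end digit `2`: rows

Box variables `x`, `T`, `u = x + B`, `s = τ + β`: `x + i τ` the hinge, `T` the height of its path,
`B + i β` the other hinge of the digit `1`.
-/

set_option linter.unusedSimpArgs false

namespace Pool.Agent.Work.MP_b30479_gt.G2

open VOL NumU

namespace M12

section
open NumI (V)
open NumU.E

def eX : E := var 0
def eT : E := var 1
def eU : E := var 2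
def eS : E := var 3
def et : E := mul eT (mul (q 20 7) (sub (q 7 10) eX))
def be : E := sub eS et
def bb : E := sub eU eX
def mm : E := mul (q (-20) 7) eT
def tot : E := add (add (mul pi eS) (sub (E.lnA eU eS) (mul (q 2 1) (E.lnA eX et))))
  (mul mm (add (sub (mul pi (sub eU (q 1 2))) (E.lnB eU eS)) (mul (q 2 1) (E.lnB eX et))))
/-- gain of the move to `c`, without the node of the sum -/
def gR (c : E) : E := add (add (mul pi (add (mul (sub c eX) be) (mul (sub eT et) (sub bb (q 1 1)))))
  (E.uu (add bb c) (add eT be))) (add (sub (mul (q 2 1) (E.uu eX et)) (mul (q 2 1) (E.uu c eT)))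
    (mul (mul pi (q 1 2)) (sub (mul eT (add (mul (q 2 1) c) (q 1 1)))
      (mul et (add (mul (q 2 1) eX) (q 1 1))))))
def gA (c : E) : E := sub (gR c) (E.uu eU eS)
def gZp (k : ℤ) : E := sub (sub (gR (q 1 4)) (mul (mul pi (q 1 2)) eS)) (q k 1000)
def gZm (k : ℤ) : E := sub (add (gR (q 1 4)) (mul (mul pi (q 1 2)) eS)) (q k 1000)
def gBp : E := sub (sub (gR (q 1 4)) (E.uu (sub eU (q 1 1)) eS)) (mul pi eS)
def gBm : E := add (sub (gR (q 1 4)) (E.uu (sub eU (q 1 1)) eS)) (mul pi eS)
/-- `T + β` above the bound -/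
def cT (s : ℤ) : E := sub (add eT be) (q s 10000)
def cb (s : ℤ) : E := sub be (q s 10000)
def cc (s : ℤ) : E := sub (q s 10000) be
/-- `B` above or below the bound -/
def cB (s : ℤ) : E := sub bb (q s 10000)
def cC (s : ℤ) : E := sub (q s 10000) bb
/-- `B < β` -/
def cD : E := sub be bb

theorem k16 : 2 * Real.cosh (Real.pi * (2 * (16 / 100))) - 2 * Real.cos (Real.pi * (2 * (5 / 100)))
    ≤ 122 / 100 := by
  have h : chk [sub (q 122 100) (sub (mul (q 2 1) (cosh (mul pi (q 32 100))))
      (mul (q 2 1) (cosPi (q 1 10))))] 1 [V.of 1 0 0] = true := by decide +kernel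
  have hp := pos_of_chk (chk1 h (by norm_num) (x := 0) (by norm_num) (by norm_num))
  simp only [val] at hp
  norm_num at hp ⊢
  linarith only [hp]

theorem k2 : -(62 / 1000) < uu (2 / 100) 0 := by
  have h : chk [add (E.uu (q 2 100) (q 0 1)) (q 62 1000)] 1 [V.of 1 0 0] = true := by decide +kernel
  have hp := pos_of_chk (chk1 h (by norm_num) (x := 0) (by norm_num) (by norm_num))
  simp only [val] at hp
  push_cast at hp
  simp only [zero_div] at hp
  linarith only [hp]

theorem k15 : -(55 / 1000) < uu (15 / 1000) 0 := by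
  have h : chk [add (E.uu (q 15 1000) (q 0 1)) (q 55 1000)] 1 [V.of 1 0 0] = true := by
    decide +kernel
  have hp := pos_of_chk (chk1 h (by norm_num) (x := 0) (by norm_num) (by norm_num))
  simp only [val] at hp
  push_cast at hp
  simp only [zero_div] at hp
  linarith only [hp]

end

/-- the slope of `uu` near `0` is small -/
theorem slope {d y : ℝ} (h0 : 0 ≤ d) (h1 : d ≤ 5 / 100) (hy : |y| ≤ 16 / 100) :
    uu d y ≤ -(Real.pi / 2 * |y|) + 11 / 100 * d := by
  have hp := Real.pi_pos
  have hpt : ∀ s : ℝ, (y : ℂ) * Complex.I + ((1 * s : ℝ) : ℂ) = ⟨s, y⟩ := by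
    intro s
    apply Complex.ext <;> simp
  have hd : ∀ s ∈ Set.Ioo (0 : ℝ) d, HasDerivAt
      (fun s : ℝ => UU ((y : ℂ) * Complex.I + ((1 * s : ℝ) : ℂ)) - 11 / 100 * s)
      (1 * LL ⟨s, y⟩ - 11 / 100) s := by
    intro s hs
    have h2 := hasDerivAt_UU_level ((y : ℂ) * Complex.I) 1 s (by
      rw [hpt]
      intro hc
      rw [Complex.sin_eq_zero_iff] at hc
      obtain ⟨k, hk⟩ := hc
      have hk1 : (⟨s, y⟩ : ℂ) = k := by
        have : (Real.pi : ℂ) ≠ 0 := by exact_mod_cast hp.ne'
        apply mul_left_cancel₀ this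
        rw [hk]
        ring
      have hk2 := congrArg Complex.re hk1
      simp only [Complex.intCast_re] at hk2
      have a1 := hs.1
      have a2 := hs.2
      rw [hk2] at a1 a2
      have a3 : (0 : ℤ) < k := by exact_mod_cast a1
      have a4 : (k : ℝ) < 1 := by linarith only [h1, a1, a2]
      have a5 : k < 1 := by exact_mod_cast a4
      omega)
    rw [hpt] at h2
    exact (h2.fun_sub ((hasDerivAt_id' s).const_mul (11 / 100 : ℝ))).congr_deriv (by ring)
  have hanti : AntitoneOn (fun s : ℝ => UU ((y : ℂ) * Complex.I + ((1 * s : ℝ) : ℂ)) - 11 / 100 * s)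
      (Set.Icc 0 d) := by
    apply antitoneOn_of_deriv_nonpos (convex_Icc _ _)
    · apply Continuous.continuousOn
      exact (continuous_UU.comp (by fun_prop)).sub (by fun_prop)
    · rw [interior_Icc]
      exact fun s hs => (hd s hs).differentiableAt.differentiableWithinAt
    · rw [interior_Icc]
      intro s hs
      rw [(hd s hs).deriv, one_mul]
      have h3 : LL ⟨s, y⟩ ≤ Real.log (122 / 100) / 2 := by
        apply MR.LL_le_log (by norm_num)
        have h4 := MR.cosh_le_of (t := y) (r := 16 / 100) hy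
        have h5 : Real.cos (Real.pi * (2 * (5 / 100))) ≤ Real.cos (2 * Real.pi * s) := by
          apply Real.cos_le_cos_of_nonneg_of_le_pi
          · have := hs.1
            positivity
          · nlinarith only [hp]
          · have := hs.2
            nlinarith only [h1, hp, this]
        have h6 := k16
        simp only
        linarith only [h4, h5, h6]
      have h4 := Real.log_le_sub_one_of_pos (show (0 : ℝ) < 122 / 100 by norm_num)
      linarith only [h3, h4]
  have h2 := hanti (Set.left_mem_Icc.2 h0) (Set.right_mem_Icc.2 h0) h0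
  simp only [hpt] at h2
  have h3 : UU ⟨0, y⟩ = -(Real.pi / 2 * |y|) := by
    unfold UU
    simp only [DT.Lr_zero_right]
    ring
  rw [h3] at h2
  have h4 : uu d y = UU ⟨d, y⟩ := rfl
  rw [h4]
  linarith only [h2]

/-- near the point `1` -/
theorem corner {u s δ K : ℝ} (hK : -K < uu δ 0) (hδ' : δ ≤ 5 / 100)
    (hδK : 11 / 100 * δ ≤ K) (h1 : 1 - δ ≤ u) (h2 : u ≤ 1 + δ) (hs : |s| ≤ 16 / 100) :
    uu u s ≤ Real.pi / 2 * |s| + K := by
  rcases le_total u 1 with h3 | h3
  · rw [RV.before (show u = 1 - (1 - u) by ring)]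
    have h4 : uu δ 0 ≤ uu (1 - u) 0 :=
      RV.anti (by linarith only [hδ', h2]) (by linarith only [h1]) hδ' (by norm_num)
    have h5 : uu (1 - u) 0 ≤ uu (1 - u) s + Real.pi / 2 * |s| := by
      have h6 := Lr_diff_mono (a := 1 - u) (b := 0) (s := 0) (s' := |s|) (by linarith only [h3]) le_rfl
        (abs_nonneg s)
      rw [DT.Lr_zero_right, DT.Lr_zero_right, sub_zero, sub_zero] at h6
      unfold uu UU
      simp only [abs_zero]
      linarith only [h6]
    linarith only [hK, h4, h5]
  · rw [RV.beyond (show u = (u - 1) + 1 by ring)]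
    have h4 := slope (d := u - 1) (y := s) (by linarith only [h3]) (by linarith only [hδ', h2]) hs
    have h5 : 11 / 100 * (u - 1) ≤ 11 / 100 * δ := by linarith only [h2]
    linarith only [hδK, h2, h4]

/-! ### closed forms -/

theorem lnA_neg (x t : ℝ) : NumI.lnA x (-t) = NumI.lnA x t := by
  unfold NumI.lnA
  rw [mul_neg, Real.sinh_neg, neg_sq]

theorem lnB_neg (x t : ℝ) : NumI.lnB x (-t) = -NumI.lnB x t := by
  unfold NumI.lnB
  rw [mul_neg, Real.sinh_neg, Real.cosh_neg, ← Real.arctan_neg]
  congr 1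
  ring

/-- both sides at the hinge -/
noncomputable def tt (m x τ B β : ℝ) : ℝ := MR.s1 m x τ B β + MR.s2e (-m) x (-τ)

theorem tt_eq (m x τ B β : ℝ) : tt m x τ B β = Real.pi * (τ + β) +
    (NumI.lnA (x + B) (τ + β) - 2 * NumI.lnA x τ) +
    m * (Real.pi * (x + B - 1 / 2) - NumI.lnB (x + B) (τ + β) + 2 * NumI.lnB x τ) := by
  unfold tt MR.s1 MR.s2e
  rw [lnA_neg, lnB_neg]
  ring

/-- gain of the move of the hinge to the point `c + i T` of the flat part -/
noncomputable def gn (c x τ T B β : ℝ) : ℝ :=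
  Real.pi * ((c - x) * β + (T - τ) * (B - 1)) + uu (B + c) (T + β) +
    (2 * uu x τ - 2 * uu c T + Real.pi * (1 / 2) * (T * (2 * c + 1) - τ * (2 * x + 1))) -
    uu (x + B) (τ + β)

/-! ### rows -/

variable {x T B β τ : ℝ}

/-- bounds of the height -/
theorem tau_mem (hτ : τ = T * (20 / 7 * (7 / 10 - x))) (hx : 35 / 100 ≤ x) (hx' : x ≤ 70 / 100) {a b : ℝ} (ha : a ≤ 0) (hb : 0 ≤ b)
    (h1 : a ≤ T) (h2 : T ≤ b) : a ≤ τ ∧ τ ≤ b := by
  have k0 : 0 ≤ 20 / 7 * (7 / 10 - x) := by linarith only [hx']
  have k1 : 20 / 7 * (7 / 10 - x) ≤ 1 := by linarith only [hx]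
  rw [hτ]
  constructor <;> nlinarith only [hx, ha, hx', h1, hb, h2]

/-- first order condition, the other neighbour of the digit is not a ring -/
theorem d_nr (hx : 35 / 100 ≤ x) (hx' : x ≤ 70 / 100) (hT : -(66 / 1000) ≤ T) (hT' : T ≤ 1 / 1000)
    (hτ : τ = T * (20 / 7 * (7 / 10 - x))) (hb : -(33 / 1000) ≤ β) (hb' : β ≤ 1145 / 10000)
    (hTb : T + β ≤ 77 / 1000)
    (hB : 7 / 100 ≤ B) (hD : β ≤ B) (hs : x + B ≤ 97 / 100) :
    tt (-T / (35 / 100)) x τ B β < 0 := by
  have e0 : T * (20 / 7 * (7 / 10 - x)) = τ := hτ.symm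
  obtain ⟨t1, t2⟩ := tau_mem hτ hx hx' (a := -(66 / 1000)) (b := 1 / 1000) (by norm_num) (by norm_num) hT hT'
  have h : chk [E.neg tot, cT 770, cb 1145, cc (-330), cC 700, cD] 24
    [NumI.V.of 10000 3500 7000, NumI.V.of 10000 (-660) 10,
      NumI.V.of 10000 4200 9700, NumI.V.of 10000 (-990) 1155] = true := by
    decide +kernel
  obtain ⟨f, hf, hp⟩ := chk4 h (by norm_num) (x := x) (y := T) (z := x + B) (w := τ + β)
    (by norm_num; linarith only [hx]) (by norm_num; linarith only [hx']) (by norm_num; linarith only [hT]) (by norm_num; linarith only [hT'])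
    (by norm_num; linarith only [hx, hB]) (by norm_num; linarith only [hs]) (by norm_num; linarith only [hb, t1]) (by norm_num; linarith only [hb', t2])
  simp only [List.mem_cons, List.not_mem_nil, or_false] at hf
  rcases hf with rfl | rfl | rfl | rfl | rfl | rfl
  · simp only [tot, mm, eX, eT, eU, eS, et, be, bb, E.val, NumI.lkR] at hp
    push_cast at hp
    try simp only [div_one, e0, add_sub_cancel_left, ← hτ] at hp
    rw [tt_eq]
    linarith only [hp]
  · simp only [cT, eX, eT, eU, eS, et, be, bb, E.val, NumI.lkR] at hp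
    push_cast at hp
    try simp only [div_one, e0, add_sub_cancel_left, ← hτ] at hp
    linarith only [hTb, hp]
  · simp only [cb, eX, eT, eU, eS, et, be, bb, E.val, NumI.lkR] at hp
    push_cast at hp
    try simp only [div_one, e0, add_sub_cancel_left, ← hτ] at hp
    linarith only [hb', hp]
  · simp only [cc, eX, eT, eU, eS, et, be, bb, E.val, NumI.lkR] at hp
    push_cast at hp
    try simp only [div_one, e0, add_sub_cancel_left, ← hτ] at hp
    linarith only [hb, hp]
  · simp only [cC, eX, eT, eU, eS, et, be, bb, E.val, NumI.lkR] at hp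
    push_cast at hp
    try simp only [div_one, e0, add_sub_cancel_left, ← hτ] at hp
    linarith only [hB, hp]
  · simp only [cD, eX, eT, eU, eS, et, be, bb, E.val, NumI.lkR] at hp
    push_cast at hp
    try simp only [div_one, e0, add_sub_cancel_left, ← hτ] at hp
    linarith only [hD, hp]

theorem d_rg_h1_q1 : chk [E.neg tot, cT 1060, cb 1580, cc 0, cC 700, cD] 23
    (NumI.setL 2 [NumI.V.of 10000 3500 6000, NumI.V.of 10000 (-610) (-240),
      NumI.V.of 10000 4200 9700, NumI.V.of 10000 (-610) 1580]) = true := by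
  decide +kernel

theorem d_rg_h1_q2 : chk [E.neg tot, cT 1060, cb 1580, cc 0, cC 700, cD] 23
    (NumI.setR 2 [NumI.V.of 10000 3500 6000, NumI.V.of 10000 (-610) (-240),
      NumI.V.of 10000 4200 9700, NumI.V.of 10000 (-610) 1580]) = true := by
  decide +kernel

theorem d_rg_h1 : chk [E.neg tot, cT 1060, cb 1580, cc 0, cC 700, cD] 24
    [NumI.V.of 10000 3500 6000, NumI.V.of 10000 (-610) (-240),
      NumI.V.of 10000 4200 9700, NumI.V.of 10000 (-610) 1580] = true :=
  NumU.chk_node (i := 2) (by decide +kernel)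
    d_rg_h1_q1
    d_rg_h1_q2

/-- first order condition next to a ring -/
theorem d_rg (hx : 35 / 100 ≤ x) (hx' : x ≤ 60 / 100) (hT : -(61 / 1000) ≤ T) (hT' : T ≤ -(24 / 1000))
    (hτ : τ = T * (20 / 7 * (7 / 10 - x))) (hb : 0 ≤ β) (hb' : β ≤ 158 / 1000)
    (hTb : T + β ≤ 106 / 1000)
    (hB : 7 / 100 ≤ B) (hD : β ≤ B) (hs : x + B ≤ 97 / 100) :
    tt (-T / (35 / 100)) x τ B β < 0 := by
  have e0 : T * (20 / 7 * (7 / 10 - x)) = τ := hτ.symm
  obtain ⟨t1, t2⟩ := tau_mem hτ (by linarith only [hx]) (by linarith only [hx']) (a := -(61 / 1000)) (b := 0) (by norm_num) le_rfl hT (by linarith only [hT'])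
  have h : chk [E.neg tot, cT 1060, cb 1580, cc 0, cC 700, cD] 24
    [NumI.V.of 10000 3500 6000, NumI.V.of 10000 (-610) (-240),
      NumI.V.of 10000 4200 9700, NumI.V.of 10000 (-610) 1580] = true := d_rg_h1
  obtain ⟨f, hf, hp⟩ := chk4 h (by norm_num) (x := x) (y := T) (z := x + B) (w := τ + β)
    (by norm_num; linarith only [hx]) (by norm_num; linarith only [hx']) (by norm_num; linarith only [hT]) (by norm_num; linarith only [hT'])
    (by norm_num; linarith only [hx, hB]) (by norm_num; linarith only [hs]) (by norm_num; linarith only [hb, t1]) (by norm_num; linarith only [hb', t2])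
  simp only [List.mem_cons, List.not_mem_nil, or_false] at hf
  rcases hf with rfl | rfl | rfl | rfl | rfl | rfl
  · simp only [tot, mm, eX, eT, eU, eS, et, be, bb, E.val, NumI.lkR] at hp
    push_cast at hp
    try simp only [div_one, e0, add_sub_cancel_left, ← hτ] at hp
    rw [tt_eq]
    linarith only [hp]
  · simp only [cT, eX, eT, eU, eS, et, be, bb, E.val, NumI.lkR] at hp
    push_cast at hp
    try simp only [div_one, e0, add_sub_cancel_left, ← hτ] at hp
    linarith only [hTb, hp]
  · simp only [cb, eX, eT, eU, eS, et, be, bb, E.val, NumI.lkR] at hp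
    push_cast at hp
    try simp only [div_one, e0, add_sub_cancel_left, ← hτ] at hp
    linarith only [hb', hp]
  · simp only [cc, eX, eT, eU, eS, et, be, bb, E.val, NumI.lkR] at hp
    push_cast at hp
    try simp only [div_one, e0, add_sub_cancel_left, ← hτ] at hp
    linarith only [hb, hp]
  · simp only [cC, eX, eT, eU, eS, et, be, bb, E.val, NumI.lkR] at hp
    push_cast at hp
    try simp only [div_one, e0, add_sub_cancel_left, ← hτ] at hp
    linarith only [hB, hp]
  · simp only [cD, eX, eT, eU, eS, et, be, bb, E.val, NumI.lkR] at hp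
    push_cast at hp
    try simp only [div_one, e0, add_sub_cancel_left, ← hτ] at hp
    linarith only [hD, hp]

/-- value next to a ring -/
theorem v_rg (hx : 60 / 100 ≤ x) (hx' : x ≤ 70 / 100) (hT : -(61 / 1000) ≤ T) (hT' : T ≤ -(24 / 1000))
    (hτ : τ = T * (20 / 7 * (7 / 10 - x))) (hb : 0 ≤ β) (hb' : β ≤ 158 / 1000)
    (hTb : T + β ≤ 106 / 1000)
    (hB : 7 / 100 ≤ B) (hD : β ≤ B) (hs : x + B ≤ 97 / 100) :
    0 < gn (32 / 100) x τ T B β := by
  have e0 : T * (20 / 7 * (7 / 10 - x)) = τ := hτ.symm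
  obtain ⟨t1, t2⟩ := tau_mem hτ (by linarith only [hx]) (by linarith only [hx']) (a := -(61 / 1000)) (b := 0) (by norm_num) le_rfl hT (by linarith only [hT'])
  have h : chk [gA (E.q 32 100), cT 1060, cb 1580, cc 0, cC 700, cD] 24
    [NumI.V.of 10000 6000 7000, NumI.V.of 10000 (-610) (-240),
      NumI.V.of 10000 6700 9700, NumI.V.of 10000 (-610) 1580] = true := by
    decide +kernel
  obtain ⟨f, hf, hp⟩ := chk4 h (by norm_num) (x := x) (y := T) (z := x + B) (w := τ + β)
    (by norm_num; linarith only [hx]) (by norm_num; linarith only [hx']) (by norm_num; linarith only [hT]) (by norm_num; linarith only [hT'])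
    (by norm_num; linarith only [hx, hB]) (by norm_num; linarith only [hs]) (by norm_num; linarith only [hb, t1]) (by norm_num; linarith only [hb', t2])
  simp only [List.mem_cons, List.not_mem_nil, or_false] at hf
  rcases hf with rfl | rfl | rfl | rfl | rfl | rfl
  · simp only [gA, gR, eX, eT, eU, eS, et, be, bb, E.val, NumI.lkR] at hp
    push_cast at hp
    try simp only [div_one, e0, add_sub_cancel_left, ← hτ] at hp
    unfold gn
    linarith only [hp]
  · simp only [cT, eX, eT, eU, eS, et, be, bb, E.val, NumI.lkR] at hp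
    push_cast at hp
    try simp only [div_one, e0, add_sub_cancel_left, ← hτ] at hp
    linarith only [hTb, hp]
  · simp only [cb, eX, eT, eU, eS, et, be, bb, E.val, NumI.lkR] at hp
    push_cast at hp
    try simp only [div_one, e0, add_sub_cancel_left, ← hτ] at hp
    linarith only [hb', hp]
  · simp only [cc, eX, eT, eU, eS, et, be, bb, E.val, NumI.lkR] at hp
    push_cast at hp
    try simp only [div_one, e0, add_sub_cancel_left, ← hτ] at hp
    linarith only [hb, hp]
  · simp only [cC, eX, eT, eU, eS, et, be, bb, E.val, NumI.lkR] at hp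
    push_cast at hp
    try simp only [div_one, e0, add_sub_cancel_left, ← hτ] at hp
    linarith only [hB, hp]
  · simp only [cD, eX, eT, eU, eS, et, be, bb, E.val, NumI.lkR] at hp
    push_cast at hp
    try simp only [div_one, e0, add_sub_cancel_left, ← hτ] at hp
    linarith only [hD, hp]

theorem a_rg (hx : 35 / 100 ≤ x) (hx' : x ≤ 70 / 100) (hT : -(61 / 1000) ≤ T) (hT' : T ≤ -(24 / 1000))
    (hτ : τ = T * (20 / 7 * (7 / 10 - x))) (hb : 0 ≤ β) (hb' : β ≤ 158 / 1000)
    (hTb : T + β ≤ 106 / 1000)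
    (hB : B ≤ 65 / 100) (hs : 97 / 100 ≤ x + B) (hs' : x + B ≤ 197 / 200) :
    0 < gn (1 / 4) x τ T B β := by
  have e0 : T * (20 / 7 * (7 / 10 - x)) = τ := hτ.symm
  obtain ⟨t1, t2⟩ := tau_mem hτ (by linarith only [hx]) (by linarith only [hx']) (a := -(61 / 1000)) (b := 0) (by norm_num) le_rfl hT (by linarith only [hT'])
  have h : chk [gA (E.q 1 4), cT 1060, cb 1580, cc 0, cB 6500] 24
    [NumI.V.of 10000 3500 7000, NumI.V.of 10000 (-610) (-240),
      NumI.V.of 10000 9700 9850, NumI.V.of 10000 (-610) 1580] = true := by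
    decide +kernel
  obtain ⟨f, hf, hp⟩ := chk4 h (by norm_num) (x := x) (y := T) (z := x + B) (w := τ + β)
    (by norm_num; linarith only [hx]) (by norm_num; linarith only [hx']) (by norm_num; linarith only [hT]) (by norm_num; linarith only [hT'])
    (by norm_num; linarith only [hs]) (by norm_num; linarith only [hs']) (by norm_num; linarith only [hb, t1]) (by norm_num; linarith only [hb', t2])
  simp only [List.mem_cons, List.not_mem_nil, or_false] at hf
  rcases hf with rfl | rfl | rfl | rfl | rfl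
  · simp only [gA, gR, eX, eT, eU, eS, et, be, bb, E.val, NumI.lkR] at hp
    push_cast at hp
    try simp only [div_one, e0, add_sub_cancel_left, ← hτ] at hp
    unfold gn
    linarith only [hp]
  · simp only [cT, eX, eT, eU, eS, et, be, bb, E.val, NumI.lkR] at hp
    push_cast at hp
    try simp only [div_one, e0, add_sub_cancel_left, ← hτ] at hp
    linarith only [hTb, hp]
  · simp only [cb, eX, eT, eU, eS, et, be, bb, E.val, NumI.lkR] at hp
    push_cast at hp
    try simp only [div_one, e0, add_sub_cancel_left, ← hτ] at hp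
    linarith only [hb', hp]
  · simp only [cc, eX, eT, eU, eS, et, be, bb, E.val, NumI.lkR] at hp
    push_cast at hp
    try simp only [div_one, e0, add_sub_cancel_left, ← hτ] at hp
    linarith only [hb, hp]
  · simp only [cB, eX, eT, eU, eS, et, be, bb, E.val, NumI.lkR] at hp
    push_cast at hp
    try simp only [div_one, e0, add_sub_cancel_left, ← hτ] at hp
    linarith only [hx, hs', hp]

theorem zp_rg (hx : 35 / 100 ≤ x) (hx' : x ≤ 70 / 100) (hT : -(61 / 1000) ≤ T) (hT' : T ≤ -(24 / 1000))
    (hτ : τ = T * (20 / 7 * (7 / 10 - x))) (hb : 0 ≤ β) (hb' : β ≤ 158 / 1000)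
    (hTb : T + β ≤ 106 / 1000)
    (hB : B ≤ 65 / 100) (hs : 197 / 200 ≤ x + B) (hs' : x + B ≤ 203 / 200)
    (h0 : 0 ≤ τ + β) :
    0 < gn (1 / 4) x τ T B β := by
  have e0 : T * (20 / 7 * (7 / 10 - x)) = τ := hτ.symm
  obtain ⟨t1, t2⟩ := tau_mem hτ (by linarith only [hx]) (by linarith only [hx']) (a := -(61 / 1000)) (b := 0) (by norm_num) le_rfl hT (by linarith only [hT'])
  have hz : uu (x + B) (τ + β) ≤ Real.pi / 2 * |τ + β| + 55 / 1000 := corner (δ := 3 / 200) (by have := k15; linarith only [this]) (by norm_num)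
    (by norm_num) (by linarith only [hs]) (by linarith only [hs']) (by rw [abs_le]; constructor <;> linarith only [h0, hb', t2])
  rw [abs_of_nonneg h0] at hz
  have h : chk [gZp 55, cT 1060, cb 1580, cc 0, cB 6500] 24
    [NumI.V.of 10000 3500 7000, NumI.V.of 10000 (-610) (-240),
      NumI.V.of 10000 9850 10150, NumI.V.of 10000 0 1580] = true := by
    decide +kernel
  obtain ⟨f, hf, hp⟩ := chk4 h (by norm_num) (x := x) (y := T) (z := x + B) (w := τ + β)
    (by norm_num; linarith only [hx]) (by norm_num; linarith only [hx']) (by norm_num; linarith only [hT]) (by norm_num; linarith only [hT'])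
    (by norm_num; linarith only [hs]) (by norm_num; linarith only [hs']) (by norm_num; linarith only [h0]) (by norm_num; linarith only [hb', t2])
  simp only [List.mem_cons, List.not_mem_nil, or_false] at hf
  rcases hf with rfl | rfl | rfl | rfl | rfl
  · simp only [gZp, gR, eX, eT, eU, eS, et, be, bb, E.val, NumI.lkR] at hp
    push_cast at hp
    try simp only [div_one, e0, add_sub_cancel_left, ← hτ] at hp
    unfold gn
    linarith only [hz, hp]
  · simp only [cT, eX, eT, eU, eS, et, be, bb, E.val, NumI.lkR] at hp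
    push_cast at hp
    try simp only [div_one, e0, add_sub_cancel_left, ← hτ] at hp
    linarith only [hTb, hp]
  · simp only [cb, eX, eT, eU, eS, et, be, bb, E.val, NumI.lkR] at hp
    push_cast at hp
    try simp only [div_one, e0, add_sub_cancel_left, ← hτ] at hp
    linarith only [hb', hp]
  · simp only [cc, eX, eT, eU, eS, et, be, bb, E.val, NumI.lkR] at hp
    push_cast at hp
    try simp only [div_one, e0, add_sub_cancel_left, ← hτ] at hp
    linarith only [hb, hp]
  · simp only [cB, eX, eT, eU, eS, et, be, bb, E.val, NumI.lkR] at hp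
    push_cast at hp
    try simp only [div_one, e0, add_sub_cancel_left, ← hτ] at hp
    linarith only [hB, hp]

theorem zm_rg (hx : 35 / 100 ≤ x) (hx' : x ≤ 70 / 100) (hT : -(61 / 1000) ≤ T) (hT' : T ≤ -(24 / 1000))
    (hτ : τ = T * (20 / 7 * (7 / 10 - x))) (hb : 0 ≤ β) (hb' : β ≤ 158 / 1000)
    (hTb : T + β ≤ 106 / 1000)
    (hB : B ≤ 65 / 100) (hs : 197 / 200 ≤ x + B) (hs' : x + B ≤ 203 / 200)
    (h0 : τ + β ≤ 0) :
    0 < gn (1 / 4) x τ T B β := by
  have e0 : T * (20 / 7 * (7 / 10 - x)) = τ := hτ.symm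
  obtain ⟨t1, t2⟩ := tau_mem hτ (by linarith only [hx]) (by linarith only [hx']) (a := -(61 / 1000)) (b := 0) (by norm_num) le_rfl hT (by linarith only [hT'])
  have hz : uu (x + B) (τ + β) ≤ Real.pi / 2 * |τ + β| + 55 / 1000 := corner (δ := 3 / 200) (by have := k15; linarith only [this]) (by norm_num)
    (by norm_num) (by linarith only [hs]) (by linarith only [hs']) (by rw [abs_le]; constructor <;> linarith only [hb, t1, h0])
  rw [abs_of_nonpos h0] at hz
  have h : chk [gZm 55, cT 1060, cb 1580, cc 0, cB 6500] 24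
    [NumI.V.of 10000 3500 7000, NumI.V.of 10000 (-610) (-240),
      NumI.V.of 10000 9850 10150, NumI.V.of 10000 (-610) 0] = true := by
    decide +kernel
  obtain ⟨f, hf, hp⟩ := chk4 h (by norm_num) (x := x) (y := T) (z := x + B) (w := τ + β)
    (by norm_num; linarith only [hx]) (by norm_num; linarith only [hx']) (by norm_num; linarith only [hT]) (by norm_num; linarith only [hT'])
    (by norm_num; linarith only [hs]) (by norm_num; linarith only [hs']) (by norm_num; linarith only [hb, t1]) (by norm_num; linarith only [h0])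
  simp only [List.mem_cons, List.not_mem_nil, or_false] at hf
  rcases hf with rfl | rfl | rfl | rfl | rfl
  · simp only [gZm, gR, eX, eT, eU, eS, et, be, bb, E.val, NumI.lkR] at hp
    push_cast at hp
    try simp only [div_one, e0, add_sub_cancel_left, ← hτ] at hp
    unfold gn
    linarith only [hz, hp]
  · simp only [cT, eX, eT, eU, eS, et, be, bb, E.val, NumI.lkR] at hp
    push_cast at hp
    try simp only [div_one, e0, add_sub_cancel_left, ← hτ] at hp
    linarith only [hTb, hp]
  · simp only [cb, eX, eT, eU, eS, et, be, bb, E.val, NumI.lkR] at hp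
    push_cast at hp
    try simp only [div_one, e0, add_sub_cancel_left, ← hτ] at hp
    linarith only [hb', hp]
  · simp only [cc, eX, eT, eU, eS, et, be, bb, E.val, NumI.lkR] at hp
    push_cast at hp
    try simp only [div_one, e0, add_sub_cancel_left, ← hτ] at hp
    linarith only [hb, hp]
  · simp only [cB, eX, eT, eU, eS, et, be, bb, E.val, NumI.lkR] at hp
    push_cast at hp
    try simp only [div_one, e0, add_sub_cancel_left, ← hτ] at hp
    linarith only [hB, hp]

theorem bp_rg (hx : 35 / 100 ≤ x) (hx' : x ≤ 70 / 100) (hT : -(61 / 1000) ≤ T) (hT' : T ≤ -(24 / 1000))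
    (hτ : τ = T * (20 / 7 * (7 / 10 - x))) (hb : 0 ≤ β) (hb' : β ≤ 158 / 1000)
    (hTb : T + β ≤ 106 / 1000)
    (hB : B ≤ 65 / 100) (hs : 203 / 200 ≤ x + B) (h0 : 0 ≤ τ + β) :
    0 < gn (1 / 4) x τ T B β := by
  have e0 : T * (20 / 7 * (7 / 10 - x)) = τ := hτ.symm
  obtain ⟨t1, t2⟩ := tau_mem hτ (by linarith only [hB, hs]) (by linarith only [hx']) (a := -(61 / 1000)) (b := 0) (by norm_num) le_rfl hT (by linarith only [hT'])
  have hz := RV.beyond (y := τ + β) (show x + B = (x + B - 1) + 1 by ring)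
  rw [abs_of_nonneg h0] at hz
  have h : chk [gBp, cT 1060, cb 1580, cc 0, cB 6500] 24
    [NumI.V.of 10000 3500 7000, NumI.V.of 10000 (-610) (-240),
      NumI.V.of 10000 10150 13500, NumI.V.of 10000 0 1580] = true := by
    decide +kernel
  obtain ⟨f, hf, hp⟩ := chk4 h (by norm_num) (x := x) (y := T) (z := x + B) (w := τ + β)
    (by norm_num; linarith only [hB, hs]) (by norm_num; linarith only [hx']) (by norm_num; linarith only [hT]) (by norm_num; linarith only [hT'])
    (by norm_num; linarith only [hs]) (by norm_num; linarith only [hx', hB]) (by norm_num; linarith only [h0]) (by norm_num; linarith only [hb', t2])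
  simp only [List.mem_cons, List.not_mem_nil, or_false] at hf
  rcases hf with rfl | rfl | rfl | rfl | rfl
  · simp only [gBp, gR, eX, eT, eU, eS, et, be, bb, E.val, NumI.lkR] at hp
    push_cast at hp
    try simp only [div_one, e0, add_sub_cancel_left, ← hτ] at hp
    unfold gn
    linarith only [hz, hp]
  · simp only [cT, eX, eT, eU, eS, et, be, bb, E.val, NumI.lkR] at hp
    push_cast at hp
    try simp only [div_one, e0, add_sub_cancel_left, ← hτ] at hp
    linarith only [hTb, hp]
  · simp only [cb, eX, eT, eU, eS, et, be, bb, E.val, NumI.lkR] at hp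
    push_cast at hp
    try simp only [div_one, e0, add_sub_cancel_left, ← hτ] at hp
    linarith only [hb', hp]
  · simp only [cc, eX, eT, eU, eS, et, be, bb, E.val, NumI.lkR] at hp
    push_cast at hp
    try simp only [div_one, e0, add_sub_cancel_left, ← hτ] at hp
    linarith only [hb, hp]
  · simp only [cB, eX, eT, eU, eS, et, be, bb, E.val, NumI.lkR] at hp
    push_cast at hp
    try simp only [div_one, e0, add_sub_cancel_left, ← hτ] at hp
    linarith only [hB, hp]

theorem bm_rg (hx : 35 / 100 ≤ x) (hx' : x ≤ 70 / 100) (hT : -(61 / 1000) ≤ T) (hT' : T ≤ -(24 / 1000))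
    (hτ : τ = T * (20 / 7 * (7 / 10 - x))) (hb : 0 ≤ β) (hb' : β ≤ 158 / 1000)
    (hTb : T + β ≤ 106 / 1000)
    (hB : B ≤ 65 / 100) (hs : 203 / 200 ≤ x + B) (h0 : τ + β ≤ 0) :
    0 < gn (1 / 4) x τ T B β := by
  have e0 : T * (20 / 7 * (7 / 10 - x)) = τ := hτ.symm
  obtain ⟨t1, t2⟩ := tau_mem hτ (by linarith only [hB, hs]) (by linarith only [hx']) (a := -(61 / 1000)) (b := 0) (by norm_num) le_rfl hT (by linarith only [hT'])
  have hz := RV.beyond (y := τ + β) (show x + B = (x + B - 1) + 1 by ring)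
  rw [abs_of_nonpos h0] at hz
  have h : chk [gBm, cT 1060, cb 1580, cc 0, cB 6500] 24
    [NumI.V.of 10000 3500 7000, NumI.V.of 10000 (-610) (-240),
      NumI.V.of 10000 10150 13500, NumI.V.of 10000 (-610) 0] = true := by
    decide +kernel
  obtain ⟨f, hf, hp⟩ := chk4 h (by norm_num) (x := x) (y := T) (z := x + B) (w := τ + β)
    (by norm_num; linarith only [hB, hs]) (by norm_num; linarith only [hx']) (by norm_num; linarith only [hT]) (by norm_num; linarith only [hT'])
    (by norm_num; linarith only [hs]) (by norm_num; linarith only [hx', hB]) (by norm_num; linarith only [hb, t1]) (by norm_num; linarith only [h0])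
  simp only [List.mem_cons, List.not_mem_nil, or_false] at hf
  rcases hf with rfl | rfl | rfl | rfl | rfl
  · simp only [gBm, gR, eX, eT, eU, eS, et, be, bb, E.val, NumI.lkR] at hp
    push_cast at hp
    try simp only [div_one, e0, add_sub_cancel_left, ← hτ] at hp
    unfold gn
    linarith only [hz, hp]
  · simp only [cT, eX, eT, eU, eS, et, be, bb, E.val, NumI.lkR] at hp
    push_cast at hp
    try simp only [div_one, e0, add_sub_cancel_left, ← hτ] at hp
    linarith only [hTb, hp]
  · simp only [cb, eX, eT, eU, eS, et, be, bb, E.val, NumI.lkR] at hp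
    push_cast at hp
    try simp only [div_one, e0, add_sub_cancel_left, ← hτ] at hp
    linarith only [hb', hp]
  · simp only [cc, eX, eT, eU, eS, et, be, bb, E.val, NumI.lkR] at hp
    push_cast at hp
    try simp only [div_one, e0, add_sub_cancel_left, ← hτ] at hp
    linarith only [hb, hp]
  · simp only [cB, eX, eT, eU, eS, et, be, bb, E.val, NumI.lkR] at hp
    push_cast at hp
    try simp only [div_one, e0, add_sub_cancel_left, ← hτ] at hp
    linarith only [hB, hp]

/-- value, large sums -/
theorem v_hs_rg (hx : 35 / 100 ≤ x) (hx' : x ≤ 70 / 100) (hT : -(61 / 1000) ≤ T) (hT' : T ≤ -(24 / 1000))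
    (hτ : τ = T * (20 / 7 * (7 / 10 - x))) (hb : 0 ≤ β) (hb' : β ≤ 158 / 1000)
    (hTb : T + β ≤ 106 / 1000)
    (hB : B ≤ 65 / 100) (hs : 97 / 100 ≤ x + B) : 0 < gn (1 / 4) x τ T B β := by
  rcases le_total (x + B) (197 / 200) with h1 | h1
  · exact a_rg hx hx' hT hT' hτ hb hb' hTb hB hs h1
  · rcases le_total (x + B) (203 / 200) with h2 | h2
    · rcases le_total 0 (τ + β) with h3 | h3
      · exact zp_rg hx hx' hT hT' hτ hb hb' hTb hB h1 h2 h3
      · exact zm_rg hx hx' hT hT' hτ hb hb' hTb hB h1 h2 h3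
    · rcases le_total 0 (τ + β) with h3 | h3
      · exact bp_rg hx hx' hT hT' hτ hb hb' hTb hB h2 h3
      · exact bm_rg hx hx' hT hT' hτ hb hb' hTb hB h2 h3

theorem a_nr (hx : 35 / 100 ≤ x) (hx' : x ≤ 70 / 100) (hT : -(66 / 1000) ≤ T) (hT' : T ≤ 1 / 1000)
    (hτ : τ = T * (20 / 7 * (7 / 10 - x))) (hb : -(33 / 1000) ≤ β) (hb' : β ≤ 1145 / 10000)
    (hTb : T + β ≤ 77 / 1000)
    (hB : B ≤ 70 / 100) (hs : 97 / 100 ≤ x + B) (hs' : x + B ≤ 49 / 50) :
    0 < gn (1 / 4) x τ T B β := by
  have e0 : T * (20 / 7 * (7 / 10 - x)) = τ := hτ.symm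
  obtain ⟨t1, t2⟩ := tau_mem hτ hx hx' (a := -(66 / 1000)) (b := 1 / 1000) (by norm_num) (by norm_num) hT hT'
  have h : chk [gA (E.q 1 4), cT 770, cb 1145, cc (-330), cB 7000] 24
    [NumI.V.of 10000 3500 7000, NumI.V.of 10000 (-660) 10,
      NumI.V.of 10000 9700 9800, NumI.V.of 10000 (-990) 1155] = true := by
    decide +kernel
  obtain ⟨f, hf, hp⟩ := chk4 h (by norm_num) (x := x) (y := T) (z := x + B) (w := τ + β)
    (by norm_num; linarith only [hx]) (by norm_num; linarith only [hx']) (by norm_num; linarith only [hT]) (by norm_num; linarith only [hT'])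
    (by norm_num; linarith only [hs]) (by norm_num; linarith only [hs']) (by norm_num; linarith only [hb, t1]) (by norm_num; linarith only [hb', t2])
  simp only [List.mem_cons, List.not_mem_nil, or_false] at hf
  rcases hf with rfl | rfl | rfl | rfl | rfl
  · simp only [gA, gR, eX, eT, eU, eS, et, be, bb, E.val, NumI.lkR] at hp
    push_cast at hp
    try simp only [div_one, e0, add_sub_cancel_left, ← hτ] at hp
    unfold gn
    linarith only [hp]
  · simp only [cT, eX, eT, eU, eS, et, be, bb, E.val, NumI.lkR] at hp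
    push_cast at hp
    try simp only [div_one, e0, add_sub_cancel_left, ← hτ] at hp
    linarith only [hTb, hp]
  · simp only [cb, eX, eT, eU, eS, et, be, bb, E.val, NumI.lkR] at hp
    push_cast at hp
    try simp only [div_one, e0, add_sub_cancel_left, ← hτ] at hp
    linarith only [hb', hp]
  · simp only [cc, eX, eT, eU, eS, et, be, bb, E.val, NumI.lkR] at hp
    push_cast at hp
    try simp only [div_one, e0, add_sub_cancel_left, ← hτ] at hp
    linarith only [hb, hp]
  · simp only [cB, eX, eT, eU, eS, et, be, bb, E.val, NumI.lkR] at hp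
    push_cast at hp
    try simp only [div_one, e0, add_sub_cancel_left, ← hτ] at hp
    linarith only [hx, hs', hp]

theorem zp_nr (hx : 35 / 100 ≤ x) (hx' : x ≤ 70 / 100) (hT : -(66 / 1000) ≤ T) (hT' : T ≤ 1 / 1000)
    (hτ : τ = T * (20 / 7 * (7 / 10 - x))) (hb : -(33 / 1000) ≤ β) (hb' : β ≤ 1145 / 10000)
    (hTb : T + β ≤ 77 / 1000)
    (hB : B ≤ 70 / 100) (hs : 49 / 50 ≤ x + B) (hs' : x + B ≤ 51 / 50)
    (h0 : 0 ≤ τ + β) :
    0 < gn (1 / 4) x τ T B β := by
  have e0 : T * (20 / 7 * (7 / 10 - x)) = τ := hτ.symm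
  obtain ⟨t1, t2⟩ := tau_mem hτ hx hx' (a := -(66 / 1000)) (b := 1 / 1000) (by norm_num) (by norm_num) hT hT'
  have hz : uu (x + B) (τ + β) ≤ Real.pi / 2 * |τ + β| + 62 / 1000 := corner (δ := 1 / 50) (by have := k2; linarith only [this]) (by norm_num)
    (by norm_num) (by linarith only [hs]) (by linarith only [hs']) (by rw [abs_le]; constructor <;> linarith only [h0, hb', t2])
  rw [abs_of_nonneg h0] at hz
  have h : chk [gZp 62, cT 770, cb 1145, cc (-330), cB 7000] 24
    [NumI.V.of 10000 3500 7000, NumI.V.of 10000 (-660) 10,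
      NumI.V.of 10000 9800 10200, NumI.V.of 10000 0 1155] = true := by
    decide +kernel
  obtain ⟨f, hf, hp⟩ := chk4 h (by norm_num) (x := x) (y := T) (z := x + B) (w := τ + β)
    (by norm_num; linarith only [hx]) (by norm_num; linarith only [hx']) (by norm_num; linarith only [hT]) (by norm_num; linarith only [hT'])
    (by norm_num; linarith only [hs]) (by norm_num; linarith only [hs']) (by norm_num; linarith only [h0]) (by norm_num; linarith only [hb', t2])
  simp only [List.mem_cons, List.not_mem_nil, or_false] at hf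
  rcases hf with rfl | rfl | rfl | rfl | rfl
  · simp only [gZp, gR, eX, eT, eU, eS, et, be, bb, E.val, NumI.lkR] at hp
    push_cast at hp
    try simp only [div_one, e0, add_sub_cancel_left, ← hτ] at hp
    unfold gn
    linarith only [hz, hp]
  · simp only [cT, eX, eT, eU, eS, et, be, bb, E.val, NumI.lkR] at hp
    push_cast at hp
    try simp only [div_one, e0, add_sub_cancel_left, ← hτ] at hp
    linarith only [hTb, hp]
  · simp only [cb, eX, eT, eU, eS, et, be, bb, E.val, NumI.lkR] at hp
    push_cast at hp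
    try simp only [div_one, e0, add_sub_cancel_left, ← hτ] at hp
    linarith only [hb', hp]
  · simp only [cc, eX, eT, eU, eS, et, be, bb, E.val, NumI.lkR] at hp
    push_cast at hp
    try simp only [div_one, e0, add_sub_cancel_left, ← hτ] at hp
    linarith only [h0, t2, hp]
  · simp only [cB, eX, eT, eU, eS, et, be, bb, E.val, NumI.lkR] at hp
    push_cast at hp
    try simp only [div_one, e0, add_sub_cancel_left, ← hτ] at hp
    linarith only [hx, hs', hp]

theorem zm_nr (hx : 35 / 100 ≤ x) (hx' : x ≤ 70 / 100) (hT : -(66 / 1000) ≤ T) (hT' : T ≤ 1 / 1000)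
    (hτ : τ = T * (20 / 7 * (7 / 10 - x))) (hb : -(33 / 1000) ≤ β) (hb' : β ≤ 1145 / 10000)
    (hTb : T + β ≤ 77 / 1000)
    (hB : B ≤ 70 / 100) (hs : 49 / 50 ≤ x + B) (hs' : x + B ≤ 51 / 50)
    (h0 : τ + β ≤ 0) :
    0 < gn (1 / 4) x τ T B β := by
  have e0 : T * (20 / 7 * (7 / 10 - x)) = τ := hτ.symm
  obtain ⟨t1, t2⟩ := tau_mem hτ hx hx' (a := -(66 / 1000)) (b := 1 / 1000) (by norm_num) (by norm_num) hT hT'
  have hz : uu (x + B) (τ + β) ≤ Real.pi / 2 * |τ + β| + 62 / 1000 := corner (δ := 1 / 50) (by have := k2; linarith only [this]) (by norm_num)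
    (by norm_num) (by linarith only [hs]) (by linarith only [hs']) (by rw [abs_le]; constructor <;> linarith only [hb, t1, h0])
  rw [abs_of_nonpos h0] at hz
  have h : chk [gZm 62, cT 770, cb 1145, cc (-330), cB 7000] 24
    [NumI.V.of 10000 3500 7000, NumI.V.of 10000 (-660) 10,
      NumI.V.of 10000 9800 10200, NumI.V.of 10000 (-990) 0] = true := by
    decide +kernel
  obtain ⟨f, hf, hp⟩ := chk4 h (by norm_num) (x := x) (y := T) (z := x + B) (w := τ + β)
    (by norm_num; linarith only [hx]) (by norm_num; linarith only [hx']) (by norm_num; linarith only [hT]) (by norm_num; linarith only [hT'])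
    (by norm_num; linarith only [hs]) (by norm_num; linarith only [hs']) (by norm_num; linarith only [hb, t1]) (by norm_num; linarith only [h0])
  simp only [List.mem_cons, List.not_mem_nil, or_false] at hf
  rcases hf with rfl | rfl | rfl | rfl | rfl
  · simp only [gZm, gR, eX, eT, eU, eS, et, be, bb, E.val, NumI.lkR] at hp
    push_cast at hp
    try simp only [div_one, e0, add_sub_cancel_left, ← hτ] at hp
    unfold gn
    linarith only [hz, hp]
  · simp only [cT, eX, eT, eU, eS, et, be, bb, E.val, NumI.lkR] at hp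
    push_cast at hp
    try simp only [div_one, e0, add_sub_cancel_left, ← hτ] at hp
    linarith only [hTb, hp]
  · simp only [cb, eX, eT, eU, eS, et, be, bb, E.val, NumI.lkR] at hp
    push_cast at hp
    try simp only [div_one, e0, add_sub_cancel_left, ← hτ] at hp
    linarith only [hb', hp]
  · simp only [cc, eX, eT, eU, eS, et, be, bb, E.val, NumI.lkR] at hp
    push_cast at hp
    try simp only [div_one, e0, add_sub_cancel_left, ← hτ] at hp
    linarith only [hb, hp]
  · simp only [cB, eX, eT, eU, eS, et, be, bb, E.val, NumI.lkR] at hp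
    push_cast at hp
    try simp only [div_one, e0, add_sub_cancel_left, ← hτ] at hp
    linarith only [hx, hs', hp]

theorem bp_nr_h1_q1 : chk [gBp, cT 770, cb 1145, cc (-330), cB 7000] 21
    (NumI.setL 2 (NumI.setL 0 (NumI.setL 2 [NumI.V.of 10000 3500 7000, NumI.V.of 10000 (-660) 10,
      NumI.V.of 10000 10200 14000, NumI.V.of 10000 0 1155]))) = true := by
  decide +kernel

theorem bp_nr_h1_q2 : chk [gBp, cT 770, cb 1145, cc (-330), cB 7000] 19
    (NumI.setL 3 (NumI.setL 0 (NumI.setR 2 (NumI.setL 0 (NumI.setL 2 [NumI.V.of 10000 3500 7000, NumI.V.of 10000 (-660) 10,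
      NumI.V.of 10000 10200 14000, NumI.V.of 10000 0 1155]))))) = true := by
  decide +kernel

theorem bp_nr_h1_q3 : chk [gBp, cT 770, cb 1145, cc (-330), cB 7000] 19
    (NumI.setR 3 (NumI.setL 0 (NumI.setR 2 (NumI.setL 0 (NumI.setL 2 [NumI.V.of 10000 3500 7000, NumI.V.of 10000 (-660) 10,
      NumI.V.of 10000 10200 14000, NumI.V.of 10000 0 1155]))))) = true := by
  decide +kernel

theorem bp_nr_h1_q4 : chk [gBp, cT 770, cb 1145, cc (-330), cB 7000] 20
    (NumI.setR 0 (NumI.setR 2 (NumI.setL 0 (NumI.setL 2 [NumI.V.of 10000 3500 7000, NumI.V.of 10000 (-660) 10,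
      NumI.V.of 10000 10200 14000, NumI.V.of 10000 0 1155])))) = true := by
  decide +kernel

theorem bp_nr_h1_q5 : chk [gBp, cT 770, cb 1145, cc (-330), cB 7000] 22
    (NumI.setR 0 (NumI.setL 2 [NumI.V.of 10000 3500 7000, NumI.V.of 10000 (-660) 10,
      NumI.V.of 10000 10200 14000, NumI.V.of 10000 0 1155])) = true := by
  decide +kernel

theorem bp_nr_h1_q6 : chk [gBp, cT 770, cb 1145, cc (-330), cB 7000] 22
    (NumI.setL 0 (NumI.setR 2 [NumI.V.of 10000 3500 7000, NumI.V.of 10000 (-660) 10,
      NumI.V.of 10000 10200 14000, NumI.V.of 10000 0 1155])) = true := by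
  decide +kernel

theorem bp_nr_h1_q7 : chk [gBp, cT 770, cb 1145, cc (-330), cB 7000] 19
    (NumI.setL 3 (NumI.setL 0 (NumI.setL 2 (NumI.setR 0 (NumI.setR 2 [NumI.V.of 10000 3500 7000, NumI.V.of 10000 (-660) 10,
      NumI.V.of 10000 10200 14000, NumI.V.of 10000 0 1155]))))) = true := by
  decide +kernel

theorem bp_nr_h1_q8 : chk [gBp, cT 770, cb 1145, cc (-330), cB 7000] 19
    (NumI.setR 3 (NumI.setL 0 (NumI.setL 2 (NumI.setR 0 (NumI.setR 2 [NumI.V.of 10000 3500 7000, NumI.V.of 10000 (-660) 10,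
      NumI.V.of 10000 10200 14000, NumI.V.of 10000 0 1155]))))) = true := by
  decide +kernel

theorem bp_nr_h1_q9 : chk [gBp, cT 770, cb 1145, cc (-330), cB 7000] 20
    (NumI.setR 0 (NumI.setL 2 (NumI.setR 0 (NumI.setR 2 [NumI.V.of 10000 3500 7000, NumI.V.of 10000 (-660) 10,
      NumI.V.of 10000 10200 14000, NumI.V.of 10000 0 1155])))) = true := by
  decide +kernel

theorem bp_nr_h1_q10 : chk [gBp, cT 770, cb 1145, cc (-330), cB 7000] 20
    (NumI.setL 0 (NumI.setR 2 (NumI.setR 0 (NumI.setR 2 [NumI.V.of 10000 3500 7000, NumI.V.of 10000 (-660) 10,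
      NumI.V.of 10000 10200 14000, NumI.V.of 10000 0 1155])))) = true := by
  decide +kernel

theorem bp_nr_h1_q11 : chk [gBp, cT 770, cb 1145, cc (-330), cB 7000] 18
    (NumI.setL 2 (NumI.setL 3 (NumI.setR 0 (NumI.setR 2 (NumI.setR 0 (NumI.setR 2 [NumI.V.of 10000 3500 7000, NumI.V.of 10000 (-660) 10,
      NumI.V.of 10000 10200 14000, NumI.V.of 10000 0 1155])))))) = true := by
  decide +kernel

theorem bp_nr_h1_q12 : chk [gBp, cT 770, cb 1145, cc (-330), cB 7000] 17
    (NumI.setL 0 (NumI.setR 2 (NumI.setL 3 (NumI.setR 0 (NumI.setR 2 (NumI.setR 0 (NumI.setR 2 [NumI.V.of 10000 3500 7000, NumI.V.of 10000 (-660) 10,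
      NumI.V.of 10000 10200 14000, NumI.V.of 10000 0 1155]))))))) = true := by
  decide +kernel

theorem bp_nr_h1_q13 : chk [gBp, cT 770, cb 1145, cc (-330), cB 7000] 17
    (NumI.setR 0 (NumI.setR 2 (NumI.setL 3 (NumI.setR 0 (NumI.setR 2 (NumI.setR 0 (NumI.setR 2 [NumI.V.of 10000 3500 7000, NumI.V.of 10000 (-660) 10,
      NumI.V.of 10000 10200 14000, NumI.V.of 10000 0 1155]))))))) = true := by
  decide +kernel

theorem bp_nr_h1_q14 : chk [gBp, cT 770, cb 1145, cc (-330), cB 7000] 18
    (NumI.setL 2 (NumI.setR 3 (NumI.setR 0 (NumI.setR 2 (NumI.setR 0 (NumI.setR 2 [NumI.V.of 10000 3500 7000, NumI.V.of 10000 (-660) 10,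
      NumI.V.of 10000 10200 14000, NumI.V.of 10000 0 1155])))))) = true := by
  decide +kernel

theorem bp_nr_h1_q15 : chk [gBp, cT 770, cb 1145, cc (-330), cB 7000] 18
    (NumI.setR 2 (NumI.setR 3 (NumI.setR 0 (NumI.setR 2 (NumI.setR 0 (NumI.setR 2 [NumI.V.of 10000 3500 7000, NumI.V.of 10000 (-660) 10,
      NumI.V.of 10000 10200 14000, NumI.V.of 10000 0 1155])))))) = true := by
  decide +kernel

theorem bp_nr_h1 : chk [gBp, cT 770, cb 1145, cc (-330), cB 7000] 24
    [NumI.V.of 10000 3500 7000, NumI.V.of 10000 (-660) 10,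
      NumI.V.of 10000 10200 14000, NumI.V.of 10000 0 1155] = true :=
  NumU.chk_node (i := 2) (by decide +kernel)
    (NumU.chk_node (i := 0) (by decide +kernel)
      (NumU.chk_node (i := 2) (by decide +kernel)
        bp_nr_h1_q1
        (NumU.chk_node (i := 0) (by decide +kernel)
          (NumU.chk_node (i := 3) (by decide +kernel)
            bp_nr_h1_q2
            bp_nr_h1_q3)
          bp_nr_h1_q4))
      bp_nr_h1_q5)
    (NumU.chk_node (i := 0) (by decide +kernel)
      bp_nr_h1_q6
      (NumU.chk_node (i := 2) (by decide +kernel)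
        (NumU.chk_node (i := 0) (by decide +kernel)
          (NumU.chk_node (i := 3) (by decide +kernel)
            bp_nr_h1_q7
            bp_nr_h1_q8)
          bp_nr_h1_q9)
        (NumU.chk_node (i := 0) (by decide +kernel)
          bp_nr_h1_q10
          (NumU.chk_node (i := 3) (by decide +kernel)
            (NumU.chk_node (i := 2) (by decide +kernel)
              bp_nr_h1_q11
              (NumU.chk_node (i := 0) (by decide +kernel)
                bp_nr_h1_q12
                bp_nr_h1_q13))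
            (NumU.chk_node (i := 2) (by decide +kernel)
              bp_nr_h1_q14
              bp_nr_h1_q15)))))

theorem bp_nr (hx : 35 / 100 ≤ x) (hx' : x ≤ 70 / 100) (hT : -(66 / 1000) ≤ T) (hT' : T ≤ 1 / 1000)
    (hτ : τ = T * (20 / 7 * (7 / 10 - x))) (hb : -(33 / 1000) ≤ β) (hb' : β ≤ 1145 / 10000)
    (hTb : T + β ≤ 77 / 1000)
    (hB : B ≤ 70 / 100) (hs : 51 / 50 ≤ x + B) (h0 : 0 ≤ τ + β) :
    0 < gn (1 / 4) x τ T B β := by
  have e0 : T * (20 / 7 * (7 / 10 - x)) = τ := hτ.symm
  obtain ⟨t1, t2⟩ := tau_mem hτ hx hx' (a := -(66 / 1000)) (b := 1 / 1000) (by norm_num) (by norm_num) hT hT'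
  have hz := RV.beyond (y := τ + β) (show x + B = (x + B - 1) + 1 by ring)
  rw [abs_of_nonneg h0] at hz
  have h : chk [gBp, cT 770, cb 1145, cc (-330), cB 7000] 24
    [NumI.V.of 10000 3500 7000, NumI.V.of 10000 (-660) 10,
      NumI.V.of 10000 10200 14000, NumI.V.of 10000 0 1155] = true := bp_nr_h1
  obtain ⟨f, hf, hp⟩ := chk4 h (by norm_num) (x := x) (y := T) (z := x + B) (w := τ + β)
    (by norm_num; linarith only [hx]) (by norm_num; linarith only [hx']) (by norm_num; linarith only [hT]) (by norm_num; linarith only [hT'])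
    (by norm_num; linarith only [hs]) (by norm_num; linarith only [hx', hB]) (by norm_num; linarith only [h0]) (by norm_num; linarith only [hb', t2])
  simp only [List.mem_cons, List.not_mem_nil, or_false] at hf
  rcases hf with rfl | rfl | rfl | rfl | rfl
  · simp only [gBp, gR, eX, eT, eU, eS, et, be, bb, E.val, NumI.lkR] at hp
    push_cast at hp
    try simp only [div_one, e0, add_sub_cancel_left, ← hτ] at hp
    unfold gn
    linarith only [hz, hp]
  · simp only [cT, eX, eT, eU, eS, et, be, bb, E.val, NumI.lkR] at hp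
    push_cast at hp
    try simp only [div_one, e0, add_sub_cancel_left, ← hτ] at hp
    linarith only [hTb, hp]
  · simp only [cb, eX, eT, eU, eS, et, be, bb, E.val, NumI.lkR] at hp
    push_cast at hp
    try simp only [div_one, e0, add_sub_cancel_left, ← hτ] at hp
    linarith only [hb', hp]
  · simp only [cc, eX, eT, eU, eS, et, be, bb, E.val, NumI.lkR] at hp
    push_cast at hp
    try simp only [div_one, e0, add_sub_cancel_left, ← hτ] at hp
    linarith only [h0, t2, hp]
  · simp only [cB, eX, eT, eU, eS, et, be, bb, E.val, NumI.lkR] at hp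
    push_cast at hp
    try simp only [div_one, e0, add_sub_cancel_left, ← hτ] at hp
    linarith only [hB, hp]

theorem bm_nr_h1_q1 : chk [gBm, cT 770, cb 1145, cc (-330), cB 7000] 21
    (NumI.setL 2 (NumI.setL 0 (NumI.setL 2 [NumI.V.of 10000 3500 7000, NumI.V.of 10000 (-660) 10,
      NumI.V.of 10000 10200 14000, NumI.V.of 10000 (-990) 0]))) = true := by
  decide +kernel

theorem bm_nr_h1_q2 : chk [gBm, cT 770, cb 1145, cc (-330), cB 7000] 20
    (NumI.setL 0 (NumI.setR 2 (NumI.setL 0 (NumI.setL 2 [NumI.V.of 10000 3500 7000, NumI.V.of 10000 (-660) 10,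
      NumI.V.of 10000 10200 14000, NumI.V.of 10000 (-990) 0])))) = true := by
  decide +kernel

theorem bm_nr_h1_q3 : chk [gBm, cT 770, cb 1145, cc (-330), cB 7000] 20
    (NumI.setR 0 (NumI.setR 2 (NumI.setL 0 (NumI.setL 2 [NumI.V.of 10000 3500 7000, NumI.V.of 10000 (-660) 10,
      NumI.V.of 10000 10200 14000, NumI.V.of 10000 (-990) 0])))) = true := by
  decide +kernel

theorem bm_nr_h1_q4 : chk [gBm, cT 770, cb 1145, cc (-330), cB 7000] 22
    (NumI.setR 0 (NumI.setL 2 [NumI.V.of 10000 3500 7000, NumI.V.of 10000 (-660) 10,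
      NumI.V.of 10000 10200 14000, NumI.V.of 10000 (-990) 0])) = true := by
  decide +kernel

theorem bm_nr_h1_q5 : chk [gBm, cT 770, cb 1145, cc (-330), cB 7000] 22
    (NumI.setL 0 (NumI.setR 2 [NumI.V.of 10000 3500 7000, NumI.V.of 10000 (-660) 10,
      NumI.V.of 10000 10200 14000, NumI.V.of 10000 (-990) 0])) = true := by
  decide +kernel

theorem bm_nr_h1_q6 : chk [gBm, cT 770, cb 1145, cc (-330), cB 7000] 21
    (NumI.setL 2 (NumI.setR 0 (NumI.setR 2 [NumI.V.of 10000 3500 7000, NumI.V.of 10000 (-660) 10,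
      NumI.V.of 10000 10200 14000, NumI.V.of 10000 (-990) 0]))) = true := by
  decide +kernel

theorem bm_nr_h1_q7 : chk [gBm, cT 770, cb 1145, cc (-330), cB 7000] 20
    (NumI.setL 0 (NumI.setR 2 (NumI.setR 0 (NumI.setR 2 [NumI.V.of 10000 3500 7000, NumI.V.of 10000 (-660) 10,
      NumI.V.of 10000 10200 14000, NumI.V.of 10000 (-990) 0])))) = true := by
  decide +kernel

theorem bm_nr_h1_q8 : chk [gBm, cT 770, cb 1145, cc (-330), cB 7000] 20
    (NumI.setR 0 (NumI.setR 2 (NumI.setR 0 (NumI.setR 2 [NumI.V.of 10000 3500 7000, NumI.V.of 10000 (-660) 10,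
      NumI.V.of 10000 10200 14000, NumI.V.of 10000 (-990) 0])))) = true := by
  decide +kernel

theorem bm_nr_h1 : chk [gBm, cT 770, cb 1145, cc (-330), cB 7000] 24
    [NumI.V.of 10000 3500 7000, NumI.V.of 10000 (-660) 10,
      NumI.V.of 10000 10200 14000, NumI.V.of 10000 (-990) 0] = true :=
  NumU.chk_node (i := 2) (by decide +kernel)
    (NumU.chk_node (i := 0) (by decide +kernel)
      (NumU.chk_node (i := 2) (by decide +kernel)
        bm_nr_h1_q1
        (NumU.chk_node (i := 0) (by decide +kernel)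
          bm_nr_h1_q2
          bm_nr_h1_q3))
      bm_nr_h1_q4)
    (NumU.chk_node (i := 0) (by decide +kernel)
      bm_nr_h1_q5
      (NumU.chk_node (i := 2) (by decide +kernel)
        bm_nr_h1_q6
        (NumU.chk_node (i := 0) (by decide +kernel)
          bm_nr_h1_q7
          bm_nr_h1_q8)))

theorem bm_nr (hx : 35 / 100 ≤ x) (hx' : x ≤ 70 / 100) (hT : -(66 / 1000) ≤ T) (hT' : T ≤ 1 / 1000)
    (hτ : τ = T * (20 / 7 * (7 / 10 - x))) (hb : -(33 / 1000) ≤ β) (hb' : β ≤ 1145 / 10000)
    (hTb : T + β ≤ 77 / 1000)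
    (hB : B ≤ 70 / 100) (hs : 51 / 50 ≤ x + B) (h0 : τ + β ≤ 0) :
    0 < gn (1 / 4) x τ T B β := by
  have e0 : T * (20 / 7 * (7 / 10 - x)) = τ := hτ.symm
  obtain ⟨t1, t2⟩ := tau_mem hτ hx hx' (a := -(66 / 1000)) (b := 1 / 1000) (by norm_num) (by norm_num) hT hT'
  have hz := RV.beyond (y := τ + β) (show x + B = (x + B - 1) + 1 by ring)
  rw [abs_of_nonpos h0] at hz
  have h : chk [gBm, cT 770, cb 1145, cc (-330), cB 7000] 24
    [NumI.V.of 10000 3500 7000, NumI.V.of 10000 (-660) 10,
      NumI.V.of 10000 10200 14000, NumI.V.of 10000 (-990) 0] = true := bm_nr_h1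
  obtain ⟨f, hf, hp⟩ := chk4 h (by norm_num) (x := x) (y := T) (z := x + B) (w := τ + β)
    (by norm_num; linarith only [hx]) (by norm_num; linarith only [hx']) (by norm_num; linarith only [hT]) (by norm_num; linarith only [hT'])
    (by norm_num; linarith only [hs]) (by norm_num; linarith only [hx', hB]) (by norm_num; linarith only [hb, t1]) (by norm_num; linarith only [h0])
  simp only [List.mem_cons, List.not_mem_nil, or_false] at hf
  rcases hf with rfl | rfl | rfl | rfl | rfl
  · simp only [gBm, gR, eX, eT, eU, eS, et, be, bb, E.val, NumI.lkR] at hp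
    push_cast at hp
    try simp only [div_one, e0, add_sub_cancel_left, ← hτ] at hp
    unfold gn
    linarith only [hz, hp]
  · simp only [cT, eX, eT, eU, eS, et, be, bb, E.val, NumI.lkR] at hp
    push_cast at hp
    try simp only [div_one, e0, add_sub_cancel_left, ← hτ] at hp
    linarith only [hTb, hp]
  · simp only [cb, eX, eT, eU, eS, et, be, bb, E.val, NumI.lkR] at hp
    push_cast at hp
    try simp only [div_one, e0, add_sub_cancel_left, ← hτ] at hp
    linarith only [hb', hp]
  · simp only [cc, eX, eT, eU, eS, et, be, bb, E.val, NumI.lkR] at hp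
    push_cast at hp
    try simp only [div_one, e0, add_sub_cancel_left, ← hτ] at hp
    linarith only [hb, hp]
  · simp only [cB, eX, eT, eU, eS, et, be, bb, E.val, NumI.lkR] at hp
    push_cast at hp
    try simp only [div_one, e0, add_sub_cancel_left, ← hτ] at hp
    linarith only [hB, hp]

/-- value, large sums -/
theorem v_hs_nr (hx : 35 / 100 ≤ x) (hx' : x ≤ 70 / 100) (hT : -(66 / 1000) ≤ T) (hT' : T ≤ 1 / 1000)
    (hτ : τ = T * (20 / 7 * (7 / 10 - x))) (hb : -(33 / 1000) ≤ β) (hb' : β ≤ 1145 / 10000)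
    (hTb : T + β ≤ 77 / 1000)
    (hB : B ≤ 70 / 100) (hs : 97 / 100 ≤ x + B) : 0 < gn (1 / 4) x τ T B β := by
  rcases le_total (x + B) (49 / 50) with h1 | h1
  · exact a_nr hx hx' hT hT' hτ hb hb' hTb hB hs h1
  · rcases le_total (x + B) (51 / 50) with h2 | h2
    · rcases le_total 0 (τ + β) with h3 | h3
      · exact zp_nr hx hx' hT hT' hτ hb hb' hTb hB h1 h2 h3
      · exact zm_nr hx hx' hT hT' hτ hb hb' hTb hB h1 h2 h3
    · rcases le_total 0 (τ + β) with h3 | h3
      · exact bp_nr hx hx' hT hT' hτ hb hb' hTb hB h2 h3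
      · exact bm_nr hx hx' hT hT' hτ hb hb' hTb hB h2 h3

end M12

end Pool.Agent.Work.MP_b30479_gt.G2
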