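import Pool.Agent.Work.MP_b30479_gt.G2.MLevB

/-!
# Push of a hinge `1 | 1` to the right of `1/2`

With `z = tan ^ 2 (π x / 2)` and `P` the product of the tangents of the half angles of the two
hinges of the digit, everything is a rational function of `z` and `P`.
-/

namespace Pool.Agent.Work.MP_b30479_gt.G2

open Real Set VOL NumI NumI.E

namespace MR

/-- tangent of the half angle -/
noncomputable def ht (x : ℝ) : ℝ := tan (π * x / 2)

theorem ht_pos {x : ℝ} (h0 : 0 < x) (h1 : x < 1) : 0 < ht x := by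
  have hp := pi_pos
  exact tan_pos_of_pos_of_lt_pi_div_two (by positivity) (by nlinarith only [h1, hp])

theorem cos_half_pos {x : ℝ} (h0 : 0 < x) (h1 : x < 1) : 0 < cos (π * x / 2) := by
  have hp := pi_pos
  exact cos_pos_of_mem_Ioo ⟨by nlinarith only [hp, h0], by nlinarith only [h1, hp]⟩

theorem sin_ht {x : ℝ} (h0 : 0 < x) (h1 : x < 1) : sin (π * x) = 2 * ht x / (1 + ht x ^ 2) := by
  have hc := cos_half_pos h0 h1
  have e : π * x = 2 * (π * x / 2) := by ring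
  have h2 := sin_sq_add_cos_sq (π * x / 2)
  unfold ht
  rw [e, sin_two_mul, ← e, tan_eq_sin_div_cos]
  set s := sin (π * x / 2)
  set c := cos (π * x / 2)
  have h3 : 1 + (s / c) ^ 2 = 1 / c ^ 2 := by
    field_simp
    linarith only [h2]
  rw [h3]
  field_simp

theorem cos_ht {x : ℝ} (h0 : 0 < x) (h1 : x < 1) :
    cos (π * x) = (1 - ht x ^ 2) / (1 + ht x ^ 2) := by
  have hc := cos_half_pos h0 h1
  have e : π * x = 2 * (π * x / 2) := by ring
  have h2 := sin_sq_add_cos_sq (π * x / 2)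
  unfold ht
  rw [e, cos_two_mul, ← e, tan_eq_sin_div_cos]
  set s := sin (π * x / 2)
  set c := cos (π * x / 2)
  have h3 : 1 + (s / c) ^ 2 = 1 / c ^ 2 := by
    field_simp
    linarith only [h2]
  rw [h3]
  field_simp
  linarith only [h2]

theorem sin_add_ht {x y : ℝ} (h0 : 0 < x) (h1 : x < 1) (h0' : 0 < y) (h1' : y < 1) :
    sin (π * (x + y)) = 2 * (ht x + ht y) * (1 - ht x * ht y) /
      ((1 + ht x ^ 2) * (1 + ht y ^ 2)) := by
  rw [mul_add, sin_add, sin_ht h0 h1, sin_ht h0' h1', cos_ht h0 h1, cos_ht h0' h1']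
  have a1 : 0 < 1 + ht x ^ 2 := by positivity
  have a2 : 0 < 1 + ht y ^ 2 := by positivity
  field_simp
  ring

theorem gh_ht (x : ℝ) : gh x = Real.log (ht x) := rfl

theorem ht_le {x y : ℝ} (h0 : 0 < x) (h1 : y < 1) (h : x ≤ y) : ht x ≤ ht y := by
  have hp := pi_pos
  rcases h.eq_or_lt with h | h
  · rw [h]
  · exact (tan_lt_tan_of_nonneg_of_lt_pi_div_two (by positivity) (by nlinarith only [h1, hp])
      (by nlinarith only [hp, h])).le

theorem ht_half : ht (1 / 2) = 1 := by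
  unfold ht
  rw [show π * (1 / 2) / 2 = π / 4 by ring, tan_pi_div_four]

/-- dominance in terms of the product of the half angle tangents -/
theorem prod_le_of_dom {x y xs ys : ℝ} (hx : x ∈ Ioo (0 : ℝ) 1) (hy : y ∈ Ioo (0 : ℝ) 1)
    (hxs : xs ∈ Ioo (0 : ℝ) 1) (hys : ys ∈ Ioo (0 : ℝ) 1)
    (hg : |gh y - gh ys| ≤ gh x - gh xs) : ht xs * ht ys ≤ ht x * ht y := by
  have a1 := ht_pos hx.1 hx.2
  have a2 := ht_pos hy.1 hy.2
  have a3 := ht_pos hxs.1 hxs.2
  have a4 := ht_pos hys.1 hys.2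
  have h1 := (abs_le.1 hg).1
  rw [gh_ht, gh_ht, gh_ht, gh_ht] at h1
  rw [← Real.log_le_log_iff (by positivity) (by positivity), Real.log_mul a3.ne' a4.ne',
    Real.log_mul a1.ne' a2.ne']
  linarith only [h1]

theorem prod_lt_one {x y : ℝ} (hx : x ∈ Ioo (0 : ℝ) 1) (hy : y ∈ Ioo (0 : ℝ) 1) (h : x + y < 1) :
    ht x * ht y < 1 := by
  have a1 := ht_pos hx.1 hx.2
  have a2 := ht_pos hy.1 hy.2
  have h1 := (add_lt_one_iff hx hy).1 h
  rw [gh_ht, gh_ht, ← Real.log_mul a1.ne' a2.ne'] at h1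
  rwa [Real.log_neg_iff (by positivity)] at h1

/-! ### the algebra -/

/-- ratio of the sines -/
noncomputable def gz (z P : ℝ) : ℝ := (z + P) * (1 - P) / (z + P ^ 2)

/-- `sin π (x + y) / sin π x` -/
theorem ratio_ht {x y : ℝ} (h0 : 0 < x) (h1 : x < 1) (h0' : 0 < y) (h1' : y < 1) :
    sin (π * (x + y)) = sin (π * x) * gz (ht x ^ 2) (ht x * ht y) := by
  rw [sin_add_ht h0 h1 h0' h1', sin_ht h0 h1]
  have a1 := ht_pos h0 h1
  have a2 := ht_pos h0' h1'
  have a3 : 0 < 1 + ht x ^ 2 := by positivity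
  have a4 : 0 < 1 + ht y ^ 2 := by positivity
  unfold gz
  field_simp

theorem sin_sq_ht {x : ℝ} (h0 : 0 < x) (h1 : x < 1) :
    sin (π * x) ^ 2 = 4 * ht x ^ 2 / (1 + ht x ^ 2) ^ 2 := by
  rw [sin_ht h0 h1]
  have a3 : 0 < 1 + ht x ^ 2 := by positivity
  field_simp
  ring

theorem gz_anti {z P Q : ℝ} (hz : 1 ≤ z) (hP : 0 < P) (hPQ : P ≤ Q) (hQ : Q < 1) :
    gz z Q ≤ gz z P := by
  have hz0 : 0 < z := by linarith only [hz, hP, hPQ, hQ]
  unfold gz
  rw [div_le_div_iff₀ (by positivity) (by positivity)]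
  have h1 : 0 ≤ z * (z - 1) - (z - 1) * (P * Q) := by
    have : P * Q ≤ z := by nlinarith only [hz, hPQ, hQ, hP]
    nlinarith only [hz, this]
  have h2 : 0 ≤ z * (z - 1) + 2 * (z * (Q + P)) - (z - 1) * (P * Q) := by
    have : 0 ≤ z * (Q + P) := by
      have : 0 < Q := by linarith only [hP, hPQ]
      positivity
    linarith only [h1, this]
  have h3 := mul_nonneg (sub_nonneg.2 hPQ) h2
  nlinarith only [h3]

theorem gz_ge {z P : ℝ} (hz : 0 < z) (hP : 0 < P) (hP1 : P < 1) : 1 - P ≤ gz z P := by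
  unfold gz
  rw [le_div_iff₀ (by positivity)]
  have : P ^ 2 ≤ P := by nlinarith only [hP, hP1]
  nlinarith only [hP1, this]

theorem gz_le {z P : ℝ} (hz : 1 ≤ z) (hP : 0 < P) (hP1 : P < 1) : gz z P ≤ 1 := by
  unfold gz
  have hz0 : 0 < z := by linarith only [hz, hP, hP1]
  rw [div_le_one (by positivity)]
  nlinarith only [hz, hP]

theorem gz_sub {z P : ℝ} (hz : 0 < z) (hP : 0 < P) :
    gz 1 P - gz z P = P * (1 - P) ^ 2 * (z - 1) / ((1 + P ^ 2) * (z + P ^ 2)) := by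
  unfold gz
  field_simp
  ring

/-- the basic inequality, to the right -/
theorem core_r {z P H : ℝ} (hz : 1 < z) (hP : 0 < P) (hP1 : P < 1)
    (h : H * ((z - 1) * ((1 + P ^ 2) * (z + P ^ 2))) < 8 * z * (P * (1 - P) ^ 3)) :
    H * (z - 1) ^ 2 < 4 * z * (gz 1 P ^ 2 - gz z P ^ 2) := by
  have hz0 : 0 < z := by linarith only [hz, hP, hP1]
  have e : gz 1 P ^ 2 - gz z P ^ 2 = (gz 1 P - gz z P) * (gz 1 P + gz z P) := by ring
  have g1 := gz_ge (z := 1) (by norm_num) hP hP1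
  have g2 := gz_ge hz0 hP hP1
  have hd := gz_sub (z := z) hz0 hP
  have hD : 0 < (1 + P ^ 2) * (z + P ^ 2) := by positivity
  have hz1 : 0 < z - 1 := by linarith only [hz]
  have hq : 0 < 1 - P := by linarith only [hP1]
  have h1 : 0 < gz 1 P - gz z P := by rw [hd]; positivity
  have h2 : 4 * z * ((gz 1 P - gz z P) * (2 * (1 - P))) ≤
      4 * z * ((gz 1 P - gz z P) * (gz 1 P + gz z P)) := by
    apply mul_le_mul_of_nonneg_left _ (by positivity)
    exact mul_le_mul_of_nonneg_left (by linarith only [g2, h1]) h1.le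
  rw [e]
  refine lt_of_lt_of_le ?_ h2
  rw [hd]
  have e2 : 4 * z * (P * (1 - P) ^ 2 * (z - 1) / ((1 + P ^ 2) * (z + P ^ 2)) * (2 * (1 - P))) =
      (z - 1) * (8 * z * (P * (1 - P) ^ 3)) / ((1 + P ^ 2) * (z + P ^ 2)) := by
    field_simp
    ring
  rw [e2, lt_div_iff₀ hD]
  have := mul_lt_mul_of_pos_left h hz1
  linarith only [this]

/-- the basic inequality, to the left -/
theorem core_l {z P H : ℝ} (hz0 : 0 < z) (hz : z ≤ 1) (hP : 0 < P) (hP1 : P < 1)
    (h : H * ((1 - z) * ((1 + P ^ 2) * (z + P ^ 2))) ≤ 8 * z * (P * (1 - P) ^ 3)) :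
    H * (1 - z) ^ 2 ≤ 4 * z * (gz z P ^ 2 - gz 1 P ^ 2) := by
  have e : gz z P ^ 2 - gz 1 P ^ 2 = -(gz 1 P - gz z P) * (gz 1 P + gz z P) := by ring
  have g1 := gz_ge (z := 1) (by norm_num) hP hP1
  have g2 := gz_ge hz0 hP hP1
  have hd := gz_sub (z := z) hz0 hP
  have hD : 0 < (1 + P ^ 2) * (z + P ^ 2) := by positivity
  have hz1 : 0 ≤ 1 - z := by linarith only [hz]
  have hq : 0 < 1 - P := by linarith only [hP1]
  have hd' : -(gz 1 P - gz z P) = P * (1 - P) ^ 2 * (1 - z) / ((1 + P ^ 2) * (z + P ^ 2)) := by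
    rw [hd, ← neg_div]
    congr 1
    ring
  have h1 : 0 ≤ -(gz 1 P - gz z P) := by rw [hd']; positivity
  have h2 : 4 * z * (-(gz 1 P - gz z P) * (2 * (1 - P))) ≤
      4 * z * (-(gz 1 P - gz z P) * (gz 1 P + gz z P)) := by
    apply mul_le_mul_of_nonneg_left _ (by positivity)
    exact mul_le_mul_of_nonneg_left (by linarith only [g1, g2]) h1
  rw [e]
  refine le_trans ?_ h2
  rw [hd']
  have e2 : 4 * z * (P * (1 - P) ^ 2 * (1 - z) / ((1 + P ^ 2) * (z + P ^ 2)) * (2 * (1 - P))) =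
      (1 - z) * (8 * z * (P * (1 - P) ^ 3)) / ((1 + P ^ 2) * (z + P ^ 2)) := by
    field_simp
    ring
  rw [e2, le_div_iff₀ hD]
  have := mul_le_mul_of_nonneg_left h hz1
  linarith only [this]

theorem cub {P : ℝ} (h0 : 15 / 100 ≤ P) (h1 : P ≤ 528 / 1000) : 55 / 1000 ≤ P * (1 - P) ^ 3 := by
  have e : P * (1 - P) ^ 3 - 55 / 1000 = (P - 15 / 100) * (528 / 1000 - P) *
      (P ^ 2 - 2322 / 1000 * P + 1346484 / 1000000) +
      ((1 - 1346484 / 1000000 * (678 / 1000) - 2322 / 1000 * (792 / 10000)) * P +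
      (1346484 / 1000000 * (792 / 10000) - 55 / 1000)) := by
    ring
  have h2 : 0 ≤ P ^ 2 - 2322 / 1000 * P + 1346484 / 1000000 := by nlinarith only [h1, sq_nonneg P]
  have h3 := mul_nonneg (mul_nonneg (sub_nonneg.2 h0) (sub_nonneg.2 h1)) h2
  linarith only [h1, h3]

/-- the common right hand side -/
theorem aux_le {z P K w : ℝ} (hK : 0 ≤ K) (hw : 0 ≤ w) (hz : 0 < z) (h0 : 0 < P)
    (h1 : P ≤ 528 / 1000) :
    K * (w * ((1 + P ^ 2) * (z + P ^ 2))) ≤ K * (w * (1279 / 1000 * (z + 279 / 1000))) := by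
  have h2 : P ^ 2 ≤ 279 / 1000 := by nlinarith only [h1, h0]
  have h3 := sq_nonneg P
  apply mul_le_mul_of_nonneg_left _ hK
  apply mul_le_mul_of_nonneg_left _ hw
  apply mul_le_mul (by linarith only [h2]) (by linarith only [h2]) (by linarith only [hz, h3]) (by norm_num)

theorem num_a {z : ℝ} (h : 1 ≤ z) (hz : z ≤ 19 / 10) :
    22 / 100 * ((z - 1) * (1279 / 1000 * (z + 279 / 1000))) < 8 * z * (55 / 1000) := by
  nlinarith only [hz, h, mul_nonneg (sub_nonneg.2 h) (sub_nonneg.2 hz)]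

theorem num_b {z : ℝ} (h : 1 ≤ z) (hz : z ≤ 25 / 10) :
    13 / 100 * ((z - 1) * (1279 / 1000 * (z + 279 / 1000))) < 8 * z * (55 / 1000) := by
  nlinarith only [hz, h, mul_nonneg (sub_nonneg.2 h) (sub_nonneg.2 hz)]

theorem num_c {z : ℝ} (h : 2 / 10 ≤ z) (hz : z ≤ 1) :
    7 / 100 * ((1 - z) * (1279 / 1000 * (z + 279 / 1000))) ≤ 8 * z * (55 / 1000) := by
  nlinarith only [h, mul_nonneg (sub_nonneg.2 h) (sub_nonneg.2 hz)]

/-- combination of the two comparisons, to the right -/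
theorem comb_r {c H H' G G1 : ℝ} (c0 : 0 < c) (c1 : c ≤ 1) (hH : 0 ≤ H) (hH' : 0 ≤ H')
    (hG : 0 < G1) (R : H' * (1 - c) < c * (G1 ^ 2 - G ^ 2)) :
    (c * G ^ 2 + H') * (1 + H) < (G1 ^ 2 + H') * (c + H) := by
  have h0 : 0 ≤ H' * (1 - c) := mul_nonneg hH' (by linarith only [c1])
  have h1 : c * G ^ 2 ≤ G1 ^ 2 := by
    have : c * G1 ^ 2 ≤ 1 * G1 ^ 2 := mul_le_mul_of_nonneg_right c1 (sq_nonneg _)
    linarith only [R, h0, this]
  have h2 : 0 ≤ H * (G1 ^ 2 - c * G ^ 2) := mul_nonneg hH (by linarith only [h1])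
  linarith only [R, h2]

/-- combination of the two comparisons, to the left -/
theorem comb_l {c H H' G G1 : ℝ} (c0 : 0 < c) (c1 : c ≤ 1) (hH : 0 ≤ H) (hH' : 0 ≤ H')
    (hG : G1 ^ 2 ≤ 1) (L : H * (1 - c) ≤ c * (G ^ 2 - G1 ^ 2)) :
    (G1 ^ 2 + H') * (c + H) ≤ (c * G ^ 2 + H') * (1 + H) := by
  have h1 : 0 ≤ H' * (1 - c) := mul_nonneg hH' (by linarith only [c1])
  have h2 : 0 ≤ H * (1 - c) := mul_nonneg hH (by linarith only [c1])
  have h3 : 0 ≤ H * (c * (G ^ 2 - G1 ^ 2)) := mul_nonneg hH (by linarith only [L, h2])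
  have h4 : H * (1 - c) * G1 ^ 2 ≤ H * (1 - c) * 1 := mul_le_mul_of_nonneg_left hG h2
  linarith only [L, h1, h3, h4]

/-- **The comparison.** -/
theorem cmp {x x' a a' H H' : ℝ} (hx : 1 / 2 < x) (hx1 : x < 1) (ha : 0 < a) (ha1 : a ≤ 1 / 2)
    (hx' : 0 < x') (ha' : 0 < a') (hs : x + x' < 1) (hs' : a + a' < 1)
    (hP0 : 15 / 100 ≤ ht a * ht a') (hP1 : ht a * ht a' ≤ 528 / 1000)
    (hP : ht a * ht a' ≤ ht x * ht x') (hz0 : 2 / 10 ≤ ht a ^ 2) (hH0 : 0 ≤ H)
    (hH : H ≤ 7 / 100) (hH0' : 0 ≤ H') (hz : ht x ^ 2 ≤ 19 / 10 ∧ H' ≤ 22 / 100 ∨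
      ht x ^ 2 ≤ 25 / 10 ∧ H' ≤ 13 / 100) :
    (sin (π * (x + x')) ^ 2 + H') * (sin (π * a) ^ 2 + H) <
      (sin (π * (a + a')) ^ 2 + H') * (sin (π * x) ^ 2 + H) := by
  have x0 : 0 < x := by linarith only [hx, hx', hs]
  have hx1' : x' < 1 := by linarith only [hx, hx', hs]
  have ha1' : a' < 1 := by linarith only [ha, hs']
  have a1 : a < 1 := by linarith only [hx, ha1, hx', hs]
  have p1 := prod_lt_one ⟨x0, hx1⟩ ⟨hx', hx1'⟩ hs
  have t1 : 1 < ht x := by
    have hp := pi_pos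
    rw [← ht_half]
    unfold ht
    exact tan_lt_tan_of_nonneg_of_lt_pi_div_two (by positivity) (by nlinarith only [hx1, hp]) (by nlinarith only [hx, hp])
  have t2 : ht a ≤ 1 := by
    rw [← ht_half]
    exact ht_le ha (by norm_num) ha1
  have t3 := ht_pos ha a1
  set P := ht a * ht a' with hPd
  set z := ht x ^ 2 with hzd
  set z0 := ht a ^ 2 with hz0d
  have zl : 1 < z := by nlinarith only [hx, t1, hx', hs]
  have zl0 : z0 ≤ 1 := by nlinarith only [t2, t3]
  have zp0 : 0 < z0 := by linarith only [hx, hx', hs, hz0]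
  have Pp : 0 < P := by linarith only [hx, hx', hs, hP0]
  have P1 : P < 1 := by linarith only [hx, hx', hs, hP1]
  have hc := cub hP0 hP1
  -- the sines
  have sX := ratio_ht x0 hx1 hx' hx1'
  have sA := ratio_ht ha a1 ha' ha1'
  rw [← hzd] at sX
  rw [← hPd, ← hz0d] at sA
  have sx := sin_pi_pos x0 hx1
  have sa := sin_pi_pos ha a1
  have ss := sin_pi_pos (u := x + x') (by linarith only [hx, hx']) hs
  have g0 := gz_anti zl.le Pp hP p1
  have g1 := gz_ge (z := z) (by linarith only [zl]) Pp P1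
  have S1 : sin (π * (x + x')) ^ 2 ≤ sin (π * x) ^ 2 * gz z P ^ 2 := by
    have h1 : sin (π * (x + x')) ≤ sin (π * x) * gz z P := by
      rw [sX]
      exact mul_le_mul_of_nonneg_left g0 sx.le
    rw [← mul_pow]
    exact pow_le_pow_left₀ ss.le h1 2
  have S0 : sin (π * (a + a')) ^ 2 = sin (π * a) ^ 2 * gz z0 P ^ 2 := by
    rw [sA, mul_pow]
  have cX := sin_sq_ht x0 hx1
  have cA := sin_sq_ht ha a1
  rw [← hzd] at cX
  rw [← hz0d] at cA
  have q1 := gz_ge (z := 1) (by norm_num) Pp P1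
  have q2 := gz_le (z := 1) le_rfl Pp P1
  -- the two inequalities
  have R := core_r (H := H') zl Pp P1 (by
    rcases hz with ⟨hz, hH'⟩ | ⟨hz, hH'⟩
    · have h1 := aux_le (z := z) (w := z - 1) (K := H') hH0' (by linarith only [zl]) (by linarith only [zl]) Pp hP1
      have h2 : H' * ((z - 1) * (1279 / 1000 * (z + 279 / 1000))) ≤
          22 / 100 * ((z - 1) * (1279 / 1000 * (z + 279 / 1000))) :=
        mul_le_mul_of_nonneg_right hH' (mul_nonneg (by linarith only [zl]) (by linarith only [zl]))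
      have h3 := num_a zl.le hz
      have h4 : 8 * z * (55 / 1000) ≤ 8 * z * (P * (1 - P) ^ 3) :=
        mul_le_mul_of_nonneg_left hc (by linarith only [zl])
      linarith only [h1, h2, h3, h4]
    · have h1 := aux_le (z := z) (w := z - 1) (K := H') hH0' (by linarith only [zl]) (by linarith only [zl]) Pp hP1
      have h2 : H' * ((z - 1) * (1279 / 1000 * (z + 279 / 1000))) ≤
          13 / 100 * ((z - 1) * (1279 / 1000 * (z + 279 / 1000))) :=
        mul_le_mul_of_nonneg_right hH' (mul_nonneg (by linarith only [zl]) (by linarith only [zl]))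
      have h3 := num_b zl.le hz
      have h4 : 8 * z * (55 / 1000) ≤ 8 * z * (P * (1 - P) ^ 3) :=
        mul_le_mul_of_nonneg_left hc (by linarith only [zl])
      linarith only [h1, h2, h3, h4])
  have L := core_l (H := H) zp0 zl0 Pp P1 (by
    have h1 := aux_le (z := z0) (w := 1 - z0) (K := H) hH0 (by linarith only [zl0]) zp0 Pp hP1
    have h2 : H * ((1 - z0) * (1279 / 1000 * (z0 + 279 / 1000))) ≤
        7 / 100 * ((1 - z0) * (1279 / 1000 * (z0 + 279 / 1000))) :=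
      mul_le_mul_of_nonneg_right hH (mul_nonneg (by linarith only [zl0]) (by linarith only [hz0]))
    have h3 := num_c hz0 zl0
    have h4 : 8 * z0 * (55 / 1000) ≤ 8 * z0 * (P * (1 - P) ^ 3) :=
      mul_le_mul_of_nonneg_left hc (by linarith only [hz0])
    linarith only [h1, h2, h3, h4])
  set G := gz z P
  set G1 := gz 1 P
  set G0 := gz z0 P
  have b1 : 0 < (1 + z) ^ 2 := by positivity
  have b0 : 0 < (1 + z0) ^ 2 := by positivity
  set c := sin (π * x) ^ 2 with hcd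
  set c0 := sin (π * a) ^ 2 with hc0d
  have cp : 0 < c := by positivity
  have c0p : 0 < c0 := by positivity
  have hc1 : c ≤ 1 := sin_sq_le_one _
  have hc01 : c0 ≤ 1 := sin_sq_le_one _
  -- `H' (1 - c) < c (G1 ^ 2 - G ^ 2)`
  have R' : H' * (1 - c) < c * (G1 ^ 2 - G ^ 2) := by
    have e1 : H' * (1 - c) = H' * (z - 1) ^ 2 / (1 + z) ^ 2 := by
      rw [cX]
      field_simp
      ring
    have e2 : c * (G1 ^ 2 - G ^ 2) = 4 * z * (G1 ^ 2 - G ^ 2) / (1 + z) ^ 2 := by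
      rw [cX]
      ring
    rw [e1, e2]
    exact div_lt_div_of_pos_right R b1
  have L' : H * (1 - c0) ≤ c0 * (G0 ^ 2 - G1 ^ 2) := by
    have e1 : H * (1 - c0) = H * (1 - z0) ^ 2 / (1 + z0) ^ 2 := by
      rw [cA]
      field_simp
      ring
    have e2 : c0 * (G0 ^ 2 - G1 ^ 2) = 4 * z0 * (G0 ^ 2 - G1 ^ 2) / (1 + z0) ^ 2 := by
      rw [cA]
      ring
    rw [e1, e2]
    exact div_le_div_of_nonneg_right L b0.le
  have G1n : 0 < G1 := by linarith only [hx, hx', hs, hP1, q1]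
  have G1q : G1 ^ 2 ≤ 1 := by nlinarith only [q2, hx, hx', hs, hP1, q1]
  have r1 := comb_r cp hc1 hH0 hH0' G1n R'
  have r2 := comb_l (H' := H') c0p hc01 hH0 hH0' G1q L'
  have c0H : 0 < c0 + H := by linarith only [hH0, c0p]
  have cH : 0 < c + H := by linarith only [hH0, cp]
  have k1 : (sin (π * (x + x')) ^ 2 + H') * (c0 + H) ≤ (c * G ^ 2 + H') * (c0 + H) :=
    mul_le_mul_of_nonneg_right (by linarith only [S1]) c0H.le
  refine lt_of_le_of_lt k1 ?_
  rw [S0]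
  have k2 := mul_lt_mul_of_pos_right r1 c0H
  have k3 := mul_le_mul_of_nonneg_right r2 cH.le
  have k4 : 0 < 1 + H := by linarith only [hH0]
  refine lt_of_mul_lt_mul_right ?_ k4.le
  linarith only [k2, k3]

end MR

end Pool.Agent.Work.MP_b30479_gt.G2
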