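import Pool.Agent.Work.MP_b30479_gt.G2.MRPush
import Pool.Agent.Work.MP_b30479_gt.G2.MQG

/-!
# Push of a digit `1` at a hinge `1 | 1`, all positions
-/

namespace Pool.Agent.Work.MP_b30479_gt.G2

open VOL NumI NumI.E

namespace MR

theorem ht_275 : (46 : ℝ) / 100 ≤ ht (275 / 1000) := by
  have h := chk0 (e := sub (sinPi (q 275 2000)) (mul (q 46 100) (cosPi (q 275 2000))))
    (by decide +kernel)
  simp only [val] at h
  push_cast at h
  have hc := cos_half_pos (x := 275 / 1000) (by norm_num) (by norm_num)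
  unfold ht
  rw [Real.tan_eq_sin_div_cos, le_div_iff₀ hc]
  have e : Real.pi * (275 / 1000) / 2 = Real.pi * (275 / 2000) := by ring
  rw [e]
  linarith only [h]

theorem ht_212 : (34 : ℝ) / 100 ≤ ht (212 / 1000) := by
  have h := chk0 (e := sub (sinPi (q 212 2000)) (mul (q 34 100) (cosPi (q 212 2000))))
    (by decide +kernel)
  simp only [val] at h
  push_cast at h
  have hc := cos_half_pos (x := 212 / 1000) (by norm_num) (by norm_num)
  unfold ht
  rw [Real.tan_eq_sin_div_cos, le_div_iff₀ hc]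
  have e : Real.pi * (212 / 1000) / 2 = Real.pi * (212 / 2000) := by ring
  rw [e]
  linarith only [h]

theorem ht_640 : ht (640 / 1000) ≤ (158 : ℝ) / 100 := by
  have h := chk0 (e := sub (mul (q 158 100) (cosPi (q 640 2000))) (sinPi (q 640 2000)))
    (by decide +kernel)
  simp only [val] at h
  push_cast at h
  have hc := cos_half_pos (x := 640 / 1000) (by norm_num) (by norm_num)
  unfold ht
  rw [Real.tan_eq_sin_div_cos, div_le_iff₀ hc]
  have e : Real.pi * (640 / 1000) / 2 = Real.pi * (640 / 2000) := by ring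
  rw [e]
  linarith only [h]

theorem ht_600 : ht (600 / 1000) ≤ (1378 : ℝ) / 1000 := by
  have h := chk0 (e := sub (mul (q 1378 1000) (cosPi (q 600 2000))) (sinPi (q 600 2000)))
    (by decide +kernel)
  simp only [val] at h
  push_cast at h
  have hc := cos_half_pos (x := 600 / 1000) (by norm_num) (by norm_num)
  unfold ht
  rw [Real.tan_eq_sin_div_cos, div_le_iff₀ hc]
  have e : Real.pi * (600 / 1000) / 2 = Real.pi * (600 / 2000) := by ring
  rw [e]
  linarith only [h]

/-- **Upward, to the right of `1/2`.** -/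
theorem up_right {x x' a a' t t' : ℝ} (hx : 1 / 2 < x) (hx' : 0 < x') (hs : x + x' ≤ 90 / 100)
    (ha : 275 / 1000 ≤ a) (ha1 : a ≤ 1 / 2) (ha' : 212 / 1000 ≤ a') (hsa : a + a' ≤ 80 / 100)
    (ht0 : |t| ≤ 80 / 1000)
    (h : x ≤ 600 / 1000 ∧ |t + t'| ≤ 144 / 1000 ∨ x ≤ 640 / 1000 ∧ |t + t'| ≤ 112 / 1000) :
    MQ.Up x x' a a' t t' := by
  intro _ hg
  have x0 : 0 < x := by linarith only [hx, hx', hs]
  have hx1 : x < 1 := by linarith only [hx, hx', hs]
  have hx1' : x' < 1 := by linarith only [hx, hx', hs]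
  have a0 : 0 < a := by linarith only [hx, hx', hs, ha]
  have a1 : a < 1 := by linarith only [hx, hx', hs, ha1]
  have a0' : 0 < a' := by linarith only [hx, hx', hs, ha']
  have a1' : a' < 1 := by linarith only [hx, hx', hs, ha, hsa]
  have p1 := prod_le_of_dom ⟨x0, hx1⟩ ⟨hx', hx1'⟩ ⟨a0, a1⟩ ⟨a0', a1'⟩ hg
  have q1 := ht_275.trans (ht_le (by norm_num) a1 ha)
  have q2 := ht_212.trans (ht_le (by norm_num) a1' ha')
  have p2 : ht a * ht a' ≤ 528 / 1000 := by
    have B : MQ.Bs a a' a a' := ⟨a0, a0', a0, a0', ha1, ha1, by linarith only [hx, hx', hs, hsa], hsa⟩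
    have h1 := B.P528
    rw [gh_ht, gh_ht, ← Real.log_mul (ht_pos a0 a1).ne' (ht_pos a0' a1').ne'] at h1
    have h2 := (Real.log_le_log_iff (mul_pos (ht_pos a0 a1) (ht_pos a0' a1')) (by norm_num)).1 h1
    push_cast at h2
    exact h2
  have p0 : 15 / 100 ≤ ht a * ht a' := by nlinarith only [q1, q2]
  have hH : Real.sinh (Real.pi * t) ^ 2 ≤ 7 / 100 := by
    have h2 := MQ.sinh_le_c (n := 80) (c := 7) (d := 1000) (e := 100) (by decide +kernel)
    push_cast at h2
    exact MQ.sinh_sq_le' ht0 h2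
  have hz : ht x ^ 2 ≤ 19 / 10 ∧ Real.sinh (Real.pi * (t + t')) ^ 2 ≤ 22 / 100 ∨
      ht x ^ 2 ≤ 25 / 10 ∧ Real.sinh (Real.pi * (t + t')) ^ 2 ≤ 13 / 100 := by
    have hp := ht_pos x0 hx1
    rcases h with ⟨h1, h2⟩ | ⟨h1, h2⟩
    · left
      constructor
      · have h3 := (ht_le x0 (by norm_num) h1).trans ht_600
        nlinarith only [h3, h1, hx, hx', hs, hp]
      · have h3 := MQ.sinh_le_c (n := 144) (c := 22) (d := 1000) (e := 100) (by decide +kernel)
        push_cast at h3
        exact MQ.sinh_sq_le' h2 h3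
    · right
      constructor
      · have h3 := (ht_le x0 (by norm_num) h1).trans ht_640
        nlinarith only [h3, hp]
      · have h3 := MQ.sinh_le_c (n := 112) (c := 13) (d := 1000) (e := 100) (by decide +kernel)
        push_cast at h3
        exact MQ.sinh_sq_le' h2 h3
  have key := cmp hx hx1 a0 ha1 hx' a0' (by linarith only [hs]) (by linarith only [hx, hx', hs, hsa]) p0 p2 p1 (by nlinarith only [q1])
    (sq_nonneg (Real.sinh (Real.pi * t))) hH (sq_nonneg (Real.sinh (Real.pi * (t + t')))) hz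
  rw [lv_add, lv_add, MQ.LLlv (by linarith only [hx, hx']) (by linarith only [hs]), MQ.LLlv x0 hx1,
    MQ.LLlv (by linarith only [ha, a0']) (by linarith only [hx, hx', hs, hsa]), MQ.LLlv a0 a1]
  have s1 := sin_pi_pos (u := x + x') (by linarith only [hx, hx']) (by linarith only [hs])
  have s2 := sin_pi_pos (u := x) (by linarith only [hx]) (by linarith only [hx', hs])
  have s3 := sin_pi_pos (u := a + a') (by linarith only [ha, a0']) (by linarith only [hx, hx', hs, hsa])
  have s4 := sin_pi_pos (u := a) (by linarith only [ha]) (by linarith only [ha1])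
  have b1 : 0 < Real.sin (Real.pi * (x + x')) ^ 2 + Real.sinh (Real.pi * (t + t')) ^ 2 := by
    positivity
  have b2 : 0 < Real.sin (Real.pi * x) ^ 2 + Real.sinh (Real.pi * t) ^ 2 := by positivity
  have b3 : 0 < Real.sin (Real.pi * (a + a')) ^ 2 + Real.sinh (Real.pi * (t + t')) ^ 2 := by
    positivity
  have b4 : 0 < Real.sin (Real.pi * a) ^ 2 + Real.sinh (Real.pi * t) ^ 2 := by positivity
  rw [Real.log_mul (by norm_num) b1.ne', Real.log_mul (by norm_num) b2.ne',
    Real.log_mul (by norm_num) b3.ne', Real.log_mul (by norm_num) b4.ne']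
  have h5 := Real.log_lt_log (by positivity) key
  rw [Real.log_mul b1.ne' b4.ne', Real.log_mul b3.ne' b2.ne'] at h5
  linarith only [h5]

end MR

namespace SR

open ML Finset

variable {M : ℕ} {b : Fin (M + 1) → ℤ} {zs : DD (tyW b) ⊕ ZZ (tyW b) → ℂ}
variable {y : DD (tyW b) ⊕ ZZ (tyW b) → ℝ}
variable {h h' h'' : Fin M} {i j j' l : Fin (M + 1)} {p : Fin 3}

/-- **Push of a digit `1`, hinge `1 | 1` to the right of `1/2`.** -/
theorem Adj.push1R (A : Adj h i p j) (hb : ClassW b) (hL : Loc b zs)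
    (hX : LocX b zs) (hP : LocP b zs) (hS : LocS b zs) (hy : Mx b zs y) (hf : Flat b y)
    (h64 : ∀ {h : Fin M} {i j : Fin (M + 1)} {p : Fin 3}, Adj h i p j → clsW b i = .one →
      clsW b j = .one → y (.inl (.inl h)) ≤ 64 / 100)
    (hs : Sum1 b y (90 / 100)) (hc : clsW b i = .one) (hj : clsW b j = .one)
    (h5 : 1 / 2 < y (.inl (.inl h))) :
    Push' (tyW b) b i p p.rev (Xw b zs y i) (xx (tyW b) i zs) := by
  obtain ⟨h', j', A'⟩ := A.other_one hb hc
  obtain ⟨h'', l, A''⟩ := A.symm.other_one hb hj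
  rw [Fin.rev_rev] at A''
  have w := hP.pair A A' A'' hc hj
  have r := A.rz_box hb hL hc
  have r' := A'.rz_box hb hL hc
  rw [hj] at r
  have r0 : (212 : ℝ) / 1000 ≤ (zs (.inl (.inl h'))).re := by
    refine le_trans ?_ r'.1
    generalize clsW b j' = C
    cases C <;> simp only [MQ.rz] <;> norm_num
  simp only [MQ.rz] at r
  push_cast at r
  have hlt : (zs (.inl (.inl h))).re < y (.inl (.inl h)) := (hL.half h).trans h5
  have up := MR.up_right (x := y (.inl (.inl h))) (x' := y (.inl (.inl h')))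
    (a := (zs (.inl (.inl h))).re) (a' := (zs (.inl (.inl h'))).re)
    (t := ofs (b i) (zs (.inl (.inl h))).im) (t' := ofs (b i) (zs (.inl (.inl h'))).im)
    h5 ((wcl_pos h').trans_le (hf h').1) (hs A A' hc) r.1 (hL.half h).le r0 (hS.sum A A' hc)
    (hX.t11 hb A hc hj) (by
      by_cases hPQ : clsW b j' = .one ∨ clsW b l = .one
      · left
        obtain ⟨-, u2, u3, -, -⟩ := pcw_X hPQ w
        refine ⟨?_, abs_le.2 ⟨u2, u3⟩⟩
        rcases hPQ with hq | hq
        · exact A.fe11 A' hf hc hj hq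
        · exact A.symm.fe11 A''.rr hf hj hc hq
      · right
        push Not at hPQ
        have u : -(112 / 1000) ≤ ofs (b i) (zs (.inl (.inl h))).im +
            ofs (b i) (zs (.inl (.inl h'))).im ∧ ofs (b i) (zs (.inl (.inl h))).im +
            ofs (b i) (zs (.inl (.inl h'))).im ≤ 112 / 1000 := by
          rcases pcw_Y hPQ.1 hPQ.2 w with ⟨-, u2, u3, -, -⟩ | ⟨-, u2, u3, -, -⟩
          · constructor <;> linarith only [u2, u3]
          · exact ⟨u2, u3⟩
        refine ⟨?_, abs_le.2 u⟩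
        have := h64 A hc hj
        linarith only [this])
  apply A.push_one hb hc
  rw [A.Yw_flat hy hf, A'.Yw_flat hy hf, A.Ys_lv, A'.Ys_lv]
  unfold PushV S1
  simp only [lv_re, lv_im, zero_mul, add_zero, one_mul]
  constructor
  · intro h1 h2
    linarith only [up, h1, h2, up h1 h2]
  · intro h1 h2
    linarith only [hlt, h1]

/-- **Push of a digit `1`, all hinges.** -/
theorem Adj.push1A (A : Adj h i p j) (hb : ClassW b) (hL : Loc b zs)
    (hX : LocX b zs) (hP : LocP b zs) (hS : LocS b zs) (hy : Mx b zs y) (hf : Flat b y)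
    (h64 : ∀ {h : Fin M} {i j : Fin (M + 1)} {p : Fin 3}, Adj h i p j → clsW b i = .one →
      clsW b j = .one → y (.inl (.inl h)) ≤ 64 / 100)
    (hs : Sum1 b y (90 / 100)) (hc : clsW b i = .one)
    (hj : clsW b j = .one ∨ y (.inl (.inl h)) ≤ 1 / 2) :
    Push' (tyW b) b i p p.rev (Xw b zs y i) (xx (tyW b) i zs) := by
  rcases le_or_gt (y (.inl (.inl h))) (1 / 2) with h5 | h5
  · exact A.push1 hb hL hX hP hS hy hf h64 hs hc h5
  · refine A.push1R hb hL hX hP hS hy hf h64 hs hc ?_ h5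
    rcases hj with hj | hj
    · exact hj
    · linarith only [h5, hj]

end SR

end Pool.Agent.Work.MP_b30479_gt.G2
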