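import Pool.Agent.Work.MP_b30479_gt.G2.MR2
import Pool.Agent.Work.NumI.ChkS

/-!
# Right ramps of the hinges `2 | ring`, `2e | ring`: the side of the digit

The path is `.60 | .125 | .30`, shift `π`.  `m = -T / (30/100)` is the slope in the frame of the
digit; the bounds go with the side of the ring in `RZ4`.
-/

set_option linter.unusedSimpArgs false

namespace Pool.Agent.Work.MP_b30479_gt.G2

open VOL NumI

namespace MR

section
open E

/-- slope `-T / (30/100)` -/
def mz : E := mul (q (-100) 30) (var 1)

/-- height on the ramp -/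
def tz : E := mul (var 1) (mul (q 100 30) (sub (q 6 10) (var 0)))

/-- `-12/100 + 178/100 (T / (30/100))` -/
def exz : E := add (q (-12) 100) (mul (q 178 100) (mul (q 100 30) (var 1)))

/-- `-15/1000 + 141/100 (T / (30/100))` -/
def exy : E := add (q (-15) 1000) (mul (q 141 100) (mul (q 100 30) (var 1)))

def rya : E := neg (add (add (e2 mz (var 0) tz (var 2) (var 3)) (mul pi mz)) exy)
def qya : E := neg (add (add (e2e mz (var 0) tz) (mul pi mz)) exy)
def rza : E := neg (add (add (e2 mz (var 0) tz (var 2) (var 3)) (mul pi mz)) exz)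
def rzb : E := neg (add (add (e2 mz (var 0) tz (var 2) (var 3)) (mul pi mz)) (q 1 10))
def kzb (c r : E) : E :=
  neg (add (add (en2 c r mz (var 0) tz (var 2) (var 3)) (mul pi mz)) (q 1 10))
def bzb (s : E) : E :=
  neg (add (add (eb2 s mz (var 0) tz (var 2) (var 3)) (mul pi mz)) (q 1 10))
def qzb : E := neg (add (add (e2e mz (var 0) tz) (mul pi mz)) (q 1 10))

/-- `t + t'` -/
def imz : E := add tz (var 3)

end

theorem rowya {x T x' t' : ℝ} (h1 : 3200 / 10000 ≤ x) (h1' : x ≤ 3600 / 10000)
    (h2 : 100 / 10000 ≤ T) (h2' : T ≤ 960 / 10000) (h3 : 0 / 10000 ≤ x') (h3' : x' ≤ 6000 / 10000)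
    (h4 : -(985 / 10000) ≤ t') (h4' : t' ≤ 960 / 10000) :
    s2 (-T / (30 / 100)) x (T * ((60 / 100 - x) / (30 / 100))) x' t' +
      Real.pi * (-T / (30 / 100)) + (-(15 / 1000) + 141 / 100 * (T / (30 / 100))) < 0 := by
  have h : chk [rya] 24 [V.of 10000 3200 3600, V.of 10000 100 960, V.of 10000 0 6000, V.of 10000 (-985) 960] = true := by
    decide +kernel
  obtain ⟨f, hf, hp⟩ := chk4 h (by norm_num) (x := x) (y := T) (z := x') (w := t')
    (le_trans (by norm_num) h1) (le_trans h1' (by norm_num)) (le_trans (by norm_num) h2)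
    (le_trans h2' (by norm_num)) (le_trans (by norm_num) h3) (le_trans h3' (by norm_num))
    (le_trans (by norm_num) h4) (le_trans h4' (by norm_num))
  simp only [List.mem_cons, List.not_mem_nil, or_false] at hf
  subst hf
  simp only [rza, rya, rzb, kzb, bzb, E.val, e2_val, en2_val, eb2_val] at hp
  simp only [mz, tz, exz, exy, E.val, lkR] at hp
  push_cast at hp
  ring_nf at hp ⊢
  linarith only [hp]

theorem rowza {x T x' t' : ℝ} (h1 : 3000 / 10000 ≤ x) (h1' : x ≤ 3200 / 10000)
    (h2 : 100 / 10000 ≤ T) (h2' : T ≤ 960 / 10000) (h3 : 0 / 10000 ≤ x') (h3' : x' ≤ 6000 / 10000)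
    (h4 : -(985 / 10000) ≤ t') (h4' : t' ≤ 960 / 10000) :
    s2 (-T / (30 / 100)) x (T * ((60 / 100 - x) / (30 / 100))) x' t' +
      Real.pi * (-T / (30 / 100)) + (-(12 / 100) + 178 / 100 * (T / (30 / 100))) < 0 := by
  have h : chk [rza] 24 [V.of 10000 3000 3200, V.of 10000 100 960, V.of 10000 0 6000, V.of 10000 (-985) 960] = true := by
    decide +kernel
  obtain ⟨f, hf, hp⟩ := chk4 h (by norm_num) (x := x) (y := T) (z := x') (w := t')
    (le_trans (by norm_num) h1) (le_trans h1' (by norm_num)) (le_trans (by norm_num) h2)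
    (le_trans h2' (by norm_num)) (le_trans (by norm_num) h3) (le_trans h3' (by norm_num))
    (le_trans (by norm_num) h4) (le_trans h4' (by norm_num))
  simp only [List.mem_cons, List.not_mem_nil, or_false] at hf
  subst hf
  simp only [rza, rya, rzb, kzb, bzb, E.val, e2_val, en2_val, eb2_val] at hp
  simp only [mz, tz, exz, exy, E.val, lkR] at hp
  push_cast at hp
  ring_nf at hp ⊢
  linarith only [hp]

theorem rowzb_h1_q1 : chk [rzb, uge 91 100] 23
    (NumI.setL 2 [V.of 10000 3600 6000, V.of 10000 100 960, V.of 10000 0 6000, V.of 10000 (-985) 960]) = true := by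
  decide +kernel

theorem rowzb_h1_q2 : chk [rzb, uge 91 100] 22
    (NumI.setL 2 (NumI.setR 2 [V.of 10000 3600 6000, V.of 10000 100 960, V.of 10000 0 6000, V.of 10000 (-985) 960])) = true := by
  decide +kernel

theorem rowzb_h1_q3 : chk [rzb, uge 91 100] 22
    (NumI.setR 2 (NumI.setR 2 [V.of 10000 3600 6000, V.of 10000 100 960, V.of 10000 0 6000, V.of 10000 (-985) 960])) = true := by
  decide +kernel

theorem rowzb_h1 : chk [rzb, uge 91 100] 24
    [V.of 10000 3600 6000, V.of 10000 100 960, V.of 10000 0 6000, V.of 10000 (-985) 960] = true :=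
  NumI.chk_node (i := 2) (by decide +kernel)
    rowzb_h1_q1
    (NumI.chk_node (i := 2) (by decide +kernel)
      rowzb_h1_q2
      rowzb_h1_q3)

theorem rowzb {x T x' t' : ℝ} (h1 : 3600 / 10000 ≤ x) (h1' : x ≤ 6000 / 10000)
    (h2 : 100 / 10000 ≤ T) (h2' : T ≤ 960 / 10000) (h3 : 0 / 10000 ≤ x') (h3' : x' ≤ 6000 / 10000)
    (h4 : -(985 / 10000) ≤ t') (h4' : t' ≤ 960 / 10000) (g0 : x + x' ≤ 91 / 100) :
    s2 (-T / (30 / 100)) x (T * ((60 / 100 - x) / (30 / 100))) x' t' +
      Real.pi * (-T / (30 / 100)) + 1 / 10 < 0 := by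
  have h : chk [rzb, uge 91 100] 24 [V.of 10000 3600 6000, V.of 10000 100 960, V.of 10000 0 6000, V.of 10000 (-985) 960] = true := rowzb_h1
  obtain ⟨f, hf, hp⟩ := chk4 h (by norm_num) (x := x) (y := T) (z := x') (w := t')
    (le_trans (by norm_num) h1) (le_trans h1' (by norm_num)) (le_trans (by norm_num) h2)
    (le_trans h2' (by norm_num)) (le_trans (by norm_num) h3) (le_trans h3' (by norm_num))
    (le_trans (by norm_num) h4) (le_trans h4' (by norm_num))
  simp only [List.mem_cons, List.not_mem_nil, or_false] at hf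
  rcases hf with rfl | rfl
  · simp only [rza, rya, rzb, kzb, bzb, E.val, e2_val, en2_val, eb2_val] at hp
    simp only [mz, tz, exz, exy, E.val, lkR] at hp
    push_cast at hp
    ring_nf at hp ⊢
    linarith only [hp]
  · simp only [uge, ule, imz, tz, E.val, lkR] at hp
    push_cast at hp
    nlinarith only [g0, hp]

theorem rowzc1 {x T x' t' : ℝ} (h1 : 3600 / 10000 ≤ x) (h1' : x ≤ 4700 / 10000)
    (h2 : 100 / 10000 ≤ T) (h2' : T ≤ 960 / 10000) (h3 : 4400 / 10000 ≤ x') (h3' : x' ≤ 6000 / 10000)
    (h4 : -(985 / 10000) ≤ t') (h4' : t' ≤ 960 / 10000) (g0 : 91 / 100 ≤ x + x') (g1 : x + x' ≤ 1) :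
    n2 (25 / 100) (-1 / 2) (-T / (30 / 100)) x (T * ((60 / 100 - x) / (30 / 100))) x' t' +
      Real.pi * (-T / (30 / 100)) + 1 / 10 < 0 := by
  have h : chk [kzb (E.q 25 100) (E.q (-1) 2), ule 91 100, uge 1 1] 24 [V.of 10000 3600 4700, V.of 10000 100 960, V.of 10000 4400 6000, V.of 10000 (-985) 960] = true := by
    decide +kernel
  obtain ⟨f, hf, hp⟩ := chk4 h (by norm_num) (x := x) (y := T) (z := x') (w := t')
    (le_trans (by norm_num) h1) (le_trans h1' (by norm_num)) (le_trans (by norm_num) h2)
    (le_trans h2' (by norm_num)) (le_trans (by norm_num) h3) (le_trans h3' (by norm_num))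
    (le_trans (by norm_num) h4) (le_trans h4' (by norm_num))
  simp only [List.mem_cons, List.not_mem_nil, or_false] at hf
  rcases hf with rfl | rfl | rfl
  · simp only [rza, rya, rzb, kzb, bzb, E.val, e2_val, en2_val, eb2_val] at hp
    simp only [mz, tz, exz, exy, E.val, lkR] at hp
    push_cast at hp
    ring_nf at hp ⊢
    linarith only [hp]
  · simp only [uge, ule, imz, tz, E.val, lkR] at hp
    push_cast at hp
    nlinarith only [g0, hp]
  · simp only [uge, ule, imz, tz, E.val, lkR] at hp
    push_cast at hp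
    nlinarith only [g1, hp]

theorem rowzc2 {x T x' t' : ℝ} (h1 : 4000 / 10000 ≤ x) (h1' : x ≤ 4700 / 10000)
    (h2 : 100 / 10000 ≤ T) (h2' : T ≤ 960 / 10000) (h3 : 5300 / 10000 ≤ x') (h3' : x' ≤ 6000 / 10000)
    (h4 : -(985 / 10000) ≤ t') (h4' : t' ≤ 960 / 10000) (g0 : 1 ≤ x + x') (g1 : x + x' ≤ 109 / 100) :
    n2 (25 / 100) (-1) (-T / (30 / 100)) x (T * ((60 / 100 - x) / (30 / 100))) x' t' +
      Real.pi * (-T / (30 / 100)) + 1 / 10 < 0 := by
  have h : chk [kzb (E.q 25 100) (E.q (-1) 1), ule 1 1, uge 109 100] 24 [V.of 10000 4000 4700, V.of 10000 100 960, V.of 10000 5300 6000, V.of 10000 (-985) 960] = true := by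
    decide +kernel
  obtain ⟨f, hf, hp⟩ := chk4 h (by norm_num) (x := x) (y := T) (z := x') (w := t')
    (le_trans (by norm_num) h1) (le_trans h1' (by norm_num)) (le_trans (by norm_num) h2)
    (le_trans h2' (by norm_num)) (le_trans (by norm_num) h3) (le_trans h3' (by norm_num))
    (le_trans (by norm_num) h4) (le_trans h4' (by norm_num))
  simp only [List.mem_cons, List.not_mem_nil, or_false] at hf
  rcases hf with rfl | rfl | rfl
  · simp only [rza, rya, rzb, kzb, bzb, E.val, e2_val, en2_val, eb2_val] at hp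
    simp only [mz, tz, exz, exy, E.val, lkR] at hp
    push_cast at hp
    ring_nf at hp ⊢
    linarith only [hp]
  · simp only [uge, ule, imz, tz, E.val, lkR] at hp
    push_cast at hp
    nlinarith only [g0, hp]
  · simp only [uge, ule, imz, tz, E.val, lkR] at hp
    push_cast at hp
    nlinarith only [h1', h3', hp]

theorem rowzc3 {x T x' t' : ℝ} (h1 : 4700 / 10000 ≤ x) (h1' : x ≤ 6000 / 10000)
    (h2 : 100 / 10000 ≤ T) (h2' : T ≤ 960 / 10000) (h3 : 3100 / 10000 ≤ x') (h3' : x' ≤ 5300 / 10000)
    (h4 : -(985 / 10000) ≤ t') (h4' : t' ≤ 960 / 10000) (g0 : 91 / 100 ≤ x + x') (g1 : x + x' ≤ 1) :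
    n2 (7 / 100) (-1 / 2) (-T / (30 / 100)) x (T * ((60 / 100 - x) / (30 / 100))) x' t' +
      Real.pi * (-T / (30 / 100)) + 1 / 10 < 0 := by
  have h : chk [kzb (E.q 7 100) (E.q (-1) 2), ule 91 100, uge 1 1] 24 [V.of 10000 4700 6000, V.of 10000 100 960, V.of 10000 3100 5300, V.of 10000 (-985) 960] = true := by
    decide +kernel
  obtain ⟨f, hf, hp⟩ := chk4 h (by norm_num) (x := x) (y := T) (z := x') (w := t')
    (le_trans (by norm_num) h1) (le_trans h1' (by norm_num)) (le_trans (by norm_num) h2)
    (le_trans h2' (by norm_num)) (le_trans (by norm_num) h3) (le_trans h3' (by norm_num))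
    (le_trans (by norm_num) h4) (le_trans h4' (by norm_num))
  simp only [List.mem_cons, List.not_mem_nil, or_false] at hf
  rcases hf with rfl | rfl | rfl
  · simp only [rza, rya, rzb, kzb, bzb, E.val, e2_val, en2_val, eb2_val] at hp
    simp only [mz, tz, exz, exy, E.val, lkR] at hp
    push_cast at hp
    ring_nf at hp ⊢
    linarith only [hp]
  · simp only [uge, ule, imz, tz, E.val, lkR] at hp
    push_cast at hp
    nlinarith only [g0, hp]
  · simp only [uge, ule, imz, tz, E.val, lkR] at hp
    push_cast at hp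
    nlinarith only [g1, hp]

theorem rowzc4 {x T x' t' : ℝ} (h1 : 4700 / 10000 ≤ x) (h1' : x ≤ 6000 / 10000)
    (h2 : 100 / 10000 ≤ T) (h2' : T ≤ 960 / 10000) (h3 : 4000 / 10000 ≤ x') (h3' : x' ≤ 6000 / 10000)
    (h4 : -(985 / 10000) ≤ t') (h4' : t' ≤ 960 / 10000) (g0 : 1 ≤ x + x') (g1 : x + x' ≤ 109 / 100) :
    n2 (7 / 100) (-1) (-T / (30 / 100)) x (T * ((60 / 100 - x) / (30 / 100))) x' t' +
      Real.pi * (-T / (30 / 100)) + 1 / 10 < 0 := by
  have h : chk [kzb (E.q 7 100) (E.q (-1) 1), ule 1 1, uge 109 100] 24 [V.of 10000 4700 6000, V.of 10000 100 960, V.of 10000 4000 6000, V.of 10000 (-985) 960] = true := by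
    decide +kernel
  obtain ⟨f, hf, hp⟩ := chk4 h (by norm_num) (x := x) (y := T) (z := x') (w := t')
    (le_trans (by norm_num) h1) (le_trans h1' (by norm_num)) (le_trans (by norm_num) h2)
    (le_trans h2' (by norm_num)) (le_trans (by norm_num) h3) (le_trans h3' (by norm_num))
    (le_trans (by norm_num) h4) (le_trans h4' (by norm_num))
  simp only [List.mem_cons, List.not_mem_nil, or_false] at hf
  rcases hf with rfl | rfl | rfl
  · simp only [rza, rya, rzb, kzb, bzb, E.val, e2_val, en2_val, eb2_val] at hp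
    simp only [mz, tz, exz, exy, E.val, lkR] at hp
    push_cast at hp
    ring_nf at hp ⊢
    linarith only [hp]
  · simp only [uge, ule, imz, tz, E.val, lkR] at hp
    push_cast at hp
    nlinarith only [g0, hp]
  · simp only [uge, ule, imz, tz, E.val, lkR] at hp
    push_cast at hp
    nlinarith only [g1, hp]

theorem rowzd1 {x T x' t' : ℝ} (h1 : 4900 / 10000 ≤ x) (h1' : x ≤ 6000 / 10000)
    (h2 : 100 / 10000 ≤ T) (h2' : T ≤ 960 / 10000) (h3 : 4900 / 10000 ≤ x') (h3' : x' ≤ 6000 / 10000)
    (h4 : -(985 / 10000) ≤ t') (h4' : t' ≤ 960 / 10000) (g0 : 109 / 100 ≤ x + x') (g1 : 0 ≤ T * ((60 / 100 - x) / (30 / 100)) + t') :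
    b2 0 (-T / (30 / 100)) x (T * ((60 / 100 - x) / (30 / 100))) x' t' +
      Real.pi * (-T / (30 / 100)) + 1 / 10 < 0 := by
  have h : chk [bzb (E.q 0 1), ule 109 100, E.neg imz] 24 [V.of 10000 4900 6000, V.of 10000 100 960, V.of 10000 4900 6000, V.of 10000 (-985) 960] = true := by
    decide +kernel
  obtain ⟨f, hf, hp⟩ := chk4 h (by norm_num) (x := x) (y := T) (z := x') (w := t')
    (le_trans (by norm_num) h1) (le_trans h1' (by norm_num)) (le_trans (by norm_num) h2)
    (le_trans h2' (by norm_num)) (le_trans (by norm_num) h3) (le_trans h3' (by norm_num))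
    (le_trans (by norm_num) h4) (le_trans h4' (by norm_num))
  simp only [List.mem_cons, List.not_mem_nil, or_false] at hf
  rcases hf with rfl | rfl | rfl
  · simp only [rza, rya, rzb, kzb, bzb, E.val, e2_val, en2_val, eb2_val] at hp
    simp only [mz, tz, exz, exy, E.val, lkR] at hp
    push_cast at hp
    ring_nf at hp ⊢
    linarith only [hp]
  · simp only [uge, ule, imz, tz, E.val, lkR] at hp
    push_cast at hp
    nlinarith only [g0, hp]
  · simp only [uge, ule, imz, tz, E.val, lkR] at hp
    push_cast at hp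
    nlinarith only [g1, hp]

theorem rowzd2 {x T x' t' : ℝ} (h1 : 4900 / 10000 ≤ x) (h1' : x ≤ 6000 / 10000)
    (h2 : 100 / 10000 ≤ T) (h2' : T ≤ 960 / 10000) (h3 : 4900 / 10000 ≤ x') (h3' : x' ≤ 6000 / 10000)
    (h4 : -(985 / 10000) ≤ t') (h4' : t' ≤ 960 / 10000) (g0 : 109 / 100 ≤ x + x') (g1 : T * ((60 / 100 - x) / (30 / 100)) + t' ≤ 0) :
    b2 (-1) (-T / (30 / 100)) x (T * ((60 / 100 - x) / (30 / 100))) x' t' +
      Real.pi * (-T / (30 / 100)) + 1 / 10 < 0 := by
  have h : chk [bzb (E.q (-1) 1), ule 109 100, imz] 24 [V.of 10000 4900 6000, V.of 10000 100 960, V.of 10000 4900 6000, V.of 10000 (-985) 960] = true := by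
    decide +kernel
  obtain ⟨f, hf, hp⟩ := chk4 h (by norm_num) (x := x) (y := T) (z := x') (w := t')
    (le_trans (by norm_num) h1) (le_trans h1' (by norm_num)) (le_trans (by norm_num) h2)
    (le_trans h2' (by norm_num)) (le_trans (by norm_num) h3) (le_trans h3' (by norm_num))
    (le_trans (by norm_num) h4) (le_trans h4' (by norm_num))
  simp only [List.mem_cons, List.not_mem_nil, or_false] at hf
  rcases hf with rfl | rfl | rfl
  · simp only [rza, rya, rzb, kzb, bzb, E.val, e2_val, en2_val, eb2_val] at hp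
    simp only [mz, tz, exz, exy, E.val, lkR] at hp
    push_cast at hp
    ring_nf at hp ⊢
    linarith only [hp]
  · simp only [uge, ule, imz, tz, E.val, lkR] at hp
    push_cast at hp
    nlinarith only [g0, hp]
  · simp only [uge, ule, imz, tz, E.val, lkR] at hp
    push_cast at hp
    nlinarith only [g1, hp]

theorem rowze1 {x T : ℝ} (h1 : 30 / 100 ≤ x) (h1' : x ≤ 36 / 100) (h2 : 88 / 1000 ≤ T)
    (h2' : T ≤ 131 / 1000) :
    s2e (-T / (30 / 100)) x (T * ((60 / 100 - x) / (30 / 100))) +
      Real.pi * (-T / (30 / 100)) + (-(15 / 1000) + 141 / 100 * (T / (30 / 100))) < 0 := by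
  have h : chk [qya] 20 [V.of 1000 300 360, V.of 1000 88 131] = true := by
    decide +kernel
  have hp := pos_of_chk (chk2 h (by norm_num) (x := x) (y := T)
    (le_trans (by norm_num) h1) (le_trans h1' (by norm_num)) (le_trans (by norm_num) h2)
    (le_trans h2' (by norm_num)))
  simp only [qya, E.val, e2e_val] at hp
  simp only [mz, tz, exy, E.val, lkR] at hp
  push_cast at hp
  ring_nf at hp ⊢
  linarith only [hp]

theorem rowze2 {x T : ℝ} (h1 : 36 / 100 ≤ x) (h1' : x ≤ 60 / 100) (h2 : 88 / 1000 ≤ T)
    (h2' : T ≤ 131 / 1000) :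
    s2e (-T / (30 / 100)) x (T * ((60 / 100 - x) / (30 / 100))) +
      Real.pi * (-T / (30 / 100)) + 1 / 10 < 0 := by
  have h : chk [qzb] 20 [V.of 1000 360 600, V.of 1000 88 131] = true := by
    decide +kernel
  have hp := pos_of_chk (chk2 h (by norm_num) (x := x) (y := T)
    (le_trans (by norm_num) h1) (le_trans h1' (by norm_num)) (le_trans (by norm_num) h2)
    (le_trans h2' (by norm_num)))
  simp only [qzb, E.val, e2e_val] at hp
  simp only [mz, tz, exz, E.val, lkR] at hp
  push_cast at hp
  ring_nf at hp ⊢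
  linarith only [hp]


/-- the bound which separates the two sides of `2 | ring`, `2e | ring` on the right ramp -/
noncomputable def ez (x m : ℝ) : ℝ := if x ≤ 36 / 100 then -(15 / 1000) + 141 / 100 * m else 1 / 10

/-- beyond `1`, upper half plane, slope `≤ 0` -/
theorem S2_beyond0 {w v : ℂ} {m : ℝ} (hm : m ≤ 0) (hw0 : 0 < w.re) (hw : w.re < 1)
    (h1 : 1 < w.re + v.re) (h2 : w.re + v.re < 2) (hi : 0 ≤ w.im + v.im) :
    S2 1 m w v ≤ b2 0 m w.re w.im v.re v.im := by
  have hp := Real.pi_pos
  have h5 := LL_beyond (u := w + v) (by simpa using h1) (by simpa using h2)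
  have e := YY_add_one (w + v - 1)
  rw [sub_add_cancel] at e
  have r1 : (w + v - 1).re = w.re + v.re - 1 := by simp
  have r2 : (w + v - 1).im = w.im + v.im := by simp
  have h3 : YY (w + v - 1) = -lnB (w.re + v.re - 1) (w.im + v.im) := by
    rw [Num.YY_lnB ⟨by rw [r1]; linarith only [h1], by rw [r1]; linarith only [h2]⟩, r1, r2]
  have h4 : m * YY (w + v) ≤ m * (0 * Real.pi - lnB (w.re + v.re - 1) (w.im + v.im)) := by
    rw [e, h3, r2]
    have h6 : (0 : ℝ) ≤ (if 0 < w.im + v.im then Real.pi else
        if w.im + v.im < 0 then -Real.pi else 0) := by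
      split_ifs <;> linarith
    nlinarith only [hm, h6]
  unfold S2 b2
  rw [Num.LL_lnA ⟨hw0, hw⟩, Num.YY_lnB ⟨hw0, hw⟩, h5]
  simp only [Complex.add_re, Complex.add_im] at h4 ⊢
  linarith only [h4]

/-- **Right ramp of `2 | ring`**, side of the inner `2` in its own frame, shift `π`. -/
theorem right_two_ring {w v : ℂ} {T : ℝ} (hT : 10 / 1000 ≤ T) (hT' : T ≤ 96 / 1000)
    (hw : RH w T (60 / 100) (125 / 1000) (30 / 100)) (hx : 32 / 100 ≤ w.re) (hv : 0 ≤ v.re)
    (hv' : v.re ≤ 60 / 100) (hk : -(985 / 10000) ≤ v.im) (hk' : v.im ≤ 96 / 1000) :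
    S2 1 (-T / (30 / 100)) w v + Real.pi * (-T / (30 / 100)) < -ez w.re (T / (30 / 100)) := by
  have him := RH_right hw (by norm_num) (by norm_num) (by norm_num) (by linarith only [hx])
  have hM := hw.reM
  have hws : w ∈ strip := ⟨by linarith only [hx], by linarith only [hM]⟩
  have hm : -T / (30 / 100) ≤ 0 := div_nonpos_of_nonpos_of_nonneg (by linarith only [hT]) (by norm_num)
  have hs : (-T / (30 / 100)) * (-1) = |-T / (30 / 100)| := by
    rw [abs_of_nonpos hm]
    ring
  have h4 : 0 ≤ (60 / 100 - w.re) / (30 / 100) := div_nonneg (by linarith only [hM]) (by norm_num)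
  unfold ez
  split_ifs with h36
  · have hu : w + v ∈ strip := ⟨by simp; linarith only [hx, hv], by simp; linarith only [hv', h36]⟩
    rw [S2_eq _ hws hu, him]
    have := rowya (x := w.re) (T := T) (x' := v.re) (t' := v.im) (by linarith only [hx]) (by linarith only [h36])
      (by linarith only [hT]) (by linarith only [hT']) (by linarith only [hv]) (by linarith only [hv']) (by linarith only [hk]) (by linarith only [hk'])
    linarith only [this]
  push Not at h36
  rcases le_or_gt (w.re + v.re) (91 / 100) with h1 | h1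
  · have hu : w + v ∈ strip := ⟨by simp; linarith only [hv, h36], by simp; linarith only [h1]⟩
    rw [S2_eq _ hws hu, him]
    have := rowzb (x := w.re) (T := T) (x' := v.re) (t' := v.im) (by linarith only [h36]) (by linarith only [hM])
      (by linarith only [hT]) (by linarith only [hT']) (by linarith only [hv]) (by linarith only [hv']) (by linarith only [hk]) (by linarith only [hk']) h1
    linarith only [this]
  rcases le_or_gt (w.re + v.re) (109 / 100) with h2 | h2
  · have hre : |(w + v).re - 1| ≤ 9 / 100 := by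
      rw [Complex.add_re, abs_le]
      constructor <;> linarith only [h1, h2]
    rcases le_total w.re (47 / 100) with h5 | h5
    · have h6 : 0 ≤ w.im ∧ w.im ≤ 77 / 1000 := by
        rw [him]
        have h5 : (60 / 100 - w.re) / (30 / 100) ≤ 80 / 100 := by
          rw [div_le_iff₀ (by norm_num)]
          linarith only [h36]
        constructor <;> nlinarith only [hM, hT, hT', h36]
      have hL : LL (w + v) ≤ 25 / 100 := LL_rect kr_9_175 (by norm_num) (by norm_num) hre
        (by rw [Complex.add_im, abs_le]; constructor <;> linarith only [hk, h6, hk', h6.1, h6.2])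
      rcases le_total (w.re + v.re) 1 with h3 | h3
      · have hY : |YY (w + v)| ≤ 1 / 2 * Real.pi := by
          rw [one_div_mul_eq_div]
          exact YY_abs_le (by simp; linarith only [h1]) (by simpa using h3)
        have h9 := S2_near hs hws.1 hws.2 hL hY
        rw [him] at h9
        have h10 := rowzc1 (x := w.re) (T := T) (x' := v.re) (t' := v.im) (by linarith only [h36])
          (by linarith only [h5]) (by linarith only [hT]) (by linarith only [hT']) (by linarith only [h1, h5]) (by linarith only [hv']) (by linarith only [hk])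
          (by linarith only [hk']) h1.le h3
        rw [show (-1 : ℝ) * (1 / 2) = -1 / 2 by norm_num] at h9
        linarith only [h9, h10]
      · have hY : |YY (w + v)| ≤ 1 * Real.pi := by
          rw [one_mul]
          exact YY_abs_pi (by simp; linarith only [h3]) (by simp; linarith only [hv', hM])
        have h9 := S2_near hs hws.1 hws.2 hL hY
        rw [him] at h9
        have h10 := rowzc2 (x := w.re) (T := T) (x' := v.re) (t' := v.im) (by linarith only [hv', h3])
          (by linarith only [h5]) (by linarith only [hT]) (by linarith only [hT']) (by linarith only [h5, h3]) (by linarith only [hv']) (by linarith only [hk])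
          (by linarith only [hk']) h3 h2
        rw [show (-1 : ℝ) * 1 = -1 by norm_num] at h9
        linarith only [h9, h10]
    · have h6 : 0 ≤ w.im ∧ w.im ≤ 42 / 1000 := by
        rw [him]
        have h5 : (60 / 100 - w.re) / (30 / 100) ≤ 435 / 1000 := by
          rw [div_le_iff₀ (by norm_num)]
          linarith only [h5]
        constructor <;> nlinarith
      have hL : LL (w + v) ≤ 7 / 100 := LL_rect kr_9_14 (by norm_num) (by norm_num) hre
        (by rw [Complex.add_im, abs_le]; constructor <;> linarith only [hk, h6, hk', h6.1, h6.2])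
      rcases le_total (w.re + v.re) 1 with h3 | h3
      · have hY : |YY (w + v)| ≤ 1 / 2 * Real.pi := by
          rw [one_div_mul_eq_div]
          exact YY_abs_le (by simp; linarith only [h1]) (by simpa using h3)
        have h9 := S2_near hs hws.1 hws.2 hL hY
        rw [him] at h9
        have h10 := rowzc3 (x := w.re) (T := T) (x' := v.re) (t' := v.im) (by linarith only [h5])
          (by linarith only [hM]) (by linarith only [hT]) (by linarith only [hT']) (by linarith only [hM, h1]) (by linarith only [h5, h3]) (by linarith only [hk])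
          (by linarith only [hk']) h1.le h3
        rw [show (-1 : ℝ) * (1 / 2) = -1 / 2 by norm_num] at h9
        linarith only [h9, h10]
      · have hY : |YY (w + v)| ≤ 1 * Real.pi := by
          rw [one_mul]
          exact YY_abs_pi (by simp; linarith only [h3]) (by simp; linarith only [hv', hM])
        have h9 := S2_near hs hws.1 hws.2 hL hY
        rw [him] at h9
        have h10 := rowzc4 (x := w.re) (T := T) (x' := v.re) (t' := v.im) (by linarith only [h5])
          (by linarith only [hM]) (by linarith only [hT]) (by linarith only [hT']) (by linarith only [hM, h3]) (by linarith only [hv']) (by linarith only [hk])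
          (by linarith only [hk']) h3 h2
        rw [show (-1 : ℝ) * 1 = -1 by norm_num] at h9
        linarith only [h9, h10]
  · rcases le_total 0 (w.im + v.im) with h3 | h3
    · have h9 := S2_beyond0 hm hws.1 hws.2 (by linarith only [h2]) (by linarith only [hv', hM]) h3
      rw [him] at h9 h3
      have h10 := rowzd1 (x := w.re) (T := T) (x' := v.re) (t' := v.im) (by linarith only [hv', h2])
        (by linarith only [hM]) (by linarith only [hT]) (by linarith only [hT']) (by linarith only [hM, h2]) (by linarith only [hv']) (by linarith only [hk])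
        (by linarith only [hk']) h2.le h3
      linarith only [h9, h10]
    · have h9 := S2_beyond hs hws.1 hws.2 (by linarith) (by linarith)
      rw [him] at h9 h3
      have h10 := rowzd2 (x := w.re) (T := T) (x' := v.re) (t' := v.im) (by linarith only [hv', h2])
        (by linarith only [hM]) (by linarith only [hT]) (by linarith only [hT']) (by linarith only [hM, h2]) (by linarith only [hv']) (by linarith only [hk])
        (by linarith only [hk']) h2.le h3
      linarith

/-- **Right ramp of `2 | ring`** on `[.30, .32]`, with the lower location of the ring variable on the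
other side -/
theorem right_two_ring' {w v : ℂ} {T : ℝ} (hT : 10 / 1000 ≤ T) (hT' : T ≤ 96 / 1000)
    (hw : RH w T (60 / 100) (125 / 1000) (30 / 100)) (hx : 30 / 100 ≤ w.re)
    (hx' : w.re ≤ 32 / 100) (hv : 0 ≤ v.re)
    (hv' : v.re ≤ 60 / 100) (hk : -(985 / 10000) ≤ v.im) (hk' : v.im ≤ 96 / 1000) :
    S2 1 (-T / (30 / 100)) w v + Real.pi * (-T / (30 / 100)) <
      -(-(12 / 100) + 178 / 100 * (T / (30 / 100))) := by
  have him := RH_right hw (by norm_num) (by norm_num) (by norm_num) (by linarith only [hx])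
  have hM := hw.reM
  have hws : w ∈ strip := ⟨by linarith only [hx], by linarith only [hx']⟩
  have hu : w + v ∈ strip := ⟨by simp; linarith only [hx, hv], by simp; linarith only [hx', hv']⟩
  rw [S2_eq _ hws hu, him]
  have := rowza (x := w.re) (T := T) (x' := v.re) (t' := v.im) (by linarith only [hx]) (by linarith only [hx'])
    (by linarith only [hT]) (by linarith only [hT']) (by linarith only [hv]) (by linarith only [hv']) (by linarith only [hk]) (by linarith only [hk'])
  linarith only [this]

/-- **Right ramp of `2e | ring`**, side of the end `2` in its own frame, shift `π`. -/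
theorem right_twoE_ring {w : ℂ} {T : ℝ} (hT : 88 / 1000 ≤ T) (hT' : T ≤ 131 / 1000)
    (hw : RH w T (60 / 100) (125 / 1000) (30 / 100)) (hx : 30 / 100 ≤ w.re) :
    S2 1 (-T / (30 / 100)) w 0 + Real.pi * (-T / (30 / 100)) < -ez w.re (T / (30 / 100)) := by
  have him := RH_right hw (by norm_num) (by norm_num) (by norm_num) (by linarith only [hx])
  have hM := hw.reM
  have hws : w ∈ strip := ⟨by linarith only [hx], by linarith only [hM]⟩
  rw [S2_zero_eq _ hws, him]
  unfold ez
  split_ifs with h36
  · have := rowze1 hx h36 hT hT'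
    linarith only [this]
  · push Not at h36
    have := rowze2 h36.le hM hT hT'
    linarith only [this]

end MR

end Pool.Agent.Work.MP_b30479_gt.G2
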