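import Pool.Agent.Work.MP_b30479_gt.G2.OTab

/-!
# Tables of rows in parts
-/

namespace Pool.Agent.Work.MP_b30479_gt.G2

namespace OR

theorem rowsOk_of {S : Stage} {p : Piece} {m : Mode} {side : Bool} {P : PC}
    (h : ∀ i < (S.bins P).length,
      cellOk S p m side P ((S.bins P).getD i b00) ((m.g side P).getD i e00) = true) :
    rowsOk S p m side P = true := by
  unfold rowsOk
  rw [List.all_eq_true]
  exact fun i hi => h i (List.mem_range.1 hi)

theorem allRows_of {S : Stage} {p : Piece} {m : Mode}
    (h : ∀ P, rowsOk S p m false P = true ∧ rowsOk S p m true P = true) :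
    allRows S p m = true := by
  unfold allRows
  rw [List.all_eq_true]
  intro P _
  rw [(h P).1, (h P).2]
  rfl

end OR

end Pool.Agent.Work.MP_b30479_gt.G2
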