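import Pool.Agent.Work.MP_b30479_gt.G2.OStA
import Pool.Agent.Work.MP_b30479_gt.G2.ORows

namespace Pool.Agent.Work.MP_b30479_gt.G2

namespace OR

/-- windows -/
def a2e_1_wp : PC → Win
  | .one => ⟨0, 0, 0, 0, 0, 0⟩
  | .two => ⟨0, 0, 0, 0, 0, 0⟩
  | .twoE => ⟨-790, -360, -310, 250, 230, 820⟩
  | .thrR => ⟨0, 0, 0, 0, 0, 0⟩
  | .thrL => ⟨0, 0, 0, 0, 0, 0⟩
  | .threeE => ⟨0, 0, 0, 0, 0, 0⟩
  | .ring => ⟨0, 0, 0, 0, 0, 0⟩

/-- windows -/
def a2e_1_wq : PC → Win
  | .one => ⟨0, 0, 0, 0, 0, 0⟩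
  | .two => ⟨0, 0, 0, 0, 0, 0⟩
  | .twoE => ⟨0, 0, 0, 0, 0, 0⟩
  | .thrR => ⟨0, 0, 0, 0, 0, 0⟩
  | .thrL => ⟨0, 0, 0, 0, 0, 0⟩
  | .threeE => ⟨0, 0, 0, 0, 0, 0⟩
  | .ring => ⟨600, 1300, 110, 690, -820, -230⟩

/-- mode -/
def a2e_1_m0 : Mode where
  md := .V 300 1000
  lam := 1000
  ct := 500
  gp := fun
    | .one => [e00, e00, e00, e00, e00, e00, e00, e00]
    | .two => [e00, e00, e00, e00, e00, e00]
    | .twoE => [⟨1240, [8]⟩, ⟨-203, [142706706]⟩, ⟨-769, [44206150982382821050376571144339746, 142706707, 8, 8, 142639571, 36532917168]⟩, ⟨-769, [157051779690045605906, 142706707, 8, 8, 614890918102512162, 10316158921334804825973282]⟩, ⟨-1299, [0, 0, 0, 0, 2178, 2178]⟩, e00]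
    | .thrR => [e00, e00, e00, e00, e00, e00]
    | .thrL => [e00, e00, e00, e00, e00, e00]
    | .threeE => [e00, e00, e00, e00, e00, e00]
    | .ring => [e00, e00, e00, e00, e00, e00]
  gq := fun
    | .one => [e00, e00, e00, e00, e00, e00, e00, e00]
    | .two => [e00, e00, e00, e00, e00, e00]
    | .twoE => [e00, e00, e00, e00, e00, e00]
    | .thrR => [e00, e00, e00, e00, e00, e00]
    | .thrL => [e00, e00, e00, e00, e00, e00]
    | .threeE => [e00, e00, e00, e00, e00, e00]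
    | .ring => [⟨95, [40205292043184739193730]⟩, ⟨95, [829093492602013731]⟩, ⟨-471, [4655396543498849466228421472893195711708477645112129854177786779091063062176524037731347944238711090, 143164179, 8, 8, 0, 0]⟩, ⟨-471, [10283110395603805695148338, 143164179, 8, 8, 10314690894107823244915234, 13]⟩, ⟨-1914, [0, 0, 0, 0, 1587529964599101239686925888274068622640616647417540349734358313586720010563253525756969308967361344556426242957160616637271882118051926818, 2178]⟩, ⟨-1914, [0, 0, 0, 0, 142705282, 36566106754]⟩]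

/-- mode -/
def a2e_1_m1 : Mode where
  md := .D
  lam := 0
  ct := 13000
  gp := fun
    | .one => [e00, e00, e00, e00, e00, e00, e00, e00]
    | .two => [e00, e00, e00, e00, e00, e00]
    | .twoE => [⟨-1836, [53417439987507800803989841334710230813228690217779475972386]⟩, ⟨-1836, [2394197442201602]⟩, e00, e00, e00, e00]
    | .thrR => [e00, e00, e00, e00, e00, e00]
    | .thrL => [e00, e00, e00, e00, e00, e00]
    | .threeE => [e00, e00, e00, e00, e00, e00]
    | .ring => [e00, e00, e00, e00, e00, e00]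
  gq := fun
    | .one => [e00, e00, e00, e00, e00, e00, e00, e00]
    | .two => [e00, e00, e00, e00, e00, e00]
    | .twoE => [e00, e00, e00, e00, e00, e00]
    | .thrR => [e00, e00, e00, e00, e00, e00]
    | .thrL => [e00, e00, e00, e00, e00, e00]
    | .threeE => [e00, e00, e00, e00, e00, e00]
    | .ring => [⟨1832, [13668401531403672906086554060055586166367630992680341675186210]⟩, ⟨1832, [18168682535748045025085602237841314856543694596578640745292442133737842789591460339553357506117667]⟩, e00, e00, e00, e00]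

/-- mode -/
def a2e_1_m2 : Mode where
  md := .V 150 1000
  lam := 0
  ct := -1500
  gp := fun
    | .one => [e00, e00, e00, e00, e00, e00, e00, e00]
    | .two => [e00, e00, e00, e00, e00, e00]
    | .twoE => [e00, e00, e00, e00, e00, ⟨-1682, [0, 0, 0, 0, 36549264002, 8]⟩]
    | .thrR => [e00, e00, e00, e00, e00, e00]
    | .thrL => [e00, e00, e00, e00, e00, e00]
    | .threeE => [e00, e00, e00, e00, e00, e00]
    | .ring => [e00, e00, e00, e00, e00, e00]
  gq := fun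
    | .one => [e00, e00, e00, e00, e00, e00, e00, e00]
    | .two => [e00, e00, e00, e00, e00, e00]
    | .twoE => [e00, e00, e00, e00, e00, e00]
    | .thrR => [e00, e00, e00, e00, e00, e00]
    | .thrL => [e00, e00, e00, e00, e00, e00]
    | .threeE => [e00, e00, e00, e00, e00, e00]
    | .ring => [⟨1678, [3924588334282590235556421511760402548754]⟩, ⟨1678, [1004695029324541330277871857993543151880211]⟩, ⟨1678, [741647420507269983084531605071476024678450, 142706707, 8, 8, 0, 0]⟩, ⟨1678, [10292426032886228472830002, 142706707, 8, 8, 10314690894107823228138018, 13]⟩, ⟨1381, [0, 0, 0, 0, 2401917552787746, 8]⟩, ⟨-2023, [0, 0, 0, 0, 8, 8]⟩]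

/-- mode -/
def a2e_1_m3 : Mode where
  md := .V 500 1000
  lam := 500
  ct := 1500
  gp := fun
    | .one => [e00, e00, e00, e00, e00, e00, e00, e00]
    | .two => [e00, e00, e00, e00, e00, e00]
    | .twoE => [⟨-179, [9380888584466]⟩, e00, e00, e00, e00, e00]
    | .thrR => [e00, e00, e00, e00, e00, e00]
    | .thrL => [e00, e00, e00, e00, e00, e00]
    | .threeE => [e00, e00, e00, e00, e00, e00]
    | .ring => [e00, e00, e00, e00, e00, e00]
  gq := fun
    | .one => [e00, e00, e00, e00, e00, e00, e00, e00]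
    | .two => [e00, e00, e00, e00, e00, e00]
    | .twoE => [e00, e00, e00, e00, e00, e00]
    | .thrR => [e00, e00, e00, e00, e00, e00]
    | .thrL => [e00, e00, e00, e00, e00, e00]
    | .threeE => [e00, e00, e00, e00, e00, e00]
    | .ring => [e00, e00, ⟨-160, [11341173674998500462229562391971529010, 143163699, 8, 8, 0, 0]⟩, ⟨-160, [2401926389139506, 143163699, 8, 8, 10292549395615589892043298, 13]⟩, e00, e00]

/-- piece -/
def a2e_1 : Piece := ⟨7300, 7600, 0, 820, a2e_1_wp, a2e_1_wq, [a2e_1_m0, a2e_1_m1, a2e_1_m2, a2e_1_m3]⟩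

set_option linter.defProp false

def a2e_1_r0_one0 : rowsOk stA2E a2e_1 a2e_1_m0 false .one = true := by decide +kernel

def a2e_1_r0_one1 : rowsOk stA2E a2e_1 a2e_1_m0 true .one = true := by decide +kernel

def a2e_1_r0_two0 : rowsOk stA2E a2e_1 a2e_1_m0 false .two = true := by decide +kernel

def a2e_1_r0_two1 : rowsOk stA2E a2e_1 a2e_1_m0 true .two = true := by decide +kernel

def a2e_1_r0_twoE0 : rowsOk stA2E a2e_1 a2e_1_m0 false .twoE = true := by decide +kernel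

def a2e_1_r0_twoE1 : rowsOk stA2E a2e_1 a2e_1_m0 true .twoE = true := by decide +kernel

def a2e_1_r0_thrR0 : rowsOk stA2E a2e_1 a2e_1_m0 false .thrR = true := by decide +kernel

def a2e_1_r0_thrR1 : rowsOk stA2E a2e_1 a2e_1_m0 true .thrR = true := by decide +kernel

def a2e_1_r0_thrL0 : rowsOk stA2E a2e_1 a2e_1_m0 false .thrL = true := by decide +kernel

def a2e_1_r0_thrL1 : rowsOk stA2E a2e_1 a2e_1_m0 true .thrL = true := by decide +kernel

def a2e_1_r0_threeE0 : rowsOk stA2E a2e_1 a2e_1_m0 false .threeE = true := by decide +kernel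

def a2e_1_r0_threeE1 : rowsOk stA2E a2e_1 a2e_1_m0 true .threeE = true := by decide +kernel

def a2e_1_r0_ring0 : rowsOk stA2E a2e_1 a2e_1_m0 false .ring = true := by decide +kernel

def a2e_1_r0_ring1_0 : cellOk stA2E a2e_1 a2e_1_m0 true .ring ((stA2E.bins .ring).getD 0 b00)
    ((a2e_1_m0.g true .ring).getD 0 e00) = true := by decide +kernel

def a2e_1_r0_ring1_1 : cellOk stA2E a2e_1 a2e_1_m0 true .ring ((stA2E.bins .ring).getD 1 b00)
    ((a2e_1_m0.g true .ring).getD 1 e00) = true := by decide +kernel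

def a2e_1_r0_ring1_2 : cellOk stA2E a2e_1 a2e_1_m0 true .ring ((stA2E.bins .ring).getD 2 b00)
    ((a2e_1_m0.g true .ring).getD 2 e00) = true := by decide +kernel

def a2e_1_r0_ring1_3 : cellOk stA2E a2e_1 a2e_1_m0 true .ring ((stA2E.bins .ring).getD 3 b00)
    ((a2e_1_m0.g true .ring).getD 3 e00) = true := by decide +kernel

def a2e_1_r0_ring1_4 : cellOk stA2E a2e_1 a2e_1_m0 true .ring ((stA2E.bins .ring).getD 4 b00)
    ((a2e_1_m0.g true .ring).getD 4 e00) = true := by decide +kernel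

def a2e_1_r0_ring1_5 : cellOk stA2E a2e_1 a2e_1_m0 true .ring ((stA2E.bins .ring).getD 5 b00)
    ((a2e_1_m0.g true .ring).getD 5 e00) = true := by decide +kernel

theorem a2e_1_r0_ring1 : rowsOk stA2E a2e_1 a2e_1_m0 true .ring = true := by
  refine rowsOk_of fun i hi => ?_
  have hi : i < 6 := hi
  interval_cases i
  exacts [a2e_1_r0_ring1_0, a2e_1_r0_ring1_1, a2e_1_r0_ring1_2, a2e_1_r0_ring1_3, a2e_1_r0_ring1_4, a2e_1_r0_ring1_5]

def a2e_1_r1_one0 : rowsOk stA2E a2e_1 a2e_1_m1 false .one = true := by decide +kernel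

def a2e_1_r1_one1 : rowsOk stA2E a2e_1 a2e_1_m1 true .one = true := by decide +kernel

def a2e_1_r1_two0 : rowsOk stA2E a2e_1 a2e_1_m1 false .two = true := by decide +kernel

def a2e_1_r1_two1 : rowsOk stA2E a2e_1 a2e_1_m1 true .two = true := by decide +kernel

def a2e_1_r1_twoE0 : rowsOk stA2E a2e_1 a2e_1_m1 false .twoE = true := by decide +kernel

def a2e_1_r1_twoE1 : rowsOk stA2E a2e_1 a2e_1_m1 true .twoE = true := by decide +kernel

def a2e_1_r1_thrR0 : rowsOk stA2E a2e_1 a2e_1_m1 false .thrR = true := by decide +kernel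

def a2e_1_r1_thrR1 : rowsOk stA2E a2e_1 a2e_1_m1 true .thrR = true := by decide +kernel

def a2e_1_r1_thrL0 : rowsOk stA2E a2e_1 a2e_1_m1 false .thrL = true := by decide +kernel

def a2e_1_r1_thrL1 : rowsOk stA2E a2e_1 a2e_1_m1 true .thrL = true := by decide +kernel

def a2e_1_r1_threeE0 : rowsOk stA2E a2e_1 a2e_1_m1 false .threeE = true := by decide +kernel

def a2e_1_r1_threeE1 : rowsOk stA2E a2e_1 a2e_1_m1 true .threeE = true := by decide +kernel

def a2e_1_r1_ring0 : rowsOk stA2E a2e_1 a2e_1_m1 false .ring = true := by decide +kernel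

def a2e_1_r1_ring1 : rowsOk stA2E a2e_1 a2e_1_m1 true .ring = true := by decide +kernel

def a2e_1_r2_one0 : rowsOk stA2E a2e_1 a2e_1_m2 false .one = true := by decide +kernel

def a2e_1_r2_one1 : rowsOk stA2E a2e_1 a2e_1_m2 true .one = true := by decide +kernel

def a2e_1_r2_two0 : rowsOk stA2E a2e_1 a2e_1_m2 false .two = true := by decide +kernel

def a2e_1_r2_two1 : rowsOk stA2E a2e_1 a2e_1_m2 true .two = true := by decide +kernel

def a2e_1_r2_twoE0 : rowsOk stA2E a2e_1 a2e_1_m2 false .twoE = true := by decide +kernel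

def a2e_1_r2_twoE1 : rowsOk stA2E a2e_1 a2e_1_m2 true .twoE = true := by decide +kernel

def a2e_1_r2_thrR0 : rowsOk stA2E a2e_1 a2e_1_m2 false .thrR = true := by decide +kernel

def a2e_1_r2_thrR1 : rowsOk stA2E a2e_1 a2e_1_m2 true .thrR = true := by decide +kernel

def a2e_1_r2_thrL0 : rowsOk stA2E a2e_1 a2e_1_m2 false .thrL = true := by decide +kernel

def a2e_1_r2_thrL1 : rowsOk stA2E a2e_1 a2e_1_m2 true .thrL = true := by decide +kernel

def a2e_1_r2_threeE0 : rowsOk stA2E a2e_1 a2e_1_m2 false .threeE = true := by decide +kernel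

def a2e_1_r2_threeE1 : rowsOk stA2E a2e_1 a2e_1_m2 true .threeE = true := by decide +kernel

def a2e_1_r2_ring0 : rowsOk stA2E a2e_1 a2e_1_m2 false .ring = true := by decide +kernel

def a2e_1_r2_ring1 : rowsOk stA2E a2e_1 a2e_1_m2 true .ring = true := by decide +kernel

def a2e_1_r3_one0 : rowsOk stA2E a2e_1 a2e_1_m3 false .one = true := by decide +kernel

def a2e_1_r3_one1 : rowsOk stA2E a2e_1 a2e_1_m3 true .one = true := by decide +kernel

def a2e_1_r3_two0 : rowsOk stA2E a2e_1 a2e_1_m3 false .two = true := by decide +kernel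

def a2e_1_r3_two1 : rowsOk stA2E a2e_1 a2e_1_m3 true .two = true := by decide +kernel

def a2e_1_r3_twoE0 : rowsOk stA2E a2e_1 a2e_1_m3 false .twoE = true := by decide +kernel

def a2e_1_r3_twoE1 : rowsOk stA2E a2e_1 a2e_1_m3 true .twoE = true := by decide +kernel

def a2e_1_r3_thrR0 : rowsOk stA2E a2e_1 a2e_1_m3 false .thrR = true := by decide +kernel

def a2e_1_r3_thrR1 : rowsOk stA2E a2e_1 a2e_1_m3 true .thrR = true := by decide +kernel

def a2e_1_r3_thrL0 : rowsOk stA2E a2e_1 a2e_1_m3 false .thrL = true := by decide +kernel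

def a2e_1_r3_thrL1 : rowsOk stA2E a2e_1 a2e_1_m3 true .thrL = true := by decide +kernel

def a2e_1_r3_threeE0 : rowsOk stA2E a2e_1 a2e_1_m3 false .threeE = true := by decide +kernel

def a2e_1_r3_threeE1 : rowsOk stA2E a2e_1 a2e_1_m3 true .threeE = true := by decide +kernel

def a2e_1_r3_ring0 : rowsOk stA2E a2e_1 a2e_1_m3 false .ring = true := by decide +kernel

def a2e_1_r3_ring1 : rowsOk stA2E a2e_1 a2e_1_m3 true .ring = true := by decide +kernel

theorem a2e_1_r0 : allRows stA2E a2e_1 a2e_1_m0 = true := by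
  refine allRows_of fun P => ?_
  cases P
  exacts [⟨a2e_1_r0_one0, a2e_1_r0_one1⟩,
    ⟨a2e_1_r0_two0, a2e_1_r0_two1⟩,
    ⟨a2e_1_r0_twoE0, a2e_1_r0_twoE1⟩,
    ⟨a2e_1_r0_thrR0, a2e_1_r0_thrR1⟩,
    ⟨a2e_1_r0_thrL0, a2e_1_r0_thrL1⟩,
    ⟨a2e_1_r0_threeE0, a2e_1_r0_threeE1⟩,
    ⟨a2e_1_r0_ring0, a2e_1_r0_ring1⟩]

theorem a2e_1_r1 : allRows stA2E a2e_1 a2e_1_m1 = true := by
  refine allRows_of fun P => ?_
  cases P
  exacts [⟨a2e_1_r1_one0, a2e_1_r1_one1⟩,
    ⟨a2e_1_r1_two0, a2e_1_r1_two1⟩,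
    ⟨a2e_1_r1_twoE0, a2e_1_r1_twoE1⟩,
    ⟨a2e_1_r1_thrR0, a2e_1_r1_thrR1⟩,
    ⟨a2e_1_r1_thrL0, a2e_1_r1_thrL1⟩,
    ⟨a2e_1_r1_threeE0, a2e_1_r1_threeE1⟩,
    ⟨a2e_1_r1_ring0, a2e_1_r1_ring1⟩]

theorem a2e_1_r2 : allRows stA2E a2e_1 a2e_1_m2 = true := by
  refine allRows_of fun P => ?_
  cases P
  exacts [⟨a2e_1_r2_one0, a2e_1_r2_one1⟩,
    ⟨a2e_1_r2_two0, a2e_1_r2_two1⟩,
    ⟨a2e_1_r2_twoE0, a2e_1_r2_twoE1⟩,
    ⟨a2e_1_r2_thrR0, a2e_1_r2_thrR1⟩,
    ⟨a2e_1_r2_thrL0, a2e_1_r2_thrL1⟩,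
    ⟨a2e_1_r2_threeE0, a2e_1_r2_threeE1⟩,
    ⟨a2e_1_r2_ring0, a2e_1_r2_ring1⟩]

theorem a2e_1_r3 : allRows stA2E a2e_1 a2e_1_m3 = true := by
  refine allRows_of fun P => ?_
  cases P
  exacts [⟨a2e_1_r3_one0, a2e_1_r3_one1⟩,
    ⟨a2e_1_r3_two0, a2e_1_r3_two1⟩,
    ⟨a2e_1_r3_twoE0, a2e_1_r3_twoE1⟩,
    ⟨a2e_1_r3_thrR0, a2e_1_r3_thrR1⟩,
    ⟨a2e_1_r3_thrL0, a2e_1_r3_thrL1⟩,
    ⟨a2e_1_r3_threeE0, a2e_1_r3_threeE1⟩,
    ⟨a2e_1_r3_ring0, a2e_1_r3_ring1⟩]

theorem a2e_1_ok : a2e_1.ok stA2E = true := by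
  have h : (PC.all.all fun P => PC.all.all fun Q => pairOk stA2E a2e_1 P Q) = true := by decide +kernel
  have d0 : mdOk stA2E a2e_1_m0.md = true := by decide +kernel
  have d1 : mdOk stA2E a2e_1_m1.md = true := by decide +kernel
  have d2 : mdOk stA2E a2e_1_m2.md = true := by decide +kernel
  have d3 : mdOk stA2E a2e_1_m3.md = true := by decide +kernel
  unfold Piece.ok
  rw [h, Bool.true_and]
  show List.all [a2e_1_m0, a2e_1_m1, a2e_1_m2, a2e_1_m3] _ = true
  rw [List.all_eq_true]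
  intro m hm
  simp only [List.mem_cons, List.not_mem_nil, or_false] at hm
  rcases hm with rfl | rfl | rfl | rfl
  · rw [a2e_1_r0, d0]; rfl
  · rw [a2e_1_r1, d1]; rfl
  · rw [a2e_1_r2, d2]; rfl
  · rw [a2e_1_r3, d3]; rfl

end OR

end Pool.Agent.Work.MP_b30479_gt.G2
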