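import Pool.Agent.Work.MP_b30479_gt.G2.OStA
import Pool.Agent.Work.MP_b30479_gt.G2.ORows

namespace Pool.Agent.Work.MP_b30479_gt.G2

namespace OR

/-- windows -/
def a2e_2_wp : PC → Win
  | .one => ⟨0, 0, 0, 0, 0, 0⟩
  | .two => ⟨0, 0, 0, 0, 0, 0⟩
  | .twoE => ⟨-790, -360, -310, 250, 230, 820⟩
  | .thrR => ⟨0, 0, 0, 0, 0, 0⟩
  | .thrL => ⟨0, 0, 0, 0, 0, 0⟩
  | .threeE => ⟨0, 0, 0, 0, 0, 0⟩
  | .ring => ⟨0, 0, 0, 0, 0, 0⟩

/-- windows -/
def a2e_2_wq : PC → Win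
  | .one => ⟨0, 0, 0, 0, 0, 0⟩
  | .two => ⟨0, 0, 0, 0, 0, 0⟩
  | .twoE => ⟨0, 0, 0, 0, 0, 0⟩
  | .thrR => ⟨0, 0, 0, 0, 0, 0⟩
  | .thrL => ⟨0, 0, 0, 0, 0, 0⟩
  | .threeE => ⟨0, 0, 0, 0, 0, 0⟩
  | .ring => ⟨600, 1300, 110, 690, -820, -230⟩

/-- mode -/
def a2e_2_m0 : Mode where
  md := .V 300 1000
  lam := 1000
  ct := 1000
  gp := fun
    | .one => [e00, e00, e00, e00, e00, e00, e00, e00]
    | .two => [e00, e00, e00, e00, e00, e00]
    | .twoE => [⟨926, [8]⟩, ⟨-405, [2178]⟩, ⟨-1015, [612913426222712850, 557443, 8, 8, 143136818, 36643018802]⟩, ⟨-1015, [0, 0, 0, 0, 143164194, 36649927458]⟩, ⟨-1476, [0, 0, 0, 0, 8, 8]⟩, e00]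
    | .thrR => [e00, e00, e00, e00, e00, e00]
    | .thrL => [e00, e00, e00, e00, e00, e00]
    | .threeE => [e00, e00, e00, e00, e00, e00]
    | .ring => [e00, e00, e00, e00, e00, e00]
  gq := fun
    | .one => [e00, e00, e00, e00, e00, e00, e00, e00]
    | .two => [e00, e00, e00, e00, e00, e00]
    | .twoE => [e00, e00, e00, e00, e00, e00]
    | .thrR => [e00, e00, e00, e00, e00, e00]
    | .thrL => [e00, e00, e00, e00, e00, e00]
    | .threeE => [e00, e00, e00, e00, e00, e00]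
    | .ring => [⟨341, [142836354]⟩, ⟨341, [142706707]⟩, ⟨-269, [2682952311998515, 2179, 8, 8, 2179, 13]⟩, ⟨-269, [0, 2179, 8, 8, 9381157016354, 13]⟩, ⟨-1600, [0, 0, 0, 0, 743348957272677381235341065332848013289522, 8]⟩, ⟨-1788, [0, 0, 0, 0, 2178, 557954]⟩]

/-- mode -/
def a2e_2_m1 : Mode where
  md := .D
  lam := 0
  ct := 12000
  gp := fun
    | .one => [e00, e00, e00, e00, e00, e00, e00, e00]
    | .two => [e00, e00, e00, e00, e00, e00]
    | .twoE => [e00, ⟨-4189, [11306237189915612992323432558181778210]⟩, e00, e00, e00, e00]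
    | .thrR => [e00, e00, e00, e00, e00, e00]
    | .thrL => [e00, e00, e00, e00, e00, e00]
    | .threeE => [e00, e00, e00, e00, e00, e00]
    | .ring => [e00, e00, e00, e00, e00, e00]
  gq := fun
    | .one => [e00, e00, e00, e00, e00, e00, e00, e00]
    | .two => [e00, e00, e00, e00, e00, e00]
    | .twoE => [e00, e00, e00, e00, e00, e00]
    | .thrR => [e00, e00, e00, e00, e00, e00]
    | .thrL => [e00, e00, e00, e00, e00, e00]
    | .threeE => [e00, e00, e00, e00, e00, e00]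
    | .ring => [⟨4185, [9360940479106]⟩, ⟨4185, [156907684294406209827]⟩, e00, e00, e00, e00]

/-- mode -/
def a2e_2_m2 : Mode where
  md := .V 150 1000
  lam := 0
  ct := -2000
  gp := fun
    | .one => [e00, e00, e00, e00, e00, e00, e00, e00]
    | .two => [e00, e00, e00, e00, e00, e00]
    | .twoE => [e00, e00, e00, e00, e00, ⟨-1414, [0, 0, 0, 0, 557698, 8]⟩]
    | .thrR => [e00, e00, e00, e00, e00, e00]
    | .thrL => [e00, e00, e00, e00, e00, e00]
    | .threeE => [e00, e00, e00, e00, e00, e00]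
    | .ring => [e00, e00, e00, e00, e00, e00]
  gq := fun
    | .one => [e00, e00, e00, e00, e00, e00, e00, e00]
    | .two => [e00, e00, e00, e00, e00, e00]
    | .twoE => [e00, e00, e00, e00, e00, e00]
    | .thrR => [e00, e00, e00, e00, e00, e00]
    | .thrL => [e00, e00, e00, e00, e00, e00]
    | .threeE => [e00, e00, e00, e00, e00, e00]
    | .ring => [⟨1410, [928522843387159282556187281426]⟩, ⟨1410, [3569618969259939879838648339]⟩, ⟨1410, [10451861735443, 40861008259, 9360906486145, 8, 36566040963, 13]⟩, ⟨1410, [0, 209748355, 821264, 8, 157389974044754318114, 13]⟩, ⟨1141, [0, 0, 0, 0, 143140914, 8]⟩, ⟨-2063, [0, 0, 0, 0, 8, 8]⟩]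

/-- mode -/
def a2e_2_m3 : Mode where
  md := .V 550 1000
  lam := 250
  ct := 1500
  gp := fun
    | .one => [e00, e00, e00, e00, e00, e00, e00, e00]
    | .two => [e00, e00, e00, e00, e00, e00]
    | .twoE => [⟨-227, [143163682]⟩, e00, e00, e00, e00, e00]
    | .thrR => [e00, e00, e00, e00, e00, e00]
    | .thrL => [e00, e00, e00, e00, e00, e00]
    | .threeE => [e00, e00, e00, e00, e00, e00]
    | .ring => [e00, e00, e00, e00, e00, e00]
  gq := fun
    | .one => [e00, e00, e00, e00, e00, e00, e00, e00]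
    | .two => [e00, e00, e00, e00, e00, e00]
    | .twoE => [e00, e00, e00, e00, e00, e00]
    | .thrR => [e00, e00, e00, e00, e00, e00]
    | .thrL => [e00, e00, e00, e00, e00, e00]
    | .threeE => [e00, e00, e00, e00, e00, e00]
    | .ring => [⟨56, [3924556073246509899851578461526465976370]⟩, ⟨56, [673971951565782467537970366499]⟩, ⟨56, [142706739, 2179, 8, 8, 2179, 13]⟩, ⟨56, [0, 2179, 8, 8, 2396420900918050, 13]⟩, e00, e00]

/-- piece -/
def a2e_2 : Piece := ⟨7600, 7750, 0, 820, a2e_2_wp, a2e_2_wq, [a2e_2_m0, a2e_2_m1, a2e_2_m2, a2e_2_m3]⟩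

set_option linter.defProp false

def a2e_2_r0_one0 : rowsOk stA2E a2e_2 a2e_2_m0 false .one = true := by decide +kernel

def a2e_2_r0_one1 : rowsOk stA2E a2e_2 a2e_2_m0 true .one = true := by decide +kernel

def a2e_2_r0_two0 : rowsOk stA2E a2e_2 a2e_2_m0 false .two = true := by decide +kernel

def a2e_2_r0_two1 : rowsOk stA2E a2e_2 a2e_2_m0 true .two = true := by decide +kernel

def a2e_2_r0_twoE0 : rowsOk stA2E a2e_2 a2e_2_m0 false .twoE = true := by decide +kernel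

def a2e_2_r0_twoE1 : rowsOk stA2E a2e_2 a2e_2_m0 true .twoE = true := by decide +kernel

def a2e_2_r0_thrR0 : rowsOk stA2E a2e_2 a2e_2_m0 false .thrR = true := by decide +kernel

def a2e_2_r0_thrR1 : rowsOk stA2E a2e_2 a2e_2_m0 true .thrR = true := by decide +kernel

def a2e_2_r0_thrL0 : rowsOk stA2E a2e_2 a2e_2_m0 false .thrL = true := by decide +kernel

def a2e_2_r0_thrL1 : rowsOk stA2E a2e_2 a2e_2_m0 true .thrL = true := by decide +kernel

def a2e_2_r0_threeE0 : rowsOk stA2E a2e_2 a2e_2_m0 false .threeE = true := by decide +kernel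

def a2e_2_r0_threeE1 : rowsOk stA2E a2e_2 a2e_2_m0 true .threeE = true := by decide +kernel

def a2e_2_r0_ring0 : rowsOk stA2E a2e_2 a2e_2_m0 false .ring = true := by decide +kernel

def a2e_2_r0_ring1 : rowsOk stA2E a2e_2 a2e_2_m0 true .ring = true := by decide +kernel

def a2e_2_r1_one0 : rowsOk stA2E a2e_2 a2e_2_m1 false .one = true := by decide +kernel

def a2e_2_r1_one1 : rowsOk stA2E a2e_2 a2e_2_m1 true .one = true := by decide +kernel

def a2e_2_r1_two0 : rowsOk stA2E a2e_2 a2e_2_m1 false .two = true := by decide +kernel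

def a2e_2_r1_two1 : rowsOk stA2E a2e_2 a2e_2_m1 true .two = true := by decide +kernel

def a2e_2_r1_twoE0 : rowsOk stA2E a2e_2 a2e_2_m1 false .twoE = true := by decide +kernel

def a2e_2_r1_twoE1 : rowsOk stA2E a2e_2 a2e_2_m1 true .twoE = true := by decide +kernel

def a2e_2_r1_thrR0 : rowsOk stA2E a2e_2 a2e_2_m1 false .thrR = true := by decide +kernel

def a2e_2_r1_thrR1 : rowsOk stA2E a2e_2 a2e_2_m1 true .thrR = true := by decide +kernel

def a2e_2_r1_thrL0 : rowsOk stA2E a2e_2 a2e_2_m1 false .thrL = true := by decide +kernel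

def a2e_2_r1_thrL1 : rowsOk stA2E a2e_2 a2e_2_m1 true .thrL = true := by decide +kernel

def a2e_2_r1_threeE0 : rowsOk stA2E a2e_2 a2e_2_m1 false .threeE = true := by decide +kernel

def a2e_2_r1_threeE1 : rowsOk stA2E a2e_2 a2e_2_m1 true .threeE = true := by decide +kernel

def a2e_2_r1_ring0 : rowsOk stA2E a2e_2 a2e_2_m1 false .ring = true := by decide +kernel

def a2e_2_r1_ring1 : rowsOk stA2E a2e_2 a2e_2_m1 true .ring = true := by decide +kernel

def a2e_2_r2_one0 : rowsOk stA2E a2e_2 a2e_2_m2 false .one = true := by decide +kernel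

def a2e_2_r2_one1 : rowsOk stA2E a2e_2 a2e_2_m2 true .one = true := by decide +kernel

def a2e_2_r2_two0 : rowsOk stA2E a2e_2 a2e_2_m2 false .two = true := by decide +kernel

def a2e_2_r2_two1 : rowsOk stA2E a2e_2 a2e_2_m2 true .two = true := by decide +kernel

def a2e_2_r2_twoE0 : rowsOk stA2E a2e_2 a2e_2_m2 false .twoE = true := by decide +kernel

def a2e_2_r2_twoE1 : rowsOk stA2E a2e_2 a2e_2_m2 true .twoE = true := by decide +kernel

def a2e_2_r2_thrR0 : rowsOk stA2E a2e_2 a2e_2_m2 false .thrR = true := by decide +kernel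

def a2e_2_r2_thrR1 : rowsOk stA2E a2e_2 a2e_2_m2 true .thrR = true := by decide +kernel

def a2e_2_r2_thrL0 : rowsOk stA2E a2e_2 a2e_2_m2 false .thrL = true := by decide +kernel

def a2e_2_r2_thrL1 : rowsOk stA2E a2e_2 a2e_2_m2 true .thrL = true := by decide +kernel

def a2e_2_r2_threeE0 : rowsOk stA2E a2e_2 a2e_2_m2 false .threeE = true := by decide +kernel

def a2e_2_r2_threeE1 : rowsOk stA2E a2e_2 a2e_2_m2 true .threeE = true := by decide +kernel

def a2e_2_r2_ring0 : rowsOk stA2E a2e_2 a2e_2_m2 false .ring = true := by decide +kernel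

def a2e_2_r2_ring1 : rowsOk stA2E a2e_2 a2e_2_m2 true .ring = true := by decide +kernel

def a2e_2_r3_one0 : rowsOk stA2E a2e_2 a2e_2_m3 false .one = true := by decide +kernel

def a2e_2_r3_one1 : rowsOk stA2E a2e_2 a2e_2_m3 true .one = true := by decide +kernel

def a2e_2_r3_two0 : rowsOk stA2E a2e_2 a2e_2_m3 false .two = true := by decide +kernel

def a2e_2_r3_two1 : rowsOk stA2E a2e_2 a2e_2_m3 true .two = true := by decide +kernel

def a2e_2_r3_twoE0 : rowsOk stA2E a2e_2 a2e_2_m3 false .twoE = true := by decide +kernel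

def a2e_2_r3_twoE1 : rowsOk stA2E a2e_2 a2e_2_m3 true .twoE = true := by decide +kernel

def a2e_2_r3_thrR0 : rowsOk stA2E a2e_2 a2e_2_m3 false .thrR = true := by decide +kernel

def a2e_2_r3_thrR1 : rowsOk stA2E a2e_2 a2e_2_m3 true .thrR = true := by decide +kernel

def a2e_2_r3_thrL0 : rowsOk stA2E a2e_2 a2e_2_m3 false .thrL = true := by decide +kernel

def a2e_2_r3_thrL1 : rowsOk stA2E a2e_2 a2e_2_m3 true .thrL = true := by decide +kernel

def a2e_2_r3_threeE0 : rowsOk stA2E a2e_2 a2e_2_m3 false .threeE = true := by decide +kernel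

def a2e_2_r3_threeE1 : rowsOk stA2E a2e_2 a2e_2_m3 true .threeE = true := by decide +kernel

def a2e_2_r3_ring0 : rowsOk stA2E a2e_2 a2e_2_m3 false .ring = true := by decide +kernel

def a2e_2_r3_ring1 : rowsOk stA2E a2e_2 a2e_2_m3 true .ring = true := by decide +kernel

theorem a2e_2_r0 : allRows stA2E a2e_2 a2e_2_m0 = true := by
  refine allRows_of fun P => ?_
  cases P
  exacts [⟨a2e_2_r0_one0, a2e_2_r0_one1⟩,
    ⟨a2e_2_r0_two0, a2e_2_r0_two1⟩,
    ⟨a2e_2_r0_twoE0, a2e_2_r0_twoE1⟩,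
    ⟨a2e_2_r0_thrR0, a2e_2_r0_thrR1⟩,
    ⟨a2e_2_r0_thrL0, a2e_2_r0_thrL1⟩,
    ⟨a2e_2_r0_threeE0, a2e_2_r0_threeE1⟩,
    ⟨a2e_2_r0_ring0, a2e_2_r0_ring1⟩]

theorem a2e_2_r1 : allRows stA2E a2e_2 a2e_2_m1 = true := by
  refine allRows_of fun P => ?_
  cases P
  exacts [⟨a2e_2_r1_one0, a2e_2_r1_one1⟩,
    ⟨a2e_2_r1_two0, a2e_2_r1_two1⟩,
    ⟨a2e_2_r1_twoE0, a2e_2_r1_twoE1⟩,
    ⟨a2e_2_r1_thrR0, a2e_2_r1_thrR1⟩,
    ⟨a2e_2_r1_thrL0, a2e_2_r1_thrL1⟩,
    ⟨a2e_2_r1_threeE0, a2e_2_r1_threeE1⟩,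
    ⟨a2e_2_r1_ring0, a2e_2_r1_ring1⟩]

theorem a2e_2_r2 : allRows stA2E a2e_2 a2e_2_m2 = true := by
  refine allRows_of fun P => ?_
  cases P
  exacts [⟨a2e_2_r2_one0, a2e_2_r2_one1⟩,
    ⟨a2e_2_r2_two0, a2e_2_r2_two1⟩,
    ⟨a2e_2_r2_twoE0, a2e_2_r2_twoE1⟩,
    ⟨a2e_2_r2_thrR0, a2e_2_r2_thrR1⟩,
    ⟨a2e_2_r2_thrL0, a2e_2_r2_thrL1⟩,
    ⟨a2e_2_r2_threeE0, a2e_2_r2_threeE1⟩,
    ⟨a2e_2_r2_ring0, a2e_2_r2_ring1⟩]

theorem a2e_2_r3 : allRows stA2E a2e_2 a2e_2_m3 = true := by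
  refine allRows_of fun P => ?_
  cases P
  exacts [⟨a2e_2_r3_one0, a2e_2_r3_one1⟩,
    ⟨a2e_2_r3_two0, a2e_2_r3_two1⟩,
    ⟨a2e_2_r3_twoE0, a2e_2_r3_twoE1⟩,
    ⟨a2e_2_r3_thrR0, a2e_2_r3_thrR1⟩,
    ⟨a2e_2_r3_thrL0, a2e_2_r3_thrL1⟩,
    ⟨a2e_2_r3_threeE0, a2e_2_r3_threeE1⟩,
    ⟨a2e_2_r3_ring0, a2e_2_r3_ring1⟩]

theorem a2e_2_ok : a2e_2.ok stA2E = true := by
  have h : (PC.all.all fun P => PC.all.all fun Q => pairOk stA2E a2e_2 P Q) = true := by decide +kernel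
  have d0 : mdOk stA2E a2e_2_m0.md = true := by decide +kernel
  have d1 : mdOk stA2E a2e_2_m1.md = true := by decide +kernel
  have d2 : mdOk stA2E a2e_2_m2.md = true := by decide +kernel
  have d3 : mdOk stA2E a2e_2_m3.md = true := by decide +kernel
  unfold Piece.ok
  rw [h, Bool.true_and]
  show List.all [a2e_2_m0, a2e_2_m1, a2e_2_m2, a2e_2_m3] _ = true
  rw [List.all_eq_true]
  intro m hm
  simp only [List.mem_cons, List.not_mem_nil, or_false] at hm
  rcases hm with rfl | rfl | rfl | rfl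
  · rw [a2e_2_r0, d0]; rfl
  · rw [a2e_2_r1, d1]; rfl
  · rw [a2e_2_r2, d2]; rfl
  · rw [a2e_2_r3, d3]; rfl

end OR

end Pool.Agent.Work.MP_b30479_gt.G2
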