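import Pool.Agent.Work.MP_b30479_gt.G2.OStA
import Pool.Agent.Work.MP_b30479_gt.G2.ORows

namespace Pool.Agent.Work.MP_b30479_gt.G2

namespace OR

/-- windows -/
def a2e_4_wp : PC → Win
  | .one => ⟨0, 0, 0, 0, 0, 0⟩
  | .two => ⟨0, 0, 0, 0, 0, 0⟩
  | .twoE => ⟨-790, -360, -310, 250, 230, 820⟩
  | .thrR => ⟨0, 0, 0, 0, 0, 0⟩
  | .thrL => ⟨0, 0, 0, 0, 0, 0⟩
  | .threeE => ⟨0, 0, 0, 0, 0, 0⟩
  | .ring => ⟨0, 0, 0, 0, 0, 0⟩

/-- windows -/
def a2e_4_wq : PC → Win
  | .one => ⟨0, 0, 0, 0, 0, 0⟩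
  | .two => ⟨0, 0, 0, 0, 0, 0⟩
  | .twoE => ⟨0, 0, 0, 0, 0, 0⟩
  | .thrR => ⟨0, 0, 0, 0, 0, 0⟩
  | .thrL => ⟨0, 0, 0, 0, 0, 0⟩
  | .threeE => ⟨0, 0, 0, 0, 0, 0⟩
  | .ring => ⟨600, 1300, 110, 690, -820, -230⟩

/-- mode -/
def a2e_4_m0 : Mode where
  md := .V 300 1000
  lam := 750
  ct := 1500
  gp := fun
    | .one => [e00, e00, e00, e00, e00, e00, e00, e00]
    | .two => [e00, e00, e00, e00, e00, e00]
    | .twoE => [⟨424, [2178]⟩, ⟨-950, [44165146069824693527755511627780130, 557443, 8, 8, 13, 142705539]⟩, ⟨-950, [557443, 557443, 8, 8, 13, 9382381454114]⟩, ⟨-950, [0, 0, 0, 0, 8, 2178]⟩, ⟨-1591, [0, 0, 0, 0, 8, 2178]⟩, e00]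
    | .thrR => [e00, e00, e00, e00, e00, e00]
    | .thrL => [e00, e00, e00, e00, e00, e00]
    | .threeE => [e00, e00, e00, e00, e00, e00]
    | .ring => [e00, e00, e00, e00, e00, e00]
  gq := fun
    | .one => [e00, e00, e00, e00, e00, e00, e00, e00]
    | .two => [e00, e00, e00, e00, e00, e00]
    | .twoE => [e00, e00, e00, e00, e00, e00]
    | .thrR => [e00, e00, e00, e00, e00, e00]
    | .thrL => [e00, e00, e00, e00, e00, e00]
    | .threeE => [e00, e00, e00, e00, e00, e00]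
    | .ring => [⟨444, [233882009648262144619215538260018]⟩, ⟨444, [49357521537634759475691103337977906, 2179, 8, 8, 557443, 8]⟩, ⟨444, [557443, 2179, 8, 8, 36566472754, 13]⟩, ⟨444, [0, 0, 0, 0, 143140914, 8]⟩, ⟨-930, [0, 0, 0, 0, 1444800360862071352285896469781019315244699489901368143380866642959662672817605759258207047890930951665737994617067059600894002, 8]⟩, ⟨-1558, [0, 0, 0, 0, 142705282, 36566106754]⟩]

/-- mode -/
def a2e_4_m1 : Mode where
  md := .V 150 1000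
  lam := 0
  ct := -2000
  gp := fun
    | .one => [e00, e00, e00, e00, e00, e00, e00, e00]
    | .two => [e00, e00, e00, e00, e00, e00]
    | .twoE => [e00, e00, e00, e00, e00, ⟨-1378, [0, 0, 0, 0, 142705282, 2178]⟩]
    | .thrR => [e00, e00, e00, e00, e00, e00]
    | .thrL => [e00, e00, e00, e00, e00, e00]
    | .threeE => [e00, e00, e00, e00, e00, e00]
    | .ring => [e00, e00, e00, e00, e00, e00]
  gq := fun
    | .one => [e00, e00, e00, e00, e00, e00, e00, e00]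
    | .two => [e00, e00, e00, e00, e00, e00]
    | .twoE => [e00, e00, e00, e00, e00, e00]
    | .thrR => [e00, e00, e00, e00, e00, e00]
    | .thrL => [e00, e00, e00, e00, e00, e00]
    | .threeE => [e00, e00, e00, e00, e00, e00]
    | .ring => [⟨1374, [1004683706669488411312539483222994302042882]⟩, ⟨1374, [192960655861393182858032281294898, 40861008259, 40861139329, 8, 40861008259, 8]⟩, ⟨1374, [3599266371141763, 13847915663491, 40861139329, 8, 44927153704075445934130, 13]⟩, ⟨1374, [0, 0, 0, 0, 157051823650261964850, 8]⟩, ⟨1374, [0, 0, 0, 0, 614895428948951330, 8]⟩, ⟨-1757, [0, 0, 0, 0, 8, 8]⟩]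

/-- mode -/
def a2e_4_m2 : Mode where
  md := .V 550 1000
  lam := 250
  ct := 2000
  gp := fun
    | .one => [e00, e00, e00, e00, e00, e00, e00, e00]
    | .two => [e00, e00, e00, e00, e00, e00]
    | .twoE => [⟨-338, [157051927642276106786]⟩, e00, e00, e00, e00, e00]
    | .thrR => [e00, e00, e00, e00, e00, e00]
    | .thrL => [e00, e00, e00, e00, e00, e00]
    | .threeE => [e00, e00, e00, e00, e00, e00]
    | .ring => [e00, e00, e00, e00, e00, e00]
  gq := fun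
    | .one => [e00, e00, e00, e00, e00, e00, e00, e00]
    | .two => [e00, e00, e00, e00, e00, e00]
    | .twoE => [e00, e00, e00, e00, e00, e00]
    | .thrR => [e00, e00, e00, e00, e00, e00]
    | .thrL => [e00, e00, e00, e00, e00, e00]
    | .threeE => [e00, e00, e00, e00, e00, e00]
    | .ring => [⟨166, [13668586867406352684993877635479700173829182265190297591382818]⟩, ⟨166, [3556572876297119450313465273301723004455236828411954, 2179, 8, 8, 557443, 8]⟩, ⟨166, [557443, 2179, 8, 8, 36566472754, 13]⟩, e00, e00, e00]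

/-- mode -/
def a2e_4_m3 : Mode where
  md := .V 450 1000
  lam := 500
  ct := 2000
  gp := fun
    | .one => [e00, e00, e00, e00, e00, e00, e00, e00]
    | .two => [e00, e00, e00, e00, e00, e00]
    | .twoE => [⟨-39, [2178]⟩, e00, e00, e00, e00, e00]
    | .thrR => [e00, e00, e00, e00, e00, e00]
    | .thrL => [e00, e00, e00, e00, e00, e00]
    | .threeE => [e00, e00, e00, e00, e00, e00]
    | .ring => [e00, e00, e00, e00, e00, e00]
  gq := fun
    | .one => [e00, e00, e00, e00, e00, e00, e00, e00]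
    | .two => [e00, e00, e00, e00, e00, e00]
    | .twoE => [e00, e00, e00, e00, e00, e00]
    | .thrR => [e00, e00, e00, e00, e00, e00]
    | .thrL => [e00, e00, e00, e00, e00, e00]
    | .threeE => [e00, e00, e00, e00, e00, e00]
    | .ring => [e00, e00, e00, ⟨-300, [0, 0, 0, 0, 2634898836321842205932664882, 13]⟩, e00, e00]

/-- piece -/
def a2e_4 : Piece := ⟨7900, 8200, 0, 820, a2e_4_wp, a2e_4_wq, [a2e_4_m0, a2e_4_m1, a2e_4_m2, a2e_4_m3]⟩

set_option linter.defProp false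

def a2e_4_r0_one0 : rowsOk stA2E a2e_4 a2e_4_m0 false .one = true := by decide +kernel

def a2e_4_r0_one1 : rowsOk stA2E a2e_4 a2e_4_m0 true .one = true := by decide +kernel

def a2e_4_r0_two0 : rowsOk stA2E a2e_4 a2e_4_m0 false .two = true := by decide +kernel

def a2e_4_r0_two1 : rowsOk stA2E a2e_4 a2e_4_m0 true .two = true := by decide +kernel

def a2e_4_r0_twoE0 : rowsOk stA2E a2e_4 a2e_4_m0 false .twoE = true := by decide +kernel

def a2e_4_r0_twoE1 : rowsOk stA2E a2e_4 a2e_4_m0 true .twoE = true := by decide +kernel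

def a2e_4_r0_thrR0 : rowsOk stA2E a2e_4 a2e_4_m0 false .thrR = true := by decide +kernel

def a2e_4_r0_thrR1 : rowsOk stA2E a2e_4 a2e_4_m0 true .thrR = true := by decide +kernel

def a2e_4_r0_thrL0 : rowsOk stA2E a2e_4 a2e_4_m0 false .thrL = true := by decide +kernel

def a2e_4_r0_thrL1 : rowsOk stA2E a2e_4 a2e_4_m0 true .thrL = true := by decide +kernel

def a2e_4_r0_threeE0 : rowsOk stA2E a2e_4 a2e_4_m0 false .threeE = true := by decide +kernel

def a2e_4_r0_threeE1 : rowsOk stA2E a2e_4 a2e_4_m0 true .threeE = true := by decide +kernel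

def a2e_4_r0_ring0 : rowsOk stA2E a2e_4 a2e_4_m0 false .ring = true := by decide +kernel

def a2e_4_r0_ring1_0 : cellOk stA2E a2e_4 a2e_4_m0 true .ring ((stA2E.bins .ring).getD 0 b00)
    ((a2e_4_m0.g true .ring).getD 0 e00) = true := by decide +kernel

def a2e_4_r0_ring1_1 : cellOk stA2E a2e_4 a2e_4_m0 true .ring ((stA2E.bins .ring).getD 1 b00)
    ((a2e_4_m0.g true .ring).getD 1 e00) = true := by decide +kernel

def a2e_4_r0_ring1_2 : cellOk stA2E a2e_4 a2e_4_m0 true .ring ((stA2E.bins .ring).getD 2 b00)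
    ((a2e_4_m0.g true .ring).getD 2 e00) = true := by decide +kernel

def a2e_4_r0_ring1_3 : cellOk stA2E a2e_4 a2e_4_m0 true .ring ((stA2E.bins .ring).getD 3 b00)
    ((a2e_4_m0.g true .ring).getD 3 e00) = true := by decide +kernel

def a2e_4_r0_ring1_4 : cellOk stA2E a2e_4 a2e_4_m0 true .ring ((stA2E.bins .ring).getD 4 b00)
    ((a2e_4_m0.g true .ring).getD 4 e00) = true := by decide +kernel

def a2e_4_r0_ring1_5 : cellOk stA2E a2e_4 a2e_4_m0 true .ring ((stA2E.bins .ring).getD 5 b00)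
    ((a2e_4_m0.g true .ring).getD 5 e00) = true := by decide +kernel

theorem a2e_4_r0_ring1 : rowsOk stA2E a2e_4 a2e_4_m0 true .ring = true := by
  refine rowsOk_of fun i hi => ?_
  have hi : i < 6 := hi
  interval_cases i
  exacts [a2e_4_r0_ring1_0, a2e_4_r0_ring1_1, a2e_4_r0_ring1_2, a2e_4_r0_ring1_3, a2e_4_r0_ring1_4, a2e_4_r0_ring1_5]

def a2e_4_r1_one0 : rowsOk stA2E a2e_4 a2e_4_m1 false .one = true := by decide +kernel

def a2e_4_r1_one1 : rowsOk stA2E a2e_4 a2e_4_m1 true .one = true := by decide +kernel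

def a2e_4_r1_two0 : rowsOk stA2E a2e_4 a2e_4_m1 false .two = true := by decide +kernel

def a2e_4_r1_two1 : rowsOk stA2E a2e_4 a2e_4_m1 true .two = true := by decide +kernel

def a2e_4_r1_twoE0 : rowsOk stA2E a2e_4 a2e_4_m1 false .twoE = true := by decide +kernel

def a2e_4_r1_twoE1 : rowsOk stA2E a2e_4 a2e_4_m1 true .twoE = true := by decide +kernel

def a2e_4_r1_thrR0 : rowsOk stA2E a2e_4 a2e_4_m1 false .thrR = true := by decide +kernel

def a2e_4_r1_thrR1 : rowsOk stA2E a2e_4 a2e_4_m1 true .thrR = true := by decide +kernel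

def a2e_4_r1_thrL0 : rowsOk stA2E a2e_4 a2e_4_m1 false .thrL = true := by decide +kernel

def a2e_4_r1_thrL1 : rowsOk stA2E a2e_4 a2e_4_m1 true .thrL = true := by decide +kernel

def a2e_4_r1_threeE0 : rowsOk stA2E a2e_4 a2e_4_m1 false .threeE = true := by decide +kernel

def a2e_4_r1_threeE1 : rowsOk stA2E a2e_4 a2e_4_m1 true .threeE = true := by decide +kernel

def a2e_4_r1_ring0 : rowsOk stA2E a2e_4 a2e_4_m1 false .ring = true := by decide +kernel

def a2e_4_r1_ring1 : rowsOk stA2E a2e_4 a2e_4_m1 true .ring = true := by decide +kernel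

def a2e_4_r2_one0 : rowsOk stA2E a2e_4 a2e_4_m2 false .one = true := by decide +kernel

def a2e_4_r2_one1 : rowsOk stA2E a2e_4 a2e_4_m2 true .one = true := by decide +kernel

def a2e_4_r2_two0 : rowsOk stA2E a2e_4 a2e_4_m2 false .two = true := by decide +kernel

def a2e_4_r2_two1 : rowsOk stA2E a2e_4 a2e_4_m2 true .two = true := by decide +kernel

def a2e_4_r2_twoE0 : rowsOk stA2E a2e_4 a2e_4_m2 false .twoE = true := by decide +kernel

def a2e_4_r2_twoE1 : rowsOk stA2E a2e_4 a2e_4_m2 true .twoE = true := by decide +kernel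

def a2e_4_r2_thrR0 : rowsOk stA2E a2e_4 a2e_4_m2 false .thrR = true := by decide +kernel

def a2e_4_r2_thrR1 : rowsOk stA2E a2e_4 a2e_4_m2 true .thrR = true := by decide +kernel

def a2e_4_r2_thrL0 : rowsOk stA2E a2e_4 a2e_4_m2 false .thrL = true := by decide +kernel

def a2e_4_r2_thrL1 : rowsOk stA2E a2e_4 a2e_4_m2 true .thrL = true := by decide +kernel

def a2e_4_r2_threeE0 : rowsOk stA2E a2e_4 a2e_4_m2 false .threeE = true := by decide +kernel

def a2e_4_r2_threeE1 : rowsOk stA2E a2e_4 a2e_4_m2 true .threeE = true := by decide +kernel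

def a2e_4_r2_ring0 : rowsOk stA2E a2e_4 a2e_4_m2 false .ring = true := by decide +kernel

def a2e_4_r2_ring1 : rowsOk stA2E a2e_4 a2e_4_m2 true .ring = true := by decide +kernel

def a2e_4_r3_one0 : rowsOk stA2E a2e_4 a2e_4_m3 false .one = true := by decide +kernel

def a2e_4_r3_one1 : rowsOk stA2E a2e_4 a2e_4_m3 true .one = true := by decide +kernel

def a2e_4_r3_two0 : rowsOk stA2E a2e_4 a2e_4_m3 false .two = true := by decide +kernel

def a2e_4_r3_two1 : rowsOk stA2E a2e_4 a2e_4_m3 true .two = true := by decide +kernel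

def a2e_4_r3_twoE0 : rowsOk stA2E a2e_4 a2e_4_m3 false .twoE = true := by decide +kernel

def a2e_4_r3_twoE1 : rowsOk stA2E a2e_4 a2e_4_m3 true .twoE = true := by decide +kernel

def a2e_4_r3_thrR0 : rowsOk stA2E a2e_4 a2e_4_m3 false .thrR = true := by decide +kernel

def a2e_4_r3_thrR1 : rowsOk stA2E a2e_4 a2e_4_m3 true .thrR = true := by decide +kernel

def a2e_4_r3_thrL0 : rowsOk stA2E a2e_4 a2e_4_m3 false .thrL = true := by decide +kernel

def a2e_4_r3_thrL1 : rowsOk stA2E a2e_4 a2e_4_m3 true .thrL = true := by decide +kernel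

def a2e_4_r3_threeE0 : rowsOk stA2E a2e_4 a2e_4_m3 false .threeE = true := by decide +kernel

def a2e_4_r3_threeE1 : rowsOk stA2E a2e_4 a2e_4_m3 true .threeE = true := by decide +kernel

def a2e_4_r3_ring0 : rowsOk stA2E a2e_4 a2e_4_m3 false .ring = true := by decide +kernel

def a2e_4_r3_ring1 : rowsOk stA2E a2e_4 a2e_4_m3 true .ring = true := by decide +kernel

theorem a2e_4_r0 : allRows stA2E a2e_4 a2e_4_m0 = true := by
  refine allRows_of fun P => ?_
  cases P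
  exacts [⟨a2e_4_r0_one0, a2e_4_r0_one1⟩,
    ⟨a2e_4_r0_two0, a2e_4_r0_two1⟩,
    ⟨a2e_4_r0_twoE0, a2e_4_r0_twoE1⟩,
    ⟨a2e_4_r0_thrR0, a2e_4_r0_thrR1⟩,
    ⟨a2e_4_r0_thrL0, a2e_4_r0_thrL1⟩,
    ⟨a2e_4_r0_threeE0, a2e_4_r0_threeE1⟩,
    ⟨a2e_4_r0_ring0, a2e_4_r0_ring1⟩]

theorem a2e_4_r1 : allRows stA2E a2e_4 a2e_4_m1 = true := by
  refine allRows_of fun P => ?_
  cases P
  exacts [⟨a2e_4_r1_one0, a2e_4_r1_one1⟩,
    ⟨a2e_4_r1_two0, a2e_4_r1_two1⟩,
    ⟨a2e_4_r1_twoE0, a2e_4_r1_twoE1⟩,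
    ⟨a2e_4_r1_thrR0, a2e_4_r1_thrR1⟩,
    ⟨a2e_4_r1_thrL0, a2e_4_r1_thrL1⟩,
    ⟨a2e_4_r1_threeE0, a2e_4_r1_threeE1⟩,
    ⟨a2e_4_r1_ring0, a2e_4_r1_ring1⟩]

theorem a2e_4_r2 : allRows stA2E a2e_4 a2e_4_m2 = true := by
  refine allRows_of fun P => ?_
  cases P
  exacts [⟨a2e_4_r2_one0, a2e_4_r2_one1⟩,
    ⟨a2e_4_r2_two0, a2e_4_r2_two1⟩,
    ⟨a2e_4_r2_twoE0, a2e_4_r2_twoE1⟩,
    ⟨a2e_4_r2_thrR0, a2e_4_r2_thrR1⟩,
    ⟨a2e_4_r2_thrL0, a2e_4_r2_thrL1⟩,
    ⟨a2e_4_r2_threeE0, a2e_4_r2_threeE1⟩,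
    ⟨a2e_4_r2_ring0, a2e_4_r2_ring1⟩]

theorem a2e_4_r3 : allRows stA2E a2e_4 a2e_4_m3 = true := by
  refine allRows_of fun P => ?_
  cases P
  exacts [⟨a2e_4_r3_one0, a2e_4_r3_one1⟩,
    ⟨a2e_4_r3_two0, a2e_4_r3_two1⟩,
    ⟨a2e_4_r3_twoE0, a2e_4_r3_twoE1⟩,
    ⟨a2e_4_r3_thrR0, a2e_4_r3_thrR1⟩,
    ⟨a2e_4_r3_thrL0, a2e_4_r3_thrL1⟩,
    ⟨a2e_4_r3_threeE0, a2e_4_r3_threeE1⟩,
    ⟨a2e_4_r3_ring0, a2e_4_r3_ring1⟩]

theorem a2e_4_ok : a2e_4.ok stA2E = true := by
  have h : (PC.all.all fun P => PC.all.all fun Q => pairOk stA2E a2e_4 P Q) = true := by decide +kernel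
  have d0 : mdOk stA2E a2e_4_m0.md = true := by decide +kernel
  have d1 : mdOk stA2E a2e_4_m1.md = true := by decide +kernel
  have d2 : mdOk stA2E a2e_4_m2.md = true := by decide +kernel
  have d3 : mdOk stA2E a2e_4_m3.md = true := by decide +kernel
  unfold Piece.ok
  rw [h, Bool.true_and]
  show List.all [a2e_4_m0, a2e_4_m1, a2e_4_m2, a2e_4_m3] _ = true
  rw [List.all_eq_true]
  intro m hm
  simp only [List.mem_cons, List.not_mem_nil, or_false] at hm
  rcases hm with rfl | rfl | rfl | rfl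
  · rw [a2e_4_r0, d0]; rfl
  · rw [a2e_4_r1, d1]; rfl
  · rw [a2e_4_r2, d2]; rfl
  · rw [a2e_4_r3, d3]; rfl

end OR

end Pool.Agent.Work.MP_b30479_gt.G2
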