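import Pool.Agent.Work.MP_b30479_gt.G2.OStA
import Pool.Agent.Work.MP_b30479_gt.G2.ORows

namespace Pool.Agent.Work.MP_b30479_gt.G2

namespace OR

/-- windows -/
def a2e_5_wp : PC → Win
  | .one => ⟨0, 0, 0, 0, 0, 0⟩
  | .two => ⟨0, 0, 0, 0, 0, 0⟩
  | .twoE => ⟨-790, -360, -310, 250, 230, 820⟩
  | .thrR => ⟨0, 0, 0, 0, 0, 0⟩
  | .thrL => ⟨0, 0, 0, 0, 0, 0⟩
  | .threeE => ⟨0, 0, 0, 0, 0, 0⟩
  | .ring => ⟨0, 0, 0, 0, 0, 0⟩

/-- windows -/
def a2e_5_wq : PC → Win
  | .one => ⟨0, 0, 0, 0, 0, 0⟩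
  | .two => ⟨0, 0, 0, 0, 0, 0⟩
  | .twoE => ⟨0, 0, 0, 0, 0, 0⟩
  | .thrR => ⟨0, 0, 0, 0, 0, 0⟩
  | .thrL => ⟨0, 0, 0, 0, 0, 0⟩
  | .threeE => ⟨0, 0, 0, 0, 0, 0⟩
  | .ring => ⟨600, 1300, 110, 690, -820, -230⟩

/-- mode -/
def a2e_5_m0 : Mode where
  md := .V 150 1000
  lam := 0
  ct := 1500
  gp := fun
    | .one => [e00, e00, e00, e00, e00, e00, e00, e00]
    | .two => [e00, e00, e00, e00, e00, e00]
    | .twoE => [⟨1402, [2178]⟩, ⟨1129, [8, 8, 8, 8, 8, 8]⟩, ⟨-2396, [0, 0, 0, 0, 8, 10314100470630455202808610]⟩, ⟨-2396, [0, 0, 0, 0, 8, 8]⟩, ⟨-2396, [0, 0, 0, 0, 8, 8]⟩, ⟨-2396, [0, 0, 0, 0, 8, 8]⟩]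
    | .thrR => [e00, e00, e00, e00, e00, e00]
    | .thrL => [e00, e00, e00, e00, e00, e00]
    | .threeE => [e00, e00, e00, e00, e00, e00]
    | .ring => [e00, e00, e00, e00, e00, e00]
  gq := fun
    | .one => [e00, e00, e00, e00, e00, e00, e00, e00]
    | .two => [e00, e00, e00, e00, e00, e00]
    | .twoE => [e00, e00, e00, e00, e00, e00]
    | .thrR => [e00, e00, e00, e00, e00, e00]
    | .thrL => [e00, e00, e00, e00, e00, e00]
    | .threeE => [e00, e00, e00, e00, e00, e00]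
    | .ring => [⟨2392, [1786278848066601077501749150221311455173036066744127888674049726220204539918467087198197878295604156214907911601117335004432727421888923698, 14030384324926937266885303100725637269740922831792, 12753418287134244688313086990800171184, 8, 0, 0]⟩, ⟨2392, [11605238127567870366942083, 2700641906688387, 691364665502172033, 8, 11522749716725256960876931, 8]⟩, ⟨2392, [0, 0, 0, 0, 686942430003691907, 8]⟩, ⟨2392, [0, 0, 0, 0, 9382392240178, 8]⟩, ⟨2392, [0, 0, 0, 0, 143164194, 8]⟩, ⟨-1406, [0, 0, 0, 0, 8, 8]⟩]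

/-- mode -/
def a2e_5_m1 : Mode where
  md := .V 450 1000
  lam := 500
  ct := 2500
  gp := fun
    | .one => [e00, e00, e00, e00, e00, e00, e00, e00]
    | .two => [e00, e00, e00, e00, e00, e00]
    | .twoE => [⟨-476, [36549722402]⟩, ⟨-1171, [557443, 8, 8, 8, 8, 2177]⟩, e00, e00, e00, e00]
    | .thrR => [e00, e00, e00, e00, e00, e00]
    | .thrL => [e00, e00, e00, e00, e00, e00]
    | .threeE => [e00, e00, e00, e00, e00, e00]
    | .ring => [e00, e00, e00, e00, e00, e00]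
  gq := fun
    | .one => [e00, e00, e00, e00, e00, e00, e00, e00]
    | .two => [e00, e00, e00, e00, e00, e00]
    | .twoE => [e00, e00, e00, e00, e00, e00]
    | .thrR => [e00, e00, e00, e00, e00, e00]
    | .thrL => [e00, e00, e00, e00, e00, e00]
    | .threeE => [e00, e00, e00, e00, e00, e00]
    | .ring => [⟨832, [142836354, 2179, 8, 8, 0, 0]⟩, ⟨832, [8, 8, 8, 8, 8, 8]⟩, ⟨137, [0, 0, 0, 0, 2632551716313454997750842243, 8]⟩, ⟨137, [0, 0, 0, 0, 36549695538, 8]⟩, ⟨137, [0, 0, 0, 0, 13681144154004207804280679429256560991557923910426619686257442, 231965314]⟩, e00]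

/-- mode -/
def a2e_5_m2 : Mode where
  md := .V 550 1000
  lam := 250
  ct := 2500
  gp := fun
    | .one => [e00, e00, e00, e00, e00, e00, e00, e00]
    | .two => [e00, e00, e00, e00, e00, e00]
    | .twoE => [⟨-586, [612914547208491554]⟩, e00, e00, e00, e00, e00]
    | .thrR => [e00, e00, e00, e00, e00, e00]
    | .thrL => [e00, e00, e00, e00, e00, e00]
    | .threeE => [e00, e00, e00, e00, e00, e00]
    | .ring => [e00, e00, e00, e00, e00, e00]
  gq := fun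
    | .one => [e00, e00, e00, e00, e00, e00, e00, e00]
    | .two => [e00, e00, e00, e00, e00, e00]
    | .twoE => [e00, e00, e00, e00, e00, e00]
    | .thrR => [e00, e00, e00, e00, e00, e00]
    | .thrL => [e00, e00, e00, e00, e00, e00]
    | .threeE => [e00, e00, e00, e00, e00, e00]
    | .ring => [⟨415, [58894329358277457144856839059466842476476946618568186010816426521298994, 40288881247200481608624, 145797296, 8, 0, 0]⟩, ⟨415, [10313676660936398175568771, 557443, 2177, 8, 36644073859, 8]⟩, e00, e00, e00, e00]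

/-- piece -/
def a2e_5 : Piece := ⟨8200, 8400, 0, 820, a2e_5_wp, a2e_5_wq, [a2e_5_m0, a2e_5_m1, a2e_5_m2]⟩

set_option linter.defProp false

def a2e_5_r0_one0 : rowsOk stA2E a2e_5 a2e_5_m0 false .one = true := by decide +kernel

def a2e_5_r0_one1 : rowsOk stA2E a2e_5 a2e_5_m0 true .one = true := by decide +kernel

def a2e_5_r0_two0 : rowsOk stA2E a2e_5 a2e_5_m0 false .two = true := by decide +kernel

def a2e_5_r0_two1 : rowsOk stA2E a2e_5 a2e_5_m0 true .two = true := by decide +kernel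

def a2e_5_r0_twoE0 : rowsOk stA2E a2e_5 a2e_5_m0 false .twoE = true := by decide +kernel

def a2e_5_r0_twoE1 : rowsOk stA2E a2e_5 a2e_5_m0 true .twoE = true := by decide +kernel

def a2e_5_r0_thrR0 : rowsOk stA2E a2e_5 a2e_5_m0 false .thrR = true := by decide +kernel

def a2e_5_r0_thrR1 : rowsOk stA2E a2e_5 a2e_5_m0 true .thrR = true := by decide +kernel

def a2e_5_r0_thrL0 : rowsOk stA2E a2e_5 a2e_5_m0 false .thrL = true := by decide +kernel

def a2e_5_r0_thrL1 : rowsOk stA2E a2e_5 a2e_5_m0 true .thrL = true := by decide +kernel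

def a2e_5_r0_threeE0 : rowsOk stA2E a2e_5 a2e_5_m0 false .threeE = true := by decide +kernel

def a2e_5_r0_threeE1 : rowsOk stA2E a2e_5 a2e_5_m0 true .threeE = true := by decide +kernel

def a2e_5_r0_ring0 : rowsOk stA2E a2e_5 a2e_5_m0 false .ring = true := by decide +kernel

def a2e_5_r0_ring1_0 : cellOk stA2E a2e_5 a2e_5_m0 true .ring ((stA2E.bins .ring).getD 0 b00)
    ((a2e_5_m0.g true .ring).getD 0 e00) = true := by decide +kernel

def a2e_5_r0_ring1_1 : cellOk stA2E a2e_5 a2e_5_m0 true .ring ((stA2E.bins .ring).getD 1 b00)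
    ((a2e_5_m0.g true .ring).getD 1 e00) = true := by decide +kernel

def a2e_5_r0_ring1_2 : cellOk stA2E a2e_5 a2e_5_m0 true .ring ((stA2E.bins .ring).getD 2 b00)
    ((a2e_5_m0.g true .ring).getD 2 e00) = true := by decide +kernel

def a2e_5_r0_ring1_3 : cellOk stA2E a2e_5 a2e_5_m0 true .ring ((stA2E.bins .ring).getD 3 b00)
    ((a2e_5_m0.g true .ring).getD 3 e00) = true := by decide +kernel

def a2e_5_r0_ring1_4 : cellOk stA2E a2e_5 a2e_5_m0 true .ring ((stA2E.bins .ring).getD 4 b00)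
    ((a2e_5_m0.g true .ring).getD 4 e00) = true := by decide +kernel

def a2e_5_r0_ring1_5 : cellOk stA2E a2e_5 a2e_5_m0 true .ring ((stA2E.bins .ring).getD 5 b00)
    ((a2e_5_m0.g true .ring).getD 5 e00) = true := by decide +kernel

theorem a2e_5_r0_ring1 : rowsOk stA2E a2e_5 a2e_5_m0 true .ring = true := by
  refine rowsOk_of fun i hi => ?_
  have hi : i < 6 := hi
  interval_cases i
  exacts [a2e_5_r0_ring1_0, a2e_5_r0_ring1_1, a2e_5_r0_ring1_2, a2e_5_r0_ring1_3, a2e_5_r0_ring1_4, a2e_5_r0_ring1_5]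

def a2e_5_r1_one0 : rowsOk stA2E a2e_5 a2e_5_m1 false .one = true := by decide +kernel

def a2e_5_r1_one1 : rowsOk stA2E a2e_5 a2e_5_m1 true .one = true := by decide +kernel

def a2e_5_r1_two0 : rowsOk stA2E a2e_5 a2e_5_m1 false .two = true := by decide +kernel

def a2e_5_r1_two1 : rowsOk stA2E a2e_5 a2e_5_m1 true .two = true := by decide +kernel

def a2e_5_r1_twoE0 : rowsOk stA2E a2e_5 a2e_5_m1 false .twoE = true := by decide +kernel

def a2e_5_r1_twoE1 : rowsOk stA2E a2e_5 a2e_5_m1 true .twoE = true := by decide +kernel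

def a2e_5_r1_thrR0 : rowsOk stA2E a2e_5 a2e_5_m1 false .thrR = true := by decide +kernel

def a2e_5_r1_thrR1 : rowsOk stA2E a2e_5 a2e_5_m1 true .thrR = true := by decide +kernel

def a2e_5_r1_thrL0 : rowsOk stA2E a2e_5 a2e_5_m1 false .thrL = true := by decide +kernel

def a2e_5_r1_thrL1 : rowsOk stA2E a2e_5 a2e_5_m1 true .thrL = true := by decide +kernel

def a2e_5_r1_threeE0 : rowsOk stA2E a2e_5 a2e_5_m1 false .threeE = true := by decide +kernel

def a2e_5_r1_threeE1 : rowsOk stA2E a2e_5 a2e_5_m1 true .threeE = true := by decide +kernel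

def a2e_5_r1_ring0 : rowsOk stA2E a2e_5 a2e_5_m1 false .ring = true := by decide +kernel

def a2e_5_r1_ring1 : rowsOk stA2E a2e_5 a2e_5_m1 true .ring = true := by decide +kernel

def a2e_5_r2_one0 : rowsOk stA2E a2e_5 a2e_5_m2 false .one = true := by decide +kernel

def a2e_5_r2_one1 : rowsOk stA2E a2e_5 a2e_5_m2 true .one = true := by decide +kernel

def a2e_5_r2_two0 : rowsOk stA2E a2e_5 a2e_5_m2 false .two = true := by decide +kernel

def a2e_5_r2_two1 : rowsOk stA2E a2e_5 a2e_5_m2 true .two = true := by decide +kernel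

def a2e_5_r2_twoE0 : rowsOk stA2E a2e_5 a2e_5_m2 false .twoE = true := by decide +kernel

def a2e_5_r2_twoE1 : rowsOk stA2E a2e_5 a2e_5_m2 true .twoE = true := by decide +kernel

def a2e_5_r2_thrR0 : rowsOk stA2E a2e_5 a2e_5_m2 false .thrR = true := by decide +kernel

def a2e_5_r2_thrR1 : rowsOk stA2E a2e_5 a2e_5_m2 true .thrR = true := by decide +kernel

def a2e_5_r2_thrL0 : rowsOk stA2E a2e_5 a2e_5_m2 false .thrL = true := by decide +kernel

def a2e_5_r2_thrL1 : rowsOk stA2E a2e_5 a2e_5_m2 true .thrL = true := by decide +kernel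

def a2e_5_r2_threeE0 : rowsOk stA2E a2e_5 a2e_5_m2 false .threeE = true := by decide +kernel

def a2e_5_r2_threeE1 : rowsOk stA2E a2e_5 a2e_5_m2 true .threeE = true := by decide +kernel

def a2e_5_r2_ring0 : rowsOk stA2E a2e_5 a2e_5_m2 false .ring = true := by decide +kernel

def a2e_5_r2_ring1 : rowsOk stA2E a2e_5 a2e_5_m2 true .ring = true := by decide +kernel

theorem a2e_5_r0 : allRows stA2E a2e_5 a2e_5_m0 = true := by
  refine allRows_of fun P => ?_
  cases P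
  exacts [⟨a2e_5_r0_one0, a2e_5_r0_one1⟩,
    ⟨a2e_5_r0_two0, a2e_5_r0_two1⟩,
    ⟨a2e_5_r0_twoE0, a2e_5_r0_twoE1⟩,
    ⟨a2e_5_r0_thrR0, a2e_5_r0_thrR1⟩,
    ⟨a2e_5_r0_thrL0, a2e_5_r0_thrL1⟩,
    ⟨a2e_5_r0_threeE0, a2e_5_r0_threeE1⟩,
    ⟨a2e_5_r0_ring0, a2e_5_r0_ring1⟩]

theorem a2e_5_r1 : allRows stA2E a2e_5 a2e_5_m1 = true := by
  refine allRows_of fun P => ?_
  cases P
  exacts [⟨a2e_5_r1_one0, a2e_5_r1_one1⟩,
    ⟨a2e_5_r1_two0, a2e_5_r1_two1⟩,
    ⟨a2e_5_r1_twoE0, a2e_5_r1_twoE1⟩,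
    ⟨a2e_5_r1_thrR0, a2e_5_r1_thrR1⟩,
    ⟨a2e_5_r1_thrL0, a2e_5_r1_thrL1⟩,
    ⟨a2e_5_r1_threeE0, a2e_5_r1_threeE1⟩,
    ⟨a2e_5_r1_ring0, a2e_5_r1_ring1⟩]

theorem a2e_5_r2 : allRows stA2E a2e_5 a2e_5_m2 = true := by
  refine allRows_of fun P => ?_
  cases P
  exacts [⟨a2e_5_r2_one0, a2e_5_r2_one1⟩,
    ⟨a2e_5_r2_two0, a2e_5_r2_two1⟩,
    ⟨a2e_5_r2_twoE0, a2e_5_r2_twoE1⟩,
    ⟨a2e_5_r2_thrR0, a2e_5_r2_thrR1⟩,
    ⟨a2e_5_r2_thrL0, a2e_5_r2_thrL1⟩,
    ⟨a2e_5_r2_threeE0, a2e_5_r2_threeE1⟩,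
    ⟨a2e_5_r2_ring0, a2e_5_r2_ring1⟩]

theorem a2e_5_ok : a2e_5.ok stA2E = true := by
  have h : (PC.all.all fun P => PC.all.all fun Q => pairOk stA2E a2e_5 P Q) = true := by decide +kernel
  have d0 : mdOk stA2E a2e_5_m0.md = true := by decide +kernel
  have d1 : mdOk stA2E a2e_5_m1.md = true := by decide +kernel
  have d2 : mdOk stA2E a2e_5_m2.md = true := by decide +kernel
  unfold Piece.ok
  rw [h, Bool.true_and]
  show List.all [a2e_5_m0, a2e_5_m1, a2e_5_m2] _ = true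
  rw [List.all_eq_true]
  intro m hm
  simp only [List.mem_cons, List.not_mem_nil, or_false] at hm
  rcases hm with rfl | rfl | rfl
  · rw [a2e_5_r0, d0]; rfl
  · rw [a2e_5_r1, d1]; rfl
  · rw [a2e_5_r2, d2]; rfl

end OR

end Pool.Agent.Work.MP_b30479_gt.G2
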