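import Pool.Agent.Work.MP_b30479_gt.G2.OStA
import Pool.Agent.Work.MP_b30479_gt.G2.ORows

namespace Pool.Agent.Work.MP_b30479_gt.G2

namespace OR

/-- windows -/
def a2e_7_wp : PC → Win
  | .one => ⟨0, 0, 0, 0, 0, 0⟩
  | .two => ⟨0, 0, 0, 0, 0, 0⟩
  | .twoE => ⟨-790, -360, -310, 250, 230, 820⟩
  | .thrR => ⟨0, 0, 0, 0, 0, 0⟩
  | .thrL => ⟨0, 0, 0, 0, 0, 0⟩
  | .threeE => ⟨0, 0, 0, 0, 0, 0⟩
  | .ring => ⟨0, 0, 0, 0, 0, 0⟩

/-- windows -/
def a2e_7_wq : PC → Win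
  | .one => ⟨0, 0, 0, 0, 0, 0⟩
  | .two => ⟨0, 0, 0, 0, 0, 0⟩
  | .twoE => ⟨0, 0, 0, 0, 0, 0⟩
  | .thrR => ⟨0, 0, 0, 0, 0, 0⟩
  | .thrL => ⟨0, 0, 0, 0, 0, 0⟩
  | .threeE => ⟨0, 0, 0, 0, 0, 0⟩
  | .ring => ⟨600, 1300, 110, 690, -820, -230⟩

/-- mode -/
def a2e_7_m0 : Mode where
  md := .V 150 1000
  lam := 0
  ct := 2000
  gp := fun
    | .one => [e00, e00, e00, e00, e00, e00, e00, e00]
    | .two => [e00, e00, e00, e00, e00, e00]
    | .twoE => [⟨942, [557698, 8, 8, 8, 0, 0]⟩, ⟨743, [8, 8, 8, 8, 13, 2178]⟩, ⟨-2611, [0, 0, 0, 0, 8, 559154]⟩, ⟨-2611, [0, 0, 0, 0, 8, 8]⟩, ⟨-2611, [0, 0, 0, 0, 8, 8]⟩, ⟨-2611, [0, 0, 0, 0, 8, 8]⟩]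
    | .thrR => [e00, e00, e00, e00, e00, e00]
    | .thrL => [e00, e00, e00, e00, e00, e00]
    | .threeE => [e00, e00, e00, e00, e00, e00]
    | .ring => [e00, e00, e00, e00, e00, e00]
  gq := fun
    | .one => [e00, e00, e00, e00, e00, e00, e00, e00]
    | .two => [e00, e00, e00, e00, e00, e00]
    | .twoE => [e00, e00, e00, e00, e00, e00]
    | .thrR => [e00, e00, e00, e00, e00, e00]
    | .thrL => [e00, e00, e00, e00, e00, e00]
    | .threeE => [e00, e00, e00, e00, e00, e00]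
    | .ring => [⟨2607, [36532617858, 40861008259, 10460452106625, 8, 88070333443482226165959156145806545294189399406437910895732189550912018460663396908966018897121669106729859, 8]⟩, ⟨2607, [0, 0, 0, 0, 49844118220179174101739038293721987, 8]⟩, ⟨2607, [0, 0, 0, 0, 40827584899, 8]⟩, ⟨2607, [0, 0, 0, 0, 559154, 8]⟩, ⟨2607, [0, 0, 0, 0, 2178, 8]⟩, ⟨-946, [0, 0, 0, 0, 8, 8]⟩]

/-- mode -/
def a2e_7_m1 : Mode where
  md := .V 400 1000
  lam := 500
  ct := 2500
  gp := fun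
    | .one => [e00, e00, e00, e00, e00, e00, e00, e00]
    | .two => [e00, e00, e00, e00, e00, e00]
    | .twoE => [⟨-449, [2895767354727478335577812530030267466274, 8, 8, 8, 0, 0]⟩, ⟨-1277, [8, 8, 8, 8, 13, 2178]⟩, e00, e00, e00, e00]
    | .thrR => [e00, e00, e00, e00, e00, e00]
    | .thrL => [e00, e00, e00, e00, e00, e00]
    | .threeE => [e00, e00, e00, e00, e00, e00]
    | .ring => [e00, e00, e00, e00, e00, e00]
  gq := fun
    | .one => [e00, e00, e00, e00, e00, e00, e00, e00]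
    | .two => [e00, e00, e00, e00, e00, e00]
    | .twoE => [e00, e00, e00, e00, e00, e00]
    | .thrR => [e00, e00, e00, e00, e00, e00]
    | .thrL => [e00, e00, e00, e00, e00, e00]
    | .threeE => [e00, e00, e00, e00, e00, e00]
    | .ring => [⟨938, [557698, 8, 8, 8, 2179, 8]⟩, ⟨938, [0, 0, 0, 0, 2179, 8]⟩, ⟨938, [0, 0, 0, 0, 8, 8]⟩, ⟨110, [0, 0, 0, 0, 40168368581274837787267, 8]⟩, ⟨110, [0, 0, 0, 0, 741316477460201035164654344967014795346722, 2178]⟩, e00]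

/-- mode -/
def a2e_7_m2 : Mode where
  md := .V 550 1000
  lam := 250
  ct := 2500
  gp := fun
    | .one => [e00, e00, e00, e00, e00, e00, e00, e00]
    | .two => [e00, e00, e00, e00, e00, e00]
    | .twoE => [⟨-478, [4232168788550506740082041731501800876148004500697407924791017835971439186824059527762466, 8, 8, 8, 0, 0]⟩, e00, e00, e00, e00, e00]
    | .thrR => [e00, e00, e00, e00, e00, e00]
    | .thrL => [e00, e00, e00, e00, e00, e00]
    | .threeE => [e00, e00, e00, e00, e00, e00]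
    | .ring => [e00, e00, e00, e00, e00, e00]
  gq := fun
    | .one => [e00, e00, e00, e00, e00, e00, e00, e00]
    | .two => [e00, e00, e00, e00, e00, e00]
    | .twoE => [e00, e00, e00, e00, e00, e00]
    | .thrR => [e00, e00, e00, e00, e00, e00]
    | .thrL => [e00, e00, e00, e00, e00, e00]
    | .threeE => [e00, e00, e00, e00, e00, e00]
    | .ring => [⟨306, [142836354, 2179, 2179, 8, 2144108110202346958230735782043456828064010773712199817717625567587530099836451088936477754227841987040430545603131206502498486764008244184102712093420269295862659, 8]⟩, ⟨306, [0, 0, 0, 0, 814734871345170740852999846229538918302379937613710211, 8]⟩, ⟨306, [0, 0, 0, 0, 143139203, 8]⟩, e00, e00, e00]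

/-- piece -/
def a2e_7 : Piece := ⟨8500, 8600, 0, 820, a2e_7_wp, a2e_7_wq, [a2e_7_m0, a2e_7_m1, a2e_7_m2]⟩

set_option linter.defProp false

def a2e_7_r0_one0 : rowsOk stA2E a2e_7 a2e_7_m0 false .one = true := by decide +kernel

def a2e_7_r0_one1 : rowsOk stA2E a2e_7 a2e_7_m0 true .one = true := by decide +kernel

def a2e_7_r0_two0 : rowsOk stA2E a2e_7 a2e_7_m0 false .two = true := by decide +kernel

def a2e_7_r0_two1 : rowsOk stA2E a2e_7 a2e_7_m0 true .two = true := by decide +kernel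

def a2e_7_r0_twoE0 : rowsOk stA2E a2e_7 a2e_7_m0 false .twoE = true := by decide +kernel

def a2e_7_r0_twoE1 : rowsOk stA2E a2e_7 a2e_7_m0 true .twoE = true := by decide +kernel

def a2e_7_r0_thrR0 : rowsOk stA2E a2e_7 a2e_7_m0 false .thrR = true := by decide +kernel

def a2e_7_r0_thrR1 : rowsOk stA2E a2e_7 a2e_7_m0 true .thrR = true := by decide +kernel

def a2e_7_r0_thrL0 : rowsOk stA2E a2e_7 a2e_7_m0 false .thrL = true := by decide +kernel

def a2e_7_r0_thrL1 : rowsOk stA2E a2e_7 a2e_7_m0 true .thrL = true := by decide +kernel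

def a2e_7_r0_threeE0 : rowsOk stA2E a2e_7 a2e_7_m0 false .threeE = true := by decide +kernel

def a2e_7_r0_threeE1 : rowsOk stA2E a2e_7 a2e_7_m0 true .threeE = true := by decide +kernel

def a2e_7_r0_ring0 : rowsOk stA2E a2e_7 a2e_7_m0 false .ring = true := by decide +kernel

def a2e_7_r0_ring1 : rowsOk stA2E a2e_7 a2e_7_m0 true .ring = true := by decide +kernel

def a2e_7_r1_one0 : rowsOk stA2E a2e_7 a2e_7_m1 false .one = true := by decide +kernel

def a2e_7_r1_one1 : rowsOk stA2E a2e_7 a2e_7_m1 true .one = true := by decide +kernel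

def a2e_7_r1_two0 : rowsOk stA2E a2e_7 a2e_7_m1 false .two = true := by decide +kernel

def a2e_7_r1_two1 : rowsOk stA2E a2e_7 a2e_7_m1 true .two = true := by decide +kernel

def a2e_7_r1_twoE0 : rowsOk stA2E a2e_7 a2e_7_m1 false .twoE = true := by decide +kernel

def a2e_7_r1_twoE1 : rowsOk stA2E a2e_7 a2e_7_m1 true .twoE = true := by decide +kernel

def a2e_7_r1_thrR0 : rowsOk stA2E a2e_7 a2e_7_m1 false .thrR = true := by decide +kernel

def a2e_7_r1_thrR1 : rowsOk stA2E a2e_7 a2e_7_m1 true .thrR = true := by decide +kernel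

def a2e_7_r1_thrL0 : rowsOk stA2E a2e_7 a2e_7_m1 false .thrL = true := by decide +kernel

def a2e_7_r1_thrL1 : rowsOk stA2E a2e_7 a2e_7_m1 true .thrL = true := by decide +kernel

def a2e_7_r1_threeE0 : rowsOk stA2E a2e_7 a2e_7_m1 false .threeE = true := by decide +kernel

def a2e_7_r1_threeE1 : rowsOk stA2E a2e_7 a2e_7_m1 true .threeE = true := by decide +kernel

def a2e_7_r1_ring0 : rowsOk stA2E a2e_7 a2e_7_m1 false .ring = true := by decide +kernel

def a2e_7_r1_ring1 : rowsOk stA2E a2e_7 a2e_7_m1 true .ring = true := by decide +kernel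

def a2e_7_r2_one0 : rowsOk stA2E a2e_7 a2e_7_m2 false .one = true := by decide +kernel

def a2e_7_r2_one1 : rowsOk stA2E a2e_7 a2e_7_m2 true .one = true := by decide +kernel

def a2e_7_r2_two0 : rowsOk stA2E a2e_7 a2e_7_m2 false .two = true := by decide +kernel

def a2e_7_r2_two1 : rowsOk stA2E a2e_7 a2e_7_m2 true .two = true := by decide +kernel

def a2e_7_r2_twoE0 : rowsOk stA2E a2e_7 a2e_7_m2 false .twoE = true := by decide +kernel

def a2e_7_r2_twoE1 : rowsOk stA2E a2e_7 a2e_7_m2 true .twoE = true := by decide +kernel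

def a2e_7_r2_thrR0 : rowsOk stA2E a2e_7 a2e_7_m2 false .thrR = true := by decide +kernel

def a2e_7_r2_thrR1 : rowsOk stA2E a2e_7 a2e_7_m2 true .thrR = true := by decide +kernel

def a2e_7_r2_thrL0 : rowsOk stA2E a2e_7 a2e_7_m2 false .thrL = true := by decide +kernel

def a2e_7_r2_thrL1 : rowsOk stA2E a2e_7 a2e_7_m2 true .thrL = true := by decide +kernel

def a2e_7_r2_threeE0 : rowsOk stA2E a2e_7 a2e_7_m2 false .threeE = true := by decide +kernel

def a2e_7_r2_threeE1 : rowsOk stA2E a2e_7 a2e_7_m2 true .threeE = true := by decide +kernel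

def a2e_7_r2_ring0 : rowsOk stA2E a2e_7 a2e_7_m2 false .ring = true := by decide +kernel

def a2e_7_r2_ring1 : rowsOk stA2E a2e_7 a2e_7_m2 true .ring = true := by decide +kernel

theorem a2e_7_r0 : allRows stA2E a2e_7 a2e_7_m0 = true := by
  refine allRows_of fun P => ?_
  cases P
  exacts [⟨a2e_7_r0_one0, a2e_7_r0_one1⟩,
    ⟨a2e_7_r0_two0, a2e_7_r0_two1⟩,
    ⟨a2e_7_r0_twoE0, a2e_7_r0_twoE1⟩,
    ⟨a2e_7_r0_thrR0, a2e_7_r0_thrR1⟩,
    ⟨a2e_7_r0_thrL0, a2e_7_r0_thrL1⟩,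
    ⟨a2e_7_r0_threeE0, a2e_7_r0_threeE1⟩,
    ⟨a2e_7_r0_ring0, a2e_7_r0_ring1⟩]

theorem a2e_7_r1 : allRows stA2E a2e_7 a2e_7_m1 = true := by
  refine allRows_of fun P => ?_
  cases P
  exacts [⟨a2e_7_r1_one0, a2e_7_r1_one1⟩,
    ⟨a2e_7_r1_two0, a2e_7_r1_two1⟩,
    ⟨a2e_7_r1_twoE0, a2e_7_r1_twoE1⟩,
    ⟨a2e_7_r1_thrR0, a2e_7_r1_thrR1⟩,
    ⟨a2e_7_r1_thrL0, a2e_7_r1_thrL1⟩,
    ⟨a2e_7_r1_threeE0, a2e_7_r1_threeE1⟩,
    ⟨a2e_7_r1_ring0, a2e_7_r1_ring1⟩]

theorem a2e_7_r2 : allRows stA2E a2e_7 a2e_7_m2 = true := by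
  refine allRows_of fun P => ?_
  cases P
  exacts [⟨a2e_7_r2_one0, a2e_7_r2_one1⟩,
    ⟨a2e_7_r2_two0, a2e_7_r2_two1⟩,
    ⟨a2e_7_r2_twoE0, a2e_7_r2_twoE1⟩,
    ⟨a2e_7_r2_thrR0, a2e_7_r2_thrR1⟩,
    ⟨a2e_7_r2_thrL0, a2e_7_r2_thrL1⟩,
    ⟨a2e_7_r2_threeE0, a2e_7_r2_threeE1⟩,
    ⟨a2e_7_r2_ring0, a2e_7_r2_ring1⟩]

theorem a2e_7_ok : a2e_7.ok stA2E = true := by
  have h : (PC.all.all fun P => PC.all.all fun Q => pairOk stA2E a2e_7 P Q) = true := by decide +kernel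
  have d0 : mdOk stA2E a2e_7_m0.md = true := by decide +kernel
  have d1 : mdOk stA2E a2e_7_m1.md = true := by decide +kernel
  have d2 : mdOk stA2E a2e_7_m2.md = true := by decide +kernel
  unfold Piece.ok
  rw [h, Bool.true_and]
  show List.all [a2e_7_m0, a2e_7_m1, a2e_7_m2] _ = true
  rw [List.all_eq_true]
  intro m hm
  simp only [List.mem_cons, List.not_mem_nil, or_false] at hm
  rcases hm with rfl | rfl | rfl
  · rw [a2e_7_r0, d0]; rfl
  · rw [a2e_7_r1, d1]; rfl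
  · rw [a2e_7_r2, d2]; rfl

end OR

end Pool.Agent.Work.MP_b30479_gt.G2
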