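import Pool.Agent.Work.MP_b30479_gt.G2.ORows
import Pool.Agent.Work.NumU.TreeS

/-!
# Cells of the tables check by check
-/

namespace Pool.Agent.Work.MP_b30479_gt.G2

open NumU

namespace OR

/-- the void check -/
def ckd : Ck := (true, [], [])

/-- one check with its certificate -/
def ck1 (x : Ck) (c : ℕ) : Bool := cond x.1 true (chkT x.2.1 40 c x.2.2)

theorem ck1_of {x : Ck} {c c' : ℕ} (hc : c = c') (h : chkT x.2.1 40 c' x.2.2 = true) :
    ck1 x c = true := by
  subst hc
  unfold ck1
  rw [h]
  cases x.1 <;> rfl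

theorem ckAll_of : ∀ {l : List Ck} {cs : List ℕ}, l.length ≤ cs.length →
    (∀ k < l.length, ck1 (l.getD k ckd) (cs.getD k 0) = true) → ckAll l cs = true
  | [], _, _, _ => rfl
  | _ :: _, [], hl, _ => absurd hl (by simp)
  | x :: xs, c :: cs, hl, h => by
    have h0 : ck1 x c = true := h 0 (Nat.succ_pos _)
    have h1 : ckAll xs cs = true := ckAll_of (Nat.le_of_succ_le_succ hl)
      fun k hk => h (k + 1) (Nat.succ_lt_succ hk)
    unfold ckAll
    rw [h1, Bool.and_true]
    exact h0

theorem cellOk_of {S : Stage} {p : Piece} {m : Mode} {side : Bool} {P : PC} {b : Bin} {e : Ent}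
    (n : ℕ) (hn : (cks S p m side P b e.g).length = n) (hl : Nat.ble n e.c.length = true)
    (h : ∀ k < n, ck1 ((cks S p m side P b e.g).getD k ckd) (e.c.getD k 0) = true) :
    cellOk S p m side P b e = true := by
  subst hn
  unfold cellOk
  rw [ckAll_of (Nat.le_of_ble_eq_true hl) h]
  cases (decide (1000000 ≤ e.g) || emp S p side P b) <;> rfl

end OR

end Pool.Agent.Work.MP_b30479_gt.G2
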