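import Pool.Agent.Work.MP_b30479_gt.G2.OA2n_1r0
import Pool.Agent.Work.MP_b30479_gt.G2.OA2n_1r1

namespace Pool.Agent.Work.MP_b30479_gt.G2

namespace OR

theorem a2n_1_r0 : allRows stA2 a2n_1 a2n_1_m0 = true := by
  refine allRows_of fun P => ?_
  cases P
  exacts [⟨a2n_1_r0_one0, a2n_1_r0_one1⟩,
    ⟨a2n_1_r0_two0, a2n_1_r0_two1⟩,
    ⟨a2n_1_r0_twoE0, a2n_1_r0_twoE1⟩,
    ⟨a2n_1_r0_thrR0, a2n_1_r0_thrR1⟩,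
    ⟨a2n_1_r0_thrL0, a2n_1_r0_thrL1⟩,
    ⟨a2n_1_r0_threeE0, a2n_1_r0_threeE1⟩,
    ⟨a2n_1_r0_ring0, a2n_1_r0_ring1⟩]

theorem a2n_1_r1 : allRows stA2 a2n_1 a2n_1_m1 = true := by
  refine allRows_of fun P => ?_
  cases P
  exacts [⟨a2n_1_r1_one0, a2n_1_r1_one1⟩,
    ⟨a2n_1_r1_two0, a2n_1_r1_two1⟩,
    ⟨a2n_1_r1_twoE0, a2n_1_r1_twoE1⟩,
    ⟨a2n_1_r1_thrR0, a2n_1_r1_thrR1⟩,
    ⟨a2n_1_r1_thrL0, a2n_1_r1_thrL1⟩,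
    ⟨a2n_1_r1_threeE0, a2n_1_r1_threeE1⟩,
    ⟨a2n_1_r1_ring0, a2n_1_r1_ring1⟩]

theorem a2n_1_r2 : allRows stA2 a2n_1 a2n_1_m2 = true := by
  refine allRows_of fun P => ?_
  cases P
  exacts [⟨a2n_1_r2_one0, a2n_1_r2_one1⟩,
    ⟨a2n_1_r2_two0, a2n_1_r2_two1⟩,
    ⟨a2n_1_r2_twoE0, a2n_1_r2_twoE1⟩,
    ⟨a2n_1_r2_thrR0, a2n_1_r2_thrR1⟩,
    ⟨a2n_1_r2_thrL0, a2n_1_r2_thrL1⟩,
    ⟨a2n_1_r2_threeE0, a2n_1_r2_threeE1⟩,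
    ⟨a2n_1_r2_ring0, a2n_1_r2_ring1⟩]

theorem a2n_1_r3 : allRows stA2 a2n_1 a2n_1_m3 = true := by
  refine allRows_of fun P => ?_
  cases P
  exacts [⟨a2n_1_r3_one0, a2n_1_r3_one1⟩,
    ⟨a2n_1_r3_two0, a2n_1_r3_two1⟩,
    ⟨a2n_1_r3_twoE0, a2n_1_r3_twoE1⟩,
    ⟨a2n_1_r3_thrR0, a2n_1_r3_thrR1⟩,
    ⟨a2n_1_r3_thrL0, a2n_1_r3_thrL1⟩,
    ⟨a2n_1_r3_threeE0, a2n_1_r3_threeE1⟩,
    ⟨a2n_1_r3_ring0, a2n_1_r3_ring1⟩]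

theorem a2n_1_r4 : allRows stA2 a2n_1 a2n_1_m4 = true := by
  refine allRows_of fun P => ?_
  cases P
  exacts [⟨a2n_1_r4_one0, a2n_1_r4_one1⟩,
    ⟨a2n_1_r4_two0, a2n_1_r4_two1⟩,
    ⟨a2n_1_r4_twoE0, a2n_1_r4_twoE1⟩,
    ⟨a2n_1_r4_thrR0, a2n_1_r4_thrR1⟩,
    ⟨a2n_1_r4_thrL0, a2n_1_r4_thrL1⟩,
    ⟨a2n_1_r4_threeE0, a2n_1_r4_threeE1⟩,
    ⟨a2n_1_r4_ring0, a2n_1_r4_ring1⟩]

theorem a2n_1_ok : a2n_1.ok stA2 = true := by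
  have h : (PC.all.all fun P => PC.all.all fun Q => pairOk stA2 a2n_1 P Q) = true := by decide +kernel
  have d0 : mdOk stA2 a2n_1_m0.md = true := by decide +kernel
  have d1 : mdOk stA2 a2n_1_m1.md = true := by decide +kernel
  have d2 : mdOk stA2 a2n_1_m2.md = true := by decide +kernel
  have d3 : mdOk stA2 a2n_1_m3.md = true := by decide +kernel
  have d4 : mdOk stA2 a2n_1_m4.md = true := by decide +kernel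
  unfold Piece.ok
  rw [h, Bool.true_and]
  show List.all [a2n_1_m0, a2n_1_m1, a2n_1_m2, a2n_1_m3, a2n_1_m4] _ = true
  rw [List.all_eq_true]
  intro m hm
  simp only [List.mem_cons, List.not_mem_nil, or_false] at hm
  rcases hm with rfl | rfl | rfl | rfl | rfl
  · rw [a2n_1_r0, d0]; rfl
  · rw [a2n_1_r1, d1]; rfl
  · rw [a2n_1_r2, d2]; rfl
  · rw [a2n_1_r3, d3]; rfl
  · rw [a2n_1_r4, d4]; rfl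

end OR

end Pool.Agent.Work.MP_b30479_gt.G2
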