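import Pool.Agent.Work.MP_b30479_gt.G2.OA2x_0d
import Pool.Agent.Work.MP_b30479_gt.G2.ORows
import Pool.Agent.Work.MP_b30479_gt.G2.OStA
import Pool.Agent.Work.MP_b30479_gt.G2.ORowS

namespace Pool.Agent.Work.MP_b30479_gt.G2

open NumU

namespace OR

set_option linter.defProp false

def a2x_0_r2_twoE0 : rowsOk stA2X a2x_0 a2x_0_m2 false .twoE = true := by decide +kernel

def a2x_0_r2_twoE1 : rowsOk stA2X a2x_0 a2x_0_m2 true .twoE = true := by decide +kernel

def a2x_0_r2_thrR0 : rowsOk stA2X a2x_0 a2x_0_m2 false .thrR = true := by decide +kernel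

def a2x_0_r2_thrR1 : rowsOk stA2X a2x_0 a2x_0_m2 true .thrR = true := by decide +kernel

def a2x_0_r2_thrL0 : rowsOk stA2X a2x_0 a2x_0_m2 false .thrL = true := by decide +kernel

def a2x_0_r2_thrL1 : rowsOk stA2X a2x_0 a2x_0_m2 true .thrL = true := by decide +kernel

def a2x_0_r2_threeE0 : rowsOk stA2X a2x_0 a2x_0_m2 false .threeE = true := by decide +kernel

def a2x_0_r2_threeE1 : rowsOk stA2X a2x_0 a2x_0_m2 true .threeE = true := by decide +kernel

def a2x_0_r2_ring0 : rowsOk stA2X a2x_0 a2x_0_m2 false .ring = true := by decide +kernel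

def a2x_0_r2_ring1_0 : cellOk stA2X a2x_0 a2x_0_m2 true .ring ((stA2X.bins .ring).getD 0 b00)
    ((a2x_0_m2.g true .ring).getD 0 e00) = true := by decide +kernel

def a2x_0_r2_ring1_1 : cellOk stA2X a2x_0 a2x_0_m2 true .ring ((stA2X.bins .ring).getD 1 b00)
    ((a2x_0_m2.g true .ring).getD 1 e00) = true := by decide +kernel

def a2x_0_r2_ring1_2 : cellOk stA2X a2x_0 a2x_0_m2 true .ring ((stA2X.bins .ring).getD 2 b00)
    ((a2x_0_m2.g true .ring).getD 2 e00) = true := by decide +kernel

def a2x_0_r2_ring1_3 : cellOk stA2X a2x_0 a2x_0_m2 true .ring ((stA2X.bins .ring).getD 3 b00)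
    ((a2x_0_m2.g true .ring).getD 3 e00) = true := by decide +kernel

/-- check -/
def a2x_0_r2_ring1_4_x0 : Ck := (cks stA2X a2x_0 a2x_0_m2 true .ring
    ((stA2X.bins .ring).getD 4 b00)
    ((a2x_0_m2.g true .ring).getD 4 e00).g).getD 0 ckd

theorem a2x_0_r2_ring1_4_k0 : ck1 a2x_0_r2_ring1_4_x0 (((a2x_0_m2.g true .ring).getD 4 e00).c.getD 0 0) = true := by
  decide +kernel

/-- check -/
def a2x_0_r2_ring1_4_x1 : Ck := (cks stA2X a2x_0 a2x_0_m2 true .ring
    ((stA2X.bins .ring).getD 4 b00)
    ((a2x_0_m2.g true .ring).getD 4 e00).g).getD 1 ckd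

theorem a2x_0_r2_ring1_4_k1 : ck1 a2x_0_r2_ring1_4_x1 (((a2x_0_m2.g true .ring).getD 4 e00).c.getD 1 0) = true := by
  decide +kernel

/-- check -/
def a2x_0_r2_ring1_4_x2 : Ck := (cks stA2X a2x_0 a2x_0_m2 true .ring
    ((stA2X.bins .ring).getD 4 b00)
    ((a2x_0_m2.g true .ring).getD 4 e00).g).getD 2 ckd

theorem a2x_0_r2_ring1_4_k2 : ck1 a2x_0_r2_ring1_4_x2 (((a2x_0_m2.g true .ring).getD 4 e00).c.getD 2 0) = true := by
  decide +kernel

/-- check -/
def a2x_0_r2_ring1_4_x3 : Ck := (cks stA2X a2x_0 a2x_0_m2 true .ring
    ((stA2X.bins .ring).getD 4 b00)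
    ((a2x_0_m2.g true .ring).getD 4 e00).g).getD 3 ckd

theorem a2x_0_r2_ring1_4_k3 : ck1 a2x_0_r2_ring1_4_x3 (((a2x_0_m2.g true .ring).getD 4 e00).c.getD 3 0) = true := by
  decide +kernel

/-- check -/
def a2x_0_r2_ring1_4_x4 : Ck := (cks stA2X a2x_0 a2x_0_m2 true .ring
    ((stA2X.bins .ring).getD 4 b00)
    ((a2x_0_m2.g true .ring).getD 4 e00).g).getD 4 ckd

theorem a2x_0_r2_ring1_4_k4_q1 : runT a2x_0_r2_ring1_4_x4.2.1 39
    2344641237674835438935497727885536064612739697054508907110407705924197105594466971523700568388215027485815561837888756369779664261953170693458851290924244135846252537046476261433226885082791902419471796479510079009800967359726451435913104248525898764841774457894423487094731485549185143931226725133636125912663869256944565278143502611493839592242833451749419286834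
    (NumI.setL 2 (a2x_0_r2_ring1_4_x4.2.2)) =
    91192114019710982831301762502618582300901637490449961895515997051301639484543832254062490706161788486130527968983063785040905815592859934643045202607094321280279664829611959827507218058100853229762496503537504205480989277326763757694169030668609219292203712905199230772081354407730576583164004504451107 := by
  decide +kernel

theorem a2x_0_r2_ring1_4_k4_q2 : runT a2x_0_r2_ring1_4_x4.2.1 38
    5699507126231936426956360156413661393806352343153122618469749815706352467783989515878905669135111780383157998061441486565056613474553745915190325162943395080017479051850747489219201128631303326860156031471094012842561829832922734855885564416788076205762732056574951923255084650483161036447750281528194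
    (NumI.setL 2 (NumI.setR 2 (a2x_0_r2_ring1_4_x4.2.2))) =
    5435473562461792399364814907468472856336929648545382135839223685938217609199513927344232243666755466826589582501832472386414159273675676264944386637633700447099188854075191010684205177909186674938350707503408444254457311470911726814160885254657818036806804710936500476126751566394005810210943491 := by
  decide +kernel

theorem a2x_0_r2_ring1_4_k4_q3 : runT a2x_0_r2_ring1_4_x4.2.1 37
    339717097653862024960300931716779553521058103034086383489951480371138600574969620459014515229172216676661848906364529524150884954604729766559024164852106277943699303379699438167762823619324167183646919218963027765903581966931982925885055328416113627300425294433531279757921972899625363138183968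
    (NumI.setL 2 (NumI.setR 2 (NumI.setR 2 (a2x_0_r2_ring1_4_x4.2.2)))) =
    294657612245429975095495470531463706663018612403193138395445898103322015181498878515059625130313219230784393352193016525067824485689610558707671327017494388881852041845321939015983299051223426992223326114988940995900372112521039170527025724905066685153595408581890593769788180 := by
  decide +kernel

theorem a2x_0_r2_ring1_4_k4_q4 : runT a2x_0_r2_ring1_4_x4.2.1 36
    18416100765339373443468466908216481666438663275199571149715368631457625948843679907191226570644576201924024584512063532816739030355600659919229457938593399305115752615332621188498956190701464187013957882186808812243773257032564948157939107806566667822099713036368162110611761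
    (NumI.setL 3 (NumI.setR 2 (NumI.setR 2 (NumI.setR 2 (a2x_0_r2_ring1_4_x4.2.2))))) =
    103781411492532933999701591937687614206418765176632944301767961831625072597397614280247042568058114281352869838901185798861142842779120716349746 := by
  decide +kernel

theorem a2x_0_r2_ring1_4_k4_q5 : runT a2x_0_r2_ring1_4_x4.2.1 36
    103781411492532933999701591937687614206418765176632944301767961831625072597397614280247042568058114281352869838901185798861142842779120716349745
    (NumI.setR 3 (NumI.setR 2 (NumI.setR 2 (NumI.setR 2 (a2x_0_r2_ring1_4_x4.2.2))))) =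
    1 := by
  decide +kernel

theorem a2x_0_r2_ring1_4_k4_c : chkT a2x_0_r2_ring1_4_x4.2.1 40
    37514259802797367022967963646168577033803835152872142513766523294787153689511471544379209094211440439773048989406220101916474628191250731095341620654787906173540040592743620182931630161324670438711548743672161264156815477755623222974609667976414380237468391326310775793515703768786962302899627602138178014602621908111113044450296041783901433475885335227990708589346
    a2x_0_r2_ring1_4_x4.2.2 = true :=
  chkT_of (runT_split rfl rfl rfl
        a2x_0_r2_ring1_4_k4_q1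
        (runT_split rfl rfl rfl
          a2x_0_r2_ring1_4_k4_q2
          (runT_split rfl rfl rfl
            a2x_0_r2_ring1_4_k4_q3
            (runT_split rfl rfl rfl
              a2x_0_r2_ring1_4_k4_q4
              a2x_0_r2_ring1_4_k4_q5))))

theorem a2x_0_r2_ring1_4_k4 : ck1 a2x_0_r2_ring1_4_x4 (((a2x_0_m2.g true .ring).getD 4 e00).c.getD 4 0) = true :=
  ck1_of (by decide +kernel) a2x_0_r2_ring1_4_k4_c

/-- check -/
def a2x_0_r2_ring1_4_x5 : Ck := (cks stA2X a2x_0 a2x_0_m2 true .ring
    ((stA2X.bins .ring).getD 4 b00)
    ((a2x_0_m2.g true .ring).getD 4 e00).g).getD 5 ckd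

theorem a2x_0_r2_ring1_4_k5_q1 : runT a2x_0_r2_ring1_4_x5.2.1 39
    313265994945862806788542253112494864612788755851304953562711186900120232142610011380280535659553736874345873628394967371791819188187180501106383711173973279644653162565439109939301311831922875011726401061290561094355724418
    (NumI.setL 2 (a2x_0_r2_ring1_4_x5.2.2)) =
    76480955797329786813608948513792691555856629846509998428396285864287166050441897309638802651258236541588348053807365081003862106491010864527925710735833320225745401016952907700024734333965545657159765884104140892176691 := by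
  decide +kernel

theorem a2x_0_r2_ring1_4_k5_q2 : runT a2x_0_r2_ring1_4_x5.2.1 38
    4780059737333111675850559282112043222241039365406874901774767866517947878152618581852425165703639783849271753362960317562741381655688179032995356920989582514109087563559556731251545895872846603572485367756508805761043
    (NumI.setL 2 (NumI.setR 2 (a2x_0_r2_ring1_4_x5.2.2))) =
    4558620202382194209909972459899943563691176762968897725844161860006282690193766195156502881721153053139945748675308530390492803245247057946200711174954969896420562327918583613635583778260084727833257072216519171 := by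
  decide +kernel

theorem a2x_0_r2_ring1_4_k5_q3 : runT a2x_0_r2_ring1_4_x5.2.1 37
    284913762648887138119373278743746472730698547685556107865260116250392668137110387197281430107572065821246609292206783149405800202827941121637544448434685618526285145494911475852223986141255295489578567013532448
    (NumI.setL 2 (NumI.setR 2 (NumI.setR 2 (a2x_0_r2_ring1_4_x5.2.2)))) =
    247123296347954242886136160282708398106941416893334816673160576417499791881524073830918150375724669424003414063869043343883193273823694059742419160507596198021640654294172712590105233291088660 := by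
  decide +kernel

theorem a2x_0_r2_ring1_4_k5_q4 : runT a2x_0_r2_ring1_4_x5.2.1 37
    247123296347954242886136160282708398106941416893334816673160576417499791881524073830918150375724669424003414063869043343883193273823694059742419160507596198021640654294172712590105233291088659
    (NumI.setR 2 (NumI.setR 2 (NumI.setR 2 (a2x_0_r2_ring1_4_x5.2.2)))) =
    1 := by
  decide +kernel

theorem a2x_0_r2_ring1_4_k5_c : chkT a2x_0_r2_ring1_4_x5.2.1 40
    5012255919133804908616676049799917833804620093620879257003378990401923714281760182084488570552859789989533978054319477948669107010994888017702139378783572474314450601047025759028820989310766000187622416980648977509691590690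
    a2x_0_r2_ring1_4_x5.2.2 = true :=
  chkT_of (runT_split rfl rfl rfl
        a2x_0_r2_ring1_4_k5_q1
        (runT_split rfl rfl rfl
          a2x_0_r2_ring1_4_k5_q2
          (runT_split rfl rfl rfl
            a2x_0_r2_ring1_4_k5_q3
            a2x_0_r2_ring1_4_k5_q4)))

theorem a2x_0_r2_ring1_4_k5 : ck1 a2x_0_r2_ring1_4_x5 (((a2x_0_m2.g true .ring).getD 4 e00).c.getD 5 0) = true :=
  ck1_of (by decide +kernel) a2x_0_r2_ring1_4_k5_c

def a2x_0_r2_ring1_4 : cellOk stA2X a2x_0 a2x_0_m2 true .ring ((stA2X.bins .ring).getD 4 b00)
    ((a2x_0_m2.g true .ring).getD 4 e00) = true :=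
  cellOk_of 6 (by decide +kernel) (by decide +kernel) fun k hk => by
    interval_cases k
    exacts [a2x_0_r2_ring1_4_k0, a2x_0_r2_ring1_4_k1, a2x_0_r2_ring1_4_k2, a2x_0_r2_ring1_4_k3, a2x_0_r2_ring1_4_k4, a2x_0_r2_ring1_4_k5]

def a2x_0_r2_ring1_5 : cellOk stA2X a2x_0 a2x_0_m2 true .ring ((stA2X.bins .ring).getD 5 b00)
    ((a2x_0_m2.g true .ring).getD 5 e00) = true := by decide +kernel

theorem a2x_0_r2_ring1 : rowsOk stA2X a2x_0 a2x_0_m2 true .ring = true := by
  refine rowsOk_of fun i hi => ?_
  have hi : i < 6 := hi
  interval_cases i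
  exacts [a2x_0_r2_ring1_0, a2x_0_r2_ring1_1, a2x_0_r2_ring1_2, a2x_0_r2_ring1_3, a2x_0_r2_ring1_4, a2x_0_r2_ring1_5]

def a2x_0_r3_one0 : rowsOk stA2X a2x_0 a2x_0_m3 false .one = true := by decide +kernel

def a2x_0_r3_one1 : rowsOk stA2X a2x_0 a2x_0_m3 true .one = true := by decide +kernel

def a2x_0_r3_two0_0 : cellOk stA2X a2x_0 a2x_0_m3 false .two ((stA2X.bins .two).getD 0 b00)
    ((a2x_0_m3.g false .two).getD 0 e00) = true := by decide +kernel

def a2x_0_r3_two0_1 : cellOk stA2X a2x_0 a2x_0_m3 false .two ((stA2X.bins .two).getD 1 b00)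
    ((a2x_0_m3.g false .two).getD 1 e00) = true := by decide +kernel

def a2x_0_r3_two0_2 : cellOk stA2X a2x_0 a2x_0_m3 false .two ((stA2X.bins .two).getD 2 b00)
    ((a2x_0_m3.g false .two).getD 2 e00) = true := by decide +kernel

def a2x_0_r3_two0_3 : cellOk stA2X a2x_0 a2x_0_m3 false .two ((stA2X.bins .two).getD 3 b00)
    ((a2x_0_m3.g false .two).getD 3 e00) = true := by decide +kernel

def a2x_0_r3_two0_4 : cellOk stA2X a2x_0 a2x_0_m3 false .two ((stA2X.bins .two).getD 4 b00)
    ((a2x_0_m3.g false .two).getD 4 e00) = true := by decide +kernel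

def a2x_0_r3_two0_5 : cellOk stA2X a2x_0 a2x_0_m3 false .two ((stA2X.bins .two).getD 5 b00)
    ((a2x_0_m3.g false .two).getD 5 e00) = true := by decide +kernel

theorem a2x_0_r3_two0 : rowsOk stA2X a2x_0 a2x_0_m3 false .two = true := by
  refine rowsOk_of fun i hi => ?_
  have hi : i < 6 := hi
  interval_cases i
  exacts [a2x_0_r3_two0_0, a2x_0_r3_two0_1, a2x_0_r3_two0_2, a2x_0_r3_two0_3, a2x_0_r3_two0_4, a2x_0_r3_two0_5]

def a2x_0_r3_two1 : rowsOk stA2X a2x_0 a2x_0_m3 true .two = true := by decide +kernel

def a2x_0_r3_twoE0 : rowsOk stA2X a2x_0 a2x_0_m3 false .twoE = true := by decide +kernel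

def a2x_0_r3_twoE1 : rowsOk stA2X a2x_0 a2x_0_m3 true .twoE = true := by decide +kernel

def a2x_0_r3_thrR0 : rowsOk stA2X a2x_0 a2x_0_m3 false .thrR = true := by decide +kernel

def a2x_0_r3_thrR1 : rowsOk stA2X a2x_0 a2x_0_m3 true .thrR = true := by decide +kernel

def a2x_0_r3_thrL0 : rowsOk stA2X a2x_0 a2x_0_m3 false .thrL = true := by decide +kernel

def a2x_0_r3_thrL1 : rowsOk stA2X a2x_0 a2x_0_m3 true .thrL = true := by decide +kernel

def a2x_0_r3_threeE0 : rowsOk stA2X a2x_0 a2x_0_m3 false .threeE = true := by decide +kernel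

def a2x_0_r3_threeE1 : rowsOk stA2X a2x_0 a2x_0_m3 true .threeE = true := by decide +kernel

def a2x_0_r3_ring0 : rowsOk stA2X a2x_0 a2x_0_m3 false .ring = true := by decide +kernel

def a2x_0_r3_ring1 : rowsOk stA2X a2x_0 a2x_0_m3 true .ring = true := by decide +kernel

def a2x_0_r4_one0 : rowsOk stA2X a2x_0 a2x_0_m4 false .one = true := by decide +kernel

def a2x_0_r4_one1 : rowsOk stA2X a2x_0 a2x_0_m4 true .one = true := by decide +kernel

def a2x_0_r4_two0 : rowsOk stA2X a2x_0 a2x_0_m4 false .two = true := by decide +kernel

def a2x_0_r4_two1 : rowsOk stA2X a2x_0 a2x_0_m4 true .two = true := by decide +kernel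

def a2x_0_r4_twoE0 : rowsOk stA2X a2x_0 a2x_0_m4 false .twoE = true := by decide +kernel

def a2x_0_r4_twoE1 : rowsOk stA2X a2x_0 a2x_0_m4 true .twoE = true := by decide +kernel

def a2x_0_r4_thrR0 : rowsOk stA2X a2x_0 a2x_0_m4 false .thrR = true := by decide +kernel

def a2x_0_r4_thrR1 : rowsOk stA2X a2x_0 a2x_0_m4 true .thrR = true := by decide +kernel

def a2x_0_r4_thrL0 : rowsOk stA2X a2x_0 a2x_0_m4 false .thrL = true := by decide +kernel

def a2x_0_r4_thrL1 : rowsOk stA2X a2x_0 a2x_0_m4 true .thrL = true := by decide +kernel

def a2x_0_r4_threeE0 : rowsOk stA2X a2x_0 a2x_0_m4 false .threeE = true := by decide +kernel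

def a2x_0_r4_threeE1 : rowsOk stA2X a2x_0 a2x_0_m4 true .threeE = true := by decide +kernel

def a2x_0_r4_ring0 : rowsOk stA2X a2x_0 a2x_0_m4 false .ring = true := by decide +kernel

def a2x_0_r4_ring1 : rowsOk stA2X a2x_0 a2x_0_m4 true .ring = true := by decide +kernel

end OR

end Pool.Agent.Work.MP_b30479_gt.G2
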