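import Pool.Agent.Work.MP_b30479_gt.G2.OA2x_10r0
import Pool.Agent.Work.MP_b30479_gt.G2.OA2x_10r1

namespace Pool.Agent.Work.MP_b30479_gt.G2

namespace OR

theorem a2x_10_r0 : allRows stA2X a2x_10 a2x_10_m0 = true := by
  refine allRows_of fun P => ?_
  cases P
  exacts [⟨a2x_10_r0_one0, a2x_10_r0_one1⟩,
    ⟨a2x_10_r0_two0, a2x_10_r0_two1⟩,
    ⟨a2x_10_r0_twoE0, a2x_10_r0_twoE1⟩,
    ⟨a2x_10_r0_thrR0, a2x_10_r0_thrR1⟩,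
    ⟨a2x_10_r0_thrL0, a2x_10_r0_thrL1⟩,
    ⟨a2x_10_r0_threeE0, a2x_10_r0_threeE1⟩,
    ⟨a2x_10_r0_ring0, a2x_10_r0_ring1⟩]

theorem a2x_10_r1 : allRows stA2X a2x_10 a2x_10_m1 = true := by
  refine allRows_of fun P => ?_
  cases P
  exacts [⟨a2x_10_r1_one0, a2x_10_r1_one1⟩,
    ⟨a2x_10_r1_two0, a2x_10_r1_two1⟩,
    ⟨a2x_10_r1_twoE0, a2x_10_r1_twoE1⟩,
    ⟨a2x_10_r1_thrR0, a2x_10_r1_thrR1⟩,
    ⟨a2x_10_r1_thrL0, a2x_10_r1_thrL1⟩,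
    ⟨a2x_10_r1_threeE0, a2x_10_r1_threeE1⟩,
    ⟨a2x_10_r1_ring0, a2x_10_r1_ring1⟩]

theorem a2x_10_r2 : allRows stA2X a2x_10 a2x_10_m2 = true := by
  refine allRows_of fun P => ?_
  cases P
  exacts [⟨a2x_10_r2_one0, a2x_10_r2_one1⟩,
    ⟨a2x_10_r2_two0, a2x_10_r2_two1⟩,
    ⟨a2x_10_r2_twoE0, a2x_10_r2_twoE1⟩,
    ⟨a2x_10_r2_thrR0, a2x_10_r2_thrR1⟩,
    ⟨a2x_10_r2_thrL0, a2x_10_r2_thrL1⟩,
    ⟨a2x_10_r2_threeE0, a2x_10_r2_threeE1⟩,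
    ⟨a2x_10_r2_ring0, a2x_10_r2_ring1⟩]

theorem a2x_10_r3 : allRows stA2X a2x_10 a2x_10_m3 = true := by
  refine allRows_of fun P => ?_
  cases P
  exacts [⟨a2x_10_r3_one0, a2x_10_r3_one1⟩,
    ⟨a2x_10_r3_two0, a2x_10_r3_two1⟩,
    ⟨a2x_10_r3_twoE0, a2x_10_r3_twoE1⟩,
    ⟨a2x_10_r3_thrR0, a2x_10_r3_thrR1⟩,
    ⟨a2x_10_r3_thrL0, a2x_10_r3_thrL1⟩,
    ⟨a2x_10_r3_threeE0, a2x_10_r3_threeE1⟩,
    ⟨a2x_10_r3_ring0, a2x_10_r3_ring1⟩]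

theorem a2x_10_r4 : allRows stA2X a2x_10 a2x_10_m4 = true := by
  refine allRows_of fun P => ?_
  cases P
  exacts [⟨a2x_10_r4_one0, a2x_10_r4_one1⟩,
    ⟨a2x_10_r4_two0, a2x_10_r4_two1⟩,
    ⟨a2x_10_r4_twoE0, a2x_10_r4_twoE1⟩,
    ⟨a2x_10_r4_thrR0, a2x_10_r4_thrR1⟩,
    ⟨a2x_10_r4_thrL0, a2x_10_r4_thrL1⟩,
    ⟨a2x_10_r4_threeE0, a2x_10_r4_threeE1⟩,
    ⟨a2x_10_r4_ring0, a2x_10_r4_ring1⟩]

theorem a2x_10_r5 : allRows stA2X a2x_10 a2x_10_m5 = true := by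
  refine allRows_of fun P => ?_
  cases P
  exacts [⟨a2x_10_r5_one0, a2x_10_r5_one1⟩,
    ⟨a2x_10_r5_two0, a2x_10_r5_two1⟩,
    ⟨a2x_10_r5_twoE0, a2x_10_r5_twoE1⟩,
    ⟨a2x_10_r5_thrR0, a2x_10_r5_thrR1⟩,
    ⟨a2x_10_r5_thrL0, a2x_10_r5_thrL1⟩,
    ⟨a2x_10_r5_threeE0, a2x_10_r5_threeE1⟩,
    ⟨a2x_10_r5_ring0, a2x_10_r5_ring1⟩]

theorem a2x_10_ok : a2x_10.ok stA2X = true := by
  have h : (PC.all.all fun P => PC.all.all fun Q => pairOk stA2X a2x_10 P Q) = true := by decide +kernel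
  have d0 : mdOk stA2X a2x_10_m0.md = true := by decide +kernel
  have d1 : mdOk stA2X a2x_10_m1.md = true := by decide +kernel
  have d2 : mdOk stA2X a2x_10_m2.md = true := by decide +kernel
  have d3 : mdOk stA2X a2x_10_m3.md = true := by decide +kernel
  have d4 : mdOk stA2X a2x_10_m4.md = true := by decide +kernel
  have d5 : mdOk stA2X a2x_10_m5.md = true := by decide +kernel
  unfold Piece.ok
  rw [h, Bool.true_and]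
  show List.all [a2x_10_m0, a2x_10_m1, a2x_10_m2, a2x_10_m3, a2x_10_m4, a2x_10_m5] _ = true
  rw [List.all_eq_true]
  intro m hm
  simp only [List.mem_cons, List.not_mem_nil, or_false] at hm
  rcases hm with rfl | rfl | rfl | rfl | rfl | rfl
  · rw [a2x_10_r0, d0]; rfl
  · rw [a2x_10_r1, d1]; rfl
  · rw [a2x_10_r2, d2]; rfl
  · rw [a2x_10_r3, d3]; rfl
  · rw [a2x_10_r4, d4]; rfl
  · rw [a2x_10_r5, d5]; rfl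

end OR

end Pool.Agent.Work.MP_b30479_gt.G2
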