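import Pool.Agent.Work.MP_b30479_gt.G2.OA2x_10d
import Pool.Agent.Work.MP_b30479_gt.G2.OStA

namespace Pool.Agent.Work.MP_b30479_gt.G2

namespace OR

set_option linter.defProp false

def a2x_10_r0_one0 : rowsOk stA2X a2x_10 a2x_10_m0 false .one = true := by decide +kernel

def a2x_10_r0_one1 : rowsOk stA2X a2x_10 a2x_10_m0 true .one = true := by decide +kernel

def a2x_10_r0_two0 : rowsOk stA2X a2x_10 a2x_10_m0 false .two = true := by decide +kernel

def a2x_10_r0_two1 : rowsOk stA2X a2x_10 a2x_10_m0 true .two = true := by decide +kernel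

def a2x_10_r0_twoE0 : rowsOk stA2X a2x_10 a2x_10_m0 false .twoE = true := by decide +kernel

def a2x_10_r0_twoE1 : rowsOk stA2X a2x_10 a2x_10_m0 true .twoE = true := by decide +kernel

def a2x_10_r0_thrR0 : rowsOk stA2X a2x_10 a2x_10_m0 false .thrR = true := by decide +kernel

def a2x_10_r0_thrR1 : rowsOk stA2X a2x_10 a2x_10_m0 true .thrR = true := by decide +kernel

def a2x_10_r0_thrL0 : rowsOk stA2X a2x_10 a2x_10_m0 false .thrL = true := by decide +kernel

def a2x_10_r0_thrL1 : rowsOk stA2X a2x_10 a2x_10_m0 true .thrL = true := by decide +kernel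

def a2x_10_r0_threeE0 : rowsOk stA2X a2x_10 a2x_10_m0 false .threeE = true := by decide +kernel

def a2x_10_r0_threeE1 : rowsOk stA2X a2x_10 a2x_10_m0 true .threeE = true := by decide +kernel

def a2x_10_r0_ring0 : rowsOk stA2X a2x_10 a2x_10_m0 false .ring = true := by decide +kernel

def a2x_10_r0_ring1 : rowsOk stA2X a2x_10 a2x_10_m0 true .ring = true := by decide +kernel

def a2x_10_r1_one0 : rowsOk stA2X a2x_10 a2x_10_m1 false .one = true := by decide +kernel

def a2x_10_r1_one1 : rowsOk stA2X a2x_10 a2x_10_m1 true .one = true := by decide +kernel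

def a2x_10_r1_two0 : rowsOk stA2X a2x_10 a2x_10_m1 false .two = true := by decide +kernel

def a2x_10_r1_two1 : rowsOk stA2X a2x_10 a2x_10_m1 true .two = true := by decide +kernel

def a2x_10_r1_twoE0 : rowsOk stA2X a2x_10 a2x_10_m1 false .twoE = true := by decide +kernel

def a2x_10_r1_twoE1 : rowsOk stA2X a2x_10 a2x_10_m1 true .twoE = true := by decide +kernel

def a2x_10_r1_thrR0 : rowsOk stA2X a2x_10 a2x_10_m1 false .thrR = true := by decide +kernel

def a2x_10_r1_thrR1 : rowsOk stA2X a2x_10 a2x_10_m1 true .thrR = true := by decide +kernel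

def a2x_10_r1_thrL0 : rowsOk stA2X a2x_10 a2x_10_m1 false .thrL = true := by decide +kernel

def a2x_10_r1_thrL1 : rowsOk stA2X a2x_10 a2x_10_m1 true .thrL = true := by decide +kernel

def a2x_10_r1_threeE0 : rowsOk stA2X a2x_10 a2x_10_m1 false .threeE = true := by decide +kernel

def a2x_10_r1_threeE1 : rowsOk stA2X a2x_10 a2x_10_m1 true .threeE = true := by decide +kernel

def a2x_10_r1_ring0 : rowsOk stA2X a2x_10 a2x_10_m1 false .ring = true := by decide +kernel

def a2x_10_r1_ring1 : rowsOk stA2X a2x_10 a2x_10_m1 true .ring = true := by decide +kernel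

def a2x_10_r2_one0 : rowsOk stA2X a2x_10 a2x_10_m2 false .one = true := by decide +kernel

def a2x_10_r2_one1 : rowsOk stA2X a2x_10 a2x_10_m2 true .one = true := by decide +kernel

def a2x_10_r2_two0 : rowsOk stA2X a2x_10 a2x_10_m2 false .two = true := by decide +kernel

def a2x_10_r2_two1 : rowsOk stA2X a2x_10 a2x_10_m2 true .two = true := by decide +kernel

def a2x_10_r2_twoE0 : rowsOk stA2X a2x_10 a2x_10_m2 false .twoE = true := by decide +kernel

def a2x_10_r2_twoE1 : rowsOk stA2X a2x_10 a2x_10_m2 true .twoE = true := by decide +kernel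

def a2x_10_r2_thrR0 : rowsOk stA2X a2x_10 a2x_10_m2 false .thrR = true := by decide +kernel

def a2x_10_r2_thrR1 : rowsOk stA2X a2x_10 a2x_10_m2 true .thrR = true := by decide +kernel

def a2x_10_r2_thrL0 : rowsOk stA2X a2x_10 a2x_10_m2 false .thrL = true := by decide +kernel

def a2x_10_r2_thrL1 : rowsOk stA2X a2x_10 a2x_10_m2 true .thrL = true := by decide +kernel

def a2x_10_r2_threeE0 : rowsOk stA2X a2x_10 a2x_10_m2 false .threeE = true := by decide +kernel

def a2x_10_r2_threeE1 : rowsOk stA2X a2x_10 a2x_10_m2 true .threeE = true := by decide +kernel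

def a2x_10_r2_ring0 : rowsOk stA2X a2x_10 a2x_10_m2 false .ring = true := by decide +kernel

def a2x_10_r2_ring1 : rowsOk stA2X a2x_10 a2x_10_m2 true .ring = true := by decide +kernel

def a2x_10_r3_one0 : rowsOk stA2X a2x_10 a2x_10_m3 false .one = true := by decide +kernel

def a2x_10_r3_one1 : rowsOk stA2X a2x_10 a2x_10_m3 true .one = true := by decide +kernel

def a2x_10_r3_two0 : rowsOk stA2X a2x_10 a2x_10_m3 false .two = true := by decide +kernel

end OR

end Pool.Agent.Work.MP_b30479_gt.G2
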