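import Pool.Agent.Work.MP_b30479_gt.G2.OA2x_1d
import Pool.Agent.Work.MP_b30479_gt.G2.ORows
import Pool.Agent.Work.MP_b30479_gt.G2.OStA

namespace Pool.Agent.Work.MP_b30479_gt.G2

namespace OR

set_option linter.defProp false

def a2x_1_r0_one0 : rowsOk stA2X a2x_1 a2x_1_m0 false .one = true := by decide +kernel

def a2x_1_r0_one1 : rowsOk stA2X a2x_1 a2x_1_m0 true .one = true := by decide +kernel

def a2x_1_r0_two0 : rowsOk stA2X a2x_1 a2x_1_m0 false .two = true := by decide +kernel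

def a2x_1_r0_two1 : rowsOk stA2X a2x_1 a2x_1_m0 true .two = true := by decide +kernel

def a2x_1_r0_twoE0 : rowsOk stA2X a2x_1 a2x_1_m0 false .twoE = true := by decide +kernel

def a2x_1_r0_twoE1 : rowsOk stA2X a2x_1 a2x_1_m0 true .twoE = true := by decide +kernel

def a2x_1_r0_thrR0 : rowsOk stA2X a2x_1 a2x_1_m0 false .thrR = true := by decide +kernel

def a2x_1_r0_thrR1 : rowsOk stA2X a2x_1 a2x_1_m0 true .thrR = true := by decide +kernel

def a2x_1_r0_thrL0 : rowsOk stA2X a2x_1 a2x_1_m0 false .thrL = true := by decide +kernel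

def a2x_1_r0_thrL1 : rowsOk stA2X a2x_1 a2x_1_m0 true .thrL = true := by decide +kernel

def a2x_1_r0_threeE0 : rowsOk stA2X a2x_1 a2x_1_m0 false .threeE = true := by decide +kernel

def a2x_1_r0_threeE1 : rowsOk stA2X a2x_1 a2x_1_m0 true .threeE = true := by decide +kernel

def a2x_1_r0_ring0 : rowsOk stA2X a2x_1 a2x_1_m0 false .ring = true := by decide +kernel

def a2x_1_r0_ring1_0 : cellOk stA2X a2x_1 a2x_1_m0 true .ring ((stA2X.bins .ring).getD 0 b00)
    ((a2x_1_m0.g true .ring).getD 0 e00) = true := by decide +kernel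

def a2x_1_r0_ring1_1 : cellOk stA2X a2x_1 a2x_1_m0 true .ring ((stA2X.bins .ring).getD 1 b00)
    ((a2x_1_m0.g true .ring).getD 1 e00) = true := by decide +kernel

def a2x_1_r0_ring1_2 : cellOk stA2X a2x_1 a2x_1_m0 true .ring ((stA2X.bins .ring).getD 2 b00)
    ((a2x_1_m0.g true .ring).getD 2 e00) = true := by decide +kernel

def a2x_1_r0_ring1_3 : cellOk stA2X a2x_1 a2x_1_m0 true .ring ((stA2X.bins .ring).getD 3 b00)
    ((a2x_1_m0.g true .ring).getD 3 e00) = true := by decide +kernel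

def a2x_1_r0_ring1_4 : cellOk stA2X a2x_1 a2x_1_m0 true .ring ((stA2X.bins .ring).getD 4 b00)
    ((a2x_1_m0.g true .ring).getD 4 e00) = true := by decide +kernel

def a2x_1_r0_ring1_5 : cellOk stA2X a2x_1 a2x_1_m0 true .ring ((stA2X.bins .ring).getD 5 b00)
    ((a2x_1_m0.g true .ring).getD 5 e00) = true := by decide +kernel

theorem a2x_1_r0_ring1 : rowsOk stA2X a2x_1 a2x_1_m0 true .ring = true := by
  refine rowsOk_of fun i hi => ?_
  have hi : i < 6 := hi
  interval_cases i
  exacts [a2x_1_r0_ring1_0, a2x_1_r0_ring1_1, a2x_1_r0_ring1_2, a2x_1_r0_ring1_3, a2x_1_r0_ring1_4, a2x_1_r0_ring1_5]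

def a2x_1_r1_one0 : rowsOk stA2X a2x_1 a2x_1_m1 false .one = true := by decide +kernel

def a2x_1_r1_one1 : rowsOk stA2X a2x_1 a2x_1_m1 true .one = true := by decide +kernel

def a2x_1_r1_two0 : rowsOk stA2X a2x_1 a2x_1_m1 false .two = true := by decide +kernel

def a2x_1_r1_two1 : rowsOk stA2X a2x_1 a2x_1_m1 true .two = true := by decide +kernel

def a2x_1_r1_twoE0 : rowsOk stA2X a2x_1 a2x_1_m1 false .twoE = true := by decide +kernel

def a2x_1_r1_twoE1 : rowsOk stA2X a2x_1 a2x_1_m1 true .twoE = true := by decide +kernel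

def a2x_1_r1_thrR0 : rowsOk stA2X a2x_1 a2x_1_m1 false .thrR = true := by decide +kernel

def a2x_1_r1_thrR1 : rowsOk stA2X a2x_1 a2x_1_m1 true .thrR = true := by decide +kernel

def a2x_1_r1_thrL0 : rowsOk stA2X a2x_1 a2x_1_m1 false .thrL = true := by decide +kernel

def a2x_1_r1_thrL1 : rowsOk stA2X a2x_1 a2x_1_m1 true .thrL = true := by decide +kernel

def a2x_1_r1_threeE0 : rowsOk stA2X a2x_1 a2x_1_m1 false .threeE = true := by decide +kernel

def a2x_1_r1_threeE1 : rowsOk stA2X a2x_1 a2x_1_m1 true .threeE = true := by decide +kernel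

def a2x_1_r1_ring0 : rowsOk stA2X a2x_1 a2x_1_m1 false .ring = true := by decide +kernel

def a2x_1_r1_ring1 : rowsOk stA2X a2x_1 a2x_1_m1 true .ring = true := by decide +kernel

def a2x_1_r2_one0 : rowsOk stA2X a2x_1 a2x_1_m2 false .one = true := by decide +kernel

def a2x_1_r2_one1 : rowsOk stA2X a2x_1 a2x_1_m2 true .one = true := by decide +kernel

def a2x_1_r2_two0_0 : cellOk stA2X a2x_1 a2x_1_m2 false .two ((stA2X.bins .two).getD 0 b00)
    ((a2x_1_m2.g false .two).getD 0 e00) = true := by decide +kernel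

def a2x_1_r2_two0_1 : cellOk stA2X a2x_1 a2x_1_m2 false .two ((stA2X.bins .two).getD 1 b00)
    ((a2x_1_m2.g false .two).getD 1 e00) = true := by decide +kernel

def a2x_1_r2_two0_2 : cellOk stA2X a2x_1 a2x_1_m2 false .two ((stA2X.bins .two).getD 2 b00)
    ((a2x_1_m2.g false .two).getD 2 e00) = true := by decide +kernel

def a2x_1_r2_two0_3 : cellOk stA2X a2x_1 a2x_1_m2 false .two ((stA2X.bins .two).getD 3 b00)
    ((a2x_1_m2.g false .two).getD 3 e00) = true := by decide +kernel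

def a2x_1_r2_two0_4 : cellOk stA2X a2x_1 a2x_1_m2 false .two ((stA2X.bins .two).getD 4 b00)
    ((a2x_1_m2.g false .two).getD 4 e00) = true := by decide +kernel

def a2x_1_r2_two0_5 : cellOk stA2X a2x_1 a2x_1_m2 false .two ((stA2X.bins .two).getD 5 b00)
    ((a2x_1_m2.g false .two).getD 5 e00) = true := by decide +kernel

theorem a2x_1_r2_two0 : rowsOk stA2X a2x_1 a2x_1_m2 false .two = true := by
  refine rowsOk_of fun i hi => ?_
  have hi : i < 6 := hi
  interval_cases i
  exacts [a2x_1_r2_two0_0, a2x_1_r2_two0_1, a2x_1_r2_two0_2, a2x_1_r2_two0_3, a2x_1_r2_two0_4, a2x_1_r2_two0_5]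

def a2x_1_r2_two1 : rowsOk stA2X a2x_1 a2x_1_m2 true .two = true := by decide +kernel

def a2x_1_r2_twoE0 : rowsOk stA2X a2x_1 a2x_1_m2 false .twoE = true := by decide +kernel

def a2x_1_r2_twoE1 : rowsOk stA2X a2x_1 a2x_1_m2 true .twoE = true := by decide +kernel

def a2x_1_r2_thrR0 : rowsOk stA2X a2x_1 a2x_1_m2 false .thrR = true := by decide +kernel

end OR

end Pool.Agent.Work.MP_b30479_gt.G2
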