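import Pool.Agent.Work.MP_b30479_gt.G2.OStA
import Pool.Agent.Work.MP_b30479_gt.G2.ORows

namespace Pool.Agent.Work.MP_b30479_gt.G2

namespace OR

/-- windows -/
def a2x_2_wp : PC → Win
  | .one => ⟨0, 0, 0, 0, 0, 0⟩
  | .two => ⟨-230, 550, -220, 680, 0, 530⟩
  | .twoE => ⟨0, 0, 0, 0, 0, 0⟩
  | .thrR => ⟨100, 700, 100, 850, 0, 480⟩
  | .thrL => ⟨100, 700, 100, 850, 0, 480⟩
  | .threeE => ⟨-20, 390, 230, 810, 20, 650⟩
  | .ring => ⟨390, 1200, 310, 1120, 0, 320⟩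

/-- windows -/
def a2x_2_wq : PC → Win
  | .one => ⟨0, 0, 0, 0, 0, 0⟩
  | .two => ⟨-230, 550, -220, 680, -320, 0⟩
  | .twoE => ⟨0, 0, 0, 0, 0, 0⟩
  | .thrR => ⟨100, 700, 100, 850, -270, 0⟩
  | .thrL => ⟨100, 700, 100, 850, -270, 0⟩
  | .threeE => ⟨0, 0, 0, 0, 0, 0⟩
  | .ring => ⟨390, 1200, 150, 1120, -650, 0⟩

/-- mode -/
def a2x_2_m0 : Mode where
  md := .V 300 1000
  lam := 1250
  ct := 1500
  gp := fun
    | .one => [e00, e00, e00, e00, e00, e00, e00, e00]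
    | .two => [⟨1281, [8]⟩, ⟨-55, [557443]⟩, ⟨-1046, [675938873734265067387034810418, 142706739, 8, 8, 2396422125654819, 14879939892003]⟩, ⟨-1835, [0, 0, 0, 0, 173051794664569689550175529546274, 2401919793574434]⟩, ⟨-1835, [0, 0, 0, 0, 8, 8]⟩, e00]
    | .twoE => [e00, e00, e00, e00, e00, e00]
    | .thrR => [⟨1143, [8]⟩, ⟨1143, [2178]⟩, ⟨-193, [36650029954, 2179, 8, 8, 143164179, 13]⟩, ⟨-1552, [0, 0, 0, 0, 40297166909026670293538, 13]⟩, ⟨-1973, [0, 0, 0, 0, 8, 8]⟩, ⟨-1973, [0, 0, 0, 0, 557698, 557698]⟩]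
    | .thrL => [⟨1143, [8]⟩, ⟨-193, [142837810]⟩, ⟨-193, [36650029954, 2179, 8, 8, 143164179, 13]⟩, ⟨-1552, [0, 0, 0, 0, 10314709195452037038420770, 13]⟩, ⟨-1973, [0, 0, 0, 0, 2178, 8]⟩, ⟨-1973, [0, 0, 0, 0, 2178, 2178]⟩]
    | .threeE => [⟨145, [8]⟩, ⟨145, [2178]⟩, ⟨-1215, [10283109891328648192464946, 559123, 8, 8, 143163698, 143163698]⟩, ⟨-1635, [0, 0, 0, 0, 2401917921735202, 36650357282]⟩, ⟨-1635, [0, 0, 0, 0, 8, 8]⟩, ⟨-2418, [0, 0, 0, 0, 8, 8]⟩]
    | .ring => [⟨80, [142771074]⟩, ⟨80, [143143555]⟩, ⟨-322, [619412315352609411, 2179, 8, 8, 2179, 8]⟩, ⟨-739, [0, 54903636099, 54093428752, 8, 40291834765029291557666, 13]⟩, ⟨-1873, [0, 0, 0, 0, 190387167609119492192566983000618935679920178, 8]⟩, ⟨-3353, [0, 0, 0, 0, 2178, 2178]⟩]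
  gq := fun
    | .one => [e00, e00, e00, e00, e00, e00, e00, e00]
    | .two => [⟨1599, [8]⟩, ⟨119, [2179]⟩, ⟨-1015, [157380579846240045106, 142837811, 8, 8, 9361019142962, 9361019142962]⟩, ⟨-1834, [0, 0, 0, 0, 614885970222985762, 9382498873890]⟩, ⟨-1834, [0, 0, 0, 0, 8, 8]⟩, e00]
    | .twoE => [e00, e00, e00, e00, e00, e00]
    | .thrR => [⟨-18, [8]⟩, ⟨-18, [557954]⟩, ⟨-18, [143143810, 2179, 8, 8, 559139, 559155]⟩, ⟨-1570, [0, 0, 0, 0, 9382498873890, 36650365474]⟩, ⟨-1971, [0, 0, 0, 0, 8, 8]⟩, ⟨-1971, [0, 0, 0, 0, 2178, 557698]⟩]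
    | .thrL => [⟨-18, [2178]⟩, ⟨-18, [2178]⟩, ⟨-18, [143143810, 2179, 8, 8, 559139, 559155]⟩, ⟨-1570, [0, 0, 0, 0, 9382398534434, 143164194]⟩, ⟨-1971, [0, 0, 0, 0, 2178, 8]⟩, ⟨-1971, [0, 0, 0, 0, 2178, 2178]⟩]
    | .threeE => [e00, e00, e00, e00, e00, e00]
    | .ring => [⟨81, [142705538]⟩, ⟨81, [142706739]⟩, ⟨-339, [10283109901632539146590258, 143163699, 8, 8, 143163699, 13]⟩, ⟨-708, [0, 36532945203, 2179, 8, 10314690894107823242949154, 13]⟩, ⟨-1699, [0, 0, 0, 0, 44307597684911772104797765092190258, 8]⟩, ⟨-3035, [0, 0, 0, 0, 557954, 36644684418]⟩]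

/-- mode -/
def a2x_2_m1 : Mode where
  md := .D
  lam := 1500
  ct := 11000
  gp := fun
    | .one => [e00, e00, e00, e00, e00, e00, e00, e00]
    | .two => [⟨-500, [157051833566123012642]⟩, ⟨-500, [157379283178087782450]⟩, e00, e00, e00, e00]
    | .twoE => [e00, e00, e00, e00, e00, e00]
    | .thrR => [⟨-665, [156978462812862120226]⟩, ⟨-665, [40168398053252106060082]⟩, e00, e00, e00, e00]
    | .thrL => [⟨-665, [157051833566123012642]⟩, ⟨-665, [2394221334202418]⟩, e00, e00, e00, e00]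
    | .threeE => [⟨-260, [9356729024802]⟩, ⟨-260, [612920641767770130]⟩, e00, e00, e00, e00]
    | .ring => [⟨-834, [40205269392837297340962]⟩, ⟨-834, [36566499891]⟩, e00, e00, e00, e00]
  gq := fun
    | .one => [e00, e00, e00, e00, e00, e00, e00, e00]
    | .two => [⟨-1270, [36566108194]⟩, ⟨-1270, [2401417284519986]⟩, e00, e00, e00, e00]
    | .twoE => [e00, e00, e00, e00, e00, e00]
    | .thrR => [⟨-1435, [142837810]⟩, ⟨-1435, [157050238930313029682]⟩, e00, e00, e00, e00]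
    | .thrL => [⟨-1435, [142772274]⟩, ⟨-1435, [2396420894328882]⟩, e00, e00, e00, e00]
    | .threeE => [e00, e00, e00, e00, e00, e00]
    | .ring => [⟨-1604, [13681144133809772440929294243567155608473344017816101421547810]⟩, ⟨-1604, [3499158401506089715805004808485373504672530870919761912566125347]⟩, e00, e00, e00, e00]

/-- mode -/
def a2x_2_m2 : Mode where
  md := .V 550 1000
  lam := 500
  ct := 1500
  gp := fun
    | .one => [e00, e00, e00, e00, e00, e00, e00, e00]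
    | .two => [⟨-143, [142837810]⟩, ⟨-143, [142706707]⟩, ⟨-680, [157051804948749322290, 142706739, 8, 8, 2394223102399267, 14879939892003]⟩, e00, e00, e00]
    | .twoE => [e00, e00, e00, e00, e00, e00]
    | .thrR => [⟨-198, [142837810]⟩, ⟨-198, [142837810]⟩, ⟨-735, [9382407669810, 559123, 8, 8, 143164179, 13]⟩, ⟨-735, [0, 0, 0, 0, 2395322731016738, 13]⟩, e00, e00]
    | .thrL => [⟨-198, [142837810]⟩, ⟨-198, [557954]⟩, ⟨-735, [9382407669810, 559123, 8, 8, 143164179, 13]⟩, ⟨-735, [0, 0, 0, 0, 36650357538, 13]⟩, e00, e00]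
    | .threeE => [⟨-63, [2178]⟩, ⟨-63, [2178]⟩, ⟨-600, [36642718338, 559123, 8, 8, 143163698, 143163698]⟩, e00, e00, e00]
    | .ring => [⟨-23, [557954]⟩, ⟨-23, [2179]⟩, ⟨-587, [687247627722523523, 2179, 8, 8, 2179, 8]⟩, ⟨-587, [0, 2179, 8, 8, 9361019142946, 13]⟩, e00, e00]
  gq := fun
    | .one => [e00, e00, e00, e00, e00, e00, e00, e00]
    | .two => [⟨-117, [2178]⟩, ⟨-117, [2179]⟩, ⟨-681, [614780417100449842, 142837811, 8, 8, 9361019142962, 9361019142962]⟩, e00, e00, e00]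
    | .twoE => [e00, e00, e00, e00, e00, e00]
    | .thrR => [⟨-172, [2178]⟩, ⟨-172, [557954]⟩, ⟨-736, [9381150427186, 2179, 8, 8, 143164195, 143164195]⟩, ⟨-736, [0, 0, 0, 0, 9356729397794, 36650365474]⟩, e00, e00]
    | .thrL => [⟨-172, [2178]⟩, ⟨-172, [557954]⟩, ⟨-736, [9381150427186, 2179, 8, 8, 143164195, 143164195]⟩, ⟨-736, [0, 0, 0, 0, 36650361634, 143164194]⟩, e00, e00]
    | .threeE => [e00, e00, e00, e00, e00, e00]
    | .ring => [⟨-24, [142705538]⟩, ⟨-24, [142706739]⟩, ⟨-561, [12442779579327935658129031426826427063014874710322, 143163699, 8, 8, 9352434422067, 13]⟩, ⟨-561, [0, 143163699, 8, 8, 674217363957596266894304948770, 13]⟩, e00, e00]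

/-- mode -/
def a2x_2_m3 : Mode where
  md := .V 150 1000
  lam := 1250
  ct := 1000
  gp := fun
    | .one => [e00, e00, e00, e00, e00, e00, e00, e00]
    | .two => [e00, e00, e00, e00, e00, ⟨-2991, [0, 0, 0, 0, 3509907546445966951090032105060103133067227327424223727080145698, 2401574475432578]⟩]
    | .twoE => [e00, e00, e00, e00, e00, e00]
    | .thrR => [e00, e00, e00, e00, e00, e00]
    | .thrL => [e00, e00, e00, e00, e00, e00]
    | .threeE => [e00, e00, e00, e00, e00, e00]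
    | .ring => [⟨1221, [216188571244698960770]⟩, ⟨1221, [3249613110870915]⟩, ⟨1221, [36913549955, 2179, 8, 8, 2179, 8]⟩, ⟨1221, [0, 2179, 8, 8, 143164194, 13]⟩, ⟨1221, [0, 0, 0, 0, 2178, 8]⟩, ⟨-2047, [0, 0, 0, 0, 8, 8]⟩]
  gq := fun
    | .one => [e00, e00, e00, e00, e00, e00, e00, e00]
    | .two => [e00, e00, e00, e00, e00, ⟨-2975, [0, 0, 0, 0, 9356628363298, 987938737720301355593911480882458785209364354537078192963408614017048484414082]⟩]
    | .twoE => [e00, e00, e00, e00, e00, e00]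
    | .thrR => [e00, e00, e00, e00, e00, e00]
    | .thrL => [e00, e00, e00, e00, e00, e00]
    | .threeE => [e00, e00, e00, e00, e00, e00]
    | .ring => [⟨1237, [9360923394434]⟩, ⟨1237, [9381055924243]⟩, ⟨1237, [2401888387696690, 559123, 8, 8, 143163699, 13]⟩, ⟨1237, [0, 559123, 8, 8, 157410808720646156834, 13]⟩, ⟨1237, [0, 0, 0, 0, 2178, 8]⟩, ⟨-2094, [0, 0, 0, 0, 8, 8]⟩]

/-- mode -/
def a2x_2_m4 : Mode where
  md := .V 450 1000
  lam := 500
  ct := 1500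
  gp := fun
    | .one => [e00, e00, e00, e00, e00, e00, e00, e00]
    | .two => [⟨310, [2178]⟩, e00, e00, e00, e00, e00]
    | .twoE => [e00, e00, e00, e00, e00, e00]
    | .thrR => [⟨255, [2178]⟩, ⟨255, [557954]⟩, e00, e00, e00, e00]
    | .thrL => [⟨255, [2178]⟩, e00, e00, e00, e00, e00]
    | .threeE => [e00, e00, e00, e00, e00, e00]
    | .ring => [e00, e00, e00, e00, ⟨-1049, [0, 0, 0, 0, 2640537238209936241379715122, 3539]⟩, e00]
  gq := fun
    | .one => [e00, e00, e00, e00, e00, e00, e00, e00]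
    | .two => [⟨345, [2178]⟩, e00, e00, e00, e00, e00]
    | .twoE => [e00, e00, e00, e00, e00, e00]
    | .thrR => [e00, e00, e00, e00, e00, e00]
    | .thrL => [e00, e00, e00, e00, e00, e00]
    | .threeE => [e00, e00, e00, e00, e00, e00]
    | .ring => [e00, e00, e00, e00, ⟨-1014, [0, 0, 0, 0, 12442928122267142747546721895915470823733504082722, 40171856791810003337858]⟩, e00]

/-- piece -/
def a2x_2 : Piece := ⟨7600, 7750, 0, 820, a2x_2_wp, a2x_2_wq, [a2x_2_m0, a2x_2_m1, a2x_2_m2, a2x_2_m3, a2x_2_m4]⟩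

set_option linter.defProp false

def a2x_2_r0_one0 : rowsOk stA2X a2x_2 a2x_2_m0 false .one = true := by decide +kernel

def a2x_2_r0_one1 : rowsOk stA2X a2x_2 a2x_2_m0 true .one = true := by decide +kernel

def a2x_2_r0_two0 : rowsOk stA2X a2x_2 a2x_2_m0 false .two = true := by decide +kernel

def a2x_2_r0_two1 : rowsOk stA2X a2x_2 a2x_2_m0 true .two = true := by decide +kernel

def a2x_2_r0_twoE0 : rowsOk stA2X a2x_2 a2x_2_m0 false .twoE = true := by decide +kernel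

def a2x_2_r0_twoE1 : rowsOk stA2X a2x_2 a2x_2_m0 true .twoE = true := by decide +kernel

def a2x_2_r0_thrR0 : rowsOk stA2X a2x_2 a2x_2_m0 false .thrR = true := by decide +kernel

def a2x_2_r0_thrR1 : rowsOk stA2X a2x_2 a2x_2_m0 true .thrR = true := by decide +kernel

def a2x_2_r0_thrL0 : rowsOk stA2X a2x_2 a2x_2_m0 false .thrL = true := by decide +kernel

def a2x_2_r0_thrL1 : rowsOk stA2X a2x_2 a2x_2_m0 true .thrL = true := by decide +kernel

def a2x_2_r0_threeE0 : rowsOk stA2X a2x_2 a2x_2_m0 false .threeE = true := by decide +kernel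

def a2x_2_r0_threeE1 : rowsOk stA2X a2x_2 a2x_2_m0 true .threeE = true := by decide +kernel

def a2x_2_r0_ring0 : rowsOk stA2X a2x_2 a2x_2_m0 false .ring = true := by decide +kernel

def a2x_2_r0_ring1 : rowsOk stA2X a2x_2 a2x_2_m0 true .ring = true := by decide +kernel

def a2x_2_r1_one0 : rowsOk stA2X a2x_2 a2x_2_m1 false .one = true := by decide +kernel

def a2x_2_r1_one1 : rowsOk stA2X a2x_2 a2x_2_m1 true .one = true := by decide +kernel

def a2x_2_r1_two0 : rowsOk stA2X a2x_2 a2x_2_m1 false .two = true := by decide +kernel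

def a2x_2_r1_two1 : rowsOk stA2X a2x_2 a2x_2_m1 true .two = true := by decide +kernel

def a2x_2_r1_twoE0 : rowsOk stA2X a2x_2 a2x_2_m1 false .twoE = true := by decide +kernel

def a2x_2_r1_twoE1 : rowsOk stA2X a2x_2 a2x_2_m1 true .twoE = true := by decide +kernel

def a2x_2_r1_thrR0 : rowsOk stA2X a2x_2 a2x_2_m1 false .thrR = true := by decide +kernel

def a2x_2_r1_thrR1 : rowsOk stA2X a2x_2 a2x_2_m1 true .thrR = true := by decide +kernel

def a2x_2_r1_thrL0 : rowsOk stA2X a2x_2 a2x_2_m1 false .thrL = true := by decide +kernel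

def a2x_2_r1_thrL1 : rowsOk stA2X a2x_2 a2x_2_m1 true .thrL = true := by decide +kernel

def a2x_2_r1_threeE0 : rowsOk stA2X a2x_2 a2x_2_m1 false .threeE = true := by decide +kernel

def a2x_2_r1_threeE1 : rowsOk stA2X a2x_2 a2x_2_m1 true .threeE = true := by decide +kernel

def a2x_2_r1_ring0 : rowsOk stA2X a2x_2 a2x_2_m1 false .ring = true := by decide +kernel

def a2x_2_r1_ring1 : rowsOk stA2X a2x_2 a2x_2_m1 true .ring = true := by decide +kernel

def a2x_2_r2_one0 : rowsOk stA2X a2x_2 a2x_2_m2 false .one = true := by decide +kernel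

def a2x_2_r2_one1 : rowsOk stA2X a2x_2 a2x_2_m2 true .one = true := by decide +kernel

def a2x_2_r2_two0 : rowsOk stA2X a2x_2 a2x_2_m2 false .two = true := by decide +kernel

def a2x_2_r2_two1 : rowsOk stA2X a2x_2 a2x_2_m2 true .two = true := by decide +kernel

def a2x_2_r2_twoE0 : rowsOk stA2X a2x_2 a2x_2_m2 false .twoE = true := by decide +kernel

def a2x_2_r2_twoE1 : rowsOk stA2X a2x_2 a2x_2_m2 true .twoE = true := by decide +kernel

def a2x_2_r2_thrR0 : rowsOk stA2X a2x_2 a2x_2_m2 false .thrR = true := by decide +kernel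

def a2x_2_r2_thrR1 : rowsOk stA2X a2x_2 a2x_2_m2 true .thrR = true := by decide +kernel

def a2x_2_r2_thrL0 : rowsOk stA2X a2x_2 a2x_2_m2 false .thrL = true := by decide +kernel

def a2x_2_r2_thrL1 : rowsOk stA2X a2x_2 a2x_2_m2 true .thrL = true := by decide +kernel

def a2x_2_r2_threeE0 : rowsOk stA2X a2x_2 a2x_2_m2 false .threeE = true := by decide +kernel

def a2x_2_r2_threeE1 : rowsOk stA2X a2x_2 a2x_2_m2 true .threeE = true := by decide +kernel

def a2x_2_r2_ring0 : rowsOk stA2X a2x_2 a2x_2_m2 false .ring = true := by decide +kernel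

def a2x_2_r2_ring1 : rowsOk stA2X a2x_2 a2x_2_m2 true .ring = true := by decide +kernel

def a2x_2_r3_one0 : rowsOk stA2X a2x_2 a2x_2_m3 false .one = true := by decide +kernel

def a2x_2_r3_one1 : rowsOk stA2X a2x_2 a2x_2_m3 true .one = true := by decide +kernel

def a2x_2_r3_two0 : rowsOk stA2X a2x_2 a2x_2_m3 false .two = true := by decide +kernel

def a2x_2_r3_two1 : rowsOk stA2X a2x_2 a2x_2_m3 true .two = true := by decide +kernel

def a2x_2_r3_twoE0 : rowsOk stA2X a2x_2 a2x_2_m3 false .twoE = true := by decide +kernel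

def a2x_2_r3_twoE1 : rowsOk stA2X a2x_2 a2x_2_m3 true .twoE = true := by decide +kernel

def a2x_2_r3_thrR0 : rowsOk stA2X a2x_2 a2x_2_m3 false .thrR = true := by decide +kernel

def a2x_2_r3_thrR1 : rowsOk stA2X a2x_2 a2x_2_m3 true .thrR = true := by decide +kernel

def a2x_2_r3_thrL0 : rowsOk stA2X a2x_2 a2x_2_m3 false .thrL = true := by decide +kernel

def a2x_2_r3_thrL1 : rowsOk stA2X a2x_2 a2x_2_m3 true .thrL = true := by decide +kernel

def a2x_2_r3_threeE0 : rowsOk stA2X a2x_2 a2x_2_m3 false .threeE = true := by decide +kernel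

def a2x_2_r3_threeE1 : rowsOk stA2X a2x_2 a2x_2_m3 true .threeE = true := by decide +kernel

def a2x_2_r3_ring0 : rowsOk stA2X a2x_2 a2x_2_m3 false .ring = true := by decide +kernel

def a2x_2_r3_ring1 : rowsOk stA2X a2x_2 a2x_2_m3 true .ring = true := by decide +kernel

def a2x_2_r4_one0 : rowsOk stA2X a2x_2 a2x_2_m4 false .one = true := by decide +kernel

def a2x_2_r4_one1 : rowsOk stA2X a2x_2 a2x_2_m4 true .one = true := by decide +kernel

def a2x_2_r4_two0 : rowsOk stA2X a2x_2 a2x_2_m4 false .two = true := by decide +kernel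

def a2x_2_r4_two1 : rowsOk stA2X a2x_2 a2x_2_m4 true .two = true := by decide +kernel

def a2x_2_r4_twoE0 : rowsOk stA2X a2x_2 a2x_2_m4 false .twoE = true := by decide +kernel

def a2x_2_r4_twoE1 : rowsOk stA2X a2x_2 a2x_2_m4 true .twoE = true := by decide +kernel

def a2x_2_r4_thrR0 : rowsOk stA2X a2x_2 a2x_2_m4 false .thrR = true := by decide +kernel

def a2x_2_r4_thrR1 : rowsOk stA2X a2x_2 a2x_2_m4 true .thrR = true := by decide +kernel

def a2x_2_r4_thrL0 : rowsOk stA2X a2x_2 a2x_2_m4 false .thrL = true := by decide +kernel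

def a2x_2_r4_thrL1 : rowsOk stA2X a2x_2 a2x_2_m4 true .thrL = true := by decide +kernel

def a2x_2_r4_threeE0 : rowsOk stA2X a2x_2 a2x_2_m4 false .threeE = true := by decide +kernel

def a2x_2_r4_threeE1 : rowsOk stA2X a2x_2 a2x_2_m4 true .threeE = true := by decide +kernel

def a2x_2_r4_ring0 : rowsOk stA2X a2x_2 a2x_2_m4 false .ring = true := by decide +kernel

def a2x_2_r4_ring1 : rowsOk stA2X a2x_2 a2x_2_m4 true .ring = true := by decide +kernel

theorem a2x_2_r0 : allRows stA2X a2x_2 a2x_2_m0 = true := by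
  refine allRows_of fun P => ?_
  cases P
  exacts [⟨a2x_2_r0_one0, a2x_2_r0_one1⟩,
    ⟨a2x_2_r0_two0, a2x_2_r0_two1⟩,
    ⟨a2x_2_r0_twoE0, a2x_2_r0_twoE1⟩,
    ⟨a2x_2_r0_thrR0, a2x_2_r0_thrR1⟩,
    ⟨a2x_2_r0_thrL0, a2x_2_r0_thrL1⟩,
    ⟨a2x_2_r0_threeE0, a2x_2_r0_threeE1⟩,
    ⟨a2x_2_r0_ring0, a2x_2_r0_ring1⟩]

theorem a2x_2_r1 : allRows stA2X a2x_2 a2x_2_m1 = true := by
  refine allRows_of fun P => ?_
  cases P
  exacts [⟨a2x_2_r1_one0, a2x_2_r1_one1⟩,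
    ⟨a2x_2_r1_two0, a2x_2_r1_two1⟩,
    ⟨a2x_2_r1_twoE0, a2x_2_r1_twoE1⟩,
    ⟨a2x_2_r1_thrR0, a2x_2_r1_thrR1⟩,
    ⟨a2x_2_r1_thrL0, a2x_2_r1_thrL1⟩,
    ⟨a2x_2_r1_threeE0, a2x_2_r1_threeE1⟩,
    ⟨a2x_2_r1_ring0, a2x_2_r1_ring1⟩]

theorem a2x_2_r2 : allRows stA2X a2x_2 a2x_2_m2 = true := by
  refine allRows_of fun P => ?_
  cases P
  exacts [⟨a2x_2_r2_one0, a2x_2_r2_one1⟩,
    ⟨a2x_2_r2_two0, a2x_2_r2_two1⟩,
    ⟨a2x_2_r2_twoE0, a2x_2_r2_twoE1⟩,
    ⟨a2x_2_r2_thrR0, a2x_2_r2_thrR1⟩,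
    ⟨a2x_2_r2_thrL0, a2x_2_r2_thrL1⟩,
    ⟨a2x_2_r2_threeE0, a2x_2_r2_threeE1⟩,
    ⟨a2x_2_r2_ring0, a2x_2_r2_ring1⟩]

theorem a2x_2_r3 : allRows stA2X a2x_2 a2x_2_m3 = true := by
  refine allRows_of fun P => ?_
  cases P
  exacts [⟨a2x_2_r3_one0, a2x_2_r3_one1⟩,
    ⟨a2x_2_r3_two0, a2x_2_r3_two1⟩,
    ⟨a2x_2_r3_twoE0, a2x_2_r3_twoE1⟩,
    ⟨a2x_2_r3_thrR0, a2x_2_r3_thrR1⟩,
    ⟨a2x_2_r3_thrL0, a2x_2_r3_thrL1⟩,
    ⟨a2x_2_r3_threeE0, a2x_2_r3_threeE1⟩,
    ⟨a2x_2_r3_ring0, a2x_2_r3_ring1⟩]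

theorem a2x_2_r4 : allRows stA2X a2x_2 a2x_2_m4 = true := by
  refine allRows_of fun P => ?_
  cases P
  exacts [⟨a2x_2_r4_one0, a2x_2_r4_one1⟩,
    ⟨a2x_2_r4_two0, a2x_2_r4_two1⟩,
    ⟨a2x_2_r4_twoE0, a2x_2_r4_twoE1⟩,
    ⟨a2x_2_r4_thrR0, a2x_2_r4_thrR1⟩,
    ⟨a2x_2_r4_thrL0, a2x_2_r4_thrL1⟩,
    ⟨a2x_2_r4_threeE0, a2x_2_r4_threeE1⟩,
    ⟨a2x_2_r4_ring0, a2x_2_r4_ring1⟩]

theorem a2x_2_ok : a2x_2.ok stA2X = true := by
  have h : (PC.all.all fun P => PC.all.all fun Q => pairOk stA2X a2x_2 P Q) = true := by decide +kernel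
  have d0 : mdOk stA2X a2x_2_m0.md = true := by decide +kernel
  have d1 : mdOk stA2X a2x_2_m1.md = true := by decide +kernel
  have d2 : mdOk stA2X a2x_2_m2.md = true := by decide +kernel
  have d3 : mdOk stA2X a2x_2_m3.md = true := by decide +kernel
  have d4 : mdOk stA2X a2x_2_m4.md = true := by decide +kernel
  unfold Piece.ok
  rw [h, Bool.true_and]
  show List.all [a2x_2_m0, a2x_2_m1, a2x_2_m2, a2x_2_m3, a2x_2_m4] _ = true
  rw [List.all_eq_true]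
  intro m hm
  simp only [List.mem_cons, List.not_mem_nil, or_false] at hm
  rcases hm with rfl | rfl | rfl | rfl | rfl
  · rw [a2x_2_r0, d0]; rfl
  · rw [a2x_2_r1, d1]; rfl
  · rw [a2x_2_r2, d2]; rfl
  · rw [a2x_2_r3, d3]; rfl
  · rw [a2x_2_r4, d4]; rfl

end OR

end Pool.Agent.Work.MP_b30479_gt.G2
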