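import Pool.Agent.Work.MP_b30479_gt.G2.OStA
import Pool.Agent.Work.MP_b30479_gt.G2.ORows

namespace Pool.Agent.Work.MP_b30479_gt.G2

namespace OR

/-- windows -/
def a2x_4_wp : PC → Win
  | .one => ⟨0, 0, 0, 0, 0, 0⟩
  | .two => ⟨-230, 550, -220, 680, 0, 530⟩
  | .twoE => ⟨0, 0, 0, 0, 0, 0⟩
  | .thrR => ⟨100, 700, 100, 850, 0, 480⟩
  | .thrL => ⟨100, 700, 100, 850, 0, 480⟩
  | .threeE => ⟨-20, 390, 230, 810, 20, 650⟩
  | .ring => ⟨390, 1200, 310, 1120, 0, 320⟩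

/-- windows -/
def a2x_4_wq : PC → Win
  | .one => ⟨0, 0, 0, 0, 0, 0⟩
  | .two => ⟨-230, 550, -220, 680, -320, 0⟩
  | .twoE => ⟨0, 0, 0, 0, 0, 0⟩
  | .thrR => ⟨100, 700, 100, 850, -270, 0⟩
  | .thrL => ⟨100, 700, 100, 850, -270, 0⟩
  | .threeE => ⟨0, 0, 0, 0, 0, 0⟩
  | .ring => ⟨390, 1200, 150, 1120, -650, 0⟩

/-- mode -/
def a2x_4_m0 : Mode where
  md := .V 300 1000
  lam := 1500
  ct := 2000
  gp := fun
    | .one => [e00, e00, e00, e00, e00, e00, e00, e00]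
    | .two => [⟨1120, [8]⟩, ⟨-182, [143135618]⟩, ⟨-1472, [613483611592688179, 142706739, 8, 8, 157051840162655449650, 9382498742834]⟩, ⟨-1854, [0, 0, 0, 0, 143140914, 559138]⟩, ⟨-1854, [0, 0, 0, 0, 8, 8]⟩, e00]
    | .twoE => [e00, e00, e00, e00, e00, e00]
    | .thrR => [⟨955, [8]⟩, ⟨-347, [36643768370]⟩, ⟨-1249, [559155, 2179, 8, 8, 143163699, 13]⟩, ⟨-2019, [0, 0, 0, 0, 36649904178, 13]⟩, ⟨-2019, [0, 0, 0, 0, 8, 8]⟩, ⟨-2019, [0, 0, 0, 0, 2178, 2178]⟩]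
    | .thrL => [⟨955, [8]⟩, ⟨-347, [143135618]⟩, ⟨-1249, [559155, 2179, 8, 8, 143163699, 13]⟩, ⟨-2019, [0, 0, 0, 0, 143145010, 13]⟩, ⟨-2019, [0, 0, 0, 0, 8, 8]⟩, ⟨-2019, [0, 0, 0, 0, 2178, 2178]⟩]
    | .threeE => [⟨58, [8]⟩, ⟨58, [142705282]⟩, ⟨-1614, [36532945683, 559123, 8, 8, 36650357298, 36650357298]⟩, ⟨-1614, [0, 0, 0, 0, 2178, 8]⟩, ⟨-1624, [0, 0, 0, 0, 8, 8]⟩, ⟨-2568, [0, 0, 0, 0, 8, 8]⟩]
    | .ring => [⟨-285, [142771074]⟩, ⟨-285, [557955]⟩, ⟨-685, [2179, 2179, 8, 8, 2179, 8]⟩, ⟨-1085, [0, 0, 0, 0, 9380882974755, 8]⟩, ⟨-2130, [0, 0, 0, 0, 40298752170919968581682, 8]⟩, ⟨-3545, [0, 0, 0, 0, 2178, 2178]⟩]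
  gq := fun
    | .one => [e00, e00, e00, e00, e00, e00, e00, e00]
    | .two => [⟨1441, [8]⟩, ⟨26, [36566479746]⟩, ⟨-1419, [2401554723799859, 142837811, 8, 8, 613484071422776114, 37992542770]⟩, ⟨-1819, [0, 0, 0, 0, 559154, 559138]⟩, ⟨-1819, [0, 0, 0, 0, 8, 8]⟩, e00]
    | .twoE => [e00, e00, e00, e00, e00, e00]
    | .thrR => [⟨1276, [8]⟩, ⟨-139, [142836354]⟩, ⟨-1184, [559155, 2179, 8, 8, 36650357554, 143164210]⟩, ⟨-1984, [0, 0, 0, 0, 143140914, 2178]⟩, ⟨-1984, [0, 0, 0, 0, 8, 8]⟩, ⟨-1984, [0, 0, 0, 0, 2178, 2178]⟩]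
    | .thrL => [⟨-139, [2178]⟩, ⟨-139, [143143810]⟩, ⟨-1184, [559155, 2179, 8, 8, 36650357554, 143164210]⟩, ⟨-1984, [0, 0, 0, 0, 559154, 2178]⟩, ⟨-1984, [0, 0, 0, 0, 8, 8]⟩, ⟨-1984, [0, 0, 0, 0, 8, 2178]⟩]
    | .threeE => [e00, e00, e00, e00, e00, e00]
    | .ring => [⟨-250, [142705538]⟩, ⟨-250, [36532945203]⟩, ⟨-632, [559155, 559123, 8, 8, 559155, 13]⟩, ⟨-1020, [0, 0, 0, 0, 9380614930738, 13]⟩, ⟨-1922, [0, 0, 0, 0, 2401893913667634, 8]⟩, ⟨-3224, [0, 0, 0, 0, 2178, 142705282]⟩]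

/-- mode -/
def a2x_4_m1 : Mode where
  md := .V 550 1000
  lam := 500
  ct := 1500
  gp := fun
    | .one => [e00, e00, e00, e00, e00, e00, e00, e00]
    | .two => [⟨-84, [142837810]⟩, ⟨-477, [2394221335250994]⟩, ⟨-477, [9352427110707, 559123, 8, 8, 9380620153394, 36650365490]⟩, e00, e00, e00]
    | .twoE => [e00, e00, e00, e00, e00, e00]
    | .thrR => [⟨-139, [142837810]⟩, ⟨-443, [40289428444251129194546]⟩, ⟨-532, [559123, 2179, 8, 8, 143163699, 13]⟩, e00, e00, e00]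
    | .thrL => [⟨-139, [142837810]⟩, ⟨-532, [9381073131570]⟩, ⟨-532, [559123, 2179, 8, 8, 143163699, 13]⟩, e00, e00, e00]
    | .threeE => [⟨-4, [2178]⟩, ⟨-397, [142836354]⟩, e00, e00, e00, e00]
    | .ring => [⟨-270, [54335139178050723788834]⟩, ⟨-270, [49528537987]⟩, ⟨-579, [10548845577091, 2179, 2179, 8, 557955, 8]⟩, ⟨-579, [0, 0, 0, 0, 142772259, 8]⟩, e00, e00]
  gq := fun
    | .one => [e00, e00, e00, e00, e00, e00, e00, e00]
    | .two => [⟨-125, [2178]⟩, ⟨-434, [36566479746]⟩, ⟨-434, [142837811, 2179, 8, 8, 2401888393855794, 9725979136818]⟩, e00, e00, e00]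
    | .twoE => [e00, e00, e00, e00, e00, e00]
    | .thrR => [⟨-180, [2178]⟩, ⟨-489, [9360923699250]⟩, ⟨-489, [559155, 2179, 8, 8, 143164210, 143164210]⟩, e00, e00, e00]
    | .thrL => [⟨-180, [2178]⟩, ⟨-489, [36644816946]⟩, ⟨-489, [559155, 2179, 8, 8, 143164210, 143164210]⟩, e00, e00, e00]
    | .threeE => [e00, e00, e00, e00, e00, e00]
    | .ring => [⟨-316, [2632452528745338170320126754]⟩, ⟨-227, [9360906944819]⟩, ⟨-620, [612915616579422259, 142706707, 2179, 8, 142706739, 13]⟩, ⟨-620, [0, 0, 0, 0, 9361017045298, 13]⟩, e00, e00]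

/-- mode -/
def a2x_4_m2 : Mode where
  md := .D
  lam := 1500
  ct := 12000
  gp := fun
    | .one => [e00, e00, e00, e00, e00, e00, e00, e00]
    | .two => [⟨-1676, [10283018170737187964924450]⟩, e00, e00, e00, e00, e00]
    | .twoE => [e00, e00, e00, e00, e00, e00]
    | .thrR => [⟨-1841, [40186486480112818815266]⟩, e00, e00, e00, e00, e00]
    | .thrL => [⟨-1841, [40205269392927489536546]⟩, e00, e00, e00, e00, e00]
    | .threeE => [⟨-1436, [9361024057634]⟩, e00, e00, e00, e00, e00]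
    | .ring => [⟨-1077, [157050238841807995682]⟩, e00, e00, e00, e00, e00]
  gq := fun
    | .one => [e00, e00, e00, e00, e00, e00, e00, e00]
    | .two => [⟨-1027, [36566108210]⟩, e00, e00, e00, e00, e00]
    | .twoE => [e00, e00, e00, e00, e00, e00]
    | .thrR => [⟨-1192, [557954]⟩, e00, e00, e00, e00, e00]
    | .thrL => [⟨-1192, [557954]⟩, e00, e00, e00, e00, e00]
    | .threeE => [e00, e00, e00, e00, e00, e00]
    | .ring => [⟨-428, [675975115148950324085535553570]⟩, e00, e00, e00, e00, e00]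

/-- mode -/
def a2x_4_m3 : Mode where
  md := .V 150 1000
  lam := 1250
  ct := 1000
  gp := fun
    | .one => [e00, e00, e00, e00, e00, e00, e00, e00]
    | .two => [e00, e00, e00, e00, e00, ⟨-2954, [0, 0, 0, 0, 40167966078635536909090, 36532552322]⟩]
    | .twoE => [e00, e00, e00, e00, e00, e00]
    | .thrR => [e00, e00, e00, e00, e00, e00]
    | .thrL => [e00, e00, e00, e00, e00, e00]
    | .threeE => [e00, e00, e00, e00, e00, e00]
    | .ring => [⟨1223, [216188571244698960770]⟩, ⟨1223, [3249613110870915]⟩, ⟨1223, [159613315, 2179, 8, 8, 2179, 8]⟩, ⟨1223, [0, 0, 0, 0, 557699, 8]⟩, ⟨1223, [0, 0, 0, 0, 8, 8]⟩, ⟨-2017, [0, 0, 0, 0, 8, 8]⟩]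
  gq := fun
    | .one => [e00, e00, e00, e00, e00, e00, e00, e00]
    | .two => [e00, e00, e00, e00, e00, ⟨-2977, [0, 0, 0, 0, 142770818, 676071827831159680945468113538]⟩]
    | .twoE => [e00, e00, e00, e00, e00, e00]
    | .thrR => [e00, e00, e00, e00, e00, e00]
    | .thrL => [e00, e00, e00, e00, e00, e00]
    | .threeE => [e00, e00, e00, e00, e00, e00]
    | .ring => [⟨1200, [9360923263874]⟩, ⟨1200, [2401550316634419]⟩, ⟨1200, [559123, 2179, 8, 8, 559123, 13]⟩, ⟨1200, [0, 0, 0, 0, 559154, 13]⟩, ⟨1200, [0, 0, 0, 0, 8, 8]⟩, ⟨-2029, [0, 0, 0, 0, 8, 8]⟩]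

/-- mode -/
def a2x_4_m4 : Mode where
  md := .V 450 1000
  lam := 500
  ct := 2000
  gp := fun
    | .one => [e00, e00, e00, e00, e00, e00, e00, e00]
    | .two => [⟨187, [2178]⟩, e00, e00, e00, e00, e00]
    | .twoE => [e00, e00, e00, e00, e00, e00]
    | .thrR => [⟨132, [2178]⟩, e00, e00, e00, e00, e00]
    | .thrL => [⟨132, [2178]⟩, e00, e00, e00, e00, e00]
    | .threeE => [e00, e00, e00, e00, e00, e00]
    | .ring => [e00, e00, e00, e00, ⟨-1067, [0, 0, 0, 0, 2396396372656930, 3458]⟩, e00]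
  gq := fun
    | .one => [e00, e00, e00, e00, e00, e00, e00, e00]
    | .two => [⟨363, [2178]⟩, e00, e00, e00, e00, e00]
    | .twoE => [e00, e00, e00, e00, e00, e00]
    | .thrR => [⟨308, [8]⟩, e00, e00, e00, e00, e00]
    | .thrL => [e00, e00, e00, e00, e00, e00]
    | .threeE => [e00, e00, e00, e00, e00, e00]
    | .ring => [e00, e00, e00, e00, ⟨-891, [0, 0, 0, 0, 10292548890924333398065954, 2396420783112834]⟩, e00]

/-- mode -/
def a2x_4_m5 : Mode where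
  md := .V 650 1000
  lam := 250
  ct := 1500
  gp := fun
    | .one => [e00, e00, e00, e00, e00, e00, e00, e00]
    | .two => [e00, e00, e00, e00, e00, e00]
    | .twoE => [e00, e00, e00, e00, e00, e00]
    | .thrR => [⟨-124, [674217363361909647412389183778]⟩, ⟨-124, [9380613556274]⟩, e00, e00, e00, e00]
    | .thrL => [⟨-124, [10292548964589417725657378]⟩, e00, e00, e00, e00, e00]
    | .threeE => [e00, e00, e00, e00, e00, e00]
    | .ring => [e00, ⟨-217, [2454672904521779]⟩, e00, e00, e00, e00]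
  gq := fun
    | .one => [e00, e00, e00, e00, e00, e00, e00, e00]
    | .two => [⟨-137, [142837810]⟩, e00, e00, e00, e00, e00]
    | .twoE => [e00, e00, e00, e00, e00, e00]
    | .thrR => [⟨-164, [142837810]⟩, e00, e00, e00, e00, e00]
    | .thrL => [⟨-164, [142837810]⟩, e00, e00, e00, e00, e00]
    | .threeE => [e00, e00, e00, e00, e00, e00]
    | .ring => [e00, ⟨-258, [3192664677992645666796922438082456114837961956229683]⟩, e00, e00, e00, e00]

/-- mode -/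
def a2x_4_m6 : Mode where
  md := .V 600 1000
  lam := 500
  ct := 2000
  gp := fun
    | .one => [e00, e00, e00, e00, e00, e00, e00, e00]
    | .two => [e00, e00, e00, e00, e00, e00]
    | .twoE => [e00, e00, e00, e00, e00, e00]
    | .thrR => [e00, e00, e00, e00, e00, e00]
    | .thrL => [e00, e00, e00, e00, e00, e00]
    | .threeE => [⟨-351, [2394223219511586]⟩, e00, e00, e00, e00, e00]
    | .ring => [e00, e00, e00, e00, e00, e00]
  gq := fun
    | .one => [e00, e00, e00, e00, e00, e00, e00, e00]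
    | .two => [e00, e00, e00, e00, e00, e00]
    | .twoE => [e00, e00, e00, e00, e00, e00]
    | .thrR => [e00, e00, e00, e00, e00, e00]
    | .thrL => [e00, e00, e00, e00, e00, e00]
    | .threeE => [e00, e00, e00, e00, e00, e00]
    | .ring => [e00, ⟨-273, [614883330076738099]⟩, e00, e00, e00, e00]

/-- mode -/
def a2x_4_m7 : Mode where
  md := .V 650 1000
  lam := 0
  ct := 1500
  gp := fun
    | .one => [e00, e00, e00, e00, e00, e00, e00, e00]
    | .two => [⟨-60, [3183901479195134726966289556072718140520460918985266]⟩, e00, e00, e00, e00, e00]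
    | .twoE => [e00, e00, e00, e00, e00, e00]
    | .thrR => [e00, e00, e00, e00, e00, e00]
    | .thrL => [e00, e00, e00, e00, e00, e00]
    | .threeE => [e00, e00, e00, e00, e00, e00]
    | .ring => [e00, e00, e00, e00, e00, e00]
  gq := fun
    | .one => [e00, e00, e00, e00, e00, e00, e00, e00]
    | .two => [e00, e00, e00, e00, e00, e00]
    | .twoE => [e00, e00, e00, e00, e00, e00]
    | .thrR => [e00, e00, e00, e00, e00, e00]
    | .thrL => [e00, e00, e00, e00, e00, e00]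
    | .threeE => [e00, e00, e00, e00, e00, e00]
    | .ring => [e00, ⟨56, [11340789577162414082874503618588344883]⟩, e00, e00, e00, e00]

/-- piece -/
def a2x_4 : Piece := ⟨7830, 7900, 0, 820, a2x_4_wp, a2x_4_wq, [a2x_4_m0, a2x_4_m1, a2x_4_m2, a2x_4_m3, a2x_4_m4, a2x_4_m5, a2x_4_m6, a2x_4_m7]⟩

set_option linter.defProp false

def a2x_4_r0_one0 : rowsOk stA2X a2x_4 a2x_4_m0 false .one = true := by decide +kernel

def a2x_4_r0_one1 : rowsOk stA2X a2x_4 a2x_4_m0 true .one = true := by decide +kernel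

def a2x_4_r0_two0 : rowsOk stA2X a2x_4 a2x_4_m0 false .two = true := by decide +kernel

def a2x_4_r0_two1 : rowsOk stA2X a2x_4 a2x_4_m0 true .two = true := by decide +kernel

def a2x_4_r0_twoE0 : rowsOk stA2X a2x_4 a2x_4_m0 false .twoE = true := by decide +kernel

def a2x_4_r0_twoE1 : rowsOk stA2X a2x_4 a2x_4_m0 true .twoE = true := by decide +kernel

def a2x_4_r0_thrR0 : rowsOk stA2X a2x_4 a2x_4_m0 false .thrR = true := by decide +kernel

def a2x_4_r0_thrR1 : rowsOk stA2X a2x_4 a2x_4_m0 true .thrR = true := by decide +kernel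

def a2x_4_r0_thrL0 : rowsOk stA2X a2x_4 a2x_4_m0 false .thrL = true := by decide +kernel

def a2x_4_r0_thrL1 : rowsOk stA2X a2x_4 a2x_4_m0 true .thrL = true := by decide +kernel

def a2x_4_r0_threeE0 : rowsOk stA2X a2x_4 a2x_4_m0 false .threeE = true := by decide +kernel

def a2x_4_r0_threeE1 : rowsOk stA2X a2x_4 a2x_4_m0 true .threeE = true := by decide +kernel

def a2x_4_r0_ring0 : rowsOk stA2X a2x_4 a2x_4_m0 false .ring = true := by decide +kernel

def a2x_4_r0_ring1 : rowsOk stA2X a2x_4 a2x_4_m0 true .ring = true := by decide +kernel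

def a2x_4_r1_one0 : rowsOk stA2X a2x_4 a2x_4_m1 false .one = true := by decide +kernel

def a2x_4_r1_one1 : rowsOk stA2X a2x_4 a2x_4_m1 true .one = true := by decide +kernel

def a2x_4_r1_two0 : rowsOk stA2X a2x_4 a2x_4_m1 false .two = true := by decide +kernel

def a2x_4_r1_two1 : rowsOk stA2X a2x_4 a2x_4_m1 true .two = true := by decide +kernel

def a2x_4_r1_twoE0 : rowsOk stA2X a2x_4 a2x_4_m1 false .twoE = true := by decide +kernel

def a2x_4_r1_twoE1 : rowsOk stA2X a2x_4 a2x_4_m1 true .twoE = true := by decide +kernel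

def a2x_4_r1_thrR0 : rowsOk stA2X a2x_4 a2x_4_m1 false .thrR = true := by decide +kernel

def a2x_4_r1_thrR1 : rowsOk stA2X a2x_4 a2x_4_m1 true .thrR = true := by decide +kernel

def a2x_4_r1_thrL0 : rowsOk stA2X a2x_4 a2x_4_m1 false .thrL = true := by decide +kernel

def a2x_4_r1_thrL1 : rowsOk stA2X a2x_4 a2x_4_m1 true .thrL = true := by decide +kernel

def a2x_4_r1_threeE0 : rowsOk stA2X a2x_4 a2x_4_m1 false .threeE = true := by decide +kernel

def a2x_4_r1_threeE1 : rowsOk stA2X a2x_4 a2x_4_m1 true .threeE = true := by decide +kernel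

def a2x_4_r1_ring0 : rowsOk stA2X a2x_4 a2x_4_m1 false .ring = true := by decide +kernel

def a2x_4_r1_ring1 : rowsOk stA2X a2x_4 a2x_4_m1 true .ring = true := by decide +kernel

def a2x_4_r2_one0 : rowsOk stA2X a2x_4 a2x_4_m2 false .one = true := by decide +kernel

def a2x_4_r2_one1 : rowsOk stA2X a2x_4 a2x_4_m2 true .one = true := by decide +kernel

def a2x_4_r2_two0 : rowsOk stA2X a2x_4 a2x_4_m2 false .two = true := by decide +kernel

def a2x_4_r2_two1 : rowsOk stA2X a2x_4 a2x_4_m2 true .two = true := by decide +kernel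

def a2x_4_r2_twoE0 : rowsOk stA2X a2x_4 a2x_4_m2 false .twoE = true := by decide +kernel

def a2x_4_r2_twoE1 : rowsOk stA2X a2x_4 a2x_4_m2 true .twoE = true := by decide +kernel

def a2x_4_r2_thrR0 : rowsOk stA2X a2x_4 a2x_4_m2 false .thrR = true := by decide +kernel

def a2x_4_r2_thrR1 : rowsOk stA2X a2x_4 a2x_4_m2 true .thrR = true := by decide +kernel

def a2x_4_r2_thrL0 : rowsOk stA2X a2x_4 a2x_4_m2 false .thrL = true := by decide +kernel

def a2x_4_r2_thrL1 : rowsOk stA2X a2x_4 a2x_4_m2 true .thrL = true := by decide +kernel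

def a2x_4_r2_threeE0 : rowsOk stA2X a2x_4 a2x_4_m2 false .threeE = true := by decide +kernel

def a2x_4_r2_threeE1 : rowsOk stA2X a2x_4 a2x_4_m2 true .threeE = true := by decide +kernel

def a2x_4_r2_ring0 : rowsOk stA2X a2x_4 a2x_4_m2 false .ring = true := by decide +kernel

def a2x_4_r2_ring1 : rowsOk stA2X a2x_4 a2x_4_m2 true .ring = true := by decide +kernel

def a2x_4_r3_one0 : rowsOk stA2X a2x_4 a2x_4_m3 false .one = true := by decide +kernel

def a2x_4_r3_one1 : rowsOk stA2X a2x_4 a2x_4_m3 true .one = true := by decide +kernel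

def a2x_4_r3_two0 : rowsOk stA2X a2x_4 a2x_4_m3 false .two = true := by decide +kernel

def a2x_4_r3_two1 : rowsOk stA2X a2x_4 a2x_4_m3 true .two = true := by decide +kernel

def a2x_4_r3_twoE0 : rowsOk stA2X a2x_4 a2x_4_m3 false .twoE = true := by decide +kernel

def a2x_4_r3_twoE1 : rowsOk stA2X a2x_4 a2x_4_m3 true .twoE = true := by decide +kernel

def a2x_4_r3_thrR0 : rowsOk stA2X a2x_4 a2x_4_m3 false .thrR = true := by decide +kernel

def a2x_4_r3_thrR1 : rowsOk stA2X a2x_4 a2x_4_m3 true .thrR = true := by decide +kernel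

def a2x_4_r3_thrL0 : rowsOk stA2X a2x_4 a2x_4_m3 false .thrL = true := by decide +kernel

def a2x_4_r3_thrL1 : rowsOk stA2X a2x_4 a2x_4_m3 true .thrL = true := by decide +kernel

def a2x_4_r3_threeE0 : rowsOk stA2X a2x_4 a2x_4_m3 false .threeE = true := by decide +kernel

def a2x_4_r3_threeE1 : rowsOk stA2X a2x_4 a2x_4_m3 true .threeE = true := by decide +kernel

def a2x_4_r3_ring0 : rowsOk stA2X a2x_4 a2x_4_m3 false .ring = true := by decide +kernel

def a2x_4_r3_ring1 : rowsOk stA2X a2x_4 a2x_4_m3 true .ring = true := by decide +kernel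

def a2x_4_r4_one0 : rowsOk stA2X a2x_4 a2x_4_m4 false .one = true := by decide +kernel

def a2x_4_r4_one1 : rowsOk stA2X a2x_4 a2x_4_m4 true .one = true := by decide +kernel

def a2x_4_r4_two0 : rowsOk stA2X a2x_4 a2x_4_m4 false .two = true := by decide +kernel

def a2x_4_r4_two1 : rowsOk stA2X a2x_4 a2x_4_m4 true .two = true := by decide +kernel

def a2x_4_r4_twoE0 : rowsOk stA2X a2x_4 a2x_4_m4 false .twoE = true := by decide +kernel

def a2x_4_r4_twoE1 : rowsOk stA2X a2x_4 a2x_4_m4 true .twoE = true := by decide +kernel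

def a2x_4_r4_thrR0 : rowsOk stA2X a2x_4 a2x_4_m4 false .thrR = true := by decide +kernel

def a2x_4_r4_thrR1 : rowsOk stA2X a2x_4 a2x_4_m4 true .thrR = true := by decide +kernel

def a2x_4_r4_thrL0 : rowsOk stA2X a2x_4 a2x_4_m4 false .thrL = true := by decide +kernel

def a2x_4_r4_thrL1 : rowsOk stA2X a2x_4 a2x_4_m4 true .thrL = true := by decide +kernel

def a2x_4_r4_threeE0 : rowsOk stA2X a2x_4 a2x_4_m4 false .threeE = true := by decide +kernel

def a2x_4_r4_threeE1 : rowsOk stA2X a2x_4 a2x_4_m4 true .threeE = true := by decide +kernel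

def a2x_4_r4_ring0 : rowsOk stA2X a2x_4 a2x_4_m4 false .ring = true := by decide +kernel

def a2x_4_r4_ring1 : rowsOk stA2X a2x_4 a2x_4_m4 true .ring = true := by decide +kernel

def a2x_4_r5_one0 : rowsOk stA2X a2x_4 a2x_4_m5 false .one = true := by decide +kernel

def a2x_4_r5_one1 : rowsOk stA2X a2x_4 a2x_4_m5 true .one = true := by decide +kernel

def a2x_4_r5_two0 : rowsOk stA2X a2x_4 a2x_4_m5 false .two = true := by decide +kernel

def a2x_4_r5_two1 : rowsOk stA2X a2x_4 a2x_4_m5 true .two = true := by decide +kernel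

def a2x_4_r5_twoE0 : rowsOk stA2X a2x_4 a2x_4_m5 false .twoE = true := by decide +kernel

def a2x_4_r5_twoE1 : rowsOk stA2X a2x_4 a2x_4_m5 true .twoE = true := by decide +kernel

def a2x_4_r5_thrR0 : rowsOk stA2X a2x_4 a2x_4_m5 false .thrR = true := by decide +kernel

def a2x_4_r5_thrR1 : rowsOk stA2X a2x_4 a2x_4_m5 true .thrR = true := by decide +kernel

def a2x_4_r5_thrL0 : rowsOk stA2X a2x_4 a2x_4_m5 false .thrL = true := by decide +kernel

def a2x_4_r5_thrL1 : rowsOk stA2X a2x_4 a2x_4_m5 true .thrL = true := by decide +kernel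

def a2x_4_r5_threeE0 : rowsOk stA2X a2x_4 a2x_4_m5 false .threeE = true := by decide +kernel

def a2x_4_r5_threeE1 : rowsOk stA2X a2x_4 a2x_4_m5 true .threeE = true := by decide +kernel

def a2x_4_r5_ring0 : rowsOk stA2X a2x_4 a2x_4_m5 false .ring = true := by decide +kernel

def a2x_4_r5_ring1 : rowsOk stA2X a2x_4 a2x_4_m5 true .ring = true := by decide +kernel

def a2x_4_r6_one0 : rowsOk stA2X a2x_4 a2x_4_m6 false .one = true := by decide +kernel

def a2x_4_r6_one1 : rowsOk stA2X a2x_4 a2x_4_m6 true .one = true := by decide +kernel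

def a2x_4_r6_two0 : rowsOk stA2X a2x_4 a2x_4_m6 false .two = true := by decide +kernel

def a2x_4_r6_two1 : rowsOk stA2X a2x_4 a2x_4_m6 true .two = true := by decide +kernel

def a2x_4_r6_twoE0 : rowsOk stA2X a2x_4 a2x_4_m6 false .twoE = true := by decide +kernel

def a2x_4_r6_twoE1 : rowsOk stA2X a2x_4 a2x_4_m6 true .twoE = true := by decide +kernel

def a2x_4_r6_thrR0 : rowsOk stA2X a2x_4 a2x_4_m6 false .thrR = true := by decide +kernel

def a2x_4_r6_thrR1 : rowsOk stA2X a2x_4 a2x_4_m6 true .thrR = true := by decide +kernel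

def a2x_4_r6_thrL0 : rowsOk stA2X a2x_4 a2x_4_m6 false .thrL = true := by decide +kernel

def a2x_4_r6_thrL1 : rowsOk stA2X a2x_4 a2x_4_m6 true .thrL = true := by decide +kernel

def a2x_4_r6_threeE0 : rowsOk stA2X a2x_4 a2x_4_m6 false .threeE = true := by decide +kernel

def a2x_4_r6_threeE1 : rowsOk stA2X a2x_4 a2x_4_m6 true .threeE = true := by decide +kernel

def a2x_4_r6_ring0 : rowsOk stA2X a2x_4 a2x_4_m6 false .ring = true := by decide +kernel

def a2x_4_r6_ring1 : rowsOk stA2X a2x_4 a2x_4_m6 true .ring = true := by decide +kernel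

def a2x_4_r7_one0 : rowsOk stA2X a2x_4 a2x_4_m7 false .one = true := by decide +kernel

def a2x_4_r7_one1 : rowsOk stA2X a2x_4 a2x_4_m7 true .one = true := by decide +kernel

def a2x_4_r7_two0 : rowsOk stA2X a2x_4 a2x_4_m7 false .two = true := by decide +kernel

def a2x_4_r7_two1 : rowsOk stA2X a2x_4 a2x_4_m7 true .two = true := by decide +kernel

def a2x_4_r7_twoE0 : rowsOk stA2X a2x_4 a2x_4_m7 false .twoE = true := by decide +kernel

def a2x_4_r7_twoE1 : rowsOk stA2X a2x_4 a2x_4_m7 true .twoE = true := by decide +kernel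

def a2x_4_r7_thrR0 : rowsOk stA2X a2x_4 a2x_4_m7 false .thrR = true := by decide +kernel

def a2x_4_r7_thrR1 : rowsOk stA2X a2x_4 a2x_4_m7 true .thrR = true := by decide +kernel

def a2x_4_r7_thrL0 : rowsOk stA2X a2x_4 a2x_4_m7 false .thrL = true := by decide +kernel

def a2x_4_r7_thrL1 : rowsOk stA2X a2x_4 a2x_4_m7 true .thrL = true := by decide +kernel

def a2x_4_r7_threeE0 : rowsOk stA2X a2x_4 a2x_4_m7 false .threeE = true := by decide +kernel

def a2x_4_r7_threeE1 : rowsOk stA2X a2x_4 a2x_4_m7 true .threeE = true := by decide +kernel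

def a2x_4_r7_ring0 : rowsOk stA2X a2x_4 a2x_4_m7 false .ring = true := by decide +kernel

def a2x_4_r7_ring1 : rowsOk stA2X a2x_4 a2x_4_m7 true .ring = true := by decide +kernel

theorem a2x_4_r0 : allRows stA2X a2x_4 a2x_4_m0 = true := by
  refine allRows_of fun P => ?_
  cases P
  exacts [⟨a2x_4_r0_one0, a2x_4_r0_one1⟩,
    ⟨a2x_4_r0_two0, a2x_4_r0_two1⟩,
    ⟨a2x_4_r0_twoE0, a2x_4_r0_twoE1⟩,
    ⟨a2x_4_r0_thrR0, a2x_4_r0_thrR1⟩,
    ⟨a2x_4_r0_thrL0, a2x_4_r0_thrL1⟩,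
    ⟨a2x_4_r0_threeE0, a2x_4_r0_threeE1⟩,
    ⟨a2x_4_r0_ring0, a2x_4_r0_ring1⟩]

theorem a2x_4_r1 : allRows stA2X a2x_4 a2x_4_m1 = true := by
  refine allRows_of fun P => ?_
  cases P
  exacts [⟨a2x_4_r1_one0, a2x_4_r1_one1⟩,
    ⟨a2x_4_r1_two0, a2x_4_r1_two1⟩,
    ⟨a2x_4_r1_twoE0, a2x_4_r1_twoE1⟩,
    ⟨a2x_4_r1_thrR0, a2x_4_r1_thrR1⟩,
    ⟨a2x_4_r1_thrL0, a2x_4_r1_thrL1⟩,
    ⟨a2x_4_r1_threeE0, a2x_4_r1_threeE1⟩,
    ⟨a2x_4_r1_ring0, a2x_4_r1_ring1⟩]

theorem a2x_4_r2 : allRows stA2X a2x_4 a2x_4_m2 = true := by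
  refine allRows_of fun P => ?_
  cases P
  exacts [⟨a2x_4_r2_one0, a2x_4_r2_one1⟩,
    ⟨a2x_4_r2_two0, a2x_4_r2_two1⟩,
    ⟨a2x_4_r2_twoE0, a2x_4_r2_twoE1⟩,
    ⟨a2x_4_r2_thrR0, a2x_4_r2_thrR1⟩,
    ⟨a2x_4_r2_thrL0, a2x_4_r2_thrL1⟩,
    ⟨a2x_4_r2_threeE0, a2x_4_r2_threeE1⟩,
    ⟨a2x_4_r2_ring0, a2x_4_r2_ring1⟩]

theorem a2x_4_r3 : allRows stA2X a2x_4 a2x_4_m3 = true := by
  refine allRows_of fun P => ?_
  cases P
  exacts [⟨a2x_4_r3_one0, a2x_4_r3_one1⟩,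
    ⟨a2x_4_r3_two0, a2x_4_r3_two1⟩,
    ⟨a2x_4_r3_twoE0, a2x_4_r3_twoE1⟩,
    ⟨a2x_4_r3_thrR0, a2x_4_r3_thrR1⟩,
    ⟨a2x_4_r3_thrL0, a2x_4_r3_thrL1⟩,
    ⟨a2x_4_r3_threeE0, a2x_4_r3_threeE1⟩,
    ⟨a2x_4_r3_ring0, a2x_4_r3_ring1⟩]

theorem a2x_4_r4 : allRows stA2X a2x_4 a2x_4_m4 = true := by
  refine allRows_of fun P => ?_
  cases P
  exacts [⟨a2x_4_r4_one0, a2x_4_r4_one1⟩,
    ⟨a2x_4_r4_two0, a2x_4_r4_two1⟩,
    ⟨a2x_4_r4_twoE0, a2x_4_r4_twoE1⟩,
    ⟨a2x_4_r4_thrR0, a2x_4_r4_thrR1⟩,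
    ⟨a2x_4_r4_thrL0, a2x_4_r4_thrL1⟩,
    ⟨a2x_4_r4_threeE0, a2x_4_r4_threeE1⟩,
    ⟨a2x_4_r4_ring0, a2x_4_r4_ring1⟩]

theorem a2x_4_r5 : allRows stA2X a2x_4 a2x_4_m5 = true := by
  refine allRows_of fun P => ?_
  cases P
  exacts [⟨a2x_4_r5_one0, a2x_4_r5_one1⟩,
    ⟨a2x_4_r5_two0, a2x_4_r5_two1⟩,
    ⟨a2x_4_r5_twoE0, a2x_4_r5_twoE1⟩,
    ⟨a2x_4_r5_thrR0, a2x_4_r5_thrR1⟩,
    ⟨a2x_4_r5_thrL0, a2x_4_r5_thrL1⟩,
    ⟨a2x_4_r5_threeE0, a2x_4_r5_threeE1⟩,
    ⟨a2x_4_r5_ring0, a2x_4_r5_ring1⟩]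

theorem a2x_4_r6 : allRows stA2X a2x_4 a2x_4_m6 = true := by
  refine allRows_of fun P => ?_
  cases P
  exacts [⟨a2x_4_r6_one0, a2x_4_r6_one1⟩,
    ⟨a2x_4_r6_two0, a2x_4_r6_two1⟩,
    ⟨a2x_4_r6_twoE0, a2x_4_r6_twoE1⟩,
    ⟨a2x_4_r6_thrR0, a2x_4_r6_thrR1⟩,
    ⟨a2x_4_r6_thrL0, a2x_4_r6_thrL1⟩,
    ⟨a2x_4_r6_threeE0, a2x_4_r6_threeE1⟩,
    ⟨a2x_4_r6_ring0, a2x_4_r6_ring1⟩]

theorem a2x_4_r7 : allRows stA2X a2x_4 a2x_4_m7 = true := by
  refine allRows_of fun P => ?_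
  cases P
  exacts [⟨a2x_4_r7_one0, a2x_4_r7_one1⟩,
    ⟨a2x_4_r7_two0, a2x_4_r7_two1⟩,
    ⟨a2x_4_r7_twoE0, a2x_4_r7_twoE1⟩,
    ⟨a2x_4_r7_thrR0, a2x_4_r7_thrR1⟩,
    ⟨a2x_4_r7_thrL0, a2x_4_r7_thrL1⟩,
    ⟨a2x_4_r7_threeE0, a2x_4_r7_threeE1⟩,
    ⟨a2x_4_r7_ring0, a2x_4_r7_ring1⟩]

theorem a2x_4_ok : a2x_4.ok stA2X = true := by
  have h : (PC.all.all fun P => PC.all.all fun Q => pairOk stA2X a2x_4 P Q) = true := by decide +kernel
  have d0 : mdOk stA2X a2x_4_m0.md = true := by decide +kernel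
  have d1 : mdOk stA2X a2x_4_m1.md = true := by decide +kernel
  have d2 : mdOk stA2X a2x_4_m2.md = true := by decide +kernel
  have d3 : mdOk stA2X a2x_4_m3.md = true := by decide +kernel
  have d4 : mdOk stA2X a2x_4_m4.md = true := by decide +kernel
  have d5 : mdOk stA2X a2x_4_m5.md = true := by decide +kernel
  have d6 : mdOk stA2X a2x_4_m6.md = true := by decide +kernel
  have d7 : mdOk stA2X a2x_4_m7.md = true := by decide +kernel
  unfold Piece.ok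
  rw [h, Bool.true_and]
  show List.all [a2x_4_m0, a2x_4_m1, a2x_4_m2, a2x_4_m3, a2x_4_m4, a2x_4_m5, a2x_4_m6, a2x_4_m7] _ = true
  rw [List.all_eq_true]
  intro m hm
  simp only [List.mem_cons, List.not_mem_nil, or_false] at hm
  rcases hm with rfl | rfl | rfl | rfl | rfl | rfl | rfl | rfl
  · rw [a2x_4_r0, d0]; rfl
  · rw [a2x_4_r1, d1]; rfl
  · rw [a2x_4_r2, d2]; rfl
  · rw [a2x_4_r3, d3]; rfl
  · rw [a2x_4_r4, d4]; rfl
  · rw [a2x_4_r5, d5]; rfl
  · rw [a2x_4_r6, d6]; rfl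
  · rw [a2x_4_r7, d7]; rfl

end OR

end Pool.Agent.Work.MP_b30479_gt.G2
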