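import Pool.Agent.Work.MP_b30479_gt.G2.OStA
import Pool.Agent.Work.MP_b30479_gt.G2.ORows

namespace Pool.Agent.Work.MP_b30479_gt.G2

namespace OR

/-- windows -/
def a2x_5_wp : PC → Win
  | .one => ⟨0, 0, 0, 0, 0, 0⟩
  | .two => ⟨-230, 550, -220, 680, 0, 400⟩
  | .twoE => ⟨0, 0, 0, 0, 0, 0⟩
  | .thrR => ⟨100, 700, 100, 850, 0, 400⟩
  | .thrL => ⟨100, 700, 100, 850, 0, 400⟩
  | .threeE => ⟨-20, 390, 230, 810, 20, 400⟩
  | .ring => ⟨390, 1200, 310, 1120, 0, 320⟩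

/-- windows -/
def a2x_5_wq : PC → Win
  | .one => ⟨0, 0, 0, 0, 0, 0⟩
  | .two => ⟨-230, 550, -220, 680, -320, 0⟩
  | .twoE => ⟨0, 0, 0, 0, 0, 0⟩
  | .thrR => ⟨100, 700, 100, 850, -270, 0⟩
  | .thrL => ⟨100, 700, 100, 850, -270, 0⟩
  | .threeE => ⟨0, 0, 0, 0, 0, 0⟩
  | .ring => ⟨390, 1200, 150, 1120, -400, 0⟩

/-- mode -/
def a2x_5_m0 : Mode where
  md := .V 300 1000
  lam := 1500
  ct := 2000
  gp := fun
    | .one => [e00, e00, e00, e00, e00, e00, e00, e00]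
    | .two => [⟨1134, [2178]⟩, ⟨-227, [9352429183874, 2179, 8, 8, 2179, 559123]⟩, ⟨-1501, [36566499635, 142706739, 8, 8, 40205271076621516878626, 614803506313900834]⟩, ⟨-1876, [0, 0, 0, 0, 559154, 2178]⟩, ⟨-1876, [0, 0, 0, 0, 8, 8]⟩, e00]
    | .twoE => [e00, e00, e00, e00, e00, e00]
    | .thrR => [⟨969, [8]⟩, ⟨-392, [2401417189425954, 2179, 8, 8, 2179, 13]⟩, ⟨-1271, [559123, 559123, 8, 8, 143164210, 13]⟩, ⟨-2041, [0, 0, 0, 0, 9382398076978, 13]⟩, ⟨-2041, [0, 0, 0, 0, 8, 8]⟩, ⟨-2041, [0, 0, 0, 0, 2178, 557698]⟩]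
    | .thrL => [⟨969, [8]⟩, ⟨-392, [36644816946, 2179, 8, 8, 2179, 13]⟩, ⟨-1271, [559123, 559123, 8, 8, 143164210, 13]⟩, ⟨-2041, [0, 0, 0, 0, 36643026994, 8]⟩, ⟨-2041, [0, 0, 0, 0, 8, 8]⟩, ⟨-2041, [0, 0, 0, 0, 2178, 2178]⟩]
    | .threeE => [⟨13, [2178]⟩, ⟨13, [36642718338, 8, 8, 8, 8, 8]⟩, ⟨-1636, [559123, 2179, 8, 8, 36650365730, 36650357538]⟩, ⟨-1636, [0, 0, 0, 0, 2178, 8]⟩, ⟨-1648, [0, 0, 0, 0, 8, 8]⟩, ⟨-2525, [0, 0, 0, 0, 8, 8]⟩]
    | .ring => [⟨-266, [142771074]⟩, ⟨-266, [157056436087060707378, 8, 8, 8, 8, 8]⟩, ⟨-658, [819331, 2179, 8, 8, 142837810, 13]⟩, ⟨-1066, [0, 0, 0, 0, 158565132070920140850, 8]⟩, ⟨-1983, [0, 0, 0, 0, 676391094330637894315587872818, 8]⟩, ⟨-3492, [0, 0, 0, 0, 2178, 557954]⟩]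
  gq := fun
    | .one => [e00, e00, e00, e00, e00, e00, e00, e00]
    | .two => [⟨1388, [2178]⟩, ⟨-121, [9361018815106, 2179, 8, 8, 2179, 2179]⟩, ⟨-1446, [142837811, 142837811, 8, 8, 157389697594999452450, 614809003872039714]⟩, ⟨-1838, [0, 0, 0, 0, 559138, 2178]⟩, ⟨-1838, [0, 0, 0, 0, 8, 8]⟩, e00]
    | .twoE => [e00, e00, e00, e00, e00, e00]
    | .thrR => [⟨1223, [8]⟩, ⟨-286, [36643766914, 2179, 8, 8, 2179, 13]⟩, ⟨-1203, [559155, 2179, 8, 8, 36650365730, 13]⟩, ⟨-2003, [0, 0, 0, 0, 143140914, 13]⟩, ⟨-2003, [0, 0, 0, 0, 8, 8]⟩, ⟨-2003, [0, 0, 0, 0, 2178, 557698]⟩]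
    | .thrL => [⟨1223, [8]⟩, ⟨-286, [36644815490, 2179, 8, 8, 2179, 13]⟩, ⟨-1203, [559155, 2179, 8, 8, 36650365730, 13]⟩, ⟨-2003, [0, 0, 0, 0, 559154, 13]⟩, ⟨-2003, [0, 0, 0, 0, 8, 8]⟩, ⟨-2003, [0, 0, 0, 0, 2178, 2178]⟩]
    | .threeE => [e00, e00, e00, e00, e00, e00]
    | .ring => [⟨-228, [36549698434]⟩, ⟨-228, [36566480946, 2179, 8, 8, 2179, 8]⟩, ⟨-603, [2179, 2179, 8, 8, 142837810, 13]⟩, ⟨-998, [0, 0, 0, 0, 36644075570, 13]⟩, ⟨-1877, [0, 0, 0, 0, 10316166505861327045732402, 8]⟩, ⟨-3238, [0, 0, 0, 0, 2178, 557698]⟩]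

/-- mode -/
def a2x_5_m1 : Mode where
  md := .V 600 1000
  lam := 500
  ct := 2000
  gp := fun
    | .one => [e00, e00, e00, e00, e00, e00, e00, e00]
    | .two => [⟨-188, [36566108210]⟩, ⟨-463, [2394221871073330, 559123, 8, 8, 559123, 559123]⟩, ⟨-321, [559155, 559123, 8, 8, 36650365730, 36650365730]⟩, e00, e00, e00]
    | .twoE => [e00, e00, e00, e00, e00, e00]
    | .thrR => [⟨-376, [612915645386330914]⟩, ⟨-376, [9380535896114, 2179, 8, 8, 2179, 13]⟩, ⟨-376, [2179, 2179, 8, 8, 143164210, 13]⟩, e00, e00, e00]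
    | .thrL => [⟨-376, [2396396473291554]⟩, ⟨-518, [9382376212530, 2179, 8, 8, 2179, 13]⟩, ⟨-376, [2179, 2179, 8, 8, 143164210, 13]⟩, e00, e00, e00]
    | .threeE => [⟨-241, [2178]⟩, ⟨-383, [36644815490, 2179, 8, 8, 2179, 8]⟩, e00, e00, e00, e00]
    | .ring => [⟨-327, [9356722800674]⟩, ⟨-474, [189688198389912861794550952422533362364201010, 2179, 8, 8, 2179, 8]⟩, ⟨-474, [2179, 2179, 8, 8, 142837810, 13]⟩, ⟨-474, [0, 0, 0, 0, 142837810, 13]⟩, e00, e00]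
  gq := fun
    | .one => [e00, e00, e00, e00, e00, e00, e00, e00]
    | .two => [⟨-230, [9360923722530]⟩, ⟨-377, [613483729162242098, 557955, 8, 8, 2179, 2179]⟩, ⟨-377, [142837811, 557955, 8, 8, 2401576119972642, 36734251810]⟩, e00, e00, e00]
    | .twoE => [e00, e00, e00, e00, e00, e00]
    | .thrR => [⟨-285, [142837810]⟩, ⟨-432, [614803074301044786, 2179, 8, 8, 2179, 13]⟩, ⟨-432, [2179, 2179, 8, 8, 36650365730, 13]⟩, e00, e00, e00]
    | .thrL => [⟨-285, [142837810]⟩, ⟨-432, [9381072767026, 2179, 8, 8, 2179, 13]⟩, ⟨-432, [2179, 2179, 8, 8, 36650365730, 13]⟩, e00, e00, e00]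
    | .threeE => [e00, e00, e00, e00, e00, e00]
    | .ring => [⟨-383, [2903714164745893777066020687412613100322]⟩, ⟨-383, [11316682633098348604433521697212610610, 2179, 8, 8, 2179, 8]⟩, ⟨-516, [557955, 2179, 8, 8, 36566480946, 13]⟩, ⟨-241, [0, 0, 0, 0, 613483729162242098, 13]⟩, e00, e00]

/-- mode -/
def a2x_5_m2 : Mode where
  md := .D
  lam := 1500
  ct := 11000
  gp := fun
    | .one => [e00, e00, e00, e00, e00, e00, e00, e00]
    | .two => [⟨-1641, [10292549036640434832028194]⟩, e00, e00, e00, e00, e00]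
    | .twoE => [e00, e00, e00, e00, e00, e00]
    | .thrR => [e00, e00, e00, e00, e00, e00]
    | .thrL => [⟨-1806, [673907878837432345001365418530]⟩, e00, e00, e00, e00, e00]
    | .threeE => [e00, e00, e00, e00, e00, e00]
    | .ring => [⟨-911, [2632452651708719685346820898]⟩, e00, e00, e00, e00, e00]
  gq := fun
    | .one => [e00, e00, e00, e00, e00, e00, e00, e00]
    | .two => [⟨-1193, [2396400762652706]⟩, e00, e00, e00, e00, e00]
    | .twoE => [e00, e00, e00, e00, e00, e00]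
    | .thrR => [⟨-1358, [142837810]⟩, e00, e00, e00, e00, e00]
    | .thrL => [⟨-1358, [36566108210]⟩, e00, e00, e00, e00, e00]
    | .threeE => [e00, e00, e00, e00, e00, e00]
    | .ring => [⟨-463, [2634865694920861469431576610]⟩, e00, e00, e00, e00, e00]

/-- mode -/
def a2x_5_m3 : Mode where
  md := .V 150 1000
  lam := 1250
  ct := 1000
  gp := fun
    | .one => [e00, e00, e00, e00, e00, e00, e00, e00]
    | .two => [e00, e00, e00, e00, e00, ⟨-2962, [0, 0, 0, 0, 53564599432959474195168064882049513327946663702020416045858, 614885597802300034]⟩]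
    | .twoE => [e00, e00, e00, e00, e00, e00]
    | .thrR => [e00, e00, e00, e00, e00, e00]
    | .thrL => [e00, e00, e00, e00, e00, e00]
    | .threeE => [e00, e00, e00, e00, e00, e00]
    | .ring => [⟨1202, [3631023313078503665629823874]⟩, ⟨1202, [3568276254231299908980297167808740254824255235110962, 159613315, 10460451668353, 8, 557443, 8]⟩, ⟨1202, [54093418627, 159613315, 10460451668353, 8, 9361287551026, 13]⟩, ⟨1202, [0, 0, 0, 0, 557699, 8]⟩, ⟨1202, [0, 0, 0, 0, 8, 8]⟩, ⟨-1950, [0, 0, 0, 0, 8, 8]⟩]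
  gq := fun
    | .one => [e00, e00, e00, e00, e00, e00, e00, e00]
    | .two => [e00, e00, e00, e00, e00, ⟨-2956, [0, 0, 0, 0, 613477467004504098, 229529182143256885966667165182016523209284902963555615284361378824834]⟩]
    | .twoE => [e00, e00, e00, e00, e00, e00]
    | .thrR => [e00, e00, e00, e00, e00, e00]
    | .thrL => [e00, e00, e00, e00, e00, e00]
    | .threeE => [e00, e00, e00, e00, e00, e00]
    | .ring => [⟨1208, [9360906552194]⟩, ⟨1208, [40205311467152887781426, 2179, 8, 8, 2179, 8]⟩, ⟨1208, [2179, 2179, 8, 8, 559154, 13]⟩, ⟨1208, [0, 0, 0, 0, 559154, 13]⟩, ⟨1208, [0, 0, 0, 0, 8, 8]⟩, ⟨-1950, [0, 0, 0, 0, 8, 8]⟩]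

/-- mode -/
def a2x_5_m4 : Mode where
  md := .V 450 1000
  lam := 750
  ct := 2000
  gp := fun
    | .one => [e00, e00, e00, e00, e00, e00, e00, e00]
    | .two => [⟨-173, [557954]⟩, e00, e00, e00, e00, e00]
    | .twoE => [e00, e00, e00, e00, e00, e00]
    | .thrR => [⟨-256, [557954]⟩, ⟨-256, [9380535896114, 2179, 8, 8, 2179, 13]⟩, e00, e00, e00, e00]
    | .thrL => [⟨-256, [557954]⟩, e00, e00, e00, e00, e00]
    | .threeE => [⟨-53, [2178]⟩, e00, e00, e00, e00, e00]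
    | .ring => [e00, e00, e00, e00, ⟨-1289, [0, 0, 0, 0, 2640537238209935141868110626, 3539]⟩, e00]
  gq := fun
    | .one => [e00, e00, e00, e00, e00, e00, e00, e00]
    | .two => [⟨235, [2178]⟩, e00, e00, e00, e00, e00]
    | .twoE => [e00, e00, e00, e00, e00, e00]
    | .thrR => [⟨153, [8]⟩, e00, e00, e00, e00, e00]
    | .thrL => [⟨153, [2178]⟩, e00, e00, e00, e00, e00]
    | .threeE => [e00, e00, e00, e00, e00, e00]
    | .ring => [e00, e00, e00, ⟨-881, [0, 0, 0, 0, 2401893907707954, 13]⟩, ⟨-881, [0, 0, 0, 0, 2635120695240777784518804258, 976016715800609410]⟩, e00]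

/-- mode -/
def a2x_5_m5 : Mode where
  md := .V 600 1000
  lam := 250
  ct := 2000
  gp := fun
    | .one => [e00, e00, e00, e00, e00, e00, e00, e00]
    | .two => [⟨-302, [156979759479410668066]⟩, e00, e00, e00, e00, e00]
    | .twoE => [e00, e00, e00, e00, e00, e00]
    | .thrR => [e00, e00, e00, e00, e00, e00]
    | .thrL => [e00, e00, e00, e00, e00, e00]
    | .threeE => [e00, e00, e00, e00, e00, e00]
    | .ring => [e00, e00, e00, e00, e00, e00]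
  gq := fun
    | .one => [e00, e00, e00, e00, e00, e00, e00, e00]
    | .two => [e00, e00, e00, e00, e00, e00]
    | .twoE => [e00, e00, e00, e00, e00, e00]
    | .thrR => [e00, e00, e00, e00, e00, e00]
    | .thrL => [e00, e00, e00, e00, e00, e00]
    | .threeE => [e00, e00, e00, e00, e00, e00]
    | .ring => [e00, ⟨-52, [674526848376977721577267804210, 2179, 8, 8, 2179, 8]⟩, e00, e00, e00, e00]

/-- piece -/
def a2x_5 : Piece := ⟨7900, 8050, 0, 400, a2x_5_wp, a2x_5_wq, [a2x_5_m0, a2x_5_m1, a2x_5_m2, a2x_5_m3, a2x_5_m4, a2x_5_m5]⟩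

set_option linter.defProp false

def a2x_5_r0_one0 : rowsOk stA2X a2x_5 a2x_5_m0 false .one = true := by decide +kernel

def a2x_5_r0_one1 : rowsOk stA2X a2x_5 a2x_5_m0 true .one = true := by decide +kernel

def a2x_5_r0_two0 : rowsOk stA2X a2x_5 a2x_5_m0 false .two = true := by decide +kernel

def a2x_5_r0_two1 : rowsOk stA2X a2x_5 a2x_5_m0 true .two = true := by decide +kernel

def a2x_5_r0_twoE0 : rowsOk stA2X a2x_5 a2x_5_m0 false .twoE = true := by decide +kernel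

def a2x_5_r0_twoE1 : rowsOk stA2X a2x_5 a2x_5_m0 true .twoE = true := by decide +kernel

def a2x_5_r0_thrR0 : rowsOk stA2X a2x_5 a2x_5_m0 false .thrR = true := by decide +kernel

def a2x_5_r0_thrR1 : rowsOk stA2X a2x_5 a2x_5_m0 true .thrR = true := by decide +kernel

def a2x_5_r0_thrL0 : rowsOk stA2X a2x_5 a2x_5_m0 false .thrL = true := by decide +kernel

def a2x_5_r0_thrL1 : rowsOk stA2X a2x_5 a2x_5_m0 true .thrL = true := by decide +kernel

def a2x_5_r0_threeE0 : rowsOk stA2X a2x_5 a2x_5_m0 false .threeE = true := by decide +kernel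

def a2x_5_r0_threeE1 : rowsOk stA2X a2x_5 a2x_5_m0 true .threeE = true := by decide +kernel

def a2x_5_r0_ring0 : rowsOk stA2X a2x_5 a2x_5_m0 false .ring = true := by decide +kernel

def a2x_5_r0_ring1 : rowsOk stA2X a2x_5 a2x_5_m0 true .ring = true := by decide +kernel

def a2x_5_r1_one0 : rowsOk stA2X a2x_5 a2x_5_m1 false .one = true := by decide +kernel

def a2x_5_r1_one1 : rowsOk stA2X a2x_5 a2x_5_m1 true .one = true := by decide +kernel

def a2x_5_r1_two0 : rowsOk stA2X a2x_5 a2x_5_m1 false .two = true := by decide +kernel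

def a2x_5_r1_two1 : rowsOk stA2X a2x_5 a2x_5_m1 true .two = true := by decide +kernel

def a2x_5_r1_twoE0 : rowsOk stA2X a2x_5 a2x_5_m1 false .twoE = true := by decide +kernel

def a2x_5_r1_twoE1 : rowsOk stA2X a2x_5 a2x_5_m1 true .twoE = true := by decide +kernel

def a2x_5_r1_thrR0 : rowsOk stA2X a2x_5 a2x_5_m1 false .thrR = true := by decide +kernel

def a2x_5_r1_thrR1 : rowsOk stA2X a2x_5 a2x_5_m1 true .thrR = true := by decide +kernel

def a2x_5_r1_thrL0 : rowsOk stA2X a2x_5 a2x_5_m1 false .thrL = true := by decide +kernel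

def a2x_5_r1_thrL1 : rowsOk stA2X a2x_5 a2x_5_m1 true .thrL = true := by decide +kernel

def a2x_5_r1_threeE0 : rowsOk stA2X a2x_5 a2x_5_m1 false .threeE = true := by decide +kernel

def a2x_5_r1_threeE1 : rowsOk stA2X a2x_5 a2x_5_m1 true .threeE = true := by decide +kernel

def a2x_5_r1_ring0 : rowsOk stA2X a2x_5 a2x_5_m1 false .ring = true := by decide +kernel

def a2x_5_r1_ring1 : rowsOk stA2X a2x_5 a2x_5_m1 true .ring = true := by decide +kernel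

def a2x_5_r2_one0 : rowsOk stA2X a2x_5 a2x_5_m2 false .one = true := by decide +kernel

def a2x_5_r2_one1 : rowsOk stA2X a2x_5 a2x_5_m2 true .one = true := by decide +kernel

def a2x_5_r2_two0 : rowsOk stA2X a2x_5 a2x_5_m2 false .two = true := by decide +kernel

def a2x_5_r2_two1 : rowsOk stA2X a2x_5 a2x_5_m2 true .two = true := by decide +kernel

def a2x_5_r2_twoE0 : rowsOk stA2X a2x_5 a2x_5_m2 false .twoE = true := by decide +kernel

def a2x_5_r2_twoE1 : rowsOk stA2X a2x_5 a2x_5_m2 true .twoE = true := by decide +kernel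

def a2x_5_r2_thrR0 : rowsOk stA2X a2x_5 a2x_5_m2 false .thrR = true := by decide +kernel

def a2x_5_r2_thrR1 : rowsOk stA2X a2x_5 a2x_5_m2 true .thrR = true := by decide +kernel

def a2x_5_r2_thrL0 : rowsOk stA2X a2x_5 a2x_5_m2 false .thrL = true := by decide +kernel

def a2x_5_r2_thrL1 : rowsOk stA2X a2x_5 a2x_5_m2 true .thrL = true := by decide +kernel

def a2x_5_r2_threeE0 : rowsOk stA2X a2x_5 a2x_5_m2 false .threeE = true := by decide +kernel

def a2x_5_r2_threeE1 : rowsOk stA2X a2x_5 a2x_5_m2 true .threeE = true := by decide +kernel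

def a2x_5_r2_ring0 : rowsOk stA2X a2x_5 a2x_5_m2 false .ring = true := by decide +kernel

def a2x_5_r2_ring1 : rowsOk stA2X a2x_5 a2x_5_m2 true .ring = true := by decide +kernel

def a2x_5_r3_one0 : rowsOk stA2X a2x_5 a2x_5_m3 false .one = true := by decide +kernel

def a2x_5_r3_one1 : rowsOk stA2X a2x_5 a2x_5_m3 true .one = true := by decide +kernel

def a2x_5_r3_two0 : rowsOk stA2X a2x_5 a2x_5_m3 false .two = true := by decide +kernel

def a2x_5_r3_two1 : rowsOk stA2X a2x_5 a2x_5_m3 true .two = true := by decide +kernel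

def a2x_5_r3_twoE0 : rowsOk stA2X a2x_5 a2x_5_m3 false .twoE = true := by decide +kernel

def a2x_5_r3_twoE1 : rowsOk stA2X a2x_5 a2x_5_m3 true .twoE = true := by decide +kernel

def a2x_5_r3_thrR0 : rowsOk stA2X a2x_5 a2x_5_m3 false .thrR = true := by decide +kernel

def a2x_5_r3_thrR1 : rowsOk stA2X a2x_5 a2x_5_m3 true .thrR = true := by decide +kernel

def a2x_5_r3_thrL0 : rowsOk stA2X a2x_5 a2x_5_m3 false .thrL = true := by decide +kernel

def a2x_5_r3_thrL1 : rowsOk stA2X a2x_5 a2x_5_m3 true .thrL = true := by decide +kernel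

def a2x_5_r3_threeE0 : rowsOk stA2X a2x_5 a2x_5_m3 false .threeE = true := by decide +kernel

def a2x_5_r3_threeE1 : rowsOk stA2X a2x_5 a2x_5_m3 true .threeE = true := by decide +kernel

def a2x_5_r3_ring0 : rowsOk stA2X a2x_5 a2x_5_m3 false .ring = true := by decide +kernel

def a2x_5_r3_ring1 : rowsOk stA2X a2x_5 a2x_5_m3 true .ring = true := by decide +kernel

def a2x_5_r4_one0 : rowsOk stA2X a2x_5 a2x_5_m4 false .one = true := by decide +kernel

def a2x_5_r4_one1 : rowsOk stA2X a2x_5 a2x_5_m4 true .one = true := by decide +kernel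

def a2x_5_r4_two0 : rowsOk stA2X a2x_5 a2x_5_m4 false .two = true := by decide +kernel

def a2x_5_r4_two1 : rowsOk stA2X a2x_5 a2x_5_m4 true .two = true := by decide +kernel

def a2x_5_r4_twoE0 : rowsOk stA2X a2x_5 a2x_5_m4 false .twoE = true := by decide +kernel

def a2x_5_r4_twoE1 : rowsOk stA2X a2x_5 a2x_5_m4 true .twoE = true := by decide +kernel

def a2x_5_r4_thrR0 : rowsOk stA2X a2x_5 a2x_5_m4 false .thrR = true := by decide +kernel

def a2x_5_r4_thrR1 : rowsOk stA2X a2x_5 a2x_5_m4 true .thrR = true := by decide +kernel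

def a2x_5_r4_thrL0 : rowsOk stA2X a2x_5 a2x_5_m4 false .thrL = true := by decide +kernel

def a2x_5_r4_thrL1 : rowsOk stA2X a2x_5 a2x_5_m4 true .thrL = true := by decide +kernel

def a2x_5_r4_threeE0 : rowsOk stA2X a2x_5 a2x_5_m4 false .threeE = true := by decide +kernel

def a2x_5_r4_threeE1 : rowsOk stA2X a2x_5 a2x_5_m4 true .threeE = true := by decide +kernel

def a2x_5_r4_ring0 : rowsOk stA2X a2x_5 a2x_5_m4 false .ring = true := by decide +kernel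

def a2x_5_r4_ring1 : rowsOk stA2X a2x_5 a2x_5_m4 true .ring = true := by decide +kernel

def a2x_5_r5_one0 : rowsOk stA2X a2x_5 a2x_5_m5 false .one = true := by decide +kernel

def a2x_5_r5_one1 : rowsOk stA2X a2x_5 a2x_5_m5 true .one = true := by decide +kernel

def a2x_5_r5_two0 : rowsOk stA2X a2x_5 a2x_5_m5 false .two = true := by decide +kernel

def a2x_5_r5_two1 : rowsOk stA2X a2x_5 a2x_5_m5 true .two = true := by decide +kernel

def a2x_5_r5_twoE0 : rowsOk stA2X a2x_5 a2x_5_m5 false .twoE = true := by decide +kernel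

def a2x_5_r5_twoE1 : rowsOk stA2X a2x_5 a2x_5_m5 true .twoE = true := by decide +kernel

def a2x_5_r5_thrR0 : rowsOk stA2X a2x_5 a2x_5_m5 false .thrR = true := by decide +kernel

def a2x_5_r5_thrR1 : rowsOk stA2X a2x_5 a2x_5_m5 true .thrR = true := by decide +kernel

def a2x_5_r5_thrL0 : rowsOk stA2X a2x_5 a2x_5_m5 false .thrL = true := by decide +kernel

def a2x_5_r5_thrL1 : rowsOk stA2X a2x_5 a2x_5_m5 true .thrL = true := by decide +kernel

def a2x_5_r5_threeE0 : rowsOk stA2X a2x_5 a2x_5_m5 false .threeE = true := by decide +kernel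

def a2x_5_r5_threeE1 : rowsOk stA2X a2x_5 a2x_5_m5 true .threeE = true := by decide +kernel

def a2x_5_r5_ring0 : rowsOk stA2X a2x_5 a2x_5_m5 false .ring = true := by decide +kernel

def a2x_5_r5_ring1 : rowsOk stA2X a2x_5 a2x_5_m5 true .ring = true := by decide +kernel

theorem a2x_5_r0 : allRows stA2X a2x_5 a2x_5_m0 = true := by
  refine allRows_of fun P => ?_
  cases P
  exacts [⟨a2x_5_r0_one0, a2x_5_r0_one1⟩,
    ⟨a2x_5_r0_two0, a2x_5_r0_two1⟩,
    ⟨a2x_5_r0_twoE0, a2x_5_r0_twoE1⟩,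
    ⟨a2x_5_r0_thrR0, a2x_5_r0_thrR1⟩,
    ⟨a2x_5_r0_thrL0, a2x_5_r0_thrL1⟩,
    ⟨a2x_5_r0_threeE0, a2x_5_r0_threeE1⟩,
    ⟨a2x_5_r0_ring0, a2x_5_r0_ring1⟩]

theorem a2x_5_r1 : allRows stA2X a2x_5 a2x_5_m1 = true := by
  refine allRows_of fun P => ?_
  cases P
  exacts [⟨a2x_5_r1_one0, a2x_5_r1_one1⟩,
    ⟨a2x_5_r1_two0, a2x_5_r1_two1⟩,
    ⟨a2x_5_r1_twoE0, a2x_5_r1_twoE1⟩,
    ⟨a2x_5_r1_thrR0, a2x_5_r1_thrR1⟩,
    ⟨a2x_5_r1_thrL0, a2x_5_r1_thrL1⟩,
    ⟨a2x_5_r1_threeE0, a2x_5_r1_threeE1⟩,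
    ⟨a2x_5_r1_ring0, a2x_5_r1_ring1⟩]

theorem a2x_5_r2 : allRows stA2X a2x_5 a2x_5_m2 = true := by
  refine allRows_of fun P => ?_
  cases P
  exacts [⟨a2x_5_r2_one0, a2x_5_r2_one1⟩,
    ⟨a2x_5_r2_two0, a2x_5_r2_two1⟩,
    ⟨a2x_5_r2_twoE0, a2x_5_r2_twoE1⟩,
    ⟨a2x_5_r2_thrR0, a2x_5_r2_thrR1⟩,
    ⟨a2x_5_r2_thrL0, a2x_5_r2_thrL1⟩,
    ⟨a2x_5_r2_threeE0, a2x_5_r2_threeE1⟩,
    ⟨a2x_5_r2_ring0, a2x_5_r2_ring1⟩]

theorem a2x_5_r3 : allRows stA2X a2x_5 a2x_5_m3 = true := by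
  refine allRows_of fun P => ?_
  cases P
  exacts [⟨a2x_5_r3_one0, a2x_5_r3_one1⟩,
    ⟨a2x_5_r3_two0, a2x_5_r3_two1⟩,
    ⟨a2x_5_r3_twoE0, a2x_5_r3_twoE1⟩,
    ⟨a2x_5_r3_thrR0, a2x_5_r3_thrR1⟩,
    ⟨a2x_5_r3_thrL0, a2x_5_r3_thrL1⟩,
    ⟨a2x_5_r3_threeE0, a2x_5_r3_threeE1⟩,
    ⟨a2x_5_r3_ring0, a2x_5_r3_ring1⟩]

theorem a2x_5_r4 : allRows stA2X a2x_5 a2x_5_m4 = true := by
  refine allRows_of fun P => ?_
  cases P
  exacts [⟨a2x_5_r4_one0, a2x_5_r4_one1⟩,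
    ⟨a2x_5_r4_two0, a2x_5_r4_two1⟩,
    ⟨a2x_5_r4_twoE0, a2x_5_r4_twoE1⟩,
    ⟨a2x_5_r4_thrR0, a2x_5_r4_thrR1⟩,
    ⟨a2x_5_r4_thrL0, a2x_5_r4_thrL1⟩,
    ⟨a2x_5_r4_threeE0, a2x_5_r4_threeE1⟩,
    ⟨a2x_5_r4_ring0, a2x_5_r4_ring1⟩]

theorem a2x_5_r5 : allRows stA2X a2x_5 a2x_5_m5 = true := by
  refine allRows_of fun P => ?_
  cases P
  exacts [⟨a2x_5_r5_one0, a2x_5_r5_one1⟩,
    ⟨a2x_5_r5_two0, a2x_5_r5_two1⟩,
    ⟨a2x_5_r5_twoE0, a2x_5_r5_twoE1⟩,
    ⟨a2x_5_r5_thrR0, a2x_5_r5_thrR1⟩,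
    ⟨a2x_5_r5_thrL0, a2x_5_r5_thrL1⟩,
    ⟨a2x_5_r5_threeE0, a2x_5_r5_threeE1⟩,
    ⟨a2x_5_r5_ring0, a2x_5_r5_ring1⟩]

theorem a2x_5_ok : a2x_5.ok stA2X = true := by
  have h : (PC.all.all fun P => PC.all.all fun Q => pairOk stA2X a2x_5 P Q) = true := by decide +kernel
  have d0 : mdOk stA2X a2x_5_m0.md = true := by decide +kernel
  have d1 : mdOk stA2X a2x_5_m1.md = true := by decide +kernel
  have d2 : mdOk stA2X a2x_5_m2.md = true := by decide +kernel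
  have d3 : mdOk stA2X a2x_5_m3.md = true := by decide +kernel
  have d4 : mdOk stA2X a2x_5_m4.md = true := by decide +kernel
  have d5 : mdOk stA2X a2x_5_m5.md = true := by decide +kernel
  unfold Piece.ok
  rw [h, Bool.true_and]
  show List.all [a2x_5_m0, a2x_5_m1, a2x_5_m2, a2x_5_m3, a2x_5_m4, a2x_5_m5] _ = true
  rw [List.all_eq_true]
  intro m hm
  simp only [List.mem_cons, List.not_mem_nil, or_false] at hm
  rcases hm with rfl | rfl | rfl | rfl | rfl | rfl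
  · rw [a2x_5_r0, d0]; rfl
  · rw [a2x_5_r1, d1]; rfl
  · rw [a2x_5_r2, d2]; rfl
  · rw [a2x_5_r3, d3]; rfl
  · rw [a2x_5_r4, d4]; rfl
  · rw [a2x_5_r5, d5]; rfl

end OR

end Pool.Agent.Work.MP_b30479_gt.G2
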