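import Pool.Agent.Work.MP_b30479_gt.G2.OStA
import Pool.Agent.Work.MP_b30479_gt.G2.ORows

namespace Pool.Agent.Work.MP_b30479_gt.G2

namespace OR

/-- windows -/
def a2x_6_wp : PC → Win
  | .one => ⟨0, 0, 0, 0, 0, 0⟩
  | .two => ⟨-230, 550, -220, 680, 400, 530⟩
  | .twoE => ⟨0, 0, 0, 0, 0, 0⟩
  | .thrR => ⟨100, 700, 100, 850, 400, 480⟩
  | .thrL => ⟨100, 700, 100, 850, 400, 480⟩
  | .threeE => ⟨-20, 390, 230, 810, 400, 650⟩
  | .ring => ⟨0, 0, 0, 0, 0, 0⟩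

/-- windows -/
def a2x_6_wq : PC → Win
  | .one => ⟨0, 0, 0, 0, 0, 0⟩
  | .two => ⟨0, 0, 0, 0, 0, 0⟩
  | .twoE => ⟨0, 0, 0, 0, 0, 0⟩
  | .thrR => ⟨0, 0, 0, 0, 0, 0⟩
  | .thrL => ⟨0, 0, 0, 0, 0, 0⟩
  | .threeE => ⟨0, 0, 0, 0, 0, 0⟩
  | .ring => ⟨390, 1200, 150, 1120, -650, -400⟩

/-- mode -/
def a2x_6_m0 : Mode where
  md := .V 300 1000
  lam := 1500
  ct := 2000
  gp := fun
    | .one => [e00, e00, e00, e00, e00, e00, e00, e00]
    | .two => [⟨1123, [2178]⟩, ⟨-992, [2401574510409778, 2179, 8, 8, 2179, 2179]⟩, ⟨-1844, [159615027, 159615027, 159613824, 8, 613483754853774114, 36650365730]⟩, ⟨-1844, [0, 0, 0, 0, 559138, 2178]⟩, ⟨-2263, [0, 0, 0, 0, 8, 8]⟩, e00]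
    | .twoE => [e00, e00, e00, e00, e00, e00]
    | .thrR => [⟨958, [8]⟩, ⟨-416, [36550752306, 8, 8, 8, 8, 8]⟩, ⟨-1610, [623491, 623491, 159613824, 8, 144193586, 13]⟩, ⟨-2009, [0, 0, 0, 0, 143140914, 13]⟩, ⟨-2009, [0, 0, 0, 0, 8, 8]⟩, ⟨-2009, [0, 0, 0, 0, 2178, 2178]⟩]
    | .thrL => [⟨958, [8]⟩, ⟨-416, [557954, 8, 8, 8, 8, 8]⟩, ⟨-1610, [623491, 623491, 159613824, 8, 144193586, 13]⟩, ⟨-2009, [0, 0, 0, 0, 143140914, 8]⟩, ⟨-2009, [0, 0, 0, 0, 8, 8]⟩, ⟨-2186, [0, 0, 0, 0, 2178, 2178]⟩]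
    | .threeE => [⟨-11, [2178]⟩, ⟨-752, [9380804723490, 2179, 8, 8, 8, 8]⟩, ⟨-1604, [2179, 2179, 8, 8, 143163698, 13]⟩, ⟨-1604, [0, 0, 0, 0, 2178, 8]⟩, ⟨-1648, [0, 0, 0, 0, 8, 8]⟩, ⟨-2616, [0, 0, 0, 0, 8, 8]⟩]
    | .ring => [e00, e00, e00, e00, e00, e00]
  gq := fun
    | .one => [e00, e00, e00, e00, e00, e00, e00, e00]
    | .two => [e00, e00, e00, e00, e00, e00]
    | .twoE => [e00, e00, e00, e00, e00, e00]
    | .thrR => [e00, e00, e00, e00, e00, e00]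
    | .thrL => [e00, e00, e00, e00, e00, e00]
    | .threeE => [e00, e00, e00, e00, e00, e00]
    | .ring => [⟨-260, [142771074]⟩, ⟨-260, [142837810, 2179, 8, 8, 2179, 13]⟩, ⟨-659, [2179, 2179, 8, 8, 142837810, 13]⟩, ⟨-1112, [0, 0, 0, 0, 36644075570, 13]⟩, ⟨-1853, [0, 0, 0, 0, 10316171146222608725518386, 8]⟩, ⟨-3227, [0, 0, 0, 0, 2178, 142836354]⟩]

/-- mode -/
def a2x_6_m1 : Mode where
  md := .V 550 1000
  lam := 500
  ct := 2000
  gp := fun
    | .one => [e00, e00, e00, e00, e00, e00, e00, e00]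
    | .two => [⟨-229, [557954]⟩, ⟨-438, [36645118850, 2179, 8, 8, 2179, 2179]⟩, e00, e00, e00, e00]
    | .twoE => [e00, e00, e00, e00, e00, e00]
    | .thrR => [⟨-284, [142837810]⟩, ⟨-493, [9360924751922, 8, 8, 8, 8, 8]⟩, ⟨-493, [8, 8, 8, 8, 2178, 13]⟩, e00, e00, e00]
    | .thrL => [⟨-284, [142837810]⟩, ⟨-493, [142837810, 8, 8, 8, 8, 8]⟩, ⟨-493, [8, 8, 8, 8, 2178, 13]⟩, e00, e00, e00]
    | .threeE => [⟨-358, [559138]⟩, ⟨-358, [143139714, 8, 8, 8, 8, 8]⟩, e00, e00, e00, e00]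
    | .ring => [e00, e00, e00, e00, e00, e00]
  gq := fun
    | .one => [e00, e00, e00, e00, e00, e00, e00, e00]
    | .two => [e00, e00, e00, e00, e00, e00]
    | .twoE => [e00, e00, e00, e00, e00, e00]
    | .thrR => [e00, e00, e00, e00, e00, e00]
    | .thrL => [e00, e00, e00, e00, e00, e00]
    | .threeE => [e00, e00, e00, e00, e00, e00]
    | .ring => [⟨-266, [157378433575114999858]⟩, ⟨-266, [157388290701035845682, 2179, 8, 8, 2179, 13]⟩, ⟨-475, [2179, 2179, 8, 8, 142837810, 13]⟩, ⟨-475, [0, 0, 0, 0, 142837810, 13]⟩, e00, e00]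

/-- mode -/
def a2x_6_m2 : Mode where
  md := .V 150 1000
  lam := 0
  ct := -2000
  gp := fun
    | .one => [e00, e00, e00, e00, e00, e00, e00, e00]
    | .two => [e00, e00, e00, e00, e00, ⟨-1411, [0, 0, 0, 0, 2395297229715506, 557698]⟩]
    | .twoE => [e00, e00, e00, e00, e00, e00]
    | .thrR => [e00, e00, e00, e00, e00, e00]
    | .thrL => [e00, e00, e00, e00, e00, e00]
    | .threeE => [e00, e00, e00, e00, e00, e00]
    | .ring => [e00, e00, e00, e00, e00, e00]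
  gq := fun
    | .one => [e00, e00, e00, e00, e00, e00, e00, e00]
    | .two => [e00, e00, e00, e00, e00, e00]
    | .twoE => [e00, e00, e00, e00, e00, e00]
    | .thrR => [e00, e00, e00, e00, e00, e00]
    | .thrL => [e00, e00, e00, e00, e00, e00]
    | .threeE => [e00, e00, e00, e00, e00, e00]
    | .ring => [⟨1407, [557954]⟩, ⟨1407, [557954, 2179, 8, 8, 2179, 8]⟩, ⟨1407, [2179, 2179, 8, 8, 559154, 13]⟩, ⟨1407, [0, 0, 0, 0, 559154, 13]⟩, ⟨1407, [0, 0, 0, 0, 8, 8]⟩, ⟨-1977, [0, 0, 0, 0, 8, 8]⟩]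

/-- mode -/
def a2x_6_m3 : Mode where
  md := .D
  lam := 1500
  ct := 9000
  gp := fun
    | .one => [e00, e00, e00, e00, e00, e00, e00, e00]
    | .two => [e00, e00, e00, e00, e00, e00]
    | .twoE => [e00, e00, e00, e00, e00, e00]
    | .thrR => [⟨-782, [172601070873091468388692920381986]⟩, e00, e00, e00, e00, e00]
    | .thrL => [⟨-782, [40205269392928296940066]⟩, e00, e00, e00, e00, e00]
    | .threeE => [e00, e00, e00, e00, e00, e00]
    | .ring => [e00, e00, e00, e00, e00, e00]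
  gq := fun
    | .one => [e00, e00, e00, e00, e00, e00, e00, e00]
    | .two => [e00, e00, e00, e00, e00, e00]
    | .twoE => [e00, e00, e00, e00, e00, e00]
    | .thrR => [e00, e00, e00, e00, e00, e00]
    | .thrL => [e00, e00, e00, e00, e00, e00]
    | .threeE => [e00, e00, e00, e00, e00, e00]
    | .ring => [⟨-1487, [740975578710251532226339403733967219210274]⟩, e00, e00, e00, e00, e00]

/-- mode -/
def a2x_6_m4 : Mode where
  md := .V 600 1000
  lam := 250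
  ct := 2000
  gp := fun
    | .one => [e00, e00, e00, e00, e00, e00, e00, e00]
    | .two => [⟨-330, [613477497165066786]⟩, e00, e00, e00, e00, e00]
    | .twoE => [e00, e00, e00, e00, e00, e00]
    | .thrR => [⟨-325, [674217590626012931233902240546]⟩, e00, e00, e00, e00, e00]
    | .thrL => [⟨-325, [613202276466045474]⟩, e00, e00, e00, e00, e00]
    | .threeE => [e00, e00, e00, e00, e00, e00]
    | .ring => [e00, e00, e00, e00, e00, e00]
  gq := fun
    | .one => [e00, e00, e00, e00, e00, e00, e00, e00]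
    | .two => [e00, e00, e00, e00, e00, e00]
    | .twoE => [e00, e00, e00, e00, e00, e00]
    | .thrR => [e00, e00, e00, e00, e00, e00]
    | .thrL => [e00, e00, e00, e00, e00, e00]
    | .threeE => [e00, e00, e00, e00, e00, e00]
    | .ring => [⟨-24, [156834060970156591154]⟩, ⟨-57, [10314599018546190587803698, 2179, 8, 8, 2179, 13]⟩, e00, e00, e00, e00]

/-- mode -/
def a2x_6_m5 : Mode where
  md := .V 450 1000
  lam := 500
  ct := 2000
  gp := fun
    | .one => [e00, e00, e00, e00, e00, e00, e00, e00]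
    | .two => [⟨123, [557954]⟩, e00, e00, e00, e00, e00]
    | .twoE => [e00, e00, e00, e00, e00, e00]
    | .thrR => [⟨68, [2178]⟩, e00, e00, e00, e00, e00]
    | .thrL => [⟨68, [2178]⟩, e00, e00, e00, e00, e00]
    | .threeE => [e00, e00, e00, e00, e00, e00]
    | .ring => [e00, e00, e00, e00, e00, e00]
  gq := fun
    | .one => [e00, e00, e00, e00, e00, e00, e00, e00]
    | .two => [e00, e00, e00, e00, e00, e00]
    | .twoE => [e00, e00, e00, e00, e00, e00]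
    | .thrR => [e00, e00, e00, e00, e00, e00]
    | .thrL => [e00, e00, e00, e00, e00, e00]
    | .threeE => [e00, e00, e00, e00, e00, e00]
    | .ring => [e00, e00, e00, e00, ⟨-827, [0, 0, 0, 0, 10293433109660772811810866, 976016715800609410]⟩, e00]

/-- piece -/
def a2x_6 : Piece := ⟨7900, 8050, 400, 820, a2x_6_wp, a2x_6_wq, [a2x_6_m0, a2x_6_m1, a2x_6_m2, a2x_6_m3, a2x_6_m4, a2x_6_m5]⟩

set_option linter.defProp false

def a2x_6_r0_one0 : rowsOk stA2X a2x_6 a2x_6_m0 false .one = true := by decide +kernel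

def a2x_6_r0_one1 : rowsOk stA2X a2x_6 a2x_6_m0 true .one = true := by decide +kernel

def a2x_6_r0_two0 : rowsOk stA2X a2x_6 a2x_6_m0 false .two = true := by decide +kernel

def a2x_6_r0_two1 : rowsOk stA2X a2x_6 a2x_6_m0 true .two = true := by decide +kernel

def a2x_6_r0_twoE0 : rowsOk stA2X a2x_6 a2x_6_m0 false .twoE = true := by decide +kernel

def a2x_6_r0_twoE1 : rowsOk stA2X a2x_6 a2x_6_m0 true .twoE = true := by decide +kernel

def a2x_6_r0_thrR0 : rowsOk stA2X a2x_6 a2x_6_m0 false .thrR = true := by decide +kernel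

def a2x_6_r0_thrR1 : rowsOk stA2X a2x_6 a2x_6_m0 true .thrR = true := by decide +kernel

def a2x_6_r0_thrL0 : rowsOk stA2X a2x_6 a2x_6_m0 false .thrL = true := by decide +kernel

def a2x_6_r0_thrL1 : rowsOk stA2X a2x_6 a2x_6_m0 true .thrL = true := by decide +kernel

def a2x_6_r0_threeE0 : rowsOk stA2X a2x_6 a2x_6_m0 false .threeE = true := by decide +kernel

def a2x_6_r0_threeE1 : rowsOk stA2X a2x_6 a2x_6_m0 true .threeE = true := by decide +kernel

def a2x_6_r0_ring0 : rowsOk stA2X a2x_6 a2x_6_m0 false .ring = true := by decide +kernel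

def a2x_6_r0_ring1 : rowsOk stA2X a2x_6 a2x_6_m0 true .ring = true := by decide +kernel

def a2x_6_r1_one0 : rowsOk stA2X a2x_6 a2x_6_m1 false .one = true := by decide +kernel

def a2x_6_r1_one1 : rowsOk stA2X a2x_6 a2x_6_m1 true .one = true := by decide +kernel

def a2x_6_r1_two0 : rowsOk stA2X a2x_6 a2x_6_m1 false .two = true := by decide +kernel

def a2x_6_r1_two1 : rowsOk stA2X a2x_6 a2x_6_m1 true .two = true := by decide +kernel

def a2x_6_r1_twoE0 : rowsOk stA2X a2x_6 a2x_6_m1 false .twoE = true := by decide +kernel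

def a2x_6_r1_twoE1 : rowsOk stA2X a2x_6 a2x_6_m1 true .twoE = true := by decide +kernel

def a2x_6_r1_thrR0 : rowsOk stA2X a2x_6 a2x_6_m1 false .thrR = true := by decide +kernel

def a2x_6_r1_thrR1 : rowsOk stA2X a2x_6 a2x_6_m1 true .thrR = true := by decide +kernel

def a2x_6_r1_thrL0 : rowsOk stA2X a2x_6 a2x_6_m1 false .thrL = true := by decide +kernel

def a2x_6_r1_thrL1 : rowsOk stA2X a2x_6 a2x_6_m1 true .thrL = true := by decide +kernel

def a2x_6_r1_threeE0 : rowsOk stA2X a2x_6 a2x_6_m1 false .threeE = true := by decide +kernel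

def a2x_6_r1_threeE1 : rowsOk stA2X a2x_6 a2x_6_m1 true .threeE = true := by decide +kernel

def a2x_6_r1_ring0 : rowsOk stA2X a2x_6 a2x_6_m1 false .ring = true := by decide +kernel

def a2x_6_r1_ring1 : rowsOk stA2X a2x_6 a2x_6_m1 true .ring = true := by decide +kernel

def a2x_6_r2_one0 : rowsOk stA2X a2x_6 a2x_6_m2 false .one = true := by decide +kernel

def a2x_6_r2_one1 : rowsOk stA2X a2x_6 a2x_6_m2 true .one = true := by decide +kernel

def a2x_6_r2_two0 : rowsOk stA2X a2x_6 a2x_6_m2 false .two = true := by decide +kernel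

def a2x_6_r2_two1 : rowsOk stA2X a2x_6 a2x_6_m2 true .two = true := by decide +kernel

def a2x_6_r2_twoE0 : rowsOk stA2X a2x_6 a2x_6_m2 false .twoE = true := by decide +kernel

def a2x_6_r2_twoE1 : rowsOk stA2X a2x_6 a2x_6_m2 true .twoE = true := by decide +kernel

def a2x_6_r2_thrR0 : rowsOk stA2X a2x_6 a2x_6_m2 false .thrR = true := by decide +kernel

def a2x_6_r2_thrR1 : rowsOk stA2X a2x_6 a2x_6_m2 true .thrR = true := by decide +kernel

def a2x_6_r2_thrL0 : rowsOk stA2X a2x_6 a2x_6_m2 false .thrL = true := by decide +kernel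

def a2x_6_r2_thrL1 : rowsOk stA2X a2x_6 a2x_6_m2 true .thrL = true := by decide +kernel

def a2x_6_r2_threeE0 : rowsOk stA2X a2x_6 a2x_6_m2 false .threeE = true := by decide +kernel

def a2x_6_r2_threeE1 : rowsOk stA2X a2x_6 a2x_6_m2 true .threeE = true := by decide +kernel

def a2x_6_r2_ring0 : rowsOk stA2X a2x_6 a2x_6_m2 false .ring = true := by decide +kernel

def a2x_6_r2_ring1 : rowsOk stA2X a2x_6 a2x_6_m2 true .ring = true := by decide +kernel

def a2x_6_r3_one0 : rowsOk stA2X a2x_6 a2x_6_m3 false .one = true := by decide +kernel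

def a2x_6_r3_one1 : rowsOk stA2X a2x_6 a2x_6_m3 true .one = true := by decide +kernel

def a2x_6_r3_two0 : rowsOk stA2X a2x_6 a2x_6_m3 false .two = true := by decide +kernel

def a2x_6_r3_two1 : rowsOk stA2X a2x_6 a2x_6_m3 true .two = true := by decide +kernel

def a2x_6_r3_twoE0 : rowsOk stA2X a2x_6 a2x_6_m3 false .twoE = true := by decide +kernel

def a2x_6_r3_twoE1 : rowsOk stA2X a2x_6 a2x_6_m3 true .twoE = true := by decide +kernel

def a2x_6_r3_thrR0 : rowsOk stA2X a2x_6 a2x_6_m3 false .thrR = true := by decide +kernel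

def a2x_6_r3_thrR1 : rowsOk stA2X a2x_6 a2x_6_m3 true .thrR = true := by decide +kernel

def a2x_6_r3_thrL0 : rowsOk stA2X a2x_6 a2x_6_m3 false .thrL = true := by decide +kernel

def a2x_6_r3_thrL1 : rowsOk stA2X a2x_6 a2x_6_m3 true .thrL = true := by decide +kernel

def a2x_6_r3_threeE0 : rowsOk stA2X a2x_6 a2x_6_m3 false .threeE = true := by decide +kernel

def a2x_6_r3_threeE1 : rowsOk stA2X a2x_6 a2x_6_m3 true .threeE = true := by decide +kernel

def a2x_6_r3_ring0 : rowsOk stA2X a2x_6 a2x_6_m3 false .ring = true := by decide +kernel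

def a2x_6_r3_ring1 : rowsOk stA2X a2x_6 a2x_6_m3 true .ring = true := by decide +kernel

def a2x_6_r4_one0 : rowsOk stA2X a2x_6 a2x_6_m4 false .one = true := by decide +kernel

def a2x_6_r4_one1 : rowsOk stA2X a2x_6 a2x_6_m4 true .one = true := by decide +kernel

def a2x_6_r4_two0 : rowsOk stA2X a2x_6 a2x_6_m4 false .two = true := by decide +kernel

def a2x_6_r4_two1 : rowsOk stA2X a2x_6 a2x_6_m4 true .two = true := by decide +kernel

def a2x_6_r4_twoE0 : rowsOk stA2X a2x_6 a2x_6_m4 false .twoE = true := by decide +kernel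

def a2x_6_r4_twoE1 : rowsOk stA2X a2x_6 a2x_6_m4 true .twoE = true := by decide +kernel

def a2x_6_r4_thrR0 : rowsOk stA2X a2x_6 a2x_6_m4 false .thrR = true := by decide +kernel

def a2x_6_r4_thrR1 : rowsOk stA2X a2x_6 a2x_6_m4 true .thrR = true := by decide +kernel

def a2x_6_r4_thrL0 : rowsOk stA2X a2x_6 a2x_6_m4 false .thrL = true := by decide +kernel

def a2x_6_r4_thrL1 : rowsOk stA2X a2x_6 a2x_6_m4 true .thrL = true := by decide +kernel

def a2x_6_r4_threeE0 : rowsOk stA2X a2x_6 a2x_6_m4 false .threeE = true := by decide +kernel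

def a2x_6_r4_threeE1 : rowsOk stA2X a2x_6 a2x_6_m4 true .threeE = true := by decide +kernel

def a2x_6_r4_ring0 : rowsOk stA2X a2x_6 a2x_6_m4 false .ring = true := by decide +kernel

def a2x_6_r4_ring1 : rowsOk stA2X a2x_6 a2x_6_m4 true .ring = true := by decide +kernel

def a2x_6_r5_one0 : rowsOk stA2X a2x_6 a2x_6_m5 false .one = true := by decide +kernel

def a2x_6_r5_one1 : rowsOk stA2X a2x_6 a2x_6_m5 true .one = true := by decide +kernel

def a2x_6_r5_two0 : rowsOk stA2X a2x_6 a2x_6_m5 false .two = true := by decide +kernel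

def a2x_6_r5_two1 : rowsOk stA2X a2x_6 a2x_6_m5 true .two = true := by decide +kernel

def a2x_6_r5_twoE0 : rowsOk stA2X a2x_6 a2x_6_m5 false .twoE = true := by decide +kernel

def a2x_6_r5_twoE1 : rowsOk stA2X a2x_6 a2x_6_m5 true .twoE = true := by decide +kernel

def a2x_6_r5_thrR0 : rowsOk stA2X a2x_6 a2x_6_m5 false .thrR = true := by decide +kernel

def a2x_6_r5_thrR1 : rowsOk stA2X a2x_6 a2x_6_m5 true .thrR = true := by decide +kernel

def a2x_6_r5_thrL0 : rowsOk stA2X a2x_6 a2x_6_m5 false .thrL = true := by decide +kernel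

def a2x_6_r5_thrL1 : rowsOk stA2X a2x_6 a2x_6_m5 true .thrL = true := by decide +kernel

def a2x_6_r5_threeE0 : rowsOk stA2X a2x_6 a2x_6_m5 false .threeE = true := by decide +kernel

def a2x_6_r5_threeE1 : rowsOk stA2X a2x_6 a2x_6_m5 true .threeE = true := by decide +kernel

def a2x_6_r5_ring0 : rowsOk stA2X a2x_6 a2x_6_m5 false .ring = true := by decide +kernel

def a2x_6_r5_ring1 : rowsOk stA2X a2x_6 a2x_6_m5 true .ring = true := by decide +kernel

theorem a2x_6_r0 : allRows stA2X a2x_6 a2x_6_m0 = true := by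
  refine allRows_of fun P => ?_
  cases P
  exacts [⟨a2x_6_r0_one0, a2x_6_r0_one1⟩,
    ⟨a2x_6_r0_two0, a2x_6_r0_two1⟩,
    ⟨a2x_6_r0_twoE0, a2x_6_r0_twoE1⟩,
    ⟨a2x_6_r0_thrR0, a2x_6_r0_thrR1⟩,
    ⟨a2x_6_r0_thrL0, a2x_6_r0_thrL1⟩,
    ⟨a2x_6_r0_threeE0, a2x_6_r0_threeE1⟩,
    ⟨a2x_6_r0_ring0, a2x_6_r0_ring1⟩]

theorem a2x_6_r1 : allRows stA2X a2x_6 a2x_6_m1 = true := by
  refine allRows_of fun P => ?_
  cases P
  exacts [⟨a2x_6_r1_one0, a2x_6_r1_one1⟩,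
    ⟨a2x_6_r1_two0, a2x_6_r1_two1⟩,
    ⟨a2x_6_r1_twoE0, a2x_6_r1_twoE1⟩,
    ⟨a2x_6_r1_thrR0, a2x_6_r1_thrR1⟩,
    ⟨a2x_6_r1_thrL0, a2x_6_r1_thrL1⟩,
    ⟨a2x_6_r1_threeE0, a2x_6_r1_threeE1⟩,
    ⟨a2x_6_r1_ring0, a2x_6_r1_ring1⟩]

theorem a2x_6_r2 : allRows stA2X a2x_6 a2x_6_m2 = true := by
  refine allRows_of fun P => ?_
  cases P
  exacts [⟨a2x_6_r2_one0, a2x_6_r2_one1⟩,
    ⟨a2x_6_r2_two0, a2x_6_r2_two1⟩,
    ⟨a2x_6_r2_twoE0, a2x_6_r2_twoE1⟩,
    ⟨a2x_6_r2_thrR0, a2x_6_r2_thrR1⟩,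
    ⟨a2x_6_r2_thrL0, a2x_6_r2_thrL1⟩,
    ⟨a2x_6_r2_threeE0, a2x_6_r2_threeE1⟩,
    ⟨a2x_6_r2_ring0, a2x_6_r2_ring1⟩]

theorem a2x_6_r3 : allRows stA2X a2x_6 a2x_6_m3 = true := by
  refine allRows_of fun P => ?_
  cases P
  exacts [⟨a2x_6_r3_one0, a2x_6_r3_one1⟩,
    ⟨a2x_6_r3_two0, a2x_6_r3_two1⟩,
    ⟨a2x_6_r3_twoE0, a2x_6_r3_twoE1⟩,
    ⟨a2x_6_r3_thrR0, a2x_6_r3_thrR1⟩,
    ⟨a2x_6_r3_thrL0, a2x_6_r3_thrL1⟩,
    ⟨a2x_6_r3_threeE0, a2x_6_r3_threeE1⟩,
    ⟨a2x_6_r3_ring0, a2x_6_r3_ring1⟩]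

theorem a2x_6_r4 : allRows stA2X a2x_6 a2x_6_m4 = true := by
  refine allRows_of fun P => ?_
  cases P
  exacts [⟨a2x_6_r4_one0, a2x_6_r4_one1⟩,
    ⟨a2x_6_r4_two0, a2x_6_r4_two1⟩,
    ⟨a2x_6_r4_twoE0, a2x_6_r4_twoE1⟩,
    ⟨a2x_6_r4_thrR0, a2x_6_r4_thrR1⟩,
    ⟨a2x_6_r4_thrL0, a2x_6_r4_thrL1⟩,
    ⟨a2x_6_r4_threeE0, a2x_6_r4_threeE1⟩,
    ⟨a2x_6_r4_ring0, a2x_6_r4_ring1⟩]

theorem a2x_6_r5 : allRows stA2X a2x_6 a2x_6_m5 = true := by
  refine allRows_of fun P => ?_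
  cases P
  exacts [⟨a2x_6_r5_one0, a2x_6_r5_one1⟩,
    ⟨a2x_6_r5_two0, a2x_6_r5_two1⟩,
    ⟨a2x_6_r5_twoE0, a2x_6_r5_twoE1⟩,
    ⟨a2x_6_r5_thrR0, a2x_6_r5_thrR1⟩,
    ⟨a2x_6_r5_thrL0, a2x_6_r5_thrL1⟩,
    ⟨a2x_6_r5_threeE0, a2x_6_r5_threeE1⟩,
    ⟨a2x_6_r5_ring0, a2x_6_r5_ring1⟩]

theorem a2x_6_ok : a2x_6.ok stA2X = true := by
  have h : (PC.all.all fun P => PC.all.all fun Q => pairOk stA2X a2x_6 P Q) = true := by decide +kernel
  have d0 : mdOk stA2X a2x_6_m0.md = true := by decide +kernel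
  have d1 : mdOk stA2X a2x_6_m1.md = true := by decide +kernel
  have d2 : mdOk stA2X a2x_6_m2.md = true := by decide +kernel
  have d3 : mdOk stA2X a2x_6_m3.md = true := by decide +kernel
  have d4 : mdOk stA2X a2x_6_m4.md = true := by decide +kernel
  have d5 : mdOk stA2X a2x_6_m5.md = true := by decide +kernel
  unfold Piece.ok
  rw [h, Bool.true_and]
  show List.all [a2x_6_m0, a2x_6_m1, a2x_6_m2, a2x_6_m3, a2x_6_m4, a2x_6_m5] _ = true
  rw [List.all_eq_true]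
  intro m hm
  simp only [List.mem_cons, List.not_mem_nil, or_false] at hm
  rcases hm with rfl | rfl | rfl | rfl | rfl | rfl
  · rw [a2x_6_r0, d0]; rfl
  · rw [a2x_6_r1, d1]; rfl
  · rw [a2x_6_r2, d2]; rfl
  · rw [a2x_6_r3, d3]; rfl
  · rw [a2x_6_r4, d4]; rfl
  · rw [a2x_6_r5, d5]; rfl

end OR

end Pool.Agent.Work.MP_b30479_gt.G2
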