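import Pool.Agent.Work.MP_b30479_gt.G2.OStA
import Pool.Agent.Work.MP_b30479_gt.G2.ORows

namespace Pool.Agent.Work.MP_b30479_gt.G2

namespace OR

/-- windows -/
def a2x_7_wp : PC → Win
  | .one => ⟨0, 0, 0, 0, 0, 0⟩
  | .two => ⟨-230, 550, -220, 680, 0, 530⟩
  | .twoE => ⟨0, 0, 0, 0, 0, 0⟩
  | .thrR => ⟨100, 700, 100, 850, 0, 480⟩
  | .thrL => ⟨100, 700, 100, 850, 0, 480⟩
  | .threeE => ⟨-20, 390, 230, 810, 20, 650⟩
  | .ring => ⟨390, 1200, 310, 1120, 0, 320⟩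

/-- windows -/
def a2x_7_wq : PC → Win
  | .one => ⟨0, 0, 0, 0, 0, 0⟩
  | .two => ⟨-230, 550, -220, 680, -320, 0⟩
  | .twoE => ⟨0, 0, 0, 0, 0, 0⟩
  | .thrR => ⟨100, 700, 100, 850, -270, 0⟩
  | .thrL => ⟨100, 700, 100, 850, -270, 0⟩
  | .threeE => ⟨0, 0, 0, 0, 0, 0⟩
  | .ring => ⟨390, 1200, 150, 1120, -650, 0⟩

/-- mode -/
def a2x_7_m0 : Mode where
  md := .V 300 1000
  lam := 1250
  ct := 2000
  gp := fun
    | .one => [e00, e00, e00, e00, e00, e00, e00, e00]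
    | .two => [⟨1263, [557954]⟩, ⟨-315, [612920663127328818, 559123, 8, 8, 143136819, 143163699]⟩, ⟨-1442, [0, 0, 8, 8, 10292549395047141850948386, 2401919793570594]⟩, ⟨-1802, [0, 0, 0, 0, 559138, 2178]⟩, ⟨-1802, [0, 0, 0, 0, 8, 8]⟩, e00]
    | .twoE => [e00, e00, e00, e00, e00, e00]
    | .thrR => [⟨1125, [8]⟩, ⟨1125, [143135618, 2179, 8, 8, 2179, 13]⟩, ⟨-1170, [0, 0, 8, 8, 2401437422719794, 13]⟩, ⟨-1939, [0, 0, 0, 0, 2401893947090994, 8]⟩, ⟨-1939, [0, 0, 0, 0, 8, 8]⟩, ⟨-1939, [0, 0, 0, 0, 557698, 557698]⟩]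
    | .thrL => [⟨1125, [2178]⟩, ⟨-452, [2401554721683506, 2179, 8, 8, 559123, 13]⟩, ⟨-1170, [0, 0, 8, 8, 2401437422719794, 13]⟩, ⟨-1939, [0, 0, 0, 0, 9380881250354, 8]⟩, ⟨-1939, [0, 0, 0, 0, 8, 8]⟩, ⟨-1939, [0, 0, 0, 0, 2178, 2178]⟩]
    | .threeE => [⟨1463, [8]⟩, ⟨-115, [36642718338, 2177, 8, 8, 559123, 559123]⟩, ⟨-1602, [0, 0, 8, 8, 2401889736139554, 9382498738978]⟩, ⟨-1602, [0, 0, 0, 0, 8, 8]⟩, ⟨-1602, [0, 0, 0, 0, 8, 8]⟩, ⟨-2496, [0, 0, 0, 0, 8, 8]⟩]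
    | .ring => [⟨11, [2394201644344194]⟩, ⟨11, [175877037787537572739, 2179, 8, 8, 2179, 8]⟩, ⟨-364, [0, 0, 3200, 8, 157056435708566714418, 13]⟩, ⟨-890, [0, 0, 0, 0, 158569916832260043395, 8]⟩, ⟨-1719, [0, 0, 0, 0, 743699873473123016377214777346167717177394, 8]⟩, ⟨-3178, [0, 0, 0, 0, 2178, 2178]⟩]
  gq := fun
    | .one => [e00, e00, e00, e00, e00, e00, e00, e00]
    | .two => [⟨1424, [557954]⟩, ⟨-864, [157051804948672034866, 557955, 8, 8, 142837811, 886835]⟩, ⟨-1390, [0, 0, 8, 8, 157389697594999452450, 2407415479874338]⟩, ⟨-1765, [0, 0, 0, 0, 2178, 2178]⟩, ⟨-1765, [0, 0, 0, 0, 8, 8]⟩, e00]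
    | .twoE => [e00, e00, e00, e00, e00, e00]
    | .thrR => [⟨-173, [557954]⟩, ⟨-173, [36644815490, 2179, 8, 8, 559155, 13]⟩, ⟨-1002, [0, 0, 8, 8, 36650365730, 13]⟩, ⟨-1903, [0, 0, 0, 0, 559154, 8]⟩, ⟨-1903, [0, 0, 0, 0, 8, 8]⟩, ⟨-1903, [0, 0, 0, 0, 2178, 557698]⟩]
    | .thrL => [⟨-173, [557954]⟩, ⟨-173, [143139714, 2179, 8, 8, 559155, 13]⟩, ⟨-1002, [0, 0, 8, 8, 36650365730, 13]⟩, ⟨-1903, [0, 0, 0, 0, 559154, 8]⟩, ⟨-1903, [0, 0, 0, 0, 8, 8]⟩, ⟨-1903, [0, 0, 0, 0, 2178, 2178]⟩]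
    | .threeE => [e00, e00, e00, e00, e00, e00]
    | .ring => [⟨48, [2394221256913538]⟩, ⟨48, [9381055924243, 2179, 8, 8, 2179, 13]⟩, ⟨-312, [0, 0, 8, 8, 9361019115570, 13]⟩, ⟨-722, [0, 0, 0, 0, 2401892413487154, 8]⟩, ⟨-1439, [0, 0, 0, 0, 2640938625500493700239927346, 8]⟩, ⟨-3017, [0, 0, 0, 0, 557954, 142705282]⟩]

/-- mode -/
def a2x_7_m1 : Mode where
  md := .V 600 1000
  lam := 250
  ct := 2000
  gp := fun
    | .one => [e00, e00, e00, e00, e00, e00, e00, e00]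
    | .two => [⟨-228, [40168039729442140467746]⟩, ⟨-695, [613483748948187186, 142706739, 8, 8, 9352427110707, 36643045683]⟩, ⟨-228, [0, 0, 8, 8, 614883770662728482, 2401917921735458]⟩, e00, e00, e00]
    | .twoE => [e00, e00, e00, e00, e00, e00]
    | .thrR => [⟨-256, [209192568162127122981251602887417216013976788544777622066]⟩, ⟨-256, [2401888310401074, 2179, 8, 8, 559123, 13]⟩, ⟨-256, [0, 0, 8, 8, 143164210, 13]⟩, e00, e00, e00]
    | .thrL => [⟨-256, [674532488943333481896907117346]⟩, ⟨-256, [36644816946, 2179, 8, 8, 559123, 13]⟩, ⟨-256, [0, 0, 8, 8, 143164210, 13]⟩, e00, e00, e00]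
    | .threeE => [⟨-188, [36532945186]⟩, ⟨-655, [2401554628352050, 2179, 8, 8, 559155, 559123]⟩, e00, e00, e00, e00]
    | .ring => [⟨-133, [2632447824498414833221796642]⟩, ⟨-180, [2971055778854898806979396483, 2179, 8, 8, 2179, 8]⟩, ⟨-180, [0, 0, 8, 8, 142837810, 13]⟩, ⟨-180, [0, 0, 0, 0, 142837810, 13]⟩, e00, e00]
  gq := fun
    | .one => [e00, e00, e00, e00, e00, e00, e00, e00]
    | .two => [⟨-221, [9360940107810]⟩, ⟨-221, [9361018816562, 2179, 8, 8, 142837811, 886835]⟩, ⟨-221, [0, 0, 8, 8, 9382415315746, 36734251810]⟩, e00, e00, e00]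
    | .twoE => [e00, e00, e00, e00, e00, e00]
    | .thrR => [⟨-202, [36549396514]⟩, ⟨-248, [9381072767026, 2179, 8, 8, 559155, 13]⟩, ⟨-248, [0, 0, 8, 8, 36650365730, 13]⟩, e00, e00, e00]
    | .thrL => [⟨-202, [36566108194]⟩, ⟨-248, [36645118850, 2179, 8, 8, 559155, 13]⟩, ⟨-248, [0, 0, 8, 8, 36650365730, 13]⟩, e00, e00, e00]
    | .threeE => [e00, e00, e00, e00, e00, e00]
    | .ring => [⟨-126, [3182434277411181467436779250485691772437587651232306]⟩, ⟨-126, [3509731784914421530507196480617874524941421759696080468430784531, 2179, 2179, 8, 557443, 13]⟩, ⟨-126, [0, 0, 2179, 8, 36566472754, 13]⟩, ⟨341, [0, 0, 0, 0, 40289432381129900591154, 13]⟩, e00, e00]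

/-- mode -/
def a2x_7_m2 : Mode where
  md := .V 150 1000
  lam := 1250
  ct := 1000
  gp := fun
    | .one => [e00, e00, e00, e00, e00, e00, e00, e00]
    | .two => [e00, e00, e00, e00, e00, ⟨-2876, [0, 0, 0, 0, 12442801853001908733510523094518414407879276856098, 614885626239681154]⟩]
    | .twoE => [e00, e00, e00, e00, e00, e00]
    | .thrR => [e00, e00, e00, e00, e00, e00]
    | .thrL => [e00, e00, e00, e00, e00, e00]
    | .threeE => [e00, e00, e00, e00, e00, e00]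
    | .ring => [⟨1156, [929541968026360189650341471106]⟩, ⟨1156, [12760586974888667797812870040260780931, 10549380350851, 10549380350851, 8, 40939651971, 8]⟩, ⟨1156, [0, 0, 15474250254265688693149696, 8, 40168038434217334945842, 13]⟩, ⟨1156, [0, 0, 0, 0, 143139459, 8]⟩, ⟨1156, [0, 0, 0, 0, 8, 8]⟩, ⟨-1857, [0, 0, 0, 0, 8, 8]⟩]
  gq := fun
    | .one => [e00, e00, e00, e00, e00, e00, e00, e00]
    | .two => [e00, e00, e00, e00, e00, ⟨-2910, [0, 0, 0, 0, 10287703235497854176363298, 815460233627193735518879561234912102390958134176940674]⟩]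
    | .twoE => [e00, e00, e00, e00, e00, e00]
    | .thrR => [e00, e00, e00, e00, e00, e00]
    | .thrL => [e00, e00, e00, e00, e00, e00]
    | .threeE => [e00, e00, e00, e00, e00, e00]
    | .ring => [⟨1122, [2634892497629604870682583938]⟩, ⟨1122, [2897185311060700217468906539650939847043, 2179, 8, 8, 2179, 8]⟩, ⟨1122, [0, 0, 8, 8, 36566472754, 13]⟩, ⟨1122, [0, 0, 0, 0, 557699, 8]⟩, ⟨1122, [0, 0, 0, 0, 8, 8]⟩, ⟨-1857, [0, 0, 0, 0, 8, 8]⟩]

/-- mode -/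
def a2x_7_m3 : Mode where
  md := .V 450 1000
  lam := 750
  ct := 2000
  gp := fun
    | .one => [e00, e00, e00, e00, e00, e00, e00, e00]
    | .two => [⟨-152, [36566108210]⟩, e00, e00, e00, e00, e00]
    | .twoE => [e00, e00, e00, e00, e00, e00]
    | .thrR => [⟨-234, [142837810]⟩, ⟨-234, [9382376212530, 2179, 8, 8, 559123, 13]⟩, e00, e00, e00, e00]
    | .thrL => [⟨-234, [36532619314]⟩, ⟨-234, [143135618, 2179, 8, 8, 559123, 13]⟩, e00, e00, e00, e00]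
    | .threeE => [⟨-32, [2178]⟩, e00, e00, e00, e00, e00]
    | .ring => [e00, e00, e00, e00, ⟨-1222, [0, 0, 0, 0, 2640537238209935141868110626, 3539]⟩, e00]
  gq := fun
    | .one => [e00, e00, e00, e00, e00, e00, e00, e00]
    | .two => [⟨168, [142836354]⟩, e00, e00, e00, e00, e00]
    | .twoE => [e00, e00, e00, e00, e00, e00]
    | .thrR => [e00, e00, e00, e00, e00, e00]
    | .thrL => [e00, e00, e00, e00, e00, e00]
    | .threeE => [e00, e00, e00, e00, e00, e00]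
    | .ring => [e00, e00, e00, ⟨-902, [0, 0, 0, 0, 2634894010336539110032291890, 8]⟩, ⟨-902, [0, 0, 0, 0, 189864015537429026397586627848329736010957602, 255423940411031519874]⟩, e00]

/-- mode -/
def a2x_7_m4 : Mode where
  md := .D
  lam := 2000
  ct := 10000
  gp := fun
    | .one => [e00, e00, e00, e00, e00, e00, e00, e00]
    | .two => [e00, e00, e00, e00, e00, e00]
    | .twoE => [e00, e00, e00, e00, e00, e00]
    | .thrR => [e00, e00, e00, e00, e00, e00]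
    | .thrL => [e00, e00, e00, e00, e00, e00]
    | .threeE => [e00, e00, e00, e00, e00, e00]
    | .ring => [⟨-1020, [2634892534934890505397895970]⟩, e00, e00, e00, e00, e00]
  gq := fun
    | .one => [e00, e00, e00, e00, e00, e00, e00, e00]
    | .two => [e00, e00, e00, e00, e00, e00]
    | .twoE => [e00, e00, e00, e00, e00, e00]
    | .thrR => [⟨-2004, [9356722800690]⟩, e00, e00, e00, e00, e00]
    | .thrL => [⟨-2004, [613483729162242082]⟩, e00, e00, e00, e00, e00]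
    | .threeE => [e00, e00, e00, e00, e00, e00]
    | .ring => [e00, e00, e00, e00, e00, e00]

/-- mode -/
def a2x_7_m5 : Mode where
  md := .V 600 1000
  lam := 1000
  ct := 2000
  gp := fun
    | .one => [e00, e00, e00, e00, e00, e00, e00, e00]
    | .two => [e00, e00, e00, e00, e00, e00]
    | .twoE => [e00, e00, e00, e00, e00, e00]
    | .thrR => [e00, ⟨-730, [9382376212530, 2179, 8, 8, 559123, 13]⟩, e00, e00, e00, e00]
    | .thrL => [e00, e00, e00, e00, e00, e00]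
    | .threeE => [e00, e00, e00, e00, e00, e00]
    | .ring => [e00, e00, e00, e00, e00, e00]
  gq := fun
    | .one => [e00, e00, e00, e00, e00, e00, e00, e00]
    | .two => [e00, e00, e00, e00, e00, e00]
    | .twoE => [e00, e00, e00, e00, e00, e00]
    | .thrR => [e00, e00, e00, e00, e00, e00]
    | .thrL => [e00, e00, e00, e00, e00, e00]
    | .threeE => [e00, e00, e00, e00, e00, e00]
    | .ring => [e00, ⟨-784, [142706739, 2179, 8, 8, 2179, 13]⟩, e00, e00, e00, e00]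

/-- piece -/
def a2x_7 : Piece := ⟨8050, 8200, 0, 820, a2x_7_wp, a2x_7_wq, [a2x_7_m0, a2x_7_m1, a2x_7_m2, a2x_7_m3, a2x_7_m4, a2x_7_m5]⟩

set_option linter.defProp false

def a2x_7_r0_one0 : rowsOk stA2X a2x_7 a2x_7_m0 false .one = true := by decide +kernel

def a2x_7_r0_one1 : rowsOk stA2X a2x_7 a2x_7_m0 true .one = true := by decide +kernel

def a2x_7_r0_two0 : rowsOk stA2X a2x_7 a2x_7_m0 false .two = true := by decide +kernel

def a2x_7_r0_two1 : rowsOk stA2X a2x_7 a2x_7_m0 true .two = true := by decide +kernel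

def a2x_7_r0_twoE0 : rowsOk stA2X a2x_7 a2x_7_m0 false .twoE = true := by decide +kernel

def a2x_7_r0_twoE1 : rowsOk stA2X a2x_7 a2x_7_m0 true .twoE = true := by decide +kernel

def a2x_7_r0_thrR0 : rowsOk stA2X a2x_7 a2x_7_m0 false .thrR = true := by decide +kernel

def a2x_7_r0_thrR1 : rowsOk stA2X a2x_7 a2x_7_m0 true .thrR = true := by decide +kernel

def a2x_7_r0_thrL0 : rowsOk stA2X a2x_7 a2x_7_m0 false .thrL = true := by decide +kernel

def a2x_7_r0_thrL1 : rowsOk stA2X a2x_7 a2x_7_m0 true .thrL = true := by decide +kernel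

def a2x_7_r0_threeE0 : rowsOk stA2X a2x_7 a2x_7_m0 false .threeE = true := by decide +kernel

def a2x_7_r0_threeE1 : rowsOk stA2X a2x_7 a2x_7_m0 true .threeE = true := by decide +kernel

def a2x_7_r0_ring0 : rowsOk stA2X a2x_7 a2x_7_m0 false .ring = true := by decide +kernel

def a2x_7_r0_ring1 : rowsOk stA2X a2x_7 a2x_7_m0 true .ring = true := by decide +kernel

def a2x_7_r1_one0 : rowsOk stA2X a2x_7 a2x_7_m1 false .one = true := by decide +kernel

def a2x_7_r1_one1 : rowsOk stA2X a2x_7 a2x_7_m1 true .one = true := by decide +kernel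

def a2x_7_r1_two0 : rowsOk stA2X a2x_7 a2x_7_m1 false .two = true := by decide +kernel

def a2x_7_r1_two1 : rowsOk stA2X a2x_7 a2x_7_m1 true .two = true := by decide +kernel

def a2x_7_r1_twoE0 : rowsOk stA2X a2x_7 a2x_7_m1 false .twoE = true := by decide +kernel

def a2x_7_r1_twoE1 : rowsOk stA2X a2x_7 a2x_7_m1 true .twoE = true := by decide +kernel

def a2x_7_r1_thrR0 : rowsOk stA2X a2x_7 a2x_7_m1 false .thrR = true := by decide +kernel

def a2x_7_r1_thrR1 : rowsOk stA2X a2x_7 a2x_7_m1 true .thrR = true := by decide +kernel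

def a2x_7_r1_thrL0 : rowsOk stA2X a2x_7 a2x_7_m1 false .thrL = true := by decide +kernel

def a2x_7_r1_thrL1 : rowsOk stA2X a2x_7 a2x_7_m1 true .thrL = true := by decide +kernel

def a2x_7_r1_threeE0 : rowsOk stA2X a2x_7 a2x_7_m1 false .threeE = true := by decide +kernel

def a2x_7_r1_threeE1 : rowsOk stA2X a2x_7 a2x_7_m1 true .threeE = true := by decide +kernel

def a2x_7_r1_ring0 : rowsOk stA2X a2x_7 a2x_7_m1 false .ring = true := by decide +kernel

def a2x_7_r1_ring1 : rowsOk stA2X a2x_7 a2x_7_m1 true .ring = true := by decide +kernel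

def a2x_7_r2_one0 : rowsOk stA2X a2x_7 a2x_7_m2 false .one = true := by decide +kernel

def a2x_7_r2_one1 : rowsOk stA2X a2x_7 a2x_7_m2 true .one = true := by decide +kernel

def a2x_7_r2_two0 : rowsOk stA2X a2x_7 a2x_7_m2 false .two = true := by decide +kernel

def a2x_7_r2_two1 : rowsOk stA2X a2x_7 a2x_7_m2 true .two = true := by decide +kernel

def a2x_7_r2_twoE0 : rowsOk stA2X a2x_7 a2x_7_m2 false .twoE = true := by decide +kernel

def a2x_7_r2_twoE1 : rowsOk stA2X a2x_7 a2x_7_m2 true .twoE = true := by decide +kernel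

def a2x_7_r2_thrR0 : rowsOk stA2X a2x_7 a2x_7_m2 false .thrR = true := by decide +kernel

def a2x_7_r2_thrR1 : rowsOk stA2X a2x_7 a2x_7_m2 true .thrR = true := by decide +kernel

def a2x_7_r2_thrL0 : rowsOk stA2X a2x_7 a2x_7_m2 false .thrL = true := by decide +kernel

def a2x_7_r2_thrL1 : rowsOk stA2X a2x_7 a2x_7_m2 true .thrL = true := by decide +kernel

def a2x_7_r2_threeE0 : rowsOk stA2X a2x_7 a2x_7_m2 false .threeE = true := by decide +kernel

def a2x_7_r2_threeE1 : rowsOk stA2X a2x_7 a2x_7_m2 true .threeE = true := by decide +kernel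

def a2x_7_r2_ring0 : rowsOk stA2X a2x_7 a2x_7_m2 false .ring = true := by decide +kernel

def a2x_7_r2_ring1 : rowsOk stA2X a2x_7 a2x_7_m2 true .ring = true := by decide +kernel

def a2x_7_r3_one0 : rowsOk stA2X a2x_7 a2x_7_m3 false .one = true := by decide +kernel

def a2x_7_r3_one1 : rowsOk stA2X a2x_7 a2x_7_m3 true .one = true := by decide +kernel

def a2x_7_r3_two0 : rowsOk stA2X a2x_7 a2x_7_m3 false .two = true := by decide +kernel

def a2x_7_r3_two1 : rowsOk stA2X a2x_7 a2x_7_m3 true .two = true := by decide +kernel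

def a2x_7_r3_twoE0 : rowsOk stA2X a2x_7 a2x_7_m3 false .twoE = true := by decide +kernel

def a2x_7_r3_twoE1 : rowsOk stA2X a2x_7 a2x_7_m3 true .twoE = true := by decide +kernel

def a2x_7_r3_thrR0 : rowsOk stA2X a2x_7 a2x_7_m3 false .thrR = true := by decide +kernel

def a2x_7_r3_thrR1 : rowsOk stA2X a2x_7 a2x_7_m3 true .thrR = true := by decide +kernel

def a2x_7_r3_thrL0 : rowsOk stA2X a2x_7 a2x_7_m3 false .thrL = true := by decide +kernel

def a2x_7_r3_thrL1 : rowsOk stA2X a2x_7 a2x_7_m3 true .thrL = true := by decide +kernel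

def a2x_7_r3_threeE0 : rowsOk stA2X a2x_7 a2x_7_m3 false .threeE = true := by decide +kernel

def a2x_7_r3_threeE1 : rowsOk stA2X a2x_7 a2x_7_m3 true .threeE = true := by decide +kernel

def a2x_7_r3_ring0 : rowsOk stA2X a2x_7 a2x_7_m3 false .ring = true := by decide +kernel

def a2x_7_r3_ring1 : rowsOk stA2X a2x_7 a2x_7_m3 true .ring = true := by decide +kernel

def a2x_7_r4_one0 : rowsOk stA2X a2x_7 a2x_7_m4 false .one = true := by decide +kernel

def a2x_7_r4_one1 : rowsOk stA2X a2x_7 a2x_7_m4 true .one = true := by decide +kernel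

def a2x_7_r4_two0 : rowsOk stA2X a2x_7 a2x_7_m4 false .two = true := by decide +kernel

def a2x_7_r4_two1 : rowsOk stA2X a2x_7 a2x_7_m4 true .two = true := by decide +kernel

def a2x_7_r4_twoE0 : rowsOk stA2X a2x_7 a2x_7_m4 false .twoE = true := by decide +kernel

def a2x_7_r4_twoE1 : rowsOk stA2X a2x_7 a2x_7_m4 true .twoE = true := by decide +kernel

def a2x_7_r4_thrR0 : rowsOk stA2X a2x_7 a2x_7_m4 false .thrR = true := by decide +kernel

def a2x_7_r4_thrR1 : rowsOk stA2X a2x_7 a2x_7_m4 true .thrR = true := by decide +kernel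

def a2x_7_r4_thrL0 : rowsOk stA2X a2x_7 a2x_7_m4 false .thrL = true := by decide +kernel

def a2x_7_r4_thrL1 : rowsOk stA2X a2x_7 a2x_7_m4 true .thrL = true := by decide +kernel

def a2x_7_r4_threeE0 : rowsOk stA2X a2x_7 a2x_7_m4 false .threeE = true := by decide +kernel

def a2x_7_r4_threeE1 : rowsOk stA2X a2x_7 a2x_7_m4 true .threeE = true := by decide +kernel

def a2x_7_r4_ring0 : rowsOk stA2X a2x_7 a2x_7_m4 false .ring = true := by decide +kernel

def a2x_7_r4_ring1 : rowsOk stA2X a2x_7 a2x_7_m4 true .ring = true := by decide +kernel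

def a2x_7_r5_one0 : rowsOk stA2X a2x_7 a2x_7_m5 false .one = true := by decide +kernel

def a2x_7_r5_one1 : rowsOk stA2X a2x_7 a2x_7_m5 true .one = true := by decide +kernel

def a2x_7_r5_two0 : rowsOk stA2X a2x_7 a2x_7_m5 false .two = true := by decide +kernel

def a2x_7_r5_two1 : rowsOk stA2X a2x_7 a2x_7_m5 true .two = true := by decide +kernel

def a2x_7_r5_twoE0 : rowsOk stA2X a2x_7 a2x_7_m5 false .twoE = true := by decide +kernel

def a2x_7_r5_twoE1 : rowsOk stA2X a2x_7 a2x_7_m5 true .twoE = true := by decide +kernel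

def a2x_7_r5_thrR0 : rowsOk stA2X a2x_7 a2x_7_m5 false .thrR = true := by decide +kernel

def a2x_7_r5_thrR1 : rowsOk stA2X a2x_7 a2x_7_m5 true .thrR = true := by decide +kernel

def a2x_7_r5_thrL0 : rowsOk stA2X a2x_7 a2x_7_m5 false .thrL = true := by decide +kernel

def a2x_7_r5_thrL1 : rowsOk stA2X a2x_7 a2x_7_m5 true .thrL = true := by decide +kernel

def a2x_7_r5_threeE0 : rowsOk stA2X a2x_7 a2x_7_m5 false .threeE = true := by decide +kernel

def a2x_7_r5_threeE1 : rowsOk stA2X a2x_7 a2x_7_m5 true .threeE = true := by decide +kernel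

def a2x_7_r5_ring0 : rowsOk stA2X a2x_7 a2x_7_m5 false .ring = true := by decide +kernel

def a2x_7_r5_ring1 : rowsOk stA2X a2x_7 a2x_7_m5 true .ring = true := by decide +kernel

theorem a2x_7_r0 : allRows stA2X a2x_7 a2x_7_m0 = true := by
  refine allRows_of fun P => ?_
  cases P
  exacts [⟨a2x_7_r0_one0, a2x_7_r0_one1⟩,
    ⟨a2x_7_r0_two0, a2x_7_r0_two1⟩,
    ⟨a2x_7_r0_twoE0, a2x_7_r0_twoE1⟩,
    ⟨a2x_7_r0_thrR0, a2x_7_r0_thrR1⟩,
    ⟨a2x_7_r0_thrL0, a2x_7_r0_thrL1⟩,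
    ⟨a2x_7_r0_threeE0, a2x_7_r0_threeE1⟩,
    ⟨a2x_7_r0_ring0, a2x_7_r0_ring1⟩]

theorem a2x_7_r1 : allRows stA2X a2x_7 a2x_7_m1 = true := by
  refine allRows_of fun P => ?_
  cases P
  exacts [⟨a2x_7_r1_one0, a2x_7_r1_one1⟩,
    ⟨a2x_7_r1_two0, a2x_7_r1_two1⟩,
    ⟨a2x_7_r1_twoE0, a2x_7_r1_twoE1⟩,
    ⟨a2x_7_r1_thrR0, a2x_7_r1_thrR1⟩,
    ⟨a2x_7_r1_thrL0, a2x_7_r1_thrL1⟩,
    ⟨a2x_7_r1_threeE0, a2x_7_r1_threeE1⟩,
    ⟨a2x_7_r1_ring0, a2x_7_r1_ring1⟩]

theorem a2x_7_r2 : allRows stA2X a2x_7 a2x_7_m2 = true := by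
  refine allRows_of fun P => ?_
  cases P
  exacts [⟨a2x_7_r2_one0, a2x_7_r2_one1⟩,
    ⟨a2x_7_r2_two0, a2x_7_r2_two1⟩,
    ⟨a2x_7_r2_twoE0, a2x_7_r2_twoE1⟩,
    ⟨a2x_7_r2_thrR0, a2x_7_r2_thrR1⟩,
    ⟨a2x_7_r2_thrL0, a2x_7_r2_thrL1⟩,
    ⟨a2x_7_r2_threeE0, a2x_7_r2_threeE1⟩,
    ⟨a2x_7_r2_ring0, a2x_7_r2_ring1⟩]

theorem a2x_7_r3 : allRows stA2X a2x_7 a2x_7_m3 = true := by
  refine allRows_of fun P => ?_
  cases P
  exacts [⟨a2x_7_r3_one0, a2x_7_r3_one1⟩,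
    ⟨a2x_7_r3_two0, a2x_7_r3_two1⟩,
    ⟨a2x_7_r3_twoE0, a2x_7_r3_twoE1⟩,
    ⟨a2x_7_r3_thrR0, a2x_7_r3_thrR1⟩,
    ⟨a2x_7_r3_thrL0, a2x_7_r3_thrL1⟩,
    ⟨a2x_7_r3_threeE0, a2x_7_r3_threeE1⟩,
    ⟨a2x_7_r3_ring0, a2x_7_r3_ring1⟩]

theorem a2x_7_r4 : allRows stA2X a2x_7 a2x_7_m4 = true := by
  refine allRows_of fun P => ?_
  cases P
  exacts [⟨a2x_7_r4_one0, a2x_7_r4_one1⟩,
    ⟨a2x_7_r4_two0, a2x_7_r4_two1⟩,
    ⟨a2x_7_r4_twoE0, a2x_7_r4_twoE1⟩,
    ⟨a2x_7_r4_thrR0, a2x_7_r4_thrR1⟩,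
    ⟨a2x_7_r4_thrL0, a2x_7_r4_thrL1⟩,
    ⟨a2x_7_r4_threeE0, a2x_7_r4_threeE1⟩,
    ⟨a2x_7_r4_ring0, a2x_7_r4_ring1⟩]

theorem a2x_7_r5 : allRows stA2X a2x_7 a2x_7_m5 = true := by
  refine allRows_of fun P => ?_
  cases P
  exacts [⟨a2x_7_r5_one0, a2x_7_r5_one1⟩,
    ⟨a2x_7_r5_two0, a2x_7_r5_two1⟩,
    ⟨a2x_7_r5_twoE0, a2x_7_r5_twoE1⟩,
    ⟨a2x_7_r5_thrR0, a2x_7_r5_thrR1⟩,
    ⟨a2x_7_r5_thrL0, a2x_7_r5_thrL1⟩,
    ⟨a2x_7_r5_threeE0, a2x_7_r5_threeE1⟩,
    ⟨a2x_7_r5_ring0, a2x_7_r5_ring1⟩]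

theorem a2x_7_ok : a2x_7.ok stA2X = true := by
  have h : (PC.all.all fun P => PC.all.all fun Q => pairOk stA2X a2x_7 P Q) = true := by decide +kernel
  have d0 : mdOk stA2X a2x_7_m0.md = true := by decide +kernel
  have d1 : mdOk stA2X a2x_7_m1.md = true := by decide +kernel
  have d2 : mdOk stA2X a2x_7_m2.md = true := by decide +kernel
  have d3 : mdOk stA2X a2x_7_m3.md = true := by decide +kernel
  have d4 : mdOk stA2X a2x_7_m4.md = true := by decide +kernel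
  have d5 : mdOk stA2X a2x_7_m5.md = true := by decide +kernel
  unfold Piece.ok
  rw [h, Bool.true_and]
  show List.all [a2x_7_m0, a2x_7_m1, a2x_7_m2, a2x_7_m3, a2x_7_m4, a2x_7_m5] _ = true
  rw [List.all_eq_true]
  intro m hm
  simp only [List.mem_cons, List.not_mem_nil, or_false] at hm
  rcases hm with rfl | rfl | rfl | rfl | rfl | rfl
  · rw [a2x_7_r0, d0]; rfl
  · rw [a2x_7_r1, d1]; rfl
  · rw [a2x_7_r2, d2]; rfl
  · rw [a2x_7_r3, d3]; rfl
  · rw [a2x_7_r4, d4]; rfl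
  · rw [a2x_7_r5, d5]; rfl

end OR

end Pool.Agent.Work.MP_b30479_gt.G2
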