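import Pool.Agent.Work.MP_b30479_gt.G2.OA2x_8d
import Pool.Agent.Work.MP_b30479_gt.G2.ORows
import Pool.Agent.Work.MP_b30479_gt.G2.OStA

namespace Pool.Agent.Work.MP_b30479_gt.G2

namespace OR

set_option linter.defProp false

def a2x_8_r1_ring1_0 : cellOk stA2X a2x_8 a2x_8_m1 true .ring ((stA2X.bins .ring).getD 0 b00)
    ((a2x_8_m1.g true .ring).getD 0 e00) = true := by decide +kernel

def a2x_8_r1_ring1_1 : cellOk stA2X a2x_8 a2x_8_m1 true .ring ((stA2X.bins .ring).getD 1 b00)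
    ((a2x_8_m1.g true .ring).getD 1 e00) = true := by decide +kernel

def a2x_8_r1_ring1_2 : cellOk stA2X a2x_8 a2x_8_m1 true .ring ((stA2X.bins .ring).getD 2 b00)
    ((a2x_8_m1.g true .ring).getD 2 e00) = true := by decide +kernel

def a2x_8_r1_ring1_3 : cellOk stA2X a2x_8 a2x_8_m1 true .ring ((stA2X.bins .ring).getD 3 b00)
    ((a2x_8_m1.g true .ring).getD 3 e00) = true := by decide +kernel

def a2x_8_r1_ring1_4 : cellOk stA2X a2x_8 a2x_8_m1 true .ring ((stA2X.bins .ring).getD 4 b00)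
    ((a2x_8_m1.g true .ring).getD 4 e00) = true := by decide +kernel

def a2x_8_r1_ring1_5 : cellOk stA2X a2x_8 a2x_8_m1 true .ring ((stA2X.bins .ring).getD 5 b00)
    ((a2x_8_m1.g true .ring).getD 5 e00) = true := by decide +kernel

theorem a2x_8_r1_ring1 : rowsOk stA2X a2x_8 a2x_8_m1 true .ring = true := by
  refine rowsOk_of fun i hi => ?_
  have hi : i < 6 := hi
  interval_cases i
  exacts [a2x_8_r1_ring1_0, a2x_8_r1_ring1_1, a2x_8_r1_ring1_2, a2x_8_r1_ring1_3, a2x_8_r1_ring1_4, a2x_8_r1_ring1_5]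

def a2x_8_r2_one0 : rowsOk stA2X a2x_8 a2x_8_m2 false .one = true := by decide +kernel

def a2x_8_r2_one1 : rowsOk stA2X a2x_8 a2x_8_m2 true .one = true := by decide +kernel

def a2x_8_r2_two0 : rowsOk stA2X a2x_8 a2x_8_m2 false .two = true := by decide +kernel

def a2x_8_r2_two1 : rowsOk stA2X a2x_8 a2x_8_m2 true .two = true := by decide +kernel

def a2x_8_r2_twoE0 : rowsOk stA2X a2x_8 a2x_8_m2 false .twoE = true := by decide +kernel

def a2x_8_r2_twoE1 : rowsOk stA2X a2x_8 a2x_8_m2 true .twoE = true := by decide +kernel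

def a2x_8_r2_thrR0 : rowsOk stA2X a2x_8 a2x_8_m2 false .thrR = true := by decide +kernel

def a2x_8_r2_thrR1 : rowsOk stA2X a2x_8 a2x_8_m2 true .thrR = true := by decide +kernel

def a2x_8_r2_thrL0 : rowsOk stA2X a2x_8 a2x_8_m2 false .thrL = true := by decide +kernel

def a2x_8_r2_thrL1 : rowsOk stA2X a2x_8 a2x_8_m2 true .thrL = true := by decide +kernel

def a2x_8_r2_threeE0 : rowsOk stA2X a2x_8 a2x_8_m2 false .threeE = true := by decide +kernel

def a2x_8_r2_threeE1 : rowsOk stA2X a2x_8 a2x_8_m2 true .threeE = true := by decide +kernel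

def a2x_8_r2_ring0 : rowsOk stA2X a2x_8 a2x_8_m2 false .ring = true := by decide +kernel

def a2x_8_r2_ring1 : rowsOk stA2X a2x_8 a2x_8_m2 true .ring = true := by decide +kernel

def a2x_8_r3_one0 : rowsOk stA2X a2x_8 a2x_8_m3 false .one = true := by decide +kernel

def a2x_8_r3_one1 : rowsOk stA2X a2x_8 a2x_8_m3 true .one = true := by decide +kernel

def a2x_8_r3_two0 : rowsOk stA2X a2x_8 a2x_8_m3 false .two = true := by decide +kernel

def a2x_8_r3_two1 : rowsOk stA2X a2x_8 a2x_8_m3 true .two = true := by decide +kernel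

def a2x_8_r3_twoE0 : rowsOk stA2X a2x_8 a2x_8_m3 false .twoE = true := by decide +kernel

def a2x_8_r3_twoE1 : rowsOk stA2X a2x_8 a2x_8_m3 true .twoE = true := by decide +kernel

def a2x_8_r3_thrR0 : rowsOk stA2X a2x_8 a2x_8_m3 false .thrR = true := by decide +kernel

def a2x_8_r3_thrR1 : rowsOk stA2X a2x_8 a2x_8_m3 true .thrR = true := by decide +kernel

def a2x_8_r3_thrL0 : rowsOk stA2X a2x_8 a2x_8_m3 false .thrL = true := by decide +kernel

def a2x_8_r3_thrL1 : rowsOk stA2X a2x_8 a2x_8_m3 true .thrL = true := by decide +kernel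

def a2x_8_r3_threeE0 : rowsOk stA2X a2x_8 a2x_8_m3 false .threeE = true := by decide +kernel

def a2x_8_r3_threeE1 : rowsOk stA2X a2x_8 a2x_8_m3 true .threeE = true := by decide +kernel

def a2x_8_r3_ring0_0 : cellOk stA2X a2x_8 a2x_8_m3 false .ring ((stA2X.bins .ring).getD 0 b00)
    ((a2x_8_m3.g false .ring).getD 0 e00) = true := by decide +kernel

def a2x_8_r3_ring0_1 : cellOk stA2X a2x_8 a2x_8_m3 false .ring ((stA2X.bins .ring).getD 1 b00)
    ((a2x_8_m3.g false .ring).getD 1 e00) = true := by decide +kernel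

def a2x_8_r3_ring0_2 : cellOk stA2X a2x_8 a2x_8_m3 false .ring ((stA2X.bins .ring).getD 2 b00)
    ((a2x_8_m3.g false .ring).getD 2 e00) = true := by decide +kernel

def a2x_8_r3_ring0_3 : cellOk stA2X a2x_8 a2x_8_m3 false .ring ((stA2X.bins .ring).getD 3 b00)
    ((a2x_8_m3.g false .ring).getD 3 e00) = true := by decide +kernel

def a2x_8_r3_ring0_4 : cellOk stA2X a2x_8 a2x_8_m3 false .ring ((stA2X.bins .ring).getD 4 b00)
    ((a2x_8_m3.g false .ring).getD 4 e00) = true := by decide +kernel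

def a2x_8_r3_ring0_5 : cellOk stA2X a2x_8 a2x_8_m3 false .ring ((stA2X.bins .ring).getD 5 b00)
    ((a2x_8_m3.g false .ring).getD 5 e00) = true := by decide +kernel

theorem a2x_8_r3_ring0 : rowsOk stA2X a2x_8 a2x_8_m3 false .ring = true := by
  refine rowsOk_of fun i hi => ?_
  have hi : i < 6 := hi
  interval_cases i
  exacts [a2x_8_r3_ring0_0, a2x_8_r3_ring0_1, a2x_8_r3_ring0_2, a2x_8_r3_ring0_3, a2x_8_r3_ring0_4, a2x_8_r3_ring0_5]

def a2x_8_r3_ring1_0 : cellOk stA2X a2x_8 a2x_8_m3 true .ring ((stA2X.bins .ring).getD 0 b00)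
    ((a2x_8_m3.g true .ring).getD 0 e00) = true := by decide +kernel

def a2x_8_r3_ring1_1 : cellOk stA2X a2x_8 a2x_8_m3 true .ring ((stA2X.bins .ring).getD 1 b00)
    ((a2x_8_m3.g true .ring).getD 1 e00) = true := by decide +kernel

def a2x_8_r3_ring1_2 : cellOk stA2X a2x_8 a2x_8_m3 true .ring ((stA2X.bins .ring).getD 2 b00)
    ((a2x_8_m3.g true .ring).getD 2 e00) = true := by decide +kernel

def a2x_8_r3_ring1_3 : cellOk stA2X a2x_8 a2x_8_m3 true .ring ((stA2X.bins .ring).getD 3 b00)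
    ((a2x_8_m3.g true .ring).getD 3 e00) = true := by decide +kernel

def a2x_8_r3_ring1_4 : cellOk stA2X a2x_8 a2x_8_m3 true .ring ((stA2X.bins .ring).getD 4 b00)
    ((a2x_8_m3.g true .ring).getD 4 e00) = true := by decide +kernel

def a2x_8_r3_ring1_5 : cellOk stA2X a2x_8 a2x_8_m3 true .ring ((stA2X.bins .ring).getD 5 b00)
    ((a2x_8_m3.g true .ring).getD 5 e00) = true := by decide +kernel

theorem a2x_8_r3_ring1 : rowsOk stA2X a2x_8 a2x_8_m3 true .ring = true := by
  refine rowsOk_of fun i hi => ?_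
  have hi : i < 6 := hi
  interval_cases i
  exacts [a2x_8_r3_ring1_0, a2x_8_r3_ring1_1, a2x_8_r3_ring1_2, a2x_8_r3_ring1_3, a2x_8_r3_ring1_4, a2x_8_r3_ring1_5]

def a2x_8_r4_one0 : rowsOk stA2X a2x_8 a2x_8_m4 false .one = true := by decide +kernel

def a2x_8_r4_one1 : rowsOk stA2X a2x_8 a2x_8_m4 true .one = true := by decide +kernel

def a2x_8_r4_two0 : rowsOk stA2X a2x_8 a2x_8_m4 false .two = true := by decide +kernel

def a2x_8_r4_two1 : rowsOk stA2X a2x_8 a2x_8_m4 true .two = true := by decide +kernel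

def a2x_8_r4_twoE0 : rowsOk stA2X a2x_8 a2x_8_m4 false .twoE = true := by decide +kernel

def a2x_8_r4_twoE1 : rowsOk stA2X a2x_8 a2x_8_m4 true .twoE = true := by decide +kernel

def a2x_8_r4_thrR0 : rowsOk stA2X a2x_8 a2x_8_m4 false .thrR = true := by decide +kernel

def a2x_8_r4_thrR1 : rowsOk stA2X a2x_8 a2x_8_m4 true .thrR = true := by decide +kernel

def a2x_8_r4_thrL0 : rowsOk stA2X a2x_8 a2x_8_m4 false .thrL = true := by decide +kernel

def a2x_8_r4_thrL1 : rowsOk stA2X a2x_8 a2x_8_m4 true .thrL = true := by decide +kernel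

def a2x_8_r4_threeE0 : rowsOk stA2X a2x_8 a2x_8_m4 false .threeE = true := by decide +kernel

def a2x_8_r4_threeE1 : rowsOk stA2X a2x_8 a2x_8_m4 true .threeE = true := by decide +kernel

def a2x_8_r4_ring0 : rowsOk stA2X a2x_8 a2x_8_m4 false .ring = true := by decide +kernel

def a2x_8_r4_ring1_0 : cellOk stA2X a2x_8 a2x_8_m4 true .ring ((stA2X.bins .ring).getD 0 b00)
    ((a2x_8_m4.g true .ring).getD 0 e00) = true := by decide +kernel

def a2x_8_r4_ring1_1 : cellOk stA2X a2x_8 a2x_8_m4 true .ring ((stA2X.bins .ring).getD 1 b00)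
    ((a2x_8_m4.g true .ring).getD 1 e00) = true := by decide +kernel

def a2x_8_r4_ring1_2 : cellOk stA2X a2x_8 a2x_8_m4 true .ring ((stA2X.bins .ring).getD 2 b00)
    ((a2x_8_m4.g true .ring).getD 2 e00) = true := by decide +kernel

def a2x_8_r4_ring1_3 : cellOk stA2X a2x_8 a2x_8_m4 true .ring ((stA2X.bins .ring).getD 3 b00)
    ((a2x_8_m4.g true .ring).getD 3 e00) = true := by decide +kernel

def a2x_8_r4_ring1_4 : cellOk stA2X a2x_8 a2x_8_m4 true .ring ((stA2X.bins .ring).getD 4 b00)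
    ((a2x_8_m4.g true .ring).getD 4 e00) = true := by decide +kernel

def a2x_8_r4_ring1_5 : cellOk stA2X a2x_8 a2x_8_m4 true .ring ((stA2X.bins .ring).getD 5 b00)
    ((a2x_8_m4.g true .ring).getD 5 e00) = true := by decide +kernel

theorem a2x_8_r4_ring1 : rowsOk stA2X a2x_8 a2x_8_m4 true .ring = true := by
  refine rowsOk_of fun i hi => ?_
  have hi : i < 6 := hi
  interval_cases i
  exacts [a2x_8_r4_ring1_0, a2x_8_r4_ring1_1, a2x_8_r4_ring1_2, a2x_8_r4_ring1_3, a2x_8_r4_ring1_4, a2x_8_r4_ring1_5]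

end OR

end Pool.Agent.Work.MP_b30479_gt.G2
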