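import Pool.Agent.Work.MP_b30479_gt.G2.OStA
import Pool.Agent.Work.MP_b30479_gt.G2.ORows
import Pool.Agent.Work.MP_b30479_gt.G2.ORowS

namespace Pool.Agent.Work.MP_b30479_gt.G2

open NumU

namespace OR

/-- windows -/
def a2z_2_wp : PC → Win
  | .one => ⟨0, 0, 0, 0, 0, 0⟩
  | .two => ⟨0, 0, 0, 0, 0, 0⟩
  | .twoE => ⟨0, 0, 0, 0, 0, 0⟩
  | .thrR => ⟨0, 0, 0, 0, 0, 0⟩
  | .thrL => ⟨0, 0, 0, 0, 0, 0⟩
  | .threeE => ⟨0, 0, 0, 0, 0, 0⟩
  | .ring => ⟨270, 1080, 250, 1010, 0, 440⟩

/-- windows -/
def a2z_2_wq : PC → Win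
  | .one => ⟨0, 0, 0, 0, 0, 0⟩
  | .two => ⟨0, 0, 0, 0, 0, 0⟩
  | .twoE => ⟨0, 0, 0, 0, 0, 0⟩
  | .thrR => ⟨0, 0, 0, 0, 0, 0⟩
  | .thrL => ⟨0, 0, 0, 0, 0, 0⟩
  | .threeE => ⟨0, 0, 0, 0, 0, 0⟩
  | .ring => ⟨270, 1080, 250, 1010, -440, 0⟩

/-- mode -/
def a2z_2_m0 : Mode where
  md := .V 300 1000
  lam := 1500
  ct := 500
  gp := fun
    | .one => [e00, e00, e00, e00, e00, e00, e00, e00]
    | .two => [e00, e00, e00, e00, e00, e00]
    | .twoE => [e00, e00, e00, e00, e00, e00]
    | .thrR => [e00, e00, e00, e00, e00, e00]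
    | .thrL => [e00, e00, e00, e00, e00, e00]
    | .threeE => [e00, e00, e00, e00, e00, e00]
    | .ring => [⟨1091, [36642718338]⟩, ⟨1091, [142837810, 2179, 8, 8, 2179, 8]⟩, ⟨-577, [65422819702548682444808723343377155, 13026352373399886455633397729570424883, 2970940958512917541468770691, 8, 192960658382730892041575409943346, 13]⟩, ⟨-1301, [0, 0, 0, 0, 34688405087314791412282797818789017862636367539952851781675787161425936806190254384541047778494280109082394902398202131593870521791982163319342661533117365591720702779115736804544045693348244959822332833782948620443559537045173773348534743565470701999781759440855138540255975839129368355103029629367988111000886352337594035438262245098861106, 13]⟩, ⟨-2227, [0, 0, 0, 0, 3108552693414977577144968225218437454495102827735366564802027374847676377972511214168098525875581389744760402269321078745551504503945825115989894503568126075182965767474831634987517543465392139401746198451482034275509342770, 2178]⟩, ⟨-3112, [0, 0, 0, 0, 9393229824642, 9393229824642]⟩]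
  gq := fun
    | .one => [e00, e00, e00, e00, e00, e00, e00, e00]
    | .two => [e00, e00, e00, e00, e00, e00]
    | .twoE => [e00, e00, e00, e00, e00, e00]
    | .thrR => [e00, e00, e00, e00, e00, e00]
    | .thrL => [e00, e00, e00, e00, e00, e00]
    | .threeE => [e00, e00, e00, e00, e00, e00]
    | .ring => [⟨468, [36641669762]⟩, ⟨-417, [12471317128647025536517627003540470825103750862898, 559123, 8, 8, 559155, 13]⟩, ⟨-417, [143163699, 559123, 8, 8, 2396420900926242, 13]⟩, ⟨-1343, [0, 0, 0, 0, 1083931960783067770904991953136259859325228789985519115677393266238131044055517586975626018, 13]⟩, ⟨-2067, [0, 0, 0, 0, 898664083463099749568564176933759888264423146452786247722234751026, 2178]⟩, ⟨-3735, [0, 0, 0, 0, 613536847705965186, 10292447913612616829252226]⟩]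

/-- mode -/
def a2z_2_m1 : Mode where
  md := .V 600 1000
  lam := 500
  ct := 1000
  gp := fun
    | .one => [e00, e00, e00, e00, e00, e00, e00, e00]
    | .two => [e00, e00, e00, e00, e00, e00]
    | .twoE => [e00, e00, e00, e00, e00, e00]
    | .thrR => [e00, e00, e00, e00, e00, e00]
    | .thrL => [e00, e00, e00, e00, e00, e00]
    | .threeE => [e00, e00, e00, e00, e00, e00]
    | .ring => [e00, ⟨-544, [186519329021705806941730127117098623950202771071668879179255788650176076205966524441721138488135700708872114936307383756227782639296073605728553207974096309161211135069983748187117266077866566456325110982640703361129778556234406459758589114870987154153608271144717260946359245169840801034663625275196760880387746163510434054343484141702113362551009699049228085597227915959548704739476274056580273139055800392423938871291564547622423825829220569722400210584420125880690160500136443382309369084265647240328404974945591939453929612412469687909500974529870956232832589766218832827667138786410467749517064719151198453421493495068121474362455062964052446875286207530296396584900847743550201957177164584474339605618466922239494855995698,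 175821541244700559379, 10460530741635, 8, 10451864815635, 13]⟩, ⟨-544, [232350020393419413555, 175821541244700559379, 10460530741635, 8, 2944345983530044066792767794, 13]⟩, ⟨-544, [0, 0, 0, 0, 743202652036958852122802274584421712007730, 13]⟩, e00, e00]
  gq := fun
    | .one => [e00, e00, e00, e00, e00, e00, e00, e00]
    | .two => [e00, e00, e00, e00, e00, e00]
    | .twoE => [e00, e00, e00, e00, e00, e00]
    | .thrR => [e00, e00, e00, e00, e00, e00]
    | .thrL => [e00, e00, e00, e00, e00, e00]
    | .threeE => [e00, e00, e00, e00, e00, e00]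
    | .ring => [⟨-340, [12431510037173080539745919882021000284369427923234]⟩, ⟨-340, [676071456231739348122668111922, 559155, 8, 8, 559155, 13]⟩, ⟨-340, [143163699, 559155, 8, 8, 2396420900926242, 13]⟩, ⟨-340, [0, 0, 0, 0, 48605179272742776201017398508873620169640411938, 13]⟩, e00, e00]

/-- mode -/
def a2z_2_m2 : Mode where
  md := .V 450 1000
  lam := 750
  ct := 2000
  gp := fun
    | .one => [e00, e00, e00, e00, e00, e00, e00, e00]
    | .two => [e00, e00, e00, e00, e00, e00]
    | .twoE => [e00, e00, e00, e00, e00, e00]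
    | .thrR => [e00, e00, e00, e00, e00, e00]
    | .thrL => [e00, e00, e00, e00, e00, e00]
    | .threeE => [e00, e00, e00, e00, e00, e00]
    | .ring => [⟨-254, [2632452649797873980706142242]⟩, ⟨-28, [613501684170635314, 2179, 8, 8, 2179, 8]⟩, e00, e00, ⟨-1406, [0, 0, 0, 0, 664494029402964901429196440626862200254967007046635831674067258350618958531048387536423953305225406809822877795803820276889331455525394222318436923223784900585829923967005266913348768989986, 232268674]⟩, e00]
  gq := fun
    | .one => [e00, e00, e00, e00, e00, e00, e00, e00]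
    | .two => [e00, e00, e00, e00, e00, e00]
    | .twoE => [e00, e00, e00, e00, e00, e00]
    | .thrR => [e00, e00, e00, e00, e00, e00]
    | .thrL => [e00, e00, e00, e00, e00, e00]
    | .threeE => [e00, e00, e00, e00, e00, e00]
    | .ring => [⟨82, [612920573050390578]⟩, e00, e00, ⟨-1070, [0, 0, 0, 0, 48605179300372399233147410009647991838007104290, 13]⟩, ⟨-1296, [0, 0, 0, 0, 227109604148473006100717742049636406550545365952269190207721980597431242167501377848022658314442978663706981861665907308023525036262097642268840136372243068514099419897451658296055181187963558440541209800030109804921785904564431277537854242, 95700767988943029115061823316691853358186606907711652628533551716381314]⟩, e00]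

/-- mode -/
def a2z_2_m3 : Mode where
  md := .D
  lam := 0
  ct := 9000
  gp := fun
    | .one => [e00, e00, e00, e00, e00, e00, e00, e00]
    | .two => [e00, e00, e00, e00, e00, e00]
    | .twoE => [e00, e00, e00, e00, e00, e00]
    | .thrR => [e00, e00, e00, e00, e00, e00]
    | .thrL => [e00, e00, e00, e00, e00, e00]
    | .threeE => [e00, e00, e00, e00, e00, e00]
    | .ring => [⟨150, [43520836899373099498934629288142203791845190534256615585409704377537594821867328973002012059202564978412970834333908011177705650079739224635858961452652555824701224661026]⟩, e00, e00, e00, e00, e00]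
  gq := fun
    | .one => [e00, e00, e00, e00, e00, e00, e00, e00]
    | .two => [e00, e00, e00, e00, e00, e00]
    | .twoE => [e00, e00, e00, e00, e00, e00]
    | .thrR => [e00, e00, e00, e00, e00, e00]
    | .thrL => [e00, e00, e00, e00, e00, e00]
    | .threeE => [e00, e00, e00, e00, e00, e00]
    | .ring => [⟨-154, [4651116025077131806540023067979677700466135819036314770764702391583088744129626809888141996858028066]⟩, e00, e00, e00, e00, e00]

/-- mode -/
def a2z_2_m4 : Mode where
  md := .V 600 1000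
  lam := 250
  ct := 2000
  gp := fun
    | .one => [e00, e00, e00, e00, e00, e00, e00, e00]
    | .two => [e00, e00, e00, e00, e00, e00]
    | .twoE => [e00, e00, e00, e00, e00, e00]
    | .thrR => [e00, e00, e00, e00, e00, e00]
    | .thrL => [e00, e00, e00, e00, e00, e00]
    | .threeE => [e00, e00, e00, e00, e00, e00]
    | .ring => [⟨-285, [12249761731561185198492072223777395158244430446286723267016616731320260301844273226124137047930857589085490947355136353501884851902802533390781386128978469683355081539137438146771297058]⟩, e00, e00, e00, e00, e00]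
  gq := fun
    | .one => [e00, e00, e00, e00, e00, e00, e00, e00]
    | .two => [e00, e00, e00, e00, e00, e00]
    | .twoE => [e00, e00, e00, e00, e00, e00]
    | .thrR => [e00, e00, e00, e00, e00, e00]
    | .thrL => [e00, e00, e00, e00, e00, e00]
    | .threeE => [e00, e00, e00, e00, e00, e00]
    | .ring => [e00, ⟨-159, [229321013735877937440869143426898409051027604259123840956762488387634, 559155, 8, 8, 559155, 13]⟩, ⟨-159, [36532945203, 559155, 8, 8, 2396420900926242, 13]⟩, e00, e00, e00]

/-- piece -/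
def a2z_2 : Piece := ⟨7800, 8200, 0, 820, a2z_2_wp, a2z_2_wq, [a2z_2_m0, a2z_2_m1, a2z_2_m2, a2z_2_m3, a2z_2_m4]⟩

set_option linter.defProp false

def a2z_2_r0_one0 : rowsOk stA2Z a2z_2 a2z_2_m0 false .one = true := by decide +kernel

def a2z_2_r0_one1 : rowsOk stA2Z a2z_2 a2z_2_m0 true .one = true := by decide +kernel

def a2z_2_r0_two0 : rowsOk stA2Z a2z_2 a2z_2_m0 false .two = true := by decide +kernel

def a2z_2_r0_two1 : rowsOk stA2Z a2z_2 a2z_2_m0 true .two = true := by decide +kernel

def a2z_2_r0_twoE0 : rowsOk stA2Z a2z_2 a2z_2_m0 false .twoE = true := by decide +kernel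

def a2z_2_r0_twoE1 : rowsOk stA2Z a2z_2 a2z_2_m0 true .twoE = true := by decide +kernel

def a2z_2_r0_thrR0 : rowsOk stA2Z a2z_2 a2z_2_m0 false .thrR = true := by decide +kernel

def a2z_2_r0_thrR1 : rowsOk stA2Z a2z_2 a2z_2_m0 true .thrR = true := by decide +kernel

def a2z_2_r0_thrL0 : rowsOk stA2Z a2z_2 a2z_2_m0 false .thrL = true := by decide +kernel

def a2z_2_r0_thrL1 : rowsOk stA2Z a2z_2 a2z_2_m0 true .thrL = true := by decide +kernel

def a2z_2_r0_threeE0 : rowsOk stA2Z a2z_2 a2z_2_m0 false .threeE = true := by decide +kernel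

def a2z_2_r0_threeE1 : rowsOk stA2Z a2z_2 a2z_2_m0 true .threeE = true := by decide +kernel

def a2z_2_r0_ring0_0 : cellOk stA2Z a2z_2 a2z_2_m0 false .ring ((stA2Z.bins .ring).getD 0 b00)
    ((a2z_2_m0.g false .ring).getD 0 e00) = true := by decide +kernel

def a2z_2_r0_ring0_1 : cellOk stA2Z a2z_2 a2z_2_m0 false .ring ((stA2Z.bins .ring).getD 1 b00)
    ((a2z_2_m0.g false .ring).getD 1 e00) = true := by decide +kernel

def a2z_2_r0_ring0_2 : cellOk stA2Z a2z_2 a2z_2_m0 false .ring ((stA2Z.bins .ring).getD 2 b00)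
    ((a2z_2_m0.g false .ring).getD 2 e00) = true := by decide +kernel

def a2z_2_r0_ring0_3 : cellOk stA2Z a2z_2 a2z_2_m0 false .ring ((stA2Z.bins .ring).getD 3 b00)
    ((a2z_2_m0.g false .ring).getD 3 e00) = true := by decide +kernel

def a2z_2_r0_ring0_4 : cellOk stA2Z a2z_2 a2z_2_m0 false .ring ((stA2Z.bins .ring).getD 4 b00)
    ((a2z_2_m0.g false .ring).getD 4 e00) = true := by decide +kernel

def a2z_2_r0_ring0_5 : cellOk stA2Z a2z_2 a2z_2_m0 false .ring ((stA2Z.bins .ring).getD 5 b00)
    ((a2z_2_m0.g false .ring).getD 5 e00) = true := by decide +kernel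

theorem a2z_2_r0_ring0 : rowsOk stA2Z a2z_2 a2z_2_m0 false .ring = true := by
  refine rowsOk_of fun i hi => ?_
  have hi : i < 6 := hi
  interval_cases i
  exacts [a2z_2_r0_ring0_0, a2z_2_r0_ring0_1, a2z_2_r0_ring0_2, a2z_2_r0_ring0_3, a2z_2_r0_ring0_4, a2z_2_r0_ring0_5]

def a2z_2_r0_ring1_0 : cellOk stA2Z a2z_2 a2z_2_m0 true .ring ((stA2Z.bins .ring).getD 0 b00)
    ((a2z_2_m0.g true .ring).getD 0 e00) = true := by decide +kernel

def a2z_2_r0_ring1_1 : cellOk stA2Z a2z_2 a2z_2_m0 true .ring ((stA2Z.bins .ring).getD 1 b00)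
    ((a2z_2_m0.g true .ring).getD 1 e00) = true := by decide +kernel

def a2z_2_r0_ring1_2 : cellOk stA2Z a2z_2 a2z_2_m0 true .ring ((stA2Z.bins .ring).getD 2 b00)
    ((a2z_2_m0.g true .ring).getD 2 e00) = true := by decide +kernel

def a2z_2_r0_ring1_3 : cellOk stA2Z a2z_2 a2z_2_m0 true .ring ((stA2Z.bins .ring).getD 3 b00)
    ((a2z_2_m0.g true .ring).getD 3 e00) = true := by decide +kernel

def a2z_2_r0_ring1_4 : cellOk stA2Z a2z_2 a2z_2_m0 true .ring ((stA2Z.bins .ring).getD 4 b00)
    ((a2z_2_m0.g true .ring).getD 4 e00) = true := by decide +kernel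

def a2z_2_r0_ring1_5 : cellOk stA2Z a2z_2 a2z_2_m0 true .ring ((stA2Z.bins .ring).getD 5 b00)
    ((a2z_2_m0.g true .ring).getD 5 e00) = true := by decide +kernel

theorem a2z_2_r0_ring1 : rowsOk stA2Z a2z_2 a2z_2_m0 true .ring = true := by
  refine rowsOk_of fun i hi => ?_
  have hi : i < 6 := hi
  interval_cases i
  exacts [a2z_2_r0_ring1_0, a2z_2_r0_ring1_1, a2z_2_r0_ring1_2, a2z_2_r0_ring1_3, a2z_2_r0_ring1_4, a2z_2_r0_ring1_5]

def a2z_2_r1_one0 : rowsOk stA2Z a2z_2 a2z_2_m1 false .one = true := by decide +kernel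

def a2z_2_r1_one1 : rowsOk stA2Z a2z_2 a2z_2_m1 true .one = true := by decide +kernel

def a2z_2_r1_two0 : rowsOk stA2Z a2z_2 a2z_2_m1 false .two = true := by decide +kernel

def a2z_2_r1_two1 : rowsOk stA2Z a2z_2 a2z_2_m1 true .two = true := by decide +kernel

def a2z_2_r1_twoE0 : rowsOk stA2Z a2z_2 a2z_2_m1 false .twoE = true := by decide +kernel

def a2z_2_r1_twoE1 : rowsOk stA2Z a2z_2 a2z_2_m1 true .twoE = true := by decide +kernel

def a2z_2_r1_thrR0 : rowsOk stA2Z a2z_2 a2z_2_m1 false .thrR = true := by decide +kernel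

def a2z_2_r1_thrR1 : rowsOk stA2Z a2z_2 a2z_2_m1 true .thrR = true := by decide +kernel

def a2z_2_r1_thrL0 : rowsOk stA2Z a2z_2 a2z_2_m1 false .thrL = true := by decide +kernel

def a2z_2_r1_thrL1 : rowsOk stA2Z a2z_2 a2z_2_m1 true .thrL = true := by decide +kernel

def a2z_2_r1_threeE0 : rowsOk stA2Z a2z_2 a2z_2_m1 false .threeE = true := by decide +kernel

def a2z_2_r1_threeE1 : rowsOk stA2Z a2z_2 a2z_2_m1 true .threeE = true := by decide +kernel

def a2z_2_r1_ring0_0 : cellOk stA2Z a2z_2 a2z_2_m1 false .ring ((stA2Z.bins .ring).getD 0 b00)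
    ((a2z_2_m1.g false .ring).getD 0 e00) = true := by decide +kernel

/-- check -/
def a2z_2_r1_ring0_1_x0 : Ck := (cks stA2Z a2z_2 a2z_2_m1 false .ring
    ((stA2Z.bins .ring).getD 1 b00)
    ((a2z_2_m1.g false .ring).getD 1 e00).g).getD 0 ckd

theorem a2z_2_r1_ring0_1_k0_q1 : runT a2z_2_r1_ring0_1_x0.2.1 38
    728591128991038308366133309051166499805479574498706559293967924414750297679556736100473197219280080894031698969950717797764775934750287522377160968648813707660980996367124016355926820616666275220019964775940247504413197485290650233431988729964793570912532309159051800571715801444690629041654786231237347189014633451212633024779234928523880322464881636911047209364171546716987127888579195533516691949436720282906011215982674014150093069645392850478125822595391116721445939453657981962145972985412684532532831933381218513491912548486209718396488181757308422784502303774292315733074760884415889646551034059184368958677708965109849509228340089703329870606586748165220299159768936498242976395223299158102889084447136414998026781233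
    (NumI.setL 3 (NumI.setL 2 (a2z_2_r1_ring0_1_x0.2.2))) =
    56980468072395621598698704978247279975218068476212068940912193599392459634000683928643703514135148869377095941611893524565795928327321937606622202311455907206337220406547284310894340381880273586994739928037099372192680137387104618657192655075311237943828686495602570165168499342480625596925172410724971320815517194822646694762938269320785009082499746033487280582845561602677075388580307877587445020828976017763294453085868559188019955370571610892581631236208243288974955882334128006482297803668619048130841552726375260085186097315125481552784980095104397575436767926002142748722 := by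
  decide +kernel

theorem a2z_2_r1_ring0_1_k0_q2 : runT a2z_2_r1_ring0_1_x0.2.1 38
    56980468072395621598698704978247279975218068476212068940912193599392459634000683928643703514135148869377095941611893524565795928327321937606622202311455907206337220406547284310894340381880273586994739928037099372192680137387104618657192655075311237943828686495602570165168499342480625596925172410724971320815517194822646694762938269320785009082499746033487280582845561602677075388580307877587445020828976017763294453085868559188019955370571610892581631236208243288974955882334128006482297803668619048130841552726375260085186097315125481552784980095104397575436767926002142748721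
    (NumI.setR 3 (NumI.setL 2 (a2z_2_r1_ring0_1_x0.2.2))) =
    10197452334515271070170398687408532824535518115603934185448311434519911774302804203828747064972621422714645703583318623028980896772369190601444041117758280538496775737298507394218754356 := by
  decide +kernel

theorem a2z_2_r1_ring0_1_k0_q3 : runT a2z_2_r1_ring0_1_x0.2.1 39
    10197452334515271070170398687408532824535518115603934185448311434519911774302804203828747064972621422714645703583318623028980896772369190601444041117758280538496775737298507394218754355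
    (NumI.setR 2 (a2z_2_r1_ring0_1_x0.2.2)) =
    1 := by
  decide +kernel

theorem a2z_2_r1_ring0_1_k0_c : chkT a2z_2_r1_ring0_1_x0.2.1 40
    186519329021705806941730127117098623950202771071668879179255788650176076205966524441721138488135700708872114936307383756227782639296073605728553207974096309161211135069983748187117266077866566456325110982640703361129778556234406459758589114870987154153608271144717260946359245169840801034663625275196760880387746163510434054343484141702113362551009699049228085597227915959548704739476274056580273139055800392423938871291564547622423825829220569722400210584420125880690160500136443382309369084265647240328404974945591939453929612412469687909500974529870956232832589766218832827667138786410467749517064719151198453421493495068121474362455062964052446875286207530296396584900847743550201957177164584474339605618466922239494855995698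
    a2z_2_r1_ring0_1_x0.2.2 = true :=
  chkT_of (runT_split rfl rfl rfl
        (runT_split rfl rfl rfl
          a2z_2_r1_ring0_1_k0_q1
          a2z_2_r1_ring0_1_k0_q2)
        a2z_2_r1_ring0_1_k0_q3)

theorem a2z_2_r1_ring0_1_k0 : ck1 a2z_2_r1_ring0_1_x0 (((a2z_2_m1.g false .ring).getD 1 e00).c.getD 0 0) = true :=
  ck1_of (by decide +kernel) a2z_2_r1_ring0_1_k0_c

/-- check -/
def a2z_2_r1_ring0_1_x1 : Ck := (cks stA2Z a2z_2 a2z_2_m1 false .ring
    ((stA2Z.bins .ring).getD 1 b00)
    ((a2z_2_m1.g false .ring).getD 1 e00).g).getD 1 ckd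

theorem a2z_2_r1_ring0_1_k1 : ck1 a2z_2_r1_ring0_1_x1 (((a2z_2_m1.g false .ring).getD 1 e00).c.getD 1 0) = true := by
  decide +kernel

/-- check -/
def a2z_2_r1_ring0_1_x2 : Ck := (cks stA2Z a2z_2 a2z_2_m1 false .ring
    ((stA2Z.bins .ring).getD 1 b00)
    ((a2z_2_m1.g false .ring).getD 1 e00).g).getD 2 ckd

theorem a2z_2_r1_ring0_1_k2 : ck1 a2z_2_r1_ring0_1_x2 (((a2z_2_m1.g false .ring).getD 1 e00).c.getD 2 0) = true := by
  decide +kernel

/-- check -/
def a2z_2_r1_ring0_1_x3 : Ck := (cks stA2Z a2z_2 a2z_2_m1 false .ring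
    ((stA2Z.bins .ring).getD 1 b00)
    ((a2z_2_m1.g false .ring).getD 1 e00).g).getD 3 ckd

theorem a2z_2_r1_ring0_1_k3 : ck1 a2z_2_r1_ring0_1_x3 (((a2z_2_m1.g false .ring).getD 1 e00).c.getD 3 0) = true := by
  decide +kernel

/-- check -/
def a2z_2_r1_ring0_1_x4 : Ck := (cks stA2Z a2z_2 a2z_2_m1 false .ring
    ((stA2Z.bins .ring).getD 1 b00)
    ((a2z_2_m1.g false .ring).getD 1 e00).g).getD 4 ckd

theorem a2z_2_r1_ring0_1_k4 : ck1 a2z_2_r1_ring0_1_x4 (((a2z_2_m1.g false .ring).getD 1 e00).c.getD 4 0) = true := by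
  decide +kernel

/-- check -/
def a2z_2_r1_ring0_1_x5 : Ck := (cks stA2Z a2z_2 a2z_2_m1 false .ring
    ((stA2Z.bins .ring).getD 1 b00)
    ((a2z_2_m1.g false .ring).getD 1 e00).g).getD 5 ckd

theorem a2z_2_r1_ring0_1_k5 : ck1 a2z_2_r1_ring0_1_x5 (((a2z_2_m1.g false .ring).getD 1 e00).c.getD 5 0) = true := by
  decide +kernel

def a2z_2_r1_ring0_1 : cellOk stA2Z a2z_2 a2z_2_m1 false .ring ((stA2Z.bins .ring).getD 1 b00)
    ((a2z_2_m1.g false .ring).getD 1 e00) = true :=
  cellOk_of 6 (by decide +kernel) (by decide +kernel) fun k hk => by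
    interval_cases k
    exacts [a2z_2_r1_ring0_1_k0, a2z_2_r1_ring0_1_k1, a2z_2_r1_ring0_1_k2, a2z_2_r1_ring0_1_k3, a2z_2_r1_ring0_1_k4, a2z_2_r1_ring0_1_k5]

def a2z_2_r1_ring0_2 : cellOk stA2Z a2z_2 a2z_2_m1 false .ring ((stA2Z.bins .ring).getD 2 b00)
    ((a2z_2_m1.g false .ring).getD 2 e00) = true := by decide +kernel

def a2z_2_r1_ring0_3 : cellOk stA2Z a2z_2 a2z_2_m1 false .ring ((stA2Z.bins .ring).getD 3 b00)
    ((a2z_2_m1.g false .ring).getD 3 e00) = true := by decide +kernel

def a2z_2_r1_ring0_4 : cellOk stA2Z a2z_2 a2z_2_m1 false .ring ((stA2Z.bins .ring).getD 4 b00)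
    ((a2z_2_m1.g false .ring).getD 4 e00) = true := by decide +kernel

def a2z_2_r1_ring0_5 : cellOk stA2Z a2z_2 a2z_2_m1 false .ring ((stA2Z.bins .ring).getD 5 b00)
    ((a2z_2_m1.g false .ring).getD 5 e00) = true := by decide +kernel

theorem a2z_2_r1_ring0 : rowsOk stA2Z a2z_2 a2z_2_m1 false .ring = true := by
  refine rowsOk_of fun i hi => ?_
  have hi : i < 6 := hi
  interval_cases i
  exacts [a2z_2_r1_ring0_0, a2z_2_r1_ring0_1, a2z_2_r1_ring0_2, a2z_2_r1_ring0_3, a2z_2_r1_ring0_4, a2z_2_r1_ring0_5]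

def a2z_2_r1_ring1 : rowsOk stA2Z a2z_2 a2z_2_m1 true .ring = true := by decide +kernel

def a2z_2_r2_one0 : rowsOk stA2Z a2z_2 a2z_2_m2 false .one = true := by decide +kernel

def a2z_2_r2_one1 : rowsOk stA2Z a2z_2 a2z_2_m2 true .one = true := by decide +kernel

def a2z_2_r2_two0 : rowsOk stA2Z a2z_2 a2z_2_m2 false .two = true := by decide +kernel

def a2z_2_r2_two1 : rowsOk stA2Z a2z_2 a2z_2_m2 true .two = true := by decide +kernel

def a2z_2_r2_twoE0 : rowsOk stA2Z a2z_2 a2z_2_m2 false .twoE = true := by decide +kernel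

def a2z_2_r2_twoE1 : rowsOk stA2Z a2z_2 a2z_2_m2 true .twoE = true := by decide +kernel

def a2z_2_r2_thrR0 : rowsOk stA2Z a2z_2 a2z_2_m2 false .thrR = true := by decide +kernel

def a2z_2_r2_thrR1 : rowsOk stA2Z a2z_2 a2z_2_m2 true .thrR = true := by decide +kernel

def a2z_2_r2_thrL0 : rowsOk stA2Z a2z_2 a2z_2_m2 false .thrL = true := by decide +kernel

def a2z_2_r2_thrL1 : rowsOk stA2Z a2z_2 a2z_2_m2 true .thrL = true := by decide +kernel

def a2z_2_r2_threeE0 : rowsOk stA2Z a2z_2 a2z_2_m2 false .threeE = true := by decide +kernel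

def a2z_2_r2_threeE1 : rowsOk stA2Z a2z_2 a2z_2_m2 true .threeE = true := by decide +kernel

def a2z_2_r2_ring0 : rowsOk stA2Z a2z_2 a2z_2_m2 false .ring = true := by decide +kernel

def a2z_2_r2_ring1_0 : cellOk stA2Z a2z_2 a2z_2_m2 true .ring ((stA2Z.bins .ring).getD 0 b00)
    ((a2z_2_m2.g true .ring).getD 0 e00) = true := by decide +kernel

def a2z_2_r2_ring1_1 : cellOk stA2Z a2z_2 a2z_2_m2 true .ring ((stA2Z.bins .ring).getD 1 b00)
    ((a2z_2_m2.g true .ring).getD 1 e00) = true := by decide +kernel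

def a2z_2_r2_ring1_2 : cellOk stA2Z a2z_2 a2z_2_m2 true .ring ((stA2Z.bins .ring).getD 2 b00)
    ((a2z_2_m2.g true .ring).getD 2 e00) = true := by decide +kernel

def a2z_2_r2_ring1_3 : cellOk stA2Z a2z_2 a2z_2_m2 true .ring ((stA2Z.bins .ring).getD 3 b00)
    ((a2z_2_m2.g true .ring).getD 3 e00) = true := by decide +kernel

def a2z_2_r2_ring1_4 : cellOk stA2Z a2z_2 a2z_2_m2 true .ring ((stA2Z.bins .ring).getD 4 b00)
    ((a2z_2_m2.g true .ring).getD 4 e00) = true := by decide +kernel

def a2z_2_r2_ring1_5 : cellOk stA2Z a2z_2 a2z_2_m2 true .ring ((stA2Z.bins .ring).getD 5 b00)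
    ((a2z_2_m2.g true .ring).getD 5 e00) = true := by decide +kernel

theorem a2z_2_r2_ring1 : rowsOk stA2Z a2z_2 a2z_2_m2 true .ring = true := by
  refine rowsOk_of fun i hi => ?_
  have hi : i < 6 := hi
  interval_cases i
  exacts [a2z_2_r2_ring1_0, a2z_2_r2_ring1_1, a2z_2_r2_ring1_2, a2z_2_r2_ring1_3, a2z_2_r2_ring1_4, a2z_2_r2_ring1_5]

def a2z_2_r3_one0 : rowsOk stA2Z a2z_2 a2z_2_m3 false .one = true := by decide +kernel

def a2z_2_r3_one1 : rowsOk stA2Z a2z_2 a2z_2_m3 true .one = true := by decide +kernel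

def a2z_2_r3_two0 : rowsOk stA2Z a2z_2 a2z_2_m3 false .two = true := by decide +kernel

def a2z_2_r3_two1 : rowsOk stA2Z a2z_2 a2z_2_m3 true .two = true := by decide +kernel

def a2z_2_r3_twoE0 : rowsOk stA2Z a2z_2 a2z_2_m3 false .twoE = true := by decide +kernel

def a2z_2_r3_twoE1 : rowsOk stA2Z a2z_2 a2z_2_m3 true .twoE = true := by decide +kernel

def a2z_2_r3_thrR0 : rowsOk stA2Z a2z_2 a2z_2_m3 false .thrR = true := by decide +kernel

def a2z_2_r3_thrR1 : rowsOk stA2Z a2z_2 a2z_2_m3 true .thrR = true := by decide +kernel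

def a2z_2_r3_thrL0 : rowsOk stA2Z a2z_2 a2z_2_m3 false .thrL = true := by decide +kernel

def a2z_2_r3_thrL1 : rowsOk stA2Z a2z_2 a2z_2_m3 true .thrL = true := by decide +kernel

def a2z_2_r3_threeE0 : rowsOk stA2Z a2z_2 a2z_2_m3 false .threeE = true := by decide +kernel

def a2z_2_r3_threeE1 : rowsOk stA2Z a2z_2 a2z_2_m3 true .threeE = true := by decide +kernel

def a2z_2_r3_ring0 : rowsOk stA2Z a2z_2 a2z_2_m3 false .ring = true := by decide +kernel

def a2z_2_r3_ring1 : rowsOk stA2Z a2z_2 a2z_2_m3 true .ring = true := by decide +kernel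

def a2z_2_r4_one0 : rowsOk stA2Z a2z_2 a2z_2_m4 false .one = true := by decide +kernel

def a2z_2_r4_one1 : rowsOk stA2Z a2z_2 a2z_2_m4 true .one = true := by decide +kernel

def a2z_2_r4_two0 : rowsOk stA2Z a2z_2 a2z_2_m4 false .two = true := by decide +kernel

def a2z_2_r4_two1 : rowsOk stA2Z a2z_2 a2z_2_m4 true .two = true := by decide +kernel

def a2z_2_r4_twoE0 : rowsOk stA2Z a2z_2 a2z_2_m4 false .twoE = true := by decide +kernel

def a2z_2_r4_twoE1 : rowsOk stA2Z a2z_2 a2z_2_m4 true .twoE = true := by decide +kernel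

def a2z_2_r4_thrR0 : rowsOk stA2Z a2z_2 a2z_2_m4 false .thrR = true := by decide +kernel

def a2z_2_r4_thrR1 : rowsOk stA2Z a2z_2 a2z_2_m4 true .thrR = true := by decide +kernel

def a2z_2_r4_thrL0 : rowsOk stA2Z a2z_2 a2z_2_m4 false .thrL = true := by decide +kernel

def a2z_2_r4_thrL1 : rowsOk stA2Z a2z_2 a2z_2_m4 true .thrL = true := by decide +kernel

def a2z_2_r4_threeE0 : rowsOk stA2Z a2z_2 a2z_2_m4 false .threeE = true := by decide +kernel

def a2z_2_r4_threeE1 : rowsOk stA2Z a2z_2 a2z_2_m4 true .threeE = true := by decide +kernel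

def a2z_2_r4_ring0 : rowsOk stA2Z a2z_2 a2z_2_m4 false .ring = true := by decide +kernel

def a2z_2_r4_ring1 : rowsOk stA2Z a2z_2 a2z_2_m4 true .ring = true := by decide +kernel

theorem a2z_2_r0 : allRows stA2Z a2z_2 a2z_2_m0 = true := by
  refine allRows_of fun P => ?_
  cases P
  exacts [⟨a2z_2_r0_one0, a2z_2_r0_one1⟩,
    ⟨a2z_2_r0_two0, a2z_2_r0_two1⟩,
    ⟨a2z_2_r0_twoE0, a2z_2_r0_twoE1⟩,
    ⟨a2z_2_r0_thrR0, a2z_2_r0_thrR1⟩,
    ⟨a2z_2_r0_thrL0, a2z_2_r0_thrL1⟩,
    ⟨a2z_2_r0_threeE0, a2z_2_r0_threeE1⟩,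
    ⟨a2z_2_r0_ring0, a2z_2_r0_ring1⟩]

theorem a2z_2_r1 : allRows stA2Z a2z_2 a2z_2_m1 = true := by
  refine allRows_of fun P => ?_
  cases P
  exacts [⟨a2z_2_r1_one0, a2z_2_r1_one1⟩,
    ⟨a2z_2_r1_two0, a2z_2_r1_two1⟩,
    ⟨a2z_2_r1_twoE0, a2z_2_r1_twoE1⟩,
    ⟨a2z_2_r1_thrR0, a2z_2_r1_thrR1⟩,
    ⟨a2z_2_r1_thrL0, a2z_2_r1_thrL1⟩,
    ⟨a2z_2_r1_threeE0, a2z_2_r1_threeE1⟩,
    ⟨a2z_2_r1_ring0, a2z_2_r1_ring1⟩]

theorem a2z_2_r2 : allRows stA2Z a2z_2 a2z_2_m2 = true := by
  refine allRows_of fun P => ?_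
  cases P
  exacts [⟨a2z_2_r2_one0, a2z_2_r2_one1⟩,
    ⟨a2z_2_r2_two0, a2z_2_r2_two1⟩,
    ⟨a2z_2_r2_twoE0, a2z_2_r2_twoE1⟩,
    ⟨a2z_2_r2_thrR0, a2z_2_r2_thrR1⟩,
    ⟨a2z_2_r2_thrL0, a2z_2_r2_thrL1⟩,
    ⟨a2z_2_r2_threeE0, a2z_2_r2_threeE1⟩,
    ⟨a2z_2_r2_ring0, a2z_2_r2_ring1⟩]

theorem a2z_2_r3 : allRows stA2Z a2z_2 a2z_2_m3 = true := by
  refine allRows_of fun P => ?_
  cases P
  exacts [⟨a2z_2_r3_one0, a2z_2_r3_one1⟩,
    ⟨a2z_2_r3_two0, a2z_2_r3_two1⟩,
    ⟨a2z_2_r3_twoE0, a2z_2_r3_twoE1⟩,
    ⟨a2z_2_r3_thrR0, a2z_2_r3_thrR1⟩,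
    ⟨a2z_2_r3_thrL0, a2z_2_r3_thrL1⟩,
    ⟨a2z_2_r3_threeE0, a2z_2_r3_threeE1⟩,
    ⟨a2z_2_r3_ring0, a2z_2_r3_ring1⟩]

theorem a2z_2_r4 : allRows stA2Z a2z_2 a2z_2_m4 = true := by
  refine allRows_of fun P => ?_
  cases P
  exacts [⟨a2z_2_r4_one0, a2z_2_r4_one1⟩,
    ⟨a2z_2_r4_two0, a2z_2_r4_two1⟩,
    ⟨a2z_2_r4_twoE0, a2z_2_r4_twoE1⟩,
    ⟨a2z_2_r4_thrR0, a2z_2_r4_thrR1⟩,
    ⟨a2z_2_r4_thrL0, a2z_2_r4_thrL1⟩,
    ⟨a2z_2_r4_threeE0, a2z_2_r4_threeE1⟩,
    ⟨a2z_2_r4_ring0, a2z_2_r4_ring1⟩]

theorem a2z_2_ok : a2z_2.ok stA2Z = true := by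
  have h : (PC.all.all fun P => PC.all.all fun Q => pairOk stA2Z a2z_2 P Q) = true := by decide +kernel
  have d0 : mdOk stA2Z a2z_2_m0.md = true := by decide +kernel
  have d1 : mdOk stA2Z a2z_2_m1.md = true := by decide +kernel
  have d2 : mdOk stA2Z a2z_2_m2.md = true := by decide +kernel
  have d3 : mdOk stA2Z a2z_2_m3.md = true := by decide +kernel
  have d4 : mdOk stA2Z a2z_2_m4.md = true := by decide +kernel
  unfold Piece.ok
  rw [h, Bool.true_and]
  show List.all [a2z_2_m0, a2z_2_m1, a2z_2_m2, a2z_2_m3, a2z_2_m4] _ = true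
  rw [List.all_eq_true]
  intro m hm
  simp only [List.mem_cons, List.not_mem_nil, or_false] at hm
  rcases hm with rfl | rfl | rfl | rfl | rfl
  · rw [a2z_2_r0, d0]; rfl
  · rw [a2z_2_r1, d1]; rfl
  · rw [a2z_2_r2, d2]; rfl
  · rw [a2z_2_r3, d3]; rfl
  · rw [a2z_2_r4, d4]; rfl

end OR

end Pool.Agent.Work.MP_b30479_gt.G2
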