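import Pool.Agent.Work.MP_b30479_gt.G2.OA3n_0d
import Pool.Agent.Work.MP_b30479_gt.G2.ORows
import Pool.Agent.Work.MP_b30479_gt.G2.OStA
import Pool.Agent.Work.MP_b30479_gt.G2.ORowS

namespace Pool.Agent.Work.MP_b30479_gt.G2

namespace OR

set_option linter.defProp false

def a3n_0_r0_thrL0 : rowsOk stA3 a3n_0 a3n_0_m0 false .thrL = true := by decide +kernel

def a3n_0_r0_thrL1 : rowsOk stA3 a3n_0 a3n_0_m0 true .thrL = true := by decide +kernel

def a3n_0_r0_threeE0 : rowsOk stA3 a3n_0 a3n_0_m0 false .threeE = true := by decide +kernel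

def a3n_0_r0_threeE1 : rowsOk stA3 a3n_0 a3n_0_m0 true .threeE = true := by decide +kernel

def a3n_0_r0_ring0 : rowsOk stA3 a3n_0 a3n_0_m0 false .ring = true := by decide +kernel

def a3n_0_r0_ring1 : rowsOk stA3 a3n_0 a3n_0_m0 true .ring = true := by decide +kernel

def a3n_0_r1_one0 : rowsOk stA3 a3n_0 a3n_0_m1 false .one = true := by decide +kernel

def a3n_0_r1_one1 : rowsOk stA3 a3n_0 a3n_0_m1 true .one = true := by decide +kernel

def a3n_0_r1_two0 : rowsOk stA3 a3n_0 a3n_0_m1 false .two = true := by decide +kernel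

def a3n_0_r1_two1 : rowsOk stA3 a3n_0 a3n_0_m1 true .two = true := by decide +kernel

def a3n_0_r1_twoE0 : rowsOk stA3 a3n_0 a3n_0_m1 false .twoE = true := by decide +kernel

def a3n_0_r1_twoE1 : rowsOk stA3 a3n_0 a3n_0_m1 true .twoE = true := by decide +kernel

def a3n_0_r1_thrR0 : rowsOk stA3 a3n_0 a3n_0_m1 false .thrR = true := by decide +kernel

def a3n_0_r1_thrR1 : rowsOk stA3 a3n_0 a3n_0_m1 true .thrR = true := by decide +kernel

def a3n_0_r1_thrL0 : rowsOk stA3 a3n_0 a3n_0_m1 false .thrL = true := by decide +kernel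

def a3n_0_r1_thrL1 : rowsOk stA3 a3n_0 a3n_0_m1 true .thrL = true := by decide +kernel

def a3n_0_r1_threeE0 : rowsOk stA3 a3n_0 a3n_0_m1 false .threeE = true := by decide +kernel

def a3n_0_r1_threeE1 : rowsOk stA3 a3n_0 a3n_0_m1 true .threeE = true := by decide +kernel

def a3n_0_r1_ring0 : rowsOk stA3 a3n_0 a3n_0_m1 false .ring = true := by decide +kernel

def a3n_0_r1_ring1 : rowsOk stA3 a3n_0 a3n_0_m1 true .ring = true := by decide +kernel

def a3n_0_r2_one0_0 : cellOk stA3 a3n_0 a3n_0_m2 false .one ((stA3.bins .one).getD 0 b00)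
    ((a3n_0_m2.g false .one).getD 0 e00) = true := by decide +kernel

def a3n_0_r2_one0_1 : cellOk stA3 a3n_0 a3n_0_m2 false .one ((stA3.bins .one).getD 1 b00)
    ((a3n_0_m2.g false .one).getD 1 e00) = true := by decide +kernel

def a3n_0_r2_one0_2 : cellOk stA3 a3n_0 a3n_0_m2 false .one ((stA3.bins .one).getD 2 b00)
    ((a3n_0_m2.g false .one).getD 2 e00) = true := by decide +kernel

def a3n_0_r2_one0_3 : cellOk stA3 a3n_0 a3n_0_m2 false .one ((stA3.bins .one).getD 3 b00)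
    ((a3n_0_m2.g false .one).getD 3 e00) = true := by decide +kernel

def a3n_0_r2_one0_4 : cellOk stA3 a3n_0 a3n_0_m2 false .one ((stA3.bins .one).getD 4 b00)
    ((a3n_0_m2.g false .one).getD 4 e00) = true := by decide +kernel

def a3n_0_r2_one0_5 : cellOk stA3 a3n_0 a3n_0_m2 false .one ((stA3.bins .one).getD 5 b00)
    ((a3n_0_m2.g false .one).getD 5 e00) = true := by decide +kernel

def a3n_0_r2_one0_6 : cellOk stA3 a3n_0 a3n_0_m2 false .one ((stA3.bins .one).getD 6 b00)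
    ((a3n_0_m2.g false .one).getD 6 e00) = true := by decide +kernel

def a3n_0_r2_one0_7 : cellOk stA3 a3n_0 a3n_0_m2 false .one ((stA3.bins .one).getD 7 b00)
    ((a3n_0_m2.g false .one).getD 7 e00) = true := by decide +kernel

theorem a3n_0_r2_one0 : rowsOk stA3 a3n_0 a3n_0_m2 false .one = true := by
  refine rowsOk_of fun i hi => ?_
  have hi : i < 8 := hi
  interval_cases i
  exacts [a3n_0_r2_one0_0, a3n_0_r2_one0_1, a3n_0_r2_one0_2, a3n_0_r2_one0_3, a3n_0_r2_one0_4, a3n_0_r2_one0_5, a3n_0_r2_one0_6, a3n_0_r2_one0_7]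

def a3n_0_r2_one1_0 : cellOk stA3 a3n_0 a3n_0_m2 true .one ((stA3.bins .one).getD 0 b00)
    ((a3n_0_m2.g true .one).getD 0 e00) = true := by decide +kernel

def a3n_0_r2_one1_1 : cellOk stA3 a3n_0 a3n_0_m2 true .one ((stA3.bins .one).getD 1 b00)
    ((a3n_0_m2.g true .one).getD 1 e00) = true := by decide +kernel

def a3n_0_r2_one1_2 : cellOk stA3 a3n_0 a3n_0_m2 true .one ((stA3.bins .one).getD 2 b00)
    ((a3n_0_m2.g true .one).getD 2 e00) = true := by decide +kernel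

def a3n_0_r2_one1_3 : cellOk stA3 a3n_0 a3n_0_m2 true .one ((stA3.bins .one).getD 3 b00)
    ((a3n_0_m2.g true .one).getD 3 e00) = true := by decide +kernel

def a3n_0_r2_one1_4 : cellOk stA3 a3n_0 a3n_0_m2 true .one ((stA3.bins .one).getD 4 b00)
    ((a3n_0_m2.g true .one).getD 4 e00) = true := by decide +kernel

/-- check -/
def a3n_0_r2_one1_5_x0 : Ck := (cks stA3 a3n_0 a3n_0_m2 true .one
    ((stA3.bins .one).getD 5 b00)
    ((a3n_0_m2.g true .one).getD 5 e00).g).getD 0 ckd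

theorem a3n_0_r2_one1_5_k0 : ck1 a3n_0_r2_one1_5_x0 (((a3n_0_m2.g true .one).getD 5 e00).c.getD 0 0) = true := by
  decide +kernel

/-- check -/
def a3n_0_r2_one1_5_x1 : Ck := (cks stA3 a3n_0 a3n_0_m2 true .one
    ((stA3.bins .one).getD 5 b00)
    ((a3n_0_m2.g true .one).getD 5 e00).g).getD 1 ckd

theorem a3n_0_r2_one1_5_k1 : ck1 a3n_0_r2_one1_5_x1 (((a3n_0_m2.g true .one).getD 5 e00).c.getD 1 0) = true := by
  decide +kernel

/-- check -/
def a3n_0_r2_one1_5_x2 : Ck := (cks stA3 a3n_0 a3n_0_m2 true .one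
    ((stA3.bins .one).getD 5 b00)
    ((a3n_0_m2.g true .one).getD 5 e00).g).getD 2 ckd

theorem a3n_0_r2_one1_5_k2 : ck1 a3n_0_r2_one1_5_x2 (((a3n_0_m2.g true .one).getD 5 e00).c.getD 2 0) = true := by
  decide +kernel

/-- check -/
def a3n_0_r2_one1_5_x3 : Ck := (cks stA3 a3n_0 a3n_0_m2 true .one
    ((stA3.bins .one).getD 5 b00)
    ((a3n_0_m2.g true .one).getD 5 e00).g).getD 3 ckd

theorem a3n_0_r2_one1_5_k3 : ck1 a3n_0_r2_one1_5_x3 (((a3n_0_m2.g true .one).getD 5 e00).c.getD 3 0) = true := by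
  decide +kernel

/-- check -/
def a3n_0_r2_one1_5_x4 : Ck := (cks stA3 a3n_0 a3n_0_m2 true .one
    ((stA3.bins .one).getD 5 b00)
    ((a3n_0_m2.g true .one).getD 5 e00).g).getD 4 ckd

theorem a3n_0_r2_one1_5_k4 : ck1 a3n_0_r2_one1_5_x4 (((a3n_0_m2.g true .one).getD 5 e00).c.getD 4 0) = true := by
  decide +kernel

/-- check -/
def a3n_0_r2_one1_5_x5 : Ck := (cks stA3 a3n_0 a3n_0_m2 true .one
    ((stA3.bins .one).getD 5 b00)
    ((a3n_0_m2.g true .one).getD 5 e00).g).getD 5 ckd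

theorem a3n_0_r2_one1_5_k5 : ck1 a3n_0_r2_one1_5_x5 (((a3n_0_m2.g true .one).getD 5 e00).c.getD 5 0) = true := by
  decide +kernel

def a3n_0_r2_one1_5 : cellOk stA3 a3n_0 a3n_0_m2 true .one ((stA3.bins .one).getD 5 b00)
    ((a3n_0_m2.g true .one).getD 5 e00) = true :=
  cellOk_of 6 (by decide +kernel) (by decide +kernel) fun k hk => by
    interval_cases k
    exacts [a3n_0_r2_one1_5_k0, a3n_0_r2_one1_5_k1, a3n_0_r2_one1_5_k2, a3n_0_r2_one1_5_k3, a3n_0_r2_one1_5_k4, a3n_0_r2_one1_5_k5]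

def a3n_0_r2_one1_6 : cellOk stA3 a3n_0 a3n_0_m2 true .one ((stA3.bins .one).getD 6 b00)
    ((a3n_0_m2.g true .one).getD 6 e00) = true := by decide +kernel

def a3n_0_r2_one1_7 : cellOk stA3 a3n_0 a3n_0_m2 true .one ((stA3.bins .one).getD 7 b00)
    ((a3n_0_m2.g true .one).getD 7 e00) = true := by decide +kernel

theorem a3n_0_r2_one1 : rowsOk stA3 a3n_0 a3n_0_m2 true .one = true := by
  refine rowsOk_of fun i hi => ?_
  have hi : i < 8 := hi
  interval_cases i
  exacts [a3n_0_r2_one1_0, a3n_0_r2_one1_1, a3n_0_r2_one1_2, a3n_0_r2_one1_3, a3n_0_r2_one1_4, a3n_0_r2_one1_5, a3n_0_r2_one1_6, a3n_0_r2_one1_7]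

end OR

end Pool.Agent.Work.MP_b30479_gt.G2
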