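import Pool.Agent.Work.MP_b30479_gt.G2.OA3n_0r0
import Pool.Agent.Work.MP_b30479_gt.G2.OA3n_0r1
import Pool.Agent.Work.MP_b30479_gt.G2.OA3n_0r2

namespace Pool.Agent.Work.MP_b30479_gt.G2

namespace OR

theorem a3n_0_r0 : allRows stA3 a3n_0 a3n_0_m0 = true := by
  refine allRows_of fun P => ?_
  cases P
  exacts [⟨a3n_0_r0_one0, a3n_0_r0_one1⟩,
    ⟨a3n_0_r0_two0, a3n_0_r0_two1⟩,
    ⟨a3n_0_r0_twoE0, a3n_0_r0_twoE1⟩,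
    ⟨a3n_0_r0_thrR0, a3n_0_r0_thrR1⟩,
    ⟨a3n_0_r0_thrL0, a3n_0_r0_thrL1⟩,
    ⟨a3n_0_r0_threeE0, a3n_0_r0_threeE1⟩,
    ⟨a3n_0_r0_ring0, a3n_0_r0_ring1⟩]

theorem a3n_0_r1 : allRows stA3 a3n_0 a3n_0_m1 = true := by
  refine allRows_of fun P => ?_
  cases P
  exacts [⟨a3n_0_r1_one0, a3n_0_r1_one1⟩,
    ⟨a3n_0_r1_two0, a3n_0_r1_two1⟩,
    ⟨a3n_0_r1_twoE0, a3n_0_r1_twoE1⟩,
    ⟨a3n_0_r1_thrR0, a3n_0_r1_thrR1⟩,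
    ⟨a3n_0_r1_thrL0, a3n_0_r1_thrL1⟩,
    ⟨a3n_0_r1_threeE0, a3n_0_r1_threeE1⟩,
    ⟨a3n_0_r1_ring0, a3n_0_r1_ring1⟩]

theorem a3n_0_r2 : allRows stA3 a3n_0 a3n_0_m2 = true := by
  refine allRows_of fun P => ?_
  cases P
  exacts [⟨a3n_0_r2_one0, a3n_0_r2_one1⟩,
    ⟨a3n_0_r2_two0, a3n_0_r2_two1⟩,
    ⟨a3n_0_r2_twoE0, a3n_0_r2_twoE1⟩,
    ⟨a3n_0_r2_thrR0, a3n_0_r2_thrR1⟩,
    ⟨a3n_0_r2_thrL0, a3n_0_r2_thrL1⟩,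
    ⟨a3n_0_r2_threeE0, a3n_0_r2_threeE1⟩,
    ⟨a3n_0_r2_ring0, a3n_0_r2_ring1⟩]

theorem a3n_0_r3 : allRows stA3 a3n_0 a3n_0_m3 = true := by
  refine allRows_of fun P => ?_
  cases P
  exacts [⟨a3n_0_r3_one0, a3n_0_r3_one1⟩,
    ⟨a3n_0_r3_two0, a3n_0_r3_two1⟩,
    ⟨a3n_0_r3_twoE0, a3n_0_r3_twoE1⟩,
    ⟨a3n_0_r3_thrR0, a3n_0_r3_thrR1⟩,
    ⟨a3n_0_r3_thrL0, a3n_0_r3_thrL1⟩,
    ⟨a3n_0_r3_threeE0, a3n_0_r3_threeE1⟩,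
    ⟨a3n_0_r3_ring0, a3n_0_r3_ring1⟩]

theorem a3n_0_r4 : allRows stA3 a3n_0 a3n_0_m4 = true := by
  refine allRows_of fun P => ?_
  cases P
  exacts [⟨a3n_0_r4_one0, a3n_0_r4_one1⟩,
    ⟨a3n_0_r4_two0, a3n_0_r4_two1⟩,
    ⟨a3n_0_r4_twoE0, a3n_0_r4_twoE1⟩,
    ⟨a3n_0_r4_thrR0, a3n_0_r4_thrR1⟩,
    ⟨a3n_0_r4_thrL0, a3n_0_r4_thrL1⟩,
    ⟨a3n_0_r4_threeE0, a3n_0_r4_threeE1⟩,
    ⟨a3n_0_r4_ring0, a3n_0_r4_ring1⟩]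

theorem a3n_0_r5 : allRows stA3 a3n_0 a3n_0_m5 = true := by
  refine allRows_of fun P => ?_
  cases P
  exacts [⟨a3n_0_r5_one0, a3n_0_r5_one1⟩,
    ⟨a3n_0_r5_two0, a3n_0_r5_two1⟩,
    ⟨a3n_0_r5_twoE0, a3n_0_r5_twoE1⟩,
    ⟨a3n_0_r5_thrR0, a3n_0_r5_thrR1⟩,
    ⟨a3n_0_r5_thrL0, a3n_0_r5_thrL1⟩,
    ⟨a3n_0_r5_threeE0, a3n_0_r5_threeE1⟩,
    ⟨a3n_0_r5_ring0, a3n_0_r5_ring1⟩]

theorem a3n_0_ok : a3n_0.ok stA3 = true := by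
  have h : (PC.all.all fun P => PC.all.all fun Q => pairOk stA3 a3n_0 P Q) = true := by decide +kernel
  have d0 : mdOk stA3 a3n_0_m0.md = true := by decide +kernel
  have d1 : mdOk stA3 a3n_0_m1.md = true := by decide +kernel
  have d2 : mdOk stA3 a3n_0_m2.md = true := by decide +kernel
  have d3 : mdOk stA3 a3n_0_m3.md = true := by decide +kernel
  have d4 : mdOk stA3 a3n_0_m4.md = true := by decide +kernel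
  have d5 : mdOk stA3 a3n_0_m5.md = true := by decide +kernel
  unfold Piece.ok
  rw [h, Bool.true_and]
  show List.all [a3n_0_m0, a3n_0_m1, a3n_0_m2, a3n_0_m3, a3n_0_m4, a3n_0_m5] _ = true
  rw [List.all_eq_true]
  intro m hm
  simp only [List.mem_cons, List.not_mem_nil, or_false] at hm
  rcases hm with rfl | rfl | rfl | rfl | rfl | rfl
  · rw [a3n_0_r0, d0]; rfl
  · rw [a3n_0_r1, d1]; rfl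
  · rw [a3n_0_r2, d2]; rfl
  · rw [a3n_0_r3, d3]; rfl
  · rw [a3n_0_r4, d4]; rfl
  · rw [a3n_0_r5, d5]; rfl

end OR

end Pool.Agent.Work.MP_b30479_gt.G2
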