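import Pool.Agent.Work.MP_b30479_gt.G2.OA3n_0d
import Pool.Agent.Work.MP_b30479_gt.G2.ORows
import Pool.Agent.Work.MP_b30479_gt.G2.OStA

namespace Pool.Agent.Work.MP_b30479_gt.G2

namespace OR

set_option linter.defProp false

def a3n_0_r0_one0_0 : cellOk stA3 a3n_0 a3n_0_m0 false .one ((stA3.bins .one).getD 0 b00)
    ((a3n_0_m0.g false .one).getD 0 e00) = true := by decide +kernel

def a3n_0_r0_one0_1 : cellOk stA3 a3n_0 a3n_0_m0 false .one ((stA3.bins .one).getD 1 b00)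
    ((a3n_0_m0.g false .one).getD 1 e00) = true := by decide +kernel

def a3n_0_r0_one0_2 : cellOk stA3 a3n_0 a3n_0_m0 false .one ((stA3.bins .one).getD 2 b00)
    ((a3n_0_m0.g false .one).getD 2 e00) = true := by decide +kernel

def a3n_0_r0_one0_3 : cellOk stA3 a3n_0 a3n_0_m0 false .one ((stA3.bins .one).getD 3 b00)
    ((a3n_0_m0.g false .one).getD 3 e00) = true := by decide +kernel

def a3n_0_r0_one0_4 : cellOk stA3 a3n_0 a3n_0_m0 false .one ((stA3.bins .one).getD 4 b00)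
    ((a3n_0_m0.g false .one).getD 4 e00) = true := by decide +kernel

def a3n_0_r0_one0_5 : cellOk stA3 a3n_0 a3n_0_m0 false .one ((stA3.bins .one).getD 5 b00)
    ((a3n_0_m0.g false .one).getD 5 e00) = true := by decide +kernel

def a3n_0_r0_one0_6 : cellOk stA3 a3n_0 a3n_0_m0 false .one ((stA3.bins .one).getD 6 b00)
    ((a3n_0_m0.g false .one).getD 6 e00) = true := by decide +kernel

def a3n_0_r0_one0_7 : cellOk stA3 a3n_0 a3n_0_m0 false .one ((stA3.bins .one).getD 7 b00)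
    ((a3n_0_m0.g false .one).getD 7 e00) = true := by decide +kernel

theorem a3n_0_r0_one0 : rowsOk stA3 a3n_0 a3n_0_m0 false .one = true := by
  refine rowsOk_of fun i hi => ?_
  have hi : i < 8 := hi
  interval_cases i
  exacts [a3n_0_r0_one0_0, a3n_0_r0_one0_1, a3n_0_r0_one0_2, a3n_0_r0_one0_3, a3n_0_r0_one0_4, a3n_0_r0_one0_5, a3n_0_r0_one0_6, a3n_0_r0_one0_7]

def a3n_0_r0_one1_0 : cellOk stA3 a3n_0 a3n_0_m0 true .one ((stA3.bins .one).getD 0 b00)
    ((a3n_0_m0.g true .one).getD 0 e00) = true := by decide +kernel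

def a3n_0_r0_one1_1 : cellOk stA3 a3n_0 a3n_0_m0 true .one ((stA3.bins .one).getD 1 b00)
    ((a3n_0_m0.g true .one).getD 1 e00) = true := by decide +kernel

def a3n_0_r0_one1_2 : cellOk stA3 a3n_0 a3n_0_m0 true .one ((stA3.bins .one).getD 2 b00)
    ((a3n_0_m0.g true .one).getD 2 e00) = true := by decide +kernel

def a3n_0_r0_one1_3 : cellOk stA3 a3n_0 a3n_0_m0 true .one ((stA3.bins .one).getD 3 b00)
    ((a3n_0_m0.g true .one).getD 3 e00) = true := by decide +kernel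

def a3n_0_r0_one1_4 : cellOk stA3 a3n_0 a3n_0_m0 true .one ((stA3.bins .one).getD 4 b00)
    ((a3n_0_m0.g true .one).getD 4 e00) = true := by decide +kernel

def a3n_0_r0_one1_5 : cellOk stA3 a3n_0 a3n_0_m0 true .one ((stA3.bins .one).getD 5 b00)
    ((a3n_0_m0.g true .one).getD 5 e00) = true := by decide +kernel

def a3n_0_r0_one1_6 : cellOk stA3 a3n_0 a3n_0_m0 true .one ((stA3.bins .one).getD 6 b00)
    ((a3n_0_m0.g true .one).getD 6 e00) = true := by decide +kernel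

def a3n_0_r0_one1_7 : cellOk stA3 a3n_0 a3n_0_m0 true .one ((stA3.bins .one).getD 7 b00)
    ((a3n_0_m0.g true .one).getD 7 e00) = true := by decide +kernel

theorem a3n_0_r0_one1 : rowsOk stA3 a3n_0 a3n_0_m0 true .one = true := by
  refine rowsOk_of fun i hi => ?_
  have hi : i < 8 := hi
  interval_cases i
  exacts [a3n_0_r0_one1_0, a3n_0_r0_one1_1, a3n_0_r0_one1_2, a3n_0_r0_one1_3, a3n_0_r0_one1_4, a3n_0_r0_one1_5, a3n_0_r0_one1_6, a3n_0_r0_one1_7]

def a3n_0_r0_two0 : rowsOk stA3 a3n_0 a3n_0_m0 false .two = true := by decide +kernel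

def a3n_0_r0_two1 : rowsOk stA3 a3n_0 a3n_0_m0 true .two = true := by decide +kernel

def a3n_0_r0_twoE0 : rowsOk stA3 a3n_0 a3n_0_m0 false .twoE = true := by decide +kernel

def a3n_0_r0_twoE1 : rowsOk stA3 a3n_0 a3n_0_m0 true .twoE = true := by decide +kernel

def a3n_0_r0_thrR0_0 : cellOk stA3 a3n_0 a3n_0_m0 false .thrR ((stA3.bins .thrR).getD 0 b00)
    ((a3n_0_m0.g false .thrR).getD 0 e00) = true := by decide +kernel

def a3n_0_r0_thrR0_1 : cellOk stA3 a3n_0 a3n_0_m0 false .thrR ((stA3.bins .thrR).getD 1 b00)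
    ((a3n_0_m0.g false .thrR).getD 1 e00) = true := by decide +kernel

def a3n_0_r0_thrR0_2 : cellOk stA3 a3n_0 a3n_0_m0 false .thrR ((stA3.bins .thrR).getD 2 b00)
    ((a3n_0_m0.g false .thrR).getD 2 e00) = true := by decide +kernel

def a3n_0_r0_thrR0_3 : cellOk stA3 a3n_0 a3n_0_m0 false .thrR ((stA3.bins .thrR).getD 3 b00)
    ((a3n_0_m0.g false .thrR).getD 3 e00) = true := by decide +kernel

def a3n_0_r0_thrR0_4 : cellOk stA3 a3n_0 a3n_0_m0 false .thrR ((stA3.bins .thrR).getD 4 b00)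
    ((a3n_0_m0.g false .thrR).getD 4 e00) = true := by decide +kernel

def a3n_0_r0_thrR0_5 : cellOk stA3 a3n_0 a3n_0_m0 false .thrR ((stA3.bins .thrR).getD 5 b00)
    ((a3n_0_m0.g false .thrR).getD 5 e00) = true := by decide +kernel

theorem a3n_0_r0_thrR0 : rowsOk stA3 a3n_0 a3n_0_m0 false .thrR = true := by
  refine rowsOk_of fun i hi => ?_
  have hi : i < 6 := hi
  interval_cases i
  exacts [a3n_0_r0_thrR0_0, a3n_0_r0_thrR0_1, a3n_0_r0_thrR0_2, a3n_0_r0_thrR0_3, a3n_0_r0_thrR0_4, a3n_0_r0_thrR0_5]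

def a3n_0_r0_thrR1 : rowsOk stA3 a3n_0 a3n_0_m0 true .thrR = true := by decide +kernel

end OR

end Pool.Agent.Work.MP_b30479_gt.G2
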