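import Pool.Agent.Work.MP_b30479_gt.G2.OStA
import Pool.Agent.Work.MP_b30479_gt.G2.ORows

namespace Pool.Agent.Work.MP_b30479_gt.G2

namespace OR

/-- windows -/
def a3n_1_wp : PC → Win
  | .one => ⟨-770, 520, -810, 760, 0, 530⟩
  | .two => ⟨-30, 780, -50, 1100, 0, 620⟩
  | .twoE => ⟨-610, -170, -220, 530, 190, 820⟩
  | .thrR => ⟨310, 930, 280, 1270, 0, 580⟩
  | .thrL => ⟨310, 930, 280, 1270, 0, 580⟩
  | .threeE => ⟨160, 600, 360, 1170, 10, 740⟩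
  | .ring => ⟨0, 0, 0, 0, 0, 0⟩

/-- windows -/
def a3n_1_wq : PC → Win
  | .one => ⟨-770, 530, -920, 760, -820, 0⟩
  | .two => ⟨-30, 780, -50, 1100, -290, 0⟩
  | .twoE => ⟨0, 0, 0, 0, 0, 0⟩
  | .thrR => ⟨310, 930, 280, 1270, -240, 0⟩
  | .thrL => ⟨310, 930, 280, 1270, -240, 0⟩
  | .threeE => ⟨0, 0, 0, 0, 0, 0⟩
  | .ring => ⟨0, 0, 0, 0, 0, 0⟩

/-- mode -/
def a3n_1_m0 : Mode where
  md := .V 300 1000
  lam := 750
  ct := 2000
  gp := fun
    | .one => [⟨312, [8]⟩, ⟨312, [142837810]⟩, ⟨-46, [9361018751011]⟩, ⟨-717, [173050255345968792131798911432754, 142837811, 8, 8, 2401896631904307, 614883338750208051]⟩, ⟨-1382, [0, 2394221256906803, 8, 8, 11341122573574373095820839069259342370, 675983582438556061799835443746]⟩, ⟨-1382, [0, 0, 0, 0, 8, 8]⟩, ⟨-1382, [0, 0, 0, 0, 8, 8]⟩, e00]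
    | .two => [⟨819, [2178]⟩, ⟨155, [36642654259]⟩, ⟨155, [9381150427186, 2179, 8, 8, 143164195, 143164195]⟩, ⟨-868, [0, 142706739, 8, 8, 40297166909372024107554, 2401919795606050]⟩, ⟨-868, [0, 0, 0, 0, 8, 8]⟩, e00]
    | .twoE => [⟨695, [8]⟩, ⟨-328, [2178]⟩, ⟨-328, [36532617858, 2177, 8, 8, 559154, 559154]⟩, ⟨-328, [0, 2177, 8, 8, 9382491861538, 9382493958690]⟩, ⟨-1771, [0, 0, 0, 0, 8, 2178]⟩, e00]
    | .thrR => [⟨729, [2178]⟩, ⟨729, [142837810]⟩, ⟨65, [9361019115570, 8, 8, 8, 8, 8]⟩, ⟨-662, [0, 819331, 3200, 8, 614885969679102498, 13]⟩, ⟨-958, [0, 0, 0, 0, 8, 8]⟩, ⟨-958, [0, 0, 0, 0, 142772258, 142836354]⟩]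
    | .thrL => [⟨729, [2178]⟩, ⟨729, [2179]⟩, ⟨65, [9361019115570, 8, 8, 8, 8, 8]⟩, ⟨-662, [0, 819331, 3200, 8, 614884850572296994, 13]⟩, ⟨-958, [0, 0, 0, 0, 2178, 8]⟩, ⟨-2093, [0, 0, 0, 0, 557698, 557698]⟩]
    | .threeE => [⟨901, [8]⟩, ⟨237, [142706706]⟩, ⟨-621, [614762824450713650, 2177, 8, 8, 2179, 13]⟩, ⟨-786, [0, 2177, 8, 8, 36650357538, 13]⟩, ⟨-786, [0, 0, 0, 0, 2178, 8]⟩, ⟨-2810, [0, 0, 0, 0, 8, 8]⟩]
    | .ring => [e00, e00, e00, e00, e00, e00]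
  gq := fun
    | .one => [⟨234, [2179]⟩, ⟨70, [614759506246140210]⟩, ⟨-62, [612912346230687794]⟩, ⟨-789, [48716082533779034045740832602466317760766425138, 2396420280162355, 8, 8, 157051920085168632531, 10292549395052135673070386]⟩, ⟨-1453, [0, 156907684293102802995, 8, 8, 2903706509415677012759121481369118715186, 12469696539127703364237862237838400685484037841442]⟩, ⟨-1453, [0, 0, 0, 0, 8, 8]⟩, ⟨-1453, [0, 0, 0, 0, 2179, 559139]⟩, e00]
    | .two => [⟨83, [36549396530]⟩, ⟨83, [142837811]⟩, ⟨83, [36645118850, 2179, 8, 8, 143163699, 559155]⟩, ⟨-946, [0, 559155, 8, 8, 614885971559854626, 2401919795606050]⟩, ⟨-946, [0, 0, 0, 0, 8, 8]⟩, e00]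
    | .twoE => [e00, e00, e00, e00, e00, e00]
    | .thrR => [⟨658, [8]⟩, ⟨658, [557954]⟩, ⟨-7, [142837810, 8, 8, 8, 8, 8]⟩, ⟨-678, [0, 2179, 8, 8, 36650365474, 13]⟩, ⟨-1036, [0, 0, 0, 0, 8, 8]⟩, ⟨-1036, [0, 0, 0, 0, 557698, 557698]⟩]
    | .thrL => [⟨658, [2178]⟩, ⟨658, [2179]⟩, ⟨-7, [142837810, 8, 8, 8, 8, 8]⟩, ⟨-678, [0, 2179, 8, 8, 143164194, 13]⟩, ⟨-1036, [0, 0, 0, 0, 2178, 8]⟩, ⟨-1945, [0, 0, 0, 0, 557698, 557698]⟩]
    | .threeE => [e00, e00, e00, e00, e00, e00]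
    | .ring => [e00, e00, e00, e00, e00, e00]

/-- mode -/
def a3n_1_m1 : Mode where
  md := .D
  lam := 1000
  ct := 14000
  gp := fun
    | .one => [⟨-790, [8]⟩, ⟨-790, [9356723849250]⟩, ⟨-790, [11316621795542189359259026240975700786]⟩, e00, e00, e00, e00, e00]
    | .two => [⟨-136, [2394201739397154]⟩, ⟨-136, [156907701885364371747]⟩, e00, e00, e00, e00]
    | .twoE => [⟨584, [2178]⟩, e00, e00, e00, e00, e00]
    | .thrR => [⟨-256, [9356645513250]⟩, ⟨-256, [156907689358289043762]⟩, e00, e00, e00, e00]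
    | .thrL => [⟨-256, [9361018751010]⟩, ⟨-256, [9380519479331]⟩, e00, e00, e00, e00]
    | .threeE => [⟨-26, [142772242]⟩, ⟨-26, [2401486003800114]⟩, e00, e00, e00, e00]
    | .ring => [e00, e00, e00, e00, e00, e00]
  gq := fun
    | .one => [⟨-708, [2179]⟩, ⟨-708, [40167966358667482661170]⟩, ⟨-708, [53441957682347284870999392466864512418079852119900244443954]⟩, e00, e00, e00, e00, e00]
    | .two => [⟨-54, [36566108210]⟩, ⟨-54, [613202185466415139]⟩, e00, e00, e00, e00]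
    | .twoE => [e00, e00, e00, e00, e00, e00]
    | .thrR => [⟨-174, [36566173746]⟩, ⟨-174, [613202273971480626]⟩, e00, e00, e00, e00]
    | .thrL => [⟨-174, [36549396530]⟩, ⟨-174, [36549703715]⟩, e00, e00, e00, e00]
    | .threeE => [e00, e00, e00, e00, e00, e00]
    | .ring => [e00, e00, e00, e00, e00, e00]

/-- mode -/
def a3n_1_m2 : Mode where
  md := .V 150 1000
  lam := 750
  ct := 1500
  gp := fun
    | .one => [⟨1145, [8]⟩, ⟨1145, [36566108195]⟩, ⟨1145, [9361018751027]⟩, ⟨1145, [40291402301484035115058, 142837811, 8, 8, 2401888041973811, 9380804700211]⟩, ⟨1145, [0, 142837811, 8, 8, 10316074737805966422778402, 157412128113244185122]⟩, ⟨-272, [0, 0, 0, 0, 8, 8]⟩, ⟨-729, [0, 0, 0, 0, 8, 8]⟩, ⟨-2579, [0, 0, 0, 0, 9352333764658, 2401554723407922]⟩]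
    | .two => [⟨2106, [2178]⟩, ⟨2106, [2179]⟩, ⟨2106, [36645118850, 2179, 8, 8, 143164195, 143163683]⟩, ⟨2106, [0, 2179, 8, 8, 2401919795606050, 2401919793508898]⟩, ⟨739, [0, 0, 0, 0, 8, 8]⟩, ⟨-1686, [0, 0, 0, 0, 40204859565679227011874, 36566106754]⟩]
    | .twoE => [⟨2646, [8]⟩, ⟨2326, [2177]⟩, ⟨1445, [142836354, 8, 8, 8, 559154, 559154]⟩, ⟨338, [0, 2177, 8, 8, 9382491861538, 9382493958690]⟩, ⟨-1248, [0, 0, 0, 0, 8, 8]⟩, ⟨-2171, [0, 0, 0, 0, 8, 8]⟩]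
    | .thrR => [⟨2016, [36566106498]⟩, ⟨2016, [9380880877603]⟩, ⟨2016, [2178, 8, 8, 8, 8, 8]⟩, ⟨2016, [0, 8, 8, 8, 143163938, 13]⟩, ⟨1302, [0, 0, 0, 0, 8, 8]⟩, ⟨888, [0, 0, 0, 0, 8, 8]⟩]
    | .thrL => [⟨2016, [557954]⟩, ⟨2016, [557443]⟩, ⟨2016, [2178, 8, 8, 8, 8, 8]⟩, ⟨2016, [0, 8, 8, 8, 559138, 13]⟩, ⟨1630, [0, 0, 0, 0, 8, 8]⟩, ⟨-1773, [0, 0, 0, 0, 8, 8]⟩]
    | .threeE => [⟨2189, [8]⟩, ⟨2189, [2178]⟩, ⟨2189, [557442, 2177, 8, 8, 2177, 13]⟩, ⟨2062, [0, 2177, 8, 8, 143163682, 13]⟩, ⟨606, [0, 0, 0, 0, 8, 8]⟩, ⟨-2595, [0, 0, 0, 0, 8, 8]⟩]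
    | .ring => [e00, e00, e00, e00, e00, e00]
  gq := fun
    | .one => [⟨1052, [8]⟩, ⟨1052, [36532553747]⟩, ⟨1052, [36566108195]⟩, ⟨1052, [2640386227471963167690754098, 36532619315, 8, 8, 9381156565715, 157051804948755481394]⟩, ⟨1052, [0, 36532619315, 8, 8, 157412210596663930162, 2640937274231420220010078754]⟩, ⟨-343, [0, 0, 0, 0, 8, 8]⟩, ⟨-670, [0, 0, 0, 0, 8, 8]⟩, ⟨-2740, [0, 0, 0, 0, 172521860844354161663509842638898, 21984763554824006508034260715767813330714419900069458963360824453810971433860908575020775976464801223928052449906798371634]⟩]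
    | .two => [⟨1945, [8]⟩, ⟨1945, [2179]⟩, ⟨1945, [36645118850, 2179, 8, 8, 559155, 559155]⟩, ⟨1945, [0, 2179, 8, 8, 9382498873890, 9382498873890]⟩, ⟨631, [0, 0, 0, 0, 8, 8]⟩, ⟨-1779, [0, 0, 0, 0, 156978181655790453538, 142770818]⟩]
    | .twoE => [e00, e00, e00, e00, e00, e00]
    | .thrR => [⟨1855, [8]⟩, ⟨1855, [2178]⟩, ⟨1855, [2178, 8, 8, 8, 8, 8]⟩, ⟨1855, [0, 8, 8, 8, 143163938, 13]⟩, ⟨1218, [0, 0, 0, 0, 8, 8]⟩, ⟨882, [0, 0, 0, 0, 8, 8]⟩]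
    | .thrL => [⟨1855, [8]⟩, ⟨1855, [2179]⟩, ⟨1855, [2178, 8, 8, 8, 8, 8]⟩, ⟨1855, [0, 8, 8, 8, 559138, 13]⟩, ⟨1484, [0, 0, 0, 0, 8, 8]⟩, ⟨-1779, [0, 0, 0, 0, 8, 8]⟩]
    | .threeE => [e00, e00, e00, e00, e00, e00]
    | .ring => [e00, e00, e00, e00, e00, e00]

/-- mode -/
def a3n_1_m3 : Mode where
  md := .V 550 1000
  lam := 250
  ct := 2000
  gp := fun
    | .one => [⟨171, [8]⟩, ⟨171, [142837810]⟩, ⟨171, [36566108195]⟩, ⟨-567, [2640537343535900758846748722, 142837811, 8, 8, 614885537773332531, 614885537773463603]⟩, e00, e00, e00, e00]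
    | .two => [⟨436, [557954]⟩, e00, ⟨-309, [2401888387696690, 559123, 8, 8, 143164195, 143164195]⟩, e00, e00, e00]
    | .twoE => [e00, e00, e00, e00, e00, e00]
    | .thrR => [⟨406, [2178]⟩, ⟨406, [557954]⟩, ⟨-339, [36566472754, 8, 8, 8, 2179, 8]⟩, ⟨-339, [0, 8, 8, 8, 2401486009545250, 13]⟩, e00, e00]
    | .thrL => [⟨406, [2178]⟩, ⟨406, [2179]⟩, ⟨-339, [36566472754, 8, 8, 8, 2179, 8]⟩, ⟨-339, [0, 8, 8, 8, 143164194, 13]⟩, e00, e00]
    | .threeE => [⟨464, [2178]⟩, e00, ⟨-282, [143135618, 2177, 8, 8, 2179, 13]⟩, e00, e00, e00]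
    | .ring => [e00, e00, e00, e00, e00, e00]
  gq := fun
    | .one => [⟨95, [2179]⟩, ⟨95, [36532553763]⟩, ⟨95, [9360923695139]⟩, ⟨-650, [12471317128647432715709620105303598171689397551410, 2396420280162355, 8, 8, 157051920085168632531, 673913372530327857883619885874]⟩, e00, e00, e00, e00]
    | .two => [e00, e00, ⟨-385, [9381150427186, 2179, 8, 8, 143164211, 143164211]⟩, e00, e00, e00]
    | .twoE => [e00, e00, e00, e00, e00, e00]
    | .thrR => [⟨323, [2179]⟩, ⟨323, [557954]⟩, ⟨-415, [142837810, 8, 8, 8, 2179, 8]⟩, ⟨-415, [0, 8, 8, 8, 2396396473299490, 13]⟩, e00, e00]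
    | .thrL => [⟨323, [2178]⟩, ⟨323, [2179]⟩, ⟨-415, [142837810, 8, 8, 8, 2179, 8]⟩, ⟨-415, [0, 8, 8, 8, 143164194, 13]⟩, e00, e00]
    | .threeE => [e00, e00, e00, e00, e00, e00]
    | .ring => [e00, e00, e00, e00, e00, e00]

/-- piece -/
def a3n_1 : Piece := ⟨7500, 7750, 0, 820, a3n_1_wp, a3n_1_wq, [a3n_1_m0, a3n_1_m1, a3n_1_m2, a3n_1_m3]⟩

set_option linter.defProp false

def a3n_1_r0_one0 : rowsOk stA3 a3n_1 a3n_1_m0 false .one = true := by decide +kernel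

def a3n_1_r0_one1_0 : cellOk stA3 a3n_1 a3n_1_m0 true .one ((stA3.bins .one).getD 0 b00)
    ((a3n_1_m0.g true .one).getD 0 e00) = true := by decide +kernel

def a3n_1_r0_one1_1 : cellOk stA3 a3n_1 a3n_1_m0 true .one ((stA3.bins .one).getD 1 b00)
    ((a3n_1_m0.g true .one).getD 1 e00) = true := by decide +kernel

def a3n_1_r0_one1_2 : cellOk stA3 a3n_1 a3n_1_m0 true .one ((stA3.bins .one).getD 2 b00)
    ((a3n_1_m0.g true .one).getD 2 e00) = true := by decide +kernel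

def a3n_1_r0_one1_3 : cellOk stA3 a3n_1 a3n_1_m0 true .one ((stA3.bins .one).getD 3 b00)
    ((a3n_1_m0.g true .one).getD 3 e00) = true := by decide +kernel

def a3n_1_r0_one1_4 : cellOk stA3 a3n_1 a3n_1_m0 true .one ((stA3.bins .one).getD 4 b00)
    ((a3n_1_m0.g true .one).getD 4 e00) = true := by decide +kernel

def a3n_1_r0_one1_5 : cellOk stA3 a3n_1 a3n_1_m0 true .one ((stA3.bins .one).getD 5 b00)
    ((a3n_1_m0.g true .one).getD 5 e00) = true := by decide +kernel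

def a3n_1_r0_one1_6 : cellOk stA3 a3n_1 a3n_1_m0 true .one ((stA3.bins .one).getD 6 b00)
    ((a3n_1_m0.g true .one).getD 6 e00) = true := by decide +kernel

def a3n_1_r0_one1_7 : cellOk stA3 a3n_1 a3n_1_m0 true .one ((stA3.bins .one).getD 7 b00)
    ((a3n_1_m0.g true .one).getD 7 e00) = true := by decide +kernel

theorem a3n_1_r0_one1 : rowsOk stA3 a3n_1 a3n_1_m0 true .one = true := by
  refine rowsOk_of fun i hi => ?_
  have hi : i < 8 := hi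
  interval_cases i
  exacts [a3n_1_r0_one1_0, a3n_1_r0_one1_1, a3n_1_r0_one1_2, a3n_1_r0_one1_3, a3n_1_r0_one1_4, a3n_1_r0_one1_5, a3n_1_r0_one1_6, a3n_1_r0_one1_7]

def a3n_1_r0_two0 : rowsOk stA3 a3n_1 a3n_1_m0 false .two = true := by decide +kernel

def a3n_1_r0_two1 : rowsOk stA3 a3n_1 a3n_1_m0 true .two = true := by decide +kernel

def a3n_1_r0_twoE0 : rowsOk stA3 a3n_1 a3n_1_m0 false .twoE = true := by decide +kernel

def a3n_1_r0_twoE1 : rowsOk stA3 a3n_1 a3n_1_m0 true .twoE = true := by decide +kernel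

def a3n_1_r0_thrR0 : rowsOk stA3 a3n_1 a3n_1_m0 false .thrR = true := by decide +kernel

def a3n_1_r0_thrR1 : rowsOk stA3 a3n_1 a3n_1_m0 true .thrR = true := by decide +kernel

def a3n_1_r0_thrL0 : rowsOk stA3 a3n_1 a3n_1_m0 false .thrL = true := by decide +kernel

def a3n_1_r0_thrL1 : rowsOk stA3 a3n_1 a3n_1_m0 true .thrL = true := by decide +kernel

def a3n_1_r0_threeE0 : rowsOk stA3 a3n_1 a3n_1_m0 false .threeE = true := by decide +kernel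

def a3n_1_r0_threeE1 : rowsOk stA3 a3n_1 a3n_1_m0 true .threeE = true := by decide +kernel

def a3n_1_r0_ring0 : rowsOk stA3 a3n_1 a3n_1_m0 false .ring = true := by decide +kernel

def a3n_1_r0_ring1 : rowsOk stA3 a3n_1 a3n_1_m0 true .ring = true := by decide +kernel

def a3n_1_r1_one0 : rowsOk stA3 a3n_1 a3n_1_m1 false .one = true := by decide +kernel

def a3n_1_r1_one1 : rowsOk stA3 a3n_1 a3n_1_m1 true .one = true := by decide +kernel

def a3n_1_r1_two0 : rowsOk stA3 a3n_1 a3n_1_m1 false .two = true := by decide +kernel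

def a3n_1_r1_two1 : rowsOk stA3 a3n_1 a3n_1_m1 true .two = true := by decide +kernel

def a3n_1_r1_twoE0 : rowsOk stA3 a3n_1 a3n_1_m1 false .twoE = true := by decide +kernel

def a3n_1_r1_twoE1 : rowsOk stA3 a3n_1 a3n_1_m1 true .twoE = true := by decide +kernel

def a3n_1_r1_thrR0 : rowsOk stA3 a3n_1 a3n_1_m1 false .thrR = true := by decide +kernel

def a3n_1_r1_thrR1 : rowsOk stA3 a3n_1 a3n_1_m1 true .thrR = true := by decide +kernel

def a3n_1_r1_thrL0 : rowsOk stA3 a3n_1 a3n_1_m1 false .thrL = true := by decide +kernel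

def a3n_1_r1_thrL1 : rowsOk stA3 a3n_1 a3n_1_m1 true .thrL = true := by decide +kernel

def a3n_1_r1_threeE0 : rowsOk stA3 a3n_1 a3n_1_m1 false .threeE = true := by decide +kernel

def a3n_1_r1_threeE1 : rowsOk stA3 a3n_1 a3n_1_m1 true .threeE = true := by decide +kernel

def a3n_1_r1_ring0 : rowsOk stA3 a3n_1 a3n_1_m1 false .ring = true := by decide +kernel

def a3n_1_r1_ring1 : rowsOk stA3 a3n_1 a3n_1_m1 true .ring = true := by decide +kernel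

def a3n_1_r2_one0 : rowsOk stA3 a3n_1 a3n_1_m2 false .one = true := by decide +kernel

def a3n_1_r2_one1_0 : cellOk stA3 a3n_1 a3n_1_m2 true .one ((stA3.bins .one).getD 0 b00)
    ((a3n_1_m2.g true .one).getD 0 e00) = true := by decide +kernel

def a3n_1_r2_one1_1 : cellOk stA3 a3n_1 a3n_1_m2 true .one ((stA3.bins .one).getD 1 b00)
    ((a3n_1_m2.g true .one).getD 1 e00) = true := by decide +kernel

def a3n_1_r2_one1_2 : cellOk stA3 a3n_1 a3n_1_m2 true .one ((stA3.bins .one).getD 2 b00)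
    ((a3n_1_m2.g true .one).getD 2 e00) = true := by decide +kernel

def a3n_1_r2_one1_3 : cellOk stA3 a3n_1 a3n_1_m2 true .one ((stA3.bins .one).getD 3 b00)
    ((a3n_1_m2.g true .one).getD 3 e00) = true := by decide +kernel

def a3n_1_r2_one1_4 : cellOk stA3 a3n_1 a3n_1_m2 true .one ((stA3.bins .one).getD 4 b00)
    ((a3n_1_m2.g true .one).getD 4 e00) = true := by decide +kernel

def a3n_1_r2_one1_5 : cellOk stA3 a3n_1 a3n_1_m2 true .one ((stA3.bins .one).getD 5 b00)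
    ((a3n_1_m2.g true .one).getD 5 e00) = true := by decide +kernel

def a3n_1_r2_one1_6 : cellOk stA3 a3n_1 a3n_1_m2 true .one ((stA3.bins .one).getD 6 b00)
    ((a3n_1_m2.g true .one).getD 6 e00) = true := by decide +kernel

def a3n_1_r2_one1_7 : cellOk stA3 a3n_1 a3n_1_m2 true .one ((stA3.bins .one).getD 7 b00)
    ((a3n_1_m2.g true .one).getD 7 e00) = true := by decide +kernel

theorem a3n_1_r2_one1 : rowsOk stA3 a3n_1 a3n_1_m2 true .one = true := by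
  refine rowsOk_of fun i hi => ?_
  have hi : i < 8 := hi
  interval_cases i
  exacts [a3n_1_r2_one1_0, a3n_1_r2_one1_1, a3n_1_r2_one1_2, a3n_1_r2_one1_3, a3n_1_r2_one1_4, a3n_1_r2_one1_5, a3n_1_r2_one1_6, a3n_1_r2_one1_7]

def a3n_1_r2_two0 : rowsOk stA3 a3n_1 a3n_1_m2 false .two = true := by decide +kernel

def a3n_1_r2_two1 : rowsOk stA3 a3n_1 a3n_1_m2 true .two = true := by decide +kernel

def a3n_1_r2_twoE0 : rowsOk stA3 a3n_1 a3n_1_m2 false .twoE = true := by decide +kernel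

def a3n_1_r2_twoE1 : rowsOk stA3 a3n_1 a3n_1_m2 true .twoE = true := by decide +kernel

def a3n_1_r2_thrR0 : rowsOk stA3 a3n_1 a3n_1_m2 false .thrR = true := by decide +kernel

def a3n_1_r2_thrR1 : rowsOk stA3 a3n_1 a3n_1_m2 true .thrR = true := by decide +kernel

def a3n_1_r2_thrL0 : rowsOk stA3 a3n_1 a3n_1_m2 false .thrL = true := by decide +kernel

def a3n_1_r2_thrL1 : rowsOk stA3 a3n_1 a3n_1_m2 true .thrL = true := by decide +kernel

def a3n_1_r2_threeE0 : rowsOk stA3 a3n_1 a3n_1_m2 false .threeE = true := by decide +kernel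

def a3n_1_r2_threeE1 : rowsOk stA3 a3n_1 a3n_1_m2 true .threeE = true := by decide +kernel

def a3n_1_r2_ring0 : rowsOk stA3 a3n_1 a3n_1_m2 false .ring = true := by decide +kernel

def a3n_1_r2_ring1 : rowsOk stA3 a3n_1 a3n_1_m2 true .ring = true := by decide +kernel

def a3n_1_r3_one0 : rowsOk stA3 a3n_1 a3n_1_m3 false .one = true := by decide +kernel

def a3n_1_r3_one1 : rowsOk stA3 a3n_1 a3n_1_m3 true .one = true := by decide +kernel

def a3n_1_r3_two0 : rowsOk stA3 a3n_1 a3n_1_m3 false .two = true := by decide +kernel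

def a3n_1_r3_two1 : rowsOk stA3 a3n_1 a3n_1_m3 true .two = true := by decide +kernel

def a3n_1_r3_twoE0 : rowsOk stA3 a3n_1 a3n_1_m3 false .twoE = true := by decide +kernel

def a3n_1_r3_twoE1 : rowsOk stA3 a3n_1 a3n_1_m3 true .twoE = true := by decide +kernel

def a3n_1_r3_thrR0 : rowsOk stA3 a3n_1 a3n_1_m3 false .thrR = true := by decide +kernel

def a3n_1_r3_thrR1 : rowsOk stA3 a3n_1 a3n_1_m3 true .thrR = true := by decide +kernel

def a3n_1_r3_thrL0 : rowsOk stA3 a3n_1 a3n_1_m3 false .thrL = true := by decide +kernel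

def a3n_1_r3_thrL1 : rowsOk stA3 a3n_1 a3n_1_m3 true .thrL = true := by decide +kernel

def a3n_1_r3_threeE0 : rowsOk stA3 a3n_1 a3n_1_m3 false .threeE = true := by decide +kernel

def a3n_1_r3_threeE1 : rowsOk stA3 a3n_1 a3n_1_m3 true .threeE = true := by decide +kernel

def a3n_1_r3_ring0 : rowsOk stA3 a3n_1 a3n_1_m3 false .ring = true := by decide +kernel

def a3n_1_r3_ring1 : rowsOk stA3 a3n_1 a3n_1_m3 true .ring = true := by decide +kernel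

theorem a3n_1_r0 : allRows stA3 a3n_1 a3n_1_m0 = true := by
  refine allRows_of fun P => ?_
  cases P
  exacts [⟨a3n_1_r0_one0, a3n_1_r0_one1⟩,
    ⟨a3n_1_r0_two0, a3n_1_r0_two1⟩,
    ⟨a3n_1_r0_twoE0, a3n_1_r0_twoE1⟩,
    ⟨a3n_1_r0_thrR0, a3n_1_r0_thrR1⟩,
    ⟨a3n_1_r0_thrL0, a3n_1_r0_thrL1⟩,
    ⟨a3n_1_r0_threeE0, a3n_1_r0_threeE1⟩,
    ⟨a3n_1_r0_ring0, a3n_1_r0_ring1⟩]

theorem a3n_1_r1 : allRows stA3 a3n_1 a3n_1_m1 = true := by
  refine allRows_of fun P => ?_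
  cases P
  exacts [⟨a3n_1_r1_one0, a3n_1_r1_one1⟩,
    ⟨a3n_1_r1_two0, a3n_1_r1_two1⟩,
    ⟨a3n_1_r1_twoE0, a3n_1_r1_twoE1⟩,
    ⟨a3n_1_r1_thrR0, a3n_1_r1_thrR1⟩,
    ⟨a3n_1_r1_thrL0, a3n_1_r1_thrL1⟩,
    ⟨a3n_1_r1_threeE0, a3n_1_r1_threeE1⟩,
    ⟨a3n_1_r1_ring0, a3n_1_r1_ring1⟩]

theorem a3n_1_r2 : allRows stA3 a3n_1 a3n_1_m2 = true := by
  refine allRows_of fun P => ?_
  cases P
  exacts [⟨a3n_1_r2_one0, a3n_1_r2_one1⟩,
    ⟨a3n_1_r2_two0, a3n_1_r2_two1⟩,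
    ⟨a3n_1_r2_twoE0, a3n_1_r2_twoE1⟩,
    ⟨a3n_1_r2_thrR0, a3n_1_r2_thrR1⟩,
    ⟨a3n_1_r2_thrL0, a3n_1_r2_thrL1⟩,
    ⟨a3n_1_r2_threeE0, a3n_1_r2_threeE1⟩,
    ⟨a3n_1_r2_ring0, a3n_1_r2_ring1⟩]

theorem a3n_1_r3 : allRows stA3 a3n_1 a3n_1_m3 = true := by
  refine allRows_of fun P => ?_
  cases P
  exacts [⟨a3n_1_r3_one0, a3n_1_r3_one1⟩,
    ⟨a3n_1_r3_two0, a3n_1_r3_two1⟩,
    ⟨a3n_1_r3_twoE0, a3n_1_r3_twoE1⟩,
    ⟨a3n_1_r3_thrR0, a3n_1_r3_thrR1⟩,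
    ⟨a3n_1_r3_thrL0, a3n_1_r3_thrL1⟩,
    ⟨a3n_1_r3_threeE0, a3n_1_r3_threeE1⟩,
    ⟨a3n_1_r3_ring0, a3n_1_r3_ring1⟩]

theorem a3n_1_ok : a3n_1.ok stA3 = true := by
  have h : (PC.all.all fun P => PC.all.all fun Q => pairOk stA3 a3n_1 P Q) = true := by decide +kernel
  have d0 : mdOk stA3 a3n_1_m0.md = true := by decide +kernel
  have d1 : mdOk stA3 a3n_1_m1.md = true := by decide +kernel
  have d2 : mdOk stA3 a3n_1_m2.md = true := by decide +kernel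
  have d3 : mdOk stA3 a3n_1_m3.md = true := by decide +kernel
  unfold Piece.ok
  rw [h, Bool.true_and]
  show List.all [a3n_1_m0, a3n_1_m1, a3n_1_m2, a3n_1_m3] _ = true
  rw [List.all_eq_true]
  intro m hm
  simp only [List.mem_cons, List.not_mem_nil, or_false] at hm
  rcases hm with rfl | rfl | rfl | rfl
  · rw [a3n_1_r0, d0]; rfl
  · rw [a3n_1_r1, d1]; rfl
  · rw [a3n_1_r2, d2]; rfl
  · rw [a3n_1_r3, d3]; rfl

end OR

end Pool.Agent.Work.MP_b30479_gt.G2
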