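import Pool.Agent.Work.MP_b30479_gt.G2.OStA
import Pool.Agent.Work.MP_b30479_gt.G2.ORows

namespace Pool.Agent.Work.MP_b30479_gt.G2

namespace OR

/-- windows -/
def a3n_2_wp : PC → Win
  | .one => ⟨-770, 520, -810, 760, 0, 530⟩
  | .two => ⟨-30, 780, -50, 1100, 0, 620⟩
  | .twoE => ⟨-610, -170, -220, 530, 190, 820⟩
  | .thrR => ⟨310, 930, 280, 1270, 0, 580⟩
  | .thrL => ⟨310, 930, 280, 1270, 0, 580⟩
  | .threeE => ⟨160, 600, 360, 1170, 10, 740⟩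
  | .ring => ⟨0, 0, 0, 0, 0, 0⟩

/-- windows -/
def a3n_2_wq : PC → Win
  | .one => ⟨-770, 530, -920, 760, -820, 0⟩
  | .two => ⟨-30, 780, -50, 1100, -290, 0⟩
  | .twoE => ⟨0, 0, 0, 0, 0, 0⟩
  | .thrR => ⟨310, 930, 280, 1270, -240, 0⟩
  | .thrL => ⟨310, 930, 280, 1270, -240, 0⟩
  | .threeE => ⟨0, 0, 0, 0, 0, 0⟩
  | .ring => ⟨0, 0, 0, 0, 0, 0⟩

/-- mode -/
def a3n_2_m0 : Mode where
  md := .V 300 1000
  lam := 750
  ct := 2500
  gp := fun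
    | .one => [⟨357, [8]⟩, ⟨50, [9360940480562]⟩, ⟨-225, [173045303585811649016368822691890, 142837811, 8, 8, 0, 0]⟩, ⟨-1026, [10282962494335793512331315, 142837811, 8, 8, 2396422237470002, 40205271081755877061410]⟩, ⟨-1537, [0, 0, 0, 0, 36650036530, 36650365730]⟩, ⟨-1537, [0, 0, 0, 0, 8, 8]⟩, ⟨-1537, [0, 0, 0, 0, 2179, 2179]⟩, e00]
    | .two => [⟨202, [36549396530]⟩, ⟨202, [614798009192421426, 2179, 8, 8, 0, 0]⟩, ⟨-576, [631216502292887587, 559123, 8, 8, 9361024365106, 36650365490]⟩, ⟨-750, [0, 0, 0, 0, 36644094514, 559138]⟩, ⟨-750, [0, 0, 0, 0, 8, 8]⟩, e00]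
    | .twoE => [⟨157, [2178]⟩, ⟨-210, [36515840642, 8, 8, 8, 0, 0]⟩, ⟨-210, [557187, 8, 8, 8, 13, 143132722]⟩, ⟨-678, [0, 0, 0, 0, 13, 2178]⟩, ⟨-1850, [0, 0, 0, 0, 8, 2178]⟩, e00]
    | .thrR => [⟨738, [2179]⟩, ⟨738, [9356728959778, 8, 8, 8, 0, 0]⟩, ⟨112, [2179, 8, 8, 8, 2178, 13]⟩, ⟨-840, [0, 0, 0, 0, 2401935361714226, 13]⟩, ⟨-840, [0, 0, 0, 0, 8, 8]⟩, ⟨-840, [0, 0, 0, 0, 142772258, 142836354]⟩]
    | .thrL => [⟨738, [2178]⟩, ⟨738, [2178, 8, 8, 8, 0, 0]⟩, ⟨112, [2179, 8, 8, 8, 2178, 13]⟩, ⟨-840, [0, 0, 0, 0, 40297498328151370049586, 8]⟩, ⟨-840, [0, 0, 0, 0, 2178, 8]⟩, ⟨-1984, [0, 0, 0, 0, 557698, 557698]⟩]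
    | .threeE => [⟨284, [2178]⟩, ⟨284, [142836354, 8, 8, 8, 0, 0]⟩, ⟨-668, [2179, 2179, 8, 8, 559154, 13]⟩, ⟨-668, [0, 0, 0, 0, 559122, 13]⟩, ⟨-668, [0, 0, 0, 0, 8, 8]⟩, ⟨-2727, [0, 0, 0, 0, 8, 8]⟩]
    | .ring => [e00, e00, e00, e00, e00, e00]
  gq := fun
    | .one => [⟨116, [2179]⟩, ⟨-58, [40186485160219146486066]⟩, ⟨-251, [172680323947559226789615259166770, 142837811, 8, 8, 0, 0]⟩, ⟨-836, [157051839730735921203, 9352426784819, 8, 8, 157051840143054548274, 40205271081755874964258]⟩, ⟨-1462, [0, 0, 0, 0, 9382381432114, 36650365730]⟩, ⟨-1462, [0, 0, 0, 0, 8, 8]⟩, ⟨-1462, [0, 0, 0, 0, 143139203, 559139]⟩, e00]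
    | .two => [⟨392, [557954]⟩, ⟨392, [36644815490, 2179, 8, 8, 0, 0]⟩, ⟨-409, [143164211, 2179, 8, 8, 36650365490, 143163954]⟩, ⟨-991, [0, 0, 0, 0, 36644094514, 559138]⟩, ⟨-991, [0, 0, 0, 0, 8, 8]⟩, e00]
    | .twoE => [e00, e00, e00, e00, e00, e00]
    | .thrR => [⟨813, [8]⟩, ⟨813, [557698, 8, 8, 8, 0, 0]⟩, ⟨302, [8, 8, 8, 8, 2178, 13]⟩, ⟨-774, [0, 0, 0, 0, 9382493562930, 13]⟩, ⟨-1081, [0, 0, 0, 0, 8, 8]⟩, ⟨-1081, [0, 0, 0, 0, 36549722914, 557698]⟩]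
    | .thrL => [⟨302, [557954]⟩, ⟨302, [9361024034866, 8, 8, 8, 0, 0]⟩, ⟨302, [8, 8, 8, 8, 2178, 13]⟩, ⟨-774, [0, 0, 0, 0, 36649969714, 8]⟩, ⟨-1081, [0, 0, 0, 0, 2178, 8]⟩, ⟨-1711, [0, 0, 0, 0, 557698, 557698]⟩]
    | .threeE => [e00, e00, e00, e00, e00, e00]
    | .ring => [e00, e00, e00, e00, e00, e00]

/-- mode -/
def a3n_2_m1 : Mode where
  md := .V 150 1000
  lam := 750
  ct := 1500
  gp := fun
    | .one => [⟨1117, [8]⟩, ⟨1117, [2395301251024931]⟩, ⟨1117, [675977559945190588036952565810, 142837811, 8, 8, 0, 0]⟩, ⟨1117, [9380804704307, 142837811, 8, 8, 9361023974706, 2401576119972642]⟩, ⟨1117, [0, 0, 0, 0, 143140914, 143163954]⟩, ⟨-323, [0, 0, 0, 0, 8, 8]⟩, ⟨-580, [0, 0, 0, 0, 8, 8]⟩, ⟨-2466, [0, 0, 0, 0, 11358200247645726887603650306379360306, 172680420721545219964361117960242]⟩]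
    | .two => [⟨2016, [557954]⟩, ⟨2016, [2401554723407922, 2179, 8, 8, 0, 0]⟩, ⟨2016, [143164211, 2179, 8, 8, 36650365490, 143163954]⟩, ⟨2016, [0, 0, 0, 0, 559138, 2178]⟩, ⟨754, [0, 0, 0, 0, 8, 8]⟩, ⟨-1551, [0, 0, 0, 0, 40204859565683522416930, 36566106754]⟩]
    | .twoE => [⟨2556, [8]⟩, ⟨2327, [142836354, 8, 8, 8, 0, 0]⟩, ⟨1223, [557443, 8, 8, 8, 13, 143136818]⟩, ⟨228, [0, 0, 0, 0, 13, 2178]⟩, ⟨-1039, [0, 0, 0, 0, 8, 8]⟩, ⟨-2123, [0, 0, 0, 0, 8, 8]⟩]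
    | .thrR => [⟨1926, [829651348629979522]⟩, ⟨1926, [896607303065763993249909168121135398548499379723481673198915950642, 8, 8, 8, 0, 0]⟩, ⟨1926, [2179, 8, 8, 8, 2178, 13]⟩, ⟨1926, [0, 0, 0, 0, 559138, 13]⟩, ⟨1356, [0, 0, 0, 0, 8, 8]⟩, ⟨1031, [0, 0, 0, 0, 8, 8]⟩]
    | .thrL => [⟨1926, [36532552578]⟩, ⟨1926, [157052204071203117106, 8, 8, 8, 0, 0]⟩, ⟨1926, [2179, 8, 8, 8, 2178, 13]⟩, ⟨1926, [0, 0, 0, 0, 2178, 8]⟩, ⟨1612, [0, 0, 0, 0, 8, 8]⟩, ⟨-1670, [0, 0, 0, 0, 8, 8]⟩]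
    | .threeE => [⟨2099, [2177]⟩, ⟨2099, [142836354, 8, 8, 8, 0, 0]⟩, ⟨2099, [2179, 8, 8, 8, 559122, 13]⟩, ⟨1834, [0, 0, 0, 0, 2178, 13]⟩, ⟨495, [0, 0, 0, 0, 8, 8]⟩, ⟨-2524, [0, 0, 0, 0, 8, 8]⟩]
    | .ring => [e00, e00, e00, e00, e00, e00]
  gq := fun
    | .one => [⟨917, [8]⟩, ⟨917, [36532553763]⟩, ⟨917, [2632474196424898751881185330, 142837811, 8, 8, 0, 0]⟩, ⟨917, [613483611509233715, 142837811, 8, 8, 2396422235434290, 614803506230473506]⟩, ⟨917, [0, 0, 0, 0, 143140914, 143163954]⟩, ⟨-344, [0, 0, 0, 0, 8, 8]⟩, ⟨-448, [0, 0, 0, 0, 8, 8]⟩, ⟨-2650, [0, 0, 0, 0, 1740212784710593566631889396107024706110165623030374899545227296451629628395403853035124413765922366452239827929148165913505964716914996740385885333554, 607010557546434572012933130966795564781781506241459095148112520381046913057500205727737534992861061246448232741786175191925741347409008053317980562137001610491991306129860414945216050594354]⟩]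
    | .two => [⟨1832, [2178]⟩, ⟨1832, [36644815490, 2179, 8, 8, 0, 0]⟩, ⟨1832, [559155, 2179, 8, 8, 143164210, 143164210]⟩, ⟨1832, [0, 0, 0, 0, 559138, 2178]⟩, ⟨688, [0, 0, 0, 0, 8, 8]⟩, ⟨-1751, [0, 0, 0, 0, 674216156574709919211149361954, 142770818]⟩]
    | .twoE => [e00, e00, e00, e00, e00, e00]
    | .thrR => [⟨1742, [8]⟩, ⟨1742, [557698, 8, 8, 8, 0, 0]⟩, ⟨1742, [8, 8, 8, 8, 2178, 13]⟩, ⟨1742, [0, 0, 0, 0, 2178, 13]⟩, ⟨1295, [0, 0, 0, 0, 8, 8]⟩, ⟨1035, [0, 0, 0, 0, 8, 8]⟩]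
    | .thrL => [⟨1742, [2178]⟩, ⟨1742, [2178, 8, 8, 8, 0, 0]⟩, ⟨1742, [8, 8, 8, 8, 2178, 13]⟩, ⟨1742, [0, 0, 0, 0, 2178, 8]⟩, ⟨1507, [0, 0, 0, 0, 8, 8]⟩, ⟨-1664, [0, 0, 0, 0, 8, 8]⟩]
    | .threeE => [e00, e00, e00, e00, e00, e00]
    | .ring => [e00, e00, e00, e00, e00, e00]

/-- mode -/
def a3n_2_m2 : Mode where
  md := .D
  lam := 1000
  ct := 14000
  gp := fun
    | .one => [⟨-895, [8]⟩, ⟨-895, [40204861148974551676962]⟩, e00, e00, e00, e00, e00, e00]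
    | .two => [⟨-125, [613483729162242082]⟩, e00, e00, e00, e00, e00]
    | .twoE => [⟨595, [557954]⟩, e00, e00, e00, e00, e00]
    | .thrR => [⟨-245, [9356721752098]⟩, e00, e00, e00, e00, e00]
    | .thrL => [⟨-245, [2394201739397154]⟩, e00, e00, e00, e00, e00]
    | .threeE => [⟨-15, [36532553746]⟩, e00, e00, e00, e00, e00]
    | .ring => [e00, e00, e00, e00, e00, e00]
  gq := fun
    | .one => [⟨-719, [2179]⟩, ⟨-719, [172442593995936947943530216063794]⟩, e00, e00, e00, e00, e00, e00]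
    | .two => [⟨51, [613483729162242082]⟩, e00, e00, e00, e00, e00]
    | .twoE => [e00, e00, e00, e00, e00, e00]
    | .thrR => [⟨-69, [36566173746]⟩, e00, e00, e00, e00, e00]
    | .thrL => [⟨-69, [9361018751026]⟩, e00, e00, e00, e00, e00]
    | .threeE => [e00, e00, e00, e00, e00, e00]
    | .ring => [e00, e00, e00, e00, e00, e00]

/-- mode -/
def a3n_2_m3 : Mode where
  md := .V 550 1000
  lam := 250
  ct := 2500
  gp := fun
    | .one => [⟨-173, [2401368065411123]⟩, ⟨-173, [2396400767936562]⟩, ⟨-411, [675944443465122205897752520754, 142837811, 8, 8, 0, 0]⟩, ⟨-411, [2401574509361203, 142837811, 8, 8, 2396422235372850, 40205271081618436010786]⟩, e00, e00, e00, e00]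
    | .two => [⟨150, [36532619314]⟩, ⟨-22, [2401554723407922, 2179, 8, 8, 0, 0]⟩, ⟨-22, [143144995, 2179, 8, 8, 36650365490, 36650365490]⟩, e00, e00, e00]
    | .twoE => [e00, e00, e00, e00, e00, e00]
    | .thrR => [⟨120, [142837810]⟩, ⟨-52, [3185389617392489038123325049652709286585680429351218, 8, 8, 8, 0, 0]⟩, ⟨-52, [2179, 8, 8, 8, 2178, 13]⟩, e00, e00, e00]
    | .thrL => [⟨120, [142837810]⟩, ⟨-52, [613484062564223026, 8, 8, 8, 0, 0]⟩, ⟨-52, [2179, 8, 8, 8, 2178, 13]⟩, e00, e00, e00]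
    | .threeE => [⟨177, [2178]⟩, ⟨5, [142836354, 8, 8, 8, 0, 0]⟩, e00, e00, e00, e00]
    | .ring => [e00, e00, e00, e00, e00, e00]
  gq := fun
    | .one => [⟨-192, [9352428750867]⟩, ⟨-192, [674217363275395621576323371058]⟩, ⟨-364, [44206162930575162058147734165665842, 142837811, 8, 8, 0, 0]⟩, ⟨-364, [157051839730735921203, 142837811, 8, 8, 613484064169733426, 40205271081755874964258]⟩, e00, e00, e00, e00]
    | .two => [⟨197, [557954]⟩, ⟨-41, [2401554723407922, 2179, 8, 8, 0, 0]⟩, ⟨-41, [143164211, 2179, 8, 8, 36650365490, 143163954]⟩, e00, e00, e00]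
    | .twoE => [e00, e00, e00, e00, e00, e00]
    | .thrR => [⟨167, [557954]⟩, ⟨-71, [2633685065872199010041931826, 8, 8, 8, 0, 0]⟩, ⟨-71, [8, 8, 8, 8, 2178, 13]⟩, ⟨-71, [0, 0, 0, 0, 36566108194, 13]⟩, e00, e00]
    | .thrL => [⟨167, [557954]⟩, ⟨-71, [36566476850, 8, 8, 8, 0, 0]⟩, ⟨-71, [8, 8, 8, 8, 2178, 13]⟩, ⟨-71, [0, 0, 0, 0, 2178, 8]⟩, e00, e00]
    | .threeE => [e00, e00, e00, e00, e00, e00]
    | .ring => [e00, e00, e00, e00, e00, e00]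

/-- piece -/
def a3n_2 : Piece := ⟨7750, 8000, 0, 820, a3n_2_wp, a3n_2_wq, [a3n_2_m0, a3n_2_m1, a3n_2_m2, a3n_2_m3]⟩

set_option linter.defProp false

def a3n_2_r0_one0 : rowsOk stA3 a3n_2 a3n_2_m0 false .one = true := by decide +kernel

def a3n_2_r0_one1 : rowsOk stA3 a3n_2 a3n_2_m0 true .one = true := by decide +kernel

def a3n_2_r0_two0 : rowsOk stA3 a3n_2 a3n_2_m0 false .two = true := by decide +kernel

def a3n_2_r0_two1 : rowsOk stA3 a3n_2 a3n_2_m0 true .two = true := by decide +kernel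

def a3n_2_r0_twoE0 : rowsOk stA3 a3n_2 a3n_2_m0 false .twoE = true := by decide +kernel

def a3n_2_r0_twoE1 : rowsOk stA3 a3n_2 a3n_2_m0 true .twoE = true := by decide +kernel

def a3n_2_r0_thrR0 : rowsOk stA3 a3n_2 a3n_2_m0 false .thrR = true := by decide +kernel

def a3n_2_r0_thrR1 : rowsOk stA3 a3n_2 a3n_2_m0 true .thrR = true := by decide +kernel

def a3n_2_r0_thrL0 : rowsOk stA3 a3n_2 a3n_2_m0 false .thrL = true := by decide +kernel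

def a3n_2_r0_thrL1 : rowsOk stA3 a3n_2 a3n_2_m0 true .thrL = true := by decide +kernel

def a3n_2_r0_threeE0 : rowsOk stA3 a3n_2 a3n_2_m0 false .threeE = true := by decide +kernel

def a3n_2_r0_threeE1 : rowsOk stA3 a3n_2 a3n_2_m0 true .threeE = true := by decide +kernel

def a3n_2_r0_ring0 : rowsOk stA3 a3n_2 a3n_2_m0 false .ring = true := by decide +kernel

def a3n_2_r0_ring1 : rowsOk stA3 a3n_2 a3n_2_m0 true .ring = true := by decide +kernel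

def a3n_2_r1_one0 : rowsOk stA3 a3n_2 a3n_2_m1 false .one = true := by decide +kernel

def a3n_2_r1_one1_0 : cellOk stA3 a3n_2 a3n_2_m1 true .one ((stA3.bins .one).getD 0 b00)
    ((a3n_2_m1.g true .one).getD 0 e00) = true := by decide +kernel

def a3n_2_r1_one1_1 : cellOk stA3 a3n_2 a3n_2_m1 true .one ((stA3.bins .one).getD 1 b00)
    ((a3n_2_m1.g true .one).getD 1 e00) = true := by decide +kernel

def a3n_2_r1_one1_2 : cellOk stA3 a3n_2 a3n_2_m1 true .one ((stA3.bins .one).getD 2 b00)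
    ((a3n_2_m1.g true .one).getD 2 e00) = true := by decide +kernel

def a3n_2_r1_one1_3 : cellOk stA3 a3n_2 a3n_2_m1 true .one ((stA3.bins .one).getD 3 b00)
    ((a3n_2_m1.g true .one).getD 3 e00) = true := by decide +kernel

def a3n_2_r1_one1_4 : cellOk stA3 a3n_2 a3n_2_m1 true .one ((stA3.bins .one).getD 4 b00)
    ((a3n_2_m1.g true .one).getD 4 e00) = true := by decide +kernel

def a3n_2_r1_one1_5 : cellOk stA3 a3n_2 a3n_2_m1 true .one ((stA3.bins .one).getD 5 b00)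
    ((a3n_2_m1.g true .one).getD 5 e00) = true := by decide +kernel

def a3n_2_r1_one1_6 : cellOk stA3 a3n_2 a3n_2_m1 true .one ((stA3.bins .one).getD 6 b00)
    ((a3n_2_m1.g true .one).getD 6 e00) = true := by decide +kernel

def a3n_2_r1_one1_7 : cellOk stA3 a3n_2 a3n_2_m1 true .one ((stA3.bins .one).getD 7 b00)
    ((a3n_2_m1.g true .one).getD 7 e00) = true := by decide +kernel

theorem a3n_2_r1_one1 : rowsOk stA3 a3n_2 a3n_2_m1 true .one = true := by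
  refine rowsOk_of fun i hi => ?_
  have hi : i < 8 := hi
  interval_cases i
  exacts [a3n_2_r1_one1_0, a3n_2_r1_one1_1, a3n_2_r1_one1_2, a3n_2_r1_one1_3, a3n_2_r1_one1_4, a3n_2_r1_one1_5, a3n_2_r1_one1_6, a3n_2_r1_one1_7]

def a3n_2_r1_two0 : rowsOk stA3 a3n_2 a3n_2_m1 false .two = true := by decide +kernel

def a3n_2_r1_two1 : rowsOk stA3 a3n_2 a3n_2_m1 true .two = true := by decide +kernel

def a3n_2_r1_twoE0 : rowsOk stA3 a3n_2 a3n_2_m1 false .twoE = true := by decide +kernel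

def a3n_2_r1_twoE1 : rowsOk stA3 a3n_2 a3n_2_m1 true .twoE = true := by decide +kernel

def a3n_2_r1_thrR0 : rowsOk stA3 a3n_2 a3n_2_m1 false .thrR = true := by decide +kernel

def a3n_2_r1_thrR1 : rowsOk stA3 a3n_2 a3n_2_m1 true .thrR = true := by decide +kernel

def a3n_2_r1_thrL0 : rowsOk stA3 a3n_2 a3n_2_m1 false .thrL = true := by decide +kernel

def a3n_2_r1_thrL1 : rowsOk stA3 a3n_2 a3n_2_m1 true .thrL = true := by decide +kernel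

def a3n_2_r1_threeE0 : rowsOk stA3 a3n_2 a3n_2_m1 false .threeE = true := by decide +kernel

def a3n_2_r1_threeE1 : rowsOk stA3 a3n_2 a3n_2_m1 true .threeE = true := by decide +kernel

def a3n_2_r1_ring0 : rowsOk stA3 a3n_2 a3n_2_m1 false .ring = true := by decide +kernel

def a3n_2_r1_ring1 : rowsOk stA3 a3n_2 a3n_2_m1 true .ring = true := by decide +kernel

def a3n_2_r2_one0 : rowsOk stA3 a3n_2 a3n_2_m2 false .one = true := by decide +kernel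

def a3n_2_r2_one1 : rowsOk stA3 a3n_2 a3n_2_m2 true .one = true := by decide +kernel

def a3n_2_r2_two0 : rowsOk stA3 a3n_2 a3n_2_m2 false .two = true := by decide +kernel

def a3n_2_r2_two1 : rowsOk stA3 a3n_2 a3n_2_m2 true .two = true := by decide +kernel

def a3n_2_r2_twoE0 : rowsOk stA3 a3n_2 a3n_2_m2 false .twoE = true := by decide +kernel

def a3n_2_r2_twoE1 : rowsOk stA3 a3n_2 a3n_2_m2 true .twoE = true := by decide +kernel

def a3n_2_r2_thrR0 : rowsOk stA3 a3n_2 a3n_2_m2 false .thrR = true := by decide +kernel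

def a3n_2_r2_thrR1 : rowsOk stA3 a3n_2 a3n_2_m2 true .thrR = true := by decide +kernel

def a3n_2_r2_thrL0 : rowsOk stA3 a3n_2 a3n_2_m2 false .thrL = true := by decide +kernel

def a3n_2_r2_thrL1 : rowsOk stA3 a3n_2 a3n_2_m2 true .thrL = true := by decide +kernel

def a3n_2_r2_threeE0 : rowsOk stA3 a3n_2 a3n_2_m2 false .threeE = true := by decide +kernel

def a3n_2_r2_threeE1 : rowsOk stA3 a3n_2 a3n_2_m2 true .threeE = true := by decide +kernel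

def a3n_2_r2_ring0 : rowsOk stA3 a3n_2 a3n_2_m2 false .ring = true := by decide +kernel

def a3n_2_r2_ring1 : rowsOk stA3 a3n_2 a3n_2_m2 true .ring = true := by decide +kernel

def a3n_2_r3_one0 : rowsOk stA3 a3n_2 a3n_2_m3 false .one = true := by decide +kernel

def a3n_2_r3_one1 : rowsOk stA3 a3n_2 a3n_2_m3 true .one = true := by decide +kernel

def a3n_2_r3_two0 : rowsOk stA3 a3n_2 a3n_2_m3 false .two = true := by decide +kernel

def a3n_2_r3_two1 : rowsOk stA3 a3n_2 a3n_2_m3 true .two = true := by decide +kernel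

def a3n_2_r3_twoE0 : rowsOk stA3 a3n_2 a3n_2_m3 false .twoE = true := by decide +kernel

def a3n_2_r3_twoE1 : rowsOk stA3 a3n_2 a3n_2_m3 true .twoE = true := by decide +kernel

def a3n_2_r3_thrR0 : rowsOk stA3 a3n_2 a3n_2_m3 false .thrR = true := by decide +kernel

def a3n_2_r3_thrR1 : rowsOk stA3 a3n_2 a3n_2_m3 true .thrR = true := by decide +kernel

def a3n_2_r3_thrL0 : rowsOk stA3 a3n_2 a3n_2_m3 false .thrL = true := by decide +kernel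

def a3n_2_r3_thrL1 : rowsOk stA3 a3n_2 a3n_2_m3 true .thrL = true := by decide +kernel

def a3n_2_r3_threeE0 : rowsOk stA3 a3n_2 a3n_2_m3 false .threeE = true := by decide +kernel

def a3n_2_r3_threeE1 : rowsOk stA3 a3n_2 a3n_2_m3 true .threeE = true := by decide +kernel

def a3n_2_r3_ring0 : rowsOk stA3 a3n_2 a3n_2_m3 false .ring = true := by decide +kernel

def a3n_2_r3_ring1 : rowsOk stA3 a3n_2 a3n_2_m3 true .ring = true := by decide +kernel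

theorem a3n_2_r0 : allRows stA3 a3n_2 a3n_2_m0 = true := by
  refine allRows_of fun P => ?_
  cases P
  exacts [⟨a3n_2_r0_one0, a3n_2_r0_one1⟩,
    ⟨a3n_2_r0_two0, a3n_2_r0_two1⟩,
    ⟨a3n_2_r0_twoE0, a3n_2_r0_twoE1⟩,
    ⟨a3n_2_r0_thrR0, a3n_2_r0_thrR1⟩,
    ⟨a3n_2_r0_thrL0, a3n_2_r0_thrL1⟩,
    ⟨a3n_2_r0_threeE0, a3n_2_r0_threeE1⟩,
    ⟨a3n_2_r0_ring0, a3n_2_r0_ring1⟩]

theorem a3n_2_r1 : allRows stA3 a3n_2 a3n_2_m1 = true := by
  refine allRows_of fun P => ?_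
  cases P
  exacts [⟨a3n_2_r1_one0, a3n_2_r1_one1⟩,
    ⟨a3n_2_r1_two0, a3n_2_r1_two1⟩,
    ⟨a3n_2_r1_twoE0, a3n_2_r1_twoE1⟩,
    ⟨a3n_2_r1_thrR0, a3n_2_r1_thrR1⟩,
    ⟨a3n_2_r1_thrL0, a3n_2_r1_thrL1⟩,
    ⟨a3n_2_r1_threeE0, a3n_2_r1_threeE1⟩,
    ⟨a3n_2_r1_ring0, a3n_2_r1_ring1⟩]

theorem a3n_2_r2 : allRows stA3 a3n_2 a3n_2_m2 = true := by
  refine allRows_of fun P => ?_
  cases P
  exacts [⟨a3n_2_r2_one0, a3n_2_r2_one1⟩,
    ⟨a3n_2_r2_two0, a3n_2_r2_two1⟩,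
    ⟨a3n_2_r2_twoE0, a3n_2_r2_twoE1⟩,
    ⟨a3n_2_r2_thrR0, a3n_2_r2_thrR1⟩,
    ⟨a3n_2_r2_thrL0, a3n_2_r2_thrL1⟩,
    ⟨a3n_2_r2_threeE0, a3n_2_r2_threeE1⟩,
    ⟨a3n_2_r2_ring0, a3n_2_r2_ring1⟩]

theorem a3n_2_r3 : allRows stA3 a3n_2 a3n_2_m3 = true := by
  refine allRows_of fun P => ?_
  cases P
  exacts [⟨a3n_2_r3_one0, a3n_2_r3_one1⟩,
    ⟨a3n_2_r3_two0, a3n_2_r3_two1⟩,
    ⟨a3n_2_r3_twoE0, a3n_2_r3_twoE1⟩,
    ⟨a3n_2_r3_thrR0, a3n_2_r3_thrR1⟩,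
    ⟨a3n_2_r3_thrL0, a3n_2_r3_thrL1⟩,
    ⟨a3n_2_r3_threeE0, a3n_2_r3_threeE1⟩,
    ⟨a3n_2_r3_ring0, a3n_2_r3_ring1⟩]

theorem a3n_2_ok : a3n_2.ok stA3 = true := by
  have h : (PC.all.all fun P => PC.all.all fun Q => pairOk stA3 a3n_2 P Q) = true := by decide +kernel
  have d0 : mdOk stA3 a3n_2_m0.md = true := by decide +kernel
  have d1 : mdOk stA3 a3n_2_m1.md = true := by decide +kernel
  have d2 : mdOk stA3 a3n_2_m2.md = true := by decide +kernel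
  have d3 : mdOk stA3 a3n_2_m3.md = true := by decide +kernel
  unfold Piece.ok
  rw [h, Bool.true_and]
  show List.all [a3n_2_m0, a3n_2_m1, a3n_2_m2, a3n_2_m3] _ = true
  rw [List.all_eq_true]
  intro m hm
  simp only [List.mem_cons, List.not_mem_nil, or_false] at hm
  rcases hm with rfl | rfl | rfl | rfl
  · rw [a3n_2_r0, d0]; rfl
  · rw [a3n_2_r1, d1]; rfl
  · rw [a3n_2_r2, d2]; rfl
  · rw [a3n_2_r3, d3]; rfl

end OR

end Pool.Agent.Work.MP_b30479_gt.G2
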