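import Pool.Agent.Work.MP_b30479_gt.G2.OStA
import Pool.Agent.Work.MP_b30479_gt.G2.ORows

namespace Pool.Agent.Work.MP_b30479_gt.G2

namespace OR

/-- windows -/
def a3z_1_wp : PC → Win
  | .one => ⟨-890, 290, -820, 330, 0, 430⟩
  | .two => ⟨0, 0, 0, 0, 0, 0⟩
  | .twoE => ⟨0, 0, 0, 0, 0, 0⟩
  | .thrR => ⟨0, 0, 0, 0, 0, 0⟩
  | .thrL => ⟨0, 0, 0, 0, 0, 0⟩
  | .threeE => ⟨0, 0, 0, 0, 0, 0⟩
  | .ring => ⟨480, 1330, 470, 1500, 0, 610⟩

/-- windows -/
def a3z_1_wq : PC → Win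
  | .one => ⟨-890, 290, -820, 330, -610, 0⟩
  | .two => ⟨0, 0, 0, 0, 0, 0⟩
  | .twoE => ⟨0, 0, 0, 0, 0, 0⟩
  | .thrR => ⟨0, 0, 0, 0, 0, 0⟩
  | .thrL => ⟨0, 0, 0, 0, 0, 0⟩
  | .threeE => ⟨0, 0, 0, 0, 0, 0⟩
  | .ring => ⟨480, 1330, 470, 1500, -430, 0⟩

/-- mode -/
def a3z_1_m0 : Mode where
  md := .V 300 1000
  lam := 1000
  ct := 2000
  gp := fun
    | .one => [⟨508, [8]⟩, ⟨1788, [8]⟩, ⟨-172, [557955]⟩, ⟨-172, [10283101996237030731974706, 142837811, 8, 8, 0, 0]⟩, ⟨-1481, [675938873734263770695337541939, 9352426784819, 8, 8, 10316074737800969949360674, 675983582438554184568151421474]⟩, ⟨-2311, [0, 0, 0, 0, 8, 2178]⟩, ⟨-2311, [0, 0, 0, 0, 8, 559139]⟩, e00]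
    | .two => [e00, e00, e00, e00, e00, e00]
    | .twoE => [e00, e00, e00, e00, e00, e00]
    | .thrR => [e00, e00, e00, e00, e00, e00]
    | .thrL => [e00, e00, e00, e00, e00, e00]
    | .threeE => [e00, e00, e00, e00, e00, e00]
    | .ring => [⟨1135, [2178]⟩, ⟨1135, [8]⟩, ⟨270, [557443]⟩, ⟨270, [2179, 8, 8, 8, 143164194, 13]⟩, ⟨-1061, [0, 0, 0, 0, 2903706591799241090839647385910603121442, 2178]⟩, ⟨-3053, [0, 0, 0, 0, 142836354, 142705282]⟩]
  gq := fun
    | .one => [⟨537, [8]⟩, ⟨1849, [8]⟩, ⟨-143, [36549722403]⟩, ⟨-143, [40205269668127520753714, 557955, 8, 8, 0, 0]⟩, ⟨-1474, [208566086715437474239038319828740245142590700863284748595, 2396420817068339, 8, 143172401, 676074273426084406260469871138, 3185391372209738263452812270099429227557805213561378]⟩, ⟨-2339, [0, 0, 0, 0, 8, 2402033886441763]⟩, ⟨-2339, [0, 0, 0, 0, 2179, 156979863453203341619]⟩, e00]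
    | .two => [e00, e00, e00, e00, e00, e00]
    | .twoE => [e00, e00, e00, e00, e00, e00]
    | .thrR => [e00, e00, e00, e00, e00, e00]
    | .thrL => [e00, e00, e00, e00, e00, e00]
    | .threeE => [e00, e00, e00, e00, e00, e00]
    | .ring => [⟨1107, [8]⟩, ⟨1107, [8]⟩, ⟨277, [557443]⟩, ⟨277, [2179, 2179, 8, 8, 143164194, 13]⟩, ⟨-1032, [0, 0, 0, 0, 676084700183505670041153775666, 2178]⟩, ⟨-2992, [0, 0, 0, 0, 557698, 36566106754]⟩]

/-- mode -/
def a3z_1_m1 : Mode where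
  md := .D
  lam := 1000
  ct := 12000
  gp := fun
    | .one => [⟨-1141, [10292610140026624483166257]⟩, ⟨-1821, [189776905659195515044927262221898003290006306]⟩, ⟨-1821, [2396420817060658]⟩, e00, e00, e00, e00, e00]
    | .two => [e00, e00, e00, e00, e00, e00]
    | .twoE => [e00, e00, e00, e00, e00, e00]
    | .thrR => [e00, e00, e00, e00, e00, e00]
    | .thrL => [e00, e00, e00, e00, e00, e00]
    | .threeE => [e00, e00, e00, e00, e00, e00]
    | .ring => [⟨566, [673907878247130628685207536418]⟩, ⟨566, [613202176874088499]⟩, e00, e00, e00, e00]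
  gq := fun
    | .one => [⟨-1090, [2179]⟩, ⟨-1770, [156907684294405161266]⟩, ⟨-1770, [612915644748806179]⟩, e00, e00, e00, e00, e00]
    | .two => [e00, e00, e00, e00, e00, e00]
    | .twoE => [e00, e00, e00, e00, e00, e00]
    | .thrR => [e00, e00, e00, e00, e00, e00]
    | .thrL => [e00, e00, e00, e00, e00, e00]
    | .threeE => [e00, e00, e00, e00, e00, e00]
    | .ring => [⟨617, [10283017616789254061656114]⟩, ⟨617, [44165586473002688126795166141089843]⟩, e00, e00, e00, e00]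

/-- mode -/
def a3z_1_m2 : Mode where
  md := .V 550 1000
  lam := 250
  ct := 1500
  gp := fun
    | .one => [⟨155, [8]⟩, ⟨-15, [2396422152946482]⟩, ⟨-345, [9381148264483]⟩, ⟨-668, [44206161504846972954492814883324722, 142837811, 8, 8, 0, 0]⟩, ⟨-668, [613483729162242099, 142837811, 8, 8, 2634865787155984058375348947, 2897095000381651243071434916057978188322]⟩, e00, e00, e00]
    | .two => [e00, e00, e00, e00, e00, e00]
    | .twoE => [e00, e00, e00, e00, e00, e00]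
    | .thrR => [e00, e00, e00, e00, e00, e00]
    | .thrL => [e00, e00, e00, e00, e00, e00]
    | .threeE => [e00, e00, e00, e00, e00, e00]
    | .ring => [⟨417, [613476371804985394]⟩, ⟨417, [142836099]⟩, ⟨-84, [11307372462325968576464442494865868819]⟩, ⟨-84, [36532487043, 2179, 8, 8, 9361019142946, 13]⟩, e00, e00]
  gq := fun
    | .one => [⟨-50, [557953]⟩, ⟨-220, [2897060371996714058335019144692644720931]⟩, ⟨-220, [142772243]⟩, ⟨-721, [189689750837318457834009860979942069460566322, 36532917123, 8, 8, 0, 0]⟩, ⟨-721, [10283101997802735287830547, 36532917123, 8, 8, 44205631357429212093038873364538067, 12468871411555326678811115717979768540991403930146]⟩, e00, e00, e00]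
    | .two => [e00, e00, e00, e00, e00, e00]
    | .twoE => [e00, e00, e00, e00, e00, e00]
    | .thrR => [e00, e00, e00, e00, e00, e00]
    | .thrL => [e00, e00, e00, e00, e00, e00]
    | .threeE => [e00, e00, e00, e00, e00, e00]
    | .ring => [⟨364, [142771074]⟩, ⟨364, [2179]⟩, ⟨41, [36532619283]⟩, ⟨-289, [10314167790438164384154499, 2179, 2179, 8, 612915645385900834, 13]⟩, e00, e00]

/-- mode -/
def a3z_1_m3 : Mode where
  md := .V 150 1000
  lam := 250
  ct := 500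
  gp := fun
    | .one => [e00, e00, e00, e00, e00, e00, e00, ⟨-3482, [0, 0, 0, 0, 674217363847253584517235488818, 614798009192448562]⟩]
    | .two => [e00, e00, e00, e00, e00, e00]
    | .twoE => [e00, e00, e00, e00, e00, e00]
    | .thrR => [e00, e00, e00, e00, e00, e00]
    | .thrL => [e00, e00, e00, e00, e00, e00]
    | .threeE => [e00, e00, e00, e00, e00, e00]
    | .ring => [⟨3303, [3627391726784632166325257090]⟩, ⟨3303, [844446385783906691]⟩, ⟨3303, [49417519491]⟩, ⟨3303, [9449868788099, 2179, 8, 8, 143164194, 13]⟩, ⟨3303, [0, 0, 0, 0, 143140914, 8]⟩, ⟨-536, [0, 0, 0, 0, 8, 8]⟩]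
  gq := fun
    | .one => [e00, e00, e00, e00, e00, e00, e00, ⟨-3607, [0, 0, 0, 0, 40205260385589108684850, 229531638306657210537753785492107167363392471515350190015055196070706]⟩]
    | .two => [e00, e00, e00, e00, e00, e00]
    | .twoE => [e00, e00, e00, e00, e00, e00]
    | .thrR => [e00, e00, e00, e00, e00, e00]
    | .thrL => [e00, e00, e00, e00, e00, e00]
    | .threeE => [e00, e00, e00, e00, e00, e00]
    | .ring => [⟨3178, [2178]⟩, ⟨3178, [2179]⟩, ⟨3178, [2179]⟩, ⟨3178, [2179, 8, 8, 8, 143164194, 13]⟩, ⟨3178, [0, 0, 0, 0, 2178, 8]⟩, ⟨-690, [0, 0, 0, 0, 8, 8]⟩]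

/-- mode -/
def a3z_1_m4 : Mode where
  md := .V 450 1000
  lam := 500
  ct := 1500
  gp := fun
    | .one => [e00, ⟨241, [2178]⟩, e00, e00, e00, e00, e00, e00]
    | .two => [e00, e00, e00, e00, e00, e00]
    | .twoE => [e00, e00, e00, e00, e00, e00]
    | .thrR => [e00, e00, e00, e00, e00, e00]
    | .thrL => [e00, e00, e00, e00, e00, e00]
    | .threeE => [e00, e00, e00, e00, e00, e00]
    | .ring => [e00, e00, e00, e00, ⟨-773, [0, 0, 0, 0, 3192667893510832982855431631645074653360657952637730, 885378]⟩, e00]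
  gq := fun
    | .one => [e00, ⟨169, [557954]⟩, e00, e00, e00, e00, e00, e00]
    | .two => [e00, e00, e00, e00, e00, e00]
    | .twoE => [e00, e00, e00, e00, e00, e00]
    | .thrR => [e00, e00, e00, e00, e00, e00]
    | .thrL => [e00, e00, e00, e00, e00, e00]
    | .threeE => [e00, e00, e00, e00, e00, e00]
    | .ring => [e00, e00, e00, e00, ⟨-845, [0, 0, 0, 0, 208775626559134080025375399653616338909290537018221340722, 999194467890332290]⟩, e00]

/-- mode -/
def a3z_1_m5 : Mode where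
  md := .V 550 1000
  lam := 250
  ct := 2000
  gp := fun
    | .one => [⟨-172, [36532619299]⟩, e00, e00, e00, e00, e00, e00, e00]
    | .two => [e00, e00, e00, e00, e00, e00]
    | .twoE => [e00, e00, e00, e00, e00, e00]
    | .thrR => [e00, e00, e00, e00, e00, e00]
    | .thrL => [e00, e00, e00, e00, e00, e00]
    | .threeE => [e00, e00, e00, e00, e00, e00]
    | .ring => [e00, e00, e00, e00, e00, e00]
  gq := fun
    | .one => [e00, e00, e00, e00, e00, e00, e00, e00]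
    | .two => [e00, e00, e00, e00, e00, e00]
    | .twoE => [e00, e00, e00, e00, e00, e00]
    | .thrR => [e00, e00, e00, e00, e00, e00]
    | .thrL => [e00, e00, e00, e00, e00, e00]
    | .threeE => [e00, e00, e00, e00, e00, e00]
    | .ring => [e00, e00, ⟨38, [156907812561478715443]⟩, e00, e00, e00]

/-- mode -/
def a3z_1_m6 : Mode where
  md := .V 600 1000
  lam := 0
  ct := 1500
  gp := fun
    | .one => [e00, ⟨-80, [18223242836410222957380121319944858080435306975088419862948335081041328418862128857420577038144035]⟩, e00, e00, e00, e00, e00, e00]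
    | .two => [e00, e00, e00, e00, e00, e00]
    | .twoE => [e00, e00, e00, e00, e00, e00]
    | .thrR => [e00, e00, e00, e00, e00, e00]
    | .thrL => [e00, e00, e00, e00, e00, e00]
    | .threeE => [e00, e00, e00, e00, e00, e00]
    | .ring => [e00, e00, e00, e00, e00, e00]
  gq := fun
    | .one => [e00, e00, e00, e00, e00, e00, e00, e00]
    | .two => [e00, e00, e00, e00, e00, e00]
    | .twoE => [e00, e00, e00, e00, e00, e00]
    | .thrR => [e00, e00, e00, e00, e00, e00]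
    | .thrL => [e00, e00, e00, e00, e00, e00]
    | .threeE => [e00, e00, e00, e00, e00, e00]
    | .ring => [e00, e00, ⟨76, [278063632451805810381337728783355338577984759784931155134150341382040981652746147765528266803]⟩, e00, e00, e00]

/-- piece -/
def a3z_1 : Piece := ⟨7250, 7500, 0, 820, a3z_1_wp, a3z_1_wq, [a3z_1_m0, a3z_1_m1, a3z_1_m2, a3z_1_m3, a3z_1_m4, a3z_1_m5, a3z_1_m6]⟩

set_option linter.defProp false

def a3z_1_r0_one0 : rowsOk stA3Z a3z_1 a3z_1_m0 false .one = true := by decide +kernel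

def a3z_1_r0_one1_0 : cellOk stA3Z a3z_1 a3z_1_m0 true .one ((stA3Z.bins .one).getD 0 b00)
    ((a3z_1_m0.g true .one).getD 0 e00) = true := by decide +kernel

def a3z_1_r0_one1_1 : cellOk stA3Z a3z_1 a3z_1_m0 true .one ((stA3Z.bins .one).getD 1 b00)
    ((a3z_1_m0.g true .one).getD 1 e00) = true := by decide +kernel

def a3z_1_r0_one1_2 : cellOk stA3Z a3z_1 a3z_1_m0 true .one ((stA3Z.bins .one).getD 2 b00)
    ((a3z_1_m0.g true .one).getD 2 e00) = true := by decide +kernel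

def a3z_1_r0_one1_3 : cellOk stA3Z a3z_1 a3z_1_m0 true .one ((stA3Z.bins .one).getD 3 b00)
    ((a3z_1_m0.g true .one).getD 3 e00) = true := by decide +kernel

def a3z_1_r0_one1_4 : cellOk stA3Z a3z_1 a3z_1_m0 true .one ((stA3Z.bins .one).getD 4 b00)
    ((a3z_1_m0.g true .one).getD 4 e00) = true := by decide +kernel

def a3z_1_r0_one1_5 : cellOk stA3Z a3z_1 a3z_1_m0 true .one ((stA3Z.bins .one).getD 5 b00)
    ((a3z_1_m0.g true .one).getD 5 e00) = true := by decide +kernel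

def a3z_1_r0_one1_6 : cellOk stA3Z a3z_1 a3z_1_m0 true .one ((stA3Z.bins .one).getD 6 b00)
    ((a3z_1_m0.g true .one).getD 6 e00) = true := by decide +kernel

def a3z_1_r0_one1_7 : cellOk stA3Z a3z_1 a3z_1_m0 true .one ((stA3Z.bins .one).getD 7 b00)
    ((a3z_1_m0.g true .one).getD 7 e00) = true := by decide +kernel

theorem a3z_1_r0_one1 : rowsOk stA3Z a3z_1 a3z_1_m0 true .one = true := by
  refine rowsOk_of fun i hi => ?_
  have hi : i < 8 := hi
  interval_cases i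
  exacts [a3z_1_r0_one1_0, a3z_1_r0_one1_1, a3z_1_r0_one1_2, a3z_1_r0_one1_3, a3z_1_r0_one1_4, a3z_1_r0_one1_5, a3z_1_r0_one1_6, a3z_1_r0_one1_7]

def a3z_1_r0_two0 : rowsOk stA3Z a3z_1 a3z_1_m0 false .two = true := by decide +kernel

def a3z_1_r0_two1 : rowsOk stA3Z a3z_1 a3z_1_m0 true .two = true := by decide +kernel

def a3z_1_r0_twoE0 : rowsOk stA3Z a3z_1 a3z_1_m0 false .twoE = true := by decide +kernel

def a3z_1_r0_twoE1 : rowsOk stA3Z a3z_1 a3z_1_m0 true .twoE = true := by decide +kernel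

def a3z_1_r0_thrR0 : rowsOk stA3Z a3z_1 a3z_1_m0 false .thrR = true := by decide +kernel

def a3z_1_r0_thrR1 : rowsOk stA3Z a3z_1 a3z_1_m0 true .thrR = true := by decide +kernel

def a3z_1_r0_thrL0 : rowsOk stA3Z a3z_1 a3z_1_m0 false .thrL = true := by decide +kernel

def a3z_1_r0_thrL1 : rowsOk stA3Z a3z_1 a3z_1_m0 true .thrL = true := by decide +kernel

def a3z_1_r0_threeE0 : rowsOk stA3Z a3z_1 a3z_1_m0 false .threeE = true := by decide +kernel

def a3z_1_r0_threeE1 : rowsOk stA3Z a3z_1 a3z_1_m0 true .threeE = true := by decide +kernel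

def a3z_1_r0_ring0 : rowsOk stA3Z a3z_1 a3z_1_m0 false .ring = true := by decide +kernel

def a3z_1_r0_ring1 : rowsOk stA3Z a3z_1 a3z_1_m0 true .ring = true := by decide +kernel

def a3z_1_r1_one0 : rowsOk stA3Z a3z_1 a3z_1_m1 false .one = true := by decide +kernel

def a3z_1_r1_one1 : rowsOk stA3Z a3z_1 a3z_1_m1 true .one = true := by decide +kernel

def a3z_1_r1_two0 : rowsOk stA3Z a3z_1 a3z_1_m1 false .two = true := by decide +kernel

def a3z_1_r1_two1 : rowsOk stA3Z a3z_1 a3z_1_m1 true .two = true := by decide +kernel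

def a3z_1_r1_twoE0 : rowsOk stA3Z a3z_1 a3z_1_m1 false .twoE = true := by decide +kernel

def a3z_1_r1_twoE1 : rowsOk stA3Z a3z_1 a3z_1_m1 true .twoE = true := by decide +kernel

def a3z_1_r1_thrR0 : rowsOk stA3Z a3z_1 a3z_1_m1 false .thrR = true := by decide +kernel

def a3z_1_r1_thrR1 : rowsOk stA3Z a3z_1 a3z_1_m1 true .thrR = true := by decide +kernel

def a3z_1_r1_thrL0 : rowsOk stA3Z a3z_1 a3z_1_m1 false .thrL = true := by decide +kernel

def a3z_1_r1_thrL1 : rowsOk stA3Z a3z_1 a3z_1_m1 true .thrL = true := by decide +kernel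

def a3z_1_r1_threeE0 : rowsOk stA3Z a3z_1 a3z_1_m1 false .threeE = true := by decide +kernel

def a3z_1_r1_threeE1 : rowsOk stA3Z a3z_1 a3z_1_m1 true .threeE = true := by decide +kernel

def a3z_1_r1_ring0 : rowsOk stA3Z a3z_1 a3z_1_m1 false .ring = true := by decide +kernel

def a3z_1_r1_ring1 : rowsOk stA3Z a3z_1 a3z_1_m1 true .ring = true := by decide +kernel

def a3z_1_r2_one0 : rowsOk stA3Z a3z_1 a3z_1_m2 false .one = true := by decide +kernel

def a3z_1_r2_one1 : rowsOk stA3Z a3z_1 a3z_1_m2 true .one = true := by decide +kernel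

def a3z_1_r2_two0 : rowsOk stA3Z a3z_1 a3z_1_m2 false .two = true := by decide +kernel

def a3z_1_r2_two1 : rowsOk stA3Z a3z_1 a3z_1_m2 true .two = true := by decide +kernel

def a3z_1_r2_twoE0 : rowsOk stA3Z a3z_1 a3z_1_m2 false .twoE = true := by decide +kernel

def a3z_1_r2_twoE1 : rowsOk stA3Z a3z_1 a3z_1_m2 true .twoE = true := by decide +kernel

def a3z_1_r2_thrR0 : rowsOk stA3Z a3z_1 a3z_1_m2 false .thrR = true := by decide +kernel

def a3z_1_r2_thrR1 : rowsOk stA3Z a3z_1 a3z_1_m2 true .thrR = true := by decide +kernel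

def a3z_1_r2_thrL0 : rowsOk stA3Z a3z_1 a3z_1_m2 false .thrL = true := by decide +kernel

def a3z_1_r2_thrL1 : rowsOk stA3Z a3z_1 a3z_1_m2 true .thrL = true := by decide +kernel

def a3z_1_r2_threeE0 : rowsOk stA3Z a3z_1 a3z_1_m2 false .threeE = true := by decide +kernel

def a3z_1_r2_threeE1 : rowsOk stA3Z a3z_1 a3z_1_m2 true .threeE = true := by decide +kernel

def a3z_1_r2_ring0 : rowsOk stA3Z a3z_1 a3z_1_m2 false .ring = true := by decide +kernel

def a3z_1_r2_ring1 : rowsOk stA3Z a3z_1 a3z_1_m2 true .ring = true := by decide +kernel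

def a3z_1_r3_one0 : rowsOk stA3Z a3z_1 a3z_1_m3 false .one = true := by decide +kernel

def a3z_1_r3_one1 : rowsOk stA3Z a3z_1 a3z_1_m3 true .one = true := by decide +kernel

def a3z_1_r3_two0 : rowsOk stA3Z a3z_1 a3z_1_m3 false .two = true := by decide +kernel

def a3z_1_r3_two1 : rowsOk stA3Z a3z_1 a3z_1_m3 true .two = true := by decide +kernel

def a3z_1_r3_twoE0 : rowsOk stA3Z a3z_1 a3z_1_m3 false .twoE = true := by decide +kernel

def a3z_1_r3_twoE1 : rowsOk stA3Z a3z_1 a3z_1_m3 true .twoE = true := by decide +kernel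

def a3z_1_r3_thrR0 : rowsOk stA3Z a3z_1 a3z_1_m3 false .thrR = true := by decide +kernel

def a3z_1_r3_thrR1 : rowsOk stA3Z a3z_1 a3z_1_m3 true .thrR = true := by decide +kernel

def a3z_1_r3_thrL0 : rowsOk stA3Z a3z_1 a3z_1_m3 false .thrL = true := by decide +kernel

def a3z_1_r3_thrL1 : rowsOk stA3Z a3z_1 a3z_1_m3 true .thrL = true := by decide +kernel

def a3z_1_r3_threeE0 : rowsOk stA3Z a3z_1 a3z_1_m3 false .threeE = true := by decide +kernel

def a3z_1_r3_threeE1 : rowsOk stA3Z a3z_1 a3z_1_m3 true .threeE = true := by decide +kernel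

def a3z_1_r3_ring0 : rowsOk stA3Z a3z_1 a3z_1_m3 false .ring = true := by decide +kernel

def a3z_1_r3_ring1 : rowsOk stA3Z a3z_1 a3z_1_m3 true .ring = true := by decide +kernel

def a3z_1_r4_one0 : rowsOk stA3Z a3z_1 a3z_1_m4 false .one = true := by decide +kernel

def a3z_1_r4_one1 : rowsOk stA3Z a3z_1 a3z_1_m4 true .one = true := by decide +kernel

def a3z_1_r4_two0 : rowsOk stA3Z a3z_1 a3z_1_m4 false .two = true := by decide +kernel

def a3z_1_r4_two1 : rowsOk stA3Z a3z_1 a3z_1_m4 true .two = true := by decide +kernel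

def a3z_1_r4_twoE0 : rowsOk stA3Z a3z_1 a3z_1_m4 false .twoE = true := by decide +kernel

def a3z_1_r4_twoE1 : rowsOk stA3Z a3z_1 a3z_1_m4 true .twoE = true := by decide +kernel

def a3z_1_r4_thrR0 : rowsOk stA3Z a3z_1 a3z_1_m4 false .thrR = true := by decide +kernel

def a3z_1_r4_thrR1 : rowsOk stA3Z a3z_1 a3z_1_m4 true .thrR = true := by decide +kernel

def a3z_1_r4_thrL0 : rowsOk stA3Z a3z_1 a3z_1_m4 false .thrL = true := by decide +kernel

def a3z_1_r4_thrL1 : rowsOk stA3Z a3z_1 a3z_1_m4 true .thrL = true := by decide +kernel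

def a3z_1_r4_threeE0 : rowsOk stA3Z a3z_1 a3z_1_m4 false .threeE = true := by decide +kernel

def a3z_1_r4_threeE1 : rowsOk stA3Z a3z_1 a3z_1_m4 true .threeE = true := by decide +kernel

def a3z_1_r4_ring0 : rowsOk stA3Z a3z_1 a3z_1_m4 false .ring = true := by decide +kernel

def a3z_1_r4_ring1 : rowsOk stA3Z a3z_1 a3z_1_m4 true .ring = true := by decide +kernel

def a3z_1_r5_one0 : rowsOk stA3Z a3z_1 a3z_1_m5 false .one = true := by decide +kernel

def a3z_1_r5_one1 : rowsOk stA3Z a3z_1 a3z_1_m5 true .one = true := by decide +kernel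

def a3z_1_r5_two0 : rowsOk stA3Z a3z_1 a3z_1_m5 false .two = true := by decide +kernel

def a3z_1_r5_two1 : rowsOk stA3Z a3z_1 a3z_1_m5 true .two = true := by decide +kernel

def a3z_1_r5_twoE0 : rowsOk stA3Z a3z_1 a3z_1_m5 false .twoE = true := by decide +kernel

def a3z_1_r5_twoE1 : rowsOk stA3Z a3z_1 a3z_1_m5 true .twoE = true := by decide +kernel

def a3z_1_r5_thrR0 : rowsOk stA3Z a3z_1 a3z_1_m5 false .thrR = true := by decide +kernel

def a3z_1_r5_thrR1 : rowsOk stA3Z a3z_1 a3z_1_m5 true .thrR = true := by decide +kernel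

def a3z_1_r5_thrL0 : rowsOk stA3Z a3z_1 a3z_1_m5 false .thrL = true := by decide +kernel

def a3z_1_r5_thrL1 : rowsOk stA3Z a3z_1 a3z_1_m5 true .thrL = true := by decide +kernel

def a3z_1_r5_threeE0 : rowsOk stA3Z a3z_1 a3z_1_m5 false .threeE = true := by decide +kernel

def a3z_1_r5_threeE1 : rowsOk stA3Z a3z_1 a3z_1_m5 true .threeE = true := by decide +kernel

def a3z_1_r5_ring0 : rowsOk stA3Z a3z_1 a3z_1_m5 false .ring = true := by decide +kernel

def a3z_1_r5_ring1 : rowsOk stA3Z a3z_1 a3z_1_m5 true .ring = true := by decide +kernel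

def a3z_1_r6_one0 : rowsOk stA3Z a3z_1 a3z_1_m6 false .one = true := by decide +kernel

def a3z_1_r6_one1 : rowsOk stA3Z a3z_1 a3z_1_m6 true .one = true := by decide +kernel

def a3z_1_r6_two0 : rowsOk stA3Z a3z_1 a3z_1_m6 false .two = true := by decide +kernel

def a3z_1_r6_two1 : rowsOk stA3Z a3z_1 a3z_1_m6 true .two = true := by decide +kernel

def a3z_1_r6_twoE0 : rowsOk stA3Z a3z_1 a3z_1_m6 false .twoE = true := by decide +kernel

def a3z_1_r6_twoE1 : rowsOk stA3Z a3z_1 a3z_1_m6 true .twoE = true := by decide +kernel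

def a3z_1_r6_thrR0 : rowsOk stA3Z a3z_1 a3z_1_m6 false .thrR = true := by decide +kernel

def a3z_1_r6_thrR1 : rowsOk stA3Z a3z_1 a3z_1_m6 true .thrR = true := by decide +kernel

def a3z_1_r6_thrL0 : rowsOk stA3Z a3z_1 a3z_1_m6 false .thrL = true := by decide +kernel

def a3z_1_r6_thrL1 : rowsOk stA3Z a3z_1 a3z_1_m6 true .thrL = true := by decide +kernel

def a3z_1_r6_threeE0 : rowsOk stA3Z a3z_1 a3z_1_m6 false .threeE = true := by decide +kernel

def a3z_1_r6_threeE1 : rowsOk stA3Z a3z_1 a3z_1_m6 true .threeE = true := by decide +kernel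

def a3z_1_r6_ring0 : rowsOk stA3Z a3z_1 a3z_1_m6 false .ring = true := by decide +kernel

def a3z_1_r6_ring1 : rowsOk stA3Z a3z_1 a3z_1_m6 true .ring = true := by decide +kernel

theorem a3z_1_r0 : allRows stA3Z a3z_1 a3z_1_m0 = true := by
  refine allRows_of fun P => ?_
  cases P
  exacts [⟨a3z_1_r0_one0, a3z_1_r0_one1⟩,
    ⟨a3z_1_r0_two0, a3z_1_r0_two1⟩,
    ⟨a3z_1_r0_twoE0, a3z_1_r0_twoE1⟩,
    ⟨a3z_1_r0_thrR0, a3z_1_r0_thrR1⟩,
    ⟨a3z_1_r0_thrL0, a3z_1_r0_thrL1⟩,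
    ⟨a3z_1_r0_threeE0, a3z_1_r0_threeE1⟩,
    ⟨a3z_1_r0_ring0, a3z_1_r0_ring1⟩]

theorem a3z_1_r1 : allRows stA3Z a3z_1 a3z_1_m1 = true := by
  refine allRows_of fun P => ?_
  cases P
  exacts [⟨a3z_1_r1_one0, a3z_1_r1_one1⟩,
    ⟨a3z_1_r1_two0, a3z_1_r1_two1⟩,
    ⟨a3z_1_r1_twoE0, a3z_1_r1_twoE1⟩,
    ⟨a3z_1_r1_thrR0, a3z_1_r1_thrR1⟩,
    ⟨a3z_1_r1_thrL0, a3z_1_r1_thrL1⟩,
    ⟨a3z_1_r1_threeE0, a3z_1_r1_threeE1⟩,
    ⟨a3z_1_r1_ring0, a3z_1_r1_ring1⟩]

theorem a3z_1_r2 : allRows stA3Z a3z_1 a3z_1_m2 = true := by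
  refine allRows_of fun P => ?_
  cases P
  exacts [⟨a3z_1_r2_one0, a3z_1_r2_one1⟩,
    ⟨a3z_1_r2_two0, a3z_1_r2_two1⟩,
    ⟨a3z_1_r2_twoE0, a3z_1_r2_twoE1⟩,
    ⟨a3z_1_r2_thrR0, a3z_1_r2_thrR1⟩,
    ⟨a3z_1_r2_thrL0, a3z_1_r2_thrL1⟩,
    ⟨a3z_1_r2_threeE0, a3z_1_r2_threeE1⟩,
    ⟨a3z_1_r2_ring0, a3z_1_r2_ring1⟩]

theorem a3z_1_r3 : allRows stA3Z a3z_1 a3z_1_m3 = true := by
  refine allRows_of fun P => ?_
  cases P
  exacts [⟨a3z_1_r3_one0, a3z_1_r3_one1⟩,
    ⟨a3z_1_r3_two0, a3z_1_r3_two1⟩,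
    ⟨a3z_1_r3_twoE0, a3z_1_r3_twoE1⟩,
    ⟨a3z_1_r3_thrR0, a3z_1_r3_thrR1⟩,
    ⟨a3z_1_r3_thrL0, a3z_1_r3_thrL1⟩,
    ⟨a3z_1_r3_threeE0, a3z_1_r3_threeE1⟩,
    ⟨a3z_1_r3_ring0, a3z_1_r3_ring1⟩]

theorem a3z_1_r4 : allRows stA3Z a3z_1 a3z_1_m4 = true := by
  refine allRows_of fun P => ?_
  cases P
  exacts [⟨a3z_1_r4_one0, a3z_1_r4_one1⟩,
    ⟨a3z_1_r4_two0, a3z_1_r4_two1⟩,
    ⟨a3z_1_r4_twoE0, a3z_1_r4_twoE1⟩,
    ⟨a3z_1_r4_thrR0, a3z_1_r4_thrR1⟩,
    ⟨a3z_1_r4_thrL0, a3z_1_r4_thrL1⟩,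
    ⟨a3z_1_r4_threeE0, a3z_1_r4_threeE1⟩,
    ⟨a3z_1_r4_ring0, a3z_1_r4_ring1⟩]

theorem a3z_1_r5 : allRows stA3Z a3z_1 a3z_1_m5 = true := by
  refine allRows_of fun P => ?_
  cases P
  exacts [⟨a3z_1_r5_one0, a3z_1_r5_one1⟩,
    ⟨a3z_1_r5_two0, a3z_1_r5_two1⟩,
    ⟨a3z_1_r5_twoE0, a3z_1_r5_twoE1⟩,
    ⟨a3z_1_r5_thrR0, a3z_1_r5_thrR1⟩,
    ⟨a3z_1_r5_thrL0, a3z_1_r5_thrL1⟩,
    ⟨a3z_1_r5_threeE0, a3z_1_r5_threeE1⟩,
    ⟨a3z_1_r5_ring0, a3z_1_r5_ring1⟩]

theorem a3z_1_r6 : allRows stA3Z a3z_1 a3z_1_m6 = true := by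
  refine allRows_of fun P => ?_
  cases P
  exacts [⟨a3z_1_r6_one0, a3z_1_r6_one1⟩,
    ⟨a3z_1_r6_two0, a3z_1_r6_two1⟩,
    ⟨a3z_1_r6_twoE0, a3z_1_r6_twoE1⟩,
    ⟨a3z_1_r6_thrR0, a3z_1_r6_thrR1⟩,
    ⟨a3z_1_r6_thrL0, a3z_1_r6_thrL1⟩,
    ⟨a3z_1_r6_threeE0, a3z_1_r6_threeE1⟩,
    ⟨a3z_1_r6_ring0, a3z_1_r6_ring1⟩]

theorem a3z_1_ok : a3z_1.ok stA3Z = true := by
  have h : (PC.all.all fun P => PC.all.all fun Q => pairOk stA3Z a3z_1 P Q) = true := by decide +kernel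
  have d0 : mdOk stA3Z a3z_1_m0.md = true := by decide +kernel
  have d1 : mdOk stA3Z a3z_1_m1.md = true := by decide +kernel
  have d2 : mdOk stA3Z a3z_1_m2.md = true := by decide +kernel
  have d3 : mdOk stA3Z a3z_1_m3.md = true := by decide +kernel
  have d4 : mdOk stA3Z a3z_1_m4.md = true := by decide +kernel
  have d5 : mdOk stA3Z a3z_1_m5.md = true := by decide +kernel
  have d6 : mdOk stA3Z a3z_1_m6.md = true := by decide +kernel
  unfold Piece.ok
  rw [h, Bool.true_and]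
  show List.all [a3z_1_m0, a3z_1_m1, a3z_1_m2, a3z_1_m3, a3z_1_m4, a3z_1_m5, a3z_1_m6] _ = true
  rw [List.all_eq_true]
  intro m hm
  simp only [List.mem_cons, List.not_mem_nil, or_false] at hm
  rcases hm with rfl | rfl | rfl | rfl | rfl | rfl | rfl
  · rw [a3z_1_r0, d0]; rfl
  · rw [a3z_1_r1, d1]; rfl
  · rw [a3z_1_r2, d2]; rfl
  · rw [a3z_1_r3, d3]; rfl
  · rw [a3z_1_r4, d4]; rfl
  · rw [a3z_1_r5, d5]; rfl
  · rw [a3z_1_r6, d6]; rfl

end OR

end Pool.Agent.Work.MP_b30479_gt.G2
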