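import Pool.Agent.Work.MP_b30479_gt.G2.OStA
import Pool.Agent.Work.MP_b30479_gt.G2.ORows

namespace Pool.Agent.Work.MP_b30479_gt.G2

namespace OR

/-- windows -/
def a3z_2_wp : PC → Win
  | .one => ⟨-890, 290, -820, 330, 0, 430⟩
  | .two => ⟨0, 0, 0, 0, 0, 0⟩
  | .twoE => ⟨0, 0, 0, 0, 0, 0⟩
  | .thrR => ⟨0, 0, 0, 0, 0, 0⟩
  | .thrL => ⟨0, 0, 0, 0, 0, 0⟩
  | .threeE => ⟨0, 0, 0, 0, 0, 0⟩
  | .ring => ⟨480, 1330, 470, 1500, 0, 610⟩

/-- windows -/
def a3z_2_wq : PC → Win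
  | .one => ⟨-890, 290, -820, 330, -610, 0⟩
  | .two => ⟨0, 0, 0, 0, 0, 0⟩
  | .twoE => ⟨0, 0, 0, 0, 0, 0⟩
  | .thrR => ⟨0, 0, 0, 0, 0, 0⟩
  | .thrL => ⟨0, 0, 0, 0, 0, 0⟩
  | .threeE => ⟨0, 0, 0, 0, 0, 0⟩
  | .ring => ⟨480, 1330, 470, 1500, -430, 0⟩

/-- mode -/
def a3z_2_m0 : Mode where
  md := .V 300 1000
  lam := 1000
  ct := 2000
  gp := fun
    | .one => [⟨491, [8]⟩, ⟨1716, [8]⟩, ⟨-189, [2179]⟩, ⟨-1111, [2634892553379951295524799282, 557955, 8, 8, 142705539, 142837811]⟩, ⟨-1779, [0, 36532619315, 8, 8, 40297504796990511394098, 2640560868921157288099787298]⟩, ⟨-1779, [0, 0, 0, 0, 8, 8]⟩, ⟨-1779, [0, 0, 0, 0, 8, 8]⟩, e00]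
    | .two => [e00, e00, e00, e00, e00, e00]
    | .twoE => [e00, e00, e00, e00, e00, e00]
    | .thrR => [e00, e00, e00, e00, e00, e00]
    | .thrL => [e00, e00, e00, e00, e00, e00]
    | .threeE => [e00, e00, e00, e00, e00, e00]
    | .ring => [⟨611, [36532617858]⟩, ⟨611, [143135363]⟩, ⟨611, [2178, 8, 8, 8, 0, 0]⟩, ⟨-83, [557443, 2179, 8, 8, 143164194, 13]⟩, ⟨-984, [0, 0, 0, 0, 10316158924614072756503330, 8]⟩, ⟨-2980, [0, 0, 0, 0, 2178, 557954]⟩]
  gq := fun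
    | .one => [⟨460, [8]⟩, ⟨1776, [8]⟩, ⟨-220, [557443]⟩, ⟨-1121, [172520416987102309893857054561074, 557955, 8, 8, 142705539, 36532917123]⟩, ⟨-1815, [0, 2396420817068339, 8, 143172401, 2640937274231420219925081394, 741656723481052327760896970788682192859682]⟩, ⟨-1815, [0, 0, 0, 0, 8, 8]⟩, ⟨-1815, [0, 0, 0, 0, 8, 2179]⟩, e00]
    | .two => [e00, e00, e00, e00, e00, e00]
    | .twoE => [e00, e00, e00, e00, e00, e00]
    | .thrR => [e00, e00, e00, e00, e00, e00]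
    | .thrL => [e00, e00, e00, e00, e00, e00]
    | .threeE => [e00, e00, e00, e00, e00, e00]
    | .ring => [⟨575, [557954]⟩, ⟨575, [2179]⟩, ⟨575, [2178, 8, 8, 8, 0, 0]⟩, ⟨-93, [2179, 2179, 8, 8, 143164194, 13]⟩, ⟨-1015, [0, 0, 0, 0, 157412279452859246642, 8]⟩, ⟨-2920, [0, 0, 0, 0, 2178, 557954]⟩]

/-- mode -/
def a3z_2_m1 : Mode where
  md := .D
  lam := 1000
  ct := 12000
  gp := fun
    | .one => [⟨-1428, [614803508100805249]⟩, ⟨-2108, [674532493665698276330980975394]⟩, ⟨-2108, [2396396468077347]⟩, e00, e00, e00, e00, e00]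
    | .two => [e00, e00, e00, e00, e00, e00]
    | .twoE => [e00, e00, e00, e00, e00, e00]
    | .thrR => [e00, e00, e00, e00, e00, e00]
    | .thrL => [e00, e00, e00, e00, e00, e00]
    | .threeE => [e00, e00, e00, e00, e00, e00]
    | .ring => [⟨765, [612914545522391074]⟩, ⟨765, [36532619283]⟩, e00, e00, e00, e00]
  gq := fun
    | .one => [⟨-1289, [2179]⟩, ⟨-1969, [9352350537778]⟩, ⟨-1969, [9360923699251]⟩, e00, e00, e00, e00, e00]
    | .two => [e00, e00, e00, e00, e00, e00]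
    | .twoE => [e00, e00, e00, e00, e00, e00]
    | .thrR => [e00, e00, e00, e00, e00, e00]
    | .thrL => [e00, e00, e00, e00, e00, e00]
    | .threeE => [e00, e00, e00, e00, e00, e00]
    | .ring => [⟨904, [10313971469517720803051570]⟩, ⟨904, [2633683129520369876561266739]⟩, e00, e00, e00, e00]

/-- mode -/
def a3z_2_m2 : Mode where
  md := .V 550 1000
  lam := 250
  ct := 2000
  gp := fun
    | .one => [⟨-77, [2179]⟩, ⟨-247, [40205508359997088084530]⟩, ⟨-247, [557955]⟩, ⟨-811, [157051834641201465394, 557955, 8, 8, 142705539, 142837811]⟩, e00, e00, e00, e00]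
    | .two => [e00, e00, e00, e00, e00, e00]
    | .twoE => [e00, e00, e00, e00, e00, e00]
    | .thrR => [e00, e00, e00, e00, e00, e00]
    | .thrL => [e00, e00, e00, e00, e00, e00]
    | .threeE => [e00, e00, e00, e00, e00, e00]
    | .ring => [⟨497, [557954]⟩, ⟨497, [2179]⟩, ⟨-72, [2632452947287369941993928754, 2179, 8, 8, 0, 0]⟩, ⟨-72, [2179, 2179, 8, 8, 9361019142946, 13]⟩, e00, e00]
  gq := fun
    | .one => [⟨-62, [8]⟩, ⟨-232, [2396420893606194]⟩, ⟨-232, [557955]⟩, ⟨-801, [40168039730541014255666, 557955, 8, 8, 142836611, 36532917123]⟩, e00, e00, e00, e00]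
    | .two => [e00, e00, e00, e00, e00, e00]
    | .twoE => [e00, e00, e00, e00, e00, e00]
    | .thrR => [e00, e00, e00, e00, e00, e00]
    | .thrL => [e00, e00, e00, e00, e00, e00]
    | .threeE => [e00, e00, e00, e00, e00, e00]
    | .ring => [⟨507, [557954]⟩, ⟨507, [2179]⟩, ⟨-57, [40168039816302898460722, 2179, 8, 8, 0, 0]⟩, ⟨-57, [2179, 2179, 8, 8, 9361019142946, 13]⟩, e00, e00]

/-- mode -/
def a3z_2_m3 : Mode where
  md := .V 150 1000
  lam := 0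
  ct := 500
  gp := fun
    | .one => [e00, e00, e00, e00, e00, e00, e00, ⟨-3473, [0, 0, 0, 0, 40205269392837295224882, 36566108210]⟩]
    | .two => [e00, e00, e00, e00, e00, e00]
    | .twoE => [e00, e00, e00, e00, e00, e00]
    | .thrR => [e00, e00, e00, e00, e00, e00]
    | .thrL => [e00, e00, e00, e00, e00, e00]
    | .threeE => [e00, e00, e00, e00, e00, e00]
    | .ring => [⟨3610, [17129873110806641661133781998557096251286888876082]⟩, ⟨3610, [15579528836446668454165760170737013635]⟩, ⟨3610, [11491943508767135871014962, 2179, 8, 8, 0, 0]⟩, ⟨3610, [557443, 2179, 8, 8, 36649927458, 13]⟩, ⟨3610, [0, 0, 0, 0, 2178, 8]⟩, ⟨-181, [0, 0, 0, 0, 8, 8]⟩]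
  gq := fun
    | .one => [e00, e00, e00, e00, e00, e00, e00, ⟨-3614, [0, 0, 0, 0, 2632452649402841491759970354, 40289096487425758757426]⟩]
    | .two => [e00, e00, e00, e00, e00, e00]
    | .twoE => [e00, e00, e00, e00, e00, e00]
    | .thrR => [e00, e00, e00, e00, e00, e00]
    | .thrL => [e00, e00, e00, e00, e00, e00]
    | .threeE => [e00, e00, e00, e00, e00, e00]
    | .ring => [⟨3469, [2178]⟩, ⟨3469, [2179]⟩, ⟨3469, [2178, 8, 8, 8, 0, 0]⟩, ⟨3469, [8, 8, 8, 8, 559138, 13]⟩, ⟨3469, [0, 0, 0, 0, 8, 8]⟩, ⟨-316, [0, 0, 0, 0, 8, 8]⟩]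

/-- mode -/
def a3z_2_m4 : Mode where
  md := .V 450 1000
  lam := 500
  ct := 2000
  gp := fun
    | .one => [e00, ⟨54, [2178]⟩, e00, e00, e00, e00, e00, e00]
    | .two => [e00, e00, e00, e00, e00, e00]
    | .twoE => [e00, e00, e00, e00, e00, e00]
    | .thrR => [e00, e00, e00, e00, e00, e00]
    | .thrL => [e00, e00, e00, e00, e00, e00]
    | .threeE => [e00, e00, e00, e00, e00, e00]
    | .ring => [e00, e00, e00, e00, ⟨-711, [0, 0, 0, 0, 10316066327890517701067554, 3458]⟩, e00]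
  gq := fun
    | .one => [e00, ⟨107, [2179]⟩, e00, e00, e00, e00, e00, e00]
    | .two => [e00, e00, e00, e00, e00, e00]
    | .twoE => [e00, e00, e00, e00, e00, e00]
    | .thrR => [e00, e00, e00, e00, e00, e00]
    | .thrL => [e00, e00, e00, e00, e00, e00]
    | .threeE => [e00, e00, e00, e00, e00, e00]
    | .ring => [e00, e00, e00, e00, ⟨-658, [0, 0, 0, 0, 172695269883194697035900408464162, 231965314]⟩, e00]

/-- piece -/
def a3z_2 : Piece := ⟨7500, 7630, 0, 820, a3z_2_wp, a3z_2_wq, [a3z_2_m0, a3z_2_m1, a3z_2_m2, a3z_2_m3, a3z_2_m4]⟩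

set_option linter.defProp false

def a3z_2_r0_one0 : rowsOk stA3Z a3z_2 a3z_2_m0 false .one = true := by decide +kernel

def a3z_2_r0_one1 : rowsOk stA3Z a3z_2 a3z_2_m0 true .one = true := by decide +kernel

def a3z_2_r0_two0 : rowsOk stA3Z a3z_2 a3z_2_m0 false .two = true := by decide +kernel

def a3z_2_r0_two1 : rowsOk stA3Z a3z_2 a3z_2_m0 true .two = true := by decide +kernel

def a3z_2_r0_twoE0 : rowsOk stA3Z a3z_2 a3z_2_m0 false .twoE = true := by decide +kernel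

def a3z_2_r0_twoE1 : rowsOk stA3Z a3z_2 a3z_2_m0 true .twoE = true := by decide +kernel

def a3z_2_r0_thrR0 : rowsOk stA3Z a3z_2 a3z_2_m0 false .thrR = true := by decide +kernel

def a3z_2_r0_thrR1 : rowsOk stA3Z a3z_2 a3z_2_m0 true .thrR = true := by decide +kernel

def a3z_2_r0_thrL0 : rowsOk stA3Z a3z_2 a3z_2_m0 false .thrL = true := by decide +kernel

def a3z_2_r0_thrL1 : rowsOk stA3Z a3z_2 a3z_2_m0 true .thrL = true := by decide +kernel

def a3z_2_r0_threeE0 : rowsOk stA3Z a3z_2 a3z_2_m0 false .threeE = true := by decide +kernel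

def a3z_2_r0_threeE1 : rowsOk stA3Z a3z_2 a3z_2_m0 true .threeE = true := by decide +kernel

def a3z_2_r0_ring0 : rowsOk stA3Z a3z_2 a3z_2_m0 false .ring = true := by decide +kernel

def a3z_2_r0_ring1 : rowsOk stA3Z a3z_2 a3z_2_m0 true .ring = true := by decide +kernel

def a3z_2_r1_one0 : rowsOk stA3Z a3z_2 a3z_2_m1 false .one = true := by decide +kernel

def a3z_2_r1_one1 : rowsOk stA3Z a3z_2 a3z_2_m1 true .one = true := by decide +kernel

def a3z_2_r1_two0 : rowsOk stA3Z a3z_2 a3z_2_m1 false .two = true := by decide +kernel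

def a3z_2_r1_two1 : rowsOk stA3Z a3z_2 a3z_2_m1 true .two = true := by decide +kernel

def a3z_2_r1_twoE0 : rowsOk stA3Z a3z_2 a3z_2_m1 false .twoE = true := by decide +kernel

def a3z_2_r1_twoE1 : rowsOk stA3Z a3z_2 a3z_2_m1 true .twoE = true := by decide +kernel

def a3z_2_r1_thrR0 : rowsOk stA3Z a3z_2 a3z_2_m1 false .thrR = true := by decide +kernel

def a3z_2_r1_thrR1 : rowsOk stA3Z a3z_2 a3z_2_m1 true .thrR = true := by decide +kernel

def a3z_2_r1_thrL0 : rowsOk stA3Z a3z_2 a3z_2_m1 false .thrL = true := by decide +kernel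

def a3z_2_r1_thrL1 : rowsOk stA3Z a3z_2 a3z_2_m1 true .thrL = true := by decide +kernel

def a3z_2_r1_threeE0 : rowsOk stA3Z a3z_2 a3z_2_m1 false .threeE = true := by decide +kernel

def a3z_2_r1_threeE1 : rowsOk stA3Z a3z_2 a3z_2_m1 true .threeE = true := by decide +kernel

def a3z_2_r1_ring0 : rowsOk stA3Z a3z_2 a3z_2_m1 false .ring = true := by decide +kernel

def a3z_2_r1_ring1 : rowsOk stA3Z a3z_2 a3z_2_m1 true .ring = true := by decide +kernel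

def a3z_2_r2_one0 : rowsOk stA3Z a3z_2 a3z_2_m2 false .one = true := by decide +kernel

def a3z_2_r2_one1 : rowsOk stA3Z a3z_2 a3z_2_m2 true .one = true := by decide +kernel

def a3z_2_r2_two0 : rowsOk stA3Z a3z_2 a3z_2_m2 false .two = true := by decide +kernel

def a3z_2_r2_two1 : rowsOk stA3Z a3z_2 a3z_2_m2 true .two = true := by decide +kernel

def a3z_2_r2_twoE0 : rowsOk stA3Z a3z_2 a3z_2_m2 false .twoE = true := by decide +kernel

def a3z_2_r2_twoE1 : rowsOk stA3Z a3z_2 a3z_2_m2 true .twoE = true := by decide +kernel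

def a3z_2_r2_thrR0 : rowsOk stA3Z a3z_2 a3z_2_m2 false .thrR = true := by decide +kernel

def a3z_2_r2_thrR1 : rowsOk stA3Z a3z_2 a3z_2_m2 true .thrR = true := by decide +kernel

def a3z_2_r2_thrL0 : rowsOk stA3Z a3z_2 a3z_2_m2 false .thrL = true := by decide +kernel

def a3z_2_r2_thrL1 : rowsOk stA3Z a3z_2 a3z_2_m2 true .thrL = true := by decide +kernel

def a3z_2_r2_threeE0 : rowsOk stA3Z a3z_2 a3z_2_m2 false .threeE = true := by decide +kernel

def a3z_2_r2_threeE1 : rowsOk stA3Z a3z_2 a3z_2_m2 true .threeE = true := by decide +kernel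

def a3z_2_r2_ring0 : rowsOk stA3Z a3z_2 a3z_2_m2 false .ring = true := by decide +kernel

def a3z_2_r2_ring1 : rowsOk stA3Z a3z_2 a3z_2_m2 true .ring = true := by decide +kernel

def a3z_2_r3_one0 : rowsOk stA3Z a3z_2 a3z_2_m3 false .one = true := by decide +kernel

def a3z_2_r3_one1 : rowsOk stA3Z a3z_2 a3z_2_m3 true .one = true := by decide +kernel

def a3z_2_r3_two0 : rowsOk stA3Z a3z_2 a3z_2_m3 false .two = true := by decide +kernel

def a3z_2_r3_two1 : rowsOk stA3Z a3z_2 a3z_2_m3 true .two = true := by decide +kernel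

def a3z_2_r3_twoE0 : rowsOk stA3Z a3z_2 a3z_2_m3 false .twoE = true := by decide +kernel

def a3z_2_r3_twoE1 : rowsOk stA3Z a3z_2 a3z_2_m3 true .twoE = true := by decide +kernel

def a3z_2_r3_thrR0 : rowsOk stA3Z a3z_2 a3z_2_m3 false .thrR = true := by decide +kernel

def a3z_2_r3_thrR1 : rowsOk stA3Z a3z_2 a3z_2_m3 true .thrR = true := by decide +kernel

def a3z_2_r3_thrL0 : rowsOk stA3Z a3z_2 a3z_2_m3 false .thrL = true := by decide +kernel

def a3z_2_r3_thrL1 : rowsOk stA3Z a3z_2 a3z_2_m3 true .thrL = true := by decide +kernel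

def a3z_2_r3_threeE0 : rowsOk stA3Z a3z_2 a3z_2_m3 false .threeE = true := by decide +kernel

def a3z_2_r3_threeE1 : rowsOk stA3Z a3z_2 a3z_2_m3 true .threeE = true := by decide +kernel

def a3z_2_r3_ring0 : rowsOk stA3Z a3z_2 a3z_2_m3 false .ring = true := by decide +kernel

def a3z_2_r3_ring1 : rowsOk stA3Z a3z_2 a3z_2_m3 true .ring = true := by decide +kernel

def a3z_2_r4_one0 : rowsOk stA3Z a3z_2 a3z_2_m4 false .one = true := by decide +kernel

def a3z_2_r4_one1 : rowsOk stA3Z a3z_2 a3z_2_m4 true .one = true := by decide +kernel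

def a3z_2_r4_two0 : rowsOk stA3Z a3z_2 a3z_2_m4 false .two = true := by decide +kernel

def a3z_2_r4_two1 : rowsOk stA3Z a3z_2 a3z_2_m4 true .two = true := by decide +kernel

def a3z_2_r4_twoE0 : rowsOk stA3Z a3z_2 a3z_2_m4 false .twoE = true := by decide +kernel

def a3z_2_r4_twoE1 : rowsOk stA3Z a3z_2 a3z_2_m4 true .twoE = true := by decide +kernel

def a3z_2_r4_thrR0 : rowsOk stA3Z a3z_2 a3z_2_m4 false .thrR = true := by decide +kernel

def a3z_2_r4_thrR1 : rowsOk stA3Z a3z_2 a3z_2_m4 true .thrR = true := by decide +kernel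

def a3z_2_r4_thrL0 : rowsOk stA3Z a3z_2 a3z_2_m4 false .thrL = true := by decide +kernel

def a3z_2_r4_thrL1 : rowsOk stA3Z a3z_2 a3z_2_m4 true .thrL = true := by decide +kernel

def a3z_2_r4_threeE0 : rowsOk stA3Z a3z_2 a3z_2_m4 false .threeE = true := by decide +kernel

def a3z_2_r4_threeE1 : rowsOk stA3Z a3z_2 a3z_2_m4 true .threeE = true := by decide +kernel

def a3z_2_r4_ring0 : rowsOk stA3Z a3z_2 a3z_2_m4 false .ring = true := by decide +kernel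

def a3z_2_r4_ring1 : rowsOk stA3Z a3z_2 a3z_2_m4 true .ring = true := by decide +kernel

theorem a3z_2_r0 : allRows stA3Z a3z_2 a3z_2_m0 = true := by
  refine allRows_of fun P => ?_
  cases P
  exacts [⟨a3z_2_r0_one0, a3z_2_r0_one1⟩,
    ⟨a3z_2_r0_two0, a3z_2_r0_two1⟩,
    ⟨a3z_2_r0_twoE0, a3z_2_r0_twoE1⟩,
    ⟨a3z_2_r0_thrR0, a3z_2_r0_thrR1⟩,
    ⟨a3z_2_r0_thrL0, a3z_2_r0_thrL1⟩,
    ⟨a3z_2_r0_threeE0, a3z_2_r0_threeE1⟩,
    ⟨a3z_2_r0_ring0, a3z_2_r0_ring1⟩]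

theorem a3z_2_r1 : allRows stA3Z a3z_2 a3z_2_m1 = true := by
  refine allRows_of fun P => ?_
  cases P
  exacts [⟨a3z_2_r1_one0, a3z_2_r1_one1⟩,
    ⟨a3z_2_r1_two0, a3z_2_r1_two1⟩,
    ⟨a3z_2_r1_twoE0, a3z_2_r1_twoE1⟩,
    ⟨a3z_2_r1_thrR0, a3z_2_r1_thrR1⟩,
    ⟨a3z_2_r1_thrL0, a3z_2_r1_thrL1⟩,
    ⟨a3z_2_r1_threeE0, a3z_2_r1_threeE1⟩,
    ⟨a3z_2_r1_ring0, a3z_2_r1_ring1⟩]

theorem a3z_2_r2 : allRows stA3Z a3z_2 a3z_2_m2 = true := by
  refine allRows_of fun P => ?_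
  cases P
  exacts [⟨a3z_2_r2_one0, a3z_2_r2_one1⟩,
    ⟨a3z_2_r2_two0, a3z_2_r2_two1⟩,
    ⟨a3z_2_r2_twoE0, a3z_2_r2_twoE1⟩,
    ⟨a3z_2_r2_thrR0, a3z_2_r2_thrR1⟩,
    ⟨a3z_2_r2_thrL0, a3z_2_r2_thrL1⟩,
    ⟨a3z_2_r2_threeE0, a3z_2_r2_threeE1⟩,
    ⟨a3z_2_r2_ring0, a3z_2_r2_ring1⟩]

theorem a3z_2_r3 : allRows stA3Z a3z_2 a3z_2_m3 = true := by
  refine allRows_of fun P => ?_
  cases P
  exacts [⟨a3z_2_r3_one0, a3z_2_r3_one1⟩,
    ⟨a3z_2_r3_two0, a3z_2_r3_two1⟩,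
    ⟨a3z_2_r3_twoE0, a3z_2_r3_twoE1⟩,
    ⟨a3z_2_r3_thrR0, a3z_2_r3_thrR1⟩,
    ⟨a3z_2_r3_thrL0, a3z_2_r3_thrL1⟩,
    ⟨a3z_2_r3_threeE0, a3z_2_r3_threeE1⟩,
    ⟨a3z_2_r3_ring0, a3z_2_r3_ring1⟩]

theorem a3z_2_r4 : allRows stA3Z a3z_2 a3z_2_m4 = true := by
  refine allRows_of fun P => ?_
  cases P
  exacts [⟨a3z_2_r4_one0, a3z_2_r4_one1⟩,
    ⟨a3z_2_r4_two0, a3z_2_r4_two1⟩,
    ⟨a3z_2_r4_twoE0, a3z_2_r4_twoE1⟩,
    ⟨a3z_2_r4_thrR0, a3z_2_r4_thrR1⟩,
    ⟨a3z_2_r4_thrL0, a3z_2_r4_thrL1⟩,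
    ⟨a3z_2_r4_threeE0, a3z_2_r4_threeE1⟩,
    ⟨a3z_2_r4_ring0, a3z_2_r4_ring1⟩]

theorem a3z_2_ok : a3z_2.ok stA3Z = true := by
  have h : (PC.all.all fun P => PC.all.all fun Q => pairOk stA3Z a3z_2 P Q) = true := by decide +kernel
  have d0 : mdOk stA3Z a3z_2_m0.md = true := by decide +kernel
  have d1 : mdOk stA3Z a3z_2_m1.md = true := by decide +kernel
  have d2 : mdOk stA3Z a3z_2_m2.md = true := by decide +kernel
  have d3 : mdOk stA3Z a3z_2_m3.md = true := by decide +kernel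
  have d4 : mdOk stA3Z a3z_2_m4.md = true := by decide +kernel
  unfold Piece.ok
  rw [h, Bool.true_and]
  show List.all [a3z_2_m0, a3z_2_m1, a3z_2_m2, a3z_2_m3, a3z_2_m4] _ = true
  rw [List.all_eq_true]
  intro m hm
  simp only [List.mem_cons, List.not_mem_nil, or_false] at hm
  rcases hm with rfl | rfl | rfl | rfl | rfl
  · rw [a3z_2_r0, d0]; rfl
  · rw [a3z_2_r1, d1]; rfl
  · rw [a3z_2_r2, d2]; rfl
  · rw [a3z_2_r3, d3]; rfl
  · rw [a3z_2_r4, d4]; rfl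

end OR

end Pool.Agent.Work.MP_b30479_gt.G2
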