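import Pool.Agent.Work.MP_b30479_gt.G2.OStA
import Pool.Agent.Work.MP_b30479_gt.G2.ORows

namespace Pool.Agent.Work.MP_b30479_gt.G2

namespace OR

/-- windows -/
def a3z_4_wp : PC → Win
  | .one => ⟨-890, 290, -820, 330, 0, 430⟩
  | .two => ⟨0, 0, 0, 0, 0, 0⟩
  | .twoE => ⟨0, 0, 0, 0, 0, 0⟩
  | .thrR => ⟨0, 0, 0, 0, 0, 0⟩
  | .thrL => ⟨0, 0, 0, 0, 0, 0⟩
  | .threeE => ⟨0, 0, 0, 0, 0, 0⟩
  | .ring => ⟨480, 1330, 470, 1500, 0, 610⟩

/-- windows -/
def a3z_4_wq : PC → Win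
  | .one => ⟨-890, 290, -820, 330, -610, 0⟩
  | .two => ⟨0, 0, 0, 0, 0, 0⟩
  | .twoE => ⟨0, 0, 0, 0, 0, 0⟩
  | .thrR => ⟨0, 0, 0, 0, 0, 0⟩
  | .thrL => ⟨0, 0, 0, 0, 0, 0⟩
  | .threeE => ⟨0, 0, 0, 0, 0, 0⟩
  | .ring => ⟨480, 1330, 470, 1500, -430, 0⟩

/-- mode -/
def a3z_4_m0 : Mode where
  md := .V 300 1000
  lam := 750
  ct := 2000
  gp := fun
    | .one => [⟨271, [8]⟩, ⟨1566, [8]⟩, ⟨-239, [557699]⟩, ⟨-1211, [613483729083971634, 557955, 8, 8, 36643025539, 143143555]⟩, ⟨-2006, [0, 0, 0, 0, 36650058530, 36650365730]⟩, ⟨-2006, [0, 0, 0, 0, 8, 8]⟩, ⟨-2006, [0, 0, 0, 0, 8, 8]⟩, e00]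
    | .two => [e00, e00, e00, e00, e00, e00]
    | .twoE => [e00, e00, e00, e00, e00, e00]
    | .thrR => [e00, e00, e00, e00, e00, e00]
    | .thrL => [e00, e00, e00, e00, e00, e00]
    | .threeE => [e00, e00, e00, e00, e00, e00]
    | .ring => [⟨1157, [557954]⟩, ⟨1157, [2179]⟩, ⟨1157, [8, 8, 8, 8, 8, 8]⟩, ⟨323, [0, 0, 0, 0, 143140914, 13]⟩, ⟨-597, [0, 0, 0, 0, 36649927458, 8]⟩, ⟨-2512, [0, 0, 0, 0, 2178, 2178]⟩]
  gq := fun
    | .one => [⟨203, [8]⟩, ⟨1608, [8]⟩, ⟨-307, [557699]⟩, ⟨-1227, [613483729083963442, 557955, 8, 8, 36643025539, 36649906819]⟩, ⟨-2061, [0, 0, 0, 0, 36650058530, 2401576119972642]⟩, ⟨-2061, [0, 0, 0, 0, 8, 8]⟩, ⟨-2061, [0, 0, 0, 0, 8, 2179]⟩, e00]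
    | .two => [e00, e00, e00, e00, e00, e00]
    | .twoE => [e00, e00, e00, e00, e00, e00]
    | .thrR => [e00, e00, e00, e00, e00, e00]
    | .thrL => [e00, e00, e00, e00, e00, e00]
    | .threeE => [e00, e00, e00, e00, e00, e00]
    | .ring => [⟨1102, [2178]⟩, ⟨1102, [2179]⟩, ⟨1102, [8, 8, 8, 8, 8, 8]⟩, ⟨307, [0, 0, 0, 0, 559154, 13]⟩, ⟨-665, [0, 0, 0, 0, 9382493562930, 8]⟩, ⟨-2470, [0, 0, 0, 0, 2178, 2178]⟩]

/-- mode -/
def a3z_4_m1 : Mode where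
  md := .D
  lam := 500
  ct := 12000
  gp := fun
    | .one => [e00, ⟨-2753, [44206161504876190627437741164667682]⟩, ⟨-2753, [156907684268752798259]⟩, e00, e00, e00, e00, e00]
    | .two => [e00, e00, e00, e00, e00, e00]
    | .twoE => [e00, e00, e00, e00, e00, e00]
    | .thrR => [e00, e00, e00, e00, e00, e00]
    | .thrL => [e00, e00, e00, e00, e00, e00]
    | .threeE => [e00, e00, e00, e00, e00, e00]
    | .ring => [⟨1392, [2394197442398242]⟩, ⟨1392, [36532619283]⟩, e00, e00, e00, e00]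
  gq := fun
    | .one => [⟨-1656, [2179]⟩, ⟨-1996, [142837810]⟩, ⟨-1996, [613483591628236851]⟩, e00, e00, e00, e00, e00]
    | .two => [e00, e00, e00, e00, e00, e00]
    | .twoE => [e00, e00, e00, e00, e00, e00]
    | .thrR => [e00, e00, e00, e00, e00, e00]
    | .thrL => [e00, e00, e00, e00, e00, e00]
    | .threeE => [e00, e00, e00, e00, e00, e00]
    | .ring => [⟨2149, [9356645139330]⟩, ⟨2149, [2394221508266035]⟩, e00, e00, e00, e00]

/-- mode -/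
def a3z_4_m2 : Mode where
  md := .V 550 1000
  lam := 250
  ct := 2000
  gp := fun
    | .one => [⟨-33, [2179]⟩, ⟨-203, [613484064085148466]⟩, ⟨-203, [557955]⟩, ⟨-901, [2396420816734258, 557955, 8, 8, 36643025539, 143143555]⟩, e00, e00, e00, e00]
    | .two => [e00, e00, e00, e00, e00, e00]
    | .twoE => [e00, e00, e00, e00, e00, e00]
    | .thrR => [e00, e00, e00, e00, e00, e00]
    | .thrL => [e00, e00, e00, e00, e00, e00]
    | .threeE => [e00, e00, e00, e00, e00, e00]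
    | .ring => [⟨639, [557954]⟩, ⟨639, [2179]⟩, ⟨-44, [36566479235, 2179, 8, 8, 2179, 8]⟩, ⟨-44, [0, 0, 0, 0, 36566476850, 13]⟩, e00, e00]
  gq := fun
    | .one => [⟨-90, [8]⟩, ⟨-260, [36566472754]⟩, ⟨-260, [557955]⟩, ⟨-943, [2396420816734258, 557955, 8, 8, 36643025539, 36649906819]⟩, e00, e00, e00, e00]
    | .two => [e00, e00, e00, e00, e00, e00]
    | .twoE => [e00, e00, e00, e00, e00, e00]
    | .thrR => [e00, e00, e00, e00, e00, e00]
    | .thrL => [e00, e00, e00, e00, e00, e00]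
    | .threeE => [e00, e00, e00, e00, e00, e00]
    | .ring => [⟨597, [2178]⟩, ⟨597, [2179]⟩, ⟨-101, [36549264259, 2179, 8, 8, 2179, 8]⟩, ⟨-101, [0, 0, 0, 0, 36566476850, 13]⟩, e00, e00]

/-- mode -/
def a3z_4_m3 : Mode where
  md := .V 150 1000
  lam := 0
  ct := 1000
  gp := fun
    | .one => [e00, e00, e00, e00, e00, e00, e00, ⟨-3437, [0, 0, 0, 0, 613478595239094322, 36566108210]⟩]
    | .two => [e00, e00, e00, e00, e00, e00]
    | .twoE => [e00, e00, e00, e00, e00, e00]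
    | .thrR => [e00, e00, e00, e00, e00, e00]
    | .thrL => [e00, e00, e00, e00, e00, e00]
    | .threeE => [e00, e00, e00, e00, e00, e00]
    | .ring => [⟨3529, [14167459743378608828416898]⟩, ⟨3529, [55341639745762704327555]⟩, ⟨3529, [40827584899, 2179, 8, 8, 2179, 8]⟩, ⟨3529, [0, 0, 0, 0, 559154, 13]⟩, ⟨3529, [0, 0, 0, 0, 8, 8]⟩, ⟨-206, [0, 0, 0, 0, 8, 8]⟩]
  gq := fun
    | .one => [e00, e00, e00, e00, e00, e00, e00, ⟨-3533, [0, 0, 0, 0, 10283018162011324805560370, 40168375904754302355506]⟩]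
    | .two => [e00, e00, e00, e00, e00, e00]
    | .twoE => [e00, e00, e00, e00, e00, e00]
    | .thrR => [e00, e00, e00, e00, e00, e00]
    | .thrL => [e00, e00, e00, e00, e00, e00]
    | .threeE => [e00, e00, e00, e00, e00, e00]
    | .ring => [⟨3433, [2178]⟩, ⟨3433, [2179]⟩, ⟨3433, [8, 8, 8, 8, 8, 8]⟩, ⟨3433, [0, 0, 0, 0, 2178, 13]⟩, ⟨3433, [0, 0, 0, 0, 8, 8]⟩, ⟨-269, [0, 0, 0, 0, 8, 8]⟩]

/-- mode -/
def a3z_4_m4 : Mode where
  md := .V 450 1000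
  lam := 500
  ct := 2000
  gp := fun
    | .one => [e00, ⟨40, [2178]⟩, e00, e00, e00, e00, e00, e00]
    | .two => [e00, e00, e00, e00, e00, e00]
    | .twoE => [e00, e00, e00, e00, e00, e00]
    | .thrR => [e00, e00, e00, e00, e00, e00]
    | .thrL => [e00, e00, e00, e00, e00, e00]
    | .threeE => [e00, e00, e00, e00, e00, e00]
    | .ring => [e00, e00, e00, e00, ⟨-659, [0, 0, 0, 0, 2396396372656930, 3458]⟩, e00]
  gq := fun
    | .one => [e00, ⟨55, [2179]⟩, e00, e00, e00, e00, e00, e00]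
    | .two => [e00, e00, e00, e00, e00, e00]
    | .twoE => [e00, e00, e00, e00, e00, e00]
    | .thrR => [e00, e00, e00, e00, e00, e00]
    | .thrL => [e00, e00, e00, e00, e00, e00]
    | .threeE => [e00, e00, e00, e00, e00, e00]
    | .ring => [e00, e00, e00, e00, ⟨-644, [0, 0, 0, 0, 156906398939665826594, 885378]⟩, e00]

/-- mode -/
def a3z_4_m5 : Mode where
  md := .V 650 750
  lam := 250
  ct := 1500
  gp := fun
    | .one => [⟨-24, [9382493566995]⟩, e00, e00, e00, e00, e00, e00, e00]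
    | .two => [e00, e00, e00, e00, e00, e00]
    | .twoE => [e00, e00, e00, e00, e00, e00]
    | .thrR => [e00, e00, e00, e00, e00, e00]
    | .thrL => [e00, e00, e00, e00, e00, e00]
    | .threeE => [e00, e00, e00, e00, e00, e00]
    | .ring => [e00, e00, e00, e00, e00, e00]
  gq := fun
    | .one => [e00, e00, e00, e00, e00, e00, e00, e00]
    | .two => [e00, e00, e00, e00, e00, e00]
    | .twoE => [e00, e00, e00, e00, e00, e00]
    | .thrR => [e00, e00, e00, e00, e00, e00]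
    | .thrL => [e00, e00, e00, e00, e00, e00]
    | .threeE => [e00, e00, e00, e00, e00, e00]
    | .ring => [⟨-110, [676073744810420056788159399986]⟩, ⟨-110, [10283102358208211403834243]⟩, e00, e00, e00, e00]

/-- piece -/
def a3z_4 : Piece := ⟨7690, 7750, 0, 820, a3z_4_wp, a3z_4_wq, [a3z_4_m0, a3z_4_m1, a3z_4_m2, a3z_4_m3, a3z_4_m4, a3z_4_m5]⟩

set_option linter.defProp false

def a3z_4_r0_one0 : rowsOk stA3Z a3z_4 a3z_4_m0 false .one = true := by decide +kernel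

def a3z_4_r0_one1 : rowsOk stA3Z a3z_4 a3z_4_m0 true .one = true := by decide +kernel

def a3z_4_r0_two0 : rowsOk stA3Z a3z_4 a3z_4_m0 false .two = true := by decide +kernel

def a3z_4_r0_two1 : rowsOk stA3Z a3z_4 a3z_4_m0 true .two = true := by decide +kernel

def a3z_4_r0_twoE0 : rowsOk stA3Z a3z_4 a3z_4_m0 false .twoE = true := by decide +kernel

def a3z_4_r0_twoE1 : rowsOk stA3Z a3z_4 a3z_4_m0 true .twoE = true := by decide +kernel

def a3z_4_r0_thrR0 : rowsOk stA3Z a3z_4 a3z_4_m0 false .thrR = true := by decide +kernel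

def a3z_4_r0_thrR1 : rowsOk stA3Z a3z_4 a3z_4_m0 true .thrR = true := by decide +kernel

def a3z_4_r0_thrL0 : rowsOk stA3Z a3z_4 a3z_4_m0 false .thrL = true := by decide +kernel

def a3z_4_r0_thrL1 : rowsOk stA3Z a3z_4 a3z_4_m0 true .thrL = true := by decide +kernel

def a3z_4_r0_threeE0 : rowsOk stA3Z a3z_4 a3z_4_m0 false .threeE = true := by decide +kernel

def a3z_4_r0_threeE1 : rowsOk stA3Z a3z_4 a3z_4_m0 true .threeE = true := by decide +kernel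

def a3z_4_r0_ring0 : rowsOk stA3Z a3z_4 a3z_4_m0 false .ring = true := by decide +kernel

def a3z_4_r0_ring1 : rowsOk stA3Z a3z_4 a3z_4_m0 true .ring = true := by decide +kernel

def a3z_4_r1_one0 : rowsOk stA3Z a3z_4 a3z_4_m1 false .one = true := by decide +kernel

def a3z_4_r1_one1 : rowsOk stA3Z a3z_4 a3z_4_m1 true .one = true := by decide +kernel

def a3z_4_r1_two0 : rowsOk stA3Z a3z_4 a3z_4_m1 false .two = true := by decide +kernel

def a3z_4_r1_two1 : rowsOk stA3Z a3z_4 a3z_4_m1 true .two = true := by decide +kernel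

def a3z_4_r1_twoE0 : rowsOk stA3Z a3z_4 a3z_4_m1 false .twoE = true := by decide +kernel

def a3z_4_r1_twoE1 : rowsOk stA3Z a3z_4 a3z_4_m1 true .twoE = true := by decide +kernel

def a3z_4_r1_thrR0 : rowsOk stA3Z a3z_4 a3z_4_m1 false .thrR = true := by decide +kernel

def a3z_4_r1_thrR1 : rowsOk stA3Z a3z_4 a3z_4_m1 true .thrR = true := by decide +kernel

def a3z_4_r1_thrL0 : rowsOk stA3Z a3z_4 a3z_4_m1 false .thrL = true := by decide +kernel

def a3z_4_r1_thrL1 : rowsOk stA3Z a3z_4 a3z_4_m1 true .thrL = true := by decide +kernel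

def a3z_4_r1_threeE0 : rowsOk stA3Z a3z_4 a3z_4_m1 false .threeE = true := by decide +kernel

def a3z_4_r1_threeE1 : rowsOk stA3Z a3z_4 a3z_4_m1 true .threeE = true := by decide +kernel

def a3z_4_r1_ring0 : rowsOk stA3Z a3z_4 a3z_4_m1 false .ring = true := by decide +kernel

def a3z_4_r1_ring1 : rowsOk stA3Z a3z_4 a3z_4_m1 true .ring = true := by decide +kernel

def a3z_4_r2_one0 : rowsOk stA3Z a3z_4 a3z_4_m2 false .one = true := by decide +kernel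

def a3z_4_r2_one1 : rowsOk stA3Z a3z_4 a3z_4_m2 true .one = true := by decide +kernel

def a3z_4_r2_two0 : rowsOk stA3Z a3z_4 a3z_4_m2 false .two = true := by decide +kernel

def a3z_4_r2_two1 : rowsOk stA3Z a3z_4 a3z_4_m2 true .two = true := by decide +kernel

def a3z_4_r2_twoE0 : rowsOk stA3Z a3z_4 a3z_4_m2 false .twoE = true := by decide +kernel

def a3z_4_r2_twoE1 : rowsOk stA3Z a3z_4 a3z_4_m2 true .twoE = true := by decide +kernel

def a3z_4_r2_thrR0 : rowsOk stA3Z a3z_4 a3z_4_m2 false .thrR = true := by decide +kernel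

def a3z_4_r2_thrR1 : rowsOk stA3Z a3z_4 a3z_4_m2 true .thrR = true := by decide +kernel

def a3z_4_r2_thrL0 : rowsOk stA3Z a3z_4 a3z_4_m2 false .thrL = true := by decide +kernel

def a3z_4_r2_thrL1 : rowsOk stA3Z a3z_4 a3z_4_m2 true .thrL = true := by decide +kernel

def a3z_4_r2_threeE0 : rowsOk stA3Z a3z_4 a3z_4_m2 false .threeE = true := by decide +kernel

def a3z_4_r2_threeE1 : rowsOk stA3Z a3z_4 a3z_4_m2 true .threeE = true := by decide +kernel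

def a3z_4_r2_ring0 : rowsOk stA3Z a3z_4 a3z_4_m2 false .ring = true := by decide +kernel

def a3z_4_r2_ring1 : rowsOk stA3Z a3z_4 a3z_4_m2 true .ring = true := by decide +kernel

def a3z_4_r3_one0 : rowsOk stA3Z a3z_4 a3z_4_m3 false .one = true := by decide +kernel

def a3z_4_r3_one1 : rowsOk stA3Z a3z_4 a3z_4_m3 true .one = true := by decide +kernel

def a3z_4_r3_two0 : rowsOk stA3Z a3z_4 a3z_4_m3 false .two = true := by decide +kernel

def a3z_4_r3_two1 : rowsOk stA3Z a3z_4 a3z_4_m3 true .two = true := by decide +kernel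

def a3z_4_r3_twoE0 : rowsOk stA3Z a3z_4 a3z_4_m3 false .twoE = true := by decide +kernel

def a3z_4_r3_twoE1 : rowsOk stA3Z a3z_4 a3z_4_m3 true .twoE = true := by decide +kernel

def a3z_4_r3_thrR0 : rowsOk stA3Z a3z_4 a3z_4_m3 false .thrR = true := by decide +kernel

def a3z_4_r3_thrR1 : rowsOk stA3Z a3z_4 a3z_4_m3 true .thrR = true := by decide +kernel

def a3z_4_r3_thrL0 : rowsOk stA3Z a3z_4 a3z_4_m3 false .thrL = true := by decide +kernel

def a3z_4_r3_thrL1 : rowsOk stA3Z a3z_4 a3z_4_m3 true .thrL = true := by decide +kernel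

def a3z_4_r3_threeE0 : rowsOk stA3Z a3z_4 a3z_4_m3 false .threeE = true := by decide +kernel

def a3z_4_r3_threeE1 : rowsOk stA3Z a3z_4 a3z_4_m3 true .threeE = true := by decide +kernel

def a3z_4_r3_ring0 : rowsOk stA3Z a3z_4 a3z_4_m3 false .ring = true := by decide +kernel

def a3z_4_r3_ring1 : rowsOk stA3Z a3z_4 a3z_4_m3 true .ring = true := by decide +kernel

def a3z_4_r4_one0 : rowsOk stA3Z a3z_4 a3z_4_m4 false .one = true := by decide +kernel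

def a3z_4_r4_one1 : rowsOk stA3Z a3z_4 a3z_4_m4 true .one = true := by decide +kernel

def a3z_4_r4_two0 : rowsOk stA3Z a3z_4 a3z_4_m4 false .two = true := by decide +kernel

def a3z_4_r4_two1 : rowsOk stA3Z a3z_4 a3z_4_m4 true .two = true := by decide +kernel

def a3z_4_r4_twoE0 : rowsOk stA3Z a3z_4 a3z_4_m4 false .twoE = true := by decide +kernel

def a3z_4_r4_twoE1 : rowsOk stA3Z a3z_4 a3z_4_m4 true .twoE = true := by decide +kernel

def a3z_4_r4_thrR0 : rowsOk stA3Z a3z_4 a3z_4_m4 false .thrR = true := by decide +kernel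

def a3z_4_r4_thrR1 : rowsOk stA3Z a3z_4 a3z_4_m4 true .thrR = true := by decide +kernel

def a3z_4_r4_thrL0 : rowsOk stA3Z a3z_4 a3z_4_m4 false .thrL = true := by decide +kernel

def a3z_4_r4_thrL1 : rowsOk stA3Z a3z_4 a3z_4_m4 true .thrL = true := by decide +kernel

def a3z_4_r4_threeE0 : rowsOk stA3Z a3z_4 a3z_4_m4 false .threeE = true := by decide +kernel

def a3z_4_r4_threeE1 : rowsOk stA3Z a3z_4 a3z_4_m4 true .threeE = true := by decide +kernel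

def a3z_4_r4_ring0 : rowsOk stA3Z a3z_4 a3z_4_m4 false .ring = true := by decide +kernel

def a3z_4_r4_ring1 : rowsOk stA3Z a3z_4 a3z_4_m4 true .ring = true := by decide +kernel

def a3z_4_r5_one0 : rowsOk stA3Z a3z_4 a3z_4_m5 false .one = true := by decide +kernel

def a3z_4_r5_one1 : rowsOk stA3Z a3z_4 a3z_4_m5 true .one = true := by decide +kernel

def a3z_4_r5_two0 : rowsOk stA3Z a3z_4 a3z_4_m5 false .two = true := by decide +kernel

def a3z_4_r5_two1 : rowsOk stA3Z a3z_4 a3z_4_m5 true .two = true := by decide +kernel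

def a3z_4_r5_twoE0 : rowsOk stA3Z a3z_4 a3z_4_m5 false .twoE = true := by decide +kernel

def a3z_4_r5_twoE1 : rowsOk stA3Z a3z_4 a3z_4_m5 true .twoE = true := by decide +kernel

def a3z_4_r5_thrR0 : rowsOk stA3Z a3z_4 a3z_4_m5 false .thrR = true := by decide +kernel

def a3z_4_r5_thrR1 : rowsOk stA3Z a3z_4 a3z_4_m5 true .thrR = true := by decide +kernel

def a3z_4_r5_thrL0 : rowsOk stA3Z a3z_4 a3z_4_m5 false .thrL = true := by decide +kernel

def a3z_4_r5_thrL1 : rowsOk stA3Z a3z_4 a3z_4_m5 true .thrL = true := by decide +kernel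

def a3z_4_r5_threeE0 : rowsOk stA3Z a3z_4 a3z_4_m5 false .threeE = true := by decide +kernel

def a3z_4_r5_threeE1 : rowsOk stA3Z a3z_4 a3z_4_m5 true .threeE = true := by decide +kernel

def a3z_4_r5_ring0 : rowsOk stA3Z a3z_4 a3z_4_m5 false .ring = true := by decide +kernel

def a3z_4_r5_ring1 : rowsOk stA3Z a3z_4 a3z_4_m5 true .ring = true := by decide +kernel

theorem a3z_4_r0 : allRows stA3Z a3z_4 a3z_4_m0 = true := by
  refine allRows_of fun P => ?_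
  cases P
  exacts [⟨a3z_4_r0_one0, a3z_4_r0_one1⟩,
    ⟨a3z_4_r0_two0, a3z_4_r0_two1⟩,
    ⟨a3z_4_r0_twoE0, a3z_4_r0_twoE1⟩,
    ⟨a3z_4_r0_thrR0, a3z_4_r0_thrR1⟩,
    ⟨a3z_4_r0_thrL0, a3z_4_r0_thrL1⟩,
    ⟨a3z_4_r0_threeE0, a3z_4_r0_threeE1⟩,
    ⟨a3z_4_r0_ring0, a3z_4_r0_ring1⟩]

theorem a3z_4_r1 : allRows stA3Z a3z_4 a3z_4_m1 = true := by
  refine allRows_of fun P => ?_
  cases P
  exacts [⟨a3z_4_r1_one0, a3z_4_r1_one1⟩,
    ⟨a3z_4_r1_two0, a3z_4_r1_two1⟩,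
    ⟨a3z_4_r1_twoE0, a3z_4_r1_twoE1⟩,
    ⟨a3z_4_r1_thrR0, a3z_4_r1_thrR1⟩,
    ⟨a3z_4_r1_thrL0, a3z_4_r1_thrL1⟩,
    ⟨a3z_4_r1_threeE0, a3z_4_r1_threeE1⟩,
    ⟨a3z_4_r1_ring0, a3z_4_r1_ring1⟩]

theorem a3z_4_r2 : allRows stA3Z a3z_4 a3z_4_m2 = true := by
  refine allRows_of fun P => ?_
  cases P
  exacts [⟨a3z_4_r2_one0, a3z_4_r2_one1⟩,
    ⟨a3z_4_r2_two0, a3z_4_r2_two1⟩,
    ⟨a3z_4_r2_twoE0, a3z_4_r2_twoE1⟩,
    ⟨a3z_4_r2_thrR0, a3z_4_r2_thrR1⟩,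
    ⟨a3z_4_r2_thrL0, a3z_4_r2_thrL1⟩,
    ⟨a3z_4_r2_threeE0, a3z_4_r2_threeE1⟩,
    ⟨a3z_4_r2_ring0, a3z_4_r2_ring1⟩]

theorem a3z_4_r3 : allRows stA3Z a3z_4 a3z_4_m3 = true := by
  refine allRows_of fun P => ?_
  cases P
  exacts [⟨a3z_4_r3_one0, a3z_4_r3_one1⟩,
    ⟨a3z_4_r3_two0, a3z_4_r3_two1⟩,
    ⟨a3z_4_r3_twoE0, a3z_4_r3_twoE1⟩,
    ⟨a3z_4_r3_thrR0, a3z_4_r3_thrR1⟩,
    ⟨a3z_4_r3_thrL0, a3z_4_r3_thrL1⟩,
    ⟨a3z_4_r3_threeE0, a3z_4_r3_threeE1⟩,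
    ⟨a3z_4_r3_ring0, a3z_4_r3_ring1⟩]

theorem a3z_4_r4 : allRows stA3Z a3z_4 a3z_4_m4 = true := by
  refine allRows_of fun P => ?_
  cases P
  exacts [⟨a3z_4_r4_one0, a3z_4_r4_one1⟩,
    ⟨a3z_4_r4_two0, a3z_4_r4_two1⟩,
    ⟨a3z_4_r4_twoE0, a3z_4_r4_twoE1⟩,
    ⟨a3z_4_r4_thrR0, a3z_4_r4_thrR1⟩,
    ⟨a3z_4_r4_thrL0, a3z_4_r4_thrL1⟩,
    ⟨a3z_4_r4_threeE0, a3z_4_r4_threeE1⟩,
    ⟨a3z_4_r4_ring0, a3z_4_r4_ring1⟩]

theorem a3z_4_r5 : allRows stA3Z a3z_4 a3z_4_m5 = true := by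
  refine allRows_of fun P => ?_
  cases P
  exacts [⟨a3z_4_r5_one0, a3z_4_r5_one1⟩,
    ⟨a3z_4_r5_two0, a3z_4_r5_two1⟩,
    ⟨a3z_4_r5_twoE0, a3z_4_r5_twoE1⟩,
    ⟨a3z_4_r5_thrR0, a3z_4_r5_thrR1⟩,
    ⟨a3z_4_r5_thrL0, a3z_4_r5_thrL1⟩,
    ⟨a3z_4_r5_threeE0, a3z_4_r5_threeE1⟩,
    ⟨a3z_4_r5_ring0, a3z_4_r5_ring1⟩]

theorem a3z_4_ok : a3z_4.ok stA3Z = true := by
  have h : (PC.all.all fun P => PC.all.all fun Q => pairOk stA3Z a3z_4 P Q) = true := by decide +kernel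
  have d0 : mdOk stA3Z a3z_4_m0.md = true := by decide +kernel
  have d1 : mdOk stA3Z a3z_4_m1.md = true := by decide +kernel
  have d2 : mdOk stA3Z a3z_4_m2.md = true := by decide +kernel
  have d3 : mdOk stA3Z a3z_4_m3.md = true := by decide +kernel
  have d4 : mdOk stA3Z a3z_4_m4.md = true := by decide +kernel
  have d5 : mdOk stA3Z a3z_4_m5.md = true := by decide +kernel
  unfold Piece.ok
  rw [h, Bool.true_and]
  show List.all [a3z_4_m0, a3z_4_m1, a3z_4_m2, a3z_4_m3, a3z_4_m4, a3z_4_m5] _ = true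
  rw [List.all_eq_true]
  intro m hm
  simp only [List.mem_cons, List.not_mem_nil, or_false] at hm
  rcases hm with rfl | rfl | rfl | rfl | rfl | rfl
  · rw [a3z_4_r0, d0]; rfl
  · rw [a3z_4_r1, d1]; rfl
  · rw [a3z_4_r2, d2]; rfl
  · rw [a3z_4_r3, d3]; rfl
  · rw [a3z_4_r4, d4]; rfl
  · rw [a3z_4_r5, d5]; rfl

end OR

end Pool.Agent.Work.MP_b30479_gt.G2
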