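import Pool.Agent.Work.MP_b30479_gt.G2.OStA
import Pool.Agent.Work.MP_b30479_gt.G2.ORows

namespace Pool.Agent.Work.MP_b30479_gt.G2

namespace OR

/-- windows -/
def a3z_5_wp : PC → Win
  | .one => ⟨-890, 290, -820, 330, 0, 430⟩
  | .two => ⟨0, 0, 0, 0, 0, 0⟩
  | .twoE => ⟨0, 0, 0, 0, 0, 0⟩
  | .thrR => ⟨0, 0, 0, 0, 0, 0⟩
  | .thrL => ⟨0, 0, 0, 0, 0, 0⟩
  | .threeE => ⟨0, 0, 0, 0, 0, 0⟩
  | .ring => ⟨480, 1330, 470, 1500, 0, 610⟩

/-- windows -/
def a3z_5_wq : PC → Win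
  | .one => ⟨-890, 290, -820, 330, -610, 0⟩
  | .two => ⟨0, 0, 0, 0, 0, 0⟩
  | .twoE => ⟨0, 0, 0, 0, 0, 0⟩
  | .thrR => ⟨0, 0, 0, 0, 0, 0⟩
  | .thrL => ⟨0, 0, 0, 0, 0, 0⟩
  | .threeE => ⟨0, 0, 0, 0, 0, 0⟩
  | .ring => ⟨480, 1330, 470, 1500, -430, 0⟩

/-- mode -/
def a3z_5_m0 : Mode where
  md := .V 300 1000
  lam := 750
  ct := 2000
  gp := fun
    | .one => [⟨264, [8]⟩, ⟨1546, [8]⟩, ⟨-246, [557699]⟩, ⟨-1255, [2396420280169091, 557955, 8, 8, 9361019123762, 9361023907890]⟩, ⟨-2035, [0, 0, 0, 0, 143140914, 36644094514]⟩, ⟨-2035, [0, 0, 0, 0, 8, 8]⟩, ⟨-2035, [0, 0, 0, 0, 8, 8]⟩, e00]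
    | .two => [e00, e00, e00, e00, e00, e00]
    | .twoE => [e00, e00, e00, e00, e00, e00]
    | .thrR => [e00, e00, e00, e00, e00, e00]
    | .thrL => [e00, e00, e00, e00, e00, e00]
    | .threeE => [e00, e00, e00, e00, e00, e00]
    | .ring => [⟨1196, [557954]⟩, ⟨1196, [2179]⟩, ⟨1196, [8, 8, 8, 8, 8, 8]⟩, ⟨368, [0, 0, 0, 0, 143140914, 13]⟩, ⟨-575, [0, 0, 0, 0, 36649927458, 8]⟩, ⟨-2488, [0, 0, 0, 0, 2178, 2178]⟩]
  gq := fun
    | .one => [⟨181, [8]⟩, ⟨1584, [8]⟩, ⟨-329, [557699]⟩, ⟨-1272, [2396420280169091, 557955, 8, 8, 9361019123762, 2396420363597874]⟩, ⟨-2100, [0, 0, 0, 0, 143140914, 36644094770]⟩, ⟨-2100, [0, 0, 0, 0, 8, 8]⟩, ⟨-2100, [0, 0, 0, 0, 8, 2179]⟩, e00]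
    | .two => [e00, e00, e00, e00, e00, e00]
    | .twoE => [e00, e00, e00, e00, e00, e00]
    | .thrR => [e00, e00, e00, e00, e00, e00]
    | .thrL => [e00, e00, e00, e00, e00, e00]
    | .threeE => [e00, e00, e00, e00, e00, e00]
    | .ring => [⟨1131, [2178]⟩, ⟨1131, [2179]⟩, ⟨1131, [8, 8, 8, 8, 8, 8]⟩, ⟨351, [0, 0, 0, 0, 559154, 13]⟩, ⟨-658, [0, 0, 0, 0, 2401917916555314, 8]⟩, ⟨-2450, [0, 0, 0, 0, 2178, 2178]⟩]

/-- mode -/
def a3z_5_m1 : Mode where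
  md := .D
  lam := 500
  ct := 10000
  gp := fun
    | .one => [e00, ⟨-2115, [44206161504876192925868345487729442]⟩, ⟨-2115, [613477471394234931]⟩, e00, e00, e00, e00, e00]
    | .two => [e00, e00, e00, e00, e00, e00]
    | .twoE => [e00, e00, e00, e00, e00, e00]
    | .thrR => [e00, e00, e00, e00, e00, e00]
    | .thrL => [e00, e00, e00, e00, e00, e00]
    | .threeE => [e00, e00, e00, e00, e00, e00]
    | .ring => [⟨1486, [156906123653732139810]⟩, ⟨1486, [36532619283]⟩, e00, e00, e00, e00]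
  gq := fun
    | .one => [⟨-1750, [2179]⟩, ⟨-2090, [142837810]⟩, ⟨-2090, [40168039694257130842163]⟩, e00, e00, e00, e00, e00]
    | .two => [e00, e00, e00, e00, e00, e00]
    | .twoE => [e00, e00, e00, e00, e00, e00]
    | .thrR => [e00, e00, e00, e00, e00, e00]
    | .thrL => [e00, e00, e00, e00, e00, e00]
    | .threeE => [e00, e00, e00, e00, e00, e00]
    | .ring => [⟨1511, [613197095928825906]⟩, ⟨1511, [614760625528342579]⟩, e00, e00, e00, e00]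

/-- mode -/
def a3z_5_m2 : Mode where
  md := .V 550 1000
  lam := 250
  ct := 2000
  gp := fun
    | .one => [⟨-27, [2179]⟩, ⟨-197, [157051922597752111922]⟩, ⟨-197, [557699]⟩, ⟨-914, [9361016717955, 557955, 8, 8, 36645122691, 36649906819]⟩, e00, e00, e00, e00]
    | .two => [e00, e00, e00, e00, e00, e00]
    | .twoE => [e00, e00, e00, e00, e00, e00]
    | .thrR => [e00, e00, e00, e00, e00, e00]
    | .thrL => [e00, e00, e00, e00, e00, e00]
    | .threeE => [e00, e00, e00, e00, e00, e00]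
    | .ring => [⟨688, [557954]⟩, ⟨688, [2179]⟩, ⟨-32, [557443, 2179, 8, 8, 2179, 8]⟩, ⟨-32, [0, 0, 0, 0, 142837810, 13]⟩, e00, e00]
  gq := fun
    | .one => [⟨-102, [8]⟩, ⟨-272, [36566472754]⟩, ⟨-272, [557699]⟩, ⟨-992, [9361016717955, 557955, 8, 8, 9361019123762, 2396420363597874]⟩, e00, e00, e00, e00]
    | .two => [e00, e00, e00, e00, e00, e00]
    | .twoE => [e00, e00, e00, e00, e00, e00]
    | .thrR => [e00, e00, e00, e00, e00, e00]
    | .thrL => [e00, e00, e00, e00, e00, e00]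
    | .threeE => [e00, e00, e00, e00, e00, e00]
    | .ring => [⟨610, [557954]⟩, ⟨610, [2179]⟩, ⟨-107, [36532487043, 2179, 8, 8, 2179, 8]⟩, ⟨-107, [0, 0, 0, 0, 36566476850, 13]⟩, e00, e00]

/-- mode -/
def a3z_5_m3 : Mode where
  md := .V 150 1000
  lam := 0
  ct := 1000
  gp := fun
    | .one => [e00, e00, e00, e00, e00, e00, e00, ⟨-3408, [0, 0, 0, 0, 613478595239094322, 36566108210]⟩]
    | .two => [e00, e00, e00, e00, e00, e00]
    | .twoE => [e00, e00, e00, e00, e00, e00]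
    | .thrR => [e00, e00, e00, e00, e00, e00]
    | .thrL => [e00, e00, e00, e00, e00, e00]
    | .threeE => [e00, e00, e00, e00, e00, e00]
    | .ring => [⟨3509, [15577290536767829365415859344824828802]⟩, ⟨3509, [928478643870023540672152306563]⟩, ⟨3509, [40827584899, 557443, 8, 8, 2179, 8]⟩, ⟨3509, [0, 0, 0, 0, 559154, 13]⟩, ⟨3509, [0, 0, 0, 0, 8, 8]⟩, ⟨-185, [0, 0, 0, 0, 8, 8]⟩]
  gq := fun
    | .one => [e00, e00, e00, e00, e00, e00, e00, ⟨-3513, [0, 0, 0, 0, 2632447927444901909943040050, 2634892516486463143810336818]⟩]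
    | .two => [e00, e00, e00, e00, e00, e00]
    | .twoE => [e00, e00, e00, e00, e00, e00]
    | .thrR => [e00, e00, e00, e00, e00, e00]
    | .thrL => [e00, e00, e00, e00, e00, e00]
    | .threeE => [e00, e00, e00, e00, e00, e00]
    | .ring => [⟨3404, [557954]⟩, ⟨3404, [2179]⟩, ⟨3404, [8, 8, 8, 8, 8, 8]⟩, ⟨3404, [0, 0, 0, 0, 2178, 13]⟩, ⟨3404, [0, 0, 0, 0, 8, 8]⟩, ⟨-242, [0, 0, 0, 0, 8, 8]⟩]

/-- mode -/
def a3z_5_m4 : Mode where
  md := .V 450 1000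
  lam := 500
  ct := 2000
  gp := fun
    | .one => [e00, ⟨30, [2178]⟩, e00, e00, e00, e00, e00, e00]
    | .two => [e00, e00, e00, e00, e00, e00]
    | .twoE => [e00, e00, e00, e00, e00, e00]
    | .thrR => [e00, e00, e00, e00, e00, e00]
    | .thrL => [e00, e00, e00, e00, e00, e00]
    | .threeE => [e00, e00, e00, e00, e00, e00]
    | .ring => [e00, e00, e00, e00, ⟨-638, [0, 0, 0, 0, 2396396372656930, 3458]⟩, e00]
  gq := fun
    | .one => [e00, ⟨34, [2179]⟩, e00, e00, e00, e00, e00, e00]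
    | .two => [e00, e00, e00, e00, e00, e00]
    | .twoE => [e00, e00, e00, e00, e00, e00]
    | .thrR => [e00, e00, e00, e00, e00, e00]
    | .thrL => [e00, e00, e00, e00, e00, e00]
    | .threeE => [e00, e00, e00, e00, e00, e00]
    | .ring => [e00, e00, e00, e00, ⟨-634, [0, 0, 0, 0, 156906398939665826594, 3539]⟩, e00]

/-- mode -/
def a3z_5_m5 : Mode where
  md := .V 650 750
  lam := 250
  ct := 1500
  gp := fun
    | .one => [⟨-8, [36649973779]⟩, e00, e00, e00, e00, e00, e00, e00]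
    | .two => [e00, e00, e00, e00, e00, e00]
    | .twoE => [e00, e00, e00, e00, e00, e00]
    | .thrR => [e00, e00, e00, e00, e00, e00]
    | .thrL => [e00, e00, e00, e00, e00, e00]
    | .threeE => [e00, e00, e00, e00, e00, e00]
    | .ring => [e00, e00, e00, e00, e00, e00]
  gq := fun
    | .one => [e00, e00, e00, e00, e00, e00, e00, e00]
    | .two => [e00, e00, e00, e00, e00, e00]
    | .twoE => [e00, e00, e00, e00, e00, e00]
    | .thrR => [e00, e00, e00, e00, e00, e00]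
    | .thrL => [e00, e00, e00, e00, e00, e00]
    | .threeE => [e00, e00, e00, e00, e00, e00]
    | .ring => [⟨-126, [44307005523735256487324974028695602]⟩, ⟨-126, [10283102358208209610769283]⟩, e00, e00, e00, e00]

/-- piece -/
def a3z_5 : Piece := ⟨7750, 7810, 0, 820, a3z_5_wp, a3z_5_wq, [a3z_5_m0, a3z_5_m1, a3z_5_m2, a3z_5_m3, a3z_5_m4, a3z_5_m5]⟩

set_option linter.defProp false

def a3z_5_r0_one0 : rowsOk stA3Z a3z_5 a3z_5_m0 false .one = true := by decide +kernel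

def a3z_5_r0_one1 : rowsOk stA3Z a3z_5 a3z_5_m0 true .one = true := by decide +kernel

def a3z_5_r0_two0 : rowsOk stA3Z a3z_5 a3z_5_m0 false .two = true := by decide +kernel

def a3z_5_r0_two1 : rowsOk stA3Z a3z_5 a3z_5_m0 true .two = true := by decide +kernel

def a3z_5_r0_twoE0 : rowsOk stA3Z a3z_5 a3z_5_m0 false .twoE = true := by decide +kernel

def a3z_5_r0_twoE1 : rowsOk stA3Z a3z_5 a3z_5_m0 true .twoE = true := by decide +kernel

def a3z_5_r0_thrR0 : rowsOk stA3Z a3z_5 a3z_5_m0 false .thrR = true := by decide +kernel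

def a3z_5_r0_thrR1 : rowsOk stA3Z a3z_5 a3z_5_m0 true .thrR = true := by decide +kernel

def a3z_5_r0_thrL0 : rowsOk stA3Z a3z_5 a3z_5_m0 false .thrL = true := by decide +kernel

def a3z_5_r0_thrL1 : rowsOk stA3Z a3z_5 a3z_5_m0 true .thrL = true := by decide +kernel

def a3z_5_r0_threeE0 : rowsOk stA3Z a3z_5 a3z_5_m0 false .threeE = true := by decide +kernel

def a3z_5_r0_threeE1 : rowsOk stA3Z a3z_5 a3z_5_m0 true .threeE = true := by decide +kernel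

def a3z_5_r0_ring0 : rowsOk stA3Z a3z_5 a3z_5_m0 false .ring = true := by decide +kernel

def a3z_5_r0_ring1 : rowsOk stA3Z a3z_5 a3z_5_m0 true .ring = true := by decide +kernel

def a3z_5_r1_one0 : rowsOk stA3Z a3z_5 a3z_5_m1 false .one = true := by decide +kernel

def a3z_5_r1_one1 : rowsOk stA3Z a3z_5 a3z_5_m1 true .one = true := by decide +kernel

def a3z_5_r1_two0 : rowsOk stA3Z a3z_5 a3z_5_m1 false .two = true := by decide +kernel

def a3z_5_r1_two1 : rowsOk stA3Z a3z_5 a3z_5_m1 true .two = true := by decide +kernel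

def a3z_5_r1_twoE0 : rowsOk stA3Z a3z_5 a3z_5_m1 false .twoE = true := by decide +kernel

def a3z_5_r1_twoE1 : rowsOk stA3Z a3z_5 a3z_5_m1 true .twoE = true := by decide +kernel

def a3z_5_r1_thrR0 : rowsOk stA3Z a3z_5 a3z_5_m1 false .thrR = true := by decide +kernel

def a3z_5_r1_thrR1 : rowsOk stA3Z a3z_5 a3z_5_m1 true .thrR = true := by decide +kernel

def a3z_5_r1_thrL0 : rowsOk stA3Z a3z_5 a3z_5_m1 false .thrL = true := by decide +kernel

def a3z_5_r1_thrL1 : rowsOk stA3Z a3z_5 a3z_5_m1 true .thrL = true := by decide +kernel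

def a3z_5_r1_threeE0 : rowsOk stA3Z a3z_5 a3z_5_m1 false .threeE = true := by decide +kernel

def a3z_5_r1_threeE1 : rowsOk stA3Z a3z_5 a3z_5_m1 true .threeE = true := by decide +kernel

def a3z_5_r1_ring0 : rowsOk stA3Z a3z_5 a3z_5_m1 false .ring = true := by decide +kernel

def a3z_5_r1_ring1 : rowsOk stA3Z a3z_5 a3z_5_m1 true .ring = true := by decide +kernel

def a3z_5_r2_one0 : rowsOk stA3Z a3z_5 a3z_5_m2 false .one = true := by decide +kernel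

def a3z_5_r2_one1 : rowsOk stA3Z a3z_5 a3z_5_m2 true .one = true := by decide +kernel

def a3z_5_r2_two0 : rowsOk stA3Z a3z_5 a3z_5_m2 false .two = true := by decide +kernel

def a3z_5_r2_two1 : rowsOk stA3Z a3z_5 a3z_5_m2 true .two = true := by decide +kernel

def a3z_5_r2_twoE0 : rowsOk stA3Z a3z_5 a3z_5_m2 false .twoE = true := by decide +kernel

def a3z_5_r2_twoE1 : rowsOk stA3Z a3z_5 a3z_5_m2 true .twoE = true := by decide +kernel

def a3z_5_r2_thrR0 : rowsOk stA3Z a3z_5 a3z_5_m2 false .thrR = true := by decide +kernel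

def a3z_5_r2_thrR1 : rowsOk stA3Z a3z_5 a3z_5_m2 true .thrR = true := by decide +kernel

def a3z_5_r2_thrL0 : rowsOk stA3Z a3z_5 a3z_5_m2 false .thrL = true := by decide +kernel

def a3z_5_r2_thrL1 : rowsOk stA3Z a3z_5 a3z_5_m2 true .thrL = true := by decide +kernel

def a3z_5_r2_threeE0 : rowsOk stA3Z a3z_5 a3z_5_m2 false .threeE = true := by decide +kernel

def a3z_5_r2_threeE1 : rowsOk stA3Z a3z_5 a3z_5_m2 true .threeE = true := by decide +kernel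

def a3z_5_r2_ring0 : rowsOk stA3Z a3z_5 a3z_5_m2 false .ring = true := by decide +kernel

def a3z_5_r2_ring1 : rowsOk stA3Z a3z_5 a3z_5_m2 true .ring = true := by decide +kernel

def a3z_5_r3_one0 : rowsOk stA3Z a3z_5 a3z_5_m3 false .one = true := by decide +kernel

def a3z_5_r3_one1 : rowsOk stA3Z a3z_5 a3z_5_m3 true .one = true := by decide +kernel

def a3z_5_r3_two0 : rowsOk stA3Z a3z_5 a3z_5_m3 false .two = true := by decide +kernel

def a3z_5_r3_two1 : rowsOk stA3Z a3z_5 a3z_5_m3 true .two = true := by decide +kernel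

def a3z_5_r3_twoE0 : rowsOk stA3Z a3z_5 a3z_5_m3 false .twoE = true := by decide +kernel

def a3z_5_r3_twoE1 : rowsOk stA3Z a3z_5 a3z_5_m3 true .twoE = true := by decide +kernel

def a3z_5_r3_thrR0 : rowsOk stA3Z a3z_5 a3z_5_m3 false .thrR = true := by decide +kernel

def a3z_5_r3_thrR1 : rowsOk stA3Z a3z_5 a3z_5_m3 true .thrR = true := by decide +kernel

def a3z_5_r3_thrL0 : rowsOk stA3Z a3z_5 a3z_5_m3 false .thrL = true := by decide +kernel

def a3z_5_r3_thrL1 : rowsOk stA3Z a3z_5 a3z_5_m3 true .thrL = true := by decide +kernel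

def a3z_5_r3_threeE0 : rowsOk stA3Z a3z_5 a3z_5_m3 false .threeE = true := by decide +kernel

def a3z_5_r3_threeE1 : rowsOk stA3Z a3z_5 a3z_5_m3 true .threeE = true := by decide +kernel

def a3z_5_r3_ring0 : rowsOk stA3Z a3z_5 a3z_5_m3 false .ring = true := by decide +kernel

def a3z_5_r3_ring1 : rowsOk stA3Z a3z_5 a3z_5_m3 true .ring = true := by decide +kernel

def a3z_5_r4_one0 : rowsOk stA3Z a3z_5 a3z_5_m4 false .one = true := by decide +kernel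

def a3z_5_r4_one1 : rowsOk stA3Z a3z_5 a3z_5_m4 true .one = true := by decide +kernel

def a3z_5_r4_two0 : rowsOk stA3Z a3z_5 a3z_5_m4 false .two = true := by decide +kernel

def a3z_5_r4_two1 : rowsOk stA3Z a3z_5 a3z_5_m4 true .two = true := by decide +kernel

def a3z_5_r4_twoE0 : rowsOk stA3Z a3z_5 a3z_5_m4 false .twoE = true := by decide +kernel

def a3z_5_r4_twoE1 : rowsOk stA3Z a3z_5 a3z_5_m4 true .twoE = true := by decide +kernel

def a3z_5_r4_thrR0 : rowsOk stA3Z a3z_5 a3z_5_m4 false .thrR = true := by decide +kernel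

def a3z_5_r4_thrR1 : rowsOk stA3Z a3z_5 a3z_5_m4 true .thrR = true := by decide +kernel

def a3z_5_r4_thrL0 : rowsOk stA3Z a3z_5 a3z_5_m4 false .thrL = true := by decide +kernel

def a3z_5_r4_thrL1 : rowsOk stA3Z a3z_5 a3z_5_m4 true .thrL = true := by decide +kernel

def a3z_5_r4_threeE0 : rowsOk stA3Z a3z_5 a3z_5_m4 false .threeE = true := by decide +kernel

def a3z_5_r4_threeE1 : rowsOk stA3Z a3z_5 a3z_5_m4 true .threeE = true := by decide +kernel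

def a3z_5_r4_ring0 : rowsOk stA3Z a3z_5 a3z_5_m4 false .ring = true := by decide +kernel

def a3z_5_r4_ring1 : rowsOk stA3Z a3z_5 a3z_5_m4 true .ring = true := by decide +kernel

def a3z_5_r5_one0 : rowsOk stA3Z a3z_5 a3z_5_m5 false .one = true := by decide +kernel

def a3z_5_r5_one1 : rowsOk stA3Z a3z_5 a3z_5_m5 true .one = true := by decide +kernel

def a3z_5_r5_two0 : rowsOk stA3Z a3z_5 a3z_5_m5 false .two = true := by decide +kernel

def a3z_5_r5_two1 : rowsOk stA3Z a3z_5 a3z_5_m5 true .two = true := by decide +kernel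

def a3z_5_r5_twoE0 : rowsOk stA3Z a3z_5 a3z_5_m5 false .twoE = true := by decide +kernel

def a3z_5_r5_twoE1 : rowsOk stA3Z a3z_5 a3z_5_m5 true .twoE = true := by decide +kernel

def a3z_5_r5_thrR0 : rowsOk stA3Z a3z_5 a3z_5_m5 false .thrR = true := by decide +kernel

def a3z_5_r5_thrR1 : rowsOk stA3Z a3z_5 a3z_5_m5 true .thrR = true := by decide +kernel

def a3z_5_r5_thrL0 : rowsOk stA3Z a3z_5 a3z_5_m5 false .thrL = true := by decide +kernel

def a3z_5_r5_thrL1 : rowsOk stA3Z a3z_5 a3z_5_m5 true .thrL = true := by decide +kernel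

def a3z_5_r5_threeE0 : rowsOk stA3Z a3z_5 a3z_5_m5 false .threeE = true := by decide +kernel

def a3z_5_r5_threeE1 : rowsOk stA3Z a3z_5 a3z_5_m5 true .threeE = true := by decide +kernel

def a3z_5_r5_ring0 : rowsOk stA3Z a3z_5 a3z_5_m5 false .ring = true := by decide +kernel

def a3z_5_r5_ring1 : rowsOk stA3Z a3z_5 a3z_5_m5 true .ring = true := by decide +kernel

theorem a3z_5_r0 : allRows stA3Z a3z_5 a3z_5_m0 = true := by
  refine allRows_of fun P => ?_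
  cases P
  exacts [⟨a3z_5_r0_one0, a3z_5_r0_one1⟩,
    ⟨a3z_5_r0_two0, a3z_5_r0_two1⟩,
    ⟨a3z_5_r0_twoE0, a3z_5_r0_twoE1⟩,
    ⟨a3z_5_r0_thrR0, a3z_5_r0_thrR1⟩,
    ⟨a3z_5_r0_thrL0, a3z_5_r0_thrL1⟩,
    ⟨a3z_5_r0_threeE0, a3z_5_r0_threeE1⟩,
    ⟨a3z_5_r0_ring0, a3z_5_r0_ring1⟩]

theorem a3z_5_r1 : allRows stA3Z a3z_5 a3z_5_m1 = true := by
  refine allRows_of fun P => ?_
  cases P
  exacts [⟨a3z_5_r1_one0, a3z_5_r1_one1⟩,
    ⟨a3z_5_r1_two0, a3z_5_r1_two1⟩,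
    ⟨a3z_5_r1_twoE0, a3z_5_r1_twoE1⟩,
    ⟨a3z_5_r1_thrR0, a3z_5_r1_thrR1⟩,
    ⟨a3z_5_r1_thrL0, a3z_5_r1_thrL1⟩,
    ⟨a3z_5_r1_threeE0, a3z_5_r1_threeE1⟩,
    ⟨a3z_5_r1_ring0, a3z_5_r1_ring1⟩]

theorem a3z_5_r2 : allRows stA3Z a3z_5 a3z_5_m2 = true := by
  refine allRows_of fun P => ?_
  cases P
  exacts [⟨a3z_5_r2_one0, a3z_5_r2_one1⟩,
    ⟨a3z_5_r2_two0, a3z_5_r2_two1⟩,
    ⟨a3z_5_r2_twoE0, a3z_5_r2_twoE1⟩,
    ⟨a3z_5_r2_thrR0, a3z_5_r2_thrR1⟩,
    ⟨a3z_5_r2_thrL0, a3z_5_r2_thrL1⟩,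
    ⟨a3z_5_r2_threeE0, a3z_5_r2_threeE1⟩,
    ⟨a3z_5_r2_ring0, a3z_5_r2_ring1⟩]

theorem a3z_5_r3 : allRows stA3Z a3z_5 a3z_5_m3 = true := by
  refine allRows_of fun P => ?_
  cases P
  exacts [⟨a3z_5_r3_one0, a3z_5_r3_one1⟩,
    ⟨a3z_5_r3_two0, a3z_5_r3_two1⟩,
    ⟨a3z_5_r3_twoE0, a3z_5_r3_twoE1⟩,
    ⟨a3z_5_r3_thrR0, a3z_5_r3_thrR1⟩,
    ⟨a3z_5_r3_thrL0, a3z_5_r3_thrL1⟩,
    ⟨a3z_5_r3_threeE0, a3z_5_r3_threeE1⟩,
    ⟨a3z_5_r3_ring0, a3z_5_r3_ring1⟩]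

theorem a3z_5_r4 : allRows stA3Z a3z_5 a3z_5_m4 = true := by
  refine allRows_of fun P => ?_
  cases P
  exacts [⟨a3z_5_r4_one0, a3z_5_r4_one1⟩,
    ⟨a3z_5_r4_two0, a3z_5_r4_two1⟩,
    ⟨a3z_5_r4_twoE0, a3z_5_r4_twoE1⟩,
    ⟨a3z_5_r4_thrR0, a3z_5_r4_thrR1⟩,
    ⟨a3z_5_r4_thrL0, a3z_5_r4_thrL1⟩,
    ⟨a3z_5_r4_threeE0, a3z_5_r4_threeE1⟩,
    ⟨a3z_5_r4_ring0, a3z_5_r4_ring1⟩]

theorem a3z_5_r5 : allRows stA3Z a3z_5 a3z_5_m5 = true := by
  refine allRows_of fun P => ?_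
  cases P
  exacts [⟨a3z_5_r5_one0, a3z_5_r5_one1⟩,
    ⟨a3z_5_r5_two0, a3z_5_r5_two1⟩,
    ⟨a3z_5_r5_twoE0, a3z_5_r5_twoE1⟩,
    ⟨a3z_5_r5_thrR0, a3z_5_r5_thrR1⟩,
    ⟨a3z_5_r5_thrL0, a3z_5_r5_thrL1⟩,
    ⟨a3z_5_r5_threeE0, a3z_5_r5_threeE1⟩,
    ⟨a3z_5_r5_ring0, a3z_5_r5_ring1⟩]

theorem a3z_5_ok : a3z_5.ok stA3Z = true := by
  have h : (PC.all.all fun P => PC.all.all fun Q => pairOk stA3Z a3z_5 P Q) = true := by decide +kernel
  have d0 : mdOk stA3Z a3z_5_m0.md = true := by decide +kernel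
  have d1 : mdOk stA3Z a3z_5_m1.md = true := by decide +kernel
  have d2 : mdOk stA3Z a3z_5_m2.md = true := by decide +kernel
  have d3 : mdOk stA3Z a3z_5_m3.md = true := by decide +kernel
  have d4 : mdOk stA3Z a3z_5_m4.md = true := by decide +kernel
  have d5 : mdOk stA3Z a3z_5_m5.md = true := by decide +kernel
  unfold Piece.ok
  rw [h, Bool.true_and]
  show List.all [a3z_5_m0, a3z_5_m1, a3z_5_m2, a3z_5_m3, a3z_5_m4, a3z_5_m5] _ = true
  rw [List.all_eq_true]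
  intro m hm
  simp only [List.mem_cons, List.not_mem_nil, or_false] at hm
  rcases hm with rfl | rfl | rfl | rfl | rfl | rfl
  · rw [a3z_5_r0, d0]; rfl
  · rw [a3z_5_r1, d1]; rfl
  · rw [a3z_5_r2, d2]; rfl
  · rw [a3z_5_r3, d3]; rfl
  · rw [a3z_5_r4, d4]; rfl
  · rw [a3z_5_r5, d5]; rfl

end OR

end Pool.Agent.Work.MP_b30479_gt.G2
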