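import Pool.Agent.Work.MP_b30479_gt.G2.OStA
import Pool.Agent.Work.MP_b30479_gt.G2.ORows

namespace Pool.Agent.Work.MP_b30479_gt.G2

namespace OR

/-- windows -/
def a3z_7_wp : PC → Win
  | .one => ⟨-890, 290, -820, 330, 0, 430⟩
  | .two => ⟨0, 0, 0, 0, 0, 0⟩
  | .twoE => ⟨0, 0, 0, 0, 0, 0⟩
  | .thrR => ⟨0, 0, 0, 0, 0, 0⟩
  | .thrL => ⟨0, 0, 0, 0, 0, 0⟩
  | .threeE => ⟨0, 0, 0, 0, 0, 0⟩
  | .ring => ⟨480, 1330, 470, 1500, 0, 610⟩

/-- windows -/
def a3z_7_wq : PC → Win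
  | .one => ⟨-890, 290, -820, 330, -610, 0⟩
  | .two => ⟨0, 0, 0, 0, 0, 0⟩
  | .twoE => ⟨0, 0, 0, 0, 0, 0⟩
  | .thrR => ⟨0, 0, 0, 0, 0, 0⟩
  | .thrL => ⟨0, 0, 0, 0, 0, 0⟩
  | .threeE => ⟨0, 0, 0, 0, 0, 0⟩
  | .ring => ⟨480, 1330, 470, 1500, -430, 0⟩

/-- mode -/
def a3z_7_m0 : Mode where
  md := .V 300 1000
  lam := 750
  ct := 2000
  gp := fun
    | .one => [⟨2006, [8]⟩, ⟨1496, [8]⟩, ⟨-494, [9360923396146, 0, 0, 0, 0, 0]⟩, ⟨-1551, [36566479747, 142705539, 8, 8, 613484067127769138, 2396420900599858]⟩, ⟨-2084, [0, 0, 0, 0, 559154, 143163954]⟩, ⟨-2084, [0, 0, 0, 0, 8, 8]⟩, ⟨-2084, [0, 0, 0, 0, 8, 8]⟩, e00]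
    | .two => [e00, e00, e00, e00, e00, e00]
    | .twoE => [e00, e00, e00, e00, e00, e00]
    | .thrR => [e00, e00, e00, e00, e00, e00]
    | .thrL => [e00, e00, e00, e00, e00, e00]
    | .threeE => [e00, e00, e00, e00, e00, e00]
    | .ring => [⟨1271, [142705538]⟩, ⟨1271, [559154, 0, 0, 0, 0, 0]⟩, ⟨678, [40827584899, 2179, 8, 8, 2179, 8]⟩, ⟨678, [0, 0, 0, 0, 2179, 8]⟩, ⟨-521, [0, 0, 0, 0, 9382492472098, 8]⟩, ⟨-2432, [0, 0, 0, 0, 2178, 2178]⟩]
  gq := fun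
    | .one => [⟨127, [8]⟩, ⟨1528, [8]⟩, ⟨-383, [9360923396146, 0, 0, 0, 0, 0]⟩, ⟨-1582, [36566471555, 557955, 8, 8, 613484062832801842, 2396420900599858]⟩, ⟨-2175, [0, 0, 0, 0, 559154, 143163954]⟩, ⟨-2175, [0, 0, 0, 0, 8, 8]⟩, ⟨-2175, [0, 0, 0, 0, 8, 2179]⟩, e00]
    | .two => [e00, e00, e00, e00, e00, e00]
    | .twoE => [e00, e00, e00, e00, e00, e00]
    | .thrR => [e00, e00, e00, e00, e00, e00]
    | .thrL => [e00, e00, e00, e00, e00, e00]
    | .threeE => [e00, e00, e00, e00, e00, e00]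
    | .ring => [⟨1180, [557954]⟩, ⟨1180, [2178, 0, 0, 0, 0, 0]⟩, ⟨647, [8, 8, 8, 8, 2179, 8]⟩, ⟨647, [0, 0, 0, 0, 2179, 8]⟩, ⟨-410, [0, 0, 0, 0, 143140914, 8]⟩, ⟨-2400, [0, 0, 0, 0, 2178, 2178]⟩]

/-- mode -/
def a3z_7_m1 : Mode where
  md := .V 600 1000
  lam := 250
  ct := 2500
  gp := fun
    | .one => [⟨-142, [2179]⟩, ⟨-312, [613484071154627122]⟩, ⟨-662, [2394201644042290, 0, 0, 0, 0, 0]⟩, ⟨-662, [557955, 557955, 8, 8, 2396420900599858, 2396420900599858]⟩, e00, e00, e00, e00]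
    | .two => [e00, e00, e00, e00, e00, e00]
    | .twoE => [e00, e00, e00, e00, e00, e00]
    | .thrR => [e00, e00, e00, e00, e00, e00]
    | .thrL => [e00, e00, e00, e00, e00, e00]
    | .threeE => [e00, e00, e00, e00, e00, e00]
    | .ring => [⟨85, [9352333461554]⟩, ⟨48, [2396422125328434, 0, 0, 0, 0, 0]⟩, ⟨48, [2179, 8, 8, 8, 2179, 8]⟩, ⟨48, [0, 0, 0, 0, 142772259, 8]⟩, e00, e00]
  gq := fun
    | .one => [⟨-219, [2179]⟩, ⟨-352, [2396422119391794]⟩, ⟨-389, [9360923396146, 0, 0, 0, 0, 0]⟩, ⟨-389, [557955, 557955, 8, 8, 2396420900599858, 2396420900599858]⟩, e00, e00, e00, e00]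
    | .two => [e00, e00, e00, e00, e00, e00]
    | .twoE => [e00, e00, e00, e00, e00, e00]
    | .thrR => [e00, e00, e00, e00, e00, e00]
    | .thrL => [e00, e00, e00, e00, e00, e00]
    | .threeE => [e00, e00, e00, e00, e00, e00]
    | .ring => [⟨358, [557954]⟩, ⟨358, [142837810, 0, 0, 0, 0, 0]⟩, ⟨8, [143143299, 2179, 2179, 8, 142705539, 8]⟩, e00, e00, e00]

/-- mode -/
def a3z_7_m2 : Mode where
  md := .V 150 1000
  lam := 0
  ct := 1000
  gp := fun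
    | .one => [e00, e00, e00, e00, e00, e00, e00, ⟨-3338, [0, 0, 0, 0, 2640537343127386353236977714, 2401554627987506]⟩]
    | .two => [e00, e00, e00, e00, e00, e00]
    | .twoE => [e00, e00, e00, e00, e00, e00]
    | .thrR => [e00, e00, e00, e00, e00, e00]
    | .thrL => [e00, e00, e00, e00, e00, e00]
    | .threeE => [e00, e00, e00, e00, e00, e00]
    | .ring => [⟨3447, [18853361026594037823820158872070615152555155733501737689122850]⟩, ⟨3447, [72804916823372664264156083718248383395303790858918293618850419200267348736823343154, 0, 0, 0, 0, 0]⟩, ⟨3447, [40861139331, 40861008259, 40861139329, 8, 40827584899, 8]⟩, ⟨3447, [0, 0, 0, 0, 36644074115, 8]⟩, ⟨3447, [0, 0, 0, 0, 8, 8]⟩, ⟨-133, [0, 0, 0, 0, 8, 8]⟩]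
  gq := fun
    | .one => [e00, e00, e00, e00, e00, e00, e00, ⟨-3451, [0, 0, 0, 0, 12442935045992888601026754449742974261017920944178, 2897094999932801111841375781295781742626]⟩]
    | .two => [e00, e00, e00, e00, e00, e00]
    | .twoE => [e00, e00, e00, e00, e00, e00]
    | .thrR => [e00, e00, e00, e00, e00, e00]
    | .thrL => [e00, e00, e00, e00, e00, e00]
    | .threeE => [e00, e00, e00, e00, e00, e00]
    | .ring => [⟨3334, [557954]⟩, ⟨3334, [559154, 0, 0, 0, 0, 0]⟩, ⟨3334, [8, 8, 8, 8, 8, 8]⟩, ⟨3334, [0, 0, 0, 0, 2178, 8]⟩, ⟨3334, [0, 0, 0, 0, 8, 8]⟩, ⟨-177, [0, 0, 0, 0, 8, 8]⟩]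

/-- mode -/
def a3z_7_m3 : Mode where
  md := .D
  lam := 0
  ct := 12000
  gp := fun
    | .one => [e00, ⟨-3509, [229426157792866325166844599155106930823675248581691935398754209964834]⟩, e00, e00, e00, e00, e00, e00]
    | .two => [e00, e00, e00, e00, e00, e00]
    | .twoE => [e00, e00, e00, e00, e00, e00]
    | .thrR => [e00, e00, e00, e00, e00, e00]
    | .thrL => [e00, e00, e00, e00, e00, e00]
    | .threeE => [e00, e00, e00, e00, e00, e00]
    | .ring => [⟨2557, [2394197443446834]⟩, e00, e00, e00, e00, e00]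
  gq := fun
    | .one => [e00, ⟨-2561, [2396420817041458]⟩, e00, e00, e00, e00, e00, e00]
    | .two => [e00, e00, e00, e00, e00, e00]
    | .twoE => [e00, e00, e00, e00, e00, e00]
    | .thrR => [e00, e00, e00, e00, e00, e00]
    | .thrL => [e00, e00, e00, e00, e00, e00]
    | .threeE => [e00, e00, e00, e00, e00, e00]
    | .ring => [⟨3505, [613197100129723266]⟩, e00, e00, e00, e00, e00]

/-- mode -/
def a3z_7_m4 : Mode where
  md := .V 450 1000
  lam := 500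
  ct := 2500
  gp := fun
    | .one => [⟨-33, [8]⟩, ⟨-373, [9361018094386]⟩, ⟨-373, [36566107010, 0, 0, 0, 0, 0]⟩, e00, e00, e00, e00, e00]
    | .two => [e00, e00, e00, e00, e00, e00]
    | .twoE => [e00, e00, e00, e00, e00, e00]
    | .thrR => [e00, e00, e00, e00, e00, e00]
    | .thrL => [e00, e00, e00, e00, e00, e00]
    | .threeE => [e00, e00, e00, e00, e00, e00]
    | .ring => [e00, e00, e00, e00, ⟨-588, [0, 0, 0, 0, 614762800392733474, 3458]⟩, e00]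
  gq := fun
    | .one => [e00, ⟨-16, [2178]⟩, e00, e00, e00, e00, e00, e00]
    | .two => [e00, e00, e00, e00, e00, e00]
    | .twoE => [e00, e00, e00, e00, e00, e00]
    | .thrR => [e00, e00, e00, e00, e00, e00]
    | .thrL => [e00, e00, e00, e00, e00, e00]
    | .threeE => [e00, e00, e00, e00, e00, e00]
    | .ring => [e00, e00, e00, ⟨-231, [0, 0, 0, 0, 9382381429379, 8]⟩, ⟨-231, [0, 0, 0, 0, 613477471299863330, 3458]⟩, e00]

/-- mode -/
def a3z_7_m5 : Mode where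
  md := .V 650 750
  lam := 250
  ct := 2000
  gp := fun
    | .one => [⟨-194, [9382493651235]⟩, e00, e00, e00, e00, e00, e00, e00]
    | .two => [e00, e00, e00, e00, e00, e00]
    | .twoE => [e00, e00, e00, e00, e00, e00]
    | .thrR => [e00, e00, e00, e00, e00, e00]
    | .thrL => [e00, e00, e00, e00, e00, e00]
    | .threeE => [e00, e00, e00, e00, e00, e00]
    | .ring => [e00, e00, e00, e00, e00, e00]
  gq := fun
    | .one => [e00, e00, e00, e00, e00, e00, e00, e00]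
    | .two => [e00, e00, e00, e00, e00, e00]
    | .twoE => [e00, e00, e00, e00, e00, e00]
    | .thrR => [e00, e00, e00, e00, e00, e00]
    | .thrL => [e00, e00, e00, e00, e00, e00]
    | .threeE => [e00, e00, e00, e00, e00, e00]
    | .ring => [⟨60, [2640905573500444201361573938]⟩, ⟨60, [44165225304034013617477697106622514, 0, 0, 0, 0, 0]⟩, e00, e00, e00, e00]

/-- mode -/
def a3z_7_m6 : Mode where
  md := .V 650 750
  lam := 0
  ct := 1500
  gp := fun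
    | .one => [e00, ⟨-203, [815459591908844344229110251448790810554182908007428643]⟩, e00, e00, e00, e00, e00, e00]
    | .two => [e00, e00, e00, e00, e00, e00]
    | .twoE => [e00, e00, e00, e00, e00, e00]
    | .thrR => [e00, e00, e00, e00, e00, e00]
    | .thrL => [e00, e00, e00, e00, e00, e00]
    | .threeE => [e00, e00, e00, e00, e00, e00]
    | .ring => [e00, e00, e00, e00, e00, e00]
  gq := fun
    | .one => [e00, e00, e00, e00, e00, e00, e00, e00]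
    | .two => [e00, e00, e00, e00, e00, e00]
    | .twoE => [e00, e00, e00, e00, e00, e00]
    | .thrR => [e00, e00, e00, e00, e00, e00]
    | .thrL => [e00, e00, e00, e00, e00, e00]
    | .threeE => [e00, e00, e00, e00, e00, e00]
    | .ring => [e00, ⟨199, [189688198301288838362431562559385963073124402, 0, 0, 0, 0, 0]⟩, e00, e00, e00, e00]

/-- piece -/
def a3z_7 : Piece := ⟨7870, 7940, 0, 820, a3z_7_wp, a3z_7_wq, [a3z_7_m0, a3z_7_m1, a3z_7_m2, a3z_7_m3, a3z_7_m4, a3z_7_m5, a3z_7_m6]⟩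

set_option linter.defProp false

def a3z_7_r0_one0 : rowsOk stA3Z a3z_7 a3z_7_m0 false .one = true := by decide +kernel

def a3z_7_r0_one1 : rowsOk stA3Z a3z_7 a3z_7_m0 true .one = true := by decide +kernel

def a3z_7_r0_two0 : rowsOk stA3Z a3z_7 a3z_7_m0 false .two = true := by decide +kernel

def a3z_7_r0_two1 : rowsOk stA3Z a3z_7 a3z_7_m0 true .two = true := by decide +kernel

def a3z_7_r0_twoE0 : rowsOk stA3Z a3z_7 a3z_7_m0 false .twoE = true := by decide +kernel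

def a3z_7_r0_twoE1 : rowsOk stA3Z a3z_7 a3z_7_m0 true .twoE = true := by decide +kernel

def a3z_7_r0_thrR0 : rowsOk stA3Z a3z_7 a3z_7_m0 false .thrR = true := by decide +kernel

def a3z_7_r0_thrR1 : rowsOk stA3Z a3z_7 a3z_7_m0 true .thrR = true := by decide +kernel

def a3z_7_r0_thrL0 : rowsOk stA3Z a3z_7 a3z_7_m0 false .thrL = true := by decide +kernel

def a3z_7_r0_thrL1 : rowsOk stA3Z a3z_7 a3z_7_m0 true .thrL = true := by decide +kernel

def a3z_7_r0_threeE0 : rowsOk stA3Z a3z_7 a3z_7_m0 false .threeE = true := by decide +kernel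

def a3z_7_r0_threeE1 : rowsOk stA3Z a3z_7 a3z_7_m0 true .threeE = true := by decide +kernel

def a3z_7_r0_ring0 : rowsOk stA3Z a3z_7 a3z_7_m0 false .ring = true := by decide +kernel

def a3z_7_r0_ring1 : rowsOk stA3Z a3z_7 a3z_7_m0 true .ring = true := by decide +kernel

def a3z_7_r1_one0 : rowsOk stA3Z a3z_7 a3z_7_m1 false .one = true := by decide +kernel

def a3z_7_r1_one1 : rowsOk stA3Z a3z_7 a3z_7_m1 true .one = true := by decide +kernel

def a3z_7_r1_two0 : rowsOk stA3Z a3z_7 a3z_7_m1 false .two = true := by decide +kernel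

def a3z_7_r1_two1 : rowsOk stA3Z a3z_7 a3z_7_m1 true .two = true := by decide +kernel

def a3z_7_r1_twoE0 : rowsOk stA3Z a3z_7 a3z_7_m1 false .twoE = true := by decide +kernel

def a3z_7_r1_twoE1 : rowsOk stA3Z a3z_7 a3z_7_m1 true .twoE = true := by decide +kernel

def a3z_7_r1_thrR0 : rowsOk stA3Z a3z_7 a3z_7_m1 false .thrR = true := by decide +kernel

def a3z_7_r1_thrR1 : rowsOk stA3Z a3z_7 a3z_7_m1 true .thrR = true := by decide +kernel

def a3z_7_r1_thrL0 : rowsOk stA3Z a3z_7 a3z_7_m1 false .thrL = true := by decide +kernel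

def a3z_7_r1_thrL1 : rowsOk stA3Z a3z_7 a3z_7_m1 true .thrL = true := by decide +kernel

def a3z_7_r1_threeE0 : rowsOk stA3Z a3z_7 a3z_7_m1 false .threeE = true := by decide +kernel

def a3z_7_r1_threeE1 : rowsOk stA3Z a3z_7 a3z_7_m1 true .threeE = true := by decide +kernel

def a3z_7_r1_ring0 : rowsOk stA3Z a3z_7 a3z_7_m1 false .ring = true := by decide +kernel

def a3z_7_r1_ring1 : rowsOk stA3Z a3z_7 a3z_7_m1 true .ring = true := by decide +kernel

def a3z_7_r2_one0 : rowsOk stA3Z a3z_7 a3z_7_m2 false .one = true := by decide +kernel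

def a3z_7_r2_one1 : rowsOk stA3Z a3z_7 a3z_7_m2 true .one = true := by decide +kernel

def a3z_7_r2_two0 : rowsOk stA3Z a3z_7 a3z_7_m2 false .two = true := by decide +kernel

def a3z_7_r2_two1 : rowsOk stA3Z a3z_7 a3z_7_m2 true .two = true := by decide +kernel

def a3z_7_r2_twoE0 : rowsOk stA3Z a3z_7 a3z_7_m2 false .twoE = true := by decide +kernel

def a3z_7_r2_twoE1 : rowsOk stA3Z a3z_7 a3z_7_m2 true .twoE = true := by decide +kernel

def a3z_7_r2_thrR0 : rowsOk stA3Z a3z_7 a3z_7_m2 false .thrR = true := by decide +kernel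

def a3z_7_r2_thrR1 : rowsOk stA3Z a3z_7 a3z_7_m2 true .thrR = true := by decide +kernel

def a3z_7_r2_thrL0 : rowsOk stA3Z a3z_7 a3z_7_m2 false .thrL = true := by decide +kernel

def a3z_7_r2_thrL1 : rowsOk stA3Z a3z_7 a3z_7_m2 true .thrL = true := by decide +kernel

def a3z_7_r2_threeE0 : rowsOk stA3Z a3z_7 a3z_7_m2 false .threeE = true := by decide +kernel

def a3z_7_r2_threeE1 : rowsOk stA3Z a3z_7 a3z_7_m2 true .threeE = true := by decide +kernel

def a3z_7_r2_ring0 : rowsOk stA3Z a3z_7 a3z_7_m2 false .ring = true := by decide +kernel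

def a3z_7_r2_ring1 : rowsOk stA3Z a3z_7 a3z_7_m2 true .ring = true := by decide +kernel

def a3z_7_r3_one0 : rowsOk stA3Z a3z_7 a3z_7_m3 false .one = true := by decide +kernel

def a3z_7_r3_one1 : rowsOk stA3Z a3z_7 a3z_7_m3 true .one = true := by decide +kernel

def a3z_7_r3_two0 : rowsOk stA3Z a3z_7 a3z_7_m3 false .two = true := by decide +kernel

def a3z_7_r3_two1 : rowsOk stA3Z a3z_7 a3z_7_m3 true .two = true := by decide +kernel

def a3z_7_r3_twoE0 : rowsOk stA3Z a3z_7 a3z_7_m3 false .twoE = true := by decide +kernel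

def a3z_7_r3_twoE1 : rowsOk stA3Z a3z_7 a3z_7_m3 true .twoE = true := by decide +kernel

def a3z_7_r3_thrR0 : rowsOk stA3Z a3z_7 a3z_7_m3 false .thrR = true := by decide +kernel

def a3z_7_r3_thrR1 : rowsOk stA3Z a3z_7 a3z_7_m3 true .thrR = true := by decide +kernel

def a3z_7_r3_thrL0 : rowsOk stA3Z a3z_7 a3z_7_m3 false .thrL = true := by decide +kernel

def a3z_7_r3_thrL1 : rowsOk stA3Z a3z_7 a3z_7_m3 true .thrL = true := by decide +kernel

def a3z_7_r3_threeE0 : rowsOk stA3Z a3z_7 a3z_7_m3 false .threeE = true := by decide +kernel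

def a3z_7_r3_threeE1 : rowsOk stA3Z a3z_7 a3z_7_m3 true .threeE = true := by decide +kernel

def a3z_7_r3_ring0 : rowsOk stA3Z a3z_7 a3z_7_m3 false .ring = true := by decide +kernel

def a3z_7_r3_ring1 : rowsOk stA3Z a3z_7 a3z_7_m3 true .ring = true := by decide +kernel

def a3z_7_r4_one0 : rowsOk stA3Z a3z_7 a3z_7_m4 false .one = true := by decide +kernel

def a3z_7_r4_one1 : rowsOk stA3Z a3z_7 a3z_7_m4 true .one = true := by decide +kernel

def a3z_7_r4_two0 : rowsOk stA3Z a3z_7 a3z_7_m4 false .two = true := by decide +kernel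

def a3z_7_r4_two1 : rowsOk stA3Z a3z_7 a3z_7_m4 true .two = true := by decide +kernel

def a3z_7_r4_twoE0 : rowsOk stA3Z a3z_7 a3z_7_m4 false .twoE = true := by decide +kernel

def a3z_7_r4_twoE1 : rowsOk stA3Z a3z_7 a3z_7_m4 true .twoE = true := by decide +kernel

def a3z_7_r4_thrR0 : rowsOk stA3Z a3z_7 a3z_7_m4 false .thrR = true := by decide +kernel

def a3z_7_r4_thrR1 : rowsOk stA3Z a3z_7 a3z_7_m4 true .thrR = true := by decide +kernel

def a3z_7_r4_thrL0 : rowsOk stA3Z a3z_7 a3z_7_m4 false .thrL = true := by decide +kernel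

def a3z_7_r4_thrL1 : rowsOk stA3Z a3z_7 a3z_7_m4 true .thrL = true := by decide +kernel

def a3z_7_r4_threeE0 : rowsOk stA3Z a3z_7 a3z_7_m4 false .threeE = true := by decide +kernel

def a3z_7_r4_threeE1 : rowsOk stA3Z a3z_7 a3z_7_m4 true .threeE = true := by decide +kernel

def a3z_7_r4_ring0 : rowsOk stA3Z a3z_7 a3z_7_m4 false .ring = true := by decide +kernel

def a3z_7_r4_ring1 : rowsOk stA3Z a3z_7 a3z_7_m4 true .ring = true := by decide +kernel

def a3z_7_r5_one0 : rowsOk stA3Z a3z_7 a3z_7_m5 false .one = true := by decide +kernel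

def a3z_7_r5_one1 : rowsOk stA3Z a3z_7 a3z_7_m5 true .one = true := by decide +kernel

def a3z_7_r5_two0 : rowsOk stA3Z a3z_7 a3z_7_m5 false .two = true := by decide +kernel

def a3z_7_r5_two1 : rowsOk stA3Z a3z_7 a3z_7_m5 true .two = true := by decide +kernel

def a3z_7_r5_twoE0 : rowsOk stA3Z a3z_7 a3z_7_m5 false .twoE = true := by decide +kernel

def a3z_7_r5_twoE1 : rowsOk stA3Z a3z_7 a3z_7_m5 true .twoE = true := by decide +kernel

def a3z_7_r5_thrR0 : rowsOk stA3Z a3z_7 a3z_7_m5 false .thrR = true := by decide +kernel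

def a3z_7_r5_thrR1 : rowsOk stA3Z a3z_7 a3z_7_m5 true .thrR = true := by decide +kernel

def a3z_7_r5_thrL0 : rowsOk stA3Z a3z_7 a3z_7_m5 false .thrL = true := by decide +kernel

def a3z_7_r5_thrL1 : rowsOk stA3Z a3z_7 a3z_7_m5 true .thrL = true := by decide +kernel

def a3z_7_r5_threeE0 : rowsOk stA3Z a3z_7 a3z_7_m5 false .threeE = true := by decide +kernel

def a3z_7_r5_threeE1 : rowsOk stA3Z a3z_7 a3z_7_m5 true .threeE = true := by decide +kernel

def a3z_7_r5_ring0 : rowsOk stA3Z a3z_7 a3z_7_m5 false .ring = true := by decide +kernel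

def a3z_7_r5_ring1 : rowsOk stA3Z a3z_7 a3z_7_m5 true .ring = true := by decide +kernel

def a3z_7_r6_one0 : rowsOk stA3Z a3z_7 a3z_7_m6 false .one = true := by decide +kernel

def a3z_7_r6_one1 : rowsOk stA3Z a3z_7 a3z_7_m6 true .one = true := by decide +kernel

def a3z_7_r6_two0 : rowsOk stA3Z a3z_7 a3z_7_m6 false .two = true := by decide +kernel

def a3z_7_r6_two1 : rowsOk stA3Z a3z_7 a3z_7_m6 true .two = true := by decide +kernel

def a3z_7_r6_twoE0 : rowsOk stA3Z a3z_7 a3z_7_m6 false .twoE = true := by decide +kernel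

def a3z_7_r6_twoE1 : rowsOk stA3Z a3z_7 a3z_7_m6 true .twoE = true := by decide +kernel

def a3z_7_r6_thrR0 : rowsOk stA3Z a3z_7 a3z_7_m6 false .thrR = true := by decide +kernel

def a3z_7_r6_thrR1 : rowsOk stA3Z a3z_7 a3z_7_m6 true .thrR = true := by decide +kernel

def a3z_7_r6_thrL0 : rowsOk stA3Z a3z_7 a3z_7_m6 false .thrL = true := by decide +kernel

def a3z_7_r6_thrL1 : rowsOk stA3Z a3z_7 a3z_7_m6 true .thrL = true := by decide +kernel

def a3z_7_r6_threeE0 : rowsOk stA3Z a3z_7 a3z_7_m6 false .threeE = true := by decide +kernel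

def a3z_7_r6_threeE1 : rowsOk stA3Z a3z_7 a3z_7_m6 true .threeE = true := by decide +kernel

def a3z_7_r6_ring0 : rowsOk stA3Z a3z_7 a3z_7_m6 false .ring = true := by decide +kernel

def a3z_7_r6_ring1 : rowsOk stA3Z a3z_7 a3z_7_m6 true .ring = true := by decide +kernel

theorem a3z_7_r0 : allRows stA3Z a3z_7 a3z_7_m0 = true := by
  refine allRows_of fun P => ?_
  cases P
  exacts [⟨a3z_7_r0_one0, a3z_7_r0_one1⟩,
    ⟨a3z_7_r0_two0, a3z_7_r0_two1⟩,
    ⟨a3z_7_r0_twoE0, a3z_7_r0_twoE1⟩,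
    ⟨a3z_7_r0_thrR0, a3z_7_r0_thrR1⟩,
    ⟨a3z_7_r0_thrL0, a3z_7_r0_thrL1⟩,
    ⟨a3z_7_r0_threeE0, a3z_7_r0_threeE1⟩,
    ⟨a3z_7_r0_ring0, a3z_7_r0_ring1⟩]

theorem a3z_7_r1 : allRows stA3Z a3z_7 a3z_7_m1 = true := by
  refine allRows_of fun P => ?_
  cases P
  exacts [⟨a3z_7_r1_one0, a3z_7_r1_one1⟩,
    ⟨a3z_7_r1_two0, a3z_7_r1_two1⟩,
    ⟨a3z_7_r1_twoE0, a3z_7_r1_twoE1⟩,
    ⟨a3z_7_r1_thrR0, a3z_7_r1_thrR1⟩,
    ⟨a3z_7_r1_thrL0, a3z_7_r1_thrL1⟩,
    ⟨a3z_7_r1_threeE0, a3z_7_r1_threeE1⟩,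
    ⟨a3z_7_r1_ring0, a3z_7_r1_ring1⟩]

theorem a3z_7_r2 : allRows stA3Z a3z_7 a3z_7_m2 = true := by
  refine allRows_of fun P => ?_
  cases P
  exacts [⟨a3z_7_r2_one0, a3z_7_r2_one1⟩,
    ⟨a3z_7_r2_two0, a3z_7_r2_two1⟩,
    ⟨a3z_7_r2_twoE0, a3z_7_r2_twoE1⟩,
    ⟨a3z_7_r2_thrR0, a3z_7_r2_thrR1⟩,
    ⟨a3z_7_r2_thrL0, a3z_7_r2_thrL1⟩,
    ⟨a3z_7_r2_threeE0, a3z_7_r2_threeE1⟩,
    ⟨a3z_7_r2_ring0, a3z_7_r2_ring1⟩]

theorem a3z_7_r3 : allRows stA3Z a3z_7 a3z_7_m3 = true := by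
  refine allRows_of fun P => ?_
  cases P
  exacts [⟨a3z_7_r3_one0, a3z_7_r3_one1⟩,
    ⟨a3z_7_r3_two0, a3z_7_r3_two1⟩,
    ⟨a3z_7_r3_twoE0, a3z_7_r3_twoE1⟩,
    ⟨a3z_7_r3_thrR0, a3z_7_r3_thrR1⟩,
    ⟨a3z_7_r3_thrL0, a3z_7_r3_thrL1⟩,
    ⟨a3z_7_r3_threeE0, a3z_7_r3_threeE1⟩,
    ⟨a3z_7_r3_ring0, a3z_7_r3_ring1⟩]

theorem a3z_7_r4 : allRows stA3Z a3z_7 a3z_7_m4 = true := by
  refine allRows_of fun P => ?_
  cases P
  exacts [⟨a3z_7_r4_one0, a3z_7_r4_one1⟩,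
    ⟨a3z_7_r4_two0, a3z_7_r4_two1⟩,
    ⟨a3z_7_r4_twoE0, a3z_7_r4_twoE1⟩,
    ⟨a3z_7_r4_thrR0, a3z_7_r4_thrR1⟩,
    ⟨a3z_7_r4_thrL0, a3z_7_r4_thrL1⟩,
    ⟨a3z_7_r4_threeE0, a3z_7_r4_threeE1⟩,
    ⟨a3z_7_r4_ring0, a3z_7_r4_ring1⟩]

theorem a3z_7_r5 : allRows stA3Z a3z_7 a3z_7_m5 = true := by
  refine allRows_of fun P => ?_
  cases P
  exacts [⟨a3z_7_r5_one0, a3z_7_r5_one1⟩,
    ⟨a3z_7_r5_two0, a3z_7_r5_two1⟩,
    ⟨a3z_7_r5_twoE0, a3z_7_r5_twoE1⟩,
    ⟨a3z_7_r5_thrR0, a3z_7_r5_thrR1⟩,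
    ⟨a3z_7_r5_thrL0, a3z_7_r5_thrL1⟩,
    ⟨a3z_7_r5_threeE0, a3z_7_r5_threeE1⟩,
    ⟨a3z_7_r5_ring0, a3z_7_r5_ring1⟩]

theorem a3z_7_r6 : allRows stA3Z a3z_7 a3z_7_m6 = true := by
  refine allRows_of fun P => ?_
  cases P
  exacts [⟨a3z_7_r6_one0, a3z_7_r6_one1⟩,
    ⟨a3z_7_r6_two0, a3z_7_r6_two1⟩,
    ⟨a3z_7_r6_twoE0, a3z_7_r6_twoE1⟩,
    ⟨a3z_7_r6_thrR0, a3z_7_r6_thrR1⟩,
    ⟨a3z_7_r6_thrL0, a3z_7_r6_thrL1⟩,
    ⟨a3z_7_r6_threeE0, a3z_7_r6_threeE1⟩,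
    ⟨a3z_7_r6_ring0, a3z_7_r6_ring1⟩]

theorem a3z_7_ok : a3z_7.ok stA3Z = true := by
  have h : (PC.all.all fun P => PC.all.all fun Q => pairOk stA3Z a3z_7 P Q) = true := by decide +kernel
  have d0 : mdOk stA3Z a3z_7_m0.md = true := by decide +kernel
  have d1 : mdOk stA3Z a3z_7_m1.md = true := by decide +kernel
  have d2 : mdOk stA3Z a3z_7_m2.md = true := by decide +kernel
  have d3 : mdOk stA3Z a3z_7_m3.md = true := by decide +kernel
  have d4 : mdOk stA3Z a3z_7_m4.md = true := by decide +kernel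
  have d5 : mdOk stA3Z a3z_7_m5.md = true := by decide +kernel
  have d6 : mdOk stA3Z a3z_7_m6.md = true := by decide +kernel
  unfold Piece.ok
  rw [h, Bool.true_and]
  show List.all [a3z_7_m0, a3z_7_m1, a3z_7_m2, a3z_7_m3, a3z_7_m4, a3z_7_m5, a3z_7_m6] _ = true
  rw [List.all_eq_true]
  intro m hm
  simp only [List.mem_cons, List.not_mem_nil, or_false] at hm
  rcases hm with rfl | rfl | rfl | rfl | rfl | rfl | rfl
  · rw [a3z_7_r0, d0]; rfl
  · rw [a3z_7_r1, d1]; rfl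
  · rw [a3z_7_r2, d2]; rfl
  · rw [a3z_7_r3, d3]; rfl
  · rw [a3z_7_r4, d4]; rfl
  · rw [a3z_7_r5, d5]; rfl
  · rw [a3z_7_r6, d6]; rfl

end OR

end Pool.Agent.Work.MP_b30479_gt.G2
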