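import Pool.Agent.Work.MP_b30479_gt.G2.OStA
import Pool.Agent.Work.MP_b30479_gt.G2.ORows

namespace Pool.Agent.Work.MP_b30479_gt.G2

namespace OR

/-- windows -/
def a3z_8_wp : PC → Win
  | .one => ⟨-890, 290, -820, 330, 0, 430⟩
  | .two => ⟨0, 0, 0, 0, 0, 0⟩
  | .twoE => ⟨0, 0, 0, 0, 0, 0⟩
  | .thrR => ⟨0, 0, 0, 0, 0, 0⟩
  | .thrL => ⟨0, 0, 0, 0, 0, 0⟩
  | .threeE => ⟨0, 0, 0, 0, 0, 0⟩
  | .ring => ⟨480, 1330, 470, 1500, 0, 610⟩

/-- windows -/
def a3z_8_wq : PC → Win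
  | .one => ⟨-890, 290, -820, 330, -610, 0⟩
  | .two => ⟨0, 0, 0, 0, 0, 0⟩
  | .twoE => ⟨0, 0, 0, 0, 0, 0⟩
  | .thrR => ⟨0, 0, 0, 0, 0, 0⟩
  | .thrL => ⟨0, 0, 0, 0, 0, 0⟩
  | .threeE => ⟨0, 0, 0, 0, 0, 0⟩
  | .ring => ⟨480, 1330, 470, 1500, -430, 0⟩

/-- mode -/
def a3z_8_m0 : Mode where
  md := .V 300 1000
  lam := 750
  ct := 2000
  gp := fun
    | .one => [⟨1980, [8]⟩, ⟨1470, [8]⟩, ⟨-546, [613478570828249138, 557955, 8, 8, 0, 0]⟩, ⟨-1571, [142836611, 142836611, 8, 8, 2396422158886962, 2396422235433010]⟩, ⟨-2088, [0, 0, 0, 0, 559154, 559154]⟩, ⟨-2088, [0, 0, 0, 0, 8, 8]⟩, ⟨-2088, [0, 0, 0, 0, 8, 8]⟩, e00]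
    | .two => [e00, e00, e00, e00, e00, e00]
    | .twoE => [e00, e00, e00, e00, e00, e00]
    | .thrR => [e00, e00, e00, e00, e00, e00]
    | .thrL => [e00, e00, e00, e00, e00, e00]
    | .threeE => [e00, e00, e00, e00, e00, e00]
    | .ring => [⟨1310, [142705538]⟩, ⟨1310, [559154, 8, 8, 8, 0, 0]⟩, ⟨743, [2179, 2179, 8, 8, 2179, 8]⟩, ⟨743, [0, 0, 0, 0, 2179, 8]⟩, ⟨-491, [0, 0, 0, 0, 36649927458, 8]⟩, ⟨-2400, [0, 0, 0, 0, 2178, 2178]⟩]
  gq := fun
    | .one => [⟨97, [8]⟩, ⟨1496, [8]⟩, ⟨-413, [9360923396146, 557955, 8, 8, 0, 0]⟩, ⟨-1647, [142705539, 557955, 8, 8, 2396422158886962, 9361024034866]⟩, ⟨-2214, [0, 0, 0, 0, 559154, 559154]⟩, ⟨-2214, [0, 0, 0, 0, 8, 8]⟩, ⟨-2214, [0, 0, 0, 0, 8, 8]⟩, e00]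
    | .two => [e00, e00, e00, e00, e00, e00]
    | .twoE => [e00, e00, e00, e00, e00, e00]
    | .thrR => [e00, e00, e00, e00, e00, e00]
    | .thrL => [e00, e00, e00, e00, e00, e00]
    | .threeE => [e00, e00, e00, e00, e00, e00]
    | .ring => [⟨1184, [557954]⟩, ⟨1184, [2178, 8, 8, 8, 0, 0]⟩, ⟨667, [8, 8, 8, 8, 2179, 8]⟩, ⟨667, [0, 0, 0, 0, 2178, 8]⟩, ⟨-358, [0, 0, 0, 0, 143140914, 8]⟩, ⟨-2374, [0, 0, 0, 0, 2178, 2178]⟩]

/-- mode -/
def a3z_8_m1 : Mode where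
  md := .V 600 1000
  lam := 250
  ct := 2500
  gp := fun
    | .one => [⟨-132, [2179]⟩, ⟨-302, [613483750558806818]⟩, ⟨-659, [613483591627933746, 557955, 8, 8, 0, 0]⟩, ⟨-659, [557955, 557955, 8, 8, 9361024034866, 9361024034866]⟩, e00, e00, e00, e00]
    | .two => [e00, e00, e00, e00, e00, e00]
    | .twoE => [e00, e00, e00, e00, e00, e00]
    | .thrR => [e00, e00, e00, e00, e00, e00]
    | .thrL => [e00, e00, e00, e00, e00, e00]
    | .threeE => [e00, e00, e00, e00, e00, e00]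
    | .ring => [⟨101, [36549396514]⟩, ⟨66, [9361024030770, 8, 8, 8, 0, 0]⟩, ⟨66, [8, 8, 8, 8, 2179, 8]⟩, ⟨66, [0, 0, 0, 0, 142772259, 8]⟩, e00, e00]
  gq := fun
    | .one => [⟨-235, [2179]⟩, ⟨-370, [2396422119392050]⟩, ⟨-405, [2394201644042290, 557955, 8, 8, 0, 0]⟩, ⟨-405, [557955, 557955, 8, 8, 9361024034866, 9361024034866]⟩, e00, e00, e00, e00]
    | .two => [e00, e00, e00, e00, e00, e00]
    | .twoE => [e00, e00, e00, e00, e00, e00]
    | .thrR => [e00, e00, e00, e00, e00, e00]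
    | .thrL => [e00, e00, e00, e00, e00, e00]
    | .threeE => [e00, e00, e00, e00, e00, e00]
    | .ring => [⟨355, [557954]⟩, ⟨355, [142837810, 8, 8, 8, 0, 0]⟩, ⟨-2, [557443, 557443, 2179, 8, 142705539, 8]⟩, e00, e00, e00]

/-- mode -/
def a3z_8_m2 : Mode where
  md := .V 150 1000
  lam := 0
  ct := 1000
  gp := fun
    | .one => [e00, e00, e00, e00, e00, e00, e00, ⟨-3302, [0, 0, 0, 0, 2640452340530694699623131186, 612914521441470514]⟩]
    | .two => [e00, e00, e00, e00, e00, e00]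
    | .twoE => [e00, e00, e00, e00, e00, e00]
    | .thrR => [e00, e00, e00, e00, e00, e00]
    | .thrL => [e00, e00, e00, e00, e00, e00]
    | .threeE => [e00, e00, e00, e00, e00, e00]
    | .ring => [⟨3409, [20729489671399008957840252648348301616246237531368743868042381023217457186]⟩, ⟨3409, [502481071780184376932888930257107388259852939931518843674216608750954303265926495791711809351854094589360471492528448617645238408507260244990118875707442, 40861139331, 685536363192288129, 8, 0, 0]⟩, ⟨3409, [3599266396770435, 40861139331, 40861139841, 8, 40861139331, 8]⟩, ⟨3409, [0, 0, 0, 0, 36643025539, 8]⟩, ⟨3409, [0, 0, 0, 0, 8, 8]⟩, ⟨-105, [0, 0, 0, 0, 8, 8]⟩]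
  gq := fun
    | .one => [e00, e00, e00, e00, e00, e00, e00, ⟨-3413, [0, 0, 0, 0, 984925552661378864161084883274110838468594587291043718746452801206817275787314, 3262820257801865631838811604019279570568440504813602]⟩]
    | .two => [e00, e00, e00, e00, e00, e00]
    | .twoE => [e00, e00, e00, e00, e00, e00]
    | .thrR => [e00, e00, e00, e00, e00, e00]
    | .thrL => [e00, e00, e00, e00, e00, e00]
    | .threeE => [e00, e00, e00, e00, e00, e00]
    | .ring => [⟨3298, [557954]⟩, ⟨3298, [559154, 8, 8, 8, 0, 0]⟩, ⟨3298, [8, 8, 8, 8, 8, 8]⟩, ⟨3298, [0, 0, 0, 0, 2178, 8]⟩, ⟨3298, [0, 0, 0, 0, 8, 8]⟩, ⟨-144, [0, 0, 0, 0, 8, 8]⟩]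

/-- mode -/
def a3z_8_m3 : Mode where
  md := .D
  lam := 0
  ct := 9000
  gp := fun
    | .one => [e00, ⟨-2444, [3500765739500046711160884755420243598428240000619407120036733730]⟩, e00, e00, e00, e00, e00, e00]
    | .two => [e00, e00, e00, e00, e00, e00]
    | .twoE => [e00, e00, e00, e00, e00, e00]
    | .thrR => [e00, e00, e00, e00, e00, e00]
    | .thrL => [e00, e00, e00, e00, e00, e00]
    | .threeE => [e00, e00, e00, e00, e00, e00]
    | .ring => [⟨2738, [156906123653732139810]⟩, e00, e00, e00, e00, e00]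
  gq := fun
    | .one => [e00, ⟨-2742, [2396420817041458]⟩, e00, e00, e00, e00, e00, e00]
    | .two => [e00, e00, e00, e00, e00, e00]
    | .twoE => [e00, e00, e00, e00, e00, e00]
    | .thrR => [e00, e00, e00, e00, e00, e00]
    | .thrL => [e00, e00, e00, e00, e00, e00]
    | .threeE => [e00, e00, e00, e00, e00, e00]
    | .ring => [⟨2440, [40186413097582936164402]⟩, e00, e00, e00, e00, e00]

/-- mode -/
def a3z_8_m4 : Mode where
  md := .V 450 1000
  lam := 500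
  ct := 2500
  gp := fun
    | .one => [⟨-28, [8]⟩, ⟨-368, [36566500130]⟩, ⟨-368, [36566107010, 557955, 8, 8, 0, 0]⟩, e00, e00, e00, e00, e00]
    | .two => [e00, e00, e00, e00, e00, e00]
    | .twoE => [e00, e00, e00, e00, e00, e00]
    | .thrR => [e00, e00, e00, e00, e00, e00]
    | .thrL => [e00, e00, e00, e00, e00, e00]
    | .threeE => [e00, e00, e00, e00, e00, e00]
    | .ring => [e00, e00, e00, e00, ⟨-559, [0, 0, 0, 0, 2396396372656930, 3458]⟩, e00]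
  gq := fun
    | .one => [e00, ⟨-45, [2178]⟩, e00, e00, e00, e00, e00, e00]
    | .two => [e00, e00, e00, e00, e00, e00]
    | .twoE => [e00, e00, e00, e00, e00, e00]
    | .thrR => [e00, e00, e00, e00, e00, e00]
    | .thrL => [e00, e00, e00, e00, e00, e00]
    | .threeE => [e00, e00, e00, e00, e00, e00]
    | .ring => [e00, e00, e00, ⟨-236, [0, 0, 0, 0, 9382381429379, 8]⟩, ⟨-236, [0, 0, 0, 0, 612915620858069794, 3458]⟩, e00]

/-- mode -/
def a3z_8_m5 : Mode where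
  md := .V 650 750
  lam := 250
  ct := 2000
  gp := fun
    | .one => [⟨-180, [9382493651235]⟩, e00, e00, e00, e00, e00, e00, e00]
    | .two => [e00, e00, e00, e00, e00, e00]
    | .twoE => [e00, e00, e00, e00, e00, e00]
    | .thrR => [e00, e00, e00, e00, e00, e00]
    | .thrL => [e00, e00, e00, e00, e00, e00]
    | .threeE => [e00, e00, e00, e00, e00, e00]
    | .ring => [e00, e00, e00, e00, e00, e00]
  gq := fun
    | .one => [e00, e00, e00, e00, e00, e00, e00, e00]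
    | .two => [e00, e00, e00, e00, e00, e00]
    | .twoE => [e00, e00, e00, e00, e00, e00]
    | .thrR => [e00, e00, e00, e00, e00, e00]
    | .thrL => [e00, e00, e00, e00, e00, e00]
    | .threeE => [e00, e00, e00, e00, e00, e00]
    | .ring => [⟨46, [10316028614466836789101442]⟩, ⟨46, [11306297677824245011610395069088544818, 2179, 2179, 8, 0, 0]⟩, e00, e00, e00, e00]

/-- mode -/
def a3z_8_m6 : Mode where
  md := .V 650 750
  lam := 0
  ct := 1500
  gp := fun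
    | .one => [e00, ⟨-205, [13681029827339821961230897808291812426417938374383782390673970]⟩, e00, e00, e00, e00, e00, e00]
    | .two => [e00, e00, e00, e00, e00, e00]
    | .twoE => [e00, e00, e00, e00, e00, e00]
    | .thrR => [e00, e00, e00, e00, e00, e00]
    | .thrL => [e00, e00, e00, e00, e00, e00]
    | .threeE => [e00, e00, e00, e00, e00, e00]
    | .ring => [e00, e00, e00, e00, e00, e00]
  gq := fun
    | .one => [e00, e00, e00, e00, e00, e00, e00, e00]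
    | .two => [e00, e00, e00, e00, e00, e00]
    | .twoE => [e00, e00, e00, e00, e00, e00]
    | .thrR => [e00, e00, e00, e00, e00, e00]
    | .thrL => [e00, e00, e00, e00, e00, e00]
    | .threeE => [e00, e00, e00, e00, e00, e00]
    | .ring => [e00, ⟨201, [12442824182209783719191883679450765269813870213170, 2179, 2179, 8, 0, 0]⟩, e00, e00, e00, e00]

/-- piece -/
def a3z_8 : Piece := ⟨7940, 8000, 0, 820, a3z_8_wp, a3z_8_wq, [a3z_8_m0, a3z_8_m1, a3z_8_m2, a3z_8_m3, a3z_8_m4, a3z_8_m5, a3z_8_m6]⟩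

set_option linter.defProp false

def a3z_8_r0_one0 : rowsOk stA3Z a3z_8 a3z_8_m0 false .one = true := by decide +kernel

def a3z_8_r0_one1 : rowsOk stA3Z a3z_8 a3z_8_m0 true .one = true := by decide +kernel

def a3z_8_r0_two0 : rowsOk stA3Z a3z_8 a3z_8_m0 false .two = true := by decide +kernel

def a3z_8_r0_two1 : rowsOk stA3Z a3z_8 a3z_8_m0 true .two = true := by decide +kernel

def a3z_8_r0_twoE0 : rowsOk stA3Z a3z_8 a3z_8_m0 false .twoE = true := by decide +kernel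

def a3z_8_r0_twoE1 : rowsOk stA3Z a3z_8 a3z_8_m0 true .twoE = true := by decide +kernel

def a3z_8_r0_thrR0 : rowsOk stA3Z a3z_8 a3z_8_m0 false .thrR = true := by decide +kernel

def a3z_8_r0_thrR1 : rowsOk stA3Z a3z_8 a3z_8_m0 true .thrR = true := by decide +kernel

def a3z_8_r0_thrL0 : rowsOk stA3Z a3z_8 a3z_8_m0 false .thrL = true := by decide +kernel

def a3z_8_r0_thrL1 : rowsOk stA3Z a3z_8 a3z_8_m0 true .thrL = true := by decide +kernel

def a3z_8_r0_threeE0 : rowsOk stA3Z a3z_8 a3z_8_m0 false .threeE = true := by decide +kernel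

def a3z_8_r0_threeE1 : rowsOk stA3Z a3z_8 a3z_8_m0 true .threeE = true := by decide +kernel

def a3z_8_r0_ring0 : rowsOk stA3Z a3z_8 a3z_8_m0 false .ring = true := by decide +kernel

def a3z_8_r0_ring1 : rowsOk stA3Z a3z_8 a3z_8_m0 true .ring = true := by decide +kernel

def a3z_8_r1_one0 : rowsOk stA3Z a3z_8 a3z_8_m1 false .one = true := by decide +kernel

def a3z_8_r1_one1 : rowsOk stA3Z a3z_8 a3z_8_m1 true .one = true := by decide +kernel

def a3z_8_r1_two0 : rowsOk stA3Z a3z_8 a3z_8_m1 false .two = true := by decide +kernel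

def a3z_8_r1_two1 : rowsOk stA3Z a3z_8 a3z_8_m1 true .two = true := by decide +kernel

def a3z_8_r1_twoE0 : rowsOk stA3Z a3z_8 a3z_8_m1 false .twoE = true := by decide +kernel

def a3z_8_r1_twoE1 : rowsOk stA3Z a3z_8 a3z_8_m1 true .twoE = true := by decide +kernel

def a3z_8_r1_thrR0 : rowsOk stA3Z a3z_8 a3z_8_m1 false .thrR = true := by decide +kernel

def a3z_8_r1_thrR1 : rowsOk stA3Z a3z_8 a3z_8_m1 true .thrR = true := by decide +kernel

def a3z_8_r1_thrL0 : rowsOk stA3Z a3z_8 a3z_8_m1 false .thrL = true := by decide +kernel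

def a3z_8_r1_thrL1 : rowsOk stA3Z a3z_8 a3z_8_m1 true .thrL = true := by decide +kernel

def a3z_8_r1_threeE0 : rowsOk stA3Z a3z_8 a3z_8_m1 false .threeE = true := by decide +kernel

def a3z_8_r1_threeE1 : rowsOk stA3Z a3z_8 a3z_8_m1 true .threeE = true := by decide +kernel

def a3z_8_r1_ring0 : rowsOk stA3Z a3z_8 a3z_8_m1 false .ring = true := by decide +kernel

def a3z_8_r1_ring1 : rowsOk stA3Z a3z_8 a3z_8_m1 true .ring = true := by decide +kernel

def a3z_8_r2_one0 : rowsOk stA3Z a3z_8 a3z_8_m2 false .one = true := by decide +kernel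

def a3z_8_r2_one1 : rowsOk stA3Z a3z_8 a3z_8_m2 true .one = true := by decide +kernel

def a3z_8_r2_two0 : rowsOk stA3Z a3z_8 a3z_8_m2 false .two = true := by decide +kernel

def a3z_8_r2_two1 : rowsOk stA3Z a3z_8 a3z_8_m2 true .two = true := by decide +kernel

def a3z_8_r2_twoE0 : rowsOk stA3Z a3z_8 a3z_8_m2 false .twoE = true := by decide +kernel

def a3z_8_r2_twoE1 : rowsOk stA3Z a3z_8 a3z_8_m2 true .twoE = true := by decide +kernel

def a3z_8_r2_thrR0 : rowsOk stA3Z a3z_8 a3z_8_m2 false .thrR = true := by decide +kernel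

def a3z_8_r2_thrR1 : rowsOk stA3Z a3z_8 a3z_8_m2 true .thrR = true := by decide +kernel

def a3z_8_r2_thrL0 : rowsOk stA3Z a3z_8 a3z_8_m2 false .thrL = true := by decide +kernel

def a3z_8_r2_thrL1 : rowsOk stA3Z a3z_8 a3z_8_m2 true .thrL = true := by decide +kernel

def a3z_8_r2_threeE0 : rowsOk stA3Z a3z_8 a3z_8_m2 false .threeE = true := by decide +kernel

def a3z_8_r2_threeE1 : rowsOk stA3Z a3z_8 a3z_8_m2 true .threeE = true := by decide +kernel

def a3z_8_r2_ring0_0 : cellOk stA3Z a3z_8 a3z_8_m2 false .ring ((stA3Z.bins .ring).getD 0 b00)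
    ((a3z_8_m2.g false .ring).getD 0 e00) = true := by decide +kernel

def a3z_8_r2_ring0_1 : cellOk stA3Z a3z_8 a3z_8_m2 false .ring ((stA3Z.bins .ring).getD 1 b00)
    ((a3z_8_m2.g false .ring).getD 1 e00) = true := by decide +kernel

def a3z_8_r2_ring0_2 : cellOk stA3Z a3z_8 a3z_8_m2 false .ring ((stA3Z.bins .ring).getD 2 b00)
    ((a3z_8_m2.g false .ring).getD 2 e00) = true := by decide +kernel

def a3z_8_r2_ring0_3 : cellOk stA3Z a3z_8 a3z_8_m2 false .ring ((stA3Z.bins .ring).getD 3 b00)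
    ((a3z_8_m2.g false .ring).getD 3 e00) = true := by decide +kernel

def a3z_8_r2_ring0_4 : cellOk stA3Z a3z_8 a3z_8_m2 false .ring ((stA3Z.bins .ring).getD 4 b00)
    ((a3z_8_m2.g false .ring).getD 4 e00) = true := by decide +kernel

def a3z_8_r2_ring0_5 : cellOk stA3Z a3z_8 a3z_8_m2 false .ring ((stA3Z.bins .ring).getD 5 b00)
    ((a3z_8_m2.g false .ring).getD 5 e00) = true := by decide +kernel

theorem a3z_8_r2_ring0 : rowsOk stA3Z a3z_8 a3z_8_m2 false .ring = true := by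
  refine rowsOk_of fun i hi => ?_
  have hi : i < 6 := hi
  interval_cases i
  exacts [a3z_8_r2_ring0_0, a3z_8_r2_ring0_1, a3z_8_r2_ring0_2, a3z_8_r2_ring0_3, a3z_8_r2_ring0_4, a3z_8_r2_ring0_5]

def a3z_8_r2_ring1 : rowsOk stA3Z a3z_8 a3z_8_m2 true .ring = true := by decide +kernel

def a3z_8_r3_one0 : rowsOk stA3Z a3z_8 a3z_8_m3 false .one = true := by decide +kernel

def a3z_8_r3_one1 : rowsOk stA3Z a3z_8 a3z_8_m3 true .one = true := by decide +kernel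

def a3z_8_r3_two0 : rowsOk stA3Z a3z_8 a3z_8_m3 false .two = true := by decide +kernel

def a3z_8_r3_two1 : rowsOk stA3Z a3z_8 a3z_8_m3 true .two = true := by decide +kernel

def a3z_8_r3_twoE0 : rowsOk stA3Z a3z_8 a3z_8_m3 false .twoE = true := by decide +kernel

def a3z_8_r3_twoE1 : rowsOk stA3Z a3z_8 a3z_8_m3 true .twoE = true := by decide +kernel

def a3z_8_r3_thrR0 : rowsOk stA3Z a3z_8 a3z_8_m3 false .thrR = true := by decide +kernel

def a3z_8_r3_thrR1 : rowsOk stA3Z a3z_8 a3z_8_m3 true .thrR = true := by decide +kernel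

def a3z_8_r3_thrL0 : rowsOk stA3Z a3z_8 a3z_8_m3 false .thrL = true := by decide +kernel

def a3z_8_r3_thrL1 : rowsOk stA3Z a3z_8 a3z_8_m3 true .thrL = true := by decide +kernel

def a3z_8_r3_threeE0 : rowsOk stA3Z a3z_8 a3z_8_m3 false .threeE = true := by decide +kernel

def a3z_8_r3_threeE1 : rowsOk stA3Z a3z_8 a3z_8_m3 true .threeE = true := by decide +kernel

def a3z_8_r3_ring0 : rowsOk stA3Z a3z_8 a3z_8_m3 false .ring = true := by decide +kernel

def a3z_8_r3_ring1 : rowsOk stA3Z a3z_8 a3z_8_m3 true .ring = true := by decide +kernel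

def a3z_8_r4_one0 : rowsOk stA3Z a3z_8 a3z_8_m4 false .one = true := by decide +kernel

def a3z_8_r4_one1 : rowsOk stA3Z a3z_8 a3z_8_m4 true .one = true := by decide +kernel

def a3z_8_r4_two0 : rowsOk stA3Z a3z_8 a3z_8_m4 false .two = true := by decide +kernel

def a3z_8_r4_two1 : rowsOk stA3Z a3z_8 a3z_8_m4 true .two = true := by decide +kernel

def a3z_8_r4_twoE0 : rowsOk stA3Z a3z_8 a3z_8_m4 false .twoE = true := by decide +kernel

def a3z_8_r4_twoE1 : rowsOk stA3Z a3z_8 a3z_8_m4 true .twoE = true := by decide +kernel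

def a3z_8_r4_thrR0 : rowsOk stA3Z a3z_8 a3z_8_m4 false .thrR = true := by decide +kernel

def a3z_8_r4_thrR1 : rowsOk stA3Z a3z_8 a3z_8_m4 true .thrR = true := by decide +kernel

def a3z_8_r4_thrL0 : rowsOk stA3Z a3z_8 a3z_8_m4 false .thrL = true := by decide +kernel

def a3z_8_r4_thrL1 : rowsOk stA3Z a3z_8 a3z_8_m4 true .thrL = true := by decide +kernel

def a3z_8_r4_threeE0 : rowsOk stA3Z a3z_8 a3z_8_m4 false .threeE = true := by decide +kernel

def a3z_8_r4_threeE1 : rowsOk stA3Z a3z_8 a3z_8_m4 true .threeE = true := by decide +kernel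

def a3z_8_r4_ring0 : rowsOk stA3Z a3z_8 a3z_8_m4 false .ring = true := by decide +kernel

def a3z_8_r4_ring1 : rowsOk stA3Z a3z_8 a3z_8_m4 true .ring = true := by decide +kernel

def a3z_8_r5_one0 : rowsOk stA3Z a3z_8 a3z_8_m5 false .one = true := by decide +kernel

def a3z_8_r5_one1 : rowsOk stA3Z a3z_8 a3z_8_m5 true .one = true := by decide +kernel

def a3z_8_r5_two0 : rowsOk stA3Z a3z_8 a3z_8_m5 false .two = true := by decide +kernel

def a3z_8_r5_two1 : rowsOk stA3Z a3z_8 a3z_8_m5 true .two = true := by decide +kernel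

def a3z_8_r5_twoE0 : rowsOk stA3Z a3z_8 a3z_8_m5 false .twoE = true := by decide +kernel

def a3z_8_r5_twoE1 : rowsOk stA3Z a3z_8 a3z_8_m5 true .twoE = true := by decide +kernel

def a3z_8_r5_thrR0 : rowsOk stA3Z a3z_8 a3z_8_m5 false .thrR = true := by decide +kernel

def a3z_8_r5_thrR1 : rowsOk stA3Z a3z_8 a3z_8_m5 true .thrR = true := by decide +kernel

def a3z_8_r5_thrL0 : rowsOk stA3Z a3z_8 a3z_8_m5 false .thrL = true := by decide +kernel

def a3z_8_r5_thrL1 : rowsOk stA3Z a3z_8 a3z_8_m5 true .thrL = true := by decide +kernel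

def a3z_8_r5_threeE0 : rowsOk stA3Z a3z_8 a3z_8_m5 false .threeE = true := by decide +kernel

def a3z_8_r5_threeE1 : rowsOk stA3Z a3z_8 a3z_8_m5 true .threeE = true := by decide +kernel

def a3z_8_r5_ring0 : rowsOk stA3Z a3z_8 a3z_8_m5 false .ring = true := by decide +kernel

def a3z_8_r5_ring1 : rowsOk stA3Z a3z_8 a3z_8_m5 true .ring = true := by decide +kernel

def a3z_8_r6_one0 : rowsOk stA3Z a3z_8 a3z_8_m6 false .one = true := by decide +kernel

def a3z_8_r6_one1 : rowsOk stA3Z a3z_8 a3z_8_m6 true .one = true := by decide +kernel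

def a3z_8_r6_two0 : rowsOk stA3Z a3z_8 a3z_8_m6 false .two = true := by decide +kernel

def a3z_8_r6_two1 : rowsOk stA3Z a3z_8 a3z_8_m6 true .two = true := by decide +kernel

def a3z_8_r6_twoE0 : rowsOk stA3Z a3z_8 a3z_8_m6 false .twoE = true := by decide +kernel

def a3z_8_r6_twoE1 : rowsOk stA3Z a3z_8 a3z_8_m6 true .twoE = true := by decide +kernel

def a3z_8_r6_thrR0 : rowsOk stA3Z a3z_8 a3z_8_m6 false .thrR = true := by decide +kernel

def a3z_8_r6_thrR1 : rowsOk stA3Z a3z_8 a3z_8_m6 true .thrR = true := by decide +kernel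

def a3z_8_r6_thrL0 : rowsOk stA3Z a3z_8 a3z_8_m6 false .thrL = true := by decide +kernel

def a3z_8_r6_thrL1 : rowsOk stA3Z a3z_8 a3z_8_m6 true .thrL = true := by decide +kernel

def a3z_8_r6_threeE0 : rowsOk stA3Z a3z_8 a3z_8_m6 false .threeE = true := by decide +kernel

def a3z_8_r6_threeE1 : rowsOk stA3Z a3z_8 a3z_8_m6 true .threeE = true := by decide +kernel

def a3z_8_r6_ring0 : rowsOk stA3Z a3z_8 a3z_8_m6 false .ring = true := by decide +kernel

def a3z_8_r6_ring1 : rowsOk stA3Z a3z_8 a3z_8_m6 true .ring = true := by decide +kernel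

theorem a3z_8_r0 : allRows stA3Z a3z_8 a3z_8_m0 = true := by
  refine allRows_of fun P => ?_
  cases P
  exacts [⟨a3z_8_r0_one0, a3z_8_r0_one1⟩,
    ⟨a3z_8_r0_two0, a3z_8_r0_two1⟩,
    ⟨a3z_8_r0_twoE0, a3z_8_r0_twoE1⟩,
    ⟨a3z_8_r0_thrR0, a3z_8_r0_thrR1⟩,
    ⟨a3z_8_r0_thrL0, a3z_8_r0_thrL1⟩,
    ⟨a3z_8_r0_threeE0, a3z_8_r0_threeE1⟩,
    ⟨a3z_8_r0_ring0, a3z_8_r0_ring1⟩]

theorem a3z_8_r1 : allRows stA3Z a3z_8 a3z_8_m1 = true := by
  refine allRows_of fun P => ?_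
  cases P
  exacts [⟨a3z_8_r1_one0, a3z_8_r1_one1⟩,
    ⟨a3z_8_r1_two0, a3z_8_r1_two1⟩,
    ⟨a3z_8_r1_twoE0, a3z_8_r1_twoE1⟩,
    ⟨a3z_8_r1_thrR0, a3z_8_r1_thrR1⟩,
    ⟨a3z_8_r1_thrL0, a3z_8_r1_thrL1⟩,
    ⟨a3z_8_r1_threeE0, a3z_8_r1_threeE1⟩,
    ⟨a3z_8_r1_ring0, a3z_8_r1_ring1⟩]

theorem a3z_8_r2 : allRows stA3Z a3z_8 a3z_8_m2 = true := by
  refine allRows_of fun P => ?_
  cases P
  exacts [⟨a3z_8_r2_one0, a3z_8_r2_one1⟩,
    ⟨a3z_8_r2_two0, a3z_8_r2_two1⟩,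
    ⟨a3z_8_r2_twoE0, a3z_8_r2_twoE1⟩,
    ⟨a3z_8_r2_thrR0, a3z_8_r2_thrR1⟩,
    ⟨a3z_8_r2_thrL0, a3z_8_r2_thrL1⟩,
    ⟨a3z_8_r2_threeE0, a3z_8_r2_threeE1⟩,
    ⟨a3z_8_r2_ring0, a3z_8_r2_ring1⟩]

theorem a3z_8_r3 : allRows stA3Z a3z_8 a3z_8_m3 = true := by
  refine allRows_of fun P => ?_
  cases P
  exacts [⟨a3z_8_r3_one0, a3z_8_r3_one1⟩,
    ⟨a3z_8_r3_two0, a3z_8_r3_two1⟩,
    ⟨a3z_8_r3_twoE0, a3z_8_r3_twoE1⟩,
    ⟨a3z_8_r3_thrR0, a3z_8_r3_thrR1⟩,
    ⟨a3z_8_r3_thrL0, a3z_8_r3_thrL1⟩,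
    ⟨a3z_8_r3_threeE0, a3z_8_r3_threeE1⟩,
    ⟨a3z_8_r3_ring0, a3z_8_r3_ring1⟩]

theorem a3z_8_r4 : allRows stA3Z a3z_8 a3z_8_m4 = true := by
  refine allRows_of fun P => ?_
  cases P
  exacts [⟨a3z_8_r4_one0, a3z_8_r4_one1⟩,
    ⟨a3z_8_r4_two0, a3z_8_r4_two1⟩,
    ⟨a3z_8_r4_twoE0, a3z_8_r4_twoE1⟩,
    ⟨a3z_8_r4_thrR0, a3z_8_r4_thrR1⟩,
    ⟨a3z_8_r4_thrL0, a3z_8_r4_thrL1⟩,
    ⟨a3z_8_r4_threeE0, a3z_8_r4_threeE1⟩,
    ⟨a3z_8_r4_ring0, a3z_8_r4_ring1⟩]

theorem a3z_8_r5 : allRows stA3Z a3z_8 a3z_8_m5 = true := by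
  refine allRows_of fun P => ?_
  cases P
  exacts [⟨a3z_8_r5_one0, a3z_8_r5_one1⟩,
    ⟨a3z_8_r5_two0, a3z_8_r5_two1⟩,
    ⟨a3z_8_r5_twoE0, a3z_8_r5_twoE1⟩,
    ⟨a3z_8_r5_thrR0, a3z_8_r5_thrR1⟩,
    ⟨a3z_8_r5_thrL0, a3z_8_r5_thrL1⟩,
    ⟨a3z_8_r5_threeE0, a3z_8_r5_threeE1⟩,
    ⟨a3z_8_r5_ring0, a3z_8_r5_ring1⟩]

theorem a3z_8_r6 : allRows stA3Z a3z_8 a3z_8_m6 = true := by
  refine allRows_of fun P => ?_
  cases P
  exacts [⟨a3z_8_r6_one0, a3z_8_r6_one1⟩,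
    ⟨a3z_8_r6_two0, a3z_8_r6_two1⟩,
    ⟨a3z_8_r6_twoE0, a3z_8_r6_twoE1⟩,
    ⟨a3z_8_r6_thrR0, a3z_8_r6_thrR1⟩,
    ⟨a3z_8_r6_thrL0, a3z_8_r6_thrL1⟩,
    ⟨a3z_8_r6_threeE0, a3z_8_r6_threeE1⟩,
    ⟨a3z_8_r6_ring0, a3z_8_r6_ring1⟩]

theorem a3z_8_ok : a3z_8.ok stA3Z = true := by
  have h : (PC.all.all fun P => PC.all.all fun Q => pairOk stA3Z a3z_8 P Q) = true := by decide +kernel
  have d0 : mdOk stA3Z a3z_8_m0.md = true := by decide +kernel
  have d1 : mdOk stA3Z a3z_8_m1.md = true := by decide +kernel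
  have d2 : mdOk stA3Z a3z_8_m2.md = true := by decide +kernel
  have d3 : mdOk stA3Z a3z_8_m3.md = true := by decide +kernel
  have d4 : mdOk stA3Z a3z_8_m4.md = true := by decide +kernel
  have d5 : mdOk stA3Z a3z_8_m5.md = true := by decide +kernel
  have d6 : mdOk stA3Z a3z_8_m6.md = true := by decide +kernel
  unfold Piece.ok
  rw [h, Bool.true_and]
  show List.all [a3z_8_m0, a3z_8_m1, a3z_8_m2, a3z_8_m3, a3z_8_m4, a3z_8_m5, a3z_8_m6] _ = true
  rw [List.all_eq_true]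
  intro m hm
  simp only [List.mem_cons, List.not_mem_nil, or_false] at hm
  rcases hm with rfl | rfl | rfl | rfl | rfl | rfl | rfl
  · rw [a3z_8_r0, d0]; rfl
  · rw [a3z_8_r1, d1]; rfl
  · rw [a3z_8_r2, d2]; rfl
  · rw [a3z_8_r3, d3]; rfl
  · rw [a3z_8_r4, d4]; rfl
  · rw [a3z_8_r5, d5]; rfl
  · rw [a3z_8_r6, d6]; rfl

end OR

end Pool.Agent.Work.MP_b30479_gt.G2
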