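import Pool.Agent.Work.MP_b30479_gt.G2.OPw

namespace Pool.Agent.Work.MP_b30479_gt.G2

namespace OR

/-- no special bound of the sum of the heights for short hinges -/
def k02 (Q : PC) : ℤ := (pw1 .one Q).K1

end OR

end Pool.Agent.Work.MP_b30479_gt.G2
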