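import Pool.Agent.Work.MP_b30479_gt.G2.OCap
import Pool.Agent.Work.MP_b30479_gt.G2.MLY
import Pool.Agent.Work.MP_b30479_gt.G2.OA3n_0
import Pool.Agent.Work.MP_b30479_gt.G2.OA3n_1
import Pool.Agent.Work.MP_b30479_gt.G2.OA3n_2
import Pool.Agent.Work.MP_b30479_gt.G2.OA3z_0
import Pool.Agent.Work.MP_b30479_gt.G2.OA3z_1
import Pool.Agent.Work.MP_b30479_gt.G2.OA3z_2
import Pool.Agent.Work.MP_b30479_gt.G2.OA3z_3
import Pool.Agent.Work.MP_b30479_gt.G2.OA3z_4
import Pool.Agent.Work.MP_b30479_gt.G2.OA3z_5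
import Pool.Agent.Work.MP_b30479_gt.G2.OA3z_6
import Pool.Agent.Work.MP_b30479_gt.G2.OA3z_7
import Pool.Agent.Work.MP_b30479_gt.G2.OA3z_8
import Pool.Agent.Work.MP_b30479_gt.G2.OA2n_0
import Pool.Agent.Work.MP_b30479_gt.G2.OA2n_1
import Pool.Agent.Work.MP_b30479_gt.G2.OA2n_2
import Pool.Agent.Work.MP_b30479_gt.G2.OA2x_0
import Pool.Agent.Work.MP_b30479_gt.G2.OA2x_1
import Pool.Agent.Work.MP_b30479_gt.G2.OA2x_2
import Pool.Agent.Work.MP_b30479_gt.G2.OA2x_3
import Pool.Agent.Work.MP_b30479_gt.G2.OA2x_4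
import Pool.Agent.Work.MP_b30479_gt.G2.OA2x_5
import Pool.Agent.Work.MP_b30479_gt.G2.OA2x_6
import Pool.Agent.Work.MP_b30479_gt.G2.OA2x_7
import Pool.Agent.Work.MP_b30479_gt.G2.OA2x_8
import Pool.Agent.Work.MP_b30479_gt.G2.OA2x_9
import Pool.Agent.Work.MP_b30479_gt.G2.OA2x_10
import Pool.Agent.Work.MP_b30479_gt.G2.OA2z_0
import Pool.Agent.Work.MP_b30479_gt.G2.OA2z_1
import Pool.Agent.Work.MP_b30479_gt.G2.OA2z_2
import Pool.Agent.Work.MP_b30479_gt.G2.OA2z_3
import Pool.Agent.Work.MP_b30479_gt.G2.OA2e_0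
import Pool.Agent.Work.MP_b30479_gt.G2.OA2e_1
import Pool.Agent.Work.MP_b30479_gt.G2.OA2e_2
import Pool.Agent.Work.MP_b30479_gt.G2.OA2e_3
import Pool.Agent.Work.MP_b30479_gt.G2.OA2e_4
import Pool.Agent.Work.MP_b30479_gt.G2.OA2e_5
import Pool.Agent.Work.MP_b30479_gt.G2.OA2e_6
import Pool.Agent.Work.MP_b30479_gt.G2.OA2e_7

/-!
# Hinges between two digits `1` are at most `.70`
-/

namespace Pool.Agent.Work.MP_b30479_gt.G2

open Finset VOL Filter Topology SR

namespace OR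

/-- no caps: the end of the path -/
def gA (P : PC) : ℤ := 10 * ((pp1 P).XM : ℤ)

theorem goodA {S : Stage} (hpp : S.pp = pp1)
    (h : PC.all.all (fun P => (pp1 P).good && decide ((pp1 P).XM ≤ 1000) &&
      (S.bins P).all fun b => b.ok (pp1 P)) = true) : S.good := by
  intro P
  have h1 := List.all_eq_true.1 h P (PC.mem_all P)
  simp only [Bool.and_eq_true, decide_eq_true_eq] at h1
  obtain ⟨⟨h1, h2⟩, h3⟩ := h1
  rw [hpp]
  refine ⟨h1, h2, fun i hi => ?_⟩
  rw [List.all_eq_true] at h3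
  apply h3
  rw [List.getD_eq_getElem _ _ hi]
  exact List.getElem_mem hi

theorem stA3_ok : StOk stA3 fA gA :=
  ⟨goodA rfl (by decide +kernel), rfl, rfl, Or.inl ⟨rfl, by decide⟩, by decide +kernel⟩
theorem stA3Z_ok : StOk stA3Z fA gA :=
  ⟨goodA rfl (by decide +kernel), rfl, rfl, Or.inl ⟨rfl, by decide⟩, by decide +kernel⟩
theorem stA2_ok : StOk stA2 fA gA :=
  ⟨goodA rfl (by decide +kernel), rfl, rfl, Or.inl ⟨rfl, by decide⟩, by decide +kernel⟩
theorem stA2X_ok : StOk stA2X fA gA :=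
  ⟨goodA rfl (by decide +kernel), rfl, rfl, Or.inl ⟨rfl, by decide⟩, by decide +kernel⟩
theorem stA2Z_ok : StOk stA2Z fA gA :=
  ⟨goodA rfl (by decide +kernel), rfl, rfl, Or.inl ⟨rfl, by decide⟩, by decide +kernel⟩
theorem stA2E_ok : StOk stA2E fA gA :=
  ⟨goodA rfl (by decide +kernel), rfl, rfl, Or.inl ⟨rfl, by decide⟩, by decide +kernel⟩

theorem pA3 : POk stA3 [a3n_0, a3n_1, a3n_2]
    7000 8000 0 820 := by
  refine ⟨?_, by decide +kernel⟩
  intro p hp
  simp only [List.mem_cons, List.not_mem_nil, or_false] at hp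
  rcases hp with rfl | rfl | rfl
  · exact ⟨a3n_0_ok, by decide, by decide, by decide⟩
  · exact ⟨a3n_1_ok, by decide, by decide, by decide⟩
  · exact ⟨a3n_2_ok, by decide, by decide, by decide⟩

theorem pA3Z : POk stA3Z [a3z_0, a3z_1, a3z_2, a3z_3, a3z_4, a3z_5, a3z_6, a3z_7, a3z_8]
    7000 8000 0 820 := by
  refine ⟨?_, by decide +kernel⟩
  intro p hp
  simp only [List.mem_cons, List.not_mem_nil, or_false] at hp
  rcases hp with rfl | rfl | rfl | rfl | rfl | rfl | rfl | rfl | rfl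
  · exact ⟨a3z_0_ok, by decide, by decide, by decide⟩
  · exact ⟨a3z_1_ok, by decide, by decide, by decide⟩
  · exact ⟨a3z_2_ok, by decide, by decide, by decide⟩
  · exact ⟨a3z_3_ok, by decide, by decide, by decide⟩
  · exact ⟨a3z_4_ok, by decide, by decide, by decide⟩
  · exact ⟨a3z_5_ok, by decide, by decide, by decide⟩
  · exact ⟨a3z_6_ok, by decide, by decide, by decide⟩
  · exact ⟨a3z_7_ok, by decide, by decide, by decide⟩
  · exact ⟨a3z_8_ok, by decide, by decide, by decide⟩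

theorem pA2 : POk stA2 [a2n_0, a2n_1, a2n_2]
    7000 8600 0 820 := by
  refine ⟨?_, by decide +kernel⟩
  intro p hp
  simp only [List.mem_cons, List.not_mem_nil, or_false] at hp
  rcases hp with rfl | rfl | rfl
  · exact ⟨a2n_0_ok, by decide, by decide, by decide⟩
  · exact ⟨a2n_1_ok, by decide, by decide, by decide⟩
  · exact ⟨a2n_2_ok, by decide, by decide, by decide⟩

theorem pA2Xl : POk stA2X [a2x_0, a2x_1, a2x_2, a2x_3, a2x_4, a2x_5, a2x_7, a2x_8, a2x_9, a2x_10]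
    7000 8600 0 400 := by
  refine ⟨?_, by decide +kernel⟩
  intro p hp
  simp only [List.mem_cons, List.not_mem_nil, or_false] at hp
  rcases hp with rfl | rfl | rfl | rfl | rfl | rfl | rfl | rfl | rfl | rfl
  · exact ⟨a2x_0_ok, by decide, by decide, by decide⟩
  · exact ⟨a2x_1_ok, by decide, by decide, by decide⟩
  · exact ⟨a2x_2_ok, by decide, by decide, by decide⟩
  · exact ⟨a2x_3_ok, by decide, by decide, by decide⟩
  · exact ⟨a2x_4_ok, by decide, by decide, by decide⟩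
  · exact ⟨a2x_5_ok, by decide, by decide, by decide⟩
  · exact ⟨a2x_7_ok, by decide, by decide, by decide⟩
  · exact ⟨a2x_8_ok, by decide, by decide, by decide⟩
  · exact ⟨a2x_9_ok, by decide, by decide, by decide⟩
  · exact ⟨a2x_10_ok, by decide, by decide, by decide⟩

theorem pA2Xh : POk stA2X [a2x_0, a2x_1, a2x_2, a2x_3, a2x_4, a2x_6, a2x_7, a2x_8, a2x_9, a2x_10]
    7000 8600 400 820 := by
  refine ⟨?_, by decide +kernel⟩
  intro p hp
  simp only [List.mem_cons, List.not_mem_nil, or_false] at hp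
  rcases hp with rfl | rfl | rfl | rfl | rfl | rfl | rfl | rfl | rfl | rfl
  · exact ⟨a2x_0_ok, by decide, by decide, by decide⟩
  · exact ⟨a2x_1_ok, by decide, by decide, by decide⟩
  · exact ⟨a2x_2_ok, by decide, by decide, by decide⟩
  · exact ⟨a2x_3_ok, by decide, by decide, by decide⟩
  · exact ⟨a2x_4_ok, by decide, by decide, by decide⟩
  · exact ⟨a2x_6_ok, by decide, by decide, by decide⟩
  · exact ⟨a2x_7_ok, by decide, by decide, by decide⟩
  · exact ⟨a2x_8_ok, by decide, by decide, by decide⟩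
  · exact ⟨a2x_9_ok, by decide, by decide, by decide⟩
  · exact ⟨a2x_10_ok, by decide, by decide, by decide⟩

theorem pA2Z : POk stA2Z [a2z_0, a2z_1, a2z_2, a2z_3]
    7000 8600 0 820 := by
  refine ⟨?_, by decide +kernel⟩
  intro p hp
  simp only [List.mem_cons, List.not_mem_nil, or_false] at hp
  rcases hp with rfl | rfl | rfl | rfl
  · exact ⟨a2z_0_ok, by decide, by decide, by decide⟩
  · exact ⟨a2z_1_ok, by decide, by decide, by decide⟩
  · exact ⟨a2z_2_ok, by decide, by decide, by decide⟩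
  · exact ⟨a2z_3_ok, by decide, by decide, by decide⟩

theorem pA2E : POk stA2E [a2e_0, a2e_1, a2e_2, a2e_3, a2e_4, a2e_5, a2e_6, a2e_7]
    7000 8600 0 820 := by
  refine ⟨?_, by decide +kernel⟩
  intro p hp
  simp only [List.mem_cons, List.not_mem_nil, or_false] at hp
  rcases hp with rfl | rfl | rfl | rfl | rfl | rfl | rfl | rfl
  · exact ⟨a2e_0_ok, by decide, by decide, by decide⟩
  · exact ⟨a2e_1_ok, by decide, by decide, by decide⟩
  · exact ⟨a2e_2_ok, by decide, by decide, by decide⟩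
  · exact ⟨a2e_3_ok, by decide, by decide, by decide⟩
  · exact ⟨a2e_4_ok, by decide, by decide, by decide⟩
  · exact ⟨a2e_5_ok, by decide, by decide, by decide⟩
  · exact ⟨a2e_6_ok, by decide, by decide, by decide⟩
  · exact ⟨a2e_7_ok, by decide, by decide, by decide⟩

/-- the classes `P`, `Q` are not both regions with three crossings on the same side -/
def n33 (P Q : PC) : Prop := ¬(P = .thrR ∧ Q = .thrR) ∧ ¬(P = .thrL ∧ Q = .thrL)

theorem kindA {P Q : PC} (hn : n33 P Q) : ((P = .one ∨ Q = .one) ∧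
      (stA3.kind P Q = true ∨ stA3Z.kind P Q = true)) ∨
    (¬(P = .one ∨ Q = .one) ∧ (stA2.kind P Q = true ∨ stA2X.kind P Q = true ∨
      stA2Z.kind P Q = true ∨ stA2E.kind P Q = true)) := by
  unfold n33 at hn
  cases P <;> cases Q <;> simp_all [stA3, stA3Z, stA2, stA2X, stA2Z, stA2E]

theorem pw_t (P Q : PC) : (pw1 P Q).t1 ≤ 820 ∧ -820 ≤ (pw1 P Q).t0 := by
  cases P <;> cases Q <;> decide

variable {M : ℕ} {b : Fin (M + 1) → ℤ} {zs : DD (tyW b) ⊕ ZZ (tyW b) → ℂ}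
variable {y : DD (tyW b) ⊕ ZZ (tyW b) → ℝ}
variable {h h' h'' : Fin M} {i j k l : Fin (M + 1)} {s : Fin 3}

theorem Ctx.n33 (C : Ctx b h h' h'' i j k l s) : n33 (cP b k s) (cQ b l s) := by
  unfold OR.n33 cP cQ
  rcases C.A.slot with rfl | rfl <;> cases clsW b k <;> cases clsW b l <;> simp [pcOf]

theorem Ctx.xm (C : Ctx b h h' h'' i j k l s) :
    wXM b h = (if cP b k s = .one ∨ cQ b l s = .one then 80 / 100 else 86 / 100) ∧
      wcl b h = 15 / 100 ∧ wcr b h = 20 / 100 := by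
  obtain ⟨h1, h2, h3⟩ := own_par C.A C.ci C.cj
  refine ⟨?_, h2, h3⟩
  rw [h1, C.oc_i', C.oc_j']
  unfold cP cQ
  simp only [pcOf_one]

/-- the outer hinges are below the end of their path -/
theorem Ctx.capP (C : Ctx b h h' h'' i j k l s) (hy : Mx b zs y) :
    y (.inl (.inl h')) ≤ (gA (cP b k s) : ℝ) / 10000 := by
  have h1 := (C.rh hy).reM
  rw [C.A1.re] at h1
  unfold gA
  push_cast
  linarith only [h1]

theorem Ctx.capQ (C : Ctx b h h' h'' i j k l s) (hy : Mx b zs y) :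
    y (.inl (.inl h'')) ≤ (gA (cQ b l s) : ℝ) / 10000 := by
  have h1 := (C.rh' hy).reM
  rw [C.A2.re] at h1
  unfold gA
  push_cast
  linarith only [h1]

/-- the hinge `1|1` with the largest value, beyond `.70` -/
theorem Ctx.capA_false (C : Ctx b h h' h'' i j k l s) (hb : ClassW b) (hP : LocP b zs)
    (hF : Flo b zs y) (hy : Mx b zs y) (hpos : ∀ h : Fin M, 0 < y (.inl (.inl h)))
    (hx : 70 / 100 < y (.inl (.inl h))) (hT0 : 0 ≤ hT b zs i h)
    (mP : clsW b k = .one → y (.inl (.inl h')) ≤ y (.inl (.inl h)))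
    (mQ : clsW b l = .one → y (.inl (.inl h'')) ≤ y (.inl (.inl h))) : False := by
  obtain ⟨x1, x2, x3⟩ := C.xm
  have hxM : y (.inl (.inl h)) ≤ wXM b h := by
    have := (C.A.rh hy (zs := zs)).reM
    rwa [C.A.re] at this
  have gP := C.capP hy
  have gQ := C.capQ hy
  have p1 := hpos h
  have p2 := hpos h'
  have p3 := hpos h''
  have xP : (gA (cP b k s) : ℝ) ≤ 8000 := by
    have : gA (cP b k s) ≤ 8000 := by cases cP b k s <;> decide
    exact_mod_cast this
  have xQ : (gA (cQ b l s) : ℝ) ≤ 8000 := by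
    have : gA (cQ b l s) ≤ 8000 := by cases cQ b l s <;> decide
    exact_mod_cast this
  have ht1 : hT b zs i h ≤ ((820 : ℤ) : ℝ) / 10000 := by
    have e1 := (C.win hP).t1
    have e2 : ((pw1 (cP b k s) (cQ b l s)).t1 : ℝ) ≤ 820 := by
      exact_mod_cast (pw_t (cP b k s) (cQ b l s)).1
    push_cast
    linarith only [e1, e2]
  have ht0 : ((0 : ℤ) : ℝ) / 10000 ≤ hT b zs i h := by push_cast; linarith only [hT0]
  have hx0 : ((7000 : ℤ) : ℝ) / 10000 ≤ y (.inl (.inl h)) := by push_cast; linarith only [hx]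
  rcases kindA C.n33 with ⟨c1, c2⟩ | ⟨c1, c2⟩
  · rw [if_pos c1] at x1
    have hx1 : y (.inl (.inl h)) ≤ ((8000 : ℤ) : ℝ) / 10000 := by push_cast; linarith only [x1, hxM]
    rcases c2 with c2 | c2
    · refine C.stage_false hb hP hF hy hpos stA3_ok ⟨?_, ?_, Or.inl ⟨rfl, ?_⟩⟩ pA3 c2 hx0 hx1
        ht0 ht1 ?_ ?_ ?_ ?_ (fun _ => mP) (fun _ => mQ) gP gQ
      · rw [x1]; norm_num [stA3]
      · rw [x3]; norm_num [stA3]
      · rw [x1, x3]; linarith only [hx, p1]
      all_goals simp only [stA3]; push_cast; linarith only [p1, p2, x1, hxM, gP, xP, p3, gQ, xQ]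
    · refine C.stage_false hb hP hF hy hpos stA3Z_ok ⟨?_, ?_, Or.inl ⟨rfl, ?_⟩⟩ pA3Z c2 hx0 hx1
        ht0 ht1 ?_ ?_ ?_ ?_ (fun _ => mP) (fun _ => mQ) gP gQ
      · rw [x1]; norm_num [stA3Z]
      · rw [x3]; norm_num [stA3Z]
      · rw [x1, x3]; linarith only [hx, p1]
      all_goals simp only [stA3Z]; push_cast; linarith only [p1, p2, x1, hxM, gP, xP, p3, gQ, xQ]
  · rw [if_neg c1] at x1
    have hx1 : y (.inl (.inl h)) ≤ ((8600 : ℤ) : ℝ) / 10000 := by push_cast; linarith only [x1, hxM]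
    rcases c2 with c2 | c2 | c2 | c2
    · refine C.stage_false hb hP hF hy hpos stA2_ok ⟨?_, ?_, Or.inl ⟨rfl, ?_⟩⟩ pA2 c2 hx0 hx1
        ht0 ht1 ?_ ?_ ?_ ?_ (fun _ => mP) (fun _ => mQ) gP gQ
      · rw [x1]; norm_num [stA2]
      · rw [x3]; norm_num [stA2]
      · rw [x1, x3]; linarith only [hx, p1]
      all_goals simp only [stA2]; push_cast; linarith only [p1, p2, x1, hxM, gP, xP, p3, gQ, xQ]
    · rcases le_total (hT b zs i h) (((400 : ℤ) : ℝ) / 10000) with ht | ht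
      · refine C.stage_false hb hP hF hy hpos stA2X_ok ⟨?_, ?_, Or.inl ⟨rfl, ?_⟩⟩ pA2Xl c2 hx0 hx1
          ht0 ht ?_ ?_ ?_ ?_ (fun _ => mP) (fun _ => mQ) gP gQ
        · rw [x1]; norm_num [stA2X]
        · rw [x3]; norm_num [stA2X]
        · rw [x1, x3]; linarith only [hx, p1]
        all_goals simp only [stA2X]; push_cast; linarith only [p1, p2, x1, hxM, gP, xP, p3, gQ, xQ]
      · refine C.stage_false hb hP hF hy hpos stA2X_ok ⟨?_, ?_, Or.inl ⟨rfl, ?_⟩⟩ pA2Xh c2 hx0 hx1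
          ht ht1 ?_ ?_ ?_ ?_ (fun _ => mP) (fun _ => mQ) gP gQ
        · rw [x1]; norm_num [stA2X]
        · rw [x3]; norm_num [stA2X]
        · rw [x1, x3]; linarith only [hx, p1]
        all_goals simp only [stA2X]; push_cast; linarith only [p1, p2, x1, hxM, gP, xP, p3, gQ, xQ]
    · refine C.stage_false hb hP hF hy hpos stA2Z_ok ⟨?_, ?_, Or.inl ⟨rfl, ?_⟩⟩ pA2Z c2 hx0 hx1
        ht0 ht1 ?_ ?_ ?_ ?_ (fun _ => mP) (fun _ => mQ) gP gQ
      · rw [x1]; norm_num [stA2Z]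
      · rw [x3]; norm_num [stA2Z]
      · rw [x1, x3]; linarith only [hx, p1]
      all_goals simp only [stA2Z]; push_cast; linarith only [p1, p2, x1, hxM, gP, xP, p3, gQ, xQ]
    · refine C.stage_false hb hP hF hy hpos stA2E_ok ⟨?_, ?_, Or.inl ⟨rfl, ?_⟩⟩ pA2E c2 hx0 hx1
        ht0 ht1 ?_ ?_ ?_ ?_ (fun _ => mP) (fun _ => mQ) gP gQ
      · rw [x1]; norm_num [stA2E]
      · rw [x3]; norm_num [stA2E]
      · rw [x1, x3]; linarith only [hx, p1]
      all_goals simp only [stA2E]; push_cast; linarith only [p1, p2, x1, hxM, gP, xP, p3, gQ, xQ]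

/-- the largest hinge between two digits `1` -/
theorem exists_max_ctx (hb : ClassW b) (zs : DD (tyW b) ⊕ ZZ (tyW b) → ℂ) (A : Adj h i s j)
    (ci : clsW b i = .one) (cj : clsW b j = .one) :
    ∃ (h0 h1 h2 : Fin M) (i0 j0 k0 l0 : Fin (M + 1)) (s0 : Fin 3),
      Ctx b h0 h1 h2 i0 j0 k0 l0 s0 ∧ y (.inl (.inl h)) ≤ y (.inl (.inl h0)) ∧
      (∀ {h' : Fin M} {i' j' : Fin (M + 1)} {s' : Fin 3}, Adj h' i' s' j' → clsW b i' = .one →
        clsW b j' = .one → y (.inl (.inl h')) ≤ y (.inl (.inl h0))) := by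
  classical
  have hB : ∀ {h : Fin M} {i j : Fin (M + 1)} {s : Fin 3}, Adj h i s j → clsW b i = .one →
      clsW b j = .one → clsW b h.castSucc = .one ∧ clsW b h.succ = .one := by
    intro h i j s A ci cj
    cases A
    · exact ⟨ci, cj⟩
    · exact ⟨cj, ci⟩
  obtain ⟨h0, hm, hmax⟩ := (Finset.univ.filter fun h : Fin M =>
    clsW b h.castSucc = .one ∧ clsW b h.succ = .one).exists_max_image
      (fun h => y (.inl (.inl h))) ⟨h, by
        rw [Finset.mem_filter]
        exact ⟨Finset.mem_univ h, hB A ci cj⟩⟩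
  rw [Finset.mem_filter] at hm
  obtain ⟨h1, h2, k0, l0, C⟩ := exists_ctx zs y hb (Adj.l (h := h0)) hm.2.1 hm.2.2
  refine ⟨h0, h1, h2, _, _, k0, l0, _, C, hmax h ?_, fun A' ci' cj' => hmax _ ?_⟩
  · rw [Finset.mem_filter]
    exact ⟨Finset.mem_univ _, hB A ci cj⟩
  · rw [Finset.mem_filter]
    exact ⟨Finset.mem_univ _, hB A' ci' cj'⟩

/-- **Round A: every hinge between two digits `1` is at most `.70`.** -/
theorem capA (hb : ClassW b) (hP : LocP b zs) (hF : Flo b zs y) (hy : Mx b zs y)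
    (hpos : ∀ h : Fin M, 0 < y (.inl (.inl h))) (A : Adj h i s j) (ci : clsW b i = .one)
    (cj : clsW b j = .one) : y (.inl (.inl h)) ≤ 70 / 100 := by
  obtain ⟨h0, h1, h2, i0, j0, k0, l0, s0, C, hle, hmax⟩ := exists_max_ctx (y := y) hb zs A ci cj
  by_contra hcon
  push Not at hcon
  have hx := hcon.trans_le hle
  rcases le_total 0 (hT b zs i0 h0) with hT | hT
  · exact C.capA_false hb hP hF hy hpos hx hT (fun hk => hmax C.A1 C.ci hk)
      (fun hl => hmax C.A2 C.cj hl)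
  · have e := C.hT_j (zs := zs) hb
    exact C.symm.capA_false hb hP hF hy hpos hx (by rw [e]; linarith only [hT])
      (fun hl => hmax C.A2 C.cj hl) (fun hk => hmax C.A1 C.ci hk)

/-- the floors of the round `L0` -/
theorem Flo.of (hb : ClassW b) (hX : LocX b zs) (hy : Mx b zs y)
    (hpos : ∀ h : Fin M, 0 < y (.inl (.inl h))) (hF : Flr b y F0) : Flo b zs y := by
  refine ⟨fun A ci => ?_, fun A ci cj A1 A2 n1 n2 => floor_one_one hb hX hy hpos hF A ci cj A1 A2
    n1 n2⟩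
  have h1 := hF A
  rw [ci] at h1
  exact h1

end OR

end Pool.Agent.Work.MP_b30479_gt.G2
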