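import Pool.Agent.Work.MP_b30479_gt.G2.OCapR

/-!
# Caps of the hinges `1 | 1` in the rounds with the floors `F1` and `F2`
-/

namespace Pool.Agent.Work.MP_b30479_gt.G2

open Finset VOL Filter Topology SR

namespace OR

variable {M : ℕ} {b : Fin (M + 1) → ℤ} {zs : DD (tyW b) ⊕ ZZ (tyW b) → ℂ}
variable {y : DD (tyW b) ⊕ ZZ (tyW b) → ℝ}
variable {h h' h'' : Fin M} {i j k l : Fin (M + 1)} {s : Fin 3}

theorem FlP.of1 (hF : Flr b y F1) : FlP b y fR := by
  intro h i j p A ci
  have h1 := hF A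
  rw [ci] at h1
  refine le_trans ?_ h1
  rcases A.slot with rfl | rfl <;> generalize clsW b j = B <;> cases B <;>
    simp [F1, fR, pcOf] <;> norm_num

theorem FlP.of2 (hF : Flr b y F2) : FlP b y fT := by
  intro h i j p A ci
  have h1 := hF A
  rw [ci] at h1
  refine le_trans ?_ h1
  rcases A.slot with rfl | rfl <;> generalize clsW b j = B <;> cases B <;>
    simp [F2, fT, pcOf] <;> norm_num

/-- **Round `R1.3`: the hinge `1 | 1` is at most `.64`.** -/
theorem cap11R (hb : ClassW b) (hP : LocP b zs) (hF : Flr b y F1) (hy : Mx b zs y)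
    (hpos : ∀ h : Fin M, 0 < y (.inl (.inl h))) (hS : Sum1 b y (95 / 100))
    (h70 : ∀ {h : Fin M} {i j : Fin (M + 1)} {p : Fin 3}, Adj h i p j → clsW b i = .one →
      clsW b j = .one → y (.inl (.inl h)) ≤ 70 / 100)
    (A : Adj h i s j) (A1 : Adj h' i s.rev k) (A2 : Adj h'' j s l) (ci : clsW b i = .one)
    (cj : clsW b j = .one) : y (.inl (.inl h)) ≤ 64 / 100 ∧
      (clsW b k = .one ∨ clsW b l = .one → y (.inl (.inl h)) ≤ 64 / 100) :=
  capR hb hP (FlP.of1 hF) hy hpos hS h70 ⟨A, A1, A2, ci, cj⟩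

/-- **Round `R2`: the hinge `1 | 1` is at most `.60` next to another `1`; it is at most `.615`
next to a `3`, and at most `.60` if moreover the other outer neighbour is not a ring.** -/
theorem cap11T (hb : ClassW b) (hP : LocP b zs) (hF : Flr b y F2) (hy : Mx b zs y)
    (hpos : ∀ h : Fin M, 0 < y (.inl (.inl h))) (hS : Sum1 b y (95 / 100))
    (h64 : ∀ {h h' h'' : Fin M} {i j k l : Fin (M + 1)} {s : Fin 3}, Adj h i s j →
      Adj h' i s.rev k → Adj h'' j s l → clsW b i = .one → clsW b j = .one →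
      y (.inl (.inl h)) ≤ 64 / 100 ∧
      (clsW b k = .one ∨ clsW b l = .one → y (.inl (.inl h)) ≤ 64 / 100))
    (A : Adj h i s j) (A1 : Adj h' i s.rev k) (A2 : Adj h'' j s l) (ci : clsW b i = .one)
    (cj : clsW b j = .one) :
    (clsW b k = .one ∨ clsW b l = .one → y (.inl (.inl h)) ≤ 60 / 100) ∧
      (clsW b k = .three ∨ clsW b l = .three → y (.inl (.inl h)) ≤ 615 / 1000 ∧
        (clsW b k ≠ .ring → clsW b l ≠ .ring → y (.inl (.inl h)) ≤ 60 / 100)) :=
  capT hb hP (FlP.of2 hF) hy hpos hS (fun C => h64 C.A C.A1 C.A2 C.ci C.cj) ⟨A, A1, A2, ci, cj⟩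

end OR

end Pool.Agent.Work.MP_b30479_gt.G2
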