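import Pool.Agent.Work.MP_b30479_gt.G2.OStR
import Pool.Agent.Work.MP_b30479_gt.G2.ORows

namespace Pool.Agent.Work.MP_b30479_gt.G2

namespace OR

/-- windows -/
def r2z_1_wp : PC → Win
  | .one => ⟨0, 0, 0, 0, 0, 0⟩
  | .two => ⟨0, 0, 0, 0, 0, 0⟩
  | .twoE => ⟨0, 0, 0, 0, 0, 0⟩
  | .thrR => ⟨0, 0, 0, 0, 0, 0⟩
  | .thrL => ⟨0, 0, 0, 0, 0, 0⟩
  | .threeE => ⟨0, 0, 0, 0, 0, 0⟩
  | .ring => ⟨270, 1080, 250, 1010, 0, 440⟩

/-- windows -/
def r2z_1_wq : PC → Win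
  | .one => ⟨0, 0, 0, 0, 0, 0⟩
  | .two => ⟨0, 0, 0, 0, 0, 0⟩
  | .twoE => ⟨0, 0, 0, 0, 0, 0⟩
  | .thrR => ⟨0, 0, 0, 0, 0, 0⟩
  | .thrL => ⟨0, 0, 0, 0, 0, 0⟩
  | .threeE => ⟨0, 0, 0, 0, 0, 0⟩
  | .ring => ⟨270, 1080, 250, 1010, -440, 0⟩

/-- mode -/
def r2z_1_m0 : Mode where
  md := .D
  lam := 3500
  ct := 13000
  gp := fun
    | .one => [e00, e00, e00, e00]
    | .two => [e00, e00, e00, e00]
    | .twoE => [e00, e00, e00, e00]
    | .thrR => [e00, e00, e00]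
    | .thrL => [e00, e00, e00, e00]
    | .threeE => [e00, e00, e00, e00]
    | .ring => [⟨-2875, [157049957293814743331]⟩, ⟨-2875, [36642654227]⟩, ⟨-2875, [36549695523]⟩, ⟨-2875, [10550729970466]⟩]
  gq := fun
    | .one => [e00, e00, e00, e00]
    | .two => [e00, e00, e00, e00]
    | .twoE => [e00, e00, e00, e00]
    | .thrR => [e00, e00, e00]
    | .thrL => [e00, e00, e00, e00]
    | .threeE => [e00, e00, e00, e00]
    | .ring => [⟨-3289, [10292548892531338354655523]⟩, ⟨-3289, [2394221335185443]⟩, ⟨-3289, [10283101997920245595537714]⟩, ⟨-3289, [760251780193284196162415436578]⟩]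

/-- piece -/
def r2z_1 : Piece := ⟨6800, 7000, 0, 820, r2z_1_wp, r2z_1_wq, [r2z_1_m0]⟩

set_option linter.defProp false

def r2z_1_r0_one0 : rowsOk stR2Z r2z_1 r2z_1_m0 false .one = true := by decide +kernel

def r2z_1_r0_one1 : rowsOk stR2Z r2z_1 r2z_1_m0 true .one = true := by decide +kernel

def r2z_1_r0_two0 : rowsOk stR2Z r2z_1 r2z_1_m0 false .two = true := by decide +kernel

def r2z_1_r0_two1 : rowsOk stR2Z r2z_1 r2z_1_m0 true .two = true := by decide +kernel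

def r2z_1_r0_twoE0 : rowsOk stR2Z r2z_1 r2z_1_m0 false .twoE = true := by decide +kernel

def r2z_1_r0_twoE1 : rowsOk stR2Z r2z_1 r2z_1_m0 true .twoE = true := by decide +kernel

def r2z_1_r0_thrR0 : rowsOk stR2Z r2z_1 r2z_1_m0 false .thrR = true := by decide +kernel

def r2z_1_r0_thrR1 : rowsOk stR2Z r2z_1 r2z_1_m0 true .thrR = true := by decide +kernel

def r2z_1_r0_thrL0 : rowsOk stR2Z r2z_1 r2z_1_m0 false .thrL = true := by decide +kernel

def r2z_1_r0_thrL1 : rowsOk stR2Z r2z_1 r2z_1_m0 true .thrL = true := by decide +kernel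

def r2z_1_r0_threeE0 : rowsOk stR2Z r2z_1 r2z_1_m0 false .threeE = true := by decide +kernel

def r2z_1_r0_threeE1 : rowsOk stR2Z r2z_1 r2z_1_m0 true .threeE = true := by decide +kernel

def r2z_1_r0_ring0 : rowsOk stR2Z r2z_1 r2z_1_m0 false .ring = true := by decide +kernel

def r2z_1_r0_ring1 : rowsOk stR2Z r2z_1 r2z_1_m0 true .ring = true := by decide +kernel

theorem r2z_1_r0 : allRows stR2Z r2z_1 r2z_1_m0 = true := by
  refine allRows_of fun P => ?_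
  cases P
  exacts [⟨r2z_1_r0_one0, r2z_1_r0_one1⟩,
    ⟨r2z_1_r0_two0, r2z_1_r0_two1⟩,
    ⟨r2z_1_r0_twoE0, r2z_1_r0_twoE1⟩,
    ⟨r2z_1_r0_thrR0, r2z_1_r0_thrR1⟩,
    ⟨r2z_1_r0_thrL0, r2z_1_r0_thrL1⟩,
    ⟨r2z_1_r0_threeE0, r2z_1_r0_threeE1⟩,
    ⟨r2z_1_r0_ring0, r2z_1_r0_ring1⟩]

theorem r2z_1_ok : r2z_1.ok stR2Z = true := by
  have h : (PC.all.all fun P => PC.all.all fun Q => pairOk stR2Z r2z_1 P Q) = true := by decide +kernel
  have d0 : mdOk stR2Z r2z_1_m0.md = true := by decide +kernel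
  unfold Piece.ok
  rw [h, Bool.true_and]
  show List.all [r2z_1_m0] _ = true
  rw [List.all_eq_true]
  intro m hm
  simp only [List.mem_cons, List.not_mem_nil, or_false] at hm
  rcases hm with rfl
  · rw [r2z_1_r0, d0]; rfl

end OR

end Pool.Agent.Work.MP_b30479_gt.G2
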