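import Pool.Agent.Work.MP_b30479_gt.G2.OStR
import Pool.Agent.Work.MP_b30479_gt.G2.ORows

namespace Pool.Agent.Work.MP_b30479_gt.G2

namespace OR

/-- windows -/
def r3n_0_wp : PC → Win
  | .one => ⟨-770, 520, -810, 760, 0, 530⟩
  | .two => ⟨-30, 780, -50, 1100, 0, 620⟩
  | .twoE => ⟨-610, -170, -220, 530, 190, 820⟩
  | .thrR => ⟨310, 930, 280, 1270, 0, 580⟩
  | .thrL => ⟨310, 930, 280, 1270, 0, 580⟩
  | .threeE => ⟨160, 600, 360, 1170, 10, 740⟩
  | .ring => ⟨0, 0, 0, 0, 0, 0⟩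

/-- windows -/
def r3n_0_wq : PC → Win
  | .one => ⟨-770, 530, -920, 760, -820, 0⟩
  | .two => ⟨-30, 780, -50, 1100, -290, 0⟩
  | .twoE => ⟨0, 0, 0, 0, 0, 0⟩
  | .thrR => ⟨310, 930, 280, 1270, -240, 0⟩
  | .thrL => ⟨310, 930, 280, 1270, -240, 0⟩
  | .threeE => ⟨0, 0, 0, 0, 0, 0⟩
  | .ring => ⟨0, 0, 0, 0, 0, 0⟩

/-- mode -/
def r3n_0_m0 : Mode where
  md := .D
  lam := 2500
  ct := 13000
  gp := fun
    | .one => [⟨-1501, [9352350564659]⟩, ⟨-1501, [36644751395]⟩, ⟨-1501, [9360923703331]⟩, ⟨-1501, [20505440142687079167080376899005733143290766725539734260891057551545227244085697998139844475302690]⟩]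
    | .two => [⟨-411, [8]⟩, ⟨-411, [142837810]⟩, ⟨-411, [142837810]⟩, ⟨-411, [3591688826658164319763492702491149855693369428677410]⟩]
    | .twoE => [⟨1389, [8]⟩, ⟨1389, [8]⟩, ⟨1389, [2177]⟩, ⟨1389, [194705704793017290647039170347298]⟩]
    | .thrR => [⟨-711, [9352428132402]⟩, ⟨-711, [142837810]⟩, ⟨-711, [755211767085061114292278403378]⟩]
    | .thrL => [⟨-711, [142837810]⟩, ⟨-711, [142837810]⟩, ⟨-711, [142837810]⟩, ⟨-711, [755211767085061114292278403378]⟩]
    | .threeE => [⟨-136, [8]⟩, ⟨-136, [2178]⟩, ⟨-136, [557442]⟩, ⟨-136, [12671825242548463220771869430765879586]⟩]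
    | .ring => [e00, e00, e00, e00]
  gq := fun
    | .one => [⟨-1693, [613483729162634033]⟩, ⟨-1693, [613202176876512019]⟩, ⟨-1693, [10314562094096031952699683]⟩, ⟨-1693, [457286595805716920050215419790130487060062717111119562112290960771277703650116581093742244131022955411046832973322378426037700211455065002786]⟩]
    | .two => [⟨-603, [8]⟩, ⟨-603, [8]⟩, ⟨-603, [2178]⟩, ⟨-603, [3265266910997102243983777983131450639138]⟩]
    | .twoE => [e00, e00, e00, e00]
    | .thrR => [⟨-903, [559154]⟩, ⟨-903, [2179]⟩, ⟨-903, [11529704474813536147112738]⟩]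
    | .thrL => [⟨-903, [2179]⟩, ⟨-903, [2178]⟩, ⟨-903, [2179]⟩, ⟨-903, [11529704474813536147112738]⟩]
    | .threeE => [e00, e00, e00, e00]
    | .ring => [e00, e00, e00, e00]

/-- piece -/
def r3n_0 : Piece := ⟨6400, 6700, 0, 820, r3n_0_wp, r3n_0_wq, [r3n_0_m0]⟩

set_option linter.defProp false

def r3n_0_r0_one0 : rowsOk stR3 r3n_0 r3n_0_m0 false .one = true := by decide +kernel

def r3n_0_r0_one1 : rowsOk stR3 r3n_0 r3n_0_m0 true .one = true := by decide +kernel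

def r3n_0_r0_two0 : rowsOk stR3 r3n_0 r3n_0_m0 false .two = true := by decide +kernel

def r3n_0_r0_two1 : rowsOk stR3 r3n_0 r3n_0_m0 true .two = true := by decide +kernel

def r3n_0_r0_twoE0 : rowsOk stR3 r3n_0 r3n_0_m0 false .twoE = true := by decide +kernel

def r3n_0_r0_twoE1 : rowsOk stR3 r3n_0 r3n_0_m0 true .twoE = true := by decide +kernel

def r3n_0_r0_thrR0 : rowsOk stR3 r3n_0 r3n_0_m0 false .thrR = true := by decide +kernel

def r3n_0_r0_thrR1 : rowsOk stR3 r3n_0 r3n_0_m0 true .thrR = true := by decide +kernel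

def r3n_0_r0_thrL0 : rowsOk stR3 r3n_0 r3n_0_m0 false .thrL = true := by decide +kernel

def r3n_0_r0_thrL1 : rowsOk stR3 r3n_0 r3n_0_m0 true .thrL = true := by decide +kernel

def r3n_0_r0_threeE0 : rowsOk stR3 r3n_0 r3n_0_m0 false .threeE = true := by decide +kernel

def r3n_0_r0_threeE1 : rowsOk stR3 r3n_0 r3n_0_m0 true .threeE = true := by decide +kernel

def r3n_0_r0_ring0 : rowsOk stR3 r3n_0 r3n_0_m0 false .ring = true := by decide +kernel

def r3n_0_r0_ring1 : rowsOk stR3 r3n_0 r3n_0_m0 true .ring = true := by decide +kernel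

theorem r3n_0_r0 : allRows stR3 r3n_0 r3n_0_m0 = true := by
  refine allRows_of fun P => ?_
  cases P
  exacts [⟨r3n_0_r0_one0, r3n_0_r0_one1⟩,
    ⟨r3n_0_r0_two0, r3n_0_r0_two1⟩,
    ⟨r3n_0_r0_twoE0, r3n_0_r0_twoE1⟩,
    ⟨r3n_0_r0_thrR0, r3n_0_r0_thrR1⟩,
    ⟨r3n_0_r0_thrL0, r3n_0_r0_thrL1⟩,
    ⟨r3n_0_r0_threeE0, r3n_0_r0_threeE1⟩,
    ⟨r3n_0_r0_ring0, r3n_0_r0_ring1⟩]

theorem r3n_0_ok : r3n_0.ok stR3 = true := by
  have h : (PC.all.all fun P => PC.all.all fun Q => pairOk stR3 r3n_0 P Q) = true := by decide +kernel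
  have d0 : mdOk stR3 r3n_0_m0.md = true := by decide +kernel
  unfold Piece.ok
  rw [h, Bool.true_and]
  show List.all [r3n_0_m0] _ = true
  rw [List.all_eq_true]
  intro m hm
  simp only [List.mem_cons, List.not_mem_nil, or_false] at hm
  rcases hm with rfl
  · rw [r3n_0_r0, d0]; rfl

end OR

end Pool.Agent.Work.MP_b30479_gt.G2
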