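import Pool.Agent.Work.MP_b30479_gt.G2.OStR
import Pool.Agent.Work.MP_b30479_gt.G2.ORows

namespace Pool.Agent.Work.MP_b30479_gt.G2

namespace OR

/-- windows -/
def r3z_0_wp : PC → Win
  | .one => ⟨-890, 290, -820, 330, 0, 430⟩
  | .two => ⟨0, 0, 0, 0, 0, 0⟩
  | .twoE => ⟨0, 0, 0, 0, 0, 0⟩
  | .thrR => ⟨0, 0, 0, 0, 0, 0⟩
  | .thrL => ⟨0, 0, 0, 0, 0, 0⟩
  | .threeE => ⟨0, 0, 0, 0, 0, 0⟩
  | .ring => ⟨480, 1330, 470, 1500, 0, 610⟩

/-- windows -/
def r3z_0_wq : PC → Win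
  | .one => ⟨-890, 290, -820, 330, -610, 0⟩
  | .two => ⟨0, 0, 0, 0, 0, 0⟩
  | .twoE => ⟨0, 0, 0, 0, 0, 0⟩
  | .thrR => ⟨0, 0, 0, 0, 0, 0⟩
  | .thrL => ⟨0, 0, 0, 0, 0, 0⟩
  | .threeE => ⟨0, 0, 0, 0, 0, 0⟩
  | .ring => ⟨480, 1330, 470, 1500, -430, 0⟩

/-- mode -/
def r3z_0_m0 : Mode where
  md := .D
  lam := 2000
  ct := 13000
  gp := fun
    | .one => [⟨-2184, [40205271076116582924595]⟩, ⟨-2184, [142837810]⟩, ⟨-2184, [142837811]⟩, ⟨-2184, [213992362553326425561128222840987973666964018]⟩]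
    | .two => [e00, e00, e00, e00]
    | .twoE => [e00, e00, e00, e00]
    | .thrR => [e00, e00, e00]
    | .thrL => [e00, e00, e00, e00]
    | .threeE => [e00, e00, e00, e00]
    | .ring => [⟨-208, [613197120356321299]⟩, ⟨-208, [614796911033026579]⟩, ⟨-208, [36643637267]⟩, ⟨-208, [686940997205655858]⟩]
  gq := fun
    | .one => [⟨-2196, [2395321271859219]⟩, ⟨-2196, [36642654227]⟩, ⟨-2196, [36549703699]⟩, ⟨-2196, [60233978153906852472904671679364950615716986006007735391026]⟩]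
    | .two => [e00, e00, e00, e00]
    | .twoE => [e00, e00, e00, e00]
    | .thrR => [e00, e00, e00]
    | .thrL => [e00, e00, e00, e00]
    | .threeE => [e00, e00, e00, e00]
    | .ring => [⟨-220, [9361018684035]⟩, ⟨-220, [36642653059]⟩, ⟨-220, [36642654243]⟩, ⟨-220, [755173049879516485239875666482]⟩]

/-- piece -/
def r3z_0 : Piece := ⟨6400, 6600, 0, 820, r3z_0_wp, r3z_0_wq, [r3z_0_m0]⟩

set_option linter.defProp false

def r3z_0_r0_one0 : rowsOk stR3Z r3z_0 r3z_0_m0 false .one = true := by decide +kernel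

def r3z_0_r0_one1 : rowsOk stR3Z r3z_0 r3z_0_m0 true .one = true := by decide +kernel

def r3z_0_r0_two0 : rowsOk stR3Z r3z_0 r3z_0_m0 false .two = true := by decide +kernel

def r3z_0_r0_two1 : rowsOk stR3Z r3z_0 r3z_0_m0 true .two = true := by decide +kernel

def r3z_0_r0_twoE0 : rowsOk stR3Z r3z_0 r3z_0_m0 false .twoE = true := by decide +kernel

def r3z_0_r0_twoE1 : rowsOk stR3Z r3z_0 r3z_0_m0 true .twoE = true := by decide +kernel

def r3z_0_r0_thrR0 : rowsOk stR3Z r3z_0 r3z_0_m0 false .thrR = true := by decide +kernel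

def r3z_0_r0_thrR1 : rowsOk stR3Z r3z_0 r3z_0_m0 true .thrR = true := by decide +kernel

def r3z_0_r0_thrL0 : rowsOk stR3Z r3z_0 r3z_0_m0 false .thrL = true := by decide +kernel

def r3z_0_r0_thrL1 : rowsOk stR3Z r3z_0 r3z_0_m0 true .thrL = true := by decide +kernel

def r3z_0_r0_threeE0 : rowsOk stR3Z r3z_0 r3z_0_m0 false .threeE = true := by decide +kernel

def r3z_0_r0_threeE1 : rowsOk stR3Z r3z_0 r3z_0_m0 true .threeE = true := by decide +kernel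

def r3z_0_r0_ring0 : rowsOk stR3Z r3z_0 r3z_0_m0 false .ring = true := by decide +kernel

def r3z_0_r0_ring1 : rowsOk stR3Z r3z_0 r3z_0_m0 true .ring = true := by decide +kernel

theorem r3z_0_r0 : allRows stR3Z r3z_0 r3z_0_m0 = true := by
  refine allRows_of fun P => ?_
  cases P
  exacts [⟨r3z_0_r0_one0, r3z_0_r0_one1⟩,
    ⟨r3z_0_r0_two0, r3z_0_r0_two1⟩,
    ⟨r3z_0_r0_twoE0, r3z_0_r0_twoE1⟩,
    ⟨r3z_0_r0_thrR0, r3z_0_r0_thrR1⟩,
    ⟨r3z_0_r0_thrL0, r3z_0_r0_thrL1⟩,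
    ⟨r3z_0_r0_threeE0, r3z_0_r0_threeE1⟩,
    ⟨r3z_0_r0_ring0, r3z_0_r0_ring1⟩]

theorem r3z_0_ok : r3z_0.ok stR3Z = true := by
  have h : (PC.all.all fun P => PC.all.all fun Q => pairOk stR3Z r3z_0 P Q) = true := by decide +kernel
  have d0 : mdOk stR3Z r3z_0_m0.md = true := by decide +kernel
  unfold Piece.ok
  rw [h, Bool.true_and]
  show List.all [r3z_0_m0] _ = true
  rw [List.all_eq_true]
  intro m hm
  simp only [List.mem_cons, List.not_mem_nil, or_false] at hm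
  rcases hm with rfl
  · rw [r3z_0_r0, d0]; rfl

end OR

end Pool.Agent.Work.MP_b30479_gt.G2
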