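import Pool.Agent.Work.MP_b30479_gt.G2.OStR
import Pool.Agent.Work.MP_b30479_gt.G2.ORows

namespace Pool.Agent.Work.MP_b30479_gt.G2

namespace OR

/-- windows -/
def t2z_0_wp : PC → Win
  | .one => ⟨0, 0, 0, 0, 0, 0⟩
  | .two => ⟨0, 0, 0, 0, 0, 0⟩
  | .twoE => ⟨0, 0, 0, 0, 0, 0⟩
  | .thrR => ⟨100, 700, 100, 850, 0, 480⟩
  | .thrL => ⟨100, 700, 100, 850, 0, 480⟩
  | .threeE => ⟨0, 0, 0, 0, 0, 0⟩
  | .ring => ⟨390, 1120, 310, 980, 0, 270⟩

/-- windows -/
def t2z_0_wq : PC → Win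
  | .one => ⟨0, 0, 0, 0, 0, 0⟩
  | .two => ⟨0, 0, 0, 0, 0, 0⟩
  | .twoE => ⟨0, 0, 0, 0, 0, 0⟩
  | .thrR => ⟨100, 700, 100, 850, -270, 0⟩
  | .thrL => ⟨100, 700, 100, 850, -270, 0⟩
  | .threeE => ⟨0, 0, 0, 0, 0, 0⟩
  | .ring => ⟨390, 1120, 310, 980, -480, 0⟩

/-- mode -/
def t2z_0_m0 : Mode where
  md := .D
  lam := 4000
  ct := 1000
  gp := fun
    | .one => [e00, e00, e00]
    | .two => [e00, e00, e00]
    | .twoE => [e00, e00, e00]
    | .thrR => [⟨-2667, [173092336844804973333707223085346]⟩, ⟨-2667, [2179]⟩, ⟨-2667, [686940997207361586]⟩]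
    | .thrL => [⟨-2667, [559154]⟩, ⟨-2667, [2179]⟩, ⟨-2667, [686940997207361586]⟩]
    | .threeE => [e00, e00, e00]
    | .ring => [⟨-3381, [118352628679108359853428901312700915990134074369969985160176727530886465830179869970538805545330871698143554126255493683]⟩, ⟨-3381, [22352185752405227368480814660419712543479565818642322025208231916787070939112953877027]⟩, ⟨-3381, [559154]⟩, ⟨-3381, [36643768370]⟩]
  gq := fun
    | .one => [e00, e00, e00]
    | .two => [e00, e00, e00]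
    | .twoE => [e00, e00, e00]
    | .thrR => [⟨-2663, [4243824950646186973818214544511528728425024046746240614394751956982861969555879476933154]⟩, ⟨-2663, [8]⟩, ⟨-2663, [40939717250]⟩]
    | .thrL => [⟨-2663, [2179]⟩, ⟨-2663, [8]⟩, ⟨-2663, [40939717250]⟩]
    | .threeE => [e00, e00, e00]
    | .ring => [⟨-3377, [20478370315863196706034349513933183457483035161323626205152736007149916244353302173675932647278027172026200355]⟩, ⟨-3377, [229531642365981320306487671980501021811804741618564685390854915391794]⟩, ⟨-3377, [2178]⟩, ⟨-3377, [11523026249712720587274274]⟩]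

/-- piece -/
def t2z_0 : Piece := ⟨6150, 6275, 0, 820, t2z_0_wp, t2z_0_wq, [t2z_0_m0]⟩

set_option linter.defProp false

def t2z_0_r0_one0 : rowsOk stT2Z t2z_0 t2z_0_m0 false .one = true := by decide +kernel

def t2z_0_r0_one1 : rowsOk stT2Z t2z_0 t2z_0_m0 true .one = true := by decide +kernel

def t2z_0_r0_two0 : rowsOk stT2Z t2z_0 t2z_0_m0 false .two = true := by decide +kernel

def t2z_0_r0_two1 : rowsOk stT2Z t2z_0 t2z_0_m0 true .two = true := by decide +kernel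

def t2z_0_r0_twoE0 : rowsOk stT2Z t2z_0 t2z_0_m0 false .twoE = true := by decide +kernel

def t2z_0_r0_twoE1 : rowsOk stT2Z t2z_0 t2z_0_m0 true .twoE = true := by decide +kernel

def t2z_0_r0_thrR0 : rowsOk stT2Z t2z_0 t2z_0_m0 false .thrR = true := by decide +kernel

def t2z_0_r0_thrR1 : rowsOk stT2Z t2z_0 t2z_0_m0 true .thrR = true := by decide +kernel

def t2z_0_r0_thrL0 : rowsOk stT2Z t2z_0 t2z_0_m0 false .thrL = true := by decide +kernel

def t2z_0_r0_thrL1 : rowsOk stT2Z t2z_0 t2z_0_m0 true .thrL = true := by decide +kernel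

def t2z_0_r0_threeE0 : rowsOk stT2Z t2z_0 t2z_0_m0 false .threeE = true := by decide +kernel

def t2z_0_r0_threeE1 : rowsOk stT2Z t2z_0 t2z_0_m0 true .threeE = true := by decide +kernel

def t2z_0_r0_ring0 : rowsOk stT2Z t2z_0 t2z_0_m0 false .ring = true := by decide +kernel

def t2z_0_r0_ring1 : rowsOk stT2Z t2z_0 t2z_0_m0 true .ring = true := by decide +kernel

theorem t2z_0_r0 : allRows stT2Z t2z_0 t2z_0_m0 = true := by
  refine allRows_of fun P => ?_
  cases P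
  exacts [⟨t2z_0_r0_one0, t2z_0_r0_one1⟩,
    ⟨t2z_0_r0_two0, t2z_0_r0_two1⟩,
    ⟨t2z_0_r0_twoE0, t2z_0_r0_twoE1⟩,
    ⟨t2z_0_r0_thrR0, t2z_0_r0_thrR1⟩,
    ⟨t2z_0_r0_thrL0, t2z_0_r0_thrL1⟩,
    ⟨t2z_0_r0_threeE0, t2z_0_r0_threeE1⟩,
    ⟨t2z_0_r0_ring0, t2z_0_r0_ring1⟩]

theorem t2z_0_ok : t2z_0.ok stT2Z = true := by
  have h : (PC.all.all fun P => PC.all.all fun Q => pairOk stT2Z t2z_0 P Q) = true := by decide +kernel
  have d0 : mdOk stT2Z t2z_0_m0.md = true := by decide +kernel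
  unfold Piece.ok
  rw [h, Bool.true_and]
  show List.all [t2z_0_m0] _ = true
  rw [List.all_eq_true]
  intro m hm
  simp only [List.mem_cons, List.not_mem_nil, or_false] at hm
  rcases hm with rfl
  · rw [t2z_0_r0, d0]; rfl

end OR

end Pool.Agent.Work.MP_b30479_gt.G2
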