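import Pool.Agent.Work.MP_b30479_gt.G2.OStR
import Pool.Agent.Work.MP_b30479_gt.G2.ORows

namespace Pool.Agent.Work.MP_b30479_gt.G2

namespace OR

/-- windows -/
def t3n_0_wp : PC → Win
  | .one => ⟨-770, 520, -810, 760, 0, 530⟩
  | .two => ⟨-30, 780, -50, 1100, 0, 620⟩
  | .twoE => ⟨-610, -170, -220, 530, 190, 820⟩
  | .thrR => ⟨310, 930, 280, 1270, 0, 580⟩
  | .thrL => ⟨310, 930, 280, 1270, 0, 580⟩
  | .threeE => ⟨160, 600, 360, 1170, 10, 740⟩
  | .ring => ⟨0, 0, 0, 0, 0, 0⟩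

/-- windows -/
def t3n_0_wq : PC → Win
  | .one => ⟨-770, 530, -920, 760, -820, 0⟩
  | .two => ⟨-30, 780, -50, 1100, -290, 0⟩
  | .twoE => ⟨0, 0, 0, 0, 0, 0⟩
  | .thrR => ⟨310, 930, 280, 1270, -240, 0⟩
  | .thrL => ⟨310, 930, 280, 1270, -240, 0⟩
  | .threeE => ⟨0, 0, 0, 0, 0, 0⟩
  | .ring => ⟨0, 0, 0, 0, 0, 0⟩

/-- mode -/
def t3n_0_m0 : Mode where
  md := .D
  lam := 2500
  ct := 13000
  gp := fun
    | .one => [⟨-1779, [40205270994136569774883]⟩, ⟨-1779, [142706739]⟩, ⟨-1779, [898525085115866774333690572168240415709780155996214652296189149746]⟩]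
    | .two => [⟨-162, [2179]⟩, ⟨-162, [2179]⟩, ⟨-162, [2903291128224895740665372321636668703026]⟩]
    | .twoE => [⟨1638, [8]⟩, ⟨1638, [8]⟩, ⟨1638, [40204717016189961245314]⟩]
    | .thrR => [⟨-462, [157051920016458940722]⟩, ⟨-462, [2179]⟩, ⟨-462, [613484067010674994]⟩]
    | .thrL => [⟨-462, [559154]⟩, ⟨-462, [2179]⟩, ⟨-462, [613484067010674994]⟩]
    | .threeE => [⟨113, [2177]⟩, ⟨113, [8]⟩, ⟨113, [613202587849689106]⟩]
    | .ring => [e00, e00, e00, e00]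
  gq := fun
    | .one => [⟨-1942, [10314682751611791619949361]⟩, ⟨-1942, [613483729162634033]⟩, ⟨-1942, [70971361647209597732363633824292232433543506261742887668114940004162693092011465568354619109682]⟩]
    | .two => [⟨-325, [8]⟩, ⟨-325, [8]⟩, ⟨-325, [40289096493590474033202]⟩]
    | .twoE => [e00, e00, e00]
    | .thrR => [⟨-625, [559154]⟩, ⟨-625, [8]⟩, ⟨-625, [2401554723407922]⟩]
    | .thrL => [⟨-625, [2179]⟩, ⟨-625, [8]⟩, ⟨-625, [2401554723407922]⟩]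
    | .threeE => [e00, e00, e00]
    | .ring => [e00, e00, e00, e00]

/-- piece -/
def t3n_0 : Piece := ⟨6000, 6200, 0, 820, t3n_0_wp, t3n_0_wq, [t3n_0_m0]⟩

set_option linter.defProp false

def t3n_0_r0_one0 : rowsOk stT3 t3n_0 t3n_0_m0 false .one = true := by decide +kernel

def t3n_0_r0_one1 : rowsOk stT3 t3n_0 t3n_0_m0 true .one = true := by decide +kernel

def t3n_0_r0_two0 : rowsOk stT3 t3n_0 t3n_0_m0 false .two = true := by decide +kernel

def t3n_0_r0_two1 : rowsOk stT3 t3n_0 t3n_0_m0 true .two = true := by decide +kernel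

def t3n_0_r0_twoE0 : rowsOk stT3 t3n_0 t3n_0_m0 false .twoE = true := by decide +kernel

def t3n_0_r0_twoE1 : rowsOk stT3 t3n_0 t3n_0_m0 true .twoE = true := by decide +kernel

def t3n_0_r0_thrR0 : rowsOk stT3 t3n_0 t3n_0_m0 false .thrR = true := by decide +kernel

def t3n_0_r0_thrR1 : rowsOk stT3 t3n_0 t3n_0_m0 true .thrR = true := by decide +kernel

def t3n_0_r0_thrL0 : rowsOk stT3 t3n_0 t3n_0_m0 false .thrL = true := by decide +kernel

def t3n_0_r0_thrL1 : rowsOk stT3 t3n_0 t3n_0_m0 true .thrL = true := by decide +kernel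

def t3n_0_r0_threeE0 : rowsOk stT3 t3n_0 t3n_0_m0 false .threeE = true := by decide +kernel

def t3n_0_r0_threeE1 : rowsOk stT3 t3n_0 t3n_0_m0 true .threeE = true := by decide +kernel

def t3n_0_r0_ring0 : rowsOk stT3 t3n_0 t3n_0_m0 false .ring = true := by decide +kernel

def t3n_0_r0_ring1 : rowsOk stT3 t3n_0 t3n_0_m0 true .ring = true := by decide +kernel

theorem t3n_0_r0 : allRows stT3 t3n_0 t3n_0_m0 = true := by
  refine allRows_of fun P => ?_
  cases P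
  exacts [⟨t3n_0_r0_one0, t3n_0_r0_one1⟩,
    ⟨t3n_0_r0_two0, t3n_0_r0_two1⟩,
    ⟨t3n_0_r0_twoE0, t3n_0_r0_twoE1⟩,
    ⟨t3n_0_r0_thrR0, t3n_0_r0_thrR1⟩,
    ⟨t3n_0_r0_thrL0, t3n_0_r0_thrL1⟩,
    ⟨t3n_0_r0_threeE0, t3n_0_r0_threeE1⟩,
    ⟨t3n_0_r0_ring0, t3n_0_r0_ring1⟩]

theorem t3n_0_ok : t3n_0.ok stT3 = true := by
  have h : (PC.all.all fun P => PC.all.all fun Q => pairOk stT3 t3n_0 P Q) = true := by decide +kernel
  have d0 : mdOk stT3 t3n_0_m0.md = true := by decide +kernel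
  unfold Piece.ok
  rw [h, Bool.true_and]
  show List.all [t3n_0_m0] _ = true
  rw [List.all_eq_true]
  intro m hm
  simp only [List.mem_cons, List.not_mem_nil, or_false] at hm
  rcases hm with rfl
  · rw [t3n_0_r0, d0]; rfl

end OR

end Pool.Agent.Work.MP_b30479_gt.G2
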