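import Pool.Agent.Work.MP_b30479_gt.G2.OStR
import Pool.Agent.Work.MP_b30479_gt.G2.ORows

namespace Pool.Agent.Work.MP_b30479_gt.G2

namespace OR

/-- windows -/
def t3n_1_wp : PC → Win
  | .one => ⟨-770, 520, -810, 760, 0, 530⟩
  | .two => ⟨-30, 780, -50, 1100, 0, 620⟩
  | .twoE => ⟨-610, -170, -220, 530, 190, 820⟩
  | .thrR => ⟨310, 930, 280, 1270, 0, 580⟩
  | .thrL => ⟨310, 930, 280, 1270, 0, 580⟩
  | .threeE => ⟨160, 600, 360, 1170, 10, 740⟩
  | .ring => ⟨0, 0, 0, 0, 0, 0⟩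

/-- windows -/
def t3n_1_wq : PC → Win
  | .one => ⟨-770, 530, -920, 760, -820, 0⟩
  | .two => ⟨-30, 780, -50, 1100, -290, 0⟩
  | .twoE => ⟨0, 0, 0, 0, 0, 0⟩
  | .thrR => ⟨310, 930, 280, 1270, -240, 0⟩
  | .thrL => ⟨310, 930, 280, 1270, -240, 0⟩
  | .threeE => ⟨0, 0, 0, 0, 0, 0⟩
  | .ring => ⟨0, 0, 0, 0, 0, 0⟩

/-- mode -/
def t3n_1_m0 : Mode where
  md := .D
  lam := 2500
  ct := 13000
  gp := fun
    | .one => [⟨-1822, [36642654243]⟩, ⟨-1822, [142706739]⟩, ⟨-1822, [1010970072765689491166669630566929021534313569762523656934251528754]⟩]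
    | .two => [⟨-156, [2179]⟩, ⟨-156, [2179]⟩, ⟨-156, [12754908296313785393391694015760991010]⟩]
    | .twoE => [⟨1644, [8]⟩, ⟨1644, [8]⟩, ⟨1644, [45314499587387803469842]⟩]
    | .thrR => [⟨-456, [9361019142930]⟩, ⟨-456, [2179]⟩, ⟨-456, [40205292185773468582194]⟩]
    | .thrL => [⟨-456, [559154]⟩, ⟨-456, [2179]⟩, ⟨-456, [40205292185773468582194]⟩]
    | .threeE => [⟨119, [2177]⟩, ⟨119, [2177]⟩, ⟨119, [675958218497500595563694424594]⟩]
    | .ring => [e00, e00, e00, e00]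
  gq := fun
    | .one => [⟨-1948, [40291330273941798814513]⟩, ⟨-1948, [613483720572699411]⟩, ⟨-1948, [1343809723454762800297940730160769748220606667255186659643273259515290414964379955422167590004521972018]⟩]
    | .two => [⟨-282, [8]⟩, ⟨-282, [8]⟩, ⟨-282, [11600548787859425644263458]⟩]
    | .twoE => [e00, e00, e00]
    | .thrR => [⟨-582, [2178]⟩, ⟨-582, [8]⟩, ⟨-582, [691446589699557426]⟩]
    | .thrL => [⟨-582, [8]⟩, ⟨-582, [8]⟩, ⟨-582, [691446589699557426]⟩]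
    | .threeE => [e00, e00, e00]
    | .ring => [e00, e00, e00, e00]

/-- piece -/
def t3n_1 : Piece := ⟨6200, 6400, 0, 820, t3n_1_wp, t3n_1_wq, [t3n_1_m0]⟩

set_option linter.defProp false

def t3n_1_r0_one0 : rowsOk stT3 t3n_1 t3n_1_m0 false .one = true := by decide +kernel

def t3n_1_r0_one1 : rowsOk stT3 t3n_1 t3n_1_m0 true .one = true := by decide +kernel

def t3n_1_r0_two0 : rowsOk stT3 t3n_1 t3n_1_m0 false .two = true := by decide +kernel

def t3n_1_r0_two1 : rowsOk stT3 t3n_1 t3n_1_m0 true .two = true := by decide +kernel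

def t3n_1_r0_twoE0 : rowsOk stT3 t3n_1 t3n_1_m0 false .twoE = true := by decide +kernel

def t3n_1_r0_twoE1 : rowsOk stT3 t3n_1 t3n_1_m0 true .twoE = true := by decide +kernel

def t3n_1_r0_thrR0 : rowsOk stT3 t3n_1 t3n_1_m0 false .thrR = true := by decide +kernel

def t3n_1_r0_thrR1 : rowsOk stT3 t3n_1 t3n_1_m0 true .thrR = true := by decide +kernel

def t3n_1_r0_thrL0 : rowsOk stT3 t3n_1 t3n_1_m0 false .thrL = true := by decide +kernel

def t3n_1_r0_thrL1 : rowsOk stT3 t3n_1 t3n_1_m0 true .thrL = true := by decide +kernel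

def t3n_1_r0_threeE0 : rowsOk stT3 t3n_1 t3n_1_m0 false .threeE = true := by decide +kernel

def t3n_1_r0_threeE1 : rowsOk stT3 t3n_1 t3n_1_m0 true .threeE = true := by decide +kernel

def t3n_1_r0_ring0 : rowsOk stT3 t3n_1 t3n_1_m0 false .ring = true := by decide +kernel

def t3n_1_r0_ring1 : rowsOk stT3 t3n_1 t3n_1_m0 true .ring = true := by decide +kernel

theorem t3n_1_r0 : allRows stT3 t3n_1 t3n_1_m0 = true := by
  refine allRows_of fun P => ?_
  cases P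
  exacts [⟨t3n_1_r0_one0, t3n_1_r0_one1⟩,
    ⟨t3n_1_r0_two0, t3n_1_r0_two1⟩,
    ⟨t3n_1_r0_twoE0, t3n_1_r0_twoE1⟩,
    ⟨t3n_1_r0_thrR0, t3n_1_r0_thrR1⟩,
    ⟨t3n_1_r0_thrL0, t3n_1_r0_thrL1⟩,
    ⟨t3n_1_r0_threeE0, t3n_1_r0_threeE1⟩,
    ⟨t3n_1_r0_ring0, t3n_1_r0_ring1⟩]

theorem t3n_1_ok : t3n_1.ok stT3 = true := by
  have h : (PC.all.all fun P => PC.all.all fun Q => pairOk stT3 t3n_1 P Q) = true := by decide +kernel
  have d0 : mdOk stT3 t3n_1_m0.md = true := by decide +kernel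
  unfold Piece.ok
  rw [h, Bool.true_and]
  show List.all [t3n_1_m0] _ = true
  rw [List.all_eq_true]
  intro m hm
  simp only [List.mem_cons, List.not_mem_nil, or_false] at hm
  rcases hm with rfl
  · rw [t3n_1_r0, d0]; rfl

end OR

end Pool.Agent.Work.MP_b30479_gt.G2
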