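import Pool.Agent.Work.MP_b30479_gt.G2.OStR
import Pool.Agent.Work.MP_b30479_gt.G2.ORows

namespace Pool.Agent.Work.MP_b30479_gt.G2

namespace OR

/-- windows -/
def t3z_2_wp : PC → Win
  | .one => ⟨-890, 290, -820, 330, 0, 430⟩
  | .two => ⟨0, 0, 0, 0, 0, 0⟩
  | .twoE => ⟨0, 0, 0, 0, 0, 0⟩
  | .thrR => ⟨0, 0, 0, 0, 0, 0⟩
  | .thrL => ⟨0, 0, 0, 0, 0, 0⟩
  | .threeE => ⟨0, 0, 0, 0, 0, 0⟩
  | .ring => ⟨480, 1330, 470, 1500, 0, 610⟩

/-- windows -/
def t3z_2_wq : PC → Win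
  | .one => ⟨-890, 290, -820, 330, -610, 0⟩
  | .two => ⟨0, 0, 0, 0, 0, 0⟩
  | .twoE => ⟨0, 0, 0, 0, 0, 0⟩
  | .thrR => ⟨0, 0, 0, 0, 0, 0⟩
  | .thrL => ⟨0, 0, 0, 0, 0, 0⟩
  | .threeE => ⟨0, 0, 0, 0, 0, 0⟩
  | .ring => ⟨480, 1330, 470, 1500, -430, 0⟩

/-- mode -/
def t3z_2_m0 : Mode where
  md := .D
  lam := 2000
  ct := 13000
  gp := fun
    | .one => [⟨-2464, [9361019115570]⟩, ⟨-2464, [2179]⟩, ⟨-2464, [49493556298081710174557814503539506]⟩]
    | .two => [e00, e00, e00]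
    | .twoE => [e00, e00, e00]
    | .thrR => [e00, e00, e00]
    | .thrL => [e00, e00, e00]
    | .threeE => [e00, e00, e00]
    | .ring => [⟨68, [557443]⟩, ⟨68, [2401550433722755]⟩, ⟨68, [557443]⟩, ⟨68, [614761726643568931]⟩]
  gq := fun
    | .one => [⟨-2472, [36642654227]⟩, ⟨-2472, [142706707]⟩, ⟨-2472, [54782494333380073107755324942854646941173907762]⟩]
    | .two => [e00, e00, e00]
    | .twoE => [e00, e00, e00]
    | .thrR => [e00, e00, e00]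
    | .thrL => [e00, e00, e00]
    | .threeE => [e00, e00, e00]
    | .ring => [⟨60, [142837809]⟩, ⟨60, [143135363]⟩, ⟨60, [557699]⟩, ⟨60, [2640462086077180378561937970]⟩]

/-- piece -/
def t3z_2 : Piece := ⟨6200, 6300, 0, 820, t3z_2_wp, t3z_2_wq, [t3z_2_m0]⟩

set_option linter.defProp false

def t3z_2_r0_one0 : rowsOk stT3Z t3z_2 t3z_2_m0 false .one = true := by decide +kernel

def t3z_2_r0_one1 : rowsOk stT3Z t3z_2 t3z_2_m0 true .one = true := by decide +kernel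

def t3z_2_r0_two0 : rowsOk stT3Z t3z_2 t3z_2_m0 false .two = true := by decide +kernel

def t3z_2_r0_two1 : rowsOk stT3Z t3z_2 t3z_2_m0 true .two = true := by decide +kernel

def t3z_2_r0_twoE0 : rowsOk stT3Z t3z_2 t3z_2_m0 false .twoE = true := by decide +kernel

def t3z_2_r0_twoE1 : rowsOk stT3Z t3z_2 t3z_2_m0 true .twoE = true := by decide +kernel

def t3z_2_r0_thrR0 : rowsOk stT3Z t3z_2 t3z_2_m0 false .thrR = true := by decide +kernel

def t3z_2_r0_thrR1 : rowsOk stT3Z t3z_2 t3z_2_m0 true .thrR = true := by decide +kernel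

def t3z_2_r0_thrL0 : rowsOk stT3Z t3z_2 t3z_2_m0 false .thrL = true := by decide +kernel

def t3z_2_r0_thrL1 : rowsOk stT3Z t3z_2 t3z_2_m0 true .thrL = true := by decide +kernel

def t3z_2_r0_threeE0 : rowsOk stT3Z t3z_2 t3z_2_m0 false .threeE = true := by decide +kernel

def t3z_2_r0_threeE1 : rowsOk stT3Z t3z_2 t3z_2_m0 true .threeE = true := by decide +kernel

def t3z_2_r0_ring0 : rowsOk stT3Z t3z_2 t3z_2_m0 false .ring = true := by decide +kernel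

def t3z_2_r0_ring1 : rowsOk stT3Z t3z_2 t3z_2_m0 true .ring = true := by decide +kernel

theorem t3z_2_r0 : allRows stT3Z t3z_2 t3z_2_m0 = true := by
  refine allRows_of fun P => ?_
  cases P
  exacts [⟨t3z_2_r0_one0, t3z_2_r0_one1⟩,
    ⟨t3z_2_r0_two0, t3z_2_r0_two1⟩,
    ⟨t3z_2_r0_twoE0, t3z_2_r0_twoE1⟩,
    ⟨t3z_2_r0_thrR0, t3z_2_r0_thrR1⟩,
    ⟨t3z_2_r0_thrL0, t3z_2_r0_thrL1⟩,
    ⟨t3z_2_r0_threeE0, t3z_2_r0_threeE1⟩,
    ⟨t3z_2_r0_ring0, t3z_2_r0_ring1⟩]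

theorem t3z_2_ok : t3z_2.ok stT3Z = true := by
  have h : (PC.all.all fun P => PC.all.all fun Q => pairOk stT3Z t3z_2 P Q) = true := by decide +kernel
  have d0 : mdOk stT3Z t3z_2_m0.md = true := by decide +kernel
  unfold Piece.ok
  rw [h, Bool.true_and]
  show List.all [t3z_2_m0] _ = true
  rw [List.all_eq_true]
  intro m hm
  simp only [List.mem_cons, List.not_mem_nil, or_false] at hm
  rcases hm with rfl
  · rw [t3z_2_r0, d0]; rfl

end OR

end Pool.Agent.Work.MP_b30479_gt.G2
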