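import Pool.Agent.Work.MP_b30479_gt.G2.OSum
import Pool.Agent.Work.MP_b30479_gt.G2.OR3n_0
import Pool.Agent.Work.MP_b30479_gt.G2.OR3n_1
import Pool.Agent.Work.MP_b30479_gt.G2.OR3z_0
import Pool.Agent.Work.MP_b30479_gt.G2.OR3z_1
import Pool.Agent.Work.MP_b30479_gt.G2.OR3z_2
import Pool.Agent.Work.MP_b30479_gt.G2.OR2r_0
import Pool.Agent.Work.MP_b30479_gt.G2.OR2r_1
import Pool.Agent.Work.MP_b30479_gt.G2.OR2z_0
import Pool.Agent.Work.MP_b30479_gt.G2.OR2z_1
import Pool.Agent.Work.MP_b30479_gt.G2.OR2f_0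
import Pool.Agent.Work.MP_b30479_gt.G2.OR2f_1
import Pool.Agent.Work.MP_b30479_gt.G2.OR2g_0
import Pool.Agent.Work.MP_b30479_gt.G2.OR2g_1
import Pool.Agent.Work.MP_b30479_gt.G2.OT3n_0
import Pool.Agent.Work.MP_b30479_gt.G2.OT3n_1
import Pool.Agent.Work.MP_b30479_gt.G2.OT3z_0
import Pool.Agent.Work.MP_b30479_gt.G2.OT3z_1
import Pool.Agent.Work.MP_b30479_gt.G2.OT3z_2
import Pool.Agent.Work.MP_b30479_gt.G2.OT3z_3
import Pool.Agent.Work.MP_b30479_gt.G2.OT2n_0
import Pool.Agent.Work.MP_b30479_gt.G2.OT2n_1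
import Pool.Agent.Work.MP_b30479_gt.G2.OT2z_0
import Pool.Agent.Work.MP_b30479_gt.G2.OT2z_1

/-!
# Caps of the hinges between two digits `1` after the first left round
-/

namespace Pool.Agent.Work.MP_b30479_gt.G2

open Finset VOL Filter Topology SR

namespace OR

/-- floors after the first left round -/
def fR : PC → ℤ
  | .one => 1250
  | .two => 1500
  | .twoE => 1250
  | .thrR => 1300
  | .thrL => 1100
  | .threeE => 1200
  | .ring => 1200

/-- floors after the second left round -/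
def fT : PC → ℤ
  | .one => 1500
  | .two => 1600
  | .twoE => 1400
  | .thrR => 1300
  | .thrL => 1500
  | .threeE => 1400
  | .ring => 1450

/-- bounds of the partners, from the sums -/
def gR (_ : PC) : ℤ := 3400
def gT (_ : PC) : ℤ := 3500

theorem stR3_ok : StOk stR3 fR gR :=
  ⟨goodA rfl (by decide +kernel), rfl, rfl, Or.inr rfl, by decide +kernel⟩

theorem stR3Z_ok : StOk stR3Z fR gR :=
  ⟨goodA rfl (by decide +kernel), rfl, rfl, Or.inr rfl, by decide +kernel⟩

theorem stR2R_ok : StOk stR2R fR gR :=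
  ⟨goodA rfl (by decide +kernel), rfl, rfl, Or.inr rfl, by decide +kernel⟩

theorem stR2Z_ok : StOk stR2Z fR gR :=
  ⟨goodA rfl (by decide +kernel), rfl, rfl, Or.inr rfl, by decide +kernel⟩

theorem stR2F_ok : StOk stR2F fR gR :=
  ⟨goodA rfl (by decide +kernel), rfl, rfl, Or.inr rfl, by decide +kernel⟩

theorem stR2G_ok : StOk stR2G fR gR :=
  ⟨goodA rfl (by decide +kernel), rfl, rfl, Or.inr rfl, by decide +kernel⟩

theorem stT3_ok : StOk stT3 fT gT :=
  ⟨goodA rfl (by decide +kernel), rfl, rfl, Or.inr rfl, by decide +kernel⟩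

theorem stT3Z_ok : StOk stT3Z fT gT :=
  ⟨goodA rfl (by decide +kernel), rfl, rfl, Or.inr rfl, by decide +kernel⟩

theorem stT2_ok : StOk stT2 fT gT :=
  ⟨goodA rfl (by decide +kernel), rfl, rfl, Or.inr rfl, by decide +kernel⟩

theorem stT2Z_ok : StOk stT2Z fT gT :=
  ⟨goodA rfl (by decide +kernel), rfl, rfl, Or.inr rfl, by decide +kernel⟩

theorem pR3 : POk stR3 [r3n_0, r3n_1] 6400 7000 0 820 := by
  refine ⟨?_, by decide +kernel⟩
  intro p hp
  simp only [List.mem_cons, List.not_mem_nil, or_false] at hp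
  rcases hp with rfl | rfl
  · exact ⟨r3n_0_ok, by decide, by decide, by decide⟩
  · exact ⟨r3n_1_ok, by decide, by decide, by decide⟩

theorem pR3Z : POk stR3Z [r3z_0, r3z_1, r3z_2] 6400 7000 0 820 := by
  refine ⟨?_, by decide +kernel⟩
  intro p hp
  simp only [List.mem_cons, List.not_mem_nil, or_false] at hp
  rcases hp with rfl | rfl | rfl
  · exact ⟨r3z_0_ok, by decide, by decide, by decide⟩
  · exact ⟨r3z_1_ok, by decide, by decide, by decide⟩
  · exact ⟨r3z_2_ok, by decide, by decide, by decide⟩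

theorem pR2R : POk stR2R [r2r_0, r2r_1] 6600 7000 0 820 := by
  refine ⟨?_, by decide +kernel⟩
  intro p hp
  simp only [List.mem_cons, List.not_mem_nil, or_false] at hp
  rcases hp with rfl | rfl
  · exact ⟨r2r_0_ok, by decide, by decide, by decide⟩
  · exact ⟨r2r_1_ok, by decide, by decide, by decide⟩

theorem pR2Z : POk stR2Z [r2z_0, r2z_1] 6600 7000 0 820 := by
  refine ⟨?_, by decide +kernel⟩
  intro p hp
  simp only [List.mem_cons, List.not_mem_nil, or_false] at hp
  rcases hp with rfl | rfl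
  · exact ⟨r2z_0_ok, by decide, by decide, by decide⟩
  · exact ⟨r2z_1_ok, by decide, by decide, by decide⟩

theorem pR2F : POk stR2F [r2f_0, r2f_1] 6400 6600 0 820 := by
  refine ⟨?_, by decide +kernel⟩
  intro p hp
  simp only [List.mem_cons, List.not_mem_nil, or_false] at hp
  rcases hp with rfl | rfl
  · exact ⟨r2f_0_ok, by decide, by decide, by decide⟩
  · exact ⟨r2f_1_ok, by decide, by decide, by decide⟩

theorem pR2G : POk stR2G [r2g_0, r2g_1] 6400 6600 0 820 := by
  refine ⟨?_, by decide +kernel⟩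
  intro p hp
  simp only [List.mem_cons, List.not_mem_nil, or_false] at hp
  rcases hp with rfl | rfl
  · exact ⟨r2g_0_ok, by decide, by decide, by decide⟩
  · exact ⟨r2g_1_ok, by decide, by decide, by decide⟩

theorem pT3 : POk stT3 [t3n_0, t3n_1] 6000 6400 0 820 := by
  refine ⟨?_, by decide +kernel⟩
  intro p hp
  simp only [List.mem_cons, List.not_mem_nil, or_false] at hp
  rcases hp with rfl | rfl
  · exact ⟨t3n_0_ok, by decide, by decide, by decide⟩
  · exact ⟨t3n_1_ok, by decide, by decide, by decide⟩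

theorem pT3Z : POk stT3Z [t3z_0, t3z_1, t3z_2, t3z_3] 6000 6400 0 820 := by
  refine ⟨?_, by decide +kernel⟩
  intro p hp
  simp only [List.mem_cons, List.not_mem_nil, or_false] at hp
  rcases hp with rfl | rfl | rfl | rfl
  · exact ⟨t3z_0_ok, by decide, by decide, by decide⟩
  · exact ⟨t3z_1_ok, by decide, by decide, by decide⟩
  · exact ⟨t3z_2_ok, by decide, by decide, by decide⟩
  · exact ⟨t3z_3_ok, by decide, by decide, by decide⟩

theorem pT2 : POk stT2 [t2n_0, t2n_1] 6000 6400 0 820 := by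
  refine ⟨?_, by decide +kernel⟩
  intro p hp
  simp only [List.mem_cons, List.not_mem_nil, or_false] at hp
  rcases hp with rfl | rfl
  · exact ⟨t2n_0_ok, by decide, by decide, by decide⟩
  · exact ⟨t2n_1_ok, by decide, by decide, by decide⟩

theorem pT2Z : POk stT2Z [t2z_0, t2z_1] 6150 6400 0 820 := by
  refine ⟨?_, by decide +kernel⟩
  intro p hp
  simp only [List.mem_cons, List.not_mem_nil, or_false] at hp
  rcases hp with rfl | rfl
  · exact ⟨t2z_0_ok, by decide, by decide, by decide⟩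
  · exact ⟨t2z_1_ok, by decide, by decide, by decide⟩

theorem kindR3 {P Q : PC} (hc : P = .one ∨ Q = .one) :
    (stR3.kind P Q = true ∨ stR3Z.kind P Q = true) ∧
      (stT3.kind P Q = true ∨ stT3Z.kind P Q = true) := by
  cases P <;> cases Q <;> simp_all [stR3, stR3Z, stT3, stT3Z]

theorem kindR2 {P Q : PC} (hn : n33 P Q) (hc : ¬ (P = .one ∨ Q = .one)) :
    (stR2R.kind P Q = true ∧ stR2F.kind P Q = true) ∨
      (stR2Z.kind P Q = true ∧ stR2G.kind P Q = true) := by
  unfold n33 at hn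
  cases P <;> cases Q <;> simp_all [stR2R, stR2Z, stR2F, stR2G]

/-- a region with three crossings -/
def isT (P : PC) : Prop := P = .thrR ∨ P = .thrL

theorem kindT2 {P Q : PC} (hn : n33 P Q) (hc : ¬ (P = .one ∨ Q = .one)) (ht : isT P ∨ isT Q) :
    (¬ (P = .ring ∨ Q = .ring) → stT2.kind P Q = true) ∧
      (P = .ring ∨ Q = .ring → stT2Z.kind P Q = true) := by
  unfold n33 at hn
  unfold isT at ht
  cases P <;> cases Q <;> simp_all [stT2, stT2Z]

variable {M : ℕ} {b : Fin (M + 1) → ℤ} {zs : DD (tyW b) ⊕ ZZ (tyW b) → ℂ}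
variable {y : DD (tyW b) ⊕ ZZ (tyW b) → ℝ}
variable {h h' h'' : Fin M} {i j k l : Fin (M + 1)} {s : Fin 3}

/-- floors of the hinges of the digits `1` -/
def FlP (b : Fin (M + 1) → ℤ) (y : DD (tyW b) ⊕ ZZ (tyW b) → ℝ) (f : PC → ℤ) : Prop :=
  ∀ {h : Fin M} {i j : Fin (M + 1)} {p : Fin 3}, Adj h i p j → clsW b i = .one →
    (f (pcOf (clsW b j) p) : ℝ) / 10000 ≤ y (.inl (.inl h))

/-- the conditions at the hinge `h` of a round with sums at most `.95` -/
structure Ctx.RC (C : Ctx b h h' h'' i j k l s) (zs : DD (tyW b) ⊕ ZZ (tyW b) → ℂ)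
    (y : DD (tyW b) ⊕ ZZ (tyW b) → ℝ) : Prop where
  hb : ClassW b
  hP : LocP b zs
  hy : Mx b zs y
  hpos : ∀ h : Fin M, 0 < y (.inl (.inl h))
  sP : y (.inl (.inl h)) + y (.inl (.inl h')) ≤ 95 / 100
  sQ : y (.inl (.inl h)) + y (.inl (.inl h'')) ≤ 95 / 100
  hT0 : 0 ≤ hT b zs i h
  mP : clsW b k = .one → y (.inl (.inl h')) ≤ y (.inl (.inl h))
  mQ : clsW b l = .one → y (.inl (.inl h'')) ≤ y (.inl (.inl h))

theorem Ctx.r_false {C : Ctx b h h' h'' i j k l s} (R : C.RC zs y) {S : Stage}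
    {f g : PC → ℤ} (hF : FlP b y f) (hS : StOk S f g) (hf : ¬ f .one < 850)
    (H : OwnOk b y S h) {L : List Piece} {a c : ℤ}
    (hL : POk S L a c 0 820) (hk : S.kind (cP b k s) (cQ b l s) = true)
    (hx0 : (a : ℝ) / 10000 ≤ y (.inl (.inl h))) (hx1 : y (.inl (.inl h)) ≤ (c : ℝ) / 10000)
    (e1 : S.slp = 0) (e2 : S.scp = 9500) (e3 : S.slq = 0) (e4 : S.scq = 9500)
    (gP : y (.inl (.inl h')) ≤ (g (cP b k s) : ℝ) / 10000)
    (gQ : y (.inl (.inl h'')) ≤ (g (cQ b l s) : ℝ) / 10000) : False := by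
  have p1 := R.hpos h
  have p2 := R.hpos h'
  have p3 := R.hpos h''
  have sP := R.sP
  have sQ := R.sQ
  refine C.stage_false' R.hb R.hP R.hy R.hpos hS H hL hk hx0 hx1 (by push_cast; linarith only [C, R, R.hT0])
    (C.hTr R.hP).2 ?_ ?_ ?_ ?_ (fun _ => R.mP) (fun _ => R.mQ) (hF C.A1 C.ci) (hF C.A2 C.cj) gP gQ
    (fun hc => absurd hc hf) (fun hc => absurd hc hf)
  · rw [e1]; push_cast; linarith only [p1, p2]
  · rw [e2]; push_cast; linarith only [sP]
  · rw [e3]; push_cast; linarith only [p1, p3]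
  · rw [e4]; push_cast; linarith only [sQ]

/-- the hinges `1|1` beyond `.64` -/
theorem Ctx.capR_false {C : Ctx b h h' h'' i j k l s} (R : C.RC zs y) (hF : FlP b y fR)
    (h70 : y (.inl (.inl h)) ≤ 70 / 100)
    (hx : (if cP b k s = .one ∨ cQ b l s = .one then 64 / 100 else 64 / 100) <
      y (.inl (.inl h))) : False := by
  obtain ⟨x1, x2, x3⟩ := C.xm
  have sP := R.sP
  have sQ := R.sQ
  have hf : ¬ fR .one < 850 := by decide
  have hx61 : 64 / 100 < y (.inl (.inl h)) := by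
    split_ifs at hx <;> linarith only [hx]
  have gP : y (.inl (.inl h')) ≤ (gR (cP b k s) : ℝ) / 10000 := by
    unfold gR; push_cast; linarith only [sP, hx61]
  have gQ : y (.inl (.inl h'')) ≤ (gR (cQ b l s) : ℝ) / 10000 := by
    unfold gR; push_cast; linarith only [sQ, hx61]
  by_cases c1 : cP b k s = .one ∨ cQ b l s = .one
  · rw [if_pos c1] at x1 hx
    rcases (kindR3 c1).1 with k3 | k3
    · refine C.r_false R hF stR3_ok hf ⟨?_, ?_, Or.inl ⟨rfl, ?_⟩⟩ pR3 k3 ?_ ?_ rfl rfl rfl rfl gP gQ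
      · rw [x1]; norm_num [stR3]
      · rw [x3]; norm_num [stR3]
      · rw [x1, x3]; linarith only [hx]
      all_goals push_cast; linarith only [hx, h70]
    · refine C.r_false R hF stR3Z_ok hf ⟨?_, ?_, Or.inl ⟨rfl, ?_⟩⟩ pR3Z k3 ?_ ?_ rfl rfl rfl rfl
        gP gQ
      · rw [x1]; norm_num [stR3Z]
      · rw [x3]; norm_num [stR3Z]
      · rw [x1, x3]; linarith only [hx]
      all_goals push_cast; linarith only [hx, h70]
  · rw [if_neg c1] at x1 hx
    rcases kindR2 C.n33 c1 with ⟨k1, k2⟩ | ⟨k1, k2⟩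
    · rcases le_or_gt (y (.inl (.inl h))) (66 / 100) with hl | hl
      · refine C.r_false R hF stR2F_ok hf ⟨?_, ?_, Or.inr ⟨rfl, ?_, ?_⟩⟩ pR2F k2 ?_ ?_ rfl rfl rfl
          rfl gP gQ
        · rw [x1]; norm_num [stR2F]
        · rw [x3]; norm_num [stR2F]
        · rw [x2]; linarith only [hx, hl]
        · rw [x1, x3]; linarith only [hl]
        all_goals push_cast; linarith only [hx, hl]
      · refine C.r_false R hF stR2R_ok hf ⟨?_, ?_, Or.inl ⟨rfl, ?_⟩⟩ pR2R k1 ?_ ?_ rfl rfl rfl rfl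
          gP gQ
        · rw [x1]; norm_num [stR2R]
        · rw [x3]; norm_num [stR2R]
        · rw [x1, x3]; linarith only [hl]
        all_goals push_cast; linarith only [hl, h70]
    · rcases le_or_gt (y (.inl (.inl h))) (66 / 100) with hl | hl
      · refine C.r_false R hF stR2G_ok hf ⟨?_, ?_, Or.inr ⟨rfl, ?_, ?_⟩⟩ pR2G k2 ?_ ?_ rfl rfl rfl
          rfl gP gQ
        · rw [x1]; norm_num [stR2G]
        · rw [x3]; norm_num [stR2G]
        · rw [x2]; linarith only [hx, hl]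
        · rw [x1, x3]; linarith only [hl]
        all_goals push_cast; linarith only [hx, hl]
      · refine C.r_false R hF stR2Z_ok hf ⟨?_, ?_, Or.inl ⟨rfl, ?_⟩⟩ pR2Z k1 ?_ ?_ rfl rfl rfl rfl
          gP gQ
        · rw [x1]; norm_num [stR2Z]
        · rw [x3]; norm_num [stR2Z]
        · rw [x1, x3]; linarith only [hl]
        all_goals push_cast; linarith only [hl, h70]

/-- next to another digit `1`: beyond `.60` -/
theorem Ctx.capT3_false {C : Ctx b h h' h'' i j k l s} (R : C.RC zs y) (hF : FlP b y fT)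
    (h61 : y (.inl (.inl h)) ≤ 64 / 100) (hx : 60 / 100 < y (.inl (.inl h)))
    (c1 : cP b k s = .one ∨ cQ b l s = .one) : False := by
  obtain ⟨x1, x2, x3⟩ := C.xm
  have sP := R.sP
  have sQ := R.sQ
  have hf : ¬ fT .one < 850 := by decide
  have gP : y (.inl (.inl h')) ≤ (gT (cP b k s) : ℝ) / 10000 := by
    unfold gT; push_cast; linarith only [hx, sP]
  have gQ : y (.inl (.inl h'')) ≤ (gT (cQ b l s) : ℝ) / 10000 := by
    unfold gT; push_cast; linarith only [hx, sQ]
  rw [if_pos c1] at x1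
  rcases (kindR3 c1).2 with k3 | k3
  · refine C.r_false R hF stT3_ok hf ⟨?_, ?_, Or.inl ⟨rfl, ?_⟩⟩ pT3 k3 ?_ ?_ rfl rfl rfl rfl gP gQ
    · rw [x1]; norm_num [stT3]
    · rw [x3]; norm_num [stT3]
    · rw [x1, x3]; linarith only [hx]
    all_goals push_cast; linarith only [hx, h61]
  · refine C.r_false R hF stT3Z_ok hf ⟨?_, ?_, Or.inl ⟨rfl, ?_⟩⟩ pT3Z k3 ?_ ?_ rfl rfl rfl rfl
      gP gQ
    · rw [x1]; norm_num [stT3Z]
    · rw [x3]; norm_num [stT3Z]
    · rw [x1, x3]; linarith only [hx]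
    all_goals push_cast; linarith only [hx, h61]

/-- next to a region with three crossings: beyond `.60`, beyond `.615` if the other outer neighbour
is a ring -/
theorem Ctx.capT2_false {C : Ctx b h h' h'' i j k l s} (R : C.RC zs y) (hF : FlP b y fT)
    (h64 : y (.inl (.inl h)) ≤ 64 / 100)
    (hx : (if cP b k s = .ring ∨ cQ b l s = .ring then 615 / 1000 else 60 / 100) <
      y (.inl (.inl h)))
    (c1 : ¬ (cP b k s = .one ∨ cQ b l s = .one)) (c2 : isT (cP b k s) ∨ isT (cQ b l s)) :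
    False := by
  obtain ⟨x1, x2, x3⟩ := C.xm
  have sP := R.sP
  have sQ := R.sQ
  have hf : ¬ fT .one < 850 := by decide
  have hx60 : 60 / 100 < y (.inl (.inl h)) := by
    split_ifs at hx <;> linarith only [hx]
  have gP : y (.inl (.inl h')) ≤ (gT (cP b k s) : ℝ) / 10000 := by
    unfold gT; push_cast; linarith only [sP, hx60]
  have gQ : y (.inl (.inl h'')) ≤ (gT (cQ b l s) : ℝ) / 10000 := by
    unfold gT; push_cast; linarith only [sQ, hx60]
  rw [if_neg c1] at x1
  obtain ⟨k1, k2⟩ := kindT2 C.n33 c1 c2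
  by_cases c3 : cP b k s = .ring ∨ cQ b l s = .ring
  · rw [if_pos c3] at hx
    refine C.r_false R hF stT2Z_ok hf ⟨?_, ?_, Or.inr ⟨rfl, ?_, ?_⟩⟩ pT2Z (k2 c3) ?_ ?_ rfl rfl rfl
      rfl gP gQ
    · rw [x1]; norm_num [stT2Z]
    · rw [x3]; norm_num [stT2Z]
    · rw [x2]; linarith only [h64, hx60]
    · rw [x1, x3]; linarith only [h64, hx60]
    all_goals push_cast; linarith only [hx, h64]
  · refine C.r_false R hF stT2_ok hf ⟨?_, ?_, Or.inr ⟨rfl, ?_, ?_⟩⟩ pT2 (k1 c3) ?_ ?_ rfl rfl rfl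
      rfl gP gQ
    · rw [x1]; norm_num [stT2]
    · rw [x3]; norm_num [stT2]
    · rw [x2]; linarith only [h64, hx60]
    · rw [x1, x3]; linarith only [h64, hx60]
    all_goals push_cast; linarith only [hx60, h64]

/-- the conditions of a round at a hinge, one of the two orientations -/
theorem Ctx.rc (C : Ctx b h h' h'' i j k l s) (hb : ClassW b) (hP : LocP b zs) (hy : Mx b zs y)
    (hpos : ∀ h : Fin M, 0 < y (.inl (.inl h))) (hS : Sum1 b y (95 / 100))
    (mP : clsW b k = .one → y (.inl (.inl h')) ≤ y (.inl (.inl h)))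
    (mQ : clsW b l = .one → y (.inl (.inl h'')) ≤ y (.inl (.inl h))) :
    C.RC zs y ∨ C.symm.RC zs y := by
  have e := C.hT_j (zs := zs) hb
  have s1 := hS C.A C.A1 C.ci
  have s2 := hS C.symm.A C.symm.A1 C.cj
  rcases le_total 0 (hT b zs i h) with hT | hT
  · exact Or.inl ⟨hb, hP, hy, hpos, s1, s2, hT, mP, mQ⟩
  · exact Or.inr ⟨hb, hP, hy, hpos, s2, s1, by rw [e]; linarith only [hT], mQ, mP⟩

/-- the largest hinge `1|1` next to another digit `1` -/
theorem exists_max3 (C : Ctx b h h' h'' i j k l s) (hc : clsW b k = .one ∨ clsW b l = .one) :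
    ∃ (h0 h1 h2 : Fin M) (i0 j0 k0 l0 : Fin (M + 1)) (s0 : Fin 3),
      Ctx b h0 h1 h2 i0 j0 k0 l0 s0 ∧ (clsW b k0 = .one ∨ clsW b l0 = .one) ∧
      y (.inl (.inl h)) ≤ y (.inl (.inl h0)) ∧
      (∀ {g g' g'' : Fin M} {i' j' k' l' : Fin (M + 1)} {s' : Fin 3},
        Ctx b g g' g'' i' j' k' l' s' → (clsW b k' = .one ∨ clsW b l' = .one) →
        y (.inl (.inl g)) ≤ y (.inl (.inl h0))) := by
  classical
  let Bad : Fin M → Prop := fun h => ∃ (h1 h2 : Fin M) (i0 j0 k0 l0 : Fin (M + 1)) (s0 : Fin 3),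
    Ctx b h h1 h2 i0 j0 k0 l0 s0 ∧ (clsW b k0 = .one ∨ clsW b l0 = .one)
  obtain ⟨h0, hm, hmax⟩ := (Finset.univ.filter Bad).exists_max_image
    (fun h => y (.inl (.inl h))) ⟨h, by
      rw [Finset.mem_filter]; exact ⟨Finset.mem_univ _, h', h'', i, j, k, l, s, C, hc⟩⟩
  rw [Finset.mem_filter] at hm
  obtain ⟨h1, h2, i0, j0, k0, l0, s0, C0, hc0⟩ := hm.2
  refine ⟨h0, h1, h2, i0, j0, k0, l0, s0, C0, hc0, hmax h ?_, fun C' hc' => hmax _ ?_⟩
  · rw [Finset.mem_filter]; exact ⟨Finset.mem_univ _, h', h'', i, j, k, l, s, C, hc⟩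
  · rw [Finset.mem_filter]; exact ⟨Finset.mem_univ _, _, _, _, _, _, _, _, C', hc'⟩

/-- an outer hinge which is itself between two digits `1` -/
theorem Ctx.outer (C : Ctx b h h' h'' i j k l s) (zs : DD (tyW b) ⊕ ZZ (tyW b) → ℂ)
    (y : DD (tyW b) ⊕ ZZ (tyW b) → ℝ) (hb : ClassW b) (hk : clsW b k = .one) :
    ∃ h3 m, Ctx b h' h h3 i k j m s.rev := by
  have e2 := clsW_inner hb (Or.inl hk)
  rcases C.A1.symm.other b zs y with ⟨f1, -⟩ | ⟨-, h3, m, B3⟩
  · rw [f1] at e2
    exact absurd e2 (by decide)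
  rw [Fin.rev_rev] at B3
  exact ⟨h3, m, C.A1, by rw [Fin.rev_rev]; exact C.A, B3, C.ci, hk⟩

theorem Ctx.rc3 (C : Ctx b h h' h'' i j k l s) (hb : ClassW b) (hP : LocP b zs) (hy : Mx b zs y)
    (hpos : ∀ h : Fin M, 0 < y (.inl (.inl h))) (hS : Sum1 b y (95 / 100))
    (hmax : ∀ {g g' g'' : Fin M} {i' j' k' l' : Fin (M + 1)} {s' : Fin 3},
        Ctx b g g' g'' i' j' k' l' s' → (clsW b k' = .one ∨ clsW b l' = .one) →
        y (.inl (.inl g)) ≤ y (.inl (.inl h))) : C.RC zs y ∨ C.symm.RC zs y := by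
  refine C.rc hb hP hy hpos hS (fun hk => ?_) (fun hl => ?_)
  · obtain ⟨h3, m, C'⟩ := C.outer zs y hb hk
    exact hmax C' (Or.inl C.cj)
  · obtain ⟨h3, m, C'⟩ := C.symm.outer zs y hb hl
    exact hmax C' (Or.inl C.ci)

theorem Ctx.rc2 (C : Ctx b h h' h'' i j k l s) (hb : ClassW b) (hP : LocP b zs) (hy : Mx b zs y)
    (hpos : ∀ h : Fin M, 0 < y (.inl (.inl h))) (hS : Sum1 b y (95 / 100))
    (hc : ¬ (clsW b k = .one ∨ clsW b l = .one)) : C.RC zs y ∨ C.symm.RC zs y :=
  C.rc hb hP hy hpos hS (fun hk => absurd (Or.inl hk) hc) (fun hl => absurd (Or.inr hl) hc)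

/-- **Round R1.3: the hinges `1|1` are at most `.64`.** -/
theorem capR (hb : ClassW b) (hP : LocP b zs) (hF : FlP b y fR) (hy : Mx b zs y)
    (hpos : ∀ h : Fin M, 0 < y (.inl (.inl h))) (hS : Sum1 b y (95 / 100))
    (h70 : ∀ {h : Fin M} {i j : Fin (M + 1)} {p : Fin 3}, Adj h i p j → clsW b i = .one →
      clsW b j = .one → y (.inl (.inl h)) ≤ 70 / 100)
    (C : Ctx b h h' h'' i j k l s) : y (.inl (.inl h)) ≤ 64 / 100 ∧
      (clsW b k = .one ∨ clsW b l = .one → y (.inl (.inl h)) ≤ 64 / 100) := by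
  have key : clsW b k = .one ∨ clsW b l = .one → y (.inl (.inl h)) ≤ 64 / 100 := by
    intro hc
    obtain ⟨h0, h1, h2, i0, j0, k0, l0, s0, C0, hc0, hle, hmax⟩ := exists_max3 (y := y) C hc
    by_contra hcon
    push Not at hcon
    have hx := hcon.trans_le hle
    have h7 := h70 C0.A C0.ci C0.cj
    have hc1 : cP b k0 s0 = .one ∨ cQ b l0 s0 = .one := by
      unfold cP cQ
      simpa only [pcOf_one] using hc0
    rcases C0.rc3 hb hP hy hpos hS hmax with R | R
    · refine C0.capR_false R hF h7 ?_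
      rw [if_pos hc1]
      exact hx
    · refine C0.symm.capR_false R hF h7 ?_
      rw [cP_rev, cQ_rev, if_pos hc1.symm]
      exact hx
  refine ⟨?_, key⟩
  by_cases hc : clsW b k = .one ∨ clsW b l = .one
  · linarith only [key, hc, key hc]
  · by_contra hcon
    push Not at hcon
    have h7 := h70 C.A C.ci C.cj
    have hc1 : ¬ (cP b k s = .one ∨ cQ b l s = .one) := by
      unfold cP cQ
      simpa only [pcOf_one] using hc
    rcases C.rc2 hb hP hy hpos hS hc with R | R
    · refine C.capR_false R hF h7 ?_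
      rw [if_neg hc1]
      exact hcon
    · refine C.symm.capR_false R hF h7 ?_
      rw [cP_rev, cQ_rev, if_neg (fun h => hc1 h.symm)]
      exact hcon

/-- **Round R2: the hinges `1|1` are at most `.60` next to another digit `1`; next to a region with
three crossings they are at most `.60`, `.615` if the other outer neighbour is a ring.** -/
theorem capT (hb : ClassW b) (hP : LocP b zs) (hF : FlP b y fT) (hy : Mx b zs y)
    (hpos : ∀ h : Fin M, 0 < y (.inl (.inl h))) (hS : Sum1 b y (95 / 100))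
    (h64 : ∀ {h h' h'' : Fin M} {i j k l : Fin (M + 1)} {s : Fin 3},
      Ctx b h h' h'' i j k l s → y (.inl (.inl h)) ≤ 64 / 100 ∧
      (clsW b k = .one ∨ clsW b l = .one → y (.inl (.inl h)) ≤ 64 / 100))
    (C : Ctx b h h' h'' i j k l s) :
    (clsW b k = .one ∨ clsW b l = .one → y (.inl (.inl h)) ≤ 60 / 100) ∧
      (clsW b k = .three ∨ clsW b l = .three → y (.inl (.inl h)) ≤ 615 / 1000 ∧
        (clsW b k ≠ .ring → clsW b l ≠ .ring → y (.inl (.inl h)) ≤ 60 / 100)) := by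
  have key : clsW b k = .one ∨ clsW b l = .one → y (.inl (.inl h)) ≤ 60 / 100 := by
    intro hc
    obtain ⟨h0, h1, h2, i0, j0, k0, l0, s0, C0, hc0, hle, hmax⟩ := exists_max3 (y := y) C hc
    by_contra hcon
    push Not at hcon
    have hx := hcon.trans_le hle
    have h7 := (h64 C0).2 hc0
    have hc1 : cP b k0 s0 = .one ∨ cQ b l0 s0 = .one := by
      unfold cP cQ
      simpa only [pcOf_one] using hc0
    rcases C0.rc3 hb hP hy hpos hS hmax with R | R
    · exact C0.capT3_false R hF h7 hx hc1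
    · exact C0.symm.capT3_false R hF h7 hx (by rw [cP_rev, cQ_rev]; exact hc1.symm)
  refine ⟨key, fun h3 => ?_⟩
  by_cases hc : clsW b k = .one ∨ clsW b l = .one
  · have := key hc
    exact ⟨by linarith only [this], fun _ _ => this⟩
  have hc1 : ¬ (cP b k s = .one ∨ cQ b l s = .one) := by
    unfold cP cQ
    simpa only [pcOf_one] using hc
  have h3' : isT (cP b k s) ∨ isT (cQ b l s) := by
    unfold isT cP cQ
    rcases C.A.slot with rfl | rfl <;> rcases h3 with h3 | h3 <;> simp [h3, pcOf]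
  have h6 := (h64 C).1
  have hring : ∀ {c : Cl} {t : Fin 3}, pcOf c t = .ring → c = .ring := by
    intro c t
    cases c <;> simp [pcOf]
    split_ifs <;> simp
  have main : ¬ ((if cP b k s = .ring ∨ cQ b l s = .ring then (615 / 1000 : ℝ) else 60 / 100) <
      y (.inl (.inl h))) := by
    intro hx
    rcases C.rc2 hb hP hy hpos hS hc with R | R
    · exact C.capT2_false R hF h6 hx hc1 h3'
    · refine C.symm.capT2_false R hF h6 ?_ ?_ ?_
      · have e : (if cQ b l s = .ring ∨ cP b k s = .ring then (615 / 1000 : ℝ) else 60 / 100) =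
            (if cP b k s = .ring ∨ cQ b l s = .ring then 615 / 1000 else 60 / 100) :=
          if_congr or_comm rfl rfl
        rw [cP_rev, cQ_rev, e]
        exact hx
      · rw [cP_rev, cQ_rev]
        exact fun h => hc1 h.symm
      · rw [cP_rev, cQ_rev]
        exact h3'.symm
  push Not at main
  refine ⟨?_, fun n1 n2 => ?_⟩
  · split_ifs at main <;> linarith only [main]
  · rw [if_neg] at main
    · exact main
    · rintro (e | e)
      · exact n1 (hring e)
      · exact n2 (hring e)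

end OR

end Pool.Agent.Work.MP_b30479_gt.G2
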