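import Pool.Agent.Work.MP_b30479_gt.G2.OTab

namespace Pool.Agent.Work.MP_b30479_gt.G2

namespace OR

/-- parameters of the hinges at a digit `1` next to a digit `1` -/
def pp1 : PC → PP
  | .one => ⟨800, 150, 200⟩
  | .two => ⟨800, 160, 290⟩
  | .twoE => ⟨700, 140, 350⟩
  | .thrR => ⟨650, 130, 150⟩
  | .thrL => ⟨650, 150, 290⟩
  | .threeE => ⟨600, 140, 250⟩
  | .ring => ⟨650, 160, 290⟩

/-- windows of pairs -/
def pw1 : PC → PC → PWin
  | .one, .one => ⟨-530, 530, -690, 520, -650, 760, -690, 520, -650, 760, 630⟩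
  | .one, .two => ⟨-620, 290, -740, 400, -780, 440, -30, 780, -50, 1100, 840⟩
  | .one, .twoE => ⟨-820, -190, -510, 530, -920, 90, -610, -170, -220, 530, 120⟩
  | .one, .thrR => ⟨-580, 240, -770, 320, -810, 320, 310, 930, 280, 1270, 960⟩
  | .one, .thrL => ⟨-580, 240, -770, 320, -810, 320, 310, 930, 280, 1270, 960⟩
  | .one, .threeE => ⟨-740, -10, -670, 370, -910, 110, 160, 600, 360, 1170, 730⟩
  | .one, .ring => ⟨-610, 430, -890, 290, -820, 330, 480, 1330, 470, 1500, 1200⟩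
  | .two, .one => ⟨-290, 620, -30, 780, -50, 1100, -740, 400, -780, 440, 840⟩
  | .two, .two => ⟨-350, 350, -90, 660, -190, 760, -90, 660, -190, 760, 1050⟩
  | .two, .twoE => ⟨-660, -160, 120, 780, -360, 370, -660, -270, -330, 270, 320⟩
  | .two, .thrR => ⟨-300, 310, -120, 590, -210, 640, 250, 800, 120, 910, 1150⟩
  | .two, .thrL => ⟨-300, 310, -120, 590, -210, 640, 250, 800, 120, 910, 1150⟩
  | .two, .threeE => ⟨-480, 40, -40, 630, -330, 410, 100, 490, 220, 860, 930⟩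
  | .two, .ring => ⟨-320, 530, -230, 550, -220, 680, 410, 1200, 310, 1120, 1400⟩
  | .twoE, .one => ⟨190, 820, -610, -170, -220, 530, -510, 530, -920, 90, 120⟩
  | .twoE, .two => ⟨160, 660, -660, -270, -330, 270, 120, 780, -360, 370, 320⟩
  | .twoE, .twoE => ⟨-160, 160, -460, -140, -520, -80, -460, -140, -520, -80, -410⟩
  | .twoE, .thrR => ⟨240, 630, -680, -330, -320, 190, 440, 920, -70, 510, 440⟩
  | .twoE, .thrL => ⟨240, 630, -680, -330, -320, 190, 440, 920, -70, 510, 440⟩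
  | .twoE, .threeE => ⟨60, 380, -610, -290, -440, 0, 290, 610, 0, 440, 200⟩
  | .twoE, .ring => ⟨230, 820, -790, -360, -310, 250, 600, 1300, 110, 690, 670⟩
  | .thrR, .one => ⟨-240, 580, 310, 930, 280, 1270, -770, 320, -810, 320, 960⟩
  | .thrR, .two => ⟨-310, 300, 250, 800, 120, 910, -120, 590, -210, 640, 1150⟩
  | .thrR, .twoE => ⟨-630, -240, 440, 920, -70, 510, -680, -330, -320, 190, 440⟩
  | .thrR, .thrR => ⟨-240, 240, 220, 740, 110, 790, 220, 740, 110, 790, 1250⟩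
  | .thrR, .thrL => ⟨-240, 240, 220, 740, 110, 790, 220, 740, 110, 790, 1250⟩
  | .thrR, .threeE => ⟨-440, -40, 290, 770, -30, 560, 70, 430, 230, 760, 1040⟩
  | .thrR, .ring => ⟨-270, 480, 100, 700, 100, 850, 390, 1120, 310, 980, 1510⟩
  | .thrL, .one => ⟨-240, 580, 310, 930, 280, 1270, -770, 320, -810, 320, 960⟩
  | .thrL, .two => ⟨-310, 300, 250, 800, 120, 910, -120, 590, -210, 640, 1150⟩
  | .thrL, .twoE => ⟨-630, -240, 440, 920, -70, 510, -680, -330, -320, 190, 440⟩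
  | .thrL, .thrR => ⟨-240, 240, 220, 740, 110, 790, 220, 740, 110, 790, 1250⟩
  | .thrL, .thrL => ⟨-240, 240, 220, 740, 110, 790, 220, 740, 110, 790, 1250⟩
  | .thrL, .threeE => ⟨-440, -40, 290, 770, -30, 560, 70, 430, 230, 760, 1040⟩
  | .thrL, .ring => ⟨-270, 480, 100, 700, 100, 850, 390, 1120, 310, 980, 1510⟩
  | .threeE, .one => ⟨10, 740, 160, 600, 360, 1170, -670, 370, -910, 110, 730⟩
  | .threeE, .two => ⟨-40, 480, 100, 490, 220, 860, -40, 630, -330, 410, 930⟩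
  | .threeE, .twoE => ⟨-380, -60, 290, 610, 0, 440, -610, -290, -440, 0, 200⟩
  | .threeE, .thrR => ⟨40, 440, 70, 430, 230, 760, 290, 770, -30, 560, 1040⟩
  | .threeE, .thrL => ⟨40, 440, 70, 430, 230, 760, 290, 770, -30, 560, 1040⟩
  | .threeE, .threeE => ⟨-160, 160, 140, 460, 80, 520, 140, 460, 80, 520, 810⟩
  | .threeE, .ring => ⟨20, 650, -20, 390, 230, 810, 450, 1110, 150, 700, 1240⟩
  | .ring, .one => ⟨-430, 610, 480, 1330, 470, 1500, -890, 290, -820, 330, 1200⟩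
  | .ring, .two => ⟨-530, 320, 410, 1200, 310, 1120, -230, 550, -220, 680, 1400⟩
  | .ring, .twoE => ⟨-820, -230, 600, 1300, 110, 690, -790, -360, -310, 250, 670⟩
  | .ring, .thrR => ⟨-480, 270, 390, 1120, 310, 980, 100, 700, 100, 850, 1510⟩
  | .ring, .thrL => ⟨-480, 270, 390, 1120, 310, 980, 100, 700, 100, 850, 1510⟩
  | .ring, .threeE => ⟨-650, -20, 450, 1110, 150, 700, -20, 390, 230, 810, 1240⟩
  | .ring, .ring => ⟨-440, 440, 270, 1080, 250, 1010, 270, 1080, 250, 1010, 1760⟩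

/-- bounds of the sum of the heights for short hinges `1|1` -/
def k01 : PC → ℤ
  | .ring => 520
  | Q => (pw1 .one Q).K1

end OR

end Pool.Agent.Work.MP_b30479_gt.G2
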