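import Pool.Agent.Work.MP_b30479_gt.G2.UAnti
import Pool.Agent.Work.NumU.Tree

/-!
# Table driven rows for a digit `1` next to a digit `1`

Variables of the expressions: `x` (own hinge), `T` (its height), `B` (partner hinge) or `x + B`,
`k` (height of the partner); both heights before the ramps.  Everything in the own frame of the
digit.  Side rows (`okD`) and value rows (`okV`, the own hinge is moved to `c`).
-/

namespace Pool.Agent.Work.MP_b30479_gt.G2

open VOL

namespace OR

/-- part of the path of the own hinge: flat or right ramp (`XM`, `cr` over `1000`) -/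
inductive Own
  | F | R (XM cr : ℕ)

/-- part of the path of the partner: left ramp, flat, right ramp (over `1000`) -/
inductive Seg
  | L (cl : ℕ) | F | R (XM cr : ℕ)

section
open NumI NumI.E

theorem kc_3_15 : UA.Kc (3 / 100) (15 / 100) := by
  have h : chk [sub (q 1 1) (sub (mul (q 2 1) (cosh (mul pi (q 30 100))))
      (mul (q 2 1) (cosPi (q 6 100))))] 1 [V.of 1 0 0] = true := by decide +kernel
  have hp := pos_of_chk (chk1 h (by norm_num) (x := 0) (by norm_num) (by norm_num))
  unfold UA.Kc
  simp only [val] at hp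
  norm_num at hp ⊢
  linarith only [hp]

namespace Own

/-- slope -/
noncomputable def m : Own → ℝ → ℝ
  | F, _ => 0
  | R _ cr, T => -(1000 / (cr : ℝ) * T)

/-- height -/
noncomputable def t : Own → ℝ → ℝ → ℝ
  | F, _, T => T
  | R XM cr, x, T => T * (1000 / (cr : ℝ) * (XM / 1000 - x))

def eM : Own → E
  | F => E.q 0 1
  | R _ cr => E.neg (E.mul (E.q 1000 cr) (E.var 1))

def eT : Own → E
  | F => E.var 1
  | R XM cr => E.mul (E.var 1) (E.mul (E.q 1000 cr) (E.sub (E.q XM 1000) (E.var 0)))

theorem eM_val (o : Own) (x T Z k : ℝ) : o.eM.val [x, T, Z, k] = o.m T := by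
  cases o <;> simp [eM, m, E.val, lkR]

theorem eT_val (o : Own) (x T Z k : ℝ) : o.eT.val [x, T, Z, k] = o.t x T := by
  cases o <;> simp [eT, t, E.val, lkR]

end Own

namespace Seg

/-- height -/
noncomputable def h : Seg → ℝ → ℝ → ℝ
  | L cl, B, k => k * (1000 / (cl : ℝ) * B)
  | F, _, k => k
  | R XM cr, B, k => k * (1000 / (cr : ℝ) * (XM / 1000 - B))

def eH : Seg → E → E
  | L cl, B => E.mul (E.var 3) (E.mul (E.q 1000 cl) B)
  | F, _ => E.var 3
  | R XM cr, B => E.mul (E.var 3) (E.mul (E.q 1000 cr) (E.sub (E.q XM 1000) B))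

theorem eH_val (s : Seg) (e : E) (x T Z k : ℝ) :
    (s.eH e).val [x, T, Z, k] = s.h (e.val [x, T, Z, k]) k := by
  cases s <;> simp [eH, h, E.val, lkR]

end Seg

/-- coordinate `B` -/
def cB : E := E.var 2

/-- coordinate `x + B` -/
def cX : E := E.sub (E.var 2) (E.var 0)

theorem cB_val (x T B k : ℝ) : cB.val [x, T, B, k] = B := by simp [cB, E.val, lkR]

theorem cX_val (x T B k : ℝ) : cX.val [x, T, x + B, k] = B := by simp [cX, E.val, lkR]

end

/-- a row: ranges over `10000` of `x`, `T`, `B`, `k`; windows of `T + k` and `x + B`; the bound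
`g + lam k + ct T` (`g` over `10000`, `lam`, `ct` over `1000`) -/
structure Row where
  x0 : ℤ
  x1 : ℤ
  t0 : ℤ
  t1 : ℤ
  b0 : ℤ
  b1 : ℤ
  k0 : ℤ
  k1 : ℤ
  s0 : ℤ
  s1 : ℤ
  sl : ℤ
  sc : ℤ
  lam : ℤ
  ct : ℤ
  g : ℤ

namespace Row

/-- the point is in the range of the row -/
structure In (r : Row) (x T B k : ℝ) : Prop where
  x0 : (r.x0 : ℝ) / 10000 ≤ x
  x1 : x ≤ (r.x1 : ℝ) / 10000
  t0 : (r.t0 : ℝ) / 10000 ≤ T
  t1 : T ≤ (r.t1 : ℝ) / 10000
  b0 : (r.b0 : ℝ) / 10000 ≤ B
  b1 : B ≤ (r.b1 : ℝ) / 10000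
  k0 : (r.k0 : ℝ) / 10000 ≤ k
  k1 : k ≤ (r.k1 : ℝ) / 10000
  s0 : (r.s0 : ℝ) / 10000 ≤ T + k
  s1 : T + k ≤ (r.s1 : ℝ) / 10000
  sl : (r.sl : ℝ) / 10000 ≤ x + B
  sc : x + B ≤ (r.sc : ℝ) / 10000

/-- the bound -/
noncomputable def bd (r : Row) (T k : ℝ) : ℝ :=
  r.g / 10000 + r.lam / 1000 * k + r.ct / 1000 * T

section
open NumI NumI.E

/-- the box -/
def box (r : Row) : List V :=
  [V.of 10000 r.x0 r.x1, V.of 10000 r.t0 r.t1, V.of 10000 r.b0 r.b1, V.of 10000 r.k0 r.k1]

/-- the box in the coordinate `X = x + B`, for `X` between `lo` and `hi` -/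
def boxX (r : Row) (lo hi : ℤ) : List V :=
  [V.of 10000 r.x0 r.x1, V.of 10000 r.t0 r.t1,
    V.of 10000 (max (max (r.x0 + r.b0) r.sl) lo) (min (min (r.x1 + r.b1) r.sc) hi),
    V.of 10000 r.k0 r.k1]

def eB (r : Row) : E :=
  E.add (E.add (E.q r.g 10000) (E.mul (E.q r.lam 1000) (E.var 3))) (E.mul (E.q r.ct 1000) (E.var 1))

theorem eB_val (r : Row) (x T Z k : ℝ) : r.eB.val [x, T, Z, k] = r.bd T k := by
  simp [eB, bd, E.val, lkR]

/-- the escapes -/
def esc (r : Row) : List E :=
  [E.sub (E.add (E.var 0) (E.var 2)) (E.q r.sc 10000),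
    E.sub (E.q r.sl 10000) (E.add (E.var 0) (E.var 2)),
    E.sub (E.add (E.var 1) (E.var 3)) (E.q r.s1 10000),
    E.sub (E.q r.s0 10000) (E.add (E.var 1) (E.var 3))]

/-- the escapes in the coordinate `x + B` -/
def escX (r : Row) : List E :=
  [E.sub (E.add (E.var 1) (E.var 3)) (E.q r.s1 10000),
    E.sub (E.q r.s0 10000) (E.add (E.var 1) (E.var 3)),
    E.sub cX (E.q r.b1 10000), E.sub (E.q r.b0 10000) cX]

theorem esc_false {r : Row} {x T B k : ℝ} (h : r.In x T B k) :
    ¬ ∃ e ∈ r.esc, 0 < e.val [x, T, B, k] := by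
  rintro ⟨e, he, hp⟩
  simp only [esc, List.mem_cons, List.not_mem_nil, or_false] at he
  rcases he with rfl | rfl | rfl | rfl
  · have := h.sc
    simp [E.val, lkR] at hp
    linarith only [this, hp]
  · have := h.sl
    simp [E.val, lkR] at hp
    linarith only [this, hp]
  · have := h.s1
    simp [E.val, lkR] at hp
    linarith only [this, hp]
  · have := h.s0
    simp [E.val, lkR] at hp
    linarith only [this, hp]

theorem escX_false {r : Row} {x T B k : ℝ} (h : r.In x T B k) :
    ¬ ∃ e ∈ r.escX, 0 < e.val [x, T, x + B, k] := by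
  rintro ⟨e, he, hp⟩
  simp only [escX, List.mem_cons, List.not_mem_nil, or_false] at he
  rcases he with rfl | rfl | rfl | rfl
  · have := h.s1
    simp [E.val, lkR] at hp
    linarith only [this, hp]
  · have := h.s0
    simp [E.val, lkR] at hp
    linarith only [this, hp]
  · have := h.b1
    simp [E.val, lkR, cX] at hp
    linarith only [this, hp]
  · have := h.b0
    simp [E.val, lkR, cX] at hp
    linarith only [this, hp]

theorem mem_box {r : Row} {x T B k : ℝ} (h : r.In x T B k) :
    List.Forall₂ V.Mem r.box [x, T, B, k] :=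
  List.Forall₂.cons (V.of_mem (by norm_num) (by exact_mod_cast h.x0) (by exact_mod_cast h.x1))
    (List.Forall₂.cons (V.of_mem (by norm_num) (by exact_mod_cast h.t0) (by exact_mod_cast h.t1))
      (List.Forall₂.cons (V.of_mem (by norm_num) (by exact_mod_cast h.b0) (by exact_mod_cast h.b1))
        (List.Forall₂.cons (V.of_mem (by norm_num) (by exact_mod_cast h.k0)
          (by exact_mod_cast h.k1)) List.Forall₂.nil)))

theorem mem_boxX {r : Row} {x T B k : ℝ} (h : r.In x T B k) {lo hi : ℤ}
    (h0 : (lo : ℝ) / 10000 ≤ x + B) (h1 : x + B ≤ (hi : ℝ) / 10000) :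
    List.Forall₂ V.Mem (r.boxX lo hi) [x, T, x + B, k] := by
  have a0 := h.x0
  have a1 := h.x1
  have a2 := h.b0
  have a3 := h.b1
  have a4 := h.sl
  have a5 := h.sc
  refine List.Forall₂.cons (V.of_mem (by norm_num) (by exact_mod_cast h.x0)
    (by exact_mod_cast h.x1)) (List.Forall₂.cons (V.of_mem (by norm_num)
    (by exact_mod_cast h.t0) (by exact_mod_cast h.t1)) (List.Forall₂.cons
    (V.of_mem (by norm_num) ?_ ?_) (List.Forall₂.cons (V.of_mem (by norm_num)
    (by exact_mod_cast h.k0) (by exact_mod_cast h.k1)) List.Forall₂.nil)))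
  · push_cast
    rw [div_le_iff₀ (by norm_num)] at a0 a2 a4 h0 ⊢
    exact max_le (max_le (by linarith only [a0, a2]) a4) h0
  · push_cast
    rw [le_div_iff₀ (by norm_num)] at a1 a3 a5 h1 ⊢
    exact le_min (le_min (by linarith only [a1, a3]) a5) h1

/-- the side at slope `0` with `u` for `LL (w + v)` -/
def eF (s : Seg) (u : E) : E :=
  E.sub (E.add (E.mul E.pi (s.eH cX)) u) (E.lnA (E.var 0) (E.var 1))

def eF1 (s : Seg) : E := E.lnA (E.var 2) (E.add (E.var 1) (s.eH cX))
def eF2 (s : Seg) : E := E.lnA (E.sub (E.var 2) (E.q 1 1)) (E.add (E.var 1) (s.eH cX))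

end

end Row

/-! ### checks with certificates -/

open NumU

/-- a check: `true` if it is void, the expressions, the box -/
abbrev Ck := Bool × List E × List NumI.V

/-- the check is fine -/
def Ck.Ok (x : Ck) : Prop := x.1 = true ∨ ∃ c, chkT x.2.1 40 c x.2.2 = true

/-- checks with their certificates -/
def ckAll : List Ck → List ℕ → Bool
  | [], _ => true
  | _ :: _, [] => false
  | x :: xs, c :: cs => cond x.1 true (chkT x.2.1 40 c x.2.2) && ckAll xs cs

theorem ckAll_spec : ∀ {l : List Ck} {cs : List ℕ}, ckAll l cs = true → ∀ x ∈ l, x.Ok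
  | [], _, _, x, hx => absurd hx List.not_mem_nil
  | _ :: _, [], h, _, _ => absurd h (by simp [ckAll])
  | y :: ys, c :: cs, h, x, hx => by
    unfold ckAll at h
    rw [Bool.and_eq_true] at h
    rcases List.mem_cons.1 hx with rfl | hx
    · rcases hb : x.1 with _ | _
      · rw [hb, cond_false] at h
        exact Or.inr ⟨c, h.1⟩
      · exact Or.inl hb
    · exact ckAll_spec h.2 x hx

/-- the certificates (for `#eval` only) -/
def ckFind (l : List Ck) (fuel : ℕ) : Option (List ℕ × ℕ) :=
  l.foldr (fun x r => match r with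
    | none => none
    | some (cs, n) => if x.1 then some (0 :: cs, n) else
      match cert x.2.1 fuel x.2.2 with
      | none => none
      | some (k, c) => some (c :: cs, n + k)) (some ([], 0))

namespace Row

def esc' (r : Row) : List E := r.esc.map E.emb
def escX' (r : Row) : List E := r.escX.map E.emb

theorem esc'_false {r : Row} {x T B k : ℝ} (h : r.In x T B k) :
    ¬ ∃ e ∈ r.esc', 0 < e.val [x, T, B, k] := by
  rintro ⟨e, he, hp⟩
  obtain ⟨e', h1, rfl⟩ := List.mem_map.1 he
  exact esc_false h ⟨e', h1, hp⟩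

theorem escX'_false {r : Row} {x T B k : ℝ} (h : r.In x T B k) :
    ¬ ∃ e ∈ r.escX', 0 < e.val [x, T, x + B, k] := by
  rintro ⟨e, he, hp⟩
  obtain ⟨e', h1, rfl⟩ := List.mem_map.1 he
  exact escX_false h ⟨e', h1, hp⟩

/-- nothing between `lo` and `hi` -/
def void (r : Row) (lo hi : ℤ) : Bool :=
  decide (min (min (r.x1 + r.b1) r.sc) hi < max (max (r.x0 + r.b0) r.sl) lo)

theorem void_false {r : Row} {lo hi : ℤ} {x T B k : ℝ} (hr : r.In x T B k)
    (h0 : (lo : ℝ) / 10000 ≤ x + B) (h1 : x + B ≤ (hi : ℝ) / 10000) : r.void lo hi = false := by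
  unfold void
  rw [decide_eq_false_iff_not]
  intro h2
  have h3 : ((min (min (r.x1 + r.b1) r.sc) hi : ℤ) : ℝ) <
      ((max (max (r.x0 + r.b0) r.sl) lo : ℤ) : ℝ) := by
    exact_mod_cast h2
  push_cast at h3
  have a0 := hr.x0
  have a1 := hr.x1
  have a2 := hr.b0
  have a3 := hr.b1
  have a4 := hr.sl
  have a5 := hr.sc
  rw [div_le_iff₀ (by norm_num)] at a0 a2 a4 h0
  rw [le_div_iff₀ (by norm_num)] at a1 a3 a5 h1
  have h4 : (x + B) * 10000 ≤ min (min ((r.x1 : ℝ) + r.b1) r.sc) hi :=
    le_min (le_min (by linarith only [a1, a3]) a5) h1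
  have h5 : max (max ((r.x0 : ℝ) + r.b0) r.sl) lo ≤ (x + B) * 10000 :=
    max_le (max_le (by linarith only [a0, a2]) a4) h0
  linarith only [h3, h4, h5]

/-- a check in the coordinate `B` -/
def ckB (r : Row) (e : E) : Ck := (false, e :: r.esc', r.box)

/-- a check in the coordinate `x + B` -/
def ckX (r : Row) (e : E) (es : List E) (lo hi : ℤ) : Ck :=
  (r.void lo hi, e :: (r.escX' ++ es), r.boxX lo hi)

theorem ckB_pos {r : Row} {e : E} (h : (r.ckB e).Ok) {x T B k : ℝ} (hr : r.In x T B k) :
    0 < e.val [x, T, B, k] := by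
  rcases h with h | ⟨c, h⟩
  · exact absurd h (by simp [ckB])
  · obtain ⟨e', he, hp⟩ := chkT_sound h (mem_box hr)
    rcases List.mem_cons.1 he with rfl | he
    · exact hp
    · exact absurd ⟨e', he, hp⟩ (esc'_false hr)

theorem ckX_pos {r : Row} {e : E} {es : List E} {lo hi : ℤ} (h : (r.ckX e es lo hi).Ok)
    {x T B k : ℝ} (hr : r.In x T B k) (h0 : (lo : ℝ) / 10000 ≤ x + B)
    (h1 : x + B ≤ (hi : ℝ) / 10000) (hes : ∀ e ∈ es, e.val [x, T, x + B, k] ≤ 0) :
    0 < e.val [x, T, x + B, k] := by
  rcases h with h | ⟨c, h⟩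
  · have := void_false hr h0 h1
    unfold ckX at h
    simp only at h
    rw [this] at h
    exact absurd h (by decide)
  · obtain ⟨e', he, hp⟩ := chkT_sound h (mem_boxX hr h0 h1)
    rcases List.mem_cons.1 he with rfl | he
    · exact hp
    · rcases List.mem_append.1 he with he | he
      · exact absurd ⟨e', he, hp⟩ (escX'_false hr)
      · exact absurd hp (not_lt.2 (hes e' he))

/-- the checks of an upper bound of the side -/
def cksD (r : Row) (o : Own) (s : Seg) : List Ck :=
  cond (decide (min (r.x1 + r.b1) r.sc ≤ 9900))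
    [r.ckB (E.emb (NumI.E.sub r.eB
      (MR.e1 o.eM (NumI.E.var 0) o.eT (NumI.E.var 2) (s.eH cB))))]
    (match o with
      | .R _ _ => [(false, [], [])]
      | .F => [r.ckX (E.emb (NumI.E.sub r.eB (eF s (eF1 s)))) [] 0 9700,
          r.ckX (E.emb (NumI.E.sub r.eB (eF s (NumI.E.q 0 1)))) [] 9700 10300,
          r.ckX (E.emb (NumI.E.sub r.eB (eF s (eF2 s)))) [] 10300 20000])

theorem chkT_nil (n c : ℕ) (vs : List NumI.V) : chkT [] n c vs = false := by
  by_contra h
  rw [Bool.not_eq_false] at h
  have key : ∀ (n c : ℕ) (vs : List NumI.V), runT [] n c vs = 0 := by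
    intro n
    induction n with
    | zero => intro c vs; rfl
    | succ n ih =>
      intro c vs
      unfold runT
      rcases hb : Nat.ble 8 (Nat.mod c 16) with _ | _
      · rw [cond_false, ih]
      · rw [cond_true]
        have : NumI.posO ((nth [] (Nat.sub (Nat.mod c 16) 8)).ev (NumI.mkEnv 0 vs)) = false := by
          rw [Bool.eq_false_iff]
          intro hp
          rcases h2 : (nth [] (Nat.sub (Nat.mod c 16) 8)).ev (NumI.mkEnv 0 vs) with _ | u
          · rw [h2] at hp; exact absurd hp (by simp [NumI.posO])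
          · simp only [nth, E.ev] at h2
            rw [Option.some.injEq] at h2
            rw [show (nth [] (Nat.sub (Nat.mod c 16) 8)).ev (NumI.mkEnv 0 vs) = some u by
              simp only [nth, E.ev, h2], ← h2] at hp
            revert hp
            decide
        rw [this, cond_false]
  unfold chkT at h
  rw [key] at h
  exact absurd h (by decide)

/-- a side row with regimes -/
theorem soundD {r : Row} {o : Own} {s : Seg} (h : ∀ x ∈ r.cksD o s, x.Ok) {w v : ℂ} {T k : ℝ}
    (hr : r.In w.re T v.re k) (hw : w ∈ strip) (hv : 0 ≤ v.re) (hX : w.re + v.re ≤ 19 / 10)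
    (hwi : w.im = o.t w.re T)
    (hvi : v.im = s.h v.re k) (hτ : |w.im + v.im| ≤ 15 / 100) :
    S1 1 (o.m T) w v < r.bd T k := by
  unfold cksD at h
  rcases hd : decide (min (r.x1 + r.b1) r.sc ≤ 9900) with _ | _
  · rw [hd, cond_false] at h
    cases o with
    | R a b =>
      exfalso
      rcases h (false, [], []) (by simp) with h1 | ⟨c, h1⟩
      · exact absurd h1 (by simp)
      · rw [chkT_nil] at h1
        exact absurd h1 (by simp)
    | F =>
      simp only at h
      have h1 := h _ List.mem_cons_self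
      have h2 := h _ (List.mem_cons_of_mem _ List.mem_cons_self)
      have h3 := h _ (List.mem_cons_of_mem _ (List.mem_cons_of_mem _ List.mem_cons_self))
      have e : S1 1 (Own.F.m T) w v = Real.pi * s.h v.re k + LL (w + v) - NumI.lnA w.re T := by
        have e1 : w.im = T := hwi
        unfold S1
        rw [Num.LL_lnA hw, e1, hvi]
        simp only [Own.m]
        ring
      rw [e]
      have e2 : w.im = T := hwi
      rcases le_total (w.re + v.re) (97 / 100) with a1 | a1
      · have h4 := ckX_pos h1 hr (by norm_num; linarith only [hv, hw, hw.1]) (by norm_num; linarith only [a1]) (by simp)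
        simp only [E.val, eF, eF1, NumI.E.val, eB_val, Seg.eH_val, cX_val] at h4
        simp only [NumI.lkR] at h4
        have hu : w + v ∈ strip := ⟨by simp; linarith only [hv, hw, hw.1], by simp; linarith only [a1]⟩
        rw [Num.LL_lnA hu, Complex.add_re, Complex.add_im, e2, hvi]
        linarith only [h4]
      rcases le_total (w.re + v.re) (103 / 100) with a2 | a2
      · have h4 := ckX_pos h2 hr (by norm_num; linarith only [a1]) (by norm_num; linarith only [a2]) (by simp)
        simp only [E.val, eF, NumI.E.val, eB_val, Seg.eH_val, cX_val] at h4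
        simp only [NumI.lkR] at h4
        norm_num at h4
        have h5 : LL (w + v) = LL ⟨w.re + v.re - 1, w.im + v.im⟩ := by
          have h6 : w + v = ⟨w.re + v.re - 1, w.im + v.im⟩ + 1 := by
            apply Complex.ext <;> simp
          rw [h6, LL_add_one]
        rw [h5]
        have h7 := UA.LL_nonpos kc_3_15 (by norm_num) (s := w.re + v.re - 1)
          (abs_le.2 ⟨by linarith only [a1], by linarith only [a2]⟩) hτ
        linarith only [h4, h7]
      · have h4 := ckX_pos h3 hr (by norm_num; linarith only [a2]) (by norm_num; linarith only [hX]) (by simp)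
        simp only [E.val, eF, eF2, NumI.E.val, eB_val, Seg.eH_val, cX_val] at h4
        simp only [NumI.lkR] at h4
        norm_num at h4
        have h5 : LL (w + v) = LL ⟨w.re + v.re - 1, w.im + v.im⟩ := by
          have h6 : w + v = ⟨w.re + v.re - 1, w.im + v.im⟩ + 1 := by
            apply Complex.ext <;> simp
          rw [h6, LL_add_one]
        have hu : (⟨w.re + v.re - 1, w.im + v.im⟩ : ℂ) ∈ strip :=
          ⟨by simp; linarith only [a2], by simp; linarith only [hX]⟩
        rw [h5, Num.LL_lnA hu, e2, hvi]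
        linarith only [h4]
  · rw [hd, cond_true] at h
    have h1 := of_decide_eq_true hd
    have h2 : w.re + v.re ≤ 99 / 100 := by
      have a1 := hr.x1
      have a3 := hr.b1
      have a5 := hr.sc
      have h3 : ((min (r.x1 + r.b1) r.sc : ℤ) : ℝ) ≤ 9900 := by exact_mod_cast h1
      push_cast at h3
      rw [le_div_iff₀ (by norm_num)] at a1 a3 a5
      rcases min_le_iff.1 h3 with h4 | h4
      · linarith only [a1, a3, h4]
      · linarith only [a5, h4]
    have hu : w + v ∈ strip := ⟨by simp; linarith only [hv, hw, hw.1], by simp; linarith only [h2]⟩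
    rw [MR.S1_eq _ hw hu, hwi, hvi]
    have h4 := ckB_pos (h _ List.mem_cons_self) hr
    simp only [E.val, NumI.E.val, MR.e1_val, eB_val, Own.eM_val, Own.eT_val, Seg.eH_val,
      cB_val] at h4
    simp only [NumI.lkR] at h4
    linarith only [h4]

end Row

/-! ### value rows -/

/-- `V1 (x + i h) (B + i k) - V1 (c + i hc) (B + i k)` -/
noncomputable def dv (c hc x h B k : ℝ) : ℝ :=
  Real.pi * ((x - c) * k + (h - hc) * (B - 1)) + (uu (x + B) (h + k) - uu (c + B) (hc + k) +
    (uu c hc - uu x h))

/-- the expression of `dv` with `u` for `uu (x + B) (h + k)` -/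
def eV (o : Own) (s : Seg) (c cf : ℕ) (B : NumI.E) (u : E) : E :=
  E.add (E.mul E.pi (E.add
      (E.mul (E.sub (E.var 0) (E.q c 1000)) (E.emb (s.eH B)))
      (E.mul (E.sub (E.emb o.eT) (E.mul (E.q cf 1000) (E.var 1))) (E.sub (E.emb B) (E.q 1 1)))))
    (E.add (E.sub u (E.uu (E.add (E.q c 1000) (E.emb B))
        (E.add (E.mul (E.q cf 1000) (E.var 1)) (E.emb (s.eH B)))))
      (E.sub (E.uu (E.q c 1000) (E.mul (E.q cf 1000) (E.var 1))) (E.uu (E.var 0) (E.emb o.eT))))

/-- the height of `x + B` -/
def eTau (o : Own) (s : Seg) (B : NumI.E) : E := E.add (E.emb o.eT) (E.emb (s.eH B))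

def uB (o : Own) (s : Seg) : E := E.uu (E.add (E.var 0) (E.var 2)) (eTau o s cB)
def uA (o : Own) (s : Seg) : E := E.uu (E.var 2) (eTau o s cX)
def uN (o : Own) (s : Seg) : E := E.uu (E.q 995 1000) (eTau o s cX)
def uO (o : Own) (s : Seg) (σ : ℤ) : E := E.mul (E.mul E.pi (E.q σ 2)) (eTau o s cX)
def uR (o : Own) (s : Seg) (σ : ℤ) : E :=
  E.add (E.uu (E.sub (E.var 2) (E.q 1 1)) (eTau o s cX))
    (E.mul (E.mul E.pi (E.q σ 1)) (eTau o s cX))

namespace Row

/-- the checks of an upper bound of the change of the value -/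
def cksV (r : Row) (o : Own) (s : Seg) (c cf : ℕ) : List Ck :=
  cond (decide (r.x1 + r.b1 ≤ 9900))
    [r.ckB (E.sub (E.emb r.eB) (eV o s c cf cB (uB o s)))]
    [r.ckX (E.sub (E.emb r.eB) (eV o s c cf cX (uA o s))) [] 0 9950,
      r.ckX (E.sub (E.emb r.eB) (eV o s c cf cX (uN o s))) [] 9950 10000,
      r.ckX (E.sub (E.emb r.eB) (eV o s c cf cX (uO o s 1))) [E.neg (eTau o s cX)] 10000 10050,
      r.ckX (E.sub (E.emb r.eB) (eV o s c cf cX (uO o s (-1)))) [eTau o s cX] 10000 10050,
      r.ckX (E.sub (E.emb r.eB) (eV o s c cf cX (uR o s 1))) [E.neg (eTau o s cX)] 10050 20000,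
      r.ckX (E.sub (E.emb r.eB) (eV o s c cf cX (uR o s (-1)))) [eTau o s cX] 10050 20000]

theorem eV_val {o : Own} {s : Seg} {c cf : ℕ} {B : NumI.E} {u : E} {x T Z k Bv : ℝ}
    (hB : B.val [x, T, Z, k] = Bv) : (eV o s c cf B u).val [x, T, Z, k] =
      Real.pi * ((x - c / 1000) * (s.h Bv k) + (o.t x T - cf / 1000 * T) * (Bv - 1)) +
        (u.val [x, T, Z, k] - uu (c / 1000 + Bv) (cf / 1000 * T + s.h Bv k) +
          (uu (c / 1000) (cf / 1000 * T) - uu x (o.t x T))) := by
  simp only [eV, E.val, Own.eT_val, Seg.eH_val, hB]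
  simp only [NumI.lkR]
  push_cast
  ring_nf

theorem eTau_val {o : Own} {s : Seg} {B : NumI.E} {x T Z k Bv : ℝ}
    (hB : B.val [x, T, Z, k] = Bv) : (eTau o s B).val [x, T, Z, k] = o.t x T + s.h Bv k := by
  simp only [eTau, E.val, Own.eT_val, Seg.eH_val, hB]

theorem ckV_pos {r : Row} {o : Own} {s : Seg} {c cf : ℕ} {u : E} {es : List E} {lo hi : ℤ}
    (h : (r.ckX (E.sub (E.emb r.eB) (eV o s c cf cX u)) es lo hi).Ok)
    {x T B k : ℝ} (hr : r.In x T B k)
    (h0 : (lo : ℝ) / 10000 ≤ x + B) (h1 : x + B ≤ (hi : ℝ) / 10000)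
    (hes : ∀ e ∈ es, e.val [x, T, x + B, k] ≤ 0)
    (hu : uu (x + B) (o.t x T + s.h B k) ≤ u.val [x, T, x + B, k]) :
    dv (c / 1000) (cf / 1000 * T) x (o.t x T) B (s.h B k) < r.bd T k := by
  have hp := ckX_pos h hr h0 h1 hes
  rw [E.val, eV_val (cX_val x T B k), E.val, eB_val] at hp
  unfold dv
  linarith only [hu, hp]

theorem soundV {r : Row} {o : Own} {s : Seg} {c cf : ℕ} (h : ∀ x ∈ r.cksV o s c cf, x.Ok)
    {x T B k : ℝ} (hr : r.In x T B k) (hX : x + B ≤ 2) (hX0 : 0 ≤ x + B)
    (hτ : |o.t x T + s.h B k| ≤ 15 / 100) :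
    dv (c / 1000) (cf / 1000 * T) x (o.t x T) B (s.h B k) < r.bd T k := by
  unfold cksV at h
  rcases hd : decide (r.x1 + r.b1 ≤ 9900) with _ | _
  · rw [hd, cond_false] at h
    have h1 := h _ List.mem_cons_self
    have h2 := h _ (List.mem_cons_of_mem _ List.mem_cons_self)
    have h3 := h _ (List.mem_cons_of_mem _ (List.mem_cons_of_mem _ List.mem_cons_self))
    have h4 := h _ (List.mem_cons_of_mem _ (List.mem_cons_of_mem _ (List.mem_cons_of_mem _
      List.mem_cons_self)))
    have h5 := h _ (List.mem_cons_of_mem _ (List.mem_cons_of_mem _ (List.mem_cons_of_mem _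
      (List.mem_cons_of_mem _ List.mem_cons_self))))
    have h6 := h _ (List.mem_cons_of_mem _ (List.mem_cons_of_mem _ (List.mem_cons_of_mem _
      (List.mem_cons_of_mem _ (List.mem_cons_of_mem _ List.mem_cons_self)))))
    rcases le_total (x + B) (995 / 1000) with a1 | a1
    · refine ckV_pos h1 hr (by norm_num; linarith only [hX0]) (by norm_num; linarith only [a1]) (by simp) ?_
      simp only [uA, E.val, eTau_val (cX_val x T B k)]
      simp only [NumI.lkR]
      exact le_rfl
    rcases le_total (x + B) 1 with a2 | a2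
    · refine ckV_pos h2 hr (by norm_num; linarith only [a1]) (by norm_num; linarith only [a2]) (by simp) ?_
      simp only [uN, E.val, eTau_val (cX_val x T B k)]
      push_cast
      exact UA.anti1 UA.kc_2_15 (by norm_num) (by norm_num) a1 (by linarith only [a2]) hτ
    rcases le_total (x + B) (1005 / 1000) with a3 | a3
    · have h7 : uu (x + B) (o.t x T + s.h B k) ≤ Real.pi / 2 * |o.t x T + s.h B k| :=
        UA.le_right UA.kc_2_15 (by norm_num) a2 (by linarith only [a3]) hτ
      rcases le_total 0 (o.t x T + s.h B k) with h8 | h8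
      · refine ckV_pos h3 hr (by norm_num; linarith only [a2]) (by norm_num; linarith only [a3]) ?_ ?_
        · intro e he
          rw [List.mem_singleton] at he
          subst he
          rw [E.val, eTau_val (cX_val x T B k)]
          linarith only [h8]
        · simp only [uO, E.val, eTau_val (cX_val x T B k)]
          rw [abs_of_nonneg h8] at h7
          push_cast
          linarith only [h7]
      · refine ckV_pos h4 hr (by norm_num; linarith only [a2]) (by norm_num; linarith only [a3]) ?_ ?_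
        · intro e he
          rw [List.mem_singleton] at he
          subst he
          rw [eTau_val (cX_val x T B k)]
          exact h8
        · simp only [uO, E.val, eTau_val (cX_val x T B k)]
          rw [abs_of_nonpos h8] at h7
          push_cast
          linarith only [h7]
    · have h7 : uu (x + B) (o.t x T + s.h B k) = uu (x + B - 1) (o.t x T + s.h B k) +
          Real.pi * |o.t x T + s.h B k| := by
        rw [← uu_add_one, sub_add_cancel]
      rcases le_total 0 (o.t x T + s.h B k) with h8 | h8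
      · refine ckV_pos h5 hr (by norm_num; linarith only [a3]) (by norm_num; linarith only [hX]) ?_ ?_
        · intro e he
          rw [List.mem_singleton] at he
          subst he
          rw [E.val, eTau_val (cX_val x T B k)]
          linarith only [h8]
        · simp only [uR, E.val, eTau_val (cX_val x T B k)]
          simp only [NumI.lkR]
          rw [abs_of_nonneg h8] at h7
          push_cast
          norm_num
          linarith only [h7]
      · refine ckV_pos h6 hr (by norm_num; linarith only [a3]) (by norm_num; linarith only [hX]) ?_ ?_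
        · intro e he
          rw [List.mem_singleton] at he
          subst he
          rw [eTau_val (cX_val x T B k)]
          exact h8
        · simp only [uR, E.val, eTau_val (cX_val x T B k)]
          simp only [NumI.lkR]
          rw [abs_of_nonpos h8] at h7
          push_cast
          norm_num
          linarith only [h7]
  · rw [hd, cond_true] at h
    have hp := ckB_pos (h _ List.mem_cons_self) hr
    rw [E.val, eV_val (cB_val x T B k), E.val, eB_val] at hp
    simp only [uB, E.val, eTau_val (cB_val x T B k)] at hp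
    simp only [NumI.lkR] at hp
    unfold dv
    linarith only [hp]

end Row

end OR

end Pool.Agent.Work.MP_b30479_gt.G2
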