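import Pool.Agent.Work.MP_b30479_gt.G2.OStS
import Pool.Agent.Work.MP_b30479_gt.G2.ORows

namespace Pool.Agent.Work.MP_b30479_gt.G2

namespace OR

/-- windows -/
def s2f_0_wp : PC → Win
  | .one => ⟨0, 0, 0, 0, 0, 0⟩
  | .two => ⟨-230, 780, -360, 760, -660, 530⟩
  | .twoE => ⟨-790, -140, -520, 270, -160, 820⟩
  | .thrR => ⟨100, 920, -70, 910, -630, 480⟩
  | .thrL => ⟨100, 920, -70, 910, -630, 480⟩
  | .threeE => ⟨-20, 610, 0, 860, -380, 650⟩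
  | .ring => ⟨270, 1300, 110, 1120, -820, 440⟩

/-- windows -/
def s2f_0_wq : PC → Win
  | .one => ⟨0, 0, 0, 0, 0, 0⟩
  | .two => ⟨-230, 780, -360, 760, -660, 530⟩
  | .twoE => ⟨-790, -140, -520, 270, -160, 820⟩
  | .thrR => ⟨100, 920, -70, 910, -630, 480⟩
  | .thrL => ⟨100, 920, -70, 910, -630, 480⟩
  | .threeE => ⟨-20, 610, 0, 860, -380, 650⟩
  | .ring => ⟨270, 1300, 110, 1120, -820, 440⟩

/-- mode -/
def s2f_0_m0 : Mode where
  md := .D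
  lam := 1000
  ct := -2000
  gp := fun
    | .one => [e00, e00, e00, e00, e00, e00, e00, e00]
    | .two => [e00, e00, e00, e00, e00, e00]
    | .twoE => [e00, e00, e00, e00, e00]
    | .thrR => [e00, e00, e00, e00, e00, ⟨-9307, [673915710100081401346457248418]⟩]
    | .thrL => [e00, e00, e00, e00, e00]
    | .threeE => [e00, e00, e00, e00, e00, e00]
    | .ring => [e00, e00, e00, e00, e00, ⟨-9697, [189861739657792835024210802310183660102460066]⟩]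
  gq := fun
    | .one => [e00, e00, e00, e00, e00, e00, e00, e00]
    | .two => [⟨8153, [8]⟩, ⟨8153, [8]⟩, ⟨8153, [8]⟩, ⟨8153, [2178]⟩, ⟨8153, [2177]⟩, ⟨8153, [8]⟩]
    | .twoE => [⟨8863, [8]⟩, ⟨8863, [8]⟩, ⟨8863, [8]⟩, ⟨8863, [8]⟩, ⟨8863, [8]⟩]
    | .thrR => [⟨8183, [8]⟩, ⟨8183, [8]⟩, ⟨8183, [8]⟩, ⟨8183, [2178]⟩, ⟨8183, [8]⟩, ⟨8183, [2394221759858706]⟩]
    | .thrL => [⟨8053, [8]⟩, ⟨8053, [8]⟩, ⟨8053, [8]⟩, ⟨8053, [8]⟩, ⟨8053, [8]⟩]
    | .threeE => [⟨8263, [8]⟩, ⟨8263, [8]⟩, ⟨8263, [8]⟩, ⟨8263, [8]⟩, ⟨8263, [2178]⟩, ⟨8263, [8]⟩]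
    | .ring => [⟨7793, [557697]⟩, ⟨7793, [2177]⟩, ⟨7793, [2177]⟩, ⟨7793, [557697]⟩, ⟨7793, [559138]⟩, ⟨7793, [142705282]⟩]

/-- piece -/
def s2f_0 : Piece := ⟨3000, 3150, -820, 820, s2f_0_wp, s2f_0_wq, [s2f_0_m0]⟩

set_option linter.defProp false

def s2f_0_r0_one0 : rowsOk stS2F s2f_0 s2f_0_m0 false .one = true := by decide +kernel

def s2f_0_r0_one1 : rowsOk stS2F s2f_0 s2f_0_m0 true .one = true := by decide +kernel

def s2f_0_r0_two0 : rowsOk stS2F s2f_0 s2f_0_m0 false .two = true := by decide +kernel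

def s2f_0_r0_two1 : rowsOk stS2F s2f_0 s2f_0_m0 true .two = true := by decide +kernel

def s2f_0_r0_twoE0 : rowsOk stS2F s2f_0 s2f_0_m0 false .twoE = true := by decide +kernel

def s2f_0_r0_twoE1 : rowsOk stS2F s2f_0 s2f_0_m0 true .twoE = true := by decide +kernel

def s2f_0_r0_thrR0 : rowsOk stS2F s2f_0 s2f_0_m0 false .thrR = true := by decide +kernel

def s2f_0_r0_thrR1 : rowsOk stS2F s2f_0 s2f_0_m0 true .thrR = true := by decide +kernel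

def s2f_0_r0_thrL0 : rowsOk stS2F s2f_0 s2f_0_m0 false .thrL = true := by decide +kernel

def s2f_0_r0_thrL1 : rowsOk stS2F s2f_0 s2f_0_m0 true .thrL = true := by decide +kernel

def s2f_0_r0_threeE0 : rowsOk stS2F s2f_0 s2f_0_m0 false .threeE = true := by decide +kernel

def s2f_0_r0_threeE1 : rowsOk stS2F s2f_0 s2f_0_m0 true .threeE = true := by decide +kernel

def s2f_0_r0_ring0 : rowsOk stS2F s2f_0 s2f_0_m0 false .ring = true := by decide +kernel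

def s2f_0_r0_ring1 : rowsOk stS2F s2f_0 s2f_0_m0 true .ring = true := by decide +kernel

theorem s2f_0_r0 : allRows stS2F s2f_0 s2f_0_m0 = true := by
  refine allRows_of fun P => ?_
  cases P
  exacts [⟨s2f_0_r0_one0, s2f_0_r0_one1⟩,
    ⟨s2f_0_r0_two0, s2f_0_r0_two1⟩,
    ⟨s2f_0_r0_twoE0, s2f_0_r0_twoE1⟩,
    ⟨s2f_0_r0_thrR0, s2f_0_r0_thrR1⟩,
    ⟨s2f_0_r0_thrL0, s2f_0_r0_thrL1⟩,
    ⟨s2f_0_r0_threeE0, s2f_0_r0_threeE1⟩,
    ⟨s2f_0_r0_ring0, s2f_0_r0_ring1⟩]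

theorem s2f_0_ok : s2f_0.ok stS2F = true := by
  have h : (PC.all.all fun P => PC.all.all fun Q => pairOk stS2F s2f_0 P Q) = true := by decide +kernel
  have d0 : mdOk stS2F s2f_0_m0.md = true := by decide +kernel
  unfold Piece.ok
  rw [h, Bool.true_and]
  show List.all [s2f_0_m0] _ = true
  rw [List.all_eq_true]
  intro m hm
  simp only [List.mem_cons, List.not_mem_nil, or_false] at hm
  rcases hm with rfl
  · rw [s2f_0_r0, d0]; rfl

end OR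

end Pool.Agent.Work.MP_b30479_gt.G2
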