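import Pool.Agent.Work.MP_b30479_gt.G2.OStS
import Pool.Agent.Work.MP_b30479_gt.G2.ORows

namespace Pool.Agent.Work.MP_b30479_gt.G2

namespace OR

/-- windows -/
def s2f_1_wp : PC → Win
  | .one => ⟨0, 0, 0, 0, 0, 0⟩
  | .two => ⟨-230, 780, -360, 760, -660, 530⟩
  | .twoE => ⟨-790, -140, -520, 270, -160, 820⟩
  | .thrR => ⟨100, 920, -70, 910, -630, 480⟩
  | .thrL => ⟨100, 920, -70, 910, -630, 480⟩
  | .threeE => ⟨-20, 610, 0, 860, -380, 650⟩
  | .ring => ⟨270, 1300, 110, 1120, -820, 440⟩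

/-- windows -/
def s2f_1_wq : PC → Win
  | .one => ⟨0, 0, 0, 0, 0, 0⟩
  | .two => ⟨-230, 780, -360, 760, -660, 530⟩
  | .twoE => ⟨-790, -140, -520, 270, -160, 820⟩
  | .thrR => ⟨100, 920, -70, 910, -630, 480⟩
  | .thrL => ⟨100, 920, -70, 910, -630, 480⟩
  | .threeE => ⟨-20, 610, 0, 860, -380, 650⟩
  | .ring => ⟨270, 1300, 110, 1120, -820, 440⟩

/-- mode -/
def s2f_1_m0 : Mode where
  md := .D
  lam := 0
  ct := 0
  gp := fun
    | .one => [e00, e00, e00, e00, e00, e00, e00, e00]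
    | .two => [e00, e00, e00, e00, e00, e00]
    | .twoE => [e00, e00, e00, e00, e00]
    | .thrR => [e00, e00, e00, e00, e00, ⟨-4764, [40168366615968315777698]⟩]
    | .thrL => [e00, e00, e00, e00, e00]
    | .threeE => [e00, e00, e00, e00, e00, e00]
    | .ring => [e00, e00, e00, e00, e00, ⟨-4865, [612914545330070178]⟩]
  gq := fun
    | .one => [e00, e00, e00, e00, e00, e00, e00, e00]
    | .two => [⟨4861, [829651348629848450]⟩, ⟨4861, [12659441500545]⟩, ⟨4861, [156921235268451185025]⟩, ⟨4760, [2634861059047328832939393810]⟩, ⟨4760, [2178]⟩, ⟨4760, [2177]⟩]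
    | .twoE => [⟨4760, [8]⟩, ⟨4760, [8]⟩, ⟨4760, [8]⟩, ⟨4760, [8]⟩, ⟨4760, [8]⟩]
    | .thrR => [e00, e00, e00, e00, ⟨4861, [559122]⟩, ⟨4861, [2394197442332706]⟩]
    | .thrL => [e00, e00, e00, e00, ⟨4760, [2177]⟩]
    | .threeE => [⟨4760, [2177]⟩, ⟨4760, [2177]⟩, ⟨4760, [2177]⟩, ⟨4760, [2177]⟩, ⟨4760, [2178]⟩, ⟨4760, [8]⟩]
    | .ring => [e00, e00, e00, e00, e00, ⟨4760, [2394221222987794]⟩]

/-- mode -/
def s2f_1_m1 : Mode where
  md := .V 250 1000
  lam := 250
  ct := 0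
  gp := fun
    | .one => [e00, e00, e00, e00, e00, e00, e00, e00]
    | .two => [e00, e00, e00, e00, e00, e00]
    | .twoE => [e00, e00, e00, e00, e00]
    | .thrR => [e00, e00, e00, e00, e00, ⟨-614, [21964590494001956765847284959751117147319609653105388095078553946463390491613947786508981514033171187302220391808353018530]⟩]
    | .thrL => [e00, e00, e00, e00, e00]
    | .threeE => [e00, e00, e00, e00, e00, e00]
    | .ring => [e00, e00, e00, e00, e00, ⟨-676, [38924611667648224479192853580090427663515103530875012920728595709512478114970322424191757337779236232151130951185731423417244119370522038803255112482509916416720181532741554249039109273032958626]⟩]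
  gq := fun
    | .one => [e00, e00, e00, e00, e00, e00, e00, e00]
    | .two => [⟨322, [613483724866617905]⟩, ⟨322, [2177]⟩, ⟨322, [2177]⟩, e00, e00, e00]
    | .twoE => [e00, e00, e00, e00, e00]
    | .thrR => [⟨295, [36566108209]⟩, ⟨295, [557953]⟩, ⟨295, [2177]⟩, ⟨295, [2395321020200993]⟩, e00, e00]
    | .thrL => [⟨295, [9360923703329]⟩, ⟨295, [2177]⟩, ⟨295, [2177]⟩, ⟨295, [9361018751009]⟩, e00]
    | .threeE => [e00, e00, e00, e00, e00, e00]
    | .ring => [⟨232, [282752735118037598293170760698496776983858083081331675937]⟩, ⟨232, [59876848321352753258104849938528273]⟩, ⟨232, [59876848321352753258104849938528273]⟩, ⟨232, [1335290310837857116024319325580369706566551727748292215955352198029753698496801]⟩, ⟨232, [12442928193039147950882988983269829744296505913874]⟩, e00]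

/-- piece -/
def s2f_1 : Piece := ⟨3150, 3230, -820, 820, s2f_1_wp, s2f_1_wq, [s2f_1_m0, s2f_1_m1]⟩

set_option linter.defProp false

def s2f_1_r0_one0 : rowsOk stS2F s2f_1 s2f_1_m0 false .one = true := by decide +kernel

def s2f_1_r0_one1 : rowsOk stS2F s2f_1 s2f_1_m0 true .one = true := by decide +kernel

def s2f_1_r0_two0 : rowsOk stS2F s2f_1 s2f_1_m0 false .two = true := by decide +kernel

def s2f_1_r0_two1 : rowsOk stS2F s2f_1 s2f_1_m0 true .two = true := by decide +kernel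

def s2f_1_r0_twoE0 : rowsOk stS2F s2f_1 s2f_1_m0 false .twoE = true := by decide +kernel

def s2f_1_r0_twoE1 : rowsOk stS2F s2f_1 s2f_1_m0 true .twoE = true := by decide +kernel

def s2f_1_r0_thrR0 : rowsOk stS2F s2f_1 s2f_1_m0 false .thrR = true := by decide +kernel

def s2f_1_r0_thrR1 : rowsOk stS2F s2f_1 s2f_1_m0 true .thrR = true := by decide +kernel

def s2f_1_r0_thrL0 : rowsOk stS2F s2f_1 s2f_1_m0 false .thrL = true := by decide +kernel

def s2f_1_r0_thrL1 : rowsOk stS2F s2f_1 s2f_1_m0 true .thrL = true := by decide +kernel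

def s2f_1_r0_threeE0 : rowsOk stS2F s2f_1 s2f_1_m0 false .threeE = true := by decide +kernel

def s2f_1_r0_threeE1 : rowsOk stS2F s2f_1 s2f_1_m0 true .threeE = true := by decide +kernel

def s2f_1_r0_ring0 : rowsOk stS2F s2f_1 s2f_1_m0 false .ring = true := by decide +kernel

def s2f_1_r0_ring1 : rowsOk stS2F s2f_1 s2f_1_m0 true .ring = true := by decide +kernel

def s2f_1_r1_one0 : rowsOk stS2F s2f_1 s2f_1_m1 false .one = true := by decide +kernel

def s2f_1_r1_one1 : rowsOk stS2F s2f_1 s2f_1_m1 true .one = true := by decide +kernel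

def s2f_1_r1_two0 : rowsOk stS2F s2f_1 s2f_1_m1 false .two = true := by decide +kernel

def s2f_1_r1_two1 : rowsOk stS2F s2f_1 s2f_1_m1 true .two = true := by decide +kernel

def s2f_1_r1_twoE0 : rowsOk stS2F s2f_1 s2f_1_m1 false .twoE = true := by decide +kernel

def s2f_1_r1_twoE1 : rowsOk stS2F s2f_1 s2f_1_m1 true .twoE = true := by decide +kernel

def s2f_1_r1_thrR0 : rowsOk stS2F s2f_1 s2f_1_m1 false .thrR = true := by decide +kernel

def s2f_1_r1_thrR1 : rowsOk stS2F s2f_1 s2f_1_m1 true .thrR = true := by decide +kernel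

def s2f_1_r1_thrL0 : rowsOk stS2F s2f_1 s2f_1_m1 false .thrL = true := by decide +kernel

def s2f_1_r1_thrL1 : rowsOk stS2F s2f_1 s2f_1_m1 true .thrL = true := by decide +kernel

def s2f_1_r1_threeE0 : rowsOk stS2F s2f_1 s2f_1_m1 false .threeE = true := by decide +kernel

def s2f_1_r1_threeE1 : rowsOk stS2F s2f_1 s2f_1_m1 true .threeE = true := by decide +kernel

def s2f_1_r1_ring0 : rowsOk stS2F s2f_1 s2f_1_m1 false .ring = true := by decide +kernel

def s2f_1_r1_ring1 : rowsOk stS2F s2f_1 s2f_1_m1 true .ring = true := by decide +kernel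

theorem s2f_1_r0 : allRows stS2F s2f_1 s2f_1_m0 = true := by
  refine allRows_of fun P => ?_
  cases P
  exacts [⟨s2f_1_r0_one0, s2f_1_r0_one1⟩,
    ⟨s2f_1_r0_two0, s2f_1_r0_two1⟩,
    ⟨s2f_1_r0_twoE0, s2f_1_r0_twoE1⟩,
    ⟨s2f_1_r0_thrR0, s2f_1_r0_thrR1⟩,
    ⟨s2f_1_r0_thrL0, s2f_1_r0_thrL1⟩,
    ⟨s2f_1_r0_threeE0, s2f_1_r0_threeE1⟩,
    ⟨s2f_1_r0_ring0, s2f_1_r0_ring1⟩]

theorem s2f_1_r1 : allRows stS2F s2f_1 s2f_1_m1 = true := by
  refine allRows_of fun P => ?_
  cases P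
  exacts [⟨s2f_1_r1_one0, s2f_1_r1_one1⟩,
    ⟨s2f_1_r1_two0, s2f_1_r1_two1⟩,
    ⟨s2f_1_r1_twoE0, s2f_1_r1_twoE1⟩,
    ⟨s2f_1_r1_thrR0, s2f_1_r1_thrR1⟩,
    ⟨s2f_1_r1_thrL0, s2f_1_r1_thrL1⟩,
    ⟨s2f_1_r1_threeE0, s2f_1_r1_threeE1⟩,
    ⟨s2f_1_r1_ring0, s2f_1_r1_ring1⟩]

theorem s2f_1_ok : s2f_1.ok stS2F = true := by
  have h : (PC.all.all fun P => PC.all.all fun Q => pairOk stS2F s2f_1 P Q) = true := by decide +kernel
  have d0 : mdOk stS2F s2f_1_m0.md = true := by decide +kernel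
  have d1 : mdOk stS2F s2f_1_m1.md = true := by decide +kernel
  unfold Piece.ok
  rw [h, Bool.true_and]
  show List.all [s2f_1_m0, s2f_1_m1] _ = true
  rw [List.all_eq_true]
  intro m hm
  simp only [List.mem_cons, List.not_mem_nil, or_false] at hm
  rcases hm with rfl | rfl
  · rw [s2f_1_r0, d0]; rfl
  · rw [s2f_1_r1, d1]; rfl

end OR

end Pool.Agent.Work.MP_b30479_gt.G2
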