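import Pool.Agent.Work.MP_b30479_gt.G2.OStS
import Pool.Agent.Work.MP_b30479_gt.G2.ORows

namespace Pool.Agent.Work.MP_b30479_gt.G2

namespace OR

/-- windows -/
def s2f_10_wp : PC → Win
  | .one => ⟨0, 0, 0, 0, 0, 0⟩
  | .two => ⟨-230, 780, -360, 760, -660, 530⟩
  | .twoE => ⟨-790, -140, -520, 270, -160, 820⟩
  | .thrR => ⟨100, 920, -70, 910, -630, 480⟩
  | .thrL => ⟨100, 920, -70, 910, -630, 480⟩
  | .threeE => ⟨-20, 610, 0, 860, -380, 650⟩
  | .ring => ⟨270, 1300, 110, 1120, -820, 440⟩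

/-- windows -/
def s2f_10_wq : PC → Win
  | .one => ⟨0, 0, 0, 0, 0, 0⟩
  | .two => ⟨-230, 780, -360, 760, -660, 530⟩
  | .twoE => ⟨-790, -140, -520, 270, -160, 820⟩
  | .thrR => ⟨100, 920, -70, 910, -630, 480⟩
  | .thrL => ⟨100, 920, -70, 910, -630, 480⟩
  | .threeE => ⟨-20, 610, 0, 860, -380, 650⟩
  | .ring => ⟨270, 1300, 110, 1120, -820, 440⟩

/-- mode -/
def s2f_10_m0 : Mode where
  md := .D
  lam := 2000
  ct := 0
  gp := fun
    | .one => [e00, e00, e00, e00, e00, e00, e00, e00]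
    | .two => [e00, e00, e00, e00, ⟨-4433, [44206160885905192971142635377406257, 8, 44206160885905192971142635377406257]⟩, ⟨-4082, [0, 8, 985818528134834388398472640626876252644053082195989879199116061168171696075042]⟩]
    | .twoE => [e00, e00, e00, e00, e00]
    | .thrR => [e00, e00, e00, e00, ⟨-4584, [172680315960567160043527707590961, 8, 40168398575952578773297]⟩, ⟨-4584, [0, 8, 1190690020624945855822992620049924269926905594650187236884929747008097367476246468284842164317005746722]⟩]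
    | .thrL => [e00, e00, e00, e00, e00]
    | .threeE => [e00, e00, e00, e00, ⟨-4213, [2396420783486993, 8, 9361017636897]⟩, ⟨-4213, [0, 0, 9352434123042]⟩]
    | .ring => [e00, e00, e00, e00, ⟨-5153, [912940928242701542578684879425683757035104630433394993, 8, 189861748502831236415590683097481128641245458]⟩, ⟨-4466, [0, 0, 11306390136962938329458873279144206626]⟩]
  gq := fun
    | .one => [e00, e00, e00, e00, e00, e00, e00, e00]
    | .two => [⟨1662, [557442]⟩, ⟨1662, [8]⟩, ⟨1662, [2177]⟩, ⟨1662, [673913372527999497034546026530]⟩, ⟨1662, [44300706912091866522290419004880914, 8, 157387727270162497841]⟩, ⟨1662, [0, 8, 48604607583080225607054527603272754868744433954]⟩]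
    | .twoE => [⟨3122, [8]⟩, ⟨3122, [8]⟩, ⟨3122, [8]⟩, ⟨3122, [2178]⟩, ⟨3122, [8]⟩]
    | .thrR => [⟨2129, [8]⟩, ⟨2129, [2177]⟩, ⟨1442, [2177]⟩, ⟨1442, [673913372527999497034546026530]⟩, ⟨1442, [10283101997803068843374610, 8, 9380536260657]⟩, ⟨1442, [0, 8, 190261571405000072362704266845762178805600802]⟩]
    | .thrL => [⟨1778, [2177]⟩, ⟨1778, [2177]⟩, ⟨1442, [2177]⟩, ⟨1442, [36566042642]⟩, ⟨1442, [142837809]⟩]
    | .threeE => [⟨1982, [8]⟩, ⟨1982, [8]⟩, ⟨1982, [8]⟩, ⟨1982, [557442]⟩, ⟨1982, [157387727261572171794, 8, 142706737]⟩, ⟨1982, [0, 0, 143144978]⟩]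
    | .ring => [⟨1560, [12659441500546]⟩, ⟨1560, [12659552519041]⟩, ⟨1560, [36566041473]⟩, ⟨942, [11311449769802721749519496707860628242]⟩, ⟨942, [230022421333261778384335643105645400414708017628756480230099789578770, 8, 156907724953105215762]⟩, ⟨942, [0, 0, 157410808347108778274]⟩]

/-- mode -/
def s2f_10_m1 : Mode where
  md := .V 300 1000
  lam := 750
  ct := 0
  gp := fun
    | .one => [e00, e00, e00, e00, e00, e00, e00, e00]
    | .two => [e00, e00, e00, e00, e00, ⟨-1603, [0, 0, 0, 0, 87207195705897530174326887110751592724635685378763402631568085198143969190065474808270140665191762524377874, 3185391527675680168139028134737070317994114764841746]⟩]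
    | .twoE => [e00, e00, e00, e00, e00]
    | .thrR => [e00, e00, e00, e00, e00, e00]
    | .thrL => [e00, e00, e00, e00, e00]
    | .threeE => [e00, e00, e00, e00, e00, e00]
    | .ring => [e00, e00, e00, e00, e00, ⟨-1977, [0, 0, 0, 0, 2897060262424129485323116331501233602834, 53392387125216200871387160902080396203067608487606776574482]⟩]
  gq := fun
    | .one => [e00, e00, e00, e00, e00, e00, e00, e00]
    | .two => [e00, e00, e00, e00, e00, e00]
    | .twoE => [e00, e00, e00, e00, e00]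
    | .thrR => [⟨736, [8]⟩, ⟨736, [8]⟩, e00, e00, e00, e00]
    | .thrL => [⟨840, [8]⟩, ⟨840, [8]⟩, e00, e00, e00]
    | .threeE => [e00, e00, e00, e00, e00, e00]
    | .ring => [⟨549, [557442]⟩, ⟨549, [2177]⟩, ⟨549, [2177]⟩, e00, e00, e00]

/-- piece -/
def s2f_10 : Piece := ⟨5100, 5400, -820, 820, s2f_10_wp, s2f_10_wq, [s2f_10_m0, s2f_10_m1]⟩

set_option linter.defProp false

def s2f_10_r0_one0 : rowsOk stS2F s2f_10 s2f_10_m0 false .one = true := by decide +kernel

def s2f_10_r0_one1 : rowsOk stS2F s2f_10 s2f_10_m0 true .one = true := by decide +kernel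

def s2f_10_r0_two0 : rowsOk stS2F s2f_10 s2f_10_m0 false .two = true := by decide +kernel

def s2f_10_r0_two1 : rowsOk stS2F s2f_10 s2f_10_m0 true .two = true := by decide +kernel

def s2f_10_r0_twoE0 : rowsOk stS2F s2f_10 s2f_10_m0 false .twoE = true := by decide +kernel

def s2f_10_r0_twoE1 : rowsOk stS2F s2f_10 s2f_10_m0 true .twoE = true := by decide +kernel

def s2f_10_r0_thrR0 : rowsOk stS2F s2f_10 s2f_10_m0 false .thrR = true := by decide +kernel

def s2f_10_r0_thrR1 : rowsOk stS2F s2f_10 s2f_10_m0 true .thrR = true := by decide +kernel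

def s2f_10_r0_thrL0 : rowsOk stS2F s2f_10 s2f_10_m0 false .thrL = true := by decide +kernel

def s2f_10_r0_thrL1 : rowsOk stS2F s2f_10 s2f_10_m0 true .thrL = true := by decide +kernel

def s2f_10_r0_threeE0 : rowsOk stS2F s2f_10 s2f_10_m0 false .threeE = true := by decide +kernel

def s2f_10_r0_threeE1 : rowsOk stS2F s2f_10 s2f_10_m0 true .threeE = true := by decide +kernel

def s2f_10_r0_ring0 : rowsOk stS2F s2f_10 s2f_10_m0 false .ring = true := by decide +kernel

def s2f_10_r0_ring1 : rowsOk stS2F s2f_10 s2f_10_m0 true .ring = true := by decide +kernel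

def s2f_10_r1_one0 : rowsOk stS2F s2f_10 s2f_10_m1 false .one = true := by decide +kernel

def s2f_10_r1_one1 : rowsOk stS2F s2f_10 s2f_10_m1 true .one = true := by decide +kernel

def s2f_10_r1_two0 : rowsOk stS2F s2f_10 s2f_10_m1 false .two = true := by decide +kernel

def s2f_10_r1_two1 : rowsOk stS2F s2f_10 s2f_10_m1 true .two = true := by decide +kernel

def s2f_10_r1_twoE0 : rowsOk stS2F s2f_10 s2f_10_m1 false .twoE = true := by decide +kernel

def s2f_10_r1_twoE1 : rowsOk stS2F s2f_10 s2f_10_m1 true .twoE = true := by decide +kernel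

def s2f_10_r1_thrR0 : rowsOk stS2F s2f_10 s2f_10_m1 false .thrR = true := by decide +kernel

def s2f_10_r1_thrR1 : rowsOk stS2F s2f_10 s2f_10_m1 true .thrR = true := by decide +kernel

def s2f_10_r1_thrL0 : rowsOk stS2F s2f_10 s2f_10_m1 false .thrL = true := by decide +kernel

def s2f_10_r1_thrL1 : rowsOk stS2F s2f_10 s2f_10_m1 true .thrL = true := by decide +kernel

def s2f_10_r1_threeE0 : rowsOk stS2F s2f_10 s2f_10_m1 false .threeE = true := by decide +kernel

def s2f_10_r1_threeE1 : rowsOk stS2F s2f_10 s2f_10_m1 true .threeE = true := by decide +kernel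

def s2f_10_r1_ring0 : rowsOk stS2F s2f_10 s2f_10_m1 false .ring = true := by decide +kernel

def s2f_10_r1_ring1 : rowsOk stS2F s2f_10 s2f_10_m1 true .ring = true := by decide +kernel

theorem s2f_10_r0 : allRows stS2F s2f_10 s2f_10_m0 = true := by
  refine allRows_of fun P => ?_
  cases P
  exacts [⟨s2f_10_r0_one0, s2f_10_r0_one1⟩,
    ⟨s2f_10_r0_two0, s2f_10_r0_two1⟩,
    ⟨s2f_10_r0_twoE0, s2f_10_r0_twoE1⟩,
    ⟨s2f_10_r0_thrR0, s2f_10_r0_thrR1⟩,
    ⟨s2f_10_r0_thrL0, s2f_10_r0_thrL1⟩,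
    ⟨s2f_10_r0_threeE0, s2f_10_r0_threeE1⟩,
    ⟨s2f_10_r0_ring0, s2f_10_r0_ring1⟩]

theorem s2f_10_r1 : allRows stS2F s2f_10 s2f_10_m1 = true := by
  refine allRows_of fun P => ?_
  cases P
  exacts [⟨s2f_10_r1_one0, s2f_10_r1_one1⟩,
    ⟨s2f_10_r1_two0, s2f_10_r1_two1⟩,
    ⟨s2f_10_r1_twoE0, s2f_10_r1_twoE1⟩,
    ⟨s2f_10_r1_thrR0, s2f_10_r1_thrR1⟩,
    ⟨s2f_10_r1_thrL0, s2f_10_r1_thrL1⟩,
    ⟨s2f_10_r1_threeE0, s2f_10_r1_threeE1⟩,
    ⟨s2f_10_r1_ring0, s2f_10_r1_ring1⟩]

theorem s2f_10_ok : s2f_10.ok stS2F = true := by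
  have h : (PC.all.all fun P => PC.all.all fun Q => pairOk stS2F s2f_10 P Q) = true := by decide +kernel
  have d0 : mdOk stS2F s2f_10_m0.md = true := by decide +kernel
  have d1 : mdOk stS2F s2f_10_m1.md = true := by decide +kernel
  unfold Piece.ok
  rw [h, Bool.true_and]
  show List.all [s2f_10_m0, s2f_10_m1] _ = true
  rw [List.all_eq_true]
  intro m hm
  simp only [List.mem_cons, List.not_mem_nil, or_false] at hm
  rcases hm with rfl | rfl
  · rw [s2f_10_r0, d0]; rfl
  · rw [s2f_10_r1, d1]; rfl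

end OR

end Pool.Agent.Work.MP_b30479_gt.G2
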