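import Pool.Agent.Work.MP_b30479_gt.G2.OStS
import Pool.Agent.Work.MP_b30479_gt.G2.ORows

namespace Pool.Agent.Work.MP_b30479_gt.G2

namespace OR

/-- windows -/
def s2f_11_wp : PC → Win
  | .one => ⟨0, 0, 0, 0, 0, 0⟩
  | .two => ⟨-230, 780, -360, 760, -660, 530⟩
  | .twoE => ⟨-790, -140, -520, 270, -160, 820⟩
  | .thrR => ⟨100, 920, -70, 910, -630, 480⟩
  | .thrL => ⟨100, 920, -70, 910, -630, 480⟩
  | .threeE => ⟨-20, 610, 0, 860, -380, 650⟩
  | .ring => ⟨270, 1300, 110, 1120, -820, 440⟩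

/-- windows -/
def s2f_11_wq : PC → Win
  | .one => ⟨0, 0, 0, 0, 0, 0⟩
  | .two => ⟨-230, 780, -360, 760, -660, 530⟩
  | .twoE => ⟨-790, -140, -520, 270, -160, 820⟩
  | .thrR => ⟨100, 920, -70, 910, -630, 480⟩
  | .thrL => ⟨100, 920, -70, 910, -630, 480⟩
  | .threeE => ⟨-20, 610, 0, 860, -380, 650⟩
  | .ring => ⟨270, 1300, 110, 1120, -820, 440⟩

/-- mode -/
def s2f_11_m0 : Mode where
  md := .D
  lam := 1000
  ct := 0
  gp := fun
    | .one => [e00, e00, e00, e00, e00, e00, e00, e00]
    | .two => [e00, e00, e00, ⟨-3538, [1191795397532789038537019841181743716712324289128888968568338045928700017059867189315232573882640802466]⟩, ⟨-3538, [44206160885905192971142635377406257, 8, 208757692477171580702610476014087989916918901375924114194]⟩, ⟨-3538, [0, 0, 817205264047063090793540798311594358400591027064877586]⟩]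
    | .twoE => [e00, e00, e00, e00, e00]
    | .thrR => [e00, e00, e00, ⟨-3647, [64607376514863768824891012707508567806079336655990233841617417959419289499148133026]⟩, ⟨-3647, [172680315960567160043527707590961, 8, 741656309713584344215362821009797846405921]⟩, ⟨-2351, [0, 0, 15028770301317116080425900812495789365531093179239619448955503936376345122]⟩]
    | .thrL => [e00, e00, e00, e00, ⟨-3647, [674532484218300785517623615650]⟩]
    | .threeE => [e00, e00, e00, e00, ⟨-3426, [2394221256914961, 8, 156907724953105216018]⟩, ⟨-3426, [0, 0, 559122]⟩]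
    | .ring => [e00, e00, e00, e00, ⟨-3897, [15316607142228990610989643876155376787490047212432970405216817, 8, 13680980796948185327429221857352733136441369968762296040890898]⟩, ⟨-2854, [0, 0, 612914545337401634]⟩]
  gq := fun
    | .one => [e00, e00, e00, e00, e00, e00, e00, e00]
    | .two => [⟨2484, [557442]⟩, ⟨2484, [8]⟩, ⟨1197, [557953]⟩, ⟨1197, [16574862256053422528926398737228107730288415968967570074534877477706864098344739307810]⟩, ⟨1197, [2640527898793927819865370929, 8, 11306297519369808836938822283646145298]⟩, ⟨1197, [0, 0, 40168398581420079022866]⟩]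
    | .twoE => [⟨1907, [8]⟩, ⟨1907, [8]⟩, ⟨1907, [8]⟩, ⟨1907, [557442]⟩, ⟨1907, [2177]⟩]
    | .thrR => [⟨2382, [2177]⟩, ⟨2382, [142706706]⟩, ⟨1340, [557697]⟩, ⟨1340, [15028774301119784438078728348100250507484047950441436344584863388072968482]⟩, ⟨1340, [156907684293179375921, 8, 40168398575952585655073]⟩, ⟨1340, [0, 0, 2894435996235485176226715231792838939170]⟩]
    | .thrL => [⟨2382, [557953]⟩, ⟨2382, [2177]⟩, ⟨1097, [143143553]⟩, ⟨1097, [40168367179054071687186]⟩, ⟨1097, [2640527898825324717988676385]⟩]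
    | .threeE => [⟨2603, [8]⟩, ⟨2603, [8]⟩, ⟨1307, [2177]⟩, ⟨1307, [36566042642]⟩, ⟨1307, [673913372530296332844504987666, 8, 9382407995666]⟩, ⟨1307, [0, 0, 2178]⟩]
    | .ring => [⟨2133, [3572996807186364670795679762]⟩, ⟨2133, [3569618969115261262417658657]⟩, ⟨2133, [49450943361]⟩, ⟨2133, [189776881732440891425756301547300802631598610]⟩, ⟨837, [3859135847551140840508339485880873145481839836788940782014010923248611656466, 8, 11306390612362158012947149915637883410]⟩, ⟨837, [0, 0, 143163682]⟩]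

/-- mode -/
def s2f_11_m1 : Mode where
  md := .V 300 1000
  lam := 750
  ct := 0
  gp := fun
    | .one => [e00, e00, e00, e00, e00, e00, e00, e00]
    | .two => [e00, e00, e00, e00, e00, e00]
    | .twoE => [e00, e00, e00, e00, e00]
    | .thrR => [e00, e00, e00, e00, e00, ⟨-1689, [0, 0, 0, 0, 42708579977822897387719103514925145125282319279218812081385382179248304671778093657685005596069370462716953154866753815011782373763377334040289312114279500817516961091940133042130209901032541598008603652386, 48560572464566726626925127712913494828887650594]⟩]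
    | .thrL => [e00, e00, e00, e00, e00]
    | .threeE => [e00, e00, e00, e00, e00, ⟨-1486, [0, 0, 0, 0, 559122, 2177]⟩]
    | .ring => [e00, e00, e00, e00, e00, ⟨-2199, [0, 0, 0, 0, 674524405604258526910688077842, 3182434268308651499241366302098230648193161707463442]⟩]
  gq := fun
    | .one => [e00, e00, e00, e00, e00, e00, e00, e00]
    | .two => [⟨822, [8]⟩, ⟨822, [8]⟩, e00, e00, e00, e00]
    | .twoE => [e00, e00, e00, e00, e00]
    | .thrR => [⟨1063, [8]⟩, ⟨1063, [8]⟩, e00, e00, e00, e00]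
    | .thrL => [⟨747, [8]⟩, ⟨747, [8]⟩, e00, e00, e00]
    | .threeE => [⟨905, [8]⟩, ⟨905, [8]⟩, e00, e00, e00, e00]
    | .ring => [⟨552, [9360906487826]⟩, ⟨552, [142836097]⟩, ⟨552, [557953]⟩, ⟨552, [2396420783486994]⟩, e00, e00]

/-- piece -/
def s2f_11 : Piece := ⟨5400, 5700, -820, 820, s2f_11_wp, s2f_11_wq, [s2f_11_m0, s2f_11_m1]⟩

set_option linter.defProp false

def s2f_11_r0_one0 : rowsOk stS2F s2f_11 s2f_11_m0 false .one = true := by decide +kernel

def s2f_11_r0_one1 : rowsOk stS2F s2f_11 s2f_11_m0 true .one = true := by decide +kernel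

def s2f_11_r0_two0 : rowsOk stS2F s2f_11 s2f_11_m0 false .two = true := by decide +kernel

def s2f_11_r0_two1 : rowsOk stS2F s2f_11 s2f_11_m0 true .two = true := by decide +kernel

def s2f_11_r0_twoE0 : rowsOk stS2F s2f_11 s2f_11_m0 false .twoE = true := by decide +kernel

def s2f_11_r0_twoE1 : rowsOk stS2F s2f_11 s2f_11_m0 true .twoE = true := by decide +kernel

def s2f_11_r0_thrR0 : rowsOk stS2F s2f_11 s2f_11_m0 false .thrR = true := by decide +kernel

def s2f_11_r0_thrR1 : rowsOk stS2F s2f_11 s2f_11_m0 true .thrR = true := by decide +kernel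

def s2f_11_r0_thrL0 : rowsOk stS2F s2f_11 s2f_11_m0 false .thrL = true := by decide +kernel

def s2f_11_r0_thrL1 : rowsOk stS2F s2f_11 s2f_11_m0 true .thrL = true := by decide +kernel

def s2f_11_r0_threeE0 : rowsOk stS2F s2f_11 s2f_11_m0 false .threeE = true := by decide +kernel

def s2f_11_r0_threeE1 : rowsOk stS2F s2f_11 s2f_11_m0 true .threeE = true := by decide +kernel

def s2f_11_r0_ring0 : rowsOk stS2F s2f_11 s2f_11_m0 false .ring = true := by decide +kernel

def s2f_11_r0_ring1 : rowsOk stS2F s2f_11 s2f_11_m0 true .ring = true := by decide +kernel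

def s2f_11_r1_one0 : rowsOk stS2F s2f_11 s2f_11_m1 false .one = true := by decide +kernel

def s2f_11_r1_one1 : rowsOk stS2F s2f_11 s2f_11_m1 true .one = true := by decide +kernel

def s2f_11_r1_two0 : rowsOk stS2F s2f_11 s2f_11_m1 false .two = true := by decide +kernel

def s2f_11_r1_two1 : rowsOk stS2F s2f_11 s2f_11_m1 true .two = true := by decide +kernel

def s2f_11_r1_twoE0 : rowsOk stS2F s2f_11 s2f_11_m1 false .twoE = true := by decide +kernel

def s2f_11_r1_twoE1 : rowsOk stS2F s2f_11 s2f_11_m1 true .twoE = true := by decide +kernel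

def s2f_11_r1_thrR0 : rowsOk stS2F s2f_11 s2f_11_m1 false .thrR = true := by decide +kernel

def s2f_11_r1_thrR1 : rowsOk stS2F s2f_11 s2f_11_m1 true .thrR = true := by decide +kernel

def s2f_11_r1_thrL0 : rowsOk stS2F s2f_11 s2f_11_m1 false .thrL = true := by decide +kernel

def s2f_11_r1_thrL1 : rowsOk stS2F s2f_11 s2f_11_m1 true .thrL = true := by decide +kernel

def s2f_11_r1_threeE0 : rowsOk stS2F s2f_11 s2f_11_m1 false .threeE = true := by decide +kernel

def s2f_11_r1_threeE1 : rowsOk stS2F s2f_11 s2f_11_m1 true .threeE = true := by decide +kernel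

def s2f_11_r1_ring0 : rowsOk stS2F s2f_11 s2f_11_m1 false .ring = true := by decide +kernel

def s2f_11_r1_ring1 : rowsOk stS2F s2f_11 s2f_11_m1 true .ring = true := by decide +kernel

theorem s2f_11_r0 : allRows stS2F s2f_11 s2f_11_m0 = true := by
  refine allRows_of fun P => ?_
  cases P
  exacts [⟨s2f_11_r0_one0, s2f_11_r0_one1⟩,
    ⟨s2f_11_r0_two0, s2f_11_r0_two1⟩,
    ⟨s2f_11_r0_twoE0, s2f_11_r0_twoE1⟩,
    ⟨s2f_11_r0_thrR0, s2f_11_r0_thrR1⟩,
    ⟨s2f_11_r0_thrL0, s2f_11_r0_thrL1⟩,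
    ⟨s2f_11_r0_threeE0, s2f_11_r0_threeE1⟩,
    ⟨s2f_11_r0_ring0, s2f_11_r0_ring1⟩]

theorem s2f_11_r1 : allRows stS2F s2f_11 s2f_11_m1 = true := by
  refine allRows_of fun P => ?_
  cases P
  exacts [⟨s2f_11_r1_one0, s2f_11_r1_one1⟩,
    ⟨s2f_11_r1_two0, s2f_11_r1_two1⟩,
    ⟨s2f_11_r1_twoE0, s2f_11_r1_twoE1⟩,
    ⟨s2f_11_r1_thrR0, s2f_11_r1_thrR1⟩,
    ⟨s2f_11_r1_thrL0, s2f_11_r1_thrL1⟩,
    ⟨s2f_11_r1_threeE0, s2f_11_r1_threeE1⟩,
    ⟨s2f_11_r1_ring0, s2f_11_r1_ring1⟩]

theorem s2f_11_ok : s2f_11.ok stS2F = true := by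
  have h : (PC.all.all fun P => PC.all.all fun Q => pairOk stS2F s2f_11 P Q) = true := by decide +kernel
  have d0 : mdOk stS2F s2f_11_m0.md = true := by decide +kernel
  have d1 : mdOk stS2F s2f_11_m1.md = true := by decide +kernel
  unfold Piece.ok
  rw [h, Bool.true_and]
  show List.all [s2f_11_m0, s2f_11_m1] _ = true
  rw [List.all_eq_true]
  intro m hm
  simp only [List.mem_cons, List.not_mem_nil, or_false] at hm
  rcases hm with rfl | rfl
  · rw [s2f_11_r0, d0]; rfl
  · rw [s2f_11_r1, d1]; rfl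

end OR

end Pool.Agent.Work.MP_b30479_gt.G2
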