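import Pool.Agent.Work.MP_b30479_gt.G2.OStS
import Pool.Agent.Work.MP_b30479_gt.G2.ORows

namespace Pool.Agent.Work.MP_b30479_gt.G2

namespace OR

/-- windows -/
def s2f_12_wp : PC → Win
  | .one => ⟨0, 0, 0, 0, 0, 0⟩
  | .two => ⟨-230, 780, -360, 760, -660, 530⟩
  | .twoE => ⟨-790, -140, -520, 270, -160, 820⟩
  | .thrR => ⟨100, 920, -70, 910, -630, 480⟩
  | .thrL => ⟨100, 920, -70, 910, -630, 480⟩
  | .threeE => ⟨-20, 610, 0, 860, -380, 650⟩
  | .ring => ⟨270, 1300, 110, 1120, -820, 440⟩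

/-- windows -/
def s2f_12_wq : PC → Win
  | .one => ⟨0, 0, 0, 0, 0, 0⟩
  | .two => ⟨-230, 780, -360, 760, -660, 530⟩
  | .twoE => ⟨-790, -140, -520, 270, -160, 820⟩
  | .thrR => ⟨100, 920, -70, 910, -630, 480⟩
  | .thrL => ⟨100, 920, -70, 910, -630, 480⟩
  | .threeE => ⟨-20, 610, 0, 860, -380, 650⟩
  | .ring => ⟨270, 1300, 110, 1120, -820, 440⟩

/-- mode -/
def s2f_12_m0 : Mode where
  md := .D
  lam := 2000
  ct := 0
  gp := fun
    | .one => [e00, e00, e00, e00, e00, e00, e00, e00]
    | .two => [e00, e00, e00, ⟨-3484, [44206160885905192971142635377406257, 8, 0]⟩, ⟨-3484, [674532484220934072021365043505, 8, 58760066628182779232388711254128893326996400575727571396927055566287138]⟩, ⟨-3481, [0, 0, 44205710270062549083982316090982930]⟩]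
    | .twoE => [e00, e00, e00, ⟨-2061, [612915646605402786]⟩, ⟨-2061, [673913372528022570257964630800]⟩]
    | .thrR => [e00, e00, e00, ⟨-3704, [2632474793605428732644327729, 8, 0]⟩, ⟨-3704, [2394221256906801, 8, 815449999912040159183366170424655733141600005496316690]⟩, ⟨-1207, [0, 0, 674222881047038738784925720866]⟩]
    | .thrL => [e00, e00, e00, ⟨-3704, [2632474111446477374880785058]⟩, ⟨-3704, [392650963285992484709148051128038189370615354657839802083594409771528048739009237697441867911508338400870291894698410125804601292582356423085012249724400404570700335955666420365621013464295890823221648193274063026731070588082903721105631959223430060709107874425108978020761909284487698484946661074863322294202386]⟩]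
    | .threeE => [e00, e00, e00, ⟨-3261, [10283101997837803580400290]⟩, ⟨-3261, [612920641770231857, 8, 10283102356806467308753186]⟩, ⟨-2629, [0, 0, 2178]⟩]
    | .ring => [e00, e00, e00, ⟨-4204, [16853376325134249353238090574038966529094035088034]⟩, ⟨-4204, [72334863841089306193934680357674193027352387043550389141704796268209634600431391281, 8, 3858921890994272496101274372611521617959562650823173156158928565630370259234]⟩, ⟨-1830, [0, 0, 36549722402]⟩]
  gq := fun
    | .one => [e00, e00, e00, e00, e00, e00, e00, e00]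
    | .two => [⟨1377, [557442]⟩, ⟨765, [2177]⟩, ⟨765, [142706706]⟩, ⟨-1097, [3502372898800055901571274043122482433111924298896097965097845026, 8, 0]⟩, ⟨-1097, [157387727270162497841, 8, 3182439979476513183528805587996599961192128761114914]⟩, ⟨-1097, [0, 0, 614761724867281682]⟩]
    | .twoE => [⟨2225, [8]⟩, ⟨323, [8]⟩, ⟨323, [8]⟩, ⟨323, [613483720570210322]⟩, ⟨323, [10283101997803068843393808]⟩]
    | .thrR => [⟨1177, [557953]⟩, ⟨1177, [143143553]⟩, ⟨545, [557953]⟩, ⟨-1194, [208566140762475377532912942157247948146386028697472893218, 8, 0]⟩, ⟨-1194, [2394221256906801, 8, 740969548811324307009214086113683382018834]⟩, ⟨-1194, [0, 0, 674222881047038738784925720866]⟩]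
    | .thrL => [⟨1177, [557442]⟩, ⟨1177, [557953]⟩, ⟨545, [557953]⟩, ⟨-1297, [58885739861315015266389923564608453397248272524082189625856623870771730]⟩, ⟨-1297, [62362132941061109948391451256558548340768533227124375305571843635750789135093481928102595299862737538569219559123118345197035482699031308897841671959868936526522501235827443723494317848009253060495147985891726126247179879786089911865810411718741459480594]⟩]
    | .threeE => [⟨1005, [2177]⟩, ⟨1005, [2177]⟩, ⟨-877, [557697]⟩, ⟨-877, [172521823367167871240843783865106]⟩, ⟨-877, [10283101997837802243897362, 8, 614768322361692450]⟩, ⟨-877, [0, 0, 2178]⟩]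
    | .ring => [⟨680, [54457204708246327232530]⟩, ⟨680, [212750364740285597729]⟩, ⟨677, [12659441502257]⟩, ⟨145, [64745555687743057370616019011209769189540518744921007899882986587153546468424954386]⟩, ⟨-1817, [282015339355939333610208986761836283752312850551513407687019287073404303350792978, 8, 815450000727411143517244763310731906194928572480823586]⟩, ⟨-1817, [0, 0, 36549722402]⟩]

/-- mode -/
def s2f_12_m1 : Mode where
  md := .V 300 1000
  lam := 1000
  ct := 0
  gp := fun
    | .one => [e00, e00, e00, e00, e00, e00, e00, e00]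
    | .two => [e00, e00, e00, e00, e00, ⟨-1856, [0, 0, 0, 0, 172678275260721712245637456078897, 9361024361265]⟩]
    | .twoE => [e00, e00, e00, e00, e00]
    | .thrR => [e00, e00, e00, e00, e00, ⟨-1966, [0, 0, 0, 0, 103818811755345242313170793282623294873405059544732744298811582238101446111593477632170609384646098960728507485306879165232281808949977154072866, 740975796776659162128681811981699847299858]⟩]
    | .thrL => [e00, e00, e00, e00, e00]
    | .threeE => [e00, e00, e00, e00, e00, ⟨-2068, [0, 0, 0, 0, 557442, 2177]⟩]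
    | .ring => [e00, e00, e00, e00, e00, ⟨-2538, [0, 0, 0, 0, 2632443107752405608094504978, 53556266285898303153680373145087777542824014862268969263890]⟩]
  gq := fun
    | .one => [e00, e00, e00, e00, e00, e00, e00, e00]
    | .two => [⟨812, [2177]⟩, ⟨812, [8]⟩, ⟨812, [8]⟩, e00, e00, e00]
    | .twoE => [⟨1522, [8]⟩, e00, e00, e00, e00]
    | .thrR => [⟨1024, [8]⟩, ⟨1024, [8]⟩, ⟨1024, [8]⟩, e00, e00, e00]
    | .thrL => [⟨712, [8]⟩, ⟨712, [8]⟩, ⟨712, [8]⟩, e00, e00]
    | .threeE => [⟨922, [8]⟩, ⟨922, [8]⟩, e00, e00, e00, e00]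
    | .ring => [⟨452, [142706706]⟩, ⟨452, [2177]⟩, ⟨452, [2177]⟩, ⟨452, [40205269111450540455954]⟩, e00, ⟨-885, [0, 0, 0, 0, 9357953763346, 156907706873164236818]⟩]

/-- piece -/
def s2f_12 : Piece := ⟨5700, 6000, -820, 820, s2f_12_wp, s2f_12_wq, [s2f_12_m0, s2f_12_m1]⟩

set_option linter.defProp false

def s2f_12_r0_one0 : rowsOk stS2F s2f_12 s2f_12_m0 false .one = true := by decide +kernel

def s2f_12_r0_one1 : rowsOk stS2F s2f_12 s2f_12_m0 true .one = true := by decide +kernel

def s2f_12_r0_two0 : rowsOk stS2F s2f_12 s2f_12_m0 false .two = true := by decide +kernel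

def s2f_12_r0_two1 : rowsOk stS2F s2f_12 s2f_12_m0 true .two = true := by decide +kernel

def s2f_12_r0_twoE0 : rowsOk stS2F s2f_12 s2f_12_m0 false .twoE = true := by decide +kernel

def s2f_12_r0_twoE1 : rowsOk stS2F s2f_12 s2f_12_m0 true .twoE = true := by decide +kernel

def s2f_12_r0_thrR0 : rowsOk stS2F s2f_12 s2f_12_m0 false .thrR = true := by decide +kernel

def s2f_12_r0_thrR1 : rowsOk stS2F s2f_12 s2f_12_m0 true .thrR = true := by decide +kernel

def s2f_12_r0_thrL0_0 : cellOk stS2F s2f_12 s2f_12_m0 false .thrL ((stS2F.bins .thrL).getD 0 b00)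
    ((s2f_12_m0.g false .thrL).getD 0 e00) = true := by decide +kernel

def s2f_12_r0_thrL0_1 : cellOk stS2F s2f_12 s2f_12_m0 false .thrL ((stS2F.bins .thrL).getD 1 b00)
    ((s2f_12_m0.g false .thrL).getD 1 e00) = true := by decide +kernel

def s2f_12_r0_thrL0_2 : cellOk stS2F s2f_12 s2f_12_m0 false .thrL ((stS2F.bins .thrL).getD 2 b00)
    ((s2f_12_m0.g false .thrL).getD 2 e00) = true := by decide +kernel

def s2f_12_r0_thrL0_3 : cellOk stS2F s2f_12 s2f_12_m0 false .thrL ((stS2F.bins .thrL).getD 3 b00)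
    ((s2f_12_m0.g false .thrL).getD 3 e00) = true := by decide +kernel

def s2f_12_r0_thrL0_4 : cellOk stS2F s2f_12 s2f_12_m0 false .thrL ((stS2F.bins .thrL).getD 4 b00)
    ((s2f_12_m0.g false .thrL).getD 4 e00) = true := by decide +kernel

theorem s2f_12_r0_thrL0 : rowsOk stS2F s2f_12 s2f_12_m0 false .thrL = true := by
  refine rowsOk_of fun i hi => ?_
  have hi : i < 5 := hi
  interval_cases i
  exacts [s2f_12_r0_thrL0_0, s2f_12_r0_thrL0_1, s2f_12_r0_thrL0_2, s2f_12_r0_thrL0_3, s2f_12_r0_thrL0_4]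

def s2f_12_r0_thrL1_0 : cellOk stS2F s2f_12 s2f_12_m0 true .thrL ((stS2F.bins .thrL).getD 0 b00)
    ((s2f_12_m0.g true .thrL).getD 0 e00) = true := by decide +kernel

def s2f_12_r0_thrL1_1 : cellOk stS2F s2f_12 s2f_12_m0 true .thrL ((stS2F.bins .thrL).getD 1 b00)
    ((s2f_12_m0.g true .thrL).getD 1 e00) = true := by decide +kernel

def s2f_12_r0_thrL1_2 : cellOk stS2F s2f_12 s2f_12_m0 true .thrL ((stS2F.bins .thrL).getD 2 b00)
    ((s2f_12_m0.g true .thrL).getD 2 e00) = true := by decide +kernel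

def s2f_12_r0_thrL1_3 : cellOk stS2F s2f_12 s2f_12_m0 true .thrL ((stS2F.bins .thrL).getD 3 b00)
    ((s2f_12_m0.g true .thrL).getD 3 e00) = true := by decide +kernel

def s2f_12_r0_thrL1_4 : cellOk stS2F s2f_12 s2f_12_m0 true .thrL ((stS2F.bins .thrL).getD 4 b00)
    ((s2f_12_m0.g true .thrL).getD 4 e00) = true := by decide +kernel

theorem s2f_12_r0_thrL1 : rowsOk stS2F s2f_12 s2f_12_m0 true .thrL = true := by
  refine rowsOk_of fun i hi => ?_
  have hi : i < 5 := hi
  interval_cases i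
  exacts [s2f_12_r0_thrL1_0, s2f_12_r0_thrL1_1, s2f_12_r0_thrL1_2, s2f_12_r0_thrL1_3, s2f_12_r0_thrL1_4]

def s2f_12_r0_threeE0 : rowsOk stS2F s2f_12 s2f_12_m0 false .threeE = true := by decide +kernel

def s2f_12_r0_threeE1 : rowsOk stS2F s2f_12 s2f_12_m0 true .threeE = true := by decide +kernel

def s2f_12_r0_ring0 : rowsOk stS2F s2f_12 s2f_12_m0 false .ring = true := by decide +kernel

def s2f_12_r0_ring1_0 : cellOk stS2F s2f_12 s2f_12_m0 true .ring ((stS2F.bins .ring).getD 0 b00)
    ((s2f_12_m0.g true .ring).getD 0 e00) = true := by decide +kernel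

def s2f_12_r0_ring1_1 : cellOk stS2F s2f_12 s2f_12_m0 true .ring ((stS2F.bins .ring).getD 1 b00)
    ((s2f_12_m0.g true .ring).getD 1 e00) = true := by decide +kernel

def s2f_12_r0_ring1_2 : cellOk stS2F s2f_12 s2f_12_m0 true .ring ((stS2F.bins .ring).getD 2 b00)
    ((s2f_12_m0.g true .ring).getD 2 e00) = true := by decide +kernel

def s2f_12_r0_ring1_3 : cellOk stS2F s2f_12 s2f_12_m0 true .ring ((stS2F.bins .ring).getD 3 b00)
    ((s2f_12_m0.g true .ring).getD 3 e00) = true := by decide +kernel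

def s2f_12_r0_ring1_4 : cellOk stS2F s2f_12 s2f_12_m0 true .ring ((stS2F.bins .ring).getD 4 b00)
    ((s2f_12_m0.g true .ring).getD 4 e00) = true := by decide +kernel

def s2f_12_r0_ring1_5 : cellOk stS2F s2f_12 s2f_12_m0 true .ring ((stS2F.bins .ring).getD 5 b00)
    ((s2f_12_m0.g true .ring).getD 5 e00) = true := by decide +kernel

theorem s2f_12_r0_ring1 : rowsOk stS2F s2f_12 s2f_12_m0 true .ring = true := by
  refine rowsOk_of fun i hi => ?_
  have hi : i < 6 := hi
  interval_cases i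
  exacts [s2f_12_r0_ring1_0, s2f_12_r0_ring1_1, s2f_12_r0_ring1_2, s2f_12_r0_ring1_3, s2f_12_r0_ring1_4, s2f_12_r0_ring1_5]

def s2f_12_r1_one0 : rowsOk stS2F s2f_12 s2f_12_m1 false .one = true := by decide +kernel

def s2f_12_r1_one1 : rowsOk stS2F s2f_12 s2f_12_m1 true .one = true := by decide +kernel

def s2f_12_r1_two0 : rowsOk stS2F s2f_12 s2f_12_m1 false .two = true := by decide +kernel

def s2f_12_r1_two1 : rowsOk stS2F s2f_12 s2f_12_m1 true .two = true := by decide +kernel

def s2f_12_r1_twoE0 : rowsOk stS2F s2f_12 s2f_12_m1 false .twoE = true := by decide +kernel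

def s2f_12_r1_twoE1 : rowsOk stS2F s2f_12 s2f_12_m1 true .twoE = true := by decide +kernel

def s2f_12_r1_thrR0 : rowsOk stS2F s2f_12 s2f_12_m1 false .thrR = true := by decide +kernel

def s2f_12_r1_thrR1 : rowsOk stS2F s2f_12 s2f_12_m1 true .thrR = true := by decide +kernel

def s2f_12_r1_thrL0 : rowsOk stS2F s2f_12 s2f_12_m1 false .thrL = true := by decide +kernel

def s2f_12_r1_thrL1 : rowsOk stS2F s2f_12 s2f_12_m1 true .thrL = true := by decide +kernel

def s2f_12_r1_threeE0 : rowsOk stS2F s2f_12 s2f_12_m1 false .threeE = true := by decide +kernel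

def s2f_12_r1_threeE1 : rowsOk stS2F s2f_12 s2f_12_m1 true .threeE = true := by decide +kernel

def s2f_12_r1_ring0 : rowsOk stS2F s2f_12 s2f_12_m1 false .ring = true := by decide +kernel

def s2f_12_r1_ring1 : rowsOk stS2F s2f_12 s2f_12_m1 true .ring = true := by decide +kernel

theorem s2f_12_r0 : allRows stS2F s2f_12 s2f_12_m0 = true := by
  refine allRows_of fun P => ?_
  cases P
  exacts [⟨s2f_12_r0_one0, s2f_12_r0_one1⟩,
    ⟨s2f_12_r0_two0, s2f_12_r0_two1⟩,
    ⟨s2f_12_r0_twoE0, s2f_12_r0_twoE1⟩,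
    ⟨s2f_12_r0_thrR0, s2f_12_r0_thrR1⟩,
    ⟨s2f_12_r0_thrL0, s2f_12_r0_thrL1⟩,
    ⟨s2f_12_r0_threeE0, s2f_12_r0_threeE1⟩,
    ⟨s2f_12_r0_ring0, s2f_12_r0_ring1⟩]

theorem s2f_12_r1 : allRows stS2F s2f_12 s2f_12_m1 = true := by
  refine allRows_of fun P => ?_
  cases P
  exacts [⟨s2f_12_r1_one0, s2f_12_r1_one1⟩,
    ⟨s2f_12_r1_two0, s2f_12_r1_two1⟩,
    ⟨s2f_12_r1_twoE0, s2f_12_r1_twoE1⟩,
    ⟨s2f_12_r1_thrR0, s2f_12_r1_thrR1⟩,
    ⟨s2f_12_r1_thrL0, s2f_12_r1_thrL1⟩,
    ⟨s2f_12_r1_threeE0, s2f_12_r1_threeE1⟩,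
    ⟨s2f_12_r1_ring0, s2f_12_r1_ring1⟩]

theorem s2f_12_ok : s2f_12.ok stS2F = true := by
  have h : (PC.all.all fun P => PC.all.all fun Q => pairOk stS2F s2f_12 P Q) = true := by decide +kernel
  have d0 : mdOk stS2F s2f_12_m0.md = true := by decide +kernel
  have d1 : mdOk stS2F s2f_12_m1.md = true := by decide +kernel
  unfold Piece.ok
  rw [h, Bool.true_and]
  show List.all [s2f_12_m0, s2f_12_m1] _ = true
  rw [List.all_eq_true]
  intro m hm
  simp only [List.mem_cons, List.not_mem_nil, or_false] at hm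
  rcases hm with rfl | rfl
  · rw [s2f_12_r0, d0]; rfl
  · rw [s2f_12_r1, d1]; rfl

end OR

end Pool.Agent.Work.MP_b30479_gt.G2
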