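import Pool.Agent.Work.MP_b30479_gt.G2.OPw

namespace Pool.Agent.Work.MP_b30479_gt.G2

namespace OR

/-- sums, runs of three or more digits `1`, flat part -/
def stS3F : Stage where
  own := .F
  XM := 800
  cr := 200
  slp := 9500
  scp := 20000
  slq := 0
  scq := 20000
  bins := fun
    | .one => [⟨700, 850, .L 150⟩, ⟨850, 1500, .L 150⟩, ⟨1500, 2000, .F⟩, ⟨2000, 2500, .F⟩, ⟨2500, 4000, .F⟩, ⟨4000, 5300, .F⟩, ⟨5300, 6000, .F⟩, ⟨6000, 7000, .R 800 200⟩]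
    | .two => [⟨700, 1600, .L 160⟩, ⟨1600, 2000, .F⟩, ⟨2000, 2500, .F⟩, ⟨2500, 4000, .F⟩, ⟨4000, 5100, .F⟩, ⟨5100, 5600, .R 800 290⟩]
    | .twoE => [⟨700, 1400, .L 140⟩, ⟨1400, 2000, .F⟩, ⟨2000, 2500, .F⟩, ⟨2500, 3500, .F⟩, ⟨3500, 3700, .R 700 350⟩]
    | .thrR => [⟨700, 1300, .L 130⟩, ⟨1300, 2000, .F⟩, ⟨2000, 2500, .F⟩, ⟨2500, 4000, .F⟩, ⟨4000, 5000, .F⟩, ⟨5000, 6500, .R 650 150⟩]
    | .thrL => [⟨700, 1500, .L 150⟩, ⟨1500, 2000, .F⟩, ⟨2000, 2500, .F⟩, ⟨2500, 3600, .F⟩, ⟨3600, 3900, .R 650 290⟩]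
    | .threeE => [⟨700, 1400, .L 140⟩, ⟨1400, 2000, .F⟩, ⟨2000, 2500, .F⟩, ⟨2500, 3500, .F⟩, ⟨3500, 5300, .R 600 250⟩, ⟨5300, 6000, .R 600 250⟩]
    | .ring => [⟨700, 1600, .L 160⟩, ⟨1600, 2000, .F⟩, ⟨2000, 2400, .F⟩, ⟨2400, 3600, .F⟩, ⟨3600, 5300, .R 650 290⟩, ⟨5300, 6500, .R 650 290⟩]
  pp := pp1
  pw := pw1
  k0 := k01
  kind := fun P Q => (decide (P = .one) || decide (Q = .one))

/-- sums, runs of three or more digits `1`, short hinges -/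
def stS3L : Stage where
  own := .F
  XM := 800
  cr := 200
  slp := 9500
  scp := 20000
  slq := 0
  scq := 20000
  bins := fun
    | .one => [⟨700, 850, .L 150⟩, ⟨850, 1500, .L 150⟩, ⟨1500, 2000, .F⟩, ⟨2000, 2500, .F⟩, ⟨2500, 4000, .F⟩, ⟨4000, 5300, .F⟩, ⟨5300, 6000, .F⟩, ⟨6000, 7000, .R 800 200⟩]
    | .two => [⟨700, 1600, .L 160⟩, ⟨1600, 2000, .F⟩, ⟨2000, 2500, .F⟩, ⟨2500, 4000, .F⟩, ⟨4000, 5100, .F⟩, ⟨5100, 5600, .R 800 290⟩]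
    | .twoE => [⟨700, 1400, .L 140⟩, ⟨1400, 2000, .F⟩, ⟨2000, 2500, .F⟩, ⟨2500, 3500, .F⟩, ⟨3500, 3700, .R 700 350⟩]
    | .thrR => [⟨700, 1300, .L 130⟩, ⟨1300, 2000, .F⟩, ⟨2000, 2500, .F⟩, ⟨2500, 4000, .F⟩, ⟨4000, 5000, .F⟩, ⟨5000, 6500, .R 650 150⟩]
    | .thrL => [⟨700, 1500, .L 150⟩, ⟨1500, 2000, .F⟩, ⟨2000, 2500, .F⟩, ⟨2500, 3600, .F⟩, ⟨3600, 3900, .R 650 290⟩]
    | .threeE => [⟨700, 1400, .L 140⟩, ⟨1400, 2000, .F⟩, ⟨2000, 2500, .F⟩, ⟨2500, 3500, .F⟩, ⟨3500, 5300, .R 600 250⟩, ⟨5300, 6000, .R 600 250⟩]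
    | .ring => [⟨700, 1600, .L 160⟩, ⟨1600, 2000, .F⟩, ⟨2000, 2400, .F⟩, ⟨2400, 3600, .F⟩, ⟨3600, 5300, .R 650 290⟩, ⟨5300, 6500, .R 650 290⟩]
  pp := pp1
  pw := pw1
  k0 := k01
  kind := fun P Q => (decide (Q = .one) && !decide (P = .one))
  mx := false

/-- sums, runs of two digits `1`, flat part -/
def stS2F : Stage where
  own := .F
  XM := 860
  cr := 200
  slp := 9500
  scp := 20000
  slq := 0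
  scq := 20000
  bins := fun
    | .one => [⟨700, 850, .L 150⟩, ⟨850, 1500, .L 150⟩, ⟨1500, 2000, .F⟩, ⟨2000, 2500, .F⟩, ⟨2500, 4000, .F⟩, ⟨4000, 5300, .F⟩, ⟨5300, 6000, .F⟩, ⟨6000, 7000, .R 800 200⟩]
    | .two => [⟨700, 1600, .L 160⟩, ⟨1600, 2000, .F⟩, ⟨2000, 2500, .F⟩, ⟨2500, 4000, .F⟩, ⟨4000, 5100, .F⟩, ⟨5100, 5600, .R 800 290⟩]
    | .twoE => [⟨700, 1400, .L 140⟩, ⟨1400, 2000, .F⟩, ⟨2000, 2500, .F⟩, ⟨2500, 3500, .F⟩, ⟨3500, 3700, .R 700 350⟩]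
    | .thrR => [⟨700, 1300, .L 130⟩, ⟨1300, 2000, .F⟩, ⟨2000, 2500, .F⟩, ⟨2500, 4000, .F⟩, ⟨4000, 5000, .F⟩, ⟨5000, 6500, .R 650 150⟩]
    | .thrL => [⟨700, 1500, .L 150⟩, ⟨1500, 2000, .F⟩, ⟨2000, 2500, .F⟩, ⟨2500, 3600, .F⟩, ⟨3600, 3900, .R 650 290⟩]
    | .threeE => [⟨700, 1400, .L 140⟩, ⟨1400, 2000, .F⟩, ⟨2000, 2500, .F⟩, ⟨2500, 3500, .F⟩, ⟨3500, 5300, .R 600 250⟩, ⟨5300, 6000, .R 600 250⟩]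
    | .ring => [⟨700, 1600, .L 160⟩, ⟨1600, 2000, .F⟩, ⟨2000, 2400, .F⟩, ⟨2400, 3600, .F⟩, ⟨3600, 5300, .R 650 290⟩, ⟨5300, 6500, .R 650 290⟩]
  pp := pp1
  pw := pw1
  k0 := k01
  kind := fun P Q => !(decide (P = .one) || decide (Q = .one)) && !(decide (P = .thrR) && decide (Q = .thrR)) && !(decide (P = .thrL) && decide (Q = .thrL))

/-- sums, runs of three or more digits `1`, ramp -/
def stS3R : Stage where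
  own := .R 800 200
  XM := 800
  cr := 200
  slp := 9500
  scp := 20000
  slq := 0
  scq := 20000
  bins := fun
    | .one => [⟨700, 850, .L 150⟩, ⟨850, 1500, .L 150⟩, ⟨1500, 2000, .F⟩, ⟨2000, 2500, .F⟩, ⟨2500, 4000, .F⟩, ⟨4000, 5300, .F⟩, ⟨5300, 6000, .F⟩, ⟨6000, 7000, .R 800 200⟩]
    | .two => [⟨700, 1600, .L 160⟩, ⟨1600, 2000, .F⟩, ⟨2000, 2500, .F⟩, ⟨2500, 4000, .F⟩, ⟨4000, 5100, .F⟩, ⟨5100, 5600, .R 800 290⟩]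
    | .twoE => [⟨700, 1400, .L 140⟩, ⟨1400, 2000, .F⟩, ⟨2000, 2500, .F⟩, ⟨2500, 3500, .F⟩, ⟨3500, 3700, .R 700 350⟩]
    | .thrR => [⟨700, 1300, .L 130⟩, ⟨1300, 2000, .F⟩, ⟨2000, 2500, .F⟩, ⟨2500, 4000, .F⟩, ⟨4000, 5000, .F⟩, ⟨5000, 6500, .R 650 150⟩]
    | .thrL => [⟨700, 1500, .L 150⟩, ⟨1500, 2000, .F⟩, ⟨2000, 2500, .F⟩, ⟨2500, 3600, .F⟩, ⟨3600, 3900, .R 650 290⟩]
    | .threeE => [⟨700, 1400, .L 140⟩, ⟨1400, 2000, .F⟩, ⟨2000, 2500, .F⟩, ⟨2500, 3500, .F⟩, ⟨3500, 5300, .R 600 250⟩, ⟨5300, 6000, .R 600 250⟩]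
    | .ring => [⟨700, 1600, .L 160⟩, ⟨1600, 2000, .F⟩, ⟨2000, 2400, .F⟩, ⟨2400, 3600, .F⟩, ⟨3600, 5300, .R 650 290⟩, ⟨5300, 6500, .R 650 290⟩]
  pp := pp1
  pw := pw1
  k0 := k01
  kind := fun P Q => (decide (P = .one) || decide (Q = .one)) && !(decide (P = .ring) && decide (Q = .one))

/-- sums, runs of three or more digits `1`, ramp, ring -/
def stS3Z : Stage where
  own := .R 800 200
  XM := 800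
  cr := 200
  slp := 9500
  scp := 20000
  slq := 0
  scq := 20000
  bins := fun
    | .one => [⟨700, 850, .L 150⟩, ⟨850, 1500, .L 150⟩, ⟨1500, 2000, .F⟩, ⟨2000, 2500, .F⟩, ⟨2500, 4000, .F⟩, ⟨4000, 5300, .F⟩, ⟨5300, 6000, .F⟩, ⟨6000, 7000, .R 800 200⟩]
    | .two => [⟨700, 1600, .L 160⟩, ⟨1600, 2000, .F⟩, ⟨2000, 2500, .F⟩, ⟨2500, 4000, .F⟩, ⟨4000, 5100, .F⟩, ⟨5100, 5600, .R 800 290⟩]
    | .twoE => [⟨700, 1400, .L 140⟩, ⟨1400, 2000, .F⟩, ⟨2000, 2500, .F⟩, ⟨2500, 3500, .F⟩, ⟨3500, 3700, .R 700 350⟩]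
    | .thrR => [⟨700, 1300, .L 130⟩, ⟨1300, 2000, .F⟩, ⟨2000, 2500, .F⟩, ⟨2500, 4000, .F⟩, ⟨4000, 5000, .F⟩, ⟨5000, 6500, .R 650 150⟩]
    | .thrL => [⟨700, 1500, .L 150⟩, ⟨1500, 2000, .F⟩, ⟨2000, 2500, .F⟩, ⟨2500, 3600, .F⟩, ⟨3600, 3900, .R 650 290⟩]
    | .threeE => [⟨700, 1400, .L 140⟩, ⟨1400, 2000, .F⟩, ⟨2000, 2500, .F⟩, ⟨2500, 3500, .F⟩, ⟨3500, 5300, .R 600 250⟩, ⟨5300, 6000, .R 600 250⟩]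
    | .ring => [⟨700, 1600, .L 160⟩, ⟨1600, 2000, .F⟩, ⟨2000, 2400, .F⟩, ⟨2400, 3600, .F⟩, ⟨3600, 5300, .R 650 290⟩, ⟨5300, 6500, .R 650 290⟩]
  pp := pp1
  pw := pw1
  k0 := k01
  kind := fun P Q => (decide (P = .ring) && decide (Q = .one))

/-- sums, runs of two digits `1`, ramp -/
def stS2R : Stage where
  own := .R 860 200
  XM := 860
  cr := 200
  slp := 9500
  scp := 20000
  slq := 0
  scq := 20000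
  bins := fun
    | .one => [⟨700, 850, .L 150⟩, ⟨850, 1500, .L 150⟩, ⟨1500, 2000, .F⟩, ⟨2000, 2500, .F⟩, ⟨2500, 4000, .F⟩, ⟨4000, 5300, .F⟩, ⟨5300, 6000, .F⟩, ⟨6000, 7000, .R 800 200⟩]
    | .two => [⟨700, 1600, .L 160⟩, ⟨1600, 2000, .F⟩, ⟨2000, 2500, .F⟩, ⟨2500, 4000, .F⟩, ⟨4000, 5100, .F⟩, ⟨5100, 5600, .R 800 290⟩]
    | .twoE => [⟨700, 1400, .L 140⟩, ⟨1400, 2000, .F⟩, ⟨2000, 2500, .F⟩, ⟨2500, 3500, .F⟩, ⟨3500, 3700, .R 700 350⟩]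
    | .thrR => [⟨700, 1300, .L 130⟩, ⟨1300, 2000, .F⟩, ⟨2000, 2500, .F⟩, ⟨2500, 4000, .F⟩, ⟨4000, 5000, .F⟩, ⟨5000, 6500, .R 650 150⟩]
    | .thrL => [⟨700, 1500, .L 150⟩, ⟨1500, 2000, .F⟩, ⟨2000, 2500, .F⟩, ⟨2500, 3600, .F⟩, ⟨3600, 3900, .R 650 290⟩]
    | .threeE => [⟨700, 1400, .L 140⟩, ⟨1400, 2000, .F⟩, ⟨2000, 2500, .F⟩, ⟨2500, 3500, .F⟩, ⟨3500, 5300, .R 600 250⟩, ⟨5300, 6000, .R 600 250⟩]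
    | .ring => [⟨700, 1600, .L 160⟩, ⟨1600, 2000, .F⟩, ⟨2000, 2400, .F⟩, ⟨2400, 3600, .F⟩, ⟨3600, 5300, .R 650 290⟩, ⟨5300, 6500, .R 650 290⟩]
  pp := pp1
  pw := pw1
  k0 := k01
  kind := fun P Q => !(decide (P = .one) || decide (Q = .one)) && !(decide (P = .thrR) && decide (Q = .thrR)) && !(decide (P = .thrL) && decide (Q = .thrL))

end OR

end Pool.Agent.Work.MP_b30479_gt.G2
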