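import Pool.Agent.Work.MP_b30479_gt.G2.OS2f_14d
import Pool.Agent.Work.MP_b30479_gt.G2.ORows
import Pool.Agent.Work.MP_b30479_gt.G2.OStS

namespace Pool.Agent.Work.MP_b30479_gt.G2

namespace OR

set_option linter.defProp false

def s2f_14_r0_one0 : rowsOk stS2F s2f_14 s2f_14_m0 false .one = true := by decide +kernel

def s2f_14_r0_one1 : rowsOk stS2F s2f_14 s2f_14_m0 true .one = true := by decide +kernel

def s2f_14_r0_two0 : rowsOk stS2F s2f_14 s2f_14_m0 false .two = true := by decide +kernel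

def s2f_14_r0_two1 : rowsOk stS2F s2f_14 s2f_14_m0 true .two = true := by decide +kernel

def s2f_14_r0_twoE0 : rowsOk stS2F s2f_14 s2f_14_m0 false .twoE = true := by decide +kernel

def s2f_14_r0_twoE1 : rowsOk stS2F s2f_14 s2f_14_m0 true .twoE = true := by decide +kernel

def s2f_14_r0_thrR0 : rowsOk stS2F s2f_14 s2f_14_m0 false .thrR = true := by decide +kernel

def s2f_14_r0_thrR1 : rowsOk stS2F s2f_14 s2f_14_m0 true .thrR = true := by decide +kernel

def s2f_14_r0_thrL0 : rowsOk stS2F s2f_14 s2f_14_m0 false .thrL = true := by decide +kernel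

def s2f_14_r0_thrL1 : rowsOk stS2F s2f_14 s2f_14_m0 true .thrL = true := by decide +kernel

def s2f_14_r0_threeE0 : rowsOk stS2F s2f_14 s2f_14_m0 false .threeE = true := by decide +kernel

def s2f_14_r0_threeE1 : rowsOk stS2F s2f_14 s2f_14_m0 true .threeE = true := by decide +kernel

def s2f_14_r0_ring0 : rowsOk stS2F s2f_14 s2f_14_m0 false .ring = true := by decide +kernel

def s2f_14_r0_ring1_0 : cellOk stS2F s2f_14 s2f_14_m0 true .ring ((stS2F.bins .ring).getD 0 b00)
    ((s2f_14_m0.g true .ring).getD 0 e00) = true := by decide +kernel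

def s2f_14_r0_ring1_1 : cellOk stS2F s2f_14 s2f_14_m0 true .ring ((stS2F.bins .ring).getD 1 b00)
    ((s2f_14_m0.g true .ring).getD 1 e00) = true := by decide +kernel

def s2f_14_r0_ring1_2 : cellOk stS2F s2f_14 s2f_14_m0 true .ring ((stS2F.bins .ring).getD 2 b00)
    ((s2f_14_m0.g true .ring).getD 2 e00) = true := by decide +kernel

def s2f_14_r0_ring1_3 : cellOk stS2F s2f_14 s2f_14_m0 true .ring ((stS2F.bins .ring).getD 3 b00)
    ((s2f_14_m0.g true .ring).getD 3 e00) = true := by decide +kernel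

def s2f_14_r0_ring1_4 : cellOk stS2F s2f_14 s2f_14_m0 true .ring ((stS2F.bins .ring).getD 4 b00)
    ((s2f_14_m0.g true .ring).getD 4 e00) = true := by decide +kernel

def s2f_14_r0_ring1_5 : cellOk stS2F s2f_14 s2f_14_m0 true .ring ((stS2F.bins .ring).getD 5 b00)
    ((s2f_14_m0.g true .ring).getD 5 e00) = true := by decide +kernel

theorem s2f_14_r0_ring1 : rowsOk stS2F s2f_14 s2f_14_m0 true .ring = true := by
  refine rowsOk_of fun i hi => ?_
  have hi : i < 6 := hi
  interval_cases i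
  exacts [s2f_14_r0_ring1_0, s2f_14_r0_ring1_1, s2f_14_r0_ring1_2, s2f_14_r0_ring1_3, s2f_14_r0_ring1_4, s2f_14_r0_ring1_5]

def s2f_14_r1_one0 : rowsOk stS2F s2f_14 s2f_14_m1 false .one = true := by decide +kernel

def s2f_14_r1_one1 : rowsOk stS2F s2f_14 s2f_14_m1 true .one = true := by decide +kernel

def s2f_14_r1_two0_0 : cellOk stS2F s2f_14 s2f_14_m1 false .two ((stS2F.bins .two).getD 0 b00)
    ((s2f_14_m1.g false .two).getD 0 e00) = true := by decide +kernel

def s2f_14_r1_two0_1 : cellOk stS2F s2f_14 s2f_14_m1 false .two ((stS2F.bins .two).getD 1 b00)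
    ((s2f_14_m1.g false .two).getD 1 e00) = true := by decide +kernel

def s2f_14_r1_two0_2 : cellOk stS2F s2f_14 s2f_14_m1 false .two ((stS2F.bins .two).getD 2 b00)
    ((s2f_14_m1.g false .two).getD 2 e00) = true := by decide +kernel

def s2f_14_r1_two0_3 : cellOk stS2F s2f_14 s2f_14_m1 false .two ((stS2F.bins .two).getD 3 b00)
    ((s2f_14_m1.g false .two).getD 3 e00) = true := by decide +kernel

def s2f_14_r1_two0_4 : cellOk stS2F s2f_14 s2f_14_m1 false .two ((stS2F.bins .two).getD 4 b00)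
    ((s2f_14_m1.g false .two).getD 4 e00) = true := by decide +kernel

def s2f_14_r1_two0_5 : cellOk stS2F s2f_14 s2f_14_m1 false .two ((stS2F.bins .two).getD 5 b00)
    ((s2f_14_m1.g false .two).getD 5 e00) = true := by decide +kernel

theorem s2f_14_r1_two0 : rowsOk stS2F s2f_14 s2f_14_m1 false .two = true := by
  refine rowsOk_of fun i hi => ?_
  have hi : i < 6 := hi
  interval_cases i
  exacts [s2f_14_r1_two0_0, s2f_14_r1_two0_1, s2f_14_r1_two0_2, s2f_14_r1_two0_3, s2f_14_r1_two0_4, s2f_14_r1_two0_5]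

def s2f_14_r1_two1_0 : cellOk stS2F s2f_14 s2f_14_m1 true .two ((stS2F.bins .two).getD 0 b00)
    ((s2f_14_m1.g true .two).getD 0 e00) = true := by decide +kernel

def s2f_14_r1_two1_1 : cellOk stS2F s2f_14 s2f_14_m1 true .two ((stS2F.bins .two).getD 1 b00)
    ((s2f_14_m1.g true .two).getD 1 e00) = true := by decide +kernel

def s2f_14_r1_two1_2 : cellOk stS2F s2f_14 s2f_14_m1 true .two ((stS2F.bins .two).getD 2 b00)
    ((s2f_14_m1.g true .two).getD 2 e00) = true := by decide +kernel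

def s2f_14_r1_two1_3 : cellOk stS2F s2f_14 s2f_14_m1 true .two ((stS2F.bins .two).getD 3 b00)
    ((s2f_14_m1.g true .two).getD 3 e00) = true := by decide +kernel

def s2f_14_r1_two1_4 : cellOk stS2F s2f_14 s2f_14_m1 true .two ((stS2F.bins .two).getD 4 b00)
    ((s2f_14_m1.g true .two).getD 4 e00) = true := by decide +kernel

def s2f_14_r1_two1_5 : cellOk stS2F s2f_14 s2f_14_m1 true .two ((stS2F.bins .two).getD 5 b00)
    ((s2f_14_m1.g true .two).getD 5 e00) = true := by decide +kernel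

theorem s2f_14_r1_two1 : rowsOk stS2F s2f_14 s2f_14_m1 true .two = true := by
  refine rowsOk_of fun i hi => ?_
  have hi : i < 6 := hi
  interval_cases i
  exacts [s2f_14_r1_two1_0, s2f_14_r1_two1_1, s2f_14_r1_two1_2, s2f_14_r1_two1_3, s2f_14_r1_two1_4, s2f_14_r1_two1_5]

def s2f_14_r1_twoE0 : rowsOk stS2F s2f_14 s2f_14_m1 false .twoE = true := by decide +kernel

def s2f_14_r1_twoE1 : rowsOk stS2F s2f_14 s2f_14_m1 true .twoE = true := by decide +kernel

def s2f_14_r1_thrR0_0 : cellOk stS2F s2f_14 s2f_14_m1 false .thrR ((stS2F.bins .thrR).getD 0 b00)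
    ((s2f_14_m1.g false .thrR).getD 0 e00) = true := by decide +kernel

def s2f_14_r1_thrR0_1 : cellOk stS2F s2f_14 s2f_14_m1 false .thrR ((stS2F.bins .thrR).getD 1 b00)
    ((s2f_14_m1.g false .thrR).getD 1 e00) = true := by decide +kernel

def s2f_14_r1_thrR0_2 : cellOk stS2F s2f_14 s2f_14_m1 false .thrR ((stS2F.bins .thrR).getD 2 b00)
    ((s2f_14_m1.g false .thrR).getD 2 e00) = true := by decide +kernel

def s2f_14_r1_thrR0_3 : cellOk stS2F s2f_14 s2f_14_m1 false .thrR ((stS2F.bins .thrR).getD 3 b00)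
    ((s2f_14_m1.g false .thrR).getD 3 e00) = true := by decide +kernel

def s2f_14_r1_thrR0_4 : cellOk stS2F s2f_14 s2f_14_m1 false .thrR ((stS2F.bins .thrR).getD 4 b00)
    ((s2f_14_m1.g false .thrR).getD 4 e00) = true := by decide +kernel

def s2f_14_r1_thrR0_5 : cellOk stS2F s2f_14 s2f_14_m1 false .thrR ((stS2F.bins .thrR).getD 5 b00)
    ((s2f_14_m1.g false .thrR).getD 5 e00) = true := by decide +kernel

theorem s2f_14_r1_thrR0 : rowsOk stS2F s2f_14 s2f_14_m1 false .thrR = true := by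
  refine rowsOk_of fun i hi => ?_
  have hi : i < 6 := hi
  interval_cases i
  exacts [s2f_14_r1_thrR0_0, s2f_14_r1_thrR0_1, s2f_14_r1_thrR0_2, s2f_14_r1_thrR0_3, s2f_14_r1_thrR0_4, s2f_14_r1_thrR0_5]

end OR

end Pool.Agent.Work.MP_b30479_gt.G2
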