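import Pool.Agent.Work.MP_b30479_gt.G2.OStS
import Pool.Agent.Work.MP_b30479_gt.G2.ORows

namespace Pool.Agent.Work.MP_b30479_gt.G2

namespace OR

/-- windows -/
def s2f_2_wp : PC → Win
  | .one => ⟨0, 0, 0, 0, 0, 0⟩
  | .two => ⟨-230, 780, -360, 760, -660, 530⟩
  | .twoE => ⟨-790, -140, -520, 270, -160, 820⟩
  | .thrR => ⟨100, 920, -70, 910, -630, 480⟩
  | .thrL => ⟨100, 920, -70, 910, -630, 480⟩
  | .threeE => ⟨-20, 610, 0, 860, -380, 650⟩
  | .ring => ⟨270, 1300, 110, 1120, -820, 440⟩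

/-- windows -/
def s2f_2_wq : PC → Win
  | .one => ⟨0, 0, 0, 0, 0, 0⟩
  | .two => ⟨-230, 780, -360, 760, -660, 530⟩
  | .twoE => ⟨-790, -140, -520, 270, -160, 820⟩
  | .thrR => ⟨100, 920, -70, 910, -630, 480⟩
  | .thrL => ⟨100, 920, -70, 910, -630, 480⟩
  | .threeE => ⟨-20, 610, 0, 860, -380, 650⟩
  | .ring => ⟨270, 1300, 110, 1120, -820, 440⟩

/-- mode -/
def s2f_2_m0 : Mode where
  md := .D
  lam := 0
  ct := 0
  gp := fun
    | .one => [e00, e00, e00, e00, e00, e00, e00, e00]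
    | .two => [e00, e00, e00, e00, e00, e00]
    | .twoE => [e00, e00, e00, e00, e00]
    | .thrR => [e00, e00, e00, e00, e00, ⟨-4781, [673913363083257523960450032290]⟩]
    | .thrL => [e00, e00, e00, e00, e00]
    | .threeE => [e00, e00, e00, e00, e00, e00]
    | .ring => [e00, e00, e00, e00, e00, ⟨-4944, [674524430415135366579595387554]⟩]
  gq := fun
    | .one => [e00, e00, e00, e00, e00, e00, e00, e00]
    | .two => [⟨4940, [36532553777]⟩, ⟨4940, [557953]⟩, ⟨4777, [36644749697]⟩, ⟨4777, [9352434100242]⟩, ⟨4777, [2178]⟩, ⟨4777, [2177]⟩]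
    | .twoE => [⟨4777, [8]⟩, ⟨4777, [8]⟩, ⟨4777, [8]⟩, ⟨4777, [8]⟩, ⟨4777, [8]⟩]
    | .thrR => [e00, e00, e00, ⟨4940, [2633652131136724488204878354]⟩, ⟨4940, [2178]⟩, ⟨4940, [40168366615942629853218]⟩]
    | .thrL => [e00, e00, e00, ⟨4940, [40167909219103598449283]⟩, ⟨4777, [8]⟩]
    | .threeE => [⟨4777, [8]⟩, ⟨4777, [8]⟩, ⟨4777, [8]⟩, ⟨4777, [2177]⟩, ⟨4777, [2178]⟩, ⟨4777, [8]⟩]
    | .ring => [e00, e00, e00, e00, ⟨4940, [48582889405696903714520017534811451468564996386]⟩, ⟨4777, [40167967642751033575442]⟩]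

/-- mode -/
def s2f_2_m1 : Mode where
  md := .V 250 1000
  lam := 250
  ct := 0
  gp := fun
    | .one => [e00, e00, e00, e00, e00, e00, e00, e00]
    | .two => [e00, e00, e00, e00, e00, e00]
    | .twoE => [e00, e00, e00, e00, e00]
    | .thrR => [e00, e00, e00, e00, e00, ⟨-660, [21984746229639437311837618928104538633421548196239171125400233338127539457041615439552947078258896785093590979506612576930]⟩]
    | .thrL => [e00, e00, e00, e00, e00]
    | .threeE => [e00, e00, e00, e00, e00, e00]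
    | .ring => [e00, e00, e00, e00, e00, ⟨-723, [137873892259197935747937828615677382168688590382522723934321518977576786542628096740665503123504500706813441316223279149662773014279491577439517573621185611034704779857976270398114]⟩]
  gq := fun
    | .one => [e00, e00, e00, e00, e00, e00, e00, e00]
    | .two => [⟨369, [142772273]⟩, ⟨369, [2177]⟩, e00, e00, e00, e00]
    | .twoE => [e00, e00, e00, e00, e00]
    | .thrR => [⟨341, [142772273]⟩, ⟨341, [557953]⟩, ⟨341, [2177]⟩, e00, e00, e00]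
    | .thrL => [⟨341, [36566108193]⟩, ⟨341, [2177]⟩, ⟨341, [2177]⟩, ⟨344, [36566108193]⟩, e00]
    | .threeE => [e00, e00, e00, e00, e00, e00]
    | .ring => [⟨279, [256766259570595380975608101494879117339296545]⟩, ⟨279, [13940786161208036768843793]⟩, ⟨279, [3568841257294896415326308369]⟩, ⟨279, [72386232795462457807633832835451180467811676128316051652897]⟩, ⟨279, [2903296319969230976607976002637599879698]⟩, e00]

/-- piece -/
def s2f_2 : Piece := ⟨3230, 3300, -820, 820, s2f_2_wp, s2f_2_wq, [s2f_2_m0, s2f_2_m1]⟩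

set_option linter.defProp false

def s2f_2_r0_one0 : rowsOk stS2F s2f_2 s2f_2_m0 false .one = true := by decide +kernel

def s2f_2_r0_one1 : rowsOk stS2F s2f_2 s2f_2_m0 true .one = true := by decide +kernel

def s2f_2_r0_two0 : rowsOk stS2F s2f_2 s2f_2_m0 false .two = true := by decide +kernel

def s2f_2_r0_two1 : rowsOk stS2F s2f_2 s2f_2_m0 true .two = true := by decide +kernel

def s2f_2_r0_twoE0 : rowsOk stS2F s2f_2 s2f_2_m0 false .twoE = true := by decide +kernel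

def s2f_2_r0_twoE1 : rowsOk stS2F s2f_2 s2f_2_m0 true .twoE = true := by decide +kernel

def s2f_2_r0_thrR0 : rowsOk stS2F s2f_2 s2f_2_m0 false .thrR = true := by decide +kernel

def s2f_2_r0_thrR1 : rowsOk stS2F s2f_2 s2f_2_m0 true .thrR = true := by decide +kernel

def s2f_2_r0_thrL0 : rowsOk stS2F s2f_2 s2f_2_m0 false .thrL = true := by decide +kernel

def s2f_2_r0_thrL1 : rowsOk stS2F s2f_2 s2f_2_m0 true .thrL = true := by decide +kernel

def s2f_2_r0_threeE0 : rowsOk stS2F s2f_2 s2f_2_m0 false .threeE = true := by decide +kernel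

def s2f_2_r0_threeE1 : rowsOk stS2F s2f_2 s2f_2_m0 true .threeE = true := by decide +kernel

def s2f_2_r0_ring0 : rowsOk stS2F s2f_2 s2f_2_m0 false .ring = true := by decide +kernel

def s2f_2_r0_ring1 : rowsOk stS2F s2f_2 s2f_2_m0 true .ring = true := by decide +kernel

def s2f_2_r1_one0 : rowsOk stS2F s2f_2 s2f_2_m1 false .one = true := by decide +kernel

def s2f_2_r1_one1 : rowsOk stS2F s2f_2 s2f_2_m1 true .one = true := by decide +kernel

def s2f_2_r1_two0 : rowsOk stS2F s2f_2 s2f_2_m1 false .two = true := by decide +kernel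

def s2f_2_r1_two1 : rowsOk stS2F s2f_2 s2f_2_m1 true .two = true := by decide +kernel

def s2f_2_r1_twoE0 : rowsOk stS2F s2f_2 s2f_2_m1 false .twoE = true := by decide +kernel

def s2f_2_r1_twoE1 : rowsOk stS2F s2f_2 s2f_2_m1 true .twoE = true := by decide +kernel

def s2f_2_r1_thrR0 : rowsOk stS2F s2f_2 s2f_2_m1 false .thrR = true := by decide +kernel

def s2f_2_r1_thrR1 : rowsOk stS2F s2f_2 s2f_2_m1 true .thrR = true := by decide +kernel

def s2f_2_r1_thrL0 : rowsOk stS2F s2f_2 s2f_2_m1 false .thrL = true := by decide +kernel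

def s2f_2_r1_thrL1 : rowsOk stS2F s2f_2 s2f_2_m1 true .thrL = true := by decide +kernel

def s2f_2_r1_threeE0 : rowsOk stS2F s2f_2 s2f_2_m1 false .threeE = true := by decide +kernel

def s2f_2_r1_threeE1 : rowsOk stS2F s2f_2 s2f_2_m1 true .threeE = true := by decide +kernel

def s2f_2_r1_ring0 : rowsOk stS2F s2f_2 s2f_2_m1 false .ring = true := by decide +kernel

def s2f_2_r1_ring1 : rowsOk stS2F s2f_2 s2f_2_m1 true .ring = true := by decide +kernel

theorem s2f_2_r0 : allRows stS2F s2f_2 s2f_2_m0 = true := by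
  refine allRows_of fun P => ?_
  cases P
  exacts [⟨s2f_2_r0_one0, s2f_2_r0_one1⟩,
    ⟨s2f_2_r0_two0, s2f_2_r0_two1⟩,
    ⟨s2f_2_r0_twoE0, s2f_2_r0_twoE1⟩,
    ⟨s2f_2_r0_thrR0, s2f_2_r0_thrR1⟩,
    ⟨s2f_2_r0_thrL0, s2f_2_r0_thrL1⟩,
    ⟨s2f_2_r0_threeE0, s2f_2_r0_threeE1⟩,
    ⟨s2f_2_r0_ring0, s2f_2_r0_ring1⟩]

theorem s2f_2_r1 : allRows stS2F s2f_2 s2f_2_m1 = true := by
  refine allRows_of fun P => ?_
  cases P
  exacts [⟨s2f_2_r1_one0, s2f_2_r1_one1⟩,
    ⟨s2f_2_r1_two0, s2f_2_r1_two1⟩,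
    ⟨s2f_2_r1_twoE0, s2f_2_r1_twoE1⟩,
    ⟨s2f_2_r1_thrR0, s2f_2_r1_thrR1⟩,
    ⟨s2f_2_r1_thrL0, s2f_2_r1_thrL1⟩,
    ⟨s2f_2_r1_threeE0, s2f_2_r1_threeE1⟩,
    ⟨s2f_2_r1_ring0, s2f_2_r1_ring1⟩]

theorem s2f_2_ok : s2f_2.ok stS2F = true := by
  have h : (PC.all.all fun P => PC.all.all fun Q => pairOk stS2F s2f_2 P Q) = true := by decide +kernel
  have d0 : mdOk stS2F s2f_2_m0.md = true := by decide +kernel
  have d1 : mdOk stS2F s2f_2_m1.md = true := by decide +kernel
  unfold Piece.ok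
  rw [h, Bool.true_and]
  show List.all [s2f_2_m0, s2f_2_m1] _ = true
  rw [List.all_eq_true]
  intro m hm
  simp only [List.mem_cons, List.not_mem_nil, or_false] at hm
  rcases hm with rfl | rfl
  · rw [s2f_2_r0, d0]; rfl
  · rw [s2f_2_r1, d1]; rfl

end OR

end Pool.Agent.Work.MP_b30479_gt.G2
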