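import Pool.Agent.Work.MP_b30479_gt.G2.OStS
import Pool.Agent.Work.MP_b30479_gt.G2.ORows

namespace Pool.Agent.Work.MP_b30479_gt.G2

namespace OR

/-- windows -/
def s2f_3_wp : PC → Win
  | .one => ⟨0, 0, 0, 0, 0, 0⟩
  | .two => ⟨-230, 780, -360, 760, -660, 530⟩
  | .twoE => ⟨-790, -140, -520, 270, -160, 820⟩
  | .thrR => ⟨100, 920, -70, 910, -630, 480⟩
  | .thrL => ⟨100, 920, -70, 910, -630, 480⟩
  | .threeE => ⟨-20, 610, 0, 860, -380, 650⟩
  | .ring => ⟨270, 1300, 110, 1120, -820, 440⟩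

/-- windows -/
def s2f_3_wq : PC → Win
  | .one => ⟨0, 0, 0, 0, 0, 0⟩
  | .two => ⟨-230, 780, -360, 760, -660, 530⟩
  | .twoE => ⟨-790, -140, -520, 270, -160, 820⟩
  | .thrR => ⟨100, 920, -70, 910, -630, 480⟩
  | .thrL => ⟨100, 920, -70, 910, -630, 480⟩
  | .threeE => ⟨-20, 610, 0, 860, -380, 650⟩
  | .ring => ⟨270, 1300, 110, 1120, -820, 440⟩

/-- mode -/
def s2f_3_m0 : Mode where
  md := .D
  lam := 0
  ct := 0
  gp := fun
    | .one => [e00, e00, e00, e00, e00, e00, e00, e00]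
    | .two => [e00, e00, e00, e00, e00, e00]
    | .twoE => [e00, e00, e00, e00, e00]
    | .thrR => [e00, e00, e00, e00, e00, ⟨-4772, [9352317010705, 8, 0]⟩]
    | .thrL => [e00, e00, e00, e00, e00]
    | .threeE => [e00, e00, e00, e00, e00, e00]
    | .ring => [e00, e00, e00, e00, e00, ⟨-5031, [36566042641, 2177, 0]⟩]
  gq := fun
    | .one => [e00, e00, e00, e00, e00, e00, e00, e00]
    | .two => [⟨4768, [36566040962]⟩, ⟨4768, [142836097]⟩, ⟨4768, [143135361]⟩, ⟨4768, [36532922386]⟩, ⟨4768, [557442]⟩, ⟨4768, [2178]⟩]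
    | .twoE => [⟨4768, [8]⟩, ⟨4768, [8]⟩, ⟨4768, [8]⟩, ⟨4768, [8]⟩, ⟨4768, [8]⟩]
    | .thrR => [⟨5027, [829651352908105777]⟩, ⟨5027, [54464095337301009467425]⟩, ⟨5027, [12679305724801]⟩, ⟨5027, [40289024524021672739602]⟩, ⟨5027, [2178]⟩, ⟨5027, [2394197442332706, 8, 0]⟩]
    | .thrL => [⟨5027, [829651377335730562]⟩, ⟨5027, [830941074141971329]⟩, ⟨5027, [12679305724801]⟩, ⟨4768, [10282984760090521210262147]⟩, ⟨4768, [8]⟩]
    | .threeE => [⟨4768, [8]⟩, ⟨4768, [8]⟩, ⟨4768, [8]⟩, ⟨4768, [2177]⟩, ⟨4768, [2178]⟩, ⟨4768, [2178]⟩]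
    | .ring => [e00, e00, e00, e00, ⟨4768, [48582889405698018986015746479674422535653499170]⟩, ⟨4768, [2394221222987794, 8, 0]⟩]

/-- mode -/
def s2f_3_m1 : Mode where
  md := .V 250 1000
  lam := 250
  ct := 0
  gp := fun
    | .one => [e00, e00, e00, e00, e00, e00, e00, e00]
    | .two => [e00, e00, e00, e00, e00, e00]
    | .twoE => [e00, e00, e00, e00, e00]
    | .thrR => [e00, e00, e00, e00, e00, ⟨-727, [335152790287262694223443194438854067170877749963360017127176003369801185391285709978854879938738531865893868068348178, 9381039577105, 0, 0, 0, 0]⟩]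
    | .thrL => [e00, e00, e00, e00, e00]
    | .threeE => [e00, e00, e00, e00, e00, e00]
    | .ring => [e00, e00, e00, e00, e00, ⟨-790, [6201037304256045870397029924410400903631832022176749143449634566768682356324285346914170200489434014262609645589103274326256737247768850, 2394221760250641, 0, 0, 0, 0]⟩]
  gq := fun
    | .one => [e00, e00, e00, e00, e00, e00, e00, e00]
    | .two => [e00, e00, e00, e00, e00, e00]
    | .twoE => [e00, e00, e00, e00, e00]
    | .thrR => [e00, e00, e00, e00, e00, e00]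
    | .thrL => [⟨411, [36566108209]⟩, ⟨411, [2177]⟩, ⟨411, [2177]⟩, e00, e00]
    | .threeE => [e00, e00, e00, e00, e00, e00]
    | .ring => [⟨346, [1122515214140883131600961277052120747526893223550681889]⟩, ⟨346, [17128232485510427979169695718583671317565777917969]⟩, ⟨346, [4384827516290669593308459204431820221885974596565009]⟩, ⟨346, [87509585811729609940775883407582004998781733102438118965362574855109046099733872929]⟩, e00, e00]

/-- piece -/
def s2f_3 : Piece := ⟨3300, 3450, -820, 820, s2f_3_wp, s2f_3_wq, [s2f_3_m0, s2f_3_m1]⟩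

set_option linter.defProp false

def s2f_3_r0_one0 : rowsOk stS2F s2f_3 s2f_3_m0 false .one = true := by decide +kernel

def s2f_3_r0_one1 : rowsOk stS2F s2f_3 s2f_3_m0 true .one = true := by decide +kernel

def s2f_3_r0_two0 : rowsOk stS2F s2f_3 s2f_3_m0 false .two = true := by decide +kernel

def s2f_3_r0_two1 : rowsOk stS2F s2f_3 s2f_3_m0 true .two = true := by decide +kernel

def s2f_3_r0_twoE0 : rowsOk stS2F s2f_3 s2f_3_m0 false .twoE = true := by decide +kernel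

def s2f_3_r0_twoE1 : rowsOk stS2F s2f_3 s2f_3_m0 true .twoE = true := by decide +kernel

def s2f_3_r0_thrR0 : rowsOk stS2F s2f_3 s2f_3_m0 false .thrR = true := by decide +kernel

def s2f_3_r0_thrR1 : rowsOk stS2F s2f_3 s2f_3_m0 true .thrR = true := by decide +kernel

def s2f_3_r0_thrL0 : rowsOk stS2F s2f_3 s2f_3_m0 false .thrL = true := by decide +kernel

def s2f_3_r0_thrL1 : rowsOk stS2F s2f_3 s2f_3_m0 true .thrL = true := by decide +kernel

def s2f_3_r0_threeE0 : rowsOk stS2F s2f_3 s2f_3_m0 false .threeE = true := by decide +kernel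

def s2f_3_r0_threeE1 : rowsOk stS2F s2f_3 s2f_3_m0 true .threeE = true := by decide +kernel

def s2f_3_r0_ring0 : rowsOk stS2F s2f_3 s2f_3_m0 false .ring = true := by decide +kernel

def s2f_3_r0_ring1 : rowsOk stS2F s2f_3 s2f_3_m0 true .ring = true := by decide +kernel

def s2f_3_r1_one0 : rowsOk stS2F s2f_3 s2f_3_m1 false .one = true := by decide +kernel

def s2f_3_r1_one1 : rowsOk stS2F s2f_3 s2f_3_m1 true .one = true := by decide +kernel

def s2f_3_r1_two0 : rowsOk stS2F s2f_3 s2f_3_m1 false .two = true := by decide +kernel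

def s2f_3_r1_two1 : rowsOk stS2F s2f_3 s2f_3_m1 true .two = true := by decide +kernel

def s2f_3_r1_twoE0 : rowsOk stS2F s2f_3 s2f_3_m1 false .twoE = true := by decide +kernel

def s2f_3_r1_twoE1 : rowsOk stS2F s2f_3 s2f_3_m1 true .twoE = true := by decide +kernel

def s2f_3_r1_thrR0 : rowsOk stS2F s2f_3 s2f_3_m1 false .thrR = true := by decide +kernel

def s2f_3_r1_thrR1 : rowsOk stS2F s2f_3 s2f_3_m1 true .thrR = true := by decide +kernel

def s2f_3_r1_thrL0 : rowsOk stS2F s2f_3 s2f_3_m1 false .thrL = true := by decide +kernel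

def s2f_3_r1_thrL1 : rowsOk stS2F s2f_3 s2f_3_m1 true .thrL = true := by decide +kernel

def s2f_3_r1_threeE0 : rowsOk stS2F s2f_3 s2f_3_m1 false .threeE = true := by decide +kernel

def s2f_3_r1_threeE1 : rowsOk stS2F s2f_3 s2f_3_m1 true .threeE = true := by decide +kernel

def s2f_3_r1_ring0 : rowsOk stS2F s2f_3 s2f_3_m1 false .ring = true := by decide +kernel

def s2f_3_r1_ring1 : rowsOk stS2F s2f_3 s2f_3_m1 true .ring = true := by decide +kernel

theorem s2f_3_r0 : allRows stS2F s2f_3 s2f_3_m0 = true := by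
  refine allRows_of fun P => ?_
  cases P
  exacts [⟨s2f_3_r0_one0, s2f_3_r0_one1⟩,
    ⟨s2f_3_r0_two0, s2f_3_r0_two1⟩,
    ⟨s2f_3_r0_twoE0, s2f_3_r0_twoE1⟩,
    ⟨s2f_3_r0_thrR0, s2f_3_r0_thrR1⟩,
    ⟨s2f_3_r0_thrL0, s2f_3_r0_thrL1⟩,
    ⟨s2f_3_r0_threeE0, s2f_3_r0_threeE1⟩,
    ⟨s2f_3_r0_ring0, s2f_3_r0_ring1⟩]

theorem s2f_3_r1 : allRows stS2F s2f_3 s2f_3_m1 = true := by
  refine allRows_of fun P => ?_
  cases P
  exacts [⟨s2f_3_r1_one0, s2f_3_r1_one1⟩,
    ⟨s2f_3_r1_two0, s2f_3_r1_two1⟩,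
    ⟨s2f_3_r1_twoE0, s2f_3_r1_twoE1⟩,
    ⟨s2f_3_r1_thrR0, s2f_3_r1_thrR1⟩,
    ⟨s2f_3_r1_thrL0, s2f_3_r1_thrL1⟩,
    ⟨s2f_3_r1_threeE0, s2f_3_r1_threeE1⟩,
    ⟨s2f_3_r1_ring0, s2f_3_r1_ring1⟩]

theorem s2f_3_ok : s2f_3.ok stS2F = true := by
  have h : (PC.all.all fun P => PC.all.all fun Q => pairOk stS2F s2f_3 P Q) = true := by decide +kernel
  have d0 : mdOk stS2F s2f_3_m0.md = true := by decide +kernel
  have d1 : mdOk stS2F s2f_3_m1.md = true := by decide +kernel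
  unfold Piece.ok
  rw [h, Bool.true_and]
  show List.all [s2f_3_m0, s2f_3_m1] _ = true
  rw [List.all_eq_true]
  intro m hm
  simp only [List.mem_cons, List.not_mem_nil, or_false] at hm
  rcases hm with rfl | rfl
  · rw [s2f_3_r0, d0]; rfl
  · rw [s2f_3_r1, d1]; rfl

end OR

end Pool.Agent.Work.MP_b30479_gt.G2
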