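import Pool.Agent.Work.MP_b30479_gt.G2.OStS
import Pool.Agent.Work.MP_b30479_gt.G2.ORows

namespace Pool.Agent.Work.MP_b30479_gt.G2

namespace OR

/-- windows -/
def s2f_4_wp : PC → Win
  | .one => ⟨0, 0, 0, 0, 0, 0⟩
  | .two => ⟨-230, 780, -360, 760, -660, 530⟩
  | .twoE => ⟨-790, -140, -520, 270, -160, 820⟩
  | .thrR => ⟨100, 920, -70, 910, -630, 480⟩
  | .thrL => ⟨100, 920, -70, 910, -630, 480⟩
  | .threeE => ⟨-20, 610, 0, 860, -380, 650⟩
  | .ring => ⟨270, 1300, 110, 1120, -820, 440⟩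

/-- windows -/
def s2f_4_wq : PC → Win
  | .one => ⟨0, 0, 0, 0, 0, 0⟩
  | .two => ⟨-230, 780, -360, 760, -660, 530⟩
  | .twoE => ⟨-790, -140, -520, 270, -160, 820⟩
  | .thrR => ⟨100, 920, -70, 910, -630, 480⟩
  | .thrL => ⟨100, 920, -70, 910, -630, 480⟩
  | .threeE => ⟨-20, 610, 0, 860, -380, 650⟩
  | .ring => ⟨270, 1300, 110, 1120, -820, 440⟩

/-- mode -/
def s2f_4_m0 : Mode where
  md := .D
  lam := 500
  ct := 0
  gp := fun
    | .one => [e00, e00, e00, e00, e00, e00, e00, e00]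
    | .two => [e00, e00, e00, e00, e00, e00]
    | .twoE => [e00, e00, e00, e00, e00]
    | .thrR => [e00, e00, e00, e00, e00, ⟨-5084, [613477495173841681, 8, 0]⟩]
    | .thrL => [e00, e00, e00, e00, e00]
    | .threeE => [e00, e00, e00, e00, e00, ⟨-8902, [9352426660514]⟩]
    | .ring => [e00, e00, e00, e00, e00, ⟨-5280, [9360906945297, 2177, 0]⟩]
  gq := fun
    | .one => [e00, e00, e00, e00, e00, e00, e00, e00]
    | .two => [⟨4505, [557697]⟩, ⟨4505, [2177]⟩, ⟨4505, [2177]⟩, ⟨4505, [142706706]⟩, ⟨4505, [557442]⟩, ⟨4505, [557442]⟩]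
    | .twoE => [⟨4860, [8]⟩, ⟨4860, [8]⟩, ⟨4860, [8]⟩, ⟨4860, [8]⟩, ⟨4860, [8]⟩]
    | .thrR => [⟨4521, [36549264001]⟩, ⟨4521, [10292549363861348629885313]⟩, ⟨4521, [143135361]⟩, ⟨4521, [36532922386]⟩, ⟨4521, [2178]⟩, ⟨4521, [157049957293814351906, 8, 0]⟩]
    | .thrL => [⟨4455, [212390745249241270305]⟩, ⟨4455, [12659475362177]⟩, ⟨4455, [9382408651137]⟩, ⟨4455, [36532918290]⟩, ⟨4455, [8]⟩]
    | .threeE => [⟨4560, [8]⟩, ⟨4560, [8]⟩, ⟨4560, [8]⟩, ⟨4560, [8]⟩, ⟨4560, [2178]⟩, ⟨4560, [557442]⟩]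
    | .ring => [⟨8278, [8]⟩, ⟨8278, [8]⟩, ⟨8278, [8]⟩, ⟨8278, [2177]⟩, ⟨4325, [40186815383279601090850]⟩, ⟨4325, [2394221759858706, 8, 0]⟩]

/-- mode -/
def s2f_4_m1 : Mode where
  md := .V 300 1000
  lam := 0
  ct := 0
  gp := fun
    | .one => [e00, e00, e00, e00, e00, e00, e00, e00]
    | .two => [e00, e00, e00, e00, e00, e00]
    | .twoE => [e00, e00, e00, e00, e00]
    | .thrR => [e00, e00, e00, e00, e00, ⟨-404, [35403690854730475511613529310404448197965636788070747715798449118785598679909349019455646061427661441102206051271890690592684511979012229123095167619945207730420049833493393470333202, 613483583131648785, 557953, 559121, 36532916689, 614760625890427153]⟩]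
    | .thrL => [e00, e00, e00, e00, e00]
    | .threeE => [e00, e00, e00, e00, e00, e00]
    | .ring => [e00, e00, e00, e00, e00, ⟨-404, [104042096540413705009893369250510071622452280219420215557610147096590427089512382346283701110779006857171674396304839358881846766348284165493010, 612920633178226961, 557441, 143163665, 36532916689, 2401408692826129]⟩]
  gq := fun
    | .one => [e00, e00, e00, e00, e00, e00, e00, e00]
    | .two => [e00, e00, e00, e00, e00, e00]
    | .twoE => [e00, e00, e00, e00, e00]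
    | .thrR => [e00, e00, e00, e00, e00, e00]
    | .thrL => [e00, e00, e00, e00, e00]
    | .threeE => [e00, e00, e00, e00, e00, e00]
    | .ring => [⟨400, [59783053511663785790656760806643745]⟩, ⟨400, [216188563969024735249]⟩, ⟨400, [212725295855576823825]⟩, ⟨400, [1002993085411972729562952813577273266481201]⟩, e00, e00]

/-- piece -/
def s2f_4 : Piece := ⟨3450, 3600, -820, 820, s2f_4_wp, s2f_4_wq, [s2f_4_m0, s2f_4_m1]⟩

set_option linter.defProp false

def s2f_4_r0_one0 : rowsOk stS2F s2f_4 s2f_4_m0 false .one = true := by decide +kernel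

def s2f_4_r0_one1 : rowsOk stS2F s2f_4 s2f_4_m0 true .one = true := by decide +kernel

def s2f_4_r0_two0 : rowsOk stS2F s2f_4 s2f_4_m0 false .two = true := by decide +kernel

def s2f_4_r0_two1 : rowsOk stS2F s2f_4 s2f_4_m0 true .two = true := by decide +kernel

def s2f_4_r0_twoE0 : rowsOk stS2F s2f_4 s2f_4_m0 false .twoE = true := by decide +kernel

def s2f_4_r0_twoE1 : rowsOk stS2F s2f_4 s2f_4_m0 true .twoE = true := by decide +kernel

def s2f_4_r0_thrR0 : rowsOk stS2F s2f_4 s2f_4_m0 false .thrR = true := by decide +kernel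

def s2f_4_r0_thrR1 : rowsOk stS2F s2f_4 s2f_4_m0 true .thrR = true := by decide +kernel

def s2f_4_r0_thrL0 : rowsOk stS2F s2f_4 s2f_4_m0 false .thrL = true := by decide +kernel

def s2f_4_r0_thrL1 : rowsOk stS2F s2f_4 s2f_4_m0 true .thrL = true := by decide +kernel

def s2f_4_r0_threeE0 : rowsOk stS2F s2f_4 s2f_4_m0 false .threeE = true := by decide +kernel

def s2f_4_r0_threeE1 : rowsOk stS2F s2f_4 s2f_4_m0 true .threeE = true := by decide +kernel

def s2f_4_r0_ring0 : rowsOk stS2F s2f_4 s2f_4_m0 false .ring = true := by decide +kernel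

def s2f_4_r0_ring1 : rowsOk stS2F s2f_4 s2f_4_m0 true .ring = true := by decide +kernel

def s2f_4_r1_one0 : rowsOk stS2F s2f_4 s2f_4_m1 false .one = true := by decide +kernel

def s2f_4_r1_one1 : rowsOk stS2F s2f_4 s2f_4_m1 true .one = true := by decide +kernel

def s2f_4_r1_two0 : rowsOk stS2F s2f_4 s2f_4_m1 false .two = true := by decide +kernel

def s2f_4_r1_two1 : rowsOk stS2F s2f_4 s2f_4_m1 true .two = true := by decide +kernel

def s2f_4_r1_twoE0 : rowsOk stS2F s2f_4 s2f_4_m1 false .twoE = true := by decide +kernel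

def s2f_4_r1_twoE1 : rowsOk stS2F s2f_4 s2f_4_m1 true .twoE = true := by decide +kernel

def s2f_4_r1_thrR0 : rowsOk stS2F s2f_4 s2f_4_m1 false .thrR = true := by decide +kernel

def s2f_4_r1_thrR1 : rowsOk stS2F s2f_4 s2f_4_m1 true .thrR = true := by decide +kernel

def s2f_4_r1_thrL0 : rowsOk stS2F s2f_4 s2f_4_m1 false .thrL = true := by decide +kernel

def s2f_4_r1_thrL1 : rowsOk stS2F s2f_4 s2f_4_m1 true .thrL = true := by decide +kernel

def s2f_4_r1_threeE0 : rowsOk stS2F s2f_4 s2f_4_m1 false .threeE = true := by decide +kernel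

def s2f_4_r1_threeE1 : rowsOk stS2F s2f_4 s2f_4_m1 true .threeE = true := by decide +kernel

def s2f_4_r1_ring0 : rowsOk stS2F s2f_4 s2f_4_m1 false .ring = true := by decide +kernel

def s2f_4_r1_ring1 : rowsOk stS2F s2f_4 s2f_4_m1 true .ring = true := by decide +kernel

theorem s2f_4_r0 : allRows stS2F s2f_4 s2f_4_m0 = true := by
  refine allRows_of fun P => ?_
  cases P
  exacts [⟨s2f_4_r0_one0, s2f_4_r0_one1⟩,
    ⟨s2f_4_r0_two0, s2f_4_r0_two1⟩,
    ⟨s2f_4_r0_twoE0, s2f_4_r0_twoE1⟩,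
    ⟨s2f_4_r0_thrR0, s2f_4_r0_thrR1⟩,
    ⟨s2f_4_r0_thrL0, s2f_4_r0_thrL1⟩,
    ⟨s2f_4_r0_threeE0, s2f_4_r0_threeE1⟩,
    ⟨s2f_4_r0_ring0, s2f_4_r0_ring1⟩]

theorem s2f_4_r1 : allRows stS2F s2f_4 s2f_4_m1 = true := by
  refine allRows_of fun P => ?_
  cases P
  exacts [⟨s2f_4_r1_one0, s2f_4_r1_one1⟩,
    ⟨s2f_4_r1_two0, s2f_4_r1_two1⟩,
    ⟨s2f_4_r1_twoE0, s2f_4_r1_twoE1⟩,
    ⟨s2f_4_r1_thrR0, s2f_4_r1_thrR1⟩,
    ⟨s2f_4_r1_thrL0, s2f_4_r1_thrL1⟩,
    ⟨s2f_4_r1_threeE0, s2f_4_r1_threeE1⟩,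
    ⟨s2f_4_r1_ring0, s2f_4_r1_ring1⟩]

theorem s2f_4_ok : s2f_4.ok stS2F = true := by
  have h : (PC.all.all fun P => PC.all.all fun Q => pairOk stS2F s2f_4 P Q) = true := by decide +kernel
  have d0 : mdOk stS2F s2f_4_m0.md = true := by decide +kernel
  have d1 : mdOk stS2F s2f_4_m1.md = true := by decide +kernel
  unfold Piece.ok
  rw [h, Bool.true_and]
  show List.all [s2f_4_m0, s2f_4_m1] _ = true
  rw [List.all_eq_true]
  intro m hm
  simp only [List.mem_cons, List.not_mem_nil, or_false] at hm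
  rcases hm with rfl | rfl
  · rw [s2f_4_r0, d0]; rfl
  · rw [s2f_4_r1, d1]; rfl

end OR

end Pool.Agent.Work.MP_b30479_gt.G2
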