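import Pool.Agent.Work.MP_b30479_gt.G2.OStS
import Pool.Agent.Work.MP_b30479_gt.G2.ORows
import Pool.Agent.Work.MP_b30479_gt.G2.ORowS

namespace Pool.Agent.Work.MP_b30479_gt.G2

open NumU

namespace OR

/-- windows -/
def s2f_5_wp : PC → Win
  | .one => ⟨0, 0, 0, 0, 0, 0⟩
  | .two => ⟨-230, 780, -360, 760, -660, 530⟩
  | .twoE => ⟨-790, -140, -520, 270, -160, 820⟩
  | .thrR => ⟨100, 920, -70, 910, -630, 480⟩
  | .thrL => ⟨100, 920, -70, 910, -630, 480⟩
  | .threeE => ⟨-20, 610, 0, 860, -380, 650⟩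
  | .ring => ⟨270, 1300, 110, 1120, -820, 440⟩

/-- windows -/
def s2f_5_wq : PC → Win
  | .one => ⟨0, 0, 0, 0, 0, 0⟩
  | .two => ⟨-230, 780, -360, 760, -660, 530⟩
  | .twoE => ⟨-790, -140, -520, 270, -160, 820⟩
  | .thrR => ⟨100, 920, -70, 910, -630, 480⟩
  | .thrL => ⟨100, 920, -70, 910, -630, 480⟩
  | .threeE => ⟨-20, 610, 0, 860, -380, 650⟩
  | .ring => ⟨270, 1300, 110, 1120, -820, 440⟩

/-- mode -/
def s2f_5_m0 : Mode where
  md := .D
  lam := 1000
  ct := 0
  gp := fun
    | .one => [e00, e00, e00, e00, e00, e00, e00, e00]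
    | .two => [e00, e00, e00, e00, e00, ⟨-5902, [59742117321884841027333496437252770]⟩]
    | .twoE => [e00, e00, e00, e00, e00]
    | .thrR => [e00, e00, e00, e00, e00, ⟨-5737, [49489359269657448886303650696672017, 157379283500294222354, 142706705]⟩]
    | .thrL => [e00, e00, e00, e00, e00]
    | .threeE => [e00, e00, e00, e00, e00, ⟨-5742, [13709781880063021920900334799885955388597801040656325536717346]⟩]
    | .ring => [e00, e00, e00, e00, e00, ⟨-5780, [2634892516477174495270416657, 559123, 142837777]⟩]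
  gq := fun
    | .one => [e00, e00, e00, e00, e00, e00, e00, e00]
    | .two => [⟨4376, [2177]⟩, ⟨4376, [8]⟩, ⟨4376, [8]⟩, ⟨4376, [142706706]⟩, ⟨4376, [142836098]⟩, ⟨4376, [612915645268899858]⟩]
    | .twoE => [⟨5106, [8]⟩, ⟨5106, [8]⟩, ⟨5106, [8]⟩, ⟨5106, [8]⟩, ⟨5106, [8]⟩]
    | .thrR => [⟨4266, [2177]⟩, ⟨4266, [557953]⟩, ⟨4266, [2177]⟩, ⟨4266, [142706706]⟩, ⟨4266, [557442]⟩, ⟨4266, [44205633110372233912572684839452962, 8, 2177]⟩]
    | .thrL => [⟨4266, [557697]⟩, ⟨4266, [2177]⟩, ⟨4266, [2177]⟩, ⟨4266, [559122]⟩, ⟨4266, [8]⟩]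
    | .threeE => [⟨4536, [8]⟩, ⟨4536, [8]⟩, ⟨4536, [8]⟩, ⟨4536, [8]⟩, ⟨4536, [557698]⟩, ⟨4536, [11340331922619551032482151211059021842]⟩]
    | .ring => [⟨4498, [15580626980729695039306835644226474370]⟩, ⟨4498, [1021028832290162167113530057407221681301521]⟩, ⟨4223, [2397938413295387202605363871386126353934696748315728323913657520573339191202985455593865788466473848113451681081684550530948341993610687935595871211907]⟩, ⟨4016, [6305713358490715665020868052780555495651605007966797235277064555486662222201850005252410170744013106]⟩, ⟨4016, [40168366897443378463010]⟩, ⟨4016, [612920633177835538, 8, 2177]⟩]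

/-- mode -/
def s2f_5_m1 : Mode where
  md := .V 300 1000
  lam := 250
  ct := 0
  gp := fun
    | .one => [e00, e00, e00, e00, e00, e00, e00, e00]
    | .two => [e00, e00, e00, e00, e00, e00]
    | .twoE => [e00, e00, e00, e00, e00]
    | .thrR => [e00, e00, e00, e00, e00, ⟨-616, [1530519444883082173481334552663516902214970994353237218490888529917570523304017081421127491446920394304592591623302684874083892713862932783585420143399121895742818668603636863589771407839370388008182932324469848921693451062724233658347952610778881935546594651477320687623013215366800037511747351594193955991826, 3185389639693276444886908334364571490921570227466513, 557953, 143164177, 258507253640111020448416020949903045654308106570384615687884359284043073457754402, 18222689754194490120814189760551234783963499000672475892305503236301260307477627530208063838556450]⟩]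
    | .thrL => [e00, e00, e00, e00, e00]
    | .threeE => [e00, e00, e00, e00, e00, e00]
    | .ring => [e00, e00, e00, e00, e00, ⟨-679, [13217831274507095468333066947800364433875734487668052261746954564360687668509356040121172930319703335010225444892132838207593928774221914396672956958622083184496761979376108301096707026364353138542748379219262849535207008107615170834, 44300706912618582179436166648107025, 557953, 9382498865169, 189864015286541430171274639863516454601174290, 16577277367840032448278750782408723255715365808886098337409913661418725432401044111634]⟩]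
  gq := fun
    | .one => [e00, e00, e00, e00, e00, e00, e00, e00]
    | .two => [e00, e00, e00, e00, e00, e00]
    | .twoE => [e00, e00, e00, e00, e00]
    | .thrR => [e00, e00, e00, e00, e00, e00]
    | .thrL => [e00, e00, e00, e00, e00]
    | .threeE => [e00, e00, e00, e00, e00, e00]
    | .ring => [⟨235, [73565157073936916876202880426309255450150596332693153678098]⟩, ⟨235, [15578036696306338623245224067973265425]⟩, ⟨235, [59883854321530185391543373372340241]⟩, e00, e00, e00]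

/-- piece -/
def s2f_5 : Piece := ⟨3600, 3900, -820, 820, s2f_5_wp, s2f_5_wq, [s2f_5_m0, s2f_5_m1]⟩

set_option linter.defProp false

def s2f_5_r0_one0 : rowsOk stS2F s2f_5 s2f_5_m0 false .one = true := by decide +kernel

def s2f_5_r0_one1 : rowsOk stS2F s2f_5 s2f_5_m0 true .one = true := by decide +kernel

def s2f_5_r0_two0 : rowsOk stS2F s2f_5 s2f_5_m0 false .two = true := by decide +kernel

def s2f_5_r0_two1 : rowsOk stS2F s2f_5 s2f_5_m0 true .two = true := by decide +kernel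

def s2f_5_r0_twoE0 : rowsOk stS2F s2f_5 s2f_5_m0 false .twoE = true := by decide +kernel

def s2f_5_r0_twoE1 : rowsOk stS2F s2f_5 s2f_5_m0 true .twoE = true := by decide +kernel

def s2f_5_r0_thrR0 : rowsOk stS2F s2f_5 s2f_5_m0 false .thrR = true := by decide +kernel

def s2f_5_r0_thrR1 : rowsOk stS2F s2f_5 s2f_5_m0 true .thrR = true := by decide +kernel

def s2f_5_r0_thrL0 : rowsOk stS2F s2f_5 s2f_5_m0 false .thrL = true := by decide +kernel

def s2f_5_r0_thrL1 : rowsOk stS2F s2f_5 s2f_5_m0 true .thrL = true := by decide +kernel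

def s2f_5_r0_threeE0 : rowsOk stS2F s2f_5 s2f_5_m0 false .threeE = true := by decide +kernel

def s2f_5_r0_threeE1 : rowsOk stS2F s2f_5 s2f_5_m0 true .threeE = true := by decide +kernel

def s2f_5_r0_ring0 : rowsOk stS2F s2f_5 s2f_5_m0 false .ring = true := by decide +kernel

def s2f_5_r0_ring1_0 : cellOk stS2F s2f_5 s2f_5_m0 true .ring ((stS2F.bins .ring).getD 0 b00)
    ((s2f_5_m0.g true .ring).getD 0 e00) = true := by decide +kernel

def s2f_5_r0_ring1_1 : cellOk stS2F s2f_5 s2f_5_m0 true .ring ((stS2F.bins .ring).getD 1 b00)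
    ((s2f_5_m0.g true .ring).getD 1 e00) = true := by decide +kernel

def s2f_5_r0_ring1_2 : cellOk stS2F s2f_5 s2f_5_m0 true .ring ((stS2F.bins .ring).getD 2 b00)
    ((s2f_5_m0.g true .ring).getD 2 e00) = true := by decide +kernel

def s2f_5_r0_ring1_3 : cellOk stS2F s2f_5 s2f_5_m0 true .ring ((stS2F.bins .ring).getD 3 b00)
    ((s2f_5_m0.g true .ring).getD 3 e00) = true := by decide +kernel

def s2f_5_r0_ring1_4 : cellOk stS2F s2f_5 s2f_5_m0 true .ring ((stS2F.bins .ring).getD 4 b00)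
    ((s2f_5_m0.g true .ring).getD 4 e00) = true := by decide +kernel

def s2f_5_r0_ring1_5 : cellOk stS2F s2f_5 s2f_5_m0 true .ring ((stS2F.bins .ring).getD 5 b00)
    ((s2f_5_m0.g true .ring).getD 5 e00) = true := by decide +kernel

theorem s2f_5_r0_ring1 : rowsOk stS2F s2f_5 s2f_5_m0 true .ring = true := by
  refine rowsOk_of fun i hi => ?_
  have hi : i < 6 := hi
  interval_cases i
  exacts [s2f_5_r0_ring1_0, s2f_5_r0_ring1_1, s2f_5_r0_ring1_2, s2f_5_r0_ring1_3, s2f_5_r0_ring1_4, s2f_5_r0_ring1_5]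

def s2f_5_r1_one0 : rowsOk stS2F s2f_5 s2f_5_m1 false .one = true := by decide +kernel

def s2f_5_r1_one1 : rowsOk stS2F s2f_5 s2f_5_m1 true .one = true := by decide +kernel

def s2f_5_r1_two0 : rowsOk stS2F s2f_5 s2f_5_m1 false .two = true := by decide +kernel

def s2f_5_r1_two1 : rowsOk stS2F s2f_5 s2f_5_m1 true .two = true := by decide +kernel

def s2f_5_r1_twoE0 : rowsOk stS2F s2f_5 s2f_5_m1 false .twoE = true := by decide +kernel

def s2f_5_r1_twoE1 : rowsOk stS2F s2f_5 s2f_5_m1 true .twoE = true := by decide +kernel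

def s2f_5_r1_thrR0_0 : cellOk stS2F s2f_5 s2f_5_m1 false .thrR ((stS2F.bins .thrR).getD 0 b00)
    ((s2f_5_m1.g false .thrR).getD 0 e00) = true := by decide +kernel

def s2f_5_r1_thrR0_1 : cellOk stS2F s2f_5 s2f_5_m1 false .thrR ((stS2F.bins .thrR).getD 1 b00)
    ((s2f_5_m1.g false .thrR).getD 1 e00) = true := by decide +kernel

def s2f_5_r1_thrR0_2 : cellOk stS2F s2f_5 s2f_5_m1 false .thrR ((stS2F.bins .thrR).getD 2 b00)
    ((s2f_5_m1.g false .thrR).getD 2 e00) = true := by decide +kernel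

def s2f_5_r1_thrR0_3 : cellOk stS2F s2f_5 s2f_5_m1 false .thrR ((stS2F.bins .thrR).getD 3 b00)
    ((s2f_5_m1.g false .thrR).getD 3 e00) = true := by decide +kernel

def s2f_5_r1_thrR0_4 : cellOk stS2F s2f_5 s2f_5_m1 false .thrR ((stS2F.bins .thrR).getD 4 b00)
    ((s2f_5_m1.g false .thrR).getD 4 e00) = true := by decide +kernel

/-- check -/
def s2f_5_r1_thrR0_5_x0 : Ck := (cks stS2F s2f_5 s2f_5_m1 false .thrR
    ((stS2F.bins .thrR).getD 5 b00)
    ((s2f_5_m1.g false .thrR).getD 5 e00).g).getD 0 ckd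

theorem s2f_5_r1_thrR0_5_k0_q1 : runT s2f_5_r1_thrR0_5_x0.2.1 39
    95657465305192635842583409541469806388435687147077326155680533119848157706501067588820468215432524644037036976456417804630243294616433298974088758962445118483926166787727303974360712989960649250511433270279365557605840691420264603646747038173680120971662165717332542976438325960425002344484209474637122249489
    (NumI.setL 2 (s2f_5_r1_thrR0_5_x0.2.2)) =
    32130750034209067197932609458510595383520798493052108722673986731849118501746309691536385539743509518484063570366769845670043215267832238704342164803080858731916446216467 := by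
  decide +kernel

theorem s2f_5_r1_thrR0_5_k0_q2 : runT s2f_5_r1_thrR0_5_x0.2.1 39
    32130750034209067197932609458510595383520798493052108722673986731849118501746309691536385539743509518484063570366769845670043215267832238704342164803080858731916446216466
    (NumI.setR 2 (s2f_5_r1_thrR0_5_x0.2.2)) =
    1 := by
  decide +kernel

theorem s2f_5_r1_thrR0_5_k0_c : chkT s2f_5_r1_thrR0_5_x0.2.1 40
    1530519444883082173481334552663516902214970994353237218490888529917570523304017081421127491446920394304592591623302684874083892713862932783585420143399121895742818668603636863589771407839370388008182932324469848921693451062724233658347952610778881935546594651477320687623013215366800037511747351594193955991826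
    s2f_5_r1_thrR0_5_x0.2.2 = true :=
  chkT_of (runT_split rfl rfl rfl
        s2f_5_r1_thrR0_5_k0_q1
        s2f_5_r1_thrR0_5_k0_q2)

theorem s2f_5_r1_thrR0_5_k0 : ck1 s2f_5_r1_thrR0_5_x0 (((s2f_5_m1.g false .thrR).getD 5 e00).c.getD 0 0) = true :=
  ck1_of (by decide +kernel) s2f_5_r1_thrR0_5_k0_c

/-- check -/
def s2f_5_r1_thrR0_5_x1 : Ck := (cks stS2F s2f_5 s2f_5_m1 false .thrR
    ((stS2F.bins .thrR).getD 5 b00)
    ((s2f_5_m1.g false .thrR).getD 5 e00).g).getD 1 ckd

theorem s2f_5_r1_thrR0_5_k1 : ck1 s2f_5_r1_thrR0_5_x1 (((s2f_5_m1.g false .thrR).getD 5 e00).c.getD 1 0) = true := by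
  decide +kernel

/-- check -/
def s2f_5_r1_thrR0_5_x2 : Ck := (cks stS2F s2f_5 s2f_5_m1 false .thrR
    ((stS2F.bins .thrR).getD 5 b00)
    ((s2f_5_m1.g false .thrR).getD 5 e00).g).getD 2 ckd

theorem s2f_5_r1_thrR0_5_k2 : ck1 s2f_5_r1_thrR0_5_x2 (((s2f_5_m1.g false .thrR).getD 5 e00).c.getD 2 0) = true := by
  decide +kernel

/-- check -/
def s2f_5_r1_thrR0_5_x3 : Ck := (cks stS2F s2f_5 s2f_5_m1 false .thrR
    ((stS2F.bins .thrR).getD 5 b00)
    ((s2f_5_m1.g false .thrR).getD 5 e00).g).getD 3 ckd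

theorem s2f_5_r1_thrR0_5_k3 : ck1 s2f_5_r1_thrR0_5_x3 (((s2f_5_m1.g false .thrR).getD 5 e00).c.getD 3 0) = true := by
  decide +kernel

/-- check -/
def s2f_5_r1_thrR0_5_x4 : Ck := (cks stS2F s2f_5 s2f_5_m1 false .thrR
    ((stS2F.bins .thrR).getD 5 b00)
    ((s2f_5_m1.g false .thrR).getD 5 e00).g).getD 4 ckd

theorem s2f_5_r1_thrR0_5_k4 : ck1 s2f_5_r1_thrR0_5_x4 (((s2f_5_m1.g false .thrR).getD 5 e00).c.getD 4 0) = true := by
  decide +kernel

/-- check -/
def s2f_5_r1_thrR0_5_x5 : Ck := (cks stS2F s2f_5 s2f_5_m1 false .thrR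
    ((stS2F.bins .thrR).getD 5 b00)
    ((s2f_5_m1.g false .thrR).getD 5 e00).g).getD 5 ckd

theorem s2f_5_r1_thrR0_5_k5 : ck1 s2f_5_r1_thrR0_5_x5 (((s2f_5_m1.g false .thrR).getD 5 e00).c.getD 5 0) = true := by
  decide +kernel

def s2f_5_r1_thrR0_5 : cellOk stS2F s2f_5 s2f_5_m1 false .thrR ((stS2F.bins .thrR).getD 5 b00)
    ((s2f_5_m1.g false .thrR).getD 5 e00) = true :=
  cellOk_of 6 (by decide +kernel) (by decide +kernel) fun k hk => by
    interval_cases k
    exacts [s2f_5_r1_thrR0_5_k0, s2f_5_r1_thrR0_5_k1, s2f_5_r1_thrR0_5_k2, s2f_5_r1_thrR0_5_k3, s2f_5_r1_thrR0_5_k4, s2f_5_r1_thrR0_5_k5]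

theorem s2f_5_r1_thrR0 : rowsOk stS2F s2f_5 s2f_5_m1 false .thrR = true := by
  refine rowsOk_of fun i hi => ?_
  have hi : i < 6 := hi
  interval_cases i
  exacts [s2f_5_r1_thrR0_0, s2f_5_r1_thrR0_1, s2f_5_r1_thrR0_2, s2f_5_r1_thrR0_3, s2f_5_r1_thrR0_4, s2f_5_r1_thrR0_5]

def s2f_5_r1_thrR1 : rowsOk stS2F s2f_5 s2f_5_m1 true .thrR = true := by decide +kernel

def s2f_5_r1_thrL0 : rowsOk stS2F s2f_5 s2f_5_m1 false .thrL = true := by decide +kernel

def s2f_5_r1_thrL1 : rowsOk stS2F s2f_5 s2f_5_m1 true .thrL = true := by decide +kernel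

def s2f_5_r1_threeE0 : rowsOk stS2F s2f_5 s2f_5_m1 false .threeE = true := by decide +kernel

def s2f_5_r1_threeE1 : rowsOk stS2F s2f_5 s2f_5_m1 true .threeE = true := by decide +kernel

def s2f_5_r1_ring0_0 : cellOk stS2F s2f_5 s2f_5_m1 false .ring ((stS2F.bins .ring).getD 0 b00)
    ((s2f_5_m1.g false .ring).getD 0 e00) = true := by decide +kernel

def s2f_5_r1_ring0_1 : cellOk stS2F s2f_5 s2f_5_m1 false .ring ((stS2F.bins .ring).getD 1 b00)
    ((s2f_5_m1.g false .ring).getD 1 e00) = true := by decide +kernel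

def s2f_5_r1_ring0_2 : cellOk stS2F s2f_5 s2f_5_m1 false .ring ((stS2F.bins .ring).getD 2 b00)
    ((s2f_5_m1.g false .ring).getD 2 e00) = true := by decide +kernel

def s2f_5_r1_ring0_3 : cellOk stS2F s2f_5 s2f_5_m1 false .ring ((stS2F.bins .ring).getD 3 b00)
    ((s2f_5_m1.g false .ring).getD 3 e00) = true := by decide +kernel

def s2f_5_r1_ring0_4 : cellOk stS2F s2f_5 s2f_5_m1 false .ring ((stS2F.bins .ring).getD 4 b00)
    ((s2f_5_m1.g false .ring).getD 4 e00) = true := by decide +kernel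

/-- check -/
def s2f_5_r1_ring0_5_x0 : Ck := (cks stS2F s2f_5 s2f_5_m1 false .ring
    ((stS2F.bins .ring).getD 5 b00)
    ((s2f_5_m1.g false .ring).getD 5 e00).g).getD 0 ckd

theorem s2f_5_r1_ring0_5_k0 : ck1 s2f_5_r1_ring0_5_x0 (((s2f_5_m1.g false .ring).getD 5 e00).c.getD 0 0) = true := by
  decide +kernel

/-- check -/
def s2f_5_r1_ring0_5_x1 : Ck := (cks stS2F s2f_5 s2f_5_m1 false .ring
    ((stS2F.bins .ring).getD 5 b00)
    ((s2f_5_m1.g false .ring).getD 5 e00).g).getD 1 ckd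

theorem s2f_5_r1_ring0_5_k1 : ck1 s2f_5_r1_ring0_5_x1 (((s2f_5_m1.g false .ring).getD 5 e00).c.getD 1 0) = true := by
  decide +kernel

/-- check -/
def s2f_5_r1_ring0_5_x2 : Ck := (cks stS2F s2f_5 s2f_5_m1 false .ring
    ((stS2F.bins .ring).getD 5 b00)
    ((s2f_5_m1.g false .ring).getD 5 e00).g).getD 2 ckd

theorem s2f_5_r1_ring0_5_k2 : ck1 s2f_5_r1_ring0_5_x2 (((s2f_5_m1.g false .ring).getD 5 e00).c.getD 2 0) = true := by
  decide +kernel

/-- check -/
def s2f_5_r1_ring0_5_x3 : Ck := (cks stS2F s2f_5 s2f_5_m1 false .ring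
    ((stS2F.bins .ring).getD 5 b00)
    ((s2f_5_m1.g false .ring).getD 5 e00).g).getD 3 ckd

theorem s2f_5_r1_ring0_5_k3 : ck1 s2f_5_r1_ring0_5_x3 (((s2f_5_m1.g false .ring).getD 5 e00).c.getD 3 0) = true := by
  decide +kernel

/-- check -/
def s2f_5_r1_ring0_5_x4 : Ck := (cks stS2F s2f_5 s2f_5_m1 false .ring
    ((stS2F.bins .ring).getD 5 b00)
    ((s2f_5_m1.g false .ring).getD 5 e00).g).getD 4 ckd

theorem s2f_5_r1_ring0_5_k4 : ck1 s2f_5_r1_ring0_5_x4 (((s2f_5_m1.g false .ring).getD 5 e00).c.getD 4 0) = true := by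
  decide +kernel

/-- check -/
def s2f_5_r1_ring0_5_x5 : Ck := (cks stS2F s2f_5 s2f_5_m1 false .ring
    ((stS2F.bins .ring).getD 5 b00)
    ((s2f_5_m1.g false .ring).getD 5 e00).g).getD 5 ckd

theorem s2f_5_r1_ring0_5_k5 : ck1 s2f_5_r1_ring0_5_x5 (((s2f_5_m1.g false .ring).getD 5 e00).c.getD 5 0) = true := by
  decide +kernel

def s2f_5_r1_ring0_5 : cellOk stS2F s2f_5 s2f_5_m1 false .ring ((stS2F.bins .ring).getD 5 b00)
    ((s2f_5_m1.g false .ring).getD 5 e00) = true :=
  cellOk_of 6 (by decide +kernel) (by decide +kernel) fun k hk => by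
    interval_cases k
    exacts [s2f_5_r1_ring0_5_k0, s2f_5_r1_ring0_5_k1, s2f_5_r1_ring0_5_k2, s2f_5_r1_ring0_5_k3, s2f_5_r1_ring0_5_k4, s2f_5_r1_ring0_5_k5]

theorem s2f_5_r1_ring0 : rowsOk stS2F s2f_5 s2f_5_m1 false .ring = true := by
  refine rowsOk_of fun i hi => ?_
  have hi : i < 6 := hi
  interval_cases i
  exacts [s2f_5_r1_ring0_0, s2f_5_r1_ring0_1, s2f_5_r1_ring0_2, s2f_5_r1_ring0_3, s2f_5_r1_ring0_4, s2f_5_r1_ring0_5]

def s2f_5_r1_ring1 : rowsOk stS2F s2f_5 s2f_5_m1 true .ring = true := by decide +kernel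

theorem s2f_5_r0 : allRows stS2F s2f_5 s2f_5_m0 = true := by
  refine allRows_of fun P => ?_
  cases P
  exacts [⟨s2f_5_r0_one0, s2f_5_r0_one1⟩,
    ⟨s2f_5_r0_two0, s2f_5_r0_two1⟩,
    ⟨s2f_5_r0_twoE0, s2f_5_r0_twoE1⟩,
    ⟨s2f_5_r0_thrR0, s2f_5_r0_thrR1⟩,
    ⟨s2f_5_r0_thrL0, s2f_5_r0_thrL1⟩,
    ⟨s2f_5_r0_threeE0, s2f_5_r0_threeE1⟩,
    ⟨s2f_5_r0_ring0, s2f_5_r0_ring1⟩]

theorem s2f_5_r1 : allRows stS2F s2f_5 s2f_5_m1 = true := by
  refine allRows_of fun P => ?_
  cases P
  exacts [⟨s2f_5_r1_one0, s2f_5_r1_one1⟩,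
    ⟨s2f_5_r1_two0, s2f_5_r1_two1⟩,
    ⟨s2f_5_r1_twoE0, s2f_5_r1_twoE1⟩,
    ⟨s2f_5_r1_thrR0, s2f_5_r1_thrR1⟩,
    ⟨s2f_5_r1_thrL0, s2f_5_r1_thrL1⟩,
    ⟨s2f_5_r1_threeE0, s2f_5_r1_threeE1⟩,
    ⟨s2f_5_r1_ring0, s2f_5_r1_ring1⟩]

theorem s2f_5_ok : s2f_5.ok stS2F = true := by
  have h : (PC.all.all fun P => PC.all.all fun Q => pairOk stS2F s2f_5 P Q) = true := by decide +kernel
  have d0 : mdOk stS2F s2f_5_m0.md = true := by decide +kernel
  have d1 : mdOk stS2F s2f_5_m1.md = true := by decide +kernel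
  unfold Piece.ok
  rw [h, Bool.true_and]
  show List.all [s2f_5_m0, s2f_5_m1] _ = true
  rw [List.all_eq_true]
  intro m hm
  simp only [List.mem_cons, List.not_mem_nil, or_false] at hm
  rcases hm with rfl | rfl
  · rw [s2f_5_r0, d0]; rfl
  · rw [s2f_5_r1, d1]; rfl

end OR

end Pool.Agent.Work.MP_b30479_gt.G2
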