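import Pool.Agent.Work.MP_b30479_gt.G2.OStS
import Pool.Agent.Work.MP_b30479_gt.G2.ORows

namespace Pool.Agent.Work.MP_b30479_gt.G2

namespace OR

/-- windows -/
def s2f_6_wp : PC → Win
  | .one => ⟨0, 0, 0, 0, 0, 0⟩
  | .two => ⟨-230, 780, -360, 760, -660, 530⟩
  | .twoE => ⟨-790, -140, -520, 270, -160, 820⟩
  | .thrR => ⟨100, 920, -70, 910, -630, 480⟩
  | .thrL => ⟨100, 920, -70, 910, -630, 480⟩
  | .threeE => ⟨-20, 610, 0, 860, -380, 650⟩
  | .ring => ⟨270, 1300, 110, 1120, -820, 440⟩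

/-- windows -/
def s2f_6_wq : PC → Win
  | .one => ⟨0, 0, 0, 0, 0, 0⟩
  | .two => ⟨-230, 780, -360, 760, -660, 530⟩
  | .twoE => ⟨-790, -140, -520, 270, -160, 820⟩
  | .thrR => ⟨100, 920, -70, 910, -630, 480⟩
  | .thrL => ⟨100, 920, -70, 910, -630, 480⟩
  | .threeE => ⟨-20, 610, 0, 860, -380, 650⟩
  | .ring => ⟨270, 1300, 110, 1120, -820, 440⟩

/-- mode -/
def s2f_6_m0 : Mode where
  md := .D
  lam := 2000
  ct := 0
  gp := fun
    | .one => [e00, e00, e00, e00, e00, e00, e00, e00]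
    | .two => [e00, e00, e00, e00, e00, ⟨-5586, [56770110656020821437672166400166719065747023762904273905398291374605574569171503593665431275439558281772469524954132053990058671741040776412320789769417204169105331197198703231587183629538118009945015273681587036595129480536413844833078741538]⟩]
    | .twoE => [e00, e00, e00, e00, e00]
    | .thrR => [e00, e00, e00, e00, e00, ⟨-5806, [13930016249546719440189168100506147335522180366881, 2179, 157387727427204550930]⟩]
    | .thrL => [e00, e00, e00, e00, e00]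
    | .threeE => [e00, e00, e00, e00, ⟨-5306, [2394221225091746]⟩, ⟨-5306, [557441, 8, 0]⟩]
    | .ring => [e00, e00, e00, e00, ⟨-6306, [674532493665195561511920247458]⟩, ⟨-6306, [674532493665670978412124582673, 142837809, 2401412988830225]⟩]
  gq := fun
    | .one => [e00, e00, e00, e00, e00, e00, e00, e00]
    | .two => [⟨3442, [8]⟩, ⟨3442, [8]⟩, ⟨3442, [8]⟩, ⟨3442, [557442]⟩, ⟨3442, [2396392170620946]⟩, ⟨3442, [305752242701064841380836936030363578067636991766648815393602713900396154923467940689793627543150589907730]⟩]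
    | .twoE => [⟨4902, [8]⟩, ⟨4902, [8]⟩, ⟨4902, [8]⟩, ⟨4902, [8]⟩, ⟨4902, [8]⟩]
    | .thrR => [⟨3222, [2177]⟩, ⟨3222, [2177]⟩, ⟨3222, [8]⟩, ⟨3222, [142706706]⟩, ⟨3222, [36566042642]⟩, ⟨3222, [11340980958185638581665646890506027794, 8, 143164178]⟩]
    | .thrL => [⟨3222, [2177]⟩, ⟨3222, [2177]⟩, ⟨3222, [8]⟩, ⟨3222, [2178]⟩, ⟨3222, [8]⟩]
    | .threeE => [⟨3682, [8]⟩, ⟨3682, [8]⟩, ⟨3682, [8]⟩, ⟨3682, [8]⟩, ⟨3682, [9360906553362]⟩, ⟨3682, [557442, 8, 0]⟩]
    | .ring => [⟨2782, [15328218372493211759910584112771502466]⟩, ⟨2782, [3924551732812577588793080801708934201633]⟩, ⟨2782, [54464592878847708596273]⟩, ⟨2782, [10314580083074148635018002]⟩, ⟨2782, [2634861056309098845667819810]⟩, ⟨2782, [157051832467861899282, 8, 142706705]⟩]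

/-- piece -/
def s2f_6 : Piece := ⟨3900, 4200, -820, 820, s2f_6_wp, s2f_6_wq, [s2f_6_m0]⟩

set_option linter.defProp false

def s2f_6_r0_one0 : rowsOk stS2F s2f_6 s2f_6_m0 false .one = true := by decide +kernel

def s2f_6_r0_one1 : rowsOk stS2F s2f_6 s2f_6_m0 true .one = true := by decide +kernel

def s2f_6_r0_two0 : rowsOk stS2F s2f_6 s2f_6_m0 false .two = true := by decide +kernel

def s2f_6_r0_two1 : rowsOk stS2F s2f_6 s2f_6_m0 true .two = true := by decide +kernel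

def s2f_6_r0_twoE0 : rowsOk stS2F s2f_6 s2f_6_m0 false .twoE = true := by decide +kernel

def s2f_6_r0_twoE1 : rowsOk stS2F s2f_6 s2f_6_m0 true .twoE = true := by decide +kernel

def s2f_6_r0_thrR0 : rowsOk stS2F s2f_6 s2f_6_m0 false .thrR = true := by decide +kernel

def s2f_6_r0_thrR1 : rowsOk stS2F s2f_6 s2f_6_m0 true .thrR = true := by decide +kernel

def s2f_6_r0_thrL0 : rowsOk stS2F s2f_6 s2f_6_m0 false .thrL = true := by decide +kernel

def s2f_6_r0_thrL1 : rowsOk stS2F s2f_6 s2f_6_m0 true .thrL = true := by decide +kernel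

def s2f_6_r0_threeE0 : rowsOk stS2F s2f_6 s2f_6_m0 false .threeE = true := by decide +kernel

def s2f_6_r0_threeE1 : rowsOk stS2F s2f_6 s2f_6_m0 true .threeE = true := by decide +kernel

def s2f_6_r0_ring0 : rowsOk stS2F s2f_6 s2f_6_m0 false .ring = true := by decide +kernel

def s2f_6_r0_ring1 : rowsOk stS2F s2f_6 s2f_6_m0 true .ring = true := by decide +kernel

theorem s2f_6_r0 : allRows stS2F s2f_6 s2f_6_m0 = true := by
  refine allRows_of fun P => ?_
  cases P
  exacts [⟨s2f_6_r0_one0, s2f_6_r0_one1⟩,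
    ⟨s2f_6_r0_two0, s2f_6_r0_two1⟩,
    ⟨s2f_6_r0_twoE0, s2f_6_r0_twoE1⟩,
    ⟨s2f_6_r0_thrR0, s2f_6_r0_thrR1⟩,
    ⟨s2f_6_r0_thrL0, s2f_6_r0_thrL1⟩,
    ⟨s2f_6_r0_threeE0, s2f_6_r0_threeE1⟩,
    ⟨s2f_6_r0_ring0, s2f_6_r0_ring1⟩]

theorem s2f_6_ok : s2f_6.ok stS2F = true := by
  have h : (PC.all.all fun P => PC.all.all fun Q => pairOk stS2F s2f_6 P Q) = true := by decide +kernel
  have d0 : mdOk stS2F s2f_6_m0.md = true := by decide +kernel
  unfold Piece.ok
  rw [h, Bool.true_and]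
  show List.all [s2f_6_m0] _ = true
  rw [List.all_eq_true]
  intro m hm
  simp only [List.mem_cons, List.not_mem_nil, or_false] at hm
  rcases hm with rfl
  · rw [s2f_6_r0, d0]; rfl

end OR

end Pool.Agent.Work.MP_b30479_gt.G2
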