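import Pool.Agent.Work.MP_b30479_gt.G2.OStS
import Pool.Agent.Work.MP_b30479_gt.G2.ORows

namespace Pool.Agent.Work.MP_b30479_gt.G2

namespace OR

/-- windows -/
def s2f_7_wp : PC → Win
  | .one => ⟨0, 0, 0, 0, 0, 0⟩
  | .two => ⟨-230, 780, -360, 760, -660, 530⟩
  | .twoE => ⟨-790, -140, -520, 270, -160, 820⟩
  | .thrR => ⟨100, 920, -70, 910, -630, 480⟩
  | .thrL => ⟨100, 920, -70, 910, -630, 480⟩
  | .threeE => ⟨-20, 610, 0, 860, -380, 650⟩
  | .ring => ⟨270, 1300, 110, 1120, -820, 440⟩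

/-- windows -/
def s2f_7_wq : PC → Win
  | .one => ⟨0, 0, 0, 0, 0, 0⟩
  | .two => ⟨-230, 780, -360, 760, -660, 530⟩
  | .twoE => ⟨-790, -140, -520, 270, -160, 820⟩
  | .thrR => ⟨100, 920, -70, 910, -630, 480⟩
  | .thrL => ⟨100, 920, -70, 910, -630, 480⟩
  | .threeE => ⟨-20, 610, 0, 860, -380, 650⟩
  | .ring => ⟨270, 1300, 110, 1120, -820, 440⟩

/-- mode -/
def s2f_7_m0 : Mode where
  md := .D
  lam := 1500
  ct := 0
  gp := fun
    | .one => [e00, e00, e00, e00, e00, e00, e00, e00]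
    | .two => [e00, e00, e00, e00, ⟨-5131, [740969548811334075129963394994639571296930]⟩, ⟨-5131, [48560180317632411243244274082739912923371024689, 8, 0]⟩]
    | .twoE => [e00, e00, e00, e00, e00]
    | .thrR => [e00, e00, e00, e00, ⟨-5296, [59783051461507618229583296719790754]⟩, ⟨-5296, [15316214823521927446201354093634026613372968706692035472011569, 8, 44185903719026840746729357214683426]⟩]
    | .thrL => [e00, e00, e00, e00, e00]
    | .threeE => [e00, e00, e00, e00, ⟨-4941, [12469687606269338333243785395344798600776889049762]⟩, ⟨-4941, [142706737, 8, 557953]⟩]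
    | .ring => [e00, e00, e00, e00, ⟨-5671, [406415894470523282984481037031696691814368995885092134234014902768342943629282375563324538042409959034078899772510068426846655975013067432610]⟩, ⟨-5671, [11316777345248054521012774671607149329, 8, 2640527904229104391033131538]⟩]
  gq := fun
    | .one => [e00, e00, e00, e00, e00, e00, e00, e00]
    | .two => [⟨3542, [8]⟩, ⟨3542, [8]⟩, ⟨3542, [8]⟩, ⟨3542, [557442]⟩, ⟨3542, [743242528816858218296387583094586778073106]⟩, ⟨3542, [44300706867912650059135570333434642, 8, 0]⟩]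
    | .twoE => [⟨4632, [8]⟩, ⟨4632, [8]⟩, ⟨4632, [8]⟩, ⟨4632, [8]⟩, ⟨4632, [8]⟩]
    | .thrR => [⟨3377, [8]⟩, ⟨3377, [2177]⟩, ⟨3377, [8]⟩, ⟨3377, [142706706]⟩, ⟨3377, [157051832466603673618]⟩, ⟨3377, [11340980969495517241714955320471094034, 8, 9382381760802]⟩]
    | .thrL => [⟨3377, [2177]⟩, ⟨3377, [8]⟩, ⟨3377, [8]⟩, ⟨3377, [2178]⟩, ⟨3377, [8]⟩]
    | .threeE => [⟨3722, [8]⟩, ⟨3722, [8]⟩, ⟨3722, [8]⟩, ⟨3722, [8]⟩, ⟨3722, [173049636224501369431541121452066]⟩, ⟨3722, [2177, 8, 2177]⟩]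
    | .ring => [⟨3027, [3572996806709551072396448130]⟩, ⟨3027, [3627419739322370091448304417]⟩, ⟨3027, [12679305724801]⟩, ⟨3027, [40291328400352476674066]⟩, ⟨3027, [71036565189691106750789616402969863711573256156998981049496281690545745094732479789283848454434]⟩, ⟨3027, [2396420783506193, 8, 36643045650]⟩]

/-- piece -/
def s2f_7 : Piece := ⟨4200, 4500, -820, 820, s2f_7_wp, s2f_7_wq, [s2f_7_m0]⟩

set_option linter.defProp false

def s2f_7_r0_one0 : rowsOk stS2F s2f_7 s2f_7_m0 false .one = true := by decide +kernel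

def s2f_7_r0_one1 : rowsOk stS2F s2f_7 s2f_7_m0 true .one = true := by decide +kernel

def s2f_7_r0_two0 : rowsOk stS2F s2f_7 s2f_7_m0 false .two = true := by decide +kernel

def s2f_7_r0_two1 : rowsOk stS2F s2f_7 s2f_7_m0 true .two = true := by decide +kernel

def s2f_7_r0_twoE0 : rowsOk stS2F s2f_7 s2f_7_m0 false .twoE = true := by decide +kernel

def s2f_7_r0_twoE1 : rowsOk stS2F s2f_7 s2f_7_m0 true .twoE = true := by decide +kernel

def s2f_7_r0_thrR0 : rowsOk stS2F s2f_7 s2f_7_m0 false .thrR = true := by decide +kernel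

def s2f_7_r0_thrR1 : rowsOk stS2F s2f_7 s2f_7_m0 true .thrR = true := by decide +kernel

def s2f_7_r0_thrL0 : rowsOk stS2F s2f_7 s2f_7_m0 false .thrL = true := by decide +kernel

def s2f_7_r0_thrL1 : rowsOk stS2F s2f_7 s2f_7_m0 true .thrL = true := by decide +kernel

def s2f_7_r0_threeE0 : rowsOk stS2F s2f_7 s2f_7_m0 false .threeE = true := by decide +kernel

def s2f_7_r0_threeE1 : rowsOk stS2F s2f_7 s2f_7_m0 true .threeE = true := by decide +kernel

def s2f_7_r0_ring0 : rowsOk stS2F s2f_7 s2f_7_m0 false .ring = true := by decide +kernel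

def s2f_7_r0_ring1 : rowsOk stS2F s2f_7 s2f_7_m0 true .ring = true := by decide +kernel

theorem s2f_7_r0 : allRows stS2F s2f_7 s2f_7_m0 = true := by
  refine allRows_of fun P => ?_
  cases P
  exacts [⟨s2f_7_r0_one0, s2f_7_r0_one1⟩,
    ⟨s2f_7_r0_two0, s2f_7_r0_two1⟩,
    ⟨s2f_7_r0_twoE0, s2f_7_r0_twoE1⟩,
    ⟨s2f_7_r0_thrR0, s2f_7_r0_thrR1⟩,
    ⟨s2f_7_r0_thrL0, s2f_7_r0_thrL1⟩,
    ⟨s2f_7_r0_threeE0, s2f_7_r0_threeE1⟩,
    ⟨s2f_7_r0_ring0, s2f_7_r0_ring1⟩]

theorem s2f_7_ok : s2f_7.ok stS2F = true := by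
  have h : (PC.all.all fun P => PC.all.all fun Q => pairOk stS2F s2f_7 P Q) = true := by decide +kernel
  have d0 : mdOk stS2F s2f_7_m0.md = true := by decide +kernel
  unfold Piece.ok
  rw [h, Bool.true_and]
  show List.all [s2f_7_m0] _ = true
  rw [List.all_eq_true]
  intro m hm
  simp only [List.mem_cons, List.not_mem_nil, or_false] at hm
  rcases hm with rfl
  · rw [s2f_7_r0, d0]; rfl

end OR

end Pool.Agent.Work.MP_b30479_gt.G2
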