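import Pool.Agent.Work.MP_b30479_gt.G2.OStS
import Pool.Agent.Work.MP_b30479_gt.G2.ORows

namespace Pool.Agent.Work.MP_b30479_gt.G2

namespace OR

/-- windows -/
def s2f_8_wp : PC → Win
  | .one => ⟨0, 0, 0, 0, 0, 0⟩
  | .two => ⟨-230, 780, -360, 760, -660, 530⟩
  | .twoE => ⟨-790, -140, -520, 270, -160, 820⟩
  | .thrR => ⟨100, 920, -70, 910, -630, 480⟩
  | .thrL => ⟨100, 920, -70, 910, -630, 480⟩
  | .threeE => ⟨-20, 610, 0, 860, -380, 650⟩
  | .ring => ⟨270, 1300, 110, 1120, -820, 440⟩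

/-- windows -/
def s2f_8_wq : PC → Win
  | .one => ⟨0, 0, 0, 0, 0, 0⟩
  | .two => ⟨-230, 780, -360, 760, -660, 530⟩
  | .twoE => ⟨-790, -140, -520, 270, -160, 820⟩
  | .thrR => ⟨100, 920, -70, 910, -630, 480⟩
  | .thrL => ⟨100, 920, -70, 910, -630, 480⟩
  | .threeE => ⟨-20, 610, 0, 860, -380, 650⟩
  | .ring => ⟨270, 1300, 110, 1120, -820, 440⟩

/-- mode -/
def s2f_8_m0 : Mode where
  md := .D
  lam := 2500
  ct := 0
  gp := fun
    | .one => [e00, e00, e00, e00, e00, e00, e00, e00]
    | .two => [e00, e00, e00, e00, ⟨-5191, [1965513832338959947528295613212131255396162878359443968687352564811171621917046483631139339607638360247302805732196219483399820235594532856065824166622231781894636671096000816794023617468017812867046428985617776323357761881818389168181890698983405100296682211372721795992471687054338768777218366861324091893416420532917486550309355135123488726823613610790199319339559504222887720884639188431939319496186283049904466759932628652903972724686319460793936161972102148834588114246341288691707320942695415289891403963433634]⟩,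 ⟨-5191, [65070447357786877501365465917887248, 8, 674532484220934072021365043505]⟩]
    | .twoE => [e00, e00, e00, e00, e00]
    | .thrR => [e00, e00, e00, e00, ⟨-5462, [114151353559205585586037331840357427318968795074013861774000803390835504398553111252848876759073725612222647517285045362597675493046285431075144666117178018]⟩, ⟨-5462, [1103677859504073567753893682264047571696595358706022428781619712222667061035569, 8, 3192025375588811389168258445522306229789395355115810]⟩]
    | .thrL => [e00, e00, e00, e00, e00]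
    | .threeE => [e00, e00, e00, e00, ⟨-4916, [36644685873, 8, 0]⟩, ⟨-4916, [0, 8, 36532918290]⟩]
    | .ring => [e00, e00, e00, e00, ⟨-6091, [741656320098176501089093196379970498728737, 8, 0]⟩, ⟨-6091, [0, 8, 189689749510258539311116335429751288232087842]⟩]
  gq := fun
    | .one => [e00, e00, e00, e00, e00, e00, e00, e00]
    | .two => [⟨2562, [8]⟩, ⟨2562, [8]⟩, ⟨2562, [8]⟩, ⟨2562, [557698]⟩, ⟨2562, [474753515070290007365301849145915416173879413789033223717485010167927415279930444808949339597659757010459726816263797089549626675328586299257906898257025861044712476914694186869696938503053757959078812634703844899907278768115195822577773435359928106496279682284411032504740379474673615613383295225928720233220033087153780907025725161762]⟩, ⟨2562, [40289096453340991619377, 8, 2394221256933681]⟩]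
    | .twoE => [⟨4358, [8]⟩, ⟨4358, [8]⟩, ⟨4358, [8]⟩, ⟨4358, [8]⟩, ⟨4358, [8]⟩]
    | .thrR => [⟨2312, [8]⟩, ⟨2312, [2177]⟩, ⟨2312, [8]⟩, ⟨2312, [142772242]⟩, ⟨2312, [4230223896983388008356285989584236489127101675908999761231120907603118508256053473870610]⟩, ⟨2312, [172521823367764042929465378505009, 8, 40297166936858058371362]⟩]
    | .thrL => [⟨2312, [8]⟩, ⟨2312, [8]⟩, ⟨2312, [8]⟩, ⟨2312, [2178]⟩, ⟨2312, [8]⟩]
    | .threeE => [⟨2858, [8]⟩, ⟨2858, [8]⟩, ⟨2858, [8]⟩, ⟨2858, [2177]⟩, ⟨2858, [613477495441885202, 8, 0]⟩, ⟨2858, [0, 8, 142706705]⟩]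
    | .ring => [⟨1683, [829651348629850130]⟩, ⟨1683, [12659553567617]⟩, ⟨1683, [49450943361]⟩, ⟨1683, [2396392178001938]⟩, ⟨1683, [48605187913223169251464958211224287420833038626, 8, 0]⟩, ⟨1683, [0, 8, 2401889736134946]⟩]

/-- piece -/
def s2f_8 : Piece := ⟨4500, 4800, -820, 820, s2f_8_wp, s2f_8_wq, [s2f_8_m0]⟩

set_option linter.defProp false

def s2f_8_r0_one0 : rowsOk stS2F s2f_8 s2f_8_m0 false .one = true := by decide +kernel

def s2f_8_r0_one1 : rowsOk stS2F s2f_8 s2f_8_m0 true .one = true := by decide +kernel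

def s2f_8_r0_two0_0 : cellOk stS2F s2f_8 s2f_8_m0 false .two ((stS2F.bins .two).getD 0 b00)
    ((s2f_8_m0.g false .two).getD 0 e00) = true := by decide +kernel

def s2f_8_r0_two0_1 : cellOk stS2F s2f_8 s2f_8_m0 false .two ((stS2F.bins .two).getD 1 b00)
    ((s2f_8_m0.g false .two).getD 1 e00) = true := by decide +kernel

def s2f_8_r0_two0_2 : cellOk stS2F s2f_8 s2f_8_m0 false .two ((stS2F.bins .two).getD 2 b00)
    ((s2f_8_m0.g false .two).getD 2 e00) = true := by decide +kernel

def s2f_8_r0_two0_3 : cellOk stS2F s2f_8 s2f_8_m0 false .two ((stS2F.bins .two).getD 3 b00)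
    ((s2f_8_m0.g false .two).getD 3 e00) = true := by decide +kernel

def s2f_8_r0_two0_4 : cellOk stS2F s2f_8 s2f_8_m0 false .two ((stS2F.bins .two).getD 4 b00)
    ((s2f_8_m0.g false .two).getD 4 e00) = true := by decide +kernel

def s2f_8_r0_two0_5 : cellOk stS2F s2f_8 s2f_8_m0 false .two ((stS2F.bins .two).getD 5 b00)
    ((s2f_8_m0.g false .two).getD 5 e00) = true := by decide +kernel

theorem s2f_8_r0_two0 : rowsOk stS2F s2f_8 s2f_8_m0 false .two = true := by
  refine rowsOk_of fun i hi => ?_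
  have hi : i < 6 := hi
  interval_cases i
  exacts [s2f_8_r0_two0_0, s2f_8_r0_two0_1, s2f_8_r0_two0_2, s2f_8_r0_two0_3, s2f_8_r0_two0_4, s2f_8_r0_two0_5]

def s2f_8_r0_two1_0 : cellOk stS2F s2f_8 s2f_8_m0 true .two ((stS2F.bins .two).getD 0 b00)
    ((s2f_8_m0.g true .two).getD 0 e00) = true := by decide +kernel

def s2f_8_r0_two1_1 : cellOk stS2F s2f_8 s2f_8_m0 true .two ((stS2F.bins .two).getD 1 b00)
    ((s2f_8_m0.g true .two).getD 1 e00) = true := by decide +kernel

def s2f_8_r0_two1_2 : cellOk stS2F s2f_8 s2f_8_m0 true .two ((stS2F.bins .two).getD 2 b00)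
    ((s2f_8_m0.g true .two).getD 2 e00) = true := by decide +kernel

def s2f_8_r0_two1_3 : cellOk stS2F s2f_8 s2f_8_m0 true .two ((stS2F.bins .two).getD 3 b00)
    ((s2f_8_m0.g true .two).getD 3 e00) = true := by decide +kernel

def s2f_8_r0_two1_4 : cellOk stS2F s2f_8 s2f_8_m0 true .two ((stS2F.bins .two).getD 4 b00)
    ((s2f_8_m0.g true .two).getD 4 e00) = true := by decide +kernel

def s2f_8_r0_two1_5 : cellOk stS2F s2f_8 s2f_8_m0 true .two ((stS2F.bins .two).getD 5 b00)
    ((s2f_8_m0.g true .two).getD 5 e00) = true := by decide +kernel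

theorem s2f_8_r0_two1 : rowsOk stS2F s2f_8 s2f_8_m0 true .two = true := by
  refine rowsOk_of fun i hi => ?_
  have hi : i < 6 := hi
  interval_cases i
  exacts [s2f_8_r0_two1_0, s2f_8_r0_two1_1, s2f_8_r0_two1_2, s2f_8_r0_two1_3, s2f_8_r0_two1_4, s2f_8_r0_two1_5]

def s2f_8_r0_twoE0 : rowsOk stS2F s2f_8 s2f_8_m0 false .twoE = true := by decide +kernel

def s2f_8_r0_twoE1 : rowsOk stS2F s2f_8 s2f_8_m0 true .twoE = true := by decide +kernel

def s2f_8_r0_thrR0_0 : cellOk stS2F s2f_8 s2f_8_m0 false .thrR ((stS2F.bins .thrR).getD 0 b00)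
    ((s2f_8_m0.g false .thrR).getD 0 e00) = true := by decide +kernel

def s2f_8_r0_thrR0_1 : cellOk stS2F s2f_8 s2f_8_m0 false .thrR ((stS2F.bins .thrR).getD 1 b00)
    ((s2f_8_m0.g false .thrR).getD 1 e00) = true := by decide +kernel

def s2f_8_r0_thrR0_2 : cellOk stS2F s2f_8 s2f_8_m0 false .thrR ((stS2F.bins .thrR).getD 2 b00)
    ((s2f_8_m0.g false .thrR).getD 2 e00) = true := by decide +kernel

def s2f_8_r0_thrR0_3 : cellOk stS2F s2f_8 s2f_8_m0 false .thrR ((stS2F.bins .thrR).getD 3 b00)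
    ((s2f_8_m0.g false .thrR).getD 3 e00) = true := by decide +kernel

def s2f_8_r0_thrR0_4 : cellOk stS2F s2f_8 s2f_8_m0 false .thrR ((stS2F.bins .thrR).getD 4 b00)
    ((s2f_8_m0.g false .thrR).getD 4 e00) = true := by decide +kernel

def s2f_8_r0_thrR0_5 : cellOk stS2F s2f_8 s2f_8_m0 false .thrR ((stS2F.bins .thrR).getD 5 b00)
    ((s2f_8_m0.g false .thrR).getD 5 e00) = true := by decide +kernel

theorem s2f_8_r0_thrR0 : rowsOk stS2F s2f_8 s2f_8_m0 false .thrR = true := by
  refine rowsOk_of fun i hi => ?_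
  have hi : i < 6 := hi
  interval_cases i
  exacts [s2f_8_r0_thrR0_0, s2f_8_r0_thrR0_1, s2f_8_r0_thrR0_2, s2f_8_r0_thrR0_3, s2f_8_r0_thrR0_4, s2f_8_r0_thrR0_5]

def s2f_8_r0_thrR1 : rowsOk stS2F s2f_8 s2f_8_m0 true .thrR = true := by decide +kernel

def s2f_8_r0_thrL0 : rowsOk stS2F s2f_8 s2f_8_m0 false .thrL = true := by decide +kernel

def s2f_8_r0_thrL1 : rowsOk stS2F s2f_8 s2f_8_m0 true .thrL = true := by decide +kernel

def s2f_8_r0_threeE0 : rowsOk stS2F s2f_8 s2f_8_m0 false .threeE = true := by decide +kernel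

def s2f_8_r0_threeE1 : rowsOk stS2F s2f_8 s2f_8_m0 true .threeE = true := by decide +kernel

def s2f_8_r0_ring0 : rowsOk stS2F s2f_8 s2f_8_m0 false .ring = true := by decide +kernel

def s2f_8_r0_ring1 : rowsOk stS2F s2f_8 s2f_8_m0 true .ring = true := by decide +kernel

theorem s2f_8_r0 : allRows stS2F s2f_8 s2f_8_m0 = true := by
  refine allRows_of fun P => ?_
  cases P
  exacts [⟨s2f_8_r0_one0, s2f_8_r0_one1⟩,
    ⟨s2f_8_r0_two0, s2f_8_r0_two1⟩,
    ⟨s2f_8_r0_twoE0, s2f_8_r0_twoE1⟩,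
    ⟨s2f_8_r0_thrR0, s2f_8_r0_thrR1⟩,
    ⟨s2f_8_r0_thrL0, s2f_8_r0_thrL1⟩,
    ⟨s2f_8_r0_threeE0, s2f_8_r0_threeE1⟩,
    ⟨s2f_8_r0_ring0, s2f_8_r0_ring1⟩]

theorem s2f_8_ok : s2f_8.ok stS2F = true := by
  have h : (PC.all.all fun P => PC.all.all fun Q => pairOk stS2F s2f_8 P Q) = true := by decide +kernel
  have d0 : mdOk stS2F s2f_8_m0.md = true := by decide +kernel
  unfold Piece.ok
  rw [h, Bool.true_and]
  show List.all [s2f_8_m0] _ = true
  rw [List.all_eq_true]
  intro m hm
  simp only [List.mem_cons, List.not_mem_nil, or_false] at hm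
  rcases hm with rfl
  · rw [s2f_8_r0, d0]; rfl

end OR

end Pool.Agent.Work.MP_b30479_gt.G2
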