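import Pool.Agent.Work.MP_b30479_gt.G2.OStS
import Pool.Agent.Work.MP_b30479_gt.G2.ORows

namespace Pool.Agent.Work.MP_b30479_gt.G2

namespace OR

/-- windows -/
def s2f_9_wp : PC → Win
  | .one => ⟨0, 0, 0, 0, 0, 0⟩
  | .two => ⟨-230, 780, -360, 760, -660, 530⟩
  | .twoE => ⟨-790, -140, -520, 270, -160, 820⟩
  | .thrR => ⟨100, 920, -70, 910, -630, 480⟩
  | .thrL => ⟨100, 920, -70, 910, -630, 480⟩
  | .threeE => ⟨-20, 610, 0, 860, -380, 650⟩
  | .ring => ⟨270, 1300, 110, 1120, -820, 440⟩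

/-- windows -/
def s2f_9_wq : PC → Win
  | .one => ⟨0, 0, 0, 0, 0, 0⟩
  | .two => ⟨-230, 780, -360, 760, -660, 530⟩
  | .twoE => ⟨-790, -140, -520, 270, -160, 820⟩
  | .thrR => ⟨100, 920, -70, 910, -630, 480⟩
  | .thrL => ⟨100, 920, -70, 910, -630, 480⟩
  | .threeE => ⟨-20, 610, 0, 860, -380, 650⟩
  | .ring => ⟨270, 1300, 110, 1120, -820, 440⟩

/-- mode -/
def s2f_9_m0 : Mode where
  md := .D
  lam := 2000
  ct := 0
  gp := fun
    | .one => [e00, e00, e00, e00, e00, e00, e00, e00]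
    | .two => [e00, e00, e00, e00, ⟨-4732, [44206160885905192971142635377406257, 8, 0]⟩, ⟨-4732, [0, 8, 53441331194235420664547263191867901401658073080110388548370]⟩]
    | .twoE => [e00, e00, e00, e00, e00]
    | .thrR => [e00, e00, e00, e00, ⟨-4931, [172680315960567160043527707590961, 8, 0]⟩, ⟨-4931, [0, 8, 3847365197150294331029994862027641007963538954265529418632346725225424101666]⟩]
    | .thrL => [e00, e00, e00, e00, e00]
    | .threeE => [e00, e00, e00, e00, ⟨-4512, [9361018685457, 8, 557953]⟩, ⟨-4512, [0, 8, 2394223128642066]⟩]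
    | .ring => [e00, e00, e00, e00, ⟨-5452, [13904427562960176571544094038189281146411762062113, 8, 2396420783506193]⟩, ⟨-5293, [0, 8, 12431507423805164937627718835412031353377113841954]⟩]
  gq := fun
    | .one => [e00, e00, e00, e00, e00, e00, e00, e00]
    | .two => [⟨2489, [2177]⟩, ⟨2489, [8]⟩, ⟨2489, [8]⟩, ⟨2489, [9360906553362]⟩, ⟨2489, [172521823367173611448166009813010, 8, 0]⟩, ⟨2489, [0, 8, 2634861064420203478517289746]⟩]
    | .twoE => [⟨3949, [8]⟩, ⟨3949, [8]⟩, ⟨3949, [8]⟩, ⟨3949, [8]⟩, ⟨3949, [8]⟩]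
    | .thrR => [⟨2428, [8]⟩, ⟨2428, [2177]⟩, ⟨2269, [8]⟩, ⟨2269, [36532553746]⟩, ⟨2269, [10314008693367355353499666, 8, 0]⟩, ⟨2269, [0, 8, 44298724757844870654563774765408546]⟩]
    | .thrL => [⟨2269, [2177]⟩, ⟨2269, [2177]⟩, ⟨2269, [8]⟩, ⟨2269, [557442]⟩, ⟨2269, [2177]⟩]
    | .threeE => [⟨2809, [8]⟩, ⟨2809, [8]⟩, ⟨2809, [8]⟩, ⟨2809, [2177]⟩, ⟨2809, [157387727261572171794, 8, 2177]⟩, ⟨2809, [0, 8, 36643046162]⟩]
    | .ring => [⟨1907, [3240825580585346]⟩, ⟨1907, [12659552519041]⟩, ⟨1907, [49450943361]⟩, ⟨1769, [40168039728342628509714]⟩, ⟨1769, [53556268359798020837748034396571298205192751684016543072546, 8, 142706737]⟩, ⟨1769, [0, 8, 40297166936858595365154]⟩]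

/-- mode -/
def s2f_9_m1 : Mode where
  md := .D
  lam := 1500
  ct := 0
  gp := fun
    | .one => [e00, e00, e00, e00, e00, e00, e00, e00]
    | .two => [e00, e00, e00, e00, e00, e00]
    | .twoE => [e00, e00, e00, e00, e00]
    | .thrR => [e00, e00, e00, e00, e00, e00]
    | .thrL => [e00, e00, e00, e00, e00]
    | .threeE => [e00, e00, e00, e00, e00, ⟨-5091, [0, 8, 2394223111864850]⟩]
    | .ring => [e00, e00, e00, e00, e00, ⟨-5405, [0, 8, 814711270526495289352370158386718606614297726841594146]⟩]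
  gq := fun
    | .one => [e00, e00, e00, e00, e00, e00, e00, e00]
    | .two => [e00, e00, e00, e00, e00, e00]
    | .twoE => [e00, e00, e00, e00, e00]
    | .thrR => [⟨3136, [8]⟩, ⟨3136, [2177]⟩, e00, e00, e00, e00]
    | .thrL => [e00, e00, e00, e00, e00]
    | .threeE => [e00, e00, e00, e00, e00, e00]
    | .ring => [⟨3227, [142836353]⟩, ⟨3227, [143143553]⟩, e00, e00, e00, e00]

/-- mode -/
def s2f_9_m2 : Mode where
  md := .V 300 1000
  lam := 750
  ct := 0
  gp := fun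
    | .one => [e00, e00, e00, e00, e00, e00, e00, e00]
    | .two => [e00, e00, e00, e00, e00, e00]
    | .twoE => [e00, e00, e00, e00, e00]
    | .thrR => [e00, e00, e00, e00, e00, e00]
    | .thrL => [e00, e00, e00, e00, e00]
    | .threeE => [e00, e00, e00, e00, e00, e00]
    | .ring => [e00, e00, e00, e00, e00, ⟨-1773, [0, 0, 0, 0, 64606602737108772663068126857419596633112996949445230764538354137327372394986279458, 304816645330112883836125210188717715326661831918220523372343179954112352513814885815532470471035713622562]⟩]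
  gq := fun
    | .one => [e00, e00, e00, e00, e00, e00, e00, e00]
    | .two => [e00, e00, e00, e00, e00, e00]
    | .twoE => [e00, e00, e00, e00, e00]
    | .thrR => [e00, e00, e00, e00, e00, e00]
    | .thrL => [e00, e00, e00, e00, e00]
    | .threeE => [e00, e00, e00, e00, e00, e00]
    | .ring => [⟨449, [36566042642]⟩, ⟨449, [2177]⟩, ⟨449, [2177]⟩, e00, e00, e00]

/-- piece -/
def s2f_9 : Piece := ⟨4800, 5100, -820, 820, s2f_9_wp, s2f_9_wq, [s2f_9_m0, s2f_9_m1, s2f_9_m2]⟩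

set_option linter.defProp false

def s2f_9_r0_one0 : rowsOk stS2F s2f_9 s2f_9_m0 false .one = true := by decide +kernel

def s2f_9_r0_one1 : rowsOk stS2F s2f_9 s2f_9_m0 true .one = true := by decide +kernel

def s2f_9_r0_two0 : rowsOk stS2F s2f_9 s2f_9_m0 false .two = true := by decide +kernel

def s2f_9_r0_two1 : rowsOk stS2F s2f_9 s2f_9_m0 true .two = true := by decide +kernel

def s2f_9_r0_twoE0 : rowsOk stS2F s2f_9 s2f_9_m0 false .twoE = true := by decide +kernel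

def s2f_9_r0_twoE1 : rowsOk stS2F s2f_9 s2f_9_m0 true .twoE = true := by decide +kernel

def s2f_9_r0_thrR0 : rowsOk stS2F s2f_9 s2f_9_m0 false .thrR = true := by decide +kernel

def s2f_9_r0_thrR1 : rowsOk stS2F s2f_9 s2f_9_m0 true .thrR = true := by decide +kernel

def s2f_9_r0_thrL0 : rowsOk stS2F s2f_9 s2f_9_m0 false .thrL = true := by decide +kernel

def s2f_9_r0_thrL1 : rowsOk stS2F s2f_9 s2f_9_m0 true .thrL = true := by decide +kernel

def s2f_9_r0_threeE0 : rowsOk stS2F s2f_9 s2f_9_m0 false .threeE = true := by decide +kernel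

def s2f_9_r0_threeE1 : rowsOk stS2F s2f_9 s2f_9_m0 true .threeE = true := by decide +kernel

def s2f_9_r0_ring0 : rowsOk stS2F s2f_9 s2f_9_m0 false .ring = true := by decide +kernel

def s2f_9_r0_ring1 : rowsOk stS2F s2f_9 s2f_9_m0 true .ring = true := by decide +kernel

def s2f_9_r1_one0 : rowsOk stS2F s2f_9 s2f_9_m1 false .one = true := by decide +kernel

def s2f_9_r1_one1 : rowsOk stS2F s2f_9 s2f_9_m1 true .one = true := by decide +kernel

def s2f_9_r1_two0 : rowsOk stS2F s2f_9 s2f_9_m1 false .two = true := by decide +kernel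

def s2f_9_r1_two1 : rowsOk stS2F s2f_9 s2f_9_m1 true .two = true := by decide +kernel

def s2f_9_r1_twoE0 : rowsOk stS2F s2f_9 s2f_9_m1 false .twoE = true := by decide +kernel

def s2f_9_r1_twoE1 : rowsOk stS2F s2f_9 s2f_9_m1 true .twoE = true := by decide +kernel

def s2f_9_r1_thrR0 : rowsOk stS2F s2f_9 s2f_9_m1 false .thrR = true := by decide +kernel

def s2f_9_r1_thrR1 : rowsOk stS2F s2f_9 s2f_9_m1 true .thrR = true := by decide +kernel

def s2f_9_r1_thrL0 : rowsOk stS2F s2f_9 s2f_9_m1 false .thrL = true := by decide +kernel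

def s2f_9_r1_thrL1 : rowsOk stS2F s2f_9 s2f_9_m1 true .thrL = true := by decide +kernel

def s2f_9_r1_threeE0 : rowsOk stS2F s2f_9 s2f_9_m1 false .threeE = true := by decide +kernel

def s2f_9_r1_threeE1 : rowsOk stS2F s2f_9 s2f_9_m1 true .threeE = true := by decide +kernel

def s2f_9_r1_ring0 : rowsOk stS2F s2f_9 s2f_9_m1 false .ring = true := by decide +kernel

def s2f_9_r1_ring1 : rowsOk stS2F s2f_9 s2f_9_m1 true .ring = true := by decide +kernel

def s2f_9_r2_one0 : rowsOk stS2F s2f_9 s2f_9_m2 false .one = true := by decide +kernel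

def s2f_9_r2_one1 : rowsOk stS2F s2f_9 s2f_9_m2 true .one = true := by decide +kernel

def s2f_9_r2_two0 : rowsOk stS2F s2f_9 s2f_9_m2 false .two = true := by decide +kernel

def s2f_9_r2_two1 : rowsOk stS2F s2f_9 s2f_9_m2 true .two = true := by decide +kernel

def s2f_9_r2_twoE0 : rowsOk stS2F s2f_9 s2f_9_m2 false .twoE = true := by decide +kernel

def s2f_9_r2_twoE1 : rowsOk stS2F s2f_9 s2f_9_m2 true .twoE = true := by decide +kernel

def s2f_9_r2_thrR0 : rowsOk stS2F s2f_9 s2f_9_m2 false .thrR = true := by decide +kernel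

def s2f_9_r2_thrR1 : rowsOk stS2F s2f_9 s2f_9_m2 true .thrR = true := by decide +kernel

def s2f_9_r2_thrL0 : rowsOk stS2F s2f_9 s2f_9_m2 false .thrL = true := by decide +kernel

def s2f_9_r2_thrL1 : rowsOk stS2F s2f_9 s2f_9_m2 true .thrL = true := by decide +kernel

def s2f_9_r2_threeE0 : rowsOk stS2F s2f_9 s2f_9_m2 false .threeE = true := by decide +kernel

def s2f_9_r2_threeE1 : rowsOk stS2F s2f_9 s2f_9_m2 true .threeE = true := by decide +kernel

def s2f_9_r2_ring0 : rowsOk stS2F s2f_9 s2f_9_m2 false .ring = true := by decide +kernel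

def s2f_9_r2_ring1 : rowsOk stS2F s2f_9 s2f_9_m2 true .ring = true := by decide +kernel

theorem s2f_9_r0 : allRows stS2F s2f_9 s2f_9_m0 = true := by
  refine allRows_of fun P => ?_
  cases P
  exacts [⟨s2f_9_r0_one0, s2f_9_r0_one1⟩,
    ⟨s2f_9_r0_two0, s2f_9_r0_two1⟩,
    ⟨s2f_9_r0_twoE0, s2f_9_r0_twoE1⟩,
    ⟨s2f_9_r0_thrR0, s2f_9_r0_thrR1⟩,
    ⟨s2f_9_r0_thrL0, s2f_9_r0_thrL1⟩,
    ⟨s2f_9_r0_threeE0, s2f_9_r0_threeE1⟩,
    ⟨s2f_9_r0_ring0, s2f_9_r0_ring1⟩]

theorem s2f_9_r1 : allRows stS2F s2f_9 s2f_9_m1 = true := by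
  refine allRows_of fun P => ?_
  cases P
  exacts [⟨s2f_9_r1_one0, s2f_9_r1_one1⟩,
    ⟨s2f_9_r1_two0, s2f_9_r1_two1⟩,
    ⟨s2f_9_r1_twoE0, s2f_9_r1_twoE1⟩,
    ⟨s2f_9_r1_thrR0, s2f_9_r1_thrR1⟩,
    ⟨s2f_9_r1_thrL0, s2f_9_r1_thrL1⟩,
    ⟨s2f_9_r1_threeE0, s2f_9_r1_threeE1⟩,
    ⟨s2f_9_r1_ring0, s2f_9_r1_ring1⟩]

theorem s2f_9_r2 : allRows stS2F s2f_9 s2f_9_m2 = true := by
  refine allRows_of fun P => ?_
  cases P
  exacts [⟨s2f_9_r2_one0, s2f_9_r2_one1⟩,
    ⟨s2f_9_r2_two0, s2f_9_r2_two1⟩,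
    ⟨s2f_9_r2_twoE0, s2f_9_r2_twoE1⟩,
    ⟨s2f_9_r2_thrR0, s2f_9_r2_thrR1⟩,
    ⟨s2f_9_r2_thrL0, s2f_9_r2_thrL1⟩,
    ⟨s2f_9_r2_threeE0, s2f_9_r2_threeE1⟩,
    ⟨s2f_9_r2_ring0, s2f_9_r2_ring1⟩]

theorem s2f_9_ok : s2f_9.ok stS2F = true := by
  have h : (PC.all.all fun P => PC.all.all fun Q => pairOk stS2F s2f_9 P Q) = true := by decide +kernel
  have d0 : mdOk stS2F s2f_9_m0.md = true := by decide +kernel
  have d1 : mdOk stS2F s2f_9_m1.md = true := by decide +kernel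
  have d2 : mdOk stS2F s2f_9_m2.md = true := by decide +kernel
  unfold Piece.ok
  rw [h, Bool.true_and]
  show List.all [s2f_9_m0, s2f_9_m1, s2f_9_m2] _ = true
  rw [List.all_eq_true]
  intro m hm
  simp only [List.mem_cons, List.not_mem_nil, or_false] at hm
  rcases hm with rfl | rfl | rfl
  · rw [s2f_9_r0, d0]; rfl
  · rw [s2f_9_r1, d1]; rfl
  · rw [s2f_9_r2, d2]; rfl

end OR

end Pool.Agent.Work.MP_b30479_gt.G2
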