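import Pool.Agent.Work.MP_b30479_gt.G2.OS2r_0d
import Pool.Agent.Work.MP_b30479_gt.G2.ORows
import Pool.Agent.Work.MP_b30479_gt.G2.OStS

namespace Pool.Agent.Work.MP_b30479_gt.G2

namespace OR

set_option linter.defProp false

def s2r_0_r0_thrL0_0 : cellOk stS2R s2r_0 s2r_0_m0 false .thrL ((stS2R.bins .thrL).getD 0 b00)
    ((s2r_0_m0.g false .thrL).getD 0 e00) = true := by decide +kernel

def s2r_0_r0_thrL0_1 : cellOk stS2R s2r_0 s2r_0_m0 false .thrL ((stS2R.bins .thrL).getD 1 b00)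
    ((s2r_0_m0.g false .thrL).getD 1 e00) = true := by decide +kernel

def s2r_0_r0_thrL0_2 : cellOk stS2R s2r_0 s2r_0_m0 false .thrL ((stS2R.bins .thrL).getD 2 b00)
    ((s2r_0_m0.g false .thrL).getD 2 e00) = true := by decide +kernel

def s2r_0_r0_thrL0_3 : cellOk stS2R s2r_0 s2r_0_m0 false .thrL ((stS2R.bins .thrL).getD 3 b00)
    ((s2r_0_m0.g false .thrL).getD 3 e00) = true := by decide +kernel

def s2r_0_r0_thrL0_4 : cellOk stS2R s2r_0 s2r_0_m0 false .thrL ((stS2R.bins .thrL).getD 4 b00)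
    ((s2r_0_m0.g false .thrL).getD 4 e00) = true := by decide +kernel

theorem s2r_0_r0_thrL0 : rowsOk stS2R s2r_0 s2r_0_m0 false .thrL = true := by
  refine rowsOk_of fun i hi => ?_
  have hi : i < 5 := hi
  interval_cases i
  exacts [s2r_0_r0_thrL0_0, s2r_0_r0_thrL0_1, s2r_0_r0_thrL0_2, s2r_0_r0_thrL0_3, s2r_0_r0_thrL0_4]

def s2r_0_r0_thrL1_0 : cellOk stS2R s2r_0 s2r_0_m0 true .thrL ((stS2R.bins .thrL).getD 0 b00)
    ((s2r_0_m0.g true .thrL).getD 0 e00) = true := by decide +kernel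

def s2r_0_r0_thrL1_1 : cellOk stS2R s2r_0 s2r_0_m0 true .thrL ((stS2R.bins .thrL).getD 1 b00)
    ((s2r_0_m0.g true .thrL).getD 1 e00) = true := by decide +kernel

def s2r_0_r0_thrL1_2 : cellOk stS2R s2r_0 s2r_0_m0 true .thrL ((stS2R.bins .thrL).getD 2 b00)
    ((s2r_0_m0.g true .thrL).getD 2 e00) = true := by decide +kernel

def s2r_0_r0_thrL1_3 : cellOk stS2R s2r_0 s2r_0_m0 true .thrL ((stS2R.bins .thrL).getD 3 b00)
    ((s2r_0_m0.g true .thrL).getD 3 e00) = true := by decide +kernel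

def s2r_0_r0_thrL1_4 : cellOk stS2R s2r_0 s2r_0_m0 true .thrL ((stS2R.bins .thrL).getD 4 b00)
    ((s2r_0_m0.g true .thrL).getD 4 e00) = true := by decide +kernel

theorem s2r_0_r0_thrL1 : rowsOk stS2R s2r_0 s2r_0_m0 true .thrL = true := by
  refine rowsOk_of fun i hi => ?_
  have hi : i < 5 := hi
  interval_cases i
  exacts [s2r_0_r0_thrL1_0, s2r_0_r0_thrL1_1, s2r_0_r0_thrL1_2, s2r_0_r0_thrL1_3, s2r_0_r0_thrL1_4]

def s2r_0_r0_threeE0_0 : cellOk stS2R s2r_0 s2r_0_m0 false .threeE ((stS2R.bins .threeE).getD 0 b00)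
    ((s2r_0_m0.g false .threeE).getD 0 e00) = true := by decide +kernel

def s2r_0_r0_threeE0_1 : cellOk stS2R s2r_0 s2r_0_m0 false .threeE ((stS2R.bins .threeE).getD 1 b00)
    ((s2r_0_m0.g false .threeE).getD 1 e00) = true := by decide +kernel

def s2r_0_r0_threeE0_2 : cellOk stS2R s2r_0 s2r_0_m0 false .threeE ((stS2R.bins .threeE).getD 2 b00)
    ((s2r_0_m0.g false .threeE).getD 2 e00) = true := by decide +kernel

def s2r_0_r0_threeE0_3 : cellOk stS2R s2r_0 s2r_0_m0 false .threeE ((stS2R.bins .threeE).getD 3 b00)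
    ((s2r_0_m0.g false .threeE).getD 3 e00) = true := by decide +kernel

def s2r_0_r0_threeE0_4 : cellOk stS2R s2r_0 s2r_0_m0 false .threeE ((stS2R.bins .threeE).getD 4 b00)
    ((s2r_0_m0.g false .threeE).getD 4 e00) = true := by decide +kernel

def s2r_0_r0_threeE0_5 : cellOk stS2R s2r_0 s2r_0_m0 false .threeE ((stS2R.bins .threeE).getD 5 b00)
    ((s2r_0_m0.g false .threeE).getD 5 e00) = true := by decide +kernel

theorem s2r_0_r0_threeE0 : rowsOk stS2R s2r_0 s2r_0_m0 false .threeE = true := by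
  refine rowsOk_of fun i hi => ?_
  have hi : i < 6 := hi
  interval_cases i
  exacts [s2r_0_r0_threeE0_0, s2r_0_r0_threeE0_1, s2r_0_r0_threeE0_2, s2r_0_r0_threeE0_3, s2r_0_r0_threeE0_4, s2r_0_r0_threeE0_5]

def s2r_0_r0_threeE1_0 : cellOk stS2R s2r_0 s2r_0_m0 true .threeE ((stS2R.bins .threeE).getD 0 b00)
    ((s2r_0_m0.g true .threeE).getD 0 e00) = true := by decide +kernel

def s2r_0_r0_threeE1_1 : cellOk stS2R s2r_0 s2r_0_m0 true .threeE ((stS2R.bins .threeE).getD 1 b00)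
    ((s2r_0_m0.g true .threeE).getD 1 e00) = true := by decide +kernel

def s2r_0_r0_threeE1_2 : cellOk stS2R s2r_0 s2r_0_m0 true .threeE ((stS2R.bins .threeE).getD 2 b00)
    ((s2r_0_m0.g true .threeE).getD 2 e00) = true := by decide +kernel

def s2r_0_r0_threeE1_3 : cellOk stS2R s2r_0 s2r_0_m0 true .threeE ((stS2R.bins .threeE).getD 3 b00)
    ((s2r_0_m0.g true .threeE).getD 3 e00) = true := by decide +kernel

def s2r_0_r0_threeE1_4 : cellOk stS2R s2r_0 s2r_0_m0 true .threeE ((stS2R.bins .threeE).getD 4 b00)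
    ((s2r_0_m0.g true .threeE).getD 4 e00) = true := by decide +kernel

def s2r_0_r0_threeE1_5 : cellOk stS2R s2r_0 s2r_0_m0 true .threeE ((stS2R.bins .threeE).getD 5 b00)
    ((s2r_0_m0.g true .threeE).getD 5 e00) = true := by decide +kernel

theorem s2r_0_r0_threeE1 : rowsOk stS2R s2r_0 s2r_0_m0 true .threeE = true := by
  refine rowsOk_of fun i hi => ?_
  have hi : i < 6 := hi
  interval_cases i
  exacts [s2r_0_r0_threeE1_0, s2r_0_r0_threeE1_1, s2r_0_r0_threeE1_2, s2r_0_r0_threeE1_3, s2r_0_r0_threeE1_4, s2r_0_r0_threeE1_5]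

def s2r_0_r0_ring0_0 : cellOk stS2R s2r_0 s2r_0_m0 false .ring ((stS2R.bins .ring).getD 0 b00)
    ((s2r_0_m0.g false .ring).getD 0 e00) = true := by decide +kernel

def s2r_0_r0_ring0_1 : cellOk stS2R s2r_0 s2r_0_m0 false .ring ((stS2R.bins .ring).getD 1 b00)
    ((s2r_0_m0.g false .ring).getD 1 e00) = true := by decide +kernel

def s2r_0_r0_ring0_2 : cellOk stS2R s2r_0 s2r_0_m0 false .ring ((stS2R.bins .ring).getD 2 b00)
    ((s2r_0_m0.g false .ring).getD 2 e00) = true := by decide +kernel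

def s2r_0_r0_ring0_3 : cellOk stS2R s2r_0 s2r_0_m0 false .ring ((stS2R.bins .ring).getD 3 b00)
    ((s2r_0_m0.g false .ring).getD 3 e00) = true := by decide +kernel

def s2r_0_r0_ring0_4 : cellOk stS2R s2r_0 s2r_0_m0 false .ring ((stS2R.bins .ring).getD 4 b00)
    ((s2r_0_m0.g false .ring).getD 4 e00) = true := by decide +kernel

def s2r_0_r0_ring0_5 : cellOk stS2R s2r_0 s2r_0_m0 false .ring ((stS2R.bins .ring).getD 5 b00)
    ((s2r_0_m0.g false .ring).getD 5 e00) = true := by decide +kernel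

theorem s2r_0_r0_ring0 : rowsOk stS2R s2r_0 s2r_0_m0 false .ring = true := by
  refine rowsOk_of fun i hi => ?_
  have hi : i < 6 := hi
  interval_cases i
  exacts [s2r_0_r0_ring0_0, s2r_0_r0_ring0_1, s2r_0_r0_ring0_2, s2r_0_r0_ring0_3, s2r_0_r0_ring0_4, s2r_0_r0_ring0_5]

end OR

end Pool.Agent.Work.MP_b30479_gt.G2
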