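import Pool.Agent.Work.MP_b30479_gt.G2.OS2r_0r0
import Pool.Agent.Work.MP_b30479_gt.G2.OS2r_0r1
import Pool.Agent.Work.MP_b30479_gt.G2.OS2r_0r2
import Pool.Agent.Work.MP_b30479_gt.G2.OS2r_0r3

namespace Pool.Agent.Work.MP_b30479_gt.G2

namespace OR

theorem s2r_0_r0 : allRows stS2R s2r_0 s2r_0_m0 = true := by
  refine allRows_of fun P => ?_
  cases P
  exacts [⟨s2r_0_r0_one0, s2r_0_r0_one1⟩,
    ⟨s2r_0_r0_two0, s2r_0_r0_two1⟩,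
    ⟨s2r_0_r0_twoE0, s2r_0_r0_twoE1⟩,
    ⟨s2r_0_r0_thrR0, s2r_0_r0_thrR1⟩,
    ⟨s2r_0_r0_thrL0, s2r_0_r0_thrL1⟩,
    ⟨s2r_0_r0_threeE0, s2r_0_r0_threeE1⟩,
    ⟨s2r_0_r0_ring0, s2r_0_r0_ring1⟩]

theorem s2r_0_r1 : allRows stS2R s2r_0 s2r_0_m1 = true := by
  refine allRows_of fun P => ?_
  cases P
  exacts [⟨s2r_0_r1_one0, s2r_0_r1_one1⟩,
    ⟨s2r_0_r1_two0, s2r_0_r1_two1⟩,
    ⟨s2r_0_r1_twoE0, s2r_0_r1_twoE1⟩,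
    ⟨s2r_0_r1_thrR0, s2r_0_r1_thrR1⟩,
    ⟨s2r_0_r1_thrL0, s2r_0_r1_thrL1⟩,
    ⟨s2r_0_r1_threeE0, s2r_0_r1_threeE1⟩,
    ⟨s2r_0_r1_ring0, s2r_0_r1_ring1⟩]

theorem s2r_0_r2 : allRows stS2R s2r_0 s2r_0_m2 = true := by
  refine allRows_of fun P => ?_
  cases P
  exacts [⟨s2r_0_r2_one0, s2r_0_r2_one1⟩,
    ⟨s2r_0_r2_two0, s2r_0_r2_two1⟩,
    ⟨s2r_0_r2_twoE0, s2r_0_r2_twoE1⟩,
    ⟨s2r_0_r2_thrR0, s2r_0_r2_thrR1⟩,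
    ⟨s2r_0_r2_thrL0, s2r_0_r2_thrL1⟩,
    ⟨s2r_0_r2_threeE0, s2r_0_r2_threeE1⟩,
    ⟨s2r_0_r2_ring0, s2r_0_r2_ring1⟩]

theorem s2r_0_ok : s2r_0.ok stS2R = true := by
  have h : (PC.all.all fun P => PC.all.all fun Q => pairOk stS2R s2r_0 P Q) = true := by decide +kernel
  have d0 : mdOk stS2R s2r_0_m0.md = true := by decide +kernel
  have d1 : mdOk stS2R s2r_0_m1.md = true := by decide +kernel
  have d2 : mdOk stS2R s2r_0_m2.md = true := by decide +kernel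
  unfold Piece.ok
  rw [h, Bool.true_and]
  show List.all [s2r_0_m0, s2r_0_m1, s2r_0_m2] _ = true
  rw [List.all_eq_true]
  intro m hm
  simp only [List.mem_cons, List.not_mem_nil, or_false] at hm
  rcases hm with rfl | rfl | rfl
  · rw [s2r_0_r0, d0]; rfl
  · rw [s2r_0_r1, d1]; rfl
  · rw [s2r_0_r2, d2]; rfl

end OR

end Pool.Agent.Work.MP_b30479_gt.G2
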