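import Pool.Agent.Work.MP_b30479_gt.G2.OStS
import Pool.Agent.Work.MP_b30479_gt.G2.ORows

namespace Pool.Agent.Work.MP_b30479_gt.G2

namespace OR

/-- windows -/
def s3f_0_wp : PC → Win
  | .one => ⟨-890, 530, -920, 760, -820, 530⟩
  | .two => ⟨-30, 780, -50, 1100, -290, 620⟩
  | .twoE => ⟨-610, -170, -220, 530, 190, 820⟩
  | .thrR => ⟨310, 930, 280, 1270, -240, 580⟩
  | .thrL => ⟨310, 930, 280, 1270, -240, 580⟩
  | .threeE => ⟨160, 600, 360, 1170, 10, 740⟩
  | .ring => ⟨480, 1330, 470, 1500, -430, 610⟩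

/-- windows -/
def s3f_0_wq : PC → Win
  | .one => ⟨-890, 530, -920, 760, -820, 530⟩
  | .two => ⟨-30, 780, -50, 1100, -290, 620⟩
  | .twoE => ⟨-610, -170, -220, 530, 190, 820⟩
  | .thrR => ⟨310, 930, 280, 1270, -240, 580⟩
  | .thrL => ⟨310, 930, 280, 1270, -240, 580⟩
  | .threeE => ⟨160, 600, 360, 1170, 10, 740⟩
  | .ring => ⟨480, 1330, 470, 1500, -430, 610⟩

/-- mode -/
def s3f_0_m0 : Mode where
  md := .D
  lam := 2500
  ct := 0
  gp := fun
    | .one => [e00, e00, e00, e00, e00, ⟨-5262, [13681144135937692072487891925337237923901318138248307967398675, 8, 4230188324849568231017647156132088760782877262610804562073200356789470158055258997789459]⟩, ⟨-5262, [0, 8, 277229622057341336475021801230806817930278219322009483834074442293830307434111594109390106930]⟩, e00]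
    | .two => [e00, e00, e00, e00, ⟨-4607, [40168398575953837064497, 8, 40168398575953837064497]⟩, ⟨-4607, [0, 8, 895362599826267909008294163964546472333030981066177237869286994210]⟩]
    | .twoE => [e00, e00, e00, e00, e00]
    | .thrR => [e00, e00, e00, e00, ⟨-4907, [612920641768161585, 8, 2394201737691441]⟩, ⟨-4907, [0, 2177, 304816645413494547544237180799335337813354979803445835298793277122081440942881643695742522943830523843106]⟩]
    | .thrL => [e00, e00, e00, e00, e00]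
    | .threeE => [e00, e00, e00, e00, ⟨-4332, [142837777, 8, 142641185]⟩, ⟨-4332, [0, 8, 9352434417954]⟩]
    | .ring => [e00, e00, e00, e00, ⟨-5249, [3920938440142207561963494334139712996324056935089405177639743793, 8, 2897060371994344386925033184730316026145]⟩, ⟨-5249, [0, 8, 208566085254059885623437619314331287175894934321149055522]⟩]
  gq := fun
    | .one => [⟨2503, [8]⟩, ⟨2245, [142706706]⟩, ⟨2245, [2179]⟩, ⟨2245, [2177]⟩, ⟨2245, [815459736343522600574105132304234766879092759785406754]⟩, ⟨2245, [208566086715570641849968547650744558049676114286549173010, 8, 48604607583457750415927536607199489374849958675]⟩, ⟨2245, [0, 8, 48560614171039933924031257929624867780236423474]⟩, e00]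
    | .two => [⟨3158, [8]⟩, ⟨3158, [8]⟩, ⟨3158, [8]⟩, ⟨3158, [40205269111280713762850]⟩, ⟨3158, [40289096458466229389330, 8, 9380536260657]⟩, ⟨3158, [0, 8, 2632474785925946784217575714]⟩]
    | .twoE => [⟨4958, [8]⟩, ⟨4958, [8]⟩, ⟨4958, [8]⟩, ⟨4958, [2178]⟩, ⟨4958, [8]⟩]
    | .thrR => [⟨2858, [8]⟩, ⟨2858, [8]⟩, ⟨2858, [8]⟩, ⟨2858, [2394188852398114]⟩, ⟨2858, [9361023971714, 8, 559153]⟩, ⟨2858, [0, 8, 11340473298163373329243602119216534050]⟩]
    | .thrL => [⟨2858, [8]⟩, ⟨2858, [8]⟩, ⟨2858, [8]⟩, ⟨2858, [142704770]⟩, ⟨2858, [557440]⟩]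
    | .threeE => [⟨3433, [8]⟩, ⟨3433, [8]⟩, ⟨3433, [8]⟩, ⟨3433, [2178]⟩, ⟨3433, [36642587266, 8, 2177]⟩, ⟨3433, [0, 8, 36641997330]⟩]
    | .ring => [⟨2258, [36644618626]⟩, ⟨2258, [143143041]⟩, ⟨2258, [557185]⟩, ⟨2258, [673603811962606758263716872978]⟩, ⟨2258, [895373145357212752950574322669716469931888760812431410013854204194, 8, 614885464759042337]⟩, ⟨2258, [0, 8, 40297022911350694810146]⟩]

/-- piece -/
def s3f_0 : Piece := ⟨4750, 5375, -820, 820, s3f_0_wp, s3f_0_wq, [s3f_0_m0]⟩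

set_option linter.defProp false

def s3f_0_r0_one0 : rowsOk stS3F s3f_0 s3f_0_m0 false .one = true := by decide +kernel

def s3f_0_r0_one1 : rowsOk stS3F s3f_0 s3f_0_m0 true .one = true := by decide +kernel

def s3f_0_r0_two0 : rowsOk stS3F s3f_0 s3f_0_m0 false .two = true := by decide +kernel

def s3f_0_r0_two1 : rowsOk stS3F s3f_0 s3f_0_m0 true .two = true := by decide +kernel

def s3f_0_r0_twoE0 : rowsOk stS3F s3f_0 s3f_0_m0 false .twoE = true := by decide +kernel

def s3f_0_r0_twoE1 : rowsOk stS3F s3f_0 s3f_0_m0 true .twoE = true := by decide +kernel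

def s3f_0_r0_thrR0 : rowsOk stS3F s3f_0 s3f_0_m0 false .thrR = true := by decide +kernel

def s3f_0_r0_thrR1 : rowsOk stS3F s3f_0 s3f_0_m0 true .thrR = true := by decide +kernel

def s3f_0_r0_thrL0 : rowsOk stS3F s3f_0 s3f_0_m0 false .thrL = true := by decide +kernel

def s3f_0_r0_thrL1 : rowsOk stS3F s3f_0 s3f_0_m0 true .thrL = true := by decide +kernel

def s3f_0_r0_threeE0 : rowsOk stS3F s3f_0 s3f_0_m0 false .threeE = true := by decide +kernel

def s3f_0_r0_threeE1 : rowsOk stS3F s3f_0 s3f_0_m0 true .threeE = true := by decide +kernel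

def s3f_0_r0_ring0 : rowsOk stS3F s3f_0 s3f_0_m0 false .ring = true := by decide +kernel

def s3f_0_r0_ring1 : rowsOk stS3F s3f_0 s3f_0_m0 true .ring = true := by decide +kernel

theorem s3f_0_r0 : allRows stS3F s3f_0 s3f_0_m0 = true := by
  refine allRows_of fun P => ?_
  cases P
  exacts [⟨s3f_0_r0_one0, s3f_0_r0_one1⟩,
    ⟨s3f_0_r0_two0, s3f_0_r0_two1⟩,
    ⟨s3f_0_r0_twoE0, s3f_0_r0_twoE1⟩,
    ⟨s3f_0_r0_thrR0, s3f_0_r0_thrR1⟩,
    ⟨s3f_0_r0_thrL0, s3f_0_r0_thrL1⟩,
    ⟨s3f_0_r0_threeE0, s3f_0_r0_threeE1⟩,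
    ⟨s3f_0_r0_ring0, s3f_0_r0_ring1⟩]

theorem s3f_0_ok : s3f_0.ok stS3F = true := by
  have h : (PC.all.all fun P => PC.all.all fun Q => pairOk stS3F s3f_0 P Q) = true := by decide +kernel
  have d0 : mdOk stS3F s3f_0_m0.md = true := by decide +kernel
  unfold Piece.ok
  rw [h, Bool.true_and]
  show List.all [s3f_0_m0] _ = true
  rw [List.all_eq_true]
  intro m hm
  simp only [List.mem_cons, List.not_mem_nil, or_false] at hm
  rcases hm with rfl
  · rw [s3f_0_r0, d0]; rfl

end OR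

end Pool.Agent.Work.MP_b30479_gt.G2
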