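import Pool.Agent.Work.MP_b30479_gt.G2.OStS
import Pool.Agent.Work.MP_b30479_gt.G2.ORows

namespace Pool.Agent.Work.MP_b30479_gt.G2

namespace OR

/-- windows -/
def s3f_1_wp : PC → Win
  | .one => ⟨-890, 530, -920, 760, -820, 530⟩
  | .two => ⟨-30, 780, -50, 1100, -290, 620⟩
  | .twoE => ⟨-610, -170, -220, 530, 190, 820⟩
  | .thrR => ⟨310, 930, 280, 1270, -240, 580⟩
  | .thrL => ⟨310, 930, 280, 1270, -240, 580⟩
  | .threeE => ⟨160, 600, 360, 1170, 10, 740⟩
  | .ring => ⟨480, 1330, 470, 1500, -430, 610⟩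

/-- windows -/
def s3f_1_wq : PC → Win
  | .one => ⟨-890, 530, -920, 760, -820, 530⟩
  | .two => ⟨-30, 780, -50, 1100, -290, 620⟩
  | .twoE => ⟨-610, -170, -220, 530, 190, 820⟩
  | .thrR => ⟨310, 930, 280, 1270, -240, 580⟩
  | .thrL => ⟨310, 930, 280, 1270, -240, 580⟩
  | .threeE => ⟨160, 600, 360, 1170, 10, 740⟩
  | .ring => ⟨480, 1330, 470, 1500, -430, 610⟩

/-- mode -/
def s3f_1_m0 : Mode where
  md := .D
  lam := 2500
  ct := 0
  gp := fun
    | .one => [e00, e00, e00, e00, ⟨-3546, [3192202354264744158926975334818754120070883044758291, 8, 0]⟩, ⟨-3546, [3192202354264744158926975334818754120070883044758291, 8, 1310393335039033742861619439354407470299699962799998097250303740002730969085877664348785221516949039994850935771938]⟩, ⟨-3546, [0, 0, 2158139967328963000787002684521140177482009048166415346466631828086724212577103937657543437482504818553841409917348377712418502667052734425924539678077531412705570]⟩, ⟨-3546, [0, 0, 2373316943112302059853649956287230906869590030158525500241153712844391085948033710324831030154489417544210368829482004428189660274503519969362651531609499336911636458698838803]⟩]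
    | .two => [e00, e00, e00, ⟨-3775, [40168398575953837064497, 8, 0]⟩, ⟨-3775, [40168398575953837064497, 8, 3185351460806598243917004335657060084434491311993122]⟩, ⟨-3775, [0, 0, 3500724146600910585771692234190026011852483887583089051618709538]⟩]
    | .twoE => [e00, e00, e00, ⟨-1975, [36532560034]⟩, ⟨-1975, [2396420783476864]⟩]
    | .thrR => [e00, e00, e00, ⟨-4075, [2394201737691441, 8, 0]⟩, ⟨-4075, [2394201737691441, 8, 44185349256901782827309546189493010]⟩, ⟨-2447, [0, 0, 984915700621306872184763780068470262183579215973262526732951975648256815333922]⟩]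
    | .thrL => [e00, e00, e00, ⟨-4075, [174975870903917029148349941588130]⟩, ⟨-4075, [335152779489289849337765343762108119537585489587283215877404743146240429599806169460416776463031466051818812364495392]⟩]
    | .threeE => [e00, e00, e00, ⟨-3500, [613484062717419682]⟩, ⟨-3500, [9361017045297, 8, 612920663116091682]⟩, ⟨-3500, [0, 0, 142772258]⟩]
    | .ring => [e00, e00, e00, ⟨-4300, [1493725890970341996451550291245308438089026954953875669441430003705776852717968773542486178]⟩, ⟨-4300, [106470330150138926711262802839758638785807448033305053241030471398334959711053185597516418726609408492419840816601220276086231281969, 8, 987884004525892905676346493060701475560883388982019551676145645679809351725346]⟩, ⟨-3047, [0, 0, 2634861056309105717246701858]⟩]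
  gq := fun
    | .one => [⟨1671, [2177]⟩, ⟨1296, [40205269111452436279826]⟩, ⟨43, [10292554772068638510297137]⟩, ⟨43, [157051922254239662864]⟩, ⟨43, [252140927326437060000516822984267704750383755381341024377942021912376312425099554, 8, 0]⟩, ⟨43, [12469540446346656931655726212590769553368640750355, 8, 896607974689597409616926458093208890379216160719703869945333093154]⟩, ⟨43, [0, 0, 674532869855914942818666361122]⟩, ⟨43, [0, 0, 9356729397779]⟩]
    | .two => [⟨1442, [557442]⟩, ⟨1442, [2177]⟩, ⟨1442, [2176]⟩, ⟨1442, [675938873728523000446954145826, 8, 0]⟩, ⟨1442, [2401417282748721, 8, 10283104632531525163299106]⟩, ⟨1442, [0, 0, 10283104632523504201765666]⟩]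
    | .twoE => [⟨3242, [8]⟩, ⟨3242, [8]⟩, ⟨3242, [8]⟩, ⟨3242, [142770306]⟩, ⟨3242, [36566040704]⟩]
    | .thrR => [⟨1142, [559120]⟩, ⟨1142, [36532945154]⟩, ⟨1142, [557440]⟩, ⟨1142, [157051921154725546018, 8, 0]⟩, ⟨1142, [36566499633, 8, 2394221877662482]⟩, ⟨1142, [0, 0, 2895764891392833330997361775384967840290]⟩]
    | .thrL => [⟨1142, [142706704]⟩, ⟨1142, [142706704]⟩, ⟨1142, [557440]⟩, ⟨1142, [11316783498215717277984658173418045698]⟩, ⟨1142, [15042574424008001741581137445466545413790092579266209746311009108692046608]⟩]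
    | .threeE => [⟨1717, [8]⟩, ⟨1717, [8]⟩, ⟨1717, [8]⟩, ⟨1717, [2401477411768338]⟩, ⟨1717, [2396420894197778, 8, 36641997330]⟩, ⟨1717, [0, 0, 2178]⟩]
    | .ring => [⟨542, [7045806767786319632665392707680164983258653074200339566588502751194083275725775739256680984979679300474647361554]⟩, ⟨542, [27522682686832769216568164852094673864724920718460040713995722186477582752882464016021372686268457659984382001]⟩, ⟨542, [11316642101381455270534110509295764225]⟩, ⟨542, [252256914731202733991199257558811174203395564643478869685025255846188977140277266]⟩, ⟨542, [252140983865111974094987196180681194521909288478718609325146264743697216604476178, 8, 2894436636953024369117710066693806567714]⟩, ⟨542, [0, 0, 36650058018]⟩]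

/-- mode -/
def s3f_1_m1 : Mode where
  md := .D
  lam := 0
  ct := 0
  gp := fun
    | .one => [e00, e00, e00, e00, e00, e00, e00, e00]
    | .two => [e00, e00, e00, e00, e00, e00]
    | .twoE => [e00, e00, e00, e00, e00]
    | .thrR => [e00, e00, e00, e00, e00, ⟨-1681, [0, 0, 1582698509975029147992502045829795600293397709921228048610824860649081123053619314209090285377198805137950856494492013289105904930445656610]⟩]
    | .thrL => [e00, e00, e00, e00, e00]
    | .threeE => [e00, e00, e00, e00, e00, e00]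
    | .ring => [e00, e00, e00, e00, e00, ⟨-1673, [0, 0, 44165586472509503583962006485672226]⟩]
  gq := fun
    | .one => [⟨1677, [2177]⟩, ⟨1669, [2396392170620947]⟩, e00, e00, e00, e00, e00, e00]
    | .two => [e00, e00, e00, e00, e00, e00]
    | .twoE => [e00, e00, e00, e00, e00]
    | .thrR => [e00, e00, e00, e00, e00, e00]
    | .thrL => [e00, e00, e00, e00, e00]
    | .threeE => [e00, e00, e00, e00, e00, e00]
    | .ring => [e00, e00, e00, e00, e00, e00]

/-- piece -/
def s3f_1 : Piece := ⟨5375, 6000, -820, 820, s3f_1_wp, s3f_1_wq, [s3f_1_m0, s3f_1_m1]⟩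

set_option linter.defProp false

def s3f_1_r0_one0_0 : cellOk stS3F s3f_1 s3f_1_m0 false .one ((stS3F.bins .one).getD 0 b00)
    ((s3f_1_m0.g false .one).getD 0 e00) = true := by decide +kernel

def s3f_1_r0_one0_1 : cellOk stS3F s3f_1 s3f_1_m0 false .one ((stS3F.bins .one).getD 1 b00)
    ((s3f_1_m0.g false .one).getD 1 e00) = true := by decide +kernel

def s3f_1_r0_one0_2 : cellOk stS3F s3f_1 s3f_1_m0 false .one ((stS3F.bins .one).getD 2 b00)
    ((s3f_1_m0.g false .one).getD 2 e00) = true := by decide +kernel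

def s3f_1_r0_one0_3 : cellOk stS3F s3f_1 s3f_1_m0 false .one ((stS3F.bins .one).getD 3 b00)
    ((s3f_1_m0.g false .one).getD 3 e00) = true := by decide +kernel

def s3f_1_r0_one0_4 : cellOk stS3F s3f_1 s3f_1_m0 false .one ((stS3F.bins .one).getD 4 b00)
    ((s3f_1_m0.g false .one).getD 4 e00) = true := by decide +kernel

def s3f_1_r0_one0_5 : cellOk stS3F s3f_1 s3f_1_m0 false .one ((stS3F.bins .one).getD 5 b00)
    ((s3f_1_m0.g false .one).getD 5 e00) = true := by decide +kernel

def s3f_1_r0_one0_6 : cellOk stS3F s3f_1 s3f_1_m0 false .one ((stS3F.bins .one).getD 6 b00)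
    ((s3f_1_m0.g false .one).getD 6 e00) = true := by decide +kernel

def s3f_1_r0_one0_7 : cellOk stS3F s3f_1 s3f_1_m0 false .one ((stS3F.bins .one).getD 7 b00)
    ((s3f_1_m0.g false .one).getD 7 e00) = true := by decide +kernel

theorem s3f_1_r0_one0 : rowsOk stS3F s3f_1 s3f_1_m0 false .one = true := by
  refine rowsOk_of fun i hi => ?_
  have hi : i < 8 := hi
  interval_cases i
  exacts [s3f_1_r0_one0_0, s3f_1_r0_one0_1, s3f_1_r0_one0_2, s3f_1_r0_one0_3, s3f_1_r0_one0_4, s3f_1_r0_one0_5, s3f_1_r0_one0_6, s3f_1_r0_one0_7]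

def s3f_1_r0_one1_0 : cellOk stS3F s3f_1 s3f_1_m0 true .one ((stS3F.bins .one).getD 0 b00)
    ((s3f_1_m0.g true .one).getD 0 e00) = true := by decide +kernel

def s3f_1_r0_one1_1 : cellOk stS3F s3f_1 s3f_1_m0 true .one ((stS3F.bins .one).getD 1 b00)
    ((s3f_1_m0.g true .one).getD 1 e00) = true := by decide +kernel

def s3f_1_r0_one1_2 : cellOk stS3F s3f_1 s3f_1_m0 true .one ((stS3F.bins .one).getD 2 b00)
    ((s3f_1_m0.g true .one).getD 2 e00) = true := by decide +kernel

def s3f_1_r0_one1_3 : cellOk stS3F s3f_1 s3f_1_m0 true .one ((stS3F.bins .one).getD 3 b00)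
    ((s3f_1_m0.g true .one).getD 3 e00) = true := by decide +kernel

def s3f_1_r0_one1_4 : cellOk stS3F s3f_1 s3f_1_m0 true .one ((stS3F.bins .one).getD 4 b00)
    ((s3f_1_m0.g true .one).getD 4 e00) = true := by decide +kernel

def s3f_1_r0_one1_5 : cellOk stS3F s3f_1 s3f_1_m0 true .one ((stS3F.bins .one).getD 5 b00)
    ((s3f_1_m0.g true .one).getD 5 e00) = true := by decide +kernel

def s3f_1_r0_one1_6 : cellOk stS3F s3f_1 s3f_1_m0 true .one ((stS3F.bins .one).getD 6 b00)
    ((s3f_1_m0.g true .one).getD 6 e00) = true := by decide +kernel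

def s3f_1_r0_one1_7 : cellOk stS3F s3f_1 s3f_1_m0 true .one ((stS3F.bins .one).getD 7 b00)
    ((s3f_1_m0.g true .one).getD 7 e00) = true := by decide +kernel

theorem s3f_1_r0_one1 : rowsOk stS3F s3f_1 s3f_1_m0 true .one = true := by
  refine rowsOk_of fun i hi => ?_
  have hi : i < 8 := hi
  interval_cases i
  exacts [s3f_1_r0_one1_0, s3f_1_r0_one1_1, s3f_1_r0_one1_2, s3f_1_r0_one1_3, s3f_1_r0_one1_4, s3f_1_r0_one1_5, s3f_1_r0_one1_6, s3f_1_r0_one1_7]

def s3f_1_r0_two0 : rowsOk stS3F s3f_1 s3f_1_m0 false .two = true := by decide +kernel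

def s3f_1_r0_two1 : rowsOk stS3F s3f_1 s3f_1_m0 true .two = true := by decide +kernel

def s3f_1_r0_twoE0 : rowsOk stS3F s3f_1 s3f_1_m0 false .twoE = true := by decide +kernel

def s3f_1_r0_twoE1 : rowsOk stS3F s3f_1 s3f_1_m0 true .twoE = true := by decide +kernel

def s3f_1_r0_thrR0 : rowsOk stS3F s3f_1 s3f_1_m0 false .thrR = true := by decide +kernel

def s3f_1_r0_thrR1 : rowsOk stS3F s3f_1 s3f_1_m0 true .thrR = true := by decide +kernel

def s3f_1_r0_thrL0 : rowsOk stS3F s3f_1 s3f_1_m0 false .thrL = true := by decide +kernel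

def s3f_1_r0_thrL1 : rowsOk stS3F s3f_1 s3f_1_m0 true .thrL = true := by decide +kernel

def s3f_1_r0_threeE0 : rowsOk stS3F s3f_1 s3f_1_m0 false .threeE = true := by decide +kernel

def s3f_1_r0_threeE1 : rowsOk stS3F s3f_1 s3f_1_m0 true .threeE = true := by decide +kernel

def s3f_1_r0_ring0_0 : cellOk stS3F s3f_1 s3f_1_m0 false .ring ((stS3F.bins .ring).getD 0 b00)
    ((s3f_1_m0.g false .ring).getD 0 e00) = true := by decide +kernel

def s3f_1_r0_ring0_1 : cellOk stS3F s3f_1 s3f_1_m0 false .ring ((stS3F.bins .ring).getD 1 b00)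
    ((s3f_1_m0.g false .ring).getD 1 e00) = true := by decide +kernel

def s3f_1_r0_ring0_2 : cellOk stS3F s3f_1 s3f_1_m0 false .ring ((stS3F.bins .ring).getD 2 b00)
    ((s3f_1_m0.g false .ring).getD 2 e00) = true := by decide +kernel

def s3f_1_r0_ring0_3 : cellOk stS3F s3f_1 s3f_1_m0 false .ring ((stS3F.bins .ring).getD 3 b00)
    ((s3f_1_m0.g false .ring).getD 3 e00) = true := by decide +kernel

def s3f_1_r0_ring0_4 : cellOk stS3F s3f_1 s3f_1_m0 false .ring ((stS3F.bins .ring).getD 4 b00)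
    ((s3f_1_m0.g false .ring).getD 4 e00) = true := by decide +kernel

def s3f_1_r0_ring0_5 : cellOk stS3F s3f_1 s3f_1_m0 false .ring ((stS3F.bins .ring).getD 5 b00)
    ((s3f_1_m0.g false .ring).getD 5 e00) = true := by decide +kernel

theorem s3f_1_r0_ring0 : rowsOk stS3F s3f_1 s3f_1_m0 false .ring = true := by
  refine rowsOk_of fun i hi => ?_
  have hi : i < 6 := hi
  interval_cases i
  exacts [s3f_1_r0_ring0_0, s3f_1_r0_ring0_1, s3f_1_r0_ring0_2, s3f_1_r0_ring0_3, s3f_1_r0_ring0_4, s3f_1_r0_ring0_5]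

def s3f_1_r0_ring1_0 : cellOk stS3F s3f_1 s3f_1_m0 true .ring ((stS3F.bins .ring).getD 0 b00)
    ((s3f_1_m0.g true .ring).getD 0 e00) = true := by decide +kernel

def s3f_1_r0_ring1_1 : cellOk stS3F s3f_1 s3f_1_m0 true .ring ((stS3F.bins .ring).getD 1 b00)
    ((s3f_1_m0.g true .ring).getD 1 e00) = true := by decide +kernel

def s3f_1_r0_ring1_2 : cellOk stS3F s3f_1 s3f_1_m0 true .ring ((stS3F.bins .ring).getD 2 b00)
    ((s3f_1_m0.g true .ring).getD 2 e00) = true := by decide +kernel

def s3f_1_r0_ring1_3 : cellOk stS3F s3f_1 s3f_1_m0 true .ring ((stS3F.bins .ring).getD 3 b00)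
    ((s3f_1_m0.g true .ring).getD 3 e00) = true := by decide +kernel

def s3f_1_r0_ring1_4 : cellOk stS3F s3f_1 s3f_1_m0 true .ring ((stS3F.bins .ring).getD 4 b00)
    ((s3f_1_m0.g true .ring).getD 4 e00) = true := by decide +kernel

def s3f_1_r0_ring1_5 : cellOk stS3F s3f_1 s3f_1_m0 true .ring ((stS3F.bins .ring).getD 5 b00)
    ((s3f_1_m0.g true .ring).getD 5 e00) = true := by decide +kernel

theorem s3f_1_r0_ring1 : rowsOk stS3F s3f_1 s3f_1_m0 true .ring = true := by
  refine rowsOk_of fun i hi => ?_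
  have hi : i < 6 := hi
  interval_cases i
  exacts [s3f_1_r0_ring1_0, s3f_1_r0_ring1_1, s3f_1_r0_ring1_2, s3f_1_r0_ring1_3, s3f_1_r0_ring1_4, s3f_1_r0_ring1_5]

def s3f_1_r1_one0 : rowsOk stS3F s3f_1 s3f_1_m1 false .one = true := by decide +kernel

def s3f_1_r1_one1 : rowsOk stS3F s3f_1 s3f_1_m1 true .one = true := by decide +kernel

def s3f_1_r1_two0 : rowsOk stS3F s3f_1 s3f_1_m1 false .two = true := by decide +kernel

def s3f_1_r1_two1 : rowsOk stS3F s3f_1 s3f_1_m1 true .two = true := by decide +kernel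

def s3f_1_r1_twoE0 : rowsOk stS3F s3f_1 s3f_1_m1 false .twoE = true := by decide +kernel

def s3f_1_r1_twoE1 : rowsOk stS3F s3f_1 s3f_1_m1 true .twoE = true := by decide +kernel

def s3f_1_r1_thrR0 : rowsOk stS3F s3f_1 s3f_1_m1 false .thrR = true := by decide +kernel

def s3f_1_r1_thrR1 : rowsOk stS3F s3f_1 s3f_1_m1 true .thrR = true := by decide +kernel

def s3f_1_r1_thrL0 : rowsOk stS3F s3f_1 s3f_1_m1 false .thrL = true := by decide +kernel

def s3f_1_r1_thrL1 : rowsOk stS3F s3f_1 s3f_1_m1 true .thrL = true := by decide +kernel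

def s3f_1_r1_threeE0 : rowsOk stS3F s3f_1 s3f_1_m1 false .threeE = true := by decide +kernel

def s3f_1_r1_threeE1 : rowsOk stS3F s3f_1 s3f_1_m1 true .threeE = true := by decide +kernel

def s3f_1_r1_ring0 : rowsOk stS3F s3f_1 s3f_1_m1 false .ring = true := by decide +kernel

def s3f_1_r1_ring1 : rowsOk stS3F s3f_1 s3f_1_m1 true .ring = true := by decide +kernel

theorem s3f_1_r0 : allRows stS3F s3f_1 s3f_1_m0 = true := by
  refine allRows_of fun P => ?_
  cases P
  exacts [⟨s3f_1_r0_one0, s3f_1_r0_one1⟩,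
    ⟨s3f_1_r0_two0, s3f_1_r0_two1⟩,
    ⟨s3f_1_r0_twoE0, s3f_1_r0_twoE1⟩,
    ⟨s3f_1_r0_thrR0, s3f_1_r0_thrR1⟩,
    ⟨s3f_1_r0_thrL0, s3f_1_r0_thrL1⟩,
    ⟨s3f_1_r0_threeE0, s3f_1_r0_threeE1⟩,
    ⟨s3f_1_r0_ring0, s3f_1_r0_ring1⟩]

theorem s3f_1_r1 : allRows stS3F s3f_1 s3f_1_m1 = true := by
  refine allRows_of fun P => ?_
  cases P
  exacts [⟨s3f_1_r1_one0, s3f_1_r1_one1⟩,
    ⟨s3f_1_r1_two0, s3f_1_r1_two1⟩,
    ⟨s3f_1_r1_twoE0, s3f_1_r1_twoE1⟩,
    ⟨s3f_1_r1_thrR0, s3f_1_r1_thrR1⟩,
    ⟨s3f_1_r1_thrL0, s3f_1_r1_thrL1⟩,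
    ⟨s3f_1_r1_threeE0, s3f_1_r1_threeE1⟩,
    ⟨s3f_1_r1_ring0, s3f_1_r1_ring1⟩]

theorem s3f_1_ok : s3f_1.ok stS3F = true := by
  have h : (PC.all.all fun P => PC.all.all fun Q => pairOk stS3F s3f_1 P Q) = true := by decide +kernel
  have d0 : mdOk stS3F s3f_1_m0.md = true := by decide +kernel
  have d1 : mdOk stS3F s3f_1_m1.md = true := by decide +kernel
  unfold Piece.ok
  rw [h, Bool.true_and]
  show List.all [s3f_1_m0, s3f_1_m1] _ = true
  rw [List.all_eq_true]
  intro m hm
  simp only [List.mem_cons, List.not_mem_nil, or_false] at hm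
  rcases hm with rfl | rfl
  · rw [s3f_1_r0, d0]; rfl
  · rw [s3f_1_r1, d1]; rfl

end OR

end Pool.Agent.Work.MP_b30479_gt.G2
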