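import Pool.Agent.Work.MP_b30479_gt.G2.OStS
import Pool.Agent.Work.MP_b30479_gt.G2.ORows

namespace Pool.Agent.Work.MP_b30479_gt.G2

namespace OR

/-- windows -/
def s3l_0_wp : PC → Win
  | .one => ⟨0, 0, 0, 0, 0, 0⟩
  | .two => ⟨-30, 780, -50, 1100, -290, 620⟩
  | .twoE => ⟨-610, -170, -220, 530, 190, 820⟩
  | .thrR => ⟨310, 930, 280, 1270, -240, 580⟩
  | .thrL => ⟨310, 930, 280, 1270, -240, 580⟩
  | .threeE => ⟨160, 600, 360, 1170, 10, 740⟩
  | .ring => ⟨480, 1330, 470, 1500, -430, 610⟩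

/-- windows -/
def s3l_0_wq : PC → Win
  | .one => ⟨-890, 530, -920, 440, -820, 430⟩
  | .two => ⟨0, 0, 0, 0, 0, 0⟩
  | .twoE => ⟨0, 0, 0, 0, 0, 0⟩
  | .thrR => ⟨0, 0, 0, 0, 0, 0⟩
  | .thrL => ⟨0, 0, 0, 0, 0, 0⟩
  | .threeE => ⟨0, 0, 0, 0, 0, 0⟩
  | .ring => ⟨0, 0, 0, 0, 0, 0⟩

/-- mode -/
def s3l_0_m0 : Mode where
  md := .D
  lam := 500
  ct := 0
  gp := fun
    | .one => [e00, e00, e00, e00, e00, e00, e00, e00]
    | .two => [e00, e00, e00, e00, e00, e00]
    | .twoE => [e00, e00, e00, e00, e00]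
    | .thrR => [e00, e00, e00, e00, e00, ⟨-4775, [48537879614342504007456497337605687422402724129, 559123, 142836144]⟩]
    | .thrL => [e00, e00, e00, e00, e00]
    | .threeE => [e00, e00, e00, e00, e00, ⟨-4660, [743349613641003633778567984863094152757920]⟩]
    | .ring => [e00, e00, e00, e00, e00, ⟨-4895, [40204716998186917627937, 36641996819, 36532916656]⟩]
  gq := fun
    | .one => [⟨4291, [8]⟩, ⟨4291, [9381149181971]⟩, ⟨4291, [36566480912]⟩, ⟨4291, [9361017026576]⟩, ⟨4291, [673913471604909821673716417282]⟩, ⟨4291, [11306390216222554761215145841944396034]⟩, ⟨4291, [521899291958196097874412648370546942026142712598921679252610980356375987951547275611095567702186330215653922427421620000544804394148548861529258323082835176138768718096972944841932585815938681123968415838006747926796059063423837585846496151537393790619577684898765249558927099840276558685757010210363595285813090940500415798965829012816724845138720]⟩, ⟨4291, [1082439577019267962195377247239922430251440282947893194398793877447491990080523692104946434,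 8, 3192202354302846520639972208680802551736983655289618]⟩]
    | .two => [e00, e00, e00, e00, e00, e00]
    | .twoE => [e00, e00, e00, e00, e00]
    | .thrR => [e00, e00, e00, e00, e00, e00]
    | .thrL => [e00, e00, e00, e00, e00]
    | .threeE => [e00, e00, e00, e00, e00, e00]
    | .ring => [e00, e00, e00, e00, e00, e00]

/-- piece -/
def s3l_0 : Piece := ⟨3000, 3875, -820, 820, s3l_0_wp, s3l_0_wq, [s3l_0_m0]⟩

set_option linter.defProp false

def s3l_0_r0_one0 : rowsOk stS3L s3l_0 s3l_0_m0 false .one = true := by decide +kernel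

def s3l_0_r0_one1_0 : cellOk stS3L s3l_0 s3l_0_m0 true .one ((stS3L.bins .one).getD 0 b00)
    ((s3l_0_m0.g true .one).getD 0 e00) = true := by decide +kernel

def s3l_0_r0_one1_1 : cellOk stS3L s3l_0 s3l_0_m0 true .one ((stS3L.bins .one).getD 1 b00)
    ((s3l_0_m0.g true .one).getD 1 e00) = true := by decide +kernel

def s3l_0_r0_one1_2 : cellOk stS3L s3l_0 s3l_0_m0 true .one ((stS3L.bins .one).getD 2 b00)
    ((s3l_0_m0.g true .one).getD 2 e00) = true := by decide +kernel

def s3l_0_r0_one1_3 : cellOk stS3L s3l_0 s3l_0_m0 true .one ((stS3L.bins .one).getD 3 b00)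
    ((s3l_0_m0.g true .one).getD 3 e00) = true := by decide +kernel

def s3l_0_r0_one1_4 : cellOk stS3L s3l_0 s3l_0_m0 true .one ((stS3L.bins .one).getD 4 b00)
    ((s3l_0_m0.g true .one).getD 4 e00) = true := by decide +kernel

def s3l_0_r0_one1_5 : cellOk stS3L s3l_0 s3l_0_m0 true .one ((stS3L.bins .one).getD 5 b00)
    ((s3l_0_m0.g true .one).getD 5 e00) = true := by decide +kernel

def s3l_0_r0_one1_6 : cellOk stS3L s3l_0 s3l_0_m0 true .one ((stS3L.bins .one).getD 6 b00)
    ((s3l_0_m0.g true .one).getD 6 e00) = true := by decide +kernel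

def s3l_0_r0_one1_7 : cellOk stS3L s3l_0 s3l_0_m0 true .one ((stS3L.bins .one).getD 7 b00)
    ((s3l_0_m0.g true .one).getD 7 e00) = true := by decide +kernel

theorem s3l_0_r0_one1 : rowsOk stS3L s3l_0 s3l_0_m0 true .one = true := by
  refine rowsOk_of fun i hi => ?_
  have hi : i < 8 := hi
  interval_cases i
  exacts [s3l_0_r0_one1_0, s3l_0_r0_one1_1, s3l_0_r0_one1_2, s3l_0_r0_one1_3, s3l_0_r0_one1_4, s3l_0_r0_one1_5, s3l_0_r0_one1_6, s3l_0_r0_one1_7]

def s3l_0_r0_two0 : rowsOk stS3L s3l_0 s3l_0_m0 false .two = true := by decide +kernel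

def s3l_0_r0_two1 : rowsOk stS3L s3l_0 s3l_0_m0 true .two = true := by decide +kernel

def s3l_0_r0_twoE0 : rowsOk stS3L s3l_0 s3l_0_m0 false .twoE = true := by decide +kernel

def s3l_0_r0_twoE1 : rowsOk stS3L s3l_0 s3l_0_m0 true .twoE = true := by decide +kernel

def s3l_0_r0_thrR0 : rowsOk stS3L s3l_0 s3l_0_m0 false .thrR = true := by decide +kernel

def s3l_0_r0_thrR1 : rowsOk stS3L s3l_0 s3l_0_m0 true .thrR = true := by decide +kernel

def s3l_0_r0_thrL0 : rowsOk stS3L s3l_0 s3l_0_m0 false .thrL = true := by decide +kernel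

def s3l_0_r0_thrL1 : rowsOk stS3L s3l_0 s3l_0_m0 true .thrL = true := by decide +kernel

def s3l_0_r0_threeE0 : rowsOk stS3L s3l_0 s3l_0_m0 false .threeE = true := by decide +kernel

def s3l_0_r0_threeE1 : rowsOk stS3L s3l_0 s3l_0_m0 true .threeE = true := by decide +kernel

def s3l_0_r0_ring0 : rowsOk stS3L s3l_0 s3l_0_m0 false .ring = true := by decide +kernel

def s3l_0_r0_ring1 : rowsOk stS3L s3l_0 s3l_0_m0 true .ring = true := by decide +kernel

theorem s3l_0_r0 : allRows stS3L s3l_0 s3l_0_m0 = true := by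
  refine allRows_of fun P => ?_
  cases P
  exacts [⟨s3l_0_r0_one0, s3l_0_r0_one1⟩,
    ⟨s3l_0_r0_two0, s3l_0_r0_two1⟩,
    ⟨s3l_0_r0_twoE0, s3l_0_r0_twoE1⟩,
    ⟨s3l_0_r0_thrR0, s3l_0_r0_thrR1⟩,
    ⟨s3l_0_r0_thrL0, s3l_0_r0_thrL1⟩,
    ⟨s3l_0_r0_threeE0, s3l_0_r0_threeE1⟩,
    ⟨s3l_0_r0_ring0, s3l_0_r0_ring1⟩]

theorem s3l_0_ok : s3l_0.ok stS3L = true := by
  have h : (PC.all.all fun P => PC.all.all fun Q => pairOk stS3L s3l_0 P Q) = true := by decide +kernel
  have d0 : mdOk stS3L s3l_0_m0.md = true := by decide +kernel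
  unfold Piece.ok
  rw [h, Bool.true_and]
  show List.all [s3l_0_m0] _ = true
  rw [List.all_eq_true]
  intro m hm
  simp only [List.mem_cons, List.not_mem_nil, or_false] at hm
  rcases hm with rfl
  · rw [s3l_0_r0, d0]; rfl

end OR

end Pool.Agent.Work.MP_b30479_gt.G2
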