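import Pool.Agent.Work.MP_b30479_gt.G2.OStS
import Pool.Agent.Work.MP_b30479_gt.G2.ORows

namespace Pool.Agent.Work.MP_b30479_gt.G2

namespace OR

/-- windows -/
def s3l_1_wp : PC → Win
  | .one => ⟨0, 0, 0, 0, 0, 0⟩
  | .two => ⟨-30, 780, -50, 1100, -290, 620⟩
  | .twoE => ⟨-610, -170, -220, 530, 190, 820⟩
  | .thrR => ⟨310, 930, 280, 1270, -240, 580⟩
  | .thrL => ⟨310, 930, 280, 1270, -240, 580⟩
  | .threeE => ⟨160, 600, 360, 1170, 10, 740⟩
  | .ring => ⟨480, 1330, 470, 1500, -430, 610⟩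

/-- windows -/
def s3l_1_wq : PC → Win
  | .one => ⟨-890, 530, -920, 440, -820, 430⟩
  | .two => ⟨0, 0, 0, 0, 0, 0⟩
  | .twoE => ⟨0, 0, 0, 0, 0, 0⟩
  | .thrR => ⟨0, 0, 0, 0, 0, 0⟩
  | .thrL => ⟨0, 0, 0, 0, 0, 0⟩
  | .threeE => ⟨0, 0, 0, 0, 0, 0⟩
  | .ring => ⟨0, 0, 0, 0, 0, 0⟩

/-- mode -/
def s3l_1_m0 : Mode where
  md := .D
  lam := 1500
  ct := 0
  gp := fun
    | .one => [e00, e00, e00, e00, e00, e00, e00, e00]
    | .two => [e00, e00, e00, e00, ⟨-4079, [35295716417905820639269568471076902369547248005382891543317181753117385683352147960316218853988092109736961707601730346100042177876327469633528293693835681554823134693385213334167714]⟩, ⟨-4079, [12425796952076325432978993514806997562080966705457, 8, 157374216471279310897]⟩]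
    | .twoE => [e00, e00, e00, e00, e00]
    | .thrR => [e00, e00, e00, e00, ⟨-4259, [4653332563703112192266432510956968863027741922276967012031166207737173657954395089198555783059644578]⟩, ⟨-4259, [5628031636247558596764288732534803153890885582159718809760608995046898986858999766467982165348798574509291211240318983213617, 8, 48705048027325752573346436857335689816735490338]⟩]
    | .thrL => [e00, e00, e00, e00, e00]
    | .threeE => [e00, e00, e00, e00, ⟨-3914, [142641169, 8, 0]⟩, ⟨-3914, [142641169, 8, 559122]⟩]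
    | .ring => [e00, e00, e00, e00, ⟨-4619, [814326104796079042545151996317376430632428134495060497, 8, 0]⟩, ⟨-4619, [814326104796079042545151996317376430632428134495060497, 8, 44185865652370577373868718047633698]⟩]
  gq := fun
    | .one => [⟨2815, [8]⟩, ⟨2815, [9352426784818]⟩, ⟨2815, [142837776]⟩, ⟨2815, [559152]⟩, ⟨2815, [2634892534934782086201487874]⟩, ⟨2815, [13668587058991637584279538738870922696223037136943873861892130, 8, 0]⟩, ⟨2815, [189689750837324610847616484216582246562824498, 8, 189689958920884552211961381958914852382060850]⟩, ⟨2815, [0, 8, 4665150308753300857069592507518984614715520633261298275975073845865465672570385293182953599743898146]⟩]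
    | .two => [e00, e00, e00, e00, e00, e00]
    | .twoE => [e00, e00, e00, e00, e00]
    | .thrR => [e00, e00, e00, e00, e00, e00]
    | .thrL => [e00, e00, e00, e00, e00]
    | .threeE => [e00, e00, e00, e00, e00, e00]
    | .ring => [e00, e00, e00, e00, e00, e00]

/-- piece -/
def s3l_1 : Piece := ⟨3875, 4750, -820, 820, s3l_1_wp, s3l_1_wq, [s3l_1_m0]⟩

set_option linter.defProp false

def s3l_1_r0_one0 : rowsOk stS3L s3l_1 s3l_1_m0 false .one = true := by decide +kernel

def s3l_1_r0_one1_0 : cellOk stS3L s3l_1 s3l_1_m0 true .one ((stS3L.bins .one).getD 0 b00)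
    ((s3l_1_m0.g true .one).getD 0 e00) = true := by decide +kernel

def s3l_1_r0_one1_1 : cellOk stS3L s3l_1 s3l_1_m0 true .one ((stS3L.bins .one).getD 1 b00)
    ((s3l_1_m0.g true .one).getD 1 e00) = true := by decide +kernel

def s3l_1_r0_one1_2 : cellOk stS3L s3l_1 s3l_1_m0 true .one ((stS3L.bins .one).getD 2 b00)
    ((s3l_1_m0.g true .one).getD 2 e00) = true := by decide +kernel

def s3l_1_r0_one1_3 : cellOk stS3L s3l_1 s3l_1_m0 true .one ((stS3L.bins .one).getD 3 b00)
    ((s3l_1_m0.g true .one).getD 3 e00) = true := by decide +kernel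

def s3l_1_r0_one1_4 : cellOk stS3L s3l_1 s3l_1_m0 true .one ((stS3L.bins .one).getD 4 b00)
    ((s3l_1_m0.g true .one).getD 4 e00) = true := by decide +kernel

def s3l_1_r0_one1_5 : cellOk stS3L s3l_1 s3l_1_m0 true .one ((stS3L.bins .one).getD 5 b00)
    ((s3l_1_m0.g true .one).getD 5 e00) = true := by decide +kernel

def s3l_1_r0_one1_6 : cellOk stS3L s3l_1 s3l_1_m0 true .one ((stS3L.bins .one).getD 6 b00)
    ((s3l_1_m0.g true .one).getD 6 e00) = true := by decide +kernel

def s3l_1_r0_one1_7 : cellOk stS3L s3l_1 s3l_1_m0 true .one ((stS3L.bins .one).getD 7 b00)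
    ((s3l_1_m0.g true .one).getD 7 e00) = true := by decide +kernel

theorem s3l_1_r0_one1 : rowsOk stS3L s3l_1 s3l_1_m0 true .one = true := by
  refine rowsOk_of fun i hi => ?_
  have hi : i < 8 := hi
  interval_cases i
  exacts [s3l_1_r0_one1_0, s3l_1_r0_one1_1, s3l_1_r0_one1_2, s3l_1_r0_one1_3, s3l_1_r0_one1_4, s3l_1_r0_one1_5, s3l_1_r0_one1_6, s3l_1_r0_one1_7]

def s3l_1_r0_two0 : rowsOk stS3L s3l_1 s3l_1_m0 false .two = true := by decide +kernel

def s3l_1_r0_two1 : rowsOk stS3L s3l_1 s3l_1_m0 true .two = true := by decide +kernel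

def s3l_1_r0_twoE0 : rowsOk stS3L s3l_1 s3l_1_m0 false .twoE = true := by decide +kernel

def s3l_1_r0_twoE1 : rowsOk stS3L s3l_1 s3l_1_m0 true .twoE = true := by decide +kernel

def s3l_1_r0_thrR0_0 : cellOk stS3L s3l_1 s3l_1_m0 false .thrR ((stS3L.bins .thrR).getD 0 b00)
    ((s3l_1_m0.g false .thrR).getD 0 e00) = true := by decide +kernel

def s3l_1_r0_thrR0_1 : cellOk stS3L s3l_1 s3l_1_m0 false .thrR ((stS3L.bins .thrR).getD 1 b00)
    ((s3l_1_m0.g false .thrR).getD 1 e00) = true := by decide +kernel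

def s3l_1_r0_thrR0_2 : cellOk stS3L s3l_1 s3l_1_m0 false .thrR ((stS3L.bins .thrR).getD 2 b00)
    ((s3l_1_m0.g false .thrR).getD 2 e00) = true := by decide +kernel

def s3l_1_r0_thrR0_3 : cellOk stS3L s3l_1 s3l_1_m0 false .thrR ((stS3L.bins .thrR).getD 3 b00)
    ((s3l_1_m0.g false .thrR).getD 3 e00) = true := by decide +kernel

def s3l_1_r0_thrR0_4 : cellOk stS3L s3l_1 s3l_1_m0 false .thrR ((stS3L.bins .thrR).getD 4 b00)
    ((s3l_1_m0.g false .thrR).getD 4 e00) = true := by decide +kernel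

def s3l_1_r0_thrR0_5 : cellOk stS3L s3l_1 s3l_1_m0 false .thrR ((stS3L.bins .thrR).getD 5 b00)
    ((s3l_1_m0.g false .thrR).getD 5 e00) = true := by decide +kernel

theorem s3l_1_r0_thrR0 : rowsOk stS3L s3l_1 s3l_1_m0 false .thrR = true := by
  refine rowsOk_of fun i hi => ?_
  have hi : i < 6 := hi
  interval_cases i
  exacts [s3l_1_r0_thrR0_0, s3l_1_r0_thrR0_1, s3l_1_r0_thrR0_2, s3l_1_r0_thrR0_3, s3l_1_r0_thrR0_4, s3l_1_r0_thrR0_5]

def s3l_1_r0_thrR1 : rowsOk stS3L s3l_1 s3l_1_m0 true .thrR = true := by decide +kernel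

def s3l_1_r0_thrL0 : rowsOk stS3L s3l_1 s3l_1_m0 false .thrL = true := by decide +kernel

def s3l_1_r0_thrL1 : rowsOk stS3L s3l_1 s3l_1_m0 true .thrL = true := by decide +kernel

def s3l_1_r0_threeE0 : rowsOk stS3L s3l_1 s3l_1_m0 false .threeE = true := by decide +kernel

def s3l_1_r0_threeE1 : rowsOk stS3L s3l_1 s3l_1_m0 true .threeE = true := by decide +kernel

def s3l_1_r0_ring0 : rowsOk stS3L s3l_1 s3l_1_m0 false .ring = true := by decide +kernel

def s3l_1_r0_ring1 : rowsOk stS3L s3l_1 s3l_1_m0 true .ring = true := by decide +kernel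

theorem s3l_1_r0 : allRows stS3L s3l_1 s3l_1_m0 = true := by
  refine allRows_of fun P => ?_
  cases P
  exacts [⟨s3l_1_r0_one0, s3l_1_r0_one1⟩,
    ⟨s3l_1_r0_two0, s3l_1_r0_two1⟩,
    ⟨s3l_1_r0_twoE0, s3l_1_r0_twoE1⟩,
    ⟨s3l_1_r0_thrR0, s3l_1_r0_thrR1⟩,
    ⟨s3l_1_r0_thrL0, s3l_1_r0_thrL1⟩,
    ⟨s3l_1_r0_threeE0, s3l_1_r0_threeE1⟩,
    ⟨s3l_1_r0_ring0, s3l_1_r0_ring1⟩]

theorem s3l_1_ok : s3l_1.ok stS3L = true := by
  have h : (PC.all.all fun P => PC.all.all fun Q => pairOk stS3L s3l_1 P Q) = true := by decide +kernel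
  have d0 : mdOk stS3L s3l_1_m0.md = true := by decide +kernel
  unfold Piece.ok
  rw [h, Bool.true_and]
  show List.all [s3l_1_m0] _ = true
  rw [List.all_eq_true]
  intro m hm
  simp only [List.mem_cons, List.not_mem_nil, or_false] at hm
  rcases hm with rfl
  · rw [s3l_1_r0, d0]; rfl

end OR

end Pool.Agent.Work.MP_b30479_gt.G2
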