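import Pool.Agent.Work.MP_b30479_gt.G2.OS3r_0d
import Pool.Agent.Work.MP_b30479_gt.G2.ORows
import Pool.Agent.Work.MP_b30479_gt.G2.OStS

namespace Pool.Agent.Work.MP_b30479_gt.G2

namespace OR

set_option linter.defProp false

def s3r_0_r0_two1_0 : cellOk stS3R s3r_0 s3r_0_m0 true .two ((stS3R.bins .two).getD 0 b00)
    ((s3r_0_m0.g true .two).getD 0 e00) = true := by decide +kernel

def s3r_0_r0_two1_1 : cellOk stS3R s3r_0 s3r_0_m0 true .two ((stS3R.bins .two).getD 1 b00)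
    ((s3r_0_m0.g true .two).getD 1 e00) = true := by decide +kernel

def s3r_0_r0_two1_2 : cellOk stS3R s3r_0 s3r_0_m0 true .two ((stS3R.bins .two).getD 2 b00)
    ((s3r_0_m0.g true .two).getD 2 e00) = true := by decide +kernel

def s3r_0_r0_two1_3 : cellOk stS3R s3r_0 s3r_0_m0 true .two ((stS3R.bins .two).getD 3 b00)
    ((s3r_0_m0.g true .two).getD 3 e00) = true := by decide +kernel

def s3r_0_r0_two1_4 : cellOk stS3R s3r_0 s3r_0_m0 true .two ((stS3R.bins .two).getD 4 b00)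
    ((s3r_0_m0.g true .two).getD 4 e00) = true := by decide +kernel

def s3r_0_r0_two1_5 : cellOk stS3R s3r_0 s3r_0_m0 true .two ((stS3R.bins .two).getD 5 b00)
    ((s3r_0_m0.g true .two).getD 5 e00) = true := by decide +kernel

theorem s3r_0_r0_two1 : rowsOk stS3R s3r_0 s3r_0_m0 true .two = true := by
  refine rowsOk_of fun i hi => ?_
  have hi : i < 6 := hi
  interval_cases i
  exacts [s3r_0_r0_two1_0, s3r_0_r0_two1_1, s3r_0_r0_two1_2, s3r_0_r0_two1_3, s3r_0_r0_two1_4, s3r_0_r0_two1_5]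

def s3r_0_r0_twoE0 : rowsOk stS3R s3r_0 s3r_0_m0 false .twoE = true := by decide +kernel

def s3r_0_r0_twoE1 : rowsOk stS3R s3r_0 s3r_0_m0 true .twoE = true := by decide +kernel

def s3r_0_r0_thrR0_0 : cellOk stS3R s3r_0 s3r_0_m0 false .thrR ((stS3R.bins .thrR).getD 0 b00)
    ((s3r_0_m0.g false .thrR).getD 0 e00) = true := by decide +kernel

def s3r_0_r0_thrR0_1 : cellOk stS3R s3r_0 s3r_0_m0 false .thrR ((stS3R.bins .thrR).getD 1 b00)
    ((s3r_0_m0.g false .thrR).getD 1 e00) = true := by decide +kernel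

def s3r_0_r0_thrR0_2 : cellOk stS3R s3r_0 s3r_0_m0 false .thrR ((stS3R.bins .thrR).getD 2 b00)
    ((s3r_0_m0.g false .thrR).getD 2 e00) = true := by decide +kernel

def s3r_0_r0_thrR0_3 : cellOk stS3R s3r_0 s3r_0_m0 false .thrR ((stS3R.bins .thrR).getD 3 b00)
    ((s3r_0_m0.g false .thrR).getD 3 e00) = true := by decide +kernel

def s3r_0_r0_thrR0_4 : cellOk stS3R s3r_0 s3r_0_m0 false .thrR ((stS3R.bins .thrR).getD 4 b00)
    ((s3r_0_m0.g false .thrR).getD 4 e00) = true := by decide +kernel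

def s3r_0_r0_thrR0_5 : cellOk stS3R s3r_0 s3r_0_m0 false .thrR ((stS3R.bins .thrR).getD 5 b00)
    ((s3r_0_m0.g false .thrR).getD 5 e00) = true := by decide +kernel

theorem s3r_0_r0_thrR0 : rowsOk stS3R s3r_0 s3r_0_m0 false .thrR = true := by
  refine rowsOk_of fun i hi => ?_
  have hi : i < 6 := hi
  interval_cases i
  exacts [s3r_0_r0_thrR0_0, s3r_0_r0_thrR0_1, s3r_0_r0_thrR0_2, s3r_0_r0_thrR0_3, s3r_0_r0_thrR0_4, s3r_0_r0_thrR0_5]

def s3r_0_r0_thrR1 : rowsOk stS3R s3r_0 s3r_0_m0 true .thrR = true := by decide +kernel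

def s3r_0_r0_thrL0 : rowsOk stS3R s3r_0 s3r_0_m0 false .thrL = true := by decide +kernel

def s3r_0_r0_thrL1 : rowsOk stS3R s3r_0 s3r_0_m0 true .thrL = true := by decide +kernel

def s3r_0_r0_threeE0 : rowsOk stS3R s3r_0 s3r_0_m0 false .threeE = true := by decide +kernel

def s3r_0_r0_threeE1 : rowsOk stS3R s3r_0 s3r_0_m0 true .threeE = true := by decide +kernel

def s3r_0_r0_ring0 : rowsOk stS3R s3r_0 s3r_0_m0 false .ring = true := by decide +kernel

def s3r_0_r0_ring1 : rowsOk stS3R s3r_0 s3r_0_m0 true .ring = true := by decide +kernel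

end OR

end Pool.Agent.Work.MP_b30479_gt.G2
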