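import Pool.Agent.Work.MP_b30479_gt.G2.OS3r_0d
import Pool.Agent.Work.MP_b30479_gt.G2.ORows
import Pool.Agent.Work.MP_b30479_gt.G2.OStS
import Pool.Agent.Work.MP_b30479_gt.G2.ORowS

namespace Pool.Agent.Work.MP_b30479_gt.G2

open NumU

namespace OR

set_option linter.defProp false

def s3r_0_r1_one0_0 : cellOk stS3R s3r_0 s3r_0_m1 false .one ((stS3R.bins .one).getD 0 b00)
    ((s3r_0_m1.g false .one).getD 0 e00) = true := by decide +kernel

def s3r_0_r1_one0_1 : cellOk stS3R s3r_0 s3r_0_m1 false .one ((stS3R.bins .one).getD 1 b00)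
    ((s3r_0_m1.g false .one).getD 1 e00) = true := by decide +kernel

def s3r_0_r1_one0_2 : cellOk stS3R s3r_0 s3r_0_m1 false .one ((stS3R.bins .one).getD 2 b00)
    ((s3r_0_m1.g false .one).getD 2 e00) = true := by decide +kernel

def s3r_0_r1_one0_3 : cellOk stS3R s3r_0 s3r_0_m1 false .one ((stS3R.bins .one).getD 3 b00)
    ((s3r_0_m1.g false .one).getD 3 e00) = true := by decide +kernel

/-- check -/
def s3r_0_r1_one0_4_x0 : Ck := (cks stS3R s3r_0 s3r_0_m1 false .one
    ((stS3R.bins .one).getD 4 b00)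
    ((s3r_0_m1.g false .one).getD 4 e00).g).getD 0 ckd

theorem s3r_0_r1_one0_4_k0 : ck1 s3r_0_r1_one0_4_x0 (((s3r_0_m1.g false .one).getD 4 e00).c.getD 0 0) = true := by
  decide +kernel

/-- check -/
def s3r_0_r1_one0_4_x1 : Ck := (cks stS3R s3r_0 s3r_0_m1 false .one
    ((stS3R.bins .one).getD 4 b00)
    ((s3r_0_m1.g false .one).getD 4 e00).g).getD 1 ckd

theorem s3r_0_r1_one0_4_k1 : ck1 s3r_0_r1_one0_4_x1 (((s3r_0_m1.g false .one).getD 4 e00).c.getD 1 0) = true := by
  decide +kernel

/-- check -/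
def s3r_0_r1_one0_4_x2 : Ck := (cks stS3R s3r_0 s3r_0_m1 false .one
    ((stS3R.bins .one).getD 4 b00)
    ((s3r_0_m1.g false .one).getD 4 e00).g).getD 2 ckd

theorem s3r_0_r1_one0_4_k2 : ck1 s3r_0_r1_one0_4_x2 (((s3r_0_m1.g false .one).getD 4 e00).c.getD 2 0) = true := by
  decide +kernel

/-- check -/
def s3r_0_r1_one0_4_x3 : Ck := (cks stS3R s3r_0 s3r_0_m1 false .one
    ((stS3R.bins .one).getD 4 b00)
    ((s3r_0_m1.g false .one).getD 4 e00).g).getD 3 ckd

theorem s3r_0_r1_one0_4_k3 : ck1 s3r_0_r1_one0_4_x3 (((s3r_0_m1.g false .one).getD 4 e00).c.getD 3 0) = true := by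
  decide +kernel

/-- check -/
def s3r_0_r1_one0_4_x4 : Ck := (cks stS3R s3r_0 s3r_0_m1 false .one
    ((stS3R.bins .one).getD 4 b00)
    ((s3r_0_m1.g false .one).getD 4 e00).g).getD 4 ckd

theorem s3r_0_r1_one0_4_k4 : ck1 s3r_0_r1_one0_4_x4 (((s3r_0_m1.g false .one).getD 4 e00).c.getD 4 0) = true := by
  decide +kernel

/-- check -/
def s3r_0_r1_one0_4_x5 : Ck := (cks stS3R s3r_0 s3r_0_m1 false .one
    ((stS3R.bins .one).getD 4 b00)
    ((s3r_0_m1.g false .one).getD 4 e00).g).getD 5 ckd

theorem s3r_0_r1_one0_4_k5 : ck1 s3r_0_r1_one0_4_x5 (((s3r_0_m1.g false .one).getD 4 e00).c.getD 5 0) = true := by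
  decide +kernel

def s3r_0_r1_one0_4 : cellOk stS3R s3r_0 s3r_0_m1 false .one ((stS3R.bins .one).getD 4 b00)
    ((s3r_0_m1.g false .one).getD 4 e00) = true :=
  cellOk_of 6 (by decide +kernel) (by decide +kernel) fun k hk => by
    interval_cases k
    exacts [s3r_0_r1_one0_4_k0, s3r_0_r1_one0_4_k1, s3r_0_r1_one0_4_k2, s3r_0_r1_one0_4_k3, s3r_0_r1_one0_4_k4, s3r_0_r1_one0_4_k5]

/-- check -/
def s3r_0_r1_one0_5_x0 : Ck := (cks stS3R s3r_0 s3r_0_m1 false .one
    ((stS3R.bins .one).getD 5 b00)
    ((s3r_0_m1.g false .one).getD 5 e00).g).getD 0 ckd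

theorem s3r_0_r1_one0_5_k0 : ck1 s3r_0_r1_one0_5_x0 (((s3r_0_m1.g false .one).getD 5 e00).c.getD 0 0) = true := by
  decide +kernel

/-- check -/
def s3r_0_r1_one0_5_x1 : Ck := (cks stS3R s3r_0 s3r_0_m1 false .one
    ((stS3R.bins .one).getD 5 b00)
    ((s3r_0_m1.g false .one).getD 5 e00).g).getD 1 ckd

theorem s3r_0_r1_one0_5_k1 : ck1 s3r_0_r1_one0_5_x1 (((s3r_0_m1.g false .one).getD 5 e00).c.getD 1 0) = true := by
  decide +kernel

/-- check -/
def s3r_0_r1_one0_5_x2 : Ck := (cks stS3R s3r_0 s3r_0_m1 false .one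
    ((stS3R.bins .one).getD 5 b00)
    ((s3r_0_m1.g false .one).getD 5 e00).g).getD 2 ckd

theorem s3r_0_r1_one0_5_k2 : ck1 s3r_0_r1_one0_5_x2 (((s3r_0_m1.g false .one).getD 5 e00).c.getD 2 0) = true := by
  decide +kernel

/-- check -/
def s3r_0_r1_one0_5_x3 : Ck := (cks stS3R s3r_0 s3r_0_m1 false .one
    ((stS3R.bins .one).getD 5 b00)
    ((s3r_0_m1.g false .one).getD 5 e00).g).getD 3 ckd

theorem s3r_0_r1_one0_5_k3 : ck1 s3r_0_r1_one0_5_x3 (((s3r_0_m1.g false .one).getD 5 e00).c.getD 3 0) = true := by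
  decide +kernel

/-- check -/
def s3r_0_r1_one0_5_x4 : Ck := (cks stS3R s3r_0 s3r_0_m1 false .one
    ((stS3R.bins .one).getD 5 b00)
    ((s3r_0_m1.g false .one).getD 5 e00).g).getD 4 ckd

theorem s3r_0_r1_one0_5_k4_q1 : runT s3r_0_r1_one0_5_x4.2.1 39
    3777157146700291331162773195595118136210593153801142998056396996810445583913422636481288457269892212327492371851847728546651235410810366214439464651664432728633464738349273220180016139609037614688446183075294346052616513952266447184209268787957380258129107657037950294760102179102575121417219063083780507218195939054393743813360986163966852497476521618684707968476260609856480203889314338210914466023792939216914049747989026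
    (NumI.setL 2 (s3r_0_r1_one0_5_x4.2.2)) =
    14564233666317377217380622235738374735476287550962505665268584862286135875819562691892637191303333235137555040814222987429861840143920490176207385608488186232041707138091557656966462698843416528061737399353647614549912574813939120002540616515891 := by
  decide +kernel

theorem s3r_0_r1_one0_5_k4_q2 : runT s3r_0_r1_one0_5_x4.2.1 39
    14564233666317377217380622235738374735476287550962505665268584862286135875819562691892637191303333235137555040814222987429861840143920490176207385608488186232041707138091557656966462698843416528061737399353647614549912574813939120002540616515890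
    (NumI.setR 2 (s3r_0_r1_one0_5_x4.2.2)) =
    1 := by
  decide +kernel

theorem s3r_0_r1_one0_5_k4_c : chkT s3r_0_r1_one0_5_x4.2.1 40
    60434514347204661298604371129521890179369490460818287968902351948967129342614762183700615316318275397239877949629563656746419766572965859431031434426630923658135435813588371522880258233744601835015138929204709536841864223236263154947348300607318084130065722512607204716161634865641201942675505009340488115491135024870299901013775778623469639959624345898955327495620169757703683262229029411374631456380687027470624795967824418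
    s3r_0_r1_one0_5_x4.2.2 = true :=
  chkT_of (runT_split rfl rfl rfl
        s3r_0_r1_one0_5_k4_q1
        s3r_0_r1_one0_5_k4_q2)

theorem s3r_0_r1_one0_5_k4 : ck1 s3r_0_r1_one0_5_x4 (((s3r_0_m1.g false .one).getD 5 e00).c.getD 4 0) = true :=
  ck1_of (by decide +kernel) s3r_0_r1_one0_5_k4_c

/-- check -/
def s3r_0_r1_one0_5_x5 : Ck := (cks stS3R s3r_0 s3r_0_m1 false .one
    ((stS3R.bins .one).getD 5 b00)
    ((s3r_0_m1.g false .one).getD 5 e00).g).getD 5 ckd

theorem s3r_0_r1_one0_5_k5_q1 : runT s3r_0_r1_one0_5_x5.2.1 39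
    6673300960054072778388603983256133225286402807416468252722852090567510094892187652485664255017334748012661894933410872533402628965540923809899269869491592606238894171599392232602953066825721330495751550586437999414250293269351931804288361256968788157267730497820136736642688402039318596795476027499988265091948107588799236981148011612827093570222621234850934179905532235942116755423177871407209302917988446803324265862767637778517463070223620135789833668205596124416361440599412093726268662559266
    (NumI.setL 2 (s3r_0_r1_one0_5_x5.2.2)) =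
    19358148459637742609523445854396504586929916530569635451436014106397730989221342147049825678534953409210655187525359983870847632046612989472112374982392053194169647142045947707464218603322382473657560012199302726958928139887938385858650915268644221279671773401339322085811700306227 := by
  decide +kernel

theorem s3r_0_r1_one0_5_k5_q2 : runT s3r_0_r1_one0_5_x5.2.1 39
    19358148459637742609523445854396504586929916530569635451436014106397730989221342147049825678534953409210655187525359983870847632046612989472112374982392053194169647142045947707464218603322382473657560012199302726958928139887938385858650915268644221279671773401339322085811700306226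
    (NumI.setR 2 (s3r_0_r1_one0_5_x5.2.2)) =
    1 := by
  decide +kernel

theorem s3r_0_r1_one0_5_k5_c : chkT s3r_0_r1_one0_5_x5.2.1 40
    106772815360865164454217663732098131604582444918663492043565633449080161518275002439770628080277355968202590318934573960534442063448654780958388317911865481699822306745590275721647249069211541287932024809383007990628004692309630908868613780111500610516283687965122187786283014432629097548727616439999812241471169721420787791698368185805233497123561939757614946878488515775073868086770845942515348846687815148853188253804282204456279409123577922172637338691289537990661783049590593499620298600948258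
    s3r_0_r1_one0_5_x5.2.2 = true :=
  chkT_of (runT_split rfl rfl rfl
        s3r_0_r1_one0_5_k5_q1
        s3r_0_r1_one0_5_k5_q2)

theorem s3r_0_r1_one0_5_k5 : ck1 s3r_0_r1_one0_5_x5 (((s3r_0_m1.g false .one).getD 5 e00).c.getD 5 0) = true :=
  ck1_of (by decide +kernel) s3r_0_r1_one0_5_k5_c

def s3r_0_r1_one0_5 : cellOk stS3R s3r_0 s3r_0_m1 false .one ((stS3R.bins .one).getD 5 b00)
    ((s3r_0_m1.g false .one).getD 5 e00) = true :=
  cellOk_of 6 (by decide +kernel) (by decide +kernel) fun k hk => by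
    interval_cases k
    exacts [s3r_0_r1_one0_5_k0, s3r_0_r1_one0_5_k1, s3r_0_r1_one0_5_k2, s3r_0_r1_one0_5_k3, s3r_0_r1_one0_5_k4, s3r_0_r1_one0_5_k5]

def s3r_0_r1_one0_6 : cellOk stS3R s3r_0 s3r_0_m1 false .one ((stS3R.bins .one).getD 6 b00)
    ((s3r_0_m1.g false .one).getD 6 e00) = true := by decide +kernel

def s3r_0_r1_one0_7 : cellOk stS3R s3r_0 s3r_0_m1 false .one ((stS3R.bins .one).getD 7 b00)
    ((s3r_0_m1.g false .one).getD 7 e00) = true := by decide +kernel

theorem s3r_0_r1_one0 : rowsOk stS3R s3r_0 s3r_0_m1 false .one = true := by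
  refine rowsOk_of fun i hi => ?_
  have hi : i < 8 := hi
  interval_cases i
  exacts [s3r_0_r1_one0_0, s3r_0_r1_one0_1, s3r_0_r1_one0_2, s3r_0_r1_one0_3, s3r_0_r1_one0_4, s3r_0_r1_one0_5, s3r_0_r1_one0_6, s3r_0_r1_one0_7]

def s3r_0_r1_one1_0 : cellOk stS3R s3r_0 s3r_0_m1 true .one ((stS3R.bins .one).getD 0 b00)
    ((s3r_0_m1.g true .one).getD 0 e00) = true := by decide +kernel

def s3r_0_r1_one1_1 : cellOk stS3R s3r_0 s3r_0_m1 true .one ((stS3R.bins .one).getD 1 b00)
    ((s3r_0_m1.g true .one).getD 1 e00) = true := by decide +kernel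

def s3r_0_r1_one1_2 : cellOk stS3R s3r_0 s3r_0_m1 true .one ((stS3R.bins .one).getD 2 b00)
    ((s3r_0_m1.g true .one).getD 2 e00) = true := by decide +kernel

def s3r_0_r1_one1_3 : cellOk stS3R s3r_0 s3r_0_m1 true .one ((stS3R.bins .one).getD 3 b00)
    ((s3r_0_m1.g true .one).getD 3 e00) = true := by decide +kernel

/-- check -/
def s3r_0_r1_one1_4_x0 : Ck := (cks stS3R s3r_0 s3r_0_m1 true .one
    ((stS3R.bins .one).getD 4 b00)
    ((s3r_0_m1.g true .one).getD 4 e00).g).getD 0 ckd

theorem s3r_0_r1_one1_4_k0 : ck1 s3r_0_r1_one1_4_x0 (((s3r_0_m1.g true .one).getD 4 e00).c.getD 0 0) = true := by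
  decide +kernel

/-- check -/
def s3r_0_r1_one1_4_x1 : Ck := (cks stS3R s3r_0 s3r_0_m1 true .one
    ((stS3R.bins .one).getD 4 b00)
    ((s3r_0_m1.g true .one).getD 4 e00).g).getD 1 ckd

theorem s3r_0_r1_one1_4_k1 : ck1 s3r_0_r1_one1_4_x1 (((s3r_0_m1.g true .one).getD 4 e00).c.getD 1 0) = true := by
  decide +kernel

/-- check -/
def s3r_0_r1_one1_4_x2 : Ck := (cks stS3R s3r_0 s3r_0_m1 true .one
    ((stS3R.bins .one).getD 4 b00)
    ((s3r_0_m1.g true .one).getD 4 e00).g).getD 2 ckd

theorem s3r_0_r1_one1_4_k2 : ck1 s3r_0_r1_one1_4_x2 (((s3r_0_m1.g true .one).getD 4 e00).c.getD 2 0) = true := by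
  decide +kernel

/-- check -/
def s3r_0_r1_one1_4_x3 : Ck := (cks stS3R s3r_0 s3r_0_m1 true .one
    ((stS3R.bins .one).getD 4 b00)
    ((s3r_0_m1.g true .one).getD 4 e00).g).getD 3 ckd

theorem s3r_0_r1_one1_4_k3 : ck1 s3r_0_r1_one1_4_x3 (((s3r_0_m1.g true .one).getD 4 e00).c.getD 3 0) = true := by
  decide +kernel

/-- check -/
def s3r_0_r1_one1_4_x4 : Ck := (cks stS3R s3r_0 s3r_0_m1 true .one
    ((stS3R.bins .one).getD 4 b00)
    ((s3r_0_m1.g true .one).getD 4 e00).g).getD 4 ckd

theorem s3r_0_r1_one1_4_k4 : ck1 s3r_0_r1_one1_4_x4 (((s3r_0_m1.g true .one).getD 4 e00).c.getD 4 0) = true := by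
  decide +kernel

/-- check -/
def s3r_0_r1_one1_4_x5 : Ck := (cks stS3R s3r_0 s3r_0_m1 true .one
    ((stS3R.bins .one).getD 4 b00)
    ((s3r_0_m1.g true .one).getD 4 e00).g).getD 5 ckd

theorem s3r_0_r1_one1_4_k5 : ck1 s3r_0_r1_one1_4_x5 (((s3r_0_m1.g true .one).getD 4 e00).c.getD 5 0) = true := by
  decide +kernel

def s3r_0_r1_one1_4 : cellOk stS3R s3r_0 s3r_0_m1 true .one ((stS3R.bins .one).getD 4 b00)
    ((s3r_0_m1.g true .one).getD 4 e00) = true :=
  cellOk_of 6 (by decide +kernel) (by decide +kernel) fun k hk => by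
    interval_cases k
    exacts [s3r_0_r1_one1_4_k0, s3r_0_r1_one1_4_k1, s3r_0_r1_one1_4_k2, s3r_0_r1_one1_4_k3, s3r_0_r1_one1_4_k4, s3r_0_r1_one1_4_k5]

def s3r_0_r1_one1_5 : cellOk stS3R s3r_0 s3r_0_m1 true .one ((stS3R.bins .one).getD 5 b00)
    ((s3r_0_m1.g true .one).getD 5 e00) = true := by decide +kernel

def s3r_0_r1_one1_6 : cellOk stS3R s3r_0 s3r_0_m1 true .one ((stS3R.bins .one).getD 6 b00)
    ((s3r_0_m1.g true .one).getD 6 e00) = true := by decide +kernel

def s3r_0_r1_one1_7 : cellOk stS3R s3r_0 s3r_0_m1 true .one ((stS3R.bins .one).getD 7 b00)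
    ((s3r_0_m1.g true .one).getD 7 e00) = true := by decide +kernel

theorem s3r_0_r1_one1 : rowsOk stS3R s3r_0 s3r_0_m1 true .one = true := by
  refine rowsOk_of fun i hi => ?_
  have hi : i < 8 := hi
  interval_cases i
  exacts [s3r_0_r1_one1_0, s3r_0_r1_one1_1, s3r_0_r1_one1_2, s3r_0_r1_one1_3, s3r_0_r1_one1_4, s3r_0_r1_one1_5, s3r_0_r1_one1_6, s3r_0_r1_one1_7]

def s3r_0_r1_two0_0 : cellOk stS3R s3r_0 s3r_0_m1 false .two ((stS3R.bins .two).getD 0 b00)
    ((s3r_0_m1.g false .two).getD 0 e00) = true := by decide +kernel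

def s3r_0_r1_two0_1 : cellOk stS3R s3r_0 s3r_0_m1 false .two ((stS3R.bins .two).getD 1 b00)
    ((s3r_0_m1.g false .two).getD 1 e00) = true := by decide +kernel

def s3r_0_r1_two0_2 : cellOk stS3R s3r_0 s3r_0_m1 false .two ((stS3R.bins .two).getD 2 b00)
    ((s3r_0_m1.g false .two).getD 2 e00) = true := by decide +kernel

def s3r_0_r1_two0_3 : cellOk stS3R s3r_0 s3r_0_m1 false .two ((stS3R.bins .two).getD 3 b00)
    ((s3r_0_m1.g false .two).getD 3 e00) = true := by decide +kernel

def s3r_0_r1_two0_4 : cellOk stS3R s3r_0 s3r_0_m1 false .two ((stS3R.bins .two).getD 4 b00)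
    ((s3r_0_m1.g false .two).getD 4 e00) = true := by decide +kernel

def s3r_0_r1_two0_5 : cellOk stS3R s3r_0 s3r_0_m1 false .two ((stS3R.bins .two).getD 5 b00)
    ((s3r_0_m1.g false .two).getD 5 e00) = true := by decide +kernel

theorem s3r_0_r1_two0 : rowsOk stS3R s3r_0 s3r_0_m1 false .two = true := by
  refine rowsOk_of fun i hi => ?_
  have hi : i < 6 := hi
  interval_cases i
  exacts [s3r_0_r1_two0_0, s3r_0_r1_two0_1, s3r_0_r1_two0_2, s3r_0_r1_two0_3, s3r_0_r1_two0_4, s3r_0_r1_two0_5]

def s3r_0_r1_two1 : rowsOk stS3R s3r_0 s3r_0_m1 true .two = true := by decide +kernel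

def s3r_0_r1_twoE0 : rowsOk stS3R s3r_0 s3r_0_m1 false .twoE = true := by decide +kernel

def s3r_0_r1_twoE1 : rowsOk stS3R s3r_0 s3r_0_m1 true .twoE = true := by decide +kernel

def s3r_0_r1_thrR0 : rowsOk stS3R s3r_0 s3r_0_m1 false .thrR = true := by decide +kernel

def s3r_0_r1_thrR1 : rowsOk stS3R s3r_0 s3r_0_m1 true .thrR = true := by decide +kernel

def s3r_0_r1_thrL0 : rowsOk stS3R s3r_0 s3r_0_m1 false .thrL = true := by decide +kernel

def s3r_0_r1_thrL1 : rowsOk stS3R s3r_0 s3r_0_m1 true .thrL = true := by decide +kernel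

def s3r_0_r1_threeE0 : rowsOk stS3R s3r_0 s3r_0_m1 false .threeE = true := by decide +kernel

def s3r_0_r1_threeE1 : rowsOk stS3R s3r_0 s3r_0_m1 true .threeE = true := by decide +kernel

def s3r_0_r1_ring0 : rowsOk stS3R s3r_0 s3r_0_m1 false .ring = true := by decide +kernel

def s3r_0_r1_ring1 : rowsOk stS3R s3r_0 s3r_0_m1 true .ring = true := by decide +kernel

def s3r_0_r2_one0 : rowsOk stS3R s3r_0 s3r_0_m2 false .one = true := by decide +kernel

def s3r_0_r2_one1 : rowsOk stS3R s3r_0 s3r_0_m2 true .one = true := by decide +kernel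

def s3r_0_r2_two0 : rowsOk stS3R s3r_0 s3r_0_m2 false .two = true := by decide +kernel

def s3r_0_r2_two1 : rowsOk stS3R s3r_0 s3r_0_m2 true .two = true := by decide +kernel

def s3r_0_r2_twoE0 : rowsOk stS3R s3r_0 s3r_0_m2 false .twoE = true := by decide +kernel

def s3r_0_r2_twoE1 : rowsOk stS3R s3r_0 s3r_0_m2 true .twoE = true := by decide +kernel

def s3r_0_r2_thrR0 : rowsOk stS3R s3r_0 s3r_0_m2 false .thrR = true := by decide +kernel

def s3r_0_r2_thrR1 : rowsOk stS3R s3r_0 s3r_0_m2 true .thrR = true := by decide +kernel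

def s3r_0_r2_thrL0 : rowsOk stS3R s3r_0 s3r_0_m2 false .thrL = true := by decide +kernel

def s3r_0_r2_thrL1 : rowsOk stS3R s3r_0 s3r_0_m2 true .thrL = true := by decide +kernel

def s3r_0_r2_threeE0 : rowsOk stS3R s3r_0 s3r_0_m2 false .threeE = true := by decide +kernel

def s3r_0_r2_threeE1 : rowsOk stS3R s3r_0 s3r_0_m2 true .threeE = true := by decide +kernel

def s3r_0_r2_ring0 : rowsOk stS3R s3r_0 s3r_0_m2 false .ring = true := by decide +kernel

def s3r_0_r2_ring1 : rowsOk stS3R s3r_0 s3r_0_m2 true .ring = true := by decide +kernel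

end OR

end Pool.Agent.Work.MP_b30479_gt.G2
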