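import Pool.Agent.Work.MP_b30479_gt.G2.OS3r_0d
import Pool.Agent.Work.MP_b30479_gt.G2.ORows
import Pool.Agent.Work.MP_b30479_gt.G2.OStS
import Pool.Agent.Work.MP_b30479_gt.G2.ORowS

namespace Pool.Agent.Work.MP_b30479_gt.G2

open NumU

namespace OR

set_option linter.defProp false

def s3r_0_r0_one0_0 : cellOk stS3R s3r_0 s3r_0_m0 false .one ((stS3R.bins .one).getD 0 b00)
    ((s3r_0_m0.g false .one).getD 0 e00) = true := by decide +kernel

def s3r_0_r0_one0_1 : cellOk stS3R s3r_0 s3r_0_m0 false .one ((stS3R.bins .one).getD 1 b00)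
    ((s3r_0_m0.g false .one).getD 1 e00) = true := by decide +kernel

def s3r_0_r0_one0_2 : cellOk stS3R s3r_0 s3r_0_m0 false .one ((stS3R.bins .one).getD 2 b00)
    ((s3r_0_m0.g false .one).getD 2 e00) = true := by decide +kernel

def s3r_0_r0_one0_3 : cellOk stS3R s3r_0 s3r_0_m0 false .one ((stS3R.bins .one).getD 3 b00)
    ((s3r_0_m0.g false .one).getD 3 e00) = true := by decide +kernel

/-- check -/
def s3r_0_r0_one0_4_x0 : Ck := (cks stS3R s3r_0 s3r_0_m0 false .one
    ((stS3R.bins .one).getD 4 b00)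
    ((s3r_0_m0.g false .one).getD 4 e00).g).getD 0 ckd

theorem s3r_0_r0_one0_4_k0_q1 : runT s3r_0_r0_one0_4_x0.2.1 39
    3556227689295890300274987512771608258698768888624639036533500374339754517399336177828953728225746352391899126911141015026730370903773845960711145514399103161250258529685860600987375594164170067467720471601892373298748278215050191981843722515
    (NumI.setL 2 (s3r_0_r0_one0_4_x0.2.2)) =
    9064636105540055324786941039128816115823664885492704635521398747161666043703047820479411564093354863396775634826452220393136274149874720745917551126598908262181547036236617697141657907 := by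
  decide +kernel

theorem s3r_0_r0_one0_4_k0_q2 : runT s3r_0_r0_one0_4_x0.2.1 39
    9064636105540055324786941039128816115823664885492704635521398747161666043703047820479411564093354863396775634826452220393136274149874720745917551126598908262181547036236617697141657906
    (NumI.setR 2 (s3r_0_r0_one0_4_x0.2.2)) =
    1 := by
  decide +kernel

theorem s3r_0_r0_one0_4_k0_c : chkT s3r_0_r0_one0_4_x0.2.1 40
    56899643028734244804399800204345732139180302217994224584536005989436072278389378845263259651611941638270386030578256240427685934460381535371378328230385650580004136474973769615798009506626721079483527545630277972779972451440803071709499560242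
    s3r_0_r0_one0_4_x0.2.2 = true :=
  chkT_of (runT_split rfl rfl rfl
        s3r_0_r0_one0_4_k0_q1
        s3r_0_r0_one0_4_k0_q2)

theorem s3r_0_r0_one0_4_k0 : ck1 s3r_0_r0_one0_4_x0 (((s3r_0_m0.g false .one).getD 4 e00).c.getD 0 0) = true :=
  ck1_of (by decide +kernel) s3r_0_r0_one0_4_k0_c

/-- check -/
def s3r_0_r0_one0_4_x1 : Ck := (cks stS3R s3r_0 s3r_0_m0 false .one
    ((stS3R.bins .one).getD 4 b00)
    ((s3r_0_m0.g false .one).getD 4 e00).g).getD 1 ckd

theorem s3r_0_r0_one0_4_k1 : ck1 s3r_0_r0_one0_4_x1 (((s3r_0_m0.g false .one).getD 4 e00).c.getD 1 0) = true := by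
  decide +kernel

/-- check -/
def s3r_0_r0_one0_4_x2 : Ck := (cks stS3R s3r_0 s3r_0_m0 false .one
    ((stS3R.bins .one).getD 4 b00)
    ((s3r_0_m0.g false .one).getD 4 e00).g).getD 2 ckd

theorem s3r_0_r0_one0_4_k2 : ck1 s3r_0_r0_one0_4_x2 (((s3r_0_m0.g false .one).getD 4 e00).c.getD 2 0) = true := by
  decide +kernel

/-- check -/
def s3r_0_r0_one0_4_x3 : Ck := (cks stS3R s3r_0 s3r_0_m0 false .one
    ((stS3R.bins .one).getD 4 b00)
    ((s3r_0_m0.g false .one).getD 4 e00).g).getD 3 ckd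

theorem s3r_0_r0_one0_4_k3 : ck1 s3r_0_r0_one0_4_x3 (((s3r_0_m0.g false .one).getD 4 e00).c.getD 3 0) = true := by
  decide +kernel

/-- check -/
def s3r_0_r0_one0_4_x4 : Ck := (cks stS3R s3r_0 s3r_0_m0 false .one
    ((stS3R.bins .one).getD 4 b00)
    ((s3r_0_m0.g false .one).getD 4 e00).g).getD 4 ckd

theorem s3r_0_r0_one0_4_k4 : ck1 s3r_0_r0_one0_4_x4 (((s3r_0_m0.g false .one).getD 4 e00).c.getD 4 0) = true := by
  decide +kernel

/-- check -/
def s3r_0_r0_one0_4_x5 : Ck := (cks stS3R s3r_0 s3r_0_m0 false .one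
    ((stS3R.bins .one).getD 4 b00)
    ((s3r_0_m0.g false .one).getD 4 e00).g).getD 5 ckd

theorem s3r_0_r0_one0_4_k5 : ck1 s3r_0_r0_one0_4_x5 (((s3r_0_m0.g false .one).getD 4 e00).c.getD 5 0) = true := by
  decide +kernel

def s3r_0_r0_one0_4 : cellOk stS3R s3r_0 s3r_0_m0 false .one ((stS3R.bins .one).getD 4 b00)
    ((s3r_0_m0.g false .one).getD 4 e00) = true :=
  cellOk_of 6 (by decide +kernel) (by decide +kernel) fun k hk => by
    interval_cases k
    exacts [s3r_0_r0_one0_4_k0, s3r_0_r0_one0_4_k1, s3r_0_r0_one0_4_k2, s3r_0_r0_one0_4_k3, s3r_0_r0_one0_4_k4, s3r_0_r0_one0_4_k5]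

/-- check -/
def s3r_0_r0_one0_5_x0 : Ck := (cks stS3R s3r_0 s3r_0_m0 false .one
    ((stS3R.bins .one).getD 5 b00)
    ((s3r_0_m0.g false .one).getD 5 e00).g).getD 0 ckd

theorem s3r_0_r0_one0_5_k0 : ck1 s3r_0_r0_one0_5_x0 (((s3r_0_m0.g false .one).getD 5 e00).c.getD 0 0) = true := by
  decide +kernel

/-- check -/
def s3r_0_r0_one0_5_x1 : Ck := (cks stS3R s3r_0 s3r_0_m0 false .one
    ((stS3R.bins .one).getD 5 b00)
    ((s3r_0_m0.g false .one).getD 5 e00).g).getD 1 ckd

theorem s3r_0_r0_one0_5_k1 : ck1 s3r_0_r0_one0_5_x1 (((s3r_0_m0.g false .one).getD 5 e00).c.getD 1 0) = true := by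
  decide +kernel

/-- check -/
def s3r_0_r0_one0_5_x2 : Ck := (cks stS3R s3r_0 s3r_0_m0 false .one
    ((stS3R.bins .one).getD 5 b00)
    ((s3r_0_m0.g false .one).getD 5 e00).g).getD 2 ckd

theorem s3r_0_r0_one0_5_k2 : ck1 s3r_0_r0_one0_5_x2 (((s3r_0_m0.g false .one).getD 5 e00).c.getD 2 0) = true := by
  decide +kernel

/-- check -/
def s3r_0_r0_one0_5_x3 : Ck := (cks stS3R s3r_0 s3r_0_m0 false .one
    ((stS3R.bins .one).getD 5 b00)
    ((s3r_0_m0.g false .one).getD 5 e00).g).getD 3 ckd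

theorem s3r_0_r0_one0_5_k3 : ck1 s3r_0_r0_one0_5_x3 (((s3r_0_m0.g false .one).getD 5 e00).c.getD 3 0) = true := by
  decide +kernel

/-- check -/
def s3r_0_r0_one0_5_x4 : Ck := (cks stS3R s3r_0 s3r_0_m0 false .one
    ((stS3R.bins .one).getD 5 b00)
    ((s3r_0_m0.g false .one).getD 5 e00).g).getD 4 ckd

theorem s3r_0_r0_one0_5_k4_q1 : runT s3r_0_r0_one0_5_x4.2.1 38
    716531071341286485609240319249991351177885494354773408806253671265041646565880036537664873162624819162748140532213766217949415796420319273200157527090021325398858313703980413509505225649108334732501342202493735714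
    (NumI.setL 2 (NumI.setL 2 (s3r_0_r0_one0_5_x4.2.2))) =
    10792390392430113521465797216276 := by
  decide +kernel

theorem s3r_0_r0_one0_5_k4_q2 : runT s3r_0_r0_one0_5_x4.2.1 38
    10792390392430113521465797216275
    (NumI.setR 2 (NumI.setL 2 (s3r_0_r0_one0_5_x4.2.2))) =
    9360906487828 := by
  decide +kernel

theorem s3r_0_r0_one0_5_k4_q3 : runT s3r_0_r0_one0_5_x4.2.1 39
    9360906487827
    (NumI.setR 2 (s3r_0_r0_one0_5_x4.2.2)) =
    1 := by
  decide +kernel

theorem s3r_0_r0_one0_5_k4_c : chkT s3r_0_r0_one0_5_x4.2.1 40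
    183431954263369340315965521727997785901538686554821992654400939843850661520865289353642207529631953705663523976246724151795050443883601733939240326935045459302107728308218985858433337766171733691520343603838396342818
    s3r_0_r0_one0_5_x4.2.2 = true :=
  chkT_of (runT_split rfl rfl rfl
        (runT_split rfl rfl rfl
          s3r_0_r0_one0_5_k4_q1
          s3r_0_r0_one0_5_k4_q2)
        s3r_0_r0_one0_5_k4_q3)

theorem s3r_0_r0_one0_5_k4 : ck1 s3r_0_r0_one0_5_x4 (((s3r_0_m0.g false .one).getD 5 e00).c.getD 4 0) = true :=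
  ck1_of (by decide +kernel) s3r_0_r0_one0_5_k4_c

/-- check -/
def s3r_0_r0_one0_5_x5 : Ck := (cks stS3R s3r_0 s3r_0_m0 false .one
    ((stS3R.bins .one).getD 5 b00)
    ((s3r_0_m0.g false .one).getD 5 e00).g).getD 5 ckd

theorem s3r_0_r0_one0_5_k5_q1 : runT s3r_0_r0_one0_5_x5.2.1 36
    5449146241648808124904809017257575820254472500842308945255429048664198814741272175764038617184112960048200448486617113843515530400444582821474032696062499144203871486087381482037991315662196051807810221583131554105802444635076842109896787422973842318434819221618949023708565940719679135316324627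
    (NumI.setL 2 (NumI.setL 2 (NumI.setL 2 (NumI.setL 2 (s3r_0_r0_one0_5_x5.2.2))))) =
    1830334467170576296391427104646270280347224722673404969061356017970299744170416495406432820807940029741141074575990020683743559304127057039498110298654126356 := by
  decide +kernel

theorem s3r_0_r0_one0_5_k5_q2 : runT s3r_0_r0_one0_5_x5.2.1 36
    1830334467170576296391427104646270280347224722673404969061356017970299744170416495406432820807940029741141074575990020683743559304127057039498110298654126355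
    (NumI.setR 2 (NumI.setL 2 (NumI.setL 2 (NumI.setL 2 (s3r_0_r0_one0_5_x5.2.2))))) =
    1194348967655986021536033331395475125049963007927026790168522936903419397867441105669815946688071348500 := by
  decide +kernel

theorem s3r_0_r0_one0_5_k5_q3 : runT s3r_0_r0_one0_5_x5.2.1 37
    1194348967655986021536033331395475125049963007927026790168522936903419397867441105669815946688071348499
    (NumI.setR 2 (NumI.setL 2 (NumI.setL 2 (s3r_0_r0_one0_5_x5.2.2)))) =
    856903359613063078767980569399899649350474538820047937876244 := by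
  decide +kernel

theorem s3r_0_r0_one0_5_k5_q4 : runT s3r_0_r0_one0_5_x5.2.1 38
    856903359613063078767980569399899649350474538820047937876243
    (NumI.setR 2 (NumI.setL 2 (s3r_0_r0_one0_5_x5.2.2))) =
    10314598998280138377539890 := by
  decide +kernel

theorem s3r_0_r0_one0_5_k5_q5 : runT s3r_0_r0_one0_5_x5.2.1 39
    10314598998280138377539889
    (NumI.setR 2 (s3r_0_r0_one0_5_x5.2.2)) =
    1 := by
  decide +kernel

theorem s3r_0_r0_one0_5_k5_c : chkT s3r_0_r0_one0_5_x5.2.1 40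
    357115248092696289273761563754992488956197109815201559036259798133256933522884013310872034815778026949718864592018939172848633800323536179788122206769151943914544921712222632806841798863237680451276650681672109529877869011604395924514195860552013730180944312508019443217764577491004891812090650763810
    s3r_0_r0_one0_5_x5.2.2 = true :=
  chkT_of (runT_split rfl rfl rfl
        (runT_split rfl rfl rfl
          (runT_split rfl rfl rfl
            (runT_split rfl rfl rfl
              s3r_0_r0_one0_5_k5_q1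
              s3r_0_r0_one0_5_k5_q2)
            s3r_0_r0_one0_5_k5_q3)
          s3r_0_r0_one0_5_k5_q4)
        s3r_0_r0_one0_5_k5_q5)

theorem s3r_0_r0_one0_5_k5 : ck1 s3r_0_r0_one0_5_x5 (((s3r_0_m0.g false .one).getD 5 e00).c.getD 5 0) = true :=
  ck1_of (by decide +kernel) s3r_0_r0_one0_5_k5_c

def s3r_0_r0_one0_5 : cellOk stS3R s3r_0 s3r_0_m0 false .one ((stS3R.bins .one).getD 5 b00)
    ((s3r_0_m0.g false .one).getD 5 e00) = true :=
  cellOk_of 6 (by decide +kernel) (by decide +kernel) fun k hk => by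
    interval_cases k
    exacts [s3r_0_r0_one0_5_k0, s3r_0_r0_one0_5_k1, s3r_0_r0_one0_5_k2, s3r_0_r0_one0_5_k3, s3r_0_r0_one0_5_k4, s3r_0_r0_one0_5_k5]

def s3r_0_r0_one0_6 : cellOk stS3R s3r_0 s3r_0_m0 false .one ((stS3R.bins .one).getD 6 b00)
    ((s3r_0_m0.g false .one).getD 6 e00) = true := by decide +kernel

def s3r_0_r0_one0_7 : cellOk stS3R s3r_0 s3r_0_m0 false .one ((stS3R.bins .one).getD 7 b00)
    ((s3r_0_m0.g false .one).getD 7 e00) = true := by decide +kernel

theorem s3r_0_r0_one0 : rowsOk stS3R s3r_0 s3r_0_m0 false .one = true := by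
  refine rowsOk_of fun i hi => ?_
  have hi : i < 8 := hi
  interval_cases i
  exacts [s3r_0_r0_one0_0, s3r_0_r0_one0_1, s3r_0_r0_one0_2, s3r_0_r0_one0_3, s3r_0_r0_one0_4, s3r_0_r0_one0_5, s3r_0_r0_one0_6, s3r_0_r0_one0_7]

def s3r_0_r0_one1_0 : cellOk stS3R s3r_0 s3r_0_m0 true .one ((stS3R.bins .one).getD 0 b00)
    ((s3r_0_m0.g true .one).getD 0 e00) = true := by decide +kernel

def s3r_0_r0_one1_1 : cellOk stS3R s3r_0 s3r_0_m0 true .one ((stS3R.bins .one).getD 1 b00)
    ((s3r_0_m0.g true .one).getD 1 e00) = true := by decide +kernel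

def s3r_0_r0_one1_2 : cellOk stS3R s3r_0 s3r_0_m0 true .one ((stS3R.bins .one).getD 2 b00)
    ((s3r_0_m0.g true .one).getD 2 e00) = true := by decide +kernel

def s3r_0_r0_one1_3 : cellOk stS3R s3r_0 s3r_0_m0 true .one ((stS3R.bins .one).getD 3 b00)
    ((s3r_0_m0.g true .one).getD 3 e00) = true := by decide +kernel

/-- check -/
def s3r_0_r0_one1_4_x0 : Ck := (cks stS3R s3r_0 s3r_0_m0 true .one
    ((stS3R.bins .one).getD 4 b00)
    ((s3r_0_m0.g true .one).getD 4 e00).g).getD 0 ckd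

theorem s3r_0_r0_one1_4_k0 : ck1 s3r_0_r0_one1_4_x0 (((s3r_0_m0.g true .one).getD 4 e00).c.getD 0 0) = true := by
  decide +kernel

/-- check -/
def s3r_0_r0_one1_4_x1 : Ck := (cks stS3R s3r_0 s3r_0_m0 true .one
    ((stS3R.bins .one).getD 4 b00)
    ((s3r_0_m0.g true .one).getD 4 e00).g).getD 1 ckd

theorem s3r_0_r0_one1_4_k1 : ck1 s3r_0_r0_one1_4_x1 (((s3r_0_m0.g true .one).getD 4 e00).c.getD 1 0) = true := by
  decide +kernel

/-- check -/
def s3r_0_r0_one1_4_x2 : Ck := (cks stS3R s3r_0 s3r_0_m0 true .one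
    ((stS3R.bins .one).getD 4 b00)
    ((s3r_0_m0.g true .one).getD 4 e00).g).getD 2 ckd

theorem s3r_0_r0_one1_4_k2 : ck1 s3r_0_r0_one1_4_x2 (((s3r_0_m0.g true .one).getD 4 e00).c.getD 2 0) = true := by
  decide +kernel

/-- check -/
def s3r_0_r0_one1_4_x3 : Ck := (cks stS3R s3r_0 s3r_0_m0 true .one
    ((stS3R.bins .one).getD 4 b00)
    ((s3r_0_m0.g true .one).getD 4 e00).g).getD 3 ckd

theorem s3r_0_r0_one1_4_k3 : ck1 s3r_0_r0_one1_4_x3 (((s3r_0_m0.g true .one).getD 4 e00).c.getD 3 0) = true := by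
  decide +kernel

/-- check -/
def s3r_0_r0_one1_4_x4 : Ck := (cks stS3R s3r_0 s3r_0_m0 true .one
    ((stS3R.bins .one).getD 4 b00)
    ((s3r_0_m0.g true .one).getD 4 e00).g).getD 4 ckd

theorem s3r_0_r0_one1_4_k4 : ck1 s3r_0_r0_one1_4_x4 (((s3r_0_m0.g true .one).getD 4 e00).c.getD 4 0) = true := by
  decide +kernel

/-- check -/
def s3r_0_r0_one1_4_x5 : Ck := (cks stS3R s3r_0 s3r_0_m0 true .one
    ((stS3R.bins .one).getD 4 b00)
    ((s3r_0_m0.g true .one).getD 4 e00).g).getD 5 ckd

theorem s3r_0_r0_one1_4_k5 : ck1 s3r_0_r0_one1_4_x5 (((s3r_0_m0.g true .one).getD 4 e00).c.getD 5 0) = true := by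
  decide +kernel

def s3r_0_r0_one1_4 : cellOk stS3R s3r_0 s3r_0_m0 true .one ((stS3R.bins .one).getD 4 b00)
    ((s3r_0_m0.g true .one).getD 4 e00) = true :=
  cellOk_of 6 (by decide +kernel) (by decide +kernel) fun k hk => by
    interval_cases k
    exacts [s3r_0_r0_one1_4_k0, s3r_0_r0_one1_4_k1, s3r_0_r0_one1_4_k2, s3r_0_r0_one1_4_k3, s3r_0_r0_one1_4_k4, s3r_0_r0_one1_4_k5]

/-- check -/
def s3r_0_r0_one1_5_x0 : Ck := (cks stS3R s3r_0 s3r_0_m0 true .one
    ((stS3R.bins .one).getD 5 b00)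
    ((s3r_0_m0.g true .one).getD 5 e00).g).getD 0 ckd

theorem s3r_0_r0_one1_5_k0 : ck1 s3r_0_r0_one1_5_x0 (((s3r_0_m0.g true .one).getD 5 e00).c.getD 0 0) = true := by
  decide +kernel

/-- check -/
def s3r_0_r0_one1_5_x1 : Ck := (cks stS3R s3r_0 s3r_0_m0 true .one
    ((stS3R.bins .one).getD 5 b00)
    ((s3r_0_m0.g true .one).getD 5 e00).g).getD 1 ckd

theorem s3r_0_r0_one1_5_k1 : ck1 s3r_0_r0_one1_5_x1 (((s3r_0_m0.g true .one).getD 5 e00).c.getD 1 0) = true := by
  decide +kernel

/-- check -/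
def s3r_0_r0_one1_5_x2 : Ck := (cks stS3R s3r_0 s3r_0_m0 true .one
    ((stS3R.bins .one).getD 5 b00)
    ((s3r_0_m0.g true .one).getD 5 e00).g).getD 2 ckd

theorem s3r_0_r0_one1_5_k2 : ck1 s3r_0_r0_one1_5_x2 (((s3r_0_m0.g true .one).getD 5 e00).c.getD 2 0) = true := by
  decide +kernel

/-- check -/
def s3r_0_r0_one1_5_x3 : Ck := (cks stS3R s3r_0 s3r_0_m0 true .one
    ((stS3R.bins .one).getD 5 b00)
    ((s3r_0_m0.g true .one).getD 5 e00).g).getD 3 ckd

theorem s3r_0_r0_one1_5_k3 : ck1 s3r_0_r0_one1_5_x3 (((s3r_0_m0.g true .one).getD 5 e00).c.getD 3 0) = true := by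
  decide +kernel

/-- check -/
def s3r_0_r0_one1_5_x4 : Ck := (cks stS3R s3r_0 s3r_0_m0 true .one
    ((stS3R.bins .one).getD 5 b00)
    ((s3r_0_m0.g true .one).getD 5 e00).g).getD 4 ckd

theorem s3r_0_r0_one1_5_k4 : ck1 s3r_0_r0_one1_5_x4 (((s3r_0_m0.g true .one).getD 5 e00).c.getD 4 0) = true := by
  decide +kernel

/-- check -/
def s3r_0_r0_one1_5_x5 : Ck := (cks stS3R s3r_0 s3r_0_m0 true .one
    ((stS3R.bins .one).getD 5 b00)
    ((s3r_0_m0.g true .one).getD 5 e00).g).getD 5 ckd

theorem s3r_0_r0_one1_5_k5 : ck1 s3r_0_r0_one1_5_x5 (((s3r_0_m0.g true .one).getD 5 e00).c.getD 5 0) = true := by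
  decide +kernel

def s3r_0_r0_one1_5 : cellOk stS3R s3r_0 s3r_0_m0 true .one ((stS3R.bins .one).getD 5 b00)
    ((s3r_0_m0.g true .one).getD 5 e00) = true :=
  cellOk_of 6 (by decide +kernel) (by decide +kernel) fun k hk => by
    interval_cases k
    exacts [s3r_0_r0_one1_5_k0, s3r_0_r0_one1_5_k1, s3r_0_r0_one1_5_k2, s3r_0_r0_one1_5_k3, s3r_0_r0_one1_5_k4, s3r_0_r0_one1_5_k5]

def s3r_0_r0_one1_6 : cellOk stS3R s3r_0 s3r_0_m0 true .one ((stS3R.bins .one).getD 6 b00)
    ((s3r_0_m0.g true .one).getD 6 e00) = true := by decide +kernel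

def s3r_0_r0_one1_7 : cellOk stS3R s3r_0 s3r_0_m0 true .one ((stS3R.bins .one).getD 7 b00)
    ((s3r_0_m0.g true .one).getD 7 e00) = true := by decide +kernel

theorem s3r_0_r0_one1 : rowsOk stS3R s3r_0 s3r_0_m0 true .one = true := by
  refine rowsOk_of fun i hi => ?_
  have hi : i < 8 := hi
  interval_cases i
  exacts [s3r_0_r0_one1_0, s3r_0_r0_one1_1, s3r_0_r0_one1_2, s3r_0_r0_one1_3, s3r_0_r0_one1_4, s3r_0_r0_one1_5, s3r_0_r0_one1_6, s3r_0_r0_one1_7]

def s3r_0_r0_two0_0 : cellOk stS3R s3r_0 s3r_0_m0 false .two ((stS3R.bins .two).getD 0 b00)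
    ((s3r_0_m0.g false .two).getD 0 e00) = true := by decide +kernel

def s3r_0_r0_two0_1 : cellOk stS3R s3r_0 s3r_0_m0 false .two ((stS3R.bins .two).getD 1 b00)
    ((s3r_0_m0.g false .two).getD 1 e00) = true := by decide +kernel

def s3r_0_r0_two0_2 : cellOk stS3R s3r_0 s3r_0_m0 false .two ((stS3R.bins .two).getD 2 b00)
    ((s3r_0_m0.g false .two).getD 2 e00) = true := by decide +kernel

def s3r_0_r0_two0_3 : cellOk stS3R s3r_0 s3r_0_m0 false .two ((stS3R.bins .two).getD 3 b00)
    ((s3r_0_m0.g false .two).getD 3 e00) = true := by decide +kernel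

def s3r_0_r0_two0_4 : cellOk stS3R s3r_0 s3r_0_m0 false .two ((stS3R.bins .two).getD 4 b00)
    ((s3r_0_m0.g false .two).getD 4 e00) = true := by decide +kernel

def s3r_0_r0_two0_5 : cellOk stS3R s3r_0 s3r_0_m0 false .two ((stS3R.bins .two).getD 5 b00)
    ((s3r_0_m0.g false .two).getD 5 e00) = true := by decide +kernel

theorem s3r_0_r0_two0 : rowsOk stS3R s3r_0 s3r_0_m0 false .two = true := by
  refine rowsOk_of fun i hi => ?_
  have hi : i < 6 := hi
  interval_cases i
  exacts [s3r_0_r0_two0_0, s3r_0_r0_two0_1, s3r_0_r0_two0_2, s3r_0_r0_two0_3, s3r_0_r0_two0_4, s3r_0_r0_two0_5]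

end OR

end Pool.Agent.Work.MP_b30479_gt.G2
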