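import Pool.Agent.Work.MP_b30479_gt.G2.OS3r_2d
import Pool.Agent.Work.MP_b30479_gt.G2.ORows
import Pool.Agent.Work.MP_b30479_gt.G2.OStS
import Pool.Agent.Work.MP_b30479_gt.G2.ORowS

namespace Pool.Agent.Work.MP_b30479_gt.G2

open NumU

namespace OR

set_option linter.defProp false

def s3r_2_r0_one0_0 : cellOk stS3R s3r_2 s3r_2_m0 false .one ((stS3R.bins .one).getD 0 b00)
    ((s3r_2_m0.g false .one).getD 0 e00) = true := by decide +kernel

def s3r_2_r0_one0_1 : cellOk stS3R s3r_2 s3r_2_m0 false .one ((stS3R.bins .one).getD 1 b00)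
    ((s3r_2_m0.g false .one).getD 1 e00) = true := by decide +kernel

def s3r_2_r0_one0_2 : cellOk stS3R s3r_2 s3r_2_m0 false .one ((stS3R.bins .one).getD 2 b00)
    ((s3r_2_m0.g false .one).getD 2 e00) = true := by decide +kernel

def s3r_2_r0_one0_3 : cellOk stS3R s3r_2 s3r_2_m0 false .one ((stS3R.bins .one).getD 3 b00)
    ((s3r_2_m0.g false .one).getD 3 e00) = true := by decide +kernel

/-- check -/
def s3r_2_r0_one0_4_x0 : Ck := (cks stS3R s3r_2 s3r_2_m0 false .one
    ((stS3R.bins .one).getD 4 b00)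
    ((s3r_2_m0.g false .one).getD 4 e00).g).getD 0 ckd

theorem s3r_2_r0_one0_4_k0 : ck1 s3r_2_r0_one0_4_x0 (((s3r_2_m0.g false .one).getD 4 e00).c.getD 0 0) = true := by
  decide +kernel

/-- check -/
def s3r_2_r0_one0_4_x1 : Ck := (cks stS3R s3r_2 s3r_2_m0 false .one
    ((stS3R.bins .one).getD 4 b00)
    ((s3r_2_m0.g false .one).getD 4 e00).g).getD 1 ckd

theorem s3r_2_r0_one0_4_k1 : ck1 s3r_2_r0_one0_4_x1 (((s3r_2_m0.g false .one).getD 4 e00).c.getD 1 0) = true := by
  decide +kernel

/-- check -/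
def s3r_2_r0_one0_4_x2 : Ck := (cks stS3R s3r_2 s3r_2_m0 false .one
    ((stS3R.bins .one).getD 4 b00)
    ((s3r_2_m0.g false .one).getD 4 e00).g).getD 2 ckd

theorem s3r_2_r0_one0_4_k2 : ck1 s3r_2_r0_one0_4_x2 (((s3r_2_m0.g false .one).getD 4 e00).c.getD 2 0) = true := by
  decide +kernel

/-- check -/
def s3r_2_r0_one0_4_x3 : Ck := (cks stS3R s3r_2 s3r_2_m0 false .one
    ((stS3R.bins .one).getD 4 b00)
    ((s3r_2_m0.g false .one).getD 4 e00).g).getD 3 ckd

theorem s3r_2_r0_one0_4_k3 : ck1 s3r_2_r0_one0_4_x3 (((s3r_2_m0.g false .one).getD 4 e00).c.getD 3 0) = true := by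
  decide +kernel

/-- check -/
def s3r_2_r0_one0_4_x4 : Ck := (cks stS3R s3r_2 s3r_2_m0 false .one
    ((stS3R.bins .one).getD 4 b00)
    ((s3r_2_m0.g false .one).getD 4 e00).g).getD 4 ckd

theorem s3r_2_r0_one0_4_k4 : ck1 s3r_2_r0_one0_4_x4 (((s3r_2_m0.g false .one).getD 4 e00).c.getD 4 0) = true := by
  decide +kernel

/-- check -/
def s3r_2_r0_one0_4_x5 : Ck := (cks stS3R s3r_2 s3r_2_m0 false .one
    ((stS3R.bins .one).getD 4 b00)
    ((s3r_2_m0.g false .one).getD 4 e00).g).getD 5 ckd

theorem s3r_2_r0_one0_4_k5 : ck1 s3r_2_r0_one0_4_x5 (((s3r_2_m0.g false .one).getD 4 e00).c.getD 5 0) = true := by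
  decide +kernel

def s3r_2_r0_one0_4 : cellOk stS3R s3r_2 s3r_2_m0 false .one ((stS3R.bins .one).getD 4 b00)
    ((s3r_2_m0.g false .one).getD 4 e00) = true :=
  cellOk_of 6 (by decide +kernel) (by decide +kernel) fun k hk => by
    interval_cases k
    exacts [s3r_2_r0_one0_4_k0, s3r_2_r0_one0_4_k1, s3r_2_r0_one0_4_k2, s3r_2_r0_one0_4_k3, s3r_2_r0_one0_4_k4, s3r_2_r0_one0_4_k5]

def s3r_2_r0_one0_5 : cellOk stS3R s3r_2 s3r_2_m0 false .one ((stS3R.bins .one).getD 5 b00)
    ((s3r_2_m0.g false .one).getD 5 e00) = true := by decide +kernel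

def s3r_2_r0_one0_6 : cellOk stS3R s3r_2 s3r_2_m0 false .one ((stS3R.bins .one).getD 6 b00)
    ((s3r_2_m0.g false .one).getD 6 e00) = true := by decide +kernel

/-- check -/
def s3r_2_r0_one0_7_x0 : Ck := (cks stS3R s3r_2 s3r_2_m0 false .one
    ((stS3R.bins .one).getD 7 b00)
    ((s3r_2_m0.g false .one).getD 7 e00).g).getD 0 ckd

theorem s3r_2_r0_one0_7_k0 : ck1 s3r_2_r0_one0_7_x0 (((s3r_2_m0.g false .one).getD 7 e00).c.getD 0 0) = true := by
  decide +kernel

/-- check -/
def s3r_2_r0_one0_7_x1 : Ck := (cks stS3R s3r_2 s3r_2_m0 false .one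
    ((stS3R.bins .one).getD 7 b00)
    ((s3r_2_m0.g false .one).getD 7 e00).g).getD 1 ckd

theorem s3r_2_r0_one0_7_k1 : ck1 s3r_2_r0_one0_7_x1 (((s3r_2_m0.g false .one).getD 7 e00).c.getD 1 0) = true := by
  decide +kernel

/-- check -/
def s3r_2_r0_one0_7_x2 : Ck := (cks stS3R s3r_2 s3r_2_m0 false .one
    ((stS3R.bins .one).getD 7 b00)
    ((s3r_2_m0.g false .one).getD 7 e00).g).getD 2 ckd

theorem s3r_2_r0_one0_7_k2 : ck1 s3r_2_r0_one0_7_x2 (((s3r_2_m0.g false .one).getD 7 e00).c.getD 2 0) = true := by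
  decide +kernel

/-- check -/
def s3r_2_r0_one0_7_x3 : Ck := (cks stS3R s3r_2 s3r_2_m0 false .one
    ((stS3R.bins .one).getD 7 b00)
    ((s3r_2_m0.g false .one).getD 7 e00).g).getD 3 ckd

theorem s3r_2_r0_one0_7_k3 : ck1 s3r_2_r0_one0_7_x3 (((s3r_2_m0.g false .one).getD 7 e00).c.getD 3 0) = true := by
  decide +kernel

/-- check -/
def s3r_2_r0_one0_7_x4 : Ck := (cks stS3R s3r_2 s3r_2_m0 false .one
    ((stS3R.bins .one).getD 7 b00)
    ((s3r_2_m0.g false .one).getD 7 e00).g).getD 4 ckd

theorem s3r_2_r0_one0_7_k4 : ck1 s3r_2_r0_one0_7_x4 (((s3r_2_m0.g false .one).getD 7 e00).c.getD 4 0) = true := by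
  decide +kernel

/-- check -/
def s3r_2_r0_one0_7_x5 : Ck := (cks stS3R s3r_2 s3r_2_m0 false .one
    ((stS3R.bins .one).getD 7 b00)
    ((s3r_2_m0.g false .one).getD 7 e00).g).getD 5 ckd

theorem s3r_2_r0_one0_7_k5_q1 : runT s3r_2_r0_one0_7_x5.2.1 39
    2133232730255652881683971206992832942708499851736720216247578384639804947404863521676550684036848159034516602628797549024624581652179977861207361200092777522736532658166209376243958221215377314047110837576232458276444781376266383253050088579221302932422035652655387986951364370546643011066253122009741381344838230203698446856844159792790580400236401427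
    (NumI.setL 2 (s3r_2_r0_one0_7_x5.2.2)) =
    91226066557454929121740548300915263522724270081947367807191394355349202692585052522630791635561029493586339650228446569489421951410916148939793127890950177903810029646575285361555357081172904378989567964705423150646440129829934874572484705831723271870034614513063010321125697481560100790763451056206611 := by
  decide +kernel

theorem s3r_2_r0_one0_7_k5_q2 : runT s3r_2_r0_one0_7_x5.2.1 38
    5701629159840933070108784268807203970170266880121710487949462147209325168286565782664424477222564343349146228139277910593088871963182259308737070493184386118988126852910955335097209817573306523686847997794088946915402508114370929660780294114482704491877163407066438145070356092597506299422715691012913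
    (NumI.setL 2 (NumI.setR 2 (s3r_2_r0_one0_7_x5.2.2))) =
    201687983976561963876459192983181667425411408138703443724038019821124713450145114842715830844973082064519020468568366721630389867787128943574495392955964403938787868019024595958734868919128686869580756593348126880611378295550241 := by
  decide +kernel

theorem s3r_2_r0_one0_7_k5_q3 : runT s3r_2_r0_one0_7_x5.2.1 37
    12605498998535122742278699561448854214088213008668965232752376238820294590634069677669739427810817629032438779285522920101899366736695558973405962059747775246174241751189037247420929307445542929348797287084257930038211143471890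
    (NumI.setL 0 (NumI.setR 2 (NumI.setR 2 (s3r_2_r0_one0_7_x5.2.2)))) =
    1191795739852741572612091385828720358040863229203587526587293371744760472855397667121395729902164185875 := by
  decide +kernel

theorem s3r_2_r0_one0_7_k5_q4 : runT s3r_2_r0_one0_7_x5.2.1 37
    1191795739852741572612091385828720358040863229203587526587293371744760472855397667121395729902164185874
    (NumI.setR 0 (NumI.setR 2 (NumI.setR 2 (s3r_2_r0_one0_7_x5.2.2)))) =
    1 := by
  decide +kernel

theorem s3r_2_r0_one0_7_k5_c : chkT s3r_2_r0_one0_7_x5.2.1 40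
    34131723684090446106943539311885327083335997627787523459961254154236879158477816346824810944589570544552265642060760784393993306434879645779317779201484440363784522530659350019903331539446037024753773401219719332423116502020262132048801417267540846918752570442486207791221829928746288177060049952155862101517411683259175149709506556684649286403782422834
    s3r_2_r0_one0_7_x5.2.2 = true :=
  chkT_of (runT_split rfl rfl rfl
        s3r_2_r0_one0_7_k5_q1
        (runT_split rfl rfl rfl
          s3r_2_r0_one0_7_k5_q2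
          (runT_split rfl rfl rfl
            s3r_2_r0_one0_7_k5_q3
            s3r_2_r0_one0_7_k5_q4)))

theorem s3r_2_r0_one0_7_k5 : ck1 s3r_2_r0_one0_7_x5 (((s3r_2_m0.g false .one).getD 7 e00).c.getD 5 0) = true :=
  ck1_of (by decide +kernel) s3r_2_r0_one0_7_k5_c

def s3r_2_r0_one0_7 : cellOk stS3R s3r_2 s3r_2_m0 false .one ((stS3R.bins .one).getD 7 b00)
    ((s3r_2_m0.g false .one).getD 7 e00) = true :=
  cellOk_of 6 (by decide +kernel) (by decide +kernel) fun k hk => by
    interval_cases k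
    exacts [s3r_2_r0_one0_7_k0, s3r_2_r0_one0_7_k1, s3r_2_r0_one0_7_k2, s3r_2_r0_one0_7_k3, s3r_2_r0_one0_7_k4, s3r_2_r0_one0_7_k5]

theorem s3r_2_r0_one0 : rowsOk stS3R s3r_2 s3r_2_m0 false .one = true := by
  refine rowsOk_of fun i hi => ?_
  have hi : i < 8 := hi
  interval_cases i
  exacts [s3r_2_r0_one0_0, s3r_2_r0_one0_1, s3r_2_r0_one0_2, s3r_2_r0_one0_3, s3r_2_r0_one0_4, s3r_2_r0_one0_5, s3r_2_r0_one0_6, s3r_2_r0_one0_7]

def s3r_2_r0_one1_0 : cellOk stS3R s3r_2 s3r_2_m0 true .one ((stS3R.bins .one).getD 0 b00)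
    ((s3r_2_m0.g true .one).getD 0 e00) = true := by decide +kernel

def s3r_2_r0_one1_1 : cellOk stS3R s3r_2 s3r_2_m0 true .one ((stS3R.bins .one).getD 1 b00)
    ((s3r_2_m0.g true .one).getD 1 e00) = true := by decide +kernel

def s3r_2_r0_one1_2 : cellOk stS3R s3r_2 s3r_2_m0 true .one ((stS3R.bins .one).getD 2 b00)
    ((s3r_2_m0.g true .one).getD 2 e00) = true := by decide +kernel

def s3r_2_r0_one1_3 : cellOk stS3R s3r_2 s3r_2_m0 true .one ((stS3R.bins .one).getD 3 b00)
    ((s3r_2_m0.g true .one).getD 3 e00) = true := by decide +kernel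

/-- check -/
def s3r_2_r0_one1_4_x0 : Ck := (cks stS3R s3r_2 s3r_2_m0 true .one
    ((stS3R.bins .one).getD 4 b00)
    ((s3r_2_m0.g true .one).getD 4 e00).g).getD 0 ckd

theorem s3r_2_r0_one1_4_k0 : ck1 s3r_2_r0_one1_4_x0 (((s3r_2_m0.g true .one).getD 4 e00).c.getD 0 0) = true := by
  decide +kernel

/-- check -/
def s3r_2_r0_one1_4_x1 : Ck := (cks stS3R s3r_2 s3r_2_m0 true .one
    ((stS3R.bins .one).getD 4 b00)
    ((s3r_2_m0.g true .one).getD 4 e00).g).getD 1 ckd

theorem s3r_2_r0_one1_4_k1 : ck1 s3r_2_r0_one1_4_x1 (((s3r_2_m0.g true .one).getD 4 e00).c.getD 1 0) = true := by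
  decide +kernel

/-- check -/
def s3r_2_r0_one1_4_x2 : Ck := (cks stS3R s3r_2 s3r_2_m0 true .one
    ((stS3R.bins .one).getD 4 b00)
    ((s3r_2_m0.g true .one).getD 4 e00).g).getD 2 ckd

theorem s3r_2_r0_one1_4_k2 : ck1 s3r_2_r0_one1_4_x2 (((s3r_2_m0.g true .one).getD 4 e00).c.getD 2 0) = true := by
  decide +kernel

/-- check -/
def s3r_2_r0_one1_4_x3 : Ck := (cks stS3R s3r_2 s3r_2_m0 true .one
    ((stS3R.bins .one).getD 4 b00)
    ((s3r_2_m0.g true .one).getD 4 e00).g).getD 3 ckd

theorem s3r_2_r0_one1_4_k3 : ck1 s3r_2_r0_one1_4_x3 (((s3r_2_m0.g true .one).getD 4 e00).c.getD 3 0) = true := by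
  decide +kernel

/-- check -/
def s3r_2_r0_one1_4_x4 : Ck := (cks stS3R s3r_2 s3r_2_m0 true .one
    ((stS3R.bins .one).getD 4 b00)
    ((s3r_2_m0.g true .one).getD 4 e00).g).getD 4 ckd

theorem s3r_2_r0_one1_4_k4 : ck1 s3r_2_r0_one1_4_x4 (((s3r_2_m0.g true .one).getD 4 e00).c.getD 4 0) = true := by
  decide +kernel

/-- check -/
def s3r_2_r0_one1_4_x5 : Ck := (cks stS3R s3r_2 s3r_2_m0 true .one
    ((stS3R.bins .one).getD 4 b00)
    ((s3r_2_m0.g true .one).getD 4 e00).g).getD 5 ckd

theorem s3r_2_r0_one1_4_k5 : ck1 s3r_2_r0_one1_4_x5 (((s3r_2_m0.g true .one).getD 4 e00).c.getD 5 0) = true := by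
  decide +kernel

def s3r_2_r0_one1_4 : cellOk stS3R s3r_2 s3r_2_m0 true .one ((stS3R.bins .one).getD 4 b00)
    ((s3r_2_m0.g true .one).getD 4 e00) = true :=
  cellOk_of 6 (by decide +kernel) (by decide +kernel) fun k hk => by
    interval_cases k
    exacts [s3r_2_r0_one1_4_k0, s3r_2_r0_one1_4_k1, s3r_2_r0_one1_4_k2, s3r_2_r0_one1_4_k3, s3r_2_r0_one1_4_k4, s3r_2_r0_one1_4_k5]

def s3r_2_r0_one1_5 : cellOk stS3R s3r_2 s3r_2_m0 true .one ((stS3R.bins .one).getD 5 b00)
    ((s3r_2_m0.g true .one).getD 5 e00) = true := by decide +kernel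

def s3r_2_r0_one1_6 : cellOk stS3R s3r_2 s3r_2_m0 true .one ((stS3R.bins .one).getD 6 b00)
    ((s3r_2_m0.g true .one).getD 6 e00) = true := by decide +kernel

def s3r_2_r0_one1_7 : cellOk stS3R s3r_2 s3r_2_m0 true .one ((stS3R.bins .one).getD 7 b00)
    ((s3r_2_m0.g true .one).getD 7 e00) = true := by decide +kernel

theorem s3r_2_r0_one1 : rowsOk stS3R s3r_2 s3r_2_m0 true .one = true := by
  refine rowsOk_of fun i hi => ?_
  have hi : i < 8 := hi
  interval_cases i
  exacts [s3r_2_r0_one1_0, s3r_2_r0_one1_1, s3r_2_r0_one1_2, s3r_2_r0_one1_3, s3r_2_r0_one1_4, s3r_2_r0_one1_5, s3r_2_r0_one1_6, s3r_2_r0_one1_7]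

def s3r_2_r0_two0 : rowsOk stS3R s3r_2 s3r_2_m0 false .two = true := by decide +kernel

def s3r_2_r0_two1 : rowsOk stS3R s3r_2 s3r_2_m0 true .two = true := by decide +kernel

end OR

end Pool.Agent.Work.MP_b30479_gt.G2
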