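import Pool.Agent.Work.MP_b30479_gt.G2.OStS
import Pool.Agent.Work.MP_b30479_gt.G2.ORows
import Pool.Agent.Work.MP_b30479_gt.G2.ORowS

namespace Pool.Agent.Work.MP_b30479_gt.G2

open NumU

namespace OR

/-- windows -/
def s3z_3_wp : PC → Win
  | .one => ⟨0, 0, 0, 0, 0, 0⟩
  | .two => ⟨0, 0, 0, 0, 0, 0⟩
  | .twoE => ⟨0, 0, 0, 0, 0, 0⟩
  | .thrR => ⟨0, 0, 0, 0, 0, 0⟩
  | .thrL => ⟨0, 0, 0, 0, 0, 0⟩
  | .threeE => ⟨0, 0, 0, 0, 0, 0⟩
  | .ring => ⟨480, 1330, 470, 1500, -430, 610⟩

/-- windows -/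
def s3z_3_wq : PC → Win
  | .one => ⟨-890, 290, -820, 330, -610, 430⟩
  | .two => ⟨0, 0, 0, 0, 0, 0⟩
  | .twoE => ⟨0, 0, 0, 0, 0, 0⟩
  | .thrR => ⟨0, 0, 0, 0, 0, 0⟩
  | .thrL => ⟨0, 0, 0, 0, 0, 0⟩
  | .threeE => ⟨0, 0, 0, 0, 0, 0⟩
  | .ring => ⟨0, 0, 0, 0, 0, 0⟩

/-- mode -/
def s3z_3_m0 : Mode where
  md := .V 150 1000
  lam := 500
  ct := 500
  gp := fun
    | .one => [e00, e00, e00, e00, e00, e00, e00, e00]
    | .two => [e00, e00, e00, e00, e00, e00]
    | .twoE => [e00, e00, e00, e00, e00]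
    | .thrR => [e00, e00, e00, e00, e00, e00]
    | .thrL => [e00, e00, e00, e00, e00]
    | .threeE => [e00, e00, e00, e00, e00, e00]
    | .ring => [e00, e00, e00, ⟨2153, [54313770336483642555708236692500968832727810354, 36532488211, 557441, 8, 10292548892531362252722482, 13]⟩, ⟨2153, [0, 0, 0, 0, 173041899118265215143022403523362, 559138]⟩, ⟨-2254, [0, 0, 0, 0, 2904072648763931679291300271189931885330, 8]⟩]
  gq := fun
    | .one => [⟨1990, [8]⟩, ⟨1650, [2179]⟩, ⟨1650, [2179]⟩, ⟨1650, [557443]⟩, ⟨1650, [48537705341251715581697052350041634441566259250, 2396420783486995, 8, 8, 173074395027057965312585937068755, 190272463123028812191922053708545994958909986]⟩, ⟨-2757, [0, 0, 0, 0, 814711210969566616067580301340372737388017989340828371, 16577490385946262597024318936716884885314550758608711425660930542027130764123218059570]⟩, ⟨-2757, [0, 0, 0, 0, 557953, 143163697]⟩, ⟨-2757, [0, 0, 0, 0, 9356611950627, 10282999748634131908604195]⟩]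
    | .two => [e00, e00, e00, e00, e00, e00]
    | .twoE => [e00, e00, e00, e00, e00]
    | .thrR => [e00, e00, e00, e00, e00, e00]
    | .thrL => [e00, e00, e00, e00, e00]
    | .threeE => [e00, e00, e00, e00, e00, e00]
    | .ring => [e00, e00, e00, e00, e00, e00]

/-- mode -/
def s3z_3_m1 : Mode where
  md := .V 450 1000
  lam := 500
  ct := 1000
  gp := fun
    | .one => [e00, e00, e00, e00, e00, e00, e00, e00]
    | .two => [e00, e00, e00, e00, e00, e00]
    | .twoE => [e00, e00, e00, e00, e00]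
    | .thrR => [e00, e00, e00, e00, e00, e00]
    | .thrL => [e00, e00, e00, e00, e00]
    | .threeE => [e00, e00, e00, e00, e00, e00]
    | .ring => [e00, e00, e00, ⟨-318, [814330452147990564530139703923724566872458359821861170, 36532945171, 2177, 8, 40168367178916481732914, 13]⟩, ⟨-853, [0, 0, 0, 0, 49424516268232414809215471391728592337743129808050555631192731840407622340007255147525328216441938848022289542380973100228558019905567205820379766382265133507217747832702507322292516655905744896042227892808417539322701186710011106093741969826560739886770438473533891583986492317447398490515661503187727438170483945193465064367411732368168900298650484029756473520904813275895485638245197070243072072699884496428659426503138524941104241868568280293783363677155394956984136395797099378538129791262719660725470957867207318864468758081213579328683363851802120426274, 6272057377265440428137272258977378001982837680415575796360083132265129345826]⟩, e00]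
  gq := fun
    | .one => [⟨589, [8]⟩, ⟨249, [9380536288018]⟩, ⟨-286, [189864024564541353388098041096665000681086995]⟩, ⟨-286, [156907683193406631955]⟩, ⟨-286, [16539488387805121892826660429044886003780872441205469635432827126094765622631719272754, 2632474111437585623901812755, 8, 8, 12468982345202434809811578190936834915894932153043, 3858928791789980452641059922257222136650501959540802948933159611028739273250]⟩, e00, e00, e00]
    | .two => [e00, e00, e00, e00, e00, e00]
    | .twoE => [e00, e00, e00, e00, e00]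
    | .thrR => [e00, e00, e00, e00, e00, e00]
    | .thrL => [e00, e00, e00, e00, e00]
    | .threeE => [e00, e00, e00, e00, e00, e00]
    | .ring => [e00, e00, e00, e00, e00, e00]

/-- mode -/
def s3z_3_m2 : Mode where
  md := .V 550 1000
  lam := 250
  ct := 1000
  gp := fun
    | .one => [e00, e00, e00, e00, e00, e00, e00, e00]
    | .two => [e00, e00, e00, e00, e00, e00]
    | .twoE => [e00, e00, e00, e00, e00]
    | .thrR => [e00, e00, e00, e00, e00, e00]
    | .thrL => [e00, e00, e00, e00, e00]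
    | .threeE => [e00, e00, e00, e00, e00, e00]
    | .ring => [e00, e00, e00, ⟨-313, [4228245646733185747592332911171347475596765962250667724925180367205024233157966252478770, 9380502733075, 557443, 8, 2894435989898779047710032136441815970098, 13]⟩, e00, e00]
  gq := fun
    | .one => [⟨179, [142837777]⟩, ⟨9, [13681151954004603520398329885192903988969525940069320092680723]⟩, e00, e00, e00, e00, e00, e00]
    | .two => [e00, e00, e00, e00, e00, e00]
    | .twoE => [e00, e00, e00, e00, e00]
    | .thrR => [e00, e00, e00, e00, e00, e00]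
    | .thrL => [e00, e00, e00, e00, e00]
    | .threeE => [e00, e00, e00, e00, e00, e00]
    | .ring => [e00, e00, e00, e00, e00, e00]

/-- piece -/
def s3z_3 : Piece := ⟨6680, 7020, -820, 820, s3z_3_wp, s3z_3_wq, [s3z_3_m0, s3z_3_m1, s3z_3_m2]⟩

set_option linter.defProp false

def s3z_3_r0_one0 : rowsOk stS3Z s3z_3 s3z_3_m0 false .one = true := by decide +kernel

def s3z_3_r0_one1_0 : cellOk stS3Z s3z_3 s3z_3_m0 true .one ((stS3Z.bins .one).getD 0 b00)
    ((s3z_3_m0.g true .one).getD 0 e00) = true := by decide +kernel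

def s3z_3_r0_one1_1 : cellOk stS3Z s3z_3 s3z_3_m0 true .one ((stS3Z.bins .one).getD 1 b00)
    ((s3z_3_m0.g true .one).getD 1 e00) = true := by decide +kernel

def s3z_3_r0_one1_2 : cellOk stS3Z s3z_3 s3z_3_m0 true .one ((stS3Z.bins .one).getD 2 b00)
    ((s3z_3_m0.g true .one).getD 2 e00) = true := by decide +kernel

def s3z_3_r0_one1_3 : cellOk stS3Z s3z_3 s3z_3_m0 true .one ((stS3Z.bins .one).getD 3 b00)
    ((s3z_3_m0.g true .one).getD 3 e00) = true := by decide +kernel

def s3z_3_r0_one1_4 : cellOk stS3Z s3z_3 s3z_3_m0 true .one ((stS3Z.bins .one).getD 4 b00)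
    ((s3z_3_m0.g true .one).getD 4 e00) = true := by decide +kernel

def s3z_3_r0_one1_5 : cellOk stS3Z s3z_3 s3z_3_m0 true .one ((stS3Z.bins .one).getD 5 b00)
    ((s3z_3_m0.g true .one).getD 5 e00) = true := by decide +kernel

def s3z_3_r0_one1_6 : cellOk stS3Z s3z_3 s3z_3_m0 true .one ((stS3Z.bins .one).getD 6 b00)
    ((s3z_3_m0.g true .one).getD 6 e00) = true := by decide +kernel

def s3z_3_r0_one1_7 : cellOk stS3Z s3z_3 s3z_3_m0 true .one ((stS3Z.bins .one).getD 7 b00)
    ((s3z_3_m0.g true .one).getD 7 e00) = true := by decide +kernel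

theorem s3z_3_r0_one1 : rowsOk stS3Z s3z_3 s3z_3_m0 true .one = true := by
  refine rowsOk_of fun i hi => ?_
  have hi : i < 8 := hi
  interval_cases i
  exacts [s3z_3_r0_one1_0, s3z_3_r0_one1_1, s3z_3_r0_one1_2, s3z_3_r0_one1_3, s3z_3_r0_one1_4, s3z_3_r0_one1_5, s3z_3_r0_one1_6, s3z_3_r0_one1_7]

def s3z_3_r0_two0 : rowsOk stS3Z s3z_3 s3z_3_m0 false .two = true := by decide +kernel

def s3z_3_r0_two1 : rowsOk stS3Z s3z_3 s3z_3_m0 true .two = true := by decide +kernel

def s3z_3_r0_twoE0 : rowsOk stS3Z s3z_3 s3z_3_m0 false .twoE = true := by decide +kernel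

def s3z_3_r0_twoE1 : rowsOk stS3Z s3z_3 s3z_3_m0 true .twoE = true := by decide +kernel

def s3z_3_r0_thrR0 : rowsOk stS3Z s3z_3 s3z_3_m0 false .thrR = true := by decide +kernel

def s3z_3_r0_thrR1 : rowsOk stS3Z s3z_3 s3z_3_m0 true .thrR = true := by decide +kernel

def s3z_3_r0_thrL0 : rowsOk stS3Z s3z_3 s3z_3_m0 false .thrL = true := by decide +kernel

def s3z_3_r0_thrL1 : rowsOk stS3Z s3z_3 s3z_3_m0 true .thrL = true := by decide +kernel

def s3z_3_r0_threeE0 : rowsOk stS3Z s3z_3 s3z_3_m0 false .threeE = true := by decide +kernel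

def s3z_3_r0_threeE1 : rowsOk stS3Z s3z_3 s3z_3_m0 true .threeE = true := by decide +kernel

def s3z_3_r0_ring0 : rowsOk stS3Z s3z_3 s3z_3_m0 false .ring = true := by decide +kernel

def s3z_3_r0_ring1 : rowsOk stS3Z s3z_3 s3z_3_m0 true .ring = true := by decide +kernel

def s3z_3_r1_one0 : rowsOk stS3Z s3z_3 s3z_3_m1 false .one = true := by decide +kernel

def s3z_3_r1_one1_0 : cellOk stS3Z s3z_3 s3z_3_m1 true .one ((stS3Z.bins .one).getD 0 b00)
    ((s3z_3_m1.g true .one).getD 0 e00) = true := by decide +kernel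

def s3z_3_r1_one1_1 : cellOk stS3Z s3z_3 s3z_3_m1 true .one ((stS3Z.bins .one).getD 1 b00)
    ((s3z_3_m1.g true .one).getD 1 e00) = true := by decide +kernel

def s3z_3_r1_one1_2 : cellOk stS3Z s3z_3 s3z_3_m1 true .one ((stS3Z.bins .one).getD 2 b00)
    ((s3z_3_m1.g true .one).getD 2 e00) = true := by decide +kernel

def s3z_3_r1_one1_3 : cellOk stS3Z s3z_3 s3z_3_m1 true .one ((stS3Z.bins .one).getD 3 b00)
    ((s3z_3_m1.g true .one).getD 3 e00) = true := by decide +kernel

def s3z_3_r1_one1_4 : cellOk stS3Z s3z_3 s3z_3_m1 true .one ((stS3Z.bins .one).getD 4 b00)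
    ((s3z_3_m1.g true .one).getD 4 e00) = true := by decide +kernel

def s3z_3_r1_one1_5 : cellOk stS3Z s3z_3 s3z_3_m1 true .one ((stS3Z.bins .one).getD 5 b00)
    ((s3z_3_m1.g true .one).getD 5 e00) = true := by decide +kernel

def s3z_3_r1_one1_6 : cellOk stS3Z s3z_3 s3z_3_m1 true .one ((stS3Z.bins .one).getD 6 b00)
    ((s3z_3_m1.g true .one).getD 6 e00) = true := by decide +kernel

def s3z_3_r1_one1_7 : cellOk stS3Z s3z_3 s3z_3_m1 true .one ((stS3Z.bins .one).getD 7 b00)
    ((s3z_3_m1.g true .one).getD 7 e00) = true := by decide +kernel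

theorem s3z_3_r1_one1 : rowsOk stS3Z s3z_3 s3z_3_m1 true .one = true := by
  refine rowsOk_of fun i hi => ?_
  have hi : i < 8 := hi
  interval_cases i
  exacts [s3z_3_r1_one1_0, s3z_3_r1_one1_1, s3z_3_r1_one1_2, s3z_3_r1_one1_3, s3z_3_r1_one1_4, s3z_3_r1_one1_5, s3z_3_r1_one1_6, s3z_3_r1_one1_7]

def s3z_3_r1_two0 : rowsOk stS3Z s3z_3 s3z_3_m1 false .two = true := by decide +kernel

def s3z_3_r1_two1 : rowsOk stS3Z s3z_3 s3z_3_m1 true .two = true := by decide +kernel

def s3z_3_r1_twoE0 : rowsOk stS3Z s3z_3 s3z_3_m1 false .twoE = true := by decide +kernel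

def s3z_3_r1_twoE1 : rowsOk stS3Z s3z_3 s3z_3_m1 true .twoE = true := by decide +kernel

def s3z_3_r1_thrR0 : rowsOk stS3Z s3z_3 s3z_3_m1 false .thrR = true := by decide +kernel

def s3z_3_r1_thrR1 : rowsOk stS3Z s3z_3 s3z_3_m1 true .thrR = true := by decide +kernel

def s3z_3_r1_thrL0 : rowsOk stS3Z s3z_3 s3z_3_m1 false .thrL = true := by decide +kernel

def s3z_3_r1_thrL1 : rowsOk stS3Z s3z_3 s3z_3_m1 true .thrL = true := by decide +kernel

def s3z_3_r1_threeE0 : rowsOk stS3Z s3z_3 s3z_3_m1 false .threeE = true := by decide +kernel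

def s3z_3_r1_threeE1 : rowsOk stS3Z s3z_3 s3z_3_m1 true .threeE = true := by decide +kernel

def s3z_3_r1_ring0_0 : cellOk stS3Z s3z_3 s3z_3_m1 false .ring ((stS3Z.bins .ring).getD 0 b00)
    ((s3z_3_m1.g false .ring).getD 0 e00) = true := by decide +kernel

def s3z_3_r1_ring0_1 : cellOk stS3Z s3z_3 s3z_3_m1 false .ring ((stS3Z.bins .ring).getD 1 b00)
    ((s3z_3_m1.g false .ring).getD 1 e00) = true := by decide +kernel

def s3z_3_r1_ring0_2 : cellOk stS3Z s3z_3 s3z_3_m1 false .ring ((stS3Z.bins .ring).getD 2 b00)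
    ((s3z_3_m1.g false .ring).getD 2 e00) = true := by decide +kernel

def s3z_3_r1_ring0_3 : cellOk stS3Z s3z_3 s3z_3_m1 false .ring ((stS3Z.bins .ring).getD 3 b00)
    ((s3z_3_m1.g false .ring).getD 3 e00) = true := by decide +kernel

/-- check -/
def s3z_3_r1_ring0_4_x0 : Ck := (cks stS3Z s3z_3 s3z_3_m1 false .ring
    ((stS3Z.bins .ring).getD 4 b00)
    ((s3z_3_m1.g false .ring).getD 4 e00).g).getD 0 ckd

theorem s3z_3_r1_ring0_4_k0 : ck1 s3z_3_r1_ring0_4_x0 (((s3z_3_m1.g false .ring).getD 4 e00).c.getD 0 0) = true := by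
  decide +kernel

/-- check -/
def s3z_3_r1_ring0_4_x1 : Ck := (cks stS3Z s3z_3 s3z_3_m1 false .ring
    ((stS3Z.bins .ring).getD 4 b00)
    ((s3z_3_m1.g false .ring).getD 4 e00).g).getD 1 ckd

theorem s3z_3_r1_ring0_4_k1 : ck1 s3z_3_r1_ring0_4_x1 (((s3z_3_m1.g false .ring).getD 4 e00).c.getD 1 0) = true := by
  decide +kernel

/-- check -/
def s3z_3_r1_ring0_4_x2 : Ck := (cks stS3Z s3z_3 s3z_3_m1 false .ring
    ((stS3Z.bins .ring).getD 4 b00)
    ((s3z_3_m1.g false .ring).getD 4 e00).g).getD 2 ckd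

theorem s3z_3_r1_ring0_4_k2 : ck1 s3z_3_r1_ring0_4_x2 (((s3z_3_m1.g false .ring).getD 4 e00).c.getD 2 0) = true := by
  decide +kernel

/-- check -/
def s3z_3_r1_ring0_4_x3 : Ck := (cks stS3Z s3z_3 s3z_3_m1 false .ring
    ((stS3Z.bins .ring).getD 4 b00)
    ((s3z_3_m1.g false .ring).getD 4 e00).g).getD 3 ckd

theorem s3z_3_r1_ring0_4_k3 : ck1 s3z_3_r1_ring0_4_x3 (((s3z_3_m1.g false .ring).getD 4 e00).c.getD 3 0) = true := by
  decide +kernel

/-- check -/
def s3z_3_r1_ring0_4_x4 : Ck := (cks stS3Z s3z_3 s3z_3_m1 false .ring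
    ((stS3Z.bins .ring).getD 4 b00)
    ((s3z_3_m1.g false .ring).getD 4 e00).g).getD 4 ckd

theorem s3z_3_r1_ring0_4_k4_q1 : runT s3z_3_r1_ring0_4_x4.2.1 39
    3089032266764525925575966961983037021108945613003159726949545740025476396250453446720333013527621178001393096398810818764284876244097950363773735398891570844201109239543906707643282290994109056002639243300526096207668824169375694130858873114160046242923152404595868223999155769840462405657228843949232964885655246574591566522963233273010556268665655251859779595056550829743467852390324816890192004543742781026791214156446157808819015116785517518361460229822212184811508524737318711158633111953919978795341934866700457429029297380075848708042710240737632526642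
    (NumI.setL 2 (s3z_3_r1_ring0_4_x4.2.2)) =
    2522233799726928459914496767181472752964877337286078970318792638348513819439224634246198381601822253930136784494628929100363682440111958099470979173285119923755781578362060685634052202915036561829291495301830431794146477911399129734968863961266278911574950696909794326301049023111586487291819348359997438572137824511080981846803165440219055513958503153172771 := by
  decide +kernel

theorem s3z_3_r1_ring0_4_k4_q2 : runT s3z_3_r1_ring0_4_x4.2.1 39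
    2522233799726928459914496767181472752964877337286078970318792638348513819439224634246198381601822253930136784494628929100363682440111958099470979173285119923755781578362060685634052202915036561829291495301830431794146477911399129734968863961266278911574950696909794326301049023111586487291819348359997438572137824511080981846803165440219055513958503153172770
    (NumI.setR 2 (s3z_3_r1_ring0_4_x4.2.2)) =
    1 := by
  decide +kernel

theorem s3z_3_r1_ring0_4_k4_c : chkT s3z_3_r1_ring0_4_x4.2.1 40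
    49424516268232414809215471391728592337743129808050555631192731840407622340007255147525328216441938848022289542380973100228558019905567205820379766382265133507217747832702507322292516655905744896042227892808417539322701186710011106093741969826560739886770438473533891583986492317447398490515661503187727438170483945193465064367411732368168900298650484029756473520904813275895485638245197070243072072699884496428659426503138524941104241868568280293783363677155394956984136395797099378538129791262719660725470957867207318864468758081213579328683363851802120426274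
    s3z_3_r1_ring0_4_x4.2.2 = true :=
  chkT_of (runT_split rfl rfl rfl
        s3z_3_r1_ring0_4_k4_q1
        s3z_3_r1_ring0_4_k4_q2)

theorem s3z_3_r1_ring0_4_k4 : ck1 s3z_3_r1_ring0_4_x4 (((s3z_3_m1.g false .ring).getD 4 e00).c.getD 4 0) = true :=
  ck1_of (by decide +kernel) s3z_3_r1_ring0_4_k4_c

/-- check -/
def s3z_3_r1_ring0_4_x5 : Ck := (cks stS3Z s3z_3 s3z_3_m1 false .ring
    ((stS3Z.bins .ring).getD 4 b00)
    ((s3z_3_m1.g false .ring).getD 4 e00).g).getD 5 ckd

theorem s3z_3_r1_ring0_4_k5 : ck1 s3z_3_r1_ring0_4_x5 (((s3z_3_m1.g false .ring).getD 4 e00).c.getD 5 0) = true := by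
  decide +kernel

def s3z_3_r1_ring0_4 : cellOk stS3Z s3z_3 s3z_3_m1 false .ring ((stS3Z.bins .ring).getD 4 b00)
    ((s3z_3_m1.g false .ring).getD 4 e00) = true :=
  cellOk_of 6 (by decide +kernel) (by decide +kernel) fun k hk => by
    interval_cases k
    exacts [s3z_3_r1_ring0_4_k0, s3z_3_r1_ring0_4_k1, s3z_3_r1_ring0_4_k2, s3z_3_r1_ring0_4_k3, s3z_3_r1_ring0_4_k4, s3z_3_r1_ring0_4_k5]

def s3z_3_r1_ring0_5 : cellOk stS3Z s3z_3 s3z_3_m1 false .ring ((stS3Z.bins .ring).getD 5 b00)
    ((s3z_3_m1.g false .ring).getD 5 e00) = true := by decide +kernel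

theorem s3z_3_r1_ring0 : rowsOk stS3Z s3z_3 s3z_3_m1 false .ring = true := by
  refine rowsOk_of fun i hi => ?_
  have hi : i < 6 := hi
  interval_cases i
  exacts [s3z_3_r1_ring0_0, s3z_3_r1_ring0_1, s3z_3_r1_ring0_2, s3z_3_r1_ring0_3, s3z_3_r1_ring0_4, s3z_3_r1_ring0_5]

def s3z_3_r1_ring1 : rowsOk stS3Z s3z_3 s3z_3_m1 true .ring = true := by decide +kernel

def s3z_3_r2_one0 : rowsOk stS3Z s3z_3 s3z_3_m2 false .one = true := by decide +kernel

def s3z_3_r2_one1 : rowsOk stS3Z s3z_3 s3z_3_m2 true .one = true := by decide +kernel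

def s3z_3_r2_two0 : rowsOk stS3Z s3z_3 s3z_3_m2 false .two = true := by decide +kernel

def s3z_3_r2_two1 : rowsOk stS3Z s3z_3 s3z_3_m2 true .two = true := by decide +kernel

def s3z_3_r2_twoE0 : rowsOk stS3Z s3z_3 s3z_3_m2 false .twoE = true := by decide +kernel

def s3z_3_r2_twoE1 : rowsOk stS3Z s3z_3 s3z_3_m2 true .twoE = true := by decide +kernel

def s3z_3_r2_thrR0 : rowsOk stS3Z s3z_3 s3z_3_m2 false .thrR = true := by decide +kernel

def s3z_3_r2_thrR1 : rowsOk stS3Z s3z_3 s3z_3_m2 true .thrR = true := by decide +kernel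

def s3z_3_r2_thrL0 : rowsOk stS3Z s3z_3 s3z_3_m2 false .thrL = true := by decide +kernel

def s3z_3_r2_thrL1 : rowsOk stS3Z s3z_3 s3z_3_m2 true .thrL = true := by decide +kernel

def s3z_3_r2_threeE0 : rowsOk stS3Z s3z_3 s3z_3_m2 false .threeE = true := by decide +kernel

def s3z_3_r2_threeE1 : rowsOk stS3Z s3z_3 s3z_3_m2 true .threeE = true := by decide +kernel

def s3z_3_r2_ring0 : rowsOk stS3Z s3z_3 s3z_3_m2 false .ring = true := by decide +kernel

def s3z_3_r2_ring1 : rowsOk stS3Z s3z_3 s3z_3_m2 true .ring = true := by decide +kernel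

theorem s3z_3_r0 : allRows stS3Z s3z_3 s3z_3_m0 = true := by
  refine allRows_of fun P => ?_
  cases P
  exacts [⟨s3z_3_r0_one0, s3z_3_r0_one1⟩,
    ⟨s3z_3_r0_two0, s3z_3_r0_two1⟩,
    ⟨s3z_3_r0_twoE0, s3z_3_r0_twoE1⟩,
    ⟨s3z_3_r0_thrR0, s3z_3_r0_thrR1⟩,
    ⟨s3z_3_r0_thrL0, s3z_3_r0_thrL1⟩,
    ⟨s3z_3_r0_threeE0, s3z_3_r0_threeE1⟩,
    ⟨s3z_3_r0_ring0, s3z_3_r0_ring1⟩]

theorem s3z_3_r1 : allRows stS3Z s3z_3 s3z_3_m1 = true := by
  refine allRows_of fun P => ?_
  cases P
  exacts [⟨s3z_3_r1_one0, s3z_3_r1_one1⟩,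
    ⟨s3z_3_r1_two0, s3z_3_r1_two1⟩,
    ⟨s3z_3_r1_twoE0, s3z_3_r1_twoE1⟩,
    ⟨s3z_3_r1_thrR0, s3z_3_r1_thrR1⟩,
    ⟨s3z_3_r1_thrL0, s3z_3_r1_thrL1⟩,
    ⟨s3z_3_r1_threeE0, s3z_3_r1_threeE1⟩,
    ⟨s3z_3_r1_ring0, s3z_3_r1_ring1⟩]

theorem s3z_3_r2 : allRows stS3Z s3z_3 s3z_3_m2 = true := by
  refine allRows_of fun P => ?_
  cases P
  exacts [⟨s3z_3_r2_one0, s3z_3_r2_one1⟩,
    ⟨s3z_3_r2_two0, s3z_3_r2_two1⟩,
    ⟨s3z_3_r2_twoE0, s3z_3_r2_twoE1⟩,
    ⟨s3z_3_r2_thrR0, s3z_3_r2_thrR1⟩,
    ⟨s3z_3_r2_thrL0, s3z_3_r2_thrL1⟩,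
    ⟨s3z_3_r2_threeE0, s3z_3_r2_threeE1⟩,
    ⟨s3z_3_r2_ring0, s3z_3_r2_ring1⟩]

theorem s3z_3_ok : s3z_3.ok stS3Z = true := by
  have h : (PC.all.all fun P => PC.all.all fun Q => pairOk stS3Z s3z_3 P Q) = true := by decide +kernel
  have d0 : mdOk stS3Z s3z_3_m0.md = true := by decide +kernel
  have d1 : mdOk stS3Z s3z_3_m1.md = true := by decide +kernel
  have d2 : mdOk stS3Z s3z_3_m2.md = true := by decide +kernel
  unfold Piece.ok
  rw [h, Bool.true_and]
  show List.all [s3z_3_m0, s3z_3_m1, s3z_3_m2] _ = true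
  rw [List.all_eq_true]
  intro m hm
  simp only [List.mem_cons, List.not_mem_nil, or_false] at hm
  rcases hm with rfl | rfl | rfl
  · rw [s3z_3_r0, d0]; rfl
  · rw [s3z_3_r1, d1]; rfl
  · rw [s3z_3_r2, d2]; rfl

end OR

end Pool.Agent.Work.MP_b30479_gt.G2
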