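import Pool.Agent.Work.MP_b30479_gt.G2.OKz

namespace Pool.Agent.Work.MP_b30479_gt.G2

namespace OR

/-- caps, three or more digits `1` -/
def stR3 : Stage where
  own := .R 800 200
  XM := 800
  cr := 200
  slp := 0
  scp := 9500
  slq := 0
  scq := 9500
  bins := fun
    | .one => [⟨1250, 1500, .L 150⟩, ⟨1500, 2000, .F⟩, ⟨2000, 2500, .F⟩, ⟨2500, 3400, .F⟩]
    | .two => [⟨1500, 1600, .L 160⟩, ⟨1600, 2000, .F⟩, ⟨2000, 2500, .F⟩, ⟨2500, 3400, .F⟩]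
    | .twoE => [⟨1250, 1400, .L 140⟩, ⟨1400, 2000, .F⟩, ⟨2000, 2500, .F⟩, ⟨2500, 3400, .F⟩]
    | .thrR => [⟨1300, 2000, .F⟩, ⟨2000, 2500, .F⟩, ⟨2500, 3400, .F⟩]
    | .thrL => [⟨1100, 1500, .L 150⟩, ⟨1500, 2000, .F⟩, ⟨2000, 2500, .F⟩, ⟨2500, 3400, .F⟩]
    | .threeE => [⟨1200, 1400, .L 140⟩, ⟨1400, 2000, .F⟩, ⟨2000, 2500, .F⟩, ⟨2500, 3400, .F⟩]
    | .ring => [⟨1200, 1600, .L 160⟩, ⟨1600, 2000, .F⟩, ⟨2000, 2500, .F⟩, ⟨2500, 3400, .F⟩]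
  pp := pp1
  pw := pw1
  k0 := k02
  kind := fun P Q => (decide (P = .one) || decide (Q = .one)) && !(decide (P = .ring) || decide (Q = .ring))

/-- caps, three or more digits `1`, ring -/
def stR3Z : Stage where
  own := .R 800 200
  XM := 800
  cr := 200
  slp := 0
  scp := 9500
  slq := 0
  scq := 9500
  bins := fun
    | .one => [⟨1250, 1500, .L 150⟩, ⟨1500, 2000, .F⟩, ⟨2000, 2500, .F⟩, ⟨2500, 3400, .F⟩]
    | .two => [⟨1500, 1600, .L 160⟩, ⟨1600, 2000, .F⟩, ⟨2000, 2500, .F⟩, ⟨2500, 3400, .F⟩]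
    | .twoE => [⟨1250, 1400, .L 140⟩, ⟨1400, 2000, .F⟩, ⟨2000, 2500, .F⟩, ⟨2500, 3400, .F⟩]
    | .thrR => [⟨1300, 2000, .F⟩, ⟨2000, 2500, .F⟩, ⟨2500, 3400, .F⟩]
    | .thrL => [⟨1100, 1500, .L 150⟩, ⟨1500, 2000, .F⟩, ⟨2000, 2500, .F⟩, ⟨2500, 3400, .F⟩]
    | .threeE => [⟨1200, 1400, .L 140⟩, ⟨1400, 2000, .F⟩, ⟨2000, 2500, .F⟩, ⟨2500, 3400, .F⟩]
    | .ring => [⟨1200, 1600, .L 160⟩, ⟨1600, 2000, .F⟩, ⟨2000, 2500, .F⟩, ⟨2500, 3400, .F⟩]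
  pp := pp1
  pw := pw1
  k0 := k02
  kind := fun P Q => (decide (P = .one) || decide (Q = .one)) && (decide (P = .ring) || decide (Q = .ring))

/-- caps, two digits `1`, ramp -/
def stR2R : Stage where
  own := .R 860 200
  XM := 860
  cr := 200
  slp := 0
  scp := 9500
  slq := 0
  scq := 9500
  bins := fun
    | .one => [⟨1250, 1500, .L 150⟩, ⟨1500, 2000, .F⟩, ⟨2000, 2500, .F⟩, ⟨2500, 3400, .F⟩]
    | .two => [⟨1500, 1600, .L 160⟩, ⟨1600, 2000, .F⟩, ⟨2000, 2500, .F⟩, ⟨2500, 3400, .F⟩]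
    | .twoE => [⟨1250, 1400, .L 140⟩, ⟨1400, 2000, .F⟩, ⟨2000, 2500, .F⟩, ⟨2500, 3400, .F⟩]
    | .thrR => [⟨1300, 2000, .F⟩, ⟨2000, 2500, .F⟩, ⟨2500, 3400, .F⟩]
    | .thrL => [⟨1100, 1500, .L 150⟩, ⟨1500, 2000, .F⟩, ⟨2000, 2500, .F⟩, ⟨2500, 3400, .F⟩]
    | .threeE => [⟨1200, 1400, .L 140⟩, ⟨1400, 2000, .F⟩, ⟨2000, 2500, .F⟩, ⟨2500, 3400, .F⟩]
    | .ring => [⟨1200, 1600, .L 160⟩, ⟨1600, 2000, .F⟩, ⟨2000, 2500, .F⟩, ⟨2500, 3400, .F⟩]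
  pp := pp1
  pw := pw1
  k0 := k02
  kind := fun P Q => !(decide (P = .one) || decide (Q = .one)) && !(decide (P = .ring) && decide (Q = .ring)) && !(decide (P = .thrR) && decide (Q = .thrR)) && !(decide (P = .thrL) && decide (Q = .thrL))

/-- caps, two digits `1`, ramp, rings -/
def stR2Z : Stage where
  own := .R 860 200
  XM := 860
  cr := 200
  slp := 0
  scp := 9500
  slq := 0
  scq := 9500
  bins := fun
    | .one => [⟨1250, 1500, .L 150⟩, ⟨1500, 2000, .F⟩, ⟨2000, 2500, .F⟩, ⟨2500, 3400, .F⟩]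
    | .two => [⟨1500, 1600, .L 160⟩, ⟨1600, 2000, .F⟩, ⟨2000, 2500, .F⟩, ⟨2500, 3400, .F⟩]
    | .twoE => [⟨1250, 1400, .L 140⟩, ⟨1400, 2000, .F⟩, ⟨2000, 2500, .F⟩, ⟨2500, 3400, .F⟩]
    | .thrR => [⟨1300, 2000, .F⟩, ⟨2000, 2500, .F⟩, ⟨2500, 3400, .F⟩]
    | .thrL => [⟨1100, 1500, .L 150⟩, ⟨1500, 2000, .F⟩, ⟨2000, 2500, .F⟩, ⟨2500, 3400, .F⟩]
    | .threeE => [⟨1200, 1400, .L 140⟩, ⟨1400, 2000, .F⟩, ⟨2000, 2500, .F⟩, ⟨2500, 3400, .F⟩]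
    | .ring => [⟨1200, 1600, .L 160⟩, ⟨1600, 2000, .F⟩, ⟨2000, 2500, .F⟩, ⟨2500, 3400, .F⟩]
  pp := pp1
  pw := pw1
  k0 := k02
  kind := fun P Q => (decide (P = .ring) && decide (Q = .ring))

/-- caps, two digits `1`, flat -/
def stR2F : Stage where
  own := .F
  XM := 860
  cr := 200
  slp := 0
  scp := 9500
  slq := 0
  scq := 9500
  bins := fun
    | .one => [⟨1250, 1500, .L 150⟩, ⟨1500, 2000, .F⟩, ⟨2000, 2500, .F⟩, ⟨2500, 3400, .F⟩]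
    | .two => [⟨1500, 1600, .L 160⟩, ⟨1600, 2000, .F⟩, ⟨2000, 2500, .F⟩, ⟨2500, 3400, .F⟩]
    | .twoE => [⟨1250, 1400, .L 140⟩, ⟨1400, 2000, .F⟩, ⟨2000, 2500, .F⟩, ⟨2500, 3400, .F⟩]
    | .thrR => [⟨1300, 2000, .F⟩, ⟨2000, 2500, .F⟩, ⟨2500, 3400, .F⟩]
    | .thrL => [⟨1100, 1500, .L 150⟩, ⟨1500, 2000, .F⟩, ⟨2000, 2500, .F⟩, ⟨2500, 3400, .F⟩]
    | .threeE => [⟨1200, 1400, .L 140⟩, ⟨1400, 2000, .F⟩, ⟨2000, 2500, .F⟩, ⟨2500, 3400, .F⟩]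
    | .ring => [⟨1200, 1600, .L 160⟩, ⟨1600, 2000, .F⟩, ⟨2000, 2500, .F⟩, ⟨2500, 3400, .F⟩]
  pp := pp1
  pw := pw1
  k0 := k02
  kind := fun P Q => !(decide (P = .one) || decide (Q = .one)) && !(decide (P = .ring) && decide (Q = .ring)) && !(decide (P = .thrR) && decide (Q = .thrR)) && !(decide (P = .thrL) && decide (Q = .thrL))

/-- caps, two digits `1`, flat, rings -/
def stR2G : Stage where
  own := .F
  XM := 860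
  cr := 200
  slp := 0
  scp := 9500
  slq := 0
  scq := 9500
  bins := fun
    | .one => [⟨1250, 1500, .L 150⟩, ⟨1500, 2000, .F⟩, ⟨2000, 2500, .F⟩, ⟨2500, 3400, .F⟩]
    | .two => [⟨1500, 1600, .L 160⟩, ⟨1600, 2000, .F⟩, ⟨2000, 2500, .F⟩, ⟨2500, 3400, .F⟩]
    | .twoE => [⟨1250, 1400, .L 140⟩, ⟨1400, 2000, .F⟩, ⟨2000, 2500, .F⟩, ⟨2500, 3400, .F⟩]
    | .thrR => [⟨1300, 2000, .F⟩, ⟨2000, 2500, .F⟩, ⟨2500, 3400, .F⟩]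
    | .thrL => [⟨1100, 1500, .L 150⟩, ⟨1500, 2000, .F⟩, ⟨2000, 2500, .F⟩, ⟨2500, 3400, .F⟩]
    | .threeE => [⟨1200, 1400, .L 140⟩, ⟨1400, 2000, .F⟩, ⟨2000, 2500, .F⟩, ⟨2500, 3400, .F⟩]
    | .ring => [⟨1200, 1600, .L 160⟩, ⟨1600, 2000, .F⟩, ⟨2000, 2500, .F⟩, ⟨2500, 3400, .F⟩]
  pp := pp1
  pw := pw1
  k0 := k02
  kind := fun P Q => (decide (P = .ring) && decide (Q = .ring))

/-- caps, three or more digits `1` -/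
def stT3 : Stage where
  own := .R 800 200
  XM := 800
  cr := 200
  slp := 0
  scp := 9500
  slq := 0
  scq := 9500
  bins := fun
    | .one => [⟨1500, 2000, .F⟩, ⟨2000, 2500, .F⟩, ⟨2500, 3500, .F⟩]
    | .two => [⟨1600, 2000, .F⟩, ⟨2000, 2500, .F⟩, ⟨2500, 3500, .F⟩]
    | .twoE => [⟨1400, 2000, .F⟩, ⟨2000, 2500, .F⟩, ⟨2500, 3500, .F⟩]
    | .thrR => [⟨1300, 2000, .F⟩, ⟨2000, 2500, .F⟩, ⟨2500, 3500, .F⟩]
    | .thrL => [⟨1500, 2000, .F⟩, ⟨2000, 2500, .F⟩, ⟨2500, 3500, .F⟩]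
    | .threeE => [⟨1400, 2000, .F⟩, ⟨2000, 2500, .F⟩, ⟨2500, 3500, .F⟩]
    | .ring => [⟨1450, 1600, .L 160⟩, ⟨1600, 2000, .F⟩, ⟨2000, 2500, .F⟩, ⟨2500, 3500, .F⟩]
  pp := pp1
  pw := pw1
  k0 := k02
  kind := fun P Q => (decide (P = .one) || decide (Q = .one)) && !(decide (P = .ring) || decide (Q = .ring))

/-- caps, three or more digits `1`, ring -/
def stT3Z : Stage where
  own := .R 800 200
  XM := 800
  cr := 200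
  slp := 0
  scp := 9500
  slq := 0
  scq := 9500
  bins := fun
    | .one => [⟨1500, 2000, .F⟩, ⟨2000, 2500, .F⟩, ⟨2500, 3500, .F⟩]
    | .two => [⟨1600, 2000, .F⟩, ⟨2000, 2500, .F⟩, ⟨2500, 3500, .F⟩]
    | .twoE => [⟨1400, 2000, .F⟩, ⟨2000, 2500, .F⟩, ⟨2500, 3500, .F⟩]
    | .thrR => [⟨1300, 2000, .F⟩, ⟨2000, 2500, .F⟩, ⟨2500, 3500, .F⟩]
    | .thrL => [⟨1500, 2000, .F⟩, ⟨2000, 2500, .F⟩, ⟨2500, 3500, .F⟩]
    | .threeE => [⟨1400, 2000, .F⟩, ⟨2000, 2500, .F⟩, ⟨2500, 3500, .F⟩]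
    | .ring => [⟨1450, 1600, .L 160⟩, ⟨1600, 2000, .F⟩, ⟨2000, 2500, .F⟩, ⟨2500, 3500, .F⟩]
  pp := pp1
  pw := pw1
  k0 := k02
  kind := fun P Q => (decide (P = .one) || decide (Q = .one)) && (decide (P = .ring) || decide (Q = .ring))

/-- caps, two digits `1`, flat, next to a region with three crossings -/
def stT2 : Stage where
  own := .F
  XM := 860
  cr := 200
  slp := 0
  scp := 9500
  slq := 0
  scq := 9500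
  bins := fun
    | .one => [⟨1500, 2000, .F⟩, ⟨2000, 2500, .F⟩, ⟨2500, 3500, .F⟩]
    | .two => [⟨1600, 2000, .F⟩, ⟨2000, 2500, .F⟩, ⟨2500, 3500, .F⟩]
    | .twoE => [⟨1400, 2000, .F⟩, ⟨2000, 2500, .F⟩, ⟨2500, 3500, .F⟩]
    | .thrR => [⟨1300, 2000, .F⟩, ⟨2000, 2500, .F⟩, ⟨2500, 3500, .F⟩]
    | .thrL => [⟨1500, 2000, .F⟩, ⟨2000, 2500, .F⟩, ⟨2500, 3500, .F⟩]
    | .threeE => [⟨1400, 2000, .F⟩, ⟨2000, 2500, .F⟩, ⟨2500, 3500, .F⟩]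
    | .ring => [⟨1450, 1600, .L 160⟩, ⟨1600, 2000, .F⟩, ⟨2000, 2500, .F⟩, ⟨2500, 3500, .F⟩]
  pp := pp1
  pw := pw1
  k0 := k02
  kind := fun P Q => !(decide (P = .one) || decide (Q = .one)) && (decide (P = .thrR) || decide (P = .thrL) || decide (Q = .thrR) || decide (Q = .thrL)) && !(decide (P = .ring) || decide (Q = .ring)) && !(decide (P = .thrR) && decide (Q = .thrR)) && !(decide (P = .thrL) && decide (Q = .thrL))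

/-- caps, two digits `1`, flat, ring and three crossings -/
def stT2Z : Stage where
  own := .F
  XM := 860
  cr := 200
  slp := 0
  scp := 9500
  slq := 0
  scq := 9500
  bins := fun
    | .one => [⟨1500, 2000, .F⟩, ⟨2000, 2500, .F⟩, ⟨2500, 3500, .F⟩]
    | .two => [⟨1600, 2000, .F⟩, ⟨2000, 2500, .F⟩, ⟨2500, 3500, .F⟩]
    | .twoE => [⟨1400, 2000, .F⟩, ⟨2000, 2500, .F⟩, ⟨2500, 3500, .F⟩]
    | .thrR => [⟨1300, 2000, .F⟩, ⟨2000, 2500, .F⟩, ⟨2500, 3500, .F⟩]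
    | .thrL => [⟨1500, 2000, .F⟩, ⟨2000, 2500, .F⟩, ⟨2500, 3500, .F⟩]
    | .threeE => [⟨1400, 2000, .F⟩, ⟨2000, 2500, .F⟩, ⟨2500, 3500, .F⟩]
    | .ring => [⟨1450, 1600, .L 160⟩, ⟨1600, 2000, .F⟩, ⟨2000, 2500, .F⟩, ⟨2500, 3500, .F⟩]
  pp := pp1
  pw := pw1
  k0 := k02
  kind := fun P Q => !(decide (P = .one) || decide (Q = .one)) && (decide (P = .thrR) || decide (P = .thrL) || decide (Q = .thrR) || decide (Q = .thrL)) && (decide (P = .ring) || decide (Q = .ring))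

end OR

end Pool.Agent.Work.MP_b30479_gt.G2
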