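import Pool.Agent.Work.MP_b30479_gt.G2.OCapA
import Pool.Agent.Work.MP_b30479_gt.G2.OS3l_0
import Pool.Agent.Work.MP_b30479_gt.G2.OS3l_1
import Pool.Agent.Work.MP_b30479_gt.G2.OS3f_0
import Pool.Agent.Work.MP_b30479_gt.G2.OS3f_1
import Pool.Agent.Work.MP_b30479_gt.G2.OS2f_0
import Pool.Agent.Work.MP_b30479_gt.G2.OS2f_1
import Pool.Agent.Work.MP_b30479_gt.G2.OS2f_2
import Pool.Agent.Work.MP_b30479_gt.G2.OS2f_3
import Pool.Agent.Work.MP_b30479_gt.G2.OS2f_4
import Pool.Agent.Work.MP_b30479_gt.G2.OS2f_5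
import Pool.Agent.Work.MP_b30479_gt.G2.OS2f_6
import Pool.Agent.Work.MP_b30479_gt.G2.OS2f_7
import Pool.Agent.Work.MP_b30479_gt.G2.OS2f_8
import Pool.Agent.Work.MP_b30479_gt.G2.OS2f_9
import Pool.Agent.Work.MP_b30479_gt.G2.OS2f_10
import Pool.Agent.Work.MP_b30479_gt.G2.OS2f_11
import Pool.Agent.Work.MP_b30479_gt.G2.OS2f_12
import Pool.Agent.Work.MP_b30479_gt.G2.OS2f_13
import Pool.Agent.Work.MP_b30479_gt.G2.OS2f_14
import Pool.Agent.Work.MP_b30479_gt.G2.OS3r_0
import Pool.Agent.Work.MP_b30479_gt.G2.OS3r_1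
import Pool.Agent.Work.MP_b30479_gt.G2.OS3r_2
import Pool.Agent.Work.MP_b30479_gt.G2.OS3r_3
import Pool.Agent.Work.MP_b30479_gt.G2.OS3z_0
import Pool.Agent.Work.MP_b30479_gt.G2.OS3z_1
import Pool.Agent.Work.MP_b30479_gt.G2.OS3z_2
import Pool.Agent.Work.MP_b30479_gt.G2.OS3z_3
import Pool.Agent.Work.MP_b30479_gt.G2.OS2r_0
import Pool.Agent.Work.MP_b30479_gt.G2.OS2r_1

/-!
# The sum of the two hinges of a digit `1` next to a digit `1` is at most `.95`
-/

namespace Pool.Agent.Work.MP_b30479_gt.G2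

open Finset VOL Filter Topology SR

namespace OR

/-- the caps before the round of the sums -/
def gS : PC → ℤ
  | .one => 7000
  | .two => 5600
  | .twoE => 3700
  | .thrR => 6500
  | .thrL => 3900
  | .threeE => 6000
  | .ring => 6500

theorem stS3L_ok : StOk stS3L fA gS :=
  ⟨goodA rfl (by decide +kernel), rfl, rfl, Or.inl ⟨rfl, by decide⟩, by decide +kernel⟩

theorem stS3F_ok : StOk stS3F fA gS :=
  ⟨goodA rfl (by decide +kernel), rfl, rfl, Or.inl ⟨rfl, by decide⟩, by decide +kernel⟩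

theorem stS2F_ok : StOk stS2F fA gS :=
  ⟨goodA rfl (by decide +kernel), rfl, rfl, Or.inl ⟨rfl, by decide⟩, by decide +kernel⟩

theorem stS3R_ok : StOk stS3R fA gS :=
  ⟨goodA rfl (by decide +kernel), rfl, rfl, Or.inl ⟨rfl, by decide⟩, by decide +kernel⟩

theorem stS3Z_ok : StOk stS3Z fA gS :=
  ⟨goodA rfl (by decide +kernel), rfl, rfl, Or.inl ⟨rfl, by decide⟩, by decide +kernel⟩

theorem stS2R_ok : StOk stS2R fA gS :=
  ⟨goodA rfl (by decide +kernel), rfl, rfl, Or.inl ⟨rfl, by decide⟩, by decide +kernel⟩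

theorem pS3L : POk stS3L [s3l_0, s3l_1] 3000 4750 (-820) 820 := by
  refine ⟨?_, by decide +kernel⟩
  intro p hp
  simp only [List.mem_cons, List.not_mem_nil, or_false] at hp
  rcases hp with rfl | rfl
  · exact ⟨s3l_0_ok, by decide, by decide, by decide⟩
  · exact ⟨s3l_1_ok, by decide, by decide, by decide⟩

theorem pS3F : POk stS3F [s3f_0, s3f_1] 4750 6000 (-820) 820 := by
  refine ⟨?_, by decide +kernel⟩
  intro p hp
  simp only [List.mem_cons, List.not_mem_nil, or_false] at hp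
  rcases hp with rfl | rfl
  · exact ⟨s3f_0_ok, by decide, by decide, by decide⟩
  · exact ⟨s3f_1_ok, by decide, by decide, by decide⟩

theorem pS2F : POk stS2F [s2f_0, s2f_1, s2f_2, s2f_3, s2f_4, s2f_5, s2f_6, s2f_7, s2f_8, s2f_9, s2f_10, s2f_11, s2f_12, s2f_13, s2f_14] 3000 6600 (-820) 820 := by
  refine ⟨?_, by decide +kernel⟩
  intro p hp
  simp only [List.mem_cons, List.not_mem_nil, or_false] at hp
  rcases hp with rfl | rfl | rfl | rfl | rfl | rfl | rfl | rfl | rfl | rfl | rfl | rfl | rfl | rfl | rfl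
  · exact ⟨s2f_0_ok, by decide, by decide, by decide⟩
  · exact ⟨s2f_1_ok, by decide, by decide, by decide⟩
  · exact ⟨s2f_2_ok, by decide, by decide, by decide⟩
  · exact ⟨s2f_3_ok, by decide, by decide, by decide⟩
  · exact ⟨s2f_4_ok, by decide, by decide, by decide⟩
  · exact ⟨s2f_5_ok, by decide, by decide, by decide⟩
  · exact ⟨s2f_6_ok, by decide, by decide, by decide⟩
  · exact ⟨s2f_7_ok, by decide, by decide, by decide⟩
  · exact ⟨s2f_8_ok, by decide, by decide, by decide⟩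
  · exact ⟨s2f_9_ok, by decide, by decide, by decide⟩
  · exact ⟨s2f_10_ok, by decide, by decide, by decide⟩
  · exact ⟨s2f_11_ok, by decide, by decide, by decide⟩
  · exact ⟨s2f_12_ok, by decide, by decide, by decide⟩
  · exact ⟨s2f_13_ok, by decide, by decide, by decide⟩
  · exact ⟨s2f_14_ok, by decide, by decide, by decide⟩

theorem pS3R : POk stS3R [s3r_0, s3r_1, s3r_2, s3r_3] 6000 7000 (-820) 820 := by
  refine ⟨?_, by decide +kernel⟩
  intro p hp
  simp only [List.mem_cons, List.not_mem_nil, or_false] at hp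
  rcases hp with rfl | rfl | rfl | rfl
  · exact ⟨s3r_0_ok, by decide, by decide, by decide⟩
  · exact ⟨s3r_1_ok, by decide, by decide, by decide⟩
  · exact ⟨s3r_2_ok, by decide, by decide, by decide⟩
  · exact ⟨s3r_3_ok, by decide, by decide, by decide⟩

theorem pS3Z : POk stS3Z [s3z_0, s3z_1, s3z_2, s3z_3] 6000 7000 (-820) 820 := by
  refine ⟨?_, by decide +kernel⟩
  intro p hp
  simp only [List.mem_cons, List.not_mem_nil, or_false] at hp
  rcases hp with rfl | rfl | rfl | rfl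
  · exact ⟨s3z_0_ok, by decide, by decide, by decide⟩
  · exact ⟨s3z_1_ok, by decide, by decide, by decide⟩
  · exact ⟨s3z_2_ok, by decide, by decide, by decide⟩
  · exact ⟨s3z_3_ok, by decide, by decide, by decide⟩

theorem pS2R : POk stS2R [s2r_0, s2r_1] 6600 7000 (-820) 820 := by
  refine ⟨?_, by decide +kernel⟩
  intro p hp
  simp only [List.mem_cons, List.not_mem_nil, or_false] at hp
  rcases hp with rfl | rfl
  · exact ⟨s2r_0_ok, by decide, by decide, by decide⟩
  · exact ⟨s2r_1_ok, by decide, by decide, by decide⟩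

/-- the stage of a hinge: runs of three or more digits `1` -/
theorem kindS3 {P Q : PC} (hc : P = .one ∨ Q = .one) : stS3F.kind P Q = true ∧
    (P ≠ .one → stS3L.kind P Q = true) ∧ (stS3R.kind P Q = true ∨ stS3Z.kind P Q = true) := by
  cases P <;> cases Q <;> simp_all [stS3F, stS3L, stS3R, stS3Z]

theorem kindS2 {P Q : PC} (hn : n33 P Q) (hc : ¬ (P = .one ∨ Q = .one)) :
    stS2F.kind P Q = true ∧ stS2R.kind P Q = true := by
  unfold n33 at hn
  cases P <;> cases Q <;> simp_all [stS2F, stS2R]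

variable {M : ℕ} {b : Fin (M + 1) → ℤ} {zs : DD (tyW b) ⊕ ZZ (tyW b) → ℂ}
variable {y : DD (tyW b) ⊕ ZZ (tyW b) → ℝ}
variable {h h' h'' : Fin M} {i j k l : Fin (M + 1)} {s : Fin 3}

/-- the caps at the digits `1` -/
def CapS (b : Fin (M + 1) → ℤ) (y : DD (tyW b) ⊕ ZZ (tyW b) → ℝ) : Prop :=
  ∀ {h : Fin M} {i j : Fin (M + 1)} {p : Fin 3}, Adj h i p j → clsW b i = .one →
    y (.inl (.inl h)) ≤ (gS (pcOf (clsW b j) p) : ℝ) / 10000

theorem Ctx.hTr (C : Ctx b h h' h'' i j k l s) (hP : LocP b zs) :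
    ((-820 : ℤ) : ℝ) / 10000 ≤ hT b zs i h ∧ hT b zs i h ≤ ((820 : ℤ) : ℝ) / 10000 := by
  have e1 := (C.win hP).t1
  have e0 := (C.win hP).t0
  have e2 : ((pw1 (cP b k s) (cQ b l s)).t1 : ℝ) ≤ 820 := by
    exact_mod_cast (pw_t (cP b k s) (cQ b l s)).1
  have e3 : (-820 : ℝ) ≤ ((pw1 (cP b k s) (cQ b l s)).t0 : ℝ) := by
    exact_mod_cast (pw_t (cP b k s) (cQ b l s)).2
  push_cast
  constructor <;> linarith only [e0, e3, e1, e2]

/-- the contradiction at a hinge `1|1` of a digit with large sum -/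
theorem Ctx.sum_false (C : Ctx b h h' h'' i j k l s) (hb : ClassW b) (hP : LocP b zs)
    (hF : Flo b zs y) (hc : CapS b y) (hy : Mx b zs y) (hpos : ∀ h : Fin M, 0 < y (.inl (.inl h)))
    (hx : 95 / 100 < y (.inl (.inl h)) + y (.inl (.inl h')))
    (mP : clsW b k = .one → y (.inl (.inl h')) ≤ y (.inl (.inl h)))
    (mQ : clsW b l = .one → 475 / 1000 ≤ y (.inl (.inl h)) →
      y (.inl (.inl h'')) ≤ y (.inl (.inl h))) : False := by
  obtain ⟨x1, x2, x3⟩ := C.xm
  have gP : y (.inl (.inl h')) ≤ (gS (cP b k s) : ℝ) / 10000 := hc C.A1 C.ci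
  have gQ : y (.inl (.inl h'')) ≤ (gS (cQ b l s) : ℝ) / 10000 := hc C.A2 C.cj
  have gO : y (.inl (.inl h)) ≤ 70 / 100 := by
    have h1 := hc C.A C.ci
    rw [C.cj] at h1
    simp only [pcOf, gS] at h1
    push_cast at h1
    linarith only [h1]
  obtain ⟨ht0, ht1⟩ := C.hTr hP
  have p1 := hpos h
  have p3 := hpos h''
  have bP : (gS (cP b k s) : ℝ) ≤ 7000 := by
    have : gS (cP b k s) ≤ 7000 := by cases cP b k s <;> decide
    exact_mod_cast this
  have bQ : (gS (cQ b l s) : ℝ) ≤ 7000 := by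
    have : gS (cQ b l s) ≤ 7000 := by cases cQ b l s <;> decide
    exact_mod_cast this
  have bP' : cP b k s ≠ .one → (gS (cP b k s) : ℝ) ≤ 6500 := by
    intro hn
    have : gS (cP b k s) ≤ 6500 := by
      revert hn
      cases cP b k s <;> simp [gS]
    exact_mod_cast this
  have hone : cP b k s = .one → 475 / 1000 ≤ y (.inl (.inl h)) := by
    intro e
    have := mP (pcOf_one.1 e)
    linarith only [hx, this]
  by_cases c1 : cP b k s = .one ∨ cQ b l s = .one
  · obtain ⟨k1, k2, k3⟩ := kindS3 c1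
    rw [if_pos c1] at x1
    rcases lt_or_ge (y (.inl (.inl h))) (475 / 1000) with hl | hl
    · have hn : cP b k s ≠ .one := fun e => absurd (hone e) (not_le.2 hl)
      have := bP' hn
      refine C.stage_false hb hP hF hy hpos stS3L_ok ⟨?_, ?_, Or.inr ⟨rfl, ?_, ?_⟩⟩ pS3L (k2 hn)
        ?_ ?_ ht0 ht1 ?_ ?_ ?_ ?_ (fun hm => absurd hm (by decide)) (fun hm => absurd hm (by decide))
        gP gQ
      · rw [x1]; norm_num [stS3L]
      · rw [x3]; norm_num [stS3L]
      · rw [x2]; linarith only [hx, gP, p1, bP]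
      · rw [x1, x3]; linarith only [p1, hl]
      · push_cast; linarith only [hx, gP, this]
      · push_cast; linarith only [hl]
      all_goals simp only [stS3L]; push_cast; linarith only [hx, gP, p1, bP, hl, p3, gQ, bQ]
    · rcases le_total (y (.inl (.inl h))) (60 / 100) with hf | hf
      · refine C.stage_false hb hP hF hy hpos stS3F_ok ⟨?_, ?_, Or.inr ⟨rfl, ?_, ?_⟩⟩ pS3F k1
          ?_ ?_ ht0 ht1 ?_ ?_ ?_ ?_ (fun _ => mP) (fun _ e => mQ e hl) gP gQ
        · rw [x1]; norm_num [stS3F]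
        · rw [x3]; norm_num [stS3F]
        · rw [x2]; linarith only [hx, gP, p1, bP]
        · rw [x1, x3]; linarith only [hf]
        · push_cast; linarith only [hl]
        · push_cast; linarith only [hf]
        all_goals simp only [stS3F]; push_cast; linarith only [hx, gP, p1, bP, hf, p3, gQ, bQ]
      · rcases eq_or_lt_of_le hf with he | hlt
        · refine C.stage_false hb hP hF hy hpos stS3F_ok ⟨?_, ?_, Or.inr ⟨rfl, ?_, ?_⟩⟩ pS3F k1
            ?_ ?_ ht0 ht1 ?_ ?_ ?_ ?_ (fun _ => mP) (fun _ e => mQ e hl) gP gQ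
          · rw [x1]; norm_num [stS3F]
          · rw [x3]; norm_num [stS3F]
          · rw [x2]; linarith only [hx, gP, p1, bP]
          · rw [x1, x3]; linarith only [he]
          · push_cast; linarith only [hl]
          · push_cast; linarith only [he]
          all_goals simp only [stS3F]; push_cast; linarith only [hx, gP, p1, bP, he, p3, gQ, bQ]
        · rcases k3 with k3 | k3
          · refine C.stage_false hb hP hF hy hpos stS3R_ok ⟨?_, ?_, Or.inl ⟨rfl, ?_⟩⟩ pS3R k3
              ?_ ?_ ht0 ht1 ?_ ?_ ?_ ?_ (fun _ => mP) (fun _ e => mQ e hl) gP gQ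
            · rw [x1]; norm_num [stS3R]
            · rw [x3]; norm_num [stS3R]
            · rw [x1, x3]; linarith only [hlt]
            · push_cast; linarith only [hlt]
            · push_cast; linarith only [gO]
            all_goals simp only [stS3R]; push_cast; linarith only [hx, gP, gO, bP, hlt, p3, gQ, bQ]
          · refine C.stage_false hb hP hF hy hpos stS3Z_ok ⟨?_, ?_, Or.inl ⟨rfl, ?_⟩⟩ pS3Z k3
              ?_ ?_ ht0 ht1 ?_ ?_ ?_ ?_ (fun _ => mP) (fun _ e => mQ e hl) gP gQ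
            · rw [x1]; norm_num [stS3Z]
            · rw [x3]; norm_num [stS3Z]
            · rw [x1, x3]; linarith only [hlt]
            · push_cast; linarith only [hlt]
            · push_cast; linarith only [gO]
            all_goals simp only [stS3Z]; push_cast; linarith only [hx, gP, gO, bP, hlt, p3, gQ, bQ]
  · obtain ⟨k1, k2⟩ := kindS2 C.n33 c1
    rw [if_neg c1] at x1
    have hn : cP b k s ≠ .one := fun e => c1 (Or.inl e)
    have hn' : cQ b l s ≠ .one := fun e => c1 (Or.inr e)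
    have := bP' hn
    have nP : ∀ {S : Stage}, S.mx = true → clsW b k = .one →
        y (.inl (.inl h')) ≤ y (.inl (.inl h)) := fun _ e => absurd (pcOf_one.2 e) hn
    have nQ : ∀ {S : Stage}, S.mx = true → clsW b l = .one →
        y (.inl (.inl h'')) ≤ y (.inl (.inl h)) := fun _ e => absurd (pcOf_one.2 e) hn'
    rcases le_or_gt (y (.inl (.inl h))) (66 / 100) with hf | hf
    · refine C.stage_false hb hP hF hy hpos stS2F_ok ⟨?_, ?_, Or.inr ⟨rfl, ?_, ?_⟩⟩ pS2F k1
        ?_ ?_ ht0 ht1 ?_ ?_ ?_ ?_ nP nQ gP gQ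
      · rw [x1]; norm_num [stS2F]
      · rw [x3]; norm_num [stS2F]
      · rw [x2]; linarith only [hx, gP, p1, bP]
      · rw [x1, x3]; linarith only [hf]
      · push_cast; linarith only [hx, gP, this]
      · push_cast; linarith only [hf]
      all_goals simp only [stS2F]; push_cast; linarith only [hx, gP, p1, bP, hf, p3, gQ, bQ]
    · refine C.stage_false hb hP hF hy hpos stS2R_ok ⟨?_, ?_, Or.inl ⟨rfl, ?_⟩⟩ pS2R k2
        ?_ ?_ ht0 ht1 ?_ ?_ ?_ ?_ nP nQ gP gQ
      · rw [x1]; norm_num [stS2R]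
      · rw [x3]; norm_num [stS2R]
      · rw [x1, x3]; linarith only [hf]
      · push_cast; linarith only [hf]
      · push_cast; linarith only [gO]
      all_goals simp only [stS2R]; push_cast; linarith only [hx, gP, gO, p1, bP, p3, gQ, bQ]

/-- **Round S at the digits `1` next to a digit `1`: the sum of the two hinges is at most `.95`.** -/
theorem sum_one (hb : ClassW b) (hP : LocP b zs) (hF : Flo b zs y) (hc : CapS b y)
    (hy : Mx b zs y) (hpos : ∀ h : Fin M, 0 < y (.inl (.inl h))) (A : Adj h i s j)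
    (A1 : Adj h' i s.rev k) (ci : clsW b i = .one) (cj : clsW b j = .one) :
    y (.inl (.inl h)) + y (.inl (.inl h')) ≤ 95 / 100 := by
  classical
  by_contra hcon
  push Not at hcon
  let Bad : Fin M → Prop := fun h => ∃ (h' : Fin M) (i j k : Fin (M + 1)) (s : Fin 3),
    Adj h i s j ∧ Adj h' i s.rev k ∧ clsW b i = .one ∧ clsW b j = .one ∧
      95 / 100 < y (.inl (.inl h)) + y (.inl (.inl h')) ∧
      (clsW b k = .one → y (.inl (.inl h')) ≤ y (.inl (.inl h)))
  have hne : ∃ h, Bad h := by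
    by_cases hk : clsW b k = .one ∧ y (.inl (.inl h)) < y (.inl (.inl h'))
    · refine ⟨h', h, i, k, j, s.rev, A1, ?_, ci, hk.1, by linarith only [hcon], fun _ => hk.2.le⟩
      rw [Fin.rev_rev]
      exact A
    · refine ⟨h, h', i, j, k, s, A, A1, ci, cj, hcon, fun e => ?_⟩
      by_contra hc'
      exact hk ⟨e, not_le.1 hc'⟩
  obtain ⟨hx, hBx⟩ := hne
  obtain ⟨h0, hm, hmax⟩ := (Finset.univ.filter Bad).exists_max_image
    (fun h => y (.inl (.inl h))) ⟨hx, by rw [Finset.mem_filter]; exact ⟨Finset.mem_univ _, hBx⟩⟩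
  rw [Finset.mem_filter] at hm
  obtain ⟨h1, i0, j0, k0, s0, B1, B2, d1, d2, d3, d4⟩ := hm.2
  have e2 := clsW_inner hb (Or.inl d2)
  rcases B1.symm.other b zs y with ⟨f1, -⟩ | ⟨-, h2, l0, B3⟩
  · rw [f1] at e2
    exact absurd e2 (by decide)
  have B3' := B3
  rw [Fin.rev_rev] at B3
  have C : Ctx b h0 h1 h2 i0 j0 k0 l0 s0 := ⟨B1, B2, B3, d1, d2⟩
  refine C.sum_false hb hP hF hc hy hpos d3 d4 fun el hl => ?_
  by_contra hc'
  push Not at hc'
  have hb2 : Bad h2 := ⟨h0, j0, l0, i0, s0, B3, B1.symm, d2, el, by linarith only [hl, hc'], fun _ => hc'.le⟩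
  have := hmax h2 (by rw [Finset.mem_filter]; exact ⟨Finset.mem_univ _, hb2⟩)
  linarith only [hc', this]

end OR

end Pool.Agent.Work.MP_b30479_gt.G2
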