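import Pool.Agent.Work.MP_b30479_gt.G2.ORow
import Pool.Agent.Work.MP_b30479_gt.G2.WVal

/-!
# Tables of rows for a hinge between two digits `1`
-/

namespace Pool.Agent.Work.MP_b30479_gt.G2

open VOL NumU

namespace OR

/-- classes of the other neighbours (regions with three crossings by their side) -/
inductive PC
  | one | two | twoE | thrR | thrL | threeE | ring
  deriving DecidableEq

/-- all classes -/
def PC.all : List PC := [.one, .two, .twoE, .thrR, .thrL, .threeE, .ring]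

theorem PC.mem_all (P : PC) : P ∈ PC.all := by cases P <;> simp [PC.all]

/-- path parameters over `1000` -/
structure PP where
  XM : ℕ
  cl : ℕ
  cr : ℕ

/-- a part of the range of the partner, over `10000` -/
structure Bin where
  lo : ℤ
  hi : ℤ
  seg : Seg

/-- the part of the path fits to the range -/
def Bin.ok (q : PP) (b : Bin) : Bool :=
  match b.seg with
  | .L cl => decide (cl = q.cl) && decide (b.hi ≤ 10 * q.cl)
  | .F => decide (10 * (q.cl : ℤ) ≤ b.lo) && decide (b.hi ≤ 10 * ((q.XM : ℤ) - q.cr))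
  | .R XM cr => decide (XM = q.XM) && decide (cr = q.cr) &&
      decide (10 * ((q.XM : ℤ) - q.cr) ≤ b.lo)

/-- good parameters -/
def PP.good (q : PP) : Bool := decide (0 < q.cl) && decide (0 < q.cr) && decide (q.cl + q.cr < q.XM)

/-- a window of a class on one side -/
structure Win where
  k0 : ℤ
  k1 : ℤ
  s0 : ℤ
  s1 : ℤ
  t0 : ℤ
  t1 : ℤ

/-- the window of a pair: `T`, `kP`, `T + kP`, `kQ`, `-T + kQ`, upper bound of `kP + kQ` -/
structure PWin where
  t0 : ℤ
  t1 : ℤ
  p0 : ℤ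
  p1 : ℤ
  a0 : ℤ
  a1 : ℤ
  q0 : ℤ
  q1 : ℤ
  b0 : ℤ
  b1 : ℤ
  K1 : ℤ

/-- the heights are in the window -/
structure PWin.In (W : PWin) (T kP kQ : ℝ) : Prop where
  t0 : (W.t0 : ℝ) / 10000 ≤ T
  t1 : T ≤ (W.t1 : ℝ) / 10000
  p0 : (W.p0 : ℝ) / 10000 ≤ kP
  p1 : kP ≤ (W.p1 : ℝ) / 10000
  a0 : (W.a0 : ℝ) / 10000 ≤ T + kP
  a1 : T + kP ≤ (W.a1 : ℝ) / 10000
  q0 : (W.q0 : ℝ) / 10000 ≤ kQ
  q1 : kQ ≤ (W.q1 : ℝ) / 10000
  b0 : (W.b0 : ℝ) / 10000 ≤ -T + kQ
  b1 : -T + kQ ≤ (W.b1 : ℝ) / 10000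
  K1 : kP + kQ ≤ (W.K1 : ℝ) / 10000

/-- the two kinds of steps: the side, or the value of the move to `c` (`cf`: factor of the height at
`c`); over `1000` -/
inductive Md
  | D | V (c cf : ℕ)

/-- bound of a side (`1000000`: none) and certificates -/
structure Ent where
  g : ℤ
  c : List ℕ

/-- no bound -/
def e00 : Ent := ⟨1000000, []⟩

/-- a mode: the step, the coefficients, and the bounds of the sides -/
structure Mode where
  md : Md
  lam : ℕ
  ct : ℤ
  gp : PC → List Ent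
  gq : PC → List Ent

/-- the data of a stage -/
structure Stage where
  own : Own
  XM : ℕ
  cr : ℕ
  slp : ℤ
  scp : ℤ
  slq : ℤ
  scq : ℤ
  bins : PC → List Bin
  pp : PC → PP
  pw : PC → PC → PWin
  k0 : PC → ℤ
  kind : PC → PC → Bool
  mx : Bool := true

/-- a piece: ranges of `x` and `T`, windows, modes -/
structure Piece where
  x0 : ℤ
  x1 : ℤ
  t0 : ℤ
  t1 : ℤ
  wp : PC → Win
  wq : PC → Win
  modes : List Mode

def Mode.g (m : Mode) : Bool → PC → List Ent
  | false => m.gp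
  | true => m.gq

def Piece.w (p : Piece) : Bool → PC → Win
  | false => p.wp
  | true => p.wq

def Stage.sl (S : Stage) : Bool → ℤ
  | false => S.slp
  | true => S.slq

def Stage.sc (S : Stage) : Bool → ℤ
  | false => S.scp
  | true => S.scq

/-- upper end of the range of the partner -/
def bhi (S : Stage) (p : Piece) (P : PC) (b : Bin) : ℤ :=
  if P = .one ∧ S.mx = true then min b.hi p.x1 else b.hi

/-- the row of a bin -/
def mkRow (S : Stage) (p : Piece) (m : Mode) (side : Bool) (P : PC) (b : Bin) (g : ℤ) : Row where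
  x0 := p.x0
  x1 := p.x1
  t0 := (p.w side P).t0
  t1 := (p.w side P).t1
  b0 := b.lo
  b1 := bhi S p P b
  k0 := (p.w side P).k0
  k1 := (p.w side P).k1
  s0 := (p.w side P).s0
  s1 := (p.w side P).s1
  sl := S.sl side
  sc := S.sc side
  lam := m.lam
  ct := m.ct
  g := g

/-- the bin is empty in the piece -/
def emp (S : Stage) (p : Piece) (side : Bool) (P : PC) (b : Bin) : Bool :=
  decide (bhi S p P b < b.lo) || decide (p.x1 + bhi S p P b < S.sl side) ||
    decide (S.sc side < p.x0 + b.lo)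

/-- the checks of a row -/
def cks (S : Stage) (p : Piece) (m : Mode) (side : Bool) (P : PC) (b : Bin) (g : ℤ) : List Ck :=
  match m.md with
    | .D => (mkRow S p m side P b g).cksD S.own b.seg
    | .V c cf => (mkRow S p m side P b g).cksV S.own b.seg c cf

/-- the check of a row -/
def cellOk (S : Stage) (p : Piece) (m : Mode) (side : Bool) (P : PC) (b : Bin) (e : Ent) : Bool :=
  cond (decide (1000000 ≤ e.g) || emp S p side P b) true (ckAll (cks S p m side P b e.g) e.c)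

/-- default bin -/
def b00 : Bin := ⟨0, 0, .F⟩

/-- the rows of a class -/
def rowsOk (S : Stage) (p : Piece) (m : Mode) (side : Bool) (P : PC) : Bool :=
  (List.range (S.bins P).length).all fun i =>
    cellOk S p m side P ((S.bins P).getD i b00) ((m.g side P).getD i e00)

/-- all rows of a mode -/
def allRows (S : Stage) (p : Piece) (m : Mode) : Bool :=
  PC.all.all fun P => rowsOk S p m false P && rowsOk S p m true P

/-- the point `c` of the path -/
def mdOk (S : Stage) : Md → Bool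
  | .D => true
  | .V c cf => (decide (150 ≤ c) && decide (c + S.cr ≤ S.XM) && decide (cf = 1000)) ||
      (decide (150 ≤ c) && decide (S.XM ≤ c + S.cr) && decide (c ≤ S.XM) &&
        decide (cf * S.cr + 1000 * c = 1000 * S.XM))

/-- the window of a class fits -/
def winOk (w : Win) : Bool :=
  decide (-1500 ≤ w.k0) && decide (w.k1 ≤ 1500) && decide (-1500 ≤ w.t0) && decide (w.t1 ≤ 1500) &&
    decide (-1500 ≤ w.s0) && decide (w.s1 ≤ 1500)

/-- the windows contain the window of the pair -/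
def wOk (p : Piece) (W : PWin) (P Q : PC) : Bool :=
  winOk (p.wp P) && winOk (p.wq Q) &&
  decide ((p.wp P).k0 ≤ W.p0) && decide (W.p1 ≤ (p.wp P).k1) && decide ((p.wp P).s0 ≤ W.a0) &&
    decide (W.a1 ≤ (p.wp P).s1) && decide ((p.wp P).t0 ≤ max W.t0 p.t0) &&
    decide (min W.t1 p.t1 ≤ (p.wp P).t1) &&
  decide ((p.wq Q).k0 ≤ W.q0) && decide (W.q1 ≤ (p.wq Q).k1) && decide ((p.wq Q).s0 ≤ W.b0) &&
    decide (W.b1 ≤ (p.wq Q).s1) && decide ((p.wq Q).t0 ≤ -min W.t1 p.t1) &&
    decide (-max W.t0 p.t0 ≤ (p.wq Q).t1)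

/-- bound of `kP + kQ` (`k0` in the first bin of the class `one`) -/
def kb (S : Stage) (P Q : PC) (i j : ℕ) : ℤ :=
  if P = .one ∧ i = 0 then S.k0 Q else if Q = .one ∧ j = 0 then S.k0 P else (S.pw P Q).K1

/-- the check of a pair of bins -/
def binsOk (S : Stage) (p : Piece) (P Q : PC) (i j : ℕ) : Bool :=
  emp S p false P ((S.bins P).getD i b00) || emp S p true Q ((S.bins Q).getD j b00) ||
    p.modes.any fun m =>
      let a := ((m.gp P).getD i e00).g
      let c := ((m.gq Q).getD j e00).g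
      decide (a < 1000000) && decide (c < 1000000) &&
        decide ((a + c) * 1000 + m.lam * kb S P Q i j ≤ 0)

/-- the check of a pair of classes -/
def pairOk (S : Stage) (p : Piece) (P Q : PC) : Bool :=
  !S.kind P Q || decide (min (S.pw P Q).t1 p.t1 < max (S.pw P Q).t0 p.t0) ||
    (wOk p (S.pw P Q) P Q && (List.range (S.bins P).length).all fun i =>
      (List.range (S.bins Q).length).all fun j => binsOk S p P Q i j)

/-- the check of a piece -/
def Piece.ok (S : Stage) (p : Piece) : Bool :=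
  (PC.all.all fun P => PC.all.all fun Q => pairOk S p P Q) && p.modes.all fun m =>
    mdOk S m.md && allRows S p m

/-! ### soundness -/

/-- a bin of a class -/
def InBin (S : Stage) (p : Piece) (P : PC) (w v : ℂ) (i : ℕ) : Prop :=
  i < (S.bins P).length ∧ (((S.bins P).getD i b00).lo : ℝ) / 10000 ≤ v.re ∧
    v.re ≤ (((S.bins P).getD i b00).hi : ℝ) / 10000

theorem tr_mem (XM cl cr x : ℝ) : 0 ≤ tr 0 XM cl cr x ∧ tr 0 XM cl cr x ≤ 1 :=
  ⟨le_max_left _ _, max_le zero_le_one (min_le_left _ _)⟩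

theorem abs_comb {f g T k a : ℝ} (hf : 0 ≤ f) (hf' : f ≤ 1) (hg : 0 ≤ g) (hg' : g ≤ 1)
    (hT : -a ≤ T) (hT' : T ≤ a) (hk : -a ≤ k) (hk' : k ≤ a) (hs : -a ≤ T + k) (hs' : T + k ≤ a) :
    |T * f + k * g| ≤ a := by
  have h1 : T ≤ 0 → T ≤ T * f := fun h => by nlinarith only [hf', h]
  have h2 : 0 ≤ T → T * f ≤ T := fun h => by nlinarith only [hf', h]
  have h3 : k ≤ 0 → k ≤ k * g := fun h => by nlinarith only [hg', h]
  have h4 : 0 ≤ k → k * g ≤ k := fun h => by nlinarith only [hg', h]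
  have h5 : 0 ≤ T → 0 ≤ T * f := fun h => mul_nonneg h hf
  have h6 : T ≤ 0 → T * f ≤ 0 := fun h => mul_nonpos_of_nonpos_of_nonneg h hf
  have h7 : 0 ≤ k → 0 ≤ k * g := fun h => mul_nonneg h hg
  have h8 : k ≤ 0 → k * g ≤ 0 := fun h => mul_nonpos_of_nonpos_of_nonneg h hg
  rw [abs_le]
  rcases le_total T 0 with hT0 | hT0 <;> rcases le_total k 0 with hk0 | hk0
  · have := h1 hT0; have := h3 hk0; have := h6 hT0; have := h8 hk0
    constructor <;> linarith
  · have := h1 hT0; have := h4 hk0; have := h6 hT0; have := h7 hk0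
    constructor <;> linarith
  · have := h2 hT0; have := h3 hk0; have := h5 hT0; have := h8 hk0
    constructor <;> linarith
  · have := h2 hT0; have := h4 hk0; have := h5 hT0; have := h7 hk0
    constructor <;> linarith

/-- height of the partner -/
theorem Bin.im {q : PP} (hq : q.good = true) {b : Bin} (hb : b.ok q = true) {v : ℂ} {k : ℝ}
    (hv : RH v k (q.XM / 1000) (q.cl / 1000) (q.cr / 1000)) (h0 : (b.lo : ℝ) / 10000 ≤ v.re)
    (h1 : v.re ≤ (b.hi : ℝ) / 10000) : v.im = b.seg.h v.re k := by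
  unfold PP.good at hq
  simp only [Bool.and_eq_true, decide_eq_true_eq] at hq
  obtain ⟨⟨g1, g2⟩, g3⟩ := hq
  have g1' : (0 : ℝ) < q.cl := by exact_mod_cast g1
  have g2' : (0 : ℝ) < q.cr := by exact_mod_cast g2
  have g3' : (q.cl : ℝ) + q.cr < q.XM := by exact_mod_cast g3
  unfold Bin.ok at hb
  rw [div_le_iff₀ (by norm_num)] at h0
  rw [le_div_iff₀ (by norm_num)] at h1
  rcases hs : b.seg with cl | _ | ⟨XM, cr⟩
  · rw [hs] at hb
    simp only [Bool.and_eq_true, decide_eq_true_eq] at hb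
    obtain ⟨rfl, h3⟩ := hb
    have h3' : (b.hi : ℝ) ≤ 10 * q.cl := by exact_mod_cast h3
    rw [MR.RH_left hv (by positivity) (by positivity) (by linarith only [g3']) (by linarith only [h1, h3'])]
    simp only [Seg.h]
    field_simp
  · rw [hs] at hb
    simp only [Bool.and_eq_true, decide_eq_true_eq] at hb
    obtain ⟨h3, h4⟩ := hb
    have h3' : 10 * (q.cl : ℝ) ≤ b.lo := by exact_mod_cast h3
    have h4' : (b.hi : ℝ) ≤ 10 * ((q.XM : ℝ) - q.cr) := by exact_mod_cast h4
    rw [MR.RH_flat hv (by positivity) (by positivity) (by linarith only [h0, h3']) (by linarith only [h1, h4'])]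
    simp only [Seg.h]
  · rw [hs] at hb
    simp only [Bool.and_eq_true, decide_eq_true_eq] at hb
    obtain ⟨⟨rfl, rfl⟩, h3⟩ := hb
    have h3' : 10 * ((q.XM : ℝ) - q.cr) ≤ b.lo := by exact_mod_cast h3
    rw [MR.RH_right hv (by positivity) (by positivity) (by linarith only [g3']) (by linarith only [h0, h3'])]
    simp only [Seg.h]
    field_simp

/-- data of one side of the hinge -/
structure SideIn (S : Stage) (p : Piece) (side : Bool) (P : PC) (T k : ℝ) (w v : ℂ) : Prop where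
  x0 : (p.x0 : ℝ) / 10000 ≤ w.re
  x1 : w.re ≤ (p.x1 : ℝ) / 10000
  im : w.im = S.own.t w.re T
  fac : ∃ f, 0 ≤ f ∧ f ≤ 1 ∧ w.im = T * f
  rh : RH v k ((S.pp P).XM / 1000) ((S.pp P).cl / 1000) ((S.pp P).cr / 1000)
  mx : S.mx = true → P = .one → v.re ≤ w.re
  sl : (S.sl side : ℝ) / 10000 ≤ w.re + v.re
  sc : w.re + v.re ≤ (S.sc side : ℝ) / 10000
  t0 : ((p.w side P).t0 : ℝ) / 10000 ≤ T
  t1 : T ≤ ((p.w side P).t1 : ℝ) / 10000
  k0 : ((p.w side P).k0 : ℝ) / 10000 ≤ k
  k1 : k ≤ ((p.w side P).k1 : ℝ) / 10000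
  s0 : ((p.w side P).s0 : ℝ) / 10000 ≤ T + k
  s1 : T + k ≤ ((p.w side P).s1 : ℝ) / 10000
  win : winOk (p.w side P) = true

set_option linter.unusedVariables false

variable {S : Stage} {p : Piece} {side : Bool} {P : PC} {T k : ℝ} {w v : ℂ}

theorem le_bhi (h : SideIn S p side P T k w v) {b : Bin} (h1 : v.re ≤ (b.hi : ℝ) / 10000) :
    v.re ≤ (bhi S p P b : ℝ) / 10000 := by
  unfold bhi
  split_ifs with hP
  · have h2 := h.mx hP.2 hP.1
    have h3 := h.x1
    push_cast
    rw [le_div_iff₀ (by norm_num)] at h1 h3 ⊢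
    exact le_min h1 (by linarith only [h2, h3])
  · exact h1

theorem emp_false (h : SideIn S p side P T k w v) {b : Bin} (h0 : (b.lo : ℝ) / 10000 ≤ v.re)
    (h1 : v.re ≤ (b.hi : ℝ) / 10000) : emp S p side P b = false := by
  have h2 := le_bhi h h1
  have a0 := h.x0
  have a1 := h.x1
  have a2 := h.sl
  have a3 := h.sc
  unfold emp
  rw [div_le_iff₀ (by norm_num)] at h0 a0 a2
  rw [le_div_iff₀ (by norm_num)] at h2 a1 a3
  rw [Bool.or_eq_false_iff, Bool.or_eq_false_iff, decide_eq_false_iff_not, decide_eq_false_iff_not,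
    decide_eq_false_iff_not, not_lt, not_lt, not_lt]
  refine ⟨⟨?_, ?_⟩, ?_⟩
  · have : (b.lo : ℝ) ≤ (bhi S p P b : ℝ) := by linarith only [h0, h2]
    exact_mod_cast this
  · have : (S.sl side : ℝ) ≤ (p.x1 : ℝ) + (bhi S p P b : ℝ) := by linarith only [h2, a1, a2]
    exact_mod_cast this
  · have : (p.x0 : ℝ) + (b.lo : ℝ) ≤ (S.sc side : ℝ) := by linarith only [h0, a0, a3]
    exact_mod_cast this

theorem mkRow_in (h : SideIn S p side P T k w v) {b : Bin} (h0 : (b.lo : ℝ) / 10000 ≤ v.re)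
    (h1 : v.re ≤ (b.hi : ℝ) / 10000) (m : Mode) (g : ℤ) :
    (mkRow S p m side P b g).In w.re T v.re k :=
  ⟨h.x0, h.x1, h.t0, h.t1, h0, le_bhi h h1, h.k0, h.k1, h.s0, h.s1, h.sl, h.sc⟩

theorem tau_le (h : SideIn S p side P T k w v) : |w.im + v.im| ≤ 15 / 100 := by
  obtain ⟨f, f0, f1, hf⟩ := h.fac
  have h1 := h.rh.im
  obtain ⟨g0, g1⟩ := tr_mem ((S.pp P).XM / 1000) ((S.pp P).cl / 1000) ((S.pp P).cr / 1000) v.re
  have hw := h.win
  unfold winOk at hw
  simp only [Bool.and_eq_true, decide_eq_true_eq] at hw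
  obtain ⟨⟨⟨⟨⟨a1, a2⟩, a3⟩, a4⟩, a5⟩, a6⟩ := hw
  have b1 : (-1500 : ℝ) ≤ (p.w side P).k0 := by exact_mod_cast a1
  have b2 : ((p.w side P).k1 : ℝ) ≤ 1500 := by exact_mod_cast a2
  have b3 : (-1500 : ℝ) ≤ (p.w side P).t0 := by exact_mod_cast a3
  have b4 : ((p.w side P).t1 : ℝ) ≤ 1500 := by exact_mod_cast a4
  have b5 : (-1500 : ℝ) ≤ (p.w side P).s0 := by exact_mod_cast a5
  have b6 : ((p.w side P).s1 : ℝ) ≤ 1500 := by exact_mod_cast a6
  rw [hf, h1]
  exact abs_comb f0 f1 g0 g1 (by linarith only [b3, h, h.t0]) (by linarith only [b4, h, h.t1]) (by linarith only [b1, h, h.k0])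
    (by linarith only [b2, h, h.k1]) (by linarith only [b5, h, h.s0]) (by linarith only [b6, h, h.s1])

/-- change of the value of a digit `1` -/
theorem V1_dv (w v z : ℂ) : V1 w v - V1 z v = dv z.re z.im w.re w.im v.re v.im := by
  unfold V1 dv
  rw [UU_uu (w + v), UU_uu (z + v), UU_uu w, UU_uu z]
  simp only [Complex.add_re, Complex.add_im, Complex.sub_im, Complex.mul_im]
  ring

/-- **One side, step of kind `D`.** -/
theorem side_D {m : Mode} (hm : m.md = .D) (hr : rowsOk S p m side P = true)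
    (hx : p.x1 ≤ 9000) (hXM : (S.pp P).XM ≤ 1000)
    (h : SideIn S p side P T k w v) (hw : w ∈ strip)
    (hq : (S.pp P).good = true) {i : ℕ} (hi : i < (S.bins P).length)
    (hb : ((S.bins P).getD i b00).ok (S.pp P) = true)
    (h0 : (((S.bins P).getD i b00).lo : ℝ) / 10000 ≤ v.re)
    (h1 : v.re ≤ (((S.bins P).getD i b00).hi : ℝ) / 10000)
    (hg : ((m.g side P).getD i e00).g < 1000000) :
    S1 1 (S.own.m T) w v <
      (((m.g side P).getD i e00).g : ℝ) / 10000 + m.lam / 1000 * k + m.ct / 1000 * T := by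
  unfold rowsOk at hr
  rw [List.all_eq_true] at hr
  have h2 := hr i (List.mem_range.2 hi)
  unfold cellOk at h2
  rw [emp_false h h0 h1, decide_eq_false (not_le.2 hg), Bool.or_false, cond_false] at h2
  have h2' := ckAll_spec h2
  unfold cks at h2'
  rw [hm] at h2'
  · have h3 := Row.soundD h2' (mkRow_in h h0 h1 m _) hw h.rh.re0 (by
      have a1 := h.x1
      have a2 := h.rh.reM
      have a3 : ((S.pp P).XM : ℝ) ≤ 1000 := by exact_mod_cast hXM
      have a4 : (p.x1 : ℝ) ≤ 9000 := by exact_mod_cast hx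
      linarith only [a1, a2, a3, a4]) h.im (Bin.im hq hb h.rh h0 h1) (tau_le h)
    unfold Row.bd mkRow at h3
    simpa using h3

/-- **One side, step of kind `V`.** -/
theorem side_V {m : Mode} {c cf : ℕ} (hm : m.md = .V c cf) (hr : rowsOk S p m side P = true)
    (hx : p.x1 ≤ 9000) (hXM : (S.pp P).XM ≤ 1000)
    (h : SideIn S p side P T k w v) (hw : w ∈ strip)
    (hq : (S.pp P).good = true) {i : ℕ} (hi : i < (S.bins P).length)
    (hb : ((S.bins P).getD i b00).ok (S.pp P) = true)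
    (h0 : (((S.bins P).getD i b00).lo : ℝ) / 10000 ≤ v.re)
    (h1 : v.re ≤ (((S.bins P).getD i b00).hi : ℝ) / 10000)
    (hg : ((m.g side P).getD i e00).g < 1000000) {z : ℂ} (hz : z.re = c / 1000)
    (hz' : z.im = cf / 1000 * T) :
    V1 w v - V1 z v <
      (((m.g side P).getD i e00).g : ℝ) / 10000 + m.lam / 1000 * k + m.ct / 1000 * T := by
  unfold rowsOk at hr
  rw [List.all_eq_true] at hr
  have h2 := hr i (List.mem_range.2 hi)
  unfold cellOk at h2
  rw [emp_false h h0 h1, decide_eq_false (not_le.2 hg), Bool.or_false, cond_false] at h2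
  have h2' := ckAll_spec h2
  unfold cks at h2'
  rw [hm] at h2'
  · have e := Bin.im hq hb h.rh h0 h1
    have hτ := tau_le h
    rw [h.im, e] at hτ
    have h3 := Row.soundV h2' (mkRow_in h h0 h1 m _) (by
      have a1 := h.x1
      have a2 := h.rh.reM
      have a3 : ((S.pp P).XM : ℝ) ≤ 1000 := by exact_mod_cast hXM
      have a4 : (p.x1 : ℝ) ≤ 9000 := by exact_mod_cast hx
      linarith only [a1, a2, a3, a4]) (by linarith only [hw, h, hw.1, h.rh.re0]) hτ
    rw [V1_dv, hz, hz', e, h.im]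
    unfold Row.bd mkRow at h3
    simpa using h3

/-- the parameters of a stage are good -/
def Stage.good (S : Stage) : Prop :=
  ∀ P : PC, (S.pp P).good = true ∧ (S.pp P).XM ≤ 1000 ∧ ∀ i < (S.bins P).length,
    ((S.bins P).getD i b00).ok (S.pp P) = true

/-- the conclusion of a stage: a step which contradicts maximality -/
def Step (S : Stage) (T : ℝ) (w v w' v' : ℂ) : Prop :=
  S1 1 (S.own.m T) w v + S1 1 (S.own.m (-T)) w' v' < 0 ∨
    ∃ c cf : ℕ, mdOk S (.V c cf) = true ∧ ∀ z z' : ℂ, z.re = c / 1000 → z'.re = c / 1000 →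
      z.im = cf / 1000 * T → z'.im = cf / 1000 * -T →
      V1 w v - V1 z v + (V1 w' v' - V1 z' v') < 0

/-- **The step of a piece.** -/
theorem Piece.step (hS : S.good) (hp : p.ok S = true) (hx : p.x1 ≤ 9000) {P Q : PC}
    (hk : S.kind P Q = true) {kP kQ : ℝ} (hW : (S.pw P Q).In T kP kQ)
    (ht0 : (p.t0 : ℝ) / 10000 ≤ T) (ht1 : T ≤ (p.t1 : ℝ) / 10000) {w' v' : ℂ}
    (hA : wOk p (S.pw P Q) P Q = true → SideIn S p false P T kP w v)
    (hB : wOk p (S.pw P Q) P Q = true → SideIn S p true Q (-T) kQ w' v')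
    (hw : w ∈ strip) (hw' : w' ∈ strip)
    {i j : ℕ} (hi : i < (S.bins P).length) (hj : j < (S.bins Q).length)
    (hi0 : (((S.bins P).getD i b00).lo : ℝ) / 10000 ≤ v.re)
    (hi1 : v.re ≤ (((S.bins P).getD i b00).hi : ℝ) / 10000)
    (hj0 : (((S.bins Q).getD j b00).lo : ℝ) / 10000 ≤ v'.re)
    (hj1 : v'.re ≤ (((S.bins Q).getD j b00).hi : ℝ) / 10000)
    (hK : kP + kQ ≤ (kb S P Q i j : ℝ) / 10000) : Step S T w v w' v' := by
  unfold Piece.ok at hp
  rw [Bool.and_eq_true, List.all_eq_true, List.all_eq_true] at hp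
  obtain ⟨h1, h2⟩ := hp
  have h3 := List.all_eq_true.1 (h1 P (PC.mem_all P)) Q (PC.mem_all Q)
  unfold pairOk at h3
  rw [Bool.or_eq_true, Bool.or_eq_true, Bool.and_eq_true, decide_eq_true_eq, List.all_eq_true] at h3
  rcases h3 with (h3 | h3) | ⟨h3, h4⟩
  · rw [hk] at h3
    exact absurd h3 (by decide)
  · exfalso
    have h4 : ((min (S.pw P Q).t1 p.t1 : ℤ) : ℝ) < ((max (S.pw P Q).t0 p.t0 : ℤ) : ℝ) := by
      exact_mod_cast h3
    push_cast at h4
    have a0 := hW.t0
    have a1 := hW.t1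
    rw [div_le_iff₀ (by norm_num)] at ht0 a0
    rw [le_div_iff₀ (by norm_num)] at ht1 a1
    have := max_le a0 ht0
    have := le_min a1 ht1
    linarith
  have hA' := hA h3
  have hB' := hB h3
  have h5 := List.all_eq_true.1 (h4 i (List.mem_range.2 hi)) j (List.mem_range.2 hj)
  unfold binsOk at h5
  rw [emp_false hA' hi0 hi1, emp_false hB' hj0 hj1, Bool.or_self, Bool.false_or,
    List.any_eq_true] at h5
  obtain ⟨m, hm, h6⟩ := h5
  simp only [Bool.and_eq_true, decide_eq_true_eq] at h6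
  obtain ⟨⟨g1, g2⟩, g3⟩ := h6
  have h7 := h2 m hm
  rw [Bool.and_eq_true] at h7
  obtain ⟨h7, h8⟩ := h7
  unfold allRows at h8
  rw [List.all_eq_true] at h8
  have h9 := (Bool.and_eq_true _ _ ▸ h8 P (PC.mem_all P)).1
  have h10 := (Bool.and_eq_true _ _ ▸ h8 Q (PC.mem_all Q)).2
  have g3' : (((m.gp P).getD i e00).g : ℝ) + (((m.gq Q).getD j e00).g : ℝ) ≤
      -(m.lam / 1000 * (kb S P Q i j : ℝ)) := by
    have : (((((m.gp P).getD i e00).g + ((m.gq Q).getD j e00).g) * 1000 +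
      m.lam * kb S P Q i j : ℤ) : ℝ) ≤ 0 := by exact_mod_cast g3
    push_cast at this
    linarith only [this]
  have hl : (0 : ℝ) ≤ m.lam / 1000 := by positivity
  have hK' : (m.lam : ℝ) / 1000 * (kP + kQ) ≤ m.lam / 1000 * ((kb S P Q i j : ℝ) / 10000) :=
    mul_le_mul_of_nonneg_left hK hl
  rcases hmd : m.md with _ | ⟨c, cf⟩
  · left
    have e1 := side_D hmd h9 hx (hS P).2.1 hA' hw (hS P).1 hi ((hS P).2.2 i hi) hi0 hi1 g1
    have e2 := side_D hmd h10 hx (hS Q).2.1 hB' hw' (hS Q).1 hj ((hS Q).2.2 j hj) hj0 hj1 g2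
    simp only [Mode.g] at e1 e2
    linarith only [g3', hK', e1, e2]
  · right
    refine ⟨c, cf, ?_, ?_⟩
    · rw [← hmd]
      exact h7
    intro z z' hz hz' hy hy'
    have e1 := side_V hmd h9 hx (hS P).2.1 hA' hw (hS P).1 hi ((hS P).2.2 i hi) hi0 hi1 g1 hz hy
    have e2 := side_V hmd h10 hx (hS Q).2.1 hB' hw' (hS Q).1 hj ((hS Q).2.2 j hj) hj0 hj1 g2 hz'
      hy'
    simp only [Mode.g] at e1 e2
    linarith only [g3', hK', e1, e2]

end OR

end Pool.Agent.Work.MP_b30479_gt.G2
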