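import Pool.Agent.Work.MP_b30479_gt.G2.PnDef
import Pool.Agent.Work.MP_b30479_gt.LT.BWgen
import Pool.Agent.Work.MP_b30479_gt.VC.FStrip

/-!
# Bounds for `Pn` and `Rn` up to the boundary of the strip
-/

namespace Pool.Agent.Work.MP_b30479_gt.G2

open Finset VOL AX Complex MeasureTheory

/-- the real part of `∫_0^w log 2 sin π t dt`, continued quasi-periodically -/
noncomputable def UU (w : ℂ) : ℝ := DT.Lr |w.im| w.re - Real.pi * |w.im| / 2

theorem UU_eq_Fh {w : ℂ} (hw : w ∈ strip) : UU w = (Fh w).re := by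
  have h1 := LT.Fh_re_eq_Lr hw.1 hw.2 (abs_nonneg w.im)
  unfold UU
  rw [← h1]
  rcases le_total 0 w.im with h | h
  · rw [abs_of_nonneg h, re_add_im]
  · have e : ((w.re : ℂ) + ((|w.im| : ℝ) : ℂ) * I) = starRingEnd ℂ w := by
      rw [abs_of_nonpos h]
      apply Complex.ext
      · simp
      · simp
    rw [e, Fh_conj hw, conj_re]

theorem UU_add_one (w : ℂ) : UU (w + 1) = UU w + Real.pi * |w.im| := by
  unfold UU
  have e1 : (w + 1).re = w.re + 1 := by simp
  have e2 : (w + 1).im = w.im := by simp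
  rw [e1, e2, DT.Lr_add_one (abs_nonneg _)]
  ring

theorem UU_one_sub (w : ℂ) : UU (1 - w) = -UU w := by
  unfold UU
  have e1 : (1 - w).re = 1 - w.re := by simp
  have e2 : (1 - w).im = -w.im := by simp
  rw [e1, e2, abs_neg, DT.Lr_one_sub (abs_nonneg _)]
  ring

theorem UU_neg (w : ℂ) : UU (-w) = -UU w - Real.pi * |w.im| := by
  have h := UU_one_sub (w + 1)
  rw [UU_add_one, show (1 : ℂ) - (w + 1) = -w by ring] at h
  linarith only [h]

/-! ### modulus of continuity -/

theorem el_le {ρ v : ℝ} (hρ : 0 ≤ ρ) : DT.el ρ v ≤ Real.log 2 + Real.pi * ρ := by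
  have hpi := Real.pi_pos
  have hc := Real.neg_one_le_cos (2 * Real.pi * v)
  have h1 : 2 * Real.cosh (2 * Real.pi * ρ) - 2 * Real.cos (2 * Real.pi * v) ≤
      (2 * Real.exp (Real.pi * ρ)) ^ 2 := by
    have h2 : Real.cosh (2 * Real.pi * ρ) ≤ Real.exp (2 * Real.pi * ρ) := by
      rw [Real.cosh_eq]
      have : Real.exp (-(2 * Real.pi * ρ)) ≤ Real.exp (2 * Real.pi * ρ) := by
        apply Real.exp_le_exp.2
        have : 0 ≤ 2 * Real.pi * ρ := by positivity
        linarith only [this]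
      linarith only [this]
    have h3 : (1 : ℝ) ≤ Real.exp (2 * Real.pi * ρ) := Real.one_le_exp (by positivity)
    have h4 : (2 * Real.exp (Real.pi * ρ)) ^ 2 = 4 * Real.exp (2 * Real.pi * ρ) := by
      rw [mul_pow, ← Real.exp_nat_mul]
      norm_num
      ring
    rw [h4]
    linarith only [hc, h2, h3]
  unfold DT.el
  rcases eq_or_lt_of_le (show 0 ≤ 2 * Real.cosh (2 * Real.pi * ρ) - 2 * Real.cos (2 * Real.pi * v) by
    have := Real.cos_le_one (2 * Real.pi * v)
    have := Real.one_le_cosh (2 * Real.pi * ρ)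
    linarith) with h | h
  · rw [← h, Real.log_zero, zero_div]
    have := Real.log_nonneg (show (1 : ℝ) ≤ 2 by norm_num)
    positivity
  · have h5 := Real.log_le_log h h1
    rw [Real.log_pow, Real.log_mul two_ne_zero (Real.exp_pos _).ne', Real.log_exp] at h5
    push_cast at h5
    linarith only [h5]

theorem el_ge {ρ v : ℝ} (hρ : 0 ≤ ρ) (h0 : 0 < v) (h1 : v < 1) :
    Real.log v + Real.log (1 - v) ≤ DT.el ρ v := by
  have hs := VOL.sin_pi_pos h0 h1
  have h2 := DT.el_mono (ρ := 0) (ρ' := ρ) (v := v) le_rfl hρ fun _ => hs.ne'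
  refine le_trans ?_ h2
  rw [DT.el_eq]
  have e : (2 * Complex.sin (Real.pi * ((v : ℂ) + ((0 : ℝ) : ℂ) * I))) =
      ((2 * Real.sin (Real.pi * v) : ℝ) : ℂ) := by
    push_cast
    rw [zero_mul, add_zero]
  rw [e, Complex.norm_real, Real.norm_of_nonneg (by positivity), ← Real.log_mul h0.ne'
    (by linarith only [h1] : (1 : ℝ) - v ≠ 0)]
  apply Real.log_le_log (mul_pos h0 (by linarith only [h1]))
  have key : ∀ x : ℝ, 0 ≤ x → x ≤ 1 / 2 → 2 * x ≤ Real.sin (Real.pi * x) := by
    intro x a b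
    have hpi := Real.pi_pos
    have h3 := Real.mul_le_sin (x := Real.pi * x) (by positivity) (by nlinarith only [h0, h1, b, hpi])
    have e : 2 / Real.pi * (Real.pi * x) = 2 * x := by field_simp
    rw [e] at h3
    exact h3
  rcases le_total v (1 / 2) with h | h
  · have := key v h0.le h
    nlinarith only [h0, this]
  · have h3 := key (1 - v) (by linarith only [h1]) (by linarith only [h])
    rw [show Real.pi * (1 - v) = Real.pi - Real.pi * v by ring, Real.sin_pi_sub] at h3
    nlinarith only [h1, h3]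

/-- `h - h log h` -/
noncomputable def xlx (h : ℝ) : ℝ := h - h * Real.log h

theorem xlx_nonneg {h : ℝ} (h0 : 0 ≤ h) (h1 : h ≤ 1) : 0 ≤ xlx h := by
  unfold xlx
  have := Real.log_nonpos h0 h1
  nlinarith only [h0, this, mul_nonneg h0 (neg_nonneg.2 this)]

theorem mul_log_add {x h : ℝ} (hx : 0 ≤ x) (hh : 0 ≤ h) :
    x * Real.log x + h * Real.log h ≤ (x + h) * Real.log (x + h) := by
  have h1 : x * Real.log x ≤ x * Real.log (x + h) := by
    rcases hx.eq_or_lt with h | h'
    · rw [← h, zero_mul, zero_mul]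
    · exact mul_le_mul_of_nonneg_left (Real.log_le_log h' (by linarith only [hh])) hx
  have h2 : h * Real.log h ≤ h * Real.log (x + h) := by
    rcases hh.eq_or_lt with h' | h'
    · rw [← h', zero_mul, zero_mul]
    · exact mul_le_mul_of_nonneg_left (Real.log_le_log h' (by linarith only [hx])) hh
  rw [add_mul]
  linarith only [h1, h2]

theorem integral_log_ge {x h : ℝ} (hx : 0 ≤ x) (hh : 0 ≤ h) :
    -xlx h ≤ ∫ v in x..(x + h), Real.log v := by
  rw [integral_log]
  unfold xlx
  have := mul_log_add hx hh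
  linarith only [this]

theorem xlx_mono {a b : ℝ} (ha : 0 ≤ a) (hab : a ≤ b) (hb : b ≤ 1) : xlx a ≤ xlx b := by
  have h1 := mul_log_add ha (sub_nonneg.2 hab)
  have h2 : Real.log (b - a) ≤ 0 := Real.log_nonpos (by linarith only [hab]) (by linarith only [ha, hb])
  rw [add_sub_cancel] at h1
  -- `xlx b - xlx a = (b - a) - b log b + a log a`
  -- use concavity: `b log b - a log a ≤ (b - a) (log b + 1)`
  unfold xlx
  rcases ha.eq_or_lt with h | h
  · subst h
    have : 0 ≤ xlx b := xlx_nonneg hab hb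
    unfold xlx at this
    simp only [zero_mul, sub_zero]
    exact this
  · have h3 : Real.log b - Real.log a ≤ (b - a) / a := by
      have h4 := Real.log_le_sub_one_of_pos (show 0 < b / a from div_pos (by linarith only [hab, h]) h)
      rw [Real.log_div (by linarith only [hab, h]) h.ne'] at h4
      have : b / a - 1 = (b - a) / a := by field_simp
      linarith only [h4, this]
    have h5 : a * (Real.log b - Real.log a) ≤ b - a := by
      have := mul_le_mul_of_nonneg_left h3 h.le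
      rwa [mul_div_cancel₀ _ h.ne'] at this
    have h6 : Real.log b ≤ 0 := Real.log_nonpos (by linarith only [hab, h]) hb
    nlinarith only [h5, hab, h6, mul_nonneg (sub_nonneg.2 hab) (neg_nonneg.2 h6)]

theorem Lr_cell {ρ x x' : ℝ} (hρ : 0 ≤ ρ) (hx : 0 ≤ x) (hxx : x ≤ x') (hx' : x' ≤ 1) :
    -(2 * xlx (x' - x)) ≤ DT.Lr ρ x' - DT.Lr ρ x := by
  rw [DT.Lr_sub]
  have h1 : (∫ v in x..x', (Real.log v + Real.log (1 - v))) ≤ ∫ v in x..x', DT.el ρ v := by
    apply intervalIntegral.integral_mono_on_of_le_Ioo hxx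
    · apply IntervalIntegrable.add intervalIntegral.intervalIntegrable_log'
      have := (intervalIntegral.intervalIntegrable_log' (a := 1 - x) (b := 1 - x')).comp_sub_left 1
      simpa using this
    · exact DT.el_intble ρ x x'
    · intro v hv
      exact el_ge hρ (by linarith only [hx, hv, hv.1]) (by linarith only [hx', hv, hv.2])
  refine le_trans ?_ h1
  rw [intervalIntegral.integral_add intervalIntegral.intervalIntegrable_log' (by
    have := (intervalIntegral.intervalIntegrable_log' (a := 1 - x) (b := 1 - x')).comp_sub_left 1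
    simpa using this)]
  have h2 := integral_log_ge hx (sub_nonneg.2 hxx)
  have h3 := integral_log_ge (x := 1 - x') (by linarith only [hx']) (sub_nonneg.2 hxx)
  rw [add_sub_cancel] at h2
  rw [show 1 - x' + (x' - x) = 1 - x by ring] at h3
  have h4 : (∫ v in x..x', Real.log (1 - v)) = ∫ v in (1 - x')..(1 - x), Real.log v := by
    rw [intervalIntegral.integral_comp_sub_left (fun v => Real.log v) 1]
  rw [h4]
  linarith only [h2, h3]

theorem Lr_add_int {ρ : ℝ} (hρ : 0 ≤ ρ) (x : ℝ) (m : ℤ) :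
    DT.Lr ρ (x + m) = DT.Lr ρ x + m * (Real.pi * ρ) := by
  induction m using Int.induction_on with
  | zero => simp
  | succ m ih =>
    have h := DT.Lr_add_one hρ (x + m)
    push_cast at ih ⊢
    rw [← add_assoc, h, ih]
    ring
  | pred m ih =>
    have h := DT.Lr_add_one hρ (x + (-m - 1))
    push_cast at ih ⊢
    rw [show x + (-(m : ℝ) - 1) + 1 = x + -(m : ℝ) by ring, ih] at h
    linarith only [h]

/-- **Lower bound of an increment.** -/
theorem Lr_incr_ge {ρ x h : ℝ} (hρ : 0 ≤ ρ) (h0 : 0 ≤ h) (h1 : h ≤ 1) :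
    -(4 * xlx h) ≤ DT.Lr ρ (x + h) - DT.Lr ρ x := by
  set m : ℤ := ⌊x⌋ with hm
  set y : ℝ := x - m with hy
  have hy0 : 0 ≤ y := by
    have := Int.floor_le x
    linarith only [this]
  have hy1 : y < 1 := by
    have := Int.lt_floor_add_one x
    linarith only [this]
  have e1 : x = y + m := by rw [hy]; ring
  have e2 : x + h = (y + h) + m := by rw [hy]; ring
  rw [e2, Lr_add_int hρ, e1, Lr_add_int hρ]
  have hg := xlx_nonneg h0 h1
  rcases le_total (y + h) 1 with hc | hc
  · have := Lr_cell hρ hy0 (x' := y + h) (by linarith only [h0]) hc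
    rw [add_sub_cancel_left] at this
    linarith only [hg, this]
  · have a1 := Lr_cell hρ hy0 (x' := 1) hy1.le le_rfl
    have a2 := Lr_cell hρ le_rfl (x' := y + h - 1) (by linarith only [hc]) (by linarith only [h1, hy1])
    have a3 := Lr_add_int hρ (y + h - 1) 1
    have a4 := DT.Lr_one hρ
    have a5 := DT.Lr_zero_right ρ
    have g1 : xlx (1 - y) ≤ xlx h := xlx_mono (by linarith only [hy1]) (by linarith only [hc]) h1
    have g2 : xlx (y + h - 1 - 0) ≤ xlx h := xlx_mono (by linarith only [hc]) (by linarith only [hy1]) h1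
    push_cast at a3
    rw [sub_add_cancel] at a3
    linarith only [a1, a2, a4, a5, g1, g2, a3]

theorem Lr_incr_le {ρ x h : ℝ} (hρ : 0 ≤ ρ) (h0 : 0 ≤ h) :
    DT.Lr ρ (x + h) - DT.Lr ρ x ≤ (Real.log 2 + Real.pi * ρ) * h := by
  rw [DT.Lr_sub]
  have h1 : (∫ v in x..(x + h), DT.el ρ v) ≤ ∫ _v in x..(x + h), (Real.log 2 + Real.pi * ρ) :=
    intervalIntegral.integral_mono_on (by linarith only [h0]) (DT.el_intble ρ _ _)
      intervalIntegrable_const fun v _ => el_le hρ
  refine h1.trans (le_of_eq ?_)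
  rw [intervalIntegral.integral_const, smul_eq_mul]
  ring

/-- **Shifts by `O(1/n)`** cost a power of `n` only. -/
theorem UU_shift {H : ℝ} (hH : 0 ≤ H) {n : ℕ} (hn : 4 ≤ n) {w : ℂ} {d : ℝ} (hd : |d| ≤ 2 / n)
    (hw : |w.im| ≤ H) : n * |UU (w + d) - UU w| ≤ 8 * Real.log n + (8 + 2 * Real.pi * H) := by
  have hn4 : (4 : ℝ) ≤ n := by exact_mod_cast hn
  have hn0 : (0 : ℝ) < n := by linarith only [hn4]
  have hpi := Real.pi_pos
  have e1 : (w + d).re = w.re + d := by simp
  have e2 : (w + d).im = w.im := by simp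
  have hlog2 := Real.log_two_lt_d9
  have hlog2' : 0 < Real.log 2 := Real.log_pos (by norm_num)
  have hlogn : 0 ≤ Real.log n := Real.log_nonneg (by linarith only [hn4, hlog2, hlog2'])
  set ρ := |w.im| with hρ
  have hρ0 : 0 ≤ ρ := abs_nonneg _
  have hd1 : |d| ≤ 1 := hd.trans (by rw [div_le_one hn0]; linarith only [hn4, hlog2, hlog2'])
  -- the modulus
  have hg : n * (4 * xlx |d|) ≤ 8 * Real.log n + 8 := by
    have h2n : 2 / (n : ℝ) ≤ 1 := by rw [div_le_one hn0]; linarith only [hn4, hlog2, hlog2']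
    have h1 := xlx_mono (abs_nonneg d) hd h2n
    have h2 : n * xlx (2 / n) = 2 + 2 * (Real.log n - Real.log 2) := by
      unfold xlx
      rw [Real.log_div two_ne_zero hn0.ne']
      field_simp
      ring
    have h3 := mul_le_mul_of_nonneg_left h1 hn0.le
    nlinarith only [hlog2', h2, h3]
  have hu : n * ((Real.log 2 + Real.pi * ρ) * |d|) ≤ 8 + 2 * Real.pi * H := by
    have h1 : n * |d| ≤ 2 := by
      have := mul_le_mul_of_nonneg_left hd hn0.le
      rwa [mul_div_cancel₀ _ hn0.ne'] at this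
    have h2 : Real.log 2 + Real.pi * ρ ≤ 1 + Real.pi * H := by
      have := mul_le_mul_of_nonneg_left hw hpi.le
      linarith only [hlog2, hlog2', this]
    have h3 : 0 ≤ Real.log 2 + Real.pi * ρ := by positivity
    calc n * ((Real.log 2 + Real.pi * ρ) * |d|) = (Real.log 2 + Real.pi * ρ) * (n * |d|) := by ring
      _ ≤ (1 + Real.pi * H) * 2 := by
        apply mul_le_mul h2 h1 (by positivity)
        positivity
      _ ≤ _ := by linarith only [hlog2, hlog2']
  have hH2 : 0 ≤ 2 * Real.pi * H := by positivity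
  have hdiff : UU (w + d) - UU w = DT.Lr ρ (w.re + d) - DT.Lr ρ w.re := by
    unfold UU
    rw [e1, e2]
    ring
  rw [hdiff, ← abs_of_pos hn0, ← abs_mul, abs_of_pos hn0]
  rcases le_total 0 d with h | h
  · rw [abs_of_nonneg h] at hg hu hd1
    have a1 := Lr_incr_ge (x := w.re) hρ0 h hd1
    have a2 := Lr_incr_le (x := w.re) hρ0 h
    rw [abs_le]
    constructor
    · have := mul_le_mul_of_nonneg_left a1 hn0.le
      linarith only [hg, hH2, this]
    · have := mul_le_mul_of_nonneg_left a2 hn0.le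
      linarith only [hlogn, hu, this]
  · rw [abs_of_nonpos h] at hg hu hd1
    have a1 := Lr_incr_ge (x := w.re + d) hρ0 (neg_nonneg.2 h) hd1
    have a2 := Lr_incr_le (x := w.re + d) hρ0 (neg_nonneg.2 h)
    rw [add_neg_cancel_right] at a1 a2
    rw [abs_le]
    constructor
    · have := mul_le_mul_of_nonneg_left a2 hn0.le
      linarith only [hlogn, hu, this]
    · have := mul_le_mul_of_nonneg_left a1 hn0.le
      linarith only [hg, hH2, this]

theorem exp_UU_shift {H : ℝ} (hH : 0 ≤ H) : ∃ C : ℝ, 0 < C ∧ ∀ (n : ℕ) (w : ℂ) (d : ℝ), 4 ≤ n →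
    |d| ≤ 2 / n → |w.im| ≤ H →
    Real.exp (n * UU (w + d)) ≤ C * (n : ℝ) ^ 8 * Real.exp (n * UU w) ∧
    Real.exp (-(n * UU (w + d))) ≤ C * (n : ℝ) ^ 8 * Real.exp (-(n * UU w)) := by
  refine ⟨Real.exp (8 + 2 * Real.pi * H), Real.exp_pos _, fun n w d hn hd hw => ?_⟩
  have hn0 : (0 : ℝ) < n := by
    have : 0 < n := by omega
    exact_mod_cast this
  have h := UU_shift hH hn hd hw
  rw [← abs_of_pos hn0, ← abs_mul, abs_of_pos hn0, abs_le] at h
  have e : (n : ℝ) ^ 8 = Real.exp (8 * Real.log n) := by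
    rw [show (8 : ℝ) = ((8 : ℕ) : ℝ) by norm_num, Real.exp_nat_mul, Real.exp_log hn0]
  rw [e, ← Real.exp_add, ← Real.exp_add, ← Real.exp_add]
  constructor
  · apply Real.exp_le_exp.2
    linarith only [h, h.2]
  · apply Real.exp_le_exp.2
    linarith only [h, h.1]

/-! ### the bounds -/

theorem sin_ge_two_mul {x : ℝ} (a : 0 ≤ x) (b : x ≤ 1 / 2) : 2 * x ≤ Real.sin (Real.pi * x) := by
  have hpi := Real.pi_pos
  have h3 := Real.mul_le_sin (x := Real.pi * x) (by positivity) (by nlinarith only [b, hpi])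
  have e : 2 / Real.pi * (Real.pi * x) = 2 * x := by field_simp
  rw [e] at h3
  exact h3

theorem sin_ge_of_margin {x η : ℝ} (h : 0 ≤ η) (_h2 : η ≤ 1 / 2) (a : η ≤ x) (b : x ≤ 1 - η) :
    2 * η ≤ Real.sin (Real.pi * x) := by
  rcases le_total x (1 / 2) with hc | hc
  · have := sin_ge_two_mul (x := x) (by linarith only [h, a]) hc
    linarith only [a, this]
  · have := sin_ge_two_mul (x := 1 - x) (by linarith only [h, b]) (by linarith only [hc])
    rw [show Real.pi * (1 - x) = Real.pi - Real.pi * x by ring, Real.sin_pi_sub] at this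
    linarith only [b, this]

theorem norm_Qn_le {n : ℕ} (hn : 4 ≤ n) {w : ℂ} (h0 : 0 ≤ w.re) (h1 : w.re ≤ 1 - 1 / n) :
    ‖Qn n w‖ ≤ 2 * √(n : ℝ) * Real.exp (n * UU (w + ((1 / (2 * n) : ℝ) : ℂ))) := by
  obtain ⟨a1, a2, a3⟩ := half_n hn
  have hn0 : (0 : ℝ) < n := by
    have : 0 < n := by omega
    exact_mod_cast this
  have hpi := Real.pi_gt_three
  have e : w + 1 / (2 * n) = w + ((1 / (2 * n) : ℝ) : ℂ) := by push_cast; rfl
  set v : ℂ := w + ((1 / (2 * n) : ℝ) : ℂ) with hv
  have ev : v.re = w.re + 1 / (2 * n) := by rw [hv, add_re, ofReal_re]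
  have hs : v ∈ strip := ⟨by rw [ev]; linarith only [h0, a1, a2], by rw [ev]; linarith only [h1, a1, a2]⟩
  have hJ := norm_J_le_unif (n := n) (by
    have : (4 : ℝ) ≤ n := by exact_mod_cast hn
    linarith only [a1, a3, this]) (w := v) (by rw [ev]; linarith only [h0]) (by rw [ev]; linarith only [h1, a2])
  rw [Qn, e, norm_mul, Complex.norm_real, Real.norm_of_nonneg (Real.sqrt_nonneg _),
    Complex.norm_exp]
  have hre : (M n v).re ≤ n * UU v + 1 / (2 * Real.pi) := by
    have : (M n v).re = n * (Fh v).re + (J n v).re := by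
      unfold M
      rw [add_re]
      congr 1
      have : ((n : ℝ) : ℂ) = (n : ℂ) := by simp
      rw [this, mul_re]
      simp
    rw [this, UU_eq_Fh hs]
    have := (abs_le.1 ((Complex.abs_re_le_norm (J n v)).trans hJ)).2
    linarith only [this]
  have h2 : Real.exp (M n v).re ≤ 2 * Real.exp (n * UU v) := by
    have h3 : (2 : ℝ) ≥ Real.exp (1 / (2 * Real.pi)) := by
      have h4 : 1 / (2 * Real.pi) ≤ 1 / 2 := by
        apply div_le_div_of_nonneg_left (by norm_num) (by norm_num) (by linarith only [a1, a3, hpi])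
      have h5 : Real.exp (1 / (2 * Real.pi)) ≤ Real.exp (1 / 2) := Real.exp_le_exp.2 h4
      have h6 : Real.exp (1 / 2) ^ 2 ≤ 2 ^ 2 := by
        rw [← Real.exp_nat_mul]
        have := Real.exp_one_lt_d9
        norm_num
        linarith only [a1, a3, this]
      have h7 := (pow_le_pow_iff_left₀ (Real.exp_pos _).le (by norm_num) two_ne_zero).1 h6
      linarith only [h5, h7]
    calc Real.exp (M n v).re ≤ Real.exp (n * UU v + 1 / (2 * Real.pi)) := Real.exp_le_exp.2 hre
      _ = Real.exp (1 / (2 * Real.pi)) * Real.exp (n * UU v) := by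
        rw [← Real.exp_add]
        congr 1
        ring
      _ ≤ 2 * Real.exp (n * UU v) := mul_le_mul_of_nonneg_right h3 (Real.exp_pos _).le
  calc √(n : ℝ) * Real.exp (M n v).re ≤ √(n : ℝ) * (2 * Real.exp (n * UU v)) :=
        mul_le_mul_of_nonneg_left h2 (Real.sqrt_nonneg _)
    _ = _ := by ring

/-- first sheet -/
theorem norm_P1_le {H : ℝ} (hH : 0 ≤ H) : ∃ C : ℝ, 0 < C ∧ ∀ (n : ℕ) (w : ℂ), 4 ≤ n →
    -(1 / (2 * (n : ℝ))) ≤ w.re → w.re ≤ 1 → |w.im| ≤ H →
    ‖P1 n w‖ ≤ C * (n : ℝ) ^ 10 * Real.exp (n * UU w) := by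
  obtain ⟨C, hC, hsh⟩ := exp_UU_shift hH
  refine ⟨4 * C * Real.exp (Real.pi * H), by positivity, fun n w hn h0 h1 hw => ?_⟩
  obtain ⟨a1, a2, a3⟩ := half_n hn
  have hn4 : (4 : ℝ) ≤ n := by exact_mod_cast hn
  have hn0 : (0 : ℝ) < n := by linarith only [a1, a3, hn4]
  have hpi := Real.pi_pos
  have hE : 1 ≤ Real.exp (Real.pi * H) := Real.one_le_exp (by positivity)
  have hsq : √(n : ℝ) ≤ n := by
    rw [Real.sqrt_le_left hn0.le]
    nlinarith only [a1, a3, hn4]
  have a5 : 2 / (n : ℝ) = 2 * (1 / n) := by ring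
  have a6 : 3 / (2 * (n : ℝ)) = 3 * (1 / n / 2) := by field_simp
  unfold P1
  split_ifs with h
  · have e2 : (w + 1 / n).re = w.re + 1 / n := by rw [add_re, re_one_div]
    have hQ := norm_Qn_le hn (w := w + 1 / n) (by rw [e2]; linarith only [h0, a1, a2]) (by rw [e2]; linarith only [a3, h])
    have hS : 2 / (n : ℝ) ≤ ‖2 * Complex.sin (Real.pi * (w + 1 / n))‖ := by
      have s1 := VC.norm_sin_pi_ge (w + 1 / n)
      have s2 := sin_ge_of_margin (x := (w + 1 / n).re) (η := 1 / n / 2) (by linarith only [a1])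
        (by linarith only [a1, a3]) (by rw [e2]; linarith only [h0, a2]) (by rw [e2]; linarith only [a1, a3, h])
      have s3 := le_abs_self (Real.sin (Real.pi * (w + 1 / n).re))
      linarith only [a5, s1, s2, s3]
    have e3 : w + 1 / n + ((1 / (2 * n) : ℝ) : ℂ) = w + ((3 / (2 * n) : ℝ) : ℂ) := by
      push_cast
      have : (n : ℂ) ≠ 0 := by exact_mod_cast hn0.ne'
      field_simp
      ring
    rw [e3] at hQ
    have hU := (hsh n w (3 / (2 * n)) hn (by
      rw [abs_of_nonneg (by positivity), a6, a5]; linarith only [a1]) hw).1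
    rw [norm_div, div_le_iff₀ (lt_of_lt_of_le (by positivity) hS)]
    have hX : 0 < Real.exp (n * UU w) := Real.exp_pos _
    calc ‖Qn n (w + 1 / n)‖ ≤ 2 * √(n : ℝ) * Real.exp (n * UU (w + ((3 / (2 * n) : ℝ) : ℂ))) := hQ
      _ ≤ 2 * n * (C * (n : ℝ) ^ 8 * Real.exp (n * UU w)) := by
        apply mul_le_mul (by linarith only [hsq]) hU (Real.exp_pos _).le (by positivity)
      _ = 2 * C * (n : ℝ) ^ 9 * Real.exp (n * UU w) := by ring
      _ ≤ 4 * C * Real.exp (Real.pi * H) * (n : ℝ) ^ 10 * Real.exp (n * UU w) * (2 / n) := by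
        have : 4 * C * Real.exp (Real.pi * H) * (n : ℝ) ^ 10 * Real.exp (n * UU w) * (2 / n) =
            8 * C * Real.exp (Real.pi * H) * (n : ℝ) ^ 9 * Real.exp (n * UU w) := by
          field_simp
          ring
        rw [this]
        apply mul_le_mul_of_nonneg_right _ hX.le
        apply mul_le_mul_of_nonneg_right _ (by positivity)
        nlinarith only [hC, a1, a3, hE]
      _ ≤ _ := mul_le_mul_of_nonneg_left hS (by positivity)
  · push Not at h
    have e1 : (w - 1 / n).re = w.re - 1 / n := by rw [sub_re, re_one_div]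
    have hQ := norm_Qn_le hn (w := w - 1 / n) (by rw [e1]; linarith only [a1, a3, h]) (by rw [e1]; linarith only [h1])
    have e3 : w - 1 / n + ((1 / (2 * n) : ℝ) : ℂ) = w + ((-(1 / (2 * n)) : ℝ) : ℂ) := by
      push_cast
      have : (n : ℂ) ≠ 0 := by exact_mod_cast hn0.ne'
      field_simp
      ring
    rw [e3] at hQ
    have hU := (hsh n w (-(1 / (2 * n))) hn (by
      rw [abs_neg, abs_of_nonneg (by positivity), a2, a5]; linarith only [a1]) hw).1
    have hS := VC.norm_sin_pi_le w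
    have hS2 : 2 * Real.exp (Real.pi * |w.im|) ≤ 2 * Real.exp (Real.pi * H) := by
      have := Real.exp_le_exp.2 (mul_le_mul_of_nonneg_left hw hpi.le)
      linarith only [this]
    have hX : 0 < Real.exp (n * UU w) := Real.exp_pos _
    rw [norm_mul]
    calc ‖Qn n (w - 1 / n)‖ * ‖2 * Complex.sin (Real.pi * w)‖ ≤
        (2 * √(n : ℝ) * Real.exp (n * UU (w + ((-(1 / (2 * n)) : ℝ) : ℂ)))) *
          (2 * Real.exp (Real.pi * H)) :=
          mul_le_mul hQ (hS.trans hS2) (norm_nonneg _) (by positivity)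
      _ ≤ (2 * n * (C * (n : ℝ) ^ 8 * Real.exp (n * UU w))) * (2 * Real.exp (Real.pi * H)) := by
        apply mul_le_mul_of_nonneg_right _ (by positivity)
        apply mul_le_mul (by linarith only [hsq]) hU (Real.exp_pos _).le (by positivity)
      _ = 4 * C * Real.exp (Real.pi * H) * (n : ℝ) ^ 9 * Real.exp (n * UU w) := by ring
      _ ≤ _ := by
        apply mul_le_mul_of_nonneg_right _ hX.le
        apply mul_le_mul_of_nonneg_left _ (by positivity)
        exact pow_le_pow_right₀ (by linarith only [a1, a3, hn4]) (by norm_num)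

/-- **The bound for `Pn`.** -/
theorem norm_Pn_le {H : ℝ} (hH : 0 ≤ H) : ∃ C : ℝ, 0 < C ∧ ∀ (n : ℕ) (w : ℂ), 4 ≤ n →
    -(1 / (2 * (n : ℝ))) ≤ w.re → w.re ≤ 2 → |w.im| ≤ H →
    ‖Pn n w‖ ≤ C * (n : ℝ) ^ 10 * Real.exp (n * UU w) := by
  obtain ⟨C, hC, hP⟩ := norm_P1_le hH
  refine ⟨2 * C, by positivity, fun n w hn h0 h1 hw => ?_⟩
  have hn4 : (4 : ℝ) ≤ n := by exact_mod_cast hn
  have hn0 : (0 : ℝ) < n := by linarith only [hn4]
  have hpi := Real.pi_pos
  unfold Pn
  split_ifs with h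
  · refine (hP n w hn h0 h hw).trans ?_
    have : 0 < C * (n : ℝ) ^ 10 * Real.exp (n * UU w) := by positivity
    nlinarith only [this]
  · push Not at h
    have e1 : (w - 1).re = w.re - 1 := by simp
    have e2 : (w - 1).im = w.im := by simp
    have a0 : 0 < 1 / (2 * (n : ℝ)) := by positivity
    have h2 := hP n (w - 1) hn (by rw [e1]; linarith only [h, a0]) (by rw [e1]; linarith only [h1]) (by rw [e2]; exact hw)
    have h3 := VC.norm_sin_pi_le (n * (w - 1))
    have e3 : ((n : ℂ) * (w - 1)).im = n * w.im := by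
      rw [mul_im, e2]
      simp
    rw [e3, abs_mul, abs_of_pos hn0] at h3
    have e4 : UU w = UU (w - 1) + Real.pi * |w.im| := by
      have := UU_add_one (w - 1)
      rw [sub_add_cancel, e2] at this
      exact this
    rw [norm_mul, norm_neg, e4]
    calc ‖2 * Complex.sin (Real.pi * (n * (w - 1)))‖ * ‖P1 n (w - 1)‖ ≤
        (2 * Real.exp (Real.pi * (n * |w.im|))) * (C * (n : ℝ) ^ 10 * Real.exp (n * UU (w - 1))) :=
          mul_le_mul h3 h2 (norm_nonneg _) (by positivity)
      _ = 2 * C * (n : ℝ) ^ 10 * (Real.exp (n * UU (w - 1)) * Real.exp (Real.pi * (n * |w.im|))) := by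
        ring
      _ = _ := by
        rw [← Real.exp_add]
        congr 2
        ring

/-- **The bound for `Rn`.** -/
theorem norm_Rn_le {H : ℝ} (hH : 0 ≤ H) : ∃ C : ℝ, 0 < C ∧ ∀ (n : ℕ) (w : ℂ), 4 ≤ n →
    -1 - 1 / (n : ℝ) ≤ w.re → w.re ≤ 1 - 1 / (2 * (n : ℝ)) → |w.im| ≤ H →
    ‖Rn n w‖ ≤ C * (n : ℝ) ^ 18 * Real.exp (-(n * UU w)) := by
  obtain ⟨C, hC, hP⟩ := norm_Pn_le hH
  obtain ⟨C', hC', hsh⟩ := exp_UU_shift hH
  refine ⟨C * C', by positivity, fun n w hn h0 h1 hw => ?_⟩
  obtain ⟨a1, a2, a3⟩ := half_n hn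
  have hn4 : (4 : ℝ) ≤ n := by exact_mod_cast hn
  have hn0 : (0 : ℝ) < n := by linarith only [a1, a3, hn4]
  have e3 : (1 - 1 / n - w).re = 1 - 1 / n - w.re := by rw [sub_re, sub_re, re_one_div, one_re]
  have e4 : (1 - 1 / n - w).im = -w.im := by
    have : (1 : ℂ) / n = ((1 / (n : ℝ) : ℝ) : ℂ) := by push_cast; rfl
    rw [sub_im, sub_im, this, ofReal_im, one_im]
    ring
  have h2 := hP n (1 - 1 / n - w) hn (by rw [e3]; linarith only [h1, a2]) (by rw [e3]; linarith only [h0])
    (by rw [e4, abs_neg]; exact hw)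
  have e5 : UU (1 - 1 / n - w) = -UU (w + ((1 / n : ℝ) : ℂ)) := by
    rw [← UU_one_sub]
    congr 1
    push_cast
    ring
  rw [e5] at h2
  have h3 := (hsh n w (1 / n) hn (by
    rw [abs_of_pos a1]
    have : 2 / (n : ℝ) = 2 * (1 / n) := by ring
    linarith only [a1, this]) hw).2
  have e6 : (n : ℝ) * -UU (w + ((1 / n : ℝ) : ℂ)) = -(n * UU (w + ((1 / n : ℝ) : ℂ))) := by ring
  rw [e6] at h2
  have hnorm : ‖Rn n w‖ = ‖Pn n (1 - 1 / n - w)‖ / n := by
    rw [Rn, norm_div, Complex.norm_natCast]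
  rw [hnorm, div_le_iff₀ hn0]
  have hX : 0 < Real.exp (-(n * UU w)) := Real.exp_pos _
  calc _ ≤ C * (n : ℝ) ^ 10 * Real.exp (-(n * UU (w + ((1 / n : ℝ) : ℂ)))) := h2
    _ ≤ C * (n : ℝ) ^ 10 * (C' * (n : ℝ) ^ 8 * Real.exp (-(n * UU w))) :=
      mul_le_mul_of_nonneg_left h3 (by positivity)
    _ = C * C' * (n : ℝ) ^ 18 * Real.exp (-(n * UU w)) := by ring
    _ ≤ C * C' * (n : ℝ) ^ 18 * Real.exp (-(n * UU w)) * n := by
      apply le_mul_of_one_le_right (by positivity)
      linarith only [a1, a3, hn4]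

end Pool.Agent.Work.MP_b30479_gt.G2
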