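import Pool.Agent.Work.MP_b30479_gt.G2.Hess

/-!
# The position of a hinge from its cotangent

`wR R` is the point of `0 < Re w < 1 / 2` with `cot π w = R`, for `Re R > 0`.
-/

namespace Pool.Agent.Work.MP_b30479_gt.G2

open VOL
open Pool.Agent.Work.MP_b30479_gt.LT

/-- the point with `cot π w = R` -/
noncomputable def wR (R : ℂ) : ℂ :=
  Complex.log ((R + Complex.I) / (R - Complex.I)) / (2 * Real.pi * Complex.I)

lemma pos_sub_ne {R : ℂ} (h : 0 < R.re) : R - Complex.I ≠ 0 := by
  intro h0
  have := congrArg Complex.re h0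
  simp at this
  linarith

lemma pos_add_ne {R : ℂ} (h : 0 < R.re) : R + Complex.I ≠ 0 := by
  intro h0
  have := congrArg Complex.re h0
  simp at this
  linarith

/-- the value of `exp (2 π i w)` in terms of `R`: real and imaginary part -/
lemma quot_re (R : ℂ) : ((R + Complex.I) / (R - Complex.I)).re =
    (Complex.normSq R - 1) / Complex.normSq (R - Complex.I) := by
  rw [Complex.div_re, ← add_div]
  congr 1
  simp [Complex.normSq_apply]
  ring

lemma quot_im (R : ℂ) : ((R + Complex.I) / (R - Complex.I)).im =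
    2 * R.re / Complex.normSq (R - Complex.I) := by
  rw [Complex.div_im, ← sub_div]
  congr 1
  simp
  ring

lemma quot_im_pos {R : ℂ} (h : 0 < R.re) : 0 < ((R + Complex.I) / (R - Complex.I)).im := by
  rw [quot_im]
  have := Complex.normSq_pos.2 (pos_sub_ne h)
  positivity

lemma wR_mul (R : ℂ) : 2 * Real.pi * Complex.I * wR R =
    Complex.log ((R + Complex.I) / (R - Complex.I)) := by
  have hpi : (Real.pi : ℂ) ≠ 0 := Complex.ofReal_ne_zero.2 Real.pi_ne_zero
  unfold wR
  have := Complex.I_ne_zero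
  field_simp

lemma wR_re (R : ℂ) : (wR R).re = Complex.arg ((R + Complex.I) / (R - Complex.I)) /
    (2 * Real.pi) := by
  have h := congrArg Complex.im (wR_mul R)
  rw [Complex.log_im] at h
  have e : 2 * (Real.pi : ℂ) * Complex.I * wR R = ((2 * Real.pi : ℝ) : ℂ) * (Complex.I * wR R) := by
    push_cast; ring
  rw [e, Complex.im_ofReal_mul, Complex.I_mul_im] at h
  have hpi := Real.pi_pos
  rw [← h]
  field_simp

lemma wR_im (R : ℂ) : (wR R).im = -(Real.log ‖(R + Complex.I) / (R - Complex.I)‖) /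
    (2 * Real.pi) := by
  have h := congrArg Complex.re (wR_mul R)
  rw [Complex.log_re] at h
  have e : 2 * (Real.pi : ℂ) * Complex.I * wR R = ((2 * Real.pi : ℝ) : ℂ) * (Complex.I * wR R) := by
    push_cast; ring
  rw [e, Complex.re_ofReal_mul, Complex.I_mul_re] at h
  have hpi := Real.pi_pos
  rw [← h]
  field_simp

lemma arg_pos_lt {R : ℂ} (h : 0 < R.re) :
    0 < Complex.arg ((R + Complex.I) / (R - Complex.I)) ∧
    Complex.arg ((R + Complex.I) / (R - Complex.I)) < Real.pi := by
  have h1 := quot_im_pos h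
  constructor
  · rcases lt_or_eq_of_le (Complex.arg_nonneg_iff.2 h1.le) with h2 | h2
    · exact h2
    · exfalso
      have := (Complex.arg_eq_zero_iff.1 h2.symm).2
      linarith
  · rcases lt_or_eq_of_le (Complex.arg_le_pi ((R + Complex.I) / (R - Complex.I))) with h2 | h2
    · exact h2
    · exfalso
      have := (Complex.arg_eq_pi_iff.1 h2).2
      linarith

theorem wR_pos {R : ℂ} (h : 0 < R.re) : 0 < (wR R).re := by
  rw [wR_re]
  have := (arg_pos_lt h).1
  have := Real.pi_pos
  positivity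

theorem wR_lt {R : ℂ} (h : 0 < R.re) : (wR R).re < 1 / 2 := by
  rw [wR_re]
  have h1 := (arg_pos_lt h).2
  have hpi := Real.pi_pos
  rw [div_lt_iff₀ (by positivity)]
  linarith

lemma wR_mem {R : ℂ} (h : 0 < R.re) : wR R ∈ strip := ⟨wR_pos h, by linarith [wR_lt h]⟩

/-- `exp (2 π i w) = (R + i) / (R - i)` -/
theorem exp_wR {R : ℂ} (h : 0 < R.re) : Complex.exp (2 * Real.pi * Complex.I * wR R) =
    (R + Complex.I) / (R - Complex.I) := by
  rw [wR_mul, Complex.exp_log (div_ne_zero (pos_add_ne h) (pos_sub_ne h))]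

/-- `π cot π w` in terms of `exp (2 π i w)` -/
lemma ph'_exp {w : ℂ} (hw : w ∈ strip) : ph' w * (Complex.exp (2 * Real.pi * Complex.I * w) - 1) =
    Real.pi * Complex.I * (Complex.exp (2 * Real.pi * Complex.I * w) + 1) := by
  have hs := sin_pi_ne hw
  have e0 : (2 : ℂ) * Real.pi * Complex.I * w = Real.pi * w * Complex.I + Real.pi * w * Complex.I := by
    ring
  have e1 : Complex.exp (2 * Real.pi * Complex.I * w) =
      (Complex.cos (Real.pi * w) + Complex.sin (Real.pi * w) * Complex.I) ^ 2 := by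
    rw [e0, Complex.exp_add, Complex.exp_mul_I]
    ring
  have e2 := Complex.sin_sq_add_cos_sq (Real.pi * w)
  unfold ph'
  rw [e1, div_mul_eq_mul_div, div_eq_iff hs]
  have hI := Complex.I_sq
  linear_combination (Real.pi * (Complex.cos (Real.pi * w) +
    Complex.I * Complex.sin (Real.pi * w))) * e2 +
    (Real.pi * Complex.cos (Real.pi * w) * Complex.sin (Real.pi * w) ^ 2 * (-1) +
    (-Real.pi) * Complex.sin (Real.pi * w) ^ 3 * Complex.I) * hI

theorem ph'_wR {R : ℂ} (h : 0 < R.re) : ph' (wR R) = Real.pi * R := by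
  have h1 := ph'_exp (wR_mem h)
  rw [exp_wR h] at h1
  have hs := pos_sub_ne h
  have e1 : (R + Complex.I) / (R - Complex.I) - 1 = 2 * Complex.I / (R - Complex.I) := by
    field_simp; ring
  have e2 : (R + Complex.I) / (R - Complex.I) + 1 = 2 * R / (R - Complex.I) := by
    field_simp; ring
  rw [e1, e2] at h1
  have hI := Complex.I_ne_zero
  field_simp at h1
  linear_combination h1

/-- `|Im R| < 1` is the condition `Hg` -/
theorem Hg_wR {R : ℂ} (h : 0 < R.re) (h1 : |R.im| < 1) : Hg (wR R) := by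
  refine ⟨wR_pos h, wR_lt h, ?_⟩
  rw [ph'_wR h, Complex.im_ofReal_mul, abs_mul, abs_of_pos Real.pi_pos]
  nlinarith [Real.pi_pos]

/-- real and imaginary part of `exp (2 π i w)` -/
lemma exp_wR_polar {R : ℂ} (h : 0 < R.re) :
    Real.exp (-(2 * Real.pi * (wR R).im)) * Real.cos (2 * Real.pi * (wR R).re) =
      (Complex.normSq R - 1) / Complex.normSq (R - Complex.I) ∧
    Real.exp (-(2 * Real.pi * (wR R).im)) * Real.sin (2 * Real.pi * (wR R).re) =
      2 * R.re / Complex.normSq (R - Complex.I) := by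
  have h1 := exp_wR h
  have e : 2 * (Real.pi : ℂ) * Complex.I * wR R =
      ((-(2 * Real.pi * (wR R).im) : ℝ) : ℂ) + ((2 * Real.pi * (wR R).re : ℝ) : ℂ) * Complex.I := by
    apply Complex.ext <;> simp
  constructor
  · rw [← quot_re, ← h1, e, Complex.exp_re]
    simp
  · rw [← quot_im, ← h1, e, Complex.exp_im]
    simp

/-- lower bound of `Re w` -/
theorem wR_re_gt {R : ℂ} (h : 0 < R.re) {x : ℝ} (hx : x < 1 / 2)
    (h1 : (Complex.normSq R - 1) * Real.sin (2 * Real.pi * x) <
      2 * R.re * Real.cos (2 * Real.pi * x)) : x < (wR R).re := by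
  by_contra hc
  push Not at hc
  have hpi := Real.pi_pos
  have hn := Complex.normSq_pos.2 (pos_sub_ne h)
  obtain ⟨e1, e2⟩ := exp_wR_polar h
  have hw0 := wR_pos h
  have hs : 0 ≤ Real.sin (2 * Real.pi * x - 2 * Real.pi * (wR R).re) :=
    Real.sin_nonneg_of_nonneg_of_le_pi (by nlinarith) (by nlinarith)
  rw [Real.sin_sub] at hs
  have hE := Real.exp_pos (-(2 * Real.pi * (wR R).im))
  have e1' : Complex.normSq R - 1 = Complex.normSq (R - Complex.I) *
      (Real.exp (-(2 * Real.pi * (wR R).im)) * Real.cos (2 * Real.pi * (wR R).re)) := by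
    rw [e1]; field_simp
  have e2' : 2 * R.re = Complex.normSq (R - Complex.I) *
      (Real.exp (-(2 * Real.pi * (wR R).im)) * Real.sin (2 * Real.pi * (wR R).re)) := by
    rw [e2]; field_simp
  rw [e1', e2'] at h1
  have h2 : 0 ≤ Complex.normSq (R - Complex.I) * Real.exp (-(2 * Real.pi * (wR R).im)) *
      (Real.sin (2 * Real.pi * x) * Real.cos (2 * Real.pi * (wR R).re) -
      Real.cos (2 * Real.pi * x) * Real.sin (2 * Real.pi * (wR R).re)) :=
    mul_nonneg (mul_nonneg hn.le hE.le) hs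
  nlinarith [h1, h2]

/-- upper bound of `Re w` -/
theorem wR_re_lt {R : ℂ} (h : 0 < R.re) {x : ℝ} (hx0 : 0 ≤ x)
    (h1 : 2 * R.re * Real.cos (2 * Real.pi * x) <
      (Complex.normSq R - 1) * Real.sin (2 * Real.pi * x)) : (wR R).re < x := by
  by_contra hc
  push Not at hc
  have hpi := Real.pi_pos
  have hn := Complex.normSq_pos.2 (pos_sub_ne h)
  obtain ⟨e1, e2⟩ := exp_wR_polar h
  have hw0 := wR_lt h
  have hs : 0 ≤ Real.sin (2 * Real.pi * (wR R).re - 2 * Real.pi * x) :=
    Real.sin_nonneg_of_nonneg_of_le_pi (by nlinarith) (by nlinarith)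
  rw [Real.sin_sub] at hs
  have hE := Real.exp_pos (-(2 * Real.pi * (wR R).im))
  have e1' : Complex.normSq R - 1 = Complex.normSq (R - Complex.I) *
      (Real.exp (-(2 * Real.pi * (wR R).im)) * Real.cos (2 * Real.pi * (wR R).re)) := by
    rw [e1]; field_simp
  have e2' : 2 * R.re = Complex.normSq (R - Complex.I) *
      (Real.exp (-(2 * Real.pi * (wR R).im)) * Real.sin (2 * Real.pi * (wR R).re)) := by
    rw [e2]; field_simp
  rw [e1', e2'] at h1
  have h2 : 0 ≤ Complex.normSq (R - Complex.I) * Real.exp (-(2 * Real.pi * (wR R).im)) *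
      (Real.sin (2 * Real.pi * (wR R).re) * Real.cos (2 * Real.pi * x) -
      Real.cos (2 * Real.pi * (wR R).re) * Real.sin (2 * Real.pi * x)) :=
    mul_nonneg (mul_nonneg hn.le hE.le) hs
  nlinarith [h1, h2]

/-- `e^{-4 π Im w} = |R + i|² / |R - i|²` -/
theorem exp_im_wR {R : ℂ} (h : 0 < R.re) : Real.exp (-(4 * Real.pi * (wR R).im)) =
    Complex.normSq (R + Complex.I) / Complex.normSq (R - Complex.I) := by
  have h1 := congrArg Complex.normSq (exp_wR h)
  rw [map_div₀, Complex.normSq_eq_norm_sq, Complex.norm_exp] at h1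
  rw [← h1, ← Real.exp_nat_mul]
  congr 1
  simp
  ring

end Pool.Agent.Work.MP_b30479_gt.G2
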