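import Pool.Agent.Work.MP_b30479_gt.G2.SWDefs
import Pool.Agent.Work.MP_b30479_gt.LT.BWpos

/-!
# The volume is positive
-/

namespace Pool.Agent.Work.MP_b30479_gt.G2

open Finset
open Pool.Agent.Work.MP_b30479_gt.LT (BW ee BW_pos)

lemma BW_pos_of_im {z : ℂ} (h : 0 < z.im) : 0 < BW z := by
  have hp : (0 : ℝ) < 2 * Real.pi := by positivity
  have hz : z ≠ 0 := by
    rintro rfl
    simp at h
  have hI : (2 * Real.pi * Complex.I : ℂ) ≠ 0 := by
    simp [Real.pi_ne_zero]
  have e : ee (Complex.log z / (2 * Real.pi * Complex.I)) = z := by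
    unfold ee
    rw [mul_div_cancel₀ _ hI, Complex.exp_log hz]
  have hre : (Complex.log z / (2 * Real.pi * Complex.I)).re = z.arg / (2 * Real.pi) := by
    rw [show Complex.log z / (2 * Real.pi * Complex.I) =
      (-(Complex.log z * Complex.I)) * ((1 / (2 * Real.pi) : ℝ) : ℂ) by
        push_cast
        have := Complex.I_sq
        field_simp
        linear_combination Complex.log z * this]
    rw [Complex.re_mul_ofReal, Complex.neg_re, Complex.mul_I_re, neg_neg, Complex.log_im]
    ring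
  have h1 : 0 < z.arg := by
    have h2 : 0 ≤ z.arg := Complex.arg_nonneg_iff.mpr h.le
    rcases h2.lt_or_eq with h3 | h3
    · exact h3
    · exfalso
      have := Complex.arg_eq_zero_iff.mp h3.symm
      rw [this.2] at h
      exact lt_irrefl _ h
  have h2 : z.arg < Real.pi := by
    rcases (Complex.arg_le_pi z).lt_or_eq with h3 | h3
    · exact h3
    · exfalso
      have := Complex.arg_eq_pi_iff.mp h3
      rw [this.2] at h
      exact lt_irrefl _ h
  rw [← e]
  apply BW_pos
  · rw [hre]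
    positivity
  · rw [hre, div_lt_iff₀ hp]
    linarith

/-- The volume is positive. -/
theorem swVolume_pos {M : ℕ} {a : Fin (M + 2) → ℕ} {p : Fin (M + 2) → ℂ} {q : Fin (M + 2) → ℕ → ℂ}
    (h0 : 2 ≤ a 0) (h : SWPos a p q) : 0 < swVolume a p q := by
  unfold swVolume
  have h1 : ∀ i, ∀ l ∈ lays a i, 0 < 2 * BW (swShape p q i l) := fun i l hl => by
    have := BW_pos_of_im (h i l hl)
    positivity
  have hl0 : (0 : Fin (M + 2)) ≠ Fin.last (M + 1) := (Fin.last_pos' (n := M + 1)).ne
  refine Finset.sum_pos' (fun i _ => Finset.sum_nonneg fun l hl => (h1 i l hl).le) ⟨0, mem_univ _, ?_⟩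
  refine Finset.sum_pos (fun l hl => h1 0 l hl) ⟨2, ?_⟩
  unfold lays
  rw [if_pos rfl, if_neg hl0, mem_Icc]
  exact ⟨le_rfl, h0⟩

end Pool.Agent.Work.MP_b30479_gt.G2
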