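import Pool.Agent.Work.MP_b30479_gt.G2.Words

/-!
# Every alternating word is equivalent to its merged word
-/

namespace Pool.Agent.Work.MP_b30479_gt.G2

open Finset
open Pool.Agent.Work.MP_b30479_gt.LT

/-- Every alternating word is equivalent to a word of the class, the merged word. -/
theorem words_mg {M : ℕ} (hM : 1 ≤ M) (a : Fin (M + 1) → ℕ) (ha : ∀ i, 1 ≤ a i) (h0 : 2 ≤ a 0)
    (hl : 2 ≤ a (Fin.last M)) :
    ∃ (K : ℕ) (b : Fin (K + 1) → ℤ), 1 ≤ K ∧ ClassW b ∧
      Eqv (List.ofFn (altf a)) (List.ofFn b) ∧ List.ofFn b = mg (List.ofFn (altf a)) ∧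
      AL (List.ofFn (altf a)) ∧ 0 < b 0 := by
  have e1 : List.ofFn (altf a) = altf a 0 :: List.ofFn (fun i => altf a i.succ) := List.ofFn_succ
  have hne : ∀ i, altf a i ≠ 0 := by
    intro i
    have := ha i
    unfold altf
    exact mul_ne_zero (pow_ne_zero _ (by norm_num)) (by omega)
  have hAL : AL (List.ofFn (altf a)) := by
    refine AL_ofFn M _ hne fun j => ?_
    have h1 : (0 : ℤ) < a j.castSucc := by exact_mod_cast ha _
    have h2 : (0 : ℤ) < a j.succ := by exact_mod_cast ha _
    unfold altf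
    rw [Fin.val_castSucc, Fin.val_succ, pow_succ]
    have h3 : ((-1 : ℤ) ^ (j : ℕ)) * (-1) ^ (j : ℕ) = 1 := by rw [← mul_pow]; simp
    have h4 : (-1 : ℤ) ^ (j : ℕ) * a j.castSucc * ((-1) ^ (j : ℕ) * -1 * a j.succ) =
        -(a j.castSucc * a j.succ) := by
      linear_combination -(a j.castSucc * a j.succ : ℤ) * h3
    rw [h4]
    have := mul_pos h1 h2
    omega
  have habs : ∀ i, (altf a i).natAbs = a i := by
    intro i
    unfold altf
    rw [Int.natAbs_mul, Int.natAbs_pow]
    simp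
  have hs := mg_spec (List.ofFn (fun i => altf a i.succ)).length (altf a 0)
    (List.ofFn (fun i => altf a i.succ)) le_rfl (by rw [← e1]; exact hAL)
  rw [← e1] at hs
  set m := mg (List.ofFn (altf a)) with hm
  have hlen : 2 ≤ m.length := hs.len (by rw [← e1, List.length_ofFn]; omega)
  obtain ⟨K, hK⟩ : ∃ K, m.length = K + 1 := ⟨m.length - 1, by omega⟩
  obtain ⟨b, hb⟩ : ∃ b : Fin (K + 1) → ℤ, m = List.ofFn b := by
    refine ⟨fun i => m.get (i.cast hK.symm), ?_⟩
    apply List.ext_getElem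
    · rw [List.length_ofFn, hK]
    · intro i h1 h2
      rw [List.getElem_ofFn]
      rfl
  have hlast := hs.last (by rw [← e1, lst_ofFn, habs]; exact hl)
  rw [hb] at hs hlast
  rw [lst_ofFn] at hlast
  obtain ⟨k1, k2, k3⟩ := LW_ofFn K b hs.lw
  have hp0 : 0 < altf a 0 := by
    unfold altf
    have : (0 : ℤ) < a 0 := by exact_mod_cast ha 0
    simpa using this
  refine ⟨K, b, by omega, ⟨k1, ?_, hlast, k2, k3⟩, ?_, hb.symm, hAL, ?_⟩
  · have e2 : List.ofFn b = b 0 :: List.ofFn (fun i => b i.succ) := List.ofFn_succ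
    have h00 := habs 0
    obtain ⟨r, h5 | ⟨h5a, h5⟩⟩ := hs.head
    · rw [e2] at h5
      injection h5 with h6 h7
      omega
    · rw [e2] at h5
      injection h5 with h6 h7
      have := (sign_abs (hne 0)).1
      omega
  · have := hs.eqv
    rw [← e1] at this
    exact this
  · have e2 : List.ofFn b = b 0 :: List.ofFn (fun i => b i.succ) := List.ofFn_succ
    obtain ⟨r, h5 | ⟨h5a, h5⟩⟩ := hs.head
    · rw [e2] at h5
      injection h5 with h6 h7
      rw [h6]
      exact hp0
    · rw [e2] at h5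
      injection h5 with h6 h7
      rw [h6, Int.sign_eq_one_of_pos hp0]
      omega

end Pool.Agent.Work.MP_b30479_gt.G2
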