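import Pool.Agent.Work.MP_b30479_gt.G2.CSWordC
import Pool.Agent.Work.MP_b30479_gt.G2.CSInv
import Pool.Agent.Work.MP_b30479_gt.G2.WordsB
import Pool.Agent.Work.MP_b30479_gt.G2.CnLim
import Pool.Agent.Work.MP_b30479_gt.G2.SWPosV

/-!
# The complexified volume conjecture (ratio form) for two-bridge links
-/

namespace Pool.Agent.Work.MP_b30479_gt.G2

open Finset VOL Filter Topology
open Pool.Agent.Work.MP_b30479_gt.LT

/-- the saddle point of a word -/
def HSad {M : ℕ} (b : Fin (M + 2) → ℤ) : Prop :=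
  ∃ (t : Fin (M + 2) → Typ) (P : Par (DD (M := M + 1) t))
    (nb : Finset (DD (M := M + 1) t) → Finset (DD (M := M + 1) t ⊕ ZZ (M := M + 1) t))
    (z : DD (M := M + 1) t ⊕ ZZ (M := M + 1) t → ℂ),
    Sadl (wdat (M := M + 1) t b) P nb z ∧ GTyp b t ∧ GNv b t z ∧ UPos b (gU b t z)

lemma Ci.symm {x y : ℂ} (h : Ci x y) : Ci y x := by
  obtain ⟨k, hk⟩ := h
  exact ⟨-k, by push_cast; linear_combination -hk⟩

lemma Ci.trans {x y z : ℂ} (h : Ci x y) (h' : Ci y z) : Ci x z := by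
  obtain ⟨k, hk⟩ := h
  obtain ⟨l, hl⟩ := h'
  exact ⟨k + l, by push_cast; linear_combination hk + hl⟩

section
variable {M : ℕ} {b : Fin (M + 2) → ℤ} {t : Fin (M + 2) → Typ}
  {z : DD (M := M + 1) t ⊕ ZZ (M := M + 1) t → ℂ}

lemma cvT_re : (cvT b t z).re = 2 * Real.pi * ((wdat (M := M + 1) t b).T z).re := by
  unfold cvT
  have e : Real.pi ^ 2 * Complex.I / 2 * ∑ v : ZZ (M := M + 1) t, (b v.1 : ℂ) =
      ((Real.pi ^ 2 / 2 * ∑ v : ZZ (M := M + 1) t, (b v.1 : ℝ) : ℝ) : ℂ) * Complex.I := by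
    push_cast
    ring
  rw [e, Complex.sub_re, Complex.re_ofReal_mul]
  simp only [Complex.I_re, mul_zero, sub_zero]
  rw [show (2 * (Real.pi : ℂ)) = ((2 * Real.pi : ℝ) : ℂ) by push_cast; rfl, Complex.re_ofReal_mul]

lemma cvT_exp : Complex.exp (cvT b t z / Real.pi) =
    (∏ i, rph (t i) (b i)) * Complex.exp (2 * (wdat (M := M + 1) t b).T z) := by
  have hp : (Real.pi : ℂ) ≠ 0 := by exact_mod_cast Real.pi_ne_zero
  have e1 : cvT b t z / Real.pi = ∑ i, (if t i = .ring then -(Real.pi * Complex.I / 2) * b i else 0) +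
      2 * (wdat (M := M + 1) t b).T z := by
    unfold cvT
    rw [sum_ZZ (t := t) (fun i => (b i : ℂ))]
    have : ∑ i, (if t i = .ring then -(Real.pi * Complex.I / 2) * (b i : ℂ) else 0) =
        -(Real.pi * Complex.I / 2) * ∑ i, (if t i = .ring then (b i : ℂ) else 0) := by
      rw [mul_sum]
      refine sum_congr rfl fun i _ => ?_
      split_ifs <;> ring
    rw [this]
    field_simp
    ring
  rw [e1, Complex.exp_add, Complex.exp_sum]
  congr 1
  refine prod_congr rfl fun i _ => ?_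
  have h : (t i).isRing = true ↔ t i = .ring := by cases t i <;> simp [Typ.isRing]
  unfold rph
  by_cases h1 : t i = .ring
  · rw [if_pos h1, if_pos (h.mpr h1), mul_comm, Complex.exp_int_mul]
    congr 1
    rw [show -(Real.pi * Complex.I / 2) = -(Real.pi / 2 * Complex.I) by ring, Complex.exp_neg,
      Complex.exp_pi_div_two_mul_I, Complex.inv_I]
  · rw [if_neg h1, if_neg fun h2 => h1 (h.mp h2), Complex.exp_zero]

end

lemma glueN_vol {M : ℕ} {b : Fin (M + 2) → ℤ} {Y : Fin (M + 1) → ℂ} {U : Fin (M + 2) → ℕ → ℂ} {y : ℂ}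
    (h : GlueN (M + 1) (xt 1 b) (xt 1 Y) (xt (fun _ => 1) U))
    (hy : (1 - xt (fun _ => 1) U 0 1) * (1 - (xt (fun _ => 1) U 0 0)⁻¹) = y ^ 2) :
    vsum (Lys 2 y 0 (Complex.I * y) (dig (xt 1 b) 0 (M + 1))) = swVol b Y U := by
  have h1 := h.vol hy
  have h2 : vsum (Lys 2 y 0 (Complex.I * y) (dig (xt 1 b) 0 (M + 1))) = vsum (LS' (xt 1 b) y 2 0 (M + 1)) := rfl
  rw [h2, h1, swVol]
  congr 1
  · rw [sum_range]
    exact sum_congr rfl fun j _ => by rw [xt_eq]
  · rw [sum_range]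
    refine sum_congr rfl fun i _ => ?_
    unfold lett
    rw [xt_eq, xt_eq]
    have e : nlN (M + 1) (xt 1 b) i = nlet b i := by
      unfold nlN nlet
      rw [xt_eq]
      have e : ((i : ℕ) = 0 ∨ (i : ℕ) = M + 1) ↔ (i = 0 ∨ i = Fin.last (M + 1)) := by
        rw [Fin.ext_iff, Fin.ext_iff]
        rfl
      by_cases hc : (i : ℕ) = 0 ∨ (i : ℕ) = M + 1
      · rw [if_pos hc, if_pos (e.mp hc)]
      · rw [if_neg hc, if_neg (fun h => hc (e.mpr h))]
    rw [e]

/-- the theorem, from the saddle point of the merged word -/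
theorem pub_of {M : ℕ} (a : Fin (M + 2) → ℕ) (H : ∀ (K : ℕ) (b : Fin (K + 2) → ℤ),
      ClassW (M := K + 1) b → 0 < b 0 → List.ofFn b = mg (List.ofFn (altf (M := M + 1) a)) → HSad b)
    (ha : ∀ i, 1 ≤ a i) (h0 : 2 ≤ a 0) (hl : 2 ≤ a (Fin.last (M + 1))) :
    ∃ (p : Fin (M + 2) → ℂ) (q : Fin (M + 2) → ℕ → ℂ), Markoff a p q ∧ SWPos a p q ∧
      (∃ P Q, SWLog a p q P Q) ∧ 0 < swVolume a p q ∧
      ∃ V : ℂ, V.re = swVolume a p q ∧
      (∀ P Q, SWLog a p q P Q → ∃ k : ℤ, V - swCV a p q P Q = Real.pi ^ 2 * Complex.I * k) ∧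
      (∃ δ, IsOrientation (ltWord (List.ofFn (altf (M := M + 1) a))) δ) ∧
      ∀ δ, IsOrientation (ltWord (List.ofFn (altf (M := M + 1) a))) δ →
        (∀ᶠ s : ℕ in atTop, twoBridgeKashaev (ltWord (List.ofFn (altf (M := M + 1) a))) δ (2 * s + 1) ≠ 0) ∧
        Tendsto (fun s : ℕ => twoBridgeKashaev (ltWord (List.ofFn (altf (M := M + 1) a))) δ (2 * s + 3) /
          twoBridgeKashaev (ltWord (List.ofFn (altf (M := M + 1) a))) δ (2 * s + 1)) atTop
          (𝓝 (Complex.exp (V / Real.pi))) ∧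
        Tendsto (fun s : ℕ => Real.pi *
          Real.log ‖twoBridgeKashaev (ltWord (List.ofFn (altf (M := M + 1) a))) δ (2 * s + 3) /
            twoBridgeKashaev (ltWord (List.ofFn (altf (M := M + 1) a))) δ (2 * s + 1)‖) atTop
          (𝓝 (swVolume a p q)) := by
  obtain ⟨K, b, hK, hW, hE, hmg, hAL, hb0⟩ := words_mg (M := M + 1) (by omega) a ha h0 hl
  obtain ⟨K, rfl⟩ : ∃ K', K = K' + 1 := ⟨K - 1, by omega⟩
  obtain ⟨t, P, nb, z, hS, hT, hN, hU⟩ := H K b hW hb0 hmg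
  have hin := hS.inner
  have hc := hS.crit
  have hG := geo_glue hT hin hc hN
  have hstrip : ∀ j : Fin (K + 1), z (.inl (.inl j)) ∈ strip := by
    intro j
    have h1 := hS.par (.inl j)
    have h2 := hS.flatD (.inl j)
    exact ⟨by linarith [h1.2.2.1, h2.1], by linarith [h1.2.1, h1.2.2.2.1, h2.2]⟩
  have hY0 : ∀ j, gY t z j ≠ 0 := fun j => Complex.exp_ne_zero _
  have hY1 : ∀ j, gY t z j ≠ 1 := fun j h => one_sub_ee_ne0 (hstrip j) (by
    have : LT.ee (z (.inl (.inl j))) = 1 := h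
    rw [this, sub_self])
  have hGN := glueN_of hG hW.ne hW.first hW.last hY0 hY1 hU
  obtain ⟨y, hy⟩ := IsAlgClosed.exists_pow_nat_eq
    ((1 - xt (fun _ => 1) (gU b t z) 0 1) * (1 - (xt (fun _ => 1) (gU b t z) 0 0)⁻¹)) (n := 2) (by norm_num)
  have hy' := hy.symm
  have f1 : fin y 0 (Complex.I * y) (List.ofFn b) = 0 := by
    rw [ofFn_dig]
    exact hGN.fin_eq hy'
  have f2 : ∀ x ∈ Lys 2 y 0 (Complex.I * y) (List.ofFn b), 0 < (zL x).im := by
    rw [ofFn_dig]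
    exact hGN.pos_all hy'
  have f3 : vsum (Lys 2 y 0 (Complex.I * y) (List.ofFn b)) = swVol b (gY t z) (gU b t z) := by
    rw [ofFn_dig]
    exact glueN_vol hGN hy'
  -- the original word
  have e1 : List.ofFn (altf (M := M + 1) a) = altf (M := M + 1) a 0 ::
      List.ofFn (fun i : Fin (M + 1) => altf (M := M + 1) a i.succ) := List.ofFn_succ
  have ha0 : 2 ≤ (altf (M := M + 1) a 0).natAbs := by
    rw [altf_natAbs]
    exact h0
  have hlst : 2 ≤ (lst (List.ofFn (altf (M := M + 1) a))).natAbs := by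
    rw [lst_ofFn, altf_natAbs]
    exact hl
  have hm := Lys_mg _ _ _ le_rfl (by rw [← e1]; exact hAL) 2 ha0 y 0 (Complex.I * y)
  rw [← e1, ← hmg] at hm
  rw [hm.2] at f1
  rw [hm.1] at f2 f3
  obtain ⟨p, q, hp, hM, hpos, hvol⟩ := markoff_of a ha h0 hl f1 f2
  obtain ⟨P0, Q0, hL0, hC0⟩ := swCV_alt ha h0 hl hM hpos
  have hmgC := cvL_mg (x := altf (M := M + 1) a 0)
    (l := List.ofFn (fun i : Fin (M + 1) => altf (M := M + 1) a i.succ)) (by rw [← e1]; exact hAL) ha0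
    (by rw [← e1]; exact hlst) y
  rw [← e1, ← hmg] at hmgC
  rw [hp] at hC0
  have hV := cvT_cvL hT hin hc hN hGN hy' hb0
  have hre : (cvT b t z).re = swVolume a p q := by
    rw [cvT_re, geo_vol hT hin hc hN, ← f3, hvol]
  refine ⟨p, q, hM, hpos, ⟨P0, Q0, hL0⟩, swVolume_pos h0 hpos, cvT b t z, hre, fun P Q hL =>
    ((hV.trans hmgC).trans hC0.symm).trans (swCV_indep ha h0 hl hM hpos hL0 hL),
    TB.exists_orientation _, fun δ hδ => ?_⟩
  have hO := hE.kashaev (by simp) (by simp) δ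
  have hδ' := hO.1.mp hδ
  obtain ⟨m1, m2, m3⟩ := main_of_saddle (M := K + 1) t hT.ok hS hδ'
  have hK : ∀ s : ℕ, 1 ≤ s → twoBridgeKashaev (ltWord (List.ofFn (altf (M := M + 1) a))) δ (2 * s + 1) =
      twoBridgeKashaev (ltWord (List.ofFn b)) δ (2 * s + 1) := hO.2 hδ
  have hK3 : ∀ s : ℕ, twoBridgeKashaev (ltWord (List.ofFn (altf (M := M + 1) a))) δ (2 * s + 3) =
      twoBridgeKashaev (ltWord (List.ofFn b)) δ (2 * s + 3) := fun s => hK (s + 1) (by omega)
  refine ⟨?_, ?_, ?_⟩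
  · filter_upwards [m1, eventually_ge_atTop 1] with s h1 h2
    rw [hK s h2]
    exact h1
  · rw [cvT_exp]
    refine m2.congr' ?_
    filter_upwards [eventually_ge_atTop 1] with s h2
    rw [hK s h2, hK3 s]
  · rw [← hre, cvT_re]
    refine m3.congr' ?_
    filter_upwards [eventually_ge_atTop 1] with s h2
    rw [hK s h2, hK3 s]

end Pool.Agent.Work.MP_b30479_gt.G2
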