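import Pool.Agent.Work.MP_b30479_gt.G2.R32B

/-!
# Right ramp of the hinge between an interior region with three crossings (left) and a digit `±1`

Own side, inner variable at most `.50`, no information about the other hinges.
-/

set_option linter.unusedSimpArgs false
set_option linter.unusedVariables false
set_option linter.unusedTactic false
set_option linter.unreachableTactic false

namespace Pool.Agent.Work.MP_b30479_gt.G2

open VOL NumI

namespace MR

open E

/-- bound -/
def G_r31_one : E := sub (mul (q 685 100) (add (var 1) (q 21 1000))) (q 565 1000)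

/-- own side, the other neighbour of the digit is a `1` -/
theorem r31_one {w v : ℂ} {T : ℝ} (hT : -(920 / 10000) ≤ T) (hT' : T ≤ -(210 / 10000))
    (hw : w.im = tR 65 29 w.re T) (hx : 3600 / 10000 ≤ w.re) (hx' : w.re ≤ 5600 / 10000)
    (v0 : 0 ≤ v.re) (v1 : v.re ≤ 5 / 10) (i0 : -(123 / 1000) ≤ v.im)
    (i1 : v.re ≤ 5 / 100 → v.im ≤ -(3 / 10) * v.re) (i2 : 5 / 100 ≤ v.re → v.im ≤ -(15 / 1000)) :
    S2 1 (mR 29 T) w v < 685 / 100 * (T + 21 / 1000) - 565 / 1000 := by
  have hF : G_r31_one.val [w.re, T, v.re, v.im] = 685 / 100 * (T + 21 / 1000) - 565 / 1000 := by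
    simp only [G_r31_one, E.val, lkR]
    push_cast
    ring
  rw [← hF]
  have hre : (w + v).re = w.re + v.re := Complex.add_re _ _
  have him : (w + v).im = w.im + v.im := Complex.add_im _ _
  have hT0 : T ≤ 0 := by linarith only [hT']
  apply S2_zone (by linarith only [hx]) (by linarith only [hx']) (by linarith only [v0]) (by linarith only [hx', v1])
  · intro h5
    rw [hw]
    rcases le_total v.re (5 / 100) with h | h
    · have i3 := i1 h
      have := pos_box (G := S2E 65 29 G_r31_one) (al := [add (var 3) (mul (q 3 10) (var 2))]) (fuel := 28)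
        (x := w.re) (T := T) (x' := v.re) (t' := v.im)
        (by decide +kernel : chk [S2E 65 29 G_r31_one, add (var 3) (mul (q 3 10) (var 2))] 28
          [V.of 10000 3600 5600, V.of 10000 (-920) (-210), V.of 10000 0 500, V.of 10000 (-1230) 0] = true)
        ⟨by norm_num; linarith only [hx], by norm_num; linarith only [hx']⟩ ⟨by norm_num; linarith only [hT], by norm_num; linarith only [hT']⟩ ⟨by norm_num; linarith only [v0], by norm_num; linarith only [h]⟩
        ⟨by norm_num; linarith only [i0], by norm_num; linarith only [v0, i3]⟩ (by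
          intro e he
          simp only [List.mem_cons, List.not_mem_nil, or_false] at he
          rcases he with rfl <;> (simp only [E.val, uE_val, yE_val, lkR]; norm_num; linarith only [i3]))
      rw [S2E_val] at this
      linarith only [this]
    · have i3 := i2 h
      have := pos_box (G := S2E 65 29 G_r31_one) (al := [sub uE (q 5 6)]) (fuel := 28)
        (x := w.re) (T := T) (x' := v.re) (t' := v.im)
        (by decide +kernel : chk [S2E 65 29 G_r31_one, sub uE (q 5 6)] 28
          [V.of 10000 3600 5600, V.of 10000 (-920) (-210), V.of 10000 500 5000, V.of 10000 (-1230) (-150)] = true)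
        ⟨by norm_num; linarith only [hx], by norm_num; linarith only [hx']⟩ ⟨by norm_num; linarith only [hT], by norm_num; linarith only [hT']⟩ ⟨by norm_num; linarith only [h], by norm_num; linarith only [v1]⟩
        ⟨by norm_num; linarith only [i0], by norm_num; linarith only [i3]⟩ (by
          intro e he
          simp only [List.mem_cons, List.not_mem_nil, or_false] at he
          rcases he with rfl <;> (simp only [E.val, uE_val, yE_val, lkR]; norm_num; linarith only [h5]))
      rw [S2E_val] at this
      linarith only [this]
  · intro h5 h6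
    have h : 5 / 100 ≤ v.re := by linarith only [hx', h5]
    have i3 := i2 h
    have hs : w.im + v.im ≤ 0 := by
      have := im_le0 (XM := 65) (cr := 29) (x := w.re) (T := T) hT0 (by norm_num; linarith only [hx'])
      rw [hw]; linarith only [i3, this]
    refine ⟨((0 : ℤ) : ℝ), by simpa using mul_YY_00 (mR_nonneg hT0) (by rw [hre]; linarith only [h5]) (by rw [him]; exact hs), ?_⟩
    rw [hw]
    have := pos_box (G := N2E 65 29 G_r31_one 0) (al := [sub (q 5 6) uE]) (fuel := 28)
      (x := w.re) (T := T) (x' := v.re) (t' := v.im)
      (by decide +kernel : chk [N2E 65 29 G_r31_one 0, sub (q 5 6) uE] 28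
        [V.of 10000 3600 5600, V.of 10000 (-920) (-210), V.of 10000 2733 5000, V.of 10000 (-1230) (-150)] = true)
      ⟨by norm_num; linarith only [hx], by norm_num; linarith only [hx']⟩ ⟨by norm_num; linarith only [hT], by norm_num; linarith only [hT']⟩ ⟨by norm_num; linarith only [hx', h5], by norm_num; linarith only [v1]⟩
      ⟨by norm_num; linarith only [i0], by norm_num; linarith only [i3]⟩ (by
        intro e he
        simp only [List.mem_cons, List.not_mem_nil, or_false] at he
        rcases he with rfl <;> (simp only [E.val, uE_val, yE_val, lkR]; norm_num; linarith only [h5]))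
    rw [N2E_val] at this
    linarith only [this]
  · intro h5
    exfalso; linarith only [hx', v1, h5]

/-- bound -/
def G_r31_one_b : E := sub (mul (q 122 10) (add (var 1) (q 21 1000))) (q 62 100)

/-- own side, the other neighbour of the digit is a `1` -/
theorem r31_one_b {w v : ℂ} {T : ℝ} (hT : -(920 / 10000) ≤ T) (hT' : T ≤ -(210 / 10000))
    (hw : w.im = tR 65 29 w.re T) (hx : 5600 / 10000 ≤ w.re) (hx' : w.re ≤ 6500 / 10000)
    (v0 : 0 ≤ v.re) (v1 : v.re ≤ 5 / 10) (i0 : -(123 / 1000) ≤ v.im)
    (i1 : v.re ≤ 5 / 100 → v.im ≤ -(3 / 10) * v.re) (i2 : 5 / 100 ≤ v.re → v.im ≤ -(15 / 1000)) :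
    S2 1 (mR 29 T) w v < 122 / 10 * (T + 21 / 1000) - 62 / 100 := by
  have hF : G_r31_one_b.val [w.re, T, v.re, v.im] = 122 / 10 * (T + 21 / 1000) - 62 / 100 := by
    simp only [G_r31_one_b, E.val, lkR]
    push_cast
    ring
  rw [← hF]
  have hre : (w + v).re = w.re + v.re := Complex.add_re _ _
  have him : (w + v).im = w.im + v.im := Complex.add_im _ _
  have hT0 : T ≤ 0 := by linarith only [hT']
  apply S2_zone (by linarith only [hx]) (by linarith only [hx']) (by linarith only [v0]) (by linarith only [hx', v1])
  · intro h5
    rw [hw]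
    rcases le_total v.re (5 / 100) with h | h
    · have i3 := i1 h
      have := pos_box (G := S2E 65 29 G_r31_one_b) (al := [add (var 3) (mul (q 3 10) (var 2))]) (fuel := 28)
        (x := w.re) (T := T) (x' := v.re) (t' := v.im)
        (by decide +kernel : chk [S2E 65 29 G_r31_one_b, add (var 3) (mul (q 3 10) (var 2))] 28
          [V.of 10000 5600 6500, V.of 10000 (-920) (-210), V.of 10000 0 500, V.of 10000 (-1230) 0] = true)
        ⟨by norm_num; linarith only [hx], by norm_num; linarith only [hx']⟩ ⟨by norm_num; linarith only [hT], by norm_num; linarith only [hT']⟩ ⟨by norm_num; linarith only [v0], by norm_num; linarith only [h]⟩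
        ⟨by norm_num; linarith only [i0], by norm_num; linarith only [v0, i3]⟩ (by
          intro e he
          simp only [List.mem_cons, List.not_mem_nil, or_false] at he
          rcases he with rfl <;> (simp only [E.val, uE_val, yE_val, lkR]; norm_num; linarith only [i3]))
      rw [S2E_val] at this
      linarith only [this]
    · have i3 := i2 h
      have := pos_box (G := S2E 65 29 G_r31_one_b) (al := [sub uE (q 5 6)]) (fuel := 28)
        (x := w.re) (T := T) (x' := v.re) (t' := v.im)
        (by decide +kernel : chk [S2E 65 29 G_r31_one_b, sub uE (q 5 6)] 28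
          [V.of 10000 5600 6500, V.of 10000 (-920) (-210), V.of 10000 500 5000, V.of 10000 (-1230) (-150)] = true)
        ⟨by norm_num; linarith only [hx], by norm_num; linarith only [hx']⟩ ⟨by norm_num; linarith only [hT], by norm_num; linarith only [hT']⟩ ⟨by norm_num; linarith only [h], by norm_num; linarith only [v1]⟩
        ⟨by norm_num; linarith only [i0], by norm_num; linarith only [i3]⟩ (by
          intro e he
          simp only [List.mem_cons, List.not_mem_nil, or_false] at he
          rcases he with rfl <;> (simp only [E.val, uE_val, yE_val, lkR]; norm_num; linarith only [h5]))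
      rw [S2E_val] at this
      linarith only [this]
  · intro h5 h6
    have h : 5 / 100 ≤ v.re := by linarith only [hx', h5]
    have i3 := i2 h
    have hs : w.im + v.im ≤ 0 := by
      have := im_le0 (XM := 65) (cr := 29) (x := w.re) (T := T) hT0 (by norm_num; linarith only [hx'])
      rw [hw]; linarith only [i3, this]
    refine ⟨((0 : ℤ) : ℝ), by simpa using mul_YY_00 (mR_nonneg hT0) (by rw [hre]; linarith only [h5]) (by rw [him]; exact hs), ?_⟩
    rw [hw]
    have := pos_box (G := N2E 65 29 G_r31_one_b 0) (al := [sub (q 5 6) uE]) (fuel := 28)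
      (x := w.re) (T := T) (x' := v.re) (t' := v.im)
      (by decide +kernel : chk [N2E 65 29 G_r31_one_b 0, sub (q 5 6) uE] 28
        [V.of 10000 5600 6500, V.of 10000 (-920) (-210), V.of 10000 1833 5000, V.of 10000 (-1230) (-150)] = true)
      ⟨by norm_num; linarith only [hx], by norm_num; linarith only [hx']⟩ ⟨by norm_num; linarith only [hT], by norm_num; linarith only [hT']⟩ ⟨by norm_num; linarith only [hx', h5], by norm_num; linarith only [v1]⟩
      ⟨by norm_num; linarith only [i0], by norm_num; linarith only [i3]⟩ (by
        intro e he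
        simp only [List.mem_cons, List.not_mem_nil, or_false] at he
        rcases he with rfl <;> (simp only [E.val, uE_val, yE_val, lkR]; norm_num; linarith only [h5]))
    rw [N2E_val] at this
    linarith only [this]
  · intro h5
    exfalso; linarith only [hx', v1, h5]

/-- bound -/
def G_r31_two : E := sub (mul (q 7 1) (add (var 1) (q 46 1000))) (q 83 100)

/-- own side, the other neighbour of the digit is an interior `2` -/
theorem r31_two {w v : ℂ} {T : ℝ} (hT : -(940 / 10000) ≤ T) (hT' : T ≤ -(460 / 10000))
    (hw : w.im = tR 65 29 w.re T) (hx : 3850 / 10000 ≤ w.re) (hx' : w.re ≤ 6500 / 10000)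
    (v0 : 0 ≤ v.re) (v1 : v.re ≤ 5 / 10) (i0 : -(123 / 1000) ≤ v.im)
    (i1 : v.re ≤ 5 / 100 → v.im ≤ -(3 / 10) * v.re) (i2 : 5 / 100 ≤ v.re → v.im ≤ -(15 / 1000)) :
    S2 1 (mR 29 T) w v < 7 / 1 * (T + 46 / 1000) - 83 / 100 := by
  have hF : G_r31_two.val [w.re, T, v.re, v.im] = 7 / 1 * (T + 46 / 1000) - 83 / 100 := by
    simp only [G_r31_two, E.val, lkR]
    push_cast
    ring
  rw [← hF]
  have hre : (w + v).re = w.re + v.re := Complex.add_re _ _
  have him : (w + v).im = w.im + v.im := Complex.add_im _ _
  have hT0 : T ≤ 0 := by linarith only [hT']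
  apply S2_zone (by linarith only [hx]) (by linarith only [hx']) (by linarith only [v0]) (by linarith only [hx', v1])
  · intro h5
    rw [hw]
    rcases le_total v.re (5 / 100) with h | h
    · have i3 := i1 h
      have := pos_box (G := S2E 65 29 G_r31_two) (al := [add (var 3) (mul (q 3 10) (var 2))]) (fuel := 28)
        (x := w.re) (T := T) (x' := v.re) (t' := v.im)
        (by decide +kernel : chk [S2E 65 29 G_r31_two, add (var 3) (mul (q 3 10) (var 2))] 28
          [V.of 10000 3850 6500, V.of 10000 (-940) (-460), V.of 10000 0 500, V.of 10000 (-1230) 0] = true)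
        ⟨by norm_num; linarith only [hx], by norm_num; linarith only [hx']⟩ ⟨by norm_num; linarith only [hT], by norm_num; linarith only [hT']⟩ ⟨by norm_num; linarith only [v0], by norm_num; linarith only [h]⟩
        ⟨by norm_num; linarith only [i0], by norm_num; linarith only [v0, i3]⟩ (by
          intro e he
          simp only [List.mem_cons, List.not_mem_nil, or_false] at he
          rcases he with rfl <;> (simp only [E.val, uE_val, yE_val, lkR]; norm_num; linarith only [i3]))
      rw [S2E_val] at this
      linarith only [this]
    · have i3 := i2 h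
      have := pos_box (G := S2E 65 29 G_r31_two) (al := [sub uE (q 5 6)]) (fuel := 28)
        (x := w.re) (T := T) (x' := v.re) (t' := v.im)
        (by decide +kernel : chk [S2E 65 29 G_r31_two, sub uE (q 5 6)] 28
          [V.of 10000 3850 6500, V.of 10000 (-940) (-460), V.of 10000 500 5000, V.of 10000 (-1230) (-150)] = true)
        ⟨by norm_num; linarith only [hx], by norm_num; linarith only [hx']⟩ ⟨by norm_num; linarith only [hT], by norm_num; linarith only [hT']⟩ ⟨by norm_num; linarith only [h], by norm_num; linarith only [v1]⟩
        ⟨by norm_num; linarith only [i0], by norm_num; linarith only [i3]⟩ (by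
          intro e he
          simp only [List.mem_cons, List.not_mem_nil, or_false] at he
          rcases he with rfl <;> (simp only [E.val, uE_val, yE_val, lkR]; norm_num; linarith only [h5]))
      rw [S2E_val] at this
      linarith only [this]
  · intro h5 h6
    have h : 5 / 100 ≤ v.re := by linarith only [hx', h5]
    have i3 := i2 h
    have hs : w.im + v.im ≤ 0 := by
      have := im_le0 (XM := 65) (cr := 29) (x := w.re) (T := T) hT0 (by norm_num; linarith only [hx'])
      rw [hw]; linarith only [i3, this]
    refine ⟨((0 : ℤ) : ℝ), by simpa using mul_YY_00 (mR_nonneg hT0) (by rw [hre]; linarith only [h5]) (by rw [him]; exact hs), ?_⟩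
    rw [hw]
    have := pos_box (G := N2E 65 29 G_r31_two 0) (al := [sub (q 5 6) uE]) (fuel := 28)
      (x := w.re) (T := T) (x' := v.re) (t' := v.im)
      (by decide +kernel : chk [N2E 65 29 G_r31_two 0, sub (q 5 6) uE] 28
        [V.of 10000 3850 6500, V.of 10000 (-940) (-460), V.of 10000 1833 5000, V.of 10000 (-1230) (-150)] = true)
      ⟨by norm_num; linarith only [hx], by norm_num; linarith only [hx']⟩ ⟨by norm_num; linarith only [hT], by norm_num; linarith only [hT']⟩ ⟨by norm_num; linarith only [hx', h5], by norm_num; linarith only [v1]⟩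
      ⟨by norm_num; linarith only [i0], by norm_num; linarith only [i3]⟩ (by
        intro e he
        simp only [List.mem_cons, List.not_mem_nil, or_false] at he
        rcases he with rfl <;> (simp only [E.val, uE_val, yE_val, lkR]; norm_num; linarith only [h5]))
    rw [N2E_val] at this
    linarith only [this]
  · intro h5
    exfalso; linarith only [hx', v1, h5]

/-- bound -/
def G_r31_twoE : E := sub (mul (q 98 10) (add (var 1) (q 87 1000))) (q 99 100)

/-- own side, the other neighbour of the digit is a `2` at an end -/
theorem r31_twoE {w v : ℂ} {T : ℝ} (hT : -(1145 / 10000) ≤ T) (hT' : T ≤ -(870 / 10000))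
    (hw : w.im = tR 65 29 w.re T) (hx : 3700 / 10000 ≤ w.re) (hx' : w.re ≤ 5200 / 10000)
    (v0 : 0 ≤ v.re) (v1 : v.re ≤ 5 / 10) (i0 : -(123 / 1000) ≤ v.im)
    (i1 : v.re ≤ 5 / 100 → v.im ≤ -(3 / 10) * v.re) (i2 : 5 / 100 ≤ v.re → v.im ≤ -(15 / 1000)) :
    S2 1 (mR 29 T) w v < 98 / 10 * (T + 87 / 1000) - 99 / 100 := by
  have hF : G_r31_twoE.val [w.re, T, v.re, v.im] = 98 / 10 * (T + 87 / 1000) - 99 / 100 := by
    simp only [G_r31_twoE, E.val, lkR]
    push_cast
    ring
  rw [← hF]
  have hre : (w + v).re = w.re + v.re := Complex.add_re _ _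
  have him : (w + v).im = w.im + v.im := Complex.add_im _ _
  have hT0 : T ≤ 0 := by linarith only [hT']
  apply S2_zone (by linarith only [hx]) (by linarith only [hx']) (by linarith only [v0]) (by linarith only [hx', v1])
  · intro h5
    rw [hw]
    rcases le_total v.re (5 / 100) with h | h
    · have i3 := i1 h
      have := pos_box (G := S2E 65 29 G_r31_twoE) (al := [add (var 3) (mul (q 3 10) (var 2))]) (fuel := 28)
        (x := w.re) (T := T) (x' := v.re) (t' := v.im)
        (by decide +kernel : chk [S2E 65 29 G_r31_twoE, add (var 3) (mul (q 3 10) (var 2))] 28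
          [V.of 10000 3700 5200, V.of 10000 (-1145) (-870), V.of 10000 0 500, V.of 10000 (-1230) 0] = true)
        ⟨by norm_num; linarith only [hx], by norm_num; linarith only [hx']⟩ ⟨by norm_num; linarith only [hT], by norm_num; linarith only [hT']⟩ ⟨by norm_num; linarith only [v0], by norm_num; linarith only [h]⟩
        ⟨by norm_num; linarith only [i0], by norm_num; linarith only [v0, i3]⟩ (by
          intro e he
          simp only [List.mem_cons, List.not_mem_nil, or_false] at he
          rcases he with rfl <;> (simp only [E.val, uE_val, yE_val, lkR]; norm_num; linarith only [i3]))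
      rw [S2E_val] at this
      linarith only [this]
    · have i3 := i2 h
      have := pos_box (G := S2E 65 29 G_r31_twoE) (al := [sub uE (q 5 6)]) (fuel := 28)
        (x := w.re) (T := T) (x' := v.re) (t' := v.im)
        (by decide +kernel : chk [S2E 65 29 G_r31_twoE, sub uE (q 5 6)] 28
          [V.of 10000 3700 5200, V.of 10000 (-1145) (-870), V.of 10000 500 5000, V.of 10000 (-1230) (-150)] = true)
        ⟨by norm_num; linarith only [hx], by norm_num; linarith only [hx']⟩ ⟨by norm_num; linarith only [hT], by norm_num; linarith only [hT']⟩ ⟨by norm_num; linarith only [h], by norm_num; linarith only [v1]⟩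
        ⟨by norm_num; linarith only [i0], by norm_num; linarith only [i3]⟩ (by
          intro e he
          simp only [List.mem_cons, List.not_mem_nil, or_false] at he
          rcases he with rfl <;> (simp only [E.val, uE_val, yE_val, lkR]; norm_num; linarith only [h5]))
      rw [S2E_val] at this
      linarith only [this]
  · intro h5 h6
    have h : 5 / 100 ≤ v.re := by linarith only [hx', h5]
    have i3 := i2 h
    have hs : w.im + v.im ≤ 0 := by
      have := im_le0 (XM := 65) (cr := 29) (x := w.re) (T := T) hT0 (by norm_num; linarith only [hx'])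
      rw [hw]; linarith only [i3, this]
    refine ⟨((0 : ℤ) : ℝ), by simpa using mul_YY_00 (mR_nonneg hT0) (by rw [hre]; linarith only [h5]) (by rw [him]; exact hs), ?_⟩
    rw [hw]
    have := pos_box (G := N2E 65 29 G_r31_twoE 0) (al := [sub (q 5 6) uE]) (fuel := 28)
      (x := w.re) (T := T) (x' := v.re) (t' := v.im)
      (by decide +kernel : chk [N2E 65 29 G_r31_twoE 0, sub (q 5 6) uE] 28
        [V.of 10000 3700 5200, V.of 10000 (-1145) (-870), V.of 10000 3133 5000, V.of 10000 (-1230) (-150)] = true)
      ⟨by norm_num; linarith only [hx], by norm_num; linarith only [hx']⟩ ⟨by norm_num; linarith only [hT], by norm_num; linarith only [hT']⟩ ⟨by norm_num; linarith only [hx', h5], by norm_num; linarith only [v1]⟩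
      ⟨by norm_num; linarith only [i0], by norm_num; linarith only [i3]⟩ (by
        intro e he
        simp only [List.mem_cons, List.not_mem_nil, or_false] at he
        rcases he with rfl <;> (simp only [E.val, uE_val, yE_val, lkR]; norm_num; linarith only [h5]))
    rw [N2E_val] at this
    linarith only [this]
  · intro h5
    exfalso; linarith only [hx', v1, h5]

/-- bound -/
def G_r31_twoE_b : E := sub (mul (q 11 1) (add (var 1) (q 87 1000))) (q 142 100)

/-- own side, the other neighbour of the digit is a `2` at an end -/
theorem r31_twoE_b {w v : ℂ} {T : ℝ} (hT : -(1145 / 10000) ≤ T) (hT' : T ≤ -(870 / 10000))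
    (hw : w.im = tR 65 29 w.re T) (hx : 5200 / 10000 ≤ w.re) (hx' : w.re ≤ 6500 / 10000)
    (v0 : 0 ≤ v.re) (v1 : v.re ≤ 5 / 10) (i0 : -(123 / 1000) ≤ v.im)
    (i1 : v.re ≤ 5 / 100 → v.im ≤ -(3 / 10) * v.re) (i2 : 5 / 100 ≤ v.re → v.im ≤ -(15 / 1000)) :
    S2 1 (mR 29 T) w v < 11 / 1 * (T + 87 / 1000) - 142 / 100 := by
  have hF : G_r31_twoE_b.val [w.re, T, v.re, v.im] = 11 / 1 * (T + 87 / 1000) - 142 / 100 := by
    simp only [G_r31_twoE_b, E.val, lkR]
    push_cast
    ring
  rw [← hF]
  have hre : (w + v).re = w.re + v.re := Complex.add_re _ _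
  have him : (w + v).im = w.im + v.im := Complex.add_im _ _
  have hT0 : T ≤ 0 := by linarith only [hT']
  apply S2_zone (by linarith only [hx]) (by linarith only [hx']) (by linarith only [v0]) (by linarith only [hx', v1])
  · intro h5
    rw [hw]
    rcases le_total v.re (5 / 100) with h | h
    · have i3 := i1 h
      have := pos_box (G := S2E 65 29 G_r31_twoE_b) (al := [add (var 3) (mul (q 3 10) (var 2))]) (fuel := 28)
        (x := w.re) (T := T) (x' := v.re) (t' := v.im)
        (by decide +kernel : chk [S2E 65 29 G_r31_twoE_b, add (var 3) (mul (q 3 10) (var 2))] 28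
          [V.of 10000 5200 6500, V.of 10000 (-1145) (-870), V.of 10000 0 500, V.of 10000 (-1230) 0] = true)
        ⟨by norm_num; linarith only [hx], by norm_num; linarith only [hx']⟩ ⟨by norm_num; linarith only [hT], by norm_num; linarith only [hT']⟩ ⟨by norm_num; linarith only [v0], by norm_num; linarith only [h]⟩
        ⟨by norm_num; linarith only [i0], by norm_num; linarith only [v0, i3]⟩ (by
          intro e he
          simp only [List.mem_cons, List.not_mem_nil, or_false] at he
          rcases he with rfl <;> (simp only [E.val, uE_val, yE_val, lkR]; norm_num; linarith only [i3]))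
      rw [S2E_val] at this
      linarith only [this]
    · have i3 := i2 h
      have := pos_box (G := S2E 65 29 G_r31_twoE_b) (al := [sub uE (q 5 6)]) (fuel := 28)
        (x := w.re) (T := T) (x' := v.re) (t' := v.im)
        (by decide +kernel : chk [S2E 65 29 G_r31_twoE_b, sub uE (q 5 6)] 28
          [V.of 10000 5200 6500, V.of 10000 (-1145) (-870), V.of 10000 500 5000, V.of 10000 (-1230) (-150)] = true)
        ⟨by norm_num; linarith only [hx], by norm_num; linarith only [hx']⟩ ⟨by norm_num; linarith only [hT], by norm_num; linarith only [hT']⟩ ⟨by norm_num; linarith only [h], by norm_num; linarith only [v1]⟩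
        ⟨by norm_num; linarith only [i0], by norm_num; linarith only [i3]⟩ (by
          intro e he
          simp only [List.mem_cons, List.not_mem_nil, or_false] at he
          rcases he with rfl <;> (simp only [E.val, uE_val, yE_val, lkR]; norm_num; linarith only [h5]))
      rw [S2E_val] at this
      linarith only [this]
  · intro h5 h6
    have h : 5 / 100 ≤ v.re := by linarith only [hx', h5]
    have i3 := i2 h
    have hs : w.im + v.im ≤ 0 := by
      have := im_le0 (XM := 65) (cr := 29) (x := w.re) (T := T) hT0 (by norm_num; linarith only [hx'])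
      rw [hw]; linarith only [i3, this]
    refine ⟨((0 : ℤ) : ℝ), by simpa using mul_YY_00 (mR_nonneg hT0) (by rw [hre]; linarith only [h5]) (by rw [him]; exact hs), ?_⟩
    rw [hw]
    have := pos_box (G := N2E 65 29 G_r31_twoE_b 0) (al := [sub (q 5 6) uE]) (fuel := 28)
      (x := w.re) (T := T) (x' := v.re) (t' := v.im)
      (by decide +kernel : chk [N2E 65 29 G_r31_twoE_b 0, sub (q 5 6) uE] 28
        [V.of 10000 5200 6500, V.of 10000 (-1145) (-870), V.of 10000 1833 5000, V.of 10000 (-1230) (-150)] = true)
      ⟨by norm_num; linarith only [hx], by norm_num; linarith only [hx']⟩ ⟨by norm_num; linarith only [hT], by norm_num; linarith only [hT']⟩ ⟨by norm_num; linarith only [hx', h5], by norm_num; linarith only [v1]⟩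
      ⟨by norm_num; linarith only [i0], by norm_num; linarith only [i3]⟩ (by
        intro e he
        simp only [List.mem_cons, List.not_mem_nil, or_false] at he
        rcases he with rfl <;> (simp only [E.val, uE_val, yE_val, lkR]; norm_num; linarith only [h5]))
    rw [N2E_val] at this
    linarith only [this]
  · intro h5
    exfalso; linarith only [hx', v1, h5]

end MR

end Pool.Agent.Work.MP_b30479_gt.G2
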