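import Pool.Agent.Work.MP_b30479_gt.G2.MRBase

/-!
# Partner hinges on their paths
-/

namespace Pool.Agent.Work.MP_b30479_gt.G2

open VOL NumI

namespace MR

/-- `v` lies on a path of height `k` with right end at most `XM` -/
structure PH (v : ℂ) (k XM cl cr : ℝ) : Prop where
  re0 : 0 ≤ v.re
  reM : v.re ≤ XM
  left : v.re ≤ cl → v.im = k * (v.re / cl)
  mid : ∃ τ : ℝ, 0 ≤ τ ∧ τ ≤ 1 ∧ τ * cr ≤ XM - v.re ∧ v.im = k * τ

theorem PH.of_RH {v : ℂ} {k XM XM' cl cr : ℝ} (h : RH v k XM' cl cr) (hc : 0 < cl) (hc' : 0 < cr)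
    (hb : cl + cr < XM') (hX : XM' ≤ XM) : PH v k XM cl cr := by
  refine ⟨h.re0, h.reM.trans hX, fun h1 => RH_left h hc hc' hb h1, tr 0 XM' cl cr v.re,
    le_max_left _ _, max_le zero_le_one (min_le_left _ _), ?_, h.im⟩
  have h1 : tr 0 XM' cl cr v.re ≤ (XM' - v.re) / cr := by
    have h2 := h.reM
    exact max_le (div_nonneg (by linarith) hc'.le) ((min_le_right _ _).trans (min_le_right _ _))
  rw [le_div_iff₀ hc'] at h1
  linarith

end MR

end Pool.Agent.Work.MP_b30479_gt.G2
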