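import Pool.Agent.Work.MP_b30479_gt.G2.R32A

/-!
# Right ramp of the slot-2 hinge of an interior region with three crossings: rows of the own side

`w` is the hinge, `v` the inner variable.
-/

set_option linter.unusedSimpArgs false
set_option linter.unusedVariables false

namespace Pool.Agent.Work.MP_b30479_gt.G2

open VOL NumI

namespace MR

open E

theorem im_le0 {XM cr : ℕ} {x T : ℝ} (hT : T ≤ 0) (hx : x ≤ XM / 100) : tR XM cr x T ≤ 0 := by
  unfold tR
  exact mul_nonpos_of_nonpos_of_nonneg hT (div_nonneg (by linarith only [hx]) (by positivity))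

theorem im_ge0 {XM cr : ℕ} {x T : ℝ} (hT : 0 ≤ T) (hx : x ≤ XM / 100) : 0 ≤ tR XM cr x T := by
  unfold tR
  exact mul_nonneg hT (div_nonneg (by linarith only [hx]) (by positivity))

/-- bound -/
def F_r32_two : E := add (q (-15) 100) (mul (q 32 10) (var 1))

/-- `3 | 2` -/
theorem r32_two {w v : ℂ} {T : ℝ} (hT : -(570 / 10000) ≤ T) (hT' : T ≤ 50 / 10000)
    (hw : w.im = tR 60 30 w.re T) (hx : 3000 / 10000 ≤ w.re) (hx' : w.re ≤ 5600 / 10000)
    (v0 : 0 / 10000 ≤ v.re) (v1 : v.re ≤ 8000 / 10000) (i0 : -(1160 / 10000) ≤ v.im) (i1 : v.im ≤ 50 / 10000) :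
    S2 1 (mR 30 T) w v < -(15 / 100) + 32 / 10 * T := by
  have hF : F_r32_two.val [w.re, T, v.re, v.im] = -(15 / 100) + 32 / 10 * T := by
    simp only [F_r32_two, E.val, lkR]
    push_cast
    ring
  rw [← hF]
  have hre : (w + v).re = w.re + v.re := Complex.add_re _ _
  have him : (w + v).im = w.im + v.im := Complex.add_im _ _
  apply S2_zone (by linarith only [hx]) (by linarith only [hx']) (by linarith only [v0]) (by linarith only [hx', v1])
  · intro h5
    rw [hw]
    exact z2S (F := F_r32_two) (XM := 60) (cr := 30) (fuel := 24) (h := (by decide +kernel : chk [S2E 60 30 F_r32_two, sub uE (q 5 6)] 24 [V.of 10000 3000 5600, V.of 10000 (-570) 50, V.of 10000 0 5334, V.of 10000 (-1160) 50] = true))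
      ⟨by norm_num; linarith only [hx], by norm_num; linarith only [hx']⟩ ⟨by norm_num; linarith only [hT], by norm_num; linarith only [hT']⟩ ⟨by norm_num; linarith only [v0], by norm_num; linarith only [hx, h5]⟩
      ⟨by norm_num; linarith only [i0], by norm_num; linarith only [i1]⟩ h5
  · intro h5 h6
    rcases le_total T 0 with hT0 | hT0
    · rcases le_total (w.im + v.im) 0 with hs | hs
      · refine ⟨((0 : ℤ) : ℝ), by simpa using mul_YY_00 (mR_nonneg hT0) (by rw [hre]; linarith only [h5]) (by rw [him]; exact hs), ?_⟩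
        rw [hw] at hs ⊢
        exact z2N (s := yE 60 30) (F := F_r32_two) (r := 0) (XM := 60) (cr := 30) (fuel := 24) (h := (by decide +kernel : chk [N2E 60 30 F_r32_two 0, sub (q 5 6) uE, sub uE (q 7 6), yE 60 30] 24 [V.of 10000 3000 5600, V.of 10000 (-570) 0, V.of 10000 2733 8000, V.of 10000 (-1160) 50] = true))
            ⟨by norm_num; linarith only [hx], by norm_num; linarith only [hx']⟩ ⟨by norm_num; linarith only [hT], by norm_num; linarith only [hT0]⟩ ⟨by norm_num; linarith only [hx', h5], by norm_num; linarith only [v1]⟩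
            ⟨by norm_num; linarith only [i0], by norm_num; linarith only [i1]⟩ h5 h6 (yE_le hs)
      · refine ⟨((1 : ℤ) : ℝ), by simpa using mul_YY_01 (mR_nonneg hT0) (by rw [hre]; linarith only [h5]) (by rw [hre]; linarith only [hx', v1]), ?_⟩
        rw [hw] at hs ⊢
        exact z2N (s := neg (yE 60 30)) (F := F_r32_two) (r := 1) (XM := 60) (cr := 30) (fuel := 24) (h := (by decide +kernel : chk [N2E 60 30 F_r32_two 1, sub (q 5 6) uE, sub uE (q 7 6), neg (yE 60 30)] 24 [V.of 10000 3000 5600, V.of 10000 (-570) 0, V.of 10000 2733 8000, V.of 10000 (-1160) 50] = true))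
            ⟨by norm_num; linarith only [hx], by norm_num; linarith only [hx']⟩ ⟨by norm_num; linarith only [hT], by norm_num; linarith only [hT0]⟩ ⟨by norm_num; linarith only [hx', h5], by norm_num; linarith only [v1]⟩
            ⟨by norm_num; linarith only [i0], by norm_num; linarith only [i1]⟩ h5 h6 (neg_yE_le hs)
    · refine ⟨((-1 : ℤ) : ℝ), by simpa using mul_YY_11 (mR_nonpos hT0) (by rw [hre]; linarith only [h5]) (by rw [hre]; linarith only [hx', v1]), ?_⟩
      rw [hw]
      exact z2N (s := q 0 1) (F := F_r32_two) (r := (-1)) (XM := 60) (cr := 30) (fuel := 24) (h := (by decide +kernel : chk [N2E 60 30 F_r32_two (-1), sub (q 5 6) uE, sub uE (q 7 6), q 0 1] 24 [V.of 10000 3000 5600, V.of 10000 0 50, V.of 10000 2733 8000, V.of 10000 (-1160) 50] = true))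
            ⟨by norm_num; linarith only [hx], by norm_num; linarith only [hx']⟩ ⟨by norm_num; linarith only [hT0], by norm_num; linarith only [hT']⟩ ⟨by norm_num; linarith only [hx', h5], by norm_num; linarith only [v1]⟩
            ⟨by norm_num; linarith only [i0], by norm_num; linarith only [i1]⟩ h5 h6 q0_val
  · intro h5
    rcases le_total T 0 with hT0 | hT0
    · rcases le_total (w.im + v.im) 0 with hs | hs
      · refine ⟨((0 : ℤ) : ℝ), by simpa using mul_YY_00 (mR_nonneg hT0) (by rw [hre]; linarith only [h5]) (by rw [him]; exact hs), ?_⟩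
        rw [hw] at hs ⊢
        exact z2B (s := yE 60 30) (F := F_r32_two) (r := 0) (XM := 60) (cr := 30) (fuel := 24) (h := (by decide +kernel : chk [B2E 60 30 F_r32_two 0, sub (q 7 6) uE, yE 60 30] 24 [V.of 10000 3000 5600, V.of 10000 (-570) 0, V.of 10000 6066 8000, V.of 10000 (-1160) 50] = true))
            ⟨by norm_num; linarith only [hx], by norm_num; linarith only [hx']⟩ ⟨by norm_num; linarith only [hT], by norm_num; linarith only [hT0]⟩ ⟨by norm_num; linarith only [hx', h5], by norm_num; linarith only [v1]⟩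
            ⟨by norm_num; linarith only [i0], by norm_num; linarith only [i1]⟩ h5 (yE_le hs)
      · refine ⟨((1 : ℤ) : ℝ), by simpa using mul_YY_01 (mR_nonneg hT0) (by rw [hre]; linarith only [h5]) (by rw [hre]; linarith only [hx', v1]), ?_⟩
        rw [hw] at hs ⊢
        exact z2B (s := neg (yE 60 30)) (F := F_r32_two) (r := 1) (XM := 60) (cr := 30) (fuel := 24) (h := (by decide +kernel : chk [B2E 60 30 F_r32_two 1, sub (q 7 6) uE, neg (yE 60 30)] 24 [V.of 10000 3000 5600, V.of 10000 (-570) 0, V.of 10000 6066 8000, V.of 10000 (-1160) 50] = true))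
            ⟨by norm_num; linarith only [hx], by norm_num; linarith only [hx']⟩ ⟨by norm_num; linarith only [hT], by norm_num; linarith only [hT0]⟩ ⟨by norm_num; linarith only [hx', h5], by norm_num; linarith only [v1]⟩
            ⟨by norm_num; linarith only [i0], by norm_num; linarith only [i1]⟩ h5 (neg_yE_le hs)
    · refine ⟨((-1 : ℤ) : ℝ), by simpa using mul_YY_11 (mR_nonpos hT0) (by rw [hre]; linarith only [h5]) (by rw [hre]; linarith only [hx', v1]), ?_⟩
      rw [hw]
      exact z2B (s := q 0 1) (F := F_r32_two) (r := (-1)) (XM := 60) (cr := 30) (fuel := 24) (h := (by decide +kernel : chk [B2E 60 30 F_r32_two (-1), sub (q 7 6) uE, q 0 1] 24 [V.of 10000 3000 5600, V.of 10000 0 50, V.of 10000 6066 8000, V.of 10000 (-1160) 50] = true))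
            ⟨by norm_num; linarith only [hx], by norm_num; linarith only [hx']⟩ ⟨by norm_num; linarith only [hT0], by norm_num; linarith only [hT']⟩ ⟨by norm_num; linarith only [hx', h5], by norm_num; linarith only [v1]⟩
            ⟨by norm_num; linarith only [i0], by norm_num; linarith only [i1]⟩ h5 q0_val

/-- bound -/
def F_r32_two_b : E := add (q (-17) 100) (mul (q 34 10) (var 1))

/-- `3 | 2`, near the right end -/
theorem r32_two_b {w v : ℂ} {T : ℝ} (hT : -(570 / 10000) ≤ T) (hT' : T ≤ 50 / 10000)
    (hw : w.im = tR 60 30 w.re T) (hx : 5600 / 10000 ≤ w.re) (hx' : w.re ≤ 6000 / 10000)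
    (v0 : 0 / 10000 ≤ v.re) (v1 : v.re ≤ 7000 / 10000) (i0 : -(1160 / 10000) ≤ v.im) (i1 : v.im ≤ 50 / 10000) :
    S2 1 (mR 30 T) w v < -(17 / 100) + 34 / 10 * T := by
  have hF : F_r32_two_b.val [w.re, T, v.re, v.im] = -(17 / 100) + 34 / 10 * T := by
    simp only [F_r32_two_b, E.val, lkR]
    push_cast
    ring
  rw [← hF]
  have hre : (w + v).re = w.re + v.re := Complex.add_re _ _
  have him : (w + v).im = w.im + v.im := Complex.add_im _ _
  apply S2_zone (by linarith only [hx]) (by linarith only [hx']) (by linarith only [v0]) (by linarith only [hx', v1])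
  · intro h5
    rw [hw]
    exact z2S (F := F_r32_two_b) (XM := 60) (cr := 30) (fuel := 24) (h := (by decide +kernel : chk [S2E 60 30 F_r32_two_b, sub uE (q 5 6)] 24 [V.of 10000 5600 6000, V.of 10000 (-570) 50, V.of 10000 0 2734, V.of 10000 (-1160) 50] = true))
      ⟨by norm_num; linarith only [hx], by norm_num; linarith only [hx']⟩ ⟨by norm_num; linarith only [hT], by norm_num; linarith only [hT']⟩ ⟨by norm_num; linarith only [v0], by norm_num; linarith only [hx, h5]⟩
      ⟨by norm_num; linarith only [i0], by norm_num; linarith only [i1]⟩ h5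
  · intro h5 h6
    rcases le_total T 0 with hT0 | hT0
    · rcases le_total (w.im + v.im) 0 with hs | hs
      · refine ⟨((0 : ℤ) : ℝ), by simpa using mul_YY_00 (mR_nonneg hT0) (by rw [hre]; linarith only [h5]) (by rw [him]; exact hs), ?_⟩
        rw [hw] at hs ⊢
        exact z2N (s := yE 60 30) (F := F_r32_two_b) (r := 0) (XM := 60) (cr := 30) (fuel := 24) (h := (by decide +kernel : chk [N2E 60 30 F_r32_two_b 0, sub (q 5 6) uE, sub uE (q 7 6), yE 60 30] 24 [V.of 10000 5600 6000, V.of 10000 (-570) 0, V.of 10000 2333 6067, V.of 10000 (-1160) 50] = true))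
            ⟨by norm_num; linarith only [hx], by norm_num; linarith only [hx']⟩ ⟨by norm_num; linarith only [hT], by norm_num; linarith only [hT0]⟩ ⟨by norm_num; linarith only [hx', h5], by norm_num; linarith only [hx, h6]⟩
            ⟨by norm_num; linarith only [i0], by norm_num; linarith only [i1]⟩ h5 h6 (yE_le hs)
      · refine ⟨((1 : ℤ) : ℝ), by simpa using mul_YY_01 (mR_nonneg hT0) (by rw [hre]; linarith only [h5]) (by rw [hre]; linarith only [hx', v1]), ?_⟩
        rw [hw] at hs ⊢
        exact z2N (s := neg (yE 60 30)) (F := F_r32_two_b) (r := 1) (XM := 60) (cr := 30) (fuel := 24) (h := (by decide +kernel : chk [N2E 60 30 F_r32_two_b 1, sub (q 5 6) uE, sub uE (q 7 6), neg (yE 60 30)] 24 [V.of 10000 5600 6000, V.of 10000 (-570) 0, V.of 10000 2333 6067, V.of 10000 (-1160) 50] = true))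
            ⟨by norm_num; linarith only [hx], by norm_num; linarith only [hx']⟩ ⟨by norm_num; linarith only [hT], by norm_num; linarith only [hT0]⟩ ⟨by norm_num; linarith only [hx', h5], by norm_num; linarith only [hx, h6]⟩
            ⟨by norm_num; linarith only [i0], by norm_num; linarith only [i1]⟩ h5 h6 (neg_yE_le hs)
    · refine ⟨((-1 : ℤ) : ℝ), by simpa using mul_YY_11 (mR_nonpos hT0) (by rw [hre]; linarith only [h5]) (by rw [hre]; linarith only [hx', v1]), ?_⟩
      rw [hw]
      exact z2N (s := q 0 1) (F := F_r32_two_b) (r := (-1)) (XM := 60) (cr := 30) (fuel := 24) (h := (by decide +kernel : chk [N2E 60 30 F_r32_two_b (-1), sub (q 5 6) uE, sub uE (q 7 6), q 0 1] 24 [V.of 10000 5600 6000, V.of 10000 0 50, V.of 10000 2333 6067, V.of 10000 (-1160) 50] = true))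
            ⟨by norm_num; linarith only [hx], by norm_num; linarith only [hx']⟩ ⟨by norm_num; linarith only [hT0], by norm_num; linarith only [hT']⟩ ⟨by norm_num; linarith only [hx', h5], by norm_num; linarith only [hx, h6]⟩
            ⟨by norm_num; linarith only [i0], by norm_num; linarith only [i1]⟩ h5 h6 q0_val
  · intro h5
    rcases le_total T 0 with hT0 | hT0
    · rcases le_total (w.im + v.im) 0 with hs | hs
      · refine ⟨((0 : ℤ) : ℝ), by simpa using mul_YY_00 (mR_nonneg hT0) (by rw [hre]; linarith only [h5]) (by rw [him]; exact hs), ?_⟩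
        rw [hw] at hs ⊢
        exact z2B (s := yE 60 30) (F := F_r32_two_b) (r := 0) (XM := 60) (cr := 30) (fuel := 24) (h := (by decide +kernel : chk [B2E 60 30 F_r32_two_b 0, sub (q 7 6) uE, yE 60 30] 24 [V.of 10000 5600 6000, V.of 10000 (-570) 0, V.of 10000 5666 7000, V.of 10000 (-1160) 50] = true))
            ⟨by norm_num; linarith only [hx], by norm_num; linarith only [hx']⟩ ⟨by norm_num; linarith only [hT], by norm_num; linarith only [hT0]⟩ ⟨by norm_num; linarith only [hx', h5], by norm_num; linarith only [v1]⟩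
            ⟨by norm_num; linarith only [i0], by norm_num; linarith only [i1]⟩ h5 (yE_le hs)
      · refine ⟨((1 : ℤ) : ℝ), by simpa using mul_YY_01 (mR_nonneg hT0) (by rw [hre]; linarith only [h5]) (by rw [hre]; linarith only [hx', v1]), ?_⟩
        rw [hw] at hs ⊢
        exact z2B (s := neg (yE 60 30)) (F := F_r32_two_b) (r := 1) (XM := 60) (cr := 30) (fuel := 24) (h := (by decide +kernel : chk [B2E 60 30 F_r32_two_b 1, sub (q 7 6) uE, neg (yE 60 30)] 24 [V.of 10000 5600 6000, V.of 10000 (-570) 0, V.of 10000 5666 7000, V.of 10000 (-1160) 50] = true))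
            ⟨by norm_num; linarith only [hx], by norm_num; linarith only [hx']⟩ ⟨by norm_num; linarith only [hT], by norm_num; linarith only [hT0]⟩ ⟨by norm_num; linarith only [hx', h5], by norm_num; linarith only [v1]⟩
            ⟨by norm_num; linarith only [i0], by norm_num; linarith only [i1]⟩ h5 (neg_yE_le hs)
    · refine ⟨((-1 : ℤ) : ℝ), by simpa using mul_YY_11 (mR_nonpos hT0) (by rw [hre]; linarith only [h5]) (by rw [hre]; linarith only [hx', v1]), ?_⟩
      rw [hw]
      exact z2B (s := q 0 1) (F := F_r32_two_b) (r := (-1)) (XM := 60) (cr := 30) (fuel := 24) (h := (by decide +kernel : chk [B2E 60 30 F_r32_two_b (-1), sub (q 7 6) uE, q 0 1] 24 [V.of 10000 5600 6000, V.of 10000 0 50, V.of 10000 5666 7000, V.of 10000 (-1160) 50] = true))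
            ⟨by norm_num; linarith only [hx], by norm_num; linarith only [hx']⟩ ⟨by norm_num; linarith only [hT0], by norm_num; linarith only [hT']⟩ ⟨by norm_num; linarith only [hx', h5], by norm_num; linarith only [v1]⟩
            ⟨by norm_num; linarith only [i0], by norm_num; linarith only [i1]⟩ h5 q0_val

/-- bound -/
def F_r32_twoE : E := q (-50) 100

/-- `3 | 2e` -/
theorem r32_twoE {w v : ℂ} {T : ℝ} (hT : -(980 / 10000) ≤ T) (hT' : T ≤ -(760 / 10000))
    (hw : w.im = tR 60 30 w.re T) (hx : 3000 / 10000 ≤ w.re) (hx' : w.re ≤ 6000 / 10000)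
    (v0 : 0 / 10000 ≤ v.re) (v1 : v.re ≤ 8000 / 10000) (i0 : -(950 / 10000) ≤ v.im) (i1 : v.im ≤ 0 / 10000) :
    S2 1 (mR 30 T) w v < -(50 / 100) := by
  have hF : F_r32_twoE.val [w.re, T, v.re, v.im] = -(50 / 100) := by
    simp only [F_r32_twoE, E.val, lkR]
    push_cast
    ring
  rw [← hF]
  have hre : (w + v).re = w.re + v.re := Complex.add_re _ _
  have him : (w + v).im = w.im + v.im := Complex.add_im _ _
  apply S2_zone (by linarith only [hx]) (by linarith only [hx']) (by linarith only [v0]) (by linarith only [hx', v1])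
  · intro h5
    rw [hw]
    exact z2S (F := F_r32_twoE) (XM := 60) (cr := 30) (fuel := 24) (h := (by decide +kernel : chk [S2E 60 30 F_r32_twoE, sub uE (q 5 6)] 24 [V.of 10000 3000 6000, V.of 10000 (-980) (-760), V.of 10000 0 5334, V.of 10000 (-950) 0] = true))
      ⟨by norm_num; linarith only [hx], by norm_num; linarith only [hx']⟩ ⟨by norm_num; linarith only [hT], by norm_num; linarith only [hT']⟩ ⟨by norm_num; linarith only [v0], by norm_num; linarith only [hx, h5]⟩
      ⟨by norm_num; linarith only [i0], by norm_num; linarith only [i1]⟩ h5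
  · intro h5 h6
    have hT0 : T ≤ 0 := by linarith only [hT']
    have hs : w.im + v.im ≤ 0 := by
      have := im_le0 (XM := 60) (cr := 30) (x := w.re) (T := T) hT0 (by norm_num; linarith only [hx'])
      rw [hw]; linarith only [i1, this]
    refine ⟨((0 : ℤ) : ℝ), by simpa using mul_YY_00 (mR_nonneg hT0) (by rw [hre]; linarith only [h5]) (by rw [him]; exact hs), ?_⟩
    rw [hw] at hs ⊢
    exact z2N (s := q 0 1) (F := F_r32_twoE) (r := 0) (XM := 60) (cr := 30) (fuel := 24) (h := (by decide +kernel : chk [N2E 60 30 F_r32_twoE 0, sub (q 5 6) uE, sub uE (q 7 6), q 0 1] 24 [V.of 10000 3000 6000, V.of 10000 (-980) (-760), V.of 10000 2333 8000, V.of 10000 (-950) 0] = true))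
            ⟨by norm_num; linarith only [hx], by norm_num; linarith only [hx']⟩ ⟨by norm_num; linarith only [hT], by norm_num; linarith only [hT']⟩ ⟨by norm_num; linarith only [hx', h5], by norm_num; linarith only [v1]⟩
            ⟨by norm_num; linarith only [i0], by norm_num; linarith only [i1]⟩ h5 h6 q0_val
  · intro h5
    have hT0 : T ≤ 0 := by linarith only [hT']
    have hs : w.im + v.im ≤ 0 := by
      have := im_le0 (XM := 60) (cr := 30) (x := w.re) (T := T) hT0 (by norm_num; linarith only [hx'])
      rw [hw]; linarith only [i1, this]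
    refine ⟨((0 : ℤ) : ℝ), by simpa using mul_YY_00 (mR_nonneg hT0) (by rw [hre]; linarith only [h5]) (by rw [him]; exact hs), ?_⟩
    rw [hw] at hs ⊢
    exact z2B (s := q 0 1) (F := F_r32_twoE) (r := 0) (XM := 60) (cr := 30) (fuel := 24) (h := (by decide +kernel : chk [B2E 60 30 F_r32_twoE 0, sub (q 7 6) uE, q 0 1] 24 [V.of 10000 3000 6000, V.of 10000 (-980) (-760), V.of 10000 5666 8000, V.of 10000 (-950) 0] = true))
            ⟨by norm_num; linarith only [hx], by norm_num; linarith only [hx']⟩ ⟨by norm_num; linarith only [hT], by norm_num; linarith only [hT']⟩ ⟨by norm_num; linarith only [hx', h5], by norm_num; linarith only [v1]⟩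
            ⟨by norm_num; linarith only [i0], by norm_num; linarith only [i1]⟩ h5 q0_val

/-- bound -/
def F_r32_three : E := sub (add (q (-243) 1000) (mul (q 32 10) (var 1))) (mul (q 3 1) (sub (var 0) (q 30 100)))

/-- `3 | 3` -/
theorem r32_three {w v : ℂ} {T : ℝ} (hT : -(220 / 10000) ≤ T) (hT' : T ≤ 220 / 10000)
    (hw : w.im = tR 60 30 w.re T) (hx : 3000 / 10000 ≤ w.re) (hx' : w.re ≤ 3600 / 10000)
    (v0 : 0 / 10000 ≤ v.re) (v1 : v.re ≤ 8000 / 10000) (i0 : -(1160 / 10000) ≤ v.im) (i1 : v.im ≤ 50 / 10000) :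
    S2 1 (mR 30 T) w v < -(243 / 1000) + 32 / 10 * T - 3 * (w.re - 30 / 100) := by
  have hF : F_r32_three.val [w.re, T, v.re, v.im] = -(243 / 1000) + 32 / 10 * T - 3 * (w.re - 30 / 100) := by
    simp only [F_r32_three, E.val, lkR]
    push_cast
    ring
  rw [← hF]
  have hre : (w + v).re = w.re + v.re := Complex.add_re _ _
  have him : (w + v).im = w.im + v.im := Complex.add_im _ _
  apply S2_zone (by linarith only [hx]) (by linarith only [hx']) (by linarith only [v0]) (by linarith only [hx', v1])
  · intro h5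
    rw [hw]
    exact z2S (F := F_r32_three) (XM := 60) (cr := 30) (fuel := 24) (h := (by decide +kernel : chk [S2E 60 30 F_r32_three, sub uE (q 5 6)] 24 [V.of 10000 3000 3600, V.of 10000 (-220) 220, V.of 10000 0 5334, V.of 10000 (-1160) 50] = true))
      ⟨by norm_num; linarith only [hx], by norm_num; linarith only [hx']⟩ ⟨by norm_num; linarith only [hT], by norm_num; linarith only [hT']⟩ ⟨by norm_num; linarith only [v0], by norm_num; linarith only [hx, h5]⟩
      ⟨by norm_num; linarith only [i0], by norm_num; linarith only [i1]⟩ h5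
  · intro h5 h6
    rcases le_total T 0 with hT0 | hT0
    · rcases le_total (w.im + v.im) 0 with hs | hs
      · refine ⟨((0 : ℤ) : ℝ), by simpa using mul_YY_00 (mR_nonneg hT0) (by rw [hre]; linarith only [h5]) (by rw [him]; exact hs), ?_⟩
        rw [hw] at hs ⊢
        exact z2N (s := yE 60 30) (F := F_r32_three) (r := 0) (XM := 60) (cr := 30) (fuel := 24) (h := (by decide +kernel : chk [N2E 60 30 F_r32_three 0, sub (q 5 6) uE, sub uE (q 7 6), yE 60 30] 24 [V.of 10000 3000 3600, V.of 10000 (-220) 0, V.of 10000 4733 8000, V.of 10000 (-1160) 50] = true))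
            ⟨by norm_num; linarith only [hx], by norm_num; linarith only [hx']⟩ ⟨by norm_num; linarith only [hT], by norm_num; linarith only [hT0]⟩ ⟨by norm_num; linarith only [hx', h5], by norm_num; linarith only [v1]⟩
            ⟨by norm_num; linarith only [i0], by norm_num; linarith only [i1]⟩ h5 h6 (yE_le hs)
      · refine ⟨((1 : ℤ) : ℝ), by simpa using mul_YY_01 (mR_nonneg hT0) (by rw [hre]; linarith only [h5]) (by rw [hre]; linarith only [hx', v1]), ?_⟩
        rw [hw] at hs ⊢
        exact z2N (s := neg (yE 60 30)) (F := F_r32_three) (r := 1) (XM := 60) (cr := 30) (fuel := 24) (h := (by decide +kernel : chk [N2E 60 30 F_r32_three 1, sub (q 5 6) uE, sub uE (q 7 6), neg (yE 60 30)] 24 [V.of 10000 3000 3600, V.of 10000 (-220) 0, V.of 10000 4733 8000, V.of 10000 (-1160) 50] = true))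
            ⟨by norm_num; linarith only [hx], by norm_num; linarith only [hx']⟩ ⟨by norm_num; linarith only [hT], by norm_num; linarith only [hT0]⟩ ⟨by norm_num; linarith only [hx', h5], by norm_num; linarith only [v1]⟩
            ⟨by norm_num; linarith only [i0], by norm_num; linarith only [i1]⟩ h5 h6 (neg_yE_le hs)
    · refine ⟨((-1 : ℤ) : ℝ), by simpa using mul_YY_11 (mR_nonpos hT0) (by rw [hre]; linarith only [h5]) (by rw [hre]; linarith only [hx', v1]), ?_⟩
      rw [hw]
      exact z2N (s := q 0 1) (F := F_r32_three) (r := (-1)) (XM := 60) (cr := 30) (fuel := 24) (h := (by decide +kernel : chk [N2E 60 30 F_r32_three (-1), sub (q 5 6) uE, sub uE (q 7 6), q 0 1] 24 [V.of 10000 3000 3600, V.of 10000 0 220, V.of 10000 4733 8000, V.of 10000 (-1160) 50] = true))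
            ⟨by norm_num; linarith only [hx], by norm_num; linarith only [hx']⟩ ⟨by norm_num; linarith only [hT0], by norm_num; linarith only [hT']⟩ ⟨by norm_num; linarith only [hx', h5], by norm_num; linarith only [v1]⟩
            ⟨by norm_num; linarith only [i0], by norm_num; linarith only [i1]⟩ h5 h6 q0_val
  · intro h5
    exfalso; linarith only [hx', v1, h5]

/-- bound -/
def F_r32_three_b : E := q (-32) 100

/-- `3 | 3` -/
theorem r32_three_b {w v : ℂ} {T : ℝ} (hT : -(220 / 10000) ≤ T) (hT' : T ≤ 220 / 10000)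
    (hw : w.im = tR 60 30 w.re T) (hx : 3600 / 10000 ≤ w.re) (hx' : w.re ≤ 6000 / 10000)
    (v0 : 0 / 10000 ≤ v.re) (v1 : v.re ≤ 8000 / 10000) (i0 : -(1160 / 10000) ≤ v.im) (i1 : v.im ≤ 50 / 10000) :
    S2 1 (mR 30 T) w v < -(32 / 100) := by
  have hF : F_r32_three_b.val [w.re, T, v.re, v.im] = -(32 / 100) := by
    simp only [F_r32_three_b, E.val, lkR]
    push_cast
    ring
  rw [← hF]
  have hre : (w + v).re = w.re + v.re := Complex.add_re _ _
  have him : (w + v).im = w.im + v.im := Complex.add_im _ _
  apply S2_zone (by linarith only [hx]) (by linarith only [hx']) (by linarith only [v0]) (by linarith only [hx', v1])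
  · intro h5
    rw [hw]
    exact z2S (F := F_r32_three_b) (XM := 60) (cr := 30) (fuel := 24) (h := (by decide +kernel : chk [S2E 60 30 F_r32_three_b, sub uE (q 5 6)] 24 [V.of 10000 3600 6000, V.of 10000 (-220) 220, V.of 10000 0 4734, V.of 10000 (-1160) 50] = true))
      ⟨by norm_num; linarith only [hx], by norm_num; linarith only [hx']⟩ ⟨by norm_num; linarith only [hT], by norm_num; linarith only [hT']⟩ ⟨by norm_num; linarith only [v0], by norm_num; linarith only [hx, h5]⟩
      ⟨by norm_num; linarith only [i0], by norm_num; linarith only [i1]⟩ h5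
  · intro h5 h6
    rcases le_total T 0 with hT0 | hT0
    · rcases le_total (w.im + v.im) 0 with hs | hs
      · refine ⟨((0 : ℤ) : ℝ), by simpa using mul_YY_00 (mR_nonneg hT0) (by rw [hre]; linarith only [h5]) (by rw [him]; exact hs), ?_⟩
        rw [hw] at hs ⊢
        exact z2N (s := yE 60 30) (F := F_r32_three_b) (r := 0) (XM := 60) (cr := 30) (fuel := 24) (h := (by decide +kernel : chk [N2E 60 30 F_r32_three_b 0, sub (q 5 6) uE, sub uE (q 7 6), yE 60 30] 24 [V.of 10000 3600 6000, V.of 10000 (-220) 0, V.of 10000 2333 8000, V.of 10000 (-1160) 50] = true))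
            ⟨by norm_num; linarith only [hx], by norm_num; linarith only [hx']⟩ ⟨by norm_num; linarith only [hT], by norm_num; linarith only [hT0]⟩ ⟨by norm_num; linarith only [hx', h5], by norm_num; linarith only [v1]⟩
            ⟨by norm_num; linarith only [i0], by norm_num; linarith only [i1]⟩ h5 h6 (yE_le hs)
      · refine ⟨((1 : ℤ) : ℝ), by simpa using mul_YY_01 (mR_nonneg hT0) (by rw [hre]; linarith only [h5]) (by rw [hre]; linarith only [hx', v1]), ?_⟩
        rw [hw] at hs ⊢
        exact z2N (s := neg (yE 60 30)) (F := F_r32_three_b) (r := 1) (XM := 60) (cr := 30) (fuel := 24) (h := (by decide +kernel : chk [N2E 60 30 F_r32_three_b 1, sub (q 5 6) uE, sub uE (q 7 6), neg (yE 60 30)] 24 [V.of 10000 3600 6000, V.of 10000 (-220) 0, V.of 10000 2333 8000, V.of 10000 (-1160) 50] = true))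
            ⟨by norm_num; linarith only [hx], by norm_num; linarith only [hx']⟩ ⟨by norm_num; linarith only [hT], by norm_num; linarith only [hT0]⟩ ⟨by norm_num; linarith only [hx', h5], by norm_num; linarith only [v1]⟩
            ⟨by norm_num; linarith only [i0], by norm_num; linarith only [i1]⟩ h5 h6 (neg_yE_le hs)
    · rcases le_total (w.im + v.im) 0 with hs | hs
      · refine ⟨((-1 : ℤ) : ℝ), by simpa using mul_YY_11 (mR_nonpos hT0) (by rw [hre]; linarith only [h5]) (by rw [hre]; linarith only [hx', v1]), ?_⟩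
        rw [hw] at hs ⊢
        exact z2N (s := yE 60 30) (F := F_r32_three_b) (r := (-1)) (XM := 60) (cr := 30) (fuel := 24) (h := (by decide +kernel : chk [N2E 60 30 F_r32_three_b (-1), sub (q 5 6) uE, sub uE (q 7 6), yE 60 30] 24 [V.of 10000 3600 6000, V.of 10000 0 220, V.of 10000 2333 8000, V.of 10000 (-1160) 50] = true))
            ⟨by norm_num; linarith only [hx], by norm_num; linarith only [hx']⟩ ⟨by norm_num; linarith only [hT0], by norm_num; linarith only [hT']⟩ ⟨by norm_num; linarith only [hx', h5], by norm_num; linarith only [v1]⟩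
            ⟨by norm_num; linarith only [i0], by norm_num; linarith only [i1]⟩ h5 h6 (yE_le hs)
      · refine ⟨((0 : ℤ) : ℝ), by simpa using mul_YY_10 (mR_nonpos hT0) (by rw [hre]; linarith only [h5]) (by rw [him]; exact hs), ?_⟩
        rw [hw] at hs ⊢
        exact z2N (s := neg (yE 60 30)) (F := F_r32_three_b) (r := 0) (XM := 60) (cr := 30) (fuel := 24) (h := (by decide +kernel : chk [N2E 60 30 F_r32_three_b 0, sub (q 5 6) uE, sub uE (q 7 6), neg (yE 60 30)] 24 [V.of 10000 3600 6000, V.of 10000 0 220, V.of 10000 2333 8000, V.of 10000 (-1160) 50] = true))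
            ⟨by norm_num; linarith only [hx], by norm_num; linarith only [hx']⟩ ⟨by norm_num; linarith only [hT0], by norm_num; linarith only [hT']⟩ ⟨by norm_num; linarith only [hx', h5], by norm_num; linarith only [v1]⟩
            ⟨by norm_num; linarith only [i0], by norm_num; linarith only [i1]⟩ h5 h6 (neg_yE_le hs)
  · intro h5
    rcases le_total T 0 with hT0 | hT0
    · rcases le_total (w.im + v.im) 0 with hs | hs
      · refine ⟨((0 : ℤ) : ℝ), by simpa using mul_YY_00 (mR_nonneg hT0) (by rw [hre]; linarith only [h5]) (by rw [him]; exact hs), ?_⟩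
        rw [hw] at hs ⊢
        exact z2B (s := yE 60 30) (F := F_r32_three_b) (r := 0) (XM := 60) (cr := 30) (fuel := 24) (h := (by decide +kernel : chk [B2E 60 30 F_r32_three_b 0, sub (q 7 6) uE, yE 60 30] 24 [V.of 10000 3600 6000, V.of 10000 (-220) 0, V.of 10000 5666 8000, V.of 10000 (-1160) 50] = true))
            ⟨by norm_num; linarith only [hx], by norm_num; linarith only [hx']⟩ ⟨by norm_num; linarith only [hT], by norm_num; linarith only [hT0]⟩ ⟨by norm_num; linarith only [hx', h5], by norm_num; linarith only [v1]⟩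
            ⟨by norm_num; linarith only [i0], by norm_num; linarith only [i1]⟩ h5 (yE_le hs)
      · refine ⟨((1 : ℤ) : ℝ), by simpa using mul_YY_01 (mR_nonneg hT0) (by rw [hre]; linarith only [h5]) (by rw [hre]; linarith only [hx', v1]), ?_⟩
        rw [hw] at hs ⊢
        exact z2B (s := neg (yE 60 30)) (F := F_r32_three_b) (r := 1) (XM := 60) (cr := 30) (fuel := 24) (h := (by decide +kernel : chk [B2E 60 30 F_r32_three_b 1, sub (q 7 6) uE, neg (yE 60 30)] 24 [V.of 10000 3600 6000, V.of 10000 (-220) 0, V.of 10000 5666 8000, V.of 10000 (-1160) 50] = true))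
            ⟨by norm_num; linarith only [hx], by norm_num; linarith only [hx']⟩ ⟨by norm_num; linarith only [hT], by norm_num; linarith only [hT0]⟩ ⟨by norm_num; linarith only [hx', h5], by norm_num; linarith only [v1]⟩
            ⟨by norm_num; linarith only [i0], by norm_num; linarith only [i1]⟩ h5 (neg_yE_le hs)
    · rcases le_total (w.im + v.im) 0 with hs | hs
      · refine ⟨((-1 : ℤ) : ℝ), by simpa using mul_YY_11 (mR_nonpos hT0) (by rw [hre]; linarith only [h5]) (by rw [hre]; linarith only [hx', v1]), ?_⟩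
        rw [hw] at hs ⊢
        exact z2B (s := yE 60 30) (F := F_r32_three_b) (r := (-1)) (XM := 60) (cr := 30) (fuel := 24) (h := (by decide +kernel : chk [B2E 60 30 F_r32_three_b (-1), sub (q 7 6) uE, yE 60 30] 24 [V.of 10000 3600 6000, V.of 10000 0 220, V.of 10000 5666 8000, V.of 10000 (-1160) 50] = true))
            ⟨by norm_num; linarith only [hx], by norm_num; linarith only [hx']⟩ ⟨by norm_num; linarith only [hT0], by norm_num; linarith only [hT']⟩ ⟨by norm_num; linarith only [hx', h5], by norm_num; linarith only [v1]⟩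
            ⟨by norm_num; linarith only [i0], by norm_num; linarith only [i1]⟩ h5 (yE_le hs)
      · refine ⟨((0 : ℤ) : ℝ), by simpa using mul_YY_10 (mR_nonpos hT0) (by rw [hre]; linarith only [h5]) (by rw [him]; exact hs), ?_⟩
        rw [hw] at hs ⊢
        exact z2B (s := neg (yE 60 30)) (F := F_r32_three_b) (r := 0) (XM := 60) (cr := 30) (fuel := 24) (h := (by decide +kernel : chk [B2E 60 30 F_r32_three_b 0, sub (q 7 6) uE, neg (yE 60 30)] 24 [V.of 10000 3600 6000, V.of 10000 0 220, V.of 10000 5666 8000, V.of 10000 (-1160) 50] = true))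
            ⟨by norm_num; linarith only [hx], by norm_num; linarith only [hx']⟩ ⟨by norm_num; linarith only [hT0], by norm_num; linarith only [hT']⟩ ⟨by norm_num; linarith only [hx', h5], by norm_num; linarith only [v1]⟩
            ⟨by norm_num; linarith only [i0], by norm_num; linarith only [i1]⟩ h5 (neg_yE_le hs)

/-- bound -/
def F_r32_threeE : E := q (-25) 100

/-- `3 | 3e` -/
theorem r32_threeE {w v : ℂ} {T : ℝ} (hT : -(280 / 10000) ≤ T) (hT' : T ≤ -(50 / 10000))
    (hw : w.im = tR 60 30 w.re T) (hx : 3000 / 10000 ≤ w.re) (hx' : w.re ≤ 6000 / 10000)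
    (v0 : 0 / 10000 ≤ v.re) (v1 : v.re ≤ 8000 / 10000) (i0 : -(1160 / 10000) ≤ v.im) (i1 : v.im ≤ 50 / 10000) :
    S2 1 (mR 30 T) w v < -(25 / 100) := by
  have hF : F_r32_threeE.val [w.re, T, v.re, v.im] = -(25 / 100) := by
    simp only [F_r32_threeE, E.val, lkR]
    push_cast
    ring
  rw [← hF]
  have hre : (w + v).re = w.re + v.re := Complex.add_re _ _
  have him : (w + v).im = w.im + v.im := Complex.add_im _ _
  apply S2_zone (by linarith only [hx]) (by linarith only [hx']) (by linarith only [v0]) (by linarith only [hx', v1])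
  · intro h5
    rw [hw]
    exact z2S (F := F_r32_threeE) (XM := 60) (cr := 30) (fuel := 24) (h := (by decide +kernel : chk [S2E 60 30 F_r32_threeE, sub uE (q 5 6)] 24 [V.of 10000 3000 6000, V.of 10000 (-280) (-50), V.of 10000 0 5334, V.of 10000 (-1160) 50] = true))
      ⟨by norm_num; linarith only [hx], by norm_num; linarith only [hx']⟩ ⟨by norm_num; linarith only [hT], by norm_num; linarith only [hT']⟩ ⟨by norm_num; linarith only [v0], by norm_num; linarith only [hx, h5]⟩
      ⟨by norm_num; linarith only [i0], by norm_num; linarith only [i1]⟩ h5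
  · intro h5 h6
    have hT0 : T ≤ 0 := by linarith only [hT']
    rcases le_total (w.im + v.im) 0 with hs | hs
    · refine ⟨((0 : ℤ) : ℝ), by simpa using mul_YY_00 (mR_nonneg hT0) (by rw [hre]; linarith only [h5]) (by rw [him]; exact hs), ?_⟩
      rw [hw] at hs ⊢
      exact z2N (s := yE 60 30) (F := F_r32_threeE) (r := 0) (XM := 60) (cr := 30) (fuel := 24) (h := (by decide +kernel : chk [N2E 60 30 F_r32_threeE 0, sub (q 5 6) uE, sub uE (q 7 6), yE 60 30] 24 [V.of 10000 3000 6000, V.of 10000 (-280) (-50), V.of 10000 2333 8000, V.of 10000 (-1160) 50] = true))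
            ⟨by norm_num; linarith only [hx], by norm_num; linarith only [hx']⟩ ⟨by norm_num; linarith only [hT], by norm_num; linarith only [hT']⟩ ⟨by norm_num; linarith only [hx', h5], by norm_num; linarith only [v1]⟩
            ⟨by norm_num; linarith only [i0], by norm_num; linarith only [i1]⟩ h5 h6 (yE_le hs)
    · refine ⟨((1 : ℤ) : ℝ), by simpa using mul_YY_01 (mR_nonneg hT0) (by rw [hre]; linarith only [h5]) (by rw [hre]; linarith only [hx', v1]), ?_⟩
      rw [hw] at hs ⊢
      exact z2N (s := neg (yE 60 30)) (F := F_r32_threeE) (r := 1) (XM := 60) (cr := 30) (fuel := 24) (h := (by decide +kernel : chk [N2E 60 30 F_r32_threeE 1, sub (q 5 6) uE, sub uE (q 7 6), neg (yE 60 30)] 24 [V.of 10000 3000 6000, V.of 10000 (-280) (-50), V.of 10000 2333 8000, V.of 10000 (-1160) 50] = true))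
            ⟨by norm_num; linarith only [hx], by norm_num; linarith only [hx']⟩ ⟨by norm_num; linarith only [hT], by norm_num; linarith only [hT']⟩ ⟨by norm_num; linarith only [hx', h5], by norm_num; linarith only [v1]⟩
            ⟨by norm_num; linarith only [i0], by norm_num; linarith only [i1]⟩ h5 h6 (neg_yE_le hs)
  · intro h5
    have hT0 : T ≤ 0 := by linarith only [hT']
    rcases le_total (w.im + v.im) 0 with hs | hs
    · refine ⟨((0 : ℤ) : ℝ), by simpa using mul_YY_00 (mR_nonneg hT0) (by rw [hre]; linarith only [h5]) (by rw [him]; exact hs), ?_⟩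
      rw [hw] at hs ⊢
      exact z2B (s := yE 60 30) (F := F_r32_threeE) (r := 0) (XM := 60) (cr := 30) (fuel := 24) (h := (by decide +kernel : chk [B2E 60 30 F_r32_threeE 0, sub (q 7 6) uE, yE 60 30] 24 [V.of 10000 3000 6000, V.of 10000 (-280) (-50), V.of 10000 5666 8000, V.of 10000 (-1160) 50] = true))
            ⟨by norm_num; linarith only [hx], by norm_num; linarith only [hx']⟩ ⟨by norm_num; linarith only [hT], by norm_num; linarith only [hT']⟩ ⟨by norm_num; linarith only [hx', h5], by norm_num; linarith only [v1]⟩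
            ⟨by norm_num; linarith only [i0], by norm_num; linarith only [i1]⟩ h5 (yE_le hs)
    · refine ⟨((1 : ℤ) : ℝ), by simpa using mul_YY_01 (mR_nonneg hT0) (by rw [hre]; linarith only [h5]) (by rw [hre]; linarith only [hx', v1]), ?_⟩
      rw [hw] at hs ⊢
      exact z2B (s := neg (yE 60 30)) (F := F_r32_threeE) (r := 1) (XM := 60) (cr := 30) (fuel := 24) (h := (by decide +kernel : chk [B2E 60 30 F_r32_threeE 1, sub (q 7 6) uE, neg (yE 60 30)] 24 [V.of 10000 3000 6000, V.of 10000 (-280) (-50), V.of 10000 5666 8000, V.of 10000 (-1160) 50] = true))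
            ⟨by norm_num; linarith only [hx], by norm_num; linarith only [hx']⟩ ⟨by norm_num; linarith only [hT], by norm_num; linarith only [hT']⟩ ⟨by norm_num; linarith only [hx', h5], by norm_num; linarith only [v1]⟩
            ⟨by norm_num; linarith only [i0], by norm_num; linarith only [i1]⟩ h5 (neg_yE_le hs)

/-- bound -/
def F_r32_ring : E := q (-11) 100

/-- `3 | ring` -/
theorem r32_ring {w v : ℂ} {T : ℝ} (hT : -(10 / 10000) ≤ T) (hT' : T ≤ 570 / 10000)
    (hw : w.im = tR 60 30 w.re T) (hx : 3000 / 10000 ≤ w.re) (hx' : w.re ≤ 5000 / 10000)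
    (v0 : 0 / 10000 ≤ v.re) (v1 : v.re ≤ 8000 / 10000) (i0 : -(1060 / 10000) ≤ v.im) (i1 : v.im ≤ 0 / 10000) :
    S2 1 (mR 30 T) w v < -(11 / 100) := by
  have hF : F_r32_ring.val [w.re, T, v.re, v.im] = -(11 / 100) := by
    simp only [F_r32_ring, E.val, lkR]
    push_cast
    ring
  rw [← hF]
  have hre : (w + v).re = w.re + v.re := Complex.add_re _ _
  have him : (w + v).im = w.im + v.im := Complex.add_im _ _
  apply S2_zone (by linarith only [hx]) (by linarith only [hx']) (by linarith only [v0]) (by linarith only [hx', v1])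
  · intro h5
    rw [hw]
    exact z2S (F := F_r32_ring) (XM := 60) (cr := 30) (fuel := 24) (h := (by decide +kernel : chk [S2E 60 30 F_r32_ring, sub uE (q 5 6)] 24 [V.of 10000 3000 5000, V.of 10000 (-10) 570, V.of 10000 0 5334, V.of 10000 (-1060) 0] = true))
      ⟨by norm_num; linarith only [hx], by norm_num; linarith only [hx']⟩ ⟨by norm_num; linarith only [hT], by norm_num; linarith only [hT']⟩ ⟨by norm_num; linarith only [v0], by norm_num; linarith only [hx, h5]⟩
      ⟨by norm_num; linarith only [i0], by norm_num; linarith only [i1]⟩ h5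
  · intro h5 h6
    rcases le_total T 0 with hT0 | hT0
    · rcases le_total (w.im + v.im) 0 with hs | hs
      · refine ⟨((0 : ℤ) : ℝ), by simpa using mul_YY_00 (mR_nonneg hT0) (by rw [hre]; linarith only [h5]) (by rw [him]; exact hs), ?_⟩
        rw [hw] at hs ⊢
        exact z2N (s := yE 60 30) (F := F_r32_ring) (r := 0) (XM := 60) (cr := 30) (fuel := 24) (h := (by decide +kernel : chk [N2E 60 30 F_r32_ring 0, sub (q 5 6) uE, sub uE (q 7 6), yE 60 30] 24 [V.of 10000 3000 5000, V.of 10000 (-10) 0, V.of 10000 3333 8000, V.of 10000 (-1060) 0] = true))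
            ⟨by norm_num; linarith only [hx], by norm_num; linarith only [hx']⟩ ⟨by norm_num; linarith only [hT], by norm_num; linarith only [hT0]⟩ ⟨by norm_num; linarith only [hx', h5], by norm_num; linarith only [v1]⟩
            ⟨by norm_num; linarith only [i0], by norm_num; linarith only [i1]⟩ h5 h6 (yE_le hs)
      · refine ⟨((1 : ℤ) : ℝ), by simpa using mul_YY_01 (mR_nonneg hT0) (by rw [hre]; linarith only [h5]) (by rw [hre]; linarith only [hx', v1]), ?_⟩
        rw [hw] at hs ⊢
        exact z2N (s := neg (yE 60 30)) (F := F_r32_ring) (r := 1) (XM := 60) (cr := 30) (fuel := 24) (h := (by decide +kernel : chk [N2E 60 30 F_r32_ring 1, sub (q 5 6) uE, sub uE (q 7 6), neg (yE 60 30)] 24 [V.of 10000 3000 5000, V.of 10000 (-10) 0, V.of 10000 3333 8000, V.of 10000 (-1060) 0] = true))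
            ⟨by norm_num; linarith only [hx], by norm_num; linarith only [hx']⟩ ⟨by norm_num; linarith only [hT], by norm_num; linarith only [hT0]⟩ ⟨by norm_num; linarith only [hx', h5], by norm_num; linarith only [v1]⟩
            ⟨by norm_num; linarith only [i0], by norm_num; linarith only [i1]⟩ h5 h6 (neg_yE_le hs)
    · refine ⟨((-1 : ℤ) : ℝ), by simpa using mul_YY_11 (mR_nonpos hT0) (by rw [hre]; linarith only [h5]) (by rw [hre]; linarith only [hx', v1]), ?_⟩
      rw [hw]
      exact z2N (s := q 0 1) (F := F_r32_ring) (r := (-1)) (XM := 60) (cr := 30) (fuel := 24) (h := (by decide +kernel : chk [N2E 60 30 F_r32_ring (-1), sub (q 5 6) uE, sub uE (q 7 6), q 0 1] 24 [V.of 10000 3000 5000, V.of 10000 0 570, V.of 10000 3333 8000, V.of 10000 (-1060) 0] = true))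
            ⟨by norm_num; linarith only [hx], by norm_num; linarith only [hx']⟩ ⟨by norm_num; linarith only [hT0], by norm_num; linarith only [hT']⟩ ⟨by norm_num; linarith only [hx', h5], by norm_num; linarith only [v1]⟩
            ⟨by norm_num; linarith only [i0], by norm_num; linarith only [i1]⟩ h5 h6 q0_val
  · intro h5
    rcases le_total T 0 with hT0 | hT0
    · rcases le_total (w.im + v.im) 0 with hs | hs
      · refine ⟨((0 : ℤ) : ℝ), by simpa using mul_YY_00 (mR_nonneg hT0) (by rw [hre]; linarith only [h5]) (by rw [him]; exact hs), ?_⟩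
        rw [hw] at hs ⊢
        exact z2B (s := yE 60 30) (F := F_r32_ring) (r := 0) (XM := 60) (cr := 30) (fuel := 24) (h := (by decide +kernel : chk [B2E 60 30 F_r32_ring 0, sub (q 7 6) uE, yE 60 30] 24 [V.of 10000 3000 5000, V.of 10000 (-10) 0, V.of 10000 6666 8000, V.of 10000 (-1060) 0] = true))
            ⟨by norm_num; linarith only [hx], by norm_num; linarith only [hx']⟩ ⟨by norm_num; linarith only [hT], by norm_num; linarith only [hT0]⟩ ⟨by norm_num; linarith only [hx', h5], by norm_num; linarith only [v1]⟩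
            ⟨by norm_num; linarith only [i0], by norm_num; linarith only [i1]⟩ h5 (yE_le hs)
      · refine ⟨((1 : ℤ) : ℝ), by simpa using mul_YY_01 (mR_nonneg hT0) (by rw [hre]; linarith only [h5]) (by rw [hre]; linarith only [hx', v1]), ?_⟩
        rw [hw] at hs ⊢
        exact z2B (s := neg (yE 60 30)) (F := F_r32_ring) (r := 1) (XM := 60) (cr := 30) (fuel := 24) (h := (by decide +kernel : chk [B2E 60 30 F_r32_ring 1, sub (q 7 6) uE, neg (yE 60 30)] 24 [V.of 10000 3000 5000, V.of 10000 (-10) 0, V.of 10000 6666 8000, V.of 10000 (-1060) 0] = true))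
            ⟨by norm_num; linarith only [hx], by norm_num; linarith only [hx']⟩ ⟨by norm_num; linarith only [hT], by norm_num; linarith only [hT0]⟩ ⟨by norm_num; linarith only [hx', h5], by norm_num; linarith only [v1]⟩
            ⟨by norm_num; linarith only [i0], by norm_num; linarith only [i1]⟩ h5 (neg_yE_le hs)
    · refine ⟨((-1 : ℤ) : ℝ), by simpa using mul_YY_11 (mR_nonpos hT0) (by rw [hre]; linarith only [h5]) (by rw [hre]; linarith only [hx', v1]), ?_⟩
      rw [hw]
      exact z2B (s := q 0 1) (F := F_r32_ring) (r := (-1)) (XM := 60) (cr := 30) (fuel := 24) (h := (by decide +kernel : chk [B2E 60 30 F_r32_ring (-1), sub (q 7 6) uE, q 0 1] 24 [V.of 10000 3000 5000, V.of 10000 0 570, V.of 10000 6666 8000, V.of 10000 (-1060) 0] = true))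
            ⟨by norm_num; linarith only [hx], by norm_num; linarith only [hx']⟩ ⟨by norm_num; linarith only [hT0], by norm_num; linarith only [hT']⟩ ⟨by norm_num; linarith only [hx', h5], by norm_num; linarith only [v1]⟩
            ⟨by norm_num; linarith only [i0], by norm_num; linarith only [i1]⟩ h5 q0_val

/-- bound -/
def F_r32_ring_b : E := sub (q (-44) 100) (mul pi (mE 30))

/-- `3 | ring`, shift `π` -/
theorem r32_ring_b {w v : ℂ} {T : ℝ} (hT : -(10 / 10000) ≤ T) (hT' : T ≤ 570 / 10000)
    (hw : w.im = tR 60 30 w.re T) (hx : 5000 / 10000 ≤ w.re) (hx' : w.re ≤ 6000 / 10000)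
    (v0 : 0 / 10000 ≤ v.re) (v1 : v.re ≤ 8000 / 10000) (i0 : -(1060 / 10000) ≤ v.im) (i1 : v.im ≤ 0 / 10000) :
    S2 1 (mR 30 T) w v < -(44 / 100) - Real.pi * mR 30 T := by
  have hF : F_r32_ring_b.val [w.re, T, v.re, v.im] = -(44 / 100) - Real.pi * mR 30 T := by
    simp only [F_r32_ring_b, E.val, mE_val]
    push_cast
    ring
  rw [← hF]
  have hre : (w + v).re = w.re + v.re := Complex.add_re _ _
  have him : (w + v).im = w.im + v.im := Complex.add_im _ _
  apply S2_zone (by linarith only [hx]) (by linarith only [hx']) (by linarith only [v0]) (by linarith only [hx', v1])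
  · intro h5
    rw [hw]
    exact z2S (F := F_r32_ring_b) (XM := 60) (cr := 30) (fuel := 24) (h := (by decide +kernel : chk [S2E 60 30 F_r32_ring_b, sub uE (q 5 6)] 24 [V.of 10000 5000 6000, V.of 10000 (-10) 570, V.of 10000 0 3334, V.of 10000 (-1060) 0] = true))
      ⟨by norm_num; linarith only [hx], by norm_num; linarith only [hx']⟩ ⟨by norm_num; linarith only [hT], by norm_num; linarith only [hT']⟩ ⟨by norm_num; linarith only [v0], by norm_num; linarith only [hx, h5]⟩
      ⟨by norm_num; linarith only [i0], by norm_num; linarith only [i1]⟩ h5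
  · intro h5 h6
    rcases le_total T 0 with hT0 | hT0
    · rcases le_total (w.im + v.im) 0 with hs | hs
      · refine ⟨((0 : ℤ) : ℝ), by simpa using mul_YY_00 (mR_nonneg hT0) (by rw [hre]; linarith only [h5]) (by rw [him]; exact hs), ?_⟩
        rw [hw] at hs ⊢
        exact z2N (s := yE 60 30) (F := F_r32_ring_b) (r := 0) (XM := 60) (cr := 30) (fuel := 24) (h := (by decide +kernel : chk [N2E 60 30 F_r32_ring_b 0, sub (q 5 6) uE, sub uE (q 7 6), yE 60 30] 24 [V.of 10000 5000 6000, V.of 10000 (-10) 0, V.of 10000 2333 6667, V.of 10000 (-1060) 0] = true))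
            ⟨by norm_num; linarith only [hx], by norm_num; linarith only [hx']⟩ ⟨by norm_num; linarith only [hT], by norm_num; linarith only [hT0]⟩ ⟨by norm_num; linarith only [hx', h5], by norm_num; linarith only [hx, h6]⟩
            ⟨by norm_num; linarith only [i0], by norm_num; linarith only [i1]⟩ h5 h6 (yE_le hs)
      · refine ⟨((1 : ℤ) : ℝ), by simpa using mul_YY_01 (mR_nonneg hT0) (by rw [hre]; linarith only [h5]) (by rw [hre]; linarith only [hx', v1]), ?_⟩
        rw [hw] at hs ⊢
        exact z2N (s := neg (yE 60 30)) (F := F_r32_ring_b) (r := 1) (XM := 60) (cr := 30) (fuel := 24) (h := (by decide +kernel : chk [N2E 60 30 F_r32_ring_b 1, sub (q 5 6) uE, sub uE (q 7 6), neg (yE 60 30)] 24 [V.of 10000 5000 6000, V.of 10000 (-10) 0, V.of 10000 2333 6667, V.of 10000 (-1060) 0] = true))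
            ⟨by norm_num; linarith only [hx], by norm_num; linarith only [hx']⟩ ⟨by norm_num; linarith only [hT], by norm_num; linarith only [hT0]⟩ ⟨by norm_num; linarith only [hx', h5], by norm_num; linarith only [hx, h6]⟩
            ⟨by norm_num; linarith only [i0], by norm_num; linarith only [i1]⟩ h5 h6 (neg_yE_le hs)
    · refine ⟨((-1 : ℤ) : ℝ), by simpa using mul_YY_11 (mR_nonpos hT0) (by rw [hre]; linarith only [h5]) (by rw [hre]; linarith only [hx', v1]), ?_⟩
      rw [hw]
      exact z2N (s := q 0 1) (F := F_r32_ring_b) (r := (-1)) (XM := 60) (cr := 30) (fuel := 24) (h := (by decide +kernel : chk [N2E 60 30 F_r32_ring_b (-1), sub (q 5 6) uE, sub uE (q 7 6), q 0 1] 24 [V.of 10000 5000 6000, V.of 10000 0 570, V.of 10000 2333 6667, V.of 10000 (-1060) 0] = true))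
            ⟨by norm_num; linarith only [hx], by norm_num; linarith only [hx']⟩ ⟨by norm_num; linarith only [hT0], by norm_num; linarith only [hT']⟩ ⟨by norm_num; linarith only [hx', h5], by norm_num; linarith only [hx, h6]⟩
            ⟨by norm_num; linarith only [i0], by norm_num; linarith only [i1]⟩ h5 h6 q0_val
  · intro h5
    rcases le_total T 0 with hT0 | hT0
    · rcases le_total (w.im + v.im) 0 with hs | hs
      · refine ⟨((0 : ℤ) : ℝ), by simpa using mul_YY_00 (mR_nonneg hT0) (by rw [hre]; linarith only [h5]) (by rw [him]; exact hs), ?_⟩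
        rw [hw] at hs ⊢
        exact z2B (s := yE 60 30) (F := F_r32_ring_b) (r := 0) (XM := 60) (cr := 30) (fuel := 24) (h := (by decide +kernel : chk [B2E 60 30 F_r32_ring_b 0, sub (q 7 6) uE, yE 60 30] 24 [V.of 10000 5000 6000, V.of 10000 (-10) 0, V.of 10000 5666 8000, V.of 10000 (-1060) 0] = true))
            ⟨by norm_num; linarith only [hx], by norm_num; linarith only [hx']⟩ ⟨by norm_num; linarith only [hT], by norm_num; linarith only [hT0]⟩ ⟨by norm_num; linarith only [hx', h5], by norm_num; linarith only [v1]⟩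
            ⟨by norm_num; linarith only [i0], by norm_num; linarith only [i1]⟩ h5 (yE_le hs)
      · refine ⟨((1 : ℤ) : ℝ), by simpa using mul_YY_01 (mR_nonneg hT0) (by rw [hre]; linarith only [h5]) (by rw [hre]; linarith only [hx', v1]), ?_⟩
        rw [hw] at hs ⊢
        exact z2B (s := neg (yE 60 30)) (F := F_r32_ring_b) (r := 1) (XM := 60) (cr := 30) (fuel := 24) (h := (by decide +kernel : chk [B2E 60 30 F_r32_ring_b 1, sub (q 7 6) uE, neg (yE 60 30)] 24 [V.of 10000 5000 6000, V.of 10000 (-10) 0, V.of 10000 5666 8000, V.of 10000 (-1060) 0] = true))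
            ⟨by norm_num; linarith only [hx], by norm_num; linarith only [hx']⟩ ⟨by norm_num; linarith only [hT], by norm_num; linarith only [hT0]⟩ ⟨by norm_num; linarith only [hx', h5], by norm_num; linarith only [v1]⟩
            ⟨by norm_num; linarith only [i0], by norm_num; linarith only [i1]⟩ h5 (neg_yE_le hs)
    · refine ⟨((-1 : ℤ) : ℝ), by simpa using mul_YY_11 (mR_nonpos hT0) (by rw [hre]; linarith only [h5]) (by rw [hre]; linarith only [hx', v1]), ?_⟩
      rw [hw]
      exact z2B (s := q 0 1) (F := F_r32_ring_b) (r := (-1)) (XM := 60) (cr := 30) (fuel := 24) (h := (by decide +kernel : chk [B2E 60 30 F_r32_ring_b (-1), sub (q 7 6) uE, q 0 1] 24 [V.of 10000 5000 6000, V.of 10000 0 570, V.of 10000 5666 8000, V.of 10000 (-1060) 0] = true))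
            ⟨by norm_num; linarith only [hx], by norm_num; linarith only [hx']⟩ ⟨by norm_num; linarith only [hT0], by norm_num; linarith only [hT']⟩ ⟨by norm_num; linarith only [hx', h5], by norm_num; linarith only [v1]⟩
            ⟨by norm_num; linarith only [i0], by norm_num; linarith only [i1]⟩ h5 q0_val

end MR

end Pool.Agent.Work.MP_b30479_gt.G2
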