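import Pool.Agent.Work.MP_b30479_gt.G2.R3VK

/-!
# Value move at `3 | 2`, near the right end
-/

set_option linter.unusedVariables false
set_option linter.unusedTactic false
set_option linter.unreachableTactic false
set_option linter.unusedSimpArgs false
set_option linter.unnecessarySeqFocus false

namespace Pool.Agent.Work.MP_b30479_gt.G2

open VOL NumU

namespace R3V

open E

theorem sg_neg (y : ℝ) : ((-1 : ℤ) : ℝ) * y ≤ |y| := by
  have := neg_le_abs y
  push_cast
  linarith only [this]

theorem sg_pos (y : ℝ) : ((1 : ℤ) : ℝ) * y ≤ |y| := by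
  have := le_abs_self y
  push_cast
  linarith only [this]

/-- gain of the `3` -/
theorem c2_own {w v : ℂ} {T : ℝ} (hT : -(57 / 1000) ≤ T) (hT' : T ≤ 5 / 1000)
    (hw : w.im = MR.tR 60 30 w.re T) (hx : 56 / 100 ≤ w.re) (hx' : w.re ≤ 60 / 100)
    (v0 : 70 / 100 ≤ v.re) (v1 : v.re ≤ 8 / 10) (i0 : -(116 / 1000) ≤ v.im)
    (i1 : v.im ≤ 5 / 1000) :
    30 / 100 < gw (20 / 100) T w.re w.im v.re v.im
      (UU ⟨20 / 100 + v.re, T + v.im⟩) (UU ⟨w.re + v.re, w.im + v.im⟩) := by
  rw [hw]
  rcases le_total (MR.tR 60 30 w.re T + v.im) 0 with hs | hs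
  · have := c2o_m (x := w.re) (T := T) (m := v.re) (t := v.im)
      ⟨by linarith only [hx], by linarith only [hx']⟩ ⟨by linarith only [hT], by linarith only [hT']⟩ ⟨by linarith only [v0], by linarith only [v1]⟩ ⟨by linarith only [i0], by linarith only [i1]⟩ hs
    exact this.trans_le (gw_mono (lb2 (sg_neg _) (by linarith only [v0]) (by linarith only [v1])) (ub4 (abs_eq_neg hs)))
  · have := c2o_p (x := w.re) (T := T) (m := v.re) (t := v.im)
      ⟨by linarith only [hx], by linarith only [hx']⟩ ⟨by linarith only [hT], by linarith only [hT']⟩ ⟨by linarith only [v0], by linarith only [v1]⟩ ⟨by linarith only [i0], by linarith only [i1]⟩ hs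
    exact this.trans_le (gw_mono (lb2 (sg_neg _) (by linarith only [v0]) (by linarith only [v1])) (ub4 (abs_eq_pos hs)))

/-- gain of the `2` -/
theorem c2_two {w v : ℂ} {T : ℝ} (hT : -(5 / 1000) ≤ T) (hT' : T ≤ 57 / 1000)
    (hw : w.im = MR.tR 60 30 w.re T) (hx : 56 / 100 ≤ w.re) (hx' : w.re ≤ 60 / 100)
    (v0 : 0 ≤ v.re) (v1 : v.re ≤ 8 / 10) (i0 : -(985 / 10000) ≤ v.im)
    (i1 : v.im ≤ 96 / 1000) :
    -(30 / 100) < gw (20 / 100) T w.re w.im v.re v.im
      (UU ⟨20 / 100 + v.re, T + v.im⟩) (UU ⟨w.re + v.re, w.im + v.im⟩) := by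
  rw [hw]
  rcases le_total (20 / 100 + v.re) (11 / 12) with p1 | p1
  · rcases le_total (w.re + v.re) (11 / 12) with q1 | q1
    · have := c2d_11 (x := w.re) (T := T) (m := v.re) (t := v.im)
        ⟨by linarith only [hx], by linarith only [hx']⟩ ⟨by linarith only [hT], by linarith only [hT']⟩ ⟨by linarith only [v0], by linarith only [hx, q1]⟩ ⟨by linarith only [i0], by linarith only [i1]⟩
        (by linarith only [p1]) (by linarith only [q1])
      exact this.trans_le (gw_mono (lb1 _ _ _) (ub1 _ _ _))
    rcases le_total (w.re + v.re) 1 with q2 | q2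
    · have := c2d_12 (x := w.re) (T := T) (m := v.re) (t := v.im)
        ⟨by linarith only [hx], by linarith only [hx']⟩ ⟨by linarith only [hT], by linarith only [hT']⟩ ⟨by linarith only [hx', q1], by linarith only [hx, q2]⟩ ⟨by linarith only [i0], by linarith only [i1]⟩
        (by linarith only [p1]) (by linarith only [q1]) (by linarith only [q2])
      exact this.trans_le (gw_mono (lb1 _ _ _) (ub2 _ (by linarith only [q1]) (by linarith only [q2])))
    rcases le_total (w.re + v.re) (13 / 12) with q3 | q3
    · rcases le_total (MR.tR 60 30 w.re T + v.im) 0 with hs | hs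
      · have := c2d_13m (x := w.re) (T := T) (m := v.re) (t := v.im)
          ⟨by linarith only [hx], by linarith only [hx']⟩ ⟨by linarith only [hT], by linarith only [hT']⟩ ⟨by linarith only [hx', q2], by linarith only [hx, q3]⟩ ⟨by linarith only [i0], by linarith only [i1]⟩
          (by linarith only [p1]) (by linarith only [q2]) (by linarith only [q3]) (by linarith only [hs])
        exact this.trans_le (gw_mono (lb1 _ _ _) (ub3 (abs_eq_neg hs) (by linarith only [q2]) (by linarith only [hx', p1, q3])))
      · have := c2d_13p (x := w.re) (T := T) (m := v.re) (t := v.im)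
          ⟨by linarith only [hx], by linarith only [hx']⟩ ⟨by linarith only [hT], by linarith only [hT']⟩ ⟨by linarith only [hx', q2], by linarith only [hx, q3]⟩ ⟨by linarith only [i0], by linarith only [i1]⟩
          (by linarith only [p1]) (by linarith only [q2]) (by linarith only [q3]) (by linarith only [hs])
        exact this.trans_le (gw_mono (lb1 _ _ _) (ub3 (abs_eq_pos hs) (by linarith only [q2]) (by linarith only [hx', p1, q3])))
    rcases le_total (MR.tR 60 30 w.re T + v.im) 0 with hs | hs
    · have := c2d_14m (x := w.re) (T := T) (m := v.re) (t := v.im)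
        ⟨by linarith only [hx], by linarith only [hx']⟩ ⟨by linarith only [hT], by linarith only [hT']⟩ ⟨by linarith only [hx', q3], by linarith only [p1]⟩ ⟨by linarith only [i0], by linarith only [i1]⟩
        (by linarith only [p1]) (by linarith only [q3]) (by linarith only [hs])
      exact this.trans_le (gw_mono (lb1 _ _ _) (ub4 (abs_eq_neg hs)))
    · have := c2d_14p (x := w.re) (T := T) (m := v.re) (t := v.im)
        ⟨by linarith only [hx], by linarith only [hx']⟩ ⟨by linarith only [hT], by linarith only [hT']⟩ ⟨by linarith only [hx', q3], by linarith only [p1]⟩ ⟨by linarith only [i0], by linarith only [i1]⟩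
        (by linarith only [p1]) (by linarith only [q3]) (by linarith only [hs])
      exact this.trans_le (gw_mono (lb1 _ _ _) (ub4 (abs_eq_pos hs)))
  have p2 : 20 / 100 + v.re ≤ 1 := by linarith only [v1]
  rcases le_total (w.re + v.re) (11 / 12) with q1 | q1
  · exfalso; linarith only [hx, p1, q1]
  rcases le_total (w.re + v.re) 1 with q2 | q2
  · exfalso; linarith only [hx, p1, q2]
  rcases le_total (w.re + v.re) (13 / 12) with q3 | q3
  · exfalso; linarith only [hx, p1, q3]
  rcases le_total (MR.tR 60 30 w.re T + v.im) 0 with hs | hs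
  · have := c2d_24m (x := w.re) (T := T) (m := v.re) (t := v.im)
      ⟨by linarith only [hx], by linarith only [hx']⟩ ⟨by linarith only [hT], by linarith only [hT']⟩ ⟨by linarith only [p1], by linarith only [v1]⟩ ⟨by linarith only [i0], by linarith only [i1]⟩
      (by linarith only [p1]) (by linarith only [hx, p1]) (by linarith only [hs])
    exact this.trans_le (gw_mono (lb2 (sg_pos _) (by linarith only [p1]) (by linarith only [v1])) (ub4 (abs_eq_neg hs)))
  · have := c2d_24p (x := w.re) (T := T) (m := v.re) (t := v.im)
      ⟨by linarith only [hx], by linarith only [hx']⟩ ⟨by linarith only [hT], by linarith only [hT']⟩ ⟨by linarith only [p1], by linarith only [v1]⟩ ⟨by linarith only [i0], by linarith only [i1]⟩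
      (by linarith only [p1]) (by linarith only [hx, p1]) (by linarith only [hs])
    exact this.trans_le (gw_mono (lb2 (sg_pos _) (by linarith only [p1]) (by linarith only [v1])) (ub4 (abs_eq_pos hs)))

end R3V

end Pool.Agent.Work.MP_b30479_gt.G2
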