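import Pool.Agent.Work.MP_b30479_gt.G2.R3VA
import Pool.Agent.Work.MP_b30479_gt.G2.R3WK
import Pool.Agent.Work.MP_b30479_gt.G2.R32B

/-!
# Value move at `3 | 1`: gains of the `3`
-/

set_option linter.unusedVariables false
set_option linter.unusedTactic false
set_option linter.unreachableTactic false
set_option linter.unusedSimpArgs false
set_option linter.unnecessarySeqFocus false

namespace Pool.Agent.Work.MP_b30479_gt.G2

open VOL NumU

namespace R3V

open E

/-- gain of the `3`, the other neighbour of the digit is a `1` -/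
theorem o1_gain {w v : ℂ} {T : ℝ} (hT : -(920 / 10000) ≤ T) (hT' : T ≤ -(210 / 10000))
    (hw : w.im = MR.tR 65 29 w.re T) (hx : 3600 / 10000 ≤ w.re) (hx' : w.re ≤ 65 / 100)
    (v0 : 50 / 100 ≤ v.re) (v1 : v.re ≤ 8 / 10) (i0 : -(123 / 1000) ≤ v.im) (i1 : v.im ≤ 0)
    (i2 : v.re ≤ 75 / 100 → v.im ≤ -(15 / 1000))
    (i3 : 75 / 100 ≤ v.re → v.im + 3 / 10 * (8 / 10 - v.re) ≤ 0) :
    48 / 1000 + 115 / 100 * (w.re - 36 / 100) < gw (26 / 100) T w.re w.im v.re v.im
      (UU ⟨26 / 100 + v.re, T + v.im⟩) (UU ⟨w.re + v.re, w.im + v.im⟩) := by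
  have hs0 := MR.im_le0 (XM := 65) (cr := 29) (x := w.re) (T := T) (le_trans hT' (by norm_num))
    (by norm_num; linarith only [hx'])
  rw [hw]
  have hs : MR.tR 65 29 w.re T + v.im ≤ 0 := by linarith only [i1, hs0]
  rcases le_total (26 / 100 + v.re) (11 / 12) with p1 | p1
  · rcases le_total (w.re + v.re) (11 / 12) with q1 | q1
    · have j2 := i2 (by linarith only [v1, p1])
      have := o1_11 (x := w.re) (T := T) (m := v.re) (t := v.im)
        ⟨by linarith only [hx], by linarith only [hx']⟩ ⟨by linarith only [hT], by linarith only [hT']⟩ ⟨by linarith only [v0], by linarith only [hx, q1]⟩ ⟨by linarith only [i0], by linarith only [j2]⟩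
        p1 q1
      exact this.trans_le (gw_mono (lb1 _ _ _) (ub1 _ _ _))
    rcases le_total (w.re + v.re) 1 with q2 | q2
    · have j2 := i2 (by linarith only [v1, p1])
      have := o1_12 (x := w.re) (T := T) (m := v.re) (t := v.im)
        ⟨by linarith only [hx], by linarith only [hx']⟩ ⟨by linarith only [hT], by linarith only [hT']⟩ ⟨by linarith only [v0], by linarith only [hx, q2]⟩ ⟨by linarith only [i0], by linarith only [j2]⟩
        p1 q1 (le_trans q2 (by norm_num))
      exact this.trans_le (gw_mono (lb1 _ _ _) (ub2 _ q1 (le_trans q2 (by norm_num))))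
    rcases le_total (w.re + v.re) (13 / 12) with q3 | q3
    · have j2 := i2 (by linarith only [v1, p1])
      have := o1_13 (x := w.re) (T := T) (m := v.re) (t := v.im)
        ⟨by linarith only [hx], by linarith only [hx']⟩ ⟨by linarith only [hT], by linarith only [hT']⟩ ⟨by linarith only [v0], by linarith only [p1]⟩ ⟨by linarith only [i0], by linarith only [j2]⟩
        p1 (le_trans (by norm_num) q2) q3
      exact this.trans_le (gw_mono (lb1 _ _ _) (ub3 (abs_eq_neg hs) q2 (le_trans q3 (by norm_num))))
    have j2 := i2 (by linarith only [v1, p1])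
    have := o1_14 (x := w.re) (T := T) (m := v.re) (t := v.im)
      ⟨by linarith only [hx], by linarith only [hx']⟩ ⟨by linarith only [hT], by linarith only [hT']⟩ ⟨by linarith only [v0], by linarith only [p1]⟩ ⟨by linarith only [i0], by linarith only [j2]⟩
      p1 q3
    exact this.trans_le (gw_mono (lb1 _ _ _) (ub4 (abs_eq_neg hs)))
  rcases le_total (26 / 100 + v.re) 1 with p2 | p2
  · rcases le_total (w.re + v.re) (11 / 12) with q1 | q1
    · exfalso; linarith only [hx, p1, q1]
    rcases le_total (w.re + v.re) 1 with q2 | q2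
    · exfalso; linarith only [hx, p1, q2]
    rcases le_total (w.re + v.re) (13 / 12) with q3 | q3
    · have j2 := i2 (by linarith only [v1, p2])
      have := o1_23 (x := w.re) (T := T) (m := v.re) (t := v.im)
        ⟨by linarith only [hx], by linarith only [hx']⟩ ⟨by linarith only [hT], by linarith only [hT']⟩ ⟨by linarith only [p1], by linarith only [hx, q3]⟩ ⟨by linarith only [i0], by linarith only [j2]⟩
        p1 (le_trans p2 (by norm_num)) (le_trans (by norm_num) q2) q3
      exact this.trans_le (gw_mono (lb2 (sg_neg _) (le_trans (by norm_num) p1) p2) (ub3 (abs_eq_neg hs) q2 (le_trans q3 (by norm_num))))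
    have j2 := i2 (by linarith only [v1, p2])
    have := o1_24 (x := w.re) (T := T) (m := v.re) (t := v.im)
      ⟨by linarith only [hx], by linarith only [hx']⟩ ⟨by linarith only [hT], by linarith only [hT']⟩ ⟨by linarith only [p1], by linarith only [p2]⟩ ⟨by linarith only [i0], by linarith only [j2]⟩
      p1 (le_trans p2 (by norm_num)) q3
    exact this.trans_le (gw_mono (lb2 (sg_neg _) (le_trans (by norm_num) p1) p2) (ub4 (abs_eq_neg hs)))
  rcases le_total (26 / 100 + v.re) (13 / 12) with p3 | p3
  · rcases le_total (w.re + v.re) (11 / 12) with q1 | q1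
    · exfalso; linarith only [hx, p2, q1]
    rcases le_total (w.re + v.re) 1 with q2 | q2
    · exfalso; linarith only [hx, p2, q2]
    rcases le_total (w.re + v.re) (13 / 12) with q3 | q3
    · exfalso; linarith only [hx, p2, q3]
    rcases le_total v.re (75 / 100) with r | r
    · have := i2 r
      have := o1_34 (x := w.re) (T := T) (m := v.re) (t := v.im)
        ⟨by linarith only [hx], by linarith only [hx']⟩ ⟨by linarith only [hT], by linarith only [hT']⟩ ⟨by linarith only [p2], by linarith only [r]⟩ ⟨by linarith only [i0], by linarith only [this]⟩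
        (le_trans (by norm_num) p2) q3
      exact this.trans_le (gw_mono (lb3 (sg_neg _) (le_trans (by norm_num) p2) p3) (ub4 (abs_eq_neg hs)))
    · have := i3 r
      have := o1_34r (x := w.re) (T := T) (m := v.re) (t := v.im)
        ⟨by linarith only [hx], by linarith only [hx']⟩ ⟨by linarith only [hT], by linarith only [hT']⟩ ⟨by linarith only [r], by linarith only [v1]⟩ ⟨by linarith only [i0], by linarith only [i1]⟩
        (le_trans (by norm_num) p2) q3 this
      exact this.trans_le (gw_mono (lb3 (sg_neg _) (le_trans (by norm_num) p2) p3) (ub4 (abs_eq_neg hs)))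
  rcases le_total (w.re + v.re) (11 / 12) with q1 | q1
  · exfalso; linarith only [v1, p3]
  rcases le_total (w.re + v.re) 1 with q2 | q2
  · exfalso; linarith only [v1, p3]
  rcases le_total (w.re + v.re) (13 / 12) with q3 | q3
  · exfalso; linarith only [v1, p3]
  exfalso; linarith only [v1, p3]

/-- gain of the `3`, the other neighbour of the digit is an interior `2` -/
theorem o2_gain {w v : ℂ} {T : ℝ} (hT : -(940 / 10000) ≤ T) (hT' : T ≤ -(460 / 10000))
    (hw : w.im = MR.tR 65 29 w.re T) (hx : 3850 / 10000 ≤ w.re) (hx' : w.re ≤ 65 / 100)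
    (v0 : 50 / 100 ≤ v.re) (v1 : v.re ≤ 8 / 10) (i0 : -(123 / 1000) ≤ v.im) (i1 : v.im ≤ 0)
    (i2 : v.re ≤ 75 / 100 → v.im ≤ -(15 / 1000))
    (i3 : 75 / 100 ≤ v.re → v.im + 3 / 10 * (8 / 10 - v.re) ≤ 0) :
    875 / 10000 + 115 / 100 * (w.re - 385 / 1000) < gw (26 / 100) T w.re w.im v.re v.im
      (UU ⟨26 / 100 + v.re, T + v.im⟩) (UU ⟨w.re + v.re, w.im + v.im⟩) := by
  have hs0 := MR.im_le0 (XM := 65) (cr := 29) (x := w.re) (T := T) (le_trans hT' (by norm_num))
    (by norm_num; linarith only [hx'])
  rw [hw]
  have hs : MR.tR 65 29 w.re T + v.im ≤ 0 := by linarith only [i1, hs0]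
  rcases le_total (26 / 100 + v.re) (11 / 12) with p1 | p1
  · rcases le_total (w.re + v.re) (11 / 12) with q1 | q1
    · have j2 := i2 (by linarith only [v1, p1])
      have := o2_11 (x := w.re) (T := T) (m := v.re) (t := v.im)
        ⟨by linarith only [hx], by linarith only [hx']⟩ ⟨by linarith only [hT], by linarith only [hT']⟩ ⟨by linarith only [v0], by linarith only [hx, q1]⟩ ⟨by linarith only [i0], by linarith only [j2]⟩
        p1 q1
      exact this.trans_le (gw_mono (lb1 _ _ _) (ub1 _ _ _))
    rcases le_total (w.re + v.re) 1 with q2 | q2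
    · have j2 := i2 (by linarith only [v1, p1])
      have := o2_12 (x := w.re) (T := T) (m := v.re) (t := v.im)
        ⟨by linarith only [hx], by linarith only [hx']⟩ ⟨by linarith only [hT], by linarith only [hT']⟩ ⟨by linarith only [v0], by linarith only [hx, q2]⟩ ⟨by linarith only [i0], by linarith only [j2]⟩
        p1 q1 (le_trans q2 (by norm_num))
      exact this.trans_le (gw_mono (lb1 _ _ _) (ub2 _ q1 (le_trans q2 (by norm_num))))
    rcases le_total (w.re + v.re) (13 / 12) with q3 | q3
    · have j2 := i2 (by linarith only [v1, p1])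
      have := o2_13 (x := w.re) (T := T) (m := v.re) (t := v.im)
        ⟨by linarith only [hx], by linarith only [hx']⟩ ⟨by linarith only [hT], by linarith only [hT']⟩ ⟨by linarith only [v0], by linarith only [p1]⟩ ⟨by linarith only [i0], by linarith only [j2]⟩
        p1 (le_trans (by norm_num) q2) q3
      exact this.trans_le (gw_mono (lb1 _ _ _) (ub3 (abs_eq_neg hs) q2 (le_trans q3 (by norm_num))))
    have j2 := i2 (by linarith only [v1, p1])
    have := o2_14 (x := w.re) (T := T) (m := v.re) (t := v.im)
      ⟨by linarith only [hx], by linarith only [hx']⟩ ⟨by linarith only [hT], by linarith only [hT']⟩ ⟨by linarith only [v0], by linarith only [p1]⟩ ⟨by linarith only [i0], by linarith only [j2]⟩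
      p1 q3
    exact this.trans_le (gw_mono (lb1 _ _ _) (ub4 (abs_eq_neg hs)))
  rcases le_total (26 / 100 + v.re) 1 with p2 | p2
  · rcases le_total (w.re + v.re) (11 / 12) with q1 | q1
    · exfalso; linarith only [hx, p1, q1]
    rcases le_total (w.re + v.re) 1 with q2 | q2
    · exfalso; linarith only [hx, p1, q2]
    rcases le_total (w.re + v.re) (13 / 12) with q3 | q3
    · have j2 := i2 (by linarith only [v1, p2])
      have := o2_23 (x := w.re) (T := T) (m := v.re) (t := v.im)
        ⟨by linarith only [hx], by linarith only [hx']⟩ ⟨by linarith only [hT], by linarith only [hT']⟩ ⟨by linarith only [p1], by linarith only [hx, q3]⟩ ⟨by linarith only [i0], by linarith only [j2]⟩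
        p1 (le_trans p2 (by norm_num)) (le_trans (by norm_num) q2) q3
      exact this.trans_le (gw_mono (lb2 (sg_neg _) (le_trans (by norm_num) p1) p2) (ub3 (abs_eq_neg hs) q2 (le_trans q3 (by norm_num))))
    have j2 := i2 (by linarith only [v1, p2])
    have := o2_24 (x := w.re) (T := T) (m := v.re) (t := v.im)
      ⟨by linarith only [hx], by linarith only [hx']⟩ ⟨by linarith only [hT], by linarith only [hT']⟩ ⟨by linarith only [p1], by linarith only [p2]⟩ ⟨by linarith only [i0], by linarith only [j2]⟩
      p1 (le_trans p2 (by norm_num)) q3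
    exact this.trans_le (gw_mono (lb2 (sg_neg _) (le_trans (by norm_num) p1) p2) (ub4 (abs_eq_neg hs)))
  rcases le_total (26 / 100 + v.re) (13 / 12) with p3 | p3
  · rcases le_total (w.re + v.re) (11 / 12) with q1 | q1
    · exfalso; linarith only [hx, p2, q1]
    rcases le_total (w.re + v.re) 1 with q2 | q2
    · exfalso; linarith only [hx, p2, q2]
    rcases le_total (w.re + v.re) (13 / 12) with q3 | q3
    · exfalso; linarith only [hx, p2, q3]
    rcases le_total v.re (75 / 100) with r | r
    · have := i2 r
      have := o2_34 (x := w.re) (T := T) (m := v.re) (t := v.im)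
        ⟨by linarith only [hx], by linarith only [hx']⟩ ⟨by linarith only [hT], by linarith only [hT']⟩ ⟨by linarith only [p2], by linarith only [r]⟩ ⟨by linarith only [i0], by linarith only [this]⟩
        (le_trans (by norm_num) p2) q3
      exact this.trans_le (gw_mono (lb3 (sg_neg _) (le_trans (by norm_num) p2) p3) (ub4 (abs_eq_neg hs)))
    · have := i3 r
      have := o2_34r (x := w.re) (T := T) (m := v.re) (t := v.im)
        ⟨by linarith only [hx], by linarith only [hx']⟩ ⟨by linarith only [hT], by linarith only [hT']⟩ ⟨by linarith only [r], by linarith only [v1]⟩ ⟨by linarith only [i0], by linarith only [i1]⟩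
        (le_trans (by norm_num) p2) q3 this
      exact this.trans_le (gw_mono (lb3 (sg_neg _) (le_trans (by norm_num) p2) p3) (ub4 (abs_eq_neg hs)))
  rcases le_total (w.re + v.re) (11 / 12) with q1 | q1
  · exfalso; linarith only [v1, p3]
  rcases le_total (w.re + v.re) 1 with q2 | q2
  · exfalso; linarith only [v1, p3]
  rcases le_total (w.re + v.re) (13 / 12) with q3 | q3
  · exfalso; linarith only [v1, p3]
  exfalso; linarith only [v1, p3]

/-- gain of the `3`, the other neighbour of the digit is a `2` at an end -/
theorem oE_gain {w v : ℂ} {T : ℝ} (hT : -(1145 / 10000) ≤ T) (hT' : T ≤ -(870 / 10000))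
    (hw : w.im = MR.tR 65 29 w.re T) (hx : 3700 / 10000 ≤ w.re) (hx' : w.re ≤ 65 / 100)
    (v0 : 50 / 100 ≤ v.re) (v1 : v.re ≤ 8 / 10) (i0 : -(123 / 1000) ≤ v.im) (i1 : v.im ≤ 0)
    (i2 : v.re ≤ 75 / 100 → v.im ≤ -(15 / 1000))
    (i3 : 75 / 100 ≤ v.re → v.im + 3 / 10 * (8 / 10 - v.re) ≤ 0) :
    42 / 1000 + 14 / 10 * (w.re - 37 / 100) < gw (26 / 100) T w.re w.im v.re v.im
      (UU ⟨26 / 100 + v.re, T + v.im⟩) (UU ⟨w.re + v.re, w.im + v.im⟩) := by
  have hs0 := MR.im_le0 (XM := 65) (cr := 29) (x := w.re) (T := T) (le_trans hT' (by norm_num))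
    (by norm_num; linarith only [hx'])
  rw [hw]
  have hs : MR.tR 65 29 w.re T + v.im ≤ 0 := by linarith only [i1, hs0]
  rcases le_total (26 / 100 + v.re) (11 / 12) with p1 | p1
  · rcases le_total (w.re + v.re) (11 / 12) with q1 | q1
    · have j2 := i2 (by linarith only [v1, p1])
      have := oE_11 (x := w.re) (T := T) (m := v.re) (t := v.im)
        ⟨by linarith only [hx], by linarith only [hx']⟩ ⟨by linarith only [hT], by linarith only [hT']⟩ ⟨by linarith only [v0], by linarith only [hx, q1]⟩ ⟨by linarith only [i0], by linarith only [j2]⟩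
        p1 q1
      exact this.trans_le (gw_mono (lb1 _ _ _) (ub1 _ _ _))
    rcases le_total (w.re + v.re) 1 with q2 | q2
    · have j2 := i2 (by linarith only [v1, p1])
      have := oE_12 (x := w.re) (T := T) (m := v.re) (t := v.im)
        ⟨by linarith only [hx], by linarith only [hx']⟩ ⟨by linarith only [hT], by linarith only [hT']⟩ ⟨by linarith only [v0], by linarith only [hx, q2]⟩ ⟨by linarith only [i0], by linarith only [j2]⟩
        p1 q1 (le_trans q2 (by norm_num))
      exact this.trans_le (gw_mono (lb1 _ _ _) (ub2 _ q1 (le_trans q2 (by norm_num))))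
    rcases le_total (w.re + v.re) (13 / 12) with q3 | q3
    · have j2 := i2 (by linarith only [v1, p1])
      have := oE_13 (x := w.re) (T := T) (m := v.re) (t := v.im)
        ⟨by linarith only [hx], by linarith only [hx']⟩ ⟨by linarith only [hT], by linarith only [hT']⟩ ⟨by linarith only [v0], by linarith only [p1]⟩ ⟨by linarith only [i0], by linarith only [j2]⟩
        p1 (le_trans (by norm_num) q2) q3
      exact this.trans_le (gw_mono (lb1 _ _ _) (ub3 (abs_eq_neg hs) q2 (le_trans q3 (by norm_num))))
    have j2 := i2 (by linarith only [v1, p1])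
    have := oE_14 (x := w.re) (T := T) (m := v.re) (t := v.im)
      ⟨by linarith only [hx], by linarith only [hx']⟩ ⟨by linarith only [hT], by linarith only [hT']⟩ ⟨by linarith only [v0], by linarith only [p1]⟩ ⟨by linarith only [i0], by linarith only [j2]⟩
      p1 q3
    exact this.trans_le (gw_mono (lb1 _ _ _) (ub4 (abs_eq_neg hs)))
  rcases le_total (26 / 100 + v.re) 1 with p2 | p2
  · rcases le_total (w.re + v.re) (11 / 12) with q1 | q1
    · exfalso; linarith only [hx, p1, q1]
    rcases le_total (w.re + v.re) 1 with q2 | q2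
    · exfalso; linarith only [hx, p1, q2]
    rcases le_total (w.re + v.re) (13 / 12) with q3 | q3
    · have j2 := i2 (by linarith only [v1, p2])
      have := oE_23 (x := w.re) (T := T) (m := v.re) (t := v.im)
        ⟨by linarith only [hx], by linarith only [hx']⟩ ⟨by linarith only [hT], by linarith only [hT']⟩ ⟨by linarith only [p1], by linarith only [hx, q3]⟩ ⟨by linarith only [i0], by linarith only [j2]⟩
        p1 (le_trans p2 (by norm_num)) (le_trans (by norm_num) q2) q3
      exact this.trans_le (gw_mono (lb2 (sg_neg _) (le_trans (by norm_num) p1) p2) (ub3 (abs_eq_neg hs) q2 (le_trans q3 (by norm_num))))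
    have j2 := i2 (by linarith only [v1, p2])
    have := oE_24 (x := w.re) (T := T) (m := v.re) (t := v.im)
      ⟨by linarith only [hx], by linarith only [hx']⟩ ⟨by linarith only [hT], by linarith only [hT']⟩ ⟨by linarith only [p1], by linarith only [p2]⟩ ⟨by linarith only [i0], by linarith only [j2]⟩
      p1 (le_trans p2 (by norm_num)) q3
    exact this.trans_le (gw_mono (lb2 (sg_neg _) (le_trans (by norm_num) p1) p2) (ub4 (abs_eq_neg hs)))
  rcases le_total (26 / 100 + v.re) (13 / 12) with p3 | p3
  · rcases le_total (w.re + v.re) (11 / 12) with q1 | q1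
    · exfalso; linarith only [hx, p2, q1]
    rcases le_total (w.re + v.re) 1 with q2 | q2
    · exfalso; linarith only [hx, p2, q2]
    rcases le_total (w.re + v.re) (13 / 12) with q3 | q3
    · exfalso; linarith only [hx, p2, q3]
    rcases le_total v.re (75 / 100) with r | r
    · have := i2 r
      have := oE_34 (x := w.re) (T := T) (m := v.re) (t := v.im)
        ⟨by linarith only [hx], by linarith only [hx']⟩ ⟨by linarith only [hT], by linarith only [hT']⟩ ⟨by linarith only [p2], by linarith only [r]⟩ ⟨by linarith only [i0], by linarith only [this]⟩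
        (le_trans (by norm_num) p2) q3
      exact this.trans_le (gw_mono (lb3 (sg_neg _) (le_trans (by norm_num) p2) p3) (ub4 (abs_eq_neg hs)))
    · have := i3 r
      have := oE_34r (x := w.re) (T := T) (m := v.re) (t := v.im)
        ⟨by linarith only [hx], by linarith only [hx']⟩ ⟨by linarith only [hT], by linarith only [hT']⟩ ⟨by linarith only [r], by linarith only [v1]⟩ ⟨by linarith only [i0], by linarith only [i1]⟩
        (le_trans (by norm_num) p2) q3 this
      exact this.trans_le (gw_mono (lb3 (sg_neg _) (le_trans (by norm_num) p2) p3) (ub4 (abs_eq_neg hs)))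
  rcases le_total (w.re + v.re) (11 / 12) with q1 | q1
  · exfalso; linarith only [v1, p3]
  rcases le_total (w.re + v.re) 1 with q2 | q2
  · exfalso; linarith only [v1, p3]
  rcases le_total (w.re + v.re) (13 / 12) with q3 | q3
  · exfalso; linarith only [v1, p3]
  exfalso; linarith only [v1, p3]

end R3V

end Pool.Agent.Work.MP_b30479_gt.G2
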