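import Pool.Agent.Work.MP_b30479_gt.G2.R3VB
import Pool.Agent.Work.MP_b30479_gt.G2.R3VC
import Pool.Agent.Work.MP_b30479_gt.G2.R3WK
import Pool.Agent.Work.MP_b30479_gt.G2.R3P
import Pool.Agent.Work.MP_b30479_gt.G2.R32B
import Pool.Agent.Work.MP_b30479_gt.LT.H.AlgH

/-!
# Value move at `3 | 1`: gains of the digit
-/

set_option linter.unusedVariables false
set_option linter.unusedTactic false
set_option linter.unreachableTactic false
set_option linter.unusedSimpArgs false
set_option linter.unnecessarySeqFocus false

namespace Pool.Agent.Work.MP_b30479_gt.G2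

open VOL NumU

namespace R3V

open E

/-- gain of the digit, its other neighbour is a `1` -/
theorem d1_gain {w v : ℂ} {T k : ℝ} (hT : 210 / 10000 ≤ T) (hT' : T ≤ 920 / 10000)
    (hw : w.im = MR.tR 65 29 w.re T) (hx : 3600 / 10000 ≤ w.re) (hx' : w.re ≤ 65 / 100)
    (hv : MR.PH v k (86 / 100) (15 / 100) (20 / 100)) (k0 : -(91 / 1000) ≤ k) (k1 : k ≤ 49 / 1000) (s0 : -(22 / 1000) ≤ T + k)
    (s1 : T + k ≤ 111 / 1000) :
    -(48 / 1000 + 115 / 100 * (w.re - 36 / 100)) < g1 (26 / 100) T w.re w.im v.re v.im
      (UU ⟨26 / 100 + v.re, T + v.im⟩) (UU ⟨w.re + v.re, w.im + v.im⟩) := by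
  have hs0 := MR.im_ge0 (XM := 65) (cr := 29) (x := w.re) (T := T) (le_trans (by norm_num) hT)
    (by norm_num; linarith only [hx'])
  rw [hw]
  have v0 := hv.re0
  have v1 := hv.reM
  obtain ⟨τ, τ0, τ1, τ2, hτ⟩ := hv.mid
  have i0 : -(91 / 1000) ≤ v.im := by rw [hτ]; nlinarith only [τ1, k0, τ0]
  have i1 : v.im ≤ 49 / 1000 := by rw [hτ]; nlinarith only [k1, k0, τ1, τ0]
  have q0 : -(22 / 1000) ≤ T + v.im := by rw [hτ]; nlinarith only [s0, hT, τ1, k1, τ0]
  have q1 : T + v.im ≤ 111 / 1000 := by rw [hτ]; nlinarith only [s1, hT', τ1, k0, τ0]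
  have c1 : -v.im ≤ 455 / 1000 * (86 / 100 - v.re) := by rw [hτ]; nlinarith only [τ2, k0, τ0]
  have c2 : -v.im ≤ 5 * (22 / 1000 + T) * (86 / 100 - v.re) := by
    have e1 : 0 ≤ (T + k + 22 / 1000) * τ := mul_nonneg (by linarith only [s0]) τ0
    have e2 : 0 ≤ (22 / 1000 + T) * (5 * (86 / 100 - v.re) - τ) :=
      mul_nonneg (by linarith only [hT]) (by linarith only [τ2])
    rw [hτ]
    linarith only [e1, e2]
  rcases le_total v.re (15 / 100) with h | h
  · have e := hv.left h
    have e2 : k * (100 / 15 * v.re) = v.im := by rw [e]; ring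
    have := d1_K (x := w.re) (T := T) (m := v.re) (k := k)
      ⟨by linarith only [hx], by linarith only [hx']⟩ ⟨by linarith only [hT], by linarith only [hT']⟩ ⟨by linarith only [v0], by linarith only [h]⟩ ⟨by linarith only [k0], by linarith only [k1]⟩
      s1 s0
    rw [e2] at this
    exact this
  rcases le_total (26 / 100 + v.re) (11 / 12) with p1 | p1
  · rcases le_total (w.re + v.re) (11 / 12) with q1 | q1
    · have := d1_11 (x := w.re) (T := T) (m := v.re) (t := v.im)
        ⟨by linarith only [hx], by linarith only [hx']⟩ ⟨by linarith only [hT], by linarith only [hT']⟩ ⟨by linarith only [h], by linarith only [hx, q1]⟩ ⟨by linarith only [i0], by linarith only [i1]⟩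
        p1 q1 (by linarith) q0
      exact this.trans_le (g1_mono (lb1 _ _ _) (ub1 _ _ _))
    rcases le_total (w.re + v.re) 1 with q2 | q2
    · have := d1_12 (x := w.re) (T := T) (m := v.re) (t := v.im)
        ⟨by linarith only [hx], by linarith only [hx']⟩ ⟨by linarith only [hT], by linarith only [hT']⟩ ⟨by linarith only [hx', q1], by linarith only [hx, q2]⟩ ⟨by linarith only [i0], by linarith only [i1]⟩
        p1 q1 (le_trans q2 (by norm_num)) (by linarith) q0
      exact this.trans_le (g1_mono (lb1 _ _ _) (ub2 _ q1 (le_trans q2 (by norm_num))))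
    rcases le_total (w.re + v.re) (13 / 12) with q3 | q3
    · rcases le_total (MR.tR 65 29 w.re T + v.im) 0 with hs | hs
      · have := d1_13m (x := w.re) (T := T) (m := v.re) (t := v.im)
          ⟨by linarith only [hx], by linarith only [hx']⟩ ⟨by linarith only [hT], by linarith only [hT']⟩ ⟨by linarith only [hx', q2], by linarith only [p1]⟩ ⟨by linarith only [i0], by linarith only [i1]⟩
          p1 (le_trans (by norm_num) q2) q3 hs (by linarith) q0
        exact this.trans_le (g1_mono (lb1 _ _ _) (ub3 (abs_eq_neg hs) q2 (le_trans q3 (by norm_num))))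
      · have := d1_13p (x := w.re) (T := T) (m := v.re) (t := v.im)
          ⟨by linarith only [hx], by linarith only [hx']⟩ ⟨by linarith only [hT], by linarith only [hT']⟩ ⟨by linarith only [hx', q2], by linarith only [p1]⟩ ⟨by linarith only [i0], by linarith only [i1]⟩
          p1 (le_trans (by norm_num) q2) q3 hs (by linarith) q0
        exact this.trans_le (g1_mono (lb1 _ _ _) (ub3 (abs_eq_pos hs) q2 (le_trans q3 (by norm_num))))
    rcases le_total (MR.tR 65 29 w.re T + v.im) 0 with hs | hs
    · have := d1_14m (x := w.re) (T := T) (m := v.re) (t := v.im)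
        ⟨by linarith only [hx], by linarith only [hx']⟩ ⟨by linarith only [hT], by linarith only [hT']⟩ ⟨by linarith only [hx', q3], by linarith only [p1]⟩ ⟨by linarith only [i0], by linarith only [i1]⟩
        p1 q3 hs (by linarith) q0
      exact this.trans_le (g1_mono (lb1 _ _ _) (ub4 (abs_eq_neg hs)))
    · have := d1_14p (x := w.re) (T := T) (m := v.re) (t := v.im)
        ⟨by linarith only [hx], by linarith only [hx']⟩ ⟨by linarith only [hT], by linarith only [hT']⟩ ⟨by linarith only [hx', q3], by linarith only [p1]⟩ ⟨by linarith only [i0], by linarith only [i1]⟩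
        p1 q3 hs (by linarith) q0
      exact this.trans_le (g1_mono (lb1 _ _ _) (ub4 (abs_eq_pos hs)))
  rcases le_total (26 / 100 + v.re) 1 with p2 | p2
  · rcases le_total (w.re + v.re) (11 / 12) with q1 | q1
    · exfalso; linarith only [hx, p1, q1]
    rcases le_total (w.re + v.re) 1 with q2 | q2
    · exfalso; linarith only [hx, p1, q2]
    rcases le_total (w.re + v.re) (13 / 12) with q3 | q3
    · rcases le_total (MR.tR 65 29 w.re T + v.im) 0 with hs | hs
      · have := d1_23m (x := w.re) (T := T) (m := v.re) (t := v.im)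
          ⟨by linarith only [hx], by linarith only [hx']⟩ ⟨by linarith only [hT], by linarith only [hT']⟩ ⟨by linarith only [p1], by linarith only [hx, q3]⟩ ⟨by linarith only [i0], by linarith only [i1]⟩
          p1 (le_trans p2 (by norm_num)) (le_trans (by norm_num) q2) q3 hs (by linarith) q0
        exact this.trans_le (g1_mono (lb2 (sg_pos _) (le_trans (by norm_num) p1) p2) (ub3 (abs_eq_neg hs) q2 (le_trans q3 (by norm_num))))
      · have := d1_23p (x := w.re) (T := T) (m := v.re) (t := v.im)
          ⟨by linarith only [hx], by linarith only [hx']⟩ ⟨by linarith only [hT], by linarith only [hT']⟩ ⟨by linarith only [p1], by linarith only [hx, q3]⟩ ⟨by linarith only [i0], by linarith only [i1]⟩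
          p1 (le_trans p2 (by norm_num)) (le_trans (by norm_num) q2) q3 hs (by linarith) q0
        exact this.trans_le (g1_mono (lb2 (sg_pos _) (le_trans (by norm_num) p1) p2) (ub3 (abs_eq_pos hs) q2 (le_trans q3 (by norm_num))))
    rcases le_total (MR.tR 65 29 w.re T + v.im) 0 with hs | hs
    · have := d1_24m (x := w.re) (T := T) (m := v.re) (t := v.im)
        ⟨by linarith only [hx], by linarith only [hx']⟩ ⟨by linarith only [hT], by linarith only [hT']⟩ ⟨by linarith only [p1], by linarith only [p2]⟩ ⟨by linarith only [i0], by linarith only [i1]⟩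
        p1 (le_trans p2 (by norm_num)) q3 hs (by linarith) q0
      exact this.trans_le (g1_mono (lb2 (sg_pos _) (le_trans (by norm_num) p1) p2) (ub4 (abs_eq_neg hs)))
    · have := d1_24p (x := w.re) (T := T) (m := v.re) (t := v.im)
        ⟨by linarith only [hx], by linarith only [hx']⟩ ⟨by linarith only [hT], by linarith only [hT']⟩ ⟨by linarith only [p1], by linarith only [p2]⟩ ⟨by linarith only [i0], by linarith only [i1]⟩
        p1 (le_trans p2 (by norm_num)) q3 hs (by linarith) q0
      exact this.trans_le (g1_mono (lb2 (sg_pos _) (le_trans (by norm_num) p1) p2) (ub4 (abs_eq_pos hs)))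
  rcases le_total (26 / 100 + v.re) (13 / 12) with p3 | p3
  · rcases le_total (w.re + v.re) (11 / 12) with q1 | q1
    · exfalso; linarith only [hx, p2, q1]
    rcases le_total (w.re + v.re) 1 with q2 | q2
    · exfalso; linarith only [hx, p2, q2]
    rcases le_total (w.re + v.re) (13 / 12) with q3 | q3
    · exfalso; linarith only [hx, p2, q3]
    rcases le_total (MR.tR 65 29 w.re T + v.im) 0 with hs | hs
    · have := d1_34m (x := w.re) (T := T) (m := v.re) (t := v.im)
        ⟨by linarith only [hx], by linarith only [hx']⟩ ⟨by linarith only [hT], by linarith only [hT']⟩ ⟨by linarith only [p2], by linarith only [p3]⟩ ⟨by linarith only [c1, p2], by linarith only [i1]⟩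
        (le_trans (by norm_num) p2) p3 q3 hs c1 c2 (by linarith) q0
      exact this.trans_le (g1_mono (lb3 (sg_pos _) (le_trans (by norm_num) p2) p3) (ub4 (abs_eq_neg hs)))
    · have := d1_34p (x := w.re) (T := T) (m := v.re) (t := v.im)
        ⟨by linarith only [hx], by linarith only [hx']⟩ ⟨by linarith only [hT], by linarith only [hT']⟩ ⟨by linarith only [p2], by linarith only [p3]⟩ ⟨by linarith only [c1, p2], by linarith only [i1]⟩
        (le_trans (by norm_num) p2) p3 q3 hs (by linarith) q0
      exact this.trans_le (g1_mono (lb3 (sg_pos _) (le_trans (by norm_num) p2) p3) (ub4 (abs_eq_pos hs)))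
  rcases le_total (w.re + v.re) (11 / 12) with q1 | q1
  · exfalso; linarith only [hx, p3, q1]
  rcases le_total (w.re + v.re) 1 with q2 | q2
  · exfalso; linarith only [hx, p3, q2]
  rcases le_total (w.re + v.re) (13 / 12) with q3 | q3
  · exfalso; linarith only [hx, p3, q3]
  rcases le_total (MR.tR 65 29 w.re T + v.im) 0 with hs | hs
  · have := d1_44m (x := w.re) (T := T) (m := v.re) (t := v.im)
      ⟨by linarith only [hx], by linarith only [hx']⟩ ⟨by linarith only [hT], by linarith only [hT']⟩ ⟨by linarith only [p3], by linarith only [v1]⟩ ⟨by linarith only [c1, p3], by linarith only [i1]⟩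
      p3 q3 hs c1 (by linarith) q0
    exact this.trans_le (g1_mono (lb4 (sg_pos _)) (ub4 (abs_eq_neg hs)))
  · have := d1_44p (x := w.re) (T := T) (m := v.re) (t := v.im)
      ⟨by linarith only [hx], by linarith only [hx']⟩ ⟨by linarith only [hT], by linarith only [hT']⟩ ⟨by linarith only [p3], by linarith only [v1]⟩ ⟨by linarith only [c1, p3], by linarith only [i1]⟩
      p3 q3 hs (by linarith) q0
    exact this.trans_le (g1_mono (lb4 (sg_pos _)) (ub4 (abs_eq_pos hs)))

/-- gain of the digit, its other neighbour is an interior `2` -/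
theorem d2_gain {w v : ℂ} {T k : ℝ} (hT : 460 / 10000 ≤ T) (hT' : T ≤ 940 / 10000)
    (hw : w.im = MR.tR 65 29 w.re T) (hx : 3850 / 10000 ≤ w.re) (hx' : w.re ≤ 65 / 100)
    (hv : MR.PH v k (80 / 100) (16 / 100) (29 / 100)) (k0 : 10 / 1000 ≤ k) (k1 : k ≤ 77 / 1000)
    (s1 : T + k ≤ 148 / 1000) :
    -(875 / 10000 + 115 / 100 * (w.re - 385 / 1000)) < g1 (26 / 100) T w.re w.im v.re v.im
      (UU ⟨26 / 100 + v.re, T + v.im⟩) (UU ⟨w.re + v.re, w.im + v.im⟩) := by
  have hs0 := MR.im_ge0 (XM := 65) (cr := 29) (x := w.re) (T := T) (le_trans (by norm_num) hT)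
    (by norm_num; linarith only [hx'])
  rw [hw]
  have v0 := hv.re0
  have v1 := hv.reM
  obtain ⟨τ, τ0, τ1, τ2, hτ⟩ := hv.mid
  have i0 : 0 / 1000 ≤ v.im := by rw [hτ]; nlinarith only [τ0, k0]
  have i1 : v.im ≤ 77 / 1000 := by rw [hτ]; nlinarith only [k1, τ1, k0]
  have q1 : T + v.im ≤ 148 / 1000 := by rw [hτ]; nlinarith only [s1, τ1, k0]
  rcases le_total v.re (16 / 100) with h | h
  · have e := hv.left h
    have e2 : k * (100 / 16 * v.re) = v.im := by rw [e]; ring
    have := d2_K (x := w.re) (T := T) (m := v.re) (k := k)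
      ⟨by linarith only [hx], by linarith only [hx']⟩ ⟨by linarith only [hT], by linarith only [hT']⟩ ⟨by linarith only [v0], by linarith only [h]⟩ ⟨by linarith only [k0], by linarith only [k1]⟩
      s1
    rw [e2] at this
    exact this
  have hs : 0 ≤ MR.tR 65 29 w.re T + v.im := by linarith only [hs0, i0]
  rcases le_total (26 / 100 + v.re) (11 / 12) with p1 | p1
  · rcases le_total (w.re + v.re) (11 / 12) with q1 | q1
    · have := d2_11 (x := w.re) (T := T) (m := v.re) (t := v.im)
        ⟨by linarith only [hx], by linarith only [hx']⟩ ⟨by linarith only [hT], by linarith only [hT']⟩ ⟨by linarith only [h], by linarith only [hx, q1]⟩ ⟨by linarith only [i0], by linarith only [i1]⟩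
        p1 q1 (by linarith)
      exact this.trans_le (g1_mono (lb1 _ _ _) (ub1 _ _ _))
    rcases le_total (w.re + v.re) 1 with q2 | q2
    · have := d2_12 (x := w.re) (T := T) (m := v.re) (t := v.im)
        ⟨by linarith only [hx], by linarith only [hx']⟩ ⟨by linarith only [hT], by linarith only [hT']⟩ ⟨by linarith only [hx', q1], by linarith only [hx, q2]⟩ ⟨by linarith only [i0], by linarith only [i1]⟩
        p1 q1 (le_trans q2 (by norm_num)) (by linarith)
      exact this.trans_le (g1_mono (lb1 _ _ _) (ub2 _ q1 (le_trans q2 (by norm_num))))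
    rcases le_total (w.re + v.re) (13 / 12) with q3 | q3
    · have := d2_13 (x := w.re) (T := T) (m := v.re) (t := v.im)
        ⟨by linarith only [hx], by linarith only [hx']⟩ ⟨by linarith only [hT], by linarith only [hT']⟩ ⟨by linarith only [hx', q2], by linarith only [p1]⟩ ⟨by linarith only [i0], by linarith only [i1]⟩
        p1 (le_trans (by norm_num) q2) q3 (by linarith)
      exact this.trans_le (g1_mono (lb1 _ _ _) (ub3 (abs_eq_pos hs) q2 (le_trans q3 (by norm_num))))
    have := d2_14 (x := w.re) (T := T) (m := v.re) (t := v.im)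
      ⟨by linarith only [hx], by linarith only [hx']⟩ ⟨by linarith only [hT], by linarith only [hT']⟩ ⟨by linarith only [hx', q3], by linarith only [p1]⟩ ⟨by linarith only [i0], by linarith only [i1]⟩
      p1 q3 (by linarith)
    exact this.trans_le (g1_mono (lb1 _ _ _) (ub4 (abs_eq_pos hs)))
  rcases le_total (26 / 100 + v.re) 1 with p2 | p2
  · rcases le_total (w.re + v.re) (11 / 12) with q1 | q1
    · exfalso; linarith only [hx, p1, q1]
    rcases le_total (w.re + v.re) 1 with q2 | q2
    · exfalso; linarith only [hx, p1, q2]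
    rcases le_total (w.re + v.re) (13 / 12) with q3 | q3
    · have := d2_23 (x := w.re) (T := T) (m := v.re) (t := v.im)
        ⟨by linarith only [hx], by linarith only [hx']⟩ ⟨by linarith only [hT], by linarith only [hT']⟩ ⟨by linarith only [p1], by linarith only [hx, q3]⟩ ⟨by linarith only [i0], by linarith only [i1]⟩
        p1 (le_trans p2 (by norm_num)) (le_trans (by norm_num) q2) q3 (by linarith)
      exact this.trans_le (g1_mono (lb2 (sg_pos _) (le_trans (by norm_num) p1) p2) (ub3 (abs_eq_pos hs) q2 (le_trans q3 (by norm_num))))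
    have := d2_24 (x := w.re) (T := T) (m := v.re) (t := v.im)
      ⟨by linarith only [hx], by linarith only [hx']⟩ ⟨by linarith only [hT], by linarith only [hT']⟩ ⟨by linarith only [p1], by linarith only [p2]⟩ ⟨by linarith only [i0], by linarith only [i1]⟩
      p1 (le_trans p2 (by norm_num)) q3 (by linarith)
    exact this.trans_le (g1_mono (lb2 (sg_pos _) (le_trans (by norm_num) p1) p2) (ub4 (abs_eq_pos hs)))
  rcases le_total (26 / 100 + v.re) (13 / 12) with p3 | p3
  · rcases le_total (w.re + v.re) (11 / 12) with q1 | q1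
    · exfalso; linarith only [hx, p2, q1]
    rcases le_total (w.re + v.re) 1 with q2 | q2
    · exfalso; linarith only [hx, p2, q2]
    rcases le_total (w.re + v.re) (13 / 12) with q3 | q3
    · exfalso; linarith only [hx, p2, q3]
    have := d2_34 (x := w.re) (T := T) (m := v.re) (t := v.im)
      ⟨by linarith only [hx], by linarith only [hx']⟩ ⟨by linarith only [hT], by linarith only [hT']⟩ ⟨by linarith only [p2], by linarith only [v1]⟩ ⟨by linarith only [i0], by linarith only [i1]⟩
      (le_trans (by norm_num) p2) p3 q3 (by linarith)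
    exact this.trans_le (g1_mono (lb3 (sg_pos _) (le_trans (by norm_num) p2) p3) (ub4 (abs_eq_pos hs)))
  rcases le_total (w.re + v.re) (11 / 12) with q1 | q1
  · exfalso; linarith only [v1, p3]
  rcases le_total (w.re + v.re) 1 with q2 | q2
  · exfalso; linarith only [v1, p3]
  rcases le_total (w.re + v.re) (13 / 12) with q3 | q3
  · exfalso; linarith only [v1, p3]
  exfalso; linarith only [v1, p3]

/-- gain of the digit, its other neighbour is a `2` at an end -/
theorem dE_gain {w v : ℂ} {T k : ℝ} (hT : 870 / 10000 ≤ T) (hT' : T ≤ 1145 / 10000)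
    (hw : w.im = MR.tR 65 29 w.re T) (hx : 3700 / 10000 ≤ w.re) (hx' : w.re ≤ 65 / 100)
    (hv : MR.PH v k (70 / 100) (14 / 100) (35 / 100)) (k0 : -(45 / 1000) ≤ k) (k1 : k ≤ -(25 / 1000)) :
    -(42 / 1000 + 14 / 10 * (w.re - 37 / 100)) < g1 (26 / 100) T w.re w.im v.re v.im
      (UU ⟨26 / 100 + v.re, T + v.im⟩) (UU ⟨w.re + v.re, w.im + v.im⟩) := by
  have hs0 := MR.im_ge0 (XM := 65) (cr := 29) (x := w.re) (T := T) (le_trans (by norm_num) hT)
    (by norm_num; linarith only [hx'])
  rw [hw]
  have v0 := hv.re0
  have v1 := hv.reM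
  obtain ⟨τ, τ0, τ1, τ2, hτ⟩ := hv.mid
  have i0 : -(45 / 1000) ≤ v.im := by rw [hτ]; nlinarith only [τ1, k0, τ0]
  have i1 : v.im ≤ 0 / 1000 := by rw [hτ]; nlinarith only [τ0, k1]
  rcases le_total (26 / 100 + v.re) (11 / 12) with p1 | p1
  · rcases le_total (w.re + v.re) (11 / 12) with q1 | q1
    · have := dE_11 (x := w.re) (T := T) (m := v.re) (t := v.im)
        ⟨by linarith only [hx], by linarith only [hx']⟩ ⟨by linarith only [hT], by linarith only [hT']⟩ ⟨by linarith only [v0], by linarith only [hx, q1]⟩ ⟨by linarith only [i0], by linarith only [i1]⟩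
        p1 q1
      exact this.trans_le (g1_mono (lb1 _ _ _) (ub1 _ _ _))
    rcases le_total (w.re + v.re) 1 with q2 | q2
    · have := dE_12 (x := w.re) (T := T) (m := v.re) (t := v.im)
        ⟨by linarith only [hx], by linarith only [hx']⟩ ⟨by linarith only [hT], by linarith only [hT']⟩ ⟨by linarith only [hx', q1], by linarith only [hx, q2]⟩ ⟨by linarith only [i0], by linarith only [i1]⟩
        p1 q1 (le_trans q2 (by norm_num))
      exact this.trans_le (g1_mono (lb1 _ _ _) (ub2 _ q1 (le_trans q2 (by norm_num))))
    rcases le_total (w.re + v.re) (13 / 12) with q3 | q3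
    · rcases le_total (MR.tR 65 29 w.re T + v.im) 0 with hs | hs
      · have := dE_13m (x := w.re) (T := T) (m := v.re) (t := v.im)
          ⟨by linarith only [hx], by linarith only [hx']⟩ ⟨by linarith only [hT], by linarith only [hT']⟩ ⟨by linarith only [hx', q2], by linarith only [p1]⟩ ⟨by linarith only [i0], by linarith only [i1]⟩
          p1 (le_trans (by norm_num) q2) q3 hs
        exact this.trans_le (g1_mono (lb1 _ _ _) (ub3 (abs_eq_neg hs) q2 (le_trans q3 (by norm_num))))
      · have := dE_13p (x := w.re) (T := T) (m := v.re) (t := v.im)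
          ⟨by linarith only [hx], by linarith only [hx']⟩ ⟨by linarith only [hT], by linarith only [hT']⟩ ⟨by linarith only [hx', q2], by linarith only [p1]⟩ ⟨by linarith only [i0], by linarith only [i1]⟩
          p1 (le_trans (by norm_num) q2) q3 hs
        exact this.trans_le (g1_mono (lb1 _ _ _) (ub3 (abs_eq_pos hs) q2 (le_trans q3 (by norm_num))))
    rcases le_total (MR.tR 65 29 w.re T + v.im) 0 with hs | hs
    · have := dE_14m (x := w.re) (T := T) (m := v.re) (t := v.im)
        ⟨by linarith only [hx], by linarith only [hx']⟩ ⟨by linarith only [hT], by linarith only [hT']⟩ ⟨by linarith only [hx', q3], by linarith only [p1]⟩ ⟨by linarith only [i0], by linarith only [i1]⟩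
        p1 q3 hs
      exact this.trans_le (g1_mono (lb1 _ _ _) (ub4 (abs_eq_neg hs)))
    · have := dE_14p (x := w.re) (T := T) (m := v.re) (t := v.im)
        ⟨by linarith only [hx], by linarith only [hx']⟩ ⟨by linarith only [hT], by linarith only [hT']⟩ ⟨by linarith only [hx', q3], by linarith only [p1]⟩ ⟨by linarith only [i0], by linarith only [i1]⟩
        p1 q3 hs
      exact this.trans_le (g1_mono (lb1 _ _ _) (ub4 (abs_eq_pos hs)))
  rcases le_total (26 / 100 + v.re) 1 with p2 | p2
  · rcases le_total (w.re + v.re) (11 / 12) with q1 | q1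
    · exfalso; linarith only [hx, p1, q1]
    rcases le_total (w.re + v.re) 1 with q2 | q2
    · exfalso; linarith only [hx, p1, q2]
    rcases le_total (w.re + v.re) (13 / 12) with q3 | q3
    · rcases le_total (MR.tR 65 29 w.re T + v.im) 0 with hs | hs
      · have := dE_23m (x := w.re) (T := T) (m := v.re) (t := v.im)
          ⟨by linarith only [hx], by linarith only [hx']⟩ ⟨by linarith only [hT], by linarith only [hT']⟩ ⟨by linarith only [p1], by linarith only [v1]⟩ ⟨by linarith only [i0], by linarith only [i1]⟩
          p1 (le_trans p2 (by norm_num)) (le_trans (by norm_num) q2) q3 hs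
        exact this.trans_le (g1_mono (lb2 (sg_pos _) (le_trans (by norm_num) p1) p2) (ub3 (abs_eq_neg hs) q2 (le_trans q3 (by norm_num))))
      · have := dE_23p (x := w.re) (T := T) (m := v.re) (t := v.im)
          ⟨by linarith only [hx], by linarith only [hx']⟩ ⟨by linarith only [hT], by linarith only [hT']⟩ ⟨by linarith only [p1], by linarith only [v1]⟩ ⟨by linarith only [i0], by linarith only [i1]⟩
          p1 (le_trans p2 (by norm_num)) (le_trans (by norm_num) q2) q3 hs
        exact this.trans_le (g1_mono (lb2 (sg_pos _) (le_trans (by norm_num) p1) p2) (ub3 (abs_eq_pos hs) q2 (le_trans q3 (by norm_num))))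
    rcases le_total (MR.tR 65 29 w.re T + v.im) 0 with hs | hs
    · have := dE_24m (x := w.re) (T := T) (m := v.re) (t := v.im)
        ⟨by linarith only [hx], by linarith only [hx']⟩ ⟨by linarith only [hT], by linarith only [hT']⟩ ⟨by linarith only [p1], by linarith only [v1]⟩ ⟨by linarith only [i0], by linarith only [i1]⟩
        p1 (le_trans p2 (by norm_num)) q3 hs
      exact this.trans_le (g1_mono (lb2 (sg_pos _) (le_trans (by norm_num) p1) p2) (ub4 (abs_eq_neg hs)))
    · have := dE_24p (x := w.re) (T := T) (m := v.re) (t := v.im)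
        ⟨by linarith only [hx], by linarith only [hx']⟩ ⟨by linarith only [hT], by linarith only [hT']⟩ ⟨by linarith only [p1], by linarith only [v1]⟩ ⟨by linarith only [i0], by linarith only [i1]⟩
        p1 (le_trans p2 (by norm_num)) q3 hs
      exact this.trans_le (g1_mono (lb2 (sg_pos _) (le_trans (by norm_num) p1) p2) (ub4 (abs_eq_pos hs)))
  rcases le_total (26 / 100 + v.re) (13 / 12) with p3 | p3
  · rcases le_total (w.re + v.re) (11 / 12) with q1 | q1
    · exfalso; linarith only [v1, p2]
    rcases le_total (w.re + v.re) 1 with q2 | q2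
    · exfalso; linarith only [v1, p2]
    rcases le_total (w.re + v.re) (13 / 12) with q3 | q3
    · exfalso; linarith only [v1, p2]
    exfalso; linarith only [v1, p2]
  rcases le_total (w.re + v.re) (11 / 12) with q1 | q1
  · exfalso; linarith only [v1, p2]
  rcases le_total (w.re + v.re) 1 with q2 | q2
  · exfalso; linarith only [v1, p2]
  rcases le_total (w.re + v.re) (13 / 12) with q3 | q3
  · exfalso; linarith only [v1, p2]
  exfalso; linarith only [v1, p2]

end R3V

end Pool.Agent.Work.MP_b30479_gt.G2
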