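import Pool.Agent.Work.MP_b30479_gt.G2.R32
import Pool.Agent.Work.MP_b30479_gt.G2.R31A
import Pool.Agent.Work.MP_b30479_gt.G2.R31D
import Pool.Agent.Work.MP_b30479_gt.G2.R3W
import Pool.Agent.Work.MP_b30479_gt.G2.R3X
import Pool.Agent.Work.MP_b30479_gt.G2.WValH

/-!
# Caps of the slot-2 hinge of an interior region with three crossings: neighbours `1` and `2`

No floors and no other caps are used.
-/

set_option linter.unusedSimpArgs false

namespace Pool.Agent.Work.MP_b30479_gt.G2

open Finset VOL Filter Topology NumU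

namespace R3V

theorem V3_gain (u v w : ℂ) (c T : ℝ) : V3 u v (c + (T : ℂ) * Complex.I) - V3 u v w =
    gw c T w.re w.im v.re v.im (UU ⟨c + v.re, T + v.im⟩) (UU ⟨w.re + v.re, w.im + v.im⟩) := by
  have e1 : v + (c + (T : ℂ) * Complex.I) = ⟨c + v.re, T + v.im⟩ := by
    apply Complex.ext <;> simp [add_comm]
  have e2 : v + w = ⟨w.re + v.re, w.im + v.im⟩ := by
    apply Complex.ext <;> simp [add_comm]
  unfold V3 gw
  rw [e1, e2, UU_uu (c + (T : ℂ) * Complex.I), UU_uu w]
  simp only [Complex.add_re, Complex.add_im, Complex.sub_im, Complex.sub_re, Complex.mul_im,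
    Complex.mul_re, Complex.ofReal_re, Complex.ofReal_im, Complex.I_re, Complex.I_im, mul_zero,
    mul_one, zero_mul, add_zero, zero_add, sub_zero, sub_self, pow_two]
  ring

theorem V2_gain (v w : ℂ) (c T : ℝ) : V2 (c + (T : ℂ) * Complex.I) v - V2 w v =
    gw c T w.re w.im v.re v.im (UU ⟨c + v.re, T + v.im⟩) (UU ⟨w.re + v.re, w.im + v.im⟩) := by
  have e1 : (c + (T : ℂ) * Complex.I) + v = ⟨c + v.re, T + v.im⟩ := by
    apply Complex.ext <;> simp
  have e2 : w + v = ⟨w.re + v.re, w.im + v.im⟩ := by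
    apply Complex.ext <;> simp
  unfold V2 gw
  rw [e1, e2, UU_uu (c + (T : ℂ) * Complex.I), UU_uu w]
  simp only [Complex.add_re, Complex.add_im, Complex.sub_im, Complex.sub_re, Complex.mul_im,
    Complex.mul_re, Complex.ofReal_re, Complex.ofReal_im, Complex.I_re, Complex.I_im, mul_zero,
    mul_one, zero_mul, add_zero, zero_add, sub_zero, sub_self, pow_two]
  ring

theorem V1_gain (v w : ℂ) (c T : ℝ) : V1 (c + (T : ℂ) * Complex.I) v - V1 w v =
    g1 c T w.re w.im v.re v.im (UU ⟨c + v.re, T + v.im⟩) (UU ⟨w.re + v.re, w.im + v.im⟩) := by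
  have e1 : (c + (T : ℂ) * Complex.I) + v = ⟨c + v.re, T + v.im⟩ := by
    apply Complex.ext <;> simp
  have e2 : w + v = ⟨w.re + v.re, w.im + v.im⟩ := by
    apply Complex.ext <;> simp
  unfold V1 g1
  rw [e1, e2, UU_uu (c + (T : ℂ) * Complex.I), UU_uu w]
  simp only [Complex.add_re, Complex.add_im, Complex.sub_im, Complex.sub_re, Complex.mul_im,
    Complex.mul_re, Complex.ofReal_re, Complex.ofReal_im, Complex.I_re, Complex.I_im, mul_zero,
    mul_one, zero_mul, add_zero, zero_add, sub_zero, sub_self]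
  ring

end R3V

namespace SR

variable {M : ℕ} {b : Fin (M + 1) → ℤ} {zs : DD (tyW b) ⊕ ZZ (tyW b) → ℂ}
variable {y : DD (tyW b) ⊕ ZZ (tyW b) → ℝ}
variable {h h' : Fin M} {i j j' k : Fin (M + 1)} {p : Fin 3}

/-! ### the total gain of a value move -/

/-- the gain of an interior region with three crossings -/
noncomputable def gn3 (b : Fin (M + 1) → ℤ) (zs : DD (tyW b) ⊕ ZZ (tyW b) → ℂ)
    (y : DD (tyW b) ⊕ ZZ (tyW b) → ℝ) (h : Fin M) (i : Fin (M + 1)) (p q : Fin 3) (c : ℝ) : ℝ :=
  R3V.gw c (ofs (b i) (zs (.inl (.inl h))).im) (Yw b zs y i p).re (Yw b zs y i p).im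
    (Yw b zs y i q).re (Yw b zs y i q).im
    (UU ⟨c + (Yw b zs y i q).re, ofs (b i) (zs (.inl (.inl h))).im + (Yw b zs y i q).im⟩)
    (UU ⟨(Yw b zs y i p).re + (Yw b zs y i q).re, (Yw b zs y i p).im + (Yw b zs y i q).im⟩)

/-- the gain of a digit `±1` -/
noncomputable def gn1 (b : Fin (M + 1) → ℤ) (zs : DD (tyW b) ⊕ ZZ (tyW b) → ℂ)
    (y : DD (tyW b) ⊕ ZZ (tyW b) → ℝ) (h : Fin M) (i : Fin (M + 1)) (p q : Fin 3) (c : ℝ) : ℝ :=
  R3V.g1 c (ofs (b i) (zs (.inl (.inl h))).im) (Yw b zs y i p).re (Yw b zs y i p).im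
    (Yw b zs y i q).re (Yw b zs y i q).im
    (UU ⟨c + (Yw b zs y i q).re, ofs (b i) (zs (.inl (.inl h))).im + (Yw b zs y i q).im⟩)
    (UU ⟨(Yw b zs y i p).re + (Yw b zs y i q).re, (Yw b zs y i p).im + (Yw b zs y i q).im⟩)

theorem gain_three_left (hb : ClassW b) (A : Adj h i 2 j) (hi : clsW b i = .three) {c : ℝ}
    (h0 : wcl b h ≤ c) (h1 : c ≤ wXM b h - wcr b h) :
    dV b i 2 (OY b zs y i) (pw b zs (b i) h c) = gn3 b zs y h i 2 1 c := by
  have ht : tyW b i ≠ .ring := by rw [tyW_of_three hi]; decide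
  rw [dV_three2 hb hi, pw_flat _ _ h0 h1, R3V.V3_gain, OY_one ht, OY_two]
  rfl

/-- the total gain at the slot 2 of an interior region with three crossings, the neighbour is a
`2` -/
theorem gain_three_two (hb : ClassW b) (hy : Mx b zs y) (A : Adj h i 2 j)
    (hi : clsW b i = .three) (hj : clsW b j = .two) {c : ℝ}
    (h0 : wcl b h ≤ c) (h1 : c ≤ wXM b h - wcr b h) :
    gn3 b zs y h i 2 1 c + gn3 b zs y h j 0 2 c ≤ 0 := by
  have hcl := wcl_pos (b := b) h
  have hcr := wcr_pos (b := b) h
  have hv := val_hinge hb hy A (c := c) (by linarith only [h0, hcl]) (by linarith only [h1, hcr])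
  have e0 : (2 : Fin 3).rev = 0 := rfl
  have e2 : (0 : Fin 3).rev = 2 := rfl
  have A' := A.symm
  rw [e0] at A' hv
  rw [gain_three_left hb A hi h0 h1, dV_two hb A' (Or.inl hj) (show EndOk j (OY b zs y j) from Ow_endOk _ j), e2,
    pw_flat _ _ h0 h1, R3V.V2_gain, OY_zero, OY_two] at hv
  exact hv

/-- the total gain at the slot 2 of an interior region with three crossings, the neighbour is a
`1` -/
theorem gain_three_one (hb : ClassW b) (hy : Mx b zs y) (A : Adj h i 2 j)
    (hi : clsW b i = .three) (hj : clsW b j = .one) {c : ℝ}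
    (h0 : wcl b h ≤ c) (h1 : c ≤ wXM b h - wcr b h) :
    gn3 b zs y h i 2 1 c + gn1 b zs y h j 0 2 c ≤ 0 := by
  have hcl := wcl_pos (b := b) h
  have hcr := wcr_pos (b := b) h
  have hv := val_hinge hb hy A (c := c) (by linarith only [h0, hcl]) (by linarith only [h1, hcr])
  have e0 : (2 : Fin 3).rev = 0 := rfl
  have e2 : (0 : Fin 3).rev = 2 := rfl
  have A' := A.symm
  rw [e0] at A' hv
  rw [gain_three_left hb A hi h0 h1, dV_one hb A' hj, e2,
    pw_flat _ _ h0 h1, R3V.V1_gain, OY_zero, OY_two] at hv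
  exact hv

/-! ### `3 | 2` -/

/-- **`3 | 2`** with the `3` on the left: the flat end, without any information. -/
theorem cap_three_two (A : Adj h i 2 j) (hb : ClassW b) (hL : Loc b zs) (hX : LocX b zs)
    (hy : Mx b zs y) (h0 : 0 < y (.inl (.inl h))) (hi : clsW b i = .three)
    (hj : clsW b j = .two) : y (.inl (.inl h)) ≤ 30 / 100 := by
  by_contra hcon
  push Not at hcon
  have hj1 : clsW b j ≠ .one := by rw [hj]; decide
  have hop := A.opp hb (Or.inl (by rw [hi]; decide))
  have hop' : b j * b i < 0 := by rw [mul_comm]; exact hop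
  obtain ⟨f1, f2, f3⟩ := A.par_three hi hj1
  have A' := A.symm
  have e0 : (2 : Fin 3).rev = 0 := rfl
  have e2 : (0 : Fin 3).rev = 2 := rfl
  rw [e0] at A'
  -- the heights
  have hT : ofs (b j) (zs (.inl (.inl h))).im = -ofs (b i) (zs (.inl (.inl h))).im := ofs_opp hop _
  obtain ⟨t1, t2⟩ := A.im_three hb hL hi
  rw [hj] at t1 t2
  norm_num [hbox] at t1 t2
  -- the position
  have hM := (A'.rh hy).reM
  rw [f1, A'.re] at hM
  have hxi := A.re (zs := zs) (y := y)
  have hxj := A'.re (zs := zs) (y := y)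
  -- the partner of the `2`
  obtain ⟨h', j', B⟩ := A'.other' b (clsW_inner hb (Or.inr (Or.inl hj)))
  rw [e2] at B
  obtain ⟨k1, k2⟩ := B.im_two hb hL hy hj
  have k3 := (B.rh hy).re0
  have k4 : (Yw b zs y j 2).re ≤ 80 / 100 := by
    have h1 := (B.rh hy).reM
    by_cases hj2 : clsW b j' = .one
    · have h2 : wXM b h' = 80 / 100 := by
        rw [B.XM_eq b, hj, hj2]
        unfold SR.hpp hp hp1
        split_ifs <;> rfl
      linarith only [h1, h2]
    · rw [B.XM_two hj hj2] at h1
      linarith only [h0, hM, h1]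
  -- the two sides
  have hw := A.height_three A' hi hj1 hy hcon
  have hs := A'.side_two (zs := zs) (y := y) hb (Or.inl hj) (slL b zs y h)
  rw [A.slope_three hi hj1 hcon, e2] at hs
  rcases le_total (y (.inl (.inl h))) (56 / 100) with h56 | h56
  · have s1 := A.own_three_two hb hL hX hy hi hj hcon h56
    have s2 := MR.r32o_two (w := Yw b zs y j 0) (v := Yw b zs y j 2)
      (T := ofs (b j) (zs (.inl (.inl h))).im) (by rw [hT]; linarith only [t2]) (by rw [hT]; linarith only [t1]) hw
      (by rw [hxj]; linarith only [hcon]) (by rw [hxj]; linarith only [h56]) (le_trans (by norm_num) k3) (le_trans k4 (by norm_num)) k1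
      (le_trans k2 (by norm_num))
    rw [← hs] at s2
    exact rstep_false hb hy h0 (RStep.of_adj A (c := 0) (fun _ => rfl)
      (e1 := Sw b zs y i 2 (slL b zs y h)) (e2 := Sw b zs y j 0 (slL b zs y h))
      (by rw [hT] at s2; linarith only [s1, s2]) (by linarith only []) (by
        show Sw b zs y j 0 (slL b zs y h) + 0 * ofs (b j) (slL b zs y h) ≤ _
        linarith only []))
  · rcases le_total (Yw b zs y i 1).re (70 / 100) with hv | hv
    · have s1 := A.own_three_two_b hb hL hX hy hi hj h56 hv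
      have s2 := MR.r32o_two_b (w := Yw b zs y j 0) (v := Yw b zs y j 2)
        (T := ofs (b j) (zs (.inl (.inl h))).im) (by rw [hT]; linarith only [t2]) (by rw [hT]; linarith only [t1]) hw
        (by rw [hxj]; linarith only [h56]) (by rw [hxj]; linarith only [hM]) (le_trans (by norm_num) k3) (le_trans k4 (by norm_num)) k1
        (le_trans k2 (by norm_num))
      rw [← hs] at s2
      exact rstep_false hb hy h0 (RStep.of_adj A (c := 0) (fun _ => rfl)
        (e1 := Sw b zs y i 2 (slL b zs y h)) (e2 := Sw b zs y j 0 (slL b zs y h))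
        (by rw [hT] at s2; linarith only [s1, s2]) (by linarith only []) (by
          show Sw b zs y j 0 (slL b zs y h) + 0 * ofs (b j) (slL b zs y h) ≤ _
          linarith only []))
    · obtain ⟨g1, g2, g3, g4⟩ := A.mid_three hb hX hy hi (a := -(116 / 1000)) (c := 5 / 1000)
        (by norm_num) (by norm_num) (fun P => by rw [hj]; cases P <;> norm_num [mw])
      have q := gain_three_two hb hy A hi hj (c := 20 / 100) (by rw [f2]; norm_num)
        (by rw [f1, f3]; norm_num)
      have q1 := R3V.c2_own (w := Yw b zs y i 2) (v := Yw b zs y i 1)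
        (T := ofs (b i) (zs (.inl (.inl h))).im) t1 (le_trans t2 (by norm_num))
        (A.height_three A hi hj1 hy hcon) (by rw [hxi]; linarith only [h56]) (by rw [hxi]; linarith only [hM]) hv g2 g3
        g4
      have q2 := R3V.c2_two (w := Yw b zs y j 0) (v := Yw b zs y j 2)
        (T := ofs (b j) (zs (.inl (.inl h))).im) (by rw [hT]; linarith only [t2]) (by rw [hT]; linarith only [t1]) hw
        (by rw [hxj]; linarith only [h56]) (by rw [hxj]; linarith only [hM]) k3 (le_trans k4 (by norm_num)) k1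
        k2
      unfold gn3 at q
      linarith only [q, q1, q2]

/-! ### `3 | 1` -/

/-- the parameters of the hinge -/
theorem Adj.par_three_one (A : Adj h i 2 j) (hi : clsW b i = .three) (hj : clsW b j = .one) :
    wXM b h = 65 / 100 ∧ wcl b h = 15 / 100 ∧ wcr b h = 29 / 100 := by
  rw [A.XM_eq b, A.cl_eq b, A.cr_eq b, hi, hj]
  unfold hpp
  rw [if_pos rfl]
  simp [hp]

/-- the inner variable, the neighbour in the slot 2 is a `1` -/
theorem Adj.mid_three_one (A : Adj h i 2 j) (hb : ClassW b) (hX : LocX b zs) (hy : Mx b zs y)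
    (hi : clsW b i = .three) (hj : clsW b j = .one) :
    0 ≤ (Yw b zs y i 1).re ∧ (Yw b zs y i 1).re ≤ 8 / 10 ∧
      -(123 / 1000) ≤ (Yw b zs y i 1).im ∧ (Yw b zs y i 1).im ≤ 0 ∧
      ((Yw b zs y i 1).re ≤ 5 / 100 → (Yw b zs y i 1).im ≤ -(3 / 10) * (Yw b zs y i 1).re) ∧
      (5 / 100 ≤ (Yw b zs y i 1).re → (Yw b zs y i 1).re ≤ 75 / 100 →
        (Yw b zs y i 1).im ≤ -(15 / 1000)) ∧
      (75 / 100 ≤ (Yw b zs y i 1).re →
        (Yw b zs y i 1).im + 3 / 10 * (8 / 10 - (Yw b zs y i 1).re) ≤ 0) := by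
  obtain ⟨h', j', A'⟩ := A.other' b (clsW_inner hb (Or.inr (Or.inr hi)))
  have e0 : (2 : Fin 3).rev = 0 := rfl
  rw [e0] at A'
  have hm := tyW_isMid (Or.inl hi)
  obtain ⟨h1, h2, -, -⟩ := hX.mid hm A' A hi
  have h3 := mid_RH hy ⟨i, hm⟩
  have e1 : (wpar b zs).XM (.inr ⟨i, hm⟩) = 80 / 100 := by
    show (mp (clsW b i)).XM = 80 / 100
    rw [hi]; norm_num [mp]
  have e2 : (wpar b zs).cl (.inr ⟨i, hm⟩) = 5 / 100 := by
    show (mp (clsW b i)).cl = 5 / 100
    rw [hi]; rfl
  have e3 : (wpar b zs).cr (.inr ⟨i, hm⟩) = 5 / 100 := by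
    show (mp (clsW b i)).cr = 5 / 100
    rw [hi]; rfl
  rw [e1, e2, e3] at h3
  rw [hj] at h1 h2
  have w1 : -(123 / 1000) ≤ (mw (clsW b j') .one).t0 := by
    generalize clsW b j' = P
    cases P <;> norm_num [mw]
  have w2 : (mw (clsW b j') .one).t1 ≤ -(15 / 1000) := by
    generalize clsW b j' = P
    cases P <;> norm_num [mw]
  have t0 := w1.trans h1
  have t1 := h2.trans w2
  generalize ofs (b i) (zs (.inl (.inr ⟨i, hm⟩))).im = T at h3 t0 t1
  have h4 := h3.reM
  have h5 := h3.re0
  obtain ⟨k1, k2⟩ := MR.RH_im_mem h3 (a := -(123 / 1000)) (b := 0) (by norm_num) le_rfl t0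
    (le_trans t1 (by norm_num))
  refine ⟨h5, by linarith only [hm, h4], k1, k2, fun q => ?_, fun q q' => ?_, fun q => ?_⟩
  · rw [MR.RH_left h3 (by norm_num) (by norm_num) (by norm_num) q]
    nlinarith only [hm, t1, h5]
  · rw [MR.RH_flat h3 (by norm_num) (by norm_num) q (le_trans q' (by norm_num))]
    exact t1
  · rw [MR.RH_right h3 (by norm_num) (by norm_num) (by norm_num) (le_trans (by norm_num) q)]
    nlinarith only [hm, t1, h4]

/-- the slope on the right ramp -/
theorem Adj.slope_three_one (A : Adj h i 2 j) (hi : clsW b i = .three) (hj : clsW b j = .one)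
    (hx : 36 / 100 < y (.inl (.inl h))) (c : ℤ) : ofs c (slL b zs y h) =
      MR.mR 29 (ofs c (zs (.inl (.inl h))).im) := by
  obtain ⟨e1, e2, e3⟩ := A.par_three_one hi hj
  rw [ofs_slL_ramp _ (by rw [e1, e3]; linarith only [hx]), e3]
  unfold MR.mR
  push_cast
  rw [neg_div]

/-- the height on the right ramp -/
theorem Adj.height_three_one {i' j' : Fin (M + 1)} {q : Fin 3} (A : Adj h i 2 j)
    (A' : Adj h i' q j') (hi : clsW b i = .three) (hj : clsW b j = .one) (hy : Mx b zs y)
    (hx : 36 / 100 < y (.inl (.inl h))) : (Yw b zs y i' q).im =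
      MR.tR 65 29 (Yw b zs y i' q).re (ofs (b i') (zs (.inl (.inl h))).im) := by
  obtain ⟨e1, e2, e3⟩ := A.par_three_one hi hj
  have hrh := A'.rh hy
  rw [e1, e2, e3] at hrh
  have h1 := MR.RH_right hrh (by norm_num) (by norm_num) (by norm_num)
    (by rw [A'.re]; linarith only [hx])
  rw [h1]
  unfold MR.tR
  push_cast
  rfl

/-- the caps of `3 | 1`, `Q` the class of the other neighbour of the digit `1` -/
noncomputable def cap31 (Q : Cl) : ℝ :=
  match Q with
  | .two => 385 / 1000
  | .twoE => 37 / 100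
  | _ => 36 / 100

/-- **`3 | 1`** with the `3` on the left, without any information. -/
theorem cap_three_one (A : Adj h i 2 j) (B : Adj h' j 2 k) (hb : ClassW b) (hL : Loc b zs)
    (hX : LocX b zs) (hy : Mx b zs y) (h0 : 0 < y (.inl (.inl h))) (hi : clsW b i = .three)
    (hj : clsW b j = .one) : y (.inl (.inl h)) ≤ cap31 (clsW b k) := by
  by_contra hcon
  push Not at hcon
  have hop := A.opp hb (Or.inl (by rw [hi]; decide))
  have A' := A.symm
  have e0 : (2 : Fin 3).rev = 0 := rfl
  have e2 : (0 : Fin 3).rev = 2 := rfl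
  rw [e0] at A'
  have hT : ofs (b j) (zs (.inl (.inl h))).im = -ofs (b i) (zs (.inl (.inl h))).im := ofs_opp hop _
  obtain ⟨f1, f2, f3⟩ := A.par_three_one hi hj
  have hM := (A'.rh hy).reM
  rw [f1, A'.re] at hM
  have hxi := A.re (zs := zs) (y := y)
  have hxj := A'.re (zs := zs) (y := y)
  obtain ⟨m1, m2, m3, m4, m5, m6, m7⟩ := A.mid_three_one hb hX hy hi hj
  -- the windows
  have B' : Adj h' j (0 : Fin 3).rev k := B
  have A'' : Adj h j (2 : Fin 3).rev i := A'
  obtain ⟨a0, a1, a2, a3⟩ := hX.win A' B' hj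
  obtain ⟨b0, b1, -, -⟩ := hX.win B A'' hj
  rw [hi] at a0 a1 a2 a3 b0 b1
  have hB := B.rh hy
  have hok := okp_of hb B A'' hj
  have hQ : clsW b k = .one ∨ clsW b k = .two ∨ clsW b k = .twoE := by
    rcases hok with h1 | h1
    · exact h1
    · rw [hi] at h1
      simp at h1
  have h36 : 36 / 100 < y (.inl (.inl h)) := by
    rcases hQ with h1 | h1 | h1 <;> rw [h1] at hcon <;> simp only [cap31] at hcon <;> linarith only [hcon, h0]
  have hwi := A.height_three_one A hi hj hy h36
  have hwj := A.height_three_one A' hi hj hy h36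
  have hsi := A.side_three_two (zs := zs) (y := y) hb hi (slL b zs y h)
  have hsj := A'.side_one (zs := zs) (y := y) hb hj (slL b zs y h)
  rw [A.slope_three_one hi hj h36] at hsi hsj
  rw [e2] at hsj
  have fin : ∀ e : ℝ, Sw b zs y i 2 (slL b zs y h) < e → Sw b zs y j 0 (slL b zs y h) < -e →
      False := by
    intro e s1 s2
    exact rstep_false hb hy h0 (RStep.of_adj A (c := 0) (fun _ => rfl)
      (e1 := Sw b zs y i 2 (slL b zs y h)) (e2 := Sw b zs y j 0 (slL b zs y h))
      (by linarith only [s1, s2]) (by linarith only []) (by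
        show Sw b zs y j 0 (slL b zs y h) + 0 * ofs (b j) (slL b zs y h) ≤ _
        linarith only []))
  have q : gn3 b zs y h i 2 1 (26 / 100) + gn1 b zs y h j 0 2 (26 / 100) ≤ 0 :=
    gain_three_one hb hy A hi hj (by rw [f2]; norm_num) (by rw [f1, f3]; norm_num)
  unfold gn3 gn1 at q
  rcases hQ with hk | hk | hk
  · rw [hk] at a0 a1 a2 a3 b0 b1
    norm_num [cw] at a0 a1 a2 a3 b0 b1
    have hcl : wcl b h' = 15 / 100 := by
      rw [B.cl_eq b, hj, hk]; unfold SR.hpp hp; split_ifs <;> rfl
    have hcr : wcr b h' = 20 / 100 := by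
      rw [B.cr_eq b, hj, hk]; unfold SR.hpp hp; split_ifs <;> rfl
    have hXM : 80 / 100 ≤ wXM b h' ∧ wXM b h' ≤ 86 / 100 := by
      rw [B.XM_eq b, hj, hk]; unfold SR.hpp hp; split_ifs <;> norm_num
    rw [hcl, hcr] at hB
    have hP := MR.PH.of_RH hB (by norm_num) (by norm_num) (by linarith only [h0, hM, hXM]) hXM.2
    rcases le_total (1 / 2) (Yw b zs y i 1).re with hv | hv
    · have q1 := R3V.o1_gain (w := Yw b zs y i 2) (v := Yw b zs y i 1)
        (T := ofs (b i) (zs (.inl (.inl h))).im) (by linarith only [hT, a1]) (by linarith only [hT, a0]) hwi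
        (by rw [hxi]; linarith only [h36]) (by rw [hxi]; linarith only [hM]) (le_trans (by norm_num) hv) m2 m3 m4
        (fun r => m6 (le_trans (by norm_num) hv) r) m7
      have q2 := R3V.d1_gain (w := Yw b zs y j 0) (v := Yw b zs y j 2)
        (T := ofs (b j) (zs (.inl (.inl h))).im) (le_trans (by norm_num) a0) (le_trans a1 (by norm_num)) hwj
        (by rw [hxj]; linarith only [h36]) (by rw [hxj]; linarith only [hM]) hP b0 b1
        (le_trans (by norm_num) a2) a3
      rw [hxi] at q1
      rw [hxj] at q2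
      rw [hxi, hxj] at q
      linarith only [q, q1, q2]
    · rcases le_total (y (.inl (.inl h))) (56 / 100) with h56 | h56
      · have s1 := MR.r31_one (w := Yw b zs y i 2) (v := Yw b zs y i 1)
          (T := ofs (b i) (zs (.inl (.inl h))).im) (by linarith only [hT, a1]) (by linarith only [hT, a0]) hwi
          (by rw [hxi]; linarith only [h36]) (by rw [hxi]; linarith only [h56]) m1 (le_trans hv (by norm_num)) m3 m5
          (fun r => m6 r (le_trans hv (by norm_num)))
        have s2 := MR.r31d_one (w := Yw b zs y j 0) (v := Yw b zs y j 2)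
          (T := ofs (b j) (zs (.inl (.inl h))).im) (le_trans (by norm_num) a0) (le_trans a1 (by norm_num)) hwj
          (by rw [hxj]; linarith only [h36]) (by rw [hxj]; linarith only [h56]) hP (le_trans (by norm_num) b0) (le_trans b1 (by norm_num))
          (le_trans (by norm_num) a2) a3
        rw [← hsi] at s1
        rw [← hsj] at s2
        exact fin _ s1 (by rw [hT] at s2; linarith only [s2])
      · have s1 := MR.r31_one_b (w := Yw b zs y i 2) (v := Yw b zs y i 1)
          (T := ofs (b i) (zs (.inl (.inl h))).im) (by linarith only [hT, a1]) (by linarith only [hT, a0]) hwi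
          (by rw [hxi]; linarith only [h56]) (by rw [hxi]; linarith only [hM]) m1 (le_trans hv (by norm_num)) m3 m5
          (fun r => m6 r (le_trans hv (by norm_num)))
        have s2 := MR.r31d_one_b (w := Yw b zs y j 0) (v := Yw b zs y j 2)
          (T := ofs (b j) (zs (.inl (.inl h))).im) (le_trans (by norm_num) a0) (le_trans a1 (by norm_num)) hwj
          (by rw [hxj]; linarith only [h56]) (by rw [hxj]; linarith only [hM]) hP (le_trans (by norm_num) b0) (le_trans b1 (by norm_num))
          (le_trans (by norm_num) a2) a3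
        rw [← hsi] at s1
        rw [← hsj] at s2
        exact fin _ s1 (by rw [hT] at s2; linarith only [s2])
  · rw [hk] at a0 a1 a2 a3 b0 b1 hcon
    norm_num [cw] at a0 a1 a2 a3 b0 b1
    simp only [cap31] at hcon
    have hcl : wcl b h' = 16 / 100 := by
      rw [B.cl_eq b, hj, hk]; unfold SR.hpp hp hp1; split_ifs <;> rfl
    have hcr : wcr b h' = 29 / 100 := by
      rw [B.cr_eq b, hj, hk]; unfold SR.hpp hp hp1; split_ifs <;> rfl
    have hXM : wXM b h' = 80 / 100 := by
      rw [B.XM_eq b, hj, hk]; unfold SR.hpp hp hp1; split_ifs <;> rfl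
    rw [hcl, hcr, hXM] at hB
    have hP := MR.PH.of_RH hB (by norm_num) (by norm_num) (by norm_num) le_rfl
    rcases le_total (1 / 2) (Yw b zs y i 1).re with hv | hv
    · have q1 := R3V.o2_gain (w := Yw b zs y i 2) (v := Yw b zs y i 1)
        (T := ofs (b i) (zs (.inl (.inl h))).im) (by linarith only [hT, a1]) (by linarith only [hT, a0]) hwi
        (by rw [hxi]; linarith only [hcon]) (by rw [hxi]; linarith only [hM]) (le_trans (by norm_num) hv) m2 m3 m4
        (fun r => m6 (le_trans (by norm_num) hv) r) m7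
      have q2 := R3V.d2_gain (w := Yw b zs y j 0) (v := Yw b zs y j 2)
        (T := ofs (b j) (zs (.inl (.inl h))).im) (le_trans (by norm_num) a0) (le_trans a1 (by norm_num)) hwj
        (by rw [hxj]; linarith only [hcon]) (by rw [hxj]; linarith only [hM]) hP (le_trans (by norm_num) b0) b1
        (le_trans a3 (by norm_num))
      rw [hxi] at q1
      rw [hxj] at q2
      rw [hxi, hxj] at q
      linarith only [q, q1, q2]
    · have s1 := MR.r31_two (w := Yw b zs y i 2) (v := Yw b zs y i 1)
        (T := ofs (b i) (zs (.inl (.inl h))).im) (by linarith only [hT, a1]) (by linarith only [hT, a0]) hwi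
        (by rw [hxi]; linarith only [hcon]) (by rw [hxi]; linarith only [hM]) m1 (le_trans hv (by norm_num)) m3 m5
        (fun r => m6 r (le_trans hv (by norm_num)))
      have s2 := MR.r31d_two (w := Yw b zs y j 0) (v := Yw b zs y j 2)
        (T := ofs (b j) (zs (.inl (.inl h))).im) (le_trans (by norm_num) a0) (le_trans a1 (by norm_num)) hwj
        (by rw [hxj]; linarith only [hcon]) (by rw [hxj]; linarith only [hM]) hP (le_trans (by norm_num) b0) (le_trans b1 (by norm_num))
        (le_trans a3 (by norm_num))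
      rw [← hsi] at s1
      rw [← hsj] at s2
      exact fin _ s1 (by rw [hT] at s2; linarith only [s2])
  · rw [hk] at a0 a1 a2 a3 b0 b1 hcon
    norm_num [cw] at a0 a1 a2 a3 b0 b1
    simp only [cap31] at hcon
    have hcl : wcl b h' = 14 / 100 := by
      rw [B.cl_eq b, hj, hk]; unfold SR.hpp hp hp1; split_ifs <;> rfl
    have hcr : wcr b h' = 35 / 100 := by
      rw [B.cr_eq b, hj, hk]; unfold SR.hpp hp hp1; split_ifs <;> rfl
    have hXM : wXM b h' = 70 / 100 := by
      rw [B.XM_eq b, hj, hk]; unfold SR.hpp hp hp1; split_ifs <;> rfl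
    rw [hcl, hcr, hXM] at hB
    have hP := MR.PH.of_RH hB (by norm_num) (by norm_num) (by norm_num) le_rfl
    rcases le_total (1 / 2) (Yw b zs y i 1).re with hv | hv
    · have q1 := R3V.oE_gain (w := Yw b zs y i 2) (v := Yw b zs y i 1)
        (T := ofs (b i) (zs (.inl (.inl h))).im) (by linarith only [hT, a1]) (by linarith only [hT, a0]) hwi
        (by rw [hxi]; linarith only [hcon]) (by rw [hxi]; linarith only [hM]) (le_trans (by norm_num) hv) m2 m3 m4
        (fun r => m6 (le_trans (by norm_num) hv) r) m7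
      have q2 := R3V.dE_gain (w := Yw b zs y j 0) (v := Yw b zs y j 2)
        (T := ofs (b j) (zs (.inl (.inl h))).im) (le_trans (by norm_num) a0) (le_trans a1 (by norm_num)) hwj
        (by rw [hxj]; linarith only [hcon]) (by rw [hxj]; linarith only [hM]) hP (le_trans (by norm_num) b0) (le_trans b1 (by norm_num))
      rw [hxi] at q1
      rw [hxj] at q2
      rw [hxi, hxj] at q
      linarith only [q, q1, q2]
    · rcases le_total (y (.inl (.inl h))) (52 / 100) with h52 | h52
      · have s1 := MR.r31_twoE (w := Yw b zs y i 2) (v := Yw b zs y i 1)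
          (T := ofs (b i) (zs (.inl (.inl h))).im) (by linarith only [hT, a1]) (by linarith only [hT, a0]) hwi
          (by rw [hxi]; linarith only [hcon]) (by rw [hxi]; linarith only [h52]) m1 (le_trans hv (by norm_num)) m3 m5
          (fun r => m6 r (le_trans hv (by norm_num)))
        have s2 := MR.r31d_twoE (w := Yw b zs y j 0) (v := Yw b zs y j 2)
          (T := ofs (b j) (zs (.inl (.inl h))).im) (le_trans (by norm_num) a0) (le_trans a1 (by norm_num)) hwj
          (by rw [hxj]; linarith only [hcon]) (by rw [hxj]; linarith only [h52]) hP (le_trans (by norm_num) b0) (le_trans b1 (by norm_num))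
        rw [← hsi] at s1
        rw [← hsj] at s2
        exact fin _ s1 (by rw [hT] at s2; linarith only [s2])
      · have s1 := MR.r31_twoE_b (w := Yw b zs y i 2) (v := Yw b zs y i 1)
          (T := ofs (b i) (zs (.inl (.inl h))).im) (by linarith only [hT, a1]) (by linarith only [hT, a0]) hwi
          (by rw [hxi]; linarith only [h52]) (by rw [hxi]; linarith only [hM]) m1 (le_trans hv (by norm_num)) m3 m5
          (fun r => m6 r (le_trans hv (by norm_num)))
        have s2 := MR.r31d_twoE_b (w := Yw b zs y j 0) (v := Yw b zs y j 2)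
          (T := ofs (b j) (zs (.inl (.inl h))).im) (le_trans (by norm_num) a0) (le_trans a1 (by norm_num)) hwj
          (by rw [hxj]; linarith only [h52]) (by rw [hxj]; linarith only [hM]) hP (le_trans (by norm_num) b0) (le_trans b1 (by norm_num))
        rw [← hsi] at s1
        rw [← hsj] at s2
        exact fin _ s1 (by rw [hT] at s2; linarith only [s2])

end SR

end Pool.Agent.Work.MP_b30479_gt.G2
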