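import Pool.Agent.Work.MP_b30479_gt.G2.R32A
import Pool.Agent.Work.NumI.ChkS

/-!
# Right ramp of the slot-2 hinge of an interior region with three crossings: sides of the digit 2

`w` is the hinge, `v` the inner variable.
-/

set_option linter.unusedSimpArgs false
set_option linter.unusedVariables false

namespace Pool.Agent.Work.MP_b30479_gt.G2

open VOL NumI

namespace MR

open E

/-- bound -/
def F_r32o_two : E := add (q 15 100) (mul (q 32 10) (var 1))

theorem r32o_two_h1 : chk [S2E 60 30 F_r32o_two, sub uE (q 5 6)] 24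
    [V.of 10000 3000 5600, V.of 10000 (-50) 570, V.of 10000 0 5334, V.of 10000 (-985) 960] = true := by
  decide +kernel

theorem r32o_two_h2 : chk [N2E 60 30 F_r32o_two 1, sub (q 5 6) uE, sub uE (q 7 6), q 0 1] 24
    [V.of 10000 3000 5600, V.of 10000 (-50) 0, V.of 10000 2733 8000, V.of 10000 (-985) 960] = true := by
  decide +kernel

theorem r32o_two_h3 : chk [N2E 60 30 F_r32o_two (-1), sub (q 5 6) uE, sub uE (q 7 6), yE 60 30] 24
    [V.of 10000 3000 5600, V.of 10000 0 570, V.of 10000 2733 8000, V.of 10000 (-985) 960] = true := by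
  decide +kernel

theorem r32o_two_h4 : chk [N2E 60 30 F_r32o_two 0, sub (q 5 6) uE, sub uE (q 7 6), neg (yE 60 30)] 24
    [V.of 10000 3000 5600, V.of 10000 0 570, V.of 10000 2733 8000, V.of 10000 (-985) 960] = true := by
  decide +kernel

theorem r32o_two_h5 : chk [B2E 60 30 F_r32o_two 1, sub (q 7 6) uE, q 0 1] 24
    [V.of 10000 3000 5600, V.of 10000 (-50) 0, V.of 10000 6066 8000, V.of 10000 (-985) 960] = true := by
  decide +kernel

theorem r32o_two_h6 : chk [B2E 60 30 F_r32o_two (-1), sub (q 7 6) uE, yE 60 30] 24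
    [V.of 10000 3000 5600, V.of 10000 0 570, V.of 10000 6066 8000, V.of 10000 (-985) 960] = true := by
  decide +kernel

theorem r32o_two_h7 : chk [B2E 60 30 F_r32o_two 0, sub (q 7 6) uE, neg (yE 60 30)] 24
    [V.of 10000 3000 5600, V.of 10000 0 570, V.of 10000 6066 8000, V.of 10000 (-985) 960] = true := by
  decide +kernel

/-- the side of the `2` at `3 | 2` -/
theorem r32o_two {w v : ℂ} {T : ℝ} (hT : -(50 / 10000) ≤ T) (hT' : T ≤ 570 / 10000)
    (hw : w.im = tR 60 30 w.re T) (hx : 3000 / 10000 ≤ w.re) (hx' : w.re ≤ 5600 / 10000)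
    (v0 : 0 / 10000 ≤ v.re) (v1 : v.re ≤ 8000 / 10000) (i0 : -(985 / 10000) ≤ v.im) (i1 : v.im ≤ 960 / 10000) :
    S2 1 (mR 30 T) w v < 15 / 100 + 32 / 10 * T := by
  have hF : F_r32o_two.val [w.re, T, v.re, v.im] = 15 / 100 + 32 / 10 * T := by
    simp only [F_r32o_two, E.val, lkR]
    push_cast
    ring
  rw [← hF]
  have hre : (w + v).re = w.re + v.re := Complex.add_re _ _
  have him : (w + v).im = w.im + v.im := Complex.add_im _ _
  apply S2_zone (by linarith only [hx]) (by linarith only [hx']) (by linarith only [v0]) (by linarith only [hx', v1])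
  · intro h5
    rw [hw]
    exact z2S (F := F_r32o_two) (XM := 60) (cr := 30) (fuel := 24) (h := r32o_two_h1)
      ⟨by norm_num; linarith only [hx], by norm_num; linarith only [hx']⟩ ⟨by norm_num; linarith only [hT], by norm_num; linarith only [hT']⟩ ⟨by norm_num; linarith only [v0], by norm_num; linarith only [hx, h5]⟩
      ⟨by norm_num; linarith only [i0], by norm_num; linarith only [i1]⟩ h5
  · intro h5 h6
    rcases le_total T 0 with hT0 | hT0
    · refine ⟨((1 : ℤ) : ℝ), by simpa using mul_YY_01 (mR_nonneg hT0) (by rw [hre]; linarith only [h5]) (by rw [hre]; linarith only [hx', v1]), ?_⟩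
      rw [hw]
      exact z2N (s := q 0 1) (F := F_r32o_two) (r := 1) (XM := 60) (cr := 30) (fuel := 24) (h := r32o_two_h2)
            ⟨by norm_num; linarith only [hx], by norm_num; linarith only [hx']⟩ ⟨by norm_num; linarith only [hT], by norm_num; linarith only [hT0]⟩ ⟨by norm_num; linarith only [hx', h5], by norm_num; linarith only [v1]⟩
            ⟨by norm_num; linarith only [i0], by norm_num; linarith only [i1]⟩ h5 h6 q0_val
    · rcases le_total (w.im + v.im) 0 with hs | hs
      · refine ⟨((-1 : ℤ) : ℝ), by simpa using mul_YY_11 (mR_nonpos hT0) (by rw [hre]; linarith only [h5]) (by rw [hre]; linarith only [hx', v1]), ?_⟩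
        rw [hw] at hs ⊢
        exact z2N (s := yE 60 30) (F := F_r32o_two) (r := (-1)) (XM := 60) (cr := 30) (fuel := 24) (h := r32o_two_h3)
            ⟨by norm_num; linarith only [hx], by norm_num; linarith only [hx']⟩ ⟨by norm_num; linarith only [hT0], by norm_num; linarith only [hT']⟩ ⟨by norm_num; linarith only [hx', h5], by norm_num; linarith only [v1]⟩
            ⟨by norm_num; linarith only [i0], by norm_num; linarith only [i1]⟩ h5 h6 (yE_le hs)
      · refine ⟨((0 : ℤ) : ℝ), by simpa using mul_YY_10 (mR_nonpos hT0) (by rw [hre]; linarith only [h5]) (by rw [him]; exact hs), ?_⟩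
        rw [hw] at hs ⊢
        exact z2N (s := neg (yE 60 30)) (F := F_r32o_two) (r := 0) (XM := 60) (cr := 30) (fuel := 24) (h := r32o_two_h4)
            ⟨by norm_num; linarith only [hx], by norm_num; linarith only [hx']⟩ ⟨by norm_num; linarith only [hT0], by norm_num; linarith only [hT']⟩ ⟨by norm_num; linarith only [hx', h5], by norm_num; linarith only [v1]⟩
            ⟨by norm_num; linarith only [i0], by norm_num; linarith only [i1]⟩ h5 h6 (neg_yE_le hs)
  · intro h5
    rcases le_total T 0 with hT0 | hT0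
    · refine ⟨((1 : ℤ) : ℝ), by simpa using mul_YY_01 (mR_nonneg hT0) (by rw [hre]; linarith only [h5]) (by rw [hre]; linarith only [hx', v1]), ?_⟩
      rw [hw]
      exact z2B (s := q 0 1) (F := F_r32o_two) (r := 1) (XM := 60) (cr := 30) (fuel := 24) (h := r32o_two_h5)
            ⟨by norm_num; linarith only [hx], by norm_num; linarith only [hx']⟩ ⟨by norm_num; linarith only [hT], by norm_num; linarith only [hT0]⟩ ⟨by norm_num; linarith only [hx', h5], by norm_num; linarith only [v1]⟩
            ⟨by norm_num; linarith only [i0], by norm_num; linarith only [i1]⟩ h5 q0_val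
    · rcases le_total (w.im + v.im) 0 with hs | hs
      · refine ⟨((-1 : ℤ) : ℝ), by simpa using mul_YY_11 (mR_nonpos hT0) (by rw [hre]; linarith only [h5]) (by rw [hre]; linarith only [hx', v1]), ?_⟩
        rw [hw] at hs ⊢
        exact z2B (s := yE 60 30) (F := F_r32o_two) (r := (-1)) (XM := 60) (cr := 30) (fuel := 24) (h := r32o_two_h6)
            ⟨by norm_num; linarith only [hx], by norm_num; linarith only [hx']⟩ ⟨by norm_num; linarith only [hT0], by norm_num; linarith only [hT']⟩ ⟨by norm_num; linarith only [hx', h5], by norm_num; linarith only [v1]⟩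
            ⟨by norm_num; linarith only [i0], by norm_num; linarith only [i1]⟩ h5 (yE_le hs)
      · refine ⟨((0 : ℤ) : ℝ), by simpa using mul_YY_10 (mR_nonpos hT0) (by rw [hre]; linarith only [h5]) (by rw [him]; exact hs), ?_⟩
        rw [hw] at hs ⊢
        exact z2B (s := neg (yE 60 30)) (F := F_r32o_two) (r := 0) (XM := 60) (cr := 30) (fuel := 24) (h := r32o_two_h7)
            ⟨by norm_num; linarith only [hx], by norm_num; linarith only [hx']⟩ ⟨by norm_num; linarith only [hT0], by norm_num; linarith only [hT']⟩ ⟨by norm_num; linarith only [hx', h5], by norm_num; linarith only [v1]⟩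
            ⟨by norm_num; linarith only [i0], by norm_num; linarith only [i1]⟩ h5 (neg_yE_le hs)

/-- bound -/
def F_r32o_two_b : E := add (q 17 100) (mul (q 34 10) (var 1))

/-- the side of the `2` at `3 | 2`, near the right end -/
theorem r32o_two_b {w v : ℂ} {T : ℝ} (hT : -(50 / 10000) ≤ T) (hT' : T ≤ 570 / 10000)
    (hw : w.im = tR 60 30 w.re T) (hx : 5600 / 10000 ≤ w.re) (hx' : w.re ≤ 6000 / 10000)
    (v0 : 0 / 10000 ≤ v.re) (v1 : v.re ≤ 8000 / 10000) (i0 : -(985 / 10000) ≤ v.im) (i1 : v.im ≤ 960 / 10000) :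
    S2 1 (mR 30 T) w v < 17 / 100 + 34 / 10 * T := by
  have hF : F_r32o_two_b.val [w.re, T, v.re, v.im] = 17 / 100 + 34 / 10 * T := by
    simp only [F_r32o_two_b, E.val, lkR]
    push_cast
    ring
  rw [← hF]
  have hre : (w + v).re = w.re + v.re := Complex.add_re _ _
  have him : (w + v).im = w.im + v.im := Complex.add_im _ _
  apply S2_zone (by linarith only [hx]) (by linarith only [hx']) (by linarith only [v0]) (by linarith only [hx', v1])
  · intro h5
    rw [hw]
    exact z2S (F := F_r32o_two_b) (XM := 60) (cr := 30) (fuel := 24) (h := (by decide +kernel : chk [S2E 60 30 F_r32o_two_b, sub uE (q 5 6)] 24 [V.of 10000 5600 6000, V.of 10000 (-50) 570, V.of 10000 0 2734, V.of 10000 (-985) 960] = true))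
      ⟨by norm_num; linarith only [hx], by norm_num; linarith only [hx']⟩ ⟨by norm_num; linarith only [hT], by norm_num; linarith only [hT']⟩ ⟨by norm_num; linarith only [v0], by norm_num; linarith only [hx, h5]⟩
      ⟨by norm_num; linarith only [i0], by norm_num; linarith only [i1]⟩ h5
  · intro h5 h6
    rcases le_total T 0 with hT0 | hT0
    · refine ⟨((1 : ℤ) : ℝ), by simpa using mul_YY_01 (mR_nonneg hT0) (by rw [hre]; linarith only [h5]) (by rw [hre]; linarith only [hx', v1]), ?_⟩
      rw [hw]
      exact z2N (s := q 0 1) (F := F_r32o_two_b) (r := 1) (XM := 60) (cr := 30) (fuel := 24) (h := (by decide +kernel : chk [N2E 60 30 F_r32o_two_b 1, sub (q 5 6) uE, sub uE (q 7 6), q 0 1] 24 [V.of 10000 5600 6000, V.of 10000 (-50) 0, V.of 10000 2333 6067, V.of 10000 (-985) 960] = true))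
            ⟨by norm_num; linarith only [hx], by norm_num; linarith only [hx']⟩ ⟨by norm_num; linarith only [hT], by norm_num; linarith only [hT0]⟩ ⟨by norm_num; linarith only [hx', h5], by norm_num; linarith only [hx, h6]⟩
            ⟨by norm_num; linarith only [i0], by norm_num; linarith only [i1]⟩ h5 h6 q0_val
    · rcases le_total (w.im + v.im) 0 with hs | hs
      · refine ⟨((-1 : ℤ) : ℝ), by simpa using mul_YY_11 (mR_nonpos hT0) (by rw [hre]; linarith only [h5]) (by rw [hre]; linarith only [hx', v1]), ?_⟩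
        rw [hw] at hs ⊢
        exact z2N (s := yE 60 30) (F := F_r32o_two_b) (r := (-1)) (XM := 60) (cr := 30) (fuel := 24) (h := (by decide +kernel : chk [N2E 60 30 F_r32o_two_b (-1), sub (q 5 6) uE, sub uE (q 7 6), yE 60 30] 24 [V.of 10000 5600 6000, V.of 10000 0 570, V.of 10000 2333 6067, V.of 10000 (-985) 960] = true))
            ⟨by norm_num; linarith only [hx], by norm_num; linarith only [hx']⟩ ⟨by norm_num; linarith only [hT0], by norm_num; linarith only [hT']⟩ ⟨by norm_num; linarith only [hx', h5], by norm_num; linarith only [hx, h6]⟩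
            ⟨by norm_num; linarith only [i0], by norm_num; linarith only [i1]⟩ h5 h6 (yE_le hs)
      · refine ⟨((0 : ℤ) : ℝ), by simpa using mul_YY_10 (mR_nonpos hT0) (by rw [hre]; linarith only [h5]) (by rw [him]; exact hs), ?_⟩
        rw [hw] at hs ⊢
        exact z2N (s := neg (yE 60 30)) (F := F_r32o_two_b) (r := 0) (XM := 60) (cr := 30) (fuel := 24) (h := (by decide +kernel : chk [N2E 60 30 F_r32o_two_b 0, sub (q 5 6) uE, sub uE (q 7 6), neg (yE 60 30)] 24 [V.of 10000 5600 6000, V.of 10000 0 570, V.of 10000 2333 6067, V.of 10000 (-985) 960] = true))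
            ⟨by norm_num; linarith only [hx], by norm_num; linarith only [hx']⟩ ⟨by norm_num; linarith only [hT0], by norm_num; linarith only [hT']⟩ ⟨by norm_num; linarith only [hx', h5], by norm_num; linarith only [hx, h6]⟩
            ⟨by norm_num; linarith only [i0], by norm_num; linarith only [i1]⟩ h5 h6 (neg_yE_le hs)
  · intro h5
    rcases le_total T 0 with hT0 | hT0
    · refine ⟨((1 : ℤ) : ℝ), by simpa using mul_YY_01 (mR_nonneg hT0) (by rw [hre]; linarith only [h5]) (by rw [hre]; linarith only [hx', v1]), ?_⟩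
      rw [hw]
      exact z2B (s := q 0 1) (F := F_r32o_two_b) (r := 1) (XM := 60) (cr := 30) (fuel := 24) (h := (by decide +kernel : chk [B2E 60 30 F_r32o_two_b 1, sub (q 7 6) uE, q 0 1] 24 [V.of 10000 5600 6000, V.of 10000 (-50) 0, V.of 10000 5666 8000, V.of 10000 (-985) 960] = true))
            ⟨by norm_num; linarith only [hx], by norm_num; linarith only [hx']⟩ ⟨by norm_num; linarith only [hT], by norm_num; linarith only [hT0]⟩ ⟨by norm_num; linarith only [hx', h5], by norm_num; linarith only [v1]⟩
            ⟨by norm_num; linarith only [i0], by norm_num; linarith only [i1]⟩ h5 q0_val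
    · rcases le_total (w.im + v.im) 0 with hs | hs
      · refine ⟨((-1 : ℤ) : ℝ), by simpa using mul_YY_11 (mR_nonpos hT0) (by rw [hre]; linarith only [h5]) (by rw [hre]; linarith only [hx', v1]), ?_⟩
        rw [hw] at hs ⊢
        exact z2B (s := yE 60 30) (F := F_r32o_two_b) (r := (-1)) (XM := 60) (cr := 30) (fuel := 24) (h := (by decide +kernel : chk [B2E 60 30 F_r32o_two_b (-1), sub (q 7 6) uE, yE 60 30] 24 [V.of 10000 5600 6000, V.of 10000 0 570, V.of 10000 5666 8000, V.of 10000 (-985) 960] = true))
            ⟨by norm_num; linarith only [hx], by norm_num; linarith only [hx']⟩ ⟨by norm_num; linarith only [hT0], by norm_num; linarith only [hT']⟩ ⟨by norm_num; linarith only [hx', h5], by norm_num; linarith only [v1]⟩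
            ⟨by norm_num; linarith only [i0], by norm_num; linarith only [i1]⟩ h5 (yE_le hs)
      · refine ⟨((0 : ℤ) : ℝ), by simpa using mul_YY_10 (mR_nonpos hT0) (by rw [hre]; linarith only [h5]) (by rw [him]; exact hs), ?_⟩
        rw [hw] at hs ⊢
        exact z2B (s := neg (yE 60 30)) (F := F_r32o_two_b) (r := 0) (XM := 60) (cr := 30) (fuel := 24) (h := (by decide +kernel : chk [B2E 60 30 F_r32o_two_b 0, sub (q 7 6) uE, neg (yE 60 30)] 24 [V.of 10000 5600 6000, V.of 10000 0 570, V.of 10000 5666 8000, V.of 10000 (-985) 960] = true))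
            ⟨by norm_num; linarith only [hx], by norm_num; linarith only [hx']⟩ ⟨by norm_num; linarith only [hT0], by norm_num; linarith only [hT']⟩ ⟨by norm_num; linarith only [hx', h5], by norm_num; linarith only [v1]⟩
            ⟨by norm_num; linarith only [i0], by norm_num; linarith only [i1]⟩ h5 (neg_yE_le hs)

/-- expression for `1/2 - S2e` -/
def oE : E := sub (q 1 2) (e2e (mE 30) (var 0) (tE 60 30))

theorem r32o_twoE {x T : ℝ} (hT : 76 / 1000 ≤ T) (hT' : T ≤ 98 / 1000) (hx : 30 / 100 ≤ x)
    (hx' : x ≤ 60 / 100) : s2e (mR 30 T) x (tR 60 30 x T) < 1 / 2 := by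
  have h : chk [oE] 20 [V.of 10000 3000 6000, V.of 10000 760 980, V.of 10000 0 0, V.of 10000 0 0] = true := by
    decide +kernel
  have hp := pos_of_chk (chk4 h (by norm_num) (x := x) (y := T) (z := 0) (w := 0)
    (by norm_num; linarith only [hx]) (by norm_num; linarith only [hx']) (by norm_num; linarith only [hT])
    (by norm_num; linarith only [hT']) (by norm_num) (by norm_num) (by norm_num) (by norm_num))
  rw [oE, E.val, e2e_val, mE_val, tE_val] at hp
  simp only [E.val, lkR] at hp
  norm_num at hp ⊢
  linarith only [hp]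

end MR

end Pool.Agent.Work.MP_b30479_gt.G2
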