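import Pool.Agent.Work.MP_b30479_gt.G2.WCap22
import Pool.Agent.Work.MP_b30479_gt.G2.WLocX
import Pool.Agent.Work.MP_b30479_gt.G2.R32O
import Pool.Agent.Work.MP_b30479_gt.G2.R32B

/-!
# Right ramp of the slot-2 hinge of an interior region with three crossings, word level

Own side for the neighbours `2`, `2e`, `3`, `3e`, ring, with free inner variable.
-/

namespace Pool.Agent.Work.MP_b30479_gt.G2

open Finset VOL Filter Topology

namespace SR

variable {M : ℕ} {b : Fin (M + 1) → ℤ} {zs : DD (tyW b) ⊕ ZZ (tyW b) → ℂ}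
variable {y : DD (tyW b) ⊕ ZZ (tyW b) → ℝ}
variable {h h' : Fin M} {i j j' : Fin (M + 1)} {p : Fin 3}

/-- the parameters of the hinge -/
theorem Adj.par_three (A : Adj h i 2 j) (hi : clsW b i = .three) (hj : clsW b j ≠ .one) :
    wXM b h = 60 / 100 ∧ wcl b h = 13 / 100 ∧ wcr b h = 30 / 100 := by
  rw [A.XM_eq b, A.cl_eq b, A.cr_eq b, hi]
  unfold hpp
  generalize clsW b j = B at hj
  rw [if_pos rfl]
  cases B <;> first | exact absurd rfl hj | simp [hp]

/-- the inner variable of an interior region with three crossings -/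
theorem Adj.mid_three (A : Adj h i 2 j) (hb : ClassW b) (hX : LocX b zs) (hy : Mx b zs y)
    (hi : clsW b i = .three) {a c : ℝ} (ha : a ≤ 0) (hc : 0 ≤ c)
    (hw : ∀ P, a ≤ (mw P (clsW b j)).t0 ∧ (mw P (clsW b j)).t1 ≤ c) :
    0 ≤ (Yw b zs y i 1).re ∧ (Yw b zs y i 1).re ≤ 8 / 10 ∧
      a ≤ (Yw b zs y i 1).im ∧ (Yw b zs y i 1).im ≤ c := by
  obtain ⟨h', j', A'⟩ := A.other' b (clsW_inner hb (Or.inr (Or.inr hi)))
  have e0 : (2 : Fin 3).rev = 0 := rfl
  rw [e0] at A'
  have hm := tyW_isMid (Or.inl hi)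
  obtain ⟨h1, h2, -, -⟩ := hX.mid hm A' A hi
  have h3 := mid_RH hy ⟨i, hm⟩
  have e1 : (wpar b zs).XM (.inr ⟨i, hm⟩) = 8 / 10 := by
    show (mp (clsW b i)).XM = 8 / 10
    rw [hi]; rfl
  have h4 := h3.reM
  rw [e1] at h4
  obtain ⟨w1, w2⟩ := hw (clsW b j')
  obtain ⟨k1, k2⟩ := MR.RH_im_mem h3 ha hc (w1.trans h1) (h2.trans w2)
  exact ⟨h3.re0, h4, k1, k2⟩

/-- the slope on the right ramp -/
theorem Adj.slope_three (A : Adj h i 2 j) (hi : clsW b i = .three) (hj : clsW b j ≠ .one)
    (hx : 30 / 100 < y (.inl (.inl h))) (c : ℤ) : ofs c (slL b zs y h) =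
      MR.mR 30 (ofs c (zs (.inl (.inl h))).im) := by
  obtain ⟨e1, e2, e3⟩ := A.par_three hi hj
  rw [ofs_slL_ramp _ (by rw [e1, e3]; linarith only [hx]), e3]
  unfold MR.mR
  push_cast
  rw [neg_div]

/-- the height on the right ramp -/
theorem Adj.height_three {i' j' : Fin (M + 1)} {q : Fin 3} (A : Adj h i 2 j) (A' : Adj h i' q j')
    (hi : clsW b i = .three) (hj : clsW b j ≠ .one) (hy : Mx b zs y)
    (hx : 30 / 100 < y (.inl (.inl h))) : (Yw b zs y i' q).im =
      MR.tR 60 30 (Yw b zs y i' q).re (ofs (b i') (zs (.inl (.inl h))).im) := by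
  obtain ⟨e1, e2, e3⟩ := A.par_three hi hj
  have hrh := A'.rh hy
  rw [e1, e2, e3] at hrh
  have h1 := MR.RH_right hrh (by norm_num) (by norm_num) (by norm_num)
    (by rw [A'.re]; linarith only [hx])
  rw [h1]
  unfold MR.tR
  push_cast
  rfl

/-- the window of the height of the hinge -/
theorem Adj.im_three (A : Adj h i p j) (hb : ClassW b) (hL : Loc b zs) (hi : clsW b i = .three) :
    (hbox .three (clsW b j) false).t0 ≤ ofs (b i) (zs (.inl (.inl h))).im ∧
      ofs (b i) (zs (.inl (.inl h))).im ≤ (hbox .three (clsW b j) false).t1 := by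
  have hop := A.opp hb (Or.inl (by rw [hi]; decide))
  obtain ⟨-, -, h3, h4⟩ := A.box hb hL
  rw [hi, A.ss hop] at h3 h4
  exact ⟨h3, h4⟩

section own

variable (A : Adj h i 2 j) (hb : ClassW b) (hL : Loc b zs) (hX : LocX b zs) (hy : Mx b zs y)
  (hi : clsW b i = .three)

include A hb hL hX hy hi

/-- `3 | 2` -/
theorem Adj.own_three_two (hj : clsW b j = .two) (hx : 30 / 100 < y (.inl (.inl h)))
    (hx' : y (.inl (.inl h)) ≤ 56 / 100) : Sw b zs y i 2 (slL b zs y h) <
      -(15 / 100) + 32 / 10 * ofs (b i) (zs (.inl (.inl h))).im := by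
  have hj1 : clsW b j ≠ .one := by rw [hj]; decide
  obtain ⟨g1, g2, g3, g4⟩ := A.mid_three hb hX hy hi (a := -(116 / 1000)) (c := 5 / 1000)
    (by norm_num) (by norm_num) (fun P => by rw [hj]; cases P <;> norm_num [mw])
  obtain ⟨t1, t2⟩ := A.im_three hb hL hi
  rw [hj] at t1 t2
  norm_num [hbox] at t1 t2
  rw [A.side_three_two hb hi, A.slope_three hi hj1 hx]
  exact MR.r32_two (by linarith only [t1]) (by linarith only [t2]) (A.height_three A hi hj1 hy hx)
    (by rw [A.re]; linarith only [hx]) (by rw [A.re]; linarith only [hx']) (by linarith only [g1]) (by linarith only [g2]) (by linarith only [g3])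
    (by linarith only [g4])

/-- `3 | 2`, near the right end, the inner variable at most `.70` -/
theorem Adj.own_three_two_b (hj : clsW b j = .two) (hx : 56 / 100 ≤ y (.inl (.inl h)))
    (hv : (Yw b zs y i 1).re ≤ 70 / 100) : Sw b zs y i 2 (slL b zs y h) <
      -(17 / 100) + 34 / 10 * ofs (b i) (zs (.inl (.inl h))).im := by
  have hj1 : clsW b j ≠ .one := by rw [hj]; decide
  have hx0 : 30 / 100 < y (.inl (.inl h)) := by linarith only [hx]
  obtain ⟨g1, g2, g3, g4⟩ := A.mid_three hb hX hy hi (a := -(116 / 1000)) (c := 5 / 1000)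
    (by norm_num) (by norm_num) (fun P => by rw [hj]; cases P <;> norm_num [mw])
  obtain ⟨t1, t2⟩ := A.im_three hb hL hi
  rw [hj] at t1 t2
  norm_num [hbox] at t1 t2
  have hM := (A.rh hy).reM
  rw [(A.par_three hi hj1).1] at hM
  rw [A.side_three_two hb hi, A.slope_three hi hj1 hx0]
  exact MR.r32_two_b (by linarith only [t1]) (by linarith only [t2]) (A.height_three A hi hj1 hy hx0)
    (by rw [A.re]; linarith only [hx]) (by linarith only [hM]) (by linarith only [g1]) (by linarith only [hv]) (by linarith only [g3])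
    (by linarith only [g4])

/-- `3 | 2e` -/
theorem Adj.own_three_twoE (hj : clsW b j = .twoE) (hx : 30 / 100 < y (.inl (.inl h))) :
    Sw b zs y i 2 (slL b zs y h) < -(50 / 100) := by
  have hj1 : clsW b j ≠ .one := by rw [hj]; decide
  obtain ⟨g1, g2, g3, g4⟩ := A.mid_three hb hX hy hi (a := -(95 / 1000)) (c := 0)
    (by norm_num) (by norm_num) (fun P => by rw [hj]; cases P <;> norm_num [mw])
  obtain ⟨t1, t2⟩ := A.im_three hb hL hi
  rw [hj] at t1 t2
  norm_num [hbox] at t1 t2
  have hM := (A.rh hy).reM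
  rw [(A.par_three hi hj1).1] at hM
  rw [A.side_three_two hb hi, A.slope_three hi hj1 hx]
  exact MR.r32_twoE (by linarith only [t1]) (by linarith only [t2]) (A.height_three A hi hj1 hy hx)
    (by rw [A.re]; linarith only [hx]) (by linarith only [hM]) (by linarith only [g1]) (by linarith only [g2]) (by linarith only [g3])
    (by linarith only [g4])

/-- `3 | 3` -/
theorem Adj.own_three_three (hj : clsW b j = .three) (hx : 30 / 100 < y (.inl (.inl h)))
    (hx' : y (.inl (.inl h)) ≤ 36 / 100) : Sw b zs y i 2 (slL b zs y h) <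
      -(243 / 1000) + 32 / 10 * ofs (b i) (zs (.inl (.inl h))).im -
        3 * (y (.inl (.inl h)) - 30 / 100) := by
  have hj1 : clsW b j ≠ .one := by rw [hj]; decide
  obtain ⟨g1, g2, g3, g4⟩ := A.mid_three hb hX hy hi (a := -(116 / 1000)) (c := 5 / 1000)
    (by norm_num) (by norm_num) (fun P => by rw [hj]; cases P <;> norm_num [mw])
  obtain ⟨t1, t2⟩ := A.im_three hb hL hi
  rw [hj] at t1 t2
  norm_num [hbox] at t1 t2
  rw [A.side_three_two hb hi, A.slope_three hi hj1 hx]
  have := MR.r32_three (w := Yw b zs y i 2) (v := Yw b zs y i 1)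
    (T := ofs (b i) (zs (.inl (.inl h))).im) (by linarith only [t1]) (by linarith only [t2])
    (A.height_three A hi hj1 hy hx) (by rw [A.re]; linarith only [hx]) (by rw [A.re]; linarith only [hx'])
    (by linarith only [g1]) (by linarith only [g2]) (by linarith only [g3]) (by linarith only [g4])
  rwa [A.re] at this

/-- `3 | 3` -/
theorem Adj.own_three_three_b (hj : clsW b j = .three) (hx : 36 / 100 ≤ y (.inl (.inl h))) :
    Sw b zs y i 2 (slL b zs y h) < -(32 / 100) := by
  have hj1 : clsW b j ≠ .one := by rw [hj]; decide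
  have hx0 : 30 / 100 < y (.inl (.inl h)) := by linarith only [hx]
  obtain ⟨g1, g2, g3, g4⟩ := A.mid_three hb hX hy hi (a := -(116 / 1000)) (c := 5 / 1000)
    (by norm_num) (by norm_num) (fun P => by rw [hj]; cases P <;> norm_num [mw])
  obtain ⟨t1, t2⟩ := A.im_three hb hL hi
  rw [hj] at t1 t2
  norm_num [hbox] at t1 t2
  have hM := (A.rh hy).reM
  rw [(A.par_three hi hj1).1] at hM
  rw [A.side_three_two hb hi, A.slope_three hi hj1 hx0]
  exact MR.r32_three_b (by linarith only [t1]) (by linarith only [t2]) (A.height_three A hi hj1 hy hx0)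
    (by rw [A.re]; linarith only [hx]) (by linarith only [hM]) (by linarith only [g1]) (by linarith only [g2]) (by linarith only [g3])
    (by linarith only [g4])

/-- `3 | 3e` -/
theorem Adj.own_three_threeE (hj : clsW b j = .threeE) (hx : 30 / 100 < y (.inl (.inl h))) :
    Sw b zs y i 2 (slL b zs y h) < -(25 / 100) := by
  have hj1 : clsW b j ≠ .one := by rw [hj]; decide
  obtain ⟨g1, g2, g3, g4⟩ := A.mid_three hb hX hy hi (a := -(116 / 1000)) (c := 5 / 1000)
    (by norm_num) (by norm_num) (fun P => by rw [hj]; cases P <;> norm_num [mw])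
  obtain ⟨t1, t2⟩ := A.im_three hb hL hi
  rw [hj] at t1 t2
  norm_num [hbox] at t1 t2
  have hM := (A.rh hy).reM
  rw [(A.par_three hi hj1).1] at hM
  rw [A.side_three_two hb hi, A.slope_three hi hj1 hx]
  exact MR.r32_threeE (by linarith only [t1]) (by linarith only [t2]) (A.height_three A hi hj1 hy hx)
    (by rw [A.re]; linarith only [hx]) (by linarith only [hM]) (by linarith only [g1]) (by linarith only [g2]) (by linarith only [g3])
    (by linarith only [g4])

/-- `3 | ring` -/
theorem Adj.own_three_ring (hj : clsW b j = .ring) (hx : 30 / 100 < y (.inl (.inl h)))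
    (hx' : y (.inl (.inl h)) ≤ 50 / 100) : Sw b zs y i 2 (slL b zs y h) < -(11 / 100) := by
  have hj1 : clsW b j ≠ .one := by rw [hj]; decide
  obtain ⟨g1, g2, g3, g4⟩ := A.mid_three hb hX hy hi (a := -(106 / 1000)) (c := 0)
    (by norm_num) (by norm_num) (fun P => by rw [hj]; cases P <;> norm_num [mw])
  obtain ⟨t1, t2⟩ := A.im_three hb hL hi
  have t0 := hX.three A hi hj
  rw [hj] at t1 t2
  norm_num [hbox] at t1 t2
  rw [A.side_three_two hb hi, A.slope_three hi hj1 hx]
  exact MR.r32_ring (by linarith only [t0]) (by linarith only [t2]) (A.height_three A hi hj1 hy hx)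
    (by rw [A.re]; linarith only [hx]) (by rw [A.re]; linarith only [hx']) (by linarith only [g1]) (by linarith only [g2]) (by linarith only [g3])
    (by linarith only [g4])

/-- `3 | ring`, with the shift `π` -/
theorem Adj.own_three_ring_b (hj : clsW b j = .ring) (hx : 50 / 100 ≤ y (.inl (.inl h))) :
    Sw b zs y i 2 (slL b zs y h) + Real.pi * ofs (b i) (slL b zs y h) < -(44 / 100) := by
  have hj1 : clsW b j ≠ .one := by rw [hj]; decide
  have hx0 : 30 / 100 < y (.inl (.inl h)) := by linarith only [hx]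
  obtain ⟨g1, g2, g3, g4⟩ := A.mid_three hb hX hy hi (a := -(106 / 1000)) (c := 0)
    (by norm_num) (by norm_num) (fun P => by rw [hj]; cases P <;> norm_num [mw])
  obtain ⟨t1, t2⟩ := A.im_three hb hL hi
  have t0 := hX.three A hi hj
  rw [hj] at t1 t2
  norm_num [hbox] at t1 t2
  have hM := (A.rh hy).reM
  rw [(A.par_three hi hj1).1] at hM
  rw [A.side_three_two hb hi, A.slope_three hi hj1 hx0]
  have := MR.r32_ring_b (w := Yw b zs y i 2) (v := Yw b zs y i 1)
    (T := ofs (b i) (zs (.inl (.inl h))).im) (by linarith only [t0]) (by linarith only [t2])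
    (A.height_three A hi hj1 hy hx0) (by rw [A.re]; linarith only [hx]) (by linarith only [hM])
    (by linarith only [g1]) (by linarith only [g2]) (by linarith only [g3]) (by linarith only [g4])
  linarith only [this]

/-- `3 | ring` if the height is `≤ 0` in the frame of the `3`: everything beyond the flat end -/
theorem Adj.own_three_ring_neg (hj : clsW b j = .ring) (hx : 30 / 100 < y (.inl (.inl h)))
    (hT : ofs (b i) (zs (.inl (.inl h))).im ≤ 0) :
    Sw b zs y i 2 (slL b zs y h) < -(11 / 100) := by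
  rcases le_total (y (.inl (.inl h))) (50 / 100) with h1 | h1
  · exact A.own_three_ring hb hL hX hy hi hj hx h1
  · have h2 := A.own_three_ring_b hb hL hX hy hi hj h1
    have hj1 : clsW b j ≠ .one := by rw [hj]; decide
    have h3 : 0 ≤ Real.pi * ofs (b i) (slL b zs y h) := by
      rw [A.slope_three hi hj1 hx]
      exact mul_nonneg Real.pi_pos.le (MR.mR_nonneg hT)
    linarith only [h2, h3]

end own

/-- **`3 | 2e`** with the `3` on the left: the flat end, without any information. -/
theorem cap_three_twoE (A : Adj h i 2 j) (hb : ClassW b) (hL : Loc b zs) (hX : LocX b zs)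
    (hy : Mx b zs y) (h0 : 0 < y (.inl (.inl h))) (hi : clsW b i = .three)
    (hj : clsW b j = .twoE) : y (.inl (.inl h)) ≤ 30 / 100 := by
  by_contra hcon
  push Not at hcon
  have hj1 : clsW b j ≠ .one := by rw [hj]; decide
  have hop := A.opp hb (Or.inl (by rw [hi]; decide))
  have s1 := A.own_three_twoE hb hL hX hy hi hj hcon
  have s2 : Sw b zs y j 0 (slL b zs y h) < 1 / 2 := by
    have A' := A.symm
    have e0 : (2 : Fin 3).rev = 0 := rfl
    rw [e0] at A'
    have hop' : b j * b i < 0 := by rw [mul_comm]; exact hop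
    obtain ⟨-, -, h3, h4⟩ := A'.box hb hL
    rw [hi, hj, A'.ss hop'] at h3 h4
    norm_num [hbox] at h3 h4
    have hv : Yw b zs y j 2 = 0 := by
      rcases A'.other b zs y with h5 | h5
      · exact h5.2
      · rw [clsW_end (Or.inl hj)] at h5
        exact absurd h5.1 (by decide)
    have hM := (A'.rh hy).reM
    rw [(A.par_three hi hj1).1] at hM
    have hx : 30 / 100 ≤ (Yw b zs y j 0).re := by rw [A'.re]; linarith only [hcon]
    have e2 : (0 : Fin 3).rev = 2 := rfl
    rw [A'.side_two hb (Or.inr hj), A.slope_three hi hj1 hcon, e2, hv,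
      MR.S2_zero_eq _ ⟨by linarith only [hx], by linarith only [hM]⟩, A.height_three A' hi hj1 hy hcon]
    exact MR.r32o_twoE (by linarith only [h3]) (by linarith only [h4]) hx (by linarith only [hM])
  exact rstep_false hb hy h0 (RStep.of_adj A (c := 0) (e1 := Sw b zs y i 2 (slL b zs y h))
    (e2 := 1 / 2) (fun _ => rfl) (by linarith only [s1]) (by linarith only []) (by
      show Sw b zs y j 0 (slL b zs y h) + 0 * ofs (b j) (slL b zs y h) ≤ _
      linarith only [s2]))

end SR

end Pool.Agent.Work.MP_b30479_gt.G2
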