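import Pool.Agent.Work.MP_b30479_gt.G2.R32A
import Pool.Agent.Work.MP_b30479_gt.G2.TRa
import Pool.Agent.Work.NumU.Val

/-!
# `UU` near `Re u = 1`: upper and lower bounds in zones
-/

namespace Pool.Agent.Work.MP_b30479_gt.G2

open VOL NumU Filter Topology

namespace MR

theorem continuous_nearL : Continuous nearL := by
  unfold nearL
  refine continuous_const.mul (Continuous.log (by fun_prop) ?_)
  intro y
  have := Real.one_le_cosh (2 * (Real.pi * y))
  linarith only [this]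

theorem nearL_nonneg (y : ℝ) : 0 ≤ nearL y := by
  unfold nearL
  have := Real.one_le_cosh (2 * (Real.pi * y))
  have := Real.log_nonneg (x := 2 * Real.cosh (2 * (Real.pi * y)) - 1) (by linarith only [this])
  linarith only [this]

theorem nearL_neg (y : ℝ) : nearL (-y) = nearL y := by
  unfold nearL
  rw [mul_neg, mul_neg, Real.cosh_neg]

theorem UU_near_ne {a b t : ℝ} (h1 : 5 / 6 ≤ a) (hab : a ≤ b) (h2 : b ≤ 7 / 6) (ht : t ≠ 0) :
    UU ⟨b, t⟩ - UU ⟨a, t⟩ ≤ (b - a) * nearL t := by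
  have hd : ∀ s : ℝ, HasDerivAt (fun s : ℝ => UU ⟨0 + 1 * s, t⟩) (1 * LL ⟨0 + 1 * s, t⟩) s :=
    fun s => hasDerivAt_UU_hor ht 1 s
  have e : (fun s : ℝ => UU ⟨0 + 1 * s, t⟩) = fun s : ℝ => UU ⟨s, t⟩ := by
    funext s
    rw [zero_add, one_mul]
  rw [e] at hd
  have := Convex.image_sub_le_mul_sub_of_deriv_le (convex_Icc (5 / 6 : ℝ) (7 / 6))
    (f := fun s : ℝ => UU ⟨s, t⟩) (fun s _ => (hd s).continuousAt.continuousWithinAt)
    (fun s _ => (hd s).differentiableAt.differentiableWithinAt) (C := nearL t) (by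
      intro s hs
      rw [interior_Icc] at hs
      rw [(hd s).deriv, one_mul, zero_add, one_mul]
      exact LL_nearL (u := ⟨s, t⟩) hs.1.le hs.2.le) a ⟨h1, hab.trans h2⟩ b ⟨h1.trans hab, h2⟩ hab
  linarith only [this]

theorem UU_near {a b t : ℝ} (h1 : 5 / 6 ≤ a) (hab : a ≤ b) (h2 : b ≤ 7 / 6) :
    UU ⟨b, t⟩ - UU ⟨a, t⟩ ≤ (b - a) * nearL t := by
  have hc : ∀ c : ℝ, Continuous fun t : ℝ => UU ⟨c, t⟩ := by
    intro c
    have e : (fun t : ℝ => UU ⟨c, t⟩) = fun t : ℝ => UU ((c : ℂ) + (t : ℂ) * Complex.I) := by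
      funext t
      congr 1
      apply Complex.ext <;> simp
    rw [e]
    exact continuous_UU.comp (by fun_prop)
  have hcl : IsClosed {t : ℝ | UU ⟨b, t⟩ - UU ⟨a, t⟩ ≤ (b - a) * nearL t} :=
    isClosed_le ((hc b).sub (hc a)) (continuous_const.mul continuous_nearL)
  have hd : Dense ({0}ᶜ : Set ℝ) := dense_compl_singleton 0
  have hs : ({0}ᶜ : Set ℝ) ⊆ {t : ℝ | UU ⟨b, t⟩ - UU ⟨a, t⟩ ≤ (b - a) * nearL t} :=
    fun t ht => UU_near_ne h1 hab h2 ht
  have := hcl.closure_subset_iff.2 hs (hd.closure_eq ▸ Set.mem_univ t)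
  exact this

theorem UU_it (t : ℝ) : UU ⟨0, t⟩ = -(Real.pi * |t| / 2) := by
  have h1 := UU_neg ⟨0, t⟩
  have e : -(⟨0, t⟩ : ℂ) = starRingEnd ℂ ⟨0, t⟩ := by
    apply Complex.ext <;> simp
  rw [e, UU_conj] at h1
  simp only at h1
  linarith only [h1]

theorem UU_add_one' (x t : ℝ) : UU ⟨x + 1, t⟩ = UU ⟨x, t⟩ + Real.pi * |t| := by
  have h1 := UU_add_one ⟨x, t⟩
  have e : (⟨x, t⟩ : ℂ) + 1 = ⟨x + 1, t⟩ := by
    apply Complex.ext <;> simp
  rwa [e] at h1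

theorem UU_one_it (t : ℝ) : UU ⟨1, t⟩ = Real.pi * |t| / 2 := by
  have h1 := UU_add_one' 0 t
  rw [zero_add, UU_it] at h1
  linarith only [h1]

/-! ### upper bounds -/

theorem up2 {x t : ℝ} (h1 : 11 / 12 ≤ x) (h2 : x ≤ 13 / 12) :
    UU ⟨x, t⟩ ≤ uu (11 / 12) t + (x - 11 / 12) * nearL t := by
  have := UU_near (a := 11 / 12) (b := x) (t := t) (by norm_num) h1 (by linarith only [h2])
  have e : UU ⟨11 / 12, t⟩ = uu (11 / 12) t := rfl
  linarith only [this, e]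

theorem up3 {x t : ℝ} (h1 : 1 ≤ x) (h2 : x ≤ 7 / 6) :
    UU ⟨x, t⟩ ≤ Real.pi * |t| / 2 + (x - 1) * nearL t := by
  have := UU_near (a := 1) (b := x) (t := t) (by norm_num) h1 h2
  rw [UU_one_it] at this
  linarith only [this]

theorem up4 (x t : ℝ) : UU ⟨x, t⟩ = uu (x - 1) t + Real.pi * |t| := by
  have := UU_add_one' (x - 1) t
  rw [sub_add_cancel] at this
  exact this

/-! ### lower bounds -/

theorem lo2 {x t : ℝ} (h1 : 5 / 6 ≤ x) (h2 : x ≤ 1) :
    Real.pi * |t| / 2 - (1 - x) * nearL t ≤ UU ⟨x, t⟩ := by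
  have := UU_near (a := x) (b := 1) (t := t) h1 h2 (by norm_num)
  rw [UU_one_it] at this
  linarith only [this]

theorem lo3 {x t : ℝ} (h1 : 5 / 6 ≤ x) (h2 : x ≤ 13 / 12) :
    uu (1 / 12) t + Real.pi * |t| - (13 / 12 - x) * nearL t ≤ UU ⟨x, t⟩ := by
  have := UU_near (a := x) (b := 13 / 12) (t := t) h1 h2 (by norm_num)
  have e := up4 (13 / 12) t
  norm_num at e
  rw [e] at this
  norm_num at this ⊢
  linarith only [this]

end MR

end Pool.Agent.Work.MP_b30479_gt.G2
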