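import Pool.Agent.Work.MP_b30479_gt.G2.R32A

/-!
# Right ramp of a hinge between two interior regions with three crossings, near the flat end

Side of the slot 2.
-/

set_option linter.unusedSimpArgs false
set_option linter.unusedVariables false

namespace Pool.Agent.Work.MP_b30479_gt.G2

open VOL NumI

namespace MR

open E

/-- bound -/
def F_r33_lo : E := q (-215) 1000

/-- `3 | 3` near the flat end, the height is nonnegative in the frame of the left region -/
theorem r33_lo {w v : ℂ} {T : ℝ} (hT : 0 ≤ T) (hT' : T ≤ 220 / 10000)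
    (hw : w.im = tR 60 30 w.re T) (hx : 3000 / 10000 ≤ w.re) (hx' : w.re ≤ 3100 / 10000)
    (v0 : 0 ≤ v.re) (v1 : v.re ≤ 8 / 10) (i0 : -(1160 / 10000) ≤ v.im) (i1 : v.im ≤ 0)
    (i2 : 5 / 100 ≤ v.re → v.re ≤ 75 / 100 → v.im ≤ -(50 / 10000)) :
    S2 1 (mR 30 T) w v < -(215 / 1000) := by
  have hF : F_r33_lo.val [w.re, T, v.re, v.im] = -(215 / 1000) := by
    simp only [F_r33_lo, E.val, lkR]
    push_cast
    ring
  rw [← hF]
  have hre : (w + v).re = w.re + v.re := Complex.add_re _ _
  have him : (w + v).im = w.im + v.im := Complex.add_im _ _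
  apply S2_zone (by linarith only [hx]) (by linarith only [hx']) (by linarith only [v0]) (by linarith only [hx', v1])
  · intro h5
    rw [hw]
    rcases le_total v.re (5 / 100) with h | h
    · exact z2S (F := F_r33_lo) (XM := 60) (cr := 30) (fuel := 24) (h := (by decide +kernel : chk [S2E 60 30 F_r33_lo, sub uE (q 5 6)] 24 [V.of 10000 3000 3100, V.of 10000 0 220, V.of 10000 0 500, V.of 10000 (-1160) 0] = true))
        ⟨by norm_num; linarith only [hx], by norm_num; linarith only [hx']⟩ ⟨by norm_num; linarith only [hT], by norm_num; linarith only [hT']⟩ ⟨by norm_num; linarith only [v0], by norm_num; linarith only [h]⟩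
        ⟨by norm_num; linarith only [i0], by norm_num; linarith only [i1]⟩ h5
    · have i3 := i2 h (by linarith only [hx, v1, h5])
      exact z2S (F := F_r33_lo) (XM := 60) (cr := 30) (fuel := 24) (h := (by decide +kernel : chk [S2E 60 30 F_r33_lo, sub uE (q 5 6)] 24 [V.of 10000 3000 3100, V.of 10000 0 220, V.of 10000 500 5334, V.of 10000 (-1160) (-50)] = true))
        ⟨by norm_num; linarith only [hx], by norm_num; linarith only [hx']⟩ ⟨by norm_num; linarith only [hT], by norm_num; linarith only [hT']⟩ ⟨by norm_num; linarith only [h], by norm_num; linarith only [hx, h5]⟩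
        ⟨by norm_num; linarith only [i0], by norm_num; linarith only [i3]⟩ h5
  · intro h5 h6
    refine ⟨((-1 : ℤ) : ℝ), by simpa using mul_YY_11 (mR_nonpos hT) (by rw [hre]; linarith only [h5]) (by rw [hre]; linarith only [hx', v1]), ?_⟩
    rw [hw]
    exact z2N (s := q 0 1) (F := F_r33_lo) (r := (-1)) (XM := 60) (cr := 30) (fuel := 24) (h := (by decide +kernel : chk [N2E 60 30 F_r33_lo (-1), sub (q 5 6) uE, sub uE (q 7 6), q 0 1] 24 [V.of 10000 3000 3100, V.of 10000 0 220, V.of 10000 5233 8000, V.of 10000 (-1160) 0] = true))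
      ⟨by norm_num; linarith only [hx], by norm_num; linarith only [hx']⟩ ⟨by norm_num; linarith only [hT], by norm_num; linarith only [hT']⟩ ⟨by norm_num; linarith only [hx', h5], by norm_num; linarith only [v1]⟩
      ⟨by norm_num; linarith only [i0], by norm_num; linarith only [i1]⟩ h5 h6 q0_val
  · intro h5
    exfalso; linarith only [hx', v1, h5]

end MR

end Pool.Agent.Work.MP_b30479_gt.G2
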