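import Pool.Agent.Work.MP_b30479_gt.G2.R32
import Pool.Agent.Work.MP_b30479_gt.G2.R33A

/-!
# The cap of a hinge between two interior regions with three crossings, given the slot-0 side
-/

namespace Pool.Agent.Work.MP_b30479_gt.G2

open Finset VOL Filter Topology

namespace SR

variable {M : ℕ} {b : Fin (M + 1) → ℤ} {zs : DD (tyW b) ⊕ ZZ (tyW b) → ℂ}
variable {y : DD (tyW b) ⊕ ZZ (tyW b) → ℝ}
variable {h : Fin M} {i j : Fin (M + 1)}

/-- `3 | 3` in `(.31, .50]`; `hS1`, `hS2`: the side of the right region -/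
theorem cap33_31 (A : Adj h i 2 j) (hb : ClassW b) (hL : Loc b zs) (hX : LocX b zs)
    (hy : Mx b zs y) (h0 : 0 < y (.inl (.inl h))) (hi : clsW b i = .three)
    (hj : clsW b j = .three) (h50 : y (.inl (.inl h)) ≤ 1 / 2)
    (hS1 : 30 / 100 < y (.inl (.inl h)) → y (.inl (.inl h)) ≤ 40 / 100 →
      Sw b zs y j 0 (slL b zs y h) < 66 / 100 - 3 / 2 * y (.inl (.inl h)))
    (hS2 : 40 / 100 < y (.inl (.inl h)) → y (.inl (.inl h)) ≤ 1 / 2 →
      Sw b zs y j 0 (slL b zs y h) < 0) :
    y (.inl (.inl h)) ≤ 31 / 100 := by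
  by_contra hcon
  push Not at hcon
  have fin : Sw b zs y i 2 (slL b zs y h) + Sw b zs y j 0 (slL b zs y h) < 0 → False := by
    intro hs
    exact rstep_false hb hy h0 (RStep.of_adj A (c := 0) (fun _ => rfl)
      (e1 := Sw b zs y i 2 (slL b zs y h)) (e2 := Sw b zs y j 0 (slL b zs y h))
      hs (by linarith only []) (by
        show Sw b zs y j 0 (slL b zs y h) + 0 * ofs (b j) (slL b zs y h) ≤ _
        linarith only []))
  rcases le_total (y (.inl (.inl h))) (36 / 100) with h36 | h36
  · have s1 := A.own_three_three hb hL hX hy hi hj (by linarith only [h0, hcon]) h36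
    have s2 := hS1 (by linarith only [h0, hcon]) (by linarith only [h0, h36])
    obtain ⟨t1, t2⟩ := A.im_three hb hL hi
    rw [hj] at t1 t2
    norm_num [hbox] at t1 t2
    exact fin (by linarith only [h0, hcon, s1, s2, t2])
  · have s1 := A.own_three_three_b hb hL hX hy hi hj h36
    rcases le_or_gt (y (.inl (.inl h))) (40 / 100) with h40 | h40
    · have s2 := hS1 (by linarith only [h0, hcon]) h40
      exact fin (by linarith only [h0, hcon, s1, s2])
    · have s2 := hS2 h40 h50
      exact fin (by linarith only [h0, h50, s1, s2])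

/-- **`3 | 3`**: the flat end; `hS1`, `hS2`: the side of the right region, `hN`: the height of the
inner variable of the left region -/
theorem cap33_30 (A : Adj h i 2 j) (hb : ClassW b) (hL : Loc b zs) (hX : LocX b zs)
    (hy : Mx b zs y) (h0 : 0 < y (.inl (.inl h))) (hi : clsW b i = .three)
    (hj : clsW b j = .three)
    (hN : 0 ≤ ofs (b i) (zs (.inl (.inl h))).im → ∀ hm : (tyW b i).isMid = true,
      ofs (b i) (zs (.inl (.inr ⟨i, hm⟩))).im ≤ -(5 / 1000))
    (h50 : y (.inl (.inl h)) ≤ 1 / 2)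
    (hS1 : 30 / 100 < y (.inl (.inl h)) → y (.inl (.inl h)) ≤ 40 / 100 →
      Sw b zs y j 0 (slL b zs y h) < 66 / 100 - 3 / 2 * y (.inl (.inl h)))
    (hS2 : 40 / 100 < y (.inl (.inl h)) → y (.inl (.inl h)) ≤ 1 / 2 →
      Sw b zs y j 0 (slL b zs y h) < 0) :
    y (.inl (.inl h)) ≤ 30 / 100 := by
  by_contra hcon
  push Not at hcon
  have h31 := cap33_31 A hb hL hX hy h0 hi hj h50 hS1 hS2
  have hj1 : clsW b j ≠ .one := by rw [hj]; decide
  have s2 := hS1 hcon (by linarith only [hcon, h31])
  obtain ⟨t1, t2⟩ := A.im_three hb hL hi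
  rw [hj] at t1 t2
  norm_num [hbox] at t1 t2
  have fin : Sw b zs y i 2 (slL b zs y h) < -(21 / 100) → False := by
    intro hs
    exact rstep_false hb hy h0 (RStep.of_adj A (c := 0) (fun _ => rfl)
      (e1 := Sw b zs y i 2 (slL b zs y h)) (e2 := Sw b zs y j 0 (slL b zs y h))
      (by linarith only [hcon, s2, hs]) (by linarith only []) (by
        show Sw b zs y j 0 (slL b zs y h) + 0 * ofs (b j) (slL b zs y h) ≤ _
        linarith only []))
  rcases le_total (ofs (b i) (zs (.inl (.inl h))).im) 0 with hT | hT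
  · have s1 := A.own_three_three hb hL hX hy hi hj hcon (by linarith only [hcon, h31])
    exact fin (by linarith only [hcon, h31, hT, s1])
  · obtain ⟨g1, g2, g3, g4⟩ := A.mid_three hb hX hy hi (a := -(116 / 1000)) (c := 5 / 1000)
      (by norm_num) (by norm_num) (fun P => by rw [hj]; cases P <;> norm_num [mw])
    have hm := tyW_isMid (Or.inl hi)
    have hn := hN hT hm
    have h3 := mid_RH hy ⟨i, hm⟩
    have e1 : (wpar b zs).XM (.inr ⟨i, hm⟩) = 80 / 100 := by
      show (mp (clsW b i)).XM = 80 / 100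
      rw [hi]; norm_num [mp]
    have e2 : (wpar b zs).cl (.inr ⟨i, hm⟩) = 5 / 100 := by
      show (mp (clsW b i)).cl = 5 / 100
      rw [hi]; rfl
    have e3 : (wpar b zs).cr (.inr ⟨i, hm⟩) = 5 / 100 := by
      show (mp (clsW b i)).cr = 5 / 100
      rw [hi]; rfl
    rw [e1, e2, e3] at h3
    have h5 : (Yw b zs y i 1).im ≤ 0 := by
      rw [h3.im]
      exact mul_nonpos_of_nonpos_of_nonneg (by linarith only [hm, hcon, h31, hn]) (le_max_left _ _)
    have h6 : 5 / 100 ≤ (Yw b zs y i 1).re → (Yw b zs y i 1).re ≤ 75 / 100 →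
        (Yw b zs y i 1).im ≤ -(50 / 10000) := by
      intro q q'
      rw [MR.RH_flat h3 (by norm_num) (by norm_num) q (by linarith only [hm, q'])]
      linarith only [hm, hn]
    have hxi := A.re (zs := zs) (y := y)
    have s1 := MR.r33_lo (w := Yw b zs y i 2) (v := Yw b zs y i 1)
      (T := ofs (b i) (zs (.inl (.inl h))).im) hT (by linarith only [t2])
      (A.height_three A hi hj1 hy hcon) (by rw [hxi]; linarith only [hcon]) (by rw [hxi]; linarith only [h31])
      g1 g2 (by linarith only [g3]) h5 h6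
    have e := A.side_three_two (zs := zs) (y := y) hb hi (slL b zs y h)
    rw [A.slope_three hi hj1 hcon] at e
    rw [← e] at s1
    exact fin (by linarith only [hcon, h31, s1])

end SR

end Pool.Agent.Work.MP_b30479_gt.G2
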