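import Pool.Agent.Work.MP_b30479_gt.G2.R32B

/-!
# Right ramp of the hinge between an interior region with three crossings (left) and a digit `±1`

The short range above the flat end, with floors.
-/

set_option linter.unusedSimpArgs false
set_option linter.unusedVariables false
set_option linter.unusedTactic false
set_option linter.unreachableTactic false

namespace Pool.Agent.Work.MP_b30479_gt.G2

open VOL NumI

namespace MR

open E

/-- bound -/
def G_r36_two : E := sub (mul (q 675 100) (add (var 1) (q 46 1000))) (q 74 100)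

/-- own side, the other neighbour of the digit is an interior `2` -/
theorem r36_two {w v : ℂ} {T : ℝ} (hT : -(940 / 10000) ≤ T) (hT' : T ≤ -(460 / 10000))
    (hw : w.im = tR 65 29 w.re T) (hx : 3600 / 10000 ≤ w.re) (hx' : w.re ≤ 3850 / 10000)
    (v0 : 0 ≤ v.re) (v1 : v.re ≤ 5 / 10) (i0 : -(123 / 1000) ≤ v.im)
    (i1 : v.re ≤ 5 / 100 → v.im ≤ -(3 / 10) * v.re) (i2 : 5 / 100 ≤ v.re → v.im ≤ -(15 / 1000)) :
    S2 1 (mR 29 T) w v < 675 / 100 * (T + 46 / 1000) - 74 / 100 := by
  have hF : G_r36_two.val [w.re, T, v.re, v.im] = 675 / 100 * (T + 46 / 1000) - 74 / 100 := by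
    simp only [G_r36_two, E.val, lkR]
    push_cast
    ring
  rw [← hF]
  have hre : (w + v).re = w.re + v.re := Complex.add_re _ _
  have him : (w + v).im = w.im + v.im := Complex.add_im _ _
  have hT0 : T ≤ 0 := by linarith only [hT']
  apply S2_zone (by linarith only [hx]) (by linarith only [hx']) (by linarith only [v0]) (by linarith only [hx', v1])
  · intro h5
    rw [hw]
    rcases le_total v.re (5 / 100) with h | h
    · have i3 := i1 h
      have := pos_box (G := S2E 65 29 G_r36_two) (al := [add (var 3) (mul (q 3 10) (var 2))]) (fuel := 28)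
        (x := w.re) (T := T) (x' := v.re) (t' := v.im)
        (by decide +kernel : chk [S2E 65 29 G_r36_two, add (var 3) (mul (q 3 10) (var 2))] 28
          [V.of 10000 3600 3850, V.of 10000 (-940) (-460), V.of 10000 0 500, V.of 10000 (-1230) 0] = true)
        ⟨by norm_num; linarith only [hx], by norm_num; linarith only [hx']⟩ ⟨by norm_num; linarith only [hT], by norm_num; linarith only [hT']⟩ ⟨by norm_num; linarith only [v0], by norm_num; linarith only [h]⟩
        ⟨by norm_num; linarith only [i0], by norm_num; linarith only [v0, i3]⟩ (by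
          intro e he
          simp only [List.mem_cons, List.not_mem_nil, or_false] at he
          rcases he with rfl <;> (simp only [E.val, uE_val, yE_val, lkR]; norm_num; linarith only [i3]))
      rw [S2E_val] at this
      linarith only [this]
    · have i3 := i2 h
      have := pos_box (G := S2E 65 29 G_r36_two) (al := [sub uE (q 5 6)]) (fuel := 28)
        (x := w.re) (T := T) (x' := v.re) (t' := v.im)
        (by decide +kernel : chk [S2E 65 29 G_r36_two, sub uE (q 5 6)] 28
          [V.of 10000 3600 3850, V.of 10000 (-940) (-460), V.of 10000 500 5000, V.of 10000 (-1230) (-150)] = true)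
        ⟨by norm_num; linarith only [hx], by norm_num; linarith only [hx']⟩ ⟨by norm_num; linarith only [hT], by norm_num; linarith only [hT']⟩ ⟨by norm_num; linarith only [h], by norm_num; linarith only [v1]⟩
        ⟨by norm_num; linarith only [i0], by norm_num; linarith only [i3]⟩ (by
          intro e he
          simp only [List.mem_cons, List.not_mem_nil, or_false] at he
          rcases he with rfl <;> (simp only [E.val, uE_val, yE_val, lkR]; norm_num; linarith only [h5]))
      rw [S2E_val] at this
      linarith only [this]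
  · intro h5 h6
    have h : 5 / 100 ≤ v.re := by linarith only [hx', h5]
    have i3 := i2 h
    have hs : w.im + v.im ≤ 0 := by
      have := im_le0 (XM := 65) (cr := 29) (x := w.re) (T := T) hT0 (by norm_num; linarith only [hx'])
      rw [hw]; linarith only [i3, this]
    refine ⟨((0 : ℤ) : ℝ), by simpa using mul_YY_00 (mR_nonneg hT0) (by rw [hre]; linarith only [h5]) (by rw [him]; exact hs), ?_⟩
    rw [hw]
    have := pos_box (G := N2E 65 29 G_r36_two 0) (al := [sub (q 5 6) uE]) (fuel := 28)
      (x := w.re) (T := T) (x' := v.re) (t' := v.im)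
      (by decide +kernel : chk [N2E 65 29 G_r36_two 0, sub (q 5 6) uE] 28
        [V.of 10000 3600 3850, V.of 10000 (-940) (-460), V.of 10000 4483 5000, V.of 10000 (-1230) (-150)] = true)
      ⟨by norm_num; linarith only [hx], by norm_num; linarith only [hx']⟩ ⟨by norm_num; linarith only [hT], by norm_num; linarith only [hT']⟩ ⟨by norm_num; linarith only [hx', h5], by norm_num; linarith only [v1]⟩
      ⟨by norm_num; linarith only [i0], by norm_num; linarith only [i3]⟩ (by
        intro e he
        simp only [List.mem_cons, List.not_mem_nil, or_false] at he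
        rcases he with rfl <;> (simp only [E.val, uE_val, yE_val, lkR]; norm_num; linarith only [h5]))
    rw [N2E_val] at this
    linarith only [this]
  · intro h5
    exfalso; linarith only [hx', v1, h5]

/-- bound -/
def G_r36_twoE : E := sub (mul (q 76 10) (add (var 1) (q 87 1000))) (q 905 1000)

/-- own side, the other neighbour of the digit is a `2` at an end -/
theorem r36_twoE {w v : ℂ} {T : ℝ} (hT : -(1145 / 10000) ≤ T) (hT' : T ≤ -(870 / 10000))
    (hw : w.im = tR 65 29 w.re T) (hx : 3600 / 10000 ≤ w.re) (hx' : w.re ≤ 3700 / 10000)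
    (v0 : 0 ≤ v.re) (v1 : v.re ≤ 5 / 10) (i0 : -(123 / 1000) ≤ v.im)
    (i1 : v.re ≤ 5 / 100 → v.im ≤ -(3 / 10) * v.re) (i2 : 5 / 100 ≤ v.re → v.im ≤ -(15 / 1000)) :
    S2 1 (mR 29 T) w v < 76 / 10 * (T + 87 / 1000) - 905 / 1000 := by
  have hF : G_r36_twoE.val [w.re, T, v.re, v.im] = 76 / 10 * (T + 87 / 1000) - 905 / 1000 := by
    simp only [G_r36_twoE, E.val, lkR]
    push_cast
    ring
  rw [← hF]
  have hre : (w + v).re = w.re + v.re := Complex.add_re _ _
  have him : (w + v).im = w.im + v.im := Complex.add_im _ _
  have hT0 : T ≤ 0 := by linarith only [hT']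
  apply S2_zone (by linarith only [hx]) (by linarith only [hx']) (by linarith only [v0]) (by linarith only [hx', v1])
  · intro h5
    rw [hw]
    rcases le_total v.re (5 / 100) with h | h
    · have i3 := i1 h
      have := pos_box (G := S2E 65 29 G_r36_twoE) (al := [add (var 3) (mul (q 3 10) (var 2))]) (fuel := 28)
        (x := w.re) (T := T) (x' := v.re) (t' := v.im)
        (by decide +kernel : chk [S2E 65 29 G_r36_twoE, add (var 3) (mul (q 3 10) (var 2))] 28
          [V.of 10000 3600 3700, V.of 10000 (-1145) (-870), V.of 10000 0 500, V.of 10000 (-1230) 0] = true)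
        ⟨by norm_num; linarith only [hx], by norm_num; linarith only [hx']⟩ ⟨by norm_num; linarith only [hT], by norm_num; linarith only [hT']⟩ ⟨by norm_num; linarith only [v0], by norm_num; linarith only [h]⟩
        ⟨by norm_num; linarith only [i0], by norm_num; linarith only [v0, i3]⟩ (by
          intro e he
          simp only [List.mem_cons, List.not_mem_nil, or_false] at he
          rcases he with rfl <;> (simp only [E.val, uE_val, yE_val, lkR]; norm_num; linarith only [i3]))
      rw [S2E_val] at this
      linarith only [this]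
    · have i3 := i2 h
      have := pos_box (G := S2E 65 29 G_r36_twoE) (al := [sub uE (q 5 6)]) (fuel := 28)
        (x := w.re) (T := T) (x' := v.re) (t' := v.im)
        (by decide +kernel : chk [S2E 65 29 G_r36_twoE, sub uE (q 5 6)] 28
          [V.of 10000 3600 3700, V.of 10000 (-1145) (-870), V.of 10000 500 5000, V.of 10000 (-1230) (-150)] = true)
        ⟨by norm_num; linarith only [hx], by norm_num; linarith only [hx']⟩ ⟨by norm_num; linarith only [hT], by norm_num; linarith only [hT']⟩ ⟨by norm_num; linarith only [h], by norm_num; linarith only [v1]⟩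
        ⟨by norm_num; linarith only [i0], by norm_num; linarith only [i3]⟩ (by
          intro e he
          simp only [List.mem_cons, List.not_mem_nil, or_false] at he
          rcases he with rfl <;> (simp only [E.val, uE_val, yE_val, lkR]; norm_num; linarith only [h5]))
      rw [S2E_val] at this
      linarith only [this]
  · intro h5 h6
    have h : 5 / 100 ≤ v.re := by linarith only [hx', h5]
    have i3 := i2 h
    have hs : w.im + v.im ≤ 0 := by
      have := im_le0 (XM := 65) (cr := 29) (x := w.re) (T := T) hT0 (by norm_num; linarith only [hx'])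
      rw [hw]; linarith only [i3, this]
    refine ⟨((0 : ℤ) : ℝ), by simpa using mul_YY_00 (mR_nonneg hT0) (by rw [hre]; linarith only [h5]) (by rw [him]; exact hs), ?_⟩
    rw [hw]
    have := pos_box (G := N2E 65 29 G_r36_twoE 0) (al := [sub (q 5 6) uE]) (fuel := 28)
      (x := w.re) (T := T) (x' := v.re) (t' := v.im)
      (by decide +kernel : chk [N2E 65 29 G_r36_twoE 0, sub (q 5 6) uE] 28
        [V.of 10000 3600 3700, V.of 10000 (-1145) (-870), V.of 10000 4633 5000, V.of 10000 (-1230) (-150)] = true)
      ⟨by norm_num; linarith only [hx], by norm_num; linarith only [hx']⟩ ⟨by norm_num; linarith only [hT], by norm_num; linarith only [hT']⟩ ⟨by norm_num; linarith only [hx', h5], by norm_num; linarith only [v1]⟩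
      ⟨by norm_num; linarith only [i0], by norm_num; linarith only [i3]⟩ (by
        intro e he
        simp only [List.mem_cons, List.not_mem_nil, or_false] at he
        rcases he with rfl <;> (simp only [E.val, uE_val, yE_val, lkR]; norm_num; linarith only [h5]))
    rw [N2E_val] at this
    linarith only [this]
  · intro h5
    exfalso; linarith only [hx', v1, h5]

/-- bound -/
def F_r36d_two : E := add (q 74 100) (mul (q 675 100) (sub (var 1) (q 46 1000)))

/-- side of the digit, its other neighbour is an interior `2` -/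
theorem r36d_two {w v : ℂ} {T : ℝ} (hT : 460 / 10000 ≤ T) (hT' : T ≤ 940 / 10000)
    (hw : w.im = tR 65 29 w.re T) (hx : 3600 / 10000 ≤ w.re) (hx' : w.re ≤ 3850 / 10000)
    (v0 : 2276 / 10000 ≤ v.re) (v1 : v.re ≤ 5600 / 10000) (i0 : 80 / 10000 ≤ v.im) (i1 : v.im ≤ 770 / 10000)
    (s1 : T + v.im ≤ 148 / 1000) (f1 : 226 / 1000 + 2 / 10 * v.im ≤ v.re) :
    S1 1 (mR 29 T) w v < 74 / 100 + 675 / 100 * (T - 46 / 1000) := by
  have hF : ∀ x' t' : ℝ, F_r36d_two.val [w.re, T, x', t'] = 74 / 100 + 675 / 100 * (T - 46 / 1000) := by
    intro x' t'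
    simp only [F_r36d_two, E.val, lkR]
    push_cast
    ring
  have hre : (w + v).re = w.re + v.re := Complex.add_re _ _
  have him : (w + v).im = w.im + v.im := Complex.add_im _ _
  have hT0 : 0 ≤ T := by linarith only [hT]
  have hs0 : 0 ≤ w.im := by
    rw [hw]
    exact im_ge0 hT0 (by norm_num; linarith only [hx'])
  rw [← hF v.re v.im]
  apply S1_zone (by linarith only [hx]) (by linarith only [hx']) (by linarith only [v0]) (by linarith only [hx', v1])
  · intro h5
    rw [hw]
    have := pos_box (G := S1E 65 29 F_r36d_two) (al := [sub uE (q 5 6), sub (add (var 1) (var 3)) (q 148 1000), sub (add (q 226 1000) (mul (q 2 10) (var 3))) (var 2)]) (fuel := 28)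
      (x := w.re) (T := T) (x' := v.re) (t' := v.im)
      (by decide +kernel : chk [S1E 65 29 F_r36d_two, sub uE (q 5 6), sub (add (var 1) (var 3)) (q 148 1000), sub (add (q 226 1000) (mul (q 2 10) (var 3))) (var 2)] 28
        [V.of 10000 3600 3850, V.of 10000 460 940, V.of 10000 2276 4734, V.of 10000 80 770] = true)
      ⟨by norm_num; linarith only [hx], by norm_num; linarith only [hx']⟩ ⟨by norm_num; linarith only [hT], by norm_num; linarith only [hT']⟩ ⟨by norm_num; linarith only [v0], by norm_num; linarith only [hx, h5]⟩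
      ⟨by norm_num; linarith only [i0], by norm_num; linarith only [i1]⟩ (by
        intro e he
        simp only [List.mem_cons, List.not_mem_nil, or_false] at he
        rcases he with rfl | rfl | rfl <;> (simp only [E.val, uE_val, yE_val, lkR]; norm_num; linarith only [h5, s1, f1]))
    rw [S1E_val] at this
    linarith only [this]
  · intro h5 h6
    have hs : 0 ≤ w.im + v.im := by linarith only [i0, hs0]
    refine ⟨((0 : ℤ) : ℝ), by simpa using mul_YY_10 (mR_nonpos hT0) (by rw [hre]; linarith only [h5]) (by rw [him]; exact hs), ?_⟩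
    rw [hw] at hs ⊢
    have := pos_box (G := N1E 65 29 F_r36d_two 0) (al := [sub (q 5 6) uE, sub (add (var 1) (var 3)) (q 148 1000), sub (add (q 226 1000) (mul (q 2 10) (var 3))) (var 2)]) (fuel := 28)
      (x := w.re) (T := T) (x' := v.re) (t' := v.im)
      (by decide +kernel : chk [N1E 65 29 F_r36d_two 0, sub (q 5 6) uE, sub (add (var 1) (var 3)) (q 148 1000), sub (add (q 226 1000) (mul (q 2 10) (var 3))) (var 2)] 28
        [V.of 10000 3600 3850, V.of 10000 460 940, V.of 10000 4483 5600, V.of 10000 80 770] = true)
      ⟨by norm_num; linarith only [hx], by norm_num; linarith only [hx']⟩ ⟨by norm_num; linarith only [hT], by norm_num; linarith only [hT']⟩ ⟨by norm_num; linarith only [hx', h5], by norm_num; linarith only [v1]⟩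
      ⟨by norm_num; linarith only [i0], by norm_num; linarith only [i1]⟩ (by
        intro e he
        simp only [List.mem_cons, List.not_mem_nil, or_false] at he
        rcases he with rfl | rfl | rfl <;> (simp only [E.val, uE_val, yE_val, lkR]; norm_num; linarith only [h5, s1, hx', i1]))
    rw [N1E_val] at this
    linarith only [this]
  · intro h5
    exfalso; linarith only [hx', v1, h5]

/-- bound -/
def F_r36d_twoE : E := add (q 905 1000) (mul (q 76 10) (sub (var 1) (q 87 1000)))

/-- side of the digit, its other neighbour is a `2` at an end -/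
theorem r36d_twoE {w v : ℂ} {T : ℝ} (hT : 870 / 10000 ≤ T) (hT' : T ≤ 1145 / 10000)
    (hw : w.im = tR 65 29 w.re T) (hx : 3600 / 10000 ≤ w.re) (hx' : w.re ≤ 3700 / 10000)
    (v0 : 1400 / 10000 ≤ v.re) (v1 : v.re ≤ 3700 / 10000) (i0 : -(450 / 10000) ≤ v.im) (i1 : v.im ≤ -(235 / 10000)) :
    S1 1 (mR 29 T) w v < 905 / 1000 + 76 / 10 * (T - 87 / 1000) := by
  have hF : ∀ x' t' : ℝ, F_r36d_twoE.val [w.re, T, x', t'] = 905 / 1000 + 76 / 10 * (T - 87 / 1000) := by
    intro x' t'
    simp only [F_r36d_twoE, E.val, lkR]
    push_cast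
    ring
  have hre : (w + v).re = w.re + v.re := Complex.add_re _ _
  have him : (w + v).im = w.im + v.im := Complex.add_im _ _
  have hT0 : 0 ≤ T := by linarith only [hT]
  have hs0 : 0 ≤ w.im := by
    rw [hw]
    exact im_ge0 hT0 (by norm_num; linarith only [hx'])
  rw [← hF v.re v.im]
  apply S1_zone (by linarith only [hx]) (by linarith only [hx']) (by linarith only [v0]) (by linarith only [hx', v1])
  · intro h5
    rw [hw]
    have := pos_box (G := S1E 65 29 F_r36d_twoE) (al := []) (fuel := 28)
      (x := w.re) (T := T) (x' := v.re) (t' := v.im)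
      (by decide +kernel : chk [S1E 65 29 F_r36d_twoE] 28
        [V.of 10000 3600 3700, V.of 10000 870 1145, V.of 10000 1400 3700, V.of 10000 (-450) (-235)] = true)
      ⟨by norm_num; linarith only [hx], by norm_num; linarith only [hx']⟩ ⟨by norm_num; linarith only [hT], by norm_num; linarith only [hT']⟩ ⟨by norm_num; linarith only [v0], by norm_num; linarith only [v1]⟩
      ⟨by norm_num; linarith only [i0], by norm_num; linarith only [i1]⟩ (by simp)
    rw [S1E_val] at this
    linarith only [this]
  · intro h5 h6
    exfalso; linarith only [hx', v1, h5]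
  · intro h5
    exfalso; linarith only [hx', v1, h5]

/-- side of the digit at slope `0` -/
def fd1E : E :=
  sub (e1 (q 0 1) (var 0) (var 1) (var 2) (mul (var 3) (mul (q 100 29) (sub (q 65 100) (var 2)))))
    (sub (q 52 100) (mul (q 25 10) (sub (var 1) (q 1 100))))

/-- side of the `2` at slope `0` -/
def fd2E : E :=
  add (e2 (q 0 1) (var 0) (neg (var 1)) (var 2) (var 3))
    (sub (q 52 100) (mul (q 25 10) (sub (var 1) (q 1 100))))

/-- the bound of the floor -/
def flE : E := sub (var 0) (add (q 226 1000) (mul (q 2 10) (var 1)))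

theorem fd1E_val {k K x T : ℝ} : fd1E.val [k, K, x, T] =
    s1 0 k K x (T * (100 / 29 * (65 / 100 - x))) - (52 / 100 - 25 / 10 * (K - 1 / 100)) := by
  rw [fd1E, E.val, e1_val]
  simp only [E.val, lkR]
  norm_num

theorem fd2E_val {k K x t : ℝ} : fd2E.val [k, K, x, t] =
    s2 0 k (-K) x t + (52 / 100 - 25 / 10 * (K - 1 / 100)) := by
  rw [fd2E, E.val, e2_val]
  simp only [E.val, lkR]
  norm_num

/-- flat part of the hinge `1 | 2`, side of the digit, the other hinge is the slot 2 of a region
with three crossings on its right ramp -/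
theorem r36f_one {w v : ℂ} {T K : ℝ} (hx : 16 / 100 ≤ w.re) (hx' : w.re ≤ 226 / 1000 + 2 / 10 * K)
    (hw : w.im = K) (K0 : 1 / 100 ≤ K) (K1 : K ≤ 77 / 1000)
    (v0 : 36 / 100 ≤ v.re) (v1 : v.re ≤ 385 / 1000) (hv : v.im = T * ((65 / 100 - v.re) / (29 / 100)))
    (hT : 46 / 1000 ≤ T) (hT' : T ≤ 94 / 1000) (s0 : 78 / 1000 ≤ T + K) (s1 : T + K ≤ 148 / 1000) :
    52 / 100 - 25 / 10 * (K - 1 / 100) < S1 1 0 w v := by
  have hre : (w + v).re = w.re + v.re := Complex.add_re _ _
  have := pos_box (G := fd1E) (al := [flE, sub (q 78 1000) (add (var 1) (var 3)), sub (add (var 1) (var 3)) (q 148 1000)]) (fuel := 28)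
    (x := w.re) (T := K) (x' := v.re) (t' := T)
    (by decide +kernel : chk [fd1E, flE, sub (q 78 1000) (add (var 1) (var 3)), sub (add (var 1) (var 3)) (q 148 1000)] 28
      [V.of 10000 1600 2414, V.of 10000 100 770, V.of 10000 3600 3850, V.of 10000 460 940] = true)
    ⟨by norm_num; linarith only [hx], by norm_num; linarith only [hx', K1]⟩ ⟨by norm_num; linarith only [K0], by norm_num; linarith only [K1]⟩ ⟨by norm_num; linarith only [v0], by norm_num; linarith only [v1]⟩
    ⟨by norm_num; linarith only [hT], by norm_num; linarith only [hT']⟩ (by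
      intro e he
      simp only [List.mem_cons, List.not_mem_nil, or_false] at he
      rcases he with rfl | rfl | rfl <;> (simp only [flE, E.val, lkR]; norm_num; linarith only [hx', s0, s1]))
  rw [fd1E_val] at this
  rw [S1_eq _ ⟨by linarith only [hx], by linarith only [hx', K1]⟩ ⟨by rw [hre]; linarith only [hx, v0], by rw [hre]; linarith only [hx', K1, v1]⟩, hw, hv]
  have e : T * ((65 / 100 - v.re) / (29 / 100)) = T * (100 / 29 * (65 / 100 - v.re)) := by ring
  rw [e]
  linarith only [this]

/-- flat part of the hinge `1 | 2`, side of the `2` -/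
theorem r36f_two {w v : ℂ} {K : ℝ} (hx : 16 / 100 ≤ w.re) (hx' : w.re ≤ 226 / 1000 + 2 / 10 * K)
    (hw : w.im = -K) (K0 : 1 / 100 ≤ K) (K1 : K ≤ 77 / 1000)
    (v0 : 10 / 100 ≤ v.re) (v1 : v.re ≤ 56 / 100) (i0 : -(985 / 10000) ≤ v.im)
    (i1 : v.im ≤ 96 / 1000) : -(52 / 100 - 25 / 10 * (K - 1 / 100)) < S2 1 0 w v := by
  have hre : (w + v).re = w.re + v.re := Complex.add_re _ _
  have := pos_box (G := fd2E) (al := [flE]) (fuel := 28)
    (x := w.re) (T := K) (x' := v.re) (t' := v.im)
    (by decide +kernel : chk [fd2E, flE] 28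
      [V.of 10000 1600 2414, V.of 10000 100 770, V.of 10000 1000 5600, V.of 10000 (-985) 960] = true)
    ⟨by norm_num; linarith only [hx], by norm_num; linarith only [hx', K1]⟩ ⟨by norm_num; linarith only [K0], by norm_num; linarith only [K1]⟩ ⟨by norm_num; linarith only [v0], by norm_num; linarith only [v1]⟩
    ⟨by norm_num; linarith only [i0], by norm_num; linarith only [i1]⟩ (by
      intro e he
      simp only [List.mem_cons, List.not_mem_nil, or_false] at he
      rcases he with rfl <;> (simp only [flE, E.val, lkR]; norm_num; linarith only [hx']))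
  rw [fd2E_val] at this
  rw [S2_eq _ ⟨by linarith only [hx], by linarith only [hx', K1]⟩ ⟨by rw [hre]; linarith only [hx, v0], by rw [hre]; linarith only [hx', K1, v1]⟩, hw]
  linarith only [this]

end MR

end Pool.Agent.Work.MP_b30479_gt.G2
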