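import Pool.Agent.Work.MP_b30479_gt.G2.R31
import Pool.Agent.Work.MP_b30479_gt.G2.R36A
import Pool.Agent.Work.MP_b30479_gt.G2.R36W
import Pool.Agent.Work.MP_b30479_gt.G2.WTab

/-!
# The slot-2 hinge of an interior region with three crossings next to a digit `±1` is on its flat part

Uses the floors `F2` and the caps of the hinges of the digits `2`.
-/

set_option linter.unusedSimpArgs false

namespace Pool.Agent.Work.MP_b30479_gt.G2

open Finset VOL Filter Topology NumU

namespace SR

variable {M : ℕ} {b : Fin (M + 1) → ℤ} {zs : DD (tyW b) ⊕ ZZ (tyW b) → ℂ}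
variable {y : DD (tyW b) ⊕ ZZ (tyW b) → ℝ}
variable {h h' : Fin M} {i j j' k : Fin (M + 1)} {p : Fin 3}

theorem Adj.flat_left38 (A : Adj h i p j) (hy : Mx b zs y) (h0 : wcl b h ≤ y (.inl (.inl h)))
    (h1 : y (.inl (.inl h)) < wXM b h - wcr b h)
    (hs : 0 < Sw b zs y i p 0 + Sw b zs y j p.rev 0) : False := by
  cases A
  · exact flat_false_left hy h h0 h1 hs
  · exact flat_false_left hy h h0 h1 (by rw [add_comm]; exact hs)

/-- the parameters of a hinge `1 | 2`, the `1` on the left -/
theorem Adj.par38_two (B : Adj h j 2 k) (hj : clsW b j = .one) (hk : clsW b k = .two) :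
    wXM b h = 80 / 100 ∧ wcl b h = 16 / 100 ∧ wcr b h = 29 / 100 := by
  rw [B.XM_eq b, B.cl_eq b, B.cr_eq b, hj, hk]
  unfold SR.hpp hp hp1
  rw [if_pos rfl]
  simp

/-- the parameters of a hinge `1 | 2`, the `1` on the left -/
theorem Adj.par38_twoE (B : Adj h j 2 k) (hj : clsW b j = .one) (hk : clsW b k = .twoE) :
    wXM b h = 70 / 100 ∧ wcl b h = 14 / 100 ∧ wcr b h = 35 / 100 := by
  rw [B.XM_eq b, B.cl_eq b, B.cr_eq b, hj, hk]
  unfold SR.hpp hp hp1
  rw [if_pos rfl]
  simp

/-- conditional floor of the hinge `1 | 2` of a digit `1` right of an interior region with three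
crossings -/
theorem cf31_two (A : Adj h i 2 j) (B : Adj h' j 2 k) (hb : ClassW b) (hL : Loc b zs)
    (hX : LocX b zs) (hy : Mx b zs y) (hF : Flr b y F2)
    (h2 : ∀ {h : Fin M} {i j : Fin (M + 1)} {p : Fin 3}, Adj h i p j → clsW b i = .two →
      y (.inl (.inl h)) ≤ 56 / 100)
    (hi : clsW b i = .three) (hj : clsW b j = .one) (hk : clsW b k = .two)
    (hx : 36 / 100 < y (.inl (.inl h))) (hx' : y (.inl (.inl h)) ≤ 385 / 1000) :
    226 / 1000 + 2 / 10 * ofs (b j) (zs (.inl (.inl h'))).im ≤ y (.inl (.inl h')) := by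
  by_contra hcon
  push Not at hcon
  have e0 : (2 : Fin 3).rev = 0 := rfl
  have e2 : (0 : Fin 3).rev = 2 := rfl
  have A' := A.symm
  rw [e0] at A'
  have B' : Adj h' j (0 : Fin 3).rev k := B
  have A'' : Adj h j (2 : Fin 3).rev i := A'
  obtain ⟨a0, a1, a2, a3⟩ := hX.win A' B' hj
  obtain ⟨b0, b1, -, -⟩ := hX.win B A'' hj
  rw [hi, hk] at a0 a1 a2 a3 b0 b1
  norm_num [cw] at a0 a1 a2 a3 b0 b1
  obtain ⟨p1, p2, p3⟩ := B.par38_two hj hk
  have hop := B.opp hb (Or.inl (by rw [hj]; decide))
  have hf := hF B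
  rw [hj, hk] at hf
  norm_num [F2] at hf
  have hBj := B.rh hy
  have hBk := B.symm.rh hy
  have rj := B.re (zs := zs) (y := y)
  have rk := B.symm.re (zs := zs) (y := y)
  rw [e0] at hBk rk
  rw [p1, p2, p3] at hBj hBk
  have ij := MR.RH_flat hBj (by norm_num) (by norm_num) (by rw [rj]; linarith only [hf])
    (by rw [rj]; linarith only [hx, hx', hcon, a0, a3])
  have ik := MR.RH_flat hBk (by norm_num) (by norm_num) (by rw [rk]; linarith only [hf])
    (by rw [rk]; linarith only [hx, hx', hcon, a0, a3])
  have hT2 : ofs (b k) (zs (.inl (.inl h'))).im = -ofs (b j) (zs (.inl (.inl h'))).im :=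
    ofs_opp hop _
  rw [hT2] at ik
  have hv := A.height_three_one A' hi hj hy hx
  have rv := A'.re (zs := zs) (y := y)
  have s1 := MR.r36f_one (w := Yw b zs y j 2) (v := Yw b zs y j 0)
    (T := ofs (b j) (zs (.inl (.inl h))).im) (K := ofs (b j) (zs (.inl (.inl h'))).im)
    (by rw [rj]; linarith only [hf]) (by rw [rj]; linarith only [hcon]) ij (by linarith only [b0]) (by linarith only [b1])
    (by rw [rv]; linarith only [hx]) (by rw [rv]; linarith only [hx']) (by rw [hv]; unfold MR.tR; push_cast; ring)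
    (by linarith only [a0]) (by linarith only [a1]) (by linarith only [a2]) (by linarith only [a3])
  obtain ⟨h2', l, C⟩ := B.symm.other' b (clsW_inner hb (Or.inr (Or.inl hk)))
  rw [e0, e2] at C
  have c1 := hF C
  have c2 := h2 C hk
  rw [hk] at c1
  have c3 : (100 : ℝ) / 1000 ≤ y (.inl (.inl h2')) := by
    refine le_trans ?_ c1
    cases clsW b l <;> simp only [F2] <;> (try split_ifs) <;> norm_num
  obtain ⟨c4, c5⟩ := C.im_two hb hL hy hk
  have rc := C.re (zs := zs) (y := y)
  have s2 := MR.r36f_two (w := Yw b zs y k 0) (v := Yw b zs y k 2)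
    (K := ofs (b j) (zs (.inl (.inl h'))).im)
    (by rw [rk]; linarith only [hf]) (by rw [rk]; linarith only [hcon]) ik (by linarith only [b0]) (by linarith only [b1])
    (by rw [rc]; linarith only [c3]) (by rw [rc]; linarith only [c2]) c4 c5
  have q1 := B.side_one (zs := zs) (y := y) hb hj 0
  have q2 := B.symm.side_two (zs := zs) (y := y) hb (Or.inl hk) 0
  rw [e0, ofs_zero'] at q1
  rw [e0, e2, ofs_zero'] at q2
  rw [← q1] at s1
  rw [← q2] at s2
  refine B.flat_left38 hy (by rw [p2]; linarith only [hf]) (by rw [p1, p3]; linarith only [hx, hx', hcon, a0, a3]) ?_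
  rw [e0]
  linarith only [s1, s2]

/-- **`3 | 1`** with the `3` on the left: the flat end. -/
theorem cap_three_one_flat (A : Adj h i 2 j) (B : Adj h' j 2 k) (hb : ClassW b) (hL : Loc b zs)
    (hX : LocX b zs) (hy : Mx b zs y) (h0 : 0 < y (.inl (.inl h))) (hF : Flr b y F2)
    (h2 : ∀ {h : Fin M} {i j : Fin (M + 1)} {p : Fin 3}, Adj h i p j → clsW b i = .two →
      y (.inl (.inl h)) ≤ 56 / 100)
    (h2e : ∀ {h : Fin M} {i j : Fin (M + 1)} {p : Fin 3}, Adj h i p j → clsW b i = .one →
      clsW b j = .twoE → y (.inl (.inl h)) ≤ 37 / 100)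
    (hi : clsW b i = .three) (hj : clsW b j = .one) : y (.inl (.inl h)) ≤ 36 / 100 := by
  by_contra hcon
  push Not at hcon
  have hcap := cap_three_one A B hb hL hX hy h0 hi hj
  have hop := A.opp hb (Or.inl (by rw [hi]; decide))
  have A' := A.symm
  have e0 : (2 : Fin 3).rev = 0 := rfl
  have e2 : (0 : Fin 3).rev = 2 := rfl
  rw [e0] at A'
  have hT : ofs (b j) (zs (.inl (.inl h))).im = -ofs (b i) (zs (.inl (.inl h))).im := ofs_opp hop _
  obtain ⟨f1, f2, f3⟩ := A.par_three_one hi hj
  have hxi := A.re (zs := zs) (y := y)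
  have hxj := A'.re (zs := zs) (y := y)
  obtain ⟨m1, m2, m3, m4, m5, m6, m7⟩ := A.mid_three_one hb hX hy hi hj
  have B' : Adj h' j (0 : Fin 3).rev k := B
  have A'' : Adj h j (2 : Fin 3).rev i := A'
  obtain ⟨a0, a1, a2, a3⟩ := hX.win A' B' hj
  obtain ⟨b0, b1, -, -⟩ := hX.win B A'' hj
  rw [hi] at a0 a1 a2 a3 b0 b1
  have hB := B.rh hy
  have hrB := B.re (zs := zs) (y := y)
  have hf := hF B
  rw [hj] at hf
  have hok := okp_of hb B A'' hj
  have hQ : clsW b k = .one ∨ clsW b k = .two ∨ clsW b k = .twoE := by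
    rcases hok with h1 | h1
    · exact h1
    · rw [hi] at h1
      simp at h1
  have hwi := A.height_three_one A hi hj hy hcon
  have hwj := A.height_three_one A' hi hj hy hcon
  have hsi := A.side_three_two (zs := zs) (y := y) hb hi (slL b zs y h)
  have hsj := A'.side_one (zs := zs) (y := y) hb hj (slL b zs y h)
  rw [A.slope_three_one hi hj hcon] at hsi hsj
  rw [e2] at hsj
  have fin : ∀ e : ℝ, Sw b zs y i 2 (slL b zs y h) < e → Sw b zs y j 0 (slL b zs y h) < -e →
      False := by
    intro e s1 s2
    exact rstep_false hb hy h0 (RStep.of_adj A (c := 0) (fun _ => rfl)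
      (e1 := Sw b zs y i 2 (slL b zs y h)) (e2 := Sw b zs y j 0 (slL b zs y h))
      (by linarith only [s1, s2]) (by linarith only []) (by
        show Sw b zs y j 0 (slL b zs y h) + 0 * ofs (b j) (slL b zs y h) ≤ _
        linarith only []))
  have q : gn3 b zs y h i 2 1 (26 / 100) + gn1 b zs y h j 0 2 (26 / 100) ≤ 0 :=
    gain_three_one hb hy A hi hj (by rw [f2]; norm_num) (by rw [f1, f3]; norm_num)
  unfold gn3 gn1 at q
  rcases hQ with hk | hk | hk
  · rw [hk] at hcap
    simp only [cap31] at hcap
    linarith only [hcon, hcap]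
  · rw [hk] at hcap
    simp only [cap31] at hcap
    have hfl := cf31_two A B hb hL hX hy hF h2 hi hj hk hcon hcap
    obtain ⟨p1, p2, p3⟩ := B.par38_two hj hk
    rw [p1, p2, p3] at hB
    have hB56 := h2 B.symm hk
    rw [hk] at a0 a1 a2 a3 b0 b1
    norm_num [cw] at a0 a1 a2 a3 b0 b1
    have him : 80 / 10000 ≤ (Yw b zs y j 2).im ∧
        (Yw b zs y j 2).im ≤ ofs (b j) (zs (.inl (.inl h'))).im := by
      rcases le_total (y (.inl (.inl h'))) (51 / 100) with h51 | h51
      · rw [MR.RH_flat hB (by norm_num) (by norm_num) (by rw [hrB]; linarith only [h0, hcap, hfl, a1, a2])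
          (by rw [hrB]; linarith only [h51])]
        constructor <;> linarith only [h0, hcap, b0]
      · rw [MR.RH_right hB (by norm_num) (by norm_num) (by norm_num) (by rw [hrB]; linarith only [h51]), hrB]
        constructor <;> nlinarith only [b0, h0, hcap, hB56, a1, a2, h51]
    rcases le_total (1 / 2) (Yw b zs y i 1).re with hv | hv
    · have q1 := R3V.p2_gain (w := Yw b zs y i 2) (v := Yw b zs y i 1)
        (T := ofs (b i) (zs (.inl (.inl h))).im) (by linarith only [hT, a1]) (by linarith only [hT, a0]) hwi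
        (by rw [hxi]; linarith only [hcon]) (by rw [hxi]; linarith only [hcap]) (by linarith only [hv]) m2 m3 m4
        (fun r => m6 (by linarith only [h0, hcap, hv]) r) m7
      have q2 := R3V.e2_gain (w := Yw b zs y j 0) (v := Yw b zs y j 2)
        (T := ofs (b j) (zs (.inl (.inl h))).im) (by linarith only [a0]) (by linarith only [a1]) hwj
        (by rw [hxj]; linarith only [hcon]) (by rw [hxj]; linarith only [hcap]) (by rw [hrB]; linarith only [h0, hcap, hfl, b0])
        (by rw [hrB]; linarith only [hB56]) him.1 (by linarith only [b1, him, him.2]) (by linarith only [a3, him, him.2])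
        (by rw [hrB]; linarith only [hfl, him, him.2])
      rw [hxi] at q1
      rw [hxj, hT] at q2
      rw [hxi, hxj] at q
      rw [hT] at q
      linarith only [q, q1, q2]
    · have s1 := MR.r36_two (w := Yw b zs y i 2) (v := Yw b zs y i 1)
        (T := ofs (b i) (zs (.inl (.inl h))).im) (by linarith only [hT, a1]) (by linarith only [hT, a0]) hwi
        (by rw [hxi]; linarith only [hcon]) (by rw [hxi]; linarith only [hcap]) m1 (by linarith only [hv]) m3 m5
        (fun r => m6 r (by linarith only [m2, hv]))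
      have s2 := MR.r36d_two (w := Yw b zs y j 0) (v := Yw b zs y j 2)
        (T := ofs (b j) (zs (.inl (.inl h))).im) (by linarith only [a0]) (by linarith only [a1]) hwj
        (by rw [hxj]; linarith only [hcon]) (by rw [hxj]; linarith only [hcap]) (by rw [hrB]; linarith only [h0, hcap, hfl, b0])
        (by rw [hrB]; linarith only [hB56]) him.1 (by linarith only [b1, him, him.2]) (by linarith only [a3, him, him.2])
        (by rw [hrB]; linarith only [hfl, him, him.2])
      rw [← hsi] at s1
      rw [← hsj] at s2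
      exact fin _ s1 (by rw [hT] at s2; linarith only [s2])
  · rw [hk] at hcap
    simp only [cap31] at hcap
    obtain ⟨p1, p2, p3⟩ := B.par38_twoE hj hk
    rw [p1, p2, p3] at hB
    have hB37 := h2e B hj hk
    rw [hk] at hf a0 a1 a2 a3 b0 b1
    norm_num [cw] at a0 a1 a2 a3 b0 b1
    norm_num [F2] at hf
    have him : -(450 / 10000) ≤ (Yw b zs y j 2).im ∧ (Yw b zs y j 2).im ≤ -(235 / 10000) := by
      rcases le_total (y (.inl (.inl h'))) (35 / 100) with h51 | h51
      · rw [MR.RH_flat hB (by norm_num) (by norm_num) (by rw [hrB]; linarith only [hf])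
          (by rw [hrB]; linarith only [h51])]
        constructor <;> linarith only [b0, hcon, hcap, b1]
      · rw [MR.RH_right hB (by norm_num) (by norm_num) (by norm_num) (by rw [hrB]; linarith only [h51]), hrB]
        constructor <;> nlinarith only [b0, h51, hcon, hcap, hB37, b1, h0, a0, a3]
    rcases le_total (1 / 2) (Yw b zs y i 1).re with hv | hv
    · have q1 := R3V.pE_gain (w := Yw b zs y i 2) (v := Yw b zs y i 1)
        (T := ofs (b i) (zs (.inl (.inl h))).im) (by linarith only [hT, a1]) (by linarith only [hT, a0]) hwi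
        (by rw [hxi]; linarith only [hcon]) (by rw [hxi]; linarith only [hcap]) (by linarith only [hv]) m2 m3 m4
        (fun r => m6 (by linarith only [hcon, hcap, hv]) r) m7
      have q2 := R3V.eE_gain (w := Yw b zs y j 0) (v := Yw b zs y j 2)
        (T := ofs (b j) (zs (.inl (.inl h))).im) (by linarith only [a0]) (by linarith only [a1]) hwj
        (by rw [hxj]; linarith only [hcon]) (by rw [hxj]; linarith only [hcap]) (by rw [hrB]; linarith only [hf])
        (by rw [hrB]; linarith only [hB37]) (by linarith only [him, him.1]) (by linarith only [him, him.2])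
      linarith only [q, q1, q2]
    · have s1 := MR.r36_twoE (w := Yw b zs y i 2) (v := Yw b zs y i 1)
        (T := ofs (b i) (zs (.inl (.inl h))).im) (by linarith only [hT, a1]) (by linarith only [hT, a0]) hwi
        (by rw [hxi]; linarith only [hcon]) (by rw [hxi]; linarith only [hcap]) m1 (by linarith only [hv]) m3 m5
        (fun r => m6 r (by linarith only [m2, hv]))
      have s2 := MR.r36d_twoE (w := Yw b zs y j 0) (v := Yw b zs y j 2)
        (T := ofs (b j) (zs (.inl (.inl h))).im) (by linarith only [a0]) (by linarith only [a1]) hwj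
        (by rw [hxj]; linarith only [hcon]) (by rw [hxj]; linarith only [hcap]) (by rw [hrB]; linarith only [hf])
        (by rw [hrB]; linarith only [hB37]) (by linarith only [him, him.1]) (by linarith only [him, him.2])
      rw [← hsi] at s1
      rw [← hsj] at s2
      exact fin _ s1 (by rw [hT] at s2; linarith only [s2])

end SR

end Pool.Agent.Work.MP_b30479_gt.G2
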