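import Pool.Agent.Work.MP_b30479_gt.G2.R32U
import Pool.Agent.Work.NumU.Tree

/-!
# Value moves of the slot-2 hinge of an interior region with three crossings: expressions

Variables of the rows: `x`, `T` (the hinge, on its right ramp, and its height), `x'`, `t'` (the
inner variable or the partner hinge).  The hinge moves to `c + T i`.
-/

namespace Pool.Agent.Work.MP_b30479_gt.G2

open VOL NumU

namespace R3V

/-- gain of a region with two crossings, or of a region with three crossings if its slot-2 hinge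
moves; `a`, `b`: the values of `UU` at the two sums -/
noncomputable def gw (c T x s m t a b : ℝ) : ℝ :=
  Real.pi * ((m - x) * (t - s) + s / 2) - Real.pi * ((m - c) * (t - T) + T / 2) + (a - b) -
    2 * (uu c T - uu x s)

/-- gain of a digit `±1` -/
noncomputable def g1 (c T x s m t a b : ℝ) : ℝ :=
  Real.pi * ((c - x) * t + (T - s) * (m - 1)) + (a - b) - (uu c T - uu x s)

/-! ### zones of the upper sum -/

/-- upper bound of `UU (u + i y)` in the zones `1, .., 4`; `σ`: the sign of `y` -/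
noncomputable def ub (z : ℕ) (σ : ℤ) (u y : ℝ) : ℝ :=
  match z with
  | 1 => uu u y
  | 2 => uu (11 / 12) y + (u - 11 / 12) * MR.nearL y
  | 3 => σ / 2 * (Real.pi * y) + (u - 1) * MR.nearL y
  | _ => uu (u - 1) y + σ * (Real.pi * y)

/-- lower bound of `UU (u + i y)` in the zones `1, .., 4`; `σ`: the sign of `y` -/
noncomputable def lb (z : ℕ) (σ : ℤ) (u y : ℝ) : ℝ :=
  match z with
  | 1 => uu u y
  | 2 => σ / 2 * (Real.pi * y) - (1 - u) * MR.nearL y
  | 3 => uu (1 / 12) y + σ * (Real.pi * y) - (13 / 12 - u) * MR.nearL y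
  | _ => uu (u - 1) y + σ * (Real.pi * y)

theorem abs_eq_pos {y : ℝ} (h : 0 ≤ y) : |y| = ((1 : ℤ) : ℝ) * y := by
  rw [abs_of_nonneg h]; norm_num

theorem abs_eq_neg {y : ℝ} (h : y ≤ 0) : |y| = ((-1 : ℤ) : ℝ) * y := by
  rw [abs_of_nonpos h]; norm_num

theorem ub1 (σ : ℤ) (u y : ℝ) : UU ⟨u, y⟩ ≤ ub 1 σ u y := le_rfl

theorem ub2 (σ : ℤ) {u y : ℝ} (h1 : 11 / 12 ≤ u) (h2 : u ≤ 13 / 12) :
    UU ⟨u, y⟩ ≤ ub 2 σ u y := MR.up2 h1 h2

theorem ub3 {σ : ℤ} {u y : ℝ} (hy : |y| = σ * y) (h1 : 1 ≤ u) (h2 : u ≤ 7 / 6) :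
    UU ⟨u, y⟩ ≤ ub 3 σ u y := by
  have := MR.up3 (t := y) h1 h2
  rw [hy] at this
  show UU ⟨u, y⟩ ≤ σ / 2 * (Real.pi * y) + (u - 1) * MR.nearL y
  linarith only [this]

theorem ub4 {σ : ℤ} {u y : ℝ} (hy : |y| = σ * y) : UU ⟨u, y⟩ ≤ ub 4 σ u y := by
  have := MR.up4 u y
  rw [hy] at this
  show UU ⟨u, y⟩ ≤ uu (u - 1) y + σ * (Real.pi * y)
  linarith only [this]

theorem lb1 (σ : ℤ) (u y : ℝ) : lb 1 σ u y ≤ UU ⟨u, y⟩ := le_rfl

theorem lb2 {σ : ℤ} {u y : ℝ} (hy : σ * y ≤ |y|) (h1 : 5 / 6 ≤ u) (h2 : u ≤ 1) :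
    lb 2 σ u y ≤ UU ⟨u, y⟩ := by
  have := MR.lo2 (t := y) h1 h2
  have h3 := mul_le_mul_of_nonneg_left hy Real.pi_pos.le
  show σ / 2 * (Real.pi * y) - (1 - u) * MR.nearL y ≤ UU ⟨u, y⟩
  linarith only [this, h3]

theorem lb3 {σ : ℤ} {u y : ℝ} (hy : σ * y ≤ |y|) (h1 : 5 / 6 ≤ u) (h2 : u ≤ 13 / 12) :
    lb 3 σ u y ≤ UU ⟨u, y⟩ := by
  have := MR.lo3 (t := y) h1 h2
  have h3 := mul_le_mul_of_nonneg_left hy Real.pi_pos.le
  show uu (1 / 12) y + σ * (Real.pi * y) - (13 / 12 - u) * MR.nearL y ≤ UU ⟨u, y⟩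
  linarith only [this, h3]

theorem lb4 {σ : ℤ} {u y : ℝ} (hy : σ * y ≤ |y|) : lb 4 σ u y ≤ UU ⟨u, y⟩ := by
  have := MR.up4 u y
  have h3 := mul_le_mul_of_nonneg_left hy Real.pi_pos.le
  show uu (u - 1) y + σ * (Real.pi * y) ≤ UU ⟨u, y⟩
  linarith only [this, h3]

/-! ### expressions -/

section
open E

/-- expression for `ub` -/
def ubE (z : ℕ) (σ : ℤ) (u y : NumI.E) : E :=
  match z with
  | 1 => uu (emb u) (emb y)
  | 2 => add (uu (q 11 12) (emb y)) (mul (sub (emb u) (q 11 12)) (emb (MR.nearE y)))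
  | 3 => add (mul (q σ 2) (mul pi (emb y))) (mul (sub (emb u) (q 1 1)) (emb (MR.nearE y)))
  | _ => add (uu (sub (emb u) (q 1 1)) (emb y)) (mul (q σ 1) (mul pi (emb y)))

/-- expression for `lb` -/
def lbE (z : ℕ) (σ : ℤ) (u y : NumI.E) : E :=
  match z with
  | 1 => uu (emb u) (emb y)
  | 2 => sub (mul (q σ 2) (mul pi (emb y))) (mul (sub (q 1 1) (emb u)) (emb (MR.nearE y)))
  | 3 => sub (add (uu (q 1 12) (emb y)) (mul (q σ 1) (mul pi (emb y))))
      (mul (sub (q 13 12) (emb u)) (emb (MR.nearE y)))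
  | _ => add (uu (sub (emb u) (q 1 1)) (emb y)) (mul (q σ 1) (mul pi (emb y)))

theorem ubE_val (z : ℕ) (σ : ℤ) (u y : NumI.E) (xs : List ℝ) :
    (ubE z σ u y).val xs = ub z σ (u.val xs) (y.val xs) := by
  unfold ubE ub
  split <;> simp only [E.val, MR.nearE_val] <;> push_cast <;> simp only [div_one]

theorem lbE_val (z : ℕ) (σ : ℤ) (u y : NumI.E) (xs : List ℝ) :
    (lbE z σ u y).val xs = lb z σ (u.val xs) (y.val xs) := by
  unfold lbE lb
  split <;> simp only [E.val, MR.nearE_val] <;> push_cast <;> simp only [div_one]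

/-- expression for `gw` with the bounds of the zones `z'` (moved) and `z`; the hinge moves to
`n / 100 + T i` -/
def gwE (XM cr : ℕ) (n : ℤ) (t : NumI.E) (z' z : ℕ) (σ' σ : ℤ) : E :=
  let s := MR.tE XM cr
  sub (add (sub (mul pi (add (mul (sub (var 2) (var 0)) (sub (emb t) (emb s)))
      (mul (q 1 2) (emb s))))
    (mul pi (add (mul (sub (var 2) (q n 100)) (sub (emb t) (var 1))) (mul (q 1 2) (var 1)))))
    (sub (lbE z' σ' (.add (.q n 100) (.var 2)) (.add (.var 1) t))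
      (ubE z σ (.add (.var 0) (.var 2)) (.add s t))))
    (mul (q 2 1) (sub (uu (q n 100) (var 1)) (uu (var 0) (emb s))))

/-- expression for `g1` -/
def g1E (XM cr : ℕ) (n : ℤ) (t : NumI.E) (z' z : ℕ) (σ' σ : ℤ) : E :=
  let s := MR.tE XM cr
  sub (add (mul pi (add (mul (sub (q n 100) (var 0)) (emb t))
      (mul (sub (var 1) (emb s)) (sub (var 2) (q 1 1)))))
    (sub (lbE z' σ' (.add (.q n 100) (.var 2)) (.add (.var 1) t))
      (ubE z σ (.add (.var 0) (.var 2)) (.add s t))))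
    (sub (uu (q n 100) (var 1)) (uu (var 0) (emb s)))

variable {XM cr : ℕ} {n : ℤ} {t : NumI.E} {z' z : ℕ} {σ' σ : ℤ} {x T m k : ℝ}

theorem gwE_val : (gwE XM cr n t z' z σ' σ).val [x, T, m, k] =
    gw (n / 100) T x (MR.tR XM cr x T) m (t.val [x, T, m, k])
      (lb z' σ' (n / 100 + m) (T + t.val [x, T, m, k]))
      (ub z σ (x + m) (MR.tR XM cr x T + t.val [x, T, m, k])) := by
  unfold gwE gw
  simp only [E.val, lbE_val, ubE_val, NumI.E.val, MR.tE_val, NumI.lkR]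
  push_cast
  ring

theorem g1E_val : (g1E XM cr n t z' z σ' σ).val [x, T, m, k] =
    g1 (n / 100) T x (MR.tR XM cr x T) m (t.val [x, T, m, k])
      (lb z' σ' (n / 100 + m) (T + t.val [x, T, m, k]))
      (ub z σ (x + m) (MR.tR XM cr x T + t.val [x, T, m, k])) := by
  unfold g1E g1
  simp only [E.val, lbE_val, ubE_val, NumI.E.val, MR.tE_val, NumI.lkR]
  push_cast
  ring

end

theorem gw_mono {c T x s m t a b a' b' : ℝ} (h1 : a ≤ a') (h2 : b' ≤ b) :
    gw c T x s m t a b ≤ gw c T x s m t a' b' := by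
  unfold gw
  linarith only [h1, h2]

theorem g1_mono {c T x s m t a b a' b' : ℝ} (h1 : a ≤ a') (h2 : b' ≤ b) :
    g1 c T x s m t a b ≤ g1 c T x s m t a' b' := by
  unfold g1
  linarith only [h1, h2]

section
open E

/-- `UU` argument alternatives -/
def zge (n : ℤ) (d : ℕ) : E := emb (.sub (.add (.var 0) (.var 2)) (.q n d))
def zle (n : ℤ) (d : ℕ) : E := emb (.sub (.q n d) (.add (.var 0) (.var 2)))
def cge (c n : ℤ) (d : ℕ) : E := emb (.sub (.add (.q c 100) (.var 2)) (.q n d))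
def cle (c n : ℤ) (d : ℕ) : E := emb (.sub (.q n d) (.add (.q c 100) (.var 2)))
def tv : NumI.E := .var 3
def tK (cl : ℕ) : NumI.E := .mul (.var 3) (.mul (.q 100 cl) (.var 2))
def ypos (XM cr : ℕ) : E := emb (.add (MR.tE XM cr) (.var 3))
def yneg (XM cr : ℕ) : E := emb (.neg (.add (MR.tE XM cr) (.var 3)))
def gl (a : ℤ) (b : ℕ) (c : ℤ) (d : ℕ) (e : ℤ) (f : ℕ) : E :=
  emb (.add (.q a b) (.mul (.q c d) (.sub (.var 0) (.q e f))))

end

/-- the check with a certificate and alternatives which do not occur -/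
theorem posT {G : E} {al : List E} {fuel c : ℕ} {a1 b1 a2 b2 a3 b3 a4 b4 : ℤ} {x T x' t' : ℝ}
    (h : chkT (G :: al) fuel c [NumI.V.of 10000 a1 b1, NumI.V.of 10000 a2 b2,
      NumI.V.of 10000 a3 b3, NumI.V.of 10000 a4 b4] = true)
    (h1 : (a1 : ℝ) / 10000 ≤ x ∧ x ≤ (b1 : ℝ) / 10000)
    (h2 : (a2 : ℝ) / 10000 ≤ T ∧ T ≤ (b2 : ℝ) / 10000)
    (h3 : (a3 : ℝ) / 10000 ≤ x' ∧ x' ≤ (b3 : ℝ) / 10000)
    (h4 : (a4 : ℝ) / 10000 ≤ t' ∧ t' ≤ (b4 : ℝ) / 10000)
    (hal : ∀ e ∈ al, e.val [x, T, x', t'] ≤ 0) : 0 < G.val [x, T, x', t'] := by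
  obtain ⟨f, hf, hp⟩ := chkT4 h (by norm_num) (x := x) (y := T) (z := x') (w := t')
    (by exact_mod_cast h1.1) (by exact_mod_cast h1.2) (by exact_mod_cast h2.1)
    (by exact_mod_cast h2.2) (by exact_mod_cast h3.1) (by exact_mod_cast h3.2)
    (by exact_mod_cast h4.1) (by exact_mod_cast h4.2)
  rcases List.mem_cons.1 hf with rfl | hf
  · exact hp
  · exact absurd hp (not_lt.2 (hal f hf))

end R3V

end Pool.Agent.Work.MP_b30479_gt.G2
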