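import Pool.Agent.Work.MP_b30479_gt.G2.R3V

/-!
# Value rows of the own side at `3 | 1`
-/

set_option linter.unusedVariables false
set_option linter.unusedTactic false
set_option linter.unreachableTactic false
set_option linter.unusedSimpArgs false
set_option linter.unnecessarySeqFocus false

namespace Pool.Agent.Work.MP_b30479_gt.G2

open VOL NumU

namespace R3V

open E

theorem o1_11 {x T m t : ℝ} (h1 : 3600 / 10000 ≤ x ∧ x ≤ 6500 / 10000)
    (h2 : -(920 / 10000) ≤ T ∧ T ≤ -(210 / 10000)) (h3 : 5000 / 10000 ≤ m ∧ m ≤ 5567 / 10000)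
    (h4 : -(1230 / 10000) ≤ t ∧ t ≤ -(150 / 10000)) (a0 : 26 / 100 + m ≤ 11 / 12) (a1 : x + m ≤ 11 / 12) :
    48 / 1000 + 115 / 100 * (x - 36 / 100) < gw (26 / 100) T x (MR.tR 65 29 x T) m t (lb 1 (-1) (26 / 100 + m) (T + t))
      (ub 1 (-1) (x + m) (MR.tR 65 29 x T + t)) := by
  have h := posT (G := sub (gwE 65 29 26 tv 1 1 (-1) (-1)) (gl 48 1000 115 100 36 100)) (al := [cge 26 11 12, zge 11 12])
    (fuel := 26) (c := 88995050479522867185819192568794507231597459010429655585417507286959380089268470043075659509760)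
    (x := x) (T := T) (x' := m) (t' := t)
    (by decide +kernel : chkT [sub (gwE 65 29 26 tv 1 1 (-1) (-1)) (gl 48 1000 115 100 36 100), cge 26 11 12, zge 11 12] 26
      88995050479522867185819192568794507231597459010429655585417507286959380089268470043075659509760
      [NumI.V.of 10000 3600 6500, NumI.V.of 10000 (-920) (-210), NumI.V.of 10000 5000 5567, NumI.V.of 10000 (-1230) (-150)] = true)
    ⟨by norm_num; linarith only [h1], by norm_num; linarith only [h1]⟩ ⟨by norm_num; linarith only [h2], by norm_num; linarith only [h2]⟩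
    ⟨by norm_num; linarith only [h3], by norm_num; linarith only [h3]⟩ ⟨by norm_num; linarith only [h4], by norm_num; linarith only [h4]⟩
    (by
      intro e he
      simp only [List.mem_cons, List.not_mem_nil, or_false] at he
      rcases he with rfl | rfl <;>
        (simp only [zge, zle, cge, cle, ypos, yneg, tv, E.val, NumI.E.val, MR.tE_val, NumI.lkR]
         norm_num
         linarith only [h3, a1]))
  rw [E.val, gwE_val] at h
  simp only [gl, tv, tK, E.val, NumI.E.val, NumI.lkR] at h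
  push_cast at h
  linarith only [h]

theorem o1_12 {x T m t : ℝ} (h1 : 3600 / 10000 ≤ x ∧ x ≤ 6500 / 10000)
    (h2 : -(920 / 10000) ≤ T ∧ T ≤ -(210 / 10000)) (h3 : 5000 / 10000 ≤ m ∧ m ≤ 6400 / 10000)
    (h4 : -(1230 / 10000) ≤ t ∧ t ≤ -(150 / 10000)) (a0 : 26 / 100 + m ≤ 11 / 12) (a1 : 11 / 12 ≤ x + m) (a2 : x + m ≤ 1 / 1) :
    48 / 1000 + 115 / 100 * (x - 36 / 100) < gw (26 / 100) T x (MR.tR 65 29 x T) m t (lb 1 (-1) (26 / 100 + m) (T + t))
      (ub 2 (-1) (x + m) (MR.tR 65 29 x T + t)) := by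
  have h := posT (G := sub (gwE 65 29 26 tv 1 2 (-1) (-1)) (gl 48 1000 115 100 36 100)) (al := [cge 26 11 12, zle 11 12, zge 1 1])
    (fuel := 26) (c := 8518090495877659651584391479844637609163529777685596801327989140757990477668343883867336678180262424565795065753781842217674170005917699)
    (x := x) (T := T) (x' := m) (t' := t)
    (by decide +kernel : chkT [sub (gwE 65 29 26 tv 1 2 (-1) (-1)) (gl 48 1000 115 100 36 100), cge 26 11 12, zle 11 12, zge 1 1] 26
      8518090495877659651584391479844637609163529777685596801327989140757990477668343883867336678180262424565795065753781842217674170005917699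
      [NumI.V.of 10000 3600 6500, NumI.V.of 10000 (-920) (-210), NumI.V.of 10000 5000 6400, NumI.V.of 10000 (-1230) (-150)] = true)
    ⟨by norm_num; linarith only [h1], by norm_num; linarith only [h1]⟩ ⟨by norm_num; linarith only [h2], by norm_num; linarith only [h2]⟩
    ⟨by norm_num; linarith only [h3], by norm_num; linarith only [h3]⟩ ⟨by norm_num; linarith only [h4], by norm_num; linarith only [h4]⟩
    (by
      intro e he
      simp only [List.mem_cons, List.not_mem_nil, or_false] at he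
      rcases he with rfl | rfl | rfl <;>
        (simp only [zge, zle, cge, cle, ypos, yneg, tv, E.val, NumI.E.val, MR.tE_val, NumI.lkR]
         norm_num
         linarith only [h3, a1, a2]))
  rw [E.val, gwE_val] at h
  simp only [gl, tv, tK, E.val, NumI.E.val, NumI.lkR] at h
  push_cast at h
  linarith only [h]

theorem o1_13 {x T m t : ℝ} (h1 : 3600 / 10000 ≤ x ∧ x ≤ 6500 / 10000)
    (h2 : -(920 / 10000) ≤ T ∧ T ≤ -(210 / 10000)) (h3 : 5000 / 10000 ≤ m ∧ m ≤ 6567 / 10000)
    (h4 : -(1230 / 10000) ≤ t ∧ t ≤ -(150 / 10000)) (a0 : 26 / 100 + m ≤ 11 / 12) (a1 : 1 / 1 ≤ x + m) (a2 : x + m ≤ 13 / 12) :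
    48 / 1000 + 115 / 100 * (x - 36 / 100) < gw (26 / 100) T x (MR.tR 65 29 x T) m t (lb 1 (-1) (26 / 100 + m) (T + t))
      (ub 3 (-1) (x + m) (MR.tR 65 29 x T + t)) := by
  have h := posT (G := sub (gwE 65 29 26 tv 1 3 (-1) (-1)) (gl 48 1000 115 100 36 100)) (al := [cge 26 11 12, zle 1 1, zge 13 12])
    (fuel := 26) (c := 341185239189328367274272473012855007061374839846974307842733969895327490390491395)
    (x := x) (T := T) (x' := m) (t' := t)
    (by decide +kernel : chkT [sub (gwE 65 29 26 tv 1 3 (-1) (-1)) (gl 48 1000 115 100 36 100), cge 26 11 12, zle 1 1, zge 13 12] 26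
      341185239189328367274272473012855007061374839846974307842733969895327490390491395
      [NumI.V.of 10000 3600 6500, NumI.V.of 10000 (-920) (-210), NumI.V.of 10000 5000 6567, NumI.V.of 10000 (-1230) (-150)] = true)
    ⟨by norm_num; linarith only [h1], by norm_num; linarith only [h1]⟩ ⟨by norm_num; linarith only [h2], by norm_num; linarith only [h2]⟩
    ⟨by norm_num; linarith only [h3], by norm_num; linarith only [h3]⟩ ⟨by norm_num; linarith only [h4], by norm_num; linarith only [h4]⟩
    (by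
      intro e he
      simp only [List.mem_cons, List.not_mem_nil, or_false] at he
      rcases he with rfl | rfl | rfl <;>
        (simp only [zge, zle, cge, cle, ypos, yneg, tv, E.val, NumI.E.val, MR.tE_val, NumI.lkR]
         norm_num
         linarith only [a0, a1, a2]))
  rw [E.val, gwE_val] at h
  simp only [gl, tv, tK, E.val, NumI.E.val, NumI.lkR] at h
  push_cast at h
  linarith only [h]

theorem o1_14 {x T m t : ℝ} (h1 : 3600 / 10000 ≤ x ∧ x ≤ 6500 / 10000)
    (h2 : -(920 / 10000) ≤ T ∧ T ≤ -(210 / 10000)) (h3 : 5000 / 10000 ≤ m ∧ m ≤ 6567 / 10000)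
    (h4 : -(1230 / 10000) ≤ t ∧ t ≤ -(150 / 10000)) (a0 : 26 / 100 + m ≤ 11 / 12) (a1 : 13 / 12 ≤ x + m) :
    48 / 1000 + 115 / 100 * (x - 36 / 100) < gw (26 / 100) T x (MR.tR 65 29 x T) m t (lb 1 (-1) (26 / 100 + m) (T + t))
      (ub 4 (-1) (x + m) (MR.tR 65 29 x T + t)) := by
  have h := posT (G := sub (gwE 65 29 26 tv 1 4 (-1) (-1)) (gl 48 1000 115 100 36 100)) (al := [cge 26 11 12, zle 13 12])
    (fuel := 26) (c := 64745439895615441379777995579625240738811876070247959061849173254759313414899802144)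
    (x := x) (T := T) (x' := m) (t' := t)
    (by decide +kernel : chkT [sub (gwE 65 29 26 tv 1 4 (-1) (-1)) (gl 48 1000 115 100 36 100), cge 26 11 12, zle 13 12] 26
      64745439895615441379777995579625240738811876070247959061849173254759313414899802144
      [NumI.V.of 10000 3600 6500, NumI.V.of 10000 (-920) (-210), NumI.V.of 10000 5000 6567, NumI.V.of 10000 (-1230) (-150)] = true)
    ⟨by norm_num; linarith only [h1], by norm_num; linarith only [h1]⟩ ⟨by norm_num; linarith only [h2], by norm_num; linarith only [h2]⟩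
    ⟨by norm_num; linarith only [h3], by norm_num; linarith only [h3]⟩ ⟨by norm_num; linarith only [h4], by norm_num; linarith only [h4]⟩
    (by
      intro e he
      simp only [List.mem_cons, List.not_mem_nil, or_false] at he
      rcases he with rfl | rfl <;>
        (simp only [zge, zle, cge, cle, ypos, yneg, tv, E.val, NumI.E.val, MR.tE_val, NumI.lkR]
         norm_num
         linarith only [a0, a1]))
  rw [E.val, gwE_val] at h
  simp only [gl, tv, tK, E.val, NumI.E.val, NumI.lkR] at h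
  push_cast at h
  linarith only [h]

theorem o1_23 {x T m t : ℝ} (h1 : 3600 / 10000 ≤ x ∧ x ≤ 6500 / 10000)
    (h2 : -(920 / 10000) ≤ T ∧ T ≤ -(210 / 10000)) (h3 : 6566 / 10000 ≤ m ∧ m ≤ 7234 / 10000)
    (h4 : -(1230 / 10000) ≤ t ∧ t ≤ -(150 / 10000)) (a0 : 11 / 12 ≤ 26 / 100 + m) (a1 : 26 / 100 + m ≤ 1 / 1) (a2 : 1 / 1 ≤ x + m) (a3 : x + m ≤ 13 / 12) :
    48 / 1000 + 115 / 100 * (x - 36 / 100) < gw (26 / 100) T x (MR.tR 65 29 x T) m t (lb 2 (-1) (26 / 100 + m) (T + t))
      (ub 3 (-1) (x + m) (MR.tR 65 29 x T + t)) := by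
  have h := posT (G := sub (gwE 65 29 26 tv 2 3 (-1) (-1)) (gl 48 1000 115 100 36 100)) (al := [cle 26 11 12, cge 26 1 1, zle 1 1, zge 13 12])
    (fuel := 26) (c := 88227287931436363760745190931303936390986668240780509950478604464820227)
    (x := x) (T := T) (x' := m) (t' := t)
    (by decide +kernel : chkT [sub (gwE 65 29 26 tv 2 3 (-1) (-1)) (gl 48 1000 115 100 36 100), cle 26 11 12, cge 26 1 1, zle 1 1, zge 13 12] 26
      88227287931436363760745190931303936390986668240780509950478604464820227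
      [NumI.V.of 10000 3600 6500, NumI.V.of 10000 (-920) (-210), NumI.V.of 10000 6566 7234, NumI.V.of 10000 (-1230) (-150)] = true)
    ⟨by norm_num; linarith only [h1], by norm_num; linarith only [h1]⟩ ⟨by norm_num; linarith only [h2], by norm_num; linarith only [h2]⟩
    ⟨by norm_num; linarith only [a0], by norm_num; linarith only [h3]⟩ ⟨by norm_num; linarith only [h4], by norm_num; linarith only [h4]⟩
    (by
      intro e he
      simp only [List.mem_cons, List.not_mem_nil, or_false] at he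
      rcases he with rfl | rfl | rfl | rfl <;>
        (simp only [zge, zle, cge, cle, ypos, yneg, tv, E.val, NumI.E.val, MR.tE_val, NumI.lkR]
         norm_num
         linarith only [a0, h3, h1, a3]))
  rw [E.val, gwE_val] at h
  simp only [gl, tv, tK, E.val, NumI.E.val, NumI.lkR] at h
  push_cast at h
  linarith only [h]

theorem o1_24 {x T m t : ℝ} (h1 : 3600 / 10000 ≤ x ∧ x ≤ 6500 / 10000)
    (h2 : -(920 / 10000) ≤ T ∧ T ≤ -(210 / 10000)) (h3 : 6566 / 10000 ≤ m ∧ m ≤ 7400 / 10000)
    (h4 : -(1230 / 10000) ≤ t ∧ t ≤ -(150 / 10000)) (a0 : 11 / 12 ≤ 26 / 100 + m) (a1 : 26 / 100 + m ≤ 1 / 1) (a2 : 13 / 12 ≤ x + m) :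
    48 / 1000 + 115 / 100 * (x - 36 / 100) < gw (26 / 100) T x (MR.tR 65 29 x T) m t (lb 2 (-1) (26 / 100 + m) (T + t))
      (ub 4 (-1) (x + m) (MR.tR 65 29 x T + t)) := by
  have h := posT (G := sub (gwE 65 29 26 tv 2 4 (-1) (-1)) (gl 48 1000 115 100 36 100)) (al := [cle 26 11 12, cge 26 1 1, zle 13 12])
    (fuel := 26) (c := 1082439592209170959770118969931028102147447809257964331054007241680404590938785718757097984)
    (x := x) (T := T) (x' := m) (t' := t)
    (by decide +kernel : chkT [sub (gwE 65 29 26 tv 2 4 (-1) (-1)) (gl 48 1000 115 100 36 100), cle 26 11 12, cge 26 1 1, zle 13 12] 26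
      1082439592209170959770118969931028102147447809257964331054007241680404590938785718757097984
      [NumI.V.of 10000 3600 6500, NumI.V.of 10000 (-920) (-210), NumI.V.of 10000 6566 7400, NumI.V.of 10000 (-1230) (-150)] = true)
    ⟨by norm_num; linarith only [h1], by norm_num; linarith only [h1]⟩ ⟨by norm_num; linarith only [h2], by norm_num; linarith only [h2]⟩
    ⟨by norm_num; linarith only [a0], by norm_num; linarith only [h3]⟩ ⟨by norm_num; linarith only [h4], by norm_num; linarith only [h4]⟩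
    (by
      intro e he
      simp only [List.mem_cons, List.not_mem_nil, or_false] at he
      rcases he with rfl | rfl | rfl <;>
        (simp only [zge, zle, cge, cle, ypos, yneg, tv, E.val, NumI.E.val, MR.tE_val, NumI.lkR]
         norm_num
         linarith only [a0, h3, a2]))
  rw [E.val, gwE_val] at h
  simp only [gl, tv, tK, E.val, NumI.E.val, NumI.lkR] at h
  push_cast at h
  linarith only [h]

theorem o1_34 {x T m t : ℝ} (h1 : 3600 / 10000 ≤ x ∧ x ≤ 6500 / 10000)
    (h2 : -(920 / 10000) ≤ T ∧ T ≤ -(210 / 10000)) (h3 : 7400 / 10000 ≤ m ∧ m ≤ 7500 / 10000)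
    (h4 : -(1230 / 10000) ≤ t ∧ t ≤ -(150 / 10000)) (a0 : 1 / 1 ≤ 26 / 100 + m) (a1 : 13 / 12 ≤ x + m) :
    48 / 1000 + 115 / 100 * (x - 36 / 100) < gw (26 / 100) T x (MR.tR 65 29 x T) m t (lb 3 (-1) (26 / 100 + m) (T + t))
      (ub 4 (-1) (x + m) (MR.tR 65 29 x T + t)) := by
  have h := posT (G := sub (gwE 65 29 26 tv 3 4 (-1) (-1)) (gl 48 1000 115 100 36 100)) (al := [cle 26 1 1, zle 13 12])
    (fuel := 26) (c := 12425796952061669201945380146287786933499687079984)
    (x := x) (T := T) (x' := m) (t' := t)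
    (by decide +kernel : chkT [sub (gwE 65 29 26 tv 3 4 (-1) (-1)) (gl 48 1000 115 100 36 100), cle 26 1 1, zle 13 12] 26
      12425796952061669201945380146287786933499687079984
      [NumI.V.of 10000 3600 6500, NumI.V.of 10000 (-920) (-210), NumI.V.of 10000 7400 7500, NumI.V.of 10000 (-1230) (-150)] = true)
    ⟨by norm_num; linarith only [h1], by norm_num; linarith only [h1]⟩ ⟨by norm_num; linarith only [h2], by norm_num; linarith only [h2]⟩
    ⟨by norm_num; linarith only [h3], by norm_num; linarith only [h3]⟩ ⟨by norm_num; linarith only [h4], by norm_num; linarith only [h4]⟩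
    (by
      intro e he
      simp only [List.mem_cons, List.not_mem_nil, or_false] at he
      rcases he with rfl | rfl <;>
        (simp only [zge, zle, cge, cle, ypos, yneg, tv, E.val, NumI.E.val, MR.tE_val, NumI.lkR]
         norm_num
         linarith only [h3, h1]))
  rw [E.val, gwE_val] at h
  simp only [gl, tv, tK, E.val, NumI.E.val, NumI.lkR] at h
  push_cast at h
  linarith only [h]

theorem o1_34r {x T m t : ℝ} (h1 : 3600 / 10000 ≤ x ∧ x ≤ 6500 / 10000)
    (h2 : -(920 / 10000) ≤ T ∧ T ≤ -(210 / 10000)) (h3 : 7500 / 10000 ≤ m ∧ m ≤ 8000 / 10000)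
    (h4 : -(1230 / 10000) ≤ t ∧ t ≤ 0 / 10000) (a0 : 1 / 1 ≤ 26 / 100 + m) (a1 : 13 / 12 ≤ x + m) (a2 : t + 3 / 10 * (8 / 10 - m) ≤ 0) :
    48 / 1000 + 115 / 100 * (x - 36 / 100) < gw (26 / 100) T x (MR.tR 65 29 x T) m t (lb 3 (-1) (26 / 100 + m) (T + t))
      (ub 4 (-1) (x + m) (MR.tR 65 29 x T + t)) := by
  have h := posT (G := sub (gwE 65 29 26 tv 3 4 (-1) (-1)) (gl 48 1000 115 100 36 100)) (al := [cle 26 1 1, zle 13 12, emb (.add (.var 3) (.mul (.q 3 10) (.sub (.q 8 10) (.var 2))))])
    (fuel := 26) (c := 229212832890317866877985272931757071866464132863731673016090982617091)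
    (x := x) (T := T) (x' := m) (t' := t)
    (by decide +kernel : chkT [sub (gwE 65 29 26 tv 3 4 (-1) (-1)) (gl 48 1000 115 100 36 100), cle 26 1 1, zle 13 12, emb (.add (.var 3) (.mul (.q 3 10) (.sub (.q 8 10) (.var 2))))] 26
      229212832890317866877985272931757071866464132863731673016090982617091
      [NumI.V.of 10000 3600 6500, NumI.V.of 10000 (-920) (-210), NumI.V.of 10000 7500 8000, NumI.V.of 10000 (-1230) 0] = true)
    ⟨by norm_num; linarith only [h1], by norm_num; linarith only [h1]⟩ ⟨by norm_num; linarith only [h2], by norm_num; linarith only [h2]⟩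
    ⟨by norm_num; linarith only [h3], by norm_num; linarith only [h3]⟩ ⟨by norm_num; linarith only [h4], by norm_num; linarith only [h4]⟩
    (by
      intro e he
      simp only [List.mem_cons, List.not_mem_nil, or_false] at he
      rcases he with rfl | rfl | rfl <;>
        (simp only [zge, zle, cge, cle, ypos, yneg, tv, E.val, NumI.E.val, MR.tE_val, NumI.lkR]
         norm_num
         linarith only [h3, h1, a2]))
  rw [E.val, gwE_val] at h
  simp only [gl, tv, tK, E.val, NumI.E.val, NumI.lkR] at h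
  push_cast at h
  linarith only [h]

theorem o2_11 {x T m t : ℝ} (h1 : 3850 / 10000 ≤ x ∧ x ≤ 6500 / 10000)
    (h2 : -(940 / 10000) ≤ T ∧ T ≤ -(460 / 10000)) (h3 : 5000 / 10000 ≤ m ∧ m ≤ 5317 / 10000)
    (h4 : -(1230 / 10000) ≤ t ∧ t ≤ -(150 / 10000)) (a0 : 26 / 100 + m ≤ 11 / 12) (a1 : x + m ≤ 11 / 12) :
    875 / 10000 + 115 / 100 * (x - 385 / 1000) < gw (26 / 100) T x (MR.tR 65 29 x T) m t (lb 1 (-1) (26 / 100 + m) (T + t))
      (ub 1 (-1) (x + m) (MR.tR 65 29 x T + t)) := by
  have h := posT (G := sub (gwE 65 29 26 tv 1 1 (-1) (-1)) (gl 875 10000 115 100 385 1000)) (al := [cge 26 11 12, zge 11 12])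
    (fuel := 26) (c := 55381793800921676537507510061445120)
    (x := x) (T := T) (x' := m) (t' := t)
    (by decide +kernel : chkT [sub (gwE 65 29 26 tv 1 1 (-1) (-1)) (gl 875 10000 115 100 385 1000), cge 26 11 12, zge 11 12] 26
      55381793800921676537507510061445120
      [NumI.V.of 10000 3850 6500, NumI.V.of 10000 (-940) (-460), NumI.V.of 10000 5000 5317, NumI.V.of 10000 (-1230) (-150)] = true)
    ⟨by norm_num; linarith only [h1], by norm_num; linarith only [h1]⟩ ⟨by norm_num; linarith only [h2], by norm_num; linarith only [h2]⟩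
    ⟨by norm_num; linarith only [h3], by norm_num; linarith only [h3]⟩ ⟨by norm_num; linarith only [h4], by norm_num; linarith only [h4]⟩
    (by
      intro e he
      simp only [List.mem_cons, List.not_mem_nil, or_false] at he
      rcases he with rfl | rfl <;>
        (simp only [zge, zle, cge, cle, ypos, yneg, tv, E.val, NumI.E.val, MR.tE_val, NumI.lkR]
         norm_num
         linarith only [h3, a1]))
  rw [E.val, gwE_val] at h
  simp only [gl, tv, tK, E.val, NumI.E.val, NumI.lkR] at h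
  push_cast at h
  linarith only [h]

theorem o2_12 {x T m t : ℝ} (h1 : 3850 / 10000 ≤ x ∧ x ≤ 6500 / 10000)
    (h2 : -(940 / 10000) ≤ T ∧ T ≤ -(460 / 10000)) (h3 : 5000 / 10000 ≤ m ∧ m ≤ 6150 / 10000)
    (h4 : -(1230 / 10000) ≤ t ∧ t ≤ -(150 / 10000)) (a0 : 26 / 100 + m ≤ 11 / 12) (a1 : 11 / 12 ≤ x + m) (a2 : x + m ≤ 1 / 1) :
    875 / 10000 + 115 / 100 * (x - 385 / 1000) < gw (26 / 100) T x (MR.tR 65 29 x T) m t (lb 1 (-1) (26 / 100 + m) (T + t))
      (ub 2 (-1) (x + m) (MR.tR 65 29 x T + t)) := by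
  have h := posT (G := sub (gwE 65 29 26 tv 1 2 (-1) (-1)) (gl 875 10000 115 100 385 1000)) (al := [cge 26 11 12, zle 11 12, zge 1 1])
    (fuel := 26) (c := 87510161925794838095746602340489953091402073469292267141515510577184557746572234800)
    (x := x) (T := T) (x' := m) (t' := t)
    (by decide +kernel : chkT [sub (gwE 65 29 26 tv 1 2 (-1) (-1)) (gl 875 10000 115 100 385 1000), cge 26 11 12, zle 11 12, zge 1 1] 26
      87510161925794838095746602340489953091402073469292267141515510577184557746572234800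
      [NumI.V.of 10000 3850 6500, NumI.V.of 10000 (-940) (-460), NumI.V.of 10000 5000 6150, NumI.V.of 10000 (-1230) (-150)] = true)
    ⟨by norm_num; linarith only [h1], by norm_num; linarith only [h1]⟩ ⟨by norm_num; linarith only [h2], by norm_num; linarith only [h2]⟩
    ⟨by norm_num; linarith only [h3], by norm_num; linarith only [h3]⟩ ⟨by norm_num; linarith only [h4], by norm_num; linarith only [h4]⟩
    (by
      intro e he
      simp only [List.mem_cons, List.not_mem_nil, or_false] at he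
      rcases he with rfl | rfl | rfl <;>
        (simp only [zge, zle, cge, cle, ypos, yneg, tv, E.val, NumI.E.val, MR.tE_val, NumI.lkR]
         norm_num
         linarith only [h3, a1, a2]))
  rw [E.val, gwE_val] at h
  simp only [gl, tv, tK, E.val, NumI.E.val, NumI.lkR] at h
  push_cast at h
  linarith only [h]

theorem o2_13 {x T m t : ℝ} (h1 : 3850 / 10000 ≤ x ∧ x ≤ 6500 / 10000)
    (h2 : -(940 / 10000) ≤ T ∧ T ≤ -(460 / 10000)) (h3 : 5000 / 10000 ≤ m ∧ m ≤ 6567 / 10000)
    (h4 : -(1230 / 10000) ≤ t ∧ t ≤ -(150 / 10000)) (a0 : 26 / 100 + m ≤ 11 / 12) (a1 : 1 / 1 ≤ x + m) (a2 : x + m ≤ 13 / 12) :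
    875 / 10000 + 115 / 100 * (x - 385 / 1000) < gw (26 / 100) T x (MR.tR 65 29 x T) m t (lb 1 (-1) (26 / 100 + m) (T + t))
      (ub 3 (-1) (x + m) (MR.tR 65 29 x T + t)) := by
  have h := posT (G := sub (gwE 65 29 26 tv 1 3 (-1) (-1)) (gl 875 10000 115 100 385 1000)) (al := [cge 26 11 12, zle 1 1, zge 13 12])
    (fuel := 26) (c := 208661898378967430319896593634304752019446656812401758211)
    (x := x) (T := T) (x' := m) (t' := t)
    (by decide +kernel : chkT [sub (gwE 65 29 26 tv 1 3 (-1) (-1)) (gl 875 10000 115 100 385 1000), cge 26 11 12, zle 1 1, zge 13 12] 26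
      208661898378967430319896593634304752019446656812401758211
      [NumI.V.of 10000 3850 6500, NumI.V.of 10000 (-940) (-460), NumI.V.of 10000 5000 6567, NumI.V.of 10000 (-1230) (-150)] = true)
    ⟨by norm_num; linarith only [h1], by norm_num; linarith only [h1]⟩ ⟨by norm_num; linarith only [h2], by norm_num; linarith only [h2]⟩
    ⟨by norm_num; linarith only [h3], by norm_num; linarith only [h3]⟩ ⟨by norm_num; linarith only [h4], by norm_num; linarith only [h4]⟩
    (by
      intro e he
      simp only [List.mem_cons, List.not_mem_nil, or_false] at he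
      rcases he with rfl | rfl | rfl <;>
        (simp only [zge, zle, cge, cle, ypos, yneg, tv, E.val, NumI.E.val, MR.tE_val, NumI.lkR]
         norm_num
         linarith only [a0, a1, a2]))
  rw [E.val, gwE_val] at h
  simp only [gl, tv, tK, E.val, NumI.E.val, NumI.lkR] at h
  push_cast at h
  linarith only [h]

theorem o2_14 {x T m t : ℝ} (h1 : 3850 / 10000 ≤ x ∧ x ≤ 6500 / 10000)
    (h2 : -(940 / 10000) ≤ T ∧ T ≤ -(460 / 10000)) (h3 : 5000 / 10000 ≤ m ∧ m ≤ 6567 / 10000)
    (h4 : -(1230 / 10000) ≤ t ∧ t ≤ -(150 / 10000)) (a0 : 26 / 100 + m ≤ 11 / 12) (a1 : 13 / 12 ≤ x + m) :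
    875 / 10000 + 115 / 100 * (x - 385 / 1000) < gw (26 / 100) T x (MR.tR 65 29 x T) m t (lb 1 (-1) (26 / 100 + m) (T + t))
      (ub 4 (-1) (x + m) (MR.tR 65 29 x T + t)) := by
  have h := posT (G := sub (gwE 65 29 26 tv 1 4 (-1) (-1)) (gl 875 10000 115 100 385 1000)) (al := [cge 26 11 12, zle 13 12])
    (fuel := 26) (c := 209203799775451615253624819506510361923619086464964534304)
    (x := x) (T := T) (x' := m) (t' := t)
    (by decide +kernel : chkT [sub (gwE 65 29 26 tv 1 4 (-1) (-1)) (gl 875 10000 115 100 385 1000), cge 26 11 12, zle 13 12] 26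
      209203799775451615253624819506510361923619086464964534304
      [NumI.V.of 10000 3850 6500, NumI.V.of 10000 (-940) (-460), NumI.V.of 10000 5000 6567, NumI.V.of 10000 (-1230) (-150)] = true)
    ⟨by norm_num; linarith only [h1], by norm_num; linarith only [h1]⟩ ⟨by norm_num; linarith only [h2], by norm_num; linarith only [h2]⟩
    ⟨by norm_num; linarith only [h3], by norm_num; linarith only [h3]⟩ ⟨by norm_num; linarith only [h4], by norm_num; linarith only [h4]⟩
    (by
      intro e he
      simp only [List.mem_cons, List.not_mem_nil, or_false] at he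
      rcases he with rfl | rfl <;>
        (simp only [zge, zle, cge, cle, ypos, yneg, tv, E.val, NumI.E.val, MR.tE_val, NumI.lkR]
         norm_num
         linarith only [a0, a1]))
  rw [E.val, gwE_val] at h
  simp only [gl, tv, tK, E.val, NumI.E.val, NumI.lkR] at h
  push_cast at h
  linarith only [h]

theorem o2_23 {x T m t : ℝ} (h1 : 3850 / 10000 ≤ x ∧ x ≤ 6500 / 10000)
    (h2 : -(940 / 10000) ≤ T ∧ T ≤ -(460 / 10000)) (h3 : 6566 / 10000 ≤ m ∧ m ≤ 6984 / 10000)
    (h4 : -(1230 / 10000) ≤ t ∧ t ≤ -(150 / 10000)) (a0 : 11 / 12 ≤ 26 / 100 + m) (a1 : 26 / 100 + m ≤ 1 / 1) (a2 : 1 / 1 ≤ x + m) (a3 : x + m ≤ 13 / 12) :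
    875 / 10000 + 115 / 100 * (x - 385 / 1000) < gw (26 / 100) T x (MR.tR 65 29 x T) m t (lb 2 (-1) (26 / 100 + m) (T + t))
      (ub 3 (-1) (x + m) (MR.tR 65 29 x T + t)) := by
  have h := posT (G := sub (gwE 65 29 26 tv 2 3 (-1) (-1)) (gl 875 10000 115 100 385 1000)) (al := [cle 26 11 12, cge 26 1 1, zle 1 1, zge 13 12])
    (fuel := 26) (c := 4349916955981757934267512033046671982640)
    (x := x) (T := T) (x' := m) (t' := t)
    (by decide +kernel : chkT [sub (gwE 65 29 26 tv 2 3 (-1) (-1)) (gl 875 10000 115 100 385 1000), cle 26 11 12, cge 26 1 1, zle 1 1, zge 13 12] 26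
      4349916955981757934267512033046671982640
      [NumI.V.of 10000 3850 6500, NumI.V.of 10000 (-940) (-460), NumI.V.of 10000 6566 6984, NumI.V.of 10000 (-1230) (-150)] = true)
    ⟨by norm_num; linarith only [h1], by norm_num; linarith only [h1]⟩ ⟨by norm_num; linarith only [h2], by norm_num; linarith only [h2]⟩
    ⟨by norm_num; linarith only [a0], by norm_num; linarith only [h3]⟩ ⟨by norm_num; linarith only [h4], by norm_num; linarith only [h4]⟩
    (by
      intro e he
      simp only [List.mem_cons, List.not_mem_nil, or_false] at he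
      rcases he with rfl | rfl | rfl | rfl <;>
        (simp only [zge, zle, cge, cle, ypos, yneg, tv, E.val, NumI.E.val, MR.tE_val, NumI.lkR]
         norm_num
         linarith only [a0, h3, h1, a3]))
  rw [E.val, gwE_val] at h
  simp only [gl, tv, tK, E.val, NumI.E.val, NumI.lkR] at h
  push_cast at h
  linarith only [h]

theorem o2_24 {x T m t : ℝ} (h1 : 3850 / 10000 ≤ x ∧ x ≤ 6500 / 10000)
    (h2 : -(940 / 10000) ≤ T ∧ T ≤ -(460 / 10000)) (h3 : 6566 / 10000 ≤ m ∧ m ≤ 7400 / 10000)
    (h4 : -(1230 / 10000) ≤ t ∧ t ≤ -(150 / 10000)) (a0 : 11 / 12 ≤ 26 / 100 + m) (a1 : 26 / 100 + m ≤ 1 / 1) (a2 : 13 / 12 ≤ x + m) :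
    875 / 10000 + 115 / 100 * (x - 385 / 1000) < gw (26 / 100) T x (MR.tR 65 29 x T) m t (lb 2 (-1) (26 / 100 + m) (T + t))
      (ub 4 (-1) (x + m) (MR.tR 65 29 x T + t)) := by
  have h := posT (G := sub (gwE 65 29 26 tv 2 4 (-1) (-1)) (gl 875 10000 115 100 385 1000)) (al := [cle 26 11 12, cge 26 1 1, zle 13 12])
    (fuel := 26) (c := 48705135203965106710240175692540362763251286784)
    (x := x) (T := T) (x' := m) (t' := t)
    (by decide +kernel : chkT [sub (gwE 65 29 26 tv 2 4 (-1) (-1)) (gl 875 10000 115 100 385 1000), cle 26 11 12, cge 26 1 1, zle 13 12] 26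
      48705135203965106710240175692540362763251286784
      [NumI.V.of 10000 3850 6500, NumI.V.of 10000 (-940) (-460), NumI.V.of 10000 6566 7400, NumI.V.of 10000 (-1230) (-150)] = true)
    ⟨by norm_num; linarith only [h1], by norm_num; linarith only [h1]⟩ ⟨by norm_num; linarith only [h2], by norm_num; linarith only [h2]⟩
    ⟨by norm_num; linarith only [a0], by norm_num; linarith only [h3]⟩ ⟨by norm_num; linarith only [h4], by norm_num; linarith only [h4]⟩
    (by
      intro e he
      simp only [List.mem_cons, List.not_mem_nil, or_false] at he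
      rcases he with rfl | rfl | rfl <;>
        (simp only [zge, zle, cge, cle, ypos, yneg, tv, E.val, NumI.E.val, MR.tE_val, NumI.lkR]
         norm_num
         linarith only [a0, h3, a2]))
  rw [E.val, gwE_val] at h
  simp only [gl, tv, tK, E.val, NumI.E.val, NumI.lkR] at h
  push_cast at h
  linarith only [h]

theorem o2_34 {x T m t : ℝ} (h1 : 3850 / 10000 ≤ x ∧ x ≤ 6500 / 10000)
    (h2 : -(940 / 10000) ≤ T ∧ T ≤ -(460 / 10000)) (h3 : 7400 / 10000 ≤ m ∧ m ≤ 7500 / 10000)
    (h4 : -(1230 / 10000) ≤ t ∧ t ≤ -(150 / 10000)) (a0 : 1 / 1 ≤ 26 / 100 + m) (a1 : 13 / 12 ≤ x + m) :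
    875 / 10000 + 115 / 100 * (x - 385 / 1000) < gw (26 / 100) T x (MR.tR 65 29 x T) m t (lb 3 (-1) (26 / 100 + m) (T + t))
      (ub 4 (-1) (x + m) (MR.tR 65 29 x T + t)) := by
  have h := posT (G := sub (gwE 65 29 26 tv 3 4 (-1) (-1)) (gl 875 10000 115 100 385 1000)) (al := [cle 26 1 1, zle 13 12])
    (fuel := 26) (c := 2634894111613600232010420272)
    (x := x) (T := T) (x' := m) (t' := t)
    (by decide +kernel : chkT [sub (gwE 65 29 26 tv 3 4 (-1) (-1)) (gl 875 10000 115 100 385 1000), cle 26 1 1, zle 13 12] 26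
      2634894111613600232010420272
      [NumI.V.of 10000 3850 6500, NumI.V.of 10000 (-940) (-460), NumI.V.of 10000 7400 7500, NumI.V.of 10000 (-1230) (-150)] = true)
    ⟨by norm_num; linarith only [h1], by norm_num; linarith only [h1]⟩ ⟨by norm_num; linarith only [h2], by norm_num; linarith only [h2]⟩
    ⟨by norm_num; linarith only [h3], by norm_num; linarith only [h3]⟩ ⟨by norm_num; linarith only [h4], by norm_num; linarith only [h4]⟩
    (by
      intro e he
      simp only [List.mem_cons, List.not_mem_nil, or_false] at he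
      rcases he with rfl | rfl <;>
        (simp only [zge, zle, cge, cle, ypos, yneg, tv, E.val, NumI.E.val, MR.tE_val, NumI.lkR]
         norm_num
         linarith only [h3, h1]))
  rw [E.val, gwE_val] at h
  simp only [gl, tv, tK, E.val, NumI.E.val, NumI.lkR] at h
  push_cast at h
  linarith only [h]

theorem o2_34r {x T m t : ℝ} (h1 : 3850 / 10000 ≤ x ∧ x ≤ 6500 / 10000)
    (h2 : -(940 / 10000) ≤ T ∧ T ≤ -(460 / 10000)) (h3 : 7500 / 10000 ≤ m ∧ m ≤ 8000 / 10000)
    (h4 : -(1230 / 10000) ≤ t ∧ t ≤ 0 / 10000) (a0 : 1 / 1 ≤ 26 / 100 + m) (a1 : 13 / 12 ≤ x + m) (a2 : t + 3 / 10 * (8 / 10 - m) ≤ 0) :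
    875 / 10000 + 115 / 100 * (x - 385 / 1000) < gw (26 / 100) T x (MR.tR 65 29 x T) m t (lb 3 (-1) (26 / 100 + m) (T + t))
      (ub 4 (-1) (x + m) (MR.tR 65 29 x T + t)) := by
  have h := posT (G := sub (gwE 65 29 26 tv 3 4 (-1) (-1)) (gl 875 10000 115 100 385 1000)) (al := [cle 26 1 1, zle 13 12, emb (.add (.var 3) (.mul (.q 3 10) (.sub (.q 8 10) (.var 2))))])
    (fuel := 26) (c := 740635223763363200462575013319832989925424)
    (x := x) (T := T) (x' := m) (t' := t)
    (by decide +kernel : chkT [sub (gwE 65 29 26 tv 3 4 (-1) (-1)) (gl 875 10000 115 100 385 1000), cle 26 1 1, zle 13 12, emb (.add (.var 3) (.mul (.q 3 10) (.sub (.q 8 10) (.var 2))))] 26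
      740635223763363200462575013319832989925424
      [NumI.V.of 10000 3850 6500, NumI.V.of 10000 (-940) (-460), NumI.V.of 10000 7500 8000, NumI.V.of 10000 (-1230) 0] = true)
    ⟨by norm_num; linarith only [h1], by norm_num; linarith only [h1]⟩ ⟨by norm_num; linarith only [h2], by norm_num; linarith only [h2]⟩
    ⟨by norm_num; linarith only [h3], by norm_num; linarith only [h3]⟩ ⟨by norm_num; linarith only [h4], by norm_num; linarith only [h4]⟩
    (by
      intro e he
      simp only [List.mem_cons, List.not_mem_nil, or_false] at he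
      rcases he with rfl | rfl | rfl <;>
        (simp only [zge, zle, cge, cle, ypos, yneg, tv, E.val, NumI.E.val, MR.tE_val, NumI.lkR]
         norm_num
         linarith only [h3, h1, a2]))
  rw [E.val, gwE_val] at h
  simp only [gl, tv, tK, E.val, NumI.E.val, NumI.lkR] at h
  push_cast at h
  linarith only [h]

theorem oE_11 {x T m t : ℝ} (h1 : 3700 / 10000 ≤ x ∧ x ≤ 6500 / 10000)
    (h2 : -(1145 / 10000) ≤ T ∧ T ≤ -(870 / 10000)) (h3 : 5000 / 10000 ≤ m ∧ m ≤ 5467 / 10000)
    (h4 : -(1230 / 10000) ≤ t ∧ t ≤ -(150 / 10000)) (a0 : 26 / 100 + m ≤ 11 / 12) (a1 : x + m ≤ 11 / 12) :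
    42 / 1000 + 14 / 10 * (x - 37 / 100) < gw (26 / 100) T x (MR.tR 65 29 x T) m t (lb 1 (-1) (26 / 100 + m) (T + t))
      (ub 1 (-1) (x + m) (MR.tR 65 29 x T + t)) := by
  have h := posT (G := sub (gwE 65 29 26 tv 1 1 (-1) (-1)) (gl 42 1000 14 10 37 100)) (al := [cge 26 11 12, zge 11 12])
    (fuel := 26) (c := 12885041766629599866990592)
    (x := x) (T := T) (x' := m) (t' := t)
    (by decide +kernel : chkT [sub (gwE 65 29 26 tv 1 1 (-1) (-1)) (gl 42 1000 14 10 37 100), cge 26 11 12, zge 11 12] 26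
      12885041766629599866990592
      [NumI.V.of 10000 3700 6500, NumI.V.of 10000 (-1145) (-870), NumI.V.of 10000 5000 5467, NumI.V.of 10000 (-1230) (-150)] = true)
    ⟨by norm_num; linarith only [h1], by norm_num; linarith only [h1]⟩ ⟨by norm_num; linarith only [h2], by norm_num; linarith only [h2]⟩
    ⟨by norm_num; linarith only [h3], by norm_num; linarith only [h3]⟩ ⟨by norm_num; linarith only [h4], by norm_num; linarith only [h4]⟩
    (by
      intro e he
      simp only [List.mem_cons, List.not_mem_nil, or_false] at he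
      rcases he with rfl | rfl <;>
        (simp only [zge, zle, cge, cle, ypos, yneg, tv, E.val, NumI.E.val, MR.tE_val, NumI.lkR]
         norm_num
         linarith only [h3, a1]))
  rw [E.val, gwE_val] at h
  simp only [gl, tv, tK, E.val, NumI.E.val, NumI.lkR] at h
  push_cast at h
  linarith only [h]

theorem oE_12 {x T m t : ℝ} (h1 : 3700 / 10000 ≤ x ∧ x ≤ 6500 / 10000)
    (h2 : -(1145 / 10000) ≤ T ∧ T ≤ -(870 / 10000)) (h3 : 5000 / 10000 ≤ m ∧ m ≤ 6300 / 10000)
    (h4 : -(1230 / 10000) ≤ t ∧ t ≤ -(150 / 10000)) (a0 : 26 / 100 + m ≤ 11 / 12) (a1 : 11 / 12 ≤ x + m) (a2 : x + m ≤ 1 / 1) :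
    42 / 1000 + 14 / 10 * (x - 37 / 100) < gw (26 / 100) T x (MR.tR 65 29 x T) m t (lb 1 (-1) (26 / 100 + m) (T + t))
      (ub 2 (-1) (x + m) (MR.tR 65 29 x T + t)) := by
  have h := posT (G := sub (gwE 65 29 26 tv 1 2 (-1) (-1)) (gl 42 1000 14 10 37 100)) (al := [cge 26 11 12, zle 11 12, zge 1 1])
    (fuel := 26) (c := 3987894440214343444916602962812868886576)
    (x := x) (T := T) (x' := m) (t' := t)
    (by decide +kernel : chkT [sub (gwE 65 29 26 tv 1 2 (-1) (-1)) (gl 42 1000 14 10 37 100), cge 26 11 12, zle 11 12, zge 1 1] 26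
      3987894440214343444916602962812868886576
      [NumI.V.of 10000 3700 6500, NumI.V.of 10000 (-1145) (-870), NumI.V.of 10000 5000 6300, NumI.V.of 10000 (-1230) (-150)] = true)
    ⟨by norm_num; linarith only [h1], by norm_num; linarith only [h1]⟩ ⟨by norm_num; linarith only [h2], by norm_num; linarith only [h2]⟩
    ⟨by norm_num; linarith only [h3], by norm_num; linarith only [h3]⟩ ⟨by norm_num; linarith only [h4], by norm_num; linarith only [h4]⟩
    (by
      intro e he
      simp only [List.mem_cons, List.not_mem_nil, or_false] at he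
      rcases he with rfl | rfl | rfl <;>
        (simp only [zge, zle, cge, cle, ypos, yneg, tv, E.val, NumI.E.val, MR.tE_val, NumI.lkR]
         norm_num
         linarith only [h3, a1, a2]))
  rw [E.val, gwE_val] at h
  simp only [gl, tv, tK, E.val, NumI.E.val, NumI.lkR] at h
  push_cast at h
  linarith only [h]

theorem oE_13 {x T m t : ℝ} (h1 : 3700 / 10000 ≤ x ∧ x ≤ 6500 / 10000)
    (h2 : -(1145 / 10000) ≤ T ∧ T ≤ -(870 / 10000)) (h3 : 5000 / 10000 ≤ m ∧ m ≤ 6567 / 10000)
    (h4 : -(1230 / 10000) ≤ t ∧ t ≤ -(150 / 10000)) (a0 : 26 / 100 + m ≤ 11 / 12) (a1 : 1 / 1 ≤ x + m) (a2 : x + m ≤ 13 / 12) :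
    42 / 1000 + 14 / 10 * (x - 37 / 100) < gw (26 / 100) T x (MR.tR 65 29 x T) m t (lb 1 (-1) (26 / 100 + m) (T + t))
      (ub 3 (-1) (x + m) (MR.tR 65 29 x T + t)) := by
  have h := posT (G := sub (gwE 65 29 26 tv 1 3 (-1) (-1)) (gl 42 1000 14 10 37 100)) (al := [cge 26 11 12, zle 1 1, zge 13 12])
    (fuel := 26) (c := 189776841855932905281884960939111148578549808)
    (x := x) (T := T) (x' := m) (t' := t)
    (by decide +kernel : chkT [sub (gwE 65 29 26 tv 1 3 (-1) (-1)) (gl 42 1000 14 10 37 100), cge 26 11 12, zle 1 1, zge 13 12] 26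
      189776841855932905281884960939111148578549808
      [NumI.V.of 10000 3700 6500, NumI.V.of 10000 (-1145) (-870), NumI.V.of 10000 5000 6567, NumI.V.of 10000 (-1230) (-150)] = true)
    ⟨by norm_num; linarith only [h1], by norm_num; linarith only [h1]⟩ ⟨by norm_num; linarith only [h2], by norm_num; linarith only [h2]⟩
    ⟨by norm_num; linarith only [h3], by norm_num; linarith only [h3]⟩ ⟨by norm_num; linarith only [h4], by norm_num; linarith only [h4]⟩
    (by
      intro e he
      simp only [List.mem_cons, List.not_mem_nil, or_false] at he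
      rcases he with rfl | rfl | rfl <;>
        (simp only [zge, zle, cge, cle, ypos, yneg, tv, E.val, NumI.E.val, MR.tE_val, NumI.lkR]
         norm_num
         linarith only [a0, a1, a2]))
  rw [E.val, gwE_val] at h
  simp only [gl, tv, tK, E.val, NumI.E.val, NumI.lkR] at h
  push_cast at h
  linarith only [h]

theorem oE_14 {x T m t : ℝ} (h1 : 3700 / 10000 ≤ x ∧ x ≤ 6500 / 10000)
    (h2 : -(1145 / 10000) ≤ T ∧ T ≤ -(870 / 10000)) (h3 : 5000 / 10000 ≤ m ∧ m ≤ 6567 / 10000)
    (h4 : -(1230 / 10000) ≤ t ∧ t ≤ -(150 / 10000)) (a0 : 26 / 100 + m ≤ 11 / 12) (a1 : 13 / 12 ≤ x + m) :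
    42 / 1000 + 14 / 10 * (x - 37 / 100) < gw (26 / 100) T x (MR.tR 65 29 x T) m t (lb 1 (-1) (26 / 100 + m) (T + t))
      (ub 4 (-1) (x + m) (MR.tR 65 29 x T + t)) := by
  have h := posT (G := sub (gwE 65 29 26 tv 1 4 (-1) (-1)) (gl 42 1000 14 10 37 100)) (al := [cge 26 11 12, zle 13 12])
    (fuel := 26) (c := 3192196651847241877920772024520108495094907932942368)
    (x := x) (T := T) (x' := m) (t' := t)
    (by decide +kernel : chkT [sub (gwE 65 29 26 tv 1 4 (-1) (-1)) (gl 42 1000 14 10 37 100), cge 26 11 12, zle 13 12] 26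
      3192196651847241877920772024520108495094907932942368
      [NumI.V.of 10000 3700 6500, NumI.V.of 10000 (-1145) (-870), NumI.V.of 10000 5000 6567, NumI.V.of 10000 (-1230) (-150)] = true)
    ⟨by norm_num; linarith only [h1], by norm_num; linarith only [h1]⟩ ⟨by norm_num; linarith only [h2], by norm_num; linarith only [h2]⟩
    ⟨by norm_num; linarith only [h3], by norm_num; linarith only [h3]⟩ ⟨by norm_num; linarith only [h4], by norm_num; linarith only [h4]⟩
    (by
      intro e he
      simp only [List.mem_cons, List.not_mem_nil, or_false] at he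
      rcases he with rfl | rfl <;>
        (simp only [zge, zle, cge, cle, ypos, yneg, tv, E.val, NumI.E.val, MR.tE_val, NumI.lkR]
         norm_num
         linarith only [a0, a1]))
  rw [E.val, gwE_val] at h
  simp only [gl, tv, tK, E.val, NumI.E.val, NumI.lkR] at h
  push_cast at h
  linarith only [h]

theorem oE_23 {x T m t : ℝ} (h1 : 3700 / 10000 ≤ x ∧ x ≤ 6500 / 10000)
    (h2 : -(1145 / 10000) ≤ T ∧ T ≤ -(870 / 10000)) (h3 : 6566 / 10000 ≤ m ∧ m ≤ 7134 / 10000)
    (h4 : -(1230 / 10000) ≤ t ∧ t ≤ -(150 / 10000)) (a0 : 11 / 12 ≤ 26 / 100 + m) (a1 : 26 / 100 + m ≤ 1 / 1) (a2 : 1 / 1 ≤ x + m) (a3 : x + m ≤ 13 / 12) :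
    42 / 1000 + 14 / 10 * (x - 37 / 100) < gw (26 / 100) T x (MR.tR 65 29 x T) m t (lb 2 (-1) (26 / 100 + m) (T + t))
      (ub 3 (-1) (x + m) (MR.tR 65 29 x T + t)) := by
  have h := posT (G := sub (gwE 65 29 26 tv 2 3 (-1) (-1)) (gl 42 1000 14 10 37 100)) (al := [cle 26 11 12, cge 26 1 1, zle 1 1, zge 13 12])
    (fuel := 26) (c := 921135797107884800)
    (x := x) (T := T) (x' := m) (t' := t)
    (by decide +kernel : chkT [sub (gwE 65 29 26 tv 2 3 (-1) (-1)) (gl 42 1000 14 10 37 100), cle 26 11 12, cge 26 1 1, zle 1 1, zge 13 12] 26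
      921135797107884800
      [NumI.V.of 10000 3700 6500, NumI.V.of 10000 (-1145) (-870), NumI.V.of 10000 6566 7134, NumI.V.of 10000 (-1230) (-150)] = true)
    ⟨by norm_num; linarith only [h1], by norm_num; linarith only [h1]⟩ ⟨by norm_num; linarith only [h2], by norm_num; linarith only [h2]⟩
    ⟨by norm_num; linarith only [a0], by norm_num; linarith only [h3]⟩ ⟨by norm_num; linarith only [h4], by norm_num; linarith only [h4]⟩
    (by
      intro e he
      simp only [List.mem_cons, List.not_mem_nil, or_false] at he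
      rcases he with rfl | rfl | rfl | rfl <;>
        (simp only [zge, zle, cge, cle, ypos, yneg, tv, E.val, NumI.E.val, MR.tE_val, NumI.lkR]
         norm_num
         linarith only [a0, h3, h1, a3]))
  rw [E.val, gwE_val] at h
  simp only [gl, tv, tK, E.val, NumI.E.val, NumI.lkR] at h
  push_cast at h
  linarith only [h]

theorem oE_24 {x T m t : ℝ} (h1 : 3700 / 10000 ≤ x ∧ x ≤ 6500 / 10000)
    (h2 : -(1145 / 10000) ≤ T ∧ T ≤ -(870 / 10000)) (h3 : 6566 / 10000 ≤ m ∧ m ≤ 7400 / 10000)
    (h4 : -(1230 / 10000) ≤ t ∧ t ≤ -(150 / 10000)) (a0 : 11 / 12 ≤ 26 / 100 + m) (a1 : 26 / 100 + m ≤ 1 / 1) (a2 : 13 / 12 ≤ x + m) :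
    42 / 1000 + 14 / 10 * (x - 37 / 100) < gw (26 / 100) T x (MR.tR 65 29 x T) m t (lb 2 (-1) (26 / 100 + m) (T + t))
      (ub 4 (-1) (x + m) (MR.tR 65 29 x T + t)) := by
  have h := posT (G := sub (gwE 65 29 26 tv 2 4 (-1) (-1)) (gl 42 1000 14 10 37 100)) (al := [cle 26 11 12, cge 26 1 1, zle 13 12])
    (fuel := 26) (c := 2631265868177513265524507392)
    (x := x) (T := T) (x' := m) (t' := t)
    (by decide +kernel : chkT [sub (gwE 65 29 26 tv 2 4 (-1) (-1)) (gl 42 1000 14 10 37 100), cle 26 11 12, cge 26 1 1, zle 13 12] 26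
      2631265868177513265524507392
      [NumI.V.of 10000 3700 6500, NumI.V.of 10000 (-1145) (-870), NumI.V.of 10000 6566 7400, NumI.V.of 10000 (-1230) (-150)] = true)
    ⟨by norm_num; linarith only [h1], by norm_num; linarith only [h1]⟩ ⟨by norm_num; linarith only [h2], by norm_num; linarith only [h2]⟩
    ⟨by norm_num; linarith only [a0], by norm_num; linarith only [h3]⟩ ⟨by norm_num; linarith only [h4], by norm_num; linarith only [h4]⟩
    (by
      intro e he
      simp only [List.mem_cons, List.not_mem_nil, or_false] at he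
      rcases he with rfl | rfl | rfl <;>
        (simp only [zge, zle, cge, cle, ypos, yneg, tv, E.val, NumI.E.val, MR.tE_val, NumI.lkR]
         norm_num
         linarith only [a0, h3, a2]))
  rw [E.val, gwE_val] at h
  simp only [gl, tv, tK, E.val, NumI.E.val, NumI.lkR] at h
  push_cast at h
  linarith only [h]

theorem oE_34 {x T m t : ℝ} (h1 : 3700 / 10000 ≤ x ∧ x ≤ 6500 / 10000)
    (h2 : -(1145 / 10000) ≤ T ∧ T ≤ -(870 / 10000)) (h3 : 7400 / 10000 ≤ m ∧ m ≤ 7500 / 10000)
    (h4 : -(1230 / 10000) ≤ t ∧ t ≤ -(150 / 10000)) (a0 : 1 / 1 ≤ 26 / 100 + m) (a1 : 13 / 12 ≤ x + m) :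
    42 / 1000 + 14 / 10 * (x - 37 / 100) < gw (26 / 100) T x (MR.tR 65 29 x T) m t (lb 3 (-1) (26 / 100 + m) (T + t))
      (ub 4 (-1) (x + m) (MR.tR 65 29 x T + t)) := by
  have h := posT (G := sub (gwE 65 29 26 tv 3 4 (-1) (-1)) (gl 42 1000 14 10 37 100)) (al := [cle 26 1 1, zle 13 12])
    (fuel := 26) (c := 2401576069628672)
    (x := x) (T := T) (x' := m) (t' := t)
    (by decide +kernel : chkT [sub (gwE 65 29 26 tv 3 4 (-1) (-1)) (gl 42 1000 14 10 37 100), cle 26 1 1, zle 13 12] 26
      2401576069628672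
      [NumI.V.of 10000 3700 6500, NumI.V.of 10000 (-1145) (-870), NumI.V.of 10000 7400 7500, NumI.V.of 10000 (-1230) (-150)] = true)
    ⟨by norm_num; linarith only [h1], by norm_num; linarith only [h1]⟩ ⟨by norm_num; linarith only [h2], by norm_num; linarith only [h2]⟩
    ⟨by norm_num; linarith only [h3], by norm_num; linarith only [h3]⟩ ⟨by norm_num; linarith only [h4], by norm_num; linarith only [h4]⟩
    (by
      intro e he
      simp only [List.mem_cons, List.not_mem_nil, or_false] at he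
      rcases he with rfl | rfl <;>
        (simp only [zge, zle, cge, cle, ypos, yneg, tv, E.val, NumI.E.val, MR.tE_val, NumI.lkR]
         norm_num
         linarith only [h3, h1]))
  rw [E.val, gwE_val] at h
  simp only [gl, tv, tK, E.val, NumI.E.val, NumI.lkR] at h
  push_cast at h
  linarith only [h]

theorem oE_34r {x T m t : ℝ} (h1 : 3700 / 10000 ≤ x ∧ x ≤ 6500 / 10000)
    (h2 : -(1145 / 10000) ≤ T ∧ T ≤ -(870 / 10000)) (h3 : 7500 / 10000 ≤ m ∧ m ≤ 8000 / 10000)
    (h4 : -(1230 / 10000) ≤ t ∧ t ≤ 0 / 10000) (a0 : 1 / 1 ≤ 26 / 100 + m) (a1 : 13 / 12 ≤ x + m) (a2 : t + 3 / 10 * (8 / 10 - m) ≤ 0) :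
    42 / 1000 + 14 / 10 * (x - 37 / 100) < gw (26 / 100) T x (MR.tR 65 29 x T) m t (lb 3 (-1) (26 / 100 + m) (T + t))
      (ub 4 (-1) (x + m) (MR.tR 65 29 x T + t)) := by
  have h := posT (G := sub (gwE 65 29 26 tv 3 4 (-1) (-1)) (gl 42 1000 14 10 37 100)) (al := [cle 26 1 1, zle 13 12, emb (.add (.var 3) (.mul (.q 3 10) (.sub (.q 8 10) (.var 2))))])
    (fuel := 26) (c := 40205271081742997062400)
    (x := x) (T := T) (x' := m) (t' := t)
    (by decide +kernel : chkT [sub (gwE 65 29 26 tv 3 4 (-1) (-1)) (gl 42 1000 14 10 37 100), cle 26 1 1, zle 13 12, emb (.add (.var 3) (.mul (.q 3 10) (.sub (.q 8 10) (.var 2))))] 26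
      40205271081742997062400
      [NumI.V.of 10000 3700 6500, NumI.V.of 10000 (-1145) (-870), NumI.V.of 10000 7500 8000, NumI.V.of 10000 (-1230) 0] = true)
    ⟨by norm_num; linarith only [h1], by norm_num; linarith only [h1]⟩ ⟨by norm_num; linarith only [h2], by norm_num; linarith only [h2]⟩
    ⟨by norm_num; linarith only [h3], by norm_num; linarith only [h3]⟩ ⟨by norm_num; linarith only [h4], by norm_num; linarith only [h4]⟩
    (by
      intro e he
      simp only [List.mem_cons, List.not_mem_nil, or_false] at he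
      rcases he with rfl | rfl | rfl <;>
        (simp only [zge, zle, cge, cle, ypos, yneg, tv, E.val, NumI.E.val, MR.tE_val, NumI.lkR]
         norm_num
         linarith only [h3, h1, a2]))
  rw [E.val, gwE_val] at h
  simp only [gl, tv, tK, E.val, NumI.E.val, NumI.lkR] at h
  push_cast at h
  linarith only [h]

end R3V

end Pool.Agent.Work.MP_b30479_gt.G2
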