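import Pool.Agent.Work.MP_b30479_gt.G2.R3V

/-!
# Value rows of the digit at `3 | 1`, its other neighbour is a `1`
-/

set_option linter.unusedVariables false
set_option linter.unusedTactic false
set_option linter.unreachableTactic false
set_option linter.unusedSimpArgs false
set_option linter.unnecessarySeqFocus false

namespace Pool.Agent.Work.MP_b30479_gt.G2

open VOL NumU

namespace R3V

open E

theorem d1_K {x T m k : ℝ} (h1 : 3600 / 10000 ≤ x ∧ x ≤ 6500 / 10000)
    (h2 : 210 / 10000 ≤ T ∧ T ≤ 920 / 10000) (h3 : 0 / 10000 ≤ m ∧ m ≤ 1500 / 10000)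
    (h4 : -(910 / 10000) ≤ k ∧ k ≤ 490 / 10000) (a0 : T + k ≤ 111 / 1000) (a1 : -(22 / 1000) ≤ T + k) :
    -(48 / 1000 + 115 / 100 * (x - 36 / 100)) < g1 (26 / 100) T x (MR.tR 65 29 x T) m (k * (100 / 15 * m)) (lb 1 1 (26 / 100 + m) (T + (k * (100 / 15 * m))))
      (ub 1 1 (x + m) (MR.tR 65 29 x T + (k * (100 / 15 * m)))) := by
  have h := posT (G := add (g1E 65 29 26 (tK 15) 1 1 1 1) (gl 48 1000 115 100 36 100)) (al := [emb (.sub (.add (.var 1) (.var 3)) (.q 111 1000)), emb (.sub (.q (-22) 1000) (.add (.var 1) (.var 3)))])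
    (fuel := 28) (c := 70938190498771367913032817748850947575859276487546399682099241134144139394387498685119760237056)
    (x := x) (T := T) (x' := m) (t' := k)
    (by decide +kernel : chkT [add (g1E 65 29 26 (tK 15) 1 1 1 1) (gl 48 1000 115 100 36 100), emb (.sub (.add (.var 1) (.var 3)) (.q 111 1000)), emb (.sub (.q (-22) 1000) (.add (.var 1) (.var 3)))] 28
      70938190498771367913032817748850947575859276487546399682099241134144139394387498685119760237056
      [NumI.V.of 10000 3600 6500, NumI.V.of 10000 210 920, NumI.V.of 10000 0 1500, NumI.V.of 10000 (-910) 490] = true)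
    ⟨by norm_num; linarith only [h1], by norm_num; linarith only [h1]⟩ ⟨by norm_num; linarith only [h2], by norm_num; linarith only [h2]⟩
    ⟨by norm_num; linarith only [h3], by norm_num; linarith only [h3]⟩ ⟨by norm_num; linarith only [h4], by norm_num; linarith only [h4]⟩
    (by
      intro e he
      simp only [List.mem_cons, List.not_mem_nil, or_false] at he
      rcases he with rfl | rfl <;>
        (simp only [zge, zle, cge, cle, ypos, yneg, tv, E.val, NumI.E.val, MR.tE_val, NumI.lkR]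
         norm_num
         linarith only [a0, a1]))
  rw [E.val, g1E_val] at h
  simp only [gl, tv, tK, E.val, NumI.E.val, NumI.lkR] at h
  push_cast at h
  linarith only [h]

theorem d1_11 {x T m t : ℝ} (h1 : 3600 / 10000 ≤ x ∧ x ≤ 6500 / 10000)
    (h2 : 210 / 10000 ≤ T ∧ T ≤ 920 / 10000) (h3 : 1500 / 10000 ≤ m ∧ m ≤ 5567 / 10000)
    (h4 : -(910 / 10000) ≤ t ∧ t ≤ 490 / 10000) (a0 : 26 / 100 + m ≤ 11 / 12) (a1 : x + m ≤ 11 / 12) (a2 : T + t ≤ 111 / 1000) (a3 : -(22 / 1000) ≤ T + t) :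
    -(48 / 1000 + 115 / 100 * (x - 36 / 100)) < g1 (26 / 100) T x (MR.tR 65 29 x T) m t (lb 1 1 (26 / 100 + m) (T + t))
      (ub 1 1 (x + m) (MR.tR 65 29 x T + t)) := by
  have h := posT (G := add (g1E 65 29 26 tv 1 1 1 1) (gl 48 1000 115 100 36 100)) (al := [cge 26 11 12, zge 11 12, emb (.sub (.add (.var 1) (.var 3)) (.q 111 1000)), emb (.sub (.q (-22) 1000) (.add (.var 1) (.var 3)))])
    (fuel := 28) (c := 29259321411789987688063508244926072373092014674857627759079767005222352107080702557047017585727727740420358254716611642819022388246575032761049232788892759476080098859954613357379842546305704354701059617012043556105010673097529760942955673159156870904975572234773645456901043671396143940600417163533287938)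
    (x := x) (T := T) (x' := m) (t' := t)
    (by decide +kernel : chkT [add (g1E 65 29 26 tv 1 1 1 1) (gl 48 1000 115 100 36 100), cge 26 11 12, zge 11 12, emb (.sub (.add (.var 1) (.var 3)) (.q 111 1000)), emb (.sub (.q (-22) 1000) (.add (.var 1) (.var 3)))] 28
      29259321411789987688063508244926072373092014674857627759079767005222352107080702557047017585727727740420358254716611642819022388246575032761049232788892759476080098859954613357379842546305704354701059617012043556105010673097529760942955673159156870904975572234773645456901043671396143940600417163533287938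
      [NumI.V.of 10000 3600 6500, NumI.V.of 10000 210 920, NumI.V.of 10000 1500 5567, NumI.V.of 10000 (-910) 490] = true)
    ⟨by norm_num; linarith only [h1], by norm_num; linarith only [h1]⟩ ⟨by norm_num; linarith only [h2], by norm_num; linarith only [h2]⟩
    ⟨by norm_num; linarith only [h3], by norm_num; linarith only [h3]⟩ ⟨by norm_num; linarith only [h4], by norm_num; linarith only [h4]⟩
    (by
      intro e he
      simp only [List.mem_cons, List.not_mem_nil, or_false] at he
      rcases he with rfl | rfl | rfl | rfl <;>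
        (simp only [zge, zle, cge, cle, ypos, yneg, tv, E.val, NumI.E.val, MR.tE_val, NumI.lkR]
         norm_num
         linarith only [h3, a1, a2, a3]))
  rw [E.val, g1E_val] at h
  simp only [gl, tv, tK, E.val, NumI.E.val, NumI.lkR] at h
  push_cast at h
  linarith only [h]

theorem d1_12 {x T m t : ℝ} (h1 : 3600 / 10000 ≤ x ∧ x ≤ 6500 / 10000)
    (h2 : 210 / 10000 ≤ T ∧ T ≤ 920 / 10000) (h3 : 2666 / 10000 ≤ m ∧ m ≤ 6400 / 10000)
    (h4 : -(910 / 10000) ≤ t ∧ t ≤ 490 / 10000) (a0 : 26 / 100 + m ≤ 11 / 12) (a1 : 11 / 12 ≤ x + m) (a2 : x + m ≤ 1 / 1) (a3 : T + t ≤ 111 / 1000) (a4 : -(22 / 1000) ≤ T + t) :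
    -(48 / 1000 + 115 / 100 * (x - 36 / 100)) < g1 (26 / 100) T x (MR.tR 65 29 x T) m t (lb 1 1 (26 / 100 + m) (T + t))
      (ub 2 1 (x + m) (MR.tR 65 29 x T + t)) := by
  have h := posT (G := add (g1E 65 29 26 tv 1 2 1 1) (gl 48 1000 115 100 36 100)) (al := [cge 26 11 12, zle 11 12, zge 1 1, emb (.sub (.add (.var 1) (.var 3)) (.q 111 1000)), emb (.sub (.q (-22) 1000) (.add (.var 1) (.var 3)))])
    (fuel := 28) (c := 229426183499672481431152337183840150508374464221522912101529889144867)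
    (x := x) (T := T) (x' := m) (t' := t)
    (by decide +kernel : chkT [add (g1E 65 29 26 tv 1 2 1 1) (gl 48 1000 115 100 36 100), cge 26 11 12, zle 11 12, zge 1 1, emb (.sub (.add (.var 1) (.var 3)) (.q 111 1000)), emb (.sub (.q (-22) 1000) (.add (.var 1) (.var 3)))] 28
      229426183499672481431152337183840150508374464221522912101529889144867
      [NumI.V.of 10000 3600 6500, NumI.V.of 10000 210 920, NumI.V.of 10000 2666 6400, NumI.V.of 10000 (-910) 490] = true)
    ⟨by norm_num; linarith only [h1], by norm_num; linarith only [h1]⟩ ⟨by norm_num; linarith only [h2], by norm_num; linarith only [h2]⟩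
    ⟨by norm_num; linarith only [h1, a1], by norm_num; linarith only [h3]⟩ ⟨by norm_num; linarith only [h4], by norm_num; linarith only [h4]⟩
    (by
      intro e he
      simp only [List.mem_cons, List.not_mem_nil, or_false] at he
      rcases he with rfl | rfl | rfl | rfl | rfl <;>
        (simp only [zge, zle, cge, cle, ypos, yneg, tv, E.val, NumI.E.val, MR.tE_val, NumI.lkR]
         norm_num
         linarith only [h3, a1, a2, a3, a4]))
  rw [E.val, g1E_val] at h
  simp only [gl, tv, tK, E.val, NumI.E.val, NumI.lkR] at h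
  push_cast at h
  linarith only [h]

theorem d1_13p {x T m t : ℝ} (h1 : 3600 / 10000 ≤ x ∧ x ≤ 6500 / 10000)
    (h2 : 210 / 10000 ≤ T ∧ T ≤ 920 / 10000) (h3 : 3500 / 10000 ≤ m ∧ m ≤ 6567 / 10000)
    (h4 : -(910 / 10000) ≤ t ∧ t ≤ 490 / 10000) (a0 : 26 / 100 + m ≤ 11 / 12) (a1 : 1 / 1 ≤ x + m) (a2 : x + m ≤ 13 / 12) (a3 : 0 ≤ MR.tR 65 29 x T + t) (a4 : T + t ≤ 111 / 1000) (a5 : -(22 / 1000) ≤ T + t) :
    -(48 / 1000 + 115 / 100 * (x - 36 / 100)) < g1 (26 / 100) T x (MR.tR 65 29 x T) m t (lb 1 1 (26 / 100 + m) (T + t))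
      (ub 3 1 (x + m) (MR.tR 65 29 x T + t)) := by
  have h := posT (G := add (g1E 65 29 26 tv 1 3 1 1) (gl 48 1000 115 100 36 100)) (al := [cge 26 11 12, zle 1 1, zge 13 12, yneg 65 29, emb (.sub (.add (.var 1) (.var 3)) (.q 111 1000)), emb (.sub (.q (-22) 1000) (.add (.var 1) (.var 3)))])
    (fuel := 28) (c := 2903244261885299253117981657128990539811)
    (x := x) (T := T) (x' := m) (t' := t)
    (by decide +kernel : chkT [add (g1E 65 29 26 tv 1 3 1 1) (gl 48 1000 115 100 36 100), cge 26 11 12, zle 1 1, zge 13 12, yneg 65 29, emb (.sub (.add (.var 1) (.var 3)) (.q 111 1000)), emb (.sub (.q (-22) 1000) (.add (.var 1) (.var 3)))] 28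
      2903244261885299253117981657128990539811
      [NumI.V.of 10000 3600 6500, NumI.V.of 10000 210 920, NumI.V.of 10000 3500 6567, NumI.V.of 10000 (-910) 490] = true)
    ⟨by norm_num; linarith only [h1], by norm_num; linarith only [h1]⟩ ⟨by norm_num; linarith only [h2], by norm_num; linarith only [h2]⟩
    ⟨by norm_num; linarith only [h3], by norm_num; linarith only [h3]⟩ ⟨by norm_num; linarith only [h4], by norm_num; linarith only [h4]⟩
    (by
      intro e he
      simp only [List.mem_cons, List.not_mem_nil, or_false] at he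
      rcases he with rfl | rfl | rfl | rfl | rfl | rfl <;>
        (simp only [zge, zle, cge, cle, ypos, yneg, tv, E.val, NumI.E.val, MR.tE_val, NumI.lkR]
         norm_num
         linarith only [a0, a1, a2, a3, a4, a5]))
  rw [E.val, g1E_val] at h
  simp only [gl, tv, tK, E.val, NumI.E.val, NumI.lkR] at h
  push_cast at h
  linarith only [h]

theorem d1_13m {x T m t : ℝ} (h1 : 3600 / 10000 ≤ x ∧ x ≤ 6500 / 10000)
    (h2 : 210 / 10000 ≤ T ∧ T ≤ 920 / 10000) (h3 : 3500 / 10000 ≤ m ∧ m ≤ 6567 / 10000)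
    (h4 : -(910 / 10000) ≤ t ∧ t ≤ 490 / 10000) (a0 : 26 / 100 + m ≤ 11 / 12) (a1 : 1 / 1 ≤ x + m) (a2 : x + m ≤ 13 / 12) (a3 : MR.tR 65 29 x T + t ≤ 0) (a4 : T + t ≤ 111 / 1000) (a5 : -(22 / 1000) ≤ T + t) :
    -(48 / 1000 + 115 / 100 * (x - 36 / 100)) < g1 (26 / 100) T x (MR.tR 65 29 x T) m t (lb 1 1 (26 / 100 + m) (T + t))
      (ub 3 (-1) (x + m) (MR.tR 65 29 x T + t)) := by
  have h := posT (G := add (g1E 65 29 26 tv 1 3 1 (-1)) (gl 48 1000 115 100 36 100)) (al := [cge 26 11 12, zle 1 1, zge 13 12, ypos 65 29, emb (.sub (.add (.var 1) (.var 3)) (.q 111 1000)), emb (.sub (.q (-22) 1000) (.add (.var 1) (.var 3)))])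
    (fuel := 28) (c := 10278378836463481646620707)
    (x := x) (T := T) (x' := m) (t' := t)
    (by decide +kernel : chkT [add (g1E 65 29 26 tv 1 3 1 (-1)) (gl 48 1000 115 100 36 100), cge 26 11 12, zle 1 1, zge 13 12, ypos 65 29, emb (.sub (.add (.var 1) (.var 3)) (.q 111 1000)), emb (.sub (.q (-22) 1000) (.add (.var 1) (.var 3)))] 28
      10278378836463481646620707
      [NumI.V.of 10000 3600 6500, NumI.V.of 10000 210 920, NumI.V.of 10000 3500 6567, NumI.V.of 10000 (-910) 490] = true)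
    ⟨by norm_num; linarith only [h1], by norm_num; linarith only [h1]⟩ ⟨by norm_num; linarith only [h2], by norm_num; linarith only [h2]⟩
    ⟨by norm_num; linarith only [h3], by norm_num; linarith only [h3]⟩ ⟨by norm_num; linarith only [h4], by norm_num; linarith only [h4]⟩
    (by
      intro e he
      simp only [List.mem_cons, List.not_mem_nil, or_false] at he
      rcases he with rfl | rfl | rfl | rfl | rfl | rfl <;>
        (simp only [zge, zle, cge, cle, ypos, yneg, tv, E.val, NumI.E.val, MR.tE_val, NumI.lkR]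
         norm_num
         linarith only [a0, a1, a2, a3, a4, a5]))
  rw [E.val, g1E_val] at h
  simp only [gl, tv, tK, E.val, NumI.E.val, NumI.lkR] at h
  push_cast at h
  linarith only [h]

theorem d1_14p {x T m t : ℝ} (h1 : 3600 / 10000 ≤ x ∧ x ≤ 6500 / 10000)
    (h2 : 210 / 10000 ≤ T ∧ T ≤ 920 / 10000) (h3 : 4333 / 10000 ≤ m ∧ m ≤ 6567 / 10000)
    (h4 : -(910 / 10000) ≤ t ∧ t ≤ 490 / 10000) (a0 : 26 / 100 + m ≤ 11 / 12) (a1 : 13 / 12 ≤ x + m) (a2 : 0 ≤ MR.tR 65 29 x T + t) (a3 : T + t ≤ 111 / 1000) (a4 : -(22 / 1000) ≤ T + t) :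
    -(48 / 1000 + 115 / 100 * (x - 36 / 100)) < g1 (26 / 100) T x (MR.tR 65 29 x T) m t (lb 1 1 (26 / 100 + m) (T + t))
      (ub 4 1 (x + m) (MR.tR 65 29 x T + t)) := by
  have h := posT (G := add (g1E 65 29 26 tv 1 4 1 1) (gl 48 1000 115 100 36 100)) (al := [cge 26 11 12, zle 13 12, yneg 65 29, emb (.sub (.add (.var 1) (.var 3)) (.q 111 1000)), emb (.sub (.q (-22) 1000) (.add (.var 1) (.var 3)))])
    (fuel := 28) (c := 15076949200566435699080961106813474549272697455891758310629263891130092064)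
    (x := x) (T := T) (x' := m) (t' := t)
    (by decide +kernel : chkT [add (g1E 65 29 26 tv 1 4 1 1) (gl 48 1000 115 100 36 100), cge 26 11 12, zle 13 12, yneg 65 29, emb (.sub (.add (.var 1) (.var 3)) (.q 111 1000)), emb (.sub (.q (-22) 1000) (.add (.var 1) (.var 3)))] 28
      15076949200566435699080961106813474549272697455891758310629263891130092064
      [NumI.V.of 10000 3600 6500, NumI.V.of 10000 210 920, NumI.V.of 10000 4333 6567, NumI.V.of 10000 (-910) 490] = true)
    ⟨by norm_num; linarith only [h1], by norm_num; linarith only [h1]⟩ ⟨by norm_num; linarith only [h2], by norm_num; linarith only [h2]⟩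
    ⟨by norm_num; linarith only [h1, a1], by norm_num; linarith only [h3]⟩ ⟨by norm_num; linarith only [h4], by norm_num; linarith only [h4]⟩
    (by
      intro e he
      simp only [List.mem_cons, List.not_mem_nil, or_false] at he
      rcases he with rfl | rfl | rfl | rfl | rfl <;>
        (simp only [zge, zle, cge, cle, ypos, yneg, tv, E.val, NumI.E.val, MR.tE_val, NumI.lkR]
         norm_num
         linarith only [a0, a1, a2, a3, a4]))
  rw [E.val, g1E_val] at h
  simp only [gl, tv, tK, E.val, NumI.E.val, NumI.lkR] at h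
  push_cast at h
  linarith only [h]

theorem d1_14m {x T m t : ℝ} (h1 : 3600 / 10000 ≤ x ∧ x ≤ 6500 / 10000)
    (h2 : 210 / 10000 ≤ T ∧ T ≤ 920 / 10000) (h3 : 4333 / 10000 ≤ m ∧ m ≤ 6567 / 10000)
    (h4 : -(910 / 10000) ≤ t ∧ t ≤ 490 / 10000) (a0 : 26 / 100 + m ≤ 11 / 12) (a1 : 13 / 12 ≤ x + m) (a2 : MR.tR 65 29 x T + t ≤ 0) (a3 : T + t ≤ 111 / 1000) (a4 : -(22 / 1000) ≤ T + t) :
    -(48 / 1000 + 115 / 100 * (x - 36 / 100)) < g1 (26 / 100) T x (MR.tR 65 29 x T) m t (lb 1 1 (26 / 100 + m) (T + t))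
      (ub 4 (-1) (x + m) (MR.tR 65 29 x T + t)) := by
  have h := posT (G := add (g1E 65 29 26 tv 1 4 1 (-1)) (gl 48 1000 115 100 36 100)) (al := [cge 26 11 12, zle 13 12, ypos 65 29, emb (.sub (.add (.var 1) (.var 3)) (.q 111 1000)), emb (.sub (.q (-22) 1000) (.add (.var 1) (.var 3)))])
    (fuel := 28) (c := 898656201396372061913030324581489152674243962102906827801528240672)
    (x := x) (T := T) (x' := m) (t' := t)
    (by decide +kernel : chkT [add (g1E 65 29 26 tv 1 4 1 (-1)) (gl 48 1000 115 100 36 100), cge 26 11 12, zle 13 12, ypos 65 29, emb (.sub (.add (.var 1) (.var 3)) (.q 111 1000)), emb (.sub (.q (-22) 1000) (.add (.var 1) (.var 3)))] 28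
      898656201396372061913030324581489152674243962102906827801528240672
      [NumI.V.of 10000 3600 6500, NumI.V.of 10000 210 920, NumI.V.of 10000 4333 6567, NumI.V.of 10000 (-910) 490] = true)
    ⟨by norm_num; linarith only [h1], by norm_num; linarith only [h1]⟩ ⟨by norm_num; linarith only [h2], by norm_num; linarith only [h2]⟩
    ⟨by norm_num; linarith only [h1, a1], by norm_num; linarith only [h3]⟩ ⟨by norm_num; linarith only [h4], by norm_num; linarith only [h4]⟩
    (by
      intro e he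
      simp only [List.mem_cons, List.not_mem_nil, or_false] at he
      rcases he with rfl | rfl | rfl | rfl | rfl <;>
        (simp only [zge, zle, cge, cle, ypos, yneg, tv, E.val, NumI.E.val, MR.tE_val, NumI.lkR]
         norm_num
         linarith only [a0, a1, a2, a3, a4]))
  rw [E.val, g1E_val] at h
  simp only [gl, tv, tK, E.val, NumI.E.val, NumI.lkR] at h
  push_cast at h
  linarith only [h]

theorem d1_23p {x T m t : ℝ} (h1 : 3600 / 10000 ≤ x ∧ x ≤ 6500 / 10000)
    (h2 : 210 / 10000 ≤ T ∧ T ≤ 920 / 10000) (h3 : 6566 / 10000 ≤ m ∧ m ≤ 7234 / 10000)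
    (h4 : -(910 / 10000) ≤ t ∧ t ≤ 490 / 10000) (a0 : 11 / 12 ≤ 26 / 100 + m) (a1 : 26 / 100 + m ≤ 1 / 1) (a2 : 1 / 1 ≤ x + m) (a3 : x + m ≤ 13 / 12) (a4 : 0 ≤ MR.tR 65 29 x T + t) (a5 : T + t ≤ 111 / 1000) (a6 : -(22 / 1000) ≤ T + t) :
    -(48 / 1000 + 115 / 100 * (x - 36 / 100)) < g1 (26 / 100) T x (MR.tR 65 29 x T) m t (lb 2 1 (26 / 100 + m) (T + t))
      (ub 3 1 (x + m) (MR.tR 65 29 x T + t)) := by
  have h := posT (G := add (g1E 65 29 26 tv 2 3 1 1) (gl 48 1000 115 100 36 100)) (al := [cle 26 11 12, cge 26 1 1, zle 1 1, zge 13 12, yneg 65 29, emb (.sub (.add (.var 1) (.var 3)) (.q 111 1000)), emb (.sub (.q (-22) 1000) (.add (.var 1) (.var 3)))])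
    (fuel := 28) (c := 614882640684154883)
    (x := x) (T := T) (x' := m) (t' := t)
    (by decide +kernel : chkT [add (g1E 65 29 26 tv 2 3 1 1) (gl 48 1000 115 100 36 100), cle 26 11 12, cge 26 1 1, zle 1 1, zge 13 12, yneg 65 29, emb (.sub (.add (.var 1) (.var 3)) (.q 111 1000)), emb (.sub (.q (-22) 1000) (.add (.var 1) (.var 3)))] 28
      614882640684154883
      [NumI.V.of 10000 3600 6500, NumI.V.of 10000 210 920, NumI.V.of 10000 6566 7234, NumI.V.of 10000 (-910) 490] = true)
    ⟨by norm_num; linarith only [h1], by norm_num; linarith only [h1]⟩ ⟨by norm_num; linarith only [h2], by norm_num; linarith only [h2]⟩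
    ⟨by norm_num; linarith only [a0], by norm_num; linarith only [h3]⟩ ⟨by norm_num; linarith only [h4], by norm_num; linarith only [h4]⟩
    (by
      intro e he
      simp only [List.mem_cons, List.not_mem_nil, or_false] at he
      rcases he with rfl | rfl | rfl | rfl | rfl | rfl | rfl <;>
        (simp only [zge, zle, cge, cle, ypos, yneg, tv, E.val, NumI.E.val, MR.tE_val, NumI.lkR]
         norm_num
         linarith only [a0, h3, h1, a3, a4, a5, a6]))
  rw [E.val, g1E_val] at h
  simp only [gl, tv, tK, E.val, NumI.E.val, NumI.lkR] at h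
  push_cast at h
  linarith only [h]

theorem d1_23m {x T m t : ℝ} (h1 : 3600 / 10000 ≤ x ∧ x ≤ 6500 / 10000)
    (h2 : 210 / 10000 ≤ T ∧ T ≤ 920 / 10000) (h3 : 6566 / 10000 ≤ m ∧ m ≤ 7234 / 10000)
    (h4 : -(910 / 10000) ≤ t ∧ t ≤ 490 / 10000) (a0 : 11 / 12 ≤ 26 / 100 + m) (a1 : 26 / 100 + m ≤ 1 / 1) (a2 : 1 / 1 ≤ x + m) (a3 : x + m ≤ 13 / 12) (a4 : MR.tR 65 29 x T + t ≤ 0) (a5 : T + t ≤ 111 / 1000) (a6 : -(22 / 1000) ≤ T + t) :
    -(48 / 1000 + 115 / 100 * (x - 36 / 100)) < g1 (26 / 100) T x (MR.tR 65 29 x T) m t (lb 2 1 (26 / 100 + m) (T + t))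
      (ub 3 (-1) (x + m) (MR.tR 65 29 x T + t)) := by
  have h := posT (G := add (g1E 65 29 26 tv 2 3 1 (-1)) (gl 48 1000 115 100 36 100)) (al := [cle 26 11 12, cge 26 1 1, zle 1 1, zge 13 12, ypos 65 29, emb (.sub (.add (.var 1) (.var 3)) (.q 111 1000)), emb (.sub (.q (-22) 1000) (.add (.var 1) (.var 3)))])
    (fuel := 28) (c := 3191922709885194353255642000626563880207084842848259)
    (x := x) (T := T) (x' := m) (t' := t)
    (by decide +kernel : chkT [add (g1E 65 29 26 tv 2 3 1 (-1)) (gl 48 1000 115 100 36 100), cle 26 11 12, cge 26 1 1, zle 1 1, zge 13 12, ypos 65 29, emb (.sub (.add (.var 1) (.var 3)) (.q 111 1000)), emb (.sub (.q (-22) 1000) (.add (.var 1) (.var 3)))] 28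
      3191922709885194353255642000626563880207084842848259
      [NumI.V.of 10000 3600 6500, NumI.V.of 10000 210 920, NumI.V.of 10000 6566 7234, NumI.V.of 10000 (-910) 490] = true)
    ⟨by norm_num; linarith only [h1], by norm_num; linarith only [h1]⟩ ⟨by norm_num; linarith only [h2], by norm_num; linarith only [h2]⟩
    ⟨by norm_num; linarith only [a0], by norm_num; linarith only [h3]⟩ ⟨by norm_num; linarith only [h4], by norm_num; linarith only [h4]⟩
    (by
      intro e he
      simp only [List.mem_cons, List.not_mem_nil, or_false] at he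
      rcases he with rfl | rfl | rfl | rfl | rfl | rfl | rfl <;>
        (simp only [zge, zle, cge, cle, ypos, yneg, tv, E.val, NumI.E.val, MR.tE_val, NumI.lkR]
         norm_num
         linarith only [a0, h3, h1, a3, a4, a5, a6]))
  rw [E.val, g1E_val] at h
  simp only [gl, tv, tK, E.val, NumI.E.val, NumI.lkR] at h
  push_cast at h
  linarith only [h]

theorem d1_24p {x T m t : ℝ} (h1 : 3600 / 10000 ≤ x ∧ x ≤ 6500 / 10000)
    (h2 : 210 / 10000 ≤ T ∧ T ≤ 920 / 10000) (h3 : 6566 / 10000 ≤ m ∧ m ≤ 7400 / 10000)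
    (h4 : -(910 / 10000) ≤ t ∧ t ≤ 490 / 10000) (a0 : 11 / 12 ≤ 26 / 100 + m) (a1 : 26 / 100 + m ≤ 1 / 1) (a2 : 13 / 12 ≤ x + m) (a3 : 0 ≤ MR.tR 65 29 x T + t) (a4 : T + t ≤ 111 / 1000) (a5 : -(22 / 1000) ≤ T + t) :
    -(48 / 1000 + 115 / 100 * (x - 36 / 100)) < g1 (26 / 100) T x (MR.tR 65 29 x T) m t (lb 2 1 (26 / 100 + m) (T + t))
      (ub 4 1 (x + m) (MR.tR 65 29 x T + t)) := by
  have h := posT (G := add (g1E 65 29 26 tv 2 4 1 1) (gl 48 1000 115 100 36 100)) (al := [cle 26 11 12, cge 26 1 1, zle 13 12, yneg 65 29, emb (.sub (.add (.var 1) (.var 3)) (.q 111 1000)), emb (.sub (.q (-22) 1000) (.add (.var 1) (.var 3)))])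
    (fuel := 28) (c := 11341122946359115644301968486182289920)
    (x := x) (T := T) (x' := m) (t' := t)
    (by decide +kernel : chkT [add (g1E 65 29 26 tv 2 4 1 1) (gl 48 1000 115 100 36 100), cle 26 11 12, cge 26 1 1, zle 13 12, yneg 65 29, emb (.sub (.add (.var 1) (.var 3)) (.q 111 1000)), emb (.sub (.q (-22) 1000) (.add (.var 1) (.var 3)))] 28
      11341122946359115644301968486182289920
      [NumI.V.of 10000 3600 6500, NumI.V.of 10000 210 920, NumI.V.of 10000 6566 7400, NumI.V.of 10000 (-910) 490] = true)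
    ⟨by norm_num; linarith only [h1], by norm_num; linarith only [h1]⟩ ⟨by norm_num; linarith only [h2], by norm_num; linarith only [h2]⟩
    ⟨by norm_num; linarith only [a0], by norm_num; linarith only [h3]⟩ ⟨by norm_num; linarith only [h4], by norm_num; linarith only [h4]⟩
    (by
      intro e he
      simp only [List.mem_cons, List.not_mem_nil, or_false] at he
      rcases he with rfl | rfl | rfl | rfl | rfl | rfl <;>
        (simp only [zge, zle, cge, cle, ypos, yneg, tv, E.val, NumI.E.val, MR.tE_val, NumI.lkR]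
         norm_num
         linarith only [a0, h3, a2, a3, a4, a5]))
  rw [E.val, g1E_val] at h
  simp only [gl, tv, tK, E.val, NumI.E.val, NumI.lkR] at h
  push_cast at h
  linarith only [h]

theorem d1_24m {x T m t : ℝ} (h1 : 3600 / 10000 ≤ x ∧ x ≤ 6500 / 10000)
    (h2 : 210 / 10000 ≤ T ∧ T ≤ 920 / 10000) (h3 : 6566 / 10000 ≤ m ∧ m ≤ 7400 / 10000)
    (h4 : -(910 / 10000) ≤ t ∧ t ≤ 490 / 10000) (a0 : 11 / 12 ≤ 26 / 100 + m) (a1 : 26 / 100 + m ≤ 1 / 1) (a2 : 13 / 12 ≤ x + m) (a3 : MR.tR 65 29 x T + t ≤ 0) (a4 : T + t ≤ 111 / 1000) (a5 : -(22 / 1000) ≤ T + t) :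
    -(48 / 1000 + 115 / 100 * (x - 36 / 100)) < g1 (26 / 100) T x (MR.tR 65 29 x T) m t (lb 2 1 (26 / 100 + m) (T + t))
      (ub 4 (-1) (x + m) (MR.tR 65 29 x T + t)) := by
  have h := posT (G := add (g1E 65 29 26 tv 2 4 1 (-1)) (gl 48 1000 115 100 36 100)) (al := [cle 26 11 12, cge 26 1 1, zle 13 12, ypos 65 29, emb (.sub (.add (.var 1) (.var 3)) (.q 111 1000)), emb (.sub (.q (-22) 1000) (.add (.var 1) (.var 3)))])
    (fuel := 28) (c := 58679219989127254460875688838279498451010498688529194566780190781997568)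
    (x := x) (T := T) (x' := m) (t' := t)
    (by decide +kernel : chkT [add (g1E 65 29 26 tv 2 4 1 (-1)) (gl 48 1000 115 100 36 100), cle 26 11 12, cge 26 1 1, zle 13 12, ypos 65 29, emb (.sub (.add (.var 1) (.var 3)) (.q 111 1000)), emb (.sub (.q (-22) 1000) (.add (.var 1) (.var 3)))] 28
      58679219989127254460875688838279498451010498688529194566780190781997568
      [NumI.V.of 10000 3600 6500, NumI.V.of 10000 210 920, NumI.V.of 10000 6566 7400, NumI.V.of 10000 (-910) 490] = true)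
    ⟨by norm_num; linarith only [h1], by norm_num; linarith only [h1]⟩ ⟨by norm_num; linarith only [h2], by norm_num; linarith only [h2]⟩
    ⟨by norm_num; linarith only [a0], by norm_num; linarith only [h3]⟩ ⟨by norm_num; linarith only [h4], by norm_num; linarith only [h4]⟩
    (by
      intro e he
      simp only [List.mem_cons, List.not_mem_nil, or_false] at he
      rcases he with rfl | rfl | rfl | rfl | rfl | rfl <;>
        (simp only [zge, zle, cge, cle, ypos, yneg, tv, E.val, NumI.E.val, MR.tE_val, NumI.lkR]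
         norm_num
         linarith only [a0, h3, a2, a3, a4, a5]))
  rw [E.val, g1E_val] at h
  simp only [gl, tv, tK, E.val, NumI.E.val, NumI.lkR] at h
  push_cast at h
  linarith only [h]

theorem d1_34p {x T m t : ℝ} (h1 : 3600 / 10000 ≤ x ∧ x ≤ 6500 / 10000)
    (h2 : 210 / 10000 ≤ T ∧ T ≤ 920 / 10000) (h3 : 7400 / 10000 ≤ m ∧ m ≤ 8234 / 10000)
    (h4 : -(910 / 10000) ≤ t ∧ t ≤ 490 / 10000) (a0 : 1 / 1 ≤ 26 / 100 + m) (a1 : 26 / 100 + m ≤ 13 / 12) (a2 : 13 / 12 ≤ x + m) (a3 : 0 ≤ MR.tR 65 29 x T + t) (a4 : T + t ≤ 111 / 1000) (a5 : -(22 / 1000) ≤ T + t) :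
    -(48 / 1000 + 115 / 100 * (x - 36 / 100)) < g1 (26 / 100) T x (MR.tR 65 29 x T) m t (lb 3 1 (26 / 100 + m) (T + t))
      (ub 4 1 (x + m) (MR.tR 65 29 x T + t)) := by
  have h := posT (G := add (g1E 65 29 26 tv 3 4 1 1) (gl 48 1000 115 100 36 100)) (al := [cle 26 1 1, cge 26 13 12, zle 13 12, yneg 65 29, emb (.sub (.add (.var 1) (.var 3)) (.q 111 1000)), emb (.sub (.q (-22) 1000) (.add (.var 1) (.var 3)))])
    (fuel := 28) (c := 40149930849485495730944)
    (x := x) (T := T) (x' := m) (t' := t)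
    (by decide +kernel : chkT [add (g1E 65 29 26 tv 3 4 1 1) (gl 48 1000 115 100 36 100), cle 26 1 1, cge 26 13 12, zle 13 12, yneg 65 29, emb (.sub (.add (.var 1) (.var 3)) (.q 111 1000)), emb (.sub (.q (-22) 1000) (.add (.var 1) (.var 3)))] 28
      40149930849485495730944
      [NumI.V.of 10000 3600 6500, NumI.V.of 10000 210 920, NumI.V.of 10000 7400 8234, NumI.V.of 10000 (-910) 490] = true)
    ⟨by norm_num; linarith only [h1], by norm_num; linarith only [h1]⟩ ⟨by norm_num; linarith only [h2], by norm_num; linarith only [h2]⟩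
    ⟨by norm_num; linarith only [h3], by norm_num; linarith only [h3]⟩ ⟨by norm_num; linarith only [h4], by norm_num; linarith only [h4]⟩
    (by
      intro e he
      simp only [List.mem_cons, List.not_mem_nil, or_false] at he
      rcases he with rfl | rfl | rfl | rfl | rfl | rfl <;>
        (simp only [zge, zle, cge, cle, ypos, yneg, tv, E.val, NumI.E.val, MR.tE_val, NumI.lkR]
         norm_num
         linarith only [h3, a1, h1, a3, a4, a5]))
  rw [E.val, g1E_val] at h
  simp only [gl, tv, tK, E.val, NumI.E.val, NumI.lkR] at h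
  push_cast at h
  linarith only [h]

theorem d1_44p {x T m t : ℝ} (h1 : 3600 / 10000 ≤ x ∧ x ≤ 6500 / 10000)
    (h2 : 210 / 10000 ≤ T ∧ T ≤ 920 / 10000) (h3 : 8233 / 10000 ≤ m ∧ m ≤ 8600 / 10000)
    (h4 : -(910 / 10000) ≤ t ∧ t ≤ 490 / 10000) (a0 : 13 / 12 ≤ 26 / 100 + m) (a1 : 13 / 12 ≤ x + m) (a2 : 0 ≤ MR.tR 65 29 x T + t) (a3 : T + t ≤ 111 / 1000) (a4 : -(22 / 1000) ≤ T + t) :
    -(48 / 1000 + 115 / 100 * (x - 36 / 100)) < g1 (26 / 100) T x (MR.tR 65 29 x T) m t (lb 4 1 (26 / 100 + m) (T + t))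
      (ub 4 1 (x + m) (MR.tR 65 29 x T + t)) := by
  have h := posT (G := add (g1E 65 29 26 tv 4 4 1 1) (gl 48 1000 115 100 36 100)) (al := [cle 26 13 12, zle 13 12, yneg 65 29, emb (.sub (.add (.var 1) (.var 3)) (.q 111 1000)), emb (.sub (.q (-22) 1000) (.add (.var 1) (.var 3)))])
    (fuel := 28) (c := 36649927424)
    (x := x) (T := T) (x' := m) (t' := t)
    (by decide +kernel : chkT [add (g1E 65 29 26 tv 4 4 1 1) (gl 48 1000 115 100 36 100), cle 26 13 12, zle 13 12, yneg 65 29, emb (.sub (.add (.var 1) (.var 3)) (.q 111 1000)), emb (.sub (.q (-22) 1000) (.add (.var 1) (.var 3)))] 28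
      36649927424
      [NumI.V.of 10000 3600 6500, NumI.V.of 10000 210 920, NumI.V.of 10000 8233 8600, NumI.V.of 10000 (-910) 490] = true)
    ⟨by norm_num; linarith only [h1], by norm_num; linarith only [h1]⟩ ⟨by norm_num; linarith only [h2], by norm_num; linarith only [h2]⟩
    ⟨by norm_num; linarith only [a0], by norm_num; linarith only [h3]⟩ ⟨by norm_num; linarith only [h4], by norm_num; linarith only [h4]⟩
    (by
      intro e he
      simp only [List.mem_cons, List.not_mem_nil, or_false] at he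
      rcases he with rfl | rfl | rfl | rfl | rfl <;>
        (simp only [zge, zle, cge, cle, ypos, yneg, tv, E.val, NumI.E.val, MR.tE_val, NumI.lkR]
         norm_num
         linarith only [a0, h1, a2, a3, a4]))
  rw [E.val, g1E_val] at h
  simp only [gl, tv, tK, E.val, NumI.E.val, NumI.lkR] at h
  push_cast at h
  linarith only [h]

theorem d1_44m {x T m t : ℝ} (h1 : 3600 / 10000 ≤ x ∧ x ≤ 6500 / 10000)
    (h2 : 210 / 10000 ≤ T ∧ T ≤ 920 / 10000) (h3 : 8233 / 10000 ≤ m ∧ m ≤ 8600 / 10000)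
    (h4 : -(910 / 10000) ≤ t ∧ t ≤ 490 / 10000) (a0 : 13 / 12 ≤ 26 / 100 + m) (a1 : 13 / 12 ≤ x + m) (a2 : MR.tR 65 29 x T + t ≤ 0) (a3 : -t ≤ 455 / 1000 * (86 / 100 - m)) (a4 : T + t ≤ 111 / 1000) (a5 : -(22 / 1000) ≤ T + t) :
    -(48 / 1000 + 115 / 100 * (x - 36 / 100)) < g1 (26 / 100) T x (MR.tR 65 29 x T) m t (lb 4 1 (26 / 100 + m) (T + t))
      (ub 4 (-1) (x + m) (MR.tR 65 29 x T + t)) := by
  have h := posT (G := add (g1E 65 29 26 tv 4 4 1 (-1)) (gl 48 1000 115 100 36 100)) (al := [cle 26 13 12, zle 13 12, ypos 65 29, emb (.sub (.neg (.var 3)) (.mul (.q 455 1000) (.sub (.q 86 100) (.var 2)))), emb (.sub (.add (.var 1) (.var 3)) (.q 111 1000)), emb (.sub (.q (-22) 1000) (.add (.var 1) (.var 3)))])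
    (fuel := 28) (c := 557251)
    (x := x) (T := T) (x' := m) (t' := t)
    (by decide +kernel : chkT [add (g1E 65 29 26 tv 4 4 1 (-1)) (gl 48 1000 115 100 36 100), cle 26 13 12, zle 13 12, ypos 65 29, emb (.sub (.neg (.var 3)) (.mul (.q 455 1000) (.sub (.q 86 100) (.var 2)))), emb (.sub (.add (.var 1) (.var 3)) (.q 111 1000)), emb (.sub (.q (-22) 1000) (.add (.var 1) (.var 3)))] 28
      557251
      [NumI.V.of 10000 3600 6500, NumI.V.of 10000 210 920, NumI.V.of 10000 8233 8600, NumI.V.of 10000 (-910) 490] = true)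
    ⟨by norm_num; linarith only [h1], by norm_num; linarith only [h1]⟩ ⟨by norm_num; linarith only [h2], by norm_num; linarith only [h2]⟩
    ⟨by norm_num; linarith only [a0], by norm_num; linarith only [h3]⟩ ⟨by norm_num; linarith only [a0, a3], by norm_num; linarith only [h4]⟩
    (by
      intro e he
      simp only [List.mem_cons, List.not_mem_nil, or_false] at he
      rcases he with rfl | rfl | rfl | rfl | rfl | rfl <;>
        (simp only [zge, zle, cge, cle, ypos, yneg, tv, E.val, NumI.E.val, MR.tE_val, NumI.lkR]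
         norm_num
         linarith only [a0, h1, a2, a3, a4, h2]))
  rw [E.val, g1E_val] at h
  simp only [gl, tv, tK, E.val, NumI.E.val, NumI.lkR] at h
  push_cast at h
  linarith only [h]

theorem d1_34m {x T m t : ℝ} (h1 : 3600 / 10000 ≤ x ∧ x ≤ 6500 / 10000)
    (h2 : 210 / 10000 ≤ T ∧ T ≤ 920 / 10000) (h3 : 7400 / 10000 ≤ m ∧ m ≤ 8234 / 10000)
    (h4 : -(910 / 10000) ≤ t ∧ t ≤ 490 / 10000) (a0 : 1 / 1 ≤ 26 / 100 + m) (a1 : 26 / 100 + m ≤ 13 / 12) (a2 : 13 / 12 ≤ x + m) (a3 : MR.tR 65 29 x T + t ≤ 0) (a4 : -t ≤ 455 / 1000 * (86 / 100 - m)) (a5 : -t ≤ 5 * (22 / 1000 + T) * (86 / 100 - m)) (a6 : T + t ≤ 111 / 1000) (a7 : -(22 / 1000) ≤ T + t) :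
    -(48 / 1000 + 115 / 100 * (x - 36 / 100)) < g1 (26 / 100) T x (MR.tR 65 29 x T) m t (lb 3 1 (26 / 100 + m) (T + t))
      (ub 4 (-1) (x + m) (MR.tR 65 29 x T + t)) := by
  have h := posT (G := add (g1E 65 29 26 tv 3 4 1 (-1)) (gl 48 1000 115 100 36 100)) (al := [cle 26 1 1, cge 26 13 12, zle 13 12, ypos 65 29, emb (.sub (.neg (.var 3)) (.mul (.q 455 1000) (.sub (.q 86 100) (.var 2)))), emb (.sub (.neg (.var 3)) (.mul (.mul (.q 5 1) (.add (.q 22 1000) (.var 1))) (.sub (.q 86 100) (.var 2)))), emb (.sub (.add (.var 1) (.var 3)) (.q 111 1000)), emb (.sub (.q (-22) 1000) (.add (.var 1) (.var 3)))])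
    (fuel := 28) (c := 2909947658622964584486317565235118002992)
    (x := x) (T := T) (x' := m) (t' := t)
    (by decide +kernel : chkT [add (g1E 65 29 26 tv 3 4 1 (-1)) (gl 48 1000 115 100 36 100), cle 26 1 1, cge 26 13 12, zle 13 12, ypos 65 29, emb (.sub (.neg (.var 3)) (.mul (.q 455 1000) (.sub (.q 86 100) (.var 2)))), emb (.sub (.neg (.var 3)) (.mul (.mul (.q 5 1) (.add (.q 22 1000) (.var 1))) (.sub (.q 86 100) (.var 2)))), emb (.sub (.add (.var 1) (.var 3)) (.q 111 1000)), emb (.sub (.q (-22) 1000) (.add (.var 1) (.var 3)))] 28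
      2909947658622964584486317565235118002992
      [NumI.V.of 10000 3600 6500, NumI.V.of 10000 210 920, NumI.V.of 10000 7400 8234, NumI.V.of 10000 (-910) 490] = true)
    ⟨by norm_num; linarith only [h1], by norm_num; linarith only [h1]⟩ ⟨by norm_num; linarith only [h2], by norm_num; linarith only [h2]⟩
    ⟨by norm_num; linarith only [h3], by norm_num; linarith only [h3]⟩ ⟨by norm_num; linarith only [h3, a4], by norm_num; linarith only [h4]⟩
    (by
      intro e he
      simp only [List.mem_cons, List.not_mem_nil, or_false] at he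
      rcases he with rfl | rfl | rfl | rfl | rfl | rfl | rfl | rfl <;>
        (simp only [zge, zle, cge, cle, ypos, yneg, tv, E.val, NumI.E.val, MR.tE_val, NumI.lkR]
         norm_num
         linarith only [h3, a1, h1, a3, a4, a5, a6, a7]))
  rw [E.val, g1E_val] at h
  simp only [gl, tv, tK, E.val, NumI.E.val, NumI.lkR] at h
  push_cast at h
  linarith only [h]

end R3V

end Pool.Agent.Work.MP_b30479_gt.G2
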