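import Pool.Agent.Work.MP_b30479_gt.G2.R3V

/-!
# Value rows at `3 | 2`, near the right end
-/

set_option linter.unusedVariables false
set_option linter.unusedTactic false
set_option linter.unreachableTactic false
set_option linter.unusedSimpArgs false
set_option linter.unnecessarySeqFocus false

namespace Pool.Agent.Work.MP_b30479_gt.G2

open VOL NumU

namespace R3V

open E

theorem c2o_m {x T m t : ℝ} (h1 : 5600 / 10000 ≤ x ∧ x ≤ 6000 / 10000)
    (h2 : -(570 / 10000) ≤ T ∧ T ≤ 50 / 10000) (h3 : 7000 / 10000 ≤ m ∧ m ≤ 8000 / 10000)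
    (h4 : -(1160 / 10000) ≤ t ∧ t ≤ 50 / 10000) (a0 : MR.tR 60 30 x T + t ≤ 0) :
    30 / 100 < gw (20 / 100) T x (MR.tR 60 30 x T) m t (lb 2 (-1) (20 / 100 + m) (T + t))
      (ub 4 (-1) (x + m) (MR.tR 60 30 x T + t)) := by
  have h := posT (G := sub (gwE 60 30 20 tv 2 4 (-1) (-1)) (q 30 100)) (al := [ypos 60 30])
    (fuel := 24) (c := 2179)
    (x := x) (T := T) (x' := m) (t' := t)
    (by decide +kernel : chkT [sub (gwE 60 30 20 tv 2 4 (-1) (-1)) (q 30 100), ypos 60 30] 24
      2179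
      [NumI.V.of 10000 5600 6000, NumI.V.of 10000 (-570) 50, NumI.V.of 10000 7000 8000, NumI.V.of 10000 (-1160) 50] = true)
    ⟨by norm_num; linarith only [h1], by norm_num; linarith only [h1]⟩ ⟨by norm_num; linarith only [h2], by norm_num; linarith only [h2]⟩
    ⟨by norm_num; linarith only [h3], by norm_num; linarith only [h3]⟩ ⟨by norm_num; linarith only [h4], by norm_num; linarith only [h4]⟩
    (by
      intro e he
      simp only [List.mem_cons, List.not_mem_nil, or_false] at he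
      rcases he with rfl <;>
        (simp only [zge, zle, cge, cle, ypos, yneg, tv, E.val, NumI.E.val, MR.tE_val, NumI.lkR]
         norm_num
         linarith only [a0]))
  rw [E.val, gwE_val] at h
  simp only [gl, tv, tK, E.val, NumI.E.val, NumI.lkR] at h
  push_cast at h
  linarith only [h]

theorem c2o_p {x T m t : ℝ} (h1 : 5600 / 10000 ≤ x ∧ x ≤ 6000 / 10000)
    (h2 : -(570 / 10000) ≤ T ∧ T ≤ 50 / 10000) (h3 : 7000 / 10000 ≤ m ∧ m ≤ 8000 / 10000)
    (h4 : -(1160 / 10000) ≤ t ∧ t ≤ 50 / 10000) (a0 : 0 ≤ MR.tR 60 30 x T + t) :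
    30 / 100 < gw (20 / 100) T x (MR.tR 60 30 x T) m t (lb 2 (-1) (20 / 100 + m) (T + t))
      (ub 4 1 (x + m) (MR.tR 60 30 x T + t)) := by
  have h := posT (G := sub (gwE 60 30 20 tv 2 4 (-1) 1) (q 30 100)) (al := [yneg 60 30])
    (fuel := 24) (c := 2179)
    (x := x) (T := T) (x' := m) (t' := t)
    (by decide +kernel : chkT [sub (gwE 60 30 20 tv 2 4 (-1) 1) (q 30 100), yneg 60 30] 24
      2179
      [NumI.V.of 10000 5600 6000, NumI.V.of 10000 (-570) 50, NumI.V.of 10000 7000 8000, NumI.V.of 10000 (-1160) 50] = true)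
    ⟨by norm_num; linarith only [h1], by norm_num; linarith only [h1]⟩ ⟨by norm_num; linarith only [h2], by norm_num; linarith only [h2]⟩
    ⟨by norm_num; linarith only [h3], by norm_num; linarith only [h3]⟩ ⟨by norm_num; linarith only [h4], by norm_num; linarith only [h4]⟩
    (by
      intro e he
      simp only [List.mem_cons, List.not_mem_nil, or_false] at he
      rcases he with rfl <;>
        (simp only [zge, zle, cge, cle, ypos, yneg, tv, E.val, NumI.E.val, MR.tE_val, NumI.lkR]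
         norm_num
         linarith only [a0]))
  rw [E.val, gwE_val] at h
  simp only [gl, tv, tK, E.val, NumI.E.val, NumI.lkR] at h
  push_cast at h
  linarith only [h]

theorem c2d_11 {x T m t : ℝ} (h1 : 5600 / 10000 ≤ x ∧ x ≤ 6000 / 10000)
    (h2 : -(50 / 10000) ≤ T ∧ T ≤ 570 / 10000) (h3 : 0 / 10000 ≤ m ∧ m ≤ 3567 / 10000)
    (h4 : -(985 / 10000) ≤ t ∧ t ≤ 960 / 10000) (a0 : 20 / 100 + m ≤ 11 / 12) (a1 : x + m ≤ 11 / 12) :
    -(30 / 100) < gw (20 / 100) T x (MR.tR 60 30 x T) m t (lb 1 1 (20 / 100 + m) (T + t))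
      (ub 1 1 (x + m) (MR.tR 60 30 x T + t)) := by
  have h := posT (G := add (gwE 60 30 20 tv 1 1 1 1) (q 30 100)) (al := [cge 20 11 12, zge 11 12])
    (fuel := 24) (c := 36566172290)
    (x := x) (T := T) (x' := m) (t' := t)
    (by decide +kernel : chkT [add (gwE 60 30 20 tv 1 1 1 1) (q 30 100), cge 20 11 12, zge 11 12] 24
      36566172290
      [NumI.V.of 10000 5600 6000, NumI.V.of 10000 (-50) 570, NumI.V.of 10000 0 3567, NumI.V.of 10000 (-985) 960] = true)
    ⟨by norm_num; linarith only [h1], by norm_num; linarith only [h1]⟩ ⟨by norm_num; linarith only [h2], by norm_num; linarith only [h2]⟩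
    ⟨by norm_num; linarith only [h3], by norm_num; linarith only [h3]⟩ ⟨by norm_num; linarith only [h4], by norm_num; linarith only [h4]⟩
    (by
      intro e he
      simp only [List.mem_cons, List.not_mem_nil, or_false] at he
      rcases he with rfl | rfl <;>
        (simp only [zge, zle, cge, cle, ypos, yneg, tv, E.val, NumI.E.val, MR.tE_val, NumI.lkR]
         norm_num
         linarith only [h3, a1]))
  rw [E.val, gwE_val] at h
  simp only [gl, tv, tK, E.val, NumI.E.val, NumI.lkR] at h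
  push_cast at h
  linarith only [h]

theorem c2d_12 {x T m t : ℝ} (h1 : 5600 / 10000 ≤ x ∧ x ≤ 6000 / 10000)
    (h2 : -(50 / 10000) ≤ T ∧ T ≤ 570 / 10000) (h3 : 3166 / 10000 ≤ m ∧ m ≤ 4400 / 10000)
    (h4 : -(985 / 10000) ≤ t ∧ t ≤ 960 / 10000) (a0 : 20 / 100 + m ≤ 11 / 12) (a1 : 11 / 12 ≤ x + m) (a2 : x + m ≤ 1 / 1) :
    -(30 / 100) < gw (20 / 100) T x (MR.tR 60 30 x T) m t (lb 1 1 (20 / 100 + m) (T + t))
      (ub 2 1 (x + m) (MR.tR 60 30 x T + t)) := by
  have h := posT (G := add (gwE 60 30 20 tv 1 2 1 1) (q 30 100)) (al := [cge 20 11 12, zle 11 12, zge 1 1])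
    (fuel := 24) (c := 8)
    (x := x) (T := T) (x' := m) (t' := t)
    (by decide +kernel : chkT [add (gwE 60 30 20 tv 1 2 1 1) (q 30 100), cge 20 11 12, zle 11 12, zge 1 1] 24
      8
      [NumI.V.of 10000 5600 6000, NumI.V.of 10000 (-50) 570, NumI.V.of 10000 3166 4400, NumI.V.of 10000 (-985) 960] = true)
    ⟨by norm_num; linarith only [h1], by norm_num; linarith only [h1]⟩ ⟨by norm_num; linarith only [h2], by norm_num; linarith only [h2]⟩
    ⟨by norm_num; linarith only [h1, a1], by norm_num; linarith only [h3]⟩ ⟨by norm_num; linarith only [h4], by norm_num; linarith only [h4]⟩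
    (by
      intro e he
      simp only [List.mem_cons, List.not_mem_nil, or_false] at he
      rcases he with rfl | rfl | rfl <;>
        (simp only [zge, zle, cge, cle, ypos, yneg, tv, E.val, NumI.E.val, MR.tE_val, NumI.lkR]
         norm_num
         linarith only [h3, a1, a2]))
  rw [E.val, gwE_val] at h
  simp only [gl, tv, tK, E.val, NumI.E.val, NumI.lkR] at h
  push_cast at h
  linarith only [h]

theorem c2d_13m {x T m t : ℝ} (h1 : 5600 / 10000 ≤ x ∧ x ≤ 6000 / 10000)
    (h2 : -(50 / 10000) ≤ T ∧ T ≤ 570 / 10000) (h3 : 4000 / 10000 ≤ m ∧ m ≤ 5234 / 10000)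
    (h4 : -(985 / 10000) ≤ t ∧ t ≤ 960 / 10000) (a0 : 20 / 100 + m ≤ 11 / 12) (a1 : 1 / 1 ≤ x + m) (a2 : x + m ≤ 13 / 12) (a3 : MR.tR 60 30 x T + t ≤ 0) :
    -(30 / 100) < gw (20 / 100) T x (MR.tR 60 30 x T) m t (lb 1 1 (20 / 100 + m) (T + t))
      (ub 3 (-1) (x + m) (MR.tR 60 30 x T + t)) := by
  have h := posT (G := add (gwE 60 30 20 tv 1 3 1 (-1)) (q 30 100)) (al := [cge 20 11 12, zle 1 1, zge 13 12, ypos 60 30])
    (fuel := 24) (c := 8)
    (x := x) (T := T) (x' := m) (t' := t)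
    (by decide +kernel : chkT [add (gwE 60 30 20 tv 1 3 1 (-1)) (q 30 100), cge 20 11 12, zle 1 1, zge 13 12, ypos 60 30] 24
      8
      [NumI.V.of 10000 5600 6000, NumI.V.of 10000 (-50) 570, NumI.V.of 10000 4000 5234, NumI.V.of 10000 (-985) 960] = true)
    ⟨by norm_num; linarith only [h1], by norm_num; linarith only [h1]⟩ ⟨by norm_num; linarith only [h2], by norm_num; linarith only [h2]⟩
    ⟨by norm_num; linarith only [h3], by norm_num; linarith only [h3]⟩ ⟨by norm_num; linarith only [h4], by norm_num; linarith only [h4]⟩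
    (by
      intro e he
      simp only [List.mem_cons, List.not_mem_nil, or_false] at he
      rcases he with rfl | rfl | rfl | rfl <;>
        (simp only [zge, zle, cge, cle, ypos, yneg, tv, E.val, NumI.E.val, MR.tE_val, NumI.lkR]
         norm_num
         linarith only [h3, a1, a2, a3]))
  rw [E.val, gwE_val] at h
  simp only [gl, tv, tK, E.val, NumI.E.val, NumI.lkR] at h
  push_cast at h
  linarith only [h]

theorem c2d_13p {x T m t : ℝ} (h1 : 5600 / 10000 ≤ x ∧ x ≤ 6000 / 10000)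
    (h2 : -(50 / 10000) ≤ T ∧ T ≤ 570 / 10000) (h3 : 4000 / 10000 ≤ m ∧ m ≤ 5234 / 10000)
    (h4 : -(985 / 10000) ≤ t ∧ t ≤ 960 / 10000) (a0 : 20 / 100 + m ≤ 11 / 12) (a1 : 1 / 1 ≤ x + m) (a2 : x + m ≤ 13 / 12) (a3 : 0 ≤ MR.tR 60 30 x T + t) :
    -(30 / 100) < gw (20 / 100) T x (MR.tR 60 30 x T) m t (lb 1 1 (20 / 100 + m) (T + t))
      (ub 3 1 (x + m) (MR.tR 60 30 x T + t)) := by
  have h := posT (G := add (gwE 60 30 20 tv 1 3 1 1) (q 30 100)) (al := [cge 20 11 12, zle 1 1, zge 13 12, yneg 60 30])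
    (fuel := 24) (c := 8)
    (x := x) (T := T) (x' := m) (t' := t)
    (by decide +kernel : chkT [add (gwE 60 30 20 tv 1 3 1 1) (q 30 100), cge 20 11 12, zle 1 1, zge 13 12, yneg 60 30] 24
      8
      [NumI.V.of 10000 5600 6000, NumI.V.of 10000 (-50) 570, NumI.V.of 10000 4000 5234, NumI.V.of 10000 (-985) 960] = true)
    ⟨by norm_num; linarith only [h1], by norm_num; linarith only [h1]⟩ ⟨by norm_num; linarith only [h2], by norm_num; linarith only [h2]⟩
    ⟨by norm_num; linarith only [h3], by norm_num; linarith only [h3]⟩ ⟨by norm_num; linarith only [h4], by norm_num; linarith only [h4]⟩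
    (by
      intro e he
      simp only [List.mem_cons, List.not_mem_nil, or_false] at he
      rcases he with rfl | rfl | rfl | rfl <;>
        (simp only [zge, zle, cge, cle, ypos, yneg, tv, E.val, NumI.E.val, MR.tE_val, NumI.lkR]
         norm_num
         linarith only [h3, a1, a2, a3]))
  rw [E.val, gwE_val] at h
  simp only [gl, tv, tK, E.val, NumI.E.val, NumI.lkR] at h
  push_cast at h
  linarith only [h]

theorem c2d_14m {x T m t : ℝ} (h1 : 5600 / 10000 ≤ x ∧ x ≤ 6000 / 10000)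
    (h2 : -(50 / 10000) ≤ T ∧ T ≤ 570 / 10000) (h3 : 4833 / 10000 ≤ m ∧ m ≤ 7167 / 10000)
    (h4 : -(985 / 10000) ≤ t ∧ t ≤ 960 / 10000) (a0 : 20 / 100 + m ≤ 11 / 12) (a1 : 13 / 12 ≤ x + m) (a2 : MR.tR 60 30 x T + t ≤ 0) :
    -(30 / 100) < gw (20 / 100) T x (MR.tR 60 30 x T) m t (lb 1 1 (20 / 100 + m) (T + t))
      (ub 4 (-1) (x + m) (MR.tR 60 30 x T + t)) := by
  have h := posT (G := add (gwE 60 30 20 tv 1 4 1 (-1)) (q 30 100)) (al := [cge 20 11 12, zle 13 12, ypos 60 30])
    (fuel := 24) (c := 559154)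
    (x := x) (T := T) (x' := m) (t' := t)
    (by decide +kernel : chkT [add (gwE 60 30 20 tv 1 4 1 (-1)) (q 30 100), cge 20 11 12, zle 13 12, ypos 60 30] 24
      559154
      [NumI.V.of 10000 5600 6000, NumI.V.of 10000 (-50) 570, NumI.V.of 10000 4833 7167, NumI.V.of 10000 (-985) 960] = true)
    ⟨by norm_num; linarith only [h1], by norm_num; linarith only [h1]⟩ ⟨by norm_num; linarith only [h2], by norm_num; linarith only [h2]⟩
    ⟨by norm_num; linarith only [h1, a1], by norm_num; linarith only [h3]⟩ ⟨by norm_num; linarith only [h4], by norm_num; linarith only [h4]⟩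
    (by
      intro e he
      simp only [List.mem_cons, List.not_mem_nil, or_false] at he
      rcases he with rfl | rfl | rfl <;>
        (simp only [zge, zle, cge, cle, ypos, yneg, tv, E.val, NumI.E.val, MR.tE_val, NumI.lkR]
         norm_num
         linarith only [a0, a1, a2]))
  rw [E.val, gwE_val] at h
  simp only [gl, tv, tK, E.val, NumI.E.val, NumI.lkR] at h
  push_cast at h
  linarith only [h]

theorem c2d_14p {x T m t : ℝ} (h1 : 5600 / 10000 ≤ x ∧ x ≤ 6000 / 10000)
    (h2 : -(50 / 10000) ≤ T ∧ T ≤ 570 / 10000) (h3 : 4833 / 10000 ≤ m ∧ m ≤ 7167 / 10000)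
    (h4 : -(985 / 10000) ≤ t ∧ t ≤ 960 / 10000) (a0 : 20 / 100 + m ≤ 11 / 12) (a1 : 13 / 12 ≤ x + m) (a2 : 0 ≤ MR.tR 60 30 x T + t) :
    -(30 / 100) < gw (20 / 100) T x (MR.tR 60 30 x T) m t (lb 1 1 (20 / 100 + m) (T + t))
      (ub 4 1 (x + m) (MR.tR 60 30 x T + t)) := by
  have h := posT (G := add (gwE 60 30 20 tv 1 4 1 1) (q 30 100)) (al := [cge 20 11 12, zle 13 12, yneg 60 30])
    (fuel := 24) (c := 143164194)
    (x := x) (T := T) (x' := m) (t' := t)
    (by decide +kernel : chkT [add (gwE 60 30 20 tv 1 4 1 1) (q 30 100), cge 20 11 12, zle 13 12, yneg 60 30] 24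
      143164194
      [NumI.V.of 10000 5600 6000, NumI.V.of 10000 (-50) 570, NumI.V.of 10000 4833 7167, NumI.V.of 10000 (-985) 960] = true)
    ⟨by norm_num; linarith only [h1], by norm_num; linarith only [h1]⟩ ⟨by norm_num; linarith only [h2], by norm_num; linarith only [h2]⟩
    ⟨by norm_num; linarith only [h1, a1], by norm_num; linarith only [h3]⟩ ⟨by norm_num; linarith only [h4], by norm_num; linarith only [h4]⟩
    (by
      intro e he
      simp only [List.mem_cons, List.not_mem_nil, or_false] at he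
      rcases he with rfl | rfl | rfl <;>
        (simp only [zge, zle, cge, cle, ypos, yneg, tv, E.val, NumI.E.val, MR.tE_val, NumI.lkR]
         norm_num
         linarith only [a0, a1, a2]))
  rw [E.val, gwE_val] at h
  simp only [gl, tv, tK, E.val, NumI.E.val, NumI.lkR] at h
  push_cast at h
  linarith only [h]

theorem c2d_24m {x T m t : ℝ} (h1 : 5600 / 10000 ≤ x ∧ x ≤ 6000 / 10000)
    (h2 : -(50 / 10000) ≤ T ∧ T ≤ 570 / 10000) (h3 : 7166 / 10000 ≤ m ∧ m ≤ 8000 / 10000)
    (h4 : -(985 / 10000) ≤ t ∧ t ≤ 960 / 10000) (a0 : 11 / 12 ≤ 20 / 100 + m) (a1 : 13 / 12 ≤ x + m) (a2 : MR.tR 60 30 x T + t ≤ 0) :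
    -(30 / 100) < gw (20 / 100) T x (MR.tR 60 30 x T) m t (lb 2 1 (20 / 100 + m) (T + t))
      (ub 4 (-1) (x + m) (MR.tR 60 30 x T + t)) := by
  have h := posT (G := add (gwE 60 30 20 tv 2 4 1 (-1)) (q 30 100)) (al := [cle 20 11 12, zle 13 12, ypos 60 30])
    (fuel := 24) (c := 2179)
    (x := x) (T := T) (x' := m) (t' := t)
    (by decide +kernel : chkT [add (gwE 60 30 20 tv 2 4 1 (-1)) (q 30 100), cle 20 11 12, zle 13 12, ypos 60 30] 24
      2179
      [NumI.V.of 10000 5600 6000, NumI.V.of 10000 (-50) 570, NumI.V.of 10000 7166 8000, NumI.V.of 10000 (-985) 960] = true)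
    ⟨by norm_num; linarith only [h1], by norm_num; linarith only [h1]⟩ ⟨by norm_num; linarith only [h2], by norm_num; linarith only [h2]⟩
    ⟨by norm_num; linarith only [a0], by norm_num; linarith only [h3]⟩ ⟨by norm_num; linarith only [h4], by norm_num; linarith only [h4]⟩
    (by
      intro e he
      simp only [List.mem_cons, List.not_mem_nil, or_false] at he
      rcases he with rfl | rfl | rfl <;>
        (simp only [zge, zle, cge, cle, ypos, yneg, tv, E.val, NumI.E.val, MR.tE_val, NumI.lkR]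
         norm_num
         linarith only [a0, h1, a2]))
  rw [E.val, gwE_val] at h
  simp only [gl, tv, tK, E.val, NumI.E.val, NumI.lkR] at h
  push_cast at h
  linarith only [h]

theorem c2d_24p {x T m t : ℝ} (h1 : 5600 / 10000 ≤ x ∧ x ≤ 6000 / 10000)
    (h2 : -(50 / 10000) ≤ T ∧ T ≤ 570 / 10000) (h3 : 7166 / 10000 ≤ m ∧ m ≤ 8000 / 10000)
    (h4 : -(985 / 10000) ≤ t ∧ t ≤ 960 / 10000) (a0 : 11 / 12 ≤ 20 / 100 + m) (a1 : 13 / 12 ≤ x + m) (a2 : 0 ≤ MR.tR 60 30 x T + t) :
    -(30 / 100) < gw (20 / 100) T x (MR.tR 60 30 x T) m t (lb 2 1 (20 / 100 + m) (T + t))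
      (ub 4 1 (x + m) (MR.tR 60 30 x T + t)) := by
  have h := posT (G := add (gwE 60 30 20 tv 2 4 1 1) (q 30 100)) (al := [cle 20 11 12, zle 13 12, yneg 60 30])
    (fuel := 24) (c := 2179)
    (x := x) (T := T) (x' := m) (t' := t)
    (by decide +kernel : chkT [add (gwE 60 30 20 tv 2 4 1 1) (q 30 100), cle 20 11 12, zle 13 12, yneg 60 30] 24
      2179
      [NumI.V.of 10000 5600 6000, NumI.V.of 10000 (-50) 570, NumI.V.of 10000 7166 8000, NumI.V.of 10000 (-985) 960] = true)
    ⟨by norm_num; linarith only [h1], by norm_num; linarith only [h1]⟩ ⟨by norm_num; linarith only [h2], by norm_num; linarith only [h2]⟩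
    ⟨by norm_num; linarith only [a0], by norm_num; linarith only [h3]⟩ ⟨by norm_num; linarith only [h4], by norm_num; linarith only [h4]⟩
    (by
      intro e he
      simp only [List.mem_cons, List.not_mem_nil, or_false] at he
      rcases he with rfl | rfl | rfl <;>
        (simp only [zge, zle, cge, cle, ypos, yneg, tv, E.val, NumI.E.val, MR.tE_val, NumI.lkR]
         norm_num
         linarith only [a0, h1, a2]))
  rw [E.val, gwE_val] at h
  simp only [gl, tv, tK, E.val, NumI.E.val, NumI.lkR] at h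
  push_cast at h
  linarith only [h]

end R3V

end Pool.Agent.Work.MP_b30479_gt.G2
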