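import Pool.Agent.Work.MP_b30479_gt.G2.CN.LocRU
import Pool.Agent.Work.MP_b30479_gt.G2.CN.LocRR
import Pool.Agent.Work.MP_b30479_gt.G2.CN.RingB
import Pool.Agent.Work.MP_b30479_gt.G2.WRng0

/-!
# Location facts of the alternating words all of whose digits are at least `4`
-/

namespace Pool.Agent.Work.MP_b30479_gt.G2.CN.TD

open Complex SR
open scoped ComplexConjugate

noncomputable section

theorem b3R {K : KFam} (hK : KOK K) {d : ℕ} {l : SK} {d' : ℕ} {l' : SK} {w R k' : ℂ}
    (t : TDt K .a d l d' l' w R k') (h4 : 4 ≤ d) (h3 : 4 ≤ d')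
    (hz : ZB d l (zeta w)) (hy : YB .a d' l' (yH .a R (Complex.cos w))) :
    RB3 (yH .a R (Complex.cos w)) (zeta w) := by
  have z0 := zb_rg h4 hz
  have hY : 171 / 1000 ≤ (yH .a R (Complex.cos w)).re ∧
      (yH .a R (Complex.cos w)).re ≤ 252 / 1000 ∧
      -(58 / 1000) ≤ (yH .a R (Complex.cos w)).im := by
    have := ybR h3 hy
    exact ⟨by linarith, by linarith, by linarith⟩
  obtain ⟨y0, y1, y2⟩ := hY
  rcases Nat.lt_or_ge d 6 with h6 | h6
  · have : d = 4 ∨ d = 5 := by omega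
    rcases this with rfl | rfl
    · exact b3_4a hK t (by omega) ⟨by linarith, by linarith, z0.1, z0.2⟩
    · exact b3_5a hK t (by omega) hz hy
  · exact b3_6 h6 hz y1 y2

theorem r4i_ZR {K : KFam} (hK : KOK K) {dl : ℕ} {ll : SK} {dr : ℕ} {rr : SK} {w kl kr : ℂ}
    (t : LDt K .a .a dl ll dr rr w kl kr) (hd : 4 ≤ dr)
    (hli : LI .a (yH .a (RR w kl) (Complex.cos w)))
    (rg : Rg (yH .a (RR w kr) (Complex.cos w)) (zeta w)) :
    B4 1870 2370 1670 2170 370 980 490 1050 (-200) 430 4380 3560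
      (yH .a (RR w kr) (Complex.cos w)) (zeta w) := by
  have hl := t.h.right.ok.left
  have hr := t.h.right.ok.right.symm
  exact b4_of (tuseLA hK t rfl rfl fiZ_a (li_a hli) (hK.inH hl k4aa_ok) (in_nZa hK hr hd)
    OL.a OR.nil) al4iZ_st rg (by norm_num) (by norm_num) (by norm_num)

section
variable {M : ℕ} {b : Fin (M + 1) → ℤ} {w : ℕ → ℂ}

theorem ring_locR (hb : ClassW b) (hw : Sol b w) (hM : 1 ≤ M) (h4 : ∀ i, 4 ≤ (b i).natAbs)
    (ha : ∀ h : Fin M, b h.castSucc * b h.succ < 0) :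
    LocR b (zsW b w) ∧ LocRg b (zsW b w) ∧ LocR4 b (zsW b w) := by
  have hS := LA.snd3_ring hb hw hM h4 ha
  have hK := LA.ringK_ok kok_kr3
  have Bx := LA.ring_boxRows kok_kr3 Kr3_le
  have F := ringFacts
  have hL := loc_of_boxes hb F hw hM hS Bx
  have hcl : ∀ i, clsW b i = .ring := by
    intro i
    have := h4 i
    unfold clsW cls
    rw [if_neg (by omega), if_neg (by omega), if_neg (by omega)]
  have hn : ∀ {i} {C : Cl}, C ≠ .ring → clsW b i = C → False := fun h1 h2 =>
    h1 (h2.symm.trans (hcl _))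
  have halt : ∀ {h : Fin M} {i j : Fin (M + 1)} {p : Fin 3}, Adj h i p j → b i * b j < 0 := by
    intro h i j p A
    cases A
    · exact ha _
    · rw [mul_comm]
      exact ha _
  refine ⟨⟨fun A hi hj => LA.rr_of hb F hw hK hS Bx A hi hj, fun _ hc _ => (hn (by decide) hc).elim⟩,
    ⟨?_, fun _ _ _ _ hc => (hn (by decide) hc).elim, fun _ _ _ _ hc => (hn (by decide) hc).elim,
      fun _ _ _ _ _ hc => (hn (by decide) hc).elim, fun _ _ _ _ _ hc => (hn (by decide) hc).elim,
      fun _ _ _ _ hc _ => (hn (by decide) hc).elim, fun _ _ _ hc _ _ => (hn (by decide) hc).elim,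
      fun _ _ _ _ hc _ _ => (hn (by decide) hc).elim⟩, ⟨?_⟩⟩
  · intro h i j p v hv A _ _
    subst hv
    obtain ⟨x, l, d', l', R, k', t, hy, he, hc', hx, hB⟩ := ring_view hb F hw hS Bx A (h4 _)
    obtain ⟨rfl, -, -, hd, -⟩ := LA.ring_view t.h
    rw [ofz_own, hy]
    exact b3R hK t (h4 _) hd (zb_of hL v he) (kbox_un (h4 _) (by decide) hB)
  · intro h i j p v hv A _ h4i
    have hss : ssW b h = false := by
      rw [ss_adj A]
      exact decide_eq_false (not_lt.2 (halt A).le)
    rcases Bool.eq_false_or_eq_true (isEnd i) with hend | hend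
    · obtain ⟨x, l, d', l', R, k', t, hy, he, hc, hx, hB⟩ := ring_view hb F hw hS Bx A (by omega)
      obtain ⟨rfl, -, -, hd, -⟩ := LA.ring_view t.h
      have hle := he.2 hend
      subst hle
      have hbx := box_cls Bx t.h (by omega) hc
      subst hv
      have z0 := zb_rg (by omega) (zb_of hL v he)
      have y0 := hb_rg hbx
      rw [h4i] at t
      rw [hend, ofz_own, hy, hcl, hss]
      exact b4_in (r4e_Z hK t hd ⟨y0.1, y0.2, z0.1, z0.2⟩)
    · obtain ⟨g, k, A2⟩ := adj_other A hend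
      have A' : Adj h i p.rev.rev j := by rwa [Fin.rev_rev]
      obtain ⟨l, x, dl, ll, dr, rr, kl, kr, hE, y1, y2, s1, s2⟩ :=
        pair_sd hb F hw hS A2 A' (us_of_abs (by omega))
      obtain ⟨rfl, -, -, hdr, -⟩ := LA.ring_view hE.right
      obtain ⟨rfl, -, -, hdl, -⟩ := LA.ring_view hE.left
      have hbx := box_cls Bx hE.right (by omega) s2.cls
      have hbl := box_cls Bx hE.left (by omega) s1.cls
      have he : SK.a = .e ↔ isEnd i = true :=
        ⟨fun h5 => absurd h5 (by decide), fun h5 => by rw [hend] at h5; exact absurd h5 (by decide)⟩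
      subst hv
      have z0 := zb_rg (by omega) (zb_of hL v he)
      have y0 := hb_rg hbx
      rw [h4i] at hE
      rw [hend, ofz_own, y2, hcl, hss]
      exact b4_in (r4i_ZR hK (LDt.of Bx hE) hdr
        (li_of hE.left.ok.ne (fun h5 => absurd h5 (by decide)) s1.cls hbl)
        ⟨y0.1, y0.2, z0.1, z0.2⟩)

end

end

end Pool.Agent.Work.MP_b30479_gt.G2.CN.TD
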