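import Pool.Agent.Work.MP_b30479_gt.G2.RR4F

/-!
# Rings at an end with the ring variable on the ramp, `b = 4`: rows one, two, three, threeE
-/

namespace Pool.Agent.Work.MP_b30479_gt.G2

open Real NumI

namespace RQ4

open RC RQ

theorem done_0_e : okB 10000
    (uE 4738 4380 4738 0 1 1965 2153 2160 7 786 848 1403)
    0 1580 0 0 40 2160 2751 430 1200 1250 2500 220 500
    0xa1a02f0d077808d06046e11a0c0e11a0f0811a3408300006831434002bd7868dc384001000c682077808d1a3405e1a0c0811a08687040c1811428102 = true := by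
  decide +kernel

theorem done_0_db : okB 10000
    (uD 1 4738 4380 4738 0 1 1965 2160 7 786 848 1403)
    0 1580 0 0 40 1600 2160 430 1200 1250 2500 220 500
    0x5ca020e400031a08b171a081960404502285011728080872804100 = true := by
  decide +kernel

theorem done_0_da : okB 10000
    (uD 0 4738 4380 4738 0 1 1965 2160 7 786 848 1403)
    0 1580 0 0 40 2160 2751 430 1200 1250 2500 220 500
    0x162c00b022808a021a501161a0ca020254103 = true := by
  decide +kernel

theorem done_0_ua : okB 10000
    (uU 0 4738 4380 4738 0 1 1965 2153 2160 2751 7 786 848 1403)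
    0 1580 0 0 40 2160 2751 430 1200 1250 2500 220 500
    0x346d900006820e0d60d076468300341811434002bcb2c801a081de02346bb02046821a081811428102 = true := by
  decide +kernel

theorem done_0_ub : okB 10000
    (uU 1 4738 4380 4738 0 1 1965 2153 2160 2751 7 786 848 1403)
    0 1580 0 0 40 2751 3600 430 1200 1250 2500 220 500
    0x17875e020c7031c0160158007001c0af011c39601580408e003410e000c702bc06f011c3402c1c0c70358b0001580008d1a04682043815e583415e0378083020c68e023800d04396011a0c7001c086825874682063812c1c0c001020c68e0234162060c70d017808d1a0818d06b072c020c08d06345035834181140c100bd7960d04b002c5200083077809d58056011cec0831a281ac02006bb022c681000869d0234103060470a00346801a0808a0628681140015ebc341831a0af011a3408d040c0821434500140808a040960a003410d04b0682bc0408a1a04500140818a062850a040410a05796290034103bc046b8140c08d140010a040c50a0408080 = true := by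
  decide +kernel

theorem tone_0 {xs s T ρ : ℝ} (hW : RWp.In ⟨2160 / 10000, 2751 / 10000, -(1150 / 10000), -(380 / 10000), 1965 / 10000, 2153 / 10000, 220 / 10000, 500 / 10000, 4738 / 10000, 4380 / 10000, 848 / 10000, 1403 / 10000, 0, 1⟩ xs s T ρ)
    (hD : Dx xs (1 / 2 - s) T ρ = 2 * π * 4 * ρ)
    (ha : ((2160 : ℕ) : ℝ) / 10000 ≤ xs) (he : xs ≤ ((2751 : ℕ) : ℝ) / 10000)
    (hs : ((1965 : ℕ) : ℝ) / 10000 ≤ s) (hs' : s ≤ ((2153 : ℕ) : ℝ) / 10000) :
    RampOK1 4 xs (1 / 2 - s) T ρ (16 / 100) (36 / 100) := by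
  have hN : Nm 4738 4380 4738 0 1 786 1965 848 1403 430 1200 220 500 xs s T ρ := by
    obtain ⟨-, -, w1, w2, -, -, w5, w6, w7, w8, w9, w10, w11, w12⟩ := hW
    dsimp only at w1 w2 w6 w7 w8 w9 w10 w11 w12
    push_cast at ha he hs hs'
    exact ⟨by linarith only [ha, w5, w7], by linarith only [he, w5, w7], by push_cast; linarith only [hs], by norm_num, by push_cast; linarith only [w8],
      by norm_num, by push_cast; linarith only [w9], by norm_num, by push_cast; linarith only [w8], by norm_num,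
      by push_cast; linarith only [he, hs], by push_cast; linarith only [ha, hs', w5, w7], by norm_num, by push_cast; linarith only [w1],
      by push_cast; linarith only [w2], by push_cast; linarith only [w6], by push_cast; linarith only [w7], w5,
      fun _ => by push_cast; linarith only [w10], by push_cast; linarith only [w11]⟩
  have g : NE 7 2153 2160 xs s T ρ :=
    ⟨hD, hs', by norm_num, Or.inr (Or.inr (by push_cast at ha hs' ⊢; linarith only [ha, hs'])), by norm_num, ha⟩
  have hcl : (0 : ℝ) < 16 / 100 := by norm_num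
  have hcp : (36 / 100 : ℝ) < 1 / 2 := by norm_num
  refine ⟨fun y hA => qE done_0_e hN g hA hcl hcp (by norm_num) ha he,
    fun x y hA hx => ?_, fun x y hA hx => ?_⟩
  · have hx0 : ((1600 : ℕ) : ℝ) / 10000 ≤ x := le_trans (by norm_num) hA.x0
    rcases le_total x (((2160 : ℕ) : ℝ) / 10000) with hc | hc
    · exact qD done_0_db hN g hA hcl hcp (by norm_num) (by norm_num) hx0 hc hx
    · exact qD done_0_da hN g hA hcl hcp (by norm_num) (by norm_num) hc (hx.le.trans he) hx
  · have hx1 : x ≤ ((3600 : ℕ) : ℝ) / 10000 := le_trans hA.x1 (by norm_num)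
    rcases le_total x (((2751 : ℕ) : ℝ) / 10000) with hc | hc
    · exact qU done_0_ua hN g hA hcl hcp (by norm_num) (by norm_num) he (ha.trans hx.le) hc hx
    · exact qU done_0_ub hN g hA hcl hcp (by norm_num) (by norm_num) he hc hx1 hx

theorem dtwo_0_e : okB 10000
    (uE 4490 4020 5442 10 13 2040 2225 1910 0 340 580 970)
    0 1580 0 0 40 1910 2380 1020 1470 1250 2500 320 530
    0x3491000430800200390000c682bd7808d1a370800243081c20000006043872004007040c38d0208502 = true := by
  decide +kernel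

theorem dtwo_0_db : okB 10000
    (uD 1 4490 4020 5442 10 13 2040 1910 0 340 580 970)
    0 1580 0 0 40 1250 1910 1020 1470 1250 2500 320 530
    0x5c8022e04b802808a00205c087045c00704500030e10102 = true := by
  decide +kernel

theorem dtwo_0_da : okB 10000
    (uD 0 4490 4020 5442 10 13 2040 1910 0 340 580 970)
    0 1580 0 0 40 1910 2380 1020 1470 1250 2500 320 530
    0x58b970000a022808a020e58a0228080870650103 = true := by
  decide +kernel

theorem dtwo_0_ua : okB 10000
    (uU 0 4490 4020 5442 10 13 2040 2225 1910 2380 0 340 580 970)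
    0 1580 0 0 40 1910 2380 1020 1470 1250 2500 320 530
    0xdba00682bd7808da94c10006043872004007040c38d0208502 = true := by
  decide +kernel

theorem dtwo_0_ub : okB 10000
    (uU 1 4490 4020 5442 10 13 2040 2225 1910 2380 0 340 580 970)
    0 1580 0 0 40 2380 3000 1020 1470 1250 2500 320 530
    0xa52046ac020050214085070e0800a040c502 = true := by
  decide +kernel

theorem ttwo_0 {xs s T ρ : ℝ} (hW : RWp.In ⟨1910 / 10000, 2380 / 10000, -(560 / 10000), -(110 / 10000), 2040 / 10000, 2225 / 10000, 320 / 10000, 530 / 10000, 4490 / 10000, 4020 / 10000, 580 / 10000, 970 / 10000, 13 / 10, 398 / 1000⟩ xs s T ρ)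
    (hD : Dx xs (1 / 2 - s) T ρ = 2 * π * 4 * ρ)
    (ha : ((1910 : ℕ) : ℝ) / 10000 ≤ xs) (he : xs ≤ ((2380 : ℕ) : ℝ) / 10000)
    (hs : ((2040 : ℕ) : ℝ) / 10000 ≤ s) (hs' : s ≤ ((2225 : ℕ) : ℝ) / 10000) :
    RampOK1 4 xs (1 / 2 - s) T ρ (125 / 1000) (30 / 100) := by
  have hN : Nm 4490 4020 5442 10 13 340 2040 580 970 1020 1470 320 530 xs s T ρ := by
    obtain ⟨-, -, w1, w2, -, -, w5, w6, w7, w8, w9, w10, w11, w12⟩ := hW
    dsimp only at w1 w2 w6 w7 w8 w9 w10 w11 w12
    push_cast at ha he hs hs'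
    exact ⟨by linarith only [ha, w5, w7], by linarith only [he, w5, w7], by push_cast; linarith only [hs], by norm_num, by push_cast; linarith only [w8],
      by norm_num, by push_cast; linarith only [w9], by norm_num, by push_cast; linarith only [he, hs', w5, w7, w11], by norm_num,
      by push_cast; linarith only [he, hs], by push_cast; linarith only [ha, hs', w5, w7], by norm_num, by push_cast; linarith only [w1],
      by push_cast; linarith only [w2], by push_cast; linarith only [w6], by push_cast; linarith only [w7], w5,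
      fun _ => by push_cast; linarith only [w10], by push_cast; linarith only [w11]⟩
  have g : NE 0 2225 1910 xs s T ρ :=
    ⟨hD, hs', by norm_num, Or.inl (by norm_num), by norm_num, ha⟩
  have hcl : (0 : ℝ) < 125 / 1000 := by norm_num
  have hcp : (30 / 100 : ℝ) < 1 / 2 := by norm_num
  refine ⟨fun y hA => qE dtwo_0_e hN g hA hcl hcp (by norm_num) ha he,
    fun x y hA hx => ?_, fun x y hA hx => ?_⟩
  · have hx0 : ((1250 : ℕ) : ℝ) / 10000 ≤ x := le_trans (by norm_num) hA.x0
    rcases le_total x (((1910 : ℕ) : ℝ) / 10000) with hc | hc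
    · exact qD dtwo_0_db hN g hA hcl hcp (by norm_num) (by norm_num) hx0 hc hx
    · exact qD dtwo_0_da hN g hA hcl hcp (by norm_num) (by norm_num) hc (hx.le.trans he) hx
  · have hx1 : x ≤ ((3000 : ℕ) : ℝ) / 10000 := le_trans hA.x1 (by norm_num)
    rcases le_total x (((2380 : ℕ) : ℝ) / 10000) with hc | hc
    · exact qU dtwo_0_ua hN g hA hcl hcp (by norm_num) (by norm_num) he (ha.trans hx.le) hc hx
    · exact qU dtwo_0_ub hN g hA hcl hcp (by norm_num) (by norm_num) he hc hx1 hx

theorem dthree_0_e : okB 10000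
    (uE 4360 3850 4832 10 22 2130 2340 1880 0 460 470 740)
    0 1580 0 0 40 1880 2150 1310 1590 1250 2500 380 550
    0x1224488010002f10060480320400820e400020e08382 = true := by
  decide +kernel

theorem dthree_0_db : okB 10000
    (uD 1 4360 3850 4832 10 22 2130 1880 0 460 470 740)
    0 1580 0 0 40 1200 1880 1310 1590 1250 2500 380 550
    0x5c8032e00b8228003822800382 = true := by
  decide +kernel

theorem dthree_0_da : okB 10000
    (uD 0 4360 3850 4832 10 22 2130 1880 0 460 470 740)
    0 1580 0 0 40 1880 2150 1310 1590 1250 2500 380 550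
    0x5cb80200ca022808a02 = true := by
  decide +kernel

theorem dthree_0_ua : okB 10000
    (uU 0 4360 3850 4832 10 22 2130 2340 1880 2150 0 460 470 740)
    0 1580 0 0 40 1880 2150 1310 1590 1250 2500 380 550
    0x176a02ba04b030e400020e08382 = true := by
  decide +kernel

theorem dthree_0_ub : okB 10000
    (uU 1 4360 3850 4832 10 22 2130 2340 1880 2150 0 460 470 740)
    0 1580 0 0 40 2150 3000 1310 1590 1250 2500 380 550
    0x2850214085021a1c681001c1070428100 = true := by
  decide +kernel

theorem tthree_0 {xs s T ρ : ℝ} (hW : RWp.In ⟨1880 / 10000, 2150 / 10000, -(270 / 10000), 10 / 10000, 2130 / 10000, 2340 / 10000, 380 / 10000, 550 / 10000, 4360 / 10000, 3850 / 10000, 470 / 10000, 740 / 10000, 22 / 10, 59 / 100⟩ xs s T ρ)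
    (hD : Dx xs (1 / 2 - s) T ρ = 2 * π * 4 * ρ)
    (ha : ((1880 : ℕ) : ℝ) / 10000 ≤ xs) (he : xs ≤ ((2150 : ℕ) : ℝ) / 10000)
    (hs : ((2130 : ℕ) : ℝ) / 10000 ≤ s) (hs' : s ≤ ((2340 : ℕ) : ℝ) / 10000) :
    RampOK1 4 xs (1 / 2 - s) T ρ (12 / 100) (30 / 100) := by
  have hN : Nm 4360 3850 4832 10 22 460 2130 470 740 1310 1590 380 550 xs s T ρ := by
    obtain ⟨-, -, w1, w2, -, -, w5, w6, w7, w8, w9, w10, w11, w12⟩ := hW
    dsimp only at w1 w2 w6 w7 w8 w9 w10 w11 w12
    push_cast at ha he hs hs'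
    exact ⟨by linarith only [ha, w5, w7], by linarith only [he, w5, w7], by push_cast; linarith only [hs], by norm_num, by push_cast; linarith only [w8],
      by norm_num, by push_cast; linarith only [w9], by norm_num, by push_cast; linarith only [he, hs', w5, w7, w11], by norm_num,
      by push_cast; linarith only [he, hs, w5, w7], by push_cast; linarith only [ha, hs'], by norm_num, by push_cast; linarith only [w1],
      by push_cast; linarith only [w2], by push_cast; linarith only [w6], by push_cast; linarith only [w7], w5,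
      fun _ => by push_cast; linarith only [w10], by push_cast; linarith only [w11]⟩
  have g : NE 0 2340 1880 xs s T ρ :=
    ⟨hD, hs', by norm_num, Or.inl (by norm_num), by norm_num, ha⟩
  have hcl : (0 : ℝ) < 12 / 100 := by norm_num
  have hcp : (30 / 100 : ℝ) < 1 / 2 := by norm_num
  refine ⟨fun y hA => qE dthree_0_e hN g hA hcl hcp (by norm_num) ha he,
    fun x y hA hx => ?_, fun x y hA hx => ?_⟩
  · have hx0 : ((1200 : ℕ) : ℝ) / 10000 ≤ x := le_trans (by norm_num) hA.x0
    rcases le_total x (((1880 : ℕ) : ℝ) / 10000) with hc | hc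
    · exact qD dthree_0_db hN g hA hcl hcp (by norm_num) (by norm_num) hx0 hc hx
    · exact qD dthree_0_da hN g hA hcl hcp (by norm_num) (by norm_num) hc (hx.le.trans he) hx
  · have hx1 : x ≤ ((3000 : ℕ) : ℝ) / 10000 := le_trans hA.x1 (by norm_num)
    rcases le_total x (((2150 : ℕ) : ℝ) / 10000) with hc | hc
    · exact qU dthree_0_ua hN g hA hcl hcp (by norm_num) (by norm_num) he (ha.trans hx.le) hc hx
    · exact qU dthree_0_ub hN g hA hcl hcp (by norm_num) (by norm_num) he hc hx1 hx

theorem dthreeE_0_e : okB 10000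
    (uE 4100 3670 4502 10 22 2200 2360 1710 380 650 570 730)
    0 1580 0 0 40 1710 1820 1240 1400 1250 2500 310 450
    0x42f01200c2020e0c202 = true := by
  decide +kernel

theorem dthreeE_0_db : okB 10000
    (uD 1 4100 3670 4502 10 22 2200 1710 380 650 570 730)
    0 1580 0 0 40 1000 1710 1240 1400 1250 2500 310 450
    0x1724088030e08a070400202281c100 = true := by
  decide +kernel

theorem dthreeE_0_da : okB 10000
    (uD 0 4100 3670 4502 10 22 2200 1710 380 650 570 730)
    0 1580 0 0 40 1710 1820 1240 1400 1250 2500 310 450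
    0x17120c4822808a02 = true := by
  decide +kernel

theorem dthreeE_0_ua : okB 10000
    (uU 0 4100 3670 4502 10 22 2200 2360 1710 1820 380 650 570 730)
    0 1580 0 0 40 1710 1820 1240 1400 1250 2500 310 450
    0xc04820808202 = true := by
  decide +kernel

theorem dthreeE_0_ub : okB 10000
    (uU 1 4100 3670 4502 10 22 2200 2360 1710 1820 380 650 570 730)
    0 1580 0 0 40 1820 2600 1240 1400 1250 2500 310 450
    0x3468043820e10002 = true := by
  decide +kernel

theorem tthreeE_0 {xs s T ρ : ℝ} (hW : RWp.In ⟨1710 / 10000, 1820 / 10000, -(340 / 10000), -(180 / 10000), 2200 / 10000, 2360 / 10000, 310 / 10000, 450 / 10000, 4100 / 10000, 3670 / 10000, 570 / 10000, 730 / 10000, 22 / 10, 59 / 100⟩ xs s T ρ)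
    (hD : Dx xs (1 / 2 - s) T ρ = 2 * π * 4 * ρ)
    (ha : ((1710 : ℕ) : ℝ) / 10000 ≤ xs) (he : xs ≤ ((1820 : ℕ) : ℝ) / 10000)
    (hs : ((2200 : ℕ) : ℝ) / 10000 ≤ s) (hs' : s ≤ ((2360 : ℕ) : ℝ) / 10000) :
    RampOK1 4 xs (1 / 2 - s) T ρ (10 / 100) (26 / 100) := by
  have hN : Nm 4100 3670 4502 10 22 650 2200 570 730 1240 1400 310 450 xs s T ρ := by
    obtain ⟨-, -, w1, w2, -, -, w5, w6, w7, w8, w9, w10, w11, w12⟩ := hW
    dsimp only at w1 w2 w6 w7 w8 w9 w10 w11 w12
    push_cast at ha he hs hs'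
    exact ⟨by linarith only [ha, w5, w7], by linarith only [he, w5, w7], by push_cast; linarith only [hs], by norm_num, by push_cast; linarith only [w8],
      by norm_num, by push_cast; linarith only [w9], by norm_num, by push_cast; linarith only [w5, w7, w8, w11], by norm_num,
      by push_cast; linarith only [he, hs, w5, w7], by push_cast; linarith only [ha, hs'], by norm_num, by push_cast; linarith only [w1],
      by push_cast; linarith only [w2], by push_cast; linarith only [w6], by push_cast; linarith only [w7], w5,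
      fun _ => by push_cast; linarith only [w10], by push_cast; linarith only [w11]⟩
  have g : NE 380 2360 1710 xs s T ρ :=
    ⟨hD, hs', by norm_num, Or.inr (Or.inl (by push_cast at he hs ⊢; linarith only [he, hs])), by norm_num, ha⟩
  have hcl : (0 : ℝ) < 10 / 100 := by norm_num
  have hcp : (26 / 100 : ℝ) < 1 / 2 := by norm_num
  refine ⟨fun y hA => qE dthreeE_0_e hN g hA hcl hcp (by norm_num) ha he,
    fun x y hA hx => ?_, fun x y hA hx => ?_⟩
  · have hx0 : ((1000 : ℕ) : ℝ) / 10000 ≤ x := le_trans (by norm_num) hA.x0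
    rcases le_total x (((1710 : ℕ) : ℝ) / 10000) with hc | hc
    · exact qD dthreeE_0_db hN g hA hcl hcp (by norm_num) (by norm_num) hx0 hc hx
    · exact qD dthreeE_0_da hN g hA hcl hcp (by norm_num) (by norm_num) hc (hx.le.trans he) hx
  · have hx1 : x ≤ ((2600 : ℕ) : ℝ) / 10000 := le_trans hA.x1 (by norm_num)
    rcases le_total x (((1820 : ℕ) : ℝ) / 10000) with hc | hc
    · exact qU dthreeE_0_ua hN g hA hcl hcp (by norm_num) (by norm_num) he (ha.trans hx.le) hc hx
    · exact qU dthreeE_0_ub hN g hA hcl hcp (by norm_num) (by norm_num) he hc hx1 hx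

end RQ4

namespace RC

theorem e4_one : RowE
    ⟨2160 / 10000, 2751 / 10000, -(1150 / 10000), -(380 / 10000), 1965 / 10000, 2153 / 10000, 220 / 10000, 500 / 10000, 4738 / 10000, 4380 / 10000, 848 / 10000, 1403 / 10000, 0, 1⟩
    4 (16 / 100) (36 / 100) := by
  intro xs s T ρ hW hD
  have h0 : ((2160 : ℕ) : ℝ) / 10000 ≤ xs := le_trans (by norm_num) hW.x0
  have h1 : xs ≤ ((2751 : ℕ) : ℝ) / 10000 := le_trans hW.x1 (by norm_num)
  have k0 : ((1965 : ℕ) : ℝ) / 10000 ≤ s := le_trans (by norm_num) hW.s0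
  have k1 : s ≤ ((2153 : ℕ) : ℝ) / 10000 := le_trans hW.s1 (by norm_num)
  exact RQ4.tone_0 hW hD h0 h1 k0 k1

theorem e4_two : RowE
    ⟨1910 / 10000, 2380 / 10000, -(560 / 10000), -(110 / 10000), 2040 / 10000, 2225 / 10000, 320 / 10000, 530 / 10000, 4490 / 10000, 4020 / 10000, 580 / 10000, 970 / 10000, 13 / 10, 398 / 1000⟩
    4 (125 / 1000) (30 / 100) := by
  intro xs s T ρ hW hD
  have h0 : ((1910 : ℕ) : ℝ) / 10000 ≤ xs := le_trans (by norm_num) hW.x0
  have h1 : xs ≤ ((2380 : ℕ) : ℝ) / 10000 := le_trans hW.x1 (by norm_num)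
  have k0 : ((2040 : ℕ) : ℝ) / 10000 ≤ s := le_trans (by norm_num) hW.s0
  have k1 : s ≤ ((2225 : ℕ) : ℝ) / 10000 := le_trans hW.s1 (by norm_num)
  exact RQ4.ttwo_0 hW hD h0 h1 k0 k1

theorem e4_three : RowE
    ⟨1880 / 10000, 2150 / 10000, -(270 / 10000), 10 / 10000, 2130 / 10000, 2340 / 10000, 380 / 10000, 550 / 10000, 4360 / 10000, 3850 / 10000, 470 / 10000, 740 / 10000, 22 / 10, 59 / 100⟩
    4 (12 / 100) (30 / 100) := by
  intro xs s T ρ hW hD
  have h0 : ((1880 : ℕ) : ℝ) / 10000 ≤ xs := le_trans (by norm_num) hW.x0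
  have h1 : xs ≤ ((2150 : ℕ) : ℝ) / 10000 := le_trans hW.x1 (by norm_num)
  have k0 : ((2130 : ℕ) : ℝ) / 10000 ≤ s := le_trans (by norm_num) hW.s0
  have k1 : s ≤ ((2340 : ℕ) : ℝ) / 10000 := le_trans hW.s1 (by norm_num)
  exact RQ4.tthree_0 hW hD h0 h1 k0 k1

theorem e4_threeE : RowE
    ⟨1710 / 10000, 1820 / 10000, -(340 / 10000), -(180 / 10000), 2200 / 10000, 2360 / 10000, 310 / 10000, 450 / 10000, 4100 / 10000, 3670 / 10000, 570 / 10000, 730 / 10000, 22 / 10, 59 / 100⟩
    4 (10 / 100) (26 / 100) := by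
  intro xs s T ρ hW hD
  have h0 : ((1710 : ℕ) : ℝ) / 10000 ≤ xs := le_trans (by norm_num) hW.x0
  have h1 : xs ≤ ((1820 : ℕ) : ℝ) / 10000 := le_trans hW.x1 (by norm_num)
  have k0 : ((2200 : ℕ) : ℝ) / 10000 ≤ s := le_trans (by norm_num) hW.s0
  have k1 : s ≤ ((2360 : ℕ) : ℝ) / 10000 := le_trans hW.s1 (by norm_num)
  exact RQ4.tthreeE_0 hW hD h0 h1 k0 k1

end RC

end Pool.Agent.Work.MP_b30479_gt.G2
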