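import Pool.Agent.Work.MP_b30479_gt.G2.RR4F

/-!
# Rings at an end with the ring variable on the ramp, `b = 4`: rows rr
-/

namespace Pool.Agent.Work.MP_b30479_gt.G2

open Real NumI

namespace RQ4

open RC RQ

theorem drr_0_e : okB 10000
    (uE 4465 3820 4852 10 22 2180 2390 1820 10 570 280 630)
    0 1580 0 0 40 1820 2170 1450 1920 1250 2500 400 650
    0x1020400810e0c3822584061024891002041900640161200f081c200803c2401e12184903020c00100003830e1c002be4096100401df200ef92c2001810200382077af8d060ef5f200c1df0384000021c91002003820e08383060438406083840808002 = true := by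
  decide +kernel

theorem drr_0_db : okB 10000
    (uD 1 4465 3820 4852 10 22 2180 1820 10 570 280 630)
    0 1580 0 0 40 1000 1820 1450 1920 1250 2500 400 650
    0x5cb92060cb800e0cb900604b890608b9406501002e5c903065c0172e0c1012850087065000228501140200a07080c38106082070208b93044c1142608080 = true := by
  decide +kernel

theorem drr_0_da : okB 10000
    (uD 0 4465 3820 4852 10 22 2180 1820 10 570 280 630)
    0 1580 0 0 40 1820 2170 1450 1920 1250 2500 400 650
    0x40b812e04a022808a022e5c014045c0902e04a02065cb8202501140400387205c0802808094041c202060ca042608002 = true := by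
  decide +kernel

theorem drr_0_ua : okB 10000
    (uU 0 4465 3820 4852 10 22 2180 2390 1820 2170 10 570 280 630)
    0 1580 0 0 40 1820 2170 1450 1920 1250 2500 400 650
    0x42e810e0c3820e0afde0241f810e08181a950054041c15da8083820386ed4044010302003820e1ee800e08382021c184040c3840808002 = true := by
  decide +kernel

theorem drr_0_ub : okB 10000
    (uU 1 4465 3820 4852 10 22 2180 2390 1820 2170 10 570 280 630)
    0 1580 0 0 40 2170 2700 1450 1920 1250 2500 400 650
    0xa0e3408014085020ed00dfbc0438d020c0870600507061c2030008387001c102 = true := by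
  decide +kernel

theorem trr_0 {xs s T ρ : ℝ} (hW : RWp.In ⟨1820 / 10000, 2170 / 10000, -(130 / 10000), 340 / 10000, 2180 / 10000, 2390 / 10000, 400 / 10000, 650 / 10000, 4465 / 10000, 3820 / 10000, 280 / 10000, 630 / 10000, 22 / 10, 59 / 100⟩ xs s T ρ)
    (hD : Dx xs (1 / 2 - s) T ρ = 2 * π * 4 * ρ)
    (ha : ((1820 : ℕ) : ℝ) / 10000 ≤ xs) (he : xs ≤ ((2170 : ℕ) : ℝ) / 10000)
    (hs : ((2180 : ℕ) : ℝ) / 10000 ≤ s) (hs' : s ≤ ((2390 : ℕ) : ℝ) / 10000) :
    RampOK1 4 xs (1 / 2 - s) T ρ (10 / 100) (27 / 100) := by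
  have hN : Nm 4465 3820 4852 10 22 570 2180 280 630 1450 1920 400 650 xs s T ρ := by
    obtain ⟨-, -, w1, w2, -, -, w5, w6, w7, w8, w9, w10, w11, w12⟩ := hW
    dsimp only at w1 w2 w6 w7 w8 w9 w10 w11 w12
    push_cast at ha he hs hs'
    exact ⟨by linarith only [ha, w5, w7], by linarith only [he, w5, w7], by push_cast; linarith only [hs], by norm_num, by push_cast; linarith only [w8],
      by norm_num, by push_cast; linarith only [w9], by norm_num, by push_cast; linarith only [he, hs', w5, w7, w11], by norm_num,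
      by push_cast; linarith only [he, hs, w5, w7], by push_cast; linarith only [ha, hs'], by norm_num, by push_cast; linarith only [w1],
      by push_cast; linarith only [w2], by push_cast; linarith only [w6], by push_cast; linarith only [w7], w5,
      fun _ => by push_cast; linarith only [w10], by push_cast; linarith only [w11]⟩
  have g : NE 10 2390 1820 xs s T ρ :=
    ⟨hD, hs', by norm_num, Or.inr (Or.inl (by push_cast at he hs ⊢; linarith only [he, hs])), by norm_num, ha⟩
  have hcl : (0 : ℝ) < 10 / 100 := by norm_num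
  have hcp : (27 / 100 : ℝ) < 1 / 2 := by norm_num
  refine ⟨fun y hA => qE drr_0_e hN g hA hcl hcp (by norm_num) ha he,
    fun x y hA hx => ?_, fun x y hA hx => ?_⟩
  · have hx0 : ((1000 : ℕ) : ℝ) / 10000 ≤ x := le_trans (by norm_num) hA.x0
    rcases le_total x (((1820 : ℕ) : ℝ) / 10000) with hc | hc
    · exact qD drr_0_db hN g hA hcl hcp (by norm_num) (by norm_num) hx0 hc hx
    · exact qD drr_0_da hN g hA hcl hcp (by norm_num) (by norm_num) hc (hx.le.trans he) hx
  · have hx1 : x ≤ ((2700 : ℕ) : ℝ) / 10000 := le_trans hA.x1 (by norm_num)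
    rcases le_total x (((2170 : ℕ) : ℝ) / 10000) with hc | hc
    · exact qU drr_0_ua hN g hA hcl hcp (by norm_num) (by norm_num) he (ha.trans hx.le) hc hx
    · exact qU drr_0_ub hN g hA hcl hcp (by norm_num) (by norm_num) he hc hx1 hx

end RQ4

namespace RC

theorem e4_rr : RowE
    ⟨1820 / 10000, 2170 / 10000, -(130 / 10000), 340 / 10000, 2180 / 10000, 2390 / 10000, 400 / 10000, 650 / 10000, 4465 / 10000, 3820 / 10000, 280 / 10000, 630 / 10000, 22 / 10, 59 / 100⟩
    4 (10 / 100) (27 / 100) := by
  intro xs s T ρ hW hD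
  have h0 : ((1820 : ℕ) : ℝ) / 10000 ≤ xs := le_trans (by norm_num) hW.x0
  have h1 : xs ≤ ((2170 : ℕ) : ℝ) / 10000 := le_trans hW.x1 (by norm_num)
  have k0 : ((2180 : ℕ) : ℝ) / 10000 ≤ s := le_trans (by norm_num) hW.s0
  have k1 : s ≤ ((2390 : ℕ) : ℝ) / 10000 := le_trans hW.s1 (by norm_num)
  exact RQ4.trr_0 hW hD h0 h1 k0 k1

end RC

end Pool.Agent.Work.MP_b30479_gt.G2
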