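import Pool.Agent.Work.MP_b30479_gt.G2.RR4P
import Pool.Agent.Work.MP_b30479_gt.G2.RR4Ce

/-!
# Rings with the ring variable on the ramp, `b = 4`, inside: rows one_a, one_b
-/

namespace Pool.Agent.Work.MP_b30479_gt.G2

open Real NumI

namespace RQ4

open RC RQ

theorem sone_a_0 {xs s T ρ : ℝ} (hW : RWp.In ⟨2250 / 10000, 2980 / 10000, -(1280 / 10000), -(380 / 10000), 1510 / 10000, 2000 / 10000, 330 / 10000, 850 / 10000, 4826 / 10000, 4150 / 10000, 960 / 10000, 1861 / 10000, 0, 1⟩ xs s T ρ)
    (ha : ((2250 : ℕ) : ℝ) / 10000 ≤ xs) (he : xs ≤ ((2615 : ℕ) : ℝ) / 10000) :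
    RampOK (65 / 100) (14 / 100) 1 4 xs (1 / 2 - s) T ρ (16 / 100) (36 / 100) := by
  have hN : Nm 4615 4150 4615 0 1 1105 1510 960 1861 300 1200 330 850 xs s T ρ := by
    obtain ⟨-, -, w1, w2, w3, w4, w5, w6, w7, w8, w9, w10, w11, w12⟩ := hW
    dsimp only at w1 w2 w3 w4 w6 w7 w8 w9 w10 w11 w12
    push_cast at ha he
    exact ⟨by linarith only [ha, w5, w7], by linarith only [he, w5, w7], by push_cast; linarith only [w3], by norm_num, by push_cast; linarith only [he, w4],
      by norm_num, by push_cast; linarith only [w9], by norm_num, by push_cast; linarith only [he, w4], by norm_num,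
      by push_cast; linarith only [he, w3], by push_cast; linarith only [ha, w4, w5, w7], by norm_num, by push_cast; linarith only [w1],
      by push_cast; linarith only [w2], by push_cast; linarith only [w6], by push_cast; linarith only [w7], w5,
      fun _ => by push_cast; linarith only [w10], by push_cast; linarith only [w11]⟩
  have hT : |T| ≤ ((1280 : ℕ) : ℝ) / 10000 := by
    have w1 := hW.t0
    have w2 := hW.t1
    dsimp only at w1 w2
    rw [abs_le]
    push_cast
    constructor <;> linarith only [w1, w2]
  have kc : kC4 10000 2250 2615 1280 465 = true := by decide +kernel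
  have ua : kU 10000 2250 48374 = true := by decide +kernel
  have hcl : (0 : ℝ) < 16 / 100 := by norm_num
  have hcp : (36 / 100 : ℝ) < 1 / 2 := by norm_num
  have h5 := hN.xs1.le
  refine ⟨fun x y hA => ?_, fun x y hA hx => ?_, fun x y hA hx => ?_⟩
  · have hx0 : ((1600 : ℕ) : ℝ) / 10000 ≤ x := le_trans (by norm_num) hA.x0
    have hx1 : x ≤ ((3600 : ℕ) : ℝ) / 10000 := le_trans hA.x1 (by norm_num)
    have x0 : 0 < x := (n0 (by decide)).trans_le hx0
    rcases le_total x (((2250 : ℕ) : ℝ) / 10000) with c0 | c0
    · have h := piP cone_a_0_pl0 hN hA hcl hcp hx0 c0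
      have g0 := gL (be := 10000) (p := 2250) (G := 48373) (by decide +kernel) x0 c0 le_rfl (by decide)
      have gm := gh_mono (x := ((2250 : ℕ) : ℝ) / 10000) (n0 (by decide)) ha h5
      unfold lin at h
      push_cast at h gm g0
      linarith only [neg_abs_le (gh x - gh xs), h, gm, g0]
    rcases le_total x (((2615 : ℕ) : ℝ) / 10000) with ce | ce
    · have h := piP cone_a_0_pm hN hA hcl hcp c0 ce
      unfold lin at h
      push_cast at h
      linarith only [abs_nonneg (gh x - gh xs), h]
    have gm := gh_mono (y := ((2615 : ℕ) : ℝ) / 10000) hN.xs0 he (nhalf (by decide))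
    have h := piP cone_a_0_pr0 hN hA hcl hcp ce hx1
    have g0 := gL (be := 10000) (p := 3600) (G := 34720) (x := ((2615 : ℕ) : ℝ) / 10000) (by decide +kernel)
      (n0 (by decide)) ce hx1 (by decide)
    unfold lin at h
    push_cast at h gm g0
    linarith only [le_abs_self (gh x - gh xs), h, gm, g0]
  · have hx0 : ((1600 : ℕ) : ℝ) / 10000 ≤ x := le_trans (by norm_num) hA.x0
    have hx1 : x ≤ ((3600 : ℕ) : ℝ) / 10000 := le_trans hA.x1 (by norm_num)
    have gm := gh_mono ((n0 (by decide)).trans_le hx0) hx.le h5
    have ga := gU ua (by decide) le_rfl ha h5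
    have g3 := gS4 kc (by decide) (by decide) le_rfl ha he hT
    push_cast at ga g3
    rcases le_total x (((2250 : ℕ) : ℝ) / 10000) with c0 | c0
    · have h := piD1 cone_a_0_db0 hN hA hcl hcp (by decide) hx0 c0 ha
      have g0 := gU (be := 10000) (p := 1600) (G := 65212) (by decide +kernel) (by decide) hx0 c0
        (nhalf (by decide))
      push_cast at h g0
      unfold lin at h
      push_cast at h
      exact dn_fin5 h gm (by linarith only [he, ga, g0]) (by linarith only [g3, g0])
    have h := piD0 cone_a_0_da hN hA hcl hcp (by decide) c0 (hx.le.trans he) hx.le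
    have g1 := gU ua (by decide) c0 hx.le h5
    have g4 := gS4 kc (by decide) (by decide) c0 hx.le he hT
    unfold lin at h
    push_cast at h g1 g4
    exact dn_fin5 h gm (by linarith only [he, g1]) (by linarith only [g4])
  · have hx0 : ((1600 : ℕ) : ℝ) / 10000 ≤ x := le_trans (by norm_num) hA.x0
    have hx1 : x ≤ ((3600 : ℕ) : ℝ) / 10000 := le_trans hA.x1 (by norm_num)
    have gm := gh_mono hN.xs0 hx.le (hx1.trans (nhalf (by decide)))
    rcases le_total x (((2615 : ℕ) : ℝ) / 10000) with ce | ce
    · have h := piU0 cone_a_0_ua hN hA hcl hcp (ha.trans hx.le) ce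
      have g1 := gU ua (by decide) ha hx.le (hx1.trans (nhalf (by decide)))
      have g3 := gS4 kc (by decide) (by decide) ha hx.le ce hT
      unfold lin at h
      push_cast at h g1 g3
      exact up_fin5 h gm (by linarith only [ha, g1]) (by linarith only [g3])
    have ga := gU (y := ((2615 : ℕ) : ℝ) / 10000) ua (by decide) ha he (nhalf (by decide))
    have g3 := gS4 kc (by decide) (by decide) ha he le_rfl hT
    push_cast at ga g3
    rcases le_total x (((3000 : ℕ) : ℝ) / 10000) with d0 | d0
    · have h := piU1 cone_a_0_ub0 hN hA hcl hcp ce d0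
      have g0 := gU (be := 10000) (p := 2615) (G := 42908) (by decide +kernel) (by decide) le_rfl ce
        (hx1.trans (nhalf (by decide)))
      unfold lin at h
      push_cast at h g0
      exact up_fin5 h gm (by linarith only [ha, ga, g0]) (by linarith only [g3, g0])
    have h := piU1 cone_a_0_ub1 hN hA hcl hcp d0 hx1
    have g0 := gU (be := 10000) (p := 3000) (G := 38833) (by decide +kernel) (by decide) le_rfl d0
      (hx1.trans (nhalf (by decide)))
    have k1 := gU (be := 10000) (p := 2615) (G := 42908) (y := ((3000 : ℕ) : ℝ) / 10000) (by decide +kernel)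
      (by decide) le_rfl (nle (by decide)) (nhalf (by decide))
    unfold lin at h
    push_cast at h g0 k1
    exact up_fin5 h gm (by linarith only [ha, ga, g0, k1]) (by linarith only [g3, g0, k1])

theorem sone_a_1 {xs s T ρ : ℝ} (hW : RWp.In ⟨2250 / 10000, 2980 / 10000, -(1280 / 10000), -(380 / 10000), 1510 / 10000, 2000 / 10000, 330 / 10000, 850 / 10000, 4826 / 10000, 4150 / 10000, 960 / 10000, 1861 / 10000, 0, 1⟩ xs s T ρ)
    (ha : ((2615 : ℕ) : ℝ) / 10000 ≤ xs) (he : xs ≤ ((2980 : ℕ) : ℝ) / 10000) :
    RampOK (65 / 100) (14 / 100) 1 4 xs (1 / 2 - s) T ρ (16 / 100) (36 / 100) := by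
  have hN : Nm 4826 4150 4826 0 1 1470 1510 960 1861 300 1200 330 850 xs s T ρ := by
    obtain ⟨-, -, w1, w2, w3, w4, w5, w6, w7, w8, w9, w10, w11, w12⟩ := hW
    dsimp only at w1 w2 w3 w4 w6 w7 w8 w9 w10 w11 w12
    push_cast at ha he
    exact ⟨by linarith only [ha, w5, w7], by linarith only [he, w5, w7], by push_cast; linarith only [w3], by norm_num, by push_cast; linarith only [w8],
      by norm_num, by push_cast; linarith only [w9], by norm_num, by push_cast; linarith only [w8], by norm_num,
      by push_cast; linarith only [he, w3], by push_cast; linarith only [ha, w4, w5, w7], by norm_num, by push_cast; linarith only [w1],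
      by push_cast; linarith only [w2], by push_cast; linarith only [w6], by push_cast; linarith only [w7], w5,
      fun _ => by push_cast; linarith only [w10], by push_cast; linarith only [w11]⟩
  have hT : |T| ≤ ((1280 : ℕ) : ℝ) / 10000 := by
    have w1 := hW.t0
    have w2 := hW.t1
    dsimp only at w1 w2
    rw [abs_le]
    push_cast
    constructor <;> linarith only [w1, w2]
  have kc : kC4 10000 2615 2980 1280 1375 = true := by decide +kernel
  have ua : kU 10000 2615 42908 = true := by decide +kernel
  have hcl : (0 : ℝ) < 16 / 100 := by norm_num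
  have hcp : (36 / 100 : ℝ) < 1 / 2 := by norm_num
  have h5 := hN.xs1.le
  refine ⟨fun x y hA => ?_, fun x y hA hx => ?_, fun x y hA hx => ?_⟩
  · have hx0 : ((1600 : ℕ) : ℝ) / 10000 ≤ x := le_trans (by norm_num) hA.x0
    have hx1 : x ≤ ((3600 : ℕ) : ℝ) / 10000 := le_trans hA.x1 (by norm_num)
    have x0 : 0 < x := (n0 (by decide)).trans_le hx0
    rcases le_total x (((2615 : ℕ) : ℝ) / 10000) with c0 | c0
    · have h := piP cone_a_1_pl0 hN hA hcl hcp hx0 c0
      have g0 := gL (be := 10000) (p := 2615) (G := 42907) (by decide +kernel) x0 c0 le_rfl (by decide)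
      have gm := gh_mono (x := ((2615 : ℕ) : ℝ) / 10000) (n0 (by decide)) ha h5
      unfold lin at h
      push_cast at h gm g0
      linarith only [neg_abs_le (gh x - gh xs), h, gm, g0]
    rcases le_total x (((2980 : ℕ) : ℝ) / 10000) with ce | ce
    · have h := piP cone_a_1_pm hN hA hcl hcp c0 ce
      unfold lin at h
      push_cast at h
      linarith only [abs_nonneg (gh x - gh xs), h]
    have gm := gh_mono (y := ((2980 : ℕ) : ℝ) / 10000) hN.xs0 he (nhalf (by decide))
    have h := piP cone_a_1_pr0 hN hA hcl hcp ce hx1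
    have g0 := gL (be := 10000) (p := 3600) (G := 34720) (x := ((2980 : ℕ) : ℝ) / 10000) (by decide +kernel)
      (n0 (by decide)) ce hx1 (by decide)
    unfold lin at h
    push_cast at h gm g0
    linarith only [le_abs_self (gh x - gh xs), h, gm, g0]
  · have hx0 : ((1600 : ℕ) : ℝ) / 10000 ≤ x := le_trans (by norm_num) hA.x0
    have hx1 : x ≤ ((3600 : ℕ) : ℝ) / 10000 := le_trans hA.x1 (by norm_num)
    have gm := gh_mono ((n0 (by decide)).trans_le hx0) hx.le h5
    have ga := gU ua (by decide) le_rfl ha h5
    have g3 := gS4 kc (by decide) (by decide) le_rfl ha he hT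
    push_cast at ga g3
    rcases le_total x (((2615 : ℕ) : ℝ) / 10000) with c0 | c0
    · have h := piD1 cone_a_1_db0 hN hA hcl hcp (by decide) hx0 c0 ha
      have g0 := gU (be := 10000) (p := 1600) (G := 65212) (by decide +kernel) (by decide) hx0 c0
        (nhalf (by decide))
      push_cast at h g0
      unfold lin at h
      push_cast at h
      exact dn_fin5 h gm (by linarith only [he, ga, g0]) (by linarith only [g3, g0])
    have h := piD0 cone_a_1_da hN hA hcl hcp (by decide) c0 (hx.le.trans he) hx.le
    have g1 := gU ua (by decide) c0 hx.le h5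
    have g4 := gS4 kc (by decide) (by decide) c0 hx.le he hT
    unfold lin at h
    push_cast at h g1 g4
    exact dn_fin5 h gm (by linarith only [he, g1]) (by linarith only [g4])
  · have hx0 : ((1600 : ℕ) : ℝ) / 10000 ≤ x := le_trans (by norm_num) hA.x0
    have hx1 : x ≤ ((3600 : ℕ) : ℝ) / 10000 := le_trans hA.x1 (by norm_num)
    have gm := gh_mono hN.xs0 hx.le (hx1.trans (nhalf (by decide)))
    rcases le_total x (((2980 : ℕ) : ℝ) / 10000) with ce | ce
    · have h := piU0 cone_a_1_ua hN hA hcl hcp (ha.trans hx.le) ce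
      have g1 := gU ua (by decide) ha hx.le (hx1.trans (nhalf (by decide)))
      have g3 := gS4 kc (by decide) (by decide) ha hx.le ce hT
      unfold lin at h
      push_cast at h g1 g3
      exact up_fin5 h gm (by linarith only [ha, g1]) (by linarith only [g3])
    have ga := gU (y := ((2980 : ℕ) : ℝ) / 10000) ua (by decide) ha he (nhalf (by decide))
    have g3 := gS4 kc (by decide) (by decide) ha he le_rfl hT
    push_cast at ga g3
    rcases le_total x (((3300 : ℕ) : ℝ) / 10000) with d0 | d0
    · have h := piU1 cone_a_1_ub0 hN hA hcl hcp ce d0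
      have g0 := gU (be := 10000) (p := 2980) (G := 39012) (by decide +kernel) (by decide) le_rfl ce
        (hx1.trans (nhalf (by decide)))
      unfold lin at h
      push_cast at h g0
      exact up_fin5 h gm (by linarith only [ha, ga, g0]) (by linarith only [g3, g0])
    have h := piU1 cone_a_1_ub1 hN hA hcl hcp d0 hx1
    have g0 := gU (be := 10000) (p := 3300) (G := 36499) (by decide +kernel) (by decide) le_rfl d0
      (hx1.trans (nhalf (by decide)))
    have k1 := gU (be := 10000) (p := 2980) (G := 39012) (y := ((3300 : ℕ) : ℝ) / 10000) (by decide +kernel)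
      (by decide) le_rfl (nle (by decide)) (nhalf (by decide))
    unfold lin at h
    push_cast at h g0 k1
    exact up_fin5 h gm (by linarith only [ha, ga, g0, k1]) (by linarith only [g3, g0, k1])

theorem sone_b_0 {xs s T ρ : ℝ} (hW : RWp.In ⟨2250 / 10000, 2980 / 10000, -(1280 / 10000), -(380 / 10000), 2000 / 10000, 2004 / 10000, 330 / 10000, 850 / 10000, 4826 / 10000, 4150 / 10000, 960 / 10000, 1861 / 10000, 0, 1⟩ xs s T ρ)
    (ha : ((2250 : ℕ) : ℝ) / 10000 ≤ xs) (he : xs ≤ ((2538 : ℕ) : ℝ) / 10000) :
    RampOK (65 / 100) (14 / 100) (11 / 10) 4 xs (1 / 2 - s) T ρ (16 / 100) (36 / 100) := by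
  have hN : Nm 4542 4150 4542 0 1 538 2000 960 1861 300 1200 330 850 xs s T ρ := by
    obtain ⟨-, -, w1, w2, w3, w4, w5, w6, w7, w8, w9, w10, w11, w12⟩ := hW
    dsimp only at w1 w2 w3 w4 w6 w7 w8 w9 w10 w11 w12
    push_cast at ha he
    exact ⟨by linarith only [ha, w5, w7], by linarith only [he, w5, w7], by push_cast; linarith only [w3], by norm_num, by push_cast; linarith only [he, w4],
      by norm_num, by push_cast; linarith only [w9], by norm_num, by push_cast; linarith only [he, w4], by norm_num,
      by push_cast; linarith only [he, w3], by push_cast; linarith only [ha, w4, w5, w7], by norm_num, by push_cast; linarith only [w1],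
      by push_cast; linarith only [w2], by push_cast; linarith only [w6], by push_cast; linarith only [w7], w5,
      fun _ => by push_cast; linarith only [w10], by push_cast; linarith only [w11]⟩
  have hT : |T| ≤ ((1280 : ℕ) : ℝ) / 10000 := by
    have w1 := hW.t0
    have w2 := hW.t1
    dsimp only at w1 w2
    rw [abs_le]
    push_cast
    constructor <;> linarith only [w1, w2]
  have kc : kC4 11000 2250 2538 1280 1621 = true := by decide +kernel
  have ua : kU 11000 2250 53211 = true := by decide +kernel
  have hcl : (0 : ℝ) < 16 / 100 := by norm_num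
  have hcp : (36 / 100 : ℝ) < 1 / 2 := by norm_num
  have h5 := hN.xs1.le
  refine ⟨fun x y hA => ?_, fun x y hA hx => ?_, fun x y hA hx => ?_⟩
  · have hx0 : ((1600 : ℕ) : ℝ) / 10000 ≤ x := le_trans (by norm_num) hA.x0
    have hx1 : x ≤ ((3600 : ℕ) : ℝ) / 10000 := le_trans hA.x1 (by norm_num)
    have x0 : 0 < x := (n0 (by decide)).trans_le hx0
    rcases le_total x (((2250 : ℕ) : ℝ) / 10000) with c0 | c0
    · have h := piP cone_b_0_pl0 hN hA hcl hcp hx0 c0
      have g0 := gL (be := 11000) (p := 2250) (G := 53210) (by decide +kernel) x0 c0 le_rfl (by decide)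
      have gm := gh_mono (x := ((2250 : ℕ) : ℝ) / 10000) (n0 (by decide)) ha h5
      unfold lin at h
      push_cast at h gm g0
      linarith only [neg_abs_le (gh x - gh xs), h, gm, g0]
    rcases le_total x (((2538 : ℕ) : ℝ) / 10000) with ce | ce
    · have h := piP cone_b_0_pm hN hA hcl hcp c0 ce
      unfold lin at h
      push_cast at h
      linarith only [abs_nonneg (gh x - gh xs), h]
    have gm := gh_mono (y := ((2538 : ℕ) : ℝ) / 10000) hN.xs0 he (nhalf (by decide))
    have h := piP cone_b_0_pr0 hN hA hcl hcp ce hx1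
    have g0 := gL (be := 11000) (p := 3600) (G := 38192) (x := ((2538 : ℕ) : ℝ) / 10000) (by decide +kernel)
      (n0 (by decide)) ce hx1 (by decide)
    unfold lin at h
    push_cast at h gm g0
    linarith only [le_abs_self (gh x - gh xs), h, gm, g0]
  · have hx0 : ((1600 : ℕ) : ℝ) / 10000 ≤ x := le_trans (by norm_num) hA.x0
    have hx1 : x ≤ ((3600 : ℕ) : ℝ) / 10000 := le_trans hA.x1 (by norm_num)
    have gm := gh_mono ((n0 (by decide)).trans_le hx0) hx.le h5
    have ga := gU ua (by decide) le_rfl ha h5
    have g3 := gS4 kc (by decide) (by decide) le_rfl ha he hT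
    push_cast at ga g3
    rcases le_total x (((2250 : ℕ) : ℝ) / 10000) with c0 | c0
    · have h := piD1 cone_b_0_db0 hN hA hcl hcp (by decide) hx0 c0 ha
      have g0 := gU (be := 11000) (p := 1600) (G := 71733) (by decide +kernel) (by decide) hx0 c0
        (nhalf (by decide))
      push_cast at h g0
      unfold lin at h
      push_cast at h
      exact dn_fin5 h gm (by linarith only [he, ga, g0]) (by linarith only [g3, g0])
    have h := piD0 cone_b_0_da hN hA hcl hcp (by decide) c0 (hx.le.trans he) hx.le
    have g1 := gU ua (by decide) c0 hx.le h5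
    have g4 := gS4 kc (by decide) (by decide) c0 hx.le he hT
    unfold lin at h
    push_cast at h g1 g4
    exact dn_fin5 h gm (by linarith only [he, g1]) (by linarith only [g4])
  · have hx0 : ((1600 : ℕ) : ℝ) / 10000 ≤ x := le_trans (by norm_num) hA.x0
    have hx1 : x ≤ ((3600 : ℕ) : ℝ) / 10000 := le_trans hA.x1 (by norm_num)
    have gm := gh_mono hN.xs0 hx.le (hx1.trans (nhalf (by decide)))
    rcases le_total x (((2538 : ℕ) : ℝ) / 10000) with ce | ce
    · have h := piU0 cone_b_0_ua hN hA hcl hcp (ha.trans hx.le) ce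
      have g1 := gU ua (by decide) ha hx.le (hx1.trans (nhalf (by decide)))
      have g3 := gS4 kc (by decide) (by decide) ha hx.le ce hT
      unfold lin at h
      push_cast at h g1 g3
      exact up_fin5 h gm (by linarith only [ha, g1]) (by linarith only [g3])
    have ga := gU (y := ((2538 : ℕ) : ℝ) / 10000) ua (by decide) ha he (nhalf (by decide))
    have g3 := gS4 kc (by decide) (by decide) ha he le_rfl hT
    push_cast at ga g3
    rcases le_total x (((2700 : ℕ) : ℝ) / 10000) with d0 | d0
    · have h := piU1 cone_b_0_ub0 hN hA hcl hcp ce d0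
      have g0 := gU (be := 11000) (p := 2538) (G := 48299) (by decide +kernel) (by decide) le_rfl ce
        (hx1.trans (nhalf (by decide)))
      unfold lin at h
      push_cast at h g0
      exact up_fin5 h gm (by linarith only [ha, ga, g0]) (by linarith only [g3, g0])
    rcases le_total x (((3000 : ℕ) : ℝ) / 10000) with d1 | d1
    · have h := piU1 cone_b_0_ub1 hN hA hcl hcp d0 d1
      have g0 := gU (be := 11000) (p := 2700) (G := 46070) (by decide +kernel) (by decide) le_rfl d0
        (hx1.trans (nhalf (by decide)))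
      have k1 := gU (be := 11000) (p := 2538) (G := 48299) (y := ((2700 : ℕ) : ℝ) / 10000) (by decide +kernel)
        (by decide) le_rfl (nle (by decide)) (nhalf (by decide))
      unfold lin at h
      push_cast at h g0 k1
      exact up_fin5 h gm (by linarith only [ha, ga, g0, k1]) (by linarith only [g3, g0, k1])
    rcases le_total x (((3300 : ℕ) : ℝ) / 10000) with d2 | d2
    · have h := piU1 cone_b_0_ub2 hN hA hcl hcp d1 d2
      have g0 := gU (be := 11000) (p := 3000) (G := 42716) (by decide +kernel) (by decide) le_rfl d1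
        (hx1.trans (nhalf (by decide)))
      have k1 := gU (be := 11000) (p := 2538) (G := 48299) (y := ((2700 : ℕ) : ℝ) / 10000) (by decide +kernel)
        (by decide) le_rfl (nle (by decide)) (nhalf (by decide))
      have k2 := gU (be := 11000) (p := 2700) (G := 46070) (y := ((3000 : ℕ) : ℝ) / 10000) (by decide +kernel)
        (by decide) le_rfl (nle (by decide)) (nhalf (by decide))
      unfold lin at h
      push_cast at h g0 k1 k2
      exact up_fin5 h gm (by linarith only [ha, ga, g0, k1, k2]) (by linarith only [g3, g0, k1, k2])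
    have h := piU1 cone_b_0_ub3 hN hA hcl hcp d2 hx1
    have g0 := gU (be := 11000) (p := 3300) (G := 40149) (by decide +kernel) (by decide) le_rfl d2
      (hx1.trans (nhalf (by decide)))
    have k1 := gU (be := 11000) (p := 2538) (G := 48299) (y := ((2700 : ℕ) : ℝ) / 10000) (by decide +kernel)
      (by decide) le_rfl (nle (by decide)) (nhalf (by decide))
    have k2 := gU (be := 11000) (p := 2700) (G := 46070) (y := ((3000 : ℕ) : ℝ) / 10000) (by decide +kernel)
      (by decide) le_rfl (nle (by decide)) (nhalf (by decide))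
    have k3 := gU (be := 11000) (p := 3000) (G := 42716) (y := ((3300 : ℕ) : ℝ) / 10000) (by decide +kernel)
      (by decide) le_rfl (nle (by decide)) (nhalf (by decide))
    unfold lin at h
    push_cast at h g0 k1 k2 k3
    exact up_fin5 h gm (by linarith only [ha, ga, g0, k1, k2, k3]) (by linarith only [g3, g0, k1, k2, k3])

theorem sone_b_1 {xs s T ρ : ℝ} (hW : RWp.In ⟨2250 / 10000, 2980 / 10000, -(1280 / 10000), -(380 / 10000), 2000 / 10000, 2004 / 10000, 330 / 10000, 850 / 10000, 4826 / 10000, 4150 / 10000, 960 / 10000, 1861 / 10000, 0, 1⟩ xs s T ρ)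
    (ha : ((2538 : ℕ) : ℝ) / 10000 ≤ xs) (he : xs ≤ ((2826 : ℕ) : ℝ) / 10000) :
    RampOK (65 / 100) (14 / 100) (11 / 10) 4 xs (1 / 2 - s) T ρ (16 / 100) (36 / 100) := by
  have hN : Nm 4826 4150 4826 0 1 826 2000 960 1861 300 1200 388 850 xs s T ρ := by
    obtain ⟨-, -, w1, w2, w3, w4, w5, w6, w7, w8, w9, w10, w11, w12⟩ := hW
    dsimp only at w1 w2 w3 w4 w6 w7 w8 w9 w10 w11 w12
    push_cast at ha he
    exact ⟨by linarith only [ha, w5, w7], by linarith only [he, w5, w7], by push_cast; linarith only [w3], by norm_num, by push_cast; linarith only [w8],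
      by norm_num, by push_cast; linarith only [w9], by norm_num, by push_cast; linarith only [w8], by norm_num,
      by push_cast; linarith only [he, w3], by push_cast; linarith only [ha, w4, w5, w7], by norm_num, by push_cast; linarith only [w1],
      by push_cast; linarith only [w2], by push_cast; linarith only [ha, w3, w9], by push_cast; linarith only [w7], w5,
      fun _ => by push_cast; linarith only [w10], by push_cast; linarith only [w11]⟩
  have hT : |T| ≤ ((1280 : ℕ) : ℝ) / 10000 := by
    have w1 := hW.t0
    have w2 := hW.t1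
    dsimp only at w1 w2
    rw [abs_le]
    push_cast
    constructor <;> linarith only [w1, w2]
  have kc : kC4 11000 2538 2826 1280 2144 = true := by decide +kernel
  have ua : kU 11000 2538 48299 = true := by decide +kernel
  have hcl : (0 : ℝ) < 16 / 100 := by norm_num
  have hcp : (36 / 100 : ℝ) < 1 / 2 := by norm_num
  have h5 := hN.xs1.le
  refine ⟨fun x y hA => ?_, fun x y hA hx => ?_, fun x y hA hx => ?_⟩
  · have hx0 : ((1600 : ℕ) : ℝ) / 10000 ≤ x := le_trans (by norm_num) hA.x0
    have hx1 : x ≤ ((3600 : ℕ) : ℝ) / 10000 := le_trans hA.x1 (by norm_num)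
    have x0 : 0 < x := (n0 (by decide)).trans_le hx0
    rcases le_total x (((2538 : ℕ) : ℝ) / 10000) with c0 | c0
    · have h := piP cone_b_1_pl0 hN hA hcl hcp hx0 c0
      have g0 := gL (be := 11000) (p := 2538) (G := 48298) (by decide +kernel) x0 c0 le_rfl (by decide)
      have gm := gh_mono (x := ((2538 : ℕ) : ℝ) / 10000) (n0 (by decide)) ha h5
      unfold lin at h
      push_cast at h gm g0
      linarith only [neg_abs_le (gh x - gh xs), h, gm, g0]
    rcases le_total x (((2826 : ℕ) : ℝ) / 10000) with ce | ce
    · have h := piP cone_b_1_pm hN hA hcl hcp c0 ce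
      unfold lin at h
      push_cast at h
      linarith only [abs_nonneg (gh x - gh xs), h]
    have gm := gh_mono (y := ((2826 : ℕ) : ℝ) / 10000) hN.xs0 he (nhalf (by decide))
    have h := piP cone_b_1_pr0 hN hA hcl hcp ce hx1
    have g0 := gL (be := 11000) (p := 3600) (G := 38192) (x := ((2826 : ℕ) : ℝ) / 10000) (by decide +kernel)
      (n0 (by decide)) ce hx1 (by decide)
    unfold lin at h
    push_cast at h gm g0
    linarith only [le_abs_self (gh x - gh xs), h, gm, g0]
  · have hx0 : ((1600 : ℕ) : ℝ) / 10000 ≤ x := le_trans (by norm_num) hA.x0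
    have hx1 : x ≤ ((3600 : ℕ) : ℝ) / 10000 := le_trans hA.x1 (by norm_num)
    have gm := gh_mono ((n0 (by decide)).trans_le hx0) hx.le h5
    have ga := gU ua (by decide) le_rfl ha h5
    have g3 := gS4 kc (by decide) (by decide) le_rfl ha he hT
    push_cast at ga g3
    rcases le_total x (((1750 : ℕ) : ℝ) / 10000) with c0 | c0
    · have h := piD1 cone_b_1_db0 hN hA hcl hcp (by decide) hx0 c0 ha
      have g0 := gU (be := 11000) (p := 1600) (G := 71733) (by decide +kernel) (by decide) hx0 c0
        (nhalf (by decide))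
      have k1 := gU (be := 11000) (p := 1750) (G := 66139) (y := ((2050 : ℕ) : ℝ) / 10000) (by decide +kernel)
        (by decide) le_rfl (nle (by decide)) (nhalf (by decide))
      have k2 := gU (be := 11000) (p := 2050) (G := 57556) (y := ((2538 : ℕ) : ℝ) / 10000) (by decide +kernel)
        (by decide) le_rfl (nle (by decide)) (nhalf (by decide))
      push_cast at h g0 k1 k2
      unfold lin at h
      push_cast at h
      exact dn_fin5 h gm (by linarith only [he, ga, g0, k1, k2]) (by linarith only [g3, g0, k1, k2])
    rcases le_total x (((2050 : ℕ) : ℝ) / 10000) with c1 | c1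
    · have h := piD1 cone_b_1_db1 hN hA hcl hcp (by decide) c0 c1 ha
      have g0 := gU (be := 11000) (p := 1750) (G := 66139) (by decide +kernel) (by decide) c0 c1
        (nhalf (by decide))
      have k1 := gU (be := 11000) (p := 2050) (G := 57556) (y := ((2538 : ℕ) : ℝ) / 10000) (by decide +kernel)
        (by decide) le_rfl (nle (by decide)) (nhalf (by decide))
      push_cast at h g0 k1
      unfold lin at h
      push_cast at h
      exact dn_fin5 h gm (by linarith only [he, ga, g0, k1]) (by linarith only [g3, g0, k1])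
    rcases le_total x (((2538 : ℕ) : ℝ) / 10000) with c2 | c2
    · have h := piD1 cone_b_1_db2 hN hA hcl hcp (by decide) c1 c2 ha
      have g0 := gU (be := 11000) (p := 2050) (G := 57556) (by decide +kernel) (by decide) c1 c2
        (nhalf (by decide))
      push_cast at h g0
      unfold lin at h
      push_cast at h
      exact dn_fin5 h gm (by linarith only [he, ga, g0]) (by linarith only [g3, g0])
    have h := piD0 cone_b_1_da hN hA hcl hcp (by decide) c2 (hx.le.trans he) hx.le
    have g1 := gU ua (by decide) c2 hx.le h5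
    have g4 := gS4 kc (by decide) (by decide) c2 hx.le he hT
    unfold lin at h
    push_cast at h g1 g4
    exact dn_fin5 h gm (by linarith only [he, g1]) (by linarith only [g4])
  · have hx0 : ((1600 : ℕ) : ℝ) / 10000 ≤ x := le_trans (by norm_num) hA.x0
    have hx1 : x ≤ ((3600 : ℕ) : ℝ) / 10000 := le_trans hA.x1 (by norm_num)
    have gm := gh_mono hN.xs0 hx.le (hx1.trans (nhalf (by decide)))
    rcases le_total x (((2826 : ℕ) : ℝ) / 10000) with ce | ce
    · have h := piU0 cone_b_1_ua hN hA hcl hcp (ha.trans hx.le) ce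
      have g1 := gU ua (by decide) ha hx.le (hx1.trans (nhalf (by decide)))
      have g3 := gS4 kc (by decide) (by decide) ha hx.le ce hT
      unfold lin at h
      push_cast at h g1 g3
      exact up_fin5 h gm (by linarith only [ha, g1]) (by linarith only [g3])
    have ga := gU (y := ((2826 : ℕ) : ℝ) / 10000) ua (by decide) ha he (nhalf (by decide))
    have g3 := gS4 kc (by decide) (by decide) ha he le_rfl hT
    push_cast at ga g3
    rcases le_total x (((3000 : ℕ) : ℝ) / 10000) with d0 | d0
    · have h := piU1 cone_b_1_ub0 hN hA hcl hcp ce d0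
      have g0 := gU (be := 11000) (p := 2826) (G := 44551) (by decide +kernel) (by decide) le_rfl ce
        (hx1.trans (nhalf (by decide)))
      unfold lin at h
      push_cast at h g0
      exact up_fin5 h gm (by linarith only [ha, ga, g0]) (by linarith only [g3, g0])
    rcases le_total x (((3300 : ℕ) : ℝ) / 10000) with d1 | d1
    · have h := piU1 cone_b_1_ub1 hN hA hcl hcp d0 d1
      have g0 := gU (be := 11000) (p := 3000) (G := 42716) (by decide +kernel) (by decide) le_rfl d0
        (hx1.trans (nhalf (by decide)))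
      have k1 := gU (be := 11000) (p := 2826) (G := 44551) (y := ((3000 : ℕ) : ℝ) / 10000) (by decide +kernel)
        (by decide) le_rfl (nle (by decide)) (nhalf (by decide))
      unfold lin at h
      push_cast at h g0 k1
      exact up_fin5 h gm (by linarith only [ha, ga, g0, k1]) (by linarith only [g3, g0, k1])
    have h := piU1 cone_b_1_ub2 hN hA hcl hcp d1 hx1
    have g0 := gU (be := 11000) (p := 3300) (G := 40149) (by decide +kernel) (by decide) le_rfl d1
      (hx1.trans (nhalf (by decide)))
    have k1 := gU (be := 11000) (p := 2826) (G := 44551) (y := ((3000 : ℕ) : ℝ) / 10000) (by decide +kernel)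
      (by decide) le_rfl (nle (by decide)) (nhalf (by decide))
    have k2 := gU (be := 11000) (p := 3000) (G := 42716) (y := ((3300 : ℕ) : ℝ) / 10000) (by decide +kernel)
      (by decide) le_rfl (nle (by decide)) (nhalf (by decide))
    unfold lin at h
    push_cast at h g0 k1 k2
    exact up_fin5 h gm (by linarith only [ha, ga, g0, k1, k2]) (by linarith only [g3, g0, k1, k2])

end RQ4

namespace RC

theorem i4_one_a : RowI
    ⟨2250 / 10000, 2980 / 10000, -(1280 / 10000), -(380 / 10000), 1510 / 10000, 2000 / 10000, 330 / 10000, 850 / 10000, 4826 / 10000, 4150 / 10000, 960 / 10000, 1861 / 10000, 0, 1⟩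
    4 (65 / 100) (14 / 100) 1 (16 / 100) (36 / 100) := by
  intro xs s T ρ hW
  have h0 : ((2250 : ℕ) : ℝ) / 10000 ≤ xs := le_trans (by norm_num) hW.x0
  have h1 : xs ≤ ((2980 : ℕ) : ℝ) / 10000 := by
    obtain ⟨-, w0, -, -, w3, -, -, -, w7, w8, w9, -, -, -⟩ := hW
    dsimp only at w0 w3 w7 w8 w9
    push_cast
    linarith only [w0]
  rcases le_total xs (((2615 : ℕ) : ℝ) / 10000) with k0 | k0
  · exact RQ4.sone_a_0 hW h0 k0
  exact RQ4.sone_a_1 hW k0 h1

theorem i4_one_b : RowI
    ⟨2250 / 10000, 2980 / 10000, -(1280 / 10000), -(380 / 10000), 2000 / 10000, 2004 / 10000, 330 / 10000, 850 / 10000, 4826 / 10000, 4150 / 10000, 960 / 10000, 1861 / 10000, 0, 1⟩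
    4 (65 / 100) (14 / 100) (11 / 10) (16 / 100) (36 / 100) := by
  intro xs s T ρ hW
  have h0 : ((2250 : ℕ) : ℝ) / 10000 ≤ xs := le_trans (by norm_num) hW.x0
  have h1 : xs ≤ ((2826 : ℕ) : ℝ) / 10000 := by
    obtain ⟨-, w0, -, -, w3, -, -, -, w7, w8, w9, -, -, -⟩ := hW
    dsimp only at w0 w3 w7 w8 w9
    push_cast
    linarith only [w3, w8]
  rcases le_total xs (((2538 : ℕ) : ℝ) / 10000) with k0 | k0
  · exact RQ4.sone_b_0 hW h0 k0
  exact RQ4.sone_b_1 hW k0 h1

end RC

end Pool.Agent.Work.MP_b30479_gt.G2
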