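import Pool.Agent.Work.MP_b30479_gt.G2.RR4P
import Pool.Agent.Work.MP_b30479_gt.G2.RR4Cb

/-!
# Rings with the ring variable on the ramp, `b = 4`, inside: rows rr_c
-/

namespace Pool.Agent.Work.MP_b30479_gt.G2

open Real NumI

namespace RQ4

open RC RQ

theorem srr_c_0 {xs s T ρ : ℝ} (hW : RWp.In ⟨1870 / 10000, 2370 / 10000, -(200 / 10000), 385 / 10000, 2130 / 10000, 2170 / 10000, 490 / 10000, 1045 / 10000, 4380 / 10000, 3560 / 10000, 370 / 10000, 980 / 10000, 22 / 10, 59 / 100⟩ xs s T ρ)
    (ha : ((1870 : ℕ) : ℝ) / 10000 ≤ xs) (he : xs ≤ ((2060 : ℕ) : ℝ) / 10000) :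
    RampOK (65 / 100) (8 / 100) (11 / 10) 4 xs (1 / 2 - s) T ρ (10 / 100) (27 / 100) := by
  have hN : Nm 4230 3560 4742 10 22 300 2130 370 980 1380 1965 490 1045 xs s T ρ := by
    obtain ⟨-, -, w1, w2, w3, w4, w5, w6, w7, w8, w9, w10, w11, w12⟩ := hW
    dsimp only at w1 w2 w3 w4 w6 w7 w8 w9 w10 w11 w12
    push_cast at ha he
    exact ⟨by linarith only [ha, w5, w7], by linarith only [he, w5, w7], by push_cast; linarith only [w3], by norm_num, by push_cast; linarith only [he, w4],
      by norm_num, by push_cast; linarith only [w9], by norm_num, by push_cast; linarith only [he, w4, w5, w7, w11], by norm_num,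
      by push_cast; linarith only [he, w3, w5, w7], by push_cast; linarith only [ha, w4], by norm_num, by push_cast; linarith only [w1],
      by push_cast; linarith only [w2], by push_cast; linarith only [w6], by push_cast; linarith only [w7], w5,
      fun _ => by push_cast; linarith only [w10], by push_cast; linarith only [w11]⟩
  have hT : |T| ≤ ((385 : ℕ) : ℝ) / 10000 := by
    have w1 := hW.t0
    have w2 := hW.t1
    dsimp only at w1 w2
    rw [abs_le]
    push_cast
    constructor <;> linarith only [w1, w2]
  have kc : kC4 11000 1870 2060 385 0 = true := by decide +kernel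
  have ua : kU 11000 1870 62349 = true := by decide +kernel
  have hcl : (0 : ℝ) < 10 / 100 := by norm_num
  have hcp : (27 / 100 : ℝ) < 1 / 2 := by norm_num
  have h5 := hN.xs1.le
  refine ⟨fun x y hA => ?_, fun x y hA hx => ?_, fun x y hA hx => ?_⟩
  · have hx0 : ((1000 : ℕ) : ℝ) / 10000 ≤ x := le_trans (by norm_num) hA.x0
    have hx1 : x ≤ ((2700 : ℕ) : ℝ) / 10000 := le_trans hA.x1 (by norm_num)
    have x0 : 0 < x := (n0 (by decide)).trans_le hx0
    rcases le_total x (((1300 : ℕ) : ℝ) / 10000) with c0 | c0
    · have h := piP crr_c_0_pl0 hN hA hcl hcp hx0 c0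
      have g0 := gL (be := 11000) (p := 1300) (G := 87014) (by decide +kernel) x0 c0 le_rfl (by decide)
      have g1 := gL (be := 11000) (p := 1700) (G := 67887) (x := ((1300 : ℕ) : ℝ) / 10000) (by decide +kernel)
        (n0 (by decide)) (nle (by decide)) le_rfl (by decide)
      have g2 := gL (be := 11000) (p := 1870) (G := 62348) (x := ((1700 : ℕ) : ℝ) / 10000) (by decide +kernel)
        (n0 (by decide)) (nle (by decide)) le_rfl (by decide)
      have gm := gh_mono (x := ((1870 : ℕ) : ℝ) / 10000) (n0 (by decide)) ha h5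
      unfold lin at h
      push_cast at h gm g0 g1 g2
      linarith only [neg_abs_le (gh x - gh xs), h, gm, g0, g1, g2]
    rcases le_total x (((1700 : ℕ) : ℝ) / 10000) with c1 | c1
    · have h := piP crr_c_0_pl1 hN hA hcl hcp c0 c1
      have g0 := gL (be := 11000) (p := 1700) (G := 67887) (by decide +kernel) x0 c1 le_rfl (by decide)
      have g1 := gL (be := 11000) (p := 1870) (G := 62348) (x := ((1700 : ℕ) : ℝ) / 10000) (by decide +kernel)
        (n0 (by decide)) (nle (by decide)) le_rfl (by decide)
      have gm := gh_mono (x := ((1870 : ℕ) : ℝ) / 10000) (n0 (by decide)) ha h5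
      unfold lin at h
      push_cast at h gm g0 g1
      linarith only [neg_abs_le (gh x - gh xs), h, gm, g0, g1]
    rcases le_total x (((1870 : ℕ) : ℝ) / 10000) with c2 | c2
    · have h := piP crr_c_0_pl2 hN hA hcl hcp c1 c2
      have g0 := gL (be := 11000) (p := 1870) (G := 62348) (by decide +kernel) x0 c2 le_rfl (by decide)
      have gm := gh_mono (x := ((1870 : ℕ) : ℝ) / 10000) (n0 (by decide)) ha h5
      unfold lin at h
      push_cast at h gm g0
      linarith only [neg_abs_le (gh x - gh xs), h, gm, g0]
    rcases le_total x (((2060 : ℕ) : ℝ) / 10000) with ce | ce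
    · have h := piP crr_c_0_pm hN hA hcl hcp c2 ce
      unfold lin at h
      push_cast at h
      linarith only [abs_nonneg (gh x - gh xs), h]
    have gm := gh_mono (y := ((2060 : ℕ) : ℝ) / 10000) hN.xs0 he (nhalf (by decide))
    have h := piP crr_c_0_pr0 hN hA hcl hcp ce hx1
    have g0 := gL (be := 11000) (p := 2700) (G := 46069) (x := ((2060 : ℕ) : ℝ) / 10000) (by decide +kernel)
      (n0 (by decide)) ce hx1 (by decide)
    unfold lin at h
    push_cast at h gm g0
    linarith only [le_abs_self (gh x - gh xs), h, gm, g0]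
  · have hx0 : ((1000 : ℕ) : ℝ) / 10000 ≤ x := le_trans (by norm_num) hA.x0
    have hx1 : x ≤ ((2700 : ℕ) : ℝ) / 10000 := le_trans hA.x1 (by norm_num)
    have gm := gh_mono ((n0 (by decide)).trans_le hx0) hx.le h5
    have ga := gU ua (by decide) le_rfl ha h5
    have g3 := gS4 kc (by decide) (by decide) le_rfl ha he hT
    push_cast at ga g3
    rcases le_total x (((1300 : ℕ) : ℝ) / 10000) with c0 | c0
    · have h := piD1 crr_c_0_db0 hN hA hcl hcp (by decide) hx0 c0 ha
      have g0 := gU (be := 11000) (p := 1000) (G := 111831) (by decide +kernel) (by decide) hx0 c0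
        (nhalf (by decide))
      have k1 := gU (be := 11000) (p := 1300) (G := 87015) (y := ((1700 : ℕ) : ℝ) / 10000) (by decide +kernel)
        (by decide) le_rfl (nle (by decide)) (nhalf (by decide))
      have k2 := gU (be := 11000) (p := 1700) (G := 67888) (y := ((1870 : ℕ) : ℝ) / 10000) (by decide +kernel)
        (by decide) le_rfl (nle (by decide)) (nhalf (by decide))
      push_cast at h g0 k1 k2
      unfold lin at h
      push_cast at h
      exact dn_fin5 h gm (by linarith only [he, ga, g0, k1, k2]) (by linarith only [g3, g0, k1, k2])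
    rcases le_total x (((1700 : ℕ) : ℝ) / 10000) with c1 | c1
    · have h := piD1 crr_c_0_db1 hN hA hcl hcp (by decide) c0 c1 ha
      have g0 := gU (be := 11000) (p := 1300) (G := 87015) (by decide +kernel) (by decide) c0 c1
        (nhalf (by decide))
      have k1 := gU (be := 11000) (p := 1700) (G := 67888) (y := ((1870 : ℕ) : ℝ) / 10000) (by decide +kernel)
        (by decide) le_rfl (nle (by decide)) (nhalf (by decide))
      push_cast at h g0 k1
      unfold lin at h
      push_cast at h
      exact dn_fin5 h gm (by linarith only [he, ga, g0, k1]) (by linarith only [g3, g0, k1])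
    rcases le_total x (((1870 : ℕ) : ℝ) / 10000) with c2 | c2
    · have h := piD1 crr_c_0_db2 hN hA hcl hcp (by decide) c1 c2 ha
      have g0 := gU (be := 11000) (p := 1700) (G := 67888) (by decide +kernel) (by decide) c1 c2
        (nhalf (by decide))
      push_cast at h g0
      unfold lin at h
      push_cast at h
      exact dn_fin5 h gm (by linarith only [he, ga, g0]) (by linarith only [g3, g0])
    have h := piD0 crr_c_0_da hN hA hcl hcp (by decide) c2 (hx.le.trans he) hx.le
    have g1 := gU ua (by decide) c2 hx.le h5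
    have g4 := gS4 kc (by decide) (by decide) c2 hx.le he hT
    unfold lin at h
    push_cast at h g1 g4
    exact dn_fin5 h gm (by linarith only [he, g1]) (by linarith only [g4])
  · have hx0 : ((1000 : ℕ) : ℝ) / 10000 ≤ x := le_trans (by norm_num) hA.x0
    have hx1 : x ≤ ((2700 : ℕ) : ℝ) / 10000 := le_trans hA.x1 (by norm_num)
    have gm := gh_mono hN.xs0 hx.le (hx1.trans (nhalf (by decide)))
    rcases le_total x (((2060 : ℕ) : ℝ) / 10000) with ce | ce
    · have h := piU0 crr_c_0_ua hN hA hcl hcp (ha.trans hx.le) ce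
      have g1 := gU ua (by decide) ha hx.le (hx1.trans (nhalf (by decide)))
      have g3 := gS4 kc (by decide) (by decide) ha hx.le ce hT
      unfold lin at h
      push_cast at h g1 g3
      exact up_fin5 h gm (by linarith only [ha, g1]) (by linarith only [g3])
    have ga := gU (y := ((2060 : ℕ) : ℝ) / 10000) ua (by decide) ha he (nhalf (by decide))
    have g3 := gS4 kc (by decide) (by decide) ha he le_rfl hT
    push_cast at ga g3
    have h := piU1 crr_c_0_ub0 hN hA hcl hcp ce hx1
    have g0 := gU (be := 11000) (p := 2060) (G := 57317) (by decide +kernel) (by decide) le_rfl ce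
      (hx1.trans (nhalf (by decide)))
    unfold lin at h
    push_cast at h g0
    exact up_fin5 h gm (by linarith only [ha, ga, g0]) (by linarith only [g3, g0])

theorem srr_c_1 {xs s T ρ : ℝ} (hW : RWp.In ⟨1870 / 10000, 2370 / 10000, -(200 / 10000), 385 / 10000, 2130 / 10000, 2170 / 10000, 490 / 10000, 1045 / 10000, 4380 / 10000, 3560 / 10000, 370 / 10000, 980 / 10000, 22 / 10, 59 / 100⟩ xs s T ρ)
    (ha : ((2060 : ℕ) : ℝ) / 10000 ≤ xs) (he : xs ≤ ((2250 : ℕ) : ℝ) / 10000) :
    RampOK (65 / 100) (8 / 100) (11 / 10) 4 xs (1 / 2 - s) T ρ (10 / 100) (27 / 100) := by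
  have hN : Nm 4380 3560 4932 10 22 120 2130 370 980 1380 1965 630 1045 xs s T ρ := by
    obtain ⟨-, -, w1, w2, w3, w4, w5, w6, w7, w8, w9, w10, w11, w12⟩ := hW
    dsimp only at w1 w2 w3 w4 w6 w7 w8 w9 w10 w11 w12
    push_cast at ha he
    exact ⟨by linarith only [ha, w5, w7], by linarith only [he, w5, w7], by push_cast; linarith only [w3], by norm_num, by push_cast; linarith only [w8],
      by norm_num, by push_cast; linarith only [w9], by norm_num, by push_cast; linarith only [he, w4, w5, w7, w11], by norm_num,
      by push_cast; linarith only [he, w3], by push_cast; linarith only [ha, w4, w5, w7], by norm_num, by push_cast; linarith only [w1],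
      by push_cast; linarith only [w2], by push_cast; linarith only [ha, w3, w9], by push_cast; linarith only [w7], w5,
      fun _ => by push_cast; linarith only [w10], by push_cast; linarith only [w11]⟩
  have hT : |T| ≤ ((385 : ℕ) : ℝ) / 10000 := by
    have w1 := hW.t0
    have w2 := hW.t1
    dsimp only at w1 w2
    rw [abs_le]
    push_cast
    constructor <;> linarith only [w1, w2]
  have kc : kC4 11000 2060 2250 385 0 = true := by decide +kernel
  have ua : kU 11000 2060 57317 = true := by decide +kernel
  have hcl : (0 : ℝ) < 10 / 100 := by norm_num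
  have hcp : (27 / 100 : ℝ) < 1 / 2 := by norm_num
  have h5 := hN.xs1.le
  refine ⟨fun x y hA => ?_, fun x y hA hx => ?_, fun x y hA hx => ?_⟩
  · have hx0 : ((1000 : ℕ) : ℝ) / 10000 ≤ x := le_trans (by norm_num) hA.x0
    have hx1 : x ≤ ((2700 : ℕ) : ℝ) / 10000 := le_trans hA.x1 (by norm_num)
    have x0 : 0 < x := (n0 (by decide)).trans_le hx0
    rcases le_total x (((1500 : ℕ) : ℝ) / 10000) with c0 | c0
    · have h := piP crr_c_1_pl0 hN hA hcl hcp hx0 c0
      have g0 := gL (be := 11000) (p := 1500) (G := 76119) (by decide +kernel) x0 c0 le_rfl (by decide)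
      have g1 := gL (be := 11000) (p := 2060) (G := 57316) (x := ((1500 : ℕ) : ℝ) / 10000) (by decide +kernel)
        (n0 (by decide)) (nle (by decide)) le_rfl (by decide)
      have gm := gh_mono (x := ((2060 : ℕ) : ℝ) / 10000) (n0 (by decide)) ha h5
      unfold lin at h
      push_cast at h gm g0 g1
      linarith only [neg_abs_le (gh x - gh xs), h, gm, g0, g1]
    rcases le_total x (((2060 : ℕ) : ℝ) / 10000) with c1 | c1
    · have h := piP crr_c_1_pl1 hN hA hcl hcp c0 c1
      have g0 := gL (be := 11000) (p := 2060) (G := 57316) (by decide +kernel) x0 c1 le_rfl (by decide)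
      have gm := gh_mono (x := ((2060 : ℕ) : ℝ) / 10000) (n0 (by decide)) ha h5
      unfold lin at h
      push_cast at h gm g0
      linarith only [neg_abs_le (gh x - gh xs), h, gm, g0]
    rcases le_total x (((2250 : ℕ) : ℝ) / 10000) with ce | ce
    · have h := piP crr_c_1_pm hN hA hcl hcp c1 ce
      unfold lin at h
      push_cast at h
      linarith only [abs_nonneg (gh x - gh xs), h]
    have gm := gh_mono (y := ((2250 : ℕ) : ℝ) / 10000) hN.xs0 he (nhalf (by decide))
    have h := piP crr_c_1_pr0 hN hA hcl hcp ce hx1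
    have g0 := gL (be := 11000) (p := 2700) (G := 46069) (x := ((2250 : ℕ) : ℝ) / 10000) (by decide +kernel)
      (n0 (by decide)) ce hx1 (by decide)
    unfold lin at h
    push_cast at h gm g0
    linarith only [le_abs_self (gh x - gh xs), h, gm, g0]
  · have hx0 : ((1000 : ℕ) : ℝ) / 10000 ≤ x := le_trans (by norm_num) hA.x0
    have hx1 : x ≤ ((2700 : ℕ) : ℝ) / 10000 := le_trans hA.x1 (by norm_num)
    have gm := gh_mono ((n0 (by decide)).trans_le hx0) hx.le h5
    have ga := gU ua (by decide) le_rfl ha h5
    have g3 := gS4 kc (by decide) (by decide) le_rfl ha he hT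
    push_cast at ga g3
    rcases le_total x (((1300 : ℕ) : ℝ) / 10000) with c0 | c0
    · have h := piD1 crr_c_1_db0 hN hA hcl hcp (by decide) hx0 c0 ha
      have g0 := gU (be := 11000) (p := 1000) (G := 111831) (by decide +kernel) (by decide) hx0 c0
        (nhalf (by decide))
      have k1 := gU (be := 11000) (p := 1300) (G := 87015) (y := ((1700 : ℕ) : ℝ) / 10000) (by decide +kernel)
        (by decide) le_rfl (nle (by decide)) (nhalf (by decide))
      have k2 := gU (be := 11000) (p := 1700) (G := 67888) (y := ((2060 : ℕ) : ℝ) / 10000) (by decide +kernel)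
        (by decide) le_rfl (nle (by decide)) (nhalf (by decide))
      push_cast at h g0 k1 k2
      unfold lin at h
      push_cast at h
      exact dn_fin5 h gm (by linarith only [he, ga, g0, k1, k2]) (by linarith only [g3, g0, k1, k2])
    rcases le_total x (((1700 : ℕ) : ℝ) / 10000) with c1 | c1
    · have h := piD1 crr_c_1_db1 hN hA hcl hcp (by decide) c0 c1 ha
      have g0 := gU (be := 11000) (p := 1300) (G := 87015) (by decide +kernel) (by decide) c0 c1
        (nhalf (by decide))
      have k1 := gU (be := 11000) (p := 1700) (G := 67888) (y := ((2060 : ℕ) : ℝ) / 10000) (by decide +kernel)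
        (by decide) le_rfl (nle (by decide)) (nhalf (by decide))
      push_cast at h g0 k1
      unfold lin at h
      push_cast at h
      exact dn_fin5 h gm (by linarith only [he, ga, g0, k1]) (by linarith only [g3, g0, k1])
    rcases le_total x (((2060 : ℕ) : ℝ) / 10000) with c2 | c2
    · have h := piD1 crr_c_1_db2 hN hA hcl hcp (by decide) c1 c2 ha
      have g0 := gU (be := 11000) (p := 1700) (G := 67888) (by decide +kernel) (by decide) c1 c2
        (nhalf (by decide))
      push_cast at h g0
      unfold lin at h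
      push_cast at h
      exact dn_fin5 h gm (by linarith only [he, ga, g0]) (by linarith only [g3, g0])
    have h := piD0 crr_c_1_da hN hA hcl hcp (by decide) c2 (hx.le.trans he) hx.le
    have g1 := gU ua (by decide) c2 hx.le h5
    have g4 := gS4 kc (by decide) (by decide) c2 hx.le he hT
    unfold lin at h
    push_cast at h g1 g4
    exact dn_fin5 h gm (by linarith only [he, g1]) (by linarith only [g4])
  · have hx0 : ((1000 : ℕ) : ℝ) / 10000 ≤ x := le_trans (by norm_num) hA.x0
    have hx1 : x ≤ ((2700 : ℕ) : ℝ) / 10000 := le_trans hA.x1 (by norm_num)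
    have gm := gh_mono hN.xs0 hx.le (hx1.trans (nhalf (by decide)))
    rcases le_total x (((2250 : ℕ) : ℝ) / 10000) with ce | ce
    · have h := piU0 crr_c_1_ua hN hA hcl hcp (ha.trans hx.le) ce
      have g1 := gU ua (by decide) ha hx.le (hx1.trans (nhalf (by decide)))
      have g3 := gS4 kc (by decide) (by decide) ha hx.le ce hT
      unfold lin at h
      push_cast at h g1 g3
      exact up_fin5 h gm (by linarith only [ha, g1]) (by linarith only [g3])
    have ga := gU (y := ((2250 : ℕ) : ℝ) / 10000) ua (by decide) ha he (nhalf (by decide))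
    have g3 := gS4 kc (by decide) (by decide) ha he le_rfl hT
    push_cast at ga g3
    have h := piU1 crr_c_1_ub0 hN hA hcl hcp ce hx1
    have g0 := gU (be := 11000) (p := 2250) (G := 53211) (by decide +kernel) (by decide) le_rfl ce
      (hx1.trans (nhalf (by decide)))
    unfold lin at h
    push_cast at h g0
    exact up_fin5 h gm (by linarith only [ha, ga, g0]) (by linarith only [g3, g0])

end RQ4

namespace RC

theorem i4_rr_c : RowI
    ⟨1870 / 10000, 2370 / 10000, -(200 / 10000), 385 / 10000, 2130 / 10000, 2170 / 10000, 490 / 10000, 1045 / 10000, 4380 / 10000, 3560 / 10000, 370 / 10000, 980 / 10000, 22 / 10, 59 / 100⟩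
    4 (65 / 100) (8 / 100) (11 / 10) (10 / 100) (27 / 100) := by
  intro xs s T ρ hW
  have h0 : ((1870 : ℕ) : ℝ) / 10000 ≤ xs := le_trans (by norm_num) hW.x0
  have h1 : xs ≤ ((2250 : ℕ) : ℝ) / 10000 := by
    obtain ⟨-, w0, -, -, w3, -, -, -, w7, w8, w9, -, -, -⟩ := hW
    dsimp only at w0 w3 w7 w8 w9
    push_cast
    linarith only [w3, w8]
  rcases le_total xs (((2060 : ℕ) : ℝ) / 10000) with k0 | k0
  · exact RQ4.srr_c_0 hW h0 k0
  exact RQ4.srr_c_1 hW k0 h1

end RC

end Pool.Agent.Work.MP_b30479_gt.G2
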