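import Pool.Agent.Work.MP_b30479_gt.G2.RR4P
import Pool.Agent.Work.MP_b30479_gt.G2.RR4Cf

/-!
# Rings with the ring variable on the ramp, `b = 4`, inside: rows three_a, three_b, three_c, threeE_a, threeE_b, threeE_c
-/

namespace Pool.Agent.Work.MP_b30479_gt.G2

open Real NumI

namespace RQ4

open RC RQ

theorem sthree_a_0 {xs s T ρ : ℝ} (hW : RWp.In ⟨1950 / 10000, 2340 / 10000, -(360 / 10000), 10 / 10000, 1650 / 10000, 2000 / 10000, 470 / 10000, 930 / 10000, 4330 / 10000, 3560 / 10000, 600 / 10000, 1100 / 10000, 22 / 10, 59 / 100⟩ xs s T ρ)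
    (ha : ((1950 : ℕ) : ℝ) / 10000 ≤ xs) (he : xs ≤ ((2340 : ℕ) : ℝ) / 10000) :
    RampOK (65 / 100) (14 / 100) 1 4 xs (1 / 2 - s) T ρ (12 / 100) (30 / 100) := by
  have hN : Nm 4330 3560 5022 10 22 690 1650 600 1100 1220 1590 470 930 xs s T ρ := by
    obtain ⟨-, -, w1, w2, w3, w4, w5, w6, w7, w8, w9, w10, w11, w12⟩ := hW
    dsimp only at w1 w2 w3 w4 w6 w7 w8 w9 w10 w11 w12
    push_cast at ha he
    exact ⟨by linarith only [ha, w5, w7], by linarith only [he, w5, w7], by push_cast; linarith only [w3], by norm_num, by push_cast; linarith only [w8],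
      by norm_num, by push_cast; linarith only [w9], by norm_num, by push_cast; linarith only [he, w4, w5, w7, w11], by norm_num,
      by push_cast; linarith only [he, w3], by push_cast; linarith only [ha, w4, w5, w7], by norm_num, by push_cast; linarith only [w1],
      by push_cast; linarith only [w2], by push_cast; linarith only [w6], by push_cast; linarith only [w7], w5,
      fun _ => by push_cast; linarith only [w10], by push_cast; linarith only [w11]⟩
  have hT : |T| ≤ ((360 : ℕ) : ℝ) / 10000 := by
    have w1 := hW.t0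
    have w2 := hW.t1
    dsimp only at w1 w2
    rw [abs_le]
    push_cast
    constructor <;> linarith only [w1, w2]
  have kc : kC4 10000 1950 2340 360 0 = true := by decide +kernel
  have ua : kU 10000 1950 54636 = true := by decide +kernel
  have hcl : (0 : ℝ) < 12 / 100 := by norm_num
  have hcp : (30 / 100 : ℝ) < 1 / 2 := by norm_num
  have h5 := hN.xs1.le
  refine ⟨fun x y hA => ?_, fun x y hA hx => ?_, fun x y hA hx => ?_⟩
  · have hx0 : ((1200 : ℕ) : ℝ) / 10000 ≤ x := le_trans (by norm_num) hA.x0
    have hx1 : x ≤ ((3000 : ℕ) : ℝ) / 10000 := le_trans hA.x1 (by norm_num)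
    have x0 : 0 < x := (n0 (by decide)).trans_le hx0
    rcases le_total x (((1500 : ℕ) : ℝ) / 10000) with c0 | c0
    · have h := piP cthree_a_0_pl0 hN hA hcl hcp hx0 c0
      have g0 := gL (be := 10000) (p := 1500) (G := 69199) (by decide +kernel) x0 c0 le_rfl (by decide)
      have g1 := gL (be := 10000) (p := 1950) (G := 54635) (x := ((1500 : ℕ) : ℝ) / 10000) (by decide +kernel)
        (n0 (by decide)) (nle (by decide)) le_rfl (by decide)
      have gm := gh_mono (x := ((1950 : ℕ) : ℝ) / 10000) (n0 (by decide)) ha h5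
      unfold lin at h
      push_cast at h gm g0 g1
      linarith only [neg_abs_le (gh x - gh xs), h, gm, g0, g1]
    rcases le_total x (((1950 : ℕ) : ℝ) / 10000) with c1 | c1
    · have h := piP cthree_a_0_pl1 hN hA hcl hcp c0 c1
      have g0 := gL (be := 10000) (p := 1950) (G := 54635) (by decide +kernel) x0 c1 le_rfl (by decide)
      have gm := gh_mono (x := ((1950 : ℕ) : ℝ) / 10000) (n0 (by decide)) ha h5
      unfold lin at h
      push_cast at h gm g0
      linarith only [neg_abs_le (gh x - gh xs), h, gm, g0]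
    rcases le_total x (((2340 : ℕ) : ℝ) / 10000) with ce | ce
    · have h := piP cthree_a_0_pm hN hA hcl hcp c1 ce
      unfold lin at h
      push_cast at h
      linarith only [abs_nonneg (gh x - gh xs), h]
    have gm := gh_mono (y := ((2340 : ℕ) : ℝ) / 10000) hN.xs0 he (nhalf (by decide))
    have h := piP cthree_a_0_pr0 hN hA hcl hcp ce hx1
    have g0 := gL (be := 10000) (p := 3000) (G := 38832) (x := ((2340 : ℕ) : ℝ) / 10000) (by decide +kernel)
      (n0 (by decide)) ce hx1 (by decide)
    unfold lin at h
    push_cast at h gm g0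
    linarith only [le_abs_self (gh x - gh xs), h, gm, g0]
  · have hx0 : ((1200 : ℕ) : ℝ) / 10000 ≤ x := le_trans (by norm_num) hA.x0
    have hx1 : x ≤ ((3000 : ℕ) : ℝ) / 10000 := le_trans hA.x1 (by norm_num)
    have gm := gh_mono ((n0 (by decide)).trans_le hx0) hx.le h5
    have ga := gU ua (by decide) le_rfl ha h5
    have g3 := gS4 kc (by decide) (by decide) le_rfl ha he hT
    push_cast at ga g3
    rcases le_total x (((1500 : ℕ) : ℝ) / 10000) with c0 | c0
    · have h := piD1 cthree_a_0_db0 hN hA hcl hcp (by decide) hx0 c0 ha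
      have g0 := gU (be := 10000) (p := 1200) (G := 85341) (by decide +kernel) (by decide) hx0 c0
        (nhalf (by decide))
      have k1 := gU (be := 10000) (p := 1500) (G := 69200) (y := ((1950 : ℕ) : ℝ) / 10000) (by decide +kernel)
        (by decide) le_rfl (nle (by decide)) (nhalf (by decide))
      push_cast at h g0 k1
      unfold lin at h
      push_cast at h
      exact dn_fin5 h gm (by linarith only [he, ga, g0, k1]) (by linarith only [g3, g0, k1])
    rcases le_total x (((1950 : ℕ) : ℝ) / 10000) with c1 | c1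
    · have h := piD1 cthree_a_0_db1 hN hA hcl hcp (by decide) c0 c1 ha
      have g0 := gU (be := 10000) (p := 1500) (G := 69200) (by decide +kernel) (by decide) c0 c1
        (nhalf (by decide))
      push_cast at h g0
      unfold lin at h
      push_cast at h
      exact dn_fin5 h gm (by linarith only [he, ga, g0]) (by linarith only [g3, g0])
    have h := piD0 cthree_a_0_da hN hA hcl hcp (by decide) c1 (hx.le.trans he) hx.le
    have g1 := gU ua (by decide) c1 hx.le h5
    have g4 := gS4 kc (by decide) (by decide) c1 hx.le he hT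
    unfold lin at h
    push_cast at h g1 g4
    exact dn_fin5 h gm (by linarith only [he, g1]) (by linarith only [g4])
  · have hx0 : ((1200 : ℕ) : ℝ) / 10000 ≤ x := le_trans (by norm_num) hA.x0
    have hx1 : x ≤ ((3000 : ℕ) : ℝ) / 10000 := le_trans hA.x1 (by norm_num)
    have gm := gh_mono hN.xs0 hx.le (hx1.trans (nhalf (by decide)))
    rcases le_total x (((2340 : ℕ) : ℝ) / 10000) with ce | ce
    · have h := piU0 cthree_a_0_ua hN hA hcl hcp (ha.trans hx.le) ce
      have g1 := gU ua (by decide) ha hx.le (hx1.trans (nhalf (by decide)))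
      have g3 := gS4 kc (by decide) (by decide) ha hx.le ce hT
      unfold lin at h
      push_cast at h g1 g3
      exact up_fin5 h gm (by linarith only [ha, g1]) (by linarith only [g3])
    have ga := gU (y := ((2340 : ℕ) : ℝ) / 10000) ua (by decide) ha he (nhalf (by decide))
    have g3 := gS4 kc (by decide) (by decide) ha he le_rfl hT
    push_cast at ga g3
    have h := piU1 cthree_a_0_ub0 hN hA hcl hcp ce hx1
    have g0 := gU (be := 10000) (p := 2340) (G := 46842) (by decide +kernel) (by decide) le_rfl ce
      (hx1.trans (nhalf (by decide)))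
    unfold lin at h
    push_cast at h g0
    exact up_fin5 h gm (by linarith only [ha, ga, g0]) (by linarith only [g3, g0])

theorem sthree_b_0 {xs s T ρ : ℝ} (hW : RWp.In ⟨1950 / 10000, 2340 / 10000, -(360 / 10000), 10 / 10000, 2000 / 10000, 2130 / 10000, 470 / 10000, 930 / 10000, 4330 / 10000, 3560 / 10000, 600 / 10000, 1100 / 10000, 22 / 10, 59 / 100⟩ xs s T ρ)
    (ha : ((1950 : ℕ) : ℝ) / 10000 ≤ xs) (he : xs ≤ ((2330 : ℕ) : ℝ) / 10000) :
    RampOK (65 / 100) (14 / 100) (11 / 10) 4 xs (1 / 2 - s) T ρ (12 / 100) (30 / 100) := by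
  have hN : Nm 4330 3560 5012 10 22 330 2000 600 1100 1220 1590 470 930 xs s T ρ := by
    obtain ⟨-, -, w1, w2, w3, w4, w5, w6, w7, w8, w9, w10, w11, w12⟩ := hW
    dsimp only at w1 w2 w3 w4 w6 w7 w8 w9 w10 w11 w12
    push_cast at ha he
    exact ⟨by linarith only [ha, w5, w7], by linarith only [he, w5, w7], by push_cast; linarith only [w3], by norm_num, by push_cast; linarith only [w8],
      by norm_num, by push_cast; linarith only [w9], by norm_num, by push_cast; linarith only [he, w4, w5, w7, w11], by norm_num,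
      by push_cast; linarith only [he, w3], by push_cast; linarith only [ha, w4, w5, w7], by norm_num, by push_cast; linarith only [w1],
      by push_cast; linarith only [w2], by push_cast; linarith only [w6], by push_cast; linarith only [w7], w5,
      fun _ => by push_cast; linarith only [w10], by push_cast; linarith only [w11]⟩
  have hT : |T| ≤ ((360 : ℕ) : ℝ) / 10000 := by
    have w1 := hW.t0
    have w2 := hW.t1
    dsimp only at w1 w2
    rw [abs_le]
    push_cast
    constructor <;> linarith only [w1, w2]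
  have kc : kC4 11000 1950 2330 360 0 = true := by decide +kernel
  have ua : kU 11000 1950 60100 = true := by decide +kernel
  have hcl : (0 : ℝ) < 12 / 100 := by norm_num
  have hcp : (30 / 100 : ℝ) < 1 / 2 := by norm_num
  have h5 := hN.xs1.le
  refine ⟨fun x y hA => ?_, fun x y hA hx => ?_, fun x y hA hx => ?_⟩
  · have hx0 : ((1200 : ℕ) : ℝ) / 10000 ≤ x := le_trans (by norm_num) hA.x0
    have hx1 : x ≤ ((3000 : ℕ) : ℝ) / 10000 := le_trans hA.x1 (by norm_num)
    have x0 : 0 < x := (n0 (by decide)).trans_le hx0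
    rcases le_total x (((1950 : ℕ) : ℝ) / 10000) with c0 | c0
    · have h := piP cthree_b_0_pl0 hN hA hcl hcp hx0 c0
      have g0 := gL (be := 11000) (p := 1950) (G := 60099) (by decide +kernel) x0 c0 le_rfl (by decide)
      have gm := gh_mono (x := ((1950 : ℕ) : ℝ) / 10000) (n0 (by decide)) ha h5
      unfold lin at h
      push_cast at h gm g0
      linarith only [neg_abs_le (gh x - gh xs), h, gm, g0]
    rcases le_total x (((2330 : ℕ) : ℝ) / 10000) with ce | ce
    · have h := piP cthree_b_0_pm hN hA hcl hcp c0 ce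
      unfold lin at h
      push_cast at h
      linarith only [abs_nonneg (gh x - gh xs), h]
    have gm := gh_mono (y := ((2330 : ℕ) : ℝ) / 10000) hN.xs0 he (nhalf (by decide))
    have h := piP cthree_b_0_pr0 hN hA hcl hcp ce hx1
    have g0 := gL (be := 11000) (p := 3000) (G := 42715) (x := ((2330 : ℕ) : ℝ) / 10000) (by decide +kernel)
      (n0 (by decide)) ce hx1 (by decide)
    unfold lin at h
    push_cast at h gm g0
    linarith only [le_abs_self (gh x - gh xs), h, gm, g0]
  · have hx0 : ((1200 : ℕ) : ℝ) / 10000 ≤ x := le_trans (by norm_num) hA.x0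
    have hx1 : x ≤ ((3000 : ℕ) : ℝ) / 10000 := le_trans hA.x1 (by norm_num)
    have gm := gh_mono ((n0 (by decide)).trans_le hx0) hx.le h5
    have ga := gU ua (by decide) le_rfl ha h5
    have g3 := gS4 kc (by decide) (by decide) le_rfl ha he hT
    push_cast at ga g3
    rcases le_total x (((1500 : ℕ) : ℝ) / 10000) with c0 | c0
    · have h := piD1 cthree_b_0_db0 hN hA hcl hcp (by decide) hx0 c0 ha
      have g0 := gU (be := 11000) (p := 1200) (G := 93875) (by decide +kernel) (by decide) hx0 c0
        (nhalf (by decide))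
      have k1 := gU (be := 11000) (p := 1500) (G := 76120) (y := ((1950 : ℕ) : ℝ) / 10000) (by decide +kernel)
        (by decide) le_rfl (nle (by decide)) (nhalf (by decide))
      push_cast at h g0 k1
      unfold lin at h
      push_cast at h
      exact dn_fin5 h gm (by linarith only [he, ga, g0, k1]) (by linarith only [g3, g0, k1])
    rcases le_total x (((1950 : ℕ) : ℝ) / 10000) with c1 | c1
    · have h := piD1 cthree_b_0_db1 hN hA hcl hcp (by decide) c0 c1 ha
      have g0 := gU (be := 11000) (p := 1500) (G := 76120) (by decide +kernel) (by decide) c0 c1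
        (nhalf (by decide))
      push_cast at h g0
      unfold lin at h
      push_cast at h
      exact dn_fin5 h gm (by linarith only [he, ga, g0]) (by linarith only [g3, g0])
    have h := piD0 cthree_b_0_da hN hA hcl hcp (by decide) c1 (hx.le.trans he) hx.le
    have g1 := gU ua (by decide) c1 hx.le h5
    have g4 := gS4 kc (by decide) (by decide) c1 hx.le he hT
    unfold lin at h
    push_cast at h g1 g4
    exact dn_fin5 h gm (by linarith only [he, g1]) (by linarith only [g4])
  · have hx0 : ((1200 : ℕ) : ℝ) / 10000 ≤ x := le_trans (by norm_num) hA.x0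
    have hx1 : x ≤ ((3000 : ℕ) : ℝ) / 10000 := le_trans hA.x1 (by norm_num)
    have gm := gh_mono hN.xs0 hx.le (hx1.trans (nhalf (by decide)))
    rcases le_total x (((2330 : ℕ) : ℝ) / 10000) with ce | ce
    · have h := piU0 cthree_b_0_ua hN hA hcl hcp (ha.trans hx.le) ce
      have g1 := gU ua (by decide) ha hx.le (hx1.trans (nhalf (by decide)))
      have g3 := gS4 kc (by decide) (by decide) ha hx.le ce hT
      unfold lin at h
      push_cast at h g1 g3
      exact up_fin5 h gm (by linarith only [ha, g1]) (by linarith only [g3])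
    have ga := gU (y := ((2330 : ℕ) : ℝ) / 10000) ua (by decide) ha he (nhalf (by decide))
    have g3 := gS4 kc (by decide) (by decide) ha he le_rfl hT
    push_cast at ga g3
    have h := piU1 cthree_b_0_ub0 hN hA hcl hcp ce hx1
    have g0 := gU (be := 11000) (p := 2330) (G := 51706) (by decide +kernel) (by decide) le_rfl ce
      (hx1.trans (nhalf (by decide)))
    unfold lin at h
    push_cast at h g0
    exact up_fin5 h gm (by linarith only [ha, ga, g0]) (by linarith only [g3, g0])

theorem sthree_c_0 {xs s T ρ : ℝ} (hW : RWp.In ⟨1950 / 10000, 2340 / 10000, -(360 / 10000), 10 / 10000, 2130 / 10000, 2140 / 10000, 470 / 10000, 930 / 10000, 4330 / 10000, 3560 / 10000, 600 / 10000, 1100 / 10000, 22 / 10, 59 / 100⟩ xs s T ρ)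
    (ha : ((1950 : ℕ) : ℝ) / 10000 ≤ xs) (he : xs ≤ ((2200 : ℕ) : ℝ) / 10000) :
    RampOK (65 / 100) (8 / 100) (11 / 10) 4 xs (1 / 2 - s) T ρ (12 / 100) (30 / 100) := by
  have hN : Nm 4330 3560 4882 10 22 190 2130 600 1100 1220 1590 520 930 xs s T ρ := by
    obtain ⟨-, -, w1, w2, w3, w4, w5, w6, w7, w8, w9, w10, w11, w12⟩ := hW
    dsimp only at w1 w2 w3 w4 w6 w7 w8 w9 w10 w11 w12
    push_cast at ha he
    exact ⟨by linarith only [ha, w5, w7], by linarith only [he, w5, w7], by push_cast; linarith only [w3], by norm_num, by push_cast; linarith only [w8],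
      by norm_num, by push_cast; linarith only [w9], by norm_num, by push_cast; linarith only [he, w4, w5, w7, w11], by norm_num,
      by push_cast; linarith only [he, w3, w5, w7], by push_cast; linarith only [ha, w4], by norm_num, by push_cast; linarith only [w1],
      by push_cast; linarith only [w2], by push_cast; linarith only [ha, w3, w9], by push_cast; linarith only [w7], w5,
      fun _ => by push_cast; linarith only [w10], by push_cast; linarith only [w11]⟩
  have hT : |T| ≤ ((360 : ℕ) : ℝ) / 10000 := by
    have w1 := hW.t0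
    have w2 := hW.t1
    dsimp only at w1 w2
    rw [abs_le]
    push_cast
    constructor <;> linarith only [w1, w2]
  have kc : kC4 11000 1950 2200 360 0 = true := by decide +kernel
  have ua : kU 11000 1950 60100 = true := by decide +kernel
  have hcl : (0 : ℝ) < 12 / 100 := by norm_num
  have hcp : (30 / 100 : ℝ) < 1 / 2 := by norm_num
  have h5 := hN.xs1.le
  refine ⟨fun x y hA => ?_, fun x y hA hx => ?_, fun x y hA hx => ?_⟩
  · have hx0 : ((1200 : ℕ) : ℝ) / 10000 ≤ x := le_trans (by norm_num) hA.x0
    have hx1 : x ≤ ((3000 : ℕ) : ℝ) / 10000 := le_trans hA.x1 (by norm_num)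
    have x0 : 0 < x := (n0 (by decide)).trans_le hx0
    rcases le_total x (((1950 : ℕ) : ℝ) / 10000) with c0 | c0
    · have h := piP cthree_c_0_pl0 hN hA hcl hcp hx0 c0
      have g0 := gL (be := 11000) (p := 1950) (G := 60099) (by decide +kernel) x0 c0 le_rfl (by decide)
      have gm := gh_mono (x := ((1950 : ℕ) : ℝ) / 10000) (n0 (by decide)) ha h5
      unfold lin at h
      push_cast at h gm g0
      linarith only [neg_abs_le (gh x - gh xs), h, gm, g0]
    rcases le_total x (((2200 : ℕ) : ℝ) / 10000) with ce | ce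
    · have h := piP cthree_c_0_pm hN hA hcl hcp c0 ce
      unfold lin at h
      push_cast at h
      linarith only [abs_nonneg (gh x - gh xs), h]
    have gm := gh_mono (y := ((2200 : ℕ) : ℝ) / 10000) hN.xs0 he (nhalf (by decide))
    have h := piP cthree_c_0_pr0 hN hA hcl hcp ce hx1
    have g0 := gL (be := 11000) (p := 3000) (G := 42715) (x := ((2200 : ℕ) : ℝ) / 10000) (by decide +kernel)
      (n0 (by decide)) ce hx1 (by decide)
    unfold lin at h
    push_cast at h gm g0
    linarith only [le_abs_self (gh x - gh xs), h, gm, g0]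
  · have hx0 : ((1200 : ℕ) : ℝ) / 10000 ≤ x := le_trans (by norm_num) hA.x0
    have hx1 : x ≤ ((3000 : ℕ) : ℝ) / 10000 := le_trans hA.x1 (by norm_num)
    have gm := gh_mono ((n0 (by decide)).trans_le hx0) hx.le h5
    have ga := gU ua (by decide) le_rfl ha h5
    have g3 := gS4 kc (by decide) (by decide) le_rfl ha he hT
    push_cast at ga g3
    rcases le_total x (((1500 : ℕ) : ℝ) / 10000) with c0 | c0
    · have h := piD1 cthree_c_0_db0 hN hA hcl hcp (by decide) hx0 c0 ha
      have g0 := gU (be := 11000) (p := 1200) (G := 93875) (by decide +kernel) (by decide) hx0 c0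
        (nhalf (by decide))
      have k1 := gU (be := 11000) (p := 1500) (G := 76120) (y := ((1950 : ℕ) : ℝ) / 10000) (by decide +kernel)
        (by decide) le_rfl (nle (by decide)) (nhalf (by decide))
      push_cast at h g0 k1
      unfold lin at h
      push_cast at h
      exact dn_fin5 h gm (by linarith only [he, ga, g0, k1]) (by linarith only [g3, g0, k1])
    rcases le_total x (((1950 : ℕ) : ℝ) / 10000) with c1 | c1
    · have h := piD1 cthree_c_0_db1 hN hA hcl hcp (by decide) c0 c1 ha
      have g0 := gU (be := 11000) (p := 1500) (G := 76120) (by decide +kernel) (by decide) c0 c1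
        (nhalf (by decide))
      push_cast at h g0
      unfold lin at h
      push_cast at h
      exact dn_fin5 h gm (by linarith only [he, ga, g0]) (by linarith only [g3, g0])
    have h := piD0 cthree_c_0_da hN hA hcl hcp (by decide) c1 (hx.le.trans he) hx.le
    have g1 := gU ua (by decide) c1 hx.le h5
    have g4 := gS4 kc (by decide) (by decide) c1 hx.le he hT
    unfold lin at h
    push_cast at h g1 g4
    exact dn_fin5 h gm (by linarith only [he, g1]) (by linarith only [g4])
  · have hx0 : ((1200 : ℕ) : ℝ) / 10000 ≤ x := le_trans (by norm_num) hA.x0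
    have hx1 : x ≤ ((3000 : ℕ) : ℝ) / 10000 := le_trans hA.x1 (by norm_num)
    have gm := gh_mono hN.xs0 hx.le (hx1.trans (nhalf (by decide)))
    rcases le_total x (((2200 : ℕ) : ℝ) / 10000) with ce | ce
    · have h := piU0 cthree_c_0_ua hN hA hcl hcp (ha.trans hx.le) ce
      have g1 := gU ua (by decide) ha hx.le (hx1.trans (nhalf (by decide)))
      have g3 := gS4 kc (by decide) (by decide) ha hx.le ce hT
      unfold lin at h
      push_cast at h g1 g3
      exact up_fin5 h gm (by linarith only [ha, g1]) (by linarith only [g3])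
    have ga := gU (y := ((2200 : ℕ) : ℝ) / 10000) ua (by decide) ha he (nhalf (by decide))
    have g3 := gS4 kc (by decide) (by decide) ha he le_rfl hT
    push_cast at ga g3
    have h := piU1 cthree_c_0_ub0 hN hA hcl hcp ce hx1
    have g0 := gU (be := 11000) (p := 2200) (G := 54215) (by decide +kernel) (by decide) le_rfl ce
      (hx1.trans (nhalf (by decide)))
    unfold lin at h
    push_cast at h g0
    exact up_fin5 h gm (by linarith only [ha, ga, g0]) (by linarith only [g3, g0])

theorem sthreeE_a_0 {xs s T ρ : ℝ} (hW : RWp.In ⟨1750 / 10000, 1950 / 10000, -(420 / 10000), -(180 / 10000), 1690 / 10000, 2000 / 10000, 430 / 10000, 870 / 10000, 4060 / 10000, 3320 / 10000, 740 / 10000, 1140 / 10000, 22 / 10, 59 / 100⟩ xs s T ρ)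
    (ha : ((1750 : ℕ) : ℝ) / 10000 ≤ xs) (he : xs ≤ ((1950 : ℕ) : ℝ) / 10000) :
    RampOK (65 / 100) (14 / 100) 1 4 xs (1 / 2 - s) T ρ (10 / 100) (26 / 100) := by
  have hN : Nm 3950 3320 4632 10 22 260 1690 740 1140 1160 1400 430 870 xs s T ρ := by
    obtain ⟨-, -, w1, w2, w3, w4, w5, w6, w7, w8, w9, w10, w11, w12⟩ := hW
    dsimp only at w1 w2 w3 w4 w6 w7 w8 w9 w10 w11 w12
    push_cast at ha he
    exact ⟨by linarith only [ha, w5, w7], by linarith only [he, w5, w7], by push_cast; linarith only [w3], by norm_num, by push_cast; linarith only [he, w4],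
      by norm_num, by push_cast; linarith only [w9], by norm_num, by push_cast; linarith only [he, w4, w5, w7, w11], by norm_num,
      by push_cast; linarith only [he, w3], by push_cast; linarith only [ha, w4, w5, w7], by norm_num, by push_cast; linarith only [w1],
      by push_cast; linarith only [w2], by push_cast; linarith only [w6], by push_cast; linarith only [w7], w5,
      fun _ => by push_cast; linarith only [w10], by push_cast; linarith only [w11]⟩
  have hT : |T| ≤ ((420 : ℕ) : ℝ) / 10000 := by
    have w1 := hW.t0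
    have w2 := hW.t1
    dsimp only at w1 w2
    rw [abs_le]
    push_cast
    constructor <;> linarith only [w1, w2]
  have kc : kC4 10000 1750 1950 420 0 = true := by decide +kernel
  have ua : kU 10000 1750 60127 = true := by decide +kernel
  have hcl : (0 : ℝ) < 10 / 100 := by norm_num
  have hcp : (26 / 100 : ℝ) < 1 / 2 := by norm_num
  have h5 := hN.xs1.le
  refine ⟨fun x y hA => ?_, fun x y hA hx => ?_, fun x y hA hx => ?_⟩
  · have hx0 : ((1000 : ℕ) : ℝ) / 10000 ≤ x := le_trans (by norm_num) hA.x0
    have hx1 : x ≤ ((2600 : ℕ) : ℝ) / 10000 := le_trans hA.x1 (by norm_num)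
    have x0 : 0 < x := (n0 (by decide)).trans_le hx0
    rcases le_total x (((1750 : ℕ) : ℝ) / 10000) with c0 | c0
    · have h := piP cthreeE_a_0_pl0 hN hA hcl hcp hx0 c0
      have g0 := gL (be := 10000) (p := 1750) (G := 60126) (by decide +kernel) x0 c0 le_rfl (by decide)
      have gm := gh_mono (x := ((1750 : ℕ) : ℝ) / 10000) (n0 (by decide)) ha h5
      unfold lin at h
      push_cast at h gm g0
      linarith only [neg_abs_le (gh x - gh xs), h, gm, g0]
    rcases le_total x (((1950 : ℕ) : ℝ) / 10000) with ce | ce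
    · have h := piP cthreeE_a_0_pm hN hA hcl hcp c0 ce
      unfold lin at h
      push_cast at h
      linarith only [abs_nonneg (gh x - gh xs), h]
    have gm := gh_mono (y := ((1950 : ℕ) : ℝ) / 10000) hN.xs0 he (nhalf (by decide))
    have h := piP cthreeE_a_0_pr0 hN hA hcl hcp ce hx1
    have g0 := gL (be := 10000) (p := 2600) (G := 43096) (x := ((1950 : ℕ) : ℝ) / 10000) (by decide +kernel)
      (n0 (by decide)) ce hx1 (by decide)
    unfold lin at h
    push_cast at h gm g0
    linarith only [le_abs_self (gh x - gh xs), h, gm, g0]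
  · have hx0 : ((1000 : ℕ) : ℝ) / 10000 ≤ x := le_trans (by norm_num) hA.x0
    have hx1 : x ≤ ((2600 : ℕ) : ℝ) / 10000 := le_trans hA.x1 (by norm_num)
    have gm := gh_mono ((n0 (by decide)).trans_le hx0) hx.le h5
    have ga := gU ua (by decide) le_rfl ha h5
    have g3 := gS4 kc (by decide) (by decide) le_rfl ha he hT
    push_cast at ga g3
    rcases le_total x (((1300 : ℕ) : ℝ) / 10000) with c0 | c0
    · have h := piD1 cthreeE_a_0_db0 hN hA hcl hcp (by decide) hx0 c0 ha
      have g0 := gU (be := 10000) (p := 1000) (G := 101665) (by decide +kernel) (by decide) hx0 c0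
        (nhalf (by decide))
      have k1 := gU (be := 10000) (p := 1300) (G := 79104) (y := ((1750 : ℕ) : ℝ) / 10000) (by decide +kernel)
        (by decide) le_rfl (nle (by decide)) (nhalf (by decide))
      push_cast at h g0 k1
      unfold lin at h
      push_cast at h
      exact dn_fin5 h gm (by linarith only [he, ga, g0, k1]) (by linarith only [g3, g0, k1])
    rcases le_total x (((1750 : ℕ) : ℝ) / 10000) with c1 | c1
    · have h := piD1 cthreeE_a_0_db1 hN hA hcl hcp (by decide) c0 c1 ha
      have g0 := gU (be := 10000) (p := 1300) (G := 79104) (by decide +kernel) (by decide) c0 c1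
        (nhalf (by decide))
      push_cast at h g0
      unfold lin at h
      push_cast at h
      exact dn_fin5 h gm (by linarith only [he, ga, g0]) (by linarith only [g3, g0])
    have h := piD0 cthreeE_a_0_da hN hA hcl hcp (by decide) c1 (hx.le.trans he) hx.le
    have g1 := gU ua (by decide) c1 hx.le h5
    have g4 := gS4 kc (by decide) (by decide) c1 hx.le he hT
    unfold lin at h
    push_cast at h g1 g4
    exact dn_fin5 h gm (by linarith only [he, g1]) (by linarith only [g4])
  · have hx0 : ((1000 : ℕ) : ℝ) / 10000 ≤ x := le_trans (by norm_num) hA.x0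
    have hx1 : x ≤ ((2600 : ℕ) : ℝ) / 10000 := le_trans hA.x1 (by norm_num)
    have gm := gh_mono hN.xs0 hx.le (hx1.trans (nhalf (by decide)))
    rcases le_total x (((1950 : ℕ) : ℝ) / 10000) with ce | ce
    · have h := piU0 cthreeE_a_0_ua hN hA hcl hcp (ha.trans hx.le) ce
      have g1 := gU ua (by decide) ha hx.le (hx1.trans (nhalf (by decide)))
      have g3 := gS4 kc (by decide) (by decide) ha hx.le ce hT
      unfold lin at h
      push_cast at h g1 g3
      exact up_fin5 h gm (by linarith only [ha, g1]) (by linarith only [g3])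
    have ga := gU (y := ((1950 : ℕ) : ℝ) / 10000) ua (by decide) ha he (nhalf (by decide))
    have g3 := gS4 kc (by decide) (by decide) ha he le_rfl hT
    push_cast at ga g3
    have h := piU1 cthreeE_a_0_ub0 hN hA hcl hcp ce hx1
    have g0 := gU (be := 10000) (p := 1950) (G := 54636) (by decide +kernel) (by decide) le_rfl ce
      (hx1.trans (nhalf (by decide)))
    unfold lin at h
    push_cast at h g0
    exact up_fin5 h gm (by linarith only [ha, ga, g0]) (by linarith only [g3, g0])

theorem sthreeE_b_0 {xs s T ρ : ℝ} (hW : RWp.In ⟨1750 / 10000, 1950 / 10000, -(420 / 10000), -(180 / 10000), 2000 / 10000, 2130 / 10000, 430 / 10000, 870 / 10000, 4060 / 10000, 3320 / 10000, 740 / 10000, 1140 / 10000, 22 / 10, 59 / 100⟩ xs s T ρ)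
    (ha : ((1750 : ℕ) : ℝ) / 10000 ≤ xs) (he : xs ≤ ((1950 : ℕ) : ℝ) / 10000) :
    RampOK (65 / 100) (14 / 100) (11 / 10) 4 xs (1 / 2 - s) T ρ (10 / 100) (26 / 100) := by
  have hN : Nm 4060 3320 4632 10 22 380 2000 740 1140 1160 1400 430 870 xs s T ρ := by
    obtain ⟨-, -, w1, w2, w3, w4, w5, w6, w7, w8, w9, w10, w11, w12⟩ := hW
    dsimp only at w1 w2 w3 w4 w6 w7 w8 w9 w10 w11 w12
    push_cast at ha he
    exact ⟨by linarith only [ha, w5, w7], by linarith only [he, w5, w7], by push_cast; linarith only [w3], by norm_num, by push_cast; linarith only [w8],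
      by norm_num, by push_cast; linarith only [w9], by norm_num, by push_cast; linarith only [he, w4, w5, w7, w11], by norm_num,
      by push_cast; linarith only [he, w3, w5, w7], by push_cast; linarith only [ha, w4], by norm_num, by push_cast; linarith only [w1],
      by push_cast; linarith only [w2], by push_cast; linarith only [w6], by push_cast; linarith only [w7], w5,
      fun _ => by push_cast; linarith only [w10], by push_cast; linarith only [w11]⟩
  have hT : |T| ≤ ((420 : ℕ) : ℝ) / 10000 := by
    have w1 := hW.t0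
    have w2 := hW.t1
    dsimp only at w1 w2
    rw [abs_le]
    push_cast
    constructor <;> linarith only [w1, w2]
  have kc : kC4 11000 1750 1950 420 0 = true := by decide +kernel
  have ua : kU 11000 1750 66139 = true := by decide +kernel
  have hcl : (0 : ℝ) < 10 / 100 := by norm_num
  have hcp : (26 / 100 : ℝ) < 1 / 2 := by norm_num
  have h5 := hN.xs1.le
  refine ⟨fun x y hA => ?_, fun x y hA hx => ?_, fun x y hA hx => ?_⟩
  · have hx0 : ((1000 : ℕ) : ℝ) / 10000 ≤ x := le_trans (by norm_num) hA.x0
    have hx1 : x ≤ ((2600 : ℕ) : ℝ) / 10000 := le_trans hA.x1 (by norm_num)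
    have x0 : 0 < x := (n0 (by decide)).trans_le hx0
    rcases le_total x (((1750 : ℕ) : ℝ) / 10000) with c0 | c0
    · have h := piP cthreeE_b_0_pl0 hN hA hcl hcp hx0 c0
      have g0 := gL (be := 11000) (p := 1750) (G := 66138) (by decide +kernel) x0 c0 le_rfl (by decide)
      have gm := gh_mono (x := ((1750 : ℕ) : ℝ) / 10000) (n0 (by decide)) ha h5
      unfold lin at h
      push_cast at h gm g0
      linarith only [neg_abs_le (gh x - gh xs), h, gm, g0]
    rcases le_total x (((1950 : ℕ) : ℝ) / 10000) with ce | ce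
    · have h := piP cthreeE_b_0_pm hN hA hcl hcp c0 ce
      unfold lin at h
      push_cast at h
      linarith only [abs_nonneg (gh x - gh xs), h]
    have gm := gh_mono (y := ((1950 : ℕ) : ℝ) / 10000) hN.xs0 he (nhalf (by decide))
    have h := piP cthreeE_b_0_pr0 hN hA hcl hcp ce hx1
    have g0 := gL (be := 11000) (p := 2600) (G := 47406) (x := ((1950 : ℕ) : ℝ) / 10000) (by decide +kernel)
      (n0 (by decide)) ce hx1 (by decide)
    unfold lin at h
    push_cast at h gm g0
    linarith only [le_abs_self (gh x - gh xs), h, gm, g0]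
  · have hx0 : ((1000 : ℕ) : ℝ) / 10000 ≤ x := le_trans (by norm_num) hA.x0
    have hx1 : x ≤ ((2600 : ℕ) : ℝ) / 10000 := le_trans hA.x1 (by norm_num)
    have gm := gh_mono ((n0 (by decide)).trans_le hx0) hx.le h5
    have ga := gU ua (by decide) le_rfl ha h5
    have g3 := gS4 kc (by decide) (by decide) le_rfl ha he hT
    push_cast at ga g3
    rcases le_total x (((1300 : ℕ) : ℝ) / 10000) with c0 | c0
    · have h := piD1 cthreeE_b_0_db0 hN hA hcl hcp (by decide) hx0 c0 ha
      have g0 := gU (be := 11000) (p := 1000) (G := 111831) (by decide +kernel) (by decide) hx0 c0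
        (nhalf (by decide))
      have k1 := gU (be := 11000) (p := 1300) (G := 87015) (y := ((1750 : ℕ) : ℝ) / 10000) (by decide +kernel)
        (by decide) le_rfl (nle (by decide)) (nhalf (by decide))
      push_cast at h g0 k1
      unfold lin at h
      push_cast at h
      exact dn_fin5 h gm (by linarith only [he, ga, g0, k1]) (by linarith only [g3, g0, k1])
    rcases le_total x (((1750 : ℕ) : ℝ) / 10000) with c1 | c1
    · have h := piD1 cthreeE_b_0_db1 hN hA hcl hcp (by decide) c0 c1 ha
      have g0 := gU (be := 11000) (p := 1300) (G := 87015) (by decide +kernel) (by decide) c0 c1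
        (nhalf (by decide))
      push_cast at h g0
      unfold lin at h
      push_cast at h
      exact dn_fin5 h gm (by linarith only [he, ga, g0]) (by linarith only [g3, g0])
    have h := piD0 cthreeE_b_0_da hN hA hcl hcp (by decide) c1 (hx.le.trans he) hx.le
    have g1 := gU ua (by decide) c1 hx.le h5
    have g4 := gS4 kc (by decide) (by decide) c1 hx.le he hT
    unfold lin at h
    push_cast at h g1 g4
    exact dn_fin5 h gm (by linarith only [he, g1]) (by linarith only [g4])
  · have hx0 : ((1000 : ℕ) : ℝ) / 10000 ≤ x := le_trans (by norm_num) hA.x0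
    have hx1 : x ≤ ((2600 : ℕ) : ℝ) / 10000 := le_trans hA.x1 (by norm_num)
    have gm := gh_mono hN.xs0 hx.le (hx1.trans (nhalf (by decide)))
    rcases le_total x (((1950 : ℕ) : ℝ) / 10000) with ce | ce
    · have h := piU0 cthreeE_b_0_ua hN hA hcl hcp (ha.trans hx.le) ce
      have g1 := gU ua (by decide) ha hx.le (hx1.trans (nhalf (by decide)))
      have g3 := gS4 kc (by decide) (by decide) ha hx.le ce hT
      unfold lin at h
      push_cast at h g1 g3
      exact up_fin5 h gm (by linarith only [ha, g1]) (by linarith only [g3])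
    have ga := gU (y := ((1950 : ℕ) : ℝ) / 10000) ua (by decide) ha he (nhalf (by decide))
    have g3 := gS4 kc (by decide) (by decide) ha he le_rfl hT
    push_cast at ga g3
    have h := piU1 cthreeE_b_0_ub0 hN hA hcl hcp ce hx1
    have g0 := gU (be := 11000) (p := 1950) (G := 60100) (by decide +kernel) (by decide) le_rfl ce
      (hx1.trans (nhalf (by decide)))
    unfold lin at h
    push_cast at h g0
    exact up_fin5 h gm (by linarith only [ha, ga, g0]) (by linarith only [g3, g0])

theorem sthreeE_c_0 {xs s T ρ : ℝ} (hW : RWp.In ⟨1750 / 10000, 1950 / 10000, -(420 / 10000), -(180 / 10000), 2130 / 10000, 2170 / 10000, 430 / 10000, 870 / 10000, 4060 / 10000, 3320 / 10000, 740 / 10000, 1140 / 10000, 22 / 10, 59 / 100⟩ xs s T ρ)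
    (ha : ((1750 : ℕ) : ℝ) / 10000 ≤ xs) (he : xs ≤ ((1930 : ℕ) : ℝ) / 10000) :
    RampOK (65 / 100) (8 / 100) (11 / 10) 4 xs (1 / 2 - s) T ρ (10 / 100) (26 / 100) := by
  have hN : Nm 4060 3320 4612 10 22 420 2130 740 1140 1160 1400 560 870 xs s T ρ := by
    obtain ⟨-, -, w1, w2, w3, w4, w5, w6, w7, w8, w9, w10, w11, w12⟩ := hW
    dsimp only at w1 w2 w3 w4 w6 w7 w8 w9 w10 w11 w12
    push_cast at ha he
    exact ⟨by linarith only [ha, w5, w7], by linarith only [he, w5, w7], by push_cast; linarith only [w3], by norm_num, by push_cast; linarith only [w8],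
      by norm_num, by push_cast; linarith only [w9], by norm_num, by push_cast; linarith only [w5, w7, w8, w11], by norm_num,
      by push_cast; linarith only [he, w3, w5, w7], by push_cast; linarith only [ha, w4], by norm_num, by push_cast; linarith only [w1],
      by push_cast; linarith only [w2], by push_cast; linarith only [ha, w3, w9], by push_cast; linarith only [w7], w5,
      fun _ => by push_cast; linarith only [ha, w2, w3, w9], by push_cast; linarith only [w11]⟩
  have hT : |T| ≤ ((420 : ℕ) : ℝ) / 10000 := by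
    have w1 := hW.t0
    have w2 := hW.t1
    dsimp only at w1 w2
    rw [abs_le]
    push_cast
    constructor <;> linarith only [w1, w2]
  have kc : kC4 11000 1750 1930 420 0 = true := by decide +kernel
  have ua : kU 11000 1750 66139 = true := by decide +kernel
  have hcl : (0 : ℝ) < 10 / 100 := by norm_num
  have hcp : (26 / 100 : ℝ) < 1 / 2 := by norm_num
  have h5 := hN.xs1.le
  refine ⟨fun x y hA => ?_, fun x y hA hx => ?_, fun x y hA hx => ?_⟩
  · have hx0 : ((1000 : ℕ) : ℝ) / 10000 ≤ x := le_trans (by norm_num) hA.x0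
    have hx1 : x ≤ ((2600 : ℕ) : ℝ) / 10000 := le_trans hA.x1 (by norm_num)
    have x0 : 0 < x := (n0 (by decide)).trans_le hx0
    rcases le_total x (((1750 : ℕ) : ℝ) / 10000) with c0 | c0
    · have h := piP cthreeE_c_0_pl0 hN hA hcl hcp hx0 c0
      have g0 := gL (be := 11000) (p := 1750) (G := 66138) (by decide +kernel) x0 c0 le_rfl (by decide)
      have gm := gh_mono (x := ((1750 : ℕ) : ℝ) / 10000) (n0 (by decide)) ha h5
      unfold lin at h
      push_cast at h gm g0
      linarith only [neg_abs_le (gh x - gh xs), h, gm, g0]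
    rcases le_total x (((1930 : ℕ) : ℝ) / 10000) with ce | ce
    · have h := piP cthreeE_c_0_pm hN hA hcl hcp c0 ce
      unfold lin at h
      push_cast at h
      linarith only [abs_nonneg (gh x - gh xs), h]
    have gm := gh_mono (y := ((1930 : ℕ) : ℝ) / 10000) hN.xs0 he (nhalf (by decide))
    have h := piP cthreeE_c_0_pr0 hN hA hcl hcp ce hx1
    have g0 := gL (be := 11000) (p := 2600) (G := 47406) (x := ((1930 : ℕ) : ℝ) / 10000) (by decide +kernel)
      (n0 (by decide)) ce hx1 (by decide)
    unfold lin at h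
    push_cast at h gm g0
    linarith only [le_abs_self (gh x - gh xs), h, gm, g0]
  · have hx0 : ((1000 : ℕ) : ℝ) / 10000 ≤ x := le_trans (by norm_num) hA.x0
    have hx1 : x ≤ ((2600 : ℕ) : ℝ) / 10000 := le_trans hA.x1 (by norm_num)
    have gm := gh_mono ((n0 (by decide)).trans_le hx0) hx.le h5
    have ga := gU ua (by decide) le_rfl ha h5
    have g3 := gS4 kc (by decide) (by decide) le_rfl ha he hT
    push_cast at ga g3
    rcases le_total x (((1300 : ℕ) : ℝ) / 10000) with c0 | c0
    · have h := piD1 cthreeE_c_0_db0 hN hA hcl hcp (by decide) hx0 c0 ha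
      have g0 := gU (be := 11000) (p := 1000) (G := 111831) (by decide +kernel) (by decide) hx0 c0
        (nhalf (by decide))
      have k1 := gU (be := 11000) (p := 1300) (G := 87015) (y := ((1750 : ℕ) : ℝ) / 10000) (by decide +kernel)
        (by decide) le_rfl (nle (by decide)) (nhalf (by decide))
      push_cast at h g0 k1
      unfold lin at h
      push_cast at h
      exact dn_fin5 h gm (by linarith only [he, ga, g0, k1]) (by linarith only [g3, g0, k1])
    rcases le_total x (((1750 : ℕ) : ℝ) / 10000) with c1 | c1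
    · have h := piD1 cthreeE_c_0_db1 hN hA hcl hcp (by decide) c0 c1 ha
      have g0 := gU (be := 11000) (p := 1300) (G := 87015) (by decide +kernel) (by decide) c0 c1
        (nhalf (by decide))
      push_cast at h g0
      unfold lin at h
      push_cast at h
      exact dn_fin5 h gm (by linarith only [he, ga, g0]) (by linarith only [g3, g0])
    have h := piD0 cthreeE_c_0_da hN hA hcl hcp (by decide) c1 (hx.le.trans he) hx.le
    have g1 := gU ua (by decide) c1 hx.le h5
    have g4 := gS4 kc (by decide) (by decide) c1 hx.le he hT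
    unfold lin at h
    push_cast at h g1 g4
    exact dn_fin5 h gm (by linarith only [he, g1]) (by linarith only [g4])
  · have hx0 : ((1000 : ℕ) : ℝ) / 10000 ≤ x := le_trans (by norm_num) hA.x0
    have hx1 : x ≤ ((2600 : ℕ) : ℝ) / 10000 := le_trans hA.x1 (by norm_num)
    have gm := gh_mono hN.xs0 hx.le (hx1.trans (nhalf (by decide)))
    rcases le_total x (((1930 : ℕ) : ℝ) / 10000) with ce | ce
    · have h := piU0 cthreeE_c_0_ua hN hA hcl hcp (ha.trans hx.le) ce
      have g1 := gU ua (by decide) ha hx.le (hx1.trans (nhalf (by decide)))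
      have g3 := gS4 kc (by decide) (by decide) ha hx.le ce hT
      unfold lin at h
      push_cast at h g1 g3
      exact up_fin5 h gm (by linarith only [ha, g1]) (by linarith only [g3])
    have ga := gU (y := ((1930 : ℕ) : ℝ) / 10000) ua (by decide) ha he (nhalf (by decide))
    have g3 := gS4 kc (by decide) (by decide) ha he le_rfl hT
    push_cast at ga g3
    have h := piU1 cthreeE_c_0_ub0 hN hA hcl hcp ce hx1
    have g0 := gU (be := 11000) (p := 1930) (G := 60643) (by decide +kernel) (by decide) le_rfl ce
      (hx1.trans (nhalf (by decide)))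
    unfold lin at h
    push_cast at h g0
    exact up_fin5 h gm (by linarith only [ha, ga, g0]) (by linarith only [g3, g0])

end RQ4

namespace RC

theorem i4_three_a : RowI
    ⟨1950 / 10000, 2340 / 10000, -(360 / 10000), 10 / 10000, 1650 / 10000, 2000 / 10000, 470 / 10000, 930 / 10000, 4330 / 10000, 3560 / 10000, 600 / 10000, 1100 / 10000, 22 / 10, 59 / 100⟩
    4 (65 / 100) (14 / 100) 1 (12 / 100) (30 / 100) := by
  intro xs s T ρ hW
  have h0 : ((1950 : ℕ) : ℝ) / 10000 ≤ xs := le_trans (by norm_num) hW.x0
  have h1 : xs ≤ ((2340 : ℕ) : ℝ) / 10000 := by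
    obtain ⟨-, w0, -, -, w3, -, -, -, w7, w8, w9, -, -, -⟩ := hW
    dsimp only at w0 w3 w7 w8 w9
    push_cast
    linarith only [w0]
  exact RQ4.sthree_a_0 hW h0 h1

theorem i4_three_b : RowI
    ⟨1950 / 10000, 2340 / 10000, -(360 / 10000), 10 / 10000, 2000 / 10000, 2130 / 10000, 470 / 10000, 930 / 10000, 4330 / 10000, 3560 / 10000, 600 / 10000, 1100 / 10000, 22 / 10, 59 / 100⟩
    4 (65 / 100) (14 / 100) (11 / 10) (12 / 100) (30 / 100) := by
  intro xs s T ρ hW
  have h0 : ((1950 : ℕ) : ℝ) / 10000 ≤ xs := le_trans (by norm_num) hW.x0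
  have h1 : xs ≤ ((2330 : ℕ) : ℝ) / 10000 := by
    obtain ⟨-, w0, -, -, w3, -, -, -, w7, w8, w9, -, -, -⟩ := hW
    dsimp only at w0 w3 w7 w8 w9
    push_cast
    linarith only [w3, w8]
  exact RQ4.sthree_b_0 hW h0 h1

theorem i4_three_c : RowI
    ⟨1950 / 10000, 2340 / 10000, -(360 / 10000), 10 / 10000, 2130 / 10000, 2140 / 10000, 470 / 10000, 930 / 10000, 4330 / 10000, 3560 / 10000, 600 / 10000, 1100 / 10000, 22 / 10, 59 / 100⟩
    4 (65 / 100) (8 / 100) (11 / 10) (12 / 100) (30 / 100) := by
  intro xs s T ρ hW
  have h0 : ((1950 : ℕ) : ℝ) / 10000 ≤ xs := le_trans (by norm_num) hW.x0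
  have h1 : xs ≤ ((2200 : ℕ) : ℝ) / 10000 := by
    obtain ⟨-, w0, -, -, w3, -, -, -, w7, w8, w9, -, -, -⟩ := hW
    dsimp only at w0 w3 w7 w8 w9
    push_cast
    linarith only [w3, w8]
  exact RQ4.sthree_c_0 hW h0 h1

theorem i4_threeE_a : RowI
    ⟨1750 / 10000, 1950 / 10000, -(420 / 10000), -(180 / 10000), 1690 / 10000, 2000 / 10000, 430 / 10000, 870 / 10000, 4060 / 10000, 3320 / 10000, 740 / 10000, 1140 / 10000, 22 / 10, 59 / 100⟩
    4 (65 / 100) (14 / 100) 1 (10 / 100) (26 / 100) := by
  intro xs s T ρ hW
  have h0 : ((1750 : ℕ) : ℝ) / 10000 ≤ xs := le_trans (by norm_num) hW.x0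
  have h1 : xs ≤ ((1950 : ℕ) : ℝ) / 10000 := by
    obtain ⟨-, w0, -, -, w3, -, -, -, w7, w8, w9, -, -, -⟩ := hW
    dsimp only at w0 w3 w7 w8 w9
    push_cast
    linarith only [w0]
  exact RQ4.sthreeE_a_0 hW h0 h1

theorem i4_threeE_b : RowI
    ⟨1750 / 10000, 1950 / 10000, -(420 / 10000), -(180 / 10000), 2000 / 10000, 2130 / 10000, 430 / 10000, 870 / 10000, 4060 / 10000, 3320 / 10000, 740 / 10000, 1140 / 10000, 22 / 10, 59 / 100⟩
    4 (65 / 100) (14 / 100) (11 / 10) (10 / 100) (26 / 100) := by
  intro xs s T ρ hW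
  have h0 : ((1750 : ℕ) : ℝ) / 10000 ≤ xs := le_trans (by norm_num) hW.x0
  have h1 : xs ≤ ((1950 : ℕ) : ℝ) / 10000 := by
    obtain ⟨-, w0, -, -, w3, -, -, -, w7, w8, w9, -, -, -⟩ := hW
    dsimp only at w0 w3 w7 w8 w9
    push_cast
    linarith only [w0]
  exact RQ4.sthreeE_b_0 hW h0 h1

theorem i4_threeE_c : RowI
    ⟨1750 / 10000, 1950 / 10000, -(420 / 10000), -(180 / 10000), 2130 / 10000, 2170 / 10000, 430 / 10000, 870 / 10000, 4060 / 10000, 3320 / 10000, 740 / 10000, 1140 / 10000, 22 / 10, 59 / 100⟩
    4 (65 / 100) (8 / 100) (11 / 10) (10 / 100) (26 / 100) := by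
  intro xs s T ρ hW
  have h0 : ((1750 : ℕ) : ℝ) / 10000 ≤ xs := le_trans (by norm_num) hW.x0
  have h1 : xs ≤ ((1930 : ℕ) : ℝ) / 10000 := by
    obtain ⟨-, w0, -, -, w3, -, -, -, w7, w8, w9, -, -, -⟩ := hW
    dsimp only at w0 w3 w7 w8 w9
    push_cast
    linarith only [w3, w8]
  exact RQ4.sthreeE_c_0 hW h0 h1

end RC

end Pool.Agent.Work.MP_b30479_gt.G2
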