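import Pool.Agent.Work.MP_b30479_gt.G2.RW4
import Pool.Agent.Work.MP_b30479_gt.G2.RR4rra
import Pool.Agent.Work.MP_b30479_gt.G2.RR4rrb
import Pool.Agent.Work.MP_b30479_gt.G2.RR4rrc
import Pool.Agent.Work.MP_b30479_gt.G2.RR4rsa
import Pool.Agent.Work.MP_b30479_gt.G2.RR4rsb
import Pool.Agent.Work.MP_b30479_gt.G2.RR4rsc
import Pool.Agent.Work.MP_b30479_gt.G2.RR4one
import Pool.Agent.Work.MP_b30479_gt.G2.RR4two
import Pool.Agent.Work.MP_b30479_gt.G2.RR4three
import Pool.Agent.Work.MP_b30479_gt.G2.RR4err
import Pool.Agent.Work.MP_b30479_gt.G2.RR4ers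
import Pool.Agent.Work.MP_b30479_gt.G2.RR4eo

/-!
# The ramp part of the rings, four crossings: all rows
-/

namespace Pool.Agent.Work.MP_b30479_gt.G2

namespace SR

/-- **The rows of the ramp part, four crossings.** -/
theorem rows4 : Rows4 where
  ia C e := by
    cases C
    · exact RC.i4_one_a
    · exact RC.i4_two_a
    · exact RC.i4_twoE_a
    · exact RC.i4_three_a
    · exact RC.i4_threeE_a
    · cases e
      · exact RC.i4_rr_a
      · exact RC.i4_rs_a
  ib C e := by
    cases C
    · exact RC.i4_one_b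
    · exact RC.i4_two_b
    · exact RC.i4_twoE_b
    · exact RC.i4_three_b
    · exact RC.i4_threeE_b
    · cases e
      · exact RC.i4_rr_b
      · exact RC.i4_rs_b
  ic C e h1 h2 h3 := by
    cases C
    · exact absurd rfl h1
    · exact absurd rfl h2
    · exact absurd rfl h3
    · exact RC.i4_three_c
    · exact RC.i4_threeE_c
    · cases e
      · exact RC.i4_rr_c
      · exact RC.i4_rs_c
  e C e h3 := by
    cases C
    · exact RC.e4_one
    · exact RC.e4_two
    · exact absurd rfl h3
    · exact RC.e4_three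
    · exact RC.e4_threeE
    · cases e
      · exact RC.e4_rr
      · exact RC.e4_rs

end SR

end Pool.Agent.Work.MP_b30479_gt.G2
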