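import Pool.Agent.Work.MP_b30479_gt.G2.WRng

/-!
# Rings in a word: the cap of the ring|ring hinges, the ring variables are not at the ends
-/

namespace Pool.Agent.Work.MP_b30479_gt.G2

open Finset VOL Filter Topology

namespace SR

variable {M : ℕ} {b : Fin (M + 1) → ℤ} {zs : DD (tyW b) ⊕ ZZ (tyW b) → ℂ}
variable {y : DD (tyW b) ⊕ ZZ (tyW b) → ℝ}
variable {h h' : Fin M} {i j j' : Fin (M + 1)} {p : Fin 3}

theorem fR_UU (w ζ : ℂ) : UU (w + 1 / 2 + ζ) + UU (w + 1 / 2 - ζ) - 2 * UU w = fR w ζ := rfl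

theorem VR_rg (n ρ σ : ℝ) (w w' : ℂ) : VR n w w' (LT.zt ρ σ) = rg n ρ w w' σ := by
  unfold VR rg
  rw [fR_UU, fR_UU]
  have e : (Real.pi * Complex.I * n * LT.zt ρ σ ^ 2 + 2 * Real.pi * Complex.I * LT.zt ρ σ).re =
      -(2 * Real.pi * (ρ * LT.th σ) * (n * σ + 1)) := by
    unfold LT.zt
    simp [pow_two]
    ring
  rw [e]

theorem rg_comm (n ρ σ : ℝ) (w w' : ℂ) : rg n ρ w w' σ = rg n ρ w' w σ := by
  unfold rg
  ring

theorem OY_endOk (i : Fin (M + 1)) : EndOk i (OY b zs y i) := Ow_endOk _ i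

/-- **Value step at a ring|ring hinge.** -/
theorem Adj.rr_val (A : Adj h i p j) (hb : ClassW b) (hL : Loc b zs) (hy : Mx b zs y)
    (hc : clsW b i = .ring) (hj : clsW b j = .ring) {ρ σ ρ' σ' : ℝ}
    (h1 : OY b zs y i 1 = LT.zt ρ σ) (h2 : OY b zs y j 1 = LT.zt ρ' σ') {c : ℝ}
    (hc0 : 1 / 10 ≤ c) (hc1 : c ≤ 48 / 100) :
    fR ⟨c, ofs (b i) (zs (.inl (.inl h))).im⟩ (LT.zt ρ σ) - fR (Yw b zs y i p) (LT.zt ρ σ) +
      (fR ⟨c, ofs (b j) (zs (.inl (.inl h))).im⟩ (LT.zt ρ' σ') -
        fR (Yw b zs y j p.rev) (LT.zt ρ' σ')) ≤ 0 := by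
  obtain ⟨e1, e2, e3⟩ := A.par_rr hc hj
  have key := val_hinge hb hy A (c := c) (by linarith only [hc0]) (by rw [e1]; linarith only [hc1])
  rw [dV_ring hb A hc (OY_endOk i), dV_ring hb A.symm hj (OY_endOk j), h1, h2, OY_hinge y A,
    OY_hinge y A.symm, pw_flat (b i) h (by rw [e2]; exact hc0) (by rw [e1, e3]; linarith only [hc1]),
    pw_flat (b j) h (by rw [e2]; exact hc0) (by rw [e1, e3]; linarith only [hc1])] at key
  have f1 : Yw b zs y i p = pw b zs (b i) h (y (.inl (.inl h))) := A.Yw_eq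
  have f2 : Yw b zs y j p.rev = pw b zs (b j) h (y (.inl (.inl h))) := A.symm.Yw_eq
  rw [f1, f2]
  have g : ∀ T : ℝ, (⟨c, T⟩ : ℂ) = (c : ℂ) + ((T : ℝ) : ℂ) * Complex.I := fun T => by
    apply Complex.ext <;> simp
  rw [g, g]
  unfold fR
  linarith only [key]

/-- first part of the cap -/
theorem Adj.rr_cap48 (A : Adj h i p j) (hb : ClassW b) (hL : Loc b zs) (hX : LocX b zs)
    (hR : LocR b zs) (hy : Mx b zs y) (hc : clsW b i = .ring) (hj : clsW b j = .ring) :
    y (.inl (.inl h)) ≤ 48 / 100 := by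
  by_contra hcon
  push Not at hcon
  obtain ⟨v, -, c1, r1, z1⟩ := A.ring hb hL hy hc
  obtain ⟨v', -, c2, r2, z2⟩ := A.symm.ring hb hL hy hj
  obtain ⟨k, -, k1⟩ := A.rk_other hb hL hX hR hy hc
  obtain ⟨k', -, k2⟩ := A.symm.rk_other hb hL hX hR hy hj
  have hval := A.rr_val hb hL hy hc hj z1 z2 (c := 105 / 1000) (by norm_num) (by norm_num)
  obtain ⟨e1, e2, e3⟩ := A.par_rr hc hj
  have w1 := A.rh hy
  have w2 := A.symm.rh hy
  rw [e1, e2, e3] at w1 w2
  have g1 := r1.gain' c1 w1 (A.rrt hb hL hX hR hc hj) k1.ok (by rw [A.re]; exact hcon)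
  have g2 := r2.gain' c2 w2 (A.symm.rrt hb hL hX hR hj hc) k2.ok (by rw [A.symm.re]; exact hcon)
  linarith only [hval, g1, g2]

/-- value step for a hinge together with the variable of an adjacent ring -/
theorem Adj.block_val (A : Adj h i p j) (hb : ClassW b) (hy : Mx b zs y)
    (hc : clsW b i = .ring) (v : ZZ (tyW b)) (hv : v.1 = i) {c σ : ℝ} (hc0 : 0 ≤ c)
    (hc1 : c ≤ wXM b h) (hσ : |σ| ≤ 1 / 2) :
    OV b i (Function.update (Function.update (OY b zs y i) 1 (LT.zt (zs (.inr v)).im σ)) p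
      (pw b zs (b i) h c)) - OV b i (OY b zs y i) +
      dV b j p.rev (OY b zs y j) (pw b zs (b j) h c) ≤ 0 := by
  subst hv
  have ht := tyW_of_ring hb hc
  set z := (wpar b zs).pth zs y with hz
  set c1 := (wpar b zs).pp zs (.inr v) (ofs (b v.1) σ) with hc1'
  set c2 := (wpar b zs).pp zs (.inl (.inl h)) c with hc2'
  have hs := abs_le.1 (show |ofs (b v.1) σ| ≤ 1 / 2 by rw [abs_ofs]; exact hσ)
  have hbox : Function.update (Function.update y (.inr v) (ofs (b v.1) σ)) (.inl (.inl h)) c ∈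
      (wpar b zs).box (ZZ (tyW b)) :=
    update_mem_box (update_mem_box hy.1 hs.1 hs.2) hc0 hc1
  have h1 : (wdat (tyW b) b).V (Function.update (Function.update z (.inr v) c1) (.inl (.inl h)) c2) ≤
      (wdat (tyW b) b).V z := by
    have h0 : (wdat (tyW b) b).V ((wpar b zs).pth zs (Function.update (Function.update y (.inr v)
        (ofs (b v.1) σ)) (.inl (.inl h)) c)) ≤ (wdat (tyW b) b).V ((wpar b zs).pth zs y) := hy.2 hbox
    rw [Par.pth_update_pp, Par.pth_update_pp] at h0
    exact h0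
  have h2 := V_upd_ring (tyW b) b v z c1
  have h3 := V_upd_hinge (tyW b) b h (Function.update z (.inr v) c1) c2
  have e1 : ofz (b v.1) c1 = LT.zt (zs (.inr v)).im σ := by
    have e2 : c1 = LT.zt (zs (.inr v)).im (ofs (b v.1) σ) := by
      rw [hc1', pp_ring]
      unfold LT.zt
      push_cast
      ring
    rw [e2, ofz_zt, ofs_ofs]
  have eow : ∀ i, own (b i) (tyW b i) (xx (tyW b) i z) = OY b zs y i := fun i => rfl
  have ering : own (b v.1) (tyW b v.1) (Function.update (xx (tyW b) v.1 z) 1 c1) =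
      Function.update (OY b zs y v.1) 1 (LT.zt (zs (.inr v)).im σ) := by
    rw [← e1, ← eow, ht, own_update_ring]
  have hne : ∀ k : Fin M, k.castSucc ≠ k.succ := fun k => (Fin.castSucc_lt_succ).ne
  generalize hvi : v.1 = i at *
  cases A
  · -- the ring is on the left
    have hl : xx (tyW b) h.castSucc (Function.update z (.inr v) c1) =
        Function.update (xx (tyW b) h.castSucc z) 1 c1 := by
      have := xx_upd_ring (tyW b) v z c1
      rwa [hvi] at this
    have hr : xx (tyW b) h.succ (Function.update z (.inr v) c1) = xx (tyW b) h.succ z :=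
      xx_upd_ring_ne (tyW b) v z c1 h.succ (by rw [hvi]; exact (hne h).symm)
    rw [hl, hr, rV_own hb, rV_own hb, rV_own hb, rV_own hb, own_update_two, own_update_zero, ering,
      eow] at h3
    rw [rV_own hb, rV_own hb, ering, eow] at h2
    rw [show (2 : Fin 3).rev = 0 from rfl]
    unfold dV pw
    linarith only [h1, h3, h2]
  · have hl : xx (tyW b) h.succ (Function.update z (.inr v) c1) =
        Function.update (xx (tyW b) h.succ z) 1 c1 := by
      have := xx_upd_ring (tyW b) v z c1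
      rwa [hvi] at this
    have hr : xx (tyW b) h.castSucc (Function.update z (.inr v) c1) = xx (tyW b) h.castSucc z :=
      xx_upd_ring_ne (tyW b) v z c1 h.castSucc (by rw [hvi]; exact hne h)
    rw [hl, hr, rV_own hb, rV_own hb, rV_own hb, rV_own hb, own_update_two, own_update_zero, ering,
      eow] at h3
    rw [rV_own hb, rV_own hb, ering, eow] at h2
    rw [show (0 : Fin 3).rev = 2 from rfl]
    unfold dV pw
    linarith only [h1, h3, h2]

theorem EndOk.upd1 {X : Fin 3 → ℂ} (hX : EndOk i X) (ζ : ℂ) : EndOk i (Function.update X 1 ζ) := by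
  refine ⟨fun h0 => ?_, fun h0 => ?_⟩
  · rw [Function.update_of_ne (by decide)]
    exact hX.1 h0
  · rw [Function.update_of_ne (by decide)]
    exact hX.2 h0

theorem Adj.OV_upd (A : Adj h i p j) (hb : ClassW b) (hc : clsW b i = .ring) (z : ℂ) (ρ σ : ℝ) :
    OV b i (Function.update (Function.update (OY b zs y i) 1 (LT.zt ρ σ)) p z) =
      rg ((b i).natAbs : ℝ) ρ z (Yw b zs y i p.rev) σ := by
  rw [OV_ring hb hc (((OY_endOk i).upd1 _).upd A z)]
  cases A
  · rw [Function.update_self, Function.update_of_ne (by decide), Function.update_of_ne (by decide),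
      Function.update_of_ne (by decide), Function.update_self, VR_rg, OY_zero, rg_comm]
    rfl
  · rw [Function.update_self, Function.update_of_ne (by decide), Function.update_of_ne (by decide),
      Function.update_of_ne (by decide), Function.update_self, VR_rg, OY_two]
    rfl

theorem Adj.OV_self (A : Adj h i p j) (hb : ClassW b) (hc : clsW b i = .ring) {ρ σ : ℝ}
    (h1 : OY b zs y i 1 = LT.zt ρ σ) :
    OV b i (OY b zs y i) = rg ((b i).natAbs : ℝ) ρ (Yw b zs y i p) (Yw b zs y i p.rev) σ := by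
  rw [OV_ring hb hc (OY_endOk i), h1, VR_rg]
  cases A
  · rw [OY_zero, OY_two, rg_comm]
    rfl
  · rw [OY_zero, OY_two]
    rfl

/-- **Cap of the ring|ring hinges.** -/
theorem Adj.rr_cap (A : Adj h i p j) (hb : ClassW b) (hL : Loc b zs) (hX : LocX b zs)
    (hR : LocR b zs) (hy : Mx b zs y) (hc : clsW b i = .ring) (hj : clsW b j = .ring) :
    y (.inl (.inl h)) ≤ 27 / 100 := by
  by_contra hcon
  push Not at hcon
  have h48 := A.rr_cap48 hb hL hX hR hy hc hj
  obtain ⟨v, hv, c1, r1, z1⟩ := A.ring hb hL hy hc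
  obtain ⟨v', hv', c2, r2, z2⟩ := A.symm.ring hb hL hy hj
  obtain ⟨k, -, k1⟩ := A.rk_other hb hL hX hR hy hc
  obtain ⟨k', -, k2⟩ := A.symm.rk_other hb hL hX hR hy hj
  obtain ⟨e1, e2, e3⟩ := A.par_rr hc hj
  have w1 := A.rh hy
  have w2 := A.symm.rh hy
  have t1 := A.rrt hb hL hX hR hc hj
  have t2 := A.symm.rrt hb hL hX hR hj hc
  rw [e1, e2, e3] at w1 w2
  have x1 : 27 / 100 < (Yw b zs y i p).re := by rw [A.re]; exact hcon
  have x1' : (Yw b zs y i p).re ≤ 48 / 100 := by rw [A.re]; exact h48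
  have x2 : 27 / 100 < (Yw b zs y j p.rev).re := by rw [A.symm.re]; exact hcon
  have x2' : (Yw b zs y j p.rev).re ≤ 48 / 100 := by rw [A.symm.re]; exact h48
  have h27 := A.rr_val hb hL hy hc hj z1 z2 (c := 27 / 100) (by norm_num) (by norm_num)
  rcases r1.lt_or_end with s1 | s1
  · have g1 := move27 r1.ρ0 c1.1 w1 t1.abs_le x1 x1' s1
    rcases r2.lt_or_end with s2 | s2
    · have g2 := move27 r2.ρ0 c2.1 w2 t2.abs_le x2 x2' s2
      linarith only [h27, g1, g2]
    · have g2 := move27_end (ρ := (zs (.inr v')).im) w2 x2 x2' s2 (27 / 100)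
      linarith only [h27, g1, g2]
  · rcases r2.lt_or_end with s2 | s2
    · have g1 := move27_end (ρ := (zs (.inr v)).im) w1 x1 x1' s1 (27 / 100)
      have g2 := move27 r2.ρ0 c2.1 w2 t2.abs_le x2 x2' s2
      linarith only [h27, g1, g2]
    · -- both ring variables at the ends
      have q1 := r1.block c1 w1 t1 k1.ok (fun hk => by
        obtain ⟨h', j', A', hj'⟩ := k1.rr hk
        rw [A'.re]
        exact A'.rr_cap48 hb hL hX hR hy hc hj') (fun hk => by linarith only [k1, hk, hv, k1.rho hk v hv]) s1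
      have q2 := r2.block c2 w2 t2 k2.ok (fun hk => by
        obtain ⟨h', j', A', hj'⟩ := k2.rr hk
        rw [A'.re]
        exact A'.rr_cap48 hb hL hX hR hy hj hj') (fun hk => by linarith only [k2, hk, hv', k2.rho hk v' hv']) s2
      have key := A.block_val hb hy hc v hv (c := 105 / 1000) (σ := -(1 / 4)) (by norm_num)
        (by rw [e1]; norm_num) (by rw [abs_neg, abs_of_pos] <;> norm_num)
      have g : ∀ T : ℝ, (((105 / 1000 : ℝ) : ℂ) + ((T : ℝ) : ℂ) * Complex.I) = ⟨105 / 1000, T⟩ :=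
        fun T => by apply Complex.ext <;> simp
      rw [A.OV_upd hb hc, A.OV_self hb hc z1, dV_ring hb A.symm hj (OY_endOk j), z2,
        pw_flat (b i) h (by rw [e2]; norm_num) (by rw [e1, e3]; norm_num),
        pw_flat (b j) h (by rw [e2]; norm_num) (by rw [e1, e3]; norm_num), fR_UU, fR_UU, g, g,
        fR_end s2, fR_end s2, OY_hinge y A.symm] at key
      have f2 : Yw b zs y j p.rev = pw b zs (b j) h (y (.inl (.inl h))) := A.symm.Yw_eq
      rw [← f2] at key
      simp only at key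
      have q3 := mul_le_mul_of_nonneg_left q2.2 Real.pi_pos.le
      linarith only [q1, key, q3, q1.1]

/-- the caps of the hinges of a ring -/
theorem RKs.cp {k k' : RKe} (K : RKs b zs y i p k k') (hb : ClassW b) (hL : Loc b zs) (hX : LocX b zs)
    (hR : LocR b zs) (hy : Mx b zs y) (hc : clsW b i = .ring) (v : ZZ (tyW b)) (hv : v.1 = i) :
    k.cp (zs (.inr v)).im (Yw b zs y i p) := by
  cases k with
  | no => trivial
  | one => trivial
  | lo => trivial
  | rr =>
    obtain ⟨h', j', A', hj'⟩ := K.rr rfl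
    change (Yw b zs y i p).re ≤ 27 / 100
    rw [A'.re]
    exact A'.rr_cap hb hL hX hR hy hc hj'
  | ps =>
    change 4 / 100 ≤ (zs (.inr v)).im
    linarith only [K, hv, K.rho rfl v hv]

theorem clsW_ring (hb : ClassW b) (v : ZZ (tyW b)) : clsW b v.1 = .ring := by
  have h4 := ring_four hb (tyW_ring v.2)
  unfold clsW cls
  rw [if_neg (by omega), if_neg (by omega), if_neg (by omega)]

/-- **The ring variables are not at the ends of their paths.** -/
theorem ring_lt_half (hb : ClassW b) (hL : Loc b zs) (hX : LocX b zs)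
    (hR : LocR b zs) (hy : Mx b zs y) (v : ZZ (tyW b)) : |y (.inr v)| < 1 / 2 := by
  have hc := clsW_ring hb v
  obtain ⟨k, k', K, K'⟩ := rk_slots hb hL hX hR hy hc
  have r := ring_RM hb hL hy v
  have := r.lt_half_four (ring_cap hb hL v) K.ok K'.ok (K.cp hb hL hX hR hy hc v rfl)
    (K'.cp hb hL hX hR hy hc v rfl)
  rwa [abs_ofs] at this

end SR

end Pool.Agent.Work.MP_b30479_gt.G2
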