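import Pool.Agent.Work.MP_b30479_gt.G2.RWr
import Pool.Agent.Work.MP_b30479_gt.G2.RR4all
import Pool.Agent.Work.MP_b30479_gt.G2.RW4e

/-!
# The data of the rings of a word from the location statements
-/

namespace Pool.Agent.Work.MP_b30479_gt.G2

open Finset VOL Filter Topology

namespace SR

variable {M : ℕ} {b : Fin (M + 1) → ℤ} {zs : DD (tyW b) ⊕ ZZ (tyW b) → ℂ}

/-- **All rows of the ramp part are available.** -/
theorem RLoc.of (hb : ClassW b) (hL : Loc b zs) (hC : Crit b zs) (hX : LocX b zs)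
    (hR : LocR b zs) (hG : LocRg b zs) (H4 : LocR4 b zs) : RLoc b zs :=
  ⟨hb, hL, hC, hX, hR, hG, rows5, Ramp4.of hb hL hC hX hR hG H4 rows4⟩

end SR

end Pool.Agent.Work.MP_b30479_gt.G2
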