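import Pool.Agent.Work.MP_b30479_gt.G2.MDf
import Pool.Agent.Work.MP_b30479_gt.G2.MDg
import Pool.Agent.Work.MP_b30479_gt.G2.R4L
import Pool.Agent.Work.MP_b30479_gt.G2.RWs

/-!
# Words all of whose digits are at least `4`
-/

namespace Pool.Agent.Work.MP_b30479_gt.G2

open Finset VOL Filter Topology

namespace SR

theorem allRing_of {M : ℕ} {b : Fin (M + 1) → ℤ} (h4 : ∀ i, 4 ≤ (b i).natAbs) : AllRing b := by
  intro i
  have := h4 i
  unfold clsW cls
  rw [if_neg (by omega), if_neg (by omega), if_neg (by omega)]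

/-- the saddle point data of a word all of whose digits are at least `4` -/
theorem hsad_r4 {M : ℕ} {b : Fin (M + 2) → ℤ} (hb : ClassW (M := M + 1) b)
    (h4 : ∀ i, 4 ≤ (b i).natAbs)
    (ha : ∀ h : Fin (M + 1), b h.castSucc * b h.succ < 0) : HSad b := by
  obtain ⟨w, hw⟩ := exists_sol (M := M + 1) hb ringFacts (by omega)
  obtain ⟨L, hL, hX⟩ := CN.LA.ring_loc3 (M := M + 1) hb hw (by omega) h4 ha
  obtain ⟨hR, hG, H4⟩ := CN.TD.ring_locR (M := M + 1) hb hw (by omega) h4 ha
  exact hsad_of_domQ hb ringFacts hw L hL fun hC =>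
    domQ_rings hb (allRing_of h4) hL
      ((RLoc.of hb hL hC hX hR hG H4).mainParts (allRing_of h4))

end SR

end Pool.Agent.Work.MP_b30479_gt.G2
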