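import Pool.Agent.Work.MP_b30479_gt.G2.RRamp
import Pool.Agent.Work.MP_b30479_gt.G2.MLA
import Pool.Agent.Work.MP_b30479_gt.G2.MRBase

/-!
# Rings with the ring variable on the ramp: shape of the rows

`RowI`: interior ring, `RowE`: ring at an end.
-/

namespace Pool.Agent.Work.MP_b30479_gt.G2

open Real Set VOL Filter Topology NumI

namespace RC

/-- window of the saddle point: hinge `xs + i T`, ring variable `-s + i ρ` -/
structure RWp where
  x0 : ℝ
  x1 : ℝ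
  t0 : ℝ
  t1 : ℝ
  s0 : ℝ
  s1 : ℝ
  r0 : ℝ
  r1 : ℝ
  /-- `xs + s ≤ c1` -/
  c1 : ℝ
  /-- `xs + s ≤ cr + ρ` -/
  cr : ℝ
  /-- `q0 ≤ ρ - T ≤ q1` -/
  q0 : ℝ
  q1 : ℝ
  /-- `ρ - T + A s ≤ C` -/
  A : ℝ
  C : ℝ

/-- the saddle point is in the window -/
structure RWp.In (W : RWp) (xs s T ρ : ℝ) : Prop where
  x0 : W.x0 ≤ xs
  x1 : xs ≤ W.x1
  t0 : W.t0 ≤ T
  t1 : T ≤ W.t1
  s0 : W.s0 ≤ s
  s1 : s ≤ W.s1
  pos : 0 < ρ
  r0 : W.r0 ≤ ρ
  r1 : ρ ≤ W.r1
  c1 : xs + s ≤ W.c1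
  cr : xs + s ≤ W.cr + ρ
  q0 : W.q0 ≤ ρ - T
  q1 : ρ - T ≤ W.q1
  qs : ρ - T + W.A * s ≤ W.C

/-- row of an interior ring with `b` crossings: mixture `lam`, line `α - β m`, window `W`, flat part
`[cl, cp]` of the hinge -/
def RowI (W : RWp) (b lam α β cl cp : ℝ) : Prop :=
  ∀ xs s T ρ, W.In xs s T ρ → RampOK lam α β b xs (1 / 2 - s) T ρ cl cp

/-- row of a ring at an end -/
def RowE (W : RWp) (b cl cp : ℝ) : Prop :=
  ∀ xs s T ρ, W.In xs s T ρ → Dx xs (1 / 2 - s) T ρ = 2 * π * b * ρ →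
    RampOK1 b xs (1 / 2 - s) T ρ cl cp

/-- the window of a hinge without `s` and `ρ`: neighbour of class `1`, `2`, `2` at an end, `3`, `3`
at an end, ring with the other sign, ring with the same sign -/
noncomputable def wOne (s0 s1 r0 r1 : ℝ) : RWp :=
  ⟨214 / 1000, 298 / 1000, -(158 / 1000), -(38 / 1000), s0, s1, r0, r1, 1, 1, 0, 1, 0, 1⟩
noncomputable def wTwo (s0 s1 r0 r1 : ℝ) : RWp :=
  ⟨186 / 1000, 252 / 1000, -(96 / 1000), -(10 / 1000), s0, s1, r0, r1, 4495 / 10000, 1, 0, 14 / 100,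
    13 / 10, 398 / 1000⟩
noncomputable def wTwoE (s0 s1 r0 r1 : ℝ) : RWp :=
  ⟨164 / 1000, 186 / 1000, -(131 / 1000), -(88 / 1000), s0, s1, r0, r1, 374 / 1000, 1, 0, 168 / 1000,
    105 / 100, 352 / 1000⟩
noncomputable def wThree (s0 s1 r0 r1 : ℝ) : RWp :=
  ⟨188 / 1000, 234 / 1000, -(57 / 1000), 1 / 1000, s0, s1, r0, r1, 4465 / 10000, 1, -1, 12 / 100,
    22 / 10, 59 / 100⟩
noncomputable def wThreeE (s0 s1 r0 r1 : ℝ) : RWp :=
  ⟨171 / 1000, 195 / 1000, -(58 / 1000), -(18 / 1000), s0, s1, r0, r1, 4465 / 10000, 1, 0, 12 / 100,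
    22 / 10, 59 / 100⟩
noncomputable def wRr (s0 s1 r0 r1 : ℝ) : RWp :=
  ⟨182 / 1000, 252 / 1000, -(385 / 10000), 385 / 10000, s0, s1, r0, r1, 4465 / 10000, 1, -1, 12 / 100,
    22 / 10, 59 / 100⟩
noncomputable def wRs (s0 s1 r0 r1 : ℝ) : RWp :=
  ⟨170 / 1000, 252 / 1000, -(1 / 1000), 465 / 10000, s0, s1, r0, r1, 4465 / 10000, 1, -1, 12 / 100,
    22 / 10, 59 / 100⟩
/-- next to a digit `1`, five crossings, inside / at an end -/
noncomputable def wOne5 (r0 r1 : ℝ) : RWp :=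
  ⟨2213 / 10000, 2942 / 10000, -(138 / 1000), -(38 / 1000), 127 / 1000, 1754 / 10000, r0, r1,
    4644 / 10000, 1, 891 / 10000, 1842 / 10000, 0, 1⟩
noncomputable def wOne5e (r0 r1 : ℝ) : RWp :=
  ⟨2166 / 10000, 2783 / 10000, -(138 / 1000), -(38 / 1000), 158 / 1000, 1842 / 10000, r0, r1,
    4580 / 10000, 1, 785 / 10000, 1521 / 10000, 0, 1⟩

/-! ### closed forms -/

/-- `YY` near the imaginary axis, above the real axis -/
theorem YY_mid {d s : ℝ} (hs : 0 < s) (h0 : -(1 / 2) < d) (h1 : d < 1 / 2) :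
    YY (lv d s) = Real.arctan (Real.sin (π * d) * Real.cosh (π * s) /
      (Real.cos (π * d) * Real.sinh (π * s))) - π / 2 := by
  have hc : 0 < Real.cos (π * d) := Real.cos_pos_of_mem_Ioo ⟨by nlinarith only [h0, pi_pos], by nlinarith only [h1, pi_pos]⟩
  have hsh : 0 < Real.sinh (π * s) := Real.sinh_pos_iff.2 (by positivity)
  have hch := Real.cosh_pos (π * s)
  rcases lt_trichotomy d 0 with h | h | h
  · have hsn : Real.sin (π * d) < 0 := Real.sin_neg_of_neg_of_neg_pi_lt (by nlinarith only [h, pi_pos]) (by nlinarith only [h0, pi_pos])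
    have e := YY_add_one (lv d s)
    rw [if_pos (by rw [lv_im]; exact hs)] at e
    have e2 : lv d s + 1 = lv (d + 1) s := by
      unfold lv
      push_cast
      ring
    rw [e2, YY_lv s (by linarith only [h0, h]) (by linarith only [h])] at e
    unfold lnB at e
    have e3 : Real.cos (π * (d + 1)) * Real.sinh (π * s) / (Real.sin (π * (d + 1)) * Real.cosh (π * s)) =
        (Real.sin (π * d) * Real.cosh (π * s) / (Real.cos (π * d) * Real.sinh (π * s)))⁻¹ := by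
      rw [mul_add, mul_one, Real.cos_add_pi, Real.sin_add_pi, inv_div]
      rw [neg_mul, neg_mul, neg_div_neg_eq]
    rw [e3, Real.arctan_inv_of_neg (by
      apply div_neg_of_neg_of_pos <;> nlinarith only [hsn, hch, hc, hsh, mul_pos hc hsh, mul_neg_of_neg_of_pos hsn hch])] at e
    linarith only [e]
  · rw [h]
    have e := MR.YY_it hs
    have : lv 0 s = (s : ℂ) * Complex.I := by unfold lv; simp
    rw [this, e]
    simp
  · have hsn : 0 < Real.sin (π * d) := Real.sin_pos_of_pos_of_lt_pi (by positivity) (by nlinarith only [h1, pi_pos])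
    rw [YY_lv s h (by linarith only [h1, h])]
    unfold lnB
    have e3 : Real.cos (π * d) * Real.sinh (π * s) / (Real.sin (π * d) * Real.cosh (π * s)) =
        (Real.sin (π * d) * Real.cosh (π * s) / (Real.cos (π * d) * Real.sinh (π * s)))⁻¹ := by
      rw [inv_div]
    rw [e3, Real.arctan_inv_of_pos (by positivity)]
    ring

theorem YY_nonpos_lv {d s : ℝ} (hs : 0 ≤ s) (h1 : d ≤ 1 / 2) : YY (lv d s) ≤ 0 := by
  rcases hs.eq_or_lt with hy | hy
  · rw [YY_zero (by rw [lv_im]; exact hy.symm)]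
  · rw [YY_pos (by rw [lv_im]; exact hy), lv_im, lv_re]
    linarith only [hy, h1, Tr_le_half hy h1]

theorem YY_le_half {d s : ℝ} (hs : 0 < s) (h0 : -(1 / 2) < d) (h1 : d ≤ 0) :
    YY (lv d s) ≤ -(π / 2) := by
  rw [YY_mid hs h0 (by linarith only [h1])]
  have hc : 0 < Real.cos (π * d) := Real.cos_pos_of_mem_Ioo ⟨by nlinarith only [h0, pi_pos], by nlinarith only [h1, pi_pos]⟩
  have hsh : 0 < Real.sinh (π * s) := Real.sinh_pos_iff.2 (by positivity)
  have hsn : Real.sin (π * d) ≤ 0 := Real.sin_nonpos_of_nonpos_of_neg_pi_le (by nlinarith only [h1, pi_pos]) (by nlinarith only [h0, pi_pos])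
  have : Real.arctan (Real.sin (π * d) * Real.cosh (π * s) /
      (Real.cos (π * d) * Real.sinh (π * s))) ≤ 0 := by
    rw [← Real.arctan_zero]
    apply Real.arctan_strictMono.monotone
    apply div_nonpos_of_nonpos_of_nonneg
    · exact mul_nonpos_of_nonpos_of_nonneg hsn (Real.cosh_pos _).le
    · positivity
  linarith only [this]

/-- the contribution of the hinge at the saddle point, upper bound -/
theorem Dx_le {xs s T ρ c : ℝ} (hx : 0 < xs) (hs : 0 ≤ s) (h1 : xs < 1 / 2) (hc : xs + s ≤ c) (hc2 : c < 1 / 2) :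
    Dx xs (1 / 2 - s) T ρ ≤ lnA (1 / 2) (T + ρ) - lnA (1 / 2 - c) (ρ - T) := by
  unfold Dx
  have e1 : LL (lv (xs + (1 / 2 - s)) (T + ρ)) ≤ lnA (1 / 2) (T + ρ) := by
    rw [LL_lv _ (by linarith only [hx, hc, hc2]) (by linarith only [hs, h1])]
    unfold lnA
    have hs1 : Real.sin (π * (xs + (1 / 2 - s))) ^ 2 ≤ Real.sin (π * (1 / 2)) ^ 2 := by
      rw [show π * (1 / 2) = π / 2 by ring, Real.sin_pi_div_two]
      nlinarith only [Real.sin_sq_le_one (π * (xs + (1 / 2 - s)))]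
    have hp : 0 < Real.sin (π * (xs + (1 / 2 - s))) :=
      Real.sin_pos_of_pos_of_lt_pi (by apply mul_pos pi_pos; linarith only [hx, hc, hc2]) (by nlinarith only [hs, h1, pi_pos])
    have : 0 < Real.sin (π * (xs + (1 / 2 - s))) ^ 2 := by positivity
    have h4 := Real.log_le_log (by positivity : 0 < 4 * (Real.sin (π * (xs + (1 / 2 - s))) ^ 2 + Real.sinh (π * (T + ρ)) ^ 2))
      (by linarith only [hs1] : 4 * (Real.sin (π * (xs + (1 / 2 - s))) ^ 2 + Real.sinh (π * (T + ρ)) ^ 2) ≤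
        4 * (Real.sin (π * (1 / 2)) ^ 2 + Real.sinh (π * (T + ρ)) ^ 2))
    linarith only [h4]
  have e2 : lnA (1 / 2 - c) (ρ - T) ≤ LL (lv (1 / 2 - s - xs) (T - ρ)) := by
    rw [← LL_lv_neg, neg_sub, LL_lv _ (by linarith only [hc, hc2]) (by linarith only [hx, hs, h1])]
    unfold lnA
    have hp : 0 < Real.sin (π * (1 / 2 - c)) :=
      Real.sin_pos_of_pos_of_lt_pi (by apply mul_pos pi_pos; linarith only [hc2]) (by nlinarith only [hx, hs, h1, hc, pi_pos])
    have hm : Real.sin (π * (1 / 2 - c)) ≤ Real.sin (π * (1 / 2 - s - xs)) :=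
      Real.sin_le_sin_of_le_of_le_pi_div_two (by nlinarith only [hx, h1, hc2, pi_pos]) (by nlinarith only [hx, hs, pi_pos])
        (by nlinarith only [hx, h1, hc, pi_pos])
    have hsq : Real.sin (π * (1 / 2 - c)) ^ 2 ≤ Real.sin (π * (1 / 2 - s - xs)) ^ 2 :=
      pow_le_pow_left₀ hp.le hm 2
    have : 0 < Real.sin (π * (1 / 2 - c)) ^ 2 := by positivity
    have h4 := Real.log_le_log (by positivity : 0 < 4 * (Real.sin (π * (1 / 2 - c)) ^ 2 + Real.sinh (π * (ρ - T)) ^ 2))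
      (by linarith only [hsq] : 4 * (Real.sin (π * (1 / 2 - c)) ^ 2 + Real.sinh (π * (ρ - T)) ^ 2) ≤
        4 * (Real.sin (π * (1 / 2 - s - xs)) ^ 2 + Real.sinh (π * (ρ - T)) ^ 2))
    linarith only [h4]
  linarith only [e1, e2]

end RC

end Pool.Agent.Work.MP_b30479_gt.G2
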