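import Pool.Agent.Work.MP_b30479_gt.G2.R4

/-!
# The complexified volume conjecture for two-bridge links all of whose digits are at least `4`
-/

namespace Pool.Agent.Work.MP_b30479_gt.G2

open Finset VOL Filter Topology
open Pool.Agent.Work.MP_b30479_gt.LT

lemma mg_id : ∀ (n : ℕ) (l : List ℤ), l.length ≤ n → (∀ x ∈ l, 2 ≤ x.natAbs) → mg l = l := by
  intro n
  induction n with
  | zero =>
    intro l hl _
    have : l = [] := List.length_eq_zero_iff.mp (by omega)
    subst this
    simp [mg]
  | succ n ih =>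
    intro l hl h
    match l, hl, h with
    | [], _, _ => simp [mg]
    | [x], _, _ => simp [mg]
    | [x, y], _, _ => simp [mg]
    | x :: y :: z :: r, hl, h =>
      have hy := h y (by simp)
      rw [mg_neg (by omega), ih (y :: z :: r) (by simp only [List.length_cons] at hl ⊢; omega)
        (fun u hu => h u (List.mem_cons_of_mem _ hu))]

theorem pub_r4 {M : ℕ} (a : Fin (M + 2) → ℕ) (h4 : ∀ i, 4 ≤ a i) :
    ∃ (p : Fin (M + 2) → ℂ) (q : Fin (M + 2) → ℕ → ℂ), Markoff a p q ∧ SWPos a p q ∧
      (∃ P Q, SWLog a p q P Q) ∧ 0 < swVolume a p q ∧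
      ∃ V : ℂ, V.re = swVolume a p q ∧
      (∀ P Q, SWLog a p q P Q → ∃ k : ℤ, V - swCV a p q P Q = Real.pi ^ 2 * Complex.I * k) ∧
      (∃ δ, IsOrientation (ltWord (List.ofFn (altf (M := M + 1) a))) δ) ∧
      ∀ δ, IsOrientation (ltWord (List.ofFn (altf (M := M + 1) a))) δ →
        (∀ᶠ s : ℕ in atTop, twoBridgeKashaev (ltWord (List.ofFn (altf (M := M + 1) a))) δ (2 * s + 1) ≠ 0) ∧
        Tendsto (fun s : ℕ => twoBridgeKashaev (ltWord (List.ofFn (altf (M := M + 1) a))) δ (2 * s + 3) /
          twoBridgeKashaev (ltWord (List.ofFn (altf (M := M + 1) a))) δ (2 * s + 1)) atTop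
          (𝓝 (Complex.exp (V / Real.pi))) ∧
        Tendsto (fun s : ℕ => Real.pi *
          Real.log ‖twoBridgeKashaev (ltWord (List.ofFn (altf (M := M + 1) a))) δ (2 * s + 3) /
            twoBridgeKashaev (ltWord (List.ofFn (altf (M := M + 1) a))) δ (2 * s + 1)‖) atTop
          (𝓝 (swVolume a p q)) := by
  refine pub_of a (fun K b hW hb0 hmg => ?_) (fun i => by have := h4 i; omega)
    (by have := h4 0; omega) (by have := h4 (Fin.last (M + 1)); omega)
  have hid : mg (List.ofFn (altf (M := M + 1) a)) = List.ofFn (altf (M := M + 1) a) := by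
    refine mg_id _ _ le_rfl fun x hx => ?_
    obtain ⟨i, rfl⟩ := (List.mem_ofFn' _ _).mp hx
    rw [altf_natAbs]
    have := h4 i
    omega
  rw [hid] at hmg
  have hlen := congrArg List.length hmg
  rw [List.length_ofFn, List.length_ofFn] at hlen
  obtain rfl : K = M := by omega
  obtain rfl := List.ofFn_injective hmg
  refine SR.hsad_r4 hW (fun i => by rw [altf_natAbs]; exact h4 i) fun h => ?_
  have h1 := h4 h.castSucc
  have h2 := h4 h.succ
  have e : altf (M := K + 1) a h.castSucc * altf (M := K + 1) a h.succ =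
      -((a h.castSucc : ℤ) * a h.succ) := by
    unfold altf
    rw [Fin.val_castSucc, Fin.val_succ]
    have : (-1 : ℤ) ^ (h : ℕ) * (-1) ^ (h : ℕ) = 1 := by rw [← mul_pow]; simp
    rw [pow_succ]
    linear_combination (-((a h.castSucc : ℤ) * a h.succ)) * this
  rw [e]
  have h3 : (0 : ℤ) < a h.castSucc := by exact_mod_cast (by omega : 0 < a h.castSucc)
  have h4' : (0 : ℤ) < a h.succ := by exact_mod_cast (by omega : 0 < a h.succ)
  nlinarith [mul_pos h3 h4']

end Pool.Agent.Work.MP_b30479_gt.G2
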