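import Pool.Agent.Work.MP_b30479_gt.G2.MRX
import Pool.Agent.Work.MP_b30479_gt.G2.RLevT
import Pool.Agent.Work.MP_b30479_gt.G2.Hess
import Pool.Agent.Work.NumI.ChkS

/-!
# The hinge `3e | Z` on its right ramp, ring side

Path of the hinge: `w = x - i m (60/100 - x)`, `0 ≤ m ≤ 171/1000`; path of the ring variable:
`ζ = LT.zt ρ σ`, `-1/2 < σ ≤ 0`, `0 < ρ ≤ 1045/10000`.

* `rc1`: `26/100 ≤ x ≤ 28/100`: `S4 m w ζ ≤ 10/100`;
* `rc1'`: `28/100 ≤ x ≤ 1/2`: `S4 m w ζ < 0`;
* `rc2`: `32/100 ≤ x ≤ 60/100`: `S4 m w ζ + π m ≤ 4/100`.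
-/

set_option linter.unusedSimpArgs false

namespace Pool.Agent.Work.MP_b30479_gt.G2

open VOL NumI

namespace RC3e

/-! ### values at the two points of the ring -/

section
variable {w ζ : ℂ} {σ η : ℝ}

theorem u_re (hζ : ζ = σ + η * Complex.I) : (w + 1 / 2 + ζ).re = w.re + 1 / 2 + σ := by
  rw [hζ]; simp

theorem u_im (hζ : ζ = σ + η * Complex.I) : (w + 1 / 2 + ζ).im = w.im + η := by
  rw [hζ]; simp

theorem v_re (hζ : ζ = σ + η * Complex.I) : (w + 1 / 2 - ζ).re = w.re + 1 / 2 - σ := by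
  rw [hζ]; simp

theorem v_im (hζ : ζ = σ + η * Complex.I) : (w + 1 / 2 - ζ).im = w.im - η := by
  rw [hζ]; simp

theorem LL_u (hζ : ζ = σ + η * Complex.I) : LL (w + 1 / 2 + ζ) =
    Real.log (2 * (Real.cosh (2 * Real.pi * (w.im + η)) + Real.cos (2 * Real.pi * (w.re + σ)))) / 2 := by
  rw [LL_eq', u_re hζ, u_im hζ,
    show 2 * Real.pi * (w.re + 1 / 2 + σ) = 2 * Real.pi * (w.re + σ) + Real.pi by ring,
    Real.cos_add_pi]
  congr 2
  ring

theorem LL_v (hζ : ζ = σ + η * Complex.I) : LL (w + 1 / 2 - ζ) =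
    Real.log (2 * (Real.cosh (2 * Real.pi * (w.im - η)) + Real.cos (2 * Real.pi * (w.re - σ)))) / 2 := by
  rw [LL_eq', v_re hζ, v_im hζ,
    show 2 * Real.pi * (w.re + 1 / 2 - σ) = 2 * Real.pi * (w.re - σ) + Real.pi by ring,
    Real.cos_add_pi]
  congr 2
  ring

/-- the horizontal part of the side -/
theorem LL_part_le {K c : ℝ} (hζ : ζ = σ + η * Complex.I) (hK : 0 < K) (hc : Real.log K = 2 * c)
    (hA : 0 < Real.cosh (2 * Real.pi * (w.im + η)) + Real.cos (2 * Real.pi * (w.re + σ)))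
    (hB : 0 < Real.cosh (2 * Real.pi * (w.im - η)) + Real.cos (2 * Real.pi * (w.re - σ)))
    (hC : 0 < Real.cosh (2 * Real.pi * w.im) - Real.cos (2 * Real.pi * w.re))
    (h : (Real.cosh (2 * Real.pi * (w.im + η)) + Real.cos (2 * Real.pi * (w.re + σ))) *
      (Real.cosh (2 * Real.pi * (w.im - η)) + Real.cos (2 * Real.pi * (w.re - σ))) ≤
      K * (Real.cosh (2 * Real.pi * w.im) - Real.cos (2 * Real.pi * w.re)) ^ 2) :
    LL (w + 1 / 2 + ζ) + LL (w + 1 / 2 - ζ) - 2 * LL w ≤ c := by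
  rw [LL_u hζ, LL_v hζ, LL_eq' w,
    show 2 * Real.cosh (2 * Real.pi * w.im) - 2 * Real.cos (2 * Real.pi * w.re) =
      2 * (Real.cosh (2 * Real.pi * w.im) - Real.cos (2 * Real.pi * w.re)) by ring]
  generalize Real.cosh (2 * Real.pi * (w.im + η)) + Real.cos (2 * Real.pi * (w.re + σ)) = A at *
  generalize Real.cosh (2 * Real.pi * (w.im - η)) + Real.cos (2 * Real.pi * (w.re - σ)) = B at *
  generalize Real.cosh (2 * Real.pi * w.im) - Real.cos (2 * Real.pi * w.re) = C at *
  have h1 : Real.log (2 * A) + Real.log (2 * B) ≤ 2 * c + 2 * Real.log (2 * C) := by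
    have e1 : Real.log (2 * A) + Real.log (2 * B) = Real.log (2 * A * (2 * B)) :=
      (Real.log_mul (by positivity) (by positivity)).symm
    have e2 : 2 * c + 2 * Real.log (2 * C) = Real.log (K * (2 * C) ^ 2) := by
      rw [Real.log_mul hK.ne' (by positivity), Real.log_pow, hc]
      norm_num
    rw [e1, e2]
    apply Real.log_le_log (by positivity)
    nlinarith only [h]
  linarith only [h1]

end

/-- the vertical derivative to the left and to the right of `Re v = 1`, `Im v < 0` -/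
theorem YY_right {v : ℂ} (h1 : 1 / 2 < v.re) (h2 : v.re < 3 / 2) (h : v.im < 0) :
    YY v = -(Real.pi / 2) + Real.arctan (Real.sin (Real.pi * (1 - v.re)) *
      Real.cosh (Real.pi * -v.im) * (Real.cos (Real.pi * (1 - v.re)) *
        Real.sinh (Real.pi * -v.im))⁻¹) := by
  have hp := Real.pi_pos
  set a := 1 - v.re with ha
  set s := -v.im with hs
  have hs0 : 0 < s := by linarith only [h]
  have hc : 0 < Real.cos (Real.pi * a) := by
    apply Real.cos_pos_of_mem_Ioo
    constructor <;> nlinarith only [h2, hp, h1]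
  have hsh : 0 < Real.sinh (Real.pi * s) := by
    rw [Real.sinh_pos_iff]
    positivity
  have hch : 0 < Real.cosh (Real.pi * s) := Real.cosh_pos _
  rcases lt_trichotomy a 0 with h3 | h3 | h3
  · have hsa : Real.sin (Real.pi * a) < 0 := by
      apply Real.sin_neg_of_neg_of_neg_pi_lt <;> nlinarith only [hp, h3, h2]
    have e := YY_add_one (v - 1)
    rw [sub_add_cancel] at e
    have r1 : (v - 1).re = -a := by simp [ha]
    have r2 : (v - 1).im = -s := by simp [hs]
    rw [e, r2, if_neg (by linarith only [h]), if_pos (by linarith only [h]),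
      Num.YY_lnB ⟨by rw [r1]; linarith only [h3], by rw [r1]; linarith only [h2, h3]⟩, r1, r2]
    have hy : Real.sin (Real.pi * a) * Real.cosh (Real.pi * s) *
        (Real.cos (Real.pi * a) * Real.sinh (Real.pi * s))⁻¹ < 0 :=
      mul_neg_of_neg_of_pos (mul_neg_of_neg_of_pos hsa hch) (by positivity)
    have h4 := Real.arctan_inv_of_neg hy
    have e5 : lnB (-a) (-s) = Real.arctan ((Real.sin (Real.pi * a) * Real.cosh (Real.pi * s) *
        (Real.cos (Real.pi * a) * Real.sinh (Real.pi * s))⁻¹)⁻¹) := by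
      unfold lnB
      congr 1
      rw [mul_neg, mul_neg, Real.cos_neg, Real.sin_neg, Real.sinh_neg, Real.cosh_neg, mul_inv,
        inv_inv, div_eq_mul_inv, ← neg_mul_eq_neg_mul, ← neg_mul_eq_mul_neg, inv_neg, neg_mul_neg,
        mul_comm]
    rw [e5, h4]
    ring
  · have e1 : v = ((starRingEnd ℂ) (((s : ℝ) : ℂ) * Complex.I)) + 1 := by
      apply Complex.ext
      · simp
        linarith only [h3]
      · simp [hs]
    rw [h3, mul_zero, Real.sin_zero, zero_mul, zero_mul, Real.arctan_zero, add_zero, e1, YY_add_one,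
      YY_conj, MR.YY_it hs0]
    have i1 : ((starRingEnd ℂ) (((s : ℝ) : ℂ) * Complex.I)).im = -s := by simp
    rw [i1, if_neg (by linarith only [h]), if_pos (by linarith only [h])]
    ring
  · have hsa : 0 < Real.sin (Real.pi * a) := by
      apply Real.sin_pos_of_pos_of_lt_pi <;> nlinarith only [hp, h3, h1]
    rw [Num.YY_lnB ⟨by linarith only [h1, h3], by linarith only [h3]⟩]
    have hy : 0 < Real.sin (Real.pi * a) * Real.cosh (Real.pi * s) *
        (Real.cos (Real.pi * a) * Real.sinh (Real.pi * s))⁻¹ := by positivity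
    have h4 := Real.arctan_inv_of_pos hy
    have e5 : lnB v.re v.im = Real.arctan ((Real.sin (Real.pi * a) * Real.cosh (Real.pi * s) *
        (Real.cos (Real.pi * a) * Real.sinh (Real.pi * s))⁻¹)⁻¹) := by
      unfold lnB
      congr 1
      rw [show v.re = 1 - a by rw [ha]; ring, show v.im = -s by rw [hs]; ring, mul_sub, mul_one,
        Real.cos_pi_sub, Real.sin_pi_sub, mul_neg, Real.sinh_neg, Real.cosh_neg, mul_inv,
        inv_inv, div_eq_mul_inv, neg_mul_neg, mul_comm]
    rw [e5, h4]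
    ring

/-- the vertical derivative is `≤ 0` to the right of `1/2`, `Im v < 0` -/
theorem YY_nonpos {v : ℂ} (h1 : 1 / 2 ≤ v.re) (h : v.im < 0) : YY v ≤ 0 := by
  rw [YY_neg h]
  linarith only [h, h1, half_le_Tr (s := -v.im) (x := v.re) (by linarith only [h]) h1]

/-- `LL v` by `sin` and `sinh` -/
theorem LL_sq (v : ℂ) : LL v = 1 / 2 * Real.log (4 * (Real.sin (Real.pi * (1 - v.re)) ^ 2 +
    Real.sinh (Real.pi * -v.im) ^ 2)) := by
  rw [LL_eq']
  have e1 : Real.cosh (2 * Real.pi * v.im) = 1 + 2 * Real.sinh (Real.pi * -v.im) ^ 2 := by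
    rw [show 2 * Real.pi * v.im = 2 * (Real.pi * v.im) by ring, Real.cosh_two_mul, Real.cosh_sq,
      mul_neg, Real.sinh_neg]
    ring
  have e2 : Real.cos (2 * Real.pi * v.re) = 1 - 2 * Real.sin (Real.pi * (1 - v.re)) ^ 2 := by
    rw [show 2 * Real.pi * v.re = 2 * (Real.pi * v.re) by ring, Real.cos_two_mul, Real.cos_sq',
      show Real.pi * (1 - v.re) = Real.pi - Real.pi * v.re by ring, Real.sin_pi_sub]
    ring
  rw [e1, e2, show 2 * (1 + 2 * Real.sinh (Real.pi * -v.im) ^ 2) -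
    2 * (1 - 2 * Real.sin (Real.pi * (1 - v.re)) ^ 2) = 4 * (Real.sin (Real.pi * (1 - v.re)) ^ 2 +
    Real.sinh (Real.pi * -v.im) ^ 2) by ring]
  ring

theorem LL_le_lin {v : ℂ} (h : v.im < 0) : LL v ≤ 1 / 2 * (4 * (Real.sin (Real.pi * (1 - v.re)) ^ 2 +
    Real.sinh (Real.pi * -v.im) ^ 2) - 1) := by
  rw [LL_sq]
  have hp := Real.pi_pos
  have h1 : 0 < Real.sinh (Real.pi * -v.im) := by
    rw [Real.sinh_pos_iff]
    have : 0 < -v.im := by linarith only [h]
    positivity
  have := Real.log_le_sub_one_of_pos (x := 4 * (Real.sin (Real.pi * (1 - v.re)) ^ 2 +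
    Real.sinh (Real.pi * -v.im) ^ 2)) (by positivity)
  linarith only [this]

/-! ### numbers -/

section
open E

/-- height on the ramp, variables `x m` -/
def tE : E := neg (mul (var 1) (sub (q 6 10) (var 0)))
def pi2 : E := mul (q 2 1) pi
def kE : E := mul (exp (q 2 10)) (sq (sub (cosh (mul pi2 tE)) (cosPi (mul (q 2 1) (var 0)))))

/-- flat part, `[26/100, 28/100]`, variables `x m σ η` -/
def gF : E := sub kE
  (mul (add (cosh (mul pi2 (add tE (var 3)))) (cosPi (mul (q 2 1) (add (var 0) (var 2)))))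
    (add (cosh (mul pi2 (sub tE (var 3)))) (cosPi (mul (q 2 1) (sub (var 0) (var 2))))))

/-- ramp, variables `x m s η` -/
def gR : E := sub kE
  (mul (sub (cosh (mul pi2 (add tE (var 3)))) (cosPi (mul (q 2 1) (add (var 0) (var 2)))))
    (sub (cosh (mul pi2 (sub tE (var 3)))) (cosPi (mul (q 2 1) (sub (var 0) (var 2))))))
def cR : E := sub (var 3) (mul (q 418 1000) (var 2))

/-- ramp, `[32/100, 60/100]` -/
def rR : E := sub (q 4 100) (add (sub (add (lnA (add (var 0) (var 2)) (add tE (var 3)))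
  (lnA (sub (var 0) (var 2)) (sub tE (var 3)))) (mul (q 2 1) (lnA (var 0) tE)))
  (mul (var 1) (sub (sub (mul (q 2 1) (lnB (var 0) tE)) (lnB (add (var 0) (var 2)) (add tE (var 3))))
    (lnB (sub (var 0) (var 2)) (sub tE (var 3))))))

/-- `1 - Re v`, `-Im v`, `4 (sin^2 + sinh^2)` -/
def aE : E := add (sub (q 1 2) (var 0)) (var 2)
def sE : E := sub (var 3) tE
def yE : E := mul (q 4 1) (add (sq (sinPi aE)) (sq (sinh (mul pi sE))))
def uE : E := add (add (var 0) (q 1 2)) (var 2)

/-- bounds of `LL v` -/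
def lg : E := mul (q 1 2) (log yE)
def ln : E := mul (q 1 2) (sub yE (q 1 1))

/-- bounds of `YY v` -/
def yA : E := sub (atan (mul (mul (sinPi aE) (cosh (mul pi sE)))
  (inv (mul (cosPi aE) (sinh (mul pi sE)))))) (mul (q 1 2) pi)
def y0 : E := q 0 1
def yB : E := neg (mul (q 1 2) pi)

/-- `l` bounds `LL v`, `y` bounds `YY v`, zone `x + σ ≤ 4/10` -/
def a1 (l y : E) : E := sub (q 4 100) (add (sub (add (lnA uE (add tE (var 3))) l)
  (mul (q 2 1) (lnA (var 0) tE))) (mul (var 1) (add (sub (add pi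
    (mul (q 2 1) (lnB (var 0) tE))) (lnB uE (add tE (var 3)))) y)))

/-- the same with `LL u ≤ 0`, `YY u ≤ (r - 1) π` -/
def a2 (r l y : E) : E := sub (q 4 100) (add (sub l
  (mul (q 2 1) (lnA (var 0) tE))) (mul (var 1) (add (add (mul r pi)
    (mul (q 2 1) (lnB (var 0) tE))) y)))

/-- `n / d ≤ x + σ` resp. `x + σ ≤ n / d` as alternatives -/
def xge (n : ℤ) (d : ℕ) : E := sub (add (var 0) (var 2)) (q n d)
def xle (n : ℤ) (d : ℕ) : E := sub (q n d) (add (var 0) (var 2))

end

section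
variable {x m σ s η : ℝ}

theorem num_flat (h1 : 26 / 100 ≤ x) (h1' : x ≤ 28 / 100) (h2 : 0 ≤ m) (h2' : m ≤ 171 / 1000)
    (h3 : -(1 / 4) ≤ σ) (h3' : σ ≤ 0) (h4 : 0 ≤ η) (h4' : η ≤ 1045 / 10000) :
    (Real.cosh (2 * Real.pi * (-(m * (60 / 100 - x)) + η)) + Real.cos (2 * Real.pi * (x + σ))) *
      (Real.cosh (2 * Real.pi * (-(m * (60 / 100 - x)) - η)) + Real.cos (2 * Real.pi * (x - σ))) ≤
      Real.exp (2 / 10) * (Real.cosh (2 * Real.pi * -(m * (60 / 100 - x))) -
        Real.cos (2 * Real.pi * x)) ^ 2 := by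
  have g : chk [gF] 40 [V.of 10000 2600 2800, V.of 10000 0 1710, V.of 10000 (-2500) 0,
    V.of 10000 0 1045] = true := by decide +kernel
  have h := pos_of_chk (chk4 g (by norm_num) (x := x) (y := m) (z := σ) (w := η)
    (le_trans (by norm_num) h1) (le_trans h1' (by norm_num)) (le_trans (by norm_num) h2)
    (le_trans h2' (by norm_num)) (le_trans (by norm_num) h3) (le_trans h3' (by norm_num))
    (le_trans (by norm_num) h4) (le_trans h4' (by norm_num)))
  simp only [gF, kE, pi2, tE, E.val, lkR_zero, lkR_one, lkR_succ] at h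
  simp only [Int.cast_ofNat, Nat.cast_ofNat, Int.cast_one, Nat.cast_one, div_one] at h
  rw [show 2 * Real.pi * x = Real.pi * (2 * x) by ring,
    show 2 * Real.pi * (x + σ) = Real.pi * (2 * (x + σ)) by ring,
    show 2 * Real.pi * (x - σ) = Real.pi * (2 * (x - σ)) by ring,
    show (60 : ℝ) / 100 = 6 / 10 by norm_num]
  linarith only [h]

theorem num_ramp (h1 : 26 / 100 ≤ x) (h1' : x ≤ 28 / 100) (h2 : 0 ≤ m) (h2' : m ≤ 171 / 1000)
    (h3 : 0 ≤ s) (h3' : s ≤ 1 / 4) (h4 : 0 ≤ η) (h4' : η ≤ 418 / 1000 * s) :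
    (Real.cosh (2 * Real.pi * (-(m * (60 / 100 - x)) + η)) - Real.cos (2 * Real.pi * (x + s))) *
      (Real.cosh (2 * Real.pi * (-(m * (60 / 100 - x)) - η)) - Real.cos (2 * Real.pi * (x - s))) ≤
      Real.exp (2 / 10) * (Real.cosh (2 * Real.pi * -(m * (60 / 100 - x))) -
        Real.cos (2 * Real.pi * x)) ^ 2 := by
  have g : chk [gR, cR] 40 [V.of 10000 2600 2800, V.of 10000 0 1710, V.of 10000 0 2500,
    V.of 10000 0 1045] = true := by decide +kernel
  obtain ⟨f, hf, h⟩ := chk4 g (by norm_num) (x := x) (y := m) (z := s) (w := η)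
    (le_trans (by norm_num) h1) (le_trans h1' (by norm_num)) (le_trans (by norm_num) h2)
    (le_trans h2' (by norm_num)) (le_trans (by norm_num) h3) (le_trans h3' (by norm_num))
    (le_trans (by norm_num) h4) (by norm_num; linarith only [h3', h4'])
  simp only [List.mem_cons, List.not_mem_nil, or_false] at hf
  rcases hf with rfl | rfl
  · simp only [gR, kE, pi2, tE, E.val, lkR_zero, lkR_one, lkR_succ] at h
    simp only [Int.cast_ofNat, Nat.cast_ofNat, Int.cast_one, Nat.cast_one, div_one] at h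
    rw [show 2 * Real.pi * x = Real.pi * (2 * x) by ring,
      show 2 * Real.pi * (x + s) = Real.pi * (2 * (x + s)) by ring,
      show 2 * Real.pi * (x - s) = Real.pi * (2 * (x - s)) by ring,
      show (60 : ℝ) / 100 = 6 / 10 by norm_num]
    linarith only [h]
  · simp only [cR, E.val, lkR_zero, lkR_one, lkR_succ] at h
    push_cast at h
    linarith only [h4', h]

theorem num_ramp2_h1_q1 : chk [rR, cR] 37
    (NumI.setL 2 (NumI.setL 2 (NumI.setL 0 [V.of 10000 3200 6000, V.of 10000 0 1710, V.of 10000 0 2500,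
    V.of 10000 0 1045]))) = true := by
  decide +kernel

theorem num_ramp2_h1_q2 : chk [rR, cR] 36
    (NumI.setL 3 (NumI.setR 2 (NumI.setL 2 (NumI.setL 0 [V.of 10000 3200 6000, V.of 10000 0 1710, V.of 10000 0 2500,
    V.of 10000 0 1045])))) = true := by
  decide +kernel

theorem num_ramp2_h1_q3 : chk [rR, cR] 36
    (NumI.setR 3 (NumI.setR 2 (NumI.setL 2 (NumI.setL 0 [V.of 10000 3200 6000, V.of 10000 0 1710, V.of 10000 0 2500,
    V.of 10000 0 1045])))) = true := by
  decide +kernel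

theorem num_ramp2_h1_q4 : chk [rR, cR] 37
    (NumI.setL 2 (NumI.setR 2 (NumI.setL 0 [V.of 10000 3200 6000, V.of 10000 0 1710, V.of 10000 0 2500,
    V.of 10000 0 1045]))) = true := by
  decide +kernel

theorem num_ramp2_h1_q5 : chk [rR, cR] 36
    (NumI.setL 3 (NumI.setR 2 (NumI.setR 2 (NumI.setL 0 [V.of 10000 3200 6000, V.of 10000 0 1710, V.of 10000 0 2500,
    V.of 10000 0 1045])))) = true := by
  decide +kernel

theorem num_ramp2_h1_q6 : chk [rR, cR] 36
    (NumI.setR 3 (NumI.setR 2 (NumI.setR 2 (NumI.setL 0 [V.of 10000 3200 6000, V.of 10000 0 1710, V.of 10000 0 2500,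
    V.of 10000 0 1045])))) = true := by
  decide +kernel

theorem num_ramp2_h1_q7 : chk [rR, cR] 37
    (NumI.setL 2 (NumI.setL 2 (NumI.setR 0 [V.of 10000 3200 6000, V.of 10000 0 1710, V.of 10000 0 2500,
    V.of 10000 0 1045]))) = true := by
  decide +kernel

theorem num_ramp2_h1_q8 : chk [rR, cR] 37
    (NumI.setR 2 (NumI.setL 2 (NumI.setR 0 [V.of 10000 3200 6000, V.of 10000 0 1710, V.of 10000 0 2500,
    V.of 10000 0 1045]))) = true := by
  decide +kernel

theorem num_ramp2_h1_q9 : chk [rR, cR] 38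
    (NumI.setR 2 (NumI.setR 0 [V.of 10000 3200 6000, V.of 10000 0 1710, V.of 10000 0 2500,
    V.of 10000 0 1045])) = true := by
  decide +kernel

theorem num_ramp2_h1 : chk [rR, cR] 40
    [V.of 10000 3200 6000, V.of 10000 0 1710, V.of 10000 0 2500,
    V.of 10000 0 1045] = true :=
  NumI.chk_node (i := 0) (by decide +kernel)
    (NumI.chk_node (i := 2) (by decide +kernel)
      (NumI.chk_node (i := 2) (by decide +kernel)
        num_ramp2_h1_q1
        (NumI.chk_node (i := 3) (by decide +kernel)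
          num_ramp2_h1_q2
          num_ramp2_h1_q3))
      (NumI.chk_node (i := 2) (by decide +kernel)
        num_ramp2_h1_q4
        (NumI.chk_node (i := 3) (by decide +kernel)
          num_ramp2_h1_q5
          num_ramp2_h1_q6)))
    (NumI.chk_node (i := 2) (by decide +kernel)
      (NumI.chk_node (i := 2) (by decide +kernel)
        num_ramp2_h1_q7
        num_ramp2_h1_q8)
      num_ramp2_h1_q9)

theorem num_ramp2 (h1 : 32 / 100 ≤ x) (h1' : x ≤ 60 / 100) (h2 : 0 ≤ m) (h2' : m ≤ 171 / 1000)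
    (h3 : 0 ≤ s) (h3' : s ≤ 1 / 4) (h4 : 0 ≤ η) (h4' : η ≤ 418 / 1000 * s) :
    lnA (x + s) (-(m * (60 / 100 - x)) + η) + lnA (x - s) (-(m * (60 / 100 - x)) - η) -
      2 * lnA x (-(m * (60 / 100 - x))) + m * (2 * lnB x (-(m * (60 / 100 - x))) -
        lnB (x + s) (-(m * (60 / 100 - x)) + η) - lnB (x - s) (-(m * (60 / 100 - x)) - η)) ≤
      4 / 100 := by
  have g : chk [rR, cR] 40 [V.of 10000 3200 6000, V.of 10000 0 1710, V.of 10000 0 2500,
    V.of 10000 0 1045] = true := num_ramp2_h1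
  obtain ⟨f, hf, h⟩ := chk4 g (by norm_num) (x := x) (y := m) (z := s) (w := η)
    (le_trans (by norm_num) h1) (le_trans h1' (by norm_num)) (le_trans (by norm_num) h2)
    (le_trans h2' (by norm_num)) (le_trans (by norm_num) h3) (le_trans h3' (by norm_num))
    (le_trans (by norm_num) h4) (by norm_num; linarith only [h3', h4'])
  simp only [List.mem_cons, List.not_mem_nil, or_false] at hf
  rcases hf with rfl | rfl
  · simp only [rR, tE, E.val, lkR_zero, lkR_one, lkR_succ] at h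
    simp only [Int.cast_ofNat, Nat.cast_ofNat, Int.cast_one, Nat.cast_one, div_one] at h
    rw [show (60 : ℝ) / 100 = 6 / 10 by norm_num]
    linarith only [h]
  · simp only [cR, E.val, lkR_zero, lkR_one, lkR_succ] at h
    push_cast at h
    linarith only [h4', h]

/-- the value of `lg` -/
noncomputable def Lg (a s : ℝ) : ℝ :=
  1 / 2 * Real.log (4 * (Real.sin (Real.pi * a) ^ 2 + Real.sinh (Real.pi * s) ^ 2))

/-- the value of `ln` -/
noncomputable def Ln (a s : ℝ) : ℝ :=
  1 / 2 * (4 * (Real.sin (Real.pi * a) ^ 2 + Real.sinh (Real.pi * s) ^ 2) - 1)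

/-- the value of `yA` -/
noncomputable def Ya (a s : ℝ) : ℝ := Real.arctan (Real.sin (Real.pi * a) *
  Real.cosh (Real.pi * s) * (Real.cos (Real.pi * a) * Real.sinh (Real.pi * s))⁻¹) - 1 / 2 * Real.pi

theorem lg_val : E.val lg [x, m, σ, η] = Lg (1 / 2 - x + σ) (η - -(m * (60 / 100 - x))) := by
  simp only [lg, yE, aE, sE, tE, E.val, lkR_zero, lkR_one, lkR_succ, Lg]
  simp only [Int.cast_ofNat, Nat.cast_ofNat, Int.cast_one, Nat.cast_one, div_one]
  norm_num

theorem ln_val : E.val ln [x, m, σ, η] = Ln (1 / 2 - x + σ) (η - -(m * (60 / 100 - x))) := by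
  simp only [ln, yE, aE, sE, tE, E.val, lkR_zero, lkR_one, lkR_succ, Ln]
  simp only [Int.cast_ofNat, Nat.cast_ofNat, Int.cast_one, Nat.cast_one, div_one]
  norm_num

theorem yA_val : E.val yA [x, m, σ, η] = Ya (1 / 2 - x + σ) (η - -(m * (60 / 100 - x))) := by
  simp only [yA, aE, sE, tE, E.val, lkR_zero, lkR_one, lkR_succ, Ya]
  simp only [Int.cast_ofNat, Nat.cast_ofNat, Int.cast_one, Nat.cast_one, div_one]
  norm_num

theorem a1_val (l y : E) : E.val (a1 l y) [x, m, σ, η] = 4 / 100 -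
    (lnA (x + 1 / 2 + σ) (-(m * (60 / 100 - x)) + η) + E.val l [x, m, σ, η] -
      2 * lnA x (-(m * (60 / 100 - x))) + m * (Real.pi + 2 * lnB x (-(m * (60 / 100 - x))) -
        lnB (x + 1 / 2 + σ) (-(m * (60 / 100 - x)) + η) + E.val y [x, m, σ, η])) := by
  simp only [a1, uE, tE, E.val, lkR_zero, lkR_one, lkR_succ]
  simp only [Int.cast_ofNat, Nat.cast_ofNat, Int.cast_one, Nat.cast_one, div_one]
  rw [show (60 : ℝ) / 100 = 6 / 10 by norm_num]

theorem a2_val (n : ℤ) (d : ℕ) (l y : E) : E.val (a2 (E.q n d) l y) [x, m, σ, η] = 4 / 100 -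
    (E.val l [x, m, σ, η] - 2 * lnA x (-(m * (60 / 100 - x))) +
      m * ((n : ℝ) / d * Real.pi + 2 * lnB x (-(m * (60 / 100 - x))) + E.val y [x, m, σ, η])) := by
  simp only [a2, tE, E.val, lkR_zero, lkR_one, lkR_succ]
  simp only [Int.cast_ofNat, Nat.cast_ofNat, Int.cast_one, Nat.cast_one, div_one]
  rw [show (60 : ℝ) / 100 = 6 / 10 by norm_num]

theorem y0_val : E.val y0 [x, m, σ, η] = 0 := by
  simp only [y0, E.val]
  norm_num

theorem yB_val : E.val yB [x, m, σ, η] = -(1 / 2 * Real.pi) := by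
  simp only [yB, E.val]
  norm_num

variable {L Y : ℝ}

theorem num_F1a (h1 : 32 / 100 ≤ x) (h2 : 0 ≤ m) (h2' : m ≤ 171 / 1000) (h3' : σ ≤ 0)
    (h4 : 0 ≤ η) (h4' : η ≤ 1045 / 10000) (h5 : x + σ ≤ 4 / 10) (h6 : 0 ≤ 1 / 2 - x + σ)
    (hL1 : L ≤ Lg (1 / 2 - x + σ) (η - -(m * (60 / 100 - x))))
    (hL2 : L ≤ Ln (1 / 2 - x + σ) (η - -(m * (60 / 100 - x))))
    (hY1 : Y ≤ Ya (1 / 2 - x + σ) (η - -(m * (60 / 100 - x)))) (hY2 : Y ≤ 0) :
    lnA (x + 1 / 2 + σ) (-(m * (60 / 100 - x)) + η) + L - 2 * lnA x (-(m * (60 / 100 - x))) +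
      m * (Real.pi + 2 * lnB x (-(m * (60 / 100 - x))) -
        lnB (x + 1 / 2 + σ) (-(m * (60 / 100 - x)) + η) + Y) ≤ 4 / 100 := by
  have g : chk [a1 lg yA, a1 lg y0, a1 ln y0, xge 4 10, E.neg aE] 40 [V.of 10000 3200 5000,
    V.of 10000 0 1710, V.of 10000 (-1800) 0, V.of 10000 0 1045] = true := by decide +kernel
  obtain ⟨f, hf, h⟩ := chk4 g (by norm_num) (x := x) (y := m) (z := σ) (w := η)
    (le_trans (by norm_num) h1) (by norm_num; linarith only [h5, h6]) (le_trans (by norm_num) h2)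
    (le_trans h2' (by norm_num)) (by norm_num; linarith only [h1, h6]) (le_trans h3' (by norm_num))
    (le_trans (by norm_num) h4) (le_trans h4' (by norm_num))
  have k1 := mul_le_mul_of_nonneg_left hY1 h2
  have k2 := mul_le_mul_of_nonneg_left hY2 h2
  simp only [List.mem_cons, List.not_mem_nil, or_false] at hf
  rcases hf with rfl | rfl | rfl | rfl | rfl
  · rw [a1_val, lg_val, yA_val] at h
    linarith only [hL1, k1, h]
  · rw [a1_val, lg_val, y0_val] at h
    linarith only [hL1, k2, h]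
  · rw [a1_val, ln_val, y0_val] at h
    linarith only [hL2, k2, h]
  · simp only [xge, E.val, lkR_zero, lkR_one, lkR_succ] at h
    push_cast at h
    linarith only [h5, h]
  · simp only [aE, E.val, lkR_zero, lkR_one, lkR_succ] at h
    push_cast at h
    linarith only [h6, h]

theorem num_F1b_h1_q1 : chk [a1 lg yA, a1 lg yB, a1 ln yB, xge 4 10, aE] 39
    (NumI.setL 0 [V.of 10000 3200 6000,
    V.of 10000 0 1710, V.of 10000 (-2500) 0, V.of 10000 0 1045]) = true := by
  decide +kernel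

theorem num_F1b_h1_q2 : chk [a1 lg yA, a1 lg yB, a1 ln yB, xge 4 10, aE] 38
    (NumI.setL 2 (NumI.setR 0 [V.of 10000 3200 6000,
    V.of 10000 0 1710, V.of 10000 (-2500) 0, V.of 10000 0 1045])) = true := by
  decide +kernel

theorem num_F1b_h1_q3 : chk [a1 lg yA, a1 lg yB, a1 ln yB, xge 4 10, aE] 38
    (NumI.setR 2 (NumI.setR 0 [V.of 10000 3200 6000,
    V.of 10000 0 1710, V.of 10000 (-2500) 0, V.of 10000 0 1045])) = true := by
  decide +kernel

theorem num_F1b_h1 : chk [a1 lg yA, a1 lg yB, a1 ln yB, xge 4 10, aE] 40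
    [V.of 10000 3200 6000,
    V.of 10000 0 1710, V.of 10000 (-2500) 0, V.of 10000 0 1045] = true :=
  NumI.chk_node (i := 0) (by decide +kernel)
    num_F1b_h1_q1
    (NumI.chk_node (i := 2) (by decide +kernel)
      num_F1b_h1_q2
      num_F1b_h1_q3)

theorem num_F1b (h1 : 32 / 100 ≤ x) (h1' : x ≤ 60 / 100) (h2 : 0 ≤ m) (h2' : m ≤ 171 / 1000)
    (h3 : -(1 / 4) ≤ σ) (h3' : σ ≤ 0)
    (h4 : 0 ≤ η) (h4' : η ≤ 1045 / 10000) (h5 : x + σ ≤ 4 / 10) (h6 : 1 / 2 - x + σ ≤ 0)
    (hL1 : L ≤ Lg (1 / 2 - x + σ) (η - -(m * (60 / 100 - x))))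
    (hL2 : L ≤ Ln (1 / 2 - x + σ) (η - -(m * (60 / 100 - x))))
    (hY1 : Y ≤ Ya (1 / 2 - x + σ) (η - -(m * (60 / 100 - x)))) (hY2 : Y ≤ -(1 / 2 * Real.pi)) :
    lnA (x + 1 / 2 + σ) (-(m * (60 / 100 - x)) + η) + L - 2 * lnA x (-(m * (60 / 100 - x))) +
      m * (Real.pi + 2 * lnB x (-(m * (60 / 100 - x))) -
        lnB (x + 1 / 2 + σ) (-(m * (60 / 100 - x)) + η) + Y) ≤ 4 / 100 := by
  have g : chk [a1 lg yA, a1 lg yB, a1 ln yB, xge 4 10, aE] 40 [V.of 10000 3200 6000,
    V.of 10000 0 1710, V.of 10000 (-2500) 0, V.of 10000 0 1045] = true := num_F1b_h1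
  obtain ⟨f, hf, h⟩ := chk4 g (by norm_num) (x := x) (y := m) (z := σ) (w := η)
    (le_trans (by norm_num) h1) (le_trans h1' (by norm_num)) (le_trans (by norm_num) h2)
    (le_trans h2' (by norm_num)) (le_trans (by norm_num) h3) (le_trans h3' (by norm_num))
    (le_trans (by norm_num) h4) (le_trans h4' (by norm_num))
  have k1 := mul_le_mul_of_nonneg_left hY1 h2
  have k2 := mul_le_mul_of_nonneg_left hY2 h2
  simp only [List.mem_cons, List.not_mem_nil, or_false] at hf
  rcases hf with rfl | rfl | rfl | rfl | rfl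
  · rw [a1_val, lg_val, yA_val] at h
    linarith only [hL1, k1, h]
  · rw [a1_val, lg_val, yB_val] at h
    linarith only [hL1, k2, h]
  · rw [a1_val, ln_val, yB_val] at h
    linarith only [hL2, k2, h]
  · simp only [xge, E.val, lkR_zero, lkR_one, lkR_succ] at h
    push_cast at h
    linarith only [h5, h]
  · simp only [aE, E.val, lkR_zero, lkR_one, lkR_succ] at h
    push_cast at h
    linarith only [h6, h]

theorem num_F2a (h2 : 0 ≤ m) (h2' : m ≤ 171 / 1000) (h3' : σ ≤ 0)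
    (h4 : 0 ≤ η) (h4' : η ≤ 1045 / 10000) (h5 : 4 / 10 ≤ x + σ) (h6 : 0 ≤ 1 / 2 - x + σ)
    (hL1 : L ≤ Lg (1 / 2 - x + σ) (η - -(m * (60 / 100 - x))))
    (hL2 : L ≤ Ln (1 / 2 - x + σ) (η - -(m * (60 / 100 - x))))
    (hY1 : Y ≤ Ya (1 / 2 - x + σ) (η - -(m * (60 / 100 - x)))) (hY2 : Y ≤ 0) :
    L - 2 * lnA x (-(m * (60 / 100 - x))) +
      m * (3 / 2 * Real.pi + 2 * lnB x (-(m * (60 / 100 - x))) + Y) ≤ 4 / 100 := by
  have g : chk [a2 (E.q 3 2) lg yA, a2 (E.q 3 2) lg y0, a2 (E.q 3 2) ln y0] 40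
    [V.of 10000 4000 5000, V.of 10000 0 1710, V.of 10000 (-1000) 0, V.of 10000 0 1045] = true := by
    decide +kernel
  obtain ⟨f, hf, h⟩ := chk4 g (by norm_num) (x := x) (y := m) (z := σ) (w := η)
    (by norm_num; linarith only [h3', h5]) (by norm_num; linarith only [h3', h6]) (le_trans (by norm_num) h2)
    (le_trans h2' (by norm_num)) (by norm_num; linarith only [h5, h6]) (le_trans h3' (by norm_num))
    (le_trans (by norm_num) h4) (le_trans h4' (by norm_num))
  have k1 := mul_le_mul_of_nonneg_left hY1 h2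
  have k2 := mul_le_mul_of_nonneg_left hY2 h2
  simp only [List.mem_cons, List.not_mem_nil, or_false] at hf
  rcases hf with rfl | rfl | rfl
  · rw [a2_val, lg_val, yA_val] at h
    push_cast at h
    linarith only [hL1, k1, h]
  · rw [a2_val, lg_val, y0_val] at h
    push_cast at h
    linarith only [hL1, k2, h]
  · rw [a2_val, ln_val, y0_val] at h
    push_cast at h
    linarith only [hL2, k2, h]

theorem num_F2b (h1' : x ≤ 60 / 100) (h2 : 0 ≤ m) (h2' : m ≤ 171 / 1000) (h3' : σ ≤ 0)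
    (h4 : 0 ≤ η) (h4' : η ≤ 1045 / 10000) (h5 : 4 / 10 ≤ x + σ) (h6 : 1 / 2 - x + σ ≤ 0)
    (h7 : x + σ ≤ 5 / 10)
    (hL1 : L ≤ Lg (1 / 2 - x + σ) (η - -(m * (60 / 100 - x))))
    (hL2 : L ≤ Ln (1 / 2 - x + σ) (η - -(m * (60 / 100 - x))))
    (hY1 : Y ≤ Ya (1 / 2 - x + σ) (η - -(m * (60 / 100 - x)))) (hY2 : Y ≤ -(1 / 2 * Real.pi)) :
    L - 2 * lnA x (-(m * (60 / 100 - x))) +
      m * (3 / 2 * Real.pi + 2 * lnB x (-(m * (60 / 100 - x))) + Y) ≤ 4 / 100 := by
  have g : chk [a2 (E.q 3 2) lg yA, a2 (E.q 3 2) lg yB, a2 (E.q 3 2) ln yB, xle 4 10, xge 5 10, aE]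
    40 [V.of 10000 4000 6000, V.of 10000 0 1710, V.of 10000 (-2000) 0, V.of 10000 0 1045] = true := by
    decide +kernel
  obtain ⟨f, hf, h⟩ := chk4 g (by norm_num) (x := x) (y := m) (z := σ) (w := η)
    (by norm_num; linarith only [h3', h5]) (by norm_num; linarith only [h1']) (le_trans (by norm_num) h2)
    (le_trans h2' (by norm_num)) (by norm_num; linarith only [h1', h5]) (le_trans h3' (by norm_num))
    (le_trans (by norm_num) h4) (le_trans h4' (by norm_num))
  have k1 := mul_le_mul_of_nonneg_left hY1 h2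
  have k2 := mul_le_mul_of_nonneg_left hY2 h2
  simp only [List.mem_cons, List.not_mem_nil, or_false] at hf
  rcases hf with rfl | rfl | rfl | rfl | rfl | rfl
  · rw [a2_val, lg_val, yA_val] at h
    push_cast at h
    linarith only [hL1, k1, h]
  · rw [a2_val, lg_val, yB_val] at h
    push_cast at h
    linarith only [hL1, k2, h]
  · rw [a2_val, ln_val, yB_val] at h
    push_cast at h
    linarith only [hL2, k2, h]
  · simp only [xle, E.val, lkR_zero, lkR_one, lkR_succ] at h
    push_cast at h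
    linarith only [h5, h]
  · simp only [xge, E.val, lkR_zero, lkR_one, lkR_succ] at h
    push_cast at h
    linarith only [h7, h]
  · simp only [aE, E.val, lkR_zero, lkR_one, lkR_succ] at h
    push_cast at h
    linarith only [h6, h]

theorem num_F3 (h1' : x ≤ 60 / 100) (h2 : 0 ≤ m) (h2' : m ≤ 171 / 1000) (h3' : σ ≤ 0)
    (h4 : 0 ≤ η) (h4' : η ≤ 1045 / 10000) (h7 : 5 / 10 ≤ x + σ)
    (hL1 : L ≤ Lg (1 / 2 - x + σ) (η - -(m * (60 / 100 - x))))
    (hL2 : L ≤ Ln (1 / 2 - x + σ) (η - -(m * (60 / 100 - x))))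
    (hY1 : Y ≤ Ya (1 / 2 - x + σ) (η - -(m * (60 / 100 - x)))) (hY2 : Y ≤ -(1 / 2 * Real.pi)) :
    L - 2 * lnA x (-(m * (60 / 100 - x))) +
      m * (2 * Real.pi + 2 * lnB x (-(m * (60 / 100 - x))) + Y) ≤ 4 / 100 := by
  have g : chk [a2 (E.q 2 1) lg yA, a2 (E.q 2 1) lg yB, a2 (E.q 2 1) ln yB, xle 5 10]
    40 [V.of 10000 5000 6000, V.of 10000 0 1710, V.of 10000 (-1000) 0, V.of 10000 0 1045] = true := by
    decide +kernel
  obtain ⟨f, hf, h⟩ := chk4 g (by norm_num) (x := x) (y := m) (z := σ) (w := η)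
    (by norm_num; linarith only [h3', h7]) (by norm_num; linarith only [h1']) (le_trans (by norm_num) h2)
    (le_trans h2' (by norm_num)) (by norm_num; linarith only [h1', h7]) (le_trans h3' (by norm_num))
    (le_trans (by norm_num) h4) (le_trans h4' (by norm_num))
  have k1 := mul_le_mul_of_nonneg_left hY1 h2
  have k2 := mul_le_mul_of_nonneg_left hY2 h2
  simp only [List.mem_cons, List.not_mem_nil, or_false] at hf
  rcases hf with rfl | rfl | rfl | rfl
  · rw [a2_val, lg_val, yA_val] at h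
    push_cast at h
    linarith only [hL1, k1, h]
  · rw [a2_val, lg_val, yB_val] at h
    push_cast at h
    linarith only [hL1, k2, h]
  · rw [a2_val, ln_val, yB_val] at h
    push_cast at h
    linarith only [hL2, k2, h]
  · simp only [xle, E.val, lkR_zero, lkR_one, lkR_succ] at h
    push_cast at h
    linarith only [h7, h]

end

/-! ### the rows -/

section
open E

theorem kr_10_11 : MR.Kr (10 / 100) (11 / 100) 0 := by
  have h : chk [sub (q 1 1) (sub (mul (q 2 1) (cosh (mul pi (q 22 100))))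
      (mul (q 2 1) (cosPi (q 20 100))))] 1 [V.of 1 0 0] = true := by decide +kernel
  have hp := pos_of_chk (chk1 h (by norm_num) (x := 0) (by norm_num) (by norm_num))
  unfold MR.Kr
  simp only [val] at hp
  rw [mul_zero, Real.exp_zero]
  norm_num at hp ⊢
  linarith only [hp]

end

variable {w : ℂ} {m ρ σ : ℝ}

theorem zt_im_ramp (h : -(1 / 2) < σ) (h' : σ ≤ -(1 / 4)) :
    LT.zt ρ σ = (σ : ℂ) + ((4 * ρ * (σ + 1 / 2) : ℝ) : ℂ) * Complex.I := by
  rw [zt_mk, th_of_ge (by rw [abs_of_nonpos (by linarith only [h, h'])]; linarith only [h']),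
    abs_of_nonpos (by linarith only [h, h'])]
  congr 3
  ring

theorem zt_im_flat (h : -(1 / 4) ≤ σ) (h' : σ ≤ 0) :
    LT.zt ρ σ = (σ : ℂ) + (ρ : ℂ) * Complex.I := by
  rw [zt_mk, th_of_le (by rw [abs_of_nonpos h']; linarith only [h]), mul_one]

/-- on `[26/100, 28/100]` -/
theorem rc1 (hm : 0 ≤ m) (hm' : m ≤ 171 / 1000) (hw : w.im = -(m * (60 / 100 - w.re)))
    (hx : 26 / 100 ≤ w.re) (hx' : w.re ≤ 28 / 100) (hρ : 0 < ρ) (hρ' : ρ ≤ 1045 / 10000)
    (hσ : -(1 / 2) < σ) (hσ' : σ ≤ 0) : S4 m w (LT.zt ρ σ) ≤ 10 / 100 := by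
  have hp := Real.pi_pos
  have ht : w.im ≤ 0 := by
    rw [hw]
    have := mul_nonneg hm (show 0 ≤ 60 / 100 - w.re by linarith only [hx', hρ, hρ'])
    linarith only [this]
  have hC : 0 < Real.cosh (2 * Real.pi * w.im) - Real.cos (2 * Real.pi * w.re) := by
    have h1 := Real.one_le_cosh (2 * Real.pi * w.im)
    have h2 : Real.cos (2 * Real.pi * w.re) ≤ 0 := by
      apply Real.cos_nonpos_of_pi_div_two_le_of_le <;> nlinarith only [hp, hx, hx']
    linarith only [hρ, hρ', h1, h2]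
  have hth := th_pos (c := σ) (by rw [abs_lt]; constructor <;> linarith only [hσ, hρ, hρ', hσ'])
  have a2 := YY_hinge_nonpos (x := w.re) (t := w.im) (σ := σ) (η := ρ * LT.th σ) (by linarith only [hx, hρ, hρ'])
    (by linarith only [hx', hρ, hρ']) ht hσ' hσ.le (mul_pos hρ hth).le (re_im_eq w) (zt_eq ρ σ)
  have a3 := mul_nonpos_of_nonneg_of_nonpos hm a2
  suffices h : LL (w + 1 / 2 + LT.zt ρ σ) + LL (w + 1 / 2 - LT.zt ρ σ) - 2 * LL w ≤ 10 / 100 by
    unfold S4
    linarith only [a3, h]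
  rcases le_total σ (-(1 / 4)) with h | h
  · have hη : 0 < 4 * ρ * (σ + 1 / 2) := by
      have : 0 < σ + 1 / 2 := by linarith only [hσ]
      positivity
    refine LL_part_le (zt_im_ramp hσ h) (K := Real.exp (2 / 10)) (Real.exp_pos _)
      (by rw [Real.log_exp]; norm_num) ?_ ?_ hC ?_
    · have h1 := Real.one_le_cosh (2 * Real.pi * (w.im + 4 * ρ * (σ + 1 / 2)))
      have h2 : 0 < Real.cos (2 * Real.pi * (w.re + σ)) := by
        apply Real.cos_pos_of_mem_Ioo
        constructor <;> nlinarith only [hx, hp, hρ, hρ', hσ, hx', h]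
      linarith only [hρ, hρ', h1, h2]
    · have h1 : 1 < Real.cosh (2 * Real.pi * (w.im - 4 * ρ * (σ + 1 / 2))) := by
        rw [Real.one_lt_cosh]
        apply mul_ne_zero (by positivity)
        linarith only [ht, hη]
      have h2 := Real.neg_one_le_cos (2 * Real.pi * (w.re - σ))
      linarith only [h1, h2]
    · have key := num_ramp (x := w.re) (m := m) (s := σ + 1 / 2) (η := 4 * ρ * (σ + 1 / 2)) hx hx'
        hm hm' (by linarith only [hσ]) (by linarith only [h]) hη.le (by nlinarith only [hρ', hσ])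
      rw [← hw] at key
      have e1 : Real.cos (2 * Real.pi * (w.re + (σ + 1 / 2))) =
          -Real.cos (2 * Real.pi * (w.re + σ)) := by
        rw [show 2 * Real.pi * (w.re + (σ + 1 / 2)) = 2 * Real.pi * (w.re + σ) + Real.pi by ring,
          Real.cos_add_pi]
      have e2 : Real.cos (2 * Real.pi * (w.re - (σ + 1 / 2))) =
          -Real.cos (2 * Real.pi * (w.re - σ)) := by
        rw [show 2 * Real.pi * (w.re - (σ + 1 / 2)) = 2 * Real.pi * (w.re - σ) - Real.pi by ring,
          Real.cos_sub_pi]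
      rw [e1, e2, sub_neg_eq_add, sub_neg_eq_add] at key
      exact key
  · refine LL_part_le (zt_im_flat h hσ') (K := Real.exp (2 / 10)) (Real.exp_pos _)
      (by rw [Real.log_exp]; norm_num) ?_ ?_ hC ?_
    · have h1 := Real.one_le_cosh (2 * Real.pi * (w.im + ρ))
      have h2 : -1 < Real.cos (2 * Real.pi * (w.re + σ)) := by
        rw [← Real.cos_pi]
        apply Real.cos_lt_cos_of_nonneg_of_le_pi <;> nlinarith only [hx, hp, hρ, hρ', hσ, h, hx', hσ']
      linarith only [h1, h2]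
    · have h1 : 1 < Real.cosh (2 * Real.pi * (w.im - ρ)) := by
        rw [Real.one_lt_cosh]
        apply mul_ne_zero (by positivity)
        linarith only [hρ, ht]
      have h2 := Real.neg_one_le_cos (2 * Real.pi * (w.re - σ))
      linarith only [h1, h2]
    · have key := num_flat (x := w.re) (m := m) (σ := σ) (η := ρ) hx hx'
        hm hm' h hσ' hρ.le hρ'
      rw [← hw] at key
      exact key

/-- on `[28/100, 1/2]` -/
theorem rc1' (hm : 0 ≤ m) (hm' : m ≤ 171 / 1000) (hw : w.im = -(m * (60 / 100 - w.re)))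
    (hx : 28 / 100 ≤ w.re) (hx' : w.re ≤ 1 / 2) (hρ : 0 < ρ) (hρ' : ρ ≤ 1045 / 10000)
    (hσ : -(1 / 2) < σ) (hσ' : σ ≤ 0) : S4 m w (LT.zt ρ σ) < 0 := by
  have ht0 := mul_nonneg hm (show 0 ≤ 60 / 100 - w.re by linarith only [hx', hρ, hρ'])
  have ht : w.im ≤ 0 := by
    rw [hw]
    linarith only [ht0]
  have hs : |σ| < 1 / 2 := by
    rw [abs_lt]
    constructor <;> linarith only [hσ, hρ, hρ', hσ']
  have a1 := LL_neg_rr (w := w) (by linarith only [hx, hρ, hρ']) (by linarith only [hx', hρ, hρ']) hρ hρ' (by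
    rw [abs_of_nonpos ht, hw]
    have : m * (60 / 100 - w.re) ≤ 171 / 1000 * (32 / 100) :=
      mul_le_mul hm' (by linarith only [hx]) (by linarith only [hx', hρ, hρ']) (by norm_num)
    linarith only [hρ, hρ', this]) hs
  have a2 := YY_hinge_nonpos (x := w.re) (t := w.im) (σ := σ) (η := ρ * LT.th σ) (by linarith only [hx, hρ, hρ'])
    hx' ht hσ' hσ.le (mul_pos hρ (th_pos hs)).le (re_im_eq w) (zt_eq ρ σ)
  have a3 := mul_nonpos_of_nonneg_of_nonpos hm a2
  unfold S4
  linarith only [a1, a3]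

/-- on `[32/100, 60/100]`, shift `π` -/
theorem rc2 (hm : 0 ≤ m) (hm' : m ≤ 171 / 1000) (hw : w.im = -(m * (60 / 100 - w.re)))
    (hx : 32 / 100 ≤ w.re) (hx' : w.re ≤ 60 / 100) (hρ : 0 < ρ) (hρ' : ρ ≤ 1045 / 10000)
    (hσ : -(1 / 2) < σ) (hσ' : σ ≤ 0) : S4 m w (LT.zt ρ σ) + Real.pi * m ≤ 4 / 100 := by
  have hp := Real.pi_pos
  have ht0 := mul_nonneg hm (show 0 ≤ 60 / 100 - w.re by linarith only [hx'])
  have ht1 : m * (60 / 100 - w.re) ≤ 171 / 1000 * (28 / 100) :=
    mul_le_mul hm' (by linarith only [hx]) (by linarith only [hx']) (by norm_num)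
  have ht : w.im ≤ 0 := by
    rw [hw]
    linarith only [ht0]
  have hws : w ∈ strip := ⟨by linarith only [hx, hρ, hρ'], by linarith only [hx', hρ, hρ']⟩
  have w1 := Num.LL_lnA hws
  have w2 := Num.YY_lnB hws
  rw [hw] at w1 w2
  rcases le_total σ (-(1 / 4)) with h | h
  · have hη : 0 < 4 * ρ * (σ + 1 / 2) := by
      have : 0 < σ + 1 / 2 := by linarith only [hσ]
      positivity
    have hz := zt_im_ramp (ρ := ρ) hσ h
    set ζ := LT.zt ρ σ
    set η := 4 * ρ * (σ + 1 / 2) with hη'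
    set s := σ + 1 / 2 with hs
    have key := num_ramp2 (x := w.re) (m := m) (s := s) (η := η) hx hx'
        hm hm' (by linarith only [hσ, hs]) (by linarith only [h, hs]) hη.le (by nlinarith only [hs, hρ, hρ', hσ])
    have ur := u_re (w := w) hz
    have ui := u_im (w := w) hz
    have vr := v_re (w := w) hz
    have vi := v_im (w := w) hz
    have us : w + 1 / 2 + ζ ∈ strip := ⟨by rw [ur]; linarith only [hx, hρ, hρ', hσ], by rw [ur]; linarith only [hx', hρ, hρ', h]⟩
    have vr1 : (w + 1 / 2 - ζ - 1).re = w.re - s := by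
      rw [Complex.sub_re, vr, Complex.one_re, hs]
      ring
    have vi1 : (w + 1 / 2 - ζ - 1).im = w.im - η := by
      rw [Complex.sub_im, vi, Complex.one_im]
      ring
    have vs : w + 1 / 2 - ζ - 1 ∈ strip := ⟨by rw [vr1]; linarith only [hx, hρ, hρ', h, hs], by rw [vr1]; linarith only [hx', hρ, hρ', hσ, hs]⟩
    have e1 := Num.LL_lnA us
    have e2 := Num.YY_lnB us
    have e3 := Num.LL_lnA vs
    have e4 := Num.YY_lnB vs
    have e5 := LL_add_one (w + 1 / 2 - ζ - 1)
    have e6 := YY_add_one (w + 1 / 2 - ζ - 1)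
    rw [sub_add_cancel] at e5 e6
    rw [vi1, if_neg (by linarith only [hw, ht0, hη]), if_pos (by linarith only [hw, ht0, hη])] at e6
    rw [ur, ui, hw, show w.re + 1 / 2 + σ = w.re + s by rw [hs]; ring] at e1 e2
    rw [vr1, vi1, hw] at e3 e4
    unfold S4
    rw [e5, e6, e1, e2, e3, e4, w1, w2]
    linarith only [key]
  · have hz := zt_im_flat (ρ := ρ) h hσ'
    set ζ := LT.zt ρ σ
    have ur := u_re (w := w) hz
    have ui := u_im (w := w) hz
    have vr := v_re (w := w) hz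
    have vi := v_im (w := w) hz
    have vi0 : (w + 1 / 2 - ζ).im < 0 := by rw [vi]; linarith only [hw, hρ, ht0]
    have va : 1 - (w + 1 / 2 - ζ).re = 1 / 2 - w.re + σ := by rw [vr]; ring
    have vt : -(w + 1 / 2 - ζ).im = ρ - -(m * (60 / 100 - w.re)) := by rw [vi, hw]; ring
    have k1 := (LL_sq (w + 1 / 2 - ζ)).le
    have k2 := LL_le_lin vi0
    have k3 := (YY_right (v := w + 1 / 2 - ζ) (by rw [vr]; linarith only [hx, hρ, hρ', hσ']) (by rw [vr]; linarith only [hx', hρ, hρ', h]) vi0).le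
    have k4 := YY_nonpos (v := w + 1 / 2 - ζ) (by rw [vr]; linarith only [hx, hρ, hρ', hσ']) vi0
    rw [va, vt] at k1 k2 k3
    have k3' : YY (w + 1 / 2 - ζ) ≤ Ya (1 / 2 - w.re + σ) (ρ - -(m * (60 / 100 - w.re))) := by
      unfold Ya
      linarith only [k3]
    have k5 : 1 / 2 - w.re + σ ≤ 0 → YY (w + 1 / 2 - ζ) ≤ -(1 / 2 * Real.pi) := by
      intro h1
      have h2 : Real.sin (Real.pi * (1 / 2 - w.re + σ)) ≤ 0 := by
        apply Real.sin_nonpos_of_nonpos_of_neg_pi_le <;> nlinarith only [hρ, hρ', hp, h1, hx', hσ]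
      have h3 : 0 < Real.cos (Real.pi * (1 / 2 - w.re + σ)) := by
        apply Real.cos_pos_of_mem_Ioo
        constructor <;> nlinarith only [hx', hp, hρ, hρ', h, hx, hσ']
      have h4 : 0 < Real.sinh (Real.pi * (ρ - -(m * (60 / 100 - w.re)))) := by
        rw [Real.sinh_pos_iff]
        apply mul_pos hp
        linarith only [hρ, ht0]
      have h5 := Real.cosh_pos (Real.pi * (ρ - -(m * (60 / 100 - w.re))))
      have h6 : Real.sin (Real.pi * (1 / 2 - w.re + σ)) *
          Real.cosh (Real.pi * (ρ - -(m * (60 / 100 - w.re)))) *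
          (Real.cos (Real.pi * (1 / 2 - w.re + σ)) *
            Real.sinh (Real.pi * (ρ - -(m * (60 / 100 - w.re)))))⁻¹ ≤ 0 :=
        mul_nonpos_of_nonpos_of_nonneg (mul_nonpos_of_nonpos_of_nonneg h2 h5.le) (by positivity)
      have h7 := Real.arctan_strictMono.monotone h6
      rw [Real.arctan_zero] at h7
      linarith only [k3, h7]
    rcases le_total (w.re + σ) (4 / 10) with c | c
    · have us : w + 1 / 2 + ζ ∈ strip := ⟨by rw [ur]; linarith only [hx, hρ, hρ', h], by rw [ur]; linarith only [hρ, hρ', c]⟩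
      have e1 := Num.LL_lnA us
      have e2 := Num.YY_lnB us
      rw [ur, ui, hw] at e1 e2
      unfold S4
      rw [e1, e2, w1, w2]
      rcases le_total 0 (1 / 2 - w.re + σ) with d | d
      · have key := num_F1a (x := w.re) (m := m) (σ := σ) (η := ρ) hx hm hm' hσ' hρ.le hρ' c d
          k1 k2 k3' k4
        linarith only [key]
      · have key := num_F1b (x := w.re) (m := m) (σ := σ) (η := ρ) hx hx' hm hm' h hσ' hρ.le hρ' c d
          k1 k2 k3' (k5 d)
        linarith only [key]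
    · have lu := MR.LL_rect kr_10_11 le_rfl (by norm_num) (u := w + 1 / 2 + ζ)
        (by rw [ur, abs_le]; constructor <;> linarith only [c, hx', hσ'])
        (by rw [ui, abs_le, hw]; constructor <;> linarith only [hρ, hρ', ht1, ht0])
      unfold S4
      rw [w1, w2]
      rcases le_total (w.re + σ) (5 / 10) with c' | c'
      · have yu := (abs_le.1 (MR.YY_abs_le (u := w + 1 / 2 + ζ) (by rw [ur]; linarith only [hρ, hρ', c])
          (by rw [ur]; linarith only [c']))).2
        have yu' := mul_le_mul_of_nonneg_left yu hm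
        rcases le_total 0 (1 / 2 - w.re + σ) with d | d
        · have key := num_F2a (x := w.re) (m := m) (σ := σ) (η := ρ) hm hm' hσ' hρ.le hρ' c d
            k1 k2 k3' k4
          linarith only [lu, yu', key]
        · have key := num_F2b (x := w.re) (m := m) (σ := σ) (η := ρ) hx' hm hm' hσ' hρ.le hρ' c d c'
            k1 k2 k3' (k5 d)
          linarith only [lu, yu', key]
      · have yu := (abs_le.1 (MR.YY_abs_pi (u := w + 1 / 2 + ζ) (by rw [ur]; linarith only [hρ, hρ', c'])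
          (by rw [ur]; linarith only [hx', hρ, hρ', hσ']))).2
        have yu' := mul_le_mul_of_nonneg_left yu hm
        have key := num_F3 (x := w.re) (m := m) (σ := σ) (η := ρ) hx' hm hm' hσ' hρ.le hρ' c'
          k1 k2 k3' (k5 (by linarith only [hσ', c']))
        linarith only [lu, yu', key]

end RC3e

end Pool.Agent.Work.MP_b30479_gt.G2
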