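import Pool.Agent.Work.MP_b30479_gt.G2.MLev
import Pool.Agent.Work.MP_b30479_gt.G2.RngB
import Pool.Agent.Work.MP_b30479_gt.G2.WPar

/-!
# Rings on the level part: closed forms

`a = tan (π x / 2)`, `B = tan (π y / 2)` with `y = 1/2 + σ` (`σ ≤ 0` the real part of the ring
variable), `u`, `v`, `τ` are `sinh²` of `π (T + ρ)`, `π (T - ρ)`, `π T`.
-/

namespace Pool.Agent.Work.MP_b30479_gt.G2

open Real Set VOL

namespace RC

def kq (a B : ℝ) : ℝ := (1 + a ^ 2) * (1 + B ^ 2)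
def NP (a B u : ℝ) : ℝ := 4 * (a + B) ^ 2 * (1 - a * B) ^ 2 + u * kq a B ^ 2
def NM (a B v : ℝ) : ℝ := 4 * (B - a) ^ 2 * (1 + a * B) ^ 2 + v * kq a B ^ 2
def NW (a B τ : ℝ) : ℝ := 4 * a ^ 2 * (1 + B ^ 2) ^ 2 + τ * kq a B ^ 2

theorem kq_pos (a B : ℝ) : 0 < kq a B := by unfold kq; positivity

/-- half angle tangent -/
noncomputable def ta (x : ℝ) : ℝ := Real.tan (π * x / 2)

/-- `sinh²` -/
noncomputable def shq (t : ℝ) : ℝ := Real.sinh (π * t) ^ 2

theorem shq_nonneg (t : ℝ) : 0 ≤ shq t := sq_nonneg _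

theorem shq_neg (t : ℝ) : shq (-t) = shq t := by
  unfold shq
  rw [mul_neg, Real.sinh_neg]
  ring

theorem ta_pos {x : ℝ} (hx : x ∈ Ioo (0 : ℝ) 1) : 0 < ta x := by
  have h1 := Real.pi_pos
  exact Real.tan_pos_of_pos_of_lt_pi_div_two (by have := hx.1; positivity) (by nlinarith only [h1, hx, hx.2])

theorem log_ta (x : ℝ) : Real.log (ta x) = gh x := rfl

theorem cos_half_pos {x : ℝ} (hx : x ∈ Ioo (0 : ℝ) 1) : 0 < Real.cos (π * x / 2) := by
  have h1 := Real.pi_pos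
  apply Real.cos_pos_of_mem_Ioo
  constructor
  · have := mul_pos h1 hx.1
    linarith only [h1, this]
  · nlinarith only [h1, hx, hx.2]

theorem sin_ta {x : ℝ} (hx : x ∈ Ioo (0 : ℝ) 1) : Real.sin (π * x) = 2 * ta x / (1 + ta x ^ 2) := by
  have hc := cos_half_pos hx
  have e : π * x = 2 * (π * x / 2) := by ring
  have h2 := Real.sin_sq_add_cos_sq (π * x / 2)
  unfold ta
  rw [Real.tan_eq_sin_div_cos]
  nth_rewrite 1 [e]
  rw [Real.sin_two_mul, eq_div_iff (by positivity)]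
  field_simp
  linear_combination (Real.sin (π * x / 2)) * h2

theorem cos_ta {x : ℝ} (hx : x ∈ Ioo (0 : ℝ) 1) :
    Real.cos (π * x) = (1 - ta x ^ 2) / (1 + ta x ^ 2) := by
  have hc := cos_half_pos hx
  have e : π * x = 2 * (π * x / 2) := by ring
  have h2 := Real.sin_sq_add_cos_sq (π * x / 2)
  unfold ta
  rw [Real.tan_eq_sin_div_cos]
  nth_rewrite 1 [e]
  rw [Real.cos_two_mul, eq_div_iff (by positivity)]
  field_simp
  linear_combination (2 * Real.cos (π * x / 2) ^ 2) * h2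

theorem sin_add_ta {x y : ℝ} (hx : x ∈ Ioo (0 : ℝ) 1) (hy : y ∈ Ioo (0 : ℝ) 1) :
    Real.sin (π * (x + y)) = 2 * (ta x + ta y) * (1 - ta x * ta y) / kq (ta x) (ta y) := by
  rw [mul_add, Real.sin_add, sin_ta hx, sin_ta hy, cos_ta hx, cos_ta hy]
  unfold kq
  field_simp
  ring

theorem sin_sub_ta {x y : ℝ} (hx : x ∈ Ioo (0 : ℝ) 1) (hy : y ∈ Ioo (0 : ℝ) 1) :
    Real.sin (π * (y - x)) = 2 * (ta y - ta x) * (1 + ta x * ta y) / kq (ta x) (ta y) := by
  rw [mul_sub, Real.sin_sub, sin_ta hx, sin_ta hy, cos_ta hx, cos_ta hy]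
  unfold kq
  field_simp
  ring

/-- closed form of `LL` -/
theorem LL_lv_eq (x t : ℝ) :
    LL (lv x t) = Real.log (4 * (Real.sin (π * x) ^ 2 + shq t)) / 2 := by
  rw [LL_eq', lv_re, lv_im]
  congr 2
  unfold shq
  rw [mul_assoc 2 π x, mul_assoc 2 π t, Real.cos_two_mul, Real.cosh_two_mul]
  have e1 := Real.sin_sq_add_cos_sq (π * x)
  have e2 := Real.cosh_sq (π * t)
  linarith only [e1, e2]

theorem LL_plus {x y : ℝ} (hx : x ∈ Ioo (0 : ℝ) 1) (hy : y ∈ Ioo (0 : ℝ) 1) (t : ℝ) :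
    LL (lv (x + y) t) = Real.log (4 * NP (ta x) (ta y) (shq t) / kq (ta x) (ta y) ^ 2) / 2 := by
  rw [LL_lv_eq, sin_add_ta hx hy]
  congr 2
  have := (kq_pos (ta x) (ta y)).ne'
  unfold NP
  field_simp
  ring

theorem LL_minus {x y : ℝ} (hx : x ∈ Ioo (0 : ℝ) 1) (hy : y ∈ Ioo (0 : ℝ) 1) (t : ℝ) :
    LL (lv (y - x) t) = Real.log (4 * NM (ta x) (ta y) (shq t) / kq (ta x) (ta y) ^ 2) / 2 := by
  rw [LL_lv_eq, sin_sub_ta hx hy]
  congr 2
  have := (kq_pos (ta x) (ta y)).ne'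
  unfold NM
  field_simp
  ring

theorem LL_own {x : ℝ} (hx : x ∈ Ioo (0 : ℝ) 1) (B t : ℝ) :
    LL (lv x t) = Real.log (4 * NW (ta x) B (shq t) / kq (ta x) B ^ 2) / 2 := by
  rw [LL_lv_eq, sin_ta hx]
  congr 2
  unfold NW kq
  field_simp
  ring

/-- the side of a ring in the hinge `x + i T`, ring variable `y - 1/2 + i ρ` -/
noncomputable def Sx (x y T η : ℝ) : ℝ :=
  LL (lv (x + y) (T + η)) + LL (lv (y - x) (T - η)) - 2 * LL (lv x T)

/-- the contribution of the hinge to the derivative in the ring variable -/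
noncomputable def Dx (x y T η : ℝ) : ℝ := LL (lv (x + y) (T + η)) - LL (lv (y - x) (T - η))

theorem LL_lv_neg (x t : ℝ) : LL (lv x (-t)) = LL (lv x t) := by
  rw [LL_lv_eq, LL_lv_eq, shq_neg]

theorem fac_minus (x y T η : ℝ) :
    LL (lv x T + 1 / 2 - lv (y - 1 / 2) η) = LL (lv (y - x) (T - η)) := by
  rw [← LL_one_sub, ← LL_lv_neg (y - x) (T - η)]
  congr 1
  unfold lv
  push_cast
  ring

theorem fac_plus (x y T η : ℝ) :
    LL (lv x T + 1 / 2 + lv (y - 1 / 2) η) = LL (lv (x + y) (T + η)) := by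
  congr 1
  unfold lv
  push_cast
  ring

theorem S4_eq (x y T η : ℝ) : S4 0 (lv x T) (lv (y - 1 / 2) η) = Sx x y T η := by
  unfold S4 Sx
  rw [fac_plus, fac_minus]
  ring

theorem Dm_eq (x y T η : ℝ) : Dm 0 (lv x T) (lv (y - 1 / 2) η) = Dx x y T η := by
  unfold Dm Dq Dx
  rw [fac_plus, fac_minus]
  ring

theorem NP_pos {a B : ℝ} (ha : 0 < a) (hB : 0 < B) (h : a * B < 1) {u : ℝ} (hu : 0 ≤ u) :
    0 < NP a B u := by
  unfold NP
  have h1 : 0 < 1 - a * B := by linarith only [h]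
  positivity

theorem NW_pos {a B : ℝ} (ha : 0 < a) {u : ℝ} (hu : 0 ≤ u) : 0 < NW a B u := by
  unfold NW
  positivity

theorem log_NN {N k : ℝ} (hN : 0 < N) (hk : 0 < k) :
    Real.log (4 * N / k ^ 2) = Real.log 4 + Real.log N - 2 * Real.log k := by
  rw [Real.log_div (by positivity) (by positivity), Real.log_mul (by norm_num) hN.ne',
    Real.log_pow]
  push_cast
  ring

section
variable {x y T η : ℝ}

theorem Dx_eq (hx : x ∈ Ioo (0 : ℝ) 1) (hy : y ∈ Ioo (0 : ℝ) 1)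
    (hp : 0 < NP (ta x) (ta y) (shq (T + η))) (hm : 0 < NM (ta x) (ta y) (shq (T - η))) :
    Dx x y T η = (Real.log (NP (ta x) (ta y) (shq (T + η))) -
      Real.log (NM (ta x) (ta y) (shq (T - η)))) / 2 := by
  unfold Dx
  rw [LL_plus hx hy, LL_minus hx hy, log_NN hp (kq_pos _ _), log_NN hm (kq_pos _ _)]
  ring

theorem Sx_eq (hx : x ∈ Ioo (0 : ℝ) 1) (hy : y ∈ Ioo (0 : ℝ) 1)
    (hp : 0 < NP (ta x) (ta y) (shq (T + η))) (hm : 0 < NM (ta x) (ta y) (shq (T - η)))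
    (hw : 0 < NW (ta x) (ta y) (shq T)) :
    Sx x y T η = (Real.log (NP (ta x) (ta y) (shq (T + η))) +
      Real.log (NM (ta x) (ta y) (shq (T - η)))) / 2 -
      Real.log (NW (ta x) (ta y) (shq T)) := by
  unfold Sx
  rw [LL_plus hx hy, LL_minus hx hy, LL_own hx (ta y), log_NN hp (kq_pos _ _),
    log_NN hm (kq_pos _ _), log_NN hw (kq_pos _ _)]
  ring

end

/-- comparison of the contributions to the derivative -/
theorem Dx_lt {x y x' y' T η : ℝ} (hx : x ∈ Ioo (0 : ℝ) 1) (hy : y ∈ Ioo (0 : ℝ) 1)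
    (hx' : x' ∈ Ioo (0 : ℝ) 1) (hy' : y' ∈ Ioo (0 : ℝ) 1)
    (hp : 0 < NP (ta x) (ta y) (shq (T + η))) (hm : 0 < NM (ta x) (ta y) (shq (T - η)))
    (hp' : 0 < NP (ta x') (ta y') (shq (T + η))) (hm' : 0 < NM (ta x') (ta y') (shq (T - η)))
    (h : NP (ta x) (ta y) (shq (T + η)) * NM (ta x') (ta y') (shq (T - η)) <
      NP (ta x') (ta y') (shq (T + η)) * NM (ta x) (ta y) (shq (T - η))) :
    Dx x y T η < Dx x' y' T η := by
  rw [Dx_eq hx hy hp hm, Dx_eq hx' hy' hp' hm']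
  have h1 := Real.log_lt_log (by positivity) h
  rw [Real.log_mul hp.ne' hm'.ne', Real.log_mul hp'.ne' hm.ne'] at h1
  linarith only [h1]

/-- comparison of the sides -/
theorem Sx_lt {x y x' y' T η : ℝ} (hx : x ∈ Ioo (0 : ℝ) 1) (hy : y ∈ Ioo (0 : ℝ) 1)
    (hx' : x' ∈ Ioo (0 : ℝ) 1) (hy' : y' ∈ Ioo (0 : ℝ) 1)
    (hp : 0 < NP (ta x) (ta y) (shq (T + η))) (hm : 0 < NM (ta x) (ta y) (shq (T - η)))
    (hp' : 0 < NP (ta x') (ta y') (shq (T + η))) (hm' : 0 < NM (ta x') (ta y') (shq (T - η)))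
    (h : NP (ta x) (ta y) (shq (T + η)) * NM (ta x) (ta y) (shq (T - η)) *
        NW (ta x') (ta y') (shq T) ^ 2 <
      NP (ta x') (ta y') (shq (T + η)) * NM (ta x') (ta y') (shq (T - η)) *
        NW (ta x) (ta y) (shq T) ^ 2) :
    Sx x y T η < Sx x' y' T η := by
  have hw := NW_pos (B := ta y) (ta_pos hx) (shq_nonneg T)
  have hw' := NW_pos (B := ta y') (ta_pos hx') (shq_nonneg T)
  rw [Sx_eq hx hy hp hm hw, Sx_eq hx' hy' hp' hm' hw']
  have h1 := Real.log_lt_log (by positivity) h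
  rw [Real.log_mul (by positivity) (by positivity), Real.log_mul hp.ne' hm.ne',
    Real.log_mul (by positivity) (by positivity), Real.log_mul hp'.ne' hm'.ne', Real.log_pow,
    Real.log_pow] at h1
  push_cast at h1
  linarith only [h1]

end RC

end Pool.Agent.Work.MP_b30479_gt.G2
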