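import Pool.Agent.Work.MP_b30479_gt.G2.RCF
import Pool.Agent.Work.MP_b30479_gt.G2.Num.Link

/-!
# Rings on the level part: derivatives along the gauge curves
-/

namespace Pool.Agent.Work.MP_b30479_gt.G2

open Real Set VOL

namespace RC

/-- coefficient of the displacement of the hinge in the derivative of the side -/
noncomputable def SA (x y T η : ℝ) : ℝ := Real.sin (π * x) *
  (NumI.PP (x + y) (T + η) - NumI.PP (y - x) (T - η) - 2 * NumI.PP x T)

/-- coefficient of the displacement of the ring variable in the derivative of the side -/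
noncomputable def SB (x y T η : ℝ) : ℝ := Real.sin (π * y) *
  (NumI.PP (x + y) (T + η) + NumI.PP (y - x) (T - η))

/-- the same for the contribution to the derivative -/
noncomputable def DA (x y T η : ℝ) : ℝ := Real.sin (π * x) *
  (NumI.PP (x + y) (T + η) + NumI.PP (y - x) (T - η))

noncomputable def DB (x y T η : ℝ) : ℝ := Real.sin (π * y) *
  (NumI.PP (x + y) (T + η) - NumI.PP (y - x) (T - η))

/-- no factor is singular -/
def Nz (x y T η : ℝ) : Prop :=
  Complex.sin (Real.pi * lv (x + y) (T + η)) ≠ 0 ∧ Complex.sin (Real.pi * lv (y - x) (T - η)) ≠ 0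

theorem CC_lv (x t : ℝ) : CC (lv x t) = π * NumI.PP x t := by
  rw [Num.CC_PP, lv_re, lv_im]

theorem hasDerivAt_LL_lv' {x t : ℝ} (h : Complex.sin (Real.pi * lv x t) ≠ 0) :
    HasDerivAt (fun x : ℝ => LL (lv x t)) (π * NumI.PP x t) x := by
  have e : ∀ x : ℝ, (t : ℂ) * Complex.I + (x : ℂ) = lv x t := by
    intro x
    unfold lv
    ring
  have h := hasDerivAt_LL_level ((t : ℂ) * Complex.I) 1 x (by rw [one_mul, e]; exact h)
  simpa only [one_mul, e, CC_lv] using h

section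
variable {X Y : ℝ → ℝ} {θ L1 L2 T η : ℝ}

theorem hasDerivAt_Sx (hX : HasDerivAt X (L1 * (Real.sin (π * X θ) / π)) θ)
    (hY : HasDerivAt Y (L2 * (Real.sin (π * Y θ) / π)) θ) (h0 : X θ ∈ Ioo (0 : ℝ) 1)
    (hn : Nz (X θ) (Y θ) T η) :
    HasDerivAt (fun θ => Sx (X θ) (Y θ) T η)
      (L1 * SA (X θ) (Y θ) T η + L2 * SB (X θ) (Y θ) T η) θ := by
  have hpi := Real.pi_pos
  have h1 := (hasDerivAt_LL_lv' hn.1).comp θ (hX.add hY)
  have h2 := (hasDerivAt_LL_lv' hn.2).comp θ (hY.sub hX)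
  have h3 := (hasDerivAt_LL_lv' (lv_sin_ne (t := T) h0.1 h0.2)).comp θ hX
  unfold Sx
  refine ((h1.add h2).sub (h3.const_mul 2)).congr_deriv ?_
  unfold SA SB
  field_simp
  ring

theorem hasDerivAt_Dx (hX : HasDerivAt X (L1 * (Real.sin (π * X θ) / π)) θ)
    (hY : HasDerivAt Y (L2 * (Real.sin (π * Y θ) / π)) θ) (hn : Nz (X θ) (Y θ) T η) :
    HasDerivAt (fun θ => Dx (X θ) (Y θ) T η)
      (L1 * DA (X θ) (Y θ) T η + L2 * DB (X θ) (Y θ) T η) θ := by
  have hpi := Real.pi_pos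
  have h1 := (hasDerivAt_LL_lv' hn.1).comp θ (hX.add hY)
  have h2 := (hasDerivAt_LL_lv' hn.2).comp θ (hY.sub hX)
  unfold Dx
  refine (h1.sub h2).congr_deriv ?_
  unfold DA DB
  field_simp
  ring

end

/-! ### the diagonal -/

/-- `- 2 (cos φ + cos ψ)` times half the derivative of the side along the diagonal -/
noncomputable def WW (x y T η : ℝ) : ℝ :=
  2 * Real.sin (π * y) ^ 2 -
    2 * Real.cos (π * x) * (Real.cos (π * x) + Real.cos (π * y)) *
      (shq T / (Real.sin (π * x) ^ 2 + shq T)) +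
    (1 + Real.cos (π * (x + y))) * Real.cos (π * (y - x)) *
      (shq (T - η) / (Real.sin (π * (y - x)) ^ 2 + shq (T - η))) +
    (1 + Real.cos (π * (y - x))) * Real.cos (π * (x + y)) *
      (shq (T + η) / (Real.sin (π * (x + y)) ^ 2 + shq (T + η)))

theorem MM_pos_of {x t : ℝ} (h : Complex.sin (Real.pi * lv x t) ≠ 0) :
    0 < Real.sin (π * x) ^ 2 + shq t := by
  have h1 : (0 : ℝ) ≤ Real.sin (π * x) ^ 2 := sq_nonneg _
  have h2 := shq_nonneg t
  rcases (add_nonneg h1 h2).lt_or_eq with h3 | h3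
  · exact h3
  · exfalso
    have h4 : Real.sin (π * x) = 0 := by
      have : Real.sin (π * x) ^ 2 = 0 := by linarith only [h1, h2, h3]
      exact pow_eq_zero_iff (two_ne_zero) |>.1 this
    have h5 : Real.sinh (π * t) = 0 := by
      have : Real.sinh (π * t) ^ 2 = 0 := by unfold shq at h2 h3; linarith only [h2, h1, h3]
      exact pow_eq_zero_iff (two_ne_zero) |>.1 this
    apply h
    have e : (Real.pi : ℂ) * lv x t = ((π * x : ℝ) : ℂ) + ((π * t : ℝ) : ℂ) * Complex.I := by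
      unfold lv
      push_cast
      ring
    rw [e, Complex.sin_add_mul_I, ← Complex.ofReal_sin, ← Complex.ofReal_cos,
      ← Complex.ofReal_sinh, h4, h5]
    simp

theorem diag_eq {x y T η : ℝ} (h0 : x ∈ Ioo (0 : ℝ) 1) (hn : Nz x y T η) :
    (Real.cos (π * x) + Real.cos (π * y)) * (SA x y T η + SB x y T η) = -WW x y T η := by
  have m1 := MM_pos_of hn.1
  have m2 := MM_pos_of hn.2
  have m3 := MM_pos_of (lv_sin_ne (t := T) h0.1 h0.2)
  unfold SA SB WW NumI.PP NumI.MM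
  have ep : π * (x + y) = π * x + π * y := by ring
  have em : π * (y - x) = π * y - π * x := by ring
  change (Real.cos (π * x) + Real.cos (π * y)) * (Real.sin (π * x) *
    (Real.sin (π * (x + y)) * Real.cos (π * (x + y)) / (Real.sin (π * (x + y)) ^ 2 + shq (T + η)) -
      Real.sin (π * (y - x)) * Real.cos (π * (y - x)) / (Real.sin (π * (y - x)) ^ 2 + shq (T - η)) -
      2 * (Real.sin (π * x) * Real.cos (π * x) / (Real.sin (π * x) ^ 2 + shq T))) +
    Real.sin (π * y) *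
      (Real.sin (π * (x + y)) * Real.cos (π * (x + y)) / (Real.sin (π * (x + y)) ^ 2 + shq (T + η)) +
      Real.sin (π * (y - x)) * Real.cos (π * (y - x)) /
        (Real.sin (π * (y - x)) ^ 2 + shq (T - η)))) = _
  have s1 : (Real.sin (π * x) + Real.sin (π * y)) * (Real.cos (π * x) + Real.cos (π * y)) =
      Real.sin (π * (x + y)) * (1 + Real.cos (π * (y - x))) := by
    rw [ep, em, Real.sin_add, Real.cos_sub]
    have a1 := Real.sin_sq_add_cos_sq (π * x)
    have a2 := Real.sin_sq_add_cos_sq (π * y)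
    linear_combination (-Real.sin (π * y) * Real.cos (π * y)) * a1 +
      (-Real.sin (π * x) * Real.cos (π * x)) * a2
  have s2 : (Real.sin (π * y) - Real.sin (π * x)) * (Real.cos (π * x) + Real.cos (π * y)) =
      Real.sin (π * (y - x)) * (1 + Real.cos (π * (x + y))) := by
    rw [ep, em, Real.sin_sub, Real.cos_add]
    have a1 := Real.sin_sq_add_cos_sq (π * x)
    have a2 := Real.sin_sq_add_cos_sq (π * y)
    linear_combination (-Real.sin (π * y) * Real.cos (π * y)) * a1 +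
      (Real.sin (π * x) * Real.cos (π * x)) * a2
  have t1 : ∀ s u : ℝ, 0 < s + u → s / (s + u) = 1 - u / (s + u) := by
    intro s u h
    rw [eq_sub_iff_add_eq, ← add_div, div_self h.ne']
  have q1 := t1 _ _ m1
  have q2 := t1 _ _ m2
  have q3 := t1 _ _ m3
  have c1 : (Real.cos (π * x) + Real.cos (π * y)) * (Real.sin (π * x) *
    (Real.sin (π * (x + y)) * Real.cos (π * (x + y)) / (Real.sin (π * (x + y)) ^ 2 + shq (T + η)) -
      Real.sin (π * (y - x)) * Real.cos (π * (y - x)) / (Real.sin (π * (y - x)) ^ 2 + shq (T - η)) -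
      2 * (Real.sin (π * x) * Real.cos (π * x) / (Real.sin (π * x) ^ 2 + shq T))) +
    Real.sin (π * y) *
      (Real.sin (π * (x + y)) * Real.cos (π * (x + y)) / (Real.sin (π * (x + y)) ^ 2 + shq (T + η)) +
      Real.sin (π * (y - x)) * Real.cos (π * (y - x)) /
        (Real.sin (π * (y - x)) ^ 2 + shq (T - η)))) =
      (1 + Real.cos (π * (y - x))) * Real.cos (π * (x + y)) *
        (Real.sin (π * (x + y)) ^ 2 / (Real.sin (π * (x + y)) ^ 2 + shq (T + η))) +
      (1 + Real.cos (π * (x + y))) * Real.cos (π * (y - x)) *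
        (Real.sin (π * (y - x)) ^ 2 / (Real.sin (π * (y - x)) ^ 2 + shq (T - η))) -
      2 * Real.cos (π * x) * (Real.cos (π * x) + Real.cos (π * y)) *
        (Real.sin (π * x) ^ 2 / (Real.sin (π * x) ^ 2 + shq T)) := by
    linear_combination (Real.cos (π * (x + y)) / (Real.sin (π * (x + y)) ^ 2 + shq (T + η)) *
      Real.sin (π * (x + y))) * s1 + (Real.cos (π * (y - x)) /
        (Real.sin (π * (y - x)) ^ 2 + shq (T - η)) * Real.sin (π * (y - x))) * s2
  rw [c1, q1, q2, q3]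
  have s3 : Real.cos (π * (x + y)) + Real.cos (π * (y - x)) +
      2 * (Real.cos (π * (x + y)) * Real.cos (π * (y - x))) -
      2 * Real.cos (π * x) * (Real.cos (π * x) + Real.cos (π * y)) = -(2 * Real.sin (π * y) ^ 2) := by
    rw [ep, em, Real.cos_add, Real.cos_sub]
    have a1 := Real.sin_sq_add_cos_sq (π * x)
    have a2 := Real.sin_sq_add_cos_sq (π * y)
    linear_combination (-2 * Real.sin (π * y) ^ 2) * a1 + (2 * Real.cos (π * x) ^ 2) * a2
  linear_combination s3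

/-- auxiliary function for the diagonal -/
noncomputable def GG (a1 x : ℝ) : ℝ := gh x + a1 / ta x

theorem ta_eq_exp {x : ℝ} (hx : x ∈ Ioo (0 : ℝ) 1) : ta x = Real.exp (gh x) := by
  rw [← log_ta, Real.exp_log (ta_pos hx)]

theorem Nz_of {x y T η : ℝ} (h0 : 0 < x) (h1 : x < y) (h2 : x + y < 1) : Nz x y T η :=
  ⟨lv_sin_ne (by linarith only [h0, h1]) h2, lv_sin_ne (by linarith only [h1]) (by linarith only [h0, h2])⟩

/-- **The side along the diagonal.** -/
theorem diag_mono {x0 y0 x1 y1 T η c a1 : ℝ} (hx0 : x0 ∈ Ioo (0 : ℝ) 1) (hy0 : y0 ∈ Ioo (0 : ℝ) 1)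
    (hx1 : x1 ∈ Ioo (0 : ℝ) 1) (hy1 : y1 ∈ Ioo (0 : ℝ) 1) (h : x0 < x1) (h0 : x0 < y0)
    (hg : gh x1 - gh x0 = gh y1 - gh y0) (h1 : x1 + y1 < 1)
    (hrow : ∀ x y, x ∈ Icc x0 x1 → y ∈ Icc y0 y1 → gh x - gh x0 = gh y - gh y0 →
      0 < Real.cos (π * x) + Real.cos (π * y) ∧
      c * (1 - a1 / ta x) * (Real.cos (π * x) + Real.cos (π * y)) < WW x y T η) :
    Sx x1 y1 T η + c * GG a1 x1 < Sx x0 y0 T η + c * GG a1 x0 := by
  have hL : 0 < gh x1 - gh x0 := by
    have := (gh_lt hx0 hx1).2 h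
    linarith only [this]
  have hyy : y0 < y1 := (gh_lt hy0 hy1).1 (by linarith only [hg, hL])
  set F : ℝ → ℝ := fun θ => Sx (gc x0 x1 θ) (gc y0 y1 θ) T η +
    c * (((1 - θ) * gh x0 + θ * gh x1) + a1 * Real.exp (-((1 - θ) * gh x0 + θ * gh x1))) with hF
  have hpt : ∀ θ ∈ Icc (0 : ℝ) 1, gc x0 x1 θ ∈ Icc x0 x1 ∧ gc y0 y1 θ ∈ Icc y0 y1 ∧
      gh (gc x0 x1 θ) - gh x0 = gh (gc y0 y1 θ) - gh y0 := by
    intro θ hθ
    refine ⟨gc_mem_Icc hx0 hx1 h.le hθ.1 hθ.2, gc_mem_Icc hy0 hy1 hyy.le hθ.1 hθ.2, ?_⟩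
    rw [gh_gc, gh_gc]
    linear_combination θ * hg
  have hder : ∀ θ ∈ Icc (0 : ℝ) 1, HasDerivAt F ((gh x1 - gh x0) *
      (SA (gc x0 x1 θ) (gc y0 y1 θ) T η + SB (gc x0 x1 θ) (gc y0 y1 θ) T η +
        c * (1 - a1 / ta (gc x0 x1 θ)))) θ := by
    intro θ hθ
    obtain ⟨p1, p2, p3⟩ := hpt θ hθ
    have m1 := gc_mem x0 x1 θ
    have m2 := gc_mem y0 y1 θ
    have hlt : gc x0 x1 θ < gc y0 y1 θ := by
      have := (gh_lt hx0 hy0).2 h0
      exact (gh_lt m1 m2).1 (by linarith only [p3, this])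
    have hn : Nz (gc x0 x1 θ) (gc y0 y1 θ) T η := Nz_of m1.1 hlt (by linarith only [h1, p1, p2, p1.2, p2.2])
    have d1 := hasDerivAt_Sx (hasDerivAt_gc x0 x1 θ) (hasDerivAt_gc y0 y1 θ) m1 hn
    have d2 : HasDerivAt (fun θ : ℝ => (1 - θ) * gh x0 + θ * gh x1) (gh x1 - gh x0) θ := by
      have := (((hasDerivAt_id' θ).const_sub 1).mul_const (gh x0)).add
        ((hasDerivAt_id' θ).mul_const (gh x1))
      exact this.congr_deriv (by ring)
    have d3 := (d2.add (d2.fun_neg.exp.const_mul a1)).const_mul c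
    refine (d1.add d3).congr_deriv ?_
    rw [ta_eq_exp m1, gh_gc, Real.exp_neg, ← hg]
    field_simp
    ring
  have hneg : ∀ θ ∈ Icc (0 : ℝ) 1, (gh x1 - gh x0) *
      (SA (gc x0 x1 θ) (gc y0 y1 θ) T η + SB (gc x0 x1 θ) (gc y0 y1 θ) T η +
        c * (1 - a1 / ta (gc x0 x1 θ))) < 0 := by
    intro θ hθ
    obtain ⟨p1, p2, p3⟩ := hpt θ hθ
    have m1 := gc_mem x0 x1 θ
    have m2 := gc_mem y0 y1 θ
    have hlt : gc x0 x1 θ < gc y0 y1 θ := by
      have := (gh_lt hx0 hy0).2 h0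
      exact (gh_lt m1 m2).1 (by linarith only [p3, this])
    have hn : Nz (gc x0 x1 θ) (gc y0 y1 θ) T η := Nz_of m1.1 hlt (by linarith only [h1, p1, p2, p1.2, p2.2])
    obtain ⟨r1, r2⟩ := hrow _ _ p1 p2 p3
    have e := diag_eq m1 hn
    apply mul_neg_of_pos_of_neg hL
    by_contra hcon
    push Not at hcon
    have := mul_nonneg r1.le hcon
    nlinarith only [r2, e, this]
  have hc : ContinuousOn F (Icc 0 1) := fun θ hθ => (hder θ hθ).continuousAt.continuousWithinAt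
  have hanti := strictAntiOn_of_deriv_neg (convex_Icc (0 : ℝ) 1) hc (by
      intro θ hθ
      rw [interior_Icc] at hθ
      rw [(hder θ ⟨hθ.1.le, hθ.2.le⟩).deriv]
      exact hneg θ ⟨hθ.1.le, hθ.2.le⟩)
  have key := hanti ⟨le_rfl, zero_le_one⟩ ⟨zero_le_one, le_rfl⟩ zero_lt_one
  simp only [hF, gc_zero hx0, gc_zero hy0, gc_one hx1, gc_one hy1, sub_self, zero_mul, one_mul,
    zero_add, sub_zero, add_zero] at key
  unfold GG
  rw [ta_eq_exp hx0, ta_eq_exp hx1, div_eq_mul_inv, div_eq_mul_inv, ← Real.exp_neg, ← Real.exp_neg]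
  exact key

end RC

end Pool.Agent.Work.MP_b30479_gt.G2
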