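import Mathlib

/-!
# Rings on the level part: comparison of the sides along `a B = const`
-/

namespace Pool.Agent.Work.MP_b30479_gt.G2

namespace RC

theorem anti_abs {k1 k2 c d u v : ℝ} (hk2 : 0 < k2) (h : k2 ≤ k1) (hc : 0 < c) (hcd : c ≤ d)
    (hd : k1 ≤ 2 * d) (h1 : d ≤ k2) (hu : 0 ≤ u) (hv : 0 ≤ v)
    (hs : c * (k1 - 2 * c) * (4 * (k1 - d) * d + v * k1 ^ 2) ≤ d * (2 * d - k1) * (4 * (k1 - c) * c)) :
    (4 * (k2 - c) * c + u * k2 ^ 2) * (4 * (k2 - d) * d + v * k2 ^ 2) * k1 ^ 4 ≤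
      (4 * (k1 - c) * c + u * k1 ^ 2) * (4 * (k1 - d) * d + v * k1 ^ 2) * k2 ^ 4 := by
  have hk1 : 0 < k1 := by linarith only [hk2, h]
  have hd0 : 0 < d := by linarith only [hc, hcd]
  set g1 := 4 * (k1 - c) * c / k1 ^ 2 with hg1
  set g2 := 4 * (k2 - c) * c / k2 ^ 2 with hg2
  set e1 := 4 * (k1 - d) * d / k1 ^ 2 with he1
  set e2 := 4 * (k2 - d) * d / k2 ^ 2 with he2
  have r1 : 4 * (k1 - c) * c + u * k1 ^ 2 = (g1 + u) * k1 ^ 2 := by rw [hg1]; field_simp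
  have r2 : 4 * (k2 - c) * c + u * k2 ^ 2 = (g2 + u) * k2 ^ 2 := by rw [hg2]; field_simp
  have r3 : 4 * (k1 - d) * d + v * k1 ^ 2 = (e1 + v) * k1 ^ 2 := by rw [he1]; field_simp
  have r4 : 4 * (k2 - d) * d + v * k2 ^ 2 = (e2 + v) * k2 ^ 2 := by rw [he2]; field_simp
  have hgd : g1 - g2 = 4 * (k1 - k2) / (k1 * k2) * (c * (c * (1 / k1 + 1 / k2) - 1)) := by
    rw [hg1, hg2]; field_simp; ring
  have hed : e1 - e2 = 4 * (k1 - k2) / (k1 * k2) * (d * (d * (1 / k1 + 1 / k2) - 1)) := by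
    rw [he1, he2]; field_simp; ring
  have hK : 0 ≤ 4 * (k1 - k2) / (k1 * k2) := by
    have : 0 ≤ k1 - k2 := by linarith only [h]
    positivity
  have hi : 1 / k1 ≤ 1 / k2 := one_div_le_one_div_of_le hk2 h
  have hi1 : 0 < 1 / k1 := by positivity
  have hg1p : 0 ≤ g1 := by
    rw [hg1]
    have : 0 ≤ k1 - c := by linarith only [h, hcd, h1]
    positivity
  have hg2p : 0 ≤ g2 := by
    rw [hg2]
    have : 0 ≤ k2 - c := by linarith only [hcd, h1]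
    positivity
  have he1p : 0 ≤ e1 := by
    rw [he1]
    have : 0 ≤ k1 - d := by linarith only [h, h1]
    positivity
  have hdσ : 0 ≤ d * (1 / k1 + 1 / k2) - 1 := by
    have : d * (2 * (1 / k1)) ≤ d * (1 / k1 + 1 / k2) :=
      mul_le_mul_of_nonneg_left (by linarith only [hi]) hd0.le
    have h2 : 1 ≤ d * (2 * (1 / k1)) := by
      rw [show d * (2 * (1 / k1)) = 2 * d / k1 by ring, le_div_iff₀ hk1]
      linarith only [hd]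
    linarith only [this, h2]
  have key : 0 ≤ c * (c * (1 / k1 + 1 / k2) - 1) * (e1 + v) +
      d * (d * (1 / k1 + 1 / k2) - 1) * (g2 + u) := by
    rcases le_total 0 (c * (1 / k1 + 1 / k2) - 1) with h2 | h2
    · positivity
    · have h3 : g1 ≤ g2 := by
        have : g1 - g2 ≤ 0 := by
          rw [hgd]
          exact mul_nonpos_of_nonneg_of_nonpos hK (mul_nonpos_of_nonneg_of_nonpos hc.le h2)
        linarith only [this]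
      have h4 : c * (1 - c * (1 / k1 + 1 / k2)) ≤ c * (1 - 2 * c * (1 / k1)) := by
        have : c * (2 * (1 / k1)) ≤ c * (1 / k1 + 1 / k2) :=
          mul_le_mul_of_nonneg_left (by linarith only [hi]) hc.le
        nlinarith only [hc, this]
      have h5 : d * (2 * d * (1 / k1) - 1) ≤ d * (d * (1 / k1 + 1 / k2) - 1) := by
        have : d * (2 * (1 / k1)) ≤ d * (1 / k1 + 1 / k2) :=
          mul_le_mul_of_nonneg_left (by linarith only [hi]) hd0.le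
        nlinarith only [hc, this, hcd]
      have h6 : c * (1 - 2 * c * (1 / k1)) * (e1 + v) ≤ d * (2 * d * (1 / k1) - 1) * g1 := by
        rw [r3] at hs
        have hs2 : 4 * (k1 - c) * c = g1 * k1 ^ 2 := by rw [hg1]; field_simp
        rw [hs2] at hs
        have hk3 : 0 < k1 ^ 3 := by positivity
        have : (c * (1 - 2 * c * (1 / k1)) * (e1 + v)) * k1 ^ 3 ≤
            (d * (2 * d * (1 / k1) - 1) * g1) * k1 ^ 3 := by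
          calc (c * (1 - 2 * c * (1 / k1)) * (e1 + v)) * k1 ^ 3 =
              c * (k1 - 2 * c) * ((e1 + v) * k1 ^ 2) := by field_simp
            _ ≤ _ := hs
            _ = _ := by field_simp
        exact le_of_mul_le_mul_right this hk3
      have h7 : d * (2 * d * (1 / k1) - 1) * g1 ≤ d * (d * (1 / k1 + 1 / k2) - 1) * (g2 + u) := by
        have a1 : d * (2 * d * (1 / k1) - 1) * g1 ≤ d * (d * (1 / k1 + 1 / k2) - 1) * g1 :=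
          mul_le_mul_of_nonneg_right h5 hg1p
        have a2 : d * (d * (1 / k1 + 1 / k2) - 1) * g1 ≤
            d * (d * (1 / k1 + 1 / k2) - 1) * (g2 + u) :=
          mul_le_mul_of_nonneg_left (by linarith only [hu, h3]) (by positivity)
        linarith only [a1, a2]
      have h8 : c * (1 - c * (1 / k1 + 1 / k2)) * (e1 + v) ≤
          c * (1 - 2 * c * (1 / k1)) * (e1 + v) :=
        mul_le_mul_of_nonneg_right h4 (by linarith only [hv, he1p])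
      have h9 : c * (c * (1 / k1 + 1 / k2) - 1) * (e1 + v) =
          -(c * (1 - c * (1 / k1 + 1 / k2)) * (e1 + v)) := by ring
      rw [h9]
      linarith only [h6, h7, h8]
  generalize 1 / k1 + 1 / k2 = σ at hgd hed key
  have hmain : (g2 + u) * (e2 + v) ≤ (g1 + u) * (e1 + v) := by
    have e : (g1 + u) * (e1 + v) - (g2 + u) * (e2 + v) = 4 * (k1 - k2) / (k1 * k2) *
        (c * (c * σ - 1) * (e1 + v) + d * (d * σ - 1) * (g2 + u)) := by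
      have : (g1 + u) * (e1 + v) - (g2 + u) * (e2 + v) = (g1 - g2) * (e1 + v) +
        (g2 + u) * (e1 - e2) := by ring
      rw [this, hgd, hed]
      ring
    have := mul_nonneg hK key
    linarith only [e, this]
  rw [r1, r2, r3, r4]
  have h9 : 0 ≤ k1 ^ 4 * k2 ^ 4 := by positivity
  have h10 := mul_le_mul_of_nonneg_right hmain h9
  calc (g2 + u) * k2 ^ 2 * ((e2 + v) * k2 ^ 2) * k1 ^ 4 =
      (g2 + u) * (e2 + v) * (k1 ^ 4 * k2 ^ 4) := by ring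
    _ ≤ _ := h10
    _ = _ := by ring

theorem comb {X2 Y2 X1 Y1 W1 W2 k1 k2 : ℝ} (hk1 : 0 < k1) (hk2 : 0 < k2) (hW1 : 0 < W1)
    (hXY : 0 < X1 * Y1) (h1 : X2 * Y2 * k1 ^ 4 ≤ X1 * Y1 * k2 ^ 4) (hW : W1 * k2 ^ 2 < W2 * k1 ^ 2) :
    X2 * Y2 * W1 ^ 2 < X1 * Y1 * W2 ^ 2 := by
  have s1 : (W1 * k2 ^ 2) ^ 2 < (W2 * k1 ^ 2) ^ 2 :=
    pow_lt_pow_left₀ hW (by positivity) (by norm_num)
  have s2 : X2 * Y2 * k1 ^ 4 * W1 ^ 2 ≤ X1 * Y1 * k2 ^ 4 * W1 ^ 2 :=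
    mul_le_mul_of_nonneg_right h1 (by positivity)
  have s3 : X1 * Y1 * (W1 * k2 ^ 2) ^ 2 < X1 * Y1 * (W2 * k1 ^ 2) ^ 2 :=
    mul_lt_mul_of_pos_left s1 hXY
  have s4 : X2 * Y2 * W1 ^ 2 * k1 ^ 4 < X1 * Y1 * W2 ^ 2 * k1 ^ 4 := by
    calc X2 * Y2 * W1 ^ 2 * k1 ^ 4 = X2 * Y2 * k1 ^ 4 * W1 ^ 2 := by ring
      _ ≤ _ := s2
      _ = X1 * Y1 * (W1 * k2 ^ 2) ^ 2 := by ring
      _ < _ := s3
      _ = _ := by ring
  exact lt_of_mul_lt_mul_right s4 (by positivity)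

theorem w_lt {a1 a2 : ℝ} (ha1 : 0 < a1) (ha : a1 < a2) (ha2 : a2 ≤ 1) (B1 B2 τ : ℝ) :
    (4 * a1 ^ 2 * (1 + B1 ^ 2) ^ 2 + τ * ((1 + a1 ^ 2) * (1 + B1 ^ 2)) ^ 2) *
        ((1 + a2 ^ 2) * (1 + B2 ^ 2)) ^ 2 <
      (4 * a2 ^ 2 * (1 + B2 ^ 2) ^ 2 + τ * ((1 + a2 ^ 2) * (1 + B2 ^ 2)) ^ 2) *
        ((1 + a1 ^ 2) * (1 + B1 ^ 2)) ^ 2 := by
  have ha20 : 0 < a2 := ha1.trans ha
  have h3 : a1 * (1 + a2 ^ 2) < a2 * (1 + a1 ^ 2) := by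
    have h1 : a1 * a2 < 1 := by
      calc a1 * a2 ≤ a1 * 1 := mul_le_mul_of_nonneg_left ha2 ha1.le
        _ < 1 := by linarith only [ha, ha2]
    have h2 : 0 < (a2 - a1) * (1 - a1 * a2) := mul_pos (by linarith only [ha]) (by linarith only [h1])
    linarith only [h2]
  have h4 : (a1 * (1 + a2 ^ 2)) ^ 2 < (a2 * (1 + a1 ^ 2)) ^ 2 :=
    pow_lt_pow_left₀ h3 (by positivity) (by norm_num)
  have h5 : 0 < 4 * ((1 + B1 ^ 2) * (1 + B2 ^ 2)) ^ 2 := by positivity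
  have h6 := mul_lt_mul_of_pos_left h4 h5
  linarith only [h6]

/-- the condition at the starting point (`c = (1 - p)²`, `d = (1 + p)²`, `k = (1 + a²)(1 + B²)`) -/
def HS (a B v : ℝ) : Prop :=
  ((1 + a ^ 2) * (1 + B ^ 2) - 2 * (1 - a * B) ^ 2) *
      (4 * (B - a) ^ 2 * (1 + a * B) ^ 2 + v * ((1 + a ^ 2) * (1 + B ^ 2)) ^ 2) ≤
    (1 + a * B) ^ 2 * (2 * (1 + a * B) ^ 2 - (1 + a ^ 2) * (1 + B ^ 2)) * (4 * (a + B) ^ 2)

theorem w_anti_aux {a1 B1 a2 B2 u v : ℝ} (ha1 : 0 < a1) (hB1 : 0 < B1)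
    (hp : a1 * B1 = a2 * B2) (hp1 : a1 * B1 < 1)
    (hα : (a2 + B2) ^ 2 ≤ (a1 + B1) ^ 2)
    (hcos : (1 + a1 ^ 2) * (1 + B1 ^ 2) ≤ 2 * (1 + a1 * B1) ^ 2)
    (hu : 0 ≤ u) (hv : 0 ≤ v) (hs : HS a1 B1 v) :
    (4 * (a2 + B2) ^ 2 * (1 - a2 * B2) ^ 2 + u * ((1 + a2 ^ 2) * (1 + B2 ^ 2)) ^ 2) *
      (4 * (B2 - a2) ^ 2 * (1 + a2 * B2) ^ 2 + v * ((1 + a2 ^ 2) * (1 + B2 ^ 2)) ^ 2) *
      ((1 + a1 ^ 2) * (1 + B1 ^ 2)) ^ 4 ≤
    (4 * (a1 + B1) ^ 2 * (1 - a1 * B1) ^ 2 + u * ((1 + a1 ^ 2) * (1 + B1 ^ 2)) ^ 2) *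
      (4 * (B1 - a1) ^ 2 * (1 + a1 * B1) ^ 2 + v * ((1 + a1 ^ 2) * (1 + B1 ^ 2)) ^ 2) *
      ((1 + a2 ^ 2) * (1 + B2 ^ 2)) ^ 4 := by
  unfold HS at hs
  have e1 : (a1 + B1) ^ 2 = (1 + a1 ^ 2) * (1 + B1 ^ 2) - (1 - a1 * B1) ^ 2 := by ring
  have e2 : (a2 + B2) ^ 2 = (1 + a2 ^ 2) * (1 + B2 ^ 2) - (1 - a1 * B1) ^ 2 := by rw [hp]; ring
  have e3 : (B1 - a1) ^ 2 = (1 + a1 ^ 2) * (1 + B1 ^ 2) - (1 + a1 * B1) ^ 2 := by ring
  have e4 : (B2 - a2) ^ 2 = (1 + a2 ^ 2) * (1 + B2 ^ 2) - (1 + a1 * B1) ^ 2 := by rw [hp]; ring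
  have q4 : 0 ≤ (B2 - a2) ^ 2 := sq_nonneg _
  have hk1 : 0 < (1 + a1 ^ 2) * (1 + B1 ^ 2) := by positivity
  have hk2 : 0 < (1 + a2 ^ 2) * (1 + B2 ^ 2) := by positivity
  have hpp : 0 < a1 * B1 := by positivity
  rw [← hp]
  rw [e2] at hα ⊢
  rw [e1] at hα hs ⊢
  rw [e4] at q4 ⊢
  rw [e3] at hs ⊢
  generalize (1 + a1 ^ 2) * (1 + B1 ^ 2) = k1 at *
  generalize (1 + a2 ^ 2) * (1 + B2 ^ 2) = k2 at *
  generalize a1 * B1 = p at *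
  have hc : 0 < (1 - p) ^ 2 := by
    have : 0 < 1 - p := by linarith only [hp1]
    positivity
  have hs' : (1 - p) ^ 2 * (k1 - 2 * (1 - p) ^ 2) * (4 * (k1 - (1 + p) ^ 2) * (1 + p) ^ 2 + v * k1 ^ 2) ≤
      (1 + p) ^ 2 * (2 * (1 + p) ^ 2 - k1) * (4 * (k1 - (1 - p) ^ 2) * (1 - p) ^ 2) := by
    have := mul_le_mul_of_nonneg_left hs hc.le
    linarith only [this]
  exact anti_abs (u := u) hk2 (by linarith only [hα]) hc (by linarith only [hpp]) hcos (by linarith only [q4]) hu hv hs'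

/-- **Comparison of the sides along `a B = const`**: from `(a1, B1)` to `(a2, B2)`, `a1 < a2`. -/
theorem w_anti {a1 B1 a2 B2 u v τ : ℝ} (ha1 : 0 < a1) (hB1 : 0 < B1)
    (hp : a1 * B1 = a2 * B2) (hp1 : a1 * B1 < 1) (ha : a1 < a2) (ha2 : a2 ≤ 1)
    (hα : (a2 + B2) ^ 2 ≤ (a1 + B1) ^ 2)
    (hcos : (1 + a1 ^ 2) * (1 + B1 ^ 2) ≤ 2 * (1 + a1 * B1) ^ 2)
    (hu : 0 ≤ u) (hv : 0 ≤ v) (hτ : 0 ≤ τ) (hs : HS a1 B1 v)
    (hpos : 0 < 4 * (B1 - a1) ^ 2 * (1 + a1 * B1) ^ 2 + v * ((1 + a1 ^ 2) * (1 + B1 ^ 2)) ^ 2) :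
    (4 * (a2 + B2) ^ 2 * (1 - a2 * B2) ^ 2 + u * ((1 + a2 ^ 2) * (1 + B2 ^ 2)) ^ 2) *
      (4 * (B2 - a2) ^ 2 * (1 + a2 * B2) ^ 2 + v * ((1 + a2 ^ 2) * (1 + B2 ^ 2)) ^ 2) *
      (4 * a1 ^ 2 * (1 + B1 ^ 2) ^ 2 + τ * ((1 + a1 ^ 2) * (1 + B1 ^ 2)) ^ 2) ^ 2 <
    (4 * (a1 + B1) ^ 2 * (1 - a1 * B1) ^ 2 + u * ((1 + a1 ^ 2) * (1 + B1 ^ 2)) ^ 2) *
      (4 * (B1 - a1) ^ 2 * (1 + a1 * B1) ^ 2 + v * ((1 + a1 ^ 2) * (1 + B1 ^ 2)) ^ 2) *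
      (4 * a2 ^ 2 * (1 + B2 ^ 2) ^ 2 + τ * ((1 + a2 ^ 2) * (1 + B2 ^ 2)) ^ 2) ^ 2 := by
  have h1 : 0 < 1 - a1 * B1 := by linarith only [hp1]
  exact comb (by positivity) (by positivity) (by positivity)
    (mul_pos (by positivity) hpos)
    (w_anti_aux ha1 hB1 hp hp1 hα hcos hu hv hs) (w_lt ha1 ha ha2 B1 B2 τ)

end RC

end Pool.Agent.Work.MP_b30479_gt.G2
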