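import Mathlib

/-!
# Rings on the level part: comparison of the contributions to the derivative

Polynomial identities in `α = (a + B)²`, `p = a B`.
-/

namespace Pool.Agent.Work.MP_b30479_gt.G2

namespace RC

def np (α p u : ℝ) : ℝ := 4 * α * (1 - p) ^ 2 + u * (α + (1 - p) ^ 2) ^ 2
def nm (α p v : ℝ) : ℝ := 4 * (α - 4 * p) * (1 + p) ^ 2 + v * (α + (1 - p) ^ 2) ^ 2

/-- the factors `k_m`, `c_m`, `d_m` -/
def km (α p m : ℝ) : ℝ := 1 + m * (α - 2 * p) + m ^ 2 * p ^ 2
def cm (α p m : ℝ) : ℝ := 1 - m * (α - 2 * p) + m ^ 2 * p ^ 2 - 4 * m * p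
def dm (α p m : ℝ) : ℝ := 1 - m * (α - 2 * p) + m ^ 2 * p ^ 2 + 4 * m * p

/-- the decisive expression -/
def ff (α p v m : ℝ) : ℝ :=
  32 * (α - 4 * p) * m * p - v * (cm α p 1 * km α p m + cm α p m * km α p 1)

/-- **diagonal identity** -/
theorem diag_id (α p u v m : ℝ) :
    np (m * α) (m * p) u * nm α p v - np α p u * nm (m * α) (m * p) v =
      2 * (1 - m) * (1 - m * p ^ 2) * (α * ff α p v m +
        (α - 4 * p) * u * (dm α p m * km α p 1 + dm α p 1 * km α p m)) := by
  unfold np nm ff km cm dm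
  ring

theorem ff_id (α p v m m0 : ℝ) : ff α p v m * km α p m0 - ff α p v m0 * km α p m =
    (m - m0) * (1 - m * m0 * p ^ 2) * (32 * (α - 4 * p) * p + 2 * α * v * km α p 1) := by
  unfold ff km cm
  ring

/-- **anti-diagonal identity** -/
theorem anti_id (α α' p u v : ℝ) :
    np α' p u * nm α p v - np α p u * nm α' p v =
      (α - α') * (4 * (1 - p) ^ 2 * (16 * p * (1 + p) ^ 2 - v * (1 - p) ^ 4) +
        4 * v * (1 - p) ^ 2 * (α * α') +
        4 * u * (1 + p) ^ 2 * ((1 + p) ^ 4 - (α - 4 * p) * (α' - 4 * p))) := by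
  unfold np nm
  ring

section
variable {α α' p u v m m0 : ℝ}

theorem km_pos (hp : 0 < p) (hα : 4 * p ≤ α) (hm : 0 ≤ m) : 0 < km α p m := by
  unfold km
  have : 0 ≤ m * (α - 2 * p) := mul_nonneg hm (by linarith only [hp, hα])
  positivity

theorem dm_nonneg (hp : 0 < p) (hm : 0 ≤ m) (h : m * (α - 4 * p) ≤ 1) : 0 ≤ dm α p m := by
  unfold dm
  have h1 : 0 ≤ m * p := by positivity
  nlinarith only [h, h1]

theorem ff_pos (hp : 0 < p) (hα : 4 * p < α) (hv : 0 ≤ v) (h0 : 0 ≤ m0) (h1 : m0 < m)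
    (h2 : m * m0 * p ^ 2 < 1) (hf : 0 ≤ ff α p v m0) : 0 < ff α p v m := by
  have k0 := km_pos hp hα.le h0
  have k := km_pos hp hα.le (h0.trans h1.le)
  have k1 := km_pos hp hα.le zero_le_one
  have id := ff_id α p v m m0
  have a1 : 0 < (m - m0) * (1 - m * m0 * p ^ 2) * (32 * (α - 4 * p) * p + 2 * α * v * km α p 1) := by
    have b1 : 0 < m - m0 := by linarith only [h1]
    have b2 : 0 < 1 - m * m0 * p ^ 2 := by linarith only [h2]
    have b3 : 0 < 32 * (α - 4 * p) * p := by
      have : 0 < α - 4 * p := by linarith only [hα]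
      positivity
    have b4 : 0 ≤ 2 * α * v * km α p 1 := by
      have : 0 < α := by linarith only [hp, hα]
      positivity
    positivity
  have a2 : 0 < ff α p v m * km α p m0 := by
    have := mul_nonneg hf k.le
    linarith only [id, a1, this]
  exact (pos_iff_pos_of_mul_pos a2).2 k0

theorem diag_pos (hp : 0 < p) (hα : 4 * p < α) (hm : 0 < m) (hu : 0 ≤ u)
    (hf : 0 < ff α p v m) (h1 : α - 4 * p ≤ 1) (h2 : m * (α - 4 * p) ≤ 1) :
    0 < α * ff α p v m +
        (α - 4 * p) * u * (dm α p m * km α p 1 + dm α p 1 * km α p m) := by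
  have k := km_pos hp hα.le hm.le
  have k1 := km_pos hp hα.le zero_le_one
  have d := dm_nonneg hp hm.le h2
  have d1 := dm_nonneg (α := α) hp zero_le_one (by linarith only [h1])
  have : 0 < α := by linarith only [hp, hα]
  have : 0 < α - 4 * p := by linarith only [hα]
  positivity

/-- the contribution increases along the diagonal, going down -/
theorem diag_dn (hp : 0 < p) (hα : 4 * p < α) (hm : 0 < m) (hm1 : m < 1) (hp1 : m * p ^ 2 < 1)
    (hu : 0 ≤ u) (hf : 0 < ff α p v m) (h1 : α - 4 * p ≤ 1) :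
    np α p u * nm (m * α) (m * p) v < np (m * α) (m * p) u * nm α p v := by
  have h := diag_pos hp hα hm hu hf h1 (by nlinarith only [h1, hα, hm1])
  have id := diag_id α p u v m
  have : 0 < 2 * (1 - m) * (1 - m * p ^ 2) := by
    have : 0 < 1 - m := by linarith only [hm1]
    have : 0 < 1 - m * p ^ 2 := by linarith only [hp1]
    positivity
  nlinarith only [id, this, h, mul_pos this h]

/-- the contribution decreases along the diagonal, going up -/
theorem diag_up (hp : 0 < p) (hα : 4 * p < α) (hm1 : 1 < m) (hp1 : m * p ^ 2 < 1)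
    (hu : 0 ≤ u) (hf : 0 < ff α p v m) (h1 : m * (α - 4 * p) ≤ 1) :
    np (m * α) (m * p) u * nm α p v < np α p u * nm (m * α) (m * p) v := by
  have h := diag_pos hp hα (by linarith only [hm1]) hu hf (by nlinarith only [h1, hα, hm1]) h1
  have id := diag_id α p u v m
  have : 0 < 2 * (m - 1) * (1 - m * p ^ 2) := by
    have : 0 < m - 1 := by linarith only [hm1]
    have : 0 < 1 - m * p ^ 2 := by linarith only [hp1]
    positivity
  nlinarith only [id, this, h, mul_pos this h]

/-- the contribution increases when `α` decreases -/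
theorem anti_lt (hp : 0 < p) (hp1 : p < 1) (h : α' < α) (hα' : 4 * p ≤ α') (hu : 0 ≤ u) (hv : 0 ≤ v)
    (hv1 : v < 16 * p) (hβ : α - 4 * p ≤ 1) :
    np α p u * nm α' p v < np α' p u * nm α p v := by
  have id := anti_id α α' p u v
  have b0 : 0 < (1 - p) ^ 2 := by
    have : 0 < 1 - p := by linarith only [hp1]
    positivity
  have b1 : 0 < 16 * p * (1 + p) ^ 2 - v * (1 - p) ^ 4 := by
    have c1 : (1 - p) ^ 4 ≤ 1 := pow_le_one₀ (by linarith only [hp1]) (by linarith only [hp])
    have c2 : 1 ≤ (1 + p) ^ 2 := one_le_pow₀ (by linarith only [hp])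
    nlinarith only [hv1, hp, c2, hv, c1]
  have b2 : 0 ≤ (1 + p) ^ 4 - (α - 4 * p) * (α' - 4 * p) := by
    have c2 : 1 ≤ (1 + p) ^ 4 := one_le_pow₀ (by linarith only [hp])
    have : (α - 4 * p) * (α' - 4 * p) ≤ 1 := mul_le_one₀ hβ (by linarith only [hα']) (by linarith only [h, hβ])
    linarith only [c2, this]
  have b3 : 0 < α * α' := mul_pos (by linarith only [hp, h, hα']) (by linarith only [hp, hα'])
  have : 0 < (α - α') * (4 * (1 - p) ^ 2 * (16 * p * (1 + p) ^ 2 - v * (1 - p) ^ 4) +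
        4 * v * (1 - p) ^ 2 * (α * α') +
        4 * u * (1 + p) ^ 2 * ((1 + p) ^ 4 - (α - 4 * p) * (α' - 4 * p))) := by
    have : 0 < α - α' := by linarith only [h]
    positivity
  linarith only [id, this]

theorem np_pos (hp1 : p < 1) (hα : 0 < α) (hu : 0 ≤ u) : 0 < np α p u := by
  unfold np
  have : 0 < 1 - p := by linarith only [hp1]
  positivity

theorem nm_pos (hp : 0 < p) (hα : 4 * p < α) (hv : 0 ≤ v) : 0 < nm α p v := by
  unfold nm
  have : 0 < α - 4 * p := by linarith only [hα]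
  positivity

end

/-- transitivity of the comparison of quotients `a / b < c / d ≤ e / f` (`f = 0` is allowed) -/
theorem quot_trans {a b c d e f : ℝ} (hb : 0 < b) (hd : 0 < d) (he : 0 < e) (hf : 0 ≤ f)
    (h1 : a * d < c * b) (h2 : c * f ≤ e * d) : a * f < e * b := by
  rcases hf.lt_or_eq with h3 | h3
  · have h4 : a * d * f < c * b * f := mul_lt_mul_of_pos_right h1 h3
    have h5 : b * (c * f) ≤ b * (e * d) := mul_le_mul_of_nonneg_left h2 hb.le
    have h6 : a * f * d < e * b * d := by linarith only [h4, h5]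
    exact lt_of_mul_lt_mul_right h6 hd.le
  · rw [← h3, mul_zero]
    positivity

/-! ### the two claims -/

section
variable {a B a' B' u v : ℝ}

theorem quad_id (a B a' B' : ℝ) : a' * B' * (a + B) ^ 2 - a * B * (a' + B') ^ 2 =
    (a * a' - B * B') * (a * B' - a' * B) := by ring

theorem NP_np (a B u : ℝ) :
    4 * (a + B) ^ 2 * (1 - a * B) ^ 2 + u * ((1 + a ^ 2) * (1 + B ^ 2)) ^ 2 =
      np ((a + B) ^ 2) (a * B) u := by
  unfold np
  ring

theorem NM_nm (a B v : ℝ) :
    4 * (B - a) ^ 2 * (1 + a * B) ^ 2 + v * ((1 + a ^ 2) * (1 + B ^ 2)) ^ 2 =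
      nm ((a + B) ^ 2) (a * B) v := by
  unfold nm
  ring

/-- **The ring variable moves down more than the hinge**: the contribution increases. -/
theorem z_dn (ha : 0 < a) (haB : a < B) (hB1 : B ≤ 1) (ha' : 0 < a') (hB' : 0 < B')
    (h1 : a * B' < a' * B) (h2 : a' * B' < a * B) (hK : a * a' < B * B') (hu : 0 ≤ u) (hv : 0 ≤ v)
    (hv1 : v < 16 * (a' * B')) (hf : 0 < ff ((a + B) ^ 2) (a * B) v (a' * B' / (a * B))) :
    np ((a + B) ^ 2) (a * B) u * nm ((a' + B') ^ 2) (a' * B') v <
      np ((a' + B') ^ 2) (a' * B') u * nm ((a + B) ^ 2) (a * B) v := by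
  have hB : 0 < B := ha.trans haB
  have hp : 0 < a * B := by positivity
  have hp' : 0 < a' * B' := by positivity
  have hp1 : a * B < 1 := by nlinarith only [haB, hB1, ha]
  set m := a' * B' / (a * B) with hm
  have hm0 : 0 < m := by positivity
  have hm1 : m < 1 := (div_lt_one hp).2 h2
  have hmp : m * (a * B) = a' * B' := by rw [hm]; field_simp
  have hα : 4 * (a * B) < (a + B) ^ 2 := by nlinarith only [haB, sq_pos_of_pos (sub_pos.2 haB)]
  have hβ : (a + B) ^ 2 - 4 * (a * B) ≤ 1 := by nlinarith only [hB1, ha, haB, h2, hp', hp1]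
  have e1 := diag_dn (m := m) hp hα hm0 hm1 (by nlinarith only [hB1, hm1, ha, haB, h2, hp', hp1, hv, hv1, mul_pos hp hp]) hu hf hβ
  rw [hmp] at e1
  have hlt : (a' + B') ^ 2 < m * (a + B) ^ 2 := by
    have h3 := quad_id a B a' B'
    have h4 : 0 < (a * a' - B * B') * (a * B' - a' * B) :=
      mul_pos_of_neg_of_neg (by linarith only [hK]) (by linarith only [h1])
    have h5 : a * B * (a' + B') ^ 2 < a * B * (m * (a + B) ^ 2) := by
      have : a * B * (m * (a + B) ^ 2) = a' * B' * (a + B) ^ 2 := by rw [← hmp]; ring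
      linarith only [h4, this]
    exact lt_of_mul_lt_mul_left h5 hp.le
  have hα' : 4 * (a' * B') ≤ (a' + B') ^ 2 := by nlinarith only [sq_nonneg (a' - B')]
  have e2 := anti_lt (u := u) (v := v) hp' (h2.trans hp1) hlt hα' hu hv hv1 (by
    have : m * (a + B) ^ 2 - 4 * (a' * B') = m * ((a + B) ^ 2 - 4 * (a * B)) := by
      rw [← hmp]; ring
    rw [this]
    nlinarith only [ha, hB1, hmp, hm1, haB, h2, hv, hβ, hv1])
  refine quot_trans (nm_pos hp hα hv) (nm_pos hp' (by linarith only [hlt, hα']) hv)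
    (np_pos (h2.trans hp1) (by positivity) hu) ?_ e1 e2.le
  unfold nm
  have : 0 ≤ (a' + B') ^ 2 - 4 * (a' * B') := by linarith only [hα']
  positivity

/-- **The ring variable moves up more than the hinge**: the contribution decreases. -/
theorem z_up (ha : 0 < a) (haB : a < B) (ha' : 0 < a') (hB' : 0 < B') (hB1 : B' ≤ 1)
    (h1 : a' * B < a * B') (h2 : a * B < a' * B') (hu : 0 ≤ u) (hv : 0 ≤ v)
    (hv1 : v < 16 * (a * B)) (hf : 0 < ff ((a + B) ^ 2) (a * B) v (a' * B' / (a * B))) :
    np ((a' + B') ^ 2) (a' * B') u * nm ((a + B) ^ 2) (a * B) v <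
      np ((a + B) ^ 2) (a * B) u * nm ((a' + B') ^ 2) (a' * B') v := by
  have hB : 0 < B := ha.trans haB
  have hp : 0 < a * B := by positivity
  have hp' : 0 < a' * B' := by positivity
  have hBB : B < B' := by
    by_contra hcon
    push Not at hcon
    have h3 : a' < a := by
      by_contra h4
      push Not at h4
      nlinarith only [h1, ha, hcon, h4, haB]
    nlinarith only [h2, ha, h3, haB, ha', hcon]
  have haB' : a' < B' := by nlinarith only [h1, ha, haB, ha']
  have hp1 : a' * B' < 1 := by nlinarith only [hB1, haB', ha']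
  set m := a' * B' / (a * B) with hm
  have hm1 : 1 < m := (one_lt_div hp).2 h2
  have hmp : m * (a * B) = a' * B' := by rw [hm]; field_simp
  have hα : 4 * (a * B) < (a + B) ^ 2 := by nlinarith only [haB, sq_pos_of_pos (sub_pos.2 haB)]
  have hlt : m * (a + B) ^ 2 < (a' + B') ^ 2 := by
    have h3 := quad_id a B a' B'
    have h6 : a * a' < B * B' := by nlinarith only [ha, haB', haB, hB']
    have h4 : (a * a' - B * B') * (a * B' - a' * B) < 0 :=
      mul_neg_of_neg_of_pos (by linarith only [h6]) (by linarith only [h1])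
    have h5 : a * B * (m * (a + B) ^ 2) < a * B * (a' + B') ^ 2 := by
      have : a * B * (m * (a + B) ^ 2) = a' * B' * (a + B) ^ 2 := by rw [← hmp]; ring
      linarith only [h4, this]
    exact lt_of_mul_lt_mul_left h5 hp.le
  have hβ' : (a' + B') ^ 2 - 4 * (a' * B') ≤ 1 := by nlinarith only [hB1, h2, ha, haB, ha', haB', hB']
  have hmβ : m * ((a + B) ^ 2 - 4 * (a * B)) ≤ 1 := by
    have : m * ((a + B) ^ 2 - 4 * (a * B)) = m * (a + B) ^ 2 - 4 * (a' * B') := by
      rw [← hmp]; ring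
    linarith only [hmp, hlt, hβ']
  have e1 := diag_up (m := m) hp hα hm1 (by nlinarith only [hB1, h2, haB', ha', hv, hp1, hmp, hv1]) hu hf hmβ
  rw [hmp] at e1
  have hα' : 4 * (a' * B') < m * (a + B) ^ 2 := by
    rw [← hmp]
    nlinarith only [hmp, h2, hα, hv, hv1]
  have e2 := anti_lt (u := u) (v := v) hp' hp1 hlt hα'.le hu hv (by linarith only [h2, hv1]) hβ'
  refine quot_trans (nm_pos hp' (by linarith only [hlt, hα']) hv) (nm_pos hp' hα' hv)
    (np_pos (h2.trans hp1) (by positivity) hu) (nm_pos hp hα hv).le e2 e1.le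

end

end RC

end Pool.Agent.Work.MP_b30479_gt.G2
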