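import Pool.Agent.Work.MP_b30479_gt.G2.RLev

/-!
# The horizontal derivative of `fR` in the direction of the hinge: strict version
-/

namespace Pool.Agent.Work.MP_b30479_gt.G2

open Finset VOL Filter Topology

/-- the case `|Re ζ| ≤ 1/4`: `cA = cos 2πσ`, `sA = |sin 2πσ|`, `ch, sh` of `2πρ` -/
theorem ring_Q_mid_pos {R I ch sh cA sA : ℝ} (hI : 0 ≤ I) (hsh : 0 ≤ sh) (hc0 : 0 ≤ cA) (hc1 : cA ≤ 1)
    (hs1 : sA ≤ 1) (h0 : 0 < 2 * R - 2 * I * sh - ch ^ 2)
    (h1 : 0 < (1 + ch) * (2 * R - 1 - ch) - 2 * I * sh) :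
    0 < 2 * R * (1 + cA * ch) - 2 * I * sh * sA - (cA + ch) ^ 2 := by
  have e1 : 0 ≤ I * sh * (1 - sA) := mul_nonneg (mul_nonneg hI hsh) (by linarith only [hs1])
  have e2 := mul_nonneg (sub_nonneg.mpr hc1) h0.le
  have e3 := mul_nonneg hc0 h1.le
  have e5 : 0 < (1 - cA) * (2 * R - 2 * I * sh - ch ^ 2) +
      cA * ((1 + ch) * (2 * R - 1 - ch) - 2 * I * sh) := by
    rcases hc1.lt_or_eq with h | h
    · have := mul_pos (sub_pos.mpr h) h0
      linarith only [e3, this]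
    · rw [h]
      linarith only [h1]
  have e4 := mul_nonneg hc0 (sub_nonneg.mpr hc1)
  nlinarith only [e1, e5, e4]

/-- the case `|Re ζ| ≥ 1/4`: `s1 = sin (D/2)`, `s2 = sinh (H/2)`, `m = cos (D/2) cosh (H/2)` -/
theorem ring_Q_side_pos {R I θ s1 s2 m : ℝ} (hI : 0 ≤ I) (hR : 0 ≤ R) (hs1 : 0 < s1) (hs1' : s1 ^ 2 ≤ 1 / 2)
    (hs2 : 0 ≤ s2) (hθ : s2 ≤ θ * s1) (hθ1 : θ ≤ 1) (hm : m ^ 2 = (1 - s1 ^ 2) * (1 + s2 ^ 2))
    (p0 : 0 < R * (1 - θ ^ 2) - 2 * I * θ)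
    (p1 : 0 < R - I * θ * (3 + θ ^ 2) / 2 - (1 + θ ^ 2) ^ 2 / 2) :
    0 < R * (s1 ^ 2 - s2 ^ 2 + 2 * s1 ^ 2 * s2 ^ 2) - 2 * I * s1 * s2 * m -
      (s1 ^ 2 + s2 ^ 2) ^ 2 := by
  have h0 := hs1
  have hθ0 : 0 ≤ θ := by
    by_contra h
    push Not at h
    nlinarith only [hs2, hθ, hs1, h]
  set p := s1 ^ 2 with hp
  have hp00 : 0 < p := by positivity
  have hp0 : 0 ≤ p := hp00.le
  have h2 : s2 ^ 2 ≤ θ ^ 2 * p := by
    have := pow_le_pow_left₀ hs2 hθ 2
    rw [mul_pow] at this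
    exact this
  have h3 : s1 * s2 ≤ θ * p := by
    have := mul_le_mul_of_nonneg_left hθ hs1.le
    calc s1 * s2 ≤ s1 * (θ * s1) := this
      _ = θ * p := by rw [hp]; ring
  have hθ2 : θ ^ 2 ≤ 1 := by nlinarith only [p0, hI, hθ0, hR]
  have h5 : s2 ^ 2 ≤ p := by nlinarith
  -- the bound for `m`
  have hm1 : m ≤ 1 - (p - s2 ^ 2) / 2 := by
    have h6 : m ^ 2 ≤ (1 - (p - s2 ^ 2) / 2) ^ 2 := by
      rw [hm]
      nlinarith only [hp0, mul_nonneg hp0 (sq_nonneg s2), sq_nonneg (p - s2 ^ 2)]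
    have h7 : 0 ≤ 1 - (p - s2 ^ 2) / 2 := by nlinarith only [hs1', hp00, sq_nonneg s2]
    exact (le_abs_self m).trans (abs_le_of_sq_le_sq h6 h7)
  have hq0 : 0 ≤ s2 ^ 2 := sq_nonneg s2
  set q := s2 ^ 2 with hq
  have hm2 : 1 - (p - q) / 2 ≤ 1 - p * (1 - θ ^ 2) / 2 := by nlinarith only [h2]
  have h8 : 2 * I * s1 * s2 * m ≤ 2 * I * (θ * p) * (1 - p * (1 - θ ^ 2) / 2) := by
    have a1 : 0 ≤ s1 * s2 := mul_nonneg hs1.le hs2
    have a2 : s1 * s2 * m ≤ s1 * s2 * (1 - p * (1 - θ ^ 2) / 2) :=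
      mul_le_mul_of_nonneg_left (hm1.trans hm2) a1
    have a3 : 0 ≤ 1 - p * (1 - θ ^ 2) / 2 := by nlinarith only [hs1', hp00, h2]
    have a4 := mul_le_mul_of_nonneg_right h3 a3
    have a5 := mul_le_mul_of_nonneg_left (a2.trans a4) (mul_nonneg zero_le_two hI)
    calc 2 * I * s1 * s2 * m = 2 * I * (s1 * s2 * m) := by ring
      _ ≤ _ := a5
      _ = _ := by ring
  have h9 : p * (1 - θ ^ 2 + 2 * θ ^ 2 * p) ≤ p - q + 2 * p * q := by
    have := mul_nonneg (sub_nonneg.mpr h2) (show (0 : ℝ) ≤ 1 - 2 * p by linarith only [hs1'])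
    nlinarith only [this]
  have h10 : (p + q) ^ 2 ≤ (p * (1 + θ ^ 2)) ^ 2 := by
    apply pow_le_pow_left₀ (by positivity)
    nlinarith only [h2]
  have h11 := mul_le_mul_of_nonneg_left h9 hR
  have h12 := mul_nonneg (mul_nonneg hp0 (show (0 : ℝ) ≤ 1 - 2 * p by linarith only [hs1'])) p0.le
  have h13 := mul_nonneg (mul_nonneg hp0 (show (0 : ℝ) ≤ 2 * p by linarith only [hp00])) p1.le
  have h14 : 0 < p * (1 - 2 * p) * (R * (1 - θ ^ 2) - 2 * I * θ) +
      p * (2 * p) * (R - I * θ * (3 + θ ^ 2) / 2 - (1 + θ ^ 2) ^ 2 / 2) := by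
    have := mul_pos (mul_pos hp00 (show (0 : ℝ) < 2 * p by linarith only [hp00])) p1
    linarith only [h12, this]
  nlinarith only [h8, h10, h11, h14]

/-- the conditions on `R`, `I` and the height `ρ` -/
structure RCondS (R I ρ : ℝ) : Prop where
  R0 : 0 ≤ R
  I0 : 0 ≤ I
  h0 : 0 < 2 * R - 2 * I * Real.sinh (2 * Real.pi * ρ) - Real.cosh (2 * Real.pi * ρ) ^ 2
  h1 : 0 < (1 + Real.cosh (2 * Real.pi * ρ)) * (2 * R - 1 - Real.cosh (2 * Real.pi * ρ)) -
    2 * I * Real.sinh (2 * Real.pi * ρ)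
  θ1 : √2 * Real.sinh (Real.pi * ρ) ≤ 1
  p0 : 0 < R * (1 - (√2 * Real.sinh (Real.pi * ρ)) ^ 2) - 2 * I * (√2 * Real.sinh (Real.pi * ρ))
  p1 : 0 < R - I * (√2 * Real.sinh (Real.pi * ρ)) * (3 + (√2 * Real.sinh (Real.pi * ρ)) ^ 2) / 2 -
    (1 + (√2 * Real.sinh (Real.pi * ρ)) ^ 2) ^ 2 / 2

theorem ring_Q_pos {x t σ ρ : ℝ} (hρ : 0 ≤ ρ) (hσ : |σ| < 1 / 2)
    (hc : RCondS (1 - Real.cos (2 * Real.pi * x) * Real.cosh (2 * Real.pi * t))
      |Real.sin (2 * Real.pi * x) * Real.sinh (2 * Real.pi * t)| ρ) :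
    0 < 2 * (1 - Real.cos (2 * Real.pi * x) * Real.cosh (2 * Real.pi * t)) *
      (1 + Real.cos (2 * Real.pi * σ) * Real.cosh (2 * Real.pi * (ρ * LT.th σ))) -
      2 * Real.sin (2 * Real.pi * σ) * Real.sinh (2 * Real.pi * (ρ * LT.th σ)) *
        Real.sin (2 * Real.pi * x) * Real.sinh (2 * Real.pi * t) -
      (Real.cos (2 * Real.pi * σ) + Real.cosh (2 * Real.pi * (ρ * LT.th σ))) ^ 2 := by
  have hpi := Real.pi_pos
  obtain ⟨R0, I0, h0, h1, θ1, p0, p1⟩ := hc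
  set R := 1 - Real.cos (2 * Real.pi * x) * Real.cosh (2 * Real.pi * t) with hR
  set I := |Real.sin (2 * Real.pi * x) * Real.sinh (2 * Real.pi * t)| with hI
  have hth : 0 ≤ LT.th σ := by
    unfold LT.th
    apply le_min <;> linarith only [hσ]
  have hsh : 0 ≤ Real.sinh (2 * Real.pi * (ρ * LT.th σ)) := by
    rw [Real.sinh_nonneg_iff]
    positivity
  have key : 2 * Real.sin (2 * Real.pi * σ) * Real.sinh (2 * Real.pi * (ρ * LT.th σ)) *
      Real.sin (2 * Real.pi * x) * Real.sinh (2 * Real.pi * t) ≤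
      2 * I * Real.sinh (2 * Real.pi * (ρ * LT.th σ)) * |Real.sin (2 * Real.pi * σ)| := by
    calc _ = 2 * Real.sinh (2 * Real.pi * (ρ * LT.th σ)) * (Real.sin (2 * Real.pi * σ) *
        (Real.sin (2 * Real.pi * x) * Real.sinh (2 * Real.pi * t))) := by ring
      _ ≤ 2 * Real.sinh (2 * Real.pi * (ρ * LT.th σ)) * (|Real.sin (2 * Real.pi * σ)| * I) := by
        apply mul_le_mul_of_nonneg_left _ (by positivity)
        rw [hI, ← abs_mul]
        exact le_abs_self _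
      _ = _ := by ring
  rcases le_total |σ| (1 / 4) with hq | hq
  · have hth1 : LT.th σ = 1 := by
      unfold LT.th
      exact min_eq_left (by linarith only [hq])
    rw [hth1, mul_one] at key ⊢
    have hc0 : 0 ≤ Real.cos (2 * Real.pi * σ) := by
      apply Real.cos_nonneg_of_neg_pi_div_two_le_of_le <;> nlinarith only [hpi, hq, abs_le.mp hq]
    have hsh' : 0 ≤ Real.sinh (2 * Real.pi * ρ) := by
      rw [Real.sinh_nonneg_iff]
      positivity
    have := ring_Q_mid_pos (R := R) I0 hsh' hc0 (Real.cos_le_one _)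
      (Real.abs_sin_le_one (2 * Real.pi * σ)) h0 h1
    linarith only [key, this]
  · have hth1 : LT.th σ = 2 - 4 * |σ| := by
      unfold LT.th
      exact min_eq_right (by linarith only [hq])
    set D := Real.pi * (1 - 2 * |σ|) with hD
    have hD00 : 0 < D := by rw [hD]; apply mul_pos hpi; linarith only [hσ]
    have hD0 : 0 ≤ D := hD00.le
    have hDle : D / 2 ≤ Real.pi / 4 := by rw [hD]; nlinarith only [hpi, hq]
    have eH : 2 * Real.pi * (ρ * LT.th σ) = 2 * (2 * ρ * D) := by rw [hth1, hD]; ring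
    have ec : Real.cos (2 * Real.pi * σ) = -Real.cos D := by
      rw [← Real.cos_abs, abs_mul, abs_of_pos (by positivity), ← Real.cos_pi_sub, hD]
      congr 1
      ring
    have es : |Real.sin (2 * Real.pi * σ)| = Real.sin D := by
      have : Real.sin D = Real.sin (2 * Real.pi * |σ|) := by
        rw [← Real.sin_pi_sub, hD]
        congr 1
        ring
      have h2 : 0 ≤ Real.sin D := by
        apply Real.sin_nonneg_of_nonneg_of_le_pi hD0
        linarith only [hD00, hDle]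
      rw [← abs_of_nonneg h2, this]
      rcases abs_choice σ with h | h <;> rw [h]
      rw [mul_neg, Real.sin_neg, abs_neg]
    rw [es] at key
    rw [ec]
    rw [eH] at key hsh ⊢
    have hs1 : 0 < Real.sin (D / 2) := by
      apply Real.sin_pos_of_pos_of_lt_pi (by positivity)
      linarith only [hD00, hDle]
    have hs1' : Real.sin (D / 2) ^ 2 ≤ 1 / 2 := by
      have a1 : Real.sin (D / 2) ≤ Real.sin (Real.pi / 4) := by
        apply Real.sin_le_sin_of_le_of_le_pi_div_two <;> linarith only [hD00, hDle]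
      rw [Real.sin_pi_div_four] at a1
      have a2 := pow_le_pow_left₀ hs1.le a1 2
      rw [div_pow, Real.sq_sqrt (by norm_num)] at a2
      linarith only [a2]
    have hs2 : 0 ≤ Real.sinh (2 * ρ * D) := by
      rw [Real.sinh_nonneg_iff]
      positivity
    have hθ : Real.sinh (2 * ρ * D) ≤ (√2 * Real.sinh (Real.pi * ρ)) * Real.sin (D / 2) := by
      have l0 : 0 ≤ 1 - 2 * |σ| := by linarith only [hσ]
      set l := 2 * (1 - 2 * |σ|) with hl
      have b1 := sinh_mul_le (l := l) (z := Real.pi * ρ) (by positivity) (by linarith only [hq])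
        (by positivity)
      have b2 := mul_le_sin_quarter (l := l) (by positivity) (by linarith only [hq])
      rw [show l * (Real.pi * ρ) = 2 * ρ * D by rw [hl, hD]; ring] at b1
      rw [show l * (Real.pi / 4) = D / 2 by rw [hl, hD]; ring] at b2
      have b3 : 0 ≤ Real.sinh (Real.pi * ρ) := by
        rw [Real.sinh_nonneg_iff]
        positivity
      have b4 := mul_le_mul_of_nonneg_left b2 (show 0 ≤ √2 * Real.sinh (Real.pi * ρ) by positivity)
      have b5 : √2 * √2 = 2 := Real.mul_self_sqrt (by norm_num)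
      calc _ ≤ l * Real.sinh (Real.pi * ρ) := b1
        _ = √2 * Real.sinh (Real.pi * ρ) * (l * (√2 / 2)) := by
          linear_combination (-(l * Real.sinh (Real.pi * ρ)) / 2) * b5
        _ ≤ _ := b4
    have hm : (Real.cos (D / 2) * Real.cosh (2 * ρ * D)) ^ 2 =
        (1 - Real.sin (D / 2) ^ 2) * (1 + Real.sinh (2 * ρ * D) ^ 2) := by
      rw [mul_pow, Real.cos_sq', Real.cosh_sq]
      ring
    have := ring_Q_side_pos I0 R0 hs1 hs1' hs2 hθ θ1 hm p0 p1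
    have c1 : Real.cos D = 1 - 2 * Real.sin (D / 2) ^ 2 := by
      rw [show D = 2 * (D / 2) by ring, Real.cos_two_mul, Real.cos_sq',
        show 2 * (D / 2) / 2 = D / 2 by ring]
      ring
    have c2 : Real.sin D = 2 * Real.sin (D / 2) * Real.cos (D / 2) := by
      rw [show D = 2 * (D / 2) by ring, Real.sin_two_mul, show 2 * (D / 2) / 2 = D / 2 by ring]
    have c3 : Real.cosh (2 * (2 * ρ * D)) = 1 + 2 * Real.sinh (2 * ρ * D) ^ 2 := by
      rw [Real.cosh_two_mul, Real.cosh_sq]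
      ring
    have c4 : Real.sinh (2 * (2 * ρ * D)) = 2 * Real.sinh (2 * ρ * D) * Real.cosh (2 * ρ * D) :=
      Real.sinh_two_mul _
    rw [c2, c4] at key
    rw [c1]
    rw [c4, c3] at *
    generalize Real.sin (D / 2) = s1 at *
    generalize Real.cos (D / 2) = c1 at *
    generalize Real.sinh (2 * ρ * D) = s2 at *
    generalize Real.cosh (2 * ρ * D) = c2 at *
    nlinarith only [key, this]

theorem RCondS.mono {R I R' I' ρ : ℝ} (h : RCondS R I ρ) (hρ : 0 ≤ ρ) (hR : R ≤ R') (hI : I' ≤ I)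
    (hI' : 0 ≤ I') : RCondS R' I' ρ := by
  obtain ⟨R0, I0, h0, h1, θ1, p0, p1⟩ := h
  have hpi := Real.pi_pos
  have a1 : 0 ≤ Real.sinh (2 * Real.pi * ρ) := by
    rw [Real.sinh_nonneg_iff]
    positivity
  have a2 : 0 < Real.cosh (2 * Real.pi * ρ) := Real.cosh_pos _
  have a3 : 0 ≤ √2 * Real.sinh (Real.pi * ρ) := by
    have : 0 ≤ Real.sinh (Real.pi * ρ) := by
      rw [Real.sinh_nonneg_iff]
      positivity
    positivity
  set θ := √2 * Real.sinh (Real.pi * ρ)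
  have b1 := mul_nonneg (sub_nonneg.mpr hI) a1
  have b2 := mul_nonneg (sub_nonneg.mpr hR) a2.le
  have b3 := mul_nonneg (sub_nonneg.mpr hI) a3
  have b4 : 0 ≤ 1 - θ ^ 2 := by nlinarith only [p0, b3, hI', a3, R0]
  have b5 := mul_nonneg (sub_nonneg.mpr hR) b4
  have b6 := mul_nonneg b3 (show 0 ≤ 3 + θ ^ 2 by positivity)
  refine ⟨R0.trans hR, hI', ?_, ?_, θ1, ?_, ?_⟩ <;> nlinarith only [hR, h0, b1, h1, b2, p0, b3, b5, p1, b6]

section
open NumI NumI.E

/-- `√2 sinh πρ` -/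
private def th : E := mul (q 14143 10000) (sinh (mul pi (var 0)))
private def ch0 : E := cosh (mul (mul (q 2 1) pi) (var 0))
private def sh0 : E := sinh (mul (mul (q 2 1) pi) (var 0))
private def eR : E := add (q 1 1) (mul (q 3089 10000) (cosh (mul (mul (q 2 1) pi) (var 1))))
private def eI : E := mul (q 9512 10000) (sinh (mul (mul (q 2 1) pi) (var 1)))
private def e0 : E := sub (sub (mul (q 2 1) eR) (mul (mul (q 2 1) eI) sh0)) (sq ch0)
private def e1 : E := sub (mul (add (q 1 1) ch0) (sub (sub (mul (q 2 1) eR) (q 1 1)) ch0))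
  (mul (mul (q 2 1) eI) sh0)
private def e2 : E := sub (mul eR (sub (q 1 1) (sq th))) (mul (mul (q 2 1) eI) th)
private def e3 : E := sub (sub eR (mul (q 1 2) (mul (mul eI th) (add (q 3 1) (sq th)))))
  (mul (q 1 2) (sq (add (q 1 1) (sq th))))

private theorem RCondS_aux {ρ τ : ℝ} (hρ : 0 ≤ ρ) (hρ1 : ρ ≤ 1 / 5) (hτ : 0 ≤ τ)
    (h0 : 0 < e0.val [ρ, τ]) (h1 : 0 < e1.val [ρ, τ]) (h2 : 0 < e2.val [ρ, τ])
    (h3 : 0 < e3.val [ρ, τ]) : RCondS (1 + 3089 / 10000 * Real.cosh (2 * Real.pi * τ))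
      (9512 / 10000 * Real.sinh (2 * Real.pi * τ)) ρ := by
  have hpi := Real.pi_pos
  have hpi4 := Real.pi_le_four
  simp only [e0, e1, e2, e3, eR, eI, ch0, sh0, th, E.val, lkR_zero, lkR_one] at h0 h1 h2 h3
  simp only [Int.cast_ofNat, Nat.cast_ofNat, Int.cast_one, Nat.cast_one, div_one] at h0 h1 h2 h3
  have a2 : (0 : ℝ) ≤ √2 := Real.sqrt_nonneg _
  have a3 : √2 ≤ 14143 / 10000 := by
    rw [Real.sqrt_le_left (by norm_num)]
    norm_num
  have a4 : 0 ≤ Real.sinh (Real.pi * ρ) := by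
    rw [Real.sinh_nonneg_iff]
    positivity
  have a5 : 0 < Real.cosh (2 * Real.pi * τ) := Real.cosh_pos _
  have a6 : 0 ≤ Real.sinh (2 * Real.pi * τ) := by
    rw [Real.sinh_nonneg_iff]
    positivity
  set y := 14143 / 10000 * Real.sinh (Real.pi * ρ) with hy
  have hxy : √2 * Real.sinh (Real.pi * ρ) ≤ y := mul_le_mul_of_nonneg_right a3 a4
  have hx0 : 0 ≤ √2 * Real.sinh (Real.pi * ρ) := mul_nonneg a2 a4
  have hy0 : 0 ≤ y := hx0.trans hxy
  set θ := √2 * Real.sinh (Real.pi * ρ)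
  set R := 1 + 3089 / 10000 * Real.cosh (2 * Real.pi * τ) with hR
  set I := 9512 / 10000 * Real.sinh (2 * Real.pi * τ) with hI
  have hR0 : 0 < R := by positivity
  have hI0 : 0 ≤ I := by positivity
  have hy1 : y ^ 2 ≤ 1 := by
    by_contra h
    push Not at h
    have : R * (1 - y ^ 2) < 0 := mul_neg_of_pos_of_neg hR0 (by linarith only [h])
    have : 0 ≤ 2 * I * y := by positivity
    linarith
  have hy2 : y ≤ 1 := by nlinarith only [hy, hy1, a4]
  have c1 : θ ^ 2 ≤ y ^ 2 := pow_le_pow_left₀ hx0 hxy 2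
  have c2 : I * θ ≤ I * y := mul_le_mul_of_nonneg_left hxy hI0
  have c3 : R * (1 - y ^ 2) ≤ R * (1 - θ ^ 2) := mul_le_mul_of_nonneg_left (by linarith only [c1]) hR0.le
  have c4 : I * θ * (3 + θ ^ 2) ≤ I * y * (3 + y ^ 2) :=
    mul_le_mul c2 (by linarith only [c1]) (by positivity) (by positivity)
  have c5 : (1 + θ ^ 2) ^ 2 ≤ (1 + y ^ 2) ^ 2 := pow_le_pow_left₀ (by positivity) (by linarith only [c1]) 2
  refine ⟨hR0.le, hI0, h0.trans_eq ?_, h1.trans_eq ?_, hxy.trans hy2, ?_, ?_⟩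
  · ring
  · ring
  · linarith only [h2, c2, c3]
  · linarith only [h3, c4, c5]

/-- heights `|t| ≤ .158`, `ρ ≤ .09` -/
theorem RCondS_a {ρ τ : ℝ} (hρ : 0 ≤ ρ) (hρ1 : ρ ≤ 9 / 100) (hτ : 0 ≤ τ) (hτ1 : τ ≤ 158 / 1000) :
    RCondS (1 + 3089 / 10000 * Real.cosh (2 * Real.pi * τ))
      (9512 / 10000 * Real.sinh (2 * Real.pi * τ)) ρ := by
  have g0 : chk [e0] 30 [V.of 1000 0 90, V.of 1000 0 158] = true := by decide +kernel
  have g1 : chk [e1] 30 [V.of 1000 0 90, V.of 1000 0 158] = true := by decide +kernel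
  have g2 : chk [e2] 30 [V.of 1000 0 90, V.of 1000 0 158] = true := by decide +kernel
  have g3 : chk [e3] 30 [V.of 1000 0 90, V.of 1000 0 158] = true := by decide +kernel
  have a1 : ((0 : ℤ) : ℝ) / (1000 : ℕ) ≤ ρ := by simpa using hρ
  have a2 : ρ ≤ ((90 : ℤ) : ℝ) / (1000 : ℕ) := hρ1.trans (by norm_num)
  have a3 : ((0 : ℤ) : ℝ) / (1000 : ℕ) ≤ τ := by simpa using hτ
  have a4 : τ ≤ ((158 : ℤ) : ℝ) / (1000 : ℕ) := hτ1.trans (by norm_num)
  exact RCondS_aux hρ (by linarith only [hρ1]) hτ (pos_of_chk (chk2 g0 (by norm_num) a1 a2 a3 a4))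
    (pos_of_chk (chk2 g1 (by norm_num) a1 a2 a3 a4)) (pos_of_chk (chk2 g2 (by norm_num) a1 a2 a3 a4))
    (pos_of_chk (chk2 g3 (by norm_num) a1 a2 a3 a4))

/-- heights `|t| ≤ .125`, `ρ ≤ .1045` -/
theorem RCondS_b {ρ τ : ℝ} (hρ : 0 ≤ ρ) (hρ1 : ρ ≤ 1045 / 10000) (hτ : 0 ≤ τ) (hτ1 : τ ≤ 125 / 1000) :
    RCondS (1 + 3089 / 10000 * Real.cosh (2 * Real.pi * τ))
      (9512 / 10000 * Real.sinh (2 * Real.pi * τ)) ρ := by
  have g0 : chk [e0] 30 [V.of 10000 0 1045, V.of 10000 0 1250] = true := by decide +kernel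
  have g1 : chk [e1] 30 [V.of 10000 0 1045, V.of 10000 0 1250] = true := by decide +kernel
  have g2 : chk [e2] 30 [V.of 10000 0 1045, V.of 10000 0 1250] = true := by decide +kernel
  have g3 : chk [e3] 30 [V.of 10000 0 1045, V.of 10000 0 1250] = true := by decide +kernel
  have a1 : ((0 : ℤ) : ℝ) / (10000 : ℕ) ≤ ρ := by simpa using hρ
  have a2 : ρ ≤ ((1045 : ℤ) : ℝ) / (10000 : ℕ) := hρ1.trans (by norm_num)
  have a3 : ((0 : ℤ) : ℝ) / (10000 : ℕ) ≤ τ := by simpa using hτ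
  have a4 : τ ≤ ((1250 : ℤ) : ℝ) / (10000 : ℕ) := hτ1.trans (by norm_num)
  exact RCondS_aux hρ (by linarith only [hρ1]) hτ (pos_of_chk (chk2 g0 (by norm_num) a1 a2 a3 a4))
    (pos_of_chk (chk2 g1 (by norm_num) a1 a2 a3 a4)) (pos_of_chk (chk2 g2 (by norm_num) a1 a2 a3 a4))
    (pos_of_chk (chk2 g3 (by norm_num) a1 a2 a3 a4))

end

/-- **The horizontal derivative.**  For `Re w ∈ [3/10, 7/10]` the derivative of `fR` in the direction
of the hinge is `≤ 0`, for every point `ζ` of the path. -/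
theorem LL_hinge_neg {x t σ ρ : ℝ} (hx : 3 / 10 ≤ x) (hx' : x ≤ 7 / 10) (hρ : 0 ≤ ρ)
    (ht : (|t| ≤ 158 / 1000 ∧ ρ ≤ 9 / 100) ∨ (|t| ≤ 125 / 1000 ∧ ρ ≤ 1045 / 10000))
    (hσ : |σ| < 1 / 2) {w ζ : ℂ} (hw : w = x + t * Complex.I) (hζ : ζ = LT.zt ρ σ)
    (h1 : (w + 1 / 2 + ζ).im ≠ 0 ∨ (w + 1 / 2 + ζ).re < 1)
    (h2 : (w + 1 / 2 - ζ).im ≠ 0 ∨ (w + 1 / 2 - ζ).re < 1) :
    LL (w + 1 / 2 + ζ) + LL (w + 1 / 2 - ζ) - 2 * LL w < 0 := by
  have hpi := Real.pi_pos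
  set η := ρ * LT.th σ with hη
  have hζ' : ζ = σ + η * Complex.I := hζ
  have wi : w.im = t := by rw [hw]; simp
  have wr : w.re = x := by rw [hw]; simp
  have ui : (w + 1 / 2 + ζ).im = t + η := by rw [hw, hζ']; simp
  have ur : (w + 1 / 2 + ζ).re = x + 1 / 2 + σ := by rw [hw, hζ']; simp
  have vi : (w + 1 / 2 - ζ).im = t - η := by rw [hw, hζ']; simp
  have vr : (w + 1 / 2 - ζ).re = x + 1 / 2 - σ := by rw [hw, hζ']; simp
  rw [ui, ur] at h1
  rw [vi, vr] at h2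
  obtain ⟨hs0, hs1⟩ := abs_le.mp hσ.le
  have pos : ∀ {y s : ℝ}, (s ≠ 0 ∨ y < 1) → 0 < y → 0 < 2 * Real.cosh (2 * Real.pi * s) -
      2 * Real.cos (2 * Real.pi * y) := by
    intro y s h hy
    have := DT.el_arg_pos' (ρ := s) (v := y) fun h0 => ?_
    · exact this
    · rcases h with h | h
      · exact absurd h0 h
      · exact (Real.sin_pos_of_pos_of_lt_pi (by positivity) (by nlinarith only [hpi, h])).ne'
  rw [LL_eq', LL_eq', LL_eq', ui, ur, vi, vr, wi, wr]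
  have n1 := pos h1 (by linarith only [hx, hs0])
  have n2 := pos h2 (by linarith only [hx, hs1])
  have n0 := pos (y := x) (s := t) (Or.inr (by linarith only [hx'])) (by linarith only [hx])
  have e1 : 2 * Real.cosh (2 * Real.pi * (t + η)) - 2 * Real.cos (2 * Real.pi * (x + 1 / 2 + σ)) =
      2 * (Real.cosh (2 * Real.pi * t + 2 * Real.pi * η) +
        Real.cos (2 * Real.pi * x + 2 * Real.pi * σ)) := by
    rw [show 2 * Real.pi * (x + 1 / 2 + σ) = 2 * Real.pi * x + 2 * Real.pi * σ + Real.pi by ring,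
      Real.cos_add_pi, mul_add]
    ring
  have e2 : 2 * Real.cosh (2 * Real.pi * (t - η)) - 2 * Real.cos (2 * Real.pi * (x + 1 / 2 - σ)) =
      2 * (Real.cosh (2 * Real.pi * t - 2 * Real.pi * η) +
        Real.cos (2 * Real.pi * x - 2 * Real.pi * σ)) := by
    rw [show 2 * Real.pi * (x + 1 / 2 - σ) = 2 * Real.pi * x - 2 * Real.pi * σ + Real.pi by ring,
      Real.cos_add_pi, mul_sub]
    ring
  have hc : RCondS (1 - Real.cos (2 * Real.pi * x) * Real.cosh (2 * Real.pi * t))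
      |Real.sin (2 * Real.pi * x) * Real.sinh (2 * Real.pi * t)| ρ := by
    obtain ⟨c1, c2⟩ := cos_hinge hx hx'
    have c3 : Real.cosh (2 * Real.pi * t) = Real.cosh (2 * Real.pi * |t|) := by
      rcases abs_choice t with h | h <;> rw [h]
      rw [mul_neg, Real.cosh_neg]
    have c4 : |Real.sinh (2 * Real.pi * t)| = Real.sinh (2 * Real.pi * |t|) := by
      rw [Real.abs_sinh, abs_mul, abs_of_pos (show 0 < 2 * Real.pi by positivity)]
    have c5 : 0 < Real.cosh (2 * Real.pi * |t|) := Real.cosh_pos _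
    have c6 : 0 ≤ Real.sinh (2 * Real.pi * |t|) := by rw [← c4]; exact abs_nonneg _
    rw [c3, abs_mul, c4]
    rcases ht with ⟨ha, hb⟩ | ⟨ha, hb⟩
    · exact (RCondS_a hρ hb (abs_nonneg t) ha).mono hρ (by nlinarith only [c1, c5])
        (mul_le_mul_of_nonneg_right c2 c6) (by positivity)
    · exact (RCondS_b hρ hb (abs_nonneg t) ha).mono hρ (by nlinarith only [c1, c5])
        (mul_le_mul_of_nonneg_right c2 c6) (by positivity)
  have hQ := ring_Q_pos hρ hσ hc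
  rw [← hη, ← ring_prod] at hQ
  rw [e1] at n1 ⊢
  rw [e2] at n2 ⊢
  have hl : Real.log (2 * (Real.cosh (2 * Real.pi * t + 2 * Real.pi * η) +
        Real.cos (2 * Real.pi * x + 2 * Real.pi * σ))) +
      Real.log (2 * (Real.cosh (2 * Real.pi * t - 2 * Real.pi * η) +
        Real.cos (2 * Real.pi * x - 2 * Real.pi * σ))) <
      2 * Real.log (2 * Real.cosh (2 * Real.pi * t) - 2 * Real.cos (2 * Real.pi * x)) := by
    rw [← Real.log_mul n1.ne' n2.ne', ← Real.log_rpow n0]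
    apply Real.log_lt_log (mul_pos n1 n2)
    rw [Real.rpow_two]
    nlinarith only [hQ]
  linarith only [hl]

end Pool.Agent.Work.MP_b30479_gt.G2
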