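import Pool.Agent.Work.MP_b30479_gt.G2.InvB
import Pool.Agent.Work.MP_b30479_gt.G2.MPPath
import Pool.Agent.Work.MP_b30479_gt.G2.RLevS
import Pool.Agent.Work.NumI.Leaf
import Pool.Agent.Work.NumI.Tree

/-!
# Certificate trees with six variables

`run6 test n a0 b0 ... a5 b5 code`: bisections of the box `[a0, b0] x ... x [a5, b5]` (units
`2^(-36)`), digits of base `128`: `0, ..., 5` bisects the variable, `k + 6` is a leaf with test `k`.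
-/

namespace Pool.Agent.Work.NumI

/-- type of a leaf test -/
abbrev Tst := ℕ → ℕ → ℕ → ℕ → ℕ → ℕ → ℕ → ℕ → ℕ → ℕ → ℕ → ℕ → ℕ → Bool

noncomputable def run6 (test : Tst) (n : ℕ) :
    ℕ → ℕ → ℕ → ℕ → ℕ → ℕ → ℕ → ℕ → ℕ → ℕ → ℕ → ℕ → ℕ → Option ℕ :=
  Nat.rec (motive := fun _ => ℕ → ℕ → ℕ → ℕ → ℕ → ℕ → ℕ → ℕ → ℕ → ℕ → ℕ → ℕ → ℕ → Option ℕ)
    (fun _ _ _ _ _ _ _ _ _ _ _ _ _ => none)
    (fun _ ih a0 b0 a1 b1 a2 b2 a3 b3 a4 b4 a5 b5 c =>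
      fN (Nat.land c 127) fun d => fN (Nat.shiftRight c 7) fun c' =>
      cond (Nat.ble 6 d)
        (cond (test (Nat.sub d 6) a0 b0 a1 b1 a2 b2 a3 b3 a4 b4 a5 b5) (some c') none)
        (cond (Nat.beq d 0)
          (fN (Nat.div (Nat.add a0 b0) 2) fun m =>
            sq2 (ih a0 m a1 b1 a2 b2 a3 b3 a4 b4 a5 b5 c') fun c'' =>
              ih m b0 a1 b1 a2 b2 a3 b3 a4 b4 a5 b5 c'')
        (cond (Nat.beq d 1)
          (fN (Nat.div (Nat.add a1 b1) 2) fun m =>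
            sq2 (ih a0 b0 a1 m a2 b2 a3 b3 a4 b4 a5 b5 c') fun c'' =>
              ih a0 b0 m b1 a2 b2 a3 b3 a4 b4 a5 b5 c'')
        (cond (Nat.beq d 2)
          (fN (Nat.div (Nat.add a2 b2) 2) fun m =>
            sq2 (ih a0 b0 a1 b1 a2 m a3 b3 a4 b4 a5 b5 c') fun c'' =>
              ih a0 b0 a1 b1 m b2 a3 b3 a4 b4 a5 b5 c'')
        (cond (Nat.beq d 3)
          (fN (Nat.div (Nat.add a3 b3) 2) fun m =>
            sq2 (ih a0 b0 a1 b1 a2 b2 a3 m a4 b4 a5 b5 c') fun c'' =>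
              ih a0 b0 a1 b1 a2 b2 m b3 a4 b4 a5 b5 c'')
        (cond (Nat.beq d 4)
          (fN (Nat.div (Nat.add a4 b4) 2) fun m =>
            sq2 (ih a0 b0 a1 b1 a2 b2 a3 b3 a4 m a5 b5 c') fun c'' =>
              ih a0 b0 a1 b1 a2 b2 a3 b3 m b4 a5 b5 c'')
          (fN (Nat.div (Nat.add a5 b5) 2) fun m =>
            sq2 (ih a0 b0 a1 b1 a2 b2 a3 b3 a4 b4 a5 m c') fun c'' =>
              ih a0 b0 a1 b1 a2 b2 a3 b3 a4 b4 m b5 c''))))))) n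

lemma run6_succ (test : Tst) (n a0 b0 a1 b1 a2 b2 a3 b3 a4 b4 a5 b5 c : ℕ) :
    run6 test (n + 1) a0 b0 a1 b1 a2 b2 a3 b3 a4 b4 a5 b5 c =
      fN (Nat.land c 127) fun d => fN (Nat.shiftRight c 7) fun c' =>
      cond (Nat.ble 6 d)
        (cond (test (Nat.sub d 6) a0 b0 a1 b1 a2 b2 a3 b3 a4 b4 a5 b5) (some c') none)
        (cond (Nat.beq d 0)
          (fN (Nat.div (Nat.add a0 b0) 2) fun m =>
            sq2 (run6 test n a0 m a1 b1 a2 b2 a3 b3 a4 b4 a5 b5 c') fun c'' =>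
              run6 test n m b0 a1 b1 a2 b2 a3 b3 a4 b4 a5 b5 c'')
        (cond (Nat.beq d 1)
          (fN (Nat.div (Nat.add a1 b1) 2) fun m =>
            sq2 (run6 test n a0 b0 a1 m a2 b2 a3 b3 a4 b4 a5 b5 c') fun c'' =>
              run6 test n a0 b0 m b1 a2 b2 a3 b3 a4 b4 a5 b5 c'')
        (cond (Nat.beq d 2)
          (fN (Nat.div (Nat.add a2 b2) 2) fun m =>
            sq2 (run6 test n a0 b0 a1 b1 a2 m a3 b3 a4 b4 a5 b5 c') fun c'' =>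
              run6 test n a0 b0 a1 b1 m b2 a3 b3 a4 b4 a5 b5 c'')
        (cond (Nat.beq d 3)
          (fN (Nat.div (Nat.add a3 b3) 2) fun m =>
            sq2 (run6 test n a0 b0 a1 b1 a2 b2 a3 m a4 b4 a5 b5 c') fun c'' =>
              run6 test n a0 b0 a1 b1 a2 b2 m b3 a4 b4 a5 b5 c'')
        (cond (Nat.beq d 4)
          (fN (Nat.div (Nat.add a4 b4) 2) fun m =>
            sq2 (run6 test n a0 b0 a1 b1 a2 b2 a3 b3 a4 m a5 b5 c') fun c'' =>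
              run6 test n a0 b0 a1 b1 a2 b2 a3 b3 m b4 a5 b5 c'')
          (fN (Nat.div (Nat.add a5 b5) 2) fun m =>
            sq2 (run6 test n a0 b0 a1 b1 a2 b2 a3 b3 a4 b4 a5 m c') fun c'' =>
              run6 test n a0 b0 a1 b1 a2 b2 a3 b3 a4 b4 m b5 c'')))))) := rfl

/-- what a test has to satisfy;  -/
def TstOk (o : ℕ) (test : Tst) (P : ℝ → ℝ → ℝ → ℝ → ℝ → ℝ → Prop) : Prop :=
  ∀ (k a0 b0 a1 b1 a2 b2 a3 b3 a4 b4 a5 b5 : ℕ) (x0 x1 x2 x3 x4 x5 : ℝ),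
    Rg o a0 b0 x0 → Rg 0 a1 b1 x1 → Rg 0 a2 b2 x2 → Rg 0 a3 b3 x3 → Rg 0 a4 b4 x4 → Rg 0 a5 b5 x5 →
    test k a0 b0 a1 b1 a2 b2 a3 b3 a4 b4 a5 b5 = true → P x0 x1 x2 x3 x4 x5

theorem run6_sound {o : ℕ} {test : Tst} {P : ℝ → ℝ → ℝ → ℝ → ℝ → ℝ → Prop} (ht : TstOk o test P)
    {x0 x1 x2 x3 x4 x5 : ℝ} : ∀ (n : ℕ) {a0 b0 a1 b1 a2 b2 a3 b3 a4 b4 a5 b5 c c' : ℕ},
    run6 test n a0 b0 a1 b1 a2 b2 a3 b3 a4 b4 a5 b5 c = some c' → Rg o a0 b0 x0 → Rg 0 a1 b1 x1 →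
    Rg 0 a2 b2 x2 → Rg 0 a3 b3 x3 → Rg 0 a4 b4 x4 → Rg 0 a5 b5 x5 → P x0 x1 x2 x3 x4 x5 := by
  intro n
  induction n with
  | zero =>
    intro a0 b0 a1 b1 a2 b2 a3 b3 a4 b4 a5 b5 c c' h
    exact absurd h (by simp [run6])
  | succ n ih =>
    intro a0 b0 a1 b1 a2 b2 a3 b3 a4 b4 a5 b5 c c' h h0 h1 h2 h3 h4 h5
    rw [run6_succ, fN_eq, fN_eq] at h
    set d := Nat.land c 127 with hd
    rcases hl : Nat.ble 6 d with _ | _
    · rw [hl, cond_false] at h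
      rcases e0 : Nat.beq d 0 with _ | _
      swap
      · rw [e0, cond_true, fN_eq] at h
        obtain ⟨e, he, he'⟩ := sq2_some h
        rcases h0.split (Nat.div (Nat.add a0 b0) 2) with hs | hs
        · exact ih he hs h1 h2 h3 h4 h5
        · exact ih he' hs h1 h2 h3 h4 h5
      rw [e0, cond_false] at h
      rcases e1 : Nat.beq d 1 with _ | _
      swap
      · rw [e1, cond_true, fN_eq] at h
        obtain ⟨e, he, he'⟩ := sq2_some h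
        rcases h1.split (Nat.div (Nat.add a1 b1) 2) with hs | hs
        · exact ih he h0 hs h2 h3 h4 h5
        · exact ih he' h0 hs h2 h3 h4 h5
      rw [e1, cond_false] at h
      rcases e2 : Nat.beq d 2 with _ | _
      swap
      · rw [e2, cond_true, fN_eq] at h
        obtain ⟨e, he, he'⟩ := sq2_some h
        rcases h2.split (Nat.div (Nat.add a2 b2) 2) with hs | hs
        · exact ih he h0 h1 hs h3 h4 h5
        · exact ih he' h0 h1 hs h3 h4 h5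
      rw [e2, cond_false] at h
      rcases e3 : Nat.beq d 3 with _ | _
      swap
      · rw [e3, cond_true, fN_eq] at h
        obtain ⟨e, he, he'⟩ := sq2_some h
        rcases h3.split (Nat.div (Nat.add a3 b3) 2) with hs | hs
        · exact ih he h0 h1 h2 hs h4 h5
        · exact ih he' h0 h1 h2 hs h4 h5
      rw [e3, cond_false] at h
      rcases e4 : Nat.beq d 4 with _ | _
      swap
      · rw [e4, cond_true, fN_eq] at h
        obtain ⟨e, he, he'⟩ := sq2_some h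
        rcases h4.split (Nat.div (Nat.add a4 b4) 2) with hs | hs
        · exact ih he h0 h1 h2 h3 hs h5
        · exact ih he' h0 h1 h2 h3 hs h5
      rw [e4, cond_false, fN_eq] at h
      obtain ⟨e, he, he'⟩ := sq2_some h
      rcases h5.split (Nat.div (Nat.add a5 b5) 2) with hs | hs
      · exact ih he h0 h1 h2 h3 h4 hs
      · exact ih he' h0 h1 h2 h3 h4 hs
    · rw [hl, cond_true] at h
      rcases ht' : test (Nat.sub d 6) a0 b0 a1 b1 a2 b2 a3 b3 a4 b4 a5 b5 with _ | _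
      · rw [ht', cond_false] at h
        exact absurd h (by simp)
      · exact ht _ _ _ _ _ _ _ _ _ _ _ _ _ _ _ _ _ _ _ h0 h1 h2 h3 h4 h5 ht'

/-- the check of the box, units `1 / 10000`;  -/
noncomputable def ok6 (test : Tst) (fuel l0 h0 l1 h1 l2 h2 l3 h3 l4 h4 l5 h5 c : ℕ) : Bool :=
  let A (l : ℕ) := Nat.div (Nat.mul l 68719476736) 10000
  let B (h : ℕ) := Nat.add (Nat.div (Nat.mul h 68719476736) 10000) 2
  fN (A l0) fun a0 => fN (B h0) fun b0 => fN (A l1) fun a1 => fN (B h1) fun b1 =>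
  fN (A l2) fun a2 => fN (B h2) fun b2 => fN (A l3) fun a3 => fN (B h3) fun b3 =>
  fN (A l4) fun a4 => fN (B h4) fun b4 => fN (A l5) fun a5 => fN (B h5) fun b5 =>
  Option.rec (motive := fun _ => Bool) false (fun c => Nat.beq c 0)
    (run6 test fuel a0 b0 a1 b1 a2 b2 a3 b3 a4 b4 a5 b5 c)

/-- offset in units `2^(-36)` -/
def off (o : ℕ) : ℕ := Nat.div (Nat.add (Nat.mul o 68719476736) (Nat.sub 10000 1)) 10000

lemma off0 : off 0 = 0 := rfl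

theorem ok6_sound {test : Tst} {P : ℝ → ℝ → ℝ → ℝ → ℝ → ℝ → Prop} {o : ℕ} (ht : TstOk (off o) test P)
    {fuel l0 h0 l1 h1 l2 h2 l3 h3 l4 h4 l5 h5 c : ℕ}
    (h : ok6 test fuel l0 h0 l1 h1 l2 h2 l3 h3 l4 h4 l5 h5 c = true) {x0 x1 x2 x3 x4 x5 : ℝ}
    (p0 : ((l0 : ℝ) - o) / 10000 ≤ x0) (q0 : x0 ≤ ((h0 : ℝ) - o) / 10000)
    (p1 : (l1 : ℝ) / 10000 ≤ x1) (q1 : x1 ≤ (h1 : ℝ) / 10000)
    (p2 : (l2 : ℝ) / 10000 ≤ x2) (q2 : x2 ≤ (h2 : ℝ) / 10000)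
    (p3 : (l3 : ℝ) / 10000 ≤ x3) (q3 : x3 ≤ (h3 : ℝ) / 10000)
    (p4 : (l4 : ℝ) / 10000 ≤ x4) (q4 : x4 ≤ (h4 : ℝ) / 10000)
    (p5 : (l5 : ℝ) / 10000 ≤ x5) (q5 : x5 ≤ (h5 : ℝ) / 10000) : P x0 x1 x2 x3 x4 x5 := by
  unfold ok6 at h
  simp only [fN_eq] at h
  have e : ((10000 : ℕ) : ℝ) = 10000 := by norm_num
  have r : ∀ {l h : ℕ} {x : ℝ}, (l : ℝ) / 10000 ≤ x → x ≤ (h : ℝ) / 10000 →
      Rg 0 (Nat.div (Nat.mul l 68719476736) 10000)
        (Nat.add (Nat.div (Nat.mul h 68719476736) 10000) 2) x := by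
    intro l h x a b
    have := Rg.dec (N := 10000) (l := l) (h := h) (o := 0) (by norm_num) (x := x)
      (by rw [e, Nat.cast_zero, sub_zero]; exact a) (by rw [e, Nat.cast_zero, sub_zero]; exact b)
    exact this
  rcases hr : run6 test fuel (Nat.div (Nat.mul l0 68719476736) 10000)
    (Nat.add (Nat.div (Nat.mul h0 68719476736) 10000) 2) (Nat.div (Nat.mul l1 68719476736) 10000)
    (Nat.add (Nat.div (Nat.mul h1 68719476736) 10000) 2) (Nat.div (Nat.mul l2 68719476736) 10000)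
    (Nat.add (Nat.div (Nat.mul h2 68719476736) 10000) 2) (Nat.div (Nat.mul l3 68719476736) 10000)
    (Nat.add (Nat.div (Nat.mul h3 68719476736) 10000) 2) (Nat.div (Nat.mul l4 68719476736) 10000)
    (Nat.add (Nat.div (Nat.mul h4 68719476736) 10000) 2) (Nat.div (Nat.mul l5 68719476736) 10000)
    (Nat.add (Nat.div (Nat.mul h5 68719476736) 10000) 2) c with _ | c'
  · rw [hr] at h
    exact absurd h (by simp)
  · refine run6_sound ht fuel hr ?_ (r p1 q1) (r p2 q2) (r p3 q3) (r p4 q4) (r p5 q5)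
    exact Rg.dec (N := 10000) (by norm_num) (by rw [e]; exact p0) (by rw [e]; exact q0)

/-! ### noise -/

/-- value of the noise symbol of a variable -/
noncomputable def nzv (o a b : ℕ) (x : ℝ) : ℝ :=
  if b - (a + b) / 2 = 0 then 0 else
    (x * DR - ((((a + b) / 2 - o : ℕ) : ℝ) - ((o - (a + b) / 2 : ℕ) : ℝ))) /
      ((b - (a + b) / 2 : ℕ) : ℝ)

lemma Rg.nzv {o a b : ℕ} {x : ℝ} (h : Rg o a b x) : |nzv o a b x| ≤ 1 ∧
    x * DR - ((((a + b) / 2 - o : ℕ) : ℝ) - ((o - (a + b) / 2 : ℕ) : ℝ)) =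
      ((b - (a + b) / 2 : ℕ) : ℝ) * nzv o a b x := by
  obtain ⟨e, he, h1⟩ := h.noise
  unfold NumI.nzv
  split_ifs with h0
  · refine ⟨by simp, ?_⟩
    rw [h1, h0]
    simp
  · have h2 : ((b - (a + b) / 2 : ℕ) : ℝ) ≠ 0 := by exact_mod_cast h0
    rw [h1, mul_div_cancel_left₀ _ h2]
    exact ⟨he, rfl⟩

/-- four noise symbols -/
def eps4 (e0 e1 e2 e3 : ℝ) (i : ℕ) : ℝ :=
  if i = 0 then e0 else if i = 1 then e1 else if i = 2 then e2 else if i = 3 then e3 else 0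

lemma eps4_le {e0 e1 e2 e3 : ℝ} (h0 : |e0| ≤ 1) (h1 : |e1| ≤ 1) (h2 : |e2| ≤ 1) (h3 : |e3| ≤ 1)
    (i : ℕ) : |eps4 e0 e1 e2 e3 i| ≤ 1 := by
  unfold eps4
  split_ifs <;> first | assumption | simp

lemma enc_v0 {o a b : ℕ} {x e1 e2 e3 : ℝ} (h : Rg o a b x) :
    (F.v0 o a b).Encl (eps4 (nzv o a b x) e1 e2 e3) x := by
  have h1 := h.nzv.2
  unfold F.Encl F.toA A.Encl F.v0
  simp only [G.ev, Nat.cast_zero, sub_zero, zero_mul, add_zero, zero_add]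
  change |x * DR - ((((a + b) / 2 - o : ℕ) : ℝ) - ((o - (a + b) / 2 : ℕ) : ℝ) +
    ((b - (a + b) / 2 : ℕ) : ℝ) * nzv o a b x)| ≤ 0
  rw [abs_nonpos_iff]
  linarith only [h1]

lemma enc_v1 {o a b : ℕ} {x e0 e2 e3 : ℝ} (h : Rg o a b x) :
    (F.v1 o a b).Encl (eps4 e0 (nzv o a b x) e2 e3) x := by
  have h1 := h.nzv.2
  unfold F.Encl F.toA A.Encl F.v1
  simp only [G.ev, Nat.cast_zero, sub_zero, zero_mul, add_zero, zero_add]
  change |x * DR - ((((a + b) / 2 - o : ℕ) : ℝ) - ((o - (a + b) / 2 : ℕ) : ℝ) +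
    ((b - (a + b) / 2 : ℕ) : ℝ) * nzv o a b x)| ≤ 0
  rw [abs_nonpos_iff]
  linarith only [h1]

lemma enc_v2 {o a b : ℕ} {x e0 e1 e3 : ℝ} (h : Rg o a b x) :
    (F.v2 o a b).Encl (eps4 e0 e1 (nzv o a b x) e3) x := by
  have h1 := h.nzv.2
  unfold F.Encl F.toA A.Encl F.v2
  simp only [G.ev, Nat.cast_zero, sub_zero, zero_mul, add_zero, zero_add]
  change |x * DR - ((((a + b) / 2 - o : ℕ) : ℝ) - ((o - (a + b) / 2 : ℕ) : ℝ) +
    ((b - (a + b) / 2 : ℕ) : ℝ) * nzv o a b x)| ≤ 0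
  rw [abs_nonpos_iff]
  linarith only [h1]

lemma enc_v3 {o a b : ℕ} {x e0 e1 e2 : ℝ} (h : Rg o a b x) :
    (F.v3 o a b).Encl (eps4 e0 e1 e2 (nzv o a b x)) x := by
  have h1 := h.nzv.2
  unfold F.Encl F.toA A.Encl F.v3
  simp only [G.ev, Nat.cast_zero, sub_zero, zero_mul, add_zero, zero_add]
  change |x * DR - ((((a + b) / 2 - o : ℕ) : ℝ) - ((o - (a + b) / 2 : ℕ) : ℝ) +
    ((b - (a + b) / 2 : ℕ) : ℝ) * nzv o a b x)| ≤ 0
  rw [abs_nonpos_iff]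
  linarith only [h1]

/-- put the last two symbols into the error -/
def F.col (a : F) : F :=
  ⟨a.p, a.q, Nat.add a.r (Nat.add (Nat.add a.a2 a.b2) (Nat.add a.a3 a.b3)), a.a0, a.b0, a.a1, a.b1,
    0, 0, 0, 0⟩

lemma F.Encl.col {a : F} {e0 e1 e2 e3 x : ℝ} (h2 : |e2| ≤ 1) (h3 : |e3| ≤ 1)
    (h : a.Encl (eps4 e0 e1 e2 e3) x) : (a.col).Encl (eps4 e0 e1 0 0) x := by
  rw [F.Encl_iff] at h ⊢
  have ab : ∀ {u v e : ℝ}, 0 ≤ u → 0 ≤ v → |e| ≤ 1 → |(u - v) * e| ≤ u + v := by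
    intro u v e hu hv he
    obtain ⟨p1, p2⟩ := abs_le.mp he
    rw [abs_le]
    constructor <;> nlinarith only [hu, p1, hv, p2]
  have k2 := ab (u := (a.a2 : ℝ)) (v := a.b2) (by positivity) (by positivity) h2
  have k3 := ab (u := (a.a3 : ℝ)) (v := a.b3) (by positivity) (by positivity) h3
  have c0 : eps4 e0 e1 e2 e3 0 = e0 := rfl
  have c1 : eps4 e0 e1 e2 e3 1 = e1 := rfl
  have c2 : eps4 e0 e1 e2 e3 2 = e2 := rfl
  have c3 : eps4 e0 e1 e2 e3 3 = e3 := rfl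
  have d0 : eps4 e0 e1 0 0 0 = e0 := rfl
  have d1 : eps4 e0 e1 0 0 1 = e1 := rfl
  rw [c0, c1, c2, c3] at h
  rw [d0, d1]
  unfold F.col
  simp only [Nat.cast_zero, sub_zero, zero_mul, add_zero]
  change |x * DR - ((a.p : ℝ) - a.q + (((a.a0 : ℝ) - a.b0) * e0 + ((a.a1 : ℝ) - a.b1) * e1))| ≤
    ((a.r + ((a.a2 + a.b2) + (a.a3 + a.b3)) : ℕ) : ℝ)
  push_cast
  have e : x * DR - ((a.p : ℝ) - a.q + (((a.a0 : ℝ) - a.b0) * e0 + ((a.a1 : ℝ) - a.b1) * e1)) =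
      (x * DR - ((a.p : ℝ) - a.q + (((a.a0 : ℝ) - a.b0) * e0 + (((a.a1 : ℝ) - a.b1) * e1 +
        (((a.a2 : ℝ) - a.b2) * e2 + ((a.a3 : ℝ) - a.b3) * e3))))) +
      ((a.a2 : ℝ) - a.b2) * e2 + ((a.a3 : ℝ) - a.b3) * e3 := by ring
  rw [e]
  have := abs_add_three (x * DR - ((a.p : ℝ) - a.q + (((a.a0 : ℝ) - a.b0) * e0 +
    (((a.a1 : ℝ) - a.b1) * e1 + (((a.a2 : ℝ) - a.b2) * e2 + ((a.a3 : ℝ) - a.b3) * e3)))))
    (((a.a2 : ℝ) - a.b2) * e2) (((a.a3 : ℝ) - a.b3) * e3)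
  linarith only [h, k2, k3, this]

end Pool.Agent.Work.NumI
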