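import Pool.Agent.Work.MP_b30479_gt.G2.RT6B
import Pool.Agent.Work.MP_b30479_gt.G2.RT6

/-!
# Rings on the level part: rows with six variables

`RowP c T ρ xs ys x y`: the row `c`.  Digits of a certificate: `0, ..., 5` bisect; `6 + k`:
`k < 16`: combination number `k` by values; `16 ≤ k < 32`: the same with the other form of the second
factor; `32 ≤ k < 48`: the same by derivatives; `48`: wrong side; `49`, `50`: outside of the cone
(type `0`); `51`: outside of the cone; `52`: ring variable not below; `53`: displacement too large;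
`54`: below the curve of equal differences; `55 + i`, `i < 19`: inequality number `i` violated;
`58 + 16 i + j`, `i = 1, 2, 3`: combination `j` by derivatives with part `i / 4` of the bound.
-/

namespace Pool.Agent.Work.MP_b30479_gt.G2

open Set VOL NumI

namespace R6

open RC
open RQ (bO bO_some cond_ff)
open LR (rat1 mulq1)
open RZ1 (negE)

/-- a linear inequality for `T`, `ρ`, `xs`, `ys`, right hand side in units `1 / 10000` -/
structure LC where
  p0 : ℕ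
  n0 : ℕ
  p1 : ℕ
  n1 : ℕ
  p2 : ℕ
  n2 : ℕ
  p3 : ℕ
  n3 : ℕ
  u : ℕ
  v : ℕ

def LC.ok (l : LC) (T ρ xs ys : ℝ) : Prop :=
  ((l.p0 : ℝ) - l.n0) * T + ((l.p1 : ℝ) - l.n1) * ρ + ((l.p2 : ℝ) - l.n2) * xs +
    ((l.p3 : ℝ) - l.n3) * ys ≤ ((l.u : ℝ) - l.v) / 10000

/-- the inequality is violated on the box -/
def LC.bad (l : LC) (o a0 b0 a1 b1 a2 b2 a3 b3 : ℕ) : Bool :=
  Nat.ble (Nat.add (Nat.add (Nat.mul 10000 (Nat.add (Nat.add (Nat.add (Nat.add (Nat.mul l.p0 o)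
      (Nat.mul l.n0 b0)) (Nat.mul l.n1 b1)) (Nat.mul l.n2 b2)) (Nat.mul l.n3 b3)))
      (Nat.mul l.u 68719476736)) 1)
    (Nat.add (Nat.mul 10000 (Nat.add (Nat.add (Nat.add (Nat.add (Nat.mul l.p0 a0)
      (Nat.mul l.n0 o)) (Nat.mul l.p1 a1)) (Nat.mul l.p2 a2)) (Nat.mul l.p3 a3)))
      (Nat.mul l.v 68719476736))

theorem LC.bad_spec {l : LC} {o a0 b0 a1 b1 a2 b2 a3 b3 : ℕ} {T ρ xs ys : ℝ} (h0 : Rg o a0 b0 T)
    (h1 : Rg 0 a1 b1 ρ) (h2 : Rg 0 a2 b2 xs) (h3 : Rg 0 a3 b3 ys)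
    (h : l.bad o a0 b0 a1 b1 a2 b2 a3 b3 = true) : ¬ l.ok T ρ xs ys := by
  intro hk
  have hD := DR_pos
  have hv : DR = 68719476736 := rfl
  have k := Nat.le_of_ble_eq_true h
  have k2 : ((((10000 * (l.p0 * o + l.n0 * b0 + l.n1 * b1 + l.n2 * b2 + l.n3 * b3)) +
      l.u * 68719476736) + 1 : ℕ) : ℝ) ≤
      ((10000 * (l.p0 * a0 + l.n0 * o + l.p1 * a1 + l.p2 * a2 + l.p3 * a3) +
      l.v * 68719476736 : ℕ) : ℝ) := by
    exact_mod_cast k
  push_cast at k2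
  rw [← hv] at k2
  unfold Rg at h0 h1 h2 h3
  simp only [Nat.cast_zero, add_zero] at h1 h2 h3
  unfold LC.ok at hk
  have m : ∀ {p n : ℕ} {a b z : ℝ}, a ≤ z → z ≤ b → (p : ℝ) * a - n * b ≤ ((p : ℝ) - n) * z := by
    intro p n a b z ha hb
    have e1 : (p : ℝ) * a ≤ p * z := mul_le_mul_of_nonneg_left ha (Nat.cast_nonneg _)
    have e2 : (n : ℝ) * z ≤ n * b := mul_le_mul_of_nonneg_left hb (Nat.cast_nonneg _)
    linarith only [e1, e2]
  have e0 := m (p := l.p0) (n := l.n0) h0.1 h0.2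
  have e1 := m (p := l.p1) (n := l.n1) h1.1 h1.2
  have e2 := m (p := l.p2) (n := l.n2) h2.1 h2.2
  have e3 := m (p := l.p3) (n := l.n3) h3.1 h3.2
  have hk2 := mul_le_mul_of_nonneg_right hk (by positivity : (0 : ℝ) ≤ 10000 * DR)
  have r1 : (((l.p0 : ℝ) - l.n0) * T + ((l.p1 : ℝ) - l.n1) * ρ + ((l.p2 : ℝ) - l.n2) * xs +
      ((l.p3 : ℝ) - l.n3) * ys) * (10000 * DR) =
      10000 * ((((l.p0 : ℝ) - l.n0) * (T * DR + o) - ((l.p0 : ℝ) - l.n0) * o) +
      ((l.p1 : ℝ) - l.n1) * (ρ * DR) + ((l.p2 : ℝ) - l.n2) * (xs * DR) +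
      ((l.p3 : ℝ) - l.n3) * (ys * DR)) := by ring
  have r2 : ((l.u : ℝ) - l.v) / 10000 * (10000 * DR) = l.u * DR - l.v * DR := by
    field_simp
  rw [r1, r2] at hk2
  linarith only [k2, e0, e1, e2, e3, hk2]

noncomputable def lkW (ws : List LC) : ℕ → Option LC :=
  List.rec (motive := fun _ => ℕ → Option LC) (fun _ => none)
    (fun x _ ih k => Nat.rec (motive := fun _ => Option LC) (some x) (fun n _ => ih n) k) ws

lemma lkW_mem : ∀ {ws : List LC} {k : ℕ} {l : LC}, lkW ws k = some l → l ∈ ws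
  | [], _, _, h => absurd h (by simp [lkW])
  | x :: t, 0, l, h => by
    have : some x = some l := h
    rw [Option.some.injEq] at this
    rw [this]
    exact List.mem_cons_self
  | x :: t, k + 1, l, h => List.mem_cons_of_mem _ (lkW_mem (ws := t) (k := k) h)

/-- a row -/
structure Cf where
  /-- the hinge above the saddle point -/
  up : Bool
  /-- `0`: ring variable less than the hinge; `1`: ring variable down more than the hinge, the
  side; `2`: the same, the contribution -/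
  ty : ℕ
  /-- slack, in units `1 / 1000` -/
  mu : ℕ
  /-- slope of the bound of the contribution, in units `1 / 100` -/
  al : ℕ
  m0 : ℕ
  dl : ℕ
  m1 : ℕ
  n1 : ℕ
  /-- `1`: only above the curve of equal differences -/
  vs : ℕ
  ws : List LC

/-- bound of the contribution -/
noncomputable def Lb (al m0 : ℕ) (m : ℝ) : ℝ := max 0 ((al : ℝ) / 100 * (m - (m0 : ℝ) / 1000))

/-- conclusion of a row -/
def Cf.Con (c : Cf) (A G m N : ℝ) : Prop :=
  (c.ty = 0 → 0 < A + (c.mu : ℝ) / 1000 * m) ∧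
  (c.ty = 1 → 0 < A + (c.mu : ℝ) / 1000 * m ∨ Lb c.al c.m0 m < G ∨
    (m ≤ (c.m1 : ℝ) / 1000 ∧ m + (c.n1 : ℝ) / 1000 ≤ N ∧
      Lb c.al c.m0 m - (c.dl : ℝ) / 1000 < G)) ∧
  (c.ty = 2 → (c.dl : ℝ) / 1000 < G + Lb c.al c.m0 m)

/-- the sides -/
noncomputable def AA (up : Bool) (T ρ xs ys x y : ℝ) : ℝ :=
  bif up then Sx xs ys T ρ - Sx x y T ρ else Sx x y T ρ - Sx xs ys T ρ

/-- the row -/
def RowP (c : Cf) (T ρ xs ys x y : ℝ) : Prop :=
  0 < xs → xs < 1 / 2 → 0 < ys → ys ≤ 1 / 2 → 0 < x → x < 1 / 2 → 0 < y → y ≤ 1 / 2 →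
  (∀ l ∈ c.ws, l.ok T ρ xs ys) → 0 ≤ mm c.up xs x → (c.ty ≠ 2 → 0 < mm c.up xs x) →
  (c.ty = 2 → c.m1 ≠ 0 → mm c.up xs x ≤ (c.m1 : ℝ) / 1000) →
  (c.ty = 0 → |gh ys - gh y| ≤ mm c.up xs x) →
  (c.ty = 1 → mm c.up xs x < gh ys - gh y) →
  (c.ty = 2 → mm c.up xs x + (c.n1 : ℝ) / 1000 < gh ys - gh y) →
  (c.vs ≠ 0 → gh ys + gh y ≤ gh xs + gh x ∨
    (c.ty = 1 ∧ c.al ≠ 0 ∧ (c.m0 : ℝ) / 1000 ≤ mm c.up xs x)) →
  c.Con (AA c.up T ρ xs ys x y) (Dx x y T ρ - Dx xs ys T ρ) (mm c.up xs x) (gh ys - gh y)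

/-- `10 κ`, the contribution alone counts as `10` -/
def kn (j : ℕ) : ℕ := cond (Nat.beq j 15) 10 (kap j)

/-- the test by values; `dd`: the number `dl` which may be used -/
def rT (c : Cf) (dd j v : ℕ) (T R XS YS X Y : F) : Bool :=
  evF c.up j v c.mu (Nat.beq (Nat.add c.mu c.al) 0) T R X Y fun Φ g =>
  evF c.up j 0 c.mu (Nat.beq (Nat.add c.mu c.al) 0) T R XS YS fun Φs gs =>
  cond (Nat.beq c.ty 0) (cond (Nat.beq j 0) (posF (Φ.col.sub Φs.col)) false)
  (cond (Nat.beq c.ty 1)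
    (cond (posF ((Φ.col.sub Φs.col).add (F.rat (Nat.mul (kn j) dd) 10000)))
      (cond (Nat.beq c.al 0) true
        (posF (((cond c.up (Φ.sub (F.mulq (Nat.mul (kn j) c.al) 1000 g))
          (Φ.add (F.mulq (Nat.mul (kn j) c.al) 1000 g))).col.sub
          (cond c.up (Φs.sub (F.mulq (Nat.mul (kn j) c.al) 1000 gs))
          (Φs.add (F.mulq (Nat.mul (kn j) c.al) 1000 gs))).col).add
          (F.rat (Nat.mul (kn j) (Nat.add (Nat.mul c.al c.m0) (Nat.mul 100 dd))) 1000000)))) false)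
    (cond (Nat.beq j 15)
      (cond (posF ((Φ.col.sub Φs.col).sub (F.rat c.dl 1000))) true
        (cond (Nat.beq c.al 0) false
          (posF (((cond c.up (Φ.add (F.mulq c.al 100 g)) (Φ.sub (F.mulq c.al 100 g))).col.sub
            (cond c.up (Φs.add (F.mulq c.al 100 gs)) (Φs.sub (F.mulq c.al 100 gs))).col).sub
            (F.rat (Nat.add (Nat.mul c.al c.m0) (Nat.mul 100 c.dl)) 100000))))) false))

theorem kn_eq {j : ℕ} : ((kn j : ℕ) : ℝ) = if j = 15 then 10 else (kap j : ℝ) := by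
  unfold kn
  rcases e : Nat.beq j 15 with _ | _
  · have hj : j ≠ 15 := by
      rintro rfl
      exact absurd e (by decide)
    rw [if_neg hj, cond_false]
  · rw [if_pos (Nat.eq_of_beq_eq_true e), cond_true]
    norm_num

theorem beq_ne {a b : ℕ} (h : Nat.beq a b = false) : a ≠ b := by
  rintro rfl
  rw [Nat.beq_refl] at h
  exact absurd h (by decide)

/-- combination: the values -/
theorem phv_diff {up : Bool} {j mu : ℕ} {T ρ xs ys x y : ℝ} :
    phv up j mu x y T ρ - phv up j mu xs ys T ρ = if j = 15 then Dx x y T ρ - Dx xs ys T ρ else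
      AA up T ρ xs ys x y + (kn j : ℝ) / 10 * (Dx x y T ρ - Dx xs ys T ρ) +
      (mu : ℝ) / 1000 * mm up xs x := by
  unfold phv AA mm
  rw [kn_eq]
  split_ifs with h
  · rfl
  · rcases up with _ | _
    · simp only [cond_false]
      ring
    · simp only [cond_true]
      ring

/-- logic of type `1` -/
theorem con1 {c : Cf} {j dd : ℕ} {A G m N : ℝ} (hc : c.ty = 1)
    (hdd : dd = 0 ∨ (dd = c.dl ∧ m ≤ (c.m1 : ℝ) / 1000 ∧ m + (c.n1 : ℝ) / 1000 ≤ N))
    (h1 : 0 < (if j = 15 then G else A + (kn j : ℝ) / 10 * G + (c.mu : ℝ) / 1000 * m) +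
      (kn j : ℝ) / 10 * ((dd : ℝ) / 1000))
    (h2 : (c.al : ℝ) / 100 * (m - (c.m0 : ℝ) / 1000) ≤ 0 ∨
      0 < (if j = 15 then G else A + (kn j : ℝ) / 10 * G + (c.mu : ℝ) / 1000 * m) +
      (kn j : ℝ) / 10 * ((dd : ℝ) / 1000) -
      (kn j : ℝ) / 10 * ((c.al : ℝ) / 100 * (m - (c.m0 : ℝ) / 1000))) : c.Con A G m N := by
  refine ⟨fun h => by omega, fun _ => ?_, fun h => by omega⟩
  have key2 : 0 < A + (c.mu : ℝ) / 1000 * m ∨ Lb c.al c.m0 m - (dd : ℝ) / 1000 < G := by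
    by_contra hn
    rw [not_or, not_lt, not_lt] at hn
    obtain ⟨n1, n2⟩ := hn
    have hk : (0 : ℝ) ≤ (kn j : ℝ) / 10 := by positivity
    unfold Lb at n2
    have key : 0 < (if j = 15 then G else A + (kn j : ℝ) / 10 * G + (c.mu : ℝ) / 1000 * m) +
        (kn j : ℝ) / 10 * ((dd : ℝ) / 1000) -
        (kn j : ℝ) / 10 * (max 0 ((c.al : ℝ) / 100 * (m - (c.m0 : ℝ) / 1000))) := by
      rcases h2 with h2 | h2
      · rw [max_eq_left h2]
        linarith only [h1]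
      · rcases max_choice 0 ((c.al : ℝ) / 100 * (m - (c.m0 : ℝ) / 1000)) with e | e
        · rw [e]
          linarith only [h1]
        · rw [e]
          exact h2
    have n3 := mul_le_mul_of_nonneg_left n2 hk
    rw [mul_sub] at n3
    split_ifs at key with hj
    · rw [kn_eq, if_pos hj] at key n3
      linarith only [n2, key]
    · linarith only [n1, n3, key]
  rcases key2 with k | k
  · exact Or.inl k
  · rcases hdd with h | ⟨h, g1, g2⟩
    · rw [h, Nat.cast_zero, zero_div, sub_zero] at k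
      exact Or.inr (Or.inl k)
    · rw [h] at k
      exact Or.inr (Or.inr ⟨g1, g2, k⟩)

/-- logic of type `2` -/
theorem con2 {c : Cf} {A G m N : ℝ} (hc : c.ty = 2)
    (h : 0 < G - (c.dl : ℝ) / 1000 ∨
      0 < G - (c.dl : ℝ) / 1000 + (c.al : ℝ) / 100 * (m - (c.m0 : ℝ) / 1000)) :
    c.Con A G m N := by
  refine ⟨fun h => by omega, fun h => by omega, fun _ => ?_⟩
  unfold Lb
  rcases h with h | h
  · have := le_max_left 0 ((c.al : ℝ) / 100 * (m - (c.m0 : ℝ) / 1000))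
    linarith only [h, this]
  · have := le_max_right 0 ((c.al : ℝ) / 100 * (m - (c.m0 : ℝ) / 1000))
    linarith only [h, this]

theorem rT_spec {c : Cf} {dd j v : ℕ} {T R XS YS X Y : F} {e0 e1 s2 s3 e2 e3 : ℝ}
    {t ρ xs ys x y : ℝ} (h0 : |e0| ≤ 1) (h1 : |e1| ≤ 1) (g2 : |s2| ≤ 1) (g3 : |s3| ≤ 1)
    (h2 : |e2| ≤ 1) (h3 : |e3| ≤ 1)
    (hT : T.Encl (eps4 e0 e1 e2 e3) t) (hR : R.Encl (eps4 e0 e1 e2 e3) ρ)
    (hX : X.Encl (eps4 e0 e1 e2 e3) x) (hY : Y.Encl (eps4 e0 e1 e2 e3) y)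
    (hT' : T.Encl (eps4 e0 e1 s2 s3) t) (hR' : R.Encl (eps4 e0 e1 s2 s3) ρ)
    (hXS : XS.Encl (eps4 e0 e1 s2 s3) xs) (hYS : YS.Encl (eps4 e0 e1 s2 s3) ys)
    (p1 : 0 < xs) (p2 : xs < 1) (p3 : 0 < x) (p4 : x < 1)
    (h : rT c dd j v T R XS YS X Y = true) (hty : c.ty ≤ 2) (N : ℝ)
    (hdd : c.ty = 1 → dd = 0 ∨ (dd = c.dl ∧ mm c.up xs x ≤ (c.m1 : ℝ) / 1000 ∧
      mm c.up xs x + (c.n1 : ℝ) / 1000 ≤ N)) :
    c.Con (AA c.up t ρ xs ys x y) (Dx x y t ρ - Dx xs ys t ρ) (mm c.up xs x) N := by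
  have hε := eps4_le h0 h1 h2 h3
  have hε' := eps4_le h0 h1 g2 g3
  have hε0 : ∀ i, |eps4 e0 e1 0 0 i| ≤ 1 := eps4_le h0 h1 (by simp) (by simp)
  have hz : Nat.beq (Nat.add c.mu c.al) 0 = true → c.mu = 0 := by
    intro hb
    have := Nat.eq_of_beq_eq_true hb
    change c.mu + c.al = 0 at this
    omega
  obtain ⟨Φ, g, kΦ, kg, h⟩ := evF_some hε hT hR hX hY p3 p4 hz h
  obtain ⟨Φs, gs, kΦs, kgs, h⟩ := evF_some hε' hT' hR' hXS hYS p1 p2 hz h
  have d0 := F.Encl.sub (F.Encl.col h2 h3 kΦ) (F.Encl.col g2 g3 kΦs)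
  have dl1 := F.Encl.rat (Nat.mul (kn j) dd) 10000 (eps4 e0 e1 0 0)
  rcases t0 : Nat.beq c.ty 0 with _ | _
  swap
  · rw [t0, cond_true] at h
    obtain ⟨hj, h⟩ := cond_ff h
    have hj0 := Nat.eq_of_beq_eq_true hj
    have hp := posF_spec hε0 d0 h
    rw [phv_diff, if_neg (by omega), kn_eq, if_neg (by omega)] at hp
    have hk0 : kap j = 0 := by rw [hj0]; rfl
    rw [hk0, Nat.cast_zero, zero_div, zero_mul, add_zero] at hp
    have ht := Nat.eq_of_beq_eq_true t0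
    exact ⟨fun _ => hp, fun h => by omega, fun h => by omega⟩
  rw [t0, cond_false] at h
  have t0' := beq_ne t0
  rcases t1 : Nat.beq c.ty 1 with _ | _
  swap
  · rw [t1, cond_true] at h
    have ht := Nat.eq_of_beq_eq_true t1
    obtain ⟨ha, h⟩ := cond_ff h
    have hp := posF_spec hε0 (F.Encl.add d0 dl1) ha
    have hdl : ((Nat.mul (kn j) dd : ℕ) : ℝ) / ((10000 : ℕ) : ℝ) =
        (kn j : ℝ) / 10 * ((dd : ℝ) / 1000) := by
      change ((kn j * dd : ℕ) : ℝ) / ((10000 : ℕ) : ℝ) = _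
      push_cast
      ring
    rw [hdl, phv_diff] at hp
    refine con1 (j := j) (dd := dd) ht (hdd ht) hp ?_
    rcases ea : Nat.beq c.al 0 with _ | _
    swap
    · left
      have := Nat.eq_of_beq_eq_true ea
      rw [this, Nat.cast_zero, zero_div, zero_mul]
    right
    rw [ea, cond_false] at h
    have hzf : Nat.beq (Nat.add c.mu c.al) 0 = false := by
      rcases hb : Nat.beq (Nat.add c.mu c.al) 0 with _ | _
      · rfl
      · have := Nat.eq_of_beq_eq_true hb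
        change c.mu + c.al = 0 at this
        exact absurd (by omega : c.al = 0) (beq_ne ea)
    have k1 := F.Encl.mulq (n := Nat.mul (kn j) c.al) (d := 1000) (by norm_num) hε (kg hzf)
    have k2 := F.Encl.mulq (n := Nat.mul (kn j) c.al) (d := 1000) (by norm_num) hε' (kgs hzf)
    have k3 := F.Encl.rat (Nat.mul (kn j) (Nat.add (Nat.mul c.al c.m0) (Nat.mul 100 dd))) 1000000
      (eps4 e0 e1 0 0)
    have e1' : ((Nat.mul (kn j) c.al : ℕ) : ℝ) / ((1000 : ℕ) : ℝ) =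
        (kn j : ℝ) / 10 * ((c.al : ℝ) / 100) := by
      change ((kn j * c.al : ℕ) : ℝ) / ((1000 : ℕ) : ℝ) = _
      push_cast
      ring
    have e2' : ((Nat.mul (kn j) (Nat.add (Nat.mul c.al c.m0) (Nat.mul 100 dd)) : ℕ) : ℝ) /
        ((1000000 : ℕ) : ℝ) = (kn j : ℝ) / 10 * ((c.al : ℝ) / 100 * ((c.m0 : ℝ) / 1000)) +
        (kn j : ℝ) / 10 * ((dd : ℝ) / 1000) := by
      change ((kn j * (c.al * c.m0 + 100 * dd) : ℕ) : ℝ) / ((1000000 : ℕ) : ℝ) = _
      push_cast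
      ring
    rw [e1'] at k1 k2
    rw [e2'] at k3
    rw [← phv_diff]
    unfold mm
    rcases hu : c.up with _ | _
    · rw [hu] at h kΦ kΦs
      simp only [cond_false] at h ⊢
      have hp2 := posF_spec hε0 (F.Encl.add (F.Encl.sub (F.Encl.col h2 h3 (F.Encl.add kΦ k1))
        (F.Encl.col g2 g3 (F.Encl.add kΦs k2))) k3) h
      linarith only [hp2]
    · rw [hu] at h kΦ kΦs
      simp only [cond_true] at h ⊢
      have hp2 := posF_spec hε0 (F.Encl.add (F.Encl.sub (F.Encl.col h2 h3 (F.Encl.sub kΦ k1))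
        (F.Encl.col g2 g3 (F.Encl.sub kΦs k2))) k3) h
      linarith only [hp2]
  rw [t1, cond_false] at h
  have t1' := beq_ne t1
  have ht : c.ty = 2 := by omega
  obtain ⟨hj, h⟩ := cond_ff h
  have hj0 := Nat.eq_of_beq_eq_true hj
  refine con2 ht ?_
  have k0 := F.Encl.rat c.dl 1000 (eps4 e0 e1 0 0)
  push_cast at k0
  rcases hq : posF ((Φ.col.sub Φs.col).sub (F.rat c.dl 1000)) with _ | _
  swap
  · left
    have hp := posF_spec hε0 (F.Encl.sub d0 k0) hq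
    rw [phv_diff, if_pos hj0] at hp
    exact hp
  rw [hq, cond_false] at h
  right
  rcases ea : Nat.beq c.al 0 with _ | _
  swap
  · rw [ea, cond_true] at h
    exact absurd h (by decide)
  rw [ea, cond_false] at h
  have hzf : Nat.beq (Nat.add c.mu c.al) 0 = false := by
    rcases hb : Nat.beq (Nat.add c.mu c.al) 0 with _ | _
    · rfl
    · have := Nat.eq_of_beq_eq_true hb
      change c.mu + c.al = 0 at this
      exact absurd (by omega : c.al = 0) (beq_ne ea)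
  have k1 := F.Encl.mulq (n := c.al) (d := 100) (by norm_num) hε (kg hzf)
  have k2 := F.Encl.mulq (n := c.al) (d := 100) (by norm_num) hε' (kgs hzf)
  have k3 := F.Encl.rat (Nat.add (Nat.mul c.al c.m0) (Nat.mul 100 c.dl)) 100000
    (eps4 e0 e1 0 0)
  have e2' : ((Nat.add (Nat.mul c.al c.m0) (Nat.mul 100 c.dl) : ℕ) : ℝ) /
      ((100000 : ℕ) : ℝ) = (c.al : ℝ) / 100 * ((c.m0 : ℝ) / 1000) + (c.dl : ℝ) / 1000 := by
    change ((c.al * c.m0 + 100 * c.dl : ℕ) : ℝ) / ((100000 : ℕ) : ℝ) = _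
    push_cast
    ring
  push_cast at k1 k2
  rw [e2'] at k3
  have hd : Dx x y t ρ - Dx xs ys t ρ = phv c.up j c.mu x y t ρ - phv c.up j c.mu xs ys t ρ := by
    rw [phv_diff, if_pos hj0]
  rw [hd]
  unfold mm
  rcases hu : c.up with _ | _
  · rw [hu] at h kΦ kΦs
    simp only [cond_false] at h ⊢
    have hp2 := posF_spec hε0 (F.Encl.sub (F.Encl.sub (F.Encl.col h2 h3 (F.Encl.sub kΦ k1))
      (F.Encl.col g2 g3 (F.Encl.sub kΦs k2))) k3) h
    linarith only [hp2]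
  · rw [hu] at h kΦ kΦs
    simp only [cond_true] at h ⊢
    have hp2 := posF_spec hε0 (F.Encl.sub (F.Encl.sub (F.Encl.col h2 h3 (F.Encl.add kΦ k1))
      (F.Encl.col g2 g3 (F.Encl.add kΦs k2))) k3) h
    linarith only [hp2]

end R6

end Pool.Agent.Work.MP_b30479_gt.G2
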