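import Pool.Agent.Work.MP_b30479_gt.G2.RGood
import Pool.Agent.Work.MP_b30479_gt.G2.RT6C

/-!
# Rings on the level part: from rows with six variables to the statements of the level theorem
-/

namespace Pool.Agent.Work.MP_b30479_gt.G2

open Real Set VOL Filter Topology

namespace RC

open R6

section
variable {xs ys T ρ cl cp x y a0 a1 p0 : ℝ}

theorem GD.y1 (g : GD xs ys cl cp) (h1 : 1 / 4 ≤ y) (h2 : y < ys) : y ∈ Ioo (0 : ℝ) 1 :=
  ⟨by linarith only [h1], by linarith only [h2, g, g.y2]⟩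

/-- **The ring variable goes down more than the hinge, small product.** -/
theorem GD.zd (g : GD xs ys cl cp) (hf : H2 xs ys T ρ) (ha : 158 / 1000 ≤ ta cl)
    (hv : shq (T - ρ) ≤ 45 / 100) (hx : x ∈ Icc cl cp) (h1 : 1 / 4 ≤ y) (h2 : y < ys)
    (hn : Nz x y T ρ) (hN : |gh x - gh xs| < gh ys - gh y) (hK : gh xs + gh x < gh ys + gh y) :
    Dx xs ys T ρ < Dx x y T ρ := by
  have hxi := g.x1 hx
  have hyi := g.y1 h1 h2
  have hax := ta_pos g.xi
  have hay := ta_pos g.yi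
  have h8 := t8_le hyi h1
  have hx1 := (ta_le' g.cli hxi).2 hx.1
  have hxy : x + y < 1 := by linarith only [h2, hx, g, hx.2, g.cp2, g.y2]
  have hN' := abs_lt.1 hN
  refine zdn g.xi g.yi hxi hyi g.hs g.y2 hxy hN ((ta_mul_lt g.xi hxi g.yi hyi).2 hK) ?_ ?_ hn
  · have : (158 / 1000 : ℝ) * (4142 / 10000) ≤ ta x * ta y :=
      mul_le_mul (ha.trans hx1) h8.le (by norm_num) (ta_pos hxi).le
    linarith only [hv, this]
  · refine ff_of g.xi g.yi g.hs g.y4 g.y2 hxi hyi ((add_lt_iff hxi hyi).2 hxy) (shq_nonneg _) hf ?_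
    have h3 : ta xs * ta y < ta x * ta ys := (ta_mul_lt g.xi hyi hxi g.yi).2 (by linarith only [hN'])
    calc (4142 / 10000 : ℝ) ^ 2 * ta xs = ta xs * (4142 / 10000) * (4142 / 10000) := by ring
      _ < ta xs * ta y * ta y := by
        have : ta xs * (4142 / 10000) < ta xs * ta y := mul_lt_mul_of_pos_left h8 hax
        nlinarith only [this, h8]
      _ < ta x * ta ys * ta y := mul_lt_mul_of_pos_right h3 (ta_pos hyi)
      _ = _ := by ring

/-- **The hinge goes up more than the ring variable, small product.** -/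
theorem GD.wupp (g : GD xs ys cl cp) (hr : DR xs ys T ρ a0 a1 p0) (ha0 : a0 ≤ ta cl)
    (ha1 : ta cp ≤ a1) (ha1' : a1 < 1) (hp0 : p0 ≤ a0 * (4142 / 10000)) (hx : x ∈ Icc cl cp)
    (hy : y ∈ Icc (1 / 4 : ℝ) (1 / 2)) (h1 : xs < x) (hn : Nz x y T ρ)
    (hN : |gh y - gh ys| ≤ gh x - gh xs) (hK : gh xs + gh x ≤ gh ys + gh y) :
    Sx x y T ρ < Sx xs ys T ρ := by
  have hxi := g.x1 hx
  have hyi : y ∈ Ioo (0 : ℝ) 1 := ⟨by linarith only [hy, hy.1], by linarith only [hy, hy.2]⟩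
  have hxy : x + y < 1 := by linarith only [hx, g, hy, hx.2, g.cp2, hy.2]
  have hy1 := ta_le_one hyi hy.2
  have h8 := t8_le g.yi g.y4
  have hx2 := (ta_le' hxi g.cpi).2 hx.2
  refine RC.wup g.xi g.yi hxi hyi g.hs hxy (by linarith only [hx, g, hx.2, g.cp2]) h1 hN
    ((ta_mul_le g.xi hxi g.yi hyi).2 hK) hn ?_
  intro x' y' hx' hy' hyy hd hp
  have hxi' : x' ∈ Ioo (0 : ℝ) 1 := ⟨g.xi.1.trans_le hx'.1, hx'.2.trans_lt hxi.2⟩
  have e := diag_ta g.xi g.yi hxi' hy' hd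
  have a1' := (ta_le' g.xi hxi').2 hx'.1
  have a2 := (ta_le' hxi' hxi).2 hx'.2
  have a3 := (ta_le' g.cli g.xi).2 g.xl
  have a4 := (ta_le' g.yi hy').2 hyy
  have hpa : ta x' * ta y' ≤ a1 := by
    have : ta x * ta y ≤ a1 * 1 := mul_le_mul (hx2.trans ha1) hy1 (ta_pos hyi).le
      ((ta_pos hxi).le.trans (hx2.trans ha1))
    linarith only [hp, this]
  have hp0' : p0 ≤ ta x' * ta y' := by
    have : a0 * (4142 / 10000) ≤ ta x' * ta y' :=
      mul_le_mul (by linarith only [ha0, a1', a3]) (by linarith only [h8, a4]) (by norm_num) (ta_pos hxi').le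
    linarith only [hp0, this]
  obtain ⟨w1, w2⟩ := hr.W x' y' hxi' hy' (by linarith only [ha0, a1', a3]) (by linarith only [ha1, hx2, a2]) e hp0' hpa
  exact ⟨coscos hxi' hy' (by linarith only [ha1', hpa]), w2, w1, hr.U x' y' hxi' hy' a1' (by linarith only [ha1, hx2, a2]) e hpa⟩

end

/-- everything which is known about a hinge -/
structure HD (xs ys T ρ cl cp : ℝ) : Prop extends GD xs ys cl cp where
  h2 : H2 xs ys T ρ
  ha : 158 / 1000 ≤ ta cl
  hv : shq (T - ρ) ≤ 45 / 100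

section
variable {xs ys T ρ cl cp x y : ℝ} {c : Cf}

theorem mm_true (xs x : ℝ) : mm true xs x = gh x - gh xs := rfl
theorem mm_false (xs x : ℝ) : mm false xs x = gh xs - gh x := rfl
theorem AA_true : AA true T ρ xs ys x y = Sx xs ys T ρ - Sx x y T ρ := rfl
theorem AA_false : AA false T ρ xs ys x y = Sx x y T ρ - Sx xs ys T ρ := rfl

theorem Lb_nonneg (al m0 : ℕ) (m : ℝ) : 0 ≤ Lb al m0 m := le_max_left _ _

theorem Lb_mono (al m0 : ℕ) : Monotone (Lb al m0) := by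
  intro s t h
  unfold Lb
  refine max_le_max le_rfl ?_
  have : (0 : ℝ) ≤ (al : ℝ) / 100 := by positivity
  nlinarith only [h, this]

theorem Lb_zero' (m0 : ℕ) (m : ℝ) : Lb 0 m0 m = 0 := by
  unfold Lb
  rw [Nat.cast_zero, zero_div, zero_mul, max_self]

theorem Lb_zero (al m0 : ℕ) : Lb al m0 0 = 0 := by
  unfold Lb
  apply max_eq_left
  have h1 : (0 : ℝ) ≤ (al : ℝ) / 100 := by positivity
  have h2 : (0 : ℝ) ≤ (m0 : ℝ) / 1000 := by positivity
  nlinarith only [h1, h2, mul_nonneg h1 h2]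

theorem Lb_small {al m0 : ℕ} {m : ℝ} (h : m < (m0 : ℝ) / 1000) : Lb al m0 m = 0 := by
  unfold Lb
  apply max_eq_left
  have h1 : (0 : ℝ) ≤ (al : ℝ) / 100 := by positivity
  nlinarith only [h1, h, mul_nonneg h1 (sub_pos.2 h).le]

/-- **A row for the hinge above, ring variable less.** -/
theorem row_W (g : GD xs ys cl cp) (hc : c.up = true) (ht : c.ty = 0)
    (R : RowP c T ρ xs ys x y) (hw : ∀ l ∈ c.ws, l.ok T ρ xs ys) (hx : x ∈ Icc cl cp)
    (hy : y ∈ Icc (1 / 4 : ℝ) (1 / 2)) (h1 : xs < x)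
    (hN : |gh y - gh ys| ≤ gh x - gh xs) (hK : c.vs ≠ 0 → gh ys + gh y ≤ gh xs + gh x) :
    Sx x y T ρ < Sx xs ys T ρ + (c.mu : ℝ) / 1000 * (gh x - gh xs) := by
  have hxi := g.x1 hx
  have hm := (gh_lt g.xi hxi).2 h1
  have k := R g.xi.1 (by linarith only [g, g.xc, g.cp2]) (by linarith only [g, g.y4]) g.y2 hxi.1
    (by linarith only [hx, g, hx.2, g.cp2]) (by linarith only [hy, hy.1]) hy.2 hw
  rw [hc, mm_true, AA_true] at k
  have k2 := (k (by linarith only [hm]) (fun _ => by linarith only [hm]) (fun h => by omega)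
    (fun _ => by rwa [abs_sub_comm]) (fun h => by omega) (fun h => by omega)
    (fun h => Or.inl (hK h))).1 ht
  linarith only [k2]

/-- **A row for the side of the hinge above.** -/
theorem row_up (g : GD xs ys cl cp) (hH : c.vs ≠ 0 → HD xs ys T ρ cl cp) (hc : c.up = true)
    (ht : c.ty = 1)
    (R : RowP c T ρ xs ys x y) (hw : ∀ l ∈ c.ws, l.ok T ρ xs ys) (hx : x ∈ Icc cl cp)
    (h1 : 1 / 4 ≤ y) (h2 : y < ys) (h3 : xs < x) (hn : Nz x y T ρ)
    (hN : gh x - gh xs < gh ys - gh y)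
    (hG : Dx x y T ρ ≤ Dx xs ys T ρ + Lb c.al c.m0 (gh x - gh xs))
    (hD : gh x - gh xs ≤ (c.m1 : ℝ) / 1000 → gh x - gh xs + (c.n1 : ℝ) / 1000 ≤ gh ys - gh y →
      Dx x y T ρ + (c.dl : ℝ) / 1000 ≤ Dx xs ys T ρ + Lb c.al c.m0 (gh x - gh xs)) :
    Sx x y T ρ < Sx xs ys T ρ + (c.mu : ℝ) / 1000 * (gh x - gh xs) := by
  have hxi := g.x1 hx
  have hm := (gh_lt g.xi hxi).2 h3
  have k := R g.xi.1 (by linarith only [g, g.xc, g.cp2]) (by linarith only [h1, h2, g.y4]) g.y2 hxi.1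
    (by linarith only [hx, g, hx.2, g.cp2]) (by linarith only [h1]) (by linarith only [h2, g, g.y2]) hw
  rw [hc, mm_true, AA_true] at k
  by_cases hv : c.vs ≠ 0 → gh ys + gh y ≤ gh xs + gh x ∨
      (c.al ≠ 0 ∧ (c.m0 : ℝ) / 1000 ≤ gh x - gh xs)
  · rcases (k (by linarith only [hm]) (fun _ => by linarith only [hm]) (fun h => by omega)
      (fun h => by omega) (fun _ => hN) (fun h => by omega)
      (fun h => (hv h).imp id fun h => ⟨ht, h⟩)).2.1 ht with h | h | ⟨h4, h5, h6⟩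
    · linarith only [h]
    · exfalso
      linarith only [hG, h]
    · exfalso
      linarith only [h6, hD, h4, h5, hD h4 h5]
  · exfalso
    push Not at hv
    obtain ⟨hv0, hv1, hv2⟩ := hv
    have H := hH hv0
    have hz := g.zd H.h2 H.ha H.hv hx h1 h2 hn (by rwa [abs_of_pos (by linarith only [hm])]) (by linarith only [hv1])
    have hL : Lb c.al c.m0 (gh x - gh xs) = 0 := by
      by_cases ha : c.al = 0
      · rw [ha, Lb_zero']
      · exact Lb_small (hv2 ha)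
    rw [hL] at hG
    linarith only [hG, hz]

/-- **A row for the side of the hinge below.** -/
theorem row_dn (g : GD xs ys cl cp) (hH : c.vs ≠ 0 → HD xs ys T ρ cl cp) (hc : c.up = false)
    (ht : c.ty = 1)
    (R : RowP c T ρ xs ys x y) (hw : ∀ l ∈ c.ws, l.ok T ρ xs ys) (hx : x ∈ Icc cl cp)
    (h1 : 1 / 4 ≤ y) (h2 : y < ys) (h3 : x < xs) (hn : Nz x y T ρ)
    (hN : gh xs - gh x < gh ys - gh y)
    (hG : Dx x y T ρ ≤ Dx xs ys T ρ + Lb c.al c.m0 (gh xs - gh x))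
    (hD : gh xs - gh x ≤ (c.m1 : ℝ) / 1000 → gh xs - gh x + (c.n1 : ℝ) / 1000 ≤ gh ys - gh y →
      Dx x y T ρ + (c.dl : ℝ) / 1000 ≤ Dx xs ys T ρ + Lb c.al c.m0 (gh xs - gh x)) :
    Sx xs ys T ρ < Sx x y T ρ + (c.mu : ℝ) / 1000 * (gh xs - gh x) := by
  have hxi := g.x1 hx
  have hm := (gh_lt hxi g.xi).2 h3
  have k := R g.xi.1 (by linarith only [g, g.xc, g.cp2]) (by linarith only [h1, h2, g.y4]) g.y2 hxi.1
    (by linarith only [hx, g, hx.2, g.cp2]) (by linarith only [h1]) (by linarith only [h2, g, g.y2]) hw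
  rw [hc, mm_false, AA_false] at k
  by_cases hv : c.vs ≠ 0 → gh ys + gh y ≤ gh xs + gh x ∨
      (c.al ≠ 0 ∧ (c.m0 : ℝ) / 1000 ≤ gh xs - gh x)
  · rcases (k (by linarith only [hm]) (fun _ => by linarith only [hm]) (fun h => by omega)
      (fun h => by omega) (fun _ => hN) (fun h => by omega)
      (fun h => (hv h).imp id fun h => ⟨ht, h⟩)).2.1 ht with h | h | ⟨h4, h5, h6⟩
    · linarith only [h]
    · exfalso
      linarith only [hG, h]
    · exfalso
      linarith only [h6, hD, h4, h5, hD h4 h5]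
  · exfalso
    push Not at hv
    obtain ⟨hv0, hv1, hv2⟩ := hv
    have H := hH hv0
    have hz := g.zd H.h2 H.ha H.hv hx h1 h2 hn
      (by rwa [abs_sub_comm, abs_of_pos (by linarith only [hm])]) (by linarith only [hv1])
    have hL : Lb c.al c.m0 (gh xs - gh x) = 0 := by
      by_cases ha : c.al = 0
      · rw [ha, Lb_zero']
      · exact Lb_small (hv2 ha)
    rw [hL] at hG
    linarith only [hG, hz]

/-- **The contribution, hinge above or below.** -/
theorem row_Q (g : GD xs ys cl cp) (hH : c.vs ≠ 0 → HD xs ys T ρ cl cp) (ht : c.ty = 2)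
    (hd : c.dl = 0 ∨ c.vs = 0)
    (R : RowP c T ρ xs ys x y) (hw : ∀ l ∈ c.ws, l.ok T ρ xs ys) (hx : x ∈ Icc cl cp)
    (h1 : 1 / 4 ≤ y) (h2 : y < ys) (h3 : 0 ≤ mm c.up xs x) (hn : Nz x y T ρ)
    (h4 : c.m1 ≠ 0 → mm c.up xs x ≤ (c.m1 : ℝ) / 1000)
    (hN : mm c.up xs x + (c.n1 : ℝ) / 1000 < gh ys - gh y) :
    Dx xs ys T ρ + (c.dl : ℝ) / 1000 < Dx x y T ρ + Lb c.al c.m0 (mm c.up xs x) := by
  have hxi := g.x1 hx
  have k := R g.xi.1 (by linarith only [g, g.xc, g.cp2]) (by linarith only [h1, h2, g.y4]) g.y2 hxi.1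
    (by linarith only [hx, g, hx.2, g.cp2]) (by linarith only [h1]) (by linarith only [h2, g, g.y2]) hw
  by_cases hv : c.vs ≠ 0 → gh ys + gh y ≤ gh xs + gh x
  · have := (k h3 (fun h => absurd ht h) (fun _ => h4) (fun h => by omega) (fun h => by omega)
      (fun _ => hN) (fun h => Or.inl (hv h))).2.2 ht
    linarith only [this]
  · push Not at hv
    obtain ⟨hv1, hv2⟩ := hv
    have H := hH hv1
    have hd0 : c.dl = 0 := hd.resolve_right hv1
    have e : |gh x - gh xs| = mm c.up xs x := by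
      unfold mm at h3 ⊢
      rcases hc : c.up with _ | _
      · rw [hc] at h3
        simp only [cond_false] at h3 ⊢
        rw [abs_sub_comm, abs_of_nonneg h3]
      · rw [hc] at h3
        simp only [cond_true] at h3 ⊢
        rw [abs_of_nonneg h3]
    have hn1 : (0 : ℝ) ≤ (c.n1 : ℝ) / 1000 := by positivity
    have hz := g.zd H.h2 H.ha H.hv hx h1 h2 hn (by rw [e]; linarith only [hN, hn1]) (by linarith only [hv2])
    rw [hd0, Nat.cast_zero, zero_div, add_zero]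
    have := Lb_nonneg c.al c.m0 (mm c.up xs x)
    linarith only [hz, this]

end

end RC

end Pool.Agent.Work.MP_b30479_gt.G2
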