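import Pool.Agent.Work.MP_b30479_gt.G2.RPush
import Pool.Agent.Work.MP_b30479_gt.G2.RRampW
import Pool.Agent.Work.MP_b30479_gt.G2.WLocR
import Pool.Agent.Work.MP_b30479_gt.G2.WLocY

/-!
# The ramp part of the rings in a word, at least five crossings

`Rows5`: the list of the rows.
-/

namespace Pool.Agent.Work.MP_b30479_gt.G2

open Finset VOL Filter Topology

namespace SR

/-- flat part of a hinge of a ring at a maximiser, by the class of the neighbour -/
noncomputable def fcl : Cl → ℝ
  | .one => 16 / 100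
  | .two => 125 / 1000
  | .twoE => 125 / 1000
  | .three => 12 / 100
  | .threeE => 10 / 100
  | .ring => 10 / 100

noncomputable def fcp : Cl → ℝ
  | .one => 36 / 100
  | .two => 30 / 100
  | .twoE => 30 / 100
  | .three => 30 / 100
  | .threeE => 26 / 100
  | .ring => 27 / 100

theorem fcl_pos (C : Cl) : 1 / 10 ≤ fcl C := by cases C <;> norm_num [fcl]
theorem fcp_lt (C : Cl) : fcp C ≤ 36 / 100 := by cases C <;> norm_num [fcp]

/-- window of the saddle point by the class of the neighbour; `e`: equal signs -/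
noncomputable def wCl (C : Cl) (e : Bool) (s0 s1 r1 : ℝ) : RC.RWp :=
  match C, e with
  | .one, _ => RC.wOne s0 s1 0 r1
  | .two, _ => RC.wTwo s0 s1 0 r1
  | .twoE, _ => RC.wTwoE s0 s1 0 r1
  | .three, _ => RC.wThree s0 s1 0 r1
  | .threeE, _ => RC.wThreeE s0 s1 0 r1
  | .ring, false => RC.wRr s0 s1 0 r1
  | .ring, true => RC.wRs s0 s1 0 r1

/-- **The rows of the ramp part, at least five crossings.** -/
structure Rows5 : Prop where
  i7 : ∀ n : ℝ, 7 ≤ n → ∀ C e, RC.RowI (wCl C e 0 (155 / 1000) (40 / 1000)) n (1 / 2) (1 / 50) 0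
    (fcl C) (fcp C)
  e7 : ∀ n : ℝ, 7 ≤ n → ∀ C e, RC.RowE (wCl C e 0 (155 / 1000) (22 / 1000)) n (fcl C) (fcp C)
  i6 : ∀ C e, RC.RowI (wCl C e (109 / 1000) (168 / 1000) (52 / 1000)) 6 (6 / 10) (3 / 100) (4 / 10)
    (fcl C) (fcp C)
  e6 : ∀ C e, RC.RowE (wCl C e (136 / 1000) (174 / 1000) (30 / 1000)) 6 (fcl C) (fcp C)
  i5o : RC.RowI (RC.wOne5 0 (725 / 10000)) 5 (6 / 10) (15 / 100) (75 / 100) (16 / 100) (36 / 100)
  i5 : ∀ C e, C ≠ .one → RC.RowI (wCl C e (127 / 1000) (194 / 1000) (725 / 10000)) 5 (6 / 10)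
    (15 / 100) (75 / 100) (fcl C) (fcp C)
  e5o : RC.RowE (RC.wOne5e 0 (43 / 1000)) 5 (16 / 100) (36 / 100)
  e5 : ∀ C e, C ≠ .one → RC.RowE (wCl C e (158 / 1000) (206 / 1000) (43 / 1000)) 5 (fcl C) (fcp C)

/-- the mixture and the line of an interior ring with `n` crossings; `s`: minus the real part of the
ring variable -/
noncomputable def rlam (n : ℕ) : ℝ := if n = 4 then 65 / 100 else if n ≤ 6 then 6 / 10 else 1 / 2
noncomputable def ralp (n : ℕ) (s : ℝ) : ℝ :=
  if n = 4 then (if s ≤ 213 / 1000 then 14 / 100 else 8 / 100)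
  else if n = 5 then 15 / 100 else if n = 6 then 3 / 100 else 1 / 50
noncomputable def rbet (n : ℕ) (s : ℝ) : ℝ :=
  if n = 4 then (if s ≤ 1 / 5 then 1 else 11 / 10)
  else if n = 5 then 75 / 100 else if n = 6 then 4 / 10 else 0

theorem ralp_pos (n : ℕ) (s : ℝ) : 0 < ralp n s := by unfold ralp; split_ifs <;> norm_num
theorem rbet_nonneg (n : ℕ) (s : ℝ) : 0 ≤ rbet n s := by unfold rbet; split_ifs <;> norm_num

variable {M : ℕ} {b : Fin (M + 1) → ℤ} {zs : DD (tyW b) ⊕ ZZ (tyW b) → ℂ}
variable {y : DD (tyW b) ⊕ ZZ (tyW b) → ℝ}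
variable {h h' : Fin M} {i j j' : Fin (M + 1)} {p : Fin 3} {v : ZZ (tyW b)}

/-- real part of the ring variable -/
theorem ring_box (hL : Loc b zs) (v : ZZ (tyW b)) :
    (zbox (b v.1).natAbs (isEnd v.1)).x0 ≤ ofs (b v.1) (zs (.inr v)).re ∧
    ofs (b v.1) (zs (.inr v)).re ≤ (zbox (b v.1).natAbs (isEnd v.1)).x1 ∧
    0 < (zs (.inr v)).im ∧ (zs (.inr v)).im ≤ (zbox (b v.1).natAbs (isEnd v.1)).t1 := by
  obtain ⟨h1, h2, -, h4⟩ := hL.ring v
  rw [ofz_re] at h1 h2
  rw [ofz_im] at h4
  exact ⟨h1, h2, hL.rpos v, h4⟩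

theorem Adj.real_re (_ : Adj h i p j) : (ofr (b i) (zs (.inl (.inl h)))).re =
    (zs (.inl (.inl h))).re := by
  rw [ofr_re]

/-- **The saddle point is in the window of its class.** -/
theorem Adj.in_wCl (A : Adj h i p j) (hb : ClassW b) (hL : Loc b zs) (hX : LocX b zs)
    (hR : LocR b zs) (hG : LocRg b zs) (hc : clsW b i = .ring) (hv : v.1 = i)
    (h5 : 5 ≤ (b i).natAbs) {s0 s1 r1 : ℝ} (a0 : s0 ≤ -ofs (b i) (zs (.inr v)).re)
    (a1 : -ofs (b i) (zs (.inr v)).re ≤ s1) (a2 : (zs (.inr v)).im ≤ r1) (a3 : s1 ≤ 3 / 10)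
    (a4 : r1 ≤ 1 / 10) :
    (wCl (clsW b j) (ssW b h) s0 s1 r1).In (zs (.inl (.inl h))).re
      (-ofs (b i) (zs (.inr v)).re) (ofs (b i) (zs (.inl (.inl h))).im) (zs (.inr v)).im := by
  have hpos := hL.rpos v
  obtain ⟨x0, x1, t0, t1⟩ := A.box hb hL
  rw [hc] at x0 x1 t0 t1
  by_cases hj : clsW b j = .ring
  · -- ring
    have W := hG.three v hv A hc (Or.inr (Or.inr hj))
    have Ws := W.s
    have Wq := W.q
    have Wqs := W.qs
    have Wc := W.c
    simp only [ofr_re, ofr_im, ofz_re, ofz_im] at Ws Wq Wqs Wc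
    have hT := (hR.rr A hc hj).2 h5
    rw [hj] at x0 x1 t0 t1 ⊢
    generalize ssW b h = e at *
    cases e
    · simp only [hbox] at x0 x1 t0 t1
      unfold wCl RC.wRr
      constructor <;> (try simp only) <;> linarith only [x0, x1, t0, t1, a0, a1, hpos, a2, Wc, a4, hT, Wq, Wqs]
    · simp only [hbox] at x0 x1 t0 t1
      unfold wCl RC.wRs
      constructor <;> (try simp only) <;> linarith only [x0, x1, t0, hT, a0, a1, hpos, a2, Wc, a4, Wqs]
  · have hop := A.opp hb (Or.inr hj)
    have hop' : b j * b i < 0 := by rwa [mul_comm] at hop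
    have eo := ofs_opp hop' (zs (.inl (.inl h))).im
    rw [A.ss hop] at x0 x1 t0 t1
    have e : ssW b h = false := A.ss hop
    rw [e]
    generalize hC : clsW b j = C at *
    cases C
    · simp only [hbox] at x0 x1 t0 t1
      unfold wCl RC.wOne
      constructor <;> (try simp only) <;> linarith only [x0, x1, t0, t1, a0, a1, hpos, a2, a3, a4]
    · have W := hG.two v hv A hc hC
      have Ws := W.s
      have Wq := W.q
      have Wqs := W.qs
      have Wc := W.c
      simp only [ofr_re, ofr_im, ofz_re, ofz_im] at Ws Wq Wqs Wc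
      simp only [hbox] at x0 x1 t0 t1
      unfold wCl RC.wTwo
      constructor <;> (try simp only) <;> linarith only [x0, x1, t0, t1, a0, a1, hpos, a2, Wc, a3, a4, Wq, Wqs]
    · have W := hG.twoE5 v hv A h5 hC
      have Ws := W.s
      have Wq := W.q
      have Wqs := W.qs
      have Wc := W.c
      simp only [ofr_re, ofr_im, ofz_re, ofz_im] at Ws Wq Wqs Wc
      simp only [hbox] at x0 x1 t0 t1
      unfold wCl RC.wTwoE
      constructor <;> (try simp only) <;> linarith only [x0, x1, t0, t1, a0, a1, hpos, a2, Wc, Wq, Wqs]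
    · have W := hG.three v hv A hc (Or.inl hC)
      have Ws := W.s
      have Wq := W.q
      have Wqs := W.qs
      have Wc := W.c
      simp only [ofr_re, ofr_im, ofz_re, ofz_im] at Ws Wq Wqs Wc
      simp only [hbox] at x0 x1 t0 t1
      have h3 := hX.three A.symm hC hc
      unfold wCl RC.wThree
      constructor <;> (try simp only) <;> linarith only [x0, x1, t0, eo, h3, a0, a1, hpos, a2, Wc, a3, a4, t1, Wq, Wqs]
    · have W := hG.three v hv A hc (Or.inr (Or.inl hC))
      have Ws := W.s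
      have Wq := W.q
      have Wqs := W.qs
      have Wc := W.c
      simp only [ofr_re, ofr_im, ofz_re, ofz_im] at Ws Wq Wqs Wc
      simp only [hbox] at x0 x1 t0 t1
      unfold wCl RC.wThreeE
      constructor <;> (try simp only) <;> linarith only [x0, x1, t0, t1, a0, a1, hpos, a2, Ws, Wqs, a3, a4, Wq]
    · exact absurd rfl hj

/-- window of a digit `1`, five crossings -/
theorem Adj.in_one5 (A : Adj h i p j) (hb : ClassW b) (hL : Loc b zs) (hX : LocX b zs)
    (hG : LocRg b zs) (hc : clsW b i = .ring) (hv : v.1 = i) (hj : clsW b j = .one)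
    (h5 : (b i).natAbs = 5) (he : isEnd i = false) :
    (RC.wOne5 0 (725 / 10000)).In (zs (.inl (.inl h))).re (-ofs (b i) (zs (.inr v)).re)
      (ofs (b i) (zs (.inl (.inl h))).im) (zs (.inr v)).im := by
  obtain ⟨h', j', A'⟩ := A.symm.other_one hb hj
  obtain ⟨W, hW, hI⟩ := hG.one v hv A.symm A' hj (Or.inr h5)
  have hop : b j * b i < 0 := by
    have := A.opp hb (Or.inr (by rw [hj]; decide))
    rwa [mul_comm] at this
  have eo := ofs_opp hop (zs (.inl (.inl h))).im
  have hT := hX.one5 A.symm hj hc h5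
  obtain ⟨b0, b1, hpos, b2⟩ := ring_box hL v
  rw [hv, h5, he] at b0 b1 b2
  obtain ⟨-, -, -, t1⟩ := A.box hb hL
  rw [hc, hj] at t1
  simp only [hbox] at t1
  norm_num [zbox] at b0 b1 b2
  rw [h5, he] at hW
  have i0 := hI.x0
  have i1 := hI.x1
  have i2 := hI.s0
  have i3 := hI.s1
  have i4 := hI.q0
  have i5 := hI.q1
  have i6 := hI.c
  simp only [ofr_re, ofr_im, ofz_re, ofz_im] at i0 i1 i2 i3 i4 i5 i6
  generalize clsW b j' = P at hW
  cases P <;> simp only [rw1, List.mem_cons, List.not_mem_nil, or_false] at hW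
  · rcases hW with rfl | rfl | rfl | rfl | rfl <;> norm_num at i0 i1 i2 i3 i4 i5 i6 <;>
      (unfold RC.wOne5; constructor <;> (try simp only) <;> linarith only [hpos, b2, i0, i1, eo, hT, t1, b1, i3, i4, i5])
  · rcases hW with rfl | rfl <;> norm_num at i0 i1 i2 i3 i4 i5 i6 <;>
      (unfold RC.wOne5; constructor <;> (try simp only) <;> linarith only [hpos, b2, i0, i1, eo, hT, t1, b1, i3, i6, i4, i5])
  · subst hW
    norm_num at i0 i1 i2 i3 i4 i5 i6
    unfold RC.wOne5
    constructor <;> (try simp only) <;> linarith only [hpos, b2, i0, i1, eo, hT, t1, b1, i3, i4, i5]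

/-- the same for a ring at an end -/
theorem Adj.in_one5e (A : Adj h i p j) (hb : ClassW b) (hL : Loc b zs) (hX : LocX b zs)
    (hG : LocRg b zs) (hc : clsW b i = .ring) (hv : v.1 = i) (hj : clsW b j = .one)
    (h5 : (b i).natAbs = 5) (he : isEnd i = true) :
    (RC.wOne5e 0 (43 / 1000)).In (zs (.inl (.inl h))).re (-ofs (b i) (zs (.inr v)).re)
      (ofs (b i) (zs (.inl (.inl h))).im) (zs (.inr v)).im := by
  obtain ⟨h', j', A'⟩ := A.symm.other_one hb hj
  obtain ⟨W, hW, hI⟩ := hG.one v hv A.symm A' hj (Or.inr h5)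
  have hop : b j * b i < 0 := by
    have := A.opp hb (Or.inr (by rw [hj]; decide))
    rwa [mul_comm] at this
  have eo := ofs_opp hop (zs (.inl (.inl h))).im
  have hT := hX.one5 A.symm hj hc h5
  obtain ⟨b0, b1, hpos, b2⟩ := ring_box hL v
  rw [hv, h5, he] at b0 b1 b2
  obtain ⟨-, -, -, t1⟩ := A.box hb hL
  rw [hc, hj] at t1
  simp only [hbox] at t1
  norm_num [zbox] at b0 b1 b2
  rw [h5, he] at hW
  have i0 := hI.x0
  have i1 := hI.x1
  have i2 := hI.s0
  have i3 := hI.s1
  have i4 := hI.q0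
  have i5 := hI.q1
  have i6 := hI.c
  simp only [ofr_re, ofr_im, ofz_re, ofz_im] at i0 i1 i2 i3 i4 i5 i6
  generalize clsW b j' = P at hW
  cases P <;> simp only [rw1, List.mem_cons, List.not_mem_nil, or_false] at hW
  · rcases hW with rfl | rfl | rfl <;> norm_num at i0 i1 i2 i3 i4 i5 i6 <;>
      (unfold RC.wOne5e; constructor <;> (try simp only) <;> linarith only [hpos, b2, i0, i1, i5, t1, b1, i3, i4])
  · rcases hW with rfl | rfl <;> norm_num at i0 i1 i2 i3 i4 i5 i6 <;>
      (unfold RC.wOne5e; constructor <;> (try simp only) <;> linarith only [hpos, b2, i0, i1, i5, t1, b1, i3, i6, i4])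
  · subst hW
    norm_num at i0 i1 i2 i3 i4 i5 i6
    unfold RC.wOne5e
    constructor <;> (try simp only) <;> linarith only [hpos, b2, i0, i1, eo, hT, t1, b1, i3, i4, i5]

/-! ### the ramp part, at least five crossings -/

theorem sub_neg_half (t : ℝ) : 1 / 2 - -t = 1 / 2 + t := by ring

theorem Adj.rampI5 (A : Adj h i p j) (R5 : Rows5) (hb : ClassW b) (hL : Loc b zs)
    (hX : LocX b zs) (hR : LocR b zs) (hG : LocRg b zs) (hc : clsW b i = .ring) (hv : v.1 = i)
    (h5 : 5 ≤ (b i).natAbs) (he : isEnd i = false) :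
    RC.RampOK (rlam (b i).natAbs) (ralp (b i).natAbs (-ofs (b i) (zs (.inr v)).re))
      (rbet (b i).natAbs (-ofs (b i) (zs (.inr v)).re)) ((b i).natAbs : ℝ)
      (zs (.inl (.inl h))).re (1 / 2 + ofs (b i) (zs (.inr v)).re)
      (ofs (b i) (zs (.inl (.inl h))).im) (zs (.inr v)).im (fcl (clsW b j)) (fcp (clsW b j)) := by
  obtain ⟨b0, b1, hpos, b2⟩ := ring_box hL v
  rw [hv, he] at b0 b1 b2
  rw [← sub_neg_half]
  rcases (show (b i).natAbs = 5 ∨ (b i).natAbs = 6 ∨ 7 ≤ (b i).natAbs by omega) with h6 | h6 | h6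
  · have e1 : rlam 5 = 6 / 10 := by norm_num [rlam]
    have e2 : ∀ s, ralp 5 s = 15 / 100 := fun s => by norm_num [ralp]
    have e3 : ∀ s, rbet 5 s = 75 / 100 := fun s => by norm_num [rbet]
    rw [h6] at b0 b1 b2
    norm_num [zbox] at b0 b1 b2
    by_cases hj : clsW b j = .one
    · have hI := A.in_one5 hb hL hX hG hc hv hj h6 he
      have := R5.i5o _ _ _ _ hI
      rw [h6, e1, e2, e3, hj]
      push_cast
      exact this
    · have hI := A.in_wCl hb hL hX hR hG hc hv h5 (s0 := 127 / 1000) (s1 := 194 / 1000)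
        (r1 := 725 / 10000) (by linarith only [b1]) (by linarith only [b0]) (by linarith only [b2]) (by norm_num) (by norm_num)
      have := R5.i5 _ _ hj _ _ _ _ hI
      rw [h6, e1, e2, e3]
      push_cast
      exact this
  · have e1 : rlam 6 = 6 / 10 := by norm_num [rlam]
    have e2 : ∀ s, ralp 6 s = 3 / 100 := fun s => by norm_num [ralp]
    have e3 : ∀ s, rbet 6 s = 4 / 10 := fun s => by norm_num [rbet]
    rw [h6] at b0 b1 b2
    norm_num [zbox] at b0 b1 b2
    have hI := A.in_wCl hb hL hX hR hG hc hv h5 (s0 := 109 / 1000) (s1 := 168 / 1000)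
      (r1 := 52 / 1000) (by linarith only [b1]) (by linarith only [b0]) (by linarith only [b2]) (by norm_num) (by norm_num)
    have := R5.i6 _ _ _ _ _ _ hI
    rw [h6, e1, e2, e3]
    push_cast
    exact this
  · have e1 : rlam (b i).natAbs = 1 / 2 := by
      unfold rlam
      rw [if_neg (by omega), if_neg (by omega)]
    have e2 : ∀ s, ralp (b i).natAbs s = 1 / 50 := by
      intro s
      unfold ralp
      rw [if_neg (by omega), if_neg (by omega), if_neg (by omega)]
    have e3 : ∀ s, rbet (b i).natAbs s = 0 := by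
      intro s
      unfold rbet
      rw [if_neg (by omega), if_neg (by omega), if_neg (by omega)]
    have h7 : (7 : ℝ) ≤ ((b i).natAbs : ℝ) := by exact_mod_cast h6
    have b3 : ofs (b i) (zs (.inr v)).re ≤ 0 ∧ -(155 / 1000) ≤ ofs (b i) (zs (.inr v)).re := by
      constructor
      · refine b1.trans ?_
        unfold zbox
        split_ifs <;> norm_num
      · refine le_trans ?_ b0
        unfold zbox
        rw [if_neg (by omega), if_neg (by omega), if_neg (by omega)]
        split_ifs <;> norm_num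
    have b4 := (ring_cap hb hL v).2.2.2.1 (by rw [hv]; exact h7)
    have hI := A.in_wCl hb hL hX hR hG hc hv h5 (s0 := 0) (s1 := 155 / 1000)
      (r1 := 40 / 1000) (by linarith only [b3]) (by linarith only [b3]) (by linarith only [b4]) (by norm_num) (by norm_num)
    have := R5.i7 _ h7 _ _ _ _ _ _ hI
    rw [e1, e2, e3]
    exact this

theorem Adj.rampE5 (A : Adj h i p j) (R5 : Rows5) (hb : ClassW b) (hL : Loc b zs)
    (hC : Crit b zs) (hX : LocX b zs) (hR : LocR b zs) (hG : LocRg b zs)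
    (hc : clsW b i = .ring) (hv : v.1 = i)
    (h5 : 5 ≤ (b i).natAbs) (he : isEnd i = true) :
    RC.RampOK1 ((b i).natAbs : ℝ)
      (zs (.inl (.inl h))).re (1 / 2 + ofs (b i) (zs (.inr v)).re)
      (ofs (b i) (zs (.inl (.inl h))).im) (zs (.inr v)).im (fcl (clsW b j)) (fcp (clsW b j)) := by
  obtain ⟨b0, b1, hpos, b2⟩ := ring_box hL v
  rw [hv, he] at b0 b1 b2
  have hD := A.ring_crit1 he hC hv
  rw [← sub_neg_half] at hD ⊢
  rcases (show (b i).natAbs = 5 ∨ (b i).natAbs = 6 ∨ 7 ≤ (b i).natAbs by omega) with h6 | h6 | h6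
  · rw [h6] at b0 b1 b2 hD
    push_cast at hD
    norm_num [zbox] at b0 b1 b2
    by_cases hj : clsW b j = .one
    · have hI := A.in_one5e hb hL hX hG hc hv hj h6 he
      have := R5.e5o _ _ _ _ hI hD
      rw [h6, hj]
      push_cast
      exact this
    · have hI := A.in_wCl hb hL hX hR hG hc hv h5 (s0 := 158 / 1000) (s1 := 206 / 1000)
        (r1 := 43 / 1000) (by linarith only [b1]) (by linarith only [b0]) (by linarith only [b2]) (by norm_num) (by norm_num)
      have := R5.e5 _ _ hj _ _ _ _ hI hD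
      rw [h6]
      push_cast
      exact this
  · rw [h6] at b0 b1 b2 hD
    push_cast at hD
    norm_num [zbox] at b0 b1 b2
    have hI := A.in_wCl hb hL hX hR hG hc hv h5 (s0 := 136 / 1000) (s1 := 174 / 1000)
      (r1 := 30 / 1000) (by linarith only [b1]) (by linarith only [b0]) (by linarith only [b2]) (by norm_num) (by norm_num)
    have := R5.e6 _ _ _ _ _ _ hI hD
    rw [h6]
    push_cast
    exact this
  · have h7 : (7 : ℝ) ≤ ((b i).natAbs : ℝ) := by exact_mod_cast h6
    have b3 : ofs (b i) (zs (.inr v)).re ≤ 0 ∧ -(155 / 1000) ≤ ofs (b i) (zs (.inr v)).re ∧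
        (zs (.inr v)).im ≤ 22 / 1000 := by
      refine ⟨?_, ?_, ?_⟩
      · refine b1.trans ?_
        unfold zbox
        split_ifs <;> norm_num
      · refine le_trans ?_ b0
        unfold zbox
        rw [if_neg (by omega), if_neg (by omega), if_neg (by omega)]
        split_ifs <;> norm_num
      · refine b2.trans ?_
        unfold zbox
        rw [if_neg (by omega), if_neg (by omega), if_neg (by omega)]
        by_cases h8 : (b i).natAbs = 7
        · rw [if_pos h8]
          norm_num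
        · rw [if_neg h8]
          have h9 : (8 : ℝ) ≤ ((b i).natAbs : ℝ) := by exact_mod_cast (show 8 ≤ (b i).natAbs by omega)
          simp only [if_true]
          rw [div_le_iff₀ (by positivity)]
          nlinarith only [h9, h7]
    have hI := A.in_wCl hb hL hX hR hG hc hv h5 (s0 := 0) (s1 := 155 / 1000)
      (r1 := 22 / 1000) (by linarith only [b3]) (by linarith only [b3]) (by linarith only [b3]) (by norm_num) (by norm_num)
    exact R5.e7 _ h7 _ _ _ _ _ _ hI hD

end SR

end Pool.Agent.Work.MP_b30479_gt.G2
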