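import Pool.Agent.Work.MP_b30479_gt.G2.RH2R
import Pool.Agent.Work.MP_b30479_gt.G2.RLvl3
import Pool.Agent.Work.MP_b30479_gt.G2.RWd

/-!
# The data of the hinges without exceptions
-/

namespace Pool.Agent.Work.MP_b30479_gt.G2

open Real Set VOL Finset Filter Topology

namespace RC

open Row

section
variable {xs ys T ρ cl cp : ℝ}

/-- next to a ring or a digit `3` -/
theorem hd3 (g : GD xs ys cl cp) (hcl : 1 / 10 ≤ cl) (_ : cp ≤ 3 / 10) (x0 : 170 / 1000 ≤ xs)
    (x1 : xs ≤ 252 / 1000) (s1 : 1 / 2 - ys ≤ 2445 / 10000)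
    (c1 : xs + (1 / 2 - ys) ≤ 4465 / 10000) (_ : |T| ≤ 60 / 1000) (_ : |T + ρ| ≤ 1645 / 10000)
    (hq : |T - ρ| ≤ 1200 / 10000) (hq' : |T - ρ| ≤ 5900 / 10000 - 22 / 10 * (1 / 2 - ys)) :
    HD xs ys T ρ cl cp := by
  have y2 := g.y2
  have hf : H2 xs ys T ρ := H2_of cH3 g.xi g.yi (by norm_num; linarith only [x0]) (by norm_num; linarith only [x1])
    (by norm_num; linarith only [y2]) (by norm_num; linarith only [s1]) (by norm_num; linarith only [c1]) (by norm_num; linarith only [hq])
    (by norm_num; linarith only [hq'])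
  have hc0 := ta_lo g.cli (by norm_num) hcl t10_gt
  exact ⟨g, hf, by linarith only [hc0], shq200 (hq.trans (by norm_num))⟩

/-- next to a digit `2` inside -/
theorem hd2 (g : GD xs ys cl cp) (hcl : 1 / 8 ≤ cl) (_ : cp ≤ 3 / 10) (x0 : 186 / 1000 ≤ xs)
    (x1 : xs ≤ 252 / 1000) (s1 : 1 / 2 - ys ≤ 2225 / 10000)
    (c1 : xs + (1 / 2 - ys) ≤ 4495 / 10000) (hT : T ≤ 0) (_ : -(131 / 1000) ≤ T) (hρ : 0 ≤ ρ)
    (_ : T + ρ ≤ 131 / 1000) (hq : ρ - T ≤ 1400 / 10000)
    (hq' : ρ - T ≤ 3980 / 10000 - 13 / 10 * (1 / 2 - ys)) :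
    HD xs ys T ρ cl cp := by
  have y2 := g.y2
  have ea : |T - ρ| = ρ - T := by rw [abs_of_nonpos (by linarith only [hT, hρ])]; ring
  have hf : H2 xs ys T ρ := H2_of cH2 g.xi g.yi (by norm_num; linarith only [x0]) (by norm_num; linarith only [x1])
    (by norm_num; linarith only [y2]) (by norm_num; linarith only [s1]) (by norm_num; linarith only [c1])
    (by rw [ea]; norm_num; linarith only [hq]) (by rw [ea]; norm_num; linarith only [hq'])
  have hc0 := ta_lo g.cli (by norm_num) hcl t125_gt
  exact ⟨g, hf, by linarith only [hc0], shq200 (by rw [ea]; linarith)⟩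

/-- next to a digit `2` at the end -/
theorem hd2e (g : GD xs ys cl cp) (hcl : 1 / 8 ≤ cl) (_ : cp ≤ 3 / 10) (x0 : 164 / 1000 ≤ xs)
    (x1 : xs ≤ 186 / 1000) (s1 : 1 / 2 - ys ≤ 1885 / 10000)
    (c1 : xs + (1 / 2 - ys) ≤ 3740 / 10000) (hT : T ≤ 0) (_ : -(131 / 1000) ≤ T) (hρ : 0 ≤ ρ)
    (_ : T + ρ ≤ 131 / 1000) (hq : ρ - T ≤ 1680 / 10000)
    (hq' : ρ - T ≤ 3520 / 10000 - 105 / 100 * (1 / 2 - ys)) :
    HD xs ys T ρ cl cp := by
  have y2 := g.y2
  have ea : |T - ρ| = ρ - T := by rw [abs_of_nonpos (by linarith only [hT, hρ])]; ring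
  have hf : H2 xs ys T ρ := H2_of cH2e g.xi g.yi (by norm_num; linarith only [x0]) (by norm_num; linarith only [x1])
    (by norm_num; linarith only [y2]) (by norm_num; linarith only [s1]) (by norm_num; linarith only [c1])
    (by rw [ea]; norm_num; linarith only [hq]) (by rw [ea]; norm_num; linarith only [hq'])
  have hc0 := ta_lo g.cli (by norm_num) hcl t125_gt
  exact ⟨g, hf, by linarith only [hc0], shq200 (by rw [ea]; linarith)⟩

end

end RC

namespace SR

variable {M : ℕ} {b : Fin (M + 1) → ℤ} {zs : DD (tyW b) ⊕ ZZ (tyW b) → ℂ}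
variable {y : DD (tyW b) ⊕ ZZ (tyW b) → ℝ}
variable {h h' : Fin M} {i j j' : Fin (M + 1)} {p : Fin 3} {v : ZZ (tyW b)}

/-- **Data of the hinges `ring | ring`, `ring | 3`, `ring | 2`, `ring | 2` at an end.** -/
theorem Adj.hd_lo (A : Adj h i p j) (hb : ClassW b) (hL : Loc b zs)
    (hR : LocR b zs) (hG : LocRg b zs) (hc : clsW b i = .ring) (hv : v.1 = i)
    (hj : clsW b j ≠ .one) (hE : clsW b j = .twoE → 5 ≤ (b i).natAbs)
    (hρ : (b i).natAbs = 4 → 4 / 1000 ≤ (zs (.inr v)).im) :
    RC.HD (zs (.inl (.inl h))).re (1 / 2 + ofs (b i) (zs (.inr v)).re)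
      (ofs (b i) (zs (.inl (.inl h))).im) (zs (.inr v)).im (fcl (clsW b j)) (fcp (clsW b j)) := by
  have h4 := ring_four hb (tyW_of_ring hb hc)
  obtain ⟨b0, b1, hpos, b2⟩ := ring_box hL v
  have s0 : ofs (b i) (zs (.inr v)).re ≤ 0 := by
    rw [hv] at b1
    refine b1.trans ?_
    unfold zbox
    split_ifs <;> norm_num
  have rr := (ring_cap hb hL v).1
  obtain ⟨x0, x1, t0, t1⟩ := A.box hb hL
  rw [hc] at x0 x1 t0 t1
  by_cases hj2 : clsW b j = .ring
  · -- ring
    have W := hG.three v hv A hc (Or.inr (Or.inr hj2))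
    have Ws := W.s
    have Wq := W.q
    have Wqs := W.qs
    have Wc := W.c
    simp only [ofr_re, ofr_im, ofz_re, ofz_im] at Ws Wq Wqs Wc
    obtain ⟨T4, T5⟩ := hR.rr A hc hj2
    have hTr : ofs (b i) (zs (.inl (.inl h))).im - (zs (.inr v)).im ≤ 52 / 1000 := by
      rcases h4.eq_or_lt with h5 | h5
      · have := hρ h5.symm
        linarith only [T4, this]
      · have := T5 h5
        linarith only [hpos, T4, this]
    have hlo : -(385 / 10000) ≤ ofs (b i) (zs (.inl (.inl h))).im := by
      refine le_trans ?_ t0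
      rw [hj2]
      generalize ssW b h = e
      cases e <;> simp only [hbox] <;> norm_num
    have hx0 : 170 / 1000 ≤ (zs (.inl (.inl h))).re := by
      refine le_trans ?_ x0
      rw [hj2]
      generalize ssW b h = e
      cases e <;> simp only [hbox] <;> norm_num
    have hx1 : (zs (.inl (.inl h))).re ≤ 252 / 1000 := by
      refine x1.trans ?_
      rw [hj2]
      generalize ssW b h = e
      cases e <;> simp only [hbox] <;> norm_num
    rw [hj2]
    simp only [fcl, fcp]
    refine RC.hd3 ⟨by norm_num, by norm_num, by linarith only [hpos, rr, hx0], by linarith only [hpos, rr, hx1], by linarith only [hpos, rr, Wc], by linarith only [hpos, rr, Ws],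
      by linarith only [s0]⟩ (by norm_num) (by norm_num) hx0 hx1 (by linarith only [Ws]) (by linarith only [Wc])
      (abs_le.2 ⟨by linarith only [hpos, Wq, hlo], by linarith only [hpos, rr, T4]⟩) (abs_le.2 ⟨by linarith only [hpos, rr, Wq], by linarith only [hpos, rr, T4]⟩)
      (abs_le.2 ⟨by linarith only [Wq], by linarith only [hpos, rr, T4]⟩) (abs_le.2 ⟨by linarith only [Wqs], by linarith only [hpos, Ws, T4, hTr]⟩)
  · have hop := A.opp hb (Or.inr hj2)
    rw [A.ss hop] at x0 x1 t0 t1
    generalize hC : clsW b j = C at *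
    cases C
    · exact absurd rfl hj
    · have W := hG.two v hv A hc hC
      have Ws := W.s
      have Wq := W.q
      have Wqs := W.qs
      have Wc := W.c
      simp only [ofr_re, ofr_im, ofz_re, ofz_im] at Ws Wq Wqs Wc
      simp only [hbox] at x0 x1 t0 t1
      simp only [fcl, fcp]
      exact RC.hd2 ⟨by norm_num, by norm_num, by linarith only [x0], by linarith only [x1], by linarith only [x1, Ws], by linarith only [Ws],
        by linarith only [s0]⟩ (by norm_num) (by norm_num) x0 x1 (by linarith only [Ws]) (by linarith only [Wc]) (by linarith only [hpos, rr, t1])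
        (by linarith only [hpos, t0, Wq]) hpos.le (by linarith only [hpos, rr, t1]) (by linarith only [Wq]) (by linarith only [Wqs])
    · have W := hG.twoE5 v hv A (hE rfl) hC
      have Ws := W.s
      have Wq := W.q
      have Wqs := W.qs
      have Wc := W.c
      have Wk := W.kap
      simp only [ofr_re, ofr_im, ofz_re, ofz_im] at Ws Wq Wqs Wc Wk
      simp only [hbox] at x0 x1 t0 t1
      simp only [fcl, fcp]
      exact RC.hd2e ⟨by norm_num, by norm_num, by linarith only [x0], by linarith only [x1], by linarith only [x1, Ws], by linarith only [Ws],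
        by linarith only [s0]⟩ (by norm_num) (by norm_num) x0 x1 (by linarith only [Ws]) (by linarith only [Wc]) (by linarith only [hpos, rr, t1])
        (by linarith only [t0]) hpos.le (by linarith only [hpos, rr, t1]) (by linarith only [Wq]) (by linarith only [Wqs])
    · have W := hG.three v hv A hc (Or.inl hC)
      have Ws := W.s
      have Wq := W.q
      have Wqs := W.qs
      have Wc := W.c
      simp only [ofr_re, ofr_im, ofz_re, ofz_im] at Ws Wq Wqs Wc
      simp only [hbox] at x0 x1 t0 t1
      simp only [fcl, fcp]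
      exact RC.hd3 ⟨by norm_num, by norm_num, by linarith only [x0], by linarith only [x1], by linarith only [x1, Ws], by linarith only [Ws],
        by linarith only [s0]⟩ (by norm_num) (by norm_num) (by linarith only [x0]) (by linarith only [x1]) (by linarith only [Ws])
        (by linarith only [Wc])
        (abs_le.2 ⟨by linarith only [hpos, t0, Wq], by linarith only [hpos, rr, t1]⟩) (abs_le.2 ⟨by linarith only [hpos, Wq], by linarith only [hpos, rr, t1]⟩)
        (abs_le.2 ⟨by linarith only [Wq], by linarith only [hpos, rr, t1]⟩) (abs_le.2 ⟨by linarith only [Wqs], by linarith only [hpos, rr, t1, Ws]⟩)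
    · have W := hG.three v hv A hc (Or.inr (Or.inl hC))
      have Ws := W.s
      have Wq := W.q
      have Wqs := W.qs
      have Wc := W.c
      simp only [ofr_re, ofr_im, ofz_re, ofz_im] at Ws Wq Wqs Wc
      simp only [hbox] at x0 x1 t0 t1
      simp only [fcl, fcp]
      exact RC.hd3 ⟨by norm_num, by norm_num, by linarith only [x0], by linarith only [x1], by linarith only [x1, Ws], by linarith only [Ws],
        by linarith only [s0]⟩ (by norm_num) (by norm_num) (by linarith only [x0]) (by linarith only [x1]) (by linarith only [Ws])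
        (by linarith only [x1, Ws])
        (abs_le.2 ⟨by linarith only [hpos, t0, Wq], by linarith only [hpos, rr, t1]⟩) (abs_le.2 ⟨by linarith only [hpos, Wq], by linarith only [hpos, rr, t1]⟩)
        (abs_le.2 ⟨by linarith only [Wq], by linarith only [hpos, rr, t1]⟩) (abs_le.2 ⟨by linarith only [Wqs], by linarith only [hpos, rr, t1, Ws]⟩)
    · exact absurd rfl hj2

end SR

end Pool.Agent.Work.MP_b30479_gt.G2
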