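import Pool.Agent.Work.MP_b30479_gt.G2.RLvl5

/-!
# Rings on the level part: entries of the tables without rows for the hinge above

`Kap`: the side of a hinge with small height, given the contribution; `Wd.In.dk`: the entry.
-/

namespace Pool.Agent.Work.MP_b30479_gt.G2

open Real Set VOL Filter Topology

namespace RC

open Row R6

/-- the side decreases, up to the change of the contribution -/
def Kap (xs ys T ρ cp : ℝ) : Prop := ∀ x y, xs < x → x ≤ cp → 1 / 4 ≤ y → y < ys → Nz x y T ρ →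
  Sx x y T ρ + 122 / 100 * (gh x - gh xs) ≤ Sx xs ys T ρ + (Dx x y T ρ - Dx xs ys T ρ)

theorem t27_lt : ta (27 / 100) < 454 / 1000 := by
  have := ta_ltq (n := 27) (d := 100) (m := 454) (e := 1000) (by decide +kernel) (by norm_num)
  norm_num at this ⊢
  exact this

theorem log_55 : Real.log (172 / 100) < 55 / 100 := by
  rw [Real.log_lt_iff_lt_exp (by norm_num)]
  have h := Real.sum_le_exp_of_nonneg (x := (55 / 100 : ℝ)) (by norm_num) 4
  refine lt_of_lt_of_le ?_ h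
  norm_num [Finset.sum_range_succ, Nat.factorial]

section
variable {xs ys T ρ cl cp x y : ℝ} {f g : ℝ → ℝ} {tab : List Te} {W : Wd}

theorem gh_sub_lt (hx : x ∈ Ioo (0 : ℝ) 1) (hxs : xs ∈ Ioo (0 : ℝ) 1) (h0 : 17 / 100 ≤ xs)
    (h1 : x ≤ 27 / 100) : gh x - gh xs < 55 / 100 := by
  have a1 := ta_hi hx (by constructor <;> norm_num) h1 t27_lt
  have a2 := ta_lo hxs (m := 170 / 1000) (by constructor <;> norm_num) (by linarith) t170_gt
  have a3 := ta_pos hx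
  have a4 := ta_pos hxs
  have e : ta x = ta xs * Real.exp (gh x - gh xs) := by
    rw [ta_eq_exp hx, ta_eq_exp hxs, ← Real.exp_add]
    congr 1
    ring
  have h3 : Real.exp (gh x - gh xs) < 172 / 100 := by
    by_contra hc
    push Not at hc
    have : ta xs * (172 / 100) ≤ ta x := by
      rw [e]
      exact mul_le_mul_of_nonneg_left hc a4.le
    linarith
  have h4 := Real.log_lt_log (Real.exp_pos _) h3
  rw [Real.log_exp] at h4
  exact h4.trans log_55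

theorem Lb_lt {al m0 : ℕ} (hal : al ≠ 122 ∧ (al - 122) * 550 ≤ al * m0) {m : ℝ} (hm : 0 < m)
    (hm2 : m < 55 / 100) : Lb al m0 m < 122 / 100 * m := by
  unfold Lb
  refine max_lt (by positivity) ?_
  obtain ⟨b1, b2⟩ := hal
  have e : (al : ℝ) / 100 * (m - (m0 : ℝ) / 1000) = (al * m - al * m0 / 1000) / 100 := by ring
  rw [e, div_lt_iff₀ (by norm_num)]
  have e2 : (122 : ℝ) / 100 * m * 100 = 122 * m := by ring
  rw [e2]
  have b5 : (0 : ℝ) ≤ (al : ℝ) * m0 / 1000 := by positivity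
  rcases lt_or_gt_of_ne b1 with b3 | b3
  · have b4 : (al : ℝ) ≤ 121 := by exact_mod_cast (by omega : al ≤ 121)
    have := mul_le_mul_of_nonneg_right b4 hm.le
    linarith
  · have b4 : ((al : ℝ) - 122) * 550 ≤ al * m0 := by
      have : ((al - 122 : ℕ) : ℝ) * 550 ≤ (al : ℝ) * m0 := by exact_mod_cast b2
      rwa [Nat.cast_sub b3.le] at this
    have b5 : (122 : ℝ) < al := by exact_mod_cast b3
    have b6 := mul_lt_mul_of_pos_left hm2 (sub_pos.2 b5)
    linarith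

/-- **An entry for the sides, hinge above by `Kap`.** -/
theorem Wd.In.dk (I : W.In T ρ xs ys) (G : GD xs ys cl cp) {al m0 vs A ya yb yb' : ℕ}
    (hH : vs ≠ 0 → RC.HD xs ys T ρ cl cp) (K : Kap xs ys T ρ cp) (hcp : cp ≤ 27 / 100)
    (h17 : 17 / 100 ≤ xs) (hal : al ≠ 122 ∧ (al - 122) * 550 ≤ al * m0)
    (Rd : W.R (cD false 0 al m0 0 0 0 vs) A W.x1 ya yb')
    (hy : (Nat.ble yb yb' || Nat.ble W.y1 yb') = true)
    (t : DT xs ys T ρ cl cp (fun _ => 0) (fun _ => 0) tab) (hA : (A : ℝ) / 10000 ≤ cl) :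
    DT xs ys T ρ cl cp (fun _ => 0) (fun _ => 0) (⟨ya, yb, al, m0, 0, 0, 0⟩ :: tab) := by
  refine t.cons fun y h1 h2 h3 h4 => ⟨fun x hx hlt hn hN hG _ => ?_, fun x hx hlt hn hN hG hD => ?_⟩
  · have hxi := G.x1 hx
    have hm := sub_pos.2 ((gh_lt G.xi hxi).2 hlt)
    have k := K x y hlt hx.2 h3 h4 hn
    have hm2 := gh_sub_lt hxi G.xi h17 (hx.2.trans hcp)
    have hL := Lb_lt hal hm hm2
    change Sx x y T ρ < Sx xs ys T ρ + 0
    change Dx x y T ρ ≤ Dx xs ys T ρ + Lb al m0 (gh x - gh xs) at hG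
    linarith
  · have hm := (gh_lt (G.x1 hx) G.xi).2 hlt
    have := row_dn (c := cD false 0 al m0 0 0 0 vs W.ws) G hH rfl rfl
      (Rd.at I (hA.trans hx.1) (hlt.le.trans I.x1) h1 (I.yb hy h2 h4)) I.ws hx h3 h4 hlt hn hN hG (by
        intro k1 k2
        change Dx x y T ρ + ((0 : ℕ) : ℝ) / 1000 ≤ _
        rw [Nat.cast_zero, zero_div, add_zero]
        exact hG)
    change Sx xs ys T ρ < Sx x y T ρ + ((0 : ℕ) : ℝ) / 1000 * (gh xs - gh x) at this
    change Sx xs ys T ρ < Sx x y T ρ + 0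
    rw [Nat.cast_zero, zero_div, zero_mul] at this
    exact this

theorem hf0 : ∀ m : ℝ, 0 < m → ((0 : ℕ) : ℝ) / 1000 * m ≤ (fun _ : ℝ => (0 : ℝ)) m := fun m _ => by
  simp
theorem hf38 : ∀ m : ℝ, 0 < m → ((380 : ℕ) : ℝ) / 1000 * m ≤ (fun m : ℝ => 38 / 100 * m) m :=
  fun m _ => by norm_num
theorem hf355 : ∀ m : ℝ, 0 < m → ((355 : ℕ) : ℝ) / 1000 * m ≤ (fun m : ℝ => 355 / 1000 * m) m :=
  fun m _ => by norm_num
theorem hf50 : ∀ m : ℝ, 0 < m → ((500 : ℕ) : ℝ) / 1000 * m ≤ (fun m : ℝ => 1 / 2 * m) m :=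
  fun m _ => by norm_num
theorem hz0 : ∀ m : ℝ, 0 < m → (0 : ℝ) ≤ (fun _ : ℝ => (0 : ℝ)) m := fun _ _ => le_rfl

theorem A16 : ((1600 : ℕ) : ℝ) / 10000 ≤ 16 / 100 := by norm_num
theorem B36 : (36 / 100 : ℝ) ≤ ((3600 : ℕ) : ℝ) / 10000 := by norm_num
theorem A12 : ((1250 : ℕ) : ℝ) / 10000 ≤ 125 / 1000 := by norm_num
theorem A120 : ((1200 : ℕ) : ℝ) / 10000 ≤ 12 / 100 := by norm_num
theorem A10 : ((1000 : ℕ) : ℝ) / 10000 ≤ 10 / 100 := by norm_num
theorem B30 : (30 / 100 : ℝ) ≤ ((3000 : ℕ) : ℝ) / 10000 := by norm_num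
theorem B26 : (26 / 100 : ℝ) ≤ ((2600 : ℕ) : ℝ) / 10000 := by norm_num
theorem B27 : (27 / 100 : ℝ) ≤ ((2700 : ℕ) : ℝ) / 10000 := by norm_num

end

end RC

end Pool.Agent.Work.MP_b30479_gt.G2
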