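import Pool.Agent.Work.MP_b30479_gt.G2.RKap1
import Pool.Agent.Work.MP_b30479_gt.G2.RLvl7

/-!
# Rings on the level part: rings at an end, zero entries, the ring variable up at `2` at the end
-/

namespace Pool.Agent.Work.MP_b30479_gt.G2

open Real Set VOL Filter Topology

namespace RC

namespace Row

open NumI NumI.E

/-- the polynomial of the condition upwards -/
noncomputable def huf (a B v : ℝ) : ℝ :=
  16 * ((B - a) ^ 2 * (a * B)) -
    v * (((1 - a ^ 2) * (1 - B ^ 2) - 4 * (a * B)) * ((1 + a ^ 2) * (1 + B ^ 2)))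

theorem huf_eq (a B v : ℝ) : ff ((a + B) ^ 2) (a * B) v 1 = 2 * huf a B v := by
  unfold ff cm km huf
  ring

theorem ffu_nonneg {a B v : ℝ} (ha : 0 < a) (hB : 0 < B) {w : ℝ} (hv : 0 ≤ v) (hvw : v ≤ w)
    (h : 0 < huf a B w) : 0 ≤ ff ((a + B) ^ 2) (a * B) v 1 := by
  have h1 : 0 ≤ huf a B v := by
    unfold huf at h ⊢
    set P := ((1 - a ^ 2) * (1 - B ^ 2) - 4 * (a * B)) * ((1 + a ^ 2) * (1 + B ^ 2))
    have h2 : 0 ≤ 16 * ((B - a) ^ 2 * (a * B)) := by positivity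
    rcases le_total P 0 with hP | hP
    · have := mul_nonneg hv (sub_nonneg.2 hP)
      nlinarith only [h2, this]
    · have := mul_le_mul_of_nonneg_right hvw hP
      linarith only [h, this]
  rw [huf_eq]
  linarith only [h1]

/-- variables `x`, `s`; `2 = a`, `3 = B`, `4 = v`, `5 = a²`, `6 = B²` -/
def ehu (w : E) : E := lt (tanE (var 0)) <| lt (tanE (sub (q 1 2) (var 1))) <|
  lt (sq (sinh (mul pi w))) <| lt (sq (var 2)) <| lt (sq (var 3)) <|
  sub (mul (q 16 1) (mul (sq (sub (var 3) (var 2))) (mul (var 2) (var 3))))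
   (mul (var 4) (mul (sub (mul (sub one (var 5)) (sub one (var 6)))
      (mul four (mul (var 2) (var 3)))) (mul (add one (var 5)) (add one (var 6)))))

theorem ehu_val (x s : ℝ) (n : ℤ) (d : ℕ) : (ehu (q n d)).val [x, s] =
    huf (ta x) (ta (1 / 2 - s)) (shq (n / d)) := by
  simp only [ehu, tanE, dv, one, four, E.val, lkR_zero, lkR_succ, List.cons_append,
    List.nil_append, huf]
  push_cast
  rw [ta_div, ta_div]
  unfold shq
  ring

/-- the list of a row -/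
def hul (c1 q1 : ℤ) : List E := [ehu (q q1 10000), sub (add (var 0) (var 1)) (q c1 10000)]

theorem cU4 : chk (hul 3940 1702) 14 [V.of 10000 1683 1886, V.of 10000 1679 2118] = true := by
  decide +kernel
theorem cU42 : chk (hul 3930 1270) 14 [V.of 10000 1590 1750, V.of 10000 2100 2260] = true := by
  decide +kernel

end Row

open Row R6

section
variable {xs ys T ρ cl cp x y : ℝ} {f g : ℝ → ℝ} {tab tab' : List Te} {W : Wd}

/-- the ring variable up more than the hinge -/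
theorem GD.upU (g : GD xs ys cl cp) (hf : 0 ≤ ff ((ta xs + ta ys) ^ 2) (ta xs * ta ys) (shq (T - ρ)) 1)
    (ha : 158 / 1000 ≤ ta cl)
    (hv : shq (T - ρ) ≤ 45 / 100) : ∀ x y, x ∈ Icc cl cp → ys < y → y ≤ 1 / 2 →
    |gh x - gh xs| < gh y - gh ys → Dx x y T ρ < Dx xs ys T ρ := by
  intro x y hx h1 h2 hN
  have hxi := g.x1 hx
  have hyi : y ∈ Ioo (0 : ℝ) 1 := ⟨by linarith only [h1, g, g.y4], by linarith only [h2]⟩
  have hax := ta_pos g.xi
  have hay := ta_pos g.yi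
  have h8 := t8_le g.yi g.y4
  have hx1 := (ta_le' g.cli g.xi).2 g.xl
  have hN' := abs_lt.1 hN
  have hxy : x + y < 1 := by linarith only [h2, hx, g, hx.2, g.cp2]
  have hP : (158 / 1000 : ℝ) * (4142 / 10000) ≤ ta xs * ta ys :=
    mul_le_mul (ha.trans hx1) h8.le (by norm_num) hax.le
  refine zup g.xi g.yi hxi hyi g.hs h2 hN (by linarith only [hv, hP]) ?_
  have h3 : ta xs * ta ys < ta x * ta y := (ta_mul_lt g.xi g.yi hxi hyi).2 (by linarith only [hN'])
  have h4 := (ta_lt' g.xi g.yi).2 g.hs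
  have hp0 : 0 < ta xs * ta ys := mul_pos hax hay
  have hxy1 := (add_lt_iff hxi hyi).2 hxy
  have h5 : ta xs * ta ys < 1 := h3.trans hxy1
  refine ff_pos hp0 ?_ (shq_nonneg _) zero_le_one ?_ ?_ hf
  · nlinarith only [h4, mul_pos (sub_pos.2 h4) (sub_pos.2 h4)]
  · rwa [one_lt_div hp0]
  · have e : ta x * ta y / (ta xs * ta ys) * 1 * (ta xs * ta ys) ^ 2 =
        ta x * ta y * (ta xs * ta ys) := by
      field_simp
    rw [e]
    have := mul_lt_mul_of_pos_right hxy1 hp0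
    linarith only [h3, hxy1, this]

/-- the ring variable up more than the hinge, by a certificate -/
theorem GD.upc (g : GD xs ys (125 / 1000) (30 / 100)) {c q X0 X1 S0 S1 : ℤ} {n : ℕ}
    (C : NumI.chk (hul c q) n [NumI.V.of 10000 X0 X1, NumI.V.of 10000 S0 S1] = true)
    (h0 : (X0 : ℝ) / 10000 ≤ xs) (h1 : xs ≤ X1 / 10000) (h2 : (S0 : ℝ) / 10000 ≤ 1 / 2 - ys)
    (h3 : 1 / 2 - ys ≤ S1 / 10000) (h4 : xs + (1 / 2 - ys) ≤ c / 10000)
    (h5 : |T - ρ| ≤ q / 10000) (hq : q ≤ 2000) :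
    ∀ x y, x ∈ Icc (125 / 1000 : ℝ) (30 / 100) → ys < y → y ≤ 1 / 2 →
    |gh x - gh xs| < gh y - gh ys → Dx x y T ρ < Dx xs ys T ρ := by
  have k : 0 ≤ ff ((ta xs + ta ys) ^ 2) (ta xs * ta ys) (shq (T - ρ)) 1 := by
    obtain ⟨e, he, hp⟩ := NumI.chk2 C (by norm_num) (x := xs) (y := 1 / 2 - ys)
      (by push_cast; linarith only [h0]) (by push_cast; linarith only [h1]) (by push_cast; linarith only [h2])
      (by push_cast; linarith only [h3])
    have ey : 1 / 2 - (1 / 2 - ys) = ys := by ring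
    simp only [hul, List.mem_cons, List.not_mem_nil, or_false] at he
    rcases he with rfl | rfl
    · rw [ehu_val, ey] at hp
      refine ffu_nonneg (ta_pos g.xi) (ta_pos g.yi) (shq_nonneg _) (shq_mono ?_) hp
      push_cast
      rw [abs_of_nonneg (a := (q : ℝ) / 10000) ((abs_nonneg _).trans h5)]
      exact h5
    · exfalso
      simp only [NumI.E.val, NumI.lkR_zero, NumI.lkR_one] at hp
      push_cast at hp
      linarith only [h4, hp]
  refine g.upU k ?_ ?_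
  · have := ta_lo g.cli (m := 1 / 8) (by constructor <;> norm_num) (by norm_num) t125_gt
    linarith only [this]
  · have : (q : ℝ) ≤ 2000 := by exact_mod_cast hq
    exact shq200 (h5.trans (by linarith only [this]))

/-- **Kappa for hinges with small height.** -/
theorem Kap.of (h0 : 17 / 100 ≤ xs) (hc : cp ≤ 27 / 100) (h2 : ys ≤ 1 / 2)
    (hs : xs + (1 / 2 - ys) ≤ 48 / 100) (hT : |T| ≤ 47 / 1000) : Kap xs ys T ρ cp :=
  fun x y h1 h3 h4 h5 hn => kap_one h0 h1.le (h3.trans hc) (by linarith only [h0, hc, h1, h3, h4]) h5 h2 (by linarith only [hc, hs, h3, h4]) hT hn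
    (by linarith only [h0, hc, hs, h1, h3])

/-- the table starts later -/
theorem Wd.In.qtz (I : W.In T ρ xs ys) (G : GD xs ys cl cp) {al m0 vs A B ya yb ya' yb' : ℕ}
    (hH : vs ≠ 0 → RC.HD xs ys T ρ cl cp)
    (Ru : W.R (cQ true al m0 vs) W.x0 B ya' yb') (Rd : W.R (cQ false al m0 vs) A W.x1 ya' yb')
    (hya : ya' ≤ ya) (hy : (Nat.ble yb yb' || Nat.ble W.y1 yb') = true)
    (t : QT xs ys T ρ cl cp tab)
    (hA : (A : ℝ) / 10000 ≤ cl) (hB : cp ≤ (B : ℝ) / 10000) :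
    QT xs ys T ρ cl cp (⟨ya, yb, al, m0, 0, 0, 0⟩ :: tab) :=
  t.cons fun _ h1 h2 h3 h4 => I.QB G hH Ru Rd hA hB
    (le_trans (by have : (ya' : ℝ) ≤ ya := by exact_mod_cast hya
                  linarith only [this]) h1) (I.yb hy h2 h4) h3 h4

/-- a zero entry for the sides from rows of the contribution, the table starts later -/
theorem Wd.In.dtz (I : W.In T ρ xs ys) (G : GD xs ys cl cp) {f g : ℝ → ℝ}
    {vs dl m1 n1 A B ya yb ya' yb' : ℕ} (hH : vs ≠ 0 → RC.HD xs ys T ρ cl cp)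
    (Ru : W.R (cQ true 0 0 vs) W.x0 B ya' yb') (Rd : W.R (cQ false 0 0 vs) A W.x1 ya' yb')
    (hya : ya' ≤ ya) (hy : (Nat.ble yb yb' || Nat.ble W.y1 yb') = true)
    (t : DT xs ys T ρ cl cp f g tab)
    (hA : (A : ℝ) / 10000 ≤ cl) (hB : cp ≤ (B : ℝ) / 10000) :
    DT xs ys T ρ cl cp f g (⟨ya, yb, 0, 0, dl, m1, n1⟩ :: tab) := by
  refine t.cons fun y h1 h2 h3 h4 => ?_
  have := I.QB G hH Ru Rd hA hB
    (le_trans (by have : (ya' : ℝ) ≤ ya := by exact_mod_cast hya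
                  linarith only [this]) h1) (I.yb hy h2 h4) h3 h4
  change RC.DS xs ys T ρ cl cp f g (Lb 0 0) _ _ _ y
  rw [Lb_00] at this ⊢
  exact this.toDS G.xi G.cl0 (by linarith only [G, G.cp2])

end

/-- the statements for the hinge of a ring at an end -/
structure En (xs ys T ρ cl cp : ℝ) (f g : ℝ → ℝ) : Prop where
  p : LF xs ys T ρ cl cp f g
  d : ∀ y, 1 / 4 ≤ y → y < ys → DS xs ys T ρ cl cp f g (fun _ => 0) 0 0 0 y
  l : LI xs ys T ρ

section
variable {xs ys T ρ cl cp b : ℝ} {f g : ℝ → ℝ} {tab tab' : List Te}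

theorem En.of (p : LF xs ys T ρ cl cp f g) (d : DT xs ys T ρ cl cp f g tab)
    (q : QT xs ys T ρ cl cp tab') (c : cov 2500 tab = true)
    (h0 : (tab.all fun e => e.al == 0 && e.dl == 0 && e.m1 == 0 && e.n1 == 0) = true)
    (c' : cov 2500 tab' = true) (hys : ys ∈ Ioc (1 / 4 : ℝ) (1 / 2)) (hx : xs ∈ Icc cl cp) :
    En xs ys T ρ cl cp f g :=
  ⟨p, d.zero c h0 hys.2, LI.of_tab p.up q c' hx hys⟩

/-- no exceptions -/
theorem En.of_lo (l : LH xs ys T ρ cl cp) (d : DnG xs T cl cp ys ρ)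
    (hys : ys ∈ Ioc (1 / 4 : ℝ) (1 / 2)) (hx : xs ∈ Icc cl cp) (hc : 0 < cl) (hp : cp < 1)
    (hf : ∀ m, 0 < m → 0 ≤ f m) (hg : ∀ m, 0 < m → 0 ≤ g m) :
    En xs ys T ρ cl cp f g :=
  ⟨l.toF hf hg hc hp, fun _ h1 h2 => (DnG.QB (m1 := 0) (n1 := 0) d h1 h2).toDS l.hx hc hp,
    LI.of l d hx hys⟩

theorem En.RP1 (P : En xs ys T ρ cl cp f g)
    (hf : ∀ t, 0 < t → 0 ≤ f t) (hg : ∀ t, 0 < t → 0 ≤ g t)
    (rp : RampOK1 b xs ys T ρ cl cp) (hys : ys ∈ Ioo (1 / 4 : ℝ) 1)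
    (hD : Dx xs ys T ρ = 2 * π * b * ρ) (hcl : 0 < cl) (hcp : cp < 1) :
    RP1 b xs ys T ρ cl cp f g :=
  RP1.of' P.p P.d hf hg rp hys hD hcl hcp

end

end RC

end Pool.Agent.Work.MP_b30479_gt.G2
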