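import Pool.Agent.Work.MP_b30479_gt.G2.RLvl6
import Pool.Agent.Work.MP_b30479_gt.G2.RLvl9
import Pool.Agent.Work.MP_b30479_gt.G2.RWd
import Pool.Agent.Work.MP_b30479_gt.G2.RngO

/-!
# Rings on the level part: membership of the windows
-/

namespace Pool.Agent.Work.MP_b30479_gt.G2

open Finset VOL Filter Topology

namespace RC

namespace Row

open NumI NumI.E

theorem cH8 : chk (h2l 4210 1885 0 1885) 20 [V.of 10000 2170 2990, V.of 10000 0 1474] = true := by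
  decide +kernel

end Row

/-- cut at an upper bound of `xs` -/
theorem Wd.In.cut {W : Wd} {xs ys T ρ : ℝ} (I : W.In T ρ xs ys) {n : ℕ} (h : xs ≤ (n : ℝ) / 10000) :
    (Wd.mk W.t0 W.t1 W.r0 W.r1 W.x0 n W.y0 W.y1 W.ws).In T ρ xs ys :=
  ⟨I.t0, I.t1, I.r0, I.r1, I.x0, h, I.y0, I.y1, I.ws⟩

end RC

namespace SR

/-- the window of a list of bounds and `x - q ≤ κ` -/
def wdk (x0 x1 s0 s1 q0 q1 r0 r1 t0 t1 c1 cr : ℤ) (k : ℕ) : RC.Wd :=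
  ⟨(t0 + 2000).toNat, (t1 + 2000).toNat, r0.toNat, r1.toNat, x0.toNat, x1.toNat,
    (5000 - s1).toNat, (5000 - s0).toNat,
    [⟨1, 0, 0, 1, 0, 0, 0, 0, (-q0).toNat, q0.toNat⟩,
     ⟨0, 1, 1, 0, 0, 0, 0, 0, q1.toNat, (-q1).toNat⟩,
     ⟨0, 0, 0, 0, 1, 0, 0, 1, (c1 - 5000).toNat, (5000 - c1).toNat⟩,
     ⟨0, 0, 0, 1, 1, 0, 0, 1, (cr - 5000).toNat, (5000 - cr).toNat⟩,
     ⟨1, 0, 0, 1, 1, 0, 0, 0, k, 0⟩]⟩

section
variable {x0 x1 s0 s1 q0 q1 r0 r1 t0 t1 c1 cr : ℤ} {xs ys T ρ : ℝ}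
variable {x0' x1' s0' s1' q0' q1' r0' r1' t0' t1' c1' cr' : ℤ} {xs' T' : ℝ}

theorem wdk_in (h : (mk4 x0 x1 s0 s1 q0 q1 r0 r1 t0 t1 c1 cr).Re xs ys T ρ)
    (h0 : 0 ≤ x0 ∧ 0 ≤ x1 ∧ s1 ≤ 5000 ∧ s0 ≤ 5000 ∧ 0 ≤ r0 ∧ 0 ≤ r1 ∧ -2000 ≤ t0 ∧ -2000 ≤ t1)
    {k : ℕ} (hk : xs - (k : ℝ) / 10000 ≤ ρ - T) :
    (wdk x0 x1 s0 s1 q0 q1 r0 r1 t0 t1 c1 cr k).In T ρ xs ys := by
  have I := wd4_in h h0
  refine ⟨I.t0, I.t1, I.r0, I.r1, I.x0, I.x1, I.y0, I.y1, fun l hl => ?_⟩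
  simp only [wdk, List.mem_cons, List.not_mem_nil, or_false] at hl
  rcases hl with rfl | rfl | rfl | rfl | rfl
  · exact I.ws _ (by simp [wd4])
  · exact I.ws _ (by simp [wd4])
  · exact I.ws _ (by simp [wd4])
  · exact I.ws _ (by simp [wd4])
  · unfold R6.LC.ok
    simp only
    push_cast
    linarith only [hk]

/-- larger bounds -/
theorem R4.Re.sub (h : (mk4 x0 x1 s0 s1 q0 q1 r0 r1 t0 t1 c1 cr).Re xs ys T ρ)
    (hd : x0' ≤ x0 ∧ x1 ≤ x1' ∧ s0' ≤ s0 ∧ s1 ≤ s1' ∧ q0' ≤ q0 ∧ q1 ≤ q1' ∧ r0' ≤ r0 ∧ r1 ≤ r1' ∧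
      t0' ≤ t0 ∧ t1 ≤ t1' ∧ c1 ≤ c1' ∧ cr ≤ cr') :
    (mk4 x0' x1' s0' s1' q0' q1' r0' r1' t0' t1' c1' cr').Re xs ys T ρ := by
  obtain ⟨a1, a2, a3, a4, a5, a6, a7, a8, a9, a10, a11, a12⟩ := hd
  obtain ⟨b1, b2, b3, b4, b5, b6, b7, b8, b9, b10, b11, b12⟩ := h
  have c : ∀ {m n : ℤ}, m ≤ n → (m : ℝ) / 10000 ≤ (n : ℝ) / 10000 := fun {m n} h => by
    have : (m : ℝ) ≤ n := by exact_mod_cast h
    linarith only [this]
  exact ⟨(c a1).trans b1, b2.trans (c a2), (c a3).trans b3, b4.trans (c a4), (c a5).trans b5,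
    b6.trans (c a6), (c a7).trans b7, b8.trans (c a8), (c a9).trans b9, b10.trans (c a10),
    b11.trans (c a11), b12.trans (by
      have := c a12
      change (cr : ℝ) / 10000 + ρ ≤ (cr' : ℝ) / 10000 + ρ
      linarith only [this])⟩

/-- the bounds of `s` and `ρ` at the other hinge -/
theorem R4.Re.int (h : (mk4 x0 x1 s0 s1 q0 q1 r0 r1 t0 t1 c1 cr).Re xs ys T ρ)
    (h' : (mk4 x0' x1' s0' s1' q0' q1' r0' r1' t0' t1' c1' cr').Re xs' ys T' ρ) {s2 s3 r2 r3 : ℤ}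
    (hd : (s2 = s0 ∨ s2 = s0') ∧ (s3 = s1 ∨ s3 = s1') ∧ (r2 = r0 ∨ r2 = r0') ∧
      (r3 = r1 ∨ r3 = r1')) : (mk4 x0 x1 s2 s3 q0 q1 r2 r3 t0 t1 c1 cr).Re xs ys T ρ := by
  obtain ⟨a1, a2, a3, a4⟩ := hd
  refine ⟨h.x0, h.x1, ?_, ?_, h.q0, h.q1, ?_, ?_, h.t0, h.t1, h.c1, h.cr⟩
  · rcases a1 with rfl | rfl
    · exact h.s0
    · exact h'.s0
  · rcases a2 with rfl | rfl
    · exact h.s1
    · exact h'.s1
  · rcases a3 with rfl | rfl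
    · exact h.r0
    · exact h'.r0
  · rcases a4 with rfl | rfl
    · exact h.r1
    · exact h'.r1

/-- the facts about a hinge next to a digit `1` -/
theorem R4.Re.oneB (h : (mk4 x0 x1 s0 s1 q0 q1 r0 r1 t0 t1 c1 cr).Re xs ys T ρ)
    {c q X0 X1 S0 S1 : ℤ} {n : ℕ}
    (C : NumI.chk (RC.Row.h2l c q 0 q) n [NumI.V.of 10000 X0 X1, NumI.V.of 10000 S0 S1] = true)
    (hd : X0 ≤ x0 ∧ x1 ≤ X1 ∧ S0 ≤ s0 ∧ s1 ≤ S1 ∧ c1 ≤ c ∧ q1 ≤ q ∧ -q ≤ q0 ∧ 2160 ≤ x0 ∧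
      x1 ≤ 2990 ∧ c1 ≤ 4826 ∧ s1 < 2500 ∧ 0 ≤ s0 ∧ t1 ≤ 0 ∧ -1580 ≤ t0 ∧ 0 ≤ r0 ∧ r1 ≤ 1000 ∧
      q1 ≤ 2000) : RC.OneB xs ys T ρ := by
  obtain ⟨d1, d2, d3, d4, d5, d6, d7, d8, d9, d10, d11, d12, d13, d14, d15, d16, d17⟩ := hd
  have k1 : (X0 : ℝ) ≤ x0 := by exact_mod_cast d1
  have k2 : (x1 : ℝ) ≤ X1 := by exact_mod_cast d2
  have k3 : (S0 : ℝ) ≤ s0 := by exact_mod_cast d3
  have k4 : (s1 : ℝ) ≤ S1 := by exact_mod_cast d4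
  have k5 : (c1 : ℝ) ≤ c := by exact_mod_cast d5
  have k6 : (q1 : ℝ) ≤ q := by exact_mod_cast d6
  have k7 : -(q : ℝ) ≤ q0 := by exact_mod_cast d7
  have k8 : (2160 : ℝ) ≤ x0 := by exact_mod_cast d8
  have k9 : (x1 : ℝ) ≤ 2990 := by exact_mod_cast d9
  have k10 : (c1 : ℝ) ≤ 4826 := by exact_mod_cast d10
  have k11 : (s1 : ℝ) < 2500 := by exact_mod_cast d11
  have k12 : (0 : ℝ) ≤ s0 := by exact_mod_cast d12
  have k13 : (t1 : ℝ) ≤ 0 := by exact_mod_cast d13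
  have k14 : (-1580 : ℝ) ≤ t0 := by exact_mod_cast d14
  have k15 : (0 : ℝ) ≤ r0 := by exact_mod_cast d15
  have k16 : (r1 : ℝ) ≤ 1000 := by exact_mod_cast d16
  have k17 : (q1 : ℝ) ≤ 2000 := by exact_mod_cast d17
  obtain ⟨b1, b2, b3, b4, b5, b6, b7, b8, b9, b10, b11, b12⟩ := h
  simp only [mk4] at b1 b2 b3 b4 b5 b6 b7 b8 b9 b10 b11 b12
  have hq : |T - ρ| ≤ (q : ℝ) / 10000 := by
    rw [abs_le]
    constructor <;> linarith only [k6, b6, k7, b5]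
  refine ⟨by linarith only [k8, b1], by linarith only [k9, b2], by linarith only [k10, b11], by linarith only [k11, b4], by linarith only [k12, b3], by linarith only [k13, b10],
    by linarith only [k14, b9], by linarith only [k15, b7], by linarith only [k16, b8], by linarith only [k17, b6], ?_⟩
  refine RC.Row.H2_of C ⟨by linarith only [k8, b1], by linarith only [k9, b2]⟩ ⟨by linarith only [k11, b4], by linarith only [k12, b3]⟩ (by linarith only [k1, b1])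
    (by linarith only [k2, b2]) (by linarith only [k3, b3]) (by linarith only [k4, b4]) (by linarith only [k5, b11]) hq (by push_cast; linarith only [hq])

end

section
variable {x0 x1 s0 s1 q0 q1 r0 r1 t0 t1 c1 cr : ℤ} {xs ys T ρ : ℝ}

/-- the geometric data at a hinge to a digit `2` at an end -/
theorem R4.Re.gd (h : (mk4 x0 x1 s0 s1 q0 q1 r0 r1 t0 t1 c1 cr).Re xs ys T ρ)
    (hd : 1250 ≤ x0 ∧ x1 ≤ 2400 ∧ 0 ≤ s0 ∧ s1 ≤ 2500) :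
    RC.GD xs ys (125 / 1000) (30 / 100) := by
  obtain ⟨d1, d2, d3, d4⟩ := hd
  have k1 : (1250 : ℝ) ≤ x0 := by exact_mod_cast d1
  have k2 : (x1 : ℝ) ≤ 2400 := by exact_mod_cast d2
  have k3 : (0 : ℝ) ≤ s0 := by exact_mod_cast d3
  have k4 : (s1 : ℝ) ≤ 2500 := by exact_mod_cast d4
  obtain ⟨b1, b2, b3, b4, -, -, -, -, -, -, -, -⟩ := h
  simp only [mk4] at b1 b2 b3 b4
  exact ⟨by norm_num, by norm_num, by linarith only [k1, b1], by linarith only [k2, b2], by linarith only [k2, k4, b2, b4], by linarith only [k4, b4],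
    by linarith only [k3, b3]⟩

/-- the contribution of a hinge to a digit `2` at an end, ring variable up -/
theorem R4.Re.up (h : (mk4 x0 x1 s0 s1 q0 q1 r0 r1 t0 t1 c1 cr).Re xs ys T ρ)
    (G : RC.GD xs ys (125 / 1000) (30 / 100)) {c q X0 X1 S0 S1 : ℤ} {n : ℕ}
    (C : NumI.chk (RC.Row.hul c q) n [NumI.V.of 10000 X0 X1, NumI.V.of 10000 S0 S1] = true)
    (hd : X0 ≤ x0 ∧ x1 ≤ X1 ∧ S0 ≤ s0 ∧ s1 ≤ S1 ∧ c1 ≤ c ∧ q1 ≤ q ∧ -q ≤ q0 ∧ q ≤ 2000) :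
    ∀ x y, x ∈ Set.Icc (125 / 1000 : ℝ) (30 / 100) → ys < y → y ≤ 1 / 2 →
      |gh x - gh xs| < gh y - gh ys → RC.Dx x y T ρ < RC.Dx xs ys T ρ := by
  obtain ⟨d1, d2, d3, d4, d5, d6, d7, d8⟩ := hd
  have k1 : (X0 : ℝ) ≤ x0 := by exact_mod_cast d1
  have k2 : (x1 : ℝ) ≤ X1 := by exact_mod_cast d2
  have k3 : (S0 : ℝ) ≤ s0 := by exact_mod_cast d3
  have k4 : (s1 : ℝ) ≤ S1 := by exact_mod_cast d4
  have k5 : (c1 : ℝ) ≤ c := by exact_mod_cast d5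
  have k6 : (q1 : ℝ) ≤ q := by exact_mod_cast d6
  have k7 : -(q : ℝ) ≤ q0 := by exact_mod_cast d7
  obtain ⟨b1, b2, b3, b4, b5, b6, b7, b8, b9, b10, b11, b12⟩ := h
  simp only [mk4] at b1 b2 b3 b4 b5 b6 b7 b8 b9 b10 b11 b12
  refine G.upc C (by linarith only [k1, b1]) (by linarith only [k2, b2]) (by linarith only [k3, b3]) (by linarith only [k4, b4]) (by linarith only [k5, b11]) ?_ d8
  rw [abs_le]
  constructor <;> linarith only [k6, b6, k7, b5]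

/-- kappa for small heights -/
theorem R4.Re.kap (h : (mk4 x0 x1 s0 s1 q0 q1 r0 r1 t0 t1 c1 cr).Re xs ys T ρ)
    (hd : 1700 ≤ x0 ∧ 0 ≤ s0 ∧ c1 ≤ 4800) (hT : |T| ≤ 47 / 1000) :
    RC.Kap xs ys T ρ (27 / 100) ∧ 17 / 100 ≤ xs := by
  obtain ⟨d1, d2, d3⟩ := hd
  have k1 : (1700 : ℝ) ≤ x0 := by exact_mod_cast d1
  have k2 : (0 : ℝ) ≤ s0 := by exact_mod_cast d2
  have k3 : (c1 : ℝ) ≤ 4800 := by exact_mod_cast d3
  obtain ⟨b1, -, b3, -, -, -, -, -, -, -, b11, -⟩ := h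
  simp only [mk4] at b1 b3 b11
  exact ⟨RC.Kap.of (by linarith only [k1, b1]) le_rfl (by linarith only [k2, b3]) (by linarith only [k3, b11]) hT, by linarith only [k1, b1]⟩

end

/-- the slack upwards at a hinge next to a digit `1` with class `C` behind -/
def FS (n : ℕ) (C : Cl) (xs T : ℝ) (f : ℝ → ℝ) : Prop :=
  f = (fun _ => 0) ∨ (C = .two ∧ 2563 / 10000 ≤ xs ∧
    ((n = 4 ∧ -(128 / 1000) ≤ T ∧ f = fun m => 38 / 100 * m) ∨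
      (5 ≤ n ∧ -(138 / 1000) ≤ T ∧ f = fun m => 355 / 1000 * m)))

/-- the slack downwards -/
def GS (n : ℕ) (k : Cl) (g : ℝ → ℝ) : Prop :=
  g = (fun _ => 0) ∨ (k = .twoE ∧ n = 4 ∧ g = fun m => 1 / 2 * m)

/-- the data of a hinge without exceptions -/
def Lo (k : Cl) (xs ys T ρ : ℝ) : Prop :=
  RC.HD xs ys T ρ (fcl k) (fcp k) ∧ RC.LH xs ys T ρ (fcl k) (fcp k) ∧
    RC.DnG xs T (fcl k) (fcp k) ys ρ

/-- the pair of hinges of a ring between a digit `1` with `C` behind and class `k` -/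
def PrS (n : ℕ) (C k : Cl) (xs ys T ρ xs' T' : ℝ) : Prop :=
  ∃ f g', FS n C xs T f ∧ GS n k g' ∧
    RC.Pr ys ρ xs T (16 / 100) (36 / 100) f (fun _ => 0) xs' T' (fcl k) (fcp k) (fun _ => 0) g'

/-- both hinges next to digits `1` -/
def PrO (n : ℕ) (C C' : Cl) (xs ys T ρ xs' T' : ℝ) : Prop :=
  ∃ f f', FS n C xs T f ∧ FS n C' xs' T' f' ∧
    RC.Pr ys ρ xs T (16 / 100) (36 / 100) f (fun _ => 0) xs' T' (16 / 100) (36 / 100) f'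
      (fun _ => 0)

/-- a ring at an end next to a digit `1` -/
def EnS (n : ℕ) (C : Cl) (xs ys T ρ : ℝ) : Prop :=
  ∃ f, FS n C xs T f ∧ RC.En xs ys T ρ (16 / 100) (36 / 100) f (fun _ => 0)

/-- one hinge of a ring between two digits `1` -/
structure OKt (t : Cl → List RC.Te) (P : Cl → Prop) (C : Cl) (xs ys T ρ : ℝ) (f : ℝ → ℝ) :
    Prop where
  lf : RC.LF xs ys T ρ (16 / 100) (36 / 100) f (fun _ => 0)
  qt : RC.QT xs ys T ρ (16 / 100) (36 / 100) (t C)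
  dt : ∀ C', P C' → RC.DT xs ys T ρ (16 / 100) (36 / 100) f (fun _ => 0) (t C')
  ys : ys ∈ Set.Ioc (1 / 4 : ℝ) (1 / 2)
  xs : xs ∈ Set.Icc (16 / 100 : ℝ) (36 / 100)

theorem OKt.pr {t : Cl → List RC.Te} {P P' : Cl → Prop} {C C' : Cl} {xs ys T ρ xs' T' : ℝ}
    {f f' : ℝ → ℝ} (H : OKt t P C xs ys T ρ f) (H' : OKt t P' C' xs' ys T' ρ f') (h : P C')
    (h' : P' C) (hc : ∀ C, RC.cov 2500 (t C) = true) :
    RC.Pr ys ρ xs T (16 / 100) (36 / 100) f (fun _ => 0) xs' T' (16 / 100) (36 / 100) f'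
      (fun _ => 0) :=
  RC.Pr.of H.lf H'.lf (H.dt C' h) H'.qt (H'.dt C h') H.qt (hc _) (hc _) H.ys H.xs H'.xs

end SR

end Pool.Agent.Work.MP_b30479_gt.G2
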