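import Pool.Agent.Work.MP_b30479_gt.G2.WLocF

/-!
# Windows of the rings with four crossings next to a digit `2` at an end

`rf4 k s`: the hinge to the digit `2`, by the class `k` at the other hinge (`s`: equal signs);
`rg4 k s`: the other hinge.
-/

namespace Pool.Agent.Work.MP_b30479_gt.G2

namespace SR

/-- the hinge to the digit `2` -/
noncomputable def rf4 : Cl → Bool → R4
  | .two, _ => mk4 1715 1852 1771 1964 1437 1609 443 620 (-1072) (-928) 3752 3309
  | .twoE, _ => mk4 1683 1803 1843 1963 1341 1461 341 461 (-1060) (-940) 3707 3366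
  | .three, _ => mk4 1729 1857 1839 1998 1476 1619 494 642 (-1049) (-916) 3792 3298
  | .threeE, _ => mk4 1712 1832 1896 2016 1424 1544 449 569 (-1035) (-915) 3788 3339
  | .ring, false => mk4 1731 1886 1872 2031 1478 1702 513 735 (-1037) (-903) 3840 3327
  | .ring, true => mk4 1742 1886 1891 2118 1495 1702 561 735 (-1026) (-870) 3936 3375
  | _, _ => mk4 0 4000 0 2500 (-10000) 10000 (-10000) 10000 (-10000) 10000 6500 10000

/-- the other hinge -/
noncomputable def rg4 : Cl → Bool → R4
  | .two, _ => mk4 1980 2462 1771 1964 745 1124 443 620 (-616) (-185) 4294 3851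
  | .twoE, _ => mk4 1683 1803 1843 1963 1341 1461 341 461 (-1060) (-940) 3707 3366
  | .three, _ => mk4 1973 2239 1839 1998 617 866 494 642 (-308) (-35) 4138 3644
  | .threeE, _ => mk4 1773 1893 1896 2016 756 876 449 569 (-367) (-247) 3849 3400
  | .ring, false => mk4 1892 2291 1872 2031 386 739 513 735 (-157) 290 4242 3729
  | .ring, true => mk4 1774 2291 1891 2118 168 506 561 735 160 500 4242 3681
  | _, _ => mk4 0 4000 0 2500 (-10000) 10000 (-10000) 10000 (-10000) 10000 6500 10000

variable {M : ℕ}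

/-- **Windows of the rings with four crossings next to a digit `2` at an end.** Region `i` (ring),
`j` (digit `2` at an end), `k` (at the other hinge `h'` of `i`). -/
structure LocR2e (q r : Cl → Bool → R4) (b : Fin (M + 1) → ℤ)
    (zs : DD (tyW b) ⊕ ZZ (tyW b) → ℂ) : Prop where
  own : ∀ {h h' : Fin M} {i j k : Fin (M + 1)} {p : Fin 3} (v : ZZ (tyW b)), v.1 = i →
    Adj h i p j → Adj h' i p.rev k → clsW b i = .ring → (b i).natAbs = 4 → clsW b j = .twoE →
    clsW b k ≠ .one →
    (q (clsW b k) (ssW b h')).In (ofr (b i) (zs (.inl (.inl h)))) (ofz (b i) (zs (.inr v)))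
  par : ∀ {h h' : Fin M} {i j k : Fin (M + 1)} {p : Fin 3} (v : ZZ (tyW b)), v.1 = i →
    Adj h i p j → Adj h' i p.rev k → clsW b i = .ring → (b i).natAbs = 4 → clsW b j = .twoE →
    clsW b k ≠ .one →
    (r (clsW b k) (ssW b h')).In (ofr (b i) (zs (.inl (.inl h')))) (ofz (b i) (zs (.inr v)))

end SR

end Pool.Agent.Work.MP_b30479_gt.G2
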