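import Pool.Agent.Work.MP_b30479_gt.G2.WLocF

/-!
# Windows of the rings with seven or more crossings next to a digit `1`

`rc7`, `rc8`: hinge next to a digit `1`, by the class behind it; `rd7`, `rd8`: the other hinge, by
the class there; `re7`, `re8`: rings at an end.
-/

namespace Pool.Agent.Work.MP_b30479_gt.G2

namespace SR

/-- hinges next to a digit `1`, 7 crossings -/
noncomputable def rc7 : Cl → R4
  | .one => mk4 2205 2760 1032 1410 800 1640 104 400 (-1240) (-640) 4070 3966
  | .two => mk4 2560 2930 1051 1348 1120 1689 127 379 (-1310) (-950) 4210 4083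
  | .twoE => mk4 2425 2545 1070 1337 1450 1788 115 338 (-1450) (-1320) 3870 3755
  | _ => mk4 0 4000 0 2500 (-10000) 10000 (-10000) 10000 (-10000) 10000 6500 10000

/-- the other hinges, 7 crossings -/
noncomputable def rd7 : Cl → R4
  | .two => mk4 1985 2510 1065 1330 560 1254 135 394 (-860) (-375) 3810 3675
  | .twoE => mk4 1705 1795 1089 1297 1245 1528 104 308 (-1220) (-1130) 3080 2976
  | .three => mk4 2030 2300 1112 1344 385 876 156 391 (-485) (-185) 3615 3459
  | .threeE => mk4 1840 1925 1133 1332 585 855 142 345 (-510) (-425) 3240 3098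
  | _ => mk4 0 4000 0 2500 (-10000) 10000 (-10000) 10000 (-10000) 10000 6500 10000

/-- ends, 7 crossings -/
noncomputable def re7 : Cl → R4
  | .one => mk4 2170 2780 1120 1474 731 1369 1 316 (-1235) (-575) 4063 4062
  | .two => mk4 2494 2920 1141 1400 1054 1454 12 264 (-1322) (-909) 4181 4169
  | .twoE => mk4 2291 2611 1119 1439 1329 1649 1 272 (-1537) (-1217) 3890 3889
  | _ => mk4 0 4000 0 2500 (-10000) 10000 (-10000) 10000 (-10000) 10000 6500 10000

/-- hinges next to a digit `1`, at least 8 crossings -/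
noncomputable def rc8 : Cl → R4
  | .one => mk4 2185 2770 0 1291 685 1710 0 360 (-1350) (-685) 3960 3960
  | .two => mk4 2545 2925 0 1201 1000 1796 0 346 (-1450) (-1000) 4080 4080
  | .twoE => mk4 2410 2550 0 1191 1365 1885 0 310 (-1575) (-1365) 3725 3725
  | _ => mk4 0 4000 0 2500 (-10000) 10000 (-10000) 10000 (-10000) 10000 6500 10000

/-- the other hinges, at least 8 crossings -/
noncomputable def rd8 : Cl → R4
  | .two => mk4 1975 2525 0 1250 400 1305 0 355 (-950) (-400) 3770 3770
  | .twoE => mk4 1695 1795 0 1250 1145 1577 0 277 (-1300) (-1145) 3030 3030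
  | .three => mk4 2025 2335 0 1250 205 907 0 352 (-555) (-205) 3560 3560
  | .threeE => mk4 1835 1945 0 1250 440 882 0 312 (-570) (-440) 3160 3160
  | _ => mk4 0 4000 0 2500 (-10000) 10000 (-10000) 10000 (-10000) 10000 6500 10000

/-- ends, at least 8 crossings -/
noncomputable def re8 : Cl → R4
  | .one => mk4 2185 2770 0 1250 685 1522 0 172 (-1350) (-685) 3960 3960
  | .two => mk4 2545 2925 0 1165 1000 1615 0 165 (-1450) (-1000) 4080 4080
  | .twoE => mk4 2410 2550 0 1154 1365 1704 0 129 (-1575) (-1365) 3725 3725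
  | _ => mk4 0 4000 0 2500 (-10000) 10000 (-10000) 10000 (-10000) 10000 6500 10000

variable {M : ℕ}

/-- **Windows of the other hinges of the rings with `n` crossings next to a digit `1`.** -/
def LocRd (n : ℕ) (r : Cl → R4) (b : Fin (M + 1) → ℤ) (zs : DD (tyW b) ⊕ ZZ (tyW b) → ℂ) : Prop :=
  ∀ {h h' : Fin M} {i j k : Fin (M + 1)} {p : Fin 3} (v : ZZ (tyW b)), v.1 = i →
    Adj h i p j → Adj h' i p.rev k → clsW b i = .ring → (b i).natAbs = n → clsW b j = .one →
    clsW b k ≠ .one → clsW b k ≠ .ring →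
    (r (clsW b k)).In (ofr (b i) (zs (.inl (.inl h')))) (ofz (b i) (zs (.inr v)))

/-- **Windows of the rings with at least `8` crossings next to a digit `1`.** -/
structure LocRc8 (q r e : Cl → R4) (b : Fin (M + 1) → ℤ)
    (zs : DD (tyW b) ⊕ ZZ (tyW b) → ℂ) : Prop where
  own : ∀ {h h' h2 : Fin M} {i j k g : Fin (M + 1)} {p : Fin 3} (v : ZZ (tyW b)), v.1 = i →
    Adj h i p j → Adj h2 j p g → Adj h' i p.rev k → clsW b i = .ring → 8 ≤ (b i).natAbs →
    clsW b j = .one →
    (q (clsW b g)).In (ofr (b i) (zs (.inl (.inl h)))) (ofz (b i) (zs (.inr v)))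
  par : ∀ {h h' : Fin M} {i j k : Fin (M + 1)} {p : Fin 3} (v : ZZ (tyW b)), v.1 = i →
    Adj h i p j → Adj h' i p.rev k → clsW b i = .ring → 8 ≤ (b i).natAbs → clsW b j = .one →
    clsW b k ≠ .one → clsW b k ≠ .ring →
    (r (clsW b k)).In (ofr (b i) (zs (.inl (.inl h')))) (ofz (b i) (zs (.inr v)))
  fin : ∀ {h h2 : Fin M} {i j g : Fin (M + 1)} {p : Fin 3} (v : ZZ (tyW b)), v.1 = i →
    Adj h i p j → Adj h2 j p g → isEnd i = true → clsW b i = .ring → 8 ≤ (b i).natAbs →
    clsW b j = .one →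
    (e (clsW b g)).In (ofr (b i) (zs (.inl (.inl h)))) (ofz (b i) (zs (.inr v)))

end SR

end Pool.Agent.Work.MP_b30479_gt.G2
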