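import Pool.Agent.Work.MP_b30479_gt.G2.WLocF

/-!
# Windows of the rings in the words `2 1 n 1 2`
-/

namespace Pool.Agent.Work.MP_b30479_gt.G2

namespace SR

/-- the hinges of a ring with four crossings between two digits `1` with a `2` behind each -/
noncomputable def rw4 : R4 := mk4 2640 2905 1570 1685 1320 1585 450 560 (-1070) (-815) 4535 4085

/-- the same for five crossings -/
noncomputable def rw5 : R4 := mk4 2620 2880 1370 1480 1285 1555 320 425 (-1170) (-915) 4315 3995

variable {M : ℕ}

/-- **Windows of the rings in the words `2 1 n 1 2`.** -/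
structure LocR2 (n : ℕ) (e : R4) (b : Fin (M + 1) → ℤ) (zs : DD (tyW b) ⊕ ZZ (tyW b) → ℂ) :
    Prop where
  two : ∀ {h h' h2 h3 : Fin M} {i j k g g' : Fin (M + 1)} {p : Fin 3} (v : ZZ (tyW b)), v.1 = i →
    Adj h i p j → Adj h2 j p g → Adj h' i p.rev k → Adj h3 k p.rev g' → clsW b i = .ring →
    (b i).natAbs = n → clsW b j = .one → clsW b k = .one → clsW b g = .two → clsW b g' = .two →
    e.In (ofr (b i) (zs (.inl (.inl h)))) (ofz (b i) (zs (.inr v)))

end SR

end Pool.Agent.Work.MP_b30479_gt.G2
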