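import Pool.Agent.Work.MP_b30479_gt.G2.RLvlB
import Pool.Agent.Work.MP_b30479_gt.G2.WLocC
import Pool.Agent.Work.MP_b30479_gt.G2.RHd
import Pool.Agent.Work.MP_b30479_gt.G2.RLvlA
import Pool.Agent.Work.MP_b30479_gt.G2.RWa
import Pool.Agent.Work.MP_b30479_gt.G2.WLocD
import Pool.Agent.Work.MP_b30479_gt.G2.WLocV
import Pool.Agent.Work.MP_b30479_gt.G2.WLocW

/-!
# Rings in a word: all facts about the location, data of the hinges
-/

namespace Pool.Agent.Work.MP_b30479_gt.G2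

open Finset VOL Filter Topology

namespace SR

variable {M : ℕ} {b : Fin (M + 1) → ℤ} {zs : DD (tyW b) ⊕ ZZ (tyW b) → ℂ}
variable {y : DD (tyW b) ⊕ ZZ (tyW b) → ℝ}
variable {h h' h2 h3 : Fin M} {i j k g g' : Fin (M + 1)} {p : Fin 3} {v : ZZ (tyW b)}

/-- all facts about the location of the saddle point at the rings -/
structure RFacts (b : Fin (M + 1) → ℤ) (zs : DD (tyW b) ⊕ ZZ (tyW b) → ℂ) : Prop where
  H : RLoc b zs
  H4 : LocR4 b zs
  w4 : LocRw 4 rq4 rp4 re4 b zs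
  w5 : LocRw 5 rq5 rp5 re5 b zs
  w6 : LocRw 6 rq6 rp6 re6 b zs
  k4 : LocRk 4 rk4 ka4 b zs
  k5 : LocRk 5 rk5 ka5 b zs
  h5 : LocRh 5 240 b zs
  d4 : LocR2 4 rw4 b zs
  d5 : LocR2 5 rw5 b zs
  c7 : LocRc 7 rc7 re7 b zs
  e7 : LocRd 7 rd7 b zs
  c8 : LocRc8 rc8 rd8 re8 b zs
  e2 : LocR2e rf4 rg4 b zs

/-- data of a hinge without exceptions -/
theorem RLoc.lo (H : RLoc b zs) (A : Adj h i p j) (hc : clsW b i = .ring) (hv : v.1 = i)
    (hj : clsW b j ≠ .one) (hE : clsW b j = .twoE → 5 ≤ (b i).natAbs) :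
    Lo (clsW b j) (zs (.inl (.inl h))).re (1 / 2 + ofs (b i) (zs (.inr v)).re)
      (ofs (b i) (zs (.inl (.inl h))).im) (zs (.inr v)).im := by
  obtain ⟨l, d⟩ := H.lv A hc hv hj hE
  exact ⟨A.hd_lo H.hb H.hL H.hR H.hG hc hv hj hE fun h4 => H.R4.rho v (by rw [hv]; exact h4), l, d⟩

/-- small height at the hinge of two rings -/
theorem RLoc.kz (H : RLoc b zs) (A : Adj h i p j) (hc : clsW b i = .ring)
    (h5 : 5 ≤ (b i).natAbs) (hj : clsW b j = .ring) :
    |ofs (b i) (zs (.inl (.inl h))).im| ≤ 47 / 1000 := by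
  have T5 := (H.hR.rr A hc hj).2 h5
  obtain ⟨-, -, t0, -⟩ := A.box H.hb H.hL
  rw [hc, hj] at t0
  have : -(385 / 10000) ≤ ofs (b i) (zs (.inl (.inl h))).im := by
    refine le_trans ?_ t0
    generalize ssW b h = e
    cases e <;> simp only [hbox] <;> norm_num
  rw [abs_le]
  constructor <;> linarith

theorem RLoc.rg (H : RLoc b zs) (A : Adj h i p j) (hc : clsW b i = .ring)
    (h5 : 5 ≤ (b i).natAbs) (hj : clsW b j = .ring) :
    Rg (ssW b h) (zs (.inl (.inl h))).re (ofs (b i) (zs (.inl (.inl h))).im) := by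
  have T5 := (H.hR.rr A hc hj).2 h5
  obtain ⟨x0, x1, t0, t1⟩ := A.box H.hb H.hL
  rw [hc, hj] at x0 x1 t0 t1
  generalize ssW b h = e at *
  cases e <;> simp only [hbox] at x0 x1 t0 t1 <;> refine ⟨?_, ?_, ?_, ?_⟩ <;> norm_num <;>
    linarith

/-- the class behind a digit `1` next to a ring -/
theorem cls_behind (hb : ClassW b) (A : Adj h i p j) (A2 : Adj h2 j p g) (hc : clsW b i = .ring)
    (hj : clsW b j = .one) : clsW b g = .one ∨ clsW b g = .two ∨ clsW b g = .twoE := by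
  have A2' : Adj h2 j p.rev.rev g := by rwa [Fin.rev_rev]
  rcases okp_of hb A.symm A2' hj with h0 | h0
  · rw [hc] at h0
    rcases h0 with h0 | h0 | h0 <;> exact absurd h0 (by decide)
  · exact h0

/-- `2 | 1 | 4 | k` -/
theorem RFacts.bd4 (F : RFacts b zs) (A : Adj h i p j) (A2 : Adj h2 j p g) (A' : Adj h' i p.rev k)
    (hc : clsW b i = .ring) (hv : v.1 = i) (hj : clsW b j = .one) (hg : clsW b g = .two)
    (h4 : (b i).natAbs = 4) (he : isEnd i = false) :
    Bd4 (clsW b k) (ssW b h') (zs (.inl (.inl h))).re (1 / 2 + ofs (b i) (zs (.inr v)).re)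
      (ofs (b i) (zs (.inl (.inl h))).im) (zs (.inr v)).im := by
  have A2' : Adj h2 j p.rev.rev g := by rwa [Fin.rev_rev]
  constructor
  · obtain ⟨-, x1, -, -⟩ := A.box F.H.hb F.H.hL
    rw [hc, hj] at x1
    simp only [hbox] at x1
    push_cast
    linarith
  · obtain ⟨W, hW, hI⟩ := F.H.hG.one v hv A.symm A2' hj (Or.inl h4)
    rw [h4, he, hg] at hW
    have := hI.c
    simp only [ofr_re, ofz_re] at this
    have m1 : W.c1 / 10000 ≤ 4826 / 10000 := by
      simp only [rw1, List.mem_cons, List.not_mem_nil, or_false] at hW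
      rcases hW with rfl | rfl | rfl | rfl <;> norm_num
    push_cast
    linarith
  · have := F.k4.kap v hv A A2 A' hc h4 hj hg
    simp only [ofr_re, ofr_im, ofz_im] at this
    exact this
  · intro _ _
    have := ((F.H.hG.kr v hv A.symm A2' hj h4 he).2 hg).1
    push_cast
    linarith

/-- `2 | 1 | 5 | k` -/
theorem RFacts.bd5 (F : RFacts b zs) (A : Adj h i p j) (A2 : Adj h2 j p g) (A' : Adj h' i p.rev k)
    (hc : clsW b i = .ring) (hv : v.1 = i) (hj : clsW b j = .one) (hg : clsW b g = .two)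
    (h5 : (b i).natAbs = 5) :
    Bd5 (clsW b k) (ssW b h') (zs (.inl (.inl h))).re (1 / 2 + ofs (b i) (zs (.inr v)).re)
      (ofs (b i) (zs (.inl (.inl h))).im) (zs (.inr v)).im := by
  constructor
  · have := F.k5.kap v hv A A2 A' hc h5 hj hg
    simp only [ofr_re, ofr_im, ofz_im] at this
    exact this
  · intro _
    have := F.h5 v hv A A2 A' hc h5 hj
    simp only [ofz_im] at this
    exact this
  · intro hk hs
    have := (F.k5.own v hv A A2 A' hc h5 hj hg).adj A hv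
    rw [hk, hs] at this
    exact this

end SR

end Pool.Agent.Work.MP_b30479_gt.G2
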