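import Pool.Agent.Work.MP_b30479_gt.G2.RGp4a
import Pool.Agent.Work.MP_b30479_gt.G2.RLvlA
import Pool.Agent.Work.MP_b30479_gt.G2.WLocV

/-!
# Rings on the level part: the pairs of hinges by class
-/

namespace Pool.Agent.Work.MP_b30479_gt.G2

open Finset VOL Filter Topology

namespace SR

/-- **A ring between a digit `1` and a class `k`, the pair of hinges.** -/
theorem pm4a {xs ys T ρ xs' T' : ℝ} {k : Cl} {s : Bool}
    (hk : k ≠ .one)
    (q : (rq4 .one k s).Re xs ys T ρ)
    (r : (rp4 .one k s).Re xs' ys T' ρ)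
    (D : k ≠ .twoE → Lo k xs' ys T' ρ)
    (hx : xs' ∈ Set.Icc (fcl k) (fcp k)) :
    PrS 4 .one k xs ys T ρ xs' T' := by
  cases k
  · exact absurd rfl hk
  · have q0 : (mk4 2267 2772 1646 1879 1066 1555 491 726 (-991) (-443) 4530 4039).Re xs ys T ρ := q
    have r0 : (mk4 1997 2512 1646 1879 822 1238 491 726 (-649) (-187) 4262 3771).Re xs' ys T' ρ := r
    have O := q0.oneB RC.Row.cH4a (by decide)
    have I : RC.o4a2.In T ρ xs ys := wd4_in q0 (by decide)
    have J : RC.p4a2.In T' ρ xs' ys := wd4_in r0 (by decide)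
    obtain ⟨H, l, d⟩ := D (by decide)
    exact ⟨_, _, Or.inl rfl, Or.inl rfl, RC.pr4a2 O I H l d J hx⟩
  · have q0 : (mk4 2251 2708 1714 1896 986 1440 400 581 (-977) (-465) 4481 4081).Re xs ys T ρ := q
    have r0 : (mk4 1707 1844 1714 1896 1418 1593 400 581 (-1091) (-951) 3676 3276).Re xs' ys T' ρ := r
    have O := q0.oneB RC.Row.cH4a (by decide)
    have I : RC.o4a2e.In T ρ xs ys := wd4_in q0 (by decide)
    have J : RC.p4a2e.In T' ρ xs' ys := wd4_in r0 (by decide)
    have G := r0.gd (by decide)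
    have U := r0.up G RC.Row.cU4 (by decide)
    exact ⟨_, _, Or.inl rfl, Or.inr ⟨rfl, rfl, rfl⟩,
      RC.pr4a2e O I G U J hx⟩
  · have q0 : (mk4 2304 2772 1698 1908 1100 1562 543 748 (-959) (-427) 4556 4013).Re xs ys T ρ := q
    have r0 : (mk4 2011 2285 1698 1908 666 973 543 748 (-331) (-33) 4094 3551).Re xs' ys T' ρ := r
    have O := q0.oneB RC.Row.cH4a (by decide)
    have I : RC.o4a3.In T ρ xs ys := wd4_in q0 (by decide)
    have J : RC.p4a3.In T' ρ xs' ys := wd4_in r0 (by decide)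
    obtain ⟨H, l, d⟩ := D (by decide)
    exact ⟨_, _, Or.inl rfl, Or.inl rfl, RC.pr4a3 O I H l d J hx⟩
  · have q0 : (mk4 2284 2745 1750 1933 1056 1507 502 687 (-944) (-429) 4555 4053).Re xs ys T ρ := q
    have r0 : (mk4 1799 1933 1750 1933 822 997 502 687 (-390) (-249) 3801 3299).Re xs' ys T' ρ := r
    have O := q0.oneB RC.Row.cH4a (by decide)
    have I : RC.o4a3e.In T ρ xs ys := wd4_in q0 (by decide)
    have J : RC.p4a3e.In T' ρ xs' ys := wd4_in r0 (by decide)
    obtain ⟨H, l, d⟩ := D (by decide)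
    exact ⟨_, _, Or.inl rfl, Or.inl rfl, RC.pr4a3e O I H l d J hx⟩
  · cases s
    · have q0 : (mk4 2306 2811 1727 1940 1102 1609 561 838 (-940) (-408) 4607 4046).Re xs ys T ρ := q
      have r0 : (mk4 1920 2337 1727 1950 429 838 561 838 (-169) 302 4181 3620).Re xs' ys T' ρ := r
      have O := q0.oneB RC.Row.cH4a (by decide)
      have I : RC.o4aZ.In T ρ xs ys := wd4_in q0 (by decide)
      have J : RC.p4aZ.In T' ρ xs' ys := wd4_in r0 (by decide)
      obtain ⟨H, l, d⟩ := D (by decide)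
      exact ⟨_, _, Or.inl rfl, Or.inl rfl, RC.pr4aZ O I H l d J hx⟩
    · have q0 : (mk4 2326 2816 1736 2016 1117 1609 612 848 (-930) (-367) 4687 4075).Re xs ys T ρ := q
      have r0 : (mk4 1800 2336 1736 2016 210 594 612 848 154 531 4180 3568).Re xs' ys T' ρ := r
      have O := q0.oneB RC.Row.cH4a (by decide)
      have I : RC.o4aZs.In T ρ xs ys := wd4_in q0 (by decide)
      have J : RC.p4aZs.In T' ρ xs' ys := wd4_in r0 (by decide)
      obtain ⟨H, l, d⟩ := D (by decide)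
      exact ⟨_, _, Or.inl rfl, Or.inl rfl, RC.pr4aZs O I H l d J hx⟩

end SR

end Pool.Agent.Work.MP_b30479_gt.G2
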