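import Pool.Agent.Work.MP_b30479_gt.G2.RGm06
import Pool.Agent.Work.MP_b30479_gt.G2.RGm07
import Pool.Agent.Work.MP_b30479_gt.G2.RGm08
import Pool.Agent.Work.MP_b30479_gt.G2.RGm09
import Pool.Agent.Work.MP_b30479_gt.G2.RGm10
import Pool.Agent.Work.MP_b30479_gt.G2.RGm11
import Pool.Agent.Work.MP_b30479_gt.G2.RGm12
import Pool.Agent.Work.MP_b30479_gt.G2.RGm13
import Pool.Agent.Work.MP_b30479_gt.G2.RGm14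
import Pool.Agent.Work.MP_b30479_gt.G2.RGm15
import Pool.Agent.Work.MP_b30479_gt.G2.RGm16
import Pool.Agent.Work.MP_b30479_gt.G2.RGm17
import Pool.Agent.Work.MP_b30479_gt.G2.RLvl7

/-!
# Rings on the level part: pairs of hinges
-/

namespace Pool.Agent.Work.MP_b30479_gt.G2

open Real Set

namespace RC

open R6

theorem pr4b2 {xs ys T ρ xs' T' : ℝ} (O : OneB xs ys T ρ) (I : o4b2.In T ρ xs ys)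
    (H : HD xs' ys T' ρ (125 / 1000) (30 / 100)) (l : LH xs' ys T' ρ (125 / 1000) (30 / 100))
    (d : DnG xs' T' (125 / 1000) (30 / 100) ys ρ) (I' : p4b2.In T' ρ xs' ys)
    (hx' : xs' ∈ Icc (125 / 1000) (30 / 100)) :
    Pr ys ρ xs T (16 / 100) (36 / 100) (fun m => 38 / 100 * m) (fun _ => 0) xs' T' (125 / 1000) (30 / 100)
      (fun _ => 0) (fun _ => 0) :=
  Pr.of (tab := [⟨2500, 2600, 0, 0, 50, 150, 100⟩, ⟨2600, 2700, 0, 0, 0, 0, 0⟩, ⟨2700, 2800, 0, 0, 0, 0, 0⟩, ⟨2800, 2900, 0, 0, 0, 0, 0⟩, ⟨2900, 3000, 0, 0, 0, 0, 0⟩, ⟨3000, 5000, 0, 0, 0, 0, 0⟩])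
    (tab' := [⟨2500, 2600, 115, 30, 0, 0, 0⟩, ⟨2600, 2700, 115, 40, 0, 0, 0⟩, ⟨2700, 2800, 115, 50, 0, 0, 0⟩, ⟨2800, 2900, 115, 65, 0, 0, 0⟩, ⟨2900, 3000, 130, 65, 0, 0, 0⟩, ⟨3000, 5000, 0, 0, 0, 0, 0⟩])
    (O.LF I o4b2_Wa o4b2_Wb hf38) (l.toF hz0 hz0 (by norm_num) (by norm_num))
    (I.dt O.GD (fun _ => O.HD) o4b2_Dp2500_0_0_50 o4b2_Dm2500_0_0_0 rfl hf38 hf0
      (I.dt O.GD (fun _ => O.HD) o4b2_Dp2600_0_0_0 o4b2_Dm2600_0_0_0 rfl hf38 hf0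
      (I.dt O.GD (fun _ => O.HD) o4b2_Dp2700_0_0_0 o4b2_Dm2700_0_0_0 rfl hf38 hf0
      (I.dt O.GD (fun _ => O.HD) o4b2_Dp2800_0_0_0 o4b2_Dm2800_0_0_0 rfl hf38 hf0
      (I.dt O.GD (fun _ => O.HD) o4b2_Dp2900_0_0_0 o4b2_Dm2900_0_0_0 rfl hf38 hf0
      (I.dt0 O.GD (fun _ => O.HD) o4b2_Qp3000_0_0_0 o4b2_Qm3000_0_0_0 rfl DT.nil A16 B36) A16 B36) A16 B36) A16 B36) A16 B36) A16 B36)
    (d.qe I' H.toGD p4b2_Ep2500_0_0_50 p4b2_Em2500_0_0_50 rfl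
      (d.qt (d.qt (d.qt (d.qt (d.qt QT.nil))))) A12 B30)
    (I'.dt H.toGD (fun _ => H) p4b2_Dp2500_115_30_0 p4b2_Dm2500_115_30_0 rfl hf0 hf0
      (I'.dt H.toGD (fun _ => H) p4b2_Dp2600_115_40_0 p4b2_Dm2600_115_40_0 rfl hf0 hf0
      (I'.dt H.toGD (fun _ => H) p4b2_Dp2700_115_50_0 p4b2_Dm2700_115_50_0 rfl hf0 hf0
      (I'.dt H.toGD (fun _ => H) p4b2_Dp2800_115_65_0 p4b2_Dm2800_115_65_0 rfl hf0 hf0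
      (I'.dt H.toGD (fun _ => H) p4b2_Dp2900_130_65_0 p4b2_Dm2900_130_65_0 rfl hf0 hf0
      (d.dt H.toGD DT.nil) A12 B30) A12 B30) A12 B30) A12 B30) A12 B30)
    (I.qt O.GD (fun _ => O.HD) o4b2_Qp2500_115_30_0 o4b2_Qm2500_115_30_0 rfl
      (I.qt O.GD (fun _ => O.HD) o4b2_Qp2600_115_40_0 o4b2_Qm2600_115_40_0 rfl
      (I.qt O.GD (fun _ => O.HD) o4b2_Qp2700_115_50_0 o4b2_Qm2700_115_50_0 rfl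
      (I.qt O.GD (fun _ => O.HD) o4b2_Qp2800_115_65_0 o4b2_Qm2800_115_65_0 rfl
      (I.qt O.GD (fun _ => O.HD) o4b2_Qp2900_130_65_0 o4b2_Qm2900_130_65_0 rfl
      (I.qt O.GD (fun _ => O.HD) o4b2_Qp3000_0_0_0 o4b2_Qm3000_0_0_0 rfl QT.nil A16 B36) A16 B36) A16 B36) A16 B36) A16 B36) A16 B36)
    (by decide) (by decide) O.hys O.hxs hx'

theorem pr4b2e {xs ys T ρ xs' T' : ℝ} (O : OneB xs ys T ρ) (I : o4b2e.In T ρ xs ys)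
    (G : GD xs' ys (125 / 1000) (30 / 100))
    (hU : ∀ x y, x ∈ Icc (125 / 1000 : ℝ) (30 / 100) → ys < y → y ≤ 1 / 2 →
      |gh x - gh xs'| < gh y - gh ys → Dx x y T' ρ < Dx xs' ys T' ρ)
    (I' : p4b2e.In T' ρ xs' ys) (hx' : xs' ∈ Icc (125 / 1000) (30 / 100)) :
    Pr ys ρ xs T (16 / 100) (36 / 100) (fun m => 38 / 100 * m) (fun _ => 0) xs' T' (125 / 1000) (30 / 100)
      (fun _ => 0) (fun m => 1 / 2 * m) :=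
  Pr.of (tab := [⟨2500, 2600, 30, 50, 50, 150, 100⟩, ⟨2600, 2700, 30, 50, 0, 0, 0⟩, ⟨2700, 2800, 30, 50, 0, 0, 0⟩, ⟨2800, 3000, 30, 20, 0, 0, 0⟩, ⟨3000, 5000, 30, 20, 0, 0, 0⟩])
    (tab' := [⟨2500, 2600, 115, 40, 0, 0, 0⟩, ⟨2600, 2700, 115, 30, 0, 0, 0⟩, ⟨2700, 2800, 90, 20, 0, 0, 0⟩, ⟨2800, 3000, 160, 50, 0, 0, 0⟩, ⟨3000, 5000, 0, 0, 0, 0, 0⟩])
    (O.LF I o4b2e_Wa o4b2e_Wb hf38) (I'.LF0 G hU p4b2e_Wp p4b2e_Wm hf0 hf50 A12 B30)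
    (I.dt O.GD (fun _ => O.HD) o4b2e_Dp2500_30_50_50 o4b2e_Dm2500_30_50_0 rfl hf38 hf0
      (I.dt O.GD (fun _ => O.HD) o4b2e_Dp2600_30_50_0 o4b2e_Dm2600_30_50_0 rfl hf38 hf0
      (I.dt O.GD (fun _ => O.HD) o4b2e_Dp2700_30_50_0 o4b2e_Dm2700_30_50_0 rfl hf38 hf0
      (I.dt O.GD (fun _ => O.HD) o4b2e_Dp2800_30_20_0 o4b2e_Dm2800_30_20_0 rfl hf38 hf0
      (I.dt O.GD (fun _ => O.HD) o4b2e_Dp3000_30_20_0 o4b2e_Dm3000_30_20_0 rfl hf38 hf0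
      DT.nil A16 B36) A16 B36) A16 B36) A16 B36) A16 B36)
    (I'.qe G (fun h => absurd rfl h) p4b2e_Qp2500_30_50_0 p4b2e_Qm2500_30_50_0 p4b2e_Ep2500_30_50_50 p4b2e_Em2500_30_50_50 rfl
      (I'.qt G (fun h => absurd rfl h) p4b2e_Qp2600_30_50_0 p4b2e_Qm2600_30_50_0 rfl
      (I'.qt G (fun h => absurd rfl h) p4b2e_Qp2700_30_50_0 p4b2e_Qm2700_30_50_0 rfl
      (I'.qt G (fun h => absurd rfl h) p4b2e_Qp2800_30_20_0 p4b2e_Qm2800_30_20_0 rfl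
      (I'.qt G (fun h => absurd rfl h) p4b2e_Qp3000_30_20_0 p4b2e_Qm3000_30_20_0 rfl
      QT.nil A12 B30) A12 B30) A12 B30) A12 B30) A12 B30)
    (I'.dt G (fun h => absurd rfl h) p4b2e_Dp2500_115_40_0 p4b2e_Dm2500_115_40_0 rfl hf0 hf50
      (I'.dt G (fun h => absurd rfl h) p4b2e_Dp2600_115_30_0 p4b2e_Dm2600_115_30_0 rfl hf0 hf50
      (I'.dt G (fun h => absurd rfl h) p4b2e_Dp2700_90_20_0 p4b2e_Dm2700_90_20_0 rfl hf0 hf50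
      (I'.dt G (fun h => absurd rfl h) p4b2e_Dp2800_160_50_0 p4b2e_Dm2800_160_50_0 rfl hf0 hf50
      (I'.dt G (fun h => absurd rfl h) p4b2e_Dp3000_0_0_0 p4b2e_Dm3000_0_0_0 rfl hf0 hf50 DT.nil A12 B30) A12 B30) A12 B30) A12 B30) A12 B30)
    (I.qt O.GD (fun _ => O.HD) o4b2e_Qp2500_115_40_0 o4b2e_Qm2500_115_40_0 rfl
      (I.qt O.GD (fun _ => O.HD) o4b2e_Qp2600_115_30_0 o4b2e_Qm2600_115_30_0 rfl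
      (I.qt O.GD (fun _ => O.HD) o4b2e_Qp2700_90_20_0 o4b2e_Qm2700_90_20_0 rfl
      (I.qt O.GD (fun _ => O.HD) o4b2e_Qp2800_160_50_0 o4b2e_Qm2800_160_50_0 rfl
      (I.qt O.GD (fun _ => O.HD) o4b2e_Qp3000_0_0_0 o4b2e_Qm3000_0_0_0 rfl QT.nil A16 B36) A16 B36) A16 B36) A16 B36) A16 B36)
    (by decide) (by decide) O.hys O.hxs hx'

theorem pr4b3 {xs ys T ρ xs' T' : ℝ} (O : OneB xs ys T ρ) (I : o4b3.In T ρ xs ys)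
    (H : HD xs' ys T' ρ (12 / 100) (30 / 100)) (l : LH xs' ys T' ρ (12 / 100) (30 / 100))
    (d : DnG xs' T' (12 / 100) (30 / 100) ys ρ) (I' : p4b3.In T' ρ xs' ys)
    (hx' : xs' ∈ Icc (12 / 100) (30 / 100)) :
    Pr ys ρ xs T (16 / 100) (36 / 100) (fun m => 38 / 100 * m) (fun _ => 0) xs' T' (12 / 100) (30 / 100)
      (fun _ => 0) (fun _ => 0) :=
  Pr.of (tab := [⟨2500, 2600, 0, 0, 80, 150, 100⟩, ⟨2600, 2700, 0, 0, 0, 0, 0⟩, ⟨2700, 2800, 0, 0, 0, 0, 0⟩, ⟨2800, 2900, 0, 0, 0, 0, 0⟩, ⟨2900, 3000, 0, 0, 0, 0, 0⟩, ⟨3000, 5000, 0, 0, 0, 0, 0⟩])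
    (tab' := [⟨2500, 2600, 115, 25, 0, 0, 0⟩, ⟨2600, 2700, 130, 40, 0, 0, 0⟩, ⟨2700, 2800, 130, 50, 0, 0, 0⟩, ⟨2800, 2900, 130, 50, 0, 0, 0⟩, ⟨2900, 3000, 160, 65, 0, 0, 0⟩, ⟨3000, 5000, 0, 0, 0, 0, 0⟩])
    (O.LF I o4b3_Wa o4b3_Wb hf38) (l.toF hz0 hz0 (by norm_num) (by norm_num))
    (I.dt O.GD (fun _ => O.HD) o4b3_Dp2500_0_0_80 o4b3_Dm2500_0_0_0 rfl hf38 hf0
      (I.dt O.GD (fun _ => O.HD) o4b3_Dp2600_0_0_0 o4b3_Dm2600_0_0_0 rfl hf38 hf0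
      (I.dt O.GD (fun _ => O.HD) o4b3_Dp2700_0_0_0 o4b3_Dm2700_0_0_0 rfl hf38 hf0
      (I.dt O.GD (fun _ => O.HD) o4b3_Dp2800_0_0_0 o4b3_Dm2800_0_0_0 rfl hf38 hf0
      (I.dt O.GD (fun _ => O.HD) o4b3_Dp2900_0_0_0 o4b3_Dm2900_0_0_0 rfl hf38 hf0
      (I.dt0 O.GD (fun _ => O.HD) o4b3_Qp3000_0_0_0 o4b3_Qm3000_0_0_0 rfl DT.nil A16 B36) A16 B36) A16 B36) A16 B36) A16 B36) A16 B36)
    (d.qe I' H.toGD p4b3_Ep2500_0_0_80 p4b3_Em2500_0_0_80 rfl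
      (d.qt (d.qt (d.qt (d.qt (d.qt QT.nil))))) A120 B30)
    (I'.dt H.toGD (fun _ => H) p4b3_Dp2500_115_25_0 p4b3_Dm2500_115_25_0 rfl hf0 hf0
      (I'.dt H.toGD (fun _ => H) p4b3_Dp2600_130_40_0 p4b3_Dm2600_130_40_0 rfl hf0 hf0
      (I'.dt H.toGD (fun _ => H) p4b3_Dp2700_130_50_0 p4b3_Dm2700_130_50_0 rfl hf0 hf0
      (I'.dt H.toGD (fun _ => H) p4b3_Dp2800_130_50_0 p4b3_Dm2800_130_50_0 rfl hf0 hf0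
      (I'.dt H.toGD (fun _ => H) p4b3_Dp2900_160_65_0 p4b3_Dm2900_160_65_0 rfl hf0 hf0
      (d.dt H.toGD DT.nil) A120 B30) A120 B30) A120 B30) A120 B30) A120 B30)
    (I.qt O.GD (fun _ => O.HD) o4b3_Qp2500_115_25_0 o4b3_Qm2500_115_25_0 rfl
      (I.qt O.GD (fun _ => O.HD) o4b3_Qp2600_130_40_0 o4b3_Qm2600_130_40_0 rfl
      (I.qt O.GD (fun _ => O.HD) o4b3_Qp2700_130_50_0 o4b3_Qm2700_130_50_0 rfl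
      (I.qt O.GD (fun _ => O.HD) o4b3_Qp2800_130_50_0 o4b3_Qm2800_130_50_0 rfl
      (I.qt O.GD (fun _ => O.HD) o4b3_Qp2900_160_65_0 o4b3_Qm2900_160_65_0 rfl
      (I.qt O.GD (fun _ => O.HD) o4b3_Qp3000_0_0_0 o4b3_Qm3000_0_0_0 rfl QT.nil A16 B36) A16 B36) A16 B36) A16 B36) A16 B36) A16 B36)
    (by decide) (by decide) O.hys O.hxs hx'

theorem pr4b3e {xs ys T ρ xs' T' : ℝ} (O : OneB xs ys T ρ) (I : o4b3e.In T ρ xs ys)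
    (H : HD xs' ys T' ρ (10 / 100) (26 / 100)) (l : LH xs' ys T' ρ (10 / 100) (26 / 100))
    (d : DnG xs' T' (10 / 100) (26 / 100) ys ρ) (I' : p4b3e.In T' ρ xs' ys)
    (hx' : xs' ∈ Icc (10 / 100) (26 / 100)) :
    Pr ys ρ xs T (16 / 100) (36 / 100) (fun m => 38 / 100 * m) (fun _ => 0) xs' T' (10 / 100) (26 / 100)
      (fun _ => 0) (fun _ => 0) :=
  Pr.of (tab := [⟨2500, 2600, 0, 0, 80, 150, 100⟩, ⟨2600, 2700, 0, 0, 0, 0, 0⟩, ⟨2700, 2800, 0, 0, 0, 0, 0⟩, ⟨2800, 2900, 0, 0, 0, 0, 0⟩, ⟨2900, 3000, 0, 0, 0, 0, 0⟩, ⟨3000, 5000, 0, 0, 0, 0, 0⟩])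
    (tab' := [⟨2500, 2600, 115, 25, 0, 0, 0⟩, ⟨2600, 2700, 130, 40, 0, 0, 0⟩, ⟨2700, 2800, 160, 50, 0, 0, 0⟩, ⟨2800, 2900, 160, 50, 0, 0, 0⟩, ⟨2900, 3000, 160, 65, 0, 0, 0⟩, ⟨3000, 5000, 0, 0, 0, 0, 0⟩])
    (O.LF I o4b3e_Wa o4b3e_Wb hf38) (l.toF hz0 hz0 (by norm_num) (by norm_num))
    (I.dt O.GD (fun _ => O.HD) o4b3e_Dp2500_0_0_80 o4b3e_Dm2500_0_0_0 rfl hf38 hf0
      (I.dt O.GD (fun _ => O.HD) o4b3e_Dp2600_0_0_0 o4b3e_Dm2600_0_0_0 rfl hf38 hf0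
      (I.dt O.GD (fun _ => O.HD) o4b3e_Dp2700_0_0_0 o4b3e_Dm2700_0_0_0 rfl hf38 hf0
      (I.dt O.GD (fun _ => O.HD) o4b3e_Dp2800_0_0_0 o4b3e_Dm2800_0_0_0 rfl hf38 hf0
      (I.dt O.GD (fun _ => O.HD) o4b3e_Dp2900_0_0_0 o4b3e_Dm2900_0_0_0 rfl hf38 hf0
      (I.dt0 O.GD (fun _ => O.HD) o4b3e_Qp3000_0_0_0 o4b3e_Qm3000_0_0_0 rfl DT.nil A16 B36) A16 B36) A16 B36) A16 B36) A16 B36) A16 B36)
    (d.qe I' H.toGD p4b3e_Ep2500_0_0_80 p4b3e_Em2500_0_0_80 rfl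
      (d.qt (d.qt (d.qt (d.qt (d.qt QT.nil))))) A10 B26)
    (I'.dt H.toGD (fun _ => H) p4b3e_Dp2500_115_25_0 p4b3e_Dm2500_115_25_0 rfl hf0 hf0
      (I'.dt H.toGD (fun _ => H) p4b3e_Dp2600_130_40_0 p4b3e_Dm2600_130_40_0 rfl hf0 hf0
      (I'.dt H.toGD (fun _ => H) p4b3e_Dp2700_160_50_0 p4b3e_Dm2700_160_50_0 rfl hf0 hf0
      (I'.dt H.toGD (fun _ => H) p4b3e_Dp2800_160_50_0 p4b3e_Dm2800_160_50_0 rfl hf0 hf0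
      (I'.dt H.toGD (fun _ => H) p4b3e_Dp2900_160_65_0 p4b3e_Dm2900_160_65_0 rfl hf0 hf0
      (d.dt H.toGD DT.nil) A10 B26) A10 B26) A10 B26) A10 B26) A10 B26)
    (I.qt O.GD (fun _ => O.HD) o4b3e_Qp2500_115_25_0 o4b3e_Qm2500_115_25_0 rfl
      (I.qt O.GD (fun _ => O.HD) o4b3e_Qp2600_130_40_0 o4b3e_Qm2600_130_40_0 rfl
      (I.qt O.GD (fun _ => O.HD) o4b3e_Qp2700_160_50_0 o4b3e_Qm2700_160_50_0 rfl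
      (I.qt O.GD (fun _ => O.HD) o4b3e_Qp2800_160_50_0 o4b3e_Qm2800_160_50_0 rfl
      (I.qt O.GD (fun _ => O.HD) o4b3e_Qp2900_160_65_0 o4b3e_Qm2900_160_65_0 rfl
      (I.qt O.GD (fun _ => O.HD) o4b3e_Qp3000_0_0_0 o4b3e_Qm3000_0_0_0 rfl QT.nil A16 B36) A16 B36) A16 B36) A16 B36) A16 B36) A16 B36)
    (by decide) (by decide) O.hys O.hxs hx'

theorem pr4bZ {xs ys T ρ xs' T' : ℝ} (O : OneB xs ys T ρ) (I : o4bZ.In T ρ xs ys)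
    (H : HD xs' ys T' ρ (10 / 100) (27 / 100)) (l : LH xs' ys T' ρ (10 / 100) (27 / 100))
    (d : DnG xs' T' (10 / 100) (27 / 100) ys ρ) (I' : p4bZ.In T' ρ xs' ys)
    (hx' : xs' ∈ Icc (10 / 100) (27 / 100)) :
    Pr ys ρ xs T (16 / 100) (36 / 100) (fun m => 38 / 100 * m) (fun _ => 0) xs' T' (10 / 100) (27 / 100)
      (fun _ => 0) (fun _ => 0) :=
  Pr.of (tab := [⟨2500, 2600, 0, 0, 80, 150, 100⟩, ⟨2600, 2700, 0, 0, 50, 150, 100⟩, ⟨2700, 2800, 0, 0, 0, 0, 0⟩, ⟨2800, 2900, 0, 0, 0, 0, 0⟩, ⟨2900, 3000, 0, 0, 0, 0, 0⟩, ⟨3000, 3200, 0, 0, 0, 0, 0⟩, ⟨3200, 5000, 0, 0, 0, 0, 0⟩])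
    (tab' := [⟨2500, 2600, 90, 0, 0, 0, 0⟩, ⟨2600, 2700, 115, 30, 0, 0, 0⟩, ⟨2700, 2800, 90, 30, 0, 0, 0⟩, ⟨2800, 2900, 90, 40, 0, 0, 0⟩, ⟨2900, 3000, 100, 50, 0, 0, 0⟩, ⟨3000, 3200, 160, 65, 0, 0, 0⟩, ⟨3200, 5000, 0, 0, 0, 0, 0⟩])
    (O.LF I o4bZ_Wa o4bZ_Wb hf38) (l.toF hz0 hz0 (by norm_num) (by norm_num))
    (I.dt O.GD (fun _ => O.HD) o4bZ_Dp2500_0_0_80 o4bZ_Dm2500_0_0_0 rfl hf38 hf0
      (I.dt O.GD (fun _ => O.HD) o4bZ_Dp2600_0_0_50 o4bZ_Dm2600_0_0_0 rfl hf38 hf0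
      (I.dt O.GD (fun _ => O.HD) o4bZ_Dp2700_0_0_0 o4bZ_Dm2700_0_0_0 rfl hf38 hf0
      (I.dt O.GD (fun _ => O.HD) o4bZ_Dp2800_0_0_0 o4bZ_Dm2800_0_0_0 rfl hf38 hf0
      (I.dt O.GD (fun _ => O.HD) o4bZ_Dp2900_0_0_0 o4bZ_Dm2900_0_0_0 rfl hf38 hf0
      (I.dt O.GD (fun _ => O.HD) o4bZ_Dp3000_0_0_0 o4bZ_Dm3000_0_0_0 rfl hf38 hf0
      (I.dt0 O.GD (fun _ => O.HD) o4bZ_Qp3200_0_0_0 o4bZ_Qm3200_0_0_0 rfl DT.nil A16 B36) A16 B36) A16 B36) A16 B36) A16 B36) A16 B36) A16 B36)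
    (d.qe I' H.toGD p4bZ_Ep2500_0_0_80 p4bZ_Em2500_0_0_80 rfl
      (d.qe I' H.toGD p4bZ_Ep2600_0_0_50 p4bZ_Em2600_0_0_50 rfl
      (d.qt (d.qt (d.qt (d.qt (d.qt QT.nil))))) A10 B27) A10 B27)
    (I'.dt H.toGD (fun _ => H) p4bZ_Dp2500_90_0_0 p4bZ_Dm2500_90_0_0 rfl hf0 hf0
      (I'.dt H.toGD (fun _ => H) p4bZ_Dp2600_115_30_0 p4bZ_Dm2600_115_30_0 rfl hf0 hf0
      (I'.dt H.toGD (fun _ => H) p4bZ_Dp2700_90_30_0 p4bZ_Dm2700_90_30_0 rfl hf0 hf0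
      (I'.dt H.toGD (fun _ => H) p4bZ_Dp2800_90_40_0 p4bZ_Dm2800_90_40_0 rfl hf0 hf0
      (I'.dt H.toGD (fun _ => H) p4bZ_Dp2900_100_50_0 p4bZ_Dm2900_100_50_0 rfl hf0 hf0
      (I'.dt H.toGD (fun _ => H) p4bZ_Dp3000_160_65_0 p4bZ_Dm3000_160_65_0 rfl hf0 hf0
      (d.dt H.toGD DT.nil) A10 B27) A10 B27) A10 B27) A10 B27) A10 B27) A10 B27)
    (I.qt O.GD (fun _ => O.HD) o4bZ_Qp2500_90_0_0 o4bZ_Qm2500_90_0_0 rfl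
      (I.qt O.GD (fun _ => O.HD) o4bZ_Qp2600_115_30_0 o4bZ_Qm2600_115_30_0 rfl
      (I.qt O.GD (fun _ => O.HD) o4bZ_Qp2700_90_30_0 o4bZ_Qm2700_90_30_0 rfl
      (I.qt O.GD (fun _ => O.HD) o4bZ_Qp2800_90_40_0 o4bZ_Qm2800_90_40_0 rfl
      (I.qt O.GD (fun _ => O.HD) o4bZ_Qp2900_100_50_0 o4bZ_Qm2900_100_50_0 rfl
      (I.qt O.GD (fun _ => O.HD) o4bZ_Qp3000_160_65_0 o4bZ_Qm3000_160_65_0 rfl
      (I.qt O.GD (fun _ => O.HD) o4bZ_Qp3200_0_0_0 o4bZ_Qm3200_0_0_0 rfl QT.nil A16 B36) A16 B36) A16 B36) A16 B36) A16 B36) A16 B36) A16 B36)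
    (by decide) (by decide) O.hys O.hxs hx'

theorem pr4bZs {xs ys T ρ xs' T' : ℝ} (O : OneB xs ys T ρ) (I : o4bZs.In T ρ xs ys)
    (H : HD xs' ys T' ρ (10 / 100) (27 / 100)) (l : LH xs' ys T' ρ (10 / 100) (27 / 100))
    (d : DnG xs' T' (10 / 100) (27 / 100) ys ρ) (I' : p4bZs.In T' ρ xs' ys)
    (hx' : xs' ∈ Icc (10 / 100) (27 / 100)) :
    Pr ys ρ xs T (16 / 100) (36 / 100) (fun m => 38 / 100 * m) (fun _ => 0) xs' T' (10 / 100) (27 / 100)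
      (fun _ => 0) (fun _ => 0) :=
  Pr.of (tab := [⟨2500, 2600, 0, 0, 80, 150, 100⟩, ⟨2600, 2700, 0, 0, 50, 150, 100⟩, ⟨2700, 2800, 0, 0, 0, 0, 0⟩, ⟨2800, 2900, 0, 0, 0, 0, 0⟩, ⟨2900, 3000, 0, 0, 0, 0, 0⟩, ⟨3000, 5000, 0, 0, 0, 0, 0⟩])
    (tab' := [⟨2500, 2600, 100, 0, 0, 0, 0⟩, ⟨2600, 2700, 100, 20, 0, 0, 0⟩, ⟨2700, 2800, 100, 30, 0, 0, 0⟩, ⟨2800, 2900, 90, 30, 0, 0, 0⟩, ⟨2900, 3000, 90, 40, 0, 0, 0⟩, ⟨3000, 5000, 0, 0, 0, 0, 0⟩])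
    (O.LF I o4bZs_Wa o4bZs_Wb hf38) (l.toF hz0 hz0 (by norm_num) (by norm_num))
    (I.dt O.GD (fun _ => O.HD) o4bZs_Dp2500_0_0_80 o4bZs_Dm2500_0_0_0 rfl hf38 hf0
      (I.dt O.GD (fun _ => O.HD) o4bZs_Dp2600_0_0_50 o4bZs_Dm2600_0_0_0 rfl hf38 hf0
      (I.dt O.GD (fun _ => O.HD) o4bZs_Dp2700_0_0_0 o4bZs_Dm2700_0_0_0 rfl hf38 hf0
      (I.dt O.GD (fun _ => O.HD) o4bZs_Dp2800_0_0_0 o4bZs_Dm2800_0_0_0 rfl hf38 hf0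
      (I.dt O.GD (fun _ => O.HD) o4bZs_Dp2900_0_0_0 o4bZs_Dm2900_0_0_0 rfl hf38 hf0
      (I.dt0 O.GD (fun _ => O.HD) o4bZs_Qp3000_0_0_0 o4bZs_Qm3000_0_0_0 rfl DT.nil A16 B36) A16 B36) A16 B36) A16 B36) A16 B36) A16 B36)
    (d.qe I' H.toGD p4bZs_Ep2500_0_0_80 p4bZs_Em2500_0_0_80 rfl
      (d.qe I' H.toGD p4bZs_Ep2600_0_0_50 p4bZs_Em2600_0_0_50 rfl
      (d.qt (d.qt (d.qt (d.qt QT.nil)))) A10 B27) A10 B27)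
    (I'.dt H.toGD (fun _ => H) p4bZs_Dp2500_100_0_0 p4bZs_Dm2500_100_0_0 rfl hf0 hf0
      (I'.dt H.toGD (fun _ => H) p4bZs_Dp2600_100_20_0 p4bZs_Dm2600_100_20_0 rfl hf0 hf0
      (I'.dt H.toGD (fun _ => H) p4bZs_Dp2700_100_30_0 p4bZs_Dm2700_100_30_0 rfl hf0 hf0
      (I'.dt H.toGD (fun _ => H) p4bZs_Dp2800_90_30_0 p4bZs_Dm2800_90_30_0 rfl hf0 hf0
      (I'.dt H.toGD (fun _ => H) p4bZs_Dp2900_90_40_0 p4bZs_Dm2900_90_40_0 rfl hf0 hf0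
      (d.dt H.toGD DT.nil) A10 B27) A10 B27) A10 B27) A10 B27) A10 B27)
    (I.qt O.GD (fun _ => O.HD) o4bZs_Qp2500_100_0_0 o4bZs_Qm2500_100_0_0 rfl
      (I.qt O.GD (fun _ => O.HD) o4bZs_Qp2600_100_20_0 o4bZs_Qm2600_100_20_0 rfl
      (I.qt O.GD (fun _ => O.HD) o4bZs_Qp2700_100_30_0 o4bZs_Qm2700_100_30_0 rfl
      (I.qt O.GD (fun _ => O.HD) o4bZs_Qp2800_90_30_0 o4bZs_Qm2800_90_30_0 rfl
      (I.qt O.GD (fun _ => O.HD) o4bZs_Qp2900_90_40_0 o4bZs_Qm2900_90_40_0 rfl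
      (I.qt O.GD (fun _ => O.HD) o4bZs_Qp3000_0_0_0 o4bZs_Qm3000_0_0_0 rfl QT.nil A16 B36) A16 B36) A16 B36) A16 B36) A16 B36) A16 B36)
    (by decide) (by decide) O.hys O.hxs hx'

end RC

end Pool.Agent.Work.MP_b30479_gt.G2
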