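import Pool.Agent.Work.MP_b30479_gt.G2.RLvlB
import Pool.Agent.Work.MP_b30479_gt.G2.RGp4b
import Pool.Agent.Work.MP_b30479_gt.G2.RLvlA
import Pool.Agent.Work.MP_b30479_gt.G2.WLocV

/-!
# Rings on the level part: the pairs of hinges by class
-/

namespace Pool.Agent.Work.MP_b30479_gt.G2

open Finset VOL Filter Topology

namespace SR

/-- **A ring between a digit `1` and a class `k`, the pair of hinges.** -/
theorem pm4b {xs ys T ρ xs' T' : ℝ} {k : Cl} {s : Bool}
    (hk : k ≠ .one)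
    (q : (rq4 .two k s).Re xs ys T ρ)
    (r : (rp4 .two k s).Re xs' ys T' ρ)
    (B : Bd4 k s xs ys T ρ)
    (D : k ≠ .twoE → Lo k xs' ys T' ρ)
    (hx : xs' ∈ Set.Icc (fcl k) (fcp k)) :
    PrS 4 .two k xs ys T ρ xs' T' := by
  cases k
  · exact absurd rfl hk
  · have q0 : (mk4 2625 2963 1611 1823 1294 1590 472 673 (-1047) (-721) 4688 4216).Re xs ys T ρ := q
    have r0 : (mk4 2023 2504 1611 1823 812 1213 472 673 (-661) (-211) 4205 3733).Re xs' ys T' ρ := r
    have O := q0.oneB RC.Row.cH4b (by decide)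
    have I : RC.o4b2.In T ρ xs ys := wdk_in q0 (by decide) (k := 1520) (by
      have := B.kp
      simp only [ka4] at this
      push_cast at this ⊢
      linarith only [this])
    have J : RC.p4b2.In T' ρ xs' ys := wd4_in r0 (by decide)
    obtain ⟨H, l, d⟩ := D (by decide)
    exact ⟨_, _, Or.inr ⟨rfl, q0.xlo (by decide), Or.inl ⟨rfl, q0.tlo4 (by decide), rfl⟩⟩, Or.inl rfl, RC.pr4b2 O I H l d J hx⟩
  · have q0 : (mk4 2582 2896 1679 1834 1215 1476 387 537 (-1030) (-739) 4634 4247).Re xs ys T ρ := q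
    have r0 : (mk4 1707 1835 1679 1834 1423 1568 387 537 (-1102) (-971) 3609 3222).Re xs' ys T' ρ := r
    have O := q0.oneB RC.Row.cH4b (by decide)
    have I : RC.o4b2e.In T ρ xs ys := wdk_in q0 (by decide) (k := 1540) (by
      have := B.kp
      simp only [ka4] at this
      push_cast at this ⊢
      linarith only [this])
    have J : RC.p4b2e.In T' ρ xs' ys := wd4_in r0 (by decide)
    have G := r0.gd (by decide)
    have U := r0.up G RC.Row.cU4 (by decide)
    exact ⟨_, _, Or.inr ⟨rfl, q0.xlo (by decide), Or.inl ⟨rfl, q0.tlo4 (by decide), rfl⟩⟩, Or.inr ⟨rfl, rfl, rfl⟩,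
      RC.pr4b2e O I G U J hx⟩
  · have q0 : (mk4 2643 2965 1666 1852 1322 1599 518 688 (-1015) (-706) 4716 4198).Re xs ys T ρ := q
    have r0 : (mk4 2011 2282 1666 1852 670 944 518 688 (-344) (-70) 4038 3520).Re xs' ys T' ρ := r
    have O := q0.oneB RC.Row.cH4b (by decide)
    have I : RC.o4b3.In T ρ xs ys := wdk_in q0 (by decide) (k := 1520) (by
      have := B.kp
      simp only [ka4] at this
      push_cast at this ⊢
      linarith only [this])
    have J : RC.p4b3.In T' ρ xs' ys := wd4_in r0 (by decide)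
    obtain ⟨H, l, d⟩ := D (by decide)
    exact ⟨_, _, Or.inr ⟨rfl, q0.xlo (by decide), Or.inl ⟨rfl, q0.tlo4 (by decide), rfl⟩⟩, Or.inl rfl, RC.pr4b3 O I H l d J hx⟩
  · have q0 : (mk4 2620 2936 1715 1872 1278 1537 481 635 (-996) (-704) 4711 4230).Re xs ys T ρ := q
    have r0 : (mk4 1803 1930 1715 1872 818 964 481 635 (-400) (-270) 3740 3259).Re xs' ys T' ρ := r
    have O := q0.oneB RC.Row.cH4b (by decide)
    have I : RC.o4b3e.In T ρ xs ys := wdk_in q0 (by decide) (k := 1530) (by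
      have := B.kp
      simp only [ka4] at this
      push_cast at this ⊢
      linarith only [this])
    have J : RC.p4b3e.In T' ρ xs' ys := wd4_in r0 (by decide)
    obtain ⟨H, l, d⟩ := D (by decide)
    exact ⟨_, _, Or.inr ⟨rfl, q0.xlo (by decide), Or.inl ⟨rfl, q0.tlo4 (by decide), rfl⟩⟩, Or.inl rfl, RC.pr4b3e O I H l d J hx⟩
  · cases s
    · have q0 : (mk4 2645 3007 1692 1880 1321 1665 536 777 (-999) (-685) 4771 4235).Re xs ys T ρ := q
      have r0 : (mk4 1928 2343 1692 1880 416 805 536 777 (-184) 277 4133 3597).Re xs' ys T' ρ := r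
      have q1 : (mk4 2645 2980 1692 1880 1321 1665 536 777 (-999) (-685) 4771 4235).Re xs ys T ρ :=
        ⟨q0.x0, B.x, q0.s0, q0.s1, q0.q0, q0.q1, q0.r0, q0.r1, q0.t0, q0.t1, q0.c1, q0.cr⟩
      have O := q1.oneB RC.Row.cH4b (by decide)
      have I : RC.o4bZ.In T ρ xs ys := wdk_in q0 (by decide) (k := 1515) (by
        have := B.kp
        simp only [ka4] at this
        push_cast at this ⊢
        linarith only [this])
      have J : RC.p4bZ.In T' ρ xs' ys := wd4_in r0 (by decide)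
      obtain ⟨H, l, d⟩ := D (by decide)
      exact ⟨_, _, Or.inr ⟨rfl, q0.xlo (by decide), Or.inl ⟨rfl, q0.tlo4 (by decide), rfl⟩⟩, Or.inl rfl, RC.pr4bZ O I H l d J hx⟩
    · have q0 : (mk4 2658 3012 1702 1951 1327 1665 584 782 (-983) (-642) 4844 4260).Re xs ys T ρ := q
      have r0 : (mk4 1815 2343 1702 1951 185 558 584 782 142 510 4133 3549).Re xs' ys T' ρ := r
      have q1 : (mk4 2658 2980 1702 1951 1327 1665 584 782 (-983) (-642) 4826 4260).Re xs ys T ρ :=
        ⟨q0.x0, B.x, q0.s0, q0.s1, q0.q0, q0.q1, q0.r0, q0.r1, q0.t0, q0.t1, B.c, q0.cr⟩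
      have q2 : (mk4 2658 2980 1702 1951 1327 1665 584 750 (-983) (-642) 4826 4260).Re xs ys T ρ :=
        ⟨q0.x0, B.x, q0.s0, q0.s1, q0.q0, q0.q1, q0.r0, B.r rfl rfl, q0.t0, q0.t1, B.c, q0.cr⟩
      have O := q1.oneB RC.Row.cH4b (by decide)
      have I : RC.o4bZs.In T ρ xs ys := wdk_in q2 (by decide) (k := 1520) (by
        have := B.kp
        simp only [ka4] at this
        push_cast at this ⊢
        linarith only [this])
      have J : RC.p4bZs.In T' ρ xs' ys := wd4_in r0 (by decide)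
      obtain ⟨H, l, d⟩ := D (by decide)
      exact ⟨_, _, Or.inr ⟨rfl, q0.xlo (by decide), Or.inl ⟨rfl, q0.tlo4 (by decide), rfl⟩⟩, Or.inl rfl, RC.pr4bZs O I H l d J hx⟩

end SR

end Pool.Agent.Work.MP_b30479_gt.G2
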