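import Pool.Agent.Work.MP_b30479_gt.G2.RGp4c
import Pool.Agent.Work.MP_b30479_gt.G2.RLvlA
import Pool.Agent.Work.MP_b30479_gt.G2.WLocV

/-!
# Rings on the level part: the pairs of hinges by class
-/

namespace Pool.Agent.Work.MP_b30479_gt.G2

open Finset VOL Filter Topology

namespace SR

/-- **A ring between a digit `1` and a class `k`, the pair of hinges.** -/
theorem pm4c {xs ys T ρ xs' T' : ℝ} {k : Cl} {s : Bool}
    (hk : k ≠ .one)
    (q : (rq4 .twoE k s).Re xs ys T ρ)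
    (r : (rp4 .twoE k s).Re xs' ys T' ρ)
    (D : k ≠ .twoE → Lo k xs' ys T' ρ)
    (hx : xs' ∈ Set.Icc (fcl k) (fcp k)) :
    PrS 4 .twoE k xs ys T ρ xs' T' := by
  cases k
  · exact absurd rfl hk
  · have q0 : (mk4 2479 2621 1667 1851 1606 1771 443 613 (-1246) (-1097) 4408 3965).Re xs ys T ρ := q
    have r0 : (mk4 1999 2480 1667 1851 769 1157 443 613 (-651) (-216) 4207 3764).Re xs' ys T' ρ := r
    have O := q0.oneB RC.Row.cH4c (by decide)
    have I : RC.o4c2.In T ρ xs ys := wd4_in q0 (by decide)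
    have J : RC.p4c2.In T' ρ xs' ys := wd4_in r0 (by decide)
    obtain ⟨H, l, d⟩ := D (by decide)
    exact ⟨_, _, Or.inl rfl, Or.inl rfl, RC.pr4c2 O I H l d J hx⟩
  · have q0 : (mk4 2439 2559 1733 1853 1521 1641 354 474 (-1227) (-1107) 4352 3998).Re xs ys T ρ := q
    have r0 : (mk4 1696 1816 1733 1853 1384 1504 354 474 (-1090) (-970) 3609 3255).Re xs' ys T' ρ := r
    have O := q0.oneB RC.Row.cH4c (by decide)
    have I : RC.o4c2e.In T ρ xs ys := wd4_in q0 (by decide)
    have J : RC.p4c2e.In T' ρ xs' ys := wd4_in r0 (by decide)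
    have G := r0.gd (by decide)
    have U := r0.up G RC.Row.cU4 (by decide)
    exact ⟨_, _, Or.inl rfl, Or.inr ⟨rfl, rfl, rfl⟩,
      RC.pr4c2e O I G U J hx⟩
  · have q0 : (mk4 2498 2629 1727 1880 1636 1777 489 634 (-1218) (-1081) 4445 3956).Re xs ys T ρ := q
    have r0 : (mk4 1996 2260 1727 1880 635 889 489 634 (-337) (-61) 4047 3558).Re xs' ys T' ρ := r
    have O := q0.oneB RC.Row.cH4c (by decide)
    have I : RC.o4c3.In T ρ xs ys := wd4_in q0 (by decide)
    have J : RC.p4c3.In T' ρ xs' ys := wd4_in r0 (by decide)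
    obtain ⟨H, l, d⟩ := D (by decide)
    exact ⟨_, _, Or.inl rfl, Or.inl rfl, RC.pr4c3 O I H l d J hx⟩
  · have q0 : (mk4 2477 2597 1777 1897 1588 1708 450 570 (-1198) (-1078) 4434 3984).Re xs ys T ρ := q
    have r0 : (mk4 1791 1911 1777 1897 783 903 450 570 (-393) (-273) 3749 3299).Re xs' ys T' ρ := r
    have O := q0.oneB RC.Row.cH4c (by decide)
    have I : RC.o4c3e.In T ρ xs ys := wd4_in q0 (by decide)
    have J : RC.p4c3e.In T' ρ xs' ys := wd4_in r0 (by decide)
    obtain ⟨H, l, d⟩ := D (by decide)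
    exact ⟨_, _, Or.inl rfl, Or.inl rfl, RC.pr4c3e O I H l d J hx⟩
  · cases s
    · have q0 : (mk4 2502 2666 1755 1909 1634 1845 506 715 (-1203) (-1065) 4498 3992).Re xs ys T ρ := q
      have r0 : (mk4 1915 2318 1755 1919 391 757 506 715 (-183) 264 4150 3644).Re xs' ys T' ρ := r
      have O := q0.oneB RC.Row.cH4c (by decide)
      have I : RC.o4cZ.In T ρ xs ys := wd4_in q0 (by decide)
      have J : RC.p4cZ.In T' ρ xs' ys := wd4_in r0 (by decide)
      obtain ⟨H, l, d⟩ := D (by decide)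
      exact ⟨_, _, Or.inl rfl, Or.inl rfl, RC.pr4cZ O I H l d J hx⟩
    · have q0 : (mk4 2519 2666 1772 1985 1640 1845 552 715 (-1190) (-1025) 4584 4032).Re xs ys T ρ := q
      have r0 : (mk4 1807 2318 1772 1985 160 510 552 715 140 493 4150 3598).Re xs' ys T' ρ := r
      have O := q0.oneB RC.Row.cH4c (by decide)
      have I : RC.o4cZs.In T ρ xs ys := wd4_in q0 (by decide)
      have J : RC.p4cZs.In T' ρ xs' ys := wd4_in r0 (by decide)
      obtain ⟨H, l, d⟩ := D (by decide)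
      exact ⟨_, _, Or.inl rfl, Or.inl rfl, RC.pr4cZs O I H l d J hx⟩

end SR

end Pool.Agent.Work.MP_b30479_gt.G2
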