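import Pool.Agent.Work.MP_b30479_gt.G2.RGp5a
import Pool.Agent.Work.MP_b30479_gt.G2.RLvlA
import Pool.Agent.Work.MP_b30479_gt.G2.WLocV

/-!
# Rings on the level part: the pairs of hinges by class
-/

namespace Pool.Agent.Work.MP_b30479_gt.G2

open Finset VOL Filter Topology

namespace SR

/-- **A ring between a digit `1` and a class `k`, the pair of hinges.** -/
theorem pm5a {xs ys T ρ xs' T' : ℝ} {k : Cl} {s : Bool}
    (hk : k ≠ .one)
    (q : (rq5 .one k s).Re xs ys T ρ)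
    (r : (rp5 .one k s).Re xs' ys T' ρ)
    (D : Lo k xs' ys T' ρ)
    (KZ : k = .ring → |T'| ≤ 47 / 1000)
    (hx : xs' ∈ Set.Icc (fcl k) (fcp k)) :
    PrS 5 .one k xs ys T ρ xs' T' := by
  cases k
  · exact absurd rfl hk
  · have q0 : (mk4 2245 2775 1383 1673 964 1564 294 572 (-1094) (-518) 4300 4006).Re xs ys T ρ := q
    have r0 : (mk4 2007 2538 1383 1673 695 1202 294 572 (-777) (-240) 4059 3765).Re xs' ys T' ρ := r
    have O := q0.oneB RC.Row.cH5a (by decide)
    have I : RC.o5a2.In T ρ xs ys := wd4_in q0 (by decide)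
    have J : RC.p5a2.In T' ρ xs' ys := wd4_in r0 (by decide)
    obtain ⟨H, l, d⟩ := D
    exact ⟨_, _, Or.inl rfl, Or.inl rfl, RC.pr5a2 O I H l d J hx⟩
  · have q0 : (mk4 2220 2729 1428 1673 906 1483 226 470 (-1093) (-536) 4257 4031).Re xs ys T ρ := q
    have r0 : (mk4 1650 1860 1428 1673 1322 1560 226 470 (-1202) (-990) 3431 3205).Re xs' ys T' ρ := r
    have O := q0.oneB RC.Row.cH5a (by decide)
    have I : RC.o5a2e.In T ρ xs ys := wd4_in q0 (by decide)
    have J : RC.p5a2e.In T' ρ xs' ys := wd4_in r0 (by decide)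
    obtain ⟨H, l, d⟩ := D
    exact ⟨_, _, Or.inl rfl, Or.inl rfl, RC.pr5a2e O I H l d J hx⟩
  · have q0 : (mk4 2247 2778 1428 1697 987 1569 331 590 (-1072) (-510) 4321 3990).Re xs ys T ρ := q
    have r0 : (mk4 1977 2326 1428 1697 552 916 331 590 (-454) (-80) 3895 3564).Re xs' ys T' ρ := r
    have O := q0.oneB RC.Row.cH5a (by decide)
    have I : RC.o5a3.In T ρ xs ys := wd4_in q0 (by decide)
    have J : RC.p5a3.In T' ρ xs' ys := wd4_in r0 (by decide)
    obtain ⟨H, l, d⟩ := D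
    exact ⟨_, _, Or.inl rfl, Or.inl rfl, RC.pr5a3 O I H l d J hx⟩
  · have q0 : (mk4 2235 2760 1461 1709 955 1529 296 543 (-1070) (-512) 4321 4025).Re xs ys T ρ := q
    have r0 : (mk4 1763 1970 1461 1709 691 930 296 543 (-499) (-287) 3577 3281).Re xs' ys T' ρ := r
    have O := q0.oneB RC.Row.cH5a (by decide)
    have I : RC.o5a3e.In T ρ xs ys := wd4_in q0 (by decide)
    have J : RC.p5a3e.In T' ρ xs' ys := wd4_in r0 (by decide)
    obtain ⟨H, l, d⟩ := D
    exact ⟨_, _, Or.inl rfl, Or.inl rfl, RC.pr5a3e O I H l d J hx⟩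
  · cases s
    · have q0 : (mk4 2247 2797 1449 1721 995 1616 338 656 (-1066) (-493) 4362 4024).Re xs ys T ρ := q
      have r0 : (mk4 1898 2416 1449 1721 272 766 338 656 (-287) 248 4017 3679).Re xs' ys T' ρ := r
      have O := q0.oneB RC.Row.cH5a (by decide)
      have I : RC.o5aZ.In T ρ xs ys := wd4_in q0 (by decide)
      have J : RC.p5aZ.In T' ρ xs' ys := wd4_in r0 (by decide)
      have K := r0.kap (by decide) (KZ rfl)
      obtain ⟨H, l, d⟩ := D
      exact ⟨_, _, Or.inl rfl, Or.inl rfl, RC.pr5aZ O I H l d J hx K.1 K.2⟩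
    · have q0 : (mk4 2249 2800 1463 1779 999 1622 371 656 (-1055) (-471) 4412 4041).Re xs ys T ρ := q
      have r0 : (mk4 1821 2416 1463 1779 15 507 371 656 34 499 4017 3646).Re xs' ys T' ρ := r
      have O := q0.oneB RC.Row.cH5a (by decide)
      have I : RC.o5aZs.In T ρ xs ys := wd4_in q0 (by decide)
      have J : RC.p5aZs.In T' ρ xs' ys := wd4_in r0 (by decide)
      have K := r0.kap (by decide) (KZ rfl)
      obtain ⟨H, l, d⟩ := D
      exact ⟨_, _, Or.inl rfl, Or.inl rfl, RC.pr5aZs O I H l d J hx K.1 K.2⟩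

end SR

end Pool.Agent.Work.MP_b30479_gt.G2
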