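import Pool.Agent.Work.MP_b30479_gt.G2.RLvl5

/-!
# Rings on the level part: the hinge between a ring with four crossings and a digit `2` at the end
-/

namespace Pool.Agent.Work.MP_b30479_gt.G2

open Real Set VOL Filter Topology

namespace RC

open Row R6

/-- a row for the hinge below, ring variable less -/
def cV (mu vs : ℕ) (ws : List LC) : Cf := ⟨false, 0, mu, 0, 0, 0, 0, 0, vs, ws⟩

section
variable {xs ys T ρ cl cp x y : ℝ} {f g : ℝ → ℝ} {tab : List Te} {W : Wd} {c : Cf}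

theorem row_V (g : GD xs ys cl cp) (hc : c.up = false) (ht : c.ty = 0) (hv : c.vs = 0)
    (R : RowP c T ρ xs ys x y) (hw : ∀ l ∈ c.ws, l.ok T ρ xs ys) (hx : x ∈ Icc cl cp)
    (hy : y ∈ Icc (1 / 4 : ℝ) (1 / 2)) (h1 : x < xs)
    (hN : |gh y - gh ys| ≤ gh xs - gh x) :
    Sx xs ys T ρ < Sx x y T ρ + (c.mu : ℝ) / 1000 * (gh xs - gh x) := by
  have hxi := g.x1 hx
  have hm := (gh_lt hxi g.xi).2 h1
  have k := R g.xi.1 (by linarith only [g, g.xc, g.cp2]) (by linarith only [g, g.y4]) g.y2 hxi.1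
    (by linarith only [hx, g, hx.2, g.cp2]) (by linarith only [hy, hy.1]) hy.2 hw
  rw [hc, mm_false, AA_false] at k
  have k2 := (k (by linarith only [hm]) (fun _ => by linarith only [hm]) (fun h => by omega)
    (fun _ => by rwa [abs_sub_comm]) (fun h => by omega) (fun h => by omega)
    (fun h => absurd hv h)).1 ht
  linarith only [k2]

/-- comparison statements, the contribution up by `zup` -/
theorem Wd.In.LF0 (I : W.In T ρ xs ys) (g : GD xs ys cl cp)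
    (hU : ∀ x y, x ∈ Icc cl cp → ys < y → y ≤ 1 / 2 → |gh x - gh xs| < gh y - gh ys →
      Dx x y T ρ < Dx xs ys T ρ) {mu mud A B : ℕ}
    (R1 : W.R (cW mu 0) W.x0 B 2500 5000) (R2 : W.R (cV mud 0) A W.x1 2500 5000)
    (hf : ∀ m, 0 < m → (mu : ℝ) / 1000 * m ≤ f m)
    {g' : ℝ → ℝ} (hg : ∀ m, 0 < m → (mud : ℝ) / 1000 * m ≤ g' m)
    (hA : (A : ℝ) / 10000 ≤ cl) (hB : cp ≤ (B : ℝ) / 10000) : RC.LF xs ys T ρ cl cp f g' := by
  refine ⟨g.xi, hU, ?_, ?_⟩
  · intro x y hx hy h1 _ hN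
    have hm := (gh_lt g.xi (g.x1 hx)).2 h1
    have hf' := hf _ (sub_pos.2 hm)
    have := row_W (c := cW mu 0 W.ws) g rfl rfl
      (R1.at I (I.x0.trans h1.le) (hx.2.trans hB) (by norm_num; linarith only [hy, hy.1])
        (by norm_num; linarith only [hy, hy.2])) I.ws hx hy h1 hN (fun h => absurd rfl h)
    change Sx x y T ρ < Sx xs ys T ρ + (mu : ℝ) / 1000 * (gh x - gh xs) at this
    linarith only [hf', this]
  · intro x y hx hy h1 _ hN
    have hm := (gh_lt (g.x1 hx) g.xi).2 h1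
    have hg' := hg _ (sub_pos.2 hm)
    have := row_V (c := cV mud 0 W.ws) g rfl rfl rfl
      (R2.at I (hA.trans hx.1) (h1.le.trans I.x1) (by norm_num; linarith only [hy, hy.1])
        (by norm_num; linarith only [hy, hy.2])) I.ws hx hy h1 hN
    change Sx xs ys T ρ < Sx x y T ρ + (mud : ℝ) / 1000 * (gh xs - gh x) at this
    linarith only [hg', this]

/-- an entry for the sides, regions of the rows given -/
theorem Wd.In.dtg (I : W.In T ρ xs ys) (G : GD xs ys cl cp) {f g : ℝ → ℝ}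
    {mu mud al m0 dl m1 n1 du u1 u2 dd d1 d2 vs A B ya yb yb' : ℕ}
    (hH : vs ≠ 0 → RC.HD xs ys T ρ cl cp)
    (Ru : W.R (cD true mu al m0 du u1 u2 vs) W.x0 B ya yb')
    (Rd : W.R (cD false mud al m0 dd d1 d2 vs) A W.x1 ya yb')
    (hu : du = 0 ∨ (du = dl ∧ u1 = m1 ∧ u2 = n1)) (hd : dd = 0 ∨ (dd = dl ∧ d1 = m1 ∧ d2 = n1))
    (hy : (Nat.ble yb yb' || Nat.ble W.y1 yb') = true)
    (hf : ∀ m, 0 < m → (mu : ℝ) / 1000 * m ≤ f m) (hg : ∀ m, 0 < m → (mud : ℝ) / 1000 * m ≤ g m)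
    (t : DT xs ys T ρ cl cp f g tab)
    (hA : (A : ℝ) / 10000 ≤ cl) (hB : cp ≤ (B : ℝ) / 10000) :
    DT xs ys T ρ cl cp f g (⟨ya, yb, al, m0, dl, m1, n1⟩ :: tab) :=
  t.cons fun _ h1 h2 h3 h4 => I.DS G hH hH Ru Rd hu hd hf hg hA hB h1 (I.yb hy h2 h4) h3 h4

end

end RC

end Pool.Agent.Work.MP_b30479_gt.G2
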