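import Pool.Agent.Work.MP_b30479_gt.G2.RGm20
import Pool.Agent.Work.MP_b30479_gt.G2.RGm21
import Pool.Agent.Work.MP_b30479_gt.G2.RGm22
import Pool.Agent.Work.MP_b30479_gt.G2.RGm23
import Pool.Agent.Work.MP_b30479_gt.G2.RGm24
import Pool.Agent.Work.MP_b30479_gt.G2.RGm25
import Pool.Agent.Work.MP_b30479_gt.G2.RGm26
import Pool.Agent.Work.MP_b30479_gt.G2.RGm27
import Pool.Agent.Work.MP_b30479_gt.G2.RGm28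
import Pool.Agent.Work.MP_b30479_gt.G2.RGm29
import Pool.Agent.Work.MP_b30479_gt.G2.RGn07
import Pool.Agent.Work.MP_b30479_gt.G2.RLvl7
import Pool.Agent.Work.MP_b30479_gt.G2.RLvl8

/-!
# Rings on the level part: pairs of hinges
-/

namespace Pool.Agent.Work.MP_b30479_gt.G2

open Real Set

namespace RC

open R6

theorem pr5b2 {xs ys T ρ xs' T' : ℝ} (O : OneB xs ys T ρ) (I : o5b2.In T ρ xs ys)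
    (H : HD xs' ys T' ρ (125 / 1000) (30 / 100)) (l : LH xs' ys T' ρ (125 / 1000) (30 / 100))
    (d : DnG xs' T' (125 / 1000) (30 / 100) ys ρ) (I' : p5b2.In T' ρ xs' ys)
    (hx' : xs' ∈ Icc (125 / 1000) (30 / 100)) :
    Pr ys ρ xs T (16 / 100) (36 / 100) (fun m => 355 / 1000 * m) (fun _ => 0) xs' T' (125 / 1000) (30 / 100)
      (fun _ => 0) (fun _ => 0) :=
  Pr.of (tab := [⟨2500, 2600, 0, 0, 0, 0, 0⟩, ⟨2600, 2700, 0, 0, 0, 0, 0⟩, ⟨2700, 2800, 0, 0, 0, 0, 0⟩, ⟨2800, 2900, 0, 0, 0, 0, 0⟩, ⟨2900, 3000, 0, 0, 0, 0, 0⟩, ⟨3000, 5000, 0, 0, 0, 0, 0⟩])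
    (tab' := [⟨2500, 2600, 115, 80, 0, 0, 0⟩, ⟨2600, 2700, 100, 80, 0, 0, 0⟩, ⟨2700, 2800, 130, 100, 0, 0, 0⟩, ⟨2800, 2900, 115, 120, 0, 0, 0⟩, ⟨2900, 3000, 160, 120, 0, 0, 0⟩, ⟨3000, 5000, 0, 0, 0, 0, 0⟩])
    (O.LF I o5b2_Wa o5b2_Wb hf355) (l.toF hz0 hz0 (by norm_num) (by norm_num))
    (I.dt O.GD (fun _ => O.HD) o5b2_Dp2500_0_0_0 o5b2_Dm2500_0_0_0 rfl hf355 hf0
      (I.dt O.GD (fun _ => O.HD) o5b2_Dp2600_0_0_0 o5b2_Dm2600_0_0_0 rfl hf355 hf0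
      (I.dt O.GD (fun _ => O.HD) o5b2_Dp2700_0_0_0 o5b2_Dm2700_0_0_0 rfl hf355 hf0
      (I.dt O.GD (fun _ => O.HD) o5b2_Dp2800_0_0_0 o5b2_Dm2800_0_0_0 rfl hf355 hf0
      (I.dt O.GD (fun _ => O.HD) o5b2_Dp2900_0_0_0 o5b2_Dm2900_0_0_0 rfl hf355 hf0
      (I.dt0 O.GD (fun _ => O.HD) o5b2_Qp3000_0_0_0 o5b2_Qm3000_0_0_0 rfl DT.nil A16 B36) A16 B36) A16 B36) A16 B36) A16 B36) A16 B36)
    (d.qt (d.qt (d.qt (d.qt (d.qt (d.qt QT.nil))))))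
    (I'.dt H.toGD (fun _ => H) p5b2_Dp2500_115_80_0 p5b2_Dm2500_115_80_0 rfl hf0 hf0
      (I'.dt H.toGD (fun _ => H) p5b2_Dp2600_100_80_0 p5b2_Dm2600_100_80_0 rfl hf0 hf0
      (I'.dt H.toGD (fun _ => H) p5b2_Dp2700_130_100_0 p5b2_Dm2700_130_100_0 rfl hf0 hf0
      (I'.dt H.toGD (fun _ => H) p5b2_Dp2800_115_120_0 p5b2_Dm2800_115_120_0 rfl hf0 hf0
      (I'.dt H.toGD (fun _ => H) p5b2_Dp2900_160_120_0 p5b2_Dm2900_160_120_0 rfl hf0 hf0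
      (d.dt H.toGD DT.nil) A12 B30) A12 B30) A12 B30) A12 B30) A12 B30)
    (I.qt O.GD (fun _ => O.HD) o5b2_Qp2500_115_80_0 o5b2_Qm2500_115_80_0 rfl
      (I.qt O.GD (fun _ => O.HD) o5b2_Qp2600_100_80_0 o5b2_Qm2600_100_80_0 rfl
      (I.qt O.GD (fun _ => O.HD) o5b2_Qp2700_130_100_0 o5b2_Qm2700_130_100_0 rfl
      (I.qt O.GD (fun _ => O.HD) o5b2_Qp2800_115_120_0 o5b2_Qm2800_115_120_0 rfl
      (I.qt O.GD (fun _ => O.HD) o5b2_Qp2900_160_120_0 o5b2_Qm2900_160_120_0 rfl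
      (I.qt O.GD (fun _ => O.HD) o5b2_Qp3000_0_0_0 o5b2_Qm3000_0_0_0 rfl QT.nil A16 B36) A16 B36) A16 B36) A16 B36) A16 B36) A16 B36)
    (by decide) (by decide) O.hys O.hxs hx'

theorem pr5b2x {xs ys T ρ xs' T' : ℝ} (O : OneB xs ys T ρ) (I : o5b2.In T ρ xs ys)
    (Is : o5b2x.In T ρ xs ys)
    (H : HD xs' ys T' ρ (125 / 1000) (30 / 100)) (l : LH xs' ys T' ρ (125 / 1000) (30 / 100))
    (d : DnG xs' T' (125 / 1000) (30 / 100) ys ρ) (I' : p5b2.In T' ρ xs' ys)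
    (hx' : xs' ∈ Icc (125 / 1000) (30 / 100)) :
    Pr ys ρ xs T (16 / 100) (36 / 100) (fun _ => 0) (fun _ => 0) xs' T' (125 / 1000) (30 / 100)
      (fun _ => 0) (fun _ => 0) :=
  Pr.of (tab := [⟨2500, 2600, 0, 0, 0, 0, 0⟩, ⟨2600, 2700, 0, 0, 0, 0, 0⟩, ⟨2700, 2800, 0, 0, 0, 0, 0⟩, ⟨2800, 2900, 0, 0, 0, 0, 0⟩, ⟨2900, 3000, 0, 0, 0, 0, 0⟩, ⟨3000, 5000, 0, 0, 0, 0, 0⟩])
    (tab' := [⟨2500, 2600, 115, 80, 0, 0, 0⟩, ⟨2600, 2700, 100, 80, 0, 0, 0⟩, ⟨2700, 2800, 130, 100, 0, 0, 0⟩, ⟨2800, 2900, 115, 120, 0, 0, 0⟩, ⟨2900, 3000, 160, 120, 0, 0, 0⟩, ⟨3000, 5000, 0, 0, 0, 0, 0⟩])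
    (O.LF Is o5b2x_Wa o5b2x_Wb hf0) (l.toF hz0 hz0 (by norm_num) (by norm_num))
    (Is.dtg O.GD (fun _ => O.HD) o5b2x_Dp2500_0_0_0 o5b2x_Dm2500_0_0_0 (Or.inl rfl) (Or.inl rfl) rfl hf0 hf0
      (Is.dtg O.GD (fun _ => O.HD) o5b2x_Dp2600_0_0_0 o5b2x_Dm2600_0_0_0 (Or.inl rfl) (Or.inl rfl) rfl hf0 hf0
      (Is.dtg O.GD (fun _ => O.HD) o5b2x_Dp2700_0_0_0 o5b2x_Dm2700_0_0_0 (Or.inl rfl) (Or.inl rfl) rfl hf0 hf0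
      (Is.dtg O.GD (fun _ => O.HD) o5b2x_Dp2800_0_0_0 o5b2x_Dm2800_0_0_0 (Or.inl rfl) (Or.inl rfl) rfl hf0 hf0
      (Is.dtg O.GD (fun _ => O.HD) o5b2x_Dp2900_0_0_0 o5b2x_Dm2900_0_0_0 (Or.inl rfl) (Or.inl rfl) rfl hf0 hf0
      (I.dt0 O.GD (fun _ => O.HD) o5b2_Qp3000_0_0_0 o5b2_Qm3000_0_0_0 rfl DT.nil A16 B36) A16 B36) A16 B36) A16 B36) A16 B36) A16 B36)
    (d.qt (d.qt (d.qt (d.qt (d.qt (d.qt QT.nil))))))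
    (I'.dt H.toGD (fun _ => H) p5b2_Dp2500_115_80_0 p5b2_Dm2500_115_80_0 rfl hf0 hf0
      (I'.dt H.toGD (fun _ => H) p5b2_Dp2600_100_80_0 p5b2_Dm2600_100_80_0 rfl hf0 hf0
      (I'.dt H.toGD (fun _ => H) p5b2_Dp2700_130_100_0 p5b2_Dm2700_130_100_0 rfl hf0 hf0
      (I'.dt H.toGD (fun _ => H) p5b2_Dp2800_115_120_0 p5b2_Dm2800_115_120_0 rfl hf0 hf0
      (I'.dt H.toGD (fun _ => H) p5b2_Dp2900_160_120_0 p5b2_Dm2900_160_120_0 rfl hf0 hf0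
      (d.dt H.toGD DT.nil) A12 B30) A12 B30) A12 B30) A12 B30) A12 B30)
    (I.qt O.GD (fun _ => O.HD) o5b2_Qp2500_115_80_0 o5b2_Qm2500_115_80_0 rfl
      (I.qt O.GD (fun _ => O.HD) o5b2_Qp2600_100_80_0 o5b2_Qm2600_100_80_0 rfl
      (I.qt O.GD (fun _ => O.HD) o5b2_Qp2700_130_100_0 o5b2_Qm2700_130_100_0 rfl
      (I.qt O.GD (fun _ => O.HD) o5b2_Qp2800_115_120_0 o5b2_Qm2800_115_120_0 rfl
      (I.qt O.GD (fun _ => O.HD) o5b2_Qp2900_160_120_0 o5b2_Qm2900_160_120_0 rfl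
      (I.qt O.GD (fun _ => O.HD) o5b2_Qp3000_0_0_0 o5b2_Qm3000_0_0_0 rfl QT.nil A16 B36) A16 B36) A16 B36) A16 B36) A16 B36) A16 B36)
    (by decide) (by decide) O.hys O.hxs hx'

theorem o5b2e_Ep2500_104_120_20 : o5b2e.R (cE true 104 120 20 360 99) 2534 3600 2500 2525 := by
  have h : Bx ⟨true, 2, 0, 104, 120, 20, 360, 99, 0, [⟨1, 0, 0, 1, 0, 0, 0, 0, 0, 1163⟩, ⟨0, 1, 1, 0, 0, 0, 0, 0, 1514, 0⟩, ⟨0, 0, 0, 0, 1, 0, 0, 1, 0, 576⟩, ⟨0, 0, 0, 1, 1, 0, 0, 1, 0, 797⟩, ⟨1, 0, 0, 1, 1, 0, 0, 0, 1530, 0⟩]⟩ 807 1179 240 442 2534 2924 3373 3600 2534 3600 2500 2525 := (Bx.s4 3067 o5b2e_Ep2500_104_120_20_0 (Bx.s0 993 (Bx.s2 2729 o5b2e_Ep2500_104_120_20_1 (Bx.s4 3333 o5b2e_Ep2500_104_120_20_2 (Bx.s2 2826 o5b2e_Ep2500_104_120_20_3 (Bx.s1 341 (Bx.s0 900 o5b2e_Ep2500_104_120_20_4 (Bx.s3 3486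 (Bx.s2 2875 o5b2e_Ep2500_104_120_20_5 o5b2e_Ep2500_104_120_20_6) o5b2e_Ep2500_104_120_20_7)) o5b2e_Ep2500_104_120_20_8)))) (Bx.s2 2729 o5b2e_Ep2500_104_120_20_9 (Bx.s4 3333 o5b2e_Ep2500_104_120_20_10 (Bx.s2 2826 o5b2e_Ep2500_104_120_20_11 (Bx.s1 341 o5b2e_Ep2500_104_120_20_12 o5b2e_Ep2500_104_120_20_13))))))
  exact h

theorem pr5b2e {xs ys T ρ xs' T' : ℝ} (O : OneB xs ys T ρ) (I : o5b2e.In T ρ xs ys)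
    (H : HD xs' ys T' ρ (125 / 1000) (30 / 100)) (l : LH xs' ys T' ρ (125 / 1000) (30 / 100))
    (d : DnG xs' T' (125 / 1000) (30 / 100) ys ρ) (I' : p5b2e.In T' ρ xs' ys)
    (hx' : xs' ∈ Icc (125 / 1000) (30 / 100)) :
    Pr ys ρ xs T (16 / 100) (36 / 100) (fun m => 355 / 1000 * m) (fun _ => 0) xs' T' (125 / 1000) (30 / 100)
      (fun _ => 0) (fun _ => 0) :=
  Pr.of (tab := [⟨2500, 2600, 0, 0, 0, 0, 0⟩, ⟨2600, 2700, 0, 0, 0, 0, 0⟩, ⟨2700, 2800, 0, 0, 0, 0, 0⟩, ⟨2800, 2900, 0, 0, 0, 0, 0⟩, ⟨2900, 3000, 0, 0, 0, 0, 0⟩, ⟨3000, 5000, 0, 0, 0, 0, 0⟩])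
    (tab' := [⟨2500, 2525, 104, 120, 20, 360, 100⟩, ⟨2525, 2550, 95, 120, 0, 0, 0⟩, ⟨2550, 2600, 100, 120, 0, 0, 0⟩, ⟨2600, 2700, 95, 100, 0, 0, 0⟩, ⟨2700, 2800, 100, 100, 0, 0, 0⟩, ⟨2800, 2900, 130, 120, 0, 0, 0⟩, ⟨2900, 3000, 160, 120, 0, 0, 0⟩, ⟨3000, 5000, 0, 0, 0, 0, 0⟩])
    (O.LF I o5b2e_Wa o5b2e_Wb hf355) (l.toF hz0 hz0 (by norm_num) (by norm_num))
    (I.dt O.GD (fun _ => O.HD) o5b2e_Dp2500_0_0_0 o5b2e_Dm2500_0_0_0 rfl hf355 hf0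
      (I.dt O.GD (fun _ => O.HD) o5b2e_Dp2600_0_0_0 o5b2e_Dm2600_0_0_0 rfl hf355 hf0
      (I.dt O.GD (fun _ => O.HD) o5b2e_Dp2700_0_0_0 o5b2e_Dm2700_0_0_0 rfl hf355 hf0
      (I.dt O.GD (fun _ => O.HD) o5b2e_Dp2800_0_0_0 o5b2e_Dm2800_0_0_0 rfl hf355 hf0
      (I.dt O.GD (fun _ => O.HD) o5b2e_Dp2900_0_0_0 o5b2e_Dm2900_0_0_0 rfl hf355 hf0
      (I.dt0 O.GD (fun _ => O.HD) o5b2e_Qp3000_0_0_0 o5b2e_Qm3000_0_0_0 rfl DT.nil A16 B36) A16 B36) A16 B36) A16 B36) A16 B36) A16 B36)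
    (d.qt (d.qt (d.qt (d.qt (d.qt (d.qt QT.nil))))))
    (I'.dtg H.toGD (fun _ => H) p5b2e_Dp2500_104_120_0 p5b2e_Dm2500_104_120_20 (Or.inl rfl) (Or.inr ⟨rfl, rfl, rfl⟩) rfl hf0 hf0
      (I'.dt H.toGD (fun _ => H) p5b2e_Dp2525_95_120_0 p5b2e_Dm2525_95_120_0 rfl hf0 hf0
      (I'.dt H.toGD (fun _ => H) p5b2e_Dp2550_100_120_0 p5b2e_Dm2550_100_120_0 rfl hf0 hf0
      (I'.dt H.toGD (fun _ => H) p5b2e_Dp2600_95_100_0 p5b2e_Dm2600_95_100_0 rfl hf0 hf0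
      (I'.dt H.toGD (fun _ => H) p5b2e_Dp2700_100_100_0 p5b2e_Dm2700_100_100_0 rfl hf0 hf0
      (I'.dt H.toGD (fun _ => H) p5b2e_Dp2800_130_120_0 p5b2e_Dm2800_130_120_0 rfl hf0 hf0
      (I'.dt H.toGD (fun _ => H) p5b2e_Dp2900_160_120_0 p5b2e_Dm2900_160_120_0 rfl hf0 hf0
      (d.dt H.toGD DT.nil) A12 B30) A12 B30) A12 B30) A12 B30) A12 B30) A12 B30) A12 B30)
    (I.qe O.GD (fun _ => O.HD) o5b2e_Qp2500_104_120_0 o5b2e_Qm2500_104_120_0 o5b2e_Ep2500_104_120_20 o5b2e_Em2500_104_120_20 rfl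
      (I.qt O.GD (fun _ => O.HD) o5b2e_Qp2525_95_120_0 o5b2e_Qm2525_95_120_0 rfl
      (I.qt O.GD (fun _ => O.HD) o5b2e_Qp2550_100_120_0 o5b2e_Qm2550_100_120_0 rfl
      (I.qt O.GD (fun _ => O.HD) o5b2e_Qp2600_95_100_0 o5b2e_Qm2600_95_100_0 rfl
      (I.qt O.GD (fun _ => O.HD) o5b2e_Qp2700_100_100_0 o5b2e_Qm2700_100_100_0 rfl
      (I.qt O.GD (fun _ => O.HD) o5b2e_Qp2800_130_120_0 o5b2e_Qm2800_130_120_0 rfl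
      (I.qt O.GD (fun _ => O.HD) o5b2e_Qp2900_160_120_0 o5b2e_Qm2900_160_120_0 rfl
      (I.qt O.GD (fun _ => O.HD) o5b2e_Qp3000_0_0_0 o5b2e_Qm3000_0_0_0 rfl QT.nil A16 B36) A16 B36) A16 B36) A16 B36) A16 B36) A16 B36) A16 B36) A16 B36)
    (by decide) (by decide) O.hys O.hxs hx'

theorem pr5b2ex {xs ys T ρ xs' T' : ℝ} (O : OneB xs ys T ρ) (I : o5b2e.In T ρ xs ys)
    (Is : o5b2ex.In T ρ xs ys)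
    (H : HD xs' ys T' ρ (125 / 1000) (30 / 100)) (l : LH xs' ys T' ρ (125 / 1000) (30 / 100))
    (d : DnG xs' T' (125 / 1000) (30 / 100) ys ρ) (I' : p5b2e.In T' ρ xs' ys)
    (hx' : xs' ∈ Icc (125 / 1000) (30 / 100)) :
    Pr ys ρ xs T (16 / 100) (36 / 100) (fun _ => 0) (fun _ => 0) xs' T' (125 / 1000) (30 / 100)
      (fun _ => 0) (fun _ => 0) :=
  Pr.of (tab := [⟨2500, 2600, 0, 0, 0, 0, 0⟩, ⟨2600, 2700, 0, 0, 0, 0, 0⟩, ⟨2700, 2800, 0, 0, 0, 0, 0⟩, ⟨2800, 2900, 0, 0, 0, 0, 0⟩, ⟨2900, 3000, 0, 0, 0, 0, 0⟩, ⟨3000, 5000, 0, 0, 0, 0, 0⟩])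
    (tab' := [⟨2500, 2525, 104, 120, 20, 360, 100⟩, ⟨2525, 2550, 95, 120, 0, 0, 0⟩, ⟨2550, 2600, 100, 120, 0, 0, 0⟩, ⟨2600, 2700, 95, 100, 0, 0, 0⟩, ⟨2700, 2800, 100, 100, 0, 0, 0⟩, ⟨2800, 2900, 130, 120, 0, 0, 0⟩, ⟨2900, 3000, 160, 120, 0, 0, 0⟩, ⟨3000, 5000, 0, 0, 0, 0, 0⟩])
    (O.LF Is o5b2ex_Wa o5b2ex_Wb hf0) (l.toF hz0 hz0 (by norm_num) (by norm_num))
    (Is.dtg O.GD (fun _ => O.HD) o5b2ex_Dp2500_0_0_0 o5b2ex_Dm2500_0_0_0 (Or.inl rfl) (Or.inl rfl) rfl hf0 hf0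
      (Is.dtg O.GD (fun _ => O.HD) o5b2ex_Dp2600_0_0_0 o5b2ex_Dm2600_0_0_0 (Or.inl rfl) (Or.inl rfl) rfl hf0 hf0
      (Is.dtg O.GD (fun _ => O.HD) o5b2ex_Dp2700_0_0_0 o5b2ex_Dm2700_0_0_0 (Or.inl rfl) (Or.inl rfl) rfl hf0 hf0
      (Is.dtg O.GD (fun _ => O.HD) o5b2ex_Dp2800_0_0_0 o5b2ex_Dm2800_0_0_0 (Or.inl rfl) (Or.inl rfl) rfl hf0 hf0
      (Is.dtg O.GD (fun _ => O.HD) o5b2ex_Dp2900_0_0_0 o5b2ex_Dm2900_0_0_0 (Or.inl rfl) (Or.inl rfl) rfl hf0 hf0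
      (I.dt0 O.GD (fun _ => O.HD) o5b2e_Qp3000_0_0_0 o5b2e_Qm3000_0_0_0 rfl DT.nil A16 B36) A16 B36) A16 B36) A16 B36) A16 B36) A16 B36)
    (d.qt (d.qt (d.qt (d.qt (d.qt (d.qt QT.nil))))))
    (I'.dtg H.toGD (fun _ => H) p5b2e_Dp2500_104_120_0 p5b2e_Dm2500_104_120_20 (Or.inl rfl) (Or.inr ⟨rfl, rfl, rfl⟩) rfl hf0 hf0
      (I'.dt H.toGD (fun _ => H) p5b2e_Dp2525_95_120_0 p5b2e_Dm2525_95_120_0 rfl hf0 hf0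
      (I'.dt H.toGD (fun _ => H) p5b2e_Dp2550_100_120_0 p5b2e_Dm2550_100_120_0 rfl hf0 hf0
      (I'.dt H.toGD (fun _ => H) p5b2e_Dp2600_95_100_0 p5b2e_Dm2600_95_100_0 rfl hf0 hf0
      (I'.dt H.toGD (fun _ => H) p5b2e_Dp2700_100_100_0 p5b2e_Dm2700_100_100_0 rfl hf0 hf0
      (I'.dt H.toGD (fun _ => H) p5b2e_Dp2800_130_120_0 p5b2e_Dm2800_130_120_0 rfl hf0 hf0
      (I'.dt H.toGD (fun _ => H) p5b2e_Dp2900_160_120_0 p5b2e_Dm2900_160_120_0 rfl hf0 hf0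
      (d.dt H.toGD DT.nil) A12 B30) A12 B30) A12 B30) A12 B30) A12 B30) A12 B30) A12 B30)
    (I.qe O.GD (fun _ => O.HD) o5b2e_Qp2500_104_120_0 o5b2e_Qm2500_104_120_0 o5b2e_Ep2500_104_120_20 o5b2e_Em2500_104_120_20 rfl
      (I.qt O.GD (fun _ => O.HD) o5b2e_Qp2525_95_120_0 o5b2e_Qm2525_95_120_0 rfl
      (I.qt O.GD (fun _ => O.HD) o5b2e_Qp2550_100_120_0 o5b2e_Qm2550_100_120_0 rfl
      (I.qt O.GD (fun _ => O.HD) o5b2e_Qp2600_95_100_0 o5b2e_Qm2600_95_100_0 rfl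
      (I.qt O.GD (fun _ => O.HD) o5b2e_Qp2700_100_100_0 o5b2e_Qm2700_100_100_0 rfl
      (I.qt O.GD (fun _ => O.HD) o5b2e_Qp2800_130_120_0 o5b2e_Qm2800_130_120_0 rfl
      (I.qt O.GD (fun _ => O.HD) o5b2e_Qp2900_160_120_0 o5b2e_Qm2900_160_120_0 rfl
      (I.qt O.GD (fun _ => O.HD) o5b2e_Qp3000_0_0_0 o5b2e_Qm3000_0_0_0 rfl QT.nil A16 B36) A16 B36) A16 B36) A16 B36) A16 B36) A16 B36) A16 B36) A16 B36)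
    (by decide) (by decide) O.hys O.hxs hx'

theorem pr5b3 {xs ys T ρ xs' T' : ℝ} (O : OneB xs ys T ρ) (I : o5b3.In T ρ xs ys)
    (H : HD xs' ys T' ρ (12 / 100) (30 / 100)) (l : LH xs' ys T' ρ (12 / 100) (30 / 100))
    (d : DnG xs' T' (12 / 100) (30 / 100) ys ρ) (I' : p5b3.In T' ρ xs' ys)
    (hx' : xs' ∈ Icc (12 / 100) (30 / 100)) :
    Pr ys ρ xs T (16 / 100) (36 / 100) (fun m => 355 / 1000 * m) (fun _ => 0) xs' T' (12 / 100) (30 / 100)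
      (fun _ => 0) (fun _ => 0) :=
  Pr.of (tab := [⟨2500, 2600, 0, 0, 0, 0, 0⟩, ⟨2600, 2700, 0, 0, 0, 0, 0⟩, ⟨2700, 2800, 0, 0, 0, 0, 0⟩, ⟨2800, 2900, 0, 0, 0, 0, 0⟩, ⟨2900, 3000, 0, 0, 0, 0, 0⟩, ⟨3000, 5000, 0, 0, 0, 0, 0⟩])
    (tab' := [⟨2500, 2600, 90, 50, 0, 0, 0⟩, ⟨2600, 2700, 130, 80, 0, 0, 0⟩, ⟨2700, 2800, 90, 80, 0, 0, 0⟩, ⟨2800, 2900, 130, 100, 0, 0, 0⟩, ⟨2900, 3000, 160, 120, 0, 0, 0⟩, ⟨3000, 5000, 0, 0, 0, 0, 0⟩])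
    (O.LF I o5b3_Wa o5b3_Wb hf355) (l.toF hz0 hz0 (by norm_num) (by norm_num))
    (I.dt O.GD (fun _ => O.HD) o5b3_Dp2500_0_0_0 o5b3_Dm2500_0_0_0 rfl hf355 hf0
      (I.dt O.GD (fun _ => O.HD) o5b3_Dp2600_0_0_0 o5b3_Dm2600_0_0_0 rfl hf355 hf0
      (I.dt O.GD (fun _ => O.HD) o5b3_Dp2700_0_0_0 o5b3_Dm2700_0_0_0 rfl hf355 hf0
      (I.dt O.GD (fun _ => O.HD) o5b3_Dp2800_0_0_0 o5b3_Dm2800_0_0_0 rfl hf355 hf0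
      (I.dt O.GD (fun _ => O.HD) o5b3_Dp2900_0_0_0 o5b3_Dm2900_0_0_0 rfl hf355 hf0
      (I.dt0 O.GD (fun _ => O.HD) o5b3_Qp3000_0_0_0 o5b3_Qm3000_0_0_0 rfl DT.nil A16 B36) A16 B36) A16 B36) A16 B36) A16 B36) A16 B36)
    (d.qt (d.qt (d.qt (d.qt (d.qt (d.qt QT.nil))))))
    (I'.dt H.toGD (fun _ => H) p5b3_Dp2500_90_50_0 p5b3_Dm2500_90_50_0 rfl hf0 hf0
      (I'.dt H.toGD (fun _ => H) p5b3_Dp2600_130_80_0 p5b3_Dm2600_130_80_0 rfl hf0 hf0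
      (I'.dt H.toGD (fun _ => H) p5b3_Dp2700_90_80_0 p5b3_Dm2700_90_80_0 rfl hf0 hf0
      (I'.dt H.toGD (fun _ => H) p5b3_Dp2800_130_100_0 p5b3_Dm2800_130_100_0 rfl hf0 hf0
      (I'.dt H.toGD (fun _ => H) p5b3_Dp2900_160_120_0 p5b3_Dm2900_160_120_0 rfl hf0 hf0
      (d.dt H.toGD DT.nil) A120 B30) A120 B30) A120 B30) A120 B30) A120 B30)
    (I.qt O.GD (fun _ => O.HD) o5b3_Qp2500_90_50_0 o5b3_Qm2500_90_50_0 rfl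
      (I.qt O.GD (fun _ => O.HD) o5b3_Qp2600_130_80_0 o5b3_Qm2600_130_80_0 rfl
      (I.qt O.GD (fun _ => O.HD) o5b3_Qp2700_90_80_0 o5b3_Qm2700_90_80_0 rfl
      (I.qt O.GD (fun _ => O.HD) o5b3_Qp2800_130_100_0 o5b3_Qm2800_130_100_0 rfl
      (I.qt O.GD (fun _ => O.HD) o5b3_Qp2900_160_120_0 o5b3_Qm2900_160_120_0 rfl
      (I.qt O.GD (fun _ => O.HD) o5b3_Qp3000_0_0_0 o5b3_Qm3000_0_0_0 rfl QT.nil A16 B36) A16 B36) A16 B36) A16 B36) A16 B36) A16 B36)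
    (by decide) (by decide) O.hys O.hxs hx'

theorem pr5b3e {xs ys T ρ xs' T' : ℝ} (O : OneB xs ys T ρ) (I : o5b3e.In T ρ xs ys)
    (H : HD xs' ys T' ρ (10 / 100) (26 / 100)) (l : LH xs' ys T' ρ (10 / 100) (26 / 100))
    (d : DnG xs' T' (10 / 100) (26 / 100) ys ρ) (I' : p5b3e.In T' ρ xs' ys)
    (hx' : xs' ∈ Icc (10 / 100) (26 / 100)) :
    Pr ys ρ xs T (16 / 100) (36 / 100) (fun m => 355 / 1000 * m) (fun _ => 0) xs' T' (10 / 100) (26 / 100)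
      (fun _ => 0) (fun _ => 0) :=
  Pr.of (tab := [⟨2500, 2600, 0, 0, 0, 0, 0⟩, ⟨2600, 2700, 0, 0, 0, 0, 0⟩, ⟨2700, 2800, 0, 0, 0, 0, 0⟩, ⟨2800, 2900, 0, 0, 0, 0, 0⟩, ⟨2900, 3000, 0, 0, 0, 0, 0⟩, ⟨3000, 5000, 0, 0, 0, 0, 0⟩])
    (tab' := [⟨2500, 2600, 130, 80, 0, 0, 0⟩, ⟨2600, 2700, 130, 80, 0, 0, 0⟩, ⟨2700, 2800, 160, 100, 0, 0, 0⟩, ⟨2800, 2900, 160, 100, 0, 0, 0⟩, ⟨2900, 3000, 160, 120, 0, 0, 0⟩, ⟨3000, 5000, 0, 0, 0, 0, 0⟩])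
    (O.LF I o5b3e_Wa o5b3e_Wb hf355) (l.toF hz0 hz0 (by norm_num) (by norm_num))
    (I.dt O.GD (fun _ => O.HD) o5b3e_Dp2500_0_0_0 o5b3e_Dm2500_0_0_0 rfl hf355 hf0
      (I.dt O.GD (fun _ => O.HD) o5b3e_Dp2600_0_0_0 o5b3e_Dm2600_0_0_0 rfl hf355 hf0
      (I.dt O.GD (fun _ => O.HD) o5b3e_Dp2700_0_0_0 o5b3e_Dm2700_0_0_0 rfl hf355 hf0
      (I.dt O.GD (fun _ => O.HD) o5b3e_Dp2800_0_0_0 o5b3e_Dm2800_0_0_0 rfl hf355 hf0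
      (I.dt O.GD (fun _ => O.HD) o5b3e_Dp2900_0_0_0 o5b3e_Dm2900_0_0_0 rfl hf355 hf0
      (I.dt0 O.GD (fun _ => O.HD) o5b3e_Qp3000_0_0_0 o5b3e_Qm3000_0_0_0 rfl DT.nil A16 B36) A16 B36) A16 B36) A16 B36) A16 B36) A16 B36)
    (d.qt (d.qt (d.qt (d.qt (d.qt (d.qt QT.nil))))))
    (I'.dt H.toGD (fun _ => H) p5b3e_Dp2500_130_80_0 p5b3e_Dm2500_130_80_0 rfl hf0 hf0
      (I'.dt H.toGD (fun _ => H) p5b3e_Dp2600_130_80_0 p5b3e_Dm2600_130_80_0 rfl hf0 hf0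
      (I'.dt H.toGD (fun _ => H) p5b3e_Dp2700_160_100_0 p5b3e_Dm2700_160_100_0 rfl hf0 hf0
      (I'.dt H.toGD (fun _ => H) p5b3e_Dp2800_160_100_0 p5b3e_Dm2800_160_100_0 rfl hf0 hf0
      (I'.dt H.toGD (fun _ => H) p5b3e_Dp2900_160_120_0 p5b3e_Dm2900_160_120_0 rfl hf0 hf0
      (d.dt H.toGD DT.nil) A10 B26) A10 B26) A10 B26) A10 B26) A10 B26)
    (I.qt O.GD (fun _ => O.HD) o5b3e_Qp2500_130_80_0 o5b3e_Qm2500_130_80_0 rfl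
      (I.qt O.GD (fun _ => O.HD) o5b3e_Qp2600_130_80_0 o5b3e_Qm2600_130_80_0 rfl
      (I.qt O.GD (fun _ => O.HD) o5b3e_Qp2700_160_100_0 o5b3e_Qm2700_160_100_0 rfl
      (I.qt O.GD (fun _ => O.HD) o5b3e_Qp2800_160_100_0 o5b3e_Qm2800_160_100_0 rfl
      (I.qt O.GD (fun _ => O.HD) o5b3e_Qp2900_160_120_0 o5b3e_Qm2900_160_120_0 rfl
      (I.qt O.GD (fun _ => O.HD) o5b3e_Qp3000_0_0_0 o5b3e_Qm3000_0_0_0 rfl QT.nil A16 B36) A16 B36) A16 B36) A16 B36) A16 B36) A16 B36)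
    (by decide) (by decide) O.hys O.hxs hx'

theorem pr5b3ex {xs ys T ρ xs' T' : ℝ} (O : OneB xs ys T ρ) (I : o5b3e.In T ρ xs ys)
    (Is : o5b3ex.In T ρ xs ys)
    (H : HD xs' ys T' ρ (10 / 100) (26 / 100)) (l : LH xs' ys T' ρ (10 / 100) (26 / 100))
    (d : DnG xs' T' (10 / 100) (26 / 100) ys ρ) (I' : p5b3e.In T' ρ xs' ys)
    (hx' : xs' ∈ Icc (10 / 100) (26 / 100)) :
    Pr ys ρ xs T (16 / 100) (36 / 100) (fun _ => 0) (fun _ => 0) xs' T' (10 / 100) (26 / 100)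
      (fun _ => 0) (fun _ => 0) :=
  Pr.of (tab := [⟨2500, 2600, 0, 0, 0, 0, 0⟩, ⟨2600, 2700, 0, 0, 0, 0, 0⟩, ⟨2700, 2800, 0, 0, 0, 0, 0⟩, ⟨2800, 2900, 0, 0, 0, 0, 0⟩, ⟨2900, 3000, 0, 0, 0, 0, 0⟩, ⟨3000, 5000, 0, 0, 0, 0, 0⟩])
    (tab' := [⟨2500, 2600, 130, 80, 0, 0, 0⟩, ⟨2600, 2700, 130, 80, 0, 0, 0⟩, ⟨2700, 2800, 160, 100, 0, 0, 0⟩, ⟨2800, 2900, 160, 100, 0, 0, 0⟩, ⟨2900, 3000, 160, 120, 0, 0, 0⟩, ⟨3000, 5000, 0, 0, 0, 0, 0⟩])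
    (O.LF Is o5b3ex_Wa o5b3ex_Wb hf0) (l.toF hz0 hz0 (by norm_num) (by norm_num))
    (Is.dtg O.GD (fun _ => O.HD) o5b3ex_Dp2500_0_0_0 o5b3ex_Dm2500_0_0_0 (Or.inl rfl) (Or.inl rfl) rfl hf0 hf0
      (Is.dtg O.GD (fun _ => O.HD) o5b3ex_Dp2600_0_0_0 o5b3ex_Dm2600_0_0_0 (Or.inl rfl) (Or.inl rfl) rfl hf0 hf0
      (Is.dtg O.GD (fun _ => O.HD) o5b3ex_Dp2700_0_0_0 o5b3ex_Dm2700_0_0_0 (Or.inl rfl) (Or.inl rfl) rfl hf0 hf0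
      (Is.dtg O.GD (fun _ => O.HD) o5b3ex_Dp2800_0_0_0 o5b3ex_Dm2800_0_0_0 (Or.inl rfl) (Or.inl rfl) rfl hf0 hf0
      (Is.dtg O.GD (fun _ => O.HD) o5b3ex_Dp2900_0_0_0 o5b3ex_Dm2900_0_0_0 (Or.inl rfl) (Or.inl rfl) rfl hf0 hf0
      (I.dt0 O.GD (fun _ => O.HD) o5b3e_Qp3000_0_0_0 o5b3e_Qm3000_0_0_0 rfl DT.nil A16 B36) A16 B36) A16 B36) A16 B36) A16 B36) A16 B36)
    (d.qt (d.qt (d.qt (d.qt (d.qt (d.qt QT.nil))))))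
    (I'.dt H.toGD (fun _ => H) p5b3e_Dp2500_130_80_0 p5b3e_Dm2500_130_80_0 rfl hf0 hf0
      (I'.dt H.toGD (fun _ => H) p5b3e_Dp2600_130_80_0 p5b3e_Dm2600_130_80_0 rfl hf0 hf0
      (I'.dt H.toGD (fun _ => H) p5b3e_Dp2700_160_100_0 p5b3e_Dm2700_160_100_0 rfl hf0 hf0
      (I'.dt H.toGD (fun _ => H) p5b3e_Dp2800_160_100_0 p5b3e_Dm2800_160_100_0 rfl hf0 hf0
      (I'.dt H.toGD (fun _ => H) p5b3e_Dp2900_160_120_0 p5b3e_Dm2900_160_120_0 rfl hf0 hf0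
      (d.dt H.toGD DT.nil) A10 B26) A10 B26) A10 B26) A10 B26) A10 B26)
    (I.qt O.GD (fun _ => O.HD) o5b3e_Qp2500_130_80_0 o5b3e_Qm2500_130_80_0 rfl
      (I.qt O.GD (fun _ => O.HD) o5b3e_Qp2600_130_80_0 o5b3e_Qm2600_130_80_0 rfl
      (I.qt O.GD (fun _ => O.HD) o5b3e_Qp2700_160_100_0 o5b3e_Qm2700_160_100_0 rfl
      (I.qt O.GD (fun _ => O.HD) o5b3e_Qp2800_160_100_0 o5b3e_Qm2800_160_100_0 rfl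
      (I.qt O.GD (fun _ => O.HD) o5b3e_Qp2900_160_120_0 o5b3e_Qm2900_160_120_0 rfl
      (I.qt O.GD (fun _ => O.HD) o5b3e_Qp3000_0_0_0 o5b3e_Qm3000_0_0_0 rfl QT.nil A16 B36) A16 B36) A16 B36) A16 B36) A16 B36) A16 B36)
    (by decide) (by decide) O.hys O.hxs hx'

theorem pr5bZ {xs ys T ρ xs' T' : ℝ} (O : OneB xs ys T ρ) (I : o5bZ.In T ρ xs ys)
    (H : HD xs' ys T' ρ (10 / 100) (27 / 100)) (l : LH xs' ys T' ρ (10 / 100) (27 / 100))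
    (d : DnG xs' T' (10 / 100) (27 / 100) ys ρ) (I' : p5bZ.In T' ρ xs' ys)
    (hx' : xs' ∈ Icc (10 / 100) (27 / 100)) (K : Kap xs' ys T' ρ (27 / 100)) (h17 : 17 / 100 ≤ xs')
    :
    Pr ys ρ xs T (16 / 100) (36 / 100) (fun m => 355 / 1000 * m) (fun _ => 0) xs' T' (10 / 100) (27 / 100)
      (fun _ => 0) (fun _ => 0) :=
  Pr.of (tab := [⟨2500, 2600, 0, 0, 0, 0, 0⟩, ⟨2600, 2700, 0, 0, 0, 0, 0⟩, ⟨2700, 2800, 0, 0, 0, 0, 0⟩, ⟨2800, 2900, 0, 0, 0, 0, 0⟩, ⟨2900, 3000, 0, 0, 0, 0, 0⟩, ⟨3000, 5000, 0, 0, 0, 0, 0⟩])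
    (tab' := [⟨2500, 2600, 115, 65, 0, 0, 0⟩, ⟨2600, 2700, 115, 80, 0, 0, 0⟩, ⟨2700, 2800, 115, 80, 0, 0, 0⟩, ⟨2800, 2900, 115, 100, 0, 0, 0⟩, ⟨2900, 3000, 100, 100, 0, 0, 0⟩, ⟨3000, 5000, 0, 0, 0, 0, 0⟩])
    (O.LF I o5bZ_Wa o5bZ_Wb hf355) (l.toF hz0 hz0 (by norm_num) (by norm_num))
    (I.dt O.GD (fun _ => O.HD) o5bZ_Dp2500_0_0_0 o5bZ_Dm2500_0_0_0 rfl hf355 hf0
      (I.dt O.GD (fun _ => O.HD) o5bZ_Dp2600_0_0_0 o5bZ_Dm2600_0_0_0 rfl hf355 hf0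
      (I.dt O.GD (fun _ => O.HD) o5bZ_Dp2700_0_0_0 o5bZ_Dm2700_0_0_0 rfl hf355 hf0
      (I.dt O.GD (fun _ => O.HD) o5bZ_Dp2800_0_0_0 o5bZ_Dm2800_0_0_0 rfl hf355 hf0
      (I.dt O.GD (fun _ => O.HD) o5bZ_Dp2900_0_0_0 o5bZ_Dm2900_0_0_0 rfl hf355 hf0
      (I.dt0 O.GD (fun _ => O.HD) o5bZ_Qp3000_0_0_0 o5bZ_Qm3000_0_0_0 rfl DT.nil A16 B36) A16 B36) A16 B36) A16 B36) A16 B36) A16 B36)
    (d.qt (d.qt (d.qt (d.qt (d.qt (d.qt QT.nil))))))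
    (I'.dk H.toGD (fun _ => H) K le_rfl h17 (by decide) p5bZ_Dm2500_115_65_0 rfl
      (I'.dk H.toGD (fun _ => H) K le_rfl h17 (by decide) p5bZ_Dm2600_115_80_0 rfl
      (I'.dk H.toGD (fun _ => H) K le_rfl h17 (by decide) p5bZ_Dm2700_115_80_0 rfl
      (I'.dk H.toGD (fun _ => H) K le_rfl h17 (by decide) p5bZ_Dm2800_115_100_0 rfl
      (I'.dk H.toGD (fun _ => H) K le_rfl h17 (by decide) p5bZ_Dm2900_100_100_0 rfl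
      (d.dt H.toGD DT.nil) A10) A10) A10) A10) A10)
    (I.qt O.GD (fun _ => O.HD) o5bZ_Qp2500_115_65_0 o5bZ_Qm2500_115_65_0 rfl
      (I.qt O.GD (fun _ => O.HD) o5bZ_Qp2600_115_80_0 o5bZ_Qm2600_115_80_0 rfl
      (I.qt O.GD (fun _ => O.HD) o5bZ_Qp2700_115_80_0 o5bZ_Qm2700_115_80_0 rfl
      (I.qt O.GD (fun _ => O.HD) o5bZ_Qp2800_115_100_0 o5bZ_Qm2800_115_100_0 rfl
      (I.qt O.GD (fun _ => O.HD) o5bZ_Qp2900_100_100_0 o5bZ_Qm2900_100_100_0 rfl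
      (I.qt O.GD (fun _ => O.HD) o5bZ_Qp3000_0_0_0 o5bZ_Qm3000_0_0_0 rfl QT.nil A16 B36) A16 B36) A16 B36) A16 B36) A16 B36) A16 B36)
    (by decide) (by decide) O.hys O.hxs hx'

theorem pr5bZs {xs ys T ρ xs' T' : ℝ} (O : OneB xs ys T ρ) (I : o5bZs.In T ρ xs ys)
    (H : HD xs' ys T' ρ (10 / 100) (27 / 100)) (l : LH xs' ys T' ρ (10 / 100) (27 / 100))
    (d : DnG xs' T' (10 / 100) (27 / 100) ys ρ) (I' : p5bZs.In T' ρ xs' ys)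
    (hx' : xs' ∈ Icc (10 / 100) (27 / 100)) (K : Kap xs' ys T' ρ (27 / 100)) (h17 : 17 / 100 ≤ xs')
    :
    Pr ys ρ xs T (16 / 100) (36 / 100) (fun m => 355 / 1000 * m) (fun _ => 0) xs' T' (10 / 100) (27 / 100)
      (fun _ => 0) (fun _ => 0) :=
  Pr.of (tab := [⟨2500, 2600, 0, 0, 0, 0, 0⟩, ⟨2600, 2700, 0, 0, 0, 0, 0⟩, ⟨2700, 2800, 0, 0, 0, 0, 0⟩, ⟨2800, 2900, 0, 0, 0, 0, 0⟩, ⟨2900, 3000, 0, 0, 0, 0, 0⟩, ⟨3000, 5000, 0, 0, 0, 0, 0⟩])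
    (tab' := [⟨2500, 2600, 100, 50, 0, 0, 0⟩, ⟨2600, 2700, 100, 65, 0, 0, 0⟩, ⟨2700, 2800, 90, 65, 0, 0, 0⟩, ⟨2800, 2900, 90, 80, 0, 0, 0⟩, ⟨2900, 3000, 115, 100, 0, 0, 0⟩, ⟨3000, 5000, 0, 0, 0, 0, 0⟩])
    (O.LF I o5bZs_Wa o5bZs_Wb hf355) (l.toF hz0 hz0 (by norm_num) (by norm_num))
    (I.dt O.GD (fun _ => O.HD) o5bZs_Dp2500_0_0_0 o5bZs_Dm2500_0_0_0 rfl hf355 hf0
      (I.dt O.GD (fun _ => O.HD) o5bZs_Dp2600_0_0_0 o5bZs_Dm2600_0_0_0 rfl hf355 hf0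
      (I.dt O.GD (fun _ => O.HD) o5bZs_Dp2700_0_0_0 o5bZs_Dm2700_0_0_0 rfl hf355 hf0
      (I.dt O.GD (fun _ => O.HD) o5bZs_Dp2800_0_0_0 o5bZs_Dm2800_0_0_0 rfl hf355 hf0
      (I.dt O.GD (fun _ => O.HD) o5bZs_Dp2900_0_0_0 o5bZs_Dm2900_0_0_0 rfl hf355 hf0
      (I.dt0 O.GD (fun _ => O.HD) o5bZs_Qp3000_0_0_0 o5bZs_Qm3000_0_0_0 rfl DT.nil A16 B36) A16 B36) A16 B36) A16 B36) A16 B36) A16 B36)
    (d.qt (d.qt (d.qt (d.qt (d.qt (d.qt QT.nil))))))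
    (I'.dk H.toGD (fun _ => H) K le_rfl h17 (by decide) p5bZs_Dm2500_100_50_0 rfl
      (I'.dk H.toGD (fun _ => H) K le_rfl h17 (by decide) p5bZs_Dm2600_100_65_0 rfl
      (I'.dk H.toGD (fun _ => H) K le_rfl h17 (by decide) p5bZs_Dm2700_90_65_0 rfl
      (I'.dk H.toGD (fun _ => H) K le_rfl h17 (by decide) p5bZs_Dm2800_90_80_0 rfl
      (I'.dk H.toGD (fun _ => H) K le_rfl h17 (by decide) p5bZs_Dm2900_115_100_0 rfl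
      (d.dt H.toGD DT.nil) A10) A10) A10) A10) A10)
    (I.qt O.GD (fun _ => O.HD) o5bZs_Qp2500_100_50_0 o5bZs_Qm2500_100_50_0 rfl
      (I.qt O.GD (fun _ => O.HD) o5bZs_Qp2600_100_65_0 o5bZs_Qm2600_100_65_0 rfl
      (I.qt O.GD (fun _ => O.HD) o5bZs_Qp2700_90_65_0 o5bZs_Qm2700_90_65_0 rfl
      (I.qt O.GD (fun _ => O.HD) o5bZs_Qp2800_90_80_0 o5bZs_Qm2800_90_80_0 rfl
      (I.qt O.GD (fun _ => O.HD) o5bZs_Qp2900_115_100_0 o5bZs_Qm2900_115_100_0 rfl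
      (I.qt O.GD (fun _ => O.HD) o5bZs_Qp3000_0_0_0 o5bZs_Qm3000_0_0_0 rfl QT.nil A16 B36) A16 B36) A16 B36) A16 B36) A16 B36) A16 B36)
    (by decide) (by decide) O.hys O.hxs hx'

end RC

end Pool.Agent.Work.MP_b30479_gt.G2
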