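import Pool.Agent.Work.MP_b30479_gt.G2.RLvlB
import Pool.Agent.Work.MP_b30479_gt.G2.RGp5b
import Pool.Agent.Work.MP_b30479_gt.G2.RLvlA
import Pool.Agent.Work.MP_b30479_gt.G2.WLocV

/-!
# Rings on the level part: the pairs of hinges by class
-/

namespace Pool.Agent.Work.MP_b30479_gt.G2

open Finset VOL Filter Topology

namespace SR

/-- **A ring between a digit `1` and a class `k`, the pair of hinges.** -/
theorem pm5b {xs ys T ρ xs' T' : ℝ} {k : Cl} {s : Bool}
    (hk : k ≠ .one)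
    (q : (rq5 .two k s).Re xs ys T ρ)
    (r : (rp5 .two k s).Re xs' ys T' ρ)
    (B : Bd5 k s xs ys T ρ)
    (D : Lo k xs' ys T' ρ)
    (KZ : k = .ring → |T'| ≤ 47 / 1000)
    (hx : xs' ∈ Set.Icc (fcl k) (fcp k)) :
    PrS 5 .two k xs ys T ρ xs' T' := by
  cases k
  · exact absurd rfl hk
  · have q0 : (mk4 2558 2961 1357 1629 1218 1596 289 543 (-1198) (-804) 4461 4172).Re xs ys T ρ := q
    have r0 : (mk4 2012 2537 1357 1629 688 1187 289 543 (-784) (-254) 4017 3728).Re xs' ys T' ρ := r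
    have O := q0.oneB RC.Row.cH5b (by decide)
    have I : RC.o5b2.In T ρ xs ys := wdk_in q0 (by decide) (k := 1520) (by
      have := B.kp
      simp only [ka5] at this
      push_cast at this ⊢
      linarith only [this])
    have J : RC.p5b2.In T' ρ xs' ys := wd4_in r0 (by decide)
    obtain ⟨H, l, d⟩ := D
    rcases le_or_gt xs (2563 / 10000) with hs | hs
    · have Is : RC.o5b2x.In T ρ xs ys := I.cut (n := 2563) (by push_cast; exact hs)
      exact ⟨_, _, Or.inl rfl, Or.inl rfl, RC.pr5b2x O I Is H l d J hx⟩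
    · exact ⟨_, _, Or.inr ⟨rfl, hs.le, Or.inr ⟨by decide, q0.tlo5 (by decide), rfl⟩⟩, Or.inl rfl, RC.pr5b2 O I H l d J hx⟩
  · have q0 : (mk4 2534 2924 1400 1627 1163 1514 221 442 (-1193) (-821) 4424 4203).Re xs ys T ρ := q
    have r0 : (mk4 1652 1856 1400 1627 1327 1544 221 442 (-1209) (-1003) 3382 3161).Re xs' ys T' ρ := r
    have q2 : (mk4 2534 2924 1400 1627 1163 1514 240 442 (-1193) (-821) 4424 4203).Re xs ys T ρ :=
      ⟨q0.x0, q0.x1, q0.s0, q0.s1, q0.q0, q0.q1, B.e rfl, q0.r1, q0.t0, q0.t1, q0.c1, q0.cr⟩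
    have r2 : (mk4 1652 1856 1400 1627 1327 1544 240 442 (-1209) (-1003) 3382 3161).Re xs' ys T' ρ :=
      ⟨r0.x0, r0.x1, r0.s0, r0.s1, r0.q0, r0.q1, B.e rfl, r0.r1, r0.t0, r0.t1, r0.c1, r0.cr⟩
    have O := q0.oneB RC.Row.cH5b (by decide)
    have I : RC.o5b2e.In T ρ xs ys := wdk_in q2 (by decide) (k := 1530) (by
      have := B.kp
      simp only [ka5] at this
      push_cast at this ⊢
      linarith only [this])
    have J : RC.p5b2e.In T' ρ xs' ys := wd4_in r2 (by decide)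
    obtain ⟨H, l, d⟩ := D
    rcases le_or_gt xs (2563 / 10000) with hs | hs
    · have Is : RC.o5b2ex.In T ρ xs ys := I.cut (n := 2563) (by push_cast; exact hs)
      exact ⟨_, _, Or.inl rfl, Or.inl rfl, RC.pr5b2ex O I Is H l d J hx⟩
    · exact ⟨_, _, Or.inr ⟨rfl, hs.le, Or.inr ⟨by decide, q0.tlo5 (by decide), rfl⟩⟩, Or.inl rfl, RC.pr5b2e O I H l d J hx⟩
  · have q0 : (mk4 2567 2963 1400 1651 1237 1599 316 557 (-1178) (-794) 4480 4164).Re xs ys T ρ := q
    have r0 : (mk4 1983 2329 1400 1651 548 897 316 557 (-461) (-93) 3853 3537).Re xs' ys T' ρ := r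
    have O := q0.oneB RC.Row.cH5b (by decide)
    have I : RC.o5b3.In T ρ xs ys := wdk_in q0 (by decide) (k := 1510) (by
      have := B.kp
      simp only [ka5] at this
      push_cast at this ⊢
      linarith only [this])
    have J : RC.p5b3.In T' ρ xs' ys := wd4_in r0 (by decide)
    obtain ⟨H, l, d⟩ := D
    exact ⟨_, _, Or.inr ⟨rfl, q0.xlo (by decide), Or.inr ⟨by decide, q0.tlo5 (by decide), rfl⟩⟩, Or.inl rfl, RC.pr5b3 O I H l d J hx⟩
  · have q0 : (mk4 2552 2945 1434 1662 1206 1556 286 510 (-1170) (-797) 4479 4193).Re xs ys T ρ := q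
    have r0 : (mk4 1767 1971 1434 1662 690 909 286 510 (-505) (-299) 3531 3245).Re xs' ys T' ρ := r
    have O := q0.oneB RC.Row.cH5b (by decide)
    have I : RC.o5b3e.In T ρ xs ys := wdk_in q0 (by decide) (k := 1520) (by
      have := B.kp
      simp only [ka5] at this
      push_cast at this ⊢
      linarith only [this])
    have J : RC.p5b3e.In T' ρ xs' ys := wd4_in r0 (by decide)
    obtain ⟨H, l, d⟩ := D
    rcases le_or_gt xs (2563 / 10000) with hs | hs
    · have Is : RC.o5b3ex.In T ρ xs ys := I.cut (n := 2563) (by push_cast; exact hs)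
      exact ⟨_, _, Or.inl rfl, Or.inl rfl, RC.pr5b3ex O I Is H l d J hx⟩
    · exact ⟨_, _, Or.inr ⟨rfl, hs.le, Or.inr ⟨by decide, q0.tlo5 (by decide), rfl⟩⟩, Or.inl rfl, RC.pr5b3e O I H l d J hx⟩
  · cases s
    · have q0 : (mk4 2566 2988 1422 1674 1236 1646 330 616 (-1168) (-779) 4525 4195).Re xs ys T ρ := q
      have r0 : (mk4 1904 2422 1422 1674 265 746 330 616 (-299) 233 3980 3650).Re xs' ys T' ρ := r
      have O := q0.oneB RC.Row.cH5b (by decide)
      have I : RC.o5bZ.In T ρ xs ys := wdk_in q0 (by decide) (k := 1510) (by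
        have := B.kp
        simp only [ka5] at this
        push_cast at this ⊢
        linarith only [this])
      have J : RC.p5bZ.In T' ρ xs' ys := wd4_in r0 (by decide)
      have K := r0.kap (by decide) (KZ rfl)
      obtain ⟨H, l, d⟩ := D
      exact ⟨_, _, Or.inr ⟨rfl, q0.xlo (by decide), Or.inr ⟨by decide, q0.tlo5 (by decide), rfl⟩⟩, Or.inl rfl, RC.pr5bZ O I H l d J hx K.1 K.2⟩
    · have q0 : (mk4 2573 2988 1437 1731 1247 1646 357 616 (-1154) (-754) 4574 4217).Re xs ys T ρ := q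
      have r0 : (mk4 1831 2422 1437 1731 3 482 357 616 27 494 3980 3623).Re xs' ys T' ρ := r
      have k0 : (mk4 2553 2968 1417 1711 1267 1666 377 636 (-1174) (-774) 4554 4177).Re xs ys T ρ := B.z rfl rfl
      have q2 : (mk4 2573 2968 1437 1711 1267 1646 377 616 (-1154) (-774) 4554 4177).Re xs ys T ρ :=
        ⟨q0.x0, k0.x1, q0.s0, k0.s1, k0.q0, q0.q1, k0.r0, q0.r1, q0.t0, k0.t1, k0.c1, k0.cr⟩
      have O := q0.oneB RC.Row.cH5b (by decide)
      have I : RC.o5bZs.In T ρ xs ys := wdk_in q2 (by decide) (k := 1515) (by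
        have := B.kp
        simp only [ka5] at this
        push_cast at this ⊢
        linarith only [this])
      have J : RC.p5bZs.In T' ρ xs' ys := wd4_in r0 (by decide)
      have K := r0.kap (by decide) (KZ rfl)
      obtain ⟨H, l, d⟩ := D
      exact ⟨_, _, Or.inr ⟨rfl, q0.xlo (by decide), Or.inr ⟨by decide, q0.tlo5 (by decide), rfl⟩⟩, Or.inl rfl, RC.pr5bZs O I H l d J hx K.1 K.2⟩

end SR

end Pool.Agent.Work.MP_b30479_gt.G2
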