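import Pool.Agent.Work.MP_b30479_gt.G2.RGp5c
import Pool.Agent.Work.MP_b30479_gt.G2.RLvlA
import Pool.Agent.Work.MP_b30479_gt.G2.WLocV

/-!
# Rings on the level part: the pairs of hinges by class
-/

namespace Pool.Agent.Work.MP_b30479_gt.G2

open Finset VOL Filter Topology

namespace SR

/-- **A ring between a digit `1` and a class `k`, the pair of hinges.** -/
theorem pm5c {xs ys T ρ xs' T' : ℝ} {k : Cl} {s : Bool}
    (hk : k ≠ .one)
    (q : (rq5 .twoE k s).Re xs ys T ρ)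
    (r : (rp5 .twoE k s).Re xs' ys T' ρ)
    (D : Lo k xs' ys T' ρ)
    (KZ : k = .ring → |T'| ≤ 47 / 1000)
    (hx : xs' ∈ Set.Icc (fcl k) (fcp k)) :
    PrS 5 .twoE k xs ys T ρ xs' T' := by
  cases k
  · exact absurd rfl hk
  · have q0 : (mk4 2403 2616 1396 1644 1534 1765 261 497 (-1386) (-1168) 4158 3897).Re xs ys T ρ := q
    have r0 : (mk4 2002 2522 1396 1644 656 1186 261 517 (-780) (-259) 4017 3756).Re xs' ys T' ρ := r
    have O := q0.oneB RC.Row.cH5c (by decide)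
    have I : RC.o5c2.In T ρ xs ys := wd4_in q0 (by decide)
    have J : RC.p5c2.In T' ρ xs' ys := wd4_in r0 (by decide)
    obtain ⟨H, l, d⟩ := D
    exact ⟨_, _, Or.inl rfl, Or.inl rfl, RC.pr5c2 O I H l d J hx⟩
  · have q0 : (mk4 2380 2580 1436 1636 1475 1675 195 395 (-1380) (-1180) 4116 3921).Re xs ys T ρ := q
    have r0 : (mk4 1645 1845 1436 1636 1299 1539 195 435 (-1203) (-1003) 3381 3186).Re xs' ys T' ρ := r
    have O := q0.oneB RC.Row.cH5c (by decide)
    have I : RC.o5c2e.In T ρ xs ys := wd4_in q0 (by decide)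
    have J : RC.p5c2e.In T' ρ xs' ys := wd4_in r0 (by decide)
    obtain ⟨H, l, d⟩ := D
    exact ⟨_, _, Or.inl rfl, Or.inl rfl, RC.pr5c2e O I H l d J hx⟩
  · have q0 : (mk4 2413 2619 1442 1668 1554 1769 292 510 (-1368) (-1158) 4184 3892).Re xs ys T ρ := q
    have r0 : (mk4 1973 2315 1442 1668 508 856 292 530 (-459) (-98) 3857 3565).Re xs' ys T' ρ := r
    have O := q0.oneB RC.Row.cH5c (by decide)
    have I : RC.o5c3.In T ρ xs ys := wd4_in q0 (by decide)
    have J : RC.p5c3.In T' ρ xs' ys := wd4_in r0 (by decide)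
    obtain ⟨H, l, d⟩ := D
    exact ⟨_, _, Or.inl rfl, Or.inl rfl, RC.pr5c3 O I H l d J hx⟩
  · have q0 : (mk4 2400 2600 1475 1675 1520 1720 261 461 (-1359) (-1159) 4175 3914).Re xs ys T ρ := q
    have r0 : (mk4 1760 1960 1475 1675 664 884 261 481 (-503) (-303) 3535 3274).Re xs' ys T' ρ := r
    have O := q0.oneB RC.Row.cH5c (by decide)
    have I : RC.o5c3e.In T ρ xs ys := wd4_in q0 (by decide)
    have J : RC.p5c3e.In T' ρ xs' ys := wd4_in r0 (by decide)
    obtain ⟨H, l, d⟩ := D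
    exact ⟨_, _, Or.inl rfl, Or.inl rfl, RC.pr5c3e O I H l d J hx⟩
  · cases s
    · have q0 : (mk4 2413 2639 1465 1692 1552 1816 301 568 (-1359) (-1147) 4223 3922).Re xs ys T ρ := q
      have r0 : (mk4 1897 2407 1465 1692 245 729 301 588 (-299) 223 3991 3690).Re xs' ys T' ρ := r
      have O := q0.oneB RC.Row.cH5c (by decide)
      have I : RC.o5cZ.In T ρ xs ys := wd4_in q0 (by decide)
      have J : RC.p5cZ.In T' ρ xs' ys := wd4_in r0 (by decide)
      have K := r0.kap (by decide) (KZ rfl)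
      obtain ⟨H, l, d⟩ := D
      exact ⟨_, _, Or.inl rfl, Or.inl rfl, RC.pr5cZ O I H l d J hx K.1 K.2⟩
    · have q0 : (mk4 2420 2639 1484 1751 1557 1816 331 589 (-1347) (-1122) 4282 3951).Re xs ys T ρ := q
      have r0 : (mk4 1828 2407 1484 1751 (-23) 444 331 589 24 483 3991 3660).Re xs' ys T' ρ := r
      have O := q0.oneB RC.Row.cH5c (by decide)
      have I : RC.o5cZs.In T ρ xs ys := wd4_in q0 (by decide)
      have J : RC.p5cZs.In T' ρ xs' ys := wd4_in r0 (by decide)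
      have K := r0.kap (by decide) (KZ rfl)
      obtain ⟨H, l, d⟩ := D
      exact ⟨_, _, Or.inl rfl, Or.inl rfl, RC.pr5cZs O I H l d J hx K.1 K.2⟩

end SR

end Pool.Agent.Work.MP_b30479_gt.G2
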