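import Pool.Agent.Work.MP_b30479_gt.G2.RGp6a
import Pool.Agent.Work.MP_b30479_gt.G2.RLvlA
import Pool.Agent.Work.MP_b30479_gt.G2.WLocV

/-!
# Rings on the level part: the pairs of hinges by class
-/

namespace Pool.Agent.Work.MP_b30479_gt.G2

open Finset VOL Filter Topology

namespace SR

/-- **A ring between a digit `1` and a class `k`, the pair of hinges.** -/
theorem pm6a {xs ys T ρ xs' T' : ℝ} {k : Cl} {s : Bool}
    (hk : k ≠ .one)
    (q : (rq6 .one k s).Re xs ys T ρ)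
    (r : (rp6 .one k s).Re xs' ys T' ρ)
    (D : Lo k xs' ys T' ρ)
    (KZ : k = .ring → |T'| ≤ 47 / 1000)
    (hx : xs' ∈ Set.Icc (fcl k) (fcp k)) :
    PrS 6 .one k xs ys T ρ xs' T' := by
  cases k
  · exact absurd rfl hk
  · have q0 : (mk4 2241 2787 1185 1496 909 1533 179 472 (-1164) (-569) 4121 3942).Re xs ys T ρ := q
    have r0 : (mk4 1995 2558 1185 1496 610 1174 179 472 (-852) (-278) 3896 3717).Re xs' ys T' ρ := r
    have O := q0.oneB RC.Row.cH6 (by decide)
    have I : RC.o6a2.In T ρ xs ys := wd4_in q0 (by decide)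
    have J : RC.p6a2.In T' ρ xs' ys := wd4_in r0 (by decide)
    obtain ⟨H, l, d⟩ := D
    exact ⟨_, _, Or.inl rfl, Or.inl rfl, RC.pr6a2 O I H l d J hx⟩
  · have q0 : (mk4 2226 2765 1214 1491 858 1471 123 394 (-1164) (-583) 4099 3976).Re xs ys T ρ := q
    have r0 : (mk4 1626 1871 1214 1491 1267 1534 123 394 (-1268) (-1020) 3241 3118).Re xs' ys T' ρ := r
    have O := q0.oneB RC.Row.cH6 (by decide)
    have I : RC.o6a2e.In T ρ xs ys := wd4_in q0 (by decide)
    have J : RC.p6a2e.In T' ρ xs' ys := wd4_in r0 (by decide)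
    obtain ⟨H, l, d⟩ := D
    exact ⟨_, _, Or.inl rfl, Or.inl rfl, RC.pr6a2e O I H l d J hx⟩
  · have q0 : (mk4 2245 2786 1222 1514 918 1528 201 479 (-1144) (-565) 4134 3933).Re xs ys T ρ := q
    have r0 : (mk4 1973 2357 1222 1514 472 870 201 479 (-525) (-126) 3731 3530).Re xs' ys T' ρ := r
    have O := q0.oneB RC.Row.cH6 (by decide)
    have I : RC.o6a3.In T ρ xs ys := wd4_in q0 (by decide)
    have J : RC.p6a3.In T' ρ xs' ys := wd4_in r0 (by decide)
    obtain ⟨H, l, d⟩ := D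
    exact ⟨_, _, Or.inl rfl, Or.inl rfl, RC.pr6a3 O I H l d J hx⟩
  · have q0 : (mk4 2234 2753 1247 1522 894 1501 172 447 (-1142) (-567) 4119 3947).Re xs ys T ρ := q
    have r0 : (mk4 1751 1995 1247 1522 612 881 172 447 (-562) (-315) 3396 3224).Re xs' ys T' ρ := r
    have O := q0.oneB RC.Row.cH6 (by decide)
    have I : RC.o6a3e.In T ρ xs ys := wd4_in q0 (by decide)
    have J : RC.p6a3e.In T' ρ xs' ys := wd4_in r0 (by decide)
    obtain ⟨H, l, d⟩ := D
    exact ⟨_, _, Or.inl rfl, Or.inl rfl, RC.pr6a3e O I H l d J hx⟩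
  · cases s
    · have q0 : (mk4 2245 2795 1239 1536 918 1573 203 532 (-1139) (-552) 4170 3967).Re xs ys T ρ := q
      have r0 : (mk4 1896 2471 1239 1536 170 715 203 532 (-352) 214 3875 3672).Re xs' ys T' ρ := r
      have O := q0.oneB RC.Row.cH6 (by decide)
      have I : RC.o6aZ.In T ρ xs ys := wd4_in q0 (by decide)
      have J : RC.p6aZ.In T' ρ xs' ys := wd4_in r0 (by decide)
      have K := r0.kap (by decide) (KZ rfl)
      obtain ⟨H, l, d⟩ := D
      exact ⟨_, _, Or.inl rfl, Or.inl rfl, RC.pr6aZ O I H l d J hx K.1 K.2⟩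
    · have q0 : (mk4 2246 2793 1255 1582 935 1569 225 532 (-1135) (-540) 4198 3973).Re xs ys T ρ := q
      have r0 : (mk4 1844 2470 1255 1582 (-107) 436 225 532 (-33) 489 3875 3650).Re xs' ys T' ρ := r
      have O := q0.oneB RC.Row.cH6 (by decide)
      have I : RC.o6aZs.In T ρ xs ys := wd4_in q0 (by decide)
      have J : RC.p6aZs.In T' ρ xs' ys := wd4_in r0 (by decide)
      have K := r0.kap (by decide) (KZ rfl)
      obtain ⟨H, l, d⟩ := D
      exact ⟨_, _, Or.inl rfl, Or.inl rfl, RC.pr6aZs O I H l d J hx K.1 K.2⟩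

end SR

end Pool.Agent.Work.MP_b30479_gt.G2
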