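import Pool.Agent.Work.MP_b30479_gt.G2.RGm30
import Pool.Agent.Work.MP_b30479_gt.G2.RGm31
import Pool.Agent.Work.MP_b30479_gt.G2.RGm32
import Pool.Agent.Work.MP_b30479_gt.G2.RGn07
import Pool.Agent.Work.MP_b30479_gt.G2.RLvl7
import Pool.Agent.Work.MP_b30479_gt.G2.RLvl8

/-!
# Rings on the level part: pairs of hinges
-/

namespace Pool.Agent.Work.MP_b30479_gt.G2

open Real Set

namespace RC

open R6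

theorem pr6b2 {xs ys T ρ xs' T' : ℝ} (O : OneB xs ys T ρ) (I : o6b2.In T ρ xs ys)
    (H : HD xs' ys T' ρ (125 / 1000) (30 / 100)) (l : LH xs' ys T' ρ (125 / 1000) (30 / 100))
    (d : DnG xs' T' (125 / 1000) (30 / 100) ys ρ) (I' : p6b2.In T' ρ xs' ys)
    (hx' : xs' ∈ Icc (125 / 1000) (30 / 100)) :
    Pr ys ρ xs T (16 / 100) (36 / 100) (fun m => 355 / 1000 * m) (fun _ => 0) xs' T' (125 / 1000) (30 / 100)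
      (fun _ => 0) (fun _ => 0) :=
  Pr.of (tab := [⟨2500, 2700, 0, 0, 0, 0, 0⟩, ⟨2700, 2900, 0, 0, 0, 0, 0⟩, ⟨2900, 5000, 0, 0, 0, 0, 0⟩])
    (tab' := [⟨2500, 2700, 115, 100, 0, 0, 0⟩, ⟨2700, 2900, 115, 120, 0, 0, 0⟩, ⟨2900, 5000, 0, 0, 0, 0, 0⟩])
    (O.LF I o6b2_Wa o6b2_Wb hf355) (l.toF hz0 hz0 (by norm_num) (by norm_num))
    (I.dt O.GD (fun _ => O.HD) o6b2_Dp2500_0_0_0 o6b2_Dm2500_0_0_0 rfl hf355 hf0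
      (I.dt O.GD (fun _ => O.HD) o6b2_Dp2700_0_0_0 o6b2_Dm2700_0_0_0 rfl hf355 hf0
      (I.dt0 O.GD (fun _ => O.HD) o6b2_Qp2900_0_0_0 o6b2_Qm2900_0_0_0 rfl DT.nil A16 B36) A16 B36) A16 B36)
    (d.qt (d.qt (d.qt QT.nil)))
    (I'.dt H.toGD (fun _ => H) p6b2_Dp2500_115_100_0 p6b2_Dm2500_115_100_0 rfl hf0 hf0
      (I'.dt H.toGD (fun _ => H) p6b2_Dp2700_115_120_0 p6b2_Dm2700_115_120_0 rfl hf0 hf0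
      (d.dt H.toGD DT.nil) A12 B30) A12 B30)
    (I.qt O.GD (fun _ => O.HD) o6b2_Qp2500_115_100_0 o6b2_Qm2500_115_100_0 rfl
      (I.qt O.GD (fun _ => O.HD) o6b2_Qp2700_115_120_0 o6b2_Qm2700_115_120_0 rfl
      (I.qt O.GD (fun _ => O.HD) o6b2_Qp2900_0_0_0 o6b2_Qm2900_0_0_0 rfl QT.nil A16 B36) A16 B36) A16 B36)
    (by decide) (by decide) O.hys O.hxs hx'

theorem pr6b2x {xs ys T ρ xs' T' : ℝ} (O : OneB xs ys T ρ) (I : o6b2.In T ρ xs ys)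
    (Is : o6b2x.In T ρ xs ys)
    (H : HD xs' ys T' ρ (125 / 1000) (30 / 100)) (l : LH xs' ys T' ρ (125 / 1000) (30 / 100))
    (d : DnG xs' T' (125 / 1000) (30 / 100) ys ρ) (I' : p6b2.In T' ρ xs' ys)
    (hx' : xs' ∈ Icc (125 / 1000) (30 / 100)) :
    Pr ys ρ xs T (16 / 100) (36 / 100) (fun _ => 0) (fun _ => 0) xs' T' (125 / 1000) (30 / 100)
      (fun _ => 0) (fun _ => 0) :=
  Pr.of (tab := [⟨2500, 2700, 0, 0, 0, 0, 0⟩, ⟨2700, 2900, 0, 0, 0, 0, 0⟩, ⟨2900, 5000, 0, 0, 0, 0, 0⟩])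
    (tab' := [⟨2500, 2700, 115, 100, 0, 0, 0⟩, ⟨2700, 2900, 115, 120, 0, 0, 0⟩, ⟨2900, 5000, 0, 0, 0, 0, 0⟩])
    (O.LF Is o6b2x_Wa o6b2x_Wb hf0) (l.toF hz0 hz0 (by norm_num) (by norm_num))
    (Is.dtg O.GD (fun _ => O.HD) o6b2x_Dp2500_0_0_0 o6b2x_Dm2500_0_0_0 (Or.inl rfl) (Or.inl rfl) rfl hf0 hf0
      (Is.dtg O.GD (fun _ => O.HD) o6b2x_Dp2700_0_0_0 o6b2x_Dm2700_0_0_0 (Or.inl rfl) (Or.inl rfl) rfl hf0 hf0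
      (I.dt0 O.GD (fun _ => O.HD) o6b2_Qp2900_0_0_0 o6b2_Qm2900_0_0_0 rfl DT.nil A16 B36) A16 B36) A16 B36)
    (d.qt (d.qt (d.qt QT.nil)))
    (I'.dt H.toGD (fun _ => H) p6b2_Dp2500_115_100_0 p6b2_Dm2500_115_100_0 rfl hf0 hf0
      (I'.dt H.toGD (fun _ => H) p6b2_Dp2700_115_120_0 p6b2_Dm2700_115_120_0 rfl hf0 hf0
      (d.dt H.toGD DT.nil) A12 B30) A12 B30)
    (I.qt O.GD (fun _ => O.HD) o6b2_Qp2500_115_100_0 o6b2_Qm2500_115_100_0 rfl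
      (I.qt O.GD (fun _ => O.HD) o6b2_Qp2700_115_120_0 o6b2_Qm2700_115_120_0 rfl
      (I.qt O.GD (fun _ => O.HD) o6b2_Qp2900_0_0_0 o6b2_Qm2900_0_0_0 rfl QT.nil A16 B36) A16 B36) A16 B36)
    (by decide) (by decide) O.hys O.hxs hx'

theorem pr6b2e {xs ys T ρ xs' T' : ℝ} (O : OneB xs ys T ρ) (I : o6b2e.In T ρ xs ys)
    (H : HD xs' ys T' ρ (125 / 1000) (30 / 100)) (l : LH xs' ys T' ρ (125 / 1000) (30 / 100))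
    (d : DnG xs' T' (125 / 1000) (30 / 100) ys ρ) (I' : p6b2e.In T' ρ xs' ys)
    (hx' : xs' ∈ Icc (125 / 1000) (30 / 100)) :
    Pr ys ρ xs T (16 / 100) (36 / 100) (fun m => 355 / 1000 * m) (fun _ => 0) xs' T' (125 / 1000) (30 / 100)
      (fun _ => 0) (fun _ => 0) :=
  Pr.of (tab := [⟨2500, 2700, 0, 0, 0, 0, 0⟩, ⟨2700, 2900, 0, 0, 0, 0, 0⟩, ⟨2900, 5000, 0, 0, 0, 0, 0⟩])
    (tab' := [⟨2500, 2700, 90, 150, 0, 0, 0⟩, ⟨2700, 2900, 115, 150, 0, 0, 0⟩, ⟨2900, 5000, 0, 0, 0, 0, 0⟩])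
    (O.LF I o6b2e_Wa o6b2e_Wb hf355) (l.toF hz0 hz0 (by norm_num) (by norm_num))
    (I.dt O.GD (fun _ => O.HD) o6b2e_Dp2500_0_0_0 o6b2e_Dm2500_0_0_0 rfl hf355 hf0
      (I.dt O.GD (fun _ => O.HD) o6b2e_Dp2700_0_0_0 o6b2e_Dm2700_0_0_0 rfl hf355 hf0
      (I.dt0 O.GD (fun _ => O.HD) o6b2e_Qp2900_0_0_0 o6b2e_Qm2900_0_0_0 rfl DT.nil A16 B36) A16 B36) A16 B36)
    (d.qt (d.qt (d.qt QT.nil)))
    (I'.dt H.toGD (fun _ => H) p6b2e_Dp2500_90_150_0 p6b2e_Dm2500_90_150_0 rfl hf0 hf0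
      (I'.dt H.toGD (fun _ => H) p6b2e_Dp2700_115_150_0 p6b2e_Dm2700_115_150_0 rfl hf0 hf0
      (d.dt H.toGD DT.nil) A12 B30) A12 B30)
    (I.qt O.GD (fun _ => O.HD) o6b2e_Qp2500_90_150_0 o6b2e_Qm2500_90_150_0 rfl
      (I.qt O.GD (fun _ => O.HD) o6b2e_Qp2700_115_150_0 o6b2e_Qm2700_115_150_0 rfl
      (I.qt O.GD (fun _ => O.HD) o6b2e_Qp2900_0_0_0 o6b2e_Qm2900_0_0_0 rfl QT.nil A16 B36) A16 B36) A16 B36)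
    (by decide) (by decide) O.hys O.hxs hx'

theorem pr6b2ex {xs ys T ρ xs' T' : ℝ} (O : OneB xs ys T ρ) (I : o6b2e.In T ρ xs ys)
    (Is : o6b2ex.In T ρ xs ys)
    (H : HD xs' ys T' ρ (125 / 1000) (30 / 100)) (l : LH xs' ys T' ρ (125 / 1000) (30 / 100))
    (d : DnG xs' T' (125 / 1000) (30 / 100) ys ρ) (I' : p6b2e.In T' ρ xs' ys)
    (hx' : xs' ∈ Icc (125 / 1000) (30 / 100)) :
    Pr ys ρ xs T (16 / 100) (36 / 100) (fun _ => 0) (fun _ => 0) xs' T' (125 / 1000) (30 / 100)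
      (fun _ => 0) (fun _ => 0) :=
  Pr.of (tab := [⟨2500, 2700, 0, 0, 0, 0, 0⟩, ⟨2700, 2900, 0, 0, 0, 0, 0⟩, ⟨2900, 5000, 0, 0, 0, 0, 0⟩])
    (tab' := [⟨2500, 2700, 90, 150, 0, 0, 0⟩, ⟨2700, 2900, 115, 150, 0, 0, 0⟩, ⟨2900, 5000, 0, 0, 0, 0, 0⟩])
    (O.LF Is o6b2ex_Wa o6b2ex_Wb hf0) (l.toF hz0 hz0 (by norm_num) (by norm_num))
    (Is.dtg O.GD (fun _ => O.HD) o6b2ex_Dp2500_0_0_0 o6b2ex_Dm2500_0_0_0 (Or.inl rfl) (Or.inl rfl) rfl hf0 hf0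
      (Is.dtg O.GD (fun _ => O.HD) o6b2ex_Dp2700_0_0_0 o6b2ex_Dm2700_0_0_0 (Or.inl rfl) (Or.inl rfl) rfl hf0 hf0
      (I.dt0 O.GD (fun _ => O.HD) o6b2e_Qp2900_0_0_0 o6b2e_Qm2900_0_0_0 rfl DT.nil A16 B36) A16 B36) A16 B36)
    (d.qt (d.qt (d.qt QT.nil)))
    (I'.dt H.toGD (fun _ => H) p6b2e_Dp2500_90_150_0 p6b2e_Dm2500_90_150_0 rfl hf0 hf0
      (I'.dt H.toGD (fun _ => H) p6b2e_Dp2700_115_150_0 p6b2e_Dm2700_115_150_0 rfl hf0 hf0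
      (d.dt H.toGD DT.nil) A12 B30) A12 B30)
    (I.qt O.GD (fun _ => O.HD) o6b2e_Qp2500_90_150_0 o6b2e_Qm2500_90_150_0 rfl
      (I.qt O.GD (fun _ => O.HD) o6b2e_Qp2700_115_150_0 o6b2e_Qm2700_115_150_0 rfl
      (I.qt O.GD (fun _ => O.HD) o6b2e_Qp2900_0_0_0 o6b2e_Qm2900_0_0_0 rfl QT.nil A16 B36) A16 B36) A16 B36)
    (by decide) (by decide) O.hys O.hxs hx'

theorem pr6b3 {xs ys T ρ xs' T' : ℝ} (O : OneB xs ys T ρ) (I : o6b3.In T ρ xs ys)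
    (H : HD xs' ys T' ρ (12 / 100) (30 / 100)) (l : LH xs' ys T' ρ (12 / 100) (30 / 100))
    (d : DnG xs' T' (12 / 100) (30 / 100) ys ρ) (I' : p6b3.In T' ρ xs' ys)
    (hx' : xs' ∈ Icc (12 / 100) (30 / 100)) :
    Pr ys ρ xs T (16 / 100) (36 / 100) (fun m => 355 / 1000 * m) (fun _ => 0) xs' T' (12 / 100) (30 / 100)
      (fun _ => 0) (fun _ => 0) :=
  Pr.of (tab := [⟨2500, 2700, 0, 0, 0, 0, 0⟩, ⟨2700, 2900, 0, 0, 0, 0, 0⟩, ⟨2900, 3100, 0, 0, 0, 0, 0⟩, ⟨3100, 5000, 0, 0, 0, 0, 0⟩])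
    (tab' := [⟨2500, 2700, 130, 100, 0, 0, 0⟩, ⟨2700, 2900, 130, 120, 0, 0, 0⟩, ⟨2900, 3100, 160, 150, 0, 0, 0⟩, ⟨3100, 5000, 0, 0, 0, 0, 0⟩])
    (O.LF I o6b3_Wa o6b3_Wb hf355) (l.toF hz0 hz0 (by norm_num) (by norm_num))
    (I.dt O.GD (fun _ => O.HD) o6b3_Dp2500_0_0_0 o6b3_Dm2500_0_0_0 rfl hf355 hf0
      (I.dt O.GD (fun _ => O.HD) o6b3_Dp2700_0_0_0 o6b3_Dm2700_0_0_0 rfl hf355 hf0
      (I.dt O.GD (fun _ => O.HD) o6b3_Dp2900_0_0_0 o6b3_Dm2900_0_0_0 rfl hf355 hf0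
      (I.dt0 O.GD (fun _ => O.HD) o6b3_Qp3100_0_0_0 o6b3_Qm3100_0_0_0 rfl DT.nil A16 B36) A16 B36) A16 B36) A16 B36)
    (d.qt (d.qt (d.qt (d.qt QT.nil))))
    (I'.dt H.toGD (fun _ => H) p6b3_Dp2500_130_100_0 p6b3_Dm2500_130_100_0 rfl hf0 hf0
      (I'.dt H.toGD (fun _ => H) p6b3_Dp2700_130_120_0 p6b3_Dm2700_130_120_0 rfl hf0 hf0
      (I'.dt H.toGD (fun _ => H) p6b3_Dp2900_160_150_0 p6b3_Dm2900_160_150_0 rfl hf0 hf0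
      (d.dt H.toGD DT.nil) A120 B30) A120 B30) A120 B30)
    (I.qt O.GD (fun _ => O.HD) o6b3_Qp2500_130_100_0 o6b3_Qm2500_130_100_0 rfl
      (I.qt O.GD (fun _ => O.HD) o6b3_Qp2700_130_120_0 o6b3_Qm2700_130_120_0 rfl
      (I.qt O.GD (fun _ => O.HD) o6b3_Qp2900_160_150_0 o6b3_Qm2900_160_150_0 rfl
      (I.qt O.GD (fun _ => O.HD) o6b3_Qp3100_0_0_0 o6b3_Qm3100_0_0_0 rfl QT.nil A16 B36) A16 B36) A16 B36) A16 B36)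
    (by decide) (by decide) O.hys O.hxs hx'

theorem pr6b3x {xs ys T ρ xs' T' : ℝ} (O : OneB xs ys T ρ) (I : o6b3.In T ρ xs ys)
    (Is : o6b3x.In T ρ xs ys)
    (H : HD xs' ys T' ρ (12 / 100) (30 / 100)) (l : LH xs' ys T' ρ (12 / 100) (30 / 100))
    (d : DnG xs' T' (12 / 100) (30 / 100) ys ρ) (I' : p6b3.In T' ρ xs' ys)
    (hx' : xs' ∈ Icc (12 / 100) (30 / 100)) :
    Pr ys ρ xs T (16 / 100) (36 / 100) (fun _ => 0) (fun _ => 0) xs' T' (12 / 100) (30 / 100)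
      (fun _ => 0) (fun _ => 0) :=
  Pr.of (tab := [⟨2500, 2700, 0, 0, 0, 0, 0⟩, ⟨2700, 2900, 0, 0, 0, 0, 0⟩, ⟨2900, 3100, 0, 0, 0, 0, 0⟩, ⟨3100, 5000, 0, 0, 0, 0, 0⟩])
    (tab' := [⟨2500, 2700, 130, 100, 0, 0, 0⟩, ⟨2700, 2900, 130, 120, 0, 0, 0⟩, ⟨2900, 3100, 160, 150, 0, 0, 0⟩, ⟨3100, 5000, 0, 0, 0, 0, 0⟩])
    (O.LF Is o6b3x_Wa o6b3x_Wb hf0) (l.toF hz0 hz0 (by norm_num) (by norm_num))
    (Is.dtg O.GD (fun _ => O.HD) o6b3x_Dp2500_0_0_0 o6b3x_Dm2500_0_0_0 (Or.inl rfl) (Or.inl rfl) rfl hf0 hf0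
      (Is.dtg O.GD (fun _ => O.HD) o6b3x_Dp2700_0_0_0 o6b3x_Dm2700_0_0_0 (Or.inl rfl) (Or.inl rfl) rfl hf0 hf0
      (Is.dtg O.GD (fun _ => O.HD) o6b3x_Dp2900_0_0_0 o6b3x_Dm2900_0_0_0 (Or.inl rfl) (Or.inl rfl) rfl hf0 hf0
      (I.dt0 O.GD (fun _ => O.HD) o6b3_Qp3100_0_0_0 o6b3_Qm3100_0_0_0 rfl DT.nil A16 B36) A16 B36) A16 B36) A16 B36)
    (d.qt (d.qt (d.qt (d.qt QT.nil))))
    (I'.dt H.toGD (fun _ => H) p6b3_Dp2500_130_100_0 p6b3_Dm2500_130_100_0 rfl hf0 hf0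
      (I'.dt H.toGD (fun _ => H) p6b3_Dp2700_130_120_0 p6b3_Dm2700_130_120_0 rfl hf0 hf0
      (I'.dt H.toGD (fun _ => H) p6b3_Dp2900_160_150_0 p6b3_Dm2900_160_150_0 rfl hf0 hf0
      (d.dt H.toGD DT.nil) A120 B30) A120 B30) A120 B30)
    (I.qt O.GD (fun _ => O.HD) o6b3_Qp2500_130_100_0 o6b3_Qm2500_130_100_0 rfl
      (I.qt O.GD (fun _ => O.HD) o6b3_Qp2700_130_120_0 o6b3_Qm2700_130_120_0 rfl
      (I.qt O.GD (fun _ => O.HD) o6b3_Qp2900_160_150_0 o6b3_Qm2900_160_150_0 rfl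
      (I.qt O.GD (fun _ => O.HD) o6b3_Qp3100_0_0_0 o6b3_Qm3100_0_0_0 rfl QT.nil A16 B36) A16 B36) A16 B36) A16 B36)
    (by decide) (by decide) O.hys O.hxs hx'

theorem pr6b3e {xs ys T ρ xs' T' : ℝ} (O : OneB xs ys T ρ) (I : o6b3e.In T ρ xs ys)
    (H : HD xs' ys T' ρ (10 / 100) (26 / 100)) (l : LH xs' ys T' ρ (10 / 100) (26 / 100))
    (d : DnG xs' T' (10 / 100) (26 / 100) ys ρ) (I' : p6b3e.In T' ρ xs' ys)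
    (hx' : xs' ∈ Icc (10 / 100) (26 / 100)) :
    Pr ys ρ xs T (16 / 100) (36 / 100) (fun m => 355 / 1000 * m) (fun _ => 0) xs' T' (10 / 100) (26 / 100)
      (fun _ => 0) (fun _ => 0) :=
  Pr.of (tab := [⟨2500, 2700, 0, 0, 0, 0, 0⟩, ⟨2700, 2900, 0, 0, 0, 0, 0⟩, ⟨2900, 3100, 0, 0, 0, 0, 0⟩, ⟨3100, 5000, 0, 0, 0, 0, 0⟩])
    (tab' := [⟨2500, 2700, 100, 80, 0, 0, 0⟩, ⟨2700, 2900, 160, 120, 0, 0, 0⟩, ⟨2900, 3100, 160, 150, 0, 0, 0⟩, ⟨3100, 5000, 0, 0, 0, 0, 0⟩])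
    (O.LF I o6b3e_Wa o6b3e_Wb hf355) (l.toF hz0 hz0 (by norm_num) (by norm_num))
    (I.dt O.GD (fun _ => O.HD) o6b3e_Dp2500_0_0_0 o6b3e_Dm2500_0_0_0 rfl hf355 hf0
      (I.dt O.GD (fun _ => O.HD) o6b3e_Dp2700_0_0_0 o6b3e_Dm2700_0_0_0 rfl hf355 hf0
      (I.dt O.GD (fun _ => O.HD) o6b3e_Dp2900_0_0_0 o6b3e_Dm2900_0_0_0 rfl hf355 hf0
      (I.dt0 O.GD (fun _ => O.HD) o6b3e_Qp3100_0_0_0 o6b3e_Qm3100_0_0_0 rfl DT.nil A16 B36) A16 B36) A16 B36) A16 B36)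
    (d.qt (d.qt (d.qt (d.qt QT.nil))))
    (I'.dt H.toGD (fun _ => H) p6b3e_Dp2500_100_80_0 p6b3e_Dm2500_100_80_0 rfl hf0 hf0
      (I'.dt H.toGD (fun _ => H) p6b3e_Dp2700_160_120_0 p6b3e_Dm2700_160_120_0 rfl hf0 hf0
      (I'.dt H.toGD (fun _ => H) p6b3e_Dp2900_160_150_0 p6b3e_Dm2900_160_150_0 rfl hf0 hf0
      (d.dt H.toGD DT.nil) A10 B26) A10 B26) A10 B26)
    (I.qt O.GD (fun _ => O.HD) o6b3e_Qp2500_100_80_0 o6b3e_Qm2500_100_80_0 rfl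
      (I.qt O.GD (fun _ => O.HD) o6b3e_Qp2700_160_120_0 o6b3e_Qm2700_160_120_0 rfl
      (I.qt O.GD (fun _ => O.HD) o6b3e_Qp2900_160_150_0 o6b3e_Qm2900_160_150_0 rfl
      (I.qt O.GD (fun _ => O.HD) o6b3e_Qp3100_0_0_0 o6b3e_Qm3100_0_0_0 rfl QT.nil A16 B36) A16 B36) A16 B36) A16 B36)
    (by decide) (by decide) O.hys O.hxs hx'

theorem pr6b3ex {xs ys T ρ xs' T' : ℝ} (O : OneB xs ys T ρ) (I : o6b3e.In T ρ xs ys)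
    (Is : o6b3ex.In T ρ xs ys)
    (H : HD xs' ys T' ρ (10 / 100) (26 / 100)) (l : LH xs' ys T' ρ (10 / 100) (26 / 100))
    (d : DnG xs' T' (10 / 100) (26 / 100) ys ρ) (I' : p6b3e.In T' ρ xs' ys)
    (hx' : xs' ∈ Icc (10 / 100) (26 / 100)) :
    Pr ys ρ xs T (16 / 100) (36 / 100) (fun _ => 0) (fun _ => 0) xs' T' (10 / 100) (26 / 100)
      (fun _ => 0) (fun _ => 0) :=
  Pr.of (tab := [⟨2500, 2700, 0, 0, 0, 0, 0⟩, ⟨2700, 2900, 0, 0, 0, 0, 0⟩, ⟨2900, 3100, 0, 0, 0, 0, 0⟩, ⟨3100, 5000, 0, 0, 0, 0, 0⟩])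
    (tab' := [⟨2500, 2700, 100, 80, 0, 0, 0⟩, ⟨2700, 2900, 160, 120, 0, 0, 0⟩, ⟨2900, 3100, 160, 150, 0, 0, 0⟩, ⟨3100, 5000, 0, 0, 0, 0, 0⟩])
    (O.LF Is o6b3ex_Wa o6b3ex_Wb hf0) (l.toF hz0 hz0 (by norm_num) (by norm_num))
    (Is.dtg O.GD (fun _ => O.HD) o6b3ex_Dp2500_0_0_0 o6b3ex_Dm2500_0_0_0 (Or.inl rfl) (Or.inl rfl) rfl hf0 hf0
      (Is.dtg O.GD (fun _ => O.HD) o6b3ex_Dp2700_0_0_0 o6b3ex_Dm2700_0_0_0 (Or.inl rfl) (Or.inl rfl) rfl hf0 hf0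
      (Is.dtg O.GD (fun _ => O.HD) o6b3ex_Dp2900_0_0_0 o6b3ex_Dm2900_0_0_0 (Or.inl rfl) (Or.inl rfl) rfl hf0 hf0
      (I.dt0 O.GD (fun _ => O.HD) o6b3e_Qp3100_0_0_0 o6b3e_Qm3100_0_0_0 rfl DT.nil A16 B36) A16 B36) A16 B36) A16 B36)
    (d.qt (d.qt (d.qt (d.qt QT.nil))))
    (I'.dt H.toGD (fun _ => H) p6b3e_Dp2500_100_80_0 p6b3e_Dm2500_100_80_0 rfl hf0 hf0
      (I'.dt H.toGD (fun _ => H) p6b3e_Dp2700_160_120_0 p6b3e_Dm2700_160_120_0 rfl hf0 hf0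
      (I'.dt H.toGD (fun _ => H) p6b3e_Dp2900_160_150_0 p6b3e_Dm2900_160_150_0 rfl hf0 hf0
      (d.dt H.toGD DT.nil) A10 B26) A10 B26) A10 B26)
    (I.qt O.GD (fun _ => O.HD) o6b3e_Qp2500_100_80_0 o6b3e_Qm2500_100_80_0 rfl
      (I.qt O.GD (fun _ => O.HD) o6b3e_Qp2700_160_120_0 o6b3e_Qm2700_160_120_0 rfl
      (I.qt O.GD (fun _ => O.HD) o6b3e_Qp2900_160_150_0 o6b3e_Qm2900_160_150_0 rfl
      (I.qt O.GD (fun _ => O.HD) o6b3e_Qp3100_0_0_0 o6b3e_Qm3100_0_0_0 rfl QT.nil A16 B36) A16 B36) A16 B36) A16 B36)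
    (by decide) (by decide) O.hys O.hxs hx'

theorem pr6bZ {xs ys T ρ xs' T' : ℝ} (O : OneB xs ys T ρ) (I : o6bZ.In T ρ xs ys)
    (H : HD xs' ys T' ρ (10 / 100) (27 / 100)) (l : LH xs' ys T' ρ (10 / 100) (27 / 100))
    (d : DnG xs' T' (10 / 100) (27 / 100) ys ρ) (I' : p6bZ.In T' ρ xs' ys)
    (hx' : xs' ∈ Icc (10 / 100) (27 / 100)) (K : Kap xs' ys T' ρ (27 / 100)) (h17 : 17 / 100 ≤ xs')
    :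
    Pr ys ρ xs T (16 / 100) (36 / 100) (fun m => 355 / 1000 * m) (fun _ => 0) xs' T' (10 / 100) (27 / 100)
      (fun _ => 0) (fun _ => 0) :=
  Pr.of (tab := [⟨2500, 2700, 0, 0, 0, 0, 0⟩, ⟨2700, 2900, 0, 0, 0, 0, 0⟩, ⟨2900, 3100, 0, 0, 0, 0, 0⟩, ⟨3100, 5000, 0, 0, 0, 0, 0⟩])
    (tab' := [⟨2500, 2700, 115, 80, 0, 0, 0⟩, ⟨2700, 2900, 115, 120, 0, 0, 0⟩, ⟨2900, 3100, 160, 150, 0, 0, 0⟩, ⟨3100, 5000, 0, 0, 0, 0, 0⟩])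
    (O.LF I o6bZ_Wa o6bZ_Wb hf355) (l.toF hz0 hz0 (by norm_num) (by norm_num))
    (I.dt O.GD (fun _ => O.HD) o6bZ_Dp2500_0_0_0 o6bZ_Dm2500_0_0_0 rfl hf355 hf0
      (I.dt O.GD (fun _ => O.HD) o6bZ_Dp2700_0_0_0 o6bZ_Dm2700_0_0_0 rfl hf355 hf0
      (I.dt O.GD (fun _ => O.HD) o6bZ_Dp2900_0_0_0 o6bZ_Dm2900_0_0_0 rfl hf355 hf0
      (I.dt0 O.GD (fun _ => O.HD) o6bZ_Qp3100_0_0_0 o6bZ_Qm3100_0_0_0 rfl DT.nil A16 B36) A16 B36) A16 B36) A16 B36)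
    (d.qt (d.qt (d.qt (d.qt QT.nil))))
    (I'.dk H.toGD (fun _ => H) K le_rfl h17 (by decide) p6bZ_Dm2500_115_80_0 rfl
      (I'.dk H.toGD (fun _ => H) K le_rfl h17 (by decide) p6bZ_Dm2700_115_120_0 rfl
      (I'.dk H.toGD (fun _ => H) K le_rfl h17 (by decide) p6bZ_Dm2900_160_150_0 rfl
      (d.dt H.toGD DT.nil) A10) A10) A10)
    (I.qt O.GD (fun _ => O.HD) o6bZ_Qp2500_115_80_0 o6bZ_Qm2500_115_80_0 rfl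
      (I.qt O.GD (fun _ => O.HD) o6bZ_Qp2700_115_120_0 o6bZ_Qm2700_115_120_0 rfl
      (I.qt O.GD (fun _ => O.HD) o6bZ_Qp2900_160_150_0 o6bZ_Qm2900_160_150_0 rfl
      (I.qt O.GD (fun _ => O.HD) o6bZ_Qp3100_0_0_0 o6bZ_Qm3100_0_0_0 rfl QT.nil A16 B36) A16 B36) A16 B36) A16 B36)
    (by decide) (by decide) O.hys O.hxs hx'

theorem pr6bZx {xs ys T ρ xs' T' : ℝ} (O : OneB xs ys T ρ) (I : o6bZ.In T ρ xs ys)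
    (Is : o6bZx.In T ρ xs ys)
    (H : HD xs' ys T' ρ (10 / 100) (27 / 100)) (l : LH xs' ys T' ρ (10 / 100) (27 / 100))
    (d : DnG xs' T' (10 / 100) (27 / 100) ys ρ) (I' : p6bZ.In T' ρ xs' ys)
    (hx' : xs' ∈ Icc (10 / 100) (27 / 100)) (K : Kap xs' ys T' ρ (27 / 100)) (h17 : 17 / 100 ≤ xs')
    :
    Pr ys ρ xs T (16 / 100) (36 / 100) (fun _ => 0) (fun _ => 0) xs' T' (10 / 100) (27 / 100)
      (fun _ => 0) (fun _ => 0) :=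
  Pr.of (tab := [⟨2500, 2700, 0, 0, 0, 0, 0⟩, ⟨2700, 2900, 0, 0, 0, 0, 0⟩, ⟨2900, 3100, 0, 0, 0, 0, 0⟩, ⟨3100, 5000, 0, 0, 0, 0, 0⟩])
    (tab' := [⟨2500, 2700, 115, 80, 0, 0, 0⟩, ⟨2700, 2900, 115, 120, 0, 0, 0⟩, ⟨2900, 3100, 160, 150, 0, 0, 0⟩, ⟨3100, 5000, 0, 0, 0, 0, 0⟩])
    (O.LF Is o6bZx_Wa o6bZx_Wb hf0) (l.toF hz0 hz0 (by norm_num) (by norm_num))
    (Is.dtg O.GD (fun _ => O.HD) o6bZx_Dp2500_0_0_0 o6bZx_Dm2500_0_0_0 (Or.inl rfl) (Or.inl rfl) rfl hf0 hf0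
      (Is.dtg O.GD (fun _ => O.HD) o6bZx_Dp2700_0_0_0 o6bZx_Dm2700_0_0_0 (Or.inl rfl) (Or.inl rfl) rfl hf0 hf0
      (Is.dtg O.GD (fun _ => O.HD) o6bZx_Dp2900_0_0_0 o6bZx_Dm2900_0_0_0 (Or.inl rfl) (Or.inl rfl) rfl hf0 hf0
      (I.dt0 O.GD (fun _ => O.HD) o6bZ_Qp3100_0_0_0 o6bZ_Qm3100_0_0_0 rfl DT.nil A16 B36) A16 B36) A16 B36) A16 B36)
    (d.qt (d.qt (d.qt (d.qt QT.nil))))
    (I'.dk H.toGD (fun _ => H) K le_rfl h17 (by decide) p6bZ_Dm2500_115_80_0 rfl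
      (I'.dk H.toGD (fun _ => H) K le_rfl h17 (by decide) p6bZ_Dm2700_115_120_0 rfl
      (I'.dk H.toGD (fun _ => H) K le_rfl h17 (by decide) p6bZ_Dm2900_160_150_0 rfl
      (d.dt H.toGD DT.nil) A10) A10) A10)
    (I.qt O.GD (fun _ => O.HD) o6bZ_Qp2500_115_80_0 o6bZ_Qm2500_115_80_0 rfl
      (I.qt O.GD (fun _ => O.HD) o6bZ_Qp2700_115_120_0 o6bZ_Qm2700_115_120_0 rfl
      (I.qt O.GD (fun _ => O.HD) o6bZ_Qp2900_160_150_0 o6bZ_Qm2900_160_150_0 rfl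
      (I.qt O.GD (fun _ => O.HD) o6bZ_Qp3100_0_0_0 o6bZ_Qm3100_0_0_0 rfl QT.nil A16 B36) A16 B36) A16 B36) A16 B36)
    (by decide) (by decide) O.hys O.hxs hx'

theorem pr6bZs {xs ys T ρ xs' T' : ℝ} (O : OneB xs ys T ρ) (I : o6bZs.In T ρ xs ys)
    (H : HD xs' ys T' ρ (10 / 100) (27 / 100)) (l : LH xs' ys T' ρ (10 / 100) (27 / 100))
    (d : DnG xs' T' (10 / 100) (27 / 100) ys ρ) (I' : p6bZs.In T' ρ xs' ys)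
    (hx' : xs' ∈ Icc (10 / 100) (27 / 100)) (K : Kap xs' ys T' ρ (27 / 100)) (h17 : 17 / 100 ≤ xs')
    :
    Pr ys ρ xs T (16 / 100) (36 / 100) (fun m => 355 / 1000 * m) (fun _ => 0) xs' T' (10 / 100) (27 / 100)
      (fun _ => 0) (fun _ => 0) :=
  Pr.of (tab := [⟨2500, 2700, 0, 0, 0, 0, 0⟩, ⟨2700, 2900, 0, 0, 0, 0, 0⟩, ⟨2900, 3100, 0, 0, 0, 0, 0⟩, ⟨3100, 5000, 0, 0, 0, 0, 0⟩])
    (tab' := [⟨2500, 2700, 100, 65, 0, 0, 0⟩, ⟨2700, 2900, 100, 100, 0, 0, 0⟩, ⟨2900, 3100, 115, 150, 0, 0, 0⟩, ⟨3100, 5000, 0, 0, 0, 0, 0⟩])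
    (O.LF I o6bZs_Wa o6bZs_Wb hf355) (l.toF hz0 hz0 (by norm_num) (by norm_num))
    (I.dt O.GD (fun _ => O.HD) o6bZs_Dp2500_0_0_0 o6bZs_Dm2500_0_0_0 rfl hf355 hf0
      (I.dt O.GD (fun _ => O.HD) o6bZs_Dp2700_0_0_0 o6bZs_Dm2700_0_0_0 rfl hf355 hf0
      (I.dt O.GD (fun _ => O.HD) o6bZs_Dp2900_0_0_0 o6bZs_Dm2900_0_0_0 rfl hf355 hf0
      (I.dt0 O.GD (fun _ => O.HD) o6bZs_Qp3100_0_0_0 o6bZs_Qm3100_0_0_0 rfl DT.nil A16 B36) A16 B36) A16 B36) A16 B36)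
    (d.qt (d.qt (d.qt (d.qt QT.nil))))
    (I'.dk H.toGD (fun _ => H) K le_rfl h17 (by decide) p6bZs_Dm2500_100_65_0 rfl
      (I'.dk H.toGD (fun _ => H) K le_rfl h17 (by decide) p6bZs_Dm2700_100_100_0 rfl
      (I'.dk H.toGD (fun _ => H) K le_rfl h17 (by decide) p6bZs_Dm2900_115_150_0 rfl
      (d.dt H.toGD DT.nil) A10) A10) A10)
    (I.qt O.GD (fun _ => O.HD) o6bZs_Qp2500_100_65_0 o6bZs_Qm2500_100_65_0 rfl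
      (I.qt O.GD (fun _ => O.HD) o6bZs_Qp2700_100_100_0 o6bZs_Qm2700_100_100_0 rfl
      (I.qt O.GD (fun _ => O.HD) o6bZs_Qp2900_115_150_0 o6bZs_Qm2900_115_150_0 rfl
      (I.qt O.GD (fun _ => O.HD) o6bZs_Qp3100_0_0_0 o6bZs_Qm3100_0_0_0 rfl QT.nil A16 B36) A16 B36) A16 B36) A16 B36)
    (by decide) (by decide) O.hys O.hxs hx'

theorem pr6bZsx {xs ys T ρ xs' T' : ℝ} (O : OneB xs ys T ρ) (I : o6bZs.In T ρ xs ys)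
    (Is : o6bZsx.In T ρ xs ys)
    (H : HD xs' ys T' ρ (10 / 100) (27 / 100)) (l : LH xs' ys T' ρ (10 / 100) (27 / 100))
    (d : DnG xs' T' (10 / 100) (27 / 100) ys ρ) (I' : p6bZs.In T' ρ xs' ys)
    (hx' : xs' ∈ Icc (10 / 100) (27 / 100)) (K : Kap xs' ys T' ρ (27 / 100)) (h17 : 17 / 100 ≤ xs')
    :
    Pr ys ρ xs T (16 / 100) (36 / 100) (fun _ => 0) (fun _ => 0) xs' T' (10 / 100) (27 / 100)
      (fun _ => 0) (fun _ => 0) :=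
  Pr.of (tab := [⟨2500, 2700, 0, 0, 0, 0, 0⟩, ⟨2700, 2900, 0, 0, 0, 0, 0⟩, ⟨2900, 3100, 0, 0, 0, 0, 0⟩, ⟨3100, 5000, 0, 0, 0, 0, 0⟩])
    (tab' := [⟨2500, 2700, 100, 65, 0, 0, 0⟩, ⟨2700, 2900, 100, 100, 0, 0, 0⟩, ⟨2900, 3100, 115, 150, 0, 0, 0⟩, ⟨3100, 5000, 0, 0, 0, 0, 0⟩])
    (O.LF Is o6bZsx_Wa o6bZsx_Wb hf0) (l.toF hz0 hz0 (by norm_num) (by norm_num))
    (Is.dtg O.GD (fun _ => O.HD) o6bZsx_Dp2500_0_0_0 o6bZsx_Dm2500_0_0_0 (Or.inl rfl) (Or.inl rfl) rfl hf0 hf0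
      (Is.dtg O.GD (fun _ => O.HD) o6bZsx_Dp2700_0_0_0 o6bZsx_Dm2700_0_0_0 (Or.inl rfl) (Or.inl rfl) rfl hf0 hf0
      (Is.dtg O.GD (fun _ => O.HD) o6bZsx_Dp2900_0_0_0 o6bZsx_Dm2900_0_0_0 (Or.inl rfl) (Or.inl rfl) rfl hf0 hf0
      (I.dt0 O.GD (fun _ => O.HD) o6bZs_Qp3100_0_0_0 o6bZs_Qm3100_0_0_0 rfl DT.nil A16 B36) A16 B36) A16 B36) A16 B36)
    (d.qt (d.qt (d.qt (d.qt QT.nil))))
    (I'.dk H.toGD (fun _ => H) K le_rfl h17 (by decide) p6bZs_Dm2500_100_65_0 rfl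
      (I'.dk H.toGD (fun _ => H) K le_rfl h17 (by decide) p6bZs_Dm2700_100_100_0 rfl
      (I'.dk H.toGD (fun _ => H) K le_rfl h17 (by decide) p6bZs_Dm2900_115_150_0 rfl
      (d.dt H.toGD DT.nil) A10) A10) A10)
    (I.qt O.GD (fun _ => O.HD) o6bZs_Qp2500_100_65_0 o6bZs_Qm2500_100_65_0 rfl
      (I.qt O.GD (fun _ => O.HD) o6bZs_Qp2700_100_100_0 o6bZs_Qm2700_100_100_0 rfl
      (I.qt O.GD (fun _ => O.HD) o6bZs_Qp2900_115_150_0 o6bZs_Qm2900_115_150_0 rfl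
      (I.qt O.GD (fun _ => O.HD) o6bZs_Qp3100_0_0_0 o6bZs_Qm3100_0_0_0 rfl QT.nil A16 B36) A16 B36) A16 B36) A16 B36)
    (by decide) (by decide) O.hys O.hxs hx'

end RC

end Pool.Agent.Work.MP_b30479_gt.G2
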