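import Pool.Agent.Work.MP_b30479_gt.G2.RLvlB
import Pool.Agent.Work.MP_b30479_gt.G2.RGp6b
import Pool.Agent.Work.MP_b30479_gt.G2.RLvlA
import Pool.Agent.Work.MP_b30479_gt.G2.WLocV

/-!
# Rings on the level part: the pairs of hinges by class
-/

namespace Pool.Agent.Work.MP_b30479_gt.G2

open Finset VOL Filter Topology

namespace SR

/-- **A ring between a digit `1` and a class `k`, the pair of hinges.** -/
theorem pm6b {xs ys T ρ xs' T' : ℝ} {k : Cl} {s : Bool}
    (hk : k ≠ .one)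
    (q : (rq6 .two k s).Re xs ys T ρ)
    (r : (rp6 .two k s).Re xs' ys T' ρ)
    (D : Lo k xs' ys T' ρ)
    (KZ : k = .ring → |T'| ≤ 47 / 1000)
    (hx : xs' ∈ Set.Icc (fcl k) (fcp k)) :
    PrS 6 .two k xs ys T ρ xs' T' := by
  cases k
  · exact absurd rfl hk
  · have q0 : (mk4 2536 2969 1166 1461 1174 1590 175 450 (-1291) (-864) 4285 4110).Re xs ys T ρ := q
    have r0 : (mk4 1996 2559 1166 1461 613 1162 175 450 (-857) (-286) 3863 3688).Re xs' ys T' ρ := r
    have O := q0.oneB RC.Row.cH6 (by decide)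
    have I : RC.o6b2.In T ρ xs ys := wd4_in q0 (by decide)
    have J : RC.p6b2.In T' ρ xs' ys := wd4_in r0 (by decide)
    obtain ⟨H, l, d⟩ := D
    rcases le_or_gt xs (2563 / 10000) with hs | hs
    · have Is : RC.o6b2x.In T ρ xs ys := I.cut (n := 2563) (by push_cast; exact hs)
      exact ⟨_, _, Or.inl rfl, Or.inl rfl, RC.pr6b2x O I Is H l d J hx⟩
    · exact ⟨_, _, Or.inr ⟨rfl, hs.le, Or.inr ⟨by decide, q0.tlo5 (by decide), rfl⟩⟩, Or.inl rfl, RC.pr6b2 O I H l d J hx⟩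
  · have q0 : (mk4 2516 2944 1194 1454 1132 1530 120 376 (-1290) (-877) 4258 4138).Re xs ys T ρ := q
    have r0 : (mk4 1627 1870 1194 1454 1271 1524 120 376 (-1272) (-1028) 3204 3084).Re xs' ys T' ρ := r
    have O := q0.oneB RC.Row.cH6 (by decide)
    have I : RC.o6b2e.In T ρ xs ys := wd4_in q0 (by decide)
    have J : RC.p6b2e.In T' ρ xs' ys := wd4_in r0 (by decide)
    obtain ⟨H, l, d⟩ := D
    rcases le_or_gt xs (2563 / 10000) with hs | hs
    · have Is : RC.o6b2ex.In T ρ xs ys := I.cut (n := 2563) (by push_cast; exact hs)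
      exact ⟨_, _, Or.inl rfl, Or.inl rfl, RC.pr6b2ex O I Is H l d J hx⟩
    · exact ⟨_, _, Or.inr ⟨rfl, hs.le, Or.inr ⟨by decide, q0.tlo5 (by decide), rfl⟩⟩, Or.inl rfl, RC.pr6b2e O I H l d J hx⟩
  · have q0 : (mk4 2536 2969 1202 1479 1192 1594 192 460 (-1278) (-857) 4300 4108).Re xs ys T ρ := q
    have r0 : (mk4 1976 2359 1202 1479 459 856 192 460 (-529) (-132) 3698 3506).Re xs' ys T' ρ := r
    have O := q0.oneB RC.Row.cH6 (by decide)
    have I : RC.o6b3.In T ρ xs ys := wd4_in q0 (by decide)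
    have J : RC.p6b3.In T' ρ xs' ys := wd4_in r0 (by decide)
    obtain ⟨H, l, d⟩ := D
    rcases le_or_gt xs (2563 / 10000) with hs | hs
    · have Is : RC.o6b3x.In T ρ xs ys := I.cut (n := 2563) (by push_cast; exact hs)
      exact ⟨_, _, Or.inl rfl, Or.inl rfl, RC.pr6b3x O I Is H l d J hx⟩
    · exact ⟨_, _, Or.inr ⟨rfl, hs.le, Or.inr ⟨by decide, q0.tlo5 (by decide), rfl⟩⟩, Or.inl rfl, RC.pr6b3 O I H l d J hx⟩
  · have q0 : (mk4 2527 2957 1223 1485 1165 1562 168 425 (-1274) (-860) 4300 4132).Re xs ys T ρ := q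
    have r0 : (mk4 1754 1997 1223 1485 613 867 168 425 (-566) (-322) 3360 3192).Re xs' ys T' ρ := r
    have O := q0.oneB RC.Row.cH6 (by decide)
    have I : RC.o6b3e.In T ρ xs ys := wd4_in q0 (by decide)
    have J : RC.p6b3e.In T' ρ xs' ys := wd4_in r0 (by decide)
    obtain ⟨H, l, d⟩ := D
    rcases le_or_gt xs (2563 / 10000) with hs | hs
    · have Is : RC.o6b3ex.In T ρ xs ys := I.cut (n := 2563) (by push_cast; exact hs)
      exact ⟨_, _, Or.inl rfl, Or.inl rfl, RC.pr6b3ex O I Is H l d J hx⟩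
    · exact ⟨_, _, Or.inr ⟨rfl, hs.le, Or.inr ⟨by decide, q0.tlo5 (by decide), rfl⟩⟩, Or.inl rfl, RC.pr6b3e O I H l d J hx⟩
  · cases s
    · have q0 : (mk4 2535 2983 1218 1499 1186 1628 200 505 (-1271) (-845) 4336 4136).Re xs ys T ρ := q
      have r0 : (mk4 1900 2475 1218 1499 166 700 200 505 (-362) 206 3845 3645).Re xs' ys T' ρ := r
      have O := q0.oneB RC.Row.cH6 (by decide)
      have I : RC.o6bZ.In T ρ xs ys := wd4_in q0 (by decide)
      have J : RC.p6bZ.In T' ρ xs' ys := wd4_in r0 (by decide)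
      have K := r0.kap (by decide) (KZ rfl)
      obtain ⟨H, l, d⟩ := D
      rcases le_or_gt xs (2563 / 10000) with hs | hs
      · have Is : RC.o6bZx.In T ρ xs ys := I.cut (n := 2563) (by push_cast; exact hs)
        exact ⟨_, _, Or.inl rfl, Or.inl rfl, RC.pr6bZx O I Is H l d J hx K.1 K.2⟩
      · exact ⟨_, _, Or.inr ⟨rfl, hs.le, Or.inr ⟨by decide, q0.tlo5 (by decide), rfl⟩⟩, Or.inl rfl, RC.pr6bZ O I H l d J hx K.1 K.2⟩
    · have q0 : (mk4 2542 2983 1233 1544 1191 1628 218 505 (-1260) (-831) 4367 4149).Re xs ys T ρ := q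
      have r0 : (mk4 1851 2475 1233 1544 (-118) 417 218 505 (-37) 486 3845 3627).Re xs' ys T' ρ := r
      have O := q0.oneB RC.Row.cH6 (by decide)
      have I : RC.o6bZs.In T ρ xs ys := wd4_in q0 (by decide)
      have J : RC.p6bZs.In T' ρ xs' ys := wd4_in r0 (by decide)
      have K := r0.kap (by decide) (KZ rfl)
      obtain ⟨H, l, d⟩ := D
      rcases le_or_gt xs (2563 / 10000) with hs | hs
      · have Is : RC.o6bZsx.In T ρ xs ys := I.cut (n := 2563) (by push_cast; exact hs)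
        exact ⟨_, _, Or.inl rfl, Or.inl rfl, RC.pr6bZsx O I Is H l d J hx K.1 K.2⟩
      · exact ⟨_, _, Or.inr ⟨rfl, hs.le, Or.inr ⟨by decide, q0.tlo5 (by decide), rfl⟩⟩, Or.inl rfl, RC.pr6bZs O I H l d J hx K.1 K.2⟩

end SR

end Pool.Agent.Work.MP_b30479_gt.G2
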