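import Pool.Agent.Work.MP_b30479_gt.G2.RGp6c
import Pool.Agent.Work.MP_b30479_gt.G2.RLvlA
import Pool.Agent.Work.MP_b30479_gt.G2.WLocV

/-!
# Rings on the level part: the pairs of hinges by class
-/

namespace Pool.Agent.Work.MP_b30479_gt.G2

open Finset VOL Filter Topology

namespace SR

/-- **A ring between a digit `1` and a class `k`, the pair of hinges.** -/
theorem pm6c {xs ys T ρ xs' T' : ℝ} {k : Cl} {s : Bool}
    (hk : k ≠ .one)
    (q : (rq6 .twoE k s).Re xs ys T ρ)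
    (r : (rp6 .twoE k s).Re xs' ys T' ρ)
    (D : Lo k xs' ys T' ρ)
    (KZ : k = .ring → |T'| ≤ 47 / 1000)
    (hx : xs' ∈ Set.Icc (fcl k) (fcp k)) :
    PrS 6 .twoE k xs ys T ρ xs' T' := by
  cases k
  · exact absurd rfl hk
  · have q0 : (mk4 2369 2617 1193 1471 1494 1757 150 417 (-1472) (-1220) 3967 3817).Re xs ys T ρ := q
    have r0 : (mk4 1990 2550 1193 1471 585 1132 150 417 (-855) (-289) 3863 3713).Re xs' ys T' ρ := r
    have O := q0.oneB RC.Row.cH6 (by decide)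
    have I : RC.o6c2.In T ρ xs ys := wd4_in q0 (by decide)
    have J : RC.p6c2.In T' ρ xs' ys := wd4_in r0 (by decide)
    obtain ⟨H, l, d⟩ := D
    exact ⟨_, _, Or.inl rfl, Or.inl rfl, RC.pr6c2 O I H l d J hx⟩
  · have q0 : (mk4 2355 2595 1220 1460 1450 1690 100 340 (-1469) (-1229) 3935 3835).Re xs ys T ρ := q
    have r0 : (mk4 1622 1862 1220 1460 1250 1490 100 340 (-1269) (-1029) 3202 3102).Re xs' ys T' ρ := r
    have O := q0.oneB RC.Row.cH6 (by decide)
    have I : RC.o6c2e.In T ρ xs ys := wd4_in q0 (by decide)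
    have J : RC.p6c2e.In T' ρ xs' ys := wd4_in r0 (by decide)
    obtain ⟨H, l, d⟩ := D
    exact ⟨_, _, Or.inl rfl, Or.inl rfl, RC.pr6c2e O I H l d J hx⟩
  · have q0 : (mk4 2374 2618 1230 1490 1508 1758 172 424 (-1460) (-1214) 3986 3814).Re xs ys T ρ := q
    have r0 : (mk4 1970 2351 1230 1490 434 825 172 424 (-529) (-130) 3701 3529).Re xs' ys T' ρ := r
    have O := q0.oneB RC.Row.cH6 (by decide)
    have I : RC.o6c3.In T ρ xs ys := wd4_in q0 (by decide)
    have J : RC.p6c3.In T' ρ xs' ys := wd4_in r0 (by decide)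
    obtain ⟨H, l, d⟩ := D
    exact ⟨_, _, Or.inl rfl, Or.inl rfl, RC.pr6c3 O I H l d J hx⟩
  · have q0 : (mk4 2366 2606 1252 1492 1483 1723 147 387 (-1456) (-1216) 3979 3832).Re xs ys T ρ := q
    have r0 : (mk4 1750 1990 1252 1492 593 833 147 387 (-565) (-325) 3362 3215).Re xs' ys T' ρ := r
    have O := q0.oneB RC.Row.cH6 (by decide)
    have I : RC.o6c3e.In T ρ xs ys := wd4_in q0 (by decide)
    have J : RC.p6c3e.In T' ρ xs' ys := wd4_in r0 (by decide)
    obtain ⟨H, l, d⟩ := D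
    exact ⟨_, _, Or.inl rfl, Or.inl rfl, RC.pr6c3e O I H l d J hx⟩
  · cases s
    · have q0 : (mk4 2374 2630 1248 1510 1506 1793 176 468 (-1454) (-1205) 4016 3840).Re xs ys T ρ := q
      have r0 : (mk4 1896 2466 1248 1510 150 669 176 468 (-364) 198 3852 3676).Re xs' ys T' ρ := r
      have O := q0.oneB RC.Row.cH6 (by decide)
      have I : RC.o6cZ.In T ρ xs ys := wd4_in q0 (by decide)
      have J : RC.p6cZ.In T' ρ xs' ys := wd4_in r0 (by decide)
      have K := r0.kap (by decide) (KZ rfl)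
      obtain ⟨H, l, d⟩ := D
      exact ⟨_, _, Or.inl rfl, Or.inl rfl, RC.pr6cZ O I H l d J hx K.1 K.2⟩
    · have q0 : (mk4 2377 2630 1266 1556 1510 1793 197 468 (-1445) (-1190) 4059 3862).Re xs ys T ρ := q
      have r0 : (mk4 1850 2466 1266 1556 (-143) 388 197 468 (-40) 480 3852 3655).Re xs' ys T' ρ := r
      have O := q0.oneB RC.Row.cH6 (by decide)
      have I : RC.o6cZs.In T ρ xs ys := wd4_in q0 (by decide)
      have J : RC.p6cZs.In T' ρ xs' ys := wd4_in r0 (by decide)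
      have K := r0.kap (by decide) (KZ rfl)
      obtain ⟨H, l, d⟩ := D
      exact ⟨_, _, Or.inl rfl, Or.inl rfl, RC.pr6cZs O I H l d J hx K.1 K.2⟩

end SR

end Pool.Agent.Work.MP_b30479_gt.G2
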