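import Pool.Agent.Work.MP_b30479_gt.G2.RLvlB
import Pool.Agent.Work.MP_b30479_gt.G2.RGp7b
import Pool.Agent.Work.MP_b30479_gt.G2.RLvlA
import Pool.Agent.Work.MP_b30479_gt.G2.WLocD

/-!
# Rings on the level part: the pairs of hinges by class
-/

namespace Pool.Agent.Work.MP_b30479_gt.G2

open Finset VOL Filter Topology

namespace SR

/-- **A ring between a digit `1` and a class `k`, the pair of hinges.** -/
theorem pm7b {xs ys T ρ xs' T' : ℝ} {k : Cl} {s : Bool}
    (hk : k ≠ .one)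
    (q : (rc7 .two).Re xs ys T ρ)
    (r : P7 rd7 k s xs' ys T' ρ)
    (D : Lo k xs' ys T' ρ)
    (KZ : k = .ring → |T'| ≤ 47 / 1000)
    (hx : xs' ∈ Set.Icc (fcl k) (fcp k)) :
    PrS 7 .two k xs ys T ρ xs' T' := by
  cases k
  · exact absurd rfl hk
  · have q9 : (mk4 2560 2930 1051 1348 1120 1689 127 379 (-1310) (-950) 4210 4083).Re xs ys T ρ := q
    have r9 : (mk4 1985 2510 1065 1330 560 1254 135 394 (-860) (-375) 3810 3675).Re xs' ys T' ρ := r.1 (by decide)
    have q0 : (mk4 2560 2930 1065 1330 1120 1689 135 379 (-1310) (-950) 4210 4083).Re xs ys T ρ := q9.int r9 (by decide)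
    have r0 : (mk4 1985 2510 1065 1330 560 1254 135 379 (-860) (-375) 3810 3675).Re xs' ys T' ρ := r9.int q9 (by decide)
    have O := q0.oneB RC.Row.cH8 (by decide)
    have I : RC.o7b2.In T ρ xs ys := wd4_in q0 (by decide)
    have J : RC.p7b2.In T' ρ xs' ys := wd4_in r0 (by decide)
    obtain ⟨H, l, d⟩ := D
    exact ⟨_, _, Or.inl rfl, Or.inl rfl, RC.pr7b2 O I H l d J hx⟩
  · have q9 : (mk4 2560 2930 1051 1348 1120 1689 127 379 (-1310) (-950) 4210 4083).Re xs ys T ρ := q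
    have r9 : (mk4 1705 1795 1089 1297 1245 1528 104 308 (-1220) (-1130) 3080 2976).Re xs' ys T' ρ := r.1 (by decide)
    have q0 : (mk4 2560 2930 1089 1297 1120 1689 127 308 (-1310) (-950) 4210 4083).Re xs ys T ρ := q9.int r9 (by decide)
    have r0 : (mk4 1705 1795 1089 1297 1245 1528 127 308 (-1220) (-1130) 3080 2976).Re xs' ys T' ρ := r9.int q9 (by decide)
    have O := q0.oneB RC.Row.cH8 (by decide)
    have I : RC.o7b2e.In T ρ xs ys := wd4_in q0 (by decide)
    have J : RC.p7b2e.In T' ρ xs' ys := wd4_in r0 (by decide)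
    obtain ⟨H, l, d⟩ := D
    exact ⟨_, _, Or.inl rfl, Or.inl rfl, RC.pr7b2e O I H l d J hx⟩
  · have q9 : (mk4 2560 2930 1051 1348 1120 1689 127 379 (-1310) (-950) 4210 4083).Re xs ys T ρ := q
    have r9 : (mk4 2030 2300 1112 1344 385 876 156 391 (-485) (-185) 3615 3459).Re xs' ys T' ρ := r.1 (by decide)
    have q0 : (mk4 2560 2930 1112 1344 1120 1689 156 379 (-1310) (-950) 4210 4083).Re xs ys T ρ := q9.int r9 (by decide)
    have r0 : (mk4 2030 2300 1112 1344 385 876 156 379 (-485) (-185) 3615 3459).Re xs' ys T' ρ := r9.int q9 (by decide)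
    have O := q0.oneB RC.Row.cH8 (by decide)
    have I : RC.o7b3.In T ρ xs ys := wd4_in q0 (by decide)
    have J : RC.p7b3.In T' ρ xs' ys := wd4_in r0 (by decide)
    obtain ⟨H, l, d⟩ := D
    exact ⟨_, _, Or.inl rfl, Or.inl rfl, RC.pr7b3 O I H l d J hx⟩
  · have q9 : (mk4 2560 2930 1051 1348 1120 1689 127 379 (-1310) (-950) 4210 4083).Re xs ys T ρ := q
    have r9 : (mk4 1840 1925 1133 1332 585 855 142 345 (-510) (-425) 3240 3098).Re xs' ys T' ρ := r.1 (by decide)
    have q0 : (mk4 2560 2930 1133 1332 1120 1689 142 345 (-1310) (-950) 4210 4083).Re xs ys T ρ := q9.int r9 (by decide)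
    have r0 : (mk4 1840 1925 1133 1332 585 855 142 345 (-510) (-425) 3240 3098).Re xs' ys T' ρ := r9.int q9 (by decide)
    have O := q0.oneB RC.Row.cH8 (by decide)
    have I : RC.o7b3e.In T ρ xs ys := wd4_in q0 (by decide)
    have J : RC.p7b3e.In T' ρ xs' ys := wd4_in r0 (by decide)
    obtain ⟨H, l, d⟩ := D
    exact ⟨_, _, Or.inl rfl, Or.inl rfl, RC.pr7b3e O I H l d J hx⟩
  · cases s
    · have q9 : (mk4 2560 2930 1051 1348 1120 1689 127 379 (-1310) (-950) 4210 4083).Re xs ys T ρ := q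
      have q0 : (mk4 2560 2930 1051 1348 1120 1689 127 379 (-1310) (-950) 4210 4083).Re xs ys T ρ := q9
      have r0 : (mk4 1820 2520 1051 1348 (-258) 764 127 379 (-385) 385 3868 3868).Re xs' ys T' ρ := Rg.re q9 (r.2 rfl) (by decide)
      have O := q0.oneB RC.Row.cH8 (by decide)
      have I : RC.o7bZ.In T ρ xs ys := wd4_in q0 (by decide)
      have J : RC.p7bZ.In T' ρ xs' ys := wd4_in r0 (by decide)
      have K := r0.kap (by decide) (KZ rfl)
      obtain ⟨H, l, d⟩ := D
      exact ⟨_, _, Or.inl rfl, Or.inl rfl, RC.pr7bZ O I H l d J hx K.1 K.2⟩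
    · have q9 : (mk4 2560 2930 1051 1348 1120 1689 127 379 (-1310) (-950) 4210 4083).Re xs ys T ρ := q
      have q0 : (mk4 2560 2930 1051 1348 1120 1689 127 379 (-1310) (-950) 4210 4083).Re xs ys T ρ := q9
      have r0 : (mk4 1700 2520 1051 1348 (-338) 389 127 379 (-10) 465 3868 3868).Re xs' ys T' ρ := Rg.re q9 (r.2 rfl) (by decide)
      have O := q0.oneB RC.Row.cH8 (by decide)
      have I : RC.o7bZs.In T ρ xs ys := wd4_in q0 (by decide)
      have J : RC.p7bZs.In T' ρ xs' ys := wd4_in r0 (by decide)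
      have K := r0.kap (by decide) (KZ rfl)
      obtain ⟨H, l, d⟩ := D
      exact ⟨_, _, Or.inl rfl, Or.inl rfl, RC.pr7bZs O I H l d J hx K.1 K.2⟩

end SR

end Pool.Agent.Work.MP_b30479_gt.G2
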