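import Pool.Agent.Work.MP_b30479_gt.G2.RGn08
import Pool.Agent.Work.MP_b30479_gt.G2.RLvl7

/-!
# Rings on the level part: pairs of hinges
-/

namespace Pool.Agent.Work.MP_b30479_gt.G2

open Real Set

namespace RC

open R6

theorem pr7c2 {xs ys T ρ xs' T' : ℝ} (O : OneB xs ys T ρ) (I : o7c2.In T ρ xs ys)
    (H : HD xs' ys T' ρ (125 / 1000) (30 / 100)) (l : LH xs' ys T' ρ (125 / 1000) (30 / 100))
    (d : DnG xs' T' (125 / 1000) (30 / 100) ys ρ)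
    (hx' : xs' ∈ Icc (125 / 1000) (30 / 100)) :
    Pr ys ρ xs T (16 / 100) (36 / 100) (fun _ => 0) (fun _ => 0) xs' T' (125 / 1000) (30 / 100)
      (fun _ => 0) (fun _ => 0) :=
  Pr.of (tab := [⟨2500, 5000, 0, 0, 0, 0, 0⟩])
    (tab' := [⟨2500, 5000, 0, 0, 0, 0, 0⟩])
    (O.LF I o7c2_Wa o7c2_Wb hf0) (l.toF hz0 hz0 (by norm_num) (by norm_num))
    (I.dt0 O.GD (fun _ => O.HD) o7c2_Qp2500_0_0_0 o7c2_Qm2500_0_0_0 rfl DT.nil A16 B36)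
    (d.qt QT.nil)
    (d.dt H.toGD DT.nil)
    (I.qt O.GD (fun _ => O.HD) o7c2_Qp2500_0_0_0 o7c2_Qm2500_0_0_0 rfl QT.nil A16 B36)
    (by decide) (by decide) O.hys O.hxs hx'

theorem pr7c2e {xs ys T ρ xs' T' : ℝ} (O : OneB xs ys T ρ) (I : o7c2e.In T ρ xs ys)
    (H : HD xs' ys T' ρ (125 / 1000) (30 / 100)) (l : LH xs' ys T' ρ (125 / 1000) (30 / 100))
    (d : DnG xs' T' (125 / 1000) (30 / 100) ys ρ)
    (hx' : xs' ∈ Icc (125 / 1000) (30 / 100)) :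
    Pr ys ρ xs T (16 / 100) (36 / 100) (fun _ => 0) (fun _ => 0) xs' T' (125 / 1000) (30 / 100)
      (fun _ => 0) (fun _ => 0) :=
  Pr.of (tab := [⟨2500, 5000, 0, 0, 0, 0, 0⟩])
    (tab' := [⟨2500, 5000, 0, 0, 0, 0, 0⟩])
    (O.LF I o7c2e_Wa o7c2e_Wb hf0) (l.toF hz0 hz0 (by norm_num) (by norm_num))
    (I.dt0 O.GD (fun _ => O.HD) o7c2e_Qp2500_0_0_0 o7c2e_Qm2500_0_0_0 rfl DT.nil A16 B36)
    (d.qt QT.nil)
    (d.dt H.toGD DT.nil)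
    (I.qt O.GD (fun _ => O.HD) o7c2e_Qp2500_0_0_0 o7c2e_Qm2500_0_0_0 rfl QT.nil A16 B36)
    (by decide) (by decide) O.hys O.hxs hx'

theorem pr7c3 {xs ys T ρ xs' T' : ℝ} (O : OneB xs ys T ρ) (I : o7c3.In T ρ xs ys)
    (H : HD xs' ys T' ρ (12 / 100) (30 / 100)) (l : LH xs' ys T' ρ (12 / 100) (30 / 100))
    (d : DnG xs' T' (12 / 100) (30 / 100) ys ρ)
    (hx' : xs' ∈ Icc (12 / 100) (30 / 100)) :
    Pr ys ρ xs T (16 / 100) (36 / 100) (fun _ => 0) (fun _ => 0) xs' T' (12 / 100) (30 / 100)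
      (fun _ => 0) (fun _ => 0) :=
  Pr.of (tab := [⟨2500, 5000, 0, 0, 0, 0, 0⟩])
    (tab' := [⟨2500, 5000, 0, 0, 0, 0, 0⟩])
    (O.LF I o7c3_Wa o7c3_Wb hf0) (l.toF hz0 hz0 (by norm_num) (by norm_num))
    (I.dt0 O.GD (fun _ => O.HD) o7c3_Qp2500_0_0_0 o7c3_Qm2500_0_0_0 rfl DT.nil A16 B36)
    (d.qt QT.nil)
    (d.dt H.toGD DT.nil)
    (I.qt O.GD (fun _ => O.HD) o7c3_Qp2500_0_0_0 o7c3_Qm2500_0_0_0 rfl QT.nil A16 B36)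
    (by decide) (by decide) O.hys O.hxs hx'

theorem pr7c3e {xs ys T ρ xs' T' : ℝ} (O : OneB xs ys T ρ) (I : o7c3e.In T ρ xs ys)
    (H : HD xs' ys T' ρ (10 / 100) (26 / 100)) (l : LH xs' ys T' ρ (10 / 100) (26 / 100))
    (d : DnG xs' T' (10 / 100) (26 / 100) ys ρ)
    (hx' : xs' ∈ Icc (10 / 100) (26 / 100)) :
    Pr ys ρ xs T (16 / 100) (36 / 100) (fun _ => 0) (fun _ => 0) xs' T' (10 / 100) (26 / 100)
      (fun _ => 0) (fun _ => 0) :=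
  Pr.of (tab := [⟨2500, 5000, 0, 0, 0, 0, 0⟩])
    (tab' := [⟨2500, 5000, 0, 0, 0, 0, 0⟩])
    (O.LF I o7c3e_Wa o7c3e_Wb hf0) (l.toF hz0 hz0 (by norm_num) (by norm_num))
    (I.dt0 O.GD (fun _ => O.HD) o7c3e_Qp2500_0_0_0 o7c3e_Qm2500_0_0_0 rfl DT.nil A16 B36)
    (d.qt QT.nil)
    (d.dt H.toGD DT.nil)
    (I.qt O.GD (fun _ => O.HD) o7c3e_Qp2500_0_0_0 o7c3e_Qm2500_0_0_0 rfl QT.nil A16 B36)
    (by decide) (by decide) O.hys O.hxs hx'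

theorem pr7cZ {xs ys T ρ xs' T' : ℝ} (O : OneB xs ys T ρ) (I : o7cZ.In T ρ xs ys)
    (H : HD xs' ys T' ρ (10 / 100) (27 / 100)) (l : LH xs' ys T' ρ (10 / 100) (27 / 100))
    (d : DnG xs' T' (10 / 100) (27 / 100) ys ρ)
    (hx' : xs' ∈ Icc (10 / 100) (27 / 100)) :
    Pr ys ρ xs T (16 / 100) (36 / 100) (fun _ => 0) (fun _ => 0) xs' T' (10 / 100) (27 / 100)
      (fun _ => 0) (fun _ => 0) :=
  Pr.of (tab := [⟨2500, 5000, 0, 0, 0, 0, 0⟩])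
    (tab' := [⟨2500, 5000, 0, 0, 0, 0, 0⟩])
    (O.LF I o7cZ_Wa o7cZ_Wb hf0) (l.toF hz0 hz0 (by norm_num) (by norm_num))
    (I.dt0 O.GD (fun _ => O.HD) o7cZ_Qp2500_0_0_0 o7cZ_Qm2500_0_0_0 rfl DT.nil A16 B36)
    (d.qt QT.nil)
    (d.dt H.toGD DT.nil)
    (I.qt O.GD (fun _ => O.HD) o7cZ_Qp2500_0_0_0 o7cZ_Qm2500_0_0_0 rfl QT.nil A16 B36)
    (by decide) (by decide) O.hys O.hxs hx'

theorem pr7cZs {xs ys T ρ xs' T' : ℝ} (O : OneB xs ys T ρ) (I : o7cZs.In T ρ xs ys)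
    (H : HD xs' ys T' ρ (10 / 100) (27 / 100)) (l : LH xs' ys T' ρ (10 / 100) (27 / 100))
    (d : DnG xs' T' (10 / 100) (27 / 100) ys ρ)
    (hx' : xs' ∈ Icc (10 / 100) (27 / 100)) :
    Pr ys ρ xs T (16 / 100) (36 / 100) (fun _ => 0) (fun _ => 0) xs' T' (10 / 100) (27 / 100)
      (fun _ => 0) (fun _ => 0) :=
  Pr.of (tab := [⟨2500, 5000, 0, 0, 0, 0, 0⟩])
    (tab' := [⟨2500, 5000, 0, 0, 0, 0, 0⟩])
    (O.LF I o7cZs_Wa o7cZs_Wb hf0) (l.toF hz0 hz0 (by norm_num) (by norm_num))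
    (I.dt0 O.GD (fun _ => O.HD) o7cZs_Qp2500_0_0_0 o7cZs_Qm2500_0_0_0 rfl DT.nil A16 B36)
    (d.qt QT.nil)
    (d.dt H.toGD DT.nil)
    (I.qt O.GD (fun _ => O.HD) o7cZs_Qp2500_0_0_0 o7cZs_Qm2500_0_0_0 rfl QT.nil A16 B36)
    (by decide) (by decide) O.hys O.hxs hx'

end RC

end Pool.Agent.Work.MP_b30479_gt.G2
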