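import Pool.Agent.Work.MP_b30479_gt.G2.RLvlB
import Pool.Agent.Work.MP_b30479_gt.G2.RGp7c
import Pool.Agent.Work.MP_b30479_gt.G2.RLvlA
import Pool.Agent.Work.MP_b30479_gt.G2.WLocD

/-!
# Rings on the level part: the pairs of hinges by class
-/

namespace Pool.Agent.Work.MP_b30479_gt.G2

open Finset VOL Filter Topology

namespace SR

/-- **A ring between a digit `1` and a class `k`, the pair of hinges.** -/
theorem pm7c {xs ys T ρ xs' T' : ℝ} {k : Cl} {s : Bool}
    (hk : k ≠ .one)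
    (q : (rc7 .twoE).Re xs ys T ρ)
    (r : P7 rd7 k s xs' ys T' ρ)
    (D : Lo k xs' ys T' ρ)
    (KZ : k = .ring → |T'| ≤ 47 / 1000)
    (hx : xs' ∈ Set.Icc (fcl k) (fcp k)) :
    PrS 7 .twoE k xs ys T ρ xs' T' := by
  cases k
  · exact absurd rfl hk
  · have q9 : (mk4 2425 2545 1070 1337 1450 1788 115 338 (-1450) (-1320) 3870 3755).Re xs ys T ρ := q
    have r9 : (mk4 1985 2510 1065 1330 560 1254 135 394 (-860) (-375) 3810 3675).Re xs' ys T' ρ := r.1 (by decide)
    have q0 : (mk4 2425 2545 1070 1330 1450 1788 135 338 (-1450) (-1320) 3870 3755).Re xs ys T ρ := q9.int r9 (by decide)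
    have r0 : (mk4 1985 2510 1070 1330 560 1254 135 338 (-860) (-375) 3810 3675).Re xs' ys T' ρ := r9.int q9 (by decide)
    have O := q0.oneB RC.Row.cH8 (by decide)
    have I : RC.o7c2.In T ρ xs ys := wd4_in q0 (by decide)
    obtain ⟨H, l, d⟩ := D
    exact ⟨_, _, Or.inl rfl, Or.inl rfl, RC.pr7c2 O I H l d hx⟩
  · have q9 : (mk4 2425 2545 1070 1337 1450 1788 115 338 (-1450) (-1320) 3870 3755).Re xs ys T ρ := q
    have r9 : (mk4 1705 1795 1089 1297 1245 1528 104 308 (-1220) (-1130) 3080 2976).Re xs' ys T' ρ := r.1 (by decide)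
    have q0 : (mk4 2425 2545 1089 1297 1450 1788 115 308 (-1450) (-1320) 3870 3755).Re xs ys T ρ := q9.int r9 (by decide)
    have r0 : (mk4 1705 1795 1089 1297 1245 1528 115 308 (-1220) (-1130) 3080 2976).Re xs' ys T' ρ := r9.int q9 (by decide)
    have O := q0.oneB RC.Row.cH8 (by decide)
    have I : RC.o7c2e.In T ρ xs ys := wd4_in q0 (by decide)
    obtain ⟨H, l, d⟩ := D
    exact ⟨_, _, Or.inl rfl, Or.inl rfl, RC.pr7c2e O I H l d hx⟩
  · have q9 : (mk4 2425 2545 1070 1337 1450 1788 115 338 (-1450) (-1320) 3870 3755).Re xs ys T ρ := q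
    have r9 : (mk4 2030 2300 1112 1344 385 876 156 391 (-485) (-185) 3615 3459).Re xs' ys T' ρ := r.1 (by decide)
    have q0 : (mk4 2425 2545 1112 1337 1450 1788 156 338 (-1450) (-1320) 3870 3755).Re xs ys T ρ := q9.int r9 (by decide)
    have r0 : (mk4 2030 2300 1112 1337 385 876 156 338 (-485) (-185) 3615 3459).Re xs' ys T' ρ := r9.int q9 (by decide)
    have O := q0.oneB RC.Row.cH8 (by decide)
    have I : RC.o7c3.In T ρ xs ys := wd4_in q0 (by decide)
    obtain ⟨H, l, d⟩ := D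
    exact ⟨_, _, Or.inl rfl, Or.inl rfl, RC.pr7c3 O I H l d hx⟩
  · have q9 : (mk4 2425 2545 1070 1337 1450 1788 115 338 (-1450) (-1320) 3870 3755).Re xs ys T ρ := q
    have r9 : (mk4 1840 1925 1133 1332 585 855 142 345 (-510) (-425) 3240 3098).Re xs' ys T' ρ := r.1 (by decide)
    have q0 : (mk4 2425 2545 1133 1332 1450 1788 142 338 (-1450) (-1320) 3870 3755).Re xs ys T ρ := q9.int r9 (by decide)
    have r0 : (mk4 1840 1925 1133 1332 585 855 142 338 (-510) (-425) 3240 3098).Re xs' ys T' ρ := r9.int q9 (by decide)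
    have O := q0.oneB RC.Row.cH8 (by decide)
    have I : RC.o7c3e.In T ρ xs ys := wd4_in q0 (by decide)
    obtain ⟨H, l, d⟩ := D
    exact ⟨_, _, Or.inl rfl, Or.inl rfl, RC.pr7c3e O I H l d hx⟩
  · cases s
    · have q9 : (mk4 2425 2545 1070 1337 1450 1788 115 338 (-1450) (-1320) 3870 3755).Re xs ys T ρ := q
      have q0 : (mk4 2425 2545 1070 1337 1450 1788 115 338 (-1450) (-1320) 3870 3755).Re xs ys T ρ := q9
      have r0 : (mk4 1820 2520 1070 1337 (-270) 723 115 338 (-385) 385 3857 3857).Re xs' ys T' ρ := Rg.re q9 (r.2 rfl) (by decide)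
      have O := q0.oneB RC.Row.cH8 (by decide)
      have I : RC.o7cZ.In T ρ xs ys := wd4_in q0 (by decide)
      obtain ⟨H, l, d⟩ := D
      exact ⟨_, _, Or.inl rfl, Or.inl rfl, RC.pr7cZ O I H l d hx⟩
    · have q9 : (mk4 2425 2545 1070 1337 1450 1788 115 338 (-1450) (-1320) 3870 3755).Re xs ys T ρ := q
      have q0 : (mk4 2425 2545 1070 1337 1450 1788 115 338 (-1450) (-1320) 3870 3755).Re xs ys T ρ := q9
      have r0 : (mk4 1700 2520 1070 1337 (-350) 348 115 338 (-10) 465 3857 3857).Re xs' ys T' ρ := Rg.re q9 (r.2 rfl) (by decide)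
      have O := q0.oneB RC.Row.cH8 (by decide)
      have I : RC.o7cZs.In T ρ xs ys := wd4_in q0 (by decide)
      obtain ⟨H, l, d⟩ := D
      exact ⟨_, _, Or.inl rfl, Or.inl rfl, RC.pr7cZs O I H l d hx⟩

end SR

end Pool.Agent.Work.MP_b30479_gt.G2
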