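import Pool.Agent.Work.MP_b30479_gt.G2.RLvlB
import Pool.Agent.Work.MP_b30479_gt.G2.RGp8a
import Pool.Agent.Work.MP_b30479_gt.G2.RLvlA
import Pool.Agent.Work.MP_b30479_gt.G2.WLocD

/-!
# Rings on the level part: the pairs of hinges by class
-/

namespace Pool.Agent.Work.MP_b30479_gt.G2

open Finset VOL Filter Topology

namespace SR

/-- **A ring between a digit `1` and a class `k`, the pair of hinges.** -/
theorem pm8a {xs ys T ρ xs' T' : ℝ} {k : Cl} {s : Bool}
    (hk : k ≠ .one)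
    (q : (rc8 .one).Re xs ys T ρ)
    (r : P7 rd8 k s xs' ys T' ρ)
    (D : Lo k xs' ys T' ρ)
    (KZ : k = .ring → |T'| ≤ 47 / 1000)
    (hx : xs' ∈ Set.Icc (fcl k) (fcp k)) :
    PrS 8 .one k xs ys T ρ xs' T' := by
  cases k
  · exact absurd rfl hk
  · have q9 : (mk4 2185 2770 0 1291 685 1710 0 360 (-1350) (-685) 3960 3960).Re xs ys T ρ := q
    have r9 : (mk4 1975 2525 0 1250 400 1305 0 355 (-950) (-400) 3770 3770).Re xs' ys T' ρ := r.1 (by decide)
    have q0 : (mk4 2185 2770 0 1250 685 1710 0 355 (-1350) (-685) 3960 3960).Re xs ys T ρ := q9.int r9 (by decide)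
    have r0 : (mk4 1975 2525 0 1250 400 1305 0 355 (-950) (-400) 3770 3770).Re xs' ys T' ρ := r9.int q9 (by decide)
    have O := q0.oneB RC.Row.cH8 (by decide)
    have I : RC.o8a2.In T ρ xs ys := wd4_in q0 (by decide)
    obtain ⟨H, l, d⟩ := D
    exact ⟨_, _, Or.inl rfl, Or.inl rfl, RC.pr8a2 O I H l d hx⟩
  · have q9 : (mk4 2185 2770 0 1291 685 1710 0 360 (-1350) (-685) 3960 3960).Re xs ys T ρ := q
    have r9 : (mk4 1695 1795 0 1250 1145 1577 0 277 (-1300) (-1145) 3030 3030).Re xs' ys T' ρ := r.1 (by decide)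
    have q0 : (mk4 2185 2770 0 1250 685 1710 0 277 (-1350) (-685) 3960 3960).Re xs ys T ρ := q9.int r9 (by decide)
    have r0 : (mk4 1695 1795 0 1250 1145 1577 0 277 (-1300) (-1145) 3030 3030).Re xs' ys T' ρ := r9.int q9 (by decide)
    have O := q0.oneB RC.Row.cH8 (by decide)
    have I : RC.o8a2e.In T ρ xs ys := wd4_in q0 (by decide)
    obtain ⟨H, l, d⟩ := D
    exact ⟨_, _, Or.inl rfl, Or.inl rfl, RC.pr8a2e O I H l d hx⟩
  · have q9 : (mk4 2185 2770 0 1291 685 1710 0 360 (-1350) (-685) 3960 3960).Re xs ys T ρ := q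
    have r9 : (mk4 2025 2335 0 1250 205 907 0 352 (-555) (-205) 3560 3560).Re xs' ys T' ρ := r.1 (by decide)
    have q0 : (mk4 2185 2770 0 1250 685 1710 0 352 (-1350) (-685) 3960 3960).Re xs ys T ρ := q9.int r9 (by decide)
    have r0 : (mk4 2025 2335 0 1250 205 907 0 352 (-555) (-205) 3560 3560).Re xs' ys T' ρ := r9.int q9 (by decide)
    have O := q0.oneB RC.Row.cH8 (by decide)
    have I : RC.o8a3.In T ρ xs ys := wd4_in q0 (by decide)
    obtain ⟨H, l, d⟩ := D
    exact ⟨_, _, Or.inl rfl, Or.inl rfl, RC.pr8a3 O I H l d hx⟩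
  · have q9 : (mk4 2185 2770 0 1291 685 1710 0 360 (-1350) (-685) 3960 3960).Re xs ys T ρ := q
    have r9 : (mk4 1835 1945 0 1250 440 882 0 312 (-570) (-440) 3160 3160).Re xs' ys T' ρ := r.1 (by decide)
    have q0 : (mk4 2185 2770 0 1250 685 1710 0 312 (-1350) (-685) 3960 3960).Re xs ys T ρ := q9.int r9 (by decide)
    have r0 : (mk4 1835 1945 0 1250 440 882 0 312 (-570) (-440) 3160 3160).Re xs' ys T' ρ := r9.int q9 (by decide)
    have O := q0.oneB RC.Row.cH8 (by decide)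
    have I : RC.o8a3e.In T ρ xs ys := wd4_in q0 (by decide)
    obtain ⟨H, l, d⟩ := D
    exact ⟨_, _, Or.inl rfl, Or.inl rfl, RC.pr8a3e O I H l d hx⟩
  · cases s
    · have q9 : (mk4 2185 2770 0 1291 685 1710 0 360 (-1350) (-685) 3960 3960).Re xs ys T ρ := q
      have q0 : (mk4 2185 2770 0 1291 685 1710 0 360 (-1350) (-685) 3960 3960).Re xs ys T ρ := q9
      have r0 : (mk4 1820 2520 0 1291 (-385) 745 0 360 (-385) 385 3811 3811).Re xs' ys T' ρ := Rg.re q9 (r.2 rfl) (by decide)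
      have O := q0.oneB RC.Row.cH8 (by decide)
      have I : RC.o8aZ.In T ρ xs ys := wd4_in q0 (by decide)
      have J : RC.p8aZ.In T' ρ xs' ys := wd4_in r0 (by decide)
      have K := r0.kap (by decide) (KZ rfl)
      obtain ⟨H, l, d⟩ := D
      exact ⟨_, _, Or.inl rfl, Or.inl rfl, RC.pr8aZ O I H l d J hx K.1 K.2⟩
    · have q9 : (mk4 2185 2770 0 1291 685 1710 0 360 (-1350) (-685) 3960 3960).Re xs ys T ρ := q
      have q0 : (mk4 2185 2770 0 1291 685 1710 0 360 (-1350) (-685) 3960 3960).Re xs ys T ρ := q9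
      have r0 : (mk4 1700 2520 0 1291 (-465) 370 0 360 (-10) 465 3811 3811).Re xs' ys T' ρ := Rg.re q9 (r.2 rfl) (by decide)
      have O := q0.oneB RC.Row.cH8 (by decide)
      have I : RC.o8aZs.In T ρ xs ys := wd4_in q0 (by decide)
      have J : RC.p8aZs.In T' ρ xs' ys := wd4_in r0 (by decide)
      have K := r0.kap (by decide) (KZ rfl)
      obtain ⟨H, l, d⟩ := D
      exact ⟨_, _, Or.inl rfl, Or.inl rfl, RC.pr8aZs O I H l d J hx K.1 K.2⟩

end SR

end Pool.Agent.Work.MP_b30479_gt.G2
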