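import Pool.Agent.Work.MP_b30479_gt.G2.RGn09
import Pool.Agent.Work.MP_b30479_gt.G2.RGn10
import Pool.Agent.Work.MP_b30479_gt.G2.RLvl7

/-!
# Rings on the level part: pairs of hinges
-/

namespace Pool.Agent.Work.MP_b30479_gt.G2

open Real Set

namespace RC

open R6

theorem pr8b2 {xs ys T ρ xs' T' : ℝ} (O : OneB xs ys T ρ) (I : o8b2.In T ρ xs ys)
    (H : HD xs' ys T' ρ (125 / 1000) (30 / 100)) (l : LH xs' ys T' ρ (125 / 1000) (30 / 100))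
    (d : DnG xs' T' (125 / 1000) (30 / 100) ys ρ) (I' : p8b2.In T' ρ xs' ys)
    (hx' : xs' ∈ Icc (125 / 1000) (30 / 100)) :
    Pr ys ρ xs T (16 / 100) (36 / 100) (fun _ => 0) (fun _ => 0) xs' T' (125 / 1000) (30 / 100)
      (fun _ => 0) (fun _ => 0) :=
  Pr.of (tab := [⟨2500, 2700, 0, 0, 0, 0, 0⟩, ⟨2700, 5000, 0, 0, 0, 0, 0⟩])
    (tab' := [⟨2500, 2700, 100, 180, 0, 0, 0⟩, ⟨2700, 5000, 0, 0, 0, 0, 0⟩])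
    (O.LF I o8b2_Wa o8b2_Wb hf0) (l.toF hz0 hz0 (by norm_num) (by norm_num))
    (I.dt O.GD (fun _ => O.HD) o8b2_Dp2500_0_0_0 o8b2_Dm2500_0_0_0 rfl hf0 hf0
      (I.dt0 O.GD (fun _ => O.HD) o8b2_Qp2700_0_0_0 o8b2_Qm2700_0_0_0 rfl DT.nil A16 B36) A16 B36)
    (d.qt (d.qt QT.nil))
    (I'.dt H.toGD (fun _ => H) p8b2_Dp2500_100_180_0 p8b2_Dm2500_100_180_0 rfl hf0 hf0
      (d.dt H.toGD DT.nil) A12 B30)
    (I.qt O.GD (fun _ => O.HD) o8b2_Qp2500_100_180_0 o8b2_Qm2500_100_180_0 rfl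
      (I.qt O.GD (fun _ => O.HD) o8b2_Qp2700_0_0_0 o8b2_Qm2700_0_0_0 rfl QT.nil A16 B36) A16 B36)
    (by decide) (by decide) O.hys O.hxs hx'

theorem pr8b2e {xs ys T ρ xs' T' : ℝ} (O : OneB xs ys T ρ) (I : o8b2e.In T ρ xs ys)
    (H : HD xs' ys T' ρ (125 / 1000) (30 / 100)) (l : LH xs' ys T' ρ (125 / 1000) (30 / 100))
    (d : DnG xs' T' (125 / 1000) (30 / 100) ys ρ) (I' : p8b2e.In T' ρ xs' ys)
    (hx' : xs' ∈ Icc (125 / 1000) (30 / 100)) :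
    Pr ys ρ xs T (16 / 100) (36 / 100) (fun _ => 0) (fun _ => 0) xs' T' (125 / 1000) (30 / 100)
      (fun _ => 0) (fun _ => 0) :=
  Pr.of (tab := [⟨2500, 2700, 0, 0, 0, 0, 0⟩, ⟨2700, 5000, 0, 0, 0, 0, 0⟩])
    (tab' := [⟨2500, 2700, 100, 180, 0, 0, 0⟩, ⟨2700, 5000, 0, 0, 0, 0, 0⟩])
    (O.LF I o8b2e_Wa o8b2e_Wb hf0) (l.toF hz0 hz0 (by norm_num) (by norm_num))
    (I.dt O.GD (fun _ => O.HD) o8b2e_Dp2500_0_0_0 o8b2e_Dm2500_0_0_0 rfl hf0 hf0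
      (I.dt0 O.GD (fun _ => O.HD) o8b2e_Qp2700_0_0_0 o8b2e_Qm2700_0_0_0 rfl DT.nil A16 B36) A16 B36)
    (d.qt (d.qt QT.nil))
    (I'.dt H.toGD (fun _ => H) p8b2e_Dp2500_100_180_0 p8b2e_Dm2500_100_180_0 rfl hf0 hf0
      (d.dt H.toGD DT.nil) A12 B30)
    (I.qt O.GD (fun _ => O.HD) o8b2e_Qp2500_100_180_0 o8b2e_Qm2500_100_180_0 rfl
      (I.qt O.GD (fun _ => O.HD) o8b2e_Qp2700_0_0_0 o8b2e_Qm2700_0_0_0 rfl QT.nil A16 B36) A16 B36)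
    (by decide) (by decide) O.hys O.hxs hx'

theorem pr8b3 {xs ys T ρ xs' T' : ℝ} (O : OneB xs ys T ρ) (I : o8b3.In T ρ xs ys)
    (H : HD xs' ys T' ρ (12 / 100) (30 / 100)) (l : LH xs' ys T' ρ (12 / 100) (30 / 100))
    (d : DnG xs' T' (12 / 100) (30 / 100) ys ρ) (I' : p8b3.In T' ρ xs' ys)
    (hx' : xs' ∈ Icc (12 / 100) (30 / 100)) :
    Pr ys ρ xs T (16 / 100) (36 / 100) (fun _ => 0) (fun _ => 0) xs' T' (12 / 100) (30 / 100)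
      (fun _ => 0) (fun _ => 0) :=
  Pr.of (tab := [⟨2500, 2700, 0, 0, 0, 0, 0⟩, ⟨2700, 5000, 0, 0, 0, 0, 0⟩])
    (tab' := [⟨2500, 2700, 90, 180, 0, 0, 0⟩, ⟨2700, 5000, 0, 0, 0, 0, 0⟩])
    (O.LF I o8b3_Wa o8b3_Wb hf0) (l.toF hz0 hz0 (by norm_num) (by norm_num))
    (I.dt O.GD (fun _ => O.HD) o8b3_Dp2500_0_0_0 o8b3_Dm2500_0_0_0 rfl hf0 hf0
      (I.dt0 O.GD (fun _ => O.HD) o8b3_Qp2700_0_0_0 o8b3_Qm2700_0_0_0 rfl DT.nil A16 B36) A16 B36)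
    (d.qt (d.qt QT.nil))
    (I'.dt H.toGD (fun _ => H) p8b3_Dp2500_90_180_0 p8b3_Dm2500_90_180_0 rfl hf0 hf0
      (d.dt H.toGD DT.nil) A120 B30)
    (I.qt O.GD (fun _ => O.HD) o8b3_Qp2500_90_180_0 o8b3_Qm2500_90_180_0 rfl
      (I.qt O.GD (fun _ => O.HD) o8b3_Qp2700_0_0_0 o8b3_Qm2700_0_0_0 rfl QT.nil A16 B36) A16 B36)
    (by decide) (by decide) O.hys O.hxs hx'

theorem pr8b3e {xs ys T ρ xs' T' : ℝ} (O : OneB xs ys T ρ) (I : o8b3e.In T ρ xs ys)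
    (H : HD xs' ys T' ρ (10 / 100) (26 / 100)) (l : LH xs' ys T' ρ (10 / 100) (26 / 100))
    (d : DnG xs' T' (10 / 100) (26 / 100) ys ρ) (I' : p8b3e.In T' ρ xs' ys)
    (hx' : xs' ∈ Icc (10 / 100) (26 / 100)) :
    Pr ys ρ xs T (16 / 100) (36 / 100) (fun _ => 0) (fun _ => 0) xs' T' (10 / 100) (26 / 100)
      (fun _ => 0) (fun _ => 0) :=
  Pr.of (tab := [⟨2500, 2700, 0, 0, 0, 0, 0⟩, ⟨2700, 5000, 0, 0, 0, 0, 0⟩])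
    (tab' := [⟨2500, 2700, 115, 150, 0, 0, 0⟩, ⟨2700, 5000, 0, 0, 0, 0, 0⟩])
    (O.LF I o8b3e_Wa o8b3e_Wb hf0) (l.toF hz0 hz0 (by norm_num) (by norm_num))
    (I.dt O.GD (fun _ => O.HD) o8b3e_Dp2500_0_0_0 o8b3e_Dm2500_0_0_0 rfl hf0 hf0
      (I.dt0 O.GD (fun _ => O.HD) o8b3e_Qp2700_0_0_0 o8b3e_Qm2700_0_0_0 rfl DT.nil A16 B36) A16 B36)
    (d.qt (d.qt QT.nil))
    (I'.dt H.toGD (fun _ => H) p8b3e_Dp2500_115_150_0 p8b3e_Dm2500_115_150_0 rfl hf0 hf0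
      (d.dt H.toGD DT.nil) A10 B26)
    (I.qt O.GD (fun _ => O.HD) o8b3e_Qp2500_115_150_0 o8b3e_Qm2500_115_150_0 rfl
      (I.qt O.GD (fun _ => O.HD) o8b3e_Qp2700_0_0_0 o8b3e_Qm2700_0_0_0 rfl QT.nil A16 B36) A16 B36)
    (by decide) (by decide) O.hys O.hxs hx'

theorem pr8bZ {xs ys T ρ xs' T' : ℝ} (O : OneB xs ys T ρ) (I : o8bZ.In T ρ xs ys)
    (H : HD xs' ys T' ρ (10 / 100) (27 / 100)) (l : LH xs' ys T' ρ (10 / 100) (27 / 100))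
    (d : DnG xs' T' (10 / 100) (27 / 100) ys ρ) (I' : p8bZ.In T' ρ xs' ys)
    (hx' : xs' ∈ Icc (10 / 100) (27 / 100)) (K : Kap xs' ys T' ρ (27 / 100)) (h17 : 17 / 100 ≤ xs')
    :
    Pr ys ρ xs T (16 / 100) (36 / 100) (fun _ => 0) (fun _ => 0) xs' T' (10 / 100) (27 / 100)
      (fun _ => 0) (fun _ => 0) :=
  Pr.of (tab := [⟨2500, 2700, 0, 0, 0, 0, 0⟩, ⟨2700, 5000, 0, 0, 0, 0, 0⟩])
    (tab' := [⟨2500, 2700, 90, 180, 0, 0, 0⟩, ⟨2700, 5000, 0, 0, 0, 0, 0⟩])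
    (O.LF I o8bZ_Wa o8bZ_Wb hf0) (l.toF hz0 hz0 (by norm_num) (by norm_num))
    (I.dt O.GD (fun _ => O.HD) o8bZ_Dp2500_0_0_0 o8bZ_Dm2500_0_0_0 rfl hf0 hf0
      (I.dt0 O.GD (fun _ => O.HD) o8bZ_Qp2700_0_0_0 o8bZ_Qm2700_0_0_0 rfl DT.nil A16 B36) A16 B36)
    (d.qt (d.qt QT.nil))
    (I'.dk H.toGD (fun _ => H) K le_rfl h17 (by decide) p8bZ_Dm2500_90_180_0 rfl
      (d.dt H.toGD DT.nil) A10)
    (I.qt O.GD (fun _ => O.HD) o8bZ_Qp2500_90_180_0 o8bZ_Qm2500_90_180_0 rfl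
      (I.qt O.GD (fun _ => O.HD) o8bZ_Qp2700_0_0_0 o8bZ_Qm2700_0_0_0 rfl QT.nil A16 B36) A16 B36)
    (by decide) (by decide) O.hys O.hxs hx'

theorem pr8bZs {xs ys T ρ xs' T' : ℝ} (O : OneB xs ys T ρ) (I : o8bZs.In T ρ xs ys)
    (H : HD xs' ys T' ρ (10 / 100) (27 / 100)) (l : LH xs' ys T' ρ (10 / 100) (27 / 100))
    (d : DnG xs' T' (10 / 100) (27 / 100) ys ρ) (I' : p8bZs.In T' ρ xs' ys)
    (hx' : xs' ∈ Icc (10 / 100) (27 / 100)) (K : Kap xs' ys T' ρ (27 / 100)) (h17 : 17 / 100 ≤ xs')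
    :
    Pr ys ρ xs T (16 / 100) (36 / 100) (fun _ => 0) (fun _ => 0) xs' T' (10 / 100) (27 / 100)
      (fun _ => 0) (fun _ => 0) :=
  Pr.of (tab := [⟨2500, 2700, 0, 0, 0, 0, 0⟩, ⟨2700, 5000, 0, 0, 0, 0, 0⟩])
    (tab' := [⟨2500, 2700, 90, 150, 0, 0, 0⟩, ⟨2700, 5000, 0, 0, 0, 0, 0⟩])
    (O.LF I o8bZs_Wa o8bZs_Wb hf0) (l.toF hz0 hz0 (by norm_num) (by norm_num))
    (I.dt O.GD (fun _ => O.HD) o8bZs_Dp2500_0_0_0 o8bZs_Dm2500_0_0_0 rfl hf0 hf0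
      (I.dt0 O.GD (fun _ => O.HD) o8bZs_Qp2700_0_0_0 o8bZs_Qm2700_0_0_0 rfl DT.nil A16 B36) A16 B36)
    (d.qt (d.qt QT.nil))
    (I'.dk H.toGD (fun _ => H) K le_rfl h17 (by decide) p8bZs_Dm2500_90_150_0 rfl
      (d.dt H.toGD DT.nil) A10)
    (I.qt O.GD (fun _ => O.HD) o8bZs_Qp2500_90_150_0 o8bZs_Qm2500_90_150_0 rfl
      (I.qt O.GD (fun _ => O.HD) o8bZs_Qp2700_0_0_0 o8bZs_Qm2700_0_0_0 rfl QT.nil A16 B36) A16 B36)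
    (by decide) (by decide) O.hys O.hxs hx'

end RC

end Pool.Agent.Work.MP_b30479_gt.G2
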