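import Pool.Agent.Work.MP_b30479_gt.G2.RFa
import Pool.Agent.Work.MP_b30479_gt.G2.RGq4a
import Pool.Agent.Work.MP_b30479_gt.G2.RGq4b
import Pool.Agent.Work.MP_b30479_gt.G2.RGq4c
import Pool.Agent.Work.MP_b30479_gt.G2.RGq5a
import Pool.Agent.Work.MP_b30479_gt.G2.RGq5b
import Pool.Agent.Work.MP_b30479_gt.G2.RGq5c
import Pool.Agent.Work.MP_b30479_gt.G2.RGq6a
import Pool.Agent.Work.MP_b30479_gt.G2.RGq6b
import Pool.Agent.Work.MP_b30479_gt.G2.RGq6c
import Pool.Agent.Work.MP_b30479_gt.G2.RGq7a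
import Pool.Agent.Work.MP_b30479_gt.G2.RGq7b
import Pool.Agent.Work.MP_b30479_gt.G2.RGq7c
import Pool.Agent.Work.MP_b30479_gt.G2.RGq8a
import Pool.Agent.Work.MP_b30479_gt.G2.RGq8b
import Pool.Agent.Work.MP_b30479_gt.G2.RGq8c

/-!
# Rings in a word: the pair of hinges next to a digit `1` and a larger class
-/

namespace Pool.Agent.Work.MP_b30479_gt.G2

open Finset VOL Filter Topology

namespace SR

variable {M : ℕ} {b : Fin (M + 1) → ℤ} {zs : DD (tyW b) ⊕ ZZ (tyW b) → ℂ}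
variable {y : DD (tyW b) ⊕ ZZ (tyW b) → ℝ}
variable {h h' h2 h3 : Fin M} {i j k g g' : Fin (M + 1)} {p : Fin 3} {v : ZZ (tyW b)}

theorem FS.mono {n : ℕ} (hn : 8 ≤ n) {C : Cl} {xs T : ℝ} {f : ℝ → ℝ} (h : FS 8 C xs T f) :
    FS n C xs T f := by
  rcases h with h | ⟨h1, h2, h3⟩
  · exact Or.inl h
  · refine Or.inr ⟨h1, h2, ?_⟩
    rcases h3 with ⟨h3, -⟩ | ⟨-, h4, h5⟩
    · exact absurd h3 (by decide)
    · exact Or.inr ⟨by omega, h4, h5⟩

theorem GS.mono {n : ℕ} {k : Cl} {f : ℝ → ℝ} (h : GS 8 k f) : GS n k f := by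
  rcases h with h | ⟨-, h, -⟩
  · exact Or.inl h
  · exact absurd h (by decide)

theorem PrS.mono {n : ℕ} (hn : 8 ≤ n) {C k : Cl} {xs ys T ρ xs' T' : ℝ}
    (h : PrS 8 C k xs ys T ρ xs' T') : PrS n C k xs ys T ρ xs' T' := by
  obtain ⟨f, g, hf, hg, h⟩ := h
  exact ⟨f, g, hf.mono hn, hg.mono, h⟩

theorem RFacts.pr1_4 (F : RFacts b zs) (A : Adj h i p j) (A2 : Adj h2 j p g)
    (A' : Adj h' i p.rev k) (hc : clsW b i = .ring) (hv : v.1 = i) (hj : clsW b j = .one)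
    (hk : clsW b k ≠ .one) (hn : (b i).natAbs = 4) (he : isEnd i = false) :
    PrS 4 (clsW b g) (clsW b k) (zs (.inl (.inl h))).re (1 / 2 + ofs (b i) (zs (.inr v)).re)
      (ofs (b i) (zs (.inl (.inl h))).im) (zs (.inr v)).im (zs (.inl (.inl h'))).re
      (ofs (b i) (zs (.inl (.inl h'))).im) := by
  have q := (F.w4.own v hv A A2 A' hc hn hj).adj A hv
  have r := (F.w4.par v hv A A2 A' hc hn hj hk).adj A' hv
  have hx := F.H.xs_flat A' hc
  have D : clsW b k ≠ .twoE → _ := fun h0 => F.H.lo A' hc hv hk fun h1 => absurd h1 h0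
  have B := fun h0 => F.bd4 A A2 A' hc hv hj h0 hn he
  rcases cls_behind F.H.hb A A2 hc hj with h0 | h0 | h0
  · rw [h0] at q r ⊢
    exact pm4a hk q r D hx
  · rw [h0] at q r ⊢
    exact pm4b hk q r (B h0) D hx
  · rw [h0] at q r ⊢
    exact pm4c hk q r D hx

theorem RFacts.pr1_5 (F : RFacts b zs) (A : Adj h i p j) (A2 : Adj h2 j p g)
    (A' : Adj h' i p.rev k) (hc : clsW b i = .ring) (hv : v.1 = i) (hj : clsW b j = .one)
    (hk : clsW b k ≠ .one) (hn : (b i).natAbs = 5) (he : isEnd i = false) :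
    PrS 5 (clsW b g) (clsW b k) (zs (.inl (.inl h))).re (1 / 2 + ofs (b i) (zs (.inr v)).re)
      (ofs (b i) (zs (.inl (.inl h))).im) (zs (.inr v)).im (zs (.inl (.inl h'))).re
      (ofs (b i) (zs (.inl (.inl h'))).im) := by
  have q := (F.w5.own v hv A A2 A' hc hn hj).adj A hv
  have r := (F.w5.par v hv A A2 A' hc hn hj hk).adj A' hv
  have hx := F.H.xs_flat A' hc
  have D := F.H.lo A' hc hv hk fun _ => by omega
  have KZ := fun h0 => F.H.kz A' hc (by omega) h0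
  have B := fun h0 => F.bd5 A A2 A' hc hv hj h0 hn
  rcases cls_behind F.H.hb A A2 hc hj with h0 | h0 | h0
  · rw [h0] at q r ⊢
    exact pm5a hk q r D KZ hx
  · rw [h0] at q r ⊢
    exact pm5b hk q r (B h0) D KZ hx
  · rw [h0] at q r ⊢
    exact pm5c hk q r D KZ hx

theorem RFacts.pr1_6 (F : RFacts b zs) (A : Adj h i p j) (A2 : Adj h2 j p g)
    (A' : Adj h' i p.rev k) (hc : clsW b i = .ring) (hv : v.1 = i) (hj : clsW b j = .one)
    (hk : clsW b k ≠ .one) (hn : (b i).natAbs = 6) (he : isEnd i = false) :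
    PrS 6 (clsW b g) (clsW b k) (zs (.inl (.inl h))).re (1 / 2 + ofs (b i) (zs (.inr v)).re)
      (ofs (b i) (zs (.inl (.inl h))).im) (zs (.inr v)).im (zs (.inl (.inl h'))).re
      (ofs (b i) (zs (.inl (.inl h'))).im) := by
  have q := (F.w6.own v hv A A2 A' hc hn hj).adj A hv
  have r := (F.w6.par v hv A A2 A' hc hn hj hk).adj A' hv
  have hx := F.H.xs_flat A' hc
  have D := F.H.lo A' hc hv hk fun _ => by omega
  have KZ := fun h0 => F.H.kz A' hc (by omega) h0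
  rcases cls_behind F.H.hb A A2 hc hj with h0 | h0 | h0
  · rw [h0] at q r ⊢
    exact pm6a hk q r D KZ hx
  · rw [h0] at q r ⊢
    exact pm6b hk q r D KZ hx
  · rw [h0] at q r ⊢
    exact pm6c hk q r D KZ hx

theorem RFacts.pr1_7 (F : RFacts b zs) (A : Adj h i p j) (A2 : Adj h2 j p g)
    (A' : Adj h' i p.rev k) (hc : clsW b i = .ring) (hv : v.1 = i) (hj : clsW b j = .one)
    (hk : clsW b k ≠ .one) (hn : (b i).natAbs = 7) :
    PrS 7 (clsW b g) (clsW b k) (zs (.inl (.inl h))).re (1 / 2 + ofs (b i) (zs (.inr v)).re)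
      (ofs (b i) (zs (.inl (.inl h))).im) (zs (.inr v)).im (zs (.inl (.inl h'))).re
      (ofs (b i) (zs (.inl (.inl h'))).im) := by
  have q := (F.c7.own v hv A A2 A' hc hn hj).adj A hv
  have r : P7 rd7 (clsW b k) (ssW b h') (zs (.inl (.inl h'))).re (1 / 2 + ofs (b i) (zs (.inr v)).re)
      (ofs (b i) (zs (.inl (.inl h'))).im) (zs (.inr v)).im :=
    ⟨fun h0 => (F.e7 v hv A A' hc hn hj hk h0).adj A' hv, fun h0 => F.H.rg A' hc (by omega) h0⟩
  have hx := F.H.xs_flat A' hc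
  have D := F.H.lo A' hc hv hk fun _ => by omega
  have KZ := fun h0 => F.H.kz A' hc (by omega) h0
  rcases cls_behind F.H.hb A A2 hc hj with h0 | h0 | h0
  · rw [h0] at q ⊢
    exact pm7a hk q r D KZ hx
  · rw [h0] at q ⊢
    exact pm7b hk q r D KZ hx
  · rw [h0] at q ⊢
    exact pm7c hk q r D KZ hx

theorem RFacts.pr1_8 (F : RFacts b zs) (A : Adj h i p j) (A2 : Adj h2 j p g)
    (A' : Adj h' i p.rev k) (hc : clsW b i = .ring) (hv : v.1 = i) (hj : clsW b j = .one)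
    (hk : clsW b k ≠ .one) (hn : 8 ≤ (b i).natAbs) :
    PrS (b i).natAbs (clsW b g) (clsW b k) (zs (.inl (.inl h))).re (1 / 2 + ofs (b i) (zs (.inr v)).re)
      (ofs (b i) (zs (.inl (.inl h))).im) (zs (.inr v)).im (zs (.inl (.inl h'))).re
      (ofs (b i) (zs (.inl (.inl h'))).im) := by
  have q := (F.c8.own v hv A A2 A' hc hn hj).adj A hv
  have r : P7 rd8 (clsW b k) (ssW b h') (zs (.inl (.inl h'))).re (1 / 2 + ofs (b i) (zs (.inr v)).re)
      (ofs (b i) (zs (.inl (.inl h'))).im) (zs (.inr v)).im :=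
    ⟨fun h0 => (F.c8.par v hv A A' hc hn hj hk h0).adj A' hv, fun h0 => F.H.rg A' hc (by omega) h0⟩
  have hx := F.H.xs_flat A' hc
  have D := F.H.lo A' hc hv hk fun _ => by omega
  have KZ := fun h0 => F.H.kz A' hc (by omega) h0
  rcases cls_behind F.H.hb A A2 hc hj with h0 | h0 | h0
  · rw [h0] at q ⊢
    exact (pm8a hk q r D KZ hx).mono hn
  · rw [h0] at q ⊢
    exact (pm8b hk q r D KZ hx).mono hn
  · rw [h0] at q ⊢
    exact (pm8c hk q r D KZ hx).mono hn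

/-- **A ring between a digit `1` and a larger class.** -/
theorem RFacts.pr1 (F : RFacts b zs) (A : Adj h i p j) (A2 : Adj h2 j p g)
    (A' : Adj h' i p.rev k) (hc : clsW b i = .ring) (hv : v.1 = i) (hj : clsW b j = .one)
    (hk : clsW b k ≠ .one) (he : isEnd i = false) :
    PrS (b i).natAbs (clsW b g) (clsW b k) (zs (.inl (.inl h))).re
      (1 / 2 + ofs (b i) (zs (.inr v)).re)
      (ofs (b i) (zs (.inl (.inl h))).im) (zs (.inr v)).im (zs (.inl (.inl h'))).re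
      (ofs (b i) (zs (.inl (.inl h'))).im) := by
  have h4 := ring_four F.H.hb (tyW_of_ring F.H.hb hc)
  rcases h4.eq_or_lt with h | h4
  · rw [← h]
    exact F.pr1_4 A A2 A' hc hv hj hk h.symm he
  rcases (Nat.succ_le_of_lt h4).eq_or_lt with h | h4
  · rw [← h]
    exact F.pr1_5 A A2 A' hc hv hj hk h.symm he
  rcases (Nat.succ_le_of_lt h4).eq_or_lt with h | h4
  · rw [← h]
    exact F.pr1_6 A A2 A' hc hv hj hk h.symm he
  rcases (Nat.succ_le_of_lt h4).eq_or_lt with h | h4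
  · rw [← h]
    exact F.pr1_7 A A2 A' hc hv hj hk h.symm
  exact F.pr1_8 A A2 A' hc hv hj hk h4

end SR

end Pool.Agent.Work.MP_b30479_gt.G2
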