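import Pool.Agent.Work.MP_b30479_gt.G2.RGm32
import Pool.Agent.Work.MP_b30479_gt.G2.RGn10
import Pool.Agent.Work.MP_b30479_gt.G2.RLvl9

/-!
# Rings on the level part: pairs of hinges
-/

namespace Pool.Agent.Work.MP_b30479_gt.G2

open Real Set

namespace RC

open R6

theorem en4a {xs ys T ρ : ℝ} (O : OneB xs ys T ρ) (I : e4a.In T ρ xs ys) :
    En xs ys T ρ (16 / 100) (36 / 100) (fun _ => 0) (fun _ => 0) :=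
  En.of (tab := [⟨2500, 2600, 0, 0, 0, 0, 0⟩, ⟨2600, 2700, 0, 0, 0, 0, 0⟩, ⟨2700, 5000, 0, 0, 0, 0, 0⟩])
    (tab' := [⟨2500, 2600, 250, 0, 0, 0, 0⟩, ⟨2600, 2700, 250, 0, 0, 0, 0⟩, ⟨2700, 5000, 0, 0, 0, 0, 0⟩])
    (O.LF I e4a_Wa e4a_Wb hf0)
    (I.dt O.GD (fun _ => O.HD) e4a_Dp2500_0_0_0 e4a_Dm2500_0_0_0 rfl hf0 hf0
      (I.dt O.GD (fun _ => O.HD) e4a_Dp2600_0_0_0 e4a_Dm2600_0_0_0 rfl hf0 hf0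
      (I.dt0 O.GD (fun _ => O.HD) e4a_Qp2700_0_0_0 e4a_Qm2700_0_0_0 rfl DT.nil A16 B36) A16 B36) A16 B36)
    (I.qt O.GD (fun _ => O.HD) e4a_Qp2500_250_0_0 e4a_Qm2500_250_0_0 rfl
      (I.qt O.GD (fun _ => O.HD) e4a_Qp2600_250_0_0 e4a_Qm2600_250_0_0 rfl
      (I.qt O.GD (fun _ => O.HD) e4a_Qp2700_0_0_0 e4a_Qm2700_0_0_0 rfl QT.nil A16 B36) A16 B36) A16 B36)
    (by decide) (by decide) (by decide) O.hys O.hxs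

theorem en4b1 {xs ys T ρ : ℝ} (O : OneB xs ys T ρ) (I : e4b1.In T ρ xs ys) :
    En xs ys T ρ (16 / 100) (36 / 100) (fun _ => 0) (fun _ => 0) :=
  En.of (tab := [⟨2500, 2600, 0, 0, 0, 0, 0⟩, ⟨2600, 2700, 0, 0, 0, 0, 0⟩, ⟨2700, 2800, 0, 0, 0, 0, 0⟩, ⟨2800, 5000, 0, 0, 0, 0, 0⟩])
    (tab' := [⟨2500, 2600, 250, 0, 0, 0, 0⟩, ⟨2600, 2700, 250, 0, 0, 0, 0⟩, ⟨2700, 2800, 250, 0, 0, 0, 0⟩, ⟨2800, 5000, 0, 0, 0, 0, 0⟩])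
    (O.LF I e4b1_Wa e4b1_Wb hf0)
    (I.dt O.GD (fun _ => O.HD) e4b1_Dp2500_0_0_0 e4b1_Dm2500_0_0_0 rfl hf0 hf0
      (I.dt O.GD (fun _ => O.HD) e4b1_Dp2600_0_0_0 e4b1_Dm2600_0_0_0 rfl hf0 hf0
      (I.dt O.GD (fun _ => O.HD) e4b1_Dp2700_0_0_0 e4b1_Dm2700_0_0_0 rfl hf0 hf0
      (I.dt0 O.GD (fun _ => O.HD) e4b1_Qp2800_0_0_0 e4b1_Qm2800_0_0_0 rfl DT.nil A16 B36) A16 B36) A16 B36) A16 B36)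
    (I.qt O.GD (fun _ => O.HD) e4b1_Qp2500_250_0_0 e4b1_Qm2500_250_0_0 rfl
      (I.qt O.GD (fun _ => O.HD) e4b1_Qp2600_250_0_0 e4b1_Qm2600_250_0_0 rfl
      (I.qt O.GD (fun _ => O.HD) e4b1_Qp2700_250_0_0 e4b1_Qm2700_250_0_0 rfl
      (I.qt O.GD (fun _ => O.HD) e4b1_Qp2800_0_0_0 e4b1_Qm2800_0_0_0 rfl QT.nil A16 B36) A16 B36) A16 B36) A16 B36)
    (by decide) (by decide) (by decide) O.hys O.hxs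

theorem en4b2 {xs ys T ρ : ℝ} (O : OneB xs ys T ρ) (I : e4b2.In T ρ xs ys) :
    En xs ys T ρ (16 / 100) (36 / 100) (fun _ => 0) (fun _ => 0) :=
  En.of (tab := [⟨2500, 2600, 0, 0, 0, 0, 0⟩, ⟨2600, 2700, 0, 0, 0, 0, 0⟩, ⟨2700, 2800, 0, 0, 0, 0, 0⟩, ⟨2800, 5000, 0, 0, 0, 0, 0⟩])
    (tab' := [⟨2500, 2600, 250, 0, 0, 0, 0⟩, ⟨2600, 2700, 250, 0, 0, 0, 0⟩, ⟨2700, 2800, 250, 0, 0, 0, 0⟩, ⟨2800, 5000, 0, 0, 0, 0, 0⟩])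
    (O.LF I e4b2_Wa e4b2_Wb hf0)
    (I.dt O.GD (fun _ => O.HD) e4b2_Dp2500_0_0_0 e4b2_Dm2500_0_0_0 rfl hf0 hf0
      (I.dt O.GD (fun _ => O.HD) e4b2_Dp2600_0_0_0 e4b2_Dm2600_0_0_0 rfl hf0 hf0
      (I.dt O.GD (fun _ => O.HD) e4b2_Dp2700_0_0_0 e4b2_Dm2700_0_0_0 rfl hf0 hf0
      (I.dt0 O.GD (fun _ => O.HD) e4b2_Qp2800_0_0_0 e4b2_Qm2800_0_0_0 rfl DT.nil A16 B36) A16 B36) A16 B36) A16 B36)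
    (I.qt O.GD (fun _ => O.HD) e4b2_Qp2500_250_0_0 e4b2_Qm2500_250_0_0 rfl
      (I.qt O.GD (fun _ => O.HD) e4b2_Qp2600_250_0_0 e4b2_Qm2600_250_0_0 rfl
      (I.qt O.GD (fun _ => O.HD) e4b2_Qp2700_250_0_0 e4b2_Qm2700_250_0_0 rfl
      (I.qt O.GD (fun _ => O.HD) e4b2_Qp2800_0_0_0 e4b2_Qm2800_0_0_0 rfl QT.nil A16 B36) A16 B36) A16 B36) A16 B36)
    (by decide) (by decide) (by decide) O.hys O.hxs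

theorem en4c {xs ys T ρ : ℝ} (O : OneB xs ys T ρ) (I : e4c.In T ρ xs ys) :
    En xs ys T ρ (16 / 100) (36 / 100) (fun _ => 0) (fun _ => 0) :=
  En.of (tab := [⟨2500, 5000, 0, 0, 0, 0, 0⟩])
    (tab' := [⟨2500, 5000, 0, 0, 0, 0, 0⟩])
    (O.LF I e4c_Wa e4c_Wb hf0)
    (I.dt0 O.GD (fun _ => O.HD) e4c_Qp2500_0_0_0 e4c_Qm2500_0_0_0 rfl DT.nil A16 B36)
    (I.qt O.GD (fun _ => O.HD) e4c_Qp2500_0_0_0 e4c_Qm2500_0_0_0 rfl QT.nil A16 B36)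
    (by decide) (by decide) (by decide) O.hys O.hxs

end RC

end Pool.Agent.Work.MP_b30479_gt.G2
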