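import Pool.Agent.Work.MP_b30479_gt.G2.RGm32
import Pool.Agent.Work.MP_b30479_gt.G2.RGm33
import Pool.Agent.Work.MP_b30479_gt.G2.RGm34
import Pool.Agent.Work.MP_b30479_gt.G2.RLvl8
import Pool.Agent.Work.MP_b30479_gt.G2.RLvl9

/-!
# Rings on the level part: pairs of hinges
-/

namespace Pool.Agent.Work.MP_b30479_gt.G2

open Real Set

namespace RC

open R6

theorem lf4a1 {xs ys T ρ : ℝ} (O : OneB xs ys T ρ) (I : o4a1.In T ρ xs ys) :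
    LF xs ys T ρ (16 / 100) (36 / 100) (fun _ => 0) (fun _ => 0) :=
  O.LF I o4a1_Wa o4a1_Wb hf0

theorem lf4c1 {xs ys T ρ : ℝ} (O : OneB xs ys T ρ) (I : o4c1.In T ρ xs ys) :
    LF xs ys T ρ (16 / 100) (36 / 100) (fun _ => 0) (fun _ => 0) :=
  O.LF I o4c1_Wa o4c1_Wb hf0

theorem lf4b1 {xs ys T ρ : ℝ} (O : OneB xs ys T ρ) (I : o4b1.In T ρ xs ys) :
    LF xs ys T ρ (16 / 100) (36 / 100) (fun m => 38 / 100 * m) (fun _ => 0) :=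
  O.LF I o4b1_Wa o4b1_Wb hf38

theorem lf4bb1 {xs ys T ρ : ℝ} (O : OneB xs ys T ρ) (I : o4bb1.In T ρ xs ys) :
    LF xs ys T ρ (16 / 100) (36 / 100) (fun m => 38 / 100 * m) (fun _ => 0) :=
  O.LF I o4bb1_Wa o4bb1_Wb hf38

def t4a : List Te := [⟨2500, 2600, 115, 65, 40, 120, 150⟩, ⟨2600, 2700, 160, 100, 0, 0, 0⟩, ⟨2700, 2800, 160, 120, 0, 0, 0⟩, ⟨2800, 2900, 0, 0, 0, 0, 0⟩, ⟨2900, 3000, 0, 0, 0, 0, 0⟩, ⟨3000, 5000, 0, 0, 0, 0, 0⟩]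

theorem qt4a {xs ys T ρ : ℝ} (O : OneB xs ys T ρ) (I : o4a1.In T ρ xs ys) :
    QT xs ys T ρ (16 / 100) (36 / 100) t4a :=
  (I.qe O.GD (fun _ => O.HD) o4a1_Qp2500_115_65_0 o4a1_Qm2500_115_65_0 o4a1_Ep2500_115_65_40 o4a1_Em2500_115_65_40 rfl
      (I.qt O.GD (fun _ => O.HD) o4a1_Qp2600_160_100_0 o4a1_Qm2600_160_100_0 rfl
      (I.qt O.GD (fun _ => O.HD) o4a1_Qp2700_160_120_0 o4a1_Qm2700_160_120_0 rfl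
      (I.qtz O.GD (fun _ => O.HD) o4a1_Qp2800_0_0_0 o4a1_Qm2800_0_0_0 (by decide) rfl
      (I.qtz O.GD (fun _ => O.HD) o4a1_Qp2800_0_0_0 o4a1_Qm2800_0_0_0 (by decide) rfl
      (I.qtz O.GD (fun _ => O.HD) o4a1_Qp2800_0_0_0 o4a1_Qm2800_0_0_0 (by decide) rfl
      QT.nil A16 B36) A16 B36) A16 B36) A16 B36) A16 B36) A16 B36)

theorem dt4a_a {xs ys T ρ : ℝ} (O : OneB xs ys T ρ) (I : o4a1.In T ρ xs ys) :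
    DT xs ys T ρ (16 / 100) (36 / 100) (fun _ => 0) (fun _ => 0) t4a :=
  (I.dtg O.GD (fun _ => O.HD) o4a1_Dp2500_115_65_0 o4a1_Dm2500_115_65_0 (Or.inl rfl) (Or.inl rfl) rfl hf0 hf0
      (I.dtg O.GD (fun _ => O.HD) o4a1_Dp2600_160_100_0 o4a1_Dm2600_160_100_0 (Or.inl rfl) (Or.inl rfl) rfl hf0 hf0
      (I.dtg O.GD (fun _ => O.HD) o4a1_Dp2700_160_120_0 o4a1_Dm2700_160_120_0 (Or.inl rfl) (Or.inl rfl) rfl hf0 hf0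
      (I.dtz O.GD (fun _ => O.HD) o4a1_Qp2800_0_0_0 o4a1_Qm2800_0_0_0 (by decide) rfl
      (I.dtz O.GD (fun _ => O.HD) o4a1_Qp2800_0_0_0 o4a1_Qm2800_0_0_0 (by decide) rfl
      (I.dtz O.GD (fun _ => O.HD) o4a1_Qp2800_0_0_0 o4a1_Qm2800_0_0_0 (by decide) rfl
      DT.nil A16 B36) A16 B36) A16 B36) A16 B36) A16 B36) A16 B36)

theorem dt4b_a {xs ys T ρ : ℝ} (O : OneB xs ys T ρ) (I : o4b1.In T ρ xs ys) :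
    DT xs ys T ρ (16 / 100) (36 / 100) (fun m => 38 / 100 * m) (fun _ => 0) t4a :=
  (I.dtg O.GD (fun _ => O.HD) o4b1_Dp2500_115_65_40 o4b1_Dm2500_115_65_0 (Or.inr ⟨rfl, rfl, rfl⟩) (Or.inl rfl) rfl hf38 hf0
      (I.dtg O.GD (fun _ => O.HD) o4b1_Dp2600_160_100_0 o4b1_Dm2600_160_100_0 (Or.inl rfl) (Or.inl rfl) rfl hf38 hf0
      (I.dtg O.GD (fun _ => O.HD) o4b1_Dp2700_160_120_0 o4b1_Dm2700_160_120_0 (Or.inl rfl) (Or.inl rfl) rfl hf38 hf0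
      (I.dt O.GD (fun _ => O.HD) o4b1_Dp2800_0_0_0 o4b1_Dm2800_0_0_0 rfl hf38 hf0
      (I.dt O.GD (fun _ => O.HD) o4b1_Dp2900_0_0_0 o4b1_Dm2900_0_0_0 rfl hf38 hf0
      (I.dtz O.GD (fun _ => O.HD) o4b1_Qp3000_0_0_0 o4b1_Qm3000_0_0_0 (by decide) rfl
      DT.nil A16 B36) A16 B36) A16 B36) A16 B36) A16 B36) A16 B36)

theorem dt4c_a {xs ys T ρ : ℝ} (O : OneB xs ys T ρ) (I : o4c1.In T ρ xs ys) :
    DT xs ys T ρ (16 / 100) (36 / 100) (fun _ => 0) (fun _ => 0) t4a :=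
  (I.dtg O.GD (fun _ => O.HD) o4c1_Dp2500_115_65_0 o4c1_Dm2500_115_65_0 (Or.inl rfl) (Or.inl rfl) rfl hf0 hf0
      (I.dtg O.GD (fun _ => O.HD) o4c1_Dp2600_160_100_0 o4c1_Dm2600_160_100_0 (Or.inl rfl) (Or.inl rfl) rfl hf0 hf0
      (I.dtg O.GD (fun _ => O.HD) o4c1_Dp2700_160_120_0 o4c1_Dm2700_160_120_0 (Or.inl rfl) (Or.inl rfl) rfl hf0 hf0
      (I.dtz O.GD (fun _ => O.HD) o4c1_Qp2700_0_0_0 o4c1_Qm2700_0_0_0 (by decide) rfl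
      (I.dtz O.GD (fun _ => O.HD) o4c1_Qp2700_0_0_0 o4c1_Qm2700_0_0_0 (by decide) rfl
      (I.dtz O.GD (fun _ => O.HD) o4c1_Qp2700_0_0_0 o4c1_Qm2700_0_0_0 (by decide) rfl
      DT.nil A16 B36) A16 B36) A16 B36) A16 B36) A16 B36) A16 B36)

def t4c : List Te := [⟨2500, 2600, 160, 180, 40, 120, 150⟩, ⟨2600, 2700, 160, 220, 0, 0, 0⟩, ⟨2700, 2800, 0, 0, 0, 0, 0⟩, ⟨2800, 2900, 0, 0, 0, 0, 0⟩, ⟨2900, 3000, 0, 0, 0, 0, 0⟩, ⟨3000, 5000, 0, 0, 0, 0, 0⟩]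

theorem qt4c {xs ys T ρ : ℝ} (O : OneB xs ys T ρ) (I : o4c1.In T ρ xs ys) :
    QT xs ys T ρ (16 / 100) (36 / 100) t4c :=
  (I.qe O.GD (fun _ => O.HD) o4c1_Qp2500_160_180_0 o4c1_Qm2500_160_180_0 o4c1_Ep2500_160_180_40 o4c1_Em2500_160_180_40 rfl
      (I.qt O.GD (fun _ => O.HD) o4c1_Qp2600_160_220_0 o4c1_Qm2600_160_220_0 rfl
      (I.qtz O.GD (fun _ => O.HD) o4c1_Qp2700_0_0_0 o4c1_Qm2700_0_0_0 (by decide) rfl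
      (I.qtz O.GD (fun _ => O.HD) o4c1_Qp2700_0_0_0 o4c1_Qm2700_0_0_0 (by decide) rfl
      (I.qtz O.GD (fun _ => O.HD) o4c1_Qp2700_0_0_0 o4c1_Qm2700_0_0_0 (by decide) rfl
      (I.qtz O.GD (fun _ => O.HD) o4c1_Qp2700_0_0_0 o4c1_Qm2700_0_0_0 (by decide) rfl
      QT.nil A16 B36) A16 B36) A16 B36) A16 B36) A16 B36) A16 B36)

theorem dt4a_c {xs ys T ρ : ℝ} (O : OneB xs ys T ρ) (I : o4a1.In T ρ xs ys) :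
    DT xs ys T ρ (16 / 100) (36 / 100) (fun _ => 0) (fun _ => 0) t4c :=
  (I.dtg O.GD (fun _ => O.HD) o4a1_Dp2500_160_180_0 o4a1_Dm2500_160_180_0 (Or.inl rfl) (Or.inl rfl) rfl hf0 hf0
      (I.dtg O.GD (fun _ => O.HD) o4a1_Dp2600_160_220_0 o4a1_Dm2600_160_220_0 (Or.inl rfl) (Or.inl rfl) rfl hf0 hf0
      (I.dt O.GD (fun _ => O.HD) o4a1_Dp2700_0_0_0 o4a1_Dm2700_0_0_0 rfl hf0 hf0
      (I.dtz O.GD (fun _ => O.HD) o4a1_Qp2800_0_0_0 o4a1_Qm2800_0_0_0 (by decide) rfl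
      (I.dtz O.GD (fun _ => O.HD) o4a1_Qp2800_0_0_0 o4a1_Qm2800_0_0_0 (by decide) rfl
      (I.dtz O.GD (fun _ => O.HD) o4a1_Qp2800_0_0_0 o4a1_Qm2800_0_0_0 (by decide) rfl
      DT.nil A16 B36) A16 B36) A16 B36) A16 B36) A16 B36) A16 B36)

theorem dt4b_c {xs ys T ρ : ℝ} (O : OneB xs ys T ρ) (I : o4b1.In T ρ xs ys) :
    DT xs ys T ρ (16 / 100) (36 / 100) (fun m => 38 / 100 * m) (fun _ => 0) t4c :=
  (I.dtg O.GD (fun _ => O.HD) o4b1_Dp2500_160_180_40 o4b1_Dm2500_160_180_0 (Or.inr ⟨rfl, rfl, rfl⟩) (Or.inl rfl) rfl hf38 hf0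
      (I.dtg O.GD (fun _ => O.HD) o4b1_Dp2600_160_220_0 o4b1_Dm2600_160_220_0 (Or.inl rfl) (Or.inl rfl) rfl hf38 hf0
      (I.dt O.GD (fun _ => O.HD) o4b1_Dp2700_0_0_0 o4b1_Dm2700_0_0_0 rfl hf38 hf0
      (I.dt O.GD (fun _ => O.HD) o4b1_Dp2800_0_0_0 o4b1_Dm2800_0_0_0 rfl hf38 hf0
      (I.dt O.GD (fun _ => O.HD) o4b1_Dp2900_0_0_0 o4b1_Dm2900_0_0_0 rfl hf38 hf0
      (I.dtz O.GD (fun _ => O.HD) o4b1_Qp3000_0_0_0 o4b1_Qm3000_0_0_0 (by decide) rfl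
      DT.nil A16 B36) A16 B36) A16 B36) A16 B36) A16 B36) A16 B36)

theorem dt4c_c {xs ys T ρ : ℝ} (O : OneB xs ys T ρ) (I : o4c1.In T ρ xs ys) :
    DT xs ys T ρ (16 / 100) (36 / 100) (fun _ => 0) (fun _ => 0) t4c :=
  (I.dtg O.GD (fun _ => O.HD) o4c1_Dp2500_160_180_0 o4c1_Dm2500_160_180_0 (Or.inl rfl) (Or.inl rfl) rfl hf0 hf0
      (I.dtg O.GD (fun _ => O.HD) o4c1_Dp2600_160_220_0 o4c1_Dm2600_160_220_0 (Or.inl rfl) (Or.inl rfl) rfl hf0 hf0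
      (I.dtz O.GD (fun _ => O.HD) o4c1_Qp2700_0_0_0 o4c1_Qm2700_0_0_0 (by decide) rfl
      (I.dtz O.GD (fun _ => O.HD) o4c1_Qp2700_0_0_0 o4c1_Qm2700_0_0_0 (by decide) rfl
      (I.dtz O.GD (fun _ => O.HD) o4c1_Qp2700_0_0_0 o4c1_Qm2700_0_0_0 (by decide) rfl
      (I.dtz O.GD (fun _ => O.HD) o4c1_Qp2700_0_0_0 o4c1_Qm2700_0_0_0 (by decide) rfl
      DT.nil A16 B36) A16 B36) A16 B36) A16 B36) A16 B36) A16 B36)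

def t4b : List Te := [⟨2500, 2600, 115, 30, 0, 0, 0⟩, ⟨2600, 2700, 115, 50, 0, 0, 0⟩, ⟨2700, 2800, 115, 65, 0, 0, 0⟩, ⟨2800, 2900, 100, 65, 0, 0, 0⟩, ⟨2900, 3000, 160, 100, 0, 0, 0⟩, ⟨3000, 5000, 0, 0, 0, 0, 0⟩]

theorem qt4b {xs ys T ρ : ℝ} (O : OneB xs ys T ρ) (I : o4b1.In T ρ xs ys) :
    QT xs ys T ρ (16 / 100) (36 / 100) t4b :=
  (I.qt O.GD (fun _ => O.HD) o4b1_Qp2500_115_30_0 o4b1_Qm2500_115_30_0 rfl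
      (I.qt O.GD (fun _ => O.HD) o4b1_Qp2600_115_50_0 o4b1_Qm2600_115_50_0 rfl
      (I.qt O.GD (fun _ => O.HD) o4b1_Qp2700_115_65_0 o4b1_Qm2700_115_65_0 rfl
      (I.qt O.GD (fun _ => O.HD) o4b1_Qp2800_100_65_0 o4b1_Qm2800_100_65_0 rfl
      (I.qt O.GD (fun _ => O.HD) o4b1_Qp2900_160_100_0 o4b1_Qm2900_160_100_0 rfl
      (I.qtz O.GD (fun _ => O.HD) o4b1_Qp3000_0_0_0 o4b1_Qm3000_0_0_0 (by decide) rfl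
      QT.nil A16 B36) A16 B36) A16 B36) A16 B36) A16 B36) A16 B36)

theorem dt4a_b {xs ys T ρ : ℝ} (O : OneB xs ys T ρ) (I : o4a1.In T ρ xs ys) :
    DT xs ys T ρ (16 / 100) (36 / 100) (fun _ => 0) (fun _ => 0) t4b :=
  (I.dtg O.GD (fun _ => O.HD) o4a1_Dp2500_115_30_0 o4a1_Dm2500_115_30_0 (Or.inl rfl) (Or.inl rfl) rfl hf0 hf0
      (I.dtg O.GD (fun _ => O.HD) o4a1_Dp2600_115_50_0 o4a1_Dm2600_115_50_0 (Or.inl rfl) (Or.inl rfl) rfl hf0 hf0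
      (I.dtg O.GD (fun _ => O.HD) o4a1_Dp2700_115_65_0 o4a1_Dm2700_115_65_0 (Or.inl rfl) (Or.inl rfl) rfl hf0 hf0
      (I.dtg O.GD (fun _ => O.HD) o4a1_Dp2800_100_65_0 o4a1_Dm2800_100_65_0 (Or.inl rfl) (Or.inl rfl) rfl hf0 hf0
      (I.dtg O.GD (fun _ => O.HD) o4a1_Dp2900_160_100_0 o4a1_Dm2900_160_100_0 (Or.inl rfl) (Or.inl rfl) rfl hf0 hf0
      (I.dtz O.GD (fun _ => O.HD) o4a1_Qp2800_0_0_0 o4a1_Qm2800_0_0_0 (by decide) rfl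
      DT.nil A16 B36) A16 B36) A16 B36) A16 B36) A16 B36) A16 B36)

theorem dt4c_b {xs ys T ρ : ℝ} (O : OneB xs ys T ρ) (I : o4c1.In T ρ xs ys) :
    DT xs ys T ρ (16 / 100) (36 / 100) (fun _ => 0) (fun _ => 0) t4b :=
  (I.dtg O.GD (fun _ => O.HD) o4c1_Dp2500_115_30_0 o4c1_Dm2500_115_30_0 (Or.inl rfl) (Or.inl rfl) rfl hf0 hf0
      (I.dtg O.GD (fun _ => O.HD) o4c1_Dp2600_115_50_0 o4c1_Dm2600_115_50_0 (Or.inl rfl) (Or.inl rfl) rfl hf0 hf0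
      (I.dtg O.GD (fun _ => O.HD) o4c1_Dp2700_115_65_0 o4c1_Dm2700_115_65_0 (Or.inl rfl) (Or.inl rfl) rfl hf0 hf0
      (I.dtg O.GD (fun _ => O.HD) o4c1_Dp2800_100_65_0 o4c1_Dm2800_100_65_0 (Or.inl rfl) (Or.inl rfl) rfl hf0 hf0
      (I.dtg O.GD (fun _ => O.HD) o4c1_Dp2900_160_100_0 o4c1_Dm2900_160_100_0 (Or.inl rfl) (Or.inl rfl) rfl hf0 hf0
      (I.dtz O.GD (fun _ => O.HD) o4c1_Qp2700_0_0_0 o4c1_Qm2700_0_0_0 (by decide) rfl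
      DT.nil A16 B36) A16 B36) A16 B36) A16 B36) A16 B36) A16 B36)

def t4bb : List Te := [⟨2500, 2600, 130, 65, 0, 0, 0⟩, ⟨2600, 2700, 100, 50, 0, 0, 0⟩, ⟨2700, 2800, 160, 80, 0, 0, 0⟩, ⟨2800, 2900, 130, 80, 0, 0, 0⟩, ⟨2900, 3000, 115, 120, 0, 0, 0⟩, ⟨3000, 5000, 0, 0, 0, 0, 0⟩]

theorem qt4bb {xs ys T ρ : ℝ} (O : OneB xs ys T ρ) (I : o4bb1.In T ρ xs ys) :
    QT xs ys T ρ (16 / 100) (36 / 100) t4bb :=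
  (I.qt O.GD (fun _ => O.HD) o4bb1_Qp2500_130_65_0 o4bb1_Qm2500_130_65_0 rfl
      (I.qt O.GD (fun _ => O.HD) o4bb1_Qp2600_100_50_0 o4bb1_Qm2600_100_50_0 rfl
      (I.qt O.GD (fun _ => O.HD) o4bb1_Qp2700_160_80_0 o4bb1_Qm2700_160_80_0 rfl
      (I.qt O.GD (fun _ => O.HD) o4bb1_Qp2800_130_80_0 o4bb1_Qm2800_130_80_0 rfl
      (I.qt O.GD (fun _ => O.HD) o4bb1_Qp2900_115_120_0 o4bb1_Qm2900_115_120_0 rfl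
      (I.qtz O.GD (fun _ => O.HD) o4bb1_Qp3000_0_0_0 o4bb1_Qm3000_0_0_0 (by decide) rfl
      QT.nil A16 B36) A16 B36) A16 B36) A16 B36) A16 B36) A16 B36)

theorem dt4bb_bb {xs ys T ρ : ℝ} (O : OneB xs ys T ρ) (I : o4bb1.In T ρ xs ys) :
    DT xs ys T ρ (16 / 100) (36 / 100) (fun m => 38 / 100 * m) (fun _ => 0) t4bb :=
  (I.dtg O.GD (fun _ => O.HD) o4bb1_Dp2500_130_65_0 o4bb1_Dm2500_130_65_0 (Or.inl rfl) (Or.inl rfl) rfl hf38 hf0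
      (I.dtg O.GD (fun _ => O.HD) o4bb1_Dp2600_100_50_0 o4bb1_Dm2600_100_50_0 (Or.inl rfl) (Or.inl rfl) rfl hf38 hf0
      (I.dtg O.GD (fun _ => O.HD) o4bb1_Dp2700_160_80_0 o4bb1_Dm2700_160_80_0 (Or.inl rfl) (Or.inl rfl) rfl hf38 hf0
      (I.dtg O.GD (fun _ => O.HD) o4bb1_Dp2800_130_80_0 o4bb1_Dm2800_130_80_0 (Or.inl rfl) (Or.inl rfl) rfl hf38 hf0
      (I.dtg O.GD (fun _ => O.HD) o4bb1_Dp2900_115_120_0 o4bb1_Dm2900_115_120_0 (Or.inl rfl) (Or.inl rfl) rfl hf38 hf0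
      (I.dtz O.GD (fun _ => O.HD) o4bb1_Qp3000_0_0_0 o4bb1_Qm3000_0_0_0 (by decide) rfl
      DT.nil A16 B36) A16 B36) A16 B36) A16 B36) A16 B36) A16 B36)

end RC

end Pool.Agent.Work.MP_b30479_gt.G2
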