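import Pool.Agent.Work.MP_b30479_gt.G2.RLvlB
import Pool.Agent.Work.MP_b30479_gt.G2.WLocW
import Pool.Agent.Work.MP_b30479_gt.G2.RGo4
import Pool.Agent.Work.MP_b30479_gt.G2.RGe4
import Pool.Agent.Work.MP_b30479_gt.G2.RLvlA
import Pool.Agent.Work.MP_b30479_gt.G2.WLocV

/-!
# Rings on the level part: rings between two digits `1`, rings at an end
-/

namespace Pool.Agent.Work.MP_b30479_gt.G2

open Finset VOL Filter Topology

namespace SR

/-- the tables of bounds -/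
def t4 : Cl → List RC.Te
  | .one => RC.t4a
  | .two => RC.t4b
  | _ => RC.t4c

theorem t4_cov (C : Cl) : RC.cov 2500 (t4 C) = true := by
  cases C <;> decide

theorem ok4a {xs ys T ρ : ℝ} {s : Bool} (q : (rq4 .one .one s).Re xs ys T ρ) :
    ∃ f, FS 4 .one xs T f ∧ OKt t4 (fun _ => True) .one xs ys T ρ f := by
  have q0 : (mk4 2259 2750 1567 1820 1018 1594 403 683 (-1017) (-473) 4464 4061).Re xs ys T ρ := q
  have O := q0.oneB RC.Row.cH4a (by decide)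
  have I : RC.o4a1.In T ρ xs ys := wd4_in q0 (by decide)
  refine ⟨_, Or.inl rfl, RC.lf4a1 O I, RC.qt4a O I, fun C' hC => ?_, O.hys, O.hxs⟩
  cases C'
  · exact RC.dt4a_a O I
  · exact RC.dt4a_b O I
  all_goals exact RC.dt4a_c O I

theorem ok4b {xs ys T ρ : ℝ} {s : Bool} (q : (rq4 .two .one s).Re xs ys T ρ) (B : Bd4 .one s xs ys T ρ) :
    ∃ f, FS 4 .two xs T f ∧ OKt t4 (fun C => C ≠ .two) .two xs ys T ρ f := by
  have q0 : (mk4 2602 2945 1545 1766 1262 1617 390 634 (-1088) (-753) 4618 4228).Re xs ys T ρ := q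
  have O := q0.oneB RC.Row.cH4b (by decide)
  have I : RC.o4b1.In T ρ xs ys := wdk_in q0 (by decide) (k := 1530) (by
    have := B.kp
    simp only [ka4] at this
    push_cast at this ⊢
    linarith)
  refine ⟨_, Or.inr ⟨rfl, q0.xlo (by decide), Or.inl ⟨rfl, q0.tlo4 (by decide), rfl⟩⟩, RC.lf4b1 O I, RC.qt4b O I, fun C' hC => ?_, O.hys, O.hxs⟩
  cases C'
  · exact RC.dt4b_a O I
  · exact absurd rfl hC
  all_goals exact RC.dt4b_c O I

theorem ok4c {xs ys T ρ : ℝ} {s : Bool} (q : (rq4 .twoE .one s).Re xs ys T ρ) :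
    ∃ f, FS 4 .twoE xs T f ∧ OKt t4 (fun _ => True) .twoE xs ys T ρ f := by
  have q0 : (mk4 2452 2610 1585 1791 1569 1794 361 578 (-1284) (-1126) 4336 3975).Re xs ys T ρ := q
  have O := q0.oneB RC.Row.cH4c (by decide)
  have I : RC.o4c1.In T ρ xs ys := wd4_in q0 (by decide)
  refine ⟨_, Or.inl rfl, RC.lf4c1 O I, RC.qt4c O I, fun C' hC => ?_, O.hys, O.hxs⟩
  cases C'
  · exact RC.dt4c_a O I
  · exact RC.dt4c_b O I
  all_goals exact RC.dt4c_c O I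

theorem bb4 {xs ys T ρ xs' T' : ℝ} (q : rw4.Re xs ys T ρ) (q' : rw4.Re xs' ys T' ρ) :
    PrO 4 .two .two xs ys T ρ xs' T' := by
  have q0 : (mk4 2640 2905 1570 1685 1320 1585 450 560 (-1070) (-815) 4535 4085).Re xs ys T ρ := q
  have q1 : (mk4 2640 2905 1570 1685 1320 1585 450 560 (-1070) (-815) 4535 4085).Re xs' ys T' ρ := q'
  have O := q0.oneB RC.Row.cH4b (by decide)
  have O' := q1.oneB RC.Row.cH4b (by decide)
  have I : RC.o4bb1.In T ρ xs ys := wd4_in q0 (by decide)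
  have I' : RC.o4bb1.In T' ρ xs' ys := wd4_in q1 (by decide)
  exact ⟨_, _, Or.inr ⟨rfl, q0.xlo (by decide), Or.inl ⟨rfl, q0.tlo4 (by decide), rfl⟩⟩,
    Or.inr ⟨rfl, q1.xlo (by decide), Or.inl ⟨rfl, q1.tlo4 (by decide), rfl⟩⟩,
    RC.Pr.of (RC.lf4bb1 O I) (RC.lf4bb1 O' I') (RC.dt4bb_bb O I) (RC.qt4bb O' I')
      (RC.dt4bb_bb O' I') (RC.qt4bb O I) (by decide) (by decide) O.hys O.hxs O'.hxs⟩

theorem po4 {xs ys T ρ xs' T' : ℝ} {C C' : Cl} {s : Bool} {s' : Bool} 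
    (hC : C = .one ∨ C = .two ∨ C = .twoE) (hC' : C' = .one ∨ C' = .two ∨ C' = .twoE)
    (q : (rq4 C .one s).Re xs ys T ρ)
    (q' : (rq4 C' .one s').Re xs' ys T' ρ) (B : C = .two → Bd4 .one s xs ys T ρ)
    (B' : C' = .two → Bd4 .one s' xs' ys T' ρ)
    (bb : C = .two → C' = .two → rw4.Re xs ys T ρ ∧ rw4.Re xs' ys T' ρ) :
    PrO 4 C C' xs ys T ρ xs' T' := by
  rcases hC with rfl | rfl | rfl <;> rcases hC' with rfl | rfl | rfl
  · obtain ⟨f, hf, k⟩ := ok4a q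
    obtain ⟨f', hf', k'⟩ := ok4a q'
    exact ⟨f, f', hf, hf', k.pr k' trivial trivial t4_cov⟩
  · obtain ⟨f, hf, k⟩ := ok4a q
    obtain ⟨f', hf', k'⟩ := ok4b q' (B' rfl)
    exact ⟨f, f', hf, hf', k.pr k' trivial (by decide) t4_cov⟩
  · obtain ⟨f, hf, k⟩ := ok4a q
    obtain ⟨f', hf', k'⟩ := ok4c q'
    exact ⟨f, f', hf, hf', k.pr k' trivial trivial t4_cov⟩
  · obtain ⟨f, hf, k⟩ := ok4b q (B rfl)
    obtain ⟨f', hf', k'⟩ := ok4a q'
    exact ⟨f, f', hf, hf', k.pr k' (by decide) trivial t4_cov⟩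
  · obtain ⟨u, u'⟩ := bb rfl rfl
    exact bb4 u u'
  · obtain ⟨f, hf, k⟩ := ok4b q (B rfl)
    obtain ⟨f', hf', k'⟩ := ok4c q'
    exact ⟨f, f', hf, hf', k.pr k' (by decide) trivial t4_cov⟩
  · obtain ⟨f, hf, k⟩ := ok4c q
    obtain ⟨f', hf', k'⟩ := ok4a q'
    exact ⟨f, f', hf, hf', k.pr k' trivial trivial t4_cov⟩
  · obtain ⟨f, hf, k⟩ := ok4c q
    obtain ⟨f', hf', k'⟩ := ok4b q' (B' rfl)
    exact ⟨f, f', hf, hf', k.pr k' trivial (by decide) t4_cov⟩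
  · obtain ⟨f, hf, k⟩ := ok4c q
    obtain ⟨f', hf', k'⟩ := ok4c q'
    exact ⟨f, f', hf, hf', k.pr k' trivial trivial t4_cov⟩

theorem em4a {xs ys T ρ : ℝ} (q : (re4 .one).Re xs ys T ρ) : EnS 4 .one xs ys T ρ := by
  have q0 : (mk4 2163 2605 1974 2179 820 1201 298 495 (-864) (-385) 4638 4340).Re xs ys T ρ := q
  have O := q0.oneB RC.Row.cH4ea (by decide)
  have I : RC.e4a.In T ρ xs ys := wd4_in q0 (by decide)
  exact ⟨_, Or.inl rfl, RC.en4a O I⟩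

theorem em4b {xs ys T ρ : ℝ} (q : (mk4 2500 2726 1965 2065 1059 1269 293 449 (-927) (-642) 4721 4485).Re xs ys T ρ ∨
    (mk4 2595 2751 1967 2034 1125 1232 293 449 (-927) (-642) 4738 4485).Re xs ys T ρ) : EnS 4 .two xs ys T ρ := by
  rcases q with q0 | q0
  · have O := q0.oneB RC.Row.cH4eb (by decide)
    have I : RC.e4b1.In T ρ xs ys := wd4_in q0 (by decide)
    exact ⟨_, Or.inl rfl, RC.en4b1 O I⟩
  · have O := q0.oneB RC.Row.cH4eb (by decide)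
    have I : RC.e4b2.In T ρ xs ys := wd4_in q0 (by decide)
    exact ⟨_, Or.inl rfl, RC.en4b2 O I⟩

theorem em4c {xs ys T ρ : ℝ} (q : (re4 .twoE).Re xs ys T ρ) : EnS 4 .twoE xs ys T ρ := by
  have q0 : (mk4 2352 2472 1985 2105 1313 1433 244 364 (-1129) (-1009) 4517 4273).Re xs ys T ρ := q
  have O := q0.oneB RC.Row.cH4ec (by decide)
  have I : RC.e4c.In T ρ xs ys := wd4_in q0 (by decide)
  exact ⟨_, Or.inl rfl, RC.en4c O I⟩

theorem pe4 {xs ys T ρ : ℝ} {C : Cl} (hC : C = .one ∨ C = .two ∨ C = .twoE)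
    (q : (re4 C).Re xs ys T ρ) (W : C = .two →
      (mk4 2500 2726 1965 2065 1059 1269 293 449 (-927) (-642) 4721 4485).Re xs ys T ρ ∨
      (mk4 2595 2751 1967 2034 1125 1232 293 449 (-927) (-642) 4738 4485).Re xs ys T ρ) :
    EnS 4 C xs ys T ρ := by
  rcases hC with rfl | rfl | rfl
  · exact em4a q
  · exact em4b (W rfl)
  · exact em4c q

end SR

end Pool.Agent.Work.MP_b30479_gt.G2
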