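import Pool.Agent.Work.MP_b30479_gt.G2.RGm32
import Pool.Agent.Work.MP_b30479_gt.G2.RGn10
import Pool.Agent.Work.MP_b30479_gt.G2.RLvl9

/-!
# Rings on the level part: pairs of hinges
-/

namespace Pool.Agent.Work.MP_b30479_gt.G2

open Real Set

namespace RC

open R6

theorem en5a {xs ys T ρ : ℝ} (O : OneB xs ys T ρ) (I : e5a.In T ρ xs ys) :
    En xs ys T ρ (16 / 100) (36 / 100) (fun _ => 0) (fun _ => 0) :=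
  En.of (tab := [⟨2500, 2600, 0, 0, 0, 0, 0⟩, ⟨2600, 2700, 0, 0, 0, 0, 0⟩, ⟨2700, 5000, 0, 0, 0, 0, 0⟩])
    (tab' := [⟨2500, 2600, 250, 0, 0, 0, 0⟩, ⟨2600, 2700, 250, 0, 0, 0, 0⟩, ⟨2700, 5000, 0, 0, 0, 0, 0⟩])
    (O.LF I e5a_Wa e5a_Wb hf0)
    (I.dt O.GD (fun _ => O.HD) e5a_Dp2500_0_0_0 e5a_Dm2500_0_0_0 rfl hf0 hf0
      (I.dt O.GD (fun _ => O.HD) e5a_Dp2600_0_0_0 e5a_Dm2600_0_0_0 rfl hf0 hf0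
      (I.dt0 O.GD (fun _ => O.HD) e5a_Qp2700_0_0_0 e5a_Qm2700_0_0_0 rfl DT.nil A16 B36) A16 B36) A16 B36)
    (I.qt O.GD (fun _ => O.HD) e5a_Qp2500_250_0_0 e5a_Qm2500_250_0_0 rfl
      (I.qt O.GD (fun _ => O.HD) e5a_Qp2600_250_0_0 e5a_Qm2600_250_0_0 rfl
      (I.qt O.GD (fun _ => O.HD) e5a_Qp2700_0_0_0 e5a_Qm2700_0_0_0 rfl QT.nil A16 B36) A16 B36) A16 B36)
    (by decide) (by decide) (by decide) O.hys O.hxs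

theorem en5b {xs ys T ρ : ℝ} (O : OneB xs ys T ρ) (I : e5b.In T ρ xs ys) :
    En xs ys T ρ (16 / 100) (36 / 100) (fun m => 355 / 1000 * m) (fun _ => 0) :=
  En.of (tab := [⟨2500, 2600, 0, 0, 0, 0, 0⟩, ⟨2600, 2700, 0, 0, 0, 0, 0⟩, ⟨2700, 2800, 0, 0, 0, 0, 0⟩, ⟨2800, 2900, 0, 0, 0, 0, 0⟩, ⟨2900, 5000, 0, 0, 0, 0, 0⟩])
    (tab' := [⟨2500, 2600, 250, 0, 0, 0, 0⟩, ⟨2600, 2700, 250, 0, 0, 0, 0⟩, ⟨2700, 2800, 250, 0, 0, 0, 0⟩, ⟨2800, 2900, 250, 0, 0, 0, 0⟩, ⟨2900, 5000, 0, 0, 0, 0, 0⟩])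
    (O.LF I e5b_Wa e5b_Wb hf355)
    (I.dt O.GD (fun _ => O.HD) e5b_Dp2500_0_0_0 e5b_Dm2500_0_0_0 rfl hf355 hf0
      (I.dt O.GD (fun _ => O.HD) e5b_Dp2600_0_0_0 e5b_Dm2600_0_0_0 rfl hf355 hf0
      (I.dt O.GD (fun _ => O.HD) e5b_Dp2700_0_0_0 e5b_Dm2700_0_0_0 rfl hf355 hf0
      (I.dt O.GD (fun _ => O.HD) e5b_Dp2800_0_0_0 e5b_Dm2800_0_0_0 rfl hf355 hf0
      (I.dt0 O.GD (fun _ => O.HD) e5b_Qp2900_0_0_0 e5b_Qm2900_0_0_0 rfl DT.nil A16 B36) A16 B36) A16 B36) A16 B36) A16 B36)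
    (I.qt O.GD (fun _ => O.HD) e5b_Qp2500_250_0_0 e5b_Qm2500_250_0_0 rfl
      (I.qt O.GD (fun _ => O.HD) e5b_Qp2600_250_0_0 e5b_Qm2600_250_0_0 rfl
      (I.qt O.GD (fun _ => O.HD) e5b_Qp2700_250_0_0 e5b_Qm2700_250_0_0 rfl
      (I.qt O.GD (fun _ => O.HD) e5b_Qp2800_250_0_0 e5b_Qm2800_250_0_0 rfl
      (I.qt O.GD (fun _ => O.HD) e5b_Qp2900_0_0_0 e5b_Qm2900_0_0_0 rfl QT.nil A16 B36) A16 B36) A16 B36) A16 B36) A16 B36)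
    (by decide) (by decide) (by decide) O.hys O.hxs

theorem en5bx {xs ys T ρ : ℝ} (O : OneB xs ys T ρ) (I : e5b.In T ρ xs ys)
    (Is : e5bx.In T ρ xs ys) :
    En xs ys T ρ (16 / 100) (36 / 100) (fun _ => 0) (fun _ => 0) :=
  En.of (tab := [⟨2500, 2600, 0, 0, 0, 0, 0⟩, ⟨2600, 2700, 0, 0, 0, 0, 0⟩, ⟨2700, 2800, 0, 0, 0, 0, 0⟩, ⟨2800, 2900, 0, 0, 0, 0, 0⟩, ⟨2900, 5000, 0, 0, 0, 0, 0⟩])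
    (tab' := [⟨2500, 2600, 250, 0, 0, 0, 0⟩, ⟨2600, 2700, 250, 0, 0, 0, 0⟩, ⟨2700, 2800, 250, 0, 0, 0, 0⟩, ⟨2800, 2900, 250, 0, 0, 0, 0⟩, ⟨2900, 5000, 0, 0, 0, 0, 0⟩])
    (O.LF Is e5bx_Wa e5bx_Wb hf0)
    (Is.dt O.GD (fun _ => O.HD) e5bx_Dp2500_0_0_0 e5bx_Dm2500_0_0_0 rfl hf0 hf0
      (Is.dt O.GD (fun _ => O.HD) e5bx_Dp2600_0_0_0 e5bx_Dm2600_0_0_0 rfl hf0 hf0
      (Is.dt O.GD (fun _ => O.HD) e5bx_Dp2700_0_0_0 e5bx_Dm2700_0_0_0 rfl hf0 hf0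
      (Is.dt O.GD (fun _ => O.HD) e5bx_Dp2800_0_0_0 e5bx_Dm2800_0_0_0 rfl hf0 hf0
      (I.dt0 O.GD (fun _ => O.HD) e5b_Qp2900_0_0_0 e5b_Qm2900_0_0_0 rfl DT.nil A16 B36) A16 B36) A16 B36) A16 B36) A16 B36)
    (I.qt O.GD (fun _ => O.HD) e5b_Qp2500_250_0_0 e5b_Qm2500_250_0_0 rfl
      (I.qt O.GD (fun _ => O.HD) e5b_Qp2600_250_0_0 e5b_Qm2600_250_0_0 rfl
      (I.qt O.GD (fun _ => O.HD) e5b_Qp2700_250_0_0 e5b_Qm2700_250_0_0 rfl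
      (I.qt O.GD (fun _ => O.HD) e5b_Qp2800_250_0_0 e5b_Qm2800_250_0_0 rfl
      (I.qt O.GD (fun _ => O.HD) e5b_Qp2900_0_0_0 e5b_Qm2900_0_0_0 rfl QT.nil A16 B36) A16 B36) A16 B36) A16 B36) A16 B36)
    (by decide) (by decide) (by decide) O.hys O.hxs

theorem en5c {xs ys T ρ : ℝ} (O : OneB xs ys T ρ) (I : e5c.In T ρ xs ys) :
    En xs ys T ρ (16 / 100) (36 / 100) (fun _ => 0) (fun _ => 0) :=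
  En.of (tab := [⟨2500, 2600, 0, 0, 0, 0, 0⟩, ⟨2600, 5000, 0, 0, 0, 0, 0⟩])
    (tab' := [⟨2500, 2600, 160, 0, 0, 0, 0⟩, ⟨2600, 5000, 0, 0, 0, 0, 0⟩])
    (O.LF I e5c_Wa e5c_Wb hf0)
    (I.dt O.GD (fun _ => O.HD) e5c_Dp2500_0_0_0 e5c_Dm2500_0_0_0 rfl hf0 hf0
      (I.dt0 O.GD (fun _ => O.HD) e5c_Qp2600_0_0_0 e5c_Qm2600_0_0_0 rfl DT.nil A16 B36) A16 B36)
    (I.qt O.GD (fun _ => O.HD) e5c_Qp2500_160_0_0 e5c_Qm2500_160_0_0 rfl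
      (I.qt O.GD (fun _ => O.HD) e5c_Qp2600_0_0_0 e5c_Qm2600_0_0_0 rfl QT.nil A16 B36) A16 B36)
    (by decide) (by decide) (by decide) O.hys O.hxs

end RC

end Pool.Agent.Work.MP_b30479_gt.G2
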