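import Pool.Agent.Work.MP_b30479_gt.G2.RGm34
import Pool.Agent.Work.MP_b30479_gt.G2.RGm35
import Pool.Agent.Work.MP_b30479_gt.G2.RGn11
import Pool.Agent.Work.MP_b30479_gt.G2.RLvl9

/-!
# Rings on the level part: pairs of hinges
-/

namespace Pool.Agent.Work.MP_b30479_gt.G2

open Real Set

namespace RC

open R6

theorem lf5a1 {xs ys T ρ : ℝ} (O : OneB xs ys T ρ) (I : o5a1.In T ρ xs ys) :
    LF xs ys T ρ (16 / 100) (36 / 100) (fun _ => 0) (fun _ => 0) :=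
  O.LF I o5a1_Wa o5a1_Wb hf0

theorem lf5c1 {xs ys T ρ : ℝ} (O : OneB xs ys T ρ) (I : o5c1.In T ρ xs ys) :
    LF xs ys T ρ (16 / 100) (36 / 100) (fun _ => 0) (fun _ => 0) :=
  O.LF I o5c1_Wa o5c1_Wb hf0

theorem lf5b1 {xs ys T ρ : ℝ} (O : OneB xs ys T ρ) (I : o5b1.In T ρ xs ys) :
    LF xs ys T ρ (16 / 100) (36 / 100) (fun m => 355 / 1000 * m) (fun _ => 0) :=
  O.LF I o5b1_Wa o5b1_Wb hf355

theorem lf5bb1 {xs ys T ρ : ℝ} (O : OneB xs ys T ρ) (I : o5bb1.In T ρ xs ys) :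
    LF xs ys T ρ (16 / 100) (36 / 100) (fun m => 355 / 1000 * m) (fun _ => 0) :=
  O.LF I o5bb1_Wa o5bb1_Wb hf355

def t5a : List Te := [⟨2500, 2600, 160, 150, 0, 0, 0⟩, ⟨2600, 2700, 160, 150, 0, 0, 0⟩, ⟨2700, 2800, 160, 180, 0, 0, 0⟩, ⟨2800, 2900, 0, 0, 0, 0, 0⟩, ⟨2900, 3000, 0, 0, 0, 0, 0⟩, ⟨3000, 5000, 0, 0, 0, 0, 0⟩]

theorem qt5a {xs ys T ρ : ℝ} (O : OneB xs ys T ρ) (I : o5a1.In T ρ xs ys) :
    QT xs ys T ρ (16 / 100) (36 / 100) t5a :=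
  (I.qt O.GD (fun _ => O.HD) o5a1_Qp2500_160_150_0 o5a1_Qm2500_160_150_0 rfl
      (I.qt O.GD (fun _ => O.HD) o5a1_Qp2600_160_150_0 o5a1_Qm2600_160_150_0 rfl
      (I.qt O.GD (fun _ => O.HD) o5a1_Qp2700_160_180_0 o5a1_Qm2700_160_180_0 rfl
      (I.qtz O.GD (fun _ => O.HD) o5a1_Qp2800_0_0_0 o5a1_Qm2800_0_0_0 (by decide) rfl
      (I.qtz O.GD (fun _ => O.HD) o5a1_Qp2800_0_0_0 o5a1_Qm2800_0_0_0 (by decide) rfl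
      (I.qtz O.GD (fun _ => O.HD) o5a1_Qp2800_0_0_0 o5a1_Qm2800_0_0_0 (by decide) rfl
      QT.nil A16 B36) A16 B36) A16 B36) A16 B36) A16 B36) A16 B36)

theorem dt5a_a {xs ys T ρ : ℝ} (O : OneB xs ys T ρ) (I : o5a1.In T ρ xs ys) :
    DT xs ys T ρ (16 / 100) (36 / 100) (fun _ => 0) (fun _ => 0) t5a :=
  (I.dtg O.GD (fun _ => O.HD) o5a1_Dp2500_160_150_0 o5a1_Dm2500_160_150_0 (Or.inl rfl) (Or.inl rfl) rfl hf0 hf0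
      (I.dtg O.GD (fun _ => O.HD) o5a1_Dp2600_160_150_0 o5a1_Dm2600_160_150_0 (Or.inl rfl) (Or.inl rfl) rfl hf0 hf0
      (I.dtg O.GD (fun _ => O.HD) o5a1_Dp2700_160_180_0 o5a1_Dm2700_160_180_0 (Or.inl rfl) (Or.inl rfl) rfl hf0 hf0
      (I.dtz O.GD (fun _ => O.HD) o5a1_Qp2800_0_0_0 o5a1_Qm2800_0_0_0 (by decide) rfl
      (I.dtz O.GD (fun _ => O.HD) o5a1_Qp2800_0_0_0 o5a1_Qm2800_0_0_0 (by decide) rfl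
      (I.dtz O.GD (fun _ => O.HD) o5a1_Qp2800_0_0_0 o5a1_Qm2800_0_0_0 (by decide) rfl
      DT.nil A16 B36) A16 B36) A16 B36) A16 B36) A16 B36) A16 B36)

theorem dt5b_a {xs ys T ρ : ℝ} (O : OneB xs ys T ρ) (I : o5b1.In T ρ xs ys) :
    DT xs ys T ρ (16 / 100) (36 / 100) (fun m => 355 / 1000 * m) (fun _ => 0) t5a :=
  (I.dtg O.GD (fun _ => O.HD) o5b1_Dp2500_160_150_0 o5b1_Dm2500_160_150_0 (Or.inl rfl) (Or.inl rfl) rfl hf355 hf0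
      (I.dtg O.GD (fun _ => O.HD) o5b1_Dp2600_160_150_0 o5b1_Dm2600_160_150_0 (Or.inl rfl) (Or.inl rfl) rfl hf355 hf0
      (I.dtg O.GD (fun _ => O.HD) o5b1_Dp2700_160_180_0 o5b1_Dm2700_160_180_0 (Or.inl rfl) (Or.inl rfl) rfl hf355 hf0
      (I.dt O.GD (fun _ => O.HD) o5b1_Dp2800_0_0_0 o5b1_Dm2800_0_0_0 rfl hf355 hf0
      (I.dt O.GD (fun _ => O.HD) o5b1_Dp2900_0_0_0 o5b1_Dm2900_0_0_0 rfl hf355 hf0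
      (I.dtz O.GD (fun _ => O.HD) o5b1_Qp3000_0_0_0 o5b1_Qm3000_0_0_0 (by decide) rfl
      DT.nil A16 B36) A16 B36) A16 B36) A16 B36) A16 B36) A16 B36)

theorem dt5c_a {xs ys T ρ : ℝ} (O : OneB xs ys T ρ) (I : o5c1.In T ρ xs ys) :
    DT xs ys T ρ (16 / 100) (36 / 100) (fun _ => 0) (fun _ => 0) t5a :=
  (I.dtg O.GD (fun _ => O.HD) o5c1_Dp2500_160_150_0 o5c1_Dm2500_160_150_0 (Or.inl rfl) (Or.inl rfl) rfl hf0 hf0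
      (I.dtg O.GD (fun _ => O.HD) o5c1_Dp2600_160_150_0 o5c1_Dm2600_160_150_0 (Or.inl rfl) (Or.inl rfl) rfl hf0 hf0
      (I.dtg O.GD (fun _ => O.HD) o5c1_Dp2700_160_180_0 o5c1_Dm2700_160_180_0 (Or.inl rfl) (Or.inl rfl) rfl hf0 hf0
      (I.dtz O.GD (fun _ => O.HD) o5c1_Qp2700_0_0_0 o5c1_Qm2700_0_0_0 (by decide) rfl
      (I.dtz O.GD (fun _ => O.HD) o5c1_Qp2700_0_0_0 o5c1_Qm2700_0_0_0 (by decide) rfl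
      (I.dtz O.GD (fun _ => O.HD) o5c1_Qp2700_0_0_0 o5c1_Qm2700_0_0_0 (by decide) rfl
      DT.nil A16 B36) A16 B36) A16 B36) A16 B36) A16 B36) A16 B36)

def t5c : List Te := [⟨2500, 2600, 160, 260, 0, 0, 0⟩, ⟨2600, 2700, 160, 260, 0, 0, 0⟩, ⟨2700, 2800, 0, 0, 0, 0, 0⟩, ⟨2800, 2900, 0, 0, 0, 0, 0⟩, ⟨2900, 3000, 0, 0, 0, 0, 0⟩, ⟨3000, 5000, 0, 0, 0, 0, 0⟩]

theorem qt5c {xs ys T ρ : ℝ} (O : OneB xs ys T ρ) (I : o5c1.In T ρ xs ys) :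
    QT xs ys T ρ (16 / 100) (36 / 100) t5c :=
  (I.qt O.GD (fun _ => O.HD) o5c1_Qp2500_160_260_0 o5c1_Qm2500_160_260_0 rfl
      (I.qt O.GD (fun _ => O.HD) o5c1_Qp2600_160_260_0 o5c1_Qm2600_160_260_0 rfl
      (I.qtz O.GD (fun _ => O.HD) o5c1_Qp2700_0_0_0 o5c1_Qm2700_0_0_0 (by decide) rfl
      (I.qtz O.GD (fun _ => O.HD) o5c1_Qp2700_0_0_0 o5c1_Qm2700_0_0_0 (by decide) rfl
      (I.qtz O.GD (fun _ => O.HD) o5c1_Qp2700_0_0_0 o5c1_Qm2700_0_0_0 (by decide) rfl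
      (I.qtz O.GD (fun _ => O.HD) o5c1_Qp2700_0_0_0 o5c1_Qm2700_0_0_0 (by decide) rfl
      QT.nil A16 B36) A16 B36) A16 B36) A16 B36) A16 B36) A16 B36)

theorem dt5a_c {xs ys T ρ : ℝ} (O : OneB xs ys T ρ) (I : o5a1.In T ρ xs ys) :
    DT xs ys T ρ (16 / 100) (36 / 100) (fun _ => 0) (fun _ => 0) t5c :=
  (I.dtg O.GD (fun _ => O.HD) o5a1_Dp2500_160_260_0 o5a1_Dm2500_160_260_0 (Or.inl rfl) (Or.inl rfl) rfl hf0 hf0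
      (I.dtg O.GD (fun _ => O.HD) o5a1_Dp2600_160_260_0 o5a1_Dm2600_160_260_0 (Or.inl rfl) (Or.inl rfl) rfl hf0 hf0
      (I.dt O.GD (fun _ => O.HD) o5a1_Dp2700_0_0_0 o5a1_Dm2700_0_0_0 rfl hf0 hf0
      (I.dtz O.GD (fun _ => O.HD) o5a1_Qp2800_0_0_0 o5a1_Qm2800_0_0_0 (by decide) rfl
      (I.dtz O.GD (fun _ => O.HD) o5a1_Qp2800_0_0_0 o5a1_Qm2800_0_0_0 (by decide) rfl
      (I.dtz O.GD (fun _ => O.HD) o5a1_Qp2800_0_0_0 o5a1_Qm2800_0_0_0 (by decide) rfl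
      DT.nil A16 B36) A16 B36) A16 B36) A16 B36) A16 B36) A16 B36)

theorem dt5b_c {xs ys T ρ : ℝ} (O : OneB xs ys T ρ) (I : o5b1.In T ρ xs ys) :
    DT xs ys T ρ (16 / 100) (36 / 100) (fun m => 355 / 1000 * m) (fun _ => 0) t5c :=
  (I.dtg O.GD (fun _ => O.HD) o5b1_Dp2500_160_260_0 o5b1_Dm2500_160_260_0 (Or.inl rfl) (Or.inl rfl) rfl hf355 hf0
      (I.dtg O.GD (fun _ => O.HD) o5b1_Dp2600_160_260_0 o5b1_Dm2600_160_260_0 (Or.inl rfl) (Or.inl rfl) rfl hf355 hf0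
      (I.dt O.GD (fun _ => O.HD) o5b1_Dp2700_0_0_0 o5b1_Dm2700_0_0_0 rfl hf355 hf0
      (I.dt O.GD (fun _ => O.HD) o5b1_Dp2800_0_0_0 o5b1_Dm2800_0_0_0 rfl hf355 hf0
      (I.dt O.GD (fun _ => O.HD) o5b1_Dp2900_0_0_0 o5b1_Dm2900_0_0_0 rfl hf355 hf0
      (I.dtz O.GD (fun _ => O.HD) o5b1_Qp3000_0_0_0 o5b1_Qm3000_0_0_0 (by decide) rfl
      DT.nil A16 B36) A16 B36) A16 B36) A16 B36) A16 B36) A16 B36)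

theorem dt5c_c {xs ys T ρ : ℝ} (O : OneB xs ys T ρ) (I : o5c1.In T ρ xs ys) :
    DT xs ys T ρ (16 / 100) (36 / 100) (fun _ => 0) (fun _ => 0) t5c :=
  (I.dtg O.GD (fun _ => O.HD) o5c1_Dp2500_160_260_0 o5c1_Dm2500_160_260_0 (Or.inl rfl) (Or.inl rfl) rfl hf0 hf0
      (I.dtg O.GD (fun _ => O.HD) o5c1_Dp2600_160_260_0 o5c1_Dm2600_160_260_0 (Or.inl rfl) (Or.inl rfl) rfl hf0 hf0
      (I.dtz O.GD (fun _ => O.HD) o5c1_Qp2700_0_0_0 o5c1_Qm2700_0_0_0 (by decide) rfl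
      (I.dtz O.GD (fun _ => O.HD) o5c1_Qp2700_0_0_0 o5c1_Qm2700_0_0_0 (by decide) rfl
      (I.dtz O.GD (fun _ => O.HD) o5c1_Qp2700_0_0_0 o5c1_Qm2700_0_0_0 (by decide) rfl
      (I.dtz O.GD (fun _ => O.HD) o5c1_Qp2700_0_0_0 o5c1_Qm2700_0_0_0 (by decide) rfl
      DT.nil A16 B36) A16 B36) A16 B36) A16 B36) A16 B36) A16 B36)

def t5b : List Te := [⟨2500, 2600, 100, 65, 0, 0, 0⟩, ⟨2600, 2700, 100, 80, 0, 0, 0⟩, ⟨2700, 2800, 160, 100, 0, 0, 0⟩, ⟨2800, 2900, 160, 120, 0, 0, 0⟩, ⟨2900, 3000, 160, 150, 0, 0, 0⟩, ⟨3000, 5000, 0, 0, 0, 0, 0⟩]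

theorem qt5b {xs ys T ρ : ℝ} (O : OneB xs ys T ρ) (I : o5b1.In T ρ xs ys) :
    QT xs ys T ρ (16 / 100) (36 / 100) t5b :=
  (I.qt O.GD (fun _ => O.HD) o5b1_Qp2500_100_65_0 o5b1_Qm2500_100_65_0 rfl
      (I.qt O.GD (fun _ => O.HD) o5b1_Qp2600_100_80_0 o5b1_Qm2600_100_80_0 rfl
      (I.qt O.GD (fun _ => O.HD) o5b1_Qp2700_160_100_0 o5b1_Qm2700_160_100_0 rfl
      (I.qt O.GD (fun _ => O.HD) o5b1_Qp2800_160_120_0 o5b1_Qm2800_160_120_0 rfl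
      (I.qt O.GD (fun _ => O.HD) o5b1_Qp2900_160_150_0 o5b1_Qm2900_160_150_0 rfl
      (I.qtz O.GD (fun _ => O.HD) o5b1_Qp3000_0_0_0 o5b1_Qm3000_0_0_0 (by decide) rfl
      QT.nil A16 B36) A16 B36) A16 B36) A16 B36) A16 B36) A16 B36)

theorem dt5a_b {xs ys T ρ : ℝ} (O : OneB xs ys T ρ) (I : o5a1.In T ρ xs ys) :
    DT xs ys T ρ (16 / 100) (36 / 100) (fun _ => 0) (fun _ => 0) t5b :=
  (I.dtg O.GD (fun _ => O.HD) o5a1_Dp2500_100_65_0 o5a1_Dm2500_100_65_0 (Or.inl rfl) (Or.inl rfl) rfl hf0 hf0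
      (I.dtg O.GD (fun _ => O.HD) o5a1_Dp2600_100_80_0 o5a1_Dm2600_100_80_0 (Or.inl rfl) (Or.inl rfl) rfl hf0 hf0
      (I.dtg O.GD (fun _ => O.HD) o5a1_Dp2700_160_100_0 o5a1_Dm2700_160_100_0 (Or.inl rfl) (Or.inl rfl) rfl hf0 hf0
      (I.dtg O.GD (fun _ => O.HD) o5a1_Dp2800_160_120_0 o5a1_Dm2800_160_120_0 (Or.inl rfl) (Or.inl rfl) rfl hf0 hf0
      (I.dtg O.GD (fun _ => O.HD) o5a1_Dp2900_160_150_0 o5a1_Dm2900_160_150_0 (Or.inl rfl) (Or.inl rfl) rfl hf0 hf0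
      (I.dtz O.GD (fun _ => O.HD) o5a1_Qp2800_0_0_0 o5a1_Qm2800_0_0_0 (by decide) rfl
      DT.nil A16 B36) A16 B36) A16 B36) A16 B36) A16 B36) A16 B36)

theorem dt5c_b {xs ys T ρ : ℝ} (O : OneB xs ys T ρ) (I : o5c1.In T ρ xs ys) :
    DT xs ys T ρ (16 / 100) (36 / 100) (fun _ => 0) (fun _ => 0) t5b :=
  (I.dtg O.GD (fun _ => O.HD) o5c1_Dp2500_100_65_0 o5c1_Dm2500_100_65_0 (Or.inl rfl) (Or.inl rfl) rfl hf0 hf0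
      (I.dtg O.GD (fun _ => O.HD) o5c1_Dp2600_100_80_0 o5c1_Dm2600_100_80_0 (Or.inl rfl) (Or.inl rfl) rfl hf0 hf0
      (I.dtg O.GD (fun _ => O.HD) o5c1_Dp2700_160_100_0 o5c1_Dm2700_160_100_0 (Or.inl rfl) (Or.inl rfl) rfl hf0 hf0
      (I.dtg O.GD (fun _ => O.HD) o5c1_Dp2800_160_120_0 o5c1_Dm2800_160_120_0 (Or.inl rfl) (Or.inl rfl) rfl hf0 hf0
      (I.dtg O.GD (fun _ => O.HD) o5c1_Dp2900_160_150_0 o5c1_Dm2900_160_150_0 (Or.inl rfl) (Or.inl rfl) rfl hf0 hf0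
      (I.dtz O.GD (fun _ => O.HD) o5c1_Qp2700_0_0_0 o5c1_Qm2700_0_0_0 (by decide) rfl
      DT.nil A16 B36) A16 B36) A16 B36) A16 B36) A16 B36) A16 B36)

def t5bb : List Te := [⟨2500, 2600, 100, 80, 0, 0, 0⟩, ⟨2600, 2700, 100, 65, 0, 0, 0⟩, ⟨2700, 2800, 100, 100, 0, 0, 0⟩, ⟨2800, 2900, 100, 120, 0, 0, 0⟩, ⟨2900, 5000, 0, 0, 0, 0, 0⟩]

theorem qt5bb {xs ys T ρ : ℝ} (O : OneB xs ys T ρ) (I : o5bb1.In T ρ xs ys) :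
    QT xs ys T ρ (16 / 100) (36 / 100) t5bb :=
  (I.qt O.GD (fun _ => O.HD) o5bb1_Qp2500_100_80_0 o5bb1_Qm2500_100_80_0 rfl
      (I.qt O.GD (fun _ => O.HD) o5bb1_Qp2600_100_65_0 o5bb1_Qm2600_100_65_0 rfl
      (I.qt O.GD (fun _ => O.HD) o5bb1_Qp2700_100_100_0 o5bb1_Qm2700_100_100_0 rfl
      (I.qt O.GD (fun _ => O.HD) o5bb1_Qp2800_100_120_0 o5bb1_Qm2800_100_120_0 rfl
      (I.qtz O.GD (fun _ => O.HD) o5bb1_Qp2900_0_0_0 o5bb1_Qm2900_0_0_0 (by decide) rfl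
      QT.nil A16 B36) A16 B36) A16 B36) A16 B36) A16 B36)

theorem dt5bb_bb {xs ys T ρ : ℝ} (O : OneB xs ys T ρ) (I : o5bb1.In T ρ xs ys) :
    DT xs ys T ρ (16 / 100) (36 / 100) (fun m => 355 / 1000 * m) (fun _ => 0) t5bb :=
  (I.dtg O.GD (fun _ => O.HD) o5bb1_Dp2500_100_80_0 o5bb1_Dm2500_100_80_0 (Or.inl rfl) (Or.inl rfl) rfl hf355 hf0
      (I.dtg O.GD (fun _ => O.HD) o5bb1_Dp2600_100_65_0 o5bb1_Dm2600_100_65_0 (Or.inl rfl) (Or.inl rfl) rfl hf355 hf0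
      (I.dtg O.GD (fun _ => O.HD) o5bb1_Dp2700_100_100_0 o5bb1_Dm2700_100_100_0 (Or.inl rfl) (Or.inl rfl) rfl hf355 hf0
      (I.dtg O.GD (fun _ => O.HD) o5bb1_Dp2800_100_120_0 o5bb1_Dm2800_100_120_0 (Or.inl rfl) (Or.inl rfl) rfl hf355 hf0
      (I.dtz O.GD (fun _ => O.HD) o5bb1_Qp2900_0_0_0 o5bb1_Qm2900_0_0_0 (by decide) rfl
      DT.nil A16 B36) A16 B36) A16 B36) A16 B36) A16 B36)

theorem lf5bx1 {xs ys T ρ : ℝ} (O : OneB xs ys T ρ) (I : o5b1x.In T ρ xs ys) :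
    LF xs ys T ρ (16 / 100) (36 / 100) (fun _ => 0) (fun _ => 0) :=
  O.LF I o5b1x_Wa o5b1x_Wb hf0

theorem dt5bx_a {xs ys T ρ : ℝ} (O : OneB xs ys T ρ) (I : o5b1.In T ρ xs ys)
    (Is : o5b1x.In T ρ xs ys) : DT xs ys T ρ (16 / 100) (36 / 100) (fun _ => 0) (fun _ => 0) t5a :=
  (Is.dtg O.GD (fun _ => O.HD) o5b1x_Dp2500_160_150_0 o5b1x_Dm2500_160_150_0 (Or.inl rfl) (Or.inl rfl) rfl hf0 hf0
      (Is.dtg O.GD (fun _ => O.HD) o5b1x_Dp2600_160_150_0 o5b1x_Dm2600_160_150_0 (Or.inl rfl) (Or.inl rfl) rfl hf0 hf0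
      (Is.dtg O.GD (fun _ => O.HD) o5b1x_Dp2700_160_180_0 o5b1x_Dm2700_160_180_0 (Or.inl rfl) (Or.inl rfl) rfl hf0 hf0
      (Is.dt O.GD (fun _ => O.HD) o5b1x_Dp2800_0_0_0 o5b1x_Dm2800_0_0_0 rfl hf0 hf0
      (Is.dt O.GD (fun _ => O.HD) o5b1x_Dp2900_0_0_0 o5b1x_Dm2900_0_0_0 rfl hf0 hf0
      (I.dtz O.GD (fun _ => O.HD) o5b1_Qp3000_0_0_0 o5b1_Qm3000_0_0_0 (by decide) rfl
      DT.nil A16 B36) A16 B36) A16 B36) A16 B36) A16 B36) A16 B36)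

theorem dt5bx_c {xs ys T ρ : ℝ} (O : OneB xs ys T ρ) (I : o5b1.In T ρ xs ys)
    (Is : o5b1x.In T ρ xs ys) : DT xs ys T ρ (16 / 100) (36 / 100) (fun _ => 0) (fun _ => 0) t5c :=
  (Is.dtg O.GD (fun _ => O.HD) o5b1x_Dp2500_160_260_0 o5b1x_Dm2500_160_260_0 (Or.inl rfl) (Or.inl rfl) rfl hf0 hf0
      (Is.dtg O.GD (fun _ => O.HD) o5b1x_Dp2600_160_260_0 o5b1x_Dm2600_160_260_0 (Or.inl rfl) (Or.inl rfl) rfl hf0 hf0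
      (Is.dt O.GD (fun _ => O.HD) o5b1x_Dp2700_0_0_0 o5b1x_Dm2700_0_0_0 rfl hf0 hf0
      (Is.dt O.GD (fun _ => O.HD) o5b1x_Dp2800_0_0_0 o5b1x_Dm2800_0_0_0 rfl hf0 hf0
      (Is.dt O.GD (fun _ => O.HD) o5b1x_Dp2900_0_0_0 o5b1x_Dm2900_0_0_0 rfl hf0 hf0
      (I.dtz O.GD (fun _ => O.HD) o5b1_Qp3000_0_0_0 o5b1_Qm3000_0_0_0 (by decide) rfl
      DT.nil A16 B36) A16 B36) A16 B36) A16 B36) A16 B36) A16 B36)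

end RC

end Pool.Agent.Work.MP_b30479_gt.G2
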