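import Pool.Agent.Work.MP_b30479_gt.G2.RLvlB
import Pool.Agent.Work.MP_b30479_gt.G2.WLocW
import Pool.Agent.Work.MP_b30479_gt.G2.RGo5
import Pool.Agent.Work.MP_b30479_gt.G2.RGe5
import Pool.Agent.Work.MP_b30479_gt.G2.RLvlA
import Pool.Agent.Work.MP_b30479_gt.G2.WLocV

/-!
# Rings on the level part: rings between two digits `1`, rings at an end
-/

namespace Pool.Agent.Work.MP_b30479_gt.G2

open Finset VOL Filter Topology

namespace SR

/-- the tables of bounds -/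
def t5 : Cl → List RC.Te
  | .one => RC.t5a
  | .two => RC.t5b
  | _ => RC.t5c

theorem t5_cov (C : Cl) : RC.cov 2500 (t5 C) = true := by
  cases C <;> decide

theorem ok5a {xs ys T ρ : ℝ} {s : Bool} (q : (rq5 .one .one s).Re xs ys T ρ) :
    ∃ f, FS 5 .one xs T f ∧ OKt t5 (fun _ => True) .one xs ys T ρ f := by
  have q0 : (mk4 2233 2772 1321 1626 931 1554 236 547 (-1113) (-536) 4252 4016).Re xs ys T ρ := q
  have O := q0.oneB RC.Row.cH5a (by decide)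
  have I : RC.o5a1.In T ρ xs ys := wd4_in q0 (by decide)
  refine ⟨_, Or.inl rfl, RC.lf5a1 O I, RC.qt5a O I, fun C' hC => ?_, O.hys, O.hxs⟩
  cases C'
  · exact RC.dt5a_a O I
  · exact RC.dt5a_b O I
  all_goals exact RC.dt5a_c O I

theorem ok5b {xs ys T ρ : ℝ} {s : Bool} (q : (rq5 .two .one s).Re xs ys T ρ) (B : Bd5 .one s xs ys T ρ) :
    ∃ f, FS 5 .two xs T f ∧ OKt t5 (fun C => C ≠ .two) .two xs ys T ρ f := by
  have q0 : (mk4 2549 2954 1298 1583 1197 1592 229 517 (-1225) (-824) 4411 4182).Re xs ys T ρ := q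
  have O := q0.oneB RC.Row.cH5b (by decide)
  have I : RC.o5b1.In T ρ xs ys := wdk_in q0 (by decide) (k := 1530) (by
    have := B.kp
    simp only [ka5] at this
    push_cast at this ⊢
    linarith)
  rcases le_or_gt xs (2563 / 10000) with hs | hs
  · have Is : RC.o5b1x.In T ρ xs ys := I.cut (n := 2563) (by push_cast; exact hs)
    refine ⟨_, Or.inl rfl, RC.lf5bx1 O Is, RC.qt5b O I, fun C' hC => ?_, O.hys, O.hxs⟩
    cases C'
    · exact RC.dt5bx_a O I Is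
    · exact absurd rfl hC
    all_goals exact RC.dt5bx_c O I Is
  · refine ⟨_, Or.inr ⟨rfl, hs.le, Or.inr ⟨by decide, q0.tlo5 (by decide), rfl⟩⟩,
      RC.lf5b1 O I, RC.qt5b O I, fun C' hC => ?_, O.hys, O.hxs⟩
    cases C'
    · exact RC.dt5b_a O I
    · exact absurd rfl hC
    all_goals exact RC.dt5b_c O I

theorem ok5c {xs ys T ρ : ℝ} {s : Bool} (q : (rq5 .twoE .one s).Re xs ys T ρ) :
    ∃ f, FS 5 .twoE xs T f ∧ OKt t5 (fun _ => True) .twoE xs ys T ρ f := by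
  have q0 : (mk4 2391 2611 1331 1597 1509 1762 207 475 (-1411) (-1186) 4107 3900).Re xs ys T ρ := q
  have O := q0.oneB RC.Row.cH5c (by decide)
  have I : RC.o5c1.In T ρ xs ys := wd4_in q0 (by decide)
  refine ⟨_, Or.inl rfl, RC.lf5c1 O I, RC.qt5c O I, fun C' hC => ?_, O.hys, O.hxs⟩
  cases C'
  · exact RC.dt5c_a O I
  · exact RC.dt5c_b O I
  all_goals exact RC.dt5c_c O I

theorem bb5 {xs ys T ρ xs' T' : ℝ} (q : rw5.Re xs ys T ρ) (q' : rw5.Re xs' ys T' ρ) :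
    PrO 5 .two .two xs ys T ρ xs' T' := by
  have q0 : (mk4 2620 2880 1370 1480 1285 1555 320 425 (-1170) (-915) 4315 3995).Re xs ys T ρ := q
  have q1 : (mk4 2620 2880 1370 1480 1285 1555 320 425 (-1170) (-915) 4315 3995).Re xs' ys T' ρ := q'
  have O := q0.oneB RC.Row.cH5b (by decide)
  have O' := q1.oneB RC.Row.cH5b (by decide)
  have I : RC.o5bb1.In T ρ xs ys := wd4_in q0 (by decide)
  have I' : RC.o5bb1.In T' ρ xs' ys := wd4_in q1 (by decide)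
  exact ⟨_, _, Or.inr ⟨rfl, q0.xlo (by decide), Or.inr ⟨by decide, q0.tlo5 (by decide), rfl⟩⟩,
    Or.inr ⟨rfl, q1.xlo (by decide), Or.inr ⟨by decide, q1.tlo5 (by decide), rfl⟩⟩,
    RC.Pr.of (RC.lf5bb1 O I) (RC.lf5bb1 O' I') (RC.dt5bb_bb O I) (RC.qt5bb O' I')
      (RC.dt5bb_bb O' I') (RC.qt5bb O I) (by decide) (by decide) O.hys O.hxs O'.hxs⟩

theorem po5 {xs ys T ρ xs' T' : ℝ} {C C' : Cl} {s : Bool} {s' : Bool} 
    (hC : C = .one ∨ C = .two ∨ C = .twoE) (hC' : C' = .one ∨ C' = .two ∨ C' = .twoE)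
    (q : (rq5 C .one s).Re xs ys T ρ)
    (q' : (rq5 C' .one s').Re xs' ys T' ρ) (B : C = .two → Bd5 .one s xs ys T ρ)
    (B' : C' = .two → Bd5 .one s' xs' ys T' ρ)
    (bb : C = .two → C' = .two → rw5.Re xs ys T ρ ∧ rw5.Re xs' ys T' ρ) :
    PrO 5 C C' xs ys T ρ xs' T' := by
  rcases hC with rfl | rfl | rfl <;> rcases hC' with rfl | rfl | rfl
  · obtain ⟨f, hf, k⟩ := ok5a q
    obtain ⟨f', hf', k'⟩ := ok5a q'
    exact ⟨f, f', hf, hf', k.pr k' trivial trivial t5_cov⟩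
  · obtain ⟨f, hf, k⟩ := ok5a q
    obtain ⟨f', hf', k'⟩ := ok5b q' (B' rfl)
    exact ⟨f, f', hf, hf', k.pr k' trivial (by decide) t5_cov⟩
  · obtain ⟨f, hf, k⟩ := ok5a q
    obtain ⟨f', hf', k'⟩ := ok5c q'
    exact ⟨f, f', hf, hf', k.pr k' trivial trivial t5_cov⟩
  · obtain ⟨f, hf, k⟩ := ok5b q (B rfl)
    obtain ⟨f', hf', k'⟩ := ok5a q'
    exact ⟨f, f', hf, hf', k.pr k' (by decide) trivial t5_cov⟩
  · obtain ⟨u, u'⟩ := bb rfl rfl
    exact bb5 u u'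
  · obtain ⟨f, hf, k⟩ := ok5b q (B rfl)
    obtain ⟨f', hf', k'⟩ := ok5c q'
    exact ⟨f, f', hf, hf', k.pr k' (by decide) trivial t5_cov⟩
  · obtain ⟨f, hf, k⟩ := ok5c q
    obtain ⟨f', hf', k'⟩ := ok5a q'
    exact ⟨f, f', hf, hf', k.pr k' trivial trivial t5_cov⟩
  · obtain ⟨f, hf, k⟩ := ok5c q
    obtain ⟨f', hf', k'⟩ := ok5b q' (B' rfl)
    exact ⟨f, f', hf, hf', k.pr k' trivial (by decide) t5_cov⟩
  · obtain ⟨f, hf, k⟩ := ok5c q
    obtain ⟨f', hf', k'⟩ := ok5c q'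
    exact ⟨f, f', hf, hf', k.pr k' trivial trivial t5_cov⟩

theorem em5a {xs ys T ρ : ℝ} (q : (re5 .one).Re xs ys T ρ) : EnS 5 .one xs ys T ρ := by
  have q0 : (mk4 2180 2677 1605 1865 790 1274 140 391 (-1026) (-499) 4382 4242).Re xs ys T ρ := q
  have O := q0.oneB RC.Row.cH5e (by decide)
  have I : RC.e5a.In T ρ xs ys := wd4_in q0 (by decide)
  exact ⟨_, Or.inl rfl, RC.en5a O I⟩

theorem em5b {xs ys T ρ : ℝ} (q : (re5 .two).Re xs ys T ρ) : EnS 5 .two xs ys T ρ := by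
  have q0 : (mk4 2471 2859 1571 1805 1037 1381 141 364 (-1140) (-772) 4530 4389).Re xs ys T ρ := q
  have O := q0.oneB RC.Row.cH5e (by decide)
  have I : RC.e5b.In T ρ xs ys := wd4_in q0 (by decide)
  rcases le_or_gt xs (2563 / 10000) with hs | hs
  · have Is : RC.e5bx.In T ρ xs ys := I.cut (n := 2563) (by push_cast; exact hs)
    exact ⟨_, Or.inl rfl, RC.en5bx O I Is⟩
  · exact ⟨_, Or.inr ⟨rfl, hs.le, Or.inr ⟨by decide, q0.tlo5 (by decide), rfl⟩⟩, RC.en5b O I⟩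

theorem em5c {xs ys T ρ : ℝ} (q : (re5 .twoE).Re xs ys T ρ) : EnS 5 .twoE xs ys T ρ := by
  have q0 : (mk4 2326 2526 1608 1808 1334 1534 106 306 (-1328) (-1128) 4235 4129).Re xs ys T ρ := q
  have O := q0.oneB RC.Row.cH5e (by decide)
  have I : RC.e5c.In T ρ xs ys := wd4_in q0 (by decide)
  exact ⟨_, Or.inl rfl, RC.en5c O I⟩

theorem pe5 {xs ys T ρ : ℝ} {C : Cl} (hC : C = .one ∨ C = .two ∨ C = .twoE)
    (q : (re5 C).Re xs ys T ρ) : EnS 5 C xs ys T ρ := by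
  rcases hC with rfl | rfl | rfl
  · exact em5a q
  · exact em5b q
  · exact em5c q

end SR

end Pool.Agent.Work.MP_b30479_gt.G2
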