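import Pool.Agent.Work.MP_b30479_gt.G2.RGm32
import Pool.Agent.Work.MP_b30479_gt.G2.RGn10
import Pool.Agent.Work.MP_b30479_gt.G2.RLvl9

/-!
# Rings on the level part: pairs of hinges
-/

namespace Pool.Agent.Work.MP_b30479_gt.G2

open Real Set

namespace RC

open R6

theorem en6a {xs ys T ρ : ℝ} (O : OneB xs ys T ρ) (I : e6a.In T ρ xs ys) :
    En xs ys T ρ (16 / 100) (36 / 100) (fun _ => 0) (fun _ => 0) :=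
  En.of (tab := [⟨2500, 2600, 0, 0, 0, 0, 0⟩, ⟨2600, 2700, 0, 0, 0, 0, 0⟩, ⟨2700, 2800, 0, 0, 0, 0, 0⟩, ⟨2800, 5000, 0, 0, 0, 0, 0⟩])
    (tab' := [⟨2500, 2600, 250, 0, 0, 0, 0⟩, ⟨2600, 2700, 250, 0, 0, 0, 0⟩, ⟨2700, 2800, 250, 0, 0, 0, 0⟩, ⟨2800, 5000, 0, 0, 0, 0, 0⟩])
    (O.LF I e6a_Wa e6a_Wb hf0)
    (I.dt O.GD (fun _ => O.HD) e6a_Dp2500_0_0_0 e6a_Dm2500_0_0_0 rfl hf0 hf0
      (I.dt O.GD (fun _ => O.HD) e6a_Dp2600_0_0_0 e6a_Dm2600_0_0_0 rfl hf0 hf0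
      (I.dt O.GD (fun _ => O.HD) e6a_Dp2700_0_0_0 e6a_Dm2700_0_0_0 rfl hf0 hf0
      (I.dt0 O.GD (fun _ => O.HD) e6a_Qp2800_0_0_0 e6a_Qm2800_0_0_0 rfl DT.nil A16 B36) A16 B36) A16 B36) A16 B36)
    (I.qt O.GD (fun _ => O.HD) e6a_Qp2500_250_0_0 e6a_Qm2500_250_0_0 rfl
      (I.qt O.GD (fun _ => O.HD) e6a_Qp2600_250_0_0 e6a_Qm2600_250_0_0 rfl
      (I.qt O.GD (fun _ => O.HD) e6a_Qp2700_250_0_0 e6a_Qm2700_250_0_0 rfl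
      (I.qt O.GD (fun _ => O.HD) e6a_Qp2800_0_0_0 e6a_Qm2800_0_0_0 rfl QT.nil A16 B36) A16 B36) A16 B36) A16 B36)
    (by decide) (by decide) (by decide) O.hys O.hxs

theorem en6b {xs ys T ρ : ℝ} (O : OneB xs ys T ρ) (I : e6b.In T ρ xs ys) :
    En xs ys T ρ (16 / 100) (36 / 100) (fun m => 355 / 1000 * m) (fun _ => 0) :=
  En.of (tab := [⟨2500, 2600, 0, 0, 0, 0, 0⟩, ⟨2600, 2700, 0, 0, 0, 0, 0⟩, ⟨2700, 2800, 0, 0, 0, 0, 0⟩, ⟨2800, 2900, 0, 0, 0, 0, 0⟩, ⟨2900, 3000, 0, 0, 0, 0, 0⟩, ⟨3000, 5000, 0, 0, 0, 0, 0⟩])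
    (tab' := [⟨2500, 2600, 250, 0, 0, 0, 0⟩, ⟨2600, 2700, 250, 0, 0, 0, 0⟩, ⟨2700, 2800, 250, 0, 0, 0, 0⟩, ⟨2800, 2900, 250, 0, 0, 0, 0⟩, ⟨2900, 3000, 250, 0, 0, 0, 0⟩, ⟨3000, 5000, 0, 0, 0, 0, 0⟩])
    (O.LF I e6b_Wa e6b_Wb hf355)
    (I.dt O.GD (fun _ => O.HD) e6b_Dp2500_0_0_0 e6b_Dm2500_0_0_0 rfl hf355 hf0
      (I.dt O.GD (fun _ => O.HD) e6b_Dp2600_0_0_0 e6b_Dm2600_0_0_0 rfl hf355 hf0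
      (I.dt O.GD (fun _ => O.HD) e6b_Dp2700_0_0_0 e6b_Dm2700_0_0_0 rfl hf355 hf0
      (I.dt O.GD (fun _ => O.HD) e6b_Dp2800_0_0_0 e6b_Dm2800_0_0_0 rfl hf355 hf0
      (I.dt O.GD (fun _ => O.HD) e6b_Dp2900_0_0_0 e6b_Dm2900_0_0_0 rfl hf355 hf0
      (I.dt0 O.GD (fun _ => O.HD) e6b_Qp3000_0_0_0 e6b_Qm3000_0_0_0 rfl DT.nil A16 B36) A16 B36) A16 B36) A16 B36) A16 B36) A16 B36)
    (I.qt O.GD (fun _ => O.HD) e6b_Qp2500_250_0_0 e6b_Qm2500_250_0_0 rfl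
      (I.qt O.GD (fun _ => O.HD) e6b_Qp2600_250_0_0 e6b_Qm2600_250_0_0 rfl
      (I.qt O.GD (fun _ => O.HD) e6b_Qp2700_250_0_0 e6b_Qm2700_250_0_0 rfl
      (I.qt O.GD (fun _ => O.HD) e6b_Qp2800_250_0_0 e6b_Qm2800_250_0_0 rfl
      (I.qt O.GD (fun _ => O.HD) e6b_Qp2900_250_0_0 e6b_Qm2900_250_0_0 rfl
      (I.qt O.GD (fun _ => O.HD) e6b_Qp3000_0_0_0 e6b_Qm3000_0_0_0 rfl QT.nil A16 B36) A16 B36) A16 B36) A16 B36) A16 B36) A16 B36)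
    (by decide) (by decide) (by decide) O.hys O.hxs

theorem en6bx {xs ys T ρ : ℝ} (O : OneB xs ys T ρ) (I : e6b.In T ρ xs ys)
    (Is : e6bx.In T ρ xs ys) :
    En xs ys T ρ (16 / 100) (36 / 100) (fun _ => 0) (fun _ => 0) :=
  En.of (tab := [⟨2500, 2600, 0, 0, 0, 0, 0⟩, ⟨2600, 2700, 0, 0, 0, 0, 0⟩, ⟨2700, 2800, 0, 0, 0, 0, 0⟩, ⟨2800, 2900, 0, 0, 0, 0, 0⟩, ⟨2900, 3000, 0, 0, 0, 0, 0⟩, ⟨3000, 5000, 0, 0, 0, 0, 0⟩])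
    (tab' := [⟨2500, 2600, 250, 0, 0, 0, 0⟩, ⟨2600, 2700, 250, 0, 0, 0, 0⟩, ⟨2700, 2800, 250, 0, 0, 0, 0⟩, ⟨2800, 2900, 250, 0, 0, 0, 0⟩, ⟨2900, 3000, 250, 0, 0, 0, 0⟩, ⟨3000, 5000, 0, 0, 0, 0, 0⟩])
    (O.LF Is e6bx_Wa e6bx_Wb hf0)
    (Is.dt O.GD (fun _ => O.HD) e6bx_Dp2500_0_0_0 e6bx_Dm2500_0_0_0 rfl hf0 hf0
      (Is.dt O.GD (fun _ => O.HD) e6bx_Dp2600_0_0_0 e6bx_Dm2600_0_0_0 rfl hf0 hf0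
      (Is.dt O.GD (fun _ => O.HD) e6bx_Dp2700_0_0_0 e6bx_Dm2700_0_0_0 rfl hf0 hf0
      (Is.dt O.GD (fun _ => O.HD) e6bx_Dp2800_0_0_0 e6bx_Dm2800_0_0_0 rfl hf0 hf0
      (Is.dt O.GD (fun _ => O.HD) e6bx_Dp2900_0_0_0 e6bx_Dm2900_0_0_0 rfl hf0 hf0
      (I.dt0 O.GD (fun _ => O.HD) e6b_Qp3000_0_0_0 e6b_Qm3000_0_0_0 rfl DT.nil A16 B36) A16 B36) A16 B36) A16 B36) A16 B36) A16 B36)
    (I.qt O.GD (fun _ => O.HD) e6b_Qp2500_250_0_0 e6b_Qm2500_250_0_0 rfl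
      (I.qt O.GD (fun _ => O.HD) e6b_Qp2600_250_0_0 e6b_Qm2600_250_0_0 rfl
      (I.qt O.GD (fun _ => O.HD) e6b_Qp2700_250_0_0 e6b_Qm2700_250_0_0 rfl
      (I.qt O.GD (fun _ => O.HD) e6b_Qp2800_250_0_0 e6b_Qm2800_250_0_0 rfl
      (I.qt O.GD (fun _ => O.HD) e6b_Qp2900_250_0_0 e6b_Qm2900_250_0_0 rfl
      (I.qt O.GD (fun _ => O.HD) e6b_Qp3000_0_0_0 e6b_Qm3000_0_0_0 rfl QT.nil A16 B36) A16 B36) A16 B36) A16 B36) A16 B36) A16 B36)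
    (by decide) (by decide) (by decide) O.hys O.hxs

theorem en6c {xs ys T ρ : ℝ} (O : OneB xs ys T ρ) (I : e6c.In T ρ xs ys) :
    En xs ys T ρ (16 / 100) (36 / 100) (fun _ => 0) (fun _ => 0) :=
  En.of (tab := [⟨2500, 2600, 0, 0, 0, 0, 0⟩, ⟨2600, 5000, 0, 0, 0, 0, 0⟩])
    (tab' := [⟨2500, 2600, 160, 0, 0, 0, 0⟩, ⟨2600, 5000, 0, 0, 0, 0, 0⟩])
    (O.LF I e6c_Wa e6c_Wb hf0)
    (I.dt O.GD (fun _ => O.HD) e6c_Dp2500_0_0_0 e6c_Dm2500_0_0_0 rfl hf0 hf0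
      (I.dt0 O.GD (fun _ => O.HD) e6c_Qp2600_0_0_0 e6c_Qm2600_0_0_0 rfl DT.nil A16 B36) A16 B36)
    (I.qt O.GD (fun _ => O.HD) e6c_Qp2500_160_0_0 e6c_Qm2500_160_0_0 rfl
      (I.qt O.GD (fun _ => O.HD) e6c_Qp2600_0_0_0 e6c_Qm2600_0_0_0 rfl QT.nil A16 B36) A16 B36)
    (by decide) (by decide) (by decide) O.hys O.hxs

end RC

end Pool.Agent.Work.MP_b30479_gt.G2
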