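import Pool.Agent.Work.MP_b30479_gt.G2.RGm36
import Pool.Agent.Work.MP_b30479_gt.G2.RGn11
import Pool.Agent.Work.MP_b30479_gt.G2.RLvl9

/-!
# Rings on the level part: pairs of hinges
-/

namespace Pool.Agent.Work.MP_b30479_gt.G2

open Real Set

namespace RC

open R6

theorem lf6a1 {xs ys T ρ : ℝ} (O : OneB xs ys T ρ) (I : o6a1.In T ρ xs ys) :
    LF xs ys T ρ (16 / 100) (36 / 100) (fun _ => 0) (fun _ => 0) :=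
  O.LF I o6a1_Wa o6a1_Wb hf0

theorem lf6c1 {xs ys T ρ : ℝ} (O : OneB xs ys T ρ) (I : o6c1.In T ρ xs ys) :
    LF xs ys T ρ (16 / 100) (36 / 100) (fun _ => 0) (fun _ => 0) :=
  O.LF I o6c1_Wa o6c1_Wb hf0

theorem lf6b1 {xs ys T ρ : ℝ} (O : OneB xs ys T ρ) (I : o6b1.In T ρ xs ys) :
    LF xs ys T ρ (16 / 100) (36 / 100) (fun m => 355 / 1000 * m) (fun _ => 0) :=
  O.LF I o6b1_Wa o6b1_Wb hf355

def t6a : List Te := [⟨2500, 2700, 160, 180, 0, 0, 0⟩, ⟨2700, 2900, 0, 0, 0, 0, 0⟩, ⟨2900, 5000, 0, 0, 0, 0, 0⟩]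

theorem qt6a {xs ys T ρ : ℝ} (O : OneB xs ys T ρ) (I : o6a1.In T ρ xs ys) :
    QT xs ys T ρ (16 / 100) (36 / 100) t6a :=
  (I.qt O.GD (fun _ => O.HD) o6a1_Qp2500_160_180_0 o6a1_Qm2500_160_180_0 rfl
      (I.qtz O.GD (fun _ => O.HD) o6a1_Qp2700_0_0_0 o6a1_Qm2700_0_0_0 (by decide) rfl
      (I.qtz O.GD (fun _ => O.HD) o6a1_Qp2700_0_0_0 o6a1_Qm2700_0_0_0 (by decide) rfl
      QT.nil A16 B36) A16 B36) A16 B36)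

theorem dt6a_a {xs ys T ρ : ℝ} (O : OneB xs ys T ρ) (I : o6a1.In T ρ xs ys) :
    DT xs ys T ρ (16 / 100) (36 / 100) (fun _ => 0) (fun _ => 0) t6a :=
  (I.dtg O.GD (fun _ => O.HD) o6a1_Dp2500_160_180_0 o6a1_Dm2500_160_180_0 (Or.inl rfl) (Or.inl rfl) rfl hf0 hf0
      (I.dtz O.GD (fun _ => O.HD) o6a1_Qp2700_0_0_0 o6a1_Qm2700_0_0_0 (by decide) rfl
      (I.dtz O.GD (fun _ => O.HD) o6a1_Qp2700_0_0_0 o6a1_Qm2700_0_0_0 (by decide) rfl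
      DT.nil A16 B36) A16 B36) A16 B36)

theorem dt6b_a {xs ys T ρ : ℝ} (O : OneB xs ys T ρ) (I : o6b1.In T ρ xs ys) :
    DT xs ys T ρ (16 / 100) (36 / 100) (fun m => 355 / 1000 * m) (fun _ => 0) t6a :=
  (I.dtg O.GD (fun _ => O.HD) o6b1_Dp2500_160_180_0 o6b1_Dm2500_160_180_0 (Or.inl rfl) (Or.inl rfl) rfl hf355 hf0
      (I.dt O.GD (fun _ => O.HD) o6b1_Dp2700_0_0_0 o6b1_Dm2700_0_0_0 rfl hf355 hf0
      (I.dtz O.GD (fun _ => O.HD) o6b1_Qp2900_0_0_0 o6b1_Qm2900_0_0_0 (by decide) rfl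
      DT.nil A16 B36) A16 B36) A16 B36)

theorem dt6c_a {xs ys T ρ : ℝ} (O : OneB xs ys T ρ) (I : o6c1.In T ρ xs ys) :
    DT xs ys T ρ (16 / 100) (36 / 100) (fun _ => 0) (fun _ => 0) t6a :=
  (I.dtg O.GD (fun _ => O.HD) o6c1_Dp2500_160_180_0 o6c1_Dm2500_160_180_0 (Or.inl rfl) (Or.inl rfl) rfl hf0 hf0
      (I.dtz O.GD (fun _ => O.HD) o6c1_Qp2700_0_0_0 o6c1_Qm2700_0_0_0 (by decide) rfl
      (I.dtz O.GD (fun _ => O.HD) o6c1_Qp2700_0_0_0 o6c1_Qm2700_0_0_0 (by decide) rfl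
      DT.nil A16 B36) A16 B36) A16 B36)

def t6c : List Te := [⟨2500, 2700, 160, 300, 0, 0, 0⟩, ⟨2700, 2900, 0, 0, 0, 0, 0⟩, ⟨2900, 5000, 0, 0, 0, 0, 0⟩]

theorem qt6c {xs ys T ρ : ℝ} (O : OneB xs ys T ρ) (I : o6c1.In T ρ xs ys) :
    QT xs ys T ρ (16 / 100) (36 / 100) t6c :=
  (I.qt O.GD (fun _ => O.HD) o6c1_Qp2500_160_300_0 o6c1_Qm2500_160_300_0 rfl
      (I.qtz O.GD (fun _ => O.HD) o6c1_Qp2700_0_0_0 o6c1_Qm2700_0_0_0 (by decide) rfl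
      (I.qtz O.GD (fun _ => O.HD) o6c1_Qp2700_0_0_0 o6c1_Qm2700_0_0_0 (by decide) rfl
      QT.nil A16 B36) A16 B36) A16 B36)

theorem dt6a_c {xs ys T ρ : ℝ} (O : OneB xs ys T ρ) (I : o6a1.In T ρ xs ys) :
    DT xs ys T ρ (16 / 100) (36 / 100) (fun _ => 0) (fun _ => 0) t6c :=
  (I.dtg O.GD (fun _ => O.HD) o6a1_Dp2500_160_300_0 o6a1_Dm2500_160_300_0 (Or.inl rfl) (Or.inl rfl) rfl hf0 hf0
      (I.dtz O.GD (fun _ => O.HD) o6a1_Qp2700_0_0_0 o6a1_Qm2700_0_0_0 (by decide) rfl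
      (I.dtz O.GD (fun _ => O.HD) o6a1_Qp2700_0_0_0 o6a1_Qm2700_0_0_0 (by decide) rfl
      DT.nil A16 B36) A16 B36) A16 B36)

theorem dt6b_c {xs ys T ρ : ℝ} (O : OneB xs ys T ρ) (I : o6b1.In T ρ xs ys) :
    DT xs ys T ρ (16 / 100) (36 / 100) (fun m => 355 / 1000 * m) (fun _ => 0) t6c :=
  (I.dtg O.GD (fun _ => O.HD) o6b1_Dp2500_160_300_0 o6b1_Dm2500_160_300_0 (Or.inl rfl) (Or.inl rfl) rfl hf355 hf0
      (I.dt O.GD (fun _ => O.HD) o6b1_Dp2700_0_0_0 o6b1_Dm2700_0_0_0 rfl hf355 hf0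
      (I.dtz O.GD (fun _ => O.HD) o6b1_Qp2900_0_0_0 o6b1_Qm2900_0_0_0 (by decide) rfl
      DT.nil A16 B36) A16 B36) A16 B36)

theorem dt6c_c {xs ys T ρ : ℝ} (O : OneB xs ys T ρ) (I : o6c1.In T ρ xs ys) :
    DT xs ys T ρ (16 / 100) (36 / 100) (fun _ => 0) (fun _ => 0) t6c :=
  (I.dtg O.GD (fun _ => O.HD) o6c1_Dp2500_160_300_0 o6c1_Dm2500_160_300_0 (Or.inl rfl) (Or.inl rfl) rfl hf0 hf0
      (I.dtz O.GD (fun _ => O.HD) o6c1_Qp2700_0_0_0 o6c1_Qm2700_0_0_0 (by decide) rfl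
      (I.dtz O.GD (fun _ => O.HD) o6c1_Qp2700_0_0_0 o6c1_Qm2700_0_0_0 (by decide) rfl
      DT.nil A16 B36) A16 B36) A16 B36)

def t6b : List Te := [⟨2500, 2700, 115, 120, 0, 0, 0⟩, ⟨2700, 2900, 130, 150, 0, 0, 0⟩, ⟨2900, 5000, 0, 0, 0, 0, 0⟩]

theorem qt6b {xs ys T ρ : ℝ} (O : OneB xs ys T ρ) (I : o6b1.In T ρ xs ys) :
    QT xs ys T ρ (16 / 100) (36 / 100) t6b :=
  (I.qt O.GD (fun _ => O.HD) o6b1_Qp2500_115_120_0 o6b1_Qm2500_115_120_0 rfl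
      (I.qt O.GD (fun _ => O.HD) o6b1_Qp2700_130_150_0 o6b1_Qm2700_130_150_0 rfl
      (I.qtz O.GD (fun _ => O.HD) o6b1_Qp2900_0_0_0 o6b1_Qm2900_0_0_0 (by decide) rfl
      QT.nil A16 B36) A16 B36) A16 B36)

theorem dt6a_b {xs ys T ρ : ℝ} (O : OneB xs ys T ρ) (I : o6a1.In T ρ xs ys) :
    DT xs ys T ρ (16 / 100) (36 / 100) (fun _ => 0) (fun _ => 0) t6b :=
  (I.dtg O.GD (fun _ => O.HD) o6a1_Dp2500_115_120_0 o6a1_Dm2500_115_120_0 (Or.inl rfl) (Or.inl rfl) rfl hf0 hf0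
      (I.dtg O.GD (fun _ => O.HD) o6a1_Dp2700_130_150_0 o6a1_Dm2700_130_150_0 (Or.inl rfl) (Or.inl rfl) rfl hf0 hf0
      (I.dtz O.GD (fun _ => O.HD) o6a1_Qp2700_0_0_0 o6a1_Qm2700_0_0_0 (by decide) rfl
      DT.nil A16 B36) A16 B36) A16 B36)

theorem dt6b_b {xs ys T ρ : ℝ} (O : OneB xs ys T ρ) (I : o6b1.In T ρ xs ys) :
    DT xs ys T ρ (16 / 100) (36 / 100) (fun m => 355 / 1000 * m) (fun _ => 0) t6b :=
  (I.dtg O.GD (fun _ => O.HD) o6b1_Dp2500_115_120_0 o6b1_Dm2500_115_120_0 (Or.inl rfl) (Or.inl rfl) rfl hf355 hf0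
      (I.dtg O.GD (fun _ => O.HD) o6b1_Dp2700_130_150_0 o6b1_Dm2700_130_150_0 (Or.inl rfl) (Or.inl rfl) rfl hf355 hf0
      (I.dtz O.GD (fun _ => O.HD) o6b1_Qp2900_0_0_0 o6b1_Qm2900_0_0_0 (by decide) rfl
      DT.nil A16 B36) A16 B36) A16 B36)

theorem dt6c_b {xs ys T ρ : ℝ} (O : OneB xs ys T ρ) (I : o6c1.In T ρ xs ys) :
    DT xs ys T ρ (16 / 100) (36 / 100) (fun _ => 0) (fun _ => 0) t6b :=
  (I.dtg O.GD (fun _ => O.HD) o6c1_Dp2500_115_120_0 o6c1_Dm2500_115_120_0 (Or.inl rfl) (Or.inl rfl) rfl hf0 hf0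
      (I.dtg O.GD (fun _ => O.HD) o6c1_Dp2700_130_150_0 o6c1_Dm2700_130_150_0 (Or.inl rfl) (Or.inl rfl) rfl hf0 hf0
      (I.dtz O.GD (fun _ => O.HD) o6c1_Qp2700_0_0_0 o6c1_Qm2700_0_0_0 (by decide) rfl
      DT.nil A16 B36) A16 B36) A16 B36)

theorem lf6bx1 {xs ys T ρ : ℝ} (O : OneB xs ys T ρ) (I : o6b1x.In T ρ xs ys) :
    LF xs ys T ρ (16 / 100) (36 / 100) (fun _ => 0) (fun _ => 0) :=
  O.LF I o6b1x_Wa o6b1x_Wb hf0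

theorem dt6bx_a {xs ys T ρ : ℝ} (O : OneB xs ys T ρ) (I : o6b1.In T ρ xs ys)
    (Is : o6b1x.In T ρ xs ys) : DT xs ys T ρ (16 / 100) (36 / 100) (fun _ => 0) (fun _ => 0) t6a :=
  (Is.dtg O.GD (fun _ => O.HD) o6b1x_Dp2500_160_180_0 o6b1x_Dm2500_160_180_0 (Or.inl rfl) (Or.inl rfl) rfl hf0 hf0
      (Is.dt O.GD (fun _ => O.HD) o6b1x_Dp2700_0_0_0 o6b1x_Dm2700_0_0_0 rfl hf0 hf0
      (I.dtz O.GD (fun _ => O.HD) o6b1_Qp2900_0_0_0 o6b1_Qm2900_0_0_0 (by decide) rfl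
      DT.nil A16 B36) A16 B36) A16 B36)

theorem dt6bx_c {xs ys T ρ : ℝ} (O : OneB xs ys T ρ) (I : o6b1.In T ρ xs ys)
    (Is : o6b1x.In T ρ xs ys) : DT xs ys T ρ (16 / 100) (36 / 100) (fun _ => 0) (fun _ => 0) t6c :=
  (Is.dtg O.GD (fun _ => O.HD) o6b1x_Dp2500_160_300_0 o6b1x_Dm2500_160_300_0 (Or.inl rfl) (Or.inl rfl) rfl hf0 hf0
      (Is.dt O.GD (fun _ => O.HD) o6b1x_Dp2700_0_0_0 o6b1x_Dm2700_0_0_0 rfl hf0 hf0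
      (I.dtz O.GD (fun _ => O.HD) o6b1_Qp2900_0_0_0 o6b1_Qm2900_0_0_0 (by decide) rfl
      DT.nil A16 B36) A16 B36) A16 B36)

theorem dt6bx_b {xs ys T ρ : ℝ} (O : OneB xs ys T ρ) (I : o6b1.In T ρ xs ys)
    (Is : o6b1x.In T ρ xs ys) : DT xs ys T ρ (16 / 100) (36 / 100) (fun _ => 0) (fun _ => 0) t6b :=
  (Is.dtg O.GD (fun _ => O.HD) o6b1x_Dp2500_115_120_0 o6b1x_Dm2500_115_120_0 (Or.inl rfl) (Or.inl rfl) rfl hf0 hf0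
      (Is.dtg O.GD (fun _ => O.HD) o6b1x_Dp2700_130_150_0 o6b1x_Dm2700_130_150_0 (Or.inl rfl) (Or.inl rfl) rfl hf0 hf0
      (I.dtz O.GD (fun _ => O.HD) o6b1_Qp2900_0_0_0 o6b1_Qm2900_0_0_0 (by decide) rfl
      DT.nil A16 B36) A16 B36) A16 B36)

end RC

end Pool.Agent.Work.MP_b30479_gt.G2
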