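import Pool.Agent.Work.MP_b30479_gt.G2.RLvlB
import Pool.Agent.Work.MP_b30479_gt.G2.RGo6
import Pool.Agent.Work.MP_b30479_gt.G2.RGe6
import Pool.Agent.Work.MP_b30479_gt.G2.RLvlA
import Pool.Agent.Work.MP_b30479_gt.G2.WLocV

/-!
# Rings on the level part: rings between two digits `1`, rings at an end
-/

namespace Pool.Agent.Work.MP_b30479_gt.G2

open Finset VOL Filter Topology

namespace SR

/-- the tables of bounds -/
def t6 : Cl → List RC.Te
  | .one => RC.t6a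
  | .two => RC.t6b
  | _ => RC.t6c

theorem t6_cov (C : Cl) : RC.cov 2500 (t6 C) = true := by
  cases C <;> decide

theorem ok6a {xs ys T ρ : ℝ} {s : Bool} (q : (rq6 .one .one s).Re xs ys T ρ) :
    ∃ f, FS 6 .one xs T f ∧ OKt t6 (fun _ => True) .one xs ys T ρ f := by
  have q0 : (mk4 2243 2781 1148 1459 886 1522 133 457 (-1181) (-591) 4077 3944).Re xs ys T ρ := q
  have O := q0.oneB RC.Row.cH6 (by decide)
  have I : RC.o6a1.In T ρ xs ys := wd4_in q0 (by decide)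
  refine ⟨_, Or.inl rfl, RC.lf6a1 O I, RC.qt6a O I, fun C' hC => ?_, O.hys, O.hxs⟩
  cases C'
  · exact RC.dt6a_a O I
  · exact RC.dt6a_b O I
  all_goals exact RC.dt6a_c O I

theorem ok6b {xs ys T ρ : ℝ} {s : Bool} (q : (rq6 .two .one s).Re xs ys T ρ) :
    ∃ f, FS 6 .two xs T f ∧ OKt t6 (fun _ => True) .two xs ys T ρ f := by
  have q0 : (mk4 2528 2958 1131 1426 1155 1585 130 432 (-1307) (-886) 4239 4109).Re xs ys T ρ := q
  have O := q0.oneB RC.Row.cH6 (by decide)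
  have I : RC.o6b1.In T ρ xs ys := wd4_in q0 (by decide)
  rcases le_or_gt xs (2563 / 10000) with hs | hs
  · have Is : RC.o6b1x.In T ρ xs ys := I.cut (n := 2563) (by push_cast; exact hs)
    refine ⟨_, Or.inl rfl, RC.lf6bx1 O Is, RC.qt6b O I, fun C' hC => ?_, O.hys, O.hxs⟩
    cases C'
    · exact RC.dt6bx_a O I Is
    · exact RC.dt6bx_b O I Is
    all_goals exact RC.dt6bx_c O I Is
  · refine ⟨_, Or.inr ⟨rfl, hs.le, Or.inr ⟨by decide, q0.tlo5 (by decide), rfl⟩⟩,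
      RC.lf6b1 O I, RC.qt6b O I, fun C' hC => ?_, O.hys, O.hxs⟩
    cases C'
    · exact RC.dt6b_a O I
    · exact RC.dt6b_b O I
    all_goals exact RC.dt6b_c O I

theorem ok6c {xs ys T ρ : ℝ} {s : Bool} (q : (rq6 .twoE .one s).Re xs ys T ρ) :
    ∃ f, FS 6 .twoE xs T f ∧ OKt t6 (fun _ => True) .twoE xs ys T ρ f := by
  have q0 : (mk4 2363 2615 1142 1434 1476 1755 112 403 (-1488) (-1232) 3929 3817).Re xs ys T ρ := q
  have O := q0.oneB RC.Row.cH6 (by decide)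
  have I : RC.o6c1.In T ρ xs ys := wd4_in q0 (by decide)
  refine ⟨_, Or.inl rfl, RC.lf6c1 O I, RC.qt6c O I, fun C' hC => ?_, O.hys, O.hxs⟩
  cases C'
  · exact RC.dt6c_a O I
  · exact RC.dt6c_b O I
  all_goals exact RC.dt6c_c O I

theorem po6 {xs ys T ρ xs' T' : ℝ} {C C' : Cl} {s : Bool} {s' : Bool} 
    (hC : C = .one ∨ C = .two ∨ C = .twoE) (hC' : C' = .one ∨ C' = .two ∨ C' = .twoE)
    (q : (rq6 C .one s).Re xs ys T ρ)
    (q' : (rq6 C' .one s').Re xs' ys T' ρ) :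
    PrO 6 C C' xs ys T ρ xs' T' := by
  rcases hC with rfl | rfl | rfl <;> rcases hC' with rfl | rfl | rfl
  · obtain ⟨f, hf, k⟩ := ok6a q
    obtain ⟨f', hf', k'⟩ := ok6a q'
    exact ⟨f, f', hf, hf', k.pr k' trivial trivial t6_cov⟩
  · obtain ⟨f, hf, k⟩ := ok6a q
    obtain ⟨f', hf', k'⟩ := ok6b q'
    exact ⟨f, f', hf, hf', k.pr k' trivial trivial t6_cov⟩
  · obtain ⟨f, hf, k⟩ := ok6a q
    obtain ⟨f', hf', k'⟩ := ok6c q'
    exact ⟨f, f', hf, hf', k.pr k' trivial trivial t6_cov⟩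
  · obtain ⟨f, hf, k⟩ := ok6b q
    obtain ⟨f', hf', k'⟩ := ok6a q'
    exact ⟨f, f', hf, hf', k.pr k' trivial trivial t6_cov⟩
  · obtain ⟨f, hf, k⟩ := ok6b q
    obtain ⟨f', hf', k'⟩ := ok6b q'
    exact ⟨f, f', hf, hf', k.pr k' trivial trivial t6_cov⟩
  · obtain ⟨f, hf, k⟩ := ok6b q
    obtain ⟨f', hf', k'⟩ := ok6c q'
    exact ⟨f, f', hf, hf', k.pr k' trivial trivial t6_cov⟩
  · obtain ⟨f, hf, k⟩ := ok6c q
    obtain ⟨f', hf', k'⟩ := ok6a q'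
    exact ⟨f, f', hf, hf', k.pr k' trivial trivial t6_cov⟩
  · obtain ⟨f, hf, k⟩ := ok6c q
    obtain ⟨f', hf', k'⟩ := ok6b q'
    exact ⟨f, f', hf, hf', k.pr k' trivial trivial t6_cov⟩
  · obtain ⟨f, hf, k⟩ := ok6c q
    obtain ⟨f', hf', k'⟩ := ok6c q'
    exact ⟨f, f', hf, hf', k.pr k' trivial trivial t6_cov⟩

theorem em6a {xs ys T ρ : ℝ} (q : (re6 .one).Re xs ys T ρ) : EnS 6 .one xs ys T ρ := by
  have q0 : (mk4 2188 2723 1343 1628 772 1316 52 328 (-1138) (-564) 4186 4134).Re xs ys T ρ := q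
  have O := q0.oneB RC.Row.cH6 (by decide)
  have I : RC.e6a.In T ρ xs ys := wd4_in q0 (by decide)
  exact ⟨_, Or.inl rfl, RC.en6a O I⟩

theorem em6b {xs ys T ρ : ℝ} (q : (re6 .two).Re xs ys T ρ) : EnS 6 .two xs ys T ρ := by
  have q0 : (mk4 2475 2902 1318 1583 1040 1434 54 311 (-1259) (-849) 4340 4286).Re xs ys T ρ := q
  have O := q0.oneB RC.Row.cH6 (by decide)
  have I : RC.e6b.In T ρ xs ys := wd4_in q0 (by decide)
  rcases le_or_gt xs (2563 / 10000) with hs | hs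
  · have Is : RC.e6bx.In T ρ xs ys := I.cut (n := 2563) (by push_cast; exact hs)
    exact ⟨_, Or.inl rfl, RC.en6bx O I Is⟩
  · exact ⟨_, Or.inr ⟨rfl, hs.le, Or.inr ⟨by decide, q0.tlo5 (by decide), rfl⟩⟩, RC.en6b O I⟩

theorem em6c {xs ys T ρ : ℝ} (q : (re6 .twoE).Re xs ys T ρ) : EnS 6 .twoE xs ys T ρ := by
  have q0 : (mk4 2320 2560 1344 1584 1348 1588 29 269 (-1440) (-1200) 4024 3995).Re xs ys T ρ := q
  have O := q0.oneB RC.Row.cH6 (by decide)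
  have I : RC.e6c.In T ρ xs ys := wd4_in q0 (by decide)
  exact ⟨_, Or.inl rfl, RC.en6c O I⟩

theorem pe6 {xs ys T ρ : ℝ} {C : Cl} (hC : C = .one ∨ C = .two ∨ C = .twoE)
    (q : (re6 C).Re xs ys T ρ) : EnS 6 C xs ys T ρ := by
  rcases hC with rfl | rfl | rfl
  · exact em6a q
  · exact em6b q
  · exact em6c q

end SR

end Pool.Agent.Work.MP_b30479_gt.G2
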