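import Pool.Agent.Work.MP_b30479_gt.G2.RGo7
import Pool.Agent.Work.MP_b30479_gt.G2.RGe7
import Pool.Agent.Work.MP_b30479_gt.G2.RLvlA
import Pool.Agent.Work.MP_b30479_gt.G2.WLocD

/-!
# Rings on the level part: rings between two digits `1`, rings at an end
-/

namespace Pool.Agent.Work.MP_b30479_gt.G2

open Finset VOL Filter Topology

namespace SR

/-- the tables of bounds -/
def t7 : Cl → List RC.Te
  | .one => RC.t7a
  | .two => RC.t7b
  | _ => RC.t7c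

theorem t7_cov (C : Cl) : RC.cov 2500 (t7 C) = true := by
  cases C <;> decide

theorem ok7a {xs ys T ρ : ℝ} (q : (rc7 .one).Re xs ys T ρ) :
    ∃ f, FS 7 .one xs T f ∧ OKt t7 (fun _ => True) .one xs ys T ρ f := by
  have q0 : (mk4 2205 2760 1032 1410 800 1640 104 400 (-1240) (-640) 4070 3966).Re xs ys T ρ := q
  have O := q0.oneB RC.Row.cH8 (by decide)
  have I : RC.o7a1.In T ρ xs ys := wd4_in q0 (by decide)
  refine ⟨_, Or.inl rfl, RC.lf7a1 O I, RC.qt7a O I, fun C' hC => ?_, O.hys, O.hxs⟩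
  cases C'
  · exact RC.dt7a_a O I
  · exact RC.dt7a_b O I
  all_goals exact RC.dt7a_c O I

theorem ok7b {xs ys T ρ : ℝ} (q : (rc7 .two).Re xs ys T ρ) :
    ∃ f, FS 7 .two xs T f ∧ OKt t7 (fun _ => True) .two xs ys T ρ f := by
  have q0 : (mk4 2560 2930 1051 1348 1120 1689 127 379 (-1310) (-950) 4210 4083).Re xs ys T ρ := q
  have O := q0.oneB RC.Row.cH8 (by decide)
  have I : RC.o7b1.In T ρ xs ys := wd4_in q0 (by decide)
  refine ⟨_, Or.inl rfl, RC.lf7b1 O I, RC.qt7b O I, fun C' hC => ?_, O.hys, O.hxs⟩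
  cases C'
  · exact RC.dt7b_a O I
  · exact RC.dt7b_b O I
  all_goals exact RC.dt7b_c O I

theorem ok7c {xs ys T ρ : ℝ} (q : (rc7 .twoE).Re xs ys T ρ) :
    ∃ f, FS 7 .twoE xs T f ∧ OKt t7 (fun _ => True) .twoE xs ys T ρ f := by
  have q0 : (mk4 2425 2545 1070 1337 1450 1788 115 338 (-1450) (-1320) 3870 3755).Re xs ys T ρ := q
  have O := q0.oneB RC.Row.cH8 (by decide)
  have I : RC.o7c1.In T ρ xs ys := wd4_in q0 (by decide)
  refine ⟨_, Or.inl rfl, RC.lf7c1 O I, RC.qt7c O I, fun C' hC => ?_, O.hys, O.hxs⟩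
  cases C'
  · exact RC.dt7c_a O I
  · exact RC.dt7c_b O I
  all_goals exact RC.dt7c_c O I

theorem po7 {xs ys T ρ xs' T' : ℝ} {C C' : Cl} 
    (hC : C = .one ∨ C = .two ∨ C = .twoE) (hC' : C' = .one ∨ C' = .two ∨ C' = .twoE)
    (q : (rc7 C).Re xs ys T ρ)
    (q' : (rc7 C').Re xs' ys T' ρ) :
    PrO 7 C C' xs ys T ρ xs' T' := by
  rcases hC with rfl | rfl | rfl <;> rcases hC' with rfl | rfl | rfl
  · obtain ⟨f, hf, k⟩ := ok7a q
    obtain ⟨f', hf', k'⟩ := ok7a q'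
    exact ⟨f, f', hf, hf', k.pr k' trivial trivial t7_cov⟩
  · obtain ⟨f, hf, k⟩ := ok7a q
    obtain ⟨f', hf', k'⟩ := ok7b q'
    exact ⟨f, f', hf, hf', k.pr k' trivial trivial t7_cov⟩
  · obtain ⟨f, hf, k⟩ := ok7a q
    obtain ⟨f', hf', k'⟩ := ok7c q'
    exact ⟨f, f', hf, hf', k.pr k' trivial trivial t7_cov⟩
  · obtain ⟨f, hf, k⟩ := ok7b q
    obtain ⟨f', hf', k'⟩ := ok7a q'
    exact ⟨f, f', hf, hf', k.pr k' trivial trivial t7_cov⟩
  · obtain ⟨f, hf, k⟩ := ok7b q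
    obtain ⟨f', hf', k'⟩ := ok7b q'
    exact ⟨f, f', hf, hf', k.pr k' trivial trivial t7_cov⟩
  · obtain ⟨f, hf, k⟩ := ok7b q
    obtain ⟨f', hf', k'⟩ := ok7c q'
    exact ⟨f, f', hf, hf', k.pr k' trivial trivial t7_cov⟩
  · obtain ⟨f, hf, k⟩ := ok7c q
    obtain ⟨f', hf', k'⟩ := ok7a q'
    exact ⟨f, f', hf, hf', k.pr k' trivial trivial t7_cov⟩
  · obtain ⟨f, hf, k⟩ := ok7c q
    obtain ⟨f', hf', k'⟩ := ok7b q'
    exact ⟨f, f', hf, hf', k.pr k' trivial trivial t7_cov⟩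
  · obtain ⟨f, hf, k⟩ := ok7c q
    obtain ⟨f', hf', k'⟩ := ok7c q'
    exact ⟨f, f', hf, hf', k.pr k' trivial trivial t7_cov⟩

theorem em7a {xs ys T ρ : ℝ} (q : (re7 .one).Re xs ys T ρ) : EnS 7 .one xs ys T ρ := by
  have q0 : (mk4 2170 2780 1120 1474 731 1369 1 316 (-1235) (-575) 4063 4062).Re xs ys T ρ := q
  have O := q0.oneB RC.Row.cH8 (by decide)
  have I : RC.e7a.In T ρ xs ys := wd4_in q0 (by decide)
  exact ⟨_, Or.inl rfl, RC.en7a O I⟩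

theorem em7b {xs ys T ρ : ℝ} (q : (re7 .two).Re xs ys T ρ) : EnS 7 .two xs ys T ρ := by
  have q0 : (mk4 2494 2920 1141 1400 1054 1454 12 264 (-1322) (-909) 4181 4169).Re xs ys T ρ := q
  have O := q0.oneB RC.Row.cH8 (by decide)
  have I : RC.e7b.In T ρ xs ys := wd4_in q0 (by decide)
  exact ⟨_, Or.inl rfl, RC.en7b O I⟩

theorem em7c {xs ys T ρ : ℝ} (q : (re7 .twoE).Re xs ys T ρ) : EnS 7 .twoE xs ys T ρ := by
  have q0 : (mk4 2291 2611 1119 1439 1329 1649 1 272 (-1537) (-1217) 3890 3889).Re xs ys T ρ := q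
  have O := q0.oneB RC.Row.cH8 (by decide)
  have I : RC.e7c.In T ρ xs ys := wd4_in q0 (by decide)
  exact ⟨_, Or.inl rfl, RC.en7c O I⟩

theorem pe7 {xs ys T ρ : ℝ} {C : Cl} (hC : C = .one ∨ C = .two ∨ C = .twoE)
    (q : (re7 C).Re xs ys T ρ) : EnS 7 C xs ys T ρ := by
  rcases hC with rfl | rfl | rfl
  · exact em7a q
  · exact em7b q
  · exact em7c q

end SR

end Pool.Agent.Work.MP_b30479_gt.G2
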