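import Pool.Agent.Work.MP_b30479_gt.G2.RGn10
import Pool.Agent.Work.MP_b30479_gt.G2.RGn11
import Pool.Agent.Work.MP_b30479_gt.G2.RLvl9

/-!
# Rings on the level part: pairs of hinges
-/

namespace Pool.Agent.Work.MP_b30479_gt.G2

open Real Set

namespace RC

open R6

theorem en8a {xs ys T ρ : ℝ} (O : OneB xs ys T ρ) (I : e8a.In T ρ xs ys) :
    En xs ys T ρ (16 / 100) (36 / 100) (fun _ => 0) (fun _ => 0) :=
  En.of (tab := [⟨2500, 5000, 0, 0, 0, 0, 0⟩])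
    (tab' := [⟨2500, 5000, 0, 0, 0, 0, 0⟩])
    (O.LF I e8a_Wa e8a_Wb hf0)
    (I.dt0 O.GD (fun _ => O.HD) e8a_Qp2500_0_0_0 e8a_Qm2500_0_0_0 rfl DT.nil A16 B36)
    (I.qt O.GD (fun _ => O.HD) e8a_Qp2500_0_0_0 e8a_Qm2500_0_0_0 rfl QT.nil A16 B36)
    (by decide) (by decide) (by decide) O.hys O.hxs

theorem en8b {xs ys T ρ : ℝ} (O : OneB xs ys T ρ) (I : e8b.In T ρ xs ys) :
    En xs ys T ρ (16 / 100) (36 / 100) (fun _ => 0) (fun _ => 0) :=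
  En.of (tab := [⟨2500, 5000, 0, 0, 0, 0, 0⟩])
    (tab' := [⟨2500, 5000, 0, 0, 0, 0, 0⟩])
    (O.LF I e8b_Wa e8b_Wb hf0)
    (I.dt0 O.GD (fun _ => O.HD) e8b_Qp2500_0_0_0 e8b_Qm2500_0_0_0 rfl DT.nil A16 B36)
    (I.qt O.GD (fun _ => O.HD) e8b_Qp2500_0_0_0 e8b_Qm2500_0_0_0 rfl QT.nil A16 B36)
    (by decide) (by decide) (by decide) O.hys O.hxs

theorem en8c {xs ys T ρ : ℝ} (O : OneB xs ys T ρ) (I : e8c.In T ρ xs ys) :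
    En xs ys T ρ (16 / 100) (36 / 100) (fun _ => 0) (fun _ => 0) :=
  En.of (tab := [⟨2500, 5000, 0, 0, 0, 0, 0⟩])
    (tab' := [⟨2500, 5000, 0, 0, 0, 0, 0⟩])
    (O.LF I e8c_Wa e8c_Wb hf0)
    (I.dt0 O.GD (fun _ => O.HD) e8c_Qp2500_0_0_0 e8c_Qm2500_0_0_0 rfl DT.nil A16 B36)
    (I.qt O.GD (fun _ => O.HD) e8c_Qp2500_0_0_0 e8c_Qm2500_0_0_0 rfl QT.nil A16 B36)
    (by decide) (by decide) (by decide) O.hys O.hxs

end RC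

end Pool.Agent.Work.MP_b30479_gt.G2
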