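import Pool.Agent.Work.MP_b30479_gt.G2.RGo8
import Pool.Agent.Work.MP_b30479_gt.G2.RGe8
import Pool.Agent.Work.MP_b30479_gt.G2.RLvlA
import Pool.Agent.Work.MP_b30479_gt.G2.WLocD

/-!
# Rings on the level part: rings between two digits `1`, rings at an end
-/

namespace Pool.Agent.Work.MP_b30479_gt.G2

open Finset VOL Filter Topology

namespace SR

/-- the tables of bounds -/
def t8 : Cl → List RC.Te
  | .one => RC.t8a
  | .two => RC.t8b
  | _ => RC.t8c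

theorem t8_cov (C : Cl) : RC.cov 2500 (t8 C) = true := by
  cases C <;> decide

theorem ok8a {xs ys T ρ : ℝ} (q : (rc8 .one).Re xs ys T ρ) :
    ∃ f, FS 8 .one xs T f ∧ OKt t8 (fun _ => True) .one xs ys T ρ f := by
  have q0 : (mk4 2185 2770 0 1291 685 1710 0 360 (-1350) (-685) 3960 3960).Re xs ys T ρ := q
  have O := q0.oneB RC.Row.cH8 (by decide)
  have I : RC.o8a1.In T ρ xs ys := wd4_in q0 (by decide)
  refine ⟨_, Or.inl rfl, RC.lf8a1 O I, RC.qt8a O I, fun C' hC => ?_, O.hys, O.hxs⟩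
  cases C'
  · exact RC.dt8a_a O I
  · exact RC.dt8a_b O I
  all_goals exact RC.dt8a_c O I

theorem ok8b {xs ys T ρ : ℝ} (q : (rc8 .two).Re xs ys T ρ) :
    ∃ f, FS 8 .two xs T f ∧ OKt t8 (fun _ => True) .two xs ys T ρ f := by
  have q0 : (mk4 2545 2925 0 1201 1000 1796 0 346 (-1450) (-1000) 4080 4080).Re xs ys T ρ := q
  have O := q0.oneB RC.Row.cH8 (by decide)
  have I : RC.o8b1.In T ρ xs ys := wd4_in q0 (by decide)
  refine ⟨_, Or.inl rfl, RC.lf8b1 O I, RC.qt8b O I, fun C' hC => ?_, O.hys, O.hxs⟩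
  cases C'
  · exact RC.dt8b_a O I
  · exact RC.dt8b_b O I
  all_goals exact RC.dt8b_c O I

theorem ok8c {xs ys T ρ : ℝ} (q : (rc8 .twoE).Re xs ys T ρ) :
    ∃ f, FS 8 .twoE xs T f ∧ OKt t8 (fun _ => True) .twoE xs ys T ρ f := by
  have q0 : (mk4 2410 2550 0 1191 1365 1885 0 310 (-1575) (-1365) 3725 3725).Re xs ys T ρ := q
  have O := q0.oneB RC.Row.cH8 (by decide)
  have I : RC.o8c1.In T ρ xs ys := wd4_in q0 (by decide)
  refine ⟨_, Or.inl rfl, RC.lf8c1 O I, RC.qt8c O I, fun C' hC => ?_, O.hys, O.hxs⟩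
  cases C'
  · exact RC.dt8c_a O I
  · exact RC.dt8c_b O I
  all_goals exact RC.dt8c_c O I

theorem po8 {xs ys T ρ xs' T' : ℝ} {C C' : Cl} 
    (hC : C = .one ∨ C = .two ∨ C = .twoE) (hC' : C' = .one ∨ C' = .two ∨ C' = .twoE)
    (q : (rc8 C).Re xs ys T ρ)
    (q' : (rc8 C').Re xs' ys T' ρ) :
    PrO 8 C C' xs ys T ρ xs' T' := by
  rcases hC with rfl | rfl | rfl <;> rcases hC' with rfl | rfl | rfl
  · obtain ⟨f, hf, k⟩ := ok8a q
    obtain ⟨f', hf', k'⟩ := ok8a q'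
    exact ⟨f, f', hf, hf', k.pr k' trivial trivial t8_cov⟩
  · obtain ⟨f, hf, k⟩ := ok8a q
    obtain ⟨f', hf', k'⟩ := ok8b q'
    exact ⟨f, f', hf, hf', k.pr k' trivial trivial t8_cov⟩
  · obtain ⟨f, hf, k⟩ := ok8a q
    obtain ⟨f', hf', k'⟩ := ok8c q'
    exact ⟨f, f', hf, hf', k.pr k' trivial trivial t8_cov⟩
  · obtain ⟨f, hf, k⟩ := ok8b q
    obtain ⟨f', hf', k'⟩ := ok8a q'
    exact ⟨f, f', hf, hf', k.pr k' trivial trivial t8_cov⟩
  · obtain ⟨f, hf, k⟩ := ok8b q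
    obtain ⟨f', hf', k'⟩ := ok8b q'
    exact ⟨f, f', hf, hf', k.pr k' trivial trivial t8_cov⟩
  · obtain ⟨f, hf, k⟩ := ok8b q
    obtain ⟨f', hf', k'⟩ := ok8c q'
    exact ⟨f, f', hf, hf', k.pr k' trivial trivial t8_cov⟩
  · obtain ⟨f, hf, k⟩ := ok8c q
    obtain ⟨f', hf', k'⟩ := ok8a q'
    exact ⟨f, f', hf, hf', k.pr k' trivial trivial t8_cov⟩
  · obtain ⟨f, hf, k⟩ := ok8c q
    obtain ⟨f', hf', k'⟩ := ok8b q'
    exact ⟨f, f', hf, hf', k.pr k' trivial trivial t8_cov⟩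
  · obtain ⟨f, hf, k⟩ := ok8c q
    obtain ⟨f', hf', k'⟩ := ok8c q'
    exact ⟨f, f', hf, hf', k.pr k' trivial trivial t8_cov⟩

theorem em8a {xs ys T ρ : ℝ} (q : (re8 .one).Re xs ys T ρ) : EnS 8 .one xs ys T ρ := by
  have q0 : (mk4 2185 2770 0 1250 685 1522 0 172 (-1350) (-685) 3960 3960).Re xs ys T ρ := q
  have O := q0.oneB RC.Row.cH8 (by decide)
  have I : RC.e8a.In T ρ xs ys := wd4_in q0 (by decide)
  exact ⟨_, Or.inl rfl, RC.en8a O I⟩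

theorem em8b {xs ys T ρ : ℝ} (q : (re8 .two).Re xs ys T ρ) : EnS 8 .two xs ys T ρ := by
  have q0 : (mk4 2545 2925 0 1165 1000 1615 0 165 (-1450) (-1000) 4080 4080).Re xs ys T ρ := q
  have O := q0.oneB RC.Row.cH8 (by decide)
  have I : RC.e8b.In T ρ xs ys := wd4_in q0 (by decide)
  exact ⟨_, Or.inl rfl, RC.en8b O I⟩

theorem em8c {xs ys T ρ : ℝ} (q : (re8 .twoE).Re xs ys T ρ) : EnS 8 .twoE xs ys T ρ := by
  have q0 : (mk4 2410 2550 0 1154 1365 1704 0 129 (-1575) (-1365) 3725 3725).Re xs ys T ρ := q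
  have O := q0.oneB RC.Row.cH8 (by decide)
  have I : RC.e8c.In T ρ xs ys := wd4_in q0 (by decide)
  exact ⟨_, Or.inl rfl, RC.en8c O I⟩

theorem pe8 {xs ys T ρ : ℝ} {C : Cl} (hC : C = .one ∨ C = .two ∨ C = .twoE)
    (q : (re8 C).Re xs ys T ρ) : EnS 8 C xs ys T ρ := by
  rcases hC with rfl | rfl | rfl
  · exact em8a q
  · exact em8b q
  · exact em8c q

end SR

end Pool.Agent.Work.MP_b30479_gt.G2
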