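import Pool.Agent.Work.MP_b30479_gt.G2.RFa
import Pool.Agent.Work.MP_b30479_gt.G2.RGs4
import Pool.Agent.Work.MP_b30479_gt.G2.RGs5
import Pool.Agent.Work.MP_b30479_gt.G2.RGs6
import Pool.Agent.Work.MP_b30479_gt.G2.RGs7
import Pool.Agent.Work.MP_b30479_gt.G2.RGs8

/-!
# Rings in a word: rings between two digits `1`, rings at an end
-/

namespace Pool.Agent.Work.MP_b30479_gt.G2

open Finset VOL Filter Topology

namespace SR

variable {M : ℕ} {b : Fin (M + 1) → ℤ} {zs : DD (tyW b) ⊕ ZZ (tyW b) → ℂ}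
variable {y : DD (tyW b) ⊕ ZZ (tyW b) → ℝ}
variable {h h' h2 h3 : Fin M} {i j k g g' : Fin (M + 1)} {p : Fin 3} {v : ZZ (tyW b)}

theorem FS.mono' {n : ℕ} (hn : 8 ≤ n) {C : Cl} {xs T : ℝ} {f : ℝ → ℝ} (h : FS 8 C xs T f) :
    FS n C xs T f := by
  rcases h with h | ⟨h1, h2, h3⟩
  · exact Or.inl h
  · refine Or.inr ⟨h1, h2, ?_⟩
    rcases h3 with ⟨h3, -⟩ | ⟨-, h4, h5⟩
    · exact absurd h3 (by decide)
    · exact Or.inr ⟨by omega, h4, h5⟩

theorem RFacts.pr2_4 (F : RFacts b zs) (A : Adj h i p j) (A2 : Adj h2 j p g)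
    (A' : Adj h' i p.rev k) (A3 : Adj h3 k p.rev g') (hc : clsW b i = .ring) (hv : v.1 = i)
    (hj : clsW b j = .one) (hk : clsW b k = .one) (hn : (b i).natAbs = 4) (he : isEnd i = false) :
    PrO 4 (clsW b g) (clsW b g') (zs (.inl (.inl h))).re (1 / 2 + ofs (b i) (zs (.inr v)).re)
      (ofs (b i) (zs (.inl (.inl h))).im) (zs (.inr v)).im (zs (.inl (.inl h'))).re
      (ofs (b i) (zs (.inl (.inl h'))).im) := by
  have B : Adj h i p.rev.rev j := by rwa [Fin.rev_rev]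
  have q := (F.w4.own v hv A A2 A' hc hn hj).adj A hv
  have q' := (F.w4.own v hv A' A3 B hc hn hk).adj A' hv
  rw [hk] at q
  rw [hj] at q'
  have E := fun h0 => F.bd4 A A2 A' hc hv hj h0 hn he
  have E' := fun h0 => F.bd4 A' A3 B hc hv hk h0 hn he
  rw [hk] at E
  rw [hj] at E'
  have B3 : Adj h3 k p.rev g' := A3
  exact po4 (cls_behind F.H.hb A A2 hc hj) (cls_behind F.H.hb A' A3 hc hk) q q' E E' fun h0 h1 =>
    ⟨(F.d4.two v hv A A2 A' A3 hc hn hj hk h0 h1).adj A hv,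
      (F.d4.two v hv A' A3 B (by rwa [Fin.rev_rev]) hc hn hk hj h1 h0).adj A' hv⟩

theorem RFacts.pr2_5 (F : RFacts b zs) (A : Adj h i p j) (A2 : Adj h2 j p g)
    (A' : Adj h' i p.rev k) (A3 : Adj h3 k p.rev g') (hc : clsW b i = .ring) (hv : v.1 = i)
    (hj : clsW b j = .one) (hk : clsW b k = .one) (hn : (b i).natAbs = 5) :
    PrO 5 (clsW b g) (clsW b g') (zs (.inl (.inl h))).re (1 / 2 + ofs (b i) (zs (.inr v)).re)
      (ofs (b i) (zs (.inl (.inl h))).im) (zs (.inr v)).im (zs (.inl (.inl h'))).re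
      (ofs (b i) (zs (.inl (.inl h'))).im) := by
  have B : Adj h i p.rev.rev j := by rwa [Fin.rev_rev]
  have q := (F.w5.own v hv A A2 A' hc hn hj).adj A hv
  have q' := (F.w5.own v hv A' A3 B hc hn hk).adj A' hv
  rw [hk] at q
  rw [hj] at q'
  have E := fun h0 => F.bd5 A A2 A' hc hv hj h0 hn
  have E' := fun h0 => F.bd5 A' A3 B hc hv hk h0 hn
  rw [hk] at E
  rw [hj] at E'
  have B3 : Adj h3 k p.rev g' := A3
  exact po5 (cls_behind F.H.hb A A2 hc hj) (cls_behind F.H.hb A' A3 hc hk) q q' E E' fun h0 h1 =>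
    ⟨(F.d5.two v hv A A2 A' A3 hc hn hj hk h0 h1).adj A hv,
      (F.d5.two v hv A' A3 B (by rwa [Fin.rev_rev]) hc hn hk hj h1 h0).adj A' hv⟩

theorem RFacts.pr2_6 (F : RFacts b zs) (A : Adj h i p j) (A2 : Adj h2 j p g)
    (A' : Adj h' i p.rev k) (A3 : Adj h3 k p.rev g') (hc : clsW b i = .ring) (hv : v.1 = i)
    (hj : clsW b j = .one) (hk : clsW b k = .one) (hn : (b i).natAbs = 6) :
    PrO 6 (clsW b g) (clsW b g') (zs (.inl (.inl h))).re (1 / 2 + ofs (b i) (zs (.inr v)).re)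
      (ofs (b i) (zs (.inl (.inl h))).im) (zs (.inr v)).im (zs (.inl (.inl h'))).re
      (ofs (b i) (zs (.inl (.inl h'))).im) := by
  have B : Adj h i p.rev.rev j := by rwa [Fin.rev_rev]
  have q := (F.w6.own v hv A A2 A' hc hn hj).adj A hv
  have q' := (F.w6.own v hv A' A3 B hc hn hk).adj A' hv
  rw [hk] at q
  rw [hj] at q'
  exact po6 (cls_behind F.H.hb A A2 hc hj) (cls_behind F.H.hb A' A3 hc hk) q q'

theorem RFacts.pr2_7 (F : RFacts b zs) (A : Adj h i p j) (A2 : Adj h2 j p g)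
    (A' : Adj h' i p.rev k) (A3 : Adj h3 k p.rev g') (hc : clsW b i = .ring) (hv : v.1 = i)
    (hj : clsW b j = .one) (hk : clsW b k = .one) (hn : (b i).natAbs = 7) :
    PrO 7 (clsW b g) (clsW b g') (zs (.inl (.inl h))).re (1 / 2 + ofs (b i) (zs (.inr v)).re)
      (ofs (b i) (zs (.inl (.inl h))).im) (zs (.inr v)).im (zs (.inl (.inl h'))).re
      (ofs (b i) (zs (.inl (.inl h'))).im) := by
  have B : Adj h i p.rev.rev j := by rwa [Fin.rev_rev]
  have q := (F.c7.own v hv A A2 A' hc hn hj).adj A hv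
  have q' := (F.c7.own v hv A' A3 B hc hn hk).adj A' hv
  exact po7 (cls_behind F.H.hb A A2 hc hj) (cls_behind F.H.hb A' A3 hc hk) q q'

theorem RFacts.pr2_8 (F : RFacts b zs) (A : Adj h i p j) (A2 : Adj h2 j p g)
    (A' : Adj h' i p.rev k) (A3 : Adj h3 k p.rev g') (hc : clsW b i = .ring) (hv : v.1 = i)
    (hj : clsW b j = .one) (hk : clsW b k = .one) (hn : 8 ≤ (b i).natAbs) :
    PrO (b i).natAbs (clsW b g) (clsW b g') (zs (.inl (.inl h))).re (1 / 2 + ofs (b i) (zs (.inr v)).re)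
      (ofs (b i) (zs (.inl (.inl h))).im) (zs (.inr v)).im (zs (.inl (.inl h'))).re
      (ofs (b i) (zs (.inl (.inl h'))).im) := by
  have B : Adj h i p.rev.rev j := by rwa [Fin.rev_rev]
  have q := (F.c8.own v hv A A2 A' hc hn hj).adj A hv
  have q' := (F.c8.own v hv A' A3 B hc hn hk).adj A' hv
  obtain ⟨f, f', hf, hf', P⟩ :=
    po8 (cls_behind F.H.hb A A2 hc hj) (cls_behind F.H.hb A' A3 hc hk) q q'
  exact ⟨f, f', hf.mono' hn, hf'.mono' hn, P⟩

/-- **A ring between two digits `1`.** -/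
theorem RFacts.pr2 (F : RFacts b zs) (A : Adj h i p j) (A2 : Adj h2 j p g)
    (A' : Adj h' i p.rev k) (A3 : Adj h3 k p.rev g') (hc : clsW b i = .ring) (hv : v.1 = i)
    (hj : clsW b j = .one) (hk : clsW b k = .one) (he : isEnd i = false) :
    PrO (b i).natAbs (clsW b g) (clsW b g') (zs (.inl (.inl h))).re (1 / 2 + ofs (b i) (zs (.inr v)).re)
      (ofs (b i) (zs (.inl (.inl h))).im) (zs (.inr v)).im (zs (.inl (.inl h'))).re
      (ofs (b i) (zs (.inl (.inl h'))).im) := by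
  have h4 := ring_four F.H.hb (tyW_of_ring F.H.hb hc)
  rcases h4.eq_or_lt with h | h4
  · rw [← h]
    exact F.pr2_4 A A2 A' A3 hc hv hj hk h.symm he
  rcases (Nat.succ_le_of_lt h4).eq_or_lt with h | h4
  · rw [← h]
    exact F.pr2_5 A A2 A' A3 hc hv hj hk h.symm
  rcases (Nat.succ_le_of_lt h4).eq_or_lt with h | h4
  · rw [← h]
    exact F.pr2_6 A A2 A' A3 hc hv hj hk h.symm
  rcases (Nat.succ_le_of_lt h4).eq_or_lt with h | h4
  · rw [← h]
    exact F.pr2_7 A A2 A' A3 hc hv hj hk h.symm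
  exact F.pr2_8 A A2 A' A3 hc hv hj hk h4

theorem RFacts.en1_4 (F : RFacts b zs) (A : Adj h i p j) (A2 : Adj h2 j p g) (hc : clsW b i = .ring)
    (hv : v.1 = i) (hj : clsW b j = .one) (he : isEnd i = true) (hn : (b i).natAbs = 4) :
    EnS 4 (clsW b g) (zs (.inl (.inl h))).re (1 / 2 + ofs (b i) (zs (.inr v)).re)
      (ofs (b i) (zs (.inl (.inl h))).im) (zs (.inr v)).im := by
  have q := (F.w4.fin v hv A A2 he hc hn hj).adj A hv
  refine pe4 (cls_behind F.H.hb A A2 hc hj) q fun h0 => ?_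
  have A2' : Adj h2 j p.rev.rev g := by rwa [Fin.rev_rev]
  obtain ⟨W, hW, hI⟩ := F.H.hG.one v hv A.symm A2' hj (Or.inl hn)
  rw [hn, he, h0] at hW
  rw [h0] at q
  have q0 : (mk4 2480 2791 1927 2094 1031 1280 293 449 (-927) (-642) 4778 4485).Re
      (zs (.inl (.inl h))).re (1 / 2 + ofs (b i) (zs (.inr v)).re)
      (ofs (b i) (zs (.inl (.inl h))).im) (zs (.inr v)).im := q
  obtain ⟨i1, i2, i3, i4, i5, i6, i7⟩ := hI
  simp only [ofr_re, ofr_im, ofz_re, ofz_im] at i1 i2 i3 i4 i5 i6 i7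
  simp only [rw1, List.mem_cons, List.not_mem_nil, or_false] at hW
  rcases hW with rfl | rfl
  · left
    refine ⟨?_, ?_, ?_, ?_, ?_, ?_, q0.r0, q0.r1, q0.t0, q0.t1, ?_, q0.cr⟩ <;> simp only [mk4] <;>
      push_cast <;> linarith
  · right
    refine ⟨?_, ?_, ?_, ?_, ?_, ?_, q0.r0, q0.r1, q0.t0, q0.t1, ?_, q0.cr⟩ <;> simp only [mk4] <;>
      push_cast <;> linarith

theorem RFacts.en1_5 (F : RFacts b zs) (A : Adj h i p j) (A2 : Adj h2 j p g) (hc : clsW b i = .ring)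
    (hv : v.1 = i) (hj : clsW b j = .one) (he : isEnd i = true) (hn : (b i).natAbs = 5) :
    EnS 5 (clsW b g) (zs (.inl (.inl h))).re (1 / 2 + ofs (b i) (zs (.inr v)).re)
      (ofs (b i) (zs (.inl (.inl h))).im) (zs (.inr v)).im := by
  have q := (F.w5.fin v hv A A2 he hc hn hj).adj A hv
  exact pe5 (cls_behind F.H.hb A A2 hc hj) q

theorem RFacts.en1_6 (F : RFacts b zs) (A : Adj h i p j) (A2 : Adj h2 j p g) (hc : clsW b i = .ring)
    (hv : v.1 = i) (hj : clsW b j = .one) (he : isEnd i = true) (hn : (b i).natAbs = 6) :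
    EnS 6 (clsW b g) (zs (.inl (.inl h))).re (1 / 2 + ofs (b i) (zs (.inr v)).re)
      (ofs (b i) (zs (.inl (.inl h))).im) (zs (.inr v)).im := by
  have q := (F.w6.fin v hv A A2 he hc hn hj).adj A hv
  exact pe6 (cls_behind F.H.hb A A2 hc hj) q

theorem RFacts.en1_7 (F : RFacts b zs) (A : Adj h i p j) (A2 : Adj h2 j p g) (hc : clsW b i = .ring)
    (hv : v.1 = i) (hj : clsW b j = .one) (he : isEnd i = true) (hn : (b i).natAbs = 7) :
    EnS 7 (clsW b g) (zs (.inl (.inl h))).re (1 / 2 + ofs (b i) (zs (.inr v)).re)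
      (ofs (b i) (zs (.inl (.inl h))).im) (zs (.inr v)).im := by
  have q := (F.c7.fin v hv A A2 he hc hn hj).adj A hv
  exact pe7 (cls_behind F.H.hb A A2 hc hj) q

theorem RFacts.en1_8 (F : RFacts b zs) (A : Adj h i p j) (A2 : Adj h2 j p g) (hc : clsW b i = .ring)
    (hv : v.1 = i) (hj : clsW b j = .one) (he : isEnd i = true) (hn : 8 ≤ (b i).natAbs) :
    EnS (b i).natAbs (clsW b g) (zs (.inl (.inl h))).re (1 / 2 + ofs (b i) (zs (.inr v)).re)
      (ofs (b i) (zs (.inl (.inl h))).im) (zs (.inr v)).im := by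
  have q := (F.c8.fin v hv A A2 he hc hn hj).adj A hv
  obtain ⟨f, hf, P⟩ := pe8 (cls_behind F.H.hb A A2 hc hj) q
  exact ⟨f, hf.mono' hn, P⟩

/-- **A ring at an end next to a digit `1`.** -/
theorem RFacts.en1 (F : RFacts b zs) (A : Adj h i p j) (A2 : Adj h2 j p g) (hc : clsW b i = .ring)
    (hv : v.1 = i) (hj : clsW b j = .one) (he : isEnd i = true) :
    EnS (b i).natAbs (clsW b g) (zs (.inl (.inl h))).re (1 / 2 + ofs (b i) (zs (.inr v)).re)
      (ofs (b i) (zs (.inl (.inl h))).im) (zs (.inr v)).im := by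
  have h4 := ring_four F.H.hb (tyW_of_ring F.H.hb hc)
  rcases h4.eq_or_lt with h | h4
  · rw [← h]
    exact F.en1_4 A A2 hc hv hj he h.symm
  rcases (Nat.succ_le_of_lt h4).eq_or_lt with h | h4
  · rw [← h]
    exact F.en1_5 A A2 hc hv hj he h.symm
  rcases (Nat.succ_le_of_lt h4).eq_or_lt with h | h4
  · rw [← h]
    exact F.en1_6 A A2 hc hv hj he h.symm
  rcases (Nat.succ_le_of_lt h4).eq_or_lt with h | h4
  · rw [← h]
    exact F.en1_7 A A2 hc hv hj he h.symm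
  exact F.en1_8 A A2 hc hv hj he h4

end SR

end Pool.Agent.Work.MP_b30479_gt.G2
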