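import Pool.Agent.Work.MP_b30479_gt.G2.RGwin2

/-!
# Rings on the level part: certificates of rows
-/

namespace Pool.Agent.Work.MP_b30479_gt.G2

open Real Set

namespace RC

open R6

theorem o42_Qm2700_30_0_0_0 : Bx ⟨false, 2, 0, 30, 0, 0, 0, 0, 0, [⟨1, 0, 0, 1, 0, 0, 0, 0, 0, 1110⟩, ⟨0, 1, 1, 0, 0, 0, 0, 0, 1270, 0⟩, ⟨0, 0, 0, 0, 1, 0, 0, 1, 0, 1070⟩, ⟨0, 0, 0, 1, 1, 0, 0, 1, 0, 1300⟩]⟩ 990 1150 180 320 1590 1750 2740 2900 1250 1750 2700 2900 :=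
  Bx.of (by decide) (fuel := 18) (cd := 0xd5aba060daff6ad40820857f95fe101040ad5aff6bfc20208d7fb504100850615aba6a15d0306d7fb50411aff6a082016ad41832bfcaff08082356a03fb56a03f840411aff6bfc20208041850a01b356a01ab50055a956a0cab506002830a14202fffdcff0413f830bfdab5740c1b56a01a832a540356a05ab500d40800614282fe101046ae9a8506d5a802bfcaff08082056bfda82080c2bd02d5aba060daff6a08215fe57f8404102b56bfda8208d7fb5041008506140366ad4a856a0c2bd02d5a950ad4185001017ffee7fff000827f0617fb56a542b50615e816ad4a856a0c28005fc2020805aba6a15d0306d7fb5fe101046bfda820805ab5020caff2bfc20208d4a857e0da82fffda82fe101046ad407f6bfc20208041850ad5d350ae81836bfda8208f8035fed410402d5a836a04195fe57f840411aff6a082156a0ff956a0ff8404102be00d7fb50410a9504d41ff2ad41ff0808205020c28500d9ab5740c1956ad40036a0cab56a01a816a55ab5020c280061428405fff80fed5aba060da956ad40030ad5a800654a806ad5ab50201ab500042be6af80016ad5a8100040030a1417f08082356ae81836bfdab50208215fe57f8404102b56bfdaff0808235fed410402141856ad5d0306d7fb56a041046ad41832bfcaff08082356a03fb5fe101046bfdaff080820106142806cd5a806ad40156ad5a81000c285080bfff03fc07f6ad5a8100d5ab50600a9500d5a816ad40800614282fe101040201cb9fffc0390809c8404e4204)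
    (by decide +kernel)

theorem o42_Qm2700_30_0_0 : o42.R (cQ false 30 0 0) 1250 1750 2700 2900 := by
  have h : Bx ⟨false, 2, 0, 30, 0, 0, 0, 0, 0, [⟨1, 0, 0, 1, 0, 0, 0, 0, 0, 1110⟩, ⟨0, 1, 1, 0, 0, 0, 0, 0, 1270, 0⟩, ⟨0, 0, 0, 0, 1, 0, 0, 1, 0, 1070⟩, ⟨0, 0, 0, 1, 1, 0, 0, 1, 0, 1300⟩]⟩ 990 1150 180 320 1590 1750 2740 2900 1250 1750 2700 2900 := o42_Qm2700_30_0_0_0
  exact h

end RC

end Pool.Agent.Work.MP_b30479_gt.G2
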