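import Pool.Agent.Work.MP_b30479_gt.G2.RGn11
import Pool.Agent.Work.MP_b30479_gt.G2.RGn12
import Pool.Agent.Work.MP_b30479_gt.G2.RLvl9

/-!
# Rings on the level part: pairs of hinges
-/

namespace Pool.Agent.Work.MP_b30479_gt.G2

open Real Set

namespace RC

open R6

theorem en42 {xs ys T ρ : ℝ} (G : GD xs ys (125 / 1000) (30 / 100))
    (hU : ∀ x y, x ∈ Icc (125 / 1000 : ℝ) (30 / 100) → ys < y → y ≤ 1 / 2 →
      |gh x - gh xs| < gh y - gh ys → Dx x y T ρ < Dx xs ys T ρ)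
    (I : o42.In T ρ xs ys) (hys : ys ∈ Ioc (1 / 4 : ℝ) (1 / 2))
    (hx : xs ∈ Icc (125 / 1000 : ℝ) (30 / 100)) :
    En xs ys T ρ (125 / 1000) (30 / 100) (fun _ => 0) (fun m => 1 / 2 * m) :=
  En.of (tab := [⟨2500, 2600, 0, 0, 0, 0, 0⟩, ⟨2600, 2700, 0, 0, 0, 0, 0⟩, ⟨2700, 5000, 0, 0, 0, 0, 0⟩])
    (tab' := [⟨2500, 2600, 160, 0, 0, 0, 0⟩, ⟨2600, 2700, 160, 0, 0, 0, 0⟩, ⟨2700, 5000, 30, 0, 0, 0, 0⟩])
    (I.LF0 G hU o42_Wp o42_Wm hf0 hf50 A12 B30)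
    (I.dt G (fun h => absurd rfl h) o42_Dp2500_0_0_0 o42_Dm2500_0_0_0 rfl hf0 hf50
      (I.dt G (fun h => absurd rfl h) o42_Dp2600_0_0_0 o42_Dm2600_0_0_0 rfl hf0 hf50
      (I.dt G (fun h => absurd rfl h) o42_Dp2700_0_0_0 o42_Dm2700_0_0_0 rfl hf0 hf50
      DT.nil A12 B30) A12 B30) A12 B30)
    (I.qt G (fun h => absurd rfl h) o42_Qp2500_160_0_0 o42_Qm2500_160_0_0 rfl
      (I.qt G (fun h => absurd rfl h) o42_Qp2600_160_0_0 o42_Qm2600_160_0_0 rfl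
      (I.qt G (fun h => absurd rfl h) o42_Qp2700_30_0_0 o42_Qm2700_30_0_0 rfl
      QT.nil A12 B30) A12 B30) A12 B30)
    (by decide) (by decide) (by decide) hys hx

end RC

end Pool.Agent.Work.MP_b30479_gt.G2
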