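import Pool.Agent.Work.MP_b30479_gt.G2.RGn01
import Pool.Agent.Work.MP_b30479_gt.G2.RGn02
import Pool.Agent.Work.MP_b30479_gt.G2.RGn03
import Pool.Agent.Work.MP_b30479_gt.G2.RGn04
import Pool.Agent.Work.MP_b30479_gt.G2.RGn05
import Pool.Agent.Work.MP_b30479_gt.G2.RGn06
import Pool.Agent.Work.MP_b30479_gt.G2.RGn07
import Pool.Agent.Work.MP_b30479_gt.G2.RLvl7

/-!
# Rings on the level part: pairs of hinges
-/

namespace Pool.Agent.Work.MP_b30479_gt.G2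

open Real Set

namespace RC

open R6

theorem pr222 {xs ys T ρ xs' T' : ℝ} (G : GD xs ys (125 / 1000) (30 / 100))
    (hU : ∀ x y, x ∈ Icc (125 / 1000 : ℝ) (30 / 100) → ys < y → y ≤ 1 / 2 →
      |gh x - gh xs| < gh y - gh ys → Dx x y T ρ < Dx xs ys T ρ)
    (I : o222.In T ρ xs ys) (hys : ys ∈ Ioc (1 / 4 : ℝ) (1 / 2))
    (hx : xs ∈ Icc (125 / 1000 : ℝ) (30 / 100)) (H : HD xs' ys T' ρ (125 / 1000) (30 / 100))
    (l : LH xs' ys T' ρ (125 / 1000) (30 / 100)) (d : DnG xs' T' (125 / 1000) (30 / 100) ys ρ) (I' : p222.In T' ρ xs' ys)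
    (hx' : xs' ∈ Icc (125 / 1000) (30 / 100)) :
    Pr ys ρ xs T (125 / 1000) (30 / 100) (fun _ => 0) (fun m => 1 / 2 * m) xs' T' (125 / 1000) (30 / 100)
      (fun _ => 0) (fun _ => 0) :=
  Pr.of (tab := [⟨2500, 5000, 0, 0, 0, 0, 0⟩])
    (tab' := [⟨2500, 2600, 30, 50, 0, 0, 0⟩, ⟨2600, 2700, 30, 50, 0, 0, 0⟩, ⟨2700, 2800, 30, 50, 0, 0, 0⟩, ⟨2800, 3000, 30, 20, 0, 0, 0⟩, ⟨3000, 5000, 30, 50, 0, 0, 0⟩])
    (I.LF0 G hU o222_Wp o222_Wm hf0 hf50 A12 B30) (l.toF hz0 hz0 (by norm_num) (by norm_num))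
    (I.dt G (fun h => absurd rfl h) o222_Dp2500_0_0_0 o222_Dm2500_0_0_0 rfl hf0 hf50 DT.nil A12 B30)
    (d.qt QT.nil)
    (I'.dt H.toGD (fun _ => H) p222_Dp2500_30_50_0 p222_Dm2500_30_50_0 rfl hf0 hf0
      (I'.dt H.toGD (fun _ => H) p222_Dp2600_30_50_0 p222_Dm2600_30_50_0 rfl hf0 hf0
      (I'.dt H.toGD (fun _ => H) p222_Dp2700_30_50_0 p222_Dm2700_30_50_0 rfl hf0 hf0
      (I'.dt H.toGD (fun _ => H) p222_Dp2800_30_20_0 p222_Dm2800_30_20_0 rfl hf0 hf0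
      (I'.dt H.toGD (fun _ => H) p222_Dp3000_30_50_0 p222_Dm3000_30_50_0 rfl hf0 hf0
      DT.nil A12 B30) A12 B30) A12 B30) A12 B30) A12 B30)
    (I.qt G (fun h => absurd rfl h) o222_Qp2500_30_50_0 o222_Qm2500_30_50_0 rfl
      (I.qt G (fun h => absurd rfl h) o222_Qp2600_30_50_0 o222_Qm2600_30_50_0 rfl
      (I.qt G (fun h => absurd rfl h) o222_Qp2700_30_50_0 o222_Qm2700_30_50_0 rfl
      (I.qt G (fun h => absurd rfl h) o222_Qp2800_30_20_0 o222_Qm2800_30_20_0 rfl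
      (I.qt G (fun h => absurd rfl h) o222_Qp3000_30_50_0 o222_Qm3000_30_50_0 rfl
      QT.nil A12 B30) A12 B30) A12 B30) A12 B30) A12 B30)
    (by decide) (by decide) hys hx hx'

theorem pr222e {xs ys T ρ xs' T' : ℝ} (G : GD xs ys (125 / 1000) (30 / 100))
    (hU : ∀ x y, x ∈ Icc (125 / 1000 : ℝ) (30 / 100) → ys < y → y ≤ 1 / 2 →
      |gh x - gh xs| < gh y - gh ys → Dx x y T ρ < Dx xs ys T ρ)
    (I : o222e.In T ρ xs ys) (hys : ys ∈ Ioc (1 / 4 : ℝ) (1 / 2))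
    (hx : xs ∈ Icc (125 / 1000 : ℝ) (30 / 100)) (G' : GD xs' ys (125 / 1000) (30 / 100))
    (hU' : ∀ x y, x ∈ Icc (125 / 1000 : ℝ) (30 / 100) → ys < y → y ≤ 1 / 2 →
      |gh x - gh xs'| < gh y - gh ys → Dx x y T' ρ < Dx xs' ys T' ρ)
    (I' : o222e.In T' ρ xs' ys) (hx' : xs' ∈ Icc (125 / 1000 : ℝ) (30 / 100)) :
    Pr ys ρ xs T (125 / 1000) (30 / 100) (fun _ => 0) (fun m => 1 / 2 * m) xs' T'
      (125 / 1000) (30 / 100) (fun _ => 0) (fun m => 1 / 2 * m) :=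
  Pr.of (tab := [⟨2500, 2600, 30, 20, 0, 0, 0⟩, ⟨2600, 2700, 30, 0, 0, 0, 0⟩, ⟨2700, 2800, 30, 0, 0, 0, 0⟩, ⟨2800, 3000, 30, 20, 0, 0, 0⟩, ⟨3000, 5000, 30, 50, 0, 0, 0⟩])
    (tab' := [⟨2500, 2600, 30, 20, 0, 0, 0⟩, ⟨2600, 2700, 30, 0, 0, 0, 0⟩, ⟨2700, 2800, 30, 0, 0, 0, 0⟩, ⟨2800, 3000, 30, 20, 0, 0, 0⟩, ⟨3000, 5000, 30, 50, 0, 0, 0⟩])
    (I.LF0 G hU o222e_Wp o222e_Wm hf0 hf50 A12 B30) (I'.LF0 G' hU' o222e_Wp o222e_Wm hf0 hf50 A12 B30)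
    (I.dt G (fun h => absurd rfl h) o222e_Dp2500_30_20_0 o222e_Dm2500_30_20_0 rfl hf0 hf50
      (I.dt G (fun h => absurd rfl h) o222e_Dp2600_30_0_0 o222e_Dm2600_30_0_0 rfl hf0 hf50
      (I.dt G (fun h => absurd rfl h) o222e_Dp2700_30_0_0 o222e_Dm2700_30_0_0 rfl hf0 hf50
      (I.dt G (fun h => absurd rfl h) o222e_Dp2800_30_20_0 o222e_Dm2800_30_20_0 rfl hf0 hf50
      (I.dt G (fun h => absurd rfl h) o222e_Dp3000_30_50_0 o222e_Dm3000_30_50_0 rfl hf0 hf50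
      DT.nil A12 B30) A12 B30) A12 B30) A12 B30) A12 B30)
    (I'.qt G' (fun h => absurd rfl h) o222e_Qp2500_30_20_0 o222e_Qm2500_30_20_0 rfl
      (I'.qt G' (fun h => absurd rfl h) o222e_Qp2600_30_0_0 o222e_Qm2600_30_0_0 rfl
      (I'.qt G' (fun h => absurd rfl h) o222e_Qp2700_30_0_0 o222e_Qm2700_30_0_0 rfl
      (I'.qt G' (fun h => absurd rfl h) o222e_Qp2800_30_20_0 o222e_Qm2800_30_20_0 rfl
      (I'.qt G' (fun h => absurd rfl h) o222e_Qp3000_30_50_0 o222e_Qm3000_30_50_0 rfl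
      QT.nil A12 B30) A12 B30) A12 B30) A12 B30) A12 B30)
    (I'.dt G' (fun h => absurd rfl h) o222e_Dp2500_30_20_0 o222e_Dm2500_30_20_0 rfl hf0 hf50
      (I'.dt G' (fun h => absurd rfl h) o222e_Dp2600_30_0_0 o222e_Dm2600_30_0_0 rfl hf0 hf50
      (I'.dt G' (fun h => absurd rfl h) o222e_Dp2700_30_0_0 o222e_Dm2700_30_0_0 rfl hf0 hf50
      (I'.dt G' (fun h => absurd rfl h) o222e_Dp2800_30_20_0 o222e_Dm2800_30_20_0 rfl hf0 hf50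
      (I'.dt G' (fun h => absurd rfl h) o222e_Dp3000_30_50_0 o222e_Dm3000_30_50_0 rfl hf0 hf50
      DT.nil A12 B30) A12 B30) A12 B30) A12 B30) A12 B30)
    (I.qt G (fun h => absurd rfl h) o222e_Qp2500_30_20_0 o222e_Qm2500_30_20_0 rfl
      (I.qt G (fun h => absurd rfl h) o222e_Qp2600_30_0_0 o222e_Qm2600_30_0_0 rfl
      (I.qt G (fun h => absurd rfl h) o222e_Qp2700_30_0_0 o222e_Qm2700_30_0_0 rfl
      (I.qt G (fun h => absurd rfl h) o222e_Qp2800_30_20_0 o222e_Qm2800_30_20_0 rfl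
      (I.qt G (fun h => absurd rfl h) o222e_Qp3000_30_50_0 o222e_Qm3000_30_50_0 rfl
      QT.nil A12 B30) A12 B30) A12 B30) A12 B30) A12 B30)
    (by decide) (by decide) hys hx hx'

theorem pr223 {xs ys T ρ xs' T' : ℝ} (G : GD xs ys (125 / 1000) (30 / 100))
    (hU : ∀ x y, x ∈ Icc (125 / 1000 : ℝ) (30 / 100) → ys < y → y ≤ 1 / 2 →
      |gh x - gh xs| < gh y - gh ys → Dx x y T ρ < Dx xs ys T ρ)
    (I : o223.In T ρ xs ys) (hys : ys ∈ Ioc (1 / 4 : ℝ) (1 / 2))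
    (hx : xs ∈ Icc (125 / 1000 : ℝ) (30 / 100)) (H : HD xs' ys T' ρ (12 / 100) (30 / 100))
    (l : LH xs' ys T' ρ (12 / 100) (30 / 100)) (d : DnG xs' T' (12 / 100) (30 / 100) ys ρ) (I' : p223.In T' ρ xs' ys)
    (hx' : xs' ∈ Icc (12 / 100) (30 / 100)) :
    Pr ys ρ xs T (125 / 1000) (30 / 100) (fun _ => 0) (fun m => 1 / 2 * m) xs' T' (12 / 100) (30 / 100)
      (fun _ => 0) (fun _ => 0) :=
  Pr.of (tab := [⟨2500, 5000, 0, 0, 0, 0, 0⟩])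
    (tab' := [⟨2500, 2600, 30, 20, 0, 0, 0⟩, ⟨2600, 2700, 30, 0, 0, 0, 0⟩, ⟨2700, 2800, 30, 20, 0, 0, 0⟩, ⟨2800, 3000, 30, 20, 0, 0, 0⟩, ⟨3000, 5000, 30, 50, 0, 0, 0⟩])
    (I.LF0 G hU o223_Wp o223_Wm hf0 hf50 A12 B30) (l.toF hz0 hz0 (by norm_num) (by norm_num))
    (I.dt G (fun h => absurd rfl h) o223_Dp2500_0_0_0 o223_Dm2500_0_0_0 rfl hf0 hf50 DT.nil A12 B30)
    (d.qt QT.nil)
    (I'.dt H.toGD (fun _ => H) p223_Dp2500_30_20_0 p223_Dm2500_30_20_0 rfl hf0 hf0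
      (I'.dt H.toGD (fun _ => H) p223_Dp2600_30_0_0 p223_Dm2600_30_0_0 rfl hf0 hf0
      (I'.dt H.toGD (fun _ => H) p223_Dp2700_30_20_0 p223_Dm2700_30_20_0 rfl hf0 hf0
      (I'.dt H.toGD (fun _ => H) p223_Dp2800_30_20_0 p223_Dm2800_30_20_0 rfl hf0 hf0
      (I'.dt H.toGD (fun _ => H) p223_Dp3000_30_50_0 p223_Dm3000_30_50_0 rfl hf0 hf0
      DT.nil A120 B30) A120 B30) A120 B30) A120 B30) A120 B30)
    (I.qt G (fun h => absurd rfl h) o223_Qp2500_30_20_0 o223_Qm2500_30_20_0 rfl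
      (I.qt G (fun h => absurd rfl h) o223_Qp2600_30_0_0 o223_Qm2600_30_0_0 rfl
      (I.qt G (fun h => absurd rfl h) o223_Qp2700_30_20_0 o223_Qm2700_30_20_0 rfl
      (I.qt G (fun h => absurd rfl h) o223_Qp2800_30_20_0 o223_Qm2800_30_20_0 rfl
      (I.qt G (fun h => absurd rfl h) o223_Qp3000_30_50_0 o223_Qm3000_30_50_0 rfl
      QT.nil A12 B30) A12 B30) A12 B30) A12 B30) A12 B30)
    (by decide) (by decide) hys hx hx'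

theorem pr223e {xs ys T ρ xs' T' : ℝ} (G : GD xs ys (125 / 1000) (30 / 100))
    (hU : ∀ x y, x ∈ Icc (125 / 1000 : ℝ) (30 / 100) → ys < y → y ≤ 1 / 2 →
      |gh x - gh xs| < gh y - gh ys → Dx x y T ρ < Dx xs ys T ρ)
    (I : o223e.In T ρ xs ys) (hys : ys ∈ Ioc (1 / 4 : ℝ) (1 / 2))
    (hx : xs ∈ Icc (125 / 1000 : ℝ) (30 / 100)) (H : HD xs' ys T' ρ (10 / 100) (26 / 100))
    (l : LH xs' ys T' ρ (10 / 100) (26 / 100)) (d : DnG xs' T' (10 / 100) (26 / 100) ys ρ) (I' : p223e.In T' ρ xs' ys)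
    (hx' : xs' ∈ Icc (10 / 100) (26 / 100)) :
    Pr ys ρ xs T (125 / 1000) (30 / 100) (fun _ => 0) (fun m => 1 / 2 * m) xs' T' (10 / 100) (26 / 100)
      (fun _ => 0) (fun _ => 0) :=
  Pr.of (tab := [⟨2500, 5000, 0, 0, 0, 0, 0⟩])
    (tab' := [⟨2500, 2600, 30, 0, 0, 0, 0⟩, ⟨2600, 2700, 30, 0, 0, 0, 0⟩, ⟨2700, 2800, 30, 0, 0, 0, 0⟩, ⟨2800, 3000, 30, 20, 0, 0, 0⟩, ⟨3000, 5000, 30, 50, 0, 0, 0⟩])
    (I.LF0 G hU o223e_Wp o223e_Wm hf0 hf50 A12 B30) (l.toF hz0 hz0 (by norm_num) (by norm_num))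
    (I.dt G (fun h => absurd rfl h) o223e_Dp2500_0_0_0 o223e_Dm2500_0_0_0 rfl hf0 hf50 DT.nil A12 B30)
    (d.qt QT.nil)
    (I'.dt H.toGD (fun _ => H) p223e_Dp2500_30_0_0 p223e_Dm2500_30_0_0 rfl hf0 hf0
      (I'.dt H.toGD (fun _ => H) p223e_Dp2600_30_0_0 p223e_Dm2600_30_0_0 rfl hf0 hf0
      (I'.dt H.toGD (fun _ => H) p223e_Dp2700_30_0_0 p223e_Dm2700_30_0_0 rfl hf0 hf0
      (I'.dt H.toGD (fun _ => H) p223e_Dp2800_30_20_0 p223e_Dm2800_30_20_0 rfl hf0 hf0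
      (I'.dt H.toGD (fun _ => H) p223e_Dp3000_30_50_0 p223e_Dm3000_30_50_0 rfl hf0 hf0
      DT.nil A10 B26) A10 B26) A10 B26) A10 B26) A10 B26)
    (I.qt G (fun h => absurd rfl h) o223e_Qp2500_30_0_0 o223e_Qm2500_30_0_0 rfl
      (I.qt G (fun h => absurd rfl h) o223e_Qp2600_30_0_0 o223e_Qm2600_30_0_0 rfl
      (I.qt G (fun h => absurd rfl h) o223e_Qp2700_30_0_0 o223e_Qm2700_30_0_0 rfl
      (I.qt G (fun h => absurd rfl h) o223e_Qp2800_30_20_0 o223e_Qm2800_30_20_0 rfl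
      (I.qt G (fun h => absurd rfl h) o223e_Qp3000_30_50_0 o223e_Qm3000_30_50_0 rfl
      QT.nil A12 B30) A12 B30) A12 B30) A12 B30) A12 B30)
    (by decide) (by decide) hys hx hx'

theorem pr22Z {xs ys T ρ xs' T' : ℝ} (G : GD xs ys (125 / 1000) (30 / 100))
    (hU : ∀ x y, x ∈ Icc (125 / 1000 : ℝ) (30 / 100) → ys < y → y ≤ 1 / 2 →
      |gh x - gh xs| < gh y - gh ys → Dx x y T ρ < Dx xs ys T ρ)
    (I : o22Z.In T ρ xs ys) (hys : ys ∈ Ioc (1 / 4 : ℝ) (1 / 2))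
    (hx : xs ∈ Icc (125 / 1000 : ℝ) (30 / 100)) (H : HD xs' ys T' ρ (10 / 100) (27 / 100))
    (l : LH xs' ys T' ρ (10 / 100) (27 / 100)) (d : DnG xs' T' (10 / 100) (27 / 100) ys ρ) (I' : p22Z.In T' ρ xs' ys)
    (hx' : xs' ∈ Icc (10 / 100) (27 / 100)) :
    Pr ys ρ xs T (125 / 1000) (30 / 100) (fun _ => 0) (fun m => 1 / 2 * m) xs' T' (10 / 100) (27 / 100)
      (fun _ => 0) (fun _ => 0) :=
  Pr.of (tab := [⟨2500, 5000, 0, 0, 0, 0, 0⟩])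
    (tab' := [⟨2500, 2600, 30, 50, 0, 0, 0⟩, ⟨2600, 2700, 30, 50, 0, 0, 0⟩, ⟨2700, 2800, 30, 20, 0, 0, 0⟩, ⟨2800, 2900, 30, 20, 0, 0, 0⟩, ⟨2900, 3000, 30, 50, 0, 0, 0⟩, ⟨3000, 5000, 30, 50, 0, 0, 0⟩])
    (I.LF0 G hU o22Z_Wp o22Z_Wm hf0 hf50 A12 B30) (l.toF hz0 hz0 (by norm_num) (by norm_num))
    (I.dt G (fun h => absurd rfl h) o22Z_Dp2500_0_0_0 o22Z_Dm2500_0_0_0 rfl hf0 hf50 DT.nil A12 B30)
    (d.qt QT.nil)
    (I'.dt H.toGD (fun _ => H) p22Z_Dp2500_30_50_0 p22Z_Dm2500_30_50_0 rfl hf0 hf0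
      (I'.dt H.toGD (fun _ => H) p22Z_Dp2600_30_50_0 p22Z_Dm2600_30_50_0 rfl hf0 hf0
      (I'.dt H.toGD (fun _ => H) p22Z_Dp2700_30_20_0 p22Z_Dm2700_30_20_0 rfl hf0 hf0
      (I'.dt H.toGD (fun _ => H) p22Z_Dp2800_30_20_0 p22Z_Dm2800_30_20_0 rfl hf0 hf0
      (I'.dt H.toGD (fun _ => H) p22Z_Dp2900_30_50_0 p22Z_Dm2900_30_50_0 rfl hf0 hf0
      (I'.dt H.toGD (fun _ => H) p22Z_Dp3000_30_50_0 p22Z_Dm3000_30_50_0 rfl hf0 hf0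
      DT.nil A10 B27) A10 B27) A10 B27) A10 B27) A10 B27) A10 B27)
    (I.qt G (fun h => absurd rfl h) o22Z_Qp2500_30_50_0 o22Z_Qm2500_30_50_0 rfl
      (I.qt G (fun h => absurd rfl h) o22Z_Qp2600_30_50_0 o22Z_Qm2600_30_50_0 rfl
      (I.qt G (fun h => absurd rfl h) o22Z_Qp2700_30_20_0 o22Z_Qm2700_30_20_0 rfl
      (I.qt G (fun h => absurd rfl h) o22Z_Qp2800_30_20_0 o22Z_Qm2800_30_20_0 rfl
      (I.qt G (fun h => absurd rfl h) o22Z_Qp2900_30_50_0 o22Z_Qm2900_30_50_0 rfl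
      (I.qt G (fun h => absurd rfl h) o22Z_Qp3000_30_50_0 o22Z_Qm3000_30_50_0 rfl
      QT.nil A12 B30) A12 B30) A12 B30) A12 B30) A12 B30) A12 B30)
    (by decide) (by decide) hys hx hx'

theorem o22Zs_Qm2800_30_20_0 : o22Zs.R (cQ false 30 20 0) 1250 1886 2800 2900 := by
  have h : Bx ⟨false, 2, 0, 30, 20, 0, 0, 0, 0, [⟨1, 0, 0, 1, 0, 0, 0, 0, 0, 1495⟩, ⟨0, 1, 1, 0, 0, 0, 0, 0, 1702, 0⟩, ⟨0, 0, 0, 0, 1, 0, 0, 1, 0, 1064⟩, ⟨0, 0, 0, 1, 1, 0, 0, 1, 0, 1625⟩]⟩ 974 1130 561 735 1742 1886 2882 3109 1250 1886 2800 2900 := o22Zs_Qm2800_30_20_0_0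
  exact h

theorem pr22Zs {xs ys T ρ xs' T' : ℝ} (G : GD xs ys (125 / 1000) (30 / 100))
    (hU : ∀ x y, x ∈ Icc (125 / 1000 : ℝ) (30 / 100) → ys < y → y ≤ 1 / 2 →
      |gh x - gh xs| < gh y - gh ys → Dx x y T ρ < Dx xs ys T ρ)
    (I : o22Zs.In T ρ xs ys) (hys : ys ∈ Ioc (1 / 4 : ℝ) (1 / 2))
    (hx : xs ∈ Icc (125 / 1000 : ℝ) (30 / 100)) (H : HD xs' ys T' ρ (10 / 100) (27 / 100))
    (l : LH xs' ys T' ρ (10 / 100) (27 / 100)) (d : DnG xs' T' (10 / 100) (27 / 100) ys ρ) (I' : p22Zs.In T' ρ xs' ys)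
    (hx' : xs' ∈ Icc (10 / 100) (27 / 100)) :
    Pr ys ρ xs T (125 / 1000) (30 / 100) (fun _ => 0) (fun m => 1 / 2 * m) xs' T' (10 / 100) (27 / 100)
      (fun _ => 0) (fun _ => 0) :=
  Pr.of (tab := [⟨2500, 5000, 0, 0, 0, 0, 0⟩])
    (tab' := [⟨2500, 2600, 30, 50, 0, 0, 0⟩, ⟨2600, 2700, 30, 20, 0, 0, 0⟩, ⟨2700, 2800, 30, 20, 0, 0, 0⟩, ⟨2800, 2900, 30, 20, 0, 0, 0⟩, ⟨2900, 3000, 30, 50, 0, 0, 0⟩, ⟨3000, 5000, 30, 50, 0, 0, 0⟩])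
    (I.LF0 G hU o22Zs_Wp o22Zs_Wm hf0 hf50 A12 B30) (l.toF hz0 hz0 (by norm_num) (by norm_num))
    (I.dt G (fun h => absurd rfl h) o22Zs_Dp2500_0_0_0 o22Zs_Dm2500_0_0_0 rfl hf0 hf50 DT.nil A12 B30)
    (d.qt QT.nil)
    (I'.dt H.toGD (fun _ => H) p22Zs_Dp2500_30_50_0 p22Zs_Dm2500_30_50_0 rfl hf0 hf0
      (I'.dt H.toGD (fun _ => H) p22Zs_Dp2600_30_20_0 p22Zs_Dm2600_30_20_0 rfl hf0 hf0
      (I'.dt H.toGD (fun _ => H) p22Zs_Dp2700_30_20_0 p22Zs_Dm2700_30_20_0 rfl hf0 hf0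
      (I'.dt H.toGD (fun _ => H) p22Zs_Dp2800_30_20_0 p22Zs_Dm2800_30_20_0 rfl hf0 hf0
      (I'.dt H.toGD (fun _ => H) p22Zs_Dp2900_30_50_0 p22Zs_Dm2900_30_50_0 rfl hf0 hf0
      (I'.dt H.toGD (fun _ => H) p22Zs_Dp3000_30_50_0 p22Zs_Dm3000_30_50_0 rfl hf0 hf0
      DT.nil A10 B27) A10 B27) A10 B27) A10 B27) A10 B27) A10 B27)
    (I.qt G (fun h => absurd rfl h) o22Zs_Qp2500_30_50_0 o22Zs_Qm2500_30_50_0 rfl
      (I.qt G (fun h => absurd rfl h) o22Zs_Qp2600_30_20_0 o22Zs_Qm2600_30_20_0 rfl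
      (I.qt G (fun h => absurd rfl h) o22Zs_Qp2700_30_20_0 o22Zs_Qm2700_30_20_0 rfl
      (I.qt G (fun h => absurd rfl h) o22Zs_Qp2800_30_20_0 o22Zs_Qm2800_30_20_0 rfl
      (I.qt G (fun h => absurd rfl h) o22Zs_Qp2900_30_50_0 o22Zs_Qm2900_30_50_0 rfl
      (I.qt G (fun h => absurd rfl h) o22Zs_Qp3000_30_50_0 o22Zs_Qm3000_30_50_0 rfl
      QT.nil A12 B30) A12 B30) A12 B30) A12 B30) A12 B30) A12 B30)
    (by decide) (by decide) hys hx hx'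

end RC

end Pool.Agent.Work.MP_b30479_gt.G2
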