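import Pool.Agent.Work.MP_b30479_gt.G2.WLocC
import Pool.Agent.Work.MP_b30479_gt.G2.RGp22
import Pool.Agent.Work.MP_b30479_gt.G2.RGe42
import Pool.Agent.Work.MP_b30479_gt.G2.RLvlA

/-!
# Rings on the level part: a digit `2` at an end next to a ring with four crossings
-/

namespace Pool.Agent.Work.MP_b30479_gt.G2

open Finset VOL Filter Topology

namespace SR

/-- **A ring with four crossings between a digit `2` at an end and a class `k`.** -/
theorem pm22 {xs ys T ρ xs' T' : ℝ} {k : Cl} {s : Bool} (hk : k ≠ .one)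
    (q : (rf4 k s).Re xs ys T ρ) (r : (rg4 k s).Re xs' ys T' ρ)
    (D : k ≠ .twoE → Lo k xs' ys T' ρ) (hys : ys ∈ Set.Ioc (1 / 4 : ℝ) (1 / 2))
    (hx : xs ∈ Set.Icc (125 / 1000 : ℝ) (30 / 100)) (hx' : xs' ∈ Set.Icc (fcl k) (fcp k)) :
    ∃ g', GS 4 k g' ∧ RC.Pr ys ρ xs T (125 / 1000) (30 / 100) (fun _ => 0) (fun m => 1 / 2 * m)
      xs' T' (fcl k) (fcp k) (fun _ => 0) g' := by
  cases k
  · exact absurd rfl hk
  · have q0 : (mk4 1715 1852 1771 1964 1437 1609 443 620 (-1072) (-928) 3752 3309).Re xs ys T ρ := q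
    have r0 : (mk4 1980 2462 1771 1964 745 1124 443 620 (-616) (-185) 4294 3851).Re xs' ys T' ρ := r
    have G := q0.gd (by decide)
    have U := q0.up G RC.Row.cU4 (by decide)
    have I : RC.o222.In T ρ xs ys := wd4_in q0 (by decide)
    have J : RC.p222.In T' ρ xs' ys := wd4_in r0 (by decide)
    obtain ⟨H, l, d⟩ := D (by decide)
    exact ⟨_, Or.inl rfl, RC.pr222 G U I hys hx H l d J hx'⟩
  · have q0 : (mk4 1683 1803 1843 1963 1341 1461 341 461 (-1060) (-940) 3707 3366).Re xs ys T ρ := q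
    have r0 : (mk4 1683 1803 1843 1963 1341 1461 341 461 (-1060) (-940) 3707 3366).Re xs' ys T' ρ := r
    have G := q0.gd (by decide)
    have U := q0.up G RC.Row.cU4 (by decide)
    have I : RC.o222e.In T ρ xs ys := wd4_in q0 (by decide)
    have G' := r0.gd (by decide)
    have U' := r0.up G' RC.Row.cU4 (by decide)
    have J : RC.o222e.In T' ρ xs' ys := wd4_in r0 (by decide)
    exact ⟨_, Or.inr ⟨rfl, rfl, rfl⟩, RC.pr222e G U I hys hx G' U' J hx'⟩
  · have q0 : (mk4 1729 1857 1839 1998 1476 1619 494 642 (-1049) (-916) 3792 3298).Re xs ys T ρ := q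
    have r0 : (mk4 1973 2239 1839 1998 617 866 494 642 (-308) (-35) 4138 3644).Re xs' ys T' ρ := r
    have G := q0.gd (by decide)
    have U := q0.up G RC.Row.cU4 (by decide)
    have I : RC.o223.In T ρ xs ys := wd4_in q0 (by decide)
    have J : RC.p223.In T' ρ xs' ys := wd4_in r0 (by decide)
    obtain ⟨H, l, d⟩ := D (by decide)
    exact ⟨_, Or.inl rfl, RC.pr223 G U I hys hx H l d J hx'⟩
  · have q0 : (mk4 1712 1832 1896 2016 1424 1544 449 569 (-1035) (-915) 3788 3339).Re xs ys T ρ := q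
    have r0 : (mk4 1773 1893 1896 2016 756 876 449 569 (-367) (-247) 3849 3400).Re xs' ys T' ρ := r
    have G := q0.gd (by decide)
    have U := q0.up G RC.Row.cU4 (by decide)
    have I : RC.o223e.In T ρ xs ys := wd4_in q0 (by decide)
    have J : RC.p223e.In T' ρ xs' ys := wd4_in r0 (by decide)
    obtain ⟨H, l, d⟩ := D (by decide)
    exact ⟨_, Or.inl rfl, RC.pr223e G U I hys hx H l d J hx'⟩
  · cases s
    · have q0 : (mk4 1731 1886 1872 2031 1478 1702 513 735 (-1037) (-903) 3840 3327).Re xs ys T ρ := q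
      have r0 : (mk4 1892 2291 1872 2031 386 739 513 735 (-157) 290 4242 3729).Re xs' ys T' ρ := r
      have G := q0.gd (by decide)
      have U := q0.up G RC.Row.cU4 (by decide)
      have I : RC.o22Z.In T ρ xs ys := wd4_in q0 (by decide)
      have J : RC.p22Z.In T' ρ xs' ys := wd4_in r0 (by decide)
      obtain ⟨H, l, d⟩ := D (by decide)
      exact ⟨_, Or.inl rfl, RC.pr22Z G U I hys hx H l d J hx'⟩
    · have q0 : (mk4 1742 1886 1891 2118 1495 1702 561 735 (-1026) (-870) 3936 3375).Re xs ys T ρ := q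
      have r0 : (mk4 1774 2291 1891 2118 168 506 561 735 160 500 4242 3681).Re xs' ys T' ρ := r
      have G := q0.gd (by decide)
      have U := q0.up G RC.Row.cU4 (by decide)
      have I : RC.o22Zs.In T ρ xs ys := wd4_in q0 (by decide)
      have J : RC.p22Zs.In T' ρ xs' ys := wd4_in r0 (by decide)
      obtain ⟨H, l, d⟩ := D (by decide)
      exact ⟨_, Or.inl rfl, RC.pr22Zs G U I hys hx H l d J hx'⟩

/-- **The word `4 2`, level part.** -/
theorem pe42 {xs ys T ρ : ℝ} (q : (mk4 1590 1750 2100 2260 1110 1270 180 320 (-1010) (-850) 3930 3700).Re xs ys T ρ)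
    (hys : ys ∈ Set.Ioc (1 / 4 : ℝ) (1 / 2)) (hx : xs ∈ Set.Icc (125 / 1000 : ℝ) (30 / 100)) :
    RC.En xs ys T ρ (125 / 1000) (30 / 100) (fun _ => 0) (fun m => 1 / 2 * m) := by
  have G := q.gd (by decide)
  have U := q.up G RC.Row.cU42 (by decide)
  exact RC.en42 G U (wd4_in q (by decide)) hys hx

end SR

end Pool.Agent.Work.MP_b30479_gt.G2
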