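import Pool.Agent.Work.MP_b30479_gt.G2.RFb
import Pool.Agent.Work.MP_b30479_gt.G2.RFc
import Pool.Agent.Work.MP_b30479_gt.G2.RGs22

/-!
# Rings in a word: the pair of hinges of a ring, all cases
-/

namespace Pool.Agent.Work.MP_b30479_gt.G2

open Finset VOL Filter Topology

namespace SR

variable {M : ℕ} {b : Fin (M + 1) → ℤ} {zs : DD (tyW b) ⊕ ZZ (tyW b) → ℂ}
variable {y : DD (tyW b) ⊕ ZZ (tyW b) → ℝ}
variable {h h' h2 h3 : Fin M} {i j k g g' : Fin (M + 1)} {p : Fin 3} {v : ZZ (tyW b)}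

/-- **Slacks of the ring `i` at the hinge `h`, which the neighbour `j` pays for.** -/
structure Sl (b : Fin (M + 1) → ℤ) (zs : DD (tyW b) ⊕ ZZ (tyW b) → ℂ) (h : Fin M)
    (i j : Fin (M + 1)) (p : Fin 3) (f g : ℝ → ℝ) : Prop where
  up : f = (fun _ => 0) ∨ (clsW b j = .one ∧
    (∃ (h2 : Fin M) (k : Fin (M + 1)), Adj h2 j p k ∧ clsW b k = .two) ∧
    2563 / 10000 ≤ (zs (.inl (.inl h))).re ∧
    ((-(128 / 1000) ≤ ofs (b i) (zs (.inl (.inl h))).im ∧ f = fun m => 38 / 100 * m) ∨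
      (-(138 / 1000) ≤ ofs (b i) (zs (.inl (.inl h))).im ∧ f = fun m => 355 / 1000 * m)))
  dn : g = (fun _ => 0) ∨ (clsW b j = .twoE ∧ (b i).natAbs = 4 ∧ g = fun m => 1 / 2 * m)

theorem Sl.fnn {f g : ℝ → ℝ} (S : Sl b zs h i j p f g) (m : ℝ) (hm : 0 < m) : 0 ≤ f m := by
  rcases S.up with e | ⟨-, -, -, ⟨-, e⟩ | ⟨-, e⟩⟩ <;> rw [e] <;> dsimp only <;> linarith

theorem Sl.gnn {f g : ℝ → ℝ} (S : Sl b zs h i j p f g) (m : ℝ) (hm : 0 < m) : 0 ≤ g m := by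
  rcases S.dn with e | ⟨-, -, e⟩ <;> rw [e] <;> dsimp only <;> linarith

theorem Sl.zero (b : Fin (M + 1) → ℤ) (zs : DD (tyW b) ⊕ ZZ (tyW b) → ℂ) (h : Fin M)
    (i j : Fin (M + 1)) (p : Fin 3) : Sl b zs h i j p (fun _ => 0) (fun _ => 0) :=
  ⟨Or.inl rfl, Or.inl rfl⟩

theorem Sl.of_FS {f : ℝ → ℝ} (A2 : Adj h2 j p g) (hj : clsW b j = .one)
    (H : FS (b i).natAbs (clsW b g) (zs (.inl (.inl h))).re (ofs (b i) (zs (.inl (.inl h))).im) f) :
    Sl b zs h i j p f (fun _ => 0) := by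
  refine ⟨?_, Or.inl rfl⟩
  rcases H with e | ⟨hg, hx, h3⟩
  · exact Or.inl e
  · refine Or.inr ⟨hj, ⟨h2, g, A2, hg⟩, hx, ?_⟩
    rcases h3 with ⟨-, h4, e⟩ | ⟨-, h4, e⟩
    · exact Or.inl ⟨h4, e⟩
    · exact Or.inr ⟨h4, e⟩

theorem Sl.of_GS {f : ℝ → ℝ} (H : GS (b i).natAbs (clsW b j) f) :
    Sl b zs h i j p (fun _ => 0) f := by
  refine ⟨Or.inl rfl, ?_⟩
  rcases H with e | ⟨h1, h2, e⟩
  · exact Or.inl e
  · exact Or.inr ⟨h1, h2, e⟩

/-- the pair of hinges of the ring `i` -/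
def PrW (b : Fin (M + 1) → ℤ) (zs : DD (tyW b) ⊕ ZZ (tyW b) → ℂ) (v : ZZ (tyW b)) (h h' : Fin M)
    (i j k : Fin (M + 1)) (f g f' g' : ℝ → ℝ) : Prop :=
  RC.Pr (1 / 2 + ofs (b i) (zs (.inr v)).re) (zs (.inr v)).im (zs (.inl (.inl h))).re
    (ofs (b i) (zs (.inl (.inl h))).im) (fcl (clsW b j)) (fcp (clsW b j)) f g
    (zs (.inl (.inl h'))).re (ofs (b i) (zs (.inl (.inl h'))).im) (fcl (clsW b k))
    (fcp (clsW b k)) f' g'

theorem Adj.rev2 (A : Adj h i p j) : Adj h i p.rev.rev j := by rwa [Fin.rev_rev]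

/-- a ring next to a digit `1` at `h` -/
theorem RFacts.prI_one (F : RFacts b zs) (A : Adj h i p j) (A' : Adj h' i p.rev k)
    (hc : clsW b i = .ring) (hv : v.1 = i) (he : isEnd i = false) (hj : clsW b j = .one) :
    ∃ f g f' g', Sl b zs h i j p f g ∧ Sl b zs h' i k p.rev f' g' ∧
      PrW b zs v h h' i j k f g f' g' := by
  obtain ⟨h2, g, A2⟩ := A.symm.other_one F.H.hb hj
  rw [Fin.rev_rev] at A2
  by_cases hk : clsW b k = .one
  · obtain ⟨h3, g', A3⟩ := A'.symm.other_one F.H.hb hk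
    rw [Fin.rev_rev] at A3
    obtain ⟨f, f', hf, hf', P⟩ := F.pr2 A A2 A' A3 hc hv hj hk he
    refine ⟨f, fun _ => 0, f', fun _ => 0, Sl.of_FS A2 hj hf, Sl.of_FS A3 hk hf', ?_⟩
    unfold PrW
    rw [hj, hk]
    exact P
  · obtain ⟨f, g', hf, hg, P⟩ := F.pr1 A A2 A' hc hv hj hk he
    refine ⟨f, fun _ => 0, fun _ => 0, g', Sl.of_FS A2 hj hf, Sl.of_GS hg, ?_⟩
    unfold PrW
    rw [hj]
    exact P

/-- a ring with four crossings next to a digit `2` at an end, at `h` -/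
theorem RFacts.prI_twoE (F : RFacts b zs) (A : Adj h i p j) (A' : Adj h' i p.rev k)
    (hc : clsW b i = .ring) (hv : v.1 = i) (hj : clsW b j = .twoE)
    (h4 : (b i).natAbs = 4) (hk : clsW b k ≠ .one) :
    ∃ f g f' g', Sl b zs h i j p f g ∧ Sl b zs h' i k p.rev f' g' ∧
      PrW b zs v h h' i j k f g f' g' := by
  have q := (F.e2.own v hv A A' hc h4 hj hk).adj A hv
  have r := (F.e2.par v hv A A' hc h4 hj hk).adj A' hv
  have hx := F.H.xs_flat A hc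
  rw [hj] at hx
  obtain ⟨g', hg, P⟩ := pm22 hk q r (fun h0 => F.H.lo A' hc hv hk fun h1 => absurd h1 h0)
    (F.H.ys A hc hv) hx (F.H.xs_flat A' hc)
  refine ⟨fun _ => 0, fun m => 1 / 2 * m, fun _ => 0, g', ⟨Or.inl rfl, Or.inr ⟨hj, h4, rfl⟩⟩,
    Sl.of_GS (by rw [h4]; exact hg), ?_⟩
  unfold PrW
  rw [hj]
  exact P

/-- **The pair of hinges of an interior ring.** -/
theorem RFacts.prI (F : RFacts b zs) (A : Adj h i p j) (A' : Adj h' i p.rev k)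
    (hc : clsW b i = .ring) (hv : v.1 = i) (he : isEnd i = false) :
    ∃ f g f' g', Sl b zs h i j p f g ∧ Sl b zs h' i k p.rev f' g' ∧
      PrW b zs v h h' i j k f g f' g' := by
  by_cases hj : clsW b j = .one
  · exact F.prI_one A A' hc hv he hj
  by_cases hk : clsW b k = .one
  · obtain ⟨f, g, f', g', S, S', P⟩ := F.prI_one A' A.rev2 hc hv he hk
    rw [Fin.rev_rev] at S'
    exact ⟨f', g', f, g, S', S, P.symm⟩
  by_cases hjE : clsW b j = .twoE ∧ (b i).natAbs = 4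
  · exact F.prI_twoE A A' hc hv hjE.1 hjE.2 hk
  by_cases hkE : clsW b k = .twoE ∧ (b i).natAbs = 4
  · obtain ⟨f, g, f', g', S, S', P⟩ := F.prI_twoE A' A.rev2 hc hv hkE.1 hkE.2 hj
    rw [Fin.rev_rev] at S'
    exact ⟨f', g', f, g, S', S, P.symm⟩
  have h4 := ring_four F.H.hb (tyW_of_ring F.H.hb hc)
  obtain ⟨-, l, d⟩ := F.H.lo A hc hv hj fun h0 => by
    rcases h4.eq_or_lt with h5 | h5
    · exact absurd ⟨h0, h5.symm⟩ hjE
    · exact h5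
  obtain ⟨-, l', d'⟩ := F.H.lo A' hc hv hk fun h0 => by
    rcases h4.eq_or_lt with h5 | h5
    · exact absurd ⟨h0, h5.symm⟩ hkE
    · exact h5
  exact ⟨_, _, _, _, Sl.zero b zs h i j p, Sl.zero b zs h' i k p.rev,
    RC.Pr.of_lo l l' d d' (F.H.ys A hc hv) (F.H.xs_flat A hc) (F.H.xs_flat A' hc) (fcl_pos' _)
      (fcl_pos' _) (by linarith [fcp_lt' (clsW b j)]) (by linarith [fcp_lt' (clsW b k)])
      (fun _ _ => le_rfl) (fun _ _ => le_rfl) (fun _ _ => le_rfl) (fun _ _ => le_rfl)⟩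

/-- **The hinge of a ring at an end.** -/
theorem RFacts.enI (F : RFacts b zs) (A : Adj h i p j)
    (hc : clsW b i = .ring) (hv : v.1 = i) (he : isEnd i = true) :
    ∃ f g, Sl b zs h i j p f g ∧ RC.En (zs (.inl (.inl h))).re (1 / 2 + ofs (b i) (zs (.inr v)).re)
      (ofs (b i) (zs (.inl (.inl h))).im) (zs (.inr v)).im (fcl (clsW b j)) (fcp (clsW b j)) f g := by
  by_cases hj : clsW b j = .one
  · obtain ⟨h2, g, A2⟩ := A.symm.other_one F.H.hb hj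
    rw [Fin.rev_rev] at A2
    obtain ⟨f, hf, P⟩ := F.en1 A A2 hc hv hj he
    refine ⟨f, fun _ => 0, Sl.of_FS A2 hj hf, ?_⟩
    rw [hj]
    exact P
  have h4 := ring_four F.H.hb (tyW_of_ring F.H.hb hc)
  by_cases hjE : clsW b j = .twoE ∧ (b i).natAbs = 4
  · have q := (F.H4.four v hv A hc hjE.2).adj A hv
    rw [he, hjE.1] at q
    have hx := F.H.xs_flat A hc
    rw [hjE.1] at hx
    refine ⟨fun _ => 0, fun m => 1 / 2 * m, ⟨Or.inl rfl, Or.inr ⟨hjE.1, hjE.2, rfl⟩⟩, ?_⟩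
    rw [hjE.1]
    exact pe42 q (F.H.ys A hc hv) hx
  obtain ⟨-, l, d⟩ := F.H.lo A hc hv hj fun h0 => by
    rcases h4.eq_or_lt with h5 | h5
    · exact absurd ⟨h0, h5.symm⟩ hjE
    · exact h5
  exact ⟨_, _, Sl.zero b zs h i j p, RC.En.of_lo l d (F.H.ys A hc hv) (F.H.xs_flat A hc)
    (fcl_pos' _) (by linarith [fcp_lt' (clsW b j)]) (fun _ _ => le_rfl) (fun _ _ => le_rfl)⟩

end SR

end Pool.Agent.Work.MP_b30479_gt.G2
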