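import Pool.Agent.Work.MP_b30479_gt.G2.WLocA
import Pool.Agent.Work.MP_b30479_gt.G2.RWa

/-!
# The caps of the rings in the flat part
-/

namespace Pool.Agent.Work.MP_b30479_gt.G2

open Finset VOL Filter Topology

namespace SR

variable {M : ℕ} {b : Fin (M + 1) → ℤ} {zs : DD (tyW b) ⊕ ZZ (tyW b) → ℂ}
variable {y : DD (tyW b) ⊕ ZZ (tyW b) → ℝ}
variable {h h' : Fin M} {i j j' k : Fin (M + 1)} {p : Fin 3}

/-- right end of the flat part next to a ring -/
theorem Adj.flat_ring (A : Adj h i p j) (hc : clsW b i = .ring) (hj : clsW b j ≠ .ring) :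
    wXM b h - wcr b h ≤ fcp (clsW b j) := by
  rw [A.XM_eq b, A.cr_eq b, hc]
  unfold hpp
  rcases hj' : clsW b j with _ | _ | _ | _ | _ | _ <;> first | exact absurd hj' hj |
    (split_ifs <;> simp only [hp, hp1, fcp] <;> norm_num)

/-- **The caps of the rings.** -/
theorem Flat.capped (hf : Flat b y) (hb : ClassW b) (H : LocA b zs) (hy : Mx b zs y) :
    Capped b y := by
  intro h i j p A hc
  by_cases hj : clsW b j = .ring
  · rw [hj]
    exact A.rr_cap hb H.L H.X H.R hy hc hj
  · exact (hf h).2.trans (A.flat_ring hc hj)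

end SR

end Pool.Agent.Work.MP_b30479_gt.G2
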