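import Pool.Agent.Work.MP_b30479_gt.G2.MRPushW
import Pool.Agent.Work.MP_b30479_gt.G2.WI3
import Pool.Agent.Work.MP_b30479_gt.G2.WE3
import Pool.Agent.Work.MP_b30479_gt.G2.WLocA

/-!
# Push-back of the digits, uniqueness of the inner variables
-/

namespace Pool.Agent.Work.MP_b30479_gt.G2

open Finset VOL Filter Topology

namespace SR

variable {M : ℕ} {b : Fin (M + 1) → ℤ} {zs : DD (tyW b) ⊕ ZZ (tyW b) → ℂ}
variable {y : DD (tyW b) ⊕ ZZ (tyW b) → ℝ}
variable {h h' : Fin M} {i j j' k : Fin (M + 1)} {p : Fin 3}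

/-- what the push-back of the digits uses at a maximiser -/
structure PushIn (b : Fin (M + 1) → ℤ) (zs : DD (tyW b) ⊕ ZZ (tyW b) → ℂ)
    (y : DD (tyW b) ⊕ ZZ (tyW b) → ℝ) : Prop where
  flat : Flat b y
  c64 : ∀ {h : Fin M} {i j : Fin (M + 1)} {p : Fin 3}, Adj h i p j → clsW b i = .one →
    clsW b j = .one → y (.inl (.inl h)) ≤ 64 / 100
  half : ∀ {h : Fin M} {i j : Fin (M + 1)} {p : Fin 3}, Adj h i p j →
    (clsW b i ≠ .one ∨ clsW b j ≠ .one) → y (.inl (.inl h)) < 1 / 2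
  sum : Sum1 b y (90 / 100)
  v3 : ∀ {h h' : Fin M} {i j k : Fin (M + 1)}, Adj h i 0 j → Adj h' i 2 k → clsW b i = .three →
    y (.inl (.inl h)) ∈ Set.Icc (((M3.prm (clsW b j) (clsW b k)).vl : ℝ) / 10000)
      (((M3.prm (clsW b j) (clsW b k)).vh : ℝ) / 10000)
  u3 : ∀ {h h' : Fin M} {i j k : Fin (M + 1)}, Adj h i 0 j → Adj h' i 2 k → clsW b i = .three →
    y (.inl (.inl h')) ∈ Set.Icc (((M3.prm (clsW b j) (clsW b k)).ul : ℝ) / 10000)
      (((M3.prm (clsW b j) (clsW b k)).uh : ℝ) / 10000)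
  mid : ∀ {i : Fin (M + 1)} (hc : clsW b i = .three),
    5 / 100 < y (.inl (.inr (mI b hc))) ∧ y (.inl (.inr (mI b hc))) < 3 / 4

/-- the two hinges of an interior region -/
theorem Adj.both (A : Adj h i p j) (b : Fin (M + 1) → ℤ) (hi : isEnd i = false) :
    ∃ (g g' : Fin M) (l l' : Fin (M + 1)), Adj g i 0 l ∧ Adj g' i 2 l' ∧
      ((p = 0 ∧ g = h ∧ l = j) ∨ (p = 2 ∧ g' = h ∧ l' = j)) := by
  obtain ⟨h1, j1, A1⟩ := A.other' b hi
  rcases A.slot with rfl | rfl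
  · exact ⟨h, h1, j, j1, A, A1, Or.inl ⟨rfl, rfl, rfl⟩⟩
  · exact ⟨h1, h, j1, j, A1, A, Or.inr ⟨rfl, rfl, rfl⟩⟩

/-- **Push-back of the digits.** -/
theorem push_digit (hb : ClassW b) (H : LocA b zs) (hy : Mx b zs y)
    (hpos : ∀ h : Fin M, 0 < y (.inl (.inl h))) (I : PushIn b zs y) (A : Adj h i p j)
    (hc : clsW b i ≠ .ring) : Push' (tyW b) b i p p.rev (Xw b zs y i) (xx (tyW b) i zs) := by
  rcases hi : clsW b i with _ | _ | _ | _ | _ | _
  · refine A.push1A hb H.L H.X H.P H.S hy I.flat I.c64 I.sum hi ?_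
    by_cases hj : clsW b j = .one
    · exact Or.inl hj
    · exact Or.inr (I.half A (Or.inr hj)).le
  · refine A.push2 hb H.L hy I.flat hi (I.half A (Or.inl (by rw [hi]; decide))).le ?_
    intro h' j' A'
    linarith [I.half A (Or.inl (by rw [hi]; decide)), I.half A' (Or.inl (by rw [hi]; decide))]
  · exact A.push2E hb H.L hy I.flat hi (I.half A (Or.inl (by rw [hi]; decide))).le
  · obtain ⟨g, g', l, l', B, B', hs⟩ := A.both b (clsW_inner hb (Or.inr (Or.inr hi)))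
    have m := I.mid hi
    rcases hs with ⟨rfl, rfl, rfl⟩ | ⟨rfl, rfl, rfl⟩
    · exact push3_zero hb H.L H.X H.C hy hpos I.flat B B' hi (I.u3 B B' hi) (I.v3 B B' hi) m.1 m.2
    · exact push3_two hb H.L H.X H.C hy hpos I.flat B B' hi (I.u3 B B' hi) (I.v3 B B' hi) m.1 m.2
  · exact A.push3 hb H.L H.C hy hi (I.flat h).1 (I.flat h).2
  · exact absurd hi hc

end SR

end Pool.Agent.Work.MP_b30479_gt.G2
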