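import Pool.Agent.Work.MP_b30479_gt.G2.RFd
import Pool.Agent.Work.MP_b30479_gt.G2.WChC
import Pool.Agent.Work.MP_b30479_gt.G2.WChP
import Pool.Agent.Work.MP_b30479_gt.G2.WRngS
import Pool.Agent.Work.MP_b30479_gt.G2.MQJ
import Pool.Agent.Work.MP_b30479_gt.G2.R42

/-!
# Rings in a word: push-back and inner statement
-/

namespace Pool.Agent.Work.MP_b30479_gt.G2

open Finset VOL Filter Topology

namespace SR

variable {M : ℕ} {b : Fin (M + 1) → ℤ} {zs : DD (tyW b) ⊕ ZZ (tyW b) → ℂ}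
variable {y : DD (tyW b) ⊕ ZZ (tyW b) → ℝ}
variable {h h' h2 h3 : Fin M} {i j k g g' : Fin (M + 1)} {p : Fin 3} {v : ZZ (tyW b)}

/-- the word `4 2` -/
theorem RFacts.at42 (F : RFacts b zs) (A : Adj h i p j) (hc : clsW b i = .ring) (hv : v.1 = i)
    (he : isEnd i = true) (hj : clsW b j = .twoE) (h4 : (b i).natAbs = 4) :
    RC.RP1 ((b i).natAbs : ℝ) (zs (.inl (.inl h))).re (1 / 2 + ofs (b i) (zs (.inr v)).re)
      (ofs (b i) (zs (.inl (.inl h))).im) (zs (.inr v)).im (fcl (clsW b j)) (fcp (clsW b j))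
      (fun _ => 0) (fun _ => 0) ∧
    RC.LI (zs (.inl (.inl h))).re (1 / 2 + ofs (b i) (zs (.inr v)).re)
      (ofs (b i) (zs (.inl (.inl h))).im) (zs (.inr v)).im ∧
    RC.RampOK1 ((b i).natAbs : ℝ) (zs (.inl (.inl h))).re (1 / 2 + ofs (b i) (zs (.inr v)).re)
      (ofs (b i) (zs (.inl (.inl h))).im) (zs (.inr v)).im (fcl (clsW b j)) (fcp (clsW b j)) := by
  have w := F.H.hG.w42 v hv A h4 he hj
  have w1 := w.x0
  have w2 := w.x1
  have w3 := w.t0
  have w4 := w.t1
  have w5 := w.s0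
  have w6 := w.s1
  have w7 := w.r1
  simp only [ofr_re, ofr_im, ofz_re, ofz_im] at w1 w2 w3 w4 w5 w6 w7
  have q := ((F.H4.four v hv A hc h4).adj A hv).r0
  rw [he, hj] at q
  simp only [r4, mk4] at q
  push_cast at q
  have hD := A.ring_crit1 he F.H.hC hv
  have e : 1 / 2 + ofs (b i) (zs (.inr v)).re = 1 / 2 - -ofs (b i) (zs (.inr v)).re := by ring
  rw [h4, e] at hD
  rw [h4, e, hj]
  push_cast at hD ⊢
  exact RC.r42 w1 w2 w3 w4 w5 w6 (by linarith only [q]) w7 hD

/-- **The push of an interior ring, with slacks.** -/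
theorem RFacts.push2 (F : RFacts b zs) (A : Adj h i p j) (A' : Adj h' i p.rev k) (hy : Mx b zs y)
    (hf : Flat b y) (hc : clsW b i = .ring) (R : RingSt b zs y) (hv : v.1 = i)
    (hK : Capped b y) (he : isEnd i = false) :
    ∃ f g, Sl b zs h i j p f g ∧
      PushQ (tyW b) b i p p.rev (Xw b zs y i) (xx (tyW b) i zs) f g := by
  obtain ⟨f, g, f', g', S, S', P⟩ := F.prI A A' hc hv he
  have H := F.H
  have hys := H.ys A hc hv
  have h4 : (0 : ℝ) < ((b i).natAbs : ℝ) := by
    have := ring_four H.hb (tyW_of_ring H.hb hc)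
    exact_mod_cast (show 0 < (b i).natAbs by omega)
  exact ⟨f, g, S, A.push_ring2 A' H.hb H.hL hy hf hc R hv
    (RC.Pr.RP2 P S.fnn S.gnn (H.int A hc hv he) (H.int A' hc hv he) h4
      (rbet_nonneg _ _) ⟨hys.1, by linarith only [hys, hys.2]⟩ (A.ring_crit2 A' H.hC hv) (fcl_pos' _)
      (by linarith only [fcp_lt' (clsW b j)])) (A.in_flat hc hf hK) (A'.in_flat hc hf hK) (fcl_pos' _)
      (fcl_pos' _) (fcp_lt' _) (fcp_lt' _)⟩

/-- **The push of a ring at an end, with slacks.** -/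
theorem RFacts.push1 (F : RFacts b zs) (A : Adj h i p j) (hy : Mx b zs y)
    (hf : Flat b y) (hc : clsW b i = .ring) (R : RingSt b zs y) (hv : v.1 = i)
    (hK : Capped b y) (he : isEnd i = true) :
    ∃ f g, Sl b zs h i j p f g ∧
      PushQ (tyW b) b i p p.rev (Xw b zs y i) (xx (tyW b) i zs) f g := by
  have H := F.H
  have hys := H.ys A hc hv
  have hx := A.in_flat hc hf hK
  by_cases hj : clsW b j = .twoE ∧ (b i).natAbs = 4
  · exact ⟨_, _, Sl.zero b zs h i j p, A.push_ring1 he H.hb H.hL hy hf hc R hv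
      (F.at42 A hc hv he hj.1 hj.2).1 hx (fcl_pos' _) (fcp_lt' _)⟩
  · obtain ⟨f, g, S, P⟩ := F.enI A hc hv he
    refine ⟨f, g, S, A.push_ring1 he H.hb H.hL hy hf hc R hv
      (RC.En.RP1 P S.fnn S.gnn (H.en A hc hv he fun h0 => ?_) ⟨hys.1, by linarith only [hys, hys.2]⟩
        (A.ring_crit1 he H.hC hv) (fcl_pos' _) (by linarith only [fcp_lt' (clsW b j)])) hx
      (fcl_pos' _) (fcp_lt' _)⟩
    rcases (ring_four H.hb (tyW_of_ring H.hb hc)).eq_or_lt with h5 | h5
    · exact absurd ⟨h0, h5.symm⟩ hj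
    · exact h5

/-- **The push of a ring, with slacks.** -/
theorem RFacts.pushR (F : RFacts b zs) (A : Adj h i p j) (hy : Mx b zs y)
    (hf : Flat b y) (hc : clsW b i = .ring) (R : RingSt b zs y) (hv : v.1 = i)
    (hK : Capped b y) :
    ∃ f g, Sl b zs h i j p f g ∧
      PushQ (tyW b) b i p p.rev (Xw b zs y i) (xx (tyW b) i zs) f g := by
  rcases he : isEnd i with _ | _
  · obtain ⟨h', k, A'⟩ := A.other' b he
    exact F.push2 A A' hy hf hc R hv hK he
  · exact F.push1 A hy hf hc R hv hK he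

/-- **The neighbour pays for the slacks.** -/
theorem Sl.pay {f g : ℝ → ℝ} (S : Sl b zs h i j p f g) (A : Adj h i p j) (hb : ClassW b)
    (H : LocA b zs) (hy : Mx b zs y) (hpos : ∀ h : Fin M, 0 < y (.inl (.inl h)))
    (I : PushIn b zs y) (hK : Capped b y) (hc : clsW b i = .ring) (hj : clsW b j ≠ .ring) :
    PushQ (tyW b) b j p.rev p (Xw b zs y j) (xx (tyW b) j zs) (fun m => -f m)
      (fun m => -g m) := by
  have hB := A.symm
  have hop := A.opp hb (Or.inr hj)
  have hT := ofs_opp hop (zs (.inl (.inl h))).im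
  rcases S.up with e | ⟨h1, ⟨h2, k, A2, hk⟩, hx, ht⟩
  · rcases S.dn with e' | ⟨h2, h4, e'⟩
    · have P := push_digit hb H hy hpos I hB hj
      rw [Fin.rev_rev] at P
      rw [e, e']
      simp only [neg_zero]
      refine ⟨fun a c => ?_, fun a c => ?_⟩
      · rw [add_zero]; exact P.1 a c
      · rw [add_zero]; exact P.2 a c
    · have P := hB.pushQ_twoE hb H.L H.X hy I.flat h2 hc h4
        (I.half hB (Or.inl (by rw [h2]; decide))).le
      rw [Fin.rev_rev] at P
      rw [e, e']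
      simp only [neg_zero]
      exact P
  · have e' : g = fun _ => 0 := by
      rcases S.dn with e' | ⟨h5, -, -⟩
      · exact e'
      · rw [h1] at h5
        exact absurd h5 (by decide)
    have h36 := hK A hc
    rw [h1] at h36
    have P := fun (c : ℝ) (hh : (c = 38 / 100 ∧ ofs (b j) (zs (.inl (.inl h))).im ≤ 128 / 1000) ∨
      (c = 355 / 1000 ∧ ofs (b j) (zs (.inl (.inl h))).im ≤ 138 / 1000)) =>
      hB.pushQ_one A2.rev2 hb H.L H.X H.P H.S hy I.flat I.c64 I.sum h1 hc hk h36 hx hh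
    rcases ht with ⟨h6, e⟩ | ⟨h6, e⟩
    · have Q := P _ (Or.inl ⟨rfl, by linarith only [hT, h6]⟩)
      rw [Fin.rev_rev] at Q
      rw [e, e']
      simp only [neg_zero]
      exact Q
    · have Q := P _ (Or.inr ⟨rfl, by linarith only [hT, h6]⟩)
      rw [Fin.rev_rev] at Q
      rw [e, e']
      simp only [neg_zero]
      exact Q

/-- the sum form from the two sides of a hinge -/
theorem PushS.of_adj (hC : Crit b zs) (A : Adj h i p j) {f g f' g' : ℝ → ℝ}
    (h1 : PushQ (tyW b) b i p p.rev (Xw b zs y i) (xx (tyW b) i zs) f g)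
    (h2 : PushQ (tyW b) b j p.rev p (Xw b zs y j) (xx (tyW b) j zs) f' g')
    (hf : ∀ m, f m + f' m ≤ 0) (hg : ∀ m, g m + g' m ≤ 0) :
    PushS (tyW b) b (wpar b zs) zs y h := by
  cases A
  · exact PushS.of_q hC.inn hC.dT h1 h2 (hf _) (hg _)
  · exact PushS.of_q hC.inn hC.dT h2 h1 (by rw [add_comm]; exact hf _)
      (by rw [add_comm]; exact hg _)

/-- **The push of the hinges of the rings.** -/
theorem RFacts.hq (F : RFacts b zs) (H : LocA b zs) (hy : Mx b zs y)
    (I : PushIn b zs y) (A : Adj h i p j) (hc : clsW b i = .ring) :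
    PushS (tyW b) b (wpar b zs) zs y h := by
  have hb := F.H.hb
  have hf := I.flat
  have hpos : ∀ h : Fin M, 0 < y (.inl (.inl h)) := fun h => (wcl_pos h).trans_le (hf h).1
  have hK : Capped b y := hf.capped hb H hy
  have R := ringSt hb F.H.hL F.H.hX F.H.hR hy hf
  obtain ⟨v, hv, -⟩ := A.ring hb F.H.hL hy hc
  obtain ⟨f, g, S, P⟩ := F.pushR A hy hf hc R hv hK
  by_cases hj : clsW b j = .ring
  · obtain ⟨w, hw, -⟩ := A.symm.ring hb F.H.hL hy hj
    obtain ⟨f', g', S', P'⟩ := F.pushR A.symm hy hf hj R hw hK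
    rw [Fin.rev_rev] at P'
    have e : f = fun _ => 0 := by
      rcases S.up with e | ⟨h1, -⟩
      · exact e
      · rw [hj] at h1
        exact absurd h1 (by decide)
    have e1 : g = fun _ => 0 := by
      rcases S.dn with e | ⟨h1, -⟩
      · exact e
      · rw [hj] at h1
        exact absurd h1 (by decide)
    have e2 : f' = fun _ => 0 := by
      rcases S'.up with e | ⟨h1, -⟩
      · exact e
      · rw [hc] at h1
        exact absurd h1 (by decide)
    have e3 : g' = fun _ => 0 := by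
      rcases S'.dn with e | ⟨h1, -⟩
      · exact e
      · rw [hc] at h1
        exact absurd h1 (by decide)
    exact PushS.of_adj F.H.hC A P P' (fun m => by rw [e, e2]; simp) (fun m => by rw [e1, e3]; simp)
  · exact PushS.of_adj F.H.hC A P (S.pay A hb H hy hpos I hK hc hj) (fun m => by simp)
      (fun m => by simp)

/-- **The ring variables if the hinges are at the saddle point.** -/
theorem RFacts.hrin (F : RFacts b zs) (H : LocA b zs) (hy : Mx b zs y)
    (I : PushIn b zs y) (hh : ∀ h : Fin M, y (.inl (.inl h)) = (zs (.inl (.inl h))).re)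
    (v : ZZ (tyW b)) : y (.inr v) = (zs (.inr v)).re := by
  have G := F.H
  have hb := G.hb
  have hf := I.flat
  have hK : Capped b y := hf.capped hb H hy
  have R := ringSt hb G.hL G.hX G.hR hy hf
  have hc := clsW_ring hb v
  obtain ⟨h, p, j, A⟩ := ring_adj_v hb G.hL G.hC v
  have hys := G.ys A hc rfl
  have f1 := G.xs_flat A hc
  rcases he : isEnd v.1 with _ | _
  · obtain ⟨h', k, A'⟩ := A.other' b he
    obtain ⟨f, g, f', g', -, -, P⟩ := F.prI A A' hc rfl he
    exact A.in_ring2 A' hb G.hL G.hC hy hf hc R rfl P.lp P.lq (G.int A hc rfl he)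
      (G.int A' hc rfl he) (ralp_pos _ _) hys.1 f1 (G.xs_flat A' hc) (fcl_pos' _) (fcl_pos' _)
      (fcp_lt' _) (fcp_lt' _) (hh _) (hh _)
  · by_cases hj : clsW b j = .twoE ∧ (b v.1).natAbs = 4
    · obtain ⟨-, l, r⟩ := F.at42 A hc rfl he hj.1 hj.2
      exact A.in_ring1 he hb G.hL G.hC hy hf hc R rfl l r hys.1 f1 (fcl_pos' _) (fcp_lt' _) (hh _)
    · obtain ⟨f, g, -, P⟩ := F.enI A hc rfl he
      refine A.in_ring1 he hb G.hL G.hC hy hf hc R rfl P.l (G.en A hc rfl he fun h0 => ?_) hys.1 f1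
        (fcl_pos' _) (fcp_lt' _) (hh _)
      rcases (ring_four hb (tyW_of_ring hb hc)).eq_or_lt with h5 | h5
      · exact absurd ⟨h0, h5.symm⟩ hj
      · exact h5

end SR

end Pool.Agent.Work.MP_b30479_gt.G2
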