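import Pool.Agent.Work.MP_b30479_gt.G2.WFin
import Pool.Agent.Work.MP_b30479_gt.G2.RWs
import Pool.Agent.Work.MP_b30479_gt.G2.RFa
import Pool.Agent.Work.MP_b30479_gt.G2.CN.LocRw6
import Pool.Agent.Work.MP_b30479_gt.G2.CN.LocR2w
import Pool.Agent.Work.MP_b30479_gt.G2.CN.LocRy
import Pool.Agent.Work.MP_b30479_gt.G2.CN.LocR2e

/-!
# All facts about the rings of a word
-/

namespace Pool.Agent.Work.MP_b30479_gt.G2

namespace SR

open CN.LA CN.TD

variable {M : ℕ} {b : Fin (M + 1) → ℤ} {w : ℕ → ℂ}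

/-- **All facts about the location of the saddle point at the rings.** -/
theorem rfacts_of (hb : ClassW b) (hM : 1 ≤ M) (hw : Sol b w) (hC : Crit b (zsW b w)) :
    RFacts b (zsW b w) := by
  have A := locA_of hb hM hw hC
  have hK := CN.kok_kr3
  have hS := snd3 hb hw hM
  have Bx := boxRows hK (locZ hK) (CN.S6.locS hK) Kr3_le
  exact
    { H := RLoc.of hb A.L hC A.X A.R A.G A.F
      H4 := A.F
      w4 := locRw4_of hb ringFacts hw hM hK hS Bx
      w5 := locRw5_of hb ringFacts hw hM hK hS Bx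
      w6 := locRw6_of hb ringFacts hw hM hK hS Bx
      k4 := locRk4_of hb ringFacts hw hM hK hS Bx
      k5 := locRk5_of hb ringFacts hw hM hK hS Bx
      h5 := locRh5_of hb ringFacts hw hM hK hS Bx
      d4 := locR24_of hb ringFacts hw hM hS Bx hK
      d5 := locR25_of hb ringFacts hw hM hS Bx hK
      c7 := locRc7_of hb ringFacts hw hM hK Kr3_le hS Bx
      e7 := locRd7_of hb ringFacts hw hM hK Kr3_le hS Bx
      c8 := locRc8_of hb ringFacts hw hM hK Kr3_le hS Bx
      e2 := locR2e_of hb ringFacts hw hM hK hS Bx }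

end SR

end Pool.Agent.Work.MP_b30479_gt.G2
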