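import Pool.Agent.Work.MP_b30479_gt.G2.V2BL
import Pool.Agent.Work.MP_b30479_gt.G2.WLocO
import Pool.Agent.Work.MP_b30479_gt.G2.WLocN

/-!
# The hypothesis `Mid13` from the location facts
-/

namespace Pool.Agent.Work.MP_b30479_gt.G2

namespace SR

variable {M : ℕ} {b : Fin (M + 1) → ℤ} {zs : DD (tyW b) ⊕ ZZ (tyW b) → ℂ}

/-- **`Mid13` holds.** -/
theorem Mid13.of (hN : LocM1 b zs) (hO : LocM2 b zs) : Mid13 b zs where
  one0 := by
    intro h h' h2 i j k r hm A A' A3 hi hj hr
    by_cases hk : clsW b k = .one
    · exact hN.one0 hm A A' A3 hi hj hk hr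
    · have := (hO.one hm A A' A3 hi hj hr).1
      refine le_trans ?_ this
      generalize clsW b k = B at hk
      cases B <;> first | exact absurd rfl hk | norm_num [mw3]
  one1 := by
    intro h h' h2 i j k r hm A A' A3 hi hj hr hT
    by_cases hk : clsW b k = .one
    · exact hN.one1 hm A A' A3 hi hj hk hr hT
    · have := (hO.one hm A A' A3 hi hj hr).1
      refine le_trans ?_ this
      generalize clsW b k = B at hk
      cases B <;> first | exact absurd rfl hk | norm_num [mw3]
  two0 := by
    intro h h' h2 i j k r hm A A' A3 hi hj hr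
    by_cases hk : clsW b k = .one
    · exact hN.two0 hm A A' A3 hi hj hk hr
    · have := (hO.two hm A A' A3 hi hj hr).1
      refine le_trans ?_ this
      generalize clsW b k = B at hk
      cases B <;> first | exact absurd rfl hk | norm_num [mw3]
  two1 := by
    intro h h' h2 i j k r hm A A' A3 hi hj hr hT
    by_cases hk : clsW b k = .one
    · exact hN.two1 hm A A' A3 hi hj hk hr hT
    · have := (hO.two hm A A' A3 hi hj hr).1
      refine le_trans ?_ this
      generalize clsW b k = B at hk
      cases B <;> first | exact absurd rfl hk | norm_num [mw3]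

end SR

end Pool.Agent.Work.MP_b30479_gt.G2
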