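import Pool.Agent.Work.MP_b30479_gt.G2.V30E
import Pool.Agent.Work.MP_b30479_gt.G2.WLocX
import Pool.Agent.Work.MP_b30479_gt.G2.MLev

/-!
# The inner variable of an inner digit `3` is not on its left ramp

No floors of the hinges are used: `V3_low` (values), `mid_gt` (in a word).
-/

namespace Pool.Agent.Work.MP_b30479_gt.G2

open VOL NumU

namespace VL

open SR

variable {r t T S : ℝ}

/-- parameters of the left hinge of an inner digit `3` whose neighbour there has class `A` -/
noncomputable def pL : Cl → HPar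
  | .one => ⟨65 / 100, 13 / 100, 15 / 100⟩
  | .two => ⟨60 / 100, 12 / 100, 27 / 100⟩
  | .three => ⟨60 / 100, 13 / 100, 30 / 100⟩
  | _ => ⟨60 / 100, 12 / 100, 30 / 100⟩

/-- parameters of the right hinge of an inner digit `3` whose neighbour there has class `K` -/
noncomputable def pR : Cl → HPar
  | .one => ⟨65 / 100, 15 / 100, 29 / 100⟩
  | _ => ⟨60 / 100, 13 / 100, 30 / 100⟩

theorem hp_pL (P A Q : Cl) : hp P A .three Q = pL A := by
  cases A <;> rfl

theorem hp_pR (P K Q : Cl) : hp P .three K Q = pR K := by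
  cases K <;> rfl

/-- caps of the left hinge -/
noncomputable def cpL : Cl → ℝ
  | .one => 43 / 100
  | .two => 33 / 100
  | _ => 31 / 100

/-- caps of the right hinge -/
noncomputable def cpR : Cl → ℝ
  | .one => 39 / 100
  | .three => 39 / 100
  | _ => 31 / 100

/-- windows of the heights of the three variables of an inner digit `3` -/
structure HtW (A K : Cl) (T t S : ℝ) : Prop where
  T0 : (hbox .three A false).t0 ≤ T
  T1 : T ≤ (hbox .three A false).t1
  TZ : A = .ring → -(1 / 1000) ≤ T
  S0 : (hbox .three K false).t0 ≤ S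
  S1 : S ≤ (hbox .three K false).t1
  t0 : (mw A K).t0 ≤ t
  t1 : t ≤ (mw A K).t1
  d0 : (mw A K).s0 ≤ t - T
  d1 : t - T ≤ (mw A K).s1

theorem HtW.t_all {A K : Cl} (H : HtW A K T t S) : -(123 / 1000) ≤ t ∧ t ≤ 5 / 1000 ∧
    (t ≤ 0 ∨ -(57 / 1000) ≤ S) := by
  have h0 := H.t0
  have h1 := H.t1
  have h2 := H.S0
  refine ⟨?_, ?_, ?_⟩
  · refine le_trans ?_ h0
    cases A <;> cases K <;> norm_num [mw]
  · refine h1.trans ?_
    cases A <;> cases K <;> norm_num [mw]
  · cases K
    · left
      refine h1.trans ?_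
      cases A <;> norm_num [mw]
    · right
      refine le_trans ?_ h2
      norm_num [hbox]
    · left
      refine h1.trans ?_
      cases A <;> norm_num [mw]
    · right
      refine le_trans ?_ h2
      norm_num [hbox]
    · right
      refine le_trans ?_ h2
      norm_num [hbox]
    · right
      refine le_trans ?_ h2
      norm_num [hbox]

theorem HW_of {A K : Cl} {w : ℂ} (H : HtW A K T t S) (hw : RH w S (pR K).XM (pR K).cl (pR K).cr)
    (hc : w.re ≤ cpR K) : HW w S := by
  have h0 := H.S0
  have h1 := H.S1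
  constructor
  cases K
  · left
    simp only [hbox, pR, cpR] at h0 h1 hw hc
    exact ⟨hw, hc, h0, h1⟩
  all_goals
    right
    simp only [hbox, pR, cpR] at h0 h1 hw hc
    refine ⟨hw, by linarith only [hc], ?_, ?_⟩ <;> linarith only [h0, h1]

/-- the part `DF` is positive -/
theorem DF_pos {A K : Cl} {u : ℂ} (H : HtW A K T t S)
    (hu : RH u T (pL A).XM (pL A).cl (pL A).cr) (hc : u.re ≤ cpL A) (hr : 0 ≤ r)
    (hr' : r ≤ 5 / 100) :
    0 < DF (24 / 100) u.re u.im t r ∨ 0 < DF (44 / 100) u.re u.im t r := by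
  obtain ⟨t0, t1, -⟩ := H.t_all
  have a1 := H.T0
  have a2 := H.T1
  have a3 := H.t0
  have a4 := H.t1
  have a5 := H.d0
  have a6 := H.d1
  have hn : ((44 : ℤ) : ℝ) / 100 = 44 / 100 := by norm_num
  have hn' : ((24 : ℤ) : ℝ) / 100 = 24 / 100 := by norm_num
  have ramp : ∀ cl : ℝ, 0 < cl → u.re ≤ cl → cl ≤ 13 / 100 → u.im = T * (u.re / cl) →
      -(8808 / 10000) ≤ T / cl → T / cl ≤ 475 / 1000 → -(107 / 1000) ≤ t - 12 / 100 * (T / cl) →
      0 < DF (24 / 100) u.re u.im t r := by
    intro cl h0 h1 h2 h3 h4 h5 h6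
    rw [show u.im = T / cl * u.re by rw [h3]; ring]
    exact DF_ramp hu.re0 (by linarith only [h1, h2]) h4 h5 t0 t1 hr hr' h6
  cases A
  · simp only [hbox, pL, cpL] at a1 a2 hu hc
    have b3 : -(90 / 1000) ≤ t := le_trans (by cases K <;> norm_num [mw]) a3
    have b5 : -(45 / 1000) ≤ t - T := le_trans (by cases K <;> norm_num [mw]) a5
    have b6 : t - T ≤ 84 / 1000 := a6.trans (by cases K <;> norm_num [mw])
    rcases le_total u.re (13 / 100) with h | h
    · left
      refine ramp (13 / 100) (by norm_num) h le_rfl ?_ ?_ ?_ ?_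
      · rw [hu.im, tr_a (by norm_num) (by norm_num) (by norm_num) hu.re0 h]
      all_goals linarith only [a1, a2, b3]
    · right
      have e : u.im = T := by
        rw [hu.im, tr_b (by norm_num) (by norm_num) h (by linarith only [hc]), mul_one]
      rw [e]
      exact DF_level k_fmA k_fpA hn (by push_cast; linarith only [h]) (by push_cast; linarith only [hc])
        (by push_cast; linarith only [a1]) (by push_cast; linarith only [a2]) (by push_cast; linarith only [b3])
        (by push_cast; linarith only [t1]) hr hr' (by push_cast; linarith only [b5]) (by push_cast; linarith only [b6])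
  · simp only [hbox, pL, cpL] at a1 a2 hu hc
    have b3 : -(114 / 1000) ≤ t := le_trans (by cases K <;> norm_num [mw]) a3
    have b5 : -(105 / 1000) ≤ t - T := le_trans (by cases K <;> norm_num [mw]) a5
    have b6 : t - T ≤ 28 / 1000 := a6.trans (by cases K <;> norm_num [mw])
    rcases le_total u.re (12 / 100) with h | h
    · left
      refine ramp (12 / 100) (by norm_num) h (by norm_num) ?_ ?_ ?_ ?_
      · rw [hu.im, tr_a (by norm_num) (by norm_num) (by norm_num) hu.re0 h]
      all_goals linarith only [a1, a2, b5]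
    · right
      have e : u.im = T := by
        rw [hu.im, tr_b (by norm_num) (by norm_num) h (by linarith only [hc]), mul_one]
      rw [e]
      exact DF_level k_fmN k_fpN hn (by push_cast; linarith only [h]) (by push_cast; linarith only [hc])
        (by push_cast; linarith only [a1]) (by push_cast; linarith only [a2]) (by push_cast; linarith only [b3])
        (by push_cast; linarith only [t1]) hr hr' (by push_cast; linarith only [b5]) (by push_cast; linarith only [b6])
  · simp only [hbox, pL, cpL] at a1 a2 hu hc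
    have b4 : t ≤ -(64 / 1000) := a4.trans (by cases K <;> norm_num [mw])
    have b5 : -(48 / 1000) ≤ t - T := le_trans (by cases K <;> norm_num [mw]) a5
    have b6 : t - T ≤ 32 / 1000 := a6.trans (by cases K <;> norm_num [mw])
    rcases le_total u.re (12 / 100) with h | h
    · left
      refine ramp (12 / 100) (by norm_num) h (by norm_num) ?_ ?_ ?_ ?_
      · rw [hu.im, tr_a (by norm_num) (by norm_num) (by norm_num) hu.re0 h]
      all_goals linarith only [a1, a2, t0]
    · right
      have e : u.im ≤ -(734 / 10000) ∧ T ≤ u.im ∧ u.im ≤ T + 33 / 10000 := by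
        rcases le_total u.re (30 / 100) with h5 | h5
        · rw [hu.im, tr_b (by norm_num) (by norm_num) h (by linarith only [h5]), mul_one]
          refine ⟨?_, ?_, ?_⟩ <;> linarith only [a2]
        · rw [hu.im, tr_c (by norm_num) (by norm_num) (by norm_num) (by linarith only [h5]) hu.reM]
          refine ⟨?_, ?_, ?_⟩ <;> nlinarith only [hc, a2, h5, a1]
      obtain ⟨e1, e2, e3⟩ := e
      exact DF_level k_fmE k_fpE hn (by push_cast; linarith only [h]) (by push_cast; linarith only [hc])
        (by push_cast; linarith only [a1, e2]) (by push_cast; linarith only [e1]) (by push_cast; linarith only [t0])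
        (by push_cast; linarith only [b4]) hr hr' (by push_cast; linarith only [t0, e1]) (by push_cast; linarith only [b6, e2])
  · simp only [hbox, pL, cpL] at a1 a2 hu hc
    have b3 : -(114 / 1000) ≤ t := le_trans (by cases K <;> norm_num [mw]) a3
    have b5 : -(105 / 1000) ≤ t - T := le_trans (by cases K <;> norm_num [mw]) a5
    have b6 : t - T ≤ 28 / 1000 := a6.trans (by cases K <;> norm_num [mw])
    rcases le_total u.re (13 / 100) with h | h
    · left
      refine ramp (13 / 100) (by norm_num) h le_rfl ?_ ?_ ?_ ?_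
      · rw [hu.im, tr_a (by norm_num) (by norm_num) (by norm_num) hu.re0 h]
      all_goals linarith only [a1, a2, b3, b5]
    · right
      have e : -(22 / 1000) ≤ u.im ∧ u.im ≤ 22 / 1000 ∧ T - 1 / 1000 ≤ u.im ∧
          u.im ≤ T + 1 / 1000 := by
        rcases le_total u.re (30 / 100) with h5 | h5
        · rw [hu.im, tr_b (by norm_num) (by norm_num) h (by linarith only [h5]), mul_one]
          refine ⟨?_, ?_, ?_, ?_⟩ <;> linarith only [a1, a2]
        · rw [hu.im, tr_c (by norm_num) (by norm_num) (by norm_num) (by linarith only [h5]) hu.reM]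
          refine ⟨?_, ?_, ?_, ?_⟩ <;> nlinarith only [a1, h5, hc, a2, h]
      obtain ⟨e1, e2, e3, e4⟩ := e
      exact DF_level k_fmN k_fpN hn (by push_cast; linarith only [h]) (by push_cast; linarith only [hc])
        (by push_cast; linarith only [e1]) (by push_cast; linarith only [e2]) (by push_cast; linarith only [b3])
        (by push_cast; linarith only [t1]) hr hr' (by push_cast; linarith only [b5, e4]) (by push_cast; linarith only [t1, e1])
  · simp only [hbox, pL, cpL] at a1 a2 hu hc
    have b3 : -(114 / 1000) ≤ t := le_trans (by cases K <;> norm_num [mw]) a3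
    have b5 : -(105 / 1000) ≤ t - T := le_trans (by cases K <;> norm_num [mw]) a5
    have b6 : t - T ≤ 28 / 1000 := a6.trans (by cases K <;> norm_num [mw])
    rcases le_total u.re (12 / 100) with h | h
    · left
      refine ramp (12 / 100) (by norm_num) h (by norm_num) ?_ ?_ ?_ ?_
      · rw [hu.im, tr_a (by norm_num) (by norm_num) (by norm_num) hu.re0 h]
      all_goals linarith only [a1, a2, b5]
    · right
      have e : -(28 / 1000) ≤ u.im ∧ u.im ≤ 0 ∧ T ≤ u.im ∧ u.im ≤ T + 1 / 1000 := by
        rcases le_total u.re (30 / 100) with h5 | h5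
        · rw [hu.im, tr_b (by norm_num) (by norm_num) h (by linarith only [h5]), mul_one]
          refine ⟨?_, ?_, ?_, ?_⟩ <;> linarith only [a1, a2]
        · rw [hu.im, tr_c (by norm_num) (by norm_num) (by norm_num) (by linarith only [h5]) hu.reM]
          refine ⟨?_, ?_, ?_, ?_⟩ <;> nlinarith only [a1, h5, hc, a2]
      obtain ⟨e1, e2, e3, e4⟩ := e
      exact DF_level k_fmN k_fpN hn (by push_cast; linarith only [h]) (by push_cast; linarith only [hc])
        (by push_cast; linarith only [e1]) (by push_cast; linarith only [e2]) (by push_cast; linarith only [b3])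
        (by push_cast; linarith only [t1]) hr hr' (by push_cast; linarith only [b5, e4]) (by push_cast; linarith only [t1, b6, e1, e3])
  · have a0 := H.TZ rfl
    simp only [hbox, pL, cpL] at a1 a2 hu hc
    have b3 : -(114 / 1000) ≤ t := le_trans (by cases K <;> norm_num [mw]) a3
    have b5 : -(105 / 1000) ≤ t - T := le_trans (by cases K <;> norm_num [mw]) a5
    have b6 : t - T ≤ 28 / 1000 := a6.trans (by cases K <;> norm_num [mw])
    rcases le_total u.re (12 / 100) with h | h
    · left
      refine ramp (12 / 100) (by norm_num) h (by norm_num) ?_ ?_ ?_ ?_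
      · rw [hu.im, tr_a (by norm_num) (by norm_num) (by norm_num) hu.re0 h]
      all_goals linarith only [a0, a2, b5]
    · have e : -(1 / 1000) ≤ u.im ∧ u.im ≤ 57 / 1000 ∧ T - 2 / 1000 ≤ u.im ∧
          u.im ≤ T + 1 / 1000 := by
        rcases le_total u.re (30 / 100) with h5 | h5
        · rw [hu.im, tr_b (by norm_num) (by norm_num) h (by linarith only [h5]), mul_one]
          refine ⟨?_, ?_, ?_, ?_⟩ <;> linarith only [a0, a2]
        · rw [hu.im, tr_c (by norm_num) (by norm_num) (by norm_num) (by linarith only [h5]) hu.reM]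
          refine ⟨?_, ?_, ?_, ?_⟩ <;> nlinarith only [a0, h5, hc, a2, a1]
      obtain ⟨e1, e2, e3, e4⟩ := e
      rcases le_total u.re (22 / 100) with h6 | h6
      · left
        exact DF_level k_fmY k_fpY hn' (by push_cast; linarith only [h]) (by push_cast; linarith only [h6])
          (by push_cast; linarith only [e1]) (by push_cast; linarith only [e2]) (by push_cast; linarith only [a0, b5])
          (by push_cast; linarith only [t1]) hr hr' (by push_cast; linarith only [b5, e4]) (by push_cast; linarith only [t1, e1])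
      · right
        exact DF_level k_fmZ k_fpZ hn (by push_cast; linarith only [h6]) (by push_cast; linarith only [hc])
          (by push_cast; linarith only [e1]) (by push_cast; linarith only [e2]) (by push_cast; linarith only [a0, b5])
          (by push_cast; linarith only [t1]) hr hr' (by push_cast; linarith only [b5, e4]) (by push_cast; linarith only [t1, e1])

/-- **Values: the inner variable on its left ramp can be improved.** -/
theorem V3_low {A K : Cl} {u v w : ℂ} (H : HtW A K T t S)
    (hu : RH u T (pL A).XM (pL A).cl (pL A).cr) (hc : u.re ≤ cpL A)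
    (hw : RH w S (pR K).XM (pR K).cl (pR K).cr) (hc' : w.re ≤ cpR K)
    (hv : RH v t (8 / 10) (5 / 100) (5 / 100)) (hr : v.re ≤ 5 / 100) :
    ∃ c : ℝ, 5 / 100 ≤ c ∧ c ≤ 75 / 100 ∧ V3 u v w < V3 u (lv c t) w := by
  have h0 := hv.re0
  have e : v.im = 20 * t * v.re := by
    rw [hv.im, tr_a (by norm_num) (by norm_num) (by norm_num) h0 hr]
    ring
  obtain ⟨t0, t1, t2⟩ := H.t_all
  have hW := HW_of H hw hc'
  rcases DF_pos H hu hc h0 hr with h | h
  · refine ⟨24 / 100, by norm_num, by norm_num, ?_⟩
    have h1 := V3_diff' (u := u) (v' := lv (24 / 100) t) (w := w) rfl e (lv_re _ _) (lv_im _ _)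
    have h2 := GG_24 hW t0 t1 t2 h0 hr
    linarith only [h, h1, h2]
  · refine ⟨44 / 100, by norm_num, by norm_num, ?_⟩
    have h1 := V3_diff' (u := u) (v' := lv (44 / 100) t) (w := w) rfl e (lv_re _ _) (lv_im _ _)
    have h2 := GG_44 hW t0 t1 t2 h0 hr
    linarith only [h, h1, h2]

end VL

namespace SR

variable {M : ℕ} {b : Fin (M + 1) → ℤ} {zs : DD (tyW b) ⊕ ZZ (tyW b) → ℂ}
variable {y : DD (tyW b) ⊕ ZZ (tyW b) → ℝ}
variable {h h' : Fin M} {i j k : Fin (M + 1)}

/-- parameters of the left hinge -/
theorem Adj.par_three0 (A : Adj h i 0 j) (hc : clsW b i = .three) :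
    wXM b h = (VL.pL (clsW b j)).XM ∧ wcl b h = (VL.pL (clsW b j)).cl ∧
      wcr b h = (VL.pL (clsW b j)).cr := by
  cases A
  unfold wXM wcl wcr
  rw [hc, VL.hp_pL]
  exact ⟨rfl, rfl, rfl⟩

/-- parameters of the right hinge -/
theorem Adj.par_three2 (A : Adj h i 2 j) (hc : clsW b i = .three) :
    wXM b h = (VL.pR (clsW b j)).XM ∧ wcl b h = (VL.pR (clsW b j)).cl ∧
      wcr b h = (VL.pR (clsW b j)).cr := by
  cases A
  unfold wXM wcl wcr
  rw [hc, VL.hp_pR]
  exact ⟨rfl, rfl, rfl⟩

theorem hbox_three_ss (A : Cl) (s : Bool) : hbox .three A s = hbox .three A false := by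
  cases A <;> rfl

/-- the inner variable of an interior digit `3` -/
def mT (b : Fin (M + 1) → ℤ) (hc : clsW b i = .three) :
    {i : Fin (M + 1) // (tyW b i).isMid = true} := ⟨i, tyW_isMid (Or.inl hc)⟩

/-- its height in the own frame -/
noncomputable def hT (zs : DD (tyW b) ⊕ ZZ (tyW b) → ℂ) (hc : clsW b i = .three) : ℝ :=
  ofs (b i) (zs (.inl (.inr (mT b hc)))).im

theorem pp_mT (hc : clsW b i = .three) :
    (wpar b zs).XM (.inr (mT b hc)) = 8 / 10 ∧ (wpar b zs).cl (.inr (mT b hc)) = 5 / 100 ∧
      (wpar b zs).cr (.inr (mT b hc)) = 5 / 100 := by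
  refine ⟨?_, ?_, ?_⟩ <;> simp [wpar, par1, mp, mT, hc]

/-- the heights of an inner digit `3` -/
theorem htW (hb : ClassW b) (hL : Loc b zs) (hX : LocX b zs) (A : Adj h i 0 j)
    (A' : Adj h' i 2 k) (hc : clsW b i = .three) :
    VL.HtW (clsW b j) (clsW b k) (ofs (b i) (zs (.inl (.inl h))).im) (hT zs hc)
      (ofs (b i) (zs (.inl (.inl h'))).im) := by
  have h1 := A.box hb hL
  have h2 := A'.box hb hL
  have h3 := hX.mid (tyW_isMid (Or.inl hc)) A A' hc
  rw [hc, hbox_three_ss] at h1 h2
  exact ⟨h1.2.2.1, h1.2.2.2, fun hz => hX.three A hc hz, h2.2.2.1, h2.2.2.2, h3.1, h3.2.1,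
    h3.2.2.1, h3.2.2.2⟩

/-- **The inner variable of an inner digit `3` is not on its left ramp.** -/
theorem mid_gt (hb : ClassW b) (hL : Loc b zs) (hX : LocX b zs)
    (hy : IsMx (wdat (tyW b) b) (wpar b zs) zs y) (A : Adj h i 0 j)
    (A' : Adj h' i 2 k) (hc : clsW b i = .three)
    (hu : y (.inl (.inl h)) ≤ VL.cpL (clsW b j)) (hw : y (.inl (.inl h')) ≤ VL.cpR (clsW b k)) :
    5 / 100 < y (.inl (.inr (mT b hc))) := by
  by_contra hcon
  have hcon := not_lt.1 hcon
  obtain ⟨p1, p2, p3⟩ := pp_mT (zs := zs) hc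
  have hR := mid_RH hy (mT b hc)
  rw [p1, p2, p3] at hR
  have hre : (Yw b zs y (mT b hc).1 1).re = y (.inl (.inr (mT b hc))) := by
    rw [Yw_mid (zs := zs) (y := y) (mT b hc), ofr_pp_re]
  have q := A.rh hy
  have q' := A'.rh hy
  obtain ⟨e1, e2, e3⟩ := A.par_three0 hc
  obtain ⟨e1', e2', e3'⟩ := A'.par_three2 hc
  rw [e1, e2, e3] at q
  rw [e1', e2', e3'] at q'
  obtain ⟨c, c0, c1, hlt⟩ := VL.V3_low (htW hb hL hX A A' hc) q (by rw [A.re]; exact hu) q'
    (by rw [A'.re]; exact hw) hR (by rw [hre]; exact hcon)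
  have ht := tyW_of_three hc
  have hne : tyW b i ≠ .ring := by rw [ht]; decide
  have h2 := hy.upd (.inl (.inr (mT b hc))) (c := c) (by show (0 : ℝ) ≤ c; linarith only [c0])
    (by show c ≤ (wpar b zs).XM (.inr (mT b hc)); rw [p1]; linarith only [c1])
  have h3 : (wdat (tyW b) b).V (Function.update ((wpar b zs).pth zs y) (.inl (.inr (mT b hc)))
      ((wpar b zs).pp zs (.inl (.inr (mT b hc))) c)) -
      (wdat (tyW b) b).V ((wpar b zs).pth zs y) =
      rV (tyW b) b i (Function.update (xx (tyW b) i ((wpar b zs).pth zs y)) 1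
        ((wpar b zs).pp zs (.inl (.inr (mT b hc))) c)) -
      rV (tyW b) b i (xx (tyW b) i ((wpar b zs).pth zs y)) :=
    V_upd_mid (tyW b) b (mT b hc) ((wpar b zs).pth zs y)
      ((wpar b zs).pp zs (.inl (.inr (mT b hc))) c)
  rw [rV_own hb, rV_own hb, own_update_one hne] at h3
  have e5 : ofr (b i) ((wpar b zs).pp zs (.inl (.inr (mT b hc))) c) = lv c (hT zs hc) :=
    ofr_pp_flat (wpar_good b zs) zs (.inr (mT b hc)) (b i) (by rw [p2]; exact c0)
      (by rw [p1, p3]; linarith only [c1])
  have e6 : own (b i) (tyW b i) (xx (tyW b) i ((wpar b zs).pth zs y)) = OY b zs y i := rfl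
  rw [e6, e5] at h3
  have h4 : OV b i (Function.update (OY b zs y i) 1 (lv c (hT zs hc))) - OV b i (OY b zs y i) ≤
      0 := by linarith only [hc, h2, h3]
  have hlt' : V3 (Yw b zs y i 0) (Yw b zs y i 1) (Yw b zs y i 2) <
    V3 (Yw b zs y i 0) (lv c (hT zs hc)) (Yw b zs y i 2) := hlt
  rw [OV_three hb hc, OV_three hb hc, Function.update_self, Function.update_of_ne (by decide),
    Function.update_of_ne (by decide), OY_zero, OY_one hne, OY_two] at h4
  linarith only [hc, h4, hlt']

end SR

end Pool.Agent.Work.MP_b30479_gt.G2
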