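import Pool.Agent.Work.MP_b30479_gt.G2.V33D
import Pool.Agent.Work.MP_b30479_gt.G2.V30F
import Pool.Agent.Work.MP_b30479_gt.G2.V2A
import Pool.Agent.Work.MP_b30479_gt.G2.R32

/-!
# The flat end of a hinge between two inner digits `3`

`cap33_S0`: if the hinge in slot 2 of the right digit satisfies its cap, the hinge is at most
`39/100`.  No floors are used.
-/

namespace Pool.Agent.Work.MP_b30479_gt.G2

open VOL NumU

namespace SR

variable {M : ℕ} {b : Fin (M + 1) → ℤ} {zs : DD (tyW b) ⊕ ZZ (tyW b) → ℂ}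
variable {y : DD (tyW b) ⊕ ZZ (tyW b) → ℝ}
variable {h h' : Fin M} {i j k l : Fin (M + 1)}

/-- a move of the inner variable of an inner digit `3` does not increase the value -/
theorem V3_le_of_mid (hb : ClassW b) (hy : IsMx (wdat (tyW b) b) (wpar b zs) zs y)
    (hc : clsW b k = .three) {c : ℝ} (c0 : 5 / 100 ≤ c) (c1 : c ≤ 75 / 100) :
    V3 (Yw b zs y k 0) (lv c (hT zs hc)) (Yw b zs y k 2) ≤
      V3 (Yw b zs y k 0) (Yw b zs y k 1) (Yw b zs y k 2) := by
  obtain ⟨p1, p2, p3⟩ := pp_mT (zs := zs) hc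
  have ht := tyW_of_three hc
  have hne : tyW b k ≠ .ring := by rw [ht]; decide
  have h2 := hy.upd (.inl (.inr (mT b hc))) (c := c) (by show (0 : ℝ) ≤ c; linarith only [c0])
    (by show c ≤ (wpar b zs).XM (.inr (mT b hc)); rw [p1]; linarith only [c1])
  have h3 : (wdat (tyW b) b).V (Function.update ((wpar b zs).pth zs y) (.inl (.inr (mT b hc)))
      ((wpar b zs).pp zs (.inl (.inr (mT b hc))) c)) -
      (wdat (tyW b) b).V ((wpar b zs).pth zs y) =
      rV (tyW b) b k (Function.update (xx (tyW b) k ((wpar b zs).pth zs y)) 1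
        ((wpar b zs).pp zs (.inl (.inr (mT b hc))) c)) -
      rV (tyW b) b k (xx (tyW b) k ((wpar b zs).pth zs y)) :=
    V_upd_mid (tyW b) b (mT b hc) ((wpar b zs).pth zs y)
      ((wpar b zs).pp zs (.inl (.inr (mT b hc))) c)
  rw [rV_own hb, rV_own hb, own_update_one hne] at h3
  have e5 : ofr (b k) ((wpar b zs).pp zs (.inl (.inr (mT b hc))) c) = lv c (hT zs hc) :=
    ofr_pp_flat (wpar_good b zs) zs (.inr (mT b hc)) (b k) (by rw [p2]; exact c0)
      (by rw [p1, p3]; linarith only [c1])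
  have e6 : own (b k) (tyW b k) (xx (tyW b) k ((wpar b zs).pth zs y)) = OY b zs y k := rfl
  rw [e6, e5] at h3
  have h4 : OV b k (Function.update (OY b zs y k) 1 (lv c (hT zs hc))) - OV b k (OY b zs y k) ≤
      0 := by linarith only [hc, h2, h3]
  rw [OV_three hb hc, OV_three hb hc, Function.update_self, Function.update_of_ne (by decide),
    Function.update_of_ne (by decide), OY_zero, OY_one hne, OY_two] at h4
  linarith only [hc, h4]

theorem cpR_le (K : Cl) : VL.cpR K ≤ 39 / 100 := by
  cases K <;> norm_num [VL.cpR]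

/-- **The flat end at `3 | 3`** -/
theorem cap33_S0 (hb : ClassW b) (hL : Loc b zs) (hX : LocX b zs)
    (hy : IsMx (wdat (tyW b) b) (wpar b zs) zs y) (hpos : ∀ h : Fin M, 0 < y (.inl (.inl h)))
    (A : Adj h i 2 k) (A' : Adj h' k 2 l) (hi : clsW b i = .three) (hk : clsW b k = .three)
    (hw : y (.inl (.inl h')) ≤ VL.cpR (clsW b l)) : y (.inl (.inl h)) ≤ 39 / 100 := by
  by_contra hcon
  push Not at hcon
  have B : Adj h k 0 i := A.symm
  have hk1 : clsW b k ≠ .one := by rw [hk]; decide
  have hi1 : clsW b i ≠ .one := by rw [hi]; decide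
  have hx5 : y (.inl (.inl h)) ≤ 1 / 2 := s0_cap hb hL hX hy B A' hk hi1 (by rw [hi]; decide)
    (hw.trans (cpR_le _))
  have hx0 : 30 / 100 < y (.inl (.inl h)) := by linarith only [hcon]
  have hop : b i * b k < 0 := A.opp hb (Or.inl (by rw [hi]; decide))
  obtain ⟨t1, t2⟩ := A.im_three hb hL hi
  rw [hk] at t1 t2
  norm_num [hbox] at t1 t2
  have em : ∀ T : ℝ, MR.mR 30 T = VL.S33.mR T := by
    intro T
    unfold MR.mR VL.S33.mR
    push_cast
    ring
  have eh : ∀ x T : ℝ, MR.tR 60 30 x T = VL.S33.hR x T := by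
    intro x T
    unfold MR.tR VL.S33.hR
    push_cast
    ring
  have hTk : ofs (b k) (zs (.inl (.inl h))).im = -ofs (b i) (zs (.inl (.inl h))).im :=
    ofs_opp hop _
  -- the left digit
  have s1 : Sw b zs y i 2 (slL b zs y h) < -VL.S33.bb (y (.inl (.inl h)))
      (-ofs (b i) (zs (.inl (.inl h))).im) := by
    obtain ⟨h1, j1, A1⟩ := A.other' b (clsW_inner hb (Or.inr (Or.inr hi)))
    have e0 : (2 : Fin 3).rev = 0 := rfl
    rw [e0] at A1
    have hm := hX.mid (tyW_isMid (Or.inl hi)) A1 A hi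
    rw [hk] at hm
    have q0 : -(116 / 1000) ≤ hT zs hi :=
      le_trans (by cases clsW b j1 <;> norm_num [mw]) hm.1
    have q1 : hT zs hi ≤ 5 / 1000 :=
      hm.2.1.trans (by cases clsW b j1 <;> norm_num [mw])
    obtain ⟨p1, p2, p3⟩ := pp_mT (zs := zs) hi
    have hR := mid_RH hy (mT b hi)
    rw [p1, p2, p3] at hR
    rw [A.side_three_two hb hi, A.slope_three hi hk1 hx0, em]
    have := VL.S33.left_lt (w := Yw b zs y i 2) (T := ofs (b i) (zs (.inl (.inl h))).im)
      (by rw [A.height_three A hi hk1 hy hx0, eh]) (by rw [A.re]; linarith only [hcon])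
      (by rw [A.re]; exact hx5) (by linarith only [t1]) (by linarith only [t2]) hR q0 q1
    rw [A.re] at this
    exact this
  -- the right digit
  have H := htW hb hL hX B A' hk
  rw [hi] at H
  have hR := mid_RH hy (mT b hk)
  obtain ⟨p1, p2, p3⟩ := pp_mT (zs := zs) hk
  rw [p1, p2, p3] at hR
  have hu : (Yw b zs y k 0).im = VL.S33.hR (Yw b zs y k 0).re
      (ofs (b k) (zs (.inl (.inl h))).im) := by
    rw [A.height_three B hi hk1 hy hx0, eh]
  have R : VL.S33.Rr (Yw b zs y k 0).re (ofs (b k) (zs (.inl (.inl h))).im) (hT zs hk) := by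
    have w1 := H.t0
    have w2 := H.t1
    have w3 := H.d0
    have w4 := H.d1
    refine ⟨by rw [B.re]; linarith only [hcon], by rw [B.re]; exact hx5, by rw [hTk]; linarith only [t2],
      by rw [hTk]; linarith only [t1], ?_, ?_, ?_, ?_⟩
    · exact le_trans (by cases clsW b l <;> norm_num [mw]) w1
    · exact w2.trans (by cases clsW b l <;> norm_num [mw])
    · exact le_trans (by cases clsW b l <;> norm_num [mw]) w3
    · exact w4.trans (by cases clsW b l <;> norm_num [mw])
  rcases VL.S33.right_lt R hu hR with h2 | h2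
  · have s2 : Sw b zs y k 0 (slL b zs y h) < VL.S33.bb (y (.inl (.inl h)))
        (-ofs (b i) (zs (.inl (.inl h))).im) := by
      rw [B.side_three_zero hb hk, A.slope_three hi hk1 hx0, em]
      rw [B.re, hTk] at h2
      rw [hTk]
      exact h2
    exact rstep_false hb hy (hpos h) (RStep.of_adj A (c := 0)
      (e1 := Sw b zs y i 2 (slL b zs y h)) (e2 := Sw b zs y k 0 (slL b zs y h)) (fun _ => rfl)
      (by linarith only [s1, s2]) (by linarith only []) (by
        show Sw b zs y k 0 (slL b zs y h) + 0 * ofs (b k) (slL b zs y h) ≤ _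
        linarith only []))
  · have q := A'.rh hy
    obtain ⟨e1, e2, e3⟩ := A'.par_three2 hk
    rw [e1, e2, e3] at q
    have hW := VL.HW_of H q (by rw [A'.re]; exact hw)
    have h3 := VL.S33.move hu R.t0 hR h2 hW
    exact absurd h3 (not_lt.2 (V3_le_of_mid hb hy hk (by norm_num) (by norm_num)))

end SR

end Pool.Agent.Work.MP_b30479_gt.G2
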