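import Pool.Agent.Work.MP_b30479_gt.G2.WSide2

/-!
# The hinges `2 | 3` (slot `0` of an interior `3`): from `36/100` to the flat end `33/100`
-/

namespace Pool.Agent.Work.MP_b30479_gt.G2

open Finset VOL Filter Topology

namespace SR

variable {M : ℕ} {b : Fin (M + 1) → ℤ} {zs : DD (tyW b) ⊕ ZZ (tyW b) → ℂ}
variable {y : DD (tyW b) ⊕ ZZ (tyW b) → ℝ}
variable {h h' : Fin M} {i j j' : Fin (M + 1)} {p : Fin 3}

/-- **`2 | 3 ≤ 33/100`**, from the side of the digit `3` in `(33/100, 36/100]` (shift `π / 2`) -/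
theorem cap23_of (hb : ClassW b) (hL : Loc b zs) (hy : Mx b zs y)
    (hF : ∀ h : Fin M, 7 / 100 ≤ y (.inl (.inl h)))
    (h12 : ∀ {h : Fin M} {i j : Fin (M + 1)} {p : Fin 3}, Adj h i p j → clsW b i = .two →
      clsW b j = .one → y (.inl (.inl h)) ≤ 60 / 100)
    (A : Adj h i 2 j) (hi : clsW b i = .two) (hj : clsW b j = .three)
    (h36 : y (.inl (.inl h)) ≤ 36 / 100)
    (h3 : 33 / 100 < y (.inl (.inl h)) →
      Sw b zs y j 0 (slL b zs y h) + Real.pi / 2 * ofs (b j) (slL b zs y h) ≤ 2 / 100) :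
    y (.inl (.inl h)) ≤ 33 / 100 := by
  by_contra hcon
  push Not at hcon
  have hop := A.opp hb (Or.inl (by rw [hi]; decide))
  have hX : wXM b h = 60 / 100 := by
    rw [A.XM_eq b, hi, hj]; unfold hpp hp; rfl
  have hcr : wcr b h = 27 / 100 := by
    rw [A.cr_eq b, hi, hj]
    unfold hpp hp
    rfl
  have h1 : wXM b h - wcr b h < y (.inl (.inl h)) := by rw [hX, hcr]; linarith
  have k1 := two_R3 hb hL hy hF h12 A hi hj h1 (by linarith)
  unfold r23 at k1
  rw [if_pos h36] at k1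
  have k2 := h3 hcon
  have e2 : (2 : Fin 3).rev = 0 := rfl
  refine rstep_false hb hy (by linarith) (RStep.of_adj A (c := Real.pi / 2)
    (fun h => absurd h (not_lt.2 hop.le))
    (e1 := -(2 / 100) - 3 * (y (.inl (.inl h)) - 33 / 100)) (e2 := 2 / 100)
    (by linarith) k1.le ?_)
  rw [e2]
  exact k2

end SR

end Pool.Agent.Work.MP_b30479_gt.G2
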