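import Pool.Agent.Work.MP_b30479_gt.G2.WCap22
import Pool.Agent.Work.MP_b30479_gt.G2.MRZ
import Pool.Agent.Work.MP_b30479_gt.G2.RZ3
import Pool.Agent.Work.MP_b30479_gt.G2.ML3
import Pool.Agent.Work.MP_b30479_gt.G2.RngO

/-!
# Caps of the hinges `2 | ring`, `2e | ring`

First round: `2 | ring ≤ .32`, `2e | ring ≤ .30`, no information on the ring variable besides
`-1/2 < Re ≤ 0`.  Second round: `2 | ring ≤ .30`, with the lower location `-3/8 ≤ Re`.
-/

namespace Pool.Agent.Work.MP_b30479_gt.G2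

open Finset VOL Filter Topology

namespace SR

variable {M : ℕ} {b : Fin (M + 1) → ℤ} {zs : DD (tyW b) ⊕ ZZ (tyW b) → ℂ}
variable {y : DD (tyW b) ⊕ ZZ (tyW b) → ℝ}
variable {h h' : Fin M} {i j j' : Fin (M + 1)} {p : Fin 3}

/-- the variable of the ring `i` has real part in `(-1/2, 0]` (own frame), on its path -/
structure RNp (b : Fin (M + 1) → ℤ) (zs : DD (tyW b) ⊕ ZZ (tyW b) → ℂ)
    (y : DD (tyW b) ⊕ ZZ (tyW b) → ℝ) (i : Fin (M + 1)) (ρ : ℝ) : Prop where
  pos : 0 < ρ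
  le : ρ ≤ 1045 / 10000
  zt : ∃ σ : ℝ, -(1 / 2) < σ ∧ σ ≤ 0 ∧ Zw b zs y i = LT.zt ρ σ

/-- the same, with the lower location -/
structure RNs (b : Fin (M + 1) → ℤ) (zs : DD (tyW b) ⊕ ZZ (tyW b) → ℂ)
    (y : DD (tyW b) ⊕ ZZ (tyW b) → ℝ) (i : Fin (M + 1)) (ρ : ℝ) : Prop where
  pos : 0 < ρ
  le : ρ ≤ 1045 / 10000
  zt : ∃ σ : ℝ, -(3 / 8) ≤ σ ∧ σ ≤ 0 ∧ Zw b zs y i = LT.zt ρ σ

theorem zt_cases {ρ σ : ℝ} (hρ : 0 < ρ) (h1 : -(1 / 2) < σ) (h2 : σ ≤ 0) :
    RZ1.ZF ρ (LT.zt ρ σ) ∨ RZ1.ZR (σ + 1 / 2) ρ (LT.zt ρ σ) := by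
  have e1 : (LT.zt ρ σ).re = σ := by simp [LT.zt]
  have e2 : (LT.zt ρ σ).im = ρ * LT.th σ := by simp [zt_eq]
  rcases le_total (-(1 / 4)) σ with h3 | h3
  · left
    refine ⟨by rw [e1]; exact h3, by rw [e1]; exact h2, ?_, hρ⟩
    rw [e2, th_of_le (by rw [abs_le]; constructor <;> linarith only [h3, h2]), mul_one]
  · right
    refine ⟨by rw [e1]; ring, ?_, hρ, by linarith only [h1], by linarith only [h3]⟩
    have e3 : |σ| = -σ := abs_of_nonpos h2
    rw [e2, th_of_ge (by rw [e3]; linarith only [h3]), e3]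
    ring

/-- the side of the ring of a hinge with the path `.60 | .125 | .30` on its right ramp -/
theorem Adj.ring_side (A : Adj h i p j) (hb : ClassW b) (hy : Mx b zs y)
    (hc : clsW b i = .ring) (hX : wXM b h = 60 / 100) (hr : wcr b h = 30 / 100)
    (hl : wcl b h = 125 / 1000) (hx : 30 / 100 < y (.inl (.inl h)))
    {T ρ : ℝ} (hT : ofs (b i) (zs (.inl (.inl h))).im = -T) (h1 : 10 / 1000 ≤ T)
    (h2 : T ≤ 131 / 1000) (hn : RNp b zs y i ρ) :
    Sw b zs y i p (slL b zs y h) + Real.pi * ofs (b i) (slL b zs y h) ≤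
      MR.ez (y (.inl (.inl h))) (T / (30 / 100)) := by
  have hrh := A.rh hy
  rw [hX, hl, hr, hT] at hrh
  have him := MR.RH_right hrh (by norm_num) (by norm_num) (by norm_num)
    (by rw [A.re]; linarith only [hx])
  have hM := hrh.reM
  rw [A.re] at him hM
  have hW : RZ2.W (y (.inl (.inl h))) (T / (30 / 100)) (Yw b zs y i p) := by
    refine ⟨A.re .., ?_, hM⟩
    rw [him]
    ring
  rw [A.side_ring hb hc, ofs_slL_ramp _ (by rw [hX, hr]; linarith only [hx]), hr, hT, neg_div, neg_neg]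
  obtain ⟨σ, s1, s2, s3⟩ := hn.zt
  rw [s3]
  unfold MR.ez
  rcases zt_cases hn.pos s1 s2 with hz | hz
  · split_ifs with h36
    · exact RZ2.g0_flat hW hz hx.le h36 h1 h2 hn.le
    · exact RZ2.g2_flat hW hz (not_le.1 h36).le h1 h2 hn.le
  · split_ifs with h36
    · exact RZ2.g0_ramp hW hz hx.le h36 h1 h2 hn.le
    · exact RZ2.g2_ramp hW hz (not_le.1 h36).le h1 h2 hn.le

/-- the same on `[.30, .36]` with the lower location of the ring variable -/
theorem Adj.ring_side' (A : Adj h i p j) (hb : ClassW b) (hy : Mx b zs y)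
    (hc : clsW b i = .ring) (hX : wXM b h = 60 / 100) (hr : wcr b h = 30 / 100)
    (hl : wcl b h = 125 / 1000) (hx : 30 / 100 < y (.inl (.inl h)))
    (hx' : y (.inl (.inl h)) ≤ 36 / 100)
    {T ρ : ℝ} (hT : ofs (b i) (zs (.inl (.inl h))).im = -T) (h1 : 10 / 1000 ≤ T)
    (h2 : T ≤ 131 / 1000) (hn : RNs b zs y i ρ) :
    Sw b zs y i p (slL b zs y h) + Real.pi * ofs (b i) (slL b zs y h) ≤
      -(12 / 100) + 178 / 100 * (T / (30 / 100)) := by
  have hrh := A.rh hy
  rw [hX, hl, hr, hT] at hrh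
  have him := MR.RH_right hrh (by norm_num) (by norm_num) (by norm_num)
    (by rw [A.re]; linarith only [hx])
  have hM := hrh.reM
  rw [A.re] at him hM
  have hW : RZ2.W (y (.inl (.inl h))) (T / (30 / 100)) (Yw b zs y i p) := by
    refine ⟨A.re .., ?_, hM⟩
    rw [him]
    ring
  rw [A.side_ring hb hc, ofs_slL_ramp _ (by rw [hX, hr]; linarith only [hx]), hr, hT, neg_div, neg_neg]
  obtain ⟨σ, s1, s2, s3⟩ := hn.zt
  rw [s3]
  rcases zt_cases hn.pos (by linarith only [hx, hx', s1]) s2 with hz | hz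
  · exact RZ2.g1_flat hW hz hx.le hx' h1 h2 hn.le
  · exact RZ2.g1_ramp hW hz hx.le hx' h1 h2 hn.le (by linarith only [s1])

/-- the parameters of the path of `2 | ring`, `2e | ring` -/
theorem Adj.par_two_ring (A : Adj h i p j) (hi : clsW b i = .two ∨ clsW b i = .twoE)
    (hj : clsW b j = .ring) : wXM b h = 60 / 100 ∧ wcr b h = 30 / 100 ∧ wcl b h = 125 / 1000 := by
  rw [A.XM_eq b, A.cr_eq b, A.cl_eq b, hj]
  rcases hi with hi | hi <;> rw [hi] <;> unfold hpp <;> split_ifs <;> simp [hp]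

/-- **Caps of the hinges `2 | ring` (`.32`) and `2e | ring` (`.30`), first round.** -/
theorem cap_two_ring (hb : ClassW b) (hL : Loc b zs) (hy : Mx b zs y)
    (hpos : ∀ h : Fin M, 0 < y (.inl (.inl h)))
    (h12 : ∀ {h : Fin M} {i j : Fin (M + 1)} {p : Fin 3}, Adj h i p j → clsW b i = .two →
      clsW b j = .one → y (.inl (.inl h)) ≤ 60 / 100)
    (A : Adj h i p j) (hi : clsW b i = .two ∨ clsW b i = .twoE) (hj : clsW b j = .ring)
    {ρ : ℝ} (hn : RNp b zs y j ρ) :
    y (.inl (.inl h)) ≤ if clsW b i = .two then 32 / 100 else 30 / 100 := by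
  by_contra hcon
  push Not at hcon
  have hne : clsW b i ≠ .ring := by rcases hi with hi | hi <;> rw [hi] <;> decide
  have hop := A.opp hb (Or.inl hne)
  obtain ⟨hX, hr, hl⟩ := A.par_two_ring hi hj
  have hx : 30 / 100 < y (.inl (.inl h)) := by
    split_ifs at hcon <;> linarith only [hcon]
  have hcon' : wXM b h - wcr b h < y (.inl (.inl h)) := by rw [hX, hr]; linarith only [hx]
  obtain ⟨-, -, t0, t1⟩ := A.box hb hL
  have hrh := A.rh hy
  rw [hX, hl, hr] at hrh
  set T := ofs (b i) (zs (.inl (.inl h))).im with hT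
  have hTj : ofs (b j) (zs (.inl (.inl h))).im = -T := by rw [ofs_opp hop, hT]
  have s1 : Sw b zs y i p (slL b zs y h) + Real.pi * ofs (b i) (slL b zs y h) <
      -MR.ez (y (.inl (.inl h))) (T / (30 / 100)) ∧ 10 / 1000 ≤ T ∧ T ≤ 131 / 1000 := by
    rw [A.side_two hb hi, ofs_slL_ramp _ hcon', hr, ← hT, ← neg_div]
    rcases hi with hi | hi
    · rw [hi, hj, A.ss hop] at t0 t1
      obtain ⟨g1, g2, g3, g4⟩ := A.part_two hb hL hy hi h12
      rw [if_pos hi] at hcon
      have := MR.right_two_ring (w := Yw b zs y i p) (v := Yw b zs y i p.rev) (T := T)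
        t0 t1 hrh (by rw [A.re]; exact hcon.le) g1 g2 g3 g4
      rw [A.re] at this
      simp only [hbox] at t0 t1
      exact ⟨this, t0, by linarith only [t1]⟩
    · rw [hi, hj, A.ss hop] at t0 t1
      have hv : Yw b zs y i p.rev = 0 := by
        rcases A.other b zs y with h5 | h5
        · exact h5.2
        · rw [clsW_end (Or.inl hi)] at h5
          exact absurd h5.1 (by decide)
      have := MR.right_twoE_ring (w := Yw b zs y i p) (T := T)
        t0 t1 hrh (by rw [A.re]; exact hx.le)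
      rw [A.re] at this
      simp only [hbox] at t0 t1
      rw [hv]
      exact ⟨this, by linarith only [t0], t1⟩
  obtain ⟨s1, b1, b2⟩ := s1
  have s2 := A.symm.ring_side hb hy hj hX hr hl hx hTj b1 b2 hn
  exact rstep_false hb hy (hpos h) (RStep.of_adj A (c := Real.pi) (fun h => absurd h (by omega))
    (by linarith only [s1, s2] :
      Sw b zs y i p (slL b zs y h) + Real.pi * ofs (b i) (slL b zs y h) +
        (Sw b zs y j p.rev (slL b zs y h) + Real.pi * ofs (b j) (slL b zs y h)) < 0)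
    le_rfl le_rfl)

/-- **The cap `.30` of the hinges `2 | ring`, second round.** -/
theorem cap_two_ring' (hb : ClassW b) (hL : Loc b zs) (hy : Mx b zs y)
    (hpos : ∀ h : Fin M, 0 < y (.inl (.inl h)))
    (h12 : ∀ {h : Fin M} {i j : Fin (M + 1)} {p : Fin 3}, Adj h i p j → clsW b i = .two →
      clsW b j = .one → y (.inl (.inl h)) ≤ 60 / 100)
    (A : Adj h i p j) (hi : clsW b i = .two) (hj : clsW b j = .ring)
    (h32 : y (.inl (.inl h)) ≤ 32 / 100) {ρ : ℝ} (hn : RNs b zs y j ρ) :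
    y (.inl (.inl h)) ≤ 30 / 100 := by
  by_contra hcon
  push Not at hcon
  have hop := A.opp hb (Or.inl (by rw [hi]; decide))
  obtain ⟨hX, hr, hl⟩ := A.par_two_ring (Or.inl hi) hj
  have hcon' : wXM b h - wcr b h < y (.inl (.inl h)) := by rw [hX, hr]; linarith only [hcon]
  obtain ⟨-, -, t0, t1⟩ := A.box hb hL
  have hrh := A.rh hy
  rw [hX, hl, hr] at hrh
  set T := ofs (b i) (zs (.inl (.inl h))).im with hT
  have hTj : ofs (b j) (zs (.inl (.inl h))).im = -T := by rw [ofs_opp hop, hT]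
  rw [hi, hj, A.ss hop] at t0 t1
  obtain ⟨g1, g2, g3, g4⟩ := A.part_two hb hL hy hi h12
  have s1 := MR.right_two_ring' (w := Yw b zs y i p) (v := Yw b zs y i p.rev) (T := T)
    t0 t1 hrh (by rw [A.re]; exact hcon.le) (by rw [A.re]; exact h32) g1 g2 g3 g4
  simp only [hbox] at t0 t1
  have s2 := A.symm.ring_side' hb hy hj hX hr hl hcon (by linarith only [h32]) hTj t0 (by linarith only [h32, hX, hr, hcon', t1]) hn
  have e1 : Sw b zs y i p (slL b zs y h) + Real.pi * ofs (b i) (slL b zs y h) <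
      -(-(12 / 100) + 178 / 100 * (T / (30 / 100))) := by
    rw [A.side_two hb (Or.inl hi), ofs_slL_ramp _ hcon', hr, ← hT, ← neg_div]
    exact s1
  exact rstep_false hb hy (hpos h) (RStep.of_adj A (c := Real.pi) (fun h => absurd h (by omega))
    (by linarith only [e1, s2] :
      Sw b zs y i p (slL b zs y h) + Real.pi * ofs (b i) (slL b zs y h) +
        (Sw b zs y j p.rev (slL b zs y h) + Real.pi * ofs (b j) (slL b zs y h)) < 0)
    le_rfl le_rfl)

end SR

end Pool.Agent.Work.MP_b30479_gt.G2
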