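import Pool.Agent.Work.MP_b30479_gt.G2.WRngB
import Pool.Agent.Work.MP_b30479_gt.G2.WCapZ
import Pool.Agent.Work.MP_b30479_gt.G2.RngT

/-!
# Rings in a word: the place of the ring variable
-/

namespace Pool.Agent.Work.MP_b30479_gt.G2

open Finset VOL Filter Topology

theorem RKe.ok.hup {b ρ : ℝ} {w : ℂ} {k : RKe} (hk : k.ok b w) (hr : k.cp ρ w) (hp : k ≠ .ps) : HUp w := by
  rcases le_or_gt w.im 0 with h | h
  · exact Or.inl h
  · obtain ⟨x0, x1, t1, t2⟩ := hk.of_pos h (K := 27 / 100) (fun hk => by subst hk; exact hr)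
      (fun hk => absurd hk hp)
    exact Or.inr ⟨x0.le, by linarith only [h, x1, t1], h, by linarith only [h, t1]⟩

/-- upper location, next to an exceptional hinge -/
theorem RM.nonpos_ps {b ρ σ : ℝ} {w w' : ℂ} (h : RM b ρ w w' σ) (hc : RCap b ρ)
    (hk : RKe.ps.ok b w) (hk' : RKe.rr.ok b w') (hσ : |σ| < 1 / 2) (hr : 4 / 100 ≤ ρ)
    (hr' : w'.re ≤ 27 / 100) : σ ≤ 0 := by
  have hρ : ρ ≤ 11 / 100 := by linarith only [hc, hc.1]
  have hρ0 := h.ρ0
  have hx' := hk'.re_nonneg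
  obtain ⟨e4, h1, h2, h3, h4⟩ := hk
  obtain ⟨T, t1, t2, t3, -, hw⟩ := id hk'
  have t4 := t3 (by rw [e4]; norm_num)
  have him : -(25 / 1000) ≤ w'.im := by
    rcases le_total T 0 with hT | hT
    · exact t4.trans (hw.im_ge hT)
    · have : 0 ≤ w'.im := by
        rw [hw.im]
        exact mul_nonneg hT (tr_mem _ _ _ _).1
      linarith only [h1, h2, this]
  refine h.nonpos_of_Dm hσ (by linarith only [h1, h3]) h4 (by linarith only [hr, h1, h2]) hx' (by linarith only [hr', h1, h2]) (by linarith only [hr, h1, h2, him])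
    (fun a1 a2 => Dm_flat_ps hr hρ a1 a2 (by linarith only [h1, h3]) h4 h1 h2) (fun a1 a2 => ?_)
  rcases le_or_gt w'.im 0 with h5 | h5
  · exact Dm_flat_neg hρ0 a1 a2 hx' (by linarith only [hr', h1, h2]) h5 (by linarith only [hr, h1, h2, him])
  · have := hk'.im_le
    exact Dm_flat_pos hρ0 hρ a1 a2 hx' (by linarith only [hr', h1, h2]) h5 (by linarith only [h1, h2, this])

/-- **Upper location of the ring variable.** -/
theorem RM.nonpos_all {b ρ σ : ℝ} {w w' : ℂ} {k k' : RKe} (h : RM b ρ w w' σ) (hc : RCap b ρ)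
    (hk : k.ok b w) (hk' : k'.ok b w') (hσ : |σ| < 1 / 2) (hr : k.cp ρ w)
    (hr' : k'.cp ρ w') (hp : k = .ps → k' = .rr) (hp' : k' = .ps → k = .rr) : σ ≤ 0 := by
  have hρ : ρ ≤ 11 / 100 := by linarith only [hc, hc.1]
  by_cases hkp : k = .ps
  · have h2 := hp hkp
    subst hkp h2
    exact h.nonpos_ps hc hk hk' hσ hr hr'
  by_cases hkp' : k' = .ps
  · have h2 := hp' hkp'
    subst hkp' h2
    exact h.symm.nonpos_ps hc hk' hk hσ hr' hr
  rcases le_or_gt w.im 0 with h1 | h1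
  · exact h.nonpos_one hρ hσ h1 (hk'.hup hr' hkp')
  · rcases le_or_gt w'.im 0 with h2 | h2
    · exact h.symm.nonpos_one hρ hσ h2 (hk.hup hr hkp)
    · obtain ⟨x0, x1, t1, -⟩ := hk.of_pos h1 (K := 27 / 100) (fun hk => by subst hk; exact hr)
        (fun hk => absurd hk hkp)
      obtain ⟨y0, y1, u1, -⟩ := hk'.of_pos h2 (K := 27 / 100) (fun hk => by subst hk; exact hr')
        (fun hk => absurd hk hkp')
      exact h.nonpos_two hρ hσ x0.le (by linarith only [h1, x1, t1]) h1 (by linarith only [h1, t1]) y0.le (by linarith only [h1, t1, y1]) h2 (by linarith only [h1, t1, u1])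

namespace SR

variable {M : ℕ} {b : Fin (M + 1) → ℤ} {zs : DD (tyW b) ⊕ ZZ (tyW b) → ℂ}
variable {y : DD (tyW b) ⊕ ZZ (tyW b) → ℝ}
variable {h h' : Fin M} {i j j' : Fin (M + 1)} {p : Fin 3}

/-- everything about a ring at a maximiser, seen from the slot `p` -/
structure RPk (b : Fin (M + 1) → ℤ) (zs : DD (tyW b) ⊕ ZZ (tyW b) → ℂ)
    (y : DD (tyW b) ⊕ ZZ (tyW b) → ℝ) (i : Fin (M + 1)) (p : Fin 3) (B ρ σ : ℝ) (k k' : RKe) : Prop where
  cap : RCap B ρ
  rm : RM B ρ (Yw b zs y i p) (Yw b zs y i p.rev) σ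
  z : Zw b zs y i = LT.zt ρ σ
  lt : |σ| < 1 / 2
  le : σ ≤ 0
  ok : k.ok B (Yw b zs y i p)
  ok' : k'.ok B (Yw b zs y i p.rev)
  cp : k.cp ρ (Yw b zs y i p)
  cp' : k'.cp ρ (Yw b zs y i p.rev)
  oth : k = .ps → k' = .rr
  oth' : k' = .ps → k = .rr

theorem Adj.rpk (A : Adj h i p j) (hb : ClassW b) (hL : Loc b zs) (hX : LocX b zs)
    (hR : LocR b zs) (hy : Mx b zs y) (hc : clsW b i = .ring) :
    ∃ v : ZZ (tyW b), v.1 = i ∧ ∃ k' : RKe, RPk b zs y i p ((b i).natAbs : ℝ) (zs (.inr v)).im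
      (ofs (b i) (y (.inr v))) (rkw b zs y h i j) k' := by
  obtain ⟨v, rfl, c, r, z⟩ := A.ring hb hL hy hc
  obtain ⟨k', K, K'⟩ := A.rk_other hb hL hX hR hy hc
  have hlt : |ofs (b v.1) (y (.inr v))| < 1 / 2 := by
    rw [abs_ofs]
    exact ring_lt_half hb hL hX hR hy v
  have c1 := K.cp hb hL hX hR hy hc v rfl
  have c2 := K'.cp hb hL hX hR hy hc v rfl
  exact ⟨v, rfl, k', c, r, Zw_eq v, hlt, r.nonpos_all c K.ok K'.ok hlt c1 c2 K.oth K'.oth, K.ok, K'.ok,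
    c1, c2, K.oth, K'.oth⟩

/-- a ring has a hinge -/
theorem ring_has_adj (hM : 0 < M) (i : Fin (M + 1)) : ∃ (h : Fin M) (p : Fin 3) (j : Fin (M + 1)), Adj h i p j := by
  by_cases h0 : i = Fin.last M
  · have hne : i ≠ 0 := by
      rw [h0]
      intro hc
      have := congrArg Fin.val hc
      simp at this
      omega
    obtain ⟨k, rfl⟩ := Fin.eq_succ_of_ne_zero hne
    exact ⟨k, 0, _, .r⟩
  · obtain ⟨k, hk⟩ := Fin.eq_castSucc_of_ne_last h0
    subst hk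
    exact ⟨k, 2, _, .l⟩

/-- **Upper location of the ring variables.** -/
theorem ring_nonpos (hb : ClassW b) (hL : Loc b zs) (hX : LocX b zs) (hR : LocR b zs)
    (hy : Mx b zs y) (v : ZZ (tyW b)) : ofs (b v.1) (y (.inr v)) ≤ 0 := by
  have hc := clsW_ring hb v
  obtain ⟨k, k', K, K'⟩ := rk_slots hb hL hX hR hy hc
  have r := ring_RM hb hL hy v
  have hlt : |ofs (b v.1) (y (.inr v))| < 1 / 2 := by
    rw [abs_ofs]
    exact ring_lt_half hb hL hX hR hy v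
  exact r.nonpos_all (ring_cap hb hL v) K.ok K'.ok hlt (K.cp hb hL hX hR hy hc v rfl)
    (K'.cp hb hL hX hR hy hc v rfl) K.oth K'.oth

/-- the other hinge of a ring is `≤ 1/2` -/
theorem Adj.other_half (A : Adj h i p j) (H : ∀ {h' j'}, Adj h' i p.rev j' → y (.inl (.inl h')) ≤ 1 / 2) :
    (Yw b zs y i p.rev).re ≤ 1 / 2 := by
  rcases A.other b zs y with ⟨-, h0⟩ | ⟨-, h', j', A'⟩
  · rw [h0]
    norm_num
  · rw [A'.re]
    exact H A'

/-- the ring variable is on its path, `-1/2 < σ ≤ 0` -/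
theorem Adj.rnp (A : Adj h i p j) (hb : ClassW b) (hL : Loc b zs) (hX : LocX b zs)
    (hR : LocR b zs) (hy : Mx b zs y) (hc : clsW b i = .ring) : ∃ ρ : ℝ, RNp b zs y i ρ := by
  obtain ⟨v, -, k', P⟩ := A.rpk hb hL hX hR hy hc
  exact ⟨_, P.rm.ρ0, P.cap.1, _, (abs_lt.1 P.lt).1, P.le, P.z⟩

/-- `-3/8 ≤ σ ≤ 0` if the hinges of the ring are `≤ 1/2` -/
theorem Adj.rns (A : Adj h i p j) (hb : ClassW b) (hL : Loc b zs) (hX : LocX b zs)
    (hR : LocR b zs) (hy : Mx b zs y) (hc : clsW b i = .ring) (hx : y (.inl (.inl h)) ≤ 1 / 2)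
    (H : ∀ {h' j'}, Adj h' i p.rev j' → y (.inl (.inl h')) ≤ 1 / 2) : ∃ ρ : ℝ, RNs b zs y i ρ := by
  obtain ⟨v, -, k', P⟩ := A.rpk hb hL hX hR hy hc
  have hge := P.rm.ge P.cap P.ok P.ok' (abs_lt.1 P.lt).1 (by rw [A.re]; exact hx) (A.other_half H)
    P.cp P.cp'
  have h4 := P.rm.b4
  have h5 : 1 / (2 * (((b i).natAbs : ℕ) : ℝ)) ≤ 1 / 8 := by
    rw [div_le_div_iff₀ (by positivity) (by norm_num)]
    linarith only [h4]
  exact ⟨_, P.rm.ρ0, P.cap.1, _, by linarith only [hge, h5], P.le, P.z⟩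

/-- **The place of the ring variable, seen from a hinge** (interface of the caps of `1 | ring`) -/
theorem Adj.ring_ns (A : Adj h i p j) (hb : ClassW b) (hL : Loc b zs) (hX : LocX b zs)
    (hR : LocR b zs) (hy : Mx b zs y) (hc : clsW b i = .ring) :
    ∃ v : ZZ (tyW b), v.1 = i ∧ RCap ((b i).natAbs : ℝ) (zs (.inr v)).im ∧ 0 < (zs (.inr v)).im ∧
      (RZ1.ZF (zs (.inr v)).im (Zw b zs y i) ∨ ∃ s, RZ1.ZR s (zs (.inr v)).im (Zw b zs y i) ∧
        ((∀ {h' j'}, Adj h' i p.rev j' → y (.inl (.inl h')) ≤ 1 / 2) → y (.inl (.inl h)) ≤ 1 / 2 →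
          1 / 4 - 1 / (2 * ((b i).natAbs : ℝ)) ≤ s ∧
          RZ1.FM ((b i).natAbs : ℝ) s (zs (.inr v)).im (Yw b zs y i p) (Zw b zs y i))) := by
  obtain ⟨v, rfl, k', P⟩ := A.rpk hb hL hX hR hy hc
  refine ⟨v, rfl, P.cap, P.rm.ρ0, ?_⟩
  rw [P.z]
  set σ := ofs (b v.1) (y (.inr v)) with hσd
  have hlt := abs_lt.1 P.lt
  rcases le_or_gt (-(1 / 4)) σ with h1 | h1
  · left
    refine ⟨by rw [zt_re]; exact h1, by rw [zt_re]; exact P.le, ?_, P.rm.ρ0⟩
    rw [zt_im, th_of_le (by rw [abs_of_nonpos P.le]; linarith only [h1]), mul_one]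
  · right
    refine ⟨σ + 1 / 2, ⟨by rw [zt_re]; ring, ?_, P.rm.ρ0, by linarith only [hlt], by linarith only [h1]⟩, ?_⟩
    · have := th_ramp (s := σ + 1 / 2) (by linarith only [hlt]) (by linarith only [h1]) (zs (.inr v)).im
      rw [show -(1 / 2) + (σ + 1 / 2) = σ by ring] at this
      rw [zt_im, this]
    · intro H hx
      have e : σ = -(1 / 2) + (σ + 1 / 2) := by ring
      have hge := P.rm.ge P.cap P.ok P.ok' hlt.1 (by rw [A.re]; exact hx) (A.other_half H) P.cp P.cp'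
      refine ⟨by linarith only [hge], ?_⟩
      have r := P.rm
      rw [e] at r
      have := r.Dm_le P.cap P.ok P.ok' (by linarith only [hlt]) (by linarith only [h1]) (by rw [A.re]; exact hx)
        (A.other_half H) P.cp P.cp'
      unfold RZ1.FM
      rw [← e] at this
      exact this

end SR

end Pool.Agent.Work.MP_b30479_gt.G2
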