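import Pool.Agent.Work.MP_b30479_gt.G2.WE3R
import Pool.Agent.Work.MP_b30479_gt.G2.WRngZ
import Pool.Agent.Work.MP_b30479_gt.G2.LRCE

/-!
# Caps of the slot-2 hinges of an interior region with three crossings: `3 | 3e`, `3 | ring`

No floors, no caps of other hinges.
-/

namespace Pool.Agent.Work.MP_b30479_gt.G2

open Finset VOL Filter Topology

namespace SR

variable {M : ℕ} {b : Fin (M + 1) → ℤ} {zs : DD (tyW b) ⊕ ZZ (tyW b) → ℂ}
variable {y : DD (tyW b) ⊕ ZZ (tyW b) → ℝ}
variable {h h' : Fin M} {i j j' : Fin (M + 1)} {p : Fin 3}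

/-- **`3 | 3e`** with the interior `3` on the left: the flat end, without any information. -/
theorem cap_three_threeE (A : Adj h i 2 j) (hb : ClassW b) (hL : Loc b zs) (hX : LocX b zs)
    (hC : Crit b zs) (hy : Mx b zs y) (h0 : 0 < y (.inl (.inl h))) (hi : clsW b i = .three)
    (hj : clsW b j = .threeE) : y (.inl (.inl h)) ≤ 30 / 100 := by
  by_contra hcon
  push Not at hcon
  have hj1 : clsW b j ≠ .one := by rw [hj]; decide
  obtain ⟨e1, e2, e3⟩ := A.par_three hi hj1
  have hw : wXM b h - wcr b h < y (.inl (.inl h)) := by rw [e1, e3]; linarith only [hcon]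
  have s1 := A.own_three_threeE hb hL hX hy hi hj hcon
  have s2 := threeE_R hb hL hC hy A.symm hj (by rw [hi]; decide) (by rw [hi]; decide) hw
  have s3 : r3E (clsW b i) (y (.inl (.inl h))) ≤ 3 / 100 := by
    rw [hi]
    unfold r3E
    simp only
    split_ifs <;> norm_num
  exact rstep_false hb hy h0 (RSide.of_sum A (by linarith only [s1, s2, s3]))

/-- the side of a ring in the slot 2 of an interior `3` on the right ramp, height `≥ 0` in the
frame of the `3` -/
theorem ring_three_side (hb : ClassW b) (hL : Loc b zs) (hX : LocX b zs) (hR : LocR b zs)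
    (hy : Mx b zs y) (A : Adj h i 2 j) (hi : clsW b i = .three) (hj : clsW b j = .ring)
    (hx : 30 / 100 < y (.inl (.inl h))) (hT : 0 ≤ ofs (b i) (zs (.inl (.inl h))).im) :
    Sw b zs y j 0 (slL b zs y h) < 0 ∧
      (10 / 1000 ≤ ofs (b i) (zs (.inl (.inl h))).im → 36 / 100 ≤ y (.inl (.inl h)) →
        Sw b zs y j 0 (slL b zs y h) + Real.pi * ofs (b j) (slL b zs y h) ≤ 1 / 10) := by
  have hj1 : clsW b j ≠ .one := by rw [hj]; decide
  have hop := A.opp hb (Or.inl (by rw [hi]; decide))
  have A' := A.symm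
  have e0 : (2 : Fin 3).rev = 0 := rfl
  rw [e0] at A'
  obtain ⟨v, hv, k', P⟩ := A'.rpk hb hL hX hR hy hj
  obtain ⟨t1, t2⟩ := A.im_three hb hL hi
  rw [hj] at t1 t2
  norm_num [hbox] at t1 t2
  set T := ofs (b i) (zs (.inl (.inl h))).im with hTd
  have hTj : ofs (b j) (zs (.inl (.inl h))).im = -T := by rw [ofs_opp hop, hTd]
  have hsl : ofs (b j) (slL b zs y h) = T / (30 / 100) := by
    rw [A.slope_three hi hj1 hx, hTj]
    unfold MR.mR
    push_cast
    rw [neg_neg]
  have him : (Yw b zs y j 0).im = -(T / (30 / 100) * (60 / 100 - y (.inl (.inl h)))) := by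
    rw [A.height_three A' hi hj1 hy hx, A'.re, hTj]
    unfold MR.tR
    push_cast
    ring
  have hM := (A.rh hy).reM
  rw [(A.par_three hi hj1).1, A.re] at hM
  have hm0 : 0 ≤ T / (30 / 100) := div_nonneg hT (by norm_num)
  have hm1 : T / (30 / 100) ≤ 384 / 1000 := by
    rw [div_le_iff₀ (by norm_num)]
    linarith only [t2]
  have hE : ¬Exh b zs y h j i := fun hE => by
    have := hE.2.1
    rw [hTj] at this
    linarith only [hT, this]
  have hk := P.ok
  rw [rkw_neg hE, hi] at hk
  constructor
  · rw [A'.side_ring hb hj, hsl, P.z]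
    exact P.rm.right_lo P.cap hk P.le P.lt hm0 (fun _ => hm1) (by linarith only [t2])
      (by rw [A'.re]; linarith only [hx])
  · intro hT10 h36
    rw [A'.side_ring hb hj, hsl, P.z]
    have hW : RZ2.W (y (.inl (.inl h))) (T / (30 / 100)) (Yw b zs y j 0) := ⟨A'.re .., him, hM⟩
    have hσ := abs_lt.1 P.lt
    rcases zt_cases P.rm.ρ0 hσ.1 P.le with hz | hz
    · exact RZ2.g2_flat hW hz h36 hT10 (by linarith only [t2]) P.cap.1
    · exact RZ2.g2_ramp hW hz h36 hT10 (by linarith only [t2]) P.cap.1

/-- **`3 | ring`** with the interior `3` on the left, height `≥ 0` in the frame of the `3`: the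
flat end, without any information. -/
theorem cap_three_ring (A : Adj h i 2 j) (hb : ClassW b) (hL : Loc b zs) (hX : LocX b zs)
    (hR : LocR b zs) (hy : Mx b zs y) (h0 : 0 < y (.inl (.inl h))) (hi : clsW b i = .three)
    (hj : clsW b j = .ring) (hT : 0 ≤ ofs (b i) (zs (.inl (.inl h))).im) :
    y (.inl (.inl h)) ≤ 30 / 100 := by
  by_contra hcon
  push Not at hcon
  have hj1 : clsW b j ≠ .one := by rw [hj]; decide
  have hop := A.opp hb (Or.inl (by rw [hi]; decide))
  obtain ⟨s1, s2⟩ := ring_three_side hb hL hX hR hy A hi hj hcon hT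
  rcases le_total (y (.inl (.inl h))) (50 / 100) with hx | hx
  · have s3 := A.own_three_ring hb hL hX hy hi hj hcon hx
    exact rstep_false hb hy h0 (RSide.of_sum A (by
      show _ + Sw b zs y j 0 (slL b zs y h) < 0
      linarith only [h0, s1, hx, s3]))
  · have s3 := A.own_three_ring_b hb hL hX hy hi hj hx
    have e1 : ofs (b i) (slL b zs y h) = -(ofs (b i) (zs (.inl (.inl h))).im / (30 / 100)) := by
      rw [A.slope_three hi hj1 hcon]
      unfold MR.mR
      push_cast
      ring
    have e2 : ofs (b j) (slL b zs y h) = -ofs (b i) (slL b zs y h) := ofs_opp hop _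
    rcases le_total (10 / 1000) (ofs (b i) (zs (.inl (.inl h))).im) with hT1 | hT1
    · have s4 := s2 hT1 (by linarith only [h0, hx])
      rw [e2] at s4
      exact rstep_false hb hy h0 (RSide.of_sum A (by
        show _ + Sw b zs y j 0 (slL b zs y h) < 0
        linarith only [s3, s4]))
    · have hp := Real.pi_lt_d2
      have hp0 := Real.pi_pos
      have s5 : Real.pi * (ofs (b i) (zs (.inl (.inl h))).im / (30 / 100)) ≤ 315 / 100 * (1 / 30) :=
        mul_le_mul (by linarith only [hp, hp]) (by rw [div_le_iff₀ (by norm_num)]; linarith only [hT1])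
          (div_nonneg hT (by norm_num)) (by norm_num)
      rw [e1] at s3
      exact rstep_false hb hy h0 (RSide.of_sum A (by
        show _ + Sw b zs y j 0 (slL b zs y h) < 0
        linarith only [s1, s3, s5]))

end SR

end Pool.Agent.Work.MP_b30479_gt.G2
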