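import Pool.Agent.Work.MP_b30479_gt.G2.WChP
import Pool.Agent.Work.MP_b30479_gt.G2.WRngB
import Pool.Agent.Work.MP_b30479_gt.G2.WMainS

/-!
# The parts of the argument on the main paths, from the location of a maximiser
-/

namespace Pool.Agent.Work.MP_b30479_gt.G2

open Finset VOL Filter Topology

namespace SR

variable {M : ℕ} {b : Fin (M + 1) → ℤ} {zs : DD (tyW b) ⊕ ZZ (tyW b) → ℂ}
variable {y : DD (tyW b) ⊕ ZZ (tyW b) → ℝ}
variable {h h' : Fin M} {i j j' k : Fin (M + 1)} {p : Fin 3}

/-- every region of a word with at least two regions has a hinge -/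
theorem exists_adj' (hM : 1 ≤ M) (i : Fin (M + 1)) :
    ∃ (h : Fin M) (p : Fin 3) (j : Fin (M + 1)), Adj h i p j := by
  rcases Fin.eq_castSucc_or_eq_last i with ⟨h, rfl⟩ | hi
  · exact ⟨h, 2, _, .l⟩
  · obtain ⟨m, rfl⟩ : ∃ m, M = m + 1 := ⟨M - 1, by omega⟩
    subst hi
    exact ⟨Fin.last m, 0, _, .r⟩

/-- **The parts of the argument on the main paths.** -/
theorem mainPartsS_of (hM : 1 ≤ M) (hb : ClassW b) (H : LocA b zs)
    (key : ∀ y, Mx b zs y → (∀ h : Fin M, 0 < y (.inl (.inl h))) → PushIn b zs y)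
    (hrin : ∀ y, Mx b zs y → PushIn b zs y →
      (∀ h : Fin M, y (.inl (.inl h)) = (zs (.inl (.inl h))).re) →
      ∀ v : ZZ (tyW b), y (.inr v) = (zs (.inr v)).re)
    (hq : ∀ y, Mx b zs y → PushIn b zs y → ∀ {h : Fin M} {i j : Fin (M + 1)} {p : Fin 3},
      Adj h i p j → clsW b i = .ring → PushS (tyW b) b (wpar b zs) zs y h) :
    MainPartsS b zs where
  ring y hy v := ring_lt_half hb H.L H.X H.R hy v
  left y hy hpos h := ((key y hy hpos).flat h).1
  right y hy hcl h := ((key y hy fun h => (wcl_pos h).trans_le (hcl h)).flat h).2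
  mid y hy hh m := by
    have hpos : ∀ h : Fin M, 0 < y (.inl (.inl h)) := fun h => by
      rw [hh h]
      exact (wcl_pos h).trans (H.L.flatD (.inl h)).1
    have I := key y hy hpos
    obtain ⟨h, p, j, A⟩ := exists_adj' hM m.1
    have hc := clsW_mid m.2
    split_ifs at hc with he
    · exact A.inner3 hb H.L H.C hy hc (I.flat h).1 (I.flat h).2 (hh h)
    · obtain ⟨g, g', l, l', B, B', -⟩ := A.both b (by simpa using he)
      exact inner3 hb H.L H.X H.C hy hpos I.flat B B' hc hh (I.mid hc).1 (I.mid hc).2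
  rin y hy hh := by
    have hpos : ∀ h : Fin M, 0 < y (.inl (.inl h)) := fun h => by
      rw [hh h]
      exact (wcl_pos h).trans (H.L.flatD (.inl h)).1
    exact hrin y hy (key y hy hpos) hh
  push y hy hf h := by
    have hpos : ∀ h : Fin M, 0 < y (.inl (.inl h)) := fun h => (wcl_pos h).trans_le (hf h).1
    have I := key y hy hpos
    by_cases h1 : clsW b h.castSucc = .ring
    · exact hq y hy I .l h1
    by_cases h2 : clsW b h.succ = .ring
    · exact hq y hy I .r h2
    exact PushS.of_push H.C.inn H.C.dT (push_digit hb H hy hpos I .l h1)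
      (push_digit hb H hy hpos I .r h2)

end SR

end Pool.Agent.Work.MP_b30479_gt.G2
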