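import Pool.Agent.Work.MP_b30479_gt.G2.S0RW
import Pool.Agent.Work.NumU.Tree

/-!
# The own side of an interior `3` at slot `0`, `2 | 3`, `x` in `[.33, .36]`, after the floors `F2`: value rows
-/

set_option linter.unusedSimpArgs false
set_option linter.unusedVariables false

namespace Pool.Agent.Work.MP_b30479_gt.G2

open VOL NumU

namespace S0R

open NumU.E EV

theorem g1n {x T w b r t : ℝ} (ua1 : 3300 / 10000 ≤ x) (ua2 : x ≤ 3600 / 10000) (ua3 : -(530 / 10000) ≤ T) (ua4 : T ≤ -(35 / 10000)) (ua5 : 1500 / 10000 ≤ w) (ua6 : w ≤ 3900 / 10000) (ua7 : -(1145 / 10000) ≤ b) (ua8 : b ≤ -(188 / 10000)) (ua9 : 500 / 10000 ≤ r) (ua10 : r ≤ 2700 / 10000) (ua11 : -(885 / 10000) ≤ t) (ua12 : t ≤ -(275 / 10000)) (ua13 : r ≤ x - 900 / 10000) (ua14 : -(1145 / 1500) * w ≤ b) (ua15 : T - t ≤ 535 / 10000) (ua16 : t ≤ rui (100 / 27) x T) :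
    0 < rD (4400 / 10000) (1) x (rui (100 / 27) x T) w b r t := by
  have h : chkT [D 100 27 (q 4400 10000) (1), sub EV.r (sub EV.x (q 900 10000)), sub (mul (q (-1145) 1500) EV.w) EV.b, sub (sub EV.T EV.t) (q 535 10000), sub EV.t (a 100 27)] 40
    189951136281713395443377635632256146859394084
    [NumI.V.of 10000 3300 3600, NumI.V.of 10000 (-530) (-35), NumI.V.of 10000 1500 3900, NumI.V.of 10000 (-1145) (-188), NumI.V.of 10000 500 2700, NumI.V.of 10000 (-885) (-275)] = true := by
    decide +kernel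
  obtain ⟨f, hf, hp⟩ := chkT_sound h (xs := [x, T, w, b, r, t])
    (List.Forall₂.cons (NumI.V.of_mem (by norm_num) (by norm_num; linarith only [ua1]) (by norm_num; linarith only [ua2])) (List.Forall₂.cons (NumI.V.of_mem (by norm_num) (by norm_num; linarith only [ua3]) (by norm_num; linarith only [ua4])) (List.Forall₂.cons (NumI.V.of_mem (by norm_num) (by norm_num; linarith only [ua5]) (by norm_num; linarith only [ua6])) (List.Forall₂.cons (NumI.V.of_mem (by norm_num) (by norm_num; linarith only [ua7]) (by norm_num; linarith only [ua8])) (List.Forall₂.cons (NumI.V.of_mem (by norm_num) (by norm_num; linarith only [ua9]) (by norm_num; linarith only [ua10])) (List.Forall₂.cons (NumI.V.of_mem (by norm_num) (by norm_num; linarith only [ua11]) (by norm_num; linarith only [ua12])) List.Forall₂.nil))))))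
  by_contra hc
  push Not at hc
  simp only [List.mem_cons, List.not_mem_nil, or_false] at hf
  rcases hf with rfl | rfl | rfl | rfl | rfl
  · simp only [D_val, R_val, h_val, EE.ui_val, EV.a, EV.x, EV.T, EV.w, EV.b, EV.r, EV.t, E.val, NumI.lkR] at hp
    push_cast at hp
    linarith only [hc, hp]
  · simp only [D_val, R_val, h_val, EE.ui_val, EV.a, EV.x, EV.T, EV.w, EV.b, EV.r, EV.t, E.val, NumI.lkR] at hp
    push_cast at hp
    linarith only [ua13, hp]
  · simp only [D_val, R_val, h_val, EE.ui_val, EV.a, EV.x, EV.T, EV.w, EV.b, EV.r, EV.t, E.val, NumI.lkR] at hp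
    push_cast at hp
    linarith only [ua5, ua7, hp]
  · simp only [D_val, R_val, h_val, EE.ui_val, EV.a, EV.x, EV.T, EV.w, EV.b, EV.r, EV.t, E.val, NumI.lkR] at hp
    push_cast at hp
    linarith only [ua15, hp]
  · simp only [D_val, R_val, h_val, EE.ui_val, EV.a, EV.x, EV.T, EV.w, EV.b, EV.r, EV.t, E.val, NumI.lkR] at hp
    push_cast at hp
    linarith only [ua16, hp]

theorem g1p {x T w b r t : ℝ} (ua1 : 3300 / 10000 ≤ x) (ua2 : x ≤ 3600 / 10000) (ua3 : -(530 / 10000) ≤ T) (ua4 : T ≤ -(35 / 10000)) (ua5 : 1500 / 10000 ≤ w) (ua6 : w ≤ 3900 / 10000) (ua7 : -(1145 / 10000) ≤ b) (ua8 : b ≤ -(188 / 10000)) (ua9 : 500 / 10000 ≤ r) (ua10 : r ≤ 2700 / 10000) (ua11 : -(530 / 10000) ≤ t) (ua12 : t ≤ -(275 / 10000)) (ua13 : r ≤ x - 900 / 10000) (ua14 : -(1145 / 1500) * w ≤ b) (ua15 : t - T ≤ 40 / 10000) (ua16 : rui (100 / 27) x T ≤ t) :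
    0 < rD (4400 / 10000) (-1) x (rui (100 / 27) x T) w b r t := by
  have h : chkT [D 100 27 (q 4400 10000) (-1), sub EV.r (sub EV.x (q 900 10000)), sub (mul (q (-1145) 1500) EV.w) EV.b, sub (sub EV.t EV.T) (q 40 10000), sub (a 100 27) EV.t] 40
    36582885412
    [NumI.V.of 10000 3300 3600, NumI.V.of 10000 (-530) (-35), NumI.V.of 10000 1500 3900, NumI.V.of 10000 (-1145) (-188), NumI.V.of 10000 500 2700, NumI.V.of 10000 (-530) (-275)] = true := by
    decide +kernel
  obtain ⟨f, hf, hp⟩ := chkT_sound h (xs := [x, T, w, b, r, t])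
    (List.Forall₂.cons (NumI.V.of_mem (by norm_num) (by norm_num; linarith only [ua1]) (by norm_num; linarith only [ua2])) (List.Forall₂.cons (NumI.V.of_mem (by norm_num) (by norm_num; linarith only [ua3]) (by norm_num; linarith only [ua4])) (List.Forall₂.cons (NumI.V.of_mem (by norm_num) (by norm_num; linarith only [ua5]) (by norm_num; linarith only [ua6])) (List.Forall₂.cons (NumI.V.of_mem (by norm_num) (by norm_num; linarith only [ua7]) (by norm_num; linarith only [ua8])) (List.Forall₂.cons (NumI.V.of_mem (by norm_num) (by norm_num; linarith only [ua9]) (by norm_num; linarith only [ua10])) (List.Forall₂.cons (NumI.V.of_mem (by norm_num) (by norm_num; linarith only [ua11]) (by norm_num; linarith only [ua12])) List.Forall₂.nil))))))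
  by_contra hc
  push Not at hc
  simp only [List.mem_cons, List.not_mem_nil, or_false] at hf
  rcases hf with rfl | rfl | rfl | rfl | rfl
  · simp only [D_val, R_val, h_val, EE.ui_val, EV.a, EV.x, EV.T, EV.w, EV.b, EV.r, EV.t, E.val, NumI.lkR] at hp
    push_cast at hp
    linarith only [hc, hp]
  · simp only [D_val, R_val, h_val, EE.ui_val, EV.a, EV.x, EV.T, EV.w, EV.b, EV.r, EV.t, E.val, NumI.lkR] at hp
    push_cast at hp
    linarith only [ua13, hp]
  · simp only [D_val, R_val, h_val, EE.ui_val, EV.a, EV.x, EV.T, EV.w, EV.b, EV.r, EV.t, E.val, NumI.lkR] at hp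
    push_cast at hp
    linarith only [ua5, ua7, hp]
  · simp only [D_val, R_val, h_val, EE.ui_val, EV.a, EV.x, EV.T, EV.w, EV.b, EV.r, EV.t, E.val, NumI.lkR] at hp
    push_cast at hp
    linarith only [ua15, hp]
  · simp only [D_val, R_val, h_val, EE.ui_val, EV.a, EV.x, EV.T, EV.w, EV.b, EV.r, EV.t, E.val, NumI.lkR] at hp
    push_cast at hp
    linarith only [ua16, hp]

theorem g1rn {x T w b r t : ℝ} (ua1 : 3300 / 10000 ≤ x) (ua2 : x ≤ 3600 / 10000) (ua3 : -(530 / 10000) ≤ T) (ua4 : T ≤ -(35 / 10000)) (ua5 : 1500 / 10000 ≤ w) (ua6 : w ≤ 3900 / 10000) (ua7 : -(1145 / 10000) ≤ b) (ua8 : b ≤ -(188 / 10000)) (ua9 : 0 / 10000 ≤ r) (ua10 : r ≤ 500 / 10000) (ua11 : -(885 / 10000) ≤ t) (ua12 : t ≤ -(275 / 10000)) (ua13 : -(1145 / 1500) * w ≤ b) (ua14 : T - t ≤ 535 / 10000) (ua15 : 20 * (t * r) ≤ rui (100 / 27) x T) :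
    0 < rE (4400 / 10000) (1) x (rui (100 / 27) x T) w b r t := by
  have h : chkT [R 100 27 (q 4400 10000) (1), sub (mul (q (-1145) 1500) EV.w) EV.b, sub (sub EV.T EV.t) (q 535 10000), sub h (a 100 27)] 40
    9380838254658
    [NumI.V.of 10000 3300 3600, NumI.V.of 10000 (-530) (-35), NumI.V.of 10000 1500 3900, NumI.V.of 10000 (-1145) (-188), NumI.V.of 10000 0 500, NumI.V.of 10000 (-885) (-275)] = true := by
    decide +kernel
  obtain ⟨f, hf, hp⟩ := chkT_sound h (xs := [x, T, w, b, r, t])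
    (List.Forall₂.cons (NumI.V.of_mem (by norm_num) (by norm_num; linarith only [ua1]) (by norm_num; linarith only [ua2])) (List.Forall₂.cons (NumI.V.of_mem (by norm_num) (by norm_num; linarith only [ua3]) (by norm_num; linarith only [ua4])) (List.Forall₂.cons (NumI.V.of_mem (by norm_num) (by norm_num; linarith only [ua5]) (by norm_num; linarith only [ua6])) (List.Forall₂.cons (NumI.V.of_mem (by norm_num) (by norm_num; linarith only [ua7]) (by norm_num; linarith only [ua8])) (List.Forall₂.cons (NumI.V.of_mem (by norm_num) (by norm_num; linarith only [ua9]) (by norm_num; linarith only [ua10])) (List.Forall₂.cons (NumI.V.of_mem (by norm_num) (by norm_num; linarith only [ua11]) (by norm_num; linarith only [ua12])) List.Forall₂.nil))))))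
  by_contra hc
  push Not at hc
  simp only [List.mem_cons, List.not_mem_nil, or_false] at hf
  rcases hf with rfl | rfl | rfl | rfl
  · simp only [D_val, R_val, h_val, EE.ui_val, EV.a, EV.x, EV.T, EV.w, EV.b, EV.r, EV.t, E.val, NumI.lkR] at hp
    push_cast at hp
    linarith only [hc, hp]
  · simp only [D_val, R_val, h_val, EE.ui_val, EV.a, EV.x, EV.T, EV.w, EV.b, EV.r, EV.t, E.val, NumI.lkR] at hp
    push_cast at hp
    linarith only [ua5, ua7, hp]
  · simp only [D_val, R_val, h_val, EE.ui_val, EV.a, EV.x, EV.T, EV.w, EV.b, EV.r, EV.t, E.val, NumI.lkR] at hp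
    push_cast at hp
    linarith only [ua14, hp]
  · simp only [D_val, R_val, h_val, EE.ui_val, EV.a, EV.x, EV.T, EV.w, EV.b, EV.r, EV.t, E.val, NumI.lkR] at hp
    push_cast at hp
    linarith only [ua15, hp]

theorem g1rp {x T w b r t : ℝ} (ua1 : 3300 / 10000 ≤ x) (ua2 : x ≤ 3600 / 10000) (ua3 : -(530 / 10000) ≤ T) (ua4 : T ≤ -(35 / 10000)) (ua5 : 1500 / 10000 ≤ w) (ua6 : w ≤ 3900 / 10000) (ua7 : -(1145 / 10000) ≤ b) (ua8 : b ≤ -(188 / 10000)) (ua9 : 0 / 10000 ≤ r) (ua10 : r ≤ 500 / 10000) (ua11 : -(885 / 10000) ≤ t) (ua12 : t ≤ -(275 / 10000)) (ua13 : -(1145 / 1500) * w ≤ b) (ua14 : t - T ≤ 40 / 10000) (ua15 : rui (100 / 27) x T ≤ 20 * (t * r)) :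
    0 < rE (4400 / 10000) (-1) x (rui (100 / 27) x T) w b r t := by
  have h : chkT [R 100 27 (q 4400 10000) (-1), sub (mul (q (-1145) 1500) EV.w) EV.b, sub (sub EV.t EV.T) (q 40 10000), sub (a 100 27) h] 40
    9380821500482
    [NumI.V.of 10000 3300 3600, NumI.V.of 10000 (-530) (-35), NumI.V.of 10000 1500 3900, NumI.V.of 10000 (-1145) (-188), NumI.V.of 10000 0 500, NumI.V.of 10000 (-885) (-275)] = true := by
    decide +kernel
  obtain ⟨f, hf, hp⟩ := chkT_sound h (xs := [x, T, w, b, r, t])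
    (List.Forall₂.cons (NumI.V.of_mem (by norm_num) (by norm_num; linarith only [ua1]) (by norm_num; linarith only [ua2])) (List.Forall₂.cons (NumI.V.of_mem (by norm_num) (by norm_num; linarith only [ua3]) (by norm_num; linarith only [ua4])) (List.Forall₂.cons (NumI.V.of_mem (by norm_num) (by norm_num; linarith only [ua5]) (by norm_num; linarith only [ua6])) (List.Forall₂.cons (NumI.V.of_mem (by norm_num) (by norm_num; linarith only [ua7]) (by norm_num; linarith only [ua8])) (List.Forall₂.cons (NumI.V.of_mem (by norm_num) (by norm_num; linarith only [ua9]) (by norm_num; linarith only [ua10])) (List.Forall₂.cons (NumI.V.of_mem (by norm_num) (by norm_num; linarith only [ua11]) (by norm_num; linarith only [ua12])) List.Forall₂.nil))))))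
  by_contra hc
  push Not at hc
  simp only [List.mem_cons, List.not_mem_nil, or_false] at hf
  rcases hf with rfl | rfl | rfl | rfl
  · simp only [D_val, R_val, h_val, EE.ui_val, EV.a, EV.x, EV.T, EV.w, EV.b, EV.r, EV.t, E.val, NumI.lkR] at hp
    push_cast at hp
    linarith only [hc, hp]
  · simp only [D_val, R_val, h_val, EE.ui_val, EV.a, EV.x, EV.T, EV.w, EV.b, EV.r, EV.t, E.val, NumI.lkR] at hp
    push_cast at hp
    linarith only [ua5, ua7, hp]
  · simp only [D_val, R_val, h_val, EE.ui_val, EV.a, EV.x, EV.T, EV.w, EV.b, EV.r, EV.t, E.val, NumI.lkR] at hp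
    push_cast at hp
    linarith only [ua14, hp]
  · simp only [D_val, R_val, h_val, EE.ui_val, EV.a, EV.x, EV.T, EV.w, EV.b, EV.r, EV.t, E.val, NumI.lkR] at hp
    push_cast at hp
    linarith only [ua15, hp]

theorem gon {x T w b r t : ℝ} (ua1 : 3300 / 10000 ≤ x) (ua2 : x ≤ 3600 / 10000) (ua3 : -(490 / 10000) ≤ T) (ua4 : T ≤ 22 / 10000) (ua5 : 1300 / 10000 ≤ w) (ua6 : w ≤ 3100 / 10000) (ua7 : -(980 / 10000) ≤ b) (ua8 : b ≤ 570 / 10000) (ua9 : 500 / 10000 ≤ r) (ua10 : r ≤ 2700 / 10000) (ua11 : -(800 / 10000) ≤ t) (ua12 : t ≤ -(130 / 10000)) (ua13 : r ≤ x - 900 / 10000) (ua14 : -(98 / 130) * w ≤ b) (ua15 : T - t ≤ 495 / 10000) (ua16 : t ≤ rui (100 / 27) x T) :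
    0 < rD (4400 / 10000) (1) x (rui (100 / 27) x T) w b r t := by
  have h : chkT [D 100 27 (q 4400 10000) (1), sub EV.r (sub EV.x (q 900 10000)), sub (mul (q (-98) 130) EV.w) EV.b, sub (sub EV.T EV.t) (q 495 10000), sub EV.t (a 100 27)] 40
    44185903447708088651163506718549316
    [NumI.V.of 10000 3300 3600, NumI.V.of 10000 (-490) 22, NumI.V.of 10000 1300 3100, NumI.V.of 10000 (-980) 570, NumI.V.of 10000 500 2700, NumI.V.of 10000 (-800) (-130)] = true := by
    decide +kernel
  obtain ⟨f, hf, hp⟩ := chkT_sound h (xs := [x, T, w, b, r, t])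
    (List.Forall₂.cons (NumI.V.of_mem (by norm_num) (by norm_num; linarith only [ua1]) (by norm_num; linarith only [ua2])) (List.Forall₂.cons (NumI.V.of_mem (by norm_num) (by norm_num; linarith only [ua3]) (by norm_num; linarith only [ua4])) (List.Forall₂.cons (NumI.V.of_mem (by norm_num) (by norm_num; linarith only [ua5]) (by norm_num; linarith only [ua6])) (List.Forall₂.cons (NumI.V.of_mem (by norm_num) (by norm_num; linarith only [ua7]) (by norm_num; linarith only [ua8])) (List.Forall₂.cons (NumI.V.of_mem (by norm_num) (by norm_num; linarith only [ua9]) (by norm_num; linarith only [ua10])) (List.Forall₂.cons (NumI.V.of_mem (by norm_num) (by norm_num; linarith only [ua11]) (by norm_num; linarith only [ua12])) List.Forall₂.nil))))))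
  by_contra hc
  push Not at hc
  simp only [List.mem_cons, List.not_mem_nil, or_false] at hf
  rcases hf with rfl | rfl | rfl | rfl | rfl
  · simp only [D_val, R_val, h_val, EE.ui_val, EV.a, EV.x, EV.T, EV.w, EV.b, EV.r, EV.t, E.val, NumI.lkR] at hp
    push_cast at hp
    linarith only [hc, hp]
  · simp only [D_val, R_val, h_val, EE.ui_val, EV.a, EV.x, EV.T, EV.w, EV.b, EV.r, EV.t, E.val, NumI.lkR] at hp
    push_cast at hp
    linarith only [ua13, hp]
  · simp only [D_val, R_val, h_val, EE.ui_val, EV.a, EV.x, EV.T, EV.w, EV.b, EV.r, EV.t, E.val, NumI.lkR] at hp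
    push_cast at hp
    linarith only [ua5, ua7, hp]
  · simp only [D_val, R_val, h_val, EE.ui_val, EV.a, EV.x, EV.T, EV.w, EV.b, EV.r, EV.t, E.val, NumI.lkR] at hp
    push_cast at hp
    linarith only [ua15, hp]
  · simp only [D_val, R_val, h_val, EE.ui_val, EV.a, EV.x, EV.T, EV.w, EV.b, EV.r, EV.t, E.val, NumI.lkR] at hp
    push_cast at hp
    linarith only [ua16, hp]

theorem gop {x T w b r t : ℝ} (ua1 : 3300 / 10000 ≤ x) (ua2 : x ≤ 3600 / 10000) (ua3 : -(490 / 10000) ≤ T) (ua4 : T ≤ 22 / 10000) (ua5 : 1300 / 10000 ≤ w) (ua6 : w ≤ 3100 / 10000) (ua7 : -(980 / 10000) ≤ b) (ua8 : b ≤ 570 / 10000) (ua9 : 500 / 10000 ≤ r) (ua10 : r ≤ 2700 / 10000) (ua11 : -(500 / 10000) ≤ t) (ua12 : t ≤ -(130 / 10000)) (ua13 : r ≤ x - 900 / 10000) (ua14 : -(98 / 130) * w ≤ b) (ua15 : t - T ≤ 135 / 10000) (ua16 : rui (100 / 27) x T ≤ t) :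
    0 < rD (4400 / 10000) (-1) x (rui (100 / 27) x T) w b r t := by
  have h : chkT [D 100 27 (q 4400 10000) (-1), sub EV.r (sub EV.x (q 900 10000)), sub (mul (q (-98) 130) EV.w) EV.b, sub (sub EV.t EV.T) (q 135 10000), sub (a 100 27) EV.t] 40
    142903332
    [NumI.V.of 10000 3300 3600, NumI.V.of 10000 (-490) 22, NumI.V.of 10000 1300 3100, NumI.V.of 10000 (-980) 570, NumI.V.of 10000 500 2700, NumI.V.of 10000 (-500) (-130)] = true := by
    decide +kernel
  obtain ⟨f, hf, hp⟩ := chkT_sound h (xs := [x, T, w, b, r, t])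
    (List.Forall₂.cons (NumI.V.of_mem (by norm_num) (by norm_num; linarith only [ua1]) (by norm_num; linarith only [ua2])) (List.Forall₂.cons (NumI.V.of_mem (by norm_num) (by norm_num; linarith only [ua3]) (by norm_num; linarith only [ua4])) (List.Forall₂.cons (NumI.V.of_mem (by norm_num) (by norm_num; linarith only [ua5]) (by norm_num; linarith only [ua6])) (List.Forall₂.cons (NumI.V.of_mem (by norm_num) (by norm_num; linarith only [ua7]) (by norm_num; linarith only [ua8])) (List.Forall₂.cons (NumI.V.of_mem (by norm_num) (by norm_num; linarith only [ua9]) (by norm_num; linarith only [ua10])) (List.Forall₂.cons (NumI.V.of_mem (by norm_num) (by norm_num; linarith only [ua11]) (by norm_num; linarith only [ua12])) List.Forall₂.nil))))))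
  by_contra hc
  push Not at hc
  simp only [List.mem_cons, List.not_mem_nil, or_false] at hf
  rcases hf with rfl | rfl | rfl | rfl | rfl
  · simp only [D_val, R_val, h_val, EE.ui_val, EV.a, EV.x, EV.T, EV.w, EV.b, EV.r, EV.t, E.val, NumI.lkR] at hp
    push_cast at hp
    linarith only [hc, hp]
  · simp only [D_val, R_val, h_val, EE.ui_val, EV.a, EV.x, EV.T, EV.w, EV.b, EV.r, EV.t, E.val, NumI.lkR] at hp
    push_cast at hp
    linarith only [ua13, hp]
  · simp only [D_val, R_val, h_val, EE.ui_val, EV.a, EV.x, EV.T, EV.w, EV.b, EV.r, EV.t, E.val, NumI.lkR] at hp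
    push_cast at hp
    linarith only [ua5, ua7, hp]
  · simp only [D_val, R_val, h_val, EE.ui_val, EV.a, EV.x, EV.T, EV.w, EV.b, EV.r, EV.t, E.val, NumI.lkR] at hp
    push_cast at hp
    linarith only [ua15, hp]
  · simp only [D_val, R_val, h_val, EE.ui_val, EV.a, EV.x, EV.T, EV.w, EV.b, EV.r, EV.t, E.val, NumI.lkR] at hp
    push_cast at hp
    linarith only [ua16, hp]

theorem gorn {x T w b r t : ℝ} (ua1 : 3300 / 10000 ≤ x) (ua2 : x ≤ 3600 / 10000) (ua3 : -(490 / 10000) ≤ T) (ua4 : T ≤ 22 / 10000) (ua5 : 1300 / 10000 ≤ w) (ua6 : w ≤ 3100 / 10000) (ua7 : -(980 / 10000) ≤ b) (ua8 : b ≤ 570 / 10000) (ua9 : 0 / 10000 ≤ r) (ua10 : r ≤ 500 / 10000) (ua11 : -(800 / 10000) ≤ t) (ua12 : t ≤ -(130 / 10000)) (ua13 : -(98 / 130) * w ≤ b) (ua14 : T - t ≤ 495 / 10000) (ua15 : 20 * (t * r) ≤ rui (100 / 27) x T) :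
    0 < rE (4400 / 10000) (1) x (rui (100 / 27) x T) w b r t := by
  have h : chkT [R 100 27 (q 4400 10000) (1), sub (mul (q (-98) 130) EV.w) EV.b, sub (sub EV.T EV.t) (q 495 10000), sub h (a 100 27)] 40
    2395322627360804
    [NumI.V.of 10000 3300 3600, NumI.V.of 10000 (-490) 22, NumI.V.of 10000 1300 3100, NumI.V.of 10000 (-980) 570, NumI.V.of 10000 0 500, NumI.V.of 10000 (-800) (-130)] = true := by
    decide +kernel
  obtain ⟨f, hf, hp⟩ := chkT_sound h (xs := [x, T, w, b, r, t])
    (List.Forall₂.cons (NumI.V.of_mem (by norm_num) (by norm_num; linarith only [ua1]) (by norm_num; linarith only [ua2])) (List.Forall₂.cons (NumI.V.of_mem (by norm_num) (by norm_num; linarith only [ua3]) (by norm_num; linarith only [ua4])) (List.Forall₂.cons (NumI.V.of_mem (by norm_num) (by norm_num; linarith only [ua5]) (by norm_num; linarith only [ua6])) (List.Forall₂.cons (NumI.V.of_mem (by norm_num) (by norm_num; linarith only [ua7]) (by norm_num; linarith only [ua8])) (List.Forall₂.cons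 (NumI.V.of_mem (by norm_num) (by norm_num; linarith only [ua9]) (by norm_num; linarith only [ua10])) (List.Forall₂.cons (NumI.V.of_mem (by norm_num) (by norm_num; linarith only [ua11]) (by norm_num; linarith only [ua12])) List.Forall₂.nil))))))
  by_contra hc
  push Not at hc
  simp only [List.mem_cons, List.not_mem_nil, or_false] at hf
  rcases hf with rfl | rfl | rfl | rfl
  · simp only [D_val, R_val, h_val, EE.ui_val, EV.a, EV.x, EV.T, EV.w, EV.b, EV.r, EV.t, E.val, NumI.lkR] at hp
    push_cast at hp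
    linarith only [hc, hp]
  · simp only [D_val, R_val, h_val, EE.ui_val, EV.a, EV.x, EV.T, EV.w, EV.b, EV.r, EV.t, E.val, NumI.lkR] at hp
    push_cast at hp
    linarith only [ua5, ua7, hp]
  · simp only [D_val, R_val, h_val, EE.ui_val, EV.a, EV.x, EV.T, EV.w, EV.b, EV.r, EV.t, E.val, NumI.lkR] at hp
    push_cast at hp
    linarith only [ua14, hp]
  · simp only [D_val, R_val, h_val, EE.ui_val, EV.a, EV.x, EV.T, EV.w, EV.b, EV.r, EV.t, E.val, NumI.lkR] at hp
    push_cast at hp
    linarith only [ua15, hp]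

theorem gorp {x T w b r t : ℝ} (ua1 : 3300 / 10000 ≤ x) (ua2 : x ≤ 3600 / 10000) (ua3 : -(490 / 10000) ≤ T) (ua4 : T ≤ 22 / 10000) (ua5 : 1300 / 10000 ≤ w) (ua6 : w ≤ 3100 / 10000) (ua7 : -(980 / 10000) ≤ b) (ua8 : b ≤ 570 / 10000) (ua9 : 0 / 10000 ≤ r) (ua10 : r ≤ 500 / 10000) (ua11 : -(800 / 10000) ≤ t) (ua12 : t ≤ -(130 / 10000)) (ua13 : -(98 / 130) * w ≤ b) (ua14 : t - T ≤ 135 / 10000) (ua15 : rui (100 / 27) x T ≤ 20 * (t * r)) :
    0 < rE (4400 / 10000) (-1) x (rui (100 / 27) x T) w b r t := by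
  have h : chkT [R 100 27 (q 4400 10000) (-1), sub (mul (q (-98) 130) EV.w) EV.b, sub (sub EV.t EV.T) (q 135 10000), sub (a 100 27) h] 40
    2395309841351972
    [NumI.V.of 10000 3300 3600, NumI.V.of 10000 (-490) 22, NumI.V.of 10000 1300 3100, NumI.V.of 10000 (-980) 570, NumI.V.of 10000 0 500, NumI.V.of 10000 (-800) (-130)] = true := by
    decide +kernel
  obtain ⟨f, hf, hp⟩ := chkT_sound h (xs := [x, T, w, b, r, t])
    (List.Forall₂.cons (NumI.V.of_mem (by norm_num) (by norm_num; linarith only [ua1]) (by norm_num; linarith only [ua2])) (List.Forall₂.cons (NumI.V.of_mem (by norm_num) (by norm_num; linarith only [ua3]) (by norm_num; linarith only [ua4])) (List.Forall₂.cons (NumI.V.of_mem (by norm_num) (by norm_num; linarith only [ua5]) (by norm_num; linarith only [ua6])) (List.Forall₂.cons (NumI.V.of_mem (by norm_num) (by norm_num; linarith only [ua7]) (by norm_num; linarith only [ua8])) (List.Forall₂.cons (NumI.V.of_mem (by norm_num) (by norm_num; linarith only [ua9])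 (by norm_num; linarith only [ua10])) (List.Forall₂.cons (NumI.V.of_mem (by norm_num) (by norm_num; linarith only [ua11]) (by norm_num; linarith only [ua12])) List.Forall₂.nil))))))
  by_contra hc
  push Not at hc
  simp only [List.mem_cons, List.not_mem_nil, or_false] at hf
  rcases hf with rfl | rfl | rfl | rfl
  · simp only [D_val, R_val, h_val, EE.ui_val, EV.a, EV.x, EV.T, EV.w, EV.b, EV.r, EV.t, E.val, NumI.lkR] at hp
    push_cast at hp
    linarith only [hc, hp]
  · simp only [D_val, R_val, h_val, EE.ui_val, EV.a, EV.x, EV.T, EV.w, EV.b, EV.r, EV.t, E.val, NumI.lkR] at hp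
    push_cast at hp
    linarith only [ua5, ua7, hp]
  · simp only [D_val, R_val, h_val, EE.ui_val, EV.a, EV.x, EV.T, EV.w, EV.b, EV.r, EV.t, E.val, NumI.lkR] at hp
    push_cast at hp
    linarith only [ua14, hp]
  · simp only [D_val, R_val, h_val, EE.ui_val, EV.a, EV.x, EV.T, EV.w, EV.b, EV.r, EV.t, E.val, NumI.lkR] at hp
    push_cast at hp
    linarith only [ua15, hp]

end S0R

end Pool.Agent.Work.MP_b30479_gt.G2
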