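import Pool.Agent.Work.MP_b30479_gt.G2.S0RW
import Pool.Agent.Work.NumU.Tree
import Pool.Agent.Work.NumU.TreeS

/-!
# The own side of an interior `3` at slot `0`: value rows of a low inner variable, `x ≤ .38`
-/

set_option linter.unusedSimpArgs false
set_option linter.unusedVariables false

namespace Pool.Agent.Work.MP_b30479_gt.G2

open VOL NumU

namespace S0R

open NumU.E EV

theorem z1m {x T w b r t : ℝ} (ua1 : 3000 / 10000 ≤ x) (ua2 : x ≤ 3800 / 10000) (ua3 : -(280 / 10000) ≤ T) (ua4 : T ≤ 0 / 10000) (ua5 : 700 / 10000 ≤ w) (ua6 : w ≤ 3900 / 10000) (ua7 : -(1145 / 10000) ≤ b) (ua8 : b ≤ -(98 / 10000)) (ua9 : 500 / 10000 ≤ r) (ua10 : r ≤ 2500 / 10000) (ua11 : -(1140 / 10000) ≤ t) (ua12 : t ≤ -(150 / 10000)) (ua13 : r ≤ x - 1300 / 10000) (ua14 : -(1145 / 1500) * w ≤ b) (ua15 : t ≤ rui (10 / 3) x T) :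
    0 < rD (4000 / 10000) (1) x (rui (10 / 3) x T) w b r t := by
  have h : chkT [D 10 3 (q 4000 10000) (1), sub EV.r (sub EV.x (q 1300 10000)), sub (mul (q (-1145) 1500) EV.w) EV.b, sub EV.t (a 10 3)] 40
    13199629266314941053957247620148705611664512276021033986864440026485611004003081091690753409781321611843932968655024919435792216671414053902974540160805178913018796298449582561729852058663477924717826022302916309203412851127700768036
    [NumI.V.of 10000 3000 3800, NumI.V.of 10000 (-280) 0, NumI.V.of 10000 700 3900, NumI.V.of 10000 (-1145) (-98), NumI.V.of 10000 500 2500, NumI.V.of 10000 (-1140) (-150)] = true := by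
    decide +kernel
  obtain ⟨f, hf, hp⟩ := chkT_sound h (xs := [x, T, w, b, r, t])
    (List.Forall₂.cons (NumI.V.of_mem (by norm_num) (by norm_num; linarith only [ua1]) (by norm_num; linarith only [ua2])) (List.Forall₂.cons (NumI.V.of_mem (by norm_num) (by norm_num; linarith only [ua3]) (by norm_num; linarith only [ua4])) (List.Forall₂.cons (NumI.V.of_mem (by norm_num) (by norm_num; linarith only [ua5]) (by norm_num; linarith only [ua6])) (List.Forall₂.cons (NumI.V.of_mem (by norm_num) (by norm_num; linarith only [ua7]) (by norm_num; linarith only [ua8])) (List.Forall₂.cons (NumI.V.of_mem (by norm_num) (by norm_num; linarith only [ua9]) (by norm_num; linarith only [ua10])) (List.Forall₂.cons (NumI.V.of_mem (by norm_num) (by norm_num; linarith only [ua11]) (by norm_num; linarith only [ua12])) List.Forall₂.nil))))))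
  by_contra hc
  push Not at hc
  simp only [List.mem_cons, List.not_mem_nil, or_false] at hf
  rcases hf with rfl | rfl | rfl | rfl
  · simp only [D_val, R_val, h_val, EE.ui_val, EV.a, EV.x, EV.T, EV.w, EV.b, EV.r, EV.t, E.val, NumI.lkR] at hp
    push_cast at hp
    linarith only [hc, hp]
  · simp only [D_val, R_val, h_val, EE.ui_val, EV.a, EV.x, EV.T, EV.w, EV.b, EV.r, EV.t, E.val, NumI.lkR] at hp
    push_cast at hp
    linarith only [ua13, hp]
  · simp only [D_val, R_val, h_val, EE.ui_val, EV.a, EV.x, EV.T, EV.w, EV.b, EV.r, EV.t, E.val, NumI.lkR] at hp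
    push_cast at hp
    linarith only [ua14, hp]
  · simp only [D_val, R_val, h_val, EE.ui_val, EV.a, EV.x, EV.T, EV.w, EV.b, EV.r, EV.t, E.val, NumI.lkR] at hp
    push_cast at hp
    linarith only [ua15, hp]

theorem z1p {x T w b r t : ℝ} (ua1 : 3000 / 10000 ≤ x) (ua2 : x ≤ 3800 / 10000) (ua3 : -(280 / 10000) ≤ T) (ua4 : T ≤ 0 / 10000) (ua5 : 700 / 10000 ≤ w) (ua6 : w ≤ 3900 / 10000) (ua7 : -(1145 / 10000) ≤ b) (ua8 : b ≤ -(98 / 10000)) (ua9 : 500 / 10000 ≤ r) (ua10 : r ≤ 2500 / 10000) (ua11 : -(280 / 10000) ≤ t) (ua12 : t ≤ -(150 / 10000)) (ua13 : r ≤ x - 1300 / 10000) (ua14 : -(1145 / 1500) * w ≤ b) (ua15 : rui (10 / 3) x T ≤ t) :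
    0 < rD (4000 / 10000) (-1) x (rui (10 / 3) x T) w b r t := by
  have h : chkT [D 10 3 (q 4000 10000) (-1), sub EV.r (sub EV.x (q 1300 10000)), sub (mul (q (-1145) 1500) EV.w) EV.b, sub (a 10 3) EV.t] 40
    2640447623891195715719274532
    [NumI.V.of 10000 3000 3800, NumI.V.of 10000 (-280) 0, NumI.V.of 10000 700 3900, NumI.V.of 10000 (-1145) (-98), NumI.V.of 10000 500 2500, NumI.V.of 10000 (-280) (-150)] = true := by
    decide +kernel
  obtain ⟨f, hf, hp⟩ := chkT_sound h (xs := [x, T, w, b, r, t])
    (List.Forall₂.cons (NumI.V.of_mem (by norm_num) (by norm_num; linarith only [ua1]) (by norm_num; linarith only [ua2])) (List.Forall₂.cons (NumI.V.of_mem (by norm_num) (by norm_num; linarith only [ua3]) (by norm_num; linarith only [ua4])) (List.Forall₂.cons (NumI.V.of_mem (by norm_num) (by norm_num; linarith only [ua5]) (by norm_num; linarith only [ua6])) (List.Forall₂.cons (NumI.V.of_mem (by norm_num) (by norm_num; linarith only [ua7]) (by norm_num; linarith only [ua8])) (List.Forall₂.cons (NumI.V.of_mem (by norm_num) (by norm_num; linarith only [ua9]) (by norm_num; linarith only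 [ua10])) (List.Forall₂.cons (NumI.V.of_mem (by norm_num) (by norm_num; linarith only [ua11]) (by norm_num; linarith only [ua12])) List.Forall₂.nil))))))
  by_contra hc
  push Not at hc
  simp only [List.mem_cons, List.not_mem_nil, or_false] at hf
  rcases hf with rfl | rfl | rfl | rfl
  · simp only [D_val, R_val, h_val, EE.ui_val, EV.a, EV.x, EV.T, EV.w, EV.b, EV.r, EV.t, E.val, NumI.lkR] at hp
    push_cast at hp
    linarith only [hc, hp]
  · simp only [D_val, R_val, h_val, EE.ui_val, EV.a, EV.x, EV.T, EV.w, EV.b, EV.r, EV.t, E.val, NumI.lkR] at hp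
    push_cast at hp
    linarith only [ua13, hp]
  · simp only [D_val, R_val, h_val, EE.ui_val, EV.a, EV.x, EV.T, EV.w, EV.b, EV.r, EV.t, E.val, NumI.lkR] at hp
    push_cast at hp
    linarith only [ua14, hp]
  · simp only [D_val, R_val, h_val, EE.ui_val, EV.a, EV.x, EV.T, EV.w, EV.b, EV.r, EV.t, E.val, NumI.lkR] at hp
    push_cast at hp
    linarith only [ua15, hp]

theorem z1rn_h1_q1 : Pool.Agent.Work.NumU.runT [R 10 3 (q 4000 10000) (1), sub (mul (q (-1145) 1500) EV.w) EV.b, sub (sub EV.T EV.t) (q 1050 10000), sub h (a 10 3)] 38
    1730635865004379364694074864609011028075978288507080728592200920338984127616725764488840516900487460589796939869884819491029786851364781069155048180233477518426046847705085313237385364480111971018409617884248304210036966589939763221126748445311259645309255940557878413463341929865212290908641611182419703324696146138950746152003554493121405409787421913474869966424345858413459737594080385131896733312134572526189533428691306188574194419848509385962302285921469799043777470734697480946241470232767004334093836994922197088633853018515501242168056438035951996447748092718247657961627219276530767511257087909530932362045444129651120156053373047372814642017953977600651058791781412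
    (Pool.Agent.Work.NumI.setL 5 (Pool.Agent.Work.NumI.setL 2 ([NumI.V.of 10000 3000 3800, NumI.V.of 10000 0 570, NumI.V.of 10000 700 3900, NumI.V.of 10000 (-1145) (-98), NumI.V.of 10000 0 500, NumI.V.of 10000 (-1140) (-150)]))) =
    8870084631661698697610608228380009606619102745226455643993992433422365557748250227457497295161036122908090560083976817443989626971027761402180371583861905186987586240116152218141135794128381091340231969337409211352027736857238816709308528333703270760888147722245269342882487196352124158036748805826044226616927283453459930864309407720440226697732733405755381516194760666843282140336056167303906479819319934203781886427959550959551300938938690640040948650758826874299311819373398620901327644024986692949521686276315627727825752110113 := by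
  decide +kernel

theorem z1rn_h1_q2 : Pool.Agent.Work.NumU.runT [R 10 3 (q 4000 10000) (1), sub (mul (q (-1145) 1500) EV.w) EV.b, sub (sub EV.T EV.t) (q 1050 10000), sub h (a 10 3)] 37
    554380289478856168600663014273750600413693921576653477749624527088897847359265639216093580947564757681755660005248551090249351685689235087636273223991369074186724140007259513633820987133023818208764498083588075709501733553577426044331783020856454422555509232640329333930155449772007759877296800364127764163557955215841245679019337982527514168608295837859711344762172541677705133771003510456494154988707495887736367901747471934971956308683668165002559290672426679643706988710837413806332977751561668309345105392269726732989109506882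
    (Pool.Agent.Work.NumI.setL 0 (Pool.Agent.Work.NumI.setR 5 (Pool.Agent.Work.NumI.setL 2 ([NumI.V.of 10000 3000 3800, NumI.V.of 10000 0 570, NumI.V.of 10000 700 3900, NumI.V.of 10000 (-1145) (-98), NumI.V.of 10000 0 500, NumI.V.of 10000 (-1140) (-150)])))) =
    225117588872247952795132519519534050057088960544124704276107487393529393043463456142080159485391892722326900354151778797565515283525729914834608959771060508191880333230586653877678471807654984544563133909972997380990707872377464875814253197144449827916135758691906785168815592151286184101711284575336005158813473732335771222952400204755823948774144204767121458064706353067509906634577692435304162255624975952042341459 := by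
  decide +kernel

theorem z1rn_h1_q3 : Pool.Agent.Work.NumU.runT [R 10 3 (q 4000 10000) (1), sub (mul (q (-1145) 1500) EV.w) EV.b, sub (sub EV.T EV.t) (q 1050 10000), sub h (a 10 3)] 35
    879365581532218565605986404373179883035503752125487126078544872630974191576029125555000622989812080946589454508405385927990294076272382479822691249105705110124532551681979116709681530498652283377199741835832021019494952626474472171149426551345507140297405307390260879565685906840961656647309705372406270151615131766936606339657813299827437299899000799871568195565259191669960572791319111075406883811035062312665396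
    (Pool.Agent.Work.NumI.setL 5 (Pool.Agent.Work.NumI.setL 2 (Pool.Agent.Work.NumI.setR 0 (Pool.Agent.Work.NumI.setR 5 (Pool.Agent.Work.NumI.setL 2 ([NumI.V.of 10000 3000 3800, NumI.V.of 10000 0 570, NumI.V.of 10000 700 3900, NumI.V.of 10000 (-1145) (-98), NumI.V.of 10000 0 500, NumI.V.of 10000 (-1140) (-150)])))))) =
    7242535957013021515463911193427462735244103224751918864066288108832168207195122635142961489998684717571392850915671495583670681317237687082708348155280600867347167729354558461058800001970285793362767091940590430177216808658455388840328188549398831364916663303892190994718687312539096036914600082525887183997181070503664530169008962 := by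
  decide +kernel

theorem z1rn_h1_q4 : Pool.Agent.Work.NumU.runT [R 10 3 (q 4000 10000) (1), sub (mul (q (-1145) 1500) EV.w) EV.b, sub (sub EV.T EV.t) (q 1050 10000), sub h (a 10 3)] 35
    7242535957013021515463911193427462735244103224751918864066288108832168207195122635142961489998684717571392850915671495583670681317237687082708348155280600867347167729354558461058800001970285793362767091940590430177216808658455388840328188549398831364916663303892190994718687312539096036914600082525887183997181070503664530169008961
    (Pool.Agent.Work.NumI.setR 5 (Pool.Agent.Work.NumI.setL 2 (Pool.Agent.Work.NumI.setR 0 (Pool.Agent.Work.NumI.setR 5 (Pool.Agent.Work.NumI.setL 2 ([NumI.V.of 10000 3000 3800, NumI.V.of 10000 0 570, NumI.V.of 10000 700 3900, NumI.V.of 10000 (-1145) (-98), NumI.V.of 10000 0 500, NumI.V.of 10000 (-1140) (-150)])))))) =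
    54251534940729431316561825229752424045393802887314448263442757640550442485085258507669012519928101646408787157628823110560200049819634528836926035866027808644077805567820863867448711387259207181262465150552460275909423091581996499173702 := by
  decide +kernel

theorem z1rn_h1_q5 : Pool.Agent.Work.NumU.runT [R 10 3 (q 4000 10000) (1), sub (mul (q (-1145) 1500) EV.w) EV.b, sub (sub EV.T EV.t) (q 1050 10000), sub h (a 10 3)] 36
    54251534940729431316561825229752424045393802887314448263442757640550442485085258507669012519928101646408787157628823110560200049819634528836926035866027808644077805567820863867448711387259207181262465150552460275909423091581996499173701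
    (Pool.Agent.Work.NumI.setR 2 (Pool.Agent.Work.NumI.setR 0 (Pool.Agent.Work.NumI.setR 5 (Pool.Agent.Work.NumI.setL 2 ([NumI.V.of 10000 3000 3800, NumI.V.of 10000 0 570, NumI.V.of 10000 700 3900, NumI.V.of 10000 (-1145) (-98), NumI.V.of 10000 0 500, NumI.V.of 10000 (-1140) (-150)]))))) =
    593926504685221154812935068454208561656049131683838018206003423440677834192531835124715809987560397755394513471006903304238369472320433667731066904373569966616964926255286906688136454227025 := by
  decide +kernel

theorem z1rn_h1_q6 : Pool.Agent.Work.NumU.runT [R 10 3 (q 4000 10000) (1), sub (mul (q (-1145) 1500) EV.w) EV.b, sub (sub EV.T EV.t) (q 1050 10000), sub h (a 10 3)] 38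
    37120406542826322175808441778388035103503070730239876137875213965042364637033239695294738124222524859712157091937931456514898092020027104233191681523348122913560307890955431668008528389189
    (Pool.Agent.Work.NumI.setL 0 (Pool.Agent.Work.NumI.setR 2 ([NumI.V.of 10000 3000 3800, NumI.V.of 10000 0 570, NumI.V.of 10000 700 3900, NumI.V.of 10000 (-1145) (-98), NumI.V.of 10000 0 500, NumI.V.of 10000 (-1140) (-150)]))) =
    78266134701532902170689053526322150755973834420578647228799083601421901723192855819096270861243552033678406 := by
  decide +kernel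

theorem z1rn_h1_q7 : Pool.Agent.Work.NumU.runT [R 10 3 (q 4000 10000) (1), sub (mul (q (-1145) 1500) EV.w) EV.b, sub (sub EV.T EV.t) (q 1050 10000), sub h (a 10 3)] 38
    78266134701532902170689053526322150755973834420578647228799083601421901723192855819096270861243552033678405
    (Pool.Agent.Work.NumI.setR 0 (Pool.Agent.Work.NumI.setR 2 ([NumI.V.of 10000 3000 3800, NumI.V.of 10000 0 570, NumI.V.of 10000 700 3900, NumI.V.of 10000 (-1145) (-98), NumI.V.of 10000 0 500, NumI.V.of 10000 (-1140) (-150)]))) =
    1 := by
  decide +kernel

theorem z1rn {x T w b r t : ℝ} (ua1 : 3000 / 10000 ≤ x) (ua2 : x ≤ 3800 / 10000) (ua3 : 0 / 10000 ≤ T) (ua4 : T ≤ 570 / 10000) (ua5 : 700 / 10000 ≤ w) (ua6 : w ≤ 3900 / 10000) (ua7 : -(1145 / 10000) ≤ b) (ua8 : b ≤ -(98 / 10000)) (ua9 : 0 / 10000 ≤ r) (ua10 : r ≤ 500 / 10000) (ua11 : -(1140 / 10000) ≤ t) (ua12 : t ≤ -(150 / 10000)) (ua13 : -(1145 / 1500) * w ≤ b) (ua14 : T - t ≤ 1050 / 10000) (ua15 : 20 * (t * r) ≤ rui (10 / 3) x T) :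
    0 < rE (4000 / 10000) (1) x (rui (10 / 3) x T) w b r t := by
  have h : chkT [R 10 3 (q 4000 10000) (1), sub (mul (q (-1145) 1500) EV.w) EV.b, sub (sub EV.T EV.t) (q 1050 10000), sub h (a 10 3)] 40
    443042781441121117361683165339906823187450441857812666519603435606779936669881795709143172326524789910988016606690513789703625433949383953703692334139770244717067993012501840188770653306908664580712862178367565877769463447024579384608447601999682469199169520782816873846615534045494346472612252462699444051122213411571391014912909950239079784905580009849566711404632539753845692824084578593765563727906450566704520557744974384274993771481218402806349385195896268555207032508082555122237816379588353109528022270700082454690266372739968317995022448137203711090623511735871400438176568134791876482881814504839918684683633697190686759949663500127440548356596218265766671050696041554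
    [NumI.V.of 10000 3000 3800, NumI.V.of 10000 0 570, NumI.V.of 10000 700 3900, NumI.V.of 10000 (-1145) (-98), NumI.V.of 10000 0 500, NumI.V.of 10000 (-1140) (-150)] = true :=
      Pool.Agent.Work.NumU.chkT_of (Pool.Agent.Work.NumU.runT_split rfl rfl rfl
        (Pool.Agent.Work.NumU.runT_split rfl rfl rfl
          z1rn_h1_q1
          (Pool.Agent.Work.NumU.runT_split rfl rfl rfl
            z1rn_h1_q2
            (Pool.Agent.Work.NumU.runT_split rfl rfl rfl
              (Pool.Agent.Work.NumU.runT_split rfl rfl rfl
                z1rn_h1_q3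
                z1rn_h1_q4)
              z1rn_h1_q5)))
        (Pool.Agent.Work.NumU.runT_split rfl rfl rfl
          z1rn_h1_q6
          z1rn_h1_q7))
  obtain ⟨f, hf, hp⟩ := chkT_sound h (xs := [x, T, w, b, r, t])
    (List.Forall₂.cons (NumI.V.of_mem (by norm_num) (by norm_num; linarith only [ua1]) (by norm_num; linarith only [ua2])) (List.Forall₂.cons (NumI.V.of_mem (by norm_num) (by norm_num; linarith only [ua3]) (by norm_num; linarith only [ua4])) (List.Forall₂.cons (NumI.V.of_mem (by norm_num) (by norm_num; linarith only [ua5]) (by norm_num; linarith only [ua6])) (List.Forall₂.cons (NumI.V.of_mem (by norm_num) (by norm_num; linarith only [ua7]) (by norm_num; linarith only [ua8])) (List.Forall₂.cons (NumI.V.of_mem (by norm_num) (by norm_num; linarith only [ua9]) (by norm_num; linarith only [ua10])) (List.Forall₂.cons (NumI.V.of_mem (by norm_num) (by norm_num; linarith only [ua3, ua14]) (by norm_num; linarith only [ua12])) List.Forall₂.nil))))))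
  by_contra hc
  push Not at hc
  simp only [List.mem_cons, List.not_mem_nil, or_false] at hf
  rcases hf with rfl | rfl | rfl | rfl
  · simp only [D_val, R_val, h_val, EE.ui_val, EV.a, EV.x, EV.T, EV.w, EV.b, EV.r, EV.t, E.val, NumI.lkR] at hp
    push_cast at hp
    linarith only [hc, hp]
  · simp only [D_val, R_val, h_val, EE.ui_val, EV.a, EV.x, EV.T, EV.w, EV.b, EV.r, EV.t, E.val, NumI.lkR] at hp
    push_cast at hp
    linarith only [ua13, hp]
  · simp only [D_val, R_val, h_val, EE.ui_val, EV.a, EV.x, EV.T, EV.w, EV.b, EV.r, EV.t, E.val, NumI.lkR] at hp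
    push_cast at hp
    linarith only [ua14, hp]
  · simp only [D_val, R_val, h_val, EE.ui_val, EV.a, EV.x, EV.T, EV.w, EV.b, EV.r, EV.t, E.val, NumI.lkR] at hp
    push_cast at hp
    linarith only [ua15, hp]

theorem z1rm {x T w b r t : ℝ} (ua1 : 3000 / 10000 ≤ x) (ua2 : x ≤ 3800 / 10000) (ua3 : -(280 / 10000) ≤ T) (ua4 : T ≤ 0 / 10000) (ua5 : 700 / 10000 ≤ w) (ua6 : w ≤ 3900 / 10000) (ua7 : -(1145 / 10000) ≤ b) (ua8 : b ≤ -(98 / 10000)) (ua9 : 0 / 10000 ≤ r) (ua10 : r ≤ 500 / 10000) (ua11 : -(1140 / 10000) ≤ t) (ua12 : t ≤ -(150 / 10000)) (ua13 : -(1145 / 1500) * w ≤ b) (ua14 : 20 * (t * r) ≤ rui (10 / 3) x T) :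
    0 < rE (4000 / 10000) (1) x (rui (10 / 3) x T) w b r t := by
  have h : chkT [R 10 3 (q 4000 10000) (1), sub (mul (q (-1145) 1500) EV.w) EV.b, sub h (a 10 3)] 40
    5116375420593642089645576857590487496572793378399797604852526649818981654821965401248097367761904474559167611474
    [NumI.V.of 10000 3000 3800, NumI.V.of 10000 (-280) 0, NumI.V.of 10000 700 3900, NumI.V.of 10000 (-1145) (-98), NumI.V.of 10000 0 500, NumI.V.of 10000 (-1140) (-150)] = true := by
    decide +kernel
  obtain ⟨f, hf, hp⟩ := chkT_sound h (xs := [x, T, w, b, r, t])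
    (List.Forall₂.cons (NumI.V.of_mem (by norm_num) (by norm_num; linarith only [ua1]) (by norm_num; linarith only [ua2])) (List.Forall₂.cons (NumI.V.of_mem (by norm_num) (by norm_num; linarith only [ua3]) (by norm_num; linarith only [ua4])) (List.Forall₂.cons (NumI.V.of_mem (by norm_num) (by norm_num; linarith only [ua5]) (by norm_num; linarith only [ua6])) (List.Forall₂.cons (NumI.V.of_mem (by norm_num) (by norm_num; linarith only [ua7]) (by norm_num; linarith only [ua8])) (List.Forall₂.cons (NumI.V.of_mem (by norm_num) (by norm_num; linarith only [ua9]) (by norm_num; linarith only [ua10])) (List.Forall₂.cons (NumI.V.of_mem (by norm_num) (by norm_num; linarith only [ua11]) (by norm_num; linarith only [ua12])) List.Forall₂.nil))))))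
  by_contra hc
  push Not at hc
  simp only [List.mem_cons, List.not_mem_nil, or_false] at hf
  rcases hf with rfl | rfl | rfl
  · simp only [D_val, R_val, h_val, EE.ui_val, EV.a, EV.x, EV.T, EV.w, EV.b, EV.r, EV.t, E.val, NumI.lkR] at hp
    push_cast at hp
    linarith only [hc, hp]
  · simp only [D_val, R_val, h_val, EE.ui_val, EV.a, EV.x, EV.T, EV.w, EV.b, EV.r, EV.t, E.val, NumI.lkR] at hp
    push_cast at hp
    linarith only [ua13, hp]
  · simp only [D_val, R_val, h_val, EE.ui_val, EV.a, EV.x, EV.T, EV.w, EV.b, EV.r, EV.t, E.val, NumI.lkR] at hp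
    push_cast at hp
    linarith only [ua14, hp]

theorem z1rp {x T w b r t : ℝ} (ua1 : 3000 / 10000 ≤ x) (ua2 : x ≤ 3800 / 10000) (ua3 : -(280 / 10000) ≤ T) (ua4 : T ≤ 0 / 10000) (ua5 : 700 / 10000 ≤ w) (ua6 : w ≤ 3900 / 10000) (ua7 : -(1145 / 10000) ≤ b) (ua8 : b ≤ -(98 / 10000)) (ua9 : 0 / 10000 ≤ r) (ua10 : r ≤ 500 / 10000) (ua11 : -(1140 / 10000) ≤ t) (ua12 : t ≤ -(150 / 10000)) (ua13 : -(1145 / 1500) * w ≤ b) (ua14 : rui (10 / 3) x T ≤ 20 * (t * r)) :
    0 < rE (4000 / 10000) (-1) x (rui (10 / 3) x T) w b r t := by
  have h : chkT [R 10 3 (q 4000 10000) (-1), sub (mul (q (-1145) 1500) EV.w) EV.b, sub (a 10 3) h] 40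
    252488335398475342042184976985873695751765463152057604069608674956051753225954386
    [NumI.V.of 10000 3000 3800, NumI.V.of 10000 (-280) 0, NumI.V.of 10000 700 3900, NumI.V.of 10000 (-1145) (-98), NumI.V.of 10000 0 500, NumI.V.of 10000 (-1140) (-150)] = true := by
    decide +kernel
  obtain ⟨f, hf, hp⟩ := chkT_sound h (xs := [x, T, w, b, r, t])
    (List.Forall₂.cons (NumI.V.of_mem (by norm_num) (by norm_num; linarith only [ua1]) (by norm_num; linarith only [ua2])) (List.Forall₂.cons (NumI.V.of_mem (by norm_num) (by norm_num; linarith only [ua3]) (by norm_num; linarith only [ua4])) (List.Forall₂.cons (NumI.V.of_mem (by norm_num) (by norm_num; linarith only [ua5]) (by norm_num; linarith only [ua6])) (List.Forall₂.cons (NumI.V.of_mem (by norm_num) (by norm_num; linarith only [ua7]) (by norm_num; linarith only [ua8])) (List.Forall₂.cons (NumI.V.of_mem (by norm_num) (by norm_num; linarith only [ua9]) (by norm_num; linarith only [ua10])) (List.Forall₂.cons (NumI.V.of_mem (by norm_num) (by norm_num; linarith only [ua11]) (by norm_num; linarith only [ua12])) List.Forall₂.nil))))))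
  by_contra hc
  push Not at hc
  simp only [List.mem_cons, List.not_mem_nil, or_false] at hf
  rcases hf with rfl | rfl | rfl
  · simp only [D_val, R_val, h_val, EE.ui_val, EV.a, EV.x, EV.T, EV.w, EV.b, EV.r, EV.t, E.val, NumI.lkR] at hp
    push_cast at hp
    linarith only [hc, hp]
  · simp only [D_val, R_val, h_val, EE.ui_val, EV.a, EV.x, EV.T, EV.w, EV.b, EV.r, EV.t, E.val, NumI.lkR] at hp
    push_cast at hp
    linarith only [ua13, hp]
  · simp only [D_val, R_val, h_val, EE.ui_val, EV.a, EV.x, EV.T, EV.w, EV.b, EV.r, EV.t, E.val, NumI.lkR] at hp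
    push_cast at hp
    linarith only [ua14, hp]

end S0R

end Pool.Agent.Work.MP_b30479_gt.G2
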