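import Pool.Agent.Work.MP_b30479_gt.G2.S0RW
import Pool.Agent.Work.NumU.Tree

/-!
# The own side of an interior `3` at slot `0`: value rows of a low inner variable, `x ≤ .38`
-/

set_option linter.unusedSimpArgs false
set_option linter.unusedVariables false

namespace Pool.Agent.Work.MP_b30479_gt.G2

open VOL NumU

namespace S0R

open NumU.E EV

theorem t1n {x T w b r t : ℝ} (ua1 : 3600 / 10000 ≤ x) (ua2 : x ≤ 3800 / 10000) (ua3 : -(570 / 10000) ≤ T) (ua4 : T ≤ 50 / 10000) (ua5 : 700 / 10000 ≤ w) (ua6 : w ≤ 3900 / 10000) (ua7 : -(1145 / 10000) ≤ b) (ua8 : b ≤ -(98 / 10000)) (ua9 : 500 / 10000 ≤ r) (ua10 : r ≤ 2900 / 10000) (ua11 : -(1140 / 10000) ≤ t) (ua12 : t ≤ -(150 / 10000)) (ua13 : r ≤ x - 900 / 10000) (ua14 : -(1145 / 1500) * w ≤ b) (ua15 : t ≤ rui (100 / 27) x T) :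
    0 < rD (4400 / 10000) (1) x (rui (100 / 27) x T) w b r t := by
  have h : chkT [D 100 27 (q 4400 10000) (1), sub EV.r (sub EV.x (q 900 10000)), sub (mul (q (-1145) 1500) EV.w) EV.b, sub EV.t (a 100 27)] 40
    9039852894180151893039653730615265441958625566681624021260449455265696694992308447055740032321407676282288627462683919377041952109838025836792922737685808430038530620947893409394349122
    [NumI.V.of 10000 3600 3800, NumI.V.of 10000 (-570) 50, NumI.V.of 10000 700 3900, NumI.V.of 10000 (-1145) (-98), NumI.V.of 10000 500 2900, NumI.V.of 10000 (-1140) (-150)] = true := by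
    decide +kernel
  obtain ⟨f, hf, hp⟩ := chkT_sound h (xs := [x, T, w, b, r, t])
    (List.Forall₂.cons (NumI.V.of_mem (by norm_num) (by norm_num; linarith only [ua1]) (by norm_num; linarith only [ua2])) (List.Forall₂.cons (NumI.V.of_mem (by norm_num) (by norm_num; linarith only [ua3]) (by norm_num; linarith only [ua4])) (List.Forall₂.cons (NumI.V.of_mem (by norm_num) (by norm_num; linarith only [ua5]) (by norm_num; linarith only [ua6])) (List.Forall₂.cons (NumI.V.of_mem (by norm_num) (by norm_num; linarith only [ua7]) (by norm_num; linarith only [ua8])) (List.Forall₂.cons (NumI.V.of_mem (by norm_num) (by norm_num; linarith only [ua9]) (by norm_num; linarith only [ua10])) (List.Forall₂.cons (NumI.V.of_mem (by norm_num) (by norm_num; linarith only [ua11]) (by norm_num; linarith only [ua12])) List.Forall₂.nil))))))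
  by_contra hc
  push Not at hc
  simp only [List.mem_cons, List.not_mem_nil, or_false] at hf
  rcases hf with rfl | rfl | rfl | rfl
  · simp only [D_val, R_val, h_val, EE.ui_val, EV.a, EV.x, EV.T, EV.w, EV.b, EV.r, EV.t, E.val, NumI.lkR] at hp
    push_cast at hp
    linarith only [hc, hp]
  · simp only [D_val, R_val, h_val, EE.ui_val, EV.a, EV.x, EV.T, EV.w, EV.b, EV.r, EV.t, E.val, NumI.lkR] at hp
    push_cast at hp
    linarith only [ua13, hp]
  · simp only [D_val, R_val, h_val, EE.ui_val, EV.a, EV.x, EV.T, EV.w, EV.b, EV.r, EV.t, E.val, NumI.lkR] at hp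
    push_cast at hp
    linarith only [ua14, hp]
  · simp only [D_val, R_val, h_val, EE.ui_val, EV.a, EV.x, EV.T, EV.w, EV.b, EV.r, EV.t, E.val, NumI.lkR] at hp
    push_cast at hp
    linarith only [ua15, hp]

theorem t1p {x T w b r t : ℝ} (ua1 : 3600 / 10000 ≤ x) (ua2 : x ≤ 3800 / 10000) (ua3 : -(570 / 10000) ≤ T) (ua4 : T ≤ 50 / 10000) (ua5 : 700 / 10000 ≤ w) (ua6 : w ≤ 3900 / 10000) (ua7 : -(1145 / 10000) ≤ b) (ua8 : b ≤ -(98 / 10000)) (ua9 : 500 / 10000 ≤ r) (ua10 : r ≤ 2900 / 10000) (ua11 : -(570 / 10000) ≤ t) (ua12 : t ≤ -(150 / 10000)) (ua13 : r ≤ x - 900 / 10000) (ua14 : -(1145 / 1500) * w ≤ b) (ua15 : t - T ≤ 280 / 10000) (ua16 : rui (100 / 27) x T ≤ t) :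
    0 < rD (4400 / 10000) (-1) x (rui (100 / 27) x T) w b r t := by
  have h : chkT [D 100 27 (q 4400 10000) (-1), sub EV.r (sub EV.x (q 900 10000)), sub (mul (q (-1145) 1500) EV.w) EV.b, sub (sub EV.t EV.T) (q 280 10000), sub (a 100 27) EV.t] 40
    40168111806827656127554
    [NumI.V.of 10000 3600 3800, NumI.V.of 10000 (-570) 50, NumI.V.of 10000 700 3900, NumI.V.of 10000 (-1145) (-98), NumI.V.of 10000 500 2900, NumI.V.of 10000 (-570) (-150)] = true := by
    decide +kernel
  obtain ⟨f, hf, hp⟩ := chkT_sound h (xs := [x, T, w, b, r, t])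
    (List.Forall₂.cons (NumI.V.of_mem (by norm_num) (by norm_num; linarith only [ua1]) (by norm_num; linarith only [ua2])) (List.Forall₂.cons (NumI.V.of_mem (by norm_num) (by norm_num; linarith only [ua3]) (by norm_num; linarith only [ua4])) (List.Forall₂.cons (NumI.V.of_mem (by norm_num) (by norm_num; linarith only [ua5]) (by norm_num; linarith only [ua6])) (List.Forall₂.cons (NumI.V.of_mem (by norm_num) (by norm_num; linarith only [ua7]) (by norm_num; linarith only [ua8])) (List.Forall₂.cons (NumI.V.of_mem (by norm_num) (by norm_num; linarith only [ua9]) (by norm_num; linarith only [ua10])) (List.Forall₂.cons (NumI.V.of_mem (by norm_num) (by norm_num; linarith only [ua11]) (by norm_num; linarith only [ua12])) List.Forall₂.nil))))))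
  by_contra hc
  push Not at hc
  simp only [List.mem_cons, List.not_mem_nil, or_false] at hf
  rcases hf with rfl | rfl | rfl | rfl | rfl
  · simp only [D_val, R_val, h_val, EE.ui_val, EV.a, EV.x, EV.T, EV.w, EV.b, EV.r, EV.t, E.val, NumI.lkR] at hp
    push_cast at hp
    linarith only [hc, hp]
  · simp only [D_val, R_val, h_val, EE.ui_val, EV.a, EV.x, EV.T, EV.w, EV.b, EV.r, EV.t, E.val, NumI.lkR] at hp
    push_cast at hp
    linarith only [ua13, hp]
  · simp only [D_val, R_val, h_val, EE.ui_val, EV.a, EV.x, EV.T, EV.w, EV.b, EV.r, EV.t, E.val, NumI.lkR] at hp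
    push_cast at hp
    linarith only [ua14, hp]
  · simp only [D_val, R_val, h_val, EE.ui_val, EV.a, EV.x, EV.T, EV.w, EV.b, EV.r, EV.t, E.val, NumI.lkR] at hp
    push_cast at hp
    linarith only [ua15, hp]
  · simp only [D_val, R_val, h_val, EE.ui_val, EV.a, EV.x, EV.T, EV.w, EV.b, EV.r, EV.t, E.val, NumI.lkR] at hp
    push_cast at hp
    linarith only [ua16, hp]

theorem t1rn {x T w b r t : ℝ} (ua1 : 3600 / 10000 ≤ x) (ua2 : x ≤ 3800 / 10000) (ua3 : -(570 / 10000) ≤ T) (ua4 : T ≤ 50 / 10000) (ua5 : 700 / 10000 ≤ w) (ua6 : w ≤ 3900 / 10000) (ua7 : -(1145 / 10000) ≤ b) (ua8 : b ≤ -(98 / 10000)) (ua9 : 0 / 10000 ≤ r) (ua10 : r ≤ 500 / 10000) (ua11 : -(1140 / 10000) ≤ t) (ua12 : t ≤ -(150 / 10000)) (ua13 : -(1145 / 1500) * w ≤ b) (ua14 : 20 * (t * r) ≤ rui (100 / 27) x T) :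
    0 < rE (4400 / 10000) (1) x (rui (100 / 27) x T) w b r t := by
  have h : chkT [R 100 27 (q 4400 10000) (1), sub (mul (q (-1145) 1500) EV.w) EV.b, sub h (a 100 27)] 40
    898505776921035456274240341525932828307163773940523069213392458306
    [NumI.V.of 10000 3600 3800, NumI.V.of 10000 (-570) 50, NumI.V.of 10000 700 3900, NumI.V.of 10000 (-1145) (-98), NumI.V.of 10000 0 500, NumI.V.of 10000 (-1140) (-150)] = true := by
    decide +kernel
  obtain ⟨f, hf, hp⟩ := chkT_sound h (xs := [x, T, w, b, r, t])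
    (List.Forall₂.cons (NumI.V.of_mem (by norm_num) (by norm_num; linarith only [ua1]) (by norm_num; linarith only [ua2])) (List.Forall₂.cons (NumI.V.of_mem (by norm_num) (by norm_num; linarith only [ua3]) (by norm_num; linarith only [ua4])) (List.Forall₂.cons (NumI.V.of_mem (by norm_num) (by norm_num; linarith only [ua5]) (by norm_num; linarith only [ua6])) (List.Forall₂.cons (NumI.V.of_mem (by norm_num) (by norm_num; linarith only [ua7]) (by norm_num; linarith only [ua8])) (List.Forall₂.cons (NumI.V.of_mem (by norm_num) (by norm_num; linarith only [ua9]) (by norm_num; linarith only [ua10])) (List.Forall₂.cons (NumI.V.of_mem (by norm_num) (by norm_num; linarith only [ua11]) (by norm_num; linarith only [ua12])) List.Forall₂.nil))))))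
  by_contra hc
  push Not at hc
  simp only [List.mem_cons, List.not_mem_nil, or_false] at hf
  rcases hf with rfl | rfl | rfl
  · simp only [D_val, R_val, h_val, EE.ui_val, EV.a, EV.x, EV.T, EV.w, EV.b, EV.r, EV.t, E.val, NumI.lkR] at hp
    push_cast at hp
    linarith only [hc, hp]
  · simp only [D_val, R_val, h_val, EE.ui_val, EV.a, EV.x, EV.T, EV.w, EV.b, EV.r, EV.t, E.val, NumI.lkR] at hp
    push_cast at hp
    linarith only [ua13, hp]
  · simp only [D_val, R_val, h_val, EE.ui_val, EV.a, EV.x, EV.T, EV.w, EV.b, EV.r, EV.t, E.val, NumI.lkR] at hp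
    push_cast at hp
    linarith only [ua14, hp]

theorem t1rp {x T w b r t : ℝ} (ua1 : 3600 / 10000 ≤ x) (ua2 : x ≤ 3800 / 10000) (ua3 : -(570 / 10000) ≤ T) (ua4 : T ≤ 50 / 10000) (ua5 : 700 / 10000 ≤ w) (ua6 : w ≤ 3900 / 10000) (ua7 : -(1145 / 10000) ≤ b) (ua8 : b ≤ -(98 / 10000)) (ua9 : 0 / 10000 ≤ r) (ua10 : r ≤ 500 / 10000) (ua11 : -(1140 / 10000) ≤ t) (ua12 : t ≤ -(150 / 10000)) (ua13 : -(1145 / 1500) * w ≤ b) (ua14 : t - T ≤ 280 / 10000) (ua15 : rui (100 / 27) x T ≤ 20 * (t * r)) :
    0 < rE (4400 / 10000) (-1) x (rui (100 / 27) x T) w b r t := by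
  have h : chkT [R 100 27 (q 4400 10000) (-1), sub (mul (q (-1145) 1500) EV.w) EV.b, sub (sub EV.t EV.T) (q 280 10000), sub (a 100 27) h] 40
    815085791745468235417403537968829850001981305492099650
    [NumI.V.of 10000 3600 3800, NumI.V.of 10000 (-570) 50, NumI.V.of 10000 700 3900, NumI.V.of 10000 (-1145) (-98), NumI.V.of 10000 0 500, NumI.V.of 10000 (-1140) (-150)] = true := by
    decide +kernel
  obtain ⟨f, hf, hp⟩ := chkT_sound h (xs := [x, T, w, b, r, t])
    (List.Forall₂.cons (NumI.V.of_mem (by norm_num) (by norm_num; linarith only [ua1]) (by norm_num; linarith only [ua2])) (List.Forall₂.cons (NumI.V.of_mem (by norm_num) (by norm_num; linarith only [ua3]) (by norm_num; linarith only [ua4])) (List.Forall₂.cons (NumI.V.of_mem (by norm_num) (by norm_num; linarith only [ua5]) (by norm_num; linarith only [ua6])) (List.Forall₂.cons (NumI.V.of_mem (by norm_num) (by norm_num; linarith only [ua7]) (by norm_num; linarith only [ua8])) (List.Forall₂.cons (NumI.V.of_mem (by norm_num)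 (by norm_num; linarith only [ua9]) (by norm_num; linarith only [ua10])) (List.Forall₂.cons (NumI.V.of_mem (by norm_num) (by norm_num; linarith only [ua11]) (by norm_num; linarith only [ua12])) List.Forall₂.nil))))))
  by_contra hc
  push Not at hc
  simp only [List.mem_cons, List.not_mem_nil, or_false] at hf
  rcases hf with rfl | rfl | rfl | rfl
  · simp only [D_val, R_val, h_val, EE.ui_val, EV.a, EV.x, EV.T, EV.w, EV.b, EV.r, EV.t, E.val, NumI.lkR] at hp
    push_cast at hp
    linarith only [hc, hp]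
  · simp only [D_val, R_val, h_val, EE.ui_val, EV.a, EV.x, EV.T, EV.w, EV.b, EV.r, EV.t, E.val, NumI.lkR] at hp
    push_cast at hp
    linarith only [ua13, hp]
  · simp only [D_val, R_val, h_val, EE.ui_val, EV.a, EV.x, EV.T, EV.w, EV.b, EV.r, EV.t, E.val, NumI.lkR] at hp
    push_cast at hp
    linarith only [ua14, hp]
  · simp only [D_val, R_val, h_val, EE.ui_val, EV.a, EV.x, EV.T, EV.w, EV.b, EV.r, EV.t, E.val, NumI.lkR] at hp
    push_cast at hp
    linarith only [ua15, hp]

theorem ton {x T w b r t : ℝ} (ua1 : 3600 / 10000 ≤ x) (ua2 : x ≤ 3800 / 10000) (ua3 : -(570 / 10000) ≤ T) (ua4 : T ≤ 50 / 10000) (ua5 : 700 / 10000 ≤ w) (ua6 : w ≤ 3100 / 10000) (ua7 : -(980 / 10000) ≤ b) (ua8 : b ≤ 570 / 10000) (ua9 : 500 / 10000 ≤ r) (ua10 : r ≤ 2900 / 10000) (ua11 : -(1040 / 10000) ≤ t) (ua12 : t ≤ 50 / 10000) (ua13 : r ≤ x - 900 / 10000) (ua14 : -(98 / 130) * w ≤ b) (ua15 : t ≤ rui (100 / 27) x T) :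
    0 < rD (4400 / 10000) (1) x (rui (100 / 27) x T) w b r t := by
  have h : chkT [D 100 27 (q 4400 10000) (1), sub EV.r (sub EV.x (q 900 10000)), sub (mul (q (-98) 130) EV.w) EV.b, sub EV.t (a 100 27)] 40
    94626412761976336967254593977650825451879519328357704112663113745107111245254158704674980399408075555678485999838670079784824034340
    [NumI.V.of 10000 3600 3800, NumI.V.of 10000 (-570) 50, NumI.V.of 10000 700 3100, NumI.V.of 10000 (-980) 570, NumI.V.of 10000 500 2900, NumI.V.of 10000 (-1040) 50] = true := by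
    decide +kernel
  obtain ⟨f, hf, hp⟩ := chkT_sound h (xs := [x, T, w, b, r, t])
    (List.Forall₂.cons (NumI.V.of_mem (by norm_num) (by norm_num; linarith only [ua1]) (by norm_num; linarith only [ua2])) (List.Forall₂.cons (NumI.V.of_mem (by norm_num) (by norm_num; linarith only [ua3]) (by norm_num; linarith only [ua4])) (List.Forall₂.cons (NumI.V.of_mem (by norm_num) (by norm_num; linarith only [ua5]) (by norm_num; linarith only [ua6])) (List.Forall₂.cons (NumI.V.of_mem (by norm_num) (by norm_num; linarith only [ua7]) (by norm_num; linarith only [ua8])) (List.Forall₂.cons (NumI.V.of_mem (by norm_num) (by norm_num; linarith only [ua9]) (by norm_num; linarith only [ua10])) (List.Forall₂.cons (NumI.V.of_mem (by norm_num) (by norm_num; linarith only [ua11]) (by norm_num; linarith only [ua12])) List.Forall₂.nil))))))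
  by_contra hc
  push Not at hc
  simp only [List.mem_cons, List.not_mem_nil, or_false] at hf
  rcases hf with rfl | rfl | rfl | rfl
  · simp only [D_val, R_val, h_val, EE.ui_val, EV.a, EV.x, EV.T, EV.w, EV.b, EV.r, EV.t, E.val, NumI.lkR] at hp
    push_cast at hp
    linarith only [hc, hp]
  · simp only [D_val, R_val, h_val, EE.ui_val, EV.a, EV.x, EV.T, EV.w, EV.b, EV.r, EV.t, E.val, NumI.lkR] at hp
    push_cast at hp
    linarith only [ua13, hp]
  · simp only [D_val, R_val, h_val, EE.ui_val, EV.a, EV.x, EV.T, EV.w, EV.b, EV.r, EV.t, E.val, NumI.lkR] at hp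
    push_cast at hp
    linarith only [ua14, hp]
  · simp only [D_val, R_val, h_val, EE.ui_val, EV.a, EV.x, EV.T, EV.w, EV.b, EV.r, EV.t, E.val, NumI.lkR] at hp
    push_cast at hp
    linarith only [ua15, hp]

theorem top {x T w b r t : ℝ} (ua1 : 3600 / 10000 ≤ x) (ua2 : x ≤ 3800 / 10000) (ua3 : -(570 / 10000) ≤ T) (ua4 : T ≤ 50 / 10000) (ua5 : 700 / 10000 ≤ w) (ua6 : w ≤ 3100 / 10000) (ua7 : -(980 / 10000) ≤ b) (ua8 : b ≤ 570 / 10000) (ua9 : 500 / 10000 ≤ r) (ua10 : r ≤ 2900 / 10000) (ua11 : -(570 / 10000) ≤ t) (ua12 : t ≤ 50 / 10000) (ua13 : r ≤ x - 900 / 10000) (ua14 : -(98 / 130) * w ≤ b) (ua15 : t - T ≤ 280 / 10000) (ua16 : rui (100 / 27) x T ≤ t) :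
    0 < rD (4400 / 10000) (-1) x (rui (100 / 27) x T) w b r t := by
  have h : chkT [D 100 27 (q 4400 10000) (-1), sub EV.r (sub EV.x (q 900 10000)), sub (mul (q (-98) 130) EV.w) EV.b, sub (sub EV.t EV.T) (q 280 10000), sub (a 100 27) EV.t] 40
    48604956112391500031555136399253992757489120292
    [NumI.V.of 10000 3600 3800, NumI.V.of 10000 (-570) 50, NumI.V.of 10000 700 3100, NumI.V.of 10000 (-980) 570, NumI.V.of 10000 500 2900, NumI.V.of 10000 (-570) 50] = true := by
    decide +kernel
  obtain ⟨f, hf, hp⟩ := chkT_sound h (xs := [x, T, w, b, r, t])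
    (List.Forall₂.cons (NumI.V.of_mem (by norm_num) (by norm_num; linarith only [ua1]) (by norm_num; linarith only [ua2])) (List.Forall₂.cons (NumI.V.of_mem (by norm_num) (by norm_num; linarith only [ua3]) (by norm_num; linarith only [ua4])) (List.Forall₂.cons (NumI.V.of_mem (by norm_num) (by norm_num; linarith only [ua5]) (by norm_num; linarith only [ua6])) (List.Forall₂.cons (NumI.V.of_mem (by norm_num) (by norm_num; linarith only [ua7]) (by norm_num; linarith only [ua8])) (List.Forall₂.cons (NumI.V.of_mem (by norm_num) (by norm_num; linarith only [ua9]) (by norm_num; linarith only [ua10])) (List.Forall₂.cons (NumI.V.of_mem (by norm_num) (by norm_num; linarith only [ua11]) (by norm_num; linarith only [ua12])) List.Forall₂.nil))))))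
  by_contra hc
  push Not at hc
  simp only [List.mem_cons, List.not_mem_nil, or_false] at hf
  rcases hf with rfl | rfl | rfl | rfl | rfl
  · simp only [D_val, R_val, h_val, EE.ui_val, EV.a, EV.x, EV.T, EV.w, EV.b, EV.r, EV.t, E.val, NumI.lkR] at hp
    push_cast at hp
    linarith only [hc, hp]
  · simp only [D_val, R_val, h_val, EE.ui_val, EV.a, EV.x, EV.T, EV.w, EV.b, EV.r, EV.t, E.val, NumI.lkR] at hp
    push_cast at hp
    linarith only [ua13, hp]
  · simp only [D_val, R_val, h_val, EE.ui_val, EV.a, EV.x, EV.T, EV.w, EV.b, EV.r, EV.t, E.val, NumI.lkR] at hp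
    push_cast at hp
    linarith only [ua14, hp]
  · simp only [D_val, R_val, h_val, EE.ui_val, EV.a, EV.x, EV.T, EV.w, EV.b, EV.r, EV.t, E.val, NumI.lkR] at hp
    push_cast at hp
    linarith only [ua15, hp]
  · simp only [D_val, R_val, h_val, EE.ui_val, EV.a, EV.x, EV.T, EV.w, EV.b, EV.r, EV.t, E.val, NumI.lkR] at hp
    push_cast at hp
    linarith only [ua16, hp]

theorem torn {x T w b r t : ℝ} (ua1 : 3600 / 10000 ≤ x) (ua2 : x ≤ 3800 / 10000) (ua3 : -(570 / 10000) ≤ T) (ua4 : T ≤ 50 / 10000) (ua5 : 700 / 10000 ≤ w) (ua6 : w ≤ 3100 / 10000) (ua7 : -(980 / 10000) ≤ b) (ua8 : b ≤ 570 / 10000) (ua9 : 0 / 10000 ≤ r) (ua10 : r ≤ 500 / 10000) (ua11 : -(1040 / 10000) ≤ t) (ua12 : t ≤ 50 / 10000) (ua13 : -(98 / 130) * w ≤ b) (ua14 : 20 * (t * r) ≤ rui (100 / 27) x T) :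
    0 < rE (4400 / 10000) (1) x (rui (100 / 27) x T) w b r t := by
  have h : chkT [R 100 27 (q 4400 10000) (1), sub (mul (q (-98) 130) EV.w) EV.b, sub h (a 100 27)] 40
    3509888722523830071898371662377521043381150960692694913392005698
    [NumI.V.of 10000 3600 3800, NumI.V.of 10000 (-570) 50, NumI.V.of 10000 700 3100, NumI.V.of 10000 (-980) 570, NumI.V.of 10000 0 500, NumI.V.of 10000 (-1040) 50] = true := by
    decide +kernel
  obtain ⟨f, hf, hp⟩ := chkT_sound h (xs := [x, T, w, b, r, t])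
    (List.Forall₂.cons (NumI.V.of_mem (by norm_num) (by norm_num; linarith only [ua1]) (by norm_num; linarith only [ua2])) (List.Forall₂.cons (NumI.V.of_mem (by norm_num) (by norm_num; linarith only [ua3]) (by norm_num; linarith only [ua4])) (List.Forall₂.cons (NumI.V.of_mem (by norm_num) (by norm_num; linarith only [ua5]) (by norm_num; linarith only [ua6])) (List.Forall₂.cons (NumI.V.of_mem (by norm_num) (by norm_num; linarith only [ua7]) (by norm_num; linarith only [ua8])) (List.Forall₂.cons (NumI.V.of_mem (by norm_num) (by norm_num; linarith only [ua9]) (by norm_num; linarith only [ua10])) (List.Forall₂.cons (NumI.V.of_mem (by norm_num) (by norm_num; linarith only [ua11]) (by norm_num; linarith only [ua12])) List.Forall₂.nil))))))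
  by_contra hc
  push Not at hc
  simp only [List.mem_cons, List.not_mem_nil, or_false] at hf
  rcases hf with rfl | rfl | rfl
  · simp only [D_val, R_val, h_val, EE.ui_val, EV.a, EV.x, EV.T, EV.w, EV.b, EV.r, EV.t, E.val, NumI.lkR] at hp
    push_cast at hp
    linarith only [hc, hp]
  · simp only [D_val, R_val, h_val, EE.ui_val, EV.a, EV.x, EV.T, EV.w, EV.b, EV.r, EV.t, E.val, NumI.lkR] at hp
    push_cast at hp
    linarith only [ua13, hp]
  · simp only [D_val, R_val, h_val, EE.ui_val, EV.a, EV.x, EV.T, EV.w, EV.b, EV.r, EV.t, E.val, NumI.lkR] at hp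
    push_cast at hp
    linarith only [ua14, hp]

theorem torp {x T w b r t : ℝ} (ua1 : 3600 / 10000 ≤ x) (ua2 : x ≤ 3800 / 10000) (ua3 : -(570 / 10000) ≤ T) (ua4 : T ≤ 50 / 10000) (ua5 : 700 / 10000 ≤ w) (ua6 : w ≤ 3100 / 10000) (ua7 : -(980 / 10000) ≤ b) (ua8 : b ≤ 570 / 10000) (ua9 : 0 / 10000 ≤ r) (ua10 : r ≤ 500 / 10000) (ua11 : -(1040 / 10000) ≤ t) (ua12 : t ≤ 50 / 10000) (ua13 : -(98 / 130) * w ≤ b) (ua14 : t - T ≤ 280 / 10000) (ua15 : rui (100 / 27) x T ≤ 20 * (t * r)) :
    0 < rE (4400 / 10000) (-1) x (rui (100 / 27) x T) w b r t := by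
  have h : chkT [R 100 27 (q 4400 10000) (-1), sub (mul (q (-98) 130) EV.w) EV.b, sub (sub EV.t EV.T) (q 280 10000), sub (a 100 27) h] 40
    58760068281691131658954479770441692320558138667723384602388792765272642
    [NumI.V.of 10000 3600 3800, NumI.V.of 10000 (-570) 50, NumI.V.of 10000 700 3100, NumI.V.of 10000 (-980) 570, NumI.V.of 10000 0 500, NumI.V.of 10000 (-1040) 50] = true := by
    decide +kernel
  obtain ⟨f, hf, hp⟩ := chkT_sound h (xs := [x, T, w, b, r, t])
    (List.Forall₂.cons (NumI.V.of_mem (by norm_num) (by norm_num; linarith only [ua1]) (by norm_num; linarith only [ua2])) (List.Forall₂.cons (NumI.V.of_mem (by norm_num) (by norm_num; linarith only [ua3]) (by norm_num; linarith only [ua4])) (List.Forall₂.cons (NumI.V.of_mem (by norm_num) (by norm_num; linarith only [ua5]) (by norm_num; linarith only [ua6])) (List.Forall₂.cons (NumI.V.of_mem (by norm_num) (by norm_num; linarith only [ua7]) (by norm_num; linarith only [ua8])) (List.Forall₂.cons (NumI.V.of_mem (by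 norm_num) (by norm_num; linarith only [ua9]) (by norm_num; linarith only [ua10])) (List.Forall₂.cons (NumI.V.of_mem (by norm_num) (by norm_num; linarith only [ua11]) (by norm_num; linarith only [ua12])) List.Forall₂.nil))))))
  by_contra hc
  push Not at hc
  simp only [List.mem_cons, List.not_mem_nil, or_false] at hf
  rcases hf with rfl | rfl | rfl | rfl
  · simp only [D_val, R_val, h_val, EE.ui_val, EV.a, EV.x, EV.T, EV.w, EV.b, EV.r, EV.t, E.val, NumI.lkR] at hp
    push_cast at hp
    linarith only [hc, hp]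
  · simp only [D_val, R_val, h_val, EE.ui_val, EV.a, EV.x, EV.T, EV.w, EV.b, EV.r, EV.t, E.val, NumI.lkR] at hp
    push_cast at hp
    linarith only [ua13, hp]
  · simp only [D_val, R_val, h_val, EE.ui_val, EV.a, EV.x, EV.T, EV.w, EV.b, EV.r, EV.t, E.val, NumI.lkR] at hp
    push_cast at hp
    linarith only [ua14, hp]
  · simp only [D_val, R_val, h_val, EE.ui_val, EV.a, EV.x, EV.T, EV.w, EV.b, EV.r, EV.t, E.val, NumI.lkR] at hp
    push_cast at hp
    linarith only [ua15, hp]

theorem e1n {x T w b r t : ℝ} (ua1 : 3000 / 10000 ≤ x) (ua2 : x ≤ 3800 / 10000) (ua3 : -(980 / 10000) ≤ T) (ua4 : T ≤ -(760 / 10000)) (ua5 : 700 / 10000 ≤ w) (ua6 : w ≤ 3900 / 10000) (ua7 : -(1145 / 10000) ≤ b) (ua8 : b ≤ -(98 / 10000)) (ua9 : 500 / 10000 ≤ r) (ua10 : r ≤ 3100 / 10000) (ua11 : -(1230 / 10000) ≤ t) (ua12 : t ≤ -(800 / 10000)) (ua13 : r ≤ x - 700 / 10000) (ua14 : -(1145 / 1500) * w ≤ b) (ua15 : t ≤ rui (10 / 3) x T) :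
    0 < rD (4600 / 10000) (1) x (rui (10 / 3) x T) w b r t := by
  have h : chkT [D 10 3 (q 4600 10000) (1), sub EV.r (sub EV.x (q 700 10000)), sub (mul (q (-1145) 1500) EV.w) EV.b, sub EV.t (a 10 3)] 40
    3192133765574967395351934960103366130219786363765826
    [NumI.V.of 10000 3000 3800, NumI.V.of 10000 (-980) (-760), NumI.V.of 10000 700 3900, NumI.V.of 10000 (-1145) (-98), NumI.V.of 10000 500 3100, NumI.V.of 10000 (-1230) (-800)] = true := by
    decide +kernel
  obtain ⟨f, hf, hp⟩ := chkT_sound h (xs := [x, T, w, b, r, t])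
    (List.Forall₂.cons (NumI.V.of_mem (by norm_num) (by norm_num; linarith only [ua1]) (by norm_num; linarith only [ua2])) (List.Forall₂.cons (NumI.V.of_mem (by norm_num) (by norm_num; linarith only [ua3]) (by norm_num; linarith only [ua4])) (List.Forall₂.cons (NumI.V.of_mem (by norm_num) (by norm_num; linarith only [ua5]) (by norm_num; linarith only [ua6])) (List.Forall₂.cons (NumI.V.of_mem (by norm_num) (by norm_num; linarith only [ua7]) (by norm_num; linarith only [ua8])) (List.Forall₂.cons (NumI.V.of_mem (by norm_num) (by norm_num; linarith only [ua9]) (by norm_num; linarith only [ua10])) (List.Forall₂.cons (NumI.V.of_mem (by norm_num) (by norm_num; linarith only [ua11]) (by norm_num; linarith only [ua12])) List.Forall₂.nil))))))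
  by_contra hc
  push Not at hc
  simp only [List.mem_cons, List.not_mem_nil, or_false] at hf
  rcases hf with rfl | rfl | rfl | rfl
  · simp only [D_val, R_val, h_val, EE.ui_val, EV.a, EV.x, EV.T, EV.w, EV.b, EV.r, EV.t, E.val, NumI.lkR] at hp
    push_cast at hp
    linarith only [hc, hp]
  · simp only [D_val, R_val, h_val, EE.ui_val, EV.a, EV.x, EV.T, EV.w, EV.b, EV.r, EV.t, E.val, NumI.lkR] at hp
    push_cast at hp
    linarith only [ua13, hp]
  · simp only [D_val, R_val, h_val, EE.ui_val, EV.a, EV.x, EV.T, EV.w, EV.b, EV.r, EV.t, E.val, NumI.lkR] at hp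
    push_cast at hp
    linarith only [ua14, hp]
  · simp only [D_val, R_val, h_val, EE.ui_val, EV.a, EV.x, EV.T, EV.w, EV.b, EV.r, EV.t, E.val, NumI.lkR] at hp
    push_cast at hp
    linarith only [ua15, hp]

theorem e1p {x T w b r t : ℝ} (ua1 : 3000 / 10000 ≤ x) (ua2 : x ≤ 3800 / 10000) (ua3 : -(980 / 10000) ≤ T) (ua4 : T ≤ -(760 / 10000)) (ua5 : 700 / 10000 ≤ w) (ua6 : w ≤ 3900 / 10000) (ua7 : -(1145 / 10000) ≤ b) (ua8 : b ≤ -(98 / 10000)) (ua9 : 500 / 10000 ≤ r) (ua10 : r ≤ 3100 / 10000) (ua11 : -(1230 / 10000) ≤ t) (ua12 : t ≤ -(800 / 10000)) (ua13 : r ≤ x - 700 / 10000) (ua14 : -(1145 / 1500) * w ≤ b) (ua15 : rui (10 / 3) x T ≤ t) :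
    0 < rD (4600 / 10000) (-1) x (rui (10 / 3) x T) w b r t := by
  have h : chkT [D 10 3 (q 4600 10000) (-1), sub EV.r (sub EV.x (q 700 10000)), sub (mul (q (-1145) 1500) EV.w) EV.b, sub (a 10 3) EV.t] 40
    172764593467621625356208535257781
    [NumI.V.of 10000 3000 3800, NumI.V.of 10000 (-980) (-760), NumI.V.of 10000 700 3900, NumI.V.of 10000 (-1145) (-98), NumI.V.of 10000 500 3100, NumI.V.of 10000 (-1230) (-800)] = true := by
    decide +kernel
  obtain ⟨f, hf, hp⟩ := chkT_sound h (xs := [x, T, w, b, r, t])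
    (List.Forall₂.cons (NumI.V.of_mem (by norm_num) (by norm_num; linarith only [ua1]) (by norm_num; linarith only [ua2])) (List.Forall₂.cons (NumI.V.of_mem (by norm_num) (by norm_num; linarith only [ua3]) (by norm_num; linarith only [ua4])) (List.Forall₂.cons (NumI.V.of_mem (by norm_num) (by norm_num; linarith only [ua5]) (by norm_num; linarith only [ua6])) (List.Forall₂.cons (NumI.V.of_mem (by norm_num) (by norm_num; linarith only [ua7]) (by norm_num; linarith only [ua8])) (List.Forall₂.cons (NumI.V.of_mem (by norm_num) (by norm_num; linarith only [ua9]) (by norm_num; linarith only [ua10])) (List.Forall₂.cons (NumI.V.of_mem (by norm_num) (by norm_num; linarith only [ua11]) (by norm_num; linarith only [ua12])) List.Forall₂.nil))))))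
  by_contra hc
  push Not at hc
  simp only [List.mem_cons, List.not_mem_nil, or_false] at hf
  rcases hf with rfl | rfl | rfl | rfl
  · simp only [D_val, R_val, h_val, EE.ui_val, EV.a, EV.x, EV.T, EV.w, EV.b, EV.r, EV.t, E.val, NumI.lkR] at hp
    push_cast at hp
    linarith only [hc, hp]
  · simp only [D_val, R_val, h_val, EE.ui_val, EV.a, EV.x, EV.T, EV.w, EV.b, EV.r, EV.t, E.val, NumI.lkR] at hp
    push_cast at hp
    linarith only [ua13, hp]
  · simp only [D_val, R_val, h_val, EE.ui_val, EV.a, EV.x, EV.T, EV.w, EV.b, EV.r, EV.t, E.val, NumI.lkR] at hp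
    push_cast at hp
    linarith only [ua14, hp]
  · simp only [D_val, R_val, h_val, EE.ui_val, EV.a, EV.x, EV.T, EV.w, EV.b, EV.r, EV.t, E.val, NumI.lkR] at hp
    push_cast at hp
    linarith only [ua15, hp]

theorem e1rn {x T w b r t : ℝ} (ua1 : 3000 / 10000 ≤ x) (ua2 : x ≤ 3800 / 10000) (ua3 : -(980 / 10000) ≤ T) (ua4 : T ≤ -(760 / 10000)) (ua5 : 700 / 10000 ≤ w) (ua6 : w ≤ 3900 / 10000) (ua7 : -(1145 / 10000) ≤ b) (ua8 : b ≤ -(98 / 10000)) (ua9 : 0 / 10000 ≤ r) (ua10 : r ≤ 500 / 10000) (ua11 : -(1230 / 10000) ≤ t) (ua12 : t ≤ -(800 / 10000)) (ua13 : -(1145 / 1500) * w ≤ b) (ua14 : 20 * (t * r) ≤ rui (10 / 3) x T) :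
    0 < rE (4600 / 10000) (1) x (rui (10 / 3) x T) w b r t := by
  have h : chkT [R 10 3 (q 4600 10000) (1), sub (mul (q (-1145) 1500) EV.w) EV.b, sub h (a 10 3)] 40
    9356723126850
    [NumI.V.of 10000 3000 3800, NumI.V.of 10000 (-980) (-760), NumI.V.of 10000 700 3900, NumI.V.of 10000 (-1145) (-98), NumI.V.of 10000 0 500, NumI.V.of 10000 (-1230) (-800)] = true := by
    decide +kernel
  obtain ⟨f, hf, hp⟩ := chkT_sound h (xs := [x, T, w, b, r, t])
    (List.Forall₂.cons (NumI.V.of_mem (by norm_num) (by norm_num; linarith only [ua1]) (by norm_num; linarith only [ua2])) (List.Forall₂.cons (NumI.V.of_mem (by norm_num) (by norm_num; linarith only [ua3]) (by norm_num; linarith only [ua4])) (List.Forall₂.cons (NumI.V.of_mem (by norm_num) (by norm_num; linarith only [ua5]) (by norm_num; linarith only [ua6])) (List.Forall₂.cons (NumI.V.of_mem (by norm_num) (by norm_num; linarith only [ua7]) (by norm_num; linarith only [ua8])) (List.Forall₂.cons (NumI.V.of_mem (by norm_num) (by norm_num;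 linarith only [ua9]) (by norm_num; linarith only [ua10])) (List.Forall₂.cons (NumI.V.of_mem (by norm_num) (by norm_num; linarith only [ua11]) (by norm_num; linarith only [ua12])) List.Forall₂.nil))))))
  by_contra hc
  push Not at hc
  simp only [List.mem_cons, List.not_mem_nil, or_false] at hf
  rcases hf with rfl | rfl | rfl
  · simp only [D_val, R_val, h_val, EE.ui_val, EV.a, EV.x, EV.T, EV.w, EV.b, EV.r, EV.t, E.val, NumI.lkR] at hp
    push_cast at hp
    linarith only [hc, hp]
  · simp only [D_val, R_val, h_val, EE.ui_val, EV.a, EV.x, EV.T, EV.w, EV.b, EV.r, EV.t, E.val, NumI.lkR] at hp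
    push_cast at hp
    linarith only [ua13, hp]
  · simp only [D_val, R_val, h_val, EE.ui_val, EV.a, EV.x, EV.T, EV.w, EV.b, EV.r, EV.t, E.val, NumI.lkR] at hp
    push_cast at hp
    linarith only [ua14, hp]

theorem e1rp {x T w b r t : ℝ} (ua1 : 3000 / 10000 ≤ x) (ua2 : x ≤ 3800 / 10000) (ua3 : -(980 / 10000) ≤ T) (ua4 : T ≤ -(760 / 10000)) (ua5 : 700 / 10000 ≤ w) (ua6 : w ≤ 3900 / 10000) (ua7 : -(1145 / 10000) ≤ b) (ua8 : b ≤ -(98 / 10000)) (ua9 : 0 / 10000 ≤ r) (ua10 : r ≤ 500 / 10000) (ua11 : -(1230 / 10000) ≤ t) (ua12 : t ≤ -(800 / 10000)) (ua13 : -(1145 / 1500) * w ≤ b) (ua14 : rui (10 / 3) x T ≤ 20 * (t * r)) :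
    0 < rE (4600 / 10000) (-1) x (rui (10 / 3) x T) w b r t := by
  have h : chkT [R 10 3 (q 4600 10000) (-1), sub (mul (q (-1145) 1500) EV.w) EV.b, sub (a 10 3) h] 40
    157384068185666568770
    [NumI.V.of 10000 3000 3800, NumI.V.of 10000 (-980) (-760), NumI.V.of 10000 700 3900, NumI.V.of 10000 (-1145) (-98), NumI.V.of 10000 0 500, NumI.V.of 10000 (-1230) (-800)] = true := by
    decide +kernel
  obtain ⟨f, hf, hp⟩ := chkT_sound h (xs := [x, T, w, b, r, t])
    (List.Forall₂.cons (NumI.V.of_mem (by norm_num) (by norm_num; linarith only [ua1]) (by norm_num; linarith only [ua2])) (List.Forall₂.cons (NumI.V.of_mem (by norm_num) (by norm_num; linarith only [ua3]) (by norm_num; linarith only [ua4])) (List.Forall₂.cons (NumI.V.of_mem (by norm_num) (by norm_num; linarith only [ua5]) (by norm_num; linarith only [ua6])) (List.Forall₂.cons (NumI.V.of_mem (by norm_num) (by norm_num; linarith only [ua7]) (by norm_num; linarith only [ua8])) (List.Forall₂.cons (NumI.V.of_mem (by norm_num)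 (by norm_num; linarith only [ua9]) (by norm_num; linarith only [ua10])) (List.Forall₂.cons (NumI.V.of_mem (by norm_num) (by norm_num; linarith only [ua11]) (by norm_num; linarith only [ua12])) List.Forall₂.nil))))))
  by_contra hc
  push Not at hc
  simp only [List.mem_cons, List.not_mem_nil, or_false] at hf
  rcases hf with rfl | rfl | rfl
  · simp only [D_val, R_val, h_val, EE.ui_val, EV.a, EV.x, EV.T, EV.w, EV.b, EV.r, EV.t, E.val, NumI.lkR] at hp
    push_cast at hp
    linarith only [hc, hp]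
  · simp only [D_val, R_val, h_val, EE.ui_val, EV.a, EV.x, EV.T, EV.w, EV.b, EV.r, EV.t, E.val, NumI.lkR] at hp
    push_cast at hp
    linarith only [ua13, hp]
  · simp only [D_val, R_val, h_val, EE.ui_val, EV.a, EV.x, EV.T, EV.w, EV.b, EV.r, EV.t, E.val, NumI.lkR] at hp
    push_cast at hp
    linarith only [ua14, hp]

theorem eon {x T w b r t : ℝ} (ua1 : 3000 / 10000 ≤ x) (ua2 : x ≤ 3800 / 10000) (ua3 : -(980 / 10000) ≤ T) (ua4 : T ≤ -(760 / 10000)) (ua5 : 700 / 10000 ≤ w) (ua6 : w ≤ 3100 / 10000) (ua7 : -(980 / 10000) ≤ b) (ua8 : b ≤ 570 / 10000) (ua9 : 500 / 10000 ≤ r) (ua10 : r ≤ 3100 / 10000) (ua11 : -(1160 / 10000) ≤ t) (ua12 : t ≤ -(640 / 10000)) (ua13 : r ≤ x - 700 / 10000) (ua14 : -(98 / 130) * w ≤ b) (ua15 : t ≤ rui (10 / 3) x T) :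
    0 < rD (4600 / 10000) (1) x (rui (10 / 3) x T) w b r t := by
  have h : chkT [D 10 3 (q 4600 10000) (1), sub EV.r (sub EV.x (q 700 10000)), sub (mul (q (-98) 130) EV.w) EV.b, sub EV.t (a 10 3)] 40
    190038283722660622534700930882579182641513508
    [NumI.V.of 10000 3000 3800, NumI.V.of 10000 (-980) (-760), NumI.V.of 10000 700 3100, NumI.V.of 10000 (-980) 570, NumI.V.of 10000 500 3100, NumI.V.of 10000 (-1160) (-640)] = true := by
    decide +kernel
  obtain ⟨f, hf, hp⟩ := chkT_sound h (xs := [x, T, w, b, r, t])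
    (List.Forall₂.cons (NumI.V.of_mem (by norm_num) (by norm_num; linarith only [ua1]) (by norm_num; linarith only [ua2])) (List.Forall₂.cons (NumI.V.of_mem (by norm_num) (by norm_num; linarith only [ua3]) (by norm_num; linarith only [ua4])) (List.Forall₂.cons (NumI.V.of_mem (by norm_num) (by norm_num; linarith only [ua5]) (by norm_num; linarith only [ua6])) (List.Forall₂.cons (NumI.V.of_mem (by norm_num) (by norm_num; linarith only [ua7]) (by norm_num; linarith only [ua8])) (List.Forall₂.cons (NumI.V.of_mem (by norm_num) (by norm_num; linarith only [ua9]) (by norm_num; linarith only [ua10])) (List.Forall₂.cons (NumI.V.of_mem (by norm_num) (by norm_num; linarith only [ua11]) (by norm_num; linarith only [ua12])) List.Forall₂.nil))))))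
  by_contra hc
  push Not at hc
  simp only [List.mem_cons, List.not_mem_nil, or_false] at hf
  rcases hf with rfl | rfl | rfl | rfl
  · simp only [D_val, R_val, h_val, EE.ui_val, EV.a, EV.x, EV.T, EV.w, EV.b, EV.r, EV.t, E.val, NumI.lkR] at hp
    push_cast at hp
    linarith only [hc, hp]
  · simp only [D_val, R_val, h_val, EE.ui_val, EV.a, EV.x, EV.T, EV.w, EV.b, EV.r, EV.t, E.val, NumI.lkR] at hp
    push_cast at hp
    linarith only [ua13, hp]
  · simp only [D_val, R_val, h_val, EE.ui_val, EV.a, EV.x, EV.T, EV.w, EV.b, EV.r, EV.t, E.val, NumI.lkR] at hp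
    push_cast at hp
    linarith only [ua14, hp]
  · simp only [D_val, R_val, h_val, EE.ui_val, EV.a, EV.x, EV.T, EV.w, EV.b, EV.r, EV.t, E.val, NumI.lkR] at hp
    push_cast at hp
    linarith only [ua15, hp]

theorem eop {x T w b r t : ℝ} (ua1 : 3000 / 10000 ≤ x) (ua2 : x ≤ 3800 / 10000) (ua3 : -(980 / 10000) ≤ T) (ua4 : T ≤ -(760 / 10000)) (ua5 : 700 / 10000 ≤ w) (ua6 : w ≤ 3100 / 10000) (ua7 : -(980 / 10000) ≤ b) (ua8 : b ≤ 570 / 10000) (ua9 : 500 / 10000 ≤ r) (ua10 : r ≤ 3100 / 10000) (ua11 : -(1160 / 10000) ≤ t) (ua12 : t ≤ -(640 / 10000)) (ua13 : r ≤ x - 700 / 10000) (ua14 : -(98 / 130) * w ≤ b) (ua15 : rui (10 / 3) x T ≤ t) :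
    0 < rD (4600 / 10000) (-1) x (rui (10 / 3) x T) w b r t := by
  have h : chkT [D 10 3 (q 4600 10000) (-1), sub EV.r (sub EV.x (q 700 10000)), sub (mul (q (-98) 130) EV.w) EV.b, sub (a 10 3) EV.t] 40
    172678559468675195951830941598500
    [NumI.V.of 10000 3000 3800, NumI.V.of 10000 (-980) (-760), NumI.V.of 10000 700 3100, NumI.V.of 10000 (-980) 570, NumI.V.of 10000 500 3100, NumI.V.of 10000 (-1160) (-640)] = true := by
    decide +kernel
  obtain ⟨f, hf, hp⟩ := chkT_sound h (xs := [x, T, w, b, r, t])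
    (List.Forall₂.cons (NumI.V.of_mem (by norm_num) (by norm_num; linarith only [ua1]) (by norm_num; linarith only [ua2])) (List.Forall₂.cons (NumI.V.of_mem (by norm_num) (by norm_num; linarith only [ua3]) (by norm_num; linarith only [ua4])) (List.Forall₂.cons (NumI.V.of_mem (by norm_num) (by norm_num; linarith only [ua5]) (by norm_num; linarith only [ua6])) (List.Forall₂.cons (NumI.V.of_mem (by norm_num) (by norm_num; linarith only [ua7]) (by norm_num; linarith only [ua8])) (List.Forall₂.cons (NumI.V.of_mem (by norm_num) (by norm_num; linarith only [ua9]) (by norm_num; linarith only [ua10])) (List.Forall₂.cons (NumI.V.of_mem (by norm_num) (by norm_num; linarith only [ua11]) (by norm_num; linarith only [ua12])) List.Forall₂.nil))))))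
  by_contra hc
  push Not at hc
  simp only [List.mem_cons, List.not_mem_nil, or_false] at hf
  rcases hf with rfl | rfl | rfl | rfl
  · simp only [D_val, R_val, h_val, EE.ui_val, EV.a, EV.x, EV.T, EV.w, EV.b, EV.r, EV.t, E.val, NumI.lkR] at hp
    push_cast at hp
    linarith only [hc, hp]
  · simp only [D_val, R_val, h_val, EE.ui_val, EV.a, EV.x, EV.T, EV.w, EV.b, EV.r, EV.t, E.val, NumI.lkR] at hp
    push_cast at hp
    linarith only [ua13, hp]
  · simp only [D_val, R_val, h_val, EE.ui_val, EV.a, EV.x, EV.T, EV.w, EV.b, EV.r, EV.t, E.val, NumI.lkR] at hp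
    push_cast at hp
    linarith only [ua14, hp]
  · simp only [D_val, R_val, h_val, EE.ui_val, EV.a, EV.x, EV.T, EV.w, EV.b, EV.r, EV.t, E.val, NumI.lkR] at hp
    push_cast at hp
    linarith only [ua15, hp]

theorem eorn {x T w b r t : ℝ} (ua1 : 3000 / 10000 ≤ x) (ua2 : x ≤ 3800 / 10000) (ua3 : -(980 / 10000) ≤ T) (ua4 : T ≤ -(760 / 10000)) (ua5 : 700 / 10000 ≤ w) (ua6 : w ≤ 3100 / 10000) (ua7 : -(980 / 10000) ≤ b) (ua8 : b ≤ 570 / 10000) (ua9 : 0 / 10000 ≤ r) (ua10 : r ≤ 500 / 10000) (ua11 : -(1160 / 10000) ≤ t) (ua12 : t ≤ -(640 / 10000)) (ua13 : -(98 / 130) * w ≤ b) (ua14 : 20 * (t * r) ≤ rui (10 / 3) x T) :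
    0 < rE (4600 / 10000) (1) x (rui (10 / 3) x T) w b r t := by
  have h : chkT [R 10 3 (q 4600 10000) (1), sub (mul (q (-98) 130) EV.w) EV.b, sub h (a 10 3)] 40
    9361019142978
    [NumI.V.of 10000 3000 3800, NumI.V.of 10000 (-980) (-760), NumI.V.of 10000 700 3100, NumI.V.of 10000 (-980) 570, NumI.V.of 10000 0 500, NumI.V.of 10000 (-1160) (-640)] = true := by
    decide +kernel
  obtain ⟨f, hf, hp⟩ := chkT_sound h (xs := [x, T, w, b, r, t])
    (List.Forall₂.cons (NumI.V.of_mem (by norm_num) (by norm_num; linarith only [ua1]) (by norm_num; linarith only [ua2])) (List.Forall₂.cons (NumI.V.of_mem (by norm_num) (by norm_num; linarith only [ua3]) (by norm_num; linarith only [ua4])) (List.Forall₂.cons (NumI.V.of_mem (by norm_num) (by norm_num; linarith only [ua5]) (by norm_num; linarith only [ua6])) (List.Forall₂.cons (NumI.V.of_mem (by norm_num) (by norm_num; linarith only [ua7]) (by norm_num; linarith only [ua8])) (List.Forall₂.cons (NumI.V.of_mem (by norm_num) (by norm_num;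 linarith only [ua9]) (by norm_num; linarith only [ua10])) (List.Forall₂.cons (NumI.V.of_mem (by norm_num) (by norm_num; linarith only [ua11]) (by norm_num; linarith only [ua12])) List.Forall₂.nil))))))
  by_contra hc
  push Not at hc
  simp only [List.mem_cons, List.not_mem_nil, or_false] at hf
  rcases hf with rfl | rfl | rfl
  · simp only [D_val, R_val, h_val, EE.ui_val, EV.a, EV.x, EV.T, EV.w, EV.b, EV.r, EV.t, E.val, NumI.lkR] at hp
    push_cast at hp
    linarith only [hc, hp]
  · simp only [D_val, R_val, h_val, EE.ui_val, EV.a, EV.x, EV.T, EV.w, EV.b, EV.r, EV.t, E.val, NumI.lkR] at hp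
    push_cast at hp
    linarith only [ua13, hp]
  · simp only [D_val, R_val, h_val, EE.ui_val, EV.a, EV.x, EV.T, EV.w, EV.b, EV.r, EV.t, E.val, NumI.lkR] at hp
    push_cast at hp
    linarith only [ua14, hp]

theorem eorp {x T w b r t : ℝ} (ua1 : 3000 / 10000 ≤ x) (ua2 : x ≤ 3800 / 10000) (ua3 : -(980 / 10000) ≤ T) (ua4 : T ≤ -(760 / 10000)) (ua5 : 700 / 10000 ≤ w) (ua6 : w ≤ 3100 / 10000) (ua7 : -(980 / 10000) ≤ b) (ua8 : b ≤ 570 / 10000) (ua9 : 0 / 10000 ≤ r) (ua10 : r ≤ 500 / 10000) (ua11 : -(1160 / 10000) ≤ t) (ua12 : t ≤ -(640 / 10000)) (ua13 : -(98 / 130) * w ≤ b) (ua14 : rui (10 / 3) x T ≤ 20 * (t * r)) :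
    0 < rE (4600 / 10000) (-1) x (rui (10 / 3) x T) w b r t := by
  have h : chkT [R 10 3 (q 4600 10000) (-1), sub (mul (q (-98) 130) EV.w) EV.b, sub (a 10 3) h] 40
    40291474394610342708034
    [NumI.V.of 10000 3000 3800, NumI.V.of 10000 (-980) (-760), NumI.V.of 10000 700 3100, NumI.V.of 10000 (-980) 570, NumI.V.of 10000 0 500, NumI.V.of 10000 (-1160) (-640)] = true := by
    decide +kernel
  obtain ⟨f, hf, hp⟩ := chkT_sound h (xs := [x, T, w, b, r, t])
    (List.Forall₂.cons (NumI.V.of_mem (by norm_num) (by norm_num; linarith only [ua1]) (by norm_num; linarith only [ua2])) (List.Forall₂.cons (NumI.V.of_mem (by norm_num) (by norm_num; linarith only [ua3]) (by norm_num; linarith only [ua4])) (List.Forall₂.cons (NumI.V.of_mem (by norm_num) (by norm_num; linarith only [ua5]) (by norm_num; linarith only [ua6])) (List.Forall₂.cons (NumI.V.of_mem (by norm_num) (by norm_num; linarith only [ua7]) (by norm_num; linarith only [ua8])) (List.Forall₂.cons (NumI.V.of_mem (by norm_num)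 (by norm_num; linarith only [ua9]) (by norm_num; linarith only [ua10])) (List.Forall₂.cons (NumI.V.of_mem (by norm_num) (by norm_num; linarith only [ua11]) (by norm_num; linarith only [ua12])) List.Forall₂.nil))))))
  by_contra hc
  push Not at hc
  simp only [List.mem_cons, List.not_mem_nil, or_false] at hf
  rcases hf with rfl | rfl | rfl
  · simp only [D_val, R_val, h_val, EE.ui_val, EV.a, EV.x, EV.T, EV.w, EV.b, EV.r, EV.t, E.val, NumI.lkR] at hp
    push_cast at hp
    linarith only [hc, hp]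
  · simp only [D_val, R_val, h_val, EE.ui_val, EV.a, EV.x, EV.T, EV.w, EV.b, EV.r, EV.t, E.val, NumI.lkR] at hp
    push_cast at hp
    linarith only [ua13, hp]
  · simp only [D_val, R_val, h_val, EE.ui_val, EV.a, EV.x, EV.T, EV.w, EV.b, EV.r, EV.t, E.val, NumI.lkR] at hp
    push_cast at hp
    linarith only [ua14, hp]

end S0R

end Pool.Agent.Work.MP_b30479_gt.G2
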