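import Pool.Agent.Work.MP_b30479_gt.G2.S0RW
import Pool.Agent.Work.NumU.Tree
import Pool.Agent.Work.NumU.TreeS

/-!
# The own side of an interior `3` at slot `0`: value rows, the hinge in the slot `2` in `[.31, .39]`
-/

set_option linter.unusedSimpArgs false
set_option linter.unusedVariables false

namespace Pool.Agent.Work.MP_b30479_gt.G2

open VOL NumU

namespace S0R

open NumU.E EV

theorem xon_h1_q1 : Pool.Agent.Work.NumU.runT [D 10 3 (q 4200 10000) (1), sub EV.r (sub EV.x (q 1300 10000)), sub (mul (q (-98) 130) EV.w) EV.b, sub (sub EV.T EV.t) (q 1000 10000), sub EV.t (a 10 3)] 38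
    1899820784707243535276570644076762700776663113024760819117313081711630126989871038526537732889520409523823462830908488566115934820661335584218697422786313134964375183260844673674546003715154616143976796716936134021486308671102212507577845884898881572668319437336485850218060726856227167466704390877505657533432435536245654804025019518862887336481473029987866183458458498162167654463912966614826613945142252683532091202433934723280851217467699014348837047529755901235857279507366377532545129088443729200575736462846902842992590024513425465227695614658350615580043183765704912872275799618920203406603576342918165102826457780268960621714823385011270783452124748895623983772425093928552772929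
    (Pool.Agent.Work.NumI.setL 5 (Pool.Agent.Work.NumI.setL 4 ([NumI.V.of 10000 3000 3800, NumI.V.of 10000 0 570, NumI.V.of 10000 3100 3900, NumI.V.of 10000 (-980) 220, NumI.V.of 10000 500 2500, NumI.V.of 10000 (-1040) 50]))) =
    217147120261637686540379705815866519919656029436283661990150967698947804535675588136285739347491285323114161647104215453235652539347803172254245829453858055204207850731995559882521498175556348088295458292262384949653466760808946924268226217381460902885712184879716766086929050293642742937947215259071760399617591142575117854239778521788608328201714712883756279787039080985235088811079422115871587830298108999951404128453897100300590169469347856553578720230325859031959888466649139098744961538730298445760267273060982634061132571510958043479499413401134724100784688736095262272200096579905 := by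
  decide +kernel

theorem xon_h1_q2 : Pool.Agent.Work.NumU.runT [D 10 3 (q 4200 10000) (1), sub EV.r (sub EV.x (q 1300 10000)), sub (mul (q (-98) 130) EV.w) EV.b, sub (sub EV.T EV.t) (q 1000 10000), sub EV.t (a 10 3)] 38
    217147120261637686540379705815866519919656029436283661990150967698947804535675588136285739347491285323114161647104215453235652539347803172254245829453858055204207850731995559882521498175556348088295458292262384949653466760808946924268226217381460902885712184879716766086929050293642742937947215259071760399617591142575117854239778521788608328201714712883756279787039080985235088811079422115871587830298108999951404128453897100300590169469347856553578720230325859031959888466649139098744961538730298445760267273060982634061132571510958043479499413401134724100784688736095262272200096579904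
    (Pool.Agent.Work.NumI.setR 5 (Pool.Agent.Work.NumI.setL 4 ([NumI.V.of 10000 3000 3800, NumI.V.of 10000 0 570, NumI.V.of 10000 3100 3900, NumI.V.of 10000 (-980) 220, NumI.V.of 10000 500 2500, NumI.V.of 10000 (-1040) 50]))) =
    416404495736181687821588641880840437308540059610532751899579158653387098027784882105762722355942023894111542356432471153491124157497000375301547477903673495827271089238062944021617240969482823288560204135291175427748522702369800431117467662235854297543333073289997138965060553511158916856533441481292589579172619809411094471577866672393756941802989181195704751377339906742522564011298594412380341717835693194345945692860797035688036079628481946395286904258495888652633324744389132494319696287041 := by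
  decide +kernel

theorem xon_h1_q3 : Pool.Agent.Work.NumU.runT [D 10 3 (q 4200 10000) (1), sub EV.r (sub EV.x (q 1300 10000)), sub (mul (q (-98) 130) EV.w) EV.b, sub (sub EV.T EV.t) (q 1000 10000), sub EV.t (a 10 3)] 37
    1626580061469459718053080632347032958236484607853643562107731088489793351671034695725635634202898530836373212329814340443324703740222657716021669835561224593075277692336183375084442347537042278470938297403481154014642666806132032934052608055608805849778644817539051324082267787152964518970833755786299178043643046130512087779601041689038113053917926489045721685067734010712978765669135134423360709835295676540413850362737488420656390936048757603106589469759749565049348924782770048805936313621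
    (Pool.Agent.Work.NumI.setL 4 (Pool.Agent.Work.NumI.setL 0 (Pool.Agent.Work.NumI.setR 4 ([NumI.V.of 10000 3000 3800, NumI.V.of 10000 0 570, NumI.V.of 10000 3100 3900, NumI.V.of 10000 (-980) 220, NumI.V.of 10000 500 2500, NumI.V.of 10000 (-1040) 50])))) =
    8336764016716529851421001381102756914319727069367515898117578660463653027666267250983503274182949404219151920368655676899032457426966665046563027516118455875988194422168090067135300878250541088550166923023975478512634194229166329433701178548823591009815576309849701444088195937072582111720773012778036233921108224945027038976027980268969466185206021 := by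
  decide +kernel

theorem xon_h1_q4 : Pool.Agent.Work.NumU.runT [D 10 3 (q 4200 10000) (1), sub EV.r (sub EV.x (q 1300 10000)), sub (mul (q (-98) 130) EV.w) EV.b, sub (sub EV.T EV.t) (q 1000 10000), sub EV.t (a 10 3)] 37
    8336764016716529851421001381102756914319727069367515898117578660463653027666267250983503274182949404219151920368655676899032457426966665046563027516118455875988194422168090067135300878250541088550166923023975478512634194229166329433701178548823591009815576309849701444088195937072582111720773012778036233921108224945027038976027980268969466185206020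
    (Pool.Agent.Work.NumI.setR 4 (Pool.Agent.Work.NumI.setL 0 (Pool.Agent.Work.NumI.setR 4 ([NumI.V.of 10000 3000 3800, NumI.V.of 10000 0 570, NumI.V.of 10000 3100 3900, NumI.V.of 10000 (-980) 220, NumI.V.of 10000 500 2500, NumI.V.of 10000 (-1040) 50])))) =
    1266596920018310152373825899029935244863612004438201544393352124623546897316488413646558499691432887048915053857100952302074870760985082011320025864772284151031608662574650750559710281205023579283437481307704465225215104118788339351411056948268106936131661556373707734195959359252681750 := by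
  decide +kernel

theorem xon_h1_q5 : Pool.Agent.Work.NumU.runT [D 10 3 (q 4200 10000) (1), sub EV.r (sub EV.x (q 1300 10000)), sub (mul (q (-98) 130) EV.w) EV.b, sub (sub EV.T EV.t) (q 1000 10000), sub EV.t (a 10 3)] 37
    79162307501144384523364118689370952803975750277387596524584507788971681082280525852909906230714555440557190866068809518879679422561567625707501616548267759439475541410915671909981892575313973705214842581731529076575944007424271209463191059266756683508228847273356733387247459953292609
    (Pool.Agent.Work.NumI.setL 5 (Pool.Agent.Work.NumI.setR 0 (Pool.Agent.Work.NumI.setR 4 ([NumI.V.of 10000 3000 3800, NumI.V.of 10000 0 570, NumI.V.of 10000 3100 3900, NumI.V.of 10000 (-980) 220, NumI.V.of 10000 500 2500, NumI.V.of 10000 (-1040) 50])))) =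
    5121072510594876399196834036527985037725083763535765954082339176414068117875592964167808660164221191118857450578 := by
  decide +kernel

theorem xon_h1_q6 : Pool.Agent.Work.NumU.runT [D 10 3 (q 4200 10000) (1), sub EV.r (sub EV.x (q 1300 10000)), sub (mul (q (-98) 130) EV.w) EV.b, sub (sub EV.T EV.t) (q 1000 10000), sub EV.t (a 10 3)] 37
    5121072510594876399196834036527985037725083763535765954082339176414068117875592964167808660164221191118857450577
    (Pool.Agent.Work.NumI.setR 5 (Pool.Agent.Work.NumI.setR 0 (Pool.Agent.Work.NumI.setR 4 ([NumI.V.of 10000 3000 3800, NumI.V.of 10000 0 570, NumI.V.of 10000 3100 3900, NumI.V.of 10000 (-980) 220, NumI.V.of 10000 500 2500, NumI.V.of 10000 (-1040) 50])))) =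
    1 := by
  decide +kernel

theorem xon {x T w b r t : ℝ} (ua1 : 3000 / 10000 ≤ x) (ua2 : x ≤ 3800 / 10000) (ua3 : 0 / 10000 ≤ T) (ua4 : T ≤ 570 / 10000) (ua5 : 3100 / 10000 ≤ w) (ua6 : w ≤ 3900 / 10000) (ua7 : -(980 / 10000) ≤ b) (ua8 : b ≤ 220 / 10000) (ua9 : 500 / 10000 ≤ r) (ua10 : r ≤ 2500 / 10000) (ua11 : -(1040 / 10000) ≤ t) (ua12 : t ≤ 50 / 10000) (ua13 : r ≤ x - 1300 / 10000) (ua14 : -(98 / 130) * w ≤ b) (ua15 : T - t ≤ 1000 / 10000) (ua16 : t ≤ rui (10 / 3) x T) :
    0 < rD (4200 / 10000) (1) x (rui (10 / 3) x T) w b r t := by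
  have h : chkT [D 10 3 (q 4200 10000) (1), sub EV.r (sub EV.x (q 1300 10000)), sub (mul (q (-98) 130) EV.w) EV.b, sub (sub EV.T EV.t) (q 1000 10000), sub EV.t (a 10 3)] 40
    486354120885054345030802084883651251398825756934338769694032148918177312509406985862793659619717224838098806484712573072925679314089301909559986540233296162550880046914776236460683776951079581732858059959535650309500495019802166401939928546534113682603089775958140377655823546075194154871476324064641448328558703497278887629830404996828899158139257095676893742965365375529514919542761719453395613169956416686984215347823087289159897911671730947673302284167617510716379463553885792648331553046641594675347388534488807127806103046275436919098290077352537757588491055044020457695302604702443572072090515543787050266323573191748853919158994786562885320563743935717279739845740824045709509869908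
    [NumI.V.of 10000 3000 3800, NumI.V.of 10000 0 570, NumI.V.of 10000 3100 3900, NumI.V.of 10000 (-980) 220, NumI.V.of 10000 500 2500, NumI.V.of 10000 (-1040) 50] = true :=
      Pool.Agent.Work.NumU.chkT_of (Pool.Agent.Work.NumU.runT_split rfl rfl rfl
        (Pool.Agent.Work.NumU.runT_split rfl rfl rfl
          xon_h1_q1
          xon_h1_q2)
        (Pool.Agent.Work.NumU.runT_split rfl rfl rfl
          (Pool.Agent.Work.NumU.runT_split rfl rfl rfl
            xon_h1_q3
            xon_h1_q4)
          (Pool.Agent.Work.NumU.runT_split rfl rfl rfl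
            xon_h1_q5
            xon_h1_q6)))
  obtain ⟨f, hf, hp⟩ := chkT_sound h (xs := [x, T, w, b, r, t])
    (List.Forall₂.cons (NumI.V.of_mem (by norm_num) (by norm_num; linarith only [ua1]) (by norm_num; linarith only [ua2])) (List.Forall₂.cons (NumI.V.of_mem (by norm_num) (by norm_num; linarith only [ua3]) (by norm_num; linarith only [ua4])) (List.Forall₂.cons (NumI.V.of_mem (by norm_num) (by norm_num; linarith only [ua5]) (by norm_num; linarith only [ua6])) (List.Forall₂.cons (NumI.V.of_mem (by norm_num) (by norm_num; linarith only [ua7]) (by norm_num; linarith only [ua8])) (List.Forall₂.cons (NumI.V.of_mem (by norm_num) (by norm_num; linarith only [ua9]) (by norm_num; linarith only [ua10])) (List.Forall₂.cons (NumI.V.of_mem (by norm_num) (by norm_num; linarith only [ua3, ua15]) (by norm_num; linarith only [ua12])) List.Forall₂.nil))))))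
  by_contra hc
  push Not at hc
  simp only [List.mem_cons, List.not_mem_nil, or_false] at hf
  rcases hf with rfl | rfl | rfl | rfl | rfl
  · simp only [D_val, R_val, h_val, EE.ui_val, EV.a, EV.x, EV.T, EV.w, EV.b, EV.r, EV.t, E.val, NumI.lkR] at hp
    push_cast at hp
    linarith only [hc, hp]
  · simp only [D_val, R_val, h_val, EE.ui_val, EV.a, EV.x, EV.T, EV.w, EV.b, EV.r, EV.t, E.val, NumI.lkR] at hp
    push_cast at hp
    linarith only [ua13, hp]
  · simp only [D_val, R_val, h_val, EE.ui_val, EV.a, EV.x, EV.T, EV.w, EV.b, EV.r, EV.t, E.val, NumI.lkR] at hp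
    push_cast at hp
    linarith only [ua5, ua7, hp]
  · simp only [D_val, R_val, h_val, EE.ui_val, EV.a, EV.x, EV.T, EV.w, EV.b, EV.r, EV.t, E.val, NumI.lkR] at hp
    push_cast at hp
    linarith only [ua15, hp]
  · simp only [D_val, R_val, h_val, EE.ui_val, EV.a, EV.x, EV.T, EV.w, EV.b, EV.r, EV.t, E.val, NumI.lkR] at hp
    push_cast at hp
    linarith only [ua16, hp]

theorem xom {x T w b r t : ℝ} (ua1 : 3000 / 10000 ≤ x) (ua2 : x ≤ 3800 / 10000) (ua3 : -(280 / 10000) ≤ T) (ua4 : T ≤ 0 / 10000) (ua5 : 3100 / 10000 ≤ w) (ua6 : w ≤ 3900 / 10000) (ua7 : -(980 / 10000) ≤ b) (ua8 : b ≤ 220 / 10000) (ua9 : 500 / 10000 ≤ r) (ua10 : r ≤ 2500 / 10000) (ua11 : -(1040 / 10000) ≤ t) (ua12 : t ≤ 50 / 10000) (ua13 : r ≤ x - 1300 / 10000) (ua14 : -(98 / 130) * w ≤ b) (ua15 : t ≤ rui (10 / 3) x T) :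
    0 < rD (4200 / 10000) (1) x (rui (10 / 3) x T) w b r t := by
  have h : chkT [D 10 3 (q 4200 10000) (1), sub EV.r (sub EV.x (q 1300 10000)), sub (mul (q (-98) 130) EV.w) EV.b, sub EV.t (a 10 3)] 40
    897430233202820230878975144953040500241106276444681707370251305044
    [NumI.V.of 10000 3000 3800, NumI.V.of 10000 (-280) 0, NumI.V.of 10000 3100 3900, NumI.V.of 10000 (-980) 220, NumI.V.of 10000 500 2500, NumI.V.of 10000 (-1040) 50] = true := by
    decide +kernel
  obtain ⟨f, hf, hp⟩ := chkT_sound h (xs := [x, T, w, b, r, t])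
    (List.Forall₂.cons (NumI.V.of_mem (by norm_num) (by norm_num; linarith only [ua1]) (by norm_num; linarith only [ua2])) (List.Forall₂.cons (NumI.V.of_mem (by norm_num) (by norm_num; linarith only [ua3]) (by norm_num; linarith only [ua4])) (List.Forall₂.cons (NumI.V.of_mem (by norm_num) (by norm_num; linarith only [ua5]) (by norm_num; linarith only [ua6])) (List.Forall₂.cons (NumI.V.of_mem (by norm_num) (by norm_num; linarith only [ua7]) (by norm_num; linarith only [ua8])) (List.Forall₂.cons (NumI.V.of_mem (by norm_num) (by norm_num; linarith only [ua9]) (by norm_num; linarith only [ua10])) (List.Forall₂.cons (NumI.V.of_mem (by norm_num) (by norm_num; linarith only [ua11]) (by norm_num; linarith only [ua12])) List.Forall₂.nil))))))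
  by_contra hc
  push Not at hc
  simp only [List.mem_cons, List.not_mem_nil, or_false] at hf
  rcases hf with rfl | rfl | rfl | rfl
  · simp only [D_val, R_val, h_val, EE.ui_val, EV.a, EV.x, EV.T, EV.w, EV.b, EV.r, EV.t, E.val, NumI.lkR] at hp
    push_cast at hp
    linarith only [hc, hp]
  · simp only [D_val, R_val, h_val, EE.ui_val, EV.a, EV.x, EV.T, EV.w, EV.b, EV.r, EV.t, E.val, NumI.lkR] at hp
    push_cast at hp
    linarith only [ua13, hp]
  · simp only [D_val, R_val, h_val, EE.ui_val, EV.a, EV.x, EV.T, EV.w, EV.b, EV.r, EV.t, E.val, NumI.lkR] at hp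
    push_cast at hp
    linarith only [ua5, ua7, hp]
  · simp only [D_val, R_val, h_val, EE.ui_val, EV.a, EV.x, EV.T, EV.w, EV.b, EV.r, EV.t, E.val, NumI.lkR] at hp
    push_cast at hp
    linarith only [ua15, hp]

theorem xop {x T w b r t : ℝ} (ua1 : 3000 / 10000 ≤ x) (ua2 : x ≤ 3800 / 10000) (ua3 : -(280 / 10000) ≤ T) (ua4 : T ≤ 70 / 10000) (ua5 : 3100 / 10000 ≤ w) (ua6 : w ≤ 3900 / 10000) (ua7 : -(980 / 10000) ≤ b) (ua8 : b ≤ 220 / 10000) (ua9 : 500 / 10000 ≤ r) (ua10 : r ≤ 2500 / 10000) (ua11 : -(280 / 10000) ≤ t) (ua12 : t ≤ 50 / 10000) (ua13 : r ≤ x - 1300 / 10000) (ua14 : -(98 / 130) * w ≤ b) (ua15 : rui (10 / 3) x T ≤ t) :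
    0 < rD (4200 / 10000) (-1) x (rui (10 / 3) x T) w b r t := by
  have h : chkT [D 10 3 (q 4200 10000) (-1), sub EV.r (sub EV.x (q 1300 10000)), sub (mul (q (-98) 130) EV.w) EV.b, sub (a 10 3) EV.t] 40
    9348133980228
    [NumI.V.of 10000 3000 3800, NumI.V.of 10000 (-280) 70, NumI.V.of 10000 3100 3900, NumI.V.of 10000 (-980) 220, NumI.V.of 10000 500 2500, NumI.V.of 10000 (-280) 50] = true := by
    decide +kernel
  obtain ⟨f, hf, hp⟩ := chkT_sound h (xs := [x, T, w, b, r, t])
    (List.Forall₂.cons (NumI.V.of_mem (by norm_num) (by norm_num; linarith only [ua1]) (by norm_num; linarith only [ua2])) (List.Forall₂.cons (NumI.V.of_mem (by norm_num) (by norm_num; linarith only [ua3]) (by norm_num; linarith only [ua4])) (List.Forall₂.cons (NumI.V.of_mem (by norm_num) (by norm_num; linarith only [ua5]) (by norm_num; linarith only [ua6])) (List.Forall₂.cons (NumI.V.of_mem (by norm_num) (by norm_num; linarith only [ua7]) (by norm_num; linarith only [ua8])) (List.Forall₂.cons (NumI.V.of_mem (by norm_num) (by norm_num; linarith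 only [ua9]) (by norm_num; linarith only [ua10])) (List.Forall₂.cons (NumI.V.of_mem (by norm_num) (by norm_num; linarith only [ua11]) (by norm_num; linarith only [ua12])) List.Forall₂.nil))))))
  by_contra hc
  push Not at hc
  simp only [List.mem_cons, List.not_mem_nil, or_false] at hf
  rcases hf with rfl | rfl | rfl | rfl
  · simp only [D_val, R_val, h_val, EE.ui_val, EV.a, EV.x, EV.T, EV.w, EV.b, EV.r, EV.t, E.val, NumI.lkR] at hp
    push_cast at hp
    linarith only [hc, hp]
  · simp only [D_val, R_val, h_val, EE.ui_val, EV.a, EV.x, EV.T, EV.w, EV.b, EV.r, EV.t, E.val, NumI.lkR] at hp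
    push_cast at hp
    linarith only [ua13, hp]
  · simp only [D_val, R_val, h_val, EE.ui_val, EV.a, EV.x, EV.T, EV.w, EV.b, EV.r, EV.t, E.val, NumI.lkR] at hp
    push_cast at hp
    linarith only [ua5, ua7, hp]
  · simp only [D_val, R_val, h_val, EE.ui_val, EV.a, EV.x, EV.T, EV.w, EV.b, EV.r, EV.t, E.val, NumI.lkR] at hp
    push_cast at hp
    linarith only [ua15, hp]

theorem xorn {x T w b r t : ℝ} (ua1 : 3000 / 10000 ≤ x) (ua2 : x ≤ 3800 / 10000) (ua3 : 0 / 10000 ≤ T) (ua4 : T ≤ 570 / 10000) (ua5 : 3100 / 10000 ≤ w) (ua6 : w ≤ 3900 / 10000) (ua7 : -(980 / 10000) ≤ b) (ua8 : b ≤ 220 / 10000) (ua9 : 0 / 10000 ≤ r) (ua10 : r ≤ 500 / 10000) (ua11 : -(1040 / 10000) ≤ t) (ua12 : t ≤ 50 / 10000) (ua13 : -(98 / 130) * w ≤ b) (ua14 : T - t ≤ 1000 / 10000) (ua15 : 20 * (t * r) ≤ rui (10 / 3) x T) :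
    0 < rE (4200 / 10000) (1) x (rui (10 / 3) x T) w b r t := by
  have h : chkT [R 10 3 (q 4200 10000) (1), sub (mul (q (-98) 130) EV.w) EV.b, sub (sub EV.T EV.t) (q 1000 10000), sub h (a 10 3)] 40
    1086285140616225465597686308630314031067319478720373550935905164606767642265128648428761413
    [NumI.V.of 10000 3000 3800, NumI.V.of 10000 0 570, NumI.V.of 10000 3100 3900, NumI.V.of 10000 (-980) 220, NumI.V.of 10000 0 500, NumI.V.of 10000 (-1040) 50] = true := by
    decide +kernel
  obtain ⟨f, hf, hp⟩ := chkT_sound h (xs := [x, T, w, b, r, t])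
    (List.Forall₂.cons (NumI.V.of_mem (by norm_num) (by norm_num; linarith only [ua1]) (by norm_num; linarith only [ua2])) (List.Forall₂.cons (NumI.V.of_mem (by norm_num) (by norm_num; linarith only [ua3]) (by norm_num; linarith only [ua4])) (List.Forall₂.cons (NumI.V.of_mem (by norm_num) (by norm_num; linarith only [ua5]) (by norm_num; linarith only [ua6])) (List.Forall₂.cons (NumI.V.of_mem (by norm_num) (by norm_num; linarith only [ua7]) (by norm_num; linarith only [ua8])) (List.Forall₂.cons (NumI.V.of_mem (by norm_num) (by norm_num; linarith only [ua9]) (by norm_num; linarith only [ua10])) (List.Forall₂.cons (NumI.V.of_mem (by norm_num) (by norm_num; linarith only [ua3, ua14]) (by norm_num; linarith only [ua12])) List.Forall₂.nil))))))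
  by_contra hc
  push Not at hc
  simp only [List.mem_cons, List.not_mem_nil, or_false] at hf
  rcases hf with rfl | rfl | rfl | rfl
  · simp only [D_val, R_val, h_val, EE.ui_val, EV.a, EV.x, EV.T, EV.w, EV.b, EV.r, EV.t, E.val, NumI.lkR] at hp
    push_cast at hp
    linarith only [hc, hp]
  · simp only [D_val, R_val, h_val, EE.ui_val, EV.a, EV.x, EV.T, EV.w, EV.b, EV.r, EV.t, E.val, NumI.lkR] at hp
    push_cast at hp
    linarith only [ua5, ua7, hp]
  · simp only [D_val, R_val, h_val, EE.ui_val, EV.a, EV.x, EV.T, EV.w, EV.b, EV.r, EV.t, E.val, NumI.lkR] at hp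
    push_cast at hp
    linarith only [ua14, hp]
  · simp only [D_val, R_val, h_val, EE.ui_val, EV.a, EV.x, EV.T, EV.w, EV.b, EV.r, EV.t, E.val, NumI.lkR] at hp
    push_cast at hp
    linarith only [ua15, hp]

theorem xorm {x T w b r t : ℝ} (ua1 : 3000 / 10000 ≤ x) (ua2 : x ≤ 3800 / 10000) (ua3 : -(280 / 10000) ≤ T) (ua4 : T ≤ 0 / 10000) (ua5 : 3100 / 10000 ≤ w) (ua6 : w ≤ 3900 / 10000) (ua7 : -(980 / 10000) ≤ b) (ua8 : b ≤ 220 / 10000) (ua9 : 0 / 10000 ≤ r) (ua10 : r ≤ 500 / 10000) (ua11 : -(1040 / 10000) ≤ t) (ua12 : t ≤ 50 / 10000) (ua13 : -(98 / 130) * w ≤ b) (ua14 : 20 * (t * r) ≤ rui (10 / 3) x T) :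
    0 < rE (4200 / 10000) (1) x (rui (10 / 3) x T) w b r t := by
  have h : chkT [R 10 3 (q 4200 10000) (1), sub (mul (q (-98) 130) EV.w) EV.b, sub h (a 10 3)] 40
    9369613981765
    [NumI.V.of 10000 3000 3800, NumI.V.of 10000 (-280) 0, NumI.V.of 10000 3100 3900, NumI.V.of 10000 (-980) 220, NumI.V.of 10000 0 500, NumI.V.of 10000 (-1040) 50] = true := by
    decide +kernel
  obtain ⟨f, hf, hp⟩ := chkT_sound h (xs := [x, T, w, b, r, t])
    (List.Forall₂.cons (NumI.V.of_mem (by norm_num) (by norm_num; linarith only [ua1]) (by norm_num; linarith only [ua2])) (List.Forall₂.cons (NumI.V.of_mem (by norm_num) (by norm_num; linarith only [ua3]) (by norm_num; linarith only [ua4])) (List.Forall₂.cons (NumI.V.of_mem (by norm_num) (by norm_num; linarith only [ua5]) (by norm_num; linarith only [ua6])) (List.Forall₂.cons (NumI.V.of_mem (by norm_num) (by norm_num; linarith only [ua7]) (by norm_num; linarith only [ua8])) (List.Forall₂.cons (NumI.V.of_mem (by norm_num) (by norm_num; linarith only [ua9]) (by norm_num; linarith only [ua10]))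 (List.Forall₂.cons (NumI.V.of_mem (by norm_num) (by norm_num; linarith only [ua11]) (by norm_num; linarith only [ua12])) List.Forall₂.nil))))))
  by_contra hc
  push Not at hc
  simp only [List.mem_cons, List.not_mem_nil, or_false] at hf
  rcases hf with rfl | rfl | rfl
  · simp only [D_val, R_val, h_val, EE.ui_val, EV.a, EV.x, EV.T, EV.w, EV.b, EV.r, EV.t, E.val, NumI.lkR] at hp
    push_cast at hp
    linarith only [hc, hp]
  · simp only [D_val, R_val, h_val, EE.ui_val, EV.a, EV.x, EV.T, EV.w, EV.b, EV.r, EV.t, E.val, NumI.lkR] at hp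
    push_cast at hp
    linarith only [ua5, ua7, hp]
  · simp only [D_val, R_val, h_val, EE.ui_val, EV.a, EV.x, EV.T, EV.w, EV.b, EV.r, EV.t, E.val, NumI.lkR] at hp
    push_cast at hp
    linarith only [ua14, hp]

theorem xorp {x T w b r t : ℝ} (ua1 : 3000 / 10000 ≤ x) (ua2 : x ≤ 3800 / 10000) (ua3 : -(280 / 10000) ≤ T) (ua4 : T ≤ 70 / 10000) (ua5 : 3100 / 10000 ≤ w) (ua6 : w ≤ 3900 / 10000) (ua7 : -(980 / 10000) ≤ b) (ua8 : b ≤ 220 / 10000) (ua9 : 0 / 10000 ≤ r) (ua10 : r ≤ 500 / 10000) (ua11 : -(1040 / 10000) ≤ t) (ua12 : t ≤ 50 / 10000) (ua13 : -(98 / 130) * w ≤ b) (ua14 : rui (10 / 3) x T ≤ 20 * (t * r)) :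
    0 < rE (4200 / 10000) (-1) x (rui (10 / 3) x T) w b r t := by
  have h : chkT [R 10 3 (q 4200 10000) (-1), sub (mul (q (-98) 130) EV.w) EV.b, sub (a 10 3) h] 40
    36644948053
    [NumI.V.of 10000 3000 3800, NumI.V.of 10000 (-280) 70, NumI.V.of 10000 3100 3900, NumI.V.of 10000 (-980) 220, NumI.V.of 10000 0 500, NumI.V.of 10000 (-1040) 50] = true := by
    decide +kernel
  obtain ⟨f, hf, hp⟩ := chkT_sound h (xs := [x, T, w, b, r, t])
    (List.Forall₂.cons (NumI.V.of_mem (by norm_num) (by norm_num; linarith only [ua1]) (by norm_num; linarith only [ua2])) (List.Forall₂.cons (NumI.V.of_mem (by norm_num) (by norm_num; linarith only [ua3]) (by norm_num; linarith only [ua4])) (List.Forall₂.cons (NumI.V.of_mem (by norm_num) (by norm_num; linarith only [ua5]) (by norm_num; linarith only [ua6])) (List.Forall₂.cons (NumI.V.of_mem (by norm_num) (by norm_num; linarith only [ua7]) (by norm_num; linarith only [ua8])) (List.Forall₂.cons (NumI.V.of_mem (by norm_num) (by norm_num; linarith only [ua9]) (by norm_num; linarith only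 [ua10])) (List.Forall₂.cons (NumI.V.of_mem (by norm_num) (by norm_num; linarith only [ua11]) (by norm_num; linarith only [ua12])) List.Forall₂.nil))))))
  by_contra hc
  push Not at hc
  simp only [List.mem_cons, List.not_mem_nil, or_false] at hf
  rcases hf with rfl | rfl | rfl
  · simp only [D_val, R_val, h_val, EE.ui_val, EV.a, EV.x, EV.T, EV.w, EV.b, EV.r, EV.t, E.val, NumI.lkR] at hp
    push_cast at hp
    linarith only [hc, hp]
  · simp only [D_val, R_val, h_val, EE.ui_val, EV.a, EV.x, EV.T, EV.w, EV.b, EV.r, EV.t, E.val, NumI.lkR] at hp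
    push_cast at hp
    linarith only [ua5, ua7, hp]
  · simp only [D_val, R_val, h_val, EE.ui_val, EV.a, EV.x, EV.T, EV.w, EV.b, EV.r, EV.t, E.val, NumI.lkR] at hp
    push_cast at hp
    linarith only [ua14, hp]

theorem yon {x T w b r t : ℝ} (ua1 : 3600 / 10000 ≤ x) (ua2 : x ≤ 3800 / 10000) (ua3 : -(570 / 10000) ≤ T) (ua4 : T ≤ 50 / 10000) (ua5 : 3100 / 10000 ≤ w) (ua6 : w ≤ 3900 / 10000) (ua7 : -(980 / 10000) ≤ b) (ua8 : b ≤ 220 / 10000) (ua9 : 500 / 10000 ≤ r) (ua10 : r ≤ 2900 / 10000) (ua11 : -(1040 / 10000) ≤ t) (ua12 : t ≤ 50 / 10000) (ua13 : r ≤ x - 900 / 10000) (ua14 : -(98 / 130) * w ≤ b) (ua15 : t ≤ rui (100 / 27) x T) :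
    0 < rD (4400 / 10000) (1) x (rui (100 / 27) x T) w b r t := by
  have h : chkT [D 100 27 (q 4400 10000) (1), sub EV.r (sub EV.x (q 900 10000)), sub (mul (q (-98) 130) EV.w) EV.b, sub EV.t (a 100 27)] 40
    3859181067806789438396058477978787083851076813671818125303919836866114245716
    [NumI.V.of 10000 3600 3800, NumI.V.of 10000 (-570) 50, NumI.V.of 10000 3100 3900, NumI.V.of 10000 (-980) 220, NumI.V.of 10000 500 2900, NumI.V.of 10000 (-1040) 50] = true := by
    decide +kernel
  obtain ⟨f, hf, hp⟩ := chkT_sound h (xs := [x, T, w, b, r, t])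
    (List.Forall₂.cons (NumI.V.of_mem (by norm_num) (by norm_num; linarith only [ua1]) (by norm_num; linarith only [ua2])) (List.Forall₂.cons (NumI.V.of_mem (by norm_num) (by norm_num; linarith only [ua3]) (by norm_num; linarith only [ua4])) (List.Forall₂.cons (NumI.V.of_mem (by norm_num) (by norm_num; linarith only [ua5]) (by norm_num; linarith only [ua6])) (List.Forall₂.cons (NumI.V.of_mem (by norm_num) (by norm_num; linarith only [ua7]) (by norm_num; linarith only [ua8])) (List.Forall₂.cons (NumI.V.of_mem (by norm_num) (by norm_num; linarith only [ua9]) (by norm_num; linarith only [ua10])) (List.Forall₂.cons (NumI.V.of_mem (by norm_num) (by norm_num; linarith only [ua11]) (by norm_num; linarith only [ua12])) List.Forall₂.nil))))))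
  by_contra hc
  push Not at hc
  simp only [List.mem_cons, List.not_mem_nil, or_false] at hf
  rcases hf with rfl | rfl | rfl | rfl
  · simp only [D_val, R_val, h_val, EE.ui_val, EV.a, EV.x, EV.T, EV.w, EV.b, EV.r, EV.t, E.val, NumI.lkR] at hp
    push_cast at hp
    linarith only [hc, hp]
  · simp only [D_val, R_val, h_val, EE.ui_val, EV.a, EV.x, EV.T, EV.w, EV.b, EV.r, EV.t, E.val, NumI.lkR] at hp
    push_cast at hp
    linarith only [ua13, hp]
  · simp only [D_val, R_val, h_val, EE.ui_val, EV.a, EV.x, EV.T, EV.w, EV.b, EV.r, EV.t, E.val, NumI.lkR] at hp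
    push_cast at hp
    linarith only [ua5, ua7, hp]
  · simp only [D_val, R_val, h_val, EE.ui_val, EV.a, EV.x, EV.T, EV.w, EV.b, EV.r, EV.t, E.val, NumI.lkR] at hp
    push_cast at hp
    linarith only [ua15, hp]

theorem yop {x T w b r t : ℝ} (ua1 : 3600 / 10000 ≤ x) (ua2 : x ≤ 3800 / 10000) (ua3 : -(570 / 10000) ≤ T) (ua4 : T ≤ 50 / 10000) (ua5 : 3100 / 10000 ≤ w) (ua6 : w ≤ 3900 / 10000) (ua7 : -(980 / 10000) ≤ b) (ua8 : b ≤ 220 / 10000) (ua9 : 500 / 10000 ≤ r) (ua10 : r ≤ 2900 / 10000) (ua11 : -(570 / 10000) ≤ t) (ua12 : t ≤ 50 / 10000) (ua13 : r ≤ x - 900 / 10000) (ua14 : -(98 / 130) * w ≤ b) (ua15 : t - T ≤ 280 / 10000) (ua16 : rui (100 / 27) x T ≤ t) :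
    0 < rD (4400 / 10000) (-1) x (rui (100 / 27) x T) w b r t := by
  have h : chkT [D 100 27 (q 4400 10000) (-1), sub EV.r (sub EV.x (q 900 10000)), sub (mul (q (-98) 130) EV.w) EV.b, sub (sub EV.t EV.T) (q 280 10000), sub (a 100 27) EV.t] 40
    10314562103666237083517764
    [NumI.V.of 10000 3600 3800, NumI.V.of 10000 (-570) 50, NumI.V.of 10000 3100 3900, NumI.V.of 10000 (-980) 220, NumI.V.of 10000 500 2900, NumI.V.of 10000 (-570) 50] = true := by
    decide +kernel
  obtain ⟨f, hf, hp⟩ := chkT_sound h (xs := [x, T, w, b, r, t])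
    (List.Forall₂.cons (NumI.V.of_mem (by norm_num) (by norm_num; linarith only [ua1]) (by norm_num; linarith only [ua2])) (List.Forall₂.cons (NumI.V.of_mem (by norm_num) (by norm_num; linarith only [ua3]) (by norm_num; linarith only [ua4])) (List.Forall₂.cons (NumI.V.of_mem (by norm_num) (by norm_num; linarith only [ua5]) (by norm_num; linarith only [ua6])) (List.Forall₂.cons (NumI.V.of_mem (by norm_num) (by norm_num; linarith only [ua7]) (by norm_num; linarith only [ua8])) (List.Forall₂.cons (NumI.V.of_mem (by norm_num) (by norm_num; linarith only [ua9]) (by norm_num; linarith only [ua10])) (List.Forall₂.cons (NumI.V.of_mem (by norm_num) (by norm_num; linarith only [ua11]) (by norm_num; linarith only [ua12])) List.Forall₂.nil))))))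
  by_contra hc
  push Not at hc
  simp only [List.mem_cons, List.not_mem_nil, or_false] at hf
  rcases hf with rfl | rfl | rfl | rfl | rfl
  · simp only [D_val, R_val, h_val, EE.ui_val, EV.a, EV.x, EV.T, EV.w, EV.b, EV.r, EV.t, E.val, NumI.lkR] at hp
    push_cast at hp
    linarith only [hc, hp]
  · simp only [D_val, R_val, h_val, EE.ui_val, EV.a, EV.x, EV.T, EV.w, EV.b, EV.r, EV.t, E.val, NumI.lkR] at hp
    push_cast at hp
    linarith only [ua13, hp]
  · simp only [D_val, R_val, h_val, EE.ui_val, EV.a, EV.x, EV.T, EV.w, EV.b, EV.r, EV.t, E.val, NumI.lkR] at hp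
    push_cast at hp
    linarith only [ua5, ua7, hp]
  · simp only [D_val, R_val, h_val, EE.ui_val, EV.a, EV.x, EV.T, EV.w, EV.b, EV.r, EV.t, E.val, NumI.lkR] at hp
    push_cast at hp
    linarith only [ua15, hp]
  · simp only [D_val, R_val, h_val, EE.ui_val, EV.a, EV.x, EV.T, EV.w, EV.b, EV.r, EV.t, E.val, NumI.lkR] at hp
    push_cast at hp
    linarith only [ua16, hp]

theorem yorn {x T w b r t : ℝ} (ua1 : 3600 / 10000 ≤ x) (ua2 : x ≤ 3800 / 10000) (ua3 : -(570 / 10000) ≤ T) (ua4 : T ≤ 50 / 10000) (ua5 : 3100 / 10000 ≤ w) (ua6 : w ≤ 3900 / 10000) (ua7 : -(980 / 10000) ≤ b) (ua8 : b ≤ 220 / 10000) (ua9 : 0 / 10000 ≤ r) (ua10 : r ≤ 500 / 10000) (ua11 : -(1040 / 10000) ≤ t) (ua12 : t ≤ 50 / 10000) (ua13 : -(98 / 130) * w ≤ b) (ua14 : 20 * (t * r) ≤ rui (100 / 27) x T) :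
    0 < rE (4400 / 10000) (1) x (rui (100 / 27) x T) w b r t := by
  have h : chkT [R 100 27 (q 4400 10000) (1), sub (mul (q (-98) 130) EV.w) EV.b, sub h (a 100 27)] 40
    9369613981765
    [NumI.V.of 10000 3600 3800, NumI.V.of 10000 (-570) 50, NumI.V.of 10000 3100 3900, NumI.V.of 10000 (-980) 220, NumI.V.of 10000 0 500, NumI.V.of 10000 (-1040) 50] = true := by
    decide +kernel
  obtain ⟨f, hf, hp⟩ := chkT_sound h (xs := [x, T, w, b, r, t])
    (List.Forall₂.cons (NumI.V.of_mem (by norm_num) (by norm_num; linarith only [ua1]) (by norm_num; linarith only [ua2])) (List.Forall₂.cons (NumI.V.of_mem (by norm_num) (by norm_num; linarith only [ua3]) (by norm_num; linarith only [ua4])) (List.Forall₂.cons (NumI.V.of_mem (by norm_num) (by norm_num; linarith only [ua5]) (by norm_num; linarith only [ua6])) (List.Forall₂.cons (NumI.V.of_mem (by norm_num) (by norm_num; linarith only [ua7]) (by norm_num; linarith only [ua8])) (List.Forall₂.cons (NumI.V.of_mem (by norm_num) (by norm_num; linarith only [ua9]) (by norm_num; linarith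 only [ua10])) (List.Forall₂.cons (NumI.V.of_mem (by norm_num) (by norm_num; linarith only [ua11]) (by norm_num; linarith only [ua12])) List.Forall₂.nil))))))
  by_contra hc
  push Not at hc
  simp only [List.mem_cons, List.not_mem_nil, or_false] at hf
  rcases hf with rfl | rfl | rfl
  · simp only [D_val, R_val, h_val, EE.ui_val, EV.a, EV.x, EV.T, EV.w, EV.b, EV.r, EV.t, E.val, NumI.lkR] at hp
    push_cast at hp
    linarith only [hc, hp]
  · simp only [D_val, R_val, h_val, EE.ui_val, EV.a, EV.x, EV.T, EV.w, EV.b, EV.r, EV.t, E.val, NumI.lkR] at hp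
    push_cast at hp
    linarith only [ua5, ua7, hp]
  · simp only [D_val, R_val, h_val, EE.ui_val, EV.a, EV.x, EV.T, EV.w, EV.b, EV.r, EV.t, E.val, NumI.lkR] at hp
    push_cast at hp
    linarith only [ua14, hp]

theorem yorp {x T w b r t : ℝ} (ua1 : 3600 / 10000 ≤ x) (ua2 : x ≤ 3800 / 10000) (ua3 : -(570 / 10000) ≤ T) (ua4 : T ≤ 50 / 10000) (ua5 : 3100 / 10000 ≤ w) (ua6 : w ≤ 3900 / 10000) (ua7 : -(980 / 10000) ≤ b) (ua8 : b ≤ 220 / 10000) (ua9 : 0 / 10000 ≤ r) (ua10 : r ≤ 500 / 10000) (ua11 : -(1040 / 10000) ≤ t) (ua12 : t ≤ 50 / 10000) (ua13 : -(98 / 130) * w ≤ b) (ua14 : t - T ≤ 280 / 10000) (ua15 : rui (100 / 27) x T ≤ 20 * (t * r)) :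
    0 < rE (4400 / 10000) (-1) x (rui (100 / 27) x T) w b r t := by
  have h : chkT [R 100 27 (q 4400 10000) (-1), sub (mul (q (-98) 130) EV.w) EV.b, sub (sub EV.t EV.T) (q 280 10000), sub (a 100 27) h] 40
    2401563313734485
    [NumI.V.of 10000 3600 3800, NumI.V.of 10000 (-570) 50, NumI.V.of 10000 3100 3900, NumI.V.of 10000 (-980) 220, NumI.V.of 10000 0 500, NumI.V.of 10000 (-1040) 50] = true := by
    decide +kernel
  obtain ⟨f, hf, hp⟩ := chkT_sound h (xs := [x, T, w, b, r, t])
    (List.Forall₂.cons (NumI.V.of_mem (by norm_num) (by norm_num; linarith only [ua1]) (by norm_num; linarith only [ua2])) (List.Forall₂.cons (NumI.V.of_mem (by norm_num) (by norm_num; linarith only [ua3]) (by norm_num; linarith only [ua4])) (List.Forall₂.cons (NumI.V.of_mem (by norm_num) (by norm_num; linarith only [ua5]) (by norm_num; linarith only [ua6])) (List.Forall₂.cons (NumI.V.of_mem (by norm_num) (by norm_num; linarith only [ua7]) (by norm_num; linarith only [ua8])) (List.Forall₂.cons (NumI.V.of_mem (by norm_num) (by norm_num; linarith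 only [ua9]) (by norm_num; linarith only [ua10])) (List.Forall₂.cons (NumI.V.of_mem (by norm_num) (by norm_num; linarith only [ua11]) (by norm_num; linarith only [ua12])) List.Forall₂.nil))))))
  by_contra hc
  push Not at hc
  simp only [List.mem_cons, List.not_mem_nil, or_false] at hf
  rcases hf with rfl | rfl | rfl | rfl
  · simp only [D_val, R_val, h_val, EE.ui_val, EV.a, EV.x, EV.T, EV.w, EV.b, EV.r, EV.t, E.val, NumI.lkR] at hp
    push_cast at hp
    linarith only [hc, hp]
  · simp only [D_val, R_val, h_val, EE.ui_val, EV.a, EV.x, EV.T, EV.w, EV.b, EV.r, EV.t, E.val, NumI.lkR] at hp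
    push_cast at hp
    linarith only [ua5, ua7, hp]
  · simp only [D_val, R_val, h_val, EE.ui_val, EV.a, EV.x, EV.T, EV.w, EV.b, EV.r, EV.t, E.val, NumI.lkR] at hp
    push_cast at hp
    linarith only [ua14, hp]
  · simp only [D_val, R_val, h_val, EE.ui_val, EV.a, EV.x, EV.T, EV.w, EV.b, EV.r, EV.t, E.val, NumI.lkR] at hp
    push_cast at hp
    linarith only [ua15, hp]

theorem fon {x T w b r t : ℝ} (ua1 : 3000 / 10000 ≤ x) (ua2 : x ≤ 3800 / 10000) (ua3 : -(980 / 10000) ≤ T) (ua4 : T ≤ -(760 / 10000)) (ua5 : 3100 / 10000 ≤ w) (ua6 : w ≤ 3900 / 10000) (ua7 : -(980 / 10000) ≤ b) (ua8 : b ≤ 220 / 10000) (ua9 : 500 / 10000 ≤ r) (ua10 : r ≤ 3100 / 10000) (ua11 : -(1160 / 10000) ≤ t) (ua12 : t ≤ -(640 / 10000)) (ua13 : r ≤ x - 700 / 10000) (ua14 : -(98 / 130) * w ≤ b) (ua15 : t ≤ rui (10 / 3) x T) :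
    0 < rD (4600 / 10000) (1) x (rui (10 / 3) x T) w b r t := by
  have h : chkT [D 10 3 (q 4600 10000) (1), sub EV.r (sub EV.x (q 700 10000)), sub (mul (q (-98) 130) EV.w) EV.b, sub EV.t (a 10 3)] 40
    10301927260444370187618372
    [NumI.V.of 10000 3000 3800, NumI.V.of 10000 (-980) (-760), NumI.V.of 10000 3100 3900, NumI.V.of 10000 (-980) 220, NumI.V.of 10000 500 3100, NumI.V.of 10000 (-1160) (-640)] = true := by
    decide +kernel
  obtain ⟨f, hf, hp⟩ := chkT_sound h (xs := [x, T, w, b, r, t])
    (List.Forall₂.cons (NumI.V.of_mem (by norm_num) (by norm_num; linarith only [ua1]) (by norm_num; linarith only [ua2])) (List.Forall₂.cons (NumI.V.of_mem (by norm_num) (by norm_num; linarith only [ua3]) (by norm_num; linarith only [ua4])) (List.Forall₂.cons (NumI.V.of_mem (by norm_num) (by norm_num; linarith only [ua5]) (by norm_num; linarith only [ua6])) (List.Forall₂.cons (NumI.V.of_mem (by norm_num) (by norm_num; linarith only [ua7]) (by norm_num; linarith only [ua8])) (List.Forall₂.cons (NumI.V.of_mem (by norm_num) (by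 norm_num; linarith only [ua9]) (by norm_num; linarith only [ua10])) (List.Forall₂.cons (NumI.V.of_mem (by norm_num) (by norm_num; linarith only [ua11]) (by norm_num; linarith only [ua12])) List.Forall₂.nil))))))
  by_contra hc
  push Not at hc
  simp only [List.mem_cons, List.not_mem_nil, or_false] at hf
  rcases hf with rfl | rfl | rfl | rfl
  · simp only [D_val, R_val, h_val, EE.ui_val, EV.a, EV.x, EV.T, EV.w, EV.b, EV.r, EV.t, E.val, NumI.lkR] at hp
    push_cast at hp
    linarith only [hc, hp]
  · simp only [D_val, R_val, h_val, EE.ui_val, EV.a, EV.x, EV.T, EV.w, EV.b, EV.r, EV.t, E.val, NumI.lkR] at hp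
    push_cast at hp
    linarith only [ua13, hp]
  · simp only [D_val, R_val, h_val, EE.ui_val, EV.a, EV.x, EV.T, EV.w, EV.b, EV.r, EV.t, E.val, NumI.lkR] at hp
    push_cast at hp
    linarith only [ua5, ua7, hp]
  · simp only [D_val, R_val, h_val, EE.ui_val, EV.a, EV.x, EV.T, EV.w, EV.b, EV.r, EV.t, E.val, NumI.lkR] at hp
    push_cast at hp
    linarith only [ua15, hp]

theorem fop {x T w b r t : ℝ} (ua1 : 3000 / 10000 ≤ x) (ua2 : x ≤ 3800 / 10000) (ua3 : -(980 / 10000) ≤ T) (ua4 : T ≤ -(760 / 10000)) (ua5 : 3100 / 10000 ≤ w) (ua6 : w ≤ 3900 / 10000) (ua7 : -(980 / 10000) ≤ b) (ua8 : b ≤ 220 / 10000) (ua9 : 500 / 10000 ≤ r) (ua10 : r ≤ 3100 / 10000) (ua11 : -(1160 / 10000) ≤ t) (ua12 : t ≤ -(640 / 10000)) (ua13 : r ≤ x - 700 / 10000) (ua14 : -(98 / 130) * w ≤ b) (ua15 : rui (10 / 3) x T ≤ t) :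
    0 < rD (4600 / 10000) (-1) x (rui (10 / 3) x T) w b r t := by
  have h : chkT [D 10 3 (q 4600 10000) (-1), sub EV.r (sub EV.x (q 700 10000)), sub (mul (q (-98) 130) EV.w) EV.b, sub (a 10 3) EV.t] 40
    40205009873100840895620
    [NumI.V.of 10000 3000 3800, NumI.V.of 10000 (-980) (-760), NumI.V.of 10000 3100 3900, NumI.V.of 10000 (-980) 220, NumI.V.of 10000 500 3100, NumI.V.of 10000 (-1160) (-640)] = true := by
    decide +kernel
  obtain ⟨f, hf, hp⟩ := chkT_sound h (xs := [x, T, w, b, r, t])
    (List.Forall₂.cons (NumI.V.of_mem (by norm_num) (by norm_num; linarith only [ua1]) (by norm_num; linarith only [ua2])) (List.Forall₂.cons (NumI.V.of_mem (by norm_num) (by norm_num; linarith only [ua3]) (by norm_num; linarith only [ua4])) (List.Forall₂.cons (NumI.V.of_mem (by norm_num) (by norm_num; linarith only [ua5]) (by norm_num; linarith only [ua6])) (List.Forall₂.cons (NumI.V.of_mem (by norm_num) (by norm_num; linarith only [ua7]) (by norm_num; linarith only [ua8])) (List.Forall₂.cons (NumI.V.of_mem (by norm_num) (by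 norm_num; linarith only [ua9]) (by norm_num; linarith only [ua10])) (List.Forall₂.cons (NumI.V.of_mem (by norm_num) (by norm_num; linarith only [ua11]) (by norm_num; linarith only [ua12])) List.Forall₂.nil))))))
  by_contra hc
  push Not at hc
  simp only [List.mem_cons, List.not_mem_nil, or_false] at hf
  rcases hf with rfl | rfl | rfl | rfl
  · simp only [D_val, R_val, h_val, EE.ui_val, EV.a, EV.x, EV.T, EV.w, EV.b, EV.r, EV.t, E.val, NumI.lkR] at hp
    push_cast at hp
    linarith only [hc, hp]
  · simp only [D_val, R_val, h_val, EE.ui_val, EV.a, EV.x, EV.T, EV.w, EV.b, EV.r, EV.t, E.val, NumI.lkR] at hp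
    push_cast at hp
    linarith only [ua13, hp]
  · simp only [D_val, R_val, h_val, EE.ui_val, EV.a, EV.x, EV.T, EV.w, EV.b, EV.r, EV.t, E.val, NumI.lkR] at hp
    push_cast at hp
    linarith only [ua5, ua7, hp]
  · simp only [D_val, R_val, h_val, EE.ui_val, EV.a, EV.x, EV.T, EV.w, EV.b, EV.r, EV.t, E.val, NumI.lkR] at hp
    push_cast at hp
    linarith only [ua15, hp]

theorem forn {x T w b r t : ℝ} (ua1 : 3000 / 10000 ≤ x) (ua2 : x ≤ 3800 / 10000) (ua3 : -(980 / 10000) ≤ T) (ua4 : T ≤ -(760 / 10000)) (ua5 : 3100 / 10000 ≤ w) (ua6 : w ≤ 3900 / 10000) (ua7 : -(980 / 10000) ≤ b) (ua8 : b ≤ 220 / 10000) (ua9 : 0 / 10000 ≤ r) (ua10 : r ≤ 500 / 10000) (ua11 : -(1160 / 10000) ≤ t) (ua12 : t ≤ -(640 / 10000)) (ua13 : -(98 / 130) * w ≤ b) (ua14 : 20 * (t * r) ≤ rui (10 / 3) x T) :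
    0 < rE (4600 / 10000) (1) x (rui (10 / 3) x T) w b r t := by
  have h : chkT [R 10 3 (q 4600 10000) (1), sub (mul (q (-98) 130) EV.w) EV.b, sub h (a 10 3)] 40
    8
    [NumI.V.of 10000 3000 3800, NumI.V.of 10000 (-980) (-760), NumI.V.of 10000 3100 3900, NumI.V.of 10000 (-980) 220, NumI.V.of 10000 0 500, NumI.V.of 10000 (-1160) (-640)] = true := by
    decide +kernel
  obtain ⟨f, hf, hp⟩ := chkT_sound h (xs := [x, T, w, b, r, t])
    (List.Forall₂.cons (NumI.V.of_mem (by norm_num) (by norm_num; linarith only [ua1]) (by norm_num; linarith only [ua2])) (List.Forall₂.cons (NumI.V.of_mem (by norm_num) (by norm_num; linarith only [ua3]) (by norm_num; linarith only [ua4])) (List.Forall₂.cons (NumI.V.of_mem (by norm_num) (by norm_num; linarith only [ua5]) (by norm_num; linarith only [ua6])) (List.Forall₂.cons (NumI.V.of_mem (by norm_num) (by norm_num; linarith only [ua7]) (by norm_num; linarith only [ua8])) (List.Forall₂.cons (NumI.V.of_mem (by norm_num) (by norm_num; linarith only [ua9]) (by norm_num; linarith only [ua10]))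 (List.Forall₂.cons (NumI.V.of_mem (by norm_num) (by norm_num; linarith only [ua11]) (by norm_num; linarith only [ua12])) List.Forall₂.nil))))))
  by_contra hc
  push Not at hc
  simp only [List.mem_cons, List.not_mem_nil, or_false] at hf
  rcases hf with rfl | rfl | rfl
  · simp only [D_val, R_val, h_val, EE.ui_val, EV.a, EV.x, EV.T, EV.w, EV.b, EV.r, EV.t, E.val, NumI.lkR] at hp
    push_cast at hp
    linarith only [hc, hp]
  · simp only [D_val, R_val, h_val, EE.ui_val, EV.a, EV.x, EV.T, EV.w, EV.b, EV.r, EV.t, E.val, NumI.lkR] at hp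
    push_cast at hp
    linarith only [ua5, ua7, hp]
  · simp only [D_val, R_val, h_val, EE.ui_val, EV.a, EV.x, EV.T, EV.w, EV.b, EV.r, EV.t, E.val, NumI.lkR] at hp
    push_cast at hp
    linarith only [ua14, hp]

theorem forp {x T w b r t : ℝ} (ua1 : 3000 / 10000 ≤ x) (ua2 : x ≤ 3800 / 10000) (ua3 : -(980 / 10000) ≤ T) (ua4 : T ≤ -(760 / 10000)) (ua5 : 3100 / 10000 ≤ w) (ua6 : w ≤ 3900 / 10000) (ua7 : -(980 / 10000) ≤ b) (ua8 : b ≤ 220 / 10000) (ua9 : 0 / 10000 ≤ r) (ua10 : r ≤ 500 / 10000) (ua11 : -(1160 / 10000) ≤ t) (ua12 : t ≤ -(640 / 10000)) (ua13 : -(98 / 130) * w ≤ b) (ua14 : rui (10 / 3) x T ≤ 20 * (t * r)) :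
    0 < rE (4600 / 10000) (-1) x (rui (10 / 3) x T) w b r t := by
  have h : chkT [R 10 3 (q 4600 10000) (-1), sub (mul (q (-98) 130) EV.w) EV.b, sub (a 10 3) h] 40
    559156
    [NumI.V.of 10000 3000 3800, NumI.V.of 10000 (-980) (-760), NumI.V.of 10000 3100 3900, NumI.V.of 10000 (-980) 220, NumI.V.of 10000 0 500, NumI.V.of 10000 (-1160) (-640)] = true := by
    decide +kernel
  obtain ⟨f, hf, hp⟩ := chkT_sound h (xs := [x, T, w, b, r, t])
    (List.Forall₂.cons (NumI.V.of_mem (by norm_num) (by norm_num; linarith only [ua1]) (by norm_num; linarith only [ua2])) (List.Forall₂.cons (NumI.V.of_mem (by norm_num) (by norm_num; linarith only [ua3]) (by norm_num; linarith only [ua4])) (List.Forall₂.cons (NumI.V.of_mem (by norm_num) (by norm_num; linarith only [ua5]) (by norm_num; linarith only [ua6])) (List.Forall₂.cons (NumI.V.of_mem (by norm_num) (by norm_num; linarith only [ua7]) (by norm_num; linarith only [ua8])) (List.Forall₂.cons (NumI.V.of_mem (by norm_num) (by norm_num; linarith only [ua9]) (by norm_num; linarith only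 [ua10])) (List.Forall₂.cons (NumI.V.of_mem (by norm_num) (by norm_num; linarith only [ua11]) (by norm_num; linarith only [ua12])) List.Forall₂.nil))))))
  by_contra hc
  push Not at hc
  simp only [List.mem_cons, List.not_mem_nil, or_false] at hf
  rcases hf with rfl | rfl | rfl
  · simp only [D_val, R_val, h_val, EE.ui_val, EV.a, EV.x, EV.T, EV.w, EV.b, EV.r, EV.t, E.val, NumI.lkR] at hp
    push_cast at hp
    linarith only [hc, hp]
  · simp only [D_val, R_val, h_val, EE.ui_val, EV.a, EV.x, EV.T, EV.w, EV.b, EV.r, EV.t, E.val, NumI.lkR] at hp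
    push_cast at hp
    linarith only [ua5, ua7, hp]
  · simp only [D_val, R_val, h_val, EE.ui_val, EV.a, EV.x, EV.T, EV.w, EV.b, EV.r, EV.t, E.val, NumI.lkR] at hp
    push_cast at hp
    linarith only [ua14, hp]

end S0R

end Pool.Agent.Work.MP_b30479_gt.G2
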