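import Pool.Agent.Work.MP_b30479_gt.G2.S0RV1
import Pool.Agent.Work.MP_b30479_gt.G2.S0RX
import Pool.Agent.Work.MP_b30479_gt.G2.S0RV2
import Pool.Agent.Work.MP_b30479_gt.G2.S0RV3
import Pool.Agent.Work.MP_b30479_gt.G2.S0RV4
import Pool.Agent.Work.MP_b30479_gt.G2.V2C
import Pool.Agent.Work.MP_b30479_gt.G2.RV

/-!
# The own side of an interior `3` at slot `0`: the low branch

`u` the hinge, `v` the inner variable, `w` the hinge in the slot `2`.
-/

set_option linter.unusedVariables false

namespace Pool.Agent.Work.MP_b30479_gt.G2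

open VOL NumU

namespace S0R

/-! ### the low branch -/

theorem sg_pos {y : ℝ} (h : y ≤ 0) : |y| = -(1 * y) := by rw [abs_of_nonpos h, one_mul]

theorem sg_neg {y : ℝ} (h : 0 ≤ y) : |y| = -(-1 * y) := by
  rw [abs_of_nonneg h]
  ring

/-- the four cases of a value move -/
theorem low_of {c r t : ℝ} {u v w : ℂ} (hrh : RH v t (8 / 10) (5 / 100) (5 / 100))
    (hr : v.re = r) (hr' : r ≤ 75 / 100) (ht : |t| ≤ 13 / 100)
    (h1 : 5 / 100 ≤ r → t ≤ u.im → 0 < rD c 1 u.re u.im w.re w.im r t)
    (h2 : 5 / 100 ≤ r → u.im ≤ t → 0 < rD c (-1) u.re u.im w.re w.im r t)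
    (h3 : r ≤ 5 / 100 → 20 * (t * r) ≤ u.im → 0 < rE c 1 u.re u.im w.re w.im r t)
    (h4 : r ≤ 5 / 100 → u.im < 20 * (t * r) → 0 < rE c (-1) u.re u.im w.re w.im r t) :
    ∀ v' : ℂ, v'.re = c → v'.im = t → V3 u v w < V3 u v' w := by
  intro v' hc hc'
  have hr0 := hrh.re0
  rcases le_total (5 / 100) r with h | h
  · have hv := V2A.mid_flat hrh (by rw [hr]; exact h) (by rw [hr]; exact hr')
    rcases le_total t u.im with g | g
    · have := D_core (w := w) hr hv hc hc' (σ := 1) (sg_pos (by linarith only [g]))
      have := h1 h g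
      linarith
    · have := D_core (w := w) hr hv hc hc' (σ := -1) (sg_neg (by linarith only [g]))
      have := h2 h g
      linarith
  · have hv := V2A.mid_left hrh (by rw [hr]; exact h)
    rw [hr] at hv hr0
    rcases le_or_gt (20 * (t * r)) u.im with g | g
    · have := R_core (w := w) hr0 h hr hv hc hc' (σ := 1) (sg_pos (by linarith only [g])) ht
      have := h3 h g
      linarith
    · have := R_core (w := w) hr0 h hr hv hc hc' (σ := -1) (sg_neg (by linarith only [g])) ht
      have := h4 h g
      linarith

/-- **Low branch, left neighbour `3`, `3e`, ring, `x` in `[.30, .38]`** -/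
theorem low_z {T t : ℝ} {u v w : ℂ} (hx : 30 / 100 ≤ u.re) (hx' : u.re ≤ 38 / 100)
    (hu : u.im = 10 / 3 * T * (6 / 10 - u.re)) (hT : -(28 / 1000) ≤ T) (hT' : T ≤ 57 / 1000)
    (hK : K1 T t w ∨ Ko T t w ∨ KZ T t w) (hrh : RH v t (8 / 10) (5 / 100) (5 / 100))
    (hl : v.re ≤ u.re - 13 / 100) :
    ∃ c : ℝ, 5 / 100 ≤ c ∧ c ≤ 75 / 100 ∧ ∀ v' : ℂ, v'.re = c → v'.im = t →
      V3 u v w < V3 u v' w := by
  have hr0 := hrh.re0
  have e : u.im = rui (10 / 3) u.re T := hu
  have hTu : 0 ≤ T → 22 / 30 * T ≤ u.im := fun h => by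
    rw [hu]
    nlinarith only [hx', h]
  have hTu' : T ≤ 0 → T ≤ u.im ∧ u.im ≤ 0 := fun h => by
    rw [hu]
    constructor <;> nlinarith only [hx, h, hx']
  rcases hK with hK | hK
  · obtain ⟨a1, a2, a3, a4, a5, a6, a7, a8⟩ := hK
    have hm : t * v.re ≤ 0 := mul_nonpos_of_nonpos_of_nonneg (le_trans a2 (by norm_num)) hr0
    refine ⟨4000 / 10000, by norm_num, by norm_num, low_of hrh rfl (by linarith only [hx', hl])
      (abs_le.2 ⟨by linarith only [a1], by linarith only [a2]⟩) ?_ ?_ ?_ ?_⟩
    · intro h g
      rw [e] at g ⊢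
      rcases le_total 0 T with hT0 | hT0
      · exact z1n (le_trans (by norm_num) hx) (le_trans hx' (by norm_num)) (le_trans (by norm_num) hT0) (le_trans hT' (by norm_num)) (le_trans (by norm_num) a4) (le_trans a5 (by norm_num)) a6 a7 (le_trans (by norm_num) h) (by linarith only [hx', hl]) (le_trans (by norm_num) a1) (le_trans a2 (by norm_num)) (by linarith only [hl]) (by linarith only [a8]) (le_trans a3 (by norm_num)) g
      · exact z1m (le_trans (by norm_num) hx) (le_trans hx' (by norm_num)) (le_trans (by norm_num) hT) (le_trans hT0 (by norm_num)) (le_trans (by norm_num) a4) (le_trans a5 (by norm_num)) a6 a7 (le_trans (by norm_num) h) (by linarith only [hx', hl]) (le_trans (by norm_num) a1) (le_trans a2 (by norm_num)) (by linarith only [hl]) (by linarith only [a8]) g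
    · intro h g
      rcases le_or_gt 0 T with hT0 | hT0
      · have := hTu hT0
        exfalso
        linarith only [a2, g, hT0, this]
      · have g1 := hTu' hT0.le
        rw [e] at g g1 ⊢
        exact z1p (le_trans (by norm_num) hx) (le_trans hx' (by norm_num)) (le_trans (by norm_num) hT) (le_trans hT0.le (by norm_num)) (le_trans (by norm_num) a4) (le_trans a5 (by norm_num)) a6 a7 (le_trans (by norm_num) h) (by linarith only [hx', hl]) (by linarith only [hT, g, g1]) (le_trans a2 (by norm_num)) (by linarith only [hl]) (by linarith only [a8]) g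
    · intro h g
      rw [e] at g ⊢
      rcases le_total 0 T with hT0 | hT0
      · exact z1rn (le_trans (by norm_num) hx) (le_trans hx' (by norm_num)) (le_trans (by norm_num) hT0) (le_trans hT' (by norm_num)) (le_trans (by norm_num) a4) (le_trans a5 (by norm_num)) a6 a7 (le_trans (by norm_num) hr0) (le_trans h (by norm_num)) (le_trans (by norm_num) a1) (le_trans a2 (by norm_num)) (by linarith only [a8]) (le_trans a3 (by norm_num)) g
      · exact z1rm (le_trans (by norm_num) hx) (le_trans hx' (by norm_num)) (le_trans (by norm_num) hT) (le_trans hT0 (by norm_num)) (le_trans (by norm_num) a4) (le_trans a5 (by norm_num)) a6 a7 (le_trans (by norm_num) hr0) (le_trans h (by norm_num)) (le_trans (by norm_num) a1) (le_trans a2 (by norm_num)) (by linarith only [a8]) g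
    · intro h g
      rcases le_or_gt 0 T with hT0 | hT0
      · have := hTu hT0
        exfalso
        linarith only [hm, g, hT0, this]
      · rw [e] at g ⊢
        exact z1rp (le_trans (by norm_num) hx) (le_trans hx' (by norm_num)) (le_trans (by norm_num) hT) (le_trans hT0.le (by norm_num)) (le_trans (by norm_num) a4) (le_trans a5 (by norm_num)) a6 a7 (le_trans (by norm_num) hr0) (le_trans h (by norm_num)) (le_trans (by norm_num) a1) (le_trans a2 (by norm_num)) (by linarith only [a8]) g.le
  · have hK' : -(104 / 1000) ≤ t ∧ t ≤ 5 / 1000 ∧ T - t ≤ 100 / 1000 ∧ 7 / 100 ≤ w.re ∧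
        (w.re ≤ 31 / 100 ∨ 31 / 100 ≤ w.re ∧ w.re ≤ 39 / 100 ∧ w.im ≤ 22 / 1000) ∧
        -(98 / 1000) ≤ w.im ∧ w.im ≤ 57 / 1000 ∧ -(98 / 130 * w.re) ≤ w.im := by
      rcases hK with hK | hK
      · obtain ⟨a1, a2, a3, a4, a5, a6, a7, a8⟩ := hK
        refine ⟨a1, a2, a3, a4, ?_, a6, a7.trans (by norm_num), a8⟩
        rcases le_total w.re (31 / 100) with h9 | h9
        · exact Or.inl h9
        · exact Or.inr ⟨h9, a5, a7⟩
      · obtain ⟨a1, a2, a3, a4, a5, a6, a7, a8⟩ := hK
        exact ⟨le_trans (by norm_num) a1, a2.trans (by norm_num), a3.trans (by norm_num), a4,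
          Or.inl a5, a6, a7, a8⟩
    obtain ⟨a1, a2, a3, a4, a5, a6, a7, a8⟩ := hK'
    refine ⟨4200 / 10000, by norm_num, by norm_num, low_of hrh rfl (by linarith only [hx', hl])
      (abs_le.2 ⟨by linarith only [a1], by linarith only [a2]⟩) ?_ ?_ ?_ ?_⟩
    · intro h g
      rw [e] at g ⊢
      rcases le_total 0 T with hT0 | hT0
      · rcases a5 with a5 | ⟨a5, a9, a10⟩
        · exact zon (le_trans (by norm_num) hx) (le_trans hx' (by norm_num)) (le_trans (by norm_num) hT0) (le_trans hT' (by norm_num)) (le_trans (by norm_num) a4) (le_trans a5 (by norm_num)) (le_trans (by norm_num) a6) (le_trans a7 (by norm_num)) (le_trans (by norm_num) h) (by linarith only [hx', hl]) (le_trans (by norm_num) a1) (le_trans a2 (by norm_num)) (by linarith only [hl]) (by linarith only [a8]) (le_trans a3 (by norm_num)) g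
        · exact xon (le_trans (by norm_num) hx) (le_trans hx' (by norm_num)) (le_trans (by norm_num) hT0) (le_trans hT' (by norm_num)) (le_trans (by norm_num) a5) (le_trans a9 (by norm_num)) (le_trans (by norm_num) a6) (le_trans a10 (by norm_num)) (le_trans (by norm_num) h) (by linarith only [hx', hl]) (le_trans (by norm_num) a1) (le_trans a2 (by norm_num)) (by linarith only [hl]) (by linarith only [a6, a5]) (le_trans a3 (by norm_num)) g
      · rcases a5 with a5 | ⟨a5, a9, a10⟩
        · exact zom (le_trans (by norm_num) hx) (le_trans hx' (by norm_num)) (le_trans (by norm_num) hT) (le_trans hT0 (by norm_num)) (le_trans (by norm_num) a4) (le_trans a5 (by norm_num)) (le_trans (by norm_num) a6) (le_trans a7 (by norm_num)) (le_trans (by norm_num) h) (by linarith only [hx', hl]) (le_trans (by norm_num) a1) (le_trans a2 (by norm_num)) (by linarith only [hl]) (by linarith only [a8]) g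
        · exact xom (le_trans (by norm_num) hx) (le_trans hx' (by norm_num)) (le_trans (by norm_num) hT) (le_trans hT0 (by norm_num)) (le_trans (by norm_num) a5) (le_trans a9 (by norm_num)) (le_trans (by norm_num) a6) (le_trans a10 (by norm_num)) (le_trans (by norm_num) h) (by linarith only [hx', hl]) (le_trans (by norm_num) a1) (le_trans a2 (by norm_num)) (by linarith only [hl]) (by linarith only [a6, a5]) g
    · intro h g
      rcases le_total 0 T with hT0 | hT0
      · have := hTu hT0
        rw [e] at g this ⊢
        rcases a5 with a5 | ⟨a5, a9, a10⟩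
        · exact zop (le_trans (by norm_num) hx) (le_trans hx' (by norm_num)) (le_trans (by norm_num) hT0) (by linarith only [a2, g, this]) (le_trans (by norm_num) a4) (le_trans a5 (by norm_num)) (le_trans (by norm_num) a6) (le_trans a7 (by norm_num)) (le_trans (by norm_num) h) (by linarith only [hx', hl]) (by linarith only [g, hT0, this]) (le_trans a2 (by norm_num)) (by linarith only [hl]) (by linarith only [a8]) g
        · exact xop (le_trans (by norm_num) hx) (le_trans hx' (by norm_num)) (le_trans (by norm_num) hT0) (by linarith only [a2, g, this]) (le_trans (by norm_num) a5) (le_trans a9 (by norm_num)) (le_trans (by norm_num) a6) (le_trans a10 (by norm_num)) (le_trans (by norm_num) h) (by linarith only [hx', hl]) (by linarith only [g, hT0, this]) (le_trans a2 (by norm_num)) (by linarith only [hl]) (by linarith only [a6, a5]) g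
      · have g1 := hTu' hT0
        rw [e] at g g1 ⊢
        rcases a5 with a5 | ⟨a5, a9, a10⟩
        · exact zop (le_trans (by norm_num) hx) (le_trans hx' (by norm_num)) (le_trans (by norm_num) hT) (le_trans hT0 (by norm_num)) (le_trans (by norm_num) a4) (le_trans a5 (by norm_num)) (le_trans (by norm_num) a6) (le_trans a7 (by norm_num)) (le_trans (by norm_num) h) (by linarith only [hx', hl]) (by linarith only [hT, g, g1]) (le_trans a2 (by norm_num)) (by linarith only [hl]) (by linarith only [a8]) g
        · exact xop (le_trans (by norm_num) hx) (le_trans hx' (by norm_num)) (le_trans (by norm_num) hT) (le_trans hT0 (by norm_num)) (le_trans (by norm_num) a5) (le_trans a9 (by norm_num)) (le_trans (by norm_num) a6) (le_trans a10 (by norm_num)) (le_trans (by norm_num) h) (by linarith only [hx', hl]) (by linarith only [hT, g, g1]) (le_trans a2 (by norm_num)) (by linarith only [hl]) (by linarith only [a6, a5]) g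
    · intro h g
      rw [e] at g ⊢
      rcases le_total 0 T with hT0 | hT0
      · rcases a5 with a5 | ⟨a5, a9, a10⟩
        · exact zorn (le_trans (by norm_num) hx) (le_trans hx' (by norm_num)) (le_trans (by norm_num) hT0) (le_trans hT' (by norm_num)) (le_trans (by norm_num) a4) (le_trans a5 (by norm_num)) (le_trans (by norm_num) a6) (le_trans a7 (by norm_num)) (le_trans (by norm_num) hr0) (le_trans h (by norm_num)) (le_trans (by norm_num) a1) (le_trans a2 (by norm_num)) (by linarith only [a8]) (le_trans a3 (by norm_num)) g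
        · exact xorn (le_trans (by norm_num) hx) (le_trans hx' (by norm_num)) (le_trans (by norm_num) hT0) (le_trans hT' (by norm_num)) (le_trans (by norm_num) a5) (le_trans a9 (by norm_num)) (le_trans (by norm_num) a6) (le_trans a10 (by norm_num)) (le_trans (by norm_num) hr0) (le_trans h (by norm_num)) (le_trans (by norm_num) a1) (le_trans a2 (by norm_num)) (by linarith only [a6, a5]) (le_trans a3 (by norm_num)) g
      · rcases a5 with a5 | ⟨a5, a9, a10⟩
        · exact zorm (le_trans (by norm_num) hx) (le_trans hx' (by norm_num)) (le_trans (by norm_num) hT) (le_trans hT0 (by norm_num)) (le_trans (by norm_num) a4) (le_trans a5 (by norm_num)) (le_trans (by norm_num) a6) (le_trans a7 (by norm_num)) (le_trans (by norm_num) hr0) (le_trans h (by norm_num)) (le_trans (by norm_num) a1) (le_trans a2 (by norm_num)) (by linarith only [a8]) g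
        · exact xorm (le_trans (by norm_num) hx) (le_trans hx' (by norm_num)) (le_trans (by norm_num) hT) (le_trans hT0 (by norm_num)) (le_trans (by norm_num) a5) (le_trans a9 (by norm_num)) (le_trans (by norm_num) a6) (le_trans a10 (by norm_num)) (le_trans (by norm_num) hr0) (le_trans h (by norm_num)) (le_trans (by norm_num) a1) (le_trans a2 (by norm_num)) (by linarith only [a6, a5]) g
    · intro h g
      have hT7 : T ≤ 70 / 10000 := by
        rcases le_total 0 T with hT0 | hT0
        · have := hTu hT0
          have : 20 * (t * v.re) ≤ 5 / 1000 := by nlinarith only [h, hr0, a2]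
          linarith
        · linarith only [hT0]
      rw [e] at g ⊢
      rcases a5 with a5 | ⟨a5, a9, a10⟩
      · exact zorp (le_trans (by norm_num) hx) (le_trans hx' (by norm_num)) (le_trans (by norm_num) hT) hT7 (le_trans (by norm_num) a4) (le_trans a5 (by norm_num)) (le_trans (by norm_num) a6) (le_trans a7 (by norm_num)) (le_trans (by norm_num) hr0) (le_trans h (by norm_num)) (le_trans (by norm_num) a1) (le_trans a2 (by norm_num)) (by linarith only [a8]) g.le
      · exact xorp (le_trans (by norm_num) hx) (le_trans hx' (by norm_num)) (le_trans (by norm_num) hT) hT7 (le_trans (by norm_num) a5) (le_trans a9 (by norm_num)) (le_trans (by norm_num) a6) (le_trans a10 (by norm_num)) (le_trans (by norm_num) hr0) (le_trans h (by norm_num)) (le_trans (by norm_num) a1) (le_trans a2 (by norm_num)) (by linarith only [a6, a5]) g.le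

/-- **Low branch, left neighbour `2`, `x` in `[.36, .38]`** -/
theorem low_t {T t : ℝ} {u v w : ℂ} (hx : 36 / 100 ≤ u.re) (hx' : u.re ≤ 38 / 100)
    (hu : u.im = 100 / 27 * T * (6 / 10 - u.re)) (hT : -(57 / 1000) ≤ T) (hT' : T ≤ 5 / 1000)
    (hK : K1 T t w ∨ Ko T t w ∨ KZ T t w) (hs1 : t - T ≤ 28 / 1000)
    (hrh : RH v t (8 / 10) (5 / 100) (5 / 100)) (hl : v.re ≤ u.re - 9 / 100) :
    ∃ c : ℝ, 5 / 100 ≤ c ∧ c ≤ 75 / 100 ∧ ∀ v' : ℂ, v'.re = c → v'.im = t →
      V3 u v w < V3 u v' w := by
  have hr0 := hrh.re0
  have e : u.im = rui (100 / 27) u.re T := hu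
  have hTu : -(57 / 1000) ≤ u.im := by
    rw [hu]
    nlinarith only [hx', hT, hx, hT']
  rcases hK with hK | hK
  · obtain ⟨a1, a2, a3, a4, a5, a6, a7, a8⟩ := hK
    refine ⟨4400 / 10000, by norm_num, by norm_num, low_of hrh rfl (by linarith only [hx', hl])
      (abs_le.2 ⟨by linarith only [a1], by linarith only [hT', hs1]⟩) ?_ ?_ ?_ ?_⟩
    · intro h g
      rw [e] at g ⊢
      exact t1n (le_trans (by norm_num) hx) (le_trans hx' (by norm_num)) (le_trans (by norm_num) hT) (le_trans hT' (by norm_num)) (le_trans (by norm_num) a4) (le_trans a5 (by norm_num)) a6 a7 (le_trans (by norm_num) h) (by linarith only [hx', hl]) (le_trans (by norm_num) a1) (le_trans a2 (by norm_num)) (by linarith only [hl]) (by linarith only [a8]) g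
    · intro h g
      have g1 := hTu.trans g
      rw [e] at g ⊢
      exact t1p (le_trans (by norm_num) hx) (le_trans hx' (by norm_num)) (le_trans (by norm_num) hT) (le_trans hT' (by norm_num)) (le_trans (by norm_num) a4) (le_trans a5 (by norm_num)) a6 a7 (le_trans (by norm_num) h) (by linarith only [hx', hl]) (le_trans (by norm_num) g1) (le_trans a2 (by norm_num)) (by linarith only [hl]) (by linarith only [a8]) (le_trans hs1 (by norm_num)) g
    · intro h g
      rw [e] at g ⊢
      exact t1rn (le_trans (by norm_num) hx) (le_trans hx' (by norm_num)) (le_trans (by norm_num) hT) (le_trans hT' (by norm_num)) (le_trans (by norm_num) a4) (le_trans a5 (by norm_num)) a6 a7 (le_trans (by norm_num) hr0) (le_trans h (by norm_num)) (le_trans (by norm_num) a1) (le_trans a2 (by norm_num)) (by linarith only [a8]) g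
    · intro h g
      rw [e] at g ⊢
      exact t1rp (le_trans (by norm_num) hx) (le_trans hx' (by norm_num)) (le_trans (by norm_num) hT) (le_trans hT' (by norm_num)) (le_trans (by norm_num) a4) (le_trans a5 (by norm_num)) a6 a7 (le_trans (by norm_num) hr0) (le_trans h (by norm_num)) (le_trans (by norm_num) a1) (le_trans a2 (by norm_num)) (by linarith only [a8]) (le_trans hs1 (by norm_num)) g.le
  · have hK' : -(104 / 1000) ≤ t ∧ t ≤ 5 / 1000 ∧ T - t ≤ 100 / 1000 ∧ 7 / 100 ≤ w.re ∧
        (w.re ≤ 31 / 100 ∨ 31 / 100 ≤ w.re ∧ w.re ≤ 39 / 100 ∧ w.im ≤ 22 / 1000) ∧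
        -(98 / 1000) ≤ w.im ∧ w.im ≤ 57 / 1000 ∧ -(98 / 130 * w.re) ≤ w.im := by
      rcases hK with hK | hK
      · obtain ⟨a1, a2, a3, a4, a5, a6, a7, a8⟩ := hK
        refine ⟨a1, a2, a3, a4, ?_, a6, a7.trans (by norm_num), a8⟩
        rcases le_total w.re (31 / 100) with h9 | h9
        · exact Or.inl h9
        · exact Or.inr ⟨h9, a5, a7⟩
      · obtain ⟨a1, a2, a3, a4, a5, a6, a7, a8⟩ := hK
        exact ⟨le_trans (by norm_num) a1, a2.trans (by norm_num), a3.trans (by norm_num), a4,
          Or.inl a5, a6, a7, a8⟩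
    obtain ⟨a1, a2, a3, a4, a5, a6, a7, a8⟩ := hK'
    refine ⟨4400 / 10000, by norm_num, by norm_num, low_of hrh rfl (by linarith only [hx', hl])
      (abs_le.2 ⟨by linarith only [a1], by linarith only [hT', hs1]⟩) ?_ ?_ ?_ ?_⟩
    · intro h g
      rw [e] at g ⊢
      rcases a5 with a5 | ⟨a5, a9, a10⟩
      · exact ton (le_trans (by norm_num) hx) (le_trans hx' (by norm_num)) (le_trans (by norm_num) hT) (le_trans hT' (by norm_num)) (le_trans (by norm_num) a4) (le_trans a5 (by norm_num)) (le_trans (by norm_num) a6) (le_trans a7 (by norm_num)) (le_trans (by norm_num) h) (by linarith only [hx', hl]) (le_trans (by norm_num) a1) (le_trans a2 (by norm_num)) (by linarith only [hl]) (by linarith only [a8]) g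
      · exact yon (le_trans (by norm_num) hx) (le_trans hx' (by norm_num)) (le_trans (by norm_num) hT) (le_trans hT' (by norm_num)) (le_trans (by norm_num) a5) (le_trans a9 (by norm_num)) (le_trans (by norm_num) a6) (le_trans a10 (by norm_num)) (le_trans (by norm_num) h) (by linarith only [hx', hl]) (le_trans (by norm_num) a1) (le_trans a2 (by norm_num)) (by linarith only [hl]) (by linarith only [a6, a5]) g
    · intro h g
      have g1 := hTu.trans g
      rw [e] at g ⊢
      rcases a5 with a5 | ⟨a5, a9, a10⟩
      · exact top (le_trans (by norm_num) hx) (le_trans hx' (by norm_num)) (le_trans (by norm_num) hT) (le_trans hT' (by norm_num)) (le_trans (by norm_num) a4) (le_trans a5 (by norm_num)) (le_trans (by norm_num) a6) (le_trans a7 (by norm_num)) (le_trans (by norm_num) h) (by linarith only [hx', hl]) (le_trans (by norm_num) g1) (le_trans a2 (by norm_num)) (by linarith only [hl]) (by linarith only [a8]) (le_trans hs1 (by norm_num)) g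
      · exact yop (le_trans (by norm_num) hx) (le_trans hx' (by norm_num)) (le_trans (by norm_num) hT) (le_trans hT' (by norm_num)) (le_trans (by norm_num) a5) (le_trans a9 (by norm_num)) (le_trans (by norm_num) a6) (le_trans a10 (by norm_num)) (le_trans (by norm_num) h) (by linarith only [hx', hl]) (le_trans (by norm_num) g1) (le_trans a2 (by norm_num)) (by linarith only [hl]) (by linarith only [a6, a5]) (le_trans hs1 (by norm_num)) g
    · intro h g
      rw [e] at g ⊢
      rcases a5 with a5 | ⟨a5, a9, a10⟩
      · exact torn (le_trans (by norm_num) hx) (le_trans hx' (by norm_num)) (le_trans (by norm_num) hT) (le_trans hT' (by norm_num)) (le_trans (by norm_num) a4) (le_trans a5 (by norm_num)) (le_trans (by norm_num) a6) (le_trans a7 (by norm_num)) (le_trans (by norm_num) hr0) (le_trans h (by norm_num)) (le_trans (by norm_num) a1) (le_trans a2 (by norm_num)) (by linarith only [a8]) g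
      · exact yorn (le_trans (by norm_num) hx) (le_trans hx' (by norm_num)) (le_trans (by norm_num) hT) (le_trans hT' (by norm_num)) (le_trans (by norm_num) a5) (le_trans a9 (by norm_num)) (le_trans (by norm_num) a6) (le_trans a10 (by norm_num)) (le_trans (by norm_num) hr0) (le_trans h (by norm_num)) (le_trans (by norm_num) a1) (le_trans a2 (by norm_num)) (by linarith only [a6, a5]) g
    · intro h g
      rw [e] at g ⊢
      rcases a5 with a5 | ⟨a5, a9, a10⟩
      · exact torp (le_trans (by norm_num) hx) (le_trans hx' (by norm_num)) (le_trans (by norm_num) hT) (le_trans hT' (by norm_num)) (le_trans (by norm_num) a4) (le_trans a5 (by norm_num)) (le_trans (by norm_num) a6) (le_trans a7 (by norm_num)) (le_trans (by norm_num) hr0) (le_trans h (by norm_num)) (le_trans (by norm_num) a1) (le_trans a2 (by norm_num)) (by linarith only [a8]) (le_trans hs1 (by norm_num)) g.le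
      · exact yorp (le_trans (by norm_num) hx) (le_trans hx' (by norm_num)) (le_trans (by norm_num) hT) (le_trans hT' (by norm_num)) (le_trans (by norm_num) a5) (le_trans a9 (by norm_num)) (le_trans (by norm_num) a6) (le_trans a10 (by norm_num)) (le_trans (by norm_num) hr0) (le_trans h (by norm_num)) (le_trans (by norm_num) a1) (le_trans a2 (by norm_num)) (by linarith only [a6, a5]) (le_trans hs1 (by norm_num)) g.le

/-- **Low branch, left neighbour `2e`, `x` in `[.30, .38]`** -/
theorem low_e {T t : ℝ} {u v w : ℂ} (hx : 30 / 100 ≤ u.re) (hx' : u.re ≤ 38 / 100)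
    (hu : u.im = 10 / 3 * T * (6 / 10 - u.re)) (hT : -(98 / 1000) ≤ T) (hT' : T ≤ -(76 / 1000))
    (hK : E1 T t w ∨ Eo T t w ∨ EZ T t w) (hrh : RH v t (8 / 10) (5 / 100) (5 / 100))
    (hl : v.re ≤ u.re - 7 / 100) :
    ∃ c : ℝ, 5 / 100 ≤ c ∧ c ≤ 75 / 100 ∧ ∀ v' : ℂ, v'.re = c → v'.im = t →
      V3 u v w < V3 u v' w := by
  have hr0 := hrh.re0
  have e : u.im = rui (10 / 3) u.re T := hu
  rcases hK with hK | hK
  · obtain ⟨a1, a2, a3, a4, a5, a6, a7, a8⟩ := hK
    refine ⟨4600 / 10000, by norm_num, by norm_num, low_of hrh rfl (by linarith only [hx', hl])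
      (abs_le.2 ⟨by linarith only [a1], by linarith only [a2]⟩) ?_ ?_ ?_ ?_⟩
    · intro h g
      rw [e] at g ⊢
      exact e1n (le_trans (by norm_num) hx) (le_trans hx' (by norm_num)) (le_trans (by norm_num) hT) (le_trans hT' (by norm_num)) (le_trans (by norm_num) a4) (le_trans a5 (by norm_num)) a6 a7 (le_trans (by norm_num) h) (by linarith only [hx', hl]) (le_trans (by norm_num) a1) (le_trans a2 (by norm_num)) (by linarith only [hl]) (by linarith only [a8]) g
    · intro h g
      rw [e] at g ⊢
      exact e1p (le_trans (by norm_num) hx) (le_trans hx' (by norm_num)) (le_trans (by norm_num) hT) (le_trans hT' (by norm_num)) (le_trans (by norm_num) a4) (le_trans a5 (by norm_num)) a6 a7 (le_trans (by norm_num) h) (by linarith only [hx', hl]) (le_trans (by norm_num) a1) (le_trans a2 (by norm_num)) (by linarith only [hl]) (by linarith only [a8]) g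
    · intro h g
      rw [e] at g ⊢
      exact e1rn (le_trans (by norm_num) hx) (le_trans hx' (by norm_num)) (le_trans (by norm_num) hT) (le_trans hT' (by norm_num)) (le_trans (by norm_num) a4) (le_trans a5 (by norm_num)) a6 a7 (le_trans (by norm_num) hr0) (le_trans h (by norm_num)) (le_trans (by norm_num) a1) (le_trans a2 (by norm_num)) (by linarith only [a8]) g
    · intro h g
      rw [e] at g ⊢
      exact e1rp (le_trans (by norm_num) hx) (le_trans hx' (by norm_num)) (le_trans (by norm_num) hT) (le_trans hT' (by norm_num)) (le_trans (by norm_num) a4) (le_trans a5 (by norm_num)) a6 a7 (le_trans (by norm_num) hr0) (le_trans h (by norm_num)) (le_trans (by norm_num) a1) (le_trans a2 (by norm_num)) (by linarith only [a8]) g.le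
  · have hK' : -(116 / 1000) ≤ t ∧ t ≤ -(64 / 1000) ∧ 7 / 100 ≤ w.re ∧
        (w.re ≤ 31 / 100 ∨ 31 / 100 ≤ w.re ∧ w.re ≤ 39 / 100 ∧ w.im ≤ 22 / 1000) ∧
        -(98 / 1000) ≤ w.im ∧ w.im ≤ 57 / 1000 ∧ -(98 / 130 * w.re) ≤ w.im := by
      rcases hK with hK | hK
      · obtain ⟨a1, a2, a3, a4, a5, a6, a7, a8⟩ := hK
        refine ⟨a1, a2, a4, ?_, a6, a7.trans (by norm_num), a8⟩
        rcases le_total w.re (31 / 100) with h9 | h9
        · exact Or.inl h9
        · exact Or.inr ⟨h9, a5, a7⟩
      · obtain ⟨a1, a2, a3, a4, a5, a6, a7, a8⟩ := hK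
        exact ⟨le_trans (by norm_num) a1, a2.trans (by norm_num), a4, Or.inl a5, a6, a7, a8⟩
    obtain ⟨a1, a2, a4, a5, a6, a7, a8⟩ := hK'
    refine ⟨4600 / 10000, by norm_num, by norm_num, low_of hrh rfl (by linarith only [hx', hl])
      (abs_le.2 ⟨by linarith only [a1], by linarith only [a2]⟩) ?_ ?_ ?_ ?_⟩
    · intro h g
      rw [e] at g ⊢
      rcases a5 with a5 | ⟨a5, a9, a10⟩
      · exact eon (le_trans (by norm_num) hx) (le_trans hx' (by norm_num)) (le_trans (by norm_num) hT) (le_trans hT' (by norm_num)) (le_trans (by norm_num) a4) (le_trans a5 (by norm_num)) (le_trans (by norm_num) a6) (le_trans a7 (by norm_num)) (le_trans (by norm_num) h) (by linarith only [hx', hl]) (le_trans (by norm_num) a1) (le_trans a2 (by norm_num)) (by linarith only [hl]) (by linarith only [a8]) g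
      · exact fon (le_trans (by norm_num) hx) (le_trans hx' (by norm_num)) (le_trans (by norm_num) hT) (le_trans hT' (by norm_num)) (le_trans (by norm_num) a5) (le_trans a9 (by norm_num)) (le_trans (by norm_num) a6) (le_trans a10 (by norm_num)) (le_trans (by norm_num) h) (by linarith only [hx', hl]) (le_trans (by norm_num) a1) (le_trans a2 (by norm_num)) (by linarith only [hl]) (by linarith only [a6, a5]) g
    · intro h g
      rw [e] at g ⊢
      rcases a5 with a5 | ⟨a5, a9, a10⟩
      · exact eop (le_trans (by norm_num) hx) (le_trans hx' (by norm_num)) (le_trans (by norm_num) hT) (le_trans hT' (by norm_num)) (le_trans (by norm_num) a4) (le_trans a5 (by norm_num)) (le_trans (by norm_num) a6) (le_trans a7 (by norm_num)) (le_trans (by norm_num) h) (by linarith only [hx', hl]) (le_trans (by norm_num) a1) (le_trans a2 (by norm_num)) (by linarith only [hl]) (by linarith only [a8]) g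
      · exact fop (le_trans (by norm_num) hx) (le_trans hx' (by norm_num)) (le_trans (by norm_num) hT) (le_trans hT' (by norm_num)) (le_trans (by norm_num) a5) (le_trans a9 (by norm_num)) (le_trans (by norm_num) a6) (le_trans a10 (by norm_num)) (le_trans (by norm_num) h) (by linarith only [hx', hl]) (le_trans (by norm_num) a1) (le_trans a2 (by norm_num)) (by linarith only [hl]) (by linarith only [a6, a5]) g
    · intro h g
      rw [e] at g ⊢
      rcases a5 with a5 | ⟨a5, a9, a10⟩
      · exact eorn (le_trans (by norm_num) hx) (le_trans hx' (by norm_num)) (le_trans (by norm_num) hT) (le_trans hT' (by norm_num)) (le_trans (by norm_num) a4) (le_trans a5 (by norm_num)) (le_trans (by norm_num) a6) (le_trans a7 (by norm_num)) (le_trans (by norm_num) hr0) (le_trans h (by norm_num)) (le_trans (by norm_num) a1) (le_trans a2 (by norm_num)) (by linarith only [a8]) g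
      · exact forn (le_trans (by norm_num) hx) (le_trans hx' (by norm_num)) (le_trans (by norm_num) hT) (le_trans hT' (by norm_num)) (le_trans (by norm_num) a5) (le_trans a9 (by norm_num)) (le_trans (by norm_num) a6) (le_trans a10 (by norm_num)) (le_trans (by norm_num) hr0) (le_trans h (by norm_num)) (le_trans (by norm_num) a1) (le_trans a2 (by norm_num)) (by linarith only [a6, a5]) g
    · intro h g
      rw [e] at g ⊢
      rcases a5 with a5 | ⟨a5, a9, a10⟩
      · exact eorp (le_trans (by norm_num) hx) (le_trans hx' (by norm_num)) (le_trans (by norm_num) hT) (le_trans hT' (by norm_num)) (le_trans (by norm_num) a4) (le_trans a5 (by norm_num)) (le_trans (by norm_num) a6) (le_trans a7 (by norm_num)) (le_trans (by norm_num) hr0) (le_trans h (by norm_num)) (le_trans (by norm_num) a1) (le_trans a2 (by norm_num)) (by linarith only [a8]) g.le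
      · exact forp (le_trans (by norm_num) hx) (le_trans hx' (by norm_num)) (le_trans (by norm_num) hT) (le_trans hT' (by norm_num)) (le_trans (by norm_num) a5) (le_trans a9 (by norm_num)) (le_trans (by norm_num) a6) (le_trans a10 (by norm_num)) (le_trans (by norm_num) hr0) (le_trans h (by norm_num)) (le_trans (by norm_num) a1) (le_trans a2 (by norm_num)) (by linarith only [a6, a5]) g.le

end S0R

end Pool.Agent.Work.MP_b30479_gt.G2
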