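import Pool.Agent.Work.MP_b30479_gt.G2.S0RHN
import Pool.Agent.Work.MP_b30479_gt.G2.S0RHL

/-!
# The own side of an interior `3` at slot `0`, right ramp: all parts
-/
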