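import Pool.Agent.Work.MP_b30479_gt.G2.S0RAD
import Pool.Agent.Work.MP_b30479_gt.G2.S0RAV
import Pool.Agent.Work.MP_b30479_gt.G2.S0RH

/-!
# The own side of an interior `3` at slot `0`, `2 | 3`, `x` in `[.33, .36]`, after the floors `F2`

`u` the hinge, `v` the inner variable, `w` the hinge in the slot `2`.
-/

set_option linter.unusedVariables false

namespace Pool.Agent.Work.MP_b30479_gt.G2

open VOL NumU

namespace S0R

/-- windows of the mid height `t`, of `t - T`, of the height `T` of the hinge and of the hinge `w`
in the slot `2` -/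
structure KX (t0 t1 s0 s1 y0 y1 w0 w1 i0 i1 sl : ℝ) (T t : ℝ) (w : ℂ) : Prop where
  t0 : t0 ≤ t
  t1 : t ≤ t1
  s0 : T - t ≤ s0
  s1 : t - T ≤ s1
  y0 : y0 ≤ T
  y1 : T ≤ y1
  w0 : w0 ≤ w.re
  w1 : w.re ≤ w1
  i0 : i0 ≤ w.im
  i1 : w.im ≤ i1
  sl : -(sl * w.re) ≤ w.im

/-- right neighbour `1` -/
abbrev A1 := KX (-(885 / 10000)) (-(275 / 10000)) (535 / 10000) (40 / 10000) (-(530 / 10000))
  (-(35 / 10000)) (15 / 100) (39 / 100) (-(1145 / 10000)) (-(188 / 10000)) (1145 / 1500)
/-- right neighbour `2`, `2e`, `3`, `3e` -/
abbrev Ao := KX (-(800 / 10000)) (-(130 / 10000)) (495 / 10000) (135 / 10000) (-(490 / 10000))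
  (20 / 10000) (13 / 100) (31 / 100) (-(98 / 1000)) (22 / 1000) (98 / 130)
/-- right neighbour a ring -/
abbrev AZ := KX (-(635 / 10000)) (-(190 / 10000)) (430 / 10000) (65 / 10000) (-(412 / 10000))
  (22 / 10000) (13 / 100) (31 / 100) (-(98 / 1000)) (57 / 1000) (98 / 130)

/-- bound of the part with `w`, floor `f` of `w` -/
theorem H_allf {t0 t1 s0 s1 y0 y1 w0 w1 i0 i1 sl T t τ : ℝ} {v w : ℂ}
    (hK : KX t0 t1 s0 s1 y0 y1 w0 w1 i0 i1 sl T t w) (hf : w0 ≤ 2 / 10)
    (hv : v.im = t) (hv' : v.re ≤ 75 / 100) (hr : SinNe (v + w)) (h1 : w1 ≤ 39 / 100)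
    (hi : i1 ≤ τ) (hc : -(3704 / 10000) ≤ 2 * t0 + i0 + τ) :
    (1 / 2 - w0 ≤ v.re → v.re ≤ 8 / 10 - w0 →
      Real.pi * w.im + LL (v + w) ≤ Real.pi * τ + NumI.lnA (v.re + w0) (v.im + τ)) ∧
    (8 / 10 - w0 ≤ v.re →
      Real.pi * w.im + LL (v + w) ≤ Real.pi * τ + NumI.lnA (80 / 100) (v.im + τ)) := by
  obtain ⟨a1, a2, a3, a4, a5, a6, a7, a8, a9, a10, a11⟩ := hK
  have hc' : -(3704 / 10000) ≤ 2 * v.im + w.im + τ := by rw [hv]; linarith only [hc, a1, a9]
  refine ⟨fun h5 h6 => ?_, fun h5 => ?_⟩
  · exact H_le (by linarith only [h5]) (by linarith only [h6]) (by linarith only [a7]) (by linarith only [hv', h1, a8, h6]) (by linarith only [hi, a10]) hc' hr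
  · exact H_le (by norm_num) (by norm_num) (by linarith only [a7, h5]) (by linarith only [hv', h1, a8]) (by linarith only [hi, a10]) hc' hr

/-- `v.re ≥ u.re + 1/10` -/
theorem far_A {T t : ℝ} {u v w : ℂ} (hx : 33 / 100 ≤ u.re) (hx' : u.re ≤ 36 / 100)
    (hu : u.im = 100 / 27 * T * (6 / 10 - u.re))
    (hK : A1 T t w ∨ Ao T t w ∨ AZ T t w) (hv : v.im = t) (hp : 1 / 10 ≤ v.re - u.re)
    (hv' : v.re ≤ 75 / 100) (hS : 0 ≤ SM 0 u v w) (hr : SinNe (v + w)) :
    S3 1 (-(100 / 27 * T)) u v < 0 + Real.pi * (1 / 2) * (100 / 27 * T) := by
  have e : u.re + (v.re - u.re) = v.re := by ring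
  rcases hK with hK | hK | hK
  · obtain ⟨g2, g3⟩ := H_allf (τ := -188 / 10000) hK (by norm_num) hv hv' hr (by norm_num)
      (by norm_num) (by norm_num)
    obtain ⟨a1, a2, a3, a4, a5, a6, -, -, -, -, -⟩ := hK
    rcases le_total v.re (8 / 10 - 15 / 100) with h' | h'
    · have g := g2 (by linarith only [hx, hp]) h'
      rw [← e] at g
      refine far_core (q := u.re + (v.re - u.re) + 1500 / 10000) (τ := -188 / 10000) hu (by linarith only [hp])
        (by linarith only [hx, hv']) (by linarith only [hx]) (by linarith only [hx']) hv hS ?_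
        (fA1b (by linarith only [hx]) (by linarith only [hx']) (by linarith only [a5]) (by linarith only [a6]) (by linarith only [hp]) (by linarith only [hx, h']) (by linarith only [a1]) (by linarith only [a2]) (by linarith only [a3]) (by linarith only [a4]) (by linarith only [hx, hp]) (by linarith only [h']))
      rw [e] at g ⊢
      rw [show (1500 : ℝ) / 10000 = 15 / 100 by norm_num]
      exact g
    · exact far_core hu (by linarith only [hx', h']) (by linarith only [hx, hv']) (by linarith only [hx]) (by linarith only [hx']) hv hS (g3 h')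
        (fA1c (by linarith only [hx]) (by linarith only [hx']) (by linarith only [a5]) (by linarith only [a6]) (by linarith only [hx', h']) (by linarith only [hx, hv']) (by linarith only [a1]) (by linarith only [a2]) (by linarith only [a3]) (by linarith only [a4]) (by linarith only [h']) (by linarith only [hv']))
  · obtain ⟨g2, g3⟩ := H_allf (τ := 220 / 10000) hK (by norm_num) hv hv' hr (by norm_num)
      (by norm_num) (by norm_num)
    obtain ⟨a1, a2, a3, a4, a5, a6, -, -, -, -, -⟩ := hK
    rcases le_total v.re (8 / 10 - 13 / 100) with h' | h'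
    · have g := g2 (by linarith only [hx, hp]) h'
      rw [← e] at g
      refine far_core (q := u.re + (v.re - u.re) + 1300 / 10000) (τ := 220 / 10000) hu (by linarith only [hp])
        (by linarith only [hx, hv']) (by linarith only [hx]) (by linarith only [hx']) hv hS ?_
        (fAob (by linarith only [hx]) (by linarith only [hx']) (by linarith only [a5]) (by linarith only [a6]) (by linarith only [hp]) (by linarith only [hx, h']) (by linarith only [a1]) (by linarith only [a2]) (by linarith only [a3]) (by linarith only [a4]) (by linarith only [hx, hp]) (by linarith only [h']))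
      rw [e] at g ⊢
      rw [show (1300 : ℝ) / 10000 = 13 / 100 by norm_num]
      exact g
    · exact far_core hu (by linarith only [hx', h']) (by linarith only [hx, hv']) (by linarith only [hx]) (by linarith only [hx']) hv hS (g3 h')
        (fAoc (by linarith only [hx]) (by linarith only [hx']) (by linarith only [a5]) (by linarith only [a6]) (by linarith only [hx', h']) (by linarith only [hx, hv']) (by linarith only [a1]) (by linarith only [a2]) (by linarith only [a3]) (by linarith only [a4]) (by linarith only [h']) (by linarith only [hv']))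
  · obtain ⟨g2, g3⟩ := H_allf (τ := 570 / 10000) hK (by norm_num) hv hv' hr (by norm_num)
      (by norm_num) (by norm_num)
    obtain ⟨a1, a2, a3, a4, a5, a6, -, -, -, -, -⟩ := hK
    rcases le_total v.re (8 / 10 - 13 / 100) with h' | h'
    · have g := g2 (by linarith only [hx, hp]) h'
      rw [← e] at g
      refine far_core (q := u.re + (v.re - u.re) + 1300 / 10000) (τ := 570 / 10000) hu (by linarith only [hp])
        (by linarith only [hx, hv']) (by linarith only [hx]) (by linarith only [hx']) hv hS ?_
        (fAZb (by linarith only [hx]) (by linarith only [hx']) (by linarith only [a5]) (by linarith only [a6]) (by linarith only [hp]) (by linarith only [hx, h']) (by linarith only [a1]) (by linarith only [a2]) (by linarith only [a3]) (by linarith only [a4]) (by linarith only [hx, hp]) (by linarith only [h']))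
      rw [e] at g ⊢
      rw [show (1300 : ℝ) / 10000 = 13 / 100 by norm_num]
      exact g
    · exact far_core hu (by linarith only [hx', h']) (by linarith only [hx, hv']) (by linarith only [hx]) (by linarith only [hx']) hv hS (g3 h')
        (fAZc (by linarith only [hx]) (by linarith only [hx']) (by linarith only [a5]) (by linarith only [a6]) (by linarith only [hx', h']) (by linarith only [hx, hv']) (by linarith only [a1]) (by linarith only [a2]) (by linarith only [a3]) (by linarith only [a4]) (by linarith only [h']) (by linarith only [hv']))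

/-- near `u` -/
theorem near_A {T t : ℝ} {u v w : ℂ} (hx : 33 / 100 ≤ u.re) (hx' : u.re ≤ 36 / 100)
    (hu : u.im = 100 / 27 * T * (6 / 10 - u.re)) (hK : A1 T t w ∨ Ao T t w ∨ AZ T t w)
    (hv : v.im = t)
    (hp : -(9 / 100) ≤ v.re - u.re) (hp' : v.re - u.re ≤ 1 / 10) (hr : SinNe (v - u)) :
    S3 1 (-(100 / 27 * T)) u v < 0 + Real.pi * (1 / 2) * (100 / 27 * T) := by
  have hT : -(530 / 10000) ≤ T ∧ T ≤ 22 / 10000 ∧ -(885 / 10000) ≤ t ∧ t ≤ -(130 / 10000) ∧
      T - t ≤ 535 / 10000 ∧ t - T ≤ 135 / 10000 := by
    rcases hK with g | g | g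
    · exact ⟨g.y0, g.y1.trans (by norm_num), g.t0, g.t1.trans (by norm_num), g.s0,
        g.s1.trans (by norm_num)⟩
    · exact ⟨le_trans (by norm_num) g.y0, g.y1.trans (by norm_num), le_trans (by norm_num) g.t0,
        g.t1, g.s0.trans (by norm_num), g.s1⟩
    · exact ⟨le_trans (by norm_num) g.y0, g.y1, le_trans (by norm_num) g.t0,
        g.t1.trans (by norm_num), g.s0.trans (by norm_num), g.s1.trans (by norm_num)⟩
  obtain ⟨hT, hT', ht, ht', hs, hs'⟩ := hT
  rcases le_total T 0 with hT0 | hT0
  · rcases le_total 0 (v.re - u.re) with h | h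
    · exact near_le (by norm_num) hT0 hu (abs_le.2 ⟨by linarith only [h], by linarith only [hp']⟩) (by norm_num)
        (by linarith only [hx]) (by linarith only [hx']) hv hr ((YY_le_half (by rw [Complex.sub_re]; linarith only [h])
          (by rw [Complex.sub_re]; linarith only [hp'])).trans_eq (by ring)) (by linarith only [h])
        (nA2b (by linarith only [hx]) (by linarith only [hx']) (by linarith only [hT]) (by linarith only [hT0]) (by linarith only [ht]) (by linarith only [ht']) (by linarith only [hs]) (by linarith only [hs']))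
    · refine near_le (κ := Real.pi + NumI.lnB (900 / 10000) (t - rui (100 / 27) u.re T))
        (by norm_num) hT0 hu (abs_le.2 ⟨by linarith only [hp], by linarith only [h]⟩) (by norm_num)
        (by linarith only [hx]) (by linarith only [hx']) hv hr ?_ (by linarith only [hp]) (nA2a (by linarith only [hx]) (by linarith only [hx']) (by linarith only [hT]) (by linarith only [hT0]) (by linarith only [ht]) (by linarith only [ht']) (by linarith only [hs]) (by linarith only [hs']))
      have := YY_le_lnB (u := v - u) (q := 900 / 10000) (abs_le.2 ⟨by rw [Complex.sub_re]; linarith only [hp],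
        by rw [Complex.sub_re]; linarith only [h]⟩) (by norm_num) (by norm_num)
      rwa [Complex.sub_im, hv, hu] at this
  · exact near_ge (by norm_num) hT0 hu (abs_le.2 ⟨by linarith only [hp], by linarith only [hp']⟩) (by norm_num)
      (by linarith only [hx]) (by linarith only [hx']) hv hr (YY_ge_neg (by rw [Complex.sub_re]; linarith only [hp])
        (by rw [Complex.sub_re]; linarith only [hp'])) (by linarith only [hp']) (nA2c (by linarith only [hx]) (by linarith only [hx']) (by linarith only [hT0]) (by linarith only [hT']) (by linarith only [hs, hT0]) (by linarith only [ht']) (by linarith only [hs]) (by linarith only [ht', hT0]))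

/-- **Low branch** -/
theorem low_A {T t : ℝ} {u v w : ℂ} (hx : 33 / 100 ≤ u.re) (hx' : u.re ≤ 36 / 100)
    (hu : u.im = 100 / 27 * T * (6 / 10 - u.re)) (hK : A1 T t w ∨ Ao T t w ∨ AZ T t w)
    (hrh : RH v t (8 / 10) (5 / 100) (5 / 100)) (hl : v.re ≤ u.re - 9 / 100) :
    ∃ c : ℝ, 5 / 100 ≤ c ∧ c ≤ 75 / 100 ∧ ∀ v' : ℂ, v'.re = c → v'.im = t →
      V3 u v w < V3 u v' w := by
  have hr0 := hrh.re0
  have e : u.im = rui (100 / 27) u.re T := hu
  rcases hK with hK | hK
  · obtain ⟨a1, a2, a3, a4, a5, a6, a7, a8, a9, a10, a11⟩ := hK
    have hTu : -(530 / 10000) ≤ u.im := by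
      rw [hu]
      nlinarith only [a5, hx, a2, a3, a6]
    refine ⟨4400 / 10000, by norm_num, by norm_num, low_of hrh rfl (by linarith only [hx', hl])
      (abs_le.2 ⟨by linarith only [a1], by linarith only [a2]⟩) ?_ ?_ ?_ ?_⟩
    · intro h g
      rw [e] at g ⊢
      exact g1n (by linarith only [hx]) (by linarith only [hx']) (by linarith only [a5]) (by linarith only [a6]) (by linarith only [a7]) (by linarith only [a8]) (by linarith only [a9]) (by linarith only [a10]) (by linarith only [h]) (by linarith only [hx', hl]) (by linarith only [a1]) (by linarith only [a2]) (by linarith only [hl]) (by linarith only [a7, a9]) (by linarith only [a3]) (by linarith only [g])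
    · intro h g
      have g1 := hTu.trans g
      rw [e] at g ⊢
      exact g1p (by linarith only [hx]) (by linarith only [hx']) (by linarith only [a5]) (by linarith only [a6]) (by linarith only [a7]) (by linarith only [a8]) (by linarith only [a9]) (by linarith only [a10]) (by linarith only [h]) (by linarith only [hx', hl]) (by linarith only [e, hTu, g]) (by linarith only [a2]) (by linarith only [hl]) (by linarith only [a7, a9]) (by linarith only [a4]) (by linarith only [g])
    · intro h g
      rw [e] at g ⊢
      exact g1rn (by linarith only [hx]) (by linarith only [hx']) (by linarith only [a5]) (by linarith only [a6]) (by linarith only [a7]) (by linarith only [a8]) (by linarith only [a9]) (by linarith only [a10]) (by linarith only [hr0]) (by linarith only [h]) (by linarith only [a1]) (by linarith only [a2]) (by linarith only [a7, a9]) (by linarith only [a3]) (by linarith only [g])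
    · intro h g
      rw [e] at g ⊢
      exact g1rp (by linarith only [hx]) (by linarith only [hx']) (by linarith only [a5]) (by linarith only [a6]) (by linarith only [a7]) (by linarith only [a8]) (by linarith only [a9]) (by linarith only [a10]) (by linarith only [hr0]) (by linarith only [h]) (by linarith only [a1]) (by linarith only [a2]) (by linarith only [a7, a9]) (by linarith only [a4]) (by linarith only [g])
  · have hK' : -(800 / 10000) ≤ t ∧ t ≤ -(130 / 10000) ∧ T - t ≤ 495 / 10000 ∧
        t - T ≤ 135 / 10000 ∧ -(490 / 10000) ≤ T ∧ T ≤ 22 / 10000 ∧ 13 / 100 ≤ w.re ∧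
        w.re ≤ 31 / 100 ∧ -(98 / 1000) ≤ w.im ∧ w.im ≤ 57 / 1000 ∧ -(98 / 130 * w.re) ≤ w.im := by
      rcases hK with hK | hK
      · obtain ⟨a1, a2, a3, a4, a5, a6, a7, a8, a9, a10, a11⟩ := hK
        exact ⟨a1, a2, a3, a4, a5, a6.trans (by norm_num), a7, a8, a9, a10.trans (by norm_num),
          a11⟩
      · obtain ⟨a1, a2, a3, a4, a5, a6, a7, a8, a9, a10, a11⟩ := hK
        exact ⟨le_trans (by norm_num) a1, a2.trans (by norm_num), a3.trans (by norm_num),
          a4.trans (by norm_num), le_trans (by norm_num) a5, a6, a7, a8, a9, a10, a11⟩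
    obtain ⟨a1, a2, a3, a4, a5, a6, a7, a8, a9, a10, a11⟩ := hK'
    have hTu : -(490 / 10000) ≤ u.im := by
      rw [hu]
      nlinarith only [a5, hx, a6, hx']
    refine ⟨4400 / 10000, by norm_num, by norm_num, low_of hrh rfl (by linarith only [hx', hl])
      (abs_le.2 ⟨by linarith only [a1], by linarith only [a2]⟩) ?_ ?_ ?_ ?_⟩
    · intro h g
      rw [e] at g ⊢
      exact gon (by linarith only [hx]) (by linarith only [hx']) (by linarith only [a5]) (by linarith only [a6]) (by linarith only [a7]) (by linarith only [a8]) (by linarith only [a9]) (by linarith only [a10]) (by linarith only [h]) (by linarith only [hx', hl]) (by linarith only [a1]) (by linarith only [a2]) (by linarith only [hl]) (by linarith only [a7, a9]) (by linarith only [a3]) (by linarith only [g])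
    · intro h g
      have g1 := hTu.trans g
      rw [e] at g ⊢
      exact gop (by linarith only [hx]) (by linarith only [hx']) (by linarith only [a5]) (by linarith only [a6]) (by linarith only [a7]) (by linarith only [a8]) (by linarith only [a9]) (by linarith only [a10]) (by linarith only [h]) (by linarith only [hx', hl]) (by linarith only [e, hTu, g]) (by linarith only [a2]) (by linarith only [hl]) (by linarith only [a7, a9]) (by linarith only [a4]) (by linarith only [g])
    · intro h g
      rw [e] at g ⊢
      exact gorn (by linarith only [hx]) (by linarith only [hx']) (by linarith only [a5]) (by linarith only [a6]) (by linarith only [a7]) (by linarith only [a8]) (by linarith only [a9]) (by linarith only [a10]) (by linarith only [hr0]) (by linarith only [h]) (by linarith only [a1]) (by linarith only [a2]) (by linarith only [a7, a9]) (by linarith only [a3]) (by linarith only [g])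
    · intro h g
      rw [e] at g ⊢
      exact gorp (by linarith only [hx]) (by linarith only [hx']) (by linarith only [a5]) (by linarith only [a6]) (by linarith only [a7]) (by linarith only [a8]) (by linarith only [a9]) (by linarith only [a10]) (by linarith only [hr0]) (by linarith only [h]) (by linarith only [a1]) (by linarith only [a2]) (by linarith only [a7, a9]) (by linarith only [a4]) (by linarith only [g])

end S0R

end Pool.Agent.Work.MP_b30479_gt.G2
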