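import Pool.Agent.Work.MP_b30479_gt.G2.WAdj

/-!
# The inner variable of a digit `3` next to a digit `2` at the first slot

The heights, in the frame of the digit `3`, of the inner variable (`t0`, `t1`), of the inner
variable minus the hinge at the first slot (`s0`, `s1`), and of this hinge (`y0`, `y1`).
-/

namespace Pool.Agent.Work.MP_b30479_gt.G2

namespace SR

/-- windows for the inner variable, its difference with the hinge, and the hinge -/
structure MWin where
  t0 : ℝ
  t1 : ℝ
  s0 : ℝ
  s1 : ℝ
  y0 : ℝ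
  y1 : ℝ

/-- the heights `m` of the inner variable and `t` of the hinge are in the windows -/
def MWin.In (c : MWin) (m t : ℝ) : Prop :=
  c.t0 ≤ m ∧ m ≤ c.t1 ∧ c.s0 ≤ m - t ∧ m - t ≤ c.s1 ∧ c.y0 ≤ t ∧ t ≤ c.y1

/-- the windows by the class of the neighbour at the last slot -/
noncomputable def mw2 : Cl → MWin
  | .one => ⟨-(885 / 10000), -(275 / 10000), -(535 / 10000), 40 / 10000, -(530 / 10000),
      -(35 / 10000)⟩
  | .two => ⟨-(800 / 10000), -(220 / 10000), -(495 / 10000), 65 / 10000, -(490 / 10000),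
      -(10 / 10000)⟩
  | .twoE => ⟨-(665 / 10000), -(130 / 10000), -(375 / 10000), 135 / 10000, -(460 / 10000), 0⟩
  | .three => ⟨-(680 / 10000), -(220 / 10000), -(430 / 10000), 50 / 10000, -(440 / 10000),
      5 / 10000⟩
  | .threeE => ⟨-(565 / 10000), -(145 / 10000), -(340 / 10000), 110 / 10000, -(405 / 10000),
      20 / 10000⟩
  | .ring => ⟨-(635 / 10000), -(190 / 10000), -(430 / 10000), 65 / 10000, -(412 / 10000),
      22 / 10000⟩

variable {M : ℕ}

/-- **The inner variable of a digit `3` next to a digit `2` at the first slot.** -/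
structure LocMd (b : Fin (M + 1) → ℤ) (zs : DD (tyW b) ⊕ ZZ (tyW b) → ℂ) : Prop where
  two : ∀ {h h' : Fin M} {i j k : Fin (M + 1)} (hm : (tyW b i).isMid = true), Adj h i 0 j →
    Adj h' i 2 k → clsW b i = .three → clsW b j = .two →
    (mw2 (clsW b k)).In (ofs (b i) (zs (.inl (.inr ⟨i, hm⟩))).im)
      (ofs (b i) (zs (.inl (.inl h))).im)

end SR

end Pool.Agent.Work.MP_b30479_gt.G2
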