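import Pool.Agent.Work.MP_b30479_gt.G2.WS0R
import Pool.Agent.Work.MP_b30479_gt.G2.S0RAG
import Pool.Agent.Work.MP_b30479_gt.G2.WLocM

/-!
# The own side of an interior `3` at slot `0`, `2 | 3`, on `(.33, .36]`, after the floors `F2`

Hypotheses: the hinge in the slot `2` is at least `15/100` next to a `1`, `13/100` else; at most
`39/100` next to a `1`, `31/100` else; and the windows `LocMd`.
-/

namespace Pool.Agent.Work.MP_b30479_gt.G2

open Finset VOL Filter Topology S0R

namespace SR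

variable {M : ℕ} {b : Fin (M + 1) → ℤ} {zs : DD (tyW b) ⊕ ZZ (tyW b) → ℂ}
variable {y : DD (tyW b) ⊕ ZZ (tyW b) → ℝ}
variable {h h' : Fin M} {i j k j' : Fin (M + 1)} {p : Fin 3}

/-- the hinge in the slot `2` of an interior `3` next to a `1`, at least `15/100` -/
theorem Adj.s0a_w1 (A : Adj h i 2 k) (hb : ClassW b) (hL : Loc b zs) (hy : Mx b zs y)
    (hi : clsW b i = .three) (hk : clsW b k = .one) (h7 : 15 / 100 ≤ y (.inl (.inl h)))
    (hc : y (.inl (.inl h)) ≤ 39 / 100) : (Yw b zs y i 2).im ≤ -(188 / 10000) := by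
  have hop := A.opp hb (Or.inl (by rw [hi]; decide))
  obtain ⟨-, -, h3, h4⟩ := A.box hb hL
  rw [hi, hk, A.ss hop] at h3 h4
  simp only [hbox] at h3 h4
  obtain ⟨e1, e2, e3⟩ := (A.s0r_par2 hi).1 hk
  have hrh := A.rh hy
  have hre := A.re (b := b) (zs := zs) (y := y)
  rw [e1, e2, e3] at hrh
  rcases le_total (Yw b zs y i 2).re (65 / 100 - 29 / 100) with h2 | h2
  · rw [MR.RH_flat hrh (by norm_num) (by norm_num) (by rw [hre]; exact h7) h2]
    linarith only [h4]
  · rw [MR.RH_right hrh (by norm_num) (by norm_num) (by norm_num) h2]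
    have : 26 / 29 ≤ (65 / 100 - (Yw b zs y i 2).re) / (29 / 100) := by
      rw [le_div_iff₀ (by norm_num), hre]
      linarith only [hc]
    nlinarith only [hc, h4, hre, h3]

/-- the windows -/
theorem s0a_W (hb : ClassW b) (hL : Loc b zs) (hD : LocMd b zs) (hy : Mx b zs y)
    (A : Adj h i 0 j) (A' : Adj h' i 2 k) (hi : clsW b i = .three) (hj : clsW b j = .two)
    (h1 : clsW b k = .one → 15 / 100 ≤ y (.inl (.inl h')) ∧ y (.inl (.inl h')) ≤ 39 / 100)
    (h2 : clsW b k ≠ .one → 13 / 100 ≤ y (.inl (.inl h')) ∧ y (.inl (.inl h')) ≤ 31 / 100) :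
    S0R.A1 (ofs (b i) (zs (.inl (.inl h))).im) (tW zs (Or.inl hi)) (Yw b zs y i 2) ∨
      S0R.Ao (ofs (b i) (zs (.inl (.inl h))).im) (tW zs (Or.inl hi)) (Yw b zs y i 2) ∨
      S0R.AZ (ofs (b i) (zs (.inl (.inl h))).im) (tW zs (Or.inl hi)) (Yw b zs y i 2) := by
  have hre := A'.re (b := b) (zs := zs) (y := y)
  have hw : (mw2 (clsW b k)).In (tW zs (Or.inl hi)) (ofs (b i) (zs (.inl (.inl h))).im) :=
    hD.two (tyW_isMid (Or.inl hi)) A A' hi hj
  obtain ⟨w1, w2, w3, w4, w5, w6⟩ := hw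
  by_cases hk : clsW b k = .one
  · obtain ⟨f1, f2⟩ := h1 hk
    obtain ⟨g1, -, g3⟩ := A'.s0r_w1 hb hL hy hi hk (by linarith only [f1]) f2
    have g2 := A'.s0a_w1 hb hL hy hi hk f1 f2
    rw [hk] at w1 w2 w3 w4 w5 w6
    simp only [mw2] at w1 w2 w3 w4 w5 w6
    exact Or.inl ⟨by linarith only [hi, w1], by linarith only [hi, w2], by linarith only [hi, w3], by linarith only [hi, w4], by linarith only [w5], by linarith only [w6],
      by rw [hre]; exact f1, by rw [hre]; exact f2, g1, g2, g3⟩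
  · obtain ⟨f1, f2⟩ := h2 hk
    obtain ⟨g1, g2, g3, g4, -⟩ := A'.s0r_wo hb hL hy hi hk
    by_cases hk' : clsW b k = .ring
    · rw [hk'] at w1 w2 w3 w4 w5 w6
      simp only [mw2] at w1 w2 w3 w4 w5 w6
      exact Or.inr (Or.inr ⟨by linarith only [hi, w1], by linarith only [hi, w2], by linarith only [hi, w3], by linarith only [hi, w4], by linarith only [w5],
        by linarith only [w6], by rw [hre]; exact f1, by rw [hre]; exact f2, g1, g3, g4⟩)
    · have m1 : -(800 / 10000) ≤ (mw2 (clsW b k)).t0 ∧ (mw2 (clsW b k)).t1 ≤ -(130 / 10000) ∧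
          -(495 / 10000) ≤ (mw2 (clsW b k)).s0 ∧ (mw2 (clsW b k)).s1 ≤ 135 / 10000 ∧
          -(490 / 10000) ≤ (mw2 (clsW b k)).y0 ∧ (mw2 (clsW b k)).y1 ≤ 20 / 10000 := by
        generalize clsW b k = C at hk hk'
        cases C <;> first | exact absurd rfl hk | exact absurd rfl hk' | norm_num [mw2]
      obtain ⟨m1, m2, m3, m4, m5, m6⟩ := m1
      exact Or.inr (Or.inl ⟨by linarith only [hi, w1, m1], by linarith only [hi, w2, m2], by linarith only [hi, w3, m3], by linarith only [hi, w4, m4], by linarith only [w5, m5],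
        by linarith only [w6, m6], by rw [hre]; exact f1, by rw [hre]; exact f2, g1, g2 hk', g4⟩)

/-- **`2 | 3`**: the side of the `3` on the right ramp, `x` in `(.33, .36]`, after the floors
`F2` -/
theorem s0a_two (hb : ClassW b) (hL : Loc b zs) (hX : LocX b zs) (hD : LocMd b zs)
    (hy : Mx b zs y) (hpos : ∀ h : Fin M, 0 < y (.inl (.inl h))) (A : Adj h i 0 j)
    (A' : Adj h' i 2 k) (hi : clsW b i = .three) (hj : clsW b j = .two)
    (h1 : clsW b k = .one → 15 / 100 ≤ y (.inl (.inl h')) ∧ y (.inl (.inl h')) ≤ 39 / 100)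
    (h2 : clsW b k ≠ .one → 13 / 100 ≤ y (.inl (.inl h')) ∧ y (.inl (.inl h')) ≤ 31 / 100)
    (hx0 : 33 / 100 < y (.inl (.inl h))) (hx1 : y (.inl (.inl h)) ≤ 36 / 100) :
    Sw b zs y i 0 (slL b zs y h) + Real.pi / 2 * ofs (b i) (slL b zs y h) < 0 := by
  obtain ⟨q1, q2, q3⟩ := A.par_s0_two hi hj
  have hre := A.re (b := b) (zs := zs) (y := y)
  have hK := s0a_W hb hL hD hy A A' hi hj h1 h2
  have h7 : 7 / 100 ≤ y (.inl (.inl h')) := by
    by_cases hk : clsW b k = .one
    · linarith only [h1, hk, (h1 hk).1]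
    · linarith only [h2, hk, (h2 hk).1]
  have hc : y (.inl (.inl h')) ≤ cap2 (clsW b k) := by
    by_cases hk : clsW b k = .one
    · rw [hk]
      exact (h1 hk).2
    · refine (h2 hk).2.trans ?_
      generalize clsW b k = C
      cases C <;> norm_num [cap2]
  obtain ⟨-, hR, -⟩ := s0r_KW hb hL hX hy A A' hi (by rw [hj]; decide) (by rw [hj]; decide) h7 hc
  have hv := rh_three hy hi
  have hu : (Yw b zs y i 0).im = 100 / 27 * ofs (b i) (zs (.inl (.inl h))).im *
      (6 / 10 - (Yw b zs y i 0).re) := by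
    rw [A.h27l hy q1 q2 (by rw [q3]; norm_num) hx0.le]
    unfold V2A.h27
    ring
  have hsl : ofs (b i) (slL b zs y h) = -(100 / 27 * ofs (b i) (zs (.inl (.inl h))).im) := by
    rw [ofs_slL_ramp _ (by rw [q1, q2]; linarith only [hx0]), q2]
    ring
  have hval := s0r_val hb hy hi
  have hlow : y (.inl (.inl h)) - 9 / 100 < (OY b zs y i 1).re := by
    by_contra hcon
    push Not at hcon
    obtain ⟨c, c0, c1, c2⟩ := low_A (by rw [hre]; exact hx0.le) (by rw [hre]; exact hx1) hu hK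
      hv (by rw [hre]; exact hcon)
    exact absurd (hval c c0 c1 ⟨c, tW zs (Or.inl hi)⟩ rfl rfl) (not_le.2 (c2 _ rfl rfl))
  obtain ⟨m1, m2, r1, r2⟩ := s0r_mid hb hy hpos hi (by linarith only [hx0, hlow])
  have hT : -(530 / 10000) ≤ ofs (b i) (zs (.inl (.inl h))).im ∧
      ofs (b i) (zs (.inl (.inl h))).im ≤ 22 / 10000 := by
    rcases hK with g | g | g
    · exact ⟨g.y0, g.y1.trans (by norm_num)⟩
    · exact ⟨le_trans (by norm_num) g.y0, g.y1.trans (by norm_num)⟩
    · exact ⟨le_trans (by norm_num) g.y0, g.y1⟩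
  have key : S3 1 (-(100 / 27 * ofs (b i) (zs (.inl (.inl h))).im)) (Yw b zs y i 0)
      (OY b zs y i 1) < 0 + Real.pi * (1 / 2) *
        (100 / 27 * ofs (b i) (zs (.inl (.inl h))).im) := by
    rcases le_or_gt (OY b zs y i 1).re (75 / 100) with g1 | g1
    · have hfl := V2A.mid_flat hv (by linarith only [hx0, hlow]) g1
      rcases le_total ((OY b zs y i 1).re - (Yw b zs y i 0).re) (1 / 10) with g2 | g2
      · exact near_A (by rw [hre]; exact hx0.le) (by rw [hre]; exact hx1) hu hK hfl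
          (by rw [hre]; linarith only [hlow]) g2 r2
      · exact far_A (by rw [hre]; exact hx0.le) (by rw [hre]; exact hx1) hu hK hfl g2 g1
          (m1 (by linarith only [hx0, hre, g2]) g1) r1
    · exfalso
      refine no_ramp (s := 8 / 10 - (OY b zs y i 1).re) (by rw [hre]; linarith only [hx0])
        (by rw [hre]; linarith only [hx1]) ?_ hR (by ring) ?_ (by linarith only [hi, hv, hv.reM]) (by linarith only [g1]) (m2 g1)
        hval r1
      · obtain ⟨t1, t2⟩ := hT
        rw [hu, abs_le]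
        constructor <;> nlinarith only [hx1, hre, t1, hx0, t2]
      · rw [V2A.mid_right hv g1.le]
        ring
  rw [A.side_three_zero hb hi, ← OY_mid (Or.inl hi), hsl]
  linarith only [key]

end SR

end Pool.Agent.Work.MP_b30479_gt.G2
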