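import Pool.Agent.Work.MP_b30479_gt.G2.WCap22
import Pool.Agent.Work.MP_b30479_gt.G2.WValH
import Pool.Agent.Work.MP_b30479_gt.G2.WLocX
import Pool.Agent.Work.MP_b30479_gt.G2.C12V

/-!
# Caps of the hinges between a digit `1` and a digit `2`
-/

set_option linter.unusedSimpArgs false

namespace Pool.Agent.Work.MP_b30479_gt.G2

open Finset VOL Filter Topology NumU

/-! ### gains of the values -/

theorem V1_gain (c T : ℝ) (w v : ℂ) : V1 (c + (T : ℂ) * Complex.I) v - V1 w v =
    C12.g1 c T w.re w.im v.re v.im (uu (c + v.re) (T + v.im)) (uu (w.re + v.re) (w.im + v.im)) := by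
  unfold V1 C12.g1
  rw [UU_uu (c + (T : ℂ) * Complex.I + v), UU_uu (c + (T : ℂ) * Complex.I), UU_uu (w + v), UU_uu w]
  simp only [Complex.add_re, Complex.add_im, Complex.sub_im, Complex.mul_im, Complex.mul_re,
    Complex.ofReal_re, Complex.ofReal_im, Complex.I_re, Complex.I_im, mul_zero, mul_one, zero_mul,
    add_zero, zero_add, sub_zero, sub_self]
  ring

theorem V2_gain (c T : ℝ) (w v : ℂ) :
    V2 (c + ((-T : ℝ) : ℂ) * Complex.I) v - V2 (starRingEnd ℂ w) v =
    C12.g2 c T w.re w.im v.re v.im (uu (c + v.re) (v.im - T)) (uu (w.re + v.re) (v.im - w.im)) := by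
  unfold V2 C12.g2
  rw [UU_uu (c + ((-T : ℝ) : ℂ) * Complex.I + v), UU_uu (c + ((-T : ℝ) : ℂ) * Complex.I),
    UU_uu (starRingEnd ℂ w + v), UU_uu (starRingEnd ℂ w)]
  simp only [Complex.add_re, Complex.add_im, Complex.sub_im, Complex.sub_re, Complex.mul_im,
    Complex.mul_re, Complex.ofReal_re, Complex.ofReal_im, Complex.I_re, Complex.I_im, mul_zero,
    mul_one, zero_mul, add_zero, zero_add, sub_zero, sub_self, pow_two, Complex.conj_re,
    Complex.conj_im]
  rw [uu_neg, uu_neg, show -T + v.im = v.im - T by ring, show -w.im + v.im = v.im - w.im by ring]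
  ring

/-! ### bounds on a path -/

theorem RH_bd {w : ℂ} {T XM cl cr : ℝ} (B C : ℝ) (h : RH w T XM cl cr) (hc : 0 < cl)
    (hc' : 0 < cr) (hB : 0 ≤ B) (hC : 0 ≤ C) (h1 : T ≤ B) (h2 : -T ≤ C) :
    (w.im ≤ B ∧ w.im * cl ≤ B * w.re ∧ w.im * cr ≤ B * (XM - w.re)) ∧
      (-w.im ≤ C ∧ -w.im * cl ≤ C * w.re ∧ -w.im * cr ≤ C * (XM - w.re)) ∧
      (w.im ≤ T ∨ w.im ≤ 0) ∧ (0 ≤ T → 0 ≤ w.im) := by
  have hre := h.re0
  have hM := h.reM
  have t0 : 0 ≤ tr 0 XM cl cr w.re := le_max_left _ _
  have t1 : tr 0 XM cl cr w.re ≤ 1 := max_le zero_le_one (min_le_left _ _)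
  have t2 : tr 0 XM cl cr w.re * cl ≤ w.re := by
    have : tr 0 XM cl cr w.re ≤ w.re / cl := by
      refine max_le (by positivity) ((min_le_right _ _).trans ((min_le_left _ _).trans ?_))
      rw [sub_zero]
    rwa [le_div_iff₀ hc] at this
  have t3 : tr 0 XM cl cr w.re * cr ≤ XM - w.re := by
    have : tr 0 XM cl cr w.re ≤ (XM - w.re) / cr :=
      max_le (div_nonneg (by linarith only [hM]) hc'.le) ((min_le_right _ _).trans (min_le_right _ _))
    rwa [le_div_iff₀ hc'] at this
  rw [h.im]
  generalize tr 0 XM cl cr w.re = τ at t0 t1 t2 t3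
  have a1 : T * τ ≤ B * τ := mul_le_mul_of_nonneg_right h1 t0
  have a2 : B * τ ≤ B := by nlinarith only [hB, t1]
  have b1 : -T * τ ≤ C * τ := mul_le_mul_of_nonneg_right h2 t0
  have b2 : C * τ ≤ C := by nlinarith only [hC, t1]
  refine ⟨⟨a1.trans a2, ?_, ?_⟩, ⟨by linarith only [b1, b2], ?_, ?_⟩, ?_, fun h => mul_nonneg h t0⟩
  · have c1 := mul_le_mul_of_nonneg_right a1 hc.le
    have c2 := mul_le_mul_of_nonneg_left t2 hB
    linarith only [c1, c2]
  · have c1 := mul_le_mul_of_nonneg_right a1 hc'.le
    have c2 := mul_le_mul_of_nonneg_left t3 hB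
    linarith only [c1, c2]
  · have c1 := mul_le_mul_of_nonneg_right b1 hc.le
    have c2 := mul_le_mul_of_nonneg_left t2 hC
    linarith only [c1, c2]
  · have c1 := mul_le_mul_of_nonneg_right b1 hc'.le
    have c2 := mul_le_mul_of_nonneg_left t3 hC
    linarith only [c1, c2]
  · rcases le_total 0 T with h | h
    · left; nlinarith only [t1, h]
    · right; exact mul_nonpos_of_nonpos_of_nonneg h t0

namespace SR

/-- window of the hinge `1 | 2` and of the other hinge of the digit `1` -/
theorem r1_core {P Q : Cl} {p' : Fin 3} {T T' : ℝ} {w : ℂ}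
    (hrh : RH w T' (hpp p' .two .one P Q).XM (hpp p' .two .one P Q).cl (hpp p' .two .one P Q).cr)
    (a0 : (cw P .two).t0 ≤ T) (a1 : T ≤ (cw P .two).t1) (a2 : T + T' ≤ (cw P .two).s1)
    (b0 : (cw .two P).t0 ≤ T') (b1 : T' ≤ (cw .two P).t1) (hF : 7 / 100 ≤ w.re)
    (h11 : P = .one → w.re ≤ 70 / 100) :
    C12.R1 T w.re w.im ∧ (P ≠ .ring → C12.R1P T w.re w.im) := by
  have hM := hrh.reM
  cases P
  case one =>
    have e1 : (hpp p' .two .one .one Q).XM ≤ 86 / 100 := by
      unfold hpp hp; split_ifs <;> simp only [] <;> norm_num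
    have e2 : (hpp p' .two .one .one Q).cl = 15 / 100 := by
      unfold hpp hp; split_ifs <;> rfl
    have e3 : (hpp p' .two .one .one Q).cr = 20 / 100 := by
      unfold hpp hp; split_ifs <;> rfl
    rw [e2, e3] at hrh
    simp only [cw] at a0 a1 a2 b0 b1
    have h7 := h11 rfl
    obtain ⟨⟨c1, c2, c3⟩, ⟨d1, d2, d3⟩, g, g'⟩ := RH_bd (54 / 1000) (93 / 1000) hrh (by norm_num)
      (by norm_num) (by norm_num) (by norm_num) (by linarith only [b1]) (by linarith only [b0])
    have hR : C12.R1 T w.re w.im := ⟨by linarith only [a0], by linarith only [a1], by linarith only [hF], by linarith only [hM, e1, h7],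
      by linarith only [d1], by linarith only [c1], by rcases g with g | g <;> linarith only [a1, c1, g], by linarith only [hF, c2], by linarith only [d2],
      by linarith only [hM, e1, c3], by linarith only [e1, d3], fun h => by linarith only [h7, h]⟩
    exact ⟨hR, fun _ => ⟨hR, by rcases g with g | g <;> linarith only [a1, c1, g], by linarith only [c1], by linarith only [hF, c2]⟩⟩
  case two =>
    have e : hpp p' .two .one .two Q = ⟨80 / 100, 16 / 100, 29 / 100⟩ := by
      unfold hpp hp hp1; split_ifs <;> rfl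
    rw [e] at hrh hM
    simp only [cw] at a0 a1 a2 b0 b1 hrh hM
    obtain ⟨⟨c1, c2, c3⟩, ⟨d1, d2, d3⟩, g, g'⟩ := RH_bd (79 / 1000) 0 hrh (by norm_num)
      (by norm_num) (by norm_num) (by norm_num) (by linarith only [b1]) (by linarith only [b0])
    have g'' := g' (by linarith only [b0])
    have hR : C12.R1 T w.re w.im := ⟨by linarith only [a0], by linarith only [a1], by linarith only [hF], by linarith only [hM],
      by linarith only [d1], by linarith only [c1], by rcases g with g | g <;> linarith only [a1, c1, g], by linarith only [hF, c2], by linarith only [hF, d1],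
      by linarith only [hM, c3], by linarith only [hM, d1], fun h => ⟨by linarith only [d1], by linarith only [hM, c3], by linarith only [a0], by linarith only [a1],
        by rcases g with g | g <;> linarith only [a1, c3, h]⟩⟩
    exact ⟨hR, fun _ => ⟨hR, by rcases g with g | g <;> linarith only [a2, g, a1], by linarith only [c1], by linarith only [hF, c2]⟩⟩
  case twoE =>
    have e : hpp p' .two .one .twoE Q = ⟨70 / 100, 14 / 100, 35 / 100⟩ := by
      unfold hpp hp hp1; split_ifs <;> rfl
    rw [e] at hrh hM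
    simp only [cw] at a0 a1 a2 b0 b1 hrh hM
    obtain ⟨⟨c1, c2, c3⟩, ⟨d1, d2, d3⟩, g, g'⟩ := RH_bd 0 (49 / 1000) hrh (by norm_num)
      (by norm_num) (by norm_num) (by norm_num) (by linarith only [b1]) (by linarith only [b0])
    have hR : C12.R1 T w.re w.im := ⟨by linarith only [a0], by linarith only [a1], by linarith only [hF], by linarith only [hM],
      by linarith only [d1], by linarith only [c1], by rcases g with g | g <;> linarith only [a2, g, a1, c1], by linarith only [hF, c1], by linarith only [hF, d1, d2],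
      by linarith only [hM, c1], by linarith only [hM, d1], fun h => by linarith only [hM, h]⟩
    exact ⟨hR, fun _ => ⟨hR, by rcases g with g | g <;> linarith only [a2, g, a1, c1], by linarith only [c1], by linarith only [hF, c1]⟩⟩
  case three =>
    have e1 : (hpp p' .two .one .three Q).XM = 65 / 100 := by
      unfold hpp hp hp1; split_ifs <;> rfl
    have e2 : 13 / 100 ≤ (hpp p' .two .one .three Q).cl := by
      unfold hpp hp hp1; split_ifs <;> simp only [] <;> norm_num
    have e3 : 15 / 100 ≤ (hpp p' .two .one .three Q).cr := by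
      unfold hpp hp hp1; split_ifs <;> simp only [] <;> norm_num
    rw [e1] at hrh hM
    simp only [cw] at a0 a1 a2 b0 b1
    obtain ⟨⟨c1, c2, c3⟩, ⟨d1, d2, d3⟩, g, g'⟩ := RH_bd (94 / 1000) 0 hrh (by linarith only [e2])
      (by linarith only [e3]) (by norm_num) (by norm_num) (by linarith only [b1]) (by linarith only [b0])
    have g'' := g' (by linarith only [b0])
    have c2' : w.im * (13 / 100) ≤ 94 / 1000 * w.re :=
      (mul_le_mul_of_nonneg_left e2 g'').trans c2
    have c3' : w.im * (15 / 100) ≤ 94 / 1000 * (65 / 100 - w.re) :=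
      (mul_le_mul_of_nonneg_left e3 g'').trans c3
    have hR : C12.R1 T w.re w.im := ⟨by linarith only [a0], by linarith only [a1], by linarith only [hF], by linarith only [hM],
      by linarith only [d1], by linarith only [c1], by rcases g with g | g <;> linarith only [a1, c1, g], by linarith only [hF, c2'], by linarith only [hF, d1],
      by linarith only [c1, c3'], by linarith only [hM, d1], fun h => by linarith only [hM, h]⟩
    exact ⟨hR, fun _ => ⟨hR, by rcases g with g | g <;> linarith only [a2, g, a1], by linarith only [c1], by linarith only [c2']⟩⟩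
  case threeE =>
    have e : hpp p' .two .one .threeE Q = ⟨60 / 100, 14 / 100, 25 / 100⟩ := by
      unfold hpp hp hp1; split_ifs <;> rfl
    rw [e] at hrh hM
    simp only [cw] at a0 a1 a2 b0 b1 hrh hM
    obtain ⟨⟨c1, c2, c3⟩, ⟨d1, d2, d3⟩, g, g'⟩ := RH_bd (59 / 1000) 0 hrh (by norm_num)
      (by norm_num) (by norm_num) (by norm_num) (by linarith only [b1]) (by linarith only [b0])
    have hR : C12.R1 T w.re w.im := ⟨by linarith only [a0], by linarith only [a1], by linarith only [hF], by linarith only [hM],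
      by linarith only [d1], by linarith only [c1], by rcases g with g | g <;> linarith only [a1, c1, g], by linarith only [hF, c2], by linarith only [hF, d1],
      by linarith only [hM, c1], by linarith only [hM, d1], fun h => by linarith only [hM, h]⟩
    exact ⟨hR, fun _ => ⟨hR, by rcases g with g | g <;> linarith only [a1, a2, c1, g], by linarith only [c1], by linarith only [hF, c2]⟩⟩
  case ring =>
    have e1 : (hpp p' .two .one .ring Q).XM = 65 / 100 := by
      unfold hpp hp hp1; split_ifs <;> rfl
    have e2 : (hpp p' .two .one .ring Q).cl = 16 / 100 := by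
      unfold hpp hp hp1; split_ifs <;> rfl
    have e3 : 29 / 100 ≤ (hpp p' .two .one .ring Q).cr := by
      unfold hpp hp hp1; split_ifs <;> simp only [] <;> norm_num
    rw [e1, e2] at hrh
    rw [e1] at hM
    simp only [cw] at a0 a1 a2 b0 b1
    obtain ⟨⟨c1, c2, c3⟩, ⟨d1, d2, d3⟩, g, g'⟩ := RH_bd (145 / 1000) 0 hrh (by linarith only [])
      (by linarith only [e3]) (by norm_num) (by norm_num) (by linarith only [b1]) (by linarith only [b0])
    have g'' := g' (by linarith only [b0])
    have c3' : w.im * (29 / 100) ≤ 145 / 1000 * (65 / 100 - w.re) :=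
      (mul_le_mul_of_nonneg_left e3 g'').trans c3
    have hR : C12.R1 T w.re w.im := ⟨by linarith only [a0], by linarith only [a1], by linarith only [hF], by linarith only [hM],
      by linarith only [d1], by linarith only [c1], by rcases g with g | g <;> linarith only [a2, g, a1], by linarith only [c2], by linarith only [hF, d1],
      by linarith only [c1, c3'], by linarith only [hM, d1], fun h => by linarith only [hM, h]⟩
    exact ⟨hR, fun h => absurd rfl h⟩

/-- the other hinge of the digit `2` -/
theorem r2_core {C Q : Cl} {p' : Fin 3} {T T' : ℝ} {w : ℂ}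
    (hrh : RH w T' (hpp p' .one .two C Q).XM (hpp p' .one .two C Q).cl (hpp p' .one .two C Q).cr)
    (a0 : -(18 / 1000) ≤ T) (a1 : T ≤ 985 / 10000)
    (b0 : (hbox .two C false).t0 ≤ T') (b1 : T' ≤ (hbox .two C false).t1) (hF : 7 / 100 ≤ w.re) :
    C12.R2 T w.re w.im := by
  have hM := hrh.reM
  cases C
  case one =>
    have e : hpp p' .one .two .one Q = ⟨80 / 100, 16 / 100, 29 / 100⟩ := by
      unfold hpp hp hp1; split_ifs <;> rfl
    rw [e] at hrh hM
    simp only [hbox] at b0 b1 hrh hM
    obtain ⟨⟨c1, c2, c3⟩, ⟨d1, d2, d3⟩, -⟩ := RH_bd (18 / 1000) (985 / 10000) hrh (by norm_num)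
      (by norm_num) (by norm_num) (by norm_num) (by linarith only [b1]) (by linarith only [b0])
    exact ⟨a0, a1, hF, by linarith only [hM], by linarith only [d1], by linarith only [c1], by linarith only [hF, c2], by linarith only [hF, d2],
      fun _ => by linarith, fun _ => by linarith only [hM, c3], by linarith only [hM, d3]⟩
  case two =>
    have e : hpp p' .one .two .two Q = ⟨60 / 100, 10 / 100, 28 / 100⟩ := by
      unfold hpp hp; split_ifs <;> rfl
    rw [e] at hrh hM
    simp only [hbox] at b0 b1 hrh hM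
    obtain ⟨⟨c1, c2, c3⟩, ⟨d1, d2, d3⟩, -⟩ := RH_bd (41 / 1000) (41 / 1000) hrh (by norm_num)
      (by norm_num) (by norm_num) (by norm_num) (by linarith only [b1]) (by linarith only [b0])
    exact ⟨a0, a1, hF, by linarith only [hM], by linarith only [d1], by linarith only [c1], by linarith only [hF, c2], by linarith only [hF, d1],
      fun _ => by linarith only [hM, c3], fun _ => by linarith, by linarith only [hM, d1]⟩
  case twoE =>
    have e : hpp p' .one .two .twoE Q = ⟨60 / 100, 10 / 100, 33 / 100⟩ := by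
      unfold hpp hp; split_ifs <;> rfl
    rw [e] at hrh hM
    simp only [hbox] at b0 b1 hrh hM
    obtain ⟨⟨c1, c2, c3⟩, ⟨d1, d2, d3⟩, -⟩ := RH_bd 0 (85 / 1000) hrh (by norm_num)
      (by norm_num) (by norm_num) (by norm_num) (by linarith only [b1]) (by linarith only [b0])
    exact ⟨a0, a1, hF, by linarith only [hM], by linarith only [d1], by linarith only [c1], by linarith only [hF, c1], by linarith only [hF, d2],
      fun _ => by linarith only [hM, c1], fun _ => by linarith only [hM, c1], by linarith only [hM, d3]⟩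
  case three =>
    have e1 : (hpp p' .one .two .three Q).XM = 60 / 100 := by
      unfold hpp hp; split_ifs <;> rfl
    have e2 : 12 / 100 ≤ (hpp p' .one .two .three Q).cl := by
      unfold hpp hp; split_ifs <;> simp only [] <;> norm_num
    have e3 : 27 / 100 ≤ (hpp p' .one .two .three Q).cr := by
      unfold hpp hp; split_ifs <;> simp only [] <;> norm_num
    rw [e1] at hrh hM
    simp only [hbox] at b0 b1
    obtain ⟨⟨c1, c2, c3⟩, ⟨d1, d2, d3⟩, -⟩ := RH_bd (57 / 1000) (5 / 1000) hrh (by linarith only [e2])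
      (by linarith only [e3]) (by norm_num) (by norm_num) (by linarith only [b1]) (by linarith only [b0])
    have c2' : w.im ≤ 57 / 120 * w.re := by
      rcases le_total 0 w.im with h | h
      · have := (mul_le_mul_of_nonneg_left e2 h).trans c2
        linarith only [this]
      · linarith only [hF, h]
    have c3' : w.im ≤ 57 / 270 * (60 / 100 - w.re) := by
      rcases le_total 0 w.im with h | h
      · have := (mul_le_mul_of_nonneg_left e3 h).trans c3
        linarith only [this]
      · linarith only [hM, h]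
    have d2' : -w.im ≤ 5 / 120 * w.re := by
      rcases le_total 0 (-w.im) with h | h
      · have := (mul_le_mul_of_nonneg_left e2 h).trans d2
        linarith only [this]
      · linarith only [hF, d1, h]
    have d3' : -w.im ≤ 5 / 270 * (60 / 100 - w.re) := by
      rcases le_total 0 (-w.im) with h | h
      · have := (mul_le_mul_of_nonneg_left e3 h).trans d3
        linarith only [this]
      · linarith only [hM, h]
    exact ⟨a0, a1, hF, by linarith only [hM], by linarith only [d1], by linarith only [c1], by linarith only [hF, c2'], by linarith only [hF, d1],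
      fun _ => by linarith only [hM, c3'], fun _ => by linarith, by linarith only [hM, d1]⟩
  case threeE =>
    have e : hpp p' .one .two .threeE Q = ⟨60 / 100, 10 / 100, 30 / 100⟩ := by
      unfold hpp hp; split_ifs <;> rfl
    rw [e] at hrh hM
    simp only [hbox] at b0 b1 hrh hM
    obtain ⟨⟨c1, c2, c3⟩, ⟨d1, d2, d3⟩, -⟩ := RH_bd (26 / 1000) (13 / 1000) hrh (by norm_num)
      (by norm_num) (by norm_num) (by norm_num) (by linarith only [b1]) (by linarith only [b0])
    exact ⟨a0, a1, hF, by linarith only [hM], by linarith only [d1], by linarith only [c1], by linarith only [hF, c2], by linarith only [hF, d1],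
      fun _ => by linarith only [hM, c3], fun _ => by linarith, by linarith only [hM, d1]⟩
  case ring =>
    have e : hpp p' .one .two .ring Q = ⟨60 / 100, 125 / 1000, 30 / 100⟩ := by
      unfold hpp hp; split_ifs <;> rfl
    rw [e] at hrh hM
    simp only [hbox] at b0 b1 hrh hM
    obtain ⟨⟨c1, c2, c3⟩, ⟨d1, d2, d3⟩, -⟩ := RH_bd (96 / 1000) 0 hrh (by norm_num)
      (by norm_num) (by norm_num) (by norm_num) (by linarith only [b1]) (by linarith only [b0])
    exact ⟨a0, a1, hF, by linarith only [hM], by linarith only [d1], by linarith only [c1], by linarith only [c2], by linarith only [hF, d1],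
      fun _ => by linarith only [c3], fun _ => by linarith, by linarith only [hM, d1]⟩

variable {M : ℕ} {b : Fin (M + 1) → ℤ} {zs : DD (tyW b) ⊕ ZZ (tyW b) → ℂ}
variable {y : DD (tyW b) ⊕ ZZ (tyW b) → ℝ}
variable {h h' : Fin M} {i j j' : Fin (M + 1)} {p : Fin 3}

theorem Adj.OY_Yw (A : Adj h i p j) : OY b zs y i p = Yw b zs y i p := by
  rcases A.slot with h0 | h0
  · rw [h0]; exact OY_zero _
  · rw [h0]; exact OY_two _

theorem OY_endOk1 (i : Fin (M + 1)) : EndOk i (OY b zs y i) := Ow_endOk _ i

/-- the total gain of a value move at a hinge `1 | 2` is not positive at a maximiser -/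
theorem gain_12 (hb : ClassW b) (hy : Mx b zs y) (A : Adj h i p j) (A' : Adj h' i p.rev j')
    (hi : clsW b i = .one) (hj : clsW b j = .two) {c : ℝ} (h0 : 16 / 100 ≤ c) (h1 : c ≤ 51 / 100)
    (hcl : wcl b h = 16 / 100) (hcr : wcr b h = 29 / 100) (hXM : wXM b h = 80 / 100)
    {T : ℝ} (hT : ofs (b i) (zs (.inl (.inl h))).im = T)
    (him : (Yw b zs y i p).im = C12.tt T (y (.inl (.inl h)))) :
    C12.gn1 c (y (.inl (.inl h))) T (Yw b zs y i p.rev).re (Yw b zs y i p.rev).im +
      C12.gn2 c (y (.inl (.inl h))) T (Yw b zs y j p).re (Yw b zs y j p).im ≤ 0 := by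
  have hop := A.opp hb (Or.inl (by rw [hi]; decide))
  have hv := val_hinge hb hy A (c := c) (by linarith only [h0]) (by rw [hXM]; linarith only [h1])
  have hpp : p.rev.rev = p := Fin.rev_rev p
  rw [dV_one hb A hi, dV_two hb A.symm (Or.inl hj) (OY_endOk1 j), A.OY_Yw, A.symm.OY_Yw, A'.OY_Yw,
    pw_flat _ _ (by rw [hcl]; exact h0) (by rw [hXM, hcr]; linarith only [h1]),
    pw_flat _ _ (by rw [hcl]; exact h0) (by rw [hXM, hcr]; linarith only [h1]), hpp, ofs_opp hop, hT,
    A.conj hop] at hv
  have e : OY b zs y j p = Yw b zs y j p := by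
    rcases A.slot with h0 | h0
    · rw [h0]; exact OY_zero _
    · rw [h0]; exact OY_two _
  rw [e, V1_gain, V2_gain, him, A.re] at hv
  unfold C12.gn1 C12.gn2
  exact hv

/-- **Caps of the hinges `1 | 2`**: `.535`; `.56` if the other neighbour of the digit `1` is a
ring. -/
theorem cap12 (hb : ClassW b) (hL : Loc b zs) (hX : LocX b zs) (hy : Mx b zs y)
    (hpos : ∀ h : Fin M, 0 < y (.inl (.inl h)))
    (hF : ∀ h : Fin M, 7 / 100 ≤ y (.inl (.inl h)))
    (h11 : ∀ {h : Fin M} {i j : Fin (M + 1)} {p : Fin 3}, Adj h i p j → clsW b i = .one →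
      clsW b j = .one → y (.inl (.inl h)) ≤ 70 / 100)
    (A : Adj h i p j) (A' : Adj h' i p.rev j') (hi : clsW b i = .one) (hj : clsW b j = .two) :
    y (.inl (.inl h)) ≤ 56 / 100 ∧ (clsW b j' ≠ .ring → y (.inl (.inl h)) ≤ 535 / 1000) := by
  have hpp : p.rev.rev = p := Fin.rev_rev p
  have hop := A.opp hb (Or.inl (by rw [hi]; decide))
  have hpar : ∀ P Q, SR.hpp p P .one .two Q = ⟨80 / 100, 16 / 100, 29 / 100⟩ := by
    intro P Q
    unfold SR.hpp hp hp1
    split_ifs <;> rfl
  have hcl : wcl b h = 16 / 100 := by rw [A.cl_eq b, hi, hj, hpar]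
  have hcr : wcr b h = 29 / 100 := by rw [A.cr_eq b, hi, hj, hpar]
  have hXM : wXM b h = 80 / 100 := by rw [A.XM_eq b, hi, hj, hpar]
  set x := y (.inl (.inl h)) with hx
  -- the partner of the digit 1
  have A2 : Adj h i p.rev.rev j := by rw [hpp]; exact A
  obtain ⟨a0, a1, -, a3⟩ := hX.win A A' hi
  obtain ⟨b0, b1, -, -⟩ := hX.win A' A2 hi
  rw [hj] at a0 a1 a3 b0 b1
  have hrh' := A'.rh hy
  rw [A'.XM_eq b, A'.cl_eq b, A'.cr_eq b, A2.oc_eq b, hi, hj] at hrh'
  obtain ⟨hR1, hR1P⟩ := r1_core hrh' a0 a1 a3 b0 b1 (by rw [A'.re]; exact hF h')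
    (fun hc => by rw [A'.re]; exact h11 A' hi hc)
  -- the partner of the digit 2
  obtain ⟨h2, j2, B0⟩ := A.symm.other' b (clsW_inner hb (Or.inr (Or.inl hj)))
  rw [hpp] at B0
  have hopB := B0.opp hb (Or.inl (by rw [hj]; decide))
  obtain ⟨-, -, c0, c1⟩ := B0.box hb hL
  rw [hj, B0.ss hopB] at c0 c1
  have hrh2 := B0.rh hy
  rw [B0.XM_eq b, B0.cl_eq b, B0.cr_eq b, A.symm.oc_eq b, hi, hj] at hrh2
  obtain ⟨-, -, T0, T1⟩ := A.box hb hL
  rw [hi, hj, A.ss hop] at T0 T1
  simp only [hbox] at T0 T1
  have hR2 := r2_core (T := ofs (b i) (zs (.inl (.inl h))).im) hrh2 T0 T1 c0 c1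
    (by rw [B0.re]; exact hF h2)
  -- the hinge
  have hrh := A.rh hy
  rw [hXM, hcl, hcr] at hrh
  set T := ofs (b i) (zs (.inl (.inl h))).im with hT
  have hxM : x ≤ 80 / 100 := by
    have := hrh.reM
    rwa [A.re] at this
  have him : 51 / 100 ≤ x → (Yw b zs y i p).im = C12.tt T x := by
    intro h51
    have := MR.RH_right hrh (by norm_num) (by norm_num) (by norm_num)
      (by rw [A.re]; linarith only [h51])
    rw [this, A.re]
    unfold C12.tt
    rw [← hx]
    ring
  have hgain : 51 / 100 ≤ x → ∀ c : ℝ, 16 / 100 ≤ c → c ≤ 51 / 100 →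
      C12.gn1 c x T (Yw b zs y i p.rev).re (Yw b zs y i p.rev).im +
      C12.gn2 c x T (Yw b zs y j p).re (Yw b zs y j p).im ≤ 0 := fun h51 c h0 h1 =>
    gain_12 hb hy A A' hi hj h0 h1 hcl hcr hXM rfl (him h51)
  have hD : ∀ f : ℝ, 51 / 100 < x → x + (Yw b zs y i p.rev).re ≤ 97 / 100 →
      x + (Yw b zs y j p).re ≤ 97 / 100 →
      MR.s1 (C12.mm T) x (C12.tt T x) (Yw b zs y i p.rev).re (Yw b zs y i p.rev).im < f →
      MR.s2 (-C12.mm T) x (-C12.tt T x) (Yw b zs y j p).re (Yw b zs y j p).im < -f → False := by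
    intro f h51 u1 u2 d1 d2
    have hx0 := hR1.x0
    have hx0' := hR2.x0
    have hsl := ofs_slL_ramp (b := b) (zs := zs) (y := y) (h := h) (b i) (by rw [hXM, hcr]; linarith only [h51])
    have hm : ofs (b i) (slL b zs y h) = C12.mm T := by
      rw [hsl, hcr]
      unfold C12.mm
      ring
    have hre := A.re (zs := zs) (y := y)
    have e1 : Sw b zs y i p (slL b zs y h) =
        MR.s1 (C12.mm T) x (C12.tt T x) (Yw b zs y i p.rev).re (Yw b zs y i p.rev).im := by
      rw [A.side_one hb hi, hm, MR.S1_eq, him h51.le, hre]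
      · constructor <;> rw [hre] <;> linarith only [h51, hxM]
      · constructor <;> rw [Complex.add_re, hre] <;> linarith only [h51, hx0, u1]
    have hc := A.conj (zs := zs) (y := y) hop
    have hcre : (Yw b zs y j p.rev).re = x := by rw [hc, Complex.conj_re, hre]
    have e2 : Sw b zs y j p.rev (slL b zs y h) =
        MR.s2 (-C12.mm T) x (-C12.tt T x) (Yw b zs y j p).re (Yw b zs y j p).im := by
      rw [A.symm.side_two hb (Or.inl hj), hpp, MR.S2_eq, hcre, ofs_opp hop, hm]
      · rw [hc, Complex.conj_im, him h51.le]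
      · constructor <;> rw [hcre] <;> linarith only [h51, hxM]
      · constructor <;> rw [Complex.add_re, hcre] <;> linarith only [h51, hx0', u2]
    exact rstep_false hb hy (hpos h) (RStep.of_adj A (c := 0) (fun h => absurd h (by omega))
      (e1 := Sw b zs y i p (slL b zs y h)) (e2 := Sw b zs y j p.rev (slL b zs y h))
      (by rw [e1, e2]; linarith only [d1, d2]) (by linarith only []) (by linarith only []))
  have hFG : 535 / 1000 ≤ x → x ≤ 75 / 100 → C12.F1 x T ≤ C12.G1 x T := by
    intro q0 q1
    unfold C12.F1 C12.G1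
    have q2 := hR1.T0
    have q3 := hR1.T1
    nlinarith only [T1, q1, q0, T0, mul_nonneg (by linarith only [q0] : 0 ≤ x - 535 / 1000) (by linarith only [q1] : 0 ≤ 75 / 100 - x),
      mul_nonneg (by linarith only [q0] : 0 ≤ x - 535 / 1000) (by linarith only [T0] : 0 ≤ T + 18 / 1000)]
  have main : 56 / 100 < x → False := by
    intro hx56
    rcases le_total x (75 / 100) with h75 | h75
    · have hg := hgain (by linarith only [hx56]) (40 / 100) (by norm_num) (by norm_num)
      have hFG' := hFG (by linarith only [hx56]) h75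
      rcases le_total (x + (Yw b zs y i p.rev).re) (97 / 100) with u1 | u1
      · rcases le_total (x + (Yw b zs y j p).re) (97 / 100) with u2 | u2
        · exact hD (C12.fZ x T) (by linarith only [hx56]) u1 u2 (C12.s1_lt_fZ hx56.le h75 hR1 u1)
            (C12.s2_lt_fZ hx56.le h75 hR2 u2)
        · have k1 := C12.V1lo hx56.le h75 hR1 u1
          have k2 := C12.V2hi (by linarith only [hx56]) h75 hR2 u2
          linarith only [hg, k1, k2]
      · have k1 := C12.V1hi hx56.le h75 hR1 u1
        rcases le_total (x + (Yw b zs y j p).re) (97 / 100) with u2 | u2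
        · have k2 := C12.V2lo (by linarith only [hx56]) h75 hR2 u2
          linarith only [hg, k1, k2]
        · have k2 := C12.V2hi (by linarith only [hx56]) h75 hR2 u2
          linarith only [hg, hFG', k1, k2]
    · have hg := hgain (by linarith only [hx56]) (44 / 100) (by norm_num) (by norm_num)
      have k1 := C12.W1 h75 hxM hR1
      have k2 := C12.W2 h75 hxM hR2
      linarith only [hg, k1, k2]
  refine ⟨not_lt.1 main, fun hP => not_lt.1 fun hx535 => ?_⟩
  have hR1P := hR1P hP
  have h56 := not_lt.1 main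
  have hg := hgain (by linarith only [hx535]) (40 / 100) (by norm_num) (by norm_num)
  have hFG' := hFG hx535.le (by linarith only [h56])
  rcases le_total (x + (Yw b zs y i p.rev).re) (97 / 100) with u1 | u1
  · rcases le_total (x + (Yw b zs y j p).re) (97 / 100) with u2 | u2
    · exact hD (C12.fP x T) (by linarith only [hx535]) u1 u2 (C12.s1_lt_fP hx535.le h56 hR1P u1)
        (C12.s2_lt_fP hx535.le h56 hR2 u2)
    · have k1 := C12.V1loP hx535.le h56 hR1P u1
      have k2 := C12.V2hi hx535.le (by linarith only [h56]) hR2 u2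
      linarith only [hg, k1, k2]
  · have k1 := C12.V1hiP hx535.le h56 hR1P u1
    rcases le_total (x + (Yw b zs y j p).re) (97 / 100) with u2 | u2
    · have k2 := C12.V2lo hx535.le (by linarith only [h56]) hR2 u2
      linarith only [hg, k1, k2]
    · have k2 := C12.V2hi hx535.le (by linarith only [h56]) hR2 u2
      linarith only [hg, hFG', k1, k2]

end SR

end Pool.Agent.Work.MP_b30479_gt.G2
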