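import Pool.Agent.Work.MP_b30479_gt.G2.WE3
import Pool.Agent.Work.MP_b30479_gt.G2.ML3q
import Pool.Agent.Work.MP_b30479_gt.G2.WCap22

/-!
# Ends with three crossings at the level of words: the right ramp of the hinge

The neighbours `2`, `2e`, `3`, `3e`, ring.
-/

namespace Pool.Agent.Work.MP_b30479_gt.G2

open Finset VOL Filter Topology

namespace SR

variable {M : ℕ} {b : Fin (M + 1) → ℤ} {zs : DD (tyW b) ⊕ ZZ (tyW b) → ℂ}
variable {y : DD (tyW b) ⊕ ZZ (tyW b) → ℝ}
variable {h h' : Fin M} {i j j' : Fin (M + 1)} {p : Fin 3}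

/-- flat end of the path of a hinge of an end with three crossings -/
noncomputable def fe3 (B : Cl) : ℝ :=
  match B with
  | .one => 35 / 100
  | .ring => 26 / 100
  | _ => 30 / 100

/-- length of the right ramp -/
noncomputable def cr3 (B : Cl) : ℝ :=
  match B with
  | .one => 25 / 100
  | .ring => 34 / 100
  | _ => 30 / 100

theorem hpp_threeE_right (p : Fin 3) (P B Q : Cl) : (hpp p P .threeE B Q).XM = 60 / 100 ∧
    (hpp p P .threeE B Q).cr = cr3 B := by
  unfold hpp
  cases B <;> split_ifs <;> simp only [hp, hp1, cr3, and_self]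

theorem Adj.XM3 (A : Adj h i p j) (hc : clsW b i = .threeE) :
    wXM b h = 60 / 100 ∧ wcr b h = cr3 (clsW b j) := by
  rw [A.XM_eq b, A.cr_eq b, hc]
  exact hpp_threeE_right _ _ _ _

/-- data of the hinge on its right ramp -/
theorem Adj.ramp3 (A : Adj h i p j) (hy : IsMx (wdat (tyW b) b) (wpar b zs) zs y)
    (hc : clsW b i = .threeE) (h1 : wXM b h - wcr b h < y (.inl (.inl h))) :
    60 / 100 - cr3 (clsW b j) < y (.inl (.inl h)) ∧ y (.inl (.inl h)) ≤ 60 / 100 ∧
    (Yw b zs y i p).re = y (.inl (.inl h)) ∧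
    (Yw b zs y i p).im = (cr3 (clsW b j))⁻¹ * ofs (b i) (zs (.inl (.inl h))).im *
      (6 / 10 - y (.inl (.inl h))) ∧
    ofs (b i) (slL b zs y h) = -((cr3 (clsW b j))⁻¹ * ofs (b i) (zs (.inl (.inl h))).im) := by
  obtain ⟨e1, e2⟩ := A.XM3 hc
  have q1 := w_sum (b := b) h
  have q2 := wcr_pos (b := b) h
  have q3 := wcl_pos (b := b) h
  have hX : y (.inl (.inl h)) ≤ wXM b h := hy.1.2 (.inl (.inl h))
  have hr := A.re (zs := zs) (y := y)
  refine ⟨by rw [← e1, ← e2]; exact h1, by rw [← e1]; exact hX, hr, ?_, ?_⟩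
  · rw [(A.rh hy).im, hr, tr_c q3 q2 q1 h1.le hX, e1, e2]
    ring
  · rw [ofs_slL_ramp _ h1, e2]
    ring

/-- upper bounds without shift (not next to a digit `1` or a ring) -/
noncomputable def r3E (B : Cl) (x : ℝ) : ℝ :=
  open Classical in
  match B with
  | .two => if x ≤ 4 / 10 then -(40 / 100) else -(2 / 100)
  | .twoE => -(30 / 100)
  | .three => if x ≤ 4 / 10 then -(35 / 100) else 3 / 100
  | _ => -(40 / 100)

/-- **The side of an end with three crossings on the right ramp**, neighbours `2`, `2e`, `3`,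
`3e` -/
theorem threeE_R (hb : ClassW b) (hL : Loc b zs) (hC : Crit b zs)
    (hy : IsMx (wdat (tyW b) b) (wpar b zs) zs y) (A : Adj h i p j) (hc : clsW b i = .threeE)
    (hj : clsW b j ≠ .one) (hj' : clsW b j ≠ .ring)
    (h1 : wXM b h - wcr b h < y (.inl (.inl h))) :
    Sw b zs y i p (slL b zs y h) ≤ r3E (clsW b j) (y (.inl (.inl h))) := by
  obtain ⟨a0, a1, hr, hi, hs⟩ := A.ramp3 hy hc h1
  have hT := A.HT3 hb hL hC hc
  have H := A.maxM hb hy hc
  rw [A.side_threeE hb hc, hs, Yw_mE hc]
  generalize ofs (b i) (zs (.inl (.inl h))).im = T at hT hi ⊢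
  generalize hE zs hc = H' at hT H ⊢
  generalize y (.inl (.inr (mE b hc))) = μ at H ⊢
  generalize Yw b zs y i p = v at H hi hr ⊢
  generalize y (.inl (.inl h)) = a at hi hr a0 a1 ⊢
  cases hB : clsW b j with
  | one => exact absurd hB hj
  | ring => exact absurd hB hj'
  | two =>
    rw [hB] at hT hi a0
    simp only [cr3] at hi a0 ⊢
    rw [show ((30 : ℝ) / 100)⁻¹ = 10 / 3 by norm_num] at hi ⊢
    unfold r3E
    simp only
    split_ifs with c
    · exact L3.right_two_a hT H hr hi (by linarith only [a0]) (by linarith only [c])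
    · push Not at c
      exact L3.right_two_b hT H hr hi (by linarith only [c]) (by linarith only [a1])
  | twoE =>
    rw [hB] at hT hi a0
    simp only [cr3] at hi a0 ⊢
    rw [show ((30 : ℝ) / 100)⁻¹ = 10 / 3 by norm_num] at hi ⊢
    exact L3.right_twoE hT H hr hi (by linarith only [a0]) (by linarith only [a1])
  | three =>
    rw [hB] at hT hi a0
    simp only [cr3] at hi a0 ⊢
    rw [show ((30 : ℝ) / 100)⁻¹ = 10 / 3 by norm_num] at hi ⊢
    unfold r3E
    simp only
    split_ifs with c
    · exact L3.right_three_a hT H hr hi (by linarith only [a0]) (by linarith only [c])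
    · push Not at c
      exact L3.right_three_b hT H hr hi (by linarith only [c]) (by linarith only [a1])
  | threeE =>
    rw [hB] at hT hi a0
    simp only [cr3] at hi a0 ⊢
    rw [show ((30 : ℝ) / 100)⁻¹ = 10 / 3 by norm_num] at hi ⊢
    exact L3.right_threeE hT H hr hi (by linarith only [a0]) (by linarith only [a1])

/-- upper bounds next to an interior `3`, shift `c` between `0` and `π` -/
noncomputable def r3E3 (x c : ℝ) : ℝ :=
  open Classical in
  if x ≤ 4 / 10 then -(35 / 100) - 10 / 100 * (c / Real.pi) else 3 / 100 - 23 / 100 * (c / Real.pi)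

/-- **The side next to an interior `3` on the right ramp with a shift.** -/
theorem threeE_R3 (hb : ClassW b) (hL : Loc b zs) (hC : Crit b zs)
    (hy : IsMx (wdat (tyW b) b) (wpar b zs) zs y) (A : Adj h i p j) (hc : clsW b i = .threeE)
    (hj : clsW b j = .three) (h1 : wXM b h - wcr b h < y (.inl (.inl h))) {c : ℝ} (hc0 : 0 ≤ c)
    (hc1 : c ≤ Real.pi) :
    Sw b zs y i p (slL b zs y h) + c * ofs (b i) (slL b zs y h) ≤
      r3E3 (y (.inl (.inl h))) c := by
  obtain ⟨a0, a1, hr, hi, hs⟩ := A.ramp3 hy hc h1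
  have hT := A.HT3 hb hL hC hc
  have H := A.maxM hb hy hc
  rw [A.side_threeE hb hc, hs, Yw_mE hc]
  generalize ofs (b i) (zs (.inl (.inl h))).im = T at hT hi ⊢
  generalize hE zs hc = H' at hT H ⊢
  generalize y (.inl (.inr (mE b hc))) = μ at H ⊢
  generalize Yw b zs y i p = v at H hi hr ⊢
  generalize y (.inl (.inl h)) = a at hi hr a0 a1 ⊢
  rw [hj] at hT hi a0 ⊢
  simp only [cr3] at hi a0 ⊢
  rw [show ((30 : ℝ) / 100)⁻¹ = 10 / 3 by norm_num] at hi ⊢
  have hpi := Real.pi_pos
  set q := c / Real.pi with hq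
  have hcq : c = q * Real.pi := by rw [hq]; field_simp
  have q0 : 0 ≤ q := div_nonneg hc0 hpi.le
  have q1 : q ≤ 1 := (div_le_one hpi).2 hc1
  unfold r3E3
  split_ifs with d
  · have k1 := L3.right_three_a hT H hr hi (by linarith only [a0]) (by linarith only [d])
    have k2 := L3.right_three_pa hT H hr hi (by linarith only [a0]) (by linarith only [d])
    have k3 := mul_le_mul_of_nonneg_left k1 (sub_nonneg.2 q1)
    have k4 := mul_le_mul_of_nonneg_left k2 q0
    rw [← hq, hcq]
    nlinarith only [k3, k4]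
  · push Not at d
    have k1 := L3.right_three_b hT H hr hi (by linarith only [d]) (by linarith only [a1])
    have k2 := L3.right_three_pb hT H hr hi (by linarith only [d]) (by linarith only [a1])
    have k3 := mul_le_mul_of_nonneg_left k1 (sub_nonneg.2 q1)
    have k4 := mul_le_mul_of_nonneg_left k2 q0
    rw [← hq, hcq]
    nlinarith only [k3, k4]

/-- **The side next to a ring on the right ramp**: without shift up to `32/100`, with the shift `π`
beyond -/
theorem threeE_RZ (hb : ClassW b) (hL : Loc b zs) (hC : Crit b zs)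
    (hy : IsMx (wdat (tyW b) b) (wpar b zs) zs y) (A : Adj h i p j) (hc : clsW b i = .threeE)
    (hj : clsW b j = .ring) (h1 : wXM b h - wcr b h < y (.inl (.inl h))) :
    (y (.inl (.inl h)) ≤ 32 / 100 → Sw b zs y i p (slL b zs y h) ≤ -(12 / 100)) ∧
    (32 / 100 ≤ y (.inl (.inl h)) → Sw b zs y i p (slL b zs y h) +
      Real.pi * ofs (b i) (slL b zs y h) ≤ -(7 / 100)) := by
  obtain ⟨a0, a1, hr, hi, hs⟩ := A.ramp3 hy hc h1
  have hT := A.HT3 hb hL hC hc
  have H := A.maxM hb hy hc
  rw [A.side_threeE hb hc, hs, Yw_mE hc]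
  generalize ofs (b i) (zs (.inl (.inl h))).im = T at hT hi ⊢
  generalize hE zs hc = H' at hT H ⊢
  generalize y (.inl (.inr (mE b hc))) = μ at H ⊢
  generalize Yw b zs y i p = v at H hi hr ⊢
  generalize y (.inl (.inl h)) = a at hi hr a0 a1 ⊢
  rw [hj] at hT hi a0 ⊢
  simp only [cr3] at hi a0 ⊢
  rw [show ((34 : ℝ) / 100)⁻¹ = 100 / 34 by norm_num] at hi ⊢
  exact ⟨fun d => L3.right_ring_a hT H hr hi (by linarith only [a0]) (by linarith only [d]),
    fun d => L3.right_ring_b hT H hr hi (by linarith only [d]) (by linarith only [a1])⟩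

/-- a right step at `3e | 3e` -/
theorem step_3e3e (hb : ClassW b) (hL : Loc b zs) (hC : Crit b zs)
    (hy : IsMx (wdat (tyW b) b) (wpar b zs) zs y) (A : Adj h i p j) (hc : clsW b i = .threeE)
    (hj : clsW b j = .threeE) (h1 : wXM b h - wcr b h < y (.inl (.inl h))) :
    RStep b zs y h (slL b zs y h) := by
  have k1 := threeE_R hb hL hC hy A hc (by rw [hj]; decide) (by rw [hj]; decide) h1
  have k2 := threeE_R hb hL hC hy A.symm hj (by rw [hc]; decide) (by rw [hc]; decide) h1
  refine RSide.of_sum A ?_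
  rw [hj] at k1
  rw [hc] at k2
  simp only [r3E] at k1 k2
  linarith only [k1, k2]

/-- the end `2` next to the end `3e` -/
theorem two_row {x T : ℝ} (h1 : 30 / 100 ≤ x) (h1' : x ≤ 60 / 100) (h2 : 65 / 1000 ≤ T)
    (h2' : T ≤ 69 / 1000) :
    MR.s2e (-(10 / 3 * T)) x (10 / 3 * T * (6 / 10 - x)) < 20 / 100 := by
  have h : NumI.chk [NumI.E.sub (NumI.E.q 20 100) (MR.e2e
      (NumI.E.neg (NumI.E.mul (NumI.E.q 10 3) (NumI.E.var 1))) (NumI.E.var 0)
      (NumI.E.mul (NumI.E.mul (NumI.E.q 10 3) (NumI.E.var 1))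
        (NumI.E.sub (NumI.E.q 6 10) (NumI.E.var 0))))] 20
      [NumI.V.of 1000 300 600, NumI.V.of 1000 65 69] = true := by
    decide +kernel
  have hp := NumI.pos_of_chk (NumI.chk2 h (by norm_num) (x := x) (y := T)
    (by norm_num; linarith only [h1]) (by norm_num; linarith only [h1']) (by norm_num; linarith only [h2])
    (by norm_num; linarith only [h2']))
  simp only [NumI.E.val, NumI.lkR, MR.e2e_val] at hp
  push_cast at hp
  linarith only [hp]

/-- a right step at `3e | 2e` -/
theorem step_3e2e (hb : ClassW b) (hL : Loc b zs) (hC : Crit b zs)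
    (hy : IsMx (wdat (tyW b) b) (wpar b zs) zs y) (A : Adj h i p j) (hc : clsW b i = .threeE)
    (hj : clsW b j = .twoE) (h1 : wXM b h - wcr b h < y (.inl (.inl h))) :
    RStep b zs y h (slL b zs y h) := by
  have k1 := threeE_R hb hL hC hy A hc (by rw [hj]; decide) (by rw [hj]; decide) h1
  have hop := A.opp hb (Or.inl (by rw [hc]; decide))
  obtain ⟨a0, a1, hr, hi, hs⟩ := A.ramp3 hy hc h1
  have bx := A.symm.box hb hL
  rw [hj, hc] at bx
  have h0 : Yw b zs y j p.rev.rev = 0 := by
    rcases A.symm.other b zs y with ⟨-, h0⟩ | ⟨he', -⟩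
    · exact h0
    · rw [clsW_end (Or.inl hj)] at he'
      exact absurd he' (by decide)
  have hr' := A.symm.re (zs := zs) (y := y)
  have hi' : (Yw b zs y j p.rev).im = 10 / 3 * ofs (b j) (zs (.inl (.inl h))).im *
      (6 / 10 - y (.inl (.inl h))) := by
    obtain ⟨e1, e2⟩ := A.XM3 hc
    have q1 := w_sum (b := b) h
    have q2 := wcr_pos (b := b) h
    have q3 := wcl_pos (b := b) h
    have hX : y (.inl (.inl h)) ≤ wXM b h := hy.1.2 (.inl (.inl h))
    rw [(A.symm.rh hy).im, hr', tr_c q3 q2 q1 h1.le hX, e1, e2, hj]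
    simp only [cr3]
    ring
  have hs' : ofs (b j) (slL b zs y h) = -(10 / 3 * ofs (b j) (zs (.inl (.inl h))).im) := by
    rw [ofs_slL_ramp _ h1, (A.XM3 hc).2, hj]
    simp only [cr3]
    ring
  rw [hj] at a0
  simp only [cr3] at a0
  have k2 : Sw b zs y j p.rev (slL b zs y h) < 20 / 100 := by
    rw [A.symm.side_two hb (Or.inr hj), h0, hs', MR.S2_zero_eq _ ⟨by rw [hr']; linarith only [a0],
      by rw [hr']; linarith only [a1]⟩, hr', hi']
    refine two_row (by linarith only [a0]) a1 ?_ ?_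
    · have := bx.2.2.1
      simp only [hbox] at this
      linarith only [this]
    · have := bx.2.2.2
      simp only [hbox] at this
      linarith only [this]
  refine RSide.of_sum A ?_
  rw [hj] at k1
  simp only [r3E] at k1
  linarith only [k1, k2]

/-- **Caps of the hinges between an end with three crossings and an end with two or three
crossings**: the flat ends. -/
theorem cap_3e (hb : ClassW b) (hL : Loc b zs) (hC : Crit b zs) (hy : Mx b zs y)
    (hpos : ∀ h : Fin M, 0 < y (.inl (.inl h))) (A : Adj h i p j) (hc : clsW b i = .threeE)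
    (hj : clsW b j = .twoE ∨ clsW b j = .threeE) :
    y (.inl (.inl h)) ≤ wXM b h - wcr b h := by
  by_contra hcon
  push Not at hcon
  rcases hj with hj | hj
  · exact rstep_false hb hy (hpos h) (step_3e2e hb hL hC hy A hc hj hcon)
  · exact rstep_false hb hy (hpos h) (step_3e3e hb hL hC hy A hc hj hcon)

end SR

end Pool.Agent.Work.MP_b30479_gt.G2
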