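import Pool.Agent.Work.MP_b30479_gt.G2.WS0R
import Pool.Agent.Work.MP_b30479_gt.G2.WSide2

/-!
# Caps of the hinges at the slot `0` of an interior `3`

`2 | 3`: `36/100`; `2e | 3`, `3e | 3`: the flat end `30/100`. Hypotheses: all hinges are at least
`7/100`; the hinge in the slot `2` of the `3` is at most `39/100` next to `1`, `3`, `31/100` else.
-/

namespace Pool.Agent.Work.MP_b30479_gt.G2

open Finset VOL Filter Topology

namespace SR

variable {M : ℕ} {b : Fin (M + 1) → ℤ} {zs : DD (tyW b) ⊕ ZZ (tyW b) → ℂ}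
variable {y : DD (tyW b) ⊕ ZZ (tyW b) → ℝ}
variable {h h' : Fin M} {i j k j' : Fin (M + 1)} {p : Fin 3}

/-- **`2 | 3 ≤ 36/100`** -/
theorem s0r_cap_two (hb : ClassW b) (hL : Loc b zs) (hX : LocX b zs) (hy : Mx b zs y)
    (hpos : ∀ h : Fin M, 0 < y (.inl (.inl h))) (hF : ∀ h : Fin M, 7 / 100 ≤ y (.inl (.inl h)))
    (h12 : ∀ {h : Fin M} {i j : Fin (M + 1)} {p : Fin 3}, Adj h i p j → clsW b i = .two →
      clsW b j = .one → y (.inl (.inl h)) ≤ 60 / 100)
    (A : Adj h i 0 j) (A' : Adj h' i 2 k) (hi : clsW b i = .three) (hj : clsW b j = .two)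
    (hc : y (.inl (.inl h')) ≤ cap2 (clsW b k)) : y (.inl (.inl h)) ≤ 36 / 100 := by
  by_contra hcon
  push Not at hcon
  have hop := A.opp hb (Or.inl (by rw [hi]; decide))
  obtain ⟨q1, q2, q3⟩ := A.par_s0_two hi hj
  have hx1 := s0_2 hb hL hX hy A A' hi hj (hc.trans (cap2_le _))
  have k1 := s0r_two hb hL hX hy hpos A A' hi hj (hF h') hc hcon.le hx1
  have A2 : Adj h j 2 i := A.symm
  have k2 := two_R3 hb hL hy hF h12 A2 hj hi (by rw [q1, q2]; linarith only [hcon]) (by linarith only [hx1])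
  have k3 : r23 (y (.inl (.inl h))) ≤ -(13 / 100) := by
    unfold r23
    split_ifs with c1 c2
    · exact absurd c1 (not_le.2 hcon)
    · exact le_rfl
    · norm_num
  refine rstep_false hb hy (hpos h) (RStep.of_adj A (c := Real.pi / 2) (fun h => absurd h ?_)
    (e1 := 125 / 1000) (e2 := -(13 / 100)) (by norm_num) k1.le (k2.le.trans k3))
  exact not_lt.2 hop.le

/-- **`2e | 3 ≤ 30/100`** -/
theorem s0r_cap_twoE (hb : ClassW b) (hL : Loc b zs) (hX : LocX b zs) (hy : Mx b zs y)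
    (hpos : ∀ h : Fin M, 0 < y (.inl (.inl h)))
    (A : Adj h i 0 j) (A' : Adj h' i 2 k) (hi : clsW b i = .three) (hj : clsW b j = .twoE)
    (h7 : 7 / 100 ≤ y (.inl (.inl h')))
    (hc : y (.inl (.inl h')) ≤ cap2 (clsW b k)) : y (.inl (.inl h)) ≤ 30 / 100 := by
  by_contra hcon
  push Not at hcon
  have hop := A.opp hb (Or.inl (by rw [hi]; decide))
  obtain ⟨q1, q2, q3⟩ := A.par_s0 hi (Or.inl hj)
  have hx1 := s0_2e hb hL hX hy A A' hi hj (hc.trans (cap2_le _))
  have k1 := s0r_twoE hb hL hX hy hpos A A' hi hj h7 hc hcon hx1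
  have A2 : Adj h j 2 i := A.symm
  have k2 := (twoE_R3 hb hL hy A2 hj hi (by rw [q1, q2]; linarith only [hcon])).1 (by linarith only [hx1])
  refine rstep_false hb hy (hpos h) (RStep.of_adj A (c := 5 / 2) (fun h => absurd h ?_)
    (e1 := 57 / 100) (e2 := -(58 / 100)) (by norm_num) k1.le k2.le)
  exact not_lt.2 hop.le

/-- **`3e | 3 ≤ 30/100`** -/
theorem s0r_cap_threeE (hb : ClassW b) (hL : Loc b zs) (hX : LocX b zs) (hC : Crit b zs)
    (hy : Mx b zs y) (hpos : ∀ h : Fin M, 0 < y (.inl (.inl h)))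
    (A : Adj h i 0 j) (A' : Adj h' i 2 k) (hi : clsW b i = .three) (hj : clsW b j = .threeE)
    (h7 : 7 / 100 ≤ y (.inl (.inl h')))
    (hc : y (.inl (.inl h')) ≤ cap2 (clsW b k)) : y (.inl (.inl h)) ≤ 30 / 100 := by
  by_contra hcon
  push Not at hcon
  obtain ⟨q1, q2, q3⟩ := A.par_s0 hi (Or.inr (Or.inr hj))
  have hx1 := s0_33 hb hL hX hy A A' hi (Or.inr hj) (hc.trans (cap2_le _))
  have k1 := s0r_three hb hL hX hy hpos A A' hi (Or.inr (Or.inl hj))
    (fun h0 => absurd h0 (by rw [hj]; decide)) h7 hc hcon hx1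
  have A2 : Adj h j 2 i := A.symm
  have k2 := threeE_R3 hb hL hC hy A2 hj hi (by rw [q1, q2]; linarith only [hcon]) le_rfl Real.pi_pos.le
  rw [hj] at k1
  unfold s0rB at k1
  unfold r3E3 at k2
  refine rstep_false hb hy (hpos h) (RSide.of_sum A ?_)
  have e : (0 : Fin 3).rev = 2 := rfl
  rw [e]
  rw [if_pos rfl] at k1
  simp only [zero_mul, add_zero, zero_div, mul_zero, sub_zero] at k2
  split_ifs at k1 k2 <;> linarith

end SR

end Pool.Agent.Work.MP_b30479_gt.G2
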