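import Pool.Agent.Work.MP_b30479_gt.G2.WChE
import Pool.Agent.Work.MP_b30479_gt.G2.V33S
import Pool.Agent.Work.MP_b30479_gt.G2.WCap3
import Pool.Agent.Work.MP_b30479_gt.G2.R33
import Pool.Agent.Work.MP_b30479_gt.G2.WS0C
import Pool.Agent.Work.MP_b30479_gt.G2.WS0A
import Pool.Agent.Work.MP_b30479_gt.G2.WCap23
import Pool.Agent.Work.MP_b30479_gt.G2.H15W
import Pool.Agent.Work.MP_b30479_gt.G2.H14Z
import Pool.Agent.Work.MP_b30479_gt.G2.H2E
import Pool.Agent.Work.MP_b30479_gt.G2.V2BM
import Pool.Agent.Work.MP_b30479_gt.G2.VZ3Z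
import Pool.Agent.Work.MP_b30479_gt.G2.WChN

/-!
# All caps
-/

namespace Pool.Agent.Work.MP_b30479_gt.G2

open Finset VOL Filter Topology

namespace SR

open ML

variable {M : ℕ} {b : Fin (M + 1) → ℤ} {zs : DD (tyW b) ⊕ ZZ (tyW b) → ℂ}
variable {y : DD (tyW b) ⊕ ZZ (tyW b) → ℝ}
variable {h h' : Fin M} {i j j' k : Fin (M + 1)} {p : Fin 3}

theorem cap2_of {k : Fin (M + 1)}
    (hc : y (.inl (.inl h')) ≤ if clsW b k = .one then 385 / 1000 else 31 / 100) :
    y (.inl (.inl h')) ≤ cap2 (clsW b k) := by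
  refine hc.trans ?_
  rcases hk : clsW b k with _ | _ | _ | _ | _ | _ <;> simp [cap2] <;> norm_num

theorem cap2_cpR (K : Cl) : VL.cpR K = cap2 K := by
  cases K <;> rfl

/-- the two sides of `3 | 3` -/
theorem side_33 (hb : ClassW b) (H : LocA b zs) (hy : Mx b zs y)
    (hpos : ∀ h : Fin M, 0 < y (.inl (.inl h))) (hF : Flr b y F0) (hw : Cap3 b y)
    (A : Adj h i 2 j) (hi : clsW b i = .three) (hj : clsW b j = .three) :
    y (.inl (.inl h)) ≤ 1 / 2 ∧
    (30 / 100 < y (.inl (.inl h)) → y (.inl (.inl h)) ≤ 40 / 100 →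
      Sw b zs y j 0 (slL b zs y h) < 66 / 100 - 3 / 2 * y (.inl (.inl h))) ∧
    (40 / 100 < y (.inl (.inl h)) → y (.inl (.inl h)) ≤ 1 / 2 →
      Sw b zs y j 0 (slL b zs y h) < 0) := by
  have A0 : Adj h j 0 i := A.symm
  obtain ⟨h', k, B⟩ := A0.other_three hb hj
  have h7 : 7 / 100 ≤ y (.inl (.inl h')) := by
    have h1 := F0_ge 2 (clsW b j) (clsW b k)
    have h2 := hF B
    linarith only [h1, h2]
  have hc : y (.inl (.inl h')) ≤ cap2 (clsW b k) := by
    rw [← cap2_cpR]
    exact hw B hj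
  refine ⟨?_, fun h1 h2 => ?_, fun h1 h2 => ?_⟩
  · exact s0_cap hb H.L H.X hy A0 B hj (by rw [hi]; decide) (by rw [hi]; decide)
      (hc.trans (cap2_le _))
  · have := s0r_three hb H.L H.X hy hpos A0 B hj (Or.inl hi) (fun h3 => by rw [hi] at h3; cases h3)
      h7 hc h1 (by linarith only [h2])
    unfold s0rB at this
    rwa [if_pos h2] at this
  · have := s0r_three hb H.L H.X hy hpos A0 B hj (Or.inl hi) (fun h3 => by rw [hi] at h3; cases h3)
      h7 hc (by linarith only [h1, h2]) h2
    unfold s0rB at this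
    rwa [if_neg (not_le.2 h1), if_neg (by rw [hi]; decide)] at this

/-- **`3 | 3` at most `31/100`.** -/
theorem s33_31 (hb : ClassW b) (H : LocA b zs) (hy : Mx b zs y)
    (hpos : ∀ h : Fin M, 0 < y (.inl (.inl h))) (hF : Flr b y F0) (hw : Cap3 b y)
    (A : Adj h i 2 j) (hi : clsW b i = .three) (hj : clsW b j = .three) :
    y (.inl (.inl h)) ≤ 31 / 100 := by
  obtain ⟨s1, s2, s3⟩ := side_33 hb H hy hpos hF hw A hi hj
  exact cap33_31 A hb H.L H.X hy (hpos h) hi hj s1 s2 s3

/-- **`3 | 3` at most `30/100`.** -/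
theorem s33_30 (hb : ClassW b) (H : LocA b zs) (hy : Mx b zs y)
    (hpos : ∀ h : Fin M, 0 < y (.inl (.inl h))) (hF : Flr b y F0) (hw : Cap3 b y)
    (A : Adj h i 2 j) (hi : clsW b i = .three) (hj : clsW b j = .three) :
    y (.inl (.inl h)) ≤ 30 / 100 := by
  obtain ⟨s1, s2, s3⟩ := side_33 hb H hy hpos hF hw A hi hj
  refine cap33_30 A hb H.L H.X hy (hpos h) hi hj (fun _ hm => ?_) s1 s2 s3
  obtain ⟨h0, j0, B⟩ := A.other' b (clsW_inner hb (Or.inr (Or.inr hi)))
  exact H.Q.three hm B A hi hj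

/-- floors of a later round -/
theorem Flr.zero_of_one (hF : Flr b y F1) : Flr b y F0 := fun A => (F0_le _ _ _).trans (hF A)

theorem Flr.one_of_two (hF : Flr b y F2) : Flr b y F1 := fun A => (F1_le A.slot _ _).trans (hF A)

theorem Flr.seven (hF : Flr b y F0) (h : Fin M) : 7 / 100 ≤ y (.inl (.inl h)) := by
  have h1 := F0_ge 2 (clsW b h.castSucc) (clsW b h.succ)
  have h2 := hF (Adj.l (h := h))
  linarith only [h1, h2]

/-- the slots `2`, without floors -/
theorem cap3_open (hb : ClassW b) (H : LocA b zs) (hy : Mx b zs y)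
    (hpos : ∀ h : Fin M, 0 < y (.inl (.inl h))) : Cap3 b y :=
  cap3_of hb H hy hpos (fun A A' hi hk hw => cap33_S0 hb H.L H.X hy hpos A A' hi hk hw)
    (fun A hi hk => (cap_three_threeE A hb H.L H.X H.C hy (hpos _) hi hk).trans
      (by norm_num [VL.cpR]))
    (fun {h i k} A hi hk => by
      have : y (.inl (.inl h)) ≤ 30 / 100 := by
        rcases le_or_gt 0 (ofs (b i) (zs (.inl (.inl h))).im) with hT | hT
        · exact cap_three_ring A hb H.L H.X H.R hy (hpos _) hi hk hT
        · exact c3Z_of hb H hy A hi hk hT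
      exact this.trans (by norm_num [VL.cpR]))

/-- **All caps.** -/
theorem ROpen.of (hb : ClassW b) (H : LocA b zs) (hy : Mx b zs y)
    (hpos : ∀ h : Fin M, 0 < y (.inl (.inl h))) : ROpen b zs y where
  c33 A A' hi hk hw := cap33_S0 hb H.L H.X hy hpos A A' hi hk hw
  c3E A hi hk := cap_three_threeE A hb H.L H.X H.C hy (hpos _) hi hk
  c3Z {h i k} A hi hk := by
    rcases le_or_gt 0 (ofs (b i) (zs (.inl (.inl h))).im) with hT | hT
    · exact cap_three_ring A hb H.L H.X H.R hy (hpos _) hi hk hT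
    · exact c3Z_of hb H hy A hi hk hT
  s33 hF hw _ _ _ A hi hj := s33_31 hb H hy hpos hF hw A hi hj
  s33' hF hC _ _ _ A hi hj := s33_30 hb H hy hpos (Flr.zero_of_one (Flr.one_of_two hF))
    (cap3_open hb H hy hpos) A hi hj
  s0_lo hF h21 h h' i j k A A' hi hc h1 h3 hZ := by
    have hc' := cap2_of hc
    have h7 := hF.seven
    rcases hj : clsW b j with _ | _ | _ | _ | _ | _
    · exact absurd hj h1
    · rw [if_pos rfl]
      exact s0r_cap_two hb H.L H.X hy hpos h7 h21 A A' hi hj hc'
    · rw [if_neg (by decide)]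
      exact s0r_cap_twoE hb H.L H.X hy hpos A A' hi hj (h7 _) hc'
    · exact absurd hj h3
    · rw [if_neg (by decide)]
      exact s0r_cap_threeE hb H.L H.X H.C hy hpos A A' hi hj (h7 _) hc'
    · exact absurd hj hZ
  s0_Z hF _ _ _ _ _ A A' hi hc hj := s0_Z_of hb H hy hpos A A' hi hj (hF.seven _) (cap2_of hc)
  s0_Z' hF _ _ _ _ _ A A' hi hc hj hR := s0_Z'_of hb H hy hpos A A' hi hj
    (Flr.seven (Flr.zero_of_one hF) _) (cap2_of hc) hR
  s0_one hF hC hS h i j A hi hj := by
    obtain ⟨h', k, B⟩ := A.other_three hb hi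
    have A2 : Adj h j 2 i := A.symm
    have h7 := Flr.seven (Flr.zero_of_one hF)
    have h11 : ∀ {h : Fin M} {i j : Fin (M + 1)} {p : Fin 3}, Adj h i p j → clsW b i = .one →
        clsW b j = .one → y (.inl (.inl h)) ≤ 70 / 100 := fun A hi hj => by
      have := hC A
      rwa [hi, hj] at this
    have hB := hC B
    rw [hi] at hB
    have w1 : y (.inl (.inl h')) ≤ 39 / 100 := by
      refine hB.trans ?_
      cases clsW b k <;> simp only [C0, if_true] <;> norm_num
    have w2 : clsW b k ≠ .one → y (.inl (.inl h')) ≤ 31 / 100 := fun hk => by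
      refine hB.trans ?_
      rcases hk' : clsW b k with _ | _ | _ | _ | _ | _ <;> first
        | exact absurd hk' hk
        | (simp only [C0, if_true]; norm_num)
    refine (HX.cap13_R1 hb H.L H.X H.P (Mid13.of H.N H.O) hy hpos hF
      (fun A => (hC A).trans (C0_C1 _ _ _)) hS ?_ ?_ A2 B hj hi w1 w2
      (fun A' h2 hk => by
        obtain ⟨t1, -⟩ := H.U.tail (tyW_isMid (Or.inl hi)) A B A' hi hj h2 hk
        unfold hI mI
        linarith only [hi, t1])).1
    · intro h h' i j j' p A A' hi hj hZ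
      exact (cap12 hb H.L H.X hy hpos h7 h11 A A' hi hj).2 hZ
    · intro h i j p A hi hj
      have := hC A
      rwa [hi, hj] at this
  s0_one' hF hC hS h12 h h' i j k A A' hi hj := by
    have A2 : Adj h j 2 i := A.symm
    have hB := hC A'
    have hA := hC A
    rw [hi] at hB
    rw [hi, hj] at hA
    simp only [C1x, show ¬ (0 : Fin 3) = 2 by decide, if_false] at hA
    refine HX.cap13_R2 hb H.L H.X H.O hy hpos hF hS h12 ?_ A2 A' hj hi ?_ (fun hk => ?_) hA
      (fun hk hx hx' => ?_)
    · intro h i j p A hi hj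
      have := hC A
      rwa [hi, hj] at this
    · refine hB.trans ?_
      cases clsW b k <;> simp only [C1x, if_true] <;> norm_num
    · refine hB.trans ?_
      rcases hk' : clsW b k with _ | _ | _ | _ | _ | _ <;> first
        | exact absurd hk' hk
        | (simp only [C1x, if_true]; norm_num)
    · rw [hk] at hB
      exact s0_mid_twoE hb H.L H.X H.O hy hpos hF hS A A' hi hj hk
        (by simpa only [C1x] using hB) hx (by linarith only [hx'])
  s0_two hF hC hS h i j A hi hj := by
    obtain ⟨h', k, B⟩ := A.other_three hb hi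
    have A2 : Adj h j 2 i := A.symm
    have hB := hC B
    have fB := hF B
    rw [hi] at hB fB
    refine cap23_of hb H.L hy (Flr.seven (Flr.zero_of_one (Flr.one_of_two hF))) ?_ A2 hj hi ?_ fun h33 => ?_
    · intro h i j p A hi hj
      have := hC A
      rw [hi, hj] at this
      simp only [C1x] at this
      linarith only [this]
    · have := hC A
      rw [hi, hj] at this
      simpa only [C1x, show ¬ (0 : Fin 3) = 2 by decide, if_false] using this
    · have h36 := hC A
      rw [hi, hj] at h36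
      simp only [C1x, show ¬ (0 : Fin 3) = 2 by decide, if_false] at h36
      have := s0a_two hb H.L H.X H.D hy hpos A B hi hj (fun hk => ?_) (fun hk => ?_) h33 h36
      · linarith only [this]
      · rw [hk] at hB fB
        simp only [C1x, F2, if_true] at hB fB
        constructor <;> linarith only [fB, hB]
      · rcases hk' : clsW b k with _ | _ | _ | _ | _ | _ <;> rw [hk'] at hB fB <;>
          simp only [C1x, F2, if_true] at hB fB <;> first
          | exact absurd hk' hk
          | (constructor <;> linarith only [fB, hB])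

/-- **The parts of the argument on the main paths.** -/
theorem mainPartsS_open (hM : 1 ≤ M) (hb : ClassW b) (H : LocA b zs)
    (hrin : ∀ y, Mx b zs y → PushIn b zs y →
      (∀ h : Fin M, y (.inl (.inl h)) = (zs (.inl (.inl h))).re) →
      ∀ v : ZZ (tyW b), y (.inr v) = (zs (.inr v)).re)
    (hq : ∀ y, Mx b zs y → PushIn b zs y → ∀ {h : Fin M} {i j : Fin (M + 1)} {p : Fin 3},
      Adj h i p j → clsW b i = .ring → PushS (tyW b) b (wpar b zs) zs y h) :
    MainPartsS b zs :=
  mainPartsS_of hM hb H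
    (fun y hy hpos => pushIn_of hb H hy hpos (ROpen.of hb H hy hpos)) hrin hq

end SR

end Pool.Agent.Work.MP_b30479_gt.G2
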