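import Pool.Agent.Work.MP_b30479_gt.G2.RFe
import Pool.Agent.Work.MP_b30479_gt.G2.WChO

/-!
# The parts of the argument on the main paths, rings included
-/

namespace Pool.Agent.Work.MP_b30479_gt.G2

open Finset VOL Filter Topology

namespace SR

variable {M : ℕ} {b : Fin (M + 1) → ℤ} {zs : DD (tyW b) ⊕ ZZ (tyW b) → ℂ}

/-- **The parts of the argument on the main paths.** -/
theorem mainPartsS_all (hM : 1 ≤ M) (F : RFacts b zs) (H : LocA b zs) : MainPartsS b zs :=
  mainPartsS_open hM F.H.hb H (fun _ hy I hh v => F.hrin H hy I hh v)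
    fun _ hy I _ _ _ _ A hc => F.hq H hy I A hc

end SR

end Pool.Agent.Work.MP_b30479_gt.G2
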