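import Pool.Agent.Work.MP_b30479_gt.G2.RGn11
import Pool.Agent.Work.MP_b30479_gt.G2.RLvl9

/-!
# Rings on the level part: pairs of hinges
-/

namespace Pool.Agent.Work.MP_b30479_gt.G2

open Real Set

namespace RC

open R6

theorem lf7a1 {xs ys T ρ : ℝ} (O : OneB xs ys T ρ) (I : o7a1.In T ρ xs ys) :
    LF xs ys T ρ (16 / 100) (36 / 100) (fun _ => 0) (fun _ => 0) :=
  O.LF I o7a1_Wa o7a1_Wb hf0

theorem lf7c1 {xs ys T ρ : ℝ} (O : OneB xs ys T ρ) (I : o7c1.In T ρ xs ys) :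
    LF xs ys T ρ (16 / 100) (36 / 100) (fun _ => 0) (fun _ => 0) :=
  O.LF I o7c1_Wa o7c1_Wb hf0

theorem lf7b1 {xs ys T ρ : ℝ} (O : OneB xs ys T ρ) (I : o7b1.In T ρ xs ys) :
    LF xs ys T ρ (16 / 100) (36 / 100) (fun _ => 0) (fun _ => 0) :=
  O.LF I o7b1_Wa o7b1_Wb hf0

def t7a : List Te := [⟨2500, 2700, 130, 180, 0, 0, 0⟩, ⟨2700, 2900, 0, 0, 0, 0, 0⟩, ⟨2900, 5000, 0, 0, 0, 0, 0⟩]

theorem qt7a {xs ys T ρ : ℝ} (O : OneB xs ys T ρ) (I : o7a1.In T ρ xs ys) :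
    QT xs ys T ρ (16 / 100) (36 / 100) t7a :=
  (I.qt O.GD (fun _ => O.HD) o7a1_Qp2500_130_180_0 o7a1_Qm2500_130_180_0 rfl
      (I.qtz O.GD (fun _ => O.HD) o7a1_Qp2700_0_0_0 o7a1_Qm2700_0_0_0 (by decide) rfl
      (I.qtz O.GD (fun _ => O.HD) o7a1_Qp2700_0_0_0 o7a1_Qm2700_0_0_0 (by decide) rfl
      QT.nil A16 B36) A16 B36) A16 B36)

theorem dt7a_a {xs ys T ρ : ℝ} (O : OneB xs ys T ρ) (I : o7a1.In T ρ xs ys) :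
    DT xs ys T ρ (16 / 100) (36 / 100) (fun _ => 0) (fun _ => 0) t7a :=
  (I.dtg O.GD (fun _ => O.HD) o7a1_Dp2500_130_180_0 o7a1_Dm2500_130_180_0 (Or.inl rfl) (Or.inl rfl) rfl hf0 hf0
      (I.dtz O.GD (fun _ => O.HD) o7a1_Qp2700_0_0_0 o7a1_Qm2700_0_0_0 (by decide) rfl
      (I.dtz O.GD (fun _ => O.HD) o7a1_Qp2700_0_0_0 o7a1_Qm2700_0_0_0 (by decide) rfl
      DT.nil A16 B36) A16 B36) A16 B36)

theorem dt7b_a {xs ys T ρ : ℝ} (O : OneB xs ys T ρ) (I : o7b1.In T ρ xs ys) :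
    DT xs ys T ρ (16 / 100) (36 / 100) (fun _ => 0) (fun _ => 0) t7a :=
  (I.dtg O.GD (fun _ => O.HD) o7b1_Dp2500_130_180_0 o7b1_Dm2500_130_180_0 (Or.inl rfl) (Or.inl rfl) rfl hf0 hf0
      (I.dt O.GD (fun _ => O.HD) o7b1_Dp2700_0_0_0 o7b1_Dm2700_0_0_0 rfl hf0 hf0
      (I.dtz O.GD (fun _ => O.HD) o7b1_Qp2900_0_0_0 o7b1_Qm2900_0_0_0 (by decide) rfl
      DT.nil A16 B36) A16 B36) A16 B36)

theorem dt7c_a {xs ys T ρ : ℝ} (O : OneB xs ys T ρ) (I : o7c1.In T ρ xs ys) :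
    DT xs ys T ρ (16 / 100) (36 / 100) (fun _ => 0) (fun _ => 0) t7a :=
  (I.dtg O.GD (fun _ => O.HD) o7c1_Dp2500_130_180_0 o7c1_Dm2500_130_180_0 (Or.inl rfl) (Or.inl rfl) rfl hf0 hf0
      (I.dtz O.GD (fun _ => O.HD) o7c1_Qp2500_0_0_0 o7c1_Qm2500_0_0_0 (by decide) rfl
      (I.dtz O.GD (fun _ => O.HD) o7c1_Qp2500_0_0_0 o7c1_Qm2500_0_0_0 (by decide) rfl
      DT.nil A16 B36) A16 B36) A16 B36)

def t7c : List Te := [⟨2500, 2700, 0, 0, 0, 0, 0⟩, ⟨2700, 2900, 0, 0, 0, 0, 0⟩, ⟨2900, 5000, 0, 0, 0, 0, 0⟩]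

theorem qt7c {xs ys T ρ : ℝ} (O : OneB xs ys T ρ) (I : o7c1.In T ρ xs ys) :
    QT xs ys T ρ (16 / 100) (36 / 100) t7c :=
  (I.qtz O.GD (fun _ => O.HD) o7c1_Qp2500_0_0_0 o7c1_Qm2500_0_0_0 (by decide) rfl
      (I.qtz O.GD (fun _ => O.HD) o7c1_Qp2500_0_0_0 o7c1_Qm2500_0_0_0 (by decide) rfl
      (I.qtz O.GD (fun _ => O.HD) o7c1_Qp2500_0_0_0 o7c1_Qm2500_0_0_0 (by decide) rfl
      QT.nil A16 B36) A16 B36) A16 B36)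

theorem dt7a_c {xs ys T ρ : ℝ} (O : OneB xs ys T ρ) (I : o7a1.In T ρ xs ys) :
    DT xs ys T ρ (16 / 100) (36 / 100) (fun _ => 0) (fun _ => 0) t7c :=
  (I.dt O.GD (fun _ => O.HD) o7a1_Dp2500_0_0_0 o7a1_Dm2500_0_0_0 rfl hf0 hf0
      (I.dtz O.GD (fun _ => O.HD) o7a1_Qp2700_0_0_0 o7a1_Qm2700_0_0_0 (by decide) rfl
      (I.dtz O.GD (fun _ => O.HD) o7a1_Qp2700_0_0_0 o7a1_Qm2700_0_0_0 (by decide) rfl
      DT.nil A16 B36) A16 B36) A16 B36)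

theorem dt7b_c {xs ys T ρ : ℝ} (O : OneB xs ys T ρ) (I : o7b1.In T ρ xs ys) :
    DT xs ys T ρ (16 / 100) (36 / 100) (fun _ => 0) (fun _ => 0) t7c :=
  (I.dt O.GD (fun _ => O.HD) o7b1_Dp2500_0_0_0 o7b1_Dm2500_0_0_0 rfl hf0 hf0
      (I.dt O.GD (fun _ => O.HD) o7b1_Dp2700_0_0_0 o7b1_Dm2700_0_0_0 rfl hf0 hf0
      (I.dtz O.GD (fun _ => O.HD) o7b1_Qp2900_0_0_0 o7b1_Qm2900_0_0_0 (by decide) rfl
      DT.nil A16 B36) A16 B36) A16 B36)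

theorem dt7c_c {xs ys T ρ : ℝ} (O : OneB xs ys T ρ) (I : o7c1.In T ρ xs ys) :
    DT xs ys T ρ (16 / 100) (36 / 100) (fun _ => 0) (fun _ => 0) t7c :=
  (I.dtz O.GD (fun _ => O.HD) o7c1_Qp2500_0_0_0 o7c1_Qm2500_0_0_0 (by decide) rfl
      (I.dtz O.GD (fun _ => O.HD) o7c1_Qp2500_0_0_0 o7c1_Qm2500_0_0_0 (by decide) rfl
      (I.dtz O.GD (fun _ => O.HD) o7c1_Qp2500_0_0_0 o7c1_Qm2500_0_0_0 (by decide) rfl
      DT.nil A16 B36) A16 B36) A16 B36)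

def t7b : List Te := [⟨2500, 2700, 115, 150, 0, 0, 0⟩, ⟨2700, 2900, 130, 180, 0, 0, 0⟩, ⟨2900, 5000, 0, 0, 0, 0, 0⟩]

theorem qt7b {xs ys T ρ : ℝ} (O : OneB xs ys T ρ) (I : o7b1.In T ρ xs ys) :
    QT xs ys T ρ (16 / 100) (36 / 100) t7b :=
  (I.qt O.GD (fun _ => O.HD) o7b1_Qp2500_115_150_0 o7b1_Qm2500_115_150_0 rfl
      (I.qt O.GD (fun _ => O.HD) o7b1_Qp2700_130_180_0 o7b1_Qm2700_130_180_0 rfl
      (I.qtz O.GD (fun _ => O.HD) o7b1_Qp2900_0_0_0 o7b1_Qm2900_0_0_0 (by decide) rfl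
      QT.nil A16 B36) A16 B36) A16 B36)

theorem dt7a_b {xs ys T ρ : ℝ} (O : OneB xs ys T ρ) (I : o7a1.In T ρ xs ys) :
    DT xs ys T ρ (16 / 100) (36 / 100) (fun _ => 0) (fun _ => 0) t7b :=
  (I.dtg O.GD (fun _ => O.HD) o7a1_Dp2500_115_150_0 o7a1_Dm2500_115_150_0 (Or.inl rfl) (Or.inl rfl) rfl hf0 hf0
      (I.dtg O.GD (fun _ => O.HD) o7a1_Dp2700_130_180_0 o7a1_Dm2700_130_180_0 (Or.inl rfl) (Or.inl rfl) rfl hf0 hf0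
      (I.dtz O.GD (fun _ => O.HD) o7a1_Qp2700_0_0_0 o7a1_Qm2700_0_0_0 (by decide) rfl
      DT.nil A16 B36) A16 B36) A16 B36)

theorem dt7b_b {xs ys T ρ : ℝ} (O : OneB xs ys T ρ) (I : o7b1.In T ρ xs ys) :
    DT xs ys T ρ (16 / 100) (36 / 100) (fun _ => 0) (fun _ => 0) t7b :=
  (I.dtg O.GD (fun _ => O.HD) o7b1_Dp2500_115_150_0 o7b1_Dm2500_115_150_0 (Or.inl rfl) (Or.inl rfl) rfl hf0 hf0
      (I.dtg O.GD (fun _ => O.HD) o7b1_Dp2700_130_180_0 o7b1_Dm2700_130_180_0 (Or.inl rfl) (Or.inl rfl) rfl hf0 hf0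
      (I.dtz O.GD (fun _ => O.HD) o7b1_Qp2900_0_0_0 o7b1_Qm2900_0_0_0 (by decide) rfl
      DT.nil A16 B36) A16 B36) A16 B36)

theorem dt7c_b {xs ys T ρ : ℝ} (O : OneB xs ys T ρ) (I : o7c1.In T ρ xs ys) :
    DT xs ys T ρ (16 / 100) (36 / 100) (fun _ => 0) (fun _ => 0) t7b :=
  (I.dtg O.GD (fun _ => O.HD) o7c1_Dp2500_115_150_0 o7c1_Dm2500_115_150_0 (Or.inl rfl) (Or.inl rfl) rfl hf0 hf0
      (I.dtg O.GD (fun _ => O.HD) o7c1_Dp2700_130_180_0 o7c1_Dm2700_130_180_0 (Or.inl rfl) (Or.inl rfl) rfl hf0 hf0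
      (I.dtz O.GD (fun _ => O.HD) o7c1_Qp2500_0_0_0 o7c1_Qm2500_0_0_0 (by decide) rfl
      DT.nil A16 B36) A16 B36) A16 B36)

end RC

end Pool.Agent.Work.MP_b30479_gt.G2
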