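import Pool.Agent.Work.MP_b30479_gt.G2.RDiag
import Pool.Agent.Work.MP_b30479_gt.G2.RDz
import Pool.Agent.Work.MP_b30479_gt.G2.RDw

/-!
# Rings on the level part: one hinge

`(xs, ys)`: saddle point, `(x, y)`: another point; `ys = 1/2 + σ*`.
-/

namespace Pool.Agent.Work.MP_b30479_gt.G2

open Real Set VOL

namespace RC

theorem NP_eq (a B u : ℝ) : NP a B u = np ((a + B) ^ 2) (a * B) u := by
  unfold NP kq np
  ring

theorem NM_eq (a B v : ℝ) : NM a B v = nm ((a + B) ^ 2) (a * B) v := by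
  unfold NM kq nm
  ring

theorem ta_mul_lt {x y x' y' : ℝ} (hx : x ∈ Ioo (0 : ℝ) 1) (hy : y ∈ Ioo (0 : ℝ) 1)
    (hx' : x' ∈ Ioo (0 : ℝ) 1) (hy' : y' ∈ Ioo (0 : ℝ) 1) :
    ta x * ta y < ta x' * ta y' ↔ gh x + gh y < gh x' + gh y' := by
  rw [ta_eq_exp hx, ta_eq_exp hy, ta_eq_exp hx', ta_eq_exp hy', ← Real.exp_add, ← Real.exp_add,
    Real.exp_lt_exp]

theorem ta_mul_le {x y x' y' : ℝ} (hx : x ∈ Ioo (0 : ℝ) 1) (hy : y ∈ Ioo (0 : ℝ) 1)
    (hx' : x' ∈ Ioo (0 : ℝ) 1) (hy' : y' ∈ Ioo (0 : ℝ) 1) :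
    ta x * ta y ≤ ta x' * ta y' ↔ gh x + gh y ≤ gh x' + gh y' := by
  rw [ta_eq_exp hx, ta_eq_exp hy, ta_eq_exp hx', ta_eq_exp hy', ← Real.exp_add, ← Real.exp_add,
    Real.exp_le_exp]

theorem ta_lt {x y : ℝ} (hx : x ∈ Ioo (0 : ℝ) 1) (hy : y ∈ Ioo (0 : ℝ) 1) :
    ta x < ta y ↔ gh x < gh y := by
  rw [ta_eq_exp hx, ta_eq_exp hy, Real.exp_lt_exp]

theorem ta_lt' {x y : ℝ} (hx : x ∈ Ioo (0 : ℝ) 1) (hy : y ∈ Ioo (0 : ℝ) 1) :
    ta x < ta y ↔ x < y := by
  rw [ta_lt hx hy, gh_lt hx hy]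

theorem ta_le' {x y : ℝ} (hx : x ∈ Ioo (0 : ℝ) 1) (hy : y ∈ Ioo (0 : ℝ) 1) :
    ta x ≤ ta y ↔ x ≤ y := by
  rw [← not_lt, ← not_lt, ta_lt' hy hx]

theorem ta_half : ta (1 / 2) = 1 := by
  unfold ta
  rw [show π * (1 / 2) / 2 = π / 4 by ring, Real.tan_pi_div_four]

theorem ta_le_one {y : ℝ} (hy : y ∈ Ioo (0 : ℝ) 1) (h : y ≤ 1 / 2) : ta y ≤ 1 := by
  rw [← ta_half]
  exact (ta_le' hy ⟨by norm_num, by norm_num⟩).2 h

theorem gh_half : gh (1 / 2) = 0 := by
  rw [← log_ta, ta_half, Real.log_one]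

theorem add_lt_iff {x y : ℝ} (hx : x ∈ Ioo (0 : ℝ) 1) (hy : y ∈ Ioo (0 : ℝ) 1) :
    ta x * ta y < 1 ↔ x + y < 1 := by
  rw [add_lt_one_iff hx hy, ta_eq_exp hx, ta_eq_exp hy, ← Real.exp_add, Real.exp_lt_one_iff]

section
variable {x y xs ys T η : ℝ}

theorem NM_pos_of (hx : x ∈ Ioo (0 : ℝ) 1) (hy : y ∈ Ioo (0 : ℝ) 1) (hn : Nz x y T η) :
    0 < NM (ta x) (ta y) (shq (T - η)) := by
  have h := MM_pos_of hn.2
  rw [sin_sub_ta hx hy] at h
  have hk := kq_pos (ta x) (ta y)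
  have e : NM (ta x) (ta y) (shq (T - η)) = kq (ta x) (ta y) ^ 2 *
      ((2 * (ta y - ta x) * (1 + ta x * ta y) / kq (ta x) (ta y)) ^ 2 + shq (T - η)) := by
    unfold NM
    field_simp
    ring
  rw [e]
  positivity

theorem NP_pos_of (hx : x ∈ Ioo (0 : ℝ) 1) (hy : y ∈ Ioo (0 : ℝ) 1) (h : x + y < 1) (t : ℝ) :
    0 < NP (ta x) (ta y) (shq t) :=
  NP_pos (ta_pos hx) (ta_pos hy) ((add_lt_iff hx hy).2 h) (shq_nonneg t)

/-- **The ring variable moves down more than the hinge.** -/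
theorem zdn (hxs : xs ∈ Ioo (0 : ℝ) 1) (hys : ys ∈ Ioo (0 : ℝ) 1) (hx : x ∈ Ioo (0 : ℝ) 1)
    (hy : y ∈ Ioo (0 : ℝ) 1) (hs : xs < ys) (hy1 : ys ≤ 1 / 2) (hxy : x + y < 1)
    (hN : |gh x - gh xs| < gh ys - gh y)
    (hK : ta xs * ta x < ta ys * ta y) (hv : shq (T - η) < 16 * (ta x * ta y))
    (hf : 0 < ff ((ta xs + ta ys) ^ 2) (ta xs * ta ys) (shq (T - η))
      (ta x * ta y / (ta xs * ta ys))) (hn : Nz x y T η) :
    Dx xs ys T η < Dx x y T η := by
  have hN' := abs_lt.1 hN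
  have h1 : ta xs * ta y < ta x * ta ys := (ta_mul_lt hxs hy hx hys).2 (by linarith only [hN'])
  have h2 : ta x * ta y < ta xs * ta ys := (ta_mul_lt hx hy hxs hys).2 (by linarith only [hN'])
  have hns : Nz xs ys T η := Nz_of hxs.1 hs (by linarith only [hs, hy1])
  have key := z_dn (u := shq (T + η)) (v := shq (T - η)) (ta_pos hxs) ((ta_lt' hxs hys).2 hs)
    (ta_le_one hys hy1) (ta_pos hx) (ta_pos hy) h1 h2 hK (shq_nonneg _) (shq_nonneg _) hv hf
  rw [← NP_eq, ← NM_eq, ← NP_eq, ← NM_eq] at key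
  exact Dx_lt hxs hys hx hy (NP_pos_of hxs hys (by linarith only [hs, hy1]) _) (NM_pos_of hxs hys hns)
    (NP_pos_of hx hy hxy _) (NM_pos_of hx hy hn) key

/-- **The ring variable moves up more than the hinge.** -/
theorem zup (hxs : xs ∈ Ioo (0 : ℝ) 1) (hys : ys ∈ Ioo (0 : ℝ) 1) (hx : x ∈ Ioo (0 : ℝ) 1)
    (hy : y ∈ Ioo (0 : ℝ) 1) (hs : xs < ys) (hy1 : y ≤ 1 / 2)
    (hN : |gh x - gh xs| < gh y - gh ys) (hv : shq (T - η) < 16 * (ta xs * ta ys))
    (hf : 0 < ff ((ta xs + ta ys) ^ 2) (ta xs * ta ys) (shq (T - η))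
      (ta x * ta y / (ta xs * ta ys))) :
    Dx x y T η < Dx xs ys T η := by
  have hN' := abs_lt.1 hN
  have h1 : ta x * ta ys < ta xs * ta y := (ta_mul_lt hx hys hxs hy).2 (by linarith only [hN'])
  have h2 : ta xs * ta ys < ta x * ta y := (ta_mul_lt hxs hys hx hy).2 (by linarith only [hN'])
  have hyy : ys < y := (gh_lt hys hy).1 (by linarith only [hN', abs_nonneg (gh x - gh xs)])
  have hns : Nz xs ys T η := Nz_of hxs.1 hs (by linarith only [hs, hy1, hyy])
  have hxy : x < y := by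
    have := (gh_lt hxs hys).2 hs
    exact (gh_lt hx hy).1 (by linarith only [hN', this])
  have hn : Nz x y T η := Nz_of hx.1 hxy (by linarith only [hy1, hxy])
  have key := z_up (u := shq (T + η)) (v := shq (T - η)) (ta_pos hxs) ((ta_lt' hxs hys).2 hs)
    (ta_pos hx) (ta_pos hy) (ta_le_one hy hy1) h1 h2 (shq_nonneg _) (shq_nonneg _) hv hf
  rw [← NP_eq, ← NM_eq, ← NP_eq, ← NM_eq] at key
  exact Dx_lt hx hy hxs hys (NP_pos_of hx hy (by linarith only [hy1, hxy]) _) (NM_pos_of hx hy hn)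
    (NP_pos_of hxs hys (by linarith only [hs, hy1, hyy]) _) (NM_pos_of hxs hys hns) key

/-- comparison of the sides along `gh x + gh y = const` -/
theorem wanti {x1 y1 x2 y2 : ℝ} (hx1 : x1 ∈ Ioo (0 : ℝ) 1) (hy1 : y1 ∈ Ioo (0 : ℝ) 1)
    (hx2 : x2 ∈ Ioo (0 : ℝ) 1) (hy2 : y2 ∈ Ioo (0 : ℝ) 1) (hg : gh x1 + gh y1 = gh x2 + gh y2)
    (h1 : x1 + y1 < 1) (h : x1 < x2) (h2 : x2 ≤ 1 / 2)
    (hα : (ta x2 + ta y2) ^ 2 ≤ (ta x1 + ta y1) ^ 2)
    (hcos : kq (ta x1) (ta y1) ≤ 2 * (1 + ta x1 * ta y1) ^ 2)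
    (hs : HS (ta x1) (ta y1) (shq (T - η))) (hn1 : Nz x1 y1 T η) (hn2 : Nz x2 y2 T η) :
    Sx x2 y2 T η < Sx x1 y1 T η := by
  have hp : ta x1 * ta y1 = ta x2 * ta y2 := by
    rw [ta_eq_exp hx1, ta_eq_exp hy1, ta_eq_exp hx2, ta_eq_exp hy2, ← Real.exp_add, ← Real.exp_add,
      hg]
  have hp1 := (add_lt_iff hx1 hy1).2 h1
  have h3 : x2 + y2 < 1 := (add_lt_iff hx2 hy2).1 (by rw [← hp]; exact hp1)
  have m1 := NM_pos_of hx1 hy1 hn1
  refine Sx_lt hx2 hy2 hx1 hy1 (NP_pos_of hx2 hy2 h3 _) (NM_pos_of hx2 hy2 hn2)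
    (NP_pos_of hx1 hy1 h1 _) m1 ?_
  exact w_anti (ta_pos hx1) (ta_pos hy1) hp hp1 ((ta_lt' hx1 hx2).2 h) (ta_le_one hx2 h2) hα hcos
    (shq_nonneg _) (shq_nonneg _) (shq_nonneg _) hs m1

end

/-- the common point of the diagonal through the saddle point and the antidiagonal -/
noncomputable def xd (xs ys x y : ℝ) : ℝ := ghi ((gh xs + gh x + (gh y - gh ys)) / 2)
noncomputable def yd (xs ys x y : ℝ) : ℝ := ghi ((gh ys + gh y + (gh x - gh xs)) / 2)

section
variable {x y xs ys T η : ℝ}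

/-- **Own hinge up.** -/
theorem wup (hxs : xs ∈ Ioo (0 : ℝ) 1) (hys : ys ∈ Ioo (0 : ℝ) 1) (hx : x ∈ Ioo (0 : ℝ) 1)
    (hy : y ∈ Ioo (0 : ℝ) 1) (hs : xs < ys) (hxy : x + y < 1) (hx2 : x ≤ 1 / 2)
    (hlt : xs < x) (hN : |gh y - gh ys| ≤ gh x - gh xs)
    (hK : ta xs * ta x ≤ ta ys * ta y) (hn : Nz x y T η)
    (hrow : ∀ x' y', x' ∈ Icc xs x → y' ∈ Ioo (0 : ℝ) 1 → ys ≤ y' → gh x' - gh xs = gh y' - gh ys →
      ta x' * ta y' ≤ ta x * ta y → 0 < Real.cos (π * x') + Real.cos (π * y') ∧ 0 < WW x' y' T η ∧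
      kq (ta x') (ta y') ≤ 2 * (1 + ta x' * ta y') ^ 2 ∧ HS (ta x') (ta y') (shq (T - η))) :
    Sx x y T η < Sx xs ys T η := by
  have hN' := abs_le.1 hN
  have hgs := (gh_lt hxs hys).2 hs
  have hgx := (gh_lt hxs hx).2 hlt
  set X := xd xs ys x y with hX
  set Y := yd xs ys x y with hY
  have gX : gh X = (gh xs + gh x + (gh y - gh ys)) / 2 := gh_ghi _
  have gY : gh Y = (gh ys + gh y + (gh x - gh xs)) / 2 := gh_ghi _
  have hXi : X ∈ Ioo (0 : ℝ) 1 := ghi_mem _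
  have hYi : Y ∈ Ioo (0 : ℝ) 1 := ghi_mem _
  have hXxs : xs ≤ X := by
    by_contra hcon
    push Not at hcon
    have := (gh_lt hXi hxs).2 hcon
    linarith only [hN', gX, this]
  have hXx : X ≤ x := by
    by_contra hcon
    push Not at hcon
    have := (gh_lt hx hXi).2 hcon
    linarith only [hN', gX, this]
  have hYys : ys ≤ Y := by
    by_contra hcon
    push Not at hcon
    have := (gh_lt hYi hys).2 hcon
    linarith only [hN', gY, this]
  have hXY : X < Y := (gh_lt hXi hYi).1 (by linarith only [hgs, gX, gY])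
  have hpXY : ta X * ta Y = ta x * ta y := by
    rw [ta_eq_exp hXi, ta_eq_exp hYi, ta_eq_exp hx, ta_eq_exp hy, ← Real.exp_add, ← Real.exp_add]
    congr 1
    linarith only [gX, gY]
  have hXY1 : X + Y < 1 := (add_lt_iff hXi hYi).1 (by rw [hpXY]; exact (add_lt_iff hx hy).2 hxy)
  have hnXY : Nz X Y T η := Nz_of hXi.1 hXY hXY1
  -- diagonal part
  have hdiag : X = xs ∨ Sx X Y T η < Sx xs ys T η := by
    rcases hXxs.lt_or_eq with h | h
    · right
      have := diag_mono (T := T) (η := η) (c := 0) (a1 := 0) hxs hys hXi hYi h hs (by linarith only [gX, gY]) hXY1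
        (fun x' y' h1 h2 h3 => ?_)
      · simpa using this
      · have hy'0 : y' ∈ Ioo (0 : ℝ) 1 := ⟨hys.1.trans_le h2.1, h2.2.trans_lt hYi.2⟩
        have hx'0 : x' ∈ Ioo (0 : ℝ) 1 := ⟨hxs.1.trans_le h1.1, h1.2.trans_lt hXi.2⟩
        obtain ⟨r1, r2, -, -⟩ := hrow x' y' ⟨h1.1, h1.2.trans hXx⟩ hy'0 h2.1 h3 (by
          rw [← hpXY]
          apply mul_le_mul ((ta_le' hx'0 hXi).2 h1.2) ((ta_le' hy'0 hYi).2 h2.2) (ta_pos hy'0).le
            (ta_pos hXi).le)
        refine ⟨r1, ?_⟩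
        simpa using r2
    · left
      exact h.symm
  have hanti : X = x ∨ Sx x y T η < Sx X Y T η := by
    rcases hXx.lt_or_eq with h | h
    · right
      obtain ⟨-, -, r3, r4⟩ := hrow X Y ⟨hXxs, hXx⟩ hYi hYys (by linarith only [gX, gY]) hpXY.le
      refine wanti hXi hYi hx hy (by linarith only [gX, gY]) hXY1 h hx2 ?_ r3 r4 hnXY hn
      -- `α`
      have hax := ta_pos hxs
      have hay := ta_pos hys
      have hq := quad_id (ta xs) (ta ys) (ta x) (ta y)
      have h5 : 0 ≤ (ta xs * ta x - ta ys * ta y) * (ta xs * ta y - ta x * ta ys) := by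
        apply mul_nonneg_of_nonpos_of_nonpos (by linarith only [hK])
        have := (ta_mul_le hxs hy hx hys).2 (by linarith only [hN'])
        linarith only [this]
      have h6 : ta xs * ta ys * (ta X + ta Y) ^ 2 = ta x * ta y * (ta xs + ta ys) ^ 2 := by
        have e1 : ta X * ta ys = ta Y * ta xs := by
          rw [ta_eq_exp hXi, ta_eq_exp hYi, ta_eq_exp hxs, ta_eq_exp hys, ← Real.exp_add,
            ← Real.exp_add]
          congr 1
          linarith only [gX, gY]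
        rw [← hpXY]
        linear_combination (ta X * ta xs - ta Y * ta ys) * e1
      have h7 : ta xs * ta ys * (ta x + ta y) ^ 2 ≤ ta xs * ta ys * (ta X + ta Y) ^ 2 := by
        linarith only [h5, h6]
      exact le_of_mul_le_mul_left h7 (by positivity)
    · left
      exact h
  rcases hdiag with h | h
  · rcases hanti with h' | h'
    · exfalso
      rw [h'] at h
      exact hlt.ne' h
    · have : Y = ys := by
        have e : gh Y = gh ys := by
          have : gh X = gh xs := by rw [h]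
          linarith only [hN', gY, gX, this]
        rw [← ghi_gh hYi, e, ghi_gh hys]
      rwa [h, this] at h'
  · rcases hanti with h' | h'
    · have : Y = y := by
        have e : gh Y = gh y := by
          have : gh X = gh x := by rw [h']
          linarith only [hN', gY, gX, this]
        rw [← ghi_gh hYi, e, ghi_gh hy]
      rwa [h', this] at h
    · exact h'.trans h

/-- **Own hinge down.** -/
theorem wdn (hxs : xs ∈ Ioo (0 : ℝ) 1) (hys : ys ∈ Ioo (0 : ℝ) 1) (hx : x ∈ Ioo (0 : ℝ) 1)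
    (hy : y ∈ Ioo (0 : ℝ) 1) (hs : xs < ys) (hxys : xs + ys < 1) (hxy : x + y < 1)
    (hxs2 : xs ≤ 1 / 2) (hlt : x < xs) (hN : |gh y - gh ys| ≤ gh xs - gh x) (hn : Nz x y T η)
    (hrow : ∀ x' y', x' ∈ Icc x xs → y' ∈ Ioo (0 : ℝ) 1 → y' ≤ ys → gh x' - gh xs = gh y' - gh ys →
      ta x * ta y ≤ ta x' * ta y' → 0 < Real.cos (π * x') + Real.cos (π * y') ∧ 0 < WW x' y' T η)
    (hcos : kq (ta x) (ta y) ≤ 2 * (1 + ta x * ta y) ^ 2)
    (hHS : HS (ta x) (ta y) (shq (T - η))) :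
    Sx xs ys T η < Sx x y T η := by
  have hN' := abs_le.1 hN
  have hgs := (gh_lt hxs hys).2 hs
  have hgx := (gh_lt hx hxs).2 hlt
  set X := xd xs ys x y with hX
  set Y := yd xs ys x y with hY
  have gX : gh X = (gh xs + gh x + (gh y - gh ys)) / 2 := gh_ghi _
  have gY : gh Y = (gh ys + gh y + (gh x - gh xs)) / 2 := gh_ghi _
  have hXi : X ∈ Ioo (0 : ℝ) 1 := ghi_mem _
  have hYi : Y ∈ Ioo (0 : ℝ) 1 := ghi_mem _
  have hXxs : X ≤ xs := by
    by_contra hcon
    push Not at hcon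
    have := (gh_lt hxs hXi).2 hcon
    linarith only [hN', gX, this]
  have hXx : x ≤ X := by
    by_contra hcon
    push Not at hcon
    have := (gh_lt hXi hx).2 hcon
    linarith only [hN', gX, this]
  have hYys : Y ≤ ys := by
    by_contra hcon
    push Not at hcon
    have := (gh_lt hys hYi).2 hcon
    linarith only [hN', gY, this]
  have hXY : X < Y := (gh_lt hXi hYi).1 (by linarith only [hgs, gX, gY])
  have hpXY : ta X * ta Y = ta x * ta y := by
    rw [ta_eq_exp hXi, ta_eq_exp hYi, ta_eq_exp hx, ta_eq_exp hy, ← Real.exp_add, ← Real.exp_add]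
    congr 1
    linarith only [gX, gY]
  have hXY1 : X + Y < 1 := (add_lt_iff hXi hYi).1 (by rw [hpXY]; exact (add_lt_iff hx hy).2 hxy)
  have hnXY : Nz X Y T η := Nz_of hXi.1 hXY hXY1
  -- diagonal part
  have hdiag : X = xs ∨ Sx xs ys T η < Sx X Y T η := by
    rcases hXxs.lt_or_eq with h | h
    · right
      have := diag_mono (T := T) (η := η) (c := 0) (a1 := 0) hXi hYi hxs hys h hXY (by linarith only [gX, gY]) hxys
        (fun x' y' h1 h2 h3 => ?_)
      · simpa using this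
      · have hy'0 : y' ∈ Ioo (0 : ℝ) 1 := ⟨hYi.1.trans_le h2.1, h2.2.trans_lt hys.2⟩
        have hx'0 : x' ∈ Ioo (0 : ℝ) 1 := ⟨hXi.1.trans_le h1.1, h1.2.trans_lt hxs.2⟩
        obtain ⟨r1, r2⟩ := hrow x' y' ⟨hXx.trans h1.1, h1.2⟩ hy'0 h2.2 (by linarith only [gX, gY, h3]) (by
          rw [← hpXY]
          apply mul_le_mul ((ta_le' hXi hx'0).2 h1.1) ((ta_le' hYi hy'0).2 h2.1) (ta_pos hYi).le
            (ta_pos hx'0).le)
        refine ⟨r1, ?_⟩
        simpa using r2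
    · left
      exact h
  have hanti : X = x ∨ Sx X Y T η < Sx x y T η := by
    rcases hXx.lt_or_eq with h | h
    · right
      refine wanti hx hy hXi hYi (by linarith only [gX, gY]) hxy h (hXxs.trans hxs2) ?_ hcos hHS hn hnXY
      -- `α`
      have hax := ta_pos hxs
      have hay := ta_pos hys
      have hq := quad_id (ta xs) (ta ys) (ta x) (ta y)
      have h5 : (ta xs * ta x - ta ys * ta y) * (ta xs * ta y - ta x * ta ys) ≤ 0 := by
        have b1 := (ta_mul_le hxs hx hys hy).2 (by linarith only [hN', hgs])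
        have b2 := (ta_mul_le hx hys hxs hy).2 (by linarith only [hN'])
        apply mul_nonpos_of_nonpos_of_nonneg (by linarith only [b1]) (by linarith only [b2])
      have h6 : ta xs * ta ys * (ta X + ta Y) ^ 2 = ta x * ta y * (ta xs + ta ys) ^ 2 := by
        have e1 : ta X * ta ys = ta Y * ta xs := by
          rw [ta_eq_exp hXi, ta_eq_exp hYi, ta_eq_exp hxs, ta_eq_exp hys, ← Real.exp_add,
            ← Real.exp_add]
          congr 1
          linarith only [gX, gY]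
        rw [← hpXY]
        linear_combination (ta X * ta xs - ta Y * ta ys) * e1
      have h7 : ta xs * ta ys * (ta X + ta Y) ^ 2 ≤ ta xs * ta ys * (ta x + ta y) ^ 2 := by
        linarith only [h5, h6]
      exact le_of_mul_le_mul_left h7 (by positivity)
    · left
      exact h.symm
  rcases hdiag with h | h
  · rcases hanti with h' | h'
    · exfalso
      rw [h'] at h
      exact hlt.ne h
    · have : Y = ys := by
        have e : gh Y = gh ys := by
          have : gh X = gh xs := by rw [h]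
          linarith only [gX, gY, this, hN']
        rw [← ghi_gh hYi, e, ghi_gh hys]
      rwa [h, this] at h'
  · rcases hanti with h' | h'
    · have : Y = y := by
        have e : gh Y = gh y := by
          have : gh X = gh x := by rw [h']
          linarith only [gX, gY, this, hN']
        rw [← ghi_gh hYi, e, ghi_gh hy]
      rwa [h', this] at h
    · exact h.trans h'

end

end RC

end Pool.Agent.Work.MP_b30479_gt.G2
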