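import Pool.Agent.Work.MP_b30479_gt.G2.RRowA
import Pool.Agent.Work.MP_b30479_gt.G2.RDw

/-!
# Rings: numerical bounds and the start condition
-/

namespace Pool.Agent.Work.MP_b30479_gt.G2

open Real Set VOL

namespace RC

namespace Row

open NumI NumI.E

/-- `m/e < ta (n/d)` -/
theorem ta_gt {n : ℤ} {d : ℕ} {m : ℤ} {e : ℕ}
    (h : chk [sub (sinPi (q n (2 * d))) (mul (q m e) (cosPi (q n (2 * d))))] 1 [V.of 1 0 1] = true)
    (hx : ((n : ℝ) / d) ∈ Ioo (0 : ℝ) 1) : (m : ℝ) / e < ta ((n : ℝ) / d) := by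
  have h1 := pos_of_chk (chk1 h (x := 0) (by norm_num) (by norm_num) (by norm_num))
  simp only [E.val] at h1
  have hc := cos_half_pos hx
  unfold ta
  rw [Real.tan_eq_sin_div_cos, lt_div_iff₀ hc]
  have e1 : π * ((n : ℝ) / (2 * d : ℕ)) = π * ((n : ℝ) / d) / 2 := by
    push_cast
    rw [mul_div_assoc, div_div, mul_comm (d : ℝ) 2]
  rw [e1] at h1
  linarith only [h1]

/-- `ta (n/d) < m/e` -/
theorem ta_ltq {n : ℤ} {d : ℕ} {m : ℤ} {e : ℕ}
    (h : chk [sub (mul (q m e) (cosPi (q n (2 * d)))) (sinPi (q n (2 * d)))] 1 [V.of 1 0 1] = true)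
    (hx : ((n : ℝ) / d) ∈ Ioo (0 : ℝ) 1) : ta ((n : ℝ) / d) < (m : ℝ) / e := by
  have h1 := pos_of_chk (chk1 h (x := 0) (by norm_num) (by norm_num) (by norm_num))
  simp only [E.val] at h1
  have hc := cos_half_pos hx
  unfold ta
  rw [Real.tan_eq_sin_div_cos, div_lt_iff₀ hc]
  have e1 : π * ((n : ℝ) / (2 * d : ℕ)) = π * ((n : ℝ) / d) / 2 := by
    push_cast
    rw [mul_div_assoc, div_div, mul_comm (d : ℝ) 2]
  rw [e1] at h1
  linarith only [h1]

/-- `shq (n/d) < m/e` -/
theorem shq_ltq {n : ℤ} {d : ℕ} {m : ℤ} {e : ℕ}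
    (h : chk [sub (q m e) (sq (sinh (mul pi (q n d))))] 1 [V.of 1 0 1] = true) :
    shq ((n : ℝ) / d) < (m : ℝ) / e := by
  have h1 := pos_of_chk (chk1 h (x := 0) (by norm_num) (by norm_num) (by norm_num))
  simp only [E.val] at h1
  unfold shq
  linarith only [h1]

theorem t8_gt : (4142 : ℝ) / 10000 < ta (1 / 4) := by
  have := ta_gt (n := 1) (d := 4) (m := 4142) (e := 10000) (by decide +kernel) (by norm_num)
  norm_num at this ⊢
  exact this

theorem t32_lt : ta (32 / 100) < (54976 : ℝ) / 100000 := by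
  have := ta_ltq (n := 32) (d := 100) (m := 54976) (e := 100000) (by decide +kernel) (by norm_num)
  norm_num at this ⊢
  exact this

theorem t30_lt : ta (3 / 10) < (5096 : ℝ) / 10000 := by
  have := ta_ltq (n := 3) (d := 10) (m := 5096) (e := 10000) (by decide +kernel) (by norm_num)
  norm_num at this ⊢
  exact this

theorem t16_gt : (2567 : ℝ) / 10000 < ta (16 / 100) := by
  have := ta_gt (n := 16) (d := 100) (m := 2567) (e := 10000) (by decide +kernel) (by norm_num)
  norm_num at this ⊢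
  exact this

theorem t125_gt : (1989 : ℝ) / 10000 < ta (1 / 8) := by
  have := ta_gt (n := 1) (d := 8) (m := 1989) (e := 10000) (by decide +kernel) (by norm_num)
  norm_num at this ⊢
  exact this

theorem t10_gt : (15838 : ℝ) / 100000 < ta (1 / 10) := by
  have := ta_gt (n := 1) (d := 10) (m := 15838) (e := 100000) (by decide +kernel) (by norm_num)
  norm_num at this ⊢
  exact this

theorem shq_lt_of {t : ℝ} {n : ℤ} {d : ℕ} {m : ℤ} {e : ℕ} (ht : |t| ≤ (n : ℝ) / d)
    (h : chk [sub (q m e) (sq (sinh (mul pi (q n d))))] 1 [V.of 1 0 1] = true) :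
    shq t < (m : ℝ) / e :=
  (shq_mono (by rwa [abs_of_nonneg ((abs_nonneg t).trans ht)])).trans_lt (shq_ltq h)

/-- class 1: `|t| ≤ .158` -/
theorem shq158 {t : ℝ} (ht : |t| ≤ 158 / 1000) : shq t ≤ 2678 / 10000 := by
  have := shq_lt_of (t := t) (n := 158) (d := 1000) (m := 2678) (e := 10000) (by push_cast; exact ht)
    (by decide +kernel)
  push_cast at this
  exact this.le

theorem shq131 {t : ℝ} (ht : |t| ≤ 131 / 1000) : shq t ≤ 1792 / 10000 := by
  have := shq_lt_of (t := t) (n := 131) (d := 1000) (m := 1792) (e := 10000) (by push_cast; exact ht)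
    (by decide +kernel)
  push_cast at this
  exact this.le

theorem shq60 {t : ℝ} (ht : |t| ≤ 60 / 1000) : shq t ≤ 36 / 1000 := by
  have := shq_lt_of (t := t) (n := 60) (d := 1000) (m := 36) (e := 1000) (by push_cast; exact ht)
    (by decide +kernel)
  push_cast at this
  exact this.le

theorem shq164 {t : ℝ} (ht : |t| ≤ 1645 / 10000) : shq t ≤ 2926 / 10000 := by
  have := shq_lt_of (t := t) (n := 1645) (d := 10000) (m := 2926) (e := 10000)
    (by push_cast; exact ht) (by decide +kernel)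
  push_cast at this
  exact this.le

theorem shq200 {t : ℝ} (ht : |t| ≤ 200 / 1000) : shq t ≤ 45 / 100 := by
  have := shq_lt_of (t := t) (n := 200) (d := 1000) (m := 45) (e := 100)
    (by push_cast; exact ht) (by decide +kernel)
  push_cast at this
  exact this.le

/-! ### the start condition -/

/-- variables `a`, `B`; `2 = 1 + B²`, `3 = 1 + a²`, `4 = a B`, `5 = k`, `6 = (1 - a B)²`,
`7 = (1 + a B)²` -/
def wrp (e : E) : E :=
  lt (add one (sq (var 1))) <| lt (add one (sq (var 0))) <|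
  lt (mul (var 0) (var 1)) <| lt (mul (var 2) (var 3)) <| lt (sq (sub one (var 4))) <|
  lt (sq (add one (var 4))) e

def ehs (v : E) : E := sub (mul (mul (var 7) (sub (mul two (var 7)) (var 5)))
    (mul four (sq (add (var 0) (var 1)))))
  (mul (sub (var 5) (mul two (var 6)))
    (add (mul four (mul (sq (sub (var 1) (var 0))) (var 7))) (mul v (sq (var 5)))))

theorem ehs_val (a B : ℝ) (n : ℤ) (d : ℕ) : (wrp (ehs (q n d))).val [a, B] =
    (1 + a * B) ^ 2 * (2 * (1 + a * B) ^ 2 - (1 + a ^ 2) * (1 + B ^ 2)) * (4 * (a + B) ^ 2) -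
    ((1 + a ^ 2) * (1 + B ^ 2) - 2 * (1 - a * B) ^ 2) *
      (4 * (B - a) ^ 2 * (1 + a * B) ^ 2 + n / d * ((1 + a ^ 2) * (1 + B ^ 2)) ^ 2) := by
  simp only [wrp, ehs, one, two, four, E.val, lkR_zero, lkR_succ, List.cons_append,
    List.nil_append]
  push_cast
  ring_nf

theorem HS_of {a B v w : ℝ} (hcos : kq a B ≤ 2 * (1 + a * B) ^ 2) (hv : 0 ≤ v) (hvw : v ≤ w)
    (h : 2 * (1 - a * B) ^ 2 ≤ kq a B → HS a B w) : HS a B v := by
  unfold HS kq at *
  have hR : 0 ≤ (1 + a * B) ^ 2 * (2 * (1 + a * B) ^ 2 - (1 + a ^ 2) * (1 + B ^ 2)) *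
      (4 * (a + B) ^ 2) := by
    have : 0 ≤ 2 * (1 + a * B) ^ 2 - (1 + a ^ 2) * (1 + B ^ 2) := by linarith only [hcos]
    positivity
  rcases le_total ((1 + a ^ 2) * (1 + B ^ 2)) (2 * (1 - a * B) ^ 2) with h1 | h1
  · refine le_trans (mul_nonpos_of_nonpos_of_nonneg (by linarith only [h1]) (by positivity)) hR
  · refine le_trans (mul_le_mul_of_nonneg_left ?_ (by linarith only [h1])) (h h1)
    have := mul_le_mul_of_nonneg_right hvw
      (show 0 ≤ ((1 + a ^ 2) * (1 + B ^ 2)) ^ 2 by positivity)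
    linarith only [this]

theorem chsD : chk [wrp (ehs (q 45 100)), gtK 94 100, neg (gtK 0 1), neg (ltP 55 100), neg cap] 16
    [V.of 1000 158 550, V.of 1000 414 1000] = true := by decide +kernel

theorem chsU : chk [wrp (ehs (q 45 100)), gtK 94 100, neg (gtK 30 100), neg (ltP 55 100), neg cap] 16
    [V.of 1000 256 550, V.of 1000 256 1430] = true := by decide +kernel

/-- going down -/
theorem hsD {a B v : ℝ} (h1 : 158 / 1000 ≤ a) (h2 : a ≤ 550 / 1000) (h3 : 414 / 1000 ≤ B)
    (h4 : B ≤ 1) (k1 : a ≤ 94 / 100 * B) (hp' : a * B ≤ 55 / 100) (hv : 0 ≤ v)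
    (hv1 : v ≤ 45 / 100) (hcos : kq a B ≤ 2 * (1 + a * B) ^ 2) : HS a B v := by
  refine HS_of hcos hv hv1 fun hc => ?_
  have h := pick5 (chk2 chsD (by norm_num) (x := a) (y := B) (by norm_num; linarith only [h1])
    (by norm_num; linarith only [h2]) (by norm_num; linarith only [h3]) (by norm_num; linarith only [h4]))
    (gtK_val (by push_cast; linarith only [k1])) (ngtK_val (by push_cast; linarith only [h1]))
    (gtP_val (by push_cast; linarith only [hp'])) (ncap_val hc)
  rw [ehs_val] at h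
  unfold HS
  push_cast at h
  linarith only [h]

/-- going up -/
theorem hsU {a B v : ℝ} (h1 : 256 / 1000 ≤ a) (h2 : a ≤ 550 / 1000) (h3 : 256 / 1000 ≤ B)
    (h4 : B ≤ 1430 / 1000) (k0 : 30 / 100 * B ≤ a) (k1 : a ≤ 94 / 100 * B)
    (hp' : a * B ≤ 55 / 100) (hv : 0 ≤ v)
    (hv1 : v ≤ 45 / 100) (hcos : kq a B ≤ 2 * (1 + a * B) ^ 2) : HS a B v := by
  refine HS_of hcos hv hv1 fun hc => ?_
  have h := pick5 (chk2 chsU (by norm_num) (x := a) (y := B) (by norm_num; linarith only [h1])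
    (by norm_num; linarith only [h2]) (by norm_num; linarith only [h1, k1]) (by norm_num; linarith only [h4]))
    (gtK_val (by push_cast; linarith only [k1])) (ngtK_val (by push_cast; linarith only [k0]))
    (gtP_val (by push_cast; linarith only [hp'])) (ncap_val hc)
  rw [ehs_val] at h
  unfold HS
  push_cast at h
  linarith only [h]

end Row

end RC

end Pool.Agent.Work.MP_b30479_gt.G2
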