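import Pool.Agent.Work.MP_b30479_gt.G2.RLvl
import Pool.Agent.Work.MP_b30479_gt.G2.RNum
import Pool.Agent.Work.MP_b30479_gt.G2.RHin

/-!
# Rings on the level part: comparison statements from data of the saddle point
-/

namespace Pool.Agent.Work.MP_b30479_gt.G2

open Real Set VOL

namespace RC

open Row

/-- ranges at the saddle point; `(xs, ys)`: saddle point, `[cl, cp]` flat part of the path -/
structure GD (xs ys cl cp : ℝ) : Prop where
  cl0 : 0 < cl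
  cp2 : cp < 1 / 2
  xl : cl ≤ xs
  xc : xs ≤ cp
  hs : xs < ys
  y4 : 1 / 4 ≤ ys
  y2 : ys ≤ 1 / 2

section
variable {xs ys T ρ cl cp a0 a1 p0 κ1 : ℝ}

theorem GD.xi (g : GD xs ys cl cp) : xs ∈ Ioo (0 : ℝ) 1 :=
  ⟨g.cl0.trans_le g.xl, by linarith only [g, g.xc, g.cp2]⟩

theorem GD.yi (g : GD xs ys cl cp) : ys ∈ Ioo (0 : ℝ) 1 :=
  ⟨by linarith only [g, g.y4], by linarith only [g, g.y2]⟩

theorem GD.x1 (g : GD xs ys cl cp) {x : ℝ} (hx : x ∈ Icc cl cp) : x ∈ Ioo (0 : ℝ) 1 :=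
  ⟨g.cl0.trans_le hx.1, by linarith only [hx, g, hx.2, g.cp2]⟩

theorem GD.cli (g : GD xs ys cl cp) : cl ∈ Ioo (0 : ℝ) 1 := g.x1 ⟨le_rfl, g.xl.trans g.xc⟩
theorem GD.cpi (g : GD xs ys cl cp) : cp ∈ Ioo (0 : ℝ) 1 := g.x1 ⟨g.xl.trans g.xc, le_rfl⟩

theorem quarter_mem : (1 / 4 : ℝ) ∈ Ioo (0 : ℝ) 1 := ⟨by norm_num, by norm_num⟩

theorem t8_le {y : ℝ} (hy : y ∈ Ioo (0 : ℝ) 1) (h : 1 / 4 ≤ y) : 4142 / 10000 < ta y :=
  t8_gt.trans_le ((ta_le' quarter_mem hy).2 h)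

/-- `k ≤ 2 (1 + a B)²` -/
theorem hcos_of {a B : ℝ} (h : a < B) (h1 : B * (1 - a) ≤ 1 + a) :
    kq a B ≤ 2 * (1 + a * B) ^ 2 := by
  unfold kq
  have h2 : (B - a) ^ 2 ≤ (1 + a * B) ^ 2 :=
    pow_le_pow_left₀ (by linarith only [h]) (by linarith only [h1]) 2
  nlinarith only [h2]

/-- `cos πx + cos πy > 0` -/
theorem coscos {x y : ℝ} (hx : x ∈ Ioo (0 : ℝ) 1) (hy : y ∈ Ioo (0 : ℝ) 1) (hp : ta x * ta y < 1) :
    0 < Real.cos (π * x) + Real.cos (π * y) := by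
  rw [cos_ta hx, cos_ta hy]
  have hax := ta_pos hx
  have hay := ta_pos hy
  have e : (1 - ta x ^ 2) / (1 + ta x ^ 2) + (1 - ta y ^ 2) / (1 + ta y ^ 2) =
      2 * (1 - ta x * ta y) * (1 + ta x * ta y) / ((1 + ta x ^ 2) * (1 + ta y ^ 2)) := by
    field_simp
    ring
  rw [e]
  have : 0 < 1 - ta x * ta y := by linarith only [hp]
  positivity

/-- diagonal relation in terms of `ta` -/
theorem diag_ta {x y : ℝ} (hxs : xs ∈ Ioo (0 : ℝ) 1) (hys : ys ∈ Ioo (0 : ℝ) 1)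
    (hx : x ∈ Ioo (0 : ℝ) 1) (hy : y ∈ Ioo (0 : ℝ) 1) (h : gh x - gh xs = gh y - gh ys) :
    ta x * ta ys = ta xs * ta y := by
  rw [ta_eq_exp hxs, ta_eq_exp hys, ta_eq_exp hx, ta_eq_exp hy, ← Real.exp_add, ← Real.exp_add]
  congr 1
  linarith only [h]

/-- the condition for the ring variable going down or up -/
theorem ff_of (hxs : xs ∈ Ioo (0 : ℝ) 1) (hys : ys ∈ Ioo (0 : ℝ) 1) (hs : xs < ys)
    (y4 : 1 / 4 ≤ ys) (y2 : ys ≤ 1 / 2) {x y v : ℝ} (hx : x ∈ Ioo (0 : ℝ) 1)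
    (hy : y ∈ Ioo (0 : ℝ) 1) (hxy : ta x * ta y < 1) (hv : 0 ≤ v)
    (hf : 0 ≤ ff ((ta xs + ta ys) ^ 2) (ta xs * ta ys) v ((4142 / 10000 / ta ys) ^ 2))
    (hm : (4142 / 10000) ^ 2 * ta xs < ta x * ta y * ta ys) :
    0 < ff ((ta xs + ta ys) ^ 2) (ta xs * ta ys) v (ta x * ta y / (ta xs * ta ys)) := by
  have hax := ta_pos hxs
  have hay := ta_pos hys
  have hB1 := ta_le_one hys y2
  have hB := t8_le hys y4
  have hlt := (ta_lt' hxs hys).2 hs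
  refine ff_pos (by positivity) ?_ hv (by positivity) ?_ ?_ hf
  · nlinarith only [hlt, sq_nonneg (ta xs - ta ys), mul_pos (sub_pos.2 hlt) (sub_pos.2 hlt)]
  · rw [div_pow, div_lt_div_iff₀ (by positivity) (by positivity)]
    calc (4142 / 10000 : ℝ) ^ 2 * (ta xs * ta ys) = (4142 / 10000) ^ 2 * ta xs * ta ys := by ring
      _ < ta x * ta y * ta ys * ta ys := mul_lt_mul_of_pos_right hm hay
      _ = _ := by ring
  · rw [div_pow]
    have e : ta x * ta y / (ta xs * ta ys) * ((4142 / 10000) ^ 2 / ta ys ^ 2) *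
        (ta xs * ta ys) ^ 2 = ta x * ta y * (ta xs * ((4142 / 10000) ^ 2 / ta ys)) := by
      field_simp
    rw [e]
    have h1 : ta xs * ((4142 / 10000) ^ 2 / ta ys) < 1 := by
      rw [← mul_div_assoc, div_lt_one hay]
      nlinarith only [hax, hlt]
    have h2 : 0 < ta xs * ((4142 / 10000) ^ 2 / ta ys) := by positivity
    have h3 : 0 < ta x * ta y := mul_pos (ta_pos hx) (ta_pos hy)
    calc ta x * ta y * (ta xs * ((4142 / 10000) ^ 2 / ta ys)) <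
        1 * (ta xs * ((4142 / 10000) ^ 2 / ta ys)) := mul_lt_mul_of_pos_right hxy h2
      _ < 1 := by linarith only [h1]

/-- the condition (H2) at the saddle point -/
def H2 (xs ys T ρ : ℝ) : Prop :=
  0 ≤ ff ((ta xs + ta ys) ^ 2) (ta xs * ta ys) (shq (T - ρ)) ((4142 / 10000 / ta ys) ^ 2)

theorem GD.dn (g : GD xs ys cl cp) (hf : H2 xs ys T ρ) (hκ : ta xs * ta cp ≤ 4142 / 10000 * ta ys)
    (ha : 158 / 1000 ≤ ta cl) (hv : shq (T - ρ) ≤ 45 / 100) : DnG xs T cl cp ys ρ := by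
  intro x y hx h1 h2 hn hN
  have hxi := g.x1 hx
  have hyi : y ∈ Ioo (0 : ℝ) 1 := ⟨by linarith only [h1], by linarith only [h2, g, g.y2]⟩
  have hax := ta_pos g.xi
  have hay := ta_pos g.yi
  have h8 := t8_le hyi h1
  have hx1 := (ta_le' g.cli hxi).2 hx.1
  have hx2 := (ta_le' hxi g.cpi).2 hx.2
  have hxy : x + y < 1 := by linarith only [h2, hx, g, hx.2, g.cp2, g.y2]
  have hN' := abs_lt.1 hN
  refine zdn g.xi g.yi hxi hyi g.hs g.y2 hxy hN ?_ ?_ ?_ hn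
  · calc ta xs * ta x ≤ ta xs * ta cp := mul_le_mul_of_nonneg_left hx2 hax.le
      _ ≤ 4142 / 10000 * ta ys := hκ
      _ < ta y * ta ys := mul_lt_mul_of_pos_right h8 hay
      _ = _ := mul_comm _ _
  · have : (158 / 1000 : ℝ) * (4142 / 10000) ≤ ta x * ta y :=
      mul_le_mul (ha.trans hx1) h8.le (by norm_num) (ta_pos hxi).le
    linarith only [hv, this]
  · refine ff_of g.xi g.yi g.hs g.y4 g.y2 hxi hyi ((add_lt_iff hxi hyi).2 hxy) (shq_nonneg _) hf ?_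
    have h3 : ta xs * ta y < ta x * ta ys := (ta_mul_lt g.xi hyi hxi g.yi).2 (by linarith only [hN'])
    calc (4142 / 10000 : ℝ) ^ 2 * ta xs = ta xs * (4142 / 10000) * (4142 / 10000) := by ring
      _ < ta xs * ta y * ta y := by
        have : ta xs * (4142 / 10000) < ta xs * ta y := mul_lt_mul_of_pos_left h8 hax
        nlinarith only [this, h8]
      _ < ta x * ta ys * ta y := mul_lt_mul_of_pos_right h3 (ta_pos hyi)
      _ = _ := by ring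

theorem GD.up (g : GD xs ys cl cp) (hf : H2 xs ys T ρ) (ha : 158 / 1000 ≤ ta cl)
    (hv : shq (T - ρ) ≤ 45 / 100) : ∀ x y, x ∈ Icc cl cp → ys < y → y ≤ 1 / 2 →
    |gh x - gh xs| < gh y - gh ys → Dx x y T ρ < Dx xs ys T ρ := by
  intro x y hx h1 h2 hN
  have hxi := g.x1 hx
  have hyi : y ∈ Ioo (0 : ℝ) 1 := ⟨by linarith only [h1, g, g.y4], by linarith only [h2]⟩
  have hax := ta_pos g.xi
  have hay := ta_pos g.yi
  have h8 := t8_le g.yi g.y4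
  have hx1 := (ta_le' g.cli g.xi).2 g.xl
  have hN' := abs_lt.1 hN
  have hxy : x + y < 1 := by linarith only [h2, hx, g, hx.2, g.cp2]
  refine zup g.xi g.yi hxi hyi g.hs h2 hN ?_ ?_
  · have : (158 / 1000 : ℝ) * (4142 / 10000) ≤ ta xs * ta ys :=
      mul_le_mul (ha.trans hx1) h8.le (by norm_num) hax.le
    linarith only [hv, this]
  · refine ff_of g.xi g.yi g.hs g.y4 g.y2 hxi hyi ((add_lt_iff hxi hyi).2 hxy) (shq_nonneg _) hf ?_
    have h3 : ta xs * ta ys < ta x * ta y := (ta_mul_lt g.xi g.yi hxi hyi).2 (by linarith only [hN'])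
    calc (4142 / 10000 : ℝ) ^ 2 * ta xs = ta xs * (4142 / 10000) * (4142 / 10000) := by ring
      _ < ta xs * ta ys * ta ys := by
        have : ta xs * (4142 / 10000) < ta xs * ta ys := mul_lt_mul_of_pos_left h8 hax
        nlinarith only [this, hay]
      _ < ta x * ta y * ta ys := mul_lt_mul_of_pos_right h3 hay

/-- the row on the diagonal through the saddle point -/
structure DR (xs ys T ρ a0 a1 p0 : ℝ) : Prop where
  W : ∀ x y, x ∈ Ioo (0 : ℝ) 1 → y ∈ Ioo (0 : ℝ) 1 → a0 ≤ ta x → ta x ≤ a1 →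
    ta x * ta ys = ta xs * ta y → p0 ≤ ta x * ta y → ta x * ta y ≤ a1 →
    kq (ta x) (ta y) ≤ 2 * (1 + ta x * ta y) ^ 2 ∧ 0 < WW x y T ρ
  U : ∀ x y, x ∈ Ioo (0 : ℝ) 1 → y ∈ Ioo (0 : ℝ) 1 → ta xs ≤ ta x → ta x ≤ a1 →
    ta x * ta ys = ta xs * ta y → ta x * ta y ≤ a1 → HS (ta x) (ta y) (shq (T - ρ))

theorem GD.wup (g : GD xs ys cl cp) (hr : DR xs ys T ρ a0 a1 p0) (ha0 : a0 ≤ ta cl)
    (ha1 : ta cp ≤ a1) (ha1' : a1 < 1) (hp0 : p0 ≤ a0 * (4142 / 10000))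
    (hK : ∀ x y, x ∈ Icc cl cp → y ∈ Icc (1 / 4 : ℝ) (1 / 2) → xs < x →
      |gh y - gh ys| ≤ gh x - gh xs → ta xs * ta x ≤ ta ys * ta y) :
    ∀ x y, x ∈ Icc cl cp → y ∈ Icc (1 / 4 : ℝ) (1 / 2) → xs < x → Nz x y T ρ →
    |gh y - gh ys| ≤ gh x - gh xs → Sx x y T ρ < Sx xs ys T ρ := by
  intro x y hx hy h1 hn hN
  have hxi := g.x1 hx
  have hyi : y ∈ Ioo (0 : ℝ) 1 := ⟨by linarith only [hy, hy.1], by linarith only [hy, hy.2]⟩
  have hxy : x + y < 1 := by linarith only [hx, g, hy, hx.2, g.cp2, hy.2]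
  have hy1 := ta_le_one hyi hy.2
  have h8 := t8_le g.yi g.y4
  have hx2 := (ta_le' hxi g.cpi).2 hx.2
  refine RC.wup g.xi g.yi hxi hyi g.hs hxy (by linarith only [hx, g, hx.2, g.cp2]) h1 hN (hK x y hx hy h1 hN) hn ?_
  intro x' y' hx' hy' hyy hd hp
  have hxi' : x' ∈ Ioo (0 : ℝ) 1 := ⟨g.xi.1.trans_le hx'.1, hx'.2.trans_lt hxi.2⟩
  have e := diag_ta g.xi g.yi hxi' hy' hd
  have a1' := (ta_le' g.xi hxi').2 hx'.1
  have a2 := (ta_le' hxi' hxi).2 hx'.2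
  have a3 := (ta_le' g.cli g.xi).2 g.xl
  have a4 := (ta_le' g.yi hy').2 hyy
  have hpa : ta x' * ta y' ≤ a1 := by
    have : ta x * ta y ≤ a1 * 1 := mul_le_mul (hx2.trans ha1) hy1 (ta_pos hyi).le
      ((ta_pos hxi).le.trans (hx2.trans ha1))
    linarith only [hp, this]
  have hp0' : p0 ≤ ta x' * ta y' := by
    have : a0 * (4142 / 10000) ≤ ta x' * ta y' :=
      mul_le_mul (by linarith only [ha0, a1', a3]) (by linarith only [h8, a4]) (by norm_num) (ta_pos hxi').le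
    linarith only [hp0, this]
  obtain ⟨w1, w2⟩ := hr.W x' y' hxi' hy' (by linarith only [ha0, a1', a3]) (by linarith only [ha1, hx2, a2]) e hp0' hpa
  exact ⟨coscos hxi' hy' (by linarith only [ha1', hpa]), w2, w1, hr.U x' y' hxi' hy' a1' (by linarith only [ha1, hx2, a2]) e hpa⟩

theorem GD.wdn (g : GD xs ys cl cp) (hr : DR xs ys T ρ a0 a1 p0) (ha0 : a0 ≤ ta cl)
    (ha1 : ta cp ≤ a1) (ha1' : a1 ≤ 55 / 100) (hp0 : p0 ≤ a0 * (4142 / 10000))
    (ha0' : 158 / 1000 ≤ a0) (hv : shq (T - ρ) ≤ 45 / 100) (hκ : ta xs ≤ 94 / 100 * ta ys) :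
    ∀ x y, x ∈ Icc cl cp → y ∈ Icc (1 / 4 : ℝ) (1 / 2) → x < xs → Nz x y T ρ →
    |gh y - gh ys| ≤ gh xs - gh x → Sx xs ys T ρ < Sx x y T ρ := by
  intro x y hx hy h1 hn hN
  have hxi := g.x1 hx
  have hyi : y ∈ Ioo (0 : ℝ) 1 := ⟨by linarith only [hy, hy.1], by linarith only [hy, hy.2]⟩
  have hxy : x + y < 1 := by linarith only [hx, g, hy, hx.2, g.cp2, hy.2]
  have hxys : xs + ys < 1 := by linarith only [g, g.xc, g.cp2, g.y2]
  have hy1 := ta_le_one hyi hy.2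
  have hys1 := ta_le_one g.yi g.y2
  have h8 := t8_le hyi hy.1
  have hxc := (ta_le' g.xi g.cpi).2 g.xc
  have hx1 := (ta_le' g.cli hxi).2 hx.1
  have hx2 := (ta_lt' hxi g.xi).2 h1
  have hN' := abs_le.1 hN
  have hN1 : ta x * ta ys ≤ ta xs * ta y :=
    (ta_mul_le hxi g.yi g.xi hyi).2 (by linarith only [hN'])
  have hκ' : ta x ≤ 94 / 100 * ta y := by
    have h2 : ta x * ta ys ≤ 94 / 100 * ta y * ta ys := by
      nlinarith only [hN1, hκ, hyi, ta_pos hyi, mul_le_mul_of_nonneg_right hκ (ta_pos hyi).le]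
    exact le_of_mul_le_mul_right h2 (ta_pos g.yi)
  have hax := ta_pos hxi
  have hay := ta_pos hyi
  have hpp : ta x * ta y ≤ 55 / 100 := by nlinarith only [ha1, ha1', hy1, hxc, hx2, ha0, ha0', hx1]
  have hcos : kq (ta x) (ta y) ≤ 2 * (1 + ta x * ta y) ^ 2 := by
    apply hcos_of
    · nlinarith only [ha1, ha1', h8, hxc, hx2, hκ']
    · nlinarith only [hy1, hax, hκ, hys1, hx2]
  refine RC.wdn g.xi g.yi hxi hyi g.hs hxys hxy (by linarith only [g, g.xc, g.cp2]) h1 hN hn ?_ hcos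
    (hsD (by linarith only [ha0, ha0', hx1]) (by linarith only [ha1, ha1', hxc, hx2]) (by linarith only [ha1, ha1', h8, hxc, hx2, hax]) hy1 hκ' hpp (shq_nonneg _) hv hcos)
  intro x' y' hx' hy' hyy hd hp
  have hxi' : x' ∈ Ioo (0 : ℝ) 1 := ⟨hxi.1.trans_le hx'.1, hx'.2.trans_lt g.xi.2⟩
  have e := diag_ta g.xi g.yi hxi' hy' hd
  have a1'' := (ta_le' hxi hxi').2 hx'.1
  have a2 := (ta_le' hxi' g.xi).2 hx'.2
  have a4 := (ta_le' hy' g.yi).2 hyy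
  have hax' := ta_pos hxi'
  have hay' := ta_pos hy'
  have hpa : ta x' * ta y' ≤ a1 := by nlinarith only [ha1, hys1, hxc, a2, a4, ha0, ha0', hx1, a1'']
  have hp0' : p0 ≤ ta x' * ta y' := by
    have : a0 * (4142 / 10000) ≤ ta x * ta y :=
      mul_le_mul (by linarith only [ha0, hx1]) h8.le (by norm_num) hax.le
    linarith only [hp0, hp, this]
  obtain ⟨w1, w2⟩ := hr.W x' y' hxi' hy' (by linarith only [ha0, hx1, a1'']) (by linarith only [ha1, hxc, a2]) e hp0' hpa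
  exact ⟨coscos hxi' hy' (by nlinarith only [ha1, ha1', hxc, hx2, hax, hpa]), w2⟩

end

end RC

end Pool.Agent.Work.MP_b30479_gt.G2
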