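import Pool.Agent.Work.MP_b30479_gt.G2.RGm17
import Pool.Agent.Work.MP_b30479_gt.G2.RLvl7

/-!
# Rings on the level part: pairs of hinges
-/

namespace Pool.Agent.Work.MP_b30479_gt.G2

open Real Set

namespace RC

open R6

theorem pr4c2 {xs ys T ρ xs' T' : ℝ} (O : OneB xs ys T ρ) (I : o4c2.In T ρ xs ys)
    (H : HD xs' ys T' ρ (125 / 1000) (30 / 100)) (l : LH xs' ys T' ρ (125 / 1000) (30 / 100))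
    (d : DnG xs' T' (125 / 1000) (30 / 100) ys ρ) (I' : p4c2.In T' ρ xs' ys)
    (hx' : xs' ∈ Icc (125 / 1000) (30 / 100)) :
    Pr ys ρ xs T (16 / 100) (36 / 100) (fun _ => 0) (fun _ => 0) xs' T' (125 / 1000) (30 / 100)
      (fun _ => 0) (fun _ => 0) :=
  Pr.of (tab := [⟨2500, 2600, 0, 0, 0, 0, 0⟩, ⟨2600, 2700, 0, 0, 0, 0, 0⟩, ⟨2700, 5000, 0, 0, 0, 0, 0⟩])
    (tab' := [⟨2500, 2600, 100, 150, 0, 0, 0⟩, ⟨2600, 2700, 160, 180, 0, 0, 0⟩, ⟨2700, 5000, 0, 0, 0, 0, 0⟩])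
    (O.LF I o4c2_Wa o4c2_Wb hf0) (l.toF hz0 hz0 (by norm_num) (by norm_num))
    (I.dt O.GD (fun _ => O.HD) o4c2_Dp2500_0_0_0 o4c2_Dm2500_0_0_0 rfl hf0 hf0
      (I.dt O.GD (fun _ => O.HD) o4c2_Dp2600_0_0_0 o4c2_Dm2600_0_0_0 rfl hf0 hf0
      (I.dt0 O.GD (fun _ => O.HD) o4c2_Qp2700_0_0_0 o4c2_Qm2700_0_0_0 rfl DT.nil A16 B36) A16 B36) A16 B36)
    (d.qt (d.qt (d.qt QT.nil)))
    (I'.dt H.toGD (fun _ => H) p4c2_Dp2500_100_150_0 p4c2_Dm2500_100_150_0 rfl hf0 hf0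
      (I'.dt H.toGD (fun _ => H) p4c2_Dp2600_160_180_0 p4c2_Dm2600_160_180_0 rfl hf0 hf0
      (d.dt H.toGD DT.nil) A12 B30) A12 B30)
    (I.qt O.GD (fun _ => O.HD) o4c2_Qp2500_100_150_0 o4c2_Qm2500_100_150_0 rfl
      (I.qt O.GD (fun _ => O.HD) o4c2_Qp2600_160_180_0 o4c2_Qm2600_160_180_0 rfl
      (I.qt O.GD (fun _ => O.HD) o4c2_Qp2700_0_0_0 o4c2_Qm2700_0_0_0 rfl QT.nil A16 B36) A16 B36) A16 B36)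
    (by decide) (by decide) O.hys O.hxs hx'

theorem pr4c2e {xs ys T ρ xs' T' : ℝ} (O : OneB xs ys T ρ) (I : o4c2e.In T ρ xs ys)
    (G : GD xs' ys (125 / 1000) (30 / 100))
    (hU : ∀ x y, x ∈ Icc (125 / 1000 : ℝ) (30 / 100) → ys < y → y ≤ 1 / 2 →
      |gh x - gh xs'| < gh y - gh ys → Dx x y T' ρ < Dx xs' ys T' ρ)
    (I' : p4c2e.In T' ρ xs' ys) (hx' : xs' ∈ Icc (125 / 1000) (30 / 100)) :
    Pr ys ρ xs T (16 / 100) (36 / 100) (fun _ => 0) (fun _ => 0) xs' T' (125 / 1000) (30 / 100)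
      (fun _ => 0) (fun m => 1 / 2 * m) :=
  Pr.of (tab := [⟨2500, 2600, 30, 20, 0, 0, 0⟩, ⟨2600, 2700, 30, 20, 0, 0, 0⟩, ⟨2700, 2800, 30, 20, 0, 0, 0⟩, ⟨2800, 3000, 30, 0, 0, 0, 0⟩, ⟨3000, 5000, 30, 20, 0, 0, 0⟩])
    (tab' := [⟨2500, 2600, 90, 120, 0, 0, 0⟩, ⟨2600, 5000, 0, 0, 0, 0, 0⟩])
    (O.LF I o4c2e_Wa o4c2e_Wb hf0) (I'.LF0 G hU p4c2e_Wp p4c2e_Wm hf0 hf50 A12 B30)
    (I.dt O.GD (fun _ => O.HD) o4c2e_Dp2500_30_20_0 o4c2e_Dm2500_30_20_0 rfl hf0 hf0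
      (I.dt O.GD (fun _ => O.HD) o4c2e_Dp2600_30_20_0 o4c2e_Dm2600_30_20_0 rfl hf0 hf0
      (I.dt O.GD (fun _ => O.HD) o4c2e_Dp2700_30_20_0 o4c2e_Dm2700_30_20_0 rfl hf0 hf0
      (I.dt O.GD (fun _ => O.HD) o4c2e_Dp2800_30_0_0 o4c2e_Dm2800_30_0_0 rfl hf0 hf0
      (I.dt O.GD (fun _ => O.HD) o4c2e_Dp3000_30_20_0 o4c2e_Dm3000_30_20_0 rfl hf0 hf0
      DT.nil A16 B36) A16 B36) A16 B36) A16 B36) A16 B36)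
    (I'.qt G (fun h => absurd rfl h) p4c2e_Qp2500_30_20_0 p4c2e_Qm2500_30_20_0 rfl
      (I'.qt G (fun h => absurd rfl h) p4c2e_Qp2600_30_20_0 p4c2e_Qm2600_30_20_0 rfl
      (I'.qt G (fun h => absurd rfl h) p4c2e_Qp2700_30_20_0 p4c2e_Qm2700_30_20_0 rfl
      (I'.qt G (fun h => absurd rfl h) p4c2e_Qp2800_30_0_0 p4c2e_Qm2800_30_0_0 rfl
      (I'.qt G (fun h => absurd rfl h) p4c2e_Qp3000_30_20_0 p4c2e_Qm3000_30_20_0 rfl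
      QT.nil A12 B30) A12 B30) A12 B30) A12 B30) A12 B30)
    (I'.dt G (fun h => absurd rfl h) p4c2e_Dp2500_90_120_0 p4c2e_Dm2500_90_120_0 rfl hf0 hf50
      (I'.dt G (fun h => absurd rfl h) p4c2e_Dp2600_0_0_0 p4c2e_Dm2600_0_0_0 rfl hf0 hf50 DT.nil A12 B30) A12 B30)
    (I.qt O.GD (fun _ => O.HD) o4c2e_Qp2500_90_120_0 o4c2e_Qm2500_90_120_0 rfl
      (I.qt O.GD (fun _ => O.HD) o4c2e_Qp2600_0_0_0 o4c2e_Qm2600_0_0_0 rfl QT.nil A16 B36) A16 B36)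
    (by decide) (by decide) O.hys O.hxs hx'

theorem pr4c3 {xs ys T ρ xs' T' : ℝ} (O : OneB xs ys T ρ) (I : o4c3.In T ρ xs ys)
    (H : HD xs' ys T' ρ (12 / 100) (30 / 100)) (l : LH xs' ys T' ρ (12 / 100) (30 / 100))
    (d : DnG xs' T' (12 / 100) (30 / 100) ys ρ) (I' : p4c3.In T' ρ xs' ys)
    (hx' : xs' ∈ Icc (12 / 100) (30 / 100)) :
    Pr ys ρ xs T (16 / 100) (36 / 100) (fun _ => 0) (fun _ => 0) xs' T' (12 / 100) (30 / 100)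
      (fun _ => 0) (fun _ => 0) :=
  Pr.of (tab := [⟨2500, 2600, 0, 0, 0, 0, 0⟩, ⟨2600, 2700, 0, 0, 0, 0, 0⟩, ⟨2700, 5000, 0, 0, 0, 0, 0⟩])
    (tab' := [⟨2500, 2600, 90, 120, 0, 0, 0⟩, ⟨2600, 2700, 90, 150, 0, 0, 0⟩, ⟨2700, 5000, 0, 0, 0, 0, 0⟩])
    (O.LF I o4c3_Wa o4c3_Wb hf0) (l.toF hz0 hz0 (by norm_num) (by norm_num))
    (I.dt O.GD (fun _ => O.HD) o4c3_Dp2500_0_0_0 o4c3_Dm2500_0_0_0 rfl hf0 hf0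
      (I.dt O.GD (fun _ => O.HD) o4c3_Dp2600_0_0_0 o4c3_Dm2600_0_0_0 rfl hf0 hf0
      (I.dt0 O.GD (fun _ => O.HD) o4c3_Qp2700_0_0_0 o4c3_Qm2700_0_0_0 rfl DT.nil A16 B36) A16 B36) A16 B36)
    (d.qt (d.qt (d.qt QT.nil)))
    (I'.dt H.toGD (fun _ => H) p4c3_Dp2500_90_120_0 p4c3_Dm2500_90_120_0 rfl hf0 hf0
      (I'.dt H.toGD (fun _ => H) p4c3_Dp2600_90_150_0 p4c3_Dm2600_90_150_0 rfl hf0 hf0
      (d.dt H.toGD DT.nil) A120 B30) A120 B30)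
    (I.qt O.GD (fun _ => O.HD) o4c3_Qp2500_90_120_0 o4c3_Qm2500_90_120_0 rfl
      (I.qt O.GD (fun _ => O.HD) o4c3_Qp2600_90_150_0 o4c3_Qm2600_90_150_0 rfl
      (I.qt O.GD (fun _ => O.HD) o4c3_Qp2700_0_0_0 o4c3_Qm2700_0_0_0 rfl QT.nil A16 B36) A16 B36) A16 B36)
    (by decide) (by decide) O.hys O.hxs hx'

theorem pr4c3e {xs ys T ρ xs' T' : ℝ} (O : OneB xs ys T ρ) (I : o4c3e.In T ρ xs ys)
    (H : HD xs' ys T' ρ (10 / 100) (26 / 100)) (l : LH xs' ys T' ρ (10 / 100) (26 / 100))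
    (d : DnG xs' T' (10 / 100) (26 / 100) ys ρ) (I' : p4c3e.In T' ρ xs' ys)
    (hx' : xs' ∈ Icc (10 / 100) (26 / 100)) :
    Pr ys ρ xs T (16 / 100) (36 / 100) (fun _ => 0) (fun _ => 0) xs' T' (10 / 100) (26 / 100)
      (fun _ => 0) (fun _ => 0) :=
  Pr.of (tab := [⟨2500, 2600, 0, 0, 0, 0, 0⟩, ⟨2600, 5000, 0, 0, 0, 0, 0⟩])
    (tab' := [⟨2500, 2600, 90, 120, 0, 0, 0⟩, ⟨2600, 5000, 0, 0, 0, 0, 0⟩])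
    (O.LF I o4c3e_Wa o4c3e_Wb hf0) (l.toF hz0 hz0 (by norm_num) (by norm_num))
    (I.dt O.GD (fun _ => O.HD) o4c3e_Dp2500_0_0_0 o4c3e_Dm2500_0_0_0 rfl hf0 hf0
      (I.dt0 O.GD (fun _ => O.HD) o4c3e_Qp2600_0_0_0 o4c3e_Qm2600_0_0_0 rfl DT.nil A16 B36) A16 B36)
    (d.qt (d.qt QT.nil))
    (I'.dt H.toGD (fun _ => H) p4c3e_Dp2500_90_120_0 p4c3e_Dm2500_90_120_0 rfl hf0 hf0
      (d.dt H.toGD DT.nil) A10 B26)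
    (I.qt O.GD (fun _ => O.HD) o4c3e_Qp2500_90_120_0 o4c3e_Qm2500_90_120_0 rfl
      (I.qt O.GD (fun _ => O.HD) o4c3e_Qp2600_0_0_0 o4c3e_Qm2600_0_0_0 rfl QT.nil A16 B36) A16 B36)
    (by decide) (by decide) O.hys O.hxs hx'

theorem pr4cZ {xs ys T ρ xs' T' : ℝ} (O : OneB xs ys T ρ) (I : o4cZ.In T ρ xs ys)
    (H : HD xs' ys T' ρ (10 / 100) (27 / 100)) (l : LH xs' ys T' ρ (10 / 100) (27 / 100))
    (d : DnG xs' T' (10 / 100) (27 / 100) ys ρ) (I' : p4cZ.In T' ρ xs' ys)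
    (hx' : xs' ∈ Icc (10 / 100) (27 / 100)) :
    Pr ys ρ xs T (16 / 100) (36 / 100) (fun _ => 0) (fun _ => 0) xs' T' (10 / 100) (27 / 100)
      (fun _ => 0) (fun _ => 0) :=
  Pr.of (tab := [⟨2500, 2600, 0, 0, 0, 0, 0⟩, ⟨2600, 2700, 0, 0, 0, 0, 0⟩, ⟨2700, 5000, 0, 0, 0, 0, 0⟩])
    (tab' := [⟨2500, 2600, 90, 120, 0, 0, 0⟩, ⟨2600, 2700, 90, 120, 0, 0, 0⟩, ⟨2700, 5000, 0, 0, 0, 0, 0⟩])
    (O.LF I o4cZ_Wa o4cZ_Wb hf0) (l.toF hz0 hz0 (by norm_num) (by norm_num))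
    (I.dt O.GD (fun _ => O.HD) o4cZ_Dp2500_0_0_0 o4cZ_Dm2500_0_0_0 rfl hf0 hf0
      (I.dt O.GD (fun _ => O.HD) o4cZ_Dp2600_0_0_0 o4cZ_Dm2600_0_0_0 rfl hf0 hf0
      (I.dt0 O.GD (fun _ => O.HD) o4cZ_Qp2700_0_0_0 o4cZ_Qm2700_0_0_0 rfl DT.nil A16 B36) A16 B36) A16 B36)
    (d.qt (d.qt (d.qt QT.nil)))
    (I'.dt H.toGD (fun _ => H) p4cZ_Dp2500_90_120_0 p4cZ_Dm2500_90_120_0 rfl hf0 hf0
      (I'.dt H.toGD (fun _ => H) p4cZ_Dp2600_90_120_0 p4cZ_Dm2600_90_120_0 rfl hf0 hf0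
      (d.dt H.toGD DT.nil) A10 B27) A10 B27)
    (I.qt O.GD (fun _ => O.HD) o4cZ_Qp2500_90_120_0 o4cZ_Qm2500_90_120_0 rfl
      (I.qt O.GD (fun _ => O.HD) o4cZ_Qp2600_90_120_0 o4cZ_Qm2600_90_120_0 rfl
      (I.qt O.GD (fun _ => O.HD) o4cZ_Qp2700_0_0_0 o4cZ_Qm2700_0_0_0 rfl QT.nil A16 B36) A16 B36) A16 B36)
    (by decide) (by decide) O.hys O.hxs hx'

theorem pr4cZs {xs ys T ρ xs' T' : ℝ} (O : OneB xs ys T ρ) (I : o4cZs.In T ρ xs ys)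
    (H : HD xs' ys T' ρ (10 / 100) (27 / 100)) (l : LH xs' ys T' ρ (10 / 100) (27 / 100))
    (d : DnG xs' T' (10 / 100) (27 / 100) ys ρ) (I' : p4cZs.In T' ρ xs' ys)
    (hx' : xs' ∈ Icc (10 / 100) (27 / 100)) :
    Pr ys ρ xs T (16 / 100) (36 / 100) (fun _ => 0) (fun _ => 0) xs' T' (10 / 100) (27 / 100)
      (fun _ => 0) (fun _ => 0) :=
  Pr.of (tab := [⟨2500, 2600, 0, 0, 0, 0, 0⟩, ⟨2600, 2700, 0, 0, 0, 0, 0⟩, ⟨2700, 5000, 0, 0, 0, 0, 0⟩])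
    (tab' := [⟨2500, 2600, 90, 100, 0, 0, 0⟩, ⟨2600, 2700, 90, 120, 0, 0, 0⟩, ⟨2700, 5000, 0, 0, 0, 0, 0⟩])
    (O.LF I o4cZs_Wa o4cZs_Wb hf0) (l.toF hz0 hz0 (by norm_num) (by norm_num))
    (I.dt O.GD (fun _ => O.HD) o4cZs_Dp2500_0_0_0 o4cZs_Dm2500_0_0_0 rfl hf0 hf0
      (I.dt O.GD (fun _ => O.HD) o4cZs_Dp2600_0_0_0 o4cZs_Dm2600_0_0_0 rfl hf0 hf0
      (I.dt0 O.GD (fun _ => O.HD) o4cZs_Qp2700_0_0_0 o4cZs_Qm2700_0_0_0 rfl DT.nil A16 B36) A16 B36) A16 B36)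
    (d.qt (d.qt (d.qt QT.nil)))
    (I'.dt H.toGD (fun _ => H) p4cZs_Dp2500_90_100_0 p4cZs_Dm2500_90_100_0 rfl hf0 hf0
      (I'.dt H.toGD (fun _ => H) p4cZs_Dp2600_90_120_0 p4cZs_Dm2600_90_120_0 rfl hf0 hf0
      (d.dt H.toGD DT.nil) A10 B27) A10 B27)
    (I.qt O.GD (fun _ => O.HD) o4cZs_Qp2500_90_100_0 o4cZs_Qm2500_90_100_0 rfl
      (I.qt O.GD (fun _ => O.HD) o4cZs_Qp2600_90_120_0 o4cZs_Qm2600_90_120_0 rfl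
      (I.qt O.GD (fun _ => O.HD) o4cZs_Qp2700_0_0_0 o4cZs_Qm2700_0_0_0 rfl QT.nil A16 B36) A16 B36) A16 B36)
    (by decide) (by decide) O.hys O.hxs hx'

end RC

end Pool.Agent.Work.MP_b30479_gt.G2
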