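import Pool.Agent.Work.MP_b30479_gt.G2.RGn07
import Pool.Agent.Work.MP_b30479_gt.G2.RLvl7

/-!
# Rings on the level part: pairs of hinges
-/

namespace Pool.Agent.Work.MP_b30479_gt.G2

open Real Set

namespace RC

open R6

theorem pr7a2 {xs ys T ρ xs' T' : ℝ} (O : OneB xs ys T ρ) (I : o7a2.In T ρ xs ys)
    (H : HD xs' ys T' ρ (125 / 1000) (30 / 100)) (l : LH xs' ys T' ρ (125 / 1000) (30 / 100))
    (d : DnG xs' T' (125 / 1000) (30 / 100) ys ρ) (I' : p7a2.In T' ρ xs' ys)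
    (hx' : xs' ∈ Icc (125 / 1000) (30 / 100)) :
    Pr ys ρ xs T (16 / 100) (36 / 100) (fun _ => 0) (fun _ => 0) xs' T' (125 / 1000) (30 / 100)
      (fun _ => 0) (fun _ => 0) :=
  Pr.of (tab := [⟨2500, 2700, 0, 0, 0, 0, 0⟩, ⟨2700, 5000, 0, 0, 0, 0, 0⟩])
    (tab' := [⟨2500, 2700, 160, 220, 0, 0, 0⟩, ⟨2700, 5000, 0, 0, 0, 0, 0⟩])
    (O.LF I o7a2_Wa o7a2_Wb hf0) (l.toF hz0 hz0 (by norm_num) (by norm_num))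
    (I.dt O.GD (fun _ => O.HD) o7a2_Dp2500_0_0_0 o7a2_Dm2500_0_0_0 rfl hf0 hf0
      (I.dt0 O.GD (fun _ => O.HD) o7a2_Qp2700_0_0_0 o7a2_Qm2700_0_0_0 rfl DT.nil A16 B36) A16 B36)
    (d.qt (d.qt QT.nil))
    (I'.dt H.toGD (fun _ => H) p7a2_Dp2500_160_220_0 p7a2_Dm2500_160_220_0 rfl hf0 hf0
      (d.dt H.toGD DT.nil) A12 B30)
    (I.qt O.GD (fun _ => O.HD) o7a2_Qp2500_160_220_0 o7a2_Qm2500_160_220_0 rfl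
      (I.qt O.GD (fun _ => O.HD) o7a2_Qp2700_0_0_0 o7a2_Qm2700_0_0_0 rfl QT.nil A16 B36) A16 B36)
    (by decide) (by decide) O.hys O.hxs hx'

theorem pr7a2e {xs ys T ρ xs' T' : ℝ} (O : OneB xs ys T ρ) (I : o7a2e.In T ρ xs ys)
    (H : HD xs' ys T' ρ (125 / 1000) (30 / 100)) (l : LH xs' ys T' ρ (125 / 1000) (30 / 100))
    (d : DnG xs' T' (125 / 1000) (30 / 100) ys ρ) (I' : p7a2e.In T' ρ xs' ys)
    (hx' : xs' ∈ Icc (125 / 1000) (30 / 100)) :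
    Pr ys ρ xs T (16 / 100) (36 / 100) (fun _ => 0) (fun _ => 0) xs' T' (125 / 1000) (30 / 100)
      (fun _ => 0) (fun _ => 0) :=
  Pr.of (tab := [⟨2500, 2700, 0, 0, 0, 0, 0⟩, ⟨2700, 5000, 0, 0, 0, 0, 0⟩])
    (tab' := [⟨2500, 2700, 115, 180, 0, 0, 0⟩, ⟨2700, 5000, 0, 0, 0, 0, 0⟩])
    (O.LF I o7a2e_Wa o7a2e_Wb hf0) (l.toF hz0 hz0 (by norm_num) (by norm_num))
    (I.dt O.GD (fun _ => O.HD) o7a2e_Dp2500_0_0_0 o7a2e_Dm2500_0_0_0 rfl hf0 hf0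
      (I.dt0 O.GD (fun _ => O.HD) o7a2e_Qp2700_0_0_0 o7a2e_Qm2700_0_0_0 rfl DT.nil A16 B36) A16 B36)
    (d.qt (d.qt QT.nil))
    (I'.dt H.toGD (fun _ => H) p7a2e_Dp2500_115_180_0 p7a2e_Dm2500_115_180_0 rfl hf0 hf0
      (d.dt H.toGD DT.nil) A12 B30)
    (I.qt O.GD (fun _ => O.HD) o7a2e_Qp2500_115_180_0 o7a2e_Qm2500_115_180_0 rfl
      (I.qt O.GD (fun _ => O.HD) o7a2e_Qp2700_0_0_0 o7a2e_Qm2700_0_0_0 rfl QT.nil A16 B36) A16 B36)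
    (by decide) (by decide) O.hys O.hxs hx'

theorem pr7a3 {xs ys T ρ xs' T' : ℝ} (O : OneB xs ys T ρ) (I : o7a3.In T ρ xs ys)
    (H : HD xs' ys T' ρ (12 / 100) (30 / 100)) (l : LH xs' ys T' ρ (12 / 100) (30 / 100))
    (d : DnG xs' T' (12 / 100) (30 / 100) ys ρ) (I' : p7a3.In T' ρ xs' ys)
    (hx' : xs' ∈ Icc (12 / 100) (30 / 100)) :
    Pr ys ρ xs T (16 / 100) (36 / 100) (fun _ => 0) (fun _ => 0) xs' T' (12 / 100) (30 / 100)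
      (fun _ => 0) (fun _ => 0) :=
  Pr.of (tab := [⟨2500, 2700, 0, 0, 0, 0, 0⟩, ⟨2700, 5000, 0, 0, 0, 0, 0⟩])
    (tab' := [⟨2500, 2700, 160, 180, 0, 0, 0⟩, ⟨2700, 5000, 0, 0, 0, 0, 0⟩])
    (O.LF I o7a3_Wa o7a3_Wb hf0) (l.toF hz0 hz0 (by norm_num) (by norm_num))
    (I.dt O.GD (fun _ => O.HD) o7a3_Dp2500_0_0_0 o7a3_Dm2500_0_0_0 rfl hf0 hf0
      (I.dt0 O.GD (fun _ => O.HD) o7a3_Qp2700_0_0_0 o7a3_Qm2700_0_0_0 rfl DT.nil A16 B36) A16 B36)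
    (d.qt (d.qt QT.nil))
    (I'.dt H.toGD (fun _ => H) p7a3_Dp2500_160_180_0 p7a3_Dm2500_160_180_0 rfl hf0 hf0
      (d.dt H.toGD DT.nil) A120 B30)
    (I.qt O.GD (fun _ => O.HD) o7a3_Qp2500_160_180_0 o7a3_Qm2500_160_180_0 rfl
      (I.qt O.GD (fun _ => O.HD) o7a3_Qp2700_0_0_0 o7a3_Qm2700_0_0_0 rfl QT.nil A16 B36) A16 B36)
    (by decide) (by decide) O.hys O.hxs hx'

theorem pr7a3e {xs ys T ρ xs' T' : ℝ} (O : OneB xs ys T ρ) (I : o7a3e.In T ρ xs ys)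
    (H : HD xs' ys T' ρ (10 / 100) (26 / 100)) (l : LH xs' ys T' ρ (10 / 100) (26 / 100))
    (d : DnG xs' T' (10 / 100) (26 / 100) ys ρ) (I' : p7a3e.In T' ρ xs' ys)
    (hx' : xs' ∈ Icc (10 / 100) (26 / 100)) :
    Pr ys ρ xs T (16 / 100) (36 / 100) (fun _ => 0) (fun _ => 0) xs' T' (10 / 100) (26 / 100)
      (fun _ => 0) (fun _ => 0) :=
  Pr.of (tab := [⟨2500, 2700, 0, 0, 0, 0, 0⟩, ⟨2700, 5000, 0, 0, 0, 0, 0⟩])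
    (tab' := [⟨2500, 2700, 160, 180, 0, 0, 0⟩, ⟨2700, 5000, 0, 0, 0, 0, 0⟩])
    (O.LF I o7a3e_Wa o7a3e_Wb hf0) (l.toF hz0 hz0 (by norm_num) (by norm_num))
    (I.dt O.GD (fun _ => O.HD) o7a3e_Dp2500_0_0_0 o7a3e_Dm2500_0_0_0 rfl hf0 hf0
      (I.dt0 O.GD (fun _ => O.HD) o7a3e_Qp2700_0_0_0 o7a3e_Qm2700_0_0_0 rfl DT.nil A16 B36) A16 B36)
    (d.qt (d.qt QT.nil))
    (I'.dt H.toGD (fun _ => H) p7a3e_Dp2500_160_180_0 p7a3e_Dm2500_160_180_0 rfl hf0 hf0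
      (d.dt H.toGD DT.nil) A10 B26)
    (I.qt O.GD (fun _ => O.HD) o7a3e_Qp2500_160_180_0 o7a3e_Qm2500_160_180_0 rfl
      (I.qt O.GD (fun _ => O.HD) o7a3e_Qp2700_0_0_0 o7a3e_Qm2700_0_0_0 rfl QT.nil A16 B36) A16 B36)
    (by decide) (by decide) O.hys O.hxs hx'

theorem pr7aZ {xs ys T ρ xs' T' : ℝ} (O : OneB xs ys T ρ) (I : o7aZ.In T ρ xs ys)
    (H : HD xs' ys T' ρ (10 / 100) (27 / 100)) (l : LH xs' ys T' ρ (10 / 100) (27 / 100))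
    (d : DnG xs' T' (10 / 100) (27 / 100) ys ρ) (I' : p7aZ.In T' ρ xs' ys)
    (hx' : xs' ∈ Icc (10 / 100) (27 / 100)) (K : Kap xs' ys T' ρ (27 / 100)) (h17 : 17 / 100 ≤ xs')
    :
    Pr ys ρ xs T (16 / 100) (36 / 100) (fun _ => 0) (fun _ => 0) xs' T' (10 / 100) (27 / 100)
      (fun _ => 0) (fun _ => 0) :=
  Pr.of (tab := [⟨2500, 2700, 0, 0, 0, 0, 0⟩, ⟨2700, 5000, 0, 0, 0, 0, 0⟩])
    (tab' := [⟨2500, 2700, 90, 150, 0, 0, 0⟩, ⟨2700, 5000, 0, 0, 0, 0, 0⟩])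
    (O.LF I o7aZ_Wa o7aZ_Wb hf0) (l.toF hz0 hz0 (by norm_num) (by norm_num))
    (I.dt O.GD (fun _ => O.HD) o7aZ_Dp2500_0_0_0 o7aZ_Dm2500_0_0_0 rfl hf0 hf0
      (I.dt0 O.GD (fun _ => O.HD) o7aZ_Qp2700_0_0_0 o7aZ_Qm2700_0_0_0 rfl DT.nil A16 B36) A16 B36)
    (d.qt (d.qt QT.nil))
    (I'.dk H.toGD (fun _ => H) K le_rfl h17 (by decide) p7aZ_Dm2500_90_150_0 rfl
      (d.dt H.toGD DT.nil) A10)
    (I.qt O.GD (fun _ => O.HD) o7aZ_Qp2500_90_150_0 o7aZ_Qm2500_90_150_0 rfl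
      (I.qt O.GD (fun _ => O.HD) o7aZ_Qp2700_0_0_0 o7aZ_Qm2700_0_0_0 rfl QT.nil A16 B36) A16 B36)
    (by decide) (by decide) O.hys O.hxs hx'

theorem pr7aZs {xs ys T ρ xs' T' : ℝ} (O : OneB xs ys T ρ) (I : o7aZs.In T ρ xs ys)
    (H : HD xs' ys T' ρ (10 / 100) (27 / 100)) (l : LH xs' ys T' ρ (10 / 100) (27 / 100))
    (d : DnG xs' T' (10 / 100) (27 / 100) ys ρ) (I' : p7aZs.In T' ρ xs' ys)
    (hx' : xs' ∈ Icc (10 / 100) (27 / 100)) (K : Kap xs' ys T' ρ (27 / 100)) (h17 : 17 / 100 ≤ xs')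
    :
    Pr ys ρ xs T (16 / 100) (36 / 100) (fun _ => 0) (fun _ => 0) xs' T' (10 / 100) (27 / 100)
      (fun _ => 0) (fun _ => 0) :=
  Pr.of (tab := [⟨2500, 2700, 0, 0, 0, 0, 0⟩, ⟨2700, 5000, 0, 0, 0, 0, 0⟩])
    (tab' := [⟨2500, 2700, 100, 150, 0, 0, 0⟩, ⟨2700, 5000, 0, 0, 0, 0, 0⟩])
    (O.LF I o7aZs_Wa o7aZs_Wb hf0) (l.toF hz0 hz0 (by norm_num) (by norm_num))
    (I.dt O.GD (fun _ => O.HD) o7aZs_Dp2500_0_0_0 o7aZs_Dm2500_0_0_0 rfl hf0 hf0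
      (I.dt0 O.GD (fun _ => O.HD) o7aZs_Qp2700_0_0_0 o7aZs_Qm2700_0_0_0 rfl DT.nil A16 B36) A16 B36)
    (d.qt (d.qt QT.nil))
    (I'.dk H.toGD (fun _ => H) K le_rfl h17 (by decide) p7aZs_Dm2500_100_150_0 rfl
      (d.dt H.toGD DT.nil) A10)
    (I.qt O.GD (fun _ => O.HD) o7aZs_Qp2500_100_150_0 o7aZs_Qm2500_100_150_0 rfl
      (I.qt O.GD (fun _ => O.HD) o7aZs_Qp2700_0_0_0 o7aZs_Qm2700_0_0_0 rfl QT.nil A16 B36) A16 B36)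
    (by decide) (by decide) O.hys O.hxs hx'

end RC

end Pool.Agent.Work.MP_b30479_gt.G2
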