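import Pool.Agent.Work.MP_b30479_gt.G2.RGood

/-!
# Rings on the level part: the condition `H2`
-/

namespace Pool.Agent.Work.MP_b30479_gt.G2

open Real Set VOL

namespace RC

namespace Row

open NumI NumI.E

/-- the polynomial of `H2`, multiplied by `B²` -/
noncomputable def h2f (a B v : ℝ) : ℝ :=
  32 * (17156164 / 100000000) * ((B - a) ^ 2 * (a * B)) -
    v * (((1 - a ^ 2) * (1 - B ^ 2) - 4 * (a * B)) *
        ((1 + 17156164 / 100000000) * (B ^ 2 + 17156164 / 100000000 * a ^ 2)) +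
      ((1 - 17156164 / 100000000) * (B ^ 2 - 17156164 / 100000000 * a ^ 2) -
        4 * (17156164 / 100000000) * (a * B)) * ((1 + a ^ 2) * (1 + B ^ 2)))

theorem h2f_eq {a B : ℝ} (hB : 0 < B) (v : ℝ) :
    ff ((a + B) ^ 2) (a * B) v ((4142 / 10000 / B) ^ 2) * B ^ 2 = h2f a B v := by
  unfold ff cm km h2f
  field_simp
  ring

theorem ff_nonneg {a B v : ℝ} (ha : 0 < a) (hB : 0 < B) {w : ℝ} (hv : 0 ≤ v) (hvw : v ≤ w)
    (h : 0 < h2f a B w) : 0 ≤ ff ((a + B) ^ 2) (a * B) v ((4142 / 10000 / B) ^ 2) := by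
  have e := h2f_eq (a := a) hB v
  have h1 : 0 ≤ h2f a B v := by
    unfold h2f at h ⊢
    set P := ((1 - a ^ 2) * (1 - B ^ 2) - 4 * (a * B)) *
        ((1 + 17156164 / 100000000) * (B ^ 2 + 17156164 / 100000000 * a ^ 2)) +
      ((1 - 17156164 / 100000000) * (B ^ 2 - 17156164 / 100000000 * a ^ 2) -
        4 * (17156164 / 100000000) * (a * B)) * ((1 + a ^ 2) * (1 + B ^ 2))
    have h2 : 0 ≤ 32 * (17156164 / 100000000) * ((B - a) ^ 2 * (a * B)) := by positivity
    rcases le_total P 0 with hP | hP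
    · have := mul_nonneg hv (sub_nonneg.2 hP)
      nlinarith only [h2, this]
    · have := mul_le_mul_of_nonneg_right hvw hP
      linarith only [h, this]
  rw [← e] at h1
  exact nonneg_of_mul_nonneg_left h1 (by positivity)

/-- `tan (π z / 2)` -/
def tanE (z : E) : E := dv (sinPi (mul (q 1 2) z)) (cosPi (mul (q 1 2) z))

/-- variables `x`, `s`; `2 = a`, `3 = B`, `4 = v`, `5 = a²`, `6 = B²` -/
def eh2 (w : E) : E := lt (tanE (var 0)) <| lt (tanE (sub (q 1 2) (var 1))) <|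
  lt (sq (sinh (mul pi w))) <| lt (sq (var 2)) <| lt (sq (var 3)) <|
  sub (mul (mul (q 32 1) (q 17156164 100000000)) (mul (sq (sub (var 3) (var 2))) (mul (var 2) (var 3))))
   (mul (var 4) (add (mul (sub (mul (sub one (var 5)) (sub one (var 6)))
      (mul four (mul (var 2) (var 3)))) (mul (add one (q 17156164 100000000))
        (add (var 6) (mul (q 17156164 100000000) (var 5)))))
     (mul (sub (mul (sub one (q 17156164 100000000)) (sub (var 6) (mul (q 17156164 100000000) (var 5))))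
      (mul (mul four (q 17156164 100000000)) (mul (var 2) (var 3))))
      (mul (add one (var 5)) (add one (var 6))))))

theorem ta_div (x : ℝ) : Real.sin (π * (1 / 2 * x)) * (Real.cos (π * (1 / 2 * x)))⁻¹ = ta x := by
  unfold ta
  rw [Real.tan_eq_sin_div_cos, ← div_eq_mul_inv]
  congr 2 <;> ring

theorem eh2_val0 (x s : ℝ) (n : ℤ) (d : ℕ) : (eh2 (q n d)).val [x, s] =
    h2f (ta x) (ta (1 / 2 - s)) (shq (n / d)) := by
  simp only [eh2, tanE, dv, one, four, E.val, lkR_zero, lkR_succ, List.cons_append,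
    List.nil_append, h2f]
  push_cast
  rw [ta_div, ta_div]
  unfold shq
  ring

theorem eh2_val1 (x s : ℝ) (n m : ℤ) (d e : ℕ) : (eh2 (sub (q n d) (mul (q m e) (var 1)))).val [x, s] =
    h2f (ta x) (ta (1 / 2 - s)) (shq (n / d - m / e * s)) := by
  simp only [eh2, tanE, dv, one, four, E.val, lkR_zero, lkR_succ, List.cons_append,
    List.nil_append, h2f]
  push_cast
  rw [ta_div, ta_div]
  unfold shq
  ring

/-- the list of a row -/
def h2l (c1 q1 A C : ℤ) : List E := [eh2 (q q1 10000), eh2 (sub (q C 10000) (mul (q A 100) (var 1))),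
  sub (add (var 0) (var 1)) (q c1 10000)]

theorem H2_of {x0 x1 s0 s1 c1 q1 A C : ℤ} {n : ℕ}
    (h : chk (h2l c1 q1 A C) n [V.of 10000 x0 x1, V.of 10000 s0 s1] = true)
    {xs ys T ρ : ℝ} (hxs : xs ∈ Ioo (0 : ℝ) 1) (hys : ys ∈ Ioo (0 : ℝ) 1)
    (h0 : (x0 : ℝ) / 10000 ≤ xs) (h1 : xs ≤ x1 / 10000) (h2 : (s0 : ℝ) / 10000 ≤ 1 / 2 - ys)
    (h3 : 1 / 2 - ys ≤ s1 / 10000) (h4 : xs + (1 / 2 - ys) ≤ c1 / 10000)
    (h5 : |T - ρ| ≤ q1 / 10000) (h6 : |T - ρ| ≤ C / 10000 - A / 100 * (1 / 2 - ys)) :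
    H2 xs ys T ρ := by
  obtain ⟨e, he, hp⟩ := chk2 h (by norm_num) (x := xs) (y := 1 / 2 - ys) (by push_cast; linarith only [h0])
    (by push_cast; linarith only [h1]) (by push_cast; linarith only [h2]) (by push_cast; linarith only [h3])
  have ey : 1 / 2 - (1 / 2 - ys) = ys := by ring
  simp only [h2l, List.mem_cons, List.not_mem_nil, or_false] at he
  unfold H2
  rcases he with rfl | rfl | rfl
  · rw [eh2_val0, ey] at hp
    refine ff_nonneg (ta_pos hxs) (ta_pos hys) (shq_nonneg _) (shq_mono ?_) hp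
    rw [abs_of_nonneg (a := (q1 : ℝ) / (10000 : ℕ)) (by push_cast; exact (abs_nonneg _).trans h5)]
    push_cast
    exact h5
  · rw [eh2_val1, ey] at hp
    refine ff_nonneg (ta_pos hxs) (ta_pos hys) (shq_nonneg _) (shq_mono ?_) hp
    push_cast
    rw [abs_of_nonneg (a := (C : ℝ) / 10000 - A / 100 * (1 / 2 - ys)) ((abs_nonneg _).trans h6)]
    exact h6
  · exfalso
    simp only [E.val, lkR_zero, lkR_one] at hp
    push_cast at hp
    linarith only [h4, hp]

end Row

end RC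

end Pool.Agent.Work.MP_b30479_gt.G2
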