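import Pool.Agent.Work.MP_b30479_gt.G2.RGood

/-!
# Rings on the level part: the three kinds of hinges
-/

namespace Pool.Agent.Work.MP_b30479_gt.G2

open Real Set VOL

namespace RC

namespace Row

open NumI NumI.E

theorem chsU2 : chk [wrp (ehs (q 3080 10000)), gtK 813 1000, neg (gtK 275 1000), neg (ltP 51 100),
    neg cap] 16 [V.of 1000 256 510, V.of 1000 256 1430] = true := by decide +kernel

theorem chsU3 : chk [wrp (ehs (q 194 1000)), gtK 813 1000, neg (gtK 264 1000), neg (ltP 51 100),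
    neg cap] 16 [V.of 1000 256 510, V.of 1000 256 1430] = true := by decide +kernel

theorem shq168 {t : ℝ} (ht : |t| ≤ 168 / 1000) : shq t ≤ 3080 / 10000 := by
  have := shq_lt_of (t := t) (n := 168) (d := 1000) (m := 3080) (e := 10000)
    (by push_cast; exact ht) (by decide +kernel)
  push_cast at this
  exact this.le

theorem hsU2 {a B v : ℝ} (h1 : 256 / 1000 ≤ a) (h2 : a ≤ 510 / 1000) (h3 : 256 / 1000 ≤ B)
    (h4 : B ≤ 1430 / 1000) (k0 : 275 / 1000 * B ≤ a) (k1 : a ≤ 813 / 1000 * B)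
    (hp' : a * B ≤ 51 / 100) (hv : 0 ≤ v)
    (hv1 : v ≤ 3080 / 10000) (hcos : kq a B ≤ 2 * (1 + a * B) ^ 2) : HS a B v := by
  refine HS_of hcos hv hv1 fun hc => ?_
  have h := pick5 (chk2 chsU2 (by norm_num) (x := a) (y := B) (by norm_num; linarith only [h1])
    (by norm_num; linarith only [h2]) (by norm_num; linarith only [h1, k1]) (by norm_num; linarith only [h4]))
    (gtK_val (by push_cast; linarith only [k1])) (ngtK_val (by push_cast; linarith only [k0]))
    (gtP_val (by push_cast; linarith only [hp'])) (ncap_val hc)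
  rw [ehs_val] at h
  unfold HS
  push_cast at h
  linarith only [h]

theorem hsU3 {a B v : ℝ} (h1 : 256 / 1000 ≤ a) (h2 : a ≤ 510 / 1000) (h3 : 256 / 1000 ≤ B)
    (h4 : B ≤ 1430 / 1000) (k0 : 264 / 1000 * B ≤ a) (k1 : a ≤ 813 / 1000 * B)
    (hp' : a * B ≤ 51 / 100) (hv : 0 ≤ v)
    (hv1 : v ≤ 194 / 1000) (hcos : kq a B ≤ 2 * (1 + a * B) ^ 2) : HS a B v := by
  refine HS_of hcos hv hv1 fun hc => ?_
  have h := pick5 (chk2 chsU3 (by norm_num) (x := a) (y := B) (by norm_num; linarith only [h1])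
    (by norm_num; linarith only [h2]) (by norm_num; linarith only [h1, k1]) (by norm_num; linarith only [h4]))
    (gtK_val (by push_cast; linarith only [k1])) (ngtK_val (by push_cast; linarith only [k0]))
    (gtP_val (by push_cast; linarith only [hp'])) (ncap_val hc)
  rw [ehs_val] at h
  unfold HS
  push_cast at h
  linarith only [h]

end Row

open Row

section
variable {xs ys T ρ : ℝ}

/-- relations on the diagonal -/
theorem diag_rel {x y κ0 κ1 : ℝ} (hys : ys ∈ Ioo (0 : ℝ) 1) (hx : x ∈ Ioo (0 : ℝ) 1)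
    (hy : y ∈ Ioo (0 : ℝ) 1) (e : ta x * ta ys = ta xs * ta y) (h0 : κ0 * ta ys ≤ ta xs)
    (h1 : ta xs ≤ κ1 * ta ys) : κ0 * ta y ≤ ta x ∧ ta x ≤ κ1 * ta y := by
  have hay := ta_pos hys
  have hy0 := ta_pos hy
  constructor
  · refine le_of_mul_le_mul_right (a := ta ys) ?_ hay
    rw [e]
    have := mul_le_mul_of_nonneg_right h0 hy0.le
    linarith only [this]
  · refine le_of_mul_le_mul_right (a := ta ys) ?_ hay
    rw [e]
    have := mul_le_mul_of_nonneg_right h1 hy0.le
    linarith only [this]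

theorem B_le {a B κ p c : ℝ} (hB : 0 < B) (hk : κ * B ≤ a) (hp : a * B ≤ p) (hc : 0 ≤ c)
    (h : p < κ * c ^ 2) (hκ : 0 < κ) : B ≤ c := by
  by_contra hcon
  push Not at hcon
  have h1 : κ * B * B ≤ a * B := mul_le_mul_of_nonneg_right hk hB.le
  have h2 : c ^ 2 ≤ B ^ 2 := pow_le_pow_left₀ hc hcon.le 2
  nlinarith only [hp, h, h1, hκ, h2]

/-- next to a digit `1` -/
theorem DR_one (hxs : xs ∈ Ioo (0 : ℝ) 1) (hys : ys ∈ Ioo (0 : ℝ) 1) (hxc : 256 / 1000 ≤ ta xs)
    (k0 : 349 / 1000 * ta ys ≤ ta xs) (k1 : ta xs ≤ 94 / 100 * ta ys) (hT : T ≤ 0)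
    (hT1 : -(158 / 1000) ≤ T) (hρ : 0 ≤ ρ) (hu : T + ρ ≤ 158 / 1000)
    (hv : ρ - T ≤ 200 / 1000) : DR xs ys T ρ (2567 / 10000) (55 / 100) (1063 / 10000) := by
  have ht : shq T ≤ 2678 / 10000 := shq158 (abs_le.2 ⟨hT1, by linarith only [hT]⟩)
  have hu' : shq (T + ρ) ≤ 2678 / 10000 := shq158 (abs_le.2 ⟨by linarith only [hT1, hρ], hu⟩)
  have hv' : shq (T - ρ) ≤ 45 / 100 := shq200 (abs_le.2 ⟨by linarith only [hv], by linarith only [hT, hρ]⟩)
  have htv : shq T ≤ shq (T - ρ) := shq_mono (by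
    rw [abs_of_nonpos hT, abs_of_nonpos (by linarith only [hT, hρ])]
    linarith only [hρ])
  constructor
  · intro x y hx hy h1 h2 e h3 h4
    obtain ⟨r0, r1⟩ := diag_rel hys hx hy e k0 k1
    have hax := ta_pos hx
    have hay := ta_pos hy
    have hB : ta y ≤ 1376 / 1000 := B_le hay r0 h4 (by norm_num) (by norm_num) (by norm_num)
    have hB' : 256 / 1000 ≤ ta y := by linarith only [h1, r1, hax]
    have hlt : ta x < ta y := by nlinarith only [r1, hax]
    have hcos : kq (ta x) (ta y) ≤ 2 * (1 + ta x * ta y) ^ 2 := hcos_of hlt (by nlinarith only [h2, h3, r0])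
    obtain ⟨w1, w2⟩ := rowA (by linarith only [h1, hax]) (by linarith only [h2]) hB' hB r0 r1 h3 h4
    exact ⟨hcos, WW_pos hx hy hlt hcos (by linarith only [h2, h4, hax]) ht htv hu' w1 w2⟩
  · intro x y hx hy h1 h2 e h4
    obtain ⟨r0, r1⟩ := diag_rel hys hx hy e k0 k1
    have hax := ta_pos hx
    have hay := ta_pos hy
    have hB : ta y ≤ 1376 / 1000 := B_le hay r0 h4 (by norm_num) (by norm_num) (by norm_num)
    have hlt : ta x < ta y := by nlinarith only [r1, hax]
    have hcos : kq (ta x) (ta y) ≤ 2 * (1 + ta x * ta y) ^ 2 := hcos_of hlt (by nlinarith only [r0, hax, hB, hxc, h1, r1])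
    exact hsU (by linarith only [hxc, h1]) (by linarith only [h2]) (by linarith only [hxc, h1, r1, hax]) (by linarith only [hB]) (by linarith only [r0, hax]) r1 h4
      (shq_nonneg _) hv' hcos

/-- next to a digit `2` -/
theorem DR_two (hxs : xs ∈ Ioo (0 : ℝ) 1) (hys : ys ∈ Ioo (0 : ℝ) 1) (hxc : 256 / 1000 ≤ ta xs)
    (k1 : ta xs ≤ 8129 / 10000 * ta ys) (hT : T ≤ 0)
    (hT1 : -(131 / 1000) ≤ T) (hρ : 0 ≤ ρ) (hu : T + ρ ≤ 131 / 1000)
    (hv : (30 / 100 * ta ys ≤ ta xs ∧ ρ - T ≤ 200 / 1000) ∨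
      (275 / 1000 * ta ys ≤ ta xs ∧ ρ - T ≤ 168 / 1000)) :
    DR xs ys T ρ (1989 / 10000) (51 / 100) (823 / 10000) := by
  have ht : shq T ≤ 1792 / 10000 := shq131 (abs_le.2 ⟨hT1, by linarith only [hT]⟩)
  have hu' : shq (T + ρ) ≤ 1792 / 10000 := shq131 (abs_le.2 ⟨by linarith only [hT1, hρ], hu⟩)
  have k0 : 275 / 1000 * ta ys ≤ ta xs := by
    have := ta_pos hys
    rcases hv with h | h <;> linarith only [hxc, h, h.1]
  have htv : shq T ≤ shq (T - ρ) := shq_mono (by
    rw [abs_of_nonpos hT, abs_of_nonpos (by linarith only [hT, hρ])]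
    linarith only [hρ])
  constructor
  · intro x y hx hy h1 h2 e h3 h4
    obtain ⟨r0, r1⟩ := diag_rel hys hx hy e k0 k1
    have hax := ta_pos hx
    have hay := ta_pos hy
    have hB : ta y ≤ 1430 / 1000 := B_le hay r0 h4 (by norm_num) (by norm_num) (by norm_num)
    have hB' : 198 / 1000 ≤ ta y := by linarith only [h1, r1, hax]
    have hlt : ta x < ta y := by nlinarith only [r1, hax]
    have hcos : kq (ta x) (ta y) ≤ 2 * (1 + ta x * ta y) ^ 2 := hcos_of hlt (by nlinarith only [h2, h3, r0, hB])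
    obtain ⟨w1, w2⟩ := rowB (by linarith only [h1, hax]) (by linarith only [h2]) hB' hB (by linarith only [r0, hax]) r1 h3 h4
    exact ⟨hcos, WW_pos hx hy hlt hcos (by linarith only [h2, h4, hax]) ht htv hu' w1 w2⟩
  · intro x y hx hy h1 h2 e h4
    obtain ⟨r0, r1⟩ := diag_rel hys hx hy e k0 k1
    have hax := ta_pos hx
    have hay := ta_pos hy
    have hB : ta y ≤ 1430 / 1000 := B_le hay r0 h4 (by norm_num) (by norm_num) (by norm_num)
    have hlt : ta x < ta y := by nlinarith only [r1, hax]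
    have hcos : kq (ta x) (ta y) ≤ 2 * (1 + ta x * ta y) ^ 2 := hcos_of hlt (by nlinarith only [r0, hax, hB, hxc, h1, r1])
    rcases hv with ⟨k, hq⟩ | ⟨k, hq⟩
    · obtain ⟨r0', -⟩ := diag_rel hys hx hy e k k1
      exact hsU (by linarith only [hxc, h1]) (by linarith only [h2, hax]) (by linarith only [hxc, h1, r1, hax]) hB r0' (by linarith only [r1, hax]) (by linarith only [h4])
        (shq_nonneg _) (shq200 (abs_le.2 ⟨by linarith only [hq], by linarith only [hT, hρ]⟩)) hcos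
    · exact hsU2 (by linarith only [hxc, h1]) (by linarith only [h2]) (by linarith only [hxc, h1, r1, hax]) hB r0 (by linarith only [r1, hax]) (by linarith only [h4])
        (shq_nonneg _) (shq168 (abs_le.2 ⟨by linarith only [hq], by linarith only [hT, hρ]⟩)) hcos

/-- next to a digit `3` or a ring (height of both signs) -/
theorem DR_lo (hxs : xs ∈ Ioo (0 : ℝ) 1) (hys : ys ∈ Ioo (0 : ℝ) 1) (hxc : 256 / 1000 ≤ ta xs)
    (k0 : 264 / 1000 * ta ys ≤ ta xs) (k1 : ta xs ≤ 81 / 100 * ta ys) (hT : |T| ≤ 60 / 1000)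
    (hu : |T + ρ| ≤ 1645 / 10000) (hv : |T - ρ| ≤ 136 / 1000) :
    DR xs ys T ρ (15838 / 100000) (51 / 100) (656 / 10000) := by
  have ht : shq T ≤ 36 / 1000 := shq60 hT
  have hu' : shq (T + ρ) ≤ 2926 / 10000 := shq164 hu
  have hv' : shq (T - ρ) ≤ 194 / 1000 := by
    have := shq_lt_of (t := T - ρ) (n := 136) (d := 1000) (m := 194) (e := 1000)
      (by push_cast; exact hv) (by decide +kernel)
    push_cast at this
    exact this.le
  constructor
  · intro x y hx hy h1 h2 e h3 h4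
    obtain ⟨r0, r1⟩ := diag_rel hys hx hy e k0 k1
    have hax := ta_pos hx
    have hay := ta_pos hy
    have hB : ta y ≤ 1430 / 1000 := B_le hay r0 h4 (by norm_num) (by norm_num) (by norm_num)
    have hB' : 158 / 1000 ≤ ta y := by linarith only [h1, r1, hax]
    have hlt : ta x < ta y := by nlinarith only [r1, hax]
    have hcos : kq (ta x) (ta y) ≤ 2 * (1 + ta x * ta y) ^ 2 := hcos_of hlt (by nlinarith only [h2, h3, r0, hB])
    obtain ⟨w1, w2⟩ := rowC (by linarith only [h1, hax]) (by linarith only [h2]) hB' hB (by linarith only [r0, hax]) r1 h3 h4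
    exact ⟨hcos, WW_pos0 hx hy hcos (by linarith only [h2, h4, hax]) (by linarith only [h2, hax]) ht hu' w1 w2⟩
  · intro x y hx hy h1 h2 e h4
    obtain ⟨r0, r1⟩ := diag_rel hys hx hy e k0 k1
    have hax := ta_pos hx
    have hay := ta_pos hy
    have hB : ta y ≤ 1430 / 1000 := B_le hay r0 h4 (by norm_num) (by norm_num) (by norm_num)
    have hlt : ta x < ta y := by nlinarith only [r1, hax]
    have hcos : kq (ta x) (ta y) ≤ 2 * (1 + ta x * ta y) ^ 2 := hcos_of hlt (by nlinarith only [r0, hax, hB, hxc, h1, r1])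
    exact hsU3 (by linarith only [hxc, h1]) (by linarith only [h2]) (by linarith only [hxc, h1, r1, hax]) hB r0 (by linarith only [r1, hax]) (by linarith only [h4])
      (shq_nonneg _) hv' hcos

end

end RC

end Pool.Agent.Work.MP_b30479_gt.G2
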