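import Pool.Agent.Work.MP_b30479_gt.G2.RH2
import Pool.Agent.Work.MP_b30479_gt.G2.RKind

/-!
# Rings on the level part: the classes without exceptions
-/

namespace Pool.Agent.Work.MP_b30479_gt.G2

open Real Set VOL

namespace RC

namespace Row

open NumI NumI.E

theorem cH3 : chk (h2l 4465 1200 220 5900) 18 [V.of 10000 1700 2520, V.of 10000 0 2445] = true := by
  decide +kernel

theorem cH2 : chk (h2l 4495 1400 130 3980) 18 [V.of 10000 1860 2520, V.of 10000 0 2225] = true := by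
  decide +kernel

theorem cH2e : chk (h2l 3740 1680 105 3520) 18 [V.of 10000 1640 1860, V.of 10000 0 1885] = true := by
  decide +kernel

/-- `ta x < k ta (x + d)` -/
def ek (k d : ℤ) : E := sub (mul (q k 10000) (tanE (add (var 0) (q d 10000)))) (tanE (var 0))

theorem ek_val (x : ℝ) (k d : ℤ) : (ek k d).val [x] = k / 10000 * ta (x + d / 10000) - ta x := by
  simp only [ek, tanE, dv, E.val, lkR_zero]
  push_cast
  rw [ta_div, ta_div]

theorem kap_of {x0 x1 k d : ℤ} {n : ℕ} (h : chk [ek k d] n [V.of 10000 x0 x1] = true) {xs ys : ℝ}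
    (hxs : xs ∈ Ioo (0 : ℝ) 1) (hys : ys ∈ Ioo (0 : ℝ) 1) (h0 : (x0 : ℝ) / 10000 ≤ xs)
    (h1 : xs ≤ x1 / 10000) (hk : (0 : ℝ) ≤ k) (hd : (0 : ℝ) ≤ d) (h4 : xs + d / 10000 ≤ ys) :
    ta xs < k / 10000 * ta ys := by
  have hp := pos_of_chk (chk1 h (x := xs) (by norm_num) (by push_cast; linarith only [h0])
    (by push_cast; linarith only [h1]))
  rw [ek_val] at hp
  have hd' : (0 : ℝ) ≤ d / 10000 := by positivity
  have h2 : ta (xs + d / 10000) ≤ ta ys :=
    (ta_le' ⟨by linarith only [hd, hxs, hxs.1], h4.trans_lt hys.2⟩ hys).2 h4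
  have h3 : (k : ℝ) / 10000 * ta (xs + d / 10000) ≤ k / 10000 * ta ys :=
    mul_le_mul_of_nonneg_left h2 (by positivity)
  linarith only [hp, h3]

theorem cK3 : chk [ek 8100 535] 8 [V.of 10000 1700 2520] = true := by decide +kernel
theorem cK2 : chk [ek 8127 505] 8 [V.of 10000 1860 2520] = true := by decide +kernel
theorem cK2e : chk [ek 8100 1000] 8 [V.of 10000 1640 1860] = true := by decide +kernel
theorem cK1 : chk [ek 9400 180] 8 [V.of 10000 2140 2980] = true := by decide +kernel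

theorem t170_gt : (264 : ℝ) / 1000 < ta (170 / 1000) := by
  have := ta_gt (n := 170) (d := 1000) (m := 264) (e := 1000) (by decide +kernel) (by norm_num)
  norm_num at this ⊢
  exact this

theorem t164_gt : (263 : ℝ) / 1000 < ta (164 / 1000) := by
  have := ta_gt (n := 164) (d := 1000) (m := 263) (e := 1000) (by decide +kernel) (by norm_num)
  norm_num at this ⊢
  exact this

theorem t186_gt : (30 : ℝ) / 100 < ta (186 / 1000) := by
  have := ta_gt (n := 186) (d := 1000) (m := 30) (e := 100) (by decide +kernel) (by norm_num)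
  norm_num at this ⊢
  exact this

theorem t217_gt : (349 : ℝ) / 1000 < ta (217 / 1000) := by
  have := ta_gt (n := 217) (d := 1000) (m := 349) (e := 1000) (by decide +kernel) (by norm_num)
  norm_num at this ⊢
  exact this

end Row

open Row

section
variable {xs ys T ρ cl cp : ℝ}

theorem ta_lo {x m c : ℝ} (hx : x ∈ Ioo (0 : ℝ) 1) (hm : m ∈ Ioo (0 : ℝ) 1) (h : m ≤ x)
    (hc : c < ta m) : c < ta x := hc.trans_le ((ta_le' hm hx).2 h)

theorem ta_hi {x m c : ℝ} (hx : x ∈ Ioo (0 : ℝ) 1) (hm : m ∈ Ioo (0 : ℝ) 1) (h : x ≤ m)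
    (hc : ta m < c) : ta x < c := ((ta_le' hx hm).2 h).trans_lt hc

/-- lower bound for the quotient -/
theorem GD.kap (g : GD xs ys cl cp) {c : ℝ} (hc : c < ta xs) : c * ta ys ≤ ta xs := by
  have h1 := ta_le_one g.yi g.y2
  have h2 := ta_pos g.yi
  rcases le_or_gt c 0 with h | h
  · have := ta_pos g.xi
    nlinarith only [hc, h2, h1, this]
  · nlinarith only [hc, h1, h]

/-- the comparison condition from a bound of the quotient -/
theorem GD.hK (g : GD xs ys cl cp) (hκ : ta xs * ta cp ≤ 4142 / 10000 * ta ys) :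
    ∀ x y, x ∈ Icc cl cp → y ∈ Icc (1 / 4 : ℝ) (1 / 2) → xs < x →
      |gh y - gh ys| ≤ gh x - gh xs → ta xs * ta x ≤ ta ys * ta y := by
  intro x y hx hy _ _
  have hxi := g.x1 hx
  have hyi : y ∈ Ioo (0 : ℝ) 1 := ⟨by linarith only [hy, hy.1], by linarith only [hy, hy.2]⟩
  have h1 := (ta_le' hxi g.cpi).2 hx.2
  have h2 := t8_le hyi hy.1
  have h3 := ta_pos g.xi
  have h4 := ta_pos g.yi
  calc ta xs * ta x ≤ ta xs * ta cp := mul_le_mul_of_nonneg_left h1 h3.le
    _ ≤ 4142 / 10000 * ta ys := hκ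
    _ ≤ ta y * ta ys := mul_le_mul_of_nonneg_right h2.le h4.le
    _ = _ := mul_comm _ _

theorem GD.prod_le (g : GD xs ys cl cp) {κ c : ℝ} (h1 : ta xs ≤ κ * ta ys) (h2 : ta cp ≤ c)
    (h3 : κ * c ≤ 4142 / 10000) (h4 : 0 ≤ κ) : ta xs * ta cp ≤ 4142 / 10000 * ta ys := by
  have hy := ta_pos g.yi
  have hc := ta_pos g.cpi
  calc ta xs * ta cp ≤ κ * ta ys * c := mul_le_mul h1 h2 hc.le (by positivity)
    _ = κ * c * ta ys := by ring
    _ ≤ _ := mul_le_mul_of_nonneg_right h3 hy.le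

/-- all comparison statements from the three conditions -/
theorem GD.good {a0 a1 p0 : ℝ} (g : GD xs ys cl cp) (hf : H2 xs ys T ρ)
    (hr : DR xs ys T ρ a0 a1 p0) (ha0 : a0 ≤ ta cl) (ha1 : ta cp ≤ a1) (ha1' : a1 ≤ 55 / 100)
    (ha0' : 158 / 1000 ≤ a0) (hp0 : p0 ≤ a0 * (4142 / 10000)) (hv : shq (T - ρ) ≤ 45 / 100)
    (hκ : ta xs ≤ 94 / 100 * ta ys)
    (hK : ∀ x y, x ∈ Icc cl cp → y ∈ Icc (1 / 4 : ℝ) (1 / 2) → xs < x →
      |gh y - gh ys| ≤ gh x - gh xs → ta xs * ta x ≤ ta ys * ta y) : LH xs ys T ρ cl cp :=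
  ⟨g.xi, g.up hf (ha0'.trans ha0) hv, g.wup hr ha0 ha1 (by linarith only [ha1']) hp0 hK,
    g.wdn hr ha0 ha1 ha1' hp0 ha0' hv hκ⟩

/-- next to a digit `3` or a ring -/
theorem cls3 (g : GD xs ys cl cp) (hcl : 1 / 10 ≤ cl) (hcp : cp ≤ 3 / 10) (x0 : 170 / 1000 ≤ xs)
    (x1 : xs ≤ 252 / 1000) (s1 : 1 / 2 - ys ≤ 2445 / 10000)
    (c1 : xs + (1 / 2 - ys) ≤ 4465 / 10000) (hT : |T| ≤ 60 / 1000) (hu : |T + ρ| ≤ 1645 / 10000)
    (hq : |T - ρ| ≤ 1200 / 10000) (hq' : |T - ρ| ≤ 5900 / 10000 - 22 / 10 * (1 / 2 - ys)) :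
    LH xs ys T ρ cl cp ∧ DnG xs T cl cp ys ρ := by
  have y2 := g.y2
  have hf : H2 xs ys T ρ := H2_of cH3 g.xi g.yi (by norm_num; linarith only [x0]) (by norm_num; linarith only [x1])
    (by norm_num; linarith only [y2]) (by norm_num; linarith only [s1]) (by norm_num; linarith only [c1]) (by norm_num; linarith only [hq])
    (by norm_num; linarith only [hq'])
  have hκ := kap_of cK3 g.xi g.yi (by norm_num; linarith only [x0]) (by norm_num; linarith only [x1]) (by norm_num)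
    (by norm_num) (by norm_num; linarith only [c1])
  norm_num at hκ
  have hk0 := g.kap (ta_lo g.xi (by norm_num) x0 t170_gt)
  have hcx := ta_lo g.xi (by norm_num) x0 t170_gt
  have hc0 := ta_lo g.cli (by norm_num) hcl t10_gt
  have hc1 := ta_hi g.cpi (by norm_num) hcp t30_lt
  have hv : shq (T - ρ) ≤ 45 / 100 := shq200 (hq.trans (by norm_num))
  have hp := g.prod_le (κ := 81 / 100) (c := 5096 / 10000) (by linarith only [hκ]) hc1.le (by norm_num)
    (by norm_num)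
  exact ⟨g.good hf (DR_lo g.xi g.yi (by linarith only [hcx]) hk0 (by linarith only [hκ]) hT hu (hq.trans (by norm_num)))
    hc0.le (by linarith only [hc1]) (by norm_num) (by norm_num) (by norm_num) hv
    (by nlinarith only [hκ, hcx, ta_pos g.yi]) (g.hK hp), g.dn hf hp (by linarith only [hc0]) hv⟩

/-- next to a digit `2` inside -/
theorem cls2 (g : GD xs ys cl cp) (hcl : 1 / 8 ≤ cl) (hcp : cp ≤ 3 / 10) (x0 : 186 / 1000 ≤ xs)
    (x1 : xs ≤ 252 / 1000) (s1 : 1 / 2 - ys ≤ 2225 / 10000)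
    (c1 : xs + (1 / 2 - ys) ≤ 4495 / 10000) (hT : T ≤ 0) (hT1 : -(131 / 1000) ≤ T) (hρ : 0 ≤ ρ)
    (hu : T + ρ ≤ 131 / 1000) (hq : ρ - T ≤ 1400 / 10000)
    (hq' : ρ - T ≤ 3980 / 10000 - 13 / 10 * (1 / 2 - ys)) :
    LH xs ys T ρ cl cp ∧ DnG xs T cl cp ys ρ := by
  have y2 := g.y2
  have ea : |T - ρ| = ρ - T := by rw [abs_of_nonpos (by linarith only [hT, hρ])]; ring
  have hf : H2 xs ys T ρ := H2_of cH2 g.xi g.yi (by norm_num; linarith only [x0]) (by norm_num; linarith only [x1])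
    (by norm_num; linarith only [y2]) (by norm_num; linarith only [s1]) (by norm_num; linarith only [c1])
    (by rw [ea]; norm_num; linarith only [hq]) (by rw [ea]; norm_num; linarith only [hq'])
  have hκ := kap_of cK2 g.xi g.yi (by norm_num; linarith only [x0]) (by norm_num; linarith only [x1]) (by norm_num)
    (by norm_num) (by norm_num; linarith only [c1])
  norm_num at hκ
  have hcx := ta_lo g.xi (by norm_num) x0 t186_gt
  have hk0 := g.kap hcx
  have hc0 := ta_lo g.cli (by norm_num) hcl t125_gt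
  have hc1 := ta_hi g.cpi (by norm_num) hcp t30_lt
  have hv : shq (T - ρ) ≤ 45 / 100 := shq200 (by rw [ea]; linarith only [hT1, hu, hq])
  have hp := g.prod_le (κ := 8127 / 10000) (c := 5096 / 10000) (by linarith only [hκ]) hc1.le (by norm_num)
    (by norm_num)
  exact ⟨g.good hf (DR_two g.xi g.yi (by linarith only [hcx]) (by nlinarith only [hκ, hcx, ta_pos g.yi]) hT hT1 hρ hu
    (Or.inl ⟨hk0, by linarith only [hT1, hu, hq]⟩))
    hc0.le (by linarith only [hc1]) (by norm_num) (by norm_num) (by norm_num) hv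
    (by nlinarith only [hκ, hcx, ta_pos g.yi]) (g.hK hp), g.dn hf hp (by linarith only [hc0]) hv⟩

/-- next to a digit `2` at the end -/
theorem cls2e (g : GD xs ys cl cp) (hcl : 1 / 8 ≤ cl) (hcp : cp ≤ 3 / 10) (x0 : 164 / 1000 ≤ xs)
    (x1 : xs ≤ 186 / 1000) (s1 : 1 / 2 - ys ≤ 1885 / 10000)
    (c1 : xs + (1 / 2 - ys) ≤ 3740 / 10000) (hT : T ≤ 0) (hT1 : -(131 / 1000) ≤ T) (hρ : 0 ≤ ρ)
    (hu : T + ρ ≤ 131 / 1000) (hq : ρ - T ≤ 1680 / 10000)
    (hq' : ρ - T ≤ 3520 / 10000 - 105 / 100 * (1 / 2 - ys)) (hk0 : 275 / 1000 * ta ys ≤ ta xs) :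
    LH xs ys T ρ cl cp ∧ DnG xs T cl cp ys ρ := by
  have y2 := g.y2
  have ea : |T - ρ| = ρ - T := by rw [abs_of_nonpos (by linarith only [hT, hρ])]; ring
  have hf : H2 xs ys T ρ := H2_of cH2e g.xi g.yi (by norm_num; linarith only [x0]) (by norm_num; linarith only [x1])
    (by norm_num; linarith only [y2]) (by norm_num; linarith only [s1]) (by norm_num; linarith only [c1])
    (by rw [ea]; norm_num; linarith only [hq]) (by rw [ea]; norm_num; linarith only [hq'])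
  have hκ := kap_of cK2e g.xi g.yi (by norm_num; linarith only [x0]) (by norm_num; linarith only [x1]) (by norm_num)
    (by norm_num) (by norm_num; linarith only [x1, s1])
  norm_num at hκ
  have hcx := ta_lo g.xi (by norm_num) x0 t164_gt
  have hc0 := ta_lo g.cli (by norm_num) hcl t125_gt
  have hc1 := ta_hi g.cpi (by norm_num) hcp t30_lt
  have hv : shq (T - ρ) ≤ 45 / 100 := shq200 (by rw [ea]; linarith only [hT1, hu, hq])
  have hp := g.prod_le (κ := 81 / 100) (c := 5096 / 10000) (by linarith only [hκ]) hc1.le (by norm_num)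
    (by norm_num)
  exact ⟨g.good hf (DR_two g.xi g.yi (by linarith only [hcx]) (by nlinarith only [hκ, hcx, ta_pos g.yi]) hT hT1 hρ hu
    (Or.inr ⟨hk0, by linarith only [hq]⟩))
    hc0.le (by linarith only [hc1]) (by norm_num) (by norm_num) (by norm_num) hv
    (by nlinarith only [hκ, hcx, ta_pos g.yi]) (g.hK hp), g.dn hf hp (by linarith only [hc0]) hv⟩

/-- next to a digit `1`: everything except the ring variable going down -/
theorem cls1_LH (g : GD xs ys cl cp) (hcl : 16 / 100 ≤ cl) (hcp : cp ≤ 32 / 100)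
    (hcx : 256 / 1000 ≤ ta xs) (hk0 : 349 / 1000 * ta ys ≤ ta xs)
    (hκ : ta xs ≤ 94 / 100 * ta ys) (hT : T ≤ 0) (hT1 : -(158 / 1000) ≤ T) (hρ : 0 ≤ ρ)
    (hu : T + ρ ≤ 158 / 1000) (hq : ρ - T ≤ 2000 / 10000) (hf : H2 xs ys T ρ)
    (hK : ∀ x y, x ∈ Icc cl cp → y ∈ Icc (1 / 4 : ℝ) (1 / 2) → xs < x →
      |gh y - gh ys| ≤ gh x - gh xs → ta xs * ta x ≤ ta ys * ta y) :
    LH xs ys T ρ cl cp := by
  have ea : |T - ρ| = ρ - T := by rw [abs_of_nonpos (by linarith only [hT, hρ])]; ring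
  have hc0 := ta_lo g.cli (by norm_num) hcl t16_gt
  have hc1 := ta_hi g.cpi (by norm_num) hcp t32_lt
  have hv : shq (T - ρ) ≤ 45 / 100 := shq200 (by rw [ea]; linarith only [hq])
  exact g.good hf (DR_one g.xi g.yi hcx hk0 hκ hT hT1 hρ hu
    (by linarith only [hq])) hc0.le (by linarith only [hc1]) (by norm_num) (by norm_num) (by norm_num) hv hκ hK

/-- next to a digit `1`, quotient small -/
theorem cls1 (g : GD xs ys cl cp) (hcl : 16 / 100 ≤ cl) (hcp : cp ≤ 32 / 100)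
    (hcx : 256 / 1000 ≤ ta xs) (hk0 : 349 / 1000 * ta ys ≤ ta xs)
    (hκ : ta xs ≤ 7534 / 10000 * ta ys) (hT : T ≤ 0) (hT1 : -(158 / 1000) ≤ T) (hρ : 0 ≤ ρ)
    (hu : T + ρ ≤ 158 / 1000) (hq : ρ - T ≤ 2000 / 10000) (hf : H2 xs ys T ρ) :
    LH xs ys T ρ cl cp ∧ DnG xs T cl cp ys ρ := by
  have hc0 := ta_lo g.cli (by norm_num) hcl t16_gt
  have hc1 := ta_hi g.cpi (by norm_num) hcp t32_lt
  have hp := g.prod_le (κ := 7534 / 10000) (c := 54976 / 100000) hκ hc1.le (by norm_num)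
    (by norm_num)
  have h1 := cls1_LH g hcl hcp hcx hk0 (by nlinarith only [hcx, hκ, ta_pos g.yi]) hT hT1 hρ hu hq hf (g.hK hp)
  have ea : |T - ρ| = ρ - T := by rw [abs_of_nonpos (by linarith only [hT, hρ])]; ring
  exact ⟨h1, g.dn hf hp (by linarith only [hc0]) (shq200 (by rw [ea]; linarith only [hq]))⟩

end

end RC

end Pool.Agent.Work.MP_b30479_gt.G2
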