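import Pool.Agent.Work.MP_b30479_gt.G2.RRT

/-!
# Rings with the ring variable on the ramp, `b ≥ 5`: reduction to the kernel checks
-/

namespace Pool.Agent.Work.MP_b30479_gt.G2

open Real Set VOL NumI

namespace RQ

open RC

/-! ### derivatives -/

theorem hasDerivAt_gh {x : ℝ} (h0 : 0 < x) (h1 : x < 1) : HasDerivAt gh (π / sin (π * x)) x := by
  have hp := pi_pos
  have hs : 0 < sin (π * x / 2) := sin_pos_of_pos_of_lt_pi (by positivity) (by nlinarith only [hp, h1])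
  have hc : 0 < cos (π * x / 2) := cos_pos_of_mem_Ioo ⟨by nlinarith only [hp, h0], by nlinarith only [h1, hp]⟩
  have hd : HasDerivAt (fun z : ℝ => π * z / 2) (π / 2) x := by
    have := ((hasDerivAt_id' x).const_mul π).div_const 2
    rwa [mul_one] at this
  have ht := (hasDerivAt_tan hc.ne').comp x hd
  have htn : tan (π * x / 2) ≠ 0 := by
    rw [tan_eq_sin_div_cos]
    positivity
  have hl := ht.log htn
  refine hl.congr_deriv ?_
  have e : sin (π * x) = 2 * sin (π * x / 2) * cos (π * x / 2) := by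
    rw [← sin_two_mul]
    congr 1
    ring
  rw [e, Function.comp_apply, tan_eq_sin_div_cos]
  field_simp

theorem MM_pos {x t : ℝ} (h0 : 0 < x) (h1 : x < 1) :
    0 < sin (π * x) ^ 2 + sinh (π * t) ^ 2 := by
  have hs : 0 < sin (π * x) :=
    sin_pos_of_pos_of_lt_pi (mul_pos pi_pos h0) (by nlinarith only [h1, pi_pos])
  positivity

theorem hasDerivAt_lnA {x t : ℝ} (h0 : 0 < x) (h1 : x < 1) : HasDerivAt (fun z => lnA z t)
    (π * sin (π * x) * cos (π * x) / (sin (π * x) ^ 2 + sinh (π * t) ^ 2)) x := by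
  have hM := MM_pos (t := t) h0 h1
  have hd : HasDerivAt (fun z : ℝ => π * z) π x := by
    have := (hasDerivAt_id' x).const_mul π
    rwa [mul_one] at this
  have h1 : HasDerivAt (fun z : ℝ => sin (π * z)) (cos (π * x) * π) x :=
    (hasDerivAt_sin (π * x)).comp x hd
  have h2 : HasDerivAt (fun z : ℝ => 4 * (sin (π * z) ^ 2 + sinh (π * t) ^ 2))
      (4 * (2 * sin (π * x) * (cos (π * x) * π))) x := by
    have := ((h1.pow 2).add_const (sinh (π * t) ^ 2)).const_mul 4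
    refine this.congr_deriv ?_
    norm_num
  have h3 := (h2.log (by positivity)).div_const 2
  refine h3.congr_deriv ?_
  field_simp

/-! ### monotonicity -/

theorem lnA_mono {u v t : ℝ} (h0 : 0 < u) (huv : u ≤ v) (hv : v ≤ 1 / 2) : lnA u t ≤ lnA v t := by
  have hp := pi_pos
  have hs : 0 < sin (π * u) := sin_pos_of_pos_of_lt_pi (by positivity) (by nlinarith only [hp, huv, hv])
  have hm : sin (π * u) ≤ sin (π * v) :=
    sin_le_sin_of_le_of_le_pi_div_two (by nlinarith only [hp, h0]) (by nlinarith only [hv, hp]) (by nlinarith only [huv, hp])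
  have hq : sin (π * u) ^ 2 ≤ sin (π * v) ^ 2 := pow_le_pow_left₀ hs.le hm 2
  unfold lnA
  have := log_le_log (by positivity : 0 < 4 * (sin (π * u) ^ 2 + sinh (π * t) ^ 2))
    (by linarith only [hq] : 4 * (sin (π * u) ^ 2 + sinh (π * t) ^ 2) ≤
      4 * (sin (π * v) ^ 2 + sinh (π * t) ^ 2))
  linarith only [this]

/-- lower bound in the middle of the strip -/
theorem lnA_le_LL {u v t : ℝ} (h0 : 0 < v) (h1 : v ≤ u) (h2 : u ≤ 1 - v) :
    lnA v t ≤ LL (lv u t) := by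
  rw [LL_lv t (by linarith only [h0, h1]) (by linarith only [h0, h2])]
  rcases le_total u (1 / 2) with h | h
  · exact lnA_mono h0 h1 h
  · have e : lnA u t = lnA (1 - u) t := by
      unfold lnA
      have : sin (π * u) = sin (π * (1 - u)) := by
        rw [mul_sub, mul_one, sin_pi_sub]
      rw [this]
    rw [e]
    exact lnA_mono h0 (by linarith only [h2]) (by linarith only [h])

theorem LL_le_half {u t : ℝ} (h0 : 0 < u) (h1 : u < 1) : LL (lv u t) ≤ lnA (1 / 2) t := by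
  rw [LL_lv t h0 h1]
  rcases le_total u (1 / 2) with h | h
  · exact lnA_mono h0 h le_rfl
  · have e : lnA u t = lnA (1 - u) t := by
      unfold lnA
      have : sin (π * u) = sin (π * (1 - u)) := by
        rw [mul_sub, mul_one, sin_pi_sub]
      rw [this]
    rw [e]
    exact lnA_mono (by linarith only [h1]) (by linarith only [h]) le_rfl

/-! ### the gauge -/

theorem gh_mvt {x y : ℝ} (h0 : 0 < x) (hxy : x < y) (hy : y ≤ 1 / 2) :
    ∃ z, x < z ∧ z < y ∧ gh y - gh x = (y - x) * (π / sin (π * z)) := by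
  have hd : ∀ z ∈ Icc x y, HasDerivAt gh (π / sin (π * z)) z := fun z hz =>
    hasDerivAt_gh (by linarith only [h0, hz, hz.1]) (by linarith only [h0, hxy, hy, hz, hz.2])
  obtain ⟨z, hz, h⟩ := exists_hasDerivAt_eq_slope gh (fun z => π / sin (π * z)) hxy
    (fun z hz => (hd z hz).continuousAt.continuousWithinAt)
    (fun z hz => hd z ⟨hz.1.le, hz.2.le⟩)
  refine ⟨z, hz.1, hz.2, ?_⟩
  have : 0 < y - x := by linarith only [hxy]
  rw [h]
  field_simp

/-- upper bound of the increment -/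
theorem gh_up {x y p β G : ℝ} (hp : 0 < p) (hpx : p ≤ x) (hxy : x ≤ y) (hy : y ≤ 1 / 2)
    (hG : β * π < G * sin (π * p)) (hG0 : 0 ≤ G) : β * (gh y - gh x) ≤ G * (y - x) := by
  have hpi := pi_pos
  rcases hxy.eq_or_lt with h | h
  · rw [h]
    simp
  obtain ⟨z, hz1, hz2, e⟩ := gh_mvt (by linarith only [hp, hpx]) h hy
  have hs : 0 < sin (π * p) := sin_pos_of_pos_of_lt_pi (by positivity) (by nlinarith only [hpi, hpx, hxy, hy])
  have hm : sin (π * p) ≤ sin (π * z) :=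
    sin_le_sin_of_le_of_le_pi_div_two (by nlinarith only [hpi, hp]) (by nlinarith only [hp, hpx, hxy, hy, hpi, hz2]) (by nlinarith only [hp, hpx, hpi, hxy, hy, hz1])
  have hs2 : 0 < sin (π * z) := by linarith only [hs, hm]
  rw [e]
  have h1 : β * (π / sin (π * z)) ≤ G := by
    rw [← mul_div_assoc, div_le_iff₀ hs2]
    have := mul_le_mul_of_nonneg_left hm hG0
    linarith only [hG, this]
  have := mul_le_mul_of_nonneg_right h1 (show 0 ≤ y - x by linarith only [hz1, hz2])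
  linarith only [this]

/-- lower bound of the increment -/
theorem gh_lo {x y p β G : ℝ} (h0 : 0 < x) (hxy : x ≤ y) (hyp : y ≤ p) (hp : p ≤ 1 / 2)
    (hG : G * sin (π * p) < β * π) (hG0 : 0 ≤ G) : G * (y - x) ≤ β * (gh y - gh x) := by
  have hpi := pi_pos
  rcases hxy.eq_or_lt with h | h
  · rw [h]
    simp
  obtain ⟨z, hz1, hz2, e⟩ := gh_mvt h0 h (by linarith only [hyp, hp])
  have hs : 0 < sin (π * z) := sin_pos_of_pos_of_lt_pi (by nlinarith only [h0, hpi, hz1]) (by nlinarith only [h0, hpi, hyp, hp, h, hz2])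
  have hm : sin (π * z) ≤ sin (π * p) :=
    sin_le_sin_of_le_of_le_pi_div_two (by nlinarith only [h0, hpi, hxy, hyp, hp, h, hz1]) (by nlinarith only [hp, hpi]) (by nlinarith only [h0, hxy, hyp, hpi, hp, hz2])
  rw [e]
  have h1 : G ≤ β * (π / sin (π * z)) := by
    rw [← mul_div_assoc, le_div_iff₀ hs]
    have := mul_le_mul_of_nonneg_left hm hG0
    linarith only [hG, this]
  have := mul_le_mul_of_nonneg_right h1 (show 0 ≤ y - x by linarith only [hz1, hz2])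
  linarith only [this]

theorem gh_mono {x y : ℝ} (h0 : 0 < x) (hxy : x ≤ y) (hy : y ≤ 1 / 2) : gh x ≤ gh y := by
  rcases hxy.eq_or_lt with h | h
  · rw [h]
  · exact ((gh_lt ⟨h0, by linarith only [h0, hy, h]⟩ ⟨by linarith only [h0, h], by linarith only [h0, hy, h]⟩).2 h).le

/-- the side of the hinge dominates the gauge -/
theorem side_gauge {a e u v t τ β : ℝ} (ha : 0 < a) (he : e ≤ 1 / 2) (hau : a ≤ u) (huv : u ≤ v)
    (hve : v ≤ e) (ht : |t| ≤ τ) (hβ : 0 ≤ β)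
    (hc : β * sinh (π * τ) ^ 2 ≤ sin (π * a) ^ 2 * (2 * cos (π * e) - β))
    (hc2 : β ≤ 2 * cos (π * e)) : β * (gh v - gh u) ≤ 2 * (lnA v t - lnA u t) := by
  have hpi := pi_pos
  rcases huv.eq_or_lt with h | h
  · rw [h]
    simp
  have hd : ∀ z ∈ Icc u v, HasDerivAt (fun z => 2 * lnA z t - β * gh z)
      (2 * (π * sin (π * z) * cos (π * z) / (sin (π * z) ^ 2 + sinh (π * t) ^ 2)) -
        β * (π / sin (π * z))) z := fun z hz =>
    ((hasDerivAt_lnA (by linarith only [ha, hau, hz, hz.1]) (by linarith only [ha, he, hau, hve, h, hz, hz.2])).const_mul 2).sub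
      ((hasDerivAt_gh (by linarith only [ha, hau, hz, hz.1]) (by linarith only [ha, he, hau, hve, h, hz, hz.2])).const_mul β)
  have hmono : MonotoneOn (fun z => 2 * lnA z t - β * gh z) (Icc u v) := by
    apply monotoneOn_of_deriv_nonneg (convex_Icc u v)
    · exact fun z hz => (hd z hz).continuousAt.continuousWithinAt
    · intro z hz
      rw [interior_Icc] at hz
      exact (hd z ⟨hz.1.le, hz.2.le⟩).differentiableAt.differentiableWithinAt
    · intro z hz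
      rw [interior_Icc] at hz
      rw [(hd z ⟨hz.1.le, hz.2.le⟩).deriv]
      have hz1 := hz.1
      have hz2 := hz.2
      have hsa : 0 < sin (π * a) := sin_pos_of_pos_of_lt_pi (by positivity) (by nlinarith only [hpi, he, hau, huv, hve])
      have hm : sin (π * a) ≤ sin (π * z) :=
        sin_le_sin_of_le_of_le_pi_div_two (by nlinarith only [hpi, ha]) (by nlinarith only [ha, he, hpi, hau, huv, hve, hz2]) (by nlinarith only [ha, he, hau, hpi, huv, hve, hz1])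
      have hs : 0 < sin (π * z) := by linarith only [hsa, hm]
      have hcos : cos (π * e) ≤ cos (π * z) :=
        cos_le_cos_of_nonneg_of_le_pi (by nlinarith only [ha, hpi, he, hau, huv, hve, hz1]) (by nlinarith only [hpi, he]) (by nlinarith only [ha, he, hau, huv, hve, hpi, hz2])
      have hsh : sinh (π * t) ^ 2 ≤ sinh (π * τ) ^ 2 := by
        have h0τ : 0 ≤ τ := (abs_nonneg t).trans ht
        rw [← sq_abs (sinh (π * t)), abs_sinh, abs_mul, abs_of_pos hpi]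
        have h1 : 0 ≤ sinh (π * |t|) := sinh_nonneg_iff.2 (by positivity)
        exact pow_le_pow_left₀ h1 (sinh_le_sinh.2 (mul_le_mul_of_nonneg_left ht hpi.le)) 2
      have hsq : sin (π * a) ^ 2 ≤ sin (π * z) ^ 2 := pow_le_pow_left₀ hsa.le hm 2
      have k1 : β * sinh (π * t) ^ 2 ≤ sin (π * z) ^ 2 * (2 * cos (π * z) - β) := by
        calc β * sinh (π * t) ^ 2 ≤ β * sinh (π * τ) ^ 2 := mul_le_mul_of_nonneg_left hsh hβ
          _ ≤ sin (π * a) ^ 2 * (2 * cos (π * e) - β) := hc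
          _ ≤ sin (π * z) ^ 2 * (2 * cos (π * z) - β) :=
            mul_le_mul hsq (by linarith only [hcos]) (by linarith only [hc2]) (by positivity)
      have hM : 0 < sin (π * z) ^ 2 + sinh (π * t) ^ 2 := by positivity
      have e1 : 2 * (π * sin (π * z) * cos (π * z) / (sin (π * z) ^ 2 + sinh (π * t) ^ 2)) -
          β * (π / sin (π * z)) = π * (sin (π * z) ^ 2 * (2 * cos (π * z) - β) -
            β * sinh (π * t) ^ 2) / ((sin (π * z) ^ 2 + sinh (π * t) ^ 2) * sin (π * z)) := by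
        field_simp
        ring
      rw [e1]
      apply div_nonneg _ (by positivity)
      exact mul_nonneg hpi.le (by linarith only [k1])
  have := hmono ⟨le_rfl, h.le⟩ ⟨h.le, le_rfl⟩ h.le
  simp only at this
  linarith only [this]

/-! ### the quadratic part -/

section
variable {B b y ρ : ℝ}

theorem kr_nonneg (hB : 0 < B) (hy : 1 / 4 - 1 / (2 * B) ≤ y) : 0 ≤ kr B y := by
  unfold kr
  have e : 4 / B = 8 * (1 / (2 * B)) := by
    field_simp
    norm_num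
  rw [e]
  linarith only [hy]

theorem kr_le (hy : y ≤ 1 / 4) : kr B y ≤ 4 / B := by
  unfold kr
  linarith only [hy]

theorem kr_anti (hb : 0 < b) (h : b ≤ B) : kr B y ≤ kr b y := by
  unfold kr
  have := div_le_div_of_nonneg_left (show (0 : ℝ) ≤ 4 by norm_num) hb h
  linarith only [this]

theorem Rr_anti (h : b ≤ B) (hr : 0 < ρ) (hy : y ≤ 1 / 4) : Rr B y ρ ≤ Rr b y ρ := by
  unfold Rr
  have h1 : 0 ≤ (B - b) * (1 - 4 * y) := mul_nonneg (by linarith only [h]) (by linarith only [hy])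
  have := mul_nonneg (show 0 ≤ 4 * π * ρ by positivity) h1
  linarith only [this]

end

/-! ### the saddle point and the other point -/

/-- all hypotheses, bounds in units `1/10000`; `B = b` or (`b ≤ B` and `lam ≤ 1`) -/
structure Sd (B : ℝ) (b c m s0 q0 q1 t0 t1 yl r1 : ℕ) (xs s T ρ x y : ℝ) : Prop where
  b5 : 5 ≤ b
  hb : (b : ℝ) ≤ B
  xs0 : 0 < xs
  xs1 : xs < 1 / 2
  hs0 : (s0 : ℝ) / 10000 ≤ s
  s5 : s0 + 1 ≤ 5000
  hc : xs + s ≤ (c : ℝ) / 10000
  c5 : c + 1 ≤ 5000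
  hm : |xs - s| ≤ (m : ℝ) / 10000
  m5 : m + 1 ≤ 5000
  ht0 : ((t0 : ℝ) - (1580 : ℕ)) / (10000 : ℕ) ≤ T
  ht1 : T ≤ ((t1 : ℝ) - (1580 : ℕ)) / (10000 : ℕ)
  hyl : ((yl : ℝ) - (0 : ℕ)) / (10000 : ℕ) ≤ y
  hr1 : ρ ≤ ((r1 : ℝ) - (0 : ℕ)) / (10000 : ℕ)
  hy0 : 1 / 4 - 1 / (2 * B) ≤ y
  D : Dmn q0 q1 x T y ρ

section
variable {B : ℝ} {b c m s0 q0 q1 t0 t1 yl r1 rg w ln ld jm a u1 v1 u2 v2 u1' v1' u2' v2' j xl xh
  code : ℕ} {xs s T ρ x y : ℝ}

lemma cast_sub {c : ℕ} (h : c + 1 ≤ 5000) : ((5000 - c : ℕ) : ℝ) / 10000 = 1 / 2 - c / 10000 := by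
  rw [Nat.cast_sub (by omega)]
  push_cast
  ring

lemma Sd.s00 (h : Sd B b c m s0 q0 q1 t0 t1 yl r1 xs s T ρ x y) : 0 ≤ s :=
  le_trans (by positivity) h.hs0

lemma Sd.sum (h : Sd B b c m s0 q0 q1 t0 t1 yl r1 xs s T ρ x y) : xs + s < 1 / 2 := by
  have h1 := h.hc
  have h2 : ((c + 1 : ℕ) : ℝ) ≤ ((5000 : ℕ) : ℝ) := Nat.cast_le.mpr h.c5
  push_cast at h2
  linarith only [h1, h2]

lemma Sd.D_le (h : Sd B b c m s0 q0 q1 t0 t1 yl r1 xs s T ρ x y) :
    Dx xs (1 / 2 - s) T ρ ≤ lnA (1 / 2) (T + ρ) - lnA (((5000 - c : ℕ) : ℝ) / 10000) (ρ - T) := by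
  have h2 : ((c + 1 : ℕ) : ℝ) ≤ ((5000 : ℕ) : ℝ) := Nat.cast_le.mpr h.c5
  push_cast at h2
  rw [cast_sub h.c5]
  exact Dx_le h.xs0 h.s00 h.xs1 h.hc (by linarith only [h2])

lemma Sd.P_le (h : Sd B b c m s0 q0 q1 t0 t1 yl r1 xs s T ρ x y) :
    LL (lv (xs + (1 / 2 - s)) (T + ρ)) ≤ lnA (1 / 2) (T + ρ) :=
  LL_le_half (by linarith only [h, h.sum, h.xs0]) (by linarith only [h, h.s00, h.xs1])

lemma Sd.P_ge (h : Sd B b c m s0 q0 q1 t0 t1 yl r1 xs s T ρ x y) :
    lnA (((5000 - m : ℕ) : ℝ) / 10000) (T + ρ) ≤ LL (lv (xs + (1 / 2 - s)) (T + ρ)) := by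
  have h2 : ((m + 1 : ℕ) : ℝ) ≤ ((5000 : ℕ) : ℝ) := Nat.cast_le.mpr h.m5
  push_cast at h2
  obtain ⟨h3, h4⟩ := abs_le.mp h.hm
  rw [cast_sub h.m5]
  have hm : (0 : ℝ) ≤ m := Nat.cast_nonneg m
  exact lnA_le_LL (by linarith only [h2]) (by linarith only [h3]) (by linarith only [h4])

lemma lnA_even (u t : ℝ) : lnA u (-t) = lnA u t := by
  unfold lnA
  rw [mul_neg, sinh_neg, neg_sq]

lemma Sd.Q_eq (h : Sd B b c m s0 q0 q1 t0 t1 yl r1 xs s T ρ x y) :
    LL (lv (1 / 2 - s - xs) (T - ρ)) = lnA (1 / 2 - s - xs) (ρ - T) := by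
  rw [LL_lv _ (by linarith only [h, h.sum]) (by linarith only [h, h.s00, h.xs0]), ← lnA_even, neg_sub]

lemma Sd.Q_le (h : Sd B b c m s0 q0 q1 t0 t1 yl r1 xs s T ρ x y) {z : ℝ} (hz : z ≤ xs)
    (hz0 : 0 ≤ z) :
    LL (lv (1 / 2 - s - xs) (T - ρ)) ≤ lnA (((5000 - s0 : ℕ) : ℝ) / 10000 - z) (ρ - T) := by
  rw [h.Q_eq, cast_sub h.s5]
  have h2 := h.hs0
  have hm : (0 : ℝ) ≤ s0 := Nat.cast_nonneg s0
  exact lnA_mono (by linarith [h.sum]) (by linarith) (by linarith)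

lemma Sd.Q_ge (h : Sd B b c m s0 q0 q1 t0 t1 yl r1 xs s T ρ x y) :
    lnA (((5000 - c : ℕ) : ℝ) / 10000) (ρ - T) ≤ LL (lv (1 / 2 - s - xs) (T - ρ)) := by
  have h2 : ((c + 1 : ℕ) : ℝ) ≤ ((5000 : ℕ) : ℝ) := Nat.cast_le.mpr h.c5
  push_cast at h2
  rw [h.Q_eq, cast_sub h.c5]
  have h3 := h.hc
  exact lnA_mono (by linarith only [h2]) (by linarith only [h3]) (by linarith only [h, h.s00, h.xs0])

lemma Sd.B0 (h : Sd B b c m s0 q0 q1 t0 t1 yl r1 xs s T ρ x y) : 0 < B := by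
  have h1 := h.hb
  have h2 : ((5 : ℕ) : ℝ) ≤ (b : ℝ) := Nat.cast_le.mpr h.b5
  push_cast at h2
  linarith only [h1, h2]

lemma Sd.bpos (h : Sd B b c m s0 q0 q1 t0 t1 yl r1 xs s T ρ x y) : (0 : ℝ) < b := by
  have h2 : ((5 : ℕ) : ℝ) ≤ (b : ℝ) := Nat.cast_le.mpr h.b5
  push_cast at h2
  linarith only [h2]

lemma Sd.Fr_eq (h : Sd B b c m s0 q0 q1 t0 t1 yl r1 xs s T ρ x y) :
    Fr x y T ρ = An x T y ρ + Ln x T y ρ + Hb x T y ρ :=
  Fr_split (by linarith only [h, h.D.x0, h.D.y0]) (by linarith only [h, h.D.x1, h.D.y1])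

lemma lam_nonneg (ln ld j : ℕ) : 0 ≤ lam ln ld j := by
  unfold lam
  positivity

/-- the hinge beyond its part -/
theorem Sd.PhA (h : Sd B b c m s0 q0 q1 t0 t1 yl r1 xs s T ρ x y)
    (hb : B = b ∨ lam ln ld j ≤ 1) (hA : PA b w ln ld c u1 v1 u2 v2 j x T y ρ) :
    -lin u1 v1 u2 v2 x < Ph ((w : ℝ) / 2) (lam ln ld j) B xs (1 / 2 - s) T ρ x y := by
  obtain ⟨h1, h2⟩ := hA
  have hl := lam_nonneg ln ld j
  set l := lam ln ld j
  have hk := kr_nonneg h.B0 h.hy0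
  have hk2 := kr_anti (y := y) h.bpos h.hb
  have hD := h.D_le
  set U := lnA (1 / 2) (T + ρ) - lnA (((5000 - c : ℕ) : ℝ) / 10000) (ρ - T)
  have hR : (1 - l) * ((w : ℝ) / 2 * Rr B y ρ) ≤ (1 - l) * ((w : ℝ) / 2 * Rr b y ρ) := by
    rcases hb with hb | hb
    · rw [hb]
    · exact mul_le_mul_of_nonneg_left (mul_le_mul_of_nonneg_left
        (Rr_anti h.hb h.D.r0 h.D.y1) (by positivity)) (by linarith only [hb])
  have hU : l * (kr B y * Dx xs (1 / 2 - s) T ρ) ≤ l * (kr B y * U) :=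
    mul_le_mul_of_nonneg_left (mul_le_mul_of_nonneg_left hD hk) hl
  unfold Ph Sp
  rw [h.Fr_eq]
  rcases le_total U 0 with hu | hu
  · have : l * (kr B y * U) ≤ 0 :=
      mul_nonpos_of_nonneg_of_nonpos hl (mul_nonpos_of_nonneg_of_nonpos hk hu)
    linarith only [h1, hR, hU, this]
  · have : l * (kr B y * U) ≤ l * (kr b y * U) :=
      mul_le_mul_of_nonneg_left (mul_le_mul_of_nonneg_right hk2 hu) hl
    linarith only [h2, hR, hU, this]

/-- with the increment of the side, below -/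
theorem Sd.PhB (h : Sd b b c m s0 q0 q1 t0 t1 yl r1 xs s T ρ x y)
    (hl1 : lam ln ld j * (4 / b) ≤ 1) (ha : s0 + a + 1 ≤ 5000)
    (hB : PB rg b w ln ld s0 a u1 v1 u2 v2 j x T y ρ) (h0 : rg = 0 → x ≤ xs)
    (h1 : rg ≠ 0 → (a : ℝ) / 10000 ≤ xs) {z : ℝ} (hz0 : rg = 0 → z = x)
    (hz1 : rg ≠ 0 → z = (a : ℝ) / 10000) :
    -lin u1 v1 u2 v2 x < Ph ((w : ℝ) / 2) (lam ln ld j) b xs (1 / 2 - s) T ρ x y +
      dS xs (1 / 2 - s) T ρ x y - 2 * (lnA xs T - lnA z T) := by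
  have hl := lam_nonneg ln ld j
  set l := lam ln ld j
  have hk := kr_nonneg h.B0 h.hy0
  have hk4 := kr_le (B := b) h.D.y1
  have hlk : l * kr b y ≤ 1 := (mul_le_mul_of_nonneg_left hk4 hl).trans hl1
  have hlk0 : 0 ≤ l * kr b y := mul_nonneg hl hk
  have hP := h.P_le
  have e1 : Sx x y T (4 * ρ * y) = An x T y ρ - Ln x T y ρ - 2 * lnA x T := by
    unfold Sx An Ln
    rw [LL_lv _ (by linarith only [h, h.D.x0, h.D.y0]) (by linarith only [h, h.D.x1, h.D.y1]),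
      LL_lv _ h.D.x0 (by linarith only [h, h.D.x1]), ← LL_lv_neg (y - x) (T - 4 * ρ * y)]
    have e1 : 4 * ρ * y = 4 * (ρ * y) := by ring
    have e2 : -(T - 4 * (ρ * y)) = 4 * (ρ * y) - T := by ring
    rw [e1, e2]
    ring
  have e2 : LL (lv xs T) = lnA xs T := LL_lv _ h.xs0 (by linarith only [h, h.xs1])
  unfold Ph Sp dS
  rw [h.Fr_eq, e1]
  unfold Dx Sx
  rw [e2]
  set P := LL (lv (xs + (1 / 2 - s)) (T + ρ))
  have k1 : (1 + l * kr b y) * P ≤ (1 + l * kr b y) * lnA (1 / 2) (T + ρ) :=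
    mul_le_mul_of_nonneg_left hP (by linarith only [hlk0])
  rcases hB with ⟨hr, hB⟩ | ⟨hr, hB⟩
  · rw [hz0 hr]
    have hQ := h.Q_le (h0 hr) h.D.x0.le
    have k2 := mul_le_mul_of_nonneg_left hQ (show 0 ≤ 1 - l * kr b y by linarith only [hlk])
    linarith only [k1, hB, k2]
  · rw [hz1 hr]
    have hQ := h.Q_le (h1 hr) (by positivity)
    have e3 : ((5000 - s0 : ℕ) : ℝ) / 10000 - (a : ℝ) / 10000 =
        ((5000 - s0 - a : ℕ) : ℝ) / 10000 := by
      rw [Nat.cast_sub (show a ≤ 5000 - s0 by omega)]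
      ring
    rw [e3] at hQ
    have k2 := mul_le_mul_of_nonneg_left hQ (show 0 ≤ 1 - l * kr b y by linarith only [hlk])
    linarith only [k1, hB, k2]

/-- with the increment of the side, above -/
theorem Sd.PhC (h : Sd b b c m s0 q0 q1 t0 t1 yl r1 xs s T ρ x y)
    (hl1 : lam ln ld j * (4 / b) ≤ 1)
    (hB : PC rg b w ln ld c m a u1 v1 u2 v2 j x T y ρ) {z : ℝ} (hz0 : rg = 0 → z = x)
    (hz1 : rg ≠ 0 → z = (a : ℝ) / 10000) :
    -lin u1 v1 u2 v2 x < Ph ((w : ℝ) / 2) (lam ln ld j) b xs (1 / 2 - s) T ρ x y -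
      dS xs (1 / 2 - s) T ρ x y - 2 * (lnA z T - lnA xs T) := by
  have hl := lam_nonneg ln ld j
  set l := lam ln ld j
  have hk := kr_nonneg h.B0 h.hy0
  have hk4 := kr_le (B := b) h.D.y1
  have hlk : l * kr b y ≤ 1 := (mul_le_mul_of_nonneg_left hk4 hl).trans hl1
  have hlk0 : 0 ≤ l * kr b y := mul_nonneg hl hk
  have hP := h.P_ge
  have hQ := h.Q_ge
  have e1 : Sx x y T (4 * ρ * y) = An x T y ρ - Ln x T y ρ - 2 * lnA x T := by
    unfold Sx An Ln
    rw [LL_lv _ (by linarith only [h, h.D.x0, h.D.y0]) (by linarith only [h, h.D.x1, h.D.y1]),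
      LL_lv _ h.D.x0 (by linarith only [h, h.D.x1]), ← LL_lv_neg (y - x) (T - 4 * ρ * y)]
    have e1 : 4 * ρ * y = 4 * (ρ * y) := by ring
    have e2 : -(T - 4 * (ρ * y)) = 4 * (ρ * y) - T := by ring
    rw [e1, e2]
    ring
  have e2 : LL (lv xs T) = lnA xs T := LL_lv _ h.xs0 (by linarith only [h, h.xs1])
  unfold Ph Sp dS
  rw [h.Fr_eq, e1]
  unfold Dx Sx
  rw [e2]
  set P := LL (lv (xs + (1 / 2 - s)) (T + ρ))
  set Q := LL (lv (1 / 2 - s - xs) (T - ρ))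
  have k1 := mul_le_mul_of_nonneg_left hP (show 0 ≤ 1 - l * kr b y by linarith only [hlk])
  have k2 := mul_le_mul_of_nonneg_left hQ (show 0 ≤ 1 + l * kr b y by linarith only [hlk0])
  rcases hB with ⟨hr, hB⟩ | ⟨hr, hB⟩
  · rw [hz0 hr]
    linarith only [k1, k2, hB]
  · rw [hz1 hr]
    linarith only [k1, k2, hB]

end

end RQ

end Pool.Agent.Work.MP_b30479_gt.G2
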