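import Pool.Agent.Work.MP_b30479_gt.G2.RDiag
import Pool.Agent.Work.MP_b30479_gt.G2.RRN

/-!
# Rings: the hinge above the saddle point, slope `1`, without the gauge of the ring variable
-/

namespace Pool.Agent.Work.MP_b30479_gt.G2

open Set VOL NumI

namespace RC

theorem sin_sq_cos1 (a : ℝ) : Real.sin (Real.pi * a) ^ 2 =
    (1 - Real.cos (2 * (Real.pi * |a|))) / 2 := by
  have h := Real.cos_sq' (Real.pi * a)
  have h2 := Real.cos_two_mul (Real.pi * a)
  have h3 : Real.cos (2 * (Real.pi * |a|)) = Real.cos (2 * (Real.pi * a)) := by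
    rcases abs_choice a with h | h
    · rw [h]
    · rw [h, ← Real.cos_neg]
      congr 1
      ring
  rw [h3]
  linarith only [h, h2]

theorem LL_lv_le1 {a b t : ℝ} (ha : |a| ≤ |b|) (hb : |b| ≤ 1 / 2) (h : t ≠ 0 ∨ a ≠ 0) :
    LL (lv a t) ≤ LL (lv b t) := by
  have hp := Real.pi_pos
  have h0 := abs_nonneg a
  have h1 : Real.sin (Real.pi * a) ^ 2 ≤ Real.sin (Real.pi * b) ^ 2 := by
    rw [sin_sq_cos1, sin_sq_cos1]
    have := Real.cos_le_cos_of_nonneg_of_le_pi (x := 2 * (Real.pi * |a|)) (y := 2 * (Real.pi * |b|))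
      (by positivity) (by nlinarith only [hb, hp]) (by nlinarith only [ha, hp])
    linarith only [this]
  have h2 : 0 < Real.sin (Real.pi * a) ^ 2 + shq t := by
    rcases h with h | h
    · have : 0 < shq t := by
        unfold shq
        have : Real.sinh (Real.pi * t) ≠ 0 := by
          rw [Ne, Real.sinh_eq_zero]
          positivity
        positivity
      positivity
    · have h3 : 0 < |a| := abs_pos.2 h
      have h4 : Real.cos (2 * (Real.pi * |a|)) < 1 := by
        rw [← Real.cos_zero]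
        exact Real.cos_lt_cos_of_nonneg_of_le_pi le_rfl (by nlinarith only [ha, hp, hb]) (by positivity)
      have := shq_nonneg t
      rw [sin_sq_cos1]
      linarith only [h4, this]
  rw [LL_lv_eq, LL_lv_eq]
  have := Real.log_le_log (by positivity : 0 < 4 * (Real.sin (Real.pi * a) ^ 2 + shq t))
    (by linarith only [h1] : 4 * (Real.sin (Real.pi * a) ^ 2 + shq t) ≤
      4 * (Real.sin (Real.pi * b) ^ 2 + shq t))
  linarith only [this]

/-- the numerical condition of `side_gauge` on `[a, e]` -/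
def kapE (a e : ℕ) : E := .sub
  (.mul (.sq (.sinPi (.q a 100))) (.sub (.mul (.q 2 1) (.cosPi (.q e 100))) (.q 122 100)))
  (.mul (.q 122 100) (.sq (.sinh (.mul .pi (.q 47 1000)))))

theorem kapA : 122 / 100 * Real.sinh (Real.pi * (47 / 1000)) ^ 2 ≤
    Real.sin (Real.pi * (17 / 100)) ^ 2 * (2 * Real.cos (Real.pi * (22 / 100)) - 122 / 100) := by
  have h : NumI.chk [kapE 17 22] 1 [NumI.V.of 1 0 0] = true := by decide +kernel
  have hp := NumI.pos_of_chk (NumI.chk1 h (by norm_num) (x := 0) (by norm_num) (by norm_num))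
  simp only [kapE, NumI.E.val] at hp
  push_cast at hp
  linarith only [hp]

theorem kapB : 122 / 100 * Real.sinh (Real.pi * (47 / 1000)) ^ 2 ≤
    Real.sin (Real.pi * (22 / 100)) ^ 2 * (2 * Real.cos (Real.pi * (27 / 100)) - 122 / 100) := by
  have h : NumI.chk [kapE 22 27] 1 [NumI.V.of 1 0 0] = true := by decide +kernel
  have hp := NumI.pos_of_chk (NumI.chk1 h (by norm_num) (x := 0) (by norm_num) (by norm_num))
  simp only [kapE, NumI.E.val] at hp
  push_cast at hp
  linarith only [hp]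

/-- the own factor dominates the gauge -/
theorem own_gauge {T u v : ℝ} (h0 : 17 / 100 ≤ u) (h1 : u ≤ v) (h2 : v ≤ 27 / 100)
    (hT : |T| ≤ 47 / 1000) : 122 / 100 * (gh v - gh u) ≤ 2 * (lnA v T - lnA u T) := by
  have cA : (122 : ℝ) / 100 ≤ 2 * Real.cos (Real.pi * (22 / 100)) := by
    by_contra hcon
    push Not at hcon
    have h3 := kapA
    have h4 : Real.sin (Real.pi * (17 / 100)) ^ 2 *
        (2 * Real.cos (Real.pi * (22 / 100)) - 122 / 100) ≤ 0 :=
      mul_nonpos_of_nonneg_of_nonpos (sq_nonneg _) (by linarith only [hcon])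
    have h5 : 0 < Real.sinh (Real.pi * (47 / 1000)) :=
      Real.sinh_pos_iff.2 (by have := Real.pi_pos; positivity)
    have : 0 < 122 / 100 * Real.sinh (Real.pi * (47 / 1000)) ^ 2 := by positivity
    linarith only [h3, h4, this]
  have cB : (122 : ℝ) / 100 ≤ 2 * Real.cos (Real.pi * (27 / 100)) := by
    by_contra hcon
    push Not at hcon
    have h3 := kapB
    have h4 : Real.sin (Real.pi * (22 / 100)) ^ 2 *
        (2 * Real.cos (Real.pi * (27 / 100)) - 122 / 100) ≤ 0 :=
      mul_nonpos_of_nonneg_of_nonpos (sq_nonneg _) (by linarith only [hcon])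
    have h5 : 0 < Real.sinh (Real.pi * (47 / 1000)) :=
      Real.sinh_pos_iff.2 (by have := Real.pi_pos; positivity)
    have : 0 < 122 / 100 * Real.sinh (Real.pi * (47 / 1000)) ^ 2 := by positivity
    linarith only [h3, h4, this]
  have A : ∀ {u v : ℝ}, 17 / 100 ≤ u → u ≤ v → v ≤ 22 / 100 →
      122 / 100 * (gh v - gh u) ≤ 2 * (lnA v T - lnA u T) := fun h0 h1 h2 =>
    RQ.side_gauge (by norm_num) (by norm_num) h0 h1 h2 hT (by norm_num) kapA cA
  have B : ∀ {u v : ℝ}, 22 / 100 ≤ u → u ≤ v → v ≤ 27 / 100 →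
      122 / 100 * (gh v - gh u) ≤ 2 * (lnA v T - lnA u T) := fun h0 h1 h2 =>
    RQ.side_gauge (by norm_num) (by norm_num) h0 h1 h2 hT (by norm_num) kapB cB
  rcases le_total v (22 / 100) with hv | hv
  · exact A h0 h1 hv
  rcases le_total (22 / 100) u with hu | hu
  · exact B hu h1 h2
  have a1 := A h0 hu le_rfl
  have b1 := B le_rfl hv h2
  linarith only [a1, b1]

/-- **Slope `1`.** -/
theorem kap_one {xs ys T ρ x y : ℝ} (h0 : 17 / 100 ≤ xs) (h1 : xs ≤ x) (h2 : x ≤ 27 / 100)
    (h3 : 0 < y) (h4 : y < ys) (h5 : ys ≤ 1 / 2) (h6 : x - y ≤ ys - xs) (hT : |T| ≤ 47 / 1000)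
    (hn : Nz x y T ρ) (hs : xs < ys) :
    Sx x y T ρ + 122 / 100 * (gh x - gh xs) ≤ Sx xs ys T ρ + (Dx x y T ρ - Dx xs ys T ρ) := by
  have q1 := LL_lv_le1 (a := y - x) (b := ys - xs) (t := T - ρ) (by
    rw [abs_of_nonneg (a := ys - xs) (by linarith only [h1, h4, h6]), abs_le]
    constructor <;> linarith only [h6, h1, h4]) (by
    rw [abs_of_nonneg (by linarith only [h1, h4, h6])]
    linarith only [h0, h3, h4, h5]) (by
    by_contra hc
    push Not at hc
    obtain ⟨c1, c2⟩ := hc
    refine hn.2 ?_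
    rw [c1, c2]
    simp [lv])
  have q2 := own_gauge h0 h1 h2 hT
  rw [← LL_lv (x := x) T (by linarith only [h0, h1, h3, h4, h5]) (by linarith only [h2, h3, h4, h5]), ← LL_lv (x := xs) T (by linarith only [h0, h3, h4, h5])
    (by linarith only [h1, h2, h3, h4, h5])] at q2
  unfold Sx Dx
  linarith only [q1, q2]

end RC

end Pool.Agent.Work.MP_b30479_gt.G2
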