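import Pool.Agent.Work.MP_b30479_gt.G2.RDiag

/-!
# Rings on the level part: the level theorem

The ring variable of a maximiser on the flat part of its path: equality in the first order
condition; push-back from comparison statements for the single hinges.
-/

namespace Pool.Agent.Work.MP_b30479_gt.G2

open Real Set VOL Filter Topology

/-- **First order condition inside the flat part.** -/
theorem RM.flat_eq {b ρ σ : ℝ} {w w' : ℂ} (h : RM b ρ w w' σ) (h0 : -(1 / 4) < σ)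
    (h1 : σ < 1 / 4)
    (a1 : Complex.sin (Real.pi * (w + 1 / 2 + LT.zt ρ σ)) ≠ 0)
    (a2 : Complex.sin (Real.pi * (w + 1 / 2 - LT.zt ρ σ)) ≠ 0)
    (a3 : Complex.sin (Real.pi * (w' + 1 / 2 + LT.zt ρ σ)) ≠ 0)
    (a4 : Complex.sin (Real.pi * (w' + 1 / 2 - LT.zt ρ σ)) ≠ 0) :
    -(2 * Real.pi * b * ρ) + Dm 0 w (LT.zt ρ σ) + Dm 0 w' (LT.zt ρ σ) = 0 := by
  set ζ := LT.zt ρ σ with hζ
  have hth : LT.th σ = 1 := th_of_le (abs_le.2 ⟨h0.le, h1.le⟩)
  set F : ℝ → ℝ := fun s => -(2 * Real.pi * ρ * (b * (σ + s) + 1)) +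
    fR w (ζ + s * (1 + ((0 : ℝ) : ℂ) * Complex.I)) +
    fR w' (ζ + s * (1 + ((0 : ℝ) : ℂ) * Complex.I)) with hF
  have hev : ∀ᶠ s : ℝ in 𝓝 0, rg b ρ w w' (σ + s) = F s := by
    have e1 : ∀ᶠ s : ℝ in 𝓝 0, s < 1 / 4 - σ := gt_mem_nhds (by linarith only [h1])
    have e2 : ∀ᶠ s : ℝ in 𝓝 0, -(1 / 4) - σ < s := lt_mem_nhds (by linarith only [h0])
    filter_upwards [e1, e2] with s hs1 hs2
    have e3 : LT.th (σ + s) = 1 := th_of_le (abs_le.2 ⟨by linarith only [hs2], by linarith only [hs1]⟩)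
    have e4 : LT.zt ρ (σ + s) = ζ + s * (1 + ((0 : ℝ) : ℂ) * Complex.I) := by
      rw [hζ, zt_eq, zt_eq, e3, hth]
      push_cast
      ring
    unfold rg
    rw [e4, e3, hF]
    ring
  have hmax : IsLocalMax F 0 := by
    have e1 : ∀ᶠ s : ℝ in 𝓝 0, s < 1 / 4 - σ := gt_mem_nhds (by linarith only [h1])
    have e2 : ∀ᶠ s : ℝ in 𝓝 0, -(1 / 4) - σ < s := lt_mem_nhds (by linarith only [h0])
    filter_upwards [hev, e1, e2] with s hs hs1 hs2
    have h5 := hev.self_of_nhds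
    rw [← hs, ← h5, add_zero]
    exact h.mx _ (abs_le.2 ⟨by linarith only [hs2], by linarith only [hs1]⟩)
  have q : ∀ {v : ℂ}, Complex.sin (Real.pi * (v + 1 / 2 + ζ)) ≠ 0 →
      Complex.sin (Real.pi * (v + 1 / 2 - ζ)) ≠ 0 →
      HasDerivAt (fun s : ℝ => fR v (ζ + s * (1 + ((0 : ℝ) : ℂ) * Complex.I))) (Dm 0 v ζ) 0 := by
    intro v b1 b2
    have := hasDerivAt_fR (w := v) (ζ := ζ) (m := 0) (s := 0) ⟨by simpa using b1, fun h => absurd rfl h⟩
      ⟨by simpa using b2, fun h => absurd rfl h⟩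
    simpa using this
  have hd : HasDerivAt F (-(2 * Real.pi * b * ρ) + Dm 0 w ζ + Dm 0 w' ζ) 0 := by
    have p1 : HasDerivAt (fun s : ℝ => -(2 * Real.pi * ρ * (b * (σ + s) + 1)))
        (-(2 * Real.pi * b * ρ)) 0 := by
      have a2 : HasDerivAt (fun s : ℝ => b * (σ + s) + 1) b 0 := by
        simpa using (((hasDerivAt_id (0 : ℝ)).const_add σ).const_mul b).add_const 1
      refine ((a2.const_mul (2 * Real.pi * ρ)).neg).congr_deriv ?_
      ring
    exact (p1.add (q a1 a2)).add (q a3 a4)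
  exact hmax.hasDerivAt_eq_zero hd

namespace RC

/-- comparison statements for one hinge on the flat part; `(xs, ys)` saddle point (`ys = 1/2 + σ*`),
`[cl, cp]` flat part of the path of the hinge -/
structure LH (xs ys T ρ cl cp : ℝ) : Prop where
  hx : xs ∈ Ioo (0 : ℝ) 1
  up : ∀ x y, x ∈ Icc cl cp → ys < y → y ≤ 1 / 2 → |gh x - gh xs| < gh y - gh ys →
    Dx x y T ρ < Dx xs ys T ρ
  wup : ∀ x y, x ∈ Icc cl cp → y ∈ Icc (1 / 4 : ℝ) (1 / 2) → xs < x → Nz x y T ρ →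
    |gh y - gh ys| ≤ gh x - gh xs → Sx x y T ρ < Sx xs ys T ρ
  wdn : ∀ x y, x ∈ Icc cl cp → y ∈ Icc (1 / 4 : ℝ) (1 / 2) → x < xs → Nz x y T ρ →
    |gh y - gh ys| ≤ gh xs - gh x → Sx xs ys T ρ < Sx x y T ρ

/-- ring variable down more than the hinges: `p` the hinge considered, `q` the other one -/
def DnOK (xs T cl cp xs' T' cl' cp' ys ρ : ℝ) : Prop :=
  ∀ x x' y, x ∈ Icc cl cp → x' ∈ Icc cl' cp' → 1 / 4 ≤ y → y < ys → x ≠ xs → Nz x y T ρ →
    Nz x' y T' ρ → |gh x' - gh xs'| ≤ |gh x - gh xs| → |gh x - gh xs| < gh ys - gh y →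
    Dx x y T ρ + Dx x' y T' ρ ≤ Dx xs ys T ρ + Dx xs' ys T' ρ →
    (xs < x → Sx x y T ρ < Sx xs ys T ρ) ∧ (x < xs → Sx xs ys T ρ < Sx x y T ρ)

/-- the same for a single hinge -/
def DnOK1 (xs T cl cp ys ρ : ℝ) : Prop :=
  ∀ x y, x ∈ Icc cl cp → 1 / 4 ≤ y → y < ys → x ≠ xs → Nz x y T ρ →
    |gh x - gh xs| < gh ys - gh y → Dx x y T ρ ≤ Dx xs ys T ρ →
    (xs < x → Sx x y T ρ < Sx xs ys T ρ) ∧ (x < xs → Sx xs ys T ρ < Sx x y T ρ)

/-- ring variable down: the contribution increases -/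
def DnG (xs T cl cp ys ρ : ℝ) : Prop :=
  ∀ x y, x ∈ Icc cl cp → 1 / 4 ≤ y → y < ys → Nz x y T ρ → |gh x - gh xs| < gh ys - gh y →
    Dx xs ys T ρ < Dx x y T ρ

section
variable {xs T cl cp xs' T' cl' cp' ys ρ : ℝ}

theorem DnG.ok1 (h : DnG xs T cl cp ys ρ) : DnOK1 xs T cl cp ys ρ :=
  fun x y hx h1 h2 _ hn h3 h4 => absurd h4 (not_le.2 (h x y hx h1 h2 hn h3))

theorem DnG.ok (h : DnG xs T cl cp ys ρ) (h' : DnG xs' T' cl' cp' ys ρ) :
    DnOK xs T cl cp xs' T' cl' cp' ys ρ := by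
  intro x x' y hx hx' h1 h2 _ hn hn' h3 h4 h5
  have a1 := h x y hx h1 h2 hn h4
  have a2 := h' x' y hx' h1 h2 hn' (h3.trans_lt h4)
  exfalso
  linarith only [h5, a1, a2]

variable {x x' y : ℝ}

/-- **Level theorem, two hinges.** -/
theorem level_two (hp : LH xs ys T ρ cl cp) (hq : LH xs' ys T' ρ cl' cp')
    (hd : DnOK xs T cl cp xs' T' cl' cp' ys ρ) (hys : ys ∈ Ioo (0 : ℝ) 1) (hx : x ∈ Icc cl cp)
    (hx0 : x ∈ Ioo (0 : ℝ) 1) (hx' : x' ∈ Icc cl' cp') (hy : y ∈ Icc (1 / 4 : ℝ) (1 / 2))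
    (hn : Nz x y T ρ) (hn' : Nz x' y T' ρ)
    (hN : |gh x' - gh xs'| ≤ |gh x - gh xs|)
    (F1 : Dx x y T ρ + Dx x' y T' ρ ≤ Dx xs ys T ρ + Dx xs' ys T' ρ)
    (F2 : 1 / 4 < y → Dx x y T ρ + Dx x' y T' ρ = Dx xs ys T ρ + Dx xs' ys T' ρ)
    (hys4 : 1 / 4 ≤ ys) :
    (xs < x → Sx x y T ρ < Sx xs ys T ρ) ∧ (x < xs → Sx xs ys T ρ < Sx x y T ρ) := by
  have hy0 : y ∈ Ioo (0 : ℝ) 1 := ⟨by linarith only [hy, hy.1], by linarith only [hy, hy.2]⟩
  rcases eq_or_ne x xs with he | hne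
  · exact ⟨fun h => absurd he h.ne', fun h => absurd he h.ne⟩
  rcases le_or_gt |gh y - gh ys| |gh x - gh xs| with h1 | h1
  · refine ⟨fun h => ?_, fun h => ?_⟩
    · have h2 := (gh_lt hp.hx hx0).2 h
      rw [abs_of_pos (by linarith only [h2] : (0 : ℝ) < gh x - gh xs)] at h1
      exact hp.wup x y hx hy h hn h1
    · have h2 := (gh_lt hx0 hp.hx).2 h
      rw [abs_of_neg (by linarith only [h2] : gh x - gh xs < 0)] at h1
      exact hp.wdn x y hx hy h hn (by linarith only [h1])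
  · rcases lt_or_ge y ys with h2 | h2
    · have h3 := (gh_lt hy0 hys).2 h2
      rw [abs_of_neg (by linarith only [h3] : gh y - gh ys < 0)] at h1
      exact hd x x' y hx hx' hy.1 h2 hne hn hn' hN (by linarith only [h1]) F1
    · exfalso
      have h3 : ys < y := by
        rcases h2.lt_or_eq with h | h
        · exact h
        · exfalso
          rw [h, sub_self, abs_zero] at h1
          exact absurd h1 (not_lt.2 (abs_nonneg _))
      have h4 := (gh_lt hys hy0).2 h3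
      rw [abs_of_pos (by linarith only [h4] : 0 < gh y - gh ys)] at h1
      have a1 := hp.up x y hx h3 hy.2 h1
      have a2 := hq.up x' y hx' h3 hy.2 (hN.trans_lt h1)
      have := F2 (by linarith only [hys4, h3])
      linarith only [a1, a2, this]

/-- **Level theorem, one hinge.** -/
theorem level_one (hp : LH xs ys T ρ cl cp) (hd : DnOK1 xs T cl cp ys ρ) (hys : ys ∈ Ioo (0 : ℝ) 1)
    (hx : x ∈ Icc cl cp) (hx0 : x ∈ Ioo (0 : ℝ) 1) (hy : y ∈ Icc (1 / 4 : ℝ) (1 / 2))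
    (hn : Nz x y T ρ) (F1 : Dx x y T ρ ≤ Dx xs ys T ρ) (F2 : 1 / 4 < y → Dx x y T ρ = Dx xs ys T ρ)
    (hys4 : 1 / 4 ≤ ys) :
    (xs < x → Sx x y T ρ < Sx xs ys T ρ) ∧ (x < xs → Sx xs ys T ρ < Sx x y T ρ) := by
  have hy0 : y ∈ Ioo (0 : ℝ) 1 := ⟨by linarith only [hy, hy.1], by linarith only [hy, hy.2]⟩
  rcases eq_or_ne x xs with he | hne
  · exact ⟨fun h => absurd he h.ne', fun h => absurd he h.ne⟩
  rcases le_or_gt |gh y - gh ys| |gh x - gh xs| with h1 | h1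
  · refine ⟨fun h => ?_, fun h => ?_⟩
    · have h2 := (gh_lt hp.hx hx0).2 h
      rw [abs_of_pos (by linarith only [h2] : (0 : ℝ) < gh x - gh xs)] at h1
      exact hp.wup x y hx hy h hn h1
    · have h2 := (gh_lt hx0 hp.hx).2 h
      rw [abs_of_neg (by linarith only [h2] : gh x - gh xs < 0)] at h1
      exact hp.wdn x y hx hy h hn (by linarith only [h1])
  · rcases lt_or_ge y ys with h2 | h2
    · have h3 := (gh_lt hy0 hys).2 h2
      rw [abs_of_neg (by linarith only [h3] : gh y - gh ys < 0)] at h1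
      exact hd x y hx hy.1 h2 hne hn (by linarith only [h1]) F1
    · exfalso
      have h3 : ys < y := by
        rcases h2.lt_or_eq with h | h
        · exact h
        · exfalso
          rw [h, sub_self, abs_zero] at h1
          exact absurd h1 (not_lt.2 (abs_nonneg _))
      have h4 := (gh_lt hys hy0).2 h3
      rw [abs_of_pos (by linarith only [h4] : 0 < gh y - gh ys)] at h1
      have a1 := hp.up x y hx h3 hy.2 h1
      have := F2 (by linarith only [hys4, h3])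
      linarith only [a1, this]

end

end RC

end Pool.Agent.Work.MP_b30479_gt.G2
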