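import Pool.Agent.Work.MP_b30479_gt.G2.RPushA
import Pool.Agent.Work.MP_b30479_gt.G2.RGood

/-!
# Rings on the level part: the level theorem with bounds of the contributions and slacks

`LF`: one hinge, slacks `f` (up), `g` (down); `QB`: lower bound `- L m` of the contribution of the
other hinge while the ring variable is down more than the hinges; `DS`: the side of the hinge
considered, given `G < L m`.
-/

namespace Pool.Agent.Work.MP_b30479_gt.G2

open Real Set VOL Filter Topology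

namespace RC

/-- comparison statements for one hinge on the flat part, with slacks -/
structure LF (xs ys T ρ cl cp : ℝ) (f g : ℝ → ℝ) : Prop where
  hx : xs ∈ Ioo (0 : ℝ) 1
  up : ∀ x y, x ∈ Icc cl cp → ys < y → y ≤ 1 / 2 → |gh x - gh xs| < gh y - gh ys →
    Dx x y T ρ < Dx xs ys T ρ
  wup : ∀ x y, x ∈ Icc cl cp → y ∈ Icc (1 / 4 : ℝ) (1 / 2) → xs < x → Nz x y T ρ →
    |gh y - gh ys| ≤ gh x - gh xs → Sx x y T ρ < Sx xs ys T ρ + f (gh x - gh xs)
  wdn : ∀ x y, x ∈ Icc cl cp → y ∈ Icc (1 / 4 : ℝ) (1 / 2) → x < xs → Nz x y T ρ →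
    |gh y - gh ys| ≤ gh xs - gh x → Sx xs ys T ρ < Sx x y T ρ + g (gh xs - gh x)

/-- lower bound of the contribution of a hinge while the ring variable is down more, at `y` -/
structure QB (xs ys T ρ cl cp : ℝ) (L : ℝ → ℝ) (δ m1 n1 y : ℝ) : Prop where
  g : ∀ x, x ∈ Icc cl cp → Nz x y T ρ → |gh x - gh xs| < gh ys - gh y →
    Dx xs ys T ρ < Dx x y T ρ + L |gh x - gh xs|
  d : 0 < δ → ∀ x, x ∈ Icc cl cp → Nz x y T ρ → |gh x - gh xs| ≤ m1 →
    |gh x - gh xs| + n1 ≤ gh ys - gh y → Dx xs ys T ρ + δ < Dx x y T ρ + L |gh x - gh xs|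

/-- the side of a hinge while the ring variable is down more, at `y` -/
structure DS (xs ys T ρ cl cp : ℝ) (f g L : ℝ → ℝ) (δ m1 n1 y : ℝ) : Prop where
  up : ∀ x, x ∈ Icc cl cp → xs < x → Nz x y T ρ →
    gh x - gh xs < gh ys - gh y → Dx x y T ρ ≤ Dx xs ys T ρ + L (gh x - gh xs) →
    (gh x - gh xs ≤ m1 → gh x - gh xs + n1 ≤ gh ys - gh y →
      Dx x y T ρ + δ ≤ Dx xs ys T ρ + L (gh x - gh xs)) →
    Sx x y T ρ < Sx xs ys T ρ + f (gh x - gh xs)
  dn : ∀ x, x ∈ Icc cl cp → x < xs → Nz x y T ρ →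
    gh xs - gh x < gh ys - gh y → Dx x y T ρ ≤ Dx xs ys T ρ + L (gh xs - gh x) →
    (gh xs - gh x ≤ m1 → gh xs - gh x + n1 ≤ gh ys - gh y →
      Dx x y T ρ + δ ≤ Dx xs ys T ρ + L (gh xs - gh x)) →
    Sx xs ys T ρ < Sx x y T ρ + g (gh xs - gh x)

/-- `p` is pushed back, given the bound of the contribution of `q` -/
def Joint (ys ρ xs T cl cp : ℝ) (f g : ℝ → ℝ) (xs' T' cl' cp' : ℝ) : Prop :=
  ∀ y, 1 / 4 ≤ y → y < ys → ∃ (L : ℝ → ℝ) (δ m1 n1 : ℝ), Monotone L ∧ 0 ≤ δ ∧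
    DS xs ys T ρ cl cp f g L δ m1 n1 y ∧ QB xs' ys T' ρ cl' cp' L δ m1 n1 y

section
variable {xs ys T ρ cl cp xs' T' cl' cp' x x' y δ m1 n1 b : ℝ} {f g f' g' L L' : ℝ → ℝ}

theorem LH.toF (h : LH xs ys T ρ cl cp) (hf : ∀ t, 0 < t → 0 ≤ f t) (hg : ∀ t, 0 < t → 0 ≤ g t)
    (hc : 0 < cl) (hp : cp < 1) : LF xs ys T ρ cl cp f g := by
  refine ⟨h.hx, h.up, fun x y hx hy h1 hn hN => ?_, fun x y hx hy h1 hn hN => ?_⟩
  · have h2 := (gh_lt h.hx ⟨hc.trans_le hx.1, hx.2.trans_lt hp⟩).2 h1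
    have := hf _ (sub_pos.2 h2)
    linarith only [this, h, hx, hy, h1, hn, hN, h.wup x y hx hy h1 hn hN]
  · have h2 := (gh_lt ⟨hc.trans_le hx.1, hx.2.trans_lt hp⟩ h.hx).2 h1
    have := hg _ (sub_pos.2 h2)
    linarith only [this, h, hx, hy, h1, hn, hN, h.wdn x y hx hy h1 hn hN]

/-- the contribution increases -/
theorem DnG.QB (h : DnG xs T cl cp ys ρ) (h1 : 1 / 4 ≤ y) (h2 : y < ys) :
    QB xs ys T ρ cl cp (fun _ => 0) 0 m1 n1 y :=
  ⟨fun x hx hn hN => by simpa only [add_zero] using h x y hx h1 h2 hn hN,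
    fun h0 => absurd h0 (lt_irrefl _)⟩

/-- no side is needed if the contribution increases -/
theorem QB.toDS (h : QB xs ys T ρ cl cp (fun _ => 0) δ m1 n1 y) (hx0 : xs ∈ Ioo (0 : ℝ) 1)
    (hc : 0 < cl) (hp : cp < 1) {δ' m1' n1' : ℝ} :
    DS xs ys T ρ cl cp f g (fun _ => 0) δ' m1' n1' y := by
  constructor
  · intro x hx h3 hn hN hG _
    have h4 := (gh_lt hx0 ⟨hc.trans_le hx.1, hx.2.trans_lt hp⟩).2 h3
    have := h.g x hx hn (by rwa [abs_of_pos (sub_pos.2 h4)])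
    rw [add_zero] at hG this
    exact absurd hG (not_le.2 this)
  · intro x hx h3 hn hN hG _
    have h4 := (gh_lt ⟨hc.trans_le hx.1, hx.2.trans_lt hp⟩ hx0).2 h3
    have := h.g x hx hn (by rwa [abs_sub_comm, abs_of_pos (sub_pos.2 h4)])
    rw [add_zero] at hG this
    exact absurd hG (not_le.2 this)

theorem monotone_zero : Monotone (fun _ : ℝ => (0 : ℝ)) := fun _ _ _ => le_rfl

/-- both contributions increase -/
theorem Joint.of_dnG (h : DnG xs T cl cp ys ρ) (h' : DnG xs' T' cl' cp' ys ρ)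
    (hx0 : xs ∈ Ioo (0 : ℝ) 1) (hc : 0 < cl) (hp : cp < 1) :
    Joint ys ρ xs T cl cp f g xs' T' cl' cp' := fun y h1 h2 =>
  ⟨fun _ => 0, 0, 0, 0, monotone_zero, le_rfl,
    (DnG.QB (m1 := 0) (n1 := 0) h h1 h2).toDS hx0 hc hp, DnG.QB h' h1 h2⟩

/-- **Level theorem, two hinges, with bounds and slacks.** -/
theorem level_two' (hp : LF xs ys T ρ cl cp f g) (hq : ∀ x y, x ∈ Icc cl' cp' → ys < y →
      y ≤ 1 / 2 → |gh x - gh xs'| < gh y - gh ys → Dx x y T' ρ < Dx xs' ys T' ρ)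
    (hJ : Joint ys ρ xs T cl cp f g xs' T' cl' cp') (hys : ys ∈ Ioo (0 : ℝ) 1) (hx : x ∈ Icc cl cp)
    (hx0 : x ∈ Ioo (0 : ℝ) 1) (hx' : x' ∈ Icc cl' cp') (hy : y ∈ Icc (1 / 4 : ℝ) (1 / 2))
    (hn : Nz x y T ρ) (hn' : Nz x' y T' ρ)
    (hN : |gh x' - gh xs'| ≤ |gh x - gh xs|)
    (F1 : Dx x y T ρ + Dx x' y T' ρ ≤ Dx xs ys T ρ + Dx xs' ys T' ρ)
    (F2 : 1 / 4 < y → Dx x y T ρ + Dx x' y T' ρ = Dx xs ys T ρ + Dx xs' ys T' ρ)
    (hys4 : 1 / 4 ≤ ys) :
    (xs < x → Sx x y T ρ < Sx xs ys T ρ + f (gh x - gh xs)) ∧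
      (x < xs → Sx xs ys T ρ < Sx x y T ρ + g (gh xs - gh x)) := by
  have hy0 : y ∈ Ioo (0 : ℝ) 1 := ⟨by linarith only [hy, hy.1], by linarith only [hy, hy.2]⟩
  rcases eq_or_ne x xs with he | hne
  · exact ⟨fun h => absurd he h.ne', fun h => absurd he h.ne⟩
  rcases le_or_gt |gh y - gh ys| |gh x - gh xs| with h1 | h1
  · refine ⟨fun h => ?_, fun h => ?_⟩
    · have h2 := (gh_lt hp.hx hx0).2 h
      rw [abs_of_pos (by linarith only [h2] : (0 : ℝ) < gh x - gh xs)] at h1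
      exact hp.wup x y hx hy h hn h1
    · have h2 := (gh_lt hx0 hp.hx).2 h
      rw [abs_of_neg (by linarith only [h2] : gh x - gh xs < 0)] at h1
      exact hp.wdn x y hx hy h hn (by linarith only [h1])
  · rcases lt_or_ge y ys with h2 | h2
    · have h3 := (gh_lt hy0 hys).2 h2
      obtain ⟨L, δ, m1, n1, hL, hδ, hd, hb⟩ := hJ y hy.1 h2
      rw [abs_of_neg (by linarith only [h3] : gh y - gh ys < 0)] at h1
      have b1 := hb.g x' hx' hn' (by linarith only [hN, h1])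
      have b2 := hL hN
      have b3 : |gh x - gh xs| ≤ m1 → |gh x - gh xs| + n1 ≤ gh ys - gh y →
          Dx x y T ρ + δ ≤ Dx xs ys T ρ + L |gh x - gh xs| := by
        intro c1 c2
        rcases hδ.eq_or_lt with h0 | h0
        · rw [← h0]
          linarith only [F1, b1, b2]
        · have := hb.d h0 x' hx' hn' (hN.trans c1) (by linarith only [hN, c2])
          linarith only [F1, b2, this]
      refine ⟨fun h => ?_, fun h => ?_⟩
      · have h4 := (gh_lt hp.hx hx0).2 h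
        rw [abs_of_pos (by linarith only [h4] : (0 : ℝ) < gh x - gh xs)] at h1 b2 b3
        exact hd.up x hx h hn (by linarith only [h1]) (by linarith only [F1, b1, b2]) b3
      · have h4 := (gh_lt hx0 hp.hx).2 h
        rw [abs_sub_comm (gh x), abs_of_pos (by linarith only [h4] : (0 : ℝ) < gh xs - gh x)] at h1 b2 b3
        exact hd.dn x hx h hn (by linarith only [h1]) (by linarith only [F1, b1, b2]) b3
    · exfalso
      have h3 : ys < y := by
        rcases h2.lt_or_eq with h | h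
        · exact h
        · exfalso
          rw [h, sub_self, abs_zero] at h1
          exact absurd h1 (not_lt.2 (abs_nonneg _))
      have h4 := (gh_lt hys hy0).2 h3
      rw [abs_of_pos (by linarith only [h4] : 0 < gh y - gh ys)] at h1
      have a1 := hp.up x y hx h3 hy.2 h1
      have a2 := hq x' y hx' h3 hy.2 (hN.trans_lt h1)
      have := F2 (by linarith only [hys4, h3])
      linarith only [a1, a2, this]

/-- **Level theorem, one hinge, with slacks.** -/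
theorem level_one' (hp : LF xs ys T ρ cl cp f g)
    (hd : ∀ y, 1 / 4 ≤ y → y < ys → DS xs ys T ρ cl cp f g (fun _ => 0) 0 0 0 y)
    (hys : ys ∈ Ioo (0 : ℝ) 1) (hx : x ∈ Icc cl cp) (hx0 : x ∈ Ioo (0 : ℝ) 1) (hy : y ∈ Icc (1 / 4 : ℝ) (1 / 2))
    (hn : Nz x y T ρ) (F1 : Dx x y T ρ ≤ Dx xs ys T ρ) (F2 : 1 / 4 < y → Dx x y T ρ = Dx xs ys T ρ)
    (hys4 : 1 / 4 ≤ ys) :
    (xs < x → Sx x y T ρ < Sx xs ys T ρ + f (gh x - gh xs)) ∧
      (x < xs → Sx xs ys T ρ < Sx x y T ρ + g (gh xs - gh x)) := by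
  have hy0 : y ∈ Ioo (0 : ℝ) 1 := ⟨by linarith only [hy, hy.1], by linarith only [hy, hy.2]⟩
  rcases eq_or_ne x xs with he | hne
  · exact ⟨fun h => absurd he h.ne', fun h => absurd he h.ne⟩
  rcases le_or_gt |gh y - gh ys| |gh x - gh xs| with h1 | h1
  · refine ⟨fun h => ?_, fun h => ?_⟩
    · have h2 := (gh_lt hp.hx hx0).2 h
      rw [abs_of_pos (by linarith only [h2] : (0 : ℝ) < gh x - gh xs)] at h1
      exact hp.wup x y hx hy h hn h1
    · have h2 := (gh_lt hx0 hp.hx).2 h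
      rw [abs_of_neg (by linarith only [h2] : gh x - gh xs < 0)] at h1
      exact hp.wdn x y hx hy h hn (by linarith only [h1])
  · rcases lt_or_ge y ys with h2 | h2
    · have h3 := (gh_lt hy0 hys).2 h2
      rw [abs_of_neg (by linarith only [h3] : gh y - gh ys < 0)] at h1
      refine ⟨fun h => ?_, fun h => ?_⟩
      · have h4 := (gh_lt hp.hx hx0).2 h
        rw [abs_of_pos (by linarith only [h4] : (0 : ℝ) < gh x - gh xs)] at h1
        exact (hd y hy.1 h2).up x hx h hn (by linarith only [h1]) (by linarith only [F1]) fun _ _ => by linarith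
      · have h4 := (gh_lt hx0 hp.hx).2 h
        rw [abs_sub_comm (gh x), abs_of_pos (by linarith only [h4] : (0 : ℝ) < gh xs - gh x)] at h1
        exact (hd y hy.1 h2).dn x hx h hn (by linarith only [h1]) (by linarith only [F1]) fun _ _ => by linarith
    · exfalso
      have h3 : ys < y := by
        rcases h2.lt_or_eq with h | h
        · exact h
        · exfalso
          rw [h, sub_self, abs_zero] at h1
          exact absurd h1 (not_lt.2 (abs_nonneg _))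
      have h4 := (gh_lt hys hy0).2 h3
      rw [abs_of_pos (by linarith only [h4] : 0 < gh y - gh ys)] at h1
      have a1 := hp.up x y hx h3 hy.2 h1
      have := F2 (by linarith only [hys4, h3])
      linarith only [a1, this]

/-- **Interior ring, with bounds and slacks.** -/
theorem RP2.of' {lam α β : ℝ} (hp : LF xs ys T ρ cl cp f g)
    (hq : ∀ x y, x ∈ Icc cl' cp' → ys < y →
      y ≤ 1 / 2 → |gh x - gh xs'| < gh y - gh ys → Dx x y T' ρ < Dx xs' ys T' ρ)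
    (hJ : Joint ys ρ xs T cl cp f g xs' T' cl' cp') (hf : ∀ t, 0 < t → 0 ≤ f t) (hg : ∀ t, 0 < t → 0 ≤ g t)
    (rp : RampOK lam α β b xs ys T ρ cl cp) (rq : RampOK lam α β b xs' ys T' ρ cl' cp')
    (hb : 0 < b) (hβ : 0 ≤ β)
    (hys : ys ∈ Ioo (1 / 4 : ℝ) 1) (hD : Dx xs ys T ρ + Dx xs' ys T' ρ = 2 * π * b * ρ)
    (hcl : 0 < cl) (hcp : cp < 1) :
    RP2 b xs ys T ρ cl cp xs' T' cl' cp' f g := by
  constructor
  · intro x x' y hx hx' hy hn hn' hN F1 F2
    rw [← hD] at F1 F2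
    exact level_two' hp hq hJ ⟨by linarith only [hys, hys.1], hys.2⟩ hx
      ⟨by linarith only [hcl, hx, hx.1], by linarith only [hcp, hx, hx.2]⟩ hx' hy hn hn' hN F1 F2 hys.1.le
  · intro x x' y ha ha' hN foc
    obtain ⟨h1, h2⟩ := ramp_two rp rq hb hβ hD ha ha' hN foc
    have hxi : x ∈ Ioo (0 : ℝ) 1 := ⟨hcl.trans_le ha.x0, ha.x1.trans_lt hcp⟩
    refine ⟨fun h => ?_, fun h => ?_⟩
    · have := hf _ (sub_pos.2 ((gh_lt hp.hx hxi).2 h))
      linarith only [this, h1, h, h1 h]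
    · have := hg _ (sub_pos.2 ((gh_lt hxi hp.hx).2 h))
      linarith only [this, h2, h, h2 h]

/-- **Ring at an end, with slacks.** -/
theorem RP1.of' (hp : LF xs ys T ρ cl cp f g)
    (hd : ∀ y, 1 / 4 ≤ y → y < ys → DS xs ys T ρ cl cp f g (fun _ => 0) 0 0 0 y)
    (hf : ∀ t, 0 < t → 0 ≤ f t)
    (hg : ∀ t, 0 < t → 0 ≤ g t)
    (rp : RampOK1 b xs ys T ρ cl cp) (hys : ys ∈ Ioo (1 / 4 : ℝ) 1)
    (hD : Dx xs ys T ρ = 2 * π * b * ρ) (hcl : 0 < cl) (hcp : cp < 1) :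
    RP1 b xs ys T ρ cl cp f g := by
  constructor
  · intro x y hx hy hn F1 F2
    rw [← hD] at F1 F2
    exact level_one' hp hd ⟨by linarith only [hys, hys.1], hys.2⟩ hx
      ⟨by linarith only [hcl, hx, hx.1], by linarith only [hcp, hx, hx.2]⟩ hy hn F1 F2 hys.1.le
  · intro x y ha foc
    obtain ⟨h1, h2⟩ := ramp_one rp ha foc
    have hxi : x ∈ Ioo (0 : ℝ) 1 := ⟨hcl.trans_le ha.x0, ha.x1.trans_lt hcp⟩
    refine ⟨fun h => ?_, fun h => ?_⟩
    · have := hf _ (sub_pos.2 ((gh_lt hp.hx hxi).2 h))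
      linarith only [this, h1, h, h1 h]
    · have := hg _ (sub_pos.2 ((gh_lt hxi hp.hx).2 h))
      linarith only [this, h2, h, h2 h]

/-- the ring variable if the hinges are at the saddle point -/
theorem LI.of' (hup : ∀ x y, x ∈ Icc cl cp → ys < y →
      y ≤ 1 / 2 → |gh x - gh xs| < gh y - gh ys → Dx x y T ρ < Dx xs ys T ρ)
    (hq : ∀ y, 1 / 4 ≤ y → y < ys → ∃ (L : ℝ → ℝ) (δ m1 n1 : ℝ), L 0 = 0 ∧
      QB xs ys T ρ cl cp L δ m1 n1 y) (hx : xs ∈ Icc cl cp)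
    (hys : ys ∈ Ioc (1 / 4 : ℝ) (1 / 2)) : LI xs ys T ρ := by
  constructor
  · intro y h1 h2
    refine hup xs y hx h1 h2 ?_
    rw [sub_self, abs_zero, sub_pos]
    exact (gh_lt ⟨by linarith only [h1, h2, hys, hys.1], by linarith only [h1, h2, hys.2]⟩ ⟨by linarith only [h1, hys, hys.1], by linarith only [h2]⟩).2 h1
  · intro y h1 h2 hn
    obtain ⟨L, δ, m1, n1, hL, hq⟩ := hq y h1 h2
    have h3 := hq.g xs hx hn (by
      rw [sub_self, abs_zero, sub_pos]
      exact (gh_lt ⟨by linarith only [h1], by linarith only [h2, hys, hys.2]⟩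
        ⟨by linarith only [h1, h2, hys.1], by linarith only [h1, h2, hys, hys.2]⟩).2 h2)
    rw [sub_self, abs_zero, hL, add_zero] at h3
    exact h3

end

end RC

end Pool.Agent.Work.MP_b30479_gt.G2
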