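import Pool.Agent.Work.MP_b30479_gt.G2.RT6C

/-!
# Rings on the level part: rows with six variables, the complete test
-/

namespace Pool.Agent.Work.MP_b30479_gt.G2

open Set VOL NumI

namespace R6

open RC
open RQ (bO bO_some cond_ff)

/-- lower / upper bound of the interval of the ring variable between both points -/
def yl (a b : ℕ) : ℕ := cond (Nat.ble a b) a b
def yu (a b : ℕ) : ℕ := cond (Nat.ble a b) b a

lemma yl_le (a b : ℕ) : yl a b ≤ a ∧ yl a b ≤ b := by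
  unfold yl
  rcases h : Nat.ble a b with _ | _
  · rw [cond_false]
    have : ¬ a ≤ b := fun hh => by rw [Nat.ble_eq_true_of_le hh] at h; exact absurd h (by decide)
    omega
  · rw [cond_true]
    have := Nat.le_of_ble_eq_true h
    omega

lemma le_yu (a b : ℕ) : a ≤ yu a b ∧ b ≤ yu a b := by
  unfold yu
  rcases h : Nat.ble a b with _ | _
  · rw [cond_false]
    have : ¬ a ≤ b := fun hh => by rw [Nat.ble_eq_true_of_le hh] at h; exact absurd h (by decide)
    omega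
  · rw [cond_true]
    have := Nat.le_of_ble_eq_true h
    omega

/-- the point `1 / 2` -/
def hf : ℕ := 34359738368

/-- checked version -/
def tqc (n d u1 u2 v1 v2 : ℕ) : Bool :=
  cond (Nat.ble 1 u1) (cond (Nat.ble 1 u2) (cond (Nat.ble v1 68719476735)
    (cond (Nat.ble v2 68719476735) (tq n d u1 u2 v1 v2) false) false) false) false

/-- no factor vanishes between the points -/
def sep (o b0 a1 u v : ℕ) : Bool :=
  cond (Nat.ble (Nat.add b0 1) (Nat.add o a1)) true (Nat.ble (Nat.add u 1) v)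

/-- the test by derivatives, part `i / 4` of the bound -/
def mT (c : Cf) (o i j a0 b0 a1 b1 a2 b2 a3 b3 a4 b4 a5 b5 : ℕ) : Bool :=
  cond (sep o b0 a1 (cond c.up b4 b2) (yl a3 a5)) (mF c.up j c.mu (F.v0 o a0 b0) (F.v1 0 a1 b1)
    (F.v2 0 (cond c.up a2 a4) (cond c.up b4 b2)) (F.v3 0 (yl a3 a5) (yu b3 b5)) fun B E =>
  cond (Nat.beq c.ty 0)
    (cond (Nat.beq i 0) (cond (Nat.beq j 0) (cond (posF (B.add E)) (posF (B.sub E)) false) false)
      false)
  (cond (posF E.neg)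
    (cond (Nat.beq c.ty 1)
      (cond (posF ((B.sub E).sub (F.rat (Nat.mul (Nat.mul (kn j) c.al) i) 4000)))
        (cond (Nat.beq c.al 0) true
          (cond c.up
            (tqc (Nat.add 1000 (Nat.div (Nat.mul 4 c.m0) (Nat.sub 4 i))) 1000 a2 hf b4 hf)
            (tqc (Nat.add 1000 (Nat.div (Nat.mul 4 c.m0) (Nat.sub 4 i))) 1000 a4 hf b2 hf))) false)
      (cond (Nat.beq j 15) (cond (Nat.beq c.dl 0)
        (cond (posF ((B.sub E).add (F.rat (Nat.mul (Nat.mul 10 c.al) i) 4000)))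
          (cond (Nat.beq i 0) true
            (cond c.up
              (tqc (Nat.sub 1000 (Nat.div (Nat.add (Nat.mul 4 c.m0) (Nat.sub 3 i)) (Nat.sub 4 i)))
                1000 a4 hf b2 hf)
              (tqc (Nat.sub 1000 (Nat.div (Nat.add (Nat.mul 4 c.m0) (Nat.sub 3 i)) (Nat.sub 4 i)))
                1000 a2 hf b4 hf))) false) false) false)) false)) false

/-- the tests that the box is outside -/
noncomputable def sT (c : Cf) (o k a0 b0 a1 b1 a2 b2 a3 b3 a4 b4 a5 b5 : ℕ) : Bool :=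
  cond (Nat.beq k 48) (cond (Nat.beq c.ty 2)
    (cond c.up (Nat.ble (Nat.add b4 1) a2) (Nat.ble (Nat.add b2 1) a4))
    (cond c.up (Nat.ble b4 a2) (Nat.ble b2 a4)))
  (cond (Nat.beq k 49) (cond (Nat.beq c.ty 0) (cond c.up (tqc 1 1 a3 a2 b5 b4)
    (tqc 1 1 a3 a4 b5 b2)) false)
  (cond (Nat.beq k 50) (cond (Nat.beq c.ty 0) (cond c.up (tqc 1 1 a5 a2 b3 b4)
    (tqc 1 1 a5 a4 b3 b2)) false)
  (cond (Nat.beq k 51) (cond (Nat.beq c.ty 0) false (cond c.up
    (tqc (Nat.add 1000 (cond (Nat.beq c.ty 2) c.n1 0)) 1000 a4 a5 b2 b3)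
    (tqc (Nat.add 1000 (cond (Nat.beq c.ty 2) c.n1 0)) 1000 a2 a5 b4 b3)))
  (cond (Nat.beq k 52) (cond (Nat.beq c.ty 0) false (Nat.ble b3 a5))
  (cond (Nat.beq k 53) (cond (Nat.beq c.ty 2) (cond (Nat.beq c.m1 0) false (cond c.up
    (tqc (Nat.sub 1000 c.m1) 1000 a4 hf b2 hf) (tqc (Nat.sub 1000 c.m1) 1000 a2 hf b4 hf))) false)
  (cond (Nat.beq k 54) (cond (Nat.beq c.vs 0) false (cond (tqc 1 1 a3 a5 b2 b4)
    (cond (Nat.beq c.ty 1) (cond (Nat.beq c.al 0) true (cond c.up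
      (tqc (Nat.add 1000 c.m0) 1000 a2 hf b4 hf) (tqc (Nat.add 1000 c.m0) 1000 a4 hf b2 hf)))
      true) false))
  (Option.rec (motive := fun _ => Bool) false (fun l => l.bad o a0 b0 a1 b1 a2 b2 a3 b3)
    (lkW c.ws (Nat.sub k 55)))))))))

/-- the box is in the region of the number `dl` -/
def rgT (c : Cf) (a2 b2 a3 a4 b4 b5 : ℕ) : Bool :=
  cond (Nat.beq c.dl 0) false (cond (Nat.beq c.ty 1) (cond c.up
    (cond (tqc (Nat.add 1000 c.m1) 1000 a2 hf b4 hf) (tqc (Nat.sub 1000 c.n1) 1000 a2 a3 b4 b5) false)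
    (cond (tqc (Nat.add 1000 c.m1) 1000 a4 hf b2 hf) (tqc (Nat.sub 1000 c.n1) 1000 a4 a3 b2 b5) false))
    false)

/-- the complete test -/
noncomputable def tT (c : Cf) (o : ℕ) : Tst := fun k a0 b0 a1 b1 a2 b2 a3 b3 a4 b4 a5 b5 =>
  cond (Nat.ble k 31)
    (rT c (cond (rgT c a2 b2 a3 a4 b4 b5) c.dl 0) (Nat.land k 15) (Nat.shiftRight k 4)
      (F.v0 o a0 b0) (F.v1 0 a1 b1) (F.v2 0 a2 b2) (F.v3 0 a3 b3) (F.v2 0 a4 b4) (F.v3 0 a5 b5))
  (cond (Nat.ble k 47) (mT c o 0 (Nat.sub k 32) a0 b0 a1 b1 a2 b2 a3 b3 a4 b4 a5 b5)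
  (cond (Nat.ble k 73) (sT c o k a0 b0 a1 b1 a2 b2 a3 b3 a4 b4 a5 b5)
  (cond (Nat.ble k 121) (mT c o (Nat.add 1 (Nat.shiftRight (Nat.sub k 74) 4))
    (Nat.land (Nat.sub k 74) 15) a0 b0 a1 b1 a2 b2 a3 b3 a4 b4 a5 b5) false)))

theorem ta_half : ta (1 / 2) = 1 := by
  unfold ta
  rw [show Real.pi * (1 / 2) / 2 = Real.pi / 4 by ring, Real.tan_pi_div_four]

theorem tqc_spec {n d u1 u2 v1 v2 : ℕ} (hd : 0 < d) {a1 a2 b1 b2 k : ℝ} (h1 : (u1 : ℝ) ≤ a1 * DR)
    (h2 : (u2 : ℝ) ≤ a2 * DR) (h3 : b1 * DR ≤ v1) (h4 : b2 * DR ≤ v2)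
    (g1 : a1 < 1) (g2 : a2 < 1) (g3 : 0 < b1) (g4 : 0 < b2)
    (hk : 0 < (n : ℝ) / d → Real.log ((n : ℝ) / d) ≤ k)
    (h : tqc n d u1 u2 v1 v2 = true) : gh b1 + gh b2 < k + (gh a1 + gh a2) := by
  obtain ⟨q1, h⟩ := cond_ff h
  obtain ⟨q2, h⟩ := cond_ff h
  obtain ⟨q3, h⟩ := cond_ff h
  obtain ⟨q4, h⟩ := cond_ff h
  have q1' := Nat.le_of_ble_eq_true q1
  have q2' := Nat.le_of_ble_eq_true q2
  have q3' := Nat.le_of_ble_eq_true q3
  have q4' := Nat.le_of_ble_eq_true q4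
  have hD := DR_pos
  have hv : DR = 68719476736 := rfl
  have key := tq_spec hd h1 h2 h3 h4 (by omega) (by omega) g1 g2 g3 g4 (by omega) (by omega) h
  have i1 : 0 < a1 := by
    have : (1 : ℝ) ≤ u1 := by exact_mod_cast q1'
    have : 0 < a1 * DR := by linarith only [h1, this]
    exact pos_of_mul_pos_left this hD.le
  have i2 : 0 < a2 := by
    have : (1 : ℝ) ≤ u2 := by exact_mod_cast q2'
    have : 0 < a2 * DR := by linarith only [h2, g1, i1, this]
    exact pos_of_mul_pos_left this hD.le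
  have i3 : b1 < 1 := by
    have : (v1 : ℝ) ≤ 68719476735 := by exact_mod_cast q3'
    rw [hv] at h3
    linarith only [h3, g1, i1, this]
  have i4 : b2 < 1 := by
    have : (v2 : ℝ) ≤ 68719476735 := by exact_mod_cast q4'
    rw [hv] at h4
    linarith only [h4, g1, i1, this]
  have m1 : 0 < ta a1 := ta_pos ⟨i1, g1⟩
  have m2 : 0 < ta a2 := ta_pos ⟨i2, g2⟩
  have m3 : 0 < ta b1 := ta_pos ⟨g3, i3⟩
  have m4 : 0 < ta b2 := ta_pos ⟨g4, i4⟩
  have hnd : 0 < (n : ℝ) / d := by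
    have : 0 < (n : ℝ) / d * (ta a1 * ta a2) := lt_trans (mul_pos m3 m4) key
    exact pos_of_mul_pos_left this (mul_pos m1 m2).le
  have l := Real.log_lt_log (mul_pos m3 m4) key
  rw [Real.log_mul m3.ne' m4.ne', Real.log_mul hnd.ne' (mul_pos m1 m2).ne',
    Real.log_mul m1.ne' m2.ne'] at l
  have := hk hnd
  have e1 : Real.log (ta a1) = gh a1 := rfl
  have e2 : Real.log (ta a2) = gh a2 := rfl
  have e3 : Real.log (ta b1) = gh b1 := rfl
  have e4 : Real.log (ta b2) = gh b2 := rfl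
  rw [e1, e2, e3, e4] at l
  linarith only [l, this]

theorem gh_half : gh (1 / 2) = 0 := by
  have : gh (1 / 2) = Real.log (ta (1 / 2)) := rfl
  rw [this, ta_half, Real.log_one]

theorem hf_eq : (1 / 2 : ℝ) * DR = (hf : ℝ) := by
  have hv : DR = 68719476736 := rfl
  rw [hv]
  unfold hf
  norm_num

theorem log_one_add (n : ℕ) (_ : 0 < ((Nat.add 1000 n : ℕ) : ℝ) / (1000 : ℕ)) :
    Real.log (((Nat.add 1000 n : ℕ) : ℝ) / (1000 : ℕ)) ≤ (n : ℝ) / 1000 := by
  have e : ((Nat.add 1000 n : ℕ) : ℝ) / (1000 : ℕ) = 1 + (n : ℝ) / 1000 := by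
    change ((1000 + n : ℕ) : ℝ) / (1000 : ℕ) = _
    push_cast
    ring
  rw [e]
  have := Real.log_le_sub_one_of_pos (x := 1 + (n : ℝ) / 1000) (by positivity)
  linarith only [this]

theorem log_one_sub (n : ℕ) (h : 0 < ((Nat.sub 1000 n : ℕ) : ℝ) / (1000 : ℕ)) :
    Real.log (((Nat.sub 1000 n : ℕ) : ℝ) / (1000 : ℕ)) ≤ -((n : ℝ) / 1000) := by
  have hn : n ≤ 1000 := by
    by_contra hh
    have : Nat.sub 1000 n = 0 := by
      change 1000 - n = 0
      omega
    rw [this] at h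
    norm_num at h
  have e : ((Nat.sub 1000 n : ℕ) : ℝ) / (1000 : ℕ) = 1 - (n : ℝ) / 1000 := by
    change ((1000 - n : ℕ) : ℝ) / (1000 : ℕ) = _
    rw [Nat.cast_sub hn]
    push_cast
    ring
  rw [e] at h ⊢
  have := Real.log_le_sub_one_of_pos h
  linarith only [this]

section
variable {c : Cf} {o a0 b0 a1 b1 a2 b2 a3 b3 a4 b4 a5 b5 : ℕ} {T ρ xs ys x y : ℝ}

theorem mm_up (h : 0 < mm true xs x) (h1 : 0 < xs) (h2 : xs < 1 / 2) (h3 : 0 < x)
    (h4 : x < 1 / 2) : xs < x := by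
  have : mm true xs x = gh x - gh xs := rfl
  rw [this] at h
  exact (gh_lt ⟨h1, by linarith only [h1, h2]⟩ ⟨h3, by linarith only [h1, h2, h4]⟩).1 (by linarith only [h])

theorem mm_dn (h : 0 < mm false xs x) (h1 : 0 < xs) (h2 : xs < 1 / 2) (h3 : 0 < x)
    (h4 : x < 1 / 2) : x < xs := by
  have : mm false xs x = gh xs - gh x := rfl
  rw [this] at h
  exact (gh_lt ⟨h3, by linarith only [h1, h2, h4]⟩ ⟨h1, by linarith only [h1, h2]⟩).1 (by linarith only [h])

/-- the part of the bound -/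
noncomputable def nu (c : Cf) (i j : ℕ) : ℝ :=
  if c.ty = 1 then ((Nat.mul (Nat.mul (kn j) c.al) i : ℕ) : ℝ) / (4000 : ℕ)
  else if c.ty = 2 then -(((Nat.mul (Nat.mul 10 c.al) i : ℕ) : ℝ) / (4000 : ℕ)) else 0

theorem mm_up' (h : 0 ≤ mm true xs x) (h1 : 0 < xs) (h2 : xs < 1 / 2) (h3 : 0 < x)
    (h4 : x < 1 / 2) : xs ≤ x := by
  have : mm true xs x = gh x - gh xs := rfl
  rw [this] at h
  exact (strictMonoOn_gh.le_iff_le ⟨h1, by linarith only [h1, h2]⟩ ⟨h3, by linarith only [h1, h2, h4]⟩).1 (by linarith only [h])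

theorem mm_dn' (h : 0 ≤ mm false xs x) (h1 : 0 < xs) (h2 : xs < 1 / 2) (h3 : 0 < x)
    (h4 : x < 1 / 2) : x ≤ xs := by
  have : mm false xs x = gh xs - gh x := rfl
  rw [this] at h
  exact (strictMonoOn_gh.le_iff_le ⟨h3, by linarith only [h1, h2, h4]⟩ ⟨h1, by linarith only [h1, h2]⟩).1 (by linarith only [h])

theorem ndiv4 (m0 i : ℕ) (hi : i ≤ 3) {m : ℝ}
    (h : m ≤ ((Nat.div (Nat.mul 4 m0) (Nat.sub 4 i) : ℕ) : ℝ) / 1000) :
    (1 - (i : ℝ) / 4) * m ≤ (m0 : ℝ) / 1000 := by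
  have h1 : (4 * m0 / (4 - i)) * (4 - i) ≤ 4 * m0 := Nat.div_mul_le_self _ _
  have h2 : (((4 * m0 / (4 - i)) * (4 - i) : ℕ) : ℝ) ≤ ((4 * m0 : ℕ) : ℝ) := by exact_mod_cast h1
  push_cast at h2
  rw [Nat.cast_sub (by omega)] at h2
  change m ≤ ((4 * m0 / (4 - i) : ℕ) : ℝ) / 1000 at h
  have hi' : (i : ℝ) ≤ 3 := by exact_mod_cast hi
  have h3 : (4 - (i : ℝ)) * m ≤ (4 - (i : ℝ)) * (((4 * m0 / (4 - i) : ℕ) : ℝ) / 1000) :=
    mul_le_mul_of_nonneg_left h (by linarith only [hi'])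
  push_cast at h2 h3
  nlinarith only [h2, h3]

theorem ndiv4' (m0 i : ℕ) (hi : i ≤ 3) {m : ℝ}
    (h : ((Nat.div (Nat.add (Nat.mul 4 m0) (Nat.sub 3 i)) (Nat.sub 4 i) : ℕ) : ℝ) / 1000 ≤ m) :
    (m0 : ℝ) / 1000 ≤ (1 - (i : ℝ) / 4) * m := by
  have h1 : 4 * m0 ≤ ((4 * m0 + (3 - i)) / (4 - i)) * (4 - i) := by
    have hp : 0 < 4 - i := by omega
    have := Nat.div_add_mod (4 * m0 + (3 - i)) (4 - i)
    have h2 := Nat.mod_lt (4 * m0 + (3 - i)) hp
    rw [Nat.mul_comm] at this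
    omega
  have h2 : ((4 * m0 : ℕ) : ℝ) ≤ ((((4 * m0 + (3 - i)) / (4 - i)) * (4 - i) : ℕ) : ℝ) := by
    exact_mod_cast h1
  rw [Nat.cast_mul, Nat.cast_mul, Nat.cast_sub (by omega)] at h2
  change (((4 * m0 + (3 - i)) / (4 - i) : ℕ) : ℝ) / 1000 ≤ m at h
  have hi' : (i : ℝ) ≤ 3 := by exact_mod_cast hi
  have h3 : (4 - (i : ℝ)) * ((((4 * m0 + (3 - i)) / (4 - i) : ℕ) : ℝ) / 1000) ≤ (4 - (i : ℝ)) * m :=
    mul_le_mul_of_nonneg_left h (by linarith only [hi'])
  generalize (((4 * m0 + (3 - i)) / (4 - i) : ℕ) : ℝ) = w at h2 h3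
  push_cast at h2
  nlinarith only [h2, h3]

theorem mT_spec (hty : c.ty ≤ 2) (h0 : Rg o a0 b0 T) (h1 : Rg 0 a1 b1 ρ) (h2 : Rg 0 a2 b2 xs)
    (h3 : Rg 0 a3 b3 ys) (h4 : Rg 0 a4 b4 x) (h5 : Rg 0 a5 b5 y) {i j : ℕ} (hi : i ≤ 3)
    (h : mT c o i j a0 b0 a1 b1 a2 b2 a3 b3 a4 b4 a5 b5 = true) : RowP c T ρ xs ys x y := by
  intro p1 p2 p3 p4 p5 p6 p7 p8 _ pm pm' _ pW pD pQ _
  have hD := DR_pos
  obtain ⟨hsep, h⟩ := cond_ff h
  unfold Rg at h2 h3 h4 h5
  simp only [Nat.cast_zero, add_zero] at h2 h3 h4 h5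
  -- the box of the values between
  have hX : ∀ X, min xs x ≤ X → X ≤ max xs x →
      Rg 0 (cond c.up a2 a4) (cond c.up b4 b2) X := by
    intro X k1 k2
    unfold Rg
    simp only [Nat.cast_zero, add_zero]
    rcases hu : c.up with _ | _
    · rw [hu] at pm
      have hlt := mm_dn' pm p1 p2 p5 p6
      rw [min_eq_right hlt] at k1
      rw [max_eq_left hlt] at k2
      simp only [cond_false]
      have e1 := mul_le_mul_of_nonneg_right k1 hD.le
      have e2 := mul_le_mul_of_nonneg_right k2 hD.le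
      exact ⟨h4.1.trans e1, e2.trans h2.2⟩
    · rw [hu] at pm
      have hlt := mm_up' pm p1 p2 p5 p6
      rw [min_eq_left hlt] at k1
      rw [max_eq_right hlt] at k2
      simp only [cond_true]
      have e1 := mul_le_mul_of_nonneg_right k1 hD.le
      have e2 := mul_le_mul_of_nonneg_right k2 hD.le
      exact ⟨h2.1.trans e1, e2.trans h4.2⟩
  have hY : ∀ Y, min ys y ≤ Y → Y ≤ max ys y → Rg 0 (yl a3 a5) (yu b3 b5) Y := by
    intro Y k1 k2
    unfold Rg
    simp only [Nat.cast_zero, add_zero]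
    obtain ⟨l1, l2⟩ := yl_le a3 a5
    obtain ⟨l3, l4⟩ := le_yu b3 b5
    have m1 : ((yl a3 a5 : ℕ) : ℝ) ≤ a3 := by exact_mod_cast l1
    have m2 : ((yl a3 a5 : ℕ) : ℝ) ≤ a5 := by exact_mod_cast l2
    have m3 : (b3 : ℝ) ≤ (yu b3 b5 : ℕ) := by exact_mod_cast l3
    have m4 : (b5 : ℝ) ≤ (yu b3 b5 : ℕ) := by exact_mod_cast l4
    have e1 := mul_le_mul_of_nonneg_right k1 hD.le
    have e2 := mul_le_mul_of_nonneg_right k2 hD.le
    constructor
    · rcases min_choice ys y with e | e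
      · rw [e] at e1
        linarith only [h3, m1, e1, h3.1]
      · rw [e] at e1
        linarith only [h5, m2, e1, h5.1]
    · rcases max_choice ys y with e | e
      · rw [e] at e2
        linarith only [h3, m3, e2, h3.2]
      · rw [e] at e2
        linarith only [h5, m4, e2, h5.2]
  have pT : T < ρ ∨ max xs x < min ys y := by
    rcases e : Nat.ble (Nat.add b0 1) (Nat.add o a1) with _ | _
    · right
      unfold sep at hsep
      rw [e, cond_false] at hsep
      have k := Nat.le_of_ble_eq_true hsep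
      have k' : ((cond c.up b4 b2 : ℕ) : ℝ) + 1 ≤ (yl a3 a5 : ℕ) := by exact_mod_cast k
      have r1 := (hX _ (le_max_left xs x |> (min_le_left xs x).trans) le_rfl).2
      have r2 := (hY _ le_rfl (min_le_left ys y |>.trans (le_max_left ys y))).1
      simp only [Nat.cast_zero, add_zero] at r1 r2
      by_contra hc
      have := mul_le_mul_of_nonneg_right (not_lt.1 hc) hD.le
      linarith only [p1, p2, k', r1, r2, this]
    · left
      have k := Nat.le_of_ble_eq_true e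
      have k' : (b0 : ℝ) + 1 ≤ (o : ℝ) + a1 := by exact_mod_cast k
      have r1 := h0.2
      have r2 := h1.1
      simp only [Nat.cast_zero, add_zero] at r2
      by_contra hc
      have := mul_le_mul_of_nonneg_right (not_lt.1 hc) hD.le
      linarith only [p1, p2, k', r1, r2, this]
  have hn1 : (0 : ℝ) ≤ (c.n1 : ℝ) / 1000 := by positivity
  have key : ∀ X Y, min xs x ≤ X → X ≤ max xs x → min ys y ≤ Y → Y ≤ max ys y →
      0 < mm c.up xs x * (BB c.up j c.mu X Y T ρ - nu c i j) +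
        (gh y - gh ys) * EE c.up j X Y T ρ := by
    intro X Y k1 k2 k3 k4
    have r2 := hX X k1 k2
    have r3 := hY Y k3 k4
    have hε := eps4_le h0.nzv.1 h1.nzv.1 r2.nzv.1 r3.nzv.1
    obtain ⟨B, E, kB, kE, h⟩ := mF_some hε (enc_v0 h0) (enc_v1 h1) (enc_v2 r2) (enc_v3 r3) h
    rcases t0 : Nat.beq c.ty 0 with _ | _
    · rw [t0, cond_false] at h
      have t0' := beq_ne t0
      obtain ⟨g2, h⟩ := cond_ff h
      have q2 := posF_spec hε (RZ1.negE kE) g2
      rcases t1 : Nat.beq c.ty 1 with _ | _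
      · rw [t1, cond_false] at h
        have t1' := beq_ne t1
        have ht : c.ty = 2 := by omega
        obtain ⟨-, h⟩ := cond_ff h
        obtain ⟨-, h⟩ := cond_ff h
        obtain ⟨g1, -⟩ := cond_ff h
        have q1 := posF_spec hε (F.Encl.add (F.Encl.sub kB kE)
          (F.Encl.rat (Nat.mul (Nat.mul 10 c.al) i) 4000 _)) g1
        have q3 := pQ ht
        have e : nu c i j = -(((Nat.mul (Nat.mul 10 c.al) i : ℕ) : ℝ) / (4000 : ℕ)) := by
          unfold nu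
          rw [if_neg t1', if_pos ht]
        rw [e]
        exact comb_D pm (by linarith only [hn1, q3]) (by linarith only [q1]) q2
      · rw [t1, cond_true] at h
        have ht := Nat.eq_of_beq_eq_true t1
        obtain ⟨g1, -⟩ := cond_ff h
        have q1 := posF_spec hε (F.Encl.sub (F.Encl.sub kB kE)
          (F.Encl.rat (Nat.mul (Nat.mul (kn j) c.al) i) 4000 _)) g1
        have q3 := pD ht
        have e : nu c i j = ((Nat.mul (Nat.mul (kn j) c.al) i : ℕ) : ℝ) / (4000 : ℕ) := by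
          unfold nu
          rw [if_pos ht]
        rw [e]
        exact comb_D pm (by linarith only [q3]) (by linarith only [q1]) q2
    · rw [t0, cond_true] at h
      have ht := Nat.eq_of_beq_eq_true t0
      obtain ⟨-, h⟩ := cond_ff h
      obtain ⟨-, h⟩ := cond_ff h
      obtain ⟨g1, g2⟩ := cond_ff h
      have q1 := posF_spec hε (F.Encl.add kB kE) g1
      have q2 := posF_spec hε (F.Encl.sub kB kE) g2
      have q3 := pW ht
      rw [abs_sub_comm] at q3
      have e : nu c i j = 0 := by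
        unfold nu
        rw [if_neg (by omega), if_neg (by omega)]
      rw [e, sub_zero]
      exact comb_W (pm' (by omega)) q3 q1 q2
  have hd := phv_lt (nu c i j) p1 p2 p3 p4 p5 p6 p7 p8 pT key
  rw [phv_diff] at hd
  -- the discrete part of the test
  have r2 := hX xs (min_le_left _ _) (le_max_left _ _)
  have r3 := hY ys (min_le_left _ _) (le_max_left _ _)
  have hε := eps4_le h0.nzv.1 h1.nzv.1 r2.nzv.1 r3.nzv.1
  obtain ⟨B, E, -, -, h⟩ := mF_some hε (enc_v0 h0) (enc_v1 h1) (enc_v2 r2) (enc_v3 r3) h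
  have hh : gh (1 / 2) = 0 := gh_half
  rcases t0 : Nat.beq c.ty 0 with _ | _
  swap
  · rw [t0, cond_true] at h
    obtain ⟨-, h⟩ := cond_ff h
    obtain ⟨hj, -⟩ := cond_ff h
    have ht := Nat.eq_of_beq_eq_true t0
    have hj0 := Nat.eq_of_beq_eq_true hj
    have e : nu c i j = 0 := by
      unfold nu
      rw [if_neg (by omega), if_neg (by omega)]
    rw [e, zero_mul, if_neg (by omega), kn_eq, if_neg (by omega)] at hd
    have hk0 : kap j = 0 := by rw [hj0]; rfl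
    rw [hk0, Nat.cast_zero, zero_div, zero_mul, add_zero] at hd
    exact ⟨fun _ => hd, fun h => by omega, fun h => by omega⟩
  rw [t0, cond_false] at h
  have t0' := beq_ne t0
  obtain ⟨-, h⟩ := cond_ff h
  rcases t1 : Nat.beq c.ty 1 with _ | _
  · rw [t1, cond_false] at h
    have t1' := beq_ne t1
    have ht : c.ty = 2 := by omega
    obtain ⟨hj, h⟩ := cond_ff h
    obtain ⟨hdl, h⟩ := cond_ff h
    obtain ⟨-, h⟩ := cond_ff h
    have hj0 := Nat.eq_of_beq_eq_true hj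
    have hdl0 := Nat.eq_of_beq_eq_true hdl
    have e : nu c i j = -((c.al : ℝ) / 100 * ((i : ℝ) / 4)) := by
      unfold nu
      rw [if_neg t1', if_pos ht]
      change -(((10 * c.al * i : ℕ) : ℝ) / (4000 : ℕ)) = _
      push_cast
      ring
    rw [e, if_pos hj0] at hd
    refine con2 ht ?_
    rw [hdl0, Nat.cast_zero, zero_div, sub_zero]
    rcases ei : Nat.beq i 0 with _ | _
    swap
    · left
      have hi0 := Nat.eq_of_beq_eq_true ei
      rw [hi0, Nat.cast_zero, zero_div, mul_zero, neg_zero, zero_mul] at hd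
      exact hd
    rw [ei, cond_false] at h
    right
    have k : (c.m0 : ℝ) / 1000 ≤ (1 - (i : ℝ) / 4) * mm c.up xs x := by
      rcases hu : c.up with _ | _
      · rw [hu, cond_false] at h
        have q := tqc_spec (by norm_num) h2.1 hf_eq.ge h4.2 hf_eq.le (by linarith only [p1, p2]) (by norm_num) p5
          (by norm_num) (log_one_sub _) h
        have e : mm false xs x = gh xs - gh x := rfl
        refine ndiv4' c.m0 i hi ?_
        rw [e]
        linarith only [q]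
      · rw [hu, cond_true] at h
        have q := tqc_spec (by norm_num) h4.1 hf_eq.ge h2.2 hf_eq.le (by linarith only [p1, p2, p6]) (by norm_num) p1
          (by norm_num) (log_one_sub _) h
        have e : mm true xs x = gh x - gh xs := rfl
        refine ndiv4' c.m0 i hi ?_
        rw [e]
        linarith only [q]
    have k2 := mul_le_mul_of_nonneg_left k (by positivity : (0 : ℝ) ≤ (c.al : ℝ) / 100)
    linarith only [hd, k2]
  · rw [t1, cond_true] at h
    have ht := Nat.eq_of_beq_eq_true t1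
    obtain ⟨-, h⟩ := cond_ff h
    have e : nu c i j = (kn j : ℝ) / 10 * ((c.al : ℝ) / 100 * ((i : ℝ) / 4)) := by
      unfold nu
      rw [if_pos ht]
      change ((kn j * c.al * i : ℕ) : ℝ) / (4000 : ℕ) = _
      push_cast
      ring
    have e0 : 0 ≤ nu c i j * mm c.up xs x := by
      rw [e]
      exact mul_nonneg (by positivity) pm
    refine con1 (j := j) (dd := 0) ht (Or.inl rfl) ?_ ?_
    · rw [Nat.cast_zero, zero_div, mul_zero, add_zero]
      linarith only [hd, e0]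
    rw [Nat.cast_zero, zero_div, mul_zero, add_zero]
    rcases ea : Nat.beq c.al 0 with _ | _
    swap
    · left
      have := Nat.eq_of_beq_eq_true ea
      rw [this, Nat.cast_zero, zero_div, zero_mul]
    rw [ea, cond_false] at h
    right
    have k : (1 - (i : ℝ) / 4) * mm c.up xs x ≤ (c.m0 : ℝ) / 1000 := by
      rcases hu : c.up with _ | _
      · rw [hu, cond_false] at h
        have q := tqc_spec (by norm_num) h4.1 hf_eq.ge h2.2 hf_eq.le (by linarith only [p1, p2, p6]) (by norm_num) p1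
          (by norm_num) (log_one_add _) h
        have e : mm false xs x = gh xs - gh x := rfl
        refine ndiv4 c.m0 i hi ?_
        rw [e]
        linarith only [q]
      · rw [hu, cond_true] at h
        have q := tqc_spec (by norm_num) h2.1 hf_eq.ge h4.2 hf_eq.le (by linarith only [p1, p2]) (by norm_num) p5
          (by norm_num) (log_one_add _) h
        have e : mm true xs x = gh x - gh xs := rfl
        refine ndiv4 c.m0 i hi ?_
        rw [e]
        linarith only [q]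
    have k2 := mul_le_mul_of_nonneg_left k
      (by positivity : (0 : ℝ) ≤ (kn j : ℝ) / 10 * ((c.al : ℝ) / 100))
    rw [e] at hd
    linarith only [hd, k2]

theorem sT_spec (h0 : Rg o a0 b0 T) (h1 : Rg 0 a1 b1 ρ) (h2 : Rg 0 a2 b2 xs)
    (h3 : Rg 0 a3 b3 ys) (h4 : Rg 0 a4 b4 x) (h5 : Rg 0 a5 b5 y) {k : ℕ} (hty : c.ty ≤ 2)
    (h : sT c o k a0 b0 a1 b1 a2 b2 a3 b3 a4 b4 a5 b5 = true) : RowP c T ρ xs ys x y := by
  intro p1 p2 p3 p4 p5 p6 p7 p8 pw pm pm' pm1 pW pD pQ pV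
  exfalso
  have hD := DR_pos
  have r0 := h0
  have r1 := h1
  have r2 := h2
  have r3 := h3
  unfold Rg at h2 h3 h4 h5
  simp only [Nat.cast_zero, add_zero] at h2 h3 h4 h5
  have hone : ∀ _ : 0 < ((1 : ℕ) : ℝ) / (1 : ℕ), Real.log (((1 : ℕ) : ℝ) / (1 : ℕ)) ≤ 0 := by
    intro _
    simp
  have hh : gh (1 / 2) = 0 := gh_half
  have hn1 : (0 : ℝ) ≤ (c.n1 : ℝ) / 1000 := by positivity
  unfold sT at h
  rcases k0 : Nat.beq k 48 with _ | _
  swap
  · rw [k0, cond_true] at h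
    rcases t2 : Nat.beq c.ty 2 with _ | _
    · rw [t2, cond_false] at h
      have pm := pm' (beq_ne t2)
      rcases hu : c.up with _ | _
      · rw [hu, cond_false] at h
        rw [hu] at pm
        have hlt := mm_dn pm p1 p2 p5 p6
        have g := Nat.le_of_ble_eq_true h
        have g' : (b2 : ℝ) ≤ a4 := by exact_mod_cast g
        have : xs * DR ≤ x * DR := by linarith only [h2, h4, g', h2.2, h4.1]
        have := le_of_mul_le_mul_right this hD
        linarith only [hlt, this]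
      · rw [hu, cond_true] at h
        rw [hu] at pm
        have hlt := mm_up pm p1 p2 p5 p6
        have g := Nat.le_of_ble_eq_true h
        have g' : (b4 : ℝ) ≤ a2 := by exact_mod_cast g
        have : x * DR ≤ xs * DR := by linarith only [h2, h4, g', h2.1, h4.2]
        have := le_of_mul_le_mul_right this hD
        linarith only [hlt, this]
    · rw [t2, cond_true] at h
      rcases hu : c.up with _ | _
      · rw [hu, cond_false] at h
        rw [hu] at pm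
        have hlt := mm_dn' pm p1 p2 p5 p6
        have g := Nat.le_of_ble_eq_true h
        have g' : ((b2 + 1 : ℕ) : ℝ) ≤ a4 := by exact_mod_cast g
        push_cast at g'
        have := mul_le_mul_of_nonneg_right hlt hD.le
        linarith only [p1, p2, h2, h4, g', this, h2.2, h4.1]
      · rw [hu, cond_true] at h
        rw [hu] at pm
        have hlt := mm_up' pm p1 p2 p5 p6
        have g := Nat.le_of_ble_eq_true h
        have g' : ((b4 + 1 : ℕ) : ℝ) ≤ a2 := by exact_mod_cast g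
        push_cast at g'
        have := mul_le_mul_of_nonneg_right hlt hD.le
        linarith only [p1, p2, h2, h4, g', this, h2.1, h4.2]
  rw [k0, cond_false] at h
  rcases k1 : Nat.beq k 49 with _ | _
  swap
  · rw [k1, cond_true] at h
    obtain ⟨ht, h⟩ := cond_ff h
    have q3 := (abs_le.mp (pW (Nat.eq_of_beq_eq_true ht))).2
    rcases hu : c.up with _ | _
    · rw [hu, cond_false] at h
      rw [hu] at q3
      have q := tqc_spec (by norm_num) h3.1 h4.1 h5.2 h2.2 (by linarith only [p1, p2, p4]) (by linarith only [p1, p2, p6]) p7 p1 hone h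
      have e : mm false xs x = gh xs - gh x := rfl
      rw [e] at q3
      linarith only [q3, q]
    · rw [hu, cond_true] at h
      rw [hu] at q3
      have q := tqc_spec (by norm_num) h3.1 h2.1 h5.2 h4.2 (by linarith only [p1, p2, p4]) (by linarith only [p1, p2]) p7 p5 hone h
      have e : mm true xs x = gh x - gh xs := rfl
      rw [e] at q3
      linarith only [q3, q]
  rw [k1, cond_false] at h
  rcases k2 : Nat.beq k 50 with _ | _
  swap
  · rw [k2, cond_true] at h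
    obtain ⟨ht, h⟩ := cond_ff h
    have q3 := (abs_le.mp (pW (Nat.eq_of_beq_eq_true ht))).1
    rcases hu : c.up with _ | _
    · rw [hu, cond_false] at h
      rw [hu] at q3
      have q := tqc_spec (by norm_num) h5.1 h4.1 h3.2 h2.2 (by linarith only [p1, p2, p8]) (by linarith only [p1, p2, p6]) p3 p1 hone h
      have e : mm false xs x = gh xs - gh x := rfl
      rw [e] at q3
      linarith only [q3, q]
    · rw [hu, cond_true] at h
      rw [hu] at q3
      have q := tqc_spec (by norm_num) h5.1 h2.1 h3.2 h4.2 (by linarith only [p1, p2, p8]) (by linarith only [p1, p2]) p3 p5 hone h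
      have e : mm true xs x = gh x - gh xs := rfl
      rw [e] at q3
      linarith only [q3, q]
  rw [k2, cond_false] at h
  rcases k3 : Nat.beq k 51 with _ | _
  swap
  · rw [k3, cond_true] at h
    rcases ht : Nat.beq c.ty 0 with _ | _
    swap
    · rw [ht, cond_true] at h
      exact absurd h (by decide)
    rw [ht, cond_false] at h
    have t0' := beq_ne ht
    have q3 : mm c.up xs x + ((cond (Nat.beq c.ty 2) c.n1 0 : ℕ) : ℝ) / 1000 < gh ys - gh y := by
      rcases t2 : Nat.beq c.ty 2 with _ | _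
      · have t2' := beq_ne t2
        rw [cond_false, Nat.cast_zero, zero_div, add_zero]
        exact pD (by omega)
      · rw [cond_true]
        exact pQ (Nat.eq_of_beq_eq_true t2)
    rcases hu : c.up with _ | _
    · rw [hu, cond_false] at h
      rw [hu] at q3
      have q := tqc_spec (by norm_num) h2.1 h5.1 h4.2 h3.2 (by linarith only [p1, p2]) (by linarith only [p1, p2, p8]) p5 p3
        (log_one_add _) h
      have e : mm false xs x = gh xs - gh x := rfl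
      rw [e] at q3
      linarith only [q3, q]
    · rw [hu, cond_true] at h
      rw [hu] at q3
      have q := tqc_spec (by norm_num) h4.1 h5.1 h2.2 h3.2 (by linarith only [p1, p2, p6]) (by linarith only [p1, p2, p8]) p1 p3
        (log_one_add _) h
      have e : mm true xs x = gh x - gh xs := rfl
      rw [e] at q3
      linarith only [q3, q]
  rw [k3, cond_false] at h
  rcases k4 : Nat.beq k 52 with _ | _
  swap
  · rw [k4, cond_true] at h
    rcases ht : Nat.beq c.ty 0 with _ | _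
    swap
    · rw [ht, cond_true] at h
      exact absurd h (by decide)
    rw [ht, cond_false] at h
    have t0' := beq_ne ht
    have q3 : mm c.up xs x < gh ys - gh y := by
      by_cases t2 : c.ty = 2
      · linarith only [hn1, pQ, t2, pQ t2]
      · exact pD (by omega)
    have g := Nat.le_of_ble_eq_true h
    have g' : (b3 : ℝ) ≤ a5 := by exact_mod_cast g
    have q4 : ys * DR ≤ y * DR := by linarith only [h3, h5, g', h3.2, h5.1]
    have q5 := le_of_mul_le_mul_right q4 hD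
    have q6 := strictMonoOn_gh.monotoneOn (a := ys) (b := y) ⟨p3, by linarith only [p1, p2, p4]⟩ ⟨p7, by linarith only [p1, p2, p8]⟩ q5
    linarith only [pm, q3, q6]
  rw [k4, cond_false] at h
  rcases k5 : Nat.beq k 53 with _ | _
  swap
  · rw [k5, cond_true] at h
    obtain ⟨t2, h⟩ := cond_ff h
    rcases ht : Nat.beq c.m1 0 with _ | _
    swap
    · rw [ht, cond_true] at h
      exact absurd h (by decide)
    rw [ht, cond_false] at h
    have q3 := pm1 (Nat.eq_of_beq_eq_true t2) (beq_ne ht)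
    rcases hu : c.up with _ | _
    · rw [hu, cond_false] at h
      rw [hu] at q3
      have q := tqc_spec (by norm_num) h2.1 hf_eq.ge h4.2 hf_eq.le (by linarith only [p1, p2]) (by norm_num) p5
        (by norm_num) (log_one_sub c.m1) h
      have e : mm false xs x = gh xs - gh x := rfl
      rw [e] at q3
      linarith only [q3, q]
    · rw [hu, cond_true] at h
      rw [hu] at q3
      have q := tqc_spec (by norm_num) h4.1 hf_eq.ge h2.2 hf_eq.le (by linarith only [p1, p2, p6]) (by norm_num) p1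
        (by norm_num) (log_one_sub c.m1) h
      have e : mm true xs x = gh x - gh xs := rfl
      rw [e] at q3
      linarith only [q3, q]
  rw [k5, cond_false] at h
  rcases k6 : Nat.beq k 54 with _ | _
  swap
  · rw [k6, cond_true] at h
    rcases hv : Nat.beq c.vs 0 with _ | _
    swap
    · rw [hv, cond_true] at h
      exact absurd h (by decide)
    rw [hv, cond_false] at h
    obtain ⟨g1, h⟩ := cond_ff h
    have q1 := tqc_spec (by norm_num) h3.1 h5.1 h2.2 h4.2 (by linarith only [p1, p2, p4]) (by linarith only [p1, p2, p8]) p1 p5 hone g1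
    rcases pV (beq_ne hv) with q2 | ⟨q2, q3, q4⟩
    · linarith only [q1, q2]
    have t1 : Nat.beq c.ty 1 = true := by rw [q2]; rfl
    rw [t1, cond_true] at h
    have ea : Nat.beq c.al 0 = false := by
      rcases hb : Nat.beq c.al 0 with _ | _
      · rfl
      · exact absurd (Nat.eq_of_beq_eq_true hb) q3
    rw [ea, cond_false] at h
    rcases hu : c.up with _ | _
    · rw [hu, cond_false] at h
      rw [hu] at q4
      have q := tqc_spec (by norm_num) h4.1 hf_eq.ge h2.2 hf_eq.le (by linarith only [p1, p2, p6]) (by norm_num) p1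
        (by norm_num) (log_one_add c.m0) h
      have e : mm false xs x = gh xs - gh x := rfl
      rw [e] at q4
      linarith only [q4, q]
    · rw [hu, cond_true] at h
      rw [hu] at q4
      have q := tqc_spec (by norm_num) h2.1 hf_eq.ge h4.2 hf_eq.le (by linarith only [p1, p2]) (by norm_num) p5
        (by norm_num) (log_one_add c.m0) h
      have e : mm true xs x = gh x - gh xs := rfl
      rw [e] at q4
      linarith only [q4, q]
  rw [k6, cond_false] at h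
  rcases hl : lkW c.ws (Nat.sub k 55) with _ | l
  · rw [hl] at h
    exact Bool.false_ne_true h
  · rw [hl] at h
    exact LC.bad_spec r0 r1 r2 r3 h (pw l (lkW_mem hl))

theorem rgT_spec (h2 : Rg 0 a2 b2 xs)
    (h3 : Rg 0 a3 b3 ys) (h4 : Rg 0 a4 b4 x) (h5 : Rg 0 a5 b5 y) (p1 : 0 < xs) (p2 : xs < 1 / 2)
    (p4 : ys ≤ 1 / 2) (p5 : 0 < x) (p6 : x < 1 / 2) (p7 : 0 < y)
    (h : rgT c a2 b2 a3 a4 b4 b5 = true) : mm c.up xs x ≤ (c.m1 : ℝ) / 1000 ∧
      mm c.up xs x + (c.n1 : ℝ) / 1000 ≤ gh ys - gh y := by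
  unfold Rg at h2 h3 h4 h5
  simp only [Nat.cast_zero, add_zero] at h2 h3 h4 h5
  have hh : gh (1 / 2) = 0 := gh_half
  unfold rgT at h
  rcases hb : Nat.beq c.dl 0 with _ | _
  swap
  · rw [hb, cond_true] at h
    exact absurd h (by decide)
  rw [hb, cond_false] at h
  obtain ⟨-, h⟩ := cond_ff h
  rcases hu : c.up with _ | _
  · rw [hu, cond_false] at h
    obtain ⟨g1, g2⟩ := cond_ff h
    have q := tqc_spec (by norm_num) h4.1 hf_eq.ge h2.2 hf_eq.le (by linarith only [p1, p2, p6]) (by norm_num) p1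
      (by norm_num) (log_one_add c.m1) g1
    have q2 := tqc_spec (by norm_num) h4.1 h3.1 h2.2 h5.2 (by linarith only [p1, p2, p6]) (by linarith only [p1, p2, p4]) p1 p7
      (log_one_sub c.n1) g2
    have e : mm false xs x = gh xs - gh x := rfl
    rw [e]
    constructor <;> linarith only [q, q2]
  · rw [hu, cond_true] at h
    obtain ⟨g1, g2⟩ := cond_ff h
    have q := tqc_spec (by norm_num) h2.1 hf_eq.ge h4.2 hf_eq.le (by linarith only [p1, p2]) (by norm_num) p5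
      (by norm_num) (log_one_add c.m1) g1
    have q2 := tqc_spec (by norm_num) h2.1 h3.1 h4.2 h5.2 (by linarith only [p1, p2]) (by linarith only [p1, p2, p4]) p5 p7
      (log_one_sub c.n1) g2
    have e : mm true xs x = gh x - gh xs := rfl
    rw [e]
    constructor <;> linarith only [q, q2]

theorem tT_ok (hty : c.ty ≤ 2) : TstOk o (tT c o) (RowP c) := by
  intro k a0 b0 a1 b1 a2 b2 a3 b3 a4 b4 a5 b5 T ρ xs ys x y h0 h1 h2 h3 h4 h5 h
  unfold tT at h
  rcases e : Nat.ble k 31 with _ | _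
  · rw [e, cond_false] at h
    rcases e' : Nat.ble k 47 with _ | _
    · rw [e', cond_false] at h
      rcases e2 : Nat.ble k 73 with _ | _
      · rw [e2, cond_false] at h
        obtain ⟨g, h⟩ := cond_ff h
        refine mT_spec hty h0 h1 h2 h3 h4 h5 ?_ h
        have g' := Nat.le_of_ble_eq_true g
        have : Nat.shiftRight (Nat.sub k 74) 4 = (k - 74) >>> 4 := rfl
        rw [this, Nat.shiftRight_eq_div_pow]
        change 1 + (k - 74) / 2 ^ 4 ≤ 3
        omega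
      · rw [e2, cond_true] at h
        exact sT_spec h0 h1 h2 h3 h4 h5 hty h
    · rw [e', cond_true] at h
      exact mT_spec hty h0 h1 h2 h3 h4 h5 (by omega) h
  · rw [e, cond_true] at h
    intro p1 p2 p3 p4 p5 p6 p7 p8 _ _ _ _ _ _ _ _
    refine rT_spec h0.nzv.1 h1.nzv.1 h2.nzv.1 h3.nzv.1 h4.nzv.1 h5.nzv.1 (enc_v0 h0) (enc_v1 h1)
      (enc_v2 h4) (enc_v3 h5) (enc_v0 h0) (enc_v1 h1) (enc_v2 h2) (enc_v3 h3) p1 (by linarith only [p1, p2]) p5
      (by linarith only [p1, p2, p6]) h hty _ ?_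
    intro _
    rcases hr : rgT c a2 b2 a3 a4 b4 b5 with _ | _
    · left
      rfl
    · right
      exact ⟨rfl, rgT_spec h2 h3 h4 h5 p1 p2 p4 p5 p6 p7 hr⟩

end

/-! ### boxes -/

/-- the row on a box, units `1 / 10000`; offset `2000` of the first variable -/
def Bx (c : Cf) (l0 h0 l1 h1 l2 h2 l3 h3 l4 h4 l5 h5 : ℕ) : Prop :=
  ∀ x0 x1 x2 x3 x4 x5 : ℝ, ((l0 : ℝ) - 2000) / 10000 ≤ x0 → x0 ≤ ((h0 : ℝ) - 2000) / 10000 →
    (l1 : ℝ) / 10000 ≤ x1 → x1 ≤ (h1 : ℝ) / 10000 → (l2 : ℝ) / 10000 ≤ x2 →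
    x2 ≤ (h2 : ℝ) / 10000 → (l3 : ℝ) / 10000 ≤ x3 → x3 ≤ (h3 : ℝ) / 10000 →
    (l4 : ℝ) / 10000 ≤ x4 → x4 ≤ (h4 : ℝ) / 10000 → (l5 : ℝ) / 10000 ≤ x5 →
    x5 ≤ (h5 : ℝ) / 10000 → RowP c x0 x1 x2 x3 x4 x5

/-- offset -/
def o20 : ℕ := 13743895348

theorem Bx.of {c : Cf} (hty : c.ty ≤ 2) {fuel l0 h0 l1 h1 l2 h2 l3 h3 l4 h4 l5 h5 cd : ℕ}
    (h : ok6 (tT c o20) fuel l0 h0 l1 h1 l2 h2 l3 h3 l4 h4 l5 h5 cd = true) :
    Bx c l0 h0 l1 h1 l2 h2 l3 h3 l4 h4 l5 h5 := by
  intro x0 x1 x2 x3 x4 x5 p0 q0 p1 q1 p2 q2 p3 q3 p4 q4 p5 q5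
  have ho : off 2000 = o20 := rfl
  have e : ((2000 : ℕ) : ℝ) = 2000 := by norm_num
  exact ok6_sound (o := 2000) (by rw [ho]; exact tT_ok hty) h (by rw [e]; exact p0)
    (by rw [e]; exact q0) p1 q1 p2 q2 p3 q3 p4 q4 p5 q5

section
variable {c : Cf} {l0 h0 l1 h1 l2 h2 l3 h3 l4 h4 l5 h5 : ℕ}

theorem Bx.s0 (m : ℕ) (a : Bx c l0 m l1 h1 l2 h2 l3 h3 l4 h4 l5 h5)
    (b : Bx c m h0 l1 h1 l2 h2 l3 h3 l4 h4 l5 h5) : Bx c l0 h0 l1 h1 l2 h2 l3 h3 l4 h4 l5 h5 := by
  intro x0 x1 x2 x3 x4 x5 p0 q0 p1 q1 p2 q2 p3 q3 p4 q4 p5 q5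
  rcases le_total x0 (((m : ℝ) - 2000) / 10000) with h | h
  · exact a x0 x1 x2 x3 x4 x5 p0 h p1 q1 p2 q2 p3 q3 p4 q4 p5 q5
  · exact b x0 x1 x2 x3 x4 x5 h q0 p1 q1 p2 q2 p3 q3 p4 q4 p5 q5

theorem Bx.s1 (m : ℕ) (a : Bx c l0 h0 l1 m l2 h2 l3 h3 l4 h4 l5 h5)
    (b : Bx c l0 h0 m h1 l2 h2 l3 h3 l4 h4 l5 h5) : Bx c l0 h0 l1 h1 l2 h2 l3 h3 l4 h4 l5 h5 := by
  intro x0 x1 x2 x3 x4 x5 p0 q0 p1 q1 p2 q2 p3 q3 p4 q4 p5 q5
  rcases le_total x1 ((m : ℝ) / 10000) with h | h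
  · exact a x0 x1 x2 x3 x4 x5 p0 q0 p1 h p2 q2 p3 q3 p4 q4 p5 q5
  · exact b x0 x1 x2 x3 x4 x5 p0 q0 h q1 p2 q2 p3 q3 p4 q4 p5 q5

theorem Bx.s2 (m : ℕ) (a : Bx c l0 h0 l1 h1 l2 m l3 h3 l4 h4 l5 h5)
    (b : Bx c l0 h0 l1 h1 m h2 l3 h3 l4 h4 l5 h5) : Bx c l0 h0 l1 h1 l2 h2 l3 h3 l4 h4 l5 h5 := by
  intro x0 x1 x2 x3 x4 x5 p0 q0 p1 q1 p2 q2 p3 q3 p4 q4 p5 q5
  rcases le_total x2 ((m : ℝ) / 10000) with h | h
  · exact a x0 x1 x2 x3 x4 x5 p0 q0 p1 q1 p2 h p3 q3 p4 q4 p5 q5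
  · exact b x0 x1 x2 x3 x4 x5 p0 q0 p1 q1 h q2 p3 q3 p4 q4 p5 q5

theorem Bx.s3 (m : ℕ) (a : Bx c l0 h0 l1 h1 l2 h2 l3 m l4 h4 l5 h5)
    (b : Bx c l0 h0 l1 h1 l2 h2 m h3 l4 h4 l5 h5) : Bx c l0 h0 l1 h1 l2 h2 l3 h3 l4 h4 l5 h5 := by
  intro x0 x1 x2 x3 x4 x5 p0 q0 p1 q1 p2 q2 p3 q3 p4 q4 p5 q5
  rcases le_total x3 ((m : ℝ) / 10000) with h | h
  · exact a x0 x1 x2 x3 x4 x5 p0 q0 p1 q1 p2 q2 p3 h p4 q4 p5 q5
  · exact b x0 x1 x2 x3 x4 x5 p0 q0 p1 q1 p2 q2 h q3 p4 q4 p5 q5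

theorem Bx.s4 (m : ℕ) (a : Bx c l0 h0 l1 h1 l2 h2 l3 h3 l4 m l5 h5)
    (b : Bx c l0 h0 l1 h1 l2 h2 l3 h3 m h4 l5 h5) : Bx c l0 h0 l1 h1 l2 h2 l3 h3 l4 h4 l5 h5 := by
  intro x0 x1 x2 x3 x4 x5 p0 q0 p1 q1 p2 q2 p3 q3 p4 q4 p5 q5
  rcases le_total x4 ((m : ℝ) / 10000) with h | h
  · exact a x0 x1 x2 x3 x4 x5 p0 q0 p1 q1 p2 q2 p3 q3 p4 h p5 q5
  · exact b x0 x1 x2 x3 x4 x5 p0 q0 p1 q1 p2 q2 p3 q3 h q4 p5 q5

theorem Bx.s5 (m : ℕ) (a : Bx c l0 h0 l1 h1 l2 h2 l3 h3 l4 h4 l5 m)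
    (b : Bx c l0 h0 l1 h1 l2 h2 l3 h3 l4 h4 m h5) : Bx c l0 h0 l1 h1 l2 h2 l3 h3 l4 h4 l5 h5 := by
  intro x0 x1 x2 x3 x4 x5 p0 q0 p1 q1 p2 q2 p3 q3 p4 q4 p5 q5
  rcases le_total x5 ((m : ℝ) / 10000) with h | h
  · exact a x0 x1 x2 x3 x4 x5 p0 q0 p1 q1 p2 q2 p3 q3 p4 q4 p5 h
  · exact b x0 x1 x2 x3 x4 x5 p0 q0 p1 q1 p2 q2 p3 q3 p4 q4 h q5

end

end R6

end Pool.Agent.Work.MP_b30479_gt.G2
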