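import Pool.Agent.Work.MP_b30479_gt.G2.RLvl3
import Pool.Agent.Work.MP_b30479_gt.G2.RLvl2
import Pool.Agent.Work.MP_b30479_gt.G2.RT6D

/-!
# Rings on the level part: windows and tables of bounds
-/

namespace Pool.Agent.Work.MP_b30479_gt.G2

open Real Set VOL Filter Topology

namespace RC

open R6

/-- a window of the saddle point at a hinge of a ring, units `1 / 10000`, offset `2000` for the
height; `y0`, `y1`: bounds of `1 / 2 + σ` -/
structure Wd where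
  t0 : ℕ
  t1 : ℕ
  r0 : ℕ
  r1 : ℕ
  x0 : ℕ
  x1 : ℕ
  y0 : ℕ
  y1 : ℕ
  ws : List LC

/-- the saddle point is in the window -/
structure Wd.In (W : Wd) (T ρ xs ys : ℝ) : Prop where
  t0 : ((W.t0 : ℝ) - 2000) / 10000 ≤ T
  t1 : T ≤ ((W.t1 : ℝ) - 2000) / 10000
  r0 : (W.r0 : ℝ) / 10000 ≤ ρ
  r1 : ρ ≤ (W.r1 : ℝ) / 10000
  x0 : (W.x0 : ℝ) / 10000 ≤ xs
  x1 : xs ≤ (W.x1 : ℝ) / 10000
  y0 : (W.y0 : ℝ) / 10000 ≤ ys
  y1 : ys ≤ (W.y1 : ℝ) / 10000
  ws : ∀ l ∈ W.ws, l.ok T ρ xs ys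

/-- a row of a window for `x` in `[a, b]`, `y` in `[ya, yb]` -/
def Wd.R (W : Wd) (c : List LC → Cf) (a b ya yb : ℕ) : Prop :=
  Bx (c W.ws) W.t0 W.t1 W.r0 W.r1 W.x0 W.x1 W.y0 W.y1 a b ya yb

/-- the four kinds of rows -/
def cW (mu vs : ℕ) (ws : List LC) : Cf := ⟨true, 0, mu, 0, 0, 0, 0, 0, vs, ws⟩
def cQ (up : Bool) (al m0 vs : ℕ) (ws : List LC) : Cf := ⟨up, 2, 0, al, m0, 0, 0, 0, vs, ws⟩
def cD (up : Bool) (mu al m0 dl m1 n1 vs : ℕ) (ws : List LC) : Cf :=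
  ⟨up, 1, mu, al, m0, dl, m1, n1, vs, ws⟩
def cE (up : Bool) (al m0 dl m1 n1 : ℕ) (ws : List LC) : Cf := ⟨up, 2, 0, al, m0, dl, m1, n1, 0, ws⟩

/-- an entry of a table: bounds for `y` in `[ya, yb]` -/
structure Te where
  ya : ℕ
  yb : ℕ
  al : ℕ
  m0 : ℕ
  dl : ℕ := 0
  m1 : ℕ := 0
  n1 : ℕ := 0

/-- the table covers `[1 / 4, 1 / 2]` -/
def cov : ℕ → List Te → Bool
  | a, [] => Nat.ble 5000 a
  | a, e :: l => Nat.ble e.ya a && cov e.yb l

theorem cov_spec {y : ℝ} (hy : y ≤ 1 / 2) : ∀ {l : List Te} {a : ℕ}, cov a l = true →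
    (a : ℝ) / 10000 ≤ y → y < 1 / 2 → ∃ e ∈ l, (e.ya : ℝ) / 10000 ≤ y ∧ y ≤ (e.yb : ℝ) / 10000
  | [], a, h, h1, h2 => by
    exfalso
    have := Nat.le_of_ble_eq_true h
    have h3 : (5000 : ℝ) ≤ a := by exact_mod_cast this
    linarith only [h1, h2, h3]
  | e :: l, a, h, h1, h2 => by
    unfold cov at h
    rw [Bool.and_eq_true] at h
    obtain ⟨k1, k2⟩ := h
    have k3 : (e.ya : ℝ) ≤ a := by exact_mod_cast Nat.le_of_ble_eq_true k1
    rcases le_total y ((e.yb : ℝ) / 10000) with h4 | h4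
    · exact ⟨e, List.mem_cons_self, by linarith only [h1, k3], h4⟩
    · obtain ⟨e', he, h5⟩ := cov_spec hy k2 h4 h2
      exact ⟨e', List.mem_cons_of_mem _ he, h5⟩

/-- the contribution of a hinge is bounded by the table -/
def QT (xs ys T ρ cl cp : ℝ) (tab : List Te) : Prop :=
  ∀ e ∈ tab, ∀ y, (e.ya : ℝ) / 10000 ≤ y → y ≤ (e.yb : ℝ) / 10000 → 1 / 4 ≤ y → y < ys →
    QB xs ys T ρ cl cp (Lb e.al e.m0) ((e.dl : ℝ) / 1000) ((e.m1 : ℝ) / 1000)
      ((e.n1 : ℝ) / 1000) y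

/-- the sides of a hinge, given the table for the other hinge -/
def DT (xs ys T ρ cl cp : ℝ) (f g : ℝ → ℝ) (tab : List Te) : Prop :=
  ∀ e ∈ tab, ∀ y, (e.ya : ℝ) / 10000 ≤ y → y ≤ (e.yb : ℝ) / 10000 → 1 / 4 ≤ y → y < ys →
    DS xs ys T ρ cl cp f g (Lb e.al e.m0) ((e.dl : ℝ) / 1000) ((e.m1 : ℝ) / 1000)
      ((e.n1 : ℝ) / 1000) y

section
variable {xs ys T ρ cl cp xs' T' cl' cp' x y : ℝ} {f g : ℝ → ℝ} {tab : List Te}

theorem Joint.of_tab (hp : DT xs ys T ρ cl cp f g tab) (hq : QT xs' ys T' ρ cl' cp' tab)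
    (hc : cov 2500 tab = true) (hys : ys ≤ 1 / 2) : Joint ys ρ xs T cl cp f g xs' T' cl' cp' := by
  intro y h1 h2
  obtain ⟨e, he, h3, h4⟩ := cov_spec (y := y) (by linarith only [hys, h2]) hc (by norm_num; linarith only [h1])
    (by linarith only [hys, h2])
  exact ⟨Lb e.al e.m0, _, _, _, Lb_mono _ _, by positivity, hp e he y h3 h4 h1 h2,
    hq e he y h3 h4 h1 h2⟩

theorem LI.of_tab (hup : ∀ x y, x ∈ Icc cl cp → ys < y →
      y ≤ 1 / 2 → |gh x - gh xs| < gh y - gh ys → Dx x y T ρ < Dx xs ys T ρ)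
    (hq : QT xs ys T ρ cl cp tab) (hc : cov 2500 tab = true) (hx : xs ∈ Icc cl cp)
    (hys : ys ∈ Ioc (1 / 4 : ℝ) (1 / 2)) : LI xs ys T ρ := by
  refine LI.of' hup (fun y h1 h2 => ?_) hx hys
  obtain ⟨e, he, h3, h4⟩ := cov_spec (y := y) (by linarith only [h2, hys, hys.2]) hc (by norm_num; linarith only [h1])
    (by linarith only [h2, hys, hys.2])
  exact ⟨Lb e.al e.m0, _, _, _, Lb_zero _ _, hq e he y h3 h4 h1 h2⟩

theorem QT.nil : QT xs ys T ρ cl cp [] := fun _ h => absurd h List.not_mem_nil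
theorem DT.nil : DT xs ys T ρ cl cp f g [] := fun _ h => absurd h List.not_mem_nil

theorem QT.cons {e : Te} (h : ∀ y, (e.ya : ℝ) / 10000 ≤ y → y ≤ (e.yb : ℝ) / 10000 → 1 / 4 ≤ y →
    y < ys → QB xs ys T ρ cl cp (Lb e.al e.m0) ((e.dl : ℝ) / 1000) ((e.m1 : ℝ) / 1000)
      ((e.n1 : ℝ) / 1000) y) (ht : QT xs ys T ρ cl cp tab) : QT xs ys T ρ cl cp (e :: tab) := by
  intro e' he
  rcases List.mem_cons.1 he with rfl | he
  · exact h
  · exact ht e' he

theorem DT.cons {e : Te} (h : ∀ y, (e.ya : ℝ) / 10000 ≤ y → y ≤ (e.yb : ℝ) / 10000 → 1 / 4 ≤ y →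
    y < ys → DS xs ys T ρ cl cp f g (Lb e.al e.m0) ((e.dl : ℝ) / 1000) ((e.m1 : ℝ) / 1000)
      ((e.n1 : ℝ) / 1000) y) (ht : DT xs ys T ρ cl cp f g tab) :
    DT xs ys T ρ cl cp f g (e :: tab) := by
  intro e' he
  rcases List.mem_cons.1 he with rfl | he
  · exact h
  · exact ht e' he

end

section
variable {xs ys T ρ cl cp x y : ℝ} {W : Wd} {c : List LC → Cf} {a b ya yb : ℕ}

/-- the row at a point -/
theorem Wd.R.at (R : W.R c a b ya yb) (I : W.In T ρ xs ys) (h0 : (a : ℝ) / 10000 ≤ x)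
    (h1 : x ≤ (b : ℝ) / 10000) (h2 : (ya : ℝ) / 10000 ≤ y) (h3 : y ≤ (yb : ℝ) / 10000) :
    RowP (c W.ws) T ρ xs ys x y :=
  R _ _ _ _ _ _ I.t0 I.t1 I.r0 I.r1 I.x0 I.x1 I.y0 I.y1 h0 h1 h2 h3

/-- the contribution: rows without the region -/
theorem Wd.In.QB (I : W.In T ρ xs ys) (H : GD xs ys cl cp) {al m0 vs A B : ℕ}
    (hH : vs ≠ 0 → HD xs ys T ρ cl cp)
    (Ru : W.R (cQ true al m0 vs) W.x0 B ya yb) (Rd : W.R (cQ false al m0 vs) A W.x1 ya yb)
    (hA : (A : ℝ) / 10000 ≤ cl) (hB : cp ≤ (B : ℝ) / 10000) (h2 : (ya : ℝ) / 10000 ≤ y)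
    (h3 : y ≤ (yb : ℝ) / 10000) (h4 : 1 / 4 ≤ y) (h5 : y < ys) :
    QB xs ys T ρ cl cp (Lb al m0) ((0 : ℕ) / 1000) ((0 : ℕ) / 1000) ((0 : ℕ) / 1000) y := by
  constructor
  swap
  · intro h
    norm_num at h
  intro x hx hn hN
  have hxi := H.x1 hx
  have e1 : (1 : ℕ) ≠ 0 := by decide
  rcases le_total xs x with h | h
  · have hm : 0 ≤ mm true xs x := by
      rw [mm_true, sub_nonneg]
      rcases h.eq_or_lt with h | h
      · rw [h]
      · exact ((gh_lt H.xi hxi).2 h).le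
    have e : |gh x - gh xs| = mm true xs x := by
      rw [mm_true] at hm ⊢
      exact abs_of_nonneg hm
    rw [e] at hN ⊢
    have k := row_Q (c := cQ true al m0 vs W.ws) H hH rfl (Or.inl rfl)
      (Ru.at I (I.x0.trans h) (hx.2.trans hB) h2 h3) I.ws hx h4 h5 hm hn
      (fun h => absurd rfl h) (by
        change mm true xs x + ((0 : ℕ) : ℝ) / 1000 < gh ys - gh y
        rw [Nat.cast_zero, zero_div, add_zero]
        exact hN)
    have e0 : (((cQ true al m0 vs W.ws).dl : ℕ) : ℝ) / 1000 = 0 := by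
      change ((0 : ℕ) : ℝ) / 1000 = 0
      simp
    rw [e0, add_zero] at k
    exact k
  · have hm : 0 ≤ mm false xs x := by
      rw [mm_false, sub_nonneg]
      rcases h.eq_or_lt with h | h
      · rw [h]
      · exact ((gh_lt hxi H.xi).2 h).le
    have e : |gh x - gh xs| = mm false xs x := by
      rw [mm_false] at hm ⊢
      rw [abs_sub_comm]
      exact abs_of_nonneg hm
    rw [e] at hN ⊢
    have k := row_Q (c := cQ false al m0 vs W.ws) H hH rfl (Or.inl rfl)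
      (Rd.at I (hA.trans hx.1) (h.trans I.x1) h2 h3) I.ws hx h4 h5 hm hn
      (fun h => absurd rfl h) (by
        change mm false xs x + ((0 : ℕ) : ℝ) / 1000 < gh ys - gh y
        rw [Nat.cast_zero, zero_div, add_zero]
        exact hN)
    have e0 : (((cQ false al m0 vs W.ws).dl : ℕ) : ℝ) / 1000 = 0 := by
      change ((0 : ℕ) : ℝ) / 1000 = 0
      simp
    rw [e0, add_zero] at k
    exact k

/-- the contribution: rows with the region -/
theorem QB.reg {al m0 dl m1 n1 A B : ℕ} (I : W.In T ρ xs ys) (H : GD xs ys cl cp)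
    (h : QB xs ys T ρ cl cp (Lb al m0) ((0 : ℕ) / 1000) ((0 : ℕ) / 1000) ((0 : ℕ) / 1000) y)
    (Ru : W.R (cE true al m0 dl m1 n1) W.x0 B ya yb)
    (Rd : W.R (cE false al m0 dl m1 n1) A W.x1 ya yb)
    (hA : (A : ℝ) / 10000 ≤ cl) (hB : cp ≤ (B : ℝ) / 10000) (h2 : (ya : ℝ) / 10000 ≤ y)
    (h3 : y ≤ (yb : ℝ) / 10000) (h4 : 1 / 4 ≤ y) (h5 : y < ys) :
    QB xs ys T ρ cl cp (Lb al m0) ((dl : ℕ) / 1000) ((m1 : ℕ) / 1000) ((n1 + 1 : ℕ) / 1000) y := by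
  constructor
  · intro x hx hn hN
    exact h.g x hx hn hN
  intro _ x hx hn hm1 hN
  have hxi := H.x1 hx
  push_cast at hN
  rcases le_total xs x with h6 | h6
  · have hm : 0 ≤ mm true xs x := by
      rw [mm_true, sub_nonneg]
      rcases h6.eq_or_lt with h | h
      · rw [h]
      · exact ((gh_lt H.xi hxi).2 h).le
    have e : |gh x - gh xs| = mm true xs x := by
      rw [mm_true] at hm ⊢
      exact abs_of_nonneg hm
    rw [e] at hN hm1 ⊢
    exact row_Q (c := cE true al m0 dl m1 n1 W.ws) H (fun h => absurd rfl h) rfl (Or.inr rfl)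
      (Ru.at I (I.x0.trans h6) (hx.2.trans hB) h2 h3) I.ws hx h4 h5 hm hn
      (fun _ => hm1) (by
        change mm true xs x + ((n1 : ℕ) : ℝ) / 1000 < gh ys - gh y
        linarith only [hN])
  · have hm : 0 ≤ mm false xs x := by
      rw [mm_false, sub_nonneg]
      rcases h6.eq_or_lt with h | h
      · rw [h]
      · exact ((gh_lt hxi H.xi).2 h).le
    have e : |gh x - gh xs| = mm false xs x := by
      rw [mm_false] at hm ⊢
      rw [abs_sub_comm]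
      exact abs_of_nonneg hm
    rw [e] at hN hm1 ⊢
    exact row_Q (c := cE false al m0 dl m1 n1 W.ws) H (fun h => absurd rfl h) rfl (Or.inr rfl)
      (Rd.at I (hA.trans hx.1) (h6.trans I.x1) h2 h3) I.ws hx h4 h5 hm hn
      (fun _ => hm1) (by
        change mm false xs x + ((n1 : ℕ) : ℝ) / 1000 < gh ys - gh y
        linarith only [hN])

/-- the sides -/
theorem Wd.In.DS (I : W.In T ρ xs ys) (H : GD xs ys cl cp) {f g : ℝ → ℝ}
    {mu mud al m0 dl m1 n1 vu vd A B du u1 u2 dd d1 d2 : ℕ}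
    (hHu : vu ≠ 0 → HD xs ys T ρ cl cp) (hHd : vd ≠ 0 → HD xs ys T ρ cl cp)
    (Ru : W.R (cD true mu al m0 du u1 u2 vu) W.x0 B ya yb)
    (Rd : W.R (cD false mud al m0 dd d1 d2 vd) A W.x1 ya yb)
    (hu : du = 0 ∨ (du = dl ∧ u1 = m1 ∧ u2 = n1)) (hd : dd = 0 ∨ (dd = dl ∧ d1 = m1 ∧ d2 = n1))
    (hf : ∀ m, 0 < m → (mu : ℝ) / 1000 * m ≤ f m) (hg : ∀ m, 0 < m → (mud : ℝ) / 1000 * m ≤ g m)
    (hA : (A : ℝ) / 10000 ≤ cl) (hB : cp ≤ (B : ℝ) / 10000) (h2 : (ya : ℝ) / 10000 ≤ y)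
    (h3 : y ≤ (yb : ℝ) / 10000) (h4 : 1 / 4 ≤ y) (h5 : y < ys) :
    DS xs ys T ρ cl cp f g (Lb al m0) ((dl : ℕ) / 1000) ((m1 : ℕ) / 1000) ((n1 : ℕ) / 1000) y := by
  constructor
  · intro x hx hlt hn hN hG hD
    have hm := (gh_lt H.xi (H.x1 hx)).2 hlt
    have := row_up (c := cD true mu al m0 du u1 u2 vu W.ws) H hHu rfl rfl
      (Ru.at I (I.x0.trans hlt.le) (hx.2.trans hB) h2 h3) I.ws hx h4 h5 hlt hn hN hG (by
        intro k1 k2
        change Dx x y T ρ + ((du : ℕ) : ℝ) / 1000 ≤ _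
        rcases hu with rfl | ⟨rfl, rfl, rfl⟩
        · rw [Nat.cast_zero, zero_div, add_zero]
          exact hG
        · exact hD k1 k2)
    change Sx x y T ρ < Sx xs ys T ρ + (mu : ℝ) / 1000 * (gh x - gh xs) at this
    exact this.trans_le (by linarith only [hf, hm, hf _ (sub_pos.2 hm)])
  · intro x hx hlt hn hN hG hD
    have hm := (gh_lt (H.x1 hx) H.xi).2 hlt
    have := row_dn (c := cD false mud al m0 dd d1 d2 vd W.ws) H hHd rfl rfl
      (Rd.at I (hA.trans hx.1) (hlt.le.trans I.x1) h2 h3) I.ws hx h4 h5 hlt hn hN hG (by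
        intro k1 k2
        change Dx x y T ρ + ((dd : ℕ) : ℝ) / 1000 ≤ _
        rcases hd with rfl | ⟨rfl, rfl, rfl⟩
        · rw [Nat.cast_zero, zero_div, add_zero]
          exact hG
        · exact hD k1 k2)
    change Sx xs ys T ρ < Sx x y T ρ + (mud : ℝ) / 1000 * (gh xs - gh x) at this
    exact this.trans_le (by linarith only [hg, hm, hg _ (sub_pos.2 hm)])

/-- **Comparison statements of a hinge next to a digit `1`.** -/
theorem Wd.In.LF (I : W.In T ρ xs ys) (H : HD xs ys T ρ cl cp) {a0 a1 p0 : ℝ}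
    (hr : DR xs ys T ρ a0 a1 p0) (ha0 : a0 ≤ ta cl) (ha1 : ta (32 / 100) ≤ a1)
    (ha1' : a1 ≤ 55 / 100) (ha0' : 158 / 1000 ≤ a0) (hp0 : p0 ≤ a0 * (4142 / 10000))
    (hκ : ta xs ≤ 94 / 100 * ta ys) (hx32 : xs ≤ 32 / 100) {f : ℝ → ℝ} {mu B : ℕ}
    (hf : ∀ m, 0 < m → (mu : ℝ) / 1000 * m ≤ f m)
    (R1 : W.R (cW mu 1) W.x0 3200 2500 5000) (R2 : W.R (cW mu 0) 3200 B 2500 5000)
    (hB : cp ≤ (B : ℝ) / 10000) : LF xs ys T ρ cl cp f (fun _ => 0) := by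
  have g := H.toGD
  have g' : GD xs ys cl (32 / 100) := ⟨g.cl0, by norm_num, g.xl, hx32, g.hs, g.y4, g.y2⟩
  refine ⟨g.xi, g.up H.h2 H.ha H.hv, ?_, ?_⟩
  · intro x y hx hy h1 hn hN
    have hm := (gh_lt g.xi (g.x1 hx)).2 h1
    have hf' := hf _ (sub_pos.2 hm)
    have hmu : (0 : ℝ) ≤ (mu : ℝ) / 1000 * (gh x - gh xs) :=
      mul_nonneg (by positivity) (sub_pos.2 hm).le
    rcases le_total x (32 / 100) with h2 | h2
    · by_cases hK : gh xs + gh x ≤ gh ys + gh y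
      · have := g'.wupp hr ha0 ha1 (by linarith only [ha1']) hp0 ⟨hx.1, h2⟩ hy h1 hn hN hK
        linarith only [hf', hmu, this]
      · push Not at hK
        have := row_W (c := cW mu 1 W.ws) g rfl rfl
          (R1.at I (I.x0.trans h1.le) (by norm_num; linarith only [h2]) (by norm_num; linarith only [hy, hy.1])
            (by norm_num; linarith only [hy, hy.2])) I.ws hx hy h1 hN (fun _ => hK.le)
        change Sx x y T ρ < Sx xs ys T ρ + (mu : ℝ) / 1000 * (gh x - gh xs) at this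
        linarith only [hf', this]
    · have := row_W (c := cW mu 0 W.ws) g rfl rfl
        (R2.at I (by norm_num; linarith only [h2]) (hx.2.trans hB) (by norm_num; linarith only [hy, hy.1])
          (by norm_num; linarith only [hy, hy.2])) I.ws hx hy h1 hN (fun h => absurd rfl h)
      change Sx x y T ρ < Sx xs ys T ρ + (mu : ℝ) / 1000 * (gh x - gh xs) at this
      linarith only [hf', this]
  · intro x y hx hy h1 hn hN
    rw [add_zero]
    exact g'.wdn hr ha0 ha1 ha1' hp0 ha0' H.hv hκ x y ⟨hx.1, by linarith only [hx32, h1]⟩ hy h1 hn hN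

end

end RC

end Pool.Agent.Work.MP_b30479_gt.G2
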