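import Pool.Agent.Work.MP_b30479_gt.G2.RLvl4
import Pool.Agent.Work.MP_b30479_gt.G2.RH2R

/-!
# Rings on the level part: hinges next to a digit `1`, entries of the tables, pairs of hinges
-/

namespace Pool.Agent.Work.MP_b30479_gt.G2

open Real Set VOL Filter Topology

namespace RC

namespace Row

open NumI NumI.E

theorem cK1s : chk [ek 9400 174] 8 [V.of 10000 2140 2990] = true := by decide +kernel

theorem t216_gt : (351 : ℝ) / 1000 < ta (216 / 1000) := by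
  have := ta_gt (n := 216) (d := 1000) (m := 351) (e := 1000) (by decide +kernel) (by norm_num)
  norm_num at this ⊢
  exact this

theorem cH4a : chk (h2l 4687 1609 0 1609) 20 [V.of 10000 2250 2816, V.of 10000 1560 2016] = true := by
  decide +kernel
theorem cH4b : chk (h2l 4826 1666 0 1666) 20 [V.of 10000 2580 2990, V.of 10000 1540 1951] = true := by
  decide +kernel
theorem cH4c : chk (h2l 4584 1845 0 1845) 20 [V.of 10000 2439 2666, V.of 10000 1580 1985] = true := by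
  decide +kernel
theorem cH4ea : chk (h2l 4638 1201 0 1201) 20 [V.of 10000 2163 2605, V.of 10000 1974 2179] = true := by
  decide +kernel
theorem cH4eb : chk (h2l 4778 1280 0 1280) 20 [V.of 10000 2480 2791, V.of 10000 1927 2094] = true := by
  decide +kernel
theorem cH4ec : chk (h2l 4517 1433 0 1433) 20 [V.of 10000 2352 2472, V.of 10000 1985 2105] = true := by
  decide +kernel
theorem cH5a : chk (h2l 4412 1622 0 1622) 20 [V.of 10000 2213 2800, V.of 10000 1321 1779] = true := by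
  decide +kernel
theorem cH5b : chk (h2l 4574 1646 0 1646) 20 [V.of 10000 2534 2988, V.of 10000 1298 1731] = true := by
  decide +kernel
theorem cH5c : chk (h2l 4282 1842 0 1842) 20 [V.of 10000 2380 2639, V.of 10000 1331 1751] = true := by
  decide +kernel
theorem cH5e : chk (h2l 4530 1534 0 1534) 20 [V.of 10000 2180 2859, V.of 10000 1571 1865] = true := by
  decide +kernel
theorem cH6 : chk (h2l 4367 1793 0 1793) 20 [V.of 10000 2188 2983, V.of 10000 1131 1628] = true := by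
  decide +kernel
theorem cH7 : chk (h2l 4826 1990 0 1990) 20 [V.of 10000 2200 2990, V.of 10000 0 1364] = true := by
  decide +kernel

end Row

open Row R6

/-- bounds of the saddle point at a hinge next to a digit `1` -/
structure OneB (xs ys T ρ : ℝ) : Prop where
  x0 : 216 / 1000 ≤ xs
  x1 : xs ≤ 299 / 1000
  c : xs + (1 / 2 - ys) ≤ 4826 / 10000
  y4 : 1 / 4 < ys
  y2 : ys ≤ 1 / 2
  t0 : T ≤ 0
  t1 : -(158 / 1000) ≤ T
  r0 : 0 ≤ ρ
  r1 : ρ ≤ 1 / 10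
  q : ρ - T ≤ 2 / 10
  h2 : H2 xs ys T ρ

section
variable {xs ys T ρ cl cp xs' T' cl' cp' x y : ℝ} {f g f' g' : ℝ → ℝ} {tab tab' : List Te} {W : Wd}

theorem OneB.GD (O : OneB xs ys T ρ) : GD xs ys (16 / 100) (36 / 100) :=
  ⟨by norm_num, by norm_num, by linarith only [O, O.x0], by linarith only [O, O.x1], by linarith only [O, O.c],
    O.y4.le, O.y2⟩

theorem OneB.HD (O : OneB xs ys T ρ) : HD xs ys T ρ (16 / 100) (36 / 100) := by
  refine ⟨O.GD, O.h2, ?_, ?_⟩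
  · have := ta_lo O.GD.cli (m := 16 / 100) (by constructor <;> norm_num) le_rfl t16_gt
    linarith only [this]
  · refine shq200 (abs_le.2 ⟨?_, ?_⟩) <;> linarith only [O, O.q, O.t0, O.r0]

theorem OneB.hys (O : OneB xs ys T ρ) : ys ∈ Ioc (1 / 4 : ℝ) (1 / 2) := ⟨O.y4, O.y2⟩
theorem OneB.hxs (O : OneB xs ys T ρ) : xs ∈ Icc (16 / 100 : ℝ) (36 / 100) :=
  ⟨by linarith only [O, O.x0], by linarith only [O, O.x1]⟩

/-- comparison statements next to a digit `1` -/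
theorem OneB.LF (O : OneB xs ys T ρ) (I : W.In T ρ xs ys) {f : ℝ → ℝ} {mu : ℕ}
    (R1 : W.R (cW mu 1) W.x0 3200 2500 5000) (R2 : W.R (cW mu 0) 3200 3600 2500 5000)
    (hf : ∀ m, 0 < m → (mu : ℝ) / 1000 * m ≤ f m) :
    LF xs ys T ρ (16 / 100) (36 / 100) f (fun _ => 0) := by
  have g := O.GD
  have h1 := kap_of cK1s g.xi g.yi (by norm_num; linarith only [O, O.x0]) (by norm_num; linarith only [O, O.x1])
    (by norm_num) (by norm_num) (by norm_num; linarith only [O, O.c])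
  norm_num at h1
  have h2 := ta_lo g.xi (by norm_num) O.x0 t216_gt
  have h3 := g.kap h2
  have hc0 := ta_lo g.cli (by norm_num) (le_refl (16 / 100 : ℝ)) t16_gt
  have hay := ta_pos g.yi
  exact I.LF O.HD (DR_one g.xi g.yi (by linarith only [h2]) (by nlinarith only [h2, h3]) (by linarith only [h1]) O.t0 O.t1 O.r0
    (by linarith only [O, O.r1, O.t0]) (by linarith only [O, O.q])) hc0.le (by linarith only [t32_lt]) (by norm_num) (by norm_num)
    (by norm_num) (by linarith only [h1]) (by linarith only [O, O.x1]) hf R1 R2 (by norm_num)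

theorem Lb_00 : Lb 0 0 = fun _ => 0 := by
  funext m
  exact Lb_zero' _ _

/-- the table is used only for `y < ys` -/
theorem Wd.In.yb (I : W.In T ρ xs ys) {yb yb' : ℕ} (h : (Nat.ble yb yb' || Nat.ble W.y1 yb') = true)
    (h1 : y ≤ (yb : ℝ) / 10000) (h2 : y < ys) : y ≤ (yb' : ℝ) / 10000 := by
  rw [Bool.or_eq_true] at h
  rcases h with h | h
  · have h3 : (yb : ℝ) ≤ yb' := by exact_mod_cast Nat.le_of_ble_eq_true h
    refine h1.trans ?_
    gcongr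
  · have h3 : (W.y1 : ℝ) ≤ yb' := by exact_mod_cast Nat.le_of_ble_eq_true h
    refine (h2.le.trans I.y1).trans ?_
    gcongr

/-- an entry for the contribution -/
theorem Wd.In.qt (I : W.In T ρ xs ys) (G : GD xs ys cl cp) {al m0 vs A B ya yb yb' : ℕ}
    (hH : vs ≠ 0 → RC.HD xs ys T ρ cl cp)
    (Ru : W.R (cQ true al m0 vs) W.x0 B ya yb') (Rd : W.R (cQ false al m0 vs) A W.x1 ya yb')
    (hy : (Nat.ble yb yb' || Nat.ble W.y1 yb') = true)
    (t : QT xs ys T ρ cl cp tab)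
    (hA : (A : ℝ) / 10000 ≤ cl) (hB : cp ≤ (B : ℝ) / 10000) :
    QT xs ys T ρ cl cp (⟨ya, yb, al, m0, 0, 0, 0⟩ :: tab) :=
  t.cons fun _ h1 h2 h3 h4 => I.QB G hH Ru Rd hA hB h1 (I.yb hy h2 h4) h3 h4

/-- an entry with a region -/
theorem Wd.In.qe (I : W.In T ρ xs ys) (G : GD xs ys cl cp) {al m0 vs dl m1 n1 A B ya yb yb' : ℕ}
    (hH : vs ≠ 0 → RC.HD xs ys T ρ cl cp)
    (Ru : W.R (cQ true al m0 vs) W.x0 B ya yb') (Rd : W.R (cQ false al m0 vs) A W.x1 ya yb')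
    (Eu : W.R (cE true al m0 dl m1 n1) W.x0 B ya yb')
    (Ed : W.R (cE false al m0 dl m1 n1) A W.x1 ya yb')
    (hy : (Nat.ble yb yb' || Nat.ble W.y1 yb') = true)
    (t : QT xs ys T ρ cl cp tab)
    (hA : (A : ℝ) / 10000 ≤ cl) (hB : cp ≤ (B : ℝ) / 10000) :
    QT xs ys T ρ cl cp (⟨ya, yb, al, m0, dl, m1, n1 + 1⟩ :: tab) :=
  t.cons fun _ h1 h2 h3 h4 => QB.reg I G (I.QB G hH Ru Rd hA hB h1 (I.yb hy h2 h4) h3 h4) Eu Ed
    hA hB h1 (I.yb hy h2 h4) h3 h4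

/-- an entry if the contribution increases -/
theorem DnG.qt (D : DnG xs T cl cp ys ρ) {ya yb : ℕ} (t : QT xs ys T ρ cl cp tab) :
    QT xs ys T ρ cl cp (⟨ya, yb, 0, 0, 0, 0, 0⟩ :: tab) := by
  refine t.cons fun y _ _ h3 h4 => ?_
  have := DnG.QB (m1 := ((0 : ℕ) : ℝ) / 1000) (n1 := ((0 : ℕ) : ℝ) / 1000) D h3 h4
  change RC.QB xs ys T ρ cl cp (Lb 0 0) _ _ _ y
  rw [Lb_00]
  convert this using 1
  simp

/-- an entry with a region if the contribution increases -/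
theorem DnG.qe (D : DnG xs T cl cp ys ρ) (I : W.In T ρ xs ys) (G : GD xs ys cl cp)
    {dl m1 n1 A B ya yb yb' : ℕ}
    (Eu : W.R (cE true 0 0 dl m1 n1) W.x0 B ya yb')
    (Ed : W.R (cE false 0 0 dl m1 n1) A W.x1 ya yb')
    (hy : (Nat.ble yb yb' || Nat.ble W.y1 yb') = true)
    (t : QT xs ys T ρ cl cp tab)
    (hA : (A : ℝ) / 10000 ≤ cl) (hB : cp ≤ (B : ℝ) / 10000) :
    QT xs ys T ρ cl cp (⟨ya, yb, 0, 0, dl, m1, n1 + 1⟩ :: tab) := by
  refine t.cons fun y h1 h2 h3 h4 => ?_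
  refine QB.reg I G ?_ Eu Ed hA hB h1 (I.yb hy h2 h4) h3 h4
  have := DnG.QB (m1 := ((0 : ℕ) : ℝ) / 1000) (n1 := ((0 : ℕ) : ℝ) / 1000) D h3 h4
  rw [Lb_00]
  convert this using 1
  simp

/-- an entry for the sides -/
theorem Wd.In.dt (I : W.In T ρ xs ys) (G : GD xs ys cl cp) {f g : ℝ → ℝ}
    {mu mud al m0 dl m1 n1 vs A B ya yb yb' : ℕ} (hH : vs ≠ 0 → RC.HD xs ys T ρ cl cp)
    (Ru : W.R (cD true mu al m0 dl m1 n1 vs) W.x0 B ya yb')
    (Rd : W.R (cD false mud al m0 0 0 0 vs) A W.x1 ya yb')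
    (hy : (Nat.ble yb yb' || Nat.ble W.y1 yb') = true)
    (hf : ∀ m, 0 < m → (mu : ℝ) / 1000 * m ≤ f m) (hg : ∀ m, 0 < m → (mud : ℝ) / 1000 * m ≤ g m)
    (t : DT xs ys T ρ cl cp f g tab)
    (hA : (A : ℝ) / 10000 ≤ cl) (hB : cp ≤ (B : ℝ) / 10000) :
    DT xs ys T ρ cl cp f g (⟨ya, yb, al, m0, dl, m1, n1⟩ :: tab) :=
  t.cons fun _ h1 h2 h3 h4 => I.DS G hH hH Ru Rd (Or.inr ⟨rfl, rfl, rfl⟩) (Or.inl rfl) hf hg hA hB
    h1 (I.yb hy h2 h4) h3 h4

/-- an entry for the sides if the contribution increases -/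
theorem DnG.dt (D : DnG xs T cl cp ys ρ) (G : GD xs ys cl cp) {dl m1 n1 ya yb : ℕ}
    (t : DT xs ys T ρ cl cp f g tab) :
    DT xs ys T ρ cl cp f g (⟨ya, yb, 0, 0, dl, m1, n1⟩ :: tab) := by
  refine t.cons fun y _ _ h3 h4 => ?_
  change RC.DS xs ys T ρ cl cp f g (Lb 0 0) _ _ _ y
  rw [Lb_00]
  exact (DnG.QB (m1 := 0) (n1 := 0) D h3 h4).toDS G.xi G.cl0 (by linarith only [G, G.cp2])

/-- an entry for the sides from rows of the contribution -/
theorem Wd.In.dt0 (I : W.In T ρ xs ys) (G : GD xs ys cl cp) {f g : ℝ → ℝ}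
    {vs dl m1 n1 A B ya yb yb' : ℕ} (hH : vs ≠ 0 → RC.HD xs ys T ρ cl cp)
    (Ru : W.R (cQ true 0 0 vs) W.x0 B ya yb') (Rd : W.R (cQ false 0 0 vs) A W.x1 ya yb')
    (hy : (Nat.ble yb yb' || Nat.ble W.y1 yb') = true)
    (t : DT xs ys T ρ cl cp f g tab)
    (hA : (A : ℝ) / 10000 ≤ cl) (hB : cp ≤ (B : ℝ) / 10000) :
    DT xs ys T ρ cl cp f g (⟨ya, yb, 0, 0, dl, m1, n1⟩ :: tab) := by
  refine t.cons fun y h1 h2 h3 h4 => ?_
  have := I.QB G hH Ru Rd hA hB h1 (I.yb hy h2 h4) h3 h4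
  change RC.DS xs ys T ρ cl cp f g (Lb 0 0) _ _ _ y
  rw [Lb_00] at this ⊢
  exact this.toDS G.xi G.cl0 (by linarith only [G, G.cp2])

/-- the table with bounds `0` only -/
theorem DT.zero (t : DT xs ys T ρ cl cp f g tab) (hc : cov 2500 tab = true)
    (h0 : (tab.all fun e => e.al == 0 && e.dl == 0 && e.m1 == 0 && e.n1 == 0) = true)
    (hys : ys ≤ 1 / 2) : ∀ y, 1 / 4 ≤ y → y < ys →
      DS xs ys T ρ cl cp f g (fun _ => 0) 0 0 0 y := by
  intro y h1 h2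
  obtain ⟨e, he, h3, h4⟩ := cov_spec (y := y) (by linarith only [hys, h2]) hc (by norm_num; linarith only [h1])
    (by linarith only [hys, h2])
  have h5 := t e he y h3 h4 h1 h2
  rw [List.all_eq_true] at h0
  have h6 := h0 e he
  simp only [Bool.and_eq_true, beq_iff_eq] at h6
  obtain ⟨⟨⟨a1, a2⟩, a3⟩, a4⟩ := h6
  rw [a1, a2, a3, a4] at h5
  have e0 : Lb 0 e.m0 = fun _ => 0 := by
    funext m
    exact Lb_zero' _ _
  rw [e0] at h5
  simpa using h5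

end

/-- the statements for the two hinges of a ring -/
structure Pr (ys ρ xs T cl cp : ℝ) (f g : ℝ → ℝ) (xs' T' cl' cp' : ℝ) (f' g' : ℝ → ℝ) : Prop where
  p : LF xs ys T ρ cl cp f g
  q : LF xs' ys T' ρ cl' cp' f' g'
  J : Joint ys ρ xs T cl cp f g xs' T' cl' cp'
  J' : Joint ys ρ xs' T' cl' cp' f' g' xs T cl cp
  lp : LI xs ys T ρ
  lq : LI xs' ys T' ρ

section
variable {xs ys T ρ cl cp xs' T' cl' cp' b lam α β : ℝ} {f g f' g' : ℝ → ℝ} {tab tab' : List Te}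

theorem Pr.symm (P : Pr ys ρ xs T cl cp f g xs' T' cl' cp' f' g') :
    Pr ys ρ xs' T' cl' cp' f' g' xs T cl cp f g := ⟨P.q, P.p, P.J', P.J, P.lq, P.lp⟩

theorem Pr.of (p : LF xs ys T ρ cl cp f g) (q : LF xs' ys T' ρ cl' cp' f' g')
    (d : DT xs ys T ρ cl cp f g tab) (e' : QT xs' ys T' ρ cl' cp' tab)
    (d' : DT xs' ys T' ρ cl' cp' f' g' tab') (e : QT xs ys T ρ cl cp tab')
    (c : cov 2500 tab = true) (c' : cov 2500 tab' = true) (hys : ys ∈ Ioc (1 / 4 : ℝ) (1 / 2))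
    (hx : xs ∈ Icc cl cp) (hx' : xs' ∈ Icc cl' cp') :
    Pr ys ρ xs T cl cp f g xs' T' cl' cp' f' g' :=
  ⟨p, q, Joint.of_tab d e' c hys.2, Joint.of_tab d' e c' hys.2, LI.of_tab p.up e c' hx hys,
    LI.of_tab q.up e' c hx' hys⟩

/-- the pair of hinges, no exceptions -/
theorem Pr.of_lo (l : LH xs ys T ρ cl cp) (l' : LH xs' ys T' ρ cl' cp') (d : DnG xs T cl cp ys ρ)
    (d' : DnG xs' T' cl' cp' ys ρ) (hys : ys ∈ Ioc (1 / 4 : ℝ) (1 / 2))
    (hx : xs ∈ Icc cl cp) (hx' : xs' ∈ Icc cl' cp') (hc : 0 < cl) (hc' : 0 < cl') (hp : cp < 1)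
    (hp' : cp' < 1) (hf : ∀ m, 0 < m → 0 ≤ f m) (hg : ∀ m, 0 < m → 0 ≤ g m)
    (hf' : ∀ m, 0 < m → 0 ≤ f' m) (hg' : ∀ m, 0 < m → 0 ≤ g' m) :
    Pr ys ρ xs T cl cp f g xs' T' cl' cp' f' g' :=
  ⟨l.toF hf hg hc hp, l'.toF hf' hg' hc' hp', Joint.of_dnG d d' l.hx hc hp,
    Joint.of_dnG d' d l'.hx hc' hp', LI.of l d hx hys, LI.of l' d' hx' hys⟩

theorem Pr.RP2 (P : Pr ys ρ xs T cl cp f g xs' T' cl' cp' f' g')
    (hf : ∀ t, 0 < t → 0 ≤ f t) (hg : ∀ t, 0 < t → 0 ≤ g t)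
    (rp : RampOK lam α β b xs ys T ρ cl cp) (rq : RampOK lam α β b xs' ys T' ρ cl' cp')
    (hb : 0 < b) (hβ : 0 ≤ β)
    (hys : ys ∈ Ioo (1 / 4 : ℝ) 1) (hD : Dx xs ys T ρ + Dx xs' ys T' ρ = 2 * π * b * ρ)
    (hcl : 0 < cl) (hcp : cp < 1) :
    RP2 b xs ys T ρ cl cp xs' T' cl' cp' f g :=
  RP2.of' P.p P.q.up P.J hf hg rp rq hb hβ hys hD hcl hcp

end

end RC

end Pool.Agent.Work.MP_b30479_gt.G2
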