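import Pool.Agent.Work.MP_b30479_gt.G2.S0RC
import Pool.Agent.Work.MP_b30479_gt.G2.S0RQ

/-!
# `ring | 3` at slot `0`, the exceptional case: joint move of the hinge and the inner variable

`u = x + a i`, `w = w + b i`, `v = r + t i` (flat) or `v = r + 20 t r i` (left ramp, `r ≤ 1/20`);
`u` is moved to `28/100 + T i` and `v` to `c + t i`.
-/

set_option linter.unusedSimpArgs false

namespace Pool.Agent.Work.MP_b30479_gt.G2

open VOL NumU

namespace S0R

/-- the joint move from the flat part -/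
noncomputable def rJ (c x a T w b r t : ℝ) : ℝ :=
  uu (c + w) (t + b) - uu (r + w) (t + b) + (uu (1 + r - x) (t - a) + Real.pi * (t - a)) -
    uu (c - 28 / 100) (t - T) - (uu c t - uu r t) - (uu (28 / 100) T - uu x a) +
    -(Real.pi * (t * (28 / 100 - x) + (T * c - a * r) + (c - r) * (t - b)))

/-- the joint move from the left ramp, `P` the bound of `uu (r + w)`, `V` of `uu r` -/
noncomputable def rK (P V c x a T w b r t : ℝ) : ℝ :=
  uu (c + w) (t + b) - P + (uu (1 + r - x) (20 * (t * r) - a) + Real.pi * (20 * (t * r) - a)) -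
    uu (c - 28 / 100) (t - T) - (uu c t - V) - (uu (28 / 100) T - uu x a) +
    -(Real.pi * (1 / 2) * (2 * (28 / 100 * t + T * c) + 2 * ((c - w) * (t - b)) - t -
      (2 * (x * (20 * (t * r)) + a * r) + 2 * ((r - w) * (20 * (t * r) - b)) - 20 * (t * r))))

/-- the bound of the side by the first order condition, `w = 0` -/
noncomputable def rF0 (k x T p t : ℝ) : ℝ :=
  Real.pi * -(rui k x T + (t + t)) - NumI.lnA x (rui k x T) + rM k x T p t

namespace EJ
open NumU.E

def x : E := var 0
def a : E := var 1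
def T : E := var 2
def w : E := var 3
def b : E := var 4
def r : E := var 5
def t : E := var 6
def h : E := mul (q 20 1) (mul t r)
def c28 : E := q 28 100
def J (c : E) : E :=
  add (sub (sub (sub (add (sub (E.uu (add c w) (add t b)) (E.uu (add r w) (add t b)))
    (add (E.uu (sub (add (q 1 1) r) x) (sub t a)) (mul pi (sub t a))))
    (E.uu (sub c c28) (sub t T))) (sub (E.uu c t) (E.uu r t)))
    (sub (E.uu c28 T) (E.uu x a)))
    (neg (mul pi (add (add (mul t (sub c28 x)) (sub (mul T c) (mul a r)))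
      (mul (sub c r) (sub t b)))))
def K (P V c : E) : E :=
  add (sub (sub (sub (add (sub (E.uu (add c w) (add t b)) P)
    (add (E.uu (sub (add (q 1 1) r) x) (sub h a)) (mul pi (sub h a))))
    (E.uu (sub c c28) (sub t T))) (sub (E.uu c t) V))
    (sub (E.uu c28 T) (E.uu x a)))
    (neg (mul (mul pi (q 1 2)) (sub
      (sub (add (mul (q 2 1) (add (mul c28 t) (mul T c))) (mul (q 2 1) (mul (sub c w) (sub t b)))) t)
      (sub (add (mul (q 2 1) (add (mul x h) (mul a r)))
        (mul (q 2 1) (mul (sub r w) (sub h b)))) h))))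

theorem J_val (c : E) {x a T w b r t : ℝ} :
    (J c).val [x, a, T, w, b, r, t] = rJ (c.val [x, a, T, w, b, r, t]) x a T w b r t := by
  unfold rJ
  simp only [J, EJ.x, EJ.a, EJ.T, EJ.w, EJ.b, EJ.r, EJ.t, EJ.c28, E.val, NumI.lkR]
  push_cast
  simp only [div_one]

theorem K_val (P V c : E) {x a T w b r t : ℝ} :
    (K P V c).val [x, a, T, w, b, r, t] =
      rK (P.val [x, a, T, w, b, r, t]) (V.val [x, a, T, w, b, r, t])
        (c.val [x, a, T, w, b, r, t]) x a T w b r t := by
  unfold rK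
  simp only [K, EJ.x, EJ.a, EJ.T, EJ.w, EJ.b, EJ.r, EJ.t, EJ.h, EJ.c28, E.val, NumI.lkR]
  push_cast
  simp only [div_one]

theorem h_val {x a T w b r t : ℝ} : h.val [x, a, T, w, b, r, t] = 20 * (t * r) := by
  simp only [h, EJ.r, EJ.t, E.val, NumI.lkR]
  push_cast
  simp only [div_one]

end EJ

namespace EE
open NumU.E

def F0 (a : ℤ) (b : ℕ) : E :=
  add (sub (mul pi (neg (add (ui a b) (add t t)))) (E.lnA x (ui a b))) (MS a b)

theorem F0_val (a : ℤ) (b : ℕ) {x T p t : ℝ} : (F0 a b).val [x, T, p, t] =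
    rF0 ((a : ℝ) / b) x T p t := by
  simp only [F0, MS, yy, kT, EE.x, EE.T, EE.p, EE.t, EE.v, E.val, ui_val, NumI.lkR]
  rfl

end EE

/-- the joint move from the flat part -/
theorem J_core {c r t T : ℝ} {u u' v v' w : ℂ} (hu : u'.re = 28 / 100) (hu' : u'.im = T)
    (hv : v.re = r) (hv' : v.im = t) (hc : v'.re = c) (hc' : v'.im = t) (hσ : t ≤ u.im) :
    V3 u' v' w - V3 u v w = rJ c u.re u.im T w.re w.im r t := by
  have e := uu_add_one (r - u.re) (t - u.im)
  rw [abs_of_nonpos (by linarith : t - u.im ≤ 0)] at e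
  rw [V3_rV, V3_rV, hv, hv', hc, hc', hu, hu', UU_uu u, UU_uu u', hu, hu']
  unfold rV rJ
  rw [show 1 + r - u.re = r - u.re + 1 by ring]
  linarith

/-- the joint move from the left ramp -/
theorem K_core {c r t T P V : ℝ} {u u' v v' w : ℂ} (hu : u'.re = 28 / 100) (hu' : u'.im = T)
    (hv : v.re = r) (hv' : v.im = 20 * (t * r)) (hc : v'.re = c) (hc' : v'.im = t)
    (ha : 20 * (t * r) - u.im ≤ 7 / 10000)
    (hP : uu (r + w.re) (20 * (t * r) + w.im) ≤ P) (hV : V ≤ uu r (20 * (t * r))) :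
    rK P V c u.re u.im T w.re w.im r t - 45 / 10000 ≤ V3 u' v' w - V3 u v w := by
  have hpi := Real.pi_lt_d2
  have hpi0 := Real.pi_pos
  have e := uu_add_one (r - u.re) (20 * (t * r) - u.im)
  have h5 : -Real.pi * |20 * (t * r) - u.im| ≥ Real.pi * (20 * (t * r) - u.im) - 45 / 10000 := by
    rcases le_total (20 * (t * r) - u.im) 0 with h | h
    · rw [abs_of_nonpos h]
      linarith
    · rw [abs_of_nonneg h]
      nlinarith
  rw [V3_rV, V3_rV, hv, hv', hc, hc', hu, hu', UU_uu u, UU_uu u', hu, hu']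
  unfold rV rK
  rw [show 1 + r - u.re = r - u.re + 1 by ring]
  linarith

end S0R

end Pool.Agent.Work.MP_b30479_gt.G2
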