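import Pool.Agent.Work.MP_b30479_gt.G2.M3N
import Pool.Agent.Work.MP_b30479_gt.G2.RLvl4
import Pool.Agent.Work.MP_b30479_gt.G2.RVa
import Pool.Agent.Work.MP_b30479_gt.G2.RngR
import Pool.Agent.Work.MP_b30479_gt.G2.S0RKA
import Pool.Agent.Work.MP_b30479_gt.G2.S0RW
import Pool.Agent.Work.MP_b30479_gt.G2.WLocF

/-!
# Rings on the level part: the windows of the location facts in real form
-/

namespace Pool.Agent.Work.MP_b30479_gt.G2

open Finset VOL Filter Topology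

namespace SR

/-- the bounds in real form: `x = xs`, `s = 1/2 - ys`, `t = T`, `r = ρ` -/
structure R4.Re (B : R4) (xs ys T ρ : ℝ) : Prop where
  x0 : B.x0 ≤ xs
  x1 : xs ≤ B.x1
  s0 : B.s0 ≤ 1 / 2 - ys
  s1 : 1 / 2 - ys ≤ B.s1
  q0 : B.q0 ≤ ρ - T
  q1 : ρ - T ≤ B.q1
  r0 : B.r0 ≤ ρ
  r1 : ρ ≤ B.r1
  t0 : B.t0 ≤ T
  t1 : T ≤ B.t1
  c1 : xs + (1 / 2 - ys) ≤ B.c1
  cr : xs + (1 / 2 - ys) ≤ B.cr + ρ

/-- the window of a list of bounds -/
def wd4 (x0 x1 s0 s1 q0 q1 r0 r1 t0 t1 c1 cr : ℤ) : RC.Wd :=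
  ⟨(t0 + 2000).toNat, (t1 + 2000).toNat, r0.toNat, r1.toNat, x0.toNat, x1.toNat,
    (5000 - s1).toNat, (5000 - s0).toNat,
    [⟨1, 0, 0, 1, 0, 0, 0, 0, (-q0).toNat, q0.toNat⟩,
     ⟨0, 1, 1, 0, 0, 0, 0, 0, q1.toNat, (-q1).toNat⟩,
     ⟨0, 0, 0, 0, 1, 0, 0, 1, (c1 - 5000).toNat, (5000 - c1).toNat⟩,
     ⟨0, 0, 0, 1, 1, 0, 0, 1, (cr - 5000).toNat, (5000 - cr).toNat⟩]⟩

theorem toNat_real {z : ℤ} (h : 0 ≤ z) : ((z.toNat : ℕ) : ℝ) = z := by
  have := Int.toNat_of_nonneg h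
  exact_mod_cast this

theorem toNat_sub' (z w : ℤ) (h : w = -z) : ((z.toNat : ℕ) : ℝ) - ((w.toNat : ℕ) : ℝ) = z := by
  subst h
  rcases le_total 0 z with h | h
  · rw [toNat_real h, Int.toNat_of_nonpos (by omega)]
    simp
  · rw [toNat_real (show 0 ≤ -z by omega), Int.toNat_of_nonpos h]
    push_cast
    ring

section
variable {x0 x1 s0 s1 q0 q1 r0 r1 t0 t1 c1 cr : ℤ} {xs ys T ρ : ℝ}

theorem wd4_in (h : (mk4 x0 x1 s0 s1 q0 q1 r0 r1 t0 t1 c1 cr).Re xs ys T ρ)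
    (h0 : 0 ≤ x0 ∧ 0 ≤ x1 ∧ s1 ≤ 5000 ∧ s0 ≤ 5000 ∧ 0 ≤ r0 ∧ 0 ≤ r1 ∧ -2000 ≤ t0 ∧ -2000 ≤ t1) :
    (wd4 x0 x1 s0 s1 q0 q1 r0 r1 t0 t1 c1 cr).In T ρ xs ys := by
  obtain ⟨a1, a2, a3, a4, a5, a6, a7, a8⟩ := h0
  obtain ⟨b1, b2, b3, b4, b5, b6, b7, b8, b9, b10, b11, b12⟩ := h
  simp only [mk4] at b1 b2 b3 b4 b5 b6 b7 b8 b9 b10 b11 b12
  constructor
  · simp only [wd4]
    rw [toNat_real (by omega)]
    push_cast
    linarith only [b9]
  · simp only [wd4]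
    rw [toNat_real (by omega)]
    push_cast
    linarith only [b10]
  · simp only [wd4]
    rw [toNat_real a5]
    linarith only [b7]
  · simp only [wd4]
    rw [toNat_real a6]
    linarith only [b8]
  · simp only [wd4]
    rw [toNat_real a1]
    linarith only [b1]
  · simp only [wd4]
    rw [toNat_real a2]
    linarith only [b2]
  · simp only [wd4]
    rw [toNat_real (by omega)]
    push_cast
    linarith only [b4]
  · simp only [wd4]
    rw [toNat_real (by omega)]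
    push_cast
    linarith only [b3]
  · intro l hl
    simp only [wd4, List.mem_cons, List.not_mem_nil, or_false] at hl
    rcases hl with rfl | rfl | rfl | rfl <;> unfold R6.LC.ok <;> simp only
    · rw [toNat_sub' (-q0) q0 (by ring)]
      push_cast
      linarith only [b5]
    · rw [toNat_sub' q1 (-q1) (by ring)]
      push_cast
      linarith only [b6]
    · rw [toNat_sub' (c1 - 5000) (5000 - c1) (by ring)]
      push_cast
      linarith only [b11]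
    · rw [toNat_sub' (cr - 5000) (5000 - cr) (by ring)]
      push_cast
      linarith only [b12]

end

variable {M : ℕ} {b : Fin (M + 1) → ℤ} {zs : DD (tyW b) ⊕ ZZ (tyW b) → ℂ}
variable {h : Fin M} {i j : Fin (M + 1)} {p : Fin 3} {v : ZZ (tyW b)}

theorem R4.In.re {B : R4} {xs T ρ ys : ℝ} {y z : ℂ} (I : B.In y z) (h1 : y.re = xs)
    (h2 : y.im = T) (h3 : z.re = ys - 1 / 2) (h4 : z.im = ρ) : B.Re xs ys T ρ := by
  obtain ⟨b1, b2, b3, b4, b5, b6, b7, b8, b9, b10, b11, b12⟩ := I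
  rw [h1] at b1 b2 b11 b12
  rw [h2] at b5 b6 b9 b10
  rw [h3] at b3 b4 b11 b12
  rw [h4] at b5 b6 b7 b8 b12
  constructor <;> linarith only [b1, b2, b3, b4, b5, b6, b7, b8, b9, b10, b11, b12]

/-- a window at a hinge of a ring in real form -/
theorem R4.In.adj {B : R4} (_ : Adj h i p j) (hv : v.1 = i)
    (I : B.In (ofr (b i) (zs (.inl (.inl h)))) (ofz (b i) (zs (.inr v)))) :
    B.Re (zs (.inl (.inl h))).re (1 / 2 + ofs (b i) (zs (.inr v)).re)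
      (ofs (b i) (zs (.inl (.inl h))).im) (zs (.inr v)).im := by
  subst hv
  exact I.re (ofr_re _ _) (ofr_im _ _) (by rw [ofz_re]; ring) (ofz_im _ _)

end SR

end Pool.Agent.Work.MP_b30479_gt.G2
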