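import Pool.Agent.Work.MP_b30479_gt.G2.WLocB
import Pool.Agent.Work.MP_b30479_gt.G2.RLvl6

/-!
# Rings on the level part: further bounds
-/

namespace Pool.Agent.Work.MP_b30479_gt.G2

open Finset VOL Filter Topology

namespace SR

section
variable {x0 x1 s0 s1 q0 q1 r0 r1 t0 t1 c1 cr : ℤ} {xs ys T ρ xs' T' : ℝ}

theorem R4.Re.xlo (h : (mk4 x0 x1 s0 s1 q0 q1 r0 r1 t0 t1 c1 cr).Re xs ys T ρ) (hd : 2563 ≤ x0) :
    2563 / 10000 ≤ xs := by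
  have k : (2563 : ℝ) ≤ x0 := by exact_mod_cast hd
  have := h.x0
  simp only [mk4] at this
  linarith

theorem R4.Re.tlo4 (h : (mk4 x0 x1 s0 s1 q0 q1 r0 r1 t0 t1 c1 cr).Re xs ys T ρ)
    (hd : -1280 ≤ t0) : -(128 / 1000) ≤ T := by
  have k : (-1280 : ℝ) ≤ t0 := by exact_mod_cast hd
  have := h.t0
  simp only [mk4] at this
  linarith

theorem R4.Re.tlo5 (h : (mk4 x0 x1 s0 s1 q0 q1 r0 r1 t0 t1 c1 cr).Re xs ys T ρ)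
    (hd : -1380 ≤ t0) : -(138 / 1000) ≤ T := by
  have k : (-1380 : ℝ) ≤ t0 := by exact_mod_cast hd
  have := h.t0
  simp only [mk4] at this
  linarith

end

/-- bounds at `2 | 1 | 4 | k` -/
structure Bd4 (k : Cl) (s : Bool) (xs ys T ρ : ℝ) : Prop where
  x : xs ≤ ((2980 : ℤ) : ℝ) / 10000
  c : xs + (1 / 2 - ys) ≤ ((4826 : ℤ) : ℝ) / 10000
  kp : xs - (ka4 k s : ℝ) / 10000 ≤ ρ - T
  r : k = .ring → s = true → ρ ≤ ((750 : ℤ) : ℝ) / 10000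

/-- bounds at `2 | 1 | 5 | k` -/
structure Bd5 (k : Cl) (s : Bool) (xs ys T ρ : ℝ) : Prop where
  kp : xs - (ka5 k s : ℝ) / 10000 ≤ ρ - T
  e : k = .twoE → ((240 : ℤ) : ℝ) / 10000 ≤ ρ
  z : k = .ring → s = true → (rk5 .ring true).Re xs ys T ρ

/-- the hinge of two rings -/
structure Rg (s : Bool) (xs T : ℝ) : Prop where
  x0 : ((cond s 1700 1820 : ℤ) : ℝ) / 10000 ≤ xs
  x1 : xs ≤ ((2520 : ℤ) : ℝ) / 10000
  t0 : ((cond s (-10) (-385) : ℤ) : ℝ) / 10000 ≤ T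
  t1 : T ≤ ((cond s 465 385 : ℤ) : ℝ) / 10000

theorem Rg.re {x0 x1 s0 s1 q0 q1 r0 r1 t0 t1 c1 cr : ℤ} {xs ys T ρ xs' T' : ℝ} {s : Bool}
    (h : (mk4 x0 x1 s0 s1 q0 q1 r0 r1 t0 t1 c1 cr).Re xs ys T ρ) (g : Rg s xs' T')
    {X0 q0' q1' t0' t1' c' : ℤ} (hd : X0 = cond s 1700 1820 ∧ t0' = cond s (-10) (-385) ∧
      t1' = cond s 465 385 ∧ q0' = r0 - t1' ∧ q1' = r1 - t0' ∧ c' = 2520 + s1 ∧ 0 ≤ r0) :
    (mk4 X0 2520 s0 s1 q0' q1' r0 r1 t0' t1' c' c').Re xs' ys T' ρ := by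
  obtain ⟨rfl, rfl, rfl, rfl, rfl, rfl, d7⟩ := hd
  have k7 : (0 : ℝ) ≤ r0 := by exact_mod_cast d7
  obtain ⟨b1, b2, b3, b4, b5, b6, b7, b8, b9, b10, b11, b12⟩ := h
  obtain ⟨g1, g2, g3, g4⟩ := g
  simp only [mk4] at b1 b2 b3 b4 b5 b6 b7 b8 b9 b10 b11 b12
  have hr : 0 ≤ ρ := by
    have : (0 : ℝ) ≤ (r0 : ℝ) / 10000 := by positivity
    linarith
  refine ⟨g1, g2, b3, b4, ?_, ?_, b7, b8, g3, g4, ?_, ?_⟩ <;> simp only [mk4] <;> push_cast at g1 g2 g3 g4 ⊢ <;> linarith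

/-- the other hinge of a ring with at least seven crossings -/
def P7 (r : Cl → R4) (k : Cl) (s : Bool) (xs ys T ρ : ℝ) : Prop :=
  (k ≠ .ring → (r k).Re xs ys T ρ) ∧ (k = .ring → Rg s xs T)

end SR

end Pool.Agent.Work.MP_b30479_gt.G2
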