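import Pool.Agent.Work.MP_b30479_gt.G2.RRamp
import Pool.Agent.Work.MP_b30479_gt.G2.RLvl

/-!
# The push of a ring: real form of the first order conditions
-/

namespace Pool.Agent.Work.MP_b30479_gt.G2

open Real Set VOL Filter Topology

namespace RC

theorem zt_flat (ρ : ℝ) {σ : ℝ} (h0 : -(1 / 4) ≤ σ) (h1 : σ ≤ 1 / 4) :
    LT.zt ρ σ = lv ((1 / 2 + σ) - 1 / 2) ρ := by
  rw [zt_eq, th_of_le (abs_le.2 ⟨h0, h1⟩)]
  unfold lv
  push_cast
  ring

theorem sin_lv_conj {x t : ℝ} (h : Complex.sin (π * lv x t) ≠ 0) :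
    Complex.sin (π * lv x (-t)) ≠ 0 := by
  intro h1
  apply h
  have e : lv x (-t) = (starRingEnd ℂ) (lv x t) := by
    apply Complex.ext <;> simp [lv]
  rw [e] at h1
  have h2 : (starRingEnd ℂ) (Complex.sin ((π : ℂ) * lv x t)) = 0 := by
    rw [← Complex.sin_conj, map_mul, Complex.conj_ofReal]
    exact h1
  simpa using h2

/-- nonsingular factors -/
theorem Nz_of_sin {x y T η : ℝ} (h1 : Complex.sin (π * (lv x T + 1 / 2 + lv (y - 1 / 2) η)) ≠ 0)
    (h2 : Complex.sin (π * (lv x T + 1 / 2 - lv (y - 1 / 2) η)) ≠ 0) : Nz x y T η := by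
  constructor
  · have e : lv x T + 1 / 2 + lv (y - 1 / 2) η = lv (x + y) (T + η) := by
      unfold lv
      push_cast
      ring
    rw [e] at h1
    exact h1
  · have e : lv x T + 1 / 2 - lv (y - 1 / 2) η = 1 - lv (y - x) (η - T) := by
      unfold lv
      push_cast
      ring
    rw [e] at h2
    have e2 : Complex.sin (π * (1 - lv (y - x) (η - T))) = Complex.sin (π * lv (y - x) (η - T)) := by
      rw [mul_sub, mul_one, Complex.sin_pi_sub]
    rw [e2] at h2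
    have := sin_lv_conj h2
    rwa [neg_sub] at this

theorem sin_of_Nz {x y T η : ℝ} (h : Nz x y T η) :
    Complex.sin (π * (lv x T + 1 / 2 + lv (y - 1 / 2) η)) ≠ 0 ∧
    Complex.sin (π * (lv x T + 1 / 2 - lv (y - 1 / 2) η)) ≠ 0 := by
  constructor
  · have e : lv x T + 1 / 2 + lv (y - 1 / 2) η = lv (x + y) (T + η) := by
      unfold lv
      push_cast
      ring
    rw [e]
    exact h.1
  · have e : lv x T + 1 / 2 - lv (y - 1 / 2) η = 1 - lv (y - x) (η - T) := by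
      unfold lv
      push_cast
      ring
    rw [e, mul_sub, mul_one, Complex.sin_pi_sub]
    have := sin_lv_conj h.2
    rwa [neg_sub] at this

section
variable {b ρ σ x x' T T' : ℝ}

/-- flat part, one side -/
theorem flat_le_two (h : RM b ρ (lv x T) (lv x' T') σ) (h0 : -(1 / 4) ≤ σ) (h1 : σ ≤ 0)
    (hx : 0 ≤ x) (hx1 : x < 1 / 2) (hx' : 0 ≤ x') (hx1' : x' < 1 / 2) :
    Dx x (1 / 2 + σ) T ρ + Dx x' (1 / 2 + σ) T' ρ ≤ 2 * π * b * ρ := by
  have key := h.right_flat h0 h1 (by rw [lv_re]; exact hx) (by rw [lv_re]; linarith only [h1, hx1])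
    (by rw [lv_re]; exact hx') (by rw [lv_re]; linarith only [h1, hx1'])
  rw [zt_flat ρ h0 (by linarith only [h1]), Dm_eq, Dm_eq] at key
  linarith only [key]

theorem flat_le_one (h : RM b ρ (lv x T) 0 σ) (h0 : -(1 / 4) ≤ σ) (h1 : σ ≤ 0)
    (hx : 0 ≤ x) (hx1 : x < 1 / 2) : Dx x (1 / 2 + σ) T ρ ≤ 2 * π * b * ρ := by
  have key := h.right_flat h0 h1 (by rw [lv_re]; exact hx) (by rw [lv_re]; linarith only [h1, hx1])
    (by simp) (by simp; linarith only [h1])
  rw [zt_flat ρ h0 (by linarith only [h1]), Dm_eq, Dm_zero_left] at key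
  linarith only [key]

theorem flat_eq_two (h : RM b ρ (lv x T) (lv x' T') σ) (h0 : -(1 / 4) < σ) (h1 : σ < 1 / 4)
    (hn : Nz x (1 / 2 + σ) T ρ) (hn' : Nz x' (1 / 2 + σ) T' ρ) :
    Dx x (1 / 2 + σ) T ρ + Dx x' (1 / 2 + σ) T' ρ = 2 * π * b * ρ := by
  have e := zt_flat ρ h0.le h1.le
  obtain ⟨a1, a2⟩ := sin_of_Nz hn
  obtain ⟨a3, a4⟩ := sin_of_Nz hn'
  have key := h.flat_eq h0 h1 (by rw [e]; exact a1) (by rw [e]; exact a2) (by rw [e]; exact a3)
    (by rw [e]; exact a4)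
  rw [e, Dm_eq, Dm_eq] at key
  linarith only [key]

theorem sin_half_ne {ζ : ℂ} (h0 : -(1 / 2) < ζ.re) (h1 : ζ.re < 1 / 2) :
    Complex.sin (π * (0 + 1 / 2 + ζ)) ≠ 0 ∧ Complex.sin (π * (0 + 1 / 2 - ζ)) ≠ 0 := by
  constructor
  · apply sin_ne_of_strip
    constructor <;> simp <;> linarith only [h0, h1]
  · apply sin_ne_of_strip
    constructor <;> simp <;> linarith only [h1, h0]

theorem flat_eq_one (h : RM b ρ (lv x T) 0 σ) (h0 : -(1 / 4) < σ) (h1 : σ < 1 / 4)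
    (hn : Nz x (1 / 2 + σ) T ρ) : Dx x (1 / 2 + σ) T ρ = 2 * π * b * ρ := by
  have e := zt_flat ρ h0.le h1.le
  obtain ⟨a1, a2⟩ := sin_of_Nz hn
  have a3 := sin_half_ne (ζ := lv ((1 / 2 + σ) - 1 / 2) ρ) (by rw [lv_re]; linarith only [h0])
    (by rw [lv_re]; linarith only [h1])
  have key := h.flat_eq h0 h1 (by rw [e]; exact a1) (by rw [e]; exact a2) (by rw [e]; exact a3.1)
    (by rw [e]; exact a3.2)
  rw [e, Dm_eq, Dm_zero_left] at key
  linarith only [key]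

end

/-! ### the push of a ring -/

/-- what is known about the ring variable of a maximiser; `T`, `x` one hinge -/
structure St (b ρ σ T x : ℝ) : Prop where
  neg : σ ≤ 0
  ge : -(1 / 4) - 1 / (2 * b) ≤ σ
  /-- the height of the hinge on the ramp -/
  t : σ < -(1 / 4) → 1 / 2 + σ ≤ x → T ≤ 4 * ρ * (1 / 2 + σ)
  /-- no factor is singular -/
  nz : -(1 / 4) ≤ σ → Nz x (1 / 2 + σ) T ρ
  nr : σ < -(1 / 4) → ¬ (x = 1 / 2 + σ ∧ T = 4 * ρ * (1 / 2 + σ))

section
variable {lam α β b ρ σ xs ys T cl cp xs' T' cl' cp' x x' : ℝ}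

theorem St.adm (h : St b ρ σ T x) (hx : x ∈ Icc cl cp) (hσ : σ < -(1 / 4)) :
    Adm b T ρ cl cp x (1 / 2 + σ) :=
  ⟨hx.1, hx.2, by linarith only [h, h.ge], by linarith only [hσ], fun h1 => h.t hσ h1, h.nr hσ⟩

theorem St.lo (h : St b ρ σ T x) (hb : 4 ≤ b) : -(1 / 2) < σ := by
  have h1 : 1 / (2 * b) ≤ 1 / 8 := by
    apply one_div_le_one_div_of_le (by norm_num)
    linarith only [hb]
  linarith only [h1, h, h.ge]

/-- the first order conditions of a ring with two hinges push the hinge `x` back, with slacks `f`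
(up) and `g` (down) -/
structure RP2 (b xs ys T ρ cl cp xs' T' cl' cp' : ℝ) (f g : ℝ → ℝ) : Prop where
  lev : ∀ x x' y, x ∈ Icc cl cp → x' ∈ Icc cl' cp' → y ∈ Icc (1 / 4 : ℝ) (1 / 2) →
    Nz x y T ρ → Nz x' y T' ρ → |gh x' - gh xs'| ≤ |gh x - gh xs| →
    Dx x y T ρ + Dx x' y T' ρ ≤ 2 * π * b * ρ →
    (1 / 4 < y → Dx x y T ρ + Dx x' y T' ρ = 2 * π * b * ρ) →
    (xs < x → Sx x y T ρ < Sx xs ys T ρ + f (gh x - gh xs)) ∧
      (x < xs → Sx xs ys T ρ < Sx x y T ρ + g (gh xs - gh x))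
  ramp : ∀ x x' y, Adm b T ρ cl cp x y → Adm b T' ρ cl' cp' x' y →
    |gh x' - gh xs'| ≤ |gh x - gh xs| → Fr x y T ρ + Fr x' y T' ρ ≤ Rr b y ρ →
    (xs < x → Sx x y T (4 * ρ * y) < Sx xs ys T ρ + f (gh x - gh xs)) ∧
      (x < xs → Sx xs ys T ρ < Sx x y T (4 * ρ * y) + g (gh xs - gh x))

/-- the same for a ring at an end -/
structure RP1 (b xs ys T ρ cl cp : ℝ) (f g : ℝ → ℝ) : Prop where
  lev : ∀ x y, x ∈ Icc cl cp → y ∈ Icc (1 / 4 : ℝ) (1 / 2) → Nz x y T ρ →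
    Dx x y T ρ ≤ 2 * π * b * ρ → (1 / 4 < y → Dx x y T ρ = 2 * π * b * ρ) →
    (xs < x → Sx x y T ρ < Sx xs ys T ρ + f (gh x - gh xs)) ∧
      (x < xs → Sx xs ys T ρ < Sx x y T ρ + g (gh xs - gh x))
  ramp : ∀ x y, Adm b T ρ cl cp x y → Fr x y T ρ ≤ Rr b y ρ →
    (xs < x → Sx x y T (4 * ρ * y) < Sx xs ys T ρ + f (gh x - gh xs)) ∧
      (x < xs → Sx xs ys T ρ < Sx x y T (4 * ρ * y) + g (gh xs - gh x))

/-- **Interior ring, no slack.** -/
theorem RP2.of (hp : LH xs ys T ρ cl cp) (hq : LH xs' ys T' ρ cl' cp')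
    (hd : DnOK xs T cl cp xs' T' cl' cp' ys ρ) (rp : RampOK lam α β b xs ys T ρ cl cp)
    (rq : RampOK lam α β b xs' ys T' ρ cl' cp') (hb : 0 < b) (hβ : 0 ≤ β)
    (hys : ys ∈ Ioo (1 / 4 : ℝ) 1) (hD : Dx xs ys T ρ + Dx xs' ys T' ρ = 2 * π * b * ρ)
    (hcl : 0 < cl) (hcp : cp < 1) :
    RP2 b xs ys T ρ cl cp xs' T' cl' cp' (fun _ => 0) (fun _ => 0) := by
  constructor
  · intro x x' y hx hx' hy hn hn' hN F1 F2
    rw [← hD] at F1 F2
    simpa only [add_zero] using level_two hp hq hd ⟨by linarith only [hys, hys.1], hys.2⟩ hx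
      ⟨by linarith only [hcl, hx, hx.1], by linarith only [hcp, hx, hx.2]⟩ hx' hy hn hn' hN F1 F2 hys.1.le
  · intro x x' y ha ha' hN foc
    simpa only [add_zero] using ramp_two rp rq hb hβ hD ha ha' hN foc

/-- **Ring at an end, no slack.** -/
theorem RP1.of (hp : LH xs ys T ρ cl cp) (hd : DnOK1 xs T cl cp ys ρ)
    (rp : RampOK1 b xs ys T ρ cl cp) (hys : ys ∈ Ioo (1 / 4 : ℝ) 1)
    (hD : Dx xs ys T ρ = 2 * π * b * ρ) (hcl : 0 < cl) (hcp : cp < 1) :
    RP1 b xs ys T ρ cl cp (fun _ => 0) (fun _ => 0) := by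
  constructor
  · intro x y hx hy hn F1 F2
    rw [← hD] at F1 F2
    simpa only [add_zero] using level_one hp hd ⟨by linarith only [hys, hys.1], hys.2⟩ hx
      ⟨by linarith only [hcl, hx, hx.1], by linarith only [hcp, hx, hx.2]⟩ hy hn F1 F2 hys.1.le
  · intro x y ha foc
    simpa only [add_zero] using ramp_one rp ha foc

/-- **The push of an interior ring.** -/
theorem push_two {f g : ℝ → ℝ} (H : RP2 b xs ys T ρ cl cp xs' T' cl' cp' f g)
    (hM : RM b ρ (lv x T) (lv x' T') σ) (s : St b ρ σ T x) (s' : St b ρ σ T' x')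
    (hx : x ∈ Icc cl cp) (hx' : x' ∈ Icc cl' cp') (hcl : 0 < cl) (hcl' : 0 < cl')
    (hcp : cp < 1 / 2) (hcp' : cp' < 1 / 2) (hN : |gh x' - gh xs'| ≤ |gh x - gh xs|) :
    (xs < x → S4 0 (lv x T) (LT.zt ρ σ) < S4 0 (lv xs T) (lv (ys - 1 / 2) ρ) +
      f (gh x - gh xs)) ∧
    (x < xs → S4 0 (lv xs T) (lv (ys - 1 / 2) ρ) < S4 0 (lv x T) (LT.zt ρ σ) +
      g (gh xs - gh x)) := by
  have h4 := hM.b4
  have hlo := s.lo h4
  rw [S4_eq]
  rcases le_or_gt (-(1 / 4)) σ with hσ | hσ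
  · rw [zt_flat ρ hσ (by linarith only [s, s.neg]), S4_eq]
    exact H.lev x x' _ hx hx' ⟨by linarith only [hσ], by linarith only [s, s.neg]⟩ (s.nz hσ) (s'.nz hσ) hN
      (flat_le_two hM hσ s.neg (by linarith only [hcl, hx, hx.1]) (by linarith only [hcp, hx, hx.2])
        (by linarith only [hcl', hx', hx'.1]) (by linarith only [hcp', hx', hx'.2]))
      (fun hy => flat_eq_two hM (by linarith only [hy]) (by linarith only [s, s.neg]) (s.nz hσ) (s'.nz hσ))
  · rw [zt_lv ρ hσ.le, S4_eq]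
    exact H.ramp x x' _ (s.adm hx hσ) (s'.adm hx' hσ) hN
      (foc_two hM hlo hσ (by linarith only [hcl, hx, hx.1]) (by linarith only [hcp, hx, hx.2]) (by linarith only [hcl', hx', hx'.1])
        (by linarith only [hcp', hx', hx'.2]))

/-- **The push of a ring at an end.** -/
theorem push_one {f g : ℝ → ℝ} (H : RP1 b xs ys T ρ cl cp f g)
    (hM : RM b ρ (lv x T) 0 σ) (s : St b ρ σ T x)
    (hx : x ∈ Icc cl cp) (hcl : 0 < cl) (hcp : cp < 1 / 2) :
    (xs < x → S4 0 (lv x T) (LT.zt ρ σ) < S4 0 (lv xs T) (lv (ys - 1 / 2) ρ) +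
      f (gh x - gh xs)) ∧
    (x < xs → S4 0 (lv xs T) (lv (ys - 1 / 2) ρ) < S4 0 (lv x T) (LT.zt ρ σ) +
      g (gh xs - gh x)) := by
  have h4 := hM.b4
  have hlo := s.lo h4
  rw [S4_eq]
  rcases le_or_gt (-(1 / 4)) σ with hσ | hσ
  · rw [zt_flat ρ hσ (by linarith only [s, s.neg]), S4_eq]
    exact H.lev x _ hx ⟨by linarith only [hσ], by linarith only [s, s.neg]⟩ (s.nz hσ)
      (flat_le_one hM hσ s.neg (by linarith only [hcl, hx, hx.1]) (by linarith only [hcp, hx, hx.2]))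
      (fun hy => flat_eq_one hM (by linarith only [hy]) (by linarith only [s, s.neg]) (s.nz hσ))
  · rw [zt_lv ρ hσ.le, S4_eq]
    exact H.ramp x _ (s.adm hx hσ) (foc_one hM hlo hσ (by linarith only [hcl, hx, hx.1]) (by linarith only [hcp, hx, hx.2]))

/-! ### the ring variable if the hinges are at the saddle point -/

/-- contribution of a hinge at the saddle point -/
structure LI (xs ys T ρ : ℝ) : Prop where
  up : ∀ y, ys < y → y ≤ 1 / 2 → Dx xs y T ρ < Dx xs ys T ρ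
  dn : ∀ y, 1 / 4 ≤ y → y < ys → Nz xs y T ρ → Dx xs ys T ρ < Dx xs y T ρ

theorem LI.of (h : LH xs ys T ρ cl cp) (hd : DnG xs T cl cp ys ρ) (hx : xs ∈ Icc cl cp)
    (hys : ys ∈ Ioc (1 / 4 : ℝ) (1 / 2)) : LI xs ys T ρ := by
  constructor
  · intro y h1 h2
    refine h.up xs y hx h1 h2 ?_
    rw [sub_self, abs_zero, sub_pos]
    exact (gh_lt ⟨by linarith only [h1, h2, hys, hys.1], by linarith only [h1, h2, hys.2]⟩ ⟨by linarith only [h1, hys, hys.1], by linarith only [h2]⟩).2 h1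
  · intro y h1 h2 hn
    refine hd xs y hx h1 h2 hn ?_
    rw [sub_self, abs_zero, sub_pos]
    exact (gh_lt ⟨by linarith only [h1], by linarith only [h2, hys, hys.2]⟩ ⟨by linarith only [h1, h2, hys.1], by linarith only [h1, h2, hys, hys.2]⟩).2 h2

/-- **Inner statement, interior ring.** -/
theorem in_two (hp : LI xs ys T ρ) (hq : LI xs' ys T' ρ)
    (rp : RampOK lam α β b xs ys T ρ cl cp) (rq : RampOK lam α β b xs' ys T' ρ cl' cp')
    (hα : 0 < α) (hD : Dx xs ys T ρ + Dx xs' ys T' ρ = 2 * π * b * ρ) (hys : 1 / 4 < ys)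
    (hM : RM b ρ (lv xs T) (lv xs' T') σ) (s : St b ρ σ T xs) (s' : St b ρ σ T' xs')
    (hx : xs ∈ Icc cl cp) (hx' : xs' ∈ Icc cl' cp') (hcl : 0 < cl) (hcl' : 0 < cl')
    (hcp : cp < 1 / 2) (hcp' : cp' < 1 / 2) : 1 / 2 + σ = ys := by
  have h4 := hM.b4
  have hlo := s.lo h4
  rcases le_or_gt (-(1 / 4)) σ with hσ | hσ
  · have F1 := flat_le_two hM hσ s.neg (by linarith only [hcl, hx, hx.1]) (by linarith only [hcp, hx, hx.2])
        (by linarith only [hcl', hx', hx'.1]) (by linarith only [hcp', hx', hx'.2])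
    rcases lt_trichotomy (1 / 2 + σ) ys with h | h | h
    · have h1 := hp.dn _ (by linarith only [hσ]) h (s.nz hσ)
      have h2 := hq.dn _ (by linarith only [hσ]) h (s'.nz hσ)
      exfalso
      linarith only [hD, F1, h1, h2]
    · exact h
    · have F2 := flat_eq_two hM (by linarith only [hys, h]) (by linarith only [hys, h, s, s.neg]) (s.nz hσ) (s'.nz hσ)
      have h1 := hp.up _ h (by linarith only [s, s.neg])
      have h2 := hq.up _ h (by linarith only [s, s.neg])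
      exfalso
      linarith only [hD, F2, h1, h2]
  · have h1 := ramp_two_in rp rq hα (by linarith only [h4, hlo, hσ]) hD (s.adm hx hσ) (s'.adm hx' hσ)
    have h2 := foc_two hM hlo hσ (by linarith only [hcl, hx, hx.1]) (by linarith only [hcp, hx, hx.2]) (by linarith only [hcl', hx', hx'.1])
        (by linarith only [hcp', hx', hx'.2])
    exfalso
    linarith only [h1, h2]

/-- **Inner statement, ring at an end.** -/
theorem in_one (hp : LI xs ys T ρ) (rp : RampOK1 b xs ys T ρ cl cp)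
    (hD : Dx xs ys T ρ = 2 * π * b * ρ) (hys : 1 / 4 < ys)
    (hM : RM b ρ (lv xs T) 0 σ) (s : St b ρ σ T xs)
    (hx : xs ∈ Icc cl cp) (hcl : 0 < cl) (hcp : cp < 1 / 2) : 1 / 2 + σ = ys := by
  have h4 := hM.b4
  have hlo := s.lo h4
  rcases le_or_gt (-(1 / 4)) σ with hσ | hσ
  · have F1 := flat_le_one hM hσ s.neg (by linarith only [hcl, hx, hx.1]) (by linarith only [hcp, hx, hx.2])
    rcases lt_trichotomy (1 / 2 + σ) ys with h | h | h
    · have h1 := hp.dn _ (by linarith only [hσ]) h (s.nz hσ)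
      exfalso
      linarith only [hD, F1, h1]
    · exact h
    · have F2 := flat_eq_one hM (by linarith only [hys, h]) (by linarith only [hys, h, s, s.neg]) (s.nz hσ)
      have h1 := hp.up _ h (by linarith only [s, s.neg])
      exfalso
      linarith only [hD, F2, h1]
  · have h1 := rp.eq _ (s.adm hx hσ)
    have h2 := foc_one hM hlo hσ (by linarith only [hcl, hx, hx.1]) (by linarith only [hcp, hx, hx.2])
    exfalso
    linarith only [h1, h2]

end

end RC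

end Pool.Agent.Work.MP_b30479_gt.G2
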