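import Pool.Agent.Work.MP_b30479_gt.G2.RR4T

/-!
# Rings at an end with the ring variable on the ramp, `b = 4`: kernel evaluation on a box

The derivative of the ring variable is known at the saddle point: `P - Q = 8 π ρ`.
-/

namespace Pool.Agent.Work.MP_b30479_gt.G2

open VOL NumI

namespace RQ4

open RC RQ
open LR (rat1 mulq1)
open RZ1 (negE enc4)

/-- lower bounds of `1/2 - xs - s`, one more if `xs ≤ x` -/
noncomputable def ag3 (cm c cr ek ad an sh : ℕ) (x t r : ℝ) : ℝ :=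
  cond (Nat.beq cm 3) (((5000 - sh : ℕ) : ℝ) / 10000 - x) (ag cm c cr ek ad an t r)

def agF3 (cm c cr ek ad an sh : ℕ) (X R q : F) (C : F → Bool) : Bool :=
  cond (Nat.beq cm 3)
    (cond (posF ((F.rat (5000 - sh) 10000).sub X)) (C ((F.rat (5000 - sh) 10000).sub X)) false)
    (agF cm c cr ek ad an R q C)

theorem agF3_some {cm c cr ek ad an sh : ℕ} {X R q : F} {C : F → Bool} {ε : ℕ → ℝ} {x t r : ℝ}
    (hε : ∀ i, |ε i| ≤ 1) (h0 : X.Encl ε x) (h1 : R.Encl ε r) (h2 : q.Encl ε (r - t))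
    (hc : c + 1 ≤ 5000) (ha : 0 < an) (h : agF3 cm c cr ek ad an sh X R q C = true) :
    ∃ z : F, z.Encl ε (ag3 cm c cr ek ad an sh x t r) ∧ 0 < ag3 cm c cr ek ad an sh x t r ∧
      C z = true := by
  unfold agF3 at h
  unfold ag3
  rcases e0 : Nat.beq cm 3 with _ | _
  · rw [e0, cond_false] at h
    rw [cond_false]
    exact agF_some hε h1 h2 hc ha h
  · rw [e0, cond_true] at h
    rw [cond_true]
    obtain ⟨g, h⟩ := cond_ff h
    have k := F.Encl.sub (r4_encl (5000 - sh) ε) h0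
    exact ⟨_, k, posF_spec hε k g, h⟩

/-! ### the real statements -/

/-- the increment of the side of the hinge from `x` to `z` -/
noncomputable def sd (rg z : ℕ) (x t : ℝ) : ℝ :=
  cond (Nat.beq rg 0) 0 (2 * (lnA ((z : ℝ) / 10000) t - lnA x t))

noncomputable def PE (x t y r : ℝ) : Prop :=
  0 < An x t y r + Ln x t y r + Hb x t y r - Rr ((4 : ℕ) : ℝ) y r

noncomputable def PV1 (p0 : ℕ) (u t r : ℝ) : Prop :=
  0 < Real.pi * (8 * r) - lnA (((5000 - p0 : ℕ) : ℝ) / 10000) (t + r) + lnA u (r - t)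

noncomputable def PV2 (m : ℕ) (v t r : ℝ) : Prop :=
  0 < lnA (((5000 - m : ℕ) : ℝ) / 10000) (t + r) - lnA v (r - t) - Real.pi * (8 * r)

noncomputable def PB1 (rg z p0 : ℕ) (x t y r : ℝ) : Prop :=
  0 < 2 * An x t y r + Hb x t y r - Rr ((4 : ℕ) : ℝ) y r + sd rg z x t -
    2 * lnA (((5000 - p0 : ℕ) : ℝ) / 10000) (t + r) + Real.pi * (8 * r)

noncomputable def PB2 (rg z : ℕ) (v x t y r : ℝ) : Prop :=
  0 < 2 * An x t y r + Hb x t y r - Rr ((4 : ℕ) : ℝ) y r + sd rg z x t -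
    2 * lnA v (r - t) - Real.pi * (8 * r)

noncomputable def PC1 (rg z m : ℕ) (x t y r : ℝ) : Prop :=
  0 < 2 * Ln x t y r + Hb x t y r - Rr ((4 : ℕ) : ℝ) y r - sd rg z x t +
    2 * lnA (((5000 - m : ℕ) : ℝ) / 10000) (t + r) - Real.pi * (8 * r)

noncomputable def PC2 (rg z : ℕ) (u x t y r : ℝ) : Prop :=
  0 < 2 * Ln x t y r + Hb x t y r - Rr ((4 : ℕ) : ℝ) y r - sd rg z x t +
    2 * lnA u (r - t) + Real.pi * (8 * r)

/-- upper bounds of `1/2 - xs - s`, the second one if `x ≤ xs` -/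
noncomputable def bg (k sl a : ℕ) (x : ℝ) : ℝ :=
  cond (Nat.beq k 0) (((5000 - sl - a : ℕ) : ℝ) / 10000) (((5000 - sl : ℕ) : ℝ) / 10000 - x)

def bgF (k sl a : ℕ) (X : F) : F :=
  cond (Nat.beq k 0) (F.rat (5000 - sl - a) 10000) ((F.rat (5000 - sl) 10000).sub X)

lemma bgF_encl {k sl a : ℕ} {X : F} {ε : ℕ → ℝ} {x : ℝ} (h : X.Encl ε x) :
    (bgF k sl a X).Encl ε (bg k sl a x) := by
  unfold bgF bg
  rcases Nat.beq k 0 with _ | _
  · exact F.Encl.sub (r4_encl (5000 - sl) ε) h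
  · exact r4_encl (5000 - sl - a) ε

/-! ### leaves -/

def w8F (R : F) : F := F.pi.mul (F.mulq 8 1 R)

lemma w8F_encl {R : F} {ε : ℕ → ℝ} {r : ℝ} (hε : ∀ i, |ε i| ≤ 1) (h : R.Encl ε r) :
    (w8F R).Encl ε (Real.pi * (8 * r)) := by
  have h1 := mulq1 (n := 8) hε h
  push_cast at h1
  exact F.Encl.mul hε (F.Encl.pi ε) h1

/-- `2 (lnA z T - lnA X T)` or nothing -/
def sdF (rg z : ℕ) (X T : F) (C : F → Bool) : Bool :=
  cond (Nat.beq rg 0) (C (F.rat 0 1))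
    (bO (F.lnA (F.rat z 10000) T) fun aa => bO (F.lnA X T) fun ax => C (F.mulq 2 1 (aa.sub ax)))

theorem sdF_some {rg z : ℕ} {X T : F} {C : F → Bool} {ε : ℕ → ℝ} {x t : ℝ}
    (hε : ∀ i, |ε i| ≤ 1) (h1 : X.Encl ε x) (h2 : T.Encl ε t) (h : sdF rg z X T C = true) :
    ∃ w : F, w.Encl ε (sd rg z x t) ∧ C w = true := by
  unfold sdF at h
  unfold sd
  rcases e0 : Nat.beq rg 0 with _ | _
  · rw [e0, cond_false] at h
    rw [cond_false]
    obtain ⟨aa, haa, h⟩ := bO_some h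
    obtain ⟨ax, hax, h⟩ := bO_some h
    exact ⟨_, two_encl hε (F.Encl.sub (F.Encl.lnA hε (r4_encl z ε) h2 haa)
      (F.Encl.lnA hε h1 h2 hax)), h⟩
  · rw [e0, cond_true] at h
    rw [cond_true]
    have := rat1 0 ε
    rw [Nat.cast_zero] at this
    exact ⟨_, this, h⟩

def gE (lf nf : ℕ) (X T Y H d s W4 : F) : Bool :=
  bO (F.lnA (X.add Y) (T.add H)) fun au => bO (F.lnB (X.add Y) (T.add H)) fun bu =>
  lF lf d s fun L => nF nf d s fun N =>
    posF ((au.add L).add ((W4.mul (N.sub bu)).sub (rrF 4 Y W4)))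

def gV1 (p0 cm c cr ek ad an sh : ℕ) (X T R q : F) : Bool :=
  bO (F.lnA (F.rat (5000 - p0) 10000) (T.add R)) fun Pu =>
  agF3 cm c cr ek ad an sh X R q fun u => bO (F.lnA u q) fun Lc =>
    posF (((w8F R).sub Pu).add Lc)

def gV0 (p0 cm c cr ek ad an : ℕ) (T R q : F) : Bool :=
  bO (F.lnA (F.rat (5000 - p0) 10000) (T.add R)) fun Pu =>
  agF cm c cr ek ad an R q fun u => bO (F.lnA u q) fun Lc =>
    posF (((w8F R).sub Pu).add Lc)

def gV2 (k m sl a : ℕ) (X T R q : F) : Bool :=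
  bO (F.lnA (F.rat (5000 - m) 10000) (T.add R)) fun Pl =>
  bO (F.lnA (bgF k sl a X) q) fun Qu => posF ((Pl.sub Qu).sub (w8F R))

def gB1 (rg z p0 nf : ℕ) (X T Y R H d s W4 : F) : Bool :=
  bO (F.lnA (X.add Y) (T.add H)) fun au => bO (F.lnB (X.add Y) (T.add H)) fun bu =>
  nF nf d s fun N => sdF rg z X T fun S =>
  bO (F.lnA (F.rat (5000 - p0) 10000) (T.add R)) fun Pu =>
    posF (((((au.add au).add ((W4.mul (N.sub bu)).sub (rrF 4 Y W4))).add S).sub
      (F.mulq 2 1 Pu)).add (w8F R))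

def gB2 (rg z k sl a nf : ℕ) (X T Y R q H d s W4 : F) : Bool :=
  bO (F.lnA (X.add Y) (T.add H)) fun au => bO (F.lnB (X.add Y) (T.add H)) fun bu =>
  nF nf d s fun N => sdF rg z X T fun S => bO (F.lnA (bgF k sl a X) q) fun Qu =>
    posF (((((au.add au).add ((W4.mul (N.sub bu)).sub (rrF 4 Y W4))).add S).sub
      (F.mulq 2 1 Qu)).sub (w8F R))

def gC1 (rg z m lf nf : ℕ) (X T Y R H d s W4 : F) : Bool :=
  bO (F.lnB (X.add Y) (T.add H)) fun bu =>
  lF lf d s fun L => nF nf d s fun N => sdF rg z X T fun S =>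
  bO (F.lnA (F.rat (5000 - m) 10000) (T.add R)) fun Pl =>
    posF (((((L.add L).add ((W4.mul (N.sub bu)).sub (rrF 4 Y W4))).sub S).add
      (F.mulq 2 1 Pl)).sub (w8F R))

def gC2 (rg z cm c cr ek ad an sh lf nf : ℕ) (X T Y R q H d s W4 : F) : Bool :=
  bO (F.lnB (X.add Y) (T.add H)) fun bu =>
  lF lf d s fun L => nF nf d s fun N => sdF rg z X T fun S =>
  agF3 cm c cr ek ad an sh X R q fun u => bO (F.lnA u q) fun Lc =>
    posF (((((L.add L).add ((W4.mul (N.sub bu)).sub (rrF 4 Y W4))).sub S).add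
      (F.mulq 2 1 Lc)).add (w8F R))

section
variable {rg z c cr ek ad an sh sl p0 m a cm k lf nf q0 q1 : ℕ} {ε : ℕ → ℝ}
  {X T Y R q H d s W4 : F} {x t y r : ℝ}

lemma hb_le {Nr : ℝ} (D : Dmn q0 q1 x t y r) (h : Nr ≤ -YY (lv (y - x) (4 * (r * y) - t))) :
    4 * r * (Nr - lnB (x + y) (t + 4 * (r * y))) ≤ Hb x t y r := by
  unfold Hb
  exact mul_le_mul_of_nonneg_left (by linarith only [h]) (by linarith only [D, D.r0])

theorem gE_sound (E : RQ.En ε X T Y R q H d s W4 x t y r) (D : Dmn q0 q1 x t y r)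
    (h : gE lf nf X T Y H d s W4 = true) : PE x t y r := by
  have hε := E.e
  obtain ⟨au, hau, h⟩ := bO_some h
  obtain ⟨bu, hbu, h⟩ := bO_some h
  obtain ⟨L, Lr, eL, hLr, h⟩ := lF_some hε E.d E.s D.dl D.dr D.dn h
  obtain ⟨N, Nr, eN, hNr, h⟩ := nF_some hε E.d E.s D.dl D.dr D.dt h
  have kx := F.Encl.add E.X E.Y
  have kt := F.Encl.add E.T E.H
  have eau := F.Encl.lnA hε kx kt hau
  have ebu := F.Encl.lnB hε kx kt hbu
  have k1 := F.Encl.add (F.Encl.add eau eL) (F.Encl.sub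
    (F.Encl.mul hε E.W (F.Encl.sub eN ebu)) (rrF_encl (b := 4) (by norm_num) hε E.Y E.W))
  have p1 := posF_spec hε k1 h
  have hw := hb_le D hNr
  unfold PE An Ln
  linarith only [hLr, p1, hw]

theorem gV1_sound (hc : c + 1 ≤ 5000) (ha : 0 < an) (E : RQ.En ε X T Y R q H d s W4 x t y r)
    (h : gV1 p0 cm c cr ek ad an sh X T R q = true) :
    0 < ag3 cm c cr ek ad an sh x t r ∧ PV1 p0 (ag3 cm c cr ek ad an sh x t r) t r := by
  have hε := E.e
  obtain ⟨Pu, hPu, h⟩ := bO_some h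
  obtain ⟨u, eu, hu, h⟩ := agF3_some hε E.X E.R E.q hc ha h
  obtain ⟨Lc, hLc, h⟩ := bO_some h
  have e1 := F.Encl.lnA hε (r4_encl (5000 - p0) ε) (F.Encl.add E.T E.R) hPu
  have e2 := F.Encl.lnA hε eu E.q hLc
  have p1 := posF_spec hε (F.Encl.add (F.Encl.sub (w8F_encl hε E.R) e1) e2) h
  exact ⟨hu, p1⟩

theorem gV0_sound (hc : c + 1 ≤ 5000) (ha : 0 < an) (E : RQ.En ε X T Y R q H d s W4 x t y r)
    (h : gV0 p0 cm c cr ek ad an T R q = true) :
    0 < ag cm c cr ek ad an t r ∧ PV1 p0 (ag cm c cr ek ad an t r) t r := by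
  have hε := E.e
  obtain ⟨Pu, hPu, h⟩ := bO_some h
  obtain ⟨u, eu, hu, h⟩ := agF_some hε E.R E.q hc ha h
  obtain ⟨Lc, hLc, h⟩ := bO_some h
  have e1 := F.Encl.lnA hε (r4_encl (5000 - p0) ε) (F.Encl.add E.T E.R) hPu
  have e2 := F.Encl.lnA hε eu E.q hLc
  have p1 := posF_spec hε (F.Encl.add (F.Encl.sub (w8F_encl hε E.R) e1) e2) h
  exact ⟨hu, p1⟩

theorem gV2_sound (E : RQ.En ε X T Y R q H d s W4 x t y r)
    (h : gV2 k m sl a X T R q = true) : PV2 m (bg k sl a x) t r := by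
  have hε := E.e
  obtain ⟨Pl, hPl, h⟩ := bO_some h
  obtain ⟨Qu, hQu, h⟩ := bO_some h
  have e1 := F.Encl.lnA hε (r4_encl (5000 - m) ε) (F.Encl.add E.T E.R) hPl
  have e2 := F.Encl.lnA hε (bgF_encl (k := k) (sl := sl) (a := a) E.X) E.q hQu
  exact posF_spec hε (F.Encl.sub (F.Encl.sub e1 e2) (w8F_encl hε E.R)) h

theorem gB1_sound (E : RQ.En ε X T Y R q H d s W4 x t y r) (D : Dmn q0 q1 x t y r)
    (h : gB1 rg z p0 nf X T Y R H d s W4 = true) : PB1 rg z p0 x t y r := by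
  have hε := E.e
  obtain ⟨au, hau, h⟩ := bO_some h
  obtain ⟨bu, hbu, h⟩ := bO_some h
  obtain ⟨N, Nr, eN, hNr, h⟩ := nF_some hε E.d E.s D.dl D.dr D.dt h
  obtain ⟨S, eS, h⟩ := sdF_some hε E.X E.T h
  obtain ⟨Pu, hPu, h⟩ := bO_some h
  have kx := F.Encl.add E.X E.Y
  have kt := F.Encl.add E.T E.H
  have eau := F.Encl.lnA hε kx kt hau
  have ebu := F.Encl.lnB hε kx kt hbu
  have e1 := F.Encl.lnA hε (r4_encl (5000 - p0) ε) (F.Encl.add E.T E.R) hPu
  have p1 := posF_spec hε (F.Encl.add (F.Encl.sub (F.Encl.add (F.Encl.add (F.Encl.add eau eau)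
    (F.Encl.sub (F.Encl.mul hε E.W (F.Encl.sub eN ebu))
      (rrF_encl (b := 4) (by norm_num) hε E.Y E.W))) eS) (two_encl hε e1)) (w8F_encl hε E.R)) h
  have hw := hb_le D hNr
  unfold PB1 An
  linarith only [p1, hw]

theorem gB2_sound (E : RQ.En ε X T Y R q H d s W4 x t y r) (D : Dmn q0 q1 x t y r)
    (h : gB2 rg z k sl a nf X T Y R q H d s W4 = true) :
    PB2 rg z (bg k sl a x) x t y r := by
  have hε := E.e
  obtain ⟨au, hau, h⟩ := bO_some h
  obtain ⟨bu, hbu, h⟩ := bO_some h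
  obtain ⟨N, Nr, eN, hNr, h⟩ := nF_some hε E.d E.s D.dl D.dr D.dt h
  obtain ⟨S, eS, h⟩ := sdF_some hε E.X E.T h
  obtain ⟨Qu, hQu, h⟩ := bO_some h
  have kx := F.Encl.add E.X E.Y
  have kt := F.Encl.add E.T E.H
  have eau := F.Encl.lnA hε kx kt hau
  have ebu := F.Encl.lnB hε kx kt hbu
  have e1 := F.Encl.lnA hε (bgF_encl (k := k) (sl := sl) (a := a) E.X) E.q hQu
  have p1 := posF_spec hε (F.Encl.sub (F.Encl.sub (F.Encl.add (F.Encl.add (F.Encl.add eau eau)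
    (F.Encl.sub (F.Encl.mul hε E.W (F.Encl.sub eN ebu))
      (rrF_encl (b := 4) (by norm_num) hε E.Y E.W))) eS) (two_encl hε e1)) (w8F_encl hε E.R)) h
  have hw := hb_le D hNr
  unfold PB2 An
  linarith only [p1, hw]

theorem gC1_sound (E : RQ.En ε X T Y R q H d s W4 x t y r) (D : Dmn q0 q1 x t y r)
    (h : gC1 rg z m lf nf X T Y R H d s W4 = true) : PC1 rg z m x t y r := by
  have hε := E.e
  obtain ⟨bu, hbu, h⟩ := bO_some h
  obtain ⟨L, Lr, eL, hLr, h⟩ := lF_some hε E.d E.s D.dl D.dr D.dn h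
  obtain ⟨N, Nr, eN, hNr, h⟩ := nF_some hε E.d E.s D.dl D.dr D.dt h
  obtain ⟨S, eS, h⟩ := sdF_some hε E.X E.T h
  obtain ⟨Pl, hPl, h⟩ := bO_some h
  have kx := F.Encl.add E.X E.Y
  have kt := F.Encl.add E.T E.H
  have ebu := F.Encl.lnB hε kx kt hbu
  have e1 := F.Encl.lnA hε (r4_encl (5000 - m) ε) (F.Encl.add E.T E.R) hPl
  have p1 := posF_spec hε (F.Encl.sub (F.Encl.add (F.Encl.sub (F.Encl.add (F.Encl.add eL eL)
    (F.Encl.sub (F.Encl.mul hε E.W (F.Encl.sub eN ebu))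
      (rrF_encl (b := 4) (by norm_num) hε E.Y E.W))) eS) (two_encl hε e1)) (w8F_encl hε E.R)) h
  have hw := hb_le D hNr
  unfold PC1 Ln
  linarith only [hLr, p1, hw]

theorem gC2_sound (hc : c + 1 ≤ 5000) (ha : 0 < an) (E : RQ.En ε X T Y R q H d s W4 x t y r)
    (D : Dmn q0 q1 x t y r)
    (h : gC2 rg z cm c cr ek ad an sh lf nf X T Y R q H d s W4 = true) :
    0 < ag3 cm c cr ek ad an sh x t r ∧
      PC2 rg z (ag3 cm c cr ek ad an sh x t r) x t y r := by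
  have hε := E.e
  obtain ⟨bu, hbu, h⟩ := bO_some h
  obtain ⟨L, Lr, eL, hLr, h⟩ := lF_some hε E.d E.s D.dl D.dr D.dn h
  obtain ⟨N, Nr, eN, hNr, h⟩ := nF_some hε E.d E.s D.dl D.dr D.dt h
  obtain ⟨S, eS, h⟩ := sdF_some hε E.X E.T h
  obtain ⟨u, eu, hu, h⟩ := agF3_some hε E.X E.R E.q hc ha h
  obtain ⟨Lc, hLc, h⟩ := bO_some h
  have kx := F.Encl.add E.X E.Y
  have kt := F.Encl.add E.T E.H
  have ebu := F.Encl.lnB hε kx kt hbu
  have e1 := F.Encl.lnA hε eu E.q hLc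
  have p1 := posF_spec hε (F.Encl.add (F.Encl.add (F.Encl.sub (F.Encl.add (F.Encl.add eL eL)
    (F.Encl.sub (F.Encl.mul hε E.W (F.Encl.sub eN ebu))
      (rrF_encl (b := 4) (by norm_num) hε E.Y E.W))) eS) (two_encl hε e1)) (w8F_encl hε E.R)) h
  have hw := hb_le D hNr
  refine ⟨hu, ?_⟩
  unfold PC2 Ln
  linarith only [hLr, p1, hw]

end

/-! ### tests -/

/-- at the saddle point -/
def uE (c cr ek ad an sl sh a p0 m q0 q1 k : ℕ) (X T Y R : F) : Bool :=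
  let q := R.sub T
  let H := F.mulq 4 1 (R.mul Y)
  let d := Y.sub X
  let s := H.sub T
  cond (Nat.ble 120 k) (vac q0 q1 k q d s)
    (cond (Nat.ble 94 k) (fN (Nat.sub k 94) fun k' => gV2 k' m sl a X T R q)
      (cond (Nat.ble 90 k) (fN (Nat.sub k 90) fun cm => gV1 p0 cm c cr ek ad an sh X T R q)
        (fN (Nat.mod k 3) fun lf => fN (Nat.div k 3) fun nf =>
          gE lf nf X T Y H d s (F.mulq 4 1 R))))

/-- below the saddle point -/
def uD (rg c cr ek ad an sl a p0 m q0 q1 k : ℕ) (X T Y R : F) : Bool :=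
  let q := R.sub T
  let H := F.mulq 4 1 (R.mul Y)
  let d := Y.sub X
  let s := H.sub T
  cond (Nat.ble 120 k) (vac q0 q1 k q d s)
    (cond (Nat.ble 94 k) (fN (Nat.sub k 94) fun k' => gV2 k' m sl a X T R q)
      (cond (Nat.ble 90 k) (fN (Nat.sub k 90) fun cm => gV0 p0 cm c cr ek ad an T R q)
        (cond (Nat.ble 20 k) (fN (Nat.sub k 20) fun nf =>
            gB2 rg a (cond (Nat.beq rg 0) 1 0) sl a nf X T Y R q H d s (F.mulq 4 1 R))
          (cond (Nat.ble 15 k) (fN (Nat.sub k 15) fun nf =>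
              gB1 rg a p0 nf X T Y R H d s (F.mulq 4 1 R))
            (fN (Nat.mod k 3) fun lf => fN (Nat.div k 3) fun nf =>
              gE lf nf X T Y H d s (F.mulq 4 1 R))))))

/-- above the saddle point -/
def uU (rg c cr ek ad an sl sh a e p0 m q0 q1 k : ℕ) (X T Y R : F) : Bool :=
  let q := R.sub T
  let H := F.mulq 4 1 (R.mul Y)
  let d := Y.sub X
  let s := H.sub T
  cond (Nat.ble 120 k) (vac q0 q1 k q d s)
    (cond (Nat.ble 94 k) (gV2 0 m sl a X T R q)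
      (cond (Nat.ble 90 k) (fN (Nat.sub k 90) fun cm => gV1 p0 cm c cr ek ad an sh X T R q)
        (cond (Nat.ble 30 k) (fN (Nat.div (Nat.sub k 30) 15) fun cm =>
            fN (Nat.mod (Nat.mod (Nat.sub k 30) 15) 3) fun lf =>
            fN (Nat.div (Nat.mod (Nat.sub k 30) 15) 3) fun nf =>
              gC2 rg e cm c cr ek ad an sh lf nf X T Y R q H d s (F.mulq 4 1 R))
          (cond (Nat.ble 15 k) (fN (Nat.mod (Nat.sub k 15) 3) fun lf =>
              fN (Nat.div (Nat.sub k 15) 3) fun nf =>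
                gC1 rg e m lf nf X T Y R H d s (F.mulq 4 1 R))
            (fN (Nat.mod k 3) fun lf => fN (Nat.div k 3) fun nf =>
              gE lf nf X T Y H d s (F.mulq 4 1 R))))))

section
variable {rg c cr ek ad an sl sh a e p0 m q0 q1 : ℕ}

/-- the last alternatives: the derivative of the ring variable is not `8 π ρ` -/
def RE (c cr ek ad an sl sh a p0 m q0 q1 : ℕ) (x t y r : ℝ) : Prop :=
  Dmn q0 q1 x t y r → PE x t y r ∨
    (∃ cm, 0 < ag3 cm c cr ek ad an sh x t r ∧ PV1 p0 (ag3 cm c cr ek ad an sh x t r) t r) ∨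
    ∃ k, PV2 m (bg k sl a x) t r

def RD (rg c cr ek ad an sl a p0 m q0 q1 : ℕ) (x t y r : ℝ) : Prop :=
  Dmn q0 q1 x t y r → PE x t y r ∨ PB1 rg a p0 x t y r ∨
    PB2 rg a (bg (cond (Nat.beq rg 0) 1 0) sl a x) x t y r ∨
    (∃ cm, 0 < ag cm c cr ek ad an t r ∧ PV1 p0 (ag cm c cr ek ad an t r) t r) ∨
    ∃ k, PV2 m (bg k sl a x) t r

def RU (rg c cr ek ad an sl sh a e p0 m q0 q1 : ℕ) (x t y r : ℝ) : Prop :=
  Dmn q0 q1 x t y r → PE x t y r ∨ PC1 rg e m x t y r ∨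
    (∃ cm, 0 < ag3 cm c cr ek ad an sh x t r ∧
      PC2 rg e (ag3 cm c cr ek ad an sh x t r) x t y r) ∨
    (∃ cm, 0 < ag3 cm c cr ek ad an sh x t r ∧ PV1 p0 (ag3 cm c cr ek ad an sh x t r) t r) ∨
    PV2 m (bg 0 sl a x) t r

theorem uE_ok (hc : c + 1 ≤ 5000) (ha : 0 < an) :
    TestOk (uE c cr ek ad an sl sh a p0 m q0 q1) (RE c cr ek ad an sl sh a p0 m q0 q1) := by
  intro k X T Y R ε x t y r hε hX hT hY hR h D
  have E := RQ.En.of hε hX hT hY hR
  unfold uE at h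
  simp only at h
  rcases h0 : Nat.ble 120 k with _ | _
  swap
  · rw [h0, cond_true] at h
    exact (vac_sound E D h).elim
  rw [h0, cond_false] at h
  rcases h1 : Nat.ble 94 k with _ | _
  swap
  · rw [h1, cond_true, fN_eq] at h
    exact Or.inr (Or.inr ⟨_, gV2_sound E h⟩)
  rw [h1, cond_false] at h
  rcases h2 : Nat.ble 90 k with _ | _
  swap
  · rw [h2, cond_true, fN_eq] at h
    exact Or.inr (Or.inl ⟨_, gV1_sound hc ha E h⟩)
  rw [h2, cond_false, fN_eq, fN_eq] at h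
  exact Or.inl (gE_sound E D h)

theorem uD_ok (hc : c + 1 ≤ 5000) (ha : 0 < an) :
    TestOk (uD rg c cr ek ad an sl a p0 m q0 q1) (RD rg c cr ek ad an sl a p0 m q0 q1) := by
  intro k X T Y R ε x t y r hε hX hT hY hR h D
  have E := RQ.En.of hε hX hT hY hR
  unfold uD at h
  simp only at h
  rcases h0 : Nat.ble 120 k with _ | _
  swap
  · rw [h0, cond_true] at h
    exact (vac_sound E D h).elim
  rw [h0, cond_false] at h
  rcases h1 : Nat.ble 94 k with _ | _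
  swap
  · rw [h1, cond_true, fN_eq] at h
    exact Or.inr (Or.inr (Or.inr (Or.inr ⟨_, gV2_sound E h⟩)))
  rw [h1, cond_false] at h
  rcases h2 : Nat.ble 90 k with _ | _
  swap
  · rw [h2, cond_true, fN_eq] at h
    exact Or.inr (Or.inr (Or.inr (Or.inl ⟨_, gV0_sound hc ha E h⟩)))
  rw [h2, cond_false] at h
  rcases h3 : Nat.ble 20 k with _ | _
  swap
  · rw [h3, cond_true, fN_eq] at h
    exact Or.inr (Or.inr (Or.inl (gB2_sound E D h)))
  rw [h3, cond_false] at h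
  rcases h4 : Nat.ble 15 k with _ | _
  swap
  · rw [h4, cond_true, fN_eq] at h
    exact Or.inr (Or.inl (gB1_sound E D h))
  rw [h4, cond_false, fN_eq, fN_eq] at h
  exact Or.inl (gE_sound E D h)

theorem uU_ok (hc : c + 1 ≤ 5000) (ha : 0 < an) :
    TestOk (uU rg c cr ek ad an sl sh a e p0 m q0 q1)
      (RU rg c cr ek ad an sl sh a e p0 m q0 q1) := by
  intro k X T Y R ε x t y r hε hX hT hY hR h D
  have E := RQ.En.of hε hX hT hY hR
  unfold uU at h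
  simp only at h
  rcases h0 : Nat.ble 120 k with _ | _
  swap
  · rw [h0, cond_true] at h
    exact (vac_sound E D h).elim
  rw [h0, cond_false] at h
  rcases h1 : Nat.ble 94 k with _ | _
  swap
  · rw [h1, cond_true] at h
    exact Or.inr (Or.inr (Or.inr (Or.inr (gV2_sound E h))))
  rw [h1, cond_false] at h
  rcases h2 : Nat.ble 90 k with _ | _
  swap
  · rw [h2, cond_true, fN_eq] at h
    exact Or.inr (Or.inr (Or.inr (Or.inl ⟨_, gV1_sound hc ha E h⟩)))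
  rw [h2, cond_false] at h
  rcases h3 : Nat.ble 30 k with _ | _
  swap
  · rw [h3, cond_true, fN_eq, fN_eq, fN_eq] at h
    exact Or.inr (Or.inr (Or.inl ⟨_, gC2_sound hc ha E D h⟩))
  rw [h3, cond_false] at h
  rcases h4 : Nat.ble 15 k with _ | _
  swap
  · rw [h4, cond_true, fN_eq, fN_eq] at h
    exact Or.inr (Or.inl (gC1_sound E D h))
  rw [h4, cond_false, fN_eq, fN_eq] at h
  exact Or.inl (gE_sound E D h)

end

end RQ4

end Pool.Agent.Work.MP_b30479_gt.G2
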