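import Pool.Agent.Work.MP_b30479_gt.G2.RR4P
import Pool.Agent.Work.MP_b30479_gt.G2.RR4E

/-!
# Rings at an end with the ring variable on the ramp, `b = 4`: use of the certificates
-/

namespace Pool.Agent.Work.MP_b30479_gt.G2

open Real Set VOL NumI

namespace RQ4

open RC RQ
open LR (rat1 mulq1)
open RZ1 (negE enc4)

/-- the saddle point of a ring at an end, units `1/10000` -/
structure NE (p0 sh a : ℕ) (xs s T ρ : ℝ) : Prop where
  hD : Dx xs (1 / 2 - s) T ρ = 2 * π * 4 * ρ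
  hsh : s ≤ (sh : ℝ) / 10000
  sh5 : sh ≤ 5000
  hp : (p0 : ℝ) ≤ 0 ∨ (p0 : ℝ) / 10000 ≤ s - xs ∨ (p0 : ℝ) / 10000 ≤ xs - s
  p5 : p0 + 1 ≤ 5000
  ha : (a : ℝ) / 10000 ≤ xs

section
variable {c cr ek ad an m s0 q0 q1 t0 t1 r0 r1 rg a e sh p0 xl xh code cm k : ℕ}
  {xs s T ρ x y cl cp : ℝ}

lemma PQ (g : NE p0 sh a xs s T ρ) : LL (lv (xs + (1 / 2 - s)) (T + ρ)) -
    LL (lv (1 / 2 - s - xs) (T - ρ)) = π * (8 * ρ) := by
  have := g.hD
  unfold Dx at this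
  linarith only [this]

lemma P_le' (h : Nm c cr ek ad an m s0 q0 q1 t0 t1 r0 r1 xs s T ρ) (g : NE p0 sh a xs s T ρ) :
    LL (lv (xs + (1 / 2 - s)) (T + ρ)) ≤ lnA (((5000 - p0 : ℕ) : ℝ) / 10000) (T + ρ) := by
  have h5 := h.sum
  have h6 := h.xs0
  have h7 := h.s00
  have h8 : (0 : ℝ) ≤ p0 := Nat.cast_nonneg p0
  rw [LL_lv _ (by linarith only [h5, h6]) (by linarith only [h5, h7]), cast_sub g.p5]
  rcases g.hp with h1 | h1 | h1
  · have : (p0 : ℝ) = 0 := le_antisymm h1 h8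
    rw [this, zero_div, sub_zero]
    have := LL_le_half (t := T + ρ) (show 0 < xs + (1 / 2 - s) by linarith only [h5, h6]) (by linarith only [h5, h7])
    rwa [LL_lv _ (by linarith only [h5, h6]) (by linarith only [h5, h7])] at this
  · exact lnA_mono (by linarith) (by linarith) (by linarith)
  · have e1 : lnA (xs + (1 / 2 - s)) (T + ρ) = lnA (1 - (xs + (1 / 2 - s))) (T + ρ) := by
      unfold lnA
      have : sin (π * (xs + (1 / 2 - s))) = sin (π * (1 - (xs + (1 / 2 - s)))) := by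
        rw [mul_sub π 1, mul_one, sin_pi_sub]
      rw [this]
    rw [e1]
    exact lnA_mono (by linarith [h.xs1]) (by linarith) (by linarith)

lemma ag3_le (h : Nm c cr ek ad an m s0 q0 q1 t0 t1 r0 r1 xs s T ρ) (g : NE p0 sh a xs s T ρ)
    (hx : xs ≤ x) (cm : ℕ) : ag3 cm c cr ek ad an sh x T ρ ≤ 1 / 2 - s - xs := by
  unfold ag3
  rcases Nat.beq cm 3 with _ | _
  · rw [cond_false]
    exact h.ag_le cm
  · rw [cond_true, Nat.cast_sub g.sh5]
    push_cast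
    linarith only [hx, g, g.hsh]

lemma Q_le_bg (h : Nm c cr ek ad an m s0 q0 q1 t0 t1 r0 r1 xs s T ρ) (g : NE p0 sh a xs s T ρ)
    (ha : s0 + a ≤ 5000) (hx0 : 0 < x) (hk : Nat.beq k 0 = true ∨ x ≤ xs) :
    LL (lv (1 / 2 - s - xs) (T - ρ)) ≤ lnA (bg k s0 a x) (ρ - T) := by
  unfold bg
  rcases h1 : Nat.beq k 0 with _ | _
  · rw [cond_false]
    rw [h1] at hk
    exact h.Q_le (hk.resolve_left Bool.false_ne_true) hx0.le
  · rw [cond_true]
    have := h.Q_le g.ha (by positivity)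
    have e3 : ((5000 - s0 : ℕ) : ℝ) / 10000 - (a : ℝ) / 10000 =
        ((5000 - s0 - a : ℕ) : ℝ) / 10000 := by
      rw [Nat.cast_sub (show a ≤ 5000 - s0 by omega)]
      ring
    rwa [e3] at this

lemma V1_false (h : Nm c cr ek ad an m s0 q0 q1 t0 t1 r0 r1 xs s T ρ) (g : NE p0 sh a xs s T ρ)
    {u : ℝ} (h0 : 0 < u) (hu : u ≤ 1 / 2 - s - xs) (hv : PV1 p0 u T ρ) : False := by
  have h1 := P_le' h g
  have h2 := h.Q_ge h0 hu
  have h3 := PQ g
  unfold PV1 at hv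
  linarith only [hv, h1, h2, h3]

lemma V2_false (h : Nm c cr ek ad an m s0 q0 q1 t0 t1 r0 r1 xs s T ρ) (g : NE p0 sh a xs s T ρ)
    (ha : s0 + a ≤ 5000) (hx0 : 0 < x) (hk : Nat.beq k 0 = true ∨ x ≤ xs)
    (hv : PV2 m (bg k s0 a x) T ρ) : False := by
  have h1 := h.P_ge
  have h2 := Q_le_bg h g ha hx0 hk
  have h3 := PQ g
  unfold PV2 at hv
  linarith only [hv, h1, h2, h3]

lemma Rr4c (y ρ : ℝ) : Rr ((4 : ℕ) : ℝ) y ρ = Rr 4 y ρ := by norm_num

lemma dS_eq4 (D : Dmn q0 q1 x T y ρ) (hx0 : 0 < xs) (hx1 : xs < 1) :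
    dS xs (1 / 2 - s) T ρ x y = An x T y ρ - Ln x T y ρ - 2 * lnA x T -
      (LL (lv (xs + (1 / 2 - s)) (T + ρ)) + LL (lv (1 / 2 - s - xs) (T - ρ)) - 2 * lnA xs T) := by
  unfold dS
  rw [Sx_eq4 D]
  have e2 : LL (lv xs T) = lnA xs T := LL_lv _ hx0 hx1
  unfold Sx
  rw [e2]

/-- at the saddle point -/
theorem qE (cert : okB 10000 (uE c cr ek ad an s0 sh a p0 m q0 q1) 0 1580 0 0 40
      xl xh t0 t1 1250 2500 r0 r1 code = true)
    (h : Nm c cr ek ad an m s0 q0 q1 t0 t1 r0 r1 xs s T ρ) (g : NE p0 sh a xs s T ρ)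
    (hA : RC.Adm 4 T ρ cl cp xs y) (hcl : 0 < cl) (hcp : cp < 1 / 2) (ha : s0 + a ≤ 5000)
    (hx : (xl : ℝ) / 10000 ≤ xs) (hx' : xs ≤ (xh : ℝ) / 10000) :
    Rr 4 y ρ < Fr xs y T ρ := by
  have D := h.dmn hA hcl hcp
  have hp := okB_sound (by norm_num) (uE_ok h.c5 h.an0) cert (xb hx) (xb' hx') h.ht0 h.ht1
    (ycast hA) (by push_cast; linarith only [D, D.y1]) h.hr0 h.hr1 D
  rcases hp with hp | ⟨cm, h1, hp⟩ | ⟨k, hp⟩
  · unfold PE at hp
    rw [Rr4c] at hp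
    rw [Fr_eq4 D]
    linarith only [hp]
  · exact (V1_false h g h1 (ag3_le h g le_rfl cm) hp).elim
  · exact (V2_false h g ha D.x0 (Or.inr le_rfl) hp).elim

/-- below the saddle point -/
theorem qD (cert : okB 10000 (uD rg c cr ek ad an s0 a p0 m q0 q1) 0 1580 0 0 40
      xl xh t0 t1 1250 2500 r0 r1 code = true)
    (h : Nm c cr ek ad an m s0 q0 q1 t0 t1 r0 r1 xs s T ρ) (g : NE p0 sh a xs s T ρ)
    (hA : RC.Adm 4 T ρ cl cp x y) (hcl : 0 < cl) (hcp : cp < 1 / 2) (ha : s0 + a ≤ 5000)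
    (ha0 : 0 < a) (hx : (xl : ℝ) / 10000 ≤ x) (hx' : x ≤ (xh : ℝ) / 10000) (hxs : x < xs) :
    Rr 4 y ρ < Fr x y T ρ ∨ Rr 4 y ρ < Fr x y T ρ + dS xs (1 / 2 - s) T ρ x y := by
  have D := h.dmn hA hcl hcp
  have hp := okB_sound (by norm_num) (uD_ok h.c5 h.an0) cert (xb hx) (xb' hx') h.ht0 h.ht1
    (ycast hA) (by push_cast; linarith only [D, D.y1]) h.hr0 h.hr1 D
  have hpq := PQ g
  have hside : sd rg a x T ≤ 2 * (lnA xs T - lnA x T) := by
    unfold sd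
    rcases Nat.beq rg 0 with _ | _
    · rw [cond_false]
      have := lnA_mono (t := T) (n0 ha0) g.ha h.xs1.le
      linarith only [this]
    · rw [cond_true]
      have := lnA_mono (t := T) D.x0 hxs.le h.xs1.le
      linarith only [this]
  rw [dS_eq4 D h.xs0 (by linarith only [h, h.xs1]), Fr_eq4 D]
  rcases hp with hp | hp | hp | ⟨cm, h1, hp⟩ | ⟨k, hp⟩
  · left
    unfold PE at hp
    rw [Rr4c] at hp
    linarith only [hp]
  · right
    unfold PB1 at hp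
    rw [Rr4c] at hp
    have := P_le' h g
    linarith only [hpq, hside, hp, this]
  · right
    unfold PB2 at hp
    rw [Rr4c] at hp
    have := Q_le_bg (k := cond (Nat.beq rg 0) 1 0) h g ha D.x0 (Or.inr hxs.le)
    linarith only [hpq, hside, hp, this]
  · exact (V1_false h g h1 (h.ag_le cm) hp).elim
  · exact (V2_false h g ha D.x0 (Or.inr hxs.le) hp).elim

/-- above the saddle point -/
theorem qU (cert : okB 10000 (uU rg c cr ek ad an s0 sh a e p0 m q0 q1) 0 1580 0 0 40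
      xl xh t0 t1 1250 2500 r0 r1 code = true)
    (h : Nm c cr ek ad an m s0 q0 q1 t0 t1 r0 r1 xs s T ρ) (g : NE p0 sh a xs s T ρ)
    (hA : RC.Adm 4 T ρ cl cp x y) (hcl : 0 < cl) (hcp : cp < 1 / 2) (ha : s0 + a ≤ 5000)
    (he5 : e ≤ 5000) (he : xs ≤ (e : ℝ) / 10000)
    (hx : (xl : ℝ) / 10000 ≤ x) (hx' : x ≤ (xh : ℝ) / 10000) (hxs : xs < x) :
    Rr 4 y ρ < Fr x y T ρ ∨ Rr 4 y ρ < Fr x y T ρ - dS xs (1 / 2 - s) T ρ x y := by
  have D := h.dmn hA hcl hcp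
  have hp := okB_sound (by norm_num) (uU_ok h.c5 h.an0) cert (xb hx) (xb' hx') h.ht0 h.ht1
    (ycast hA) (by push_cast; linarith only [D, D.y1]) h.hr0 h.hr1 D
  have hpq := PQ g
  have hside : -sd rg e x T ≤ 2 * (lnA x T - lnA xs T) := by
    unfold sd
    rcases Nat.beq rg 0 with _ | _
    · rw [cond_false]
      have := lnA_mono (t := T) h.xs0 he (nhalf he5)
      linarith only [this]
    · rw [cond_true]
      have := lnA_mono (t := T) h.xs0 hxs.le D.x1.le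
      linarith only [this]
  rw [dS_eq4 D h.xs0 (by linarith only [h, h.xs1]), Fr_eq4 D]
  rcases hp with hp | hp | ⟨cm, h1, hp⟩ | ⟨cm, h1, hp⟩ | hp
  · left
    unfold PE at hp
    rw [Rr4c] at hp
    linarith only [hp]
  · right
    unfold PC1 at hp
    rw [Rr4c] at hp
    have := h.P_ge
    linarith only [hpq, hside, hp, this]
  · right
    unfold PC2 at hp
    rw [Rr4c] at hp
    have := h.Q_ge h1 (ag3_le h g hxs.le cm)
    linarith only [hpq, hside, hp, this]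
  · exact (V1_false h g h1 (ag3_le h g hxs.le cm) hp).elim
  · exact (V2_false h g ha D.x0 (Or.inl rfl) hp).elim

end

end RQ4

end Pool.Agent.Work.MP_b30479_gt.G2
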