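import Pool.Agent.Work.MP_b30479_gt.G2.RRT

/-!
# Rings with the ring variable on the ramp, `b = 4`: kernel evaluation on a box

As `RRT`, with three lower bounds of `1/2 - xs - s`: a constant, one in terms of `ρ`, one in terms
of `ρ - T`.
-/

namespace Pool.Agent.Work.MP_b30479_gt.G2

open VOL NumI

namespace RQ4

open RC RQ
open LR (rat1 mulq1)
open RZ1 (negE enc4)

/-- lower bounds of `1/2 - xs - s` -/
noncomputable def ag (cm c cr ek ad an : ℕ) (t r : ℝ) : ℝ :=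
  cond (Nat.beq cm 0) (((5000 - c : ℕ) : ℝ) / 10000)
    (cond (Nat.beq cm 1) (((5000 - cr : ℕ) : ℝ) / 10000 - r)
      ((ad : ℝ) / an * (r - t) + 1 / 2 - (ek : ℝ) / 10000))

/-- their forms -/
def agF (cm c cr ek ad an : ℕ) (R q : F) (C : F → Bool) : Bool :=
  cond (Nat.beq cm 0) (C (F.rat (5000 - c) 10000))
    (cond (Nat.beq cm 1)
      (cond (posF ((F.rat (5000 - cr) 10000).sub R)) (C ((F.rat (5000 - cr) 10000).sub R)) false)
      (cond (posF (((F.mulq ad an q).add (F.rat 1 2)).sub (F.rat ek 10000)))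
        (C (((F.mulq ad an q).add (F.rat 1 2)).sub (F.rat ek 10000))) false))

theorem agF_some {cm c cr ek ad an : ℕ} {R q : F} {C : F → Bool} {ε : ℕ → ℝ} {t r : ℝ}
    (hε : ∀ i, |ε i| ≤ 1) (h1 : R.Encl ε r) (h2 : q.Encl ε (r - t)) (hc : c + 1 ≤ 5000)
    (ha : 0 < an) (h : agF cm c cr ek ad an R q C = true) :
    ∃ z : F, z.Encl ε (ag cm c cr ek ad an t r) ∧ 0 < ag cm c cr ek ad an t r ∧ C z = true := by
  unfold agF at h
  unfold ag
  rcases e0 : Nat.beq cm 0 with _ | _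
  swap
  · rw [e0, cond_true] at h
    rw [cond_true]
    refine ⟨_, r4_encl (5000 - c) ε, ?_, h⟩
    have : (0 : ℝ) < ((5000 - c : ℕ) : ℝ) := by
      have : 0 < 5000 - c := by omega
      exact_mod_cast this
    positivity
  rw [e0, cond_false] at h
  rw [cond_false]
  rcases e1 : Nat.beq cm 1 with _ | _
  swap
  · rw [e1, cond_true] at h
    rw [cond_true]
    obtain ⟨g, h⟩ := cond_ff h
    have k := F.Encl.sub (r4_encl (5000 - cr) ε) h1
    exact ⟨_, k, posF_spec hε k g, h⟩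
  rw [e1, cond_false] at h
  rw [cond_false]
  obtain ⟨g, h⟩ := cond_ff h
  have k := F.Encl.sub (F.Encl.add (F.Encl.mulq (n := ad) (d := an) ha hε h2) (half_encl ε))
    (r4_encl ek ε)
  exact ⟨_, k, posF_spec hε k g, h⟩

noncomputable def PA4 (b w ln ld u1 v1 u2 v2 : ℕ) (u x t y r : ℝ) : Prop :=
  0 < An x t y r + Ln x t y r + Hb x t y r - (1 - lam ln ld 1) * ((w : ℝ) / 2 * Rr b y r) +
    lin u1 v1 u2 v2 x ∧
  0 < An x t y r + Ln x t y r + Hb x t y r - (1 - lam ln ld 1) * ((w : ℝ) / 2 * Rr b y r) +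
    lin u1 v1 u2 v2 x - lam ln ld 1 * kr b y *
      (lnA (1 / 2) (t + r) - lnA u (r - t))

noncomputable def PC4 (rg b w ln ld m a u1 v1 u2 v2 : ℕ) (u x t y r : ℝ) : Prop :=
  (rg = 0 ∧ 0 < 2 * Ln x t y r + Hb x t y r - (1 - lam ln ld 1) * ((w : ℝ) / 2 * Rr b y r) +
    (1 - lam ln ld 1 * kr b y) * lnA (((5000 - m : ℕ) : ℝ) / 10000) (t + r) +
    (1 + lam ln ld 1 * kr b y) * lnA u (r - t) +
    lin u1 v1 u2 v2 x) ∨
  (rg ≠ 0 ∧ 0 < 2 * Ln x t y r + Hb x t y r - (1 - lam ln ld 1) * ((w : ℝ) / 2 * Rr b y r) +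
    (1 - lam ln ld 1 * kr b y) * lnA (((5000 - m : ℕ) : ℝ) / 10000) (t + r) +
    (1 + lam ln ld 1 * kr b y) * lnA u (r - t) +
    2 * (lnA x t - lnA ((a : ℝ) / 10000) t) + lin u1 v1 u2 v2 x)

/-- `A + L + W` -/
def gA4 (b w ln ld c cr ek ad an u1 v1 u2 v2 cm lf nf : ℕ) (X T Y R q H d s W4 : F) : Bool :=
  bO (F.lnA (X.add Y) (T.add H)) fun au => bO (F.lnB (X.add Y) (T.add H)) fun bu =>
  bO (F.lnA (F.rat 1 2) (T.add R)) fun Lh => agF cm c cr ek ad an R q fun u =>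
  bO (F.lnA u q) fun Lc => lF lf d s fun L => nF nf d s fun N =>
    let E1 := (((au.add L).add (W4.mul (N.sub bu))).sub (lwF w ln ld 1 (rrF b Y W4))).add
      (linF u1 v1 u2 v2 X)
    cond (posF E1) (posF (E1.sub ((lkF' b ln ld 1 Y).mul (Lh.sub Lc)))) false

def gC4 (rg b w ln ld c cr ek ad an m a u1 v1 u2 v2 cm lf nf : ℕ) (X T Y R q H d s W4 : F) :
    Bool :=
  bO (F.lnB (X.add Y) (T.add H)) fun bu =>
  agF cm c cr ek ad an R q fun u => bO (F.lnA u q) fun Lc =>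
  bO (F.lnA (F.rat (5000 - m) 10000) (T.add R)) fun Lm =>
  lF lf d s fun L => nF nf d s fun N =>
    let lk := lkF' b ln ld 1 Y
    let G := ((((L.add L).add (W4.mul (N.sub bu))).sub (lwF w ln ld 1 (rrF b Y W4))).add
      (((F.rat 1 1).sub lk).mul Lm)).add (((F.rat 1 1).add lk).mul Lc)
    let li := linF u1 v1 u2 v2 X
    cond (Nat.beq rg 0) (posF (G.add li))
      (bO (F.lnA (F.rat a 10000) T) fun aa => bO (F.lnA X T) fun ax =>
        posF ((G.add (F.mulq 2 1 (ax.sub aa))).add li))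

section
variable {rg b w ln ld c cr ek ad an m a u1 v1 u2 v2 cm lf nf q0 q1 : ℕ} {ε : ℕ → ℝ}
  {X T Y R q H d s W4 : F} {x t y r : ℝ}

theorem gA4_sound (hb : 2 ≤ b) (hl : 0 < ld) (hc : c + 1 ≤ 5000) (ha : 0 < an)
    (E : RQ.En ε X T Y R q H d s W4 x t y r) (D : Dmn q0 q1 x t y r)
    (h : gA4 b w ln ld c cr ek ad an u1 v1 u2 v2 cm lf nf X T Y R q H d s W4 = true) :
    0 < ag cm c cr ek ad an t r ∧
      PA4 b w ln ld u1 v1 u2 v2 (ag cm c cr ek ad an t r) x t y r := by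
  have hε := E.e
  obtain ⟨au, hau, h⟩ := bO_some h
  obtain ⟨bu, hbu, h⟩ := bO_some h
  obtain ⟨Lh, hLh, h⟩ := bO_some h
  obtain ⟨u, eu, hu, h⟩ := agF_some hε E.R E.q hc ha h
  obtain ⟨Lc, hLc, h⟩ := bO_some h
  obtain ⟨L, Lr, eL, hLr, h⟩ := lF_some hε E.d E.s D.dl D.dr D.dn h
  obtain ⟨N, Nr, eN, hNr, h⟩ := nF_some hε E.d E.s D.dl D.dr D.dt h
  have kx := F.Encl.add E.X E.Y
  have kt := F.Encl.add E.T E.H
  have eau := F.Encl.lnA hε kx kt hau
  have ebu := F.Encl.lnB hε kx kt hbu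
  have eLh := F.Encl.lnA hε (half_encl ε) (F.Encl.add E.T E.R) hLh
  have eLc := F.Encl.lnA hε eu E.q hLc
  have k1 := F.Encl.add (F.Encl.sub (F.Encl.add (F.Encl.add eau eL)
    (F.Encl.mul hε E.W (F.Encl.sub eN ebu))) (lwF_encl (w := w) (ln := ln) (j := 1) hl hε
      (rrF_encl hb hε E.Y E.W))) (linF_encl (u1 := u1) (v1 := v1) (u2 := u2) (v2 := v2) hε E.X)
  have k2 := F.Encl.sub k1 (F.Encl.mul hε (lkF'_encl (ln := ln) (j := 1) hb hl hε E.Y)
    (F.Encl.sub eLh eLc))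
  obtain ⟨g1, g2⟩ := cond_ff h
  have p1 := posF_spec hε k1 g1
  have p2 := posF_spec hε k2 g2
  have hw : 4 * r * (Nr - lnB (x + y) (t + 4 * (r * y))) ≤ Hb x t y r := by
    unfold Hb
    exact mul_le_mul_of_nonneg_left (by linarith only [hNr]) (by linarith only [D, D.r0])
  unfold PA4 An Ln
  refine ⟨hu, ?_, ?_⟩ <;> linarith only [hLr, p1, hw, p2]

theorem gC4_sound (hb : 2 ≤ b) (hl : 0 < ld) (hc : c + 1 ≤ 5000) (ha : 0 < an)
    (E : RQ.En ε X T Y R q H d s W4 x t y r) (D : Dmn q0 q1 x t y r)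
    (h : gC4 rg b w ln ld c cr ek ad an m a u1 v1 u2 v2 cm lf nf X T Y R q H d s W4 = true) :
    0 < ag cm c cr ek ad an t r ∧
      PC4 rg b w ln ld m a u1 v1 u2 v2 (ag cm c cr ek ad an t r) x t y r := by
  have hε := E.e
  obtain ⟨bu, hbu, h⟩ := bO_some h
  obtain ⟨u, eu, hu, h⟩ := agF_some hε E.R E.q hc ha h
  obtain ⟨Lc, hLc, h⟩ := bO_some h
  obtain ⟨Lm, hLm, h⟩ := bO_some h
  obtain ⟨L, Lr, eL, hLr, h⟩ := lF_some hε E.d E.s D.dl D.dr D.dn h
  obtain ⟨N, Nr, eN, hNr, h⟩ := nF_some hε E.d E.s D.dl D.dr D.dt h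
  have kx := F.Encl.add E.X E.Y
  have kt := F.Encl.add E.T E.H
  have ebu := F.Encl.lnB hε kx kt hbu
  have eLc := F.Encl.lnA hε eu E.q hLc
  have eLm := F.Encl.lnA hε (r4_encl (5000 - m) ε) (F.Encl.add E.T E.R) hLm
  have ek' := lkF'_encl (ln := ln) (j := 1) hb hl hε E.Y
  have eli := linF_encl (u1 := u1) (v1 := v1) (u2 := u2) (v2 := v2) hε E.X
  have k1 := F.Encl.add (F.Encl.add (F.Encl.sub (F.Encl.add (F.Encl.add eL eL)
    (F.Encl.mul hε E.W (F.Encl.sub eN ebu))) (lwF_encl (w := w) (ln := ln) (j := 1) hl hε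
      (rrF_encl hb hε E.Y E.W))) (F.Encl.mul hε (F.Encl.sub (one_encl ε) ek') eLm))
      (F.Encl.mul hε (F.Encl.add (one_encl ε) ek') eLc)
  have hw : 4 * r * (Nr - lnB (x + y) (t + 4 * (r * y))) ≤ Hb x t y r := by
    unfold Hb
    exact mul_le_mul_of_nonneg_left (by linarith only [hNr]) (by linarith only [D, D.r0])
  refine ⟨hu, ?_⟩
  unfold PC4 Ln
  simp only at h
  rcases h0 : Nat.beq rg 0 with _ | _
  · rw [h0, cond_false] at h
    obtain ⟨aa, haa, h⟩ := bO_some h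
    obtain ⟨ax, hax, h⟩ := bO_some h
    have e2 := F.Encl.lnA hε (r4_encl a ε) E.T haa
    have e3 := F.Encl.lnA hε E.X E.T hax
    have p := posF_spec hε (F.Encl.add (F.Encl.add k1 (two_encl hε (F.Encl.sub e3 e2))) eli) h
    refine Or.inr ⟨Nat.ne_of_beq_eq_false h0, ?_⟩
    linarith only [hLr, hw, p]
  · rw [h0, cond_true] at h
    have p := posF_spec hε (F.Encl.add k1 eli) h
    refine Or.inl ⟨Nat.eq_of_beq_eq_true h0, ?_⟩
    linarith only [hLr, hw, p]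

end

/-! ### tests -/

/-- the hinge beyond its part -/
def tP (b w ln ld c cr ek ad an u1 v1 u2 v2 q0 q1 k : ℕ) (X T Y R : F) : Bool :=
  let q := R.sub T
  let H := F.mulq 4 1 (R.mul Y)
  let d := Y.sub X
  let s := H.sub T
  cond (Nat.ble 120 k) (vac q0 q1 k q d s)
    (fN (Nat.land (Nat.shiftRight k 1) 3) fun cm => fN (Nat.mod (Nat.shiftRight k 3) 3) fun lf =>
      fN (Nat.div (Nat.shiftRight k 3) 3) fun nf =>
        gA4 b w ln ld c cr ek ad an u1 v1 u2 v2 cm lf nf X T Y R q H d s (F.mulq 4 1 R))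

/-- below the saddle point -/
def tD (rg b w ln ld c cr ek ad an s0 a u1 v1 u2 v2 u1' v1' u2' v2' q0 q1 k : ℕ)
    (X T Y R : F) : Bool :=
  let q := R.sub T
  let H := F.mulq 4 1 (R.mul Y)
  let d := Y.sub X
  let s := H.sub T
  cond (Nat.ble 120 k) (vac q0 q1 k q d s)
    (fN (Nat.land (Nat.shiftRight k 1) 3) fun cm => fN (Nat.mod (Nat.shiftRight k 3) 3) fun lf =>
      fN (Nat.div (Nat.shiftRight k 3) 3) fun nf =>
        cond (Nat.beq (Nat.land k 1) 0)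
          (gA4 b w ln ld c cr ek ad an u1 v1 u2 v2 cm lf nf X T Y R q H d s (F.mulq 4 1 R))
          (gB rg b w ln ld s0 a u1' v1' u2' v2' 1 nf X T Y R q H d s (F.mulq 4 1 R)))

/-- above the saddle point -/
def tU (rg b w ln ld c cr ek ad an m a u1 v1 u2 v2 u1' v1' u2' v2' q0 q1 k : ℕ)
    (X T Y R : F) : Bool :=
  let q := R.sub T
  let H := F.mulq 4 1 (R.mul Y)
  let d := Y.sub X
  let s := H.sub T
  cond (Nat.ble 120 k) (vac q0 q1 k q d s)
    (fN (Nat.land (Nat.shiftRight k 1) 3) fun cm => fN (Nat.mod (Nat.shiftRight k 3) 3) fun lf =>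
      fN (Nat.div (Nat.shiftRight k 3) 3) fun nf =>
        cond (Nat.beq (Nat.land k 1) 0)
          (gA4 b w ln ld c cr ek ad an u1 v1 u2 v2 cm lf nf X T Y R q H d s (F.mulq 4 1 R))
          (gC4 rg b w ln ld c cr ek ad an m a u1' v1' u2' v2' cm lf nf X T Y R q H d s
            (F.mulq 4 1 R)))

section
variable {rg b w ln ld c cr ek ad an s0 m a u1 v1 u2 v2 u1' v1' u2' v2' q0 q1 : ℕ}

def QP (b w ln ld c cr ek ad an u1 v1 u2 v2 q0 q1 : ℕ) (x t y r : ℝ) : Prop :=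
  Dmn q0 q1 x t y r → ∃ cm, 0 < ag cm c cr ek ad an t r ∧
    PA4 b w ln ld u1 v1 u2 v2 (ag cm c cr ek ad an t r) x t y r

def QD (rg b w ln ld c cr ek ad an s0 a u1 v1 u2 v2 u1' v1' u2' v2' q0 q1 : ℕ)
    (x t y r : ℝ) : Prop :=
  Dmn q0 q1 x t y r → (∃ cm, 0 < ag cm c cr ek ad an t r ∧
    PA4 b w ln ld u1 v1 u2 v2 (ag cm c cr ek ad an t r) x t y r) ∨
    PB rg b w ln ld s0 a u1' v1' u2' v2' 1 x t y r

def QU (rg b w ln ld c cr ek ad an m a u1 v1 u2 v2 u1' v1' u2' v2' q0 q1 : ℕ)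
    (x t y r : ℝ) : Prop :=
  Dmn q0 q1 x t y r → ∃ cm, 0 < ag cm c cr ek ad an t r ∧
    (PA4 b w ln ld u1 v1 u2 v2 (ag cm c cr ek ad an t r) x t y r ∨
    PC4 rg b w ln ld m a u1' v1' u2' v2' (ag cm c cr ek ad an t r) x t y r)

theorem tP_ok (hb : 2 ≤ b) (hl : 0 < ld) (hc : c + 1 ≤ 5000) (ha : 0 < an) :
    TestOk (tP b w ln ld c cr ek ad an u1 v1 u2 v2 q0 q1)
      (QP b w ln ld c cr ek ad an u1 v1 u2 v2 q0 q1) := by
  intro k X T Y R ε x t y r hε hX hT hY hR h D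
  have E := RQ.En.of hε hX hT hY hR
  unfold tP at h
  simp only at h
  rcases h0 : Nat.ble 120 k with _ | _
  · rw [h0, cond_false, fN_eq, fN_eq, fN_eq] at h
    exact ⟨_, gA4_sound hb hl hc ha E D h⟩
  · rw [h0, cond_true] at h
    exact (vac_sound E D h).elim

theorem tD_ok (hb : 2 ≤ b) (hl : 0 < ld) (hc : c + 1 ≤ 5000) (ha : 0 < an) :
    TestOk (tD rg b w ln ld c cr ek ad an s0 a u1 v1 u2 v2 u1' v1' u2' v2' q0 q1)
      (QD rg b w ln ld c cr ek ad an s0 a u1 v1 u2 v2 u1' v1' u2' v2' q0 q1) := by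
  intro k X T Y R ε x t y r hε hX hT hY hR h D
  have E := RQ.En.of hε hX hT hY hR
  unfold tD at h
  simp only at h
  rcases h0 : Nat.ble 120 k with _ | _
  · rw [h0, cond_false, fN_eq, fN_eq, fN_eq] at h
    rcases h1 : Nat.beq (Nat.land k 1) 0 with _ | _
    · rw [h1, cond_false] at h
      exact Or.inr (gB_sound hb hl E D h)
    · rw [h1, cond_true] at h
      exact Or.inl ⟨_, gA4_sound hb hl hc ha E D h⟩
  · rw [h0, cond_true] at h
    exact (vac_sound E D h).elim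

theorem tU_ok (hb : 2 ≤ b) (hl : 0 < ld) (hc : c + 1 ≤ 5000) (ha : 0 < an) :
    TestOk (tU rg b w ln ld c cr ek ad an m a u1 v1 u2 v2 u1' v1' u2' v2' q0 q1)
      (QU rg b w ln ld c cr ek ad an m a u1 v1 u2 v2 u1' v1' u2' v2' q0 q1) := by
  intro k X T Y R ε x t y r hε hX hT hY hR h D
  have E := RQ.En.of hε hX hT hY hR
  unfold tU at h
  simp only at h
  rcases h0 : Nat.ble 120 k with _ | _
  · rw [h0, cond_false, fN_eq, fN_eq, fN_eq] at h
    rcases h1 : Nat.beq (Nat.land k 1) 0 with _ | _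
    · rw [h1, cond_false] at h
      obtain ⟨k1, k2⟩ := gC4_sound hb hl hc ha E D h
      exact ⟨_, k1, Or.inr k2⟩
    · rw [h1, cond_true] at h
      obtain ⟨k1, k2⟩ := gA4_sound hb hl hc ha E D h
      exact ⟨_, k1, Or.inl k2⟩
  · rw [h0, cond_true] at h
    exact (vac_sound E D h).elim

end

end RQ4

end Pool.Agent.Work.MP_b30479_gt.G2
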