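import Pool.Agent.Work.MP_b30479_gt.G2.RRP
import Pool.Agent.Work.MP_b30479_gt.G2.RR4T

/-!
# Rings with the ring variable on the ramp, `b = 4`: reduction and use of the certificates
-/

namespace Pool.Agent.Work.MP_b30479_gt.G2

open Real Set VOL NumI

namespace RQ4

open RC RQ
open LR (rat1 mulq1)
open RZ1 (negE enc4)

/-! ### the side of the hinge and the gauge -/

theorem side_gauge4 {a e u v t τ β κ : ℝ} (ha : 0 < a) (he : e ≤ 1 / 2) (hau : a ≤ u)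
    (huv : u ≤ v) (hve : v ≤ e) (ht : |t| ≤ τ) (hκ : 0 ≤ κ)
    (hc : β * sinh (π * τ) ^ 2 ≤ sin (π * a) ^ 2 * (2 * cos (π * e) - β) +
      κ * (sin (π * a) * (sin (π * a) ^ 2 + sinh (π * τ) ^ 2)))
    (hc2 : β ≤ 2 * cos (π * e) + κ * sin (π * a)) :
    β * (gh v - gh u) ≤ 2 * (lnA v t - lnA u t) + κ * π * (v - u) := by
  have hpi := pi_pos
  rcases huv.eq_or_lt with h | h
  · rw [h]
    simp
  have hd : ∀ z ∈ Icc u v, HasDerivAt (fun z => 2 * lnA z t + κ * π * z - β * gh z)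
      (2 * (π * sin (π * z) * cos (π * z) / (sin (π * z) ^ 2 + sinh (π * t) ^ 2)) + κ * π * 1 -
        β * (π / sin (π * z))) z := fun z hz =>
    (((hasDerivAt_lnA (by linarith only [ha, hau, hz, hz.1]) (by linarith only [ha, he, hau, hve, h, hz, hz.2])).const_mul 2).add
      ((hasDerivAt_id' z).const_mul (κ * π))).sub
      ((hasDerivAt_gh (by linarith only [ha, hau, hz, hz.1]) (by linarith only [ha, he, hau, hve, h, hz, hz.2])).const_mul β)
  have hmono : MonotoneOn (fun z => 2 * lnA z t + κ * π * z - β * gh z) (Icc u v) := by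
    apply monotoneOn_of_deriv_nonneg (convex_Icc u v)
    · exact fun z hz => (hd z hz).continuousAt.continuousWithinAt
    · intro z hz
      rw [interior_Icc] at hz
      exact (hd z ⟨hz.1.le, hz.2.le⟩).differentiableAt.differentiableWithinAt
    · intro z hz
      rw [interior_Icc] at hz
      rw [(hd z ⟨hz.1.le, hz.2.le⟩).deriv]
      have hz1 := hz.1
      have hz2 := hz.2
      have hsa : 0 < sin (π * a) := sin_pos_of_pos_of_lt_pi (by positivity) (by nlinarith only [hpi, he, hau, huv, hve])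
      have hm : sin (π * a) ≤ sin (π * z) :=
        sin_le_sin_of_le_of_le_pi_div_two (by nlinarith only [hpi, ha]) (by nlinarith only [ha, he, hpi, hau, huv, hve, hz2]) (by nlinarith only [ha, he, hau, hpi, huv, hve, hz1])
      have hs : 0 < sin (π * z) := by linarith only [hsa, hm]
      have hcos : cos (π * e) ≤ cos (π * z) :=
        cos_le_cos_of_nonneg_of_le_pi (by nlinarith only [ha, hpi, he, hau, huv, hve, hz1]) (by nlinarith only [hpi, he]) (by nlinarith only [ha, he, hau, huv, hve, hpi, hz2])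
      have hsh : sinh (π * t) ^ 2 ≤ sinh (π * τ) ^ 2 := by
        have h0τ : 0 ≤ τ := (abs_nonneg t).trans ht
        rw [← sq_abs (sinh (π * t)), abs_sinh, abs_mul, abs_of_pos hpi]
        have h1 : 0 ≤ sinh (π * |t|) := sinh_nonneg_iff.2 (by positivity)
        exact pow_le_pow_left₀ h1 (sinh_le_sinh.2 (mul_le_mul_of_nonneg_left ht hpi.le)) 2
      have hsq : sin (π * a) ^ 2 ≤ sin (π * z) ^ 2 := pow_le_pow_left₀ hsa.le hm 2
      have hM : 0 < sin (π * z) ^ 2 + sinh (π * t) ^ 2 := by positivity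
      have k1 : β * (sin (π * z) ^ 2 + sinh (π * t) ^ 2) ≤ 2 * sin (π * z) ^ 2 * cos (π * z) +
          κ * (sin (π * z) * (sin (π * z) ^ 2 + sinh (π * t) ^ 2)) := by
        have e1 : κ * (sin (π * a) * (sin (π * z) ^ 2 + sinh (π * t) ^ 2)) ≤
            κ * (sin (π * z) * (sin (π * z) ^ 2 + sinh (π * t) ^ 2)) :=
          mul_le_mul_of_nonneg_left (mul_le_mul_of_nonneg_right hm hM.le) hκ
        have e2 : sin (π * z) ^ 2 * cos (π * e) ≤ sin (π * z) ^ 2 * cos (π * z) :=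
          mul_le_mul_of_nonneg_left hcos (by positivity)
        have e3 : sin (π * a) ^ 2 * (2 * cos (π * e) + κ * sin (π * a) - β) ≤
            sin (π * z) ^ 2 * (2 * cos (π * e) + κ * sin (π * a) - β) :=
          mul_le_mul_of_nonneg_right hsq (by linarith only [hc2])
        rcases le_total β (κ * sin (π * a)) with h5 | h5
        · have e4 : β * sinh (π * t) ^ 2 ≤ κ * sin (π * a) * sinh (π * t) ^ 2 :=
            mul_le_mul_of_nonneg_right h5 (by positivity)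
          have e5 : 0 ≤ sin (π * z) ^ 2 * (2 * cos (π * e) + κ * sin (π * a) - β) :=
            mul_nonneg (by positivity) (by linarith only [hc2])
          linarith only [e1, e2, e4, e5]
        · have e4 : (β - κ * sin (π * a)) * sinh (π * t) ^ 2 ≤
              (β - κ * sin (π * a)) * sinh (π * τ) ^ 2 :=
            mul_le_mul_of_nonneg_left hsh (by linarith only [h5])
          linarith only [hc, e1, e2, e3, e4]
      have e1 : 2 * (π * sin (π * z) * cos (π * z) / (sin (π * z) ^ 2 + sinh (π * t) ^ 2)) +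
          κ * π * 1 - β * (π / sin (π * z)) = π * (2 * sin (π * z) ^ 2 * cos (π * z) +
          κ * (sin (π * z) * (sin (π * z) ^ 2 + sinh (π * t) ^ 2)) -
            β * (sin (π * z) ^ 2 + sinh (π * t) ^ 2)) /
              ((sin (π * z) ^ 2 + sinh (π * t) ^ 2) * sin (π * z)) := by
        field_simp
      rw [e1]
      apply div_nonneg _ (by positivity)
      exact mul_nonneg hpi.le (by linarith only [k1])
  have := hmono ⟨le_rfl, h.le⟩ ⟨h.le, le_rfl⟩ h.le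
  simp only at this
  linarith only [this]

/-- condition of `side_gauge4` -/
def kC4 (be a e t ka : ℕ) : Bool :=
  bO (F.hyp false (F.pi.mul (F.rat t 10000))) fun sh =>
    cond (posF (((F.mulq 2 1 (F.rat e 10000).cosPi).sub (F.rat be 10000)).add
        (F.mulq ka 10000 (F.rat a 10000).sinPi)))
      (posF ((((F.rat a 10000).sinPi.sqn.mul ((F.mulq 2 1 (F.rat e 10000).cosPi).sub
        (F.rat be 10000))).add (F.mulq ka 10000 ((F.rat a 10000).sinPi.mul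
          ((F.rat a 10000).sinPi.sqn.add sh.sqn)))).sub (F.mulq be 10000 sh.sqn))) false

theorem kC4_sound {be a e t ka : ℕ} (h : kC4 be a e t ka = true) :
    (be : ℝ) / 10000 * sinh (π * ((t : ℝ) / 10000)) ^ 2 ≤
      sin (π * ((a : ℝ) / 10000)) ^ 2 * (2 * cos (π * ((e : ℝ) / 10000)) - (be : ℝ) / 10000) +
      (ka : ℝ) / 10000 * (sin (π * ((a : ℝ) / 10000)) * (sin (π * ((a : ℝ) / 10000)) ^ 2 +
        sinh (π * ((t : ℝ) / 10000)) ^ 2)) ∧
    (be : ℝ) / 10000 ≤ 2 * cos (π * ((e : ℝ) / 10000)) +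
      (ka : ℝ) / 10000 * sin (π * ((a : ℝ) / 10000)) := by
  obtain ⟨sh, hsh, h⟩ := bO_some h
  obtain ⟨g1, g2⟩ := cond_ff h
  have e1 := F.Encl.sinh hε0 (F.Encl.mul hε0 (F.Encl.pi (fun _ => 0)) (r4_encl t (fun _ => 0))) hsh
  have e2 := F.Encl.sub (two_encl hε0 (F.Encl.cosPi hε0 (r4_encl e (fun _ => 0))))
    (r4_encl be (fun _ => 0))
  have sa := F.Encl.sinPi hε0 (r4_encl a (fun _ => 0))
  have e3 := F.Encl.mul hε0 (F.Encl.sqn hε0 sa) e2
  have e4 := F.Encl.mulq (n := be) (d := 10000) (by norm_num) hε0 (F.Encl.sqn hε0 e1)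
  have e5 := F.Encl.mulq (n := ka) (d := 10000) (by norm_num) hε0 sa
  have e6 := F.Encl.mulq (n := ka) (d := 10000) (by norm_num) hε0 (F.Encl.mul hε0 sa
    (F.Encl.add (F.Encl.sqn hε0 sa) (F.Encl.sqn hε0 e1)))
  have p1 := posF_spec hε0 (F.Encl.add e2 e5) g1
  have p2 := posF_spec hε0 (F.Encl.sub (F.Encl.add e3 e6) e4) g2
  push_cast at p1 p2
  constructor <;> linarith only [p2, p1]

theorem gS4 {be a e t ka : ℕ} (h : kC4 be a e t ka = true) {u v T : ℝ} (ha : 0 < a)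
    (he : e ≤ 5000) (hau : (a : ℝ) / 10000 ≤ u) (huv : u ≤ v) (hve : v ≤ (e : ℝ) / 10000)
    (hT : |T| ≤ (t : ℝ) / 10000) :
    (be : ℝ) / 10000 * (gh v - gh u) ≤ 2 * (lnA v T - lnA u T) +
      (ka : ℝ) * 31416 / 10 ^ 8 * ((e : ℝ) / 10000 - (a : ℝ) / 10000) := by
  have h1 : (e : ℝ) ≤ ((5000 : ℕ) : ℝ) := Nat.cast_le.mpr he
  have h2 : (0 : ℝ) < a := by exact_mod_cast ha
  push_cast at h1
  obtain ⟨c1, c2⟩ := kC4_sound h
  have := side_gauge4 (a := (a : ℝ) / 10000) (e := (e : ℝ) / 10000) (by positivity) (by linarith only [h1])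
    hau huv hve hT (by positivity) c1 c2
  have k0 : (0 : ℝ) ≤ (ka : ℝ) / 10000 := by positivity
  have hpi : π ≤ 31416 / 10000 := by linarith only [pi_lt_d4]
  have k1 : (ka : ℝ) / 10000 * π * (v - u) ≤
      (ka : ℝ) / 10000 * (31416 / 10000) * ((e : ℝ) / 10000 - (a : ℝ) / 10000) := by
    apply mul_le_mul _ (by linarith only [hau, hve]) (by linarith only [huv]) (by positivity)
    exact mul_le_mul_of_nonneg_left hpi k0
  have k2 : (ka : ℝ) * 31416 / 10 ^ 8 * ((e : ℝ) / 10000 - (a : ℝ) / 10000) =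
      (ka : ℝ) / 10000 * (31416 / 10000) * ((e : ℝ) / 10000 - (a : ℝ) / 10000) := by ring
  linarith only [this, k1]

theorem dn_fin4 {P S α β gx gs l1 l2 As Az : ℝ} (h : -l1 < P ∨ -l2 < P + S - 2 * (As - Az))
    (hm : gx ≤ gs) (h1 : β * (gs - gx) ≤ α - l1) (h2 : β * (gs - gx) ≤ α - l2 + 2 * (As - Az)) :
    β * |gx - gs| - α < P ∨ β * |gx - gs| - α < P + S := by
  rw [abs_of_nonpos (by linarith only [hm]), neg_sub]
  rcases h with h | h
  · left; linarith only [h1, h]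
  · right; linarith only [h2, h]

/-- the linear terms as real numbers -/
theorem dn_fin5 {P S α β gx gs l1 l2 As Az : ℝ} (h : l1 < P ∨ l2 < P + S - 2 * (As - Az))
    (hm : gx ≤ gs) (h1 : β * (gs - gx) ≤ α + l1) (h2 : β * (gs - gx) ≤ α + l2 + 2 * (As - Az)) :
    β * |gx - gs| - α < P ∨ β * |gx - gs| - α < P + S := by
  rw [abs_of_nonpos (by linarith only [hm]), neg_sub]
  rcases h with h | h
  · left; linarith only [h1, h]
  · right; linarith only [h2, h]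

theorem up_fin5 {P S α β gx gs l1 l2 As Az : ℝ} (h : l1 < P ∨ l2 < P - S - 2 * (Az - As))
    (hm : gs ≤ gx) (h1 : β * (gx - gs) ≤ α + l1) (h2 : β * (gx - gs) ≤ α + l2 + 2 * (Az - As)) :
    β * |gx - gs| - α < P ∨ β * |gx - gs| - α < P - S := by
  rw [abs_of_nonneg (by linarith only [hm])]
  rcases h with h | h
  · left; linarith only [h1, h]
  · right; linarith only [h2, h]

theorem up_fin4 {P S α β gx gs l1 l2 As Az : ℝ} (h : -l1 < P ∨ -l2 < P - S - 2 * (Az - As))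
    (hm : gs ≤ gx) (h1 : β * (gx - gs) ≤ α - l1) (h2 : β * (gx - gs) ≤ α - l2 + 2 * (Az - As)) :
    β * |gx - gs| - α < P ∨ β * |gx - gs| - α < P - S := by
  rw [abs_of_nonneg (by linarith only [hm])]
  rcases h with h | h
  · left; linarith only [h1, h]
  · right; linarith only [h2, h]

/-! ### the saddle point -/

/-- the saddle point, units `1/10000` -/
structure Nm (c cr ek ad an m s0 q0 q1 t0 t1 r0 r1 : ℕ) (xs s T ρ : ℝ) : Prop where
  xs0 : 0 < xs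
  xs1 : xs < 1 / 2
  hs0 : (s0 : ℝ) / 10000 ≤ s
  s5 : s0 + 1 ≤ 5000
  hc : xs + s ≤ (c : ℝ) / 10000
  c5 : c + 1 ≤ 5000
  hcr : xs + s ≤ (cr : ℝ) / 10000 + ρ
  cr5 : cr ≤ 5000
  hek : xs + s ≤ (ek : ℝ) / 10000 - (ad : ℝ) / an * (ρ - T)
  an0 : 0 < an
  hm0 : xs - s ≤ (m : ℝ) / 10000
  hm1 : s - xs ≤ (m : ℝ) / 10000
  m5 : m + 1 ≤ 5000
  ht0 : ((t0 : ℝ) - (1580 : ℕ)) / (10000 : ℕ) ≤ T
  ht1 : T ≤ ((t1 : ℝ) - (1580 : ℕ)) / (10000 : ℕ)
  hr0 : ((r0 : ℝ) - (0 : ℕ)) / (10000 : ℕ) ≤ ρ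
  hr1 : ρ ≤ ((r1 : ℝ) - (0 : ℕ)) / (10000 : ℕ)
  pos : 0 < ρ
  lo : 1 ≤ q0 → (q0 : ℝ) / 10000 ≤ ρ - T
  hi : ρ - T ≤ (q1 : ℝ) / 10000

section
variable {b c cr ek ad an m s0 q0 q1 t0 t1 r0 r1 rg w ln ld a u1 v1 u2 v2 u1' v1' u2' v2' xl xh
  code yl : ℕ} {xs s T ρ x y u cl cp : ℝ}

lemma Nm.s00 (h : Nm c cr ek ad an m s0 q0 q1 t0 t1 r0 r1 xs s T ρ) : 0 ≤ s :=
  le_trans (by positivity) h.hs0

lemma Nm.sum (h : Nm c cr ek ad an m s0 q0 q1 t0 t1 r0 r1 xs s T ρ) : xs + s < 1 / 2 := by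
  have h1 := h.hc
  have h2 : ((c + 1 : ℕ) : ℝ) ≤ ((5000 : ℕ) : ℝ) := Nat.cast_le.mpr h.c5
  push_cast at h2
  linarith only [h1, h2]

lemma Nm.ag_le (h : Nm c cr ek ad an m s0 q0 q1 t0 t1 r0 r1 xs s T ρ) (cm : ℕ) :
    ag cm c cr ek ad an T ρ ≤ 1 / 2 - s - xs := by
  unfold ag
  rcases Nat.beq cm 0 with _ | _
  · rw [cond_false]
    rcases Nat.beq cm 1 with _ | _
    · rw [cond_false]
      linarith only [h, h.hek]
    · rw [cond_true, Nat.cast_sub h.cr5]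
      push_cast
      linarith only [h, h.hcr]
  · rw [cond_true, cast_sub h.c5]
    linarith only [h, h.hc]

lemma Nm.Q_ge (h : Nm c cr ek ad an m s0 q0 q1 t0 t1 r0 r1 xs s T ρ) (h0 : 0 < u)
    (hu : u ≤ 1 / 2 - s - xs) :
    lnA u (ρ - T) ≤ LL (lv (1 / 2 - s - xs) (T - ρ)) := by
  rw [LL_lv _ (by linarith only [h0, hu, h.sum]) (by linarith only [h0, hu, h, h.s00, h.xs0]),
    ← lnA_even (1 / 2 - s - xs) (T - ρ), neg_sub]
  exact lnA_mono h0 hu (by linarith only [h, h.s00, h.xs0])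

lemma Nm.Q_le (h : Nm c cr ek ad an m s0 q0 q1 t0 t1 r0 r1 xs s T ρ) {z : ℝ} (hz : z ≤ xs)
    (hz0 : 0 ≤ z) :
    LL (lv (1 / 2 - s - xs) (T - ρ)) ≤ lnA (((5000 - s0 : ℕ) : ℝ) / 10000 - z) (ρ - T) := by
  rw [LL_lv _ (by linarith only [h, h.sum]) (by linarith only [hz, hz0, h, h.s00, h.xs0]),
    ← lnA_even (1 / 2 - s - xs) (T - ρ), neg_sub, cast_sub h.s5]
  have h2 := h.hs0
  have hm : (0 : ℝ) ≤ s0 := Nat.cast_nonneg s0
  exact lnA_mono (by linarith [h.sum]) (by linarith) (by linarith)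

lemma Nm.P_le (h : Nm c cr ek ad an m s0 q0 q1 t0 t1 r0 r1 xs s T ρ) :
    LL (lv (xs + (1 / 2 - s)) (T + ρ)) ≤ lnA (1 / 2) (T + ρ) :=
  LL_le_half (by linarith only [h, h.sum, h.xs0]) (by linarith only [h, h.s00, h.xs1])

lemma Nm.P_ge (h : Nm c cr ek ad an m s0 q0 q1 t0 t1 r0 r1 xs s T ρ) :
    lnA (((5000 - m : ℕ) : ℝ) / 10000) (T + ρ) ≤ LL (lv (xs + (1 / 2 - s)) (T + ρ)) := by
  have h2 : ((m + 1 : ℕ) : ℝ) ≤ ((5000 : ℕ) : ℝ) := Nat.cast_le.mpr h.m5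
  push_cast at h2
  have h3 := h.hm0
  have h4 := h.hm1
  rw [cast_sub h.m5]
  have hm : (0 : ℝ) ≤ m := Nat.cast_nonneg m
  exact lnA_le_LL (by linarith only [h2]) (by linarith only [h4]) (by linarith only [h3])

lemma Fr_eq4 (D : Dmn q0 q1 x T y ρ) :
    Fr x y T ρ = An x T y ρ + Ln x T y ρ + Hb x T y ρ :=
  Fr_split (by linarith only [D, D.x0, D.y0]) (by linarith only [D, D.x1, D.y1])

lemma Sx_eq4 (D : Dmn q0 q1 x T y ρ) :
    Sx x y T (4 * ρ * y) = An x T y ρ - Ln x T y ρ - 2 * lnA x T := by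
  unfold Sx An Ln
  rw [LL_lv _ (by linarith only [D, D.x0, D.y0]) (by linarith only [D, D.x1, D.y1]),
    LL_lv _ D.x0 (by linarith only [D, D.x1]), ← LL_lv_neg (y - x) (T - 4 * ρ * y)]
  have e1 : 4 * ρ * y = 4 * (ρ * y) := by ring
  have e2 : -(T - 4 * (ρ * y)) = 4 * (ρ * y) - T := by ring
  rw [e1, e2]
  ring

/-- the hinge beyond its part -/
theorem Nm.PhA (h : Nm c cr ek ad an m s0 q0 q1 t0 t1 r0 r1 xs s T ρ) (D : Dmn q0 q1 x T y ρ)
    (hk : 0 ≤ kr b y) (h0 : 0 < u) (hu : u ≤ 1 / 2 - s - xs)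
    (hA : PA4 b w ln ld u1 v1 u2 v2 u x T y ρ) :
    -lin u1 v1 u2 v2 x < Ph ((w : ℝ) / 2) (lam ln ld 1) b xs (1 / 2 - s) T ρ x y := by
  obtain ⟨-, h2⟩ := hA
  have hl := lam_nonneg ln ld 1
  set l := lam ln ld 1
  have hD : Dx xs (1 / 2 - s) T ρ ≤ lnA (1 / 2) (T + ρ) - lnA u (ρ - T) := by
    unfold Dx
    have := h.P_le
    have := h.Q_ge h0 hu
    linarith
  have hU := mul_le_mul_of_nonneg_left (mul_le_mul_of_nonneg_left hD hk) hl
  unfold Ph Sp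
  rw [Fr_eq4 D]
  linarith only [h2, hU]

/-- with the increment of the side, below -/
theorem Nm.PhB (h : Nm c cr ek ad an m s0 q0 q1 t0 t1 r0 r1 xs s T ρ) (D : Dmn q0 q1 x T y ρ)
    (hk : 0 ≤ kr b y) (hl1 : lam ln ld 1 * (4 / b) ≤ 1) (ha : s0 + a + 1 ≤ 5000)
    (hB : PB rg b w ln ld s0 a u1 v1 u2 v2 1 x T y ρ) (h0 : rg = 0 → x ≤ xs)
    (h1 : rg ≠ 0 → (a : ℝ) / 10000 ≤ xs) {z : ℝ} (hz0 : rg = 0 → z = x)
    (hz1 : rg ≠ 0 → z = (a : ℝ) / 10000) :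
    -lin u1 v1 u2 v2 x < Ph ((w : ℝ) / 2) (lam ln ld 1) b xs (1 / 2 - s) T ρ x y +
      dS xs (1 / 2 - s) T ρ x y - 2 * (lnA xs T - lnA z T) := by
  have hl := lam_nonneg ln ld 1
  set l := lam ln ld 1
  have hk4 := kr_le (B := b) D.y1
  have hlk : l * kr b y ≤ 1 := (mul_le_mul_of_nonneg_left hk4 hl).trans hl1
  have hlk0 : 0 ≤ l * kr b y := mul_nonneg hl hk
  have hP := h.P_le
  have e2 : LL (lv xs T) = lnA xs T := LL_lv _ h.xs0 (by linarith only [h, h.xs1])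
  unfold Ph Sp dS
  rw [Fr_eq4 D, Sx_eq4 D]
  unfold Dx Sx
  rw [e2]
  set P := LL (lv (xs + (1 / 2 - s)) (T + ρ))
  have k1 : (1 + l * kr b y) * P ≤ (1 + l * kr b y) * lnA (1 / 2) (T + ρ) :=
    mul_le_mul_of_nonneg_left hP (by linarith only [hlk0])
  rcases hB with ⟨hr, hB⟩ | ⟨hr, hB⟩
  · rw [hz0 hr]
    have hQ := h.Q_le (h0 hr) D.x0.le
    have k2 := mul_le_mul_of_nonneg_left hQ (show 0 ≤ 1 - l * kr b y by linarith only [hlk])
    linarith only [k1, hB, k2]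
  · rw [hz1 hr]
    have hQ := h.Q_le (h1 hr) (by positivity)
    have e3 : ((5000 - s0 : ℕ) : ℝ) / 10000 - (a : ℝ) / 10000 =
        ((5000 - s0 - a : ℕ) : ℝ) / 10000 := by
      rw [Nat.cast_sub (show a ≤ 5000 - s0 by omega)]
      ring
    rw [e3] at hQ
    have k2 := mul_le_mul_of_nonneg_left hQ (show 0 ≤ 1 - l * kr b y by linarith only [hlk])
    linarith only [k1, hB, k2]

/-- with the increment of the side, above -/
theorem Nm.PhC (h : Nm c cr ek ad an m s0 q0 q1 t0 t1 r0 r1 xs s T ρ) (D : Dmn q0 q1 x T y ρ)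
    (hk : 0 ≤ kr b y) (hl1 : lam ln ld 1 * (4 / b) ≤ 1) (h0 : 0 < u) (hu : u ≤ 1 / 2 - s - xs)
    (hB : PC4 rg b w ln ld m a u1 v1 u2 v2 u x T y ρ) {z : ℝ} (hz0 : rg = 0 → z = x)
    (hz1 : rg ≠ 0 → z = (a : ℝ) / 10000) :
    -lin u1 v1 u2 v2 x < Ph ((w : ℝ) / 2) (lam ln ld 1) b xs (1 / 2 - s) T ρ x y -
      dS xs (1 / 2 - s) T ρ x y - 2 * (lnA z T - lnA xs T) := by
  have hl := lam_nonneg ln ld 1
  set l := lam ln ld 1
  have hk4 := kr_le (B := b) D.y1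
  have hlk : l * kr b y ≤ 1 := (mul_le_mul_of_nonneg_left hk4 hl).trans hl1
  have hlk0 : 0 ≤ l * kr b y := mul_nonneg hl hk
  have hP := h.P_ge
  have hQ := h.Q_ge h0 hu
  have e2 : LL (lv xs T) = lnA xs T := LL_lv _ h.xs0 (by linarith only [h, h.xs1])
  unfold Ph Sp dS
  rw [Fr_eq4 D, Sx_eq4 D]
  unfold Dx Sx
  rw [e2]
  set P := LL (lv (xs + (1 / 2 - s)) (T + ρ))
  set Q := LL (lv (1 / 2 - s - xs) (T - ρ))
  have k1 := mul_le_mul_of_nonneg_left hP (show 0 ≤ 1 - l * kr b y by linarith only [hlk])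
  have k2 := mul_le_mul_of_nonneg_left hQ (show 0 ≤ 1 + l * kr b y by linarith only [hlk0])
  rcases hB with ⟨hr, hB⟩ | ⟨hr, hB⟩
  · rw [hz0 hr]
    linarith only [k1, k2, hB]
  · rw [hz1 hr]
    linarith only [k1, k2, hB]

/-! ### numerals -/

lemma n0 {n : ℕ} (h : 0 < n) : (0 : ℝ) < (n : ℝ) / 10000 := by
  have : (0 : ℝ) < n := by exact_mod_cast h
  positivity

lemma nle {m n : ℕ} (h : m ≤ n) : (m : ℝ) / 10000 ≤ (n : ℝ) / 10000 := by
  have : (m : ℝ) ≤ n := by exact_mod_cast h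
  linarith only [this]

lemma nhalf {n : ℕ} (h : n ≤ 5000) : (n : ℝ) / 10000 ≤ 1 / 2 := by
  have : (n : ℝ) ≤ ((5000 : ℕ) : ℝ) := by exact_mod_cast h
  push_cast at this
  linarith only [this]

/-! ### the pieces: `b = 4`, `w = 1`, `lam = 65 / 100` -/

lemma kr4 (h : 1 / 8 ≤ y) : 0 ≤ kr ((4 : ℕ) : ℝ) y := by
  apply kr_nonneg (by norm_num)
  push_cast
  linarith only [h]

lemma lam4v : lam 65 100 1 = 65 / 100 := by
  unfold lam
  norm_num

lemma lam4b : lam 65 100 1 * (4 / ((4 : ℕ) : ℝ)) ≤ 1 := by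
  rw [lam4v]
  norm_num

lemma Nm.dmn (h : Nm c cr ek ad an m s0 q0 q1 t0 t1 r0 r1 xs s T ρ)
    (hA : RC.Adm 4 T ρ cl cp x y) (hcl : 0 < cl) (hcp : cp < 1 / 2) : Dmn q0 q1 x T y ρ :=
  Dmn.of hA hcl hcp (by norm_num) h.pos h.lo h.hi

lemma Adm.y8 (hA : RC.Adm 4 T ρ cl cp x y) : 1 / 8 ≤ y := by
  have := hA.y0
  norm_num at this
  linarith only [this]

lemma ycast (hA : RC.Adm 4 T ρ cl cp x y) : (((1250 : ℕ) : ℝ) - (0 : ℕ)) / (10000 : ℕ) ≤ y := by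
  have := Adm.y8 hA
  push_cast
  linarith only [this]

/-- the hinge beyond its part -/
theorem piP (cert : okB 10000 (tP 4 1 65 100 c cr ek ad an u1 v1 u2 v2 q0 q1) 0 1580 0 0 40
      xl xh t0 t1 1250 2500 r0 r1 code = true)
    (h : Nm c cr ek ad an m s0 q0 q1 t0 t1 r0 r1 xs s T ρ) (hA : RC.Adm 4 T ρ cl cp x y)
    (hcl : 0 < cl) (hcp : cp < 1 / 2)
    (hx : (xl : ℝ) / 10000 ≤ x) (hx' : x ≤ (xh : ℝ) / 10000) :
    -lin u1 v1 u2 v2 x < Ph (1 / 2) (65 / 100) 4 xs (1 / 2 - s) T ρ x y := by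
  have D := h.dmn hA hcl hcp
  obtain ⟨cm, hu, hp⟩ := okB_sound (by norm_num) (tP_ok (by norm_num) (by norm_num) h.c5 h.an0)
    cert (xb hx) (xb' hx') h.ht0 h.ht1 (ycast hA) (by push_cast; linarith only [D, D.y1]) h.hr0 h.hr1 D
  have := h.PhA D (kr4 (Adm.y8 hA)) hu (h.ag_le cm) hp
  rw [lam4v, half1] at this
  push_cast at this
  exact this

/-- below the saddle point, `a ≤ x ≤ e` -/
theorem piD0 (cert : okB 10000 (tD 0 4 1 65 100 c cr ek ad an s0 a u1 v1 u2 v2 u1' v1' u2' v2'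
      q0 q1) 0 1580 0 0 40 xl xh t0 t1 1250 2500 r0 r1 code = true)
    (h : Nm c cr ek ad an m s0 q0 q1 t0 t1 r0 r1 xs s T ρ) (hA : RC.Adm 4 T ρ cl cp x y)
    (hcl : 0 < cl) (hcp : cp < 1 / 2) (ha : s0 + a + 1 ≤ 5000)
    (hx : (xl : ℝ) / 10000 ≤ x) (hx' : x ≤ (xh : ℝ) / 10000) (hxs : x ≤ xs) :
    -lin u1 v1 u2 v2 x < Ph (1 / 2) (65 / 100) 4 xs (1 / 2 - s) T ρ x y ∨
      -lin u1' v1' u2' v2' x < Ph (1 / 2) (65 / 100) 4 xs (1 / 2 - s) T ρ x y +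
        dS xs (1 / 2 - s) T ρ x y - 2 * (lnA xs T - lnA x T) := by
  have D := h.dmn hA hcl hcp
  have hp := okB_sound (by norm_num) (tD_ok (by norm_num) (by norm_num) h.c5 h.an0)
    cert (xb hx) (xb' hx') h.ht0 h.ht1 (ycast hA) (by push_cast; linarith only [D, D.y1]) h.hr0 h.hr1 D
  rcases hp with ⟨cm, hu, hp⟩ | hp
  · have := h.PhA D (kr4 (Adm.y8 hA)) hu (h.ag_le cm) hp
    rw [lam4v, half1] at this
    push_cast at this
    exact Or.inl this
  · have := h.PhB D (kr4 (Adm.y8 hA)) lam4b ha hp (fun _ => hxs) (fun hr => absurd rfl hr)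
      (fun _ => rfl) (fun hr => absurd rfl hr)
    rw [lam4v, half1] at this
    push_cast at this
    exact Or.inr this

/-- below the saddle point, `x ≤ a` -/
theorem piD1 (cert : okB 10000 (tD 1 4 1 65 100 c cr ek ad an s0 a u1 v1 u2 v2 u1' v1' u2' v2'
      q0 q1) 0 1580 0 0 40 xl xh t0 t1 1250 2500 r0 r1 code = true)
    (h : Nm c cr ek ad an m s0 q0 q1 t0 t1 r0 r1 xs s T ρ) (hA : RC.Adm 4 T ρ cl cp x y)
    (hcl : 0 < cl) (hcp : cp < 1 / 2) (ha : s0 + a + 1 ≤ 5000)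
    (hx : (xl : ℝ) / 10000 ≤ x) (hx' : x ≤ (xh : ℝ) / 10000) (hxs : (a : ℝ) / 10000 ≤ xs) :
    -lin u1 v1 u2 v2 x < Ph (1 / 2) (65 / 100) 4 xs (1 / 2 - s) T ρ x y ∨
      -lin u1' v1' u2' v2' x < Ph (1 / 2) (65 / 100) 4 xs (1 / 2 - s) T ρ x y +
        dS xs (1 / 2 - s) T ρ x y - 2 * (lnA xs T - lnA ((a : ℝ) / 10000) T) := by
  have D := h.dmn hA hcl hcp
  have hp := okB_sound (by norm_num) (tD_ok (by norm_num) (by norm_num) h.c5 h.an0)
    cert (xb hx) (xb' hx') h.ht0 h.ht1 (ycast hA) (by push_cast; linarith only [D, D.y1]) h.hr0 h.hr1 D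
  rcases hp with ⟨cm, hu, hp⟩ | hp
  · have := h.PhA D (kr4 (Adm.y8 hA)) hu (h.ag_le cm) hp
    rw [lam4v, half1] at this
    push_cast at this
    exact Or.inl this
  · have := h.PhB D (kr4 (Adm.y8 hA)) lam4b ha hp (fun hr => absurd hr one_ne_zero)
      (fun _ => hxs) (fun hr => absurd hr one_ne_zero) (fun _ => rfl)
    rw [lam4v, half1] at this
    push_cast at this
    exact Or.inr this

/-- above the saddle point, `a ≤ x ≤ e` -/
theorem piU0 (cert : okB 10000 (tU 0 4 1 65 100 c cr ek ad an m a u1 v1 u2 v2 u1' v1' u2' v2'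
      q0 q1) 0 1580 0 0 40 xl xh t0 t1 1250 2500 r0 r1 code = true)
    (h : Nm c cr ek ad an m s0 q0 q1 t0 t1 r0 r1 xs s T ρ) (hA : RC.Adm 4 T ρ cl cp x y)
    (hcl : 0 < cl) (hcp : cp < 1 / 2)
    (hx : (xl : ℝ) / 10000 ≤ x) (hx' : x ≤ (xh : ℝ) / 10000) :
    -lin u1 v1 u2 v2 x < Ph (1 / 2) (65 / 100) 4 xs (1 / 2 - s) T ρ x y ∨
      -lin u1' v1' u2' v2' x < Ph (1 / 2) (65 / 100) 4 xs (1 / 2 - s) T ρ x y -
        dS xs (1 / 2 - s) T ρ x y - 2 * (lnA x T - lnA xs T) := by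
  have D := h.dmn hA hcl hcp
  obtain ⟨cm, hu, hp⟩ := okB_sound (by norm_num) (tU_ok (by norm_num) (by norm_num) h.c5 h.an0)
    cert (xb hx) (xb' hx') h.ht0 h.ht1 (ycast hA) (by push_cast; linarith only [D, D.y1]) h.hr0 h.hr1 D
  rcases hp with hp | hp
  · have := h.PhA D (kr4 (Adm.y8 hA)) hu (h.ag_le cm) hp
    rw [lam4v, half1] at this
    push_cast at this
    exact Or.inl this
  · have := h.PhC D (kr4 (Adm.y8 hA)) lam4b hu (h.ag_le cm) hp (fun _ => rfl)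
      (fun hr => absurd rfl hr)
    rw [lam4v, half1] at this
    push_cast at this
    exact Or.inr this

/-- above the saddle point, `e ≤ x` -/
theorem piU1 (cert : okB 10000 (tU 1 4 1 65 100 c cr ek ad an m a u1 v1 u2 v2 u1' v1' u2' v2'
      q0 q1) 0 1580 0 0 40 xl xh t0 t1 1250 2500 r0 r1 code = true)
    (h : Nm c cr ek ad an m s0 q0 q1 t0 t1 r0 r1 xs s T ρ) (hA : RC.Adm 4 T ρ cl cp x y)
    (hcl : 0 < cl) (hcp : cp < 1 / 2)
    (hx : (xl : ℝ) / 10000 ≤ x) (hx' : x ≤ (xh : ℝ) / 10000) :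
    -lin u1 v1 u2 v2 x < Ph (1 / 2) (65 / 100) 4 xs (1 / 2 - s) T ρ x y ∨
      -lin u1' v1' u2' v2' x < Ph (1 / 2) (65 / 100) 4 xs (1 / 2 - s) T ρ x y -
        dS xs (1 / 2 - s) T ρ x y - 2 * (lnA ((a : ℝ) / 10000) T - lnA xs T) := by
  have D := h.dmn hA hcl hcp
  obtain ⟨cm, hu, hp⟩ := okB_sound (by norm_num) (tU_ok (by norm_num) (by norm_num) h.c5 h.an0)
    cert (xb hx) (xb' hx') h.ht0 h.ht1 (ycast hA) (by push_cast; linarith only [D, D.y1]) h.hr0 h.hr1 D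
  rcases hp with hp | hp
  · have := h.PhA D (kr4 (Adm.y8 hA)) hu (h.ag_le cm) hp
    rw [lam4v, half1] at this
    push_cast at this
    exact Or.inl this
  · have := h.PhC D (kr4 (Adm.y8 hA)) lam4b hu (h.ag_le cm) hp
      (fun hr => absurd hr one_ne_zero) (fun _ => rfl)
    rw [lam4v, half1] at this
    push_cast at this
    exact Or.inr this

end

end RQ4

end Pool.Agent.Work.MP_b30479_gt.G2
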