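import Pool.Agent.Work.MP_b30479_gt.G2.RR4F

/-!
# Rings at an end with the ring variable on the ramp, `b = 4`: rows rs
-/

namespace Pool.Agent.Work.MP_b30479_gt.G2

open Real NumI

namespace RQ4

open RC RQ

theorem drs_0_e : okB 10000
    (uE 4090 3820 4440 10 22 2220 2332 1700 462 632 110 440)
    0 1580 0 0 40 1700 1758 1740 2070 1250 2500 440 650
    0x5e20400de240c3830248104040c202 = true := by
  decide +kernel

theorem drs_0_db : okB 10000
    (uD 1 4090 3820 4440 10 22 2220 1700 462 632 110 440)
    0 1580 0 0 40 1000 1700 1740 2070 1250 2500 440 650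
    0x5ef9780de024891201f0b812e0400006481de244808324083832e4818002489010448104045fe032e00a012e048022008003080af1728048022e401000808180bc5cb822608180 = true := by
  decide +kernel

theorem drs_0_da : okB 10000
    (uD 0 4090 3820 4440 10 22 2220 1700 462 632 110 440)
    0 1580 0 0 40 1700 1758 1740 2070 1250 2500 440 650
    0x5e20400de240c3830248104040c202 = true := by
  decide +kernel

theorem drs_0_ua : okB 10000
    (uU 0 4090 3820 4440 10 22 2220 2332 1700 1758 462 632 110 440)
    0 1580 0 0 40 1700 1758 1740 2070 1250 2500 440 650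
    0x5ebb44104040c202 = true := by
  decide +kernel

theorem drs_0_ub : okB 10000
    (uU 1 4090 3820 4440 10 22 2220 2332 1700 1758 462 632 110 440)
    0 1580 0 0 40 1758 2700 1740 2070 1250 2500 440 650
    0x22440af1344b928100101000600384001c102 = true := by
  decide +kernel

theorem trs_0 {xs s T ρ : ℝ} (hW : RWp.In ⟨1700 / 10000, 2170 / 10000, 160 / 10000, 490 / 10000, 2220 / 10000, 2445 / 10000, 440 / 10000, 650 / 10000, 4465 / 10000, 3820 / 10000, 110 / 10000, 440 / 10000, 22 / 10, 59 / 100⟩ xs s T ρ)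
    (hD : Dx xs (1 / 2 - s) T ρ = 2 * π * 4 * ρ)
    (ha : ((1700 : ℕ) : ℝ) / 10000 ≤ xs) (he : xs ≤ ((1758 : ℕ) : ℝ) / 10000)
    (hs : ((2220 : ℕ) : ℝ) / 10000 ≤ s) (hs' : s ≤ ((2332 : ℕ) : ℝ) / 10000) :
    RampOK1 4 xs (1 / 2 - s) T ρ (10 / 100) (27 / 100) := by
  have hN : Nm 4090 3820 4440 10 22 632 2220 110 440 1740 2070 440 650 xs s T ρ := by
    obtain ⟨-, -, w1, w2, -, -, w5, w6, w7, w8, w9, w10, w11, w12⟩ := hW
    dsimp only at w1 w2 w6 w7 w8 w9 w10 w11 w12
    push_cast at ha he hs hs'
    exact ⟨by linarith only [ha, w5, w7], by linarith only [he, w5, w7], by push_cast; linarith only [hs], by norm_num, by push_cast; linarith only [he, hs'],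
      by norm_num, by push_cast; linarith only [he, hs', w5, w6], by norm_num, by push_cast; linarith only [he, hs', w5, w7, w11], by norm_num,
      by push_cast; linarith only [he, hs, w5, w7], by push_cast; linarith only [ha, hs'], by norm_num, by push_cast; linarith only [w1],
      by push_cast; linarith only [w2], by push_cast; linarith only [w6], by push_cast; linarith only [w7], w5,
      fun _ => by push_cast; linarith only [w10], by push_cast; linarith only [w11]⟩
  have g : NE 462 2332 1700 xs s T ρ :=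
    ⟨hD, hs', by norm_num, Or.inr (Or.inl (by push_cast at he hs ⊢; linarith only [he, hs])), by norm_num, ha⟩
  have hcl : (0 : ℝ) < 10 / 100 := by norm_num
  have hcp : (27 / 100 : ℝ) < 1 / 2 := by norm_num
  refine ⟨fun y hA => qE drs_0_e hN g hA hcl hcp (by norm_num) ha he,
    fun x y hA hx => ?_, fun x y hA hx => ?_⟩
  · have hx0 : ((1000 : ℕ) : ℝ) / 10000 ≤ x := le_trans (by norm_num) hA.x0
    rcases le_total x (((1700 : ℕ) : ℝ) / 10000) with hc | hc
    · exact qD drs_0_db hN g hA hcl hcp (by norm_num) (by norm_num) hx0 hc hx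
    · exact qD drs_0_da hN g hA hcl hcp (by norm_num) (by norm_num) hc (hx.le.trans he) hx
  · have hx1 : x ≤ ((2700 : ℕ) : ℝ) / 10000 := le_trans hA.x1 (by norm_num)
    rcases le_total x (((1758 : ℕ) : ℝ) / 10000) with hc | hc
    · exact qU drs_0_ua hN g hA hcl hcp (by norm_num) (by norm_num) he (ha.trans hx.le) hc hx
    · exact qU drs_0_ub hN g hA hcl hcp (by norm_num) (by norm_num) he hc hx1 hx

theorem drs_1_e : okB 10000
    (uE 4174 3820 4411 10 22 2332 2445 1700 603 745 110 440)
    0 1580 0 0 40 1700 1729 1740 2070 1250 2500 440 650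
    0x5ebd7af01240c189040ef5ebdf3081060c1e10200902bc04912bc48181024811204409090404190060c8040408202 = true := by
  decide +kernel

theorem drs_1_db : okB 10000
    (uD 1 4174 3820 4411 10 22 2332 1700 603 745 110 440)
    0 1580 0 0 40 1000 1700 1740 2070 1250 2500 440 650
    0x17af5ef97891225f0b812e06f01240c9031208000005cb81000c087045c003bd789032e001de0378097005c001060c91201f0917005c0012e04007044848206481fc2e481012e04012060ca120608a7c2e0419428080802e40182bc5c9032e043830e08b9212081801208a070400181201c08404082022e5c114025c80204101002e4c117004c100 = true := by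
  decide +kernel

theorem drs_1_da : okB 10000
    (uD 0 4174 3820 4411 10 22 2332 1700 603 745 110 440)
    0 1580 0 0 40 1700 1729 1740 2070 1250 2500 440 650
    0x5ebd7be03bc481890424101bd7880312081de0204183bc049122e040920648112040c8040408202 = true := by
  decide +kernel

theorem drs_1_ua : okB 10000
    (uU 0 4174 3820 4411 10 22 2332 2445 1700 1729 603 745 110 440)
    0 1580 0 0 40 1700 1729 1740 2070 1250 2500 440 650
    0x17aea4040ef013f7409204401834408202 = true := by
  decide +kernel

theorem drs_1_ub : okB 10000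
    (uU 1 4174 3820 4411 10 22 2332 2445 1700 1729 603 745 110 440)
    0 1580 0 0 40 1729 2700 1740 2070 1250 2500 440 650
    0x892820e1c1024578093061c15ebc9528120081830808202bc04810602418904040130410104040c000 = true := by
  decide +kernel

theorem trs_1 {xs s T ρ : ℝ} (hW : RWp.In ⟨1700 / 10000, 2170 / 10000, 160 / 10000, 490 / 10000, 2220 / 10000, 2445 / 10000, 440 / 10000, 650 / 10000, 4465 / 10000, 3820 / 10000, 110 / 10000, 440 / 10000, 22 / 10, 59 / 100⟩ xs s T ρ)
    (hD : Dx xs (1 / 2 - s) T ρ = 2 * π * 4 * ρ)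
    (ha : ((1700 : ℕ) : ℝ) / 10000 ≤ xs) (he : xs ≤ ((1729 : ℕ) : ℝ) / 10000)
    (hs : ((2332 : ℕ) : ℝ) / 10000 ≤ s) (hs' : s ≤ ((2445 : ℕ) : ℝ) / 10000) :
    RampOK1 4 xs (1 / 2 - s) T ρ (10 / 100) (27 / 100) := by
  have hN : Nm 4174 3820 4411 10 22 745 2332 110 440 1740 2070 440 650 xs s T ρ := by
    obtain ⟨-, -, w1, w2, -, -, w5, w6, w7, w8, w9, w10, w11, w12⟩ := hW
    dsimp only at w1 w2 w6 w7 w8 w9 w10 w11 w12
    push_cast at ha he hs hs'
    exact ⟨by linarith only [ha, w5, w7], by linarith only [he, w5, w7], by push_cast; linarith only [hs], by norm_num, by push_cast; linarith only [he, hs'],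
      by norm_num, by push_cast; linarith only [he, hs', w5, w6], by norm_num, by push_cast; linarith only [he, hs', w5, w7, w11], by norm_num,
      by push_cast; linarith only [he, hs, w5, w7], by push_cast; linarith only [ha, hs'], by norm_num, by push_cast; linarith only [w1],
      by push_cast; linarith only [w2], by push_cast; linarith only [w6], by push_cast; linarith only [w7], w5,
      fun _ => by push_cast; linarith only [w10], by push_cast; linarith only [w11]⟩
  have g : NE 603 2445 1700 xs s T ρ :=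
    ⟨hD, hs', by norm_num, Or.inr (Or.inl (by push_cast at he hs ⊢; linarith only [he, hs])), by norm_num, ha⟩
  have hcl : (0 : ℝ) < 10 / 100 := by norm_num
  have hcp : (27 / 100 : ℝ) < 1 / 2 := by norm_num
  refine ⟨fun y hA => qE drs_1_e hN g hA hcl hcp (by norm_num) ha he,
    fun x y hA hx => ?_, fun x y hA hx => ?_⟩
  · have hx0 : ((1000 : ℕ) : ℝ) / 10000 ≤ x := le_trans (by norm_num) hA.x0
    rcases le_total x (((1700 : ℕ) : ℝ) / 10000) with hc | hc
    · exact qD drs_1_db hN g hA hcl hcp (by norm_num) (by norm_num) hx0 hc hx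
    · exact qD drs_1_da hN g hA hcl hcp (by norm_num) (by norm_num) hc (hx.le.trans he) hx
  · have hx1 : x ≤ ((2700 : ℕ) : ℝ) / 10000 := le_trans hA.x1 (by norm_num)
    rcases le_total x (((1729 : ℕ) : ℝ) / 10000) with hc | hc
    · exact qU drs_1_ua hN g hA hcl hcp (by norm_num) (by norm_num) he (ha.trans hx.le) hc hx
    · exact qU drs_1_ub hN g hA hcl hcp (by norm_num) (by norm_num) he hc hx1 hx

theorem drs_2_e : okB 10000
    (uE 4203 3820 4440 10 22 2332 2445 1729 574 716 110 440)
    0 1580 0 0 40 1729 1758 1740 2070 1250 2500 440 650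
    0x17af5e03780922424101bc481de0204382060c912120c092040c91002088040408202 = true := by
  decide +kernel

theorem drs_2_db : okB 10000
    (uD 1 4203 3820 4440 10 22 2332 1729 574 716 110 440)
    0 1580 0 0 40 1000 1729 1740 2070 1250 2500 440 650
    0x17af5e024be5ef9780921208183025ef01bc040920600bde0204903240be17f80c097021c1170200b970200902280080208081de2e241040450003bc04083242417c2e04b81005cb810240801245c00106481120440809040418405f0b812804a012008202000c2022e5c114025c80204101002e4c117004c100 = true := by
  decide +kernel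

theorem drs_2_da : okB 10000
    (uD 0 4203 3820 4440 10 22 2332 1729 574 716 110 440)
    0 1580 0 0 40 1729 1758 1740 2070 1250 2500 440 650
    0x5ebd780922404482065c0832448483020ca12060891402088040408202 = true := by
  decide +kernel

theorem drs_2_ua : okB 10000
    (uU 0 4203 3820 4440 10 22 2332 2445 1729 1758 574 716 110 440)
    0 1580 0 0 40 1729 1758 1740 2070 1250 2500 440 650
    0x174903bb740814e48182449c0824408202 = true := by
  decide +kernel

theorem drs_2_ub : okB 10000
    (uU 1 4203 3820 4440 10 22 2332 2445 1729 1758 574 716 110 440)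
    0 1580 0 0 40 1758 2700 1740 2070 1250 2500 440 650
    0x220e0898704003870409122037af5e025928106baf01bc0408320408090404003008928104881040808100 = true := by
  decide +kernel

theorem trs_2 {xs s T ρ : ℝ} (hW : RWp.In ⟨1700 / 10000, 2170 / 10000, 160 / 10000, 490 / 10000, 2220 / 10000, 2445 / 10000, 440 / 10000, 650 / 10000, 4465 / 10000, 3820 / 10000, 110 / 10000, 440 / 10000, 22 / 10, 59 / 100⟩ xs s T ρ)
    (hD : Dx xs (1 / 2 - s) T ρ = 2 * π * 4 * ρ)
    (ha : ((1729 : ℕ) : ℝ) / 10000 ≤ xs) (he : xs ≤ ((1758 : ℕ) : ℝ) / 10000)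
    (hs : ((2332 : ℕ) : ℝ) / 10000 ≤ s) (hs' : s ≤ ((2445 : ℕ) : ℝ) / 10000) :
    RampOK1 4 xs (1 / 2 - s) T ρ (10 / 100) (27 / 100) := by
  have hN : Nm 4203 3820 4440 10 22 716 2332 110 440 1740 2070 440 650 xs s T ρ := by
    obtain ⟨-, -, w1, w2, -, -, w5, w6, w7, w8, w9, w10, w11, w12⟩ := hW
    dsimp only at w1 w2 w6 w7 w8 w9 w10 w11 w12
    push_cast at ha he hs hs'
    exact ⟨by linarith only [ha, w5, w7], by linarith only [he, w5, w7], by push_cast; linarith only [hs], by norm_num, by push_cast; linarith only [he, hs'],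
      by norm_num, by push_cast; linarith only [he, hs', w5, w6], by norm_num, by push_cast; linarith only [he, hs', w5, w7, w11], by norm_num,
      by push_cast; linarith only [he, hs, w5, w7], by push_cast; linarith only [ha, hs'], by norm_num, by push_cast; linarith only [w1],
      by push_cast; linarith only [w2], by push_cast; linarith only [w6], by push_cast; linarith only [w7], w5,
      fun _ => by push_cast; linarith only [w10], by push_cast; linarith only [w11]⟩
  have g : NE 574 2445 1729 xs s T ρ :=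
    ⟨hD, hs', by norm_num, Or.inr (Or.inl (by push_cast at he hs ⊢; linarith only [he, hs])), by norm_num, ha⟩
  have hcl : (0 : ℝ) < 10 / 100 := by norm_num
  have hcp : (27 / 100 : ℝ) < 1 / 2 := by norm_num
  refine ⟨fun y hA => qE drs_2_e hN g hA hcl hcp (by norm_num) ha he,
    fun x y hA hx => ?_, fun x y hA hx => ?_⟩
  · have hx0 : ((1000 : ℕ) : ℝ) / 10000 ≤ x := le_trans (by norm_num) hA.x0
    rcases le_total x (((1729 : ℕ) : ℝ) / 10000) with hc | hc
    · exact qD drs_2_db hN g hA hcl hcp (by norm_num) (by norm_num) hx0 hc hx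
    · exact qD drs_2_da hN g hA hcl hcp (by norm_num) (by norm_num) hc (hx.le.trans he) hx
  · have hx1 : x ≤ ((2700 : ℕ) : ℝ) / 10000 := le_trans hA.x1 (by norm_num)
    rcases le_total x (((1758 : ℕ) : ℝ) / 10000) with hc | hc
    · exact qU drs_2_ua hN g hA hcl hcp (by norm_num) (by norm_num) he (ha.trans hx.le) hc hx
    · exact qU drs_2_ub hN g hA hcl hcp (by norm_num) (by norm_num) he hc hx1 hx

theorem drs_3_e : okB 10000
    (uE 4217 3820 4454 10 22 2220 2445 1758 448 687 110 440)
    0 1580 0 0 40 1758 1772 1740 2070 1250 2500 440 650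
    0x5ebc06f100778092064815ebc40183bc04084040c8101208084040c202 = true := by
  decide +kernel

theorem drs_3_db : okB 10000
    (uD 1 4217 3820 4454 10 22 2220 1758 448 687 110 440)
    0 1580 0 0 40 1000 1758 1740 2070 1250 2500 440 650
    0x5ebc06f7cbc06f01bc04903f9780de0248482f85c080065c482005c0801208b80062415e0378092120be122ff01800248b80025c0802ff0b81065c0800e08bde025c00124081942008a01000c9122e0409228009032e040120648112045cb832804b822008003201c08404082022e5c114025c80204101002e4c117004c100 = true := by
  decide +kernel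

theorem drs_3_da : okB 10000
    (uD 0 4217 3820 4454 10 22 2220 1758 448 687 110 440)
    0 1580 0 0 40 1758 1772 1740 2070 1250 2500 440 650
    0x17af100778092060c9032408202bc5c19404401940410a010404202 = true := by
  decide +kernel

theorem drs_3_ua : okB 10000
    (uU 0 4217 3820 4454 10 22 2220 2445 1758 1772 448 687 110 440)
    0 1580 0 0 40 1758 1772 1740 2070 1250 2500 440 650
    0x17af01bac0092040c81012080832608202 = true := by
  decide +kernel

theorem drs_3_ub : okB 10000
    (uU 1 4217 3820 4454 10 22 2220 2445 1758 1772 448 687 110 440)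
    0 1580 0 0 40 1772 2700 1740 2070 1250 2500 440 650
    0x88382261c1000e1c102bd780874b780de021d281bc941de0204180064c81020040000689281044c1040808100 = true := by
  decide +kernel

theorem trs_3 {xs s T ρ : ℝ} (hW : RWp.In ⟨1700 / 10000, 2170 / 10000, 160 / 10000, 490 / 10000, 2220 / 10000, 2445 / 10000, 440 / 10000, 650 / 10000, 4465 / 10000, 3820 / 10000, 110 / 10000, 440 / 10000, 22 / 10, 59 / 100⟩ xs s T ρ)
    (hD : Dx xs (1 / 2 - s) T ρ = 2 * π * 4 * ρ)
    (ha : ((1758 : ℕ) : ℝ) / 10000 ≤ xs) (he : xs ≤ ((1772 : ℕ) : ℝ) / 10000)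
    (hs : ((2220 : ℕ) : ℝ) / 10000 ≤ s) (hs' : s ≤ ((2445 : ℕ) : ℝ) / 10000) :
    RampOK1 4 xs (1 / 2 - s) T ρ (10 / 100) (27 / 100) := by
  have hN : Nm 4217 3820 4454 10 22 687 2220 110 440 1740 2070 440 650 xs s T ρ := by
    obtain ⟨-, -, w1, w2, -, -, w5, w6, w7, w8, w9, w10, w11, w12⟩ := hW
    dsimp only at w1 w2 w6 w7 w8 w9 w10 w11 w12
    push_cast at ha he hs hs'
    exact ⟨by linarith only [ha, w5, w7], by linarith only [he, w5, w7], by push_cast; linarith only [hs], by norm_num, by push_cast; linarith only [he, hs'],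
      by norm_num, by push_cast; linarith only [he, hs', w5, w6], by norm_num, by push_cast; linarith only [he, hs', w5, w7, w11], by norm_num,
      by push_cast; linarith only [he, hs, w5, w7], by push_cast; linarith only [ha, hs'], by norm_num, by push_cast; linarith only [w1],
      by push_cast; linarith only [w2], by push_cast; linarith only [w6], by push_cast; linarith only [w7], w5,
      fun _ => by push_cast; linarith only [w10], by push_cast; linarith only [w11]⟩
  have g : NE 448 2445 1758 xs s T ρ :=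
    ⟨hD, hs', by norm_num, Or.inr (Or.inl (by push_cast at he hs ⊢; linarith only [he, hs])), by norm_num, ha⟩
  have hcl : (0 : ℝ) < 10 / 100 := by norm_num
  have hcp : (27 / 100 : ℝ) < 1 / 2 := by norm_num
  refine ⟨fun y hA => qE drs_3_e hN g hA hcl hcp (by norm_num) ha he,
    fun x y hA hx => ?_, fun x y hA hx => ?_⟩
  · have hx0 : ((1000 : ℕ) : ℝ) / 10000 ≤ x := le_trans (by norm_num) hA.x0
    rcases le_total x (((1758 : ℕ) : ℝ) / 10000) with hc | hc
    · exact qD drs_3_db hN g hA hcl hcp (by norm_num) (by norm_num) hx0 hc hx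
    · exact qD drs_3_da hN g hA hcl hcp (by norm_num) (by norm_num) hc (hx.le.trans he) hx
  · have hx1 : x ≤ ((2700 : ℕ) : ℝ) / 10000 := le_trans hA.x1 (by norm_num)
    rcases le_total x (((1772 : ℕ) : ℝ) / 10000) with hc | hc
    · exact qU drs_3_ua hN g hA hcl hcp (by norm_num) (by norm_num) he (ha.trans hx.le) hc hx
    · exact qU drs_3_ub hN g hA hcl hcp (by norm_num) (by norm_num) he hc hx1 hx

theorem drs_4_e : okB 10000
    (uE 4232 3820 4469 10 22 2220 2445 1772 433 673 110 440)
    0 1580 0 0 40 1772 1787 1740 2070 1250 2500 440 650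
    0x17af01244af01240c0de244af01020c092040c912020c90702088040408202 = true := by
  decide +kernel

theorem drs_4_db : okB 10000
    (uD 1 4232 3820 4469 10 22 2220 1772 433 673 110 440)
    0 1580 0 0 40 1000 1772 1740 2070 1250 2500 440 650
    0x17af5e240c1de0378092bc0490306481def80cb812e06f012448b80000c9022e04b9702009032e040172e04b810048a0004481140040104040ef5e2e481090450007040c1810e48a0000481920e08b800248192044810405f0b812804a012008202000c2022e5c114025c80204101002e4c117004c100 = true := by
  decide +kernel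

theorem drs_4_da : okB 10000
    (uD 0 4232 3820 4469 10 22 2220 1772 433 673 110 440)
    0 1580 0 0 40 1772 1787 1740 2070 1250 2500 440 650
    0x5e244af010248183bc5c181240ca12060891402088040408202 = true := by
  decide +kernel

theorem drs_4_ua : okB 10000
    (uU 0 4232 3820 4469 10 22 2220 2445 1772 1787 433 673 110 440)
    0 1580 0 0 40 1772 1787 1740 2070 1250 2500 440 650
    0x5460049034e48182441c0822608202 = true := by
  decide +kernel

theorem drs_4_ub : okB 10000
    (uU 1 4232 3820 4469 10 22 2220 2445 1772 1787 433 673 110 440)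
    0 1580 0 0 40 1787 2700 1740 2070 1250 2500 440 650
    0x88382261c1000e1c102449408405783a55c04003200d3b000401a50e0c101441c08226080040808100 = true := by
  decide +kernel

theorem trs_4 {xs s T ρ : ℝ} (hW : RWp.In ⟨1700 / 10000, 2170 / 10000, 160 / 10000, 490 / 10000, 2220 / 10000, 2445 / 10000, 440 / 10000, 650 / 10000, 4465 / 10000, 3820 / 10000, 110 / 10000, 440 / 10000, 22 / 10, 59 / 100⟩ xs s T ρ)
    (hD : Dx xs (1 / 2 - s) T ρ = 2 * π * 4 * ρ)
    (ha : ((1772 : ℕ) : ℝ) / 10000 ≤ xs) (he : xs ≤ ((1787 : ℕ) : ℝ) / 10000)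
    (hs : ((2220 : ℕ) : ℝ) / 10000 ≤ s) (hs' : s ≤ ((2445 : ℕ) : ℝ) / 10000) :
    RampOK1 4 xs (1 / 2 - s) T ρ (10 / 100) (27 / 100) := by
  have hN : Nm 4232 3820 4469 10 22 673 2220 110 440 1740 2070 440 650 xs s T ρ := by
    obtain ⟨-, -, w1, w2, -, -, w5, w6, w7, w8, w9, w10, w11, w12⟩ := hW
    dsimp only at w1 w2 w6 w7 w8 w9 w10 w11 w12
    push_cast at ha he hs hs'
    exact ⟨by linarith only [ha, w5, w7], by linarith only [he, w5, w7], by push_cast; linarith only [hs], by norm_num, by push_cast; linarith only [he, hs'],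
      by norm_num, by push_cast; linarith only [he, hs', w5, w6], by norm_num, by push_cast; linarith only [he, hs', w5, w7, w11], by norm_num,
      by push_cast; linarith only [he, hs, w5, w7], by push_cast; linarith only [ha, hs'], by norm_num, by push_cast; linarith only [w1],
      by push_cast; linarith only [w2], by push_cast; linarith only [w6], by push_cast; linarith only [w7], w5,
      fun _ => by push_cast; linarith only [w10], by push_cast; linarith only [w11]⟩
  have g : NE 433 2445 1772 xs s T ρ :=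
    ⟨hD, hs', by norm_num, Or.inr (Or.inl (by push_cast at he hs ⊢; linarith only [he, hs])), by norm_num, ha⟩
  have hcl : (0 : ℝ) < 10 / 100 := by norm_num
  have hcp : (27 / 100 : ℝ) < 1 / 2 := by norm_num
  refine ⟨fun y hA => qE drs_4_e hN g hA hcl hcp (by norm_num) ha he,
    fun x y hA hx => ?_, fun x y hA hx => ?_⟩
  · have hx0 : ((1000 : ℕ) : ℝ) / 10000 ≤ x := le_trans (by norm_num) hA.x0
    rcases le_total x (((1772 : ℕ) : ℝ) / 10000) with hc | hc
    · exact qD drs_4_db hN g hA hcl hcp (by norm_num) (by norm_num) hx0 hc hx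
    · exact qD drs_4_da hN g hA hcl hcp (by norm_num) (by norm_num) hc (hx.le.trans he) hx
  · have hx1 : x ≤ ((2700 : ℕ) : ℝ) / 10000 := le_trans hA.x1 (by norm_num)
    rcases le_total x (((1787 : ℕ) : ℝ) / 10000) with hc | hc
    · exact qU drs_4_ua hN g hA hcl hcp (by norm_num) (by norm_num) he (ha.trans hx.le) hc hx
    · exact qU drs_4_ub hN g hA hcl hcp (by norm_num) (by norm_num) he hc hx1 hx

theorem drs_5_e : okB 10000
    (uE 4262 3820 4499 10 22 2220 2445 1787 403 658 110 440)
    0 1580 0 0 40 1787 1817 1740 2070 1250 2500 440 650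
    0x17af12060ef01c202f01bc04909044b080bc04903021c1032448083241c0820808202 = true := by
  decide +kernel

theorem drs_5_db : okB 10000
    (uD 1 4262 3820 4499 10 22 2220 1787 403 658 110 440)
    0 1580 0 0 40 1000 1787 1740 2070 1250 2500 440 650
    0x17af5ebd780de0248917bc040120600183065c003bc06f01245c903240cb800048b8002481172e04092060cb920608a022e5c194045c0940450100bc5cb8106501012850080285c102f840090200448202488012e1c18003f0b812804a010040103201c08404082022e5c114025c80204101002e4c117004c100 = true := by
  decide +kernel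

theorem drs_5_da : okB 10000
    (uD 0 4262 3820 4499 10 22 2220 1787 403 658 110 440)
    0 1580 0 0 40 1787 1817 1740 2070 1250 2500 440 650
    0x17af12060ef01240ef120606f170604903284818224500820808202 = true := by
  decide +kernel

theorem drs_5_ua : okB 10000
    (uU 0 4262 3820 4499 10 22 2220 2445 1787 1817 403 658 110 440)
    0 1580 0 0 40 1787 1817 1740 2070 1250 2500 440 650
    0x5d6004903249c082241c0820808202 = true := by
  decide +kernel

theorem drs_5_ub : okB 10000
    (uU 1 4262 3820 4499 10 22 2220 2445 1787 1817 403 658 110 440)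
    0 1580 0 0 40 1817 2700 1740 2070 1250 2500 440 650
    0x891020e1c0020e1c10244582020259810061c100200ef126000382061c181441c08208080040808100 = true := by
  decide +kernel

theorem trs_5 {xs s T ρ : ℝ} (hW : RWp.In ⟨1700 / 10000, 2170 / 10000, 160 / 10000, 490 / 10000, 2220 / 10000, 2445 / 10000, 440 / 10000, 650 / 10000, 4465 / 10000, 3820 / 10000, 110 / 10000, 440 / 10000, 22 / 10, 59 / 100⟩ xs s T ρ)
    (hD : Dx xs (1 / 2 - s) T ρ = 2 * π * 4 * ρ)
    (ha : ((1787 : ℕ) : ℝ) / 10000 ≤ xs) (he : xs ≤ ((1817 : ℕ) : ℝ) / 10000)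
    (hs : ((2220 : ℕ) : ℝ) / 10000 ≤ s) (hs' : s ≤ ((2445 : ℕ) : ℝ) / 10000) :
    RampOK1 4 xs (1 / 2 - s) T ρ (10 / 100) (27 / 100) := by
  have hN : Nm 4262 3820 4499 10 22 658 2220 110 440 1740 2070 440 650 xs s T ρ := by
    obtain ⟨-, -, w1, w2, -, -, w5, w6, w7, w8, w9, w10, w11, w12⟩ := hW
    dsimp only at w1 w2 w6 w7 w8 w9 w10 w11 w12
    push_cast at ha he hs hs'
    exact ⟨by linarith only [ha, w5, w7], by linarith only [he, w5, w7], by push_cast; linarith only [hs], by norm_num, by push_cast; linarith only [he, hs'],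
      by norm_num, by push_cast; linarith only [w9], by norm_num, by push_cast; linarith only [he, hs', w5, w7, w11], by norm_num,
      by push_cast; linarith only [he, hs, w5, w7], by push_cast; linarith only [ha, hs'], by norm_num, by push_cast; linarith only [w1],
      by push_cast; linarith only [w2], by push_cast; linarith only [w6], by push_cast; linarith only [w7], w5,
      fun _ => by push_cast; linarith only [w10], by push_cast; linarith only [w11]⟩
  have g : NE 403 2445 1787 xs s T ρ :=
    ⟨hD, hs', by norm_num, Or.inr (Or.inl (by push_cast at he hs ⊢; linarith only [he, hs])), by norm_num, ha⟩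
  have hcl : (0 : ℝ) < 10 / 100 := by norm_num
  have hcp : (27 / 100 : ℝ) < 1 / 2 := by norm_num
  refine ⟨fun y hA => qE drs_5_e hN g hA hcl hcp (by norm_num) ha he,
    fun x y hA hx => ?_, fun x y hA hx => ?_⟩
  · have hx0 : ((1000 : ℕ) : ℝ) / 10000 ≤ x := le_trans (by norm_num) hA.x0
    rcases le_total x (((1787 : ℕ) : ℝ) / 10000) with hc | hc
    · exact qD drs_5_db hN g hA hcl hcp (by norm_num) (by norm_num) hx0 hc hx
    · exact qD drs_5_da hN g hA hcl hcp (by norm_num) (by norm_num) hc (hx.le.trans he) hx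
  · have hx1 : x ≤ ((2700 : ℕ) : ℝ) / 10000 := le_trans hA.x1 (by norm_num)
    rcases le_total x (((1817 : ℕ) : ℝ) / 10000) with hc | hc
    · exact qU drs_5_ua hN g hA hcl hcp (by norm_num) (by norm_num) he (ha.trans hx.le) hc hx
    · exact qU drs_5_ub hN g hA hcl hcp (by norm_num) (by norm_num) he hc hx1 hx

theorem drs_6_e : okB 10000
    (uE 4321 3820 4558 10 22 2220 2445 1817 344 628 110 440)
    0 1580 0 0 40 1817 1876 1740 2070 1250 2500 440 650
    0x5e240ef01240f092077b092060c080240ef12078406100481dec248192060c081240c910200408220101820808202 = true := by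
  decide +kernel

theorem drs_6_db : okB 10000
    (uD 1 4321 3820 4558 10 22 2220 1817 344 628 110 440)
    0 1580 0 0 40 1000 1817 1740 2070 1250 2500 440 650
    0x5e2e481832e04b80240cb970604b97240c1970200b802e08b822e04b8028089122e04007045c0122450000061c1032800812045c803000cb972408190065cb89060c0142808001205c014020880702101020808b97045009720081040400b93044c1172608000 = true := by
  decide +kernel

theorem drs_6_da : okB 10000
    (uD 0 4321 3820 4558 10 22 2220 1817 344 628 110 440)
    0 1580 0 0 40 1817 1876 1740 2070 1250 2500 440 650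
    0x12bc481de2f78092060c0002e049032e049032e241822e5c181280880320500820808202 = true := by
  decide +kernel

theorem drs_6_ua : okB 10000
    (uU 0 4321 3820 4558 10 22 2220 2445 1817 1876 344 628 110 440)
    0 1580 0 0 40 1817 1876 1740 2070 1250 2500 440 650
    0x54a806e81ba0880320101820808202 = true := by
  decide +kernel

theorem drs_6_ub : okB 10000
    (uU 1 4321 3820 4558 10 22 2220 2445 1817 1876 344 628 110 440)
    0 1580 0 0 40 1876 2700 1740 2070 1250 2500 440 650
    0x130e08382261c1000e1c1022658202021d807061c100200c9824ec0803001c18720001070404202001c100 = true := by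
  decide +kernel

theorem trs_6 {xs s T ρ : ℝ} (hW : RWp.In ⟨1700 / 10000, 2170 / 10000, 160 / 10000, 490 / 10000, 2220 / 10000, 2445 / 10000, 440 / 10000, 650 / 10000, 4465 / 10000, 3820 / 10000, 110 / 10000, 440 / 10000, 22 / 10, 59 / 100⟩ xs s T ρ)
    (hD : Dx xs (1 / 2 - s) T ρ = 2 * π * 4 * ρ)
    (ha : ((1817 : ℕ) : ℝ) / 10000 ≤ xs) (he : xs ≤ ((1876 : ℕ) : ℝ) / 10000)
    (hs : ((2220 : ℕ) : ℝ) / 10000 ≤ s) (hs' : s ≤ ((2445 : ℕ) : ℝ) / 10000) :
    RampOK1 4 xs (1 / 2 - s) T ρ (10 / 100) (27 / 100) := by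
  have hN : Nm 4321 3820 4558 10 22 628 2220 110 440 1740 2070 440 650 xs s T ρ := by
    obtain ⟨-, -, w1, w2, -, -, w5, w6, w7, w8, w9, w10, w11, w12⟩ := hW
    dsimp only at w1 w2 w6 w7 w8 w9 w10 w11 w12
    push_cast at ha he hs hs'
    exact ⟨by linarith only [ha, w5, w7], by linarith only [he, w5, w7], by push_cast; linarith only [hs], by norm_num, by push_cast; linarith only [he, hs'],
      by norm_num, by push_cast; linarith only [w9], by norm_num, by push_cast; linarith only [he, hs', w5, w7, w11], by norm_num,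
      by push_cast; linarith only [he, hs, w5, w7], by push_cast; linarith only [ha, hs'], by norm_num, by push_cast; linarith only [w1],
      by push_cast; linarith only [w2], by push_cast; linarith only [w6], by push_cast; linarith only [w7], w5,
      fun _ => by push_cast; linarith only [w10], by push_cast; linarith only [w11]⟩
  have g : NE 344 2445 1817 xs s T ρ :=
    ⟨hD, hs', by norm_num, Or.inr (Or.inl (by push_cast at he hs ⊢; linarith only [he, hs])), by norm_num, ha⟩
  have hcl : (0 : ℝ) < 10 / 100 := by norm_num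
  have hcp : (27 / 100 : ℝ) < 1 / 2 := by norm_num
  refine ⟨fun y hA => qE drs_6_e hN g hA hcl hcp (by norm_num) ha he,
    fun x y hA hx => ?_, fun x y hA hx => ?_⟩
  · have hx0 : ((1000 : ℕ) : ℝ) / 10000 ≤ x := le_trans (by norm_num) hA.x0
    rcases le_total x (((1817 : ℕ) : ℝ) / 10000) with hc | hc
    · exact qD drs_6_db hN g hA hcl hcp (by norm_num) (by norm_num) hx0 hc hx
    · exact qD drs_6_da hN g hA hcl hcp (by norm_num) (by norm_num) hc (hx.le.trans he) hx
  · have hx1 : x ≤ ((2700 : ℕ) : ℝ) / 10000 := le_trans hA.x1 (by norm_num)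
    rcases le_total x (((1876 : ℕ) : ℝ) / 10000) with hc | hc
    · exact qU drs_6_ua hN g hA hcl hcp (by norm_num) (by norm_num) he (ha.trans hx.le) hc hx
    · exact qU drs_6_ub hN g hA hcl hcp (by norm_num) (by norm_num) he hc hx1 hx

theorem drs_7_e : okB 10000
    (uE 4380 3820 4617 10 22 2220 2445 1876 285 569 110 440)
    0 1580 0 0 40 1876 1935 1740 2070 1250 2500 440 650
    0x102040801020496101840120778903c2000920604903244008220101820808202 = true := by
  decide +kernel

theorem drs_7_db : okB 10000
    (uD 1 4380 3820 4617 10 22 2220 1876 285 569 110 440)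
    0 1580 0 0 40 1000 1876 1740 2070 1250 2500 440 650
    0x17240cb8124089030e089032e4819400501120600802285f103065c1002e5c09006500140e0c1140404204001c08404082022e5c114025c98204101002e4c117004c100 = true := by
  decide +kernel

theorem drs_7_da : okB 10000
    (uD 0 4380 3820 4617 10 22 2220 1876 285 569 110 440)
    0 1580 0 0 40 1876 1935 1740 2070 1250 2500 440 650
    0x122e04b811248083280880320500820808a02 = true := by
  decide +kernel

theorem drs_7_ua : okB 10000
    (uU 0 4380 3820 4617 10 22 2220 2445 1876 1935 285 569 110 440)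
    0 1580 0 0 40 1876 1935 1740 2070 1250 2500 440 650
    0x152a01120aea70404803261c0820808202 = true := by
  decide +kernel

theorem drs_7_ub : okB 10000
    (uU 1 4380 3820 4617 10 22 2220 2445 1876 1935 285 569 110 440)
    0 1580 0 0 40 1935 2700 1740 2070 1250 2500 440 650
    0x58382261c1000e1c1020e1c3900000830004010704040130e041130e04193041c100 = true := by
  decide +kernel

theorem trs_7 {xs s T ρ : ℝ} (hW : RWp.In ⟨1700 / 10000, 2170 / 10000, 160 / 10000, 490 / 10000, 2220 / 10000, 2445 / 10000, 440 / 10000, 650 / 10000, 4465 / 10000, 3820 / 10000, 110 / 10000, 440 / 10000, 22 / 10, 59 / 100⟩ xs s T ρ)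
    (hD : Dx xs (1 / 2 - s) T ρ = 2 * π * 4 * ρ)
    (ha : ((1876 : ℕ) : ℝ) / 10000 ≤ xs) (he : xs ≤ ((1935 : ℕ) : ℝ) / 10000)
    (hs : ((2220 : ℕ) : ℝ) / 10000 ≤ s) (hs' : s ≤ ((2445 : ℕ) : ℝ) / 10000) :
    RampOK1 4 xs (1 / 2 - s) T ρ (10 / 100) (27 / 100) := by
  have hN : Nm 4380 3820 4617 10 22 569 2220 110 440 1740 2070 440 650 xs s T ρ := by
    obtain ⟨-, -, w1, w2, -, -, w5, w6, w7, w8, w9, w10, w11, w12⟩ := hW
    dsimp only at w1 w2 w6 w7 w8 w9 w10 w11 w12
    push_cast at ha he hs hs'
    exact ⟨by linarith only [ha, w5, w7], by linarith only [he, w5, w7], by push_cast; linarith only [hs], by norm_num, by push_cast; linarith only [he, hs'],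
      by norm_num, by push_cast; linarith only [w9], by norm_num, by push_cast; linarith only [he, hs', w5, w7, w11], by norm_num,
      by push_cast; linarith only [he, hs, w5, w7], by push_cast; linarith only [ha, hs'], by norm_num, by push_cast; linarith only [w1],
      by push_cast; linarith only [w2], by push_cast; linarith only [w6], by push_cast; linarith only [w7], w5,
      fun _ => by push_cast; linarith only [w10], by push_cast; linarith only [w11]⟩
  have g : NE 285 2445 1876 xs s T ρ :=
    ⟨hD, hs', by norm_num, Or.inr (Or.inl (by push_cast at he hs ⊢; linarith only [he, hs])), by norm_num, ha⟩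
  have hcl : (0 : ℝ) < 10 / 100 := by norm_num
  have hcp : (27 / 100 : ℝ) < 1 / 2 := by norm_num
  refine ⟨fun y hA => qE drs_7_e hN g hA hcl hcp (by norm_num) ha he,
    fun x y hA hx => ?_, fun x y hA hx => ?_⟩
  · have hx0 : ((1000 : ℕ) : ℝ) / 10000 ≤ x := le_trans (by norm_num) hA.x0
    rcases le_total x (((1876 : ℕ) : ℝ) / 10000) with hc | hc
    · exact qD drs_7_db hN g hA hcl hcp (by norm_num) (by norm_num) hx0 hc hx
    · exact qD drs_7_da hN g hA hcl hcp (by norm_num) (by norm_num) hc (hx.le.trans he) hx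
  · have hx1 : x ≤ ((2700 : ℕ) : ℝ) / 10000 := le_trans hA.x1 (by norm_num)
    rcases le_total x (((1935 : ℕ) : ℝ) / 10000) with hc | hc
    · exact qU drs_7_ua hN g hA hcl hcp (by norm_num) (by norm_num) he (ha.trans hx.le) hc hx
    · exact qU drs_7_ub hN g hA hcl hcp (by norm_num) (by norm_num) he hc hx1 hx

theorem drs_8_e : okB 10000
    (uE 4465 3820 4852 10 22 2220 2445 1935 50 510 110 440)
    0 1580 0 0 40 1935 2170 1740 2070 1250 2500 440 650
    0x1c3900203190000c2040008810217c9030204010061c187041c1010808382 = true := by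
  decide +kernel

theorem drs_8_db : okB 10000
    (uD 1 4465 3820 4852 10 22 2220 1935 50 510 110 440)
    0 1580 0 0 40 1000 1935 1740 2070 1250 2500 440 650
    0x122e04b80200c382280081c000cb92045c00706500012040014020820708080820808b970450090080898004101002e4c113004c100 = true := by
  decide +kernel

theorem drs_8_da : okB 10000
    (uD 0 4465 3820 4852 10 22 2220 1935 50 510 110 440)
    0 1580 0 0 40 1935 2170 1740 2070 1250 2500 440 650
    0x72000a02c6400030810002205cb800050114041c1810808a02 = true := by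
  decide +kernel

theorem drs_8_ua : okB 10000
    (uU 0 4465 3820 4852 10 22 2220 2445 1935 2170 50 510 110 440)
    0 1580 0 0 40 1935 2170 1740 2070 1250 2500 440 650
    0x70e4008008089832174b03001c187041c1010808382 = true := by
  decide +kernel

theorem drs_8_ub : okB 10000
    (uU 1 4465 3820 4852 10 22 2220 2445 1935 2170 50 510 110 440)
    0 1580 0 0 40 2170 2700 1740 2070 1250 2500 440 650
    0x70e08382261c1030e1c102081c087041c1130e042020e08000 = true := by
  decide +kernel

theorem trs_8 {xs s T ρ : ℝ} (hW : RWp.In ⟨1700 / 10000, 2170 / 10000, 160 / 10000, 490 / 10000, 2220 / 10000, 2445 / 10000, 440 / 10000, 650 / 10000, 4465 / 10000, 3820 / 10000, 110 / 10000, 440 / 10000, 22 / 10, 59 / 100⟩ xs s T ρ)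
    (hD : Dx xs (1 / 2 - s) T ρ = 2 * π * 4 * ρ)
    (ha : ((1935 : ℕ) : ℝ) / 10000 ≤ xs) (he : xs ≤ ((2170 : ℕ) : ℝ) / 10000)
    (hs : ((2220 : ℕ) : ℝ) / 10000 ≤ s) (hs' : s ≤ ((2445 : ℕ) : ℝ) / 10000) :
    RampOK1 4 xs (1 / 2 - s) T ρ (10 / 100) (27 / 100) := by
  have hN : Nm 4465 3820 4852 10 22 510 2220 110 440 1740 2070 440 650 xs s T ρ := by
    obtain ⟨-, -, w1, w2, -, -, w5, w6, w7, w8, w9, w10, w11, w12⟩ := hW
    dsimp only at w1 w2 w6 w7 w8 w9 w10 w11 w12
    push_cast at ha he hs hs'
    exact ⟨by linarith only [ha, w5, w7], by linarith only [he, w5, w7], by push_cast; linarith only [hs], by norm_num, by push_cast; linarith only [w8],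
      by norm_num, by push_cast; linarith only [w9], by norm_num, by push_cast; linarith only [he, hs', w5, w7, w11], by norm_num,
      by push_cast; linarith only [he, hs, w5, w7], by push_cast; linarith only [ha, hs'], by norm_num, by push_cast; linarith only [w1],
      by push_cast; linarith only [w2], by push_cast; linarith only [w6], by push_cast; linarith only [w7], w5,
      fun _ => by push_cast; linarith only [w10], by push_cast; linarith only [w11]⟩
  have g : NE 50 2445 1935 xs s T ρ :=
    ⟨hD, hs', by norm_num, Or.inr (Or.inl (by push_cast at he hs ⊢; linarith only [he, hs])), by norm_num, ha⟩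
  have hcl : (0 : ℝ) < 10 / 100 := by norm_num
  have hcp : (27 / 100 : ℝ) < 1 / 2 := by norm_num
  refine ⟨fun y hA => qE drs_8_e hN g hA hcl hcp (by norm_num) ha he,
    fun x y hA hx => ?_, fun x y hA hx => ?_⟩
  · have hx0 : ((1000 : ℕ) : ℝ) / 10000 ≤ x := le_trans (by norm_num) hA.x0
    rcases le_total x (((1935 : ℕ) : ℝ) / 10000) with hc | hc
    · exact qD drs_8_db hN g hA hcl hcp (by norm_num) (by norm_num) hx0 hc hx
    · exact qD drs_8_da hN g hA hcl hcp (by norm_num) (by norm_num) hc (hx.le.trans he) hx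
  · have hx1 : x ≤ ((2700 : ℕ) : ℝ) / 10000 := le_trans hA.x1 (by norm_num)
    rcases le_total x (((2170 : ℕ) : ℝ) / 10000) with hc | hc
    · exact qU drs_8_ua hN g hA hcl hcp (by norm_num) (by norm_num) he (ha.trans hx.le) hc hx
    · exact qU drs_8_ub hN g hA hcl hcp (by norm_num) (by norm_num) he hc hx1 hx

end RQ4

namespace RC

theorem e4_rs : RowE
    ⟨1700 / 10000, 2170 / 10000, 160 / 10000, 490 / 10000, 2220 / 10000, 2445 / 10000, 440 / 10000, 650 / 10000, 4465 / 10000, 3820 / 10000, 110 / 10000, 440 / 10000, 22 / 10, 59 / 100⟩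
    4 (10 / 100) (27 / 100) := by
  intro xs s T ρ hW hD
  have h0 : ((1700 : ℕ) : ℝ) / 10000 ≤ xs := le_trans (by norm_num) hW.x0
  have h1 : xs ≤ ((2170 : ℕ) : ℝ) / 10000 := le_trans hW.x1 (by norm_num)
  have k0 : ((2220 : ℕ) : ℝ) / 10000 ≤ s := le_trans (by norm_num) hW.s0
  have k1 : s ≤ ((2445 : ℕ) : ℝ) / 10000 := le_trans hW.s1 (by norm_num)
  rcases le_total xs (((1758 : ℕ) : ℝ) / 10000) with m1758 | m1758
  · rcases le_total s (((2332 : ℕ) : ℝ) / 10000) with u2332 | u2332
    · exact RQ4.trs_0 hW hD h0 m1758 k0 u2332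
    · rcases le_total xs (((1729 : ℕ) : ℝ) / 10000) with m1729 | m1729
      · exact RQ4.trs_1 hW hD h0 m1729 u2332 k1
      · exact RQ4.trs_2 hW hD m1729 m1758 u2332 k1
  · rcases le_total xs (((1772 : ℕ) : ℝ) / 10000) with m1772 | m1772
    · exact RQ4.trs_3 hW hD m1758 m1772 k0 k1
    · rcases le_total xs (((1787 : ℕ) : ℝ) / 10000) with m1787 | m1787
      · exact RQ4.trs_4 hW hD m1772 m1787 k0 k1
      · rcases le_total xs (((1817 : ℕ) : ℝ) / 10000) with m1817 | m1817
        · exact RQ4.trs_5 hW hD m1787 m1817 k0 k1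
        · rcases le_total xs (((1876 : ℕ) : ℝ) / 10000) with m1876 | m1876
          · exact RQ4.trs_6 hW hD m1817 m1876 k0 k1
          · rcases le_total xs (((1935 : ℕ) : ℝ) / 10000) with m1935 | m1935
            · exact RQ4.trs_7 hW hD m1876 m1935 k0 k1
            · exact RQ4.trs_8 hW hD m1935 h1 k0 k1

end RC

end Pool.Agent.Work.MP_b30479_gt.G2
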