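import Pool.Agent.Work.MP_b30479_gt.G2.RRP
import Pool.Agent.Work.MP_b30479_gt.G2.RRC5

/-!
# Rings with the ring variable on the ramp: the rows `b = 5`
-/

namespace Pool.Agent.Work.MP_b30479_gt.G2

open Real NumI

namespace RC

open RQ

theorem E5_one : RowE (wOne5e 0 (43 / 1000)) 5 (16 / 100) (36 / 100) := by
  intro xs s T ρ hW hD
  have ha : (2166 / 10000 : ℝ) ≤ xs := le_trans (by norm_num [wOne5e]) hW.x0
  have he : xs ≤ (2783 / 10000 : ℝ) := le_trans hW.x1 (by norm_num [wOne5e])
  have hN : Nums (wOne5e 0 (43 / 1000)) ((5 : ℕ) : ℝ) (2166 / 10000) (2783 / 10000) (16 / 100) (36 / 100)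
      5 4580 1203 1580 785 1521 200 1200 1500 430 :=
    ⟨by norm_num, le_rfl, by norm_num, by norm_num, by norm_num, by norm_num, by norm_num [wOne5e],
      by norm_num, Or.inl (by norm_num [wOne5e]), by norm_num, by norm_num [wOne5e],
      by norm_num [wOne5e], by norm_num, by norm_num [wOne5e], by norm_num [wOne5e], by norm_num,
      by norm_num [wOne5e], fun _ => by norm_num [wOne5e], by norm_num [wOne5e]⟩
  have hS : ∀ x y, RC.Adm 5 T ρ (16 / 100) (36 / 100) x y →
      Sd ((5 : ℕ) : ℝ) 5 4580 1203 1580 785 1521 200 1200 1500 430 xs s T ρ x y :=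
    fun x y hA => Sd.of hN hW ha he (by push_cast; exact hA)
  refine RampOK1.of (by norm_num) hD (fun y hA => ?_) (fun x y hA hx => ?_) (fun x y hA hx => ?_)
  · have h := eP cE5_one_e (by norm_num) (hS xs y hA) (Or.inl rfl)
      (by push_cast; linarith only [ha]) (by push_cast; linarith only [he])
    push_cast at h
    exact h
  · have hx0 := hA.x0
    have hx1 := hA.x1
    rcases le_total x (2166 / 10000) with hc | hc
    · have h := eD1 cE5_one_db (by norm_num) (hS x y hA) (by norm_num) (by norm_num)
        (by norm_num) (by push_cast; linarith only [hx0]) (by push_cast; linarith only [hc]) (by push_cast; exact ha)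
      push_cast at h
      exact h
    · have h := eD0 cE5_one_da (by norm_num) (hS x y hA) (by norm_num) (by norm_num)
        (by push_cast; linarith only [hc]) (by push_cast; linarith only [he, hx]) hx.le
      push_cast at h
      exact h
  · have hx0 := hA.x0
    have hx1 := hA.x1
    rcases le_total x (2783 / 10000) with hc | hc
    · have h := eU0 cE5_one_ua (by norm_num) (hS x y hA) (by norm_num)
        (by push_cast; linarith only [ha, hx]) (by push_cast; linarith only [hc]) hx.le
      push_cast at h
      exact h
    · have h := eU1 cE5_one_ub (by norm_num) (hS x y hA) (by norm_num) (by norm_num)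
        (by push_cast; linarith only [hc]) (by push_cast; linarith only [hx1]) (by push_cast; exact he)
      push_cast at h
      exact h

theorem E5_two : RowE (wTwo (158 / 1000) (206 / 1000) 0 (43 / 1000)) 5 (125 / 1000) (30 / 100) := by
  intro xs s T ρ hW hD
  have ha : (1860 / 10000 : ℝ) ≤ xs := le_trans (by norm_num [wTwo]) hW.x0
  have he : xs ≤ (2520 / 10000 : ℝ) := le_trans hW.x1 (by norm_num [wTwo])
  have hN : Nums (wTwo (158 / 1000) (206 / 1000) 0 (43 / 1000)) ((5 : ℕ) : ℝ) (1860 / 10000) (2520 / 10000) (125 / 1000) (30 / 100)
      5 4495 940 1580 0 1400 620 1480 1500 430 :=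
    ⟨by norm_num, le_rfl, by norm_num, by norm_num, by norm_num, by norm_num, by norm_num [wTwo],
      by norm_num, Or.inl (by norm_num [wTwo]), by norm_num, by norm_num [wTwo],
      by norm_num [wTwo], by norm_num, by norm_num [wTwo], by norm_num [wTwo], by norm_num,
      by norm_num [wTwo], fun h => by norm_num at h, by norm_num [wTwo]⟩
  have hS : ∀ x y, RC.Adm 5 T ρ (125 / 1000) (30 / 100) x y →
      Sd ((5 : ℕ) : ℝ) 5 4495 940 1580 0 1400 620 1480 1500 430 xs s T ρ x y :=
    fun x y hA => Sd.of hN hW ha he (by push_cast; exact hA)
  refine RampOK1.of (by norm_num) hD (fun y hA => ?_) (fun x y hA hx => ?_) (fun x y hA hx => ?_)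
  · have h := eP cE5_two_e (by norm_num) (hS xs y hA) (Or.inl rfl)
      (by push_cast; linarith only [ha]) (by push_cast; linarith only [he])
    push_cast at h
    exact h
  · have hx0 := hA.x0
    have hx1 := hA.x1
    rcases le_total x (1860 / 10000) with hc | hc
    · have h := eD1 cE5_two_db (by norm_num) (hS x y hA) (by norm_num) (by norm_num)
        (by norm_num) (by push_cast; linarith only [hx0]) (by push_cast; linarith only [hc]) (by push_cast; exact ha)
      push_cast at h
      exact h
    · have h := eD0 cE5_two_da (by norm_num) (hS x y hA) (by norm_num) (by norm_num)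
        (by push_cast; linarith only [hc]) (by push_cast; linarith only [he, hx]) hx.le
      push_cast at h
      exact h
  · have hx0 := hA.x0
    have hx1 := hA.x1
    rcases le_total x (2520 / 10000) with hc | hc
    · have h := eU0 cE5_two_ua (by norm_num) (hS x y hA) (by norm_num)
        (by push_cast; linarith only [ha, hx]) (by push_cast; linarith only [hc]) hx.le
      push_cast at h
      exact h
    · have h := eU1 cE5_two_ub (by norm_num) (hS x y hA) (by norm_num) (by norm_num)
        (by push_cast; linarith only [hc]) (by push_cast; linarith only [hx1]) (by push_cast; exact he)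
      push_cast at h
      exact h

theorem E5_twoE : RowE (wTwoE (158 / 1000) (206 / 1000) 0 (43 / 1000)) 5 (125 / 1000) (30 / 100) := by
  intro xs s T ρ hW hD
  have ha : (1640 / 10000 : ℝ) ≤ xs := le_trans (by norm_num [wTwoE]) hW.x0
  have he : xs ≤ (1860 / 10000 : ℝ) := le_trans hW.x1 (by norm_num [wTwoE])
  have hN : Nums (wTwoE (158 / 1000) (206 / 1000) 0 (43 / 1000)) ((5 : ℕ) : ℝ) (1640 / 10000) (1860 / 10000) (125 / 1000) (30 / 100)
      5 3740 420 1580 0 1680 270 700 1500 430 :=
    ⟨by norm_num, le_rfl, by norm_num, by norm_num, by norm_num, by norm_num, by norm_num [wTwoE],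
      by norm_num, Or.inl (by norm_num [wTwoE]), by norm_num, by norm_num [wTwoE],
      by norm_num [wTwoE], by norm_num, by norm_num [wTwoE], by norm_num [wTwoE], by norm_num,
      by norm_num [wTwoE], fun h => by norm_num at h, by norm_num [wTwoE]⟩
  have hS : ∀ x y, RC.Adm 5 T ρ (125 / 1000) (30 / 100) x y →
      Sd ((5 : ℕ) : ℝ) 5 3740 420 1580 0 1680 270 700 1500 430 xs s T ρ x y :=
    fun x y hA => Sd.of hN hW ha he (by push_cast; exact hA)
  refine RampOK1.of (by norm_num) hD (fun y hA => ?_) (fun x y hA hx => ?_) (fun x y hA hx => ?_)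
  · have h := eP cE5_twoE_e (by norm_num) (hS xs y hA) (Or.inl rfl)
      (by push_cast; linarith only [ha]) (by push_cast; linarith only [he])
    push_cast at h
    exact h
  · have hx0 := hA.x0
    have hx1 := hA.x1
    rcases le_total x (1640 / 10000) with hc | hc
    · have h := eD1 cE5_twoE_db (by norm_num) (hS x y hA) (by norm_num) (by norm_num)
        (by norm_num) (by push_cast; linarith only [hx0]) (by push_cast; linarith only [hc]) (by push_cast; exact ha)
      push_cast at h
      exact h
    · have h := eD0 cE5_twoE_da (by norm_num) (hS x y hA) (by norm_num) (by norm_num)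
        (by push_cast; linarith only [hc]) (by push_cast; linarith only [he, hx]) hx.le
      push_cast at h
      exact h
  · have hx0 := hA.x0
    have hx1 := hA.x1
    rcases le_total x (1860 / 10000) with hc | hc
    · have h := eU0 cE5_twoE_ua (by norm_num) (hS x y hA) (by norm_num)
        (by push_cast; linarith only [ha, hx]) (by push_cast; linarith only [hc]) hx.le
      push_cast at h
      exact h
    · have h := eU1 cE5_twoE_ub (by norm_num) (hS x y hA) (by norm_num) (by norm_num)
        (by push_cast; linarith only [hc]) (by push_cast; linarith only [hx1]) (by push_cast; exact he)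
      push_cast at h
      exact h

theorem E5_three : RowE (wThree (158 / 1000) (206 / 1000) 0 (43 / 1000)) 5 (12 / 100) (30 / 100) := by
  intro xs s T ρ hW hD
  have ha : (1880 / 10000 : ℝ) ≤ xs := le_trans (by norm_num [wThree]) hW.x0
  have he : xs ≤ (2340 / 10000 : ℝ) := le_trans hW.x1 (by norm_num [wThree])
  have hN : Nums (wThree (158 / 1000) (206 / 1000) 0 (43 / 1000)) ((5 : ℕ) : ℝ) (1880 / 10000) (2340 / 10000) (12 / 100) (30 / 100)
      5 4400 760 1580 0 1200 1010 1590 1500 430 :=
    ⟨by norm_num, le_rfl, by norm_num, by norm_num, by norm_num, by norm_num, by norm_num [wThree],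
      by norm_num, Or.inr (by norm_num [wThree]), by norm_num, by norm_num [wThree],
      by norm_num [wThree], by norm_num, by norm_num [wThree], by norm_num [wThree], by norm_num,
      by norm_num [wThree], fun h => by norm_num at h, by norm_num [wThree]⟩
  have hS : ∀ x y, RC.Adm 5 T ρ (12 / 100) (30 / 100) x y →
      Sd ((5 : ℕ) : ℝ) 5 4400 760 1580 0 1200 1010 1590 1500 430 xs s T ρ x y :=
    fun x y hA => Sd.of hN hW ha he (by push_cast; exact hA)
  refine RampOK1.of (by norm_num) hD (fun y hA => ?_) (fun x y hA hx => ?_) (fun x y hA hx => ?_)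
  · have h := eP cE5_three_e (by norm_num) (hS xs y hA) (Or.inl rfl)
      (by push_cast; linarith only [ha]) (by push_cast; linarith only [he])
    push_cast at h
    exact h
  · have hx0 := hA.x0
    have hx1 := hA.x1
    rcases le_total x (1880 / 10000) with hc | hc
    · have h := eD1 cE5_three_db (by norm_num) (hS x y hA) (by norm_num) (by norm_num)
        (by norm_num) (by push_cast; linarith only [hx0]) (by push_cast; linarith only [hc]) (by push_cast; exact ha)
      push_cast at h
      exact h
    · have h := eD0 cE5_three_da (by norm_num) (hS x y hA) (by norm_num) (by norm_num)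
        (by push_cast; linarith only [hc]) (by push_cast; linarith only [he, hx]) hx.le
      push_cast at h
      exact h
  · have hx0 := hA.x0
    have hx1 := hA.x1
    rcases le_total x (2340 / 10000) with hc | hc
    · have h := eU0 cE5_three_ua (by norm_num) (hS x y hA) (by norm_num)
        (by push_cast; linarith only [ha, hx]) (by push_cast; linarith only [hc]) hx.le
      push_cast at h
      exact h
    · have h := eU1 cE5_three_ub (by norm_num) (hS x y hA) (by norm_num) (by norm_num)
        (by push_cast; linarith only [hc]) (by push_cast; linarith only [hx1]) (by push_cast; exact he)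
      push_cast at h
      exact h

theorem E5_threeE : RowE (wThreeE (158 / 1000) (206 / 1000) 0 (43 / 1000)) 5 (10 / 100) (26 / 100) := by
  intro xs s T ρ hW hD
  have ha : (1710 / 10000 : ℝ) ≤ xs := le_trans (by norm_num [wThreeE]) hW.x0
  have he : xs ≤ (1950 / 10000 : ℝ) := le_trans hW.x1 (by norm_num [wThreeE])
  have hN : Nums (wThreeE (158 / 1000) (206 / 1000) 0 (43 / 1000)) ((5 : ℕ) : ℝ) (1710 / 10000) (1950 / 10000) (10 / 100) (26 / 100)
      5 4010 370 1580 0 1200 1000 1400 1500 430 :=
    ⟨by norm_num, le_rfl, by norm_num, by norm_num, by norm_num, by norm_num,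
      by norm_num [wThreeE], by norm_num, Or.inr (by norm_num [wThreeE]), by norm_num,
      by norm_num [wThreeE], by norm_num [wThreeE], by norm_num, by norm_num [wThreeE],
      by norm_num [wThreeE], by norm_num, by norm_num [wThreeE], fun h => by norm_num at h,
      by norm_num [wThreeE]⟩
  have hS : ∀ x y, RC.Adm 5 T ρ (10 / 100) (26 / 100) x y →
      Sd ((5 : ℕ) : ℝ) 5 4010 370 1580 0 1200 1000 1400 1500 430 xs s T ρ x y :=
    fun x y hA => Sd.of hN hW ha he (by push_cast; exact hA)
  refine RampOK1.of (by norm_num) hD (fun y hA => ?_) (fun x y hA hx => ?_) (fun x y hA hx => ?_)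
  · have h := eP cE5_threeE_e (by norm_num) (hS xs y hA) (Or.inl rfl)
      (by push_cast; linarith only [ha]) (by push_cast; linarith only [he])
    push_cast at h
    exact h
  · have hx0 := hA.x0
    have hx1 := hA.x1
    rcases le_total x (1710 / 10000) with hc | hc
    · have h := eD1 cE5_threeE_db (by norm_num) (hS x y hA) (by norm_num) (by norm_num)
        (by norm_num) (by push_cast; linarith only [hx0]) (by push_cast; linarith only [hc]) (by push_cast; exact ha)
      push_cast at h
      exact h
    · have h := eD0 cE5_threeE_da (by norm_num) (hS x y hA) (by norm_num) (by norm_num)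
        (by push_cast; linarith only [hc]) (by push_cast; linarith only [he, hx]) hx.le
      push_cast at h
      exact h
  · have hx0 := hA.x0
    have hx1 := hA.x1
    rcases le_total x (1950 / 10000) with hc | hc
    · have h := eU0 cE5_threeE_ua (by norm_num) (hS x y hA) (by norm_num)
        (by push_cast; linarith only [ha, hx]) (by push_cast; linarith only [hc]) hx.le
      push_cast at h
      exact h
    · have h := eU1 cE5_threeE_ub (by norm_num) (hS x y hA) (by norm_num) (by norm_num)
        (by push_cast; linarith only [hc]) (by push_cast; linarith only [hx1]) (by push_cast; exact he)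
      push_cast at h
      exact h

theorem E5_rr : RowE (wRr (158 / 1000) (206 / 1000) 0 (43 / 1000)) 5 (10 / 100) (27 / 100) := by
  intro xs s T ρ hW hD
  have ha : (1820 / 10000 : ℝ) ≤ xs := le_trans (by norm_num [wRr]) hW.x0
  have he : xs ≤ (2520 / 10000 : ℝ) := le_trans hW.x1 (by norm_num [wRr])
  have hN : Nums (wRr (158 / 1000) (206 / 1000) 0 (43 / 1000)) ((5 : ℕ) : ℝ) (1820 / 10000) (2520 / 10000) (10 / 100) (27 / 100)
      5 4465 940 1580 0 1200 1195 1965 1500 430 :=
    ⟨by norm_num, le_rfl, by norm_num, by norm_num, by norm_num, by norm_num, by norm_num [wRr],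
      by norm_num, Or.inl (by norm_num [wRr]), by norm_num, by norm_num [wRr], by norm_num [wRr],
      by norm_num, by norm_num [wRr], by norm_num [wRr], by norm_num, by norm_num [wRr],
      fun h => by norm_num at h, by norm_num [wRr]⟩
  have hS : ∀ x y, RC.Adm 5 T ρ (10 / 100) (27 / 100) x y →
      Sd ((5 : ℕ) : ℝ) 5 4465 940 1580 0 1200 1195 1965 1500 430 xs s T ρ x y :=
    fun x y hA => Sd.of hN hW ha he (by push_cast; exact hA)
  refine RampOK1.of (by norm_num) hD (fun y hA => ?_) (fun x y hA hx => ?_) (fun x y hA hx => ?_)
  · have h := eP cE5_rr_e (by norm_num) (hS xs y hA) (Or.inl rfl)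
      (by push_cast; linarith only [ha]) (by push_cast; linarith only [he])
    push_cast at h
    exact h
  · have hx0 := hA.x0
    have hx1 := hA.x1
    rcases le_total x (1820 / 10000) with hc | hc
    · have h := eD1 cE5_rr_db (by norm_num) (hS x y hA) (by norm_num) (by norm_num)
        (by norm_num) (by push_cast; linarith only [hx0]) (by push_cast; linarith only [hc]) (by push_cast; exact ha)
      push_cast at h
      exact h
    · have h := eD0 cE5_rr_da (by norm_num) (hS x y hA) (by norm_num) (by norm_num)
        (by push_cast; linarith only [hc]) (by push_cast; linarith only [he, hx]) hx.le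
      push_cast at h
      exact h
  · have hx0 := hA.x0
    have hx1 := hA.x1
    rcases le_total x (2520 / 10000) with hc | hc
    · have h := eU0 cE5_rr_ua (by norm_num) (hS x y hA) (by norm_num)
        (by push_cast; linarith only [ha, hx]) (by push_cast; linarith only [hc]) hx.le
      push_cast at h
      exact h
    · have h := eU1 cE5_rr_ub (by norm_num) (hS x y hA) (by norm_num) (by norm_num)
        (by push_cast; linarith only [hc]) (by push_cast; linarith only [hx1]) (by push_cast; exact he)
      push_cast at h
      exact h

theorem E5_rs : RowE (wRs (158 / 1000) (206 / 1000) 0 (43 / 1000)) 5 (10 / 100) (27 / 100) := by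
  intro xs s T ρ hW hD
  have ha : (1700 / 10000 : ℝ) ≤ xs := le_trans (by norm_num [wRs]) hW.x0
  have he : xs ≤ (2520 / 10000 : ℝ) := le_trans hW.x1 (by norm_num [wRs])
  have hN : Nums (wRs (158 / 1000) (206 / 1000) 0 (43 / 1000)) ((5 : ℕ) : ℝ) (1700 / 10000) (2520 / 10000) (10 / 100) (27 / 100)
      5 4465 940 1580 0 1200 1570 2045 1500 430 :=
    ⟨by norm_num, le_rfl, by norm_num, by norm_num, by norm_num, by norm_num, by norm_num [wRs],
      by norm_num, Or.inl (by norm_num [wRs]), by norm_num, by norm_num [wRs], by norm_num [wRs],
      by norm_num, by norm_num [wRs], by norm_num [wRs], by norm_num, by norm_num [wRs],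
      fun h => by norm_num at h, by norm_num [wRs]⟩
  have hS : ∀ x y, RC.Adm 5 T ρ (10 / 100) (27 / 100) x y →
      Sd ((5 : ℕ) : ℝ) 5 4465 940 1580 0 1200 1570 2045 1500 430 xs s T ρ x y :=
    fun x y hA => Sd.of hN hW ha he (by push_cast; exact hA)
  refine RampOK1.of (by norm_num) hD (fun y hA => ?_) (fun x y hA hx => ?_) (fun x y hA hx => ?_)
  · have h := eP cE5_rs_e (by norm_num) (hS xs y hA) (Or.inl rfl)
      (by push_cast; linarith only [ha]) (by push_cast; linarith only [he])
    push_cast at h
    exact h
  · have hx0 := hA.x0
    have hx1 := hA.x1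
    rcases le_total x (1700 / 10000) with hc | hc
    · have h := eD1 cE5_rs_db (by norm_num) (hS x y hA) (by norm_num) (by norm_num)
        (by norm_num) (by push_cast; linarith only [hx0]) (by push_cast; linarith only [hc]) (by push_cast; exact ha)
      push_cast at h
      exact h
    · have h := eD0 cE5_rs_da (by norm_num) (hS x y hA) (by norm_num) (by norm_num)
        (by push_cast; linarith only [hc]) (by push_cast; linarith only [he, hx]) hx.le
      push_cast at h
      exact h
  · have hx0 := hA.x0
    have hx1 := hA.x1
    rcases le_total x (2520 / 10000) with hc | hc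
    · have h := eU0 cE5_rs_ua (by norm_num) (hS x y hA) (by norm_num)
        (by push_cast; linarith only [ha, hx]) (by push_cast; linarith only [hc]) hx.le
      push_cast at h
      exact h
    · have h := eU1 cE5_rs_ub (by norm_num) (hS x y hA) (by norm_num) (by norm_num)
        (by push_cast; linarith only [hc]) (by push_cast; linarith only [hx1]) (by push_cast; exact he)
      push_cast at h
      exact h

end RC

end Pool.Agent.Work.MP_b30479_gt.G2
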