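import Pool.Agent.Work.MP_b30479_gt.G2.RRP
import Pool.Agent.Work.MP_b30479_gt.G2.RRC5

/-!
# Rings with the ring variable on the ramp: rows `b = 5`, inside, one
-/

namespace Pool.Agent.Work.MP_b30479_gt.G2

open Real NumI

namespace RQ

open RC

theorem hL5a : lam 6 10 1 = 6 / 10 := by
  unfold lam
  norm_num

theorem sI5_one_0 {xs s T ρ : ℝ} (hW : (wOne5 0 (725 / 10000)).In xs s T ρ)
    (ha : 2213 / 10000 ≤ xs) (he : xs ≤ 2456 / 10000) :
    RampOK (6 / 10) (15 / 100) (75 / 100) 5 xs (1 / 2 - s) T ρ (16 / 100) (36 / 100) := by
  have hN : Nums (wOne5 0 (725 / 10000)) ((5 : ℕ) : ℝ) (2213 / 10000) (2456 / 10000) (16 / 100) (36 / 100)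
      5 4210 1186 1270 891 1842 200 1200 1500 725 :=
    ⟨by norm_num, le_rfl, by norm_num, by norm_num, by norm_num, by norm_num, by norm_num [wOne5],
      by norm_num, Or.inr (by norm_num [wOne5]), by norm_num, by norm_num [wOne5],
      by norm_num [wOne5], by norm_num, by norm_num [wOne5], by norm_num [wOne5], by norm_num,
      by norm_num [wOne5], fun _ => by norm_num [wOne5], by norm_num [wOne5]⟩
  have hS : ∀ x y, RC.Adm 5 T ρ (16 / 100) (36 / 100) x y →
      Sd ((5 : ℕ) : ℝ) 5 4210 1186 1270 891 1842 200 1200 1500 725 xs s T ρ x y :=
    fun x y hA => Sd.of hN hW ha he (by push_cast; exact hA)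
  have ht0 : -(1380 / 10000 : ℝ) ≤ T := le_trans (by norm_num [wOne5]) hW.t0
  have ht1 : T ≤ -(380 / 10000 : ℝ) := le_trans hW.t1 (by norm_num [wOne5])
  have hT : |T| ≤ ((1380 : ℕ) : ℝ) / 10000 := by
    rw [abs_le]
    push_cast
    constructor <;> linarith only [ht0, ht1]
  have kc : kC 7500 2213 2456 1380 = true := by decide +kernel
  have ud : kU 7500 1600 48909 = true := by decide +kernel
  have ua : kU 7500 2213 36784 = true := by decide +kernel
  have ue : kU 7500 2456 33792 = true := by decide +kernel
  refine ⟨fun x y hA => ?_, fun x y hA hx => ?_, fun x y hA hx => ?_⟩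
  · have hx0 := hA.x0
    have hx1 := hA.x1
    rcases le_total x (2213 / 10000) with hc | hc
    · have h := piP cI5_one_0_pl (by norm_num) hL5a (hS x y hA) (Or.inl rfl)
        (by push_cast; linarith only [hx0]) (by push_cast; linarith only [hc])
      have g0 := gL (be := 7500) (p := 2213) (G := 36783) (x := x) (y := 2213 / 10000)
        (by decide +kernel) (by linarith only [hx0]) hc (by push_cast; exact le_rfl) (by norm_num)
      have gm := gh_mono (x := 2213 / 10000) (y := xs) (by norm_num) ha (by linarith only [he])
      unfold lin at h
      push_cast at h g0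
      linarith only [g0, gm, h, neg_abs_le (gh x - gh xs)]
    rcases le_total x (2456 / 10000) with hc2 | hc2
    · have h := piP cI5_one_0_pm (by norm_num) hL5a (hS x y hA) (Or.inl rfl)
        (by push_cast; linarith only [hc]) (by push_cast; linarith only [hc2])
      unfold lin at h
      push_cast at h
      linarith only [h, abs_nonneg (gh x - gh xs)]
    · have h := piP cI5_one_0_pr (by norm_num) hL5a (hS x y hA) (Or.inl rfl)
        (by push_cast; linarith only [hc2]) (by push_cast; linarith only [hx1])
      have g0 := gL (be := 7500) (p := 3600) (G := 26040) (x := 2456 / 10000) (y := x)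
        (by decide +kernel) (by norm_num) hc2 (by push_cast; linarith only [hx1]) (by norm_num)
      have gm := gh_mono (x := xs) (y := 2456 / 10000) (by linarith only [ha]) he (by norm_num)
      unfold lin at h
      push_cast at h g0
      linarith only [g0, gm, h, le_abs_self (gh x - gh xs)]
  · have hx0 := hA.x0
    have hx1 := hA.x1
    have gm := gh_mono (x := x) (y := xs) (by linarith only [hx0]) hx.le (by linarith only [he, hx, hx0])
    rcases le_total x (2213 / 10000) with hc | hc
    · have h := piD1 cI5_one_0_db (by norm_num) hL5a (hS x y hA) (by norm_num) (by norm_num)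
        (by push_cast; linarith only [hx0]) (by push_cast; linarith only [hc]) (by push_cast; exact ha)
      have g1 := gU (x := x) (y := xs) ud (by norm_num) (by push_cast; linarith only [hx0]) hx.le (by linarith only [he, hx, hx0])
      have g2 := gU (x := x) (y := 2213 / 10000) ud (by norm_num) (by push_cast; linarith only [hx0]) hc
        (by norm_num)
      have g3 := gS (u := 2213 / 10000) (v := xs) kc (by norm_num) (by norm_num)
        (by push_cast; exact le_rfl) ha (by push_cast; exact he) hT
      push_cast at h g1 g2 g3
      exact dn_fin (gz := gh (2213 / 10000)) h gm (by unfold lin; push_cast; linarith only [he, hx, hx0, g1])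
        (by unfold lin; push_cast; linarith only [g2]) (by linarith only [g3])
    · have h := piD0 cI5_one_0_da (by norm_num) hL5a (hS x y hA) (by norm_num) (by norm_num)
        (by push_cast; linarith only [hc]) (by push_cast; linarith only [he, hx]) hx.le
      have g1 := gU (x := x) (y := xs) ua (by norm_num) (by push_cast; linarith only [hc]) hx.le (by linarith only [he, hx, hc])
      have g3 := gS (u := x) (v := xs) kc (by norm_num) (by norm_num)
        (by push_cast; exact hc) hx.le (by push_cast; exact he) hT
      push_cast at h g1 g3
      exact dn_fin (gz := gh x) h gm (by unfold lin; push_cast; linarith only [he, hx, hc, g1])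
        (by unfold lin; push_cast; linarith only []) (by linarith only [g3])
  · have hx0 := hA.x0
    have hx1 := hA.x1
    have gm := gh_mono (x := xs) (y := x) (by linarith only [ha, hx, hx1]) hx.le (by linarith only [ha, hx, hx1])
    have g1 := gU (x := xs) (y := x) ua (by norm_num) (by push_cast; linarith only [ha]) hx.le (by linarith only [ha, hx, hx1])
    rcases le_total x (2456 / 10000) with hc | hc
    · have h := piU0 cI5_one_0_ua (by norm_num) hL5a (hS x y hA) (by norm_num)
        (by push_cast; linarith only [ha, hx]) (by push_cast; linarith only [hc])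
      have g3 := gS (u := xs) (v := x) kc (by norm_num) (by norm_num)
        (by push_cast; exact ha) hx.le (by push_cast; exact hc) hT
      push_cast at h g1 g3
      exact up_fin (gz := gh x) h gm (by unfold lin; push_cast; linarith only [ha, hx, g1, hc])
        (by unfold lin; push_cast; linarith only []) (by linarith only [g3])
    · have h := piU1 cI5_one_0_ub (by norm_num) hL5a (hS x y hA) (by norm_num)
        (by push_cast; linarith only [hc]) (by push_cast; linarith only [hx1])
      have g2 := gU (x := 2456 / 10000) (y := x) ue (by norm_num) (by push_cast; exact le_rfl) hc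
        (by linarith only [ha, hx, hx1])
      have g3 := gS (u := xs) (v := 2456 / 10000) kc (by norm_num) (by norm_num)
        (by push_cast; exact ha) he (by push_cast; exact le_rfl) hT
      push_cast at h g1 g2 g3
      exact up_fin (gz := gh (2456 / 10000)) h gm (by unfold lin; push_cast; linarith only [ha, hx, hx1, g1])
        (by unfold lin; push_cast; linarith only [ha, hx, hx1, g2]) (by linarith only [g3])

theorem sI5_one_1 {xs s T ρ : ℝ} (hW : (wOne5 0 (725 / 10000)).In xs s T ρ)
    (ha : 2456 / 10000 ≤ xs) (he : xs ≤ 2699 / 10000) :
    RampOK (6 / 10) (15 / 100) (75 / 100) 5 xs (1 / 2 - s) T ρ (16 / 100) (36 / 100) := by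
  have hN : Nums (wOne5 0 (725 / 10000)) ((5 : ℕ) : ℝ) (2456 / 10000) (2699 / 10000) (16 / 100) (36 / 100)
      5 4453 1429 1270 891 1842 200 1200 1500 725 :=
    ⟨by norm_num, le_rfl, by norm_num, by norm_num, by norm_num, by norm_num, by norm_num [wOne5],
      by norm_num, Or.inr (by norm_num [wOne5]), by norm_num, by norm_num [wOne5],
      by norm_num [wOne5], by norm_num, by norm_num [wOne5], by norm_num [wOne5], by norm_num,
      by norm_num [wOne5], fun _ => by norm_num [wOne5], by norm_num [wOne5]⟩
  have hS : ∀ x y, RC.Adm 5 T ρ (16 / 100) (36 / 100) x y →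
      Sd ((5 : ℕ) : ℝ) 5 4453 1429 1270 891 1842 200 1200 1500 725 xs s T ρ x y :=
    fun x y hA => Sd.of hN hW ha he (by push_cast; exact hA)
  have ht0 : -(1380 / 10000 : ℝ) ≤ T := le_trans (by norm_num [wOne5]) hW.t0
  have ht1 : T ≤ -(380 / 10000 : ℝ) := le_trans hW.t1 (by norm_num [wOne5])
  have hT : |T| ≤ ((1380 : ℕ) : ℝ) / 10000 := by
    rw [abs_le]
    push_cast
    constructor <;> linarith only [ht0, ht1]
  have kc : kC 7500 2456 2699 1380 = true := by decide +kernel
  have ud : kU 7500 1600 48909 = true := by decide +kernel
  have ua : kU 7500 2456 33792 = true := by decide +kernel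
  have ue : kU 7500 2699 31420 = true := by decide +kernel
  refine ⟨fun x y hA => ?_, fun x y hA hx => ?_, fun x y hA hx => ?_⟩
  · have hx0 := hA.x0
    have hx1 := hA.x1
    rcases le_total x (2456 / 10000) with hc | hc
    · have h := piP cI5_one_1_pl (by norm_num) hL5a (hS x y hA) (Or.inl rfl)
        (by push_cast; linarith only [hx0]) (by push_cast; linarith only [hc])
      have g0 := gL (be := 7500) (p := 2456) (G := 33791) (x := x) (y := 2456 / 10000)
        (by decide +kernel) (by linarith only [hx0]) hc (by push_cast; exact le_rfl) (by norm_num)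
      have gm := gh_mono (x := 2456 / 10000) (y := xs) (by norm_num) ha (by linarith only [he])
      unfold lin at h
      push_cast at h g0
      linarith only [g0, gm, h, neg_abs_le (gh x - gh xs)]
    rcases le_total x (2699 / 10000) with hc2 | hc2
    · have h := piP cI5_one_1_pm (by norm_num) hL5a (hS x y hA) (Or.inl rfl)
        (by push_cast; linarith only [hc]) (by push_cast; linarith only [hc2])
      unfold lin at h
      push_cast at h
      linarith only [h, abs_nonneg (gh x - gh xs)]
    · have h := piP cI5_one_1_pr (by norm_num) hL5a (hS x y hA) (Or.inl rfl)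
        (by push_cast; linarith only [hc2]) (by push_cast; linarith only [hx1])
      have g0 := gL (be := 7500) (p := 3600) (G := 26040) (x := 2699 / 10000) (y := x)
        (by decide +kernel) (by norm_num) hc2 (by push_cast; linarith only [hx1]) (by norm_num)
      have gm := gh_mono (x := xs) (y := 2699 / 10000) (by linarith only [ha]) he (by norm_num)
      unfold lin at h
      push_cast at h g0
      linarith only [g0, gm, h, le_abs_self (gh x - gh xs)]
  · have hx0 := hA.x0
    have hx1 := hA.x1
    have gm := gh_mono (x := x) (y := xs) (by linarith only [hx0]) hx.le (by linarith only [he, hx, hx0])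
    rcases le_total x (2456 / 10000) with hc | hc
    · have h := piD1 cI5_one_1_db (by norm_num) hL5a (hS x y hA) (by norm_num) (by norm_num)
        (by push_cast; linarith only [hx0]) (by push_cast; linarith only [hc]) (by push_cast; exact ha)
      have g1 := gU (x := x) (y := xs) ud (by norm_num) (by push_cast; linarith only [hx0]) hx.le (by linarith only [he, hx, hx0])
      have g2 := gU (x := x) (y := 2456 / 10000) ud (by norm_num) (by push_cast; linarith only [hx0]) hc
        (by norm_num)
      have g3 := gS (u := 2456 / 10000) (v := xs) kc (by norm_num) (by norm_num)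
        (by push_cast; exact le_rfl) ha (by push_cast; exact he) hT
      push_cast at h g1 g2 g3
      exact dn_fin (gz := gh (2456 / 10000)) h gm (by unfold lin; push_cast; linarith only [he, hx, hx0, g1])
        (by unfold lin; push_cast; linarith only [g2]) (by linarith only [g3])
    · have h := piD0 cI5_one_1_da (by norm_num) hL5a (hS x y hA) (by norm_num) (by norm_num)
        (by push_cast; linarith only [hc]) (by push_cast; linarith only [he, hx]) hx.le
      have g1 := gU (x := x) (y := xs) ua (by norm_num) (by push_cast; linarith only [hc]) hx.le (by linarith only [he, hx, hc])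
      have g3 := gS (u := x) (v := xs) kc (by norm_num) (by norm_num)
        (by push_cast; exact hc) hx.le (by push_cast; exact he) hT
      push_cast at h g1 g3
      exact dn_fin (gz := gh x) h gm (by unfold lin; push_cast; linarith only [he, hx, hc, g1])
        (by unfold lin; push_cast; linarith only []) (by linarith only [g3])
  · have hx0 := hA.x0
    have hx1 := hA.x1
    have gm := gh_mono (x := xs) (y := x) (by linarith only [ha, hx, hx1]) hx.le (by linarith only [ha, hx, hx1])
    have g1 := gU (x := xs) (y := x) ua (by norm_num) (by push_cast; linarith only [ha]) hx.le (by linarith only [ha, hx, hx1])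
    rcases le_total x (2699 / 10000) with hc | hc
    · have h := piU0 cI5_one_1_ua (by norm_num) hL5a (hS x y hA) (by norm_num)
        (by push_cast; linarith only [ha, hx]) (by push_cast; linarith only [hc])
      have g3 := gS (u := xs) (v := x) kc (by norm_num) (by norm_num)
        (by push_cast; exact ha) hx.le (by push_cast; exact hc) hT
      push_cast at h g1 g3
      exact up_fin (gz := gh x) h gm (by unfold lin; push_cast; linarith only [ha, hx, g1, hc])
        (by unfold lin; push_cast; linarith only []) (by linarith only [g3])
    · have h := piU1 cI5_one_1_ub (by norm_num) hL5a (hS x y hA) (by norm_num)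
        (by push_cast; linarith only [hc]) (by push_cast; linarith only [hx1])
      have g2 := gU (x := 2699 / 10000) (y := x) ue (by norm_num) (by push_cast; exact le_rfl) hc
        (by linarith only [ha, hx, hx1])
      have g3 := gS (u := xs) (v := 2699 / 10000) kc (by norm_num) (by norm_num)
        (by push_cast; exact ha) he (by push_cast; exact le_rfl) hT
      push_cast at h g1 g2 g3
      exact up_fin (gz := gh (2699 / 10000)) h gm (by unfold lin; push_cast; linarith only [ha, hx, hx1, g1])
        (by unfold lin; push_cast; linarith only [ha, hx, hx1, g2]) (by linarith only [g3])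

theorem sI5_one_2 {xs s T ρ : ℝ} (hW : (wOne5 0 (725 / 10000)).In xs s T ρ)
    (ha : 2699 / 10000 ≤ xs) (he : xs ≤ 2942 / 10000) :
    RampOK (6 / 10) (15 / 100) (75 / 100) 5 xs (1 / 2 - s) T ρ (16 / 100) (36 / 100) := by
  have hN : Nums (wOne5 0 (725 / 10000)) ((5 : ℕ) : ℝ) (2699 / 10000) (2942 / 10000) (16 / 100) (36 / 100)
      5 4644 1672 1270 891 1842 200 1200 1500 725 :=
    ⟨by norm_num, le_rfl, by norm_num, by norm_num, by norm_num, by norm_num, by norm_num [wOne5],
      by norm_num, Or.inl (by norm_num [wOne5]), by norm_num, by norm_num [wOne5],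
      by norm_num [wOne5], by norm_num, by norm_num [wOne5], by norm_num [wOne5], by norm_num,
      by norm_num [wOne5], fun _ => by norm_num [wOne5], by norm_num [wOne5]⟩
  have hS : ∀ x y, RC.Adm 5 T ρ (16 / 100) (36 / 100) x y →
      Sd ((5 : ℕ) : ℝ) 5 4644 1672 1270 891 1842 200 1200 1500 725 xs s T ρ x y :=
    fun x y hA => Sd.of hN hW ha he (by push_cast; exact hA)
  have ht0 : -(1380 / 10000 : ℝ) ≤ T := le_trans (by norm_num [wOne5]) hW.t0
  have ht1 : T ≤ -(380 / 10000 : ℝ) := le_trans hW.t1 (by norm_num [wOne5])
  have hT : |T| ≤ ((1380 : ℕ) : ℝ) / 10000 := by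
    rw [abs_le]
    push_cast
    constructor <;> linarith only [ht0, ht1]
  have kc : kC 7500 2699 2942 1380 = true := by decide +kernel
  have ud : kU 7500 1600 48909 = true := by decide +kernel
  have ua : kU 7500 2699 31420 = true := by decide +kernel
  have ue : kU 7500 2942 29520 = true := by decide +kernel
  refine ⟨fun x y hA => ?_, fun x y hA hx => ?_, fun x y hA hx => ?_⟩
  · have hx0 := hA.x0
    have hx1 := hA.x1
    rcases le_total x (2699 / 10000) with hc | hc
    · have h := piP cI5_one_2_pl (by norm_num) hL5a (hS x y hA) (Or.inl rfl)
        (by push_cast; linarith only [hx0]) (by push_cast; linarith only [hc])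
      have g0 := gL (be := 7500) (p := 2699) (G := 31419) (x := x) (y := 2699 / 10000)
        (by decide +kernel) (by linarith only [hx0]) hc (by push_cast; exact le_rfl) (by norm_num)
      have gm := gh_mono (x := 2699 / 10000) (y := xs) (by norm_num) ha (by linarith only [he])
      unfold lin at h
      push_cast at h g0
      linarith only [g0, gm, h, neg_abs_le (gh x - gh xs)]
    rcases le_total x (2942 / 10000) with hc2 | hc2
    · have h := piP cI5_one_2_pm (by norm_num) hL5a (hS x y hA) (Or.inl rfl)
        (by push_cast; linarith only [hc]) (by push_cast; linarith only [hc2])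
      unfold lin at h
      push_cast at h
      linarith only [h, abs_nonneg (gh x - gh xs)]
    · have h := piP cI5_one_2_pr (by norm_num) hL5a (hS x y hA) (Or.inl rfl)
        (by push_cast; linarith only [hc2]) (by push_cast; linarith only [hx1])
      have g0 := gL (be := 7500) (p := 3600) (G := 26040) (x := 2942 / 10000) (y := x)
        (by decide +kernel) (by norm_num) hc2 (by push_cast; linarith only [hx1]) (by norm_num)
      have gm := gh_mono (x := xs) (y := 2942 / 10000) (by linarith only [ha]) he (by norm_num)
      unfold lin at h
      push_cast at h g0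
      linarith only [g0, gm, h, le_abs_self (gh x - gh xs)]
  · have hx0 := hA.x0
    have hx1 := hA.x1
    have gm := gh_mono (x := x) (y := xs) (by linarith only [hx0]) hx.le (by linarith only [he, hx, hx0])
    rcases le_total x (2699 / 10000) with hc | hc
    · have h := piD1 cI5_one_2_db (by norm_num) hL5a (hS x y hA) (by norm_num) (by norm_num)
        (by push_cast; linarith only [hx0]) (by push_cast; linarith only [hc]) (by push_cast; exact ha)
      have g1 := gU (x := x) (y := xs) ud (by norm_num) (by push_cast; linarith only [hx0]) hx.le (by linarith only [he, hx, hx0])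
      have g2 := gU (x := x) (y := 2699 / 10000) ud (by norm_num) (by push_cast; linarith only [hx0]) hc
        (by norm_num)
      have g3 := gS (u := 2699 / 10000) (v := xs) kc (by norm_num) (by norm_num)
        (by push_cast; exact le_rfl) ha (by push_cast; exact he) hT
      push_cast at h g1 g2 g3
      exact dn_fin (gz := gh (2699 / 10000)) h gm (by unfold lin; push_cast; linarith only [he, hx, hx0, g1])
        (by unfold lin; push_cast; linarith only [g2]) (by linarith only [g3])
    · have h := piD0 cI5_one_2_da (by norm_num) hL5a (hS x y hA) (by norm_num) (by norm_num)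
        (by push_cast; linarith only [hc]) (by push_cast; linarith only [he, hx]) hx.le
      have g1 := gU (x := x) (y := xs) ua (by norm_num) (by push_cast; linarith only [hc]) hx.le (by linarith only [he, hx, hc])
      have g3 := gS (u := x) (v := xs) kc (by norm_num) (by norm_num)
        (by push_cast; exact hc) hx.le (by push_cast; exact he) hT
      push_cast at h g1 g3
      exact dn_fin (gz := gh x) h gm (by unfold lin; push_cast; linarith only [he, hx, hc, g1])
        (by unfold lin; push_cast; linarith only []) (by linarith only [g3])
  · have hx0 := hA.x0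
    have hx1 := hA.x1
    have gm := gh_mono (x := xs) (y := x) (by linarith only [ha, hx, hx1]) hx.le (by linarith only [ha, hx, hx1])
    have g1 := gU (x := xs) (y := x) ua (by norm_num) (by push_cast; linarith only [ha]) hx.le (by linarith only [ha, hx, hx1])
    rcases le_total x (2942 / 10000) with hc | hc
    · have h := piU0 cI5_one_2_ua (by norm_num) hL5a (hS x y hA) (by norm_num)
        (by push_cast; linarith only [ha, hx]) (by push_cast; linarith only [hc])
      have g3 := gS (u := xs) (v := x) kc (by norm_num) (by norm_num)
        (by push_cast; exact ha) hx.le (by push_cast; exact hc) hT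
      push_cast at h g1 g3
      exact up_fin (gz := gh x) h gm (by unfold lin; push_cast; linarith only [ha, hx, g1, hc])
        (by unfold lin; push_cast; linarith only []) (by linarith only [g3])
    · have h := piU1 cI5_one_2_ub (by norm_num) hL5a (hS x y hA) (by norm_num)
        (by push_cast; linarith only [hc]) (by push_cast; linarith only [hx1])
      have g2 := gU (x := 2942 / 10000) (y := x) ue (by norm_num) (by push_cast; exact le_rfl) hc
        (by linarith only [ha, hx, hx1])
      have g3 := gS (u := xs) (v := 2942 / 10000) kc (by norm_num) (by norm_num)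
        (by push_cast; exact ha) he (by push_cast; exact le_rfl) hT
      push_cast at h g1 g2 g3
      exact up_fin (gz := gh (2942 / 10000)) h gm (by unfold lin; push_cast; linarith only [ha, hx, hx1, g1])
        (by unfold lin; push_cast; linarith only [ha, hx, hx1, g2]) (by linarith only [g3])

end RQ

namespace RC

open RQ

theorem I5_one : RowI (wOne5 0 (725 / 10000)) 5 (6 / 10) (15 / 100) (75 / 100) (16 / 100) (36 / 100) := by
  intro xs s T ρ hW
  have h0 : (2213 / 10000 : ℝ) ≤ xs := le_trans (by norm_num [wOne5]) hW.x0
  have h1 : xs ≤ (2942 / 10000 : ℝ) := le_trans hW.x1 (by norm_num [wOne5])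
  rcases le_total xs (2456 / 10000) with k0 | k0
  · exact RQ.sI5_one_0 hW h0 k0
  rcases le_total xs (2699 / 10000) with k1 | k1
  · exact RQ.sI5_one_1 hW k0 k1
  exact RQ.sI5_one_2 hW k1 h1

end RC

end Pool.Agent.Work.MP_b30479_gt.G2
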