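import Pool.Agent.Work.MP_b30479_gt.G2.RRP
import Pool.Agent.Work.MP_b30479_gt.G2.RRC5a

/-!
# Rings with the ring variable on the ramp: rows `b = 5`, inside, two, twoE, three, threeE
-/

namespace Pool.Agent.Work.MP_b30479_gt.G2

open Real NumI

namespace RQ

open RC

theorem hL5b : lam 6 10 1 = 6 / 10 := by
  unfold lam
  norm_num

theorem sI5_two_0 {xs s T ρ : ℝ} (hW : (wTwo (127 / 1000) (194 / 1000) 0 (725 / 10000)).In xs s T ρ)
    (ha : 1860 / 10000 ≤ xs) (he : xs ≤ 2190 / 10000) :
    RampOK (6 / 10) (15 / 100) (75 / 100) 5 xs (1 / 2 - s) T ρ (125 / 1000) (30 / 100) := by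
  have hN : Nums (wTwo (127 / 1000) (194 / 1000) 0 (725 / 10000)) ((5 : ℕ) : ℝ) (1860 / 10000) (2190 / 10000) (125 / 1000) (30 / 100)
      5 4130 920 1270 0 1400 620 1480 1500 725 :=
    ⟨by norm_num, le_rfl, by norm_num, by norm_num, by norm_num, by norm_num, by norm_num [wTwo],
      by norm_num, Or.inr (by norm_num [wTwo]), by norm_num, by norm_num [wTwo],
      by norm_num [wTwo], by norm_num, by norm_num [wTwo], by norm_num [wTwo], by norm_num,
      by norm_num [wTwo], fun h => by norm_num at h, by norm_num [wTwo]⟩
  have hS : ∀ x y, RC.Adm 5 T ρ (125 / 1000) (30 / 100) x y →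
      Sd ((5 : ℕ) : ℝ) 5 4130 920 1270 0 1400 620 1480 1500 725 xs s T ρ x y :=
    fun x y hA => Sd.of hN hW ha he (by push_cast; exact hA)
  have ht0 : -(960 / 10000 : ℝ) ≤ T := le_trans (by norm_num [wTwo]) hW.t0
  have ht1 : T ≤ -(100 / 10000 : ℝ) := le_trans hW.t1 (by norm_num [wTwo])
  have hT : |T| ≤ ((960 : ℕ) : ℝ) / 10000 := by
    rw [abs_le]
    push_cast
    constructor <;> linarith only [ht0, ht1]
  have kc : kC 7500 1860 2190 960 = true := by decide +kernel
  have ud : kU 7500 1250 61571 = true := by decide +kernel
  have ua : kU 7500 1860 42713 = true := by decide +kernel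
  have ue : kU 7500 2190 37106 = true := by decide +kernel
  refine ⟨fun x y hA => ?_, fun x y hA hx => ?_, fun x y hA hx => ?_⟩
  · have hx0 := hA.x0
    have hx1 := hA.x1
    rcases le_total x (1860 / 10000) with hc | hc
    · have h := piP cI5_two_0_pl (by norm_num) hL5b (hS x y hA) (Or.inl rfl)
        (by push_cast; linarith only [hx0]) (by push_cast; linarith only [hc])
      have g0 := gL (be := 7500) (p := 1860) (G := 42712) (x := x) (y := 1860 / 10000)
        (by decide +kernel) (by linarith only [hx0]) hc (by push_cast; exact le_rfl) (by norm_num)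
      have gm := gh_mono (x := 1860 / 10000) (y := xs) (by norm_num) ha (by linarith only [he])
      unfold lin at h
      push_cast at h g0
      linarith only [g0, gm, h, neg_abs_le (gh x - gh xs)]
    rcases le_total x (2190 / 10000) with hc2 | hc2
    · have h := piP cI5_two_0_pm (by norm_num) hL5b (hS x y hA) (Or.inl rfl)
        (by push_cast; linarith only [hc]) (by push_cast; linarith only [hc2])
      unfold lin at h
      push_cast at h
      linarith only [h, abs_nonneg (gh x - gh xs)]
    · have h := piP cI5_two_0_pr (by norm_num) hL5b (hS x y hA) (Or.inl rfl)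
        (by push_cast; linarith only [hc2]) (by push_cast; linarith only [hx1])
      have g0 := gL (be := 7500) (p := 3000) (G := 29124) (x := 2190 / 10000) (y := x)
        (by decide +kernel) (by norm_num) hc2 (by push_cast; linarith only [hx1]) (by norm_num)
      have gm := gh_mono (x := xs) (y := 2190 / 10000) (by linarith only [ha]) he (by norm_num)
      unfold lin at h
      push_cast at h g0
      linarith only [g0, gm, h, le_abs_self (gh x - gh xs)]
  · have hx0 := hA.x0
    have hx1 := hA.x1
    have gm := gh_mono (x := x) (y := xs) (by linarith only [hx0]) hx.le (by linarith only [he, hx, hx0])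
    rcases le_total x (1860 / 10000) with hc | hc
    · have h := piD1 cI5_two_0_db (by norm_num) hL5b (hS x y hA) (by norm_num) (by norm_num)
        (by push_cast; linarith only [hx0]) (by push_cast; linarith only [hc]) (by push_cast; exact ha)
      have g1 := gU (x := x) (y := xs) ud (by norm_num) (by push_cast; linarith only [hx0]) hx.le (by linarith only [he, hx, hx0])
      have g2 := gU (x := x) (y := 1860 / 10000) ud (by norm_num) (by push_cast; linarith only [hx0]) hc
        (by norm_num)
      have g3 := gS (u := 1860 / 10000) (v := xs) kc (by norm_num) (by norm_num)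
        (by push_cast; exact le_rfl) ha (by push_cast; exact he) hT
      push_cast at h g1 g2 g3
      exact dn_fin (gz := gh (1860 / 10000)) h gm (by unfold lin; push_cast; linarith only [he, hx, hx0, g1])
        (by unfold lin; push_cast; linarith only [g2]) (by linarith only [g3])
    · have h := piD0 cI5_two_0_da (by norm_num) hL5b (hS x y hA) (by norm_num) (by norm_num)
        (by push_cast; linarith only [hc]) (by push_cast; linarith only [he, hx]) hx.le
      have g1 := gU (x := x) (y := xs) ua (by norm_num) (by push_cast; linarith only [hc]) hx.le (by linarith only [he, hx, hc])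
      have g3 := gS (u := x) (v := xs) kc (by norm_num) (by norm_num)
        (by push_cast; exact hc) hx.le (by push_cast; exact he) hT
      push_cast at h g1 g3
      exact dn_fin (gz := gh x) h gm (by unfold lin; push_cast; linarith only [he, hx, hc, g1])
        (by unfold lin; push_cast; linarith only []) (by linarith only [g3])
  · have hx0 := hA.x0
    have hx1 := hA.x1
    have gm := gh_mono (x := xs) (y := x) (by linarith only [ha, hx, hx1]) hx.le (by linarith only [ha, hx, hx1])
    have g1 := gU (x := xs) (y := x) ua (by norm_num) (by push_cast; linarith only [ha]) hx.le (by linarith only [ha, hx, hx1])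
    rcases le_total x (2190 / 10000) with hc | hc
    · have h := piU0 cI5_two_0_ua (by norm_num) hL5b (hS x y hA) (by norm_num)
        (by push_cast; linarith only [ha, hx]) (by push_cast; linarith only [hc])
      have g3 := gS (u := xs) (v := x) kc (by norm_num) (by norm_num)
        (by push_cast; exact ha) hx.le (by push_cast; exact hc) hT
      push_cast at h g1 g3
      exact up_fin (gz := gh x) h gm (by unfold lin; push_cast; linarith only [ha, hx, g1, hc])
        (by unfold lin; push_cast; linarith only []) (by linarith only [g3])
    · have h := piU1 cI5_two_0_ub (by norm_num) hL5b (hS x y hA) (by norm_num)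
        (by push_cast; linarith only [hc]) (by push_cast; linarith only [hx1])
      have g2 := gU (x := 2190 / 10000) (y := x) ue (by norm_num) (by push_cast; exact le_rfl) hc
        (by linarith only [ha, hx, hx1])
      have g3 := gS (u := xs) (v := 2190 / 10000) kc (by norm_num) (by norm_num)
        (by push_cast; exact ha) he (by push_cast; exact le_rfl) hT
      push_cast at h g1 g2 g3
      exact up_fin (gz := gh (2190 / 10000)) h gm (by unfold lin; push_cast; linarith only [ha, hx, hx1, g1])
        (by unfold lin; push_cast; linarith only [ha, hx, hx1, g2]) (by linarith only [g3])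

theorem sI5_two_1 {xs s T ρ : ℝ} (hW : (wTwo (127 / 1000) (194 / 1000) 0 (725 / 10000)).In xs s T ρ)
    (ha : 2190 / 10000 ≤ xs) (he : xs ≤ 2520 / 10000) :
    RampOK (6 / 10) (15 / 100) (75 / 100) 5 xs (1 / 2 - s) T ρ (125 / 1000) (30 / 100) := by
  have hN : Nums (wTwo (127 / 1000) (194 / 1000) 0 (725 / 10000)) ((5 : ℕ) : ℝ) (2190 / 10000) (2520 / 10000) (125 / 1000) (30 / 100)
      5 4460 1250 1270 0 1400 620 1480 1500 725 :=
    ⟨by norm_num, le_rfl, by norm_num, by norm_num, by norm_num, by norm_num, by norm_num [wTwo],
      by norm_num, Or.inr (by norm_num [wTwo]), by norm_num, by norm_num [wTwo],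
      by norm_num [wTwo], by norm_num, by norm_num [wTwo], by norm_num [wTwo], by norm_num,
      by norm_num [wTwo], fun h => by norm_num at h, by norm_num [wTwo]⟩
  have hS : ∀ x y, RC.Adm 5 T ρ (125 / 1000) (30 / 100) x y →
      Sd ((5 : ℕ) : ℝ) 5 4460 1250 1270 0 1400 620 1480 1500 725 xs s T ρ x y :=
    fun x y hA => Sd.of hN hW ha he (by push_cast; exact hA)
  have ht0 : -(960 / 10000 : ℝ) ≤ T := le_trans (by norm_num [wTwo]) hW.t0
  have ht1 : T ≤ -(100 / 10000 : ℝ) := le_trans hW.t1 (by norm_num [wTwo])
  have hT : |T| ≤ ((960 : ℕ) : ℝ) / 10000 := by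
    rw [abs_le]
    push_cast
    constructor <;> linarith only [ht0, ht1]
  have kc : kC 7500 2190 2520 960 = true := by decide +kernel
  have ud : kU 7500 1250 61571 = true := by decide +kernel
  have ua : kU 7500 2190 37106 = true := by decide +kernel
  have ue : kU 7500 2520 33115 = true := by decide +kernel
  refine ⟨fun x y hA => ?_, fun x y hA hx => ?_, fun x y hA hx => ?_⟩
  · have hx0 := hA.x0
    have hx1 := hA.x1
    rcases le_total x (2190 / 10000) with hc | hc
    · have h := piP cI5_two_1_pl (by norm_num) hL5b (hS x y hA) (Or.inl rfl)
        (by push_cast; linarith only [hx0]) (by push_cast; linarith only [hc])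
      have g0 := gL (be := 7500) (p := 2190) (G := 37105) (x := x) (y := 2190 / 10000)
        (by decide +kernel) (by linarith only [hx0]) hc (by push_cast; exact le_rfl) (by norm_num)
      have gm := gh_mono (x := 2190 / 10000) (y := xs) (by norm_num) ha (by linarith only [he])
      unfold lin at h
      push_cast at h g0
      linarith only [g0, gm, h, neg_abs_le (gh x - gh xs)]
    rcases le_total x (2520 / 10000) with hc2 | hc2
    · have h := piP cI5_two_1_pm (by norm_num) hL5b (hS x y hA) (Or.inl rfl)
        (by push_cast; linarith only [hc]) (by push_cast; linarith only [hc2])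
      unfold lin at h
      push_cast at h
      linarith only [h, abs_nonneg (gh x - gh xs)]
    · have h := piP cI5_two_1_pr (by norm_num) hL5b (hS x y hA) (Or.inl rfl)
        (by push_cast; linarith only [hc2]) (by push_cast; linarith only [hx1])
      have g0 := gL (be := 7500) (p := 3000) (G := 29124) (x := 2520 / 10000) (y := x)
        (by decide +kernel) (by norm_num) hc2 (by push_cast; linarith only [hx1]) (by norm_num)
      have gm := gh_mono (x := xs) (y := 2520 / 10000) (by linarith only [ha]) he (by norm_num)
      unfold lin at h
      push_cast at h g0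
      linarith only [g0, gm, h, le_abs_self (gh x - gh xs)]
  · have hx0 := hA.x0
    have hx1 := hA.x1
    have gm := gh_mono (x := x) (y := xs) (by linarith only [hx0]) hx.le (by linarith only [he, hx, hx0])
    rcases le_total x (2190 / 10000) with hc | hc
    · have h := piD1 cI5_two_1_db (by norm_num) hL5b (hS x y hA) (by norm_num) (by norm_num)
        (by push_cast; linarith only [hx0]) (by push_cast; linarith only [hc]) (by push_cast; exact ha)
      have g1 := gU (x := x) (y := xs) ud (by norm_num) (by push_cast; linarith only [hx0]) hx.le (by linarith only [he, hx, hx0])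
      have g2 := gU (x := x) (y := 2190 / 10000) ud (by norm_num) (by push_cast; linarith only [hx0]) hc
        (by norm_num)
      have g3 := gS (u := 2190 / 10000) (v := xs) kc (by norm_num) (by norm_num)
        (by push_cast; exact le_rfl) ha (by push_cast; exact he) hT
      push_cast at h g1 g2 g3
      exact dn_fin (gz := gh (2190 / 10000)) h gm (by unfold lin; push_cast; linarith only [he, hx, hx0, g1])
        (by unfold lin; push_cast; linarith only [g2]) (by linarith only [g3])
    · have h := piD0 cI5_two_1_da (by norm_num) hL5b (hS x y hA) (by norm_num) (by norm_num)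
        (by push_cast; linarith only [hc]) (by push_cast; linarith only [he, hx]) hx.le
      have g1 := gU (x := x) (y := xs) ua (by norm_num) (by push_cast; linarith only [hc]) hx.le (by linarith only [he, hx, hc])
      have g3 := gS (u := x) (v := xs) kc (by norm_num) (by norm_num)
        (by push_cast; exact hc) hx.le (by push_cast; exact he) hT
      push_cast at h g1 g3
      exact dn_fin (gz := gh x) h gm (by unfold lin; push_cast; linarith only [he, hx, hc, g1])
        (by unfold lin; push_cast; linarith only []) (by linarith only [g3])
  · have hx0 := hA.x0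
    have hx1 := hA.x1
    have gm := gh_mono (x := xs) (y := x) (by linarith only [ha, hx, hx1]) hx.le (by linarith only [ha, hx, hx1])
    have g1 := gU (x := xs) (y := x) ua (by norm_num) (by push_cast; linarith only [ha]) hx.le (by linarith only [ha, hx, hx1])
    rcases le_total x (2520 / 10000) with hc | hc
    · have h := piU0 cI5_two_1_ua (by norm_num) hL5b (hS x y hA) (by norm_num)
        (by push_cast; linarith only [ha, hx]) (by push_cast; linarith only [hc])
      have g3 := gS (u := xs) (v := x) kc (by norm_num) (by norm_num)
        (by push_cast; exact ha) hx.le (by push_cast; exact hc) hT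
      push_cast at h g1 g3
      exact up_fin (gz := gh x) h gm (by unfold lin; push_cast; linarith only [ha, hx, g1, hc])
        (by unfold lin; push_cast; linarith only []) (by linarith only [g3])
    · have h := piU1 cI5_two_1_ub (by norm_num) hL5b (hS x y hA) (by norm_num)
        (by push_cast; linarith only [hc]) (by push_cast; linarith only [hx1])
      have g2 := gU (x := 2520 / 10000) (y := x) ue (by norm_num) (by push_cast; exact le_rfl) hc
        (by linarith only [ha, hx, hx1])
      have g3 := gS (u := xs) (v := 2520 / 10000) kc (by norm_num) (by norm_num)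
        (by push_cast; exact ha) he (by push_cast; exact le_rfl) hT
      push_cast at h g1 g2 g3
      exact up_fin (gz := gh (2520 / 10000)) h gm (by unfold lin; push_cast; linarith only [ha, hx, hx1, g1])
        (by unfold lin; push_cast; linarith only [ha, hx, hx1, g2]) (by linarith only [g3])

theorem sI5_twoE {xs s T ρ : ℝ} (hW : (wTwoE (127 / 1000) (194 / 1000) 0 (725 / 10000)).In xs s T ρ)
    (ha : 1640 / 10000 ≤ xs) (he : xs ≤ 1860 / 10000) :
    RampOK (6 / 10) (15 / 100) (75 / 100) 5 xs (1 / 2 - s) T ρ (125 / 1000) (30 / 100) := by
  have hN : Nums (wTwoE (127 / 1000) (194 / 1000) 0 (725 / 10000)) ((5 : ℕ) : ℝ) (1640 / 10000) (1860 / 10000) (125 / 1000) (30 / 100)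
      5 3740 590 1270 0 1680 270 700 1500 725 :=
    ⟨by norm_num, le_rfl, by norm_num, by norm_num, by norm_num, by norm_num, by norm_num [wTwoE],
      by norm_num, Or.inl (by norm_num [wTwoE]), by norm_num, by norm_num [wTwoE],
      by norm_num [wTwoE], by norm_num, by norm_num [wTwoE], by norm_num [wTwoE], by norm_num,
      by norm_num [wTwoE], fun h => by norm_num at h, by norm_num [wTwoE]⟩
  have hS : ∀ x y, RC.Adm 5 T ρ (125 / 1000) (30 / 100) x y →
      Sd ((5 : ℕ) : ℝ) 5 3740 590 1270 0 1680 270 700 1500 725 xs s T ρ x y :=
    fun x y hA => Sd.of hN hW ha he (by push_cast; exact hA)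
  have ht0 : -(1310 / 10000 : ℝ) ≤ T := le_trans (by norm_num [wTwoE]) hW.t0
  have ht1 : T ≤ -(880 / 10000 : ℝ) := le_trans hW.t1 (by norm_num [wTwoE])
  have hT : |T| ≤ ((1310 : ℕ) : ℝ) / 10000 := by
    rw [abs_le]
    push_cast
    constructor <;> linarith only [ht0, ht1]
  have kc : kC 7500 1640 1860 1310 = true := by decide +kernel
  have ud : kU 7500 1250 61571 = true := by decide +kernel
  have ua : kU 7500 1640 47820 = true := by decide +kernel
  have ue : kU 7500 1860 42713 = true := by decide +kernel
  refine ⟨fun x y hA => ?_, fun x y hA hx => ?_, fun x y hA hx => ?_⟩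
  · have hx0 := hA.x0
    have hx1 := hA.x1
    rcases le_total x (1640 / 10000) with hc | hc
    · have h := piP cI5_twoE_pl (by norm_num) hL5b (hS x y hA) (Or.inl rfl)
        (by push_cast; linarith only [hx0]) (by push_cast; linarith only [hc])
      have g0 := gL (be := 7500) (p := 1640) (G := 47819) (x := x) (y := 1640 / 10000)
        (by decide +kernel) (by linarith only [hx0]) hc (by push_cast; exact le_rfl) (by norm_num)
      have gm := gh_mono (x := 1640 / 10000) (y := xs) (by norm_num) ha (by linarith only [he])
      unfold lin at h
      push_cast at h g0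
      linarith only [g0, gm, h, neg_abs_le (gh x - gh xs)]
    rcases le_total x (1860 / 10000) with hc2 | hc2
    · have h := piP cI5_twoE_pm (by norm_num) hL5b (hS x y hA) (Or.inl rfl)
        (by push_cast; linarith only [hc]) (by push_cast; linarith only [hc2])
      unfold lin at h
      push_cast at h
      linarith only [h, abs_nonneg (gh x - gh xs)]
    · have h := piP cI5_twoE_pr (by norm_num) hL5b (hS x y hA) (Or.inl rfl)
        (by push_cast; linarith only [hc2]) (by push_cast; linarith only [hx1])
      have g0 := gL (be := 7500) (p := 3000) (G := 29124) (x := 1860 / 10000) (y := x)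
        (by decide +kernel) (by norm_num) hc2 (by push_cast; linarith only [hx1]) (by norm_num)
      have gm := gh_mono (x := xs) (y := 1860 / 10000) (by linarith only [ha]) he (by norm_num)
      unfold lin at h
      push_cast at h g0
      linarith only [g0, gm, h, le_abs_self (gh x - gh xs)]
  · have hx0 := hA.x0
    have hx1 := hA.x1
    have gm := gh_mono (x := x) (y := xs) (by linarith only [hx0]) hx.le (by linarith only [he, hx, hx0])
    rcases le_total x (1640 / 10000) with hc | hc
    · have h := piD1 cI5_twoE_db (by norm_num) hL5b (hS x y hA) (by norm_num) (by norm_num)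
        (by push_cast; linarith only [hx0]) (by push_cast; linarith only [hc]) (by push_cast; exact ha)
      have g1 := gU (x := x) (y := xs) ud (by norm_num) (by push_cast; linarith only [hx0]) hx.le (by linarith only [he, hx, hx0])
      have g2 := gU (x := x) (y := 1640 / 10000) ud (by norm_num) (by push_cast; linarith only [hx0]) hc
        (by norm_num)
      have g3 := gS (u := 1640 / 10000) (v := xs) kc (by norm_num) (by norm_num)
        (by push_cast; exact le_rfl) ha (by push_cast; exact he) hT
      push_cast at h g1 g2 g3
      exact dn_fin (gz := gh (1640 / 10000)) h gm (by unfold lin; push_cast; linarith only [he, hx, hx0, g1])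
        (by unfold lin; push_cast; linarith only [g2]) (by linarith only [g3])
    · have h := piD0 cI5_twoE_da (by norm_num) hL5b (hS x y hA) (by norm_num) (by norm_num)
        (by push_cast; linarith only [hc]) (by push_cast; linarith only [he, hx]) hx.le
      have g1 := gU (x := x) (y := xs) ua (by norm_num) (by push_cast; linarith only [hc]) hx.le (by linarith only [he, hx, hc])
      have g3 := gS (u := x) (v := xs) kc (by norm_num) (by norm_num)
        (by push_cast; exact hc) hx.le (by push_cast; exact he) hT
      push_cast at h g1 g3
      exact dn_fin (gz := gh x) h gm (by unfold lin; push_cast; linarith only [he, hx, hc, g1])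
        (by unfold lin; push_cast; linarith only []) (by linarith only [g3])
  · have hx0 := hA.x0
    have hx1 := hA.x1
    have gm := gh_mono (x := xs) (y := x) (by linarith only [ha, hx, hx1]) hx.le (by linarith only [ha, hx, hx1])
    have g1 := gU (x := xs) (y := x) ua (by norm_num) (by push_cast; linarith only [ha]) hx.le (by linarith only [ha, hx, hx1])
    rcases le_total x (1860 / 10000) with hc | hc
    · have h := piU0 cI5_twoE_ua (by norm_num) hL5b (hS x y hA) (by norm_num)
        (by push_cast; linarith only [ha, hx]) (by push_cast; linarith only [hc])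
      have g3 := gS (u := xs) (v := x) kc (by norm_num) (by norm_num)
        (by push_cast; exact ha) hx.le (by push_cast; exact hc) hT
      push_cast at h g1 g3
      exact up_fin (gz := gh x) h gm (by unfold lin; push_cast; linarith only [ha, hx, g1, hc])
        (by unfold lin; push_cast; linarith only []) (by linarith only [g3])
    · have h := piU1 cI5_twoE_ub (by norm_num) hL5b (hS x y hA) (by norm_num)
        (by push_cast; linarith only [hc]) (by push_cast; linarith only [hx1])
      have g2 := gU (x := 1860 / 10000) (y := x) ue (by norm_num) (by push_cast; exact le_rfl) hc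
        (by linarith only [ha, hx, hx1])
      have g3 := gS (u := xs) (v := 1860 / 10000) kc (by norm_num) (by norm_num)
        (by push_cast; exact ha) he (by push_cast; exact le_rfl) hT
      push_cast at h g1 g2 g3
      exact up_fin (gz := gh (1860 / 10000)) h gm (by unfold lin; push_cast; linarith only [ha, hx, hx1, g1])
        (by unfold lin; push_cast; linarith only [ha, hx, hx1, g2]) (by linarith only [g3])

theorem sI5_three_0 {xs s T ρ : ℝ} (hW : (wThree (127 / 1000) (194 / 1000) 0 (725 / 10000)).In xs s T ρ)
    (ha : 1880 / 10000 ≤ xs) (he : xs ≤ 2110 / 10000) :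
    RampOK (6 / 10) (15 / 100) (75 / 100) 5 xs (1 / 2 - s) T ρ (12 / 100) (30 / 100) := by
  have hN : Nums (wThree (127 / 1000) (194 / 1000) 0 (725 / 10000)) ((5 : ℕ) : ℝ) (1880 / 10000) (2110 / 10000) (12 / 100) (30 / 100)
      5 4050 840 1270 0 1200 1010 1590 1500 725 :=
    ⟨by norm_num, le_rfl, by norm_num, by norm_num, by norm_num, by norm_num, by norm_num [wThree],
      by norm_num, Or.inr (by norm_num [wThree]), by norm_num, by norm_num [wThree],
      by norm_num [wThree], by norm_num, by norm_num [wThree], by norm_num [wThree], by norm_num,
      by norm_num [wThree], fun h => by norm_num at h, by norm_num [wThree]⟩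
  have hS : ∀ x y, RC.Adm 5 T ρ (12 / 100) (30 / 100) x y →
      Sd ((5 : ℕ) : ℝ) 5 4050 840 1270 0 1200 1010 1590 1500 725 xs s T ρ x y :=
    fun x y hA => Sd.of hN hW ha he (by push_cast; exact hA)
  have ht0 : -(570 / 10000 : ℝ) ≤ T := le_trans (by norm_num [wThree]) hW.t0
  have ht1 : T ≤ (10 / 10000 : ℝ) := le_trans hW.t1 (by norm_num [wThree])
  have hT : |T| ≤ ((570 : ℕ) : ℝ) / 10000 := by
    rw [abs_le]
    push_cast
    constructor <;> linarith only [ht0, ht1]
  have kc : kC 7500 1880 2110 570 = true := by decide +kernel
  have ud : kU 7500 1200 64006 = true := by decide +kernel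
  have ua : kU 7500 1880 42311 = true := by decide +kernel
  have ue : kU 7500 2110 38289 = true := by decide +kernel
  refine ⟨fun x y hA => ?_, fun x y hA hx => ?_, fun x y hA hx => ?_⟩
  · have hx0 := hA.x0
    have hx1 := hA.x1
    rcases le_total x (1880 / 10000) with hc | hc
    · have h := piP cI5_three_0_pl (by norm_num) hL5b (hS x y hA) (Or.inl rfl)
        (by push_cast; linarith only [hx0]) (by push_cast; linarith only [hc])
      have g0 := gL (be := 7500) (p := 1880) (G := 42310) (x := x) (y := 1880 / 10000)
        (by decide +kernel) (by linarith only [hx0]) hc (by push_cast; exact le_rfl) (by norm_num)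
      have gm := gh_mono (x := 1880 / 10000) (y := xs) (by norm_num) ha (by linarith only [he])
      unfold lin at h
      push_cast at h g0
      linarith only [g0, gm, h, neg_abs_le (gh x - gh xs)]
    rcases le_total x (2110 / 10000) with hc2 | hc2
    · have h := piP cI5_three_0_pm (by norm_num) hL5b (hS x y hA) (Or.inl rfl)
        (by push_cast; linarith only [hc]) (by push_cast; linarith only [hc2])
      unfold lin at h
      push_cast at h
      linarith only [h, abs_nonneg (gh x - gh xs)]
    · have h := piP cI5_three_0_pr (by norm_num) hL5b (hS x y hA) (Or.inl rfl)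
        (by push_cast; linarith only [hc2]) (by push_cast; linarith only [hx1])
      have g0 := gL (be := 7500) (p := 3000) (G := 29124) (x := 2110 / 10000) (y := x)
        (by decide +kernel) (by norm_num) hc2 (by push_cast; linarith only [hx1]) (by norm_num)
      have gm := gh_mono (x := xs) (y := 2110 / 10000) (by linarith only [ha]) he (by norm_num)
      unfold lin at h
      push_cast at h g0
      linarith only [g0, gm, h, le_abs_self (gh x - gh xs)]
  · have hx0 := hA.x0
    have hx1 := hA.x1
    have gm := gh_mono (x := x) (y := xs) (by linarith only [hx0]) hx.le (by linarith only [he, hx, hx0])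
    rcases le_total x (1880 / 10000) with hc | hc
    · have h := piD1 cI5_three_0_db (by norm_num) hL5b (hS x y hA) (by norm_num) (by norm_num)
        (by push_cast; linarith only [hx0]) (by push_cast; linarith only [hc]) (by push_cast; exact ha)
      have g1 := gU (x := x) (y := xs) ud (by norm_num) (by push_cast; linarith only [hx0]) hx.le (by linarith only [he, hx, hx0])
      have g2 := gU (x := x) (y := 1880 / 10000) ud (by norm_num) (by push_cast; linarith only [hx0]) hc
        (by norm_num)
      have g3 := gS (u := 1880 / 10000) (v := xs) kc (by norm_num) (by norm_num)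
        (by push_cast; exact le_rfl) ha (by push_cast; exact he) hT
      push_cast at h g1 g2 g3
      exact dn_fin (gz := gh (1880 / 10000)) h gm (by unfold lin; push_cast; linarith only [he, hx, hx0, g1])
        (by unfold lin; push_cast; linarith only [g2]) (by linarith only [g3])
    · have h := piD0 cI5_three_0_da (by norm_num) hL5b (hS x y hA) (by norm_num) (by norm_num)
        (by push_cast; linarith only [hc]) (by push_cast; linarith only [he, hx]) hx.le
      have g1 := gU (x := x) (y := xs) ua (by norm_num) (by push_cast; linarith only [hc]) hx.le (by linarith only [he, hx, hc])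
      have g3 := gS (u := x) (v := xs) kc (by norm_num) (by norm_num)
        (by push_cast; exact hc) hx.le (by push_cast; exact he) hT
      push_cast at h g1 g3
      exact dn_fin (gz := gh x) h gm (by unfold lin; push_cast; linarith only [he, hx, hc, g1])
        (by unfold lin; push_cast; linarith only []) (by linarith only [g3])
  · have hx0 := hA.x0
    have hx1 := hA.x1
    have gm := gh_mono (x := xs) (y := x) (by linarith only [ha, hx, hx1]) hx.le (by linarith only [ha, hx, hx1])
    have g1 := gU (x := xs) (y := x) ua (by norm_num) (by push_cast; linarith only [ha]) hx.le (by linarith only [ha, hx, hx1])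
    rcases le_total x (2110 / 10000) with hc | hc
    · have h := piU0 cI5_three_0_ua (by norm_num) hL5b (hS x y hA) (by norm_num)
        (by push_cast; linarith only [ha, hx]) (by push_cast; linarith only [hc])
      have g3 := gS (u := xs) (v := x) kc (by norm_num) (by norm_num)
        (by push_cast; exact ha) hx.le (by push_cast; exact hc) hT
      push_cast at h g1 g3
      exact up_fin (gz := gh x) h gm (by unfold lin; push_cast; linarith only [ha, hx, g1, hc])
        (by unfold lin; push_cast; linarith only []) (by linarith only [g3])
    · have h := piU1 cI5_three_0_ub (by norm_num) hL5b (hS x y hA) (by norm_num)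
        (by push_cast; linarith only [hc]) (by push_cast; linarith only [hx1])
      have g2 := gU (x := 2110 / 10000) (y := x) ue (by norm_num) (by push_cast; exact le_rfl) hc
        (by linarith only [ha, hx, hx1])
      have g3 := gS (u := xs) (v := 2110 / 10000) kc (by norm_num) (by norm_num)
        (by push_cast; exact ha) he (by push_cast; exact le_rfl) hT
      push_cast at h g1 g2 g3
      exact up_fin (gz := gh (2110 / 10000)) h gm (by unfold lin; push_cast; linarith only [ha, hx, hx1, g1])
        (by unfold lin; push_cast; linarith only [ha, hx, hx1, g2]) (by linarith only [g3])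

theorem sI5_three_1 {xs s T ρ : ℝ} (hW : (wThree (127 / 1000) (194 / 1000) 0 (725 / 10000)).In xs s T ρ)
    (ha : 2110 / 10000 ≤ xs) (he : xs ≤ 2340 / 10000) :
    RampOK (6 / 10) (15 / 100) (75 / 100) 5 xs (1 / 2 - s) T ρ (12 / 100) (30 / 100) := by
  have hN : Nums (wThree (127 / 1000) (194 / 1000) 0 (725 / 10000)) ((5 : ℕ) : ℝ) (2110 / 10000) (2340 / 10000) (12 / 100) (30 / 100)
      5 4280 1070 1270 0 1200 1010 1590 1500 725 :=
    ⟨by norm_num, le_rfl, by norm_num, by norm_num, by norm_num, by norm_num, by norm_num [wThree],
      by norm_num, Or.inr (by norm_num [wThree]), by norm_num, by norm_num [wThree],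
      by norm_num [wThree], by norm_num, by norm_num [wThree], by norm_num [wThree], by norm_num,
      by norm_num [wThree], fun h => by norm_num at h, by norm_num [wThree]⟩
  have hS : ∀ x y, RC.Adm 5 T ρ (12 / 100) (30 / 100) x y →
      Sd ((5 : ℕ) : ℝ) 5 4280 1070 1270 0 1200 1010 1590 1500 725 xs s T ρ x y :=
    fun x y hA => Sd.of hN hW ha he (by push_cast; exact hA)
  have ht0 : -(570 / 10000 : ℝ) ≤ T := le_trans (by norm_num [wThree]) hW.t0
  have ht1 : T ≤ (10 / 10000 : ℝ) := le_trans hW.t1 (by norm_num [wThree])
  have hT : |T| ≤ ((570 : ℕ) : ℝ) / 10000 := by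
    rw [abs_le]
    push_cast
    constructor <;> linarith only [ht0, ht1]
  have kc : kC 7500 2110 2340 570 = true := by decide +kernel
  have ud : kU 7500 1200 64006 = true := by decide +kernel
  have ua : kU 7500 2110 38289 = true := by decide +kernel
  have ue : kU 7500 2340 35132 = true := by decide +kernel
  refine ⟨fun x y hA => ?_, fun x y hA hx => ?_, fun x y hA hx => ?_⟩
  · have hx0 := hA.x0
    have hx1 := hA.x1
    rcases le_total x (2110 / 10000) with hc | hc
    · have h := piP cI5_three_1_pl (by norm_num) hL5b (hS x y hA) (Or.inl rfl)
        (by push_cast; linarith only [hx0]) (by push_cast; linarith only [hc])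
      have g0 := gL (be := 7500) (p := 2110) (G := 38288) (x := x) (y := 2110 / 10000)
        (by decide +kernel) (by linarith only [hx0]) hc (by push_cast; exact le_rfl) (by norm_num)
      have gm := gh_mono (x := 2110 / 10000) (y := xs) (by norm_num) ha (by linarith only [he])
      unfold lin at h
      push_cast at h g0
      linarith only [g0, gm, h, neg_abs_le (gh x - gh xs)]
    rcases le_total x (2340 / 10000) with hc2 | hc2
    · have h := piP cI5_three_1_pm (by norm_num) hL5b (hS x y hA) (Or.inl rfl)
        (by push_cast; linarith only [hc]) (by push_cast; linarith only [hc2])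
      unfold lin at h
      push_cast at h
      linarith only [h, abs_nonneg (gh x - gh xs)]
    · have h := piP cI5_three_1_pr (by norm_num) hL5b (hS x y hA) (Or.inl rfl)
        (by push_cast; linarith only [hc2]) (by push_cast; linarith only [hx1])
      have g0 := gL (be := 7500) (p := 3000) (G := 29124) (x := 2340 / 10000) (y := x)
        (by decide +kernel) (by norm_num) hc2 (by push_cast; linarith only [hx1]) (by norm_num)
      have gm := gh_mono (x := xs) (y := 2340 / 10000) (by linarith only [ha]) he (by norm_num)
      unfold lin at h
      push_cast at h g0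
      linarith only [g0, gm, h, le_abs_self (gh x - gh xs)]
  · have hx0 := hA.x0
    have hx1 := hA.x1
    have gm := gh_mono (x := x) (y := xs) (by linarith only [hx0]) hx.le (by linarith only [he, hx, hx0])
    rcases le_total x (2110 / 10000) with hc | hc
    · have h := piD1 cI5_three_1_db (by norm_num) hL5b (hS x y hA) (by norm_num) (by norm_num)
        (by push_cast; linarith only [hx0]) (by push_cast; linarith only [hc]) (by push_cast; exact ha)
      have g1 := gU (x := x) (y := xs) ud (by norm_num) (by push_cast; linarith only [hx0]) hx.le (by linarith only [he, hx, hx0])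
      have g2 := gU (x := x) (y := 2110 / 10000) ud (by norm_num) (by push_cast; linarith only [hx0]) hc
        (by norm_num)
      have g3 := gS (u := 2110 / 10000) (v := xs) kc (by norm_num) (by norm_num)
        (by push_cast; exact le_rfl) ha (by push_cast; exact he) hT
      push_cast at h g1 g2 g3
      exact dn_fin (gz := gh (2110 / 10000)) h gm (by unfold lin; push_cast; linarith only [he, hx, hx0, g1])
        (by unfold lin; push_cast; linarith only [g2]) (by linarith only [g3])
    · have h := piD0 cI5_three_1_da (by norm_num) hL5b (hS x y hA) (by norm_num) (by norm_num)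
        (by push_cast; linarith only [hc]) (by push_cast; linarith only [he, hx]) hx.le
      have g1 := gU (x := x) (y := xs) ua (by norm_num) (by push_cast; linarith only [hc]) hx.le (by linarith only [he, hx, hc])
      have g3 := gS (u := x) (v := xs) kc (by norm_num) (by norm_num)
        (by push_cast; exact hc) hx.le (by push_cast; exact he) hT
      push_cast at h g1 g3
      exact dn_fin (gz := gh x) h gm (by unfold lin; push_cast; linarith only [he, hx, hc, g1])
        (by unfold lin; push_cast; linarith only []) (by linarith only [g3])
  · have hx0 := hA.x0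
    have hx1 := hA.x1
    have gm := gh_mono (x := xs) (y := x) (by linarith only [ha, hx, hx1]) hx.le (by linarith only [ha, hx, hx1])
    have g1 := gU (x := xs) (y := x) ua (by norm_num) (by push_cast; linarith only [ha]) hx.le (by linarith only [ha, hx, hx1])
    rcases le_total x (2340 / 10000) with hc | hc
    · have h := piU0 cI5_three_1_ua (by norm_num) hL5b (hS x y hA) (by norm_num)
        (by push_cast; linarith only [ha, hx]) (by push_cast; linarith only [hc])
      have g3 := gS (u := xs) (v := x) kc (by norm_num) (by norm_num)
        (by push_cast; exact ha) hx.le (by push_cast; exact hc) hT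
      push_cast at h g1 g3
      exact up_fin (gz := gh x) h gm (by unfold lin; push_cast; linarith only [ha, hx, g1, hc])
        (by unfold lin; push_cast; linarith only []) (by linarith only [g3])
    · have h := piU1 cI5_three_1_ub (by norm_num) hL5b (hS x y hA) (by norm_num)
        (by push_cast; linarith only [hc]) (by push_cast; linarith only [hx1])
      have g2 := gU (x := 2340 / 10000) (y := x) ue (by norm_num) (by push_cast; exact le_rfl) hc
        (by linarith only [ha, hx, hx1])
      have g3 := gS (u := xs) (v := 2340 / 10000) kc (by norm_num) (by norm_num)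
        (by push_cast; exact ha) he (by push_cast; exact le_rfl) hT
      push_cast at h g1 g2 g3
      exact up_fin (gz := gh (2340 / 10000)) h gm (by unfold lin; push_cast; linarith only [ha, hx, hx1, g1])
        (by unfold lin; push_cast; linarith only [ha, hx, hx1, g2]) (by linarith only [g3])

theorem sI5_threeE {xs s T ρ : ℝ} (hW : (wThreeE (127 / 1000) (194 / 1000) 0 (725 / 10000)).In xs s T ρ)
    (ha : 1710 / 10000 ≤ xs) (he : xs ≤ 1950 / 10000) :
    RampOK (6 / 10) (15 / 100) (75 / 100) 5 xs (1 / 2 - s) T ρ (10 / 100) (26 / 100) := by
  have hN : Nums (wThreeE (127 / 1000) (194 / 1000) 0 (725 / 10000)) ((5 : ℕ) : ℝ) (1710 / 10000) (1950 / 10000) (10 / 100) (26 / 100)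
      5 3890 680 1270 0 1200 1000 1400 1500 725 :=
    ⟨by norm_num, le_rfl, by norm_num, by norm_num, by norm_num, by norm_num,
      by norm_num [wThreeE], by norm_num, Or.inr (by norm_num [wThreeE]), by norm_num,
      by norm_num [wThreeE], by norm_num [wThreeE], by norm_num, by norm_num [wThreeE],
      by norm_num [wThreeE], by norm_num, by norm_num [wThreeE], fun h => by norm_num at h,
      by norm_num [wThreeE]⟩
  have hS : ∀ x y, RC.Adm 5 T ρ (10 / 100) (26 / 100) x y →
      Sd ((5 : ℕ) : ℝ) 5 3890 680 1270 0 1200 1000 1400 1500 725 xs s T ρ x y :=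
    fun x y hA => Sd.of hN hW ha he (by push_cast; exact hA)
  have ht0 : -(580 / 10000 : ℝ) ≤ T := le_trans (by norm_num [wThreeE]) hW.t0
  have ht1 : T ≤ -(180 / 10000 : ℝ) := le_trans hW.t1 (by norm_num [wThreeE])
  have hT : |T| ≤ ((580 : ℕ) : ℝ) / 10000 := by
    rw [abs_le]
    push_cast
    constructor <;> linarith only [ht0, ht1]
  have kc : kC 7500 1710 1950 580 = true := by decide +kernel
  have ud : kU 7500 1000 76249 = true := by decide +kernel
  have ua : kU 7500 1710 46043 = true := by decide +kernel
  have ue : kU 7500 1950 40977 = true := by decide +kernel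
  refine ⟨fun x y hA => ?_, fun x y hA hx => ?_, fun x y hA hx => ?_⟩
  · have hx0 := hA.x0
    have hx1 := hA.x1
    rcases le_total x (1710 / 10000) with hc | hc
    · have h := piP cI5_threeE_pl (by norm_num) hL5b (hS x y hA) (Or.inl rfl)
        (by push_cast; linarith only [hx0]) (by push_cast; linarith only [hc])
      have g0 := gL (be := 7500) (p := 1710) (G := 46042) (x := x) (y := 1710 / 10000)
        (by decide +kernel) (by linarith only [hx0]) hc (by push_cast; exact le_rfl) (by norm_num)
      have gm := gh_mono (x := 1710 / 10000) (y := xs) (by norm_num) ha (by linarith only [he])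
      unfold lin at h
      push_cast at h g0
      linarith only [g0, gm, h, neg_abs_le (gh x - gh xs)]
    rcases le_total x (1950 / 10000) with hc2 | hc2
    · have h := piP cI5_threeE_pm (by norm_num) hL5b (hS x y hA) (Or.inl rfl)
        (by push_cast; linarith only [hc]) (by push_cast; linarith only [hc2])
      unfold lin at h
      push_cast at h
      linarith only [h, abs_nonneg (gh x - gh xs)]
    · have h := piP cI5_threeE_pr (by norm_num) hL5b (hS x y hA) (Or.inl rfl)
        (by push_cast; linarith only [hc2]) (by push_cast; linarith only [hx1])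
      have g0 := gL (be := 7500) (p := 2600) (G := 32322) (x := 1950 / 10000) (y := x)
        (by decide +kernel) (by norm_num) hc2 (by push_cast; linarith only [hx1]) (by norm_num)
      have gm := gh_mono (x := xs) (y := 1950 / 10000) (by linarith only [ha]) he (by norm_num)
      unfold lin at h
      push_cast at h g0
      linarith only [g0, gm, h, le_abs_self (gh x - gh xs)]
  · have hx0 := hA.x0
    have hx1 := hA.x1
    have gm := gh_mono (x := x) (y := xs) (by linarith only [hx0]) hx.le (by linarith only [he, hx, hx0])
    rcases le_total x (1710 / 10000) with hc | hc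
    · have h := piD1 cI5_threeE_db (by norm_num) hL5b (hS x y hA) (by norm_num) (by norm_num)
        (by push_cast; linarith only [hx0]) (by push_cast; linarith only [hc]) (by push_cast; exact ha)
      have g1 := gU (x := x) (y := xs) ud (by norm_num) (by push_cast; linarith only [hx0]) hx.le (by linarith only [he, hx, hx0])
      have g2 := gU (x := x) (y := 1710 / 10000) ud (by norm_num) (by push_cast; linarith only [hx0]) hc
        (by norm_num)
      have g3 := gS (u := 1710 / 10000) (v := xs) kc (by norm_num) (by norm_num)
        (by push_cast; exact le_rfl) ha (by push_cast; exact he) hT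
      push_cast at h g1 g2 g3
      exact dn_fin (gz := gh (1710 / 10000)) h gm (by unfold lin; push_cast; linarith only [he, hx, hx0, g1])
        (by unfold lin; push_cast; linarith only [g2]) (by linarith only [g3])
    · have h := piD0 cI5_threeE_da (by norm_num) hL5b (hS x y hA) (by norm_num) (by norm_num)
        (by push_cast; linarith only [hc]) (by push_cast; linarith only [he, hx]) hx.le
      have g1 := gU (x := x) (y := xs) ua (by norm_num) (by push_cast; linarith only [hc]) hx.le (by linarith only [he, hx, hc])
      have g3 := gS (u := x) (v := xs) kc (by norm_num) (by norm_num)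
        (by push_cast; exact hc) hx.le (by push_cast; exact he) hT
      push_cast at h g1 g3
      exact dn_fin (gz := gh x) h gm (by unfold lin; push_cast; linarith only [he, hx, hc, g1])
        (by unfold lin; push_cast; linarith only []) (by linarith only [g3])
  · have hx0 := hA.x0
    have hx1 := hA.x1
    have gm := gh_mono (x := xs) (y := x) (by linarith only [ha, hx, hx1]) hx.le (by linarith only [ha, hx, hx1])
    have g1 := gU (x := xs) (y := x) ua (by norm_num) (by push_cast; linarith only [ha]) hx.le (by linarith only [ha, hx, hx1])
    rcases le_total x (1950 / 10000) with hc | hc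
    · have h := piU0 cI5_threeE_ua (by norm_num) hL5b (hS x y hA) (by norm_num)
        (by push_cast; linarith only [ha, hx]) (by push_cast; linarith only [hc])
      have g3 := gS (u := xs) (v := x) kc (by norm_num) (by norm_num)
        (by push_cast; exact ha) hx.le (by push_cast; exact hc) hT
      push_cast at h g1 g3
      exact up_fin (gz := gh x) h gm (by unfold lin; push_cast; linarith only [ha, hx, g1, hc])
        (by unfold lin; push_cast; linarith only []) (by linarith only [g3])
    · have h := piU1 cI5_threeE_ub (by norm_num) hL5b (hS x y hA) (by norm_num)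
        (by push_cast; linarith only [hc]) (by push_cast; linarith only [hx1])
      have g2 := gU (x := 1950 / 10000) (y := x) ue (by norm_num) (by push_cast; exact le_rfl) hc
        (by linarith only [ha, hx, hx1])
      have g3 := gS (u := xs) (v := 1950 / 10000) kc (by norm_num) (by norm_num)
        (by push_cast; exact ha) he (by push_cast; exact le_rfl) hT
      push_cast at h g1 g2 g3
      exact up_fin (gz := gh (1950 / 10000)) h gm (by unfold lin; push_cast; linarith only [ha, hx, hx1, g1])
        (by unfold lin; push_cast; linarith only [ha, hx, hx1, g2]) (by linarith only [g3])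

end RQ

namespace RC

open RQ

theorem I5_two : RowI (wTwo (127 / 1000) (194 / 1000) 0 (725 / 10000)) 5 (6 / 10) (15 / 100) (75 / 100) (125 / 1000) (30 / 100) := by
  intro xs s T ρ hW
  have h0 : (1860 / 10000 : ℝ) ≤ xs := le_trans (by norm_num [wTwo]) hW.x0
  have h1 : xs ≤ (2520 / 10000 : ℝ) := le_trans hW.x1 (by norm_num [wTwo])
  rcases le_total xs (2190 / 10000) with k0 | k0
  · exact RQ.sI5_two_0 hW h0 k0
  exact RQ.sI5_two_1 hW k0 h1

theorem I5_twoE : RowI (wTwoE (127 / 1000) (194 / 1000) 0 (725 / 10000)) 5 (6 / 10) (15 / 100) (75 / 100) (125 / 1000) (30 / 100) := by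
  intro xs s T ρ hW
  have h0 : (1640 / 10000 : ℝ) ≤ xs := le_trans (by norm_num [wTwoE]) hW.x0
  have h1 : xs ≤ (1860 / 10000 : ℝ) := le_trans hW.x1 (by norm_num [wTwoE])
  exact RQ.sI5_twoE hW h0 h1

theorem I5_three : RowI (wThree (127 / 1000) (194 / 1000) 0 (725 / 10000)) 5 (6 / 10) (15 / 100) (75 / 100) (12 / 100) (30 / 100) := by
  intro xs s T ρ hW
  have h0 : (1880 / 10000 : ℝ) ≤ xs := le_trans (by norm_num [wThree]) hW.x0
  have h1 : xs ≤ (2340 / 10000 : ℝ) := le_trans hW.x1 (by norm_num [wThree])
  rcases le_total xs (2110 / 10000) with k0 | k0
  · exact RQ.sI5_three_0 hW h0 k0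
  exact RQ.sI5_three_1 hW k0 h1

theorem I5_threeE : RowI (wThreeE (127 / 1000) (194 / 1000) 0 (725 / 10000)) 5 (6 / 10) (15 / 100) (75 / 100) (10 / 100) (26 / 100) := by
  intro xs s T ρ hW
  have h0 : (1710 / 10000 : ℝ) ≤ xs := le_trans (by norm_num [wThreeE]) hW.x0
  have h1 : xs ≤ (1950 / 10000 : ℝ) := le_trans hW.x1 (by norm_num [wThreeE])
  exact RQ.sI5_threeE hW h0 h1

end RC

end Pool.Agent.Work.MP_b30479_gt.G2
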