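import Pool.Agent.Work.MP_b30479_gt.G2.RRP
import Pool.Agent.Work.MP_b30479_gt.G2.RRC5b

/-!
# Rings with the ring variable on the ramp: rows `b = 5`, inside, rr
-/

namespace Pool.Agent.Work.MP_b30479_gt.G2

open Real NumI

namespace RQ

open RC

theorem hL5c : lam 6 10 1 = 6 / 10 := by
  unfold lam
  norm_num

theorem sI5_rr_0 {xs s T ρ : ℝ} (hW : (wRr (127 / 1000) (194 / 1000) 0 (725 / 10000)).In xs s T ρ)
    (ha : 1820 / 10000 ≤ xs) (he : xs ≤ 1960 / 10000) :
    RampOK (6 / 10) (15 / 100) (75 / 100) 5 xs (1 / 2 - s) T ρ (10 / 100) (27 / 100) := by
  have hN : Nums (wRr (127 / 1000) (194 / 1000) 0 (725 / 10000)) ((5 : ℕ) : ℝ) (1820 / 10000) (1960 / 10000) (10 / 100) (27 / 100)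
      5 3900 690 1270 0 1200 1195 1965 1500 725 :=
    ⟨by norm_num, le_rfl, by norm_num, by norm_num, by norm_num, by norm_num, by norm_num [wRr],
      by norm_num, Or.inr (by norm_num [wRr]), by norm_num, by norm_num [wRr], by norm_num [wRr],
      by norm_num, by norm_num [wRr], by norm_num [wRr], by norm_num, by norm_num [wRr],
      fun h => by norm_num at h, by norm_num [wRr]⟩
  have hS : ∀ x y, RC.Adm 5 T ρ (10 / 100) (27 / 100) x y →
      Sd ((5 : ℕ) : ℝ) 5 3900 690 1270 0 1200 1195 1965 1500 725 xs s T ρ x y :=
    fun x y hA => Sd.of hN hW ha he (by push_cast; exact hA)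
  have ht0 : -(385 / 10000 : ℝ) ≤ T := le_trans (by norm_num [wRr]) hW.t0
  have ht1 : T ≤ (385 / 10000 : ℝ) := le_trans hW.t1 (by norm_num [wRr])
  have hT : |T| ≤ ((385 : ℕ) : ℝ) / 10000 := by
    rw [abs_le]
    push_cast
    constructor <;> linarith only [ht0, ht1]
  have kc : kC 7500 1820 1960 385 = true := by decide +kernel
  have ud : kU 7500 1000 76249 = true := by decide +kernel
  have ua : kU 7500 1820 43543 = true := by decide +kernel
  have ue : kU 7500 1960 40795 = true := by decide +kernel
  refine ⟨fun x y hA => ?_, fun x y hA hx => ?_, fun x y hA hx => ?_⟩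
  · have hx0 := hA.x0
    have hx1 := hA.x1
    rcases le_total x (1200 / 10000) with hc | hc
    · have h := piP cI5_rr_0_pl0 (by norm_num) hL5c (hS x y hA) (Or.inl rfl)
        (by push_cast; linarith only [hx0]) (by push_cast; linarith only [hc])
      have g0 := gL (be := 7500) (p := 1200) (G := 64005) (x := x) (y := 1200 / 10000)
        (by decide +kernel) (by linarith only [hx0]) hc (by push_cast; exact le_rfl) (by norm_num)
      have g1 := gL (be := 7500) (p := 1400) (G := 55338) (x := 1200 / 10000) (y := 1400 / 10000)
        (by decide +kernel) (by norm_num) (by norm_num) (by push_cast; exact le_rfl) (by norm_num)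
      have g2 := gL (be := 7500) (p := 1700) (G := 46286) (x := 1400 / 10000) (y := 1700 / 10000)
        (by decide +kernel) (by norm_num) (by norm_num) (by push_cast; exact le_rfl) (by norm_num)
      have g3 := gL (be := 7500) (p := 1820) (G := 43542) (x := 1700 / 10000) (y := 1820 / 10000)
        (by decide +kernel) (by norm_num) (by norm_num) (by push_cast; exact le_rfl) (by norm_num)
      have gm := gh_mono (x := 1820 / 10000) (y := xs) (by norm_num) ha (by linarith only [he])
      unfold lin at h
      push_cast at h g0 g1 g2 g3
      linarith only [g0, g1, g2, g3, gm, h, neg_abs_le (gh x - gh xs)]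
    rcases le_total x (1400 / 10000) with hc | hc
    · have h := piP cI5_rr_0_pl1 (by norm_num) hL5c (hS x y hA) (Or.inl rfl)
        (by push_cast; linarith) (by push_cast; linarith only [hc])
      have g0 := gL (be := 7500) (p := 1400) (G := 55338) (x := x) (y := 1400 / 10000)
        (by decide +kernel) (by linarith) hc (by push_cast; exact le_rfl) (by norm_num)
      have g1 := gL (be := 7500) (p := 1700) (G := 46286) (x := 1400 / 10000) (y := 1700 / 10000)
        (by decide +kernel) (by norm_num) (by norm_num) (by push_cast; exact le_rfl) (by norm_num)
      have g2 := gL (be := 7500) (p := 1820) (G := 43542) (x := 1700 / 10000) (y := 1820 / 10000)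
        (by decide +kernel) (by norm_num) (by norm_num) (by push_cast; exact le_rfl) (by norm_num)
      have gm := gh_mono (x := 1820 / 10000) (y := xs) (by norm_num) ha (by linarith only [he])
      unfold lin at h
      push_cast at h g0 g1 g2
      linarith only [g0, g1, g2, gm, h, neg_abs_le (gh x - gh xs)]
    rcases le_total x (1700 / 10000) with hc | hc
    · have h := piP cI5_rr_0_pl2 (by norm_num) hL5c (hS x y hA) (Or.inl rfl)
        (by push_cast; linarith) (by push_cast; linarith only [hc])
      have g0 := gL (be := 7500) (p := 1700) (G := 46286) (x := x) (y := 1700 / 10000)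
        (by decide +kernel) (by linarith) hc (by push_cast; exact le_rfl) (by norm_num)
      have g1 := gL (be := 7500) (p := 1820) (G := 43542) (x := 1700 / 10000) (y := 1820 / 10000)
        (by decide +kernel) (by norm_num) (by norm_num) (by push_cast; exact le_rfl) (by norm_num)
      have gm := gh_mono (x := 1820 / 10000) (y := xs) (by norm_num) ha (by linarith only [he])
      unfold lin at h
      push_cast at h g0 g1
      linarith only [g0, g1, gm, h, neg_abs_le (gh x - gh xs)]
    rcases le_total x (1820 / 10000) with hc | hc
    · have h := piP cI5_rr_0_pl3 (by norm_num) hL5c (hS x y hA) (Or.inl rfl)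
        (by push_cast; linarith) (by push_cast; linarith only [hc])
      have g0 := gL (be := 7500) (p := 1820) (G := 43542) (x := x) (y := 1820 / 10000)
        (by decide +kernel) (by linarith) hc (by push_cast; exact le_rfl) (by norm_num)
      have gm := gh_mono (x := 1820 / 10000) (y := xs) (by norm_num) ha (by linarith only [he])
      unfold lin at h
      push_cast at h g0
      linarith only [g0, gm, h, neg_abs_le (gh x - gh xs)]
    rcases le_total x (1960 / 10000) with hc2 | hc2
    · have h := piP cI5_rr_0_pm (by norm_num) hL5c (hS x y hA) (Or.inl rfl)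
        (by push_cast; linarith only [hc]) (by push_cast; linarith only [hc2])
      unfold lin at h
      push_cast at h
      linarith only [h, abs_nonneg (gh x - gh xs)]
    · have h := piP cI5_rr_0_pr (by norm_num) hL5c (hS x y hA) (Or.inl rfl)
        (by push_cast; linarith only [hc2]) (by push_cast; linarith only [hx1])
      have g0 := gL (be := 7500) (p := 2700) (G := 31411) (x := 1960 / 10000) (y := x)
        (by decide +kernel) (by norm_num) hc2 (by push_cast; linarith only [hx1]) (by norm_num)
      have gm := gh_mono (x := xs) (y := 1960 / 10000) (by linarith only [ha]) he (by norm_num)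
      unfold lin at h
      push_cast at h g0
      linarith only [g0, gm, h, le_abs_self (gh x - gh xs)]
  · have hx0 := hA.x0
    have hx1 := hA.x1
    have gm := gh_mono (x := x) (y := xs) (by linarith only [hx0]) hx.le (by linarith only [he, hx, hx0])
    rcases le_total x (1820 / 10000) with hc | hc
    · have h := piD1 cI5_rr_0_db (by norm_num) hL5c (hS x y hA) (by norm_num) (by norm_num)
        (by push_cast; linarith only [hx0]) (by push_cast; linarith only [hc]) (by push_cast; exact ha)
      have g1 := gU (x := x) (y := xs) ud (by norm_num) (by push_cast; linarith only [hx0]) hx.le (by linarith only [he, hx, hx0])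
      have g2 := gU (x := x) (y := 1820 / 10000) ud (by norm_num) (by push_cast; linarith only [hx0]) hc
        (by norm_num)
      have g3 := gS (u := 1820 / 10000) (v := xs) kc (by norm_num) (by norm_num)
        (by push_cast; exact le_rfl) ha (by push_cast; exact he) hT
      push_cast at h g1 g2 g3
      exact dn_fin (gz := gh (1820 / 10000)) h gm (by unfold lin; push_cast; linarith only [he, hx, hx0, g1])
        (by unfold lin; push_cast; linarith only [g2]) (by linarith only [g3])
    · have h := piD0 cI5_rr_0_da (by norm_num) hL5c (hS x y hA) (by norm_num) (by norm_num)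
        (by push_cast; linarith only [hc]) (by push_cast; linarith only [he, hx]) hx.le
      have g1 := gU (x := x) (y := xs) ua (by norm_num) (by push_cast; linarith only [hc]) hx.le (by linarith only [he, hx, hc])
      have g3 := gS (u := x) (v := xs) kc (by norm_num) (by norm_num)
        (by push_cast; exact hc) hx.le (by push_cast; exact he) hT
      push_cast at h g1 g3
      exact dn_fin (gz := gh x) h gm (by unfold lin; push_cast; linarith only [he, hx, hc, g1])
        (by unfold lin; push_cast; linarith only []) (by linarith only [g3])
  · have hx0 := hA.x0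
    have hx1 := hA.x1
    have gm := gh_mono (x := xs) (y := x) (by linarith only [ha, hx, hx1]) hx.le (by linarith only [ha, hx, hx1])
    have g1 := gU (x := xs) (y := x) ua (by norm_num) (by push_cast; linarith only [ha]) hx.le (by linarith only [ha, hx, hx1])
    rcases le_total x (1960 / 10000) with hc | hc
    · have h := piU0 cI5_rr_0_ua (by norm_num) hL5c (hS x y hA) (by norm_num)
        (by push_cast; linarith only [ha, hx]) (by push_cast; linarith only [hc])
      have g3 := gS (u := xs) (v := x) kc (by norm_num) (by norm_num)
        (by push_cast; exact ha) hx.le (by push_cast; exact hc) hT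
      push_cast at h g1 g3
      exact up_fin (gz := gh x) h gm (by unfold lin; push_cast; linarith only [ha, hx, g1, hc])
        (by unfold lin; push_cast; linarith only []) (by linarith only [g3])
    · have h := piU1 cI5_rr_0_ub (by norm_num) hL5c (hS x y hA) (by norm_num)
        (by push_cast; linarith only [hc]) (by push_cast; linarith only [hx1])
      have g2 := gU (x := 1960 / 10000) (y := x) ue (by norm_num) (by push_cast; exact le_rfl) hc
        (by linarith only [ha, hx, hx1])
      have g3 := gS (u := xs) (v := 1960 / 10000) kc (by norm_num) (by norm_num)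
        (by push_cast; exact ha) he (by push_cast; exact le_rfl) hT
      push_cast at h g1 g2 g3
      exact up_fin (gz := gh (1960 / 10000)) h gm (by unfold lin; push_cast; linarith only [ha, hx, hx1, g1])
        (by unfold lin; push_cast; linarith only [ha, hx, hx1, g2]) (by linarith only [g3])

theorem sI5_rr_1 {xs s T ρ : ℝ} (hW : (wRr (127 / 1000) (194 / 1000) 0 (725 / 10000)).In xs s T ρ)
    (ha : 1960 / 10000 ≤ xs) (he : xs ≤ 2100 / 10000) :
    RampOK (6 / 10) (15 / 100) (75 / 100) 5 xs (1 / 2 - s) T ρ (10 / 100) (27 / 100) := by
  have hN : Nums (wRr (127 / 1000) (194 / 1000) 0 (725 / 10000)) ((5 : ℕ) : ℝ) (1960 / 10000) (2100 / 10000) (10 / 100) (27 / 100)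
      5 4040 830 1270 0 1200 1195 1965 1500 725 :=
    ⟨by norm_num, le_rfl, by norm_num, by norm_num, by norm_num, by norm_num, by norm_num [wRr],
      by norm_num, Or.inr (by norm_num [wRr]), by norm_num, by norm_num [wRr], by norm_num [wRr],
      by norm_num, by norm_num [wRr], by norm_num [wRr], by norm_num, by norm_num [wRr],
      fun h => by norm_num at h, by norm_num [wRr]⟩
  have hS : ∀ x y, RC.Adm 5 T ρ (10 / 100) (27 / 100) x y →
      Sd ((5 : ℕ) : ℝ) 5 4040 830 1270 0 1200 1195 1965 1500 725 xs s T ρ x y :=
    fun x y hA => Sd.of hN hW ha he (by push_cast; exact hA)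
  have ht0 : -(385 / 10000 : ℝ) ≤ T := le_trans (by norm_num [wRr]) hW.t0
  have ht1 : T ≤ (385 / 10000 : ℝ) := le_trans hW.t1 (by norm_num [wRr])
  have hT : |T| ≤ ((385 : ℕ) : ℝ) / 10000 := by
    rw [abs_le]
    push_cast
    constructor <;> linarith only [ht0, ht1]
  have kc : kC 7500 1960 2100 385 = true := by decide +kernel
  have ud : kU 7500 1000 76249 = true := by decide +kernel
  have ua : kU 7500 1960 40795 = true := by decide +kernel
  have ue : kU 7500 2100 38443 = true := by decide +kernel
  refine ⟨fun x y hA => ?_, fun x y hA hx => ?_, fun x y hA hx => ?_⟩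
  · have hx0 := hA.x0
    have hx1 := hA.x1
    rcases le_total x (1200 / 10000) with hc | hc
    · have h := piP cI5_rr_1_pl0 (by norm_num) hL5c (hS x y hA) (Or.inl rfl)
        (by push_cast; linarith only [hx0]) (by push_cast; linarith only [hc])
      have g0 := gL (be := 7500) (p := 1200) (G := 64005) (x := x) (y := 1200 / 10000)
        (by decide +kernel) (by linarith only [hx0]) hc (by push_cast; exact le_rfl) (by norm_num)
      have g1 := gL (be := 7500) (p := 1400) (G := 55338) (x := 1200 / 10000) (y := 1400 / 10000)
        (by decide +kernel) (by norm_num) (by norm_num) (by push_cast; exact le_rfl) (by norm_num)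
      have g2 := gL (be := 7500) (p := 1700) (G := 46286) (x := 1400 / 10000) (y := 1700 / 10000)
        (by decide +kernel) (by norm_num) (by norm_num) (by push_cast; exact le_rfl) (by norm_num)
      have g3 := gL (be := 7500) (p := 1960) (G := 40794) (x := 1700 / 10000) (y := 1960 / 10000)
        (by decide +kernel) (by norm_num) (by norm_num) (by push_cast; exact le_rfl) (by norm_num)
      have gm := gh_mono (x := 1960 / 10000) (y := xs) (by norm_num) ha (by linarith only [he])
      unfold lin at h
      push_cast at h g0 g1 g2 g3
      linarith only [g0, g1, g2, g3, gm, h, neg_abs_le (gh x - gh xs)]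
    rcases le_total x (1400 / 10000) with hc | hc
    · have h := piP cI5_rr_1_pl1 (by norm_num) hL5c (hS x y hA) (Or.inl rfl)
        (by push_cast; linarith) (by push_cast; linarith only [hc])
      have g0 := gL (be := 7500) (p := 1400) (G := 55338) (x := x) (y := 1400 / 10000)
        (by decide +kernel) (by linarith) hc (by push_cast; exact le_rfl) (by norm_num)
      have g1 := gL (be := 7500) (p := 1700) (G := 46286) (x := 1400 / 10000) (y := 1700 / 10000)
        (by decide +kernel) (by norm_num) (by norm_num) (by push_cast; exact le_rfl) (by norm_num)
      have g2 := gL (be := 7500) (p := 1960) (G := 40794) (x := 1700 / 10000) (y := 1960 / 10000)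
        (by decide +kernel) (by norm_num) (by norm_num) (by push_cast; exact le_rfl) (by norm_num)
      have gm := gh_mono (x := 1960 / 10000) (y := xs) (by norm_num) ha (by linarith only [he])
      unfold lin at h
      push_cast at h g0 g1 g2
      linarith only [g0, g1, g2, gm, h, neg_abs_le (gh x - gh xs)]
    rcases le_total x (1700 / 10000) with hc | hc
    · have h := piP cI5_rr_1_pl2 (by norm_num) hL5c (hS x y hA) (Or.inl rfl)
        (by push_cast; linarith) (by push_cast; linarith only [hc])
      have g0 := gL (be := 7500) (p := 1700) (G := 46286) (x := x) (y := 1700 / 10000)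
        (by decide +kernel) (by linarith) hc (by push_cast; exact le_rfl) (by norm_num)
      have g1 := gL (be := 7500) (p := 1960) (G := 40794) (x := 1700 / 10000) (y := 1960 / 10000)
        (by decide +kernel) (by norm_num) (by norm_num) (by push_cast; exact le_rfl) (by norm_num)
      have gm := gh_mono (x := 1960 / 10000) (y := xs) (by norm_num) ha (by linarith only [he])
      unfold lin at h
      push_cast at h g0 g1
      linarith only [g0, g1, gm, h, neg_abs_le (gh x - gh xs)]
    rcases le_total x (1960 / 10000) with hc | hc
    · have h := piP cI5_rr_1_pl3 (by norm_num) hL5c (hS x y hA) (Or.inl rfl)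
        (by push_cast; linarith) (by push_cast; linarith only [hc])
      have g0 := gL (be := 7500) (p := 1960) (G := 40794) (x := x) (y := 1960 / 10000)
        (by decide +kernel) (by linarith) hc (by push_cast; exact le_rfl) (by norm_num)
      have gm := gh_mono (x := 1960 / 10000) (y := xs) (by norm_num) ha (by linarith only [he])
      unfold lin at h
      push_cast at h g0
      linarith only [g0, gm, h, neg_abs_le (gh x - gh xs)]
    rcases le_total x (2100 / 10000) with hc2 | hc2
    · have h := piP cI5_rr_1_pm (by norm_num) hL5c (hS x y hA) (Or.inl rfl)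
        (by push_cast; linarith only [hc]) (by push_cast; linarith only [hc2])
      unfold lin at h
      push_cast at h
      linarith only [h, abs_nonneg (gh x - gh xs)]
    · have h := piP cI5_rr_1_pr (by norm_num) hL5c (hS x y hA) (Or.inl rfl)
        (by push_cast; linarith only [hc2]) (by push_cast; linarith only [hx1])
      have g0 := gL (be := 7500) (p := 2700) (G := 31411) (x := 2100 / 10000) (y := x)
        (by decide +kernel) (by norm_num) hc2 (by push_cast; linarith only [hx1]) (by norm_num)
      have gm := gh_mono (x := xs) (y := 2100 / 10000) (by linarith only [ha]) he (by norm_num)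
      unfold lin at h
      push_cast at h g0
      linarith only [g0, gm, h, le_abs_self (gh x - gh xs)]
  · have hx0 := hA.x0
    have hx1 := hA.x1
    have gm := gh_mono (x := x) (y := xs) (by linarith only [hx0]) hx.le (by linarith only [he, hx, hx0])
    rcases le_total x (1960 / 10000) with hc | hc
    · have h := piD1 cI5_rr_1_db (by norm_num) hL5c (hS x y hA) (by norm_num) (by norm_num)
        (by push_cast; linarith only [hx0]) (by push_cast; linarith only [hc]) (by push_cast; exact ha)
      have g1 := gU (x := x) (y := xs) ud (by norm_num) (by push_cast; linarith only [hx0]) hx.le (by linarith only [he, hx, hx0])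
      have g2 := gU (x := x) (y := 1960 / 10000) ud (by norm_num) (by push_cast; linarith only [hx0]) hc
        (by norm_num)
      have g3 := gS (u := 1960 / 10000) (v := xs) kc (by norm_num) (by norm_num)
        (by push_cast; exact le_rfl) ha (by push_cast; exact he) hT
      push_cast at h g1 g2 g3
      exact dn_fin (gz := gh (1960 / 10000)) h gm (by unfold lin; push_cast; linarith only [he, hx, hx0, g1])
        (by unfold lin; push_cast; linarith only [g2]) (by linarith only [g3])
    · have h := piD0 cI5_rr_1_da (by norm_num) hL5c (hS x y hA) (by norm_num) (by norm_num)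
        (by push_cast; linarith only [hc]) (by push_cast; linarith only [he, hx]) hx.le
      have g1 := gU (x := x) (y := xs) ua (by norm_num) (by push_cast; linarith only [hc]) hx.le (by linarith only [he, hx, hc])
      have g3 := gS (u := x) (v := xs) kc (by norm_num) (by norm_num)
        (by push_cast; exact hc) hx.le (by push_cast; exact he) hT
      push_cast at h g1 g3
      exact dn_fin (gz := gh x) h gm (by unfold lin; push_cast; linarith only [he, hx, hc, g1])
        (by unfold lin; push_cast; linarith only []) (by linarith only [g3])
  · have hx0 := hA.x0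
    have hx1 := hA.x1
    have gm := gh_mono (x := xs) (y := x) (by linarith only [ha, hx, hx1]) hx.le (by linarith only [ha, hx, hx1])
    have g1 := gU (x := xs) (y := x) ua (by norm_num) (by push_cast; linarith only [ha]) hx.le (by linarith only [ha, hx, hx1])
    rcases le_total x (2100 / 10000) with hc | hc
    · have h := piU0 cI5_rr_1_ua (by norm_num) hL5c (hS x y hA) (by norm_num)
        (by push_cast; linarith only [ha, hx]) (by push_cast; linarith only [hc])
      have g3 := gS (u := xs) (v := x) kc (by norm_num) (by norm_num)
        (by push_cast; exact ha) hx.le (by push_cast; exact hc) hT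
      push_cast at h g1 g3
      exact up_fin (gz := gh x) h gm (by unfold lin; push_cast; linarith only [ha, hx, g1, hc])
        (by unfold lin; push_cast; linarith only []) (by linarith only [g3])
    · have h := piU1 cI5_rr_1_ub (by norm_num) hL5c (hS x y hA) (by norm_num)
        (by push_cast; linarith only [hc]) (by push_cast; linarith only [hx1])
      have g2 := gU (x := 2100 / 10000) (y := x) ue (by norm_num) (by push_cast; exact le_rfl) hc
        (by linarith only [ha, hx, hx1])
      have g3 := gS (u := xs) (v := 2100 / 10000) kc (by norm_num) (by norm_num)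
        (by push_cast; exact ha) he (by push_cast; exact le_rfl) hT
      push_cast at h g1 g2 g3
      exact up_fin (gz := gh (2100 / 10000)) h gm (by unfold lin; push_cast; linarith only [ha, hx, hx1, g1])
        (by unfold lin; push_cast; linarith only [ha, hx, hx1, g2]) (by linarith only [g3])

theorem sI5_rr_2 {xs s T ρ : ℝ} (hW : (wRr (127 / 1000) (194 / 1000) 0 (725 / 10000)).In xs s T ρ)
    (ha : 2100 / 10000 ≤ xs) (he : xs ≤ 2240 / 10000) :
    RampOK (6 / 10) (15 / 100) (75 / 100) 5 xs (1 / 2 - s) T ρ (10 / 100) (27 / 100) := by
  have hN : Nums (wRr (127 / 1000) (194 / 1000) 0 (725 / 10000)) ((5 : ℕ) : ℝ) (2100 / 10000) (2240 / 10000) (10 / 100) (27 / 100)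
      5 4180 970 1270 0 1200 1195 1965 1500 725 :=
    ⟨by norm_num, le_rfl, by norm_num, by norm_num, by norm_num, by norm_num, by norm_num [wRr],
      by norm_num, Or.inr (by norm_num [wRr]), by norm_num, by norm_num [wRr], by norm_num [wRr],
      by norm_num, by norm_num [wRr], by norm_num [wRr], by norm_num, by norm_num [wRr],
      fun h => by norm_num at h, by norm_num [wRr]⟩
  have hS : ∀ x y, RC.Adm 5 T ρ (10 / 100) (27 / 100) x y →
      Sd ((5 : ℕ) : ℝ) 5 4180 970 1270 0 1200 1195 1965 1500 725 xs s T ρ x y :=
    fun x y hA => Sd.of hN hW ha he (by push_cast; exact hA)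
  have ht0 : -(385 / 10000 : ℝ) ≤ T := le_trans (by norm_num [wRr]) hW.t0
  have ht1 : T ≤ (385 / 10000 : ℝ) := le_trans hW.t1 (by norm_num [wRr])
  have hT : |T| ≤ ((385 : ℕ) : ℝ) / 10000 := by
    rw [abs_le]
    push_cast
    constructor <;> linarith only [ht0, ht1]
  have kc : kC 7500 2100 2240 385 = true := by decide +kernel
  have ud : kU 7500 1000 76249 = true := by decide +kernel
  have ua : kU 7500 2100 38443 = true := by decide +kernel
  have ue : kU 7500 2240 36415 = true := by decide +kernel
  refine ⟨fun x y hA => ?_, fun x y hA hx => ?_, fun x y hA hx => ?_⟩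
  · have hx0 := hA.x0
    have hx1 := hA.x1
    rcases le_total x (1200 / 10000) with hc | hc
    · have h := piP cI5_rr_2_pl0 (by norm_num) hL5c (hS x y hA) (Or.inl rfl)
        (by push_cast; linarith only [hx0]) (by push_cast; linarith only [hc])
      have g0 := gL (be := 7500) (p := 1200) (G := 64005) (x := x) (y := 1200 / 10000)
        (by decide +kernel) (by linarith only [hx0]) hc (by push_cast; exact le_rfl) (by norm_num)
      have g1 := gL (be := 7500) (p := 1400) (G := 55338) (x := 1200 / 10000) (y := 1400 / 10000)
        (by decide +kernel) (by norm_num) (by norm_num) (by push_cast; exact le_rfl) (by norm_num)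
      have g2 := gL (be := 7500) (p := 1700) (G := 46286) (x := 1400 / 10000) (y := 1700 / 10000)
        (by decide +kernel) (by norm_num) (by norm_num) (by push_cast; exact le_rfl) (by norm_num)
      have g3 := gL (be := 7500) (p := 2100) (G := 38442) (x := 1700 / 10000) (y := 2100 / 10000)
        (by decide +kernel) (by norm_num) (by norm_num) (by push_cast; exact le_rfl) (by norm_num)
      have gm := gh_mono (x := 2100 / 10000) (y := xs) (by norm_num) ha (by linarith only [he])
      unfold lin at h
      push_cast at h g0 g1 g2 g3
      linarith only [g0, g1, g2, g3, gm, h, neg_abs_le (gh x - gh xs)]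
    rcases le_total x (1400 / 10000) with hc | hc
    · have h := piP cI5_rr_2_pl1 (by norm_num) hL5c (hS x y hA) (Or.inl rfl)
        (by push_cast; linarith) (by push_cast; linarith only [hc])
      have g0 := gL (be := 7500) (p := 1400) (G := 55338) (x := x) (y := 1400 / 10000)
        (by decide +kernel) (by linarith) hc (by push_cast; exact le_rfl) (by norm_num)
      have g1 := gL (be := 7500) (p := 1700) (G := 46286) (x := 1400 / 10000) (y := 1700 / 10000)
        (by decide +kernel) (by norm_num) (by norm_num) (by push_cast; exact le_rfl) (by norm_num)
      have g2 := gL (be := 7500) (p := 2100) (G := 38442) (x := 1700 / 10000) (y := 2100 / 10000)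
        (by decide +kernel) (by norm_num) (by norm_num) (by push_cast; exact le_rfl) (by norm_num)
      have gm := gh_mono (x := 2100 / 10000) (y := xs) (by norm_num) ha (by linarith only [he])
      unfold lin at h
      push_cast at h g0 g1 g2
      linarith only [g0, g1, g2, gm, h, neg_abs_le (gh x - gh xs)]
    rcases le_total x (1700 / 10000) with hc | hc
    · have h := piP cI5_rr_2_pl2 (by norm_num) hL5c (hS x y hA) (Or.inl rfl)
        (by push_cast; linarith) (by push_cast; linarith only [hc])
      have g0 := gL (be := 7500) (p := 1700) (G := 46286) (x := x) (y := 1700 / 10000)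
        (by decide +kernel) (by linarith) hc (by push_cast; exact le_rfl) (by norm_num)
      have g1 := gL (be := 7500) (p := 2100) (G := 38442) (x := 1700 / 10000) (y := 2100 / 10000)
        (by decide +kernel) (by norm_num) (by norm_num) (by push_cast; exact le_rfl) (by norm_num)
      have gm := gh_mono (x := 2100 / 10000) (y := xs) (by norm_num) ha (by linarith only [he])
      unfold lin at h
      push_cast at h g0 g1
      linarith only [g0, g1, gm, h, neg_abs_le (gh x - gh xs)]
    rcases le_total x (2100 / 10000) with hc | hc
    · have h := piP cI5_rr_2_pl3 (by norm_num) hL5c (hS x y hA) (Or.inl rfl)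
        (by push_cast; linarith) (by push_cast; linarith only [hc])
      have g0 := gL (be := 7500) (p := 2100) (G := 38442) (x := x) (y := 2100 / 10000)
        (by decide +kernel) (by linarith) hc (by push_cast; exact le_rfl) (by norm_num)
      have gm := gh_mono (x := 2100 / 10000) (y := xs) (by norm_num) ha (by linarith only [he])
      unfold lin at h
      push_cast at h g0
      linarith only [g0, gm, h, neg_abs_le (gh x - gh xs)]
    rcases le_total x (2240 / 10000) with hc2 | hc2
    · have h := piP cI5_rr_2_pm (by norm_num) hL5c (hS x y hA) (Or.inl rfl)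
        (by push_cast; linarith only [hc]) (by push_cast; linarith only [hc2])
      unfold lin at h
      push_cast at h
      linarith only [h, abs_nonneg (gh x - gh xs)]
    · have h := piP cI5_rr_2_pr (by norm_num) hL5c (hS x y hA) (Or.inl rfl)
        (by push_cast; linarith only [hc2]) (by push_cast; linarith only [hx1])
      have g0 := gL (be := 7500) (p := 2700) (G := 31411) (x := 2240 / 10000) (y := x)
        (by decide +kernel) (by norm_num) hc2 (by push_cast; linarith only [hx1]) (by norm_num)
      have gm := gh_mono (x := xs) (y := 2240 / 10000) (by linarith only [ha]) he (by norm_num)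
      unfold lin at h
      push_cast at h g0
      linarith only [g0, gm, h, le_abs_self (gh x - gh xs)]
  · have hx0 := hA.x0
    have hx1 := hA.x1
    have gm := gh_mono (x := x) (y := xs) (by linarith only [hx0]) hx.le (by linarith only [he, hx, hx0])
    rcases le_total x (2100 / 10000) with hc | hc
    · have h := piD1 cI5_rr_2_db (by norm_num) hL5c (hS x y hA) (by norm_num) (by norm_num)
        (by push_cast; linarith only [hx0]) (by push_cast; linarith only [hc]) (by push_cast; exact ha)
      have g1 := gU (x := x) (y := xs) ud (by norm_num) (by push_cast; linarith only [hx0]) hx.le (by linarith only [he, hx, hx0])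
      have g2 := gU (x := x) (y := 2100 / 10000) ud (by norm_num) (by push_cast; linarith only [hx0]) hc
        (by norm_num)
      have g3 := gS (u := 2100 / 10000) (v := xs) kc (by norm_num) (by norm_num)
        (by push_cast; exact le_rfl) ha (by push_cast; exact he) hT
      push_cast at h g1 g2 g3
      exact dn_fin (gz := gh (2100 / 10000)) h gm (by unfold lin; push_cast; linarith only [he, hx, hx0, g1])
        (by unfold lin; push_cast; linarith only [g2]) (by linarith only [g3])
    · have h := piD0 cI5_rr_2_da (by norm_num) hL5c (hS x y hA) (by norm_num) (by norm_num)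
        (by push_cast; linarith only [hc]) (by push_cast; linarith only [he, hx]) hx.le
      have g1 := gU (x := x) (y := xs) ua (by norm_num) (by push_cast; linarith only [hc]) hx.le (by linarith only [he, hx, hc])
      have g3 := gS (u := x) (v := xs) kc (by norm_num) (by norm_num)
        (by push_cast; exact hc) hx.le (by push_cast; exact he) hT
      push_cast at h g1 g3
      exact dn_fin (gz := gh x) h gm (by unfold lin; push_cast; linarith only [he, hx, hc, g1])
        (by unfold lin; push_cast; linarith only []) (by linarith only [g3])
  · have hx0 := hA.x0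
    have hx1 := hA.x1
    have gm := gh_mono (x := xs) (y := x) (by linarith only [ha, hx, hx1]) hx.le (by linarith only [ha, hx, hx1])
    have g1 := gU (x := xs) (y := x) ua (by norm_num) (by push_cast; linarith only [ha]) hx.le (by linarith only [ha, hx, hx1])
    rcases le_total x (2240 / 10000) with hc | hc
    · have h := piU0 cI5_rr_2_ua (by norm_num) hL5c (hS x y hA) (by norm_num)
        (by push_cast; linarith only [ha, hx]) (by push_cast; linarith only [hc])
      have g3 := gS (u := xs) (v := x) kc (by norm_num) (by norm_num)
        (by push_cast; exact ha) hx.le (by push_cast; exact hc) hT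
      push_cast at h g1 g3
      exact up_fin (gz := gh x) h gm (by unfold lin; push_cast; linarith only [ha, hx, g1, hc])
        (by unfold lin; push_cast; linarith only []) (by linarith only [g3])
    · have h := piU1 cI5_rr_2_ub (by norm_num) hL5c (hS x y hA) (by norm_num)
        (by push_cast; linarith only [hc]) (by push_cast; linarith only [hx1])
      have g2 := gU (x := 2240 / 10000) (y := x) ue (by norm_num) (by push_cast; exact le_rfl) hc
        (by linarith only [ha, hx, hx1])
      have g3 := gS (u := xs) (v := 2240 / 10000) kc (by norm_num) (by norm_num)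
        (by push_cast; exact ha) he (by push_cast; exact le_rfl) hT
      push_cast at h g1 g2 g3
      exact up_fin (gz := gh (2240 / 10000)) h gm (by unfold lin; push_cast; linarith only [ha, hx, hx1, g1])
        (by unfold lin; push_cast; linarith only [ha, hx, hx1, g2]) (by linarith only [g3])

theorem sI5_rr_3 {xs s T ρ : ℝ} (hW : (wRr (127 / 1000) (194 / 1000) 0 (725 / 10000)).In xs s T ρ)
    (ha : 2240 / 10000 ≤ xs) (he : xs ≤ 2380 / 10000) :
    RampOK (6 / 10) (15 / 100) (75 / 100) 5 xs (1 / 2 - s) T ρ (10 / 100) (27 / 100) := by
  have hN : Nums (wRr (127 / 1000) (194 / 1000) 0 (725 / 10000)) ((5 : ℕ) : ℝ) (2240 / 10000) (2380 / 10000) (10 / 100) (27 / 100)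
      5 4320 1110 1270 0 1200 1195 1965 1500 725 :=
    ⟨by norm_num, le_rfl, by norm_num, by norm_num, by norm_num, by norm_num, by norm_num [wRr],
      by norm_num, Or.inr (by norm_num [wRr]), by norm_num, by norm_num [wRr], by norm_num [wRr],
      by norm_num, by norm_num [wRr], by norm_num [wRr], by norm_num, by norm_num [wRr],
      fun h => by norm_num at h, by norm_num [wRr]⟩
  have hS : ∀ x y, RC.Adm 5 T ρ (10 / 100) (27 / 100) x y →
      Sd ((5 : ℕ) : ℝ) 5 4320 1110 1270 0 1200 1195 1965 1500 725 xs s T ρ x y :=
    fun x y hA => Sd.of hN hW ha he (by push_cast; exact hA)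
  have ht0 : -(385 / 10000 : ℝ) ≤ T := le_trans (by norm_num [wRr]) hW.t0
  have ht1 : T ≤ (385 / 10000 : ℝ) := le_trans hW.t1 (by norm_num [wRr])
  have hT : |T| ≤ ((385 : ℕ) : ℝ) / 10000 := by
    rw [abs_le]
    push_cast
    constructor <;> linarith only [ht0, ht1]
  have kc : kC 7500 2240 2380 385 = true := by decide +kernel
  have ud : kU 7500 1000 76249 = true := by decide +kernel
  have ua : kU 7500 2240 36415 = true := by decide +kernel
  have ue : kU 7500 2380 34653 = true := by decide +kernel
  refine ⟨fun x y hA => ?_, fun x y hA hx => ?_, fun x y hA hx => ?_⟩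
  · have hx0 := hA.x0
    have hx1 := hA.x1
    rcases le_total x (1200 / 10000) with hc | hc
    · have h := piP cI5_rr_3_pl0 (by norm_num) hL5c (hS x y hA) (Or.inl rfl)
        (by push_cast; linarith only [hx0]) (by push_cast; linarith only [hc])
      have g0 := gL (be := 7500) (p := 1200) (G := 64005) (x := x) (y := 1200 / 10000)
        (by decide +kernel) (by linarith only [hx0]) hc (by push_cast; exact le_rfl) (by norm_num)
      have g1 := gL (be := 7500) (p := 1400) (G := 55338) (x := 1200 / 10000) (y := 1400 / 10000)
        (by decide +kernel) (by norm_num) (by norm_num) (by push_cast; exact le_rfl) (by norm_num)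
      have g2 := gL (be := 7500) (p := 1700) (G := 46286) (x := 1400 / 10000) (y := 1700 / 10000)
        (by decide +kernel) (by norm_num) (by norm_num) (by push_cast; exact le_rfl) (by norm_num)
      have g3 := gL (be := 7500) (p := 2240) (G := 36414) (x := 1700 / 10000) (y := 2240 / 10000)
        (by decide +kernel) (by norm_num) (by norm_num) (by push_cast; exact le_rfl) (by norm_num)
      have gm := gh_mono (x := 2240 / 10000) (y := xs) (by norm_num) ha (by linarith only [he])
      unfold lin at h
      push_cast at h g0 g1 g2 g3
      linarith only [g0, g1, g2, g3, gm, h, neg_abs_le (gh x - gh xs)]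
    rcases le_total x (1400 / 10000) with hc | hc
    · have h := piP cI5_rr_3_pl1 (by norm_num) hL5c (hS x y hA) (Or.inl rfl)
        (by push_cast; linarith) (by push_cast; linarith only [hc])
      have g0 := gL (be := 7500) (p := 1400) (G := 55338) (x := x) (y := 1400 / 10000)
        (by decide +kernel) (by linarith) hc (by push_cast; exact le_rfl) (by norm_num)
      have g1 := gL (be := 7500) (p := 1700) (G := 46286) (x := 1400 / 10000) (y := 1700 / 10000)
        (by decide +kernel) (by norm_num) (by norm_num) (by push_cast; exact le_rfl) (by norm_num)
      have g2 := gL (be := 7500) (p := 2240) (G := 36414) (x := 1700 / 10000) (y := 2240 / 10000)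
        (by decide +kernel) (by norm_num) (by norm_num) (by push_cast; exact le_rfl) (by norm_num)
      have gm := gh_mono (x := 2240 / 10000) (y := xs) (by norm_num) ha (by linarith only [he])
      unfold lin at h
      push_cast at h g0 g1 g2
      linarith only [g0, g1, g2, gm, h, neg_abs_le (gh x - gh xs)]
    rcases le_total x (1700 / 10000) with hc | hc
    · have h := piP cI5_rr_3_pl2 (by norm_num) hL5c (hS x y hA) (Or.inl rfl)
        (by push_cast; linarith) (by push_cast; linarith only [hc])
      have g0 := gL (be := 7500) (p := 1700) (G := 46286) (x := x) (y := 1700 / 10000)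
        (by decide +kernel) (by linarith) hc (by push_cast; exact le_rfl) (by norm_num)
      have g1 := gL (be := 7500) (p := 2240) (G := 36414) (x := 1700 / 10000) (y := 2240 / 10000)
        (by decide +kernel) (by norm_num) (by norm_num) (by push_cast; exact le_rfl) (by norm_num)
      have gm := gh_mono (x := 2240 / 10000) (y := xs) (by norm_num) ha (by linarith only [he])
      unfold lin at h
      push_cast at h g0 g1
      linarith only [g0, g1, gm, h, neg_abs_le (gh x - gh xs)]
    rcases le_total x (2240 / 10000) with hc | hc
    · have h := piP cI5_rr_3_pl3 (by norm_num) hL5c (hS x y hA) (Or.inl rfl)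
        (by push_cast; linarith) (by push_cast; linarith only [hc])
      have g0 := gL (be := 7500) (p := 2240) (G := 36414) (x := x) (y := 2240 / 10000)
        (by decide +kernel) (by linarith) hc (by push_cast; exact le_rfl) (by norm_num)
      have gm := gh_mono (x := 2240 / 10000) (y := xs) (by norm_num) ha (by linarith only [he])
      unfold lin at h
      push_cast at h g0
      linarith only [g0, gm, h, neg_abs_le (gh x - gh xs)]
    rcases le_total x (2380 / 10000) with hc2 | hc2
    · have h := piP cI5_rr_3_pm (by norm_num) hL5c (hS x y hA) (Or.inl rfl)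
        (by push_cast; linarith only [hc]) (by push_cast; linarith only [hc2])
      unfold lin at h
      push_cast at h
      linarith only [h, abs_nonneg (gh x - gh xs)]
    · have h := piP cI5_rr_3_pr (by norm_num) hL5c (hS x y hA) (Or.inl rfl)
        (by push_cast; linarith only [hc2]) (by push_cast; linarith only [hx1])
      have g0 := gL (be := 7500) (p := 2700) (G := 31411) (x := 2380 / 10000) (y := x)
        (by decide +kernel) (by norm_num) hc2 (by push_cast; linarith only [hx1]) (by norm_num)
      have gm := gh_mono (x := xs) (y := 2380 / 10000) (by linarith only [ha]) he (by norm_num)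
      unfold lin at h
      push_cast at h g0
      linarith only [g0, gm, h, le_abs_self (gh x - gh xs)]
  · have hx0 := hA.x0
    have hx1 := hA.x1
    have gm := gh_mono (x := x) (y := xs) (by linarith only [hx0]) hx.le (by linarith only [he, hx, hx0])
    rcases le_total x (2240 / 10000) with hc | hc
    · have h := piD1 cI5_rr_3_db (by norm_num) hL5c (hS x y hA) (by norm_num) (by norm_num)
        (by push_cast; linarith only [hx0]) (by push_cast; linarith only [hc]) (by push_cast; exact ha)
      have g1 := gU (x := x) (y := xs) ud (by norm_num) (by push_cast; linarith only [hx0]) hx.le (by linarith only [he, hx, hx0])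
      have g2 := gU (x := x) (y := 2240 / 10000) ud (by norm_num) (by push_cast; linarith only [hx0]) hc
        (by norm_num)
      have g3 := gS (u := 2240 / 10000) (v := xs) kc (by norm_num) (by norm_num)
        (by push_cast; exact le_rfl) ha (by push_cast; exact he) hT
      push_cast at h g1 g2 g3
      exact dn_fin (gz := gh (2240 / 10000)) h gm (by unfold lin; push_cast; linarith only [he, hx, hx0, g1])
        (by unfold lin; push_cast; linarith only [g2]) (by linarith only [g3])
    · have h := piD0 cI5_rr_3_da (by norm_num) hL5c (hS x y hA) (by norm_num) (by norm_num)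
        (by push_cast; linarith only [hc]) (by push_cast; linarith only [he, hx]) hx.le
      have g1 := gU (x := x) (y := xs) ua (by norm_num) (by push_cast; linarith only [hc]) hx.le (by linarith only [he, hx, hc])
      have g3 := gS (u := x) (v := xs) kc (by norm_num) (by norm_num)
        (by push_cast; exact hc) hx.le (by push_cast; exact he) hT
      push_cast at h g1 g3
      exact dn_fin (gz := gh x) h gm (by unfold lin; push_cast; linarith only [he, hx, hc, g1])
        (by unfold lin; push_cast; linarith only []) (by linarith only [g3])
  · have hx0 := hA.x0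
    have hx1 := hA.x1
    have gm := gh_mono (x := xs) (y := x) (by linarith only [ha, hx, hx1]) hx.le (by linarith only [ha, hx, hx1])
    have g1 := gU (x := xs) (y := x) ua (by norm_num) (by push_cast; linarith only [ha]) hx.le (by linarith only [ha, hx, hx1])
    rcases le_total x (2380 / 10000) with hc | hc
    · have h := piU0 cI5_rr_3_ua (by norm_num) hL5c (hS x y hA) (by norm_num)
        (by push_cast; linarith only [ha, hx]) (by push_cast; linarith only [hc])
      have g3 := gS (u := xs) (v := x) kc (by norm_num) (by norm_num)
        (by push_cast; exact ha) hx.le (by push_cast; exact hc) hT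
      push_cast at h g1 g3
      exact up_fin (gz := gh x) h gm (by unfold lin; push_cast; linarith only [ha, hx, g1, hc])
        (by unfold lin; push_cast; linarith only []) (by linarith only [g3])
    · have h := piU1 cI5_rr_3_ub (by norm_num) hL5c (hS x y hA) (by norm_num)
        (by push_cast; linarith only [hc]) (by push_cast; linarith only [hx1])
      have g2 := gU (x := 2380 / 10000) (y := x) ue (by norm_num) (by push_cast; exact le_rfl) hc
        (by linarith only [ha, hx, hx1])
      have g3 := gS (u := xs) (v := 2380 / 10000) kc (by norm_num) (by norm_num)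
        (by push_cast; exact ha) he (by push_cast; exact le_rfl) hT
      push_cast at h g1 g2 g3
      exact up_fin (gz := gh (2380 / 10000)) h gm (by unfold lin; push_cast; linarith only [ha, hx, hx1, g1])
        (by unfold lin; push_cast; linarith only [ha, hx, hx1, g2]) (by linarith only [g3])

theorem sI5_rr_4 {xs s T ρ : ℝ} (hW : (wRr (127 / 1000) (194 / 1000) 0 (725 / 10000)).In xs s T ρ)
    (ha : 2380 / 10000 ≤ xs) (he : xs ≤ 2520 / 10000) :
    RampOK (6 / 10) (15 / 100) (75 / 100) 5 xs (1 / 2 - s) T ρ (10 / 100) (27 / 100) := by
  have hN : Nums (wRr (127 / 1000) (194 / 1000) 0 (725 / 10000)) ((5 : ℕ) : ℝ) (2380 / 10000) (2520 / 10000) (10 / 100) (27 / 100)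
      5 4460 1250 1270 0 1200 1195 1965 1500 725 :=
    ⟨by norm_num, le_rfl, by norm_num, by norm_num, by norm_num, by norm_num, by norm_num [wRr],
      by norm_num, Or.inr (by norm_num [wRr]), by norm_num, by norm_num [wRr], by norm_num [wRr],
      by norm_num, by norm_num [wRr], by norm_num [wRr], by norm_num, by norm_num [wRr],
      fun h => by norm_num at h, by norm_num [wRr]⟩
  have hS : ∀ x y, RC.Adm 5 T ρ (10 / 100) (27 / 100) x y →
      Sd ((5 : ℕ) : ℝ) 5 4460 1250 1270 0 1200 1195 1965 1500 725 xs s T ρ x y :=
    fun x y hA => Sd.of hN hW ha he (by push_cast; exact hA)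
  have ht0 : -(385 / 10000 : ℝ) ≤ T := le_trans (by norm_num [wRr]) hW.t0
  have ht1 : T ≤ (385 / 10000 : ℝ) := le_trans hW.t1 (by norm_num [wRr])
  have hT : |T| ≤ ((385 : ℕ) : ℝ) / 10000 := by
    rw [abs_le]
    push_cast
    constructor <;> linarith only [ht0, ht1]
  have kc : kC 7500 2380 2520 385 = true := by decide +kernel
  have ud : kU 7500 1000 76249 = true := by decide +kernel
  have ua : kU 7500 2380 34653 = true := by decide +kernel
  have ue : kU 7500 2520 33115 = true := by decide +kernel
  refine ⟨fun x y hA => ?_, fun x y hA hx => ?_, fun x y hA hx => ?_⟩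
  · have hx0 := hA.x0
    have hx1 := hA.x1
    rcases le_total x (1200 / 10000) with hc | hc
    · have h := piP cI5_rr_4_pl0 (by norm_num) hL5c (hS x y hA) (Or.inl rfl)
        (by push_cast; linarith only [hx0]) (by push_cast; linarith only [hc])
      have g0 := gL (be := 7500) (p := 1200) (G := 64005) (x := x) (y := 1200 / 10000)
        (by decide +kernel) (by linarith only [hx0]) hc (by push_cast; exact le_rfl) (by norm_num)
      have g1 := gL (be := 7500) (p := 1400) (G := 55338) (x := 1200 / 10000) (y := 1400 / 10000)
        (by decide +kernel) (by norm_num) (by norm_num) (by push_cast; exact le_rfl) (by norm_num)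
      have g2 := gL (be := 7500) (p := 1700) (G := 46286) (x := 1400 / 10000) (y := 1700 / 10000)
        (by decide +kernel) (by norm_num) (by norm_num) (by push_cast; exact le_rfl) (by norm_num)
      have g3 := gL (be := 7500) (p := 2380) (G := 34652) (x := 1700 / 10000) (y := 2380 / 10000)
        (by decide +kernel) (by norm_num) (by norm_num) (by push_cast; exact le_rfl) (by norm_num)
      have gm := gh_mono (x := 2380 / 10000) (y := xs) (by norm_num) ha (by linarith only [he])
      unfold lin at h
      push_cast at h g0 g1 g2 g3
      linarith only [g0, g1, g2, g3, gm, h, neg_abs_le (gh x - gh xs)]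
    rcases le_total x (1400 / 10000) with hc | hc
    · have h := piP cI5_rr_4_pl1 (by norm_num) hL5c (hS x y hA) (Or.inl rfl)
        (by push_cast; linarith) (by push_cast; linarith only [hc])
      have g0 := gL (be := 7500) (p := 1400) (G := 55338) (x := x) (y := 1400 / 10000)
        (by decide +kernel) (by linarith) hc (by push_cast; exact le_rfl) (by norm_num)
      have g1 := gL (be := 7500) (p := 1700) (G := 46286) (x := 1400 / 10000) (y := 1700 / 10000)
        (by decide +kernel) (by norm_num) (by norm_num) (by push_cast; exact le_rfl) (by norm_num)
      have g2 := gL (be := 7500) (p := 2380) (G := 34652) (x := 1700 / 10000) (y := 2380 / 10000)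
        (by decide +kernel) (by norm_num) (by norm_num) (by push_cast; exact le_rfl) (by norm_num)
      have gm := gh_mono (x := 2380 / 10000) (y := xs) (by norm_num) ha (by linarith only [he])
      unfold lin at h
      push_cast at h g0 g1 g2
      linarith only [g0, g1, g2, gm, h, neg_abs_le (gh x - gh xs)]
    rcases le_total x (1700 / 10000) with hc | hc
    · have h := piP cI5_rr_4_pl2 (by norm_num) hL5c (hS x y hA) (Or.inl rfl)
        (by push_cast; linarith) (by push_cast; linarith only [hc])
      have g0 := gL (be := 7500) (p := 1700) (G := 46286) (x := x) (y := 1700 / 10000)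
        (by decide +kernel) (by linarith) hc (by push_cast; exact le_rfl) (by norm_num)
      have g1 := gL (be := 7500) (p := 2380) (G := 34652) (x := 1700 / 10000) (y := 2380 / 10000)
        (by decide +kernel) (by norm_num) (by norm_num) (by push_cast; exact le_rfl) (by norm_num)
      have gm := gh_mono (x := 2380 / 10000) (y := xs) (by norm_num) ha (by linarith only [he])
      unfold lin at h
      push_cast at h g0 g1
      linarith only [g0, g1, gm, h, neg_abs_le (gh x - gh xs)]
    rcases le_total x (2380 / 10000) with hc | hc
    · have h := piP cI5_rr_4_pl3 (by norm_num) hL5c (hS x y hA) (Or.inl rfl)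
        (by push_cast; linarith) (by push_cast; linarith only [hc])
      have g0 := gL (be := 7500) (p := 2380) (G := 34652) (x := x) (y := 2380 / 10000)
        (by decide +kernel) (by linarith) hc (by push_cast; exact le_rfl) (by norm_num)
      have gm := gh_mono (x := 2380 / 10000) (y := xs) (by norm_num) ha (by linarith only [he])
      unfold lin at h
      push_cast at h g0
      linarith only [g0, gm, h, neg_abs_le (gh x - gh xs)]
    rcases le_total x (2520 / 10000) with hc2 | hc2
    · have h := piP cI5_rr_4_pm (by norm_num) hL5c (hS x y hA) (Or.inl rfl)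
        (by push_cast; linarith only [hc]) (by push_cast; linarith only [hc2])
      unfold lin at h
      push_cast at h
      linarith only [h, abs_nonneg (gh x - gh xs)]
    · have h := piP cI5_rr_4_pr (by norm_num) hL5c (hS x y hA) (Or.inl rfl)
        (by push_cast; linarith only [hc2]) (by push_cast; linarith only [hx1])
      have g0 := gL (be := 7500) (p := 2700) (G := 31411) (x := 2520 / 10000) (y := x)
        (by decide +kernel) (by norm_num) hc2 (by push_cast; linarith only [hx1]) (by norm_num)
      have gm := gh_mono (x := xs) (y := 2520 / 10000) (by linarith only [ha]) he (by norm_num)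
      unfold lin at h
      push_cast at h g0
      linarith only [g0, gm, h, le_abs_self (gh x - gh xs)]
  · have hx0 := hA.x0
    have hx1 := hA.x1
    have gm := gh_mono (x := x) (y := xs) (by linarith only [hx0]) hx.le (by linarith only [he, hx, hx0])
    rcases le_total x (2380 / 10000) with hc | hc
    · have h := piD1 cI5_rr_4_db (by norm_num) hL5c (hS x y hA) (by norm_num) (by norm_num)
        (by push_cast; linarith only [hx0]) (by push_cast; linarith only [hc]) (by push_cast; exact ha)
      have g1 := gU (x := x) (y := xs) ud (by norm_num) (by push_cast; linarith only [hx0]) hx.le (by linarith only [he, hx, hx0])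
      have g2 := gU (x := x) (y := 2380 / 10000) ud (by norm_num) (by push_cast; linarith only [hx0]) hc
        (by norm_num)
      have g3 := gS (u := 2380 / 10000) (v := xs) kc (by norm_num) (by norm_num)
        (by push_cast; exact le_rfl) ha (by push_cast; exact he) hT
      push_cast at h g1 g2 g3
      exact dn_fin (gz := gh (2380 / 10000)) h gm (by unfold lin; push_cast; linarith only [he, hx, hx0, g1])
        (by unfold lin; push_cast; linarith only [g2]) (by linarith only [g3])
    · have h := piD0 cI5_rr_4_da (by norm_num) hL5c (hS x y hA) (by norm_num) (by norm_num)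
        (by push_cast; linarith only [hc]) (by push_cast; linarith only [he, hx]) hx.le
      have g1 := gU (x := x) (y := xs) ua (by norm_num) (by push_cast; linarith only [hc]) hx.le (by linarith only [he, hx, hc])
      have g3 := gS (u := x) (v := xs) kc (by norm_num) (by norm_num)
        (by push_cast; exact hc) hx.le (by push_cast; exact he) hT
      push_cast at h g1 g3
      exact dn_fin (gz := gh x) h gm (by unfold lin; push_cast; linarith only [he, hx, hc, g1])
        (by unfold lin; push_cast; linarith only []) (by linarith only [g3])
  · have hx0 := hA.x0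
    have hx1 := hA.x1
    have gm := gh_mono (x := xs) (y := x) (by linarith only [ha, hx, hx1]) hx.le (by linarith only [ha, hx, hx1])
    have g1 := gU (x := xs) (y := x) ua (by norm_num) (by push_cast; linarith only [ha]) hx.le (by linarith only [ha, hx, hx1])
    rcases le_total x (2520 / 10000) with hc | hc
    · have h := piU0 cI5_rr_4_ua (by norm_num) hL5c (hS x y hA) (by norm_num)
        (by push_cast; linarith only [ha, hx]) (by push_cast; linarith only [hc])
      have g3 := gS (u := xs) (v := x) kc (by norm_num) (by norm_num)
        (by push_cast; exact ha) hx.le (by push_cast; exact hc) hT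
      push_cast at h g1 g3
      exact up_fin (gz := gh x) h gm (by unfold lin; push_cast; linarith only [ha, hx, g1, hc])
        (by unfold lin; push_cast; linarith only []) (by linarith only [g3])
    · have h := piU1 cI5_rr_4_ub (by norm_num) hL5c (hS x y hA) (by norm_num)
        (by push_cast; linarith only [hc]) (by push_cast; linarith only [hx1])
      have g2 := gU (x := 2520 / 10000) (y := x) ue (by norm_num) (by push_cast; exact le_rfl) hc
        (by linarith only [ha, hx, hx1])
      have g3 := gS (u := xs) (v := 2520 / 10000) kc (by norm_num) (by norm_num)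
        (by push_cast; exact ha) he (by push_cast; exact le_rfl) hT
      push_cast at h g1 g2 g3
      exact up_fin (gz := gh (2520 / 10000)) h gm (by unfold lin; push_cast; linarith only [ha, hx, hx1, g1])
        (by unfold lin; push_cast; linarith only [ha, hx, hx1, g2]) (by linarith only [g3])

end RQ

namespace RC

open RQ

theorem I5_rr : RowI (wRr (127 / 1000) (194 / 1000) 0 (725 / 10000)) 5 (6 / 10) (15 / 100) (75 / 100) (10 / 100) (27 / 100) := by
  intro xs s T ρ hW
  have h0 : (1820 / 10000 : ℝ) ≤ xs := le_trans (by norm_num [wRr]) hW.x0
  have h1 : xs ≤ (2520 / 10000 : ℝ) := le_trans hW.x1 (by norm_num [wRr])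
  rcases le_total xs (1960 / 10000) with k0 | k0
  · exact RQ.sI5_rr_0 hW h0 k0
  rcases le_total xs (2100 / 10000) with k1 | k1
  · exact RQ.sI5_rr_1 hW k0 k1
  rcases le_total xs (2240 / 10000) with k2 | k2
  · exact RQ.sI5_rr_2 hW k1 k2
  rcases le_total xs (2380 / 10000) with k3 | k3
  · exact RQ.sI5_rr_3 hW k2 k3
  exact RQ.sI5_rr_4 hW k3 h1

end RC

end Pool.Agent.Work.MP_b30479_gt.G2
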