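import Pool.Agent.Work.MP_b30479_gt.G2.RRP
import Pool.Agent.Work.MP_b30479_gt.G2.RRC6

/-!
# Rings with the ring variable on the ramp: the rows `b = 6`
-/

namespace Pool.Agent.Work.MP_b30479_gt.G2

open Real NumI

namespace RQ

open RC

theorem hL : lam 6 10 1 = 6 / 10 := by
  unfold lam
  norm_num

theorem sI6_one_0 {xs s T ρ : ℝ} (hW : (wOne (109 / 1000) (168 / 1000) 0 (52 / 1000)).In xs s T ρ)
    (ha : 2140 / 10000 ≤ xs) (he : xs ≤ 2560 / 10000) :
    RampOK (6 / 10) (3 / 100) (4 / 10) 6 xs (1 / 2 - s) T ρ (16 / 100) (36 / 100) := by
  have hN : Nums (wOne (109 / 1000) (168 / 1000) 0 (52 / 1000)) ((6 : ℕ) : ℝ) (2140 / 10000) (2560 / 10000) (16 / 100) (36 / 100)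
      6 4240 1470 1090 0 10000 0 1200 1666 520 :=
    ⟨by norm_num, le_rfl, by norm_num, by norm_num, by norm_num, by norm_num, by norm_num [wOne],
      by norm_num, Or.inr (by norm_num [wOne]), by norm_num, by norm_num [wOne],
      by norm_num [wOne], by norm_num, by norm_num [wOne], by norm_num [wOne], by norm_num,
      by norm_num [wOne], fun h => by norm_num at h, by norm_num [wOne]⟩
  have hS : ∀ x y, RC.Adm 6 T ρ (16 / 100) (36 / 100) x y →
      Sd ((6 : ℕ) : ℝ) 6 4240 1470 1090 0 10000 0 1200 1666 520 xs s T ρ x y :=
    fun x y hA => Sd.of hN hW ha he (by push_cast; exact hA)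
  have ht0 : -(1580 / 10000 : ℝ) ≤ T := le_trans (by norm_num [wOne]) hW.t0
  have ht1 : T ≤ -(380 / 10000 : ℝ) := le_trans hW.t1 (by norm_num [wOne])
  have hT : |T| ≤ ((1580 : ℕ) : ℝ) / 10000 := by
    rw [abs_le]
    push_cast
    constructor <;> linarith only [ht0, ht1]
  have kc : kC 4000 2140 2560 1580 = true := by decide +kernel
  have ud : kU 4000 1600 26085 = true := by decide +kernel
  have ua : kU 4000 2140 20178 = true := by decide +kernel
  have ue : kU 4000 2560 17446 = true := by decide +kernel
  refine ⟨fun x y hA => ?_, fun x y hA hx => ?_, fun x y hA hx => ?_⟩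
  · have hx0 := hA.x0
    have hx1 := hA.x1
    rcases le_total x (2140 / 10000) with hc | hc
    · have h := piP cI6_one_0_pl (by norm_num) hL (hS x y hA) (Or.inl rfl)
        (by push_cast; linarith only [hx0]) (by push_cast; linarith only [hc])
      have g0 := gL (be := 4000) (p := 2140) (G := 20177) (x := x) (y := 2140 / 10000)
        (by decide +kernel) (by linarith only [hx0]) hc (by push_cast; exact le_rfl) (by norm_num)
      have gm := gh_mono (x := 2140 / 10000) (y := xs) (by norm_num) ha (by linarith only [he])
      unfold lin at h
      push_cast at h g0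
      linarith only [g0, gm, h, neg_abs_le (gh x - gh xs)]
    rcases le_total x (2560 / 10000) with hc2 | hc2
    · have h := piP cI6_one_0_pm (by norm_num) hL (hS x y hA) (Or.inl rfl)
        (by push_cast; linarith only [hc]) (by push_cast; linarith only [hc2])
      unfold lin at h
      push_cast at h
      linarith only [h, abs_nonneg (gh x - gh xs)]
    · have h := piP cI6_one_0_pr (by norm_num) hL (hS x y hA) (Or.inl rfl)
        (by push_cast; linarith only [hc2]) (by push_cast; linarith only [hx1])
      have g0 := gL (be := 4000) (p := 3600) (G := 13888) (x := 2560 / 10000) (y := x)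
        (by decide +kernel) (by norm_num) hc2 (by push_cast; linarith only [hx1]) (by norm_num)
      have gm := gh_mono (x := xs) (y := 2560 / 10000) (by linarith only [ha]) he (by norm_num)
      unfold lin at h
      push_cast at h g0
      linarith only [g0, gm, h, le_abs_self (gh x - gh xs)]
  · have hx0 := hA.x0
    have hx1 := hA.x1
    have gm := gh_mono (x := x) (y := xs) (by linarith only [hx0]) hx.le (by linarith only [he, hx, hx0])
    rcases le_total x (2140 / 10000) with hc | hc
    · have h := piD1 cI6_one_0_db (by norm_num) hL (hS x y hA) (by norm_num) (by norm_num)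
        (by push_cast; linarith only [hx0]) (by push_cast; linarith only [hc]) (by push_cast; exact ha)
      have g1 := gU (x := x) (y := xs) ud (by norm_num) (by push_cast; linarith only [hx0]) hx.le (by linarith only [he, hx, hx0])
      have g2 := gU (x := x) (y := 2140 / 10000) ud (by norm_num) (by push_cast; linarith only [hx0]) hc
        (by norm_num)
      have g3 := gS (u := 2140 / 10000) (v := xs) kc (by norm_num) (by norm_num)
        (by push_cast; exact le_rfl) ha (by push_cast; exact he) hT
      push_cast at h g1 g2 g3
      exact dn_fin (gz := gh (2140 / 10000)) h gm (by unfold lin; push_cast; linarith only [he, hx, hx0, g1])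
        (by unfold lin; push_cast; linarith only [g2]) (by linarith only [g3])
    · have h := piD0 cI6_one_0_da (by norm_num) hL (hS x y hA) (by norm_num) (by norm_num)
        (by push_cast; linarith only [hc]) (by push_cast; linarith only [he, hx]) hx.le
      have g1 := gU (x := x) (y := xs) ua (by norm_num) (by push_cast; linarith only [hc]) hx.le (by linarith only [he, hx, hc])
      have g3 := gS (u := x) (v := xs) kc (by norm_num) (by norm_num)
        (by push_cast; exact hc) hx.le (by push_cast; exact he) hT
      push_cast at h g1 g3
      exact dn_fin (gz := gh x) h gm (by unfold lin; push_cast; linarith only [he, hx, hc, g1])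
        (by unfold lin; push_cast; linarith only []) (by linarith only [g3])
  · have hx0 := hA.x0
    have hx1 := hA.x1
    have gm := gh_mono (x := xs) (y := x) (by linarith only [ha, hx, hx1]) hx.le (by linarith only [ha, hx, hx1])
    have g1 := gU (x := xs) (y := x) ua (by norm_num) (by push_cast; linarith only [ha]) hx.le (by linarith only [ha, hx, hx1])
    rcases le_total x (2560 / 10000) with hc | hc
    · have h := piU0 cI6_one_0_ua (by norm_num) hL (hS x y hA) (by norm_num)
        (by push_cast; linarith only [ha, hx]) (by push_cast; linarith only [hc])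
      have g3 := gS (u := xs) (v := x) kc (by norm_num) (by norm_num)
        (by push_cast; exact ha) hx.le (by push_cast; exact hc) hT
      push_cast at h g1 g3
      exact up_fin (gz := gh x) h gm (by unfold lin; push_cast; linarith only [ha, hx, g1, hc])
        (by unfold lin; push_cast; linarith only []) (by linarith only [g3])
    · have h := piU1 cI6_one_0_ub (by norm_num) hL (hS x y hA) (by norm_num)
        (by push_cast; linarith only [hc]) (by push_cast; linarith only [hx1])
      have g2 := gU (x := 2560 / 10000) (y := x) ue (by norm_num) (by push_cast; exact le_rfl) hc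
        (by linarith only [ha, hx, hx1])
      have g3 := gS (u := xs) (v := 2560 / 10000) kc (by norm_num) (by norm_num)
        (by push_cast; exact ha) he (by push_cast; exact le_rfl) hT
      push_cast at h g1 g2 g3
      exact up_fin (gz := gh (2560 / 10000)) h gm (by unfold lin; push_cast; linarith only [ha, hx, hx1, g1])
        (by unfold lin; push_cast; linarith only [ha, hx, hx1, g2]) (by linarith only [g3])

theorem sI6_one_1 {xs s T ρ : ℝ} (hW : (wOne (109 / 1000) (168 / 1000) 0 (52 / 1000)).In xs s T ρ)
    (ha : 2560 / 10000 ≤ xs) (he : xs ≤ 2980 / 10000) :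
    RampOK (6 / 10) (3 / 100) (4 / 10) 6 xs (1 / 2 - s) T ρ (16 / 100) (36 / 100) := by
  have hN : Nums (wOne (109 / 1000) (168 / 1000) 0 (52 / 1000)) ((6 : ℕ) : ℝ) (2560 / 10000) (2980 / 10000) (16 / 100) (36 / 100)
      6 4660 1890 1090 0 10000 0 1200 1666 520 :=
    ⟨by norm_num, le_rfl, by norm_num, by norm_num, by norm_num, by norm_num, by norm_num [wOne],
      by norm_num, Or.inr (by norm_num [wOne]), by norm_num, by norm_num [wOne],
      by norm_num [wOne], by norm_num, by norm_num [wOne], by norm_num [wOne], by norm_num,
      by norm_num [wOne], fun h => by norm_num at h, by norm_num [wOne]⟩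
  have hS : ∀ x y, RC.Adm 6 T ρ (16 / 100) (36 / 100) x y →
      Sd ((6 : ℕ) : ℝ) 6 4660 1890 1090 0 10000 0 1200 1666 520 xs s T ρ x y :=
    fun x y hA => Sd.of hN hW ha he (by push_cast; exact hA)
  have ht0 : -(1580 / 10000 : ℝ) ≤ T := le_trans (by norm_num [wOne]) hW.t0
  have ht1 : T ≤ -(380 / 10000 : ℝ) := le_trans hW.t1 (by norm_num [wOne])
  have hT : |T| ≤ ((1580 : ℕ) : ℝ) / 10000 := by
    rw [abs_le]
    push_cast
    constructor <;> linarith only [ht0, ht1]
  have kc : kC 4000 2560 2980 1580 = true := by decide +kernel
  have ud : kU 4000 1600 26085 = true := by decide +kernel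
  have ua : kU 4000 2560 17446 = true := by decide +kernel
  have ue : kU 4000 2980 15605 = true := by decide +kernel
  refine ⟨fun x y hA => ?_, fun x y hA hx => ?_, fun x y hA hx => ?_⟩
  · have hx0 := hA.x0
    have hx1 := hA.x1
    rcases le_total x (2560 / 10000) with hc | hc
    · have h := piP cI6_one_1_pl (by norm_num) hL (hS x y hA) (Or.inl rfl)
        (by push_cast; linarith only [hx0]) (by push_cast; linarith only [hc])
      have g0 := gL (be := 4000) (p := 2560) (G := 17445) (x := x) (y := 2560 / 10000)
        (by decide +kernel) (by linarith only [hx0]) hc (by push_cast; exact le_rfl) (by norm_num)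
      have gm := gh_mono (x := 2560 / 10000) (y := xs) (by norm_num) ha (by linarith only [he])
      unfold lin at h
      push_cast at h g0
      linarith only [g0, gm, h, neg_abs_le (gh x - gh xs)]
    rcases le_total x (2980 / 10000) with hc2 | hc2
    · have h := piP cI6_one_1_pm (by norm_num) hL (hS x y hA) (Or.inl rfl)
        (by push_cast; linarith only [hc]) (by push_cast; linarith only [hc2])
      unfold lin at h
      push_cast at h
      linarith only [h, abs_nonneg (gh x - gh xs)]
    · have h := piP cI6_one_1_pr (by norm_num) hL (hS x y hA) (Or.inl rfl)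
        (by push_cast; linarith only [hc2]) (by push_cast; linarith only [hx1])
      have g0 := gL (be := 4000) (p := 3600) (G := 13888) (x := 2980 / 10000) (y := x)
        (by decide +kernel) (by norm_num) hc2 (by push_cast; linarith only [hx1]) (by norm_num)
      have gm := gh_mono (x := xs) (y := 2980 / 10000) (by linarith only [ha]) he (by norm_num)
      unfold lin at h
      push_cast at h g0
      linarith only [g0, gm, h, le_abs_self (gh x - gh xs)]
  · have hx0 := hA.x0
    have hx1 := hA.x1
    have gm := gh_mono (x := x) (y := xs) (by linarith only [hx0]) hx.le (by linarith only [he, hx, hx0])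
    rcases le_total x (2560 / 10000) with hc | hc
    · have h := piD1 cI6_one_1_db (by norm_num) hL (hS x y hA) (by norm_num) (by norm_num)
        (by push_cast; linarith only [hx0]) (by push_cast; linarith only [hc]) (by push_cast; exact ha)
      have g1 := gU (x := x) (y := xs) ud (by norm_num) (by push_cast; linarith only [hx0]) hx.le (by linarith only [he, hx, hx0])
      have g2 := gU (x := x) (y := 2560 / 10000) ud (by norm_num) (by push_cast; linarith only [hx0]) hc
        (by norm_num)
      have g3 := gS (u := 2560 / 10000) (v := xs) kc (by norm_num) (by norm_num)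
        (by push_cast; exact le_rfl) ha (by push_cast; exact he) hT
      push_cast at h g1 g2 g3
      exact dn_fin (gz := gh (2560 / 10000)) h gm (by unfold lin; push_cast; linarith only [he, hx, hx0, g1])
        (by unfold lin; push_cast; linarith only [g2]) (by linarith only [g3])
    · have h := piD0 cI6_one_1_da (by norm_num) hL (hS x y hA) (by norm_num) (by norm_num)
        (by push_cast; linarith only [hc]) (by push_cast; linarith only [he, hx]) hx.le
      have g1 := gU (x := x) (y := xs) ua (by norm_num) (by push_cast; linarith only [hc]) hx.le (by linarith only [he, hx, hc])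
      have g3 := gS (u := x) (v := xs) kc (by norm_num) (by norm_num)
        (by push_cast; exact hc) hx.le (by push_cast; exact he) hT
      push_cast at h g1 g3
      exact dn_fin (gz := gh x) h gm (by unfold lin; push_cast; linarith only [he, hx, hc, g1])
        (by unfold lin; push_cast; linarith only []) (by linarith only [g3])
  · have hx0 := hA.x0
    have hx1 := hA.x1
    have gm := gh_mono (x := xs) (y := x) (by linarith only [ha, hx, hx1]) hx.le (by linarith only [ha, hx, hx1])
    have g1 := gU (x := xs) (y := x) ua (by norm_num) (by push_cast; linarith only [ha]) hx.le (by linarith only [ha, hx, hx1])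
    rcases le_total x (2980 / 10000) with hc | hc
    · have h := piU0 cI6_one_1_ua (by norm_num) hL (hS x y hA) (by norm_num)
        (by push_cast; linarith only [ha, hx]) (by push_cast; linarith only [hc])
      have g3 := gS (u := xs) (v := x) kc (by norm_num) (by norm_num)
        (by push_cast; exact ha) hx.le (by push_cast; exact hc) hT
      push_cast at h g1 g3
      exact up_fin (gz := gh x) h gm (by unfold lin; push_cast; linarith only [ha, hx, g1, hc])
        (by unfold lin; push_cast; linarith only []) (by linarith only [g3])
    · have h := piU1 cI6_one_1_ub (by norm_num) hL (hS x y hA) (by norm_num)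
        (by push_cast; linarith only [hc]) (by push_cast; linarith only [hx1])
      have g2 := gU (x := 2980 / 10000) (y := x) ue (by norm_num) (by push_cast; exact le_rfl) hc
        (by linarith only [ha, hx, hx1])
      have g3 := gS (u := xs) (v := 2980 / 10000) kc (by norm_num) (by norm_num)
        (by push_cast; exact ha) he (by push_cast; exact le_rfl) hT
      push_cast at h g1 g2 g3
      exact up_fin (gz := gh (2980 / 10000)) h gm (by unfold lin; push_cast; linarith only [ha, hx, hx1, g1])
        (by unfold lin; push_cast; linarith only [ha, hx, hx1, g2]) (by linarith only [g3])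

theorem sI6_two {xs s T ρ : ℝ} (hW : (wTwo (109 / 1000) (168 / 1000) 0 (52 / 1000)).In xs s T ρ)
    (ha : 1860 / 10000 ≤ xs) (he : xs ≤ 2520 / 10000) :
    RampOK (6 / 10) (3 / 100) (4 / 10) 6 xs (1 / 2 - s) T ρ (125 / 1000) (30 / 100) := by
  have hN : Nums (wTwo (109 / 1000) (168 / 1000) 0 (52 / 1000)) ((6 : ℕ) : ℝ) (1860 / 10000) (2520 / 10000) (125 / 1000) (30 / 100)
      6 4200 1430 1090 0 1400 620 1480 1666 520 :=
    ⟨by norm_num, le_rfl, by norm_num, by norm_num, by norm_num, by norm_num, by norm_num [wTwo],
      by norm_num, Or.inr (by norm_num [wTwo]), by norm_num, by norm_num [wTwo],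
      by norm_num [wTwo], by norm_num, by norm_num [wTwo], by norm_num [wTwo], by norm_num,
      by norm_num [wTwo], fun h => by norm_num at h, by norm_num [wTwo]⟩
  have hS : ∀ x y, RC.Adm 6 T ρ (125 / 1000) (30 / 100) x y →
      Sd ((6 : ℕ) : ℝ) 6 4200 1430 1090 0 1400 620 1480 1666 520 xs s T ρ x y :=
    fun x y hA => Sd.of hN hW ha he (by push_cast; exact hA)
  have ht0 : -(960 / 10000 : ℝ) ≤ T := le_trans (by norm_num [wTwo]) hW.t0
  have ht1 : T ≤ -(100 / 10000 : ℝ) := le_trans hW.t1 (by norm_num [wTwo])
  have hT : |T| ≤ ((960 : ℕ) : ℝ) / 10000 := by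
    rw [abs_le]
    push_cast
    constructor <;> linarith only [ht0, ht1]
  have kc : kC 4000 1860 2520 960 = true := by decide +kernel
  have ud : kU 4000 1250 32838 = true := by decide +kernel
  have ua : kU 4000 1860 22780 = true := by decide +kernel
  have ue : kU 4000 2520 17661 = true := by decide +kernel
  refine ⟨fun x y hA => ?_, fun x y hA hx => ?_, fun x y hA hx => ?_⟩
  · have hx0 := hA.x0
    have hx1 := hA.x1
    rcases le_total x (1860 / 10000) with hc | hc
    · have h := piP cI6_two_pl (by norm_num) hL (hS x y hA) (Or.inl rfl)
        (by push_cast; linarith only [hx0]) (by push_cast; linarith only [hc])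
      have g0 := gL (be := 4000) (p := 1860) (G := 22779) (x := x) (y := 1860 / 10000)
        (by decide +kernel) (by linarith only [hx0]) hc (by push_cast; exact le_rfl) (by norm_num)
      have gm := gh_mono (x := 1860 / 10000) (y := xs) (by norm_num) ha (by linarith only [he])
      unfold lin at h
      push_cast at h g0
      linarith only [g0, gm, h, neg_abs_le (gh x - gh xs)]
    rcases le_total x (2520 / 10000) with hc2 | hc2
    · have h := piP cI6_two_pm (by norm_num) hL (hS x y hA) (Or.inl rfl)
        (by push_cast; linarith only [hc]) (by push_cast; linarith only [hc2])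
      unfold lin at h
      push_cast at h
      linarith only [h, abs_nonneg (gh x - gh xs)]
    · have h := piP cI6_two_pr (by norm_num) hL (hS x y hA) (Or.inl rfl)
        (by push_cast; linarith only [hc2]) (by push_cast; linarith only [hx1])
      have g0 := gL (be := 4000) (p := 3000) (G := 15532) (x := 2520 / 10000) (y := x)
        (by decide +kernel) (by norm_num) hc2 (by push_cast; linarith only [hx1]) (by norm_num)
      have gm := gh_mono (x := xs) (y := 2520 / 10000) (by linarith only [ha]) he (by norm_num)
      unfold lin at h
      push_cast at h g0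
      linarith only [g0, gm, h, le_abs_self (gh x - gh xs)]
  · have hx0 := hA.x0
    have hx1 := hA.x1
    have gm := gh_mono (x := x) (y := xs) (by linarith only [hx0]) hx.le (by linarith only [he, hx, hx0])
    rcases le_total x (1860 / 10000) with hc | hc
    · have h := piD1 cI6_two_db (by norm_num) hL (hS x y hA) (by norm_num) (by norm_num)
        (by push_cast; linarith only [hx0]) (by push_cast; linarith only [hc]) (by push_cast; exact ha)
      have g1 := gU (x := x) (y := xs) ud (by norm_num) (by push_cast; linarith only [hx0]) hx.le (by linarith only [he, hx, hx0])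
      have g2 := gU (x := x) (y := 1860 / 10000) ud (by norm_num) (by push_cast; linarith only [hx0]) hc
        (by norm_num)
      have g3 := gS (u := 1860 / 10000) (v := xs) kc (by norm_num) (by norm_num)
        (by push_cast; exact le_rfl) ha (by push_cast; exact he) hT
      push_cast at h g1 g2 g3
      exact dn_fin (gz := gh (1860 / 10000)) h gm (by unfold lin; push_cast; linarith only [he, hx, hx0, g1])
        (by unfold lin; push_cast; linarith only [g2]) (by linarith only [g3])
    · have h := piD0 cI6_two_da (by norm_num) hL (hS x y hA) (by norm_num) (by norm_num)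
        (by push_cast; linarith only [hc]) (by push_cast; linarith only [he, hx]) hx.le
      have g1 := gU (x := x) (y := xs) ua (by norm_num) (by push_cast; linarith only [hc]) hx.le (by linarith only [he, hx, hc])
      have g3 := gS (u := x) (v := xs) kc (by norm_num) (by norm_num)
        (by push_cast; exact hc) hx.le (by push_cast; exact he) hT
      push_cast at h g1 g3
      exact dn_fin (gz := gh x) h gm (by unfold lin; push_cast; linarith only [he, hx, hc, g1])
        (by unfold lin; push_cast; linarith only []) (by linarith only [g3])
  · have hx0 := hA.x0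
    have hx1 := hA.x1
    have gm := gh_mono (x := xs) (y := x) (by linarith only [ha, hx, hx1]) hx.le (by linarith only [ha, hx, hx1])
    have g1 := gU (x := xs) (y := x) ua (by norm_num) (by push_cast; linarith only [ha]) hx.le (by linarith only [ha, hx, hx1])
    rcases le_total x (2520 / 10000) with hc | hc
    · have h := piU0 cI6_two_ua (by norm_num) hL (hS x y hA) (by norm_num)
        (by push_cast; linarith only [ha, hx]) (by push_cast; linarith only [hc])
      have g3 := gS (u := xs) (v := x) kc (by norm_num) (by norm_num)
        (by push_cast; exact ha) hx.le (by push_cast; exact hc) hT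
      push_cast at h g1 g3
      exact up_fin (gz := gh x) h gm (by unfold lin; push_cast; linarith only [ha, hx, g1, hc])
        (by unfold lin; push_cast; linarith only []) (by linarith only [g3])
    · have h := piU1 cI6_two_ub (by norm_num) hL (hS x y hA) (by norm_num)
        (by push_cast; linarith only [hc]) (by push_cast; linarith only [hx1])
      have g2 := gU (x := 2520 / 10000) (y := x) ue (by norm_num) (by push_cast; exact le_rfl) hc
        (by linarith only [ha, hx, hx1])
      have g3 := gS (u := xs) (v := 2520 / 10000) kc (by norm_num) (by norm_num)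
        (by push_cast; exact ha) he (by push_cast; exact le_rfl) hT
      push_cast at h g1 g2 g3
      exact up_fin (gz := gh (2520 / 10000)) h gm (by unfold lin; push_cast; linarith only [ha, hx, hx1, g1])
        (by unfold lin; push_cast; linarith only [ha, hx, hx1, g2]) (by linarith only [g3])

theorem sI6_twoE {xs s T ρ : ℝ} (hW : (wTwoE (109 / 1000) (168 / 1000) 0 (52 / 1000)).In xs s T ρ)
    (ha : 1640 / 10000 ≤ xs) (he : xs ≤ 1860 / 10000) :
    RampOK (6 / 10) (3 / 100) (4 / 10) 6 xs (1 / 2 - s) T ρ (125 / 1000) (30 / 100) := by
  have hN : Nums (wTwoE (109 / 1000) (168 / 1000) 0 (52 / 1000)) ((6 : ℕ) : ℝ) (1640 / 10000) (1860 / 10000) (125 / 1000) (30 / 100)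
      6 3540 770 1090 0 1680 270 700 1666 520 :=
    ⟨by norm_num, le_rfl, by norm_num, by norm_num, by norm_num, by norm_num, by norm_num [wTwoE],
      by norm_num, Or.inr (by norm_num [wTwoE]), by norm_num, by norm_num [wTwoE],
      by norm_num [wTwoE], by norm_num, by norm_num [wTwoE], by norm_num [wTwoE], by norm_num,
      by norm_num [wTwoE], fun h => by norm_num at h, by norm_num [wTwoE]⟩
  have hS : ∀ x y, RC.Adm 6 T ρ (125 / 1000) (30 / 100) x y →
      Sd ((6 : ℕ) : ℝ) 6 3540 770 1090 0 1680 270 700 1666 520 xs s T ρ x y :=
    fun x y hA => Sd.of hN hW ha he (by push_cast; exact hA)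
  have ht0 : -(1310 / 10000 : ℝ) ≤ T := le_trans (by norm_num [wTwoE]) hW.t0
  have ht1 : T ≤ -(880 / 10000 : ℝ) := le_trans hW.t1 (by norm_num [wTwoE])
  have hT : |T| ≤ ((1310 : ℕ) : ℝ) / 10000 := by
    rw [abs_le]
    push_cast
    constructor <;> linarith only [ht0, ht1]
  have kc : kC 4000 1640 1860 1310 = true := by decide +kernel
  have ud : kU 4000 1250 32838 = true := by decide +kernel
  have ua : kU 4000 1640 25504 = true := by decide +kernel
  have ue : kU 4000 1860 22780 = true := by decide +kernel
  refine ⟨fun x y hA => ?_, fun x y hA hx => ?_, fun x y hA hx => ?_⟩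
  · have hx0 := hA.x0
    have hx1 := hA.x1
    rcases le_total x (1640 / 10000) with hc | hc
    · have h := piP cI6_twoE_pl (by norm_num) hL (hS x y hA) (Or.inl rfl)
        (by push_cast; linarith only [hx0]) (by push_cast; linarith only [hc])
      have g0 := gL (be := 4000) (p := 1640) (G := 25503) (x := x) (y := 1640 / 10000)
        (by decide +kernel) (by linarith only [hx0]) hc (by push_cast; exact le_rfl) (by norm_num)
      have gm := gh_mono (x := 1640 / 10000) (y := xs) (by norm_num) ha (by linarith only [he])
      unfold lin at h
      push_cast at h g0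
      linarith only [g0, gm, h, neg_abs_le (gh x - gh xs)]
    rcases le_total x (1860 / 10000) with hc2 | hc2
    · have h := piP cI6_twoE_pm (by norm_num) hL (hS x y hA) (Or.inl rfl)
        (by push_cast; linarith only [hc]) (by push_cast; linarith only [hc2])
      unfold lin at h
      push_cast at h
      linarith only [h, abs_nonneg (gh x - gh xs)]
    · have h := piP cI6_twoE_pr (by norm_num) hL (hS x y hA) (Or.inl rfl)
        (by push_cast; linarith only [hc2]) (by push_cast; linarith only [hx1])
      have g0 := gL (be := 4000) (p := 3000) (G := 15532) (x := 1860 / 10000) (y := x)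
        (by decide +kernel) (by norm_num) hc2 (by push_cast; linarith only [hx1]) (by norm_num)
      have gm := gh_mono (x := xs) (y := 1860 / 10000) (by linarith only [ha]) he (by norm_num)
      unfold lin at h
      push_cast at h g0
      linarith only [g0, gm, h, le_abs_self (gh x - gh xs)]
  · have hx0 := hA.x0
    have hx1 := hA.x1
    have gm := gh_mono (x := x) (y := xs) (by linarith only [hx0]) hx.le (by linarith only [he, hx, hx0])
    rcases le_total x (1640 / 10000) with hc | hc
    · have h := piD1 cI6_twoE_db (by norm_num) hL (hS x y hA) (by norm_num) (by norm_num)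
        (by push_cast; linarith only [hx0]) (by push_cast; linarith only [hc]) (by push_cast; exact ha)
      have g1 := gU (x := x) (y := xs) ud (by norm_num) (by push_cast; linarith only [hx0]) hx.le (by linarith only [he, hx, hx0])
      have g2 := gU (x := x) (y := 1640 / 10000) ud (by norm_num) (by push_cast; linarith only [hx0]) hc
        (by norm_num)
      have g3 := gS (u := 1640 / 10000) (v := xs) kc (by norm_num) (by norm_num)
        (by push_cast; exact le_rfl) ha (by push_cast; exact he) hT
      push_cast at h g1 g2 g3
      exact dn_fin (gz := gh (1640 / 10000)) h gm (by unfold lin; push_cast; linarith only [he, hx, hx0, g1])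
        (by unfold lin; push_cast; linarith only [g2]) (by linarith only [g3])
    · have h := piD0 cI6_twoE_da (by norm_num) hL (hS x y hA) (by norm_num) (by norm_num)
        (by push_cast; linarith only [hc]) (by push_cast; linarith only [he, hx]) hx.le
      have g1 := gU (x := x) (y := xs) ua (by norm_num) (by push_cast; linarith only [hc]) hx.le (by linarith only [he, hx, hc])
      have g3 := gS (u := x) (v := xs) kc (by norm_num) (by norm_num)
        (by push_cast; exact hc) hx.le (by push_cast; exact he) hT
      push_cast at h g1 g3
      exact dn_fin (gz := gh x) h gm (by unfold lin; push_cast; linarith only [he, hx, hc, g1])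
        (by unfold lin; push_cast; linarith only []) (by linarith only [g3])
  · have hx0 := hA.x0
    have hx1 := hA.x1
    have gm := gh_mono (x := xs) (y := x) (by linarith only [ha, hx, hx1]) hx.le (by linarith only [ha, hx, hx1])
    have g1 := gU (x := xs) (y := x) ua (by norm_num) (by push_cast; linarith only [ha]) hx.le (by linarith only [ha, hx, hx1])
    rcases le_total x (1860 / 10000) with hc | hc
    · have h := piU0 cI6_twoE_ua (by norm_num) hL (hS x y hA) (by norm_num)
        (by push_cast; linarith only [ha, hx]) (by push_cast; linarith only [hc])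
      have g3 := gS (u := xs) (v := x) kc (by norm_num) (by norm_num)
        (by push_cast; exact ha) hx.le (by push_cast; exact hc) hT
      push_cast at h g1 g3
      exact up_fin (gz := gh x) h gm (by unfold lin; push_cast; linarith only [ha, hx, g1, hc])
        (by unfold lin; push_cast; linarith only []) (by linarith only [g3])
    · have h := piU1 cI6_twoE_ub (by norm_num) hL (hS x y hA) (by norm_num)
        (by push_cast; linarith only [hc]) (by push_cast; linarith only [hx1])
      have g2 := gU (x := 1860 / 10000) (y := x) ue (by norm_num) (by push_cast; exact le_rfl) hc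
        (by linarith only [ha, hx, hx1])
      have g3 := gS (u := xs) (v := 1860 / 10000) kc (by norm_num) (by norm_num)
        (by push_cast; exact ha) he (by push_cast; exact le_rfl) hT
      push_cast at h g1 g2 g3
      exact up_fin (gz := gh (1860 / 10000)) h gm (by unfold lin; push_cast; linarith only [ha, hx, hx1, g1])
        (by unfold lin; push_cast; linarith only [ha, hx, hx1, g2]) (by linarith only [g3])

theorem sI6_three {xs s T ρ : ℝ} (hW : (wThree (109 / 1000) (168 / 1000) 0 (52 / 1000)).In xs s T ρ)
    (ha : 1880 / 10000 ≤ xs) (he : xs ≤ 2340 / 10000) :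
    RampOK (6 / 10) (3 / 100) (4 / 10) 6 xs (1 / 2 - s) T ρ (12 / 100) (30 / 100) := by
  have hN : Nums (wThree (109 / 1000) (168 / 1000) 0 (52 / 1000)) ((6 : ℕ) : ℝ) (1880 / 10000) (2340 / 10000) (12 / 100) (30 / 100)
      6 4020 1250 1090 0 1200 1010 1590 1666 520 :=
    ⟨by norm_num, le_rfl, by norm_num, by norm_num, by norm_num, by norm_num, by norm_num [wThree],
      by norm_num, Or.inr (by norm_num [wThree]), by norm_num, by norm_num [wThree],
      by norm_num [wThree], by norm_num, by norm_num [wThree], by norm_num [wThree], by norm_num,
      by norm_num [wThree], fun h => by norm_num at h, by norm_num [wThree]⟩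
  have hS : ∀ x y, RC.Adm 6 T ρ (12 / 100) (30 / 100) x y →
      Sd ((6 : ℕ) : ℝ) 6 4020 1250 1090 0 1200 1010 1590 1666 520 xs s T ρ x y :=
    fun x y hA => Sd.of hN hW ha he (by push_cast; exact hA)
  have ht0 : -(570 / 10000 : ℝ) ≤ T := le_trans (by norm_num [wThree]) hW.t0
  have ht1 : T ≤ (10 / 10000 : ℝ) := le_trans hW.t1 (by norm_num [wThree])
  have hT : |T| ≤ ((570 : ℕ) : ℝ) / 10000 := by
    rw [abs_le]
    push_cast
    constructor <;> linarith only [ht0, ht1]
  have kc : kC 4000 1880 2340 570 = true := by decide +kernel
  have ud : kU 4000 1200 34137 = true := by decide +kernel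
  have ua : kU 4000 1880 22566 = true := by decide +kernel
  have ue : kU 4000 2340 18737 = true := by decide +kernel
  refine ⟨fun x y hA => ?_, fun x y hA hx => ?_, fun x y hA hx => ?_⟩
  · have hx0 := hA.x0
    have hx1 := hA.x1
    rcases le_total x (1880 / 10000) with hc | hc
    · have h := piP cI6_three_pl (by norm_num) hL (hS x y hA) (Or.inl rfl)
        (by push_cast; linarith only [hx0]) (by push_cast; linarith only [hc])
      have g0 := gL (be := 4000) (p := 1880) (G := 22565) (x := x) (y := 1880 / 10000)
        (by decide +kernel) (by linarith only [hx0]) hc (by push_cast; exact le_rfl) (by norm_num)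
      have gm := gh_mono (x := 1880 / 10000) (y := xs) (by norm_num) ha (by linarith only [he])
      unfold lin at h
      push_cast at h g0
      linarith only [g0, gm, h, neg_abs_le (gh x - gh xs)]
    rcases le_total x (2340 / 10000) with hc2 | hc2
    · have h := piP cI6_three_pm (by norm_num) hL (hS x y hA) (Or.inl rfl)
        (by push_cast; linarith only [hc]) (by push_cast; linarith only [hc2])
      unfold lin at h
      push_cast at h
      linarith only [h, abs_nonneg (gh x - gh xs)]
    · have h := piP cI6_three_pr (by norm_num) hL (hS x y hA) (Or.inl rfl)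
        (by push_cast; linarith only [hc2]) (by push_cast; linarith only [hx1])
      have g0 := gL (be := 4000) (p := 3000) (G := 15532) (x := 2340 / 10000) (y := x)
        (by decide +kernel) (by norm_num) hc2 (by push_cast; linarith only [hx1]) (by norm_num)
      have gm := gh_mono (x := xs) (y := 2340 / 10000) (by linarith only [ha]) he (by norm_num)
      unfold lin at h
      push_cast at h g0
      linarith only [g0, gm, h, le_abs_self (gh x - gh xs)]
  · have hx0 := hA.x0
    have hx1 := hA.x1
    have gm := gh_mono (x := x) (y := xs) (by linarith only [hx0]) hx.le (by linarith only [he, hx, hx0])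
    rcases le_total x (1880 / 10000) with hc | hc
    · have h := piD1 cI6_three_db (by norm_num) hL (hS x y hA) (by norm_num) (by norm_num)
        (by push_cast; linarith only [hx0]) (by push_cast; linarith only [hc]) (by push_cast; exact ha)
      have g1 := gU (x := x) (y := xs) ud (by norm_num) (by push_cast; linarith only [hx0]) hx.le (by linarith only [he, hx, hx0])
      have g2 := gU (x := x) (y := 1880 / 10000) ud (by norm_num) (by push_cast; linarith only [hx0]) hc
        (by norm_num)
      have g3 := gS (u := 1880 / 10000) (v := xs) kc (by norm_num) (by norm_num)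
        (by push_cast; exact le_rfl) ha (by push_cast; exact he) hT
      push_cast at h g1 g2 g3
      exact dn_fin (gz := gh (1880 / 10000)) h gm (by unfold lin; push_cast; linarith only [he, hx, hx0, g1])
        (by unfold lin; push_cast; linarith only [g2]) (by linarith only [g3])
    · have h := piD0 cI6_three_da (by norm_num) hL (hS x y hA) (by norm_num) (by norm_num)
        (by push_cast; linarith only [hc]) (by push_cast; linarith only [he, hx]) hx.le
      have g1 := gU (x := x) (y := xs) ua (by norm_num) (by push_cast; linarith only [hc]) hx.le (by linarith only [he, hx, hc])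
      have g3 := gS (u := x) (v := xs) kc (by norm_num) (by norm_num)
        (by push_cast; exact hc) hx.le (by push_cast; exact he) hT
      push_cast at h g1 g3
      exact dn_fin (gz := gh x) h gm (by unfold lin; push_cast; linarith only [he, hx, hc, g1])
        (by unfold lin; push_cast; linarith only []) (by linarith only [g3])
  · have hx0 := hA.x0
    have hx1 := hA.x1
    have gm := gh_mono (x := xs) (y := x) (by linarith only [ha, hx, hx1]) hx.le (by linarith only [ha, hx, hx1])
    have g1 := gU (x := xs) (y := x) ua (by norm_num) (by push_cast; linarith only [ha]) hx.le (by linarith only [ha, hx, hx1])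
    rcases le_total x (2340 / 10000) with hc | hc
    · have h := piU0 cI6_three_ua (by norm_num) hL (hS x y hA) (by norm_num)
        (by push_cast; linarith only [ha, hx]) (by push_cast; linarith only [hc])
      have g3 := gS (u := xs) (v := x) kc (by norm_num) (by norm_num)
        (by push_cast; exact ha) hx.le (by push_cast; exact hc) hT
      push_cast at h g1 g3
      exact up_fin (gz := gh x) h gm (by unfold lin; push_cast; linarith only [ha, hx, g1, hc])
        (by unfold lin; push_cast; linarith only []) (by linarith only [g3])
    · have h := piU1 cI6_three_ub (by norm_num) hL (hS x y hA) (by norm_num)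
        (by push_cast; linarith only [hc]) (by push_cast; linarith only [hx1])
      have g2 := gU (x := 2340 / 10000) (y := x) ue (by norm_num) (by push_cast; exact le_rfl) hc
        (by linarith only [ha, hx, hx1])
      have g3 := gS (u := xs) (v := 2340 / 10000) kc (by norm_num) (by norm_num)
        (by push_cast; exact ha) he (by push_cast; exact le_rfl) hT
      push_cast at h g1 g2 g3
      exact up_fin (gz := gh (2340 / 10000)) h gm (by unfold lin; push_cast; linarith only [ha, hx, hx1, g1])
        (by unfold lin; push_cast; linarith only [ha, hx, hx1, g2]) (by linarith only [g3])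

theorem sI6_threeE {xs s T ρ : ℝ} (hW : (wThreeE (109 / 1000) (168 / 1000) 0 (52 / 1000)).In xs s T ρ)
    (ha : 1710 / 10000 ≤ xs) (he : xs ≤ 1950 / 10000) :
    RampOK (6 / 10) (3 / 100) (4 / 10) 6 xs (1 / 2 - s) T ρ (10 / 100) (26 / 100) := by
  have hN : Nums (wThreeE (109 / 1000) (168 / 1000) 0 (52 / 1000)) ((6 : ℕ) : ℝ) (1710 / 10000) (1950 / 10000) (10 / 100) (26 / 100)
      6 3630 860 1090 0 1200 1000 1400 1666 520 :=
    ⟨by norm_num, le_rfl, by norm_num, by norm_num, by norm_num, by norm_num,
      by norm_num [wThreeE], by norm_num, Or.inr (by norm_num [wThreeE]), by norm_num,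
      by norm_num [wThreeE], by norm_num [wThreeE], by norm_num, by norm_num [wThreeE],
      by norm_num [wThreeE], by norm_num, by norm_num [wThreeE], fun h => by norm_num at h,
      by norm_num [wThreeE]⟩
  have hS : ∀ x y, RC.Adm 6 T ρ (10 / 100) (26 / 100) x y →
      Sd ((6 : ℕ) : ℝ) 6 3630 860 1090 0 1200 1000 1400 1666 520 xs s T ρ x y :=
    fun x y hA => Sd.of hN hW ha he (by push_cast; exact hA)
  have ht0 : -(580 / 10000 : ℝ) ≤ T := le_trans (by norm_num [wThreeE]) hW.t0
  have ht1 : T ≤ -(180 / 10000 : ℝ) := le_trans hW.t1 (by norm_num [wThreeE])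
  have hT : |T| ≤ ((580 : ℕ) : ℝ) / 10000 := by
    rw [abs_le]
    push_cast
    constructor <;> linarith only [ht0, ht1]
  have kc : kC 4000 1710 1950 580 = true := by decide +kernel
  have ud : kU 4000 1000 40666 = true := by decide +kernel
  have ua : kU 4000 1710 24557 = true := by decide +kernel
  have ue : kU 4000 1950 21855 = true := by decide +kernel
  refine ⟨fun x y hA => ?_, fun x y hA hx => ?_, fun x y hA hx => ?_⟩
  · have hx0 := hA.x0
    have hx1 := hA.x1
    rcases le_total x (1710 / 10000) with hc | hc
    · have h := piP cI6_threeE_pl (by norm_num) hL (hS x y hA) (Or.inl rfl)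
        (by push_cast; linarith only [hx0]) (by push_cast; linarith only [hc])
      have g0 := gL (be := 4000) (p := 1710) (G := 24556) (x := x) (y := 1710 / 10000)
        (by decide +kernel) (by linarith only [hx0]) hc (by push_cast; exact le_rfl) (by norm_num)
      have gm := gh_mono (x := 1710 / 10000) (y := xs) (by norm_num) ha (by linarith only [he])
      unfold lin at h
      push_cast at h g0
      linarith only [g0, gm, h, neg_abs_le (gh x - gh xs)]
    rcases le_total x (1950 / 10000) with hc2 | hc2
    · have h := piP cI6_threeE_pm (by norm_num) hL (hS x y hA) (Or.inl rfl)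
        (by push_cast; linarith only [hc]) (by push_cast; linarith only [hc2])
      unfold lin at h
      push_cast at h
      linarith only [h, abs_nonneg (gh x - gh xs)]
    · have h := piP cI6_threeE_pr (by norm_num) hL (hS x y hA) (Or.inl rfl)
        (by push_cast; linarith only [hc2]) (by push_cast; linarith only [hx1])
      have g0 := gL (be := 4000) (p := 2600) (G := 17238) (x := 1950 / 10000) (y := x)
        (by decide +kernel) (by norm_num) hc2 (by push_cast; linarith only [hx1]) (by norm_num)
      have gm := gh_mono (x := xs) (y := 1950 / 10000) (by linarith only [ha]) he (by norm_num)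
      unfold lin at h
      push_cast at h g0
      linarith only [g0, gm, h, le_abs_self (gh x - gh xs)]
  · have hx0 := hA.x0
    have hx1 := hA.x1
    have gm := gh_mono (x := x) (y := xs) (by linarith only [hx0]) hx.le (by linarith only [he, hx, hx0])
    rcases le_total x (1710 / 10000) with hc | hc
    · have h := piD1 cI6_threeE_db (by norm_num) hL (hS x y hA) (by norm_num) (by norm_num)
        (by push_cast; linarith only [hx0]) (by push_cast; linarith only [hc]) (by push_cast; exact ha)
      have g1 := gU (x := x) (y := xs) ud (by norm_num) (by push_cast; linarith only [hx0]) hx.le (by linarith only [he, hx, hx0])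
      have g2 := gU (x := x) (y := 1710 / 10000) ud (by norm_num) (by push_cast; linarith only [hx0]) hc
        (by norm_num)
      have g3 := gS (u := 1710 / 10000) (v := xs) kc (by norm_num) (by norm_num)
        (by push_cast; exact le_rfl) ha (by push_cast; exact he) hT
      push_cast at h g1 g2 g3
      exact dn_fin (gz := gh (1710 / 10000)) h gm (by unfold lin; push_cast; linarith only [he, hx, hx0, g1])
        (by unfold lin; push_cast; linarith only [g2]) (by linarith only [g3])
    · have h := piD0 cI6_threeE_da (by norm_num) hL (hS x y hA) (by norm_num) (by norm_num)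
        (by push_cast; linarith only [hc]) (by push_cast; linarith only [he, hx]) hx.le
      have g1 := gU (x := x) (y := xs) ua (by norm_num) (by push_cast; linarith only [hc]) hx.le (by linarith only [he, hx, hc])
      have g3 := gS (u := x) (v := xs) kc (by norm_num) (by norm_num)
        (by push_cast; exact hc) hx.le (by push_cast; exact he) hT
      push_cast at h g1 g3
      exact dn_fin (gz := gh x) h gm (by unfold lin; push_cast; linarith only [he, hx, hc, g1])
        (by unfold lin; push_cast; linarith only []) (by linarith only [g3])
  · have hx0 := hA.x0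
    have hx1 := hA.x1
    have gm := gh_mono (x := xs) (y := x) (by linarith only [ha, hx, hx1]) hx.le (by linarith only [ha, hx, hx1])
    have g1 := gU (x := xs) (y := x) ua (by norm_num) (by push_cast; linarith only [ha]) hx.le (by linarith only [ha, hx, hx1])
    rcases le_total x (1950 / 10000) with hc | hc
    · have h := piU0 cI6_threeE_ua (by norm_num) hL (hS x y hA) (by norm_num)
        (by push_cast; linarith only [ha, hx]) (by push_cast; linarith only [hc])
      have g3 := gS (u := xs) (v := x) kc (by norm_num) (by norm_num)
        (by push_cast; exact ha) hx.le (by push_cast; exact hc) hT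
      push_cast at h g1 g3
      exact up_fin (gz := gh x) h gm (by unfold lin; push_cast; linarith only [ha, hx, g1, hc])
        (by unfold lin; push_cast; linarith only []) (by linarith only [g3])
    · have h := piU1 cI6_threeE_ub (by norm_num) hL (hS x y hA) (by norm_num)
        (by push_cast; linarith only [hc]) (by push_cast; linarith only [hx1])
      have g2 := gU (x := 1950 / 10000) (y := x) ue (by norm_num) (by push_cast; exact le_rfl) hc
        (by linarith only [ha, hx, hx1])
      have g3 := gS (u := xs) (v := 1950 / 10000) kc (by norm_num) (by norm_num)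
        (by push_cast; exact ha) he (by push_cast; exact le_rfl) hT
      push_cast at h g1 g2 g3
      exact up_fin (gz := gh (1950 / 10000)) h gm (by unfold lin; push_cast; linarith only [ha, hx, hx1, g1])
        (by unfold lin; push_cast; linarith only [ha, hx, hx1, g2]) (by linarith only [g3])

theorem sI6_rr {xs s T ρ : ℝ} (hW : (wRr (109 / 1000) (168 / 1000) 0 (52 / 1000)).In xs s T ρ)
    (ha : 1820 / 10000 ≤ xs) (he : xs ≤ 2520 / 10000) :
    RampOK (6 / 10) (3 / 100) (4 / 10) 6 xs (1 / 2 - s) T ρ (10 / 100) (27 / 100) := by
  have hN : Nums (wRr (109 / 1000) (168 / 1000) 0 (52 / 1000)) ((6 : ℕ) : ℝ) (1820 / 10000) (2520 / 10000) (10 / 100) (27 / 100)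
      6 4200 1430 1090 0 1200 1195 1965 1666 520 :=
    ⟨by norm_num, le_rfl, by norm_num, by norm_num, by norm_num, by norm_num, by norm_num [wRr],
      by norm_num, Or.inr (by norm_num [wRr]), by norm_num, by norm_num [wRr], by norm_num [wRr],
      by norm_num, by norm_num [wRr], by norm_num [wRr], by norm_num, by norm_num [wRr],
      fun h => by norm_num at h, by norm_num [wRr]⟩
  have hS : ∀ x y, RC.Adm 6 T ρ (10 / 100) (27 / 100) x y →
      Sd ((6 : ℕ) : ℝ) 6 4200 1430 1090 0 1200 1195 1965 1666 520 xs s T ρ x y :=
    fun x y hA => Sd.of hN hW ha he (by push_cast; exact hA)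
  have ht0 : -(385 / 10000 : ℝ) ≤ T := le_trans (by norm_num [wRr]) hW.t0
  have ht1 : T ≤ (385 / 10000 : ℝ) := le_trans hW.t1 (by norm_num [wRr])
  have hT : |T| ≤ ((385 : ℕ) : ℝ) / 10000 := by
    rw [abs_le]
    push_cast
    constructor <;> linarith only [ht0, ht1]
  have kc : kC 4000 1820 2520 385 = true := by decide +kernel
  have ud : kU 4000 1000 40666 = true := by decide +kernel
  have ua : kU 4000 1820 23223 = true := by decide +kernel
  have ue : kU 4000 2520 17661 = true := by decide +kernel
  refine ⟨fun x y hA => ?_, fun x y hA hx => ?_, fun x y hA hx => ?_⟩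
  · have hx0 := hA.x0
    have hx1 := hA.x1
    rcases le_total x (1820 / 10000) with hc | hc
    · have h := piP cI6_rr_pl (by norm_num) hL (hS x y hA) (Or.inl rfl)
        (by push_cast; linarith only [hx0]) (by push_cast; linarith only [hc])
      have g0 := gL (be := 4000) (p := 1820) (G := 23222) (x := x) (y := 1820 / 10000)
        (by decide +kernel) (by linarith only [hx0]) hc (by push_cast; exact le_rfl) (by norm_num)
      have gm := gh_mono (x := 1820 / 10000) (y := xs) (by norm_num) ha (by linarith only [he])
      unfold lin at h
      push_cast at h g0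
      linarith only [g0, gm, h, neg_abs_le (gh x - gh xs)]
    rcases le_total x (2520 / 10000) with hc2 | hc2
    · have h := piP cI6_rr_pm (by norm_num) hL (hS x y hA) (Or.inl rfl)
        (by push_cast; linarith only [hc]) (by push_cast; linarith only [hc2])
      unfold lin at h
      push_cast at h
      linarith only [h, abs_nonneg (gh x - gh xs)]
    · have h := piP cI6_rr_pr (by norm_num) hL (hS x y hA) (Or.inl rfl)
        (by push_cast; linarith only [hc2]) (by push_cast; linarith only [hx1])
      have g0 := gL (be := 4000) (p := 2700) (G := 16752) (x := 2520 / 10000) (y := x)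
        (by decide +kernel) (by norm_num) hc2 (by push_cast; linarith only [hx1]) (by norm_num)
      have gm := gh_mono (x := xs) (y := 2520 / 10000) (by linarith only [ha]) he (by norm_num)
      unfold lin at h
      push_cast at h g0
      linarith only [g0, gm, h, le_abs_self (gh x - gh xs)]
  · have hx0 := hA.x0
    have hx1 := hA.x1
    have gm := gh_mono (x := x) (y := xs) (by linarith only [hx0]) hx.le (by linarith only [he, hx, hx0])
    rcases le_total x (1820 / 10000) with hc | hc
    · have h := piD1 cI6_rr_db (by norm_num) hL (hS x y hA) (by norm_num) (by norm_num)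
        (by push_cast; linarith only [hx0]) (by push_cast; linarith only [hc]) (by push_cast; exact ha)
      have g1 := gU (x := x) (y := xs) ud (by norm_num) (by push_cast; linarith only [hx0]) hx.le (by linarith only [he, hx, hx0])
      have g2 := gU (x := x) (y := 1820 / 10000) ud (by norm_num) (by push_cast; linarith only [hx0]) hc
        (by norm_num)
      have g3 := gS (u := 1820 / 10000) (v := xs) kc (by norm_num) (by norm_num)
        (by push_cast; exact le_rfl) ha (by push_cast; exact he) hT
      push_cast at h g1 g2 g3
      exact dn_fin (gz := gh (1820 / 10000)) h gm (by unfold lin; push_cast; linarith only [he, hx, hx0, g1])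
        (by unfold lin; push_cast; linarith only [g2]) (by linarith only [g3])
    · have h := piD0 cI6_rr_da (by norm_num) hL (hS x y hA) (by norm_num) (by norm_num)
        (by push_cast; linarith only [hc]) (by push_cast; linarith only [he, hx]) hx.le
      have g1 := gU (x := x) (y := xs) ua (by norm_num) (by push_cast; linarith only [hc]) hx.le (by linarith only [he, hx, hc])
      have g3 := gS (u := x) (v := xs) kc (by norm_num) (by norm_num)
        (by push_cast; exact hc) hx.le (by push_cast; exact he) hT
      push_cast at h g1 g3
      exact dn_fin (gz := gh x) h gm (by unfold lin; push_cast; linarith only [he, hx, hc, g1])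
        (by unfold lin; push_cast; linarith only []) (by linarith only [g3])
  · have hx0 := hA.x0
    have hx1 := hA.x1
    have gm := gh_mono (x := xs) (y := x) (by linarith only [ha, hx, hx1]) hx.le (by linarith only [ha, hx, hx1])
    have g1 := gU (x := xs) (y := x) ua (by norm_num) (by push_cast; linarith only [ha]) hx.le (by linarith only [ha, hx, hx1])
    rcases le_total x (2520 / 10000) with hc | hc
    · have h := piU0 cI6_rr_ua (by norm_num) hL (hS x y hA) (by norm_num)
        (by push_cast; linarith only [ha, hx]) (by push_cast; linarith only [hc])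
      have g3 := gS (u := xs) (v := x) kc (by norm_num) (by norm_num)
        (by push_cast; exact ha) hx.le (by push_cast; exact hc) hT
      push_cast at h g1 g3
      exact up_fin (gz := gh x) h gm (by unfold lin; push_cast; linarith only [ha, hx, g1, hc])
        (by unfold lin; push_cast; linarith only []) (by linarith only [g3])
    · have h := piU1 cI6_rr_ub (by norm_num) hL (hS x y hA) (by norm_num)
        (by push_cast; linarith only [hc]) (by push_cast; linarith only [hx1])
      have g2 := gU (x := 2520 / 10000) (y := x) ue (by norm_num) (by push_cast; exact le_rfl) hc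
        (by linarith only [ha, hx, hx1])
      have g3 := gS (u := xs) (v := 2520 / 10000) kc (by norm_num) (by norm_num)
        (by push_cast; exact ha) he (by push_cast; exact le_rfl) hT
      push_cast at h g1 g2 g3
      exact up_fin (gz := gh (2520 / 10000)) h gm (by unfold lin; push_cast; linarith only [ha, hx, hx1, g1])
        (by unfold lin; push_cast; linarith only [ha, hx, hx1, g2]) (by linarith only [g3])

theorem sI6_rs_0 {xs s T ρ : ℝ} (hW : (wRs (109 / 1000) (168 / 1000) 0 (52 / 1000)).In xs s T ρ)
    (ha : 1700 / 10000 ≤ xs) (he : xs ≤ 2110 / 10000) :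
    RampOK (6 / 10) (3 / 100) (4 / 10) 6 xs (1 / 2 - s) T ρ (10 / 100) (27 / 100) := by
  have hN : Nums (wRs (109 / 1000) (168 / 1000) 0 (52 / 1000)) ((6 : ℕ) : ℝ) (1700 / 10000) (2110 / 10000) (10 / 100) (27 / 100)
      6 3790 1020 1090 0 1200 1570 2045 1666 520 :=
    ⟨by norm_num, le_rfl, by norm_num, by norm_num, by norm_num, by norm_num, by norm_num [wRs],
      by norm_num, Or.inr (by norm_num [wRs]), by norm_num, by norm_num [wRs], by norm_num [wRs],
      by norm_num, by norm_num [wRs], by norm_num [wRs], by norm_num, by norm_num [wRs],
      fun h => by norm_num at h, by norm_num [wRs]⟩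
  have hS : ∀ x y, RC.Adm 6 T ρ (10 / 100) (27 / 100) x y →
      Sd ((6 : ℕ) : ℝ) 6 3790 1020 1090 0 1200 1570 2045 1666 520 xs s T ρ x y :=
    fun x y hA => Sd.of hN hW ha he (by push_cast; exact hA)
  have ht0 : -(10 / 10000 : ℝ) ≤ T := le_trans (by norm_num [wRs]) hW.t0
  have ht1 : T ≤ (465 / 10000 : ℝ) := le_trans hW.t1 (by norm_num [wRs])
  have hT : |T| ≤ ((465 : ℕ) : ℝ) / 10000 := by
    rw [abs_le]
    push_cast
    constructor <;> linarith only [ht0, ht1]
  have kc : kC 4000 1700 2110 465 = true := by decide +kernel
  have ud : kU 4000 1000 40666 = true := by decide +kernel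
  have ua : kU 4000 1700 24687 = true := by decide +kernel
  have ue : kU 4000 2110 20421 = true := by decide +kernel
  refine ⟨fun x y hA => ?_, fun x y hA hx => ?_, fun x y hA hx => ?_⟩
  · have hx0 := hA.x0
    have hx1 := hA.x1
    rcases le_total x (1700 / 10000) with hc | hc
    · have h := piP cI6_rs_0_pl (by norm_num) hL (hS x y hA) (Or.inl rfl)
        (by push_cast; linarith only [hx0]) (by push_cast; linarith only [hc])
      have g0 := gL (be := 4000) (p := 1700) (G := 24686) (x := x) (y := 1700 / 10000)
        (by decide +kernel) (by linarith only [hx0]) hc (by push_cast; exact le_rfl) (by norm_num)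
      have gm := gh_mono (x := 1700 / 10000) (y := xs) (by norm_num) ha (by linarith only [he])
      unfold lin at h
      push_cast at h g0
      linarith only [g0, gm, h, neg_abs_le (gh x - gh xs)]
    rcases le_total x (2110 / 10000) with hc2 | hc2
    · have h := piP cI6_rs_0_pm (by norm_num) hL (hS x y hA) (Or.inl rfl)
        (by push_cast; linarith only [hc]) (by push_cast; linarith only [hc2])
      unfold lin at h
      push_cast at h
      linarith only [h, abs_nonneg (gh x - gh xs)]
    · have h := piP cI6_rs_0_pr (by norm_num) hL (hS x y hA) (Or.inl rfl)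
        (by push_cast; linarith only [hc2]) (by push_cast; linarith only [hx1])
      have g0 := gL (be := 4000) (p := 2700) (G := 16752) (x := 2110 / 10000) (y := x)
        (by decide +kernel) (by norm_num) hc2 (by push_cast; linarith only [hx1]) (by norm_num)
      have gm := gh_mono (x := xs) (y := 2110 / 10000) (by linarith only [ha]) he (by norm_num)
      unfold lin at h
      push_cast at h g0
      linarith only [g0, gm, h, le_abs_self (gh x - gh xs)]
  · have hx0 := hA.x0
    have hx1 := hA.x1
    have gm := gh_mono (x := x) (y := xs) (by linarith only [hx0]) hx.le (by linarith only [he, hx, hx0])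
    rcases le_total x (1700 / 10000) with hc | hc
    · have h := piD1 cI6_rs_0_db (by norm_num) hL (hS x y hA) (by norm_num) (by norm_num)
        (by push_cast; linarith only [hx0]) (by push_cast; linarith only [hc]) (by push_cast; exact ha)
      have g1 := gU (x := x) (y := xs) ud (by norm_num) (by push_cast; linarith only [hx0]) hx.le (by linarith only [he, hx, hx0])
      have g2 := gU (x := x) (y := 1700 / 10000) ud (by norm_num) (by push_cast; linarith only [hx0]) hc
        (by norm_num)
      have g3 := gS (u := 1700 / 10000) (v := xs) kc (by norm_num) (by norm_num)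
        (by push_cast; exact le_rfl) ha (by push_cast; exact he) hT
      push_cast at h g1 g2 g3
      exact dn_fin (gz := gh (1700 / 10000)) h gm (by unfold lin; push_cast; linarith only [he, hx, hx0, g1])
        (by unfold lin; push_cast; linarith only [g2]) (by linarith only [g3])
    · have h := piD0 cI6_rs_0_da (by norm_num) hL (hS x y hA) (by norm_num) (by norm_num)
        (by push_cast; linarith only [hc]) (by push_cast; linarith only [he, hx]) hx.le
      have g1 := gU (x := x) (y := xs) ua (by norm_num) (by push_cast; linarith only [hc]) hx.le (by linarith only [he, hx, hc])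
      have g3 := gS (u := x) (v := xs) kc (by norm_num) (by norm_num)
        (by push_cast; exact hc) hx.le (by push_cast; exact he) hT
      push_cast at h g1 g3
      exact dn_fin (gz := gh x) h gm (by unfold lin; push_cast; linarith only [he, hx, hc, g1])
        (by unfold lin; push_cast; linarith only []) (by linarith only [g3])
  · have hx0 := hA.x0
    have hx1 := hA.x1
    have gm := gh_mono (x := xs) (y := x) (by linarith only [ha, hx, hx1]) hx.le (by linarith only [ha, hx, hx1])
    have g1 := gU (x := xs) (y := x) ua (by norm_num) (by push_cast; linarith only [ha]) hx.le (by linarith only [ha, hx, hx1])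
    rcases le_total x (2110 / 10000) with hc | hc
    · have h := piU0 cI6_rs_0_ua (by norm_num) hL (hS x y hA) (by norm_num)
        (by push_cast; linarith only [ha, hx]) (by push_cast; linarith only [hc])
      have g3 := gS (u := xs) (v := x) kc (by norm_num) (by norm_num)
        (by push_cast; exact ha) hx.le (by push_cast; exact hc) hT
      push_cast at h g1 g3
      exact up_fin (gz := gh x) h gm (by unfold lin; push_cast; linarith only [ha, hx, g1, hc])
        (by unfold lin; push_cast; linarith only []) (by linarith only [g3])
    · have h := piU1 cI6_rs_0_ub (by norm_num) hL (hS x y hA) (by norm_num)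
        (by push_cast; linarith only [hc]) (by push_cast; linarith only [hx1])
      have g2 := gU (x := 2110 / 10000) (y := x) ue (by norm_num) (by push_cast; exact le_rfl) hc
        (by linarith only [ha, hx, hx1])
      have g3 := gS (u := xs) (v := 2110 / 10000) kc (by norm_num) (by norm_num)
        (by push_cast; exact ha) he (by push_cast; exact le_rfl) hT
      push_cast at h g1 g2 g3
      exact up_fin (gz := gh (2110 / 10000)) h gm (by unfold lin; push_cast; linarith only [ha, hx, hx1, g1])
        (by unfold lin; push_cast; linarith only [ha, hx, hx1, g2]) (by linarith only [g3])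

theorem sI6_rs_1 {xs s T ρ : ℝ} (hW : (wRs (109 / 1000) (168 / 1000) 0 (52 / 1000)).In xs s T ρ)
    (ha : 2110 / 10000 ≤ xs) (he : xs ≤ 2520 / 10000) :
    RampOK (6 / 10) (3 / 100) (4 / 10) 6 xs (1 / 2 - s) T ρ (10 / 100) (27 / 100) := by
  have hN : Nums (wRs (109 / 1000) (168 / 1000) 0 (52 / 1000)) ((6 : ℕ) : ℝ) (2110 / 10000) (2520 / 10000) (10 / 100) (27 / 100)
      6 4200 1430 1090 0 1200 1570 2045 1666 520 :=
    ⟨by norm_num, le_rfl, by norm_num, by norm_num, by norm_num, by norm_num, by norm_num [wRs],
      by norm_num, Or.inr (by norm_num [wRs]), by norm_num, by norm_num [wRs], by norm_num [wRs],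
      by norm_num, by norm_num [wRs], by norm_num [wRs], by norm_num, by norm_num [wRs],
      fun h => by norm_num at h, by norm_num [wRs]⟩
  have hS : ∀ x y, RC.Adm 6 T ρ (10 / 100) (27 / 100) x y →
      Sd ((6 : ℕ) : ℝ) 6 4200 1430 1090 0 1200 1570 2045 1666 520 xs s T ρ x y :=
    fun x y hA => Sd.of hN hW ha he (by push_cast; exact hA)
  have ht0 : -(10 / 10000 : ℝ) ≤ T := le_trans (by norm_num [wRs]) hW.t0
  have ht1 : T ≤ (465 / 10000 : ℝ) := le_trans hW.t1 (by norm_num [wRs])
  have hT : |T| ≤ ((465 : ℕ) : ℝ) / 10000 := by
    rw [abs_le]
    push_cast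
    constructor <;> linarith only [ht0, ht1]
  have kc : kC 4000 2110 2520 465 = true := by decide +kernel
  have ud : kU 4000 1000 40666 = true := by decide +kernel
  have ua : kU 4000 2110 20421 = true := by decide +kernel
  have ue : kU 4000 2520 17661 = true := by decide +kernel
  refine ⟨fun x y hA => ?_, fun x y hA hx => ?_, fun x y hA hx => ?_⟩
  · have hx0 := hA.x0
    have hx1 := hA.x1
    rcases le_total x (2110 / 10000) with hc | hc
    · have h := piP cI6_rs_1_pl (by norm_num) hL (hS x y hA) (Or.inl rfl)
        (by push_cast; linarith only [hx0]) (by push_cast; linarith only [hc])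
      have g0 := gL (be := 4000) (p := 2110) (G := 20420) (x := x) (y := 2110 / 10000)
        (by decide +kernel) (by linarith only [hx0]) hc (by push_cast; exact le_rfl) (by norm_num)
      have gm := gh_mono (x := 2110 / 10000) (y := xs) (by norm_num) ha (by linarith only [he])
      unfold lin at h
      push_cast at h g0
      linarith only [g0, gm, h, neg_abs_le (gh x - gh xs)]
    rcases le_total x (2520 / 10000) with hc2 | hc2
    · have h := piP cI6_rs_1_pm (by norm_num) hL (hS x y hA) (Or.inl rfl)
        (by push_cast; linarith only [hc]) (by push_cast; linarith only [hc2])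
      unfold lin at h
      push_cast at h
      linarith only [h, abs_nonneg (gh x - gh xs)]
    · have h := piP cI6_rs_1_pr (by norm_num) hL (hS x y hA) (Or.inl rfl)
        (by push_cast; linarith only [hc2]) (by push_cast; linarith only [hx1])
      have g0 := gL (be := 4000) (p := 2700) (G := 16752) (x := 2520 / 10000) (y := x)
        (by decide +kernel) (by norm_num) hc2 (by push_cast; linarith only [hx1]) (by norm_num)
      have gm := gh_mono (x := xs) (y := 2520 / 10000) (by linarith only [ha]) he (by norm_num)
      unfold lin at h
      push_cast at h g0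
      linarith only [g0, gm, h, le_abs_self (gh x - gh xs)]
  · have hx0 := hA.x0
    have hx1 := hA.x1
    have gm := gh_mono (x := x) (y := xs) (by linarith only [hx0]) hx.le (by linarith only [he, hx, hx0])
    rcases le_total x (2110 / 10000) with hc | hc
    · have h := piD1 cI6_rs_1_db (by norm_num) hL (hS x y hA) (by norm_num) (by norm_num)
        (by push_cast; linarith only [hx0]) (by push_cast; linarith only [hc]) (by push_cast; exact ha)
      have g1 := gU (x := x) (y := xs) ud (by norm_num) (by push_cast; linarith only [hx0]) hx.le (by linarith only [he, hx, hx0])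
      have g2 := gU (x := x) (y := 2110 / 10000) ud (by norm_num) (by push_cast; linarith only [hx0]) hc
        (by norm_num)
      have g3 := gS (u := 2110 / 10000) (v := xs) kc (by norm_num) (by norm_num)
        (by push_cast; exact le_rfl) ha (by push_cast; exact he) hT
      push_cast at h g1 g2 g3
      exact dn_fin (gz := gh (2110 / 10000)) h gm (by unfold lin; push_cast; linarith only [he, hx, hx0, g1])
        (by unfold lin; push_cast; linarith only [g2]) (by linarith only [g3])
    · have h := piD0 cI6_rs_1_da (by norm_num) hL (hS x y hA) (by norm_num) (by norm_num)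
        (by push_cast; linarith only [hc]) (by push_cast; linarith only [he, hx]) hx.le
      have g1 := gU (x := x) (y := xs) ua (by norm_num) (by push_cast; linarith only [hc]) hx.le (by linarith only [he, hx, hc])
      have g3 := gS (u := x) (v := xs) kc (by norm_num) (by norm_num)
        (by push_cast; exact hc) hx.le (by push_cast; exact he) hT
      push_cast at h g1 g3
      exact dn_fin (gz := gh x) h gm (by unfold lin; push_cast; linarith only [he, hx, hc, g1])
        (by unfold lin; push_cast; linarith only []) (by linarith only [g3])
  · have hx0 := hA.x0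
    have hx1 := hA.x1
    have gm := gh_mono (x := xs) (y := x) (by linarith only [ha, hx, hx1]) hx.le (by linarith only [ha, hx, hx1])
    have g1 := gU (x := xs) (y := x) ua (by norm_num) (by push_cast; linarith only [ha]) hx.le (by linarith only [ha, hx, hx1])
    rcases le_total x (2520 / 10000) with hc | hc
    · have h := piU0 cI6_rs_1_ua (by norm_num) hL (hS x y hA) (by norm_num)
        (by push_cast; linarith only [ha, hx]) (by push_cast; linarith only [hc])
      have g3 := gS (u := xs) (v := x) kc (by norm_num) (by norm_num)
        (by push_cast; exact ha) hx.le (by push_cast; exact hc) hT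
      push_cast at h g1 g3
      exact up_fin (gz := gh x) h gm (by unfold lin; push_cast; linarith only [ha, hx, g1, hc])
        (by unfold lin; push_cast; linarith only []) (by linarith only [g3])
    · have h := piU1 cI6_rs_1_ub (by norm_num) hL (hS x y hA) (by norm_num)
        (by push_cast; linarith only [hc]) (by push_cast; linarith only [hx1])
      have g2 := gU (x := 2520 / 10000) (y := x) ue (by norm_num) (by push_cast; exact le_rfl) hc
        (by linarith only [ha, hx, hx1])
      have g3 := gS (u := xs) (v := 2520 / 10000) kc (by norm_num) (by norm_num)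
        (by push_cast; exact ha) he (by push_cast; exact le_rfl) hT
      push_cast at h g1 g2 g3
      exact up_fin (gz := gh (2520 / 10000)) h gm (by unfold lin; push_cast; linarith only [ha, hx, hx1, g1])
        (by unfold lin; push_cast; linarith only [ha, hx, hx1, g2]) (by linarith only [g3])

end RQ

namespace RC

open RQ

theorem I6_one : RowI (wOne (109 / 1000) (168 / 1000) 0 (52 / 1000)) 6 (6 / 10) (3 / 100) (4 / 10) (16 / 100) (36 / 100) := by
  intro xs s T ρ hW
  have h0 : (2140 / 10000 : ℝ) ≤ xs := le_trans (by norm_num [wOne]) hW.x0
  have h1 : xs ≤ (2980 / 10000 : ℝ) := le_trans hW.x1 (by norm_num [wOne])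
  rcases le_total xs (2560 / 10000) with k0 | k0
  · exact RQ.sI6_one_0 hW h0 k0
  exact RQ.sI6_one_1 hW k0 h1

theorem I6_two : RowI (wTwo (109 / 1000) (168 / 1000) 0 (52 / 1000)) 6 (6 / 10) (3 / 100) (4 / 10) (125 / 1000) (30 / 100) := by
  intro xs s T ρ hW
  have h0 : (1860 / 10000 : ℝ) ≤ xs := le_trans (by norm_num [wTwo]) hW.x0
  have h1 : xs ≤ (2520 / 10000 : ℝ) := le_trans hW.x1 (by norm_num [wTwo])
  exact RQ.sI6_two hW h0 h1

theorem I6_twoE : RowI (wTwoE (109 / 1000) (168 / 1000) 0 (52 / 1000)) 6 (6 / 10) (3 / 100) (4 / 10) (125 / 1000) (30 / 100) := by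
  intro xs s T ρ hW
  have h0 : (1640 / 10000 : ℝ) ≤ xs := le_trans (by norm_num [wTwoE]) hW.x0
  have h1 : xs ≤ (1860 / 10000 : ℝ) := le_trans hW.x1 (by norm_num [wTwoE])
  exact RQ.sI6_twoE hW h0 h1

theorem I6_three : RowI (wThree (109 / 1000) (168 / 1000) 0 (52 / 1000)) 6 (6 / 10) (3 / 100) (4 / 10) (12 / 100) (30 / 100) := by
  intro xs s T ρ hW
  have h0 : (1880 / 10000 : ℝ) ≤ xs := le_trans (by norm_num [wThree]) hW.x0
  have h1 : xs ≤ (2340 / 10000 : ℝ) := le_trans hW.x1 (by norm_num [wThree])
  exact RQ.sI6_three hW h0 h1

theorem I6_threeE : RowI (wThreeE (109 / 1000) (168 / 1000) 0 (52 / 1000)) 6 (6 / 10) (3 / 100) (4 / 10) (10 / 100) (26 / 100) := by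
  intro xs s T ρ hW
  have h0 : (1710 / 10000 : ℝ) ≤ xs := le_trans (by norm_num [wThreeE]) hW.x0
  have h1 : xs ≤ (1950 / 10000 : ℝ) := le_trans hW.x1 (by norm_num [wThreeE])
  exact RQ.sI6_threeE hW h0 h1

theorem I6_rr : RowI (wRr (109 / 1000) (168 / 1000) 0 (52 / 1000)) 6 (6 / 10) (3 / 100) (4 / 10) (10 / 100) (27 / 100) := by
  intro xs s T ρ hW
  have h0 : (1820 / 10000 : ℝ) ≤ xs := le_trans (by norm_num [wRr]) hW.x0
  have h1 : xs ≤ (2520 / 10000 : ℝ) := le_trans hW.x1 (by norm_num [wRr])
  exact RQ.sI6_rr hW h0 h1

theorem I6_rs : RowI (wRs (109 / 1000) (168 / 1000) 0 (52 / 1000)) 6 (6 / 10) (3 / 100) (4 / 10) (10 / 100) (27 / 100) := by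
  intro xs s T ρ hW
  have h0 : (1700 / 10000 : ℝ) ≤ xs := le_trans (by norm_num [wRs]) hW.x0
  have h1 : xs ≤ (2520 / 10000 : ℝ) := le_trans hW.x1 (by norm_num [wRs])
  rcases le_total xs (2110 / 10000) with k0 | k0
  · exact RQ.sI6_rs_0 hW h0 k0
  exact RQ.sI6_rs_1 hW k0 h1

theorem E6_one : RowE (wOne (136 / 1000) (174 / 1000) 0 (30 / 1000)) 6 (16 / 100) (36 / 100) := by
  intro xs s T ρ hW hD
  have ha : (2140 / 10000 : ℝ) ≤ xs := le_trans (by norm_num [wOne]) hW.x0
  have he : xs ≤ (2980 / 10000 : ℝ) := le_trans hW.x1 (by norm_num [wOne])
  have hN : Nums (wOne (136 / 1000) (174 / 1000) 0 (30 / 1000)) ((6 : ℕ) : ℝ) (2140 / 10000) (2980 / 10000) (16 / 100) (36 / 100)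
      6 4720 1620 1360 0 10000 0 1200 1666 300 :=
    ⟨by norm_num, le_rfl, by norm_num, by norm_num, by norm_num, by norm_num, by norm_num [wOne],
      by norm_num, Or.inr (by norm_num [wOne]), by norm_num, by norm_num [wOne],
      by norm_num [wOne], by norm_num, by norm_num [wOne], by norm_num [wOne], by norm_num,
      by norm_num [wOne], fun h => by norm_num at h, by norm_num [wOne]⟩
  have hS : ∀ x y, RC.Adm 6 T ρ (16 / 100) (36 / 100) x y →
      Sd ((6 : ℕ) : ℝ) 6 4720 1620 1360 0 10000 0 1200 1666 300 xs s T ρ x y :=
    fun x y hA => Sd.of hN hW ha he (by push_cast; exact hA)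
  refine RampOK1.of (by norm_num) hD (fun y hA => ?_) (fun x y hA hx => ?_) (fun x y hA hx => ?_)
  · have h := eP cE6_one_e (by norm_num) (hS xs y hA) (Or.inl rfl)
      (by push_cast; linarith only [ha]) (by push_cast; linarith only [he])
    push_cast at h
    exact h
  · have hx0 := hA.x0
    have hx1 := hA.x1
    rcases le_total x (2140 / 10000) with hc | hc
    · have h := eD1 cE6_one_db (by norm_num) (hS x y hA) (by norm_num) (by norm_num)
        (by norm_num) (by push_cast; linarith only [hx0]) (by push_cast; linarith only [hc]) (by push_cast; exact ha)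
      push_cast at h
      exact h
    · have h := eD0 cE6_one_da (by norm_num) (hS x y hA) (by norm_num) (by norm_num)
        (by push_cast; linarith only [hc]) (by push_cast; linarith only [he, hx]) hx.le
      push_cast at h
      exact h
  · have hx0 := hA.x0
    have hx1 := hA.x1
    rcases le_total x (2980 / 10000) with hc | hc
    · have h := eU0 cE6_one_ua (by norm_num) (hS x y hA) (by norm_num)
        (by push_cast; linarith only [ha, hx]) (by push_cast; linarith only [hc]) hx.le
      push_cast at h
      exact h
    · have h := eU1 cE6_one_ub (by norm_num) (hS x y hA) (by norm_num) (by norm_num)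
        (by push_cast; linarith only [hc]) (by push_cast; linarith only [hx1]) (by push_cast; exact he)
      push_cast at h
      exact h

theorem E6_two : RowE (wTwo (136 / 1000) (174 / 1000) 0 (30 / 1000)) 6 (125 / 1000) (30 / 100) := by
  intro xs s T ρ hW hD
  have ha : (1860 / 10000 : ℝ) ≤ xs := le_trans (by norm_num [wTwo]) hW.x0
  have he : xs ≤ (2520 / 10000 : ℝ) := le_trans hW.x1 (by norm_num [wTwo])
  have hN : Nums (wTwo (136 / 1000) (174 / 1000) 0 (30 / 1000)) ((6 : ℕ) : ℝ) (1860 / 10000) (2520 / 10000) (125 / 1000) (30 / 100)
      6 4260 1160 1360 0 1400 620 1480 1666 300 :=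
    ⟨by norm_num, le_rfl, by norm_num, by norm_num, by norm_num, by norm_num, by norm_num [wTwo],
      by norm_num, Or.inr (by norm_num [wTwo]), by norm_num, by norm_num [wTwo],
      by norm_num [wTwo], by norm_num, by norm_num [wTwo], by norm_num [wTwo], by norm_num,
      by norm_num [wTwo], fun h => by norm_num at h, by norm_num [wTwo]⟩
  have hS : ∀ x y, RC.Adm 6 T ρ (125 / 1000) (30 / 100) x y →
      Sd ((6 : ℕ) : ℝ) 6 4260 1160 1360 0 1400 620 1480 1666 300 xs s T ρ x y :=
    fun x y hA => Sd.of hN hW ha he (by push_cast; exact hA)
  refine RampOK1.of (by norm_num) hD (fun y hA => ?_) (fun x y hA hx => ?_) (fun x y hA hx => ?_)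
  · have h := eP cE6_two_e (by norm_num) (hS xs y hA) (Or.inl rfl)
      (by push_cast; linarith only [ha]) (by push_cast; linarith only [he])
    push_cast at h
    exact h
  · have hx0 := hA.x0
    have hx1 := hA.x1
    rcases le_total x (1860 / 10000) with hc | hc
    · have h := eD1 cE6_two_db (by norm_num) (hS x y hA) (by norm_num) (by norm_num)
        (by norm_num) (by push_cast; linarith only [hx0]) (by push_cast; linarith only [hc]) (by push_cast; exact ha)
      push_cast at h
      exact h
    · have h := eD0 cE6_two_da (by norm_num) (hS x y hA) (by norm_num) (by norm_num)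
        (by push_cast; linarith only [hc]) (by push_cast; linarith only [he, hx]) hx.le
      push_cast at h
      exact h
  · have hx0 := hA.x0
    have hx1 := hA.x1
    rcases le_total x (2520 / 10000) with hc | hc
    · have h := eU0 cE6_two_ua (by norm_num) (hS x y hA) (by norm_num)
        (by push_cast; linarith only [ha, hx]) (by push_cast; linarith only [hc]) hx.le
      push_cast at h
      exact h
    · have h := eU1 cE6_two_ub (by norm_num) (hS x y hA) (by norm_num) (by norm_num)
        (by push_cast; linarith only [hc]) (by push_cast; linarith only [hx1]) (by push_cast; exact he)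
      push_cast at h
      exact h

theorem E6_twoE : RowE (wTwoE (136 / 1000) (174 / 1000) 0 (30 / 1000)) 6 (125 / 1000) (30 / 100) := by
  intro xs s T ρ hW hD
  have ha : (1640 / 10000 : ℝ) ≤ xs := le_trans (by norm_num [wTwoE]) hW.x0
  have he : xs ≤ (1860 / 10000 : ℝ) := le_trans hW.x1 (by norm_num [wTwoE])
  have hN : Nums (wTwoE (136 / 1000) (174 / 1000) 0 (30 / 1000)) ((6 : ℕ) : ℝ) (1640 / 10000) (1860 / 10000) (125 / 1000) (30 / 100)
      6 3600 500 1360 0 1680 270 700 1666 300 :=
    ⟨by norm_num, le_rfl, by norm_num, by norm_num, by norm_num, by norm_num, by norm_num [wTwoE],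
      by norm_num, Or.inr (by norm_num [wTwoE]), by norm_num, by norm_num [wTwoE],
      by norm_num [wTwoE], by norm_num, by norm_num [wTwoE], by norm_num [wTwoE], by norm_num,
      by norm_num [wTwoE], fun h => by norm_num at h, by norm_num [wTwoE]⟩
  have hS : ∀ x y, RC.Adm 6 T ρ (125 / 1000) (30 / 100) x y →
      Sd ((6 : ℕ) : ℝ) 6 3600 500 1360 0 1680 270 700 1666 300 xs s T ρ x y :=
    fun x y hA => Sd.of hN hW ha he (by push_cast; exact hA)
  refine RampOK1.of (by norm_num) hD (fun y hA => ?_) (fun x y hA hx => ?_) (fun x y hA hx => ?_)
  · have h := eP cE6_twoE_e (by norm_num) (hS xs y hA) (Or.inl rfl)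
      (by push_cast; linarith only [ha]) (by push_cast; linarith only [he])
    push_cast at h
    exact h
  · have hx0 := hA.x0
    have hx1 := hA.x1
    rcases le_total x (1640 / 10000) with hc | hc
    · have h := eD1 cE6_twoE_db (by norm_num) (hS x y hA) (by norm_num) (by norm_num)
        (by norm_num) (by push_cast; linarith only [hx0]) (by push_cast; linarith only [hc]) (by push_cast; exact ha)
      push_cast at h
      exact h
    · have h := eD0 cE6_twoE_da (by norm_num) (hS x y hA) (by norm_num) (by norm_num)
        (by push_cast; linarith only [hc]) (by push_cast; linarith only [he, hx]) hx.le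
      push_cast at h
      exact h
  · have hx0 := hA.x0
    have hx1 := hA.x1
    rcases le_total x (1860 / 10000) with hc | hc
    · have h := eU0 cE6_twoE_ua (by norm_num) (hS x y hA) (by norm_num)
        (by push_cast; linarith only [ha, hx]) (by push_cast; linarith only [hc]) hx.le
      push_cast at h
      exact h
    · have h := eU1 cE6_twoE_ub (by norm_num) (hS x y hA) (by norm_num) (by norm_num)
        (by push_cast; linarith only [hc]) (by push_cast; linarith only [hx1]) (by push_cast; exact he)
      push_cast at h
      exact h

theorem E6_three : RowE (wThree (136 / 1000) (174 / 1000) 0 (30 / 1000)) 6 (12 / 100) (30 / 100) := by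
  intro xs s T ρ hW hD
  have ha : (1880 / 10000 : ℝ) ≤ xs := le_trans (by norm_num [wThree]) hW.x0
  have he : xs ≤ (2340 / 10000 : ℝ) := le_trans hW.x1 (by norm_num [wThree])
  have hN : Nums (wThree (136 / 1000) (174 / 1000) 0 (30 / 1000)) ((6 : ℕ) : ℝ) (1880 / 10000) (2340 / 10000) (12 / 100) (30 / 100)
      6 4080 980 1360 0 1200 1010 1590 1666 300 :=
    ⟨by norm_num, le_rfl, by norm_num, by norm_num, by norm_num, by norm_num, by norm_num [wThree],
      by norm_num, Or.inr (by norm_num [wThree]), by norm_num, by norm_num [wThree],
      by norm_num [wThree], by norm_num, by norm_num [wThree], by norm_num [wThree], by norm_num,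
      by norm_num [wThree], fun h => by norm_num at h, by norm_num [wThree]⟩
  have hS : ∀ x y, RC.Adm 6 T ρ (12 / 100) (30 / 100) x y →
      Sd ((6 : ℕ) : ℝ) 6 4080 980 1360 0 1200 1010 1590 1666 300 xs s T ρ x y :=
    fun x y hA => Sd.of hN hW ha he (by push_cast; exact hA)
  refine RampOK1.of (by norm_num) hD (fun y hA => ?_) (fun x y hA hx => ?_) (fun x y hA hx => ?_)
  · have h := eP cE6_three_e (by norm_num) (hS xs y hA) (Or.inl rfl)
      (by push_cast; linarith only [ha]) (by push_cast; linarith only [he])
    push_cast at h
    exact h
  · have hx0 := hA.x0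
    have hx1 := hA.x1
    rcases le_total x (1880 / 10000) with hc | hc
    · have h := eD1 cE6_three_db (by norm_num) (hS x y hA) (by norm_num) (by norm_num)
        (by norm_num) (by push_cast; linarith only [hx0]) (by push_cast; linarith only [hc]) (by push_cast; exact ha)
      push_cast at h
      exact h
    · have h := eD0 cE6_three_da (by norm_num) (hS x y hA) (by norm_num) (by norm_num)
        (by push_cast; linarith only [hc]) (by push_cast; linarith only [he, hx]) hx.le
      push_cast at h
      exact h
  · have hx0 := hA.x0
    have hx1 := hA.x1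
    rcases le_total x (2340 / 10000) with hc | hc
    · have h := eU0 cE6_three_ua (by norm_num) (hS x y hA) (by norm_num)
        (by push_cast; linarith only [ha, hx]) (by push_cast; linarith only [hc]) hx.le
      push_cast at h
      exact h
    · have h := eU1 cE6_three_ub (by norm_num) (hS x y hA) (by norm_num) (by norm_num)
        (by push_cast; linarith only [hc]) (by push_cast; linarith only [hx1]) (by push_cast; exact he)
      push_cast at h
      exact h

theorem E6_threeE : RowE (wThreeE (136 / 1000) (174 / 1000) 0 (30 / 1000)) 6 (10 / 100) (26 / 100) := by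
  intro xs s T ρ hW hD
  have ha : (1710 / 10000 : ℝ) ≤ xs := le_trans (by norm_num [wThreeE]) hW.x0
  have he : xs ≤ (1950 / 10000 : ℝ) := le_trans hW.x1 (by norm_num [wThreeE])
  have hN : Nums (wThreeE (136 / 1000) (174 / 1000) 0 (30 / 1000)) ((6 : ℕ) : ℝ) (1710 / 10000) (1950 / 10000) (10 / 100) (26 / 100)
      6 3690 590 1360 0 1200 1000 1400 1666 300 :=
    ⟨by norm_num, le_rfl, by norm_num, by norm_num, by norm_num, by norm_num,
      by norm_num [wThreeE], by norm_num, Or.inr (by norm_num [wThreeE]), by norm_num,
      by norm_num [wThreeE], by norm_num [wThreeE], by norm_num, by norm_num [wThreeE],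
      by norm_num [wThreeE], by norm_num, by norm_num [wThreeE], fun h => by norm_num at h,
      by norm_num [wThreeE]⟩
  have hS : ∀ x y, RC.Adm 6 T ρ (10 / 100) (26 / 100) x y →
      Sd ((6 : ℕ) : ℝ) 6 3690 590 1360 0 1200 1000 1400 1666 300 xs s T ρ x y :=
    fun x y hA => Sd.of hN hW ha he (by push_cast; exact hA)
  refine RampOK1.of (by norm_num) hD (fun y hA => ?_) (fun x y hA hx => ?_) (fun x y hA hx => ?_)
  · have h := eP cE6_threeE_e (by norm_num) (hS xs y hA) (Or.inl rfl)
      (by push_cast; linarith only [ha]) (by push_cast; linarith only [he])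
    push_cast at h
    exact h
  · have hx0 := hA.x0
    have hx1 := hA.x1
    rcases le_total x (1710 / 10000) with hc | hc
    · have h := eD1 cE6_threeE_db (by norm_num) (hS x y hA) (by norm_num) (by norm_num)
        (by norm_num) (by push_cast; linarith only [hx0]) (by push_cast; linarith only [hc]) (by push_cast; exact ha)
      push_cast at h
      exact h
    · have h := eD0 cE6_threeE_da (by norm_num) (hS x y hA) (by norm_num) (by norm_num)
        (by push_cast; linarith only [hc]) (by push_cast; linarith only [he, hx]) hx.le
      push_cast at h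
      exact h
  · have hx0 := hA.x0
    have hx1 := hA.x1
    rcases le_total x (1950 / 10000) with hc | hc
    · have h := eU0 cE6_threeE_ua (by norm_num) (hS x y hA) (by norm_num)
        (by push_cast; linarith only [ha, hx]) (by push_cast; linarith only [hc]) hx.le
      push_cast at h
      exact h
    · have h := eU1 cE6_threeE_ub (by norm_num) (hS x y hA) (by norm_num) (by norm_num)
        (by push_cast; linarith only [hc]) (by push_cast; linarith only [hx1]) (by push_cast; exact he)
      push_cast at h
      exact h

theorem E6_rr : RowE (wRr (136 / 1000) (174 / 1000) 0 (30 / 1000)) 6 (10 / 100) (27 / 100) := by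
  intro xs s T ρ hW hD
  have ha : (1820 / 10000 : ℝ) ≤ xs := le_trans (by norm_num [wRr]) hW.x0
  have he : xs ≤ (2520 / 10000 : ℝ) := le_trans hW.x1 (by norm_num [wRr])
  have hN : Nums (wRr (136 / 1000) (174 / 1000) 0 (30 / 1000)) ((6 : ℕ) : ℝ) (1820 / 10000) (2520 / 10000) (10 / 100) (27 / 100)
      6 4260 1160 1360 0 1200 1195 1965 1666 300 :=
    ⟨by norm_num, le_rfl, by norm_num, by norm_num, by norm_num, by norm_num, by norm_num [wRr],
      by norm_num, Or.inr (by norm_num [wRr]), by norm_num, by norm_num [wRr], by norm_num [wRr],
      by norm_num, by norm_num [wRr], by norm_num [wRr], by norm_num, by norm_num [wRr],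
      fun h => by norm_num at h, by norm_num [wRr]⟩
  have hS : ∀ x y, RC.Adm 6 T ρ (10 / 100) (27 / 100) x y →
      Sd ((6 : ℕ) : ℝ) 6 4260 1160 1360 0 1200 1195 1965 1666 300 xs s T ρ x y :=
    fun x y hA => Sd.of hN hW ha he (by push_cast; exact hA)
  refine RampOK1.of (by norm_num) hD (fun y hA => ?_) (fun x y hA hx => ?_) (fun x y hA hx => ?_)
  · have h := eP cE6_rr_e (by norm_num) (hS xs y hA) (Or.inl rfl)
      (by push_cast; linarith only [ha]) (by push_cast; linarith only [he])
    push_cast at h
    exact h
  · have hx0 := hA.x0
    have hx1 := hA.x1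
    rcases le_total x (1820 / 10000) with hc | hc
    · have h := eD1 cE6_rr_db (by norm_num) (hS x y hA) (by norm_num) (by norm_num)
        (by norm_num) (by push_cast; linarith only [hx0]) (by push_cast; linarith only [hc]) (by push_cast; exact ha)
      push_cast at h
      exact h
    · have h := eD0 cE6_rr_da (by norm_num) (hS x y hA) (by norm_num) (by norm_num)
        (by push_cast; linarith only [hc]) (by push_cast; linarith only [he, hx]) hx.le
      push_cast at h
      exact h
  · have hx0 := hA.x0
    have hx1 := hA.x1
    rcases le_total x (2520 / 10000) with hc | hc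
    · have h := eU0 cE6_rr_ua (by norm_num) (hS x y hA) (by norm_num)
        (by push_cast; linarith only [ha, hx]) (by push_cast; linarith only [hc]) hx.le
      push_cast at h
      exact h
    · have h := eU1 cE6_rr_ub (by norm_num) (hS x y hA) (by norm_num) (by norm_num)
        (by push_cast; linarith only [hc]) (by push_cast; linarith only [hx1]) (by push_cast; exact he)
      push_cast at h
      exact h

theorem E6_rs : RowE (wRs (136 / 1000) (174 / 1000) 0 (30 / 1000)) 6 (10 / 100) (27 / 100) := by
  intro xs s T ρ hW hD
  have ha : (1700 / 10000 : ℝ) ≤ xs := le_trans (by norm_num [wRs]) hW.x0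
  have he : xs ≤ (2520 / 10000 : ℝ) := le_trans hW.x1 (by norm_num [wRs])
  have hN : Nums (wRs (136 / 1000) (174 / 1000) 0 (30 / 1000)) ((6 : ℕ) : ℝ) (1700 / 10000) (2520 / 10000) (10 / 100) (27 / 100)
      6 4260 1160 1360 0 1200 1570 2045 1666 300 :=
    ⟨by norm_num, le_rfl, by norm_num, by norm_num, by norm_num, by norm_num, by norm_num [wRs],
      by norm_num, Or.inr (by norm_num [wRs]), by norm_num, by norm_num [wRs], by norm_num [wRs],
      by norm_num, by norm_num [wRs], by norm_num [wRs], by norm_num, by norm_num [wRs],
      fun h => by norm_num at h, by norm_num [wRs]⟩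
  have hS : ∀ x y, RC.Adm 6 T ρ (10 / 100) (27 / 100) x y →
      Sd ((6 : ℕ) : ℝ) 6 4260 1160 1360 0 1200 1570 2045 1666 300 xs s T ρ x y :=
    fun x y hA => Sd.of hN hW ha he (by push_cast; exact hA)
  refine RampOK1.of (by norm_num) hD (fun y hA => ?_) (fun x y hA hx => ?_) (fun x y hA hx => ?_)
  · have h := eP cE6_rs_e (by norm_num) (hS xs y hA) (Or.inl rfl)
      (by push_cast; linarith only [ha]) (by push_cast; linarith only [he])
    push_cast at h
    exact h
  · have hx0 := hA.x0
    have hx1 := hA.x1
    rcases le_total x (1700 / 10000) with hc | hc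
    · have h := eD1 cE6_rs_db (by norm_num) (hS x y hA) (by norm_num) (by norm_num)
        (by norm_num) (by push_cast; linarith only [hx0]) (by push_cast; linarith only [hc]) (by push_cast; exact ha)
      push_cast at h
      exact h
    · have h := eD0 cE6_rs_da (by norm_num) (hS x y hA) (by norm_num) (by norm_num)
        (by push_cast; linarith only [hc]) (by push_cast; linarith only [he, hx]) hx.le
      push_cast at h
      exact h
  · have hx0 := hA.x0
    have hx1 := hA.x1
    rcases le_total x (2520 / 10000) with hc | hc
    · have h := eU0 cE6_rs_ua (by norm_num) (hS x y hA) (by norm_num)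
        (by push_cast; linarith only [ha, hx]) (by push_cast; linarith only [hc]) hx.le
      push_cast at h
      exact h
    · have h := eU1 cE6_rs_ub (by norm_num) (hS x y hA) (by norm_num) (by norm_num)
        (by push_cast; linarith only [hc]) (by push_cast; linarith only [hx1]) (by push_cast; exact he)
      push_cast at h
      exact h

end RC

end Pool.Agent.Work.MP_b30479_gt.G2
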