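import Pool.Agent.Work.MP_b30479_gt.G2.RRT

/-!
# Rings with the ring variable on the ramp: certificates, I7, E7
-/

namespace Pool.Agent.Work.MP_b30479_gt.G2

open NumI

namespace RQ

theorem cI7_one_p : okB 10000 (tP 7 1 1 2 0 4530 0 200 0 0 0 10000)
    0 1580 0 0 40 1600 3600 0 1200 1785 2500 0 400
    0x366c0db026cd81b63c001016cd81b600d8f000559b036c01b3606080813c7bb0100781063c0419e9c04f03ecb819e053bb003c0c0800201b366c0409e6c0431e020819e3c783030204002 = true := by
  decide +kernel

theorem cI7_two_p : okB 10000 (tP 7 1 1 2 0 4070 0 200 0 0 0 1400)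
    0 1580 0 0 40 1250 3000 620 1480 1785 2500 0 400
    0x1e3c08f1ecc043030c080003c1819e047b3665c080800c780033c08001 = true := by
  decide +kernel

theorem cI7_twoE_p : okB 10000 (tP 7 1 1 2 0 3410 0 200 0 0 0 1680)
    0 1580 0 0 40 1250 3000 270 700 1785 2500 0 400
    0xd8f003c0a766cc0401e0678100 = true := by
  decide +kernel

theorem cI7_three_p : okB 10000 (tP 7 1 1 2 0 3890 0 200 0 0 0 1200)
    0 1580 0 0 40 1200 3000 1010 1590 1785 2500 0 400
    0x60c083060008f060678f013c0b3030c08000 = true := by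
  decide +kernel

theorem cI7_threeE_p : okB 10000 (tP 7 1 1 2 0 3500 0 200 0 0 0 1200)
    0 1580 0 0 40 1000 2600 1000 1400 1785 2500 0 400
    0x1e3c7b301007819e0478100 = true := by
  decide +kernel

theorem cI7_rr_p : okB 10000 (tP 7 1 1 2 0 4070 0 200 0 0 0 1200)
    0 1580 0 0 40 1000 2700 1195 1965 1785 2500 0 400
    0x183020d9b36603d816606000060478f2eec017033c0801e04181000200306cc7808604183020600003 = true := by
  decide +kernel

theorem cI7_rs_p : okB 10000 (tP 7 1 1 2 0 4070 0 200 0 0 0 1200)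
    0 1580 0 0 40 1000 2700 1570 2045 1785 2500 0 400
    0x60c0b30605db32eec000e60603303cc080060c00100 = true := by
  decide +kernel

theorem cE7_one_p : okB 10000 (tP 7 2 4 10 0 4530 0 0 0 0 0 10000)
    0 1580 0 0 40 1600 3600 0 1200 1785 2500 0 220
    0x366c05b023c181026c781006cd830302d81369c04f036c01b0202d8f020404f1e0c08086047b3003c083029dd8b033c0801e0404080 = true := by
  decide +kernel

theorem cE7_two_p : okB 10000 (tP 7 2 4 10 0 4070 0 0 0 0 0 1400)
    0 1580 0 0 40 1250 3000 620 1480 1785 2500 0 220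
    0x60c780060400f1e3d980803c0c0013c78002 = true := by
  decide +kernel

theorem cE7_twoE_p : okB 10000 (tP 7 2 4 10 0 3410 0 0 0 0 0 1680)
    0 1580 0 0 40 1250 3000 270 700 1785 2500 0 220
    0x4e3c08f1ecc04f020078100 = true := by
  decide +kernel

theorem cE7_three_p : okB 10000 (tP 7 2 4 10 0 3890 0 0 0 0 0 1200)
    0 1580 0 0 40 1200 3000 1010 1590 1785 2500 0 220
    0x183663c040000c18002 = true := by
  decide +kernel

theorem cE7_threeE_p : okB 10000 (tP 7 2 4 10 0 3500 0 0 0 0 0 1200)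
    0 1580 0 0 40 1000 2600 1000 1400 1785 2500 0 220
    0x18f1ecc043020c08000 = true := by
  decide +kernel

theorem cE7_rr_p : okB 10000 (tP 7 2 4 10 0 4070 0 0 0 0 0 1200)
    0 1580 0 0 40 1000 2700 1195 1965 1785 2500 0 220
    0x183000d98b03cc7bb0103d97010418180001b3000418100 = true := by
  decide +kernel

theorem cE7_rs_p : okB 10000 (tP 7 2 4 10 0 4070 0 0 0 0 0 1200)
    0 1580 0 0 40 1000 2700 1570 2045 1785 2500 0 220
    0x60c1bb760200303cc083020018100 = true := by
  decide +kernel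

end RQ

end Pool.Agent.Work.MP_b30479_gt.G2
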