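import Pool.Agent.Work.MP_b30479_gt.G2.RRP
import Pool.Agent.Work.MP_b30479_gt.G2.RRC7

/-!
# Rings with the ring variable on the ramp: the rows `b ≥ 7`
-/

namespace Pool.Agent.Work.MP_b30479_gt.G2

open Real NumI

namespace RQ

theorem lam12 : lam 1 2 1 = 1 / 2 := by
  unfold lam
  norm_num

end RQ

namespace RC

open RQ

theorem I7_one {b : ℝ} (hb : 7 ≤ b) : RowI (wOne 0 (155 / 1000) 0 (40 / 1000)) b (1 / 2) (1 / 50) 0
    (16 / 100) (36 / 100) := by
  intro xs s T ρ hW
  have ha : (2140 / 10000 : ℝ) ≤ xs := le_trans (by norm_num [wOne]) hW.x0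
  have he : xs ≤ (2980 / 10000 : ℝ) := le_trans hW.x1 (by norm_num [wOne])
  have hN : Nums (wOne 0 (155 / 1000) 0 (40 / 1000)) b (2140 / 10000) (2980 / 10000) (16 / 100) (36 / 100)
      7 4530 4999 0 0 10000 0 1200 1785 400 :=
    ⟨by norm_num, by push_cast; exact hb, by norm_num, by norm_num, by norm_num, by norm_num,
      by norm_num [wOne], by norm_num, Or.inr (by norm_num [wOne]), by norm_num,
      by norm_num [wOne], by norm_num [wOne], by norm_num, by norm_num [wOne], by norm_num [wOne],
      by norm_num, by norm_num [wOne], fun h => by norm_num at h, by norm_num [wOne]⟩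
  refine RampOK.of_pos (by norm_num) fun x y hA => ?_
  have h := piP cI7_one_p (by norm_num) lam12 (Sd.of hN hW ha he hA) (Or.inr (by norm_num))
    (by push_cast; linarith only [hA, hA.x0]) (by push_cast; linarith only [hA, hA.x1])
  unfold lin at h
  push_cast at h
  linarith only [h]

theorem I7_two {b : ℝ} (hb : 7 ≤ b) : RowI (wTwo 0 (155 / 1000) 0 (40 / 1000)) b (1 / 2) (1 / 50) 0
    (125 / 1000) (30 / 100) := by
  intro xs s T ρ hW
  have ha : (1860 / 10000 : ℝ) ≤ xs := le_trans (by norm_num [wTwo]) hW.x0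
  have he : xs ≤ (2520 / 10000 : ℝ) := le_trans hW.x1 (by norm_num [wTwo])
  have hN : Nums (wTwo 0 (155 / 1000) 0 (40 / 1000)) b (1860 / 10000) (2520 / 10000) (125 / 1000) (30 / 100)
      7 4070 4999 0 0 1400 620 1480 1785 400 :=
    ⟨by norm_num, by push_cast; exact hb, by norm_num, by norm_num, by norm_num, by norm_num,
      by norm_num [wTwo], by norm_num, Or.inr (by norm_num [wTwo]), by norm_num,
      by norm_num [wTwo], by norm_num [wTwo], by norm_num, by norm_num [wTwo], by norm_num [wTwo],
      by norm_num, by norm_num [wTwo], fun h => by norm_num at h, by norm_num [wTwo]⟩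
  refine RampOK.of_pos (by norm_num) fun x y hA => ?_
  have h := piP cI7_two_p (by norm_num) lam12 (Sd.of hN hW ha he hA) (Or.inr (by norm_num))
    (by push_cast; linarith only [hA, hA.x0]) (by push_cast; linarith only [hA, hA.x1])
  unfold lin at h
  push_cast at h
  linarith only [h]

theorem I7_twoE {b : ℝ} (hb : 7 ≤ b) : RowI (wTwoE 0 (155 / 1000) 0 (40 / 1000)) b (1 / 2) (1 / 50) 0
    (125 / 1000) (30 / 100) := by
  intro xs s T ρ hW
  have ha : (1640 / 10000 : ℝ) ≤ xs := le_trans (by norm_num [wTwoE]) hW.x0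
  have he : xs ≤ (1860 / 10000 : ℝ) := le_trans hW.x1 (by norm_num [wTwoE])
  have hN : Nums (wTwoE 0 (155 / 1000) 0 (40 / 1000)) b (1640 / 10000) (1860 / 10000) (125 / 1000) (30 / 100)
      7 3410 4999 0 0 1680 270 700 1785 400 :=
    ⟨by norm_num, by push_cast; exact hb, by norm_num, by norm_num, by norm_num, by norm_num,
      by norm_num [wTwoE], by norm_num, Or.inr (by norm_num [wTwoE]), by norm_num,
      by norm_num [wTwoE], by norm_num [wTwoE], by norm_num, by norm_num [wTwoE],
      by norm_num [wTwoE], by norm_num, by norm_num [wTwoE], fun h => by norm_num at h,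
      by norm_num [wTwoE]⟩
  refine RampOK.of_pos (by norm_num) fun x y hA => ?_
  have h := piP cI7_twoE_p (by norm_num) lam12 (Sd.of hN hW ha he hA) (Or.inr (by norm_num))
    (by push_cast; linarith only [hA, hA.x0]) (by push_cast; linarith only [hA, hA.x1])
  unfold lin at h
  push_cast at h
  linarith only [h]

theorem I7_three {b : ℝ} (hb : 7 ≤ b) : RowI (wThree 0 (155 / 1000) 0 (40 / 1000)) b (1 / 2) (1 / 50) 0
    (12 / 100) (30 / 100) := by
  intro xs s T ρ hW
  have ha : (1880 / 10000 : ℝ) ≤ xs := le_trans (by norm_num [wThree]) hW.x0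
  have he : xs ≤ (2340 / 10000 : ℝ) := le_trans hW.x1 (by norm_num [wThree])
  have hN : Nums (wThree 0 (155 / 1000) 0 (40 / 1000)) b (1880 / 10000) (2340 / 10000) (12 / 100) (30 / 100)
      7 3890 4999 0 0 1200 1010 1590 1785 400 :=
    ⟨by norm_num, by push_cast; exact hb, by norm_num, by norm_num, by norm_num, by norm_num,
      by norm_num [wThree], by norm_num, Or.inr (by norm_num [wThree]), by norm_num,
      by norm_num [wThree], by norm_num [wThree], by norm_num, by norm_num [wThree],
      by norm_num [wThree], by norm_num, by norm_num [wThree], fun h => by norm_num at h,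
      by norm_num [wThree]⟩
  refine RampOK.of_pos (by norm_num) fun x y hA => ?_
  have h := piP cI7_three_p (by norm_num) lam12 (Sd.of hN hW ha he hA) (Or.inr (by norm_num))
    (by push_cast; linarith only [hA, hA.x0]) (by push_cast; linarith only [hA, hA.x1])
  unfold lin at h
  push_cast at h
  linarith only [h]

theorem I7_threeE {b : ℝ} (hb : 7 ≤ b) : RowI (wThreeE 0 (155 / 1000) 0 (40 / 1000)) b (1 / 2) (1 / 50) 0
    (10 / 100) (26 / 100) := by
  intro xs s T ρ hW
  have ha : (1710 / 10000 : ℝ) ≤ xs := le_trans (by norm_num [wThreeE]) hW.x0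
  have he : xs ≤ (1950 / 10000 : ℝ) := le_trans hW.x1 (by norm_num [wThreeE])
  have hN : Nums (wThreeE 0 (155 / 1000) 0 (40 / 1000)) b (1710 / 10000) (1950 / 10000) (10 / 100) (26 / 100)
      7 3500 4999 0 0 1200 1000 1400 1785 400 :=
    ⟨by norm_num, by push_cast; exact hb, by norm_num, by norm_num, by norm_num, by norm_num,
      by norm_num [wThreeE], by norm_num, Or.inr (by norm_num [wThreeE]), by norm_num,
      by norm_num [wThreeE], by norm_num [wThreeE], by norm_num, by norm_num [wThreeE],
      by norm_num [wThreeE], by norm_num, by norm_num [wThreeE], fun h => by norm_num at h,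
      by norm_num [wThreeE]⟩
  refine RampOK.of_pos (by norm_num) fun x y hA => ?_
  have h := piP cI7_threeE_p (by norm_num) lam12 (Sd.of hN hW ha he hA) (Or.inr (by norm_num))
    (by push_cast; linarith only [hA, hA.x0]) (by push_cast; linarith only [hA, hA.x1])
  unfold lin at h
  push_cast at h
  linarith only [h]

theorem I7_rr {b : ℝ} (hb : 7 ≤ b) : RowI (wRr 0 (155 / 1000) 0 (40 / 1000)) b (1 / 2) (1 / 50) 0
    (10 / 100) (27 / 100) := by
  intro xs s T ρ hW
  have ha : (1820 / 10000 : ℝ) ≤ xs := le_trans (by norm_num [wRr]) hW.x0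
  have he : xs ≤ (2520 / 10000 : ℝ) := le_trans hW.x1 (by norm_num [wRr])
  have hN : Nums (wRr 0 (155 / 1000) 0 (40 / 1000)) b (1820 / 10000) (2520 / 10000) (10 / 100) (27 / 100)
      7 4070 4999 0 0 1200 1195 1965 1785 400 :=
    ⟨by norm_num, by push_cast; exact hb, by norm_num, by norm_num, by norm_num, by norm_num,
      by norm_num [wRr], by norm_num, Or.inr (by norm_num [wRr]), by norm_num, by norm_num [wRr],
      by norm_num [wRr], by norm_num, by norm_num [wRr], by norm_num [wRr], by norm_num,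
      by norm_num [wRr], fun h => by norm_num at h, by norm_num [wRr]⟩
  refine RampOK.of_pos (by norm_num) fun x y hA => ?_
  have h := piP cI7_rr_p (by norm_num) lam12 (Sd.of hN hW ha he hA) (Or.inr (by norm_num))
    (by push_cast; linarith only [hA, hA.x0]) (by push_cast; linarith only [hA, hA.x1])
  unfold lin at h
  push_cast at h
  linarith only [h]

theorem I7_rs {b : ℝ} (hb : 7 ≤ b) : RowI (wRs 0 (155 / 1000) 0 (40 / 1000)) b (1 / 2) (1 / 50) 0
    (10 / 100) (27 / 100) := by
  intro xs s T ρ hW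
  have ha : (1700 / 10000 : ℝ) ≤ xs := le_trans (by norm_num [wRs]) hW.x0
  have he : xs ≤ (2520 / 10000 : ℝ) := le_trans hW.x1 (by norm_num [wRs])
  have hN : Nums (wRs 0 (155 / 1000) 0 (40 / 1000)) b (1700 / 10000) (2520 / 10000) (10 / 100) (27 / 100)
      7 4070 4999 0 0 1200 1570 2045 1785 400 :=
    ⟨by norm_num, by push_cast; exact hb, by norm_num, by norm_num, by norm_num, by norm_num,
      by norm_num [wRs], by norm_num, Or.inr (by norm_num [wRs]), by norm_num, by norm_num [wRs],
      by norm_num [wRs], by norm_num, by norm_num [wRs], by norm_num [wRs], by norm_num,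
      by norm_num [wRs], fun h => by norm_num at h, by norm_num [wRs]⟩
  refine RampOK.of_pos (by norm_num) fun x y hA => ?_
  have h := piP cI7_rs_p (by norm_num) lam12 (Sd.of hN hW ha he hA) (Or.inr (by norm_num))
    (by push_cast; linarith only [hA, hA.x0]) (by push_cast; linarith only [hA, hA.x1])
  unfold lin at h
  push_cast at h
  linarith only [h]

theorem E7_one {b : ℝ} (hb : 7 ≤ b) : RowE (wOne 0 (155 / 1000) 0 (22 / 1000)) b
    (16 / 100) (36 / 100) := by
  intro xs s T ρ hW hD
  have ha : (2140 / 10000 : ℝ) ≤ xs := le_trans (by norm_num [wOne]) hW.x0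
  have he : xs ≤ (2980 / 10000 : ℝ) := le_trans hW.x1 (by norm_num [wOne])
  have hN : Nums (wOne 0 (155 / 1000) 0 (22 / 1000)) b (2140 / 10000) (2980 / 10000) (16 / 100) (36 / 100)
      7 4530 4999 0 0 10000 0 1200 1785 220 :=
    ⟨by norm_num, by push_cast; exact hb, by norm_num, by norm_num, by norm_num, by norm_num,
      by norm_num [wOne], by norm_num, Or.inr (by norm_num [wOne]), by norm_num,
      by norm_num [wOne], by norm_num [wOne], by norm_num, by norm_num [wOne], by norm_num [wOne],
      by norm_num, by norm_num [wOne], fun h => by norm_num at h, by norm_num [wOne]⟩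
  have key : ∀ x y, RC.Adm b T ρ (16 / 100) (36 / 100) x y → ∃ l, 0 < Ph 1 l b xs (1 / 2 - s) T ρ x y :=
    fun x y hA => eP cE7_one_p (by norm_num) (Sd.of hN hW ha he hA)
      (Or.inr ⟨rfl, by norm_num⟩) (by push_cast; linarith only [hA, hA.x0]) (by push_cast; linarith only [hA, hA.x1])
  exact RampOK1.of (by linarith only [hb]) hD (fun y hA => key _ _ hA)
    (fun x y hA _ => (key _ _ hA).imp fun l h => Or.inl h)
    (fun x y hA _ => (key _ _ hA).imp fun l h => Or.inl h)

theorem E7_two {b : ℝ} (hb : 7 ≤ b) : RowE (wTwo 0 (155 / 1000) 0 (22 / 1000)) b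
    (125 / 1000) (30 / 100) := by
  intro xs s T ρ hW hD
  have ha : (1860 / 10000 : ℝ) ≤ xs := le_trans (by norm_num [wTwo]) hW.x0
  have he : xs ≤ (2520 / 10000 : ℝ) := le_trans hW.x1 (by norm_num [wTwo])
  have hN : Nums (wTwo 0 (155 / 1000) 0 (22 / 1000)) b (1860 / 10000) (2520 / 10000) (125 / 1000) (30 / 100)
      7 4070 4999 0 0 1400 620 1480 1785 220 :=
    ⟨by norm_num, by push_cast; exact hb, by norm_num, by norm_num, by norm_num, by norm_num,
      by norm_num [wTwo], by norm_num, Or.inr (by norm_num [wTwo]), by norm_num,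
      by norm_num [wTwo], by norm_num [wTwo], by norm_num, by norm_num [wTwo], by norm_num [wTwo],
      by norm_num, by norm_num [wTwo], fun h => by norm_num at h, by norm_num [wTwo]⟩
  have key : ∀ x y, RC.Adm b T ρ (125 / 1000) (30 / 100) x y → ∃ l, 0 < Ph 1 l b xs (1 / 2 - s) T ρ x y :=
    fun x y hA => eP cE7_two_p (by norm_num) (Sd.of hN hW ha he hA)
      (Or.inr ⟨rfl, by norm_num⟩) (by push_cast; linarith only [hA, hA.x0]) (by push_cast; linarith only [hA, hA.x1])
  exact RampOK1.of (by linarith only [hb]) hD (fun y hA => key _ _ hA)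
    (fun x y hA _ => (key _ _ hA).imp fun l h => Or.inl h)
    (fun x y hA _ => (key _ _ hA).imp fun l h => Or.inl h)

theorem E7_twoE {b : ℝ} (hb : 7 ≤ b) : RowE (wTwoE 0 (155 / 1000) 0 (22 / 1000)) b
    (125 / 1000) (30 / 100) := by
  intro xs s T ρ hW hD
  have ha : (1640 / 10000 : ℝ) ≤ xs := le_trans (by norm_num [wTwoE]) hW.x0
  have he : xs ≤ (1860 / 10000 : ℝ) := le_trans hW.x1 (by norm_num [wTwoE])
  have hN : Nums (wTwoE 0 (155 / 1000) 0 (22 / 1000)) b (1640 / 10000) (1860 / 10000) (125 / 1000) (30 / 100)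
      7 3410 4999 0 0 1680 270 700 1785 220 :=
    ⟨by norm_num, by push_cast; exact hb, by norm_num, by norm_num, by norm_num, by norm_num,
      by norm_num [wTwoE], by norm_num, Or.inr (by norm_num [wTwoE]), by norm_num,
      by norm_num [wTwoE], by norm_num [wTwoE], by norm_num, by norm_num [wTwoE],
      by norm_num [wTwoE], by norm_num, by norm_num [wTwoE], fun h => by norm_num at h,
      by norm_num [wTwoE]⟩
  have key : ∀ x y, RC.Adm b T ρ (125 / 1000) (30 / 100) x y → ∃ l, 0 < Ph 1 l b xs (1 / 2 - s) T ρ x y :=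
    fun x y hA => eP cE7_twoE_p (by norm_num) (Sd.of hN hW ha he hA)
      (Or.inr ⟨rfl, by norm_num⟩) (by push_cast; linarith only [hA, hA.x0]) (by push_cast; linarith only [hA, hA.x1])
  exact RampOK1.of (by linarith only [hb]) hD (fun y hA => key _ _ hA)
    (fun x y hA _ => (key _ _ hA).imp fun l h => Or.inl h)
    (fun x y hA _ => (key _ _ hA).imp fun l h => Or.inl h)

theorem E7_three {b : ℝ} (hb : 7 ≤ b) : RowE (wThree 0 (155 / 1000) 0 (22 / 1000)) b
    (12 / 100) (30 / 100) := by
  intro xs s T ρ hW hD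
  have ha : (1880 / 10000 : ℝ) ≤ xs := le_trans (by norm_num [wThree]) hW.x0
  have he : xs ≤ (2340 / 10000 : ℝ) := le_trans hW.x1 (by norm_num [wThree])
  have hN : Nums (wThree 0 (155 / 1000) 0 (22 / 1000)) b (1880 / 10000) (2340 / 10000) (12 / 100) (30 / 100)
      7 3890 4999 0 0 1200 1010 1590 1785 220 :=
    ⟨by norm_num, by push_cast; exact hb, by norm_num, by norm_num, by norm_num, by norm_num,
      by norm_num [wThree], by norm_num, Or.inr (by norm_num [wThree]), by norm_num,
      by norm_num [wThree], by norm_num [wThree], by norm_num, by norm_num [wThree],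
      by norm_num [wThree], by norm_num, by norm_num [wThree], fun h => by norm_num at h,
      by norm_num [wThree]⟩
  have key : ∀ x y, RC.Adm b T ρ (12 / 100) (30 / 100) x y → ∃ l, 0 < Ph 1 l b xs (1 / 2 - s) T ρ x y :=
    fun x y hA => eP cE7_three_p (by norm_num) (Sd.of hN hW ha he hA)
      (Or.inr ⟨rfl, by norm_num⟩) (by push_cast; linarith only [hA, hA.x0]) (by push_cast; linarith only [hA, hA.x1])
  exact RampOK1.of (by linarith only [hb]) hD (fun y hA => key _ _ hA)
    (fun x y hA _ => (key _ _ hA).imp fun l h => Or.inl h)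
    (fun x y hA _ => (key _ _ hA).imp fun l h => Or.inl h)

theorem E7_threeE {b : ℝ} (hb : 7 ≤ b) : RowE (wThreeE 0 (155 / 1000) 0 (22 / 1000)) b
    (10 / 100) (26 / 100) := by
  intro xs s T ρ hW hD
  have ha : (1710 / 10000 : ℝ) ≤ xs := le_trans (by norm_num [wThreeE]) hW.x0
  have he : xs ≤ (1950 / 10000 : ℝ) := le_trans hW.x1 (by norm_num [wThreeE])
  have hN : Nums (wThreeE 0 (155 / 1000) 0 (22 / 1000)) b (1710 / 10000) (1950 / 10000) (10 / 100) (26 / 100)
      7 3500 4999 0 0 1200 1000 1400 1785 220 :=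
    ⟨by norm_num, by push_cast; exact hb, by norm_num, by norm_num, by norm_num, by norm_num,
      by norm_num [wThreeE], by norm_num, Or.inr (by norm_num [wThreeE]), by norm_num,
      by norm_num [wThreeE], by norm_num [wThreeE], by norm_num, by norm_num [wThreeE],
      by norm_num [wThreeE], by norm_num, by norm_num [wThreeE], fun h => by norm_num at h,
      by norm_num [wThreeE]⟩
  have key : ∀ x y, RC.Adm b T ρ (10 / 100) (26 / 100) x y → ∃ l, 0 < Ph 1 l b xs (1 / 2 - s) T ρ x y :=
    fun x y hA => eP cE7_threeE_p (by norm_num) (Sd.of hN hW ha he hA)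
      (Or.inr ⟨rfl, by norm_num⟩) (by push_cast; linarith only [hA, hA.x0]) (by push_cast; linarith only [hA, hA.x1])
  exact RampOK1.of (by linarith only [hb]) hD (fun y hA => key _ _ hA)
    (fun x y hA _ => (key _ _ hA).imp fun l h => Or.inl h)
    (fun x y hA _ => (key _ _ hA).imp fun l h => Or.inl h)

theorem E7_rr {b : ℝ} (hb : 7 ≤ b) : RowE (wRr 0 (155 / 1000) 0 (22 / 1000)) b
    (10 / 100) (27 / 100) := by
  intro xs s T ρ hW hD
  have ha : (1820 / 10000 : ℝ) ≤ xs := le_trans (by norm_num [wRr]) hW.x0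
  have he : xs ≤ (2520 / 10000 : ℝ) := le_trans hW.x1 (by norm_num [wRr])
  have hN : Nums (wRr 0 (155 / 1000) 0 (22 / 1000)) b (1820 / 10000) (2520 / 10000) (10 / 100) (27 / 100)
      7 4070 4999 0 0 1200 1195 1965 1785 220 :=
    ⟨by norm_num, by push_cast; exact hb, by norm_num, by norm_num, by norm_num, by norm_num,
      by norm_num [wRr], by norm_num, Or.inr (by norm_num [wRr]), by norm_num, by norm_num [wRr],
      by norm_num [wRr], by norm_num, by norm_num [wRr], by norm_num [wRr], by norm_num,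
      by norm_num [wRr], fun h => by norm_num at h, by norm_num [wRr]⟩
  have key : ∀ x y, RC.Adm b T ρ (10 / 100) (27 / 100) x y → ∃ l, 0 < Ph 1 l b xs (1 / 2 - s) T ρ x y :=
    fun x y hA => eP cE7_rr_p (by norm_num) (Sd.of hN hW ha he hA)
      (Or.inr ⟨rfl, by norm_num⟩) (by push_cast; linarith only [hA, hA.x0]) (by push_cast; linarith only [hA, hA.x1])
  exact RampOK1.of (by linarith only [hb]) hD (fun y hA => key _ _ hA)
    (fun x y hA _ => (key _ _ hA).imp fun l h => Or.inl h)
    (fun x y hA _ => (key _ _ hA).imp fun l h => Or.inl h)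

theorem E7_rs {b : ℝ} (hb : 7 ≤ b) : RowE (wRs 0 (155 / 1000) 0 (22 / 1000)) b
    (10 / 100) (27 / 100) := by
  intro xs s T ρ hW hD
  have ha : (1700 / 10000 : ℝ) ≤ xs := le_trans (by norm_num [wRs]) hW.x0
  have he : xs ≤ (2520 / 10000 : ℝ) := le_trans hW.x1 (by norm_num [wRs])
  have hN : Nums (wRs 0 (155 / 1000) 0 (22 / 1000)) b (1700 / 10000) (2520 / 10000) (10 / 100) (27 / 100)
      7 4070 4999 0 0 1200 1570 2045 1785 220 :=
    ⟨by norm_num, by push_cast; exact hb, by norm_num, by norm_num, by norm_num, by norm_num,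
      by norm_num [wRs], by norm_num, Or.inr (by norm_num [wRs]), by norm_num, by norm_num [wRs],
      by norm_num [wRs], by norm_num, by norm_num [wRs], by norm_num [wRs], by norm_num,
      by norm_num [wRs], fun h => by norm_num at h, by norm_num [wRs]⟩
  have key : ∀ x y, RC.Adm b T ρ (10 / 100) (27 / 100) x y → ∃ l, 0 < Ph 1 l b xs (1 / 2 - s) T ρ x y :=
    fun x y hA => eP cE7_rs_p (by norm_num) (Sd.of hN hW ha he hA)
      (Or.inr ⟨rfl, by norm_num⟩) (by push_cast; linarith only [hA, hA.x0]) (by push_cast; linarith only [hA, hA.x1])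
  exact RampOK1.of (by linarith only [hb]) hD (fun y hA => key _ _ hA)
    (fun x y hA _ => (key _ _ hA).imp fun l h => Or.inl h)
    (fun x y hA _ => (key _ _ hA).imp fun l h => Or.inl h)

end RC

end Pool.Agent.Work.MP_b30479_gt.G2
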