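import Pool.Agent.Work.MP_b30479_gt.G2.RRN

/-!
# Rings with the ring variable on the ramp, `b ≥ 5`: use of the certificates
-/

namespace Pool.Agent.Work.MP_b30479_gt.G2

open Real Set VOL NumI

namespace RQ

open RC
open LR (rat1 mulq1)
open RZ1 (negE enc4)

/-! ### constants -/

/-- `β π ≤ G sin (π p)` -/
def kU (be p G : ℕ) : Bool :=
  posF ((F.mulq G 10000 (F.rat p 10000).sinPi).sub (F.mulq be 10000 F.pi))

/-- `G sin (π p) ≤ β π` -/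
def kL (be p G : ℕ) : Bool :=
  posF ((F.mulq be 10000 F.pi).sub (F.mulq G 10000 (F.rat p 10000).sinPi))

/-- condition of `side_gauge` -/
def kC (be a e t : ℕ) : Bool :=
  bO (F.hyp false (F.pi.mul (F.rat t 10000))) fun sh =>
    cond (posF ((F.mulq 2 1 (F.rat e 10000).cosPi).sub (F.rat be 10000)))
      (posF (((F.rat a 10000).sinPi.sqn.mul ((F.mulq 2 1 (F.rat e 10000).cosPi).sub
        (F.rat be 10000))).sub (F.mulq be 10000 sh.sqn))) false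

lemma hε0 : ∀ i : ℕ, |(fun _ : ℕ => (0 : ℝ)) i| ≤ 1 := fun i => by simp

theorem kU_sound {be p G : ℕ} (h : kU be p G = true) :
    (be : ℝ) / 10000 * π < (G : ℝ) / 10000 * sin (π * ((p : ℝ) / 10000)) := by
  have h1 := F.Encl.mulq (n := G) (d := 10000) (by norm_num) hε0
    (F.Encl.sinPi hε0 (r4_encl p (fun _ => 0)))
  have h2 := F.Encl.mulq (n := be) (d := 10000) (by norm_num) hε0 (F.Encl.pi (fun _ => 0))
  have := posF_spec hε0 (F.Encl.sub h1 h2) h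
  push_cast at this
  linarith only [this]

theorem kL_sound {be p G : ℕ} (h : kL be p G = true) :
    (G : ℝ) / 10000 * sin (π * ((p : ℝ) / 10000)) < (be : ℝ) / 10000 * π := by
  have h1 := F.Encl.mulq (n := G) (d := 10000) (by norm_num) hε0
    (F.Encl.sinPi hε0 (r4_encl p (fun _ => 0)))
  have h2 := F.Encl.mulq (n := be) (d := 10000) (by norm_num) hε0 (F.Encl.pi (fun _ => 0))
  have := posF_spec hε0 (F.Encl.sub h2 h1) h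
  push_cast at this
  linarith only [this]

theorem kC_sound {be a e t : ℕ} (h : kC be a e t = true) :
    (be : ℝ) / 10000 * sinh (π * ((t : ℝ) / 10000)) ^ 2 ≤
      sin (π * ((a : ℝ) / 10000)) ^ 2 * (2 * cos (π * ((e : ℝ) / 10000)) - (be : ℝ) / 10000) ∧
    (be : ℝ) / 10000 ≤ 2 * cos (π * ((e : ℝ) / 10000)) := by
  obtain ⟨sh, hsh, h⟩ := bO_some h
  obtain ⟨g1, g2⟩ := cond_ff h
  have e1 := F.Encl.sinh hε0 (F.Encl.mul hε0 (F.Encl.pi (fun _ => 0)) (r4_encl t (fun _ => 0))) hsh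
  have e2 := F.Encl.sub (two_encl hε0 (F.Encl.cosPi hε0 (r4_encl e (fun _ => 0))))
    (r4_encl be (fun _ => 0))
  have e3 := F.Encl.mul hε0 (F.Encl.sqn hε0 (F.Encl.sinPi hε0 (r4_encl a (fun _ => 0)))) e2
  have e4 := F.Encl.mulq (n := be) (d := 10000) (by norm_num) hε0 (F.Encl.sqn hε0 e1)
  have p1 := posF_spec hε0 e2 g1
  have p2 := posF_spec hε0 (F.Encl.sub e3 e4) g2
  push_cast at p2
  constructor <;> linarith only [p2, p1]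

/-! ### hypotheses -/

theorem Dmn.of {B T ρ cl cp x y : ℝ} {q0 q1 : ℕ} (hA : RC.Adm B T ρ cl cp x y) (hcl : 0 < cl)
    (hcp : cp < 1 / 2) (hB : 2 < B) (hρ : 0 < ρ) (hlo : 1 ≤ q0 → (q0 : ℝ) / 10000 ≤ ρ - T)
    (hhi : ρ - T ≤ (q1 : ℝ) / 10000) : Dmn q0 q1 x T y ρ := by
  have e : 4 * ρ * y = 4 * (ρ * y) := by ring
  refine ⟨by linarith only [hcl, hA, hA.x0], by linarith only [hcp, hA, hA.x1], ?_, hA.y1, hρ, fun h => ?_, fun h => ?_, hlo,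
    hhi⟩
  · have h1 := hA.y0
    have h2 : 1 / (2 * B) < 1 / 4 := by
      apply one_div_lt_one_div_of_lt <;> linarith only [hB]
    linarith only [h1, h2]
  · rw [← e]
    exact hA.t h
  · rw [← e] at h
    exact hA.nz h

/-- the numbers of a slab `a ≤ xs ≤ e` -/
structure Nums (W : RWp) (B a e cl cp : ℝ) (b c m s0 q0 q1 t0 t1 yl r1 : ℕ) : Prop where
  b5 : 5 ≤ b
  hb : (b : ℝ) ≤ B
  hcl : 0 < cl
  hcp : cp < 1 / 2
  ha : 0 < a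
  he : e < 1 / 2
  hs0 : (s0 : ℝ) / 10000 ≤ W.s0
  s5 : s0 + 1 ≤ 5000
  hc : W.c1 ≤ (c : ℝ) / 10000 ∨ e + W.s1 ≤ (c : ℝ) / 10000
  c5 : c + 1 ≤ 5000
  m0 : e - W.s0 ≤ (m : ℝ) / 10000
  m1 : W.s1 - a ≤ (m : ℝ) / 10000
  m5 : m + 1 ≤ 5000
  ht0 : ((t0 : ℝ) - 1580) / 10000 ≤ W.t0
  ht1 : W.t1 ≤ ((t1 : ℝ) - 1580) / 10000
  hyl : (yl : ℝ) / 10000 ≤ 1 / 4 - 1 / (2 * b)
  hr1 : W.r1 ≤ (r1 : ℝ) / 10000
  lo : 1 ≤ q0 → (q0 : ℝ) / 10000 ≤ W.q0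
  hi : W.q1 ≤ (q1 : ℝ) / 10000

section
variable {B : ℝ} {b c m s0 q0 q1 t0 t1 yl r1 rg w ln ld jm a u1 v1 u2 v2 u1' v1' u2' v2' j xl xh
  code : ℕ} {xs s T ρ x y cl cp : ℝ}

theorem Sd.of {W : RWp} {a e : ℝ} (hN : Nums W B a e cl cp b c m s0 q0 q1 t0 t1 yl r1)
    (hW : W.In xs s T ρ) (ha : a ≤ xs) (he : xs ≤ e) (hA : RC.Adm B T ρ cl cp x y) :
    Sd B b c m s0 q0 q1 t0 t1 yl r1 xs s T ρ x y := by
  have b2 : ((5 : ℕ) : ℝ) ≤ (b : ℝ) := Nat.cast_le.mpr hN.b5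
  push_cast at b2
  have hB := hN.hb
  have hc : xs + s ≤ (c : ℝ) / 10000 := by
    rcases hN.hc with h | h
    · exact hW.c1.trans h
    · linarith only [he, h, hW, hW.s1]
  have hy : (yl : ℝ) / 10000 ≤ y := by
    have h1 := hA.y0
    have h2 : 1 / (2 * B) ≤ 1 / (2 * (b : ℝ)) := by
      apply one_div_le_one_div_of_le <;> linarith only [b2, hB]
    linarith only [h1, h2, hN, hN.hyl]
  refine ⟨hN.b5, hN.hb, by linarith only [ha, hN, hN.ha], by linarith only [he, hN, hN.he], hN.hs0.trans hW.s0, hN.s5, hc,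
    hN.c5, abs_le.mpr ⟨by linarith only [ha, hN, hW, hN.m1, hW.s1], by linarith only [he, hN, hW, hN.m0, hW.s0]⟩, hN.m5, ?_, ?_, ?_,
    ?_, hA.y0, Dmn.of hA hN.hcl hN.hcp (by linarith only [b2, hB]) hW.pos (fun h => (hN.lo h).trans hW.q0)
      (hW.q1.trans hN.hi)⟩
  · push_cast
    exact hN.ht0.trans hW.t0
  · push_cast
    exact hW.t1.trans hN.ht1
  · push_cast
    linarith only [hy]
  · push_cast
    linarith only [hN, hW, hN.hr1, hW.r1]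

/-! ### the pieces -/

theorem lam4 (hl : 0 < ld) (hb : 0 < b) (h : j * ln * 4 ≤ ld * b) : lam ln ld j * (4 / (b : ℝ)) ≤ 1 := by
  unfold lam
  have h1 : ((j * ln * 4 : ℕ) : ℝ) ≤ ((ld * b : ℕ) : ℝ) := Nat.cast_le.mpr h
  have h2 : (0 : ℝ) < ld := by exact_mod_cast hl
  have h3 : (0 : ℝ) < b := by exact_mod_cast hb
  rw [div_mul_div_comm, div_le_one (by positivity)]
  push_cast at h1 ⊢
  exact h1

theorem lam4' (hl : 0 < ld) (hb : 0 < b) (hj : j ≤ 3) (hj1 : jm = 0 → j = 1)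
    (h : 3 * ln * 4 ≤ ld * b ∨ (jm = 0 ∧ ln * 4 ≤ ld * b)) : lam ln ld j * (4 / (b : ℝ)) ≤ 1 := by
  apply lam4 hl hb
  rcases h with h | ⟨h, h'⟩
  · have : j * ln * 4 ≤ 3 * ln * 4 := Nat.mul_le_mul_right 4 (Nat.mul_le_mul_right ln hj)
    omega
  · rw [hj1 h, one_mul]
    exact h'

lemma xb {n : ℕ} (h : (n : ℝ) / 10000 ≤ x) : ((n : ℝ) - (0 : ℕ)) / (10000 : ℕ) ≤ x := by
  push_cast
  rwa [sub_zero]

lemma xb' {n : ℕ} (h : x ≤ (n : ℝ) / 10000) : x ≤ ((n : ℝ) - (0 : ℕ)) / (10000 : ℕ) := by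
  push_cast
  rwa [sub_zero]

/-- the hinge beyond its part -/
theorem pieceP (cert : okB 10000 (tP b w ln ld jm c u1 v1 u2 v2 q0 q1) 0 1580 0 0 40
      xl xh t0 t1 yl 2500 0 r1 code = true) (hl : 0 < ld)
    (h : Sd B b c m s0 q0 q1 t0 t1 yl r1 xs s T ρ x y) (hb : B = b ∨ (jm = 0 ∧ ln ≤ ld))
    (hx : (xl : ℝ) / 10000 ≤ x) (hx' : x ≤ (xh : ℝ) / 10000) :
    ∃ j, j ≤ 3 ∧ (jm = 0 → j = 1) ∧
      -lin u1 v1 u2 v2 x < Ph ((w : ℝ) / 2) (lam ln ld j) B xs (1 / 2 - s) T ρ x y := by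
  have hb5 := h.b5
  obtain ⟨j, hj, hj1, hA⟩ := okB_sound (by norm_num) (tP_ok (by omega) hl) cert (xb hx) (xb' hx')
    h.ht0 h.ht1 h.hyl (by push_cast; linarith only [h, h.D.y1])
    (by push_cast; linarith only [h, h.D.r0]) h.hr1 h.D
  refine ⟨j, hj, hj1, h.PhA ?_ hA⟩
  rcases hb with hb | ⟨h1, h2⟩
  · exact Or.inl hb
  · right
    rw [hj1 h1]
    unfold lam
    have h3 : (0 : ℝ) < ld := by exact_mod_cast hl
    rw [one_mul, div_le_one h3]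
    exact_mod_cast h2

/-- below the saddle point, `a ≤ x ≤ e` -/
theorem pieceD0 (cert : okB 10000 (tD 0 b w ln ld jm c s0 a u1 v1 u2 v2 u1' v1' u2' v2' q0 q1)
      0 1580 0 0 40 xl xh t0 t1 yl 2500 0 r1 code = true) (hl : 0 < ld)
    (h : Sd b b c m s0 q0 q1 t0 t1 yl r1 xs s T ρ x y)
    (h4 : 3 * ln * 4 ≤ ld * b ∨ (jm = 0 ∧ ln * 4 ≤ ld * b)) (ha : s0 + a + 1 ≤ 5000)
    (hx : (xl : ℝ) / 10000 ≤ x) (hx' : x ≤ (xh : ℝ) / 10000) (hxs : x ≤ xs) :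
    ∃ j, j ≤ 3 ∧ (jm = 0 → j = 1) ∧
      (-lin u1 v1 u2 v2 x < Ph ((w : ℝ) / 2) (lam ln ld j) b xs (1 / 2 - s) T ρ x y ∨
      -lin u1' v1' u2' v2' x < Ph ((w : ℝ) / 2) (lam ln ld j) b xs (1 / 2 - s) T ρ x y +
        dS xs (1 / 2 - s) T ρ x y - 2 * (lnA xs T - lnA x T)) := by
  have hb5 := h.b5
  obtain ⟨j, hj, hj1, hA⟩ := okB_sound (by norm_num) (tD_ok (by omega) hl) cert (xb hx) (xb' hx')
    h.ht0 h.ht1 h.hyl (by push_cast; linarith only [h, h.D.y1])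
    (by push_cast; linarith only [h, h.D.r0]) h.hr1 h.D
  refine ⟨j, hj, hj1, ?_⟩
  rcases hA with hA | hA
  · exact Or.inl (h.PhA (Or.inl rfl) hA)
  · exact Or.inr (h.PhB (lam4' hl (by omega) hj hj1 h4) ha hA (fun _ => hxs)
      (fun hr => absurd rfl hr) (fun _ => rfl) (fun hr => absurd rfl hr))

/-- below the saddle point, `x ≤ a` -/
theorem pieceD1 (cert : okB 10000 (tD 1 b w ln ld jm c s0 a u1 v1 u2 v2 u1' v1' u2' v2' q0 q1)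
      0 1580 0 0 40 xl xh t0 t1 yl 2500 0 r1 code = true) (hl : 0 < ld)
    (h : Sd b b c m s0 q0 q1 t0 t1 yl r1 xs s T ρ x y)
    (h4 : 3 * ln * 4 ≤ ld * b ∨ (jm = 0 ∧ ln * 4 ≤ ld * b)) (ha : s0 + a + 1 ≤ 5000)
    (hx : (xl : ℝ) / 10000 ≤ x) (hx' : x ≤ (xh : ℝ) / 10000) (hxs : (a : ℝ) / 10000 ≤ xs) :
    ∃ j, j ≤ 3 ∧ (jm = 0 → j = 1) ∧
      (-lin u1 v1 u2 v2 x < Ph ((w : ℝ) / 2) (lam ln ld j) b xs (1 / 2 - s) T ρ x y ∨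
      -lin u1' v1' u2' v2' x < Ph ((w : ℝ) / 2) (lam ln ld j) b xs (1 / 2 - s) T ρ x y +
        dS xs (1 / 2 - s) T ρ x y - 2 * (lnA xs T - lnA ((a : ℝ) / 10000) T)) := by
  have hb5 := h.b5
  obtain ⟨j, hj, hj1, hA⟩ := okB_sound (by norm_num) (tD_ok (by omega) hl) cert (xb hx) (xb' hx')
    h.ht0 h.ht1 h.hyl (by push_cast; linarith only [h, h.D.y1])
    (by push_cast; linarith only [h, h.D.r0]) h.hr1 h.D
  refine ⟨j, hj, hj1, ?_⟩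
  rcases hA with hA | hA
  · exact Or.inl (h.PhA (Or.inl rfl) hA)
  · exact Or.inr (h.PhB (lam4' hl (by omega) hj hj1 h4) ha hA (fun hr => absurd hr one_ne_zero)
      (fun _ => hxs) (fun hr => absurd hr one_ne_zero) (fun _ => rfl))

/-- above the saddle point, `a ≤ x ≤ e` -/
theorem pieceU0 (cert : okB 10000 (tU 0 b w ln ld jm c m a u1 v1 u2 v2 u1' v1' u2' v2' q0 q1)
      0 1580 0 0 40 xl xh t0 t1 yl 2500 0 r1 code = true) (hl : 0 < ld)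
    (h : Sd b b c m s0 q0 q1 t0 t1 yl r1 xs s T ρ x y)
    (h4 : 3 * ln * 4 ≤ ld * b ∨ (jm = 0 ∧ ln * 4 ≤ ld * b))
    (hx : (xl : ℝ) / 10000 ≤ x) (hx' : x ≤ (xh : ℝ) / 10000) :
    ∃ j, j ≤ 3 ∧ (jm = 0 → j = 1) ∧
      (-lin u1 v1 u2 v2 x < Ph ((w : ℝ) / 2) (lam ln ld j) b xs (1 / 2 - s) T ρ x y ∨
      -lin u1' v1' u2' v2' x < Ph ((w : ℝ) / 2) (lam ln ld j) b xs (1 / 2 - s) T ρ x y -
        dS xs (1 / 2 - s) T ρ x y - 2 * (lnA x T - lnA xs T)) := by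
  have hb5 := h.b5
  obtain ⟨j, hj, hj1, hA⟩ := okB_sound (by norm_num) (tU_ok (by omega) hl) cert (xb hx) (xb' hx')
    h.ht0 h.ht1 h.hyl (by push_cast; linarith only [h, h.D.y1])
    (by push_cast; linarith only [h, h.D.r0]) h.hr1 h.D
  refine ⟨j, hj, hj1, ?_⟩
  rcases hA with hA | hA
  · exact Or.inl (h.PhA (Or.inl rfl) hA)
  · exact Or.inr (h.PhC (lam4' hl (by omega) hj hj1 h4) hA (fun _ => rfl)
      (fun hr => absurd rfl hr))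

/-- above the saddle point, `e ≤ x` -/
theorem pieceU1 (cert : okB 10000 (tU 1 b w ln ld jm c m a u1 v1 u2 v2 u1' v1' u2' v2' q0 q1)
      0 1580 0 0 40 xl xh t0 t1 yl 2500 0 r1 code = true) (hl : 0 < ld)
    (h : Sd b b c m s0 q0 q1 t0 t1 yl r1 xs s T ρ x y)
    (h4 : 3 * ln * 4 ≤ ld * b ∨ (jm = 0 ∧ ln * 4 ≤ ld * b))
    (hx : (xl : ℝ) / 10000 ≤ x) (hx' : x ≤ (xh : ℝ) / 10000) :
    ∃ j, j ≤ 3 ∧ (jm = 0 → j = 1) ∧
      (-lin u1 v1 u2 v2 x < Ph ((w : ℝ) / 2) (lam ln ld j) b xs (1 / 2 - s) T ρ x y ∨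
      -lin u1' v1' u2' v2' x < Ph ((w : ℝ) / 2) (lam ln ld j) b xs (1 / 2 - s) T ρ x y -
        dS xs (1 / 2 - s) T ρ x y - 2 * (lnA ((a : ℝ) / 10000) T - lnA xs T)) := by
  have hb5 := h.b5
  obtain ⟨j, hj, hj1, hA⟩ := okB_sound (by norm_num) (tU_ok (by omega) hl) cert (xb hx) (xb' hx')
    h.ht0 h.ht1 h.hyl (by push_cast; linarith only [h, h.D.y1])
    (by push_cast; linarith only [h, h.D.r0]) h.hr1 h.D
  refine ⟨j, hj, hj1, ?_⟩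
  rcases hA with hA | hA
  · exact Or.inl (h.PhA (Or.inl rfl) hA)
  · exact Or.inr (h.PhC (lam4' hl (by omega) hj hj1 h4) hA (fun hr => absurd hr one_ne_zero)
      (fun _ => rfl))

end

/-! ### combination -/

theorem dn_fin {P S α β gx gs l1 l2 gz As Az : ℝ} (h : -l1 < P ∨ -l2 < P + S - 2 * (As - Az))
    (hm : gx ≤ gs) (h1 : β * (gs - gx) ≤ α - l1) (h2 : β * (gz - gx) ≤ α - l2)
    (h3 : β * (gs - gz) ≤ 2 * (As - Az)) :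
    β * |gx - gs| - α < P ∨ β * |gx - gs| - α < P + S := by
  rw [abs_of_nonpos (by linarith only [hm]), neg_sub]
  rcases h with h | h
  · left; linarith only [h1, h]
  · right; linarith only [h2, h3, h]

theorem up_fin {P S α β gx gs l1 l2 gz As Az : ℝ} (h : -l1 < P ∨ -l2 < P - S - 2 * (Az - As))
    (hm : gs ≤ gx) (h1 : β * (gx - gs) ≤ α - l1) (h2 : β * (gx - gz) ≤ α - l2)
    (h3 : β * (gz - gs) ≤ 2 * (Az - As)) :
    β * |gx - gs| - α < P ∨ β * |gx - gs| - α < P - S := by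
  rw [abs_of_nonneg (by linarith only [hm])]
  rcases h with h | h
  · left; linarith only [h1, h]
  · right; linarith only [h2, h3, h]

theorem lin0 (x : ℝ) : lin 0 0 0 0 x = 0 := by
  unfold lin
  simp

/-! ### slopes -/

theorem gU {be p G : ℕ} (h : kU be p G = true) {x y : ℝ} (hp : 0 < p)
    (hpx : (p : ℝ) / 10000 ≤ x) (hxy : x ≤ y) (hy : y ≤ 1 / 2) :
    (be : ℝ) / 10000 * (gh y - gh x) ≤ (G : ℝ) / 10000 * (y - x) := by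
  have h1 : (0 : ℝ) < p := by exact_mod_cast hp
  exact gh_up (p := (p : ℝ) / 10000) (by positivity) hpx hxy hy (kU_sound h) (by positivity)

theorem gL {be p G : ℕ} (h : kL be p G = true) {x y : ℝ} (h0 : 0 < x) (hxy : x ≤ y)
    (hyp : y ≤ (p : ℝ) / 10000) (hp : p ≤ 5000) :
    (G : ℝ) / 10000 * (y - x) ≤ (be : ℝ) / 10000 * (gh y - gh x) := by
  have h1 : (p : ℝ) ≤ ((5000 : ℕ) : ℝ) := Nat.cast_le.mpr hp
  push_cast at h1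
  exact gh_lo (p := (p : ℝ) / 10000) h0 hxy hyp (by linarith only [h1]) (kL_sound h) (by positivity)

theorem gS {be a e t : ℕ} (h : kC be a e t = true) {u v T : ℝ} (ha : 0 < a) (he : e ≤ 5000)
    (hau : (a : ℝ) / 10000 ≤ u) (huv : u ≤ v) (hve : v ≤ (e : ℝ) / 10000)
    (hT : |T| ≤ (t : ℝ) / 10000) :
    (be : ℝ) / 10000 * (gh v - gh u) ≤ 2 * (lnA v T - lnA u T) := by
  have h1 : (e : ℝ) ≤ ((5000 : ℕ) : ℝ) := Nat.cast_le.mpr he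
  have h2 : (0 : ℝ) < a := by exact_mod_cast ha
  push_cast at h1
  obtain ⟨c1, c2⟩ := kC_sound h
  exact side_gauge (a := (a : ℝ) / 10000) (e := (e : ℝ) / 10000) (by positivity) (by linarith only [h1])
    hau huv hve hT (by positivity) c1 c2

/-! ### interior rings: `w = 1`, `lam = ln / ld` -/

section
variable {B L : ℝ} {b c m s0 q0 q1 t0 t1 yl r1 ln ld a u1 v1 u2 v2 u1' v1' u2' v2' xl xh
  code : ℕ} {xs s T ρ x y : ℝ}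

theorem half1 : (((1 : ℕ) : ℝ) / 2) = 1 / 2 := by norm_num

theorem piP (cert : okB 10000 (tP b 1 ln ld 0 c u1 v1 u2 v2 q0 q1) 0 1580 0 0 40
      xl xh t0 t1 yl 2500 0 r1 code = true) (hl : 0 < ld) (hL : lam ln ld 1 = L)
    (h : Sd B b c m s0 q0 q1 t0 t1 yl r1 xs s T ρ x y) (hb : B = b ∨ ln ≤ ld)
    (hx : (xl : ℝ) / 10000 ≤ x) (hx' : x ≤ (xh : ℝ) / 10000) :
    -lin u1 v1 u2 v2 x < Ph (1 / 2) L B xs (1 / 2 - s) T ρ x y := by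
  obtain ⟨j, -, hj, hp⟩ := pieceP cert hl h (hb.imp id (fun h => ⟨rfl, h⟩)) hx hx'
  rw [hj rfl, hL, half1] at hp
  exact hp

theorem piD0 (cert : okB 10000 (tD 0 b 1 ln ld 0 c s0 a u1 v1 u2 v2 u1' v1' u2' v2' q0 q1)
      0 1580 0 0 40 xl xh t0 t1 yl 2500 0 r1 code = true) (hl : 0 < ld) (hL : lam ln ld 1 = L)
    (h : Sd b b c m s0 q0 q1 t0 t1 yl r1 xs s T ρ x y)
    (h4 : ln * 4 ≤ ld * b) (ha : s0 + a + 1 ≤ 5000)
    (hx : (xl : ℝ) / 10000 ≤ x) (hx' : x ≤ (xh : ℝ) / 10000) (hxs : x ≤ xs) :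
    -lin u1 v1 u2 v2 x < Ph (1 / 2) L b xs (1 / 2 - s) T ρ x y ∨
      -lin u1' v1' u2' v2' x < Ph (1 / 2) L b xs (1 / 2 - s) T ρ x y +
        dS xs (1 / 2 - s) T ρ x y - 2 * (lnA xs T - lnA x T) := by
  obtain ⟨j, -, hj, hp⟩ := pieceD0 cert hl h (Or.inr ⟨rfl, h4⟩) ha hx hx' hxs
  rw [hj rfl, hL, half1] at hp
  exact hp

theorem piD1 (cert : okB 10000 (tD 1 b 1 ln ld 0 c s0 a u1 v1 u2 v2 u1' v1' u2' v2' q0 q1)
      0 1580 0 0 40 xl xh t0 t1 yl 2500 0 r1 code = true) (hl : 0 < ld) (hL : lam ln ld 1 = L)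
    (h : Sd b b c m s0 q0 q1 t0 t1 yl r1 xs s T ρ x y)
    (h4 : ln * 4 ≤ ld * b) (ha : s0 + a + 1 ≤ 5000)
    (hx : (xl : ℝ) / 10000 ≤ x) (hx' : x ≤ (xh : ℝ) / 10000) (hxs : (a : ℝ) / 10000 ≤ xs) :
    -lin u1 v1 u2 v2 x < Ph (1 / 2) L b xs (1 / 2 - s) T ρ x y ∨
      -lin u1' v1' u2' v2' x < Ph (1 / 2) L b xs (1 / 2 - s) T ρ x y +
        dS xs (1 / 2 - s) T ρ x y - 2 * (lnA xs T - lnA ((a : ℝ) / 10000) T) := by
  obtain ⟨j, -, hj, hp⟩ := pieceD1 cert hl h (Or.inr ⟨rfl, h4⟩) ha hx hx' hxs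
  rw [hj rfl, hL, half1] at hp
  exact hp

theorem piU0 (cert : okB 10000 (tU 0 b 1 ln ld 0 c m a u1 v1 u2 v2 u1' v1' u2' v2' q0 q1)
      0 1580 0 0 40 xl xh t0 t1 yl 2500 0 r1 code = true) (hl : 0 < ld) (hL : lam ln ld 1 = L)
    (h : Sd b b c m s0 q0 q1 t0 t1 yl r1 xs s T ρ x y)
    (h4 : ln * 4 ≤ ld * b)
    (hx : (xl : ℝ) / 10000 ≤ x) (hx' : x ≤ (xh : ℝ) / 10000) :
    -lin u1 v1 u2 v2 x < Ph (1 / 2) L b xs (1 / 2 - s) T ρ x y ∨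
      -lin u1' v1' u2' v2' x < Ph (1 / 2) L b xs (1 / 2 - s) T ρ x y -
        dS xs (1 / 2 - s) T ρ x y - 2 * (lnA x T - lnA xs T) := by
  obtain ⟨j, -, hj, hp⟩ := pieceU0 cert hl h (Or.inr ⟨rfl, h4⟩) hx hx'
  rw [hj rfl, hL, half1] at hp
  exact hp

theorem piU1 (cert : okB 10000 (tU 1 b 1 ln ld 0 c m a u1 v1 u2 v2 u1' v1' u2' v2' q0 q1)
      0 1580 0 0 40 xl xh t0 t1 yl 2500 0 r1 code = true) (hl : 0 < ld) (hL : lam ln ld 1 = L)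
    (h : Sd b b c m s0 q0 q1 t0 t1 yl r1 xs s T ρ x y)
    (h4 : ln * 4 ≤ ld * b)
    (hx : (xl : ℝ) / 10000 ≤ x) (hx' : x ≤ (xh : ℝ) / 10000) :
    -lin u1 v1 u2 v2 x < Ph (1 / 2) L b xs (1 / 2 - s) T ρ x y ∨
      -lin u1' v1' u2' v2' x < Ph (1 / 2) L b xs (1 / 2 - s) T ρ x y -
        dS xs (1 / 2 - s) T ρ x y - 2 * (lnA ((a : ℝ) / 10000) T - lnA xs T) := by
  obtain ⟨j, -, hj, hp⟩ := pieceU1 cert hl h (Or.inr ⟨rfl, h4⟩) hx hx'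
  rw [hj rfl, hL, half1] at hp
  exact hp

/-! ### rings at an end: `w = 2`, no linear term -/

theorem half2 : (((2 : ℕ) : ℝ) / 2) = 1 := by norm_num

variable {jm : ℕ}

theorem eP (cert : okB 10000 (tP b 2 ln ld jm c 0 0 0 0 q0 q1) 0 1580 0 0 40
      xl xh t0 t1 yl 2500 0 r1 code = true) (hl : 0 < ld)
    (h : Sd B b c m s0 q0 q1 t0 t1 yl r1 xs s T ρ x y) (hb : B = b ∨ (jm = 0 ∧ ln ≤ ld))
    (hx : (xl : ℝ) / 10000 ≤ x) (hx' : x ≤ (xh : ℝ) / 10000) :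
    ∃ l, 0 < Ph 1 l B xs (1 / 2 - s) T ρ x y := by
  obtain ⟨j, -, hj, hp⟩ := pieceP cert hl h hb hx hx'
  rw [lin0, neg_zero, half2] at hp
  exact ⟨_, hp⟩

theorem eD0 (cert : okB 10000 (tD 0 b 2 ln ld jm c s0 a 0 0 0 0 0 0 0 0 q0 q1)
      0 1580 0 0 40 xl xh t0 t1 yl 2500 0 r1 code = true) (hl : 0 < ld)
    (h : Sd b b c m s0 q0 q1 t0 t1 yl r1 xs s T ρ x y)
    (h4 : 3 * ln * 4 ≤ ld * b) (ha : s0 + a + 1 ≤ 5000)
    (hx : (xl : ℝ) / 10000 ≤ x) (hx' : x ≤ (xh : ℝ) / 10000) (hxs : x ≤ xs) :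
    ∃ l, 0 < Ph 1 l b xs (1 / 2 - s) T ρ x y ∨
      0 < Ph 1 l b xs (1 / 2 - s) T ρ x y + dS xs (1 / 2 - s) T ρ x y := by
  obtain ⟨j, -, hj, hp⟩ := pieceD0 cert hl h (Or.inl h4) ha hx hx' hxs
  rw [lin0, neg_zero, half2] at hp
  refine ⟨_, hp.imp id fun hp => ?_⟩
  have := lnA_mono (t := T) h.D.x0 hxs h.xs1.le
  linarith only [hp, this]

theorem eD1 (cert : okB 10000 (tD 1 b 2 ln ld jm c s0 a 0 0 0 0 0 0 0 0 q0 q1)
      0 1580 0 0 40 xl xh t0 t1 yl 2500 0 r1 code = true) (hl : 0 < ld)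
    (h : Sd b b c m s0 q0 q1 t0 t1 yl r1 xs s T ρ x y)
    (h4 : 3 * ln * 4 ≤ ld * b) (ha : s0 + a + 1 ≤ 5000) (ha0 : 0 < a)
    (hx : (xl : ℝ) / 10000 ≤ x) (hx' : x ≤ (xh : ℝ) / 10000) (hxs : (a : ℝ) / 10000 ≤ xs) :
    ∃ l, 0 < Ph 1 l b xs (1 / 2 - s) T ρ x y ∨
      0 < Ph 1 l b xs (1 / 2 - s) T ρ x y + dS xs (1 / 2 - s) T ρ x y := by
  obtain ⟨j, -, hj, hp⟩ := pieceD1 cert hl h (Or.inl h4) ha hx hx' hxs
  rw [lin0, neg_zero, half2] at hp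
  refine ⟨_, hp.imp id fun hp => ?_⟩
  have h1 : (0 : ℝ) < a := by exact_mod_cast ha0
  have := lnA_mono (t := T) (show (0 : ℝ) < (a : ℝ) / 10000 by positivity) hxs h.xs1.le
  linarith only [hp, this]

theorem eU0 (cert : okB 10000 (tU 0 b 2 ln ld jm c m a 0 0 0 0 0 0 0 0 q0 q1)
      0 1580 0 0 40 xl xh t0 t1 yl 2500 0 r1 code = true) (hl : 0 < ld)
    (h : Sd b b c m s0 q0 q1 t0 t1 yl r1 xs s T ρ x y)
    (h4 : 3 * ln * 4 ≤ ld * b)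
    (hx : (xl : ℝ) / 10000 ≤ x) (hx' : x ≤ (xh : ℝ) / 10000) (hxs : xs ≤ x) :
    ∃ l, 0 < Ph 1 l b xs (1 / 2 - s) T ρ x y ∨
      0 < Ph 1 l b xs (1 / 2 - s) T ρ x y - dS xs (1 / 2 - s) T ρ x y := by
  obtain ⟨j, -, hj, hp⟩ := pieceU0 cert hl h (Or.inl h4) hx hx'
  rw [lin0, neg_zero, half2] at hp
  refine ⟨_, hp.imp id fun hp => ?_⟩
  have := lnA_mono (t := T) h.xs0 hxs h.D.x1.le
  linarith only [hp, this]

theorem eU1 (cert : okB 10000 (tU 1 b 2 ln ld jm c m a 0 0 0 0 0 0 0 0 q0 q1)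
      0 1580 0 0 40 xl xh t0 t1 yl 2500 0 r1 code = true) (hl : 0 < ld)
    (h : Sd b b c m s0 q0 q1 t0 t1 yl r1 xs s T ρ x y)
    (h4 : 3 * ln * 4 ≤ ld * b) (ha : a ≤ 5000)
    (hx : (xl : ℝ) / 10000 ≤ x) (hx' : x ≤ (xh : ℝ) / 10000) (hxs : xs ≤ (a : ℝ) / 10000) :
    ∃ l, 0 < Ph 1 l b xs (1 / 2 - s) T ρ x y ∨
      0 < Ph 1 l b xs (1 / 2 - s) T ρ x y - dS xs (1 / 2 - s) T ρ x y := by
  obtain ⟨j, -, hj, hp⟩ := pieceU1 cert hl h (Or.inl h4) hx hx'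
  rw [lin0, neg_zero, half2] at hp
  refine ⟨_, hp.imp id fun hp => ?_⟩
  have h1 : (a : ℝ) ≤ ((5000 : ℕ) : ℝ) := Nat.cast_le.mpr ha
  push_cast at h1
  have := lnA_mono (t := T) h.xs0 hxs (show (a : ℝ) / 10000 ≤ 1 / 2 by linarith only [h1])
  linarith only [hp, this]

end

end RQ

end Pool.Agent.Work.MP_b30479_gt.G2
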