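import Pool.Agent.Work.MP_b30479_gt.G2.RZL

/-!
# Right ramp of a hinge `1 | ring`: kernel evaluation on a box

Variables `x`, `T`, `s` (ramp) or `y = -σ` (flat part), `ρ`; `m = T / (29/100)`, `k = m (65/100 - x)`.
-/

namespace Pool.Agent.Work.MP_b30479_gt.G2

open VOL NumI

namespace RZ1

open LR

/-! ### ramp: real functions -/

noncomputable def Sr (x m k s ρ : ℝ) : ℝ :=
  lnA (x + s) (4 * ρ * s - k) + lnA (x - s) (4 * ρ * s + k) - 2 * lnA x k +
    m * (lnB (x - s) (4 * ρ * s + k) - lnB (x + s) (4 * ρ * s - k) - (Real.pi + 2 * lnB x k))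

noncomputable def Fr (b1 b4 x k s ρ : ℝ) : ℝ :=
  lnA (x + s) (4 * ρ * s - k) - lnA (x - s) (4 * ρ * s + k) +
    4 * ρ * (Real.pi * (b1 - b4 * s) - (lnB (x + s) (4 * ρ * s - k) + lnB (x - s) (4 * ρ * s + k)))

noncomputable def Gr (b1 b4 x k s ρ : ℝ) : ℝ :=
  Real.pi * (b1 - b4 * s) - (lnB (x + s) (4 * ρ * s - k) + lnB (x - s) (4 * ρ * s + k)) -
    108 / 100 * (Real.pi * s * (Real.sinh (2 * (Real.pi * k)) * (Real.sin (Real.pi * (x + s)) ^ 2)⁻¹))

/-! ### ramp: leaves -/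

def kM (T : F) : F := F.mulq 100 29 T
def kK (X M : F) : F := M.mul ((F.rat 65 100).sub X)

/-- `au bu av bv` -/
def gR (ux ut vx vt : F) (C : F → F → F → F → Option F) : Option F :=
  o0 (fun au => o0 (fun bu => o0 (fun av => o0 (fun bv => C au bu av bv)
    (F.lnB vx vt)) (F.lnA vx vt)) (F.lnB ux ut)) (F.lnA ux ut)

/-- the side -/
def sR (X M K au bu av bv : F) (C : F → Option F) : Option F :=
  o0 (fun aw => o0 (fun bw => C (((au.add av).sub (aw.add aw)).add
    (M.mul ((bv.sub bu).sub (F.pi.add (bw.add bw)))))) (F.lnB X K)) (F.lnA X K)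

/-- rows with the first order condition -/
def lR (b1 b4 j : ℕ) (B X S R M K : F) : Bool :=
  let r4 := F.mulq 4 1 R
  let eta := r4.mul S
  let ux := X.add S
  posO' (gR ux (eta.sub K) (X.sub S) (eta.add K) (fun au bu av bv =>
    cond (Nat.beq j 61)
      (o0 (fun sh => o0 (fun iv => some (((F.pi.mul ((F.rat b1 1).sub (F.mulq b4 1 S))).sub
        (bu.add bv)).sub (F.mulq 108 100 ((F.pi.mul S).mul (sh.mul iv))))) (F.inv ux.sinPi.sqn))
        (F.hyp false (F.mulq 2 1 (F.pi.mul K))))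
      (cond (Nat.beq j 62)
        (some ((au.sub av).add (r4.mul ((F.pi.mul ((F.rat b1 1).sub (F.mulq b4 1 S))).sub
          (bu.add bv)))))
        (sR X M K au bu av bv (fun S4 => some (((S4.add B).neg).add (F.mulq (Nat.div j 2) 10
          ((au.sub av).add (r4.mul ((F.pi.mul ((F.rat b1 1).sub (F.mulq b4 1 S))).sub
            (bu.add bv)))))))))))

/-- rows without the first order condition -/
def lR3 (B X S R M K : F) : Bool :=
  let eta := (F.mulq 4 1 R).mul S
  posO' (gR (X.add S) (eta.sub K) (X.sub S) (eta.add K) (fun au bu av bv =>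
    sR X M K au bu av bv (fun S4 => some ((S4.add B).neg))))

lemma negE {a : F} {ε : ℕ → ℝ} {x : ℝ} (h : a.Encl ε x) : a.neg.Encl ε (-x) := by
  rw [F.Encl_iff] at h ⊢
  unfold F.neg
  simp only
  have e : -x * DR - ((a.q : ℝ) - a.p + (((a.b0 : ℝ) - a.a0) * ε 0 + (((a.b1 : ℝ) - a.a1) * ε 1 +
      (((a.b2 : ℝ) - a.a2) * ε 2 + ((a.b3 : ℝ) - a.a3) * ε 3)))) =
      -(x * DR - ((a.p : ℝ) - a.q + (((a.a0 : ℝ) - a.b0) * ε 0 + (((a.a1 : ℝ) - a.b1) * ε 1 +
      (((a.a2 : ℝ) - a.b2) * ε 2 + ((a.a3 : ℝ) - a.b3) * ε 3))))) := by ring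
  rw [e, abs_neg]
  exact h

lemma posO_some {x : Option F} (h : posO' x = true) : ∃ g, x = some g ∧ posF g = true := by
  rcases x with _ | g
  · exact absurd h (by simp [posO'])
  · exact ⟨g, rfl, h⟩

lemma gR_some {ux ut vx vt c : F} {C : F → F → F → F → Option F} {ε : ℕ → ℝ} {a b a' b' : ℝ}
    (hε : ∀ i, |ε i| ≤ 1) (h1 : ux.Encl ε a) (h2 : ut.Encl ε b) (h3 : vx.Encl ε a')
    (h4 : vt.Encl ε b') (h : gR ux ut vx vt C = some c) : ∃ au bu av bv,
      au.Encl ε (lnA a b) ∧ bu.Encl ε (lnB a b) ∧ av.Encl ε (lnA a' b') ∧ bv.Encl ε (lnB a' b') ∧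
      C au bu av bv = some c := by
  obtain ⟨au, hau, h⟩ := o0_some h
  obtain ⟨bu, hbu, h⟩ := o0_some h
  obtain ⟨av, hav, h⟩ := o0_some h
  obtain ⟨bv, hbv, h⟩ := o0_some h
  exact ⟨au, bu, av, bv, F.Encl.lnA hε h1 h2 hau, F.Encl.lnB hε h1 h2 hbu,
    F.Encl.lnA hε h3 h4 hav, F.Encl.lnB hε h3 h4 hbv, h⟩

lemma sR_some {X M K au bu av bv c : F} {C : F → Option F} {ε : ℕ → ℝ} {x m k a b a' b' : ℝ}
    (hε : ∀ i, |ε i| ≤ 1) (hX : X.Encl ε x) (hM : M.Encl ε m) (hK : K.Encl ε k)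
    (h1 : au.Encl ε a) (h2 : bu.Encl ε b) (h3 : av.Encl ε a') (h4 : bv.Encl ε b')
    (h : sR X M K au bu av bv C = some c) : ∃ S4 : F, S4.Encl ε (a + a' - 2 * lnA x k +
      m * (b' - b - (Real.pi + 2 * lnB x k))) ∧ C S4 = some c := by
  obtain ⟨aw, haw, h⟩ := o0_some h
  obtain ⟨bw, hbw, h⟩ := o0_some h
  have eaw := F.Encl.lnA hε hX hK haw
  have ebw := F.Encl.lnB hε hX hK hbw
  refine ⟨_, ?_, h⟩
  have := F.Encl.add (F.Encl.sub (F.Encl.add h1 h3) (F.Encl.add eaw eaw)) (F.Encl.mul hε hM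
    (F.Encl.sub (F.Encl.sub h4 h2) (F.Encl.add (F.Encl.pi ε) (F.Encl.add ebw ebw))))
  rw [← two_mul, ← two_mul] at this
  exact this

lemma enc4 {R : F} {ε : ℕ → ℝ} {ρ : ℝ} (hε : ∀ i, |ε i| ≤ 1) (hR : R.Encl ε ρ) :
    (F.mulq 4 1 R).Encl ε (4 * ρ) := by
  have := F.Encl.mulq (n := 4) (d := 1) (by norm_num) hε hR
  push_cast at this
  rwa [div_one] at this

theorem lR_sound {b1 b4 j : ℕ} {B X S R M K : F} {ε : ℕ → ℝ} {β x s ρ m k : ℝ}
    (hε : ∀ i, |ε i| ≤ 1) (hB : B.Encl ε β) (hX : X.Encl ε x) (hS : S.Encl ε s) (hR : R.Encl ε ρ)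
    (hM : M.Encl ε m) (hK : K.Encl ε k) (h : lR b1 b4 j B X S R M K = true)
    (hF : Fr b1 b4 x k s ρ ≤ 0) (hG : Gr b1 b4 x k s ρ ≤ 0) : Sr x m k s ρ < -β := by
  have k4 := enc4 hε hR
  have kE := F.Encl.mul hε k4 hS
  have kux := F.Encl.add hX hS
  have kvx := F.Encl.sub hX hS
  have kut := F.Encl.sub kE hK
  have kvt := F.Encl.add kE hK
  have kb : ((F.rat b1 1).sub (F.mulq b4 1 S)).Encl ε (b1 - b4 * s) :=
    F.Encl.sub (rat1 b1 ε) (mulq1 hε hS)
  obtain ⟨g, hg, hpos⟩ := posO_some h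
  obtain ⟨au, bu, av, bv, eau, ebu, eav, ebv, h1⟩ := gR_some hε kux kut kvx kvt hg
  have kP := F.Encl.sub (F.Encl.mul hε (F.Encl.pi ε) kb) (F.Encl.add ebu ebv)
  have kF := F.Encl.add (F.Encl.sub eau eav) (F.Encl.mul hε k4 kP)
  rcases hj : Nat.beq j 61 with _ | _
  · rw [hj, cond_false] at h1
    rcases hj2 : Nat.beq j 62 with _ | _
    · rw [hj2, cond_false] at h1
      obtain ⟨S4, eS, h1⟩ := sR_some hε hX hM hK eau ebu eav ebv h1
      have kD := F.Encl.add (negE (F.Encl.add eS hB))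
        (F.Encl.mulq (n := Nat.div j 2) (d := 10) (by norm_num) hε kF)
      have hp := posF_spec hε kD (by rw [← Option.some.inj h1] at hpos; exact hpos)
      have hj0 : (0 : ℝ) ≤ ((Nat.div j 2 : ℕ) : ℝ) / (10 : ℕ) := by positivity
      have := mul_nonpos_of_nonneg_of_nonpos hj0 hF
      unfold Fr at this
      unfold Sr
      linarith only [hp, this]
    · rw [hj2, cond_true] at h1
      have hp := posF_spec hε kF (by rw [← Option.some.inj h1] at hpos; exact hpos)
      unfold Fr at hF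
      linarith only [hF, hp]
  · rw [hj, cond_true] at h1
    obtain ⟨sh, hsh, h1⟩ := o0_some h1
    obtain ⟨iv, hiv, h1⟩ := o0_some h1
    have k2 : (F.mulq 2 1 (F.pi.mul K)).Encl ε (2 * (Real.pi * k)) := by
      have := mulq1 (n := 2) hε (F.Encl.mul hε (F.Encl.pi ε) hK)
      push_cast at this
      exact this
    have esh := F.Encl.sinh hε k2 hsh
    have eiv := F.Encl.inv hε (F.Encl.sqn hε (F.Encl.sinPi hε kux)) hiv
    have kG := F.Encl.sub kP (F.Encl.mulq (n := 108) (d := 100) (by norm_num) hε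
      (F.Encl.mul hε (F.Encl.mul hε (F.Encl.pi ε) hS) (F.Encl.mul hε esh eiv)))
    have hp := posF_spec hε kG (by rw [← Option.some.inj h1] at hpos; exact hpos)
    push_cast at hp
    unfold Gr at hG
    linarith only [hG, hp]

theorem lR3_sound {B X S R M K : F} {ε : ℕ → ℝ} {β x s ρ m k : ℝ}
    (hε : ∀ i, |ε i| ≤ 1) (hB : B.Encl ε β) (hX : X.Encl ε x) (hS : S.Encl ε s) (hR : R.Encl ε ρ)
    (hM : M.Encl ε m) (hK : K.Encl ε k) (h : lR3 B X S R M K = true) : Sr x m k s ρ < -β := by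
  have k4 := enc4 hε hR
  have kE := F.Encl.mul hε k4 hS
  have kux := F.Encl.add hX hS
  have kvx := F.Encl.sub hX hS
  have kut := F.Encl.sub kE hK
  have kvt := F.Encl.add kE hK
  obtain ⟨g, hg, hpos⟩ := posO_some h
  obtain ⟨au, bu, av, bv, eau, ebu, eav, ebv, h1⟩ := gR_some hε kux kut kvx kvt hg
  obtain ⟨S4, eS, h1⟩ := sR_some hε hX hM hK eau ebu eav ebv h1
  have hp := posF_spec hε (negE (F.Encl.add eS hB)) (by rw [← Option.some.inj h1] at hpos; exact hpos)
  unfold Sr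
  linarith only [hp]

/-! ### flat part -/

/-- `1/2 log`, `arctan` of the general form -/
def sv (c t : F) (C : F → F → Option F) : Option F :=
  o0 (fun sh => o0 (fun ch => o0 (fun l => o0 (fun iv => o0 (fun at' => C (F.mulq 1 2 l) at')
    (F.atan ((c.sinPi.mul ch).mul iv))) (F.inv (c.cosPi.mul sh)))
      (F.log (F.mulq 4 1 (c.sinPi.sqn.add sh.sqn)))) (F.hyp true (F.pi.mul t)))
      (F.hyp false (F.pi.mul t))

lemma sv_some {c t g : F} {C : F → F → Option F} {ε : ℕ → ℝ} {a b : ℝ}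
    (hε : ∀ i, |ε i| ≤ 1) (h1 : c.Encl ε a) (h2 : t.Encl ε b) (h : sv c t C = some g) :
    ∃ la at', la.Encl ε (lnA a b) ∧ at'.Encl ε (Real.arctan (Real.sin (Real.pi * a) *
      Real.cosh (Real.pi * b) * (Real.cos (Real.pi * a) * Real.sinh (Real.pi * b))⁻¹)) ∧
      C la at' = some g := by
  obtain ⟨sh, hsh, h⟩ := o0_some h
  obtain ⟨ch, hch, h⟩ := o0_some h
  obtain ⟨l, hl, h⟩ := o0_some h
  obtain ⟨iv, hiv, h⟩ := o0_some h
  obtain ⟨at', hat, h⟩ := o0_some h
  have k1 := F.Encl.sinh hε (F.Encl.mul hε (F.Encl.pi ε) h2) hsh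
  have k2 := F.Encl.cosh hε (F.Encl.mul hε (F.Encl.pi ε) h2) hch
  have k3 := F.Encl.inv hε (F.Encl.mul hε (F.Encl.cosPi hε h1) k1) hiv
  have k4 := F.Encl.mulq (n := 1) (d := 2) (by norm_num) hε (F.Encl.log hε
    (F.Encl.mulq (n := 4) (d := 1) (by norm_num) hε
      (F.Encl.add (F.Encl.sqn hε (F.Encl.sinPi hε h1)) (F.Encl.sqn hε k1))) hl)
  refine ⟨_, _, ?_, F.Encl.atan hε (F.Encl.mul hε
    (F.Encl.mul hε (F.Encl.sinPi hε h1) k2) k3) hat, h⟩
  push_cast at k4
  rw [div_one, one_div_mul_eq_div] at k4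
  exact k4

/-- forms of `u = 1 + c + i e` -/
def uf (f : ℕ) (c e : F) (C : F → F → Option F) : Option F :=
  cond (Nat.beq f 0)
    (cond (posF c.neg) (o0 (fun p => o0 (fun q => C p q) (F.lnB c.neg e)) (F.lnA c.neg e)) none)
    (cond (Nat.beq f 1)
      (cond (posF e) (sv c e (fun p q => C p ((F.mulq 1 2 F.pi).add q))) none)
      (cond (Nat.beq f 2)
        (cond (posF e.neg) (sv c e.neg (fun p q => C p ((F.mulq 1 2 F.pi).add q).neg)) none)
        (cond (posF c) (o0 (fun p => o0 (fun q => C p (F.pi.sub q)) (F.lnB c e)) (F.lnA c e)) none)))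

/-- forms of `v = 1 + c - i t`, `t > 0` -/
def vf (f : ℕ) (c t : F) (C : F → F → Option F) : Option F :=
  cond (Nat.beq f 0)
    (cond (posF t) (sv c t (fun p q => C p ((F.mulq 1 2 F.pi).add q).neg)) none)
    (cond (Nat.beq f 1)
      (cond (posF c) (o0 (fun p => o0 (fun q => C p (q.sub F.pi)) (F.lnB c t)) (F.lnA c t)) none)
      (cond (posF c.neg) (o0 (fun p => o0 (fun q => C p q.neg) (F.lnB c.neg t)) (F.lnA c.neg t))
        none))

lemma uf_some {f : ℕ} {c e g : F} {C : F → F → Option F} {ε : ℕ → ℝ} {γ η : ℝ}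
    (hε : ∀ i, |ε i| ≤ 1) (h1 : c.Encl ε γ) (h2 : e.Encl ε η) (hl : -(1 / 2) < γ) (hr : γ < 1 / 2)
    (h : uf f c e C = some g) : ∃ la yy, ∃ a b : ℝ, la.Encl ε a ∧ yy.Encl ε b ∧
      LL ⟨1 + γ, η⟩ ≤ a ∧ YY ⟨1 + γ, η⟩ ≤ b ∧ C la yy = some g := by
  have hpi : (F.mulq 1 2 F.pi).Encl ε ((1 : ℕ) / (2 : ℕ) * Real.pi) :=
    F.Encl.mulq (by norm_num) hε (F.Encl.pi ε)
  unfold uf at h
  rcases h0 : Nat.beq f 0 with _ | _
  · rw [h0, cond_false] at h
    rcases h1' : Nat.beq f 1 with _ | _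
    · rw [h1', cond_false] at h
      rcases h2' : Nat.beq f 2 with _ | _
      · rw [h2', cond_false] at h
        rcases h3 : posF c with _ | _
        · rw [h3, cond_false] at h
          exact absurd h (by simp)
        · rw [h3, cond_true] at h
          have hc := posF_spec hε h1 h3
          obtain ⟨p, hp, h⟩ := o0_some h
          obtain ⟨q, hq, h⟩ := o0_some h
          exact ⟨_, _, _, _, F.Encl.lnA hε h1 h2 hp, F.Encl.sub (F.Encl.pi ε)
            (F.Encl.lnB hε h1 h2 hq), (LL_near γ η).le, YY_top hc (by linarith only [hr, hc]), h⟩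
      · rw [h2', cond_true] at h
        rcases h3 : posF e.neg with _ | _
        · rw [h3, cond_false] at h
          exact absurd h (by simp)
        · rw [h3, cond_true] at h
          have he := posF_spec hε (negE h2) h3
          obtain ⟨p, q, ep, eq', h⟩ := sv_some hε h1 (negE h2) h
          refine ⟨_, _, _, _, ep, negE (F.Encl.add hpi eq'), ?_, ?_, h⟩
          · rw [LL_near, lnA_neg]
          · have e1 : (⟨1 + γ, η⟩ : ℂ) = ⟨1 + γ, -(-η)⟩ := by rw [neg_neg]
            rw [e1, YY_mid hl hr he]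
    · rw [h1', cond_true] at h
      rcases h3 : posF e with _ | _
      · rw [h3, cond_false] at h
        exact absurd h (by simp)
      · rw [h3, cond_true] at h
        have he := posF_spec hε h2 h3
        obtain ⟨p, q, ep, eq', h⟩ := sv_some hε h1 h2 h
        exact ⟨_, _, _, _, ep, F.Encl.add hpi eq', (LL_near γ η).le, (YY_up hl hr he).le, h⟩
  · rw [h0, cond_true] at h
    rcases h3 : posF c.neg with _ | _
    · rw [h3, cond_false] at h
      exact absurd h (by simp)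
    · rw [h3, cond_true] at h
      have hc := posF_spec hε (negE h1) h3
      obtain ⟨p, hp, h⟩ := o0_some h
      obtain ⟨q, hq, h⟩ := o0_some h
      exact ⟨_, _, _, _, F.Encl.lnA hε (negE h1) h2 hp, F.Encl.lnB hε (negE h1) h2 hq,
        (LL_near_neg γ η).le, (YY_left (by linarith only [hc]) (by linarith only [hl, hc])).le, h⟩

lemma vf_some {f : ℕ} {c t g : F} {C : F → F → Option F} {ε : ℕ → ℝ} {γ τ : ℝ}
    (hε : ∀ i, |ε i| ≤ 1) (h1 : c.Encl ε γ) (h2 : t.Encl ε τ) (hl : -(1 / 2) < γ) (hr : γ < 1 / 2)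
    (hτ : 0 < τ) (h : vf f c t C = some g) : ∃ la yy, ∃ a b : ℝ, la.Encl ε a ∧ yy.Encl ε b ∧
      LL ⟨1 + γ, -τ⟩ ≤ a ∧ YY ⟨1 + γ, -τ⟩ ≤ b ∧ C la yy = some g := by
  have hpi : (F.mulq 1 2 F.pi).Encl ε ((1 : ℕ) / (2 : ℕ) * Real.pi) :=
    F.Encl.mulq (by norm_num) hε (F.Encl.pi ε)
  unfold vf at h
  rcases h0 : Nat.beq f 0 with _ | _
  · rw [h0, cond_false] at h
    rcases h1' : Nat.beq f 1 with _ | _
    · rw [h1', cond_false] at h
      rcases h3 : posF c.neg with _ | _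
      · rw [h3, cond_false] at h
        exact absurd h (by simp)
      · rw [h3, cond_true] at h
        have hc := posF_spec hε (negE h1) h3
        obtain ⟨p, hp, h⟩ := o0_some h
        obtain ⟨q, hq, h⟩ := o0_some h
        refine ⟨_, _, _, _, F.Encl.lnA hε (negE h1) h2 hp, negE (F.Encl.lnB hε (negE h1) h2 hq),
          ?_, ?_, h⟩
        · rw [LL_near_neg, lnA_neg]
        · rw [YY_left (by linarith only [hc]) (by linarith only [hl, hc]), lnB_neg]
    · rw [h1', cond_true] at h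
      rcases h3 : posF c with _ | _
      · rw [h3, cond_false] at h
        exact absurd h (by simp)
      · rw [h3, cond_true] at h
        have hc := posF_spec hε h1 h3
        obtain ⟨p, hp, h⟩ := o0_some h
        obtain ⟨q, hq, h⟩ := o0_some h
        exact ⟨_, _, _, _, F.Encl.lnA hε h1 h2 hp, F.Encl.sub (F.Encl.lnB hε h1 h2 hq)
          (F.Encl.pi ε), (LL_near' γ τ).le, (YY_right hc (by linarith only [hr, hc]) hτ).le, h⟩
  · rw [h0, cond_true] at h
    rcases h3 : posF t with _ | _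
    · rw [h3, cond_false] at h
      exact absurd h (by simp)
    · rw [h3, cond_true] at h
      obtain ⟨p, q, ep, eq', h⟩ := sv_some hε h1 h2 h
      exact ⟨_, _, _, _, ep, negE (F.Encl.add hpi eq'), (LL_near' γ τ).le,
        (YY_mid hl hr hτ).le, h⟩

/-- the side from `LL u`, `YY u`, `LL v`, `YY v` -/
def cF (M aw bw au yu av yv B : F) : F :=
  ((((au.add av).sub (aw.add aw)).add (M.mul ((yu.add yv).sub (bw.add bw)))).add B).neg

/-- leaf of the flat part: form `3` is the neighbourhood of the singularity -/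
def lF (fu fv : ℕ) (B X Y R M K : F) : Bool :=
  let h := X.sub (F.rat 1 2)
  let c := h.sub Y
  let e := R.sub K
  cond (Nat.beq fu 3)
    (cond (posF ((F.rat 1 20).sub c)) (cond (posF ((F.rat 1 20).add c))
      (cond (posF ((F.rat 1 20).sub e)) (cond (posF ((F.rat 1 20).add e))
        (cond (posO' (vf fv (h.add Y) (R.add K) (fun av yv => o0 (fun aw => o0 (fun bw =>
            some (cF M aw bw (F.rat 79 100).neg F.pi av yv B)) (F.lnB X K)) (F.lnA X K))))
          (posO' (vf fv (h.add Y) (R.add K) (fun av yv => o0 (fun aw => o0 (fun bw =>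
            some (cF M aw bw (F.rat 0 1) (F.rat 0 1) av yv B)) (F.lnB X K)) (F.lnA X K))))
          false) false) false) false) false)
    (posO' (uf fu c e (fun au yu => vf fv (h.add Y) (R.add K) (fun av yv => o0 (fun aw =>
      o0 (fun bw => some (cF M aw bw au yu av yv B)) (F.lnB X K)) (F.lnA X K)))))

/-- `u`, `v` of the flat part -/
noncomputable def uC (x y ρ k : ℝ) : ℂ := ⟨1 + (x - 1 / 2 - y), ρ - k⟩
noncomputable def vC' (x y ρ k : ℝ) : ℂ := ⟨1 + (x - 1 / 2 + y), -(ρ + k)⟩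

noncomputable def Sf (x m k y ρ : ℝ) : ℝ :=
  LL (uC x y ρ k) + LL (vC' x y ρ k) - 2 * lnA x k +
    m * (YY (uC x y ρ k) + YY (vC' x y ρ k) - 2 * lnB x k)

lemma cF_encl {M aw bw au yu av yv B : F} {ε : ℕ → ℝ} {m aw' bw' au' yu' av' yv' β : ℝ}
    (hε : ∀ i, |ε i| ≤ 1) (hM : M.Encl ε m) (h1 : aw.Encl ε aw') (h2 : bw.Encl ε bw')
    (h3 : au.Encl ε au') (h4 : yu.Encl ε yu') (h5 : av.Encl ε av') (h6 : yv.Encl ε yv')
    (hB : B.Encl ε β) : (cF M aw bw au yu av yv B).Encl ε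
      (-(au' + av' - 2 * aw' + m * (yu' + yv' - 2 * bw') + β)) := by
  have := negE (F.Encl.add (F.Encl.add (F.Encl.sub (F.Encl.add h3 h5) (F.Encl.add h1 h1))
    (F.Encl.mul hε hM (F.Encl.sub (F.Encl.add h4 h6) (F.Encl.add h2 h2)))) hB)
  rw [← two_mul, ← two_mul] at this
  exact this

lemma half (ε : ℕ → ℝ) : (F.rat 1 2).Encl ε (1 / 2) := by
  have := F.Encl.rat 1 2 ε
  push_cast at this
  exact this

theorem lF_sound {fu fv : ℕ} {B X Y R M K : F} {ε : ℕ → ℝ} {β x y ρ m k : ℝ}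
    (hε : ∀ i, |ε i| ≤ 1) (hB : B.Encl ε β) (hX : X.Encl ε x) (hY : Y.Encl ε y) (hR : R.Encl ε ρ)
    (hM : M.Encl ε m) (hK : K.Encl ε k) (h : lF fu fv B X Y R M K = true)
    (hm : 0 ≤ m) (hx : 26 / 100 < x) (hx' : x < 74 / 100) (hy : 0 ≤ y) (hy' : y ≤ 1 / 4)
    (ht : 0 < ρ + k) : Sf x m k y ρ < -β := by
  have kh := F.Encl.sub hX (half ε)
  have kc := F.Encl.sub kh hY
  have ke := F.Encl.sub hR hK
  have kd := F.Encl.add kh hY
  have kt := F.Encl.add hR hK
  unfold lF at h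
  simp only at h
  rcases h0 : Nat.beq fu 3 with _ | _
  · rw [h0, cond_false] at h
    obtain ⟨g, hg, hpos⟩ := posO_some h
    obtain ⟨au, yu, au', yu', e1, e2, l1, l2, h1⟩ := uf_some hε kc ke (by linarith only [hx, hy']) (by linarith only [hx', hy]) hg
    obtain ⟨av, yv, av', yv', e3, e4, l3, l4, h1⟩ :=
      vf_some hε kd kt (by linarith only [hx, hy]) (by linarith only [hx', hy']) ht h1
    obtain ⟨aw, haw, h1⟩ := o0_some h1
    obtain ⟨bw, hbw, h1⟩ := o0_some h1
    have kD := cF_encl hε hM (F.Encl.lnA hε hX hK haw) (F.Encl.lnB hε hX hK hbw) e1 e2 e3 e4 hB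
    have hp := posF_spec hε kD (by rw [← Option.some.inj h1] at hpos; exact hpos)
    have l5 := mul_le_mul_of_nonneg_left (add_le_add l2 l4) hm
    unfold Sf uC vC'
    linarith only [l1, l3, hp, l5]
  · rw [h0, cond_true] at h
    have h20 : (F.rat 1 20).Encl ε (1 / 20) := by
      have := F.Encl.rat 1 20 ε
      push_cast at this
      exact this
    rcases h1 : posF ((F.rat 1 20).sub ((X.sub (F.rat 1 2)).sub Y)) with _ | _
    · rw [h1, cond_false] at h
      exact absurd h (by simp)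
    rw [h1, cond_true] at h
    rcases h2 : posF ((F.rat 1 20).add ((X.sub (F.rat 1 2)).sub Y)) with _ | _
    · rw [h2, cond_false] at h
      exact absurd h (by simp)
    rw [h2, cond_true] at h
    rcases h3 : posF ((F.rat 1 20).sub (R.sub K)) with _ | _
    · rw [h3, cond_false] at h
      exact absurd h (by simp)
    rw [h3, cond_true] at h
    rcases h4 : posF ((F.rat 1 20).add (R.sub K)) with _ | _
    · rw [h4, cond_false] at h
      exact absurd h (by simp)
    rw [h4, cond_true] at h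
    have p1 := posF_spec hε (F.Encl.sub h20 kc) h1
    have p2 := posF_spec hε (F.Encl.add h20 kc) h2
    have p3 := posF_spec hε (F.Encl.sub h20 ke) h3
    have p4 := posF_spec hε (F.Encl.add h20 ke) h4
    rcases h5 : posO' (vf fv ((X.sub (F.rat 1 2)).add Y) (R.add K) (fun av yv => o0 (fun aw =>
        o0 (fun bw => some (cF M aw bw (F.rat 79 100).neg F.pi av yv B)) (F.lnB X K))
          (F.lnA X K))) with _ | _
    · rw [h5, cond_false] at h
      exact absurd h (by simp)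
    rw [h5, cond_true] at h
    obtain ⟨g1, hg1, hpos1⟩ := posO_some h5
    obtain ⟨g2, hg2, hpos2⟩ := posO_some h
    obtain ⟨av, yv, av', yv', e3, e4, l3, l4, k1⟩ :=
      vf_some hε kd kt (by linarith only [hy, p2]) (by linarith only [hx', hy', p2]) ht hg1
    obtain ⟨aw, haw, k1⟩ := o0_some k1
    obtain ⟨bw, hbw, k1⟩ := o0_some k1
    have h79 : ((F.rat 79 100).neg).Encl ε (-(79 / 100)) := by
      have := negE (F.Encl.rat 79 100 ε)
      push_cast at this
      exact this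
    have h00 : (F.rat 0 1).Encl ε 0 := by
      have := F.Encl.rat 0 1 ε
      push_cast at this
      rwa [zero_div] at this
    have kD1 := cF_encl hε hM (F.Encl.lnA hε hX hK haw) (F.Encl.lnB hε hX hK hbw) h79
      (F.Encl.pi ε) e3 e4 hB
    have hp1 := posF_spec hε kD1 (by rw [← Option.some.inj k1] at hpos1; exact hpos1)
    obtain ⟨av2, yv2, av2', yv2', e5, e6, l5, l6, k2⟩ :=
      vf_some hε kd kt (by linarith only [hy, p2]) (by linarith only [hx', hy', p2]) ht hg2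
    obtain ⟨aw2, haw2, k2⟩ := o0_some k2
    obtain ⟨bw2, hbw2, k2⟩ := o0_some k2
    have kD2 := cF_encl hε hM (F.Encl.lnA hε hX hK haw2) (F.Encl.lnB hε hX hK hbw2) h00
      h00 e5 e6 hB
    have hp2 := posF_spec hε kD2 (by rw [← Option.some.inj k2] at hpos2; exact hpos2)
    rcases sing (c := x - 1 / 2 - y) (e := ρ - k) (abs_le.mpr ⟨by linarith only [p2], by linarith only [p1]⟩)
      (abs_le.mpr ⟨by linarith only [p4], by linarith only [p3]⟩) with ⟨q1, q2⟩ | ⟨q1, q2⟩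
    · have l7 := mul_le_mul_of_nonneg_left (add_le_add q2 l4) hm
      unfold Sf uC vC'
      linarith only [l3, hp1, q1, l7]
    · have l7 := mul_le_mul_of_nonneg_left l6 hm
      unfold Sf uC vC'
      rw [q1, q2]
      linarith only [l5, hp2, l7]

end RZ1

end Pool.Agent.Work.MP_b30479_gt.G2
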