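import Pool.Agent.Work.MP_b30479_gt.G2.RRampW
import Pool.Agent.Work.MP_b30479_gt.G2.RZK

/-!
# Rings with the ring variable on the ramp, `b ≥ 5`: kernel evaluation on a box

Variables `x`, `T` (offset), `y`, `ρ`; `h = 4 ρ y`, `d = y - x`, `s = h - T`, `q = ρ - T`.
`tP`: the hinge beyond its part; `tD`, `tU`: with the increment of the side, below / above the
saddle point.
-/

namespace Pool.Agent.Work.MP_b30479_gt.G2

open VOL NumI

namespace RQ

open RC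
open LR (rat1 mulq1)
open RZ1 (negE enc4)

/-! ### pieces of the tests -/

/-- continue with the value of an option -/
def bO (x : Option F) (k : F → Bool) : Bool :=
  Option.rec (motive := fun _ => Bool) false (fun a => k a) x

lemma bO_some {x : Option F} {k : F → Bool} (h : bO x k = true) : ∃ a, x = some a ∧ k a = true := by
  rcases x with _ | a
  · exact absurd h (by simp [bO])
  · exact ⟨a, rfl, h⟩

lemma cond_ff {b c : Bool} (h : cond b c false = true) : b = true ∧ c = true := by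
  rcases b with _ | _
  · rw [cond_false] at h
    exact absurd h Bool.false_ne_true
  · rw [cond_true] at h
    exact ⟨rfl, h⟩

/-- constant upper bound -/
def up (a : F) : F := ⟨Nat.add a.p a.tot, a.q, 0, 0, 0, 0, 0, 0, 0, 0, 0⟩

lemma mul_eps_le {a b e : ℝ} (ha : 0 ≤ a) (hb : 0 ≤ b) (he : |e| ≤ 1) : (a - b) * e ≤ a + b := by
  obtain ⟨h1, h2⟩ := abs_le.mp he
  nlinarith only [ha, h2, hb, h1]

lemma up_encl {a : F} {ε : ℕ → ℝ} {x : ℝ} (hε : ∀ i, |ε i| ≤ 1) (h : a.Encl ε x) :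
    ∃ u, x ≤ u ∧ (up a).Encl ε u := by
  have hD := DR_pos
  refine ⟨((a.p : ℝ) + a.tot - a.q) / DR, ?_, ?_⟩
  · rw [F.Encl_iff] at h
    have h2 := (abs_le.mp h).2
    rw [le_div_iff₀ hD]
    have e : (a.tot : ℝ) = ((a.a0 : ℝ) + a.b0) + (((a.a1 : ℝ) + a.b1) + (((a.a2 : ℝ) + a.b2) +
        ((a.a3 : ℝ) + a.b3))) + a.r := by
      change ((((a.a0 + a.b0) + ((a.a1 + a.b1) + ((a.a2 + a.b2) + (a.a3 + a.b3)))) + a.r : ℕ) : ℝ) = _
      push_cast
      ring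
    have k0 := mul_eps_le (a := (a.a0 : ℝ)) (b := a.b0) (by positivity) (by positivity) (hε 0)
    have k1 := mul_eps_le (a := (a.a1 : ℝ)) (b := a.b1) (by positivity) (by positivity) (hε 1)
    have k2 := mul_eps_le (a := (a.a2 : ℝ)) (b := a.b2) (by positivity) (by positivity) (hε 2)
    have k3 := mul_eps_le (a := (a.a3 : ℝ)) (b := a.b3) (by positivity) (by positivity) (hε 3)
    linarith only [h2, e, k0, k1, k2, k3]
  · rw [F.Encl_iff]
    unfold up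
    simp only [Nat.cast_zero, sub_zero, zero_mul, add_zero]
    change |((a.p : ℝ) + a.tot - a.q) / DR * DR - (((a.p + a.tot : ℕ) : ℝ) - a.q)| ≤ 0
    rw [div_mul_cancel₀ _ hD.ne']
    push_cast
    simp

/-- lower bounds of `-YY (lv d s)` -/
def nF (f : ℕ) (d s : F) (C : F → Bool) : Bool :=
  cond (Nat.beq f 0) (C (F.mulq 1 2 F.pi).neg)
  (cond (Nat.beq f 1) (cond (posF s) (C (F.rat 0 1)) (cond (posF d.neg) (C (F.rat 0 1)) false))
  (cond (Nat.beq f 2) (cond (posF s) (cond (posF d.neg) (C (F.mulq 1 2 F.pi)) false) false)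
  (cond (Nat.beq f 3) (cond (posF s)
    (bO (F.hyp false (F.pi.mul s)) fun sh => bO (F.hyp true (F.pi.mul s)) fun ch =>
      bO (F.inv (d.cosPi.mul sh)) fun iv => bO (F.atan ((d.sinPi.mul ch).mul iv)) fun at' =>
        C ((F.mulq 1 2 F.pi).sub at')) false)
    (cond (posF d) (bO (F.lnB d s) fun z => C z) false))))

/-- lower bounds of `-LL (lv d s)` -/
def lF (f : ℕ) (d s : F) (C : F → Bool) : Bool :=
  cond (Nat.beq f 2) (bO (F.lnA d s) fun z => C z.neg)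
    (bO (F.hyp false (F.pi.mul s)) fun sh =>
      bO (F.log (cond (Nat.beq f 0) (up (F.mulq 4 1 (d.sinPi.sqn.add sh.sqn)))
        (F.mulq 4 1 (d.sinPi.sqn.add sh.sqn)))) fun l => C (F.mulq 1 2 l).neg)

theorem YY_ge {δ σ : ℝ} (h1 : δ < 1 / 2) (h : δ ≤ 0 → 0 ≤ σ) :
    -(Real.pi / 2) ≤ -YY (lv δ σ) := by
  have hp := Real.pi_pos
  rcases le_or_gt δ 0 with hd | hd
  · have := YY_nonpos_lv (h hd) (show δ ≤ 1 / 2 by linarith only [h1])
    linarith only [hp, this]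
  · rw [YY_lv σ hd (by linarith only [h1, hd]), neg_neg]
    exact (Real.neg_pi_div_two_lt_arctan _).le

theorem nF_some {f : ℕ} {d s : F} {C : F → Bool} {ε : ℕ → ℝ} {δ σ : ℝ} (hε : ∀ i, |ε i| ≤ 1)
    (h1 : d.Encl ε δ) (h2 : s.Encl ε σ) (hl : -(1 / 2) < δ) (hr : δ < 1 / 2)
    (hd : δ ≤ 0 → 0 ≤ σ) (h : nF f d s C = true) : ∃ z : F, ∃ a : ℝ, z.Encl ε a ∧
      a ≤ -YY (lv δ σ) ∧ C z = true := by
  have hp := Real.pi_pos
  have hpi : (F.mulq 1 2 F.pi).Encl ε (Real.pi / 2) := by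
    have := F.Encl.mulq (n := 1) (d := 2) (by norm_num) hε (F.Encl.pi ε)
    push_cast at this
    rwa [one_div_mul_eq_div] at this
  have h00 : (F.rat 0 1).Encl ε 0 := by
    have := rat1 0 ε
    rwa [Nat.cast_zero] at this
  unfold nF at h
  rcases e0 : Nat.beq f 0 with _ | _
  swap
  · rw [e0, cond_true] at h
    exact ⟨_, _, negE hpi, YY_ge hr hd, h⟩
  rw [e0, cond_false] at h
  rcases e1 : Nat.beq f 1 with _ | _
  swap
  · rw [e1, cond_true] at h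
    rcases g1 : posF s with _ | _
    · rw [g1, cond_false] at h
      obtain ⟨g2, h⟩ := cond_ff h
      have p2 := posF_spec hε (negE h1) g2
      have := YY_nonpos_lv (hd (by linarith only [p2])) hr.le
      exact ⟨_, _, h00, by linarith only [this], h⟩
    · rw [g1, cond_true] at h
      have p2 := posF_spec hε h2 g1
      have := YY_nonpos_lv p2.le hr.le
      exact ⟨_, _, h00, by linarith only [this], h⟩
  rw [e1, cond_false] at h
  rcases e2 : Nat.beq f 2 with _ | _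
  swap
  · rw [e2, cond_true] at h
    obtain ⟨g1, h⟩ := cond_ff h
    obtain ⟨g2, h⟩ := cond_ff h
    have p1 := posF_spec hε h2 g1
    have p2 := posF_spec hε (negE h1) g2
    have := YY_le_half p1 hl (by linarith only [p2])
    exact ⟨_, _, hpi, by linarith only [this], h⟩
  rw [e2, cond_false] at h
  rcases e3 : Nat.beq f 3 with _ | _
  swap
  · rw [e3, cond_true] at h
    obtain ⟨g1, h⟩ := cond_ff h
    have p1 := posF_spec hε h2 g1
    obtain ⟨sh, hsh, h⟩ := bO_some h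
    obtain ⟨ch, hch, h⟩ := bO_some h
    obtain ⟨iv, hiv, h⟩ := bO_some h
    obtain ⟨at', hat, h⟩ := bO_some h
    have k1 := F.Encl.sinh hε (F.Encl.mul hε (F.Encl.pi ε) h2) hsh
    have k2 := F.Encl.cosh hε (F.Encl.mul hε (F.Encl.pi ε) h2) hch
    have k3 := F.Encl.inv hε (F.Encl.mul hε (F.Encl.cosPi hε h1) k1) hiv
    have k4 := F.Encl.atan hε (F.Encl.mul hε (F.Encl.mul hε (F.Encl.sinPi hε h1) k2) k3) hat
    refine ⟨_, _, F.Encl.sub hpi k4, ?_, h⟩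
    rw [RC.YY_mid p1 hl hr, div_eq_mul_inv (Real.sin (Real.pi * δ) * Real.cosh (Real.pi * σ))]
    linarith only []
  rw [e3, cond_false] at h
  obtain ⟨g1, h⟩ := cond_ff h
  have p1 := posF_spec hε h1 g1
  obtain ⟨z, hz, h⟩ := bO_some h
  refine ⟨_, _, F.Encl.lnB hε h1 h2 hz, ?_, h⟩
  rw [YY_lv σ p1 (by linarith only [hr, p1]), neg_neg]

theorem lF_some {f : ℕ} {d s : F} {C : F → Bool} {ε : ℕ → ℝ} {δ σ : ℝ} (hε : ∀ i, |ε i| ≤ 1)
    (h1 : d.Encl ε δ) (h2 : s.Encl ε σ) (hl : -(1 / 2) < δ) (hr : δ < 1 / 2)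
    (hn : ¬ (δ = 0 ∧ σ = 0)) (h : lF f d s C = true) : ∃ z : F, ∃ a : ℝ, z.Encl ε a ∧
      a ≤ -LL (lv δ σ) ∧ C z = true := by
  have hp := Real.pi_pos
  have eq : LL (lv δ σ) = lnA δ σ := by
    rw [LL_lv_eq]
    rfl
  rw [eq]
  unfold lF at h
  rcases e0 : Nat.beq f 2 with _ | _
  swap
  · rw [e0, cond_true] at h
    obtain ⟨z, hz, h⟩ := bO_some h
    exact ⟨_, _, negE (F.Encl.lnA hε h1 h2 hz), le_rfl, h⟩
  rw [e0, cond_false] at h
  obtain ⟨sh, hsh, h⟩ := bO_some h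
  obtain ⟨l, hl', h⟩ := bO_some h
  have k1 := F.Encl.sinh hε (F.Encl.mul hε (F.Encl.pi ε) h2) hsh
  have kM : (F.mulq 4 1 (d.sinPi.sqn.add sh.sqn)).Encl ε
      (4 * (Real.sin (Real.pi * δ) ^ 2 + Real.sinh (Real.pi * σ) ^ 2)) := by
    have := mulq1 (n := 4) hε (F.Encl.add (F.Encl.sqn hε (F.Encl.sinPi hε h1))
      (F.Encl.sqn hε k1))
    push_cast at this
    exact this
  have key : ∀ {v : ℝ}, (4 * (Real.sin (Real.pi * δ) ^ 2 + Real.sinh (Real.pi * σ) ^ 2)) ≤ v →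
      l.Encl ε (Real.log v) → ∃ z : F, ∃ a : ℝ, z.Encl ε a ∧ a ≤ -lnA δ σ ∧ C z = true := by
    intro v hv hlv
    have k5 := negE (F.Encl.mulq (n := 1) (d := 2) (by norm_num) hε hlv)
    push_cast at k5
    rw [one_div_mul_eq_div] at k5
    refine ⟨_, _, k5, ?_, h⟩
    have hpos : 0 < 4 * (Real.sin (Real.pi * δ) ^ 2 + Real.sinh (Real.pi * σ) ^ 2) := by
      rcases eq_or_ne σ 0 with h3 | h3
      · have h4 : δ ≠ 0 := fun h4 => hn ⟨h4, h3⟩
        have h5 : Real.sin (Real.pi * δ) ≠ 0 := by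
          rcases lt_or_gt_of_ne h4 with h6 | h6
          · exact (Real.sin_neg_of_neg_of_neg_pi_lt (by nlinarith only [hp, h6]) (by nlinarith only [hp, hl])).ne
          · exact (Real.sin_pos_of_pos_of_lt_pi (by positivity) (by nlinarith only [hp, hr])).ne'
        positivity
      · have h5 : Real.sinh (Real.pi * σ) ≠ 0 := by
          rw [Ne, Real.sinh_eq_zero]
          exact mul_ne_zero hp.ne' h3
        positivity
    have := Real.log_le_log hpos hv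
    unfold lnA
    linarith only [this]
  rcases e1 : Nat.beq f 0 with _ | _
  · rw [e1, cond_false] at hl'
    exact key le_rfl (F.Encl.log hε kM hl')
  · rw [e1, cond_true] at hl'
    obtain ⟨u, hu, ku⟩ := up_encl hε kM
    exact key hu (F.Encl.log hε ku hl')

/-! ### the real functions -/

/-- admissible points, units `1/10000` for the bounds of `ρ - T` -/
structure Dmn (q0 q1 : ℕ) (x t y r : ℝ) : Prop where
  x0 : 0 < x
  x1 : x < 1 / 2
  y0 : 0 < y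
  y1 : y ≤ 1 / 4
  r0 : 0 < r
  ht : y ≤ x → t ≤ 4 * (r * y)
  nz : ¬ (x = y ∧ t = 4 * (r * y))
  lo : 1 ≤ q0 → (q0 : ℝ) / 10000 ≤ r - t
  hi : r - t ≤ (q1 : ℝ) / 10000

/-- the part of `Fr` without logarithms -/
noncomputable def Hb (x t y r : ℝ) : ℝ :=
  4 * r * (-YY (lv (y - x) (4 * (r * y) - t)) - lnB (x + y) (t + 4 * (r * y)))

noncomputable def An (x t y r : ℝ) : ℝ := lnA (x + y) (t + 4 * (r * y))

noncomputable def Ln (x t y r : ℝ) : ℝ := -LL (lv (y - x) (4 * (r * y) - t))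

noncomputable def lin (u1 v1 u2 v2 : ℕ) (x : ℝ) : ℝ :=
  ((u1 : ℝ) / 10000 + (u2 : ℝ) / 10000 * x) - ((v1 : ℝ) / 10000 + (v2 : ℝ) / 10000 * x)

/-- `lam = j ln / ld` -/
noncomputable def lam (ln ld j : ℕ) : ℝ := ((j * ln : ℕ) : ℝ) / ld

noncomputable def PA (b w ln ld c u1 v1 u2 v2 j : ℕ) (x t y r : ℝ) : Prop :=
  0 < An x t y r + Ln x t y r + Hb x t y r - (1 - lam ln ld j) * ((w : ℝ) / 2 * Rr b y r) +
    lin u1 v1 u2 v2 x ∧
  0 < An x t y r + Ln x t y r + Hb x t y r - (1 - lam ln ld j) * ((w : ℝ) / 2 * Rr b y r) +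
    lin u1 v1 u2 v2 x - lam ln ld j * kr b y *
      (lnA (1 / 2) (t + r) - lnA (((5000 - c : ℕ) : ℝ) / 10000) (r - t))

noncomputable def PB (rg b w ln ld s0 a u1 v1 u2 v2 j : ℕ) (x t y r : ℝ) : Prop :=
  (rg = 0 ∧ 0 < 2 * An x t y r + Hb x t y r - (1 - lam ln ld j) * ((w : ℝ) / 2 * Rr b y r) -
    (1 + lam ln ld j * kr b y) * lnA (1 / 2) (t + r) -
    (1 - lam ln ld j * kr b y) * lnA (((5000 - s0 : ℕ) : ℝ) / 10000 - x) (r - t) +
    lin u1 v1 u2 v2 x) ∨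
  (rg ≠ 0 ∧ 0 < 2 * An x t y r + Hb x t y r - (1 - lam ln ld j) * ((w : ℝ) / 2 * Rr b y r) -
    (1 + lam ln ld j * kr b y) * lnA (1 / 2) (t + r) -
    (1 - lam ln ld j * kr b y) * lnA (((5000 - s0 - a : ℕ) : ℝ) / 10000) (r - t) +
    2 * (lnA ((a : ℝ) / 10000) t - lnA x t) + lin u1 v1 u2 v2 x)

noncomputable def PC (rg b w ln ld c m a u1 v1 u2 v2 j : ℕ) (x t y r : ℝ) : Prop :=
  (rg = 0 ∧ 0 < 2 * Ln x t y r + Hb x t y r - (1 - lam ln ld j) * ((w : ℝ) / 2 * Rr b y r) +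
    (1 - lam ln ld j * kr b y) * lnA (((5000 - m : ℕ) : ℝ) / 10000) (t + r) +
    (1 + lam ln ld j * kr b y) * lnA (((5000 - c : ℕ) : ℝ) / 10000) (r - t) +
    lin u1 v1 u2 v2 x) ∨
  (rg ≠ 0 ∧ 0 < 2 * Ln x t y r + Hb x t y r - (1 - lam ln ld j) * ((w : ℝ) / 2 * Rr b y r) +
    (1 - lam ln ld j * kr b y) * lnA (((5000 - m : ℕ) : ℝ) / 10000) (t + r) +
    (1 + lam ln ld j * kr b y) * lnA (((5000 - c : ℕ) : ℝ) / 10000) (r - t) +
    2 * (lnA x t - lnA ((a : ℝ) / 10000) t) + lin u1 v1 u2 v2 x)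

theorem Fr_split {x t y r : ℝ} (h0 : 0 < x + y) (h1 : x + y < 1) :
    Fr x y t r = An x t y r + Ln x t y r + Hb x t y r := by
  unfold Fr Dx An Ln Hb
  rw [LL_lv _ h0 h1, YY_lv _ h0 h1, ← LL_lv_neg (y - x) (t - 4 * r * y)]
  have e1 : 4 * r * y = 4 * (r * y) := by ring
  have e2 : -(t - 4 * (r * y)) = 4 * (r * y) - t := by ring
  rw [e1, e2]
  ring

/-! ### leaves -/

/-- linear term -/
def linF (u1 v1 u2 v2 : ℕ) (X : F) : F :=
  ((F.rat u1 10000).add (F.mulq u2 10000 X)).sub ((F.rat v1 10000).add (F.mulq v2 10000 X))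

lemma linF_encl {u1 v1 u2 v2 : ℕ} {X : F} {ε : ℕ → ℝ} {x : ℝ} (hε : ∀ i, |ε i| ≤ 1)
    (h : X.Encl ε x) : (linF u1 v1 u2 v2 X).Encl ε (lin u1 v1 u2 v2 x) := by
  have a1 := F.Encl.rat u1 10000 ε
  have a2 := F.Encl.rat v1 10000 ε
  have b1 := F.Encl.mulq (n := u2) (d := 10000) (by norm_num) hε h
  have b2 := F.Encl.mulq (n := v2) (d := 10000) (by norm_num) hε h
  push_cast at a1 a2 b1 b2
  exact F.Encl.sub (F.Encl.add a1 b1) (F.Encl.add a2 b2)

/-- `Rr` -/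
def rrF (b : ℕ) (Y W4 : F) : F := W4.mul (F.pi.mul ((F.mulq (4 * b) 1 Y).sub (F.rat (b - 2) 1)))

lemma rrF_encl {b : ℕ} (hb : 2 ≤ b) {Y W4 : F} {ε : ℕ → ℝ} {y r : ℝ} (hε : ∀ i, |ε i| ≤ 1)
    (hY : Y.Encl ε y) (hW : W4.Encl ε (4 * r)) : (rrF b Y W4).Encl ε (Rr b y r) := by
  have h1 := mulq1 (n := 4 * b) hε hY
  have h2 := rat1 (b - 2) ε
  rw [Nat.cast_sub hb] at h2
  push_cast at h1 h2
  have := F.Encl.mul hε hW (F.Encl.mul hε (F.Encl.pi ε) (F.Encl.sub h1 h2))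
  have e : 4 * r * (Real.pi * (4 * b * y - (b - 2))) = Rr b y r := by
    unfold Rr
    ring
  rw [e] at this
  exact this

/-- `(1 - lam) w / 2 * Rr` -/
def lwF (w ln ld j : ℕ) (Q : F) : F := (F.mulq w 2 Q).sub (F.mulq (j * ln * w) (2 * ld) Q)

lemma lwF_encl {w ln ld j : ℕ} (hl : 0 < ld) {Q : F} {ε : ℕ → ℝ} {q : ℝ}
    (hε : ∀ i, |ε i| ≤ 1) (h : Q.Encl ε q) :
    (lwF w ln ld j Q).Encl ε ((1 - lam ln ld j) * ((w : ℝ) / 2 * q)) := by
  have a1 := F.Encl.mulq (n := w) (d := 2) (by norm_num) hε h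
  have a2 := F.Encl.mulq (n := j * ln * w) (d := 2 * ld) (by omega) hε h
  have := F.Encl.sub a1 a2
  have hl' : (ld : ℝ) ≠ 0 := by exact_mod_cast hl.ne'
  have e : ((w : ℝ) / (2 : ℕ) * q - ((j * ln * w : ℕ) : ℝ) / ((2 * ld : ℕ) : ℝ) * q) =
      (1 - lam ln ld j) * ((w : ℝ) / 2 * q) := by
    unfold lam
    push_cast
    field_simp
  rw [e] at this
  exact this

/-- `lam k` -/
def lkF' (b ln ld j : ℕ) (Y : F) : F :=
  F.mulq (j * ln) ld ((F.mulq 8 1 Y).sub (F.rat (2 * b - 4) b))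

lemma lkF'_encl {b ln ld j : ℕ} (hb : 2 ≤ b) (hl : 0 < ld) {Y : F} {ε : ℕ → ℝ} {y : ℝ}
    (hε : ∀ i, |ε i| ≤ 1) (h : Y.Encl ε y) :
    (lkF' b ln ld j Y).Encl ε (lam ln ld j * kr b y) := by
  have a1 := mulq1 (n := 8) hε h
  have a2 := F.Encl.rat (2 * b - 4) b ε
  have := F.Encl.mulq (n := j * ln) (d := ld) hl hε (F.Encl.sub a1 a2)
  have hb' : (b : ℝ) ≠ 0 := by
    have : 0 < b := by omega
    exact_mod_cast this.ne'
  have e : ((8 : ℕ) : ℝ) * y - ((2 * b - 4 : ℕ) : ℝ) / b = kr b y := by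
    unfold kr
    rw [Nat.cast_sub (by omega)]
    push_cast
    field_simp
    ring
  rw [e] at this
  exact this

/-- `A + L + W` -/
def gA (b w ln ld c u1 v1 u2 v2 j lf nf : ℕ) (X T Y R q H d s W4 : F) : Bool :=
  bO (F.lnA (X.add Y) (T.add H)) fun au => bO (F.lnB (X.add Y) (T.add H)) fun bu =>
  bO (F.lnA (F.rat 1 2) (T.add R)) fun Lh => bO (F.lnA (F.rat (5000 - c) 10000) q) fun Lc =>
  lF lf d s fun L => nF nf d s fun N =>
    let E1 := (((au.add L).add (W4.mul (N.sub bu))).sub (lwF w ln ld j (rrF b Y W4))).add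
      (linF u1 v1 u2 v2 X)
    cond (posF E1) (posF (E1.sub ((lkF' b ln ld j Y).mul (Lh.sub Lc)))) false

def gB (rg b w ln ld s0 a u1 v1 u2 v2 j nf : ℕ) (X T Y R q H d s W4 : F) : Bool :=
  bO (F.lnA (X.add Y) (T.add H)) fun au => bO (F.lnB (X.add Y) (T.add H)) fun bu =>
  bO (F.lnA (F.rat 1 2) (T.add R)) fun Lh =>
  nF nf d s fun N =>
    let lk := lkF' b ln ld j Y
    let G := (((au.add au).add (W4.mul (N.sub bu))).sub (lwF w ln ld j (rrF b Y W4))).sub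
      (((F.rat 1 1).add lk).mul Lh)
    let li := linF u1 v1 u2 v2 X
    cond (Nat.beq rg 0)
      (bO (F.lnA ((F.rat (5000 - s0) 10000).sub X) q) fun D2 =>
        posF ((G.sub (((F.rat 1 1).sub lk).mul D2)).add li))
      (bO (F.lnA (F.rat (5000 - s0 - a) 10000) q) fun D2 => bO (F.lnA (F.rat a 10000) T) fun aa =>
        bO (F.lnA X T) fun ax =>
        posF (((G.sub (((F.rat 1 1).sub lk).mul D2)).add (F.mulq 2 1 (aa.sub ax))).add li))

def gC (rg b w ln ld c m a u1 v1 u2 v2 j lf nf : ℕ) (X T Y R q H d s W4 : F) : Bool :=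
  bO (F.lnB (X.add Y) (T.add H)) fun bu =>
  bO (F.lnA (F.rat (5000 - c) 10000) q) fun Lc =>
  bO (F.lnA (F.rat (5000 - m) 10000) (T.add R)) fun Lm =>
  lF lf d s fun L => nF nf d s fun N =>
    let lk := lkF' b ln ld j Y
    let G := ((((L.add L).add (W4.mul (N.sub bu))).sub (lwF w ln ld j (rrF b Y W4))).add
      (((F.rat 1 1).sub lk).mul Lm)).add (((F.rat 1 1).add lk).mul Lc)
    let li := linF u1 v1 u2 v2 X
    cond (Nat.beq rg 0) (posF (G.add li))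
      (bO (F.lnA (F.rat a 10000) T) fun aa => bO (F.lnA X T) fun ax =>
        posF ((G.add (F.mulq 2 1 (ax.sub aa))).add li))

/-- enclosures of the common quantities -/
structure En (ε : ℕ → ℝ) (X T Y R q H d s W4 : F) (x t y r : ℝ) : Prop where
  e : ∀ i, |ε i| ≤ 1
  X : X.Encl ε x
  T : T.Encl ε t
  Y : Y.Encl ε y
  R : R.Encl ε r
  q : q.Encl ε (r - t)
  H : H.Encl ε (4 * (r * y))
  d : d.Encl ε (y - x)
  s : s.Encl ε (4 * (r * y) - t)
  W : W4.Encl ε (4 * r)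

lemma En.of {ε : ℕ → ℝ} {X T Y R : F} {x t y r : ℝ} (hε : ∀ i, |ε i| ≤ 1) (hX : X.Encl ε x)
    (hT : T.Encl ε t) (hY : Y.Encl ε y) (hR : R.Encl ε r) :
    En ε X T Y R (R.sub T) (F.mulq 4 1 (R.mul Y)) (Y.sub X) ((F.mulq 4 1 (R.mul Y)).sub T)
      (F.mulq 4 1 R) x t y r := by
  have h1 := enc4 hε (F.Encl.mul hε hR hY)
  exact ⟨hε, hX, hT, hY, hR, F.Encl.sub hR hT, h1, F.Encl.sub hY hX, F.Encl.sub h1 hT,
    enc4 hε hR⟩

section
variable {rg b w ln ld c s0 m a u1 v1 u2 v2 j lf nf q0 q1 : ℕ} {ε : ℕ → ℝ}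
  {X T Y R q H d s W4 : F} {x t y r : ℝ}

lemma Dmn.dl (h : Dmn q0 q1 x t y r) : -(1 / 2) < y - x := by linarith only [h, h.x1, h.y0]
lemma Dmn.dr (h : Dmn q0 q1 x t y r) : y - x < 1 / 2 := by linarith only [h, h.x0, h.y1]
lemma Dmn.dt (h : Dmn q0 q1 x t y r) : y - x ≤ 0 → 0 ≤ 4 * (r * y) - t := fun h1 => by
  linarith only [h, h1, h.ht (by linarith only [h1])]
lemma Dmn.dn (h : Dmn q0 q1 x t y r) : ¬ (y - x = 0 ∧ 4 * (r * y) - t = 0) := fun h1 =>
  h.nz ⟨by linarith only [h1, h1.1], by linarith only [h1, h1.2]⟩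

lemma half_encl (ε : ℕ → ℝ) : (F.rat 1 2).Encl ε (1 / 2) := by
  have := F.Encl.rat 1 2 ε
  push_cast at this
  exact this

lemma one_encl (ε : ℕ → ℝ) : (F.rat 1 1).Encl ε 1 := by
  have := rat1 1 ε
  rwa [Nat.cast_one] at this

lemma r4_encl (n : ℕ) (ε : ℕ → ℝ) : (F.rat n 10000).Encl ε ((n : ℝ) / 10000) := by
  have := F.Encl.rat n 10000 ε
  push_cast at this
  exact this

lemma two_encl {a : F} {z : ℝ} (hε : ∀ i, |ε i| ≤ 1) (h : a.Encl ε z) :
    (F.mulq 2 1 a).Encl ε (2 * z) := by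
  have := mulq1 (n := 2) hε h
  push_cast at this
  exact this

theorem gA_sound (hb : 2 ≤ b) (hl : 0 < ld) (E : En ε X T Y R q H d s W4 x t y r)
    (D : Dmn q0 q1 x t y r) (h : gA b w ln ld c u1 v1 u2 v2 j lf nf X T Y R q H d s W4 = true) :
    PA b w ln ld c u1 v1 u2 v2 j x t y r := by
  have hε := E.e
  obtain ⟨au, hau, h⟩ := bO_some h
  obtain ⟨bu, hbu, h⟩ := bO_some h
  obtain ⟨Lh, hLh, h⟩ := bO_some h
  obtain ⟨Lc, hLc, h⟩ := bO_some h
  obtain ⟨L, Lr, eL, hLr, h⟩ := lF_some hε E.d E.s D.dl D.dr D.dn h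
  obtain ⟨N, Nr, eN, hNr, h⟩ := nF_some hε E.d E.s D.dl D.dr D.dt h
  have kx := F.Encl.add E.X E.Y
  have kt := F.Encl.add E.T E.H
  have eau := F.Encl.lnA hε kx kt hau
  have ebu := F.Encl.lnB hε kx kt hbu
  have eLh := F.Encl.lnA hε (half_encl ε) (F.Encl.add E.T E.R) hLh
  have eLc := F.Encl.lnA hε (r4_encl (5000 - c) ε) E.q hLc
  have k1 := F.Encl.add (F.Encl.sub (F.Encl.add (F.Encl.add eau eL)
    (F.Encl.mul hε E.W (F.Encl.sub eN ebu))) (lwF_encl (w := w) (ln := ln) (j := j) hl hε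
      (rrF_encl hb hε E.Y E.W))) (linF_encl (u1 := u1) (v1 := v1) (u2 := u2) (v2 := v2) hε E.X)
  have k2 := F.Encl.sub k1 (F.Encl.mul hε (lkF'_encl (ln := ln) (j := j) hb hl hε E.Y)
    (F.Encl.sub eLh eLc))
  obtain ⟨g1, g2⟩ := cond_ff h
  have p1 := posF_spec hε k1 g1
  have p2 := posF_spec hε k2 g2
  have hw : 4 * r * (Nr - lnB (x + y) (t + 4 * (r * y))) ≤ Hb x t y r := by
    unfold Hb
    exact mul_le_mul_of_nonneg_left (by linarith only [hNr]) (by linarith only [D, D.r0])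
  unfold PA An Ln
  constructor <;> linarith only [hLr, p1, hw, p2]

theorem gB_sound (hb : 2 ≤ b) (hl : 0 < ld) (E : En ε X T Y R q H d s W4 x t y r)
    (D : Dmn q0 q1 x t y r)
    (h : gB rg b w ln ld s0 a u1 v1 u2 v2 j nf X T Y R q H d s W4 = true) :
    PB rg b w ln ld s0 a u1 v1 u2 v2 j x t y r := by
  have hε := E.e
  obtain ⟨au, hau, h⟩ := bO_some h
  obtain ⟨bu, hbu, h⟩ := bO_some h
  obtain ⟨Lh, hLh, h⟩ := bO_some h
  obtain ⟨N, Nr, eN, hNr, h⟩ := nF_some hε E.d E.s D.dl D.dr D.dt h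
  have kx := F.Encl.add E.X E.Y
  have kt := F.Encl.add E.T E.H
  have eau := F.Encl.lnA hε kx kt hau
  have ebu := F.Encl.lnB hε kx kt hbu
  have eLh := F.Encl.lnA hε (half_encl ε) (F.Encl.add E.T E.R) hLh
  have ek := lkF'_encl (ln := ln) (j := j) hb hl hε E.Y
  have eli := linF_encl (u1 := u1) (v1 := v1) (u2 := u2) (v2 := v2) hε E.X
  have k1 := F.Encl.sub (F.Encl.sub (F.Encl.add (F.Encl.add eau eau)
    (F.Encl.mul hε E.W (F.Encl.sub eN ebu))) (lwF_encl (w := w) (ln := ln) (j := j) hl hε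
      (rrF_encl hb hε E.Y E.W))) (F.Encl.mul hε (F.Encl.add (one_encl ε) ek) eLh)
  have hw : 4 * r * (Nr - lnB (x + y) (t + 4 * (r * y))) ≤ Hb x t y r := by
    unfold Hb
    exact mul_le_mul_of_nonneg_left (by linarith only [hNr]) (by linarith only [D, D.r0])
  unfold PB An
  simp only at h
  rcases h0 : Nat.beq rg 0 with _ | _
  · rw [h0, cond_false] at h
    obtain ⟨D2, hD2, h⟩ := bO_some h
    obtain ⟨aa, haa, h⟩ := bO_some h
    obtain ⟨ax, hax, h⟩ := bO_some h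
    have e1 := F.Encl.lnA hε (r4_encl (5000 - s0 - a) ε) E.q hD2
    have e2 := F.Encl.lnA hε (r4_encl a ε) E.T haa
    have e3 := F.Encl.lnA hε E.X E.T hax
    have p := posF_spec hε (F.Encl.add (F.Encl.add (F.Encl.sub k1 (F.Encl.mul hε
      (F.Encl.sub (one_encl ε) ek) e1)) (two_encl hε (F.Encl.sub e2 e3))) eli) h
    refine Or.inr ⟨Nat.ne_of_beq_eq_false h0, ?_⟩
    linarith only [hw, p]
  · rw [h0, cond_true] at h
    obtain ⟨D2, hD2, h⟩ := bO_some h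
    have e1 := F.Encl.lnA hε (F.Encl.sub (r4_encl (5000 - s0) ε) E.X) E.q hD2
    have p := posF_spec hε (F.Encl.add (F.Encl.sub k1 (F.Encl.mul hε
      (F.Encl.sub (one_encl ε) ek) e1)) eli) h
    refine Or.inl ⟨Nat.eq_of_beq_eq_true h0, ?_⟩
    linarith only [hw, p]

theorem gC_sound (hb : 2 ≤ b) (hl : 0 < ld) (E : En ε X T Y R q H d s W4 x t y r)
    (D : Dmn q0 q1 x t y r)
    (h : gC rg b w ln ld c m a u1 v1 u2 v2 j lf nf X T Y R q H d s W4 = true) :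
    PC rg b w ln ld c m a u1 v1 u2 v2 j x t y r := by
  have hε := E.e
  obtain ⟨bu, hbu, h⟩ := bO_some h
  obtain ⟨Lc, hLc, h⟩ := bO_some h
  obtain ⟨Lm, hLm, h⟩ := bO_some h
  obtain ⟨L, Lr, eL, hLr, h⟩ := lF_some hε E.d E.s D.dl D.dr D.dn h
  obtain ⟨N, Nr, eN, hNr, h⟩ := nF_some hε E.d E.s D.dl D.dr D.dt h
  have kx := F.Encl.add E.X E.Y
  have kt := F.Encl.add E.T E.H
  have ebu := F.Encl.lnB hε kx kt hbu
  have eLc := F.Encl.lnA hε (r4_encl (5000 - c) ε) E.q hLc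
  have eLm := F.Encl.lnA hε (r4_encl (5000 - m) ε) (F.Encl.add E.T E.R) hLm
  have ek := lkF'_encl (ln := ln) (j := j) hb hl hε E.Y
  have eli := linF_encl (u1 := u1) (v1 := v1) (u2 := u2) (v2 := v2) hε E.X
  have k1 := F.Encl.add (F.Encl.add (F.Encl.sub (F.Encl.add (F.Encl.add eL eL)
    (F.Encl.mul hε E.W (F.Encl.sub eN ebu))) (lwF_encl (w := w) (ln := ln) (j := j) hl hε
      (rrF_encl hb hε E.Y E.W))) (F.Encl.mul hε (F.Encl.sub (one_encl ε) ek) eLm))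
      (F.Encl.mul hε (F.Encl.add (one_encl ε) ek) eLc)
  have hw : 4 * r * (Nr - lnB (x + y) (t + 4 * (r * y))) ≤ Hb x t y r := by
    unfold Hb
    exact mul_le_mul_of_nonneg_left (by linarith only [hNr]) (by linarith only [D, D.r0])
  unfold PC Ln
  simp only at h
  rcases h0 : Nat.beq rg 0 with _ | _
  · rw [h0, cond_false] at h
    obtain ⟨aa, haa, h⟩ := bO_some h
    obtain ⟨ax, hax, h⟩ := bO_some h
    have e2 := F.Encl.lnA hε (r4_encl a ε) E.T haa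
    have e3 := F.Encl.lnA hε E.X E.T hax
    have p := posF_spec hε (F.Encl.add (F.Encl.add k1 (two_encl hε (F.Encl.sub e3 e2))) eli) h
    refine Or.inr ⟨Nat.ne_of_beq_eq_false h0, ?_⟩
    linarith only [hLr, hw, p]
  · rw [h0, cond_true] at h
    have p := posF_spec hε (F.Encl.add k1 eli) h
    refine Or.inl ⟨Nat.eq_of_beq_eq_true h0, ?_⟩
    linarith only [hLr, hw, p]

/-- the box has no admissible point -/
def vac (q0 q1 k : ℕ) (q d s : F) : Bool :=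
  cond (Nat.beq k 120) (cond (Nat.ble 1 q0) (posF ((F.rat q0 10000).sub q)) false)
    (cond (Nat.beq k 121) (posF (q.sub (F.rat q1 10000)))
      (cond (posF d.neg) (posF s.neg) false))

lemma vac_sound {k : ℕ} (E : En ε X T Y R q H d s W4 x t y r) (D : Dmn q0 q1 x t y r)
    (h : vac q0 q1 k q d s = true) : False := by
  have hε := E.e
  unfold vac at h
  rcases h0 : Nat.beq k 120 with _ | _
  · rw [h0, cond_false] at h
    rcases h1 : Nat.beq k 121 with _ | _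
    · rw [h1, cond_false] at h
      obtain ⟨g1, g2⟩ := cond_ff h
      have p1 := posF_spec hε (negE E.d) g1
      have p2 := posF_spec hε (negE E.s) g2
      have := D.dt (by linarith only [p1])
      linarith only [p2, this]
    · rw [h1, cond_true] at h
      have p := posF_spec hε (F.Encl.sub E.q (r4_encl q1 ε)) h
      have := D.hi
      linarith only [p, this]
  · rw [h0, cond_true] at h
    obtain ⟨g1, g2⟩ := cond_ff h
    have p := posF_spec hε (F.Encl.sub (r4_encl q0 ε) E.q) g2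
    have := D.lo (Nat.le_of_ble_eq_true g1)
    linarith only [p, this]

end

/-! ### tests -/

/-- `j = 1` if the mixture is fixed -/
def jj (jm k : ℕ) : ℕ := cond (Nat.beq jm 0) 1 (Nat.land (Nat.shiftRight k 1) 3)

lemma jj_le (jm k : ℕ) : jj jm k ≤ 3 := by
  unfold jj
  rcases Nat.beq jm 0 with _ | _
  · rw [cond_false]
    exact Nat.and_le_right
  · rw [cond_true]
    norm_num

lemma jj_one (k : ℕ) : jj 0 k = 1 := rfl

/-- the hinge beyond its part -/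
def tP (b w ln ld jm c u1 v1 u2 v2 q0 q1 k : ℕ) (X T Y R : F) : Bool :=
  let q := R.sub T
  let H := F.mulq 4 1 (R.mul Y)
  let d := Y.sub X
  let s := H.sub T
  cond (Nat.ble 120 k) (vac q0 q1 k q d s)
    (fN (jj jm k) fun j => fN (Nat.mod (Nat.shiftRight k 3) 3) fun lf =>
      fN (Nat.div (Nat.shiftRight k 3) 3) fun nf =>
        gA b w ln ld c u1 v1 u2 v2 j lf nf X T Y R q H d s (F.mulq 4 1 R))

/-- below the saddle point -/
def tD (rg b w ln ld jm c s0 a u1 v1 u2 v2 u1' v1' u2' v2' q0 q1 k : ℕ) (X T Y R : F) : Bool :=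
  let q := R.sub T
  let H := F.mulq 4 1 (R.mul Y)
  let d := Y.sub X
  let s := H.sub T
  cond (Nat.ble 120 k) (vac q0 q1 k q d s)
    (fN (jj jm k) fun j => fN (Nat.mod (Nat.shiftRight k 3) 3) fun lf =>
      fN (Nat.div (Nat.shiftRight k 3) 3) fun nf =>
        cond (Nat.beq (Nat.land k 1) 0)
          (gA b w ln ld c u1 v1 u2 v2 j lf nf X T Y R q H d s (F.mulq 4 1 R))
          (gB rg b w ln ld s0 a u1' v1' u2' v2' j nf X T Y R q H d s (F.mulq 4 1 R)))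

/-- above the saddle point -/
def tU (rg b w ln ld jm c m a u1 v1 u2 v2 u1' v1' u2' v2' q0 q1 k : ℕ) (X T Y R : F) : Bool :=
  let q := R.sub T
  let H := F.mulq 4 1 (R.mul Y)
  let d := Y.sub X
  let s := H.sub T
  cond (Nat.ble 120 k) (vac q0 q1 k q d s)
    (fN (jj jm k) fun j => fN (Nat.mod (Nat.shiftRight k 3) 3) fun lf =>
      fN (Nat.div (Nat.shiftRight k 3) 3) fun nf =>
        cond (Nat.beq (Nat.land k 1) 0)
          (gA b w ln ld c u1 v1 u2 v2 j lf nf X T Y R q H d s (F.mulq 4 1 R))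
          (gC rg b w ln ld c m a u1' v1' u2' v2' j lf nf X T Y R q H d s (F.mulq 4 1 R)))

section
variable {rg b w ln ld jm c s0 m a u1 v1 u2 v2 u1' v1' u2' v2' q0 q1 : ℕ}

def QP (b w ln ld jm c u1 v1 u2 v2 q0 q1 : ℕ) (x t y r : ℝ) : Prop :=
  Dmn q0 q1 x t y r → ∃ j, j ≤ 3 ∧ (jm = 0 → j = 1) ∧ PA b w ln ld c u1 v1 u2 v2 j x t y r

def QD (rg b w ln ld jm c s0 a u1 v1 u2 v2 u1' v1' u2' v2' q0 q1 : ℕ) (x t y r : ℝ) : Prop :=
  Dmn q0 q1 x t y r → ∃ j, j ≤ 3 ∧ (jm = 0 → j = 1) ∧ (PA b w ln ld c u1 v1 u2 v2 j x t y r ∨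
    PB rg b w ln ld s0 a u1' v1' u2' v2' j x t y r)

def QU (rg b w ln ld jm c m a u1 v1 u2 v2 u1' v1' u2' v2' q0 q1 : ℕ) (x t y r : ℝ) : Prop :=
  Dmn q0 q1 x t y r → ∃ j, j ≤ 3 ∧ (jm = 0 → j = 1) ∧ (PA b w ln ld c u1 v1 u2 v2 j x t y r ∨
    PC rg b w ln ld c m a u1' v1' u2' v2' j x t y r)

theorem tP_ok (hb : 2 ≤ b) (hl : 0 < ld) :
    TestOk (tP b w ln ld jm c u1 v1 u2 v2 q0 q1) (QP b w ln ld jm c u1 v1 u2 v2 q0 q1) := by
  intro k X T Y R ε x t y r hε hX hT hY hR h D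
  have E := En.of hε hX hT hY hR
  unfold tP at h
  simp only at h
  rcases h0 : Nat.ble 120 k with _ | _
  · rw [h0, cond_false, fN_eq, fN_eq, fN_eq] at h
    exact ⟨_, jj_le jm k, fun hj => by rw [hj, jj_one], gA_sound hb hl E D h⟩
  · rw [h0, cond_true] at h
    exact (vac_sound E D h).elim

theorem tD_ok (hb : 2 ≤ b) (hl : 0 < ld) :
    TestOk (tD rg b w ln ld jm c s0 a u1 v1 u2 v2 u1' v1' u2' v2' q0 q1)
      (QD rg b w ln ld jm c s0 a u1 v1 u2 v2 u1' v1' u2' v2' q0 q1) := by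
  intro k X T Y R ε x t y r hε hX hT hY hR h D
  have E := En.of hε hX hT hY hR
  unfold tD at h
  simp only at h
  rcases h0 : Nat.ble 120 k with _ | _
  · rw [h0, cond_false, fN_eq, fN_eq, fN_eq] at h
    refine ⟨_, jj_le jm k, fun hj => by rw [hj, jj_one], ?_⟩
    rcases h1 : Nat.beq (Nat.land k 1) 0 with _ | _
    · rw [h1, cond_false] at h
      exact Or.inr (gB_sound hb hl E D h)
    · rw [h1, cond_true] at h
      exact Or.inl (gA_sound hb hl E D h)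
  · rw [h0, cond_true] at h
    exact (vac_sound E D h).elim

theorem tU_ok (hb : 2 ≤ b) (hl : 0 < ld) :
    TestOk (tU rg b w ln ld jm c m a u1 v1 u2 v2 u1' v1' u2' v2' q0 q1)
      (QU rg b w ln ld jm c m a u1 v1 u2 v2 u1' v1' u2' v2' q0 q1) := by
  intro k X T Y R ε x t y r hε hX hT hY hR h D
  have E := En.of hε hX hT hY hR
  unfold tU at h
  simp only at h
  rcases h0 : Nat.ble 120 k with _ | _
  · rw [h0, cond_false, fN_eq, fN_eq, fN_eq] at h
    refine ⟨_, jj_le jm k, fun hj => by rw [hj, jj_one], ?_⟩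
    rcases h1 : Nat.beq (Nat.land k 1) 0 with _ | _
    · rw [h1, cond_false] at h
      exact Or.inr (gC_sound hb hl E D h)
    · rw [h1, cond_true] at h
      exact Or.inl (gA_sound hb hl E D h)
  · rw [h0, cond_true] at h
    exact (vac_sound E D h).elim

end

end RQ

end Pool.Agent.Work.MP_b30479_gt.G2
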