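import Pool.Agent.Work.MP_b30479_gt.G2.RCF
import Pool.Agent.Work.MP_b30479_gt.G2.WCrit


/-!
# Rings with the ring variable on the ramp: the combination theorem

`x` hinge (level `T`), `y = 1/2 + σ < 1/4`, height `4 ρ y`; `(xs, ys)` saddle point.
The first order condition `Fr p + Fr q ≤ Rr` is split by `Sp`, a mixture of the constant shares
`w` and of the shares of the saddle point.
-/

namespace Pool.Agent.Work.MP_b30479_gt.G2

open Real Set VOL Filter Topology

namespace RC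

/-- the contribution of the hinge to the derivative in the ring variable on the ramp -/
noncomputable def Fr (x y T ρ : ℝ) : ℝ := Dx x y T (4 * ρ * y) +
  4 * ρ * (YY (lv (x + y) (T + 4 * ρ * y)) - YY (lv (y - x) (4 * ρ * y - T)))

/-- the quadratic part of the first order condition on the ramp -/
noncomputable def Rr (b y ρ : ℝ) : ℝ := 4 * π * ρ * (2 - b * (1 - 4 * y))

noncomputable def kr (b y : ℝ) : ℝ := 4 / b - 2 * (1 - 4 * y)

theorem Rr_eq {b : ℝ} (hb : 0 < b) (y ρ : ℝ) : Rr b y ρ = kr b y * (2 * π * b * ρ) := by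
  unfold Rr kr
  field_simp
  ring

/-- the part of `Rr` for one hinge, `D = Dx xs ys T ρ` -/
noncomputable def Sp (w lam b y ρ D : ℝ) : ℝ := (1 - lam) * (w * Rr b y ρ) + lam * (kr b y * D)

/-- the hinge beyond its part -/
noncomputable def Ph (w lam b xs ys T ρ x y : ℝ) : ℝ :=
  Fr x y T ρ - Sp w lam b y ρ (Dx xs ys T ρ)

/-- the increment of the side of the ring -/
noncomputable def dS (xs ys T ρ x y : ℝ) : ℝ := Sx x y T (4 * ρ * y) - Sx xs ys T ρ

/-- points to be considered: on the ramp of the ring variable; at a maximiser `T ≤ 4 ρ y` if the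
hinge is beyond `1/2 - |σ|`, and no factor is singular -/
structure Adm (b T ρ cl cp x y : ℝ) : Prop where
  x0 : cl ≤ x
  x1 : x ≤ cp
  y0 : 1 / 4 - 1 / (2 * b) ≤ y
  y1 : y ≤ 1 / 4
  t : y ≤ x → T ≤ 4 * ρ * y
  /-- the factor is not singular -/
  nz : ¬ (x = y ∧ T = 4 * ρ * y)

/-- comparison statements for one hinge of an interior ring, ring variable on the ramp -/
structure RampOK (lam α β b xs ys T ρ cl cp : ℝ) : Prop where
  ph : ∀ x y, Adm b T ρ cl cp x y →
    α - β * |gh x - gh xs| ≤ Ph (1 / 2) lam b xs ys T ρ x y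
  dn : ∀ x y, Adm b T ρ cl cp x y → x < xs →
    β * |gh x - gh xs| - α < Ph (1 / 2) lam b xs ys T ρ x y ∨
    β * |gh x - gh xs| - α < Ph (1 / 2) lam b xs ys T ρ x y + dS xs ys T ρ x y
  up : ∀ x y, Adm b T ρ cl cp x y → xs < x →
    β * |gh x - gh xs| - α < Ph (1 / 2) lam b xs ys T ρ x y ∨
    β * |gh x - gh xs| - α < Ph (1 / 2) lam b xs ys T ρ x y - dS xs ys T ρ x y

/-- the same for a ring at an end -/
structure RampOK1 (b xs ys T ρ cl cp : ℝ) : Prop where
  eq : ∀ y, Adm b T ρ cl cp xs y → Rr b y ρ < Fr xs y T ρ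
  dn : ∀ x y, Adm b T ρ cl cp x y → x < xs →
    Rr b y ρ < Fr x y T ρ ∨ Rr b y ρ < Fr x y T ρ + dS xs ys T ρ x y
  up : ∀ x y, Adm b T ρ cl cp x y → xs < x →
    Rr b y ρ < Fr x y T ρ ∨ Rr b y ρ < Fr x y T ρ - dS xs ys T ρ x y

/-- no ramp: positivity of `Ph` is enough -/
theorem RampOK.of_pos {lam α b xs ys T ρ cl cp : ℝ} (hα : 0 < α)
    (h : ∀ x y, Adm b T ρ cl cp x y → α ≤ Ph (1 / 2) lam b xs ys T ρ x y) :
    RampOK lam α 0 b xs ys T ρ cl cp := by
  refine ⟨fun x y ha => ?_, fun x y ha _ => Or.inl ?_, fun x y ha _ => Or.inl ?_⟩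
  · have := h x y ha
    linarith only [this]
  · have := h x y ha
    linarith only [hα, this]
  · have := h x y ha
    linarith only [hα, this]

theorem Sp_one {lam b y ρ D : ℝ} (hb : 0 < b) (hD : D = 2 * π * b * ρ) :
    Sp 1 lam b y ρ D = Rr b y ρ := by
  unfold Sp
  rw [hD, ← Rr_eq hb]
  ring

/-- a ring at an end: any mixture can be used -/
theorem RampOK1.of {b xs ys T ρ cl cp : ℝ} (hb : 0 < b) (hD : Dx xs ys T ρ = 2 * π * b * ρ)
    (eq : ∀ y, Adm b T ρ cl cp xs y → ∃ lam, 0 < Ph 1 lam b xs ys T ρ xs y)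
    (dn : ∀ x y, Adm b T ρ cl cp x y → x < xs → ∃ lam,
      0 < Ph 1 lam b xs ys T ρ x y ∨ 0 < Ph 1 lam b xs ys T ρ x y + dS xs ys T ρ x y)
    (up : ∀ x y, Adm b T ρ cl cp x y → xs < x → ∃ lam,
      0 < Ph 1 lam b xs ys T ρ x y ∨ 0 < Ph 1 lam b xs ys T ρ x y - dS xs ys T ρ x y) :
    RampOK1 b xs ys T ρ cl cp := by
  refine ⟨fun y ha => ?_, fun x y ha hx => ?_, fun x y ha hx => ?_⟩
  · obtain ⟨lam, h⟩ := eq y ha
    unfold Ph at h
    rw [Sp_one hb hD] at h
    linarith only [h]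
  · obtain ⟨lam, h⟩ := dn x y ha hx
    unfold Ph at h
    rw [Sp_one hb hD] at h
    rcases h with h | h
    · left; linarith only [h]
    · right; linarith only [h]
  · obtain ⟨lam, h⟩ := up x y ha hx
    unfold Ph at h
    rw [Sp_one hb hD] at h
    rcases h with h | h
    · left; linarith only [h]
    · right; linarith only [h]

section
variable {lam α β b xs ys T ρ cl cp xs' T' cl' cp' x x' y : ℝ}

/-- the two parts add up -/
theorem Ph_add (hb : 0 < b) (hD : Dx xs ys T ρ + Dx xs' ys T' ρ = 2 * π * b * ρ) :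
    Ph (1 / 2) lam b xs ys T ρ x y + Ph (1 / 2) lam b xs' ys T' ρ x' y =
      Fr x y T ρ + Fr x' y T' ρ - Rr b y ρ := by
  unfold Ph Sp
  have h1 := Rr_eq hb y ρ
  rw [← hD] at h1
  linear_combination lam * h1

/-- **Ramp theorem, two hinges.** -/
theorem ramp_two (hp : RampOK lam α β b xs ys T ρ cl cp) (hq : RampOK lam α β b xs' ys T' ρ cl' cp')
    (hb : 0 < b) (hβ : 0 ≤ β) (hD : Dx xs ys T ρ + Dx xs' ys T' ρ = 2 * π * b * ρ)
    (ha : Adm b T ρ cl cp x y) (ha' : Adm b T' ρ cl' cp' x' y)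
    (hN : |gh x' - gh xs'| ≤ |gh x - gh xs|) (foc : Fr x y T ρ + Fr x' y T' ρ ≤ Rr b y ρ) :
    (xs < x → Sx x y T (4 * ρ * y) < Sx xs ys T ρ) ∧
      (x < xs → Sx xs ys T ρ < Sx x y T (4 * ρ * y)) := by
  have e := Ph_add (lam := lam) (x := x) (x' := x') (y := y) hb hD
  have h1 := hq.ph x' y ha'
  have h2 := mul_le_mul_of_nonneg_left hN hβ
  refine ⟨fun hx => ?_, fun hx => ?_⟩
  · rcases hp.up x y ha hx with h | h
    · linarith only [foc, e, h1, h2, h]
    · unfold dS at h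
      linarith only [foc, e, h1, h2, h]
  · rcases hp.dn x y ha hx with h | h
    · linarith only [foc, e, h1, h2, h]
    · unfold dS at h
      linarith only [foc, e, h1, h2, h]

/-- no ring variable on the ramp if the two hinges are at the saddle point -/
theorem ramp_two_in (hp : RampOK lam α β b xs ys T ρ cl cp)
    (hq : RampOK lam α β b xs' ys T' ρ cl' cp') (hα : 0 < α) (hb : 0 < b)
    (hD : Dx xs ys T ρ + Dx xs' ys T' ρ = 2 * π * b * ρ) (ha : Adm b T ρ cl cp xs y)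
    (ha' : Adm b T' ρ cl' cp' xs' y) : Rr b y ρ < Fr xs y T ρ + Fr xs' y T' ρ := by
  have e := Ph_add (lam := lam) (x := xs) (x' := xs') (y := y) hb hD
  have h1 := hp.ph xs y ha
  have h2 := hq.ph xs' y ha'
  rw [sub_self, abs_zero, mul_zero, sub_zero] at h1 h2
  linarith only [hα, e, h1, h2]

/-- **Ramp theorem, one hinge.** -/
theorem ramp_one (hp : RampOK1 b xs ys T ρ cl cp) (ha : Adm b T ρ cl cp x y)
    (foc : Fr x y T ρ ≤ Rr b y ρ) :
    (xs < x → Sx x y T (4 * ρ * y) < Sx xs ys T ρ) ∧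
      (x < xs → Sx xs ys T ρ < Sx x y T (4 * ρ * y)) := by
  refine ⟨fun hx => ?_, fun hx => ?_⟩
  · rcases hp.up x y ha hx with h | h
    · linarith only [foc, h]
    · unfold dS at h
      linarith only [foc, h]
  · rcases hp.dn x y ha hx with h | h
    · linarith only [foc, h]
    · unfold dS at h
      linarith only [foc, h]

end

/-! ### translation of the first order condition -/

theorem lv_eq (x t : ℝ) : lv x t = (x : ℂ) + (t : ℂ) * Complex.I := rfl

theorem zt_lv (ρ : ℝ) {σ : ℝ} (h : σ ≤ -(1 / 4)) :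
    LT.zt ρ σ = lv ((1 / 2 + σ) - 1 / 2) (4 * ρ * (1 / 2 + σ)) := by
  have hth : LT.th σ = 2 + 4 * σ := by
    have : |σ| = -σ := abs_of_neg (by linarith only [h])
    rw [th_of_ge (by rw [this]; linarith only [h]), this]
    ring
  rw [zt_eq, hth]
  unfold lv
  push_cast
  ring

theorem YY_minus (x y T η : ℝ) :
    YY (lv x T + 1 / 2 - lv (y - 1 / 2) η) = YY (lv (y - x) (η - T)) := by
  rw [← YY_one_sub]
  congr 1
  unfold lv
  push_cast
  ring

theorem YY_plus (x y T η : ℝ) :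
    YY (lv x T + 1 / 2 + lv (y - 1 / 2) η) = YY (lv (x + y) (T + η)) := by
  congr 1
  unfold lv
  push_cast
  ring

theorem Fr_eq (x y T ρ : ℝ) :
    Dm (4 * ρ) (lv x T) (lv (y - 1 / 2) (4 * ρ * y)) = Fr x y T ρ := by
  unfold Dm Dq Fr Dx
  rw [fac_plus, fac_minus, YY_plus, YY_minus]
  ring

theorem Dm_zero_left (m : ℝ) (ζ : ℂ) : Dm m 0 ζ = 0 := by
  unfold Dm Dq
  have h1 := LL_one_sub (0 + 1 / 2 + ζ)
  have h2 := YY_one_sub (0 + 1 / 2 + ζ)
  rw [show (1 : ℂ) - (0 + 1 / 2 + ζ) = 0 + 1 / 2 - ζ by ring] at h1 h2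
  rw [h1, h2]
  ring

/-- first order condition on the ramp, two hinges -/
theorem foc_two {b ρ σ x x' T T' : ℝ} (h : RM b ρ (lv x T) (lv x' T') σ) (h0 : -(1 / 2) < σ)
    (h1 : σ < -(1 / 4)) (hx : 0 ≤ x) (hx1 : x ≤ 1 / 2) (hx' : 0 ≤ x') (hx1' : x' ≤ 1 / 2) :
    Fr x (1 / 2 + σ) T ρ + Fr x' (1 / 2 + σ) T' ρ ≤ Rr b (1 / 2 + σ) ρ := by
  have key := h.right_ramp h0 h1 (by rw [lv_re]; exact hx) (by rw [lv_re]; linarith only [h0, h1, hx1])
    (by rw [lv_re]; exact hx') (by rw [lv_re]; linarith only [h0, h1, hx1'])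
  rw [zt_lv ρ h1.le, Fr_eq, Fr_eq] at key
  unfold Rr
  linarith only [key]

/-- first order condition on the ramp, one hinge -/
theorem foc_one {b ρ σ x T : ℝ} (h : RM b ρ (lv x T) 0 σ) (h0 : -(1 / 2) < σ)
    (h1 : σ < -(1 / 4)) (hx : 0 ≤ x) (hx1 : x ≤ 1 / 2) :
    Fr x (1 / 2 + σ) T ρ ≤ Rr b (1 / 2 + σ) ρ := by
  have key := h.right_ramp h0 h1 (by rw [lv_re]; exact hx) (by rw [lv_re]; linarith only [h0, h1, hx1])
    (by simp) (by simp; linarith only [h0, h1])
  rw [zt_lv ρ h1.le, Fr_eq, Dm_zero_left] at key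
  unfold Rr
  linarith only [key]

end RC

end Pool.Agent.Work.MP_b30479_gt.G2
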