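import Pool.Agent.Work.MP_b30479_gt.G2.RDiag

/-!
# Rings on the level part: the derivative of the side along the diagonal, rational form
-/

namespace Pool.Agent.Work.MP_b30479_gt.G2

open Real Set VOL

namespace RC

namespace Row

theorem rat_mono {s v v' : ℝ} (hs : 0 ≤ s) (hv : 0 ≤ v) (h : v ≤ v') : v / (s + v) ≤ v' / (s + v') := by
  rcases (add_nonneg hs hv).lt_or_eq with h1 | h1
  · rw [div_le_div_iff₀ h1 (by linarith only [h, h1])]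
    nlinarith only [hs, h]
  · rw [← h1, div_zero]
    have := hv.trans h
    positivity

theorem rat_k {s v k : ℝ} (hk : 0 < k) : v / (s / k ^ 2 + v) = v * k ^ 2 / (s + v * k ^ 2) := by
  have hk2 : k ^ 2 ≠ 0 := by positivity
  rw [show s / k ^ 2 + v = (s + v * k ^ 2) / k ^ 2 by field_simp, div_div_eq_mul_div]

/-- one half of `WW` times `r²`, the part with `u` aside; `v = t` -/
noncomputable def w1 (a B t : ℝ) : ℝ :=
  4 * B ^ 2 + (1 - a * B) ^ 2 * (2 * (1 + a * B) ^ 2 - kq a B) * (1 + B ^ 2) ^ 2 * t /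
      (4 * (B - a) ^ 2 * (1 + a * B) ^ 2 + t * kq a B ^ 2) -
    2 * (1 + B ^ 2) * (1 - a ^ 2) * (1 - (a * B) ^ 2) * t / (4 * a ^ 2 + t * (1 + a ^ 2) ^ 2)

noncomputable def w0 (a B t : ℝ) : ℝ :=
  4 * B ^ 2 -
    2 * (1 + B ^ 2) * (1 - a ^ 2) * (1 - (a * B) ^ 2) * t / (4 * a ^ 2 + t * (1 + a ^ 2) ^ 2)

/-- the part with `u` -/
noncomputable def ww (a B u : ℝ) : ℝ :=
  (1 + a * B) ^ 2 * (kq a B - 2 * (1 - a * B) ^ 2) * (1 + B ^ 2) ^ 2 * u /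
      (4 * (a + B) ^ 2 * (1 - a * B) ^ 2 + u * kq a B ^ 2)

section
variable {x y T η : ℝ}

theorem cos_add_ta (hx : x ∈ Ioo (0 : ℝ) 1) (hy : y ∈ Ioo (0 : ℝ) 1) :
    Real.cos (π * (x + y)) = (2 * (1 - ta x * ta y) ^ 2 - kq (ta x) (ta y)) / kq (ta x) (ta y) := by
  rw [mul_add, Real.cos_add, sin_ta hx, sin_ta hy, cos_ta hx, cos_ta hy]
  unfold kq
  field_simp
  ring

theorem cos_sub_ta (hx : x ∈ Ioo (0 : ℝ) 1) (hy : y ∈ Ioo (0 : ℝ) 1) :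
    Real.cos (π * (y - x)) = (2 * (1 + ta x * ta y) ^ 2 - kq (ta x) (ta y)) / kq (ta x) (ta y) := by
  rw [mul_sub, Real.cos_sub, sin_ta hx, sin_ta hy, cos_ta hx, cos_ta hy]
  unfold kq
  field_simp
  ring

/-- rational form of `WW` -/
theorem WW_eq (hx : x ∈ Ioo (0 : ℝ) 1) (hy : y ∈ Ioo (0 : ℝ) 1) :
    WW x y T η * (1 + ta y ^ 2) ^ 2 / 2 =
      4 * ta y ^ 2 + (1 - ta x * ta y) ^ 2 * (2 * (1 + ta x * ta y) ^ 2 - kq (ta x) (ta y)) *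
        (1 + ta y ^ 2) ^ 2 * shq (T - η) /
      (4 * (ta y - ta x) ^ 2 * (1 + ta x * ta y) ^ 2 + shq (T - η) * kq (ta x) (ta y) ^ 2) -
    2 * (1 + ta y ^ 2) * (1 - ta x ^ 2) * (1 - (ta x * ta y) ^ 2) * shq T /
      (4 * ta x ^ 2 + shq T * (1 + ta x ^ 2) ^ 2) - ww (ta x) (ta y) (shq (T + η)) := by
  have hk := kq_pos (ta x) (ta y)
  have e1 : Real.sin (π * (y - x)) ^ 2 =
      4 * (ta y - ta x) ^ 2 * (1 + ta x * ta y) ^ 2 / kq (ta x) (ta y) ^ 2 := by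
    rw [sin_sub_ta hx hy, div_pow]
    ring
  have e2 : Real.sin (π * (x + y)) ^ 2 =
      4 * (ta x + ta y) ^ 2 * (1 - ta x * ta y) ^ 2 / kq (ta x) (ta y) ^ 2 := by
    rw [sin_add_ta hx hy, div_pow]
    ring
  have e3 : Real.sin (π * x) ^ 2 = 4 * ta x ^ 2 / (1 + ta x ^ 2) ^ 2 := by
    rw [sin_ta hx, div_pow]
    ring
  have e4 : Real.sin (π * y) ^ 2 = 4 * ta y ^ 2 / (1 + ta y ^ 2) ^ 2 := by
    rw [sin_ta hy, div_pow]
    ring
  have e5 : Real.cos (π * x) + Real.cos (π * y) = 2 * (1 - (ta x * ta y) ^ 2) / kq (ta x) (ta y) := by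
    rw [cos_ta hx, cos_ta hy]
    unfold kq
    field_simp
    ring
  unfold WW ww
  rw [e1, e2, e3, e4, e5, rat_k hk, rat_k hk, rat_k (show 0 < 1 + ta x ^ 2 by positivity),
    cos_add_ta hx hy, cos_sub_ta hx hy, cos_ta hx]
  have h1 : kq (ta x) (ta y) = (1 + ta x ^ 2) * (1 + ta y ^ 2) := rfl
  generalize shq (T - η) = v
  generalize shq (T + η) = u
  generalize shq T = t
  generalize 4 * (ta y - ta x) ^ 2 * (1 + ta x * ta y) ^ 2 = X1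
  generalize 4 * (ta x + ta y) ^ 2 * (1 - ta x * ta y) ^ 2 = X2
  generalize 4 * ta x ^ 2 = X3
  have hx2 : 0 < 1 + ta x ^ 2 := by positivity
  have hy2 : 0 < 1 + ta y ^ 2 := by positivity
  have c1 : (1 + (2 * (1 - ta x * ta y) ^ 2 - kq (ta x) (ta y)) / kq (ta x) (ta y)) *
      ((2 * (1 + ta x * ta y) ^ 2 - kq (ta x) (ta y)) / kq (ta x) (ta y)) =
      2 * (1 - ta x * ta y) ^ 2 * (2 * (1 + ta x * ta y) ^ 2 - kq (ta x) (ta y)) /
        kq (ta x) (ta y) ^ 2 := by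
    field_simp
    ring
  have c2 : (1 + (2 * (1 + ta x * ta y) ^ 2 - kq (ta x) (ta y)) / kq (ta x) (ta y)) *
      ((2 * (1 - ta x * ta y) ^ 2 - kq (ta x) (ta y)) / kq (ta x) (ta y)) =
      2 * (1 + ta x * ta y) ^ 2 * (2 * (1 - ta x * ta y) ^ 2 - kq (ta x) (ta y)) /
        kq (ta x) (ta y) ^ 2 := by
    field_simp
    ring
  have c3 : 2 * ((1 - ta x ^ 2) / (1 + ta x ^ 2)) * (2 * (1 - (ta x * ta y) ^ 2) / kq (ta x) (ta y)) =
      4 * (1 - ta x ^ 2) * (1 - (ta x * ta y) ^ 2) / ((1 + ta x ^ 2) ^ 2 * (1 + ta y ^ 2)) := by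
    rw [h1]
    field_simp
    ring
  rw [c1, c2, c3]
  have d1 : ∀ A D X Y : ℝ, 2 * A * D / kq (ta x) (ta y) ^ 2 *
      (X * kq (ta x) (ta y) ^ 2 / Y) = 2 * A * D * X / Y := by
    intro A D X Y
    rw [← mul_div_assoc]
    congr 1
    field_simp
  have d2 : ∀ Y : ℝ, 4 * (1 - ta x ^ 2) * (1 - (ta x * ta y) ^ 2) /
      ((1 + ta x ^ 2) ^ 2 * (1 + ta y ^ 2)) * (t * (1 + ta x ^ 2) ^ 2 / Y) =
      4 * (1 - ta x ^ 2) * (1 - (ta x * ta y) ^ 2) * t / (1 + ta y ^ 2) / Y := by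
    intro Y
    rw [← mul_div_assoc]
    congr 1
    field_simp
  rw [d1, d1, d2]
  generalize X1 + v * kq (ta x) (ta y) ^ 2 = Y1
  generalize X2 + u * kq (ta x) (ta y) ^ 2 = Y2
  generalize X3 + t * (1 + ta x ^ 2) ^ 2 = Y3
  generalize kq (ta x) (ta y) = k
  simp only [div_eq_mul_inv]
  generalize Y1⁻¹ = Z1
  generalize Y2⁻¹ = Z2
  generalize Y3⁻¹ = Z3
  field_simp
  ring

end

section
variable {a B t τ u : ℝ}

/-- concave case -/
theorem w1_pos (ha : 0 < a) (haB : a < B) (hc : kq a B ≤ 2 * (1 - a * B) ^ 2) (ht : 0 ≤ t)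
    (hτ : t ≤ τ) (h : 0 < w1 a B τ) : 0 < w1 a B t := by
  have hB : 0 < B := ha.trans haB
  have hk := kq_pos a B
  have hβ : 0 < 4 * (B - a) ^ 2 * (1 + a * B) ^ 2 := by
    have : 0 < B - a := by linarith only [haB]
    positivity
  rcases ht.lt_or_eq with ht0 | ht0
  · have hd1 : ∀ s : ℝ, 0 ≤ s → 0 < 4 * (B - a) ^ 2 * (1 + a * B) ^ 2 + s * kq a B ^ 2 := by
      intro s hs; positivity
    have hd2 : ∀ s : ℝ, 0 ≤ s → 0 < 4 * a ^ 2 + s * (1 + a ^ 2) ^ 2 := by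
      intro s hs; positivity
    have key : ∀ s : ℝ, 0 ≤ s → w1 a B s * ((4 * (B - a) ^ 2 * (1 + a * B) ^ 2 + s * kq a B ^ 2) *
        (4 * a ^ 2 + s * (1 + a ^ 2) ^ 2)) =
        64 * a ^ 2 * B ^ 2 * (B - a) ^ 2 * (1 + a * B) ^ 2 +
        s * (4 * B ^ 2 * (4 * (B - a) ^ 2 * (1 + a * B) ^ 2 * (1 + a ^ 2) ^ 2 + 4 * a ^ 2 * kq a B ^ 2) +
          (1 - a * B) ^ 2 * (2 * (1 + a * B) ^ 2 - kq a B) * (1 + B ^ 2) ^ 2 * (4 * a ^ 2) -
          2 * (1 + B ^ 2) * (1 - a ^ 2) * (1 - (a * B) ^ 2) * (4 * (B - a) ^ 2 * (1 + a * B) ^ 2)) +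
        s ^ 2 * (kq a B ^ 2 * ((1 + a * B) ^ 2 * (kq a B - 2 * (1 - a * B) ^ 2))) := by
      intro s hs
      have h1 := (hd1 s hs).ne'
      have h2 := (hd2 s hs).ne'
      unfold w1
      rw [sub_mul, add_mul, mul_comm (4 * (B - a) ^ 2 * (1 + a * B) ^ 2 + s * kq a B ^ 2)
        (4 * a ^ 2 + s * (1 + a ^ 2) ^ 2)]
      have e1 : ∀ A D1 D2 : ℝ, D1 ≠ 0 → A / D1 * (D2 * D1) = A * D2 := by
        intro A D1 D2 h
        field_simp
      have e2 : ∀ A D1 D2 : ℝ, D2 ≠ 0 → A / D2 * (D2 * D1) = A * D1 := by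
        intro A D1 D2 h
        field_simp
      rw [e1 _ _ _ h1, e2 _ _ _ h2]
      unfold kq
      ring
    have kt := key t ht
    have kτ := key τ (ht.trans hτ)
    set E0 := 64 * a ^ 2 * B ^ 2 * (B - a) ^ 2 * (1 + a * B) ^ 2 with hE0
    have hE0p : 0 < E0 := by
      have : 0 < B - a := by linarith only [haB]
      rw [hE0]; positivity
    have hE2 : kq a B ^ 2 * ((1 + a * B) ^ 2 * (kq a B - 2 * (1 - a * B) ^ 2)) ≤ 0 :=
      mul_nonpos_of_nonneg_of_nonpos (by positivity)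
        (mul_nonpos_of_nonneg_of_nonpos (by positivity) (by linarith only [hc]))
    generalize kq a B ^ 2 * ((1 + a * B) ^ 2 * (kq a B - 2 * (1 - a * B) ^ 2)) = E2 at *
    generalize (4 * B ^ 2 * (4 * (B - a) ^ 2 * (1 + a * B) ^ 2 * (1 + a ^ 2) ^ 2 + 4 * a ^ 2 * kq a B ^ 2) +
          (1 - a * B) ^ 2 * (2 * (1 + a * B) ^ 2 - kq a B) * (1 + B ^ 2) ^ 2 * (4 * a ^ 2) -
          2 * (1 + B ^ 2) * (1 - a ^ 2) * (1 - (a * B) ^ 2) * (4 * (B - a) ^ 2 * (1 + a * B) ^ 2)) = E1 at *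
    have pτ : 0 < E0 + τ * E1 + τ ^ 2 * E2 := by
      rw [← kτ]
      exact mul_pos h (mul_pos (hd1 τ (ht.trans hτ)) (hd2 τ (ht.trans hτ)))
    have pt : 0 < E0 + t * E1 + t ^ 2 * E2 := by
      have hτ0 : 0 < τ := ht0.trans_le hτ
      have e : τ * (E0 + t * E1 + t ^ 2 * E2) = (τ - t) * E0 + t * (E0 + τ * E1 + τ ^ 2 * E2) +
        (-E2) * (t * τ * (τ - t)) := by ring
      have h3 : 0 ≤ (τ - t) * E0 := mul_nonneg (by linarith only [hτ]) hE0p.le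
      have h4 : 0 < t * (E0 + τ * E1 + τ ^ 2 * E2) := mul_pos ht0 pτ
      have h5 : 0 ≤ (-E2) * (t * τ * (τ - t)) :=
        mul_nonneg (by linarith only [hE2]) (mul_nonneg (by positivity) (by linarith only [hτ]))
      have h6 : 0 < τ * (E0 + t * E1 + t ^ 2 * E2) := by linarith only [h3, h4, h5]
      exact (pos_iff_pos_of_mul_pos h6).1 hτ0
    rw [← kt] at pt
    exact (pos_iff_pos_of_mul_pos pt).2 (mul_pos (hd1 t ht) (hd2 t ht))
  · rw [← ht0]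
    unfold w1
    simp only [mul_zero, zero_mul, zero_div, add_zero, sub_zero]
    positivity

/-- the linear expression of the convex case -/
noncomputable def lin (a B t u : ℝ) : ℝ :=
  (4 * B ^ 2 - ww a B u) * (4 * (B - a) ^ 2 * (1 + a * B) ^ 2 * (4 * a ^ 2)) +
    t * ((4 * B ^ 2 - ww a B u) * (4 * a ^ 2 * kq a B ^ 2 +
        4 * (B - a) ^ 2 * (1 + a * B) ^ 2 * (1 + a ^ 2) ^ 2) -
      2 * (1 + B ^ 2) * (1 - a ^ 2) * (1 - (a * B) ^ 2) * (4 * (B - a) ^ 2 * (1 + a * B) ^ 2) +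
      (1 - a * B) ^ 2 * (2 * (1 + a * B) ^ 2 - kq a B) * ((1 + B ^ 2) ^ 2 * (4 * a ^ 2)))

/-- convex case -/
theorem w2_pos (ha : 0 < a) (haB : a < B) (hp : a * B < 1) (hc : 2 * (1 - a * B) ^ 2 ≤ kq a B)
    (ht : 0 ≤ t) (hτ : t ≤ τ) (hu : 0 ≤ u) (h0 : 0 < 4 * B ^ 2 - ww a B u) (h : 0 < lin a B τ u) :
    0 < w1 a B t - ww a B u := by
  have hB : 0 < B := ha.trans haB
  have hk := kq_pos a B
  have hβ : 0 < 4 * (B - a) ^ 2 * (1 + a * B) ^ 2 := by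
    have : 0 < B - a := by linarith only [haB]
    positivity
  have hα : 0 < 4 * (a + B) ^ 2 * (1 - a * B) ^ 2 := by
    have : 0 < 1 - a * B := by linarith only [hp]
    positivity
  have hd1 : 0 < 4 * (B - a) ^ 2 * (1 + a * B) ^ 2 + t * kq a B ^ 2 := by positivity
  have hd2 : 0 < 4 * a ^ 2 + t * (1 + a ^ 2) ^ 2 := by positivity
  have hlin : 0 < lin a B t u := by
    unfold lin at h ⊢
    have hE0 : 0 < (4 * B ^ 2 - ww a B u) * (4 * (B - a) ^ 2 * (1 + a * B) ^ 2 * (4 * a ^ 2)) := by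
      positivity
    generalize (4 * B ^ 2 - ww a B u) * (4 * (B - a) ^ 2 * (1 + a * B) ^ 2 * (4 * a ^ 2)) = E0 at *
    generalize ((4 * B ^ 2 - ww a B u) * (4 * a ^ 2 * kq a B ^ 2 +
        4 * (B - a) ^ 2 * (1 + a * B) ^ 2 * (1 + a ^ 2) ^ 2) -
      2 * (1 + B ^ 2) * (1 - a ^ 2) * (1 - (a * B) ^ 2) * (4 * (B - a) ^ 2 * (1 + a * B) ^ 2) +
      (1 - a * B) ^ 2 * (2 * (1 + a * B) ^ 2 - kq a B) * ((1 + B ^ 2) ^ 2 * (4 * a ^ 2))) = E1 at *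
    rcases le_total 0 E1 with h1 | h1
    · have := mul_nonneg ht h1
      linarith only [hE0, this]
    · have : τ * E1 ≤ t * E1 := mul_le_mul_of_nonpos_right hτ h1
      linarith only [h, this]
  have key : (w1 a B t - ww a B u) * ((4 * (B - a) ^ 2 * (1 + a * B) ^ 2 + t * kq a B ^ 2) *
        (4 * a ^ 2 + t * (1 + a ^ 2) ^ 2)) = lin a B t u +
        t ^ 2 * ((4 * B ^ 2 - ww a B u) * (kq a B ^ 2 * (1 + a ^ 2) ^ 2) -
          2 * (1 + B ^ 2) * (1 - a ^ 2) * (1 - (a * B) ^ 2) * kq a B ^ 2 +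
          (1 - a * B) ^ 2 * (2 * (1 + a * B) ^ 2 - kq a B) * (1 + B ^ 2) ^ 2 * (1 + a ^ 2) ^ 2) := by
    have e1 : ∀ A D1 D2 : ℝ, D1 ≠ 0 → A / D1 * (D1 * D2) = A * D2 := by
      intro A D1 D2 h
      field_simp
    have e2 : ∀ A D1 D2 : ℝ, D2 ≠ 0 → A / D2 * (D1 * D2) = A * D1 := by
      intro A D1 D2 h
      field_simp
    unfold w1 lin
    rw [sub_mul, sub_mul, add_mul, e1 _ _ _ hd1.ne', e2 _ _ _ hd2.ne']
    ring
  have hE2 : 0 ≤ (4 * B ^ 2 - ww a B u) * (kq a B ^ 2 * (1 + a ^ 2) ^ 2) -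
          2 * (1 + B ^ 2) * (1 - a ^ 2) * (1 - (a * B) ^ 2) * kq a B ^ 2 +
          (1 - a * B) ^ 2 * (2 * (1 + a * B) ^ 2 - kq a B) * (1 + B ^ 2) ^ 2 * (1 + a ^ 2) ^ 2 := by
    have e3 : (4 * B ^ 2 - ww a B u) * (kq a B ^ 2 * (1 + a ^ 2) ^ 2) -
          2 * (1 + B ^ 2) * (1 - a ^ 2) * (1 - (a * B) ^ 2) * kq a B ^ 2 +
          (1 - a * B) ^ 2 * (2 * (1 + a * B) ^ 2 - kq a B) * (1 + B ^ 2) ^ 2 * (1 + a ^ 2) ^ 2 =
        kq a B ^ 2 * ((1 + a * B) ^ 2 * (kq a B - 2 * (1 - a * B) ^ 2)) -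
          ww a B u * (kq a B ^ 2 * (1 + a ^ 2) ^ 2) := by
      unfold kq
      ring
    rw [e3]
    have e4 : ww a B u * (kq a B ^ 2 * (1 + a ^ 2) ^ 2) =
        kq a B ^ 2 * ((1 + a * B) ^ 2 * (kq a B - 2 * (1 - a * B) ^ 2)) *
          (u * kq a B ^ 2 / (4 * (a + B) ^ 2 * (1 - a * B) ^ 2 + u * kq a B ^ 2)) := by
      unfold ww
      rw [div_mul_eq_mul_div, mul_div_assoc']
      congr 1
      unfold kq
      ring
    rw [e4]
    have h5 : u * kq a B ^ 2 / (4 * (a + B) ^ 2 * (1 - a * B) ^ 2 + u * kq a B ^ 2) ≤ 1 := by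
      rw [div_le_one (by positivity)]
      linarith only [hα]
    have h6 : 0 ≤ kq a B ^ 2 * ((1 + a * B) ^ 2 * (kq a B - 2 * (1 - a * B) ^ 2)) :=
      mul_nonneg (by positivity) (mul_nonneg (by positivity) (by linarith only [hc]))
    have := mul_le_mul_of_nonneg_left h5 h6
    linarith only [this]
  have h7 : 0 < (w1 a B t - ww a B u) * ((4 * (B - a) ^ 2 * (1 + a * B) ^ 2 + t * kq a B ^ 2) *
        (4 * a ^ 2 + t * (1 + a ^ 2) ^ 2)) := by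
    rw [key]
    have := mul_nonneg (sq_nonneg t) hE2
    linarith only [hlin, this]
  exact (pos_iff_pos_of_mul_pos h7).2 (mul_pos hd1 hd2)

end

end Row

end RC

end Pool.Agent.Work.MP_b30479_gt.G2
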