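import Pool.Agent.Work.MP_b30479_gt.G2.RRow

/-!
# Rings on the level part: engine rows for the diagonal
-/

namespace Pool.Agent.Work.MP_b30479_gt.G2

open Real Set VOL

namespace RC

namespace Row

open NumI NumI.E

def one : E := q 1 1
def two : E := q 2 1
def four : E := q 4 1
def dv (a b : E) : E := mul a (inv b)

/-- variables `a`, `B`; `2 = 1 + B²`, `3 = 1 + a²`, `4 = a B`, `5 = k`, `6 = (1 - a B)²`,
`7 = (1 + a B)²`, `8 = 4 (B - a)² (1 + a B)²`, `9 = 4 a²` -/
def wrap (e : E) : E :=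
  lt (add one (sq (var 1))) <| lt (add one (sq (var 0))) <|
  lt (mul (var 0) (var 1)) <| lt (mul (var 2) (var 3)) <| lt (sq (sub one (var 4))) <|
  lt (sq (add one (var 4))) <| lt (mul four (mul (sq (sub (var 1) (var 0))) (var 7))) <|
  lt (mul four (sq (var 0))) e

def ew1 (t : E) : E := sub (add (mul four (sq (var 1)))
  (dv (mul (mul (var 6) (mul (sub (mul two (var 7)) (var 5)) (sq (var 2)))) t)
    (add (var 8) (mul t (sq (var 5))))))
  (dv (mul (mul two (mul (var 2) (sub one (sq (var 0))))) (mul (sub one (sq (var 4))) t))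
    (add (var 9) (mul t (sq (var 3)))))
def ew0 (t : E) : E := sub (mul four (sq (var 1)))
  (dv (mul (mul two (mul (var 2) (sub one (sq (var 0))))) (mul (sub one (sq (var 4))) t))
    (add (var 9) (mul t (sq (var 3)))))
def eww (u : E) : E := dv (mul (mul (var 7) (mul (sub (var 5) (mul two (var 6))) (sq (var 2)))) u)
  (add (mul four (mul (sq (add (var 1) (var 0))) (var 6))) (mul u (sq (var 5))))
def elin (t u : E) : E := lt (sub (mul four (sq (var 1))) (eww u))
  (add (mul (var 10) (mul (var 8) (var 9))) (mul t (add (sub (mul (var 10)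
    (add (mul (var 9) (sq (var 5))) (mul (var 8) (sq (var 3)))))
  (mul (mul two (mul (var 2) (sub one (sq (var 0))))) (mul (sub one (sq (var 4))) (var 8))))
    (mul (mul (var 6) (sub (mul two (var 7)) (var 5))) (mul (sq (var 2)) (var 9))))))
def gtK (n : ℤ) (d : ℕ) : E := sub (var 0) (mul (q n d) (var 1))
def ltP (n : ℤ) (d : ℕ) : E := sub (q n d) (mul (var 0) (var 1))
def cap : E := sub (sq (add (var 0) (var 1))) (sq (sub one (mul (var 0) (var 1))))

section
variable (a B : ℝ) (n : ℤ) (d : ℕ)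

theorem ew1_val : (wrap (ew1 (q n d))).val [a, B] = w1 a B (n / d) := by
  simp only [wrap, ew1, one, two, four, dv, E.val, lkR_zero, lkR_succ, List.cons_append,
    List.nil_append, w1, kq]
  push_cast
  ring_nf

theorem ew0_val : (wrap (ew0 (q n d))).val [a, B] = w0 a B (n / d) := by
  simp only [wrap, ew0, one, two, four, dv, E.val, lkR_zero, lkR_succ, List.cons_append,
    List.nil_append, w0]
  push_cast
  ring_nf

theorem eww_val (c : List ℝ) : (eww (q n d)).val ([a, B, 1 + B ^ 2, 1 + a ^ 2, a * B,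
    (1 + B ^ 2) * (1 + a ^ 2), (1 - a * B) ^ 2, (1 + a * B) ^ 2] ++ c) = ww a B (n / d) := by
  simp only [eww, one, two, four, dv, E.val, lkR_zero, lkR_succ, List.cons_append,
    List.nil_append, ww, kq]
  push_cast
  ring_nf

theorem esub_val : (wrap (sub (mul four (sq (var 1))) (eww (q n d)))).val [a, B] =
    4 * B ^ 2 - ww a B (n / d) := by
  have h := eww_val a B n d [4 * ((B - a) ^ 2 * (1 + a * B) ^ 2), 4 * a ^ 2]
  simp only [wrap, one, two, four, dv, E.val, lkR_zero, lkR_succ, List.cons_append,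
    List.nil_append] at h ⊢
  push_cast at h ⊢
  rw [one_div_one] at *
  simp only [div_one] at *
  rw [h]

theorem esub0_val (m : ℤ) (e : ℕ) : (wrap (sub (ew0 (q m e)) (eww (q n d)))).val [a, B] =
    w0 a B (m / e) - ww a B (n / d) := by
  have h := eww_val a B n d [4 * ((B - a) ^ 2 * (1 + a * B) ^ 2), 4 * a ^ 2]
  have h2 := ew0_val a B m e
  simp only [wrap, one, two, four, dv, E.val, lkR_zero, lkR_succ, List.cons_append,
    List.nil_append] at h h2 ⊢
  push_cast at h h2 ⊢
  simp only [div_one] at *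
  rw [h, h2]

theorem elin_val (m : ℤ) (e : ℕ) : (wrap (elin (q m e) (q n d))).val [a, B] =
    lin a B (m / e) (n / d) := by
  have h := eww_val a B n d [4 * ((B - a) ^ 2 * (1 + a * B) ^ 2), 4 * a ^ 2]
  simp only [wrap, elin, one, two, four, dv, E.val, lkR_zero, lkR_succ, List.cons_append,
    List.nil_append] at h ⊢
  push_cast at h ⊢
  simp only [div_one] at *
  rw [h]
  unfold lin kq
  ring

end

theorem pick5 {e a b c d : E} {xs : List ℝ} (h : ∃ e' ∈ [e, a, b, c, d], 0 < e'.val xs)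
    (ha : a.val xs ≤ 0) (hb : b.val xs ≤ 0) (hc : c.val xs ≤ 0) (hd : d.val xs ≤ 0) :
    0 < e.val xs := by
  obtain ⟨e', he, hp⟩ := h
  simp only [List.mem_cons, List.not_mem_nil, or_false] at he
  rcases he with rfl | rfl | rfl | rfl | rfl
  · exact hp
  all_goals exact absurd hp (not_lt.2 (by assumption))

section
variable {a B : ℝ}

theorem gtK_val {n : ℤ} {d : ℕ} (h : a ≤ n / d * B) : (gtK n d).val [a, B] ≤ 0 := by
  simp only [gtK, E.val, lkR_zero, lkR_one]
  linarith only [h]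

theorem ngtK_val {n : ℤ} {d : ℕ} (h : n / d * B ≤ a) : (neg (gtK n d)).val [a, B] ≤ 0 := by
  simp only [gtK, E.val, lkR_zero, lkR_one]
  linarith only [h]

theorem ltP_val {n : ℤ} {d : ℕ} (h : n / d ≤ a * B) : (ltP n d).val [a, B] ≤ 0 := by
  simp only [ltP, E.val, lkR_zero, lkR_one]
  linarith only [h]

theorem gtP_val {n : ℤ} {d : ℕ} (h : a * B ≤ n / d) : (neg (ltP n d)).val [a, B] ≤ 0 := by
  simp only [ltP, E.val, lkR_zero, lkR_one]
  linarith only [h]

theorem cap_val (h : kq a B ≤ 2 * (1 - a * B) ^ 2) : cap.val [a, B] ≤ 0 := by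
  simp only [cap, one, E.val, lkR_zero, lkR_one]
  unfold kq at h
  push_cast
  linarith only [h]

theorem ncap_val (h : 2 * (1 - a * B) ^ 2 ≤ kq a B) : (neg cap).val [a, B] ≤ 0 := by
  simp only [cap, one, E.val, lkR_zero, lkR_one]
  unfold kq at h
  push_cast
  linarith only [h]

end

/-! ### class 1 -/

theorem cA1 : chk [wrap (ew1 (q 2678 10000)), gtK 94 100, neg (gtK 349 1000), ltP 1063 10000, cap] 22
    [V.of 1000 256 550, V.of 1000 256 1376] = true := by decide +kernel

theorem cA2 : chk [wrap (elin (q 2678 10000) (q 2678 10000)), gtK 94 100, neg (gtK 349 1000),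
    neg (ltP 55 100), neg cap] 22 [V.of 1000 256 550, V.of 1000 256 1376] = true := by decide +kernel

theorem cA3 : chk [wrap (sub (mul four (sq (var 1))) (eww (q 2678 10000))), gtK 94 100,
    neg (gtK 349 1000), neg (ltP 55 100), neg cap] 22 [V.of 1000 256 550, V.of 1000 256 1376] = true := by
  decide +kernel

theorem rowA {a B : ℝ} (h1 : 256 / 1000 ≤ a) (h2 : a ≤ 550 / 1000) (h3 : 256 / 1000 ≤ B)
    (h4 : B ≤ 1376 / 1000) (k0 : 349 / 1000 * B ≤ a) (k1 : a ≤ 94 / 100 * B)
    (hp : 1063 / 10000 ≤ a * B) (hp' : a * B ≤ 55 / 100) :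
    (kq a B ≤ 2 * (1 - a * B) ^ 2 → 0 < w1 a B (2678 / 10000)) ∧
    (2 * (1 - a * B) ^ 2 ≤ kq a B → 0 < 4 * B ^ 2 - ww a B (2678 / 10000) ∧
      0 < lin a B (2678 / 10000) (2678 / 10000)) := by
  refine ⟨fun hc => ?_, fun hc => ⟨?_, ?_⟩⟩
  · have h := pick5 (chk2 cA1 (by norm_num) (x := a) (y := B) (by norm_num; linarith only [h1])
      (by norm_num; linarith only [h2]) (by norm_num; linarith only [h1, k1]) (by norm_num; linarith only [h4]))
      (gtK_val (by push_cast; linarith only [k1])) (ngtK_val (by push_cast; linarith only [k0]))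
      (ltP_val (by push_cast; linarith only [hp])) (cap_val hc)
    rw [ew1_val] at h
    simpa using h
  · have h := pick5 (chk2 cA3 (by norm_num) (x := a) (y := B) (by norm_num; linarith only [h1])
      (by norm_num; linarith only [h2]) (by norm_num; linarith only [h1, k1]) (by norm_num; linarith only [h4]))
      (gtK_val (by push_cast; linarith only [k1])) (ngtK_val (by push_cast; linarith only [k0]))
      (gtP_val (by push_cast; linarith only [hp'])) (ncap_val hc)
    rw [esub_val] at h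
    simpa using h
  · have h := pick5 (chk2 cA2 (by norm_num) (x := a) (y := B) (by norm_num; linarith only [h1])
      (by norm_num; linarith only [h2]) (by norm_num; linarith only [h1, k1]) (by norm_num; linarith only [h4]))
      (gtK_val (by push_cast; linarith only [k1])) (ngtK_val (by push_cast; linarith only [k0]))
      (gtP_val (by push_cast; linarith only [hp'])) (ncap_val hc)
    rw [elin_val] at h
    simpa using h

/-! ### the other classes, height `≤ 0` -/

theorem cB1 : chk [wrap (ew1 (q 1792 10000)), gtK 8129 10000, neg (gtK 26 100), ltP 823 10000, cap] 22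
    [V.of 1000 198 510, V.of 1000 198 1430] = true := by decide +kernel

theorem cB2 : chk [wrap (elin (q 1792 10000) (q 1792 10000)), gtK 8129 10000, neg (gtK 26 100),
    neg (ltP 51 100), neg cap] 22 [V.of 1000 198 510, V.of 1000 198 1430] = true := by decide +kernel

theorem cB3 : chk [wrap (sub (mul four (sq (var 1))) (eww (q 1792 10000))), gtK 8129 10000,
    neg (gtK 26 100), neg (ltP 51 100), neg cap] 22 [V.of 1000 198 510, V.of 1000 198 1430] = true := by
  decide +kernel

theorem rowB {a B : ℝ} (h1 : 198 / 1000 ≤ a) (h2 : a ≤ 510 / 1000) (h3 : 198 / 1000 ≤ B)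
    (h4 : B ≤ 1430 / 1000) (k0 : 26 / 100 * B ≤ a) (k1 : a ≤ 8129 / 10000 * B)
    (hp : 823 / 10000 ≤ a * B) (hp' : a * B ≤ 51 / 100) :
    (kq a B ≤ 2 * (1 - a * B) ^ 2 → 0 < w1 a B (1792 / 10000)) ∧
    (2 * (1 - a * B) ^ 2 ≤ kq a B → 0 < 4 * B ^ 2 - ww a B (1792 / 10000) ∧
      0 < lin a B (1792 / 10000) (1792 / 10000)) := by
  refine ⟨fun hc => ?_, fun hc => ⟨?_, ?_⟩⟩
  · have h := pick5 (chk2 cB1 (by norm_num) (x := a) (y := B) (by norm_num; linarith only [h1])
      (by norm_num; linarith only [h2]) (by norm_num; linarith only [h1, k1]) (by norm_num; linarith only [h4]))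
      (gtK_val (by push_cast; linarith only [k1])) (ngtK_val (by push_cast; linarith only [k0]))
      (ltP_val (by push_cast; linarith only [hp])) (cap_val hc)
    rw [ew1_val] at h
    simpa using h
  · have h := pick5 (chk2 cB3 (by norm_num) (x := a) (y := B) (by norm_num; linarith only [h1])
      (by norm_num; linarith only [h2]) (by norm_num; linarith only [h1, k1]) (by norm_num; linarith only [h4]))
      (gtK_val (by push_cast; linarith only [k1])) (ngtK_val (by push_cast; linarith only [k0]))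
      (gtP_val (by push_cast; linarith only [hp'])) (ncap_val hc)
    rw [esub_val] at h
    simpa using h
  · have h := pick5 (chk2 cB2 (by norm_num) (x := a) (y := B) (by norm_num; linarith only [h1])
      (by norm_num; linarith only [h2]) (by norm_num; linarith only [h1, k1]) (by norm_num; linarith only [h4]))
      (gtK_val (by push_cast; linarith only [k1])) (ngtK_val (by push_cast; linarith only [k0]))
      (gtP_val (by push_cast; linarith only [hp'])) (ncap_val hc)
    rw [elin_val] at h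
    simpa using h

/-! ### height `≥ 0` -/

theorem cC1 : chk [wrap (ew0 (q 36 1000)), gtK 81 100, neg (gtK 26 100), ltP 656 10000, cap] 22
    [V.of 1000 158 510, V.of 1000 158 1430] = true := by decide +kernel

theorem cC2 : chk [wrap (sub (ew0 (q 36 1000)) (eww (q 2926 10000))), gtK 81 100, neg (gtK 26 100),
    neg (ltP 51 100), neg cap] 22 [V.of 1000 158 510, V.of 1000 158 1430] = true := by decide +kernel

theorem rowC {a B : ℝ} (h1 : 158 / 1000 ≤ a) (h2 : a ≤ 510 / 1000) (h3 : 158 / 1000 ≤ B)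
    (h4 : B ≤ 1430 / 1000) (k0 : 26 / 100 * B ≤ a) (k1 : a ≤ 81 / 100 * B)
    (hp : 656 / 10000 ≤ a * B) (hp' : a * B ≤ 51 / 100) :
    (kq a B ≤ 2 * (1 - a * B) ^ 2 → 0 < w0 a B (36 / 1000)) ∧
    (2 * (1 - a * B) ^ 2 ≤ kq a B → 0 < w0 a B (36 / 1000) - ww a B (2926 / 10000)) := by
  refine ⟨fun hc => ?_, fun hc => ?_⟩
  · have h := pick5 (chk2 cC1 (by norm_num) (x := a) (y := B) (by norm_num; linarith only [h1])
      (by norm_num; linarith only [h2]) (by norm_num; linarith only [h1, k1]) (by norm_num; linarith only [h4]))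
      (gtK_val (by push_cast; linarith only [k1])) (ngtK_val (by push_cast; linarith only [k0]))
      (ltP_val (by push_cast; linarith only [hp])) (cap_val hc)
    rw [ew0_val] at h
    simpa using h
  · have h := pick5 (chk2 cC2 (by norm_num) (x := a) (y := B) (by norm_num; linarith only [h1])
      (by norm_num; linarith only [h2]) (by norm_num; linarith only [h1, k1]) (by norm_num; linarith only [h4]))
      (gtK_val (by push_cast; linarith only [k1])) (ngtK_val (by push_cast; linarith only [k0]))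
      (gtP_val (by push_cast; linarith only [hp'])) (ncap_val hc)
    rw [esub0_val] at h
    simpa using h

/-! ### transfer -/

theorem shq_mono {s t : ℝ} (h : |s| ≤ |t|) : shq s ≤ shq t := by
  unfold shq
  rw [sq_le_sq, Real.abs_sinh, Real.abs_sinh]
  apply Real.sinh_le_sinh.2
  rw [abs_mul, abs_mul]
  exact mul_le_mul_of_nonneg_left h (abs_nonneg _)

section
variable {x y T η τ u : ℝ}

theorem ww_mono {a B u v : ℝ} (hc : 2 * (1 - a * B) ^ 2 ≤ kq a B) (hu : 0 ≤ u) (h : u ≤ v) :
    ww a B u ≤ ww a B v := by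
  have hk := kq_pos a B
  have e : ∀ u : ℝ, ww a B u = (1 + a * B) ^ 2 * (kq a B - 2 * (1 - a * B) ^ 2) * (1 + B ^ 2) ^ 2 /
      kq a B ^ 2 * (u * kq a B ^ 2 / (4 * (a + B) ^ 2 * (1 - a * B) ^ 2 + u * kq a B ^ 2)) := by
    intro u
    unfold ww
    rw [← mul_div_assoc]
    congr 1
    field_simp
  rw [e, e]
  apply mul_le_mul_of_nonneg_left _ (div_nonneg (mul_nonneg (mul_nonneg (by positivity)
    (by linarith only [hc])) (by positivity)) (by positivity))
  exact rat_mono (by positivity) (by positivity) (mul_le_mul_of_nonneg_right h (by positivity))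

/-- height `≤ 0` -/
theorem WW_pos (hx : x ∈ Ioo (0 : ℝ) 1) (hy : y ∈ Ioo (0 : ℝ) 1) (hxy : ta x < ta y)
    (hy2 : kq (ta x) (ta y) ≤ 2 * (1 + ta x * ta y) ^ 2) (hp : ta x * ta y < 1)
    (ht : shq T ≤ τ) (hv : shq T ≤ shq (T - η)) (hu : shq (T + η) ≤ u)
    (h1 : kq (ta x) (ta y) ≤ 2 * (1 - ta x * ta y) ^ 2 → 0 < w1 (ta x) (ta y) τ)
    (h2 : 2 * (1 - ta x * ta y) ^ 2 ≤ kq (ta x) (ta y) →
      0 < 4 * ta y ^ 2 - ww (ta x) (ta y) u ∧ 0 < lin (ta x) (ta y) τ u) : 0 < WW x y T η := by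
  have e := WW_eq (T := T) (η := η) hx hy
  have hax := ta_pos hx
  have hay := ta_pos hy
  have hk := kq_pos (ta x) (ta y)
  have hτ0 := shq_nonneg T
  have hu0 := shq_nonneg (T + η)
  have hmon : w1 (ta x) (ta y) (shq T) ≤
      4 * ta y ^ 2 + (1 - ta x * ta y) ^ 2 * (2 * (1 + ta x * ta y) ^ 2 - kq (ta x) (ta y)) *
        (1 + ta y ^ 2) ^ 2 * shq (T - η) /
      (4 * (ta y - ta x) ^ 2 * (1 + ta x * ta y) ^ 2 + shq (T - η) * kq (ta x) (ta y) ^ 2) -
    2 * (1 + ta y ^ 2) * (1 - ta x ^ 2) * (1 - (ta x * ta y) ^ 2) * shq T /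
      (4 * ta x ^ 2 + shq T * (1 + ta x ^ 2) ^ 2) := by
    unfold w1
    have e2 : ∀ v : ℝ, (1 - ta x * ta y) ^ 2 * (2 * (1 + ta x * ta y) ^ 2 - kq (ta x) (ta y)) *
        (1 + ta y ^ 2) ^ 2 * v /
      (4 * (ta y - ta x) ^ 2 * (1 + ta x * ta y) ^ 2 + v * kq (ta x) (ta y) ^ 2) =
      (1 - ta x * ta y) ^ 2 * (2 * (1 + ta x * ta y) ^ 2 - kq (ta x) (ta y)) *
        (1 + ta y ^ 2) ^ 2 / kq (ta x) (ta y) ^ 2 * (v * kq (ta x) (ta y) ^ 2 /
      (4 * (ta y - ta x) ^ 2 * (1 + ta x * ta y) ^ 2 + v * kq (ta x) (ta y) ^ 2)) := by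
      intro v
      rw [← mul_div_assoc]
      congr 1
      field_simp
    rw [e2, e2]
    have h3 : shq T * kq (ta x) (ta y) ^ 2 /
        (4 * (ta y - ta x) ^ 2 * (1 + ta x * ta y) ^ 2 + shq T * kq (ta x) (ta y) ^ 2) ≤
        shq (T - η) * kq (ta x) (ta y) ^ 2 /
        (4 * (ta y - ta x) ^ 2 * (1 + ta x * ta y) ^ 2 + shq (T - η) * kq (ta x) (ta y) ^ 2) :=
      rat_mono (by positivity) (by positivity) (mul_le_mul_of_nonneg_right hv (by positivity))
    have h4 : 0 ≤ (1 - ta x * ta y) ^ 2 * (2 * (1 + ta x * ta y) ^ 2 - kq (ta x) (ta y)) *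
        (1 + ta y ^ 2) ^ 2 / kq (ta x) (ta y) ^ 2 :=
      div_nonneg (mul_nonneg (mul_nonneg (by positivity) (by linarith only [hy2])) (by positivity))
        (by positivity)
    have := mul_le_mul_of_nonneg_left h3 h4
    linarith only [this]
  have hfin : 0 < w1 (ta x) (ta y) (shq T) - ww (ta x) (ta y) (shq (T + η)) := by
    rcases le_total (kq (ta x) (ta y)) (2 * (1 - ta x * ta y) ^ 2) with hc | hc
    · have h3 := w1_pos hax hxy hc hτ0 ht (h1 hc)
      have h4 : ww (ta x) (ta y) (shq (T + η)) ≤ 0 := by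
        unfold ww
        apply div_nonpos_of_nonpos_of_nonneg _ (by positivity)
        apply mul_nonpos_of_nonpos_of_nonneg _ hu0
        apply mul_nonpos_of_nonpos_of_nonneg _ (by positivity)
        exact mul_nonpos_of_nonneg_of_nonpos (by positivity) (by linarith only [hc])
      linarith only [h3, h4]
    · obtain ⟨g1, g2⟩ := h2 hc
      have h3 := w2_pos hax hxy hp hc hτ0 ht (hu0.trans hu) g1 g2
      have h4 := ww_mono hc hu0 hu
      linarith only [h3, h4]
  have h5 : 0 < WW x y T η * (1 + ta y ^ 2) ^ 2 / 2 := by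
    rw [e]
    linarith only [hmon, hfin]
  have h6 : 0 < WW x y T η * (1 + ta y ^ 2) ^ 2 := by linarith only [e, hmon, hfin]
  exact (pos_iff_pos_of_mul_pos h6).2 (by positivity)

/-- height `≥ 0` -/
theorem WW_pos0 (hx : x ∈ Ioo (0 : ℝ) 1) (hy : y ∈ Ioo (0 : ℝ) 1)
    (hy2 : kq (ta x) (ta y) ≤ 2 * (1 + ta x * ta y) ^ 2) (hp : ta x * ta y < 1) (hx1 : ta x < 1)
    (ht : shq T ≤ τ) (hu : shq (T + η) ≤ u)
    (h1 : kq (ta x) (ta y) ≤ 2 * (1 - ta x * ta y) ^ 2 → 0 < w0 (ta x) (ta y) τ)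
    (h2 : 2 * (1 - ta x * ta y) ^ 2 ≤ kq (ta x) (ta y) →
      0 < w0 (ta x) (ta y) τ - ww (ta x) (ta y) u) : 0 < WW x y T η := by
  have e := WW_eq (T := T) (η := η) hx hy
  have hax := ta_pos hx
  have hay := ta_pos hy
  have hk := kq_pos (ta x) (ta y)
  have hτ0 := shq_nonneg T
  have hu0 := shq_nonneg (T + η)
  have hv0 := shq_nonneg (T - η)
  have hτ : 0 ≤ τ := hτ0.trans ht
  have hmon : w0 (ta x) (ta y) τ ≤
      4 * ta y ^ 2 + (1 - ta x * ta y) ^ 2 * (2 * (1 + ta x * ta y) ^ 2 - kq (ta x) (ta y)) *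
        (1 + ta y ^ 2) ^ 2 * shq (T - η) /
      (4 * (ta y - ta x) ^ 2 * (1 + ta x * ta y) ^ 2 + shq (T - η) * kq (ta x) (ta y) ^ 2) -
    2 * (1 + ta y ^ 2) * (1 - ta x ^ 2) * (1 - (ta x * ta y) ^ 2) * shq T /
      (4 * ta x ^ 2 + shq T * (1 + ta x ^ 2) ^ 2) := by
    unfold w0
    have h4 : 0 ≤ (1 - ta x * ta y) ^ 2 * (2 * (1 + ta x * ta y) ^ 2 - kq (ta x) (ta y)) *
        (1 + ta y ^ 2) ^ 2 * shq (T - η) /
      (4 * (ta y - ta x) ^ 2 * (1 + ta x * ta y) ^ 2 + shq (T - η) * kq (ta x) (ta y) ^ 2) :=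
      div_nonneg (mul_nonneg (mul_nonneg (mul_nonneg (by positivity) (by linarith only [hy2])) (by positivity))
        hv0) (by positivity)
    have e2 : ∀ v : ℝ, 2 * (1 + ta y ^ 2) * (1 - ta x ^ 2) * (1 - (ta x * ta y) ^ 2) * v /
      (4 * ta x ^ 2 + v * (1 + ta x ^ 2) ^ 2) =
      2 * (1 + ta y ^ 2) * (1 - ta x ^ 2) * (1 - (ta x * ta y) ^ 2) / (1 + ta x ^ 2) ^ 2 *
        (v * (1 + ta x ^ 2) ^ 2 / (4 * ta x ^ 2 + v * (1 + ta x ^ 2) ^ 2)) := by
      intro v
      rw [← mul_div_assoc]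
      congr 1
      field_simp
    rw [e2, e2]
    have h3 : shq T * (1 + ta x ^ 2) ^ 2 / (4 * ta x ^ 2 + shq T * (1 + ta x ^ 2) ^ 2) ≤
        τ * (1 + ta x ^ 2) ^ 2 / (4 * ta x ^ 2 + τ * (1 + ta x ^ 2) ^ 2) :=
      rat_mono (by positivity) (by positivity) (mul_le_mul_of_nonneg_right ht (by positivity))
    have h6 : 0 ≤ 2 * (1 + ta y ^ 2) * (1 - ta x ^ 2) * (1 - (ta x * ta y) ^ 2) /
        (1 + ta x ^ 2) ^ 2 := by
      have a1 : 0 ≤ 1 - ta x ^ 2 := by nlinarith only [hx1, hax]
      have a2 : 0 ≤ 1 - (ta x * ta y) ^ 2 := by nlinarith only [hp, hax, hay, mul_pos hax hay]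
      positivity
    have := mul_le_mul_of_nonneg_left h3 h6
    linarith only [h4, this]
  have h5 : 0 < WW x y T η * (1 + ta y ^ 2) ^ 2 / 2 := by
    rw [e]
    rcases le_total (kq (ta x) (ta y)) (2 * (1 - ta x * ta y) ^ 2) with hc | hc
    · have h3 := h1 hc
      have h4 : ww (ta x) (ta y) (shq (T + η)) ≤ 0 := by
        unfold ww
        apply div_nonpos_of_nonpos_of_nonneg _ (by positivity)
        apply mul_nonpos_of_nonpos_of_nonneg _ hu0
        apply mul_nonpos_of_nonpos_of_nonneg _ (by positivity)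
        exact mul_nonpos_of_nonneg_of_nonpos (by positivity) (by linarith only [hc])
      linarith only [hmon, h3, h4]
    · have h3 := h2 hc
      have h4 := ww_mono hc hu0 hu
      linarith only [hmon, h3, h4]
  have h6 : 0 < WW x y T η * (1 + ta y ^ 2) ^ 2 := by linarith only [h5]
  exact (pos_iff_pos_of_mul_pos h6).2 (by positivity)

end

end Row

end RC

end Pool.Agent.Work.MP_b30479_gt.G2
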