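import Pool.Agent.Work.MP_b30479_gt.G2.RDiag
import Pool.Agent.Work.MP_b30479_gt.G2.RRT

/-!
# Rings on the level part: leaf tests with six variables, pieces
-/

namespace Pool.Agent.Work.MP_b30479_gt.G2

open VOL NumI

namespace R6

open RC
open RQ (bO bO_some cond_ff)
open LR (rat1 mulq1)
open RZ1 (negE)

/-- `LL (lv d s)`; `v = 1`: by the logarithm -/
def lA (v : ℕ) (d s : F) (C : F → Bool) : Bool :=
  cond (Nat.beq v 0) (bO (F.lnA d s) fun z => C z)
    (bO (F.hyp false (F.pi.mul s)) fun sh =>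
      bO (F.log (F.mulq 4 1 (d.sinPi.sqn.add sh.sqn))) fun l => C (F.mulq 1 2 l))

theorem lA_some {v : ℕ} {d s : F} {C : F → Bool} {ε : ℕ → ℝ} {δ σ : ℝ} (hε : ∀ i, |ε i| ≤ 1)
    (h1 : d.Encl ε δ) (h2 : s.Encl ε σ) (h : lA v d s C = true) :
    ∃ z : F, z.Encl ε (LL (lv δ σ)) ∧ C z = true := by
  unfold lA at h
  rcases e0 : Nat.beq v 0 with _ | _
  · rw [e0, cond_false] at h
    obtain ⟨sh, hsh, h⟩ := bO_some h
    obtain ⟨l, hl, h⟩ := bO_some h
    have k1 := F.Encl.sinh hε (F.Encl.mul hε (F.Encl.pi ε) h2) hsh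
    have kM : (F.mulq 4 1 (d.sinPi.sqn.add sh.sqn)).Encl ε
        (4 * (Real.sin (Real.pi * δ) ^ 2 + shq σ)) := by
      have := mulq1 (n := 4) hε (F.Encl.add (F.Encl.sqn hε (F.Encl.sinPi hε h1))
        (F.Encl.sqn hε k1))
      push_cast at this
      exact this
    have k2 := F.Encl.mulq (n := 1) (d := 2) (by norm_num) hε (F.Encl.log hε kM hl)
    push_cast at k2
    rw [one_div_mul_eq_div, ← LL_lv_eq] at k2
    exact ⟨_, k2, h⟩
  · rw [e0, cond_true] at h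
    obtain ⟨z, hz, h⟩ := bO_some h
    have k := F.Encl.lnA hε h1 h2 hz
    have e : NumI.lnA δ σ = LL (lv δ σ) := by
      rw [LL_lv_eq]
      rfl
    rw [e] at k
    exact ⟨_, k, h⟩

/-- the gauge -/
def gF (X : F) (C : F → Bool) : Bool :=
  bO (F.log X.sinPi) fun l1 => bO (F.log ((F.rat 1 1).add X.cosPi)) fun l2 => C (l1.sub l2)

theorem gh_eq {x : ℝ} (h0 : 0 < x) (h1 : x < 1) :
    gh x = Real.log (Real.sin (Real.pi * x)) - Real.log (1 + Real.cos (Real.pi * x)) := by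
  have hp := Real.pi_pos
  have a1 : 0 < Real.cos (Real.pi * x / 2) :=
    Real.cos_pos_of_mem_Ioo ⟨by nlinarith only [hp, h0], by nlinarith only [h1, hp]⟩
  have a2 : 0 < Real.sin (Real.pi * x / 2) :=
    Real.sin_pos_of_pos_of_lt_pi (by positivity) (by nlinarith only [hp, h1])
  have e1 : Real.sin (Real.pi * x) = 2 * Real.sin (Real.pi * x / 2) * Real.cos (Real.pi * x / 2) := by
    rw [← Real.sin_two_mul]
    congr 1
    ring
  have e2 : 1 + Real.cos (Real.pi * x) = 2 * Real.cos (Real.pi * x / 2) ^ 2 := by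
    have : Real.cos (Real.pi * x) = 2 * Real.cos (Real.pi * x / 2) ^ 2 - 1 := by
      rw [← Real.cos_two_mul]
      congr 1
      ring
    rw [this]
    ring
  rw [e1, e2, ← Real.log_div (by positivity) (by positivity)]
  unfold gh
  rw [Real.tan_eq_sin_div_cos]
  congr 1
  field_simp

theorem gF_some {X : F} {C : F → Bool} {ε : ℕ → ℝ} {x : ℝ} (hε : ∀ i, |ε i| ≤ 1)
    (h1 : X.Encl ε x) (h0 : 0 < x) (h2 : x < 1) (h : gF X C = true) :
    ∃ z : F, z.Encl ε (gh x) ∧ C z = true := by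
  obtain ⟨l1, hl1, h⟩ := bO_some h
  obtain ⟨l2, hl2, h⟩ := bO_some h
  have k1 := F.Encl.log hε (F.Encl.sinPi hε h1) hl1
  have k2 : ((F.rat 1 1).add X.cosPi).Encl ε (1 + Real.cos (Real.pi * x)) := by
    have := F.Encl.add (rat1 1 ε) (F.Encl.cosPi hε h1)
    rwa [Nat.cast_one] at this
  have k3 := F.Encl.log hε k2 hl2
  refine ⟨_, ?_, h⟩
  rw [gh_eq h0 h2]
  exact F.Encl.sub k1 k3

/-- `PP u s` -/
def pF (u s : F) (C : F → Bool) : Bool :=
  bO (F.hyp false (F.pi.mul s)) fun sh => bO (F.inv (u.sinPi.sqn.add sh.sqn)) fun iv =>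
    C (F.mulq 1 2 ((u.add u).sinPi.mul iv))

theorem pF_some {u s : F} {C : F → Bool} {ε : ℕ → ℝ} {x t : ℝ} (hε : ∀ i, |ε i| ≤ 1)
    (h1 : u.Encl ε x) (h2 : s.Encl ε t) (h : pF u s C = true) :
    ∃ z : F, z.Encl ε (NumI.PP x t) ∧ C z = true := by
  obtain ⟨sh, hsh, h⟩ := bO_some h
  obtain ⟨iv, hiv, h⟩ := bO_some h
  have k1 := F.Encl.sinh hε (F.Encl.mul hε (F.Encl.pi ε) h2) hsh
  have kM := F.Encl.add (F.Encl.sqn hε (F.Encl.sinPi hε h1)) (F.Encl.sqn hε k1)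
  have k2 := F.Encl.inv hε kM hiv
  have k3 := F.Encl.mulq (n := 1) (d := 2) (by norm_num) hε
    (F.Encl.mul hε (F.Encl.sinPi hε (F.Encl.add h1 h1)) k2)
  refine ⟨_, ?_, h⟩
  convert k3 using 1
  unfold NumI.PP NumI.MM
  rw [show Real.pi * (x + x) = 2 * (Real.pi * x) by ring, Real.sin_two_mul]
  push_cast
  rw [div_eq_mul_inv]
  ring

/-- the numbers `10 κ` -/
def kap (j : ℕ) : ℕ := Nat.land (Nat.shiftRight 0xffff50322e28241e19140e0a060300 (Nat.mul 8 j)) 255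

/-- combination at a point -/
def phF (up : Bool) (j mu : ℕ) (P Q R g : F) : F :=
  cond up
    ((((F.mulq (kap j) 10 (P.sub Q)).add (R.add R)).add (F.mulq mu 1000 g)).sub (P.add Q))
    (((P.add Q).add (F.mulq (kap j) 10 (P.sub Q))).sub ((R.add R).add (F.mulq mu 1000 g)))

/-- its value; `j = 15`: only the contribution -/
noncomputable def phv (up : Bool) (j mu : ℕ) (x y T ρ : ℝ) : ℝ :=
  if j = 15 then Dx x y T ρ else
    (bif up then -Sx x y T ρ + (kap j : ℝ) / 10 * Dx x y T ρ + (mu : ℝ) / 1000 * gh x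
    else Sx x y T ρ + (kap j : ℝ) / 10 * Dx x y T ρ - (mu : ℝ) / 1000 * gh x)

theorem phF_encl {up : Bool} {j mu : ℕ} {P Q R g : F} {ε : ℕ → ℝ} {x y T ρ : ℝ}
    (hε : ∀ i, |ε i| ≤ 1) (hj : j ≠ 15) (hP : P.Encl ε (LL (lv (x + y) (T + ρ))))
    (hQ : Q.Encl ε (LL (lv (y - x) (T - ρ)))) (hR : R.Encl ε (LL (lv x T)))
    (hg : g.Encl ε (gh x)) : (phF up j mu P Q R g).Encl ε (phv up j mu x y T ρ) := by
  unfold phF phv
  rw [if_neg hj]
  have k1 := F.Encl.mulq (n := kap j) (d := 10) (by norm_num) hε (F.Encl.sub hP hQ)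
  have k2 := F.Encl.add hR hR
  have k3 := F.Encl.mulq (n := mu) (d := 1000) (by norm_num) hε hg
  have k4 := F.Encl.add hP hQ
  push_cast at k1 k3
  rcases up with _ | _
  · rw [cond_false, cond_false]
    convert F.Encl.sub (F.Encl.add k4 k1) (F.Encl.add k2 k3) using 1
    unfold Sx Dx
    ring
  · rw [cond_true, cond_true]
    convert F.Encl.sub (F.Encl.add (F.Encl.add k1 k2) k3) k4 using 1
    unfold Sx Dx
    ring

/-- combination and gauge at a point; `z`: the gauge is not needed -/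
def evF (up : Bool) (j v mu : ℕ) (z : Bool) (T R X Y : F) (C : F → F → Bool) : Bool :=
  lA 0 (X.add Y) (T.add R) fun P => lA v (Y.sub X) (T.sub R) fun Q =>
    cond (Nat.beq j 15) (cond z (C (P.sub Q) fz) (gF X fun g => C (P.sub Q) g))
      (bO (F.lnA X T) fun L => cond z (C (phF up j 0 P Q L fz) fz)
        (gF X fun g => C (phF up j mu P Q L g) g))

theorem evF_some {up : Bool} {j v mu : ℕ} {z : Bool} {T R X Y : F} {C : F → F → Bool} {ε : ℕ → ℝ}
    {t r x y : ℝ} (hε : ∀ i, |ε i| ≤ 1) (hT : T.Encl ε t) (hR : R.Encl ε r) (hX : X.Encl ε x)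
    (hY : Y.Encl ε y) (h0 : 0 < x) (h1 : x < 1) (hz : z = true → mu = 0)
    (h : evF up j v mu z T R X Y C = true) :
    ∃ Φ g : F, Φ.Encl ε (phv up j mu x y t r) ∧ (z = false → g.Encl ε (gh x)) ∧
      C Φ g = true := by
  obtain ⟨P, hP, h⟩ := lA_some hε (F.Encl.add hX hY) (F.Encl.add hT hR) h
  obtain ⟨Q, hQ, h⟩ := lA_some hε (F.Encl.sub hY hX) (F.Encl.sub hT hR) h
  rcases e : Nat.beq j 15 with _ | _
  · rw [e, cond_false] at h
    have hj : j ≠ 15 := by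
      rintro rfl
      exact absurd e (by decide)
    obtain ⟨L, hL, k⟩ := bO_some h
    clear h
    have kL := F.Encl.lnA hε hX hT hL
    have eL : NumI.lnA x t = LL (lv x t) := by
      rw [LL_lv_eq]
      rfl
    rw [eL] at kL
    rcases z with _ | _
    · simp only [cond_false] at k
      obtain ⟨g, hg, h⟩ := gF_some hε hX h0 h1 k
      exact ⟨_, _, phF_encl hε hj hP hQ kL hg, fun _ => hg, h⟩
    · simp only [cond_true] at k
      have hmu := hz rfl
      subst hmu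
      refine ⟨_, _, ?_, fun h => absurd h (by decide), k⟩
      unfold phF phv
      rw [if_neg hj]
      have k1 := F.Encl.mulq (n := kap j) (d := 10) (by norm_num) hε (F.Encl.sub hP hQ)
      have k2 := F.Encl.add kL kL
      have k3 := F.Encl.mulq (n := 0) (d := 1000) (by norm_num) hε (fz_encl ε)
      have k4 := F.Encl.add hP hQ
      push_cast at k1 k3
      rcases up with _ | _
      · rw [cond_false, cond_false]
        convert F.Encl.sub (F.Encl.add k4 k1) (F.Encl.add k2 k3) using 1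
        unfold Sx Dx
        push_cast
        ring
      · rw [cond_true, cond_true]
        convert F.Encl.sub (F.Encl.add (F.Encl.add k1 k2) k3) k4 using 1
        unfold Sx Dx
        push_cast
        ring
  · rw [e, cond_true] at h
    have hj : j = 15 := Nat.eq_of_beq_eq_true e
    have key : (P.sub Q).Encl ε (phv up j mu x y t r) := by
      unfold phv
      rw [if_pos hj]
      exact F.Encl.sub hP hQ
    rcases z with _ | _
    · rw [cond_false] at h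
      obtain ⟨g, hg, h⟩ := gF_some hε hX h0 h1 h
      exact ⟨_, _, key, fun _ => hg, h⟩
    · rw [cond_true] at h
      exact ⟨_, _, key, fun h => absurd h (by decide), h⟩

/-! ### products of values of `tan (π x / 2)` -/

/-- a point -/
def pt (u : ℕ) : F := ⟨u, 0, 0, 0, 0, 0, 0, 0, 0, 0, 0⟩

lemma pt_encl (u : ℕ) (ε : ℕ → ℝ) : (pt u).Encl ε ((u : ℝ) / DR) := by
  rw [F.Encl_iff]
  unfold pt
  simp only [Nat.cast_zero, sub_zero, zero_mul, add_zero]
  rw [div_mul_cancel₀ _ DR_pos.ne']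
  simp

/-- `tan (π v1 / 2) tan (π v2 / 2) < n / d tan (π u1 / 2) tan (π u2 / 2)` -/
def tq (n d u1 u2 v1 v2 : ℕ) : Bool :=
  posF ((F.mulq n d (((pt u1).sinPi.mul (pt u2).sinPi).mul
    (((F.rat 1 1).add (pt v1).cosPi).mul ((F.rat 1 1).add (pt v2).cosPi)))).sub
    (((pt v1).sinPi.mul (pt v2).sinPi).mul
    (((F.rat 1 1).add (pt u1).cosPi).mul ((F.rat 1 1).add (pt u2).cosPi))))

theorem ta_eq {x : ℝ} (h0 : 0 < x) (h1 : x < 1) :
    ta x = Real.sin (Real.pi * x) / (1 + Real.cos (Real.pi * x)) ∧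
      0 < 1 + Real.cos (Real.pi * x) := by
  have hp := Real.pi_pos
  have a1 : 0 < Real.cos (Real.pi * x / 2) :=
    Real.cos_pos_of_mem_Ioo ⟨by nlinarith only [hp, h0], by nlinarith only [h1, hp]⟩
  have e1 : Real.sin (Real.pi * x) = 2 * Real.sin (Real.pi * x / 2) * Real.cos (Real.pi * x / 2) := by
    rw [← Real.sin_two_mul]
    congr 1
    ring
  have e2 : 1 + Real.cos (Real.pi * x) = 2 * Real.cos (Real.pi * x / 2) ^ 2 := by
    have : Real.cos (Real.pi * x) = 2 * Real.cos (Real.pi * x / 2) ^ 2 - 1 := by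
      rw [← Real.cos_two_mul]
      congr 1
      ring
    rw [this]
    ring
  rw [e1, e2]
  constructor
  · unfold ta
    rw [Real.tan_eq_sin_div_cos]
    field_simp
  · positivity

theorem ta_mono {x y : ℝ} (h0 : 0 < x) (h : x ≤ y) (h1 : y < 1) : ta x ≤ ta y := by
  rw [ta_eq_exp ⟨h0, by linarith only [h, h1]⟩, ta_eq_exp ⟨by linarith only [h0, h], h1⟩]
  exact Real.exp_le_exp.2 (strictMonoOn_gh.monotoneOn ⟨h0, by linarith only [h, h1]⟩ ⟨by linarith only [h0, h], h1⟩ h)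

theorem tq_spec {n d u1 u2 v1 v2 : ℕ} (hd : 0 < d) {a1 a2 b1 b2 : ℝ} (h1 : (u1 : ℝ) ≤ a1 * DR)
    (h2 : (u2 : ℝ) ≤ a2 * DR) (h3 : b1 * DR ≤ v1) (h4 : b2 * DR ≤ v2) (k1 : 0 < u1) (k2 : 0 < u2)
    (g1 : a1 < 1) (g2 : a2 < 1) (g3 : 0 < b1) (g4 : 0 < b2) (e3 : v1 < 68719476736)
    (e4 : v2 < 68719476736) (h : tq n d u1 u2 v1 v2 = true) :
    ta b1 * ta b2 < (n : ℝ) / d * (ta a1 * ta a2) := by
  have hD := DR_pos
  have hDv : DR = 68719476736 := rfl
  have z : ∀ i : ℕ, |(fun _ : ℕ => (0 : ℝ)) i| ≤ 1 := by intro i; simp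
  have c1 : ((F.rat 1 1)).Encl (fun _ => 0) 1 := by
    have := rat1 1 (fun _ => 0)
    rwa [Nat.cast_one] at this
  have k := posF_spec z (F.Encl.sub (F.Encl.mulq (n := n) (d := d) hd z
    (F.Encl.mul z (F.Encl.mul z (F.Encl.sinPi z (pt_encl u1 _)) (F.Encl.sinPi z (pt_encl u2 _)))
    (F.Encl.mul z (F.Encl.add c1 (F.Encl.cosPi z (pt_encl v1 _)))
      (F.Encl.add c1 (F.Encl.cosPi z (pt_encl v2 _))))))
    (F.Encl.mul z (F.Encl.mul z (F.Encl.sinPi z (pt_encl v1 _)) (F.Encl.sinPi z (pt_encl v2 _)))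
    (F.Encl.mul z (F.Encl.add c1 (F.Encl.cosPi z (pt_encl u1 _)))
      (F.Encl.add c1 (F.Encl.cosPi z (pt_encl u2 _)))))) h
  have hn : (0 : ℝ) ≤ (n : ℝ) / d := by positivity
  have i1 : (0 : ℝ) < (u1 : ℝ) / DR := by positivity
  have i2 : (0 : ℝ) < (u2 : ℝ) / DR := by positivity
  have j1 : (u1 : ℝ) / DR ≤ a1 := by rwa [div_le_iff₀ hD]
  have j2 : (u2 : ℝ) / DR ≤ a2 := by rwa [div_le_iff₀ hD]
  have j3 : b1 ≤ (v1 : ℝ) / DR := by rwa [le_div_iff₀ hD]
  have j4 : b2 ≤ (v2 : ℝ) / DR := by rwa [le_div_iff₀ hD]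
  have l3 : (v1 : ℝ) / DR < 1 := by
    rw [div_lt_one hD, hDv]
    exact_mod_cast e3
  have l4 : (v2 : ℝ) / DR < 1 := by
    rw [div_lt_one hD, hDv]
    exact_mod_cast e4
  obtain ⟨t1, p1⟩ := ta_eq i1 (by linarith only [g1, j1])
  obtain ⟨t2, p2⟩ := ta_eq i2 (by linarith only [g2, j2])
  obtain ⟨t3, p3⟩ := ta_eq (by linarith only [g3, j3]) l3
  obtain ⟨t4, p4⟩ := ta_eq (by linarith only [g4, j4]) l4
  have m1 : ta ((u1 : ℝ) / DR) ≤ ta a1 := ta_mono i1 j1 g1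
  have m2 : ta ((u2 : ℝ) / DR) ≤ ta a2 := ta_mono i2 j2 g2
  have m3 : ta b1 ≤ ta ((v1 : ℝ) / DR) := ta_mono g3 j3 l3
  have m4 : ta b2 ≤ ta ((v2 : ℝ) / DR) := ta_mono g4 j4 l4
  have q1 : 0 < ta ((u1 : ℝ) / DR) := ta_pos ⟨i1, by linarith only [g1, j1]⟩
  have q2 : 0 < ta ((u2 : ℝ) / DR) := ta_pos ⟨i2, by linarith only [g2, j2]⟩
  have q3 : 0 < ta b1 := ta_pos ⟨g3, by linarith only [j3, l3]⟩
  have q4 : 0 < ta b2 := ta_pos ⟨g4, by linarith only [j4, l4]⟩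
  have r1 : ta b1 * ta b2 ≤ ta ((v1 : ℝ) / DR) * ta ((v2 : ℝ) / DR) :=
    mul_le_mul m3 m4 q4.le (q3.le.trans m3)
  have r2 : ta ((u1 : ℝ) / DR) * ta ((u2 : ℝ) / DR) ≤ ta a1 * ta a2 :=
    mul_le_mul m1 m2 q2.le (q1.le.trans m1)
  have r3 : ta ((v1 : ℝ) / DR) * ta ((v2 : ℝ) / DR) <
      (n : ℝ) / d * (ta ((u1 : ℝ) / DR) * ta ((u2 : ℝ) / DR)) := by
    rw [t1, t2, t3, t4]
    generalize Real.sin (Real.pi * ((u1 : ℝ) / DR)) = w1 at *
    generalize Real.sin (Real.pi * ((u2 : ℝ) / DR)) = w2 at *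
    generalize Real.sin (Real.pi * ((v1 : ℝ) / DR)) = w3 at *
    generalize Real.sin (Real.pi * ((v2 : ℝ) / DR)) = w4 at *
    generalize 1 + Real.cos (Real.pi * ((u1 : ℝ) / DR)) = y1 at *
    generalize 1 + Real.cos (Real.pi * ((u2 : ℝ) / DR)) = y2 at *
    generalize 1 + Real.cos (Real.pi * ((v1 : ℝ) / DR)) = y3 at *
    generalize 1 + Real.cos (Real.pi * ((v2 : ℝ) / DR)) = y4 at *
    rw [div_mul_div_comm, div_mul_div_comm, ← mul_div_assoc,
      div_lt_div_iff₀ (by positivity) (by positivity)]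
    linarith only [k]
  calc ta b1 * ta b2 ≤ _ := r1
    _ < _ := r3
    _ ≤ _ := by gcongr

end R6

end Pool.Agent.Work.MP_b30479_gt.G2
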