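import Pool.Agent.Work.MP_b30479_gt.G2.RT6A

/-!
# Rings on the level part: mean value along the gauge curves
-/

namespace Pool.Agent.Work.MP_b30479_gt.G2

open Set VOL NumI

namespace R6

open RC

theorem Nz_of_ne {x y T ρ : ℝ} (h : 0 < x + y) (h1 : x + y < 1) (hx : 0 < x)
    (ht : T < ρ ∨ x < y) : Nz x y T ρ := by
  refine ⟨lv_sin_ne h h1, ?_⟩
  rcases ht with ht | ht
  · refine sin_ne_of_im ?_
    rw [lv_im]
    linarith only [ht]
  · exact lv_sin_ne (by linarith only [ht]) (by linarith only [h1, hx])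

/-- derivative of the combination in the displacement of the hinge -/
noncomputable def BB (up : Bool) (j mu : ℕ) (x y T ρ : ℝ) : ℝ :=
  if j = 15 then (bif up then DA x y T ρ else -DA x y T ρ) else
    (bif up then (kap j : ℝ) / 10 * DA x y T ρ - SA x y T ρ + (mu : ℝ) / 1000
    else (mu : ℝ) / 1000 - (SA x y T ρ + (kap j : ℝ) / 10 * DA x y T ρ))

/-- derivative of the combination in the displacement of the ring variable -/
noncomputable def EE (up : Bool) (j : ℕ) (x y T ρ : ℝ) : ℝ :=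
  if j = 15 then DB x y T ρ else
    (bif up then (kap j : ℝ) / 10 * DB x y T ρ - SB x y T ρ
    else SB x y T ρ + (kap j : ℝ) / 10 * DB x y T ρ)

/-- displacement of the hinge -/
noncomputable def mm (up : Bool) (xs x : ℝ) : ℝ := bif up then gh x - gh xs else gh xs - gh x

theorem hasDerivAt_phv {up : Bool} {j mu : ℕ} {X Y : ℝ → ℝ} {θ m n T ρ : ℝ}
    (hX : HasDerivAt X ((bif up then m else -m) * (Real.sin (Real.pi * X θ) / Real.pi)) θ)
    (hY : HasDerivAt Y (n * (Real.sin (Real.pi * Y θ) / Real.pi)) θ)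
    (hg : HasDerivAt (fun θ => gh (X θ)) (bif up then m else -m) θ)
    (h0 : X θ ∈ Ioo (0 : ℝ) 1) (hn : Nz (X θ) (Y θ) T ρ) :
    HasDerivAt (fun θ => phv up j mu (X θ) (Y θ) T ρ)
      (m * BB up j mu (X θ) (Y θ) T ρ + n * EE up j (X θ) (Y θ) T ρ) θ := by
  have h1 := hasDerivAt_Sx hX hY h0 hn
  have h2 := hasDerivAt_Dx hX hY hn
  unfold phv BB EE
  by_cases hj : j = 15
  · simp only [if_pos hj]
    refine h2.congr_deriv ?_
    rcases up with _ | _
    · simp only [cond_false]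
      ring
    · simp only [cond_true]
  · simp only [if_neg hj]
    rcases up with _ | _
    · simp only [cond_false] at h1 h2 hg ⊢
      refine ((h1.add (h2.const_mul ((kap j : ℝ) / 10))).sub
        (hg.const_mul ((mu : ℝ) / 1000))).congr_deriv ?_
      ring
    · simp only [cond_true] at h1 h2 hg ⊢
      refine ((h1.neg.add (h2.const_mul ((kap j : ℝ) / 10))).add
        (hg.const_mul ((mu : ℝ) / 1000))).congr_deriv ?_
      ring

/-- **Mean value along the gauge curve.** -/
theorem phv_lt (ν : ℝ) {up : Bool} {j mu : ℕ} {xs ys x y T ρ : ℝ} (h1 : 0 < xs) (h2 : xs < 1 / 2)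
    (h3 : 0 < ys) (h4 : ys ≤ 1 / 2) (h5 : 0 < x) (h6 : x < 1 / 2) (h7 : 0 < y) (h8 : y ≤ 1 / 2)
    (ht : T < ρ ∨ max xs x < min ys y) (H : ∀ X Y, min xs x ≤ X → X ≤ max xs x → min ys y ≤ Y → Y ≤ max ys y →
      0 < mm up xs x * (BB up j mu X Y T ρ - ν) + (gh y - gh ys) * EE up j X Y T ρ) :
    ν * mm up xs x < phv up j mu x y T ρ - phv up j mu xs ys T ρ := by
  have a1 : xs ∈ Ioo (0 : ℝ) 1 := ⟨h1, by linarith only [h1, h2]⟩
  have a2 : ys ∈ Ioo (0 : ℝ) 1 := ⟨h3, by linarith only [h1, h2, h4]⟩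
  have a3 : x ∈ Ioo (0 : ℝ) 1 := ⟨h5, by linarith only [h1, h2, h6]⟩
  have a4 : y ∈ Ioo (0 : ℝ) 1 := ⟨h7, by linarith only [h1, h2, h8]⟩
  have bt : ∀ {a b θ : ℝ}, a ∈ Ioo (0 : ℝ) 1 → b ∈ Ioo (0 : ℝ) 1 → 0 ≤ θ → θ ≤ 1 →
      min a b ≤ gc a b θ ∧ gc a b θ ≤ max a b := by
    intro a b θ ha hb t0 t1
    rcases le_total a b with h | h
    · have := gc_mem_Icc ha hb h t0 t1
      rw [min_eq_left h, max_eq_right h]
      exact ⟨this.1, this.2⟩
    · have := gc_mem_Icc' ha hb h t0 t1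
      rw [min_eq_right h, max_eq_left h]
      exact ⟨this.1, this.2⟩
  set f : ℝ → ℝ := fun θ => phv up j mu (gc xs x θ) (gc ys y θ) T ρ - θ * (ν * mm up xs x) with hf
  set f' : ℝ → ℝ := fun θ => mm up xs x * BB up j mu (gc xs x θ) (gc ys y θ) T ρ +
    (gh y - gh ys) * EE up j (gc xs x θ) (gc ys y θ) T ρ - 1 * (ν * mm up xs x) with hf'
  have hd : ∀ θ ∈ Icc (0 : ℝ) 1, HasDerivAt f (f' θ) θ := by
    intro θ hθ
    obtain ⟨b1, b2⟩ := bt a1 a3 hθ.1 hθ.2
    obtain ⟨b3, b4⟩ := bt a2 a4 hθ.1 hθ.2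
    have c1 : (bif up then mm up xs x else -mm up xs x) = gh x - gh xs := by
      unfold mm
      rcases up with _ | _
      · simp only [cond_false]
        ring
      · simp only [cond_true]
    have d1 := hasDerivAt_gc xs x θ
    have d2 := hasDerivAt_gc ys y θ
    have d3 : HasDerivAt (fun θ => gh (gc xs x θ)) (gh x - gh xs) θ := by
      have e : (fun θ => gh (gc xs x θ)) = fun θ => (1 - θ) * gh xs + θ * gh x := by
        funext τ
        unfold gc
        rw [gh_ghi]
      rw [e]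
      refine (((hasDerivAt_id' θ).const_sub 1).mul_const (gh xs)).add
        ((hasDerivAt_id' θ).mul_const (gh x)) |>.congr_deriv ?_
      ring
    rw [← c1] at d1 d3
    have g0 := gc_mem xs x θ
    have g1 := gc_mem ys y θ
    refine (hasDerivAt_phv d1 d2 d3 g0 (Nz_of_ne (add_pos g0.1 g1.1) ?_ g0.1
      (ht.imp id fun h => by linarith only [b2, b3, h]))).sub
      ((hasDerivAt_id' θ).mul_const (ν * mm up xs x))
    have e1 : max xs x < 1 / 2 := max_lt h2 h6
    have e2 : max ys y ≤ 1 / 2 := max_le h4 h8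
    linarith only [b2, b4, e1, e2]
  have hc : ContinuousOn f (Icc 0 1) := fun θ hθ => (hd θ hθ).continuousAt.continuousWithinAt
  obtain ⟨θ, hθ, h⟩ := exists_hasDerivAt_eq_slope f f' zero_lt_one hc
    (fun θ hθ => hd θ ⟨hθ.1.le, hθ.2.le⟩)
  obtain ⟨b1, b2⟩ := bt a1 a3 hθ.1.le hθ.2.le
  obtain ⟨b3, b4⟩ := bt a2 a4 hθ.1.le hθ.2.le
  have hp := H _ _ b1 b2 b3 b4
  have e0 : f 0 = phv up j mu xs ys T ρ := by
    simp only [hf, gc_zero a1, gc_zero a2]
    ring
  have e1 : f 1 = phv up j mu x y T ρ - ν * mm up xs x := by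
    simp only [hf, gc_one a3, gc_one a4]
    ring
  rw [sub_zero, div_one, e0, e1] at h
  have e2 : f' θ = mm up xs x * (BB up j mu (gc xs x θ) (gc ys y θ) T ρ - ν) +
      (gh y - gh ys) * EE up j (gc xs x θ) (gc ys y θ) T ρ := by
    simp only [hf']
    ring
  rw [← e2, h] at hp
  linarith only [hp]

theorem comb_W {m n B E : ℝ} (hm : 0 < m) (hn : |n| ≤ m) (h1 : 0 < B + E) (h2 : 0 < B - E) :
    0 < m * B + n * E := by
  obtain ⟨a, b⟩ := abs_le.mp hn
  have e : m * B + n * E = (m + n) / 2 * (B + E) + (m - n) / 2 * (B - E) := by ring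
  rw [e]
  rcases (show -m ≤ n by linarith only [a]).lt_or_eq with h | h
  · have : 0 < (m + n) / 2 * (B + E) := mul_pos (by linarith only [h]) h1
    have : 0 ≤ (m - n) / 2 * (B - E) := mul_nonneg (by linarith only [b]) h2.le
    linarith
  · have : 0 ≤ (m + n) / 2 * (B + E) := mul_nonneg (by linarith only [a]) h1.le
    have : 0 < (m - n) / 2 * (B - E) := mul_pos (by linarith only [hm, h]) h2
    linarith

theorem comb_D {m n B E : ℝ} (hm : 0 ≤ m) (hn : m < -n) (h1 : 0 < B - E) (h2 : 0 < -E) :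
    0 < m * B + n * E := by
  have e : m * B + n * E = m * (B - E) + (-n - m) * (-E) := by ring
  rw [e]
  have : 0 ≤ m * (B - E) := mul_nonneg hm h1.le
  have : 0 < (-n - m) * (-E) := mul_pos (by linarith only [hn]) h2
  linarith

/-! ### forms of the derivatives -/

open RQ (bO bO_some cond_ff)
open LR (rat1 mulq1)
open RZ1 (negE)

/-- derivative in the displacement of the hinge -/
def bF (up : Bool) (j mu : ℕ) (a b r : F) : F :=
  cond (Nat.beq j 15) (cond up (a.add b) (a.add b).neg)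
    (cond up
      (((F.mulq (kap j) 10 (a.add b)).add ((b.add (r.add r)).add (F.rat mu 1000))).sub a)
      (((b.add (r.add r)).add (F.rat mu 1000)).sub (a.add (F.mulq (kap j) 10 (a.add b)))))

/-- derivative in the displacement of the ring variable -/
def eF (up : Bool) (j : ℕ) (a b : F) : F :=
  cond (Nat.beq j 15) (a.sub b)
    (cond up ((F.mulq (kap j) 10 (a.sub b)).sub (a.add b))
      ((a.add b).add (F.mulq (kap j) 10 (a.sub b))))

theorem bF_encl {up : Bool} {j mu : ℕ} {a b r : F} {ε : ℕ → ℝ} {x y T ρ : ℝ}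
    (hε : ∀ i, |ε i| ≤ 1) (ha : a.Encl ε (Real.sin (Real.pi * x) * NumI.PP (x + y) (T + ρ)))
    (hb : b.Encl ε (Real.sin (Real.pi * x) * NumI.PP (y - x) (T - ρ)))
    (hr : r.Encl ε (Real.sin (Real.pi * x) * NumI.PP x T)) :
    (bF up j mu a b r).Encl ε (BB up j mu x y T ρ) := by
  unfold bF BB
  rcases e : Nat.beq j 15 with _ | _
  · have hj : j ≠ 15 := by
      rintro rfl
      exact absurd e (by decide)
    rw [if_neg hj, cond_false]
    have k1 := F.Encl.mulq (n := kap j) (d := 10) (by norm_num) hε (F.Encl.add ha hb)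
    have k2 := F.Encl.add hr hr
    have k3 := F.Encl.rat mu 1000 ε
    push_cast at k1 k3
    rcases up with _ | _
    · rw [cond_false, cond_false]
      convert F.Encl.sub (F.Encl.add (F.Encl.add hb k2) k3) (F.Encl.add ha k1) using 1
      unfold SA DA
      ring
    · rw [cond_true, cond_true]
      convert F.Encl.sub (F.Encl.add k1 (F.Encl.add (F.Encl.add hb k2) k3)) ha using 1
      unfold SA DA
      ring
  · have hj : j = 15 := Nat.eq_of_beq_eq_true e
    rw [if_pos hj, cond_true]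
    rcases up with _ | _
    · rw [cond_false, cond_false]
      convert negE (F.Encl.add ha hb) using 1
      unfold DA
      ring
    · rw [cond_true, cond_true]
      convert F.Encl.add ha hb using 1
      unfold DA
      ring

theorem eF_encl {up : Bool} {j : ℕ} {a b : F} {ε : ℕ → ℝ} {x y T ρ : ℝ}
    (hε : ∀ i, |ε i| ≤ 1) (ha : a.Encl ε (Real.sin (Real.pi * y) * NumI.PP (x + y) (T + ρ)))
    (hb : b.Encl ε (Real.sin (Real.pi * y) * NumI.PP (y - x) (T - ρ))) :
    (eF up j a b).Encl ε (EE up j x y T ρ) := by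
  unfold eF EE
  rcases e : Nat.beq j 15 with _ | _
  · have hj : j ≠ 15 := by
      rintro rfl
      exact absurd e (by decide)
    rw [if_neg hj, cond_false]
    have k1 := F.Encl.mulq (n := kap j) (d := 10) (by norm_num) hε (F.Encl.sub ha hb)
    push_cast at k1
    rcases up with _ | _
    · rw [cond_false, cond_false]
      convert F.Encl.add (F.Encl.add ha hb) k1 using 1
      unfold SB DB
      ring
    · rw [cond_true, cond_true]
      convert F.Encl.sub k1 (F.Encl.add ha hb) using 1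
      unfold SB DB
      ring
  · have hj : j = 15 := Nat.eq_of_beq_eq_true e
    rw [if_pos hj, cond_true]
    convert F.Encl.sub ha hb using 1
    unfold DB
    ring

/-- both derivatives on a box -/
def mF (up : Bool) (j mu : ℕ) (T R X Y : F) (C : F → F → Bool) : Bool :=
  pF (X.add Y) (T.add R) fun ap => pF (Y.sub X) (T.sub R) fun am => pF X T fun ar =>
    C (bF up j mu (X.sinPi.mul ap) (X.sinPi.mul am) (X.sinPi.mul ar))
      (eF up j (Y.sinPi.mul ap) (Y.sinPi.mul am))

theorem mF_some {up : Bool} {j mu : ℕ} {T R X Y : F} {C : F → F → Bool} {ε : ℕ → ℝ}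
    {t r x y : ℝ} (hε : ∀ i, |ε i| ≤ 1) (hT : T.Encl ε t) (hR : R.Encl ε r) (hX : X.Encl ε x)
    (hY : Y.Encl ε y) (h : mF up j mu T R X Y C = true) :
    ∃ B E : F, B.Encl ε (BB up j mu x y t r) ∧ E.Encl ε (EE up j x y t r) ∧ C B E = true := by
  obtain ⟨ap, hap, h⟩ := pF_some hε (F.Encl.add hX hY) (F.Encl.add hT hR) h
  obtain ⟨am, ham, h⟩ := pF_some hε (F.Encl.sub hY hX) (F.Encl.sub hT hR) h
  obtain ⟨ar, har, h⟩ := pF_some hε hX hT h
  have sx := F.Encl.sinPi hε hX
  have sy := F.Encl.sinPi hε hY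
  exact ⟨_, _, bF_encl hε (F.Encl.mul hε sx hap) (F.Encl.mul hε sx ham) (F.Encl.mul hε sx har),
    eF_encl hε (F.Encl.mul hε sy hap) (F.Encl.mul hε sy ham), h⟩

end R6

end Pool.Agent.Work.MP_b30479_gt.G2
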