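import Pool.Agent.Work.MP_b30479_gt.G2.RT6C

/-!
# Rings on the level part: the hinge above the saddle point, slope `1`

`(side change) + (contribution change) ≥ 2 (LL (lv x T) - LL (lv xs T)) ≥ 2 σ m`.
-/

namespace Pool.Agent.Work.MP_b30479_gt.G2

open Set VOL NumI

namespace R6

open RC

theorem sin_sq_cos (a : ℝ) : Real.sin (Real.pi * a) ^ 2 =
    (1 - Real.cos (2 * (Real.pi * |a|))) / 2 := by
  have h := Real.cos_sq' (Real.pi * a)
  have h2 := Real.cos_two_mul (Real.pi * a)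
  have h3 : Real.cos (2 * (Real.pi * |a|)) = Real.cos (2 * (Real.pi * a)) := by
    rcases abs_choice a with h | h
    · rw [h]
    · rw [h, ← Real.cos_neg]
      congr 1
      ring
  rw [h3]
  linarith

theorem LL_lv_le {a b t : ℝ} (ha : |a| ≤ |b|) (hb : |b| ≤ 1 / 2) (h : t ≠ 0 ∨ a ≠ 0) :
    LL (lv a t) ≤ LL (lv b t) := by
  have hp := Real.pi_pos
  have h0 := abs_nonneg a
  have h1 : Real.sin (Real.pi * a) ^ 2 ≤ Real.sin (Real.pi * b) ^ 2 := by
    rw [sin_sq_cos, sin_sq_cos]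
    have := Real.cos_le_cos_of_nonneg_of_le_pi (x := 2 * (Real.pi * |a|)) (y := 2 * (Real.pi * |b|))
      (by positivity) (by nlinarith) (by nlinarith)
    linarith
  have h2 : 0 < Real.sin (Real.pi * a) ^ 2 + shq t := by
    rcases h with h | h
    · have : 0 < shq t := by
        unfold shq
        have : Real.sinh (Real.pi * t) ≠ 0 := by
          rw [Ne, Real.sinh_eq_zero]
          positivity
        positivity
      positivity
    · have h3 : 0 < |a| := abs_pos.2 h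
      have h4 : Real.cos (2 * (Real.pi * |a|)) < 1 := by
        rw [← Real.cos_zero]
        exact Real.cos_lt_cos_of_nonneg_of_le_pi le_rfl (by nlinarith) (by positivity)
      have := shq_nonneg t
      rw [sin_sq_cos]
      linarith
  rw [LL_lv_eq, LL_lv_eq]
  have := Real.log_le_log (by positivity : 0 < 4 * (Real.sin (Real.pi * a) ^ 2 + shq t))
    (by linarith : 4 * (Real.sin (Real.pi * a) ^ 2 + shq t) ≤
      4 * (Real.sin (Real.pi * b) ^ 2 + shq t))
  linarith

/-- **Slope `1`.** -/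
theorem kap1 {T ρ xs ys x y : ℝ} (hd : |y - x| ≤ ys - xs) (hd2 : ys - xs ≤ 1 / 2)
    (hn : T ≠ ρ ∨ y ≠ x) : 2 * (LL (lv x T) - LL (lv xs T)) ≤
    AA true T ρ xs ys x y + (Dx x y T ρ - Dx xs ys T ρ) := by
  have h := LL_lv_le (a := y - x) (b := ys - xs) (t := T - ρ) (by
    rw [abs_of_nonneg (a := ys - xs) ((abs_nonneg _).trans hd)]
    exact hd) (by
    rw [abs_of_nonneg (a := ys - xs) ((abs_nonneg _).trans hd)]
    exact hd2) (hn.imp sub_ne_zero.2 sub_ne_zero.2)
  have e : AA true T ρ xs ys x y = Sx xs ys T ρ - Sx x y T ρ := rfl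
  rw [e]
  unfold Sx Dx
  linarith

/-- lower bound of the slope of the own factor -/
theorem own_up {T xs x σ : ℝ} (h0 : 0 < xs) (hx : xs ≤ x) (hx2 : x ≤ 1 / 2) (hs : 0 ≤ σ)
    (h : σ * (Real.sin (Real.pi * xs) ^ 2 + shq T) ≤
      Real.sin (Real.pi * xs) ^ 2 * Real.cos (Real.pi * x)) :
    σ * (gh x - gh xs) ≤ LL (lv x T) - LL (lv xs T) := by
  have hp := Real.pi_pos
  have a1 : xs ∈ Ioo (0 : ℝ) 1 := ⟨h0, by linarith⟩
  have a2 : x ∈ Ioo (0 : ℝ) 1 := ⟨by linarith, by linarith⟩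
  set m := gh x - gh xs with hm
  have m0 : 0 ≤ m := sub_nonneg.2 (strictMonoOn_gh.monotoneOn a1 a2 hx)
  set f : ℝ → ℝ := fun θ => LL (lv (gc xs x θ) T) - θ * (σ * m) with hf
  have hd : ∀ θ ∈ Icc (0 : ℝ) 1, HasDerivAt f
      (m * (Real.sin (Real.pi * gc xs x θ) * NumI.PP (gc xs x θ) T - σ)) θ := by
    intro θ hθ
    have g0 := gc_mem xs x θ
    have h3 := (hasDerivAt_LL_lv' (lv_sin_ne (t := T) g0.1 g0.2)).comp θ (hasDerivAt_gc xs x θ)
    refine (h3.sub ((hasDerivAt_id' θ).mul_const (σ * m))).congr_deriv ?_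
    rw [← hm]
    field_simp
  have hc : ContinuousOn f (Icc 0 1) := fun θ hθ => (hd θ hθ).continuousAt.continuousWithinAt
  obtain ⟨θ, hθ, h'⟩ := exists_hasDerivAt_eq_slope f _ zero_lt_one hc
    (fun θ hθ => hd θ ⟨hθ.1.le, hθ.2.le⟩)
  have hb := gc_mem_Icc a1 a2 hx hθ.1.le hθ.2.le
  set X := gc xs x θ with hX
  have s1 : 0 < Real.sin (Real.pi * xs) :=
    Real.sin_pos_of_pos_of_lt_pi (by positivity) (by nlinarith)
  have s2 : Real.sin (Real.pi * xs) ≤ Real.sin (Real.pi * X) :=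
    Real.sin_le_sin_of_le_of_le_pi_div_two (by nlinarith) (by nlinarith [hb.2]) (by nlinarith [hb.1])
  have s3 : Real.cos (Real.pi * x) ≤ Real.cos (Real.pi * X) :=
    Real.cos_le_cos_of_nonneg_of_le_pi (by nlinarith [hb.1]) (by nlinarith) (by nlinarith [hb.2])
  have s4 : 0 ≤ Real.cos (Real.pi * x) :=
    Real.cos_nonneg_of_mem_Icc ⟨by nlinarith, by nlinarith⟩
  have key : σ ≤ Real.sin (Real.pi * X) * NumI.PP X T := by
    unfold NumI.PP NumI.MM
    change σ ≤ Real.sin (Real.pi * X) * (Real.sin (Real.pi * X) * Real.cos (Real.pi * X) /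
      (Real.sin (Real.pi * X) ^ 2 + shq T))
    have q := shq_nonneg T
    have r1 : 0 < Real.sin (Real.pi * X) ^ 2 + shq T := by
      have : 0 < Real.sin (Real.pi * X) := by linarith
      positivity
    rw [← mul_div_assoc, le_div_iff₀ r1]
    have r2 : 0 < Real.sin (Real.pi * xs) ^ 2 := by positivity
    have r3 : Real.sin (Real.pi * xs) ^ 2 ≤ Real.sin (Real.pi * X) ^ 2 :=
      pow_le_pow_left₀ s1.le s2 2
    generalize Real.sin (Real.pi * xs) ^ 2 = A at *
    have e1 : Real.sin (Real.pi * X) * (Real.sin (Real.pi * X) * Real.cos (Real.pi * X)) =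
      Real.sin (Real.pi * X) ^ 2 * Real.cos (Real.pi * X) := by ring
    rw [e1]
    generalize Real.sin (Real.pi * X) ^ 2 = B at *
    generalize Real.cos (Real.pi * X) = c1 at *
    generalize Real.cos (Real.pi * x) = c0 at *
    generalize shq T = Q at *
    have t1 : A * (σ * (B + Q)) ≤ A * (B * c1) := by
      have u1 : A * (σ * (B + Q)) = σ * (A * B) + σ * (A * Q) := by ring
      have u2 : σ * (A * Q) ≤ σ * (B * Q) :=
        mul_le_mul_of_nonneg_left (mul_le_mul_of_nonneg_right r3 q) hs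
      have u3 : B * (σ * (A + Q)) ≤ B * (A * c0) := mul_le_mul_of_nonneg_left h (by linarith)
      have u4 : B * (A * c0) ≤ B * (A * c1) :=
        mul_le_mul_of_nonneg_left (mul_le_mul_of_nonneg_left s3 r2.le) (by linarith)
      nlinarith
    exact le_of_mul_le_mul_left t1 r2
  have e0 : f 0 = LL (lv xs T) := by
    simp only [hf, gc_zero a1]
    ring
  have e1 : f 1 = LL (lv x T) - σ * m := by
    simp only [hf, gc_one a2]
    ring
  rw [sub_zero, div_one, e0, e1] at h'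
  have : 0 ≤ m * (Real.sin (Real.pi * X) * NumI.PP X T - σ) :=
    mul_nonneg m0 (by linarith)
  linarith

/-- rows of type `1` above the saddle point, as long as the distance of the arguments does not
grow -/
theorem kap1_con {c : Cf} (hu : c.up = true) (ht : c.ty = 1) {T ρ xs ys x y σ N : ℝ} (h0 : 0 < xs)
    (hx : xs < x) (hx2 : x ≤ 1 / 2) (hd : |y - x| ≤ ys - xs) (hd2 : ys - xs ≤ 1 / 2)
    (hn : T ≠ ρ ∨ y ≠ x) (hs : 0 < σ) (hal : (c.al : ℝ) / 100 < 2 * σ + (c.mu : ℝ) / 1000)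
    (h : σ * (Real.sin (Real.pi * xs) ^ 2 + shq T) ≤
      Real.sin (Real.pi * xs) ^ 2 * Real.cos (Real.pi * x)) :
    c.Con (AA c.up T ρ xs ys x y) (Dx x y T ρ - Dx xs ys T ρ) (mm c.up xs x) N := by
  have k1 := kap1 (T := T) hd hd2 hn
  have k2 := own_up h0 hx.le hx2 hs.le h
  refine ⟨fun h => by omega, fun _ => ?_, fun h => by omega⟩
  rw [hu]
  have e : mm true xs x = gh x - gh xs := rfl
  rw [e]
  have m0 : 0 < gh x - gh xs :=
    sub_pos.2 (strictMonoOn_gh ⟨h0, by linarith⟩ ⟨by linarith, by linarith⟩ hx)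
  generalize gh x - gh xs = m at *
  by_contra hc
  rw [not_or, not_or, not_lt, not_lt] at hc
  obtain ⟨c1, c2, -⟩ := hc
  have k3 : 0 < σ * m := mul_pos hs m0
  have k4 : 0 ≤ (c.mu : ℝ) / 1000 * m := by positivity
  have k5 := mul_lt_mul_of_pos_right hal m0
  have k6 : 0 ≤ (c.al : ℝ) / 100 * ((c.m0 : ℝ) / 1000) := by positivity
  have k7 : Lb c.al c.m0 m < 2 * (σ * m) + (c.mu : ℝ) / 1000 * m := by
    unfold Lb
    apply max_lt
    · linarith
    · linarith
  linarith

end R6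

end Pool.Agent.Work.MP_b30479_gt.G2
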