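import Pool.Agent.Work.MP_b30479_gt.G2.RT6D

/-!
# Certificate trees of rows in pieces

`RB`: the row on a box in units `2^(-36)`; a long certificate is cut at inner nodes into theorems
for parts of the box.
-/

namespace Pool.Agent.Work.MP_b30479_gt.G2

open NumI

namespace R6

/-- the row on a box, units `2^(-36)` -/
def RB (c : Cf) (a0 b0 a1 b1 a2 b2 a3 b3 a4 b4 a5 b5 : ℕ) : Prop :=
  ∀ x0 x1 x2 x3 x4 x5 : ℝ, Rg o20 a0 b0 x0 → Rg 0 a1 b1 x1 → Rg 0 a2 b2 x2 → Rg 0 a3 b3 x3 →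
    Rg 0 a4 b4 x4 → Rg 0 a5 b5 x5 → RowP c x0 x1 x2 x3 x4 x5

/-- the check of a part -/
noncomputable def okR (c : Cf) (fuel a0 b0 a1 b1 a2 b2 a3 b3 a4 b4 a5 b5 cd : ℕ) : Bool :=
  Option.rec (motive := fun _ => Bool) false (fun c => Nat.beq c 0)
    (run6 (tT c o20) fuel a0 b0 a1 b1 a2 b2 a3 b3 a4 b4 a5 b5 cd)

theorem RB.of {c : Cf} (hty : c.ty ≤ 2) {fuel a0 b0 a1 b1 a2 b2 a3 b3 a4 b4 a5 b5 cd : ℕ}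
    (h : okR c fuel a0 b0 a1 b1 a2 b2 a3 b3 a4 b4 a5 b5 cd = true) :
    RB c a0 b0 a1 b1 a2 b2 a3 b3 a4 b4 a5 b5 := by
  intro x0 x1 x2 x3 x4 x5 h0 h1 h2 h3 h4 h5
  unfold okR at h
  rcases hr : run6 (tT c o20) fuel a0 b0 a1 b1 a2 b2 a3 b3 a4 b4 a5 b5 cd with _ | c'
  · rw [hr] at h
    exact absurd h (by simp)
  · exact run6_sound (tT_ok hty) fuel hr h0 h1 h2 h3 h4 h5

/-- the bounds of a box in the two units -/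
def eqs (l0 h0 l1 h1 l2 h2 l3 h3 l4 h4 l5 h5 a0 b0 a1 b1 a2 b2 a3 b3 a4 b4 a5 b5 : ℕ) : Bool :=
  let A (l : ℕ) := Nat.div (Nat.mul l 68719476736) 10000
  let B (h : ℕ) := Nat.add (Nat.div (Nat.mul h 68719476736) 10000) 2
  Nat.beq (A l0) a0 && Nat.beq (B h0) b0 && Nat.beq (A l1) a1 && Nat.beq (B h1) b1 &&
    Nat.beq (A l2) a2 && Nat.beq (B h2) b2 && Nat.beq (A l3) a3 && Nat.beq (B h3) b3 &&
    Nat.beq (A l4) a4 && Nat.beq (B h4) b4 && Nat.beq (A l5) a5 && Nat.beq (B h5) b5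

theorem Bx.ofR {c : Cf}
    {l0 h0 l1 h1 l2 h2 l3 h3 l4 h4 l5 h5 a0 b0 a1 b1 a2 b2 a3 b3 a4 b4 a5 b5 : ℕ}
    (e : eqs l0 h0 l1 h1 l2 h2 l3 h3 l4 h4 l5 h5 a0 b0 a1 b1 a2 b2 a3 b3 a4 b4 a5 b5 = true)
    (h : RB c a0 b0 a1 b1 a2 b2 a3 b3 a4 b4 a5 b5) :
    Bx c l0 h0 l1 h1 l2 h2 l3 h3 l4 h4 l5 h5 := by
  unfold eqs at e
  simp only [Bool.and_eq_true] at e
  obtain ⟨⟨⟨⟨⟨⟨⟨⟨⟨⟨⟨e0, e1⟩, e2⟩, e3⟩, e4⟩, e5⟩, e6⟩, e7⟩, e8⟩, e9⟩, e10⟩, e11⟩ := e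
  have e0 := Nat.eq_of_beq_eq_true e0
  have e1 := Nat.eq_of_beq_eq_true e1
  have e2 := Nat.eq_of_beq_eq_true e2
  have e3 := Nat.eq_of_beq_eq_true e3
  have e4 := Nat.eq_of_beq_eq_true e4
  have e5 := Nat.eq_of_beq_eq_true e5
  have e6 := Nat.eq_of_beq_eq_true e6
  have e7 := Nat.eq_of_beq_eq_true e7
  have e8 := Nat.eq_of_beq_eq_true e8
  have e9 := Nat.eq_of_beq_eq_true e9
  have e10 := Nat.eq_of_beq_eq_true e10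
  have e11 := Nat.eq_of_beq_eq_true e11
  subst e0 e1 e2 e3 e4 e5 e6 e7 e8 e9 e10 e11
  intro x0 x1 x2 x3 x4 x5 p0 q0 p1 q1 p2 q2 p3 q3 p4 q4 p5 q5
  have e : ((10000 : ℕ) : ℝ) = 10000 := by norm_num
  have e' : ((2000 : ℕ) : ℝ) = 2000 := by norm_num
  have ho : off 2000 = o20 := rfl
  have r : ∀ {l h : ℕ} {x : ℝ}, (l : ℝ) / 10000 ≤ x → x ≤ (h : ℝ) / 10000 →
      Rg 0 (Nat.div (Nat.mul l 68719476736) 10000)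
        (Nat.add (Nat.div (Nat.mul h 68719476736) 10000) 2) x := by
    intro l h x a b
    have := Rg.dec (N := 10000) (l := l) (h := h) (o := 0) (by norm_num) (x := x)
      (by rw [e, Nat.cast_zero, sub_zero]; exact a) (by rw [e, Nat.cast_zero, sub_zero]; exact b)
    exact this
  refine h x0 x1 x2 x3 x4 x5 ?_ (r p1 q1) (r p2 q2) (r p3 q3) (r p4 q4) (r p5 q5)
  rw [← ho]
  exact Rg.dec (N := 10000) (o := 2000) (by norm_num) (by rw [e, e']; exact p0)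
    (by rw [e, e']; exact q0)

section
variable {c : Cf} {a0 b0 a1 b1 a2 b2 a3 b3 a4 b4 a5 b5 : ℕ}

theorem RB.s0 (m : ℕ) (a : RB c a0 m a1 b1 a2 b2 a3 b3 a4 b4 a5 b5)
    (b : RB c m b0 a1 b1 a2 b2 a3 b3 a4 b4 a5 b5) : RB c a0 b0 a1 b1 a2 b2 a3 b3 a4 b4 a5 b5 := by
  intro x0 x1 x2 x3 x4 x5 h0 h1 h2 h3 h4 h5
  rcases h0.split m with hs | hs
  · exact a x0 x1 x2 x3 x4 x5 hs h1 h2 h3 h4 h5
  · exact b x0 x1 x2 x3 x4 x5 hs h1 h2 h3 h4 h5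

theorem RB.s1 (m : ℕ) (a : RB c a0 b0 a1 m a2 b2 a3 b3 a4 b4 a5 b5)
    (b : RB c a0 b0 m b1 a2 b2 a3 b3 a4 b4 a5 b5) : RB c a0 b0 a1 b1 a2 b2 a3 b3 a4 b4 a5 b5 := by
  intro x0 x1 x2 x3 x4 x5 h0 h1 h2 h3 h4 h5
  rcases h1.split m with hs | hs
  · exact a x0 x1 x2 x3 x4 x5 h0 hs h2 h3 h4 h5
  · exact b x0 x1 x2 x3 x4 x5 h0 hs h2 h3 h4 h5

theorem RB.s2 (m : ℕ) (a : RB c a0 b0 a1 b1 a2 m a3 b3 a4 b4 a5 b5)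
    (b : RB c a0 b0 a1 b1 m b2 a3 b3 a4 b4 a5 b5) : RB c a0 b0 a1 b1 a2 b2 a3 b3 a4 b4 a5 b5 := by
  intro x0 x1 x2 x3 x4 x5 h0 h1 h2 h3 h4 h5
  rcases h2.split m with hs | hs
  · exact a x0 x1 x2 x3 x4 x5 h0 h1 hs h3 h4 h5
  · exact b x0 x1 x2 x3 x4 x5 h0 h1 hs h3 h4 h5

theorem RB.s3 (m : ℕ) (a : RB c a0 b0 a1 b1 a2 b2 a3 m a4 b4 a5 b5)
    (b : RB c a0 b0 a1 b1 a2 b2 m b3 a4 b4 a5 b5) : RB c a0 b0 a1 b1 a2 b2 a3 b3 a4 b4 a5 b5 := by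
  intro x0 x1 x2 x3 x4 x5 h0 h1 h2 h3 h4 h5
  rcases h3.split m with hs | hs
  · exact a x0 x1 x2 x3 x4 x5 h0 h1 h2 hs h4 h5
  · exact b x0 x1 x2 x3 x4 x5 h0 h1 h2 hs h4 h5

theorem RB.s4 (m : ℕ) (a : RB c a0 b0 a1 b1 a2 b2 a3 b3 a4 m a5 b5)
    (b : RB c a0 b0 a1 b1 a2 b2 a3 b3 m b4 a5 b5) : RB c a0 b0 a1 b1 a2 b2 a3 b3 a4 b4 a5 b5 := by
  intro x0 x1 x2 x3 x4 x5 h0 h1 h2 h3 h4 h5
  rcases h4.split m with hs | hs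
  · exact a x0 x1 x2 x3 x4 x5 h0 h1 h2 h3 hs h5
  · exact b x0 x1 x2 x3 x4 x5 h0 h1 h2 h3 hs h5

theorem RB.s5 (m : ℕ) (a : RB c a0 b0 a1 b1 a2 b2 a3 b3 a4 b4 a5 m)
    (b : RB c a0 b0 a1 b1 a2 b2 a3 b3 a4 b4 m b5) : RB c a0 b0 a1 b1 a2 b2 a3 b3 a4 b4 a5 b5 := by
  intro x0 x1 x2 x3 x4 x5 h0 h1 h2 h3 h4 h5
  rcases h5.split m with hs | hs
  · exact a x0 x1 x2 x3 x4 x5 h0 h1 h2 h3 h4 hs
  · exact b x0 x1 x2 x3 x4 x5 h0 h1 h2 h3 h4 hs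

end

end R6

end Pool.Agent.Work.MP_b30479_gt.G2
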