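import Pool.Agent.Work.MP_b30479_gt.G2.WLocF
import Pool.Agent.Work.MP_b30479_gt.G2.RWd

/-!
# The ramp part of the rings in a word, four crossings
-/

namespace Pool.Agent.Work.MP_b30479_gt.G2

open Finset VOL Filter Topology

namespace RC

variable {W W' : RWp} {b lam α β cl cp : ℝ}

theorem RowI.mono (H : RowI W b lam α β cl cp)
    (h : ∀ xs s T ρ, W'.In xs s T ρ → W.In xs s T ρ) : RowI W' b lam α β cl cp :=
  fun xs s T ρ hI => H xs s T ρ (h xs s T ρ hI)

theorem RowE.mono (H : RowE W b cl cp)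
    (h : ∀ xs s T ρ, W'.In xs s T ρ → W.In xs s T ρ) : RowE W' b cl cp :=
  fun xs s T ρ hI hD => H xs s T ρ (h xs s T ρ hI) hD

end RC

namespace SR

/-- window of the saddle point, interior ring with four crossings, by the class of the neighbour;
`e`: equal signs; `[s0, s1]`: range of minus the real part of the ring variable -/
noncomputable def w4 (C : Cl) (e : Bool) (s0 s1 : ℝ) : RC.RWp :=
  match C, e with
  | .one, _ => ⟨2250 / 10000, 2980 / 10000, -(1280 / 10000), -(380 / 10000), s0, s1, 330 / 10000,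
      850 / 10000, 4826 / 10000, 4150 / 10000, 960 / 10000, 1861 / 10000, 0, 1⟩
  | .two, _ => ⟨1985 / 10000, 2520 / 10000, -(680 / 10000), -(100 / 10000), s0, s1, 420 / 10000,
      910 / 10000, 4495 / 10000, 3750 / 10000, 730 / 10000, 1360 / 10000, 13 / 10, 398 / 1000⟩
  | .twoE, _ => ⟨1720 / 10000, 1845 / 10000, -(1120 / 10000), -(880 / 10000), s0, s1, 320 / 10000,
      730 / 10000, 3925 / 10000, 3290 / 10000, 1320 / 10000, 1710 / 10000, 11 / 10, 391 / 1000⟩
  | .three, _ => ⟨1950 / 10000, 2340 / 10000, -(360 / 10000), 10 / 10000, s0, s1, 470 / 10000,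
      930 / 10000, 4330 / 10000, 3560 / 10000, 600 / 10000, 1100 / 10000, 22 / 10, 59 / 100⟩
  | .threeE, _ => ⟨1750 / 10000, 1950 / 10000, -(420 / 10000), -(180 / 10000), s0, s1, 430 / 10000,
      870 / 10000, 4060 / 10000, 3320 / 10000, 740 / 10000, 1140 / 10000, 22 / 10, 59 / 100⟩
  | .ring, false => ⟨1870 / 10000, 2370 / 10000, -(200 / 10000), 385 / 10000, s0, s1, 490 / 10000,
      1045 / 10000, 4380 / 10000, 3560 / 10000, 370 / 10000, 980 / 10000, 22 / 10, 59 / 100⟩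
  | .ring, true => ⟨1730 / 10000, 2370 / 10000, 120 / 10000, 560 / 10000, s0, s1, 530 / 10000,
      1045 / 10000, 4380 / 10000, 3560 / 10000, 140 / 10000, 730 / 10000, 22 / 10, 59 / 100⟩

/-- window of the saddle point, ring with four crossings at an end -/
noncomputable def w4e (C : Cl) (e : Bool) : RC.RWp :=
  match C, e with
  | .one, _ => ⟨2160 / 10000, 2751 / 10000, -(1150 / 10000), -(380 / 10000), 1965 / 10000,
      2153 / 10000, 220 / 10000, 500 / 10000, 4738 / 10000, 4380 / 10000, 848 / 10000,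
      1403 / 10000, 0, 1⟩
  | .two, _ => ⟨1910 / 10000, 2380 / 10000, -(560 / 10000), -(110 / 10000), 2040 / 10000,
      2225 / 10000, 320 / 10000, 530 / 10000, 4490 / 10000, 4020 / 10000, 580 / 10000,
      970 / 10000, 13 / 10, 398 / 1000⟩
  | .twoE, _ => ⟨1667 / 10000, 1670 / 10000, -(930 / 10000), -(925 / 10000), 2183 / 10000,
      2187 / 10000, 180 / 10000, 265 / 10000, 3930 / 10000, 3700 / 10000, 1110 / 10000,
      1270 / 10000, 0, 1⟩
  | .three, _ => ⟨1880 / 10000, 2150 / 10000, -(270 / 10000), 10 / 10000, 2130 / 10000,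
      2340 / 10000, 380 / 10000, 550 / 10000, 4360 / 10000, 3850 / 10000, 470 / 10000,
      740 / 10000, 22 / 10, 59 / 100⟩
  | .threeE, _ => ⟨1710 / 10000, 1820 / 10000, -(340 / 10000), -(180 / 10000), 2200 / 10000,
      2360 / 10000, 310 / 10000, 450 / 10000, 4100 / 10000, 3670 / 10000, 570 / 10000,
      730 / 10000, 22 / 10, 59 / 100⟩
  | .ring, false => ⟨1820 / 10000, 2170 / 10000, -(130 / 10000), 340 / 10000, 2180 / 10000,
      2390 / 10000, 400 / 10000, 650 / 10000, 4465 / 10000, 3820 / 10000, 280 / 10000,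
      630 / 10000, 22 / 10, 59 / 100⟩
  | .ring, true => ⟨1700 / 10000, 2170 / 10000, 160 / 10000, 490 / 10000, 2220 / 10000,
      2445 / 10000, 440 / 10000, 650 / 10000, 4465 / 10000, 3820 / 10000, 110 / 10000,
      440 / 10000, 22 / 10, 59 / 100⟩

/-- ends of the ranges of `s` -/
noncomputable def s4a (C : Cl) (e : Bool) : ℝ :=
  match C, e with
  | .one, _ => 1510 / 10000
  | .two, _ => 1610 / 10000
  | .twoE, _ => 1660 / 10000
  | .three, _ => 1650 / 10000
  | .threeE, _ => 1690 / 10000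
  | .ring, false => 1670 / 10000
  | .ring, true => 1680 / 10000

noncomputable def s4b (C : Cl) : ℝ :=
  match C with
  | .one => 2004 / 10000
  | .two => 2110 / 10000
  | .twoE => 2080 / 10000
  | _ => 2130 / 10000

noncomputable def s4c (C : Cl) (e : Bool) : ℝ :=
  match C, e with
  | .three, _ => 2140 / 10000
  | .threeE, _ => 2170 / 10000
  | .ring, false => 2170 / 10000
  | .ring, true => 2260 / 10000
  | _, _ => 2130 / 10000

/-- **The rows of the ramp part, four crossings.** -/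
structure Rows4 : Prop where
  ia : ∀ C e, RC.RowI (w4 C e (s4a C e) (2000 / 10000)) 4 (65 / 100) (14 / 100) 1 (fcl C) (fcp C)
  ib : ∀ C e, RC.RowI (w4 C e (2000 / 10000) (s4b C)) 4 (65 / 100) (14 / 100) (11 / 10)
    (fcl C) (fcp C)
  ic : ∀ C e, C ≠ .one → C ≠ .two → C ≠ .twoE →
    RC.RowI (w4 C e (2130 / 10000) (s4c C e)) 4 (65 / 100) (8 / 100) (11 / 10) (fcl C) (fcp C)
  e : ∀ C e, C ≠ .twoE → RC.RowE (w4e C e) 4 (fcl C) (fcp C)

variable {M : ℕ} {b : Fin (M + 1) → ℤ} {zs : DD (tyW b) ⊕ ZZ (tyW b) → ℂ}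
variable {y : DD (tyW b) ⊕ ZZ (tyW b) → ℝ}
variable {h h' : Fin M} {i j j' : Fin (M + 1)} {p : Fin 3} {v : ZZ (tyW b)}

/-- the windows of `LocR4` in real form -/
theorem LocR4.real (H4 : LocR4 b zs) (A : Adj h i p j) (hc : clsW b i = .ring) (hv : v.1 = i)
    (h4 : (b i).natAbs = 4) {B : R4} (hB : r4 (isEnd i) (clsW b j) (ssW b h) = B) :
    (B.x0 ≤ (zs (.inl (.inl h))).re ∧ (zs (.inl (.inl h))).re ≤ B.x1) ∧
    (B.s0 ≤ -ofs (b i) (zs (.inr v)).re ∧ -ofs (b i) (zs (.inr v)).re ≤ B.s1) ∧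
    (B.q0 ≤ (zs (.inr v)).im - ofs (b i) (zs (.inl (.inl h))).im ∧
      (zs (.inr v)).im - ofs (b i) (zs (.inl (.inl h))).im ≤ B.q1) ∧
    (B.r0 ≤ (zs (.inr v)).im ∧ (zs (.inr v)).im ≤ B.r1) ∧
    (B.t0 ≤ ofs (b i) (zs (.inl (.inl h))).im ∧ ofs (b i) (zs (.inl (.inl h))).im ≤ B.t1) ∧
    ((zs (.inl (.inl h))).re - ofs (b i) (zs (.inr v)).re ≤ B.c1 ∧
      (zs (.inl (.inl h))).re - ofs (b i) (zs (.inr v)).re ≤ B.cr + (zs (.inr v)).im) := by
  have hI := H4.four v hv A hc h4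
  rw [hB] at hI
  obtain ⟨a1, a2, a3, a4, a5, a6, a7, a8, a9, a10, a11, a12⟩ := hI
  simp only [ofr_re, ofr_im, ofz_re, ofz_im] at a1 a2 a3 a4 a5 a6 a7 a8 a9 a10 a11 a12
  exact ⟨⟨a1, a2⟩, ⟨a3, a4⟩, ⟨a5, a6⟩, ⟨a7, a8⟩, ⟨a9, a10⟩, ⟨a11, a12⟩⟩

/-- **The saddle point is in the window**, interior ring with four crossings. -/
theorem Adj.in_w4 (A : Adj h i p j) (hb : ClassW b) (hL : Loc b zs) (hX : LocX b zs)
    (hR : LocR b zs) (hG : LocRg b zs) (H4 : LocR4 b zs) (hc : clsW b i = .ring) (hv : v.1 = i)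
    (h4 : (b i).natAbs = 4) (he : isEnd i = false) {s0 s1 : ℝ}
    (a0 : s0 ≤ -ofs (b i) (zs (.inr v)).re) (a1 : -ofs (b i) (zs (.inr v)).re ≤ s1) :
    (w4 (clsW b j) (ssW b h) s0 s1).In (zs (.inl (.inl h))).re
      (-ofs (b i) (zs (.inr v)).re) (ofs (b i) (zs (.inl (.inl h))).im) (zs (.inr v)).im := by
  have hpos := hL.rpos v
  obtain ⟨x0, x1, t0, t1⟩ := A.box hb hL
  rw [hc] at x0 x1 t0 t1
  have rr := (ring_cap hb hL v).1
  by_cases hj : clsW b j = .ring
  · -- ring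
    have W := hG.three v hv A hc (Or.inr (Or.inr hj))
    have Wqs := W.qs
    simp only [ofr_im, ofz_re, ofz_im] at Wqs
    have hT := (hR.rr A hc hj).1
    have key := H4.real A hc hv h4 rfl
    rw [he] at key
    rw [hj] at x0 x1 t0 t1 key ⊢
    generalize ssW b h = e at *
    cases e
    · simp only [hbox] at x0 x1 t0 t1
      norm_num [r4, mk4] at key
      obtain ⟨⟨k1, k2⟩, ⟨k3, k4⟩, ⟨k5, k6⟩, ⟨k7, k8⟩, ⟨k9, k10⟩, k11, k12⟩ := key
      unfold w4
      constructor <;> (try simp only) <;> linarith only [k1, k2, k9, t1, a0, a1, hpos, k7, rr, k11, k12, k5, k6, Wqs]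
    · simp only [hbox] at x0 x1 t0 t1
      norm_num [r4, mk4] at key
      obtain ⟨⟨k1, k2⟩, ⟨k3, k4⟩, ⟨k5, k6⟩, ⟨k7, k8⟩, ⟨k9, k10⟩, k11, k12⟩ := key
      unfold w4
      constructor <;> (try simp only) <;> linarith only [k1, k2, k9, hT, a0, a1, hpos, k7, rr, k11, k12, k5, k6, Wqs]
  · have hop := A.opp hb (Or.inr hj)
    have hop' : b j * b i < 0 := by rwa [mul_comm] at hop
    have eo := ofs_opp hop' (zs (.inl (.inl h))).im
    have e : ssW b h = false := A.ss hop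
    have key := H4.real A hc hv h4 rfl
    rw [he] at key
    rw [e] at x0 x1 t0 t1 key ⊢
    generalize hC : clsW b j = C at *
    cases C
    · obtain ⟨h', j', A'⟩ := A.symm.other_one hb hC
      obtain ⟨W, hW, hI⟩ := hG.one v hv A.symm A' hC (Or.inl h4)
      have hT := hX.one4 A.symm hC hc h4
      have hk := (hG.kr v hv A.symm A' hC h4 he).1
      rw [h4, he] at hW
      have i0 := hI.x0
      have i1 := hI.x1
      have i2 := hI.s0
      have i3 := hI.s1
      have i4 := hI.q0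
      have i5 := hI.q1
      have i6 := hI.c
      simp only [ofr_re, ofr_im, ofz_re, ofz_im] at i0 i1 i2 i3 i4 i5 i6
      simp only [hbox] at x0 x1 t0 t1
      norm_num [r4, mk4] at key
      obtain ⟨⟨k1, k2⟩, ⟨k3, k4⟩, ⟨k5, k6⟩, ⟨k7, k8⟩, ⟨k9, k10⟩, k11, k12⟩ := key
      have m1 : W.c1 / 10000 ≤ 4826 / 10000 ∧ W.q1 / 10000 ≤ 1861 / 10000 := by
        generalize clsW b j' = P at hW
        cases P <;> simp only [rw1, List.mem_cons, List.not_mem_nil, or_false] at hW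
        · rcases hW with rfl | rfl | rfl | rfl | rfl <;> norm_num
        · rcases hW with rfl | rfl | rfl | rfl <;> norm_num
        · rcases hW with rfl | rfl <;> norm_num
      unfold w4
      constructor <;> (try simp only) <;> linarith only [k1, x1, eo, hT, t1, a0, a1, hpos, k7, hk, i6, m1, k12, k5, i5, m1.1, m1.2]
    · have W := hG.two v hv A hc hC
      have Wqs := W.qs
      have Wc := W.c
      simp only [ofr_re, ofr_im, ofz_re, ofz_im] at Wqs Wc
      simp only [hbox] at x0 x1 t0 t1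
      norm_num [r4, mk4] at key
      obtain ⟨⟨k1, k2⟩, ⟨k3, k4⟩, ⟨k5, k6⟩, ⟨k7, k8⟩, ⟨k9, k10⟩, k11, k12⟩ := key
      unfold w4
      constructor <;> (try simp only) <;> linarith only [k1, x1, k9, t1, a0, a1, hpos, k7, k8, Wc, k12, k5, k6, Wqs]
    · have W := hG.twoE4 v hv A h4 he hC
      have w0 := W.x0
      have w1 := W.x1
      have Wq := W.q
      have Wqs := W.qs
      simp only [ofr_re, ofr_im, ofz_re, ofz_im] at w0 w1 Wq Wqs
      simp only [hbox] at x0 x1 t0 t1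
      norm_num [r4, mk4] at key
      obtain ⟨⟨k1, k2⟩, ⟨k3, k4⟩, ⟨k5, k6⟩, ⟨k7, k8⟩, ⟨k9, k10⟩, k11, k12⟩ := key
      have Ws := W.s
      simp only [ofz_re] at Ws
      unfold w4
      constructor <;> (try simp only) <;> linarith only [w0, w1, k9, t1, a0, a1, hpos, k7, k8, Ws, k12, k5, Wq, Wqs]
    · have W := hG.three v hv A hc (Or.inl hC)
      have Wqs := W.qs
      simp only [ofr_im, ofz_re, ofz_im] at Wqs
      simp only [hbox] at x0 x1 t0 t1
      norm_num [r4, mk4] at key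
      obtain ⟨⟨k1, k2⟩, ⟨k3, k4⟩, ⟨k5, k6⟩, ⟨k7, k8⟩, ⟨k9, k10⟩, k11, k12⟩ := key
      have h3 := hX.three A.symm hC hc
      unfold w4
      constructor <;> (try simp only) <;> linarith only [k1, x1, k9, eo, h3, a0, a1, hpos, k7, k8, k11, k12, k5, k6, k4]
    · have W := hG.three v hv A hc (Or.inr (Or.inl hC))
      have Wqs := W.qs
      simp only [ofr_im, ofz_re, ofz_im] at Wqs
      simp only [hbox] at x0 x1 t0 t1
      norm_num [r4, mk4] at key
      obtain ⟨⟨k1, k2⟩, ⟨k3, k4⟩, ⟨k5, k6⟩, ⟨k7, k8⟩, ⟨k9, k10⟩, k11, k12⟩ := key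
      unfold w4
      constructor <;> (try simp only) <;> linarith only [k1, x1, k9, t1, a0, a1, hpos, k7, k8, k11, k12, k5, k6, Wqs]
    · exact absurd rfl hj

end SR

end Pool.Agent.Work.MP_b30479_gt.G2
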