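import Pool.Agent.Work.MP_b30479_gt.G2.RWd
import Pool.Agent.Work.MP_b30479_gt.G2.RH2R

/-!
# The level part of the rings in a word: the hinges without exceptions
-/

namespace Pool.Agent.Work.MP_b30479_gt.G2

open Finset VOL Filter Topology

namespace SR

variable {M : ℕ} {b : Fin (M + 1) → ℤ} {zs : DD (tyW b) ⊕ ZZ (tyW b) → ℂ}
variable {y : DD (tyW b) ⊕ ZZ (tyW b) → ℝ}
variable {h h' : Fin M} {i j j' : Fin (M + 1)} {p : Fin 3} {v : ZZ (tyW b)}

theorem t171_gt : (275 : ℝ) / 1000 < RC.ta (171 / 1000) := by
  have := RC.Row.ta_gt (n := 171) (d := 1000) (m := 275) (e := 1000) (by decide +kernel) (by norm_num)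
  norm_num at this ⊢
  exact this

theorem t47_lt : RC.ta (47 / 100) < (92 : ℝ) / 100 := by
  have := RC.Row.ta_ltq (n := 47) (d := 100) (m := 92) (e := 100) (by decide +kernel) (by norm_num)
  norm_num at this ⊢
  exact this

theorem kap2e {xs s : ℝ} (x0 : 164 / 1000 ≤ xs) (x1 : xs ≤ 186 / 1000) (s0 : 0 ≤ s)
    (s1 : s ≤ 1885 / 10000) (hk : 3 / 100 ≤ s ∨ 171 / 1000 ≤ xs) :
    275 / 1000 * RC.ta (1 / 2 - s) ≤ RC.ta xs := by
  have hxi : xs ∈ Set.Ioo (0 : ℝ) 1 := ⟨by linarith only [x0], by linarith only [x1]⟩
  have hyi : 1 / 2 - s ∈ Set.Ioo (0 : ℝ) 1 := ⟨by linarith only [s1], by linarith only [s0]⟩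
  rcases hk with hk | hk
  · have h1 := RC.ta_hi (m := 47 / 100) hyi (by constructor <;> norm_num) (by linarith only [hk]) t47_lt
    have h2 := RC.ta_lo hxi (by constructor <;> norm_num) x0 RC.Row.t164_gt
    linarith only [h1, h2]
  · have h1 := RC.ta_le_one hyi (by linarith only [s0])
    have h2 := RC.ta_lo hxi (by constructor <;> norm_num) hk t171_gt
    linarith only [h1, h2]

/-- **Level part of the hinges `ring | ring`, `ring | 3`, `ring | 2`, `ring | 2` at an end.** -/
theorem Adj.lv_lo (A : Adj h i p j) (hb : ClassW b) (hL : Loc b zs)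
    (hR : LocR b zs) (hG : LocRg b zs) (hc : clsW b i = .ring) (hv : v.1 = i)
    (hj : clsW b j ≠ .one) (hE : clsW b j = .twoE → 5 ≤ (b i).natAbs)
    (hρ : (b i).natAbs = 4 → 4 / 1000 ≤ (zs (.inr v)).im) :
    RC.LH (zs (.inl (.inl h))).re (1 / 2 + ofs (b i) (zs (.inr v)).re)
      (ofs (b i) (zs (.inl (.inl h))).im) (zs (.inr v)).im (fcl (clsW b j)) (fcp (clsW b j)) ∧
    RC.DnG (zs (.inl (.inl h))).re (ofs (b i) (zs (.inl (.inl h))).im) (fcl (clsW b j))
      (fcp (clsW b j)) (1 / 2 + ofs (b i) (zs (.inr v)).re) (zs (.inr v)).im := by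
  have h4 := ring_four hb (tyW_of_ring hb hc)
  obtain ⟨b0, b1, hpos, b2⟩ := ring_box hL v
  have s0 : ofs (b i) (zs (.inr v)).re ≤ 0 := by
    rw [hv] at b1
    refine b1.trans ?_
    unfold zbox
    split_ifs <;> norm_num
  have rr := (ring_cap hb hL v).1
  obtain ⟨x0, x1, t0, t1⟩ := A.box hb hL
  rw [hc] at x0 x1 t0 t1
  by_cases hj2 : clsW b j = .ring
  · -- ring
    have W := hG.three v hv A hc (Or.inr (Or.inr hj2))
    have Ws := W.s
    have Wq := W.q
    have Wqs := W.qs
    have Wc := W.c
    simp only [ofr_re, ofr_im, ofz_re, ofz_im] at Ws Wq Wqs Wc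
    obtain ⟨T4, T5⟩ := hR.rr A hc hj2
    have hTr : ofs (b i) (zs (.inl (.inl h))).im - (zs (.inr v)).im ≤ 52 / 1000 := by
      rcases h4.eq_or_lt with h5 | h5
      · have := hρ h5.symm
        linarith only [T4, this]
      · have := T5 h5
        linarith only [hpos, T4, this]
    have hlo : -(385 / 10000) ≤ ofs (b i) (zs (.inl (.inl h))).im := by
      refine le_trans ?_ t0
      rw [hj2]
      generalize ssW b h = e
      cases e <;> simp only [hbox] <;> norm_num
    have hx0 : 170 / 1000 ≤ (zs (.inl (.inl h))).re := by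
      refine le_trans ?_ x0
      rw [hj2]
      generalize ssW b h = e
      cases e <;> simp only [hbox] <;> norm_num
    have hx1 : (zs (.inl (.inl h))).re ≤ 252 / 1000 := by
      refine x1.trans ?_
      rw [hj2]
      generalize ssW b h = e
      cases e <;> simp only [hbox] <;> norm_num
    rw [hj2]
    simp only [fcl, fcp]
    refine RC.cls3 ⟨by norm_num, by norm_num, by linarith only [hpos, rr, hx0], by linarith only [hpos, rr, hx1], by linarith only [hpos, rr, Wc], by linarith only [hpos, rr, Ws],
      by linarith only [s0]⟩ (by norm_num) (by norm_num) hx0 hx1 (by linarith only [Ws]) (by linarith only [Wc])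
      (abs_le.2 ⟨by linarith only [hpos, Wq, hlo], by linarith only [hpos, rr, T4]⟩) (abs_le.2 ⟨by linarith only [hpos, rr, Wq], by linarith only [hpos, rr, T4]⟩)
      (abs_le.2 ⟨by linarith only [Wq], by linarith only [hpos, rr, T4]⟩) (abs_le.2 ⟨by linarith only [Wqs], by linarith only [hpos, Ws, T4, hTr]⟩)
  · have hop := A.opp hb (Or.inr hj2)
    rw [A.ss hop] at x0 x1 t0 t1
    generalize hC : clsW b j = C at *
    cases C
    · exact absurd rfl hj
    · have W := hG.two v hv A hc hC
      have Ws := W.s
      have Wq := W.q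
      have Wqs := W.qs
      have Wc := W.c
      simp only [ofr_re, ofr_im, ofz_re, ofz_im] at Ws Wq Wqs Wc
      simp only [hbox] at x0 x1 t0 t1
      simp only [fcl, fcp]
      exact RC.cls2 ⟨by norm_num, by norm_num, by linarith only [x0], by linarith only [x1], by linarith only [x1, Ws], by linarith only [Ws],
        by linarith only [s0]⟩ (by norm_num) (by norm_num) x0 x1 (by linarith only [Ws]) (by linarith only [Wc]) (by linarith only [hpos, rr, t1])
        (by linarith only [hpos, t0, Wq]) hpos.le (by linarith only [hpos, rr, t1]) (by linarith only [Wq]) (by linarith only [Wqs])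
    · have W := hG.twoE5 v hv A (hE rfl) hC
      have Ws := W.s
      have Wq := W.q
      have Wqs := W.qs
      have Wc := W.c
      have Wk := W.kap
      simp only [ofr_re, ofr_im, ofz_re, ofz_im] at Ws Wq Wqs Wc Wk
      simp only [hbox] at x0 x1 t0 t1
      simp only [fcl, fcp]
      have hk := kap2e (s := -ofs (b i) (zs (.inr v)).re) x0 x1 (by linarith only [s0]) (by linarith only [Ws]) Wk
      rw [sub_neg_eq_add] at hk
      exact RC.cls2e ⟨by norm_num, by norm_num, by linarith only [x0], by linarith only [x1], by linarith only [x1, Ws], by linarith only [Ws],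
        by linarith only [s0]⟩ (by norm_num) (by norm_num) x0 x1 (by linarith only [Ws]) (by linarith only [Wc]) (by linarith only [hpos, rr, t1])
        (by linarith only [t0]) hpos.le (by linarith only [hpos, rr, t1]) (by linarith only [Wq]) (by linarith only [Wqs]) hk
    · have W := hG.three v hv A hc (Or.inl hC)
      have Ws := W.s
      have Wq := W.q
      have Wqs := W.qs
      have Wc := W.c
      simp only [ofr_re, ofr_im, ofz_re, ofz_im] at Ws Wq Wqs Wc
      simp only [hbox] at x0 x1 t0 t1
      simp only [fcl, fcp]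
      exact RC.cls3 ⟨by norm_num, by norm_num, by linarith only [x0], by linarith only [x1], by linarith only [x1, Ws], by linarith only [Ws],
        by linarith only [s0]⟩ (by norm_num) (by norm_num) (by linarith only [x0]) (by linarith only [x1]) (by linarith only [Ws])
        (by linarith only [Wc])
        (abs_le.2 ⟨by linarith only [hpos, t0, Wq], by linarith only [hpos, rr, t1]⟩) (abs_le.2 ⟨by linarith only [hpos, Wq], by linarith only [hpos, rr, t1]⟩)
        (abs_le.2 ⟨by linarith only [Wq], by linarith only [hpos, rr, t1]⟩) (abs_le.2 ⟨by linarith only [Wqs], by linarith only [hpos, rr, t1, Ws]⟩)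
    · have W := hG.three v hv A hc (Or.inr (Or.inl hC))
      have Ws := W.s
      have Wq := W.q
      have Wqs := W.qs
      have Wc := W.c
      simp only [ofr_re, ofr_im, ofz_re, ofz_im] at Ws Wq Wqs Wc
      simp only [hbox] at x0 x1 t0 t1
      simp only [fcl, fcp]
      exact RC.cls3 ⟨by norm_num, by norm_num, by linarith only [x0], by linarith only [x1], by linarith only [x1, Ws], by linarith only [Ws],
        by linarith only [s0]⟩ (by norm_num) (by norm_num) (by linarith only [x0]) (by linarith only [x1]) (by linarith only [Ws])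
        (by linarith only [x1, Ws])
        (abs_le.2 ⟨by linarith only [hpos, t0, Wq], by linarith only [hpos, rr, t1]⟩) (abs_le.2 ⟨by linarith only [hpos, Wq], by linarith only [hpos, rr, t1]⟩)
        (abs_le.2 ⟨by linarith only [Wq], by linarith only [hpos, rr, t1]⟩) (abs_le.2 ⟨by linarith only [Wqs], by linarith only [hpos, rr, t1, Ws]⟩)
    · exact absurd rfl hj2

end SR

end Pool.Agent.Work.MP_b30479_gt.G2
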