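import Pool.Agent.Work.MP_b30479_gt.G2.RR7
import Pool.Agent.Work.MP_b30479_gt.G2.RR6
import Pool.Agent.Work.MP_b30479_gt.G2.RR5
import Pool.Agent.Work.MP_b30479_gt.G2.RR5a
import Pool.Agent.Work.MP_b30479_gt.G2.RR5b
import Pool.Agent.Work.MP_b30479_gt.G2.RR5c
import Pool.Agent.Work.MP_b30479_gt.G2.RR5d
import Pool.Agent.Work.MP_b30479_gt.G2.RWd

/-!
# The rows of the ramp part, at least five crossings
-/

namespace Pool.Agent.Work.MP_b30479_gt.G2

namespace SR

/-- **The rows of the ramp part, at least five crossings.** -/
theorem rows5 : Rows5 where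
  i7 n hn C e := by
    cases C
    · exact RC.I7_one hn
    · exact RC.I7_two hn
    · exact RC.I7_twoE hn
    · exact RC.I7_three hn
    · exact RC.I7_threeE hn
    · cases e
      · exact RC.I7_rr hn
      · exact RC.I7_rs hn
  e7 n hn C e := by
    cases C
    · exact RC.E7_one hn
    · exact RC.E7_two hn
    · exact RC.E7_twoE hn
    · exact RC.E7_three hn
    · exact RC.E7_threeE hn
    · cases e
      · exact RC.E7_rr hn
      · exact RC.E7_rs hn
  i6 C e := by
    cases C
    · exact RC.I6_one
    · exact RC.I6_two
    · exact RC.I6_twoE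
    · exact RC.I6_three
    · exact RC.I6_threeE
    · cases e
      · exact RC.I6_rr
      · exact RC.I6_rs
  e6 C e := by
    cases C
    · exact RC.E6_one
    · exact RC.E6_two
    · exact RC.E6_twoE
    · exact RC.E6_three
    · exact RC.E6_threeE
    · cases e
      · exact RC.E6_rr
      · exact RC.E6_rs
  i5o := RC.I5_one
  i5 C e hC := by
    cases C
    · exact absurd rfl hC
    · exact RC.I5_two
    · exact RC.I5_twoE
    · exact RC.I5_three
    · exact RC.I5_threeE
    · cases e
      · exact RC.I5_rr
      · exact RC.I5_rs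
  e5o := RC.E5_one
  e5 C e hC := by
    cases C
    · exact absurd rfl hC
    · exact RC.E5_two
    · exact RC.E5_twoE
    · exact RC.E5_three
    · exact RC.E5_threeE
    · cases e
      · exact RC.E5_rr
      · exact RC.E5_rs

end SR

end Pool.Agent.Work.MP_b30479_gt.G2
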