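import Pool.Agent.Work.MP_b30479_gt.G2.RngB

/-!
# Right ramp of a hinge `1 | ring`, the side of the ring: definitions

Own frame of the ring: `w = x - i m (65/100 - x)`, `m = T / (29/100)`, `T > 0`, `ζ = σ + i η`:
flat part `-1/4 ≤ σ ≤ 0`, `η = ρ`;  ramp `σ = -1/2 + s`, `η = 4 ρ s`, `s ≤ 1/4`.
-/

namespace Pool.Agent.Work.MP_b30479_gt.G2

open VOL

namespace RZ1

/-- `w` on the right ramp of `1 | ring`, slope `m` -/
structure W (x m : ℝ) (w : ℂ) : Prop where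
  re : w.re = x
  im : w.im = -(m * (65 / 100 - x))
  hi : x ≤ 65 / 100

/-- `ζ` on the flat part -/
structure ZF (ρ : ℝ) (ζ : ℂ) : Prop where
  lo : -(1 / 4) ≤ ζ.re
  hi : ζ.re ≤ 0
  im : ζ.im = ρ
  pos : 0 < ρ

/-- `ζ` on the ramp -/
structure ZR (s ρ : ℝ) (ζ : ℂ) : Prop where
  re : ζ.re = -(1 / 2) + s
  im : ζ.im = 4 * ρ * s
  pos : 0 < ρ
  lo : 0 < s
  hi : s ≤ 1 / 4

/-- first order condition on the ramp, all hinges of the ring `≤ 1/2` -/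
def FM (b s ρ : ℝ) (w ζ : ℂ) : Prop :=
  Dm (4 * ρ) w ζ ≤ 4 * Real.pi * ρ * (2 - b * (1 - 4 * s))

end RZ1

end Pool.Agent.Work.MP_b30479_gt.G2
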