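import Pool.Agent.Work.MP_b30479_gt.G2.RZC1
import Pool.Agent.Work.MP_b30479_gt.G2.RZC2
import Pool.Agent.Work.MP_b30479_gt.G2.RZ0

/-!
# Right ramp of a hinge `1 | ring`, the side of the ring: the rows
-/

namespace Pool.Agent.Work.MP_b30479_gt.G2

open VOL NumI

namespace RZ1

open LR

variable {x m T s ρ b : ℝ} {w ζ : ℂ}

lemma mT_eq (T : ℝ) : T / (29 / 100) = mT T := by
  unfold mT
  ring

theorem w_eq (hw : W x (mT T) w) : w = ⟨x, -(kT T x)⟩ := by
  apply Complex.ext
  · exact hw.re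
  · exact hw.im

theorem kT_nonneg (hT : 0 ≤ T) (hx : x ≤ 65 / 100) : 0 ≤ kT T x := by
  unfold kT mT
  have : 0 ≤ 65 / 100 - x := by linarith only [hx]
  positivity

theorem ur_eq (hw : W x (mT T) w) (hz : ZR s ρ ζ) :
    w + 1 / 2 + ζ = ⟨x + s, 4 * ρ * s - kT T x⟩ := by
  rw [w_eq hw]
  apply Complex.ext
  · have h : ((1 : ℂ) / 2).re = 1 / 2 := by norm_num
    simp only [Complex.add_re, h, hz.re]
    ring
  · have h : ((1 : ℂ) / 2).im = 0 := by norm_num
    simp only [Complex.add_im, h, hz.im]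
    ring

theorem vr_eq (hw : W x (mT T) w) (hz : ZR s ρ ζ) :
    w + 1 / 2 - ζ = ⟨1 + (x - s), -(4 * ρ * s + kT T x)⟩ := by
  rw [w_eq hw]
  apply Complex.ext
  · have h : ((1 : ℂ) / 2).re = 1 / 2 := by norm_num
    simp only [Complex.sub_re, Complex.add_re, h, hz.re]
    ring
  · have h : ((1 : ℂ) / 2).im = 0 := by norm_num
    simp only [Complex.sub_im, Complex.add_im, h, hz.im]
    ring

theorem YY_w (hw : W x (mT T) w) (h0 : 0 < x) : YY w = lnB x (kT T x) := by
  rw [w_eq hw, Num.YY_lnB (u := ⟨x, -(kT T x)⟩) ⟨h0, by simp only; linarith only [h0, hw, hw.hi]⟩, lnB_neg,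
    neg_neg]

theorem LL_w (hw : W x (mT T) w) : LL w = lnA x (kT T x) := by
  rw [w_eq hw, LL_lnA', lnA_neg]

/-- domain of the ramp -/
structure DR (x T s ρ : ℝ) : Prop where
  x0 : 36 / 100 ≤ x
  x1 : x ≤ 65 / 100
  t0 : 0 ≤ T
  s0 : 0 < s
  s1 : s ≤ 1 / 4
  r0 : 0 < ρ

theorem S4_ramp (hw : W x (mT T) w) (hz : ZR s ρ ζ) (hD : DR x T s ρ) :
    S4 (mT T) w ζ = Sr x (mT T) (kT T x) s ρ := by
  have h1 := hD.x0
  have h2 := hD.x1
  have h3 := hD.s0
  have h4 := hD.s1
  have h5 := hD.r0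
  have hk := kT_nonneg hD.t0 hD.x1
  have ht : 0 < 4 * ρ * s + kT T x := by positivity
  unfold S4 Sr
  rw [LL_w hw, YY_w hw (by linarith only [h1, h3, h4]), ur_eq hw hz, vr_eq hw hz, LL_lnA' ⟨x + s, _⟩,
    Num.YY_lnB (u := ⟨x + s, 4 * ρ * s - kT T x⟩) ⟨by simp only; linarith only [h1, h3, h4], by simp only; linarith only [h2, h3, h4]⟩,
    LL_near', YY_right (by linarith only [h1, h3, h4]) (by linarith only [h2, h3, h4]) ht]
  ring

theorem Dm_ramp (hw : W x (mT T) w) (hz : ZR s ρ ζ) (hD : DR x T s ρ) (b : ℝ) :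
    Dm (4 * ρ) w ζ - 4 * Real.pi * ρ * (2 - b * (1 - 4 * s)) =
      Fr (b - 1) (4 * b) x (kT T x) s ρ := by
  have h1 := hD.x0
  have h2 := hD.x1
  have h3 := hD.s0
  have h4 := hD.s1
  have h5 := hD.r0
  have hk := kT_nonneg hD.t0 hD.x1
  have ht : 0 < 4 * ρ * s + kT T x := by positivity
  unfold Dm Dq Fr
  rw [ur_eq hw hz, vr_eq hw hz, LL_lnA' ⟨x + s, _⟩,
    Num.YY_lnB (u := ⟨x + s, 4 * ρ * s - kT T x⟩) ⟨by simp only; linarith only [h1, h3, h4], by simp only; linarith only [h2, h3, h4]⟩,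
    LL_near', YY_right (by linarith only [h1, h3, h4]) (by linarith only [h2, h3, h4]) ht]
  ring

theorem sinh_le {y : ℝ} (h0 : 0 ≤ y) (h1 : y ≤ 657 / 1000) : Real.sinh y ≤ 108 / 100 * y := by
  have a1 := Real.exp_bound' (x := y) h0 (by linarith only [h1]) (n := 6) (by norm_num)
  have a2 : 1 - y + y ^ 2 / 2 - y ^ 3 / 6 ≤ Real.exp (-y) := by
    have h := Real.exp_bound (x := -y) (by rw [abs_neg, abs_of_nonneg h0]; linarith only [h1]) (n := 6)
      (by norm_num)
    rw [abs_neg, abs_of_nonneg h0] at h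
    norm_num [Finset.sum_range_succ, Nat.factorial] at h
    have h2 := (abs_le.mp h).1
    have y4 : 0 ≤ y ^ 4 := by positivity
    have y5 : y ^ 5 ≤ y ^ 4 * (657 / 1000) := by
      have : y ^ 5 = y ^ 4 * y := by ring
      rw [this]
      exact mul_le_mul_of_nonneg_left h1 y4
    have y6 : y ^ 6 ≤ y ^ 4 * (657 / 1000) := by
      have e : y ^ 6 = y ^ 5 * y := by ring
      have : y ^ 5 * y ≤ y ^ 5 * 1 := mul_le_mul_of_nonneg_left (by linarith only [h1]) (by positivity)
      linarith only [y5, this]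
    nlinarith only [h2, y4, y5, y6]
  norm_num [Finset.sum_range_succ, Nat.factorial] at a1
  rw [Real.sinh_eq]
  have y3 : y ^ 3 ≤ y * (657 / 1000) ^ 2 := by
    have e : y ^ 3 = y * y ^ 2 := by ring
    rw [e]
    exact mul_le_mul_of_nonneg_left (pow_le_pow_left₀ h0 h1 2) h0
  have y4 : y ^ 4 ≤ y * (657 / 1000) ^ 3 := by
    have e : y ^ 4 = y * y ^ 3 := by ring
    rw [e]
    exact mul_le_mul_of_nonneg_left (pow_le_pow_left₀ h0 h1 3) h0
  have y5 : y ^ 5 ≤ y * (657 / 1000) ^ 4 := by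
    have e : y ^ 5 = y * y ^ 4 := by ring
    rw [e]
    exact mul_le_mul_of_nonneg_left (pow_le_pow_left₀ h0 h1 4) h0
  have y6 : y ^ 6 ≤ y * (657 / 1000) ^ 5 := by
    have e : y ^ 6 = y * y ^ 5 := by ring
    rw [e]
    exact mul_le_mul_of_nonneg_left (pow_le_pow_left₀ h0 h1 5) h0
  norm_num at y3 y4 y5 y6
  nlinarith only [h0, a2, a1, y3, y4, y5, y6]

theorem Gr_le {b1 b4 k : ℝ} (h : Fr b1 b4 x k s ρ ≤ 0) (hx : 36 / 100 ≤ x) (hx' : x ≤ 1 / 2)
    (hs : 0 < s) (hs' : s ≤ 1 / 4) (hr : 0 < ρ) (hr' : ρ ≤ 1045 / 10000) (hk : 0 ≤ k) :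
    Gr b1 b4 x k s ρ ≤ 0 := by
  have hp := Real.pi_pos
  have hp4 := Real.pi_lt_d4
  set η := 4 * ρ * s with hη
  have hη0 : 0 < η := by positivity
  have hη1 : η ≤ 1045 / 10000 := by
    have : ρ * s ≤ 1045 / 10000 * (1 / 4) := mul_le_mul hr' hs' hs.le (by norm_num)
    rw [hη]
    linarith only [this]
  set a := Real.sin (Real.pi * (x + s)) ^ 2 with ha
  have hsin : 0 < Real.sin (Real.pi * (x + s)) :=
    Real.sin_pos_of_pos_of_lt_pi (by nlinarith only [hp, hx, hs]) (by nlinarith only [hx', hp, hs, hs'])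
  have ha0 : 0 < a := by positivity
  have haa : Real.sin (Real.pi * (x - s)) ^ 2 ≤ a := by
    have e : a - Real.sin (Real.pi * (x - s)) ^ 2 =
        Real.sin (Real.pi * (2 * x)) * Real.sin (Real.pi * (2 * s)) := by
      have e1 : Real.pi * (x + s) = Real.pi * x + Real.pi * s := by ring
      have e2 : Real.pi * (x - s) = Real.pi * x - Real.pi * s := by ring
      have e3 : Real.pi * (2 * x) = 2 * (Real.pi * x) := by ring
      have e4 : Real.pi * (2 * s) = 2 * (Real.pi * s) := by ring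
      rw [ha, e1, e2, e3, e4, Real.sin_add, Real.sin_sub, Real.sin_two_mul, Real.sin_two_mul]
      ring
    have h1 : 0 ≤ Real.sin (Real.pi * (2 * x)) :=
      Real.sin_nonneg_of_nonneg_of_le_pi (by positivity) (by nlinarith only [hx', hp])
    have h2 : 0 ≤ Real.sin (Real.pi * (2 * s)) :=
      Real.sin_nonneg_of_nonneg_of_le_pi (by positivity) (by nlinarith only [hp, hs'])
    have := mul_nonneg h1 h2
    linarith only [e, this]
  set B2 := Real.sinh (Real.pi * (η + k)) ^ 2 with hB2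
  set B1 := Real.sinh (Real.pi * (η - k)) ^ 2 with hB1
  have hB1n : 0 ≤ B1 := by positivity
  have hB2n : 0 ≤ B2 := by positivity
  have hBB : B2 - B1 = Real.sinh (2 * (Real.pi * η)) * Real.sinh (2 * (Real.pi * k)) := by
    have e1 : Real.pi * (η + k) = Real.pi * η + Real.pi * k := by ring
    have e2 : Real.pi * (η - k) = Real.pi * η - Real.pi * k := by ring
    rw [hB2, hB1, e1, e2, Real.sinh_add, Real.sinh_sub, Real.sinh_two_mul, Real.sinh_two_mul]
    ring
  have hsk : 0 ≤ Real.sinh (2 * (Real.pi * k)) := Real.sinh_nonneg_iff.mpr (by positivity)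
  have hsη := sinh_le (y := 2 * (Real.pi * η)) (by positivity) (by nlinarith only [hs', hp4, hs, hr', hr, hη0, hp, hη1])
  have l1 : lnA (x - s) (η + k) ≤ Real.log (4 * (a + B2)) / 2 := by
    unfold lnA
    have hs2 : 0 < Real.sinh (Real.pi * (η + k)) := Real.sinh_pos_iff.mpr (by positivity)
    have h1 : 0 < 4 * (Real.sin (Real.pi * (x - s)) ^ 2 + Real.sinh (Real.pi * (η + k)) ^ 2) := by
      have := sq_nonneg (Real.sin (Real.pi * (x - s)))
      positivity
    have := Real.log_le_log h1 (show _ ≤ 4 * (a + B2) by linarith only [haa])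
    linarith only [this]
  have l2 : lnA (x + s) (η - k) = Real.log (4 * (a + B1)) / 2 := by
    unfold lnA
    rfl
  have l3 : Real.log (4 * (a + B2)) - Real.log (4 * (a + B1)) ≤ (B2 - B1) / a := by
    have h1 := Real.log_div (x := 4 * (a + B2)) (y := 4 * (a + B1)) (by positivity) (by positivity)
    have h2 := Real.log_le_sub_one_of_pos (x := 4 * (a + B2) / (4 * (a + B1))) (by positivity)
    have h3 : 4 * (a + B2) / (4 * (a + B1)) - 1 = (B2 - B1) / (a + B1) := by
      field_simp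
      ring
    have h4 : (B2 - B1) / (a + B1) ≤ (B2 - B1) / a := by
      apply div_le_div_of_nonneg_left _ ha0 (by linarith only [hB1n])
      rw [hBB]
      exact mul_nonneg (Real.sinh_nonneg_iff.mpr (by positivity)) hsk
    rw [← h1]
    linarith only [h2, h3, h4]
  have l4 : (B2 - B1) / a ≤ 108 / 100 * (2 * (Real.pi * η)) * Real.sinh (2 * (Real.pi * k)) * a⁻¹ := by
    rw [hBB, div_eq_mul_inv]
    apply mul_le_mul_of_nonneg_right _ (by positivity)
    exact mul_le_mul_of_nonneg_right hsη hsk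
  have key : 4 * ρ * Gr b1 b4 x k s ρ ≤ Fr b1 b4 x k s ρ := by
    unfold Gr Fr
    rw [← hη, ← ha]
    have e : 4 * ρ * (Real.pi * (b1 - b4 * s) - (lnB (x + s) (η - k) + lnB (x - s) (η + k)) -
        108 / 100 * (Real.pi * s * (Real.sinh (2 * (Real.pi * k)) * a⁻¹))) =
        4 * ρ * (Real.pi * (b1 - b4 * s) - (lnB (x + s) (η - k) + lnB (x - s) (η + k))) -
        108 / 100 * (2 * (Real.pi * η)) * Real.sinh (2 * (Real.pi * k)) * a⁻¹ / 2 := by
      rw [hη]
      ring
    rw [e]
    linarith only [l1, l2, l3, l4]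
  by_contra hc
  rw [not_le] at hc
  have := mul_pos (show 0 < 4 * ρ by positivity) hc
  linarith only [h, key, this]

/-! ### flat part -/

theorem uf_eq (hw : W x (mT T) w) (hz : ZF ρ ζ) :
    w + 1 / 2 + ζ = uC x (-ζ.re) ρ (kT T x) := by
  rw [w_eq hw]
  apply Complex.ext
  · have h : ((1 : ℂ) / 2).re = 1 / 2 := by norm_num
    simp only [Complex.add_re, h, uC]
    ring
  · have h : ((1 : ℂ) / 2).im = 0 := by norm_num
    simp only [Complex.add_im, h, uC, hz.im]
    ring

theorem vf_eq (hw : W x (mT T) w) (hz : ZF ρ ζ) :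
    w + 1 / 2 - ζ = vC' x (-ζ.re) ρ (kT T x) := by
  rw [w_eq hw]
  apply Complex.ext
  · have h : ((1 : ℂ) / 2).re = 1 / 2 := by norm_num
    simp only [Complex.sub_re, Complex.add_re, h, vC']
    ring
  · have h : ((1 : ℂ) / 2).im = 0 := by norm_num
    simp only [Complex.sub_im, Complex.add_im, h, vC', hz.im]
    ring

theorem S4_flat (hw : W x (mT T) w) (hz : ZF ρ ζ) (h0 : 0 < x) :
    S4 (mT T) w ζ = Sf x (mT T) (kT T x) (-ζ.re) ρ := by
  unfold S4 Sf
  rw [LL_w hw, YY_w hw h0, uf_eq hw hz, vf_eq hw hz]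

theorem dF (hw : W x (mT T) w) (hz : ZF ρ ζ) (h0 : 36 / 100 ≤ x) (hT : 0 ≤ T) :
    DF x T (-ζ.re) ρ :=
  ⟨by linarith only [h0], hw.hi, hT, by linarith only [hz, hz.hi], by linarith only [hz, hz.lo], hz.pos⟩

/-- box of the ramp, region II -/
theorem boxR {b : ℕ} (hb1 : 1 ≤ b) {side : Bool} {B : F → F} {β : ℝ → ℝ} (hB : EvB B β)
    {l0 h0 l1 h1 l2 h2 h3 c : ℕ}
    (h : okB 10000 (tR (b - 1) (4 * b) side B) 0 0 0 0 40 l0 h0 l1 h1 l2 h2 0 h3 c = true)
    (hw : W x (mT T) w) (hz : ZR s ρ ζ) (hD : DR x T s ρ) (hx : x ≤ 1 / 2)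
    (hρ : ρ ≤ 1045 / 10000) (hside : side = true → ρ + T ≤ 163 / 1000) (hF : FM b s ρ w ζ)
    (c0 : (l0 : ℝ) / 10000 ≤ x) (c0' : x ≤ (h0 : ℝ) / 10000)
    (c1 : (l1 : ℝ) / 10000 ≤ T) (c1' : T ≤ (h1 : ℝ) / 10000)
    (c2 : (l2 : ℝ) / 10000 ≤ s) (c2' : s ≤ (h2 : ℝ) / 10000) (c3' : ρ ≤ (h3 : ℝ) / 10000) :
    S4 (mT T) w ζ ≤ -β T := by
  have c3 : ((0 : ℕ) : ℝ) / 10000 ≤ ρ := by
    rw [Nat.cast_zero, zero_div]
    exact hz.pos.le
  have e1 : (((b - 1 : ℕ)) : ℝ) = (b : ℝ) - 1 := by
    rw [Nat.cast_sub hb1, Nat.cast_one]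
  have e2 : (((4 * b : ℕ)) : ℝ) = 4 * (b : ℝ) := by push_cast; ring
  have hF1 : Fr ((b - 1 : ℕ) : ℝ) ((4 * b : ℕ) : ℝ) x (kT T x) s ρ ≤ 0 := by
    rw [e1, e2, ← Dm_ramp hw hz hD]
    unfold FM at hF
    linarith only [hF]
  have hG := Gr_le hF1 hD.x0 hx hD.s0 hD.s1 hD.r0 hρ (kT_nonneg hD.t0 hD.x1)
  have := okB_sound0 (tR_ok hB) h c0 c0' c1 c1' c2 c2' c3 c3' hside hF1 hG
  rw [← S4_ramp hw hz hD] at this
  exact this.le

/-- box of the ramp, region III -/
theorem boxR3 {l0 h0 l1 h1 h3 q c : ℕ}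
    (h : okB 10000 (tR3 q) 0 0 0 0 40 l0 h0 l1 h1 0 2500 0 h3 c = true)
    (hw : W x (mT T) w) (hz : ZR s ρ ζ) (hD : DR x T s ρ)
    (c0 : (l0 : ℝ) / 10000 ≤ x) (c0' : x ≤ (h0 : ℝ) / 10000)
    (c1 : (l1 : ℝ) / 10000 ≤ T) (c1' : T ≤ (h1 : ℝ) / 10000) (c3' : ρ ≤ (h3 : ℝ) / 10000) :
    S4 (mT T) w ζ ≤ -min (Real.pi * mT T - 3 / 100) ((q : ℝ) / 100) := by
  have c3 : ((0 : ℕ) : ℝ) / 10000 ≤ ρ := by
    rw [Nat.cast_zero, zero_div]
    exact hz.pos.le
  have c2 : ((0 : ℕ) : ℝ) / 10000 ≤ s := by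
    rw [Nat.cast_zero, zero_div]
    exact hz.lo.le
  have c2' : s ≤ ((2500 : ℕ) : ℝ) / 10000 := by
    push_cast
    linarith only [hz, hz.hi]
  rw [S4_ramp hw hz hD]
  rcases okB_sound0 tR3_ok h c0 c0' c1 c1' c2 c2' c3 c3' with h4 | h4
  · exact h4.le.trans (neg_le_neg (min_le_left _ _))
  · exact h4.le.trans (neg_le_neg (min_le_right _ _))

/-- box of the flat part, region II -/
theorem boxF {side : Bool} {B : F → F} {β : ℝ → ℝ} (hB : EvB B β) {l0 h0 l1 h1 h3 c : ℕ}
    (h : okB 10000 (tF side B) 0 0 0 0 40 l0 h0 l1 h1 0 2500 0 h3 c = true)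
    (hw : W x (mT T) w) (hz : ZF ρ ζ) (hx0 : 36 / 100 ≤ x) (hT : 0 ≤ T)
    (hside : side = true → ρ + T ≤ 163 / 1000)
    (c0 : (l0 : ℝ) / 10000 ≤ x) (c0' : x ≤ (h0 : ℝ) / 10000)
    (c1 : (l1 : ℝ) / 10000 ≤ T) (c1' : T ≤ (h1 : ℝ) / 10000) (c3' : ρ ≤ (h3 : ℝ) / 10000) :
    S4 (mT T) w ζ ≤ -β T := by
  have c3 : ((0 : ℕ) : ℝ) / 10000 ≤ ρ := by
    rw [Nat.cast_zero, zero_div]
    exact hz.pos.le
  have c2 : ((0 : ℕ) : ℝ) / 10000 ≤ -ζ.re := by
    rw [Nat.cast_zero, zero_div]
    linarith only [hz, hz.hi]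
  have c2' : -ζ.re ≤ ((2500 : ℕ) : ℝ) / 10000 := by
    push_cast
    linarith only [hz, hz.lo]
  rw [S4_flat hw hz (by linarith only [hx0])]
  exact (okB_sound0 (tF_ok hB) h c0 c0' c1 c1' c2 c2' c3 c3' hside (dF hw hz hx0 hT)).le

/-- box of the flat part, region III -/
theorem boxF3 {l0 h0 l1 h1 h3 q c : ℕ}
    (h : okB 10000 (tF3 q) 0 0 0 0 40 l0 h0 l1 h1 0 2500 0 h3 c = true)
    (hw : W x (mT T) w) (hz : ZF ρ ζ) (hx0 : 36 / 100 ≤ x) (hT : 0 ≤ T)
    (c0 : (l0 : ℝ) / 10000 ≤ x) (c0' : x ≤ (h0 : ℝ) / 10000)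
    (c1 : (l1 : ℝ) / 10000 ≤ T) (c1' : T ≤ (h1 : ℝ) / 10000) (c3' : ρ ≤ (h3 : ℝ) / 10000) :
    S4 (mT T) w ζ ≤ -min (Real.pi * mT T - 3 / 100) ((q : ℝ) / 100) := by
  have c3 : ((0 : ℕ) : ℝ) / 10000 ≤ ρ := by
    rw [Nat.cast_zero, zero_div]
    exact hz.pos.le
  have c2 : ((0 : ℕ) : ℝ) / 10000 ≤ -ζ.re := by
    rw [Nat.cast_zero, zero_div]
    linarith only [hz, hz.hi]
  have c2' : -ζ.re ≤ ((2500 : ℕ) : ℝ) / 10000 := by
    push_cast
    linarith only [hz, hz.lo]
  rw [S4_flat hw hz (by linarith only [hx0])]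
  rcases okB_sound0 tF3_ok h c0 c0' c1 c1' c2 c2' c3 c3' (dF hw hz hx0 hT) with h4 | h4
  · exact h4.le.trans (neg_le_neg (min_le_left _ _))
  · exact h4.le.trans (neg_le_neg (min_le_right _ _))

/-! ### Region II -/

/-- `b = 4`, any `ρ` -/
theorem a_flat (hw : W x (T / (29 / 100)) w) (hz : ZF ρ ζ) (h1 : 36 / 100 ≤ x) (h2 : x ≤ 1 / 2)
    (h3 : 38 / 1000 ≤ T) (h4 : T ≤ 128 / 1000) (h5 : ρ ≤ 1045 / 10000) :
    S4 (T / (29 / 100)) w ζ ≤ -(36 / 100 + 7 * T) := by
  rw [mT_eq] at hw ⊢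
  have hT : 0 ≤ T := by linarith only [h3]
  have hs : false = true → ρ + T ≤ 163 / 1000 := fun h => absurd h Bool.false_ne_true
  rcases le_total x (45 / 100) with h8 | h8
  · have h9 := boxF (ev_bT (n := 36) (n' := 7) (d' := 1) (by norm_num)) qaF_1 hw hz h1 hT hs
      (by push_cast; linarith only [h1]) (by push_cast; linarith only [h8]) (by push_cast; linarith only [h3])
      (by push_cast; linarith only [h4]) (by push_cast; linarith only [h5])
    push_cast at h9
    linarith only [h9]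
  · have h9 := boxF (ev_bT (n := 36) (n' := 7) (d' := 1) (by norm_num)) qaF_2 hw hz h1 hT hs
      (by push_cast; linarith only [h8]) (by push_cast; linarith only [h2]) (by push_cast; linarith only [h3])
      (by push_cast; linarith only [h4]) (by push_cast; linarith only [h5])
    push_cast at h9
    linarith only [h9]

theorem a_ramp (hw : W x (T / (29 / 100)) w) (hz : ZR s ρ ζ) (h1 : 36 / 100 ≤ x) (h2 : x ≤ 1 / 2)
    (h3 : 38 / 1000 ≤ T) (h4 : T ≤ 128 / 1000) (h5 : ρ ≤ 1045 / 10000) (h6 : 1 / 8 ≤ s)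
    (h7 : FM 4 s ρ w ζ) :
    S4 (T / (29 / 100)) w ζ ≤ -(36 / 100 + 7 * T) := by
  rw [mT_eq] at hw ⊢
  have hT : 0 ≤ T := by linarith only [h3]
  have hD : DR x T s ρ := ⟨h1, hw.hi, hT, hz.lo, hz.hi, hz.pos⟩
  have hz4 := hz.hi
  have hr : ρ ≤ 1045 / 10000 := by linarith only [h5]
  have hs : false = true → ρ + T ≤ 163 / 1000 := fun h => absurd h Bool.false_ne_true
  have hF : FM ((4 : ℕ) : ℝ) s ρ w ζ := by
    push_cast
    exact h7
  rcases le_total x (43 / 100) with h8 | h8
  · rcases le_total T (83 / 1000) with h8 | h8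
    · have h9 := boxR (b := 4) (by norm_num) (ev_bT (n := 36) (n' := 7) (d' := 1) (by norm_num)) qaR_1 hw hz hD h2 hr hs hF
        (by push_cast; linarith only [h1]) (by push_cast; linarith) (by push_cast; linarith only [h3])
        (by push_cast; linarith only [h8]) (by push_cast; linarith only [h6]) (by push_cast; linarith only [hz4])
        (by push_cast; linarith only [h5])
      push_cast at h9
      linarith only [h9]
    · have h9 := boxR (b := 4) (by norm_num) (ev_bT (n := 36) (n' := 7) (d' := 1) (by norm_num)) qaR_3 hw hz hD h2 hr hs hF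
        (by push_cast; linarith only [h1]) (by push_cast; linarith) (by push_cast; linarith only [h8])
        (by push_cast; linarith only [h4]) (by push_cast; linarith only [h6]) (by push_cast; linarith only [hz4])
        (by push_cast; linarith only [h5])
      push_cast at h9
      linarith only [h9]
  · rcases le_total T (83 / 1000) with h8 | h8
    · have h9 := boxR (b := 4) (by norm_num) (ev_bT (n := 36) (n' := 7) (d' := 1) (by norm_num)) qaR_2 hw hz hD h2 hr hs hF
        (by push_cast; linarith) (by push_cast; linarith only [h2]) (by push_cast; linarith only [h3])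
        (by push_cast; linarith only [h8]) (by push_cast; linarith only [h6]) (by push_cast; linarith only [hz4])
        (by push_cast; linarith only [h5])
      push_cast at h9
      linarith only [h9]
    · have h9 := boxR (b := 4) (by norm_num) (ev_bT (n := 36) (n' := 7) (d' := 1) (by norm_num)) qaR_4 hw hz hD h2 hr hs hF
        (by push_cast; linarith) (by push_cast; linarith only [h2]) (by push_cast; linarith only [h8])
        (by push_cast; linarith only [h4]) (by push_cast; linarith only [h6]) (by push_cast; linarith only [hz4])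
        (by push_cast; linarith only [h5])
      push_cast at h9
      linarith only [h9]

/-- `b = 4`, `ρ + T ≤ .163` -/
theorem b_flat (hw : W x (T / (29 / 100)) w) (hz : ZF ρ ζ) (h1 : 36 / 100 ≤ x) (h2 : x ≤ 1 / 2)
    (h3 : 58 / 1000 ≤ T) (h4 : T ≤ 128 / 1000) (h5 : ρ ≤ 1045 / 10000) (h6 : ρ + T ≤ 163 / 1000) :
    S4 (T / (29 / 100)) w ζ ≤ -(12 / 100 + 112 / 10 * T) := by
  rw [mT_eq] at hw ⊢
  have hT : 0 ≤ T := by linarith only [h3]
  have hs : true = true → ρ + T ≤ 163 / 1000 := fun _ => h6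
  rcases le_total x (45 / 100) with h8 | h8
  · have h9 := boxF (ev_bT (n := 12) (n' := 112) (d' := 10) (by norm_num)) qbF_1 hw hz h1 hT hs
      (by push_cast; linarith only [h1]) (by push_cast; linarith only [h8]) (by push_cast; linarith only [h3])
      (by push_cast; linarith only [h4]) (by push_cast; linarith only [h5])
    push_cast at h9
    linarith only [h9]
  · have h9 := boxF (ev_bT (n := 12) (n' := 112) (d' := 10) (by norm_num)) qbF_2 hw hz h1 hT hs
      (by push_cast; linarith only [h8]) (by push_cast; linarith only [h2]) (by push_cast; linarith only [h3])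
      (by push_cast; linarith only [h4]) (by push_cast; linarith only [h5])
    push_cast at h9
    linarith only [h9]

theorem b_ramp (hw : W x (T / (29 / 100)) w) (hz : ZR s ρ ζ) (h1 : 36 / 100 ≤ x) (h2 : x ≤ 1 / 2)
    (h3 : 58 / 1000 ≤ T) (h4 : T ≤ 128 / 1000) (h5 : ρ ≤ 1045 / 10000) (h6 : ρ + T ≤ 163 / 1000)
    (h7 : 1 / 8 ≤ s) (h8 : FM 4 s ρ w ζ) :
    S4 (T / (29 / 100)) w ζ ≤ -(12 / 100 + 112 / 10 * T) := by
  rw [mT_eq] at hw ⊢
  have hT : 0 ≤ T := by linarith only [h3]
  have hD : DR x T s ρ := ⟨h1, hw.hi, hT, hz.lo, hz.hi, hz.pos⟩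
  have hz4 := hz.hi
  have hr : ρ ≤ 1045 / 10000 := by linarith only [h5]
  have hs : true = true → ρ + T ≤ 163 / 1000 := fun _ => h6
  have hF : FM ((4 : ℕ) : ℝ) s ρ w ζ := by
    push_cast
    exact h8
  rcases le_total x (43 / 100) with h8 | h8
  · have h9 := boxR (b := 4) (by norm_num) (ev_bT (n := 12) (n' := 112) (d' := 10) (by norm_num)) qbR_1 hw hz hD h2 hr hs hF
      (by push_cast; linarith only [h1]) (by push_cast; linarith only [h8]) (by push_cast; linarith only [h3])
      (by push_cast; linarith only [h4]) (by push_cast; linarith only [h7]) (by push_cast; linarith only [hz4])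
      (by push_cast; linarith only [h5])
    push_cast at h9
    linarith only [h9]
  · have h9 := boxR (b := 4) (by norm_num) (ev_bT (n := 12) (n' := 112) (d' := 10) (by norm_num)) qbR_2 hw hz hD h2 hr hs hF
      (by push_cast; linarith only [h8]) (by push_cast; linarith only [h2]) (by push_cast; linarith only [h3])
      (by push_cast; linarith only [h4]) (by push_cast; linarith only [h7]) (by push_cast; linarith only [hz4])
      (by push_cast; linarith only [h5])
    push_cast at h9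
    linarith only [h9]

/-- `b ≥ 5` -/
theorem c_flat (hw : W x (T / (29 / 100)) w) (hz : ZF ρ ζ) (h1 : 36 / 100 ≤ x) (h2 : x ≤ 1 / 2)
    (h3 : 38 / 1000 ≤ T) (h4 : T ≤ 158 / 1000) (h5 : ρ ≤ 725 / 10000) :
    S4 (T / (29 / 100)) w ζ ≤ -(42 / 100 + 77 / 10 * T) := by
  rw [mT_eq] at hw ⊢
  have hT : 0 ≤ T := by linarith only [h3]
  have hs : false = true → ρ + T ≤ 163 / 1000 := fun h => absurd h Bool.false_ne_true
  rcases le_total x (45 / 100) with h8 | h8
  · have h9 := boxF (ev_bT (n := 42) (n' := 77) (d' := 10) (by norm_num)) qcF_1 hw hz h1 hT hs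
      (by push_cast; linarith only [h1]) (by push_cast; linarith only [h8]) (by push_cast; linarith only [h3])
      (by push_cast; linarith only [h4]) (by push_cast; linarith only [h5])
    push_cast at h9
    linarith only [h9]
  · have h9 := boxF (ev_bT (n := 42) (n' := 77) (d' := 10) (by norm_num)) qcF_2 hw hz h1 hT hs
      (by push_cast; linarith only [h8]) (by push_cast; linarith only [h2]) (by push_cast; linarith only [h3])
      (by push_cast; linarith only [h4]) (by push_cast; linarith only [h5])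
    push_cast at h9
    linarith only [h9]

theorem c_ramp (hb : 5 ≤ b) (hw : W x (T / (29 / 100)) w) (hz : ZR s ρ ζ) (h1 : 36 / 100 ≤ x)
    (h2 : x ≤ 1 / 2) (h3 : 38 / 1000 ≤ T) (h4 : T ≤ 158 / 1000) (h5 : ρ ≤ 725 / 10000)
    (h6 : 3 / 20 ≤ s) (h7 : FM b s ρ w ζ) :
    S4 (T / (29 / 100)) w ζ ≤ -(42 / 100 + 77 / 10 * T) := by
  rw [mT_eq] at hw ⊢
  have hT : 0 ≤ T := by linarith only [h3]
  have hD : DR x T s ρ := ⟨h1, hw.hi, hT, hz.lo, hz.hi, hz.pos⟩
  have hz4 := hz.hi
  have hr : ρ ≤ 1045 / 10000 := by linarith only [h5]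
  have hs : false = true → ρ + T ≤ 163 / 1000 := fun h => absurd h Bool.false_ne_true
  have hF : FM ((5 : ℕ) : ℝ) s ρ w ζ := by
    unfold FM at h7 ⊢
    push_cast
    have h10 := hz.pos
    have h11 : 0 ≤ 4 * Real.pi * ρ * ((b - 5) * (1 - 4 * s)) :=
      mul_nonneg (by positivity) (mul_nonneg (by linarith only [hb]) (by linarith only [hz4]))
    linarith only [h7, h11]
  rcases le_total x (43 / 100) with h8 | h8
  · rcases le_total T (83 / 1000) with h8 | h8
    · have h9 := boxR (b := 5) (by norm_num) (ev_bT (n := 42) (n' := 77) (d' := 10) (by norm_num)) qcR_1 hw hz hD h2 hr hs hF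
        (by push_cast; linarith only [h1]) (by push_cast; linarith) (by push_cast; linarith only [h3])
        (by push_cast; linarith only [h8]) (by push_cast; linarith only [h6]) (by push_cast; linarith only [hz4])
        (by push_cast; linarith only [h5])
      push_cast at h9
      linarith only [h9]
    · have h9 := boxR (b := 5) (by norm_num) (ev_bT (n := 42) (n' := 77) (d' := 10) (by norm_num)) qcR_3 hw hz hD h2 hr hs hF
        (by push_cast; linarith only [h1]) (by push_cast; linarith) (by push_cast; linarith only [h8])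
        (by push_cast; linarith only [h4]) (by push_cast; linarith only [h6]) (by push_cast; linarith only [hz4])
        (by push_cast; linarith only [h5])
      push_cast at h9
      linarith only [h9]
  · rcases le_total T (83 / 1000) with h8 | h8
    · have h9 := boxR (b := 5) (by norm_num) (ev_bT (n := 42) (n' := 77) (d' := 10) (by norm_num)) qcR_2 hw hz hD h2 hr hs hF
        (by push_cast; linarith) (by push_cast; linarith only [h2]) (by push_cast; linarith only [h3])
        (by push_cast; linarith only [h8]) (by push_cast; linarith only [h6]) (by push_cast; linarith only [hz4])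
        (by push_cast; linarith only [h5])
      push_cast at h9
      linarith only [h9]
    · have h9 := boxR (b := 5) (by norm_num) (ev_bT (n := 42) (n' := 77) (d' := 10) (by norm_num)) qcR_4 hw hz hD h2 hr hs hF
        (by push_cast; linarith) (by push_cast; linarith only [h2]) (by push_cast; linarith only [h8])
        (by push_cast; linarith only [h4]) (by push_cast; linarith only [h6]) (by push_cast; linarith only [hz4])
        (by push_cast; linarith only [h5])
      push_cast at h9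
      linarith only [h9]

/-! ### Region III -/

/-- all `b` -/
theorem d_flat (hw : W x (T / (29 / 100)) w) (hz : ZF ρ ζ) (h1 : 1 / 2 ≤ x) (h2 : x ≤ 60 / 100)
    (h3 : 38 / 1000 ≤ T) (h4 : T ≤ 158 / 1000) (h5 : ρ ≤ 1045 / 10000) :
    S4 (T / (29 / 100)) w ζ ≤ -min (Real.pi * (T / (29 / 100)) - 3 / 100) (129 / 100) := by
  rw [mT_eq] at hw ⊢
  rcases le_total x (55 / 100) with h8 | h8
  · have h9 := boxF3 qdF_1 hw hz (by linarith only [h1]) (by linarith only [h3])
      (by push_cast; linarith only [h1]) (by push_cast; linarith only [h8]) (by push_cast; linarith only [h3])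
      (by push_cast; linarith only [h4]) (by push_cast; linarith only [h5])
    push_cast at h9
    exact h9
  · have h9 := boxF3 qdF_2 hw hz (by linarith only [h8]) (by linarith only [h3])
      (by push_cast; linarith only [h8]) (by push_cast; linarith only [h2]) (by push_cast; linarith only [h3])
      (by push_cast; linarith only [h4]) (by push_cast; linarith only [h5])
    push_cast at h9
    exact h9

theorem d_ramp (hw : W x (T / (29 / 100)) w) (hz : ZR s ρ ζ) (h1 : 1 / 2 ≤ x) (h2 : x ≤ 60 / 100)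
    (h3 : 38 / 1000 ≤ T) (h4 : T ≤ 158 / 1000) (h5 : ρ ≤ 1045 / 10000) :
    S4 (T / (29 / 100)) w ζ ≤ -min (Real.pi * (T / (29 / 100)) - 3 / 100) (129 / 100) := by
  rw [mT_eq] at hw ⊢
  have hD : DR x T s ρ := ⟨by linarith only [h1], hw.hi, by linarith only [h3], hz.lo, hz.hi, hz.pos⟩
  rcases le_total T (8 / 100) with h8 | h8
  · have h9 := boxR3 qdR_1 hw hz hD
      (by push_cast; linarith only [h1]) (by push_cast; linarith only [h2]) (by push_cast; linarith only [h3])
      (by push_cast; linarith only [h8]) (by push_cast; linarith only [h5])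
    push_cast at h9
    exact h9
  · have h9 := boxR3 qdR_2 hw hz hD
      (by push_cast; linarith only [h1]) (by push_cast; linarith only [h2]) (by push_cast; linarith only [h8])
      (by push_cast; linarith only [h4]) (by push_cast; linarith only [h5])
    push_cast at h9
    exact h9

/-- `b = 4` -/
theorem e_flat (hw : W x (T / (29 / 100)) w) (hz : ZF ρ ζ) (h1 : 60 / 100 ≤ x)
    (h3 : 38 / 1000 ≤ T) (h4 : T ≤ 128 / 1000) (h5 : ρ ≤ 1045 / 10000) :
    S4 (T / (29 / 100)) w ζ ≤ -min (Real.pi * (T / (29 / 100)) - 3 / 100) (89 / 100) := by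
  rw [mT_eq] at hw ⊢
  have hx := hw.hi
  have h9 := boxF3 qeF_1 hw hz (by linarith only [h1]) (by linarith only [h3])
    (by push_cast; linarith only [h1]) (by push_cast; linarith only [hx]) (by push_cast; linarith only [h3])
    (by push_cast; linarith only [h4]) (by push_cast; linarith only [h5])
  push_cast at h9
  exact h9

theorem e_ramp (hw : W x (T / (29 / 100)) w) (hz : ZR s ρ ζ) (h1 : 60 / 100 ≤ x)
    (h3 : 38 / 1000 ≤ T) (h4 : T ≤ 128 / 1000) (h5 : ρ ≤ 1045 / 10000) :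
    S4 (T / (29 / 100)) w ζ ≤ -min (Real.pi * (T / (29 / 100)) - 3 / 100) (89 / 100) := by
  rw [mT_eq] at hw ⊢
  have hx := hw.hi
  have hD : DR x T s ρ := ⟨by linarith only [h1], hw.hi, by linarith only [h3], hz.lo, hz.hi, hz.pos⟩
  have h9 := boxR3 qeR_1 hw hz hD
    (by push_cast; linarith only [h1]) (by push_cast; linarith only [hx]) (by push_cast; linarith only [h3])
    (by push_cast; linarith only [h4]) (by push_cast; linarith only [h5])
  push_cast at h9
  exact h9

/-- `b ≥ 5` -/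
theorem f_flat (hw : W x (T / (29 / 100)) w) (hz : ZF ρ ζ) (h1 : 60 / 100 ≤ x)
    (h3 : 38 / 1000 ≤ T) (h4 : T ≤ 158 / 1000) (h5 : ρ ≤ 725 / 10000) :
    S4 (T / (29 / 100)) w ζ ≤ -min (Real.pi * (T / (29 / 100)) - 3 / 100) (109 / 100) := by
  rw [mT_eq] at hw ⊢
  have hx := hw.hi
  have h9 := boxF3 qfF_1 hw hz (by linarith only [h1]) (by linarith only [h3])
    (by push_cast; linarith only [h1]) (by push_cast; linarith only [hx]) (by push_cast; linarith only [h3])
    (by push_cast; linarith only [h4]) (by push_cast; linarith only [h5])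
  push_cast at h9
  exact h9

theorem f_ramp (hw : W x (T / (29 / 100)) w) (hz : ZR s ρ ζ) (h1 : 60 / 100 ≤ x)
    (h3 : 38 / 1000 ≤ T) (h4 : T ≤ 158 / 1000) (h5 : ρ ≤ 725 / 10000) :
    S4 (T / (29 / 100)) w ζ ≤ -min (Real.pi * (T / (29 / 100)) - 3 / 100) (109 / 100) := by
  rw [mT_eq] at hw ⊢
  have hx := hw.hi
  have hD : DR x T s ρ := ⟨by linarith only [h1], hw.hi, by linarith only [h3], hz.lo, hz.hi, hz.pos⟩
  have h9 := boxR3 qfR_1 hw hz hD
    (by push_cast; linarith only [h1]) (by push_cast; linarith only [hx]) (by push_cast; linarith only [h3])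
    (by push_cast; linarith only [h4]) (by push_cast; linarith only [h5])
  push_cast at h9
  exact h9

end RZ1

end Pool.Agent.Work.MP_b30479_gt.G2
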