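import Pool.Agent.Work.MP_b30479_gt.G2.RZ1

/-!
# Right ramp of a hinge `1 | ring`, the side of the ring: four crossings, `ρ ≤ 85/1000`
-/

namespace Pool.Agent.Work.MP_b30479_gt.G2

open VOL NumI

namespace RZ1

open LR

theorem qb2R_1 : okB 10000 (tR 3 16 false (bT 34 8 1)) 0 0 0 0 40 3600 4300 580 815 1250 2500 0 850
    0x40800203081020004101820810104080820300101840c042040c001000c0c303040044201081c284021000104102 = true := by
  decide +kernel

theorem qb2R_2 : okB 10000 (tR 3 16 false (bT 34 8 1)) 0 0 0 0 40 3600 4300 815 1000 1250 2500 0 850
    0x10200080c2040800004060820408100800010184061020208102000410180080c100110818814021030104102 = true := by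
  decide +kernel

theorem qb2R_3 : okB 10000 (tR 3 16 false (bT 34 8 1)) 0 0 0 0 40 3600 4300 1000 1280 1250 2500 0 665
    0x1020208101020d08141040820404201040808204040060200102028408180 = true := by
  decide +kernel

theorem qb2R_4 : okB 10000 (tR 3 16 false (bT 34 8 1)) 0 0 0 0 40 4300 5000 580 1000 1250 2500 0 850
    0x4080c2040800084060820400101840800204040420304003080010188100020301060800504102 = true := by
  decide +kernel

theorem qb2R_5 : okB 10000 (tR 3 16 false (bT 34 8 1)) 0 0 0 0 40 4300 5000 1000 1280 1250 2500 0 665
    0x102020810200040030a0104102 = true := by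
  decide +kernel

theorem qb2F_1 : okB 10000 (tF false (bT 34 8 1)) 0 0 0 0 40 3600 4500 580 1000 0 2500 0 850
    0x183020c0c306061830304083060c04184080420408041830410204060c408060820408100030620408000c1010408306061830304183030c1830106081040800204060c2040010204020c18110204080004188100c40806001020400306001808606183030c1818104183030c181820c181860c180030404104080c204080018308101840810400040c1811020188100c088100040304081060c180800c0c3030c1830100181820c1808604181860c043030404306061830302183030c181800210200080c204060c2040610203060410208200080410203062040310201800420403102018204102030810402060c40810001821020188100c0020208000 = true := by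
  decide +kernel

theorem qb2F_2 : okB 10000 (tF false (bT 34 8 1)) 0 0 0 0 40 3600 4500 1000 1280 0 2500 0 665
    0x60c0830604083060010203041020310201820408306041830304102030810180102010810080020400306061830304183030c18182041020308101831020108100800204183020c0c30604181810c180060610200080c2040604102082010406102030220403042040310201820408000 = true := by
  decide +kernel

theorem qb2F_3 : okB 10000 (tF false (bT 34 8 1)) 0 0 0 0 40 4500 5000 580 1000 0 2500 0 850
    0x60c0c3060008306001830304083060618306000c1060c08306060cb0a2c0cb030258b100800b01060c1820c183030610b020858216060410108581040858d00040418304001060c0c3060c1800106082040210204020c184080020408041831020188100c1821020088100c1800408002 = true := by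
  decide +kernel

theorem qb2F_4 : okB 10000 (tF false (bT 34 8 1)) 0 0 0 0 40 4500 5000 1000 1280 0 2500 0 665
    0x183020c1830004083060c001060c0cb1602183002c4019006081820c181842c58182081018304001060c1800308102000610203102018210201800408002 = true := by
  decide +kernel

variable {x T s ρ : ℝ} {w ζ : ℂ}

/-- `b = 4`, `ρ ≤ 85/1000` -/
theorem b2_flat (hw : W x (T / (29 / 100)) w) (hz : ZF ρ ζ) (h1 : 36 / 100 ≤ x) (h2 : x ≤ 1 / 2)
    (h3 : 58 / 1000 ≤ T) (h4 : T ≤ 128 / 1000) (h5 : ρ ≤ 85 / 1000) (h6 : ρ + T ≤ 1665 / 10000) :
    S4 (T / (29 / 100)) w ζ ≤ -(34 / 100 + 8 * T) := by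
  rw [mT_eq] at hw ⊢
  have hT : 0 ≤ T := by linarith only [h3]
  have hs : false = true → ρ + T ≤ 163 / 1000 := fun h => absurd h Bool.false_ne_true
  rcases le_total x (45 / 100) with h10 | h10
  · rcases le_total T (1 / 10) with h10 | h10
    · have h9 := boxF (ev_bT (n := 34) (n' := 8) (d' := 1) (by norm_num)) qb2F_1 hw hz h1 hT hs
        (by push_cast; linarith only [h1]) (by push_cast; linarith) (by push_cast; linarith only [h3])
        (by push_cast; linarith only [h10]) (by push_cast; linarith only [h5])
      push_cast at h9
      linarith only [h9]
    · have h9 := boxF (ev_bT (n := 34) (n' := 8) (d' := 1) (by norm_num)) qb2F_2 hw hz h1 hT hs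
        (by push_cast; linarith only [h1]) (by push_cast; linarith) (by push_cast; linarith only [h10])
        (by push_cast; linarith only [h4]) (by push_cast; linarith only [h6, h10])
      push_cast at h9
      linarith only [h9]
  · rcases le_total T (1 / 10) with h10 | h10
    · have h9 := boxF (ev_bT (n := 34) (n' := 8) (d' := 1) (by norm_num)) qb2F_3 hw hz h1 hT hs
        (by push_cast; linarith) (by push_cast; linarith only [h2]) (by push_cast; linarith only [h3])
        (by push_cast; linarith only [h10]) (by push_cast; linarith only [h5])
      push_cast at h9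
      linarith only [h9]
    · have h9 := boxF (ev_bT (n := 34) (n' := 8) (d' := 1) (by norm_num)) qb2F_4 hw hz h1 hT hs
        (by push_cast; linarith) (by push_cast; linarith only [h2]) (by push_cast; linarith only [h10])
        (by push_cast; linarith only [h4]) (by push_cast; linarith only [h6, h10])
      push_cast at h9
      linarith only [h9]

theorem b2_ramp (hw : W x (T / (29 / 100)) w) (hz : ZR s ρ ζ) (h1 : 36 / 100 ≤ x) (h2 : x ≤ 1 / 2)
    (h3 : 58 / 1000 ≤ T) (h4 : T ≤ 128 / 1000) (h5 : ρ ≤ 85 / 1000) (h6 : ρ + T ≤ 1665 / 10000)
    (h7 : 1 / 8 ≤ s) (h8 : FM 4 s ρ w ζ) :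
    S4 (T / (29 / 100)) w ζ ≤ -(34 / 100 + 8 * T) := by
  rw [mT_eq] at hw ⊢
  have hT : 0 ≤ T := by linarith only [h3]
  have hD : DR x T s ρ := ⟨h1, hw.hi, hT, hz.lo, hz.hi, hz.pos⟩
  have hz4 := hz.hi
  have hr : ρ ≤ 1045 / 10000 := by linarith only [h5]
  have hs : false = true → ρ + T ≤ 163 / 1000 := fun h => absurd h Bool.false_ne_true
  have hF : FM ((4 : ℕ) : ℝ) s ρ w ζ := by
    push_cast
    exact h8
  rcases le_total x (43 / 100) with h10 | h10
  · rcases le_total T (815 / 10000) with h10 | h10
    · have h9 := boxR (b := 4) (by norm_num) (ev_bT (n := 34) (n' := 8) (d' := 1) (by norm_num)) qb2R_1 hw hz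
        hD h2 hr hs hF
        (by push_cast; linarith only [h1]) (by push_cast; linarith) (by push_cast; linarith only [h3])
        (by push_cast; linarith only [h10]) (by push_cast; linarith only [h7]) (by push_cast; linarith only [hz4])
        (by push_cast; linarith only [h5])
      push_cast at h9
      linarith only [h9]
    · rcases le_total T (1 / 10) with h10 | h10
      · have h9 := boxR (b := 4) (by norm_num) (ev_bT (n := 34) (n' := 8) (d' := 1) (by norm_num)) qb2R_2 hw hz
          hD h2 hr hs hF
          (by push_cast; linarith only [h1]) (by push_cast; linarith) (by push_cast; linarith)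
          (by push_cast; linarith only [h10]) (by push_cast; linarith only [h7]) (by push_cast; linarith only [hz4])
          (by push_cast; linarith only [h5])
        push_cast at h9
        linarith only [h9]
      · have h9 := boxR (b := 4) (by norm_num) (ev_bT (n := 34) (n' := 8) (d' := 1) (by norm_num)) qb2R_3 hw hz
          hD h2 hr hs hF
          (by push_cast; linarith only [h1]) (by push_cast; linarith) (by push_cast; linarith only [h10])
          (by push_cast; linarith only [h4]) (by push_cast; linarith only [h7]) (by push_cast; linarith only [hz4])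
          (by push_cast; linarith only [h6, h10])
        push_cast at h9
        linarith only [h9]
  · rcases le_total T (1 / 10) with h10 | h10
    · have h9 := boxR (b := 4) (by norm_num) (ev_bT (n := 34) (n' := 8) (d' := 1) (by norm_num)) qb2R_4 hw hz
        hD h2 hr hs hF
        (by push_cast; linarith) (by push_cast; linarith only [h2]) (by push_cast; linarith only [h3])
        (by push_cast; linarith only [h10]) (by push_cast; linarith only [h7]) (by push_cast; linarith only [hz4])
        (by push_cast; linarith only [h5])
      push_cast at h9
      linarith only [h9]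
    · have h9 := boxR (b := 4) (by norm_num) (ev_bT (n := 34) (n' := 8) (d' := 1) (by norm_num)) qb2R_5 hw hz
        hD h2 hr hs hF
        (by push_cast; linarith) (by push_cast; linarith only [h2]) (by push_cast; linarith only [h10])
        (by push_cast; linarith only [h4]) (by push_cast; linarith only [h7]) (by push_cast; linarith only [hz4])
        (by push_cast; linarith only [h6, h10])
      push_cast at h9
      linarith only [h9]

end RZ1

end Pool.Agent.Work.MP_b30479_gt.G2
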