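import Pool.Agent.Work.MP_b30479_gt.G2.LRS
import Pool.Agent.Work.MP_b30479_gt.G2.MRX

/-!
# `LL` and `YY` near `1`: the forms of the leaves

`u = 1 + c ± i t`.
-/

namespace Pool.Agent.Work.MP_b30479_gt.G2

open VOL NumI

namespace RZ1

open LR

variable {c t e : ℝ}

theorem lnA_one_add (c t : ℝ) : lnA (1 + c) t = lnA c t := by
  unfold lnA
  have h : Real.pi * (1 + c) = Real.pi * c + Real.pi := by ring
  rw [h, Real.sin_add_pi, neg_sq]

theorem LL_near (c t : ℝ) : LL ⟨1 + c, t⟩ = lnA c t := by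
  rw [LL_lnA']
  exact lnA_one_add c t

theorem LL_near_neg (c t : ℝ) : LL ⟨1 + c, t⟩ = lnA (-c) t := by
  rw [LL_near, lnA_neg_left]

theorem LL_near' (c t : ℝ) : LL ⟨1 + c, -t⟩ = lnA c t := by
  rw [LL_near, lnA_neg]

/-- `c < 0` -/
theorem YY_left (h0 : c < 0) (h1 : -1 < c) : YY ⟨1 + c, t⟩ = lnB (-c) t := by
  rw [← YY_one_sub, Num.YY_lnB (u := 1 - ⟨1 + c, t⟩)]
  · simp only [Complex.sub_re, Complex.one_re, Complex.sub_im, Complex.one_im, zero_sub]
    rw [lnB_neg, neg_neg]
    congr 1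
    ring
  · constructor
    · simp only [Complex.sub_re, Complex.one_re]
      linarith only [h0]
    · simp only [Complex.sub_re, Complex.one_re]
      linarith only [h1]

/-- `c > 0`, below the axis -/
theorem YY_right (h0 : 0 < c) (h1 : c < 1) (ht : 0 < t) : YY ⟨1 + c, -t⟩ = lnB c t - Real.pi := by
  have e : (⟨1 + c, -t⟩ : ℂ) = ⟨c, -t⟩ + 1 := by
    apply Complex.ext
    · simp only [Complex.add_re, Complex.one_re]
      ring
    · simp
  rw [e, YY_add_one, Num.YY_lnB (u := ⟨c, -t⟩) ⟨h0, h1⟩]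
  simp only
  rw [if_neg (by linarith only [ht]), if_pos (by linarith only [ht]), lnB_neg, neg_neg]
  ring

/-- general form of the angle below the axis -/
theorem YY_mid (h0 : -(1 / 2) < c) (h1 : c < 1 / 2) (ht : 0 < t) :
    YY ⟨1 + c, -t⟩ = -((1 : ℕ) / (2 : ℕ) * Real.pi +
      Real.arctan (Real.sin (Real.pi * c) * Real.cosh (Real.pi * t) *
      (Real.cos (Real.pi * c) * Real.sinh (Real.pi * t))⁻¹)) := by
  have hp := Real.pi_pos
  have hch := Real.cosh_pos (Real.pi * t)
  have hsh : 0 < Real.sinh (Real.pi * t) := Real.sinh_pos_iff.mpr (by positivity)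
  have hcos : 0 < Real.cos (Real.pi * c) :=
    Real.cos_pos_of_mem_Ioo ⟨by nlinarith only [h0, hp], by nlinarith only [h1, hp]⟩
  push_cast
  rcases lt_trichotomy 0 c with hs | hs | hs
  · rw [YY_right hs (by linarith only [h1, hs]) ht]
    have hsin : 0 < Real.sin (Real.pi * c) :=
      Real.sin_pos_of_pos_of_lt_pi (by positivity) (by nlinarith only [hp, h1])
    unfold lnB
    have := arctan_inv' (a := Real.cos (Real.pi * c) * Real.sinh (Real.pi * t))
      (b := Real.sin (Real.pi * c) * Real.cosh (Real.pi * t))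
      (by positivity) (by positivity)
    rw [this, div_eq_mul_inv (Real.sin (Real.pi * c) * Real.cosh (Real.pi * t))]
    ring
  · rw [← hs]
    simp only [mul_zero, Real.sin_zero, zero_mul, Real.arctan_zero, add_zero]
    have e : (⟨1, -t⟩ : ℂ) = (starRingEnd ℂ) (((t : ℝ) : ℂ) * Complex.I) + 1 := by
      apply Complex.ext <;> simp
    have hi : ((starRingEnd ℂ) (((t : ℝ) : ℂ) * Complex.I)).im = -t := by
      rw [Complex.conj_im]
      simp
    rw [e, YY_add_one, if_neg (by rw [hi]; linarith only [ht]), if_pos (by rw [hi]; linarith only [ht]), YY_conj,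
      MR.YY_it ht]
    ring
  · rw [YY_left hs (by linarith only [h0, hs]), lnB_neg]
    have hsin : 0 < Real.sin (Real.pi * (-c)) :=
      Real.sin_pos_of_pos_of_lt_pi (by nlinarith only [hp, hs]) (by nlinarith only [hp, h0])
    have es : Real.sin (Real.pi * c) = -Real.sin (Real.pi * (-c)) := by
      rw [mul_neg, Real.sin_neg, neg_neg]
    have ec : Real.cos (Real.pi * c) = Real.cos (Real.pi * (-c)) := by
      rw [mul_neg, Real.cos_neg]
    rw [ec] at hcos
    unfold lnB
    have := arctan_inv' (a := Real.cos (Real.pi * (-c)) * Real.sinh (Real.pi * t))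
      (b := Real.sin (Real.pi * (-c)) * Real.cosh (Real.pi * t))
      (by positivity) (by positivity)
    rw [this, es, ec, neg_mul, neg_mul, Real.arctan_neg,
      div_eq_mul_inv (Real.sin (Real.pi * (-c)) * Real.cosh (Real.pi * t))]
    ring

theorem YY_flip (c e : ℝ) : YY ⟨1 + c, e⟩ = -YY ⟨1 + c, -e⟩ := by
  have h : (⟨1 + c, -e⟩ : ℂ) = (starRingEnd ℂ) ⟨1 + c, e⟩ := by
    apply Complex.ext <;> simp
  rw [h, YY_conj, neg_neg]

/-- above the axis -/
theorem YY_up (h0 : -(1 / 2) < c) (h1 : c < 1 / 2) (ht : 0 < e) :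
    YY ⟨1 + c, e⟩ = (1 : ℕ) / (2 : ℕ) * Real.pi +
      Real.arctan (Real.sin (Real.pi * c) * Real.cosh (Real.pi * e) *
      (Real.cos (Real.pi * c) * Real.sinh (Real.pi * e))⁻¹) := by
  rw [YY_flip, YY_mid h0 h1 ht, neg_neg]

/-- upper bound right of `1`, any height -/
theorem YY_top (h0 : 0 < c) (h1 : c < 1) : YY ⟨1 + c, e⟩ ≤ Real.pi - lnB c e := by
  have hp := Real.pi_pos
  rcases lt_trichotomy 0 e with h | h | h
  · rw [YY_flip, YY_right h0 h1 h]
    linarith only []
  · rw [← h]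
    have : lnB c 0 = 0 := by
      unfold lnB
      simp
    rw [this, YY_zero (by simp)]
    linarith only [hp]
  · have h' : 0 < -e := by linarith only [h]
    have e1 : (⟨1 + c, e⟩ : ℂ) = ⟨1 + c, -(-e)⟩ := by rw [neg_neg]
    rw [e1, YY_right h0 h1 h', lnB_neg]
    have h2 : -(Real.pi / 2) < lnB c e := Real.neg_pi_div_two_lt_arctan _
    have h3 : lnB c e < Real.pi / 2 := Real.arctan_lt_pi_div_two _
    linarith only [hp]

/-- near the singularity; the second case is the value of `Real.log 0` -/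
theorem sing (h0 : |c| ≤ 1 / 20) (h1 : |e| ≤ 1 / 20) :
    (LL ⟨1 + c, e⟩ ≤ -(79 / 100) ∧ YY ⟨1 + c, e⟩ ≤ Real.pi) ∨
      (LL ⟨1 + c, e⟩ = 0 ∧ YY ⟨1 + c, e⟩ = 0) := by
  have hp := Real.pi_pos
  have hp2 := Real.pi_lt_d4
  have hc := abs_le.mp h0
  have hY : YY ⟨1 + c, e⟩ ≤ Real.pi := by
    refine (abs_le.mp (MR.YY_abs_pi (u := ⟨1 + c, e⟩) ?_ ?_)).2
    · simp only
      linarith only [hc]
    · simp only
      linarith only [hc]
  have a1 : Real.sin (Real.pi * c) ^ 2 ≤ (Real.pi * c) ^ 2 := by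
    rw [sq_le_sq]
    exact Real.abs_sin_le_abs
  have b1 : (Real.pi * c) ^ 2 ≤ (15708 / 100000) ^ 2 := by
    rw [← sq_abs, abs_mul, abs_of_pos hp]
    apply pow_le_pow_left₀ (by positivity)
    nlinarith only [hp2, h0, hp, abs_nonneg c]
  have hpe : |Real.pi * e| ≤ 15708 / 100000 := by
    rw [abs_mul, abs_of_pos hp]
    nlinarith only [hp2, h1, hp, abs_nonneg e]
  have b2 : (Real.pi * e) ^ 2 ≤ (15708 / 100000) ^ 2 := by
    rw [← sq_abs]
    exact pow_le_pow_left₀ (abs_nonneg _) hpe 2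
  have a2 := sinh_sq_le (y := Real.pi * e) (by linarith only [hpe])
  have b3 : (Real.pi * e) ^ 4 ≤ ((15708 / 100000) ^ 2) ^ 2 := by
    have e1 : (Real.pi * e) ^ 4 = ((Real.pi * e) ^ 2) ^ 2 := by ring
    rw [e1]
    exact pow_le_pow_left₀ (by positivity) b2 2
  have h3 : 4 * (Real.sin (Real.pi * c) ^ 2 + Real.sinh (Real.pi * e) ^ 2) ≤ 2035 / 10000 := by
    norm_num at b1 b2 b3 ⊢
    linarith only [a1, a2, b1, b2, b3]
  rcases (show 0 ≤ 4 * (Real.sin (Real.pi * c) ^ 2 + Real.sinh (Real.pi * e) ^ 2) by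
    positivity).eq_or_lt with h4 | h4
  · right
    have h5 : Real.sinh (Real.pi * e) ^ 2 = 0 := by
      have := sq_nonneg (Real.sin (Real.pi * c))
      have := sq_nonneg (Real.sinh (Real.pi * e))
      linarith
    have h6 : e = 0 := by
      rw [sq_eq_zero_iff, Real.sinh_eq_zero] at h5
      rcases mul_eq_zero.mp h5 with h | h
      · exact absurd h hp.ne'
      · exact h
    constructor
    · rw [LL_near]
      unfold lnA
      rw [← h4, Real.log_zero, zero_div]
    · exact YY_zero (by simpa using h6)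
  · left
    refine ⟨?_, hY⟩
    rw [LL_near]
    unfold lnA
    have l1 := Real.log_le_log h4 h3
    have l2 : Real.log (2035 / 10000) ≤ -(158 / 100) := by
      rw [← Real.log_exp (-(158 / 100))]
      apply Real.log_le_log (by norm_num)
      have e1 : Real.exp (-(158 / 100)) = (Real.exp (158 / 100))⁻¹ := Real.exp_neg _
      rw [e1, le_inv_comm₀ (by norm_num) (Real.exp_pos _)]
      have e2 : Real.exp (158 / 100) = Real.exp 1 * Real.exp (58 / 100) := by
        rw [← Real.exp_add]
        norm_num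
      have h9 := Real.exp_one_lt_d9
      have e3 : Real.exp (58 / 100) ≤ 1787 / 1000 := by
        have := Real.exp_bound' (x := 58 / 100) (by norm_num) (by norm_num) (n := 5) (by norm_num)
        refine this.trans ?_
        norm_num [Finset.sum_range_succ, Nat.factorial]
      rw [e2]
      calc Real.exp 1 * Real.exp (58 / 100) ≤ 2.7182818286 * (1787 / 1000) := by
            apply mul_le_mul h9.le e3 (Real.exp_pos _).le (by norm_num)
        _ ≤ _ := by norm_num
    linarith only [l1, l2]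

end RZ1

end Pool.Agent.Work.MP_b30479_gt.G2
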