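import Pool.Agent.Work.MP_b30479_gt.G2.RZT

/-!
# Right ramps of `{2, 2e} | ring`, the side of the ring: leaves and tests

As `RZK`, with a form for `v` near the singularity and `m = T / (30/100)`, `k = m (60/100 - x)`.
-/

namespace Pool.Agent.Work.MP_b30479_gt.G2

open VOL NumI

namespace RZ2

open LR RZ1

/-- near the singularity, not on the axis -/
theorem singV {c t : ℝ} (h0 : |c| ≤ 1 / 20) (h1 : |t| ≤ 1 / 20) (ht : 0 < t) :
    LL ⟨1 + c, -t⟩ ≤ -(79 / 100) ∧ YY ⟨1 + c, -t⟩ ≤ 0 := by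
  have hp := Real.pi_pos
  have hc := abs_le.mp h0
  constructor
  · rw [LL_near']
    rcases sing (c := c) (e := t) h0 h1 with h | h
    · rw [LL_near] at h
      exact h.1
    · exfalso
      have h2 := h.2
      have h3 := h.1
      rw [LL_near] at h3
      unfold lnA at h3
      -- the argument of the logarithm is at most `.21` and positive
      have hp2 := Real.pi_lt_d4
      have a1 : Real.sin (Real.pi * c) ^ 2 ≤ (Real.pi * c) ^ 2 := by
        rw [sq_le_sq]
        exact Real.abs_sin_le_abs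
      have b1 : (Real.pi * c) ^ 2 ≤ (15708 / 100000) ^ 2 := by
        rw [← sq_abs, abs_mul, abs_of_pos hp]
        apply pow_le_pow_left₀ (by positivity)
        nlinarith only [hp2, h0, hp, abs_nonneg c]
      have hpe : |Real.pi * t| ≤ 15708 / 100000 := by
        rw [abs_mul, abs_of_pos hp]
        nlinarith only [hp2, h1, hp, abs_nonneg t]
      have b2 : (Real.pi * t) ^ 2 ≤ (15708 / 100000) ^ 2 := by
        rw [← sq_abs]
        exact pow_le_pow_left₀ (abs_nonneg _) hpe 2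
      have a2 := sinh_sq_le (y := Real.pi * t) (by linarith only [hpe])
      have b3 : (Real.pi * t) ^ 4 ≤ ((15708 / 100000) ^ 2) ^ 2 := by
        have e1 : (Real.pi * t) ^ 4 = ((Real.pi * t) ^ 2) ^ 2 := by ring
        rw [e1]
        exact pow_le_pow_left₀ (by positivity) b2 2
      have h4 : 4 * (Real.sin (Real.pi * c) ^ 2 + Real.sinh (Real.pi * t) ^ 2) < 1 := by
        norm_num at b1 b2 b3 ⊢
        linarith only [a1, a2, b1, b2, b3]
      have h5 : 0 < 4 * (Real.sin (Real.pi * c) ^ 2 + Real.sinh (Real.pi * t) ^ 2) := by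
        have : 0 < Real.sinh (Real.pi * t) := Real.sinh_pos_iff.mpr (by positivity)
        have := sq_nonneg (Real.sin (Real.pi * c))
        positivity
      have h6 := Real.log_neg h5 h4
      linarith only [h3, h6]
  · rw [YY_mid (by linarith only [hc]) (by linarith only [hc]) ht]
    have := Real.neg_pi_div_two_lt_arctan (Real.sin (Real.pi * c) * Real.cosh (Real.pi * t) *
      (Real.cos (Real.pi * c) * Real.sinh (Real.pi * t))⁻¹)
    push_cast
    linarith only [this]

/-- forms of `v` -/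
def vf4 (f : ℕ) (c t : F) (C : F → F → Option F) : Option F :=
  cond (Nat.beq f 3)
    (cond (posF ((F.rat 1 20).sub c)) (cond (posF ((F.rat 1 20).add c))
      (cond (posF ((F.rat 1 20).sub t)) (C (F.rat 79 100).neg (F.rat 0 1)) none) none) none)
    (vf f c t C)

lemma e79 (ε : ℕ → ℝ) : ((F.rat 79 100).neg).Encl ε (-(79 / 100)) := by
  have := negE (F.Encl.rat 79 100 ε)
  push_cast at this
  exact this

lemma e00 (ε : ℕ → ℝ) : (F.rat 0 1).Encl ε 0 := by
  have := F.Encl.rat 0 1 ε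
  push_cast at this
  rwa [zero_div] at this

lemma e20 (ε : ℕ → ℝ) : (F.rat 1 20).Encl ε (1 / 20) := by
  have := F.Encl.rat 1 20 ε
  push_cast at this
  exact this

lemma vf4_some {f : ℕ} {c t g : F} {C : F → F → Option F} {ε : ℕ → ℝ} {γ τ : ℝ}
    (hε : ∀ i, |ε i| ≤ 1) (h1 : c.Encl ε γ) (h2 : t.Encl ε τ) (hl : -(1 / 2) < γ) (hr : γ < 1 / 2)
    (hτ : 0 < τ) (h : vf4 f c t C = some g) : ∃ la yy, ∃ a b : ℝ, la.Encl ε a ∧ yy.Encl ε b ∧
      LL ⟨1 + γ, -τ⟩ ≤ a ∧ YY ⟨1 + γ, -τ⟩ ≤ b ∧ C la yy = some g := by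
  unfold vf4 at h
  rcases h0 : Nat.beq f 3 with _ | _
  · rw [h0, cond_false] at h
    exact vf_some hε h1 h2 hl hr hτ h
  · rw [h0, cond_true] at h
    rcases g1 : posF ((F.rat 1 20).sub c) with _ | _
    · rw [g1, cond_false] at h
      exact absurd h (by simp)
    rw [g1, cond_true] at h
    rcases g2 : posF ((F.rat 1 20).add c) with _ | _
    · rw [g2, cond_false] at h
      exact absurd h (by simp)
    rw [g2, cond_true] at h
    rcases g3 : posF ((F.rat 1 20).sub t) with _ | _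
    · rw [g3, cond_false] at h
      exact absurd h (by simp)
    rw [g3, cond_true] at h
    have p1 := posF_spec hε (F.Encl.sub (e20 ε) h1) g1
    have p2 := posF_spec hε (F.Encl.add (e20 ε) h1) g2
    have p3 := posF_spec hε (F.Encl.sub (e20 ε) h2) g3
    obtain ⟨q1, q2⟩ := singV (c := γ) (t := τ) (abs_le.mpr ⟨by linarith only [p2], by linarith only [p1]⟩)
      (abs_le.mpr ⟨by linarith only [hτ, p3], by linarith only [p3]⟩) hτ
    exact ⟨_, _, _, _, e79 ε, e00 ε, q1, q2, h⟩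

/-- leaf of the flat part -/
def lF4 (fu fv : ℕ) (B X Y R M K : F) : Bool :=
  let h := X.sub (F.rat 1 2)
  let c := h.sub Y
  let e := R.sub K
  cond (Nat.beq fu 3)
    (cond (posF ((F.rat 1 20).sub c)) (cond (posF ((F.rat 1 20).add c))
      (cond (posF ((F.rat 1 20).sub e)) (cond (posF ((F.rat 1 20).add e))
        (cond (posO' (vf4 fv (h.add Y) (R.add K) (fun av yv => o0 (fun aw => o0 (fun bw =>
            some (cF M aw bw (F.rat 79 100).neg F.pi av yv B)) (F.lnB X K)) (F.lnA X K))))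
          (posO' (vf4 fv (h.add Y) (R.add K) (fun av yv => o0 (fun aw => o0 (fun bw =>
            some (cF M aw bw (F.rat 0 1) (F.rat 0 1) av yv B)) (F.lnB X K)) (F.lnA X K))))
          false) false) false) false) false)
    (posO' (uf fu c e (fun au yu => vf4 fv (h.add Y) (R.add K) (fun av yv => o0 (fun aw =>
      o0 (fun bw => some (cF M aw bw au yu av yv B)) (F.lnB X K)) (F.lnA X K)))))

theorem lF4_sound {fu fv : ℕ} {B X Y R M K : F} {ε : ℕ → ℝ} {β x y ρ m k : ℝ}
    (hε : ∀ i, |ε i| ≤ 1) (hB : B.Encl ε β) (hX : X.Encl ε x) (hY : Y.Encl ε y) (hR : R.Encl ε ρ)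
    (hM : M.Encl ε m) (hK : K.Encl ε k) (h : lF4 fu fv B X Y R M K = true)
    (hm : 0 ≤ m) (hx : 26 / 100 < x) (hx' : x < 74 / 100) (hy : 0 ≤ y) (hy' : y ≤ 1 / 4)
    (ht : 0 < ρ + k) : Sf x m k y ρ < -β := by
  have kh := F.Encl.sub hX (half ε)
  have kc := F.Encl.sub kh hY
  have ke := F.Encl.sub hR hK
  have kd := F.Encl.add kh hY
  have kt := F.Encl.add hR hK
  unfold lF4 at h
  simp only at h
  rcases h0 : Nat.beq fu 3 with _ | _
  · rw [h0, cond_false] at h
    obtain ⟨g, hg, hpos⟩ := posO_some h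
    obtain ⟨au, yu, au', yu', e1, e2, l1, l2, h1⟩ := uf_some hε kc ke (by linarith only [hx, hy']) (by linarith only [hx', hy]) hg
    obtain ⟨av, yv, av', yv', e3, e4, l3, l4, h1⟩ :=
      vf4_some hε kd kt (by linarith only [hx, hy]) (by linarith only [hx', hy']) ht h1
    obtain ⟨aw, haw, h1⟩ := o0_some h1
    obtain ⟨bw, hbw, h1⟩ := o0_some h1
    have kD := cF_encl hε hM (F.Encl.lnA hε hX hK haw) (F.Encl.lnB hε hX hK hbw) e1 e2 e3 e4 hB
    have hp := posF_spec hε kD (by rw [← Option.some.inj h1] at hpos; exact hpos)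
    have l5 := mul_le_mul_of_nonneg_left (add_le_add l2 l4) hm
    unfold Sf uC vC'
    linarith only [l1, l3, hp, l5]
  · rw [h0, cond_true] at h
    rcases h1 : posF ((F.rat 1 20).sub ((X.sub (F.rat 1 2)).sub Y)) with _ | _
    · rw [h1, cond_false] at h
      exact absurd h (by simp)
    rw [h1, cond_true] at h
    rcases h2 : posF ((F.rat 1 20).add ((X.sub (F.rat 1 2)).sub Y)) with _ | _
    · rw [h2, cond_false] at h
      exact absurd h (by simp)
    rw [h2, cond_true] at h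
    rcases h3 : posF ((F.rat 1 20).sub (R.sub K)) with _ | _
    · rw [h3, cond_false] at h
      exact absurd h (by simp)
    rw [h3, cond_true] at h
    rcases h4 : posF ((F.rat 1 20).add (R.sub K)) with _ | _
    · rw [h4, cond_false] at h
      exact absurd h (by simp)
    rw [h4, cond_true] at h
    have p1 := posF_spec hε (F.Encl.sub (e20 ε) kc) h1
    have p2 := posF_spec hε (F.Encl.add (e20 ε) kc) h2
    have p3 := posF_spec hε (F.Encl.sub (e20 ε) ke) h3
    have p4 := posF_spec hε (F.Encl.add (e20 ε) ke) h4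
    rcases h5 : posO' (vf4 fv ((X.sub (F.rat 1 2)).add Y) (R.add K) (fun av yv => o0 (fun aw =>
        o0 (fun bw => some (cF M aw bw (F.rat 79 100).neg F.pi av yv B)) (F.lnB X K))
          (F.lnA X K))) with _ | _
    · rw [h5, cond_false] at h
      exact absurd h (by simp)
    rw [h5, cond_true] at h
    obtain ⟨g1, hg1, hpos1⟩ := posO_some h5
    obtain ⟨g2, hg2, hpos2⟩ := posO_some h
    obtain ⟨av, yv, av', yv', e3, e4, l3, l4, k1⟩ :=
      vf4_some hε kd kt (by linarith only [hy, p2]) (by linarith only [hx', hy', p2]) ht hg1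
    obtain ⟨aw, haw, k1⟩ := o0_some k1
    obtain ⟨bw, hbw, k1⟩ := o0_some k1
    have kD1 := cF_encl hε hM (F.Encl.lnA hε hX hK haw) (F.Encl.lnB hε hX hK hbw) (e79 ε)
      (F.Encl.pi ε) e3 e4 hB
    have hp1 := posF_spec hε kD1 (by rw [← Option.some.inj k1] at hpos1; exact hpos1)
    obtain ⟨av2, yv2, av2', yv2', e5, e6, l5, l6, k2⟩ :=
      vf4_some hε kd kt (by linarith only [hy, p2]) (by linarith only [hx', hy', p2]) ht hg2
    obtain ⟨aw2, haw2, k2⟩ := o0_some k2
    obtain ⟨bw2, hbw2, k2⟩ := o0_some k2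
    have kD2 := cF_encl hε hM (F.Encl.lnA hε hX hK haw2) (F.Encl.lnB hε hX hK hbw2) (e00 ε)
      (e00 ε) e5 e6 hB
    have hp2 := posF_spec hε kD2 (by rw [← Option.some.inj k2] at hpos2; exact hpos2)
    rcases sing (c := x - 1 / 2 - y) (e := ρ - k) (abs_le.mpr ⟨by linarith only [p2], by linarith only [p1]⟩)
      (abs_le.mpr ⟨by linarith only [p4], by linarith only [p3]⟩) with ⟨q1, q2⟩ | ⟨q1, q2⟩
    · have l7 := mul_le_mul_of_nonneg_left (add_le_add q2 l4) hm
      unfold Sf uC vC'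
      linarith only [l3, hp1, q1, l7]
    · have l7 := mul_le_mul_of_nonneg_left l6 hm
      unfold Sf uC vC'
      rw [q1, q2]
      linarith only [l5, hp2, l7]

/-! ### tests -/

def lM (T : F) : F := F.mulq 10 3 T
def lK (X M : F) : F := M.mul ((F.rat 60 100).sub X)

/-- `π m + 12/100 - 178/100 m` -/
def bG (M : F) : F := ((F.pi.mul M).add (F.rat 12 100)).sub (F.mulq 178 100 M)
/-- `π m - 1/10` -/
def bH (M : F) : F := (F.pi.mul M).sub (F.rat 1 10)

def uR (B : F → F) (_ : ℕ) (X T S R : F) : Bool :=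
  let M := lM T
  lR3 (B M) X S R M (lK X M)

def uF (B : F → F) (k : ℕ) (X T Y R : F) : Bool :=
  let M := lM T
  lF4 (Nat.div k 8) (Nat.mod (Nat.div k 2) 4) (B M) X Y R M (lK X M)

noncomputable def mT (T : ℝ) : ℝ := 10 / 3 * T
noncomputable def kT (T x : ℝ) : ℝ := mT T * (60 / 100 - x)

lemma lM_encl {T : F} {ε : ℕ → ℝ} {t : ℝ} (hε : ∀ i, |ε i| ≤ 1) (h : T.Encl ε t) :
    (lM T).Encl ε (mT t) := by
  have := F.Encl.mulq (n := 10) (d := 3) (by norm_num) hε h
  push_cast at this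
  exact this

lemma lK_encl {X M : F} {ε : ℕ → ℝ} {x t : ℝ} (hε : ∀ i, |ε i| ≤ 1) (h : X.Encl ε x)
    (hM : M.Encl ε (mT t)) : (lK X M).Encl ε (kT t x) := by
  have h2 := F.Encl.rat 60 100 ε
  push_cast at h2
  exact F.Encl.mul hε hM (F.Encl.sub h2 h)

lemma ev_bG : EvB bG (fun m => Real.pi * m + 12 / 100 - 178 / 100 * m) := by
  intro M ε m hε h
  have h2 := F.Encl.rat 12 100 ε
  have h3 := F.Encl.mulq (n := 178) (d := 100) (by norm_num) hε h
  push_cast at h2 h3
  exact F.Encl.sub (F.Encl.add (F.Encl.mul hε (F.Encl.pi ε) h) h2) h3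

lemma ev_bH : EvB bH (fun m => Real.pi * m - 1 / 10) := by
  intro M ε m hε h
  have h2 := F.Encl.rat 1 10 ε
  push_cast at h2
  exact F.Encl.sub (F.Encl.mul hε (F.Encl.pi ε) h) h2

def QR (β : ℝ → ℝ) (x t s ρ : ℝ) : Prop := Sr x (mT t) (kT t x) s ρ < -β (mT t)

structure DF (x t y ρ : ℝ) : Prop where
  x0 : 26 / 100 < x
  x1 : x ≤ 60 / 100
  t0 : 0 ≤ t
  y0 : 0 ≤ y
  y1 : y ≤ 1 / 4
  r0 : 0 < ρ

def QF (β : ℝ → ℝ) (x t y ρ : ℝ) : Prop := DF x t y ρ → Sf x (mT t) (kT t x) y ρ < -β (mT t)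

theorem uR_ok {B : F → F} {β : ℝ → ℝ} (hB : EvB B β) : TestOk (uR B) (QR β) := by
  intro k X T S R ε x t s ρ hε hX hT hS hR h
  have hM := lM_encl hε hT
  exact lR3_sound hε (hB hε hM) hX hS hR hM (lK_encl hε hX hM) h

theorem uF_ok {B : F → F} {β : ℝ → ℝ} (hB : EvB B β) : TestOk (uF B) (QF β) := by
  intro k X T Y R ε x t y ρ hε hX hT hY hR h hD
  have hM := lM_encl hε hT
  have m0 : 0 ≤ mT t := by
    have := hD.t0
    unfold mT
    positivity
  have k0 : 0 ≤ kT t x := mul_nonneg m0 (by linarith only [hD, hD.x1])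
  exact lF4_sound hε (hB hε hM) hX hY hR hM (lK_encl hε hX hM) h m0 hD.x0
    (by linarith only [hD, hD.x1]) hD.y0 hD.y1 (by linarith only [k0, hD, hD.r0])

end RZ2

end Pool.Agent.Work.MP_b30479_gt.G2
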