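import Pool.Agent.Work.MP_b30479_gt.G2.RZK

/-!
# Right ramp of a hinge `1 | ring`: tests and their properties
-/

namespace Pool.Agent.Work.MP_b30479_gt.G2

open VOL NumI

namespace RZ1

open LR

/-- `n / 100 + n' / d' T` -/
def bT (n n' d' : ℕ) (T : F) : F := (F.rat n 100).add (F.mulq n' d' T)

/-- ramp, `x ≤ 1/2` -/
def tR (b1 b4 : ℕ) (side : Bool) (B : F → F) (k : ℕ) (X T S R : F) : Bool :=
  cond (Nat.beq k 63) (cond side (posF ((R.add T).sub (F.rat 163 1000))) false)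
    (let M := kM T; lR b1 b4 k (B T) X S R M (kK X M))

/-- ramp, `x ≥ 1/2` -/
def tR3 (c k : ℕ) (X T S R : F) : Bool :=
  let M := kM T
  lR3 (cond (Nat.beq k 0) ((F.pi.mul M).sub (F.rat 3 100)) (F.rat c 100)) X S R M (kK X M)

/-- flat part, `x ≤ 1/2` -/
def tF (side : Bool) (B : F → F) (k : ℕ) (X T Y R : F) : Bool :=
  cond (Nat.beq k 63) (cond side (posF ((R.add T).sub (F.rat 163 1000))) false)
    (let M := kM T; lF (Nat.div k 6) (Nat.mod (Nat.div k 2) 3) (B T) X Y R M (kK X M))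

/-- flat part, `x ≥ 1/2` -/
def tF3 (c k : ℕ) (X T Y R : F) : Bool :=
  let M := kM T
  lF (Nat.div k 6) (Nat.mod (Nat.div k 2) 3)
    (cond (Nat.beq (Nat.mod k 2) 0) ((F.pi.mul M).sub (F.rat 3 100)) (F.rat c 100)) X Y R M (kK X M)

noncomputable def mT (T : ℝ) : ℝ := 100 / 29 * T
noncomputable def kT (T x : ℝ) : ℝ := mT T * (65 / 100 - x)

lemma kM_encl {T : F} {ε : ℕ → ℝ} {t : ℝ} (hε : ∀ i, |ε i| ≤ 1) (h : T.Encl ε t) :
    (kM T).Encl ε (mT t) := by
  have := F.Encl.mulq (n := 100) (d := 29) (by norm_num) hε h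
  push_cast at this
  exact this

lemma kK_encl {X M : F} {ε : ℕ → ℝ} {x t : ℝ} (hε : ∀ i, |ε i| ≤ 1) (h : X.Encl ε x)
    (hM : M.Encl ε (mT t)) : (kK X M).Encl ε (kT t x) := by
  have h2 := F.Encl.rat 65 100 ε
  push_cast at h2
  exact F.Encl.mul hε hM (F.Encl.sub h2 h)

lemma side_encl {T R : F} {ε : ℕ → ℝ} {t ρ : ℝ} (hε : ∀ i, |ε i| ≤ 1) (h : T.Encl ε t)
    (hR : R.Encl ε ρ) (hp : posF ((R.add T).sub (F.rat 163 1000)) = true) :
    163 / 1000 < ρ + t := by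
  have h2 := F.Encl.rat 163 1000 ε
  push_cast at h2
  have := posF_spec hε (F.Encl.sub (F.Encl.add hR h) h2) hp
  linarith

/-- real bound -/
def EvB (B : F → F) (β : ℝ → ℝ) : Prop :=
  ∀ {T : F} {ε : ℕ → ℝ} {t : ℝ}, (∀ i, |ε i| ≤ 1) → T.Encl ε t → (B T).Encl ε (β t)

lemma ev_bT {n n' d' : ℕ} (hd : 0 < d') :
    EvB (bT n n' d') (fun t => (n : ℝ) / 100 + (n' : ℝ) / d' * t) := by
  intro T ε t hε h
  have h2 := F.Encl.rat n 100 ε
  push_cast at h2
  exact F.Encl.add h2 (F.Encl.mulq hd hε h)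

lemma ev_3 {c k : ℕ} {M : F} {ε : ℕ → ℝ} {t : ℝ} (hε : ∀ i, |ε i| ≤ 1) (hM : M.Encl ε (mT t)) :
    (cond (Nat.beq k 0) ((F.pi.mul M).sub (F.rat 3 100)) (F.rat c 100)).Encl ε
      (cond (Nat.beq k 0) (Real.pi * mT t - 3 / 100) ((c : ℝ) / 100)) := by
  rcases Nat.beq k 0 with _ | _
  · rw [cond_false, cond_false]
    have h2 := F.Encl.rat c 100 ε
    push_cast at h2
    exact h2
  · rw [cond_true, cond_true]
    have h2 := F.Encl.rat 3 100 ε
    push_cast at h2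
    exact F.Encl.sub (F.Encl.mul hε (F.Encl.pi ε) hM) h2

def PrR (b1 b4 : ℝ) (side : Bool) (β : ℝ → ℝ) (x t s ρ : ℝ) : Prop :=
  (side = true → ρ + t ≤ 163 / 1000) → Fr b1 b4 x (kT t x) s ρ ≤ 0 → Gr b1 b4 x (kT t x) s ρ ≤ 0 →
    Sr x (mT t) (kT t x) s ρ < -β t

def PrR3 (c : ℝ) (x t s ρ : ℝ) : Prop :=
  Sr x (mT t) (kT t x) s ρ < -(Real.pi * mT t - 3 / 100) ∨ Sr x (mT t) (kT t x) s ρ < -(c / 100)

/-- domain of the flat part -/
structure DF (x t y ρ : ℝ) : Prop where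
  x0 : 26 / 100 < x
  x1 : x ≤ 65 / 100
  t0 : 0 ≤ t
  y0 : 0 ≤ y
  y1 : y ≤ 1 / 4
  r0 : 0 < ρ

def PrF (side : Bool) (β : ℝ → ℝ) (x t y ρ : ℝ) : Prop :=
  (side = true → ρ + t ≤ 163 / 1000) → DF x t y ρ → Sf x (mT t) (kT t x) y ρ < -β t

def PrF3 (c : ℝ) (x t y ρ : ℝ) : Prop :=
  DF x t y ρ → Sf x (mT t) (kT t x) y ρ < -(Real.pi * mT t - 3 / 100) ∨
    Sf x (mT t) (kT t x) y ρ < -(c / 100)

theorem tR_ok {b1 b4 : ℕ} {side : Bool} {B : F → F} {β : ℝ → ℝ} (hB : EvB B β) :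
    TestOk (tR b1 b4 side B) (PrR b1 b4 side β) := by
  intro k X T S R ε x t s ρ hε hX hT hS hR h hside hF hG
  unfold tR at h
  rcases h0 : Nat.beq k 63 with _ | _
  · rw [h0, cond_false] at h
    have hM := kM_encl hε hT
    exact lR_sound hε (hB hε hT) hX hS hR hM (kK_encl hε hX hM) h hF hG
  · rw [h0, cond_true] at h
    rcases side with _ | _
    · rw [cond_false] at h
      exact absurd h Bool.false_ne_true
    · rw [cond_true] at h
      have := side_encl hε hT hR h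
      exact absurd (hside rfl) (not_le.mpr this)

theorem tR3_ok {c : ℕ} : TestOk (tR3 c) (PrR3 c) := by
  intro k X T S R ε x t s ρ hε hX hT hS hR h
  have hM := kM_encl hε hT
  have := lR3_sound hε (ev_3 (c := c) (k := k) hε hM) hX hS hR hM (kK_encl hε hX hM) h
  unfold PrR3
  rcases h0 : Nat.beq k 0 with _ | _
  · rw [h0, cond_false] at this
    exact Or.inr this
  · rw [h0, cond_true] at this
    exact Or.inl this

lemma DF.m {x t y ρ : ℝ} (h : DF x t y ρ) : 0 ≤ mT t := by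
  have := h.t0
  unfold mT
  positivity

lemma DF.k {x t y ρ : ℝ} (h : DF x t y ρ) : 0 < ρ + kT t x := by
  have h1 := h.m
  have h2 := h.x1
  have h3 := h.r0
  have : 0 ≤ kT t x := mul_nonneg h1 (by linarith)
  linarith

theorem tF_ok {side : Bool} {B : F → F} {β : ℝ → ℝ} (hB : EvB B β) :
    TestOk (tF side B) (PrF side β) := by
  intro k X T Y R ε x t y ρ hε hX hT hY hR h hside hD
  unfold tF at h
  rcases h0 : Nat.beq k 63 with _ | _
  · rw [h0, cond_false] at h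
    have hM := kM_encl hε hT
    exact lF_sound hε (hB hε hT) hX hY hR hM (kK_encl hε hX hM) h hD.m hD.x0
      (by linarith [hD.x1]) hD.y0 hD.y1 hD.k
  · rw [h0, cond_true] at h
    rcases side with _ | _
    · rw [cond_false] at h
      exact absurd h Bool.false_ne_true
    · rw [cond_true] at h
      have := side_encl hε hT hR h
      exact absurd (hside rfl) (not_le.mpr this)

theorem tF3_ok {c : ℕ} : TestOk (tF3 c) (PrF3 c) := by
  intro k X T Y R ε x t y ρ hε hX hT hY hR h hD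
  have hM := kM_encl hε hT
  have := lF_sound hε (ev_3 (c := c) (k := Nat.mod k 2) hε hM) hX hY hR hM (kK_encl hε hX hM) h
    hD.m hD.x0 (by linarith [hD.x1]) hD.y0 hD.y1 hD.k
  rcases h0 : Nat.beq (Nat.mod k 2) 0 with _ | _
  · rw [h0, cond_false] at this
    exact Or.inr this
  · rw [h0, cond_true] at this
    exact Or.inl this

end RZ1

end Pool.Agent.Work.MP_b30479_gt.G2
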