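import Pool.Agent.Work.MP_b30479_gt.G2.Rng
import Pool.Agent.Work.MP_b30479_gt.G2.RLevS

/-!
# The ring variable at a maximiser: reflection, and it is not at `±1/2`
-/

namespace Pool.Agent.Work.MP_b30479_gt.G2

open Finset VOL Filter Topology

/-! ### the path of the ring variable -/

theorem th_of_le {c : ℝ} (h : |c| ≤ 1 / 4) : LT.th c = 1 := by
  unfold LT.th
  exact min_eq_left (by linarith only [h])

theorem th_of_ge {c : ℝ} (h : 1 / 4 ≤ |c|) : LT.th c = 2 - 4 * |c| := by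
  unfold LT.th
  exact min_eq_right (by linarith only [h])

theorem th_nonneg {c : ℝ} (h : |c| ≤ 1 / 2) : 0 ≤ LT.th c := by
  unfold LT.th
  apply le_min <;> linarith only [h]

theorem th_pos {c : ℝ} (h : |c| < 1 / 2) : 0 < LT.th c := by
  unfold LT.th
  apply lt_min <;> linarith only [h]

theorem th_le_one (c : ℝ) : LT.th c ≤ 1 := by
  unfold LT.th
  exact min_le_left _ _

theorem th_neg (c : ℝ) : LT.th (-c) = LT.th c := by
  unfold LT.th
  rw [abs_neg]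

theorem zt_eq (ρ c : ℝ) : LT.zt ρ c = (c : ℂ) + ((ρ * LT.th c : ℝ) : ℂ) * Complex.I := rfl

theorem zt_half (ρ : ℝ) : LT.zt ρ (1 / 2) = 1 / 2 := by
  rw [zt_eq, th_of_ge (by norm_num)]
  norm_num

theorem zt_neg_half (ρ : ℝ) : LT.zt ρ (-(1 / 2)) = -(1 / 2) := by
  rw [zt_eq, th_of_ge (by norm_num)]
  norm_num

theorem fR_half (w : ℂ) : fR w (1 / 2) = Real.pi * |w.im| := by
  unfold fR
  rw [show w + 1 / 2 + 1 / 2 = w + 1 by ring, show w + 1 / 2 - 1 / 2 = w by ring, UU_add_one]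
  ring

theorem fR_neg_half (w : ℂ) : fR w (-(1 / 2)) = Real.pi * |w.im| := by
  unfold fR
  rw [show w + 1 / 2 + -(1 / 2) = w by ring, show w + 1 / 2 - -(1 / 2) = w + 1 by ring, UU_add_one]
  ring

theorem rg_half (b ρ : ℝ) (w w' : ℂ) :
    rg b ρ w w' (1 / 2) = Real.pi * |w.im| + Real.pi * |w'.im| := by
  unfold rg
  rw [zt_half, fR_half, fR_half, th_of_ge (by norm_num)]
  norm_num

theorem rg_neg_half (b ρ : ℝ) (w w' : ℂ) :
    rg b ρ w w' (-(1 / 2)) = Real.pi * |w.im| + Real.pi * |w'.im| := by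
  unfold rg
  rw [zt_neg_half, fR_neg_half, fR_neg_half, th_of_ge (by norm_num)]
  norm_num

/-! ### reflection -/

/-- `0` for a height `≤ 0`, `1` otherwise -/
noncomputable def kp (w : ℂ) : ℝ := if w.im ≤ 0 then 0 else 1

theorem kp_le_one (w : ℂ) : kp w ≤ 1 := by
  unfold kp
  split_ifs <;> norm_num

theorem kp_nonneg (w : ℂ) : 0 ≤ kp w := by
  unfold kp
  split_ifs <;> norm_num

theorem kp_of_le {w : ℂ} (h : w.im ≤ 0) : kp w = 0 := if_pos h

theorem fR_reflect_le {w : ℂ} {σ η : ℝ} (hσ : 0 ≤ σ) (hσ' : σ ≤ 1 / 2) (hη : 0 ≤ η) :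
    fR w (σ + η * Complex.I) ≤ fR w (-σ + η * Complex.I) + 2 * Real.pi * η * kp w := by
  by_cases hw : w.im ≤ 0
  · rw [kp_of_le hw, mul_zero, add_zero]
    exact fR_reflect hw hσ hη
  have hk : kp w = 1 := if_neg hw
  push Not at hw
  rw [hk, mul_one]
  have hpi := Real.pi_pos
  have e1 : |w.im + η| = w.im + η := abs_of_nonneg (by linarith only [hη, hw])
  have h1 : |w.im - η| ≤ |w.im + η| := by
    rw [e1, abs_le]
    constructor <;> linarith only [hw, hη]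
  have h2 : w.im - η ≤ |w.im - η| := le_abs_self _
  have key := Lr_diff_mono (a := w.re + 1 / 2 - σ + 1) (b := w.re + 1 / 2 + σ) (by linarith only [hσ'])
    (abs_nonneg (w.im - η)) h1
  rw [DT.Lr_add_one (abs_nonneg _), DT.Lr_add_one (abs_nonneg _)] at key
  unfold fR UU
  have ui : (w + 1 / 2 + (σ + η * Complex.I)).im = w.im + η := by simp
  have ur : (w + 1 / 2 + (σ + η * Complex.I)).re = w.re + 1 / 2 + σ := by simp
  have vi : (w + 1 / 2 - (σ + η * Complex.I)).im = w.im - η := by simp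
  have vr : (w + 1 / 2 - (σ + η * Complex.I)).re = w.re + 1 / 2 - σ := by simp
  have ui' : (w + 1 / 2 + (-σ + η * Complex.I)).im = w.im + η := by simp
  have ur' : (w + 1 / 2 + (-σ + η * Complex.I)).re = w.re + 1 / 2 - σ := by
    simp
    try ring
  have vi' : (w + 1 / 2 - (-σ + η * Complex.I)).im = w.im - η := by simp
  have vr' : (w + 1 / 2 - (-σ + η * Complex.I)).re = w.re + 1 / 2 + σ := by
    simp
    try ring
  rw [ui, ur, vi, vr, ui', ur', vi', vr']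
  nlinarith only [key, hpi, e1, h2]

theorem RM.two_b_le {b ρ σ : ℝ} {w w' : ℂ} (h : RM b ρ w w' σ) (hσ : |σ| < 1 / 2) :
    2 * b * σ ≤ kp w + kp w' := by
  have hpi := Real.pi_pos
  rcases le_or_gt σ 0 with h0 | h0
  · have := mul_nonneg (show 0 ≤ 2 * b by linarith only [h, h.b4]) (neg_nonneg.mpr h0)
    linarith only [this, kp_nonneg w, kp_nonneg w']
  · have hη : 0 < ρ * LT.th σ := mul_pos h.ρ0 (th_pos hσ)
    have h1 := h.mx (-σ) (by rw [abs_neg]; exact hσ.le)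
    unfold rg at h1
    rw [zt_eq, zt_eq, th_neg] at h1
    set η := ρ * LT.th σ
    have hs := (abs_lt.mp hσ).2
    have h2 := fR_reflect_le (w := w) h0.le hs.le hη.le
    have h3 := fR_reflect_le (w := w') h0.le hs.le hη.le
    rw [Complex.ofReal_neg] at h1
    have h4 : 2 * Real.pi * η * (2 * b * σ) ≤ 2 * Real.pi * η * (kp w + kp w') := by
      linarith only [h1, h2, h3]
    exact le_of_mul_le_mul_left h4 (by positivity)

/-- upper location of the ring variable -/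
theorem RM.le_quarter {b ρ σ : ℝ} {w w' : ℂ} (h : RM b ρ w w' σ) (hσ : |σ| < 1 / 2) :
    σ ≤ 1 / 4 := by
  have h1 := h.two_b_le hσ
  have h2 := h.b4
  have h3 := kp_le_one w
  have h4 := kp_le_one w'
  nlinarith only [h1, h2, h3, h4]

theorem RM.nonpos {b ρ σ : ℝ} {w w' : ℂ} (h : RM b ρ w w' σ) (hσ : |σ| < 1 / 2)
    (hw : w.im ≤ 0) (hw' : w'.im ≤ 0) : σ ≤ 0 := by
  have h1 := h.two_b_le hσ
  have h2 := h.b4
  rw [kp_of_le hw, kp_of_le hw'] at h1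
  nlinarith only [h1, h2]

/-! ### not at `±1/2` -/

/-- first-order expansion from below at `-1/2` -/
def HF (ρ : ℝ) (w : ℂ) (κ : ℝ) : Prop := ∀ ε > 0, ∀ᶠ s : ℝ in 𝓝[>] 0,
  Real.pi * |w.im| + (4 * Real.pi * ρ * κ - ε) * s ≤ fR w (LT.zt ρ (-(1 / 2) + s))

theorem HF_zero (ρ : ℝ) : HF ρ 0 0 := by
  intro ε hε
  filter_upwards [self_mem_nhdsWithin] with s hs
  rw [fR_zero]
  have : 0 < s := hs
  simp only [Complex.zero_im, abs_zero, mul_zero, zero_add, zero_sub]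
  nlinarith only [hε, this]

theorem zt_near {ρ s : ℝ} (h0 : 0 < s) (h1 : s < 1 / 4) : LT.zt ρ (-(1 / 2) + s) =
    -(1 / 2) + (s : ℂ) * (1 + 4 * ρ * Complex.I) := by
  have h2 : |-(1 / 2) + s| = 1 / 2 - s := by
    rw [abs_of_neg (by linarith only [h0, h1])]
    ring
  rw [zt_eq, th_of_ge (by rw [h2]; linarith only [h1]), h2]
  push_cast
  ring

theorem HF_strip {ρ : ℝ} {w : ℂ} (hw : w ∈ strip) {κ : ℝ}
    (hκ : ∀ s : ℝ, 0 < s → Real.pi * |w.im| + 4 * Real.pi * ρ * κ * s ≤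
      Real.pi * |w.im - 4 * ρ * s|) : HF ρ w κ := by
  intro ε hε
  set δ : ℂ := 1 + 4 * ρ * Complex.I with hδ
  have hc : ∀ c : ℝ, HasDerivAt (fun s : ℝ => w + s * (c * δ)) (c * δ) 0 := by
    intro c
    have := ((Complex.ofRealCLM.hasDerivAt (x := (0 : ℝ))).mul_const ((c : ℂ) * δ)).const_add w
    simpa using this
  have e0 : ∀ c : ℝ, w + ((0 : ℝ) : ℂ) * (c * δ) = w := fun c => by simp
  have h1 := hasDerivAt_UU (hc 1) (Or.inr (by rw [e0]; exact hw))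
  have h2 := hasDerivAt_UU (hc (-1)) (Or.inr (by rw [e0]; exact hw))
  have h3 := h1.add h2
  rw [e0, e0] at h3
  have h4 : HasDerivAt (fun s : ℝ => UU (w + s * (((1 : ℝ) : ℂ) * δ)) +
      UU (w + s * (((-1 : ℝ) : ℂ) * δ))) 0 0 := by
    refine h3.congr_deriv ?_
    simp only [Complex.ofReal_one, one_mul, Complex.ofReal_neg, neg_mul, Complex.neg_re,
      Complex.neg_im]
    ring
  have h5 := (hasDerivAt_iff_isLittleO.mp h4).def hε
  have h6 : ∀ᶠ s : ℝ in 𝓝[>] (0 : ℝ), ‖UU (w + s * (((1 : ℝ) : ℂ) * δ)) +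
      UU (w + s * (((-1 : ℝ) : ℂ) * δ)) - (UU (w + ((0 : ℝ) : ℂ) * (((1 : ℝ) : ℂ) * δ)) +
      UU (w + ((0 : ℝ) : ℂ) * (((-1 : ℝ) : ℂ) * δ))) - (s - 0) • (0 : ℝ)‖ ≤ ε * ‖s - 0‖ :=
    h5.filter_mono nhdsWithin_le_nhds
  have h7 : ∀ᶠ s : ℝ in 𝓝[>] (0 : ℝ), s < 1 / 4 := by
    have : Set.Iio (1 / 4 : ℝ) ∈ 𝓝 (0 : ℝ) := Iio_mem_nhds (by norm_num)
    exact nhdsWithin_le_nhds this
  filter_upwards [h6, h7, self_mem_nhdsWithin] with s h8 h9 h10
  have hs : 0 < s := h10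
  rw [e0, e0, sub_zero, Real.norm_eq_abs, Real.norm_eq_abs, abs_of_pos hs] at h8
  have h11 := (abs_le.mp h8).1
  rw [zt_near hs h9]
  unfold fR
  have g1 : w + 1 / 2 + (-(1 / 2) + (s : ℂ) * δ) = w + s * (((1 : ℝ) : ℂ) * δ) := by
    push_cast
    ring
  have g2 : w + 1 / 2 - (-(1 / 2) + (s : ℂ) * δ) = w + s * (((-1 : ℝ) : ℂ) * δ) + 1 := by
    push_cast
    ring
  rw [g1, g2, UU_add_one]
  have g3 : (w + s * (((-1 : ℝ) : ℂ) * δ)).im = w.im - 4 * ρ * s := by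
    rw [hδ]
    simp
    ring
  rw [g3]
  have := hκ s hs
  simp only [smul_zero, sub_zero] at h11
  linarith only [this, h11]

theorem HF_neg {ρ : ℝ} (hρ : 0 ≤ ρ) {w : ℂ} (hw : w ∈ strip) : HF ρ w (-1) := by
  have hpi := Real.pi_pos
  apply HF_strip hw
  intro s hs
  have h1 : |w.im| ≤ |w.im - 4 * ρ * s| + |4 * ρ * s| := by
    have := abs_add_le (w.im - 4 * ρ * s) (4 * ρ * s)
    rwa [sub_add_cancel] at this
  rw [abs_of_nonneg (show 0 ≤ 4 * ρ * s by positivity)] at h1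
  nlinarith only [hpi, h1]

theorem HF_pos {ρ : ℝ} (hρ : 0 ≤ ρ) {w : ℂ} (hw : w ∈ strip) (ht : w.im ≤ 0) : HF ρ w 1 := by
  have hpi := Real.pi_pos
  apply HF_strip hw
  intro s hs
  have h1 : 0 ≤ 4 * ρ * s := by positivity
  rw [abs_of_nonpos ht, abs_of_nonpos (by linarith only [ht, h1])]
  nlinarith only []

/-- some point near `-1/2` is better than `-1/2` -/
theorem exists_rg_gt {b ρ κ κ' : ℝ} (hρ : 0 < ρ) {w w' : ℂ} (h : HF ρ w κ) (h' : HF ρ w' κ')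
    (hb : 0 < b - 2 + κ + κ') : ∃ c, |c| ≤ 1 / 2 ∧ rg b ρ w w' (-(1 / 2)) < rg b ρ w w' c := by
  have hpi := Real.pi_pos
  set ε := Real.pi * ρ * (b - 2 + κ + κ') with hε
  have hε0 : 0 < ε := by positivity
  have h7 : ∀ᶠ s : ℝ in 𝓝[>] (0 : ℝ), s < 1 / 4 := by
    have : Set.Iio (1 / 4 : ℝ) ∈ 𝓝 (0 : ℝ) := Iio_mem_nhds (by norm_num)
    exact nhdsWithin_le_nhds this
  have h8 : ∀ᶠ s : ℝ in 𝓝[>] (0 : ℝ), 8 * |b| * s < b - 2 + κ + κ' := by
    have h9 : Tendsto (fun s : ℝ => 8 * |b| * s) (𝓝[>] 0) (𝓝 (8 * |b| * 0)) :=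
      (tendsto_nhdsWithin_of_tendsto_nhds tendsto_id).const_mul _
    rw [mul_zero] at h9
    exact h9.eventually (gt_mem_nhds hb)
  obtain ⟨s, h1, h2, h3, h4, h5⟩ := ((h ε hε0).and ((h' ε hε0).and (h7.and (h8.and
    self_mem_nhdsWithin)))).exists
  have hs : 0 < s := h5
  have habs : |-(1 / 2) + s| = 1 / 2 - s := by
    rw [abs_of_neg (by linarith only [h3, h5])]
    ring
  refine ⟨-(1 / 2) + s, by rw [habs]; linarith only [h5], ?_⟩
  rw [rg_neg_half]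
  unfold rg
  have hth : LT.th (-(1 / 2) + s) = 4 * s := by
    rw [th_of_ge (by rw [habs]; linarith only [h3]), habs]
    ring
  rw [hth]
  have hb1 : b * s ≤ |b| * s := mul_le_mul_of_nonneg_right (le_abs_self b) hs.le
  have e1 : -(2 * Real.pi * (ρ * (4 * s)) * (b * (-(1 / 2) + s) + 1)) =
      4 * Real.pi * ρ * s * (b - 2) - 8 * Real.pi * ρ * s * (b * s) := by ring
  rw [e1]
  have e2 : 8 * Real.pi * ρ * s * (b * s) ≤ Real.pi * ρ * s * (b - 2 + κ + κ') := by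
    have : b * s * 8 ≤ b - 2 + κ + κ' := by linarith only [h4, hb1]
    have h6 : 0 ≤ Real.pi * ρ * s := by positivity
    nlinarith only [this, h6, mul_le_mul_of_nonneg_left this h6]
  have e3 : 0 < Real.pi * ρ * s * (b - 2 + κ + κ') := by positivity
  rw [hε] at h1 h2
  nlinarith only [h1, h2, e2, e3]

/-- a maximiser is not at `±1/2` if `b > 4` or one of the heights is `≤ 0` -/
theorem RM.lt_half_of {b ρ σ : ℝ} {w w' : ℂ} (h : RM b ρ w w' σ) (hw : w = 0 ∨ w ∈ strip)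
    (hw' : w' = 0 ∨ w' ∈ strip) (hq : 4 < b ∨ w.im ≤ 0 ∨ w'.im ≤ 0) : |σ| < 1 / 2 := by
  by_contra hcon
  push Not at hcon
  have h1 : |σ| = 1 / 2 := le_antisymm h.mem hcon
  have h2 : rg b ρ w w' σ = rg b ρ w w' (-(1 / 2)) := by
    rcases (abs_eq (by norm_num : (0 : ℝ) ≤ 1 / 2)).mp h1 with h3 | h3
    · rw [h3, rg_half, rg_neg_half]
    · rw [h3]
  have hb := h.b4
  have hk : ∀ {w : ℂ}, (w = 0 ∨ w ∈ strip) → ∃ κ : ℝ, HF ρ w κ ∧ -1 ≤ κ ∧ (w.im ≤ 0 → 0 ≤ κ) := by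
    intro w hw
    rcases hw with hw | hw
    · rw [hw]
      exact ⟨0, HF_zero ρ, by norm_num, fun _ => le_rfl⟩
    · by_cases ht : w.im ≤ 0
      · exact ⟨1, HF_pos h.ρ0.le hw ht, by norm_num, fun _ => by norm_num⟩
      · exact ⟨-1, HF_neg h.ρ0.le hw, le_rfl, fun h => absurd h ht⟩
  obtain ⟨κ, k1, k2, k3⟩ := hk hw
  obtain ⟨κ', l1, l2, l3⟩ := hk hw'
  have hpos : 0 < b - 2 + κ + κ' := by
    rcases hq with hq | hq | hq
    · linarith only [k2, l2, hq]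
    · linarith only [hb, l2, k3, hq, k3 hq]
    · linarith only [hb, k2, l3, hq, l3 hq]
  obtain ⟨c, hc, hlt⟩ := exists_rg_gt h.ρ0 k1 l1 hpos
  have := h.mx c hc
  rw [h2] at this
  linarith only [hlt, this]

end Pool.Agent.Work.MP_b30479_gt.G2
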