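import Pool.Agent.Work.MP_b30479_gt.G2.RngC

/-!
# Upper location of the ring variable with positive heights
-/

namespace Pool.Agent.Work.MP_b30479_gt.G2

open Finset VOL Filter Topology

variable {b ρ σ : ℝ} {w w' : ℂ} {k k' : RKe}

/-- comparison of two values of `LL` on a vertical line -/
theorem LL_vert_le {u v : ℂ} {t η δ : ℝ} (hr : u.re = v.re) (hu : u.im = t + η)
    (hv : v.im = t - η) (ht : 0 ≤ t) (hη : 0 ≤ η) (hδ : 0 < δ)
    (hc : δ ≤ 1 - Real.cos (2 * Real.pi * v.re)) :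
    LL u - LL v ≤ Real.sinh (2 * Real.pi * t) * Real.sinh (2 * Real.pi * η) / δ := by
  have hpi := Real.pi_pos
  rw [LL_eq', LL_eq', hr, hu, hv]
  set c := Real.cos (2 * Real.pi * v.re)
  have h1 := Real.one_le_cosh (2 * Real.pi * (t - η))
  have e1 : Real.cosh (2 * Real.pi * (t + η)) - Real.cosh (2 * Real.pi * (t - η)) =
      2 * (Real.sinh (2 * Real.pi * t) * Real.sinh (2 * Real.pi * η)) := by
    rw [mul_add, mul_sub, Real.cosh_add, Real.cosh_sub]
    ring
  have s1 : 0 ≤ Real.sinh (2 * Real.pi * t) := by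
    rw [Real.sinh_nonneg_iff]
    positivity
  have s2 : 0 ≤ Real.sinh (2 * Real.pi * η) := by
    rw [Real.sinh_nonneg_iff]
    positivity
  have s3 := mul_nonneg s1 s2
  set B := 2 * Real.cosh (2 * Real.pi * (t - η)) - 2 * c with hB
  set A := 2 * Real.cosh (2 * Real.pi * (t + η)) - 2 * c with hA
  set S := Real.sinh (2 * Real.pi * t) * Real.sinh (2 * Real.pi * η)
  have hB0 : 2 * δ ≤ B := by rw [hB]; linarith only [hc, h1]
  have hAB : A = B + 4 * S := by rw [hA, hB]; linarith only [e1]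
  have hA0 : 0 < A := by rw [hAB]; linarith only [hδ, hc, h1, s3]
  have hBp : 0 < B := by linarith only [hδ, hc, h1]
  have h3 := Real.log_le_sub_one_of_pos (div_pos hA0 hBp)
  rw [Real.log_div hA0.ne' hBp.ne'] at h3
  have h4 : A / B - 1 = 4 * S / B := by
    rw [hAB]
    field_simp
    ring
  have h5 : 4 * S / B ≤ 4 * S / (2 * δ) := by
    apply div_le_div_of_nonneg_left (by linarith only [s3]) (by linarith only [hδ]) hB0
  have h6 : 4 * S / (2 * δ) = 2 * (S / δ) := by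
    field_simp
    ring
  linarith only [h3, h4, h5, h6]

section
open NumI NumI.E

private theorem n1 : Real.sinh (2 * Real.pi * (6 / 100)) ≤ 39 / 100 := by
  have g : chk [sub (q 39 100) (sinh (mul (mul (q 2 1) pi) (q 6 100)))] 10 [V.of 1 0 0] = true := by
    decide +kernel
  have h := pos_of_chk (chk1 g (by norm_num) (x := 0) (by norm_num) (by norm_num))
  simp only [E.val] at h
  norm_num at h ⊢
  linarith only [h]

private theorem n2 : Real.sinh (2 * Real.pi * (11 / 100)) ≤ 748 / 1000 := by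
  have g : chk [sub (q 748 1000) (sinh (mul (mul (q 2 1) pi) (q 11 100)))] 10 [V.of 1 0 0] = true := by
    decide +kernel
  have h := pos_of_chk (chk1 g (by norm_num) (x := 0) (by norm_num) (by norm_num))
  simp only [E.val] at h
  norm_num at h ⊢
  linarith only [h]

private theorem n3 : Real.cos (Real.pi * (15 / 100)) ≤ 8911 / 10000 := by
  have g : chk [sub (q 8911 10000) (cosPi (q 15 100))] 10 [V.of 1 0 0] = true := by
    decide +kernel
  have h := pos_of_chk (chk1 g (by norm_num) (x := 0) (by norm_num) (by norm_num))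
  simp only [E.val] at h
  norm_num at h ⊢
  linarith only [h]

private theorem n4 : Real.cos (Real.pi * (4 / 10)) ≤ 3091 / 10000 := by
  have g : chk [sub (q 3091 10000) (cosPi (q 4 10))] 10 [V.of 1 0 0] = true := by
    decide +kernel
  have h := pos_of_chk (chk1 g (by norm_num) (x := 0) (by norm_num) (by norm_num))
  simp only [E.val] at h
  norm_num at h ⊢
  linarith only [h]

end

theorem sinh_small {t η : ℝ} (ht0 : 0 ≤ t) (ht : t ≤ 6 / 100) (hη0 : 0 ≤ η) (hη : η ≤ 11 / 100) :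
    0 ≤ Real.sinh (2 * Real.pi * t) * Real.sinh (2 * Real.pi * η) ∧
    Real.sinh (2 * Real.pi * t) * Real.sinh (2 * Real.pi * η) ≤ 266 / 100 * η := by
  have hpi := Real.pi_pos
  have a1 : Real.sinh (2 * Real.pi * t) ≤ 39 / 100 := by
    refine le_trans ?_ n1
    rw [Real.sinh_le_sinh]
    nlinarith only [ht, hpi]
  have a2 : Real.sinh (2 * Real.pi * η) ≤ η / (11 / 100) * (748 / 1000) := by
    have h := sinh_mul_le (l := η / (11 / 100)) (z := 2 * Real.pi * (11 / 100)) (by positivity)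
      ((div_le_one (by norm_num)).mpr hη) (by positivity)
    rw [show η / (11 / 100) * (2 * Real.pi * (11 / 100)) = 2 * Real.pi * η by field_simp] at h
    refine h.trans (mul_le_mul_of_nonneg_left n2 (by positivity))
  have s1 : 0 ≤ Real.sinh (2 * Real.pi * t) := by
    rw [Real.sinh_nonneg_iff]
    positivity
  have s2 : 0 ≤ Real.sinh (2 * Real.pi * η) := by
    rw [Real.sinh_nonneg_iff]
    positivity
  refine ⟨mul_nonneg s1 s2, ?_⟩
  calc _ ≤ 39 / 100 * (η / (11 / 100) * (748 / 1000)) := by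
        apply mul_le_mul a1 a2 s2 (by norm_num)
    _ ≤ _ := by
      have : η / (11 / 100) = η * (100 / 11) := by ring
      rw [this]
      nlinarith only [hη0]

/-- `1 - cos 2πy` away from the integers -/
theorem one_sub_cos_ge {y a : ℝ} (ha0 : 0 ≤ a) (ha : a ≤ 1 / 2) (h0 : a ≤ y) (h1 : y ≤ 1 - a) :
    1 - Real.cos (Real.pi * (2 * a)) ≤ 1 - Real.cos (2 * Real.pi * y) := by
  have hpi := Real.pi_pos
  have h : Real.cos (2 * Real.pi * y) ≤ Real.cos (Real.pi * (2 * a)) := by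
    rcases le_total y (1 / 2) with h2 | h2
    · apply Real.cos_le_cos_of_nonneg_of_le_pi
      · positivity
      · nlinarith only [hpi, h2]
      · nlinarith only [h0, hpi]
    · rw [← Real.cos_two_pi_sub]
      apply Real.cos_le_cos_of_nonneg_of_le_pi
      · positivity
      · nlinarith only [hpi, h2]
      · nlinarith only [h1, hpi]
  linarith only [h]

theorem Dm_zero (w ζ : ℂ) : Dm 0 w ζ = LL (w + 1 / 2 + ζ) - LL (w + 1 / 2 - ζ) := by
  unfold Dm Dq
  ring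

/-- the even part of the derivative in the ring variable is small -/
theorem Dm_even_le {t x τ η : ℝ} (ht0 : 0 ≤ t) (ht : t ≤ 6 / 100) (hη0 : 0 ≤ η)
    (hη : η ≤ 11 / 100) (hx0 : 0 ≤ x) (hx : x ≤ 3 / 10) (hτ0 : 0 ≤ τ) (hτ : τ ≤ 1 / 8)
    (hw : w = x + t * Complex.I) :
    Dm 0 w ((τ : ℂ) + η * Complex.I) + Dm 0 w (((-τ : ℝ) : ℂ) + η * Complex.I) ≤ 29 * η := by
  have hpi := Real.pi_pos
  obtain ⟨k0, k1⟩ := sinh_small ht0 ht hη0 hη
  rw [Dm_zero, Dm_zero]
  have h1 := LL_vert_le (u := w + 1 / 2 + ((τ : ℂ) + η * Complex.I))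
    (v := w + 1 / 2 - (((-τ : ℝ) : ℂ) + η * Complex.I)) (t := t) (η := η) (δ := 1089 / 10000)
    (by rw [hw]; simp) (by rw [hw]; simp) (by rw [hw]; simp) ht0 hη0 (by norm_num) (by
      have e : (w + 1 / 2 - (((-τ : ℝ) : ℂ) + η * Complex.I)).re = x + 1 / 2 + τ := by
        rw [hw]; simp
      rw [e]
      have := one_sub_cos_ge (y := x + 1 / 2 + τ) (a := 75 / 1000) (by norm_num) (by norm_num)
        (by linarith only [hx0, hτ0]) (by linarith only [hx, hτ])
      rw [show Real.pi * (2 * (75 / 1000)) = Real.pi * (15 / 100) by ring] at this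
      linarith only [this, n3])
  have h2 := LL_vert_le (u := w + 1 / 2 + (((-τ : ℝ) : ℂ) + η * Complex.I))
    (v := w + 1 / 2 - ((τ : ℂ) + η * Complex.I)) (t := t) (η := η) (δ := 6909 / 10000)
    (by rw [hw]; simp; ring) (by rw [hw]; simp) (by rw [hw]; simp) ht0 hη0 (by norm_num) (by
      have e : (w + 1 / 2 - ((τ : ℂ) + η * Complex.I)).re = x + 1 / 2 - τ := by
        rw [hw]; simp
      rw [e]
      have := one_sub_cos_ge (y := x + 1 / 2 - τ) (a := 2 / 10) (by norm_num) (by norm_num)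
        (by linarith only [hx0, hτ]) (by linarith only [hx, hτ0])
      rw [show Real.pi * (2 * (2 / 10)) = Real.pi * (4 / 10) by ring] at this
      linarith only [this, n4])
  have h3 : Real.sinh (2 * Real.pi * t) * Real.sinh (2 * Real.pi * η) / (1089 / 10000) ≤
      266 / 100 * η / (1089 / 10000) := by
    apply div_le_div_of_nonneg_right k1 (by norm_num)
  have h4 : Real.sinh (2 * Real.pi * t) * Real.sinh (2 * Real.pi * η) / (6909 / 10000) ≤
      266 / 100 * η / (6909 / 10000) := by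
    apply div_le_div_of_nonneg_right k1 (by norm_num)
  have h5 : 266 / 100 * η / (1089 / 10000) + 266 / 100 * η / (6909 / 10000) ≤ 29 * η := by
    have e1 : 266 / 100 * η / (1089 / 10000) = (26600 / 1089) * η := by ring
    have e2 : 266 / 100 * η / (6909 / 10000) = (26600 / 6909) * η := by ring
    rw [e1, e2]
    nlinarith only [hη0]
  linarith only [hη0, k1, h1, h2]

/-- the level derivative of `fR` -/
theorem hasDerivAt_fR_lev {w : ℂ} {a τ η : ℝ}
    (h1 : Complex.sin (Real.pi * (w + 1 / 2 + (((a * τ : ℝ) : ℂ) + η * Complex.I))) ≠ 0)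
    (h2 : Complex.sin (Real.pi * (w + 1 / 2 - (((a * τ : ℝ) : ℂ) + η * Complex.I))) ≠ 0) :
    HasDerivAt (fun τ : ℝ => fR w (((a * τ : ℝ) : ℂ) + η * Complex.I))
      (a * Dm 0 w (((a * τ : ℝ) : ℂ) + η * Complex.I)) τ := by
  have e1 : ∀ τ : ℝ, w + 1 / 2 + (((a * τ : ℝ) : ℂ) + η * Complex.I) =
      (w + 1 / 2 + η * Complex.I) + ((a * τ : ℝ) : ℂ) := fun τ => by ring
  have e2 : ∀ τ : ℝ, w + 1 / 2 - (((a * τ : ℝ) : ℂ) + η * Complex.I) =
      (w + 1 / 2 - η * Complex.I) + ((-a * τ : ℝ) : ℂ) := fun τ => by push_cast; ring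
  rw [e1] at h1
  rw [e2] at h2
  have d1 := hasDerivAt_UU_level _ a τ h1
  have d2 := hasDerivAt_UU_level _ (-a) τ h2
  rw [Dm_zero]
  unfold fR
  simp only [e1, e2]
  refine ((d1.add d2).sub_const _).congr_deriv ?_
  ring

/-- the ring variable with a hinge of small positive height: `f(σ) - f(-σ)` is small -/
theorem fR_odd_le {t x σ η : ℝ} (ht0 : 0 ≤ t) (ht : t ≤ 6 / 100) (hη0 : 0 < η)
    (hη : η ≤ 11 / 100) (hx0 : 0 ≤ x) (hx : x ≤ 3 / 10) (hσ0 : 0 ≤ σ) (hσ : σ ≤ 1 / 8)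
    (hw : w = x + t * Complex.I) :
    fR w ((σ : ℂ) + η * Complex.I) - fR w (((-σ : ℝ) : ℂ) + η * Complex.I) ≤ 29 * η * σ := by
  have hpi := Real.pi_pos
  have hstrip : ∀ u : ℂ, 0 < u.re → u.re < 1 → Complex.sin (Real.pi * u) ≠ 0 := fun u a b =>
    sin_ne_of_strip ⟨a, b⟩
  have hd : ∀ τ ∈ Set.Icc (0 : ℝ) (1 / 8), HasDerivAt
      (fun τ : ℝ => 29 * η * τ - (fR w (((1 * τ : ℝ) : ℂ) + η * Complex.I) -
        fR w (((-1 * τ : ℝ) : ℂ) + η * Complex.I)))
      (29 * η - (1 * Dm 0 w (((1 * τ : ℝ) : ℂ) + η * Complex.I) -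
        -1 * Dm 0 w (((-1 * τ : ℝ) : ℂ) + η * Complex.I))) τ := by
    intro τ hτ
    have a1 := hasDerivAt_fR_lev (w := w) (a := 1) (τ := τ) (η := η)
      (hstrip _ (by rw [hw]; simp; linarith only [hη0, hη, hx0, hτ, hτ.1]) (by rw [hw]; simp; linarith only [hη0, hη, hx, hτ, hτ.2]))
      (hstrip _ (by rw [hw]; simp; linarith only [hη0, hη, hx0, hτ, hτ.2]) (by rw [hw]; simp; linarith only [hη0, hη, hx, hτ, hτ.1]))
    have a2 := hasDerivAt_fR_lev (w := w) (a := -1) (τ := τ) (η := η)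
      (hstrip _ (by rw [hw]; simp; linarith only [hη0, hη, hx0, hτ, hτ.2]) (by rw [hw]; simp; linarith only [hη0, hη, hx, hτ, hτ.1]))
      (hstrip _ (by rw [hw]; simp; linarith only [hη0, hη, hx0, hτ, hτ.1]) (by rw [hw]; simp; linarith only [hη0, hη, hx, hτ, hτ.2]))
    have a3 : HasDerivAt (fun τ : ℝ => 29 * η * τ) (29 * η) τ := by
      simpa using (hasDerivAt_id τ).const_mul (29 * η)
    exact a3.sub (a1.sub a2)
  have hm : MonotoneOn (fun τ : ℝ => 29 * η * τ - (fR w (((1 * τ : ℝ) : ℂ) + η * Complex.I) -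
        fR w (((-1 * τ : ℝ) : ℂ) + η * Complex.I))) (Set.Icc 0 (1 / 8)) := by
    apply monotoneOn_of_deriv_nonneg (convex_Icc _ _)
    · exact fun τ hτ => (hd τ hτ).continuousAt.continuousWithinAt
    · intro τ hτ
      rw [interior_Icc] at hτ
      exact (hd τ ⟨hτ.1.le, hτ.2.le⟩).differentiableAt.differentiableWithinAt
    · intro τ hτ
      rw [interior_Icc] at hτ
      rw [(hd τ ⟨hτ.1.le, hτ.2.le⟩).deriv]
      have := Dm_even_le ht0 ht hη0.le hη hx0 hx hτ.1.le hτ.2.le hw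
      simp only [one_mul, neg_mul] at *
      linarith only [this]
  have h := hm (Set.left_mem_Icc.mpr (by norm_num)) ⟨hσ0, hσ⟩ hσ0
  simp only [mul_zero, one_mul, neg_mul, sub_self] at h
  simpa using h

/-- hinges for the upper location -/
def HUp (w : ℂ) : Prop := w.im ≤ 0 ∨ (0 ≤ w.re ∧ w.re ≤ 3 / 10 ∧ 0 < w.im ∧ w.im ≤ 6 / 100)

/-- **Upper location**, at most one positive height -/
theorem RM.nonpos_one (h : RM b ρ w w' σ) (hρ : ρ ≤ 11 / 100) (hσ : |σ| < 1 / 2) (h1 : w.im ≤ 0)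
    (h2 : HUp w') : σ ≤ 0 := by
  have hpi := Real.pi_pos
  have hpi3 := Real.pi_gt_three
  rcases h2 with h2 | ⟨x0, x1, t0, t1⟩
  · exact h.nonpos hσ h1 h2
  by_contra hcon
  push Not at hcon
  have hb := h.b4
  have hk := h.two_b_le hσ
  rw [kp_of_le h1] at hk
  have hk1 := kp_le_one w'
  have hσ8 : σ ≤ 1 / 8 := by
    have : 8 * σ ≤ 2 * b * σ := by nlinarith only [hcon, hb]
    linarith only [hk, hk1, this]
  have h3 := h.mx (-σ) (by rw [abs_neg]; exact hσ.le)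
  have hth : LT.th σ = 1 := th_of_le (by rw [abs_of_pos hcon]; linarith only [t0, t1, hσ8])
  unfold rg at h3
  rw [zt_eq, zt_eq, th_neg, hth, mul_one] at h3
  have a1 := fR_reflect (w := w) h1 hcon.le h.ρ0.le
  have a2 := fR_odd_le (w := w') (t := w'.im) (x := w'.re) (σ := σ) (η := ρ) t0.le t1 h.ρ0 hρ x0 x1
    hcon.le hσ8 (re_im_eq w')
  rw [Complex.ofReal_neg] at h3 a2
  have hρ0 := h.ρ0
  have a3 : 0 < ρ * σ := mul_pos hρ0 hcon
  have a4 : 4 * Real.pi * b * (ρ * σ) ≤ 29 * (ρ * σ) := by linarith only [h3, a1, a2]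
  have a5 : 4 * Real.pi * b ≤ 29 := le_of_mul_le_mul_right a4 a3
  nlinarith only [hpi3, hσ8, a3, a5, hρ, hcon, hpi, hb]

/-- first order condition to the left on the flat part, `σ > 0` -/
theorem RM.left_flat (h : RM b ρ w w' σ) (h0 : 0 < σ) (h1 : σ ≤ 1 / 4) (hw0 : 0 ≤ w.re)
    (hw : w.re ≤ 1 / 2) (ht : 0 < w.im + ρ) (hw0' : 0 ≤ w'.re) (hw' : w'.re ≤ 1 / 2)
    (ht' : 0 < w'.im + ρ) :
    0 ≤ -(2 * Real.pi * b * ρ) + Dm 0 w (σ + ρ * Complex.I) + Dm 0 w' (σ + ρ * Complex.I) := by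
  have hpi := Real.pi_pos
  have hρ := h.ρ0
  by_contra hcon
  push Not at hcon
  have hreg : ∀ {w : ℂ}, 0 ≤ w.re → w.re ≤ 1 / 2 → 0 < w.im + ρ →
      Complex.sin (Real.pi * (w + 1 / 2 + (((1 * σ : ℝ) : ℂ) + ρ * Complex.I))) ≠ 0 ∧
      Complex.sin (Real.pi * (w + 1 / 2 - (((1 * σ : ℝ) : ℂ) + ρ * Complex.I))) ≠ 0 := by
    intro w a0 a1 a2
    constructor
    · intro hs
      rw [Complex.sin_eq_zero_iff] at hs
      obtain ⟨k, hk⟩ := hs
      have h5 := congrArg Complex.im hk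
      have h6 : (Real.pi * (w + 1 / 2 + (((1 * σ : ℝ) : ℂ) + ρ * Complex.I))).im =
          Real.pi * (w.im + ρ) := by simp
      have h7 : ((k : ℂ) * Real.pi).im = 0 := by simp
      rw [h6, h7] at h5
      have h8 := mul_pos hpi a2
      linarith only [h5, h8]
    · apply sin_ne_of_strip
      constructor
      · simp
        linarith only [h0, h1, a0]
      · simp
        linarith only [h0, a1]
  have d1 := hasDerivAt_fR_lev (w := w) (a := 1) (τ := σ) (η := ρ) (hreg hw0 hw ht).1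
    (hreg hw0 hw ht).2
  have d2 := hasDerivAt_fR_lev (w := w') (a := 1) (τ := σ) (η := ρ) (hreg hw0' hw' ht').1
    (hreg hw0' hw' ht').2
  have d0 : HasDerivAt (fun τ : ℝ => -(2 * Real.pi * ρ * (b * τ + 1)))
      (-(2 * Real.pi * ρ * b)) σ := by
    have a2 : HasDerivAt (fun s : ℝ => b * s + 1) b σ := by
      simpa using ((hasDerivAt_id σ).const_mul b).add_const 1
    exact (a2.const_mul _).neg
  have d := (d0.add d1).add d2
  simp only [one_mul] at d
  set G := -(2 * Real.pi * ρ * b) + Dm 0 w (σ + ρ * Complex.I) + Dm 0 w' (σ + ρ * Complex.I)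
    with hG
  have hG0 : G < 0 := by rw [hG]; linarith only [hcon]
  -- a point to the left is better
  have h2 := hasDerivAt_iff_tendsto_slope.mp d
  have h3 := h2.eventually (gt_mem_nhds (show G < 0 from hG0))
  have h4 : ∀ᶠ s : ℝ in 𝓝[≠] σ, 0 < s := by
    have : Set.Ioi (0 : ℝ) ∈ 𝓝 σ := Ioi_mem_nhds h0
    exact nhdsWithin_le_nhds this
  have h5 : ∃ᶠ s : ℝ in 𝓝[≠] σ, s < σ := by
    have h6 : ∀ᶠ s : ℝ in 𝓝[<] σ, s < σ := self_mem_nhdsWithin
    exact (h6.frequently).filter_mono (nhdsWithin_mono _ fun y hy => ne_of_lt hy)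
  obtain ⟨s, hs, hs3, hs4⟩ := (h5.and_eventually (h3.and h4)).exists
  rw [slope_def_field] at hs3
  have hneg : s - σ < 0 := by linarith only [hs]
  have h7 := (div_neg_iff.mp hs3).resolve_right (fun h => by linarith only [hs, h, h.2])
  have hs0 : |s| ≤ 1 / 4 := by
    rw [abs_of_pos hs4]
    linarith only [h1, hs]
  have h8 := h.mx s (by linarith only [h1, hs, hs4, hs0])
  have hσ0 : |σ| ≤ 1 / 4 := by
    rw [abs_of_pos h0]
    exact h1
  unfold rg at h8
  rw [zt_eq, zt_eq, th_of_le hs0, th_of_le hσ0, mul_one] at h8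
  simp only [Pi.add_apply] at h7
  linarith only [h7, h8, h7.1]

/-- the derivative in the ring variable on the flat part, `σ > 0` -/
theorem Dm_flat_core (hρ0 : 0 < ρ) (h0 : 0 < σ) (hq : σ ≤ 1 / 4) (a0 : 0 ≤ w.re) (a1 : w.re ≤ 1 / 2)
    (ha : 0 < w.im + ρ) {B0 : ℝ} (hB0 : 0 < B0)
    (hB : B0 ≤ 2 * Real.cosh (2 * Real.pi * (w.im - ρ)) - 2 * Real.cos (2 * Real.pi * (w.re + 1 / 2 - σ)))
    (hS : Real.sinh (2 * Real.pi * w.im) * Real.sinh (2 * Real.pi * ρ) ≤ 2 * ρ * B0) :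
    Dm 0 w (σ + ρ * Complex.I) ≤ 4 * ρ := by
  have hpi := Real.pi_pos
  rw [Dm_zero, LL_eq', LL_eq']
  have ui : (w + 1 / 2 + (σ + ρ * Complex.I)).im = w.im + ρ := by simp
  have ur : (w + 1 / 2 + (σ + ρ * Complex.I)).re = w.re + 1 / 2 + σ := by simp
  have vi : (w + 1 / 2 - (σ + ρ * Complex.I)).im = w.im - ρ := by simp
  have vr : (w + 1 / 2 - (σ + ρ * Complex.I)).re = w.re + 1 / 2 - σ := by simp
  rw [ui, ur, vi, vr]
  have hcc : Real.cos (2 * Real.pi * (w.re + 1 / 2 - σ)) ≤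
      Real.cos (2 * Real.pi * (w.re + 1 / 2 + σ)) := by
    have e1 : Real.cos (2 * Real.pi * (w.re + 1 / 2 - σ)) - Real.cos (2 * Real.pi *
        (w.re + 1 / 2 + σ)) = -(2 * Real.sin (2 * Real.pi * w.re) *
        Real.sin (2 * Real.pi * σ)) := by
      rw [show 2 * Real.pi * (w.re + 1 / 2 - σ) = (2 * Real.pi * w.re - 2 * Real.pi * σ) +
        Real.pi by ring, show 2 * Real.pi * (w.re + 1 / 2 + σ) = (2 * Real.pi * w.re +
        2 * Real.pi * σ) + Real.pi by ring, Real.cos_add_pi, Real.cos_add_pi, Real.cos_sub,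
        Real.cos_add]
      ring
    have s1 : 0 ≤ Real.sin (2 * Real.pi * w.re) := by
      apply Real.sin_nonneg_of_nonneg_of_le_pi <;> nlinarith only [h0, hq, a0, hpi, a1]
    have s2 : 0 ≤ Real.sin (2 * Real.pi * σ) := by
      apply Real.sin_nonneg_of_nonneg_of_le_pi <;> nlinarith only [h0, hpi, hq]
    have := mul_nonneg s1 s2
    linarith only [e1, this]
  set c := Real.cos (2 * Real.pi * (w.re + 1 / 2 - σ))
  set c' := Real.cos (2 * Real.pi * (w.re + 1 / 2 + σ))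
  have e1 : Real.cosh (2 * Real.pi * (w.im + ρ)) - Real.cosh (2 * Real.pi * (w.im - ρ)) =
      2 * (Real.sinh (2 * Real.pi * w.im) * Real.sinh (2 * Real.pi * ρ)) := by
    rw [mul_add, mul_sub, Real.cosh_add, Real.cosh_sub]
    ring
  set S := Real.sinh (2 * Real.pi * w.im) * Real.sinh (2 * Real.pi * ρ)
  set B := 2 * Real.cosh (2 * Real.pi * (w.im - ρ)) - 2 * c with hBd
  set A := 2 * Real.cosh (2 * Real.pi * (w.im + ρ)) - 2 * c' with hA
  have hAB : A ≤ B + 4 * S := by rw [hA, hBd]; linarith only [hcc, e1]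
  have hA0 : 0 < A := by
    have h5 : 1 < Real.cosh (2 * Real.pi * (w.im + ρ)) := by
      rw [Real.one_lt_cosh]
      positivity
    have := Real.cos_le_one (2 * Real.pi * (w.re + 1 / 2 + σ))
    rw [hA]
    linarith only [h5, this]
  have hBp : 0 < B := by linarith only [hB0, hB]
  have h3 := Real.log_le_sub_one_of_pos (div_pos hA0 hBp)
  rw [Real.log_div hA0.ne' hBp.ne'] at h3
  have h4 : A / B - 1 ≤ 8 * ρ := by
    rw [div_sub_one hBp.ne', div_le_iff₀ hBp]
    have : 2 * ρ * B0 ≤ 2 * ρ * B := mul_le_mul_of_nonneg_left hB (by positivity)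
    linarith only [hcc, hS, e1, this]
  linarith only [h3, h4]

/-- `0 < t ≤ 6/100`, `x ≤ 3/10` -/
theorem Dm_flat_pos (hρ0 : 0 < ρ) (hρ : ρ ≤ 11 / 100) (h0 : 0 < σ) (hq : σ ≤ 1 / 4) (a0 : 0 ≤ w.re)
    (a1 : w.re ≤ 3 / 10) (a2 : 0 < w.im) (a3 : w.im ≤ 6 / 100) :
    Dm 0 w (σ + ρ * Complex.I) ≤ 4 * ρ := by
  have hpi := Real.pi_pos
  obtain ⟨k0, k1⟩ := sinh_small a2.le a3 hρ0.le hρ
  have hc : 1 - Real.cos (Real.pi * (2 * (2 / 10))) ≤
      1 - Real.cos (2 * Real.pi * (w.re + 1 / 2 - σ)) :=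
    one_sub_cos_ge (by norm_num) (by norm_num) (by linarith only [hq, a0, a2, a3]) (by linarith only [h0, a1])
  rw [show Real.pi * (2 * (2 / 10)) = Real.pi * (4 / 10) by ring] at hc
  have hc2 := n4
  have h1 := Real.one_le_cosh (2 * Real.pi * (w.im - ρ))
  exact Dm_flat_core hρ0 h0 hq a0 (by linarith only [a1, a2, a3]) (by linarith only [hρ0, a2]) (B0 := 2 * (69 / 100)) (by norm_num)
    (by linarith only [a2, a3, hc, hc2, h1]) (by linarith only [hρ0, k1])

/-- `t ≤ 0` -/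
theorem Dm_flat_neg (hρ0 : 0 < ρ) (h0 : 0 < σ) (hq : σ ≤ 1 / 4) (a0 : 0 ≤ w.re)
    (a1 : w.re ≤ 1 / 2) (a2 : w.im ≤ 0) (ha : 0 < w.im + ρ) :
    Dm 0 w (σ + ρ * Complex.I) ≤ 4 * ρ := by
  have hpi := Real.pi_pos
  have h1 : 1 < Real.cosh (2 * Real.pi * (w.im - ρ)) := by
    rw [Real.one_lt_cosh]
    have : w.im - ρ < 0 := by linarith only [hρ0, a2]
    have := mul_neg_of_pos_of_neg (show 0 < 2 * Real.pi by positivity) this
    exact this.ne
  have h2 := Real.cos_le_one (2 * Real.pi * (w.re + 1 / 2 - σ))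
  refine Dm_flat_core hρ0 h0 hq a0 a1 ha (B0 := 2 * Real.cosh (2 * Real.pi * (w.im - ρ)) -
    2 * Real.cos (2 * Real.pi * (w.re + 1 / 2 - σ))) (by linarith only [h1, h2]) le_rfl ?_
  have h3 : Real.sinh (2 * Real.pi * w.im) * Real.sinh (2 * Real.pi * ρ) ≤ 0 := by
    apply mul_nonpos_of_nonpos_of_nonneg
    · rw [Real.sinh_nonpos_iff]
      exact mul_nonpos_of_nonneg_of_nonpos (by positivity) a2
    · rw [Real.sinh_nonneg_iff]
      positivity
  have : 0 ≤ 2 * ρ * (2 * Real.cosh (2 * Real.pi * (w.im - ρ)) -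
    2 * Real.cos (2 * Real.pi * (w.re + 1 / 2 - σ))) := mul_nonneg (by positivity) (by linarith only [h1, h2])
  linarith only [h3, this]

/-- `0 < t ≤ 1/1000` -/
theorem Dm_flat_ps (hρ0 : 4 / 100 ≤ ρ) (hρ : ρ ≤ 11 / 100) (h0 : 0 < σ) (hq : σ ≤ 1 / 4) (a0 : 0 ≤ w.re)
    (a1 : w.re ≤ 1 / 2) (a2 : 0 < w.im) (a3 : w.im ≤ 1 / 1000) :
    Dm 0 w (σ + ρ * Complex.I) ≤ 4 * ρ := by
  have hpi := Real.pi_pos
  have hpi3 := Real.pi_gt_three
  have hρ' : 0 < ρ := by linarith only [hρ0, a2, a3]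
  obtain ⟨k0, k1⟩ := sinh_small (t := 6 / 100) (by norm_num) le_rfl hρ'.le hρ
  have h1 : (2 * Real.pi * (39 / 1000)) ^ 2 / 2 ≤ Real.cosh (2 * Real.pi * (w.im - ρ)) - 1 := by
    have h2 : Real.cosh (2 * Real.pi * (w.im - ρ)) = 1 + 2 * Real.sinh (Real.pi * (ρ - w.im)) ^ 2 := by
      rw [← Real.cosh_neg, show -(2 * Real.pi * (w.im - ρ)) = 2 * (Real.pi * (ρ - w.im)) by ring,
        Real.cosh_two_mul, Real.cosh_sq]
      ring
    have h4 : Real.pi * (39 / 1000) ≤ Real.pi * (ρ - w.im) :=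
      mul_le_mul_of_nonneg_left (by linarith only [hρ0, a3]) hpi.le
    have h5 : Real.pi * (ρ - w.im) ≤ Real.sinh (Real.pi * (ρ - w.im)) :=
      Real.self_le_sinh_iff.2 (mul_nonneg hpi.le (by linarith only [hρ0, a2, a3]))
    have h3 : (Real.pi * (39 / 1000)) ^ 2 ≤ Real.sinh (Real.pi * (ρ - w.im)) ^ 2 :=
      pow_le_pow_left₀ (by positivity) (h4.trans h5) 2
    nlinarith only [h2, h3]
  have h2 := Real.cos_le_one (2 * Real.pi * (w.re + 1 / 2 - σ))
  refine Dm_flat_core hρ' h0 hq a0 a1 (by linarith only [hρ0, a2, a3]) (B0 := 5 / 100) (by norm_num) ?_ ?_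
  · have : (2 * 3 * (39 / 1000) : ℝ) ^ 2 ≤ (2 * Real.pi * (39 / 1000)) ^ 2 := by
      apply pow_le_pow_left₀ (by norm_num)
      linarith only [hpi3]
    norm_num at this
    linarith only [a2, a3, h1, h2, this]
  · have e : Real.sinh (2 * Real.pi * w.im) ≤ 1 / 60 * Real.sinh (2 * Real.pi * (6 / 100)) := by
      have h3 := sinh_mul_le (l := 1 / 60) (z := 2 * Real.pi * (6 / 100)) (by norm_num) (by norm_num)
        (by positivity)
      refine le_trans ?_ h3
      rw [Real.sinh_le_sinh]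
      nlinarith only [h0, hq, a3, hpi]
    have hs : 0 ≤ Real.sinh (2 * Real.pi * ρ) := by
      rw [Real.sinh_nonneg_iff]
      positivity
    have := mul_le_mul_of_nonneg_right e hs
    linarith only [hρ0, a2, a3, k1, this]

/-- **Upper location**, two positive heights -/
theorem RM.nonpos_of_Dm (h : RM b ρ w w' σ) (hσ : |σ| < 1 / 2)
    (hw0 : 0 ≤ w.re) (hw : w.re ≤ 1 / 2) (ht : 0 < w.im + ρ)
    (hw0' : 0 ≤ w'.re) (hw' : w'.re ≤ 1 / 2) (ht' : 0 < w'.im + ρ)
    (h1 : 0 < σ → σ ≤ 1 / 4 → Dm 0 w (σ + ρ * Complex.I) ≤ 4 * ρ)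
    (h2 : 0 < σ → σ ≤ 1 / 4 → Dm 0 w' (σ + ρ * Complex.I) ≤ 4 * ρ) : σ ≤ 0 := by
  have hpi := Real.pi_pos
  have hpi3 := Real.pi_gt_three
  by_contra hcon
  push Not at hcon
  have hb := h.b4
  have hρ0 := h.ρ0
  have hq := h.le_quarter hσ
  have key := h.left_flat hcon hq hw0 hw ht hw0' hw' ht'
  have b1 := h1 hcon hq
  have b2 := h2 hcon hq
  have : 8 * ρ < 2 * Real.pi * b * ρ := by
    apply mul_lt_mul_of_pos_right _ hρ0
    nlinarith only [hpi3, hcon, hq, hpi, hb]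
  linarith only [key, b1, b2, this]

/-- **Upper location**, two positive heights -/
theorem RM.nonpos_two (h : RM b ρ w w' σ) (hρ : ρ ≤ 11 / 100) (hσ : |σ| < 1 / 2)
    (hw0 : 0 ≤ w.re) (hw : w.re ≤ 3 / 10) (ht : 0 < w.im) (ht6 : w.im ≤ 6 / 100)
    (hw0' : 0 ≤ w'.re) (hw' : w'.re ≤ 3 / 10) (ht' : 0 < w'.im) (ht6' : w'.im ≤ 6 / 100) :
    σ ≤ 0 :=
  have hρ0 := h.ρ0
  h.nonpos_of_Dm hσ hw0 (by linarith only [hw, ht, ht6]) (by linarith only [ht, hρ0]) hw0' (by linarith only [ht, ht6, hw']) (by linarith only [ht', hρ0])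
    (fun h0 h1 => Dm_flat_pos hρ0 hρ h0 h1 hw0 hw ht ht6)
    (fun h0 h1 => Dm_flat_pos hρ0 hρ h0 h1 hw0' hw' ht' ht6')

end Pool.Agent.Work.MP_b30479_gt.G2
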