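import Pool.Agent.Work.MP_b30479_gt.G2.RngH

/-!
# Ring sides: more rows for the value move of a ring|ring hinge
-/

namespace Pool.Agent.Work.MP_b30479_gt.G2

open Finset VOL Filter Topology
open NumU (uu uu_neg uu_add_one uu_one_sub)

variable {x t σ η c a b s ρ T θ : ℝ}

/-! ### near the right end of the ring variable -/

section
open NumI NumI.E

/-- `x = var 0`, `T = var 1` -/
private def eP (θ θ2 : E) : E := sub (sub
  (mul (sub (q 1 1) (mul (cosPi (mul (q 2 1) (var 0))) (cosh (mul (mul (q 2 1) pi) (var 1)))))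
    (sub (q 1 1) (mul θ θ)))
  (mul (mul (mul (q 2 1) θ) (sinPi (mul (q 2 1) (var 0)))) (sinh (mul (mul (q 2 1) pi) (var 1)))))
  (mul (q 381 10000) (mul θ2 θ2))

private theorem rowA (h0 : 105 / 1000 ≤ x) (h1 : x ≤ 27 / 100) (h2 : 0 ≤ T) (h3 : T ≤ 385 / 10000) :
    0 < (1 - Real.cos (2 * Real.pi * x) * Real.cosh (2 * Real.pi * T)) * (1 - (293 / 1000) * (293 / 1000)) -
      2 * (293 / 1000) * Real.sin (2 * Real.pi * x) * Real.sinh (2 * Real.pi * T) -
      381 / 10000 * ((1 + (293 / 1000) * (293 / 1000)) * (1 + (293 / 1000) * (293 / 1000))) := by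
  have h : chk [eP (q 293 1000) (add (q 1 1) (mul (q 293 1000) (q 293 1000)))] 30
      [V.of 10000 1050 2700, V.of 10000 0 385] = true := by
    decide +kernel
  have hp := pos_of_chk (chk2 h (by norm_num) (x := x) (y := T)
    (by norm_num; linarith only [h0]) (by norm_num; linarith only [h1]) (by norm_num; linarith only [h2]) (by norm_num; linarith only [h3]))
  simp only [eP, E.val, NumI.lkR] at hp
  simp only [Int.cast_ofNat, Nat.cast_ofNat, Int.cast_one, Nat.cast_one, div_one] at hp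
  rw [show Real.pi * (2 * x) = 2 * Real.pi * x by ring] at hp
  linarith only [hp]

private theorem rowB (h0 : 105 / 1000 ≤ x) (h1 : x ≤ 27 / 100) (h2 : 0 ≤ T) (h3 : T ≤ 25 / 1000) :
    0 < (1 - Real.cos (2 * Real.pi * x) * Real.cosh (2 * Real.pi * T)) * (1 - (422 / 1000) * (422 / 1000)) -
      2 * (422 / 1000) * Real.sin (2 * Real.pi * x) * Real.sinh (2 * Real.pi * T) -
      381 / 10000 * ((1 + (422 / 1000) * (422 / 1000)) * (1 + (422 / 1000) * (422 / 1000))) := by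
  have h : chk [eP (q 422 1000) (add (q 1 1) (mul (q 422 1000) (q 422 1000)))] 30
      [V.of 10000 1050 2700, V.of 10000 0 250] = true := by
    decide +kernel
  have hp := pos_of_chk (chk2 h (by norm_num) (x := x) (y := T)
    (by norm_num; linarith only [h0]) (by norm_num; linarith only [h1]) (by norm_num; linarith only [h2]) (by norm_num; linarith only [h3]))
  simp only [eP, E.val, NumI.lkR] at hp
  simp only [Int.cast_ofNat, Nat.cast_ofNat, Int.cast_one, Nat.cast_one, div_one] at hp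
  rw [show Real.pi * (2 * x) = 2 * Real.pi * x by ring] at hp
  linarith only [hp]

private theorem nA : Real.sinh (Real.pi * (725 / 10000) / 4) ≤ 293 / 1000 * Real.sin (Real.pi / 16) := by
  have g : chk [sub (mul (q 293 1000) (sinPi (q 1 16))) (sinh (mul pi (q 725 40000)))] 10 [V.of 1 0 0] = true := by
    decide +kernel
  have h := pos_of_chk (chk1 g (by norm_num) (x := 0) (by norm_num) (by norm_num))
  simp only [E.val] at h
  simp only [Int.cast_ofNat, Nat.cast_ofNat, Int.cast_one] at h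
  rw [show Real.pi * (725 / 40000) = Real.pi * (725 / 10000) / 4 by ring,
    show Real.pi * (1 / 16) = Real.pi / 16 by ring] at h
  linarith only [h]

private theorem nB : Real.sinh (Real.pi * (1045 / 10000) / 4) ≤ 422 / 1000 * Real.sin (Real.pi / 16) := by
  have g : chk [sub (mul (q 422 1000) (sinPi (q 1 16))) (sinh (mul pi (q 1045 40000)))] 10 [V.of 1 0 0] = true := by
    decide +kernel
  have h := pos_of_chk (chk1 g (by norm_num) (x := 0) (by norm_num) (by norm_num))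
  simp only [E.val] at h
  simp only [Int.cast_ofNat, Nat.cast_ofNat, Int.cast_one] at h
  rw [show Real.pi * (1045 / 40000) = Real.pi * (1045 / 10000) / 4 by ring,
    show Real.pi * (1 / 16) = Real.pi / 16 by ring] at h
  linarith only [h]

private theorem nC : Real.sin (Real.pi / 16) ^ 2 ≤ 381 / 10000 := by
  have g : chk [sub (q 381 10000) (sq (sinPi (q 1 16)))] 10 [V.of 1 0 0] = true := by
    decide +kernel
  have h := pos_of_chk (chk1 g (by norm_num) (x := 0) (by norm_num) (by norm_num))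
  simp only [E.val] at h
  simp only [Int.cast_ofNat, Nat.cast_ofNat, Int.cast_one] at h
  rw [show Real.pi * (1 / 16) = Real.pi / 16 by ring] at h
  linarith only [h]

end

theorem ratio_16 (hs : 0 ≤ s) (hs' : s ≤ 1 / 16) (hρ : 0 ≤ ρ) (hθ : 0 ≤ θ)
    (h : Real.sinh (Real.pi * ρ / 4) ≤ θ * Real.sin (Real.pi / 16)) :
    0 ≤ Real.sinh (Real.pi * (4 * ρ * s)) ∧
    Real.sinh (Real.pi * (4 * ρ * s)) ≤ θ * Real.sin (Real.pi * s) := by
  have hpi := Real.pi_pos
  have h1 := sinh_mul_le (l := 16 * s) (z := Real.pi * ρ / 4) (by linarith only [hs]) (by linarith only [hs']) (by positivity)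
  have h2 := mul_sin_le (l := 16 * s) (a := Real.pi / 16) (by linarith only [hs]) (by linarith only [hs']) (by positivity)
    (by linarith only [hpi])
  rw [show 16 * s * (Real.pi * ρ / 4) = Real.pi * (4 * ρ * s) by ring] at h1
  rw [show 16 * s * (Real.pi / 16) = Real.pi * s by ring] at h2
  refine ⟨by rw [Real.sinh_nonneg_iff]; positivity, h1.trans ?_⟩
  calc 16 * s * Real.sinh (Real.pi * ρ / 4) ≤ 16 * s * (θ * Real.sin (Real.pi / 16)) :=
        mul_le_mul_of_nonneg_left h (by linarith only [hs])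
    _ = θ * (16 * s * Real.sin (Real.pi / 16)) := by ring
    _ ≤ _ := mul_le_mul_of_nonneg_left h2 hθ

/-- the quadratic inequality from its rows -/
theorem Q_pos_of {s1 s2 c1 c2 R I θ : ℝ} (h1 : 0 < s1) (h2 : 0 ≤ s2) (h3 : s2 ≤ θ * s1)
    (hθ1 : θ ≤ 1) (hθ0 : 0 ≤ θ) (hR : 0 ≤ R) (hI : 0 ≤ I) (hc1 : s1 ^ 2 + c1 ^ 2 = 1)
    (hc2 : c2 ^ 2 = 1 + s2 ^ 2) (hc10 : 0 ≤ c1) (hc20 : 0 ≤ c2) (hs : s1 ^ 2 ≤ 381 / 10000)
    (row : 0 < R * (1 - θ * θ) - 2 * θ * I - 381 / 10000 * ((1 + θ * θ) * (1 + θ * θ))) :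
    0 < R * (s1 ^ 2 - s2 ^ 2 + 2 * s1 ^ 2 * s2 ^ 2) - 2 * (s1 * c1) * (s2 * c2) * I -
      (s1 ^ 2 + s2 ^ 2) ^ 2 := by
  have k1 : s2 ^ 2 ≤ θ * θ * s1 ^ 2 := by nlinarith only [h2, h3, mul_self_le_mul_self h2 h3]
  have k2 : c1 * c2 ≤ 1 := by
    have a1 : (c1 * c2) ^ 2 ≤ 1 := by
      have : (c1 * c2) ^ 2 = (1 - s1 ^ 2) * (1 + s2 ^ 2) := by
        rw [mul_pow, hc2, ← hc1]; ring
      rw [this]
      have b0 : s2 ≤ s1 := h3.trans (by nlinarith only [h1, hθ1])
      have b1 : s2 ^ 2 ≤ s1 ^ 2 := pow_le_pow_left₀ h2 b0 2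
      nlinarith only [b1, sq_nonneg s1, sq_nonneg s2, mul_nonneg (sq_nonneg s1) (sq_nonneg s2)]
    nlinarith only [a1, mul_nonneg hc10 hc20]
  have k3 : (s1 * c1) * (s2 * c2) ≤ θ * s1 ^ 2 := by
    have a1 : (s1 * c1) * (s2 * c2) = (s1 * s2) * (c1 * c2) := by ring
    have a2 : s1 * s2 ≤ θ * s1 ^ 2 := by nlinarith only [h1, h3]
    have a3 : 0 ≤ s1 * s2 := by positivity
    rw [a1]
    nlinarith only [a2, k2, a3, mul_le_mul_of_nonneg_left k2 a3]
  have k4 : (s1 ^ 2 + s2 ^ 2) ^ 2 ≤ (1 + θ * θ) * (1 + θ * θ) * (381 / 10000) * s1 ^ 2 := by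
    have a1 : s1 ^ 2 + s2 ^ 2 ≤ (1 + θ * θ) * s1 ^ 2 := by linarith only [k1]
    have a2 := mul_self_le_mul_self (by positivity) a1
    have a3 : s1 ^ 2 * s1 ^ 2 ≤ 381 / 10000 * s1 ^ 2 := mul_le_mul_of_nonneg_right hs (sq_nonneg _)
    have a4 : 0 ≤ (1 + θ * θ) * (1 + θ * θ) := by positivity
    have a5 := mul_le_mul_of_nonneg_left a3 a4
    nlinarith only [a2, a5]
  have k5 : R * ((1 - θ * θ) * s1 ^ 2) ≤ R * (s1 ^ 2 - s2 ^ 2 + 2 * s1 ^ 2 * s2 ^ 2) := by
    apply mul_le_mul_of_nonneg_left _ hR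
    nlinarith only [k1, mul_nonneg (sq_nonneg s1) (sq_nonneg s2)]
  have k6 := mul_le_mul_of_nonneg_right k3 hI
  have k7 : 0 < s1 ^ 2 := by positivity
  have k8 := mul_pos row k7
  nlinarith only [k4, k5, k6, k8]

theorem Q_small_pos (hx : 105 / 1000 ≤ x) (hx' : x ≤ 27 / 100) (ht0 : 0 ≤ t)
    (hs : 0 < s) (hs' : s ≤ 1 / 16) (hρ : 0 ≤ ρ)
    (hc : (ρ ≤ 725 / 10000 ∧ t ≤ 385 / 10000) ∨ (ρ ≤ 1045 / 10000 ∧ t ≤ 25 / 1000)) :
    0 < 2 * (1 - Real.cos (2 * Real.pi * x) * Real.cosh (2 * Real.pi * t)) *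
      (1 - Real.cos (2 * Real.pi * s) * Real.cosh (2 * Real.pi * (4 * ρ * s))) -
      2 * Real.sin (2 * Real.pi * s) * Real.sinh (2 * Real.pi * (4 * ρ * s)) *
        Real.sin (2 * Real.pi * x) * Real.sinh (2 * Real.pi * t) -
      (Real.cosh (2 * Real.pi * (4 * ρ * s)) - Real.cos (2 * Real.pi * s)) ^ 2 := by
  have hpi := Real.pi_pos
  have k0 : 0 < Real.sin (Real.pi * s) := by
    apply Real.sin_pos_of_pos_of_lt_pi
    · positivity
    · nlinarith only [hpi, hs']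
  have c0 : 0 ≤ Real.cos (Real.pi * s) := by
    apply Real.cos_nonneg_of_neg_pi_div_two_le_of_le <;> nlinarith only [hpi, hs, hs']
  have c5 : 0 ≤ Real.sinh (2 * Real.pi * t) := by
    rw [Real.sinh_nonneg_iff]; positivity
  have c6 : 0 ≤ Real.sin (2 * Real.pi * x) := by
    apply Real.sin_nonneg_of_nonneg_of_le_pi
    · have : 0 ≤ x := by linarith only [hx, hs, hs']
      positivity
    · nlinarith only [hpi, hx']
  have p1 : Real.sin (Real.pi * s) ^ 2 ≤ 381 / 10000 := by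
    have h1 : Real.sin (Real.pi * s) ≤ Real.sin (Real.pi / 16) := by
      apply Real.sin_le_sin_of_le_of_le_pi_div_two <;> nlinarith only [hpi, hs, hs']
    have h2 := mul_self_le_mul_self k0.le h1
    nlinarith only [h2, nC]
  have main : ∀ θ : ℝ, 0 ≤ θ → θ ≤ 1 → Real.sinh (Real.pi * ρ / 4) ≤ θ * Real.sin (Real.pi / 16) →
      0 < (1 - Real.cos (2 * Real.pi * x) * Real.cosh (2 * Real.pi * t)) * (1 - θ * θ) -
      2 * θ * Real.sin (2 * Real.pi * x) * Real.sinh (2 * Real.pi * t) -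
      381 / 10000 * ((1 + θ * θ) * (1 + θ * θ)) → 0 ≤ 1 - Real.cos (2 * Real.pi * x) * Real.cosh (2 * Real.pi * t) →
      0 < 2 * (1 - Real.cos (2 * Real.pi * x) * Real.cosh (2 * Real.pi * t)) *
      (1 - Real.cos (2 * Real.pi * s) * Real.cosh (2 * Real.pi * (4 * ρ * s))) -
      2 * Real.sin (2 * Real.pi * s) * Real.sinh (2 * Real.pi * (4 * ρ * s)) *
        Real.sin (2 * Real.pi * x) * Real.sinh (2 * Real.pi * t) -
      (Real.cosh (2 * Real.pi * (4 * ρ * s)) - Real.cos (2 * Real.pi * s)) ^ 2 := by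
    intro θ h0 h1 h2 h3 h4
    obtain ⟨k1, k2⟩ := ratio_16 hs.le hs' hρ h0 h2
    obtain ⟨f1, f2, f3, f4⟩ := half_forms s (4 * ρ * s)
    have key := Q_pos_of (s1 := Real.sin (Real.pi * s)) (s2 := Real.sinh (Real.pi * (4 * ρ * s)))
      (c1 := Real.cos (Real.pi * s)) (c2 := Real.cosh (Real.pi * (4 * ρ * s)))
      (I := Real.sin (2 * Real.pi * x) * Real.sinh (2 * Real.pi * t)) k0 k1 k2 h1 h0 h4
      (mul_nonneg c6 c5) (Real.sin_sq_add_cos_sq _) (by rw [Real.cosh_sq]; ring) c0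
      (Real.cosh_pos _).le p1 (by linarith only [h3])
    rw [f1, f2, f3, f4]
    nlinarith only [key]
  have hR : ∀ T : ℝ, 0 ≤ T → T ≤ 385 / 10000 → 0 ≤ 1 - Real.cos (2 * Real.pi * x) * Real.cosh (2 * Real.pi * T) := by
    intro T hT hT'
    have := rowA hx hx' hT hT'
    have h1 : 0 ≤ Real.sinh (2 * Real.pi * T) := by rw [Real.sinh_nonneg_iff]; positivity
    have h2 := mul_nonneg c6 h1
    nlinarith only [hs, hs', this, h2]
  rcases hc with ⟨a1, a2⟩ | ⟨a1, a2⟩
  · refine main (293 / 1000) (by norm_num) (by norm_num) (le_trans ?_ nA) (rowA hx hx' ht0 a2)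
      (hR t ht0 a2)
    rw [Real.sinh_le_sinh]
    nlinarith only [hs, hs', hpi, a1]
  · refine main (422 / 1000) (by norm_num) (by norm_num) (le_trans ?_ nB) (rowB hx hx' ht0 a2)
      (hR t ht0 (by linarith only [hs, hs', a2]))
    rw [Real.sinh_le_sinh]
    nlinarith only [hs, hs', hpi, a1]

/-- **level monotonicity on `[.105, .27]` near the right end** -/
theorem fu_x_anti_small_pos (ha : 105 / 1000 ≤ a) (hab : a < b) (hb : b ≤ 27 / 100) (ht0 : 0 ≤ t)
    (hρ : 0 < ρ) (hc : (ρ ≤ 725 / 10000 ∧ t ≤ 385 / 10000) ∨ (ρ ≤ 1045 / 10000 ∧ t ≤ 25 / 1000))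
    (hs : 0 < s) (hs' : s ≤ 1 / 16) :
    fu b t (1 / 2 - s) (4 * ρ * s) < fu a t (1 / 2 - s) (4 * ρ * s) := by
  have hη : 0 < 4 * ρ * s := by positivity
  refine strict_anti_one (f := fun x => fu x t (1 / 2 - s) (4 * ρ * s))
    (f' := fun x => LL ⟨x + 1 / 2 + (1 / 2 - s), t + 4 * ρ * s⟩ +
      LL ⟨x + 1 / 2 - (1 / 2 - s), t - 4 * ρ * s⟩ - 2 * LL ⟨x, t⟩) 0 hab (continuous_fu_x _ _ _) ?_
  intro x h1 h2 _
  have hσ : |(1 / 2 - s)| < 1 / 2 := by rw [abs_lt]; constructor <;> linarith only [hs, hs']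
  refine ⟨hasDerivAt_fu_x (by linarith only [ha, hs, hs', h1]) (by linarith only [hb, hs, hs', h2]) hσ (by linarith only [ht0, hη]) (Or.inr (by
    intro h
    linarith only [hb, hs, hs', h2, h])), ?_⟩
  apply LL_neg_Q
  · exact sin_ne_02 (by linarith only [ha, hs, hs', h1]) (by linarith only [hb, hs, hs', h2]) (Or.inl (by linarith only [ht0, hη]))
  · exact sin_ne_02 (by linarith only [ha, hs, hs', h1]) (by linarith only [hb, hs, hs', h2]) (Or.inr (by intro h; linarith only [hb, hs, hs', h2, h]))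
  · exact sin_ne_of_strip ⟨by simp only; linarith only [ha, hs, hs', h1], by simp only; linarith only [hb, hs, hs', h2]⟩
  · obtain ⟨-, -, e1, e2⟩ := cos_sin_near s
    rw [e1, e2]
    have := Q_small_pos (x := x) (t := t) (by linarith only [ha, h1]) (by linarith only [hb, h2]) ht0 hs hs' hρ.le hc
    nlinarith only [this, this]

end Pool.Agent.Work.MP_b30479_gt.G2
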