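import Pool.Agent.Work.MP_b30479_gt.G2.RngK
import Pool.Agent.Work.MP_b30479_gt.G2.RngI
import Pool.Agent.Work.MP_b30479_gt.G2.RngJ

/-!
# Ring sides: the value move of a ring|ring hinge from `[.48, .5]` to `.105`, one ring
-/

namespace Pool.Agent.Work.MP_b30479_gt.G2

open Finset VOL Filter Topology

variable {x t σ η c a b s ρ T θ y K : ℝ} {w w' : ℂ} {k k' : RKe}

section
open NumU NumU.E RV
open NumI (V)

/-- `r1` for `s ∈ [.105, .116]`, `ρ ≤ .042` -/
theorem r1m (h0 : 0 ≤ T) (h1 : T ≤ 56 / 1000) (h2 : 105 / 1000 ≤ s) (h3 : s ≤ 116 / 1000) (h4 : 0 ≤ ρ)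
    (h5 : ρ ≤ 42 / 1000) :
    fu (48 / 100) 0 (-(1 / 2) + s) (4 * ρ * s) < fu (105 / 1000) T (-(1 / 2) + s) (4 * ρ * s) := by
  have h : chk [E.sub (E.sub (E.uu (E.add x0 es) (E.add eT ee)) (E.mul (q 2 1) (E.uu x0 eT))) a48] 24
      [NumI.V.of 10000 0 560, NumI.V.of 10000 1050 1160, NumI.V.of 10000 0 420] = true := by
    decide +kernel
  have hp := pos_of_chk (chk3 h (by norm_num) (x := T) (y := s) (z := ρ)
    (by norm_num; linarith only [h0]) (by norm_num; linarith only [h1]) (by norm_num; linarith only [h2]) (by norm_num; linarith only [h3])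
    (by norm_num; linarith only [h4]) (by norm_num; linarith only [h5]))
  simp only [a48, eT, es, ee, x0, E.val, NumI.lkR] at hp
  push_cast at hp
  have e : 0 ≤ 4 * ρ * s := by positivity
  have e1 : 4 * ρ * s ≤ 2 / 100 := by nlinarith only [h3, h5, h2]
  have k0 : uu 0 (T - 4 * ρ * s) ≤ 0 := by
    have h6 := uu_add_one 0 (T - 4 * ρ * s)
    have h7 := uu_one_sub 0 (T - 4 * ρ * s)
    rw [zero_add] at h6
    rw [sub_zero] at h7
    have h8 : 0 ≤ Real.pi * |T - 4 * ρ * s| := by positivity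
    linarith only [h6, h7, h8]
  have k1 := anti0 (a := 0) (b := s - 105 / 1000) (y := T - 4 * ρ * s) (by linarith only [h2])
    (fun v hv => ⟨hv.1.ne', by rw [abs_le]; constructor <;> linarith only [hv, h3, hv.1, hv.2]⟩)
    (by rw [abs_le]; constructor <;> linarith only [h0, e1, h1, e])
  unfold fu
  rw [show (48 / 100 : ℝ) + 1 / 2 + (-(1 / 2) + s) = 48 / 100 + s by ring,
    beyond (show (48 / 100 : ℝ) + 1 / 2 - (-(1 / 2) + s) = (48 / 100 - s) + 1 by ring),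
    show (105 / 1000 : ℝ) + 1 / 2 + (-(1 / 2) + s) = 105 / 1000 + s by ring,
    before (show (105 / 1000 : ℝ) + 1 / 2 - (-(1 / 2) + s) = 1 - (s - 105 / 1000) by ring),
    zero_sub, uu_neg, abs_neg, abs_of_nonneg e, zero_add]
  simp only [div_one, zero_div] at hp
  linarith only [k0, k1, hp]

end

/-- chain of the level monotonicity from `x` to `c` -/
theorem fu_to_c (hc : c = 48 / 100 ∨ c = 46 / 100) (hx : 48 / 100 ≤ x) (hx' : x ≤ 1 / 2) (ht0 : 0 ≤ t)
    (ht : t ≤ 56 / 1000) (hρ : 0 < ρ) (hρ' : ρ ≤ 1045 / 10000) (hσ : |σ| < 1 / 2) :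
    fu x t σ (ρ * LT.th σ) ≤ fu c t σ (ρ * LT.th σ) := by
  apply fu_x_anti_le (a := c) (b := x) _ _ (by linarith only [hx', hρ, hρ']) ht0 ht hρ hρ' hσ
  · rcases hc with rfl | rfl <;> norm_num
  · rcases hc with rfl | rfl <;> linarith only [hx, hρ, hρ']

theorem th_flat (hs : 0 ≤ s) (hs' : s ≤ 1 / 4) : LT.th s = 1 ∧ LT.th (-s) = 1 := by
  constructor <;> apply th_of_le <;> rw [abs_le] <;> constructor <;> linarith only [hs, hs']

/-- flat part, `σ = -s ≤ 0` -/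
theorem gain_flat_neg (hx : 48 / 100 ≤ x) (hx' : x ≤ 1 / 2) (ht0 : 0 ≤ t) (htT : t ≤ T)
    (hT : T ≤ 56 / 1000) (hρ : 0 < ρ) (hρ' : ρ ≤ 1045 / 10000) (hs : 0 ≤ s) (hs' : s ≤ 1 / 4) :
    fu x t (-s) ρ < fu (105 / 1000) T (-s) ρ := by
  have hσ : |(-s)| < 1 / 2 := by rw [abs_lt]; constructor <;> linarith only [hρ, hρ', hs', hs]
  have hT0 : 0 ≤ T := ht0.trans htT
  rcases le_total (3 / 100) s with h3 | h3
  · have k1 := fu_to_c (c := 48 / 100) (Or.inl rfl) hx hx' ht0 (htT.trans hT) hρ hρ' hσ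
    rw [(th_flat hs hs').2, mul_one] at k1
    rcases le_total ρ t with h4 | h4
    · have k2 := fu_t_mono (c := 48 / 100) (σ := -s) (η := ρ) (by norm_num) (by norm_num)
        (by linarith only [htT, hT, hρ, h3, h4]) (by linarith only [htT, hT, hρ, hs', h4]) hρ h4 htT
      have k3 := RV.r4 hT0 hT h3 hs' hρ.le (h4.trans htT)
      linarith only [k1, k2, k3]
    · have k2 := fu_t_anti (c := 48 / 100) (σ := -s) (η := ρ) (by norm_num) (by norm_num)
        (by linarith only [hρ, hρ', h3]) (by linarith only [hρ, hρ', hs']) le_rfl ht0 h4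
      have k3 := RV.r3 hT0 hT h3 hs' hρ.le hρ'
      linarith only [k1, k2, k3]
  · have k1 := fu_to_c (c := 46 / 100) (Or.inr rfl) hx hx' ht0 (htT.trans hT) hρ hρ' hσ
    rw [(th_flat hs hs').2, mul_one] at k1
    have k2 := fu_s_mono (x := 46 / 100) (t := t) (a := -s) (b := 0) (by norm_num) le_rfl ht0 hρ
      (by linarith only [h3]) (by linarith only [hs]) le_rfl
    have k3 := fu_t_mono_pos (c := 46 / 100) (σ := 0) (η := ρ) (by norm_num) (by norm_num)
      le_rfl (by norm_num) hρ ht0 htT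
    have k4 := RV.r5 hT0 hT hρ.le hρ'
    have k5 := fu_s_mono (x := 105 / 1000) (t := T) (a := -(3 / 100)) (b := -s) (by norm_num)
      (by norm_num) hT0 hρ le_rfl (by linarith only [h3]) (by linarith only [hs])
    linarith only [k1, k2, k3, k4, k5]

/-- flat part, `σ = s ≥ 0` -/
theorem gain_flat_pos (hx : 48 / 100 ≤ x) (hx' : x ≤ 1 / 2) (ht0 : 0 ≤ t) (htT : t ≤ T)
    (hT : T ≤ 56 / 1000) (hρ : 0 < ρ) (hρ' : ρ ≤ 1045 / 10000) (hs : 0 ≤ s) (hs' : s ≤ 1 / 4)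
    (hc : s ≤ 17 / 100 ∨ ρ ≤ 85 / 1000 ∨ T ≤ 25 / 1000) :
    fu x t s ρ < fu (105 / 1000) T s ρ := by
  have hσ : |s| < 1 / 2 := by rw [abs_lt]; constructor <;> linarith only [hρ, hρ', hs, hs']
  have hT0 : 0 ≤ T := ht0.trans htT
  rcases le_total s (3 / 100) with h3 | h3
  · have k1 := fu_to_c (c := 46 / 100) (Or.inr rfl) hx hx' ht0 (htT.trans hT) hρ hρ' hσ
    rw [(th_flat hs hs').1, mul_one] at k1
    have k2 := fu_t_mono_pos (c := 46 / 100) (σ := s) (η := ρ) (by norm_num) (by norm_num)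
      hs (by linarith only [hρ, hρ', hs']) hρ ht0 htT
    have k3 := RV.r6b hT0 hT hs h3 hρ.le hρ'
    linarith only [k1, k2, k3]
  · have k1 := fu_to_c (c := 48 / 100) (Or.inl rfl) hx hx' ht0 (htT.trans hT) hρ hρ' hσ
    rw [(th_flat hs hs').1, mul_one] at k1
    have k2 := fu_t_mono_pos (c := 48 / 100) (σ := s) (η := ρ) (by norm_num) (by norm_num)
      hs (by linarith only [hρ, hρ', hs']) hρ ht0 htT
    have k3 : fu (48 / 100) T s ρ < fu (105 / 1000) T s ρ := by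
      rcases le_total s (17 / 100) with h4 | h4
      · exact RV.r6 hT0 hT h3 h4 hρ.le hρ'
      · rcases le_total ρ (85 / 1000) with h5 | h5
        · exact RV.r6c hT0 hT (by linarith only [hρ, h4, h5]) hs' hρ.le h5
        · rcases hc with hc | hc | hc
          · exact RV.r6 hT0 hT h3 hc hρ.le hρ'
          · exact RV.r6c hT0 hT (by linarith only [hρ, h4, hc]) hs' hρ.le hc
          · exact RV.r7 hT0 hc (by linarith only [hρ, hρ', h4]) hs' h5 hρ'
    linarith only [k1, k2, k3]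

/-- ramp at the right end, `σ = 1/2 - s` -/
theorem gain_ramp_pos (hx : 48 / 100 ≤ x) (hx' : x ≤ 1 / 2) (ht0 : 0 ≤ t) (htT : t ≤ T)
    (hρ : 0 < ρ) (hs : 0 < s) (hs' : s ≤ 1 / 4)
    (hc : (ρ ≤ 725 / 10000 ∧ T ≤ 385 / 10000) ∨ (ρ ≤ 1045 / 10000 ∧ T ≤ 25 / 1000)) :
    fu x t (1 / 2 - s) (4 * ρ * s) < fu (105 / 1000) T (1 / 2 - s) (4 * ρ * s) := by
  have hσ : |(1 / 2 - s)| < 1 / 2 := by rw [abs_lt]; constructor <;> linarith only [hs, hs']
  have hT0 : 0 ≤ T := ht0.trans htT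
  have hρ' : ρ ≤ 1045 / 10000 := by rcases hc with hc | hc <;> linarith only [hρ, hc, hc.1]
  have hT : T ≤ 56 / 1000 := by rcases hc with hc | hc <;> linarith only [hρ, hc, hρ', hc.2]
  have hη : 0 < 4 * ρ * s := by positivity
  have eth : ρ * LT.th (1 / 2 - s) = 4 * ρ * s := by
    rw [show (1 / 2 - s : ℝ) = -(-(1 / 2) + s) by ring, th_neg, th_ramp hs.le hs']
  have k1 := fu_to_c (c := 48 / 100) (Or.inl rfl) hx hx' ht0 (htT.trans hT) hρ hρ' hσ
  rw [eth] at k1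
  have k2 := fu_t_mono_pos (c := 48 / 100) (σ := 1 / 2 - s) (η := 4 * ρ * s) (by norm_num)
    (by norm_num) (by linarith only [hρ, hs', hρ']) (by linarith only [hs]) hη ht0 htT
  rcases le_total s (1 / 16) with h1 | h1
  · have k3 := fu_x_anti (a := 27 / 100) (b := 48 / 100) (t := T) (σ := 1 / 2 - s) (ρ := ρ) le_rfl
      (by norm_num) (by norm_num) hT0 hT hρ hρ' hσ
    rw [eth] at k3
    have k4 := fu_x_anti_small_pos (a := 105 / 1000) (b := 27 / 100) (t := T) (ρ := ρ) (s := s) le_rfl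
      (by norm_num) le_rfl hT0 hρ hc hs h1
    linarith only [k1, k2, k3, k4]
  · have k3 : fu (48 / 100) T (1 / 2 - s) (4 * ρ * s) < fu (105 / 1000) T (1 / 2 - s) (4 * ρ * s) := by
      rcases hc with hc | hc
      · exact RV.r8b hT0 hc.2 (by linarith only [hs, h1]) hs' hρ.le hc.1
      · exact RV.r8 hT0 hc.2 (by linarith only [hs, h1]) hs' hρ.le hc.1
    linarith only [k1, k2, k3]

/-- ramp at the left end, `σ = -1/2 + s` -/
theorem gain_ramp_neg (hx : 48 / 100 ≤ x) (hx' : x ≤ 1 / 2) (ht0 : 0 ≤ t) (htT : t ≤ T)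
    (hT : T ≤ 56 / 1000) (hρ : 0 < ρ) (hρ' : ρ ≤ 1045 / 10000) (hs : 0 < s) (hs' : s ≤ 1 / 4)
    (hc : 4 * ρ * s ≤ t ∨ 116 / 1000 ≤ s ∨ (s ≤ 105 / 1000 ∧ ρ ≤ 357 / 1000 * s) ∨
      (105 / 1000 ≤ s ∧ ρ ≤ 42 / 1000)) :
    fu x t (-(1 / 2) + s) (4 * ρ * s) < fu (105 / 1000) T (-(1 / 2) + s) (4 * ρ * s) := by
  have hσ : |(-(1 / 2) + s)| < 1 / 2 := by rw [abs_lt]; constructor <;> linarith only [hs, hρ, hρ', hs']
  have hT0 : 0 ≤ T := ht0.trans htT
  have hη : 0 < 4 * ρ * s := by positivity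
  have eth := th_ramp hs.le hs' ρ
  have k1 := fu_to_c (c := 48 / 100) (Or.inl rfl) hx hx' ht0 (htT.trans hT) hρ hρ' hσ
  rw [eth] at k1
  rcases le_or_gt (4 * ρ * s) t with h1 | h1
  · have k2 := fu_t_mono (c := 48 / 100) (σ := -(1 / 2) + s) (η := 4 * ρ * s) (by norm_num)
      (by norm_num) (by linarith only [htT, hT, hs', hη, h1]) (by linarith only [hs]) hη h1 htT
    rcases le_total s (1 / 10) with h2 | h2
    · have k3 := fu_x_anti (a := 27 / 100) (b := 48 / 100) (t := T) (σ := -(1 / 2) + s) (ρ := ρ) le_rfl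
        (by norm_num) (by norm_num) hT0 hT hρ hρ' hσ
      rw [eth] at k3
      have k4 := fu_x_anti_small (a := 105 / 1000) (b := 27 / 100) (t := T) (ρ := ρ) (s := s) le_rfl
        (by norm_num) le_rfl hT0 hT hρ hρ' hs h2
      linarith only [k1, k2, k3, k4]
    · have k3 := RV.r2 hT0 hT (by linarith only [htT, hT, hη, h1, h2]) hs' hρ.le hρ' (h1.trans htT)
      linarith only [k1, k2, k3]
  · have k2 := fu_t_anti (c := 48 / 100) (σ := -(1 / 2) + s) (η := 4 * ρ * s) (a := 0) (by norm_num)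
      (by norm_num) (by linarith only [hρ, hρ', hs']) (by linarith only [hs]) le_rfl ht0 h1.le
    have k3 : fu (48 / 100) 0 (-(1 / 2) + s) (4 * ρ * s) <
        fu (105 / 1000) T (-(1 / 2) + s) (4 * ρ * s) := by
      rcases le_total (116 / 1000) s with h2 | h2
      · exact RV.r1 hT0 hT h2 hs' hρ.le hρ'
      · rcases hc with hc | hc | hc | hc
        · exact absurd h1 (not_lt.2 hc)
        · exact RV.r1 hT0 hT hc hs' hρ.le hρ'
        · exact r1s hT0 hs hc.1 hρ.le hc.2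
        · exact r1m hT0 hT hc.1 h2 hρ.le hc.2
    linarith only [k1, k2, k3]

end Pool.Agent.Work.MP_b30479_gt.G2
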