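import Pool.Agent.Work.NumI.Expr

/-!
# Ring sides: a row of numbers for small hinges
-/

namespace Pool.Agent.Work.MP_b30479_gt.G2


variable {x t σ η c a b s ρ T θ y K κ : ℝ}

/-! ### small hinges, above the ring variable -/

section
open NumI NumI.E

/-- `s = var 0`, `p = var 1` (`x = p s`) -/
private def eX : E := mul (var 1) (var 0)
private def eB : E := mul (sub (q 1 1) (mul (q 2 1) (var 0)))
  (sub (mul (cosh (mul (mul (q 2 1) pi) (mul (q 56 100) eX))) (cosh (mul (mul (q 2 1) pi) (mul (q 56 100) eX))))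
      (mul (cosPi (mul (q 2 1) (var 0))) (cosPi (mul (q 2 1) eX))))
private def eR2 : E := sub (add (mul (mul (q 2 1) (mul (var 0) (sinPi (mul (q 2 1) (var 0)))))
    (sub (q 1 1) (mul (q 99 10) (mul eX eX))))
    (mul (mul (q 4 1) pi) (mul (q 3136 10000) (mul eX (var 0)))))
  (mul (q 56 100) eB)
private def eR1 : E := sub eB (mul (mul (q 8 1) pi) (mul (q 56 100) (mul eX (var 0))))

theorem rowR (h0 : 1 / 100 ≤ s) (h1 : s ≤ 1 / 4) (h2 : 0 ≤ K) (h3 : K ≤ 32 / 100) :
    8 * Real.pi * (56 / 100 * (K * s * s)) < (1 - 2 * s) * (Real.cosh (2 * Real.pi * (56 / 100 * (K * s))) ^ 2 -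
      Real.cos (2 * Real.pi * s) * Real.cos (2 * Real.pi * (K * s))) ∧
    56 / 100 * ((1 - 2 * s) * (Real.cosh (2 * Real.pi * (56 / 100 * (K * s))) ^ 2 -
      Real.cos (2 * Real.pi * s) * Real.cos (2 * Real.pi * (K * s)))) <
      2 * (s * Real.sin (2 * Real.pi * s)) * (1 - 99 / 10 * (K * s) ^ 2) +
      4 * Real.pi * (3136 / 10000 * (K * s * s)) := by
  have c1 : chk [eR1] 40 [V.of 10000 100 2500, V.of 10000 0 3200] = true := by decide +kernel
  have c2 : chk [eR2] 40 [V.of 10000 100 2500, V.of 10000 0 3200] = true := by decide +kernel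
  have p1 := pos_of_chk (chk2 c1 (by norm_num) (x := s) (y := K)
    (by norm_num; linarith only [h0]) (by norm_num; linarith only [h1]) (by norm_num; linarith only [h2]) (by norm_num; linarith only [h3]))
  have p2 := pos_of_chk (chk2 c2 (by norm_num) (x := s) (y := K)
    (by norm_num; linarith only [h0]) (by norm_num; linarith only [h1]) (by norm_num; linarith only [h2]) (by norm_num; linarith only [h3]))
  simp only [eR1, eR2, eB, eX, E.val, NumI.lkR] at p1 p2
  simp only [Int.cast_ofNat, Nat.cast_ofNat, Int.cast_one, Nat.cast_one, div_one] at p1 p2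
  rw [show Real.pi * (2 * s) = 2 * Real.pi * s by ring,
    show Real.pi * (2 * (K * s)) = 2 * Real.pi * (K * s) by ring] at p1 p2
  constructor
  · nlinarith only [p1, p1]
  · nlinarith only [p2, p2]

end


end Pool.Agent.Work.MP_b30479_gt.G2
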