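import Pool.Agent.Work.MP_b30479_gt.G2.RngN
import Pool.Agent.Work.MP_b30479_gt.G2.RngK

/-!
# Ring sides: hinges with a tiny positive height, `x ≤ 1/2`
-/

namespace Pool.Agent.Work.MP_b30479_gt.G2

open Finset VOL Filter Topology
open NumU (uu uu_neg uu_add_one uu_one_sub UU_uu)

variable {x t σ η c a b s ρ T θ y K κ : ℝ} {w w' : ℂ} {k k' : RKe}

theorem uu_half (t : ℝ) : uu (1 / 2) t = 0 := by
  have := uu_one_sub (1 / 2) t
  norm_num at this
  linarith only [this]

/-- the value at `-1/4` for `x = 1/2` -/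
theorem fu_half_ge (h2 : 0 ≤ t) (h3 : t ≤ ρ) : Real.pi * (ρ - t) ≤ fu (1 / 2) t (-(1 / 4)) ρ := by
  have hpi := Real.pi_pos
  unfold fu
  rw [uu_half, show (1 / 2 + 1 / 2 + -(1 / 4) : ℝ) = 3 / 4 by norm_num,
    show (1 / 2 + 1 / 2 - -(1 / 4) : ℝ) = 1 / 4 + 1 by norm_num, uu_add_one,
    show t - ρ = -(ρ - t) by ring, uu_neg, abs_neg, abs_of_nonneg (by linarith only [h3]),
    show (1 / 4 : ℝ) = 1 - 3 / 4 by norm_num, uu_one_sub]
  have hm : uu (3 / 4) (ρ - t) ≤ uu (3 / 4) (t + ρ) := by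
    have hd : ∀ y : ℝ, HasDerivAt (fun y => uu (3 / 4) y) (YY ⟨3 / 4, y⟩) y := fun y =>
      hasDerivAt_uu_y (Or.inr (by norm_num))
    have hmo : MonotoneOn (fun y => uu (3 / 4) y) (Set.Ici 0) := by
      apply monotoneOn_of_deriv_nonneg (convex_Ici _)
      · exact fun y _ => (hd y).continuousAt.continuousWithinAt
      · exact fun y _ => (hd y).differentiableAt.differentiableWithinAt
      · intro y hy
        rw [interior_Ici] at hy
        rw [(hd y).deriv, YY_mk_pos hy]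
        have h5 := Tr_mono (s := y) hy (show (1 / 2 : ℝ) ≤ 3 / 4 by norm_num)
        rw [Tr_half hy] at h5
        linarith only [h5]
    exact hmo (Set.mem_Ici.2 (by linarith only [h3])) (Set.mem_Ici.2 (by linarith only [h2, h3])) (by linarith only [h2])
  linarith only [hm]

/-- **move of the ring variable to `-1/4`**, tiny height -/
theorem fu_quarter_ps (h0 : 0 < x) (h1 : x ≤ 1 / 2) (h2 : 0 ≤ t) (h3 : t ≤ 1 / 1000)
    (h4 : t ≤ 1 / 100 * x) (hρ : 4 / 100 ≤ ρ) (hρ' : ρ ≤ 1045 / 10000) :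
    Real.pi * t < fu x t (-(1 / 4)) ρ := by
  have hpi := Real.pi_pos
  rcases le_total x (27 / 100) with h5 | h5
  · exact fu_quarter_gt h0 h5 h2 (by linarith only [h0, h3, h5]) (by linarith only [h0, h4]) (by linarith only [h0, hρ, h5]) hρ'
  · have k := fu_x_anti_le (a := x) (b := 1 / 2) (t := t) (σ := -(1 / 4)) (ρ := ρ) h5 h1
      (by norm_num) h2 (by linarith only [h0, h1, h3]) (by linarith only [h0, h1, hρ]) hρ' (by rw [abs_neg, abs_of_pos] <;> norm_num)
    rw [th_of_le (by rw [abs_neg, abs_of_pos] <;> norm_num), mul_one] at k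
    have k2 := fu_half_ge (ρ := ρ) h2 (by linarith only [h0, h1, h3, hρ])
    have : Real.pi * t < Real.pi * (ρ - t) := mul_lt_mul_of_pos_left (by linarith only [h0, h1, h3, hρ]) hpi
    linarith only [k, k2, this]

section
open NumU NumU.E

private theorem row27 (h0 : 0 ≤ t) (h1 : t ≤ 1 / 1000) (h2 : 0 ≤ s) (h3 : s ≤ 63 / 10000) (h4 : 0 ≤ η)
    (h5 : η ≤ 1 / 1000) :
    uu (27 / 100 + s) (t + η) + uu (27 / 100 - s) (t - η) - 2 * uu (27 / 100) t < 5 / 100 := by
  have h : chk [E.sub (E.add (q 5 100) (mul (q 2 1) (E.uu (q 27 100) (var 0))))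
      (E.add (E.uu (E.add (q 27 100) (var 1)) (E.add (var 0) (var 2)))
        (E.uu (E.sub (q 27 100) (var 1)) (E.sub (var 0) (var 2))))] 24
      [NumI.V.of 10000 0 10, NumI.V.of 10000 0 63, NumI.V.of 10000 0 10] = true := by
    decide +kernel
  have hp := pos_of_chk (chk3 h (by norm_num) (x := t) (y := s) (z := η)
    (by norm_num; linarith only [h0]) (by norm_num; linarith only [h1]) (by norm_num; linarith only [h2]) (by norm_num; linarith only [h3])
    (by norm_num; linarith only [h4]) (by norm_num; linarith only [h5]))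
  simp only [E.val, NumI.lkR] at hp
  push_cast at hp
  simp only [div_one] at hp
  linarith only [hp]

end

/-- the value near the end, `27/100 ≤ x ≤ 1/2` -/
theorem fu_end_ps (h0 : 27 / 100 ≤ x) (h1 : x ≤ 1 / 2) (h2 : 0 ≤ t) (h3 : t ≤ 1 / 1000) (hρ : 4 / 100 ≤ ρ)
    (hρ' : ρ ≤ 1045 / 10000) (hs : 0 < s) (hts : 4 * ρ * s ≤ t) :
    fu x t (-(1 / 2) + s) (4 * ρ * s) ≤ Real.pi * t + 5 / 100 := by
  have hpi := Real.pi_pos
  have hs' : s ≤ 63 / 10000 := by nlinarith only [h3, hs, hts, hρ]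
  have hη : 0 < 4 * ρ * s := by positivity
  have k := fu_x_anti_le (a := 27 / 100) (b := x) (t := t) (σ := -(1 / 2) + s) (ρ := ρ) le_rfl h0
    (by linarith only [h1, h3, hts, hη]) h2 (by linarith only [h3, hts, hη]) (by linarith only [h3, hρ, hts, hη]) hρ' (by rw [abs_lt]; constructor <;> linarith only [hs, h3, hts, hs', hη])
  rw [th_ramp hs.le (by linarith only [h3, hts, hs', hη])] at k
  have r := row27 (t := t) (s := s) (η := 4 * ρ * s) h2 h3 hs.le hs' hη.le (by linarith only [h3, hts])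
  refine k.trans ?_
  unfold fu
  rw [show (27 / 100 : ℝ) + 1 / 2 + (-(1 / 2) + s) = 27 / 100 + s by ring,
    show (27 / 100 : ℝ) + 1 / 2 - (-(1 / 2) + s) = (27 / 100 - s) + 1 by ring, uu_add_one,
    abs_of_nonneg (by linarith only [hts])]
  have : 0 ≤ Real.pi * (4 * ρ * s) := by positivity
  linarith only [r, this]

/-- the gap between `-1/4` and the end -/
theorem gap_ps (h0 : 27 / 100 ≤ x) (h1 : x ≤ 1 / 2) (h2 : 0 ≤ t) (h3 : t ≤ 1 / 1000) (hρ : 4 / 100 ≤ ρ)
    (hρ' : ρ ≤ 1045 / 10000) (hs : 0 < s) (hs4 : s < 1 / 4) (hts : 4 * ρ * s ≤ t) :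
    8 * Real.pi * ρ * s * (1 - 4 * s) <
      fu x t (-(1 / 4)) ρ - fu x t (-(1 / 2) + s) (4 * ρ * s) := by
  have hpi := Real.pi_pos
  have hpi3 := Real.pi_gt_three
  have k1 := fu_end_ps h0 h1 h2 h3 hρ hρ' hs hts
  have k2 := fu_x_anti_le (a := x) (b := 1 / 2) (t := t) (σ := -(1 / 4)) (ρ := ρ) h0 h1
    (by norm_num) h2 (by linarith only [h3, hs, hs4]) (by linarith only [hρ, hs, hs4]) hρ' (by rw [abs_neg, abs_of_pos] <;> norm_num)
  rw [th_of_le (by rw [abs_neg, abs_of_pos] <;> norm_num), mul_one] at k2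
  have k3 := fu_half_ge (ρ := ρ) h2 (by linarith only [h3, hρ, hs, hs4])
  have hη : 0 ≤ 4 * ρ * s := by
    have : 0 < ρ := by linarith only [hρ, hs, hs4]
    positivity
  have k4 : 8 * Real.pi * ρ * s * (1 - 4 * s) ≤ 2 * Real.pi * t := by
    calc 8 * Real.pi * ρ * s * (1 - 4 * s) = 2 * Real.pi * (4 * ρ * s) * (1 - 4 * s) := by ring
      _ ≤ 2 * Real.pi * (4 * ρ * s) * 1 := by
        apply mul_le_mul_of_nonneg_left _ (by positivity)
        linarith only [hs]
      _ ≤ 2 * Real.pi * t := by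
        rw [mul_one]
        exact mul_le_mul_of_nonneg_left hts (by positivity)
  have k5 : Real.pi * (ρ - t) - Real.pi * t - 2 * Real.pi * t ≥ Real.pi * (36 / 1000) := by
    have : Real.pi * (36 / 1000) ≤ Real.pi * (ρ - 4 * t) := mul_le_mul_of_nonneg_left (by linarith only [h3, hρ]) hpi.le
    linarith only [this]
  linarith only [hs, hs4, hpi3, k1, k2, k3, k4, k5]

end Pool.Agent.Work.MP_b30479_gt.G2
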