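import Pool.Agent.Work.MP_b30479_gt.G2.RngO
import Pool.Agent.Work.MP_b30479_gt.G2.RngR

/-!
# Ring sides: hinges with a tiny positive height, right ramp, no information on the ring
-/

namespace Pool.Agent.Work.MP_b30479_gt.G2

open Finset VOL Filter Topology

variable {x t σ η c a b s ρ T θ y K κ m : ℝ} {w w' : ℂ} {k k' : RKe}

theorem YY_sum_ge (hx : 28 / 100 ≤ x) (hx' : x ≤ 6 / 10) (ht : 0 ≤ t) (hσ : |σ| ≤ 1 / 2) (hη : 0 ≤ η) :
    -(122 / 100 * Real.pi) ≤ YY ⟨x + 1 / 2 + σ, t + η⟩ + YY ⟨x + 1 / 2 - σ, t - η⟩ - 2 * YY ⟨x, t⟩ := by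
  have hpi := Real.pi_pos
  obtain ⟨s1, s2⟩ := abs_le.1 hσ
  rcases (show 0 ≤ t + η by linarith only [ht, hη]).eq_or_lt with h0 | h0
  · have e1 : t = 0 := by linarith only [ht, hη, h0]
    have e2 : η = 0 := by linarith only [hη, ht, h0]
    rw [e1, e2, add_zero, sub_zero, YY_mk_zero, YY_mk_zero, YY_mk_zero]
    linarith only [hpi]
  -- the own term
  have hw1 : x ≤ 1 / 2 → YY ⟨x, t⟩ ≤ 0 := by
    intro h
    rcases ht.eq_or_lt with h1 | h1
    · rw [← h1, YY_mk_zero]
    · rw [YY_mk_pos h1]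
      have := Tr_le_half (s := t) (x := x) h1 h
      linarith only [this]
  have hw2 : 1 / 2 ≤ x → YY ⟨x, t⟩ ≤ Real.pi * (1 / 10) := by
    intro h
    rcases ht.eq_or_lt with h1 | h1
    · rw [← h1, YY_mk_zero]
      positivity
    · rw [YY_mk_pos h1]
      have := Tr_le_pi_mul (s := t) (x := x) h (by linarith only [hx']) h1
      nlinarith only [this, hx', hpi]
  have hu : 0 ≤ DT.Tr (t + η) (x + 1 / 2 + σ) := Tr_nonneg h0 (by linarith only [hx, s1])
  rw [YY_mk_pos h0]
  rcases lt_trichotomy (t - η) 0 with h1 | h1 | h1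
  · rw [YY_mk_neg h1]
    have k1 := Tr_mono (s := t + η) h0 (show x ≤ x + 1 / 2 + σ by linarith only [s1])
    have k2 := Tr_mono (s := -(t - η)) (by linarith only [h1]) (show x + 1 / 2 - σ ≤ x + 1 by linarith only [s1])
    rw [Tr_add_one] at k2
    rcases le_total x (1 / 2) with h2 | h2
    · have k3 := pi_mul_le_Tr (s := t + η) (x := x) (by linarith only [hx]) h2 h0
      have k4 := Tr_le_half (s := -(t - η)) (x := x) (by linarith only [h1]) h2
      have := hw1 h2
      nlinarith only [k1, k2, k3, k4, this, hx, hpi]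
    · have k3 := Tr_mono_left (s := -(t - η)) (s' := t + η) (x := x) (by linarith only [h1]) (by linarith only [ht]) h2
        (by linarith only [hx'])
      have := hw2 h2
      nlinarith only [hpi, k1, k2, k3, this]
  · rw [h1, YY_mk_zero]
    rcases le_total x (1 / 2) with h2 | h2
    · have := hw1 h2
      nlinarith only [hpi, hu, this]
    · have := hw2 h2
      nlinarith only [hpi, hu, this]
  · rw [YY_mk_pos h1]
    have hv : 0 ≤ DT.Tr (t - η) (x + 1 / 2 - σ) := Tr_nonneg h1 (by linarith only [hx, s2])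
    rcases le_total x (1 / 2) with h2 | h2
    · have := hw1 h2
      nlinarith only [hpi, hu, hv, this]
    · have := hw2 h2
      nlinarith only [hpi, hu, hv, this]

theorem LL_add_one' (w : ℂ) : LL (w + 1) = LL w := by
  rw [LL_eq', LL_eq']
  simp only [Complex.add_re, Complex.one_re, Complex.add_im, Complex.one_im, add_zero]
  rw [show 2 * Real.pi * (w.re + 1) = 2 * Real.pi * w.re + 2 * Real.pi by ring, Real.cos_add_two_pi]

/-- **Side of the ring on the right ramp**, tiny positive height, any place of the ring variable -/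
theorem S4_ps_right (hρ : 0 < ρ) (hc : RCap b ρ) (hσ : |σ| ≤ 1 / 2) (hx : 3 / 10 ≤ w.re)
    (hx' : w.re ≤ 6 / 10) (ht : 0 ≤ w.im) (ht' : w.im ≤ 1 / 1000) (hm : m ≤ 0) :
    S4 m w (LT.zt ρ σ) ≤ -m * (122 / 100 * Real.pi) := by
  have hη : 0 ≤ ρ * LT.th σ := by
    rcases hσ.lt_or_eq with h | h
    · exact (mul_pos hρ (th_pos h)).le
    · rw [show LT.th σ = 0 by
        unfold LT.th
        rw [h]
        norm_num]
      simp
  have k1 := YY_sum_ge (x := w.re) (t := w.im) (σ := σ) (η := ρ * LT.th σ) (by linarith only [hx]) hx' ht hσ hη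
  have e : (⟨w.re, w.im⟩ : ℂ) = w := Complex.eta w
  rw [← mk_zt1, ← mk_zt2, e] at k1
  have k2 : LL (w + 1 / 2 + LT.zt ρ σ) + LL (w + 1 / 2 - LT.zt ρ σ) - 2 * LL w ≤ 0 := by
    rcases hσ.lt_or_eq with h | h
    · have habs : |w.im| = w.im := abs_of_nonneg ht
      exact (LL_hinge_neg' hρ hc h hx (by linarith only [hx']) (fun _ => by rw [habs]; linarith only [ht'])
        (by rw [habs]; linarith only [ht'])).le
    · rcases (abs_eq (by norm_num : (0 : ℝ) ≤ 1 / 2)).mp h with h3 | h3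
      · rw [h3, zt_half, show w + 1 / 2 + (1 / 2 : ℂ) = w + 1 by ring, LL_add_one',
          show w + 1 / 2 - (1 / 2 : ℂ) = w by ring]
        linarith only []
      · rw [h3, zt_neg_half, show w + 1 / 2 + (-(1 / 2) : ℂ) = w by ring,
          show w + 1 / 2 - (-(1 / 2) : ℂ) = w + 1 by ring, LL_add_one']
        linarith only []
  unfold S4
  have k3 := mul_le_mul_of_nonpos_left k1 hm
  linarith only [k2, k3]

/-- **Value of the ring**: the loss of a move of the hinge to `28/100` -/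
theorem fR_ps_loss (hρ : 0 < ρ) (hρ' : ρ ≤ 1045 / 10000) (hσ : |σ| ≤ 1 / 2) (hx : 28 / 100 ≤ w.re)
    (hx' : w.re ≤ 6 / 10) (ht : 0 ≤ w.im) (ht' : w.im ≤ T) (hT : T ≤ 1 / 1000) :
    fR w (LT.zt ρ σ) ≤ fR ⟨28 / 100, T⟩ (LT.zt ρ σ) + 4 * T := by
  have hpi := Real.pi_pos
  have hpi4 := Real.pi_lt_d4
  have hT0 : 0 ≤ T := ht.trans ht'
  rcases hσ.lt_or_eq with h | h
  · have hη : 0 < ρ * LT.th σ := mul_pos hρ (th_pos h)
    rw [fR_zt, fR_zt]
    simp only
    have k1 := fu_x_anti_le (a := 28 / 100) (b := w.re) (t := w.im) (σ := σ) (ρ := ρ) (by norm_num) hx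
      (by linarith only [hρ, hρ', hx']) ht (by linarith only [hρ, hρ', ht', hT]) hρ hρ' h
    have k2 : fu (28 / 100) w.im σ (ρ * LT.th σ) + 122 / 100 * Real.pi * w.im ≤
        fu (28 / 100) T σ (ρ * LT.th σ) + 122 / 100 * Real.pi * T := by
      refine mono_one (f := fun t => fu (28 / 100) t σ (ρ * LT.th σ) + 122 / 100 * Real.pi * t)
        (f' := fun t => YY ⟨28 / 100 + 1 / 2 + σ, t + ρ * LT.th σ⟩ +
        YY ⟨28 / 100 + 1 / 2 - σ, t - ρ * LT.th σ⟩ - 2 * YY ⟨28 / 100, t⟩ + 122 / 100 * Real.pi)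
        (ρ * LT.th σ) ht' ?_ ?_
      · exact (continuous_fu_t _ _ _).add (by fun_prop)
      · intro t h1 h2 h3
        have t0 : 0 < t := by linarith only [ht, h1]
        refine ⟨?_, ?_⟩
        · have d1 := hasDerivAt_fu_t (x := 28 / 100) (t := t) (σ := σ) (η := ρ * LT.th σ) (by norm_num)
            (by norm_num) (by linarith only [ht, hη, h1]) (Or.inl h3)
          have d2 : HasDerivAt (fun t : ℝ => 122 / 100 * Real.pi * t) (122 / 100 * Real.pi) t := by
            simpa using (hasDerivAt_id t).const_mul (122 / 100 * Real.pi)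
          exact d1.add d2
        · have := YY_sum_ge (x := 28 / 100) (t := t) (σ := σ) (η := ρ * LT.th σ) le_rfl (by norm_num)
            t0.le hσ hη.le
          linarith only [this]
    have k3 : 122 / 100 * Real.pi * (T - w.im) ≤ 4 * T := by
      have : 122 / 100 * Real.pi * (T - w.im) ≤ 122 / 100 * Real.pi * T :=
        mul_le_mul_of_nonneg_left (by linarith only [ht]) (by positivity)
      nlinarith only [ht, ht', hρ, hρ', hpi4]
    linarith only [k1, k2, k3]
  · rw [fR_end h, fR_end h]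
    simp only
    rw [abs_of_nonneg ht, abs_of_nonneg hT0]
    have := mul_le_mul_of_nonneg_left ht' hpi.le
    linarith only [ht, ht', this]

end Pool.Agent.Work.MP_b30479_gt.G2
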