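import Pool.Agent.Work.MP_b30479_gt.G2.GE
import Pool.Agent.Work.MP_b30479_gt.G2.RngK
import Pool.Agent.Work.MP_b30479_gt.G2.RngN

/-!
# Ring sides: the gain of the move of the ring variable to `-1/4`, small hinges
-/

namespace Pool.Agent.Work.MP_b30479_gt.G2

open Finset VOL Filter Topology
open NumU (uu uu_neg uu_add_one uu_one_sub UU_uu)

variable {x t σ η c a b s ρ T θ y K κ X e : ℝ} {w w' : ℂ} {k k' : RKe}

section
open NumI NumI.E

private theorem row2 (h0 : 0 ≤ s) (h1 : s ≤ 2 / 100) :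
    -(3 / 10) ≤ Real.log 2 / 2 + Real.log (2 - 2 * Real.sin (2 * Real.pi * s)) / 2 -
      56 / 100 * (Real.pi / 2 + Real.pi * s) := by
  have h : chk [sub (add (mul (q 1 2) (log (q 2 1))) (mul (q 1 2) (log (sub (q 2 1)
      (mul (q 2 1) (sinPi (mul (q 2 1) (var 0)))))))) (sub (mul (q 56 100) (add (mul (q 1 2) pi)
      (mul pi (var 0)))) (q 3 10))] 12 [V.of 10000 0 200] = true := by decide +kernel
  have hp := pos_of_chk (chk1 h (by norm_num) (x := s)
    (by norm_num; linarith only [h0]) (by norm_num; linarith only [h1]))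
  simp only [E.val, NumI.lkR] at hp
  simp only [Int.cast_ofNat, Nat.cast_ofNat, Int.cast_one, Nat.cast_one, div_one] at hp
  rw [show Real.pi * (2 * s) = 2 * Real.pi * s by ring] at hp
  linarith only [hp]

private theorem row3 (h0 : 0 ≤ s) (h1 : s ≤ 1 / 100) :
    -(24 / 100) ≤ Real.log 2 / 2 + Real.log (2 - 2 * Real.sin (2 * Real.pi * s)) / 2 -
      56 / 100 * (Real.pi / 2 + Real.pi * s) := by
  have h : chk [sub (add (mul (q 1 2) (log (q 2 1))) (mul (q 1 2) (log (sub (q 2 1)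
      (mul (q 2 1) (sinPi (mul (q 2 1) (var 0)))))))) (sub (mul (q 56 100) (add (mul (q 1 2) pi)
      (mul pi (var 0)))) (q 24 100))] 12 [V.of 10000 0 100] = true := by decide +kernel
  have hp := pos_of_chk (chk1 h (by norm_num) (x := s)
    (by norm_num; linarith only [h0]) (by norm_num; linarith only [h1]))
  simp only [E.val, NumI.lkR] at hp
  simp only [Int.cast_ofNat, Nat.cast_ofNat, Int.cast_one, Nat.cast_one, div_one] at hp
  rw [show Real.pi * (2 * s) = 2 * Real.pi * s by ring] at hp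
  linarith only [hp]

private theorem row4 (h0 : 0 ≤ x) (h1 : x ≤ 4 / 100) (h2 : 0 ≤ t) (h3 : t ≤ 224 / 10000) :
    2 * Real.cosh (2 * Real.pi * t) - 2 * Real.cos (2 * Real.pi * x) ≤ 9 / 100 := by
  have h : chk [sub (q 9 100) (sub (mul (q 2 1) (cosh (mul (mul (q 2 1) pi) (var 1))))
      (mul (q 2 1) (cosPi (mul (q 2 1) (var 0)))))] 14
      [V.of 10000 0 400, V.of 10000 0 224] = true := by decide +kernel
  have hp := pos_of_chk (chk2 h (by norm_num) (x := x) (y := t)
    (by norm_num; linarith only [h0]) (by norm_num; linarith only [h1]) (by norm_num; linarith only [h2]) (by norm_num; linarith only [h3]))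
  simp only [E.val, NumI.lkR] at hp
  simp only [Int.cast_ofNat, Nat.cast_ofNat, Int.cast_one, Nat.cast_one, div_one] at hp
  rw [show Real.pi * (2 * x) = 2 * Real.pi * x by ring] at hp
  linarith only [hp]

private theorem row5 (h0 : 0 ≤ x) (h1 : x ≤ 2 / 100) (h2 : 0 ≤ t) (h3 : t ≤ 112 / 10000) :
    2 * Real.cosh (2 * Real.pi * t) - 2 * Real.cos (2 * Real.pi * x) ≤ 22 / 1000 := by
  have h : chk [sub (q 22 1000) (sub (mul (q 2 1) (cosh (mul (mul (q 2 1) pi) (var 1))))
      (mul (q 2 1) (cosPi (mul (q 2 1) (var 0)))))] 14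
      [V.of 10000 0 200, V.of 10000 0 112] = true := by decide +kernel
  have hp := pos_of_chk (chk2 h (by norm_num) (x := x) (y := t)
    (by norm_num; linarith only [h0]) (by norm_num; linarith only [h1]) (by norm_num; linarith only [h2]) (by norm_num; linarith only [h3]))
  simp only [E.val, NumI.lkR] at hp
  simp only [Int.cast_ofNat, Nat.cast_ofNat, Int.cast_one, Nat.cast_one, div_one] at hp
  rw [show Real.pi * (2 * x) = 2 * Real.pi * x by ring] at hp
  linarith only [hp]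

private theorem row6 : Real.log (9 / 100) / 2 ≤ -(6 / 5) ∧ Real.log (22 / 1000) / 2 ≤ -(19 / 10) := by
  have h : chk [sub (neg (q 6 5)) (mul (q 1 2) (log (q 9 100)))] 10 [V.of 1 0 0] = true := by
    decide +kernel
  have h' : chk [sub (neg (q 19 10)) (mul (q 1 2) (log (q 22 1000)))] 10 [V.of 1 0 0] = true := by
    decide +kernel
  have hp := pos_of_chk (chk1 h (by norm_num) (x := 0) (by norm_num) (by norm_num))
  have hp' := pos_of_chk (chk1 h' (by norm_num) (x := 0) (by norm_num) (by norm_num))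
  simp only [E.val] at hp hp'
  simp only [Int.cast_ofNat, Nat.cast_ofNat, Int.cast_one, Nat.cast_one, div_one] at hp hp'
  constructor <;> linarith only [hp, hp']

end

theorem LL_quarter_ge (h0 : 0 ≤ s) (h1 : s ≤ 1 / 4) : Real.log 2 / 2 ≤ LL ⟨1 / 4 + s, y⟩ := by
  have hpi := Real.pi_pos
  rw [LL_eq']
  simp only
  have c1 : Real.cos (2 * Real.pi * (1 / 4 + s)) ≤ 0 := by
    apply Real.cos_nonpos_of_pi_div_two_le_of_le <;> nlinarith only [h0, hpi, h1]
  have h2 := Real.one_le_cosh (2 * Real.pi * y)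
  have := Real.log_le_log (show (0 : ℝ) < 2 by norm_num)
    (show 2 ≤ 2 * Real.cosh (2 * Real.pi * y) - 2 * Real.cos (2 * Real.pi * (1 / 4 + s)) by linarith only [c1, h2])
  linarith only [this]

theorem LL_three_quarter_ge (h0 : 0 ≤ s) (h1 : s ≤ 1 / 8) :
    Real.log (2 - 2 * Real.sin (2 * Real.pi * s)) / 2 ≤ LL ⟨3 / 4 + s, y⟩ := by
  have hpi := Real.pi_pos
  rw [LL_eq']
  simp only
  have c1 : Real.cos (2 * Real.pi * (3 / 4 + s)) = Real.sin (2 * Real.pi * s) := by
    rw [← Real.cos_pi_div_two_sub, ← Real.cos_two_pi_sub]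
    congr 1
    ring
  have c2 : Real.sin (2 * Real.pi * s) < 1 := by
    rw [← Real.sin_pi_div_two]
    apply Real.sin_lt_sin_of_lt_of_le_pi_div_two <;> nlinarith only [hpi, h0, h1]
  have h2 := Real.one_le_cosh (2 * Real.pi * y)
  have := Real.log_le_log (show 0 < 2 - 2 * Real.sin (2 * Real.pi * s) by linarith only [c2])
    (show 2 - 2 * Real.sin (2 * Real.pi * s) ≤
      2 * Real.cosh (2 * Real.pi * y) - 2 * Real.cos (2 * Real.pi * (3 / 4 + s)) by
      rw [c1]; linarith only [h2])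
  linarith only [this]

theorem YY_quarter_ge (h0 : 0 ≤ s) (h1 : s ≤ 1 / 4) (hy : 0 ≤ y) :
    -(Real.pi / 4) + Real.pi * s ≤ YY ⟨1 / 4 + s, y⟩ := by
  have hpi := Real.pi_pos
  rcases hy.eq_or_lt with h | h
  · rw [← h, YY_mk_zero]
    nlinarith only [h1, hpi]
  · rw [YY_mk_pos h]
    have := pi_mul_le_Tr (s := y) (x := 1 / 4 + s) (by linarith only [h0]) (by linarith only [h1]) h
    linarith only [this]

theorem YY_three_quarter_ge (h0 : 0 ≤ s) (h1 : s ≤ 1 / 4) :
    -(Real.pi / 4) - Real.pi * s ≤ YY ⟨3 / 4 + s, y⟩ := by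
  have hpi := Real.pi_pos
  rcases lt_trichotomy y 0 with h | h | h
  · rw [YY_mk_neg h]
    have := Tr_le_pi_mul (s := -y) (x := 3 / 4 + s) (by linarith only [h0]) (by linarith only [h1]) (by linarith only [h])
    linarith only [this]
  · rw [h, YY_mk_zero]
    nlinarith only [hpi, h0]
  · rw [YY_mk_pos h]
    have := half_le_Tr (s := y) (x := 3 / 4 + s) h (by linarith only [h0])
    nlinarith only [hpi, this, h0]

/-- the pair of factors near `1/4` and `3/4` -/
theorem pair_ge_of (hX : X ≤ 1 / 100 ∧ e = 24 / 100 ∨ X ≤ 2 / 100 ∧ e = 3 / 10)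
    (h0 : 0 < x) (h1 : x ≤ X) (h2 : 0 ≤ t) (h3 : t ≤ 56 / 100 * x) (hρ : 0 ≤ ρ) :
    -(e * x) ≤ uu (x + 1 / 4) (t + ρ) + uu (x + 3 / 4) (t - ρ) := by
  have hpi := Real.pi_pos
  have row : ∀ s : ℝ, 0 ≤ s → s ≤ X → -e ≤ Real.log 2 / 2 +
      Real.log (2 - 2 * Real.sin (2 * Real.pi * s)) / 2 - 56 / 100 * (Real.pi / 2 + Real.pi * s) := by
    intro s hs hs'
    rcases hX with ⟨h, rfl⟩ | ⟨h, rfl⟩
    · exact row3 hs (hs'.trans h)
    · exact row2 hs (hs'.trans h)
  have hX2 : X ≤ 2 / 100 := by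
    rcases hX with ⟨h, rfl⟩ | ⟨h, rfl⟩ <;> linarith only [h0, h1, h]
  set κ := t / x with hκ
  have hκ0 : 0 ≤ κ := by positivity
  have hκ1 : κ ≤ 56 / 100 := by rw [hκ, div_le_iff₀ h0]; exact h3
  have hκx : κ * x = t := by rw [hκ]; field_simp
  set u : ℂ := ⟨1 / 4, ρ⟩ with hu
  set v : ℂ := ⟨3 / 4, -ρ⟩ with hv
  have ure : ∀ s : ℝ, (u + s * (((1 : ℝ) : ℂ) * (1 + κ * Complex.I))) = ⟨1 / 4 + s, ρ + κ * s⟩ := by
    intro s
    apply Complex.ext <;> simp [hu]
    ring
  have vre : ∀ s : ℝ, (v + s * (((1 : ℝ) : ℂ) * (1 + κ * Complex.I))) = ⟨3 / 4 + s, -ρ + κ * s⟩ := by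
    intro s
    apply Complex.ext <;> simp [hv]
    ring
  have hd : ∀ s ∈ Set.Icc (0 : ℝ) x, HasDerivAt (fun s : ℝ =>
      UU (u + s * (((1 : ℝ) : ℂ) * (1 + κ * Complex.I))) +
      UU (v + s * (((1 : ℝ) : ℂ) * (1 + κ * Complex.I))) + e * s)
      (1 * Dq κ (u + s * (((1 : ℝ) : ℂ) * (1 + κ * Complex.I))) +
      1 * Dq κ (v + s * (((1 : ℝ) : ℂ) * (1 + κ * Complex.I))) + e) s := by
    intro s hs
    have a1 := hasDerivAt_UU_q (u := u) (a := 1) (m := κ) (s := s) (by
      rw [ure]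
      exact QQm_strip ⟨by simp only; linarith only [h0, h1, hX2, hs, hs.1], by simp only; linarith only [h0, h1, hX2, hs, hs.2]⟩)
    have a2 := hasDerivAt_UU_q (u := v) (a := 1) (m := κ) (s := s) (by
      rw [vre]
      exact QQm_strip ⟨by simp only; linarith only [h0, h1, hX2, hs, hs.1], by simp only; linarith only [h0, h1, hX2, hs, hs.2]⟩)
    have a3 : HasDerivAt (fun s : ℝ => e * s) e s := by
      simpa using (hasDerivAt_id s).const_mul e
    exact (a1.add a2).add a3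
  have hm : MonotoneOn (fun s : ℝ =>
      UU (u + s * (((1 : ℝ) : ℂ) * (1 + κ * Complex.I))) +
      UU (v + s * (((1 : ℝ) : ℂ) * (1 + κ * Complex.I))) + e * s) (Set.Icc 0 x) := by
    apply monotoneOn_of_deriv_nonneg (convex_Icc _ _)
    · exact fun s hs => (hd s hs).continuousAt.continuousWithinAt
    · intro s hs
      rw [interior_Icc] at hs
      exact (hd s ⟨hs.1.le, hs.2.le⟩).differentiableAt.differentiableWithinAt
    · intro s hs
      rw [interior_Icc] at hs
      rw [(hd s ⟨hs.1.le, hs.2.le⟩).deriv, ure, vre]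
      have r := row s hs.1.le (by linarith only [h1, hs, hs.2])
      have l1 := LL_quarter_ge (s := s) (y := ρ + κ * s) hs.1.le (by linarith only [h0, h1, hX2, hs, hs.2])
      have l2 := LL_three_quarter_ge (s := s) (y := -ρ + κ * s) hs.1.le (by linarith only [h0, h1, hX2, hs, hs.2])
      have y1 := YY_quarter_ge (s := s) (y := ρ + κ * s) hs.1.le (by linarith only [h0, h1, hX2, hs, hs.2])
        (by have := mul_nonneg hκ0 hs.1.le; linarith only [hρ, this])
      have y2 := YY_three_quarter_ge (s := s) (y := -ρ + κ * s) hs.1.le (by linarith only [h0, h1, hX2, hs, hs.2])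
      have y3 : -(Real.pi / 2 + Real.pi * s) ≤ YY ⟨1 / 4 + s, ρ + κ * s⟩ + YY ⟨3 / 4 + s, -ρ + κ * s⟩ := by
        have : 0 ≤ Real.pi * s := mul_nonneg hpi.le hs.1.le
        linarith only [y1, y2, this]
      have m1 := mul_le_mul_of_nonneg_left y3 hκ0
      have m2 : κ * (Real.pi / 2 + Real.pi * s) ≤ 56 / 100 * (Real.pi / 2 + Real.pi * s) := by
        apply mul_le_mul_of_nonneg_right hκ1
        have : 0 ≤ Real.pi * s := mul_nonneg hpi.le hs.1.le
        linarith only [hpi, this]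
      unfold Dq
      linarith only [r, l1, l2, m1, m2]
  have h := hm (Set.left_mem_Icc.mpr h0.le) (Set.right_mem_Icc.mpr h0.le) h0.le
  simp only at h
  rw [ure, vre, ure, vre, hκx] at h
  have e0 : UU (⟨1 / 4 + 0, ρ + κ * 0⟩ : ℂ) + UU (⟨3 / 4 + 0, -ρ + κ * 0⟩ : ℂ) = 0 := by
    have := UU_one_sub (⟨1 / 4 + 0, ρ + κ * 0⟩ : ℂ)
    have e : (1 : ℂ) - ⟨1 / 4 + 0, ρ + κ * 0⟩ = ⟨3 / 4 + 0, -ρ + κ * 0⟩ := by
      apply Complex.ext <;> simp
      norm_num
    rw [e] at this
    linarith only [this]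
  have e1 : uu (x + 1 / 4) (t + ρ) = UU (⟨1 / 4 + x, ρ + t⟩ : ℂ) := by
    rw [UU_uu]
    simp only
    rw [add_comm x, add_comm t]
  have e2 : uu (x + 3 / 4) (t - ρ) = UU (⟨3 / 4 + x, -ρ + t⟩ : ℂ) := by
    rw [UU_uu]
    simp only
    rw [add_comm x, show t - ρ = -ρ + t by ring]
  rw [e1, e2]
  linarith only [h, e0]

/-- `LL` near `0` -/
theorem LL_small_le (h0 : 0 < x) (h1 : x ≤ 4 / 100) (h2 : 0 ≤ t) (h3 : t ≤ 224 / 10000) :
    LL ⟨x, t⟩ ≤ -(6 / 5) := by
  rw [LL_eq']
  simp only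
  have h4 := row4 h0.le h1 h2 h3
  have h5 := cosh_sub_cos_pos (u := ⟨x, t⟩) (sin_ne_of_strip ⟨h0, by simp only; linarith only [h0, h1]⟩)
  simp only at h5
  have h6 := Real.log_le_log (by linarith only [h5]) h4
  linarith only [h6, row6.1]

theorem LL_tiny_le (h0 : 0 < x) (h1 : x ≤ 2 / 100) (h2 : 0 ≤ t) (h3 : t ≤ 112 / 10000) :
    LL ⟨x, t⟩ ≤ -(19 / 10) := by
  rw [LL_eq']
  simp only
  have h4 := row5 h0.le h1 h2 h3
  have h5 := cosh_sub_cos_pos (u := ⟨x, t⟩) (sin_ne_of_strip ⟨h0, by simp only; linarith only [h0, h1]⟩)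
  simp only at h5
  have h6 := Real.log_le_log (by linarith only [h5]) h4
  linarith only [h6, row6.2]

/-- `uu` between two points of one height -/
theorem uu_sub_le (hab : a ≤ b) (h0 : 0 ≤ a) (hb : b ≤ 1 / 2)
    (hC : ∀ x, 0 < x → x ≤ b → LL ⟨x, t⟩ ≤ -c) : uu b t ≤ uu a t - c * (b - a) := by
  have key := anti_one (f := fun s => uu s t + c * s) (f' := fun s => LL ⟨s, t⟩ + c) (a := a) (b := b)
    0 hab ((continuous_uu_x t).add (by fun_prop)) (fun s hs0 hs1 _ => by
      refine ⟨(hasDerivAt_uu_x (sin_ne_of_strip ⟨by simp only; linarith only [h0, hs0], by simp only; linarith only [h0, hb, hs0, hs1]⟩)).add (by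
        simpa using (hasDerivAt_id s).const_mul c), ?_⟩
      have := hC s (by linarith only [h0, hs0]) hs1.le
      linarith only [this])
  linarith only [key]

/-- `uu` decreases in the height -/
theorem uu_height_le (h0 : 0 ≤ x) (h1 : x ≤ 1 / 2) (ha : 0 ≤ a) (hab : a ≤ b) : uu x b ≤ uu x a := by
  have h := anti_one (f := fun y => uu x y) (f' := fun y => YY ⟨x, y⟩) 0 hab (continuous_uu_y x) (by
      intro t h2 _ _
      refine ⟨hasDerivAt_uu_y (Or.inl (by linarith only [ha, h2] : (0 : ℝ) < t).ne'), ?_⟩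
      rw [YY_mk_pos (by linarith only [ha, h2])]
      have := Tr_le_half (s := t) (x := x) (by linarith only [ha, h2]) h1
      linarith only [this])
  exact h

/-- the gap, small hinge, `s ≤ x` -/
theorem gap_small (hx0 : 0 < x) (hx : x ≤ 2 / 100) (ht : t ≤ 56 / 100 * x) (hs : 0 < s) (hsx : s ≤ x)
    (hρ : 0 < ρ) (hη : 4 * ρ * s ≤ t) :
    8 * Real.pi * ρ * s * (1 - 4 * s) < fu x t (-(1 / 4)) ρ - fu x t (-(1 / 2) + s) (4 * ρ * s) := by
  have hpi := Real.pi_pos
  have hpi4 := Real.pi_lt_d4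
  have η0 : 0 < 4 * ρ * s := by positivity
  rw [GE.gap_eq, GE.far hη]
  have k0 := pair_ge_of (X := 2 / 100) (e := 3 / 10) (Or.inr ⟨le_rfl, rfl⟩) hx0 hx (by linarith only [hη, η0]) ht hρ.le
  have k1 := uu_sub_le (a := 0) (b := x + s) (t := t + 4 * ρ * s) (c := 6 / 5) (by linarith only [ht, hs, hη, η0]) le_rfl
    (by linarith only [hx, ht, hsx, hη, η0]) (fun z hz hz' => LL_small_le hz (by linarith only [hx, hsx, hz']) (by linarith only [hη, η0]) (by linarith only [hx, ht, hη]))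
  have k2 := uu_sub_le (a := 0) (b := x - s) (t := t - 4 * ρ * s) (c := 6 / 5) (by linarith only [hsx]) le_rfl
    (by linarith only [hx, ht, hs, hη, η0]) (fun z hz hz' => LL_small_le hz (by linarith only [hx, hs, hz, hz']) (by linarith only [hη]) (by linarith only [hx, ht, hs, η0, hz, hz']))
  rw [uu_zero_re, abs_of_nonneg (by linarith only [hη, η0])] at k1 k2
  have k3 : 8 * Real.pi * ρ * s * (1 - 4 * s) ≤ 2 * Real.pi * (4 * ρ * s) := by
    have : 0 ≤ 2 * Real.pi * (4 * ρ * s) * (4 * s) := by positivity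
    linarith only [this]
  have k4 : Real.pi * (4 * ρ * s) ≤ 31416 / 10000 * (56 / 100 * x) :=
    mul_le_mul (by linarith only [hpi4]) (hη.trans ht) η0.le (by norm_num)
  nlinarith only [ht, hη, η0, k0, k1, k2, k3, k4]

/-- the gap, small hinge, `x ≤ s` -/
theorem gap_tiny (hx0 : 0 < x) (ht : t ≤ 56 / 100 * x) (hs : s ≤ 1 / 100) (hsx : x ≤ s)
    (hρ : 0 < ρ) (hη : 4 * ρ * s ≤ t) :
    8 * Real.pi * ρ * s * (1 - 4 * s) < fu x t (-(1 / 4)) ρ - fu x t (-(1 / 2) + s) (4 * ρ * s) := by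
  have hpi := Real.pi_pos
  have hpi4 := Real.pi_lt_d4
  have s0 : 0 < s := by linarith only [hx0, hsx]
  have η0 : 0 < 4 * ρ * s := by positivity
  rw [GE.gap_eq, GE.near]
  have k0 := pair_ge_of (X := 1 / 100) (e := 24 / 100) (Or.inl ⟨le_rfl, rfl⟩) hx0 (by linarith only [hs, hsx])
    (by linarith only [hη, η0]) ht hρ.le
  have k1 := uu_sub_le (a := s - x) (b := x + s) (t := t - 4 * ρ * s) (c := 19 / 10) (by linarith only [ht, hη, η0])
    (by linarith only [hsx]) (by linarith only [ht, hs, hsx, hη, η0]) (fun z hz hz' => LL_tiny_le hz (by linarith only [hs, hsx, hz']) (by linarith only [hη]) (by linarith only [ht, hs, hsx, hη, η0]))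
  have k2 := uu_height_le (x := x + s) (a := t - 4 * ρ * s) (b := t + 4 * ρ * s) (by linarith only [ht, hsx, hη, η0])
    (by linarith only [ht, hs, hsx, hη, η0]) (by linarith only [hη]) (by linarith only [η0])
  have k3 : 8 * Real.pi * ρ * s * (1 - 4 * s) ≤ 2 * Real.pi * (4 * ρ * s) := by
    have : 0 ≤ 2 * Real.pi * (4 * ρ * s) * (4 * s) := by positivity
    linarith only [this]
  have k4 : Real.pi * (4 * ρ * s) ≤ 31416 / 10000 * (56 / 100 * x) :=
    mul_le_mul (by linarith only [hpi4]) (hη.trans ht) η0.le (by norm_num)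
  nlinarith only [ht, hη, η0, k0, k1, k2, k3, k4]

end Pool.Agent.Work.MP_b30479_gt.G2
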