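import Mathlib

/-!
# Positivity of the inner letters of a ring

`φ_s = x + α s + i (y - β s)`, `u = α - i β`; `a_s = arg sin φ_s`, `ψ₁ = arctan (tanh β / tan α)`
(`arg sin u = -ψ₁`), `ψ₂ = arctan (tan α tanh β)` (`arg cos u = ψ₂`), so that
`arg Fm φ_l u = a_l + a_{l+1} + 2 ψ₁ - ψ₂`.

Proof.  `a_s = arctan (cot x_s tanh y_s)` for `0 < x_s < π`.
(Upper bound) `a_s ≤ max (a_1, a_{a-1}, 0)`: on `y_s ≥ 0, x_s ≤ π/2` it is decreasing in `s`, on
`y_s ≤ 0, x_s ≥ π/2` increasing, elsewhere `≤ 0`.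
(Lower bound) `-a_s < ψ₁ - ψ₂/2`: only for `y_s > 0, x_s > π/2` (or both `<`, by symmetry); let
`r > 0` with `y_s = β r`, `δ = |xc - π/2|` with `xc` the value of `x_s` where `y_s = 0`; then
`|cot x_s| = tan (δ - α r) ≤ (δ - α r) / cos (4/5)`, `tanh (β r) ≤ β r ≤ 1.18 r tanh β`, whereas
`tan (ψ₁ - ψ₂/2) ≥ tanh β (cot α - tan α / 2) / (1 + tanh² β / 2)`.
At an end (`φ_a = π`): `cot (α r) tanh (β r) ≤ cot (2 α) tanh (2 β)
= tanh β (cot α - tan α) / (1 + tanh² β)` for `r ≥ 2`.
-/

namespace Pool.Agent.Work.MP_b30479_gt.G2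

/-- the invariant of a letter: its shape is `1 - 2 / Fm` -/
noncomputable def Fm (φ u : ℂ) : ℂ :=
  Complex.sin φ * Complex.sin (φ + u) / (Complex.sin u ^ 2 * Complex.cos u)

lemma shape_im_pos {φ u : ℂ} (h : 0 < (Fm φ u).im) :
    0 < (1 - 2 * Complex.sin u ^ 2 * Complex.cos u /
      (Complex.sin φ * Complex.sin (φ + u))).im := by
  have h1 : 2 * Complex.sin u ^ 2 * Complex.cos u / (Complex.sin φ * Complex.sin (φ + u)) =
      2 * (Fm φ u)⁻¹ := by
    unfold Fm
    rw [inv_div]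
    ring
  rw [h1, Complex.sub_im, Complex.one_im, Complex.mul_im, Complex.inv_im, Complex.inv_re]
  have h2 : Fm φ u ≠ 0 := by
    intro h0
    rw [h0] at h
    simp at h
  have h3 : 0 < Complex.normSq (Fm φ u) := Complex.normSq_pos.2 h2
  have h4 : (2 : ℂ).re = 2 := rfl
  have h5 : (2 : ℂ).im = 0 := rfl
  rw [h4, h5, neg_div]
  have h6 : 0 < (Fm φ u).im / Complex.normSq (Fm φ u) := div_pos h h3
  linarith only [h6]

/-- a phase -/
noncomputable def ph4 (α β x y s : ℝ) : ℂ := ((x + α * s : ℝ) : ℂ) + ((y - β * s : ℝ) : ℂ) * Complex.I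

/-! ### Arguments -/

lemma rp_arg_arctan {z : ℂ} (h : 0 < z.re) : z.arg = Real.arctan (z.im / z.re) := by
  symm
  refine Real.arctan_eq_of_tan_eq (Complex.tan_arg z) ?_
  have := Complex.abs_arg_lt_pi_div_two_iff.2 (Or.inl h)
  rw [abs_lt] at this
  exact ⟨this.1, this.2⟩

lemma rp_sin_re (x y : ℝ) : (Complex.sin ((x : ℂ) + (y : ℂ) * Complex.I)).re =
    Real.sin x * Real.cosh y := by
  rw [Complex.sin_add_mul_I, ← Complex.ofReal_sin, ← Complex.ofReal_cos, ← Complex.ofReal_cosh,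
    ← Complex.ofReal_sinh, ← Complex.ofReal_mul, ← Complex.ofReal_mul]
  simp only [Complex.add_re, Complex.mul_re, Complex.ofReal_re, Complex.ofReal_im,
    Complex.I_re, Complex.I_im]
  ring

lemma rp_sin_im (x y : ℝ) : (Complex.sin ((x : ℂ) + (y : ℂ) * Complex.I)).im =
    Real.cos x * Real.sinh y := by
  rw [Complex.sin_add_mul_I, ← Complex.ofReal_sin, ← Complex.ofReal_cos, ← Complex.ofReal_cosh,
    ← Complex.ofReal_sinh, ← Complex.ofReal_mul, ← Complex.ofReal_mul]
  simp only [Complex.ofReal_re, Complex.ofReal_im,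
    Complex.add_im, Complex.mul_im, Complex.I_re, Complex.I_im]
  ring

lemma rp_cos_re (x y : ℝ) : (Complex.cos ((x : ℂ) + (y : ℂ) * Complex.I)).re =
    Real.cos x * Real.cosh y := by
  rw [Complex.cos_add_mul_I, ← Complex.ofReal_sin, ← Complex.ofReal_cos, ← Complex.ofReal_cosh,
    ← Complex.ofReal_sinh, ← Complex.ofReal_mul, ← Complex.ofReal_mul]
  simp only [Complex.sub_re, Complex.mul_re, Complex.ofReal_re, Complex.ofReal_im,
    Complex.I_re, Complex.I_im]
  ring

lemma rp_cos_im (x y : ℝ) : (Complex.cos ((x : ℂ) + (y : ℂ) * Complex.I)).im =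
    - (Real.sin x * Real.sinh y) := by
  rw [Complex.cos_add_mul_I, ← Complex.ofReal_sin, ← Complex.ofReal_cos, ← Complex.ofReal_cosh,
    ← Complex.ofReal_sinh, ← Complex.ofReal_mul, ← Complex.ofReal_mul]
  simp only [Complex.ofReal_re, Complex.ofReal_im,
    Complex.sub_im, Complex.mul_im, Complex.I_re, Complex.I_im]
  ring

/-- `cot x tanh y` -/
noncomputable def rpc (x y : ℝ) : ℝ := Real.cos x / Real.sin x * Real.tanh y

lemma rp_arg_sin {x : ℝ} (y : ℝ) (h0 : 0 < x) (h1 : x < Real.pi) :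
    (Complex.sin ((x : ℂ) + (y : ℂ) * Complex.I)).arg = Real.arctan (rpc x y) := by
  have hs := Real.sin_pos_of_pos_of_lt_pi h0 h1
  have hc := Real.cosh_pos y
  rw [rp_arg_arctan (by rw [rp_sin_re]; positivity), rp_sin_re, rp_sin_im, rpc,
    Real.tanh_eq_sinh_div_cosh]
  congr 1
  field_simp

lemma rp_sin_ne {x : ℝ} (y : ℝ) (h0 : 0 < x) (h1 : x < Real.pi) :
    Complex.sin ((x : ℂ) + (y : ℂ) * Complex.I) ≠ 0 := by
  have hs := Real.sin_pos_of_pos_of_lt_pi h0 h1
  have hc := Real.cosh_pos y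
  intro h
  have := rp_sin_re x y
  rw [h, Complex.zero_re] at this
  have h2 : 0 < Real.sin x * Real.cosh y := by positivity
  linarith only [this, h2]

/-- positivity of the imaginary part from the arguments -/
lemma rp_im_pos {α β : ℝ} (hα : 0 < α) (hα2 : α < Real.pi / 2) {x₁ y₁ x₂ y₂ : ℝ}
    (h1 : 0 < x₁) (h1' : x₁ < Real.pi) (h2 : 0 < x₂) (h2' : x₂ < Real.pi)
    (hx : x₂ = x₁ + α) (hy : y₂ = y₁ - β)
    (hlo : 0 < Real.arctan (rpc x₁ y₁) + Real.arctan (rpc x₂ y₂) +
      2 * Real.arctan (Real.tanh β / Real.tan α) - Real.arctan (Real.tan α * Real.tanh β))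
    (hhi : Real.arctan (rpc x₁ y₁) + Real.arctan (rpc x₂ y₂) +
      2 * Real.arctan (Real.tanh β / Real.tan α) - Real.arctan (Real.tan α * Real.tanh β) <
        Real.pi) :
    0 < (Fm ((x₁ : ℂ) + (y₁ : ℂ) * Complex.I) (α - β * Complex.I)).im := by
  have hpi := Real.pi_pos
  have hsα := Real.sin_pos_of_pos_of_lt_pi hα (by linarith only [hα, hα2])
  have hcα := Real.cos_pos_of_mem_Ioo ⟨by linarith only [hα, hα2], hα2⟩
  have hu : (α : ℂ) - β * Complex.I = (α : ℂ) + ((-β : ℝ) : ℂ) * Complex.I := by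
    push_cast; ring
  have hsum : ((x₁ : ℂ) + (y₁ : ℂ) * Complex.I) + (α - β * Complex.I) =
      (x₂ : ℂ) + (y₂ : ℂ) * Complex.I := by
    rw [hx, hy]; push_cast; ring
  set A := Complex.sin ((x₁ : ℂ) + (y₁ : ℂ) * Complex.I) with hA
  set B := Complex.sin ((x₂ : ℂ) + (y₂ : ℂ) * Complex.I) with hB
  set S := Complex.sin ((α : ℂ) + ((-β : ℝ) : ℂ) * Complex.I) with hS
  set C := Complex.cos ((α : ℂ) + ((-β : ℝ) : ℂ) * Complex.I) with hC
  have hFm : Fm ((x₁ : ℂ) + (y₁ : ℂ) * Complex.I) (α - β * Complex.I) = A * B / (S ^ 2 * C) := by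
    unfold Fm
    rw [hsum, hu]
  have hA0 : A ≠ 0 := rp_sin_ne _ h1 h1'
  have hB0 : B ≠ 0 := rp_sin_ne _ h2 h2'
  have hS0 : S ≠ 0 := rp_sin_ne _ hα (by linarith only [hα, hα2])
  have hCre : 0 < C.re := by
    rw [hC, rp_cos_re]
    have := Real.cosh_pos (-β)
    positivity
  have hC0 : C ≠ 0 := by
    intro h
    rw [h, Complex.zero_re] at hCre
    exact lt_irrefl _ hCre
  have argA : A.arg = Real.arctan (rpc x₁ y₁) := rp_arg_sin _ h1 h1'
  have argB : B.arg = Real.arctan (rpc x₂ y₂) := rp_arg_sin _ h2 h2'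
  have argS : S.arg = - Real.arctan (Real.tanh β / Real.tan α) := by
    rw [hS, rp_arg_sin _ hα (by linarith only [hα, hα2]), rpc, Real.tanh_neg, ← Real.arctan_neg,
      Real.tan_eq_sin_div_cos]
    congr 1
    field_simp
  have argC : C.arg = Real.arctan (Real.tan α * Real.tanh β) := by
    have hch := Real.cosh_pos β
    rw [rp_arg_arctan hCre, hC, rp_cos_re, rp_cos_im, Real.sinh_neg, Real.cosh_neg,
      Real.tanh_eq_sinh_div_cosh, Real.tan_eq_sin_div_cos]
    congr 1
    field_simp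
  set θ := Real.arctan (rpc x₁ y₁) + Real.arctan (rpc x₂ y₂) +
      2 * Real.arctan (Real.tanh β / Real.tan α) - Real.arctan (Real.tan α * Real.tanh β) with hθ
  have key : A * B / (S ^ 2 * C) = ((‖A‖ * ‖B‖ / (‖S‖ ^ 2 * ‖C‖) : ℝ) : ℂ) *
      Complex.exp ((θ : ℝ) * Complex.I) := by
    have eA := Complex.norm_mul_exp_arg_mul_I A
    have eB := Complex.norm_mul_exp_arg_mul_I B
    have eS := Complex.norm_mul_exp_arg_mul_I S
    have eC := Complex.norm_mul_exp_arg_mul_I C
    have hexp : Complex.exp ((θ : ℝ) * Complex.I) = Complex.exp (A.arg * Complex.I) *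
        Complex.exp (B.arg * Complex.I) / (Complex.exp (S.arg * Complex.I) ^ 2 *
        Complex.exp (C.arg * Complex.I)) := by
      rw [← Complex.exp_add, ← Complex.exp_nat_mul, ← Complex.exp_add, ← Complex.exp_sub]
      congr 1
      rw [argA, argB, argS, argC, hθ]
      push_cast
      ring
    rw [hexp]
    conv_lhs => rw [← eA, ← eB, ← eS, ← eC]
    have n1 : (‖S‖ : ℂ) ≠ 0 := by exact_mod_cast (norm_ne_zero_iff.2 hS0)
    have n2 : (‖C‖ : ℂ) ≠ 0 := by exact_mod_cast (norm_ne_zero_iff.2 hC0)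
    have n3 := Complex.exp_ne_zero (S.arg * Complex.I)
    have n4 := Complex.exp_ne_zero (C.arg * Complex.I)
    push_cast
    field_simp
  rw [hFm, key, Complex.im_ofReal_mul, Complex.exp_ofReal_mul_I_im]
  have nA : 0 < ‖A‖ := norm_pos_iff.2 hA0
  have nB : 0 < ‖B‖ := norm_pos_iff.2 hB0
  have nS : 0 < ‖S‖ := norm_pos_iff.2 hS0
  have nC : 0 < ‖C‖ := norm_pos_iff.2 hC0
  have := Real.sin_pos_of_pos_of_lt_pi hlo hhi
  positivity

/-! ### Real inequalities -/

lemma rp_cos_ge : (0.6928 : ℝ) ≤ Real.cos (4 / 5) := by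
  have h := Real.one_sub_sq_div_two_le_cos (x := 2 / 5)
  have h2 : Real.cos (4 / 5) = 2 * Real.cos (2 / 5) ^ 2 - 1 := by
    rw [← Real.cos_two_mul]; norm_num
  rw [h2]
  nlinarith only [h]

/-- bounds for `tan α` -/
lemma rp_tan_bds {α : ℝ} (hα : 0 < α) (hα2 : α ≤ 4 / 5) :
    0 < Real.tan α ∧ Real.tan α ^ 2 ≤ 1.0835 ∧ Real.tan α ≤ α / 0.6928 ∧ 0.6928 ≤ Real.cos α := by
  have hpi := Real.pi_gt_three
  have hc : 0.6928 ≤ Real.cos α := rp_cos_ge.trans
    (Real.cos_le_cos_of_nonneg_of_le_pi hα.le (by linarith only [hα, hα2, hpi]) hα2)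
  have hs := Real.sin_pos_of_pos_of_lt_pi hα (by linarith only [hα, hα2, hpi])
  have hc0 : 0 < Real.cos α := by linarith only [hα, hα2, hc]
  have hsq := Real.sin_sq_add_cos_sq α
  refine ⟨?_, ?_, ?_, hc⟩
  · rw [Real.tan_eq_sin_div_cos]; positivity
  · rw [Real.tan_eq_sin_div_cos, div_pow, div_le_iff₀ (by positivity)]
    nlinarith only [hc, hsq]
  · rw [Real.tan_eq_sin_div_cos, div_le_div_iff₀ hc0 (by norm_num)]
    have := (Real.sin_lt hα).le
    nlinarith only [this, hα, hc]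

/-- `z` below `4/5`: `tan z ≤ z / cos (4/5)` -/
lemma rp_tan_le {z : ℝ} (h0 : 0 < z) (h1 : z ≤ 4 / 5) : Real.tan z ≤ z / 0.6928 :=
  (rp_tan_bds h0 h1).2.2.1

lemma rp_beta_le {β : ℝ} (hβ : 0 < β) {t : ℝ} (ht : t ^ 2 ≤ 1.0835) (ht0 : 0 < t)
    (hh : Real.tanh β ≤ t / 2) : β ≤ 1.18 * Real.tanh β := by
  have hc := Real.cosh_pos β
  have hs : β ≤ Real.sinh β := Real.self_le_sinh_iff.2 hβ.le
  have hs0 : 0 < Real.sinh β := Real.sinh_pos_iff.2 hβ
  have hsq := Real.cosh_sq β
  have h1 : Real.tanh β * Real.cosh β = Real.sinh β := by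
    rw [Real.tanh_eq_sinh_div_cosh]; field_simp
  have hτ : 0 < Real.tanh β := by
    rw [Real.tanh_eq_sinh_div_cosh]; positivity
  have h2 : Real.tanh β ^ 2 ≤ 0.270875 := by nlinarith only [ht, ht0, hh, hτ]
  have h3 : Real.cosh β ≤ 1.18 := by
    by_contra h
    push Not at h
    have h4 : Real.sinh β ^ 2 = Real.tanh β ^ 2 * Real.cosh β ^ 2 := by rw [← h1]; ring
    nlinarith only [hsq, h, h4, h2, hc, sq_nonneg (Real.cosh β)]
  calc β ≤ Real.sinh β := hs
    _ = Real.tanh β * Real.cosh β := h1.symm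
    _ ≤ Real.tanh β * 1.18 := mul_le_mul_of_nonneg_left h3 hτ.le
    _ = _ := by ring

lemma rp_tanh_le {z : ℝ} (hz : 0 ≤ z) : Real.tanh z ≤ z := by
  have hmono : MonotoneOn (fun w : ℝ => w * Real.cosh w - Real.sinh w) (Set.Ici 0) := by
    refine monotoneOn_of_deriv_nonneg (convex_Ici 0) (by fun_prop) (by fun_prop) ?_
    intro w hw
    rw [interior_Ici, Set.mem_Ioi] at hw
    have h1 : HasDerivAt (fun w : ℝ => w * Real.cosh w - Real.sinh w)
        (1 * Real.cosh w + w * Real.sinh w - Real.cosh w) w :=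
      ((hasDerivAt_id w).mul (Real.hasDerivAt_cosh w)).sub (Real.hasDerivAt_sinh w)
    rw [h1.deriv]
    have := Real.sinh_pos_iff.2 hw
    have : 0 < w * Real.sinh w := by positivity
    linarith only [this]
  have h2 := hmono (Set.mem_Ici.2 le_rfl) (Set.mem_Ici.2 hz) hz
  simp only [Real.sinh_zero, zero_mul, sub_zero] at h2
  rw [Real.tanh_eq_sinh_div_cosh, div_le_iff₀ (Real.cosh_pos z)]
  linarith only [h2]

/-- the constant of the lower bound -/
noncomputable def rpK (t τ : ℝ) : ℝ := τ * (1 / t - t / 2) / (1 + τ ^ 2 / 2)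

/-- the inequality for the letters inside -/
lemma rp_inner {α β δ r : ℝ} (hα : 0 < α) (hα2 : α ≤ 4 / 5) (hβ : 0 < β)
    (hh : Real.tanh β ≤ Real.tan α / 2) (hδ : δ ≤ 4 / 5) (hr : 0 < r) (hr2 : α * r < δ) :
    Real.tan (δ - α * r) * Real.tanh (β * r) < rpK (Real.tan α) (Real.tanh β) := by
  obtain ⟨ht0, ht2, ht3, hcα⟩ := rp_tan_bds hα hα2
  have hβ2 := rp_beta_le hβ ht2 ht0 hh
  have hτ0 : 0 < Real.tanh β := by
    have := Real.sinh_pos_iff.2 hβ
    have := Real.cosh_pos β
    rw [Real.tanh_eq_sinh_div_cosh]; positivity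
  set τ := Real.tanh β with hτ
  set t := Real.tan α with ht
  have hτ2 : τ ^ 2 ≤ 0.270875 := by nlinarith only [ht2, hα, hα2, hβ, hh, hβ2, ht0]
  have hz0 : 0 < δ - α * r := by linarith only [hr2]
  have hz1 : δ - α * r ≤ 4 / 5 := by nlinarith only [hδ, hα, hr]
  have htz := rp_tan_le hz0 hz1
  have htz0 := (rp_tan_bds hz0 hz1).1
  have h1 : Real.tanh (β * r) ≤ 1.18 * τ * r := by
    refine (rp_tanh_le (by positivity)).trans ?_
    nlinarith only [hα, hα2, hr, hβ2]
  have h2 : Real.tan (δ - α * r) * Real.tanh (β * r) ≤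
      (δ - α * r) / 0.6928 * (1.18 * τ * r) := by
    refine mul_le_mul htz h1 ?_ (by positivity)
    have h3 : 0 < β * r := by positivity
    have := Real.sinh_pos_iff.2 h3
    have := Real.cosh_pos (β * r)
    rw [Real.tanh_eq_sinh_div_cosh]; positivity
  refine h2.trans_lt ?_
  unfold rpK
  rw [lt_div_iff₀ (by positivity)]
  -- multiply by `α t`
  have h4 : (δ - α * r) * (α * r) ≤ 0.16 := by
    have hw : 0 < α * r := by positivity
    have h6 : (δ - α * r) * (α * r) ≤ (4 / 5 - α * r) * (α * r) :=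
      mul_le_mul_of_nonneg_right (by linarith only [hδ]) hw.le
    nlinarith only [h6, sq_nonneg (α * r - 2 / 5)]
  have h5 : (δ - α * r) / 0.6928 * (1.18 * τ * r) * (1 + τ ^ 2 / 2) * (α * t) <
      τ * (1 / t - t / 2) * (α * t) := by
    have e1 : (δ - α * r) / 0.6928 * (1.18 * τ * r) * (1 + τ ^ 2 / 2) * (α * t) =
        ((δ - α * r) * (α * r)) * (1.18 / 0.6928 * τ * (1 + τ ^ 2 / 2) * t) := by ring
    have e2 : τ * (1 / t - t / 2) * (α * t) = τ * α * (1 - t ^ 2 / 2) := by
      field_simp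
    rw [e1, e2]
    calc ((δ - α * r) * (α * r)) * (1.18 / 0.6928 * τ * (1 + τ ^ 2 / 2) * t)
        ≤ 0.16 * (1.18 / 0.6928 * τ * (1 + τ ^ 2 / 2) * t) :=
          mul_le_mul_of_nonneg_right h4 (by positivity)
      _ ≤ 0.16 * (1.18 / 0.6928 * τ * (1 + τ ^ 2 / 2) * (α / 0.6928)) := by
          gcongr
      _ ≤ 0.16 * (1.18 / 0.6928 * τ * (1 + 0.270875 / 2) * (α / 0.6928)) := by
          gcongr
      _ < τ * α * (1 - 1.0835 / 2) := by
          have h7 : 0 < τ * α := by positivity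
          have h8 : 0.16 * (1.18 / 0.6928 * τ * (1 + 0.270875 / 2) * (α / 0.6928)) =
              τ * α * (0.16 * 1.18 / 0.6928 ^ 2 * (1 + 0.270875 / 2)) := by ring
          rw [h8]
          exact mul_lt_mul_of_pos_left (by norm_num) h7
      _ ≤ τ * α * (1 - t ^ 2 / 2) := by
          gcongr
  exact lt_of_mul_lt_mul_right h5 (by positivity)

/-- the half angle -/
lemma rp_half {t τ : ℝ} (ht : 0 < t) (hτ : 0 < τ) (ht2 : t ^ 2 ≤ 1.0835) (hh : τ ≤ t / 2) {b₁ b₂ : ℝ}
    (h1 : -b₁ < rpK t τ) (h2 : -b₂ < rpK t τ) :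
    0 < Real.arctan b₁ + Real.arctan b₂ + 2 * Real.arctan (τ / t) - Real.arctan (t * τ) := by
  have hK : Real.arctan (rpK t τ) = Real.arctan (τ / t) - Real.arctan (t * τ / 2) := by
    have h3 : τ / t * (-(t * τ / 2)) < 1 := by
      have : τ / t * (-(t * τ / 2)) = -(τ ^ 2 / 2) := by field_simp
      rw [this]
      nlinarith only [sq_nonneg τ]
    have h4 := Real.arctan_add h3
    rw [Real.arctan_neg] at h4
    have h6 : 1 - τ / t * (-(t * τ / 2)) = 1 + τ ^ 2 / 2 := by
      field_simp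
      ring
    have h7 : τ / t + -(t * τ / 2) = τ * (1 / t - t / 2) := by ring
    rw [sub_eq_add_neg, h4, rpK, h6, h7]
  have hx0 : 0 < t * τ := by positivity
  have hx1 : t * τ / 2 < 1 := by nlinarith only [ht2, ht, hh]
  have h5 : Real.arctan (t * τ) ≤ 2 * Real.arctan (t * τ / 2) := by
    rw [Real.two_mul_arctan (by linarith only [hx0]) hx1]
    apply Real.arctan_le_arctan_iff.2
    rw [le_div_iff₀ (by nlinarith only [ht2, ht, hh, hx0, hx1])]
    nlinarith only [hx0, mul_pos hx0 (mul_pos hx0 hx0)]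
  have g1 := Real.arctan_lt_arctan_iff.2 h1
  have g2 := Real.arctan_lt_arctan_iff.2 h2
  rw [Real.arctan_neg, hK] at g1 g2
  linarith only [h5, g1, g2]

/-- the upper bound -/
lemma rp_upper {t τ : ℝ} (ht : 0 < t) (hτ : 0 < τ) {b₁ b₂ : ℝ}
    (h1 : Real.arctan b₁ + Real.arctan (τ / t) < Real.pi / 2)
    (h2 : Real.arctan b₂ + Real.arctan (τ / t) < Real.pi / 2) :
    Real.arctan b₁ + Real.arctan b₂ + 2 * Real.arctan (τ / t) - Real.arctan (t * τ) <
      Real.pi := by
  have : 0 < Real.arctan (t * τ) := Real.arctan_pos.2 (by positivity)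
  linarith only [h1, h2, this]

lemma rp_cot_anti {x x' : ℝ} (h0 : 0 < x) (h1 : x ≤ x') (h2 : x' < Real.pi) :
    Real.cos x' / Real.sin x' ≤ Real.cos x / Real.sin x := by
  have hs := Real.sin_pos_of_pos_of_lt_pi h0 (by linarith only [h1, h2])
  have hs' := Real.sin_pos_of_pos_of_lt_pi (by linarith only [h0, h1] : 0 < x') h2
  rw [div_le_div_iff₀ hs' hs]
  have h3 : 0 ≤ Real.sin (x' - x) :=
    Real.sin_nonneg_of_nonneg_of_le_pi (by linarith only [h1]) (by linarith only [h0, h2])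
  rw [Real.sin_sub] at h3
  linarith only [h3]

lemma rp_tanh_mono {y y' : ℝ} (h : y ≤ y') : Real.tanh y ≤ Real.tanh y' := by
  rw [Real.tanh_eq_sinh_div_cosh, Real.tanh_eq_sinh_div_cosh,
    div_le_div_iff₀ (Real.cosh_pos _) (Real.cosh_pos _)]
  have h3 : 0 ≤ Real.sinh (y' - y) := Real.sinh_nonneg_iff.2 (by linarith only [h])
  rw [Real.sinh_sub] at h3
  linarith only [h3]

lemma rp_tanh_nonneg {y : ℝ} (h : 0 ≤ y) : 0 ≤ Real.tanh y := by
  have := rp_tanh_mono h
  rwa [Real.tanh_zero] at this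

/-- `rpc x y ≤ max (rpc x₁ y₁) (max (rpc x₂ y₂) 0)` -/
lemma rpc_le {x₁ x x₂ y₁ y y₂ : ℝ} (h0 : 0 < x₁) (h1 : x₁ ≤ x) (h2 : x ≤ x₂) (h3 : x₂ < Real.pi)
    (hy1 : y ≤ y₁) (hy2 : y₂ ≤ y) : rpc x y ≤ rpc x₁ y₁ ∨ rpc x y ≤ rpc x₂ y₂ ∨ rpc x y ≤ 0 := by
  have hpi := Real.pi_pos
  have c1 := rp_cot_anti h0 h1 (by linarith only [h2, h3])
  have c2 := rp_cot_anti (by linarith only [h0, h1] : 0 < x) h2 h3
  have hs := Real.sin_pos_of_pos_of_lt_pi (by linarith only [h0, h1] : 0 < x) (by linarith only [h2, h3])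
  have t1 := rp_tanh_mono hy1
  have t2 := rp_tanh_mono hy2
  unfold rpc
  rcases le_total 0 y with hy | hy
  · have ty := rp_tanh_nonneg hy
    rcases le_total 0 (Real.cos x / Real.sin x) with hc | hc
    · left
      exact mul_le_mul c1 t1 ty (hc.trans c1)
    · right; right
      exact mul_nonpos_of_nonpos_of_nonneg hc ty
  · have ty : Real.tanh y ≤ 0 := by
      have := rp_tanh_mono hy
      rwa [Real.tanh_zero] at this
    rcases le_total 0 (Real.cos x / Real.sin x) with hc | hc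
    · right; right
      exact mul_nonpos_of_nonneg_of_nonpos hc ty
    · right; left
      have := mul_le_mul (neg_le_neg c2) (neg_le_neg t2) (by linarith only [ty] : 0 ≤ -Real.tanh y)
        (by linarith only [c2, hc])
      linarith only [this, neg_mul_neg (Real.cos x / Real.sin x) (Real.tanh y),
        neg_mul_neg (Real.cos x₂ / Real.sin x₂) (Real.tanh y₂)]

/-- the lower bound inside -/
lemma rpc_lower {α β xc r : ℝ} (hα : 0 < α) (hα2 : α ≤ 4 / 5) (hβ : 0 < β)
    (hh : Real.tanh β ≤ Real.tan α / 2) (hc : |xc - Real.pi / 2| ≤ 4 / 5)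
    (h0 : 0 < xc - α * r) (h1 : xc - α * r < Real.pi) :
    -rpc (xc - α * r) (β * r) < rpK (Real.tan α) (Real.tanh β) := by
  obtain ⟨ht0, ht2, ht3, hcα⟩ := rp_tan_bds hα hα2
  have hτ0 : 0 < Real.tanh β := by
    have := Real.sinh_pos_iff.2 hβ
    have := Real.cosh_pos β
    rw [Real.tanh_eq_sinh_div_cosh]; positivity
  have hK : 0 < rpK (Real.tan α) (Real.tanh β) := by
    unfold rpK
    have : 0 < 1 / Real.tan α - Real.tan α / 2 := by
      rw [sub_pos, div_lt_div_iff₀ (by norm_num) ht0]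
      nlinarith only [hα, hα2, ht2]
    positivity
  have hs := Real.sin_pos_of_pos_of_lt_pi h0 h1
  rw [abs_le] at hc
  have hcot : ∀ z : ℝ, Real.cos (Real.pi / 2 + z) / Real.sin (Real.pi / 2 + z) = -Real.tan z := by
    intro z
    rw [Real.tan_eq_sin_div_cos, add_comm, Real.cos_add_pi_div_two, Real.sin_add_pi_div_two]
    ring
  have e1 : xc - α * r = Real.pi / 2 + (xc - Real.pi / 2 - α * r) := by ring
  have e2 : rpc (xc - α * r) (β * r) =
      -Real.tan (xc - Real.pi / 2 - α * r) * Real.tanh (β * r) := by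
    unfold rpc
    rw [e1, hcot]
  rw [e2]
  rcases lt_trichotomy r 0 with hr | hr | hr
  · by_cases h2 : α * (-r) < Real.pi / 2 - xc
    · have := rp_inner hα hα2 hβ hh (by linarith only [hc] : Real.pi / 2 - xc ≤ 4 / 5)
        (by linarith only [hr] : 0 < -r) h2
      have e3 : Real.pi / 2 - xc - α * -r = -(xc - Real.pi / 2 - α * r) := by ring
      have e4 : β * -r = -(β * r) := by ring
      rw [e3, e4, Real.tan_neg, Real.tanh_neg] at this
      linarith only [this]
    · push Not at h2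
      have h3 : 0 ≤ Real.tan (xc - Real.pi / 2 - α * r) := by
        apply Real.tan_nonneg_of_nonneg_of_le_pi_div_two
        · linarith only [h2]
        · linarith only [h1]
      have h4 : Real.tanh (β * r) ≤ 0 := by
        have := rp_tanh_mono (by nlinarith only [hα, hα2, hβ, hr] : β * r ≤ 0)
        rwa [Real.tanh_zero] at this
      nlinarith only [hα, hK, hα2, h3, h4]
  · rw [hr]
    simp only [mul_zero, Real.tanh_zero, neg_zero]
    exact hK
  · by_cases h2 : α * r < xc - Real.pi / 2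
    · have := rp_inner hα hα2 hβ hh (by linarith only [hc] : xc - Real.pi / 2 ≤ 4 / 5) hr h2
      linarith only [this]
    · push Not at h2
      have h3 : Real.tan (xc - Real.pi / 2 - α * r) ≤ 0 := by
        have := Real.tan_nonneg_of_nonneg_of_le_pi_div_two
          (by linarith only [h2] : 0 ≤ -(xc - Real.pi / 2 - α * r)) (by linarith only [h0])
        rw [Real.tan_neg] at this
        linarith only [this]
      have h4 : 0 ≤ Real.tanh (β * r) := rp_tanh_nonneg (by positivity)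
      nlinarith only [hα, hK, hα2, h3, h4]

lemma rp_tau_pos {β : ℝ} (hβ : 0 < β) : 0 < Real.tanh β := by
  have := Real.sinh_pos_iff.2 hβ
  have := Real.cosh_pos β
  rw [Real.tanh_eq_sinh_div_cosh]; positivity

theorem mid_pos {α β x y : ℝ} {a l : ℕ} (hα : 0 < α) (hα2 : α ≤ 4 / 5) (hβ : 0 < β)
    (hh : Real.tanh β ≤ Real.tan α / 2) (h1 : 0 < x + α) (h2 : x + α * (a - 1) < Real.pi)
    (hc : |x + α * (y / β) - Real.pi / 2| ≤ 4 / 5)
    (hA : (Complex.sin (ph4 α β x y 1)).arg + Real.arctan (Real.tanh β / Real.tan α) < Real.pi / 2)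
    (hB : (Complex.sin (ph4 α β x y (a - 1))).arg + Real.arctan (Real.tanh β / Real.tan α) <
      Real.pi / 2) (hl : 1 ≤ l) (hl2 : l + 2 ≤ a) :
    0 < (Fm (ph4 α β x y l) (α - β * Complex.I)).im := by
  have hpi := Real.pi_gt_three
  obtain ⟨ht0, ht2, ht3, hcα⟩ := rp_tan_bds hα hα2
  have hτ0 := rp_tau_pos hβ
  have hl' : (1 : ℝ) ≤ l := by exact_mod_cast hl
  have hl2' : (l : ℝ) + 2 ≤ a := by exact_mod_cast hl2
  have hup : ∀ s : ℝ, 1 ≤ s → s ≤ a - 1 →
      Real.arctan (rpc (x + α * s) (y - β * s)) + Real.arctan (Real.tanh β / Real.tan α) <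
        Real.pi / 2 := by
    intro s hs1 hs2
    have g1 : x + α * 1 ≤ x + α * s := by nlinarith only [hα, hs1]
    have g2 : x + α * s ≤ x + α * (a - 1) := by nlinarith only [hα, hs2]
    rw [ph4, rp_arg_sin _ (by linarith only [h1]) (by linarith only [h2, g1, g2])] at hA
    rw [ph4, rp_arg_sin _ (by linarith only [h1, g1, g2]) h2] at hB
    rcases rpc_le (by linarith only [h1] : 0 < x + α * 1) g1 g2 h2
      (by nlinarith only [hα, hα2, hβ, hs1] : y - β * s ≤ y - β * 1) (by nlinarith only [hα, hα2, hβ, hs2] : y - β * (a - 1) ≤ y - β * s)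
      with h | h | h
    · have := Real.arctan_le_arctan_iff.2 h
      linarith only [hA, this]
    · have := Real.arctan_le_arctan_iff.2 h
      linarith only [hB, this]
    · have := Real.arctan_le_arctan_iff.2 h
      rw [Real.arctan_zero] at this
      have := Real.arctan_lt_pi_div_two (Real.tanh β / Real.tan α)
      linarith
  have hlow : ∀ s : ℝ, 1 ≤ s → s ≤ a - 1 →
      -rpc (x + α * s) (y - β * s) < rpK (Real.tan α) (Real.tanh β) := by
    intro s hs1 hs2
    have g1 : x + α * 1 ≤ x + α * s := by nlinarith only [hα, hs1]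
    have g2 : x + α * s ≤ x + α * (a - 1) := by nlinarith only [hα, hs2]
    have e1 : x + α * s = x + α * (y / β) - α * (y / β - s) := by ring
    have e2 : y - β * s = β * (y / β - s) := by field_simp
    rw [e1, e2]
    apply rpc_lower hα hα2 hβ hh hc
    · rw [← e1]; linarith only [h1, g1]
    · rw [← e1]; linarith only [h2, g2]
  have g1 : x + α * 1 ≤ x + α * (l : ℝ) := by nlinarith only [hα, hl']
  have g2 : x + α * ((l : ℝ) + 1) ≤ x + α * (a - 1) := by nlinarith only [hα, hl2']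
  have g3 : x + α * (l : ℝ) < x + α * ((l : ℝ) + 1) := by nlinarith only [hα]
  rw [ph4]
  refine rp_im_pos (x₂ := x + α * ((l : ℝ) + 1)) (y₂ := y - β * ((l : ℝ) + 1)) hα (by linarith only [hα, hα2, hpi])
    (by linarith only [h1, g1]) (by linarith only [hα, h2, g2]) (by linarith only [hα, h1, g1]) (by linarith only [h2, g2]) (by ring) (by ring) ?_ ?_
  · have ht2' : Real.tan α ^ 2 ≤ 1.0835 := ht2
    exact rp_half ht0 hτ0 ht2' hh (hlow _ hl' (by linarith only [hα, hα2, hl2'])) (hlow _ (by linarith only [hα, hα2, hl']) (by linarith only [hl2']))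
  · exact rp_upper ht0 hτ0 (hup _ hl' (by linarith only [hα, hα2, hl2'])) (hup _ (by linarith only [hα, hα2, hl']) (by linarith only [hl2']))

lemma rp_concave {w z : ℝ} (hw : 0 < w) (hwz : w ≤ z) : w * Real.tanh z ≤ z * Real.tanh w := by
  have hd : ∀ v : ℝ, HasDerivAt Real.tanh (1 / Real.cosh v ^ 2) v := by
    intro v
    have h1 : Real.tanh = fun v => Real.sinh v / Real.cosh v := by
      funext v; exact Real.tanh_eq_sinh_div_cosh v
    rw [h1]
    have h2 := (Real.hasDerivAt_sinh v).div (Real.hasDerivAt_cosh v) (Real.cosh_pos v).ne'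
    have h3 : Real.cosh v * Real.cosh v - Real.sinh v * Real.sinh v = 1 := by
      have := Real.cosh_sq v
      nlinarith only [this]
    rwa [h3] at h2
  have hcon : ConcaveOn ℝ (Set.Ici 0) Real.tanh := by
    refine AntitoneOn.concaveOn_of_deriv (convex_Ici 0)
      (fun v _ => (hd v).continuousAt.continuousWithinAt)
      (fun v _ => (hd v).differentiableAt.differentiableWithinAt) ?_
    rw [interior_Ici]
    intro v hv v' hv' hvv
    rw [Set.mem_Ioi] at hv hv'
    rw [(hd v).deriv, (hd v').deriv]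
    have h4 : Real.cosh v ≤ Real.cosh v' := by
      rw [Real.cosh_le_cosh, abs_of_pos hv, abs_of_pos hv']
      exact hvv
    have := Real.cosh_pos v
    gcongr
  have hz : 0 < z := by linarith only [hw, hwz]
  have h5 := hcon.2 (Set.mem_Ici.2 hz.le) (Set.mem_Ici.2 le_rfl)
    (by positivity : 0 ≤ w / z) (by rw [sub_nonneg, div_le_one hz]; exact hwz :
      0 ≤ 1 - w / z) (by ring)
  simp only [smul_eq_mul, mul_zero, add_zero, Real.tanh_zero] at h5
  have h6 : w / z * z = w := by field_simp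
  rw [h6] at h5
  have h7 := mul_le_mul_of_nonneg_left h5 hz.le
  have h8 : z * (w / z * Real.tanh z) = w * Real.tanh z := by field_simp
  linarith only [h7, h8]

lemma rp_convex {w z : ℝ} (hw : 0 < w) (hwz : w ≤ z) (hz2 : z < Real.pi / 2) :
    z * Real.tan w ≤ w * Real.tan z := by
  have hpi := Real.pi_pos
  have hcos : ∀ v ∈ Set.Ico (0 : ℝ) (Real.pi / 2), 0 < Real.cos v := fun v hv =>
    Real.cos_pos_of_mem_Ioo ⟨by linarith only [hw, hwz, hz2, hv, hv.1], hv.2⟩
  have hcon : ConvexOn ℝ (Set.Ico 0 (Real.pi / 2)) Real.tan := by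
    refine MonotoneOn.convexOn_of_deriv (convex_Ico _ _)
      (fun v hv => (Real.hasDerivAt_tan (hcos v hv).ne').continuousAt.continuousWithinAt)
      (fun v hv => (Real.hasDerivAt_tan
        (hcos v (interior_subset hv)).ne').differentiableAt.differentiableWithinAt) ?_
    intro v hv v' hv' hvv
    have m1 := hcos v (interior_subset hv)
    have m2 := hcos v' (interior_subset hv')
    rw [(Real.hasDerivAt_tan m1.ne').deriv, (Real.hasDerivAt_tan m2.ne').deriv]
    have h4 : Real.cos v' ≤ Real.cos v := by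
      have i1 := interior_subset hv
      have i2 := interior_subset hv'
      exact Real.cos_le_cos_of_nonneg_of_le_pi i1.1 (by linarith only [hw, hwz, hz2, i2, i2.2]) hvv
    gcongr
  have hz : 0 < z := by linarith only [hw, hwz]
  have h5 := hcon.2 (⟨hz.le, hz2⟩ : z ∈ Set.Ico 0 (Real.pi / 2))
    (⟨le_rfl, by positivity⟩ : (0 : ℝ) ∈ Set.Ico 0 (Real.pi / 2))
    (by positivity : 0 ≤ w / z) (by rw [sub_nonneg, div_le_one hz]; exact hwz :
      0 ≤ 1 - w / z) (by ring)
  simp only [smul_eq_mul, mul_zero, add_zero, Real.tan_zero] at h5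
  have h6 : w / z * z = w := by field_simp
  rw [h6] at h5
  have h7 := mul_le_mul_of_nonneg_left h5 hz.le
  have h8 : z * (w / z * Real.tan z) = w * Real.tan z := by field_simp
  linarith only [h7, h8]

/-- the lower bound at an end -/
lemma rpc_lower_end {α β r : ℝ} (hα : 0 < α) (hα2 : α ≤ 4 / 5) (hβ : 0 < β) (hr : 2 ≤ r)
    (h1 : α * r < Real.pi) :
    -rpc (Real.pi - α * r) (β * r) < rpK (Real.tan α) (Real.tanh β) := by
  obtain ⟨ht0, ht2, ht3, hcα⟩ := rp_tan_bds hα hα2
  have hτ0 := rp_tau_pos hβ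
  have hpi := Real.pi_gt_three
  have hK : 0 < rpK (Real.tan α) (Real.tanh β) := by
    unfold rpK
    have : 0 < 1 / Real.tan α - Real.tan α / 2 := by
      rw [sub_pos, div_lt_div_iff₀ (by norm_num) ht0]
      nlinarith only [hα, hα2, ht2]
    positivity
  have hr0 : 0 < α * r := by positivity
  have hs := Real.sin_pos_of_pos_of_lt_pi hr0 h1
  have hT : 0 < Real.tanh (β * r) := rp_tau_pos (by positivity)
  have e2 : -rpc (Real.pi - α * r) (β * r) =
      Real.cos (α * r) / Real.sin (α * r) * Real.tanh (β * r) := by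
    unfold rpc
    rw [Real.cos_pi_sub, Real.sin_pi_sub]
    ring
  rw [e2]
  rcases lt_or_ge (α * r) (Real.pi / 2) with h2 | h2
  · have hcr : 0 < Real.cos (α * r) := Real.cos_pos_of_mem_Ioo ⟨by linarith only [hα, hα2, hpi, hr0], h2⟩
    have htr : 0 < Real.tan (α * r) := by rw [Real.tan_eq_sin_div_cos]; positivity
    have c1 := rp_concave (by positivity : 0 < β * 2) (by nlinarith only [hα, hα2, hβ, hr] : β * 2 ≤ β * r)
    have c2 := rp_convex (by positivity : 0 < α * 2) (by nlinarith only [hα, hr] : α * 2 ≤ α * r) h2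
    have d1 : 2 * Real.tanh (β * r) ≤ r * Real.tanh (β * 2) := by
      have : β * (2 * Real.tanh (β * r)) ≤ β * (r * Real.tanh (β * 2)) := by
        calc _ = β * 2 * Real.tanh (β * r) := by ring
          _ ≤ _ := c1
          _ = _ := by ring
      exact le_of_mul_le_mul_left this hβ
    have d2 : r * Real.tan (α * 2) ≤ 2 * Real.tan (α * r) := by
      have : α * (r * Real.tan (α * 2)) ≤ α * (2 * Real.tan (α * r)) := by
        calc _ = α * r * Real.tan (α * 2) := by ring
          _ ≤ _ := c2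
          _ = _ := by ring
      exact le_of_mul_le_mul_left this hα
    have hα4 : α * 2 < Real.pi / 2 := by nlinarith only [h2, hα, hr]
    have hc2 : 0 < Real.cos (α * 2) := Real.cos_pos_of_mem_Ioo ⟨by nlinarith only [hα, hα4], hα4⟩
    have hs2 : 0 < Real.sin (α * 2) :=
      Real.sin_pos_of_pos_of_lt_pi (by positivity) (by linarith only [hα, hα4])
    have ht2p : 0 < Real.tan (α * 2) := by rw [Real.tan_eq_sin_div_cos]; positivity
    have e3 : Real.cos (α * r) / Real.sin (α * r) * Real.tanh (β * r) =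
        Real.tanh (β * r) / Real.tan (α * r) := by
      rw [Real.tan_eq_sin_div_cos]; field_simp
    have hT2 : 0 < Real.tanh (β * 2) := rp_tau_pos (by positivity)
    have d3 : Real.tanh (β * r) / Real.tan (α * r) ≤ Real.tanh (β * 2) / Real.tan (α * 2) := by
      rw [div_le_div_iff₀ htr ht2p]
      have : (2 * Real.tanh (β * r)) * (r * Real.tan (α * 2)) ≤
          (r * Real.tanh (β * 2)) * (2 * Real.tan (α * r)) :=
        mul_le_mul d1 d2 (by positivity) (by positivity)
      have h3 : 0 < 2 * r := by positivity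
      refine le_of_mul_le_mul_left ?_ h3
      calc _ = (2 * Real.tanh (β * r)) * (r * Real.tan (α * 2)) := by ring
        _ ≤ _ := this
        _ = _ := by ring
    rw [e3]
    refine d3.trans_lt ?_
    have f1 : Real.tanh (β * 2) = 2 * Real.tanh β / (1 + Real.tanh β ^ 2) := by
      have hch := Real.cosh_pos β
      rw [mul_comm, Real.tanh_eq_sinh_div_cosh, Real.tanh_eq_sinh_div_cosh, Real.sinh_two_mul,
        Real.cosh_two_mul]
      field_simp
    have hca : 0 < Real.cos α := by linarith only [hcα]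
    have f2 : Real.tan (α * 2) = 2 * Real.tan α / (1 - Real.tan α ^ 2) := by
      rw [mul_comm]
      exact Real.tan_two_mul
    have f3 : 0 < 1 - Real.tan α ^ 2 := by
      by_contra h
      push Not at h
      rw [f2] at ht2p
      have : 2 * Real.tan α / (1 - Real.tan α ^ 2) ≤ 0 :=
        div_nonpos_of_nonneg_of_nonpos (by positivity) h
      linarith only [ht2p, this]
    rw [f1, f2]
    unfold rpK
    set t := Real.tan α with ht
    set τ := Real.tanh β with hτ
    have f4 : 2 * τ / (1 + τ ^ 2) / (2 * t / (1 - t ^ 2)) =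
        τ * (1 / t - t) / (1 + τ ^ 2) := by
      field_simp
    rw [f4]
    have f5 : 0 < 1 / t - t := by
      rw [sub_pos, lt_div_iff₀ ht0]
      nlinarith only [f3]
    calc τ * (1 / t - t) / (1 + τ ^ 2) ≤ τ * (1 / t - t) / (1 + τ ^ 2 / 2) := by
          gcongr
          nlinarith only [sq_nonneg τ]
      _ < τ * (1 / t - t / 2) / (1 + τ ^ 2 / 2) := by
          gcongr
          linarith only [ht0]
  · have hcr : Real.cos (α * r) ≤ 0 :=
      Real.cos_nonpos_of_pi_div_two_le_of_le h2 (by linarith only [hα, hα2, h1, hpi])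
    have : Real.cos (α * r) / Real.sin (α * r) * Real.tanh (β * r) ≤ 0 :=
      mul_nonpos_of_nonpos_of_nonneg (div_nonpos_of_nonpos_of_nonneg hcr hs.le) hT.le
    linarith only [hK, this]

theorem mid_pos_end {α β x y : ℝ} {a l : ℕ} (hα : 0 < α) (hα2 : α ≤ 4 / 5) (hβ : 0 < β)
    (hh : Real.tanh β ≤ Real.tan α / 2) (h1 : 0 < x + α) (hx : x + α * a = Real.pi)
    (hy : y = β * a)
    (hA : (Complex.sin (ph4 α β x y 1)).arg + Real.arctan (Real.tanh β / Real.tan α) < Real.pi / 2)
    (hl : 1 ≤ l) (hl2 : l + 3 ≤ a) :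
    0 < (Fm (ph4 α β x y l) (α - β * Complex.I)).im := by
  have hpi := Real.pi_gt_three
  obtain ⟨ht0, ht2, ht3, hcα⟩ := rp_tan_bds hα hα2
  have hτ0 := rp_tau_pos hβ
  have hl' : (1 : ℝ) ≤ l := by exact_mod_cast hl
  have hl2' : (l : ℝ) + 3 ≤ a := by exact_mod_cast hl2
  have hup : ∀ s : ℝ, 1 ≤ s → s ≤ a - 2 →
      Real.arctan (rpc (x + α * s) (y - β * s)) + Real.arctan (Real.tanh β / Real.tan α) <
        Real.pi / 2 := by
    intro s hs1 hs2
    have g1 : x + α * 1 ≤ x + α * s := by nlinarith only [hα, hs1]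
    have g2 : x + α * s ≤ x + α * (a - 1) := by nlinarith only [hα, hα2, hs2]
    have g3 : x + α * (a - 1) < Real.pi := by nlinarith only [hα, hx]
    rw [ph4, rp_arg_sin _ (by linarith only [h1]) (by linarith only [hα, hx, g1, g2])] at hA
    have hψ := Real.arctan_lt_pi_div_two (Real.tanh β / Real.tan α)
    have hT : 0 ≤ Real.tanh (y - β * s) := rp_tanh_nonneg (by rw [hy]; nlinarith only [hα, hβ, hα2, hs2])
    have c1 := rp_cot_anti (by linarith only [h1] : 0 < x + α * 1) g1 (by linarith only [hα, hx, g2])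
    have t1 := rp_tanh_mono (by nlinarith only [hα, hα2, hβ, hs1] : y - β * s ≤ y - β * 1)
    rcases le_total 0 (Real.cos (x + α * s) / Real.sin (x + α * s)) with hc | hc
    · have : rpc (x + α * s) (y - β * s) ≤ rpc (x + α * 1) (y - β * 1) :=
        mul_le_mul c1 t1 hT (hc.trans c1)
      have := Real.arctan_le_arctan_iff.2 this
      linarith only [hA, this]
    · have : rpc (x + α * s) (y - β * s) ≤ 0 := mul_nonpos_of_nonpos_of_nonneg hc hT
      have := Real.arctan_le_arctan_iff.2 this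
      rw [Real.arctan_zero] at this
      linarith only [hψ, this]
  have hlow : ∀ s : ℝ, 1 ≤ s → s ≤ a - 2 →
      -rpc (x + α * s) (y - β * s) < rpK (Real.tan α) (Real.tanh β) := by
    intro s hs1 hs2
    have e1 : x + α * s = Real.pi - α * (a - s) := by rw [← hx]; ring
    have e2 : y - β * s = β * (a - s) := by rw [hy]; ring
    rw [e1, e2]
    apply rpc_lower_end hα hα2 hβ (by linarith only [hs2])
    nlinarith only [h1, hx, hα, hs1]
  have g1 : x + α * 1 ≤ x + α * (l : ℝ) := by nlinarith only [hα, hl']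
  have g2 : x + α * ((l : ℝ) + 1) ≤ x + α * (a - 1) := by nlinarith only [hα, hα2, hl2']
  have g3 : x + α * (l : ℝ) < x + α * ((l : ℝ) + 1) := by nlinarith only [hα]
  have g4 : x + α * (a - 1) < Real.pi := by nlinarith only [hα, hx]
  rw [ph4]
  refine rp_im_pos (x₂ := x + α * ((l : ℝ) + 1)) (y₂ := y - β * ((l : ℝ) + 1)) hα (by linarith only [hα, hα2, hpi])
    (by linarith only [h1, g1]) (by linarith only [hα, hx, g2]) (by linarith only [hα, h1, g1]) (by linarith only [hα, hx, g2]) (by ring) (by ring) ?_ ?_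
  · exact rp_half ht0 hτ0 ht2 hh (hlow _ hl' (by linarith only [hα, hα2, hl2'])) (hlow _ (by linarith only [hα, hα2, hl']) (by linarith only [hl2']))
  · exact rp_upper ht0 hτ0 (hup _ hl' (by linarith only [hα, hα2, hl2'])) (hup _ (by linarith only [hα, hα2, hl']) (by linarith only [hl2']))

end Pool.Agent.Work.MP_b30479_gt.G2
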