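import Pool.Agent.Work.MP_b30479_gt.G2.S0RC
import Pool.Agent.Work.NumU.Tree

/-!
# The own side of an interior `3` at slot `0`, `2 | 3`, `x` in `[.33, .36]`, after the floors `F2`: rows
-/

set_option linter.unusedSimpArgs false
set_option linter.unusedVariables false

namespace Pool.Agent.Work.MP_b30479_gt.G2

open VOL NumU

namespace S0R

open NumU.E EE

theorem fA1b {x T p t : ℝ} (ua1 : 3300 / 10000 ≤ x) (ua2 : x ≤ 3600 / 10000) (ua3 : -(530 / 10000) ≤ T) (ua4 : T ≤ -(35 / 10000)) (ua5 : 1000 / 10000 ≤ p) (ua6 : p ≤ 3200 / 10000) (ua7 : -(885 / 10000) ≤ t) (ua8 : t ≤ -(275 / 10000)) (ua9 : T - t ≤ 535 / 10000) (ua10 : t - T ≤ 40 / 10000) (ua11 : 3500 / 10000 ≤ x + p) (ua12 : x + p ≤ 6500 / 10000) :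
    rS (100 / 27) x T p t < 0 + Real.pi * (1 / 2) * (100 / 27 * T) ∨ rF (100 / 27) (x + p + 1500 / 10000) (-188 / 10000) x T p t < 0 + Real.pi * (1 / 2) * (100 / 27 * T) := by
  have h : chkT [sub (add (q 0 1) (mul (mul pi (q 1 2)) (kT 100 27))) (S 100 27), sub (add (q 0 1) (mul (mul pi (q 1 2)) (kT 100 27))) (F 100 27 (add EE.v (q 1500 10000)) (q (-188) 10000)), sub (sub EE.T EE.t) (q 535 10000), sub (sub EE.t EE.T) (q 40 10000), sub (q 3500 10000) EE.v, sub EE.v (q 6500 10000)] 30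
    194708512452502759880400639853090
    [NumI.V.of 10000 3300 3600, NumI.V.of 10000 (-530) (-35), NumI.V.of 10000 1000 3200, NumI.V.of 10000 (-885) (-275)] = true := by
    decide +kernel
  obtain ⟨f, hf, hp⟩ := chkT4 h (by norm_num) (x := x) (y := T) (z := p) (w := t)
    (by norm_num; linarith only [ua1]) (by norm_num; linarith only [ua2]) (by norm_num; linarith only [ua3]) (by norm_num; linarith only [ua4]) (by norm_num; linarith only [ua5]) (by norm_num; linarith only [ua6]) (by norm_num; linarith only [ua7]) (by norm_num; linarith only [ua8])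
  by_contra hc
  push Not at hc
  obtain ⟨hc0, hc1⟩ := hc
  simp only [List.mem_cons, List.not_mem_nil, or_false] at hf
  rcases hf with rfl | rfl | rfl | rfl | rfl | rfl
  · simp only [S_val, F_val, N_val, ui_val, EE.pa, EE.pb, EE.pc, EE.kT, nyy, EE.x, EE.T, EE.p, EE.t, EE.nt, EE.v, E.val, NumI.lkR] at hp
    push_cast at hp
    linarith only [hc0, hp]
  · simp only [S_val, F_val, N_val, ui_val, EE.pa, EE.pb, EE.pc, EE.kT, nyy, EE.x, EE.T, EE.p, EE.t, EE.nt, EE.v, E.val, NumI.lkR] at hp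
    push_cast at hp
    linarith only [hc1, hp]
  · simp only [S_val, F_val, N_val, ui_val, EE.pa, EE.pb, EE.pc, EE.kT, nyy, EE.x, EE.T, EE.p, EE.t, EE.nt, EE.v, E.val, NumI.lkR] at hp
    push_cast at hp
    linarith only [ua9, hp]
  · simp only [S_val, F_val, N_val, ui_val, EE.pa, EE.pb, EE.pc, EE.kT, nyy, EE.x, EE.T, EE.p, EE.t, EE.nt, EE.v, E.val, NumI.lkR] at hp
    push_cast at hp
    linarith only [ua10, hp]
  · simp only [S_val, F_val, N_val, ui_val, EE.pa, EE.pb, EE.pc, EE.kT, nyy, EE.x, EE.T, EE.p, EE.t, EE.nt, EE.v, E.val, NumI.lkR] at hp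
    push_cast at hp
    linarith only [ua1, ua5, hp]
  · simp only [S_val, F_val, N_val, ui_val, EE.pa, EE.pb, EE.pc, EE.kT, nyy, EE.x, EE.T, EE.p, EE.t, EE.nt, EE.v, E.val, NumI.lkR] at hp
    push_cast at hp
    linarith only [ua12, hp]

theorem fA1c {x T p t : ℝ} (ua1 : 3300 / 10000 ≤ x) (ua2 : x ≤ 3600 / 10000) (ua3 : -(530 / 10000) ≤ T) (ua4 : T ≤ -(35 / 10000)) (ua5 : 2900 / 10000 ≤ p) (ua6 : p ≤ 4200 / 10000) (ua7 : -(885 / 10000) ≤ t) (ua8 : t ≤ -(275 / 10000)) (ua9 : T - t ≤ 535 / 10000) (ua10 : t - T ≤ 40 / 10000) (ua11 : 6500 / 10000 ≤ x + p) (ua12 : x + p ≤ 7500 / 10000) :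
    rS (100 / 27) x T p t < 0 + Real.pi * (1 / 2) * (100 / 27 * T) ∨ rF (100 / 27) (80 / 100) (-188 / 10000) x T p t < 0 + Real.pi * (1 / 2) * (100 / 27 * T) := by
  have h : chkT [sub (add (q 0 1) (mul (mul pi (q 1 2)) (kT 100 27))) (S 100 27), sub (add (q 0 1) (mul (mul pi (q 1 2)) (kT 100 27))) (F 100 27 (pc) (q (-188) 10000)), sub (sub EE.T EE.t) (q 535 10000), sub (sub EE.t EE.T) (q 40 10000), sub (q 6500 10000) EE.v, sub EE.v (q 7500 10000)] 30
    2450
    [NumI.V.of 10000 3300 3600, NumI.V.of 10000 (-530) (-35), NumI.V.of 10000 2900 4200, NumI.V.of 10000 (-885) (-275)] = true := by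
    decide +kernel
  obtain ⟨f, hf, hp⟩ := chkT4 h (by norm_num) (x := x) (y := T) (z := p) (w := t)
    (by norm_num; linarith only [ua1]) (by norm_num; linarith only [ua2]) (by norm_num; linarith only [ua3]) (by norm_num; linarith only [ua4]) (by norm_num; linarith only [ua5]) (by norm_num; linarith only [ua6]) (by norm_num; linarith only [ua7]) (by norm_num; linarith only [ua8])
  by_contra hc
  push Not at hc
  obtain ⟨hc0, hc1⟩ := hc
  simp only [List.mem_cons, List.not_mem_nil, or_false] at hf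
  rcases hf with rfl | rfl | rfl | rfl | rfl | rfl
  · simp only [S_val, F_val, N_val, ui_val, EE.pa, EE.pb, EE.pc, EE.kT, nyy, EE.x, EE.T, EE.p, EE.t, EE.nt, EE.v, E.val, NumI.lkR] at hp
    push_cast at hp
    linarith only [hc0, hp]
  · simp only [S_val, F_val, N_val, ui_val, EE.pa, EE.pb, EE.pc, EE.kT, nyy, EE.x, EE.T, EE.p, EE.t, EE.nt, EE.v, E.val, NumI.lkR] at hp
    push_cast at hp
    linarith only [hc1, hp]
  · simp only [S_val, F_val, N_val, ui_val, EE.pa, EE.pb, EE.pc, EE.kT, nyy, EE.x, EE.T, EE.p, EE.t, EE.nt, EE.v, E.val, NumI.lkR] at hp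
    push_cast at hp
    linarith only [ua9, hp]
  · simp only [S_val, F_val, N_val, ui_val, EE.pa, EE.pb, EE.pc, EE.kT, nyy, EE.x, EE.T, EE.p, EE.t, EE.nt, EE.v, E.val, NumI.lkR] at hp
    push_cast at hp
    linarith only [ua10, hp]
  · simp only [S_val, F_val, N_val, ui_val, EE.pa, EE.pb, EE.pc, EE.kT, nyy, EE.x, EE.T, EE.p, EE.t, EE.nt, EE.v, E.val, NumI.lkR] at hp
    push_cast at hp
    linarith only [ua11, hp]
  · simp only [S_val, F_val, N_val, ui_val, EE.pa, EE.pb, EE.pc, EE.kT, nyy, EE.x, EE.T, EE.p, EE.t, EE.nt, EE.v, E.val, NumI.lkR] at hp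
    push_cast at hp
    linarith only [ua12, hp]

theorem fAob {x T p t : ℝ} (ua1 : 3300 / 10000 ≤ x) (ua2 : x ≤ 3600 / 10000) (ua3 : -(490 / 10000) ≤ T) (ua4 : T ≤ 20 / 10000) (ua5 : 1000 / 10000 ≤ p) (ua6 : p ≤ 3400 / 10000) (ua7 : -(800 / 10000) ≤ t) (ua8 : t ≤ -(130 / 10000)) (ua9 : T - t ≤ 495 / 10000) (ua10 : t - T ≤ 135 / 10000) (ua11 : 3700 / 10000 ≤ x + p) (ua12 : x + p ≤ 6700 / 10000) :
    rS (100 / 27) x T p t < 0 + Real.pi * (1 / 2) * (100 / 27 * T) ∨ rF (100 / 27) (x + p + 1300 / 10000) (220 / 10000) x T p t < 0 + Real.pi * (1 / 2) * (100 / 27 * T) := by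
  have h : chkT [sub (add (q 0 1) (mul (mul pi (q 1 2)) (kT 100 27))) (S 100 27), sub (add (q 0 1) (mul (mul pi (q 1 2)) (kT 100 27))) (F 100 27 (add EE.v (q 1300 10000)) (q 220 10000)), sub (sub EE.T EE.t) (q 495 10000), sub (sub EE.t EE.T) (q 135 10000), sub (q 3700 10000) EE.v, sub EE.v (q 6700 10000)] 30
    13996160379815038717403196714945961337327217508898
    [NumI.V.of 10000 3300 3600, NumI.V.of 10000 (-490) 20, NumI.V.of 10000 1000 3400, NumI.V.of 10000 (-800) (-130)] = true := by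
    decide +kernel
  obtain ⟨f, hf, hp⟩ := chkT4 h (by norm_num) (x := x) (y := T) (z := p) (w := t)
    (by norm_num; linarith only [ua1]) (by norm_num; linarith only [ua2]) (by norm_num; linarith only [ua3]) (by norm_num; linarith only [ua4]) (by norm_num; linarith only [ua5]) (by norm_num; linarith only [ua6]) (by norm_num; linarith only [ua7]) (by norm_num; linarith only [ua8])
  by_contra hc
  push Not at hc
  obtain ⟨hc0, hc1⟩ := hc
  simp only [List.mem_cons, List.not_mem_nil, or_false] at hf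
  rcases hf with rfl | rfl | rfl | rfl | rfl | rfl
  · simp only [S_val, F_val, N_val, ui_val, EE.pa, EE.pb, EE.pc, EE.kT, nyy, EE.x, EE.T, EE.p, EE.t, EE.nt, EE.v, E.val, NumI.lkR] at hp
    push_cast at hp
    linarith only [hc0, hp]
  · simp only [S_val, F_val, N_val, ui_val, EE.pa, EE.pb, EE.pc, EE.kT, nyy, EE.x, EE.T, EE.p, EE.t, EE.nt, EE.v, E.val, NumI.lkR] at hp
    push_cast at hp
    linarith only [hc1, hp]
  · simp only [S_val, F_val, N_val, ui_val, EE.pa, EE.pb, EE.pc, EE.kT, nyy, EE.x, EE.T, EE.p, EE.t, EE.nt, EE.v, E.val, NumI.lkR] at hp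
    push_cast at hp
    linarith only [ua9, hp]
  · simp only [S_val, F_val, N_val, ui_val, EE.pa, EE.pb, EE.pc, EE.kT, nyy, EE.x, EE.T, EE.p, EE.t, EE.nt, EE.v, E.val, NumI.lkR] at hp
    push_cast at hp
    linarith only [ua10, hp]
  · simp only [S_val, F_val, N_val, ui_val, EE.pa, EE.pb, EE.pc, EE.kT, nyy, EE.x, EE.T, EE.p, EE.t, EE.nt, EE.v, E.val, NumI.lkR] at hp
    push_cast at hp
    linarith only [ua1, ua5, hp]
  · simp only [S_val, F_val, N_val, ui_val, EE.pa, EE.pb, EE.pc, EE.kT, nyy, EE.x, EE.T, EE.p, EE.t, EE.nt, EE.v, E.val, NumI.lkR] at hp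
    push_cast at hp
    linarith only [ua12, hp]

theorem fAoc {x T p t : ℝ} (ua1 : 3300 / 10000 ≤ x) (ua2 : x ≤ 3600 / 10000) (ua3 : -(490 / 10000) ≤ T) (ua4 : T ≤ 20 / 10000) (ua5 : 3100 / 10000 ≤ p) (ua6 : p ≤ 4200 / 10000) (ua7 : -(800 / 10000) ≤ t) (ua8 : t ≤ -(130 / 10000)) (ua9 : T - t ≤ 495 / 10000) (ua10 : t - T ≤ 135 / 10000) (ua11 : 6700 / 10000 ≤ x + p) (ua12 : x + p ≤ 7500 / 10000) :
    rS (100 / 27) x T p t < 0 + Real.pi * (1 / 2) * (100 / 27 * T) ∨ rF (100 / 27) (80 / 100) (220 / 10000) x T p t < 0 + Real.pi * (1 / 2) * (100 / 27 * T) := by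
  have h : chkT [sub (add (q 0 1) (mul (mul pi (q 1 2)) (kT 100 27))) (S 100 27), sub (add (q 0 1) (mul (mul pi (q 1 2)) (kT 100 27))) (F 100 27 (pc) (q 220 10000)), sub (sub EE.T EE.t) (q 495 10000), sub (sub EE.t EE.T) (q 135 10000), sub (q 6700 10000) EE.v, sub EE.v (q 7500 10000)] 30
    2450
    [NumI.V.of 10000 3300 3600, NumI.V.of 10000 (-490) 20, NumI.V.of 10000 3100 4200, NumI.V.of 10000 (-800) (-130)] = true := by
    decide +kernel
  obtain ⟨f, hf, hp⟩ := chkT4 h (by norm_num) (x := x) (y := T) (z := p) (w := t)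
    (by norm_num; linarith only [ua1]) (by norm_num; linarith only [ua2]) (by norm_num; linarith only [ua3]) (by norm_num; linarith only [ua4]) (by norm_num; linarith only [ua5]) (by norm_num; linarith only [ua6]) (by norm_num; linarith only [ua7]) (by norm_num; linarith only [ua8])
  by_contra hc
  push Not at hc
  obtain ⟨hc0, hc1⟩ := hc
  simp only [List.mem_cons, List.not_mem_nil, or_false] at hf
  rcases hf with rfl | rfl | rfl | rfl | rfl | rfl
  · simp only [S_val, F_val, N_val, ui_val, EE.pa, EE.pb, EE.pc, EE.kT, nyy, EE.x, EE.T, EE.p, EE.t, EE.nt, EE.v, E.val, NumI.lkR] at hp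
    push_cast at hp
    linarith only [hc0, hp]
  · simp only [S_val, F_val, N_val, ui_val, EE.pa, EE.pb, EE.pc, EE.kT, nyy, EE.x, EE.T, EE.p, EE.t, EE.nt, EE.v, E.val, NumI.lkR] at hp
    push_cast at hp
    linarith only [hc1, hp]
  · simp only [S_val, F_val, N_val, ui_val, EE.pa, EE.pb, EE.pc, EE.kT, nyy, EE.x, EE.T, EE.p, EE.t, EE.nt, EE.v, E.val, NumI.lkR] at hp
    push_cast at hp
    linarith only [ua9, hp]
  · simp only [S_val, F_val, N_val, ui_val, EE.pa, EE.pb, EE.pc, EE.kT, nyy, EE.x, EE.T, EE.p, EE.t, EE.nt, EE.v, E.val, NumI.lkR] at hp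
    push_cast at hp
    linarith only [ua10, hp]
  · simp only [S_val, F_val, N_val, ui_val, EE.pa, EE.pb, EE.pc, EE.kT, nyy, EE.x, EE.T, EE.p, EE.t, EE.nt, EE.v, E.val, NumI.lkR] at hp
    push_cast at hp
    linarith only [ua11, hp]
  · simp only [S_val, F_val, N_val, ui_val, EE.pa, EE.pb, EE.pc, EE.kT, nyy, EE.x, EE.T, EE.p, EE.t, EE.nt, EE.v, E.val, NumI.lkR] at hp
    push_cast at hp
    linarith only [ua12, hp]

theorem fAZb {x T p t : ℝ} (ua1 : 3300 / 10000 ≤ x) (ua2 : x ≤ 3600 / 10000) (ua3 : -(412 / 10000) ≤ T) (ua4 : T ≤ 22 / 10000) (ua5 : 1000 / 10000 ≤ p) (ua6 : p ≤ 3400 / 10000) (ua7 : -(635 / 10000) ≤ t) (ua8 : t ≤ -(190 / 10000)) (ua9 : T - t ≤ 430 / 10000) (ua10 : t - T ≤ 65 / 10000) (ua11 : 3700 / 10000 ≤ x + p) (ua12 : x + p ≤ 6700 / 10000) :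
    rS (100 / 27) x T p t < 0 + Real.pi * (1 / 2) * (100 / 27 * T) ∨ rF (100 / 27) (x + p + 1300 / 10000) (570 / 10000) x T p t < 0 + Real.pi * (1 / 2) * (100 / 27 * T) := by
  have h : chkT [sub (add (q 0 1) (mul (mul pi (q 1 2)) (kT 100 27))) (S 100 27), sub (add (q 0 1) (mul (mul pi (q 1 2)) (kT 100 27))) (F 100 27 (add EE.v (q 1300 10000)) (q 570 10000)), sub (sub EE.T EE.t) (q 430 10000), sub (sub EE.t EE.T) (q 65 10000), sub (q 3700 10000) EE.v, sub EE.v (q 6700 10000)] 30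
    691743595276281890
    [NumI.V.of 10000 3300 3600, NumI.V.of 10000 (-412) 22, NumI.V.of 10000 1000 3400, NumI.V.of 10000 (-635) (-190)] = true := by
    decide +kernel
  obtain ⟨f, hf, hp⟩ := chkT4 h (by norm_num) (x := x) (y := T) (z := p) (w := t)
    (by norm_num; linarith only [ua1]) (by norm_num; linarith only [ua2]) (by norm_num; linarith only [ua3]) (by norm_num; linarith only [ua4]) (by norm_num; linarith only [ua5]) (by norm_num; linarith only [ua6]) (by norm_num; linarith only [ua7]) (by norm_num; linarith only [ua8])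
  by_contra hc
  push Not at hc
  obtain ⟨hc0, hc1⟩ := hc
  simp only [List.mem_cons, List.not_mem_nil, or_false] at hf
  rcases hf with rfl | rfl | rfl | rfl | rfl | rfl
  · simp only [S_val, F_val, N_val, ui_val, EE.pa, EE.pb, EE.pc, EE.kT, nyy, EE.x, EE.T, EE.p, EE.t, EE.nt, EE.v, E.val, NumI.lkR] at hp
    push_cast at hp
    linarith only [hc0, hp]
  · simp only [S_val, F_val, N_val, ui_val, EE.pa, EE.pb, EE.pc, EE.kT, nyy, EE.x, EE.T, EE.p, EE.t, EE.nt, EE.v, E.val, NumI.lkR] at hp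
    push_cast at hp
    linarith only [hc1, hp]
  · simp only [S_val, F_val, N_val, ui_val, EE.pa, EE.pb, EE.pc, EE.kT, nyy, EE.x, EE.T, EE.p, EE.t, EE.nt, EE.v, E.val, NumI.lkR] at hp
    push_cast at hp
    linarith only [ua9, hp]
  · simp only [S_val, F_val, N_val, ui_val, EE.pa, EE.pb, EE.pc, EE.kT, nyy, EE.x, EE.T, EE.p, EE.t, EE.nt, EE.v, E.val, NumI.lkR] at hp
    push_cast at hp
    linarith only [ua10, hp]
  · simp only [S_val, F_val, N_val, ui_val, EE.pa, EE.pb, EE.pc, EE.kT, nyy, EE.x, EE.T, EE.p, EE.t, EE.nt, EE.v, E.val, NumI.lkR] at hp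
    push_cast at hp
    linarith only [ua1, ua5, hp]
  · simp only [S_val, F_val, N_val, ui_val, EE.pa, EE.pb, EE.pc, EE.kT, nyy, EE.x, EE.T, EE.p, EE.t, EE.nt, EE.v, E.val, NumI.lkR] at hp
    push_cast at hp
    linarith only [ua12, hp]

theorem fAZc {x T p t : ℝ} (ua1 : 3300 / 10000 ≤ x) (ua2 : x ≤ 3600 / 10000) (ua3 : -(412 / 10000) ≤ T) (ua4 : T ≤ 22 / 10000) (ua5 : 3100 / 10000 ≤ p) (ua6 : p ≤ 4200 / 10000) (ua7 : -(635 / 10000) ≤ t) (ua8 : t ≤ -(190 / 10000)) (ua9 : T - t ≤ 430 / 10000) (ua10 : t - T ≤ 65 / 10000) (ua11 : 6700 / 10000 ≤ x + p) (ua12 : x + p ≤ 7500 / 10000) :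
    rS (100 / 27) x T p t < 0 + Real.pi * (1 / 2) * (100 / 27 * T) ∨ rF (100 / 27) (80 / 100) (570 / 10000) x T p t < 0 + Real.pi * (1 / 2) * (100 / 27 * T) := by
  have h : chkT [sub (add (q 0 1) (mul (mul pi (q 1 2)) (kT 100 27))) (S 100 27), sub (add (q 0 1) (mul (mul pi (q 1 2)) (kT 100 27))) (F 100 27 (pc) (q 570 10000)), sub (sub EE.T EE.t) (q 430 10000), sub (sub EE.t EE.T) (q 65 10000), sub (q 6700 10000) EE.v, sub EE.v (q 7500 10000)] 30
    9
    [NumI.V.of 10000 3300 3600, NumI.V.of 10000 (-412) 22, NumI.V.of 10000 3100 4200, NumI.V.of 10000 (-635) (-190)] = true := by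
    decide +kernel
  obtain ⟨f, hf, hp⟩ := chkT4 h (by norm_num) (x := x) (y := T) (z := p) (w := t)
    (by norm_num; linarith only [ua1]) (by norm_num; linarith only [ua2]) (by norm_num; linarith only [ua3]) (by norm_num; linarith only [ua4]) (by norm_num; linarith only [ua5]) (by norm_num; linarith only [ua6]) (by norm_num; linarith only [ua7]) (by norm_num; linarith only [ua8])
  by_contra hc
  push Not at hc
  obtain ⟨hc0, hc1⟩ := hc
  simp only [List.mem_cons, List.not_mem_nil, or_false] at hf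
  rcases hf with rfl | rfl | rfl | rfl | rfl | rfl
  · simp only [S_val, F_val, N_val, ui_val, EE.pa, EE.pb, EE.pc, EE.kT, nyy, EE.x, EE.T, EE.p, EE.t, EE.nt, EE.v, E.val, NumI.lkR] at hp
    push_cast at hp
    linarith only [hc0, hp]
  · simp only [S_val, F_val, N_val, ui_val, EE.pa, EE.pb, EE.pc, EE.kT, nyy, EE.x, EE.T, EE.p, EE.t, EE.nt, EE.v, E.val, NumI.lkR] at hp
    push_cast at hp
    linarith only [hc1, hp]
  · simp only [S_val, F_val, N_val, ui_val, EE.pa, EE.pb, EE.pc, EE.kT, nyy, EE.x, EE.T, EE.p, EE.t, EE.nt, EE.v, E.val, NumI.lkR] at hp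
    push_cast at hp
    linarith only [ua9, hp]
  · simp only [S_val, F_val, N_val, ui_val, EE.pa, EE.pb, EE.pc, EE.kT, nyy, EE.x, EE.T, EE.p, EE.t, EE.nt, EE.v, E.val, NumI.lkR] at hp
    push_cast at hp
    linarith only [ua10, hp]
  · simp only [S_val, F_val, N_val, ui_val, EE.pa, EE.pb, EE.pc, EE.kT, nyy, EE.x, EE.T, EE.p, EE.t, EE.nt, EE.v, E.val, NumI.lkR] at hp
    push_cast at hp
    linarith only [ua11, hp]
  · simp only [S_val, F_val, N_val, ui_val, EE.pa, EE.pb, EE.pc, EE.kT, nyy, EE.x, EE.T, EE.p, EE.t, EE.nt, EE.v, E.val, NumI.lkR] at hp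
    push_cast at hp
    linarith only [ua12, hp]

theorem nA2a {x T t : ℝ} (ua1 : 3300 / 10000 ≤ x) (ua2 : x ≤ 3600 / 10000) (ua3 : -(530 / 10000) ≤ T) (ua4 : T ≤ 0 / 10000) (ua5 : -(885 / 10000) ≤ t) (ua6 : t ≤ -(130 / 10000)) (ua7 : T - t ≤ 535 / 10000) (ua8 : t - T ≤ 135 / 10000) :
    rN (100 / 27) (900 / 10000) (Real.pi + NumI.lnB (900 / 10000) (t - rui (100 / 27) x T)) (x - 900 / 10000) x T t < 0 + Real.pi * (1 / 2) * (100 / 27 * T) := by
  have h : chkT [sub (add (q 0 1) (mul (mul pi (q 1 2)) (kT 100 27))) (N 100 27 (q 900 10000) (add pi (E.lnB (q 900 10000) (nyy 100 27))) (sub EE.x (q 900 10000))), sub (sub EE.T EE.nt) (q 535 10000), sub (sub EE.nt EE.T) (q 135 10000)] 30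
    143163922
    [NumI.V.of 10000 3300 3600, NumI.V.of 10000 (-530) 0, NumI.V.of 10000 (-885) (-130)] = true := by
    decide +kernel
  obtain ⟨f, hf, hp⟩ := chkT3 h (by norm_num) (x := x) (y := T) (z := t)
    (by norm_num; linarith only [ua1]) (by norm_num; linarith only [ua2]) (by norm_num; linarith only [ua3]) (by norm_num; linarith only [ua4]) (by norm_num; linarith only [ua5]) (by norm_num; linarith only [ua6])
  by_contra hc
  push Not at hc
  simp only [List.mem_cons, List.not_mem_nil, or_false] at hf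
  rcases hf with rfl | rfl | rfl
  · simp only [S_val, F_val, N_val, ui_val, EE.pa, EE.pb, EE.pc, EE.kT, nyy, EE.x, EE.T, EE.p, EE.t, EE.nt, EE.v, E.val, NumI.lkR] at hp
    push_cast at hp
    linarith only [hc, hp]
  · simp only [S_val, F_val, N_val, ui_val, EE.pa, EE.pb, EE.pc, EE.kT, nyy, EE.x, EE.T, EE.p, EE.t, EE.nt, EE.v, E.val, NumI.lkR] at hp
    push_cast at hp
    linarith only [ua7, hp]
  · simp only [S_val, F_val, N_val, ui_val, EE.pa, EE.pb, EE.pc, EE.kT, nyy, EE.x, EE.T, EE.p, EE.t, EE.nt, EE.v, E.val, NumI.lkR] at hp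
    push_cast at hp
    linarith only [ua8, hp]

theorem nA2b {x T t : ℝ} (ua1 : 3300 / 10000 ≤ x) (ua2 : x ≤ 3600 / 10000) (ua3 : -(530 / 10000) ≤ T) (ua4 : T ≤ 0 / 10000) (ua5 : -(885 / 10000) ≤ t) (ua6 : t ≤ -(130 / 10000)) (ua7 : T - t ≤ 535 / 10000) (ua8 : t - T ≤ 135 / 10000) :
    rN (100 / 27) (1000 / 10000) (Real.pi * (1 / 2)) x x T t < 0 + Real.pi * (1 / 2) * (100 / 27 * T) := by
  have h : chkT [sub (add (q 0 1) (mul (mul pi (q 1 2)) (kT 100 27))) (N 100 27 (q 1000 10000) (mul pi (q 1 2)) (EE.x)), sub (sub EE.T EE.nt) (q 535 10000), sub (sub EE.nt EE.T) (q 135 10000)] 30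
    8
    [NumI.V.of 10000 3300 3600, NumI.V.of 10000 (-530) 0, NumI.V.of 10000 (-885) (-130)] = true := by
    decide +kernel
  obtain ⟨f, hf, hp⟩ := chkT3 h (by norm_num) (x := x) (y := T) (z := t)
    (by norm_num; linarith only [ua1]) (by norm_num; linarith only [ua2]) (by norm_num; linarith only [ua3]) (by norm_num; linarith only [ua4]) (by norm_num; linarith only [ua5]) (by norm_num; linarith only [ua6])
  by_contra hc
  push Not at hc
  simp only [List.mem_cons, List.not_mem_nil, or_false] at hf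
  rcases hf with rfl | rfl | rfl
  · simp only [S_val, F_val, N_val, ui_val, EE.pa, EE.pb, EE.pc, EE.kT, nyy, EE.x, EE.T, EE.p, EE.t, EE.nt, EE.v, E.val, NumI.lkR] at hp
    push_cast at hp
    linarith only [hc, hp]
  · simp only [S_val, F_val, N_val, ui_val, EE.pa, EE.pb, EE.pc, EE.kT, nyy, EE.x, EE.T, EE.p, EE.t, EE.nt, EE.v, E.val, NumI.lkR] at hp
    push_cast at hp
    linarith only [ua7, hp]
  · simp only [S_val, F_val, N_val, ui_val, EE.pa, EE.pb, EE.pc, EE.kT, nyy, EE.x, EE.T, EE.p, EE.t, EE.nt, EE.v, E.val, NumI.lkR] at hp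
    push_cast at hp
    linarith only [ua8, hp]

theorem nA2c {x T t : ℝ} (ua1 : 3300 / 10000 ≤ x) (ua2 : x ≤ 3600 / 10000) (ua3 : 0 / 10000 ≤ T) (ua4 : T ≤ 22 / 10000) (ua5 : -(885 / 10000) ≤ t) (ua6 : t ≤ -(130 / 10000)) (ua7 : T - t ≤ 535 / 10000) (ua8 : t - T ≤ 135 / 10000) :
    rN (100 / 27) (1000 / 10000) (-Real.pi) (x + 1000 / 10000) x T t < 0 + Real.pi * (1 / 2) * (100 / 27 * T) := by
  have h : chkT [sub (add (q 0 1) (mul (mul pi (q 1 2)) (kT 100 27))) (N 100 27 (q 1000 10000) (neg pi) (add EE.x (q 1000 10000))), sub (sub EE.T EE.nt) (q 535 10000), sub (sub EE.nt EE.T) (q 135 10000)] 30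
    8
    [NumI.V.of 10000 3300 3600, NumI.V.of 10000 0 22, NumI.V.of 10000 (-885) (-130)] = true := by
    decide +kernel
  obtain ⟨f, hf, hp⟩ := chkT3 h (by norm_num) (x := x) (y := T) (z := t)
    (by norm_num; linarith only [ua1]) (by norm_num; linarith only [ua2]) (by norm_num; linarith only [ua3]) (by norm_num; linarith only [ua4]) (by norm_num; linarith only [ua3, ua7]) (by norm_num; linarith only [ua6])
  by_contra hc
  push Not at hc
  simp only [List.mem_cons, List.not_mem_nil, or_false] at hf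
  rcases hf with rfl | rfl | rfl
  · simp only [S_val, F_val, N_val, ui_val, EE.pa, EE.pb, EE.pc, EE.kT, nyy, EE.x, EE.T, EE.p, EE.t, EE.nt, EE.v, E.val, NumI.lkR] at hp
    push_cast at hp
    linarith only [hc, hp]
  · simp only [S_val, F_val, N_val, ui_val, EE.pa, EE.pb, EE.pc, EE.kT, nyy, EE.x, EE.T, EE.p, EE.t, EE.nt, EE.v, E.val, NumI.lkR] at hp
    push_cast at hp
    linarith only [ua7, hp]
  · simp only [S_val, F_val, N_val, ui_val, EE.pa, EE.pb, EE.pc, EE.kT, nyy, EE.x, EE.T, EE.p, EE.t, EE.nt, EE.v, E.val, NumI.lkR] at hp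
    push_cast at hp
    linarith only [ua3, ua6, hp]

end S0R

end Pool.Agent.Work.MP_b30479_gt.G2
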