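import Pool.Agent.Work.MP_b30479_gt.G2.MRBase
import Pool.Agent.Work.MP_b30479_gt.G2.WCrit
import Pool.Agent.Work.NumU.Expr

/-!
# The own side of an interior `3` at slot `0`, right ramp: analytic part

`u` the hinge with the side `S3`, `v` the inner variable, `w` the hinge with the side `S2`.
* `H_le`: the part of `SM 0 u v w` with `w` is at most `π τ + LL (p + i (t + τ))`.
* `S3_far`, `S3_near`: real forms and upper bounds of `S3 1 m u v`.
-/

namespace Pool.Agent.Work.MP_b30479_gt.G2

open VOL NumU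

namespace S0R

theorem LL_lnA' (u : ℂ) : LL u = NumI.lnA u.re u.im := by
  rw [LL_eq', NumI.lnA]
  have := Num.den_eq u
  unfold NumI.MM at this
  congr 2
  linarith only [this]

theorem Tr_neg' {s : ℝ} (hs : 0 < s) (x : ℝ) : DT.Tr s (-x) = -DT.Tr s x := by
  have h1 := Tr_add_one s (-x)
  have h2 := DT.Tr_one_sub hs x
  rw [show -x + 1 = 1 - x by ring] at h1
  linarith only [h1, h2]

/-! ### the part with `w` -/

theorem cos_le {p q : ℝ} (hp : 1 / 2 ≤ p) (_ : p ≤ 1) (h0 : p ≤ q) (h1 : q ≤ 2 - p) :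
    Real.cos (2 * Real.pi * p) ≤ Real.cos (2 * Real.pi * q) := by
  have hpi := Real.pi_pos
  have e3 : Real.cos (2 * Real.pi * q) = Real.cos |2 * Real.pi * (q - 1)| := by
    rw [Real.cos_abs, show 2 * Real.pi * (q - 1) = 2 * Real.pi * q - 2 * Real.pi by ring,
      Real.cos_sub_two_pi]
  have e4 : Real.cos (2 * Real.pi * p) = Real.cos (2 * Real.pi * (1 - p)) := by
    rw [show 2 * Real.pi * (1 - p) = 2 * Real.pi - 2 * Real.pi * p by ring,
      Real.cos_two_pi_sub]
  rw [e3, e4]
  apply Real.cos_le_cos_of_nonneg_of_le_pi (abs_nonneg _)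
  · nlinarith only [hp, hpi]
  · rw [abs_mul, abs_of_pos (by positivity : 0 < 2 * Real.pi)]
    apply mul_le_mul_of_nonneg_left _ (by positivity)
    rw [abs_le]
    constructor <;> linarith only [h0, h1]

section
open NumU.E

theorem cos_exp : Real.cos (2 * Real.pi * (8 / 10)) ≤ Real.exp (Real.pi * (-(3704 / 10000))) := by
  have h : chk [sub (exp (mul pi (q (-3704) 10000))) (cosPi (q 16 10))] 1
      [NumI.V.of 1 0 0] = true := by decide +kernel
  have hp := pos_of_chk (chk1 h (by norm_num) (x := 0) (by norm_num) (by norm_num))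
  simp only [E.val] at hp
  push_cast at hp
  rw [show 2 * Real.pi * (8 / 10) = Real.pi * (16 / 10) by ring]
  have e : Real.pi * (-3704 / 10000) = Real.pi * (-(3704 / 10000)) := by ring
  rw [e] at hp
  linarith only [hp]

end

theorem H_cos {v w : ℂ} {p τ : ℝ} (hp : 1 / 2 ≤ p) (hp' : p ≤ 8 / 10)
    (hcos : Real.cos (2 * Real.pi * p) ≤ Real.cos (2 * Real.pi * (v.re + w.re)))
    (hτ : w.im ≤ τ) (hc : -(3704 / 10000) ≤ 2 * v.im + w.im + τ) (hr : SinNe (v + w)) :
    Real.pi * w.im + LL (v + w) ≤ Real.pi * τ + NumI.lnA p (v.im + τ) := by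
  have hpi := Real.pi_pos
  have e1 : LL ⟨p, v.im + τ⟩ = NumI.lnA p (v.im + τ) := LL_lnA' _
  rw [← e1, LL_eq', LL_eq']
  simp only [Complex.add_re, Complex.add_im]
  have a1 : 0 < 2 * Real.cosh (2 * Real.pi * (v.im + w.im)) -
      2 * Real.cos (2 * Real.pi * (v.re + w.re)) := by
    have h2 : 0 < NumI.MM (v + w).re (v + w).im := by
      have h0 : 0 ≤ NumI.MM (v + w).re (v + w).im := by
        unfold NumI.MM
        positivity
      rcases h0.lt_or_eq with h1 | h1
      · exact h1
      · exfalso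
        unfold NumI.MM at h1
        have h2 : Real.sin (Real.pi * (v + w).re) = 0 := by
          nlinarith only [h1, sq_nonneg (Real.sin (Real.pi * (v + w).re)),
            sq_nonneg (Real.sinh (Real.pi * (v + w).im))]
        have h3 : Real.sinh (Real.pi * (v + w).im) = 0 := by
          nlinarith only [h1, sq_nonneg (Real.sin (Real.pi * (v + w).re)),
            sq_nonneg (Real.sinh (Real.pi * (v + w).im))]
        apply hr
        rw [Complex.sin_eq]
        have e1 : ((Real.pi : ℂ) * (v + w)).re = Real.pi * (v + w).re := by simp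
        have e2 : ((Real.pi : ℂ) * (v + w)).im = Real.pi * (v + w).im := by simp
        rw [e1, e2, ← Complex.ofReal_sin, ← Complex.ofReal_sinh, h2, h3]
        simp
    have h3 := Num.den_eq (v + w)
    simp only [Complex.add_re, Complex.add_im] at h2 h3
    linarith only [h2, h3]
  set z := v.im + w.im with hz
  set d := τ - w.im with hd
  have hd0 : 0 ≤ d := by linarith only [hτ]
  have ey : v.im + τ = z + d := by rw [hz, hd]; ring
  set c := Real.cos (2 * Real.pi * p) with hcdef
  -- the bound of the cosine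
  have hA : c ≤ Real.exp (Real.pi * (2 * z + d)) := by
    have h3 : c ≤ Real.cos (2 * Real.pi * (8 / 10)) := by
      have := cos_le hp (by linarith only [hp']) (q := 8 / 10) hp' (by linarith only [hp'])
      exact this
    refine h3.trans (cos_exp.trans ?_)
    apply Real.exp_le_exp.2
    apply mul_le_mul_of_nonneg_left _ hpi.le
    linarith only [hc]
  have hB : Real.exp (Real.pi * (2 * z + d)) ≤
      Real.exp (2 * Real.pi * z) * (Real.exp (2 * Real.pi * d) + 1) / 2 := by
    have e2 : Real.exp (Real.pi * (2 * z + d)) = Real.exp (2 * Real.pi * z) *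
        Real.exp (Real.pi * d) := by
      rw [← Real.exp_add]
      congr 1
      ring
    have e3 : Real.exp (2 * Real.pi * d) = Real.exp (Real.pi * d) ^ 2 := by
      rw [← Real.exp_nat_mul]
      congr 1
      push_cast
      ring
    rw [e2, e3, mul_div_assoc]
    apply mul_le_mul_of_nonneg_left _ (Real.exp_pos _).le
    nlinarith only [sq_nonneg (Real.exp (Real.pi * d) - 1)]
  have hC : 2 * Real.cosh (2 * Real.pi * z) - 2 * c ≤
      Real.exp (2 * Real.pi * d) * (2 * Real.cosh (2 * Real.pi * (z + d)) - 2 * c) := by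
    have hE : 1 ≤ Real.exp (2 * Real.pi * d) := Real.one_le_exp (by positivity)
    have e4 : Real.exp (2 * Real.pi * d) * (2 * Real.cosh (2 * Real.pi * (z + d))) -
        2 * Real.cosh (2 * Real.pi * z) =
        Real.exp (2 * Real.pi * z) * (Real.exp (2 * Real.pi * d) ^ 2 - 1) := by
      rw [Real.cosh_eq, Real.cosh_eq]
      have f1 : Real.exp (2 * Real.pi * (z + d)) = Real.exp (2 * Real.pi * z) *
          Real.exp (2 * Real.pi * d) := by
        rw [← Real.exp_add]; congr 1; ring
      have f2 : Real.exp (-(2 * Real.pi * (z + d))) = Real.exp (-(2 * Real.pi * z)) *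
          (Real.exp (2 * Real.pi * d))⁻¹ := by
        rw [← Real.exp_neg, ← Real.exp_add]; congr 1; ring
      rw [f1, f2]
      have f3 := Real.exp_pos (2 * Real.pi * d)
      field_simp
      ring
    have h5 : 0 ≤ Real.exp (2 * Real.pi * d) - 1 := by linarith only [hE]
    have h6 : 2 * c * (Real.exp (2 * Real.pi * d) - 1) ≤
        Real.exp (2 * Real.pi * z) * (Real.exp (2 * Real.pi * d) ^ 2 - 1) := by
      have h7 : 2 * c ≤ Real.exp (2 * Real.pi * z) * (Real.exp (2 * Real.pi * d) + 1) := by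
        linarith only [hA, hB]
      have := mul_le_mul_of_nonneg_right h7 h5
      nlinarith only [this]
    nlinarith only [e4, h6]
  have a3 : 0 < 2 * Real.cosh (2 * Real.pi * z) - 2 * c := by
    by_contra hcon
    push Not at hcon
    linarith only [a1, hcos, hcon]
  have a4 : 0 < 2 * Real.cosh (2 * Real.pi * (z + d)) - 2 * c := by
    by_contra hcon
    push Not at hcon
    have := mul_nonpos_of_nonneg_of_nonpos (Real.exp_pos (2 * Real.pi * d)).le hcon
    linarith only [a1, hcos, hC, this]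
  have b1 := Real.log_le_log a1 (show 2 * Real.cosh (2 * Real.pi * z) -
      2 * Real.cos (2 * Real.pi * (v.re + w.re)) ≤ 2 * Real.cosh (2 * Real.pi * z) - 2 * c by
    linarith only [hcos])
  have b2 := Real.log_le_log a3 hC
  rw [Real.log_mul (Real.exp_pos _).ne' a4.ne', Real.log_exp] at b2
  rw [ey]
  have e5 : Real.pi * w.im = Real.pi * τ - Real.pi * d := by rw [hd]; ring
  rw [e5]
  linarith only [b1, b2]

theorem H_le {v w : ℂ} {p τ : ℝ} (hp : 1 / 2 ≤ p) (hp' : p ≤ 8 / 10) (h0 : p ≤ v.re + w.re)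
    (h1 : v.re + w.re ≤ 2 - p) (hτ : w.im ≤ τ) (hc : -(3704 / 10000) ≤ 2 * v.im + w.im + τ)
    (hr : SinNe (v + w)) :
    Real.pi * w.im + LL (v + w) ≤ Real.pi * τ + NumI.lnA p (v.im + τ) :=
  H_cos hp hp' (cos_le hp (by linarith only [hp']) h0 h1) hτ hc hr

theorem H_half {v w : ℂ} {τ : ℝ} (hτ : w.im ≤ τ) (hc : -(3704 / 10000) ≤ 2 * v.im + w.im + τ)
    (hr : SinNe (v + w)) :
    Real.pi * w.im + LL (v + w) ≤ Real.pi * τ + NumI.lnA (1 / 2) (v.im + τ) := by
  refine H_cos le_rfl (by norm_num) ?_ hτ hc hr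
  rw [show 2 * Real.pi * (1 / 2) = Real.pi by ring, Real.cos_pi]
  exact Real.neg_one_le_cos _

/-! ### the side -/

theorem S3_eq {m : ℝ} {u v : ℂ} (h0 : 0 < v.re - u.re) (h1 : v.re - u.re < 1) (h2 : 0 < u.re)
    (h3 : u.re < 1) : S3 1 m u v = NumI.lnA (v.re - u.re) (v.im - u.im) - NumI.lnA u.re u.im -
      Real.pi * v.im + m * (NumI.lnB u.re u.im - (Real.pi * v.re +
        NumI.lnB (v.re - u.re) (v.im - u.im))) := by
  have h : v - u ∈ strip := ⟨by rw [Complex.sub_re]; exact h0, by rw [Complex.sub_re]; exact h1⟩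
  have h' : u ∈ strip := ⟨h2, h3⟩
  unfold S3
  rw [Num.LL_lnA h, Num.YY_lnB h, Num.LL_lnA h', Num.YY_lnB h', Complex.sub_re, Complex.sub_im]
  ring

/-- the first order condition gives an upper bound of the side -/
theorem S3_far {m τ p : ℝ} {u v w : ℂ} (h0 : 0 < v.re - u.re) (h1 : v.re - u.re < 1)
    (h2 : 0 < u.re) (h3 : u.re < 1) (hS : 0 ≤ SM 0 u v w)
    (hH : Real.pi * w.im + LL (v + w) ≤ Real.pi * τ + NumI.lnA p (v.im + τ)) :
    S3 1 m u v ≤ NumI.lnA p (v.im + τ) + Real.pi * (τ - u.im - (v.im + v.im)) -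
      NumI.lnA v.re v.im - NumI.lnA u.re u.im + m * (NumI.lnB u.re u.im - (Real.pi * v.re +
        NumI.lnB (v.re - u.re) (v.im - u.im))) := by
  rw [S3_eq h0 h1 h2 h3]
  unfold SM at hS
  rw [LL_lnA' (v - u), LL_lnA' v, Complex.sub_re, Complex.sub_im] at hS
  linarith only [hS, hH]

/-- upper bound of the side near `v = u`; `c` bounds `m YY (v - u)`, `e` bounds `-π m v` -/
theorem S3_near {m q c e : ℝ} {u v : ℂ} (hq : |v.re - u.re| ≤ q) (hq' : q ≤ 1 / 2)
    (h2 : 0 < u.re) (h3 : u.re < 1) (hr : SinNe (v - u)) (hc : m * YY (v - u) ≤ c)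
    (he : -(m * (Real.pi * v.re)) ≤ e) :
    S3 1 m u v ≤ NumI.lnA q (v.im - u.im) - NumI.lnA u.re u.im - Real.pi * v.im +
      (c + e + m * NumI.lnB u.re u.im) := by
  have hpi := Real.pi_pos
  have h' : u ∈ strip := ⟨h2, h3⟩
  have hq0 : 0 ≤ q := (abs_nonneg _).trans hq
  have h4 : LL (v - u) ≤ LL ⟨q, v.im - u.im⟩ := by
    have a1 : 0 < 2 * Real.cosh (2 * Real.pi * (v - u).im) -
        2 * Real.cos (2 * Real.pi * (v - u).re) := by
      have h2 : 0 < NumI.MM (v - u).re (v - u).im := by
        have h0 : 0 ≤ NumI.MM (v - u).re (v - u).im := by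
          unfold NumI.MM
          positivity
        rcases h0.lt_or_eq with h1 | h1
        · exact h1
        · exfalso
          unfold NumI.MM at h1
          have h2 : Real.sin (Real.pi * (v - u).re) = 0 := by
            nlinarith only [h1, sq_nonneg (Real.sin (Real.pi * (v - u).re)),
              sq_nonneg (Real.sinh (Real.pi * (v - u).im))]
          have h3 : Real.sinh (Real.pi * (v - u).im) = 0 := by
            nlinarith only [h1, sq_nonneg (Real.sin (Real.pi * (v - u).re)),
              sq_nonneg (Real.sinh (Real.pi * (v - u).im))]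
          apply hr
          rw [Complex.sin_eq]
          have e1 : ((Real.pi : ℂ) * (v - u)).re = Real.pi * (v - u).re := by simp
          have e2 : ((Real.pi : ℂ) * (v - u)).im = Real.pi * (v - u).im := by simp
          rw [e1, e2, ← Complex.ofReal_sin, ← Complex.ofReal_sinh, h2, h3]
          simp
      have h3 := Num.den_eq (v - u)
      linarith only [h2, h3]
    have hcos : Real.cos (2 * Real.pi * q) ≤ Real.cos (2 * Real.pi * (v - u).re) := by
      rw [← Real.cos_abs (2 * Real.pi * (v - u).re)]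
      apply Real.cos_le_cos_of_nonneg_of_le_pi (abs_nonneg _)
      · nlinarith only [hq', hpi]
      · rw [abs_mul, abs_of_pos (by positivity : 0 < 2 * Real.pi), Complex.sub_re]
        exact mul_le_mul_of_nonneg_left hq (by positivity)
    rw [LL_eq', LL_eq']
    apply div_le_div_of_nonneg_right _ (by norm_num)
    apply Real.log_le_log a1
    simp only [Complex.sub_im]
    linarith only [hcos]
  rw [LL_lnA' ⟨q, v.im - u.im⟩] at h4
  unfold S3
  rw [Num.LL_lnA h', Num.YY_lnB h']
  simp only at h4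
  linarith only [hc, he, h4]

/-! ### bounds of `YY` near the imaginary axis -/

theorem YY_np {u : ℂ} (hy : 0 ≤ u.im) (hx : u.re ≤ 1 / 2) : YY u ≤ 0 := by
  rcases hy.eq_or_lt with hy | hy
  · rw [YY_zero hy.symm]
  · rw [YY_pos hy]
    linarith only [hy, hx, Tr_le_half hy hx]

theorem YY_nn {u : ℂ} (hy : u.im ≤ 0) (hx : u.re ≤ 1 / 2) : 0 ≤ YY u := by
  rcases hy.eq_or_lt with hy | hy
  · rw [YY_zero hy]
  · rw [YY_neg hy]
    linarith only [hy, hx, Tr_le_half (s := -u.im) (by linarith only [hy]) hx]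

theorem YY_le_half {u : ℂ} (h0 : 0 ≤ u.re) (h1 : u.re ≤ 1 / 2) : YY u ≤ Real.pi / 2 := by
  have hpi := Real.pi_pos
  rcases le_or_gt 0 u.im with h | h
  · exact (YY_np h h1).trans (by positivity)
  · rw [YY_neg h]
    have := Tr_mono (s := -u.im) (by linarith only [h]) h0
    rw [DT.Tr_zero (by linarith only [h])] at this
    linarith only [this]

theorem YY_ge_neg {u : ℂ} (h0 : -(1 / 2) ≤ u.re) (h1 : u.re ≤ 1 / 2) : -Real.pi ≤ YY u := by
  have hpi := Real.pi_pos
  rcases le_or_gt u.im 0 with h | h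
  · exact le_trans (by linarith only [hpi]) (YY_nn h h1)
  · rw [YY_pos h]
    have := Tr_mono (s := u.im) h h0
    rw [Tr_neg' h, Tr_half h] at this
    linarith only [this]

theorem YY_le_lnB {u : ℂ} {q : ℝ} (hq : |u.re| ≤ q) (hq0 : 0 < q) (hq' : q ≤ 1 / 2) :
    YY u ≤ Real.pi + NumI.lnB q u.im := by
  have hpi := Real.pi_pos
  have hs : (⟨q, u.im⟩ : ℂ) ∈ strip := ⟨hq0, by simp only; linarith only [hq0, hq']⟩
  have e : YY ⟨q, u.im⟩ = -NumI.lnB q u.im := Num.YY_lnB hs
  have hq2 := abs_le.1 hq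
  rcases le_or_gt 0 u.im with h | h
  · have h1 := YY_np h (by linarith only [hq', hq2])
    have h2 : YY ⟨q, u.im⟩ ≤ 0 := YY_np (by exact h) (by exact hq')
    linarith only [hpi, e, h1, h2]
  · rw [YY_neg (by exact h)] at e ⊢
    simp only at e
    have := Tr_mono (s := -u.im) (by linarith only [h]) hq2.1
    rw [Tr_neg' (by linarith only [h])] at this
    linarith only [e, this]

end S0R

end Pool.Agent.Work.MP_b30479_gt.G2
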