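import Pool.Agent.Work.MP_b30479_gt.G2.S0RB

/-!
# The own side of an interior `3` at slot `0`, right ramp: expressions

Real forms of the upper bounds of the side `S3 1 m u v` with `m = - k T`, `u = x + k T (6/10 - x) i`,
and the expressions whose values they are.
-/

namespace Pool.Agent.Work.MP_b30479_gt.G2

open VOL NumU

namespace S0R

/-- height of the hinge -/
noncomputable def rui (k x T : ℝ) : ℝ := k * T * (6 / 10 - x)

noncomputable def rM (k x T p t : ℝ) : ℝ :=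
  -(k * T) * (NumI.lnB x (rui k x T) - (Real.pi * (x + p) + NumI.lnB p (t - rui k x T)))

/-- the side -/
noncomputable def rS (k x T p t : ℝ) : ℝ :=
  NumI.lnA p (t - rui k x T) - NumI.lnA x (rui k x T) - Real.pi * t + rM k x T p t

/-- the upper bound of the side by the first order condition -/
noncomputable def rF (k q τ x T p t : ℝ) : ℝ :=
  NumI.lnA q (t + τ) + Real.pi * (τ - rui k x T - (t + t)) - NumI.lnA (x + p) t -
    NumI.lnA x (rui k x T) + rM k x T p t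

/-- the upper bound of the side near `v = u` -/
noncomputable def rN (k q κ w x T t : ℝ) : ℝ :=
  NumI.lnA q (t - rui k x T) - NumI.lnA x (rui k x T) - Real.pi * t +
    -(k * T) * (κ - Real.pi * w + NumI.lnB x (rui k x T))

namespace EE
open NumU.E

def x : E := var 0
def T : E := var 1
def p : E := var 2
def t : E := var 3
def nt : E := var 2
def v : E := add x p
def kT (a : ℤ) (b : ℕ) : E := mul (q a b) T
def ui (a : ℤ) (b : ℕ) : E := mul (kT a b) (sub (q 6 10) x)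
def yy (a : ℤ) (b : ℕ) : E := sub t (ui a b)
def nyy (a : ℤ) (b : ℕ) : E := sub nt (ui a b)
def MS (a : ℤ) (b : ℕ) : E :=
  mul (neg (kT a b)) (sub (E.lnB x (ui a b)) (add (mul pi v) (E.lnB p (yy a b))))
def S (a : ℤ) (b : ℕ) : E :=
  add (sub (sub (E.lnA p (yy a b)) (E.lnA x (ui a b))) (mul pi t)) (MS a b)
def F (a : ℤ) (b : ℕ) (p' τ : E) : E :=
  add (sub (sub (add (E.lnA p' (add t τ)) (mul pi (sub (sub τ (ui a b)) (add t t)))) (E.lnA v t))
    (E.lnA x (ui a b))) (MS a b)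
def N (a : ℤ) (b : ℕ) (pm κ w : E) : E :=
  add (sub (sub (E.lnA pm (nyy a b)) (E.lnA x (ui a b))) (mul pi nt))
    (mul (neg (kT a b)) (add (sub κ (mul pi w)) (E.lnB x (ui a b))))

def Sg (a : ℤ) (b : ℕ) (p t : E) : E :=
  add (sub (sub (E.lnA p (sub t (ui a b))) (E.lnA x (ui a b))) (mul pi t))
    (mul (neg (kT a b)) (sub (E.lnB x (ui a b)) (add (mul pi (add x p))
      (E.lnB p (sub t (ui a b))))))

theorem ui_val (a : ℤ) (b : ℕ) {x T : ℝ} {l : List ℝ} :
    (ui a b).val (x :: T :: l) = rui ((a : ℝ) / b) x T := by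
  simp only [ui, kT, EE.x, EE.T, E.val, NumI.lkR]
  push_cast
  rfl

theorem S_val (a : ℤ) (b : ℕ) {x T p t : ℝ} : (S a b).val [x, T, p, t] = rS ((a : ℝ) / b) x T p t := by
  simp only [S, MS, yy, kT, EE.x, EE.T, EE.p, EE.t, EE.v, E.val, ui_val, NumI.lkR]
  rfl

theorem Sg_val (a : ℤ) (b : ℕ) (p t : E) {x T : ℝ} {l : List ℝ} : (Sg a b p t).val (x :: T :: l) =
    rS ((a : ℝ) / b) x T (p.val (x :: T :: l)) (t.val (x :: T :: l)) := by
  simp only [Sg, kT, EE.x, EE.T, E.val, ui_val, NumI.lkR]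
  rfl

theorem F_val (a : ℤ) (b : ℕ) (p' τ : E) {x T p t : ℝ} : (F a b p' τ).val [x, T, p, t] =
    rF ((a : ℝ) / b) (p'.val [x, T, p, t]) (τ.val [x, T, p, t]) x T p t := by
  simp only [F, MS, yy, kT, EE.x, EE.T, EE.p, EE.t, EE.v, E.val, ui_val, NumI.lkR]
  rfl

theorem N_val (a : ℤ) (b : ℕ) (pm κ w : E) {x T t : ℝ} : (N a b pm κ w).val [x, T, t] =
    rN ((a : ℝ) / b) (pm.val [x, T, t]) (κ.val [x, T, t]) (w.val [x, T, t]) x T t := by
  simp only [N, nyy, nt, kT, EE.x, EE.T, E.val, ui_val, NumI.lkR]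
  rfl

def pa : E := q 1 2
def pb : E := add v (q 7 100)
def pc : E := q 80 100

end EE

/-! ### bounds of the side from the rows -/

theorem far_core {k q τ T t B : ℝ} {u v w : ℂ} (hu : u.im = k * T * (6 / 10 - u.re))
    (h0 : 0 < v.re - u.re) (h1 : v.re - u.re < 1) (h2 : 0 < u.re) (h3 : u.re < 1)
    (hv : v.im = t) (hS : 0 ≤ SM 0 u v w)
    (hH : Real.pi * w.im + LL (v + w) ≤ Real.pi * τ + NumI.lnA q (v.im + τ))
    (hrow : rS k u.re T (v.re - u.re) t < B ∨ rF k q τ u.re T (v.re - u.re) t < B) :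
    S3 1 (-(k * T)) u v < B := by
  have e : u.re + (v.re - u.re) = v.re := by ring
  rcases hrow with h | h
  · rw [S3_eq h0 h1 h2 h3]
    unfold rS rM rui at h
    rw [hu, hv]
    rw [e] at h
    linarith only [h]
  · have h4 := S3_far (m := -(k * T)) h0 h1 h2 h3 hS hH
    unfold rF rM rui at h
    rw [hu, hv] at h4
    rw [e] at h
    linarith only [h, h4]

theorem near_core {k q κ w' T t B : ℝ} {u v : ℂ} (hu : u.im = k * T * (6 / 10 - u.re))
    (hq : |v.re - u.re| ≤ q) (hq' : q ≤ 1 / 2) (h2 : 0 < u.re) (h3 : u.re < 1)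
    (hv : v.im = t) (hr : SinNe (v - u)) (hκ : -(k * T) * YY (v - u) ≤ -(k * T) * κ)
    (hw : -(-(k * T) * (Real.pi * v.re)) ≤ -(k * T) * -(Real.pi * w'))
    (hrow : rN k q κ w' u.re T t < B) : S3 1 (-(k * T)) u v < B := by
  have h4 := S3_near hq hq' h2 h3 hr hκ hw
  unfold rN rui at hrow
  rw [hu, hv] at h4
  linarith only [hrow, h4]

/-- `T ≤ 0` -/
theorem near_le {k q κ w' T t B : ℝ} {u v : ℂ} (hk : 0 ≤ k) (hT : T ≤ 0)
    (hu : u.im = k * T * (6 / 10 - u.re))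
    (hq : |v.re - u.re| ≤ q) (hq' : q ≤ 1 / 2) (h2 : 0 < u.re) (h3 : u.re < 1)
    (hv : v.im = t) (hr : SinNe (v - u)) (hκ : YY (v - u) ≤ κ) (hw : w' ≤ v.re)
    (hrow : rN k q κ w' u.re T t < B) : S3 1 (-(k * T)) u v < B := by
  have hm : 0 ≤ -(k * T) := by
    rw [← mul_neg]
    exact mul_nonneg hk (by linarith only [hT])
  refine near_core hu hq hq' h2 h3 hv hr (mul_le_mul_of_nonneg_left hκ hm) ?_ hrow
  rw [mul_neg, neg_le_neg_iff]
  exact mul_le_mul_of_nonneg_left (mul_le_mul_of_nonneg_left hw Real.pi_pos.le) hm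

/-- `T ≥ 0` -/
theorem near_ge {k q κ w' T t B : ℝ} {u v : ℂ} (hk : 0 ≤ k) (hT : 0 ≤ T)
    (hu : u.im = k * T * (6 / 10 - u.re))
    (hq : |v.re - u.re| ≤ q) (hq' : q ≤ 1 / 2) (h2 : 0 < u.re) (h3 : u.re < 1)
    (hv : v.im = t) (hr : SinNe (v - u)) (hκ : κ ≤ YY (v - u)) (hw : v.re ≤ w')
    (hrow : rN k q κ w' u.re T t < B) : S3 1 (-(k * T)) u v < B := by
  have hm : 0 ≤ k * T := mul_nonneg hk hT
  have a1 := mul_le_mul_of_nonneg_left hκ hm
  have a2 := mul_le_mul_of_nonneg_left (mul_le_mul_of_nonneg_left hw Real.pi_pos.le) hm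
  refine near_core hu hq hq' h2 h3 hv hr ?_ ?_ hrow
  · linarith only [a1]
  · linarith only [a2]

/-! ### windows -/

/-- window of the mid height `t`, of `t - T` and of the hinge `w` in the slot `2` -/
structure KW (t0 t1 s0 w1 i0 i1 sl : ℝ) (T t : ℝ) (w : ℂ) : Prop where
  t0 : t0 ≤ t
  t1 : t ≤ t1
  s0 : T - t ≤ s0
  w0 : 7 / 100 ≤ w.re
  w1 : w.re ≤ w1
  i0 : i0 ≤ w.im
  i1 : w.im ≤ i1
  sl : -(sl * w.re) ≤ w.im

/-- left neighbour `2`, `3`, `3e`, ring; right neighbour `1` -/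
abbrev K1 := KW (-(114 / 1000)) (-(15 / 1000)) (105 / 1000) (39 / 100) (-(1145 / 10000))
  (-(98 / 10000)) (1145 / 1500)
/-- right neighbour `2`, `2e`, `3`, `3e` -/
abbrev Ko := KW (-(104 / 1000)) (5 / 1000) (100 / 1000) (39 / 100) (-(98 / 1000))
  (22 / 1000) (98 / 130)
/-- right neighbour a ring -/
abbrev KZ := KW (-(92 / 1000)) 0 (93 / 1000) (31 / 100) (-(98 / 1000)) (57 / 1000) (98 / 130)

/-- left neighbour `2e`; right neighbour `1` -/
abbrev E1 := KW (-(123 / 1000)) (-(80 / 1000)) (48 / 1000) (39 / 100) (-(1145 / 10000))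
  (-(98 / 10000)) (1145 / 1500)
/-- right neighbour `2`, `2e`, `3`, `3e` -/
abbrev Eo := KW (-(116 / 1000)) (-(64 / 1000)) (40 / 1000) (39 / 100) (-(98 / 1000))
  (22 / 1000) (98 / 130)
/-- right neighbour a ring -/
abbrev EZ := KW (-(106 / 1000)) (-(67 / 1000)) (31 / 1000) (31 / 100) (-(98 / 1000)) (57 / 1000)
  (98 / 130)

/-- bound of the part with `w` -/
theorem H_all {t0 t1 s0 w1 i0 i1 sl T t τ : ℝ} {v w : ℂ} (hK : KW t0 t1 s0 w1 i0 i1 sl T t w)
    (hv : v.im = t) (hv' : v.re ≤ 75 / 100) (hr : SinNe (v + w)) (h1 : w1 ≤ 39 / 100)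
    (hi : i1 ≤ τ) (hc : -(3704 / 10000) ≤ 2 * t0 + i0 + τ) :
    Real.pi * w.im + LL (v + w) ≤ Real.pi * τ + NumI.lnA (1 / 2) (v.im + τ) ∧
    (43 / 100 ≤ v.re → v.re ≤ 73 / 100 →
      Real.pi * w.im + LL (v + w) ≤ Real.pi * τ + NumI.lnA (v.re + 7 / 100) (v.im + τ)) ∧
    (73 / 100 ≤ v.re →
      Real.pi * w.im + LL (v + w) ≤ Real.pi * τ + NumI.lnA (80 / 100) (v.im + τ)) := by
  obtain ⟨a1, a2, a3, a4, a5, a6, a7, a8⟩ := hK
  have hc' : -(3704 / 10000) ≤ 2 * v.im + w.im + τ := by rw [hv]; linarith only [hc, a1, a6]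
  refine ⟨H_half (by linarith only [hi, a7]) hc' hr, fun h5 h6 => ?_, fun h5 => ?_⟩
  · exact H_le (by linarith only [h5]) (by linarith only [h6]) (by linarith only [a4]) (by linarith only [h1, a5, h6]) (by linarith only [hi, a7]) hc' hr
  · exact H_le (by norm_num) (by norm_num) (by linarith only [a4, h5]) (by linarith only [hv', h1, a5]) (by linarith only [hi, a7]) hc' hr

end S0R

end Pool.Agent.Work.MP_b30479_gt.G2
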