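import Pool.Agent.Work.MP_b30479_gt.G2.S0RC
import Pool.Agent.Work.NumU.Tree

/-!
# The own side of an interior `3` at slot `0`, right ramp: rows, left neighbours `2`, `2e`; near rows
-/

set_option linter.unusedSimpArgs false
set_option linter.unusedVariables false

namespace Pool.Agent.Work.MP_b30479_gt.G2

open VOL NumU

namespace S0R

open NumU.E EE

theorem far2_1b {x T p t : ℝ} (ua1 : 3600 / 10000 ≤ x) (ua2 : x ≤ 5000 / 10000) (ua3 : -(570 / 10000) ≤ T) (ua4 : T ≤ 50 / 10000) (ua5 : 1000 / 10000 ≤ p) (ua6 : p ≤ 3700 / 10000) (ua7 : -(1140 / 10000) ≤ t) (ua8 : t ≤ -(150 / 10000)) (ua9 : T - t ≤ 1050 / 10000) (ua10 : 4300 / 10000 ≤ x + p) (ua11 : x + p ≤ 7300 / 10000) :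
    rS (100 / 27) x T p t < 125 / 1000 + Real.pi * (1 / 2) * (100 / 27 * T) ∨ rF (100 / 27) (x + p + 7 / 100) (-98 / 10000) x T p t < 125 / 1000 + Real.pi * (1 / 2) * (100 / 27 * T) := by
  have h : chkT [sub (add (q 125 1000) (mul (mul pi (q 1 2)) (kT 100 27))) (S 100 27), sub (add (q 125 1000) (mul (mul pi (q 1 2)) (kT 100 27))) (F 100 27 pb (q (-98) 10000)), sub (sub EE.T EE.t) (q 1050 10000), sub (q 4300 10000) EE.v, sub EE.v (q 7300 10000)] 30
    47543632579808762820815373746194974774521714261876550705814777213581065559869167975759015318754717083026031676211169350544585515945562816350337035301025318006113416848162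
    [NumI.V.of 10000 3600 5000, NumI.V.of 10000 (-570) 50, NumI.V.of 10000 1000 3700, NumI.V.of 10000 (-1140) (-150)] = true := by
    decide +kernel
  obtain ⟨f, hf, hp⟩ := chkT4 h (by norm_num) (x := x) (y := T) (z := p) (w := t)
    (by norm_num; linarith only [ua1]) (by norm_num; linarith only [ua2]) (by norm_num; linarith only [ua3]) (by norm_num; linarith only [ua4]) (by norm_num; linarith only [ua5]) (by norm_num; linarith only [ua6]) (by norm_num; linarith only [ua7]) (by norm_num; linarith only [ua8])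
  by_contra hc
  push Not at hc
  obtain ⟨hc0, hc1⟩ := hc
  simp only [List.mem_cons, List.not_mem_nil, or_false] at hf
  rcases hf with rfl | rfl | rfl | rfl | rfl
  · simp only [S_val, F_val, N_val, ui_val, EE.pa, EE.pb, EE.pc, EE.kT, nyy, EE.x, EE.T, EE.p, EE.t, EE.nt, EE.v, E.val, NumI.lkR] at hp
    push_cast at hp
    linarith only [hc0, hp]
  · simp only [S_val, F_val, N_val, ui_val, EE.pa, EE.pb, EE.pc, EE.kT, nyy, EE.x, EE.T, EE.p, EE.t, EE.nt, EE.v, E.val, NumI.lkR] at hp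
    push_cast at hp
    linarith only [hc1, hp]
  · simp only [S_val, F_val, N_val, ui_val, EE.pa, EE.pb, EE.pc, EE.kT, nyy, EE.x, EE.T, EE.p, EE.t, EE.nt, EE.v, E.val, NumI.lkR] at hp
    push_cast at hp
    linarith only [ua9, hp]
  · simp only [S_val, F_val, N_val, ui_val, EE.pa, EE.pb, EE.pc, EE.kT, nyy, EE.x, EE.T, EE.p, EE.t, EE.nt, EE.v, E.val, NumI.lkR] at hp
    push_cast at hp
    linarith only [ua1, ua5, hp]
  · simp only [S_val, F_val, N_val, ui_val, EE.pa, EE.pb, EE.pc, EE.kT, nyy, EE.x, EE.T, EE.p, EE.t, EE.nt, EE.v, E.val, NumI.lkR] at hp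
    push_cast at hp
    linarith only [ua11, hp]

theorem far2_1c {x T p t : ℝ} (ua1 : 3600 / 10000 ≤ x) (ua2 : x ≤ 5000 / 10000) (ua3 : -(570 / 10000) ≤ T) (ua4 : T ≤ 50 / 10000) (ua5 : 2300 / 10000 ≤ p) (ua6 : p ≤ 3900 / 10000) (ua7 : -(1140 / 10000) ≤ t) (ua8 : t ≤ -(150 / 10000)) (ua9 : T - t ≤ 1050 / 10000) (ua10 : 7300 / 10000 ≤ x + p) (ua11 : x + p ≤ 7500 / 10000) :
    rS (100 / 27) x T p t < 125 / 1000 + Real.pi * (1 / 2) * (100 / 27 * T) ∨ rF (100 / 27) (80 / 100) (-98 / 10000) x T p t < 125 / 1000 + Real.pi * (1 / 2) * (100 / 27 * T) := by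
  have h : chkT [sub (add (q 125 1000) (mul (mul pi (q 1 2)) (kT 100 27))) (S 100 27), sub (add (q 125 1000) (mul (mul pi (q 1 2)) (kT 100 27))) (F 100 27 pc (q (-98) 10000)), sub (sub EE.T EE.t) (q 1050 10000), sub (q 7300 10000) EE.v, sub EE.v (q 7500 10000)] 30
    4351607591963844452623782384397576672002
    [NumI.V.of 10000 3600 5000, NumI.V.of 10000 (-570) 50, NumI.V.of 10000 2300 3900, NumI.V.of 10000 (-1140) (-150)] = true := by
    decide +kernel
  obtain ⟨f, hf, hp⟩ := chkT4 h (by norm_num) (x := x) (y := T) (z := p) (w := t)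
    (by norm_num; linarith only [ua1]) (by norm_num; linarith only [ua2]) (by norm_num; linarith only [ua3]) (by norm_num; linarith only [ua4]) (by norm_num; linarith only [ua5]) (by norm_num; linarith only [ua6]) (by norm_num; linarith only [ua7]) (by norm_num; linarith only [ua8])
  by_contra hc
  push Not at hc
  obtain ⟨hc0, hc1⟩ := hc
  simp only [List.mem_cons, List.not_mem_nil, or_false] at hf
  rcases hf with rfl | rfl | rfl | rfl | rfl
  · simp only [S_val, F_val, N_val, ui_val, EE.pa, EE.pb, EE.pc, EE.kT, nyy, EE.x, EE.T, EE.p, EE.t, EE.nt, EE.v, E.val, NumI.lkR] at hp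
    push_cast at hp
    linarith only [hc0, hp]
  · simp only [S_val, F_val, N_val, ui_val, EE.pa, EE.pb, EE.pc, EE.kT, nyy, EE.x, EE.T, EE.p, EE.t, EE.nt, EE.v, E.val, NumI.lkR] at hp
    push_cast at hp
    linarith only [hc1, hp]
  · simp only [S_val, F_val, N_val, ui_val, EE.pa, EE.pb, EE.pc, EE.kT, nyy, EE.x, EE.T, EE.p, EE.t, EE.nt, EE.v, E.val, NumI.lkR] at hp
    push_cast at hp
    linarith only [ua9, hp]
  · simp only [S_val, F_val, N_val, ui_val, EE.pa, EE.pb, EE.pc, EE.kT, nyy, EE.x, EE.T, EE.p, EE.t, EE.nt, EE.v, E.val, NumI.lkR] at hp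
    push_cast at hp
    linarith only [ua10, hp]
  · simp only [S_val, F_val, N_val, ui_val, EE.pa, EE.pb, EE.pc, EE.kT, nyy, EE.x, EE.T, EE.p, EE.t, EE.nt, EE.v, E.val, NumI.lkR] at hp
    push_cast at hp
    linarith only [ua11, hp]

theorem far2_ob {x T p t : ℝ} (ua1 : 3600 / 10000 ≤ x) (ua2 : x ≤ 5000 / 10000) (ua3 : -(570 / 10000) ≤ T) (ua4 : T ≤ 50 / 10000) (ua5 : 1000 / 10000 ≤ p) (ua6 : p ≤ 3700 / 10000) (ua7 : -(1040 / 10000) ≤ t) (ua8 : t ≤ 50 / 10000) (ua9 : T - t ≤ 1000 / 10000) (ua10 : 4300 / 10000 ≤ x + p) (ua11 : x + p ≤ 7300 / 10000) :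
    rS (100 / 27) x T p t < 125 / 1000 + Real.pi * (1 / 2) * (100 / 27 * T) ∨ rF (100 / 27) (x + p + 7 / 100) (220 / 10000) x T p t < 125 / 1000 + Real.pi * (1 / 2) * (100 / 27 * T) := by
  have h : chkT [sub (add (q 125 1000) (mul (mul pi (q 1 2)) (kT 100 27))) (S 100 27), sub (add (q 125 1000) (mul (mul pi (q 1 2)) (kT 100 27))) (F 100 27 pb (q 220 10000)), sub (sub EE.T EE.t) (q 1000 10000), sub (q 4300 10000) EE.v, sub EE.v (q 7300 10000)] 30
    7574137648874666303518679318626097982003866980993017725980281770499003818817862304990521525479194964897132782370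
    [NumI.V.of 10000 3600 5000, NumI.V.of 10000 (-570) 50, NumI.V.of 10000 1000 3700, NumI.V.of 10000 (-1040) 50] = true := by
    decide +kernel
  obtain ⟨f, hf, hp⟩ := chkT4 h (by norm_num) (x := x) (y := T) (z := p) (w := t)
    (by norm_num; linarith only [ua1]) (by norm_num; linarith only [ua2]) (by norm_num; linarith only [ua3]) (by norm_num; linarith only [ua4]) (by norm_num; linarith only [ua5]) (by norm_num; linarith only [ua6]) (by norm_num; linarith only [ua7]) (by norm_num; linarith only [ua8])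
  by_contra hc
  push Not at hc
  obtain ⟨hc0, hc1⟩ := hc
  simp only [List.mem_cons, List.not_mem_nil, or_false] at hf
  rcases hf with rfl | rfl | rfl | rfl | rfl
  · simp only [S_val, F_val, N_val, ui_val, EE.pa, EE.pb, EE.pc, EE.kT, nyy, EE.x, EE.T, EE.p, EE.t, EE.nt, EE.v, E.val, NumI.lkR] at hp
    push_cast at hp
    linarith only [hc0, hp]
  · simp only [S_val, F_val, N_val, ui_val, EE.pa, EE.pb, EE.pc, EE.kT, nyy, EE.x, EE.T, EE.p, EE.t, EE.nt, EE.v, E.val, NumI.lkR] at hp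
    push_cast at hp
    linarith only [hc1, hp]
  · simp only [S_val, F_val, N_val, ui_val, EE.pa, EE.pb, EE.pc, EE.kT, nyy, EE.x, EE.T, EE.p, EE.t, EE.nt, EE.v, E.val, NumI.lkR] at hp
    push_cast at hp
    linarith only [ua9, hp]
  · simp only [S_val, F_val, N_val, ui_val, EE.pa, EE.pb, EE.pc, EE.kT, nyy, EE.x, EE.T, EE.p, EE.t, EE.nt, EE.v, E.val, NumI.lkR] at hp
    push_cast at hp
    linarith only [ua1, ua5, hp]
  · simp only [S_val, F_val, N_val, ui_val, EE.pa, EE.pb, EE.pc, EE.kT, nyy, EE.x, EE.T, EE.p, EE.t, EE.nt, EE.v, E.val, NumI.lkR] at hp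
    push_cast at hp
    linarith only [ua11, hp]

theorem far2_oc {x T p t : ℝ} (ua1 : 3600 / 10000 ≤ x) (ua2 : x ≤ 5000 / 10000) (ua3 : -(570 / 10000) ≤ T) (ua4 : T ≤ 50 / 10000) (ua5 : 2300 / 10000 ≤ p) (ua6 : p ≤ 3900 / 10000) (ua7 : -(1040 / 10000) ≤ t) (ua8 : t ≤ 50 / 10000) (ua9 : T - t ≤ 1000 / 10000) (ua10 : 7300 / 10000 ≤ x + p) (ua11 : x + p ≤ 7500 / 10000) :
    rS (100 / 27) x T p t < 125 / 1000 + Real.pi * (1 / 2) * (100 / 27 * T) ∨ rF (100 / 27) (80 / 100) (220 / 10000) x T p t < 125 / 1000 + Real.pi * (1 / 2) * (100 / 27 * T) := by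
  have h : chkT [sub (add (q 125 1000) (mul (mul pi (q 1 2)) (kT 100 27))) (S 100 27), sub (add (q 125 1000) (mul (mul pi (q 1 2)) (kT 100 27))) (F 100 27 pc (q 220 10000)), sub (sub EE.T EE.t) (q 1000 10000), sub (q 7300 10000) EE.v, sub EE.v (q 7500 10000)] 30
    16997492332793595960624403616042727682
    [NumI.V.of 10000 3600 5000, NumI.V.of 10000 (-570) 50, NumI.V.of 10000 2300 3900, NumI.V.of 10000 (-1040) 50] = true := by
    decide +kernel
  obtain ⟨f, hf, hp⟩ := chkT4 h (by norm_num) (x := x) (y := T) (z := p) (w := t)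
    (by norm_num; linarith only [ua1]) (by norm_num; linarith only [ua2]) (by norm_num; linarith only [ua3]) (by norm_num; linarith only [ua4]) (by norm_num; linarith only [ua5]) (by norm_num; linarith only [ua6]) (by norm_num; linarith only [ua7]) (by norm_num; linarith only [ua8])
  by_contra hc
  push Not at hc
  obtain ⟨hc0, hc1⟩ := hc
  simp only [List.mem_cons, List.not_mem_nil, or_false] at hf
  rcases hf with rfl | rfl | rfl | rfl | rfl
  · simp only [S_val, F_val, N_val, ui_val, EE.pa, EE.pb, EE.pc, EE.kT, nyy, EE.x, EE.T, EE.p, EE.t, EE.nt, EE.v, E.val, NumI.lkR] at hp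
    push_cast at hp
    linarith only [hc0, hp]
  · simp only [S_val, F_val, N_val, ui_val, EE.pa, EE.pb, EE.pc, EE.kT, nyy, EE.x, EE.T, EE.p, EE.t, EE.nt, EE.v, E.val, NumI.lkR] at hp
    push_cast at hp
    linarith only [hc1, hp]
  · simp only [S_val, F_val, N_val, ui_val, EE.pa, EE.pb, EE.pc, EE.kT, nyy, EE.x, EE.T, EE.p, EE.t, EE.nt, EE.v, E.val, NumI.lkR] at hp
    push_cast at hp
    linarith only [ua9, hp]
  · simp only [S_val, F_val, N_val, ui_val, EE.pa, EE.pb, EE.pc, EE.kT, nyy, EE.x, EE.T, EE.p, EE.t, EE.nt, EE.v, E.val, NumI.lkR] at hp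
    push_cast at hp
    linarith only [ua10, hp]
  · simp only [S_val, F_val, N_val, ui_val, EE.pa, EE.pb, EE.pc, EE.kT, nyy, EE.x, EE.T, EE.p, EE.t, EE.nt, EE.v, E.val, NumI.lkR] at hp
    push_cast at hp
    linarith only [ua11, hp]

theorem far2_Zb {x T p t : ℝ} (ua1 : 3600 / 10000 ≤ x) (ua2 : x ≤ 5000 / 10000) (ua3 : -(570 / 10000) ≤ T) (ua4 : T ≤ 50 / 10000) (ua5 : 1000 / 10000 ≤ p) (ua6 : p ≤ 3700 / 10000) (ua7 : -(920 / 10000) ≤ t) (ua8 : t ≤ 0 / 10000) (ua9 : T - t ≤ 930 / 10000) (ua10 : 4300 / 10000 ≤ x + p) (ua11 : x + p ≤ 7300 / 10000) :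
    rS (100 / 27) x T p t < 125 / 1000 + Real.pi * (1 / 2) * (100 / 27 * T) ∨ rF (100 / 27) (x + p + 7 / 100) (570 / 10000) x T p t < 125 / 1000 + Real.pi * (1 / 2) * (100 / 27 * T) := by
  have h : chkT [sub (add (q 125 1000) (mul (mul pi (q 1 2)) (kT 100 27))) (S 100 27), sub (add (q 125 1000) (mul (mul pi (q 1 2)) (kT 100 27))) (F 100 27 pb (q 570 10000)), sub (sub EE.T EE.t) (q 930 10000), sub (q 4300 10000) EE.v, sub EE.v (q 7300 10000)] 30
    1603948249376549021123924741225960375641277932413736052052310908863844608130065037476766498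
    [NumI.V.of 10000 3600 5000, NumI.V.of 10000 (-570) 50, NumI.V.of 10000 1000 3700, NumI.V.of 10000 (-920) 0] = true := by
    decide +kernel
  obtain ⟨f, hf, hp⟩ := chkT4 h (by norm_num) (x := x) (y := T) (z := p) (w := t)
    (by norm_num; linarith only [ua1]) (by norm_num; linarith only [ua2]) (by norm_num; linarith only [ua3]) (by norm_num; linarith only [ua4]) (by norm_num; linarith only [ua5]) (by norm_num; linarith only [ua6]) (by norm_num; linarith only [ua7]) (by norm_num; linarith only [ua8])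
  by_contra hc
  push Not at hc
  obtain ⟨hc0, hc1⟩ := hc
  simp only [List.mem_cons, List.not_mem_nil, or_false] at hf
  rcases hf with rfl | rfl | rfl | rfl | rfl
  · simp only [S_val, F_val, N_val, ui_val, EE.pa, EE.pb, EE.pc, EE.kT, nyy, EE.x, EE.T, EE.p, EE.t, EE.nt, EE.v, E.val, NumI.lkR] at hp
    push_cast at hp
    linarith only [hc0, hp]
  · simp only [S_val, F_val, N_val, ui_val, EE.pa, EE.pb, EE.pc, EE.kT, nyy, EE.x, EE.T, EE.p, EE.t, EE.nt, EE.v, E.val, NumI.lkR] at hp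
    push_cast at hp
    linarith only [hc1, hp]
  · simp only [S_val, F_val, N_val, ui_val, EE.pa, EE.pb, EE.pc, EE.kT, nyy, EE.x, EE.T, EE.p, EE.t, EE.nt, EE.v, E.val, NumI.lkR] at hp
    push_cast at hp
    linarith only [ua9, hp]
  · simp only [S_val, F_val, N_val, ui_val, EE.pa, EE.pb, EE.pc, EE.kT, nyy, EE.x, EE.T, EE.p, EE.t, EE.nt, EE.v, E.val, NumI.lkR] at hp
    push_cast at hp
    linarith only [ua1, ua5, hp]
  · simp only [S_val, F_val, N_val, ui_val, EE.pa, EE.pb, EE.pc, EE.kT, nyy, EE.x, EE.T, EE.p, EE.t, EE.nt, EE.v, E.val, NumI.lkR] at hp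
    push_cast at hp
    linarith only [ua11, hp]

theorem far2_Zc {x T p t : ℝ} (ua1 : 3600 / 10000 ≤ x) (ua2 : x ≤ 5000 / 10000) (ua3 : -(570 / 10000) ≤ T) (ua4 : T ≤ 50 / 10000) (ua5 : 2300 / 10000 ≤ p) (ua6 : p ≤ 3900 / 10000) (ua7 : -(920 / 10000) ≤ t) (ua8 : t ≤ 0 / 10000) (ua9 : T - t ≤ 930 / 10000) (ua10 : 7300 / 10000 ≤ x + p) (ua11 : x + p ≤ 7500 / 10000) :
    rS (100 / 27) x T p t < 125 / 1000 + Real.pi * (1 / 2) * (100 / 27 * T) ∨ rF (100 / 27) (80 / 100) (570 / 10000) x T p t < 125 / 1000 + Real.pi * (1 / 2) * (100 / 27 * T) := by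
  have h : chkT [sub (add (q 125 1000) (mul (mul pi (q 1 2)) (kT 100 27))) (S 100 27), sub (add (q 125 1000) (mul (mul pi (q 1 2)) (kT 100 27))) (F 100 27 pc (q 570 10000)), sub (sub EE.T EE.t) (q 930 10000), sub (q 7300 10000) EE.v, sub EE.v (q 7500 10000)] 30
    1013122161518464289650326518018
    [NumI.V.of 10000 3600 5000, NumI.V.of 10000 (-570) 50, NumI.V.of 10000 2300 3900, NumI.V.of 10000 (-920) 0] = true := by
    decide +kernel
  obtain ⟨f, hf, hp⟩ := chkT4 h (by norm_num) (x := x) (y := T) (z := p) (w := t)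
    (by norm_num; linarith only [ua1]) (by norm_num; linarith only [ua2]) (by norm_num; linarith only [ua3]) (by norm_num; linarith only [ua4]) (by norm_num; linarith only [ua5]) (by norm_num; linarith only [ua6]) (by norm_num; linarith only [ua7]) (by norm_num; linarith only [ua8])
  by_contra hc
  push Not at hc
  obtain ⟨hc0, hc1⟩ := hc
  simp only [List.mem_cons, List.not_mem_nil, or_false] at hf
  rcases hf with rfl | rfl | rfl | rfl | rfl
  · simp only [S_val, F_val, N_val, ui_val, EE.pa, EE.pb, EE.pc, EE.kT, nyy, EE.x, EE.T, EE.p, EE.t, EE.nt, EE.v, E.val, NumI.lkR] at hp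
    push_cast at hp
    linarith only [hc0, hp]
  · simp only [S_val, F_val, N_val, ui_val, EE.pa, EE.pb, EE.pc, EE.kT, nyy, EE.x, EE.T, EE.p, EE.t, EE.nt, EE.v, E.val, NumI.lkR] at hp
    push_cast at hp
    linarith only [hc1, hp]
  · simp only [S_val, F_val, N_val, ui_val, EE.pa, EE.pb, EE.pc, EE.kT, nyy, EE.x, EE.T, EE.p, EE.t, EE.nt, EE.v, E.val, NumI.lkR] at hp
    push_cast at hp
    linarith only [ua9, hp]
  · simp only [S_val, F_val, N_val, ui_val, EE.pa, EE.pb, EE.pc, EE.kT, nyy, EE.x, EE.T, EE.p, EE.t, EE.nt, EE.v, E.val, NumI.lkR] at hp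
    push_cast at hp
    linarith only [ua10, hp]
  · simp only [S_val, F_val, N_val, ui_val, EE.pa, EE.pb, EE.pc, EE.kT, nyy, EE.x, EE.T, EE.p, EE.t, EE.nt, EE.v, E.val, NumI.lkR] at hp
    push_cast at hp
    linarith only [ua11, hp]

theorem e2_1a {x T p t : ℝ} (ua1 : 3000 / 10000 ≤ x) (ua2 : x ≤ 5000 / 10000) (ua3 : -(980 / 10000) ≤ T) (ua4 : T ≤ -(760 / 10000)) (ua5 : 1000 / 10000 ≤ p) (ua6 : p ≤ 1300 / 10000) (ua7 : -(1230 / 10000) ≤ t) (ua8 : t ≤ -(800 / 10000)) (ua9 : x + p ≤ 4300 / 10000) :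
    rS (10 / 3) x T p t < 57 / 100 + 5 / 2 * (10 / 3 * T) ∨ rF (10 / 3) (1 / 2) (-98 / 10000) x T p t < 57 / 100 + 5 / 2 * (10 / 3 * T) := by
  have h : chkT [sub (add (q 57 100) (mul (q 5 2) (kT 10 3))) (S 10 3), sub (add (q 57 100) (mul (q 5 2) (kT 10 3))) (F 10 3 pa (q (-98) 10000)), sub EE.v (q 4300 10000)] 30
    2176
    [NumI.V.of 10000 3000 5000, NumI.V.of 10000 (-980) (-760), NumI.V.of 10000 1000 1300, NumI.V.of 10000 (-1230) (-800)] = true := by
    decide +kernel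
  obtain ⟨f, hf, hp⟩ := chkT4 h (by norm_num) (x := x) (y := T) (z := p) (w := t)
    (by norm_num; linarith only [ua1]) (by norm_num; linarith only [ua2]) (by norm_num; linarith only [ua3]) (by norm_num; linarith only [ua4]) (by norm_num; linarith only [ua5]) (by norm_num; linarith only [ua6]) (by norm_num; linarith only [ua7]) (by norm_num; linarith only [ua8])
  by_contra hc
  push Not at hc
  obtain ⟨hc0, hc1⟩ := hc
  simp only [List.mem_cons, List.not_mem_nil, or_false] at hf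
  rcases hf with rfl | rfl | rfl
  · simp only [S_val, F_val, N_val, ui_val, EE.pa, EE.pb, EE.pc, EE.kT, nyy, EE.x, EE.T, EE.p, EE.t, EE.nt, EE.v, E.val, NumI.lkR] at hp
    push_cast at hp
    linarith only [hc0, hp]
  · simp only [S_val, F_val, N_val, ui_val, EE.pa, EE.pb, EE.pc, EE.kT, nyy, EE.x, EE.T, EE.p, EE.t, EE.nt, EE.v, E.val, NumI.lkR] at hp
    push_cast at hp
    linarith only [hc1, hp]
  · simp only [S_val, F_val, N_val, ui_val, EE.pa, EE.pb, EE.pc, EE.kT, nyy, EE.x, EE.T, EE.p, EE.t, EE.nt, EE.v, E.val, NumI.lkR] at hp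
    push_cast at hp
    linarith only [ua9, hp]

theorem e2_1b {x T p t : ℝ} (ua1 : 3000 / 10000 ≤ x) (ua2 : x ≤ 5000 / 10000) (ua3 : -(980 / 10000) ≤ T) (ua4 : T ≤ -(760 / 10000)) (ua5 : 1000 / 10000 ≤ p) (ua6 : p ≤ 4300 / 10000) (ua7 : -(1230 / 10000) ≤ t) (ua8 : t ≤ -(800 / 10000)) (ua9 : 4300 / 10000 ≤ x + p) (ua10 : x + p ≤ 7300 / 10000) :
    rS (10 / 3) x T p t < 57 / 100 + 5 / 2 * (10 / 3 * T) ∨ rF (10 / 3) (x + p + 7 / 100) (-98 / 10000) x T p t < 57 / 100 + 5 / 2 * (10 / 3 * T) := by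
  have h : chkT [sub (add (q 57 100) (mul (q 5 2) (kT 10 3))) (S 10 3), sub (add (q 57 100) (mul (q 5 2) (kT 10 3))) (F 10 3 pb (q (-98) 10000)), sub (q 4300 10000) EE.v, sub EE.v (q 7300 10000)] 30
    741317810775136870423291976292478761836578
    [NumI.V.of 10000 3000 5000, NumI.V.of 10000 (-980) (-760), NumI.V.of 10000 1000 4300, NumI.V.of 10000 (-1230) (-800)] = true := by
    decide +kernel
  obtain ⟨f, hf, hp⟩ := chkT4 h (by norm_num) (x := x) (y := T) (z := p) (w := t)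
    (by norm_num; linarith only [ua1]) (by norm_num; linarith only [ua2]) (by norm_num; linarith only [ua3]) (by norm_num; linarith only [ua4]) (by norm_num; linarith only [ua5]) (by norm_num; linarith only [ua6]) (by norm_num; linarith only [ua7]) (by norm_num; linarith only [ua8])
  by_contra hc
  push Not at hc
  obtain ⟨hc0, hc1⟩ := hc
  simp only [List.mem_cons, List.not_mem_nil, or_false] at hf
  rcases hf with rfl | rfl | rfl | rfl
  · simp only [S_val, F_val, N_val, ui_val, EE.pa, EE.pb, EE.pc, EE.kT, nyy, EE.x, EE.T, EE.p, EE.t, EE.nt, EE.v, E.val, NumI.lkR] at hp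
    push_cast at hp
    linarith only [hc0, hp]
  · simp only [S_val, F_val, N_val, ui_val, EE.pa, EE.pb, EE.pc, EE.kT, nyy, EE.x, EE.T, EE.p, EE.t, EE.nt, EE.v, E.val, NumI.lkR] at hp
    push_cast at hp
    linarith only [hc1, hp]
  · simp only [S_val, F_val, N_val, ui_val, EE.pa, EE.pb, EE.pc, EE.kT, nyy, EE.x, EE.T, EE.p, EE.t, EE.nt, EE.v, E.val, NumI.lkR] at hp
    push_cast at hp
    linarith only [ua9, hp]
  · simp only [S_val, F_val, N_val, ui_val, EE.pa, EE.pb, EE.pc, EE.kT, nyy, EE.x, EE.T, EE.p, EE.t, EE.nt, EE.v, E.val, NumI.lkR] at hp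
    push_cast at hp
    linarith only [ua10, hp]

theorem e2_1c {x T p t : ℝ} (ua1 : 3000 / 10000 ≤ x) (ua2 : x ≤ 5000 / 10000) (ua3 : -(980 / 10000) ≤ T) (ua4 : T ≤ -(760 / 10000)) (ua5 : 2300 / 10000 ≤ p) (ua6 : p ≤ 4500 / 10000) (ua7 : -(1230 / 10000) ≤ t) (ua8 : t ≤ -(800 / 10000)) (ua9 : 7300 / 10000 ≤ x + p) (ua10 : x + p ≤ 7500 / 10000) :
    rS (10 / 3) x T p t < 57 / 100 + 5 / 2 * (10 / 3 * T) ∨ rF (10 / 3) (80 / 100) (-98 / 10000) x T p t < 57 / 100 + 5 / 2 * (10 / 3 * T) := by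
  have h : chkT [sub (add (q 57 100) (mul (q 5 2) (kT 10 3))) (S 10 3), sub (add (q 57 100) (mul (q 5 2) (kT 10 3))) (F 10 3 pc (q (-98) 10000)), sub (q 7300 10000) EE.v, sub EE.v (q 7500 10000)] 30
    9384512557570
    [NumI.V.of 10000 3000 5000, NumI.V.of 10000 (-980) (-760), NumI.V.of 10000 2300 4500, NumI.V.of 10000 (-1230) (-800)] = true := by
    decide +kernel
  obtain ⟨f, hf, hp⟩ := chkT4 h (by norm_num) (x := x) (y := T) (z := p) (w := t)
    (by norm_num; linarith only [ua1]) (by norm_num; linarith only [ua2]) (by norm_num; linarith only [ua3]) (by norm_num; linarith only [ua4]) (by norm_num; linarith only [ua5]) (by norm_num; linarith only [ua6]) (by norm_num; linarith only [ua7]) (by norm_num; linarith only [ua8])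
  by_contra hc
  push Not at hc
  obtain ⟨hc0, hc1⟩ := hc
  simp only [List.mem_cons, List.not_mem_nil, or_false] at hf
  rcases hf with rfl | rfl | rfl | rfl
  · simp only [S_val, F_val, N_val, ui_val, EE.pa, EE.pb, EE.pc, EE.kT, nyy, EE.x, EE.T, EE.p, EE.t, EE.nt, EE.v, E.val, NumI.lkR] at hp
    push_cast at hp
    linarith only [hc0, hp]
  · simp only [S_val, F_val, N_val, ui_val, EE.pa, EE.pb, EE.pc, EE.kT, nyy, EE.x, EE.T, EE.p, EE.t, EE.nt, EE.v, E.val, NumI.lkR] at hp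
    push_cast at hp
    linarith only [hc1, hp]
  · simp only [S_val, F_val, N_val, ui_val, EE.pa, EE.pb, EE.pc, EE.kT, nyy, EE.x, EE.T, EE.p, EE.t, EE.nt, EE.v, E.val, NumI.lkR] at hp
    push_cast at hp
    linarith only [ua9, hp]
  · simp only [S_val, F_val, N_val, ui_val, EE.pa, EE.pb, EE.pc, EE.kT, nyy, EE.x, EE.T, EE.p, EE.t, EE.nt, EE.v, E.val, NumI.lkR] at hp
    push_cast at hp
    linarith only [ua10, hp]

theorem e2_oa {x T p t : ℝ} (ua1 : 3000 / 10000 ≤ x) (ua2 : x ≤ 5000 / 10000) (ua3 : -(980 / 10000) ≤ T) (ua4 : T ≤ -(760 / 10000)) (ua5 : 1000 / 10000 ≤ p) (ua6 : p ≤ 1300 / 10000) (ua7 : -(1160 / 10000) ≤ t) (ua8 : t ≤ -(640 / 10000)) (ua9 : x + p ≤ 4300 / 10000) :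
    rS (10 / 3) x T p t < 57 / 100 + 5 / 2 * (10 / 3 * T) ∨ rF (10 / 3) (1 / 2) (220 / 10000) x T p t < 57 / 100 + 5 / 2 * (10 / 3 * T) := by
  have h : chkT [sub (add (q 57 100) (mul (q 5 2) (kT 10 3))) (S 10 3), sub (add (q 57 100) (mul (q 5 2) (kT 10 3))) (F 10 3 pa (q 220 10000)), sub EE.v (q 4300 10000)] 30
    2176
    [NumI.V.of 10000 3000 5000, NumI.V.of 10000 (-980) (-760), NumI.V.of 10000 1000 1300, NumI.V.of 10000 (-1160) (-640)] = true := by
    decide +kernel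
  obtain ⟨f, hf, hp⟩ := chkT4 h (by norm_num) (x := x) (y := T) (z := p) (w := t)
    (by norm_num; linarith only [ua1]) (by norm_num; linarith only [ua2]) (by norm_num; linarith only [ua3]) (by norm_num; linarith only [ua4]) (by norm_num; linarith only [ua5]) (by norm_num; linarith only [ua6]) (by norm_num; linarith only [ua7]) (by norm_num; linarith only [ua8])
  by_contra hc
  push Not at hc
  obtain ⟨hc0, hc1⟩ := hc
  simp only [List.mem_cons, List.not_mem_nil, or_false] at hf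
  rcases hf with rfl | rfl | rfl
  · simp only [S_val, F_val, N_val, ui_val, EE.pa, EE.pb, EE.pc, EE.kT, nyy, EE.x, EE.T, EE.p, EE.t, EE.nt, EE.v, E.val, NumI.lkR] at hp
    push_cast at hp
    linarith only [hc0, hp]
  · simp only [S_val, F_val, N_val, ui_val, EE.pa, EE.pb, EE.pc, EE.kT, nyy, EE.x, EE.T, EE.p, EE.t, EE.nt, EE.v, E.val, NumI.lkR] at hp
    push_cast at hp
    linarith only [hc1, hp]
  · simp only [S_val, F_val, N_val, ui_val, EE.pa, EE.pb, EE.pc, EE.kT, nyy, EE.x, EE.T, EE.p, EE.t, EE.nt, EE.v, E.val, NumI.lkR] at hp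
    push_cast at hp
    linarith only [ua9, hp]

theorem e2_ob {x T p t : ℝ} (ua1 : 3000 / 10000 ≤ x) (ua2 : x ≤ 5000 / 10000) (ua3 : -(980 / 10000) ≤ T) (ua4 : T ≤ -(760 / 10000)) (ua5 : 1000 / 10000 ≤ p) (ua6 : p ≤ 4300 / 10000) (ua7 : -(1160 / 10000) ≤ t) (ua8 : t ≤ -(640 / 10000)) (ua9 : 4300 / 10000 ≤ x + p) (ua10 : x + p ≤ 7300 / 10000) :
    rS (10 / 3) x T p t < 57 / 100 + 5 / 2 * (10 / 3 * T) ∨ rF (10 / 3) (x + p + 7 / 100) (220 / 10000) x T p t < 57 / 100 + 5 / 2 * (10 / 3 * T) := by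
  have h : chkT [sub (add (q 57 100) (mul (q 5 2) (kT 10 3))) (S 10 3), sub (add (q 57 100) (mul (q 5 2) (kT 10 3))) (F 10 3 pb (q 220 10000)), sub (q 4300 10000) EE.v, sub EE.v (q 7300 10000)] 30
    11311591756109581903021962299710119970
    [NumI.V.of 10000 3000 5000, NumI.V.of 10000 (-980) (-760), NumI.V.of 10000 1000 4300, NumI.V.of 10000 (-1160) (-640)] = true := by
    decide +kernel
  obtain ⟨f, hf, hp⟩ := chkT4 h (by norm_num) (x := x) (y := T) (z := p) (w := t)
    (by norm_num; linarith only [ua1]) (by norm_num; linarith only [ua2]) (by norm_num; linarith only [ua3]) (by norm_num; linarith only [ua4]) (by norm_num; linarith only [ua5]) (by norm_num; linarith only [ua6]) (by norm_num; linarith only [ua7]) (by norm_num; linarith only [ua8])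
  by_contra hc
  push Not at hc
  obtain ⟨hc0, hc1⟩ := hc
  simp only [List.mem_cons, List.not_mem_nil, or_false] at hf
  rcases hf with rfl | rfl | rfl | rfl
  · simp only [S_val, F_val, N_val, ui_val, EE.pa, EE.pb, EE.pc, EE.kT, nyy, EE.x, EE.T, EE.p, EE.t, EE.nt, EE.v, E.val, NumI.lkR] at hp
    push_cast at hp
    linarith only [hc0, hp]
  · simp only [S_val, F_val, N_val, ui_val, EE.pa, EE.pb, EE.pc, EE.kT, nyy, EE.x, EE.T, EE.p, EE.t, EE.nt, EE.v, E.val, NumI.lkR] at hp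
    push_cast at hp
    linarith only [hc1, hp]
  · simp only [S_val, F_val, N_val, ui_val, EE.pa, EE.pb, EE.pc, EE.kT, nyy, EE.x, EE.T, EE.p, EE.t, EE.nt, EE.v, E.val, NumI.lkR] at hp
    push_cast at hp
    linarith only [ua9, hp]
  · simp only [S_val, F_val, N_val, ui_val, EE.pa, EE.pb, EE.pc, EE.kT, nyy, EE.x, EE.T, EE.p, EE.t, EE.nt, EE.v, E.val, NumI.lkR] at hp
    push_cast at hp
    linarith only [ua10, hp]

theorem e2_oc {x T p t : ℝ} (ua1 : 3000 / 10000 ≤ x) (ua2 : x ≤ 5000 / 10000) (ua3 : -(980 / 10000) ≤ T) (ua4 : T ≤ -(760 / 10000)) (ua5 : 2300 / 10000 ≤ p) (ua6 : p ≤ 4500 / 10000) (ua7 : -(1160 / 10000) ≤ t) (ua8 : t ≤ -(640 / 10000)) (ua9 : 7300 / 10000 ≤ x + p) (ua10 : x + p ≤ 7500 / 10000) :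
    rS (10 / 3) x T p t < 57 / 100 + 5 / 2 * (10 / 3 * T) ∨ rF (10 / 3) (80 / 100) (220 / 10000) x T p t < 57 / 100 + 5 / 2 * (10 / 3 * T) := by
  have h : chkT [sub (add (q 57 100) (mul (q 5 2) (kT 10 3))) (S 10 3), sub (add (q 57 100) (mul (q 5 2) (kT 10 3))) (F 10 3 pc (q 220 10000)), sub (q 7300 10000) EE.v, sub EE.v (q 7500 10000)] 30
    9384512553474
    [NumI.V.of 10000 3000 5000, NumI.V.of 10000 (-980) (-760), NumI.V.of 10000 2300 4500, NumI.V.of 10000 (-1160) (-640)] = true := by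
    decide +kernel
  obtain ⟨f, hf, hp⟩ := chkT4 h (by norm_num) (x := x) (y := T) (z := p) (w := t)
    (by norm_num; linarith only [ua1]) (by norm_num; linarith only [ua2]) (by norm_num; linarith only [ua3]) (by norm_num; linarith only [ua4]) (by norm_num; linarith only [ua5]) (by norm_num; linarith only [ua6]) (by norm_num; linarith only [ua7]) (by norm_num; linarith only [ua8])
  by_contra hc
  push Not at hc
  obtain ⟨hc0, hc1⟩ := hc
  simp only [List.mem_cons, List.not_mem_nil, or_false] at hf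
  rcases hf with rfl | rfl | rfl | rfl
  · simp only [S_val, F_val, N_val, ui_val, EE.pa, EE.pb, EE.pc, EE.kT, nyy, EE.x, EE.T, EE.p, EE.t, EE.nt, EE.v, E.val, NumI.lkR] at hp
    push_cast at hp
    linarith only [hc0, hp]
  · simp only [S_val, F_val, N_val, ui_val, EE.pa, EE.pb, EE.pc, EE.kT, nyy, EE.x, EE.T, EE.p, EE.t, EE.nt, EE.v, E.val, NumI.lkR] at hp
    push_cast at hp
    linarith only [hc1, hp]
  · simp only [S_val, F_val, N_val, ui_val, EE.pa, EE.pb, EE.pc, EE.kT, nyy, EE.x, EE.T, EE.p, EE.t, EE.nt, EE.v, E.val, NumI.lkR] at hp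
    push_cast at hp
    linarith only [ua9, hp]
  · simp only [S_val, F_val, N_val, ui_val, EE.pa, EE.pb, EE.pc, EE.kT, nyy, EE.x, EE.T, EE.p, EE.t, EE.nt, EE.v, E.val, NumI.lkR] at hp
    push_cast at hp
    linarith only [ua10, hp]

theorem e2_Za {x T p t : ℝ} (ua1 : 3000 / 10000 ≤ x) (ua2 : x ≤ 5000 / 10000) (ua3 : -(980 / 10000) ≤ T) (ua4 : T ≤ -(760 / 10000)) (ua5 : 1000 / 10000 ≤ p) (ua6 : p ≤ 1300 / 10000) (ua7 : -(1060 / 10000) ≤ t) (ua8 : t ≤ -(670 / 10000)) (ua9 : x + p ≤ 4300 / 10000) :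
    rS (10 / 3) x T p t < 57 / 100 + 5 / 2 * (10 / 3 * T) ∨ rF (10 / 3) (1 / 2) (570 / 10000) x T p t < 57 / 100 + 5 / 2 * (10 / 3 * T) := by
  have h : chkT [sub (add (q 57 100) (mul (q 5 2) (kT 10 3))) (S 10 3), sub (add (q 57 100) (mul (q 5 2) (kT 10 3))) (F 10 3 pa (q 570 10000)), sub EE.v (q 4300 10000)] 30
    8
    [NumI.V.of 10000 3000 5000, NumI.V.of 10000 (-980) (-760), NumI.V.of 10000 1000 1300, NumI.V.of 10000 (-1060) (-670)] = true := by
    decide +kernel
  obtain ⟨f, hf, hp⟩ := chkT4 h (by norm_num) (x := x) (y := T) (z := p) (w := t)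
    (by norm_num; linarith only [ua1]) (by norm_num; linarith only [ua2]) (by norm_num; linarith only [ua3]) (by norm_num; linarith only [ua4]) (by norm_num; linarith only [ua5]) (by norm_num; linarith only [ua6]) (by norm_num; linarith only [ua7]) (by norm_num; linarith only [ua8])
  by_contra hc
  push Not at hc
  obtain ⟨hc0, hc1⟩ := hc
  simp only [List.mem_cons, List.not_mem_nil, or_false] at hf
  rcases hf with rfl | rfl | rfl
  · simp only [S_val, F_val, N_val, ui_val, EE.pa, EE.pb, EE.pc, EE.kT, nyy, EE.x, EE.T, EE.p, EE.t, EE.nt, EE.v, E.val, NumI.lkR] at hp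
    push_cast at hp
    linarith only [hc0, hp]
  · simp only [S_val, F_val, N_val, ui_val, EE.pa, EE.pb, EE.pc, EE.kT, nyy, EE.x, EE.T, EE.p, EE.t, EE.nt, EE.v, E.val, NumI.lkR] at hp
    push_cast at hp
    linarith only [hc1, hp]
  · simp only [S_val, F_val, N_val, ui_val, EE.pa, EE.pb, EE.pc, EE.kT, nyy, EE.x, EE.T, EE.p, EE.t, EE.nt, EE.v, E.val, NumI.lkR] at hp
    push_cast at hp
    linarith only [ua9, hp]

theorem e2_Zb {x T p t : ℝ} (ua1 : 3000 / 10000 ≤ x) (ua2 : x ≤ 5000 / 10000) (ua3 : -(980 / 10000) ≤ T) (ua4 : T ≤ -(760 / 10000)) (ua5 : 1000 / 10000 ≤ p) (ua6 : p ≤ 4300 / 10000) (ua7 : -(1060 / 10000) ≤ t) (ua8 : t ≤ -(670 / 10000)) (ua9 : 4300 / 10000 ≤ x + p) (ua10 : x + p ≤ 7300 / 10000) :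
    rS (10 / 3) x T p t < 57 / 100 + 5 / 2 * (10 / 3 * T) ∨ rF (10 / 3) (x + p + 7 / 100) (570 / 10000) x T p t < 57 / 100 + 5 / 2 * (10 / 3 * T) := by
  have h : chkT [sub (add (q 57 100) (mul (q 5 2) (kT 10 3))) (S 10 3), sub (add (q 57 100) (mul (q 5 2) (kT 10 3))) (F 10 3 pb (q 570 10000)), sub (q 4300 10000) EE.v, sub EE.v (q 7300 10000)] 30
    40186810818005584871970
    [NumI.V.of 10000 3000 5000, NumI.V.of 10000 (-980) (-760), NumI.V.of 10000 1000 4300, NumI.V.of 10000 (-1060) (-670)] = true := by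
    decide +kernel
  obtain ⟨f, hf, hp⟩ := chkT4 h (by norm_num) (x := x) (y := T) (z := p) (w := t)
    (by norm_num; linarith only [ua1]) (by norm_num; linarith only [ua2]) (by norm_num; linarith only [ua3]) (by norm_num; linarith only [ua4]) (by norm_num; linarith only [ua5]) (by norm_num; linarith only [ua6]) (by norm_num; linarith only [ua7]) (by norm_num; linarith only [ua8])
  by_contra hc
  push Not at hc
  obtain ⟨hc0, hc1⟩ := hc
  simp only [List.mem_cons, List.not_mem_nil, or_false] at hf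
  rcases hf with rfl | rfl | rfl | rfl
  · simp only [S_val, F_val, N_val, ui_val, EE.pa, EE.pb, EE.pc, EE.kT, nyy, EE.x, EE.T, EE.p, EE.t, EE.nt, EE.v, E.val, NumI.lkR] at hp
    push_cast at hp
    linarith only [hc0, hp]
  · simp only [S_val, F_val, N_val, ui_val, EE.pa, EE.pb, EE.pc, EE.kT, nyy, EE.x, EE.T, EE.p, EE.t, EE.nt, EE.v, E.val, NumI.lkR] at hp
    push_cast at hp
    linarith only [hc1, hp]
  · simp only [S_val, F_val, N_val, ui_val, EE.pa, EE.pb, EE.pc, EE.kT, nyy, EE.x, EE.T, EE.p, EE.t, EE.nt, EE.v, E.val, NumI.lkR] at hp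
    push_cast at hp
    linarith only [ua9, hp]
  · simp only [S_val, F_val, N_val, ui_val, EE.pa, EE.pb, EE.pc, EE.kT, nyy, EE.x, EE.T, EE.p, EE.t, EE.nt, EE.v, E.val, NumI.lkR] at hp
    push_cast at hp
    linarith only [ua10, hp]

theorem e2_Zc {x T p t : ℝ} (ua1 : 3000 / 10000 ≤ x) (ua2 : x ≤ 5000 / 10000) (ua3 : -(980 / 10000) ≤ T) (ua4 : T ≤ -(760 / 10000)) (ua5 : 2300 / 10000 ≤ p) (ua6 : p ≤ 4500 / 10000) (ua7 : -(1060 / 10000) ≤ t) (ua8 : t ≤ -(670 / 10000)) (ua9 : 7300 / 10000 ≤ x + p) (ua10 : x + p ≤ 7500 / 10000) :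
    rS (10 / 3) x T p t < 57 / 100 + 5 / 2 * (10 / 3 * T) ∨ rF (10 / 3) (80 / 100) (570 / 10000) x T p t < 57 / 100 + 5 / 2 * (10 / 3 * T) := by
  have h : chkT [sub (add (q 57 100) (mul (q 5 2) (kT 10 3))) (S 10 3), sub (add (q 57 100) (mul (q 5 2) (kT 10 3))) (F 10 3 pc (q 570 10000)), sub (q 7300 10000) EE.v, sub EE.v (q 7500 10000)] 30
    36643571970
    [NumI.V.of 10000 3000 5000, NumI.V.of 10000 (-980) (-760), NumI.V.of 10000 2300 4500, NumI.V.of 10000 (-1060) (-670)] = true := by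
    decide +kernel
  obtain ⟨f, hf, hp⟩ := chkT4 h (by norm_num) (x := x) (y := T) (z := p) (w := t)
    (by norm_num; linarith only [ua1]) (by norm_num; linarith only [ua2]) (by norm_num; linarith only [ua3]) (by norm_num; linarith only [ua4]) (by norm_num; linarith only [ua5]) (by norm_num; linarith only [ua6]) (by norm_num; linarith only [ua7]) (by norm_num; linarith only [ua8])
  by_contra hc
  push Not at hc
  obtain ⟨hc0, hc1⟩ := hc
  simp only [List.mem_cons, List.not_mem_nil, or_false] at hf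
  rcases hf with rfl | rfl | rfl | rfl
  · simp only [S_val, F_val, N_val, ui_val, EE.pa, EE.pb, EE.pc, EE.kT, nyy, EE.x, EE.T, EE.p, EE.t, EE.nt, EE.v, E.val, NumI.lkR] at hp
    push_cast at hp
    linarith only [hc0, hp]
  · simp only [S_val, F_val, N_val, ui_val, EE.pa, EE.pb, EE.pc, EE.kT, nyy, EE.x, EE.T, EE.p, EE.t, EE.nt, EE.v, E.val, NumI.lkR] at hp
    push_cast at hp
    linarith only [hc1, hp]
  · simp only [S_val, F_val, N_val, ui_val, EE.pa, EE.pb, EE.pc, EE.kT, nyy, EE.x, EE.T, EE.p, EE.t, EE.nt, EE.v, E.val, NumI.lkR] at hp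
    push_cast at hp
    linarith only [ua9, hp]
  · simp only [S_val, F_val, N_val, ui_val, EE.pa, EE.pb, EE.pc, EE.kT, nyy, EE.x, EE.T, EE.p, EE.t, EE.nt, EE.v, E.val, NumI.lkR] at hp
    push_cast at hp
    linarith only [ua10, hp]

theorem n2a {x T t : ℝ} (ua1 : 3600 / 10000 ≤ x) (ua2 : x ≤ 5000 / 10000) (ua3 : -(570 / 10000) ≤ T) (ua4 : T ≤ 0 / 10000) (ua5 : -(1140 / 10000) ≤ t) (ua6 : t ≤ 50 / 10000) :
    rN (100 / 27) (900 / 10000) (Real.pi + NumI.lnB (900 / 10000) (t - rui (100 / 27) x T)) (x - 900 / 10000) x T t < 125 / 1000 + Real.pi * (1 / 2) * (100 / 27 * T) := by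
  have h : chkT [sub (add (q 125 1000) (mul (mul pi (q 1 2)) (kT 100 27))) (N 100 27 (q 900 10000) (add pi (E.lnB (q 900 10000) (nyy 100 27))) (sub EE.x (q 900 10000)))] 30
    613202619254571538
    [NumI.V.of 10000 3600 5000, NumI.V.of 10000 (-570) 0, NumI.V.of 10000 (-1140) 50] = true := by
    decide +kernel
  obtain ⟨f, hf, hp⟩ := chkT3 h (by norm_num) (x := x) (y := T) (z := t)
    (by norm_num; linarith only [ua1]) (by norm_num; linarith only [ua2]) (by norm_num; linarith only [ua3]) (by norm_num; linarith only [ua4]) (by norm_num; linarith only [ua5]) (by norm_num; linarith only [ua6])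
  by_contra hc
  push Not at hc
  simp only [List.mem_cons, List.not_mem_nil, or_false] at hf
  rcases hf with rfl
  · simp only [S_val, F_val, N_val, ui_val, EE.pa, EE.pb, EE.pc, EE.kT, nyy, EE.x, EE.T, EE.p, EE.t, EE.nt, EE.v, E.val, NumI.lkR] at hp
    push_cast at hp
    linarith only [hc, hp]

theorem n2b {x T t : ℝ} (ua1 : 3600 / 10000 ≤ x) (ua2 : x ≤ 5000 / 10000) (ua3 : -(570 / 10000) ≤ T) (ua4 : T ≤ 0 / 10000) (ua5 : -(1140 / 10000) ≤ t) (ua6 : t ≤ 50 / 10000) :
    rN (100 / 27) (1000 / 10000) (Real.pi * (1 / 2)) x x T t < 125 / 1000 + Real.pi * (1 / 2) * (100 / 27 * T) := by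
  have h : chkT [sub (add (q 125 1000) (mul (mul pi (q 1 2)) (kT 100 27))) (N 100 27 (q 1000 10000) (mul pi (q 1 2)) (EE.x))] 30
    559106
    [NumI.V.of 10000 3600 5000, NumI.V.of 10000 (-570) 0, NumI.V.of 10000 (-1140) 50] = true := by
    decide +kernel
  obtain ⟨f, hf, hp⟩ := chkT3 h (by norm_num) (x := x) (y := T) (z := t)
    (by norm_num; linarith only [ua1]) (by norm_num; linarith only [ua2]) (by norm_num; linarith only [ua3]) (by norm_num; linarith only [ua4]) (by norm_num; linarith only [ua5]) (by norm_num; linarith only [ua6])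
  by_contra hc
  push Not at hc
  simp only [List.mem_cons, List.not_mem_nil, or_false] at hf
  rcases hf with rfl
  · simp only [S_val, F_val, N_val, ui_val, EE.pa, EE.pb, EE.pc, EE.kT, nyy, EE.x, EE.T, EE.p, EE.t, EE.nt, EE.v, E.val, NumI.lkR] at hp
    push_cast at hp
    linarith only [hc, hp]

theorem n2c {x T t : ℝ} (ua1 : 3600 / 10000 ≤ x) (ua2 : x ≤ 5000 / 10000) (ua3 : 0 / 10000 ≤ T) (ua4 : T ≤ 50 / 10000) (ua5 : -(1140 / 10000) ≤ t) (ua6 : t ≤ 50 / 10000) :
    rN (100 / 27) (1000 / 10000) (-Real.pi) (x + 1000 / 10000) x T t < 125 / 1000 + Real.pi * (1 / 2) * (100 / 27 * T) := by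
  have h : chkT [sub (add (q 125 1000) (mul (mul pi (q 1 2)) (kT 100 27))) (N 100 27 (q 1000 10000) (neg pi) (add EE.x (q 1000 10000)))] 30
    8
    [NumI.V.of 10000 3600 5000, NumI.V.of 10000 0 50, NumI.V.of 10000 (-1140) 50] = true := by
    decide +kernel
  obtain ⟨f, hf, hp⟩ := chkT3 h (by norm_num) (x := x) (y := T) (z := t)
    (by norm_num; linarith only [ua1]) (by norm_num; linarith only [ua2]) (by norm_num; linarith only [ua3]) (by norm_num; linarith only [ua4]) (by norm_num; linarith only [ua5]) (by norm_num; linarith only [ua6])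
  by_contra hc
  push Not at hc
  simp only [List.mem_cons, List.not_mem_nil, or_false] at hf
  rcases hf with rfl
  · simp only [S_val, F_val, N_val, ui_val, EE.pa, EE.pb, EE.pc, EE.kT, nyy, EE.x, EE.T, EE.p, EE.t, EE.nt, EE.v, E.val, NumI.lkR] at hp
    push_cast at hp
    linarith only [hc, hp]

theorem n2ea {x T t : ℝ} (ua1 : 3000 / 10000 ≤ x) (ua2 : x ≤ 5000 / 10000) (ua3 : -(980 / 10000) ≤ T) (ua4 : T ≤ -(760 / 10000)) (ua5 : -(1230 / 10000) ≤ t) (ua6 : t ≤ -(640 / 10000)) (ua7 : t - rui (10 / 3) x T ≤ 0) :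
    rN (10 / 3) (700 / 10000) (Real.pi + NumI.lnB (700 / 10000) (t - rui (10 / 3) x T)) (x - 700 / 10000) x T t < 57 / 100 + 5 / 2 * (10 / 3 * T) := by
  have h : chkT [sub (add (q 57 100) (mul (q 5 2) (kT 10 3))) (N 10 3 (q 700 10000) (add pi (E.lnB (q 700 10000) (nyy 10 3))) (sub EE.x (q 700 10000))), nyy 10 3] 30
    44297417183706407593280706252447776
    [NumI.V.of 10000 3000 5000, NumI.V.of 10000 (-980) (-760), NumI.V.of 10000 (-1230) (-640)] = true := by
    decide +kernel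
  obtain ⟨f, hf, hp⟩ := chkT3 h (by norm_num) (x := x) (y := T) (z := t)
    (by norm_num; linarith only [ua1]) (by norm_num; linarith only [ua2]) (by norm_num; linarith only [ua3]) (by norm_num; linarith only [ua4]) (by norm_num; linarith only [ua5]) (by norm_num; linarith only [ua6])
  by_contra hc
  push Not at hc
  simp only [List.mem_cons, List.not_mem_nil, or_false] at hf
  rcases hf with rfl | rfl
  · simp only [S_val, F_val, N_val, ui_val, EE.pa, EE.pb, EE.pc, EE.kT, nyy, EE.x, EE.T, EE.p, EE.t, EE.nt, EE.v, E.val, NumI.lkR] at hp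
    push_cast at hp
    linarith only [hc, hp]
  · simp only [S_val, F_val, N_val, ui_val, EE.pa, EE.pb, EE.pc, EE.kT, nyy, EE.x, EE.T, EE.p, EE.t, EE.nt, EE.v, E.val, NumI.lkR] at hp
    push_cast at hp
    linarith only [ua7, hp]

theorem n2ez {x T t : ℝ} (ua1 : 3000 / 10000 ≤ x) (ua2 : x ≤ 5000 / 10000) (ua3 : -(980 / 10000) ≤ T) (ua4 : T ≤ -(760 / 10000)) (ua5 : -(1230 / 10000) ≤ t) (ua6 : t ≤ -(640 / 10000)) (ua7 : 0 ≤ t - rui (10 / 3) x T) :
    rN (10 / 3) (700 / 10000) 0 (x - 700 / 10000) x T t < 57 / 100 + 5 / 2 * (10 / 3 * T) := by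
  have h : chkT [sub (add (q 57 100) (mul (q 5 2) (kT 10 3))) (N 10 3 (q 700 10000) (q 0 1) (sub EE.x (q 700 10000))), neg (nyy 10 3)] 30
    8
    [NumI.V.of 10000 3000 5000, NumI.V.of 10000 (-980) (-760), NumI.V.of 10000 (-1230) (-640)] = true := by
    decide +kernel
  obtain ⟨f, hf, hp⟩ := chkT3 h (by norm_num) (x := x) (y := T) (z := t)
    (by norm_num; linarith only [ua1]) (by norm_num; linarith only [ua2]) (by norm_num; linarith only [ua3]) (by norm_num; linarith only [ua4]) (by norm_num; linarith only [ua5]) (by norm_num; linarith only [ua6])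
  by_contra hc
  push Not at hc
  simp only [List.mem_cons, List.not_mem_nil, or_false] at hf
  rcases hf with rfl | rfl
  · simp only [S_val, F_val, N_val, ui_val, EE.pa, EE.pb, EE.pc, EE.kT, nyy, EE.x, EE.T, EE.p, EE.t, EE.nt, EE.v, E.val, NumI.lkR] at hp
    push_cast at hp
    linarith only [hc, hp]
  · simp only [S_val, F_val, N_val, ui_val, EE.pa, EE.pb, EE.pc, EE.kT, nyy, EE.x, EE.T, EE.p, EE.t, EE.nt, EE.v, E.val, NumI.lkR] at hp
    push_cast at hp
    linarith only [ua7, hp]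

theorem n2eb {x T t : ℝ} (ua1 : 3000 / 10000 ≤ x) (ua2 : x ≤ 5000 / 10000) (ua3 : -(980 / 10000) ≤ T) (ua4 : T ≤ -(760 / 10000)) (ua5 : -(1230 / 10000) ≤ t) (ua6 : t ≤ -(640 / 10000)) :
    rN (10 / 3) (1000 / 10000) (Real.pi * (1 / 2)) x x T t < 57 / 100 + 5 / 2 * (10 / 3 * T) := by
  have h : chkT [sub (add (q 57 100) (mul (q 5 2) (kT 10 3))) (N 10 3 (q 1000 10000) (mul pi (q 1 2)) (EE.x))] 30
    2176
    [NumI.V.of 10000 3000 5000, NumI.V.of 10000 (-980) (-760), NumI.V.of 10000 (-1230) (-640)] = true := by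
    decide +kernel
  obtain ⟨f, hf, hp⟩ := chkT3 h (by norm_num) (x := x) (y := T) (z := t)
    (by norm_num; linarith only [ua1]) (by norm_num; linarith only [ua2]) (by norm_num; linarith only [ua3]) (by norm_num; linarith only [ua4]) (by norm_num; linarith only [ua5]) (by norm_num; linarith only [ua6])
  by_contra hc
  push Not at hc
  simp only [List.mem_cons, List.not_mem_nil, or_false] at hf
  rcases hf with rfl
  · simp only [S_val, F_val, N_val, ui_val, EE.pa, EE.pb, EE.pc, EE.kT, nyy, EE.x, EE.T, EE.p, EE.t, EE.nt, EE.v, E.val, NumI.lkR] at hp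
    push_cast at hp
    linarith only [hc, hp]

theorem n3a {x T t : ℝ} (ua1 : 3000 / 10000 ≤ x) (ua2 : x ≤ 4000 / 10000) (ua3 : -(280 / 10000) ≤ T) (ua4 : T ≤ 0 / 10000) (ua5 : -(1140 / 10000) ≤ t) (ua6 : t ≤ 50 / 10000) :
    rN (10 / 3) (1300 / 10000) (Real.pi + NumI.lnB (1300 / 10000) (t - rui (10 / 3) x T)) (x - 1300 / 10000) x T t < 66 / 100 - 3 / 2 * x := by
  have h : chkT [sub (sub (q 66 100) (mul (q 3 2) EE.x)) (N 10 3 (q 1300 10000) (add pi (E.lnB (q 1300 10000) (nyy 10 3))) (sub EE.x (q 1300 10000)))] 30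
    2178
    [NumI.V.of 10000 3000 4000, NumI.V.of 10000 (-280) 0, NumI.V.of 10000 (-1140) 50] = true := by
    decide +kernel
  obtain ⟨f, hf, hp⟩ := chkT3 h (by norm_num) (x := x) (y := T) (z := t)
    (by norm_num; linarith only [ua1]) (by norm_num; linarith only [ua2]) (by norm_num; linarith only [ua3]) (by norm_num; linarith only [ua4]) (by norm_num; linarith only [ua5]) (by norm_num; linarith only [ua6])
  by_contra hc
  push Not at hc
  simp only [List.mem_cons, List.not_mem_nil, or_false] at hf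
  rcases hf with rfl
  · simp only [S_val, F_val, N_val, ui_val, EE.pa, EE.pb, EE.pc, EE.kT, nyy, EE.x, EE.T, EE.p, EE.t, EE.nt, EE.v, E.val, NumI.lkR] at hp
    push_cast at hp
    linarith only [hc, hp]

theorem n3b {x T t : ℝ} (ua1 : 3000 / 10000 ≤ x) (ua2 : x ≤ 4000 / 10000) (ua3 : 0 / 10000 ≤ T) (ua4 : T ≤ 570 / 10000) (ua5 : -(1050 / 10000) ≤ t) (ua6 : t ≤ 50 / 10000) (ua7 : t - rui (10 / 3) x T ≤ 0) (ua8 : T - t ≤ 105 / 1000) :
    rN (10 / 3) (1300 / 10000) 0 (x + 1300 / 10000) x T t < 66 / 100 - 3 / 2 * x := by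
  have h : chkT [sub (sub (q 66 100) (mul (q 3 2) EE.x)) (N 10 3 (q 1300 10000) (q 0 1) (add EE.x (q 1300 10000))), nyy 10 3, sub (sub EE.T EE.nt) (q 105 1000)] 30
    36642105362
    [NumI.V.of 10000 3000 4000, NumI.V.of 10000 0 570, NumI.V.of 10000 (-1050) 50] = true := by
    decide +kernel
  obtain ⟨f, hf, hp⟩ := chkT3 h (by norm_num) (x := x) (y := T) (z := t)
    (by norm_num; linarith only [ua1]) (by norm_num; linarith only [ua2]) (by norm_num; linarith only [ua3]) (by norm_num; linarith only [ua4]) (by norm_num; linarith only [ua5]) (by norm_num; linarith only [ua6])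
  by_contra hc
  push Not at hc
  simp only [List.mem_cons, List.not_mem_nil, or_false] at hf
  rcases hf with rfl | rfl | rfl
  · simp only [S_val, F_val, N_val, ui_val, EE.pa, EE.pb, EE.pc, EE.kT, nyy, EE.x, EE.T, EE.p, EE.t, EE.nt, EE.v, E.val, NumI.lkR] at hp
    push_cast at hp
    linarith only [hc, hp]
  · simp only [S_val, F_val, N_val, ui_val, EE.pa, EE.pb, EE.pc, EE.kT, nyy, EE.x, EE.T, EE.p, EE.t, EE.nt, EE.v, E.val, NumI.lkR] at hp
    push_cast at hp
    linarith only [ua7, hp]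
  · simp only [S_val, F_val, N_val, ui_val, EE.pa, EE.pb, EE.pc, EE.kT, nyy, EE.x, EE.T, EE.p, EE.t, EE.nt, EE.v, E.val, NumI.lkR] at hp
    push_cast at hp
    linarith only [ua8, hp]

theorem n3c {x T t : ℝ} (ua1 : 3000 / 10000 ≤ x) (ua2 : x ≤ 4000 / 10000) (ua3 : 0 / 10000 ≤ T) (ua4 : T ≤ 570 / 10000) (ua5 : 0 / 10000 ≤ t) (ua6 : t ≤ 50 / 10000) (ua7 : 0 ≤ t - rui (10 / 3) x T) :
    rN (10 / 3) (1300 / 10000) (-Real.pi) (x + 1300 / 10000) x T t < 66 / 100 - 3 / 2 * x := by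
  have h : chkT [sub (sub (q 66 100) (mul (q 3 2) EE.x)) (N 10 3 (q 1300 10000) (neg pi) (add EE.x (q 1300 10000))), neg (nyy 10 3)] 30
    2433
    [NumI.V.of 10000 3000 4000, NumI.V.of 10000 0 570, NumI.V.of 10000 0 50] = true := by
    decide +kernel
  obtain ⟨f, hf, hp⟩ := chkT3 h (by norm_num) (x := x) (y := T) (z := t)
    (by norm_num; linarith only [ua1]) (by norm_num; linarith only [ua2]) (by norm_num; linarith only [ua3]) (by norm_num; linarith only [ua4]) (by norm_num; linarith only [ua5]) (by norm_num; linarith only [ua6])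
  by_contra hc
  push Not at hc
  simp only [List.mem_cons, List.not_mem_nil, or_false] at hf
  rcases hf with rfl | rfl
  · simp only [S_val, F_val, N_val, ui_val, EE.pa, EE.pb, EE.pc, EE.kT, nyy, EE.x, EE.T, EE.p, EE.t, EE.nt, EE.v, E.val, NumI.lkR] at hp
    push_cast at hp
    linarith only [hc, hp]
  · simp only [S_val, F_val, N_val, ui_val, EE.pa, EE.pb, EE.pc, EE.kT, nyy, EE.x, EE.T, EE.p, EE.t, EE.nt, EE.v, E.val, NumI.lkR] at hp
    push_cast at hp
    linarith only [ua7, hp]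

theorem n3ea {x T t : ℝ} (ua1 : 4000 / 10000 ≤ x) (ua2 : x ≤ 5000 / 10000) (ua3 : -(280 / 10000) ≤ T) (ua4 : T ≤ -(50 / 10000)) (ua5 : -(1140 / 10000) ≤ t) (ua6 : t ≤ 50 / 10000) :
    rN (10 / 3) (1300 / 10000) (Real.pi + NumI.lnB (1300 / 10000) (t - rui (10 / 3) x T)) (x - 1300 / 10000) x T t < -(35 / 1000) := by
  have h : chkT [sub (q (-35) 1000) (N 10 3 (q 1300 10000) (add pi (E.lnB (q 1300 10000) (nyy 10 3))) (sub EE.x (q 1300 10000)))] 30
    2178
    [NumI.V.of 10000 4000 5000, NumI.V.of 10000 (-280) (-50), NumI.V.of 10000 (-1140) 50] = true := by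
    decide +kernel
  obtain ⟨f, hf, hp⟩ := chkT3 h (by norm_num) (x := x) (y := T) (z := t)
    (by norm_num; linarith only [ua1]) (by norm_num; linarith only [ua2]) (by norm_num; linarith only [ua3]) (by norm_num; linarith only [ua4]) (by norm_num; linarith only [ua5]) (by norm_num; linarith only [ua6])
  by_contra hc
  push Not at hc
  simp only [List.mem_cons, List.not_mem_nil, or_false] at hf
  rcases hf with rfl
  · simp only [S_val, F_val, N_val, ui_val, EE.pa, EE.pb, EE.pc, EE.kT, nyy, EE.x, EE.T, EE.p, EE.t, EE.nt, EE.v, E.val, NumI.lkR] at hp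
    push_cast at hp
    linarith only [hc, hp]

theorem n3za {x T t : ℝ} (ua1 : 4000 / 10000 ≤ x) (ua2 : x ≤ 5000 / 10000) (ua3 : -(220 / 10000) ≤ T) (ua4 : T ≤ 0 / 10000) (ua5 : -(1140 / 10000) ≤ t) (ua6 : t ≤ 50 / 10000) :
    rN (10 / 3) (1300 / 10000) (Real.pi + NumI.lnB (1300 / 10000) (t - rui (10 / 3) x T)) (x - 1300 / 10000) x T t < 0 := by
  have h : chkT [sub (q 0 1) (N 10 3 (q 1300 10000) (add pi (E.lnB (q 1300 10000) (nyy 10 3))) (sub EE.x (q 1300 10000)))] 30
    2178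
    [NumI.V.of 10000 4000 5000, NumI.V.of 10000 (-220) 0, NumI.V.of 10000 (-1140) 50] = true := by
    decide +kernel
  obtain ⟨f, hf, hp⟩ := chkT3 h (by norm_num) (x := x) (y := T) (z := t)
    (by norm_num; linarith only [ua1]) (by norm_num; linarith only [ua2]) (by norm_num; linarith only [ua3]) (by norm_num; linarith only [ua4]) (by norm_num; linarith only [ua5]) (by norm_num; linarith only [ua6])
  by_contra hc
  push Not at hc
  simp only [List.mem_cons, List.not_mem_nil, or_false] at hf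
  rcases hf with rfl
  · simp only [S_val, F_val, N_val, ui_val, EE.pa, EE.pb, EE.pc, EE.kT, nyy, EE.x, EE.T, EE.p, EE.t, EE.nt, EE.v, E.val, NumI.lkR] at hp
    push_cast at hp
    linarith only [hc, hp]

theorem n3zb {x T t : ℝ} (ua1 : 4000 / 10000 ≤ x) (ua2 : x ≤ 5000 / 10000) (ua3 : 0 / 10000 ≤ T) (ua4 : T ≤ 570 / 10000) (ua5 : -(1050 / 10000) ≤ t) (ua6 : t ≤ 50 / 10000) (ua7 : t - rui (10 / 3) x T ≤ 0) (ua8 : T - t ≤ 105 / 1000) :
    rN (10 / 3) (1300 / 10000) 0 (x + 1300 / 10000) x T t < 0 := by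
  have h : chkT [sub (q 0 1) (N 10 3 (q 1300 10000) (q 0 1) (add EE.x (q 1300 10000))), nyy 10 3, sub (sub EE.T EE.nt) (q 105 1000)] 30
    157409956056483234322
    [NumI.V.of 10000 4000 5000, NumI.V.of 10000 0 570, NumI.V.of 10000 (-1050) 50] = true := by
    decide +kernel
  obtain ⟨f, hf, hp⟩ := chkT3 h (by norm_num) (x := x) (y := T) (z := t)
    (by norm_num; linarith only [ua1]) (by norm_num; linarith only [ua2]) (by norm_num; linarith only [ua3]) (by norm_num; linarith only [ua4]) (by norm_num; linarith only [ua5]) (by norm_num; linarith only [ua6])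
  by_contra hc
  push Not at hc
  simp only [List.mem_cons, List.not_mem_nil, or_false] at hf
  rcases hf with rfl | rfl | rfl
  · simp only [S_val, F_val, N_val, ui_val, EE.pa, EE.pb, EE.pc, EE.kT, nyy, EE.x, EE.T, EE.p, EE.t, EE.nt, EE.v, E.val, NumI.lkR] at hp
    push_cast at hp
    linarith only [hc, hp]
  · simp only [S_val, F_val, N_val, ui_val, EE.pa, EE.pb, EE.pc, EE.kT, nyy, EE.x, EE.T, EE.p, EE.t, EE.nt, EE.v, E.val, NumI.lkR] at hp
    push_cast at hp
    linarith only [ua7, hp]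
  · simp only [S_val, F_val, N_val, ui_val, EE.pa, EE.pb, EE.pc, EE.kT, nyy, EE.x, EE.T, EE.p, EE.t, EE.nt, EE.v, E.val, NumI.lkR] at hp
    push_cast at hp
    linarith only [ua8, hp]

theorem n3zc {x T t : ℝ} (ua1 : 4000 / 10000 ≤ x) (ua2 : x ≤ 5000 / 10000) (ua3 : 0 / 10000 ≤ T) (ua4 : T ≤ 570 / 10000) (ua5 : 0 / 10000 ≤ t) (ua6 : t ≤ 50 / 10000) (ua7 : 0 ≤ t - rui (10 / 3) x T) :
    rN (10 / 3) (1300 / 10000) (-Real.pi) (x + 1300 / 10000) x T t < 0 := by
  have h : chkT [sub (q 0 1) (N 10 3 (q 1300 10000) (neg pi) (add EE.x (q 1300 10000))), neg (nyy 10 3)] 30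
    626817
    [NumI.V.of 10000 4000 5000, NumI.V.of 10000 0 570, NumI.V.of 10000 0 50] = true := by
    decide +kernel
  obtain ⟨f, hf, hp⟩ := chkT3 h (by norm_num) (x := x) (y := T) (z := t)
    (by norm_num; linarith only [ua1]) (by norm_num; linarith only [ua2]) (by norm_num; linarith only [ua3]) (by norm_num; linarith only [ua4]) (by norm_num; linarith only [ua5]) (by norm_num; linarith only [ua6])
  by_contra hc
  push Not at hc
  simp only [List.mem_cons, List.not_mem_nil, or_false] at hf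
  rcases hf with rfl | rfl
  · simp only [S_val, F_val, N_val, ui_val, EE.pa, EE.pb, EE.pc, EE.kT, nyy, EE.x, EE.T, EE.p, EE.t, EE.nt, EE.v, E.val, NumI.lkR] at hp
    push_cast at hp
    linarith only [hc, hp]
  · simp only [S_val, F_val, N_val, ui_val, EE.pa, EE.pb, EE.pc, EE.kT, nyy, EE.x, EE.T, EE.p, EE.t, EE.nt, EE.v, E.val, NumI.lkR] at hp
    push_cast at hp
    linarith only [ua7, hp]

end S0R

end Pool.Agent.Work.MP_b30479_gt.G2
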