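import Pool.Agent.Work.MP_b30479_gt.G2.S0RC
import Pool.Agent.Work.NumU.Tree

/-!
# The own side of an interior `3` at slot `0`, right ramp: rows on `[.30, .40]`, left neighbours `3`, `3e`, ring
-/

set_option linter.unusedSimpArgs false
set_option linter.unusedVariables false

namespace Pool.Agent.Work.MP_b30479_gt.G2

open VOL NumU

namespace S0R

open NumU.E EE

theorem far3a_1a {x T p t : ℝ} (ua1 : 3000 / 10000 ≤ x) (ua2 : x ≤ 4000 / 10000) (ua3 : -(280 / 10000) ≤ T) (ua4 : T ≤ 570 / 10000) (ua5 : 1000 / 10000 ≤ p) (ua6 : p ≤ 1300 / 10000) (ua7 : -(1140 / 10000) ≤ t) (ua8 : t ≤ -(150 / 10000)) (ua9 : T - t ≤ 1050 / 10000) (ua10 : x + p ≤ 4300 / 10000) :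
    rS (10 / 3) x T p t < 66 / 100 - 3 / 2 * x ∨ rF (10 / 3) (1 / 2) (-98 / 10000) x T p t < 66 / 100 - 3 / 2 * x := by
  have h : chkT [sub (sub (q 66 100) (mul (q 3 2) EE.x)) (S 10 3), sub (sub (q 66 100) (mul (q 3 2) EE.x)) (F 10 3 pa (q (-98) 10000)), sub (sub EE.T EE.t) (q 1050 10000), sub EE.v (q 4300 10000)] 30
    689254814928351491
    [NumI.V.of 10000 3000 4000, NumI.V.of 10000 (-280) 570, NumI.V.of 10000 1000 1300, NumI.V.of 10000 (-1140) (-150)] = true := by
    decide +kernel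
  obtain ⟨f, hf, hp⟩ := chkT4 h (by norm_num) (x := x) (y := T) (z := p) (w := t)
    (by norm_num; linarith only [ua1]) (by norm_num; linarith only [ua2]) (by norm_num; linarith only [ua3]) (by norm_num; linarith only [ua4]) (by norm_num; linarith only [ua5]) (by norm_num; linarith only [ua6]) (by norm_num; linarith only [ua7]) (by norm_num; linarith only [ua8])
  by_contra hc
  push Not at hc
  obtain ⟨hc0, hc1⟩ := hc
  simp only [List.mem_cons, List.not_mem_nil, or_false] at hf
  rcases hf with rfl | rfl | rfl | rfl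
  · simp only [S_val, F_val, N_val, ui_val, EE.pa, EE.pb, EE.pc, EE.kT, nyy, EE.x, EE.T, EE.p, EE.t, EE.nt, EE.v, E.val, NumI.lkR] at hp
    push_cast at hp
    linarith only [hc0, hp]
  · simp only [S_val, F_val, N_val, ui_val, EE.pa, EE.pb, EE.pc, EE.kT, nyy, EE.x, EE.T, EE.p, EE.t, EE.nt, EE.v, E.val, NumI.lkR] at hp
    push_cast at hp
    linarith only [hc1, hp]
  · simp only [S_val, F_val, N_val, ui_val, EE.pa, EE.pb, EE.pc, EE.kT, nyy, EE.x, EE.T, EE.p, EE.t, EE.nt, EE.v, E.val, NumI.lkR] at hp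
    push_cast at hp
    linarith only [ua9, hp]
  · simp only [S_val, F_val, N_val, ui_val, EE.pa, EE.pb, EE.pc, EE.kT, nyy, EE.x, EE.T, EE.p, EE.t, EE.nt, EE.v, E.val, NumI.lkR] at hp
    push_cast at hp
    linarith only [ua10, hp]

theorem far3a_1b {x T p t : ℝ} (ua1 : 3000 / 10000 ≤ x) (ua2 : x ≤ 4000 / 10000) (ua3 : -(280 / 10000) ≤ T) (ua4 : T ≤ 570 / 10000) (ua5 : 1000 / 10000 ≤ p) (ua6 : p ≤ 4300 / 10000) (ua7 : -(1140 / 10000) ≤ t) (ua8 : t ≤ -(150 / 10000)) (ua9 : T - t ≤ 1050 / 10000) (ua10 : 4300 / 10000 ≤ x + p) (ua11 : x + p ≤ 7300 / 10000) :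
    rS (10 / 3) x T p t < 66 / 100 - 3 / 2 * x ∨ rF (10 / 3) (x + p + 7 / 100) (-98 / 10000) x T p t < 66 / 100 - 3 / 2 * x := by
  have h : chkT [sub (sub (q 66 100) (mul (q 3 2) EE.x)) (S 10 3), sub (sub (q 66 100) (mul (q 3 2) EE.x)) (F 10 3 pb (q (-98) 10000)), sub (sub EE.T EE.t) (q 1050 10000), sub (q 4300 10000) EE.v, sub EE.v (q 7300 10000)] 30
    179457241702486803564902226285236323185168689188568259079170451592354956399806270142821276856288544698071110787257810703735824339212963246193860696323325272473754600644153394136504754207807205878262419876138861462457145159087121788162737279734962435510496176589567437746967479367893118298188754319672328612028114002632311942814457453937442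
    [NumI.V.of 10000 3000 4000, NumI.V.of 10000 (-280) 570, NumI.V.of 10000 1000 4300, NumI.V.of 10000 (-1140) (-150)] = true := by
    decide +kernel
  obtain ⟨f, hf, hp⟩ := chkT4 h (by norm_num) (x := x) (y := T) (z := p) (w := t)
    (by norm_num; linarith only [ua1]) (by norm_num; linarith only [ua2]) (by norm_num; linarith only [ua3]) (by norm_num; linarith only [ua4]) (by norm_num; linarith only [ua5]) (by norm_num; linarith only [ua6]) (by norm_num; linarith only [ua7]) (by norm_num; linarith only [ua8])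
  by_contra hc
  push Not at hc
  obtain ⟨hc0, hc1⟩ := hc
  simp only [List.mem_cons, List.not_mem_nil, or_false] at hf
  rcases hf with rfl | rfl | rfl | rfl | rfl
  · simp only [S_val, F_val, N_val, ui_val, EE.pa, EE.pb, EE.pc, EE.kT, nyy, EE.x, EE.T, EE.p, EE.t, EE.nt, EE.v, E.val, NumI.lkR] at hp
    push_cast at hp
    linarith only [hc0, hp]
  · simp only [S_val, F_val, N_val, ui_val, EE.pa, EE.pb, EE.pc, EE.kT, nyy, EE.x, EE.T, EE.p, EE.t, EE.nt, EE.v, E.val, NumI.lkR] at hp
    push_cast at hp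
    linarith only [hc1, hp]
  · simp only [S_val, F_val, N_val, ui_val, EE.pa, EE.pb, EE.pc, EE.kT, nyy, EE.x, EE.T, EE.p, EE.t, EE.nt, EE.v, E.val, NumI.lkR] at hp
    push_cast at hp
    linarith only [ua9, hp]
  · simp only [S_val, F_val, N_val, ui_val, EE.pa, EE.pb, EE.pc, EE.kT, nyy, EE.x, EE.T, EE.p, EE.t, EE.nt, EE.v, E.val, NumI.lkR] at hp
    push_cast at hp
    linarith only [ua10, hp]
  · simp only [S_val, F_val, N_val, ui_val, EE.pa, EE.pb, EE.pc, EE.kT, nyy, EE.x, EE.T, EE.p, EE.t, EE.nt, EE.v, E.val, NumI.lkR] at hp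
    push_cast at hp
    linarith only [ua11, hp]

theorem far3a_1c {x T p t : ℝ} (ua1 : 3000 / 10000 ≤ x) (ua2 : x ≤ 4000 / 10000) (ua3 : -(280 / 10000) ≤ T) (ua4 : T ≤ 570 / 10000) (ua5 : 3300 / 10000 ≤ p) (ua6 : p ≤ 4500 / 10000) (ua7 : -(1140 / 10000) ≤ t) (ua8 : t ≤ -(150 / 10000)) (ua9 : T - t ≤ 1050 / 10000) (ua10 : 7300 / 10000 ≤ x + p) (ua11 : x + p ≤ 7500 / 10000) :
    rS (10 / 3) x T p t < 66 / 100 - 3 / 2 * x ∨ rF (10 / 3) (80 / 100) (-98 / 10000) x T p t < 66 / 100 - 3 / 2 * x := by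
  have h : chkT [sub (sub (q 66 100) (mul (q 3 2) EE.x)) (S 10 3), sub (sub (q 66 100) (mul (q 3 2) EE.x)) (F 10 3 pc (q (-98) 10000)), sub (sub EE.T EE.t) (q 1050 10000), sub (q 7300 10000) EE.v, sub EE.v (q 7500 10000)] 30
    4207866940244146800140365628275241995179012224418844005220801254184953908391583566131912477040261906185785543840134667229733727292013293167658739750012400047656510475954363722950563780722136885365111218454990898
    [NumI.V.of 10000 3000 4000, NumI.V.of 10000 (-280) 570, NumI.V.of 10000 3300 4500, NumI.V.of 10000 (-1140) (-150)] = true := by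
    decide +kernel
  obtain ⟨f, hf, hp⟩ := chkT4 h (by norm_num) (x := x) (y := T) (z := p) (w := t)
    (by norm_num; linarith only [ua1]) (by norm_num; linarith only [ua2]) (by norm_num; linarith only [ua3]) (by norm_num; linarith only [ua4]) (by norm_num; linarith only [ua5]) (by norm_num; linarith only [ua6]) (by norm_num; linarith only [ua7]) (by norm_num; linarith only [ua8])
  by_contra hc
  push Not at hc
  obtain ⟨hc0, hc1⟩ := hc
  simp only [List.mem_cons, List.not_mem_nil, or_false] at hf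
  rcases hf with rfl | rfl | rfl | rfl | rfl
  · simp only [S_val, F_val, N_val, ui_val, EE.pa, EE.pb, EE.pc, EE.kT, nyy, EE.x, EE.T, EE.p, EE.t, EE.nt, EE.v, E.val, NumI.lkR] at hp
    push_cast at hp
    linarith only [hc0, hp]
  · simp only [S_val, F_val, N_val, ui_val, EE.pa, EE.pb, EE.pc, EE.kT, nyy, EE.x, EE.T, EE.p, EE.t, EE.nt, EE.v, E.val, NumI.lkR] at hp
    push_cast at hp
    linarith only [hc1, hp]
  · simp only [S_val, F_val, N_val, ui_val, EE.pa, EE.pb, EE.pc, EE.kT, nyy, EE.x, EE.T, EE.p, EE.t, EE.nt, EE.v, E.val, NumI.lkR] at hp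
    push_cast at hp
    linarith only [ua9, hp]
  · simp only [S_val, F_val, N_val, ui_val, EE.pa, EE.pb, EE.pc, EE.kT, nyy, EE.x, EE.T, EE.p, EE.t, EE.nt, EE.v, E.val, NumI.lkR] at hp
    push_cast at hp
    linarith only [ua10, hp]
  · simp only [S_val, F_val, N_val, ui_val, EE.pa, EE.pb, EE.pc, EE.kT, nyy, EE.x, EE.T, EE.p, EE.t, EE.nt, EE.v, E.val, NumI.lkR] at hp
    push_cast at hp
    linarith only [ua11, hp]

theorem far3a_oa {x T p t : ℝ} (ua1 : 3000 / 10000 ≤ x) (ua2 : x ≤ 4000 / 10000) (ua3 : -(280 / 10000) ≤ T) (ua4 : T ≤ 570 / 10000) (ua5 : 1000 / 10000 ≤ p) (ua6 : p ≤ 1300 / 10000) (ua7 : -(1040 / 10000) ≤ t) (ua8 : t ≤ 50 / 10000) (ua9 : T - t ≤ 1000 / 10000) (ua10 : x + p ≤ 4300 / 10000) :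
    rS (10 / 3) x T p t < 66 / 100 - 3 / 2 * x ∨ rF (10 / 3) (1 / 2) (220 / 10000) x T p t < 66 / 100 - 3 / 2 * x := by
  have h : chkT [sub (sub (q 66 100) (mul (q 3 2) EE.x)) (S 10 3), sub (sub (q 66 100) (mul (q 3 2) EE.x)) (F 10 3 pa (q 220 10000)), sub (sub EE.T EE.t) (q 1000 10000), sub EE.v (q 4300 10000)] 30
    176448961405895869203
    [NumI.V.of 10000 3000 4000, NumI.V.of 10000 (-280) 570, NumI.V.of 10000 1000 1300, NumI.V.of 10000 (-1040) 50] = true := by
    decide +kernel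
  obtain ⟨f, hf, hp⟩ := chkT4 h (by norm_num) (x := x) (y := T) (z := p) (w := t)
    (by norm_num; linarith only [ua1]) (by norm_num; linarith only [ua2]) (by norm_num; linarith only [ua3]) (by norm_num; linarith only [ua4]) (by norm_num; linarith only [ua5]) (by norm_num; linarith only [ua6]) (by norm_num; linarith only [ua7]) (by norm_num; linarith only [ua8])
  by_contra hc
  push Not at hc
  obtain ⟨hc0, hc1⟩ := hc
  simp only [List.mem_cons, List.not_mem_nil, or_false] at hf
  rcases hf with rfl | rfl | rfl | rfl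
  · simp only [S_val, F_val, N_val, ui_val, EE.pa, EE.pb, EE.pc, EE.kT, nyy, EE.x, EE.T, EE.p, EE.t, EE.nt, EE.v, E.val, NumI.lkR] at hp
    push_cast at hp
    linarith only [hc0, hp]
  · simp only [S_val, F_val, N_val, ui_val, EE.pa, EE.pb, EE.pc, EE.kT, nyy, EE.x, EE.T, EE.p, EE.t, EE.nt, EE.v, E.val, NumI.lkR] at hp
    push_cast at hp
    linarith only [hc1, hp]
  · simp only [S_val, F_val, N_val, ui_val, EE.pa, EE.pb, EE.pc, EE.kT, nyy, EE.x, EE.T, EE.p, EE.t, EE.nt, EE.v, E.val, NumI.lkR] at hp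
    push_cast at hp
    linarith only [ua9, hp]
  · simp only [S_val, F_val, N_val, ui_val, EE.pa, EE.pb, EE.pc, EE.kT, nyy, EE.x, EE.T, EE.p, EE.t, EE.nt, EE.v, E.val, NumI.lkR] at hp
    push_cast at hp
    linarith only [ua10, hp]

theorem far3a_ob {x T p t : ℝ} (ua1 : 3000 / 10000 ≤ x) (ua2 : x ≤ 4000 / 10000) (ua3 : -(280 / 10000) ≤ T) (ua4 : T ≤ 570 / 10000) (ua5 : 1000 / 10000 ≤ p) (ua6 : p ≤ 4300 / 10000) (ua7 : -(1040 / 10000) ≤ t) (ua8 : t ≤ 50 / 10000) (ua9 : T - t ≤ 1000 / 10000) (ua10 : 4300 / 10000 ≤ x + p) (ua11 : x + p ≤ 7300 / 10000) :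
    rS (10 / 3) x T p t < 66 / 100 - 3 / 2 * x ∨ rF (10 / 3) (x + p + 7 / 100) (220 / 10000) x T p t < 66 / 100 - 3 / 2 * x := by
  have h : chkT [sub (sub (q 66 100) (mul (q 3 2) EE.x)) (S 10 3), sub (sub (q 66 100) (mul (q 3 2) EE.x)) (F 10 3 pb (q 220 10000)), sub (sub EE.T EE.t) (q 1000 10000), sub (q 4300 10000) EE.v, sub EE.v (q 7300 10000)] 30
    179457241702481621743989277507664994075934695563033195033247099123381239015267262854682019982440426069444135834265243463988638820397727637194347889143255918657290669292286188877678512549152355738522285211265012174619609660704881831900763636180494797575447656216100542834600982214765087923986981084158921178762117407940090847632182858548002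
    [NumI.V.of 10000 3000 4000, NumI.V.of 10000 (-280) 570, NumI.V.of 10000 1000 4300, NumI.V.of 10000 (-1040) 50] = true := by
    decide +kernel
  obtain ⟨f, hf, hp⟩ := chkT4 h (by norm_num) (x := x) (y := T) (z := p) (w := t)
    (by norm_num; linarith only [ua1]) (by norm_num; linarith only [ua2]) (by norm_num; linarith only [ua3]) (by norm_num; linarith only [ua4]) (by norm_num; linarith only [ua5]) (by norm_num; linarith only [ua6]) (by norm_num; linarith only [ua7]) (by norm_num; linarith only [ua8])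
  by_contra hc
  push Not at hc
  obtain ⟨hc0, hc1⟩ := hc
  simp only [List.mem_cons, List.not_mem_nil, or_false] at hf
  rcases hf with rfl | rfl | rfl | rfl | rfl
  · simp only [S_val, F_val, N_val, ui_val, EE.pa, EE.pb, EE.pc, EE.kT, nyy, EE.x, EE.T, EE.p, EE.t, EE.nt, EE.v, E.val, NumI.lkR] at hp
    push_cast at hp
    linarith only [hc0, hp]
  · simp only [S_val, F_val, N_val, ui_val, EE.pa, EE.pb, EE.pc, EE.kT, nyy, EE.x, EE.T, EE.p, EE.t, EE.nt, EE.v, E.val, NumI.lkR] at hp
    push_cast at hp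
    linarith only [hc1, hp]
  · simp only [S_val, F_val, N_val, ui_val, EE.pa, EE.pb, EE.pc, EE.kT, nyy, EE.x, EE.T, EE.p, EE.t, EE.nt, EE.v, E.val, NumI.lkR] at hp
    push_cast at hp
    linarith only [ua9, hp]
  · simp only [S_val, F_val, N_val, ui_val, EE.pa, EE.pb, EE.pc, EE.kT, nyy, EE.x, EE.T, EE.p, EE.t, EE.nt, EE.v, E.val, NumI.lkR] at hp
    push_cast at hp
    linarith only [ua10, hp]
  · simp only [S_val, F_val, N_val, ui_val, EE.pa, EE.pb, EE.pc, EE.kT, nyy, EE.x, EE.T, EE.p, EE.t, EE.nt, EE.v, E.val, NumI.lkR] at hp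
    push_cast at hp
    linarith only [ua11, hp]

theorem far3a_oc {x T p t : ℝ} (ua1 : 3000 / 10000 ≤ x) (ua2 : x ≤ 4000 / 10000) (ua3 : -(280 / 10000) ≤ T) (ua4 : T ≤ 570 / 10000) (ua5 : 3300 / 10000 ≤ p) (ua6 : p ≤ 4500 / 10000) (ua7 : -(1040 / 10000) ≤ t) (ua8 : t ≤ 50 / 10000) (ua9 : T - t ≤ 1000 / 10000) (ua10 : 7300 / 10000 ≤ x + p) (ua11 : x + p ≤ 7500 / 10000) :
    rS (10 / 3) x T p t < 66 / 100 - 3 / 2 * x ∨ rF (10 / 3) (80 / 100) (220 / 10000) x T p t < 66 / 100 - 3 / 2 * x := by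
  have h : chkT [sub (sub (q 66 100) (mul (q 3 2) EE.x)) (S 10 3), sub (sub (q 66 100) (mul (q 3 2) EE.x)) (F 10 3 pc (q 220 10000)), sub (sub EE.T EE.t) (q 1000 10000), sub (q 7300 10000) EE.v, sub EE.v (q 7500 10000)] 30
    670351879746388767144431178407613814838482858676860062490523087563403469635299485994208843169668418886755826383425144843196108234918048820500316561150002
    [NumI.V.of 10000 3000 4000, NumI.V.of 10000 (-280) 570, NumI.V.of 10000 3300 4500, NumI.V.of 10000 (-1040) 50] = true := by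
    decide +kernel
  obtain ⟨f, hf, hp⟩ := chkT4 h (by norm_num) (x := x) (y := T) (z := p) (w := t)
    (by norm_num; linarith only [ua1]) (by norm_num; linarith only [ua2]) (by norm_num; linarith only [ua3]) (by norm_num; linarith only [ua4]) (by norm_num; linarith only [ua5]) (by norm_num; linarith only [ua6]) (by norm_num; linarith only [ua7]) (by norm_num; linarith only [ua8])
  by_contra hc
  push Not at hc
  obtain ⟨hc0, hc1⟩ := hc
  simp only [List.mem_cons, List.not_mem_nil, or_false] at hf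
  rcases hf with rfl | rfl | rfl | rfl | rfl
  · simp only [S_val, F_val, N_val, ui_val, EE.pa, EE.pb, EE.pc, EE.kT, nyy, EE.x, EE.T, EE.p, EE.t, EE.nt, EE.v, E.val, NumI.lkR] at hp
    push_cast at hp
    linarith only [hc0, hp]
  · simp only [S_val, F_val, N_val, ui_val, EE.pa, EE.pb, EE.pc, EE.kT, nyy, EE.x, EE.T, EE.p, EE.t, EE.nt, EE.v, E.val, NumI.lkR] at hp
    push_cast at hp
    linarith only [hc1, hp]
  · simp only [S_val, F_val, N_val, ui_val, EE.pa, EE.pb, EE.pc, EE.kT, nyy, EE.x, EE.T, EE.p, EE.t, EE.nt, EE.v, E.val, NumI.lkR] at hp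
    push_cast at hp
    linarith only [ua9, hp]
  · simp only [S_val, F_val, N_val, ui_val, EE.pa, EE.pb, EE.pc, EE.kT, nyy, EE.x, EE.T, EE.p, EE.t, EE.nt, EE.v, E.val, NumI.lkR] at hp
    push_cast at hp
    linarith only [ua10, hp]
  · simp only [S_val, F_val, N_val, ui_val, EE.pa, EE.pb, EE.pc, EE.kT, nyy, EE.x, EE.T, EE.p, EE.t, EE.nt, EE.v, E.val, NumI.lkR] at hp
    push_cast at hp
    linarith only [ua11, hp]

theorem far3a_Za {x T p t : ℝ} (ua1 : 3000 / 10000 ≤ x) (ua2 : x ≤ 4000 / 10000) (ua3 : -(280 / 10000) ≤ T) (ua4 : T ≤ 570 / 10000) (ua5 : 1000 / 10000 ≤ p) (ua6 : p ≤ 1300 / 10000) (ua7 : -(920 / 10000) ≤ t) (ua8 : t ≤ 0 / 10000) (ua9 : T - t ≤ 930 / 10000) (ua10 : x + p ≤ 4300 / 10000) :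
    rS (10 / 3) x T p t < 66 / 100 - 3 / 2 * x ∨ rF (10 / 3) (1 / 2) (570 / 10000) x T p t < 66 / 100 - 3 / 2 * x := by
  have h : chkT [sub (sub (q 66 100) (mul (q 3 2) EE.x)) (S 10 3), sub (sub (q 66 100) (mul (q 3 2) EE.x)) (F 10 3 pa (q 570 10000)), sub (sub EE.T EE.t) (q 930 10000), sub EE.v (q 4300 10000)] 30
    9381149378609
    [NumI.V.of 10000 3000 4000, NumI.V.of 10000 (-280) 570, NumI.V.of 10000 1000 1300, NumI.V.of 10000 (-920) 0] = true := by
    decide +kernel
  obtain ⟨f, hf, hp⟩ := chkT4 h (by norm_num) (x := x) (y := T) (z := p) (w := t)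
    (by norm_num; linarith only [ua1]) (by norm_num; linarith only [ua2]) (by norm_num; linarith only [ua3]) (by norm_num; linarith only [ua4]) (by norm_num; linarith only [ua5]) (by norm_num; linarith only [ua6]) (by norm_num; linarith only [ua7]) (by norm_num; linarith only [ua8])
  by_contra hc
  push Not at hc
  obtain ⟨hc0, hc1⟩ := hc
  simp only [List.mem_cons, List.not_mem_nil, or_false] at hf
  rcases hf with rfl | rfl | rfl | rfl
  · simp only [S_val, F_val, N_val, ui_val, EE.pa, EE.pb, EE.pc, EE.kT, nyy, EE.x, EE.T, EE.p, EE.t, EE.nt, EE.v, E.val, NumI.lkR] at hp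
    push_cast at hp
    linarith only [hc0, hp]
  · simp only [S_val, F_val, N_val, ui_val, EE.pa, EE.pb, EE.pc, EE.kT, nyy, EE.x, EE.T, EE.p, EE.t, EE.nt, EE.v, E.val, NumI.lkR] at hp
    push_cast at hp
    linarith only [hc1, hp]
  · simp only [S_val, F_val, N_val, ui_val, EE.pa, EE.pb, EE.pc, EE.kT, nyy, EE.x, EE.T, EE.p, EE.t, EE.nt, EE.v, E.val, NumI.lkR] at hp
    push_cast at hp
    linarith only [ua9, hp]
  · simp only [S_val, F_val, N_val, ui_val, EE.pa, EE.pb, EE.pc, EE.kT, nyy, EE.x, EE.T, EE.p, EE.t, EE.nt, EE.v, E.val, NumI.lkR] at hp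
    push_cast at hp
    linarith only [ua10, hp]

theorem far3a_Zb {x T p t : ℝ} (ua1 : 3000 / 10000 ≤ x) (ua2 : x ≤ 4000 / 10000) (ua3 : -(280 / 10000) ≤ T) (ua4 : T ≤ 570 / 10000) (ua5 : 1000 / 10000 ≤ p) (ua6 : p ≤ 4300 / 10000) (ua7 : -(920 / 10000) ≤ t) (ua8 : t ≤ 0 / 10000) (ua9 : T - t ≤ 930 / 10000) (ua10 : 4300 / 10000 ≤ x + p) (ua11 : x + p ≤ 7300 / 10000) :
    rS (10 / 3) x T p t < 66 / 100 - 3 / 2 * x ∨ rF (10 / 3) (x + p + 7 / 100) (570 / 10000) x T p t < 66 / 100 - 3 / 2 * x := by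
  have h : chkT [sub (sub (q 66 100) (mul (q 3 2) EE.x)) (S 10 3), sub (sub (q 66 100) (mul (q 3 2) EE.x)) (F 10 3 pb (q 570 10000)), sub (sub EE.T EE.t) (q 930 10000), sub (q 4300 10000) EE.v, sub EE.v (q 7300 10000)] 30
    1647984549678276299602407775463830056236807284919244280815592830823081708718424690885604314021776032609236520565262982479524869828305058318472556978397703789146902813078073631964348498671763966024144668833303528724659657260968695308084951284994834042240897665101020437272951727549764037960088854919023939925351093315647991621936093847451365927582373515081742493313538993566797320836288972714673092944349234979650796552657982121305002296331080482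
    [NumI.V.of 10000 3000 4000, NumI.V.of 10000 (-280) 570, NumI.V.of 10000 1000 4300, NumI.V.of 10000 (-920) 0] = true := by
    decide +kernel
  obtain ⟨f, hf, hp⟩ := chkT4 h (by norm_num) (x := x) (y := T) (z := p) (w := t)
    (by norm_num; linarith only [ua1]) (by norm_num; linarith only [ua2]) (by norm_num; linarith only [ua3]) (by norm_num; linarith only [ua4]) (by norm_num; linarith only [ua5]) (by norm_num; linarith only [ua6]) (by norm_num; linarith only [ua7]) (by norm_num; linarith only [ua8])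
  by_contra hc
  push Not at hc
  obtain ⟨hc0, hc1⟩ := hc
  simp only [List.mem_cons, List.not_mem_nil, or_false] at hf
  rcases hf with rfl | rfl | rfl | rfl | rfl
  · simp only [S_val, F_val, N_val, ui_val, EE.pa, EE.pb, EE.pc, EE.kT, nyy, EE.x, EE.T, EE.p, EE.t, EE.nt, EE.v, E.val, NumI.lkR] at hp
    push_cast at hp
    linarith only [hc0, hp]
  · simp only [S_val, F_val, N_val, ui_val, EE.pa, EE.pb, EE.pc, EE.kT, nyy, EE.x, EE.T, EE.p, EE.t, EE.nt, EE.v, E.val, NumI.lkR] at hp
    push_cast at hp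
    linarith only [hc1, hp]
  · simp only [S_val, F_val, N_val, ui_val, EE.pa, EE.pb, EE.pc, EE.kT, nyy, EE.x, EE.T, EE.p, EE.t, EE.nt, EE.v, E.val, NumI.lkR] at hp
    push_cast at hp
    linarith only [ua9, hp]
  · simp only [S_val, F_val, N_val, ui_val, EE.pa, EE.pb, EE.pc, EE.kT, nyy, EE.x, EE.T, EE.p, EE.t, EE.nt, EE.v, E.val, NumI.lkR] at hp
    push_cast at hp
    linarith only [ua10, hp]
  · simp only [S_val, F_val, N_val, ui_val, EE.pa, EE.pb, EE.pc, EE.kT, nyy, EE.x, EE.T, EE.p, EE.t, EE.nt, EE.v, E.val, NumI.lkR] at hp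
    push_cast at hp
    linarith only [ua11, hp]

theorem far3a_Zc {x T p t : ℝ} (ua1 : 3000 / 10000 ≤ x) (ua2 : x ≤ 4000 / 10000) (ua3 : -(280 / 10000) ≤ T) (ua4 : T ≤ 570 / 10000) (ua5 : 3300 / 10000 ≤ p) (ua6 : p ≤ 4500 / 10000) (ua7 : -(920 / 10000) ≤ t) (ua8 : t ≤ 0 / 10000) (ua9 : T - t ≤ 930 / 10000) (ua10 : 7300 / 10000 ≤ x + p) (ua11 : x + p ≤ 7500 / 10000) :
    rS (10 / 3) x T p t < 66 / 100 - 3 / 2 * x ∨ rF (10 / 3) (80 / 100) (570 / 10000) x T p t < 66 / 100 - 3 / 2 * x := by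
  have h : chkT [sub (sub (q 66 100) (mul (q 3 2) EE.x)) (S 10 3), sub (sub (q 66 100) (mul (q 3 2) EE.x)) (F 10 3 pc (q 570 10000)), sub (sub EE.T EE.t) (q 930 10000), sub (q 7300 10000) EE.v, sub EE.v (q 7500 10000)] 30
    4626846833284497960497275941958436324428539565627672439092812268189403584397909417502978762388697599943767923607660803508353043219407022671618314636626419180793038012249358672305096868671739657554971480054918373196739875074
    [NumI.V.of 10000 3000 4000, NumI.V.of 10000 (-280) 570, NumI.V.of 10000 3300 4500, NumI.V.of 10000 (-920) 0] = true := by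
    decide +kernel
  obtain ⟨f, hf, hp⟩ := chkT4 h (by norm_num) (x := x) (y := T) (z := p) (w := t)
    (by norm_num; linarith only [ua1]) (by norm_num; linarith only [ua2]) (by norm_num; linarith only [ua3]) (by norm_num; linarith only [ua4]) (by norm_num; linarith only [ua5]) (by norm_num; linarith only [ua6]) (by norm_num; linarith only [ua7]) (by norm_num; linarith only [ua8])
  by_contra hc
  push Not at hc
  obtain ⟨hc0, hc1⟩ := hc
  simp only [List.mem_cons, List.not_mem_nil, or_false] at hf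
  rcases hf with rfl | rfl | rfl | rfl | rfl
  · simp only [S_val, F_val, N_val, ui_val, EE.pa, EE.pb, EE.pc, EE.kT, nyy, EE.x, EE.T, EE.p, EE.t, EE.nt, EE.v, E.val, NumI.lkR] at hp
    push_cast at hp
    linarith only [hc0, hp]
  · simp only [S_val, F_val, N_val, ui_val, EE.pa, EE.pb, EE.pc, EE.kT, nyy, EE.x, EE.T, EE.p, EE.t, EE.nt, EE.v, E.val, NumI.lkR] at hp
    push_cast at hp
    linarith only [hc1, hp]
  · simp only [S_val, F_val, N_val, ui_val, EE.pa, EE.pb, EE.pc, EE.kT, nyy, EE.x, EE.T, EE.p, EE.t, EE.nt, EE.v, E.val, NumI.lkR] at hp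
    push_cast at hp
    linarith only [ua9, hp]
  · simp only [S_val, F_val, N_val, ui_val, EE.pa, EE.pb, EE.pc, EE.kT, nyy, EE.x, EE.T, EE.p, EE.t, EE.nt, EE.v, E.val, NumI.lkR] at hp
    push_cast at hp
    linarith only [ua10, hp]
  · simp only [S_val, F_val, N_val, ui_val, EE.pa, EE.pb, EE.pc, EE.kT, nyy, EE.x, EE.T, EE.p, EE.t, EE.nt, EE.v, E.val, NumI.lkR] at hp
    push_cast at hp
    linarith only [ua11, hp]

end S0R

end Pool.Agent.Work.MP_b30479_gt.G2
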