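import Pool.Agent.Work.MP_b30479_gt.G2.S0RC
import Pool.Agent.Work.NumU.Tree

/-!
# The own side of an interior `3` at slot `0`, right ramp: rows on `[.40, .50]`, left neighbours `3`, `3e`, ring
-/

set_option linter.unusedSimpArgs false
set_option linter.unusedVariables false

namespace Pool.Agent.Work.MP_b30479_gt.G2

open VOL NumU

namespace S0R

open NumU.E EE

theorem far3e_1b {x T p t : ℝ} (ua1 : 4000 / 10000 ≤ x) (ua2 : x ≤ 5000 / 10000) (ua3 : -(280 / 10000) ≤ T) (ua4 : T ≤ -(50 / 10000)) (ua5 : 1000 / 10000 ≤ p) (ua6 : p ≤ 3300 / 10000) (ua7 : -(1140 / 10000) ≤ t) (ua8 : t ≤ -(150 / 10000)) (ua9 : T - t ≤ 1050 / 10000) (ua10 : 4300 / 10000 ≤ x + p) (ua11 : x + p ≤ 7300 / 10000) :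
    rS (10 / 3) x T p t < -(35 / 1000) ∨ rF (10 / 3) (x + p + 7 / 100) (-98 / 10000) x T p t < -(35 / 1000) := by
  have h : chkT [sub (q (-35) 1000) (S 10 3), sub (q (-35) 1000) (F 10 3 pb (q (-98) 10000)), sub (sub EE.T EE.t) (q 1050 10000), sub (q 4300 10000) EE.v, sub EE.v (q 7300 10000)] 30
    414376991726055654804777164361445736959403306863314449546780912291026210357803760533379573214609365997448108229202447716047135522
    [NumI.V.of 10000 4000 5000, NumI.V.of 10000 (-280) (-50), NumI.V.of 10000 1000 3300, NumI.V.of 10000 (-1140) (-150)] = true := by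
    decide +kernel
  obtain ⟨f, hf, hp⟩ := chkT4 h (by norm_num) (x := x) (y := T) (z := p) (w := t)
    (by norm_num; linarith only [ua1]) (by norm_num; linarith only [ua2]) (by norm_num; linarith only [ua3]) (by norm_num; linarith only [ua4]) (by norm_num; linarith only [ua5]) (by norm_num; linarith only [ua6]) (by norm_num; linarith only [ua7]) (by norm_num; linarith only [ua8])
  by_contra hc
  push Not at hc
  obtain ⟨hc0, hc1⟩ := hc
  simp only [List.mem_cons, List.not_mem_nil, or_false] at hf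
  rcases hf with rfl | rfl | rfl | rfl | rfl
  · simp only [S_val, F_val, N_val, ui_val, EE.pa, EE.pb, EE.pc, EE.kT, nyy, EE.x, EE.T, EE.p, EE.t, EE.nt, EE.v, E.val, NumI.lkR] at hp
    push_cast at hp
    linarith only [hc0, hp]
  · simp only [S_val, F_val, N_val, ui_val, EE.pa, EE.pb, EE.pc, EE.kT, nyy, EE.x, EE.T, EE.p, EE.t, EE.nt, EE.v, E.val, NumI.lkR] at hp
    push_cast at hp
    linarith only [hc1, hp]
  · simp only [S_val, F_val, N_val, ui_val, EE.pa, EE.pb, EE.pc, EE.kT, nyy, EE.x, EE.T, EE.p, EE.t, EE.nt, EE.v, E.val, NumI.lkR] at hp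
    push_cast at hp
    linarith only [ua9, hp]
  · simp only [S_val, F_val, N_val, ui_val, EE.pa, EE.pb, EE.pc, EE.kT, nyy, EE.x, EE.T, EE.p, EE.t, EE.nt, EE.v, E.val, NumI.lkR] at hp
    push_cast at hp
    linarith only [ua1, ua5, hp]
  · simp only [S_val, F_val, N_val, ui_val, EE.pa, EE.pb, EE.pc, EE.kT, nyy, EE.x, EE.T, EE.p, EE.t, EE.nt, EE.v, E.val, NumI.lkR] at hp
    push_cast at hp
    linarith only [ua11, hp]

theorem far3e_1c {x T p t : ℝ} (ua1 : 4000 / 10000 ≤ x) (ua2 : x ≤ 5000 / 10000) (ua3 : -(280 / 10000) ≤ T) (ua4 : T ≤ -(50 / 10000)) (ua5 : 2300 / 10000 ≤ p) (ua6 : p ≤ 3500 / 10000) (ua7 : -(1140 / 10000) ≤ t) (ua8 : t ≤ -(150 / 10000)) (ua9 : T - t ≤ 1050 / 10000) (ua10 : 7300 / 10000 ≤ x + p) (ua11 : x + p ≤ 7500 / 10000) :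
    rS (10 / 3) x T p t < -(35 / 1000) ∨ rF (10 / 3) (80 / 100) (-98 / 10000) x T p t < -(35 / 1000) := by
  have h : chkT [sub (q (-35) 1000) (S 10 3), sub (q (-35) 1000) (F 10 3 pc (q (-98) 10000)), sub (sub EE.T EE.t) (q 1050 10000), sub (q 7300 10000) EE.v, sub EE.v (q 7500 10000)] 30
    73007860517602821181479926855472297101651841074
    [NumI.V.of 10000 4000 5000, NumI.V.of 10000 (-280) (-50), NumI.V.of 10000 2300 3500, NumI.V.of 10000 (-1140) (-150)] = true := by
    decide +kernel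
  obtain ⟨f, hf, hp⟩ := chkT4 h (by norm_num) (x := x) (y := T) (z := p) (w := t)
    (by norm_num; linarith only [ua1]) (by norm_num; linarith only [ua2]) (by norm_num; linarith only [ua3]) (by norm_num; linarith only [ua4]) (by norm_num; linarith only [ua5]) (by norm_num; linarith only [ua6]) (by norm_num; linarith only [ua7]) (by norm_num; linarith only [ua8])
  by_contra hc
  push Not at hc
  obtain ⟨hc0, hc1⟩ := hc
  simp only [List.mem_cons, List.not_mem_nil, or_false] at hf
  rcases hf with rfl | rfl | rfl | rfl | rfl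
  · simp only [S_val, F_val, N_val, ui_val, EE.pa, EE.pb, EE.pc, EE.kT, nyy, EE.x, EE.T, EE.p, EE.t, EE.nt, EE.v, E.val, NumI.lkR] at hp
    push_cast at hp
    linarith only [hc0, hp]
  · simp only [S_val, F_val, N_val, ui_val, EE.pa, EE.pb, EE.pc, EE.kT, nyy, EE.x, EE.T, EE.p, EE.t, EE.nt, EE.v, E.val, NumI.lkR] at hp
    push_cast at hp
    linarith only [hc1, hp]
  · simp only [S_val, F_val, N_val, ui_val, EE.pa, EE.pb, EE.pc, EE.kT, nyy, EE.x, EE.T, EE.p, EE.t, EE.nt, EE.v, E.val, NumI.lkR] at hp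
    push_cast at hp
    linarith only [ua9, hp]
  · simp only [S_val, F_val, N_val, ui_val, EE.pa, EE.pb, EE.pc, EE.kT, nyy, EE.x, EE.T, EE.p, EE.t, EE.nt, EE.v, E.val, NumI.lkR] at hp
    push_cast at hp
    linarith only [ua10, hp]
  · simp only [S_val, F_val, N_val, ui_val, EE.pa, EE.pb, EE.pc, EE.kT, nyy, EE.x, EE.T, EE.p, EE.t, EE.nt, EE.v, E.val, NumI.lkR] at hp
    push_cast at hp
    linarith only [ua11, hp]

theorem far3e_ob {x T p t : ℝ} (ua1 : 4000 / 10000 ≤ x) (ua2 : x ≤ 5000 / 10000) (ua3 : -(280 / 10000) ≤ T) (ua4 : T ≤ -(50 / 10000)) (ua5 : 1000 / 10000 ≤ p) (ua6 : p ≤ 3300 / 10000) (ua7 : -(1040 / 10000) ≤ t) (ua8 : t ≤ 50 / 10000) (ua9 : 4300 / 10000 ≤ x + p) (ua10 : x + p ≤ 7300 / 10000) :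
    rS (10 / 3) x T p t < -(35 / 1000) ∨ rF (10 / 3) (x + p + 7 / 100) (220 / 10000) x T p t < -(35 / 1000) := by
  have h : chkT [sub (q (-35) 1000) (S 10 3), sub (q (-35) 1000) (F 10 3 pb (q 220 10000)), sub (q 4300 10000) EE.v, sub EE.v (q 7300 10000)] 30
    16899141896486006423158151641940573615754299468209806917189199890932572962
    [NumI.V.of 10000 4000 5000, NumI.V.of 10000 (-280) (-50), NumI.V.of 10000 1000 3300, NumI.V.of 10000 (-1040) 50] = true := by
    decide +kernel
  obtain ⟨f, hf, hp⟩ := chkT4 h (by norm_num) (x := x) (y := T) (z := p) (w := t)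
    (by norm_num; linarith only [ua1]) (by norm_num; linarith only [ua2]) (by norm_num; linarith only [ua3]) (by norm_num; linarith only [ua4]) (by norm_num; linarith only [ua5]) (by norm_num; linarith only [ua6]) (by norm_num; linarith only [ua7]) (by norm_num; linarith only [ua8])
  by_contra hc
  push Not at hc
  obtain ⟨hc0, hc1⟩ := hc
  simp only [List.mem_cons, List.not_mem_nil, or_false] at hf
  rcases hf with rfl | rfl | rfl | rfl
  · simp only [S_val, F_val, N_val, ui_val, EE.pa, EE.pb, EE.pc, EE.kT, nyy, EE.x, EE.T, EE.p, EE.t, EE.nt, EE.v, E.val, NumI.lkR] at hp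
    push_cast at hp
    linarith only [hc0, hp]
  · simp only [S_val, F_val, N_val, ui_val, EE.pa, EE.pb, EE.pc, EE.kT, nyy, EE.x, EE.T, EE.p, EE.t, EE.nt, EE.v, E.val, NumI.lkR] at hp
    push_cast at hp
    linarith only [hc1, hp]
  · simp only [S_val, F_val, N_val, ui_val, EE.pa, EE.pb, EE.pc, EE.kT, nyy, EE.x, EE.T, EE.p, EE.t, EE.nt, EE.v, E.val, NumI.lkR] at hp
    push_cast at hp
    linarith only [ua1, ua5, hp]
  · simp only [S_val, F_val, N_val, ui_val, EE.pa, EE.pb, EE.pc, EE.kT, nyy, EE.x, EE.T, EE.p, EE.t, EE.nt, EE.v, E.val, NumI.lkR] at hp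
    push_cast at hp
    linarith only [ua10, hp]

theorem far3e_oc {x T p t : ℝ} (ua1 : 4000 / 10000 ≤ x) (ua2 : x ≤ 5000 / 10000) (ua3 : -(280 / 10000) ≤ T) (ua4 : T ≤ -(50 / 10000)) (ua5 : 2300 / 10000 ≤ p) (ua6 : p ≤ 3500 / 10000) (ua7 : -(1040 / 10000) ≤ t) (ua8 : t ≤ 50 / 10000) (ua9 : 7300 / 10000 ≤ x + p) (ua10 : x + p ≤ 7500 / 10000) :
    rS (10 / 3) x T p t < -(35 / 1000) ∨ rF (10 / 3) (80 / 100) (220 / 10000) x T p t < -(35 / 1000) := by
  have h : chkT [sub (q (-35) 1000) (S 10 3), sub (q (-35) 1000) (F 10 3 pc (q 220 10000)), sub (q 7300 10000) EE.v, sub EE.v (q 7500 10000)] 30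
    60879648916302635590211290619154482
    [NumI.V.of 10000 4000 5000, NumI.V.of 10000 (-280) (-50), NumI.V.of 10000 2300 3500, NumI.V.of 10000 (-1040) 50] = true := by
    decide +kernel
  obtain ⟨f, hf, hp⟩ := chkT4 h (by norm_num) (x := x) (y := T) (z := p) (w := t)
    (by norm_num; linarith only [ua1]) (by norm_num; linarith only [ua2]) (by norm_num; linarith only [ua3]) (by norm_num; linarith only [ua4]) (by norm_num; linarith only [ua5]) (by norm_num; linarith only [ua6]) (by norm_num; linarith only [ua7]) (by norm_num; linarith only [ua8])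
  by_contra hc
  push Not at hc
  obtain ⟨hc0, hc1⟩ := hc
  simp only [List.mem_cons, List.not_mem_nil, or_false] at hf
  rcases hf with rfl | rfl | rfl | rfl
  · simp only [S_val, F_val, N_val, ui_val, EE.pa, EE.pb, EE.pc, EE.kT, nyy, EE.x, EE.T, EE.p, EE.t, EE.nt, EE.v, E.val, NumI.lkR] at hp
    push_cast at hp
    linarith only [hc0, hp]
  · simp only [S_val, F_val, N_val, ui_val, EE.pa, EE.pb, EE.pc, EE.kT, nyy, EE.x, EE.T, EE.p, EE.t, EE.nt, EE.v, E.val, NumI.lkR] at hp
    push_cast at hp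
    linarith only [hc1, hp]
  · simp only [S_val, F_val, N_val, ui_val, EE.pa, EE.pb, EE.pc, EE.kT, nyy, EE.x, EE.T, EE.p, EE.t, EE.nt, EE.v, E.val, NumI.lkR] at hp
    push_cast at hp
    linarith only [ua9, hp]
  · simp only [S_val, F_val, N_val, ui_val, EE.pa, EE.pb, EE.pc, EE.kT, nyy, EE.x, EE.T, EE.p, EE.t, EE.nt, EE.v, E.val, NumI.lkR] at hp
    push_cast at hp
    linarith only [ua10, hp]

theorem far3e_Zb {x T p t : ℝ} (ua1 : 4000 / 10000 ≤ x) (ua2 : x ≤ 5000 / 10000) (ua3 : -(280 / 10000) ≤ T) (ua4 : T ≤ -(50 / 10000)) (ua5 : 1000 / 10000 ≤ p) (ua6 : p ≤ 3300 / 10000) (ua7 : -(920 / 10000) ≤ t) (ua8 : t ≤ 0 / 10000) (ua9 : 4300 / 10000 ≤ x + p) (ua10 : x + p ≤ 7300 / 10000) :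
    rS (10 / 3) x T p t < -(35 / 1000) ∨ rF (10 / 3) (x + p + 7 / 100) (570 / 10000) x T p t < -(35 / 1000) := by
  have h : chkT [sub (q (-35) 1000) (S 10 3), sub (q (-35) 1000) (F 10 3 pb (q 570 10000)), sub (q 4300 10000) EE.v, sub EE.v (q 7300 10000)] 30
    234529122643699600278196067806837533368788817402292372258
    [NumI.V.of 10000 4000 5000, NumI.V.of 10000 (-280) (-50), NumI.V.of 10000 1000 3300, NumI.V.of 10000 (-920) 0] = true := by
    decide +kernel
  obtain ⟨f, hf, hp⟩ := chkT4 h (by norm_num) (x := x) (y := T) (z := p) (w := t)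
    (by norm_num; linarith only [ua1]) (by norm_num; linarith only [ua2]) (by norm_num; linarith only [ua3]) (by norm_num; linarith only [ua4]) (by norm_num; linarith only [ua5]) (by norm_num; linarith only [ua6]) (by norm_num; linarith only [ua7]) (by norm_num; linarith only [ua8])
  by_contra hc
  push Not at hc
  obtain ⟨hc0, hc1⟩ := hc
  simp only [List.mem_cons, List.not_mem_nil, or_false] at hf
  rcases hf with rfl | rfl | rfl | rfl
  · simp only [S_val, F_val, N_val, ui_val, EE.pa, EE.pb, EE.pc, EE.kT, nyy, EE.x, EE.T, EE.p, EE.t, EE.nt, EE.v, E.val, NumI.lkR] at hp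
    push_cast at hp
    linarith only [hc0, hp]
  · simp only [S_val, F_val, N_val, ui_val, EE.pa, EE.pb, EE.pc, EE.kT, nyy, EE.x, EE.T, EE.p, EE.t, EE.nt, EE.v, E.val, NumI.lkR] at hp
    push_cast at hp
    linarith only [hc1, hp]
  · simp only [S_val, F_val, N_val, ui_val, EE.pa, EE.pb, EE.pc, EE.kT, nyy, EE.x, EE.T, EE.p, EE.t, EE.nt, EE.v, E.val, NumI.lkR] at hp
    push_cast at hp
    linarith only [ua1, ua5, hp]
  · simp only [S_val, F_val, N_val, ui_val, EE.pa, EE.pb, EE.pc, EE.kT, nyy, EE.x, EE.T, EE.p, EE.t, EE.nt, EE.v, E.val, NumI.lkR] at hp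
    push_cast at hp
    linarith only [ua10, hp]

theorem far3e_Zc {x T p t : ℝ} (ua1 : 4000 / 10000 ≤ x) (ua2 : x ≤ 5000 / 10000) (ua3 : -(280 / 10000) ≤ T) (ua4 : T ≤ -(50 / 10000)) (ua5 : 2300 / 10000 ≤ p) (ua6 : p ≤ 3500 / 10000) (ua7 : -(920 / 10000) ≤ t) (ua8 : t ≤ 0 / 10000) (ua9 : 7300 / 10000 ≤ x + p) (ua10 : x + p ≤ 7500 / 10000) :
    rS (10 / 3) x T p t < -(35 / 1000) ∨ rF (10 / 3) (80 / 100) (570 / 10000) x T p t < -(35 / 1000) := by
  have h : chkT [sub (q (-35) 1000) (S 10 3), sub (q (-35) 1000) (F 10 3 pc (q 570 10000)), sub (q 7300 10000) EE.v, sub EE.v (q 7500 10000)] 30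
    237809213144950034728241285183746
    [NumI.V.of 10000 4000 5000, NumI.V.of 10000 (-280) (-50), NumI.V.of 10000 2300 3500, NumI.V.of 10000 (-920) 0] = true := by
    decide +kernel
  obtain ⟨f, hf, hp⟩ := chkT4 h (by norm_num) (x := x) (y := T) (z := p) (w := t)
    (by norm_num; linarith only [ua1]) (by norm_num; linarith only [ua2]) (by norm_num; linarith only [ua3]) (by norm_num; linarith only [ua4]) (by norm_num; linarith only [ua5]) (by norm_num; linarith only [ua6]) (by norm_num; linarith only [ua7]) (by norm_num; linarith only [ua8])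
  by_contra hc
  push Not at hc
  obtain ⟨hc0, hc1⟩ := hc
  simp only [List.mem_cons, List.not_mem_nil, or_false] at hf
  rcases hf with rfl | rfl | rfl | rfl
  · simp only [S_val, F_val, N_val, ui_val, EE.pa, EE.pb, EE.pc, EE.kT, nyy, EE.x, EE.T, EE.p, EE.t, EE.nt, EE.v, E.val, NumI.lkR] at hp
    push_cast at hp
    linarith only [hc0, hp]
  · simp only [S_val, F_val, N_val, ui_val, EE.pa, EE.pb, EE.pc, EE.kT, nyy, EE.x, EE.T, EE.p, EE.t, EE.nt, EE.v, E.val, NumI.lkR] at hp
    push_cast at hp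
    linarith only [hc1, hp]
  · simp only [S_val, F_val, N_val, ui_val, EE.pa, EE.pb, EE.pc, EE.kT, nyy, EE.x, EE.T, EE.p, EE.t, EE.nt, EE.v, E.val, NumI.lkR] at hp
    push_cast at hp
    linarith only [ua9, hp]
  · simp only [S_val, F_val, N_val, ui_val, EE.pa, EE.pb, EE.pc, EE.kT, nyy, EE.x, EE.T, EE.p, EE.t, EE.nt, EE.v, E.val, NumI.lkR] at hp
    push_cast at hp
    linarith only [ua10, hp]

theorem far3z_1b {x T p t : ℝ} (ua1 : 4000 / 10000 ≤ x) (ua2 : x ≤ 5000 / 10000) (ua3 : -(220 / 10000) ≤ T) (ua4 : T ≤ 570 / 10000) (ua5 : 1000 / 10000 ≤ p) (ua6 : p ≤ 3300 / 10000) (ua7 : -(1140 / 10000) ≤ t) (ua8 : t ≤ -(150 / 10000)) (ua9 : T - t ≤ 1050 / 10000) (ua10 : 4300 / 10000 ≤ x + p) (ua11 : x + p ≤ 7300 / 10000) :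
    rS (10 / 3) x T p t < 0 ∨ rF (10 / 3) (x + p + 7 / 100) (-98 / 10000) x T p t < 0 := by
  have h : chkT [sub (q 0 1) (S 10 3), sub (q 0 1) (F 10 3 pb (q (-98) 10000)), sub (sub EE.T EE.t) (q 1050 10000), sub (q 4300 10000) EE.v, sub EE.v (q 7300 10000)] 30
    10706543271047368526698217759557269238585584321294025882264319781995116166422715955083435955726414135586835183148697134187356403128787728516274654083037294896722607627530173969535391488716059917782398665506671421356895499089429447911156700271675120894096107209796531486044833141674669742906471595391779138762742664605264235882287906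
    [NumI.V.of 10000 4000 5000, NumI.V.of 10000 (-220) 570, NumI.V.of 10000 1000 3300, NumI.V.of 10000 (-1140) (-150)] = true := by
    decide +kernel
  obtain ⟨f, hf, hp⟩ := chkT4 h (by norm_num) (x := x) (y := T) (z := p) (w := t)
    (by norm_num; linarith only [ua1]) (by norm_num; linarith only [ua2]) (by norm_num; linarith only [ua3]) (by norm_num; linarith only [ua4]) (by norm_num; linarith only [ua5]) (by norm_num; linarith only [ua6]) (by norm_num; linarith only [ua7]) (by norm_num; linarith only [ua8])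
  by_contra hc
  push Not at hc
  obtain ⟨hc0, hc1⟩ := hc
  simp only [List.mem_cons, List.not_mem_nil, or_false] at hf
  rcases hf with rfl | rfl | rfl | rfl | rfl
  · simp only [S_val, F_val, N_val, ui_val, EE.pa, EE.pb, EE.pc, EE.kT, nyy, EE.x, EE.T, EE.p, EE.t, EE.nt, EE.v, E.val, NumI.lkR] at hp
    push_cast at hp
    linarith only [hc0, hp]
  · simp only [S_val, F_val, N_val, ui_val, EE.pa, EE.pb, EE.pc, EE.kT, nyy, EE.x, EE.T, EE.p, EE.t, EE.nt, EE.v, E.val, NumI.lkR] at hp
    push_cast at hp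
    linarith only [hc1, hp]
  · simp only [S_val, F_val, N_val, ui_val, EE.pa, EE.pb, EE.pc, EE.kT, nyy, EE.x, EE.T, EE.p, EE.t, EE.nt, EE.v, E.val, NumI.lkR] at hp
    push_cast at hp
    linarith only [ua9, hp]
  · simp only [S_val, F_val, N_val, ui_val, EE.pa, EE.pb, EE.pc, EE.kT, nyy, EE.x, EE.T, EE.p, EE.t, EE.nt, EE.v, E.val, NumI.lkR] at hp
    push_cast at hp
    linarith only [ua1, ua5, hp]
  · simp only [S_val, F_val, N_val, ui_val, EE.pa, EE.pb, EE.pc, EE.kT, nyy, EE.x, EE.T, EE.p, EE.t, EE.nt, EE.v, E.val, NumI.lkR] at hp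
    push_cast at hp
    linarith only [ua11, hp]

theorem far3z_1c {x T p t : ℝ} (ua1 : 4000 / 10000 ≤ x) (ua2 : x ≤ 5000 / 10000) (ua3 : -(220 / 10000) ≤ T) (ua4 : T ≤ 570 / 10000) (ua5 : 2300 / 10000 ≤ p) (ua6 : p ≤ 3500 / 10000) (ua7 : -(1140 / 10000) ≤ t) (ua8 : t ≤ -(150 / 10000)) (ua9 : T - t ≤ 1050 / 10000) (ua10 : 7300 / 10000 ≤ x + p) (ua11 : x + p ≤ 7500 / 10000) :
    rS (10 / 3) x T p t < 0 ∨ rF (10 / 3) (80 / 100) (-98 / 10000) x T p t < 0 := by
  have h : chkT [sub (q 0 1) (S 10 3), sub (q 0 1) (F 10 3 pc (q (-98) 10000)), sub (sub EE.T EE.t) (q 1050 10000), sub (q 7300 10000) EE.v, sub EE.v (q 7500 10000)] 30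
    7435056716522317123676710977461909355408828012519210311972132518373638204773560942625489830912360237091485785414067076425624191919712558685205808932220545603977279172164418419170372449268088582059686225682857384097873455701969590510202381026328670731313042987223975617962514778366002
    [NumI.V.of 10000 4000 5000, NumI.V.of 10000 (-220) 570, NumI.V.of 10000 2300 3500, NumI.V.of 10000 (-1140) (-150)] = true := by
    decide +kernel
  obtain ⟨f, hf, hp⟩ := chkT4 h (by norm_num) (x := x) (y := T) (z := p) (w := t)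
    (by norm_num; linarith only [ua1]) (by norm_num; linarith only [ua2]) (by norm_num; linarith only [ua3]) (by norm_num; linarith only [ua4]) (by norm_num; linarith only [ua5]) (by norm_num; linarith only [ua6]) (by norm_num; linarith only [ua7]) (by norm_num; linarith only [ua8])
  by_contra hc
  push Not at hc
  obtain ⟨hc0, hc1⟩ := hc
  simp only [List.mem_cons, List.not_mem_nil, or_false] at hf
  rcases hf with rfl | rfl | rfl | rfl | rfl
  · simp only [S_val, F_val, N_val, ui_val, EE.pa, EE.pb, EE.pc, EE.kT, nyy, EE.x, EE.T, EE.p, EE.t, EE.nt, EE.v, E.val, NumI.lkR] at hp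
    push_cast at hp
    linarith only [hc0, hp]
  · simp only [S_val, F_val, N_val, ui_val, EE.pa, EE.pb, EE.pc, EE.kT, nyy, EE.x, EE.T, EE.p, EE.t, EE.nt, EE.v, E.val, NumI.lkR] at hp
    push_cast at hp
    linarith only [hc1, hp]
  · simp only [S_val, F_val, N_val, ui_val, EE.pa, EE.pb, EE.pc, EE.kT, nyy, EE.x, EE.T, EE.p, EE.t, EE.nt, EE.v, E.val, NumI.lkR] at hp
    push_cast at hp
    linarith only [ua9, hp]
  · simp only [S_val, F_val, N_val, ui_val, EE.pa, EE.pb, EE.pc, EE.kT, nyy, EE.x, EE.T, EE.p, EE.t, EE.nt, EE.v, E.val, NumI.lkR] at hp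
    push_cast at hp
    linarith only [ua10, hp]
  · simp only [S_val, F_val, N_val, ui_val, EE.pa, EE.pb, EE.pc, EE.kT, nyy, EE.x, EE.T, EE.p, EE.t, EE.nt, EE.v, E.val, NumI.lkR] at hp
    push_cast at hp
    linarith only [ua11, hp]

theorem far3z_ob {x T p t : ℝ} (ua1 : 4000 / 10000 ≤ x) (ua2 : x ≤ 5000 / 10000) (ua3 : -(220 / 10000) ≤ T) (ua4 : T ≤ 570 / 10000) (ua5 : 1000 / 10000 ≤ p) (ua6 : p ≤ 3300 / 10000) (ua7 : -(1040 / 10000) ≤ t) (ua8 : t ≤ 50 / 10000) (ua9 : T - t ≤ 1000 / 10000) (ua10 : 4300 / 10000 ≤ x + p) (ua11 : x + p ≤ 7300 / 10000) :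
    rS (10 / 3) x T p t < 0 ∨ rF (10 / 3) (x + p + 7 / 100) (220 / 10000) x T p t < 0 := by
  have h : chkT [sub (q 0 1) (S 10 3), sub (q 0 1) (F 10 3 pb (q 220 10000)), sub (sub EE.T EE.t) (q 1000 10000), sub (q 4300 10000) EE.v, sub EE.v (q 7300 10000)] 30
    1127532619658930279230622542321234459484254731351333786437497259781266172273594410002166247170926260780903048207019110020746801531208809936100216717980061484280273981464164887091000110074485574805136570769060744696476604419929706915268856651799343798354348375451664887467543942942602471913559384095184627017131510777546921476188805951576453227135435211408659259182473832119760211583742334875079458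
    [NumI.V.of 10000 4000 5000, NumI.V.of 10000 (-220) 570, NumI.V.of 10000 1000 3300, NumI.V.of 10000 (-1040) 50] = true := by
    decide +kernel
  obtain ⟨f, hf, hp⟩ := chkT4 h (by norm_num) (x := x) (y := T) (z := p) (w := t)
    (by norm_num; linarith only [ua1]) (by norm_num; linarith only [ua2]) (by norm_num; linarith only [ua3]) (by norm_num; linarith only [ua4]) (by norm_num; linarith only [ua5]) (by norm_num; linarith only [ua6]) (by norm_num; linarith only [ua7]) (by norm_num; linarith only [ua8])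
  by_contra hc
  push Not at hc
  obtain ⟨hc0, hc1⟩ := hc
  simp only [List.mem_cons, List.not_mem_nil, or_false] at hf
  rcases hf with rfl | rfl | rfl | rfl | rfl
  · simp only [S_val, F_val, N_val, ui_val, EE.pa, EE.pb, EE.pc, EE.kT, nyy, EE.x, EE.T, EE.p, EE.t, EE.nt, EE.v, E.val, NumI.lkR] at hp
    push_cast at hp
    linarith only [hc0, hp]
  · simp only [S_val, F_val, N_val, ui_val, EE.pa, EE.pb, EE.pc, EE.kT, nyy, EE.x, EE.T, EE.p, EE.t, EE.nt, EE.v, E.val, NumI.lkR] at hp
    push_cast at hp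
    linarith only [hc1, hp]
  · simp only [S_val, F_val, N_val, ui_val, EE.pa, EE.pb, EE.pc, EE.kT, nyy, EE.x, EE.T, EE.p, EE.t, EE.nt, EE.v, E.val, NumI.lkR] at hp
    push_cast at hp
    linarith only [ua9, hp]
  · simp only [S_val, F_val, N_val, ui_val, EE.pa, EE.pb, EE.pc, EE.kT, nyy, EE.x, EE.T, EE.p, EE.t, EE.nt, EE.v, E.val, NumI.lkR] at hp
    push_cast at hp
    linarith only [ua1, ua5, hp]
  · simp only [S_val, F_val, N_val, ui_val, EE.pa, EE.pb, EE.pc, EE.kT, nyy, EE.x, EE.T, EE.p, EE.t, EE.nt, EE.v, E.val, NumI.lkR] at hp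
    push_cast at hp
    linarith only [ua11, hp]

theorem far3z_oc {x T p t : ℝ} (ua1 : 4000 / 10000 ≤ x) (ua2 : x ≤ 5000 / 10000) (ua3 : -(220 / 10000) ≤ T) (ua4 : T ≤ 570 / 10000) (ua5 : 2300 / 10000 ≤ p) (ua6 : p ≤ 3500 / 10000) (ua7 : -(1040 / 10000) ≤ t) (ua8 : t ≤ 50 / 10000) (ua9 : T - t ≤ 1000 / 10000) (ua10 : 7300 / 10000 ≤ x + p) (ua11 : x + p ≤ 7500 / 10000) :
    rS (10 / 3) x T p t < 0 ∨ rF (10 / 3) (80 / 100) (220 / 10000) x T p t < 0 := by
  have h : chkT [sub (q 0 1) (S 10 3), sub (q 0 1) (F 10 3 pc (q 220 10000)), sub (sub EE.T EE.t) (q 1000 10000), sub (q 7300 10000) EE.v, sub EE.v (q 7500 10000)] 30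
    487235676614437155983548630464999879280372305722256055926108370309294566335615920821657945188232270081837119221829368707654033569733369351868090246279548551209640409818598174576268309462756496048830893730955000116178206442784843937486032663066474625076502216623770135111223550382133809202
    [NumI.V.of 10000 4000 5000, NumI.V.of 10000 (-220) 570, NumI.V.of 10000 2300 3500, NumI.V.of 10000 (-1040) 50] = true := by
    decide +kernel
  obtain ⟨f, hf, hp⟩ := chkT4 h (by norm_num) (x := x) (y := T) (z := p) (w := t)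
    (by norm_num; linarith only [ua1]) (by norm_num; linarith only [ua2]) (by norm_num; linarith only [ua3]) (by norm_num; linarith only [ua4]) (by norm_num; linarith only [ua5]) (by norm_num; linarith only [ua6]) (by norm_num; linarith only [ua7]) (by norm_num; linarith only [ua8])
  by_contra hc
  push Not at hc
  obtain ⟨hc0, hc1⟩ := hc
  simp only [List.mem_cons, List.not_mem_nil, or_false] at hf
  rcases hf with rfl | rfl | rfl | rfl | rfl
  · simp only [S_val, F_val, N_val, ui_val, EE.pa, EE.pb, EE.pc, EE.kT, nyy, EE.x, EE.T, EE.p, EE.t, EE.nt, EE.v, E.val, NumI.lkR] at hp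
    push_cast at hp
    linarith only [hc0, hp]
  · simp only [S_val, F_val, N_val, ui_val, EE.pa, EE.pb, EE.pc, EE.kT, nyy, EE.x, EE.T, EE.p, EE.t, EE.nt, EE.v, E.val, NumI.lkR] at hp
    push_cast at hp
    linarith only [hc1, hp]
  · simp only [S_val, F_val, N_val, ui_val, EE.pa, EE.pb, EE.pc, EE.kT, nyy, EE.x, EE.T, EE.p, EE.t, EE.nt, EE.v, E.val, NumI.lkR] at hp
    push_cast at hp
    linarith only [ua9, hp]
  · simp only [S_val, F_val, N_val, ui_val, EE.pa, EE.pb, EE.pc, EE.kT, nyy, EE.x, EE.T, EE.p, EE.t, EE.nt, EE.v, E.val, NumI.lkR] at hp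
    push_cast at hp
    linarith only [ua10, hp]
  · simp only [S_val, F_val, N_val, ui_val, EE.pa, EE.pb, EE.pc, EE.kT, nyy, EE.x, EE.T, EE.p, EE.t, EE.nt, EE.v, E.val, NumI.lkR] at hp
    push_cast at hp
    linarith only [ua11, hp]

theorem far3z_Zb {x T p t : ℝ} (ua1 : 4000 / 10000 ≤ x) (ua2 : x ≤ 5000 / 10000) (ua3 : -(220 / 10000) ≤ T) (ua4 : T ≤ 570 / 10000) (ua5 : 1000 / 10000 ≤ p) (ua6 : p ≤ 3300 / 10000) (ua7 : -(920 / 10000) ≤ t) (ua8 : t ≤ 0 / 10000) (ua9 : T - t ≤ 930 / 10000) (ua10 : 4300 / 10000 ≤ x + p) (ua11 : x + p ≤ 7300 / 10000) :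
    rS (10 / 3) x T p t < 0 ∨ rF (10 / 3) (x + p + 7 / 100) (570 / 10000) x T p t < 0 := by
  have h : chkT [sub (q 0 1) (S 10 3), sub (q 0 1) (F 10 3 pb (q 570 10000)), sub (sub EE.T EE.t) (q 930 10000), sub (q 4300 10000) EE.v, sub EE.v (q 7300 10000)] 30
    1670958618817820238659045881671645400195953685365773337791094609814973185049241193946590413281673214915186557517070921902915499667408419372789043955303008173051699432492023444646507119697769014325293656323770187478423466587610569417378448650166837480134361160071796051247779679284012777060213948463927319967232839351059893832706575217948221403293860583369081343883665900927001999933346216181256689828869511300695606475685289885857151031848411426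
    [NumI.V.of 10000 4000 5000, NumI.V.of 10000 (-220) 570, NumI.V.of 10000 1000 3300, NumI.V.of 10000 (-920) 0] = true := by
    decide +kernel
  obtain ⟨f, hf, hp⟩ := chkT4 h (by norm_num) (x := x) (y := T) (z := p) (w := t)
    (by norm_num; linarith only [ua1]) (by norm_num; linarith only [ua2]) (by norm_num; linarith only [ua3]) (by norm_num; linarith only [ua4]) (by norm_num; linarith only [ua5]) (by norm_num; linarith only [ua6]) (by norm_num; linarith only [ua7]) (by norm_num; linarith only [ua8])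
  by_contra hc
  push Not at hc
  obtain ⟨hc0, hc1⟩ := hc
  simp only [List.mem_cons, List.not_mem_nil, or_false] at hf
  rcases hf with rfl | rfl | rfl | rfl | rfl
  · simp only [S_val, F_val, N_val, ui_val, EE.pa, EE.pb, EE.pc, EE.kT, nyy, EE.x, EE.T, EE.p, EE.t, EE.nt, EE.v, E.val, NumI.lkR] at hp
    push_cast at hp
    linarith only [hc0, hp]
  · simp only [S_val, F_val, N_val, ui_val, EE.pa, EE.pb, EE.pc, EE.kT, nyy, EE.x, EE.T, EE.p, EE.t, EE.nt, EE.v, E.val, NumI.lkR] at hp
    push_cast at hp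
    linarith only [hc1, hp]
  · simp only [S_val, F_val, N_val, ui_val, EE.pa, EE.pb, EE.pc, EE.kT, nyy, EE.x, EE.T, EE.p, EE.t, EE.nt, EE.v, E.val, NumI.lkR] at hp
    push_cast at hp
    linarith only [ua9, hp]
  · simp only [S_val, F_val, N_val, ui_val, EE.pa, EE.pb, EE.pc, EE.kT, nyy, EE.x, EE.T, EE.p, EE.t, EE.nt, EE.v, E.val, NumI.lkR] at hp
    push_cast at hp
    linarith only [ua1, ua5, hp]
  · simp only [S_val, F_val, N_val, ui_val, EE.pa, EE.pb, EE.pc, EE.kT, nyy, EE.x, EE.T, EE.p, EE.t, EE.nt, EE.v, E.val, NumI.lkR] at hp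
    push_cast at hp
    linarith only [ua11, hp]

theorem far3z_Zc {x T p t : ℝ} (ua1 : 4000 / 10000 ≤ x) (ua2 : x ≤ 5000 / 10000) (ua3 : -(220 / 10000) ≤ T) (ua4 : T ≤ 570 / 10000) (ua5 : 2300 / 10000 ≤ p) (ua6 : p ≤ 3500 / 10000) (ua7 : -(920 / 10000) ≤ t) (ua8 : t ≤ 0 / 10000) (ua9 : T - t ≤ 930 / 10000) (ua10 : 7300 / 10000 ≤ x + p) (ua11 : x + p ≤ 7500 / 10000) :
    rS (10 / 3) x T p t < 0 ∨ rF (10 / 3) (80 / 100) (570 / 10000) x T p t < 0 := by
  have h : chkT [sub (q 0 1) (S 10 3), sub (q 0 1) (F 10 3 pc (q 570 10000)), sub (sub EE.T EE.t) (q 930 10000), sub (q 7300 10000) EE.v, sub EE.v (q 7500 10000)] 30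
    15881183165369506929542082475327633443131775098861321873982123476937453157921601401663143600860487915683908500770265542571726083622597462207378571494793392029566549052627360251598628051675236882308737473687377959122636139530899616205482777559471680113108377208273474738832849513436599598348237076192825017198993073623929390713931797367566210900586025174690885128983402568657474306
    [NumI.V.of 10000 4000 5000, NumI.V.of 10000 (-220) 570, NumI.V.of 10000 2300 3500, NumI.V.of 10000 (-920) 0] = true := by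
    decide +kernel
  obtain ⟨f, hf, hp⟩ := chkT4 h (by norm_num) (x := x) (y := T) (z := p) (w := t)
    (by norm_num; linarith only [ua1]) (by norm_num; linarith only [ua2]) (by norm_num; linarith only [ua3]) (by norm_num; linarith only [ua4]) (by norm_num; linarith only [ua5]) (by norm_num; linarith only [ua6]) (by norm_num; linarith only [ua7]) (by norm_num; linarith only [ua8])
  by_contra hc
  push Not at hc
  obtain ⟨hc0, hc1⟩ := hc
  simp only [List.mem_cons, List.not_mem_nil, or_false] at hf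
  rcases hf with rfl | rfl | rfl | rfl | rfl
  · simp only [S_val, F_val, N_val, ui_val, EE.pa, EE.pb, EE.pc, EE.kT, nyy, EE.x, EE.T, EE.p, EE.t, EE.nt, EE.v, E.val, NumI.lkR] at hp
    push_cast at hp
    linarith only [hc0, hp]
  · simp only [S_val, F_val, N_val, ui_val, EE.pa, EE.pb, EE.pc, EE.kT, nyy, EE.x, EE.T, EE.p, EE.t, EE.nt, EE.v, E.val, NumI.lkR] at hp
    push_cast at hp
    linarith only [hc1, hp]
  · simp only [S_val, F_val, N_val, ui_val, EE.pa, EE.pb, EE.pc, EE.kT, nyy, EE.x, EE.T, EE.p, EE.t, EE.nt, EE.v, E.val, NumI.lkR] at hp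
    push_cast at hp
    linarith only [ua9, hp]
  · simp only [S_val, F_val, N_val, ui_val, EE.pa, EE.pb, EE.pc, EE.kT, nyy, EE.x, EE.T, EE.p, EE.t, EE.nt, EE.v, E.val, NumI.lkR] at hp
    push_cast at hp
    linarith only [ua10, hp]
  · simp only [S_val, F_val, N_val, ui_val, EE.pa, EE.pb, EE.pc, EE.kT, nyy, EE.x, EE.T, EE.p, EE.t, EE.nt, EE.v, E.val, NumI.lkR] at hp
    push_cast at hp
    linarith only [ua11, hp]

end S0R

end Pool.Agent.Work.MP_b30479_gt.G2
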