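import Pool.Agent.Work.MP_b30479_gt.G2.S0RD
import Pool.Agent.Work.MP_b30479_gt.G2.S0RE
import Pool.Agent.Work.MP_b30479_gt.G2.S0RF

/-!
# The own side of an interior `3` at slot `0`, right ramp: the high branch, inner variable flat

`u` the hinge, `v` the inner variable, `w` the hinge in the slot `2`.
-/

set_option linter.unusedVariables false

namespace Pool.Agent.Work.MP_b30479_gt.G2

open VOL NumU

namespace S0R

/-- left neighbour `2`, `v.re ≥ u.re + 1/10` -/
theorem far_two {T t : ℝ} {u v w : ℂ} (hx : 36 / 100 ≤ u.re) (hx' : u.re ≤ 1 / 2)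
    (hu : u.im = 100 / 27 * T * (6 / 10 - u.re)) (hT : -(57 / 1000) ≤ T) (hT' : T ≤ 5 / 1000)
    (hK : K1 T t w ∨ Ko T t w ∨ KZ T t w) (hv : v.im = t) (hp : 1 / 10 ≤ v.re - u.re)
    (hv' : v.re ≤ 75 / 100) (hS : 0 ≤ SM 0 u v w) (hr : SinNe (v + w)) :
    S3 1 (-(100 / 27 * T)) u v < 125 / 1000 + Real.pi * (1 / 2) * (100 / 27 * T) := by
  have e : u.re + (v.re - u.re) = v.re := by ring
  rcases hK with hK | hK | hK
  · obtain ⟨g1, g2, g3⟩ := H_all (τ := -98 / 10000) hK hv hv' hr (by norm_num) (by norm_num)
      (by norm_num)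
    obtain ⟨a1, a2, a3, -, -, -, -, -⟩ := hK
    rcases le_total v.re (43 / 100) with h | h
    · exfalso
      linarith only [hx, hp, h]
    rcases le_total v.re (73 / 100) with h' | h'
    · have g := g2 h h'
      rw [← e] at g
      exact far_core hu (lt_of_lt_of_le (by norm_num) hp) (by linarith only [hx, hv']) (lt_of_lt_of_le (by norm_num) hx) (lt_of_le_of_lt hx' (by norm_num)) hv hS g
        (far2_1b (le_trans (by norm_num) hx) (le_trans hx' (by norm_num)) (le_trans (by norm_num) hT) (le_trans hT' (by norm_num)) (le_trans (by norm_num) hp) (by linarith only [hx, h']) (le_trans (by norm_num) a1) (le_trans a2 (by norm_num)) (le_trans a3 (by norm_num)) (by linarith only [hx, hp]) (by linarith only [h']))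
    · exact far_core hu (lt_of_lt_of_le (by norm_num) hp) (by linarith only [hx, hv']) (lt_of_lt_of_le (by norm_num) hx) (lt_of_le_of_lt hx' (by norm_num)) hv hS (g3 h')
        (far2_1c (le_trans (by norm_num) hx) (le_trans hx' (by norm_num)) (le_trans (by norm_num) hT) (le_trans hT' (by norm_num)) (by linarith only [hx', h']) (by linarith only [hx, hv']) (le_trans (by norm_num) a1) (le_trans a2 (by norm_num)) (le_trans a3 (by norm_num)) (by linarith only [h']) (by linarith only [hv']))
  · obtain ⟨g1, g2, g3⟩ := H_all (τ := 220 / 10000) hK hv hv' hr (by norm_num) (by norm_num)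
      (by norm_num)
    obtain ⟨a1, a2, a3, -, -, -, -, -⟩ := hK
    rcases le_total v.re (43 / 100) with h | h
    · exfalso
      linarith only [hx, hp, h]
    rcases le_total v.re (73 / 100) with h' | h'
    · have g := g2 h h'
      rw [← e] at g
      exact far_core hu (lt_of_lt_of_le (by norm_num) hp) (by linarith only [hx, hv']) (lt_of_lt_of_le (by norm_num) hx) (lt_of_le_of_lt hx' (by norm_num)) hv hS g
        (far2_ob (le_trans (by norm_num) hx) (le_trans hx' (by norm_num)) (le_trans (by norm_num) hT) (le_trans hT' (by norm_num)) (le_trans (by norm_num) hp) (by linarith only [hx, h']) (le_trans (by norm_num) a1) (le_trans a2 (by norm_num)) (le_trans a3 (by norm_num)) (by linarith only [hx, hp]) (by linarith only [h']))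
    · exact far_core hu (lt_of_lt_of_le (by norm_num) hp) (by linarith only [hx, hv']) (lt_of_lt_of_le (by norm_num) hx) (lt_of_le_of_lt hx' (by norm_num)) hv hS (g3 h')
        (far2_oc (le_trans (by norm_num) hx) (le_trans hx' (by norm_num)) (le_trans (by norm_num) hT) (le_trans hT' (by norm_num)) (by linarith only [hx', h']) (by linarith only [hx, hv']) (le_trans (by norm_num) a1) (le_trans a2 (by norm_num)) (le_trans a3 (by norm_num)) (by linarith only [h']) (by linarith only [hv']))
  · obtain ⟨g1, g2, g3⟩ := H_all (τ := 570 / 10000) hK hv hv' hr (by norm_num) (by norm_num)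
      (by norm_num)
    obtain ⟨a1, a2, a3, -, -, -, -, -⟩ := hK
    rcases le_total v.re (43 / 100) with h | h
    · exfalso
      linarith only [hx, hp, h]
    rcases le_total v.re (73 / 100) with h' | h'
    · have g := g2 h h'
      rw [← e] at g
      exact far_core hu (lt_of_lt_of_le (by norm_num) hp) (by linarith only [hx, hv']) (lt_of_lt_of_le (by norm_num) hx) (lt_of_le_of_lt hx' (by norm_num)) hv hS g
        (far2_Zb (le_trans (by norm_num) hx) (le_trans hx' (by norm_num)) (le_trans (by norm_num) hT) (le_trans hT' (by norm_num)) (le_trans (by norm_num) hp) (by linarith only [hx, h']) (le_trans (by norm_num) a1) (le_trans a2 (by norm_num)) (le_trans a3 (by norm_num)) (by linarith only [hx, hp]) (by linarith only [h']))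
    · exact far_core hu (lt_of_lt_of_le (by norm_num) hp) (by linarith only [hx, hv']) (lt_of_lt_of_le (by norm_num) hx) (lt_of_le_of_lt hx' (by norm_num)) hv hS (g3 h')
        (far2_Zc (le_trans (by norm_num) hx) (le_trans hx' (by norm_num)) (le_trans (by norm_num) hT) (le_trans hT' (by norm_num)) (by linarith only [hx', h']) (by linarith only [hx, hv']) (le_trans (by norm_num) a1) (le_trans a2 (by norm_num)) (le_trans a3 (by norm_num)) (by linarith only [h']) (by linarith only [hv']))

/-- left neighbour `2e`, `v.re ≥ u.re + 1/10` -/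
theorem far_twoE {T t : ℝ} {u v w : ℂ} (hx : 30 / 100 ≤ u.re) (hx' : u.re ≤ 1 / 2)
    (hu : u.im = 10 / 3 * T * (6 / 10 - u.re)) (hT : -(98 / 1000) ≤ T) (hT' : T ≤ -(76 / 1000))
    (hK : E1 T t w ∨ Eo T t w ∨ EZ T t w) (hv : v.im = t) (hp : 1 / 10 ≤ v.re - u.re)
    (hv' : v.re ≤ 75 / 100) (hS : 0 ≤ SM 0 u v w) (hr : SinNe (v + w)) :
    S3 1 (-(10 / 3 * T)) u v < 57 / 100 + 5 / 2 * (10 / 3 * T) := by
  have e : u.re + (v.re - u.re) = v.re := by ring
  rcases hK with hK | hK | hK
  · obtain ⟨g1, g2, g3⟩ := H_all (τ := -98 / 10000) hK hv hv' hr (by norm_num) (by norm_num)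
      (by norm_num)
    obtain ⟨a1, a2, a3, -, -, -, -, -⟩ := hK
    rcases le_total v.re (43 / 100) with h | h
    · exact far_core hu (lt_of_lt_of_le (by norm_num) hp) (by linarith only [hx, hv']) (lt_of_lt_of_le (by norm_num) hx) (lt_of_le_of_lt hx' (by norm_num)) hv hS g1
        (e2_1a (le_trans (by norm_num) hx) (le_trans hx' (by norm_num)) (le_trans (by norm_num) hT) (le_trans hT' (by norm_num)) (le_trans (by norm_num) hp) (by linarith only [hx, h]) (le_trans (by norm_num) a1) (le_trans a2 (by norm_num)) (by linarith only [h]))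
    rcases le_total v.re (73 / 100) with h' | h'
    · have g := g2 h h'
      rw [← e] at g
      exact far_core hu (lt_of_lt_of_le (by norm_num) hp) (by linarith only [hx, hv']) (lt_of_lt_of_le (by norm_num) hx) (lt_of_le_of_lt hx' (by norm_num)) hv hS g
        (e2_1b (le_trans (by norm_num) hx) (le_trans hx' (by norm_num)) (le_trans (by norm_num) hT) (le_trans hT' (by norm_num)) (le_trans (by norm_num) hp) (by linarith only [hx, h']) (le_trans (by norm_num) a1) (le_trans a2 (by norm_num)) (by linarith only [h]) (by linarith only [h']))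
    · exact far_core hu (lt_of_lt_of_le (by norm_num) hp) (by linarith only [hx, hv']) (lt_of_lt_of_le (by norm_num) hx) (lt_of_le_of_lt hx' (by norm_num)) hv hS (g3 h')
        (e2_1c (le_trans (by norm_num) hx) (le_trans hx' (by norm_num)) (le_trans (by norm_num) hT) (le_trans hT' (by norm_num)) (by linarith only [hx', h']) (by linarith only [hx, hv']) (le_trans (by norm_num) a1) (le_trans a2 (by norm_num)) (by linarith only [h']) (by linarith only [hv']))
  · obtain ⟨g1, g2, g3⟩ := H_all (τ := 220 / 10000) hK hv hv' hr (by norm_num) (by norm_num)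
      (by norm_num)
    obtain ⟨a1, a2, a3, -, -, -, -, -⟩ := hK
    rcases le_total v.re (43 / 100) with h | h
    · exact far_core hu (lt_of_lt_of_le (by norm_num) hp) (by linarith only [hx, hv']) (lt_of_lt_of_le (by norm_num) hx) (lt_of_le_of_lt hx' (by norm_num)) hv hS g1
        (e2_oa (le_trans (by norm_num) hx) (le_trans hx' (by norm_num)) (le_trans (by norm_num) hT) (le_trans hT' (by norm_num)) (le_trans (by norm_num) hp) (by linarith only [hx, h]) (le_trans (by norm_num) a1) (le_trans a2 (by norm_num)) (by linarith only [h]))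
    rcases le_total v.re (73 / 100) with h' | h'
    · have g := g2 h h'
      rw [← e] at g
      exact far_core hu (lt_of_lt_of_le (by norm_num) hp) (by linarith only [hx, hv']) (lt_of_lt_of_le (by norm_num) hx) (lt_of_le_of_lt hx' (by norm_num)) hv hS g
        (e2_ob (le_trans (by norm_num) hx) (le_trans hx' (by norm_num)) (le_trans (by norm_num) hT) (le_trans hT' (by norm_num)) (le_trans (by norm_num) hp) (by linarith only [hx, h']) (le_trans (by norm_num) a1) (le_trans a2 (by norm_num)) (by linarith only [h]) (by linarith only [h']))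
    · exact far_core hu (lt_of_lt_of_le (by norm_num) hp) (by linarith only [hx, hv']) (lt_of_lt_of_le (by norm_num) hx) (lt_of_le_of_lt hx' (by norm_num)) hv hS (g3 h')
        (e2_oc (le_trans (by norm_num) hx) (le_trans hx' (by norm_num)) (le_trans (by norm_num) hT) (le_trans hT' (by norm_num)) (by linarith only [hx', h']) (by linarith only [hx, hv']) (le_trans (by norm_num) a1) (le_trans a2 (by norm_num)) (by linarith only [h']) (by linarith only [hv']))
  · obtain ⟨g1, g2, g3⟩ := H_all (τ := 570 / 10000) hK hv hv' hr (by norm_num) (by norm_num)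
      (by norm_num)
    obtain ⟨a1, a2, a3, -, -, -, -, -⟩ := hK
    rcases le_total v.re (43 / 100) with h | h
    · exact far_core hu (lt_of_lt_of_le (by norm_num) hp) (by linarith only [hx, hv']) (lt_of_lt_of_le (by norm_num) hx) (lt_of_le_of_lt hx' (by norm_num)) hv hS g1
        (e2_Za (le_trans (by norm_num) hx) (le_trans hx' (by norm_num)) (le_trans (by norm_num) hT) (le_trans hT' (by norm_num)) (le_trans (by norm_num) hp) (by linarith only [hx, h]) (le_trans (by norm_num) a1) (le_trans a2 (by norm_num)) (by linarith only [h]))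
    rcases le_total v.re (73 / 100) with h' | h'
    · have g := g2 h h'
      rw [← e] at g
      exact far_core hu (lt_of_lt_of_le (by norm_num) hp) (by linarith only [hx, hv']) (lt_of_lt_of_le (by norm_num) hx) (lt_of_le_of_lt hx' (by norm_num)) hv hS g
        (e2_Zb (le_trans (by norm_num) hx) (le_trans hx' (by norm_num)) (le_trans (by norm_num) hT) (le_trans hT' (by norm_num)) (le_trans (by norm_num) hp) (by linarith only [hx, h']) (le_trans (by norm_num) a1) (le_trans a2 (by norm_num)) (by linarith only [h]) (by linarith only [h']))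
    · exact far_core hu (lt_of_lt_of_le (by norm_num) hp) (by linarith only [hx, hv']) (lt_of_lt_of_le (by norm_num) hx) (lt_of_le_of_lt hx' (by norm_num)) hv hS (g3 h')
        (e2_Zc (le_trans (by norm_num) hx) (le_trans hx' (by norm_num)) (le_trans (by norm_num) hT) (le_trans hT' (by norm_num)) (by linarith only [hx', h']) (by linarith only [hx, hv']) (le_trans (by norm_num) a1) (le_trans a2 (by norm_num)) (by linarith only [h']) (by linarith only [hv']))

/-- left neighbour `3`, `3e`, ring, `v.re ≥ u.re + 1/10`, `x` in `[.30, .40]` -/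
theorem far_3a {T t : ℝ} {u v w : ℂ} (hx : 30 / 100 ≤ u.re) (hx' : u.re ≤ 40 / 100)
    (hu : u.im = 10 / 3 * T * (6 / 10 - u.re)) (hT : -(28 / 1000) ≤ T) (hT' : T ≤ 57 / 1000)
    (hK : K1 T t w ∨ Ko T t w ∨ KZ T t w) (hv : v.im = t) (hp : 1 / 10 ≤ v.re - u.re)
    (hv' : v.re ≤ 75 / 100) (hS : 0 ≤ SM 0 u v w) (hr : SinNe (v + w)) :
    S3 1 (-(10 / 3 * T)) u v < 66 / 100 - 3 / 2 * u.re := by
  have e : u.re + (v.re - u.re) = v.re := by ring
  rcases hK with hK | hK | hK
  · obtain ⟨g1, g2, g3⟩ := H_all (τ := -98 / 10000) hK hv hv' hr (by norm_num) (by norm_num)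
      (by norm_num)
    obtain ⟨a1, a2, a3, -, -, -, -, -⟩ := hK
    rcases le_total v.re (43 / 100) with h | h
    · exact far_core hu (lt_of_lt_of_le (by norm_num) hp) (by linarith only [hx, hv']) (lt_of_lt_of_le (by norm_num) hx) (lt_of_le_of_lt hx' (by norm_num)) hv hS g1
        (far3a_1a (le_trans (by norm_num) hx) (le_trans hx' (by norm_num)) (le_trans (by norm_num) hT) (le_trans hT' (by norm_num)) (le_trans (by norm_num) hp) (by linarith only [hx, h]) (le_trans (by norm_num) a1) (le_trans a2 (by norm_num)) (le_trans a3 (by norm_num)) (by linarith only [h]))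
    rcases le_total v.re (73 / 100) with h' | h'
    · have g := g2 h h'
      rw [← e] at g
      exact far_core hu (lt_of_lt_of_le (by norm_num) hp) (by linarith only [hx, hv']) (lt_of_lt_of_le (by norm_num) hx) (lt_of_le_of_lt hx' (by norm_num)) hv hS g
        (far3a_1b (le_trans (by norm_num) hx) (le_trans hx' (by norm_num)) (le_trans (by norm_num) hT) (le_trans hT' (by norm_num)) (le_trans (by norm_num) hp) (by linarith only [hx, h']) (le_trans (by norm_num) a1) (le_trans a2 (by norm_num)) (le_trans a3 (by norm_num)) (by linarith only [h]) (by linarith only [h']))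
    · exact far_core hu (lt_of_lt_of_le (by norm_num) hp) (by linarith only [hx, hv']) (lt_of_lt_of_le (by norm_num) hx) (lt_of_le_of_lt hx' (by norm_num)) hv hS (g3 h')
        (far3a_1c (le_trans (by norm_num) hx) (le_trans hx' (by norm_num)) (le_trans (by norm_num) hT) (le_trans hT' (by norm_num)) (by linarith only [hx', h']) (by linarith only [hx, hv']) (le_trans (by norm_num) a1) (le_trans a2 (by norm_num)) (le_trans a3 (by norm_num)) (by linarith only [h']) (by linarith only [hv']))
  · obtain ⟨g1, g2, g3⟩ := H_all (τ := 220 / 10000) hK hv hv' hr (by norm_num) (by norm_num)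
      (by norm_num)
    obtain ⟨a1, a2, a3, -, -, -, -, -⟩ := hK
    rcases le_total v.re (43 / 100) with h | h
    · exact far_core hu (lt_of_lt_of_le (by norm_num) hp) (by linarith only [hx, hv']) (lt_of_lt_of_le (by norm_num) hx) (lt_of_le_of_lt hx' (by norm_num)) hv hS g1
        (far3a_oa (le_trans (by norm_num) hx) (le_trans hx' (by norm_num)) (le_trans (by norm_num) hT) (le_trans hT' (by norm_num)) (le_trans (by norm_num) hp) (by linarith only [hx, h]) (le_trans (by norm_num) a1) (le_trans a2 (by norm_num)) (le_trans a3 (by norm_num)) (by linarith only [h]))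
    rcases le_total v.re (73 / 100) with h' | h'
    · have g := g2 h h'
      rw [← e] at g
      exact far_core hu (lt_of_lt_of_le (by norm_num) hp) (by linarith only [hx, hv']) (lt_of_lt_of_le (by norm_num) hx) (lt_of_le_of_lt hx' (by norm_num)) hv hS g
        (far3a_ob (le_trans (by norm_num) hx) (le_trans hx' (by norm_num)) (le_trans (by norm_num) hT) (le_trans hT' (by norm_num)) (le_trans (by norm_num) hp) (by linarith only [hx, h']) (le_trans (by norm_num) a1) (le_trans a2 (by norm_num)) (le_trans a3 (by norm_num)) (by linarith only [h]) (by linarith only [h']))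
    · exact far_core hu (lt_of_lt_of_le (by norm_num) hp) (by linarith only [hx, hv']) (lt_of_lt_of_le (by norm_num) hx) (lt_of_le_of_lt hx' (by norm_num)) hv hS (g3 h')
        (far3a_oc (le_trans (by norm_num) hx) (le_trans hx' (by norm_num)) (le_trans (by norm_num) hT) (le_trans hT' (by norm_num)) (by linarith only [hx', h']) (by linarith only [hx, hv']) (le_trans (by norm_num) a1) (le_trans a2 (by norm_num)) (le_trans a3 (by norm_num)) (by linarith only [h']) (by linarith only [hv']))
  · obtain ⟨g1, g2, g3⟩ := H_all (τ := 570 / 10000) hK hv hv' hr (by norm_num) (by norm_num)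
      (by norm_num)
    obtain ⟨a1, a2, a3, -, -, -, -, -⟩ := hK
    rcases le_total v.re (43 / 100) with h | h
    · exact far_core hu (lt_of_lt_of_le (by norm_num) hp) (by linarith only [hx, hv']) (lt_of_lt_of_le (by norm_num) hx) (lt_of_le_of_lt hx' (by norm_num)) hv hS g1
        (far3a_Za (le_trans (by norm_num) hx) (le_trans hx' (by norm_num)) (le_trans (by norm_num) hT) (le_trans hT' (by norm_num)) (le_trans (by norm_num) hp) (by linarith only [hx, h]) (le_trans (by norm_num) a1) (le_trans a2 (by norm_num)) (le_trans a3 (by norm_num)) (by linarith only [h]))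
    rcases le_total v.re (73 / 100) with h' | h'
    · have g := g2 h h'
      rw [← e] at g
      exact far_core hu (lt_of_lt_of_le (by norm_num) hp) (by linarith only [hx, hv']) (lt_of_lt_of_le (by norm_num) hx) (lt_of_le_of_lt hx' (by norm_num)) hv hS g
        (far3a_Zb (le_trans (by norm_num) hx) (le_trans hx' (by norm_num)) (le_trans (by norm_num) hT) (le_trans hT' (by norm_num)) (le_trans (by norm_num) hp) (by linarith only [hx, h']) (le_trans (by norm_num) a1) (le_trans a2 (by norm_num)) (le_trans a3 (by norm_num)) (by linarith only [h]) (by linarith only [h']))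
    · exact far_core hu (lt_of_lt_of_le (by norm_num) hp) (by linarith only [hx, hv']) (lt_of_lt_of_le (by norm_num) hx) (lt_of_le_of_lt hx' (by norm_num)) hv hS (g3 h')
        (far3a_Zc (le_trans (by norm_num) hx) (le_trans hx' (by norm_num)) (le_trans (by norm_num) hT) (le_trans hT' (by norm_num)) (by linarith only [hx', h']) (by linarith only [hx, hv']) (le_trans (by norm_num) a1) (le_trans a2 (by norm_num)) (le_trans a3 (by norm_num)) (by linarith only [h']) (by linarith only [hv']))

/-- left neighbour `3e`, `v.re ≥ u.re + 1/10`, `x` in `[.40, .50]` -/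
theorem far_3e {T t : ℝ} {u v w : ℂ} (hx : 40 / 100 ≤ u.re) (hx' : u.re ≤ 1 / 2)
    (hu : u.im = 10 / 3 * T * (6 / 10 - u.re)) (hT : -(28 / 1000) ≤ T) (hT' : T ≤ -(5 / 1000))
    (hK : K1 T t w ∨ Ko T t w ∨ KZ T t w) (hv : v.im = t) (hp : 1 / 10 ≤ v.re - u.re)
    (hv' : v.re ≤ 75 / 100) (hS : 0 ≤ SM 0 u v w) (hr : SinNe (v + w)) :
    S3 1 (-(10 / 3 * T)) u v < -(35 / 1000) := by
  have e : u.re + (v.re - u.re) = v.re := by ring
  rcases hK with hK | hK | hK
  · obtain ⟨g1, g2, g3⟩ := H_all (τ := -98 / 10000) hK hv hv' hr (by norm_num) (by norm_num)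
      (by norm_num)
    obtain ⟨a1, a2, a3, -, -, -, -, -⟩ := hK
    rcases le_total v.re (43 / 100) with h | h
    · exfalso
      linarith only [hx, hp, h]
    rcases le_total v.re (73 / 100) with h' | h'
    · have g := g2 h h'
      rw [← e] at g
      exact far_core hu (lt_of_lt_of_le (by norm_num) hp) (by linarith only [hx, hv']) (lt_of_lt_of_le (by norm_num) hx) (lt_of_le_of_lt hx' (by norm_num)) hv hS g
        (far3e_1b (le_trans (by norm_num) hx) (le_trans hx' (by norm_num)) (le_trans (by norm_num) hT) (le_trans hT' (by norm_num)) (le_trans (by norm_num) hp) (by linarith only [hx, h']) (le_trans (by norm_num) a1) (le_trans a2 (by norm_num)) (le_trans a3 (by norm_num)) (by linarith only [hx, hp]) (by linarith only [h']))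
    · exact far_core hu (lt_of_lt_of_le (by norm_num) hp) (by linarith only [hx, hv']) (lt_of_lt_of_le (by norm_num) hx) (lt_of_le_of_lt hx' (by norm_num)) hv hS (g3 h')
        (far3e_1c (le_trans (by norm_num) hx) (le_trans hx' (by norm_num)) (le_trans (by norm_num) hT) (le_trans hT' (by norm_num)) (by linarith only [hx', h']) (by linarith only [hx, hv']) (le_trans (by norm_num) a1) (le_trans a2 (by norm_num)) (le_trans a3 (by norm_num)) (by linarith only [h']) (by linarith only [hv']))
  · obtain ⟨g1, g2, g3⟩ := H_all (τ := 220 / 10000) hK hv hv' hr (by norm_num) (by norm_num)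
      (by norm_num)
    obtain ⟨a1, a2, a3, -, -, -, -, -⟩ := hK
    rcases le_total v.re (43 / 100) with h | h
    · exfalso
      linarith only [hx, hp, h]
    rcases le_total v.re (73 / 100) with h' | h'
    · have g := g2 h h'
      rw [← e] at g
      exact far_core hu (lt_of_lt_of_le (by norm_num) hp) (by linarith only [hx, hv']) (lt_of_lt_of_le (by norm_num) hx) (lt_of_le_of_lt hx' (by norm_num)) hv hS g
        (far3e_ob (le_trans (by norm_num) hx) (le_trans hx' (by norm_num)) (le_trans (by norm_num) hT) (le_trans hT' (by norm_num)) (le_trans (by norm_num) hp) (by linarith only [hx, h']) (le_trans (by norm_num) a1) (le_trans a2 (by norm_num)) (by linarith only [hx, hp]) (by linarith only [h']))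
    · exact far_core hu (lt_of_lt_of_le (by norm_num) hp) (by linarith only [hx, hv']) (lt_of_lt_of_le (by norm_num) hx) (lt_of_le_of_lt hx' (by norm_num)) hv hS (g3 h')
        (far3e_oc (le_trans (by norm_num) hx) (le_trans hx' (by norm_num)) (le_trans (by norm_num) hT) (le_trans hT' (by norm_num)) (by linarith only [hx', h']) (by linarith only [hx, hv']) (le_trans (by norm_num) a1) (le_trans a2 (by norm_num)) (by linarith only [h']) (by linarith only [hv']))
  · obtain ⟨g1, g2, g3⟩ := H_all (τ := 570 / 10000) hK hv hv' hr (by norm_num) (by norm_num)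
      (by norm_num)
    obtain ⟨a1, a2, a3, -, -, -, -, -⟩ := hK
    rcases le_total v.re (43 / 100) with h | h
    · exfalso
      linarith only [hx, hp, h]
    rcases le_total v.re (73 / 100) with h' | h'
    · have g := g2 h h'
      rw [← e] at g
      exact far_core hu (lt_of_lt_of_le (by norm_num) hp) (by linarith only [hx, hv']) (lt_of_lt_of_le (by norm_num) hx) (lt_of_le_of_lt hx' (by norm_num)) hv hS g
        (far3e_Zb (le_trans (by norm_num) hx) (le_trans hx' (by norm_num)) (le_trans (by norm_num) hT) (le_trans hT' (by norm_num)) (le_trans (by norm_num) hp) (by linarith only [hx, h']) (le_trans (by norm_num) a1) (le_trans a2 (by norm_num)) (by linarith only [hx, hp]) (by linarith only [h']))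
    · exact far_core hu (lt_of_lt_of_le (by norm_num) hp) (by linarith only [hx, hv']) (lt_of_lt_of_le (by norm_num) hx) (lt_of_le_of_lt hx' (by norm_num)) hv hS (g3 h')
        (far3e_Zc (le_trans (by norm_num) hx) (le_trans hx' (by norm_num)) (le_trans (by norm_num) hT) (le_trans hT' (by norm_num)) (by linarith only [hx', h']) (by linarith only [hx, hv']) (le_trans (by norm_num) a1) (le_trans a2 (by norm_num)) (by linarith only [h']) (by linarith only [hv']))

/-- left neighbour `3`, ring, `v.re ≥ u.re + 1/10`, `x` in `[.40, .50]` -/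
theorem far_3z {T t : ℝ} {u v w : ℂ} (hx : 40 / 100 ≤ u.re) (hx' : u.re ≤ 1 / 2)
    (hu : u.im = 10 / 3 * T * (6 / 10 - u.re)) (hT : -(22 / 1000) ≤ T) (hT' : T ≤ 57 / 1000)
    (hK : K1 T t w ∨ Ko T t w ∨ KZ T t w) (hv : v.im = t) (hp : 1 / 10 ≤ v.re - u.re)
    (hv' : v.re ≤ 75 / 100) (hS : 0 ≤ SM 0 u v w) (hr : SinNe (v + w)) :
    S3 1 (-(10 / 3 * T)) u v < 0 := by
  have e : u.re + (v.re - u.re) = v.re := by ring
  rcases hK with hK | hK | hK
  · obtain ⟨g1, g2, g3⟩ := H_all (τ := -98 / 10000) hK hv hv' hr (by norm_num) (by norm_num)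
      (by norm_num)
    obtain ⟨a1, a2, a3, -, -, -, -, -⟩ := hK
    rcases le_total v.re (43 / 100) with h | h
    · exfalso
      linarith only [hx, hp, h]
    rcases le_total v.re (73 / 100) with h' | h'
    · have g := g2 h h'
      rw [← e] at g
      exact far_core hu (lt_of_lt_of_le (by norm_num) hp) (by linarith only [hx, hv']) (lt_of_lt_of_le (by norm_num) hx) (lt_of_le_of_lt hx' (by norm_num)) hv hS g
        (far3z_1b (le_trans (by norm_num) hx) (le_trans hx' (by norm_num)) (le_trans (by norm_num) hT) (le_trans hT' (by norm_num)) (le_trans (by norm_num) hp) (by linarith only [hx, h']) (le_trans (by norm_num) a1) (le_trans a2 (by norm_num)) (le_trans a3 (by norm_num)) (by linarith only [hx, hp]) (by linarith only [h']))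
    · exact far_core hu (lt_of_lt_of_le (by norm_num) hp) (by linarith only [hx, hv']) (lt_of_lt_of_le (by norm_num) hx) (lt_of_le_of_lt hx' (by norm_num)) hv hS (g3 h')
        (far3z_1c (le_trans (by norm_num) hx) (le_trans hx' (by norm_num)) (le_trans (by norm_num) hT) (le_trans hT' (by norm_num)) (by linarith only [hx', h']) (by linarith only [hx, hv']) (le_trans (by norm_num) a1) (le_trans a2 (by norm_num)) (le_trans a3 (by norm_num)) (by linarith only [h']) (by linarith only [hv']))
  · obtain ⟨g1, g2, g3⟩ := H_all (τ := 220 / 10000) hK hv hv' hr (by norm_num) (by norm_num)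
      (by norm_num)
    obtain ⟨a1, a2, a3, -, -, -, -, -⟩ := hK
    rcases le_total v.re (43 / 100) with h | h
    · exfalso
      linarith only [hx, hp, h]
    rcases le_total v.re (73 / 100) with h' | h'
    · have g := g2 h h'
      rw [← e] at g
      exact far_core hu (lt_of_lt_of_le (by norm_num) hp) (by linarith only [hx, hv']) (lt_of_lt_of_le (by norm_num) hx) (lt_of_le_of_lt hx' (by norm_num)) hv hS g
        (far3z_ob (le_trans (by norm_num) hx) (le_trans hx' (by norm_num)) (le_trans (by norm_num) hT) (le_trans hT' (by norm_num)) (le_trans (by norm_num) hp) (by linarith only [hx, h']) (le_trans (by norm_num) a1) (le_trans a2 (by norm_num)) (le_trans a3 (by norm_num)) (by linarith only [hx, hp]) (by linarith only [h']))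
    · exact far_core hu (lt_of_lt_of_le (by norm_num) hp) (by linarith only [hx, hv']) (lt_of_lt_of_le (by norm_num) hx) (lt_of_le_of_lt hx' (by norm_num)) hv hS (g3 h')
        (far3z_oc (le_trans (by norm_num) hx) (le_trans hx' (by norm_num)) (le_trans (by norm_num) hT) (le_trans hT' (by norm_num)) (by linarith only [hx', h']) (by linarith only [hx, hv']) (le_trans (by norm_num) a1) (le_trans a2 (by norm_num)) (le_trans a3 (by norm_num)) (by linarith only [h']) (by linarith only [hv']))
  · obtain ⟨g1, g2, g3⟩ := H_all (τ := 570 / 10000) hK hv hv' hr (by norm_num) (by norm_num)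
      (by norm_num)
    obtain ⟨a1, a2, a3, -, -, -, -, -⟩ := hK
    rcases le_total v.re (43 / 100) with h | h
    · exfalso
      linarith only [hx, hp, h]
    rcases le_total v.re (73 / 100) with h' | h'
    · have g := g2 h h'
      rw [← e] at g
      exact far_core hu (lt_of_lt_of_le (by norm_num) hp) (by linarith only [hx, hv']) (lt_of_lt_of_le (by norm_num) hx) (lt_of_le_of_lt hx' (by norm_num)) hv hS g
        (far3z_Zb (le_trans (by norm_num) hx) (le_trans hx' (by norm_num)) (le_trans (by norm_num) hT) (le_trans hT' (by norm_num)) (le_trans (by norm_num) hp) (by linarith only [hx, h']) (le_trans (by norm_num) a1) (le_trans a2 (by norm_num)) (le_trans a3 (by norm_num)) (by linarith only [hx, hp]) (by linarith only [h']))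
    · exact far_core hu (lt_of_lt_of_le (by norm_num) hp) (by linarith only [hx, hv']) (lt_of_lt_of_le (by norm_num) hx) (lt_of_le_of_lt hx' (by norm_num)) hv hS (g3 h')
        (far3z_Zc (le_trans (by norm_num) hx) (le_trans hx' (by norm_num)) (le_trans (by norm_num) hT) (le_trans hT' (by norm_num)) (by linarith only [hx', h']) (by linarith only [hx, hv']) (le_trans (by norm_num) a1) (le_trans a2 (by norm_num)) (le_trans a3 (by norm_num)) (by linarith only [h']) (by linarith only [hv']))

/-! ### near `v = u` -/

theorem near_two {T t : ℝ} {u v : ℂ} (hx : 36 / 100 ≤ u.re) (hx' : u.re ≤ 1 / 2)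
    (hu : u.im = 100 / 27 * T * (6 / 10 - u.re)) (hT : -(57 / 1000) ≤ T) (hT' : T ≤ 5 / 1000)
    (ht : -(114 / 1000) ≤ t) (ht' : t ≤ 5 / 1000) (hv : v.im = t)
    (hp : -(9 / 100) ≤ v.re - u.re) (hp' : v.re - u.re ≤ 1 / 10) (hr : SinNe (v - u)) :
    S3 1 (-(100 / 27 * T)) u v < 125 / 1000 + Real.pi * (1 / 2) * (100 / 27 * T) := by
  rcases le_total T 0 with hT0 | hT0
  · rcases le_total 0 (v.re - u.re) with h | h
    · exact near_le (by norm_num) hT0 hu (abs_le.2 ⟨by linarith only [h], by linarith only [hp']⟩) (by norm_num)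
        (lt_of_lt_of_le (by norm_num) hx) (lt_of_le_of_lt hx' (by norm_num)) hv hr ((YY_le_half (by rw [Complex.sub_re]; linarith only [h])
          (by rw [Complex.sub_re]; linarith only [hp'])).trans_eq (by ring)) (by linarith only [h])
        (n2b (le_trans (by norm_num) hx) (le_trans hx' (by norm_num)) (le_trans (by norm_num) hT) (le_trans hT0 (by norm_num)) (le_trans (by norm_num) ht) (le_trans ht' (by norm_num)))
    · refine near_le (κ := Real.pi + NumI.lnB (900 / 10000) (t - rui (100 / 27) u.re T))
        (by norm_num) hT0 hu (abs_le.2 ⟨by linarith only [hp], by linarith only [h]⟩) (by norm_num)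
        (lt_of_lt_of_le (by norm_num) hx) (lt_of_le_of_lt hx' (by norm_num)) hv hr ?_ (by linarith only [hp]) (n2a (le_trans (by norm_num) hx) (le_trans hx' (by norm_num)) (le_trans (by norm_num) hT) (le_trans hT0 (by norm_num)) (le_trans (by norm_num) ht) (le_trans ht' (by norm_num)))
      have := YY_le_lnB (u := v - u) (q := 900 / 10000) (abs_le.2 ⟨by rw [Complex.sub_re]; linarith only [hp],
        by rw [Complex.sub_re]; linarith only [h]⟩) (by norm_num) (by norm_num)
      rwa [Complex.sub_im, hv, hu] at this
  · exact near_ge (by norm_num) hT0 hu (abs_le.2 ⟨by linarith only [hp], by linarith only [hp']⟩) (by norm_num)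
      (lt_of_lt_of_le (by norm_num) hx) (lt_of_le_of_lt hx' (by norm_num)) hv hr (YY_ge_neg (by rw [Complex.sub_re]; linarith only [hp])
        (by rw [Complex.sub_re]; linarith only [hp'])) (by linarith only [hp']) (n2c (le_trans (by norm_num) hx) (le_trans hx' (by norm_num)) (le_trans (by norm_num) hT0) (le_trans hT' (by norm_num)) (le_trans (by norm_num) ht) (le_trans ht' (by norm_num)))

theorem near_twoE {T t : ℝ} {u v : ℂ} (hx : 30 / 100 ≤ u.re) (hx' : u.re ≤ 1 / 2)
    (hu : u.im = 10 / 3 * T * (6 / 10 - u.re)) (hT : -(98 / 1000) ≤ T) (hT' : T ≤ -(76 / 1000))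
    (ht : -(123 / 1000) ≤ t) (ht' : t ≤ -(64 / 1000)) (hv : v.im = t)
    (hp : -(7 / 100) ≤ v.re - u.re) (hp' : v.re - u.re ≤ 1 / 10) (hr : SinNe (v - u)) :
    S3 1 (-(10 / 3 * T)) u v < 57 / 100 + 5 / 2 * (10 / 3 * T) := by
  have hT0 : T ≤ 0 := by linarith only [hT']
  have e : t - rui (10 / 3) u.re T = (v - u).im := by
    rw [Complex.sub_im, hv, hu]
    rfl
  rcases le_total 0 (v.re - u.re) with h | h
  · exact near_le (by norm_num) hT0 hu (abs_le.2 ⟨by linarith only [h], by linarith only [hp']⟩) (by norm_num)
      (lt_of_lt_of_le (by norm_num) hx) (lt_of_le_of_lt hx' (by norm_num)) hv hr ((YY_le_half (by rw [Complex.sub_re]; linarith only [h])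
        (by rw [Complex.sub_re]; linarith only [hp'])).trans_eq (by ring)) (by linarith only [h])
      (n2eb (le_trans (by norm_num) hx) (le_trans hx' (by norm_num)) (le_trans (by norm_num) hT) (le_trans hT' (by norm_num)) (le_trans (by norm_num) ht) (le_trans ht' (by norm_num)))
  · rcases le_total (t - rui (10 / 3) u.re T) 0 with hy | hy
    · refine near_le (κ := Real.pi + NumI.lnB (700 / 10000) (t - rui (10 / 3) u.re T))
        (by norm_num) hT0 hu (abs_le.2 ⟨by linarith only [hp], by linarith only [h]⟩) (by norm_num)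
        (lt_of_lt_of_le (by norm_num) hx) (lt_of_le_of_lt hx' (by norm_num)) hv hr ?_ (by linarith only [hp]) (n2ea (le_trans (by norm_num) hx) (le_trans hx' (by norm_num)) (le_trans (by norm_num) hT) (le_trans hT' (by norm_num)) (le_trans (by norm_num) ht) (le_trans ht' (by norm_num)) hy)
      have := YY_le_lnB (u := v - u) (q := 700 / 10000) (abs_le.2 ⟨by rw [Complex.sub_re]; linarith only [hp],
        by rw [Complex.sub_re]; linarith only [h]⟩) (by norm_num) (by norm_num)
      rwa [Complex.sub_im, hv, hu] at this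
    · exact near_le (by norm_num) hT0 hu (abs_le.2 ⟨by linarith only [hp], by linarith only [h]⟩) (by norm_num)
        (lt_of_lt_of_le (by norm_num) hx) (lt_of_le_of_lt hx' (by norm_num)) hv hr (YY_np (by rw [← e]; exact hy)
          (by rw [Complex.sub_re]; linarith only [hp'])) (by linarith only [hp]) (n2ez (le_trans (by norm_num) hx) (le_trans hx' (by norm_num)) (le_trans (by norm_num) hT) (le_trans hT' (by norm_num)) (le_trans (by norm_num) ht) (le_trans ht' (by norm_num)) hy)

theorem near_3a {T t : ℝ} {u v : ℂ} (hx : 30 / 100 ≤ u.re) (hx' : u.re ≤ 40 / 100)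
    (hu : u.im = 10 / 3 * T * (6 / 10 - u.re)) (hT : -(28 / 1000) ≤ T) (hT' : T ≤ 57 / 1000)
    (ht : -(114 / 1000) ≤ t) (ht' : t ≤ 5 / 1000) (hs : T - t ≤ 105 / 1000) (hv : v.im = t)
    (hp : -(13 / 100) ≤ v.re - u.re) (hp' : v.re - u.re ≤ 13 / 100) (hr : SinNe (v - u)) :
    S3 1 (-(10 / 3 * T)) u v < 66 / 100 - 3 / 2 * u.re := by
  have e : t - rui (10 / 3) u.re T = (v - u).im := by
    rw [Complex.sub_im, hv, hu]
    rfl
  rcases le_total T 0 with hT0 | hT0
  · refine near_le (κ := Real.pi + NumI.lnB (1300 / 10000) (t - rui (10 / 3) u.re T))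
      (by norm_num) hT0 hu (abs_le.2 ⟨by linarith only [hp], by linarith only [hp']⟩) (by norm_num)
      (lt_of_lt_of_le (by norm_num) hx) (lt_of_le_of_lt hx' (by norm_num)) hv hr ?_ (by linarith only [hp]) (n3a (le_trans (by norm_num) hx) (le_trans hx' (by norm_num)) (le_trans (by norm_num) hT) (le_trans hT0 (by norm_num)) (le_trans (by norm_num) ht) (le_trans ht' (by norm_num)))
    have := YY_le_lnB (u := v - u) (q := 1300 / 10000) (abs_le.2 ⟨by rw [Complex.sub_re]; linarith only [hp],
      by rw [Complex.sub_re]; linarith only [hp']⟩) (by norm_num) (by norm_num)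
    rwa [Complex.sub_im, hv, hu] at this
  · rcases le_total (t - rui (10 / 3) u.re T) 0 with hy | hy
    · exact near_ge (by norm_num) hT0 hu (abs_le.2 ⟨by linarith only [hp], by linarith only [hp']⟩) (by norm_num)
        (lt_of_lt_of_le (by norm_num) hx) (lt_of_le_of_lt hx' (by norm_num)) hv hr (YY_nn (by rw [← e]; exact hy)
          (by rw [Complex.sub_re]; linarith only [hp'])) (by linarith only [hp'])
        (n3b (le_trans (by norm_num) hx) (le_trans hx' (by norm_num)) (le_trans (by norm_num) hT0) (le_trans hT' (by norm_num)) (by linarith only [hs, hT0]) (le_trans ht' (by norm_num)) hy hs)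
    · have h0 : 0 ≤ t := by
        have : 0 ≤ rui (10 / 3) u.re T := mul_nonneg (mul_nonneg (by norm_num) hT0) (by linarith only [hx'])
        linarith only [hy, this]
      exact near_ge (by norm_num) hT0 hu (abs_le.2 ⟨by linarith only [hp], by linarith only [hp']⟩) (by norm_num)
        (lt_of_lt_of_le (by norm_num) hx) (lt_of_le_of_lt hx' (by norm_num)) hv hr (YY_ge_neg (by rw [Complex.sub_re]; linarith only [hp])
          (by rw [Complex.sub_re]; linarith only [hp'])) (by linarith only [hp'])
        (n3c (le_trans (by norm_num) hx) (le_trans hx' (by norm_num)) (le_trans (by norm_num) hT0) (le_trans hT' (by norm_num)) (le_trans (by norm_num) h0) (le_trans ht' (by norm_num)) hy)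

theorem near_3e {T t : ℝ} {u v : ℂ} (hx : 40 / 100 ≤ u.re) (hx' : u.re ≤ 1 / 2)
    (hu : u.im = 10 / 3 * T * (6 / 10 - u.re)) (hT : -(28 / 1000) ≤ T) (hT' : T ≤ -(5 / 1000))
    (ht : -(114 / 1000) ≤ t) (ht' : t ≤ 5 / 1000) (hs : T - t ≤ 105 / 1000) (hv : v.im = t)
    (hp : -(13 / 100) ≤ v.re - u.re) (hp' : v.re - u.re ≤ 13 / 100) (hr : SinNe (v - u)) :
    S3 1 (-(10 / 3 * T)) u v < -(35 / 1000) := by
  have hT0 : T ≤ 0 := by linarith only [hT']
  · refine near_le (κ := Real.pi + NumI.lnB (1300 / 10000) (t - rui (10 / 3) u.re T))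
      (by norm_num) hT0 hu (abs_le.2 ⟨by linarith only [hp], by linarith only [hp']⟩) (by norm_num)
      (lt_of_lt_of_le (by norm_num) hx) (lt_of_le_of_lt hx' (by norm_num)) hv hr ?_ (by linarith only [hp]) (n3ea (le_trans (by norm_num) hx) (le_trans hx' (by norm_num)) (le_trans (by norm_num) hT) (le_trans hT' (by norm_num)) (le_trans (by norm_num) ht) (le_trans ht' (by norm_num)))
    have := YY_le_lnB (u := v - u) (q := 1300 / 10000) (abs_le.2 ⟨by rw [Complex.sub_re]; linarith only [hp],
      by rw [Complex.sub_re]; linarith only [hp']⟩) (by norm_num) (by norm_num)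
    rwa [Complex.sub_im, hv, hu] at this

theorem near_3z {T t : ℝ} {u v : ℂ} (hx : 40 / 100 ≤ u.re) (hx' : u.re ≤ 1 / 2)
    (hu : u.im = 10 / 3 * T * (6 / 10 - u.re)) (hT : -(22 / 1000) ≤ T) (hT' : T ≤ 57 / 1000)
    (ht : -(114 / 1000) ≤ t) (ht' : t ≤ 5 / 1000) (hs : T - t ≤ 105 / 1000) (hv : v.im = t)
    (hp : -(13 / 100) ≤ v.re - u.re) (hp' : v.re - u.re ≤ 13 / 100) (hr : SinNe (v - u)) :
    S3 1 (-(10 / 3 * T)) u v < 0 := by
  have e : t - rui (10 / 3) u.re T = (v - u).im := by
    rw [Complex.sub_im, hv, hu]
    rfl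
  rcases le_total T 0 with hT0 | hT0
  · refine near_le (κ := Real.pi + NumI.lnB (1300 / 10000) (t - rui (10 / 3) u.re T))
      (by norm_num) hT0 hu (abs_le.2 ⟨by linarith only [hp], by linarith only [hp']⟩) (by norm_num)
      (lt_of_lt_of_le (by norm_num) hx) (lt_of_le_of_lt hx' (by norm_num)) hv hr ?_ (by linarith only [hp]) (n3za (le_trans (by norm_num) hx) (le_trans hx' (by norm_num)) (le_trans (by norm_num) hT) (le_trans hT0 (by norm_num)) (le_trans (by norm_num) ht) (le_trans ht' (by norm_num)))
    have := YY_le_lnB (u := v - u) (q := 1300 / 10000) (abs_le.2 ⟨by rw [Complex.sub_re]; linarith only [hp],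
      by rw [Complex.sub_re]; linarith only [hp']⟩) (by norm_num) (by norm_num)
    rwa [Complex.sub_im, hv, hu] at this
  · rcases le_total (t - rui (10 / 3) u.re T) 0 with hy | hy
    · exact near_ge (by norm_num) hT0 hu (abs_le.2 ⟨by linarith only [hp], by linarith only [hp']⟩) (by norm_num)
        (lt_of_lt_of_le (by norm_num) hx) (lt_of_le_of_lt hx' (by norm_num)) hv hr (YY_nn (by rw [← e]; exact hy)
          (by rw [Complex.sub_re]; linarith only [hp'])) (by linarith only [hp'])
        (n3zb (le_trans (by norm_num) hx) (le_trans hx' (by norm_num)) (le_trans (by norm_num) hT0) (le_trans hT' (by norm_num)) (by linarith only [hs, hT0]) (le_trans ht' (by norm_num)) hy hs)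
    · have h0 : 0 ≤ t := by
        have : 0 ≤ rui (10 / 3) u.re T := mul_nonneg (mul_nonneg (by norm_num) hT0) (by linarith only [hx'])
        linarith only [hy, this]
      exact near_ge (by norm_num) hT0 hu (abs_le.2 ⟨by linarith only [hp], by linarith only [hp']⟩) (by norm_num)
        (lt_of_lt_of_le (by norm_num) hx) (lt_of_le_of_lt hx' (by norm_num)) hv hr (YY_ge_neg (by rw [Complex.sub_re]; linarith only [hp])
          (by rw [Complex.sub_re]; linarith only [hp'])) (by linarith only [hp'])
        (n3zc (le_trans (by norm_num) hx) (le_trans hx' (by norm_num)) (le_trans (by norm_num) hT0) (le_trans hT' (by norm_num)) (le_trans (by norm_num) h0) (le_trans ht' (by norm_num)) hy)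

end S0R

end Pool.Agent.Work.MP_b30479_gt.G2
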