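import Pool.Agent.Work.MP_b30479_gt.G2.S0RQ
import Pool.Agent.Work.NumU.Tree
import Pool.Agent.Work.NumU.TreeS

/-!
# The own side of an interior `3` at slot `0`: right ramp of the inner variable, the hinge in the slot `2` in `[.31, .39]`
-/

set_option linter.unusedSimpArgs false
set_option linter.unusedVariables false

namespace Pool.Agent.Work.MP_b30479_gt.G2

open VOL NumU

namespace S0R

open NumU.E ER

theorem wpp {x a c b s t : ℝ} (ua1 : 3000 / 10000 ≤ x) (ua2 : x ≤ 5000 / 10000) (ua3 : -(570 / 10000) ≤ a) (ua4 : a ≤ 570 / 10000) (ua5 : 600 / 10000 ≤ c) (ua6 : c ≤ 1900 / 10000) (ua7 : -(220 / 10000) ≤ b) (ua8 : b ≤ 220 / 10000) (ua9 : 0 / 10000 ≤ s) (ua10 : s ≤ 500 / 10000) (ua11 : -(1040 / 10000) ≤ t) (ua12 : t ≤ 50 / 10000) (ua13 : 0 ≤ 20 * (t * s) + b) :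
    rV (uu c (20 * (t * s) + b) + Real.pi * (20 * (t * s) + b)) x a (c + (2 / 10 + s)) b (8 / 10 - s) (20 * (t * s)) < rV (uu (54 / 100 + (c + (2 / 10 + s))) (t + b)) x a (c + (2 / 10 + s)) b (54 / 100) t := by
  have h : chkT [sub (V (E.uu (add (q 54 100) (add (var 2) (add (q 2 10) ER.s))) (add ER.t ER.b)) ER.x ER.a (add (var 2) (add (q 2 10) ER.s)) ER.b (q 54 100) ER.t) (V (add (E.uu (var 2) (add hh ER.b)) (mul pi (add hh ER.b))) ER.x ER.a (add (var 2) (add (q 2 10) ER.s)) ER.b rr hh), neg (add hh ER.b)] 40
    86056679887477191161023616750871388925778750089394300788049516659015470347752196566113129897114703395583838135450621186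
    [NumI.V.of 10000 3000 5000, NumI.V.of 10000 (-570) 570, NumI.V.of 10000 600 1900, NumI.V.of 10000 (-220) 220, NumI.V.of 10000 0 500, NumI.V.of 10000 (-1040) 50] = true := by
    decide +kernel
  obtain ⟨f, hf, hp⟩ := chkT_sound h (xs := [x, a, c, b, s, t])
    (List.Forall₂.cons (NumI.V.of_mem (by norm_num) (by norm_num; linarith only [ua1]) (by norm_num; linarith only [ua2])) (List.Forall₂.cons (NumI.V.of_mem (by norm_num) (by norm_num; linarith only [ua3]) (by norm_num; linarith only [ua4])) (List.Forall₂.cons (NumI.V.of_mem (by norm_num) (by norm_num; linarith only [ua5]) (by norm_num; linarith only [ua6])) (List.Forall₂.cons (NumI.V.of_mem (by norm_num) (by norm_num; linarith only [ua7]) (by norm_num; linarith only [ua8])) (List.Forall₂.cons (NumI.V.of_mem (by norm_num) (by norm_num; linarith only [ua9]) (by norm_num; linarith only [ua10])) (List.Forall₂.cons (NumI.V.of_mem (by norm_num) (by norm_num; linarith only [ua11]) (by norm_num; linarith only [ua12])) List.Forall₂.nil))))))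
  by_contra hc
  push Not at hc
  simp only [List.mem_cons, List.not_mem_nil, or_false] at hf
  rcases hf with rfl | rfl
  · simp only [G_val, V_val, ER.pp, ER.rr, ER.hh, ER.x, ER.a, ER.w, ER.b, ER.s, ER.t, E.val, NumI.lkR] at hp
    push_cast at hp
    linarith only [hc, hp]
  · simp only [G_val, V_val, ER.pp, ER.rr, ER.hh, ER.x, ER.a, ER.w, ER.b, ER.s, ER.t, E.val, NumI.lkR] at hp
    push_cast at hp
    linarith only [ua13, hp]

theorem wpn_h1_q1 : Pool.Agent.Work.NumU.runT [sub (V (E.uu (add (q 54 100) (add (var 2) (add (q 2 10) ER.s))) (add ER.t ER.b)) ER.x ER.a (add (var 2) (add (q 2 10) ER.s)) ER.b (q 54 100) ER.t) (V (sub (E.uu (var 2) (add hh ER.b)) (mul pi (add hh ER.b))) ER.x ER.a (add (var 2) (add (q 2 10) ER.s)) ER.b rr hh), add hh ER.b] 39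
    7594974194351906490718599807399119585670606141669304570606449535961781438700280618361326214656805772737214361572722939630776452170508461736551782669809319948593905049475854336122909846600377781960366731314020019810881730960133177472606257135704750137854206362279439853420131999974545886927085904638031403718576407275324619698669391021136
    (Pool.Agent.Work.NumI.setL 2 ([NumI.V.of 10000 3000 5000, NumI.V.of 10000 (-570) 570, NumI.V.of 10000 600 1900, NumI.V.of 10000 (-220) 220, NumI.V.of 10000 0 500, NumI.V.of 10000 (-1040) 50])) =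
    202119344409054232326858618676435453101732624772751998582314010918363535064085892812997440370594400043084043307271859575450776430374992754195406727363631207005541119790675276346815571637398199430548433688419931248398373928403974 := by
  decide +kernel

theorem wpn_h1_q2 : Pool.Agent.Work.NumU.runT [sub (V (E.uu (add (q 54 100) (add (var 2) (add (q 2 10) ER.s))) (add ER.t ER.b)) ER.x ER.a (add (var 2) (add (q 2 10) ER.s)) ER.b (q 54 100) ER.t) (V (sub (E.uu (var 2) (add hh ER.b)) (mul pi (add hh ER.b))) ER.x ER.a (add (var 2) (add (q 2 10) ER.s)) ER.b rr hh), add hh ER.b] 38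
    12632459025565889520428663667277215818858289048296999911394625682397720941505368300812340023162150002692752706704491223465673526898437047137212920460226950437846319986917204771675973227337387464409277105526245703024898370525248
    (Pool.Agent.Work.NumI.setL 5 (Pool.Agent.Work.NumI.setR 2 ([NumI.V.of 10000 3000 5000, NumI.V.of 10000 (-570) 570, NumI.V.of 10000 600 1900, NumI.V.of 10000 (-220) 220, NumI.V.of 10000 0 500, NumI.V.of 10000 (-1040) 50]))) =
    252912326656786551428878563039692705497784017728641289369991308780038530378793219 := by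
  decide +kernel

theorem wpn_h1_q3 : Pool.Agent.Work.NumU.runT [sub (V (E.uu (add (q 54 100) (add (var 2) (add (q 2 10) ER.s))) (add ER.t ER.b)) ER.x ER.a (add (var 2) (add (q 2 10) ER.s)) ER.b (q 54 100) ER.t) (V (sub (E.uu (var 2) (add hh ER.b)) (mul pi (add hh ER.b))) ER.x ER.a (add (var 2) (add (q 2 10) ER.s)) ER.b rr hh), add hh ER.b] 38
    252912326656786551428878563039692705497784017728641289369991308780038530378793218
    (Pool.Agent.Work.NumI.setR 5 (Pool.Agent.Work.NumI.setR 2 ([NumI.V.of 10000 3000 5000, NumI.V.of 10000 (-570) 570, NumI.V.of 10000 600 1900, NumI.V.of 10000 (-220) 220, NumI.V.of 10000 0 500, NumI.V.of 10000 (-1040) 50]))) =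
    1 := by
  decide +kernel

theorem wpn {x a c b s t : ℝ} (ua1 : 3000 / 10000 ≤ x) (ua2 : x ≤ 5000 / 10000) (ua3 : -(570 / 10000) ≤ a) (ua4 : a ≤ 570 / 10000) (ua5 : 600 / 10000 ≤ c) (ua6 : c ≤ 1900 / 10000) (ua7 : -(220 / 10000) ≤ b) (ua8 : b ≤ 220 / 10000) (ua9 : 0 / 10000 ≤ s) (ua10 : s ≤ 500 / 10000) (ua11 : -(1040 / 10000) ≤ t) (ua12 : t ≤ 50 / 10000) (ua13 : 20 * (t * s) + b ≤ 0) :
    rV (uu c (20 * (t * s) + b) - Real.pi * (20 * (t * s) + b)) x a (c + (2 / 10 + s)) b (8 / 10 - s) (20 * (t * s)) < rV (uu (54 / 100 + (c + (2 / 10 + s))) (t + b)) x a (c + (2 / 10 + s)) b (54 / 100) t := by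
  have h : chkT [sub (V (E.uu (add (q 54 100) (add (var 2) (add (q 2 10) ER.s))) (add ER.t ER.b)) ER.x ER.a (add (var 2) (add (q 2 10) ER.s)) ER.b (q 54 100) ER.t) (V (sub (E.uu (var 2) (add hh ER.b)) (mul pi (add hh ER.b))) ER.x ER.a (add (var 2) (add (q 2 10) ER.s)) ER.b rr hh), add hh ER.b] 40
    121519587109630503851497596918385913370729698266708873129703192575388503019204489893781219434508892363795429785163567034092423234728135387784828522716949119177502480791613669377966557545606044511365867701024320316974107695362130839561700114171276002205667301796471037654722111999592734190833374474208502459497222516405193915178710256338178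
    [NumI.V.of 10000 3000 5000, NumI.V.of 10000 (-570) 570, NumI.V.of 10000 600 1900, NumI.V.of 10000 (-220) 220, NumI.V.of 10000 0 500, NumI.V.of 10000 (-1040) 50] = true :=
      Pool.Agent.Work.NumU.chkT_of (Pool.Agent.Work.NumU.runT_split rfl rfl rfl
        wpn_h1_q1
        (Pool.Agent.Work.NumU.runT_split rfl rfl rfl
          wpn_h1_q2
          wpn_h1_q3))
  obtain ⟨f, hf, hp⟩ := chkT_sound h (xs := [x, a, c, b, s, t])
    (List.Forall₂.cons (NumI.V.of_mem (by norm_num) (by norm_num; linarith only [ua1]) (by norm_num; linarith only [ua2])) (List.Forall₂.cons (NumI.V.of_mem (by norm_num) (by norm_num; linarith only [ua3]) (by norm_num; linarith only [ua4])) (List.Forall₂.cons (NumI.V.of_mem (by norm_num) (by norm_num; linarith only [ua5]) (by norm_num; linarith only [ua6])) (List.Forall₂.cons (NumI.V.of_mem (by norm_num) (by norm_num; linarith only [ua7]) (by norm_num; linarith only [ua8])) (List.Forall₂.cons (NumI.V.of_mem (by norm_num) (by norm_num; linarith only [ua9]) (by norm_num; linarith only [ua10])) (List.Forall₂.cons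 (NumI.V.of_mem (by norm_num) (by norm_num; linarith only [ua11]) (by norm_num; linarith only [ua12])) List.Forall₂.nil))))))
  by_contra hc
  push Not at hc
  simp only [List.mem_cons, List.not_mem_nil, or_false] at hf
  rcases hf with rfl | rfl
  · simp only [G_val, V_val, ER.pp, ER.rr, ER.hh, ER.x, ER.a, ER.w, ER.b, ER.s, ER.t, E.val, NumI.lkR] at hp
    push_cast at hp
    linarith only [hc, hp]
  · simp only [G_val, V_val, ER.pp, ER.rr, ER.hh, ER.x, ER.a, ER.w, ER.b, ER.s, ER.t, E.val, NumI.lkR] at hp
    push_cast at hp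
    linarith only [ua13, hp]

end S0R

end Pool.Agent.Work.MP_b30479_gt.G2
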