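import Pool.Agent.Work.MP_b30479_gt.G2.S0RKA
import Pool.Agent.Work.NumU.Tree

/-!
# `ring | 3` at slot `0`, the exceptional case: rows, side
-/

set_option linter.unusedSimpArgs false
set_option linter.unusedVariables false

namespace Pool.Agent.Work.MP_b30479_gt.G2

open VOL NumU

namespace S0R

open NumU.E EE

theorem nx9 {x T t : ℝ} (ua1 : 5000 / 10000 ≤ x) (ua2 : x ≤ 6000 / 10000) (ua3 : -(7 / 10000) ≤ T) (ua4 : T ≤ 0 / 10000) (ua5 : -(1057 / 10000) ≤ t) (ua6 : t ≤ -(150 / 10000)) :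
    rN (10 / 3) (1300 / 10000) (Real.pi + NumI.lnB (1300 / 10000) (t - rui (10 / 3) x T)) (x - 1300 / 10000) x T t < -(9 / 1000) := by
  have h : chkT [sub (q (-9) 1000) (N 10 3 (q 1300 10000) (add pi (E.lnB (q 1300 10000) (nyy 10 3))) (sub EE.x (q 1300 10000)))] 30
    8
    [NumI.V.of 10000 5000 6000, NumI.V.of 10000 (-7) 0, NumI.V.of 10000 (-1057) (-150)] = true := by
    decide +kernel
  obtain ⟨f, hf, hp⟩ := chkT3 h (by norm_num) (x := x) (y := T) (z := t)
    (by norm_num; linarith only [ua1]) (by norm_num; linarith only [ua2]) (by norm_num; linarith only [ua3]) (by norm_num; linarith only [ua4]) (by norm_num; linarith only [ua5]) (by norm_num; linarith only [ua6])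
  by_contra hc
  push Not at hc
  simp only [List.mem_cons, List.not_mem_nil, or_false] at hf
  rcases hf with rfl
  · simp only [S_val, F_val, N_val, ui_val, EE.pa, EE.pb, EE.pc, EE.kT, nyy, EE.x, EE.T, EE.p, EE.t, EE.nt, EE.v, E.val, NumI.lkR] at hp
    push_cast at hp
    linarith only [hc, hp]

theorem fx9a {x T p t : ℝ} (ua1 : 5000 / 10000 ≤ x) (ua2 : x ≤ 6000 / 10000) (ua3 : -(7 / 10000) ≤ T) (ua4 : T ≤ 0 / 10000) (ua5 : 1000 / 10000 ≤ p) (ua6 : p ≤ 1800 / 10000) (ua7 : -(1057 / 10000) ≤ t) (ua8 : t ≤ -(150 / 10000)) (ua9 : x + p ≤ 75 / 100) (ua10 : T - t ≤ 105 / 1000) :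
    rS (10 / 3) x T p t < -(9 / 1000) ∨ rF0 (10 / 3) x T p t < -(9 / 1000) := by
  have h : chkT [sub (q (-9) 1000) (S 10 3), sub (q (-9) 1000) (F0 10 3), sub EE.v (q 75 100), sub (sub EE.T EE.t) (q 105 1000)] 30
    557954
    [NumI.V.of 10000 5000 6000, NumI.V.of 10000 (-7) 0, NumI.V.of 10000 1000 1800, NumI.V.of 10000 (-1057) (-150)] = true := by
    decide +kernel
  obtain ⟨f, hf, hp⟩ := chkT4 h (by norm_num) (x := x) (y := T) (z := p) (w := t)
    (by norm_num; linarith only [ua1]) (by norm_num; linarith only [ua2]) (by norm_num; linarith only [ua3]) (by norm_num; linarith only [ua4]) (by norm_num; linarith only [ua5]) (by norm_num; linarith only [ua6]) (by norm_num; linarith only [ua7]) (by norm_num; linarith only [ua8])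
  by_contra hc
  push Not at hc
  obtain ⟨hc0, hc1⟩ := hc
  simp only [List.mem_cons, List.not_mem_nil, or_false] at hf
  rcases hf with rfl | rfl | rfl | rfl
  · simp only [F0_val, S_val, F_val, N_val, ui_val, EE.pa, EE.pb, EE.pc, EE.kT, nyy, EE.x, EE.T, EE.p, EE.t, EE.nt, EE.v, E.val, NumI.lkR] at hp
    push_cast at hp
    linarith only [hc0, hp]
  · simp only [F0_val, S_val, F_val, N_val, ui_val, EE.pa, EE.pb, EE.pc, EE.kT, nyy, EE.x, EE.T, EE.p, EE.t, EE.nt, EE.v, E.val, NumI.lkR] at hp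
    push_cast at hp
    linarith only [hc1, hp]
  · simp only [F0_val, S_val, F_val, N_val, ui_val, EE.pa, EE.pb, EE.pc, EE.kT, nyy, EE.x, EE.T, EE.p, EE.t, EE.nt, EE.v, E.val, NumI.lkR] at hp
    push_cast at hp
    linarith only [ua9, hp]
  · simp only [F0_val, S_val, F_val, N_val, ui_val, EE.pa, EE.pb, EE.pc, EE.kT, nyy, EE.x, EE.T, EE.p, EE.t, EE.nt, EE.v, E.val, NumI.lkR] at hp
    push_cast at hp
    linarith only [ua10, hp]

theorem fx9b {x T p t : ℝ} (ua1 : 5000 / 10000 ≤ x) (ua2 : x ≤ 6000 / 10000) (ua3 : -(7 / 10000) ≤ T) (ua4 : T ≤ 0 / 10000) (ua5 : 1800 / 10000 ≤ p) (ua6 : p ≤ 2500 / 10000) (ua7 : -(1057 / 10000) ≤ t) (ua8 : t ≤ -(150 / 10000)) (ua9 : x + p ≤ 75 / 100) (ua10 : T - t ≤ 105 / 1000) :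
    rS (10 / 3) x T p t < -(9 / 1000) ∨ rF0 (10 / 3) x T p t < -(9 / 1000) := by
  have h : chkT [sub (q (-9) 1000) (S 10 3), sub (q (-9) 1000) (F0 10 3), sub EE.v (q 75 100), sub (sub EE.T EE.t) (q 105 1000)] 30
    2967208357671056
    [NumI.V.of 10000 5000 6000, NumI.V.of 10000 (-7) 0, NumI.V.of 10000 1800 2500, NumI.V.of 10000 (-1057) (-150)] = true := by
    decide +kernel
  obtain ⟨f, hf, hp⟩ := chkT4 h (by norm_num) (x := x) (y := T) (z := p) (w := t)
    (by norm_num; linarith only [ua1]) (by norm_num; linarith only [ua2]) (by norm_num; linarith only [ua3]) (by norm_num; linarith only [ua4]) (by norm_num; linarith only [ua5]) (by norm_num; linarith only [ua6]) (by norm_num; linarith only [ua7]) (by norm_num; linarith only [ua8])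
  by_contra hc
  push Not at hc
  obtain ⟨hc0, hc1⟩ := hc
  simp only [List.mem_cons, List.not_mem_nil, or_false] at hf
  rcases hf with rfl | rfl | rfl | rfl
  · simp only [F0_val, S_val, F_val, N_val, ui_val, EE.pa, EE.pb, EE.pc, EE.kT, nyy, EE.x, EE.T, EE.p, EE.t, EE.nt, EE.v, E.val, NumI.lkR] at hp
    push_cast at hp
    linarith only [hc0, hp]
  · simp only [F0_val, S_val, F_val, N_val, ui_val, EE.pa, EE.pb, EE.pc, EE.kT, nyy, EE.x, EE.T, EE.p, EE.t, EE.nt, EE.v, E.val, NumI.lkR] at hp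
    push_cast at hp
    linarith only [hc1, hp]
  · simp only [F0_val, S_val, F_val, N_val, ui_val, EE.pa, EE.pb, EE.pc, EE.kT, nyy, EE.x, EE.T, EE.p, EE.t, EE.nt, EE.v, E.val, NumI.lkR] at hp
    push_cast at hp
    linarith only [ua9, hp]
  · simp only [F0_val, S_val, F_val, N_val, ui_val, EE.pa, EE.pb, EE.pc, EE.kT, nyy, EE.x, EE.T, EE.p, EE.t, EE.nt, EE.v, E.val, NumI.lkR] at hp
    push_cast at hp
    linarith only [ua10, hp]

end S0R

end Pool.Agent.Work.MP_b30479_gt.G2
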