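import Pool.Agent.Work.MP_b30479_gt.G2.S0RQ
import Pool.Agent.Work.NumU.Tree
import Pool.Agent.Work.NumU.TreeS

/-!
# The own side of an interior `3` at slot `0`: rows of the right ramp of the inner variable
-/

set_option linter.unusedSimpArgs false
set_option linter.unusedVariables false

namespace Pool.Agent.Work.MP_b30479_gt.G2

open VOL NumU

namespace S0R

open NumU.E ER

theorem r1a {x a w b s t : ℝ} (ua1 : 3000 / 10000 ≤ x) (ua2 : x ≤ 5000 / 10000) (ua3 : -(570 / 10000) ≤ a) (ua4 : a ≤ 570 / 10000) (ua5 : 700 / 10000 ≤ w) (ua6 : w ≤ 1800 / 10000) (ua7 : -(1145 / 10000) ≤ b) (ua8 : b ≤ -(98 / 10000)) (ua9 : 0 / 10000 ≤ s) (ua10 : s ≤ 500 / 10000) (ua11 : -(1140 / 10000) ≤ t) (ua12 : t ≤ -(150 / 10000)) (ua13 : 8 / 10 - s + w ≤ 9300 / 10000) :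
    rG (8 / 10 - s + w) (-NumI.lnB (8 / 10 - s + w) (20 * (t * s) + b)) x a w b s t < 0 := by
  have h : chkT [neg (G pp (neg (E.lnB pp (add hh ER.b)))), sub pp (q 9300 10000)] 40
    114386288837203986391987102457218895816829898471459668935578784509560417863725737365942961448127514919609423181792083684238068840130173506886014980472390978
    [NumI.V.of 10000 3000 5000, NumI.V.of 10000 (-570) 570, NumI.V.of 10000 700 1800, NumI.V.of 10000 (-1145) (-98), NumI.V.of 10000 0 500, NumI.V.of 10000 (-1140) (-150)] = true := by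
    decide +kernel
  obtain ⟨f, hf, hp⟩ := chkT_sound h (xs := [x, a, w, b, s, t])
    (List.Forall₂.cons (NumI.V.of_mem (by norm_num) (by norm_num; linarith only [ua1]) (by norm_num; linarith only [ua2])) (List.Forall₂.cons (NumI.V.of_mem (by norm_num) (by norm_num; linarith only [ua3]) (by norm_num; linarith only [ua4])) (List.Forall₂.cons (NumI.V.of_mem (by norm_num) (by norm_num; linarith only [ua5]) (by norm_num; linarith only [ua6])) (List.Forall₂.cons (NumI.V.of_mem (by norm_num) (by norm_num; linarith only [ua7]) (by norm_num; linarith only [ua8])) (List.Forall₂.cons (NumI.V.of_mem (by norm_num) (by norm_num; linarith only [ua9]) (by norm_num; linarith only [ua10])) (List.Forall₂.cons (NumI.V.of_mem (by norm_num) (by norm_num; linarith only [ua11]) (by norm_num; linarith only [ua12])) List.Forall₂.nil))))))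
  by_contra hc
  push Not at hc
  simp only [List.mem_cons, List.not_mem_nil, or_false] at hf
  rcases hf with rfl | rfl
  · simp only [G_val, V_val, ER.pp, ER.rr, ER.hh, ER.x, ER.a, ER.w, ER.b, ER.s, ER.t, E.val, NumI.lkR] at hp
    push_cast at hp
    linarith only [hc, hp]
  · simp only [G_val, V_val, ER.pp, ER.rr, ER.hh, ER.x, ER.a, ER.w, ER.b, ER.s, ER.t, E.val, NumI.lkR] at hp
    push_cast at hp
    linarith only [ua13, hp]

theorem r1b {x a w b s t : ℝ} (ua1 : 3000 / 10000 ≤ x) (ua2 : x ≤ 5000 / 10000) (ua3 : -(570 / 10000) ≤ a) (ua4 : a ≤ 570 / 10000) (ua5 : 1300 / 10000 ≤ w) (ua6 : w ≤ 3200 / 10000) (ua7 : -(1145 / 10000) ≤ b) (ua8 : b ≤ -(98 / 10000)) (ua9 : 0 / 10000 ≤ s) (ua10 : s ≤ 500 / 10000) (ua11 : -(1140 / 10000) ≤ t) (ua12 : t ≤ -(150 / 10000)) (ua13 : 9300 / 10000 ≤ 8 / 10 - s + w) (ua14 : 8 / 10 - s + w ≤ 10700 / 10000) :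
    rG (9300 / 10000) (-NumI.lnB (9300 / 10000) (20 * (t * s) + b)) x a w b s t < 0 := by
  have h : chkT [neg (G (q 9300 10000) (neg (E.lnB (q 9300 10000) (add hh ER.b)))), sub (q 9300 10000) pp, sub pp (q 10700 10000)] 40
    11316777107505525202231033304743150917
    [NumI.V.of 10000 3000 5000, NumI.V.of 10000 (-570) 570, NumI.V.of 10000 1300 3200, NumI.V.of 10000 (-1145) (-98), NumI.V.of 10000 0 500, NumI.V.of 10000 (-1140) (-150)] = true := by
    decide +kernel
  obtain ⟨f, hf, hp⟩ := chkT_sound h (xs := [x, a, w, b, s, t])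
    (List.Forall₂.cons (NumI.V.of_mem (by norm_num) (by norm_num; linarith only [ua1]) (by norm_num; linarith only [ua2])) (List.Forall₂.cons (NumI.V.of_mem (by norm_num) (by norm_num; linarith only [ua3]) (by norm_num; linarith only [ua4])) (List.Forall₂.cons (NumI.V.of_mem (by norm_num) (by norm_num; linarith only [ua5]) (by norm_num; linarith only [ua6])) (List.Forall₂.cons (NumI.V.of_mem (by norm_num) (by norm_num; linarith only [ua7]) (by norm_num; linarith only [ua8])) (List.Forall₂.cons (NumI.V.of_mem (by norm_num) (by norm_num; linarith only [ua9]) (by norm_num; linarith only [ua10])) (List.Forall₂.cons (NumI.V.of_mem (by norm_num) (by norm_num; linarith only [ua11]) (by norm_num; linarith only [ua12])) List.Forall₂.nil))))))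
  by_contra hc
  push Not at hc
  simp only [List.mem_cons, List.not_mem_nil, or_false] at hf
  rcases hf with rfl | rfl | rfl
  · simp only [G_val, V_val, ER.pp, ER.rr, ER.hh, ER.x, ER.a, ER.w, ER.b, ER.s, ER.t, E.val, NumI.lkR] at hp
    push_cast at hp
    linarith only [hc, hp]
  · simp only [G_val, V_val, ER.pp, ER.rr, ER.hh, ER.x, ER.a, ER.w, ER.b, ER.s, ER.t, E.val, NumI.lkR] at hp
    push_cast at hp
    linarith only [ua13, hp]
  · simp only [G_val, V_val, ER.pp, ER.rr, ER.hh, ER.x, ER.a, ER.w, ER.b, ER.s, ER.t, E.val, NumI.lkR] at hp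
    push_cast at hp
    linarith only [ua14, hp]

theorem r1c {x a w b s t : ℝ} (ua1 : 3000 / 10000 ≤ x) (ua2 : x ≤ 5000 / 10000) (ua3 : -(570 / 10000) ≤ a) (ua4 : a ≤ 570 / 10000) (ua5 : 2700 / 10000 ≤ w) (ua6 : w ≤ 3900 / 10000) (ua7 : -(1145 / 10000) ≤ b) (ua8 : b ≤ -(98 / 10000)) (ua9 : 0 / 10000 ≤ s) (ua10 : s ≤ 500 / 10000) (ua11 : -(1140 / 10000) ≤ t) (ua12 : t ≤ -(150 / 10000)) (ua13 : 10700 / 10000 ≤ 8 / 10 - s + w) :
    rG (8 / 10 - s + w - 1) (-Real.pi - NumI.lnB (8 / 10 - s + w - 1) (20 * (t * s) + b)) x a w b s t < 0 := by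
  have h : chkT [neg (G (sub pp (q 1 1)) (sub (neg pi) (E.lnB (sub pp (q 1 1)) (add hh ER.b)))), sub (q 10700 10000) pp] 40
    334996132845945080708514070194252289412007444625603661759012036383359005782856285414699261379916244876427082655289922
    [NumI.V.of 10000 3000 5000, NumI.V.of 10000 (-570) 570, NumI.V.of 10000 2700 3900, NumI.V.of 10000 (-1145) (-98), NumI.V.of 10000 0 500, NumI.V.of 10000 (-1140) (-150)] = true := by
    decide +kernel
  obtain ⟨f, hf, hp⟩ := chkT_sound h (xs := [x, a, w, b, s, t])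
    (List.Forall₂.cons (NumI.V.of_mem (by norm_num) (by norm_num; linarith only [ua1]) (by norm_num; linarith only [ua2])) (List.Forall₂.cons (NumI.V.of_mem (by norm_num) (by norm_num; linarith only [ua3]) (by norm_num; linarith only [ua4])) (List.Forall₂.cons (NumI.V.of_mem (by norm_num) (by norm_num; linarith only [ua5]) (by norm_num; linarith only [ua6])) (List.Forall₂.cons (NumI.V.of_mem (by norm_num) (by norm_num; linarith only [ua7]) (by norm_num; linarith only [ua8])) (List.Forall₂.cons (NumI.V.of_mem (by norm_num) (by norm_num; linarith only [ua9]) (by norm_num; linarith only [ua10])) (List.Forall₂.cons (NumI.V.of_mem (by norm_num) (by norm_num; linarith only [ua11]) (by norm_num; linarith only [ua12])) List.Forall₂.nil))))))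
  by_contra hc
  push Not at hc
  simp only [List.mem_cons, List.not_mem_nil, or_false] at hf
  rcases hf with rfl | rfl
  · simp only [G_val, V_val, ER.pp, ER.rr, ER.hh, ER.x, ER.a, ER.w, ER.b, ER.s, ER.t, E.val, NumI.lkR] at hp
    push_cast at hp
    linarith only [hc, hp]
  · simp only [G_val, V_val, ER.pp, ER.rr, ER.hh, ER.x, ER.a, ER.w, ER.b, ER.s, ER.t, E.val, NumI.lkR] at hp
    push_cast at hp
    linarith only [ua13, hp]

theorem roa_h1_q1 : Pool.Agent.Work.NumU.runT [neg (G pp (neg (E.lnB pp (add hh ER.b)))), sub pp (q 9300 10000)] 39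
    579318286405198845726497547220680335204635140323279065980495673090309723495912011592500420847356320392691182110292470783616590662242255945313409252458865828851923397909353349881999181174614863846919299832816970069821266866302842442770820609387048873932278359962734069875356141388617450198630939793413403405973690850683351584285417451742891071621476829437084359375808493322785597412467660086233125386038262581786789812190336890765762980706436383774131854632369036524560460608023430307106502623571372743550992523722658620065433682354127700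
    (Pool.Agent.Work.NumI.setL 2 ([NumI.V.of 10000 3000 5000, NumI.V.of 10000 (-570) 570, NumI.V.of 10000 700 1800, NumI.V.of 10000 (-980) 570, NumI.V.of 10000 0 500, NumI.V.of 10000 (-1040) 50])) =
    30999883696153380538512474554327385892165989657907074652344844823705301220167620967319470903046564123891614278435138665924087786938381459985188748966008863813152089052287426658968395268900088180144618961512677624153903943970160032423161259340214978187047416177394708875882232361596702856141046843637029206367331672809100056591468565976339237 := by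
  decide +kernel

theorem roa_h1_q2 : Pool.Agent.Work.NumU.runT [neg (G pp (neg (E.lnB pp (add hh ER.b)))), sub pp (q 9300 10000)] 39
    30999883696153380538512474554327385892165989657907074652344844823705301220167620967319470903046564123891614278435138665924087786938381459985188748966008863813152089052287426658968395268900088180144618961512677624153903943970160032423161259340214978187047416177394708875882232361596702856141046843637029206367331672809100056591468565976339236
    (Pool.Agent.Work.NumI.setR 2 ([NumI.V.of 10000 3000 5000, NumI.V.of 10000 (-570) 570, NumI.V.of 10000 700 1800, NumI.V.of 10000 (-980) 570, NumI.V.of 10000 0 500, NumI.V.of 10000 (-1040) 50])) =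
    1 := by
  decide +kernel

theorem roa {x a w b s t : ℝ} (ua1 : 3000 / 10000 ≤ x) (ua2 : x ≤ 5000 / 10000) (ua3 : -(570 / 10000) ≤ a) (ua4 : a ≤ 570 / 10000) (ua5 : 700 / 10000 ≤ w) (ua6 : w ≤ 1800 / 10000) (ua7 : -(980 / 10000) ≤ b) (ua8 : b ≤ 570 / 10000) (ua9 : 0 / 10000 ≤ s) (ua10 : s ≤ 500 / 10000) (ua11 : -(1040 / 10000) ≤ t) (ua12 : t ≤ 50 / 10000) (ua13 : 8 / 10 - s + w ≤ 9300 / 10000) :
    rG (8 / 10 - s + w) (-NumI.lnB (8 / 10 - s + w) (20 * (t * s) + b)) x a w b s t < 0 := by
  have h : chkT [neg (G pp (neg (E.lnB pp (add hh ER.b)))), sub pp (q 9300 10000)] 40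
    9269092582483181531623960755530885363274162245172465055687930769444955575934592185480006733557701126283058913764679532537865450595876095125014548039341853261630774366549653598111986898793837821550708797325071521117140269860845479084333129750192781982916453759403745118005698262217879203178095036694614454495579053610933625348566679227886257145943629270993349750012935893164569558599482561379730006176612201308588636995045390252252207691302982140386109674117904584392967369728374884913704041977141963896815880379562537921046938917666043202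
    [NumI.V.of 10000 3000 5000, NumI.V.of 10000 (-570) 570, NumI.V.of 10000 700 1800, NumI.V.of 10000 (-980) 570, NumI.V.of 10000 0 500, NumI.V.of 10000 (-1040) 50] = true :=
      Pool.Agent.Work.NumU.chkT_of (Pool.Agent.Work.NumU.runT_split rfl rfl rfl
        roa_h1_q1
        roa_h1_q2)
  obtain ⟨f, hf, hp⟩ := chkT_sound h (xs := [x, a, w, b, s, t])
    (List.Forall₂.cons (NumI.V.of_mem (by norm_num) (by norm_num; linarith only [ua1]) (by norm_num; linarith only [ua2])) (List.Forall₂.cons (NumI.V.of_mem (by norm_num) (by norm_num; linarith only [ua3]) (by norm_num; linarith only [ua4])) (List.Forall₂.cons (NumI.V.of_mem (by norm_num) (by norm_num; linarith only [ua5]) (by norm_num; linarith only [ua6])) (List.Forall₂.cons (NumI.V.of_mem (by norm_num) (by norm_num; linarith only [ua7]) (by norm_num; linarith only [ua8])) (List.Forall₂.cons (NumI.V.of_mem (by norm_num) (by norm_num; linarith only [ua9]) (by norm_num; linarith only [ua10])) (List.Forall₂.cons (NumI.V.of_mem (by norm_num) (by norm_num;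 linarith only [ua11]) (by norm_num; linarith only [ua12])) List.Forall₂.nil))))))
  by_contra hc
  push Not at hc
  simp only [List.mem_cons, List.not_mem_nil, or_false] at hf
  rcases hf with rfl | rfl
  · simp only [G_val, V_val, ER.pp, ER.rr, ER.hh, ER.x, ER.a, ER.w, ER.b, ER.s, ER.t, E.val, NumI.lkR] at hp
    push_cast at hp
    linarith only [hc, hp]
  · simp only [G_val, V_val, ER.pp, ER.rr, ER.hh, ER.x, ER.a, ER.w, ER.b, ER.s, ER.t, E.val, NumI.lkR] at hp
    push_cast at hp
    linarith only [ua13, hp]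

theorem rob {x a w b s t : ℝ} (ua1 : 3000 / 10000 ≤ x) (ua2 : x ≤ 5000 / 10000) (ua3 : -(570 / 10000) ≤ a) (ua4 : a ≤ 570 / 10000) (ua5 : 1300 / 10000 ≤ w) (ua6 : w ≤ 3100 / 10000) (ua7 : -(980 / 10000) ≤ b) (ua8 : b ≤ 570 / 10000) (ua9 : 0 / 10000 ≤ s) (ua10 : s ≤ 500 / 10000) (ua11 : -(1040 / 10000) ≤ t) (ua12 : t ≤ 0 / 10000) (ua13 : 9300 / 10000 ≤ 8 / 10 - s + w) (ua14 : 8 / 10 - s + w ≤ 10700 / 10000) (ua15 : 20 * (t * s) + b ≤ 0) :
    rG (9300 / 10000) (-NumI.lnB (9300 / 10000) (20 * (t * s) + b)) x a w b s t < 0 := by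
  have h : chkT [neg (G (q 9300 10000) (neg (E.lnB (q 9300 10000) (add hh ER.b)))), sub (q 9300 10000) pp, sub pp (q 10700 10000), add hh ER.b] 40
    1191779373676812394393831387416008325613102287619729687086340034936669507497398507123985525011413750597
    [NumI.V.of 10000 3000 5000, NumI.V.of 10000 (-570) 570, NumI.V.of 10000 1300 3100, NumI.V.of 10000 (-980) 570, NumI.V.of 10000 0 500, NumI.V.of 10000 (-1040) 0] = true := by
    decide +kernel
  obtain ⟨f, hf, hp⟩ := chkT_sound h (xs := [x, a, w, b, s, t])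
    (List.Forall₂.cons (NumI.V.of_mem (by norm_num) (by norm_num; linarith only [ua1]) (by norm_num; linarith only [ua2])) (List.Forall₂.cons (NumI.V.of_mem (by norm_num) (by norm_num; linarith only [ua3]) (by norm_num; linarith only [ua4])) (List.Forall₂.cons (NumI.V.of_mem (by norm_num) (by norm_num; linarith only [ua5]) (by norm_num; linarith only [ua6])) (List.Forall₂.cons (NumI.V.of_mem (by norm_num) (by norm_num; linarith only [ua7]) (by norm_num; linarith only [ua8])) (List.Forall₂.cons (NumI.V.of_mem (by norm_num) (by norm_num; linarith only [ua9]) (by norm_num; linarith only [ua10])) (List.Forall₂.cons (NumI.V.of_mem (by norm_num) (by norm_num; linarith only [ua11]) (by norm_num; linarith only [ua12])) List.Forall₂.nil))))))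
  by_contra hc
  push Not at hc
  simp only [List.mem_cons, List.not_mem_nil, or_false] at hf
  rcases hf with rfl | rfl | rfl | rfl
  · simp only [G_val, V_val, ER.pp, ER.rr, ER.hh, ER.x, ER.a, ER.w, ER.b, ER.s, ER.t, E.val, NumI.lkR] at hp
    push_cast at hp
    linarith only [hc, hp]
  · simp only [G_val, V_val, ER.pp, ER.rr, ER.hh, ER.x, ER.a, ER.w, ER.b, ER.s, ER.t, E.val, NumI.lkR] at hp
    push_cast at hp
    linarith only [ua13, hp]
  · simp only [G_val, V_val, ER.pp, ER.rr, ER.hh, ER.x, ER.a, ER.w, ER.b, ER.s, ER.t, E.val, NumI.lkR] at hp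
    push_cast at hp
    linarith only [ua14, hp]
  · simp only [G_val, V_val, ER.pp, ER.rr, ER.hh, ER.x, ER.a, ER.w, ER.b, ER.s, ER.t, E.val, NumI.lkR] at hp
    push_cast at hp
    linarith only [ua15, hp]

theorem roc {x a w b s t : ℝ} (ua1 : 3000 / 10000 ≤ x) (ua2 : x ≤ 5000 / 10000) (ua3 : -(570 / 10000) ≤ a) (ua4 : a ≤ 570 / 10000) (ua5 : 2700 / 10000 ≤ w) (ua6 : w ≤ 3100 / 10000) (ua7 : -(980 / 10000) ≤ b) (ua8 : b ≤ 570 / 10000) (ua9 : 0 / 10000 ≤ s) (ua10 : s ≤ 500 / 10000) (ua11 : -(1040 / 10000) ≤ t) (ua12 : t ≤ 50 / 10000) (ua13 : 10700 / 10000 ≤ 8 / 10 - s + w) (ua14 : 20 * (t * s) + b ≤ 0) :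
    rG (8 / 10 - s + w - 1) (-Real.pi - NumI.lnB (8 / 10 - s + w - 1) (20 * (t * s) + b)) x a w b s t < 0 := by
  have h : chkT [neg (G (sub pp (q 1 1)) (sub (neg pi) (E.lnB (sub pp (q 1 1)) (add hh ER.b)))), sub (q 10700 10000) pp, add hh ER.b] 40
    551572921589662660011588795915634886339225124410527048704639154304910660469244369018397494495952703475833042484532789474364235154237159205203510621652276
    [NumI.V.of 10000 3000 5000, NumI.V.of 10000 (-570) 570, NumI.V.of 10000 2700 3100, NumI.V.of 10000 (-980) 570, NumI.V.of 10000 0 500, NumI.V.of 10000 (-1040) 50] = true := by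
    decide +kernel
  obtain ⟨f, hf, hp⟩ := chkT_sound h (xs := [x, a, w, b, s, t])
    (List.Forall₂.cons (NumI.V.of_mem (by norm_num) (by norm_num; linarith only [ua1]) (by norm_num; linarith only [ua2])) (List.Forall₂.cons (NumI.V.of_mem (by norm_num) (by norm_num; linarith only [ua3]) (by norm_num; linarith only [ua4])) (List.Forall₂.cons (NumI.V.of_mem (by norm_num) (by norm_num; linarith only [ua5]) (by norm_num; linarith only [ua6])) (List.Forall₂.cons (NumI.V.of_mem (by norm_num) (by norm_num; linarith only [ua7]) (by norm_num; linarith only [ua8])) (List.Forall₂.cons (NumI.V.of_mem (by norm_num) (by norm_num; linarith only [ua9]) (by norm_num; linarith only [ua10])) (List.Forall₂.cons (NumI.V.of_mem (by norm_num) (by norm_num; linarith only [ua11]) (by norm_num; linarith only [ua12])) List.Forall₂.nil))))))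
  by_contra hc
  push Not at hc
  simp only [List.mem_cons, List.not_mem_nil, or_false] at hf
  rcases hf with rfl | rfl | rfl
  · simp only [G_val, V_val, ER.pp, ER.rr, ER.hh, ER.x, ER.a, ER.w, ER.b, ER.s, ER.t, E.val, NumI.lkR] at hp
    push_cast at hp
    linarith only [hc, hp]
  · simp only [G_val, V_val, ER.pp, ER.rr, ER.hh, ER.x, ER.a, ER.w, ER.b, ER.s, ER.t, E.val, NumI.lkR] at hp
    push_cast at hp
    linarith only [ua13, hp]
  · simp only [G_val, V_val, ER.pp, ER.rr, ER.hh, ER.x, ER.a, ER.w, ER.b, ER.s, ER.t, E.val, NumI.lkR] at hp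
    push_cast at hp
    linarith only [ua14, hp]

theorem rot {x a w b s t : ℝ} (ua1 : 3000 / 10000 ≤ x) (ua2 : x ≤ 5000 / 10000) (ua3 : -(570 / 10000) ≤ a) (ua4 : a ≤ 570 / 10000) (ua5 : 1300 / 10000 ≤ w) (ua6 : w ≤ 3100 / 10000) (ua7 : -(980 / 10000) ≤ b) (ua8 : b ≤ 570 / 10000) (ua9 : 0 / 10000 ≤ s) (ua10 : s ≤ 500 / 10000) (ua11 : 0 / 10000 ≤ t) (ua12 : t ≤ 50 / 10000) (ua13 : 9300 / 10000 ≤ 8 / 10 - s + w) (ua14 : 8 / 10 - s + w ≤ 10700 / 10000) :
    rG (9300 / 10000) (-Real.pi) x a w b s t < 0 := by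
  have h : chkT [neg (G (q 9300 10000) (neg pi)), sub (q 9300 10000) pp, sub pp (q 10700 10000)] 40
    557952
    [NumI.V.of 10000 3000 5000, NumI.V.of 10000 (-570) 570, NumI.V.of 10000 1300 3100, NumI.V.of 10000 (-980) 570, NumI.V.of 10000 0 500, NumI.V.of 10000 0 50] = true := by
    decide +kernel
  obtain ⟨f, hf, hp⟩ := chkT_sound h (xs := [x, a, w, b, s, t])
    (List.Forall₂.cons (NumI.V.of_mem (by norm_num) (by norm_num; linarith only [ua1]) (by norm_num; linarith only [ua2])) (List.Forall₂.cons (NumI.V.of_mem (by norm_num) (by norm_num; linarith only [ua3]) (by norm_num; linarith only [ua4])) (List.Forall₂.cons (NumI.V.of_mem (by norm_num) (by norm_num; linarith only [ua5]) (by norm_num; linarith only [ua6])) (List.Forall₂.cons (NumI.V.of_mem (by norm_num) (by norm_num; linarith only [ua7]) (by norm_num; linarith only [ua8])) (List.Forall₂.cons (NumI.V.of_mem (by norm_num) (by norm_num; linarith only [ua9]) (by norm_num; linarith only [ua10])) (List.Forall₂.cons (NumI.V.of_mem (by norm_num)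 (by norm_num; linarith only [ua11]) (by norm_num; linarith only [ua12])) List.Forall₂.nil))))))
  by_contra hc
  push Not at hc
  simp only [List.mem_cons, List.not_mem_nil, or_false] at hf
  rcases hf with rfl | rfl | rfl
  · simp only [G_val, V_val, ER.pp, ER.rr, ER.hh, ER.x, ER.a, ER.w, ER.b, ER.s, ER.t, E.val, NumI.lkR] at hp
    push_cast at hp
    linarith only [hc, hp]
  · simp only [G_val, V_val, ER.pp, ER.rr, ER.hh, ER.x, ER.a, ER.w, ER.b, ER.s, ER.t, E.val, NumI.lkR] at hp
    push_cast at hp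
    linarith only [ua13, hp]
  · simp only [G_val, V_val, ER.pp, ER.rr, ER.hh, ER.x, ER.a, ER.w, ER.b, ER.s, ER.t, E.val, NumI.lkR] at hp
    push_cast at hp
    linarith only [ua14, hp]

theorem ga {x a w b s t : ℝ} (ua1 : 3000 / 10000 ≤ x) (ua2 : x ≤ 5000 / 10000) (ua3 : -(570 / 10000) ≤ a) (ua4 : a ≤ 570 / 10000) (ua5 : 1300 / 10000 ≤ w) (ua6 : w ≤ 2200 / 10000) (ua7 : 0 / 10000 ≤ b) (ua8 : b ≤ 570 / 10000) (ua9 : 0 / 10000 ≤ s) (ua10 : s ≤ 500 / 10000) (ua11 : -(1040 / 10000) ≤ t) (ua12 : t ≤ 0 / 10000) (ua13 : 9300 / 10000 ≤ 8 / 10 - s + w) (ua14 : 8 / 10 - s + w ≤ 9700 / 10000) (ua15 : 0 ≤ 20 * (t * s) + b) :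
    rG (9300 / 10000) (-NumI.lnB (9700 / 10000) (20 * (t * s) + b)) x a w b s t < 0 := by
  have h : chkT [neg (G (q 9300 10000) (neg (E.lnB (q 9700 10000) (add hh ER.b)))), sub (q 9300 10000) pp, sub pp (q 9700 10000), neg (add hh ER.b)] 40
    7470723761324478782934725215362116367285785474308593163637557485053958574047873438503138918227422885795708421976227633761370559746221723361613192464061255992133
    [NumI.V.of 10000 3000 5000, NumI.V.of 10000 (-570) 570, NumI.V.of 10000 1300 2200, NumI.V.of 10000 0 570, NumI.V.of 10000 0 500, NumI.V.of 10000 (-1040) 0] = true := by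
    decide +kernel
  obtain ⟨f, hf, hp⟩ := chkT_sound h (xs := [x, a, w, b, s, t])
    (List.Forall₂.cons (NumI.V.of_mem (by norm_num) (by norm_num; linarith only [ua1]) (by norm_num; linarith only [ua2])) (List.Forall₂.cons (NumI.V.of_mem (by norm_num) (by norm_num; linarith only [ua3]) (by norm_num; linarith only [ua4])) (List.Forall₂.cons (NumI.V.of_mem (by norm_num) (by norm_num; linarith only [ua5]) (by norm_num; linarith only [ua6])) (List.Forall₂.cons (NumI.V.of_mem (by norm_num) (by norm_num; linarith only [ua7]) (by norm_num; linarith only [ua8])) (List.Forall₂.cons (NumI.V.of_mem (by norm_num) (by norm_num; linarith only [ua9]) (by norm_num; linarith only [ua10])) (List.Forall₂.cons (NumI.V.of_mem (by norm_num) (by norm_num; linarith only [ua11]) (by norm_num; linarith only [ua12])) List.Forall₂.nil))))))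
  by_contra hc
  push Not at hc
  simp only [List.mem_cons, List.not_mem_nil, or_false] at hf
  rcases hf with rfl | rfl | rfl | rfl
  · simp only [G_val, V_val, ER.pp, ER.rr, ER.hh, ER.x, ER.a, ER.w, ER.b, ER.s, ER.t, E.val, NumI.lkR] at hp
    push_cast at hp
    linarith only [hc, hp]
  · simp only [G_val, V_val, ER.pp, ER.rr, ER.hh, ER.x, ER.a, ER.w, ER.b, ER.s, ER.t, E.val, NumI.lkR] at hp
    push_cast at hp
    linarith only [ua13, hp]
  · simp only [G_val, V_val, ER.pp, ER.rr, ER.hh, ER.x, ER.a, ER.w, ER.b, ER.s, ER.t, E.val, NumI.lkR] at hp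
    push_cast at hp
    linarith only [ua14, hp]
  · simp only [G_val, V_val, ER.pp, ER.rr, ER.hh, ER.x, ER.a, ER.w, ER.b, ER.s, ER.t, E.val, NumI.lkR] at hp
    push_cast at hp
    linarith only [ua15, hp]

theorem gb {x a w b s t : ℝ} (ua1 : 3000 / 10000 ≤ x) (ua2 : x ≤ 5000 / 10000) (ua3 : -(570 / 10000) ≤ a) (ua4 : a ≤ 570 / 10000) (ua5 : 1700 / 10000 ≤ w) (ua6 : w ≤ 2500 / 10000) (ua7 : 0 / 10000 ≤ b) (ua8 : b ≤ 570 / 10000) (ua9 : 0 / 10000 ≤ s) (ua10 : s ≤ 500 / 10000) (ua11 : -(1040 / 10000) ≤ t) (ua12 : t ≤ 0 / 10000) (ua13 : 9700 / 10000 ≤ 8 / 10 - s + w) (ua14 : 8 / 10 - s + w ≤ 10000 / 10000) (ua15 : 0 ≤ 20 * (t * s) + b) :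
    rG (9700 / 10000) (Real.pi * (1 / 2)) x a w b s t < 0 := by
  have h : chkT [neg (G (q 9700 10000) (mul pi (q 1 2))), sub (q 9700 10000) pp, sub pp (q 10000 10000), neg (add hh ER.b)] 40
    8214081288171910483543766996151036627012603585425879714697200504013708297080675237910648569897882257886218278130738462868715739852012862608328441210183297693540701649777748
    [NumI.V.of 10000 3000 5000, NumI.V.of 10000 (-570) 570, NumI.V.of 10000 1700 2500, NumI.V.of 10000 0 570, NumI.V.of 10000 0 500, NumI.V.of 10000 (-1040) 0] = true := by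
    decide +kernel
  obtain ⟨f, hf, hp⟩ := chkT_sound h (xs := [x, a, w, b, s, t])
    (List.Forall₂.cons (NumI.V.of_mem (by norm_num) (by norm_num; linarith only [ua1]) (by norm_num; linarith only [ua2])) (List.Forall₂.cons (NumI.V.of_mem (by norm_num) (by norm_num; linarith only [ua3]) (by norm_num; linarith only [ua4])) (List.Forall₂.cons (NumI.V.of_mem (by norm_num) (by norm_num; linarith only [ua5]) (by norm_num; linarith only [ua6])) (List.Forall₂.cons (NumI.V.of_mem (by norm_num) (by norm_num; linarith only [ua7]) (by norm_num; linarith only [ua8])) (List.Forall₂.cons (NumI.V.of_mem (by norm_num) (by norm_num; linarith only [ua9]) (by norm_num; linarith only [ua10])) (List.Forall₂.cons (NumI.V.of_mem (by norm_num) (by norm_num; linarith only [ua11]) (by norm_num; linarith only [ua12])) List.Forall₂.nil))))))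
  by_contra hc
  push Not at hc
  simp only [List.mem_cons, List.not_mem_nil, or_false] at hf
  rcases hf with rfl | rfl | rfl | rfl
  · simp only [G_val, V_val, ER.pp, ER.rr, ER.hh, ER.x, ER.a, ER.w, ER.b, ER.s, ER.t, E.val, NumI.lkR] at hp
    push_cast at hp
    linarith only [hc, hp]
  · simp only [G_val, V_val, ER.pp, ER.rr, ER.hh, ER.x, ER.a, ER.w, ER.b, ER.s, ER.t, E.val, NumI.lkR] at hp
    push_cast at hp
    linarith only [ua13, hp]
  · simp only [G_val, V_val, ER.pp, ER.rr, ER.hh, ER.x, ER.a, ER.w, ER.b, ER.s, ER.t, E.val, NumI.lkR] at hp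
    push_cast at hp
    linarith only [ua14, hp]
  · simp only [G_val, V_val, ER.pp, ER.rr, ER.hh, ER.x, ER.a, ER.w, ER.b, ER.s, ER.t, E.val, NumI.lkR] at hp
    push_cast at hp
    linarith only [ua15, hp]

theorem wb {x a w b s t : ℝ} (ua1 : 3000 / 10000 ≤ x) (ua2 : x ≤ 5000 / 10000) (ua3 : -(570 / 10000) ≤ a) (ua4 : a ≤ 570 / 10000) (ua5 : 2000 / 10000 ≤ w) (ua6 : w ≤ 2800 / 10000) (ua7 : 0 / 10000 ≤ b) (ua8 : b ≤ 570 / 10000) (ua9 : 0 / 10000 ≤ s) (ua10 : s ≤ 500 / 10000) (ua11 : -(1040 / 10000) ≤ t) (ua12 : t ≤ 50 / 10000) (ua13 : 1 ≤ 8 / 10 - s + w) (ua14 : 8 / 10 - s + w ≤ 103 / 100) (ua15 : 0 ≤ 20 * (t * s) + b) :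
    rV (Real.pi * (1 / 2) * (20 * (t * s) + b)) x a w b (8 / 10 - s) (20 * (t * s)) < rV (uu (58 / 100 + w) (t + b)) x a w b (58 / 100) t := by
  have h : chkT [sub (V (E.uu (add (q 58 100) ER.w) (add ER.t ER.b)) ER.x ER.a ER.w ER.b (q 58 100) ER.t) (V (mul (mul pi (q 1 2)) (add hh ER.b)) ER.x ER.a ER.w ER.b rr hh), sub (q 1 1) pp, sub pp (q 103 100), neg (add hh ER.b)] 40
    675994486232669009713243363408
    [NumI.V.of 10000 3000 5000, NumI.V.of 10000 (-570) 570, NumI.V.of 10000 2000 2800, NumI.V.of 10000 0 570, NumI.V.of 10000 0 500, NumI.V.of 10000 (-1040) 50] = true := by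
    decide +kernel
  obtain ⟨f, hf, hp⟩ := chkT_sound h (xs := [x, a, w, b, s, t])
    (List.Forall₂.cons (NumI.V.of_mem (by norm_num) (by norm_num; linarith only [ua1]) (by norm_num; linarith only [ua2])) (List.Forall₂.cons (NumI.V.of_mem (by norm_num) (by norm_num; linarith only [ua3]) (by norm_num; linarith only [ua4])) (List.Forall₂.cons (NumI.V.of_mem (by norm_num) (by norm_num; linarith only [ua5]) (by norm_num; linarith only [ua6])) (List.Forall₂.cons (NumI.V.of_mem (by norm_num) (by norm_num; linarith only [ua7]) (by norm_num; linarith only [ua8])) (List.Forall₂.cons (NumI.V.of_mem (by norm_num) (by norm_num; linarith only [ua9]) (by norm_num; linarith only [ua10])) (List.Forall₂.cons (NumI.V.of_mem (by norm_num) (by norm_num; linarith only [ua11]) (by norm_num; linarith only [ua12])) List.Forall₂.nil))))))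
  by_contra hc
  push Not at hc
  simp only [List.mem_cons, List.not_mem_nil, or_false] at hf
  rcases hf with rfl | rfl | rfl | rfl
  · simp only [G_val, V_val, ER.pp, ER.rr, ER.hh, ER.x, ER.a, ER.w, ER.b, ER.s, ER.t, E.val, NumI.lkR] at hp
    push_cast at hp
    linarith only [hc, hp]
  · simp only [G_val, V_val, ER.pp, ER.rr, ER.hh, ER.x, ER.a, ER.w, ER.b, ER.s, ER.t, E.val, NumI.lkR] at hp
    push_cast at hp
    linarith only [ua13, hp]
  · simp only [G_val, V_val, ER.pp, ER.rr, ER.hh, ER.x, ER.a, ER.w, ER.b, ER.s, ER.t, E.val, NumI.lkR] at hp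
    push_cast at hp
    linarith only [ua14, hp]
  · simp only [G_val, V_val, ER.pp, ER.rr, ER.hh, ER.x, ER.a, ER.w, ER.b, ER.s, ER.t, E.val, NumI.lkR] at hp
    push_cast at hp
    linarith only [ua15, hp]

theorem wd {x a c b s t : ℝ} (ua1 : 3000 / 10000 ≤ x) (ua2 : x ≤ 5000 / 10000) (ua3 : -(570 / 10000) ≤ a) (ua4 : a ≤ 570 / 10000) (ua5 : 300 / 10000 ≤ c) (ua6 : c ≤ 1100 / 10000) (ua7 : -(60 / 10000) ≤ b) (ua8 : b ≤ 570 / 10000) (ua9 : 0 / 10000 ≤ s) (ua10 : s ≤ 500 / 10000) (ua11 : -(1040 / 10000) ≤ t) (ua12 : t ≤ 50 / 10000) (ua13 : 0 ≤ 20 * (t * s) + b) :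
    rV (uu c (20 * (t * s) + b) + Real.pi * (20 * (t * s) + b)) x a (c + (2 / 10 + s)) b (8 / 10 - s) (20 * (t * s)) < rV (uu (58 / 100 + (c + (2 / 10 + s))) (t + b)) x a (c + (2 / 10 + s)) b (58 / 100) t := by
  have h : chkT [sub (V (E.uu (add (q 58 100) (add (var 2) (add (q 2 10) ER.s))) (add ER.t ER.b)) ER.x ER.a (add (var 2) (add (q 2 10) ER.s)) ER.b (q 58 100) ER.t) (V (add (E.uu (var 2) (add hh ER.b)) (mul pi (add hh ER.b))) ER.x ER.a (add (var 2) (add (q 2 10) ER.s)) ER.b rr hh), neg (add hh ER.b)] 40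
    5113993047050075028213249350774205198527514173899731048848222360263268074949490235230820679613146356143226029093
    [NumI.V.of 10000 3000 5000, NumI.V.of 10000 (-570) 570, NumI.V.of 10000 300 1100, NumI.V.of 10000 (-60) 570, NumI.V.of 10000 0 500, NumI.V.of 10000 (-1040) 50] = true := by
    decide +kernel
  obtain ⟨f, hf, hp⟩ := chkT_sound h (xs := [x, a, c, b, s, t])
    (List.Forall₂.cons (NumI.V.of_mem (by norm_num) (by norm_num; linarith only [ua1]) (by norm_num; linarith only [ua2])) (List.Forall₂.cons (NumI.V.of_mem (by norm_num) (by norm_num; linarith only [ua3]) (by norm_num; linarith only [ua4])) (List.Forall₂.cons (NumI.V.of_mem (by norm_num) (by norm_num; linarith only [ua5]) (by norm_num; linarith only [ua6])) (List.Forall₂.cons (NumI.V.of_mem (by norm_num) (by norm_num; linarith only [ua7]) (by norm_num; linarith only [ua8])) (List.Forall₂.cons (NumI.V.of_mem (by norm_num) (by norm_num; linarith only [ua9]) (by norm_num; linarith only [ua10])) (List.Forall₂.cons (NumI.V.of_mem (by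 norm_num) (by norm_num; linarith only [ua11]) (by norm_num; linarith only [ua12])) List.Forall₂.nil))))))
  by_contra hc
  push Not at hc
  simp only [List.mem_cons, List.not_mem_nil, or_false] at hf
  rcases hf with rfl | rfl
  · simp only [G_val, V_val, ER.pp, ER.rr, ER.hh, ER.x, ER.a, ER.w, ER.b, ER.s, ER.t, E.val, NumI.lkR] at hp
    push_cast at hp
    linarith only [hc, hp]
  · simp only [G_val, V_val, ER.pp, ER.rr, ER.hh, ER.x, ER.a, ER.w, ER.b, ER.s, ER.t, E.val, NumI.lkR] at hp
    push_cast at hp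
    linarith only [ua13, hp]

end S0R

end Pool.Agent.Work.MP_b30479_gt.G2
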