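import Mathlib

/-!
# The ring system of a chain of twist regions

Ring `i`: `π ζ_i = - s_i w_i` (`s_i = ± 1` the sign of the twist region, `b_i > 0` the number of
crossings), `κ_i = cos w_i`, `T = tan w_i`; for a neighbour with value `k = κ_j`:
`R = √(T ^ 2 + 1 / k ^ 2)` is the cotangent of the hinge variable, `sinh Q = T k`, `cosh Q = R k`;
ring equation: `b_i w_i = π - i s_i ∑_j Q (w_i, κ_j)`.
-/

namespace Pool.Agent.Work.MP_b30479_gt.G2

open Complex Set Filter Topology

/-- the number under the root -/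
noncomputable def ZZ0 (w k : ℂ) : ℂ := Complex.tan w ^ 2 + (k ^ 2)⁻¹

/-- the cotangent of the hinge variable, seen from the ring `w` with the neighbour value `k` -/
noncomputable def RR (w k : ℂ) : ℂ := ZZ0 w k ^ (2⁻¹ : ℂ)

/-- `sinh (QQ w k) = tan w * k` -/
noncomputable def QQ (w k : ℂ) : ℂ := log (Complex.tan w + RR w k) + log k

lemma RR_sq (w k : ℂ) : RR w k ^ 2 = ZZ0 w k := by
  unfold RR
  rw [← Complex.cpow_nat_mul]
  norm_num

lemma RR_re (w k : ℂ) : (RR w k).re = √((‖ZZ0 w k‖ + (ZZ0 w k).re) / 2) := Complex.cpow_inv_two_re _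

lemma ZZ0_slit {w k : ℂ} (h : 0 < (RR w k).re) : ZZ0 w k ∈ slitPlane := by
  rw [RR_re, Real.sqrt_pos] at h
  rw [Complex.mem_slitPlane_iff]
  by_contra hc
  rw [not_or, not_lt, not_not] at hc
  have h1 : ‖ZZ0 w k‖ = -(ZZ0 w k).re := by
    rw [← abs_of_nonpos hc.1, Complex.abs_re_eq_norm.2 hc.2]
  rw [h1] at h
  linarith only [h]

lemma RR_ne {w k : ℂ} (h : 0 < (RR w k).re) : RR w k ≠ 0 := fun h0 => by
  rw [h0] at h
  exact lt_irrefl _ h

lemma tan_re_pos {w : ℂ} (h0 : 0 < w.re) (h1 : w.re ≤ 3 / 2) : 0 < (Complex.tan w).re := by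
  have hpi := Real.pi_gt_three
  have h2 : 0 < Real.sin (2 * w.re) := Real.sin_pos_of_pos_of_lt_pi (by linarith only [h0]) (by linarith only [h1, hpi])
  have hc0 : 0 < Real.cos w.re := Real.cos_pos_of_mem_Ioo ⟨by linarith only [h0, hpi], by linarith only [h1, hpi]⟩
  have hs0 : 0 < Real.sin w.re := Real.sin_pos_of_pos_of_lt_pi h0 (by linarith only [h1, hpi])
  have hch : 0 < Real.cosh w.im := Real.cosh_pos _
  have hcos : Complex.cos w = (Real.cos w.re * Real.cosh w.im : ℝ) +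
      (-(Real.sin w.re * Real.sinh w.im) : ℝ) * I := by
    conv_lhs => rw [← Complex.re_add_im w]
    rw [Complex.cos_add_mul_I]
    push_cast
    ring
  have hsin : Complex.sin w = (Real.sin w.re * Real.cosh w.im : ℝ) +
      (Real.cos w.re * Real.sinh w.im : ℝ) * I := by
    conv_lhs => rw [← Complex.re_add_im w]
    rw [Complex.sin_add_mul_I]
    push_cast
    ring
  have hn : 0 < Complex.normSq (Complex.cos w) := by
    rw [Complex.normSq_pos]
    intro h
    have := congrArg Complex.re h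
    rw [hcos] at this
    simp at this
    rcases this with h3 | h3
    · exact hc0.ne' h3
    · exact hch.ne' h3
  rw [Complex.tan, Complex.div_re, hcos, hsin]
  rw [hcos] at hn
  simp only [Complex.add_re, Complex.ofReal_re, Complex.mul_re, Complex.ofReal_im, Complex.I_re,
    Complex.I_im, mul_zero, mul_one, sub_zero, add_zero, Complex.add_im, Complex.mul_im,
    zero_add]
  rw [← add_div]
  apply div_pos _ hn
  have e : Real.sin w.re * Real.cosh w.im * (Real.cos w.re * Real.cosh w.im) +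
      Real.cos w.re * Real.sinh w.im * -(Real.sin w.re * Real.sinh w.im) =
      Real.sin w.re * Real.cos w.re * (Real.cosh w.im ^ 2 - Real.sinh w.im ^ 2) := by ring
  rw [e, Real.cosh_sq_sub_sinh_sq, mul_one]
  exact mul_pos hs0 hc0

lemma cos_ne_of {w : ℂ} (h : 0 < (Complex.cos w).re) : Complex.cos w ≠ 0 := fun h0 => by
  rw [h0] at h
  exact lt_irrefl _ h

/-- derivative of `QQ` along curves -/
lemma hasFDerivAt_QQ {E : Type*} [NormedAddCommGroup E] [NormedSpace ℂ E] {f g : E → ℂ}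
    {f' g' : E →L[ℂ] ℂ} {x : E} (hf : HasFDerivAt f f' x) (hg : HasFDerivAt g g' x)
    (h0 : 0 < (f x).re) (h1 : (f x).re ≤ 3 / 2) (hc : Complex.cos (f x) ≠ 0) (hk : 0 < (g x).re)
    (hR : 0 < (RR (f x) (g x)).re) :
    HasFDerivAt (fun y => QQ (f y) (g y))
      ((1 / (Complex.cos (f x) ^ 2 * RR (f x) (g x))) • f' +
        (Complex.tan (f x) / (RR (f x) (g x) * g x)) • g') x := by
  have hk0 : g x ≠ 0 := fun h => by rw [h] at hk; exact lt_irrefl _ hk
  have hT : HasFDerivAt (fun y => Complex.tan (f y)) ((1 / Complex.cos (f x) ^ 2) • f') x :=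
    (Complex.hasDerivAt_tan hc).comp_hasFDerivAt x hf
  have hg2 : HasFDerivAt (fun y => (g y ^ 2)⁻¹) ((-2 / g x ^ 3) • g') x := by
    have h2 : HasDerivAt (fun z : ℂ => (z ^ 2)⁻¹) (-2 / g x ^ 3) (g x) := by
      have := ((hasDerivAt_pow 2 (g x)).inv (pow_ne_zero 2 hk0))
      refine this.congr_deriv ?_
      field_simp
      norm_num
      ring
    exact h2.comp_hasFDerivAt x hg
  have hZ : HasFDerivAt (fun y => ZZ0 (f y) (g y))
      ((2 * Complex.tan (f x)) • ((1 / Complex.cos (f x) ^ 2) • f') + (-2 / g x ^ 3) • g') x := by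
    have := hT.pow 2
    simp only [Nat.reduceSub, pow_one] at this
    refine (this.add hg2).congr_fderiv ?_
    ext y
    simp
  have hs := ZZ0_slit hR
  have hR0 := RR_ne hR
  have hRd : HasFDerivAt (fun y => RR (f y) (g y)) ((1 / (2 * RR (f x) (g x))) •
      ((2 * Complex.tan (f x)) • ((1 / Complex.cos (f x) ^ 2) • f') + (-2 / g x ^ 3) • g')) x := by
    have h2 : HasDerivAt (fun z : ℂ => z ^ (2⁻¹ : ℂ)) (1 / (2 * RR (f x) (g x)))
        (ZZ0 (f x) (g x)) := by
      have h3 := (hasDerivAt_id (ZZ0 (f x) (g x))).cpow_const (c := (2⁻¹ : ℂ)) hs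
      refine h3.congr_deriv ?_
      have h4 : ZZ0 (f x) (g x) ^ ((2⁻¹ : ℂ) - 1) = (RR (f x) (g x))⁻¹ := by
        unfold RR
        rw [← Complex.cpow_neg]
        norm_num
      simp only [id, h4, mul_one]
      field_simp
    exact h2.comp_hasFDerivAt x hZ
  have hTR : Complex.tan (f x) + RR (f x) (g x) ∈ slitPlane := by
    rw [Complex.mem_slitPlane_iff]
    left
    rw [Complex.add_re]
    exact add_pos (tan_re_pos h0 h1) hR
  have hTR0 := Complex.slitPlane_ne_zero hTR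
  have hgs : g x ∈ slitPlane := by
    rw [Complex.mem_slitPlane_iff]
    exact Or.inl hk
  have h5 := ((hT.add hRd).clog hTR).add (hg.clog hgs)
  refine h5.congr_fderiv ?_
  ext y
  have e2 : RR (f x) (g x) ^ 2 = Complex.tan (f x) ^ 2 + (g x ^ 2)⁻¹ := RR_sq _ _
  simp only [_root_.add_apply, _root_.smul_apply, smul_eq_mul, Pi.add_apply]
  set R := RR (f x) (g x)
  set T := Complex.tan (f x)
  set c := Complex.cos (f x)
  set k := g x
  have e3 : k ^ 2 * (R ^ 2 - T ^ 2) = 1 := by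
    rw [e2]
    field_simp
    ring
  have e4 : k ^ 2 * (R - T) * (T + R) = 1 := by linear_combination e3
  have e5 : (T + R)⁻¹ = k ^ 2 * (R - T) := by
    rw [inv_eq_iff_eq_inv, eq_comm, inv_eq_iff_eq_inv, eq_comm]
    field_simp
    linear_combination -e4
  rw [e5]
  field_simp
  linear_combination (k * f' y) * e3

/-! ### the system -/

variable {ι : Type} [Fintype ι] [DecidableEq ι]

/-- the neighbour value at the time `θ` of the continuation -/
noncomputable def kap (θ : ℝ) (w : ℂ) : ℂ := 1 - θ + θ * Complex.cos w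

/-- the ring system; `nb i` are the neighbours of `i` -/
noncomputable def FF (nb : ι → Finset ι) (b s : ι → ℝ) (θ : ℝ) (w : ι → ℂ) (i : ι) : ℂ :=
  b i * w i - Real.pi + I * s i * ∑ j ∈ nb i, QQ (w i) (kap θ (w j))

/-- the derivative of the ring system -/
noncomputable def JRing (nb : ι → Finset ι) (b s : ι → ℝ) (θ : ℝ) (w : ι → ℂ) : Matrix ι ι ℂ :=
  fun i j => (if j = i then b i + I * s i * ∑ k ∈ nb i,
      1 / (Complex.cos (w i) ^ 2 * RR (w i) (kap θ (w k))) else 0) +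
    if j ∈ nb i then -(I * s i * θ * (Complex.tan (w i) * Complex.sin (w j) /
      (RR (w i) (kap θ (w j)) * kap θ (w j)))) else 0

/-- star shaped hull about `1` -/
def Star1 (K : Set ℂ) : Set ℂ := {k | ∃ θ : ℝ, 0 ≤ θ ∧ θ ≤ 1 ∧ ∃ z ∈ K, k = 1 - θ + θ * z}

/-- the statement about one ring: neighbours with values `k j ∈ Star1 (K j)`, own value in `K i` -/
structure RingOK (nb : ι → Finset ι) (b s : ι → ℝ) (K U : ι → Set ℂ) (r : ℝ) (i : ι)
    (k : ι → ℂ) (w : ℂ) : Prop where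
  re0 : 0 < w.re
  re1 : w.re < 3 / 2
  im : |w.im| < 2
  mem : Complex.cos w ∈ U i
  hinge : ∀ j ∈ nb i, r < (RR w (k j)).re
  dom : ∑ j ∈ nb i, ‖Complex.tan w ^ 2 / RR w (k j)‖ <
    ‖(b i : ℂ) + I * s i * ∑ j ∈ nb i, 1 / (Complex.cos w ^ 2 * RR w (k j))‖

/-- the statement about all rings -/
def RingsOK (nb : ι → Finset ι) (b s : ι → ℝ) (K U : ι → Set ℂ) (r : ℝ) : Prop :=
  ∀ i, ∀ k : ι → ℂ, (∀ j ∈ nb i, k j ∈ Star1 (K j)) → ∀ w : ℂ, 0 ≤ w.re → w.re ≤ 3 / 2 → |w.im| ≤ 2 →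
    Complex.cos w ∈ K i → (∀ j ∈ nb i, r ≤ (RR w (k j)).re) →
    b i * w - Real.pi + I * s i * ∑ j ∈ nb i, QQ w (k j) = 0 → RingOK nb b s K U r i k w

end Pool.Agent.Work.MP_b30479_gt.G2
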