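import Pool.Agent.Work.MP_b30479_gt.G2.S2Cert

/-!
# From the polygons to the scaled vertex lists of the certificates (scale 16)
-/

namespace Pool.Agent.Work.MP_b30479_gt.G2.SC

open scoped ComplexConjugate

/-- scaling by `16` -/
def s16 (p : ℤ × ℤ) : ℤ × ℤ := (16 * p.1, 16 * p.2)

lemma edges_map (f : ℤ × ℤ → ℤ × ℤ) (V : List (ℤ × ℤ)) :
    edges (V.map f) = (edges V).map fun e => (f e.1, f e.2) := by
  unfold edges
  rw [← List.map_rotate, List.zip_map]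
  rfl

lemma rg_of_poly {V : List (ℤ × ℤ)} {W : List (ℕ × ℕ)} (h : W.map tz = V.map s16) {z : ℂ}
    (hz : z ∈ Poly V) : 16000 * z ∈ Rg W := by
  intro e he
  rw [h, edges_map] at he
  obtain ⟨d, hd, rfl⟩ := List.mem_map.1 he
  have h1 := mem_Poly.1 hz d hd
  have : xr (s16 d.1) (s16 d.2) (16000 * z) = 256 * xr d.1 d.2 (1000 * z) := by
    simp only [xr, s16, Complex.mul_re, Complex.mul_im, Complex.re_ofNat, Complex.im_ofNat]
    push_cast
    ring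
  show 0 ≤ xr (s16 d.1) (s16 d.2) (16000 * z)
  rw [this]
  exact mul_nonneg (by norm_num) h1

lemma zp_s16 (p : ℤ × ℤ) : zp (s16 p) = 16 * zp p := by
  apply Complex.ext <;> simp [zp, s16]

/-- `z` is on an edge of the polygon -/
def OnE (V : List (ℤ × ℤ)) (z : ℂ) : Prop :=
  ∃ e ∈ edges V, ∃ s t : ℝ, 0 ≤ s ∧ 0 ≤ t ∧ s + t = 1 ∧ 1000 * z = s * zp e.1 + t * zp e.2

lemma onE_of {V : List (ℤ × ℤ)} (hV : cvx V) {z : ℂ} (hz : z ∈ Poly V) (h : z ∉ PolyU V) :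
    OnE V z := by
  have h2 : ∃ e ∈ edges V, ¬ 0 < cr e.1 e.2 z := by
    by_contra hc
    push Not at hc
    exact h fun e he => hc e he
  obtain ⟨e, he, h3⟩ := h2
  have h4 : xr e.1 e.2 (1000 * z) = 0 := by
    rw [← cr_eq]
    exact le_antisymm (not_lt.1 h3) (hz e he)
  obtain ⟨s, t, hs, ht, h5, h6⟩ := on_edge hV (mem_Poly.1 hz) he h4
  exact ⟨e, he, s, t, hs, ht, h5, h6⟩

/-- all edges have a certificate -/
def edgeOK (c : Cfg) (E : List ((ℕ × ℕ) × (ℕ × ℕ))) (V0 V1 V2 : List (ℕ × ℕ)) : Prop :=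
  ∀ e ∈ E, ∃ T, chkT c c T e.1 e.2 V0 V1 V2 = true

lemma edge_use {c : Cfg} {a : ℕ → ℂ} (hL : Rp c.L a) {E : List ((ℕ × ℕ) × (ℕ × ℕ))}
    {V0 V1 V2 : List (ℕ × ℕ)} (h : edgeOK c E V0 V1 V2) {V : List (ℤ × ℤ)}
    (hE : E.map (fun e => (tz e.1, tz e.2)) = (edges V).map fun e => (s16 e.1, s16 e.2))
    {z Z0 Z1 Z2 : ℂ} (hz : OnE V z) (h0 : Z0 ∈ Rg V0) (h1 : Z1 ∈ Rg V1) (h2 : Z2 ∈ Rg V2) :
    app (slots c (16000 * z) Z0 Z1 Z2) a 0 ≠ 0 := by
  obtain ⟨e, he, s, t, hs, ht, h5, h6⟩ := hz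
  have he2 : (s16 e.1, s16 e.2) ∈ (edges V).map fun e => (s16 e.1, s16 e.2) :=
    List.mem_map.2 ⟨e, he, rfl⟩
  rw [← hE] at he2
  obtain ⟨d, hd, h7⟩ := List.mem_map.1 he2
  obtain ⟨T, hT⟩ := h d hd
  have hp : tz d.1 = s16 e.1 := congrArg Prod.fst h7
  have hq : tz d.2 = s16 e.2 := congrArg Prod.snd h7
  have hS : 16000 * z ∈ Sg d.1 d.2 := by
    refine ⟨s, t, hs, ht, h5, ?_⟩
    rw [← zp_tz, ← zp_tz, hp, hq, zp_s16, zp_s16]
    linear_combination 16 * h6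
  rcases chkT_sound hL hL T d.1 d.2 V0 V1 V2 hT _ Z0 Z1 Z2 hS h0 h1 h2 with h8 | h8 <;> exact h8

/-- the dummy polygon -/
def dum : List (ℕ × ℕ) := [(0, 0), (1, 0), (0, 1)]

lemma zero_dum : (0 : ℂ) ∈ Rg dum := by
  intro e he
  have : edges (dum.map tz) = [((0, 0), (1, 0)), ((1, 0), (0, 1)), ((0, 1), (0, 0))] := by rfl
  rw [this] at he
  simp only [List.mem_cons, List.not_mem_nil, or_false] at he
  rcases he with rfl | rfl | rfl <;> simp [xr]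

/-- scaled ports -/
def nA : List (ℕ × ℕ) :=
  [(6720, 3936), (12256, 0), (16000, 0), (13296, 10816), (11680, 10816), (8000, 8240), (6720, 7120)]

/-- scaled ports -/
def nS : List (ℕ × ℕ) :=
  [(8000, 3520), (12800, 0), (16000, 0), (13296, 10816), (11712, 10816), (8000, 7680)]

/-- scaled ports -/
def nT : List (ℕ × ℕ) :=
  [(8000, 3520), (12800, 0), (16000, 0), (12592, 8720), (11792, 8720), (8000, 5440)]

lemma rgA {k : ℂ} (h : k ∈ Poly pA) : 16000 * k ∈ Rg nA := rg_of_poly (by decide) h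

lemma rgS {k : ℂ} (h : k ∈ Poly pS) : 16000 * k ∈ Rg nS := rg_of_poly (by decide) h

lemma rgT {k : ℂ} (h : k ∈ Poly pT) : 16000 * k ∈ Rg nT := rg_of_poly (by decide) h

lemma mr_true (k : ℂ) : mr true (16000 * conj k) = Complex.I * (16000 * k) := by
  simp only [mr, if_true, map_mul, Complex.conj_conj]
  congr 2
  exact map_ofNat (starRingEnd ℂ) 16000

lemma mr_false (k : ℂ) : mr false (16000 * k) = 16000 * k := by
  simp [mr]

/-- the segment of the hinge exclusion -/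
lemma hinge_seg {R : ℂ} (h : R.re = r0) (hi : |R.im| ≤ 4) :
    16000 * (R + 4 * Complex.I) ∈ Sg (160, 0) (160, 128000) := by
  rw [abs_le] at hi
  refine ⟨1 - (R.im + 4) / 8, (R.im + 4) / 8, by linarith [hi.2], by linarith [hi.1], by ring, ?_⟩
  apply Complex.ext
  · simp only [Complex.add_re, Complex.mul_re, Complex.ofReal_re, Complex.ofReal_im, zero_mul,
      sub_zero, pv, Complex.re_ofNat, Complex.im_ofNat, Complex.I_re, Complex.I_im, mul_zero,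
      h, r0]
    push_cast
    ring
  · simp only [Complex.add_im, Complex.mul_im, Complex.ofReal_re, Complex.ofReal_im, zero_mul,
      pv, Complex.re_ofNat, Complex.im_ofNat, Complex.I_re, Complex.I_im, mul_zero, Complex.add_re,
      Complex.mul_re]
    push_cast
    ring

lemma hinge_use {c c' : Cfg} {a a' : ℕ → ℂ} (hL : Rp c.L a) (hL' : Rp c'.L a') {T : CT}
    {V0 V1 V2 : List (ℕ × ℕ)} (h : chkT c c' T (160, 0) (160, 128000) V0 V1 V2 = true)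
    {R Z0 Z1 Z2 : ℂ} (hR : R.re = r0) (hi : |R.im| ≤ 4) (h0 : Z0 ∈ Rg V0) (h1 : Z1 ∈ Rg V1)
    (h2 : Z2 ∈ Rg V2) :
    app (slots c (16000 * (R + 4 * Complex.I)) Z0 Z1 Z2) a 0 ≠ 0 ∨
      app (slots c' (16000 * (R + 4 * Complex.I)) Z0 Z1 Z2) a' 0 ≠ 0 :=
  chkT_sound hL hL' T _ _ V0 V1 V2 h _ Z0 Z1 Z2 (hinge_seg hR hi) h0 h1 h2

end Pool.Agent.Work.MP_b30479_gt.G2.SC
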