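import Pool.Agent.Work.MP_b30479_gt.G2.S2Geo

/-!
# Certificates: a polynomial has no zero on a product of polygons

Contraction form: a polynomial of degree `d` in a variable is a multi affine function of `d` points,
which is evaluated at the vertices. All numbers are natural numbers.
-/

namespace Pool.Agent.Work.MP_b30479_gt.G2.SC

/-- a Gaussian integer `(a - b) + (c - d) i` -/
structure G4 where
  a : ℕ
  b : ℕ
  c : ℕ
  d : ℕ

/-- `x + v y` for `v = p + q i` -/
def fma (v : ℕ × ℕ) (x y : G4) : G4 :=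
  ⟨Nat.add x.a (Nat.add (Nat.mul v.1 y.a) (Nat.mul v.2 y.d)),
   Nat.add x.b (Nat.add (Nat.mul v.1 y.b) (Nat.mul v.2 y.c)),
   Nat.add x.c (Nat.add (Nat.mul v.1 y.c) (Nat.mul v.2 y.a)),
   Nat.add x.d (Nat.add (Nat.mul v.1 y.d) (Nat.mul v.2 y.b))⟩

/-- reduced product -/
def mulE (x y : G4) : G4 :=
  let a := Nat.add (Nat.add (Nat.mul x.a y.a) (Nat.mul x.b y.b))
        (Nat.add (Nat.mul x.c y.d) (Nat.mul x.d y.c))
  let b := Nat.add (Nat.add (Nat.mul x.a y.b) (Nat.mul x.b y.a))
        (Nat.add (Nat.mul x.c y.c) (Nat.mul x.d y.d))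
  let c := Nat.add (Nat.add (Nat.mul x.a y.c) (Nat.mul x.b y.d))
        (Nat.add (Nat.mul x.c y.a) (Nat.mul x.d y.b))
  let d := Nat.add (Nat.add (Nat.mul x.a y.d) (Nat.mul x.b y.c))
        (Nat.add (Nat.mul x.c y.b) (Nat.mul x.d y.a))
  ⟨Nat.sub a b, Nat.sub b a, Nat.sub c d, Nat.sub d c⟩

/-- zip with `fma` -/
noncomputable def zw (v : ℕ × ℕ) (L : List G4) : List G4 → List G4 :=
  List.rec (motive := fun _ => List G4 → List G4) (fun _ => [])
    (fun x _ ih M => List.rec (motive := fun _ => List G4) [] (fun y M' _ => fma v x y :: ih M') M) L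

/-- drop -/
noncomputable def dr (B : ℕ) : List G4 → List G4 :=
  Nat.rec (motive := fun _ => List G4 → List G4) (fun L => L)
    (fun _ ih L => List.rec (motive := fun _ => List G4) [] (fun _ t _ => ih t) L) B

/-- contraction -/
noncomputable def ctr (B : ℕ) (v : ℕ × ℕ) (L : List G4) : List G4 := zw v L (dr B L)

/-- contraction with all sorted tuples of vertices -/
noncomputable def chkS (B d : ℕ) : (List (ℕ × ℕ) → List G4 → Bool) → List (ℕ × ℕ) → List G4 → Bool :=
  Nat.rec (motive := fun _ => (List (ℕ × ℕ) → List G4 → Bool) → List (ℕ × ℕ) → List G4 → Bool)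
    (fun rest V L => rest V L)
    (fun _ ih rest V L => List.rec (motive := fun _ => Bool) true
      (fun v W ihW => Bool.rec (motive := fun _ => Bool) false ihW (ih rest (v :: W) (ctr B v L)))
      V) d

/-- innermost loop: `xb + p yb + q yc < xa + p ya + q yd` for all vertices `p + q i` -/
noncomputable def lp (xa xb ya yb yc yd : ℕ) (V : List (ℕ × ℕ)) : Bool :=
  List.rec (motive := fun _ => Bool) true (fun v _ ih => Prod.rec (motive := fun _ => Bool)
    (fun p q => Bool.rec (motive := fun _ => Bool) ih false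
      (Nat.ble (Nat.add (Nat.add xa (Nat.mul p ya)) (Nat.mul q yd))
        (Nat.add (Nat.add xb (Nat.mul p yb)) (Nat.mul q yc)))) v) V

/-- last contraction -/
noncomputable def last1 (V : List (ℕ × ℕ)) (L : List G4) : Bool :=
  List.rec (motive := fun _ => Bool) false (fun x t _ =>
    List.rec (motive := fun _ => Bool) false (fun y _ _ =>
      G4.rec (motive := fun _ => Bool) (fun xa xb _ _ => G4.rec (motive := fun _ => Bool)
        (fun ya yb yc yd => lp xa xb ya yb yc yd V) y) x) t) L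

/-- multiplication of the tensor -/
noncomputable def mapE (e : G4) (L : List G4) : List G4 :=
  List.rec (motive := fun _ => List G4) [] (fun x _ ih => mulE e x :: ih) L

/-- swap the coordinates -/
noncomputable def swp (V : List (ℕ × ℕ)) : List (ℕ × ℕ) :=
  List.rec (motive := fun _ => List (ℕ × ℕ)) [] (fun v _ ih => (v.2, v.1) :: ih) V

/-- swap if mirrored -/
noncomputable def sw (m : Bool) (V : List (ℕ × ℕ)) : List (ℕ × ℕ) :=
  Bool.rec (motive := fun _ => List (ℕ × ℕ)) V (swp V) m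

/-- nonstrict left turn -/
def le3 (p q r : ℕ × ℕ) : Bool :=
  Nat.ble (Nat.add (Nat.add (Nat.mul q.1 p.2) (Nat.mul p.1 r.2)) (Nat.mul q.2 r.1))
    (Nat.add (Nat.add (Nat.mul q.1 r.2) (Nat.mul q.2 p.1)) (Nat.mul p.2 r.1))

/-- strict left turn -/
def lt3 (p q r : ℕ × ℕ) : Bool :=
  Nat.blt (Nat.add (Nat.add (Nat.mul q.1 p.2) (Nat.mul p.1 r.2)) (Nat.mul q.2 r.1))
    (Nat.add (Nat.add (Nat.mul q.1 r.2) (Nat.mul q.2 p.1)) (Nat.mul p.2 r.1))

/-- the fan at `v0` is positive; `p` is the current vertex -/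
noncomputable def fan (v0 : ℕ × ℕ) (l : List (ℕ × ℕ)) : (ℕ × ℕ) → Bool :=
  List.rec (motive := fun _ => (ℕ × ℕ) → Bool) (fun _ => true)
    (fun q _ ih p => Bool.rec (motive := fun _ => Bool) false (ih q) (lt3 v0 p q)) l

/-- shape -/
noncomputable def shp (V : List (ℕ × ℕ)) : Bool :=
  List.rec (motive := fun _ => Bool) false (fun v0 t _ =>
    List.rec (motive := fun _ => Bool) false (fun v1 t' _ =>
      List.rec (motive := fun _ => Bool) false (fun _ _ _ => fan v0 t' v1) t') t) V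

/-- all points of `V` are on the left of `p q` -/
noncomputable def allL (p q : ℕ × ℕ) (V : List (ℕ × ℕ)) : Bool :=
  List.rec (motive := fun _ => Bool) true
    (fun v _ ih => Bool.rec (motive := fun _ => Bool) false ih (le3 p q v)) V

/-- the edge `p q` lies on the boundary of the half plane `x ≤ m` (`ax = false`, `up = true`),
`x ≥ m` (`false`, `false`), `y ≤ m` (`true`, `true`), `y ≥ m` (`true`, `false`) -/
def chd (ax up : Bool) (m : ℕ) (p q : ℕ × ℕ) : Bool :=
  match ax, up with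
  | false, true => Nat.beq p.1 m && Nat.beq q.1 m && Nat.ble p.2 q.2
  | false, false => Nat.beq p.1 m && Nat.beq q.1 m && Nat.ble q.2 p.2
  | true, true => Nat.beq p.2 m && Nat.beq q.2 m && Nat.ble q.1 p.1
  | true, false => Nat.beq p.2 m && Nat.beq q.2 m && Nat.ble p.1 q.1

/-- the edges of `W` (from `p` on, closing at `v0`) are implied by `V` and the half plane -/
noncomputable def subE (ax up : Bool) (m : ℕ) (V : List (ℕ × ℕ)) (v0 : ℕ × ℕ)
    (W : List (ℕ × ℕ)) : (ℕ × ℕ) → Bool :=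
  List.rec (motive := fun _ => (ℕ × ℕ) → Bool)
    (fun p => Bool.rec (motive := fun _ => Bool) (allL p v0 V) true (chd ax up m p v0))
    (fun q _ ih p => Bool.rec (motive := fun _ => Bool) false (ih q)
      (Bool.rec (motive := fun _ => Bool) (allL p q V) true (chd ax up m p q))) W

/-- child of a cut -/
noncomputable def child (ax up : Bool) (m : ℕ) (V W : List (ℕ × ℕ)) : Bool :=
  List.rec (motive := fun _ => Bool) false (fun v0 t _ => subE ax up m V v0 t v0) W

/-- the edges of `W` (from `p` on, closing at `v0`) have `V` on the left -/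
noncomputable def relE (V : List (ℕ × ℕ)) (v0 : ℕ × ℕ) (W : List (ℕ × ℕ)) : (ℕ × ℕ) → Bool :=
  List.rec (motive := fun _ => (ℕ × ℕ) → Bool) (fun p => allL p v0 V)
    (fun q _ ih p => Bool.rec (motive := fun _ => Bool) false (ih q) (allL p q V)) W

/-- `V` is contained in `W` -/
noncomputable def relc (V W : List (ℕ × ℕ)) : Bool :=
  List.rec (motive := fun _ => Bool) false (fun v0 t _ => relE V v0 t v0) W

/-- certificate trees -/
inductive CT
  | leaf (e : G4)
  | leaf2 (e : G4)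
  | rel0 (W : List (ℕ × ℕ)) (t : CT)
  | rel1 (W : List (ℕ × ℕ)) (t : CT)
  | rel2 (W : List (ℕ × ℕ)) (t : CT)
  | seg (m : ℕ × ℕ) (t1 t2 : CT)
  | cut0 (ax : Bool) (m : ℕ) (W1 W2 : List (ℕ × ℕ)) (t1 t2 : CT)
  | cut1 (ax : Bool) (m : ℕ) (W1 W2 : List (ℕ × ℕ)) (t1 t2 : CT)
  | cut2 (ax : Bool) (m : ℕ) (W1 W2 : List (ℕ × ℕ)) (t1 t2 : CT)

/-- degrees, block lengths, mirror flags, tensor -/
structure Cfg where
  ds : ℕ
  d0 : ℕ
  d1 : ℕ
  d2 : ℕ
  Bs : ℕ
  B0 : ℕ
  B1 : ℕ
  m0 : Bool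
  m1 : Bool
  m2 : Bool
  L : List G4

/-- and -/
def an (x y : Bool) : Bool := Bool.rec (motive := fun _ => Bool) false y x

/-- leaf -/
noncomputable def chkL (c : Cfg) (e : G4) (p q : ℕ × ℕ) (V0 V1 V2 : List (ℕ × ℕ)) : Bool :=
  an (shp V0) (an (shp V1) (an (shp V2)
    (chkS c.Bs c.ds (fun _ L => chkS c.B0 c.d0 (fun _ L => chkS c.B1 c.d1 (fun _ L =>
      chkS 1 c.d2 last1 (sw c.m2 V2) L) (sw c.m1 V1) L) (sw c.m0 V0) L) [p, q] (mapE e c.L))))

/-- `m` is the midpoint of `p`, `q` -/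
def mid (p q m : ℕ × ℕ) : Bool :=
  an (Nat.beq (Nat.add p.1 q.1) (Nat.add m.1 m.1)) (Nat.beq (Nat.add p.2 q.2) (Nat.add m.2 m.2))

/-- tree check; a leaf uses the first or the second polynomial -/
noncomputable def chkT (c c' : Cfg) (T : CT) :
    (ℕ × ℕ) → (ℕ × ℕ) → List (ℕ × ℕ) → List (ℕ × ℕ) → List (ℕ × ℕ) → Bool :=
  CT.rec (motive := fun _ =>
      (ℕ × ℕ) → (ℕ × ℕ) → List (ℕ × ℕ) → List (ℕ × ℕ) → List (ℕ × ℕ) → Bool)
    (fun e p q V0 V1 V2 => chkL c e p q V0 V1 V2)
    (fun e p q V0 V1 V2 => chkL c' e p q V0 V1 V2)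
    (fun W _ i p q V0 V1 V2 => an (shp V0) (an (relc V0 W) (i p q W V1 V2)))
    (fun W _ i p q V0 V1 V2 => an (shp V1) (an (relc V1 W) (i p q V0 W V2)))
    (fun W _ i p q V0 V1 V2 => an (shp V2) (an (relc V2 W) (i p q V0 V1 W)))
    (fun m _ _ i1 i2 p q V0 V1 V2 => an (mid p q m) (an (i1 p m V0 V1 V2) (i2 m q V0 V1 V2)))
    (fun ax m W1 W2 _ _ i1 i2 p q V0 V1 V2 => an (shp V0) (an (child ax true m V0 W1)
      (an (child ax false m V0 W2) (an (i1 p q W1 V1 V2) (i2 p q W2 V1 V2)))))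
    (fun ax m W1 W2 _ _ i1 i2 p q V0 V1 V2 => an (shp V1) (an (child ax true m V1 W1)
      (an (child ax false m V1 W2) (an (i1 p q V0 W1 V2) (i2 p q V0 W2 V2)))))
    (fun ax m W1 W2 _ _ i1 i2 p q V0 V1 V2 => an (shp V2) (an (child ax true m V2 W1)
      (an (child ax false m V2 W2) (an (i1 p q V0 V1 W1) (i2 p q V0 V1 W2)))))
    T

/-! ### semantics -/

/-- value -/
noncomputable def G4.v (x : G4) : ℂ := ⟨(x.a : ℝ) - x.b, (x.c : ℝ) - x.d⟩

/-- the complex number of a vertex -/
noncomputable def pv (v : ℕ × ℕ) : ℂ := ⟨(v.1 : ℝ), (v.2 : ℝ)⟩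

lemma fma_v (v : ℕ × ℕ) (x y : G4) : (fma v x y).v = x.v + pv v * y.v := by
  apply Complex.ext
  · simp only [fma, G4.v, pv, Complex.add_re, Complex.mul_re, Nat.add_eq, Nat.mul_eq]
    push_cast
    ring
  · simp only [fma, G4.v, pv, Complex.add_im, Complex.mul_im, Nat.add_eq, Nat.mul_eq]
    push_cast
    ring

lemma sub_cast (a b : ℕ) : ((Nat.sub a b : ℕ) : ℝ) - (Nat.sub b a : ℕ) = a - b := by
  simp only [Nat.sub_eq]
  rcases le_total a b with h | h
  · rw [Nat.sub_eq_zero_of_le h, Nat.cast_sub h]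
    push_cast
    ring
  · rw [Nat.sub_eq_zero_of_le h, Nat.cast_sub h]
    push_cast
    ring

lemma mulE_v (x y : G4) : (mulE x y).v = x.v * y.v := by
  apply Complex.ext
  · simp only [mulE, G4.v, Complex.mul_re, sub_cast]
    simp only [Nat.add_eq, Nat.mul_eq]
    push_cast
    ring
  · simp only [mulE, G4.v, Complex.mul_im, sub_cast]
    simp only [Nat.add_eq, Nat.mul_eq]
    push_cast
    ring

lemma zw_eq (v : ℕ × ℕ) : ∀ L M : List G4, zw v L M = List.zipWith (fma v) L M := by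
  intro L
  induction L with
  | nil => intro M; rfl
  | cons x L ih =>
    intro M
    cases M with
    | nil => rfl
    | cons y M =>
      rw [List.zipWith_cons_cons, ← ih M]
      rfl

lemma dr_eq : ∀ (B : ℕ) (L : List G4), dr B L = L.drop B := by
  intro B
  induction B with
  | zero => intro L; rfl
  | succ B ih =>
    intro L
    cases L with
    | nil => rfl
    | cons x L =>
      rw [List.drop_succ_cons, ← ih L]
      rfl

/-- contraction of sequences -/
noncomputable def sc (B : ℕ) (z : ℂ) (a : ℕ → ℂ) : ℕ → ℂ := fun i => a i + z * a (i + B)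

lemma sc_comm (B B' : ℕ) (z z' : ℂ) (a : ℕ → ℂ) : sc B z (sc B' z' a) = sc B' z' (sc B z a) := by
  funext i
  simp only [sc]
  rw [show i + B + B' = i + B' + B by ring]
  ring

/-- several contractions -/
noncomputable def app : List (ℕ × ℂ) → (ℕ → ℂ) → (ℕ → ℂ)
  | [], a => a
  | p :: l, a => app l (sc p.1 p.2 a)

lemma app_append (l l' : List (ℕ × ℂ)) : ∀ a : ℕ → ℂ, app (l ++ l') a = app l' (app l a) := by
  induction l with
  | nil => intro a; rfl
  | cons p l ih => intro a; exact ih _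

lemma app_perm {l l' : List (ℕ × ℂ)} (h : l.Perm l') : ∀ a : ℕ → ℂ, app l a = app l' a := by
  induction h with
  | nil => intro a; rfl
  | cons x _ ih => intro a; exact ih _
  | swap x y l =>
    intro a
    simp only [app]
    rw [sc_comm]
  | trans _ _ ih1 ih2 => intro a; rw [ih1, ih2]

lemma app_lin (l : List (ℕ × ℂ)) : ∀ (a b : ℕ → ℂ) (z : ℂ),
    app l (fun i => a i + z * b i) = fun i => app l a i + z * app l b i := by
  induction l with
  | nil => intro a b z; rfl
  | cons p l ih =>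
    intro a b z
    simp only [app]
    rw [← ih]
    congr 1
    funext i
    simp only [sc]
    ring

lemma app_smul (l : List (ℕ × ℂ)) (a : ℕ → ℂ) (z : ℂ) :
    app l (fun i => z * a i) = fun i => z * app l a i := by
  have h := app_lin l (fun _ => 0) a z
  have h0 : ∀ l : List (ℕ × ℂ), app l (fun _ => 0) = fun _ => 0 := by
    intro l
    induction l with
    | nil => rfl
    | cons p l ih =>
      simp only [app]
      have : sc p.1 p.2 (fun _ => 0) = fun _ => 0 := by funext i; simp [sc]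
      rw [this, ih]
  rw [h0 l] at h
  simpa using h

/-- the list represents the sequence -/
def Rp (L : List G4) (a : ℕ → ℂ) : Prop := ∀ (i : ℕ) (h : i < L.length), (L[i]).v = a i

lemma ctr_rp {L : List G4} {a : ℕ → ℂ} (h : Rp L a) (B : ℕ) (v : ℕ × ℕ) :
    Rp (ctr B v L) (sc B (pv v) a) := by
  intro i hi
  have e : ctr B v L = List.zipWith (fma v) L (L.drop B) := by rw [ctr, zw_eq, dr_eq]
  simp only [e] at hi ⊢
  rw [List.length_zipWith, List.length_drop, lt_min_iff] at hi
  rw [List.getElem_zipWith, fma_v, List.getElem_drop]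
  have h1 := h i hi.1
  have h2 := h (B + i) (by omega)
  rw [h1, h2, sc, add_comm B i]

/-- positivity for all tuples of vertices -/
def SS (B d : ℕ) (V : List (ℕ × ℕ)) (a : ℕ → ℂ) (R : List (ℕ × ℂ) → Prop) : Prop :=
  ∀ vs : List (ℕ × ℕ), vs.length = d → (∀ v ∈ vs, v ∈ V) → ∀ l, R l →
    0 < (app (vs.map (fun v => (B, pv v)) ++ l) a 0).re

lemma an_iff {x y : Bool} : an x y = true ↔ x = true ∧ y = true := by
  cases x <;> cases y <;> simp [an]

lemma chkS_sound {B k : ℕ} {rest : List (ℕ × ℕ) → List G4 → Bool} {R : List (ℕ × ℂ) → Prop}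
    (hrest : ∀ V L a, rest V L = true → Rp L a → SS B k V a R) :
    ∀ d V L a, chkS B d rest V L = true → Rp L a → SS B (d + k) V a R := by
  intro d
  induction d with
  | zero =>
    intro V L a h hL
    rw [zero_add]
    exact hrest V L a h hL
  | succ d ih =>
    intro V
    induction V with
    | nil =>
      intro L a _ _ vs hvs hV
      cases vs with
      | nil => simp only [List.length_nil] at hvs; omega
      | cons v vs => exact absurd (hV v (by simp)) (by simp)
    | cons v W ihW =>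
      intro L a h hL
      have h2 : an (chkS B d rest (v :: W) (ctr B v L)) (chkS B (d + 1) rest W L) = true := h
      rw [an_iff] at h2
      have h3 := ih (v :: W) _ _ h2.1 (ctr_rp hL B v)
      have h4 := ihW L a h2.2 hL
      intro vs hvs hV l hl
      by_cases hv : v ∈ vs
      · obtain ⟨vs', hp⟩ : ∃ vs', vs.Perm (v :: vs') := ⟨vs.erase v, List.perm_cons_erase hv⟩
        have hlen : vs'.length = d + k := by
          have := hp.length_eq
          rw [hvs, List.length_cons] at this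
          omega
        have := h3 vs' hlen (fun u hu => hV u (hp.symm.subset (List.mem_cons_of_mem _ hu))) l hl
        have e : app (vs.map (fun v => (B, pv v)) ++ l) a =
            app (vs'.map (fun v => (B, pv v)) ++ l) (sc B (pv v) a) := by
          rw [app_perm ((hp.map _).append_right l) a]
          rfl
        rw [e]
        exact this
      · refine h4 vs hvs (fun u hu => ?_) l hl
        rcases List.mem_cons.1 (hV u hu) with rfl | h5
        · exact absurd hu hv
        · exact h5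

/-- `Z` is in the hull of `V` -/
def InH (V : List (ℕ × ℕ)) (Z : ℂ) : Prop :=
  ∀ (A : ℂ) (c : ℝ), (∀ v ∈ V, 0 < (A * pv v).re + c) → 0 < (A * Z).re + c

lemma hull {B d : ℕ} {V : List (ℕ × ℕ)} {a : ℕ → ℂ} {R : List (ℕ × ℂ) → Prop} {Z : ℂ}
    (hZ : InH V Z) (h : SS B d V a R) : ∀ l, R l →
    0 < (app (List.replicate d (B, Z) ++ l) a 0).re := by
  intro l hl
  have key : ∀ k m, k + m = d → ∀ vs : List (ℕ × ℕ), vs.length = m → (∀ v ∈ vs, v ∈ V) →
      0 < (app (List.replicate k (B, Z) ++ (vs.map (fun v => (B, pv v)) ++ l)) a 0).re := by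
    intro k
    induction k with
    | zero =>
      intro m hm vs hvs hV
      exact h vs (by omega) hV l hl
    | succ k ih =>
      intro m hm vs hvs hV
      set X := List.replicate k (B, Z) ++ (vs.map (fun v => (B, pv v)) ++ l) with hX
      have e1 : ∀ z : ℂ, app ((B, z) :: X) a 0 = app X a 0 + z * app X (fun i => a (i + B)) 0 := by
        intro z
        have := app_lin X a (fun i => a (i + B)) z
        show app X (sc B z a) 0 = _
        rw [show sc B z a = fun i => a i + z * a (i + B) from rfl, this]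
      have e2 : app (List.replicate (k + 1) (B, Z) ++ (vs.map (fun v => (B, pv v)) ++ l)) a 0 =
          app ((B, Z) :: X) a 0 := rfl
      rw [e2, e1, Complex.add_re, add_comm, mul_comm]
      rw [mul_comm]
      have := hZ (app X (fun i => a (i + B)) 0) (app X a 0).re ?_
      · rw [mul_comm] at this
        exact this
      · intro v hv
        have h5 := ih (m + 1) (by omega) (v :: vs) (by simp [hvs])
          (by intro u hu; rcases List.mem_cons.1 hu with rfl | h6; exacts [hv, hV u h6])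
        have e3 : app (List.replicate k (B, Z) ++ ((v :: vs).map (fun v => (B, pv v)) ++ l)) a =
            app ((B, pv v) :: X) a := by
          apply app_perm
          rw [List.map_cons, List.cons_append, hX]
          exact List.perm_middle
        rw [e3, e1, Complex.add_re, add_comm, mul_comm] at h5
        exact h5
  have := key d 0 (by omega) [] rfl (by simp)
  simpa using this

lemma lp_iff {xa xb ya yb yc yd : ℕ} : ∀ V : List (ℕ × ℕ), lp xa xb ya yb yc yd V = true →
    ∀ v ∈ V, xb + v.1 * yb + v.2 * yc < xa + v.1 * ya + v.2 * yd := by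
  intro V
  induction V with
  | nil => intro _ v hv; exact absurd hv (by simp)
  | cons v V ih =>
    intro h u hu
    have h2 : Bool.rec (motive := fun _ => Bool) (lp xa xb ya yb yc yd V) false
      (Nat.ble (xa + v.1 * ya + v.2 * yd) (xb + v.1 * yb + v.2 * yc)) = true := h
    have h3 : Nat.ble (xa + v.1 * ya + v.2 * yd) (xb + v.1 * yb + v.2 * yc) = false ∧
        lp xa xb ya yb yc yd V = true := by
      revert h2
      cases Nat.ble (xa + v.1 * ya + v.2 * yd) (xb + v.1 * yb + v.2 * yc) <;> simp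
    rcases List.mem_cons.1 hu with rfl | h4
    · have h5 : ¬ (xa + u.1 * ya + u.2 * yd ≤ xb + u.1 * yb + u.2 * yc) := by
        intro h6
        rw [show Nat.ble (xa + u.1 * ya + u.2 * yd) (xb + u.1 * yb + u.2 * yc) = true from
          Nat.ble_eq_true_of_le h6] at h3
        exact absurd h3.1 (by simp)
      omega
    · exact ih h3.2 u h4

lemma last1_sound : ∀ (V : List (ℕ × ℕ)) (L : List G4) (a : ℕ → ℂ), last1 V L = true → Rp L a →
    SS 1 1 V a (fun l => l = []) := by
  intro V L a h hL vs hvs hV l hl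
  subst hl
  rw [List.append_nil]
  obtain ⟨v, rfl⟩ := List.length_eq_one_iff.1 hvs
  have hv : v ∈ V := hV v (by simp)
  match L, h with
  | x :: y :: t, h =>
    have h1 : lp x.a x.b y.a y.b y.c y.d V = true := h
    have h2 := lp_iff V h1 v hv
    have hx := hL 0 (by simp)
    have hy := hL 1 (by simp)
    simp only [List.getElem_cons_zero, List.getElem_cons_succ] at hx hy
    show 0 < (a 0 + pv v * a (0 + 1)).re
    rw [zero_add, ← hx, ← hy]
    simp only [G4.v, pv, Complex.add_re, Complex.mul_re]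
    have h3 : ((x.b + v.1 * y.b + v.2 * y.c : ℕ) : ℝ) < ((x.a + v.1 * y.a + v.2 * y.d : ℕ) : ℝ) := by
      exact_mod_cast h2
    push_cast at h3
    linarith only [h3]

lemma mapE_eq (e : G4) (L : List G4) : mapE e L = L.map (mulE e) := by
  induction L with
  | nil => rfl
  | cons x L ih =>
    rw [List.map_cons, ← ih]
    rfl

lemma mapE_rp {L : List G4} {a : ℕ → ℂ} (h : Rp L a) (e : G4) :
    Rp (mapE e L) (fun i => e.v * a i) := by
  intro i hi
  simp only [mapE_eq] at hi ⊢
  rw [List.getElem_map, mulE_v, h i (by simpa using hi)]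

/-! ### geometry -/

/-- integer vertex -/
def tz (v : ℕ × ℕ) : ℤ × ℤ := ((v.1 : ℤ), (v.2 : ℤ))

lemma zp_tz (v : ℕ × ℕ) : zp (tz v) = pv v := by
  simp [zp, tz, pv]

lemma le3_iff {p q r : ℕ × ℕ} : le3 p q r = true ↔ 0 ≤ xz (tz p) (tz q) (tz r) := by
  rw [le3, Nat.ble_eq]
  simp only [xz, tz, Nat.add_eq, Nat.mul_eq]
  zify
  constructor <;> intro h <;> linarith only [h]

lemma lt3_iff {p q r : ℕ × ℕ} : lt3 p q r = true ↔ 0 < xz (tz p) (tz q) (tz r) := by
  rw [lt3, Nat.blt_eq]
  simp only [xz, tz, Nat.add_eq, Nat.mul_eq]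
  zify
  constructor <;> intro h <;> linarith only [h]

lemma fan_areas (v0 : ℕ × ℕ) : ∀ (l : List (ℕ × ℕ)) (p : ℕ × ℕ), fan v0 l p = true →
    areas (tz v0) (tz p :: l.map tz) = true := by
  intro l
  induction l with
  | nil => intro p _; rfl
  | cons q l ih =>
    intro p h
    have h2 : an (lt3 v0 p q) (fan v0 l q) = true := h
    rw [an_iff, lt3_iff] at h2
    simp only [List.map_cons, areas, Bool.and_eq_true, decide_eq_true_eq]
    exact ⟨h2.1, ih q h2.2⟩

lemma shp_shape {V : List (ℕ × ℕ)} (h : shp V = true) : shape (V.map tz) = true := by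
  match V, h with
  | v0 :: v1 :: v2 :: l, h => exact fan_areas v0 (v2 :: l) v1 h

/-- region of a vertex list -/
def Rg (V : List (ℕ × ℕ)) : Set ℂ := PolyZ (V.map tz)

lemma Rg_InH {V : List (ℕ × ℕ)} (h : shp V = true) {Z : ℂ} (hZ : Z ∈ Rg V) : InH V Z := by
  intro A c hA
  refine poly_aff (shp_shape h) hZ fun v hv => ?_
  obtain ⟨u, hu, rfl⟩ := List.mem_map.1 hv
  rw [zp_tz]
  exact hA u hu

lemma allL_iff {p q : ℕ × ℕ} : ∀ {V : List (ℕ × ℕ)}, allL p q V = true →
    ∀ v ∈ V, le3 p q v = true := by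
  intro V
  induction V with
  | nil => intro _ v hv; exact absurd hv (by simp)
  | cons v V ih =>
    intro h u hu
    have h2 : an (le3 p q v) (allL p q V) = true := h
    rw [an_iff] at h2
    rcases List.mem_cons.1 hu with rfl | h3
    · exact h2.1
    · exact ih h2.2 u h3

lemma allL_left {p q : ℕ × ℕ} {V : List (ℕ × ℕ)} (hV : shp V = true) (h : allL p q V = true) {Z : ℂ}
    (hZ : Z ∈ Rg V) : 0 ≤ xr (tz p) (tz q) Z := by
  rw [xr_aff]
  refine poly_aff0 (shp_shape hV) hZ fun v hv => ?_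
  obtain ⟨u, hu, rfl⟩ := List.mem_map.1 hv
  rw [← xr_aff, xr_zp]
  exact_mod_cast le3_iff.1 (allL_iff h u hu)

/-- half planes -/
def HP (ax up : Bool) (m : ℕ) (Z : ℂ) : Prop :=
  match ax, up with
  | false, true => Z.re ≤ m
  | false, false => (m : ℝ) ≤ Z.re
  | true, true => Z.im ≤ m
  | true, false => (m : ℝ) ≤ Z.im

lemma chd_left {ax up : Bool} {m : ℕ} {p q : ℕ × ℕ} (h : chd ax up m p q = true) {Z : ℂ}
    (hZ : HP ax up m Z) : 0 ≤ xr (tz p) (tz q) Z := by
  obtain ⟨p1, p2⟩ := p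
  obtain ⟨q1, q2⟩ := q
  cases ax <;> cases up <;> simp only [chd, HP, Bool.and_eq_true, Nat.beq_eq, Nat.ble_eq] at h hZ <;>
    obtain ⟨⟨rfl, rfl⟩, h3⟩ := h <;> simp only [xr, tz] <;> push_cast
  · have h4 : (q2 : ℝ) ≤ p2 := by exact_mod_cast h3
    have := mul_nonneg (sub_nonneg.2 h4) (sub_nonneg.2 hZ)
    nlinarith only [this]
  · have h4 : (p2 : ℝ) ≤ q2 := by exact_mod_cast h3
    have := mul_nonneg (sub_nonneg.2 h4) (sub_nonneg.2 hZ)
    nlinarith only [this]
  · have h4 : (p1 : ℝ) ≤ q1 := by exact_mod_cast h3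
    have := mul_nonneg (sub_nonneg.2 h4) (sub_nonneg.2 hZ)
    nlinarith only [this]
  · have h4 : (q1 : ℝ) ≤ p1 := by exact_mod_cast h3
    have := mul_nonneg (sub_nonneg.2 h4) (sub_nonneg.2 hZ)
    nlinarith only [this]

/-- or -/
lemma or_rec {x y : Bool} (h : Bool.rec (motive := fun _ => Bool) x true y = true) :
    x = true ∨ y = true := by
  cases y
  · exact Or.inl h
  · exact Or.inr rfl

lemma subE_sound {ax up : Bool} {m : ℕ} {V : List (ℕ × ℕ)} (hV : shp V = true) {Z : ℂ}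
    (hZ : Z ∈ Rg V) (hH : HP ax up m Z) (v0 : ℕ × ℕ) : ∀ (W : List (ℕ × ℕ)) (p : ℕ × ℕ),
    subE ax up m V v0 W p = true → ∀ e ∈ eds (tz v0) (tz p :: W.map tz), 0 ≤ xr e.1 e.2 Z := by
  intro W
  induction W with
  | nil =>
    intro p h e he
    simp only [List.map_nil, eds, List.mem_singleton] at he
    subst he
    rcases or_rec (x := allL p v0 V) (y := chd ax up m p v0) h with h1 | h1
    · exact allL_left hV h1 hZ
    · exact chd_left h1 hH
  | cons q W ih =>
    intro p h e he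
    have h2 : an (Bool.rec (motive := fun _ => Bool) (allL p q V) true (chd ax up m p q))
      (subE ax up m V v0 W q) = true := h
    rw [an_iff] at h2
    simp only [List.map_cons, eds, List.mem_cons] at he
    rcases he with rfl | he
    · rcases or_rec h2.1 with h1 | h1
      · exact allL_left hV h1 hZ
      · exact chd_left h1 hH
    · exact ih q h2.2 e he

lemma child_sound {ax up : Bool} {m : ℕ} {V W : List (ℕ × ℕ)} (hV : shp V = true)
    (h : child ax up m V W = true) {Z : ℂ} (hZ : Z ∈ Rg V) (hH : HP ax up m Z) : Z ∈ Rg W := by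
  match W, h with
  | v0 :: t, h =>
    intro e he
    rw [List.map_cons, edges_cons] at he
    exact subE_sound hV hZ hH v0 t v0 h e he

lemma relE_sound {V : List (ℕ × ℕ)} (hV : shp V = true) {Z : ℂ}
    (hZ : Z ∈ Rg V) (v0 : ℕ × ℕ) : ∀ (W : List (ℕ × ℕ)) (p : ℕ × ℕ),
    relE V v0 W p = true → ∀ e ∈ eds (tz v0) (tz p :: W.map tz), 0 ≤ xr e.1 e.2 Z := by
  intro W
  induction W with
  | nil =>
    intro p h e he
    simp only [List.map_nil, eds, List.mem_singleton] at he
    subst he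
    exact allL_left hV h hZ
  | cons q W ih =>
    intro p h e he
    have h2 : an (allL p q V) (relE V v0 W q) = true := h
    rw [an_iff] at h2
    simp only [List.map_cons, eds, List.mem_cons] at he
    rcases he with rfl | he
    · exact allL_left hV h2.1 hZ
    · exact ih q h2.2 e he

lemma relc_sound {V W : List (ℕ × ℕ)} (hV : shp V = true)
    (h : relc V W = true) {Z : ℂ} (hZ : Z ∈ Rg V) : Z ∈ Rg W := by
  match W, h with
  | v0 :: t, h =>
    intro e he
    rw [List.map_cons, edges_cons] at he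
    exact relE_sound hV hZ v0 t v0 h e he

/-- segments -/
def Sg (p q : ℕ × ℕ) : Set ℂ := {Z | ∃ s t : ℝ, 0 ≤ s ∧ 0 ≤ t ∧ s + t = 1 ∧ Z = s * pv p + t * pv q}

lemma Sg_InH {p q : ℕ × ℕ} {Z : ℂ} (hZ : Z ∈ Sg p q) : InH [p, q] Z := by
  obtain ⟨s, t, hs, ht, h1, rfl⟩ := hZ
  intro A c h
  have hp := h p (by simp)
  have hq := h q (by simp)
  have e : (A * (s * pv p + t * pv q)).re + c =
      s * ((A * pv p).re + c) + t * ((A * pv q).re + c) := by
    have : c = (s + t) * c := by rw [h1, one_mul]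
    conv_lhs => rw [this]
    simp only [Complex.mul_re, Complex.add_re, Complex.add_im, Complex.mul_im, Complex.ofReal_re,
      Complex.ofReal_im]
    ring
  rw [e]
  rcases eq_or_lt_of_le hs with h0 | h0
  · have : t = 1 := by linarith only [h1, h0, hs]
    rw [← h0, this]
    linarith only [hq]
  · have := mul_pos h0 hp
    have := mul_nonneg ht hq.le
    linarith

lemma mid_sound {p q m : ℕ × ℕ} (h : mid p q m = true) {Z : ℂ} (hZ : Z ∈ Sg p q) :
    Z ∈ Sg p m ∨ Z ∈ Sg m q := by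
  rw [mid, an_iff, Nat.beq_eq, Nat.beq_eq] at h
  simp only [Nat.add_eq] at h
  have e : pv p + pv q = 2 * pv m := by
    apply Complex.ext
    · have : ((p.1 + q.1 : ℕ) : ℝ) = ((m.1 + m.1 : ℕ) : ℝ) := by exact_mod_cast h.1
      simp only [pv, Complex.add_re, Complex.mul_re, Complex.re_ofNat, Complex.im_ofNat]
      push_cast at this
      linarith only [this]
    · have : ((p.2 + q.2 : ℕ) : ℝ) = ((m.2 + m.2 : ℕ) : ℝ) := by exact_mod_cast h.2
      simp only [pv, Complex.add_im, Complex.mul_im, Complex.re_ofNat, Complex.im_ofNat]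
      push_cast at this
      linarith only [this]
  obtain ⟨s, t, hs, ht, h1, rfl⟩ := hZ
  rcases le_total t s with h2 | h2
  · refine Or.inl ⟨s - t, 2 * t, by linarith only [h2], by linarith only [ht], by linarith only [h1], ?_⟩
    push_cast
    linear_combination (t : ℂ) * e
  · refine Or.inr ⟨2 * s, t - s, by linarith only [hs], by linarith only [h2], by linarith only [h1], ?_⟩
    push_cast
    linear_combination (s : ℂ) * e

open scoped ComplexConjugate in
/-- mirrored variable -/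
noncomputable def mr (m : Bool) (Z : ℂ) : ℂ := if m then Complex.I * conj Z else Z

lemma swp_eq (V : List (ℕ × ℕ)) : swp V = V.map fun v => (v.2, v.1) := by
  induction V with
  | nil => rfl
  | cons v V ih =>
    rw [List.map_cons, ← ih]
    rfl

lemma InH_mr {V : List (ℕ × ℕ)} {Z : ℂ} (h : InH V Z) (m : Bool) : InH (sw m V) (mr m Z) := by
  cases m with
  | false => exact h
  | true =>
    intro A c hA
    have h1 := h (starRingEnd ℂ (A * Complex.I)) c (fun v hv => by
      have := hA (v.2, v.1) (by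
        show (v.2, v.1) ∈ swp V
        rw [swp_eq]
        exact List.mem_map.2 ⟨v, hv, rfl⟩)
      refine lt_of_lt_of_eq this ?_
      congr 1
      simp only [pv, Complex.mul_re, Complex.conj_re, Complex.conj_im, Complex.I_re, Complex.I_im,
        Complex.mul_im]
      ring)
    refine lt_of_lt_of_eq h1 ?_
    congr 1
    simp only [mr, Complex.mul_re, Complex.conj_re, Complex.conj_im, Complex.I_re, Complex.I_im,
        Complex.mul_im, if_true]
    ring

/-- the slots -/
noncomputable def slots (c : Cfg) (S Z0 Z1 Z2 : ℂ) : List (ℕ × ℂ) :=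
  List.replicate c.ds (c.Bs, S) ++ (List.replicate c.d0 (c.B0, mr c.m0 Z0) ++
    (List.replicate c.d1 (c.B1, mr c.m1 Z1) ++ (List.replicate (c.d2 + 1) (1, mr c.m2 Z2) ++ [])))

lemma chkL_sound {c : Cfg} {a : ℕ → ℂ} (hL : Rp c.L a) {e : G4} {p q : ℕ × ℕ}
    {V0 V1 V2 : List (ℕ × ℕ)} (h : chkL c e p q V0 V1 V2 = true) {S Z0 Z1 Z2 : ℂ}
    (hS : S ∈ Sg p q) (h0 : Z0 ∈ Rg V0) (h1 : Z1 ∈ Rg V1) (h2 : Z2 ∈ Rg V2) :
    app (slots c S Z0 Z1 Z2) a 0 ≠ 0 := by
  rw [chkL, an_iff, an_iff, an_iff] at h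
  obtain ⟨s0, s1, s2, h⟩ := h
  have a2 : ∀ (V : List (ℕ × ℕ)) (L : List G4) (a : ℕ → ℂ), chkS 1 c.d2 last1 V L = true →
      Rp L a → SS 1 (c.d2 + 1) V a (fun l => l = []) := fun V L a => chkS_sound last1_sound c.d2 V L a
  have b2 : ∀ (L : List G4) (a : ℕ → ℂ), chkS 1 c.d2 last1 (sw c.m2 V2) L = true → Rp L a →
      0 < (app (List.replicate (c.d2 + 1) (1, mr c.m2 Z2) ++ []) a 0).re := fun L a hc hr =>
    hull (InH_mr (Rg_InH s2 h2) c.m2) (a2 _ L a hc hr) [] rfl
  have b1 : ∀ (L : List G4) (a : ℕ → ℂ), chkS c.B1 c.d1 (fun _ L =>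
      chkS 1 c.d2 last1 (sw c.m2 V2) L) (sw c.m1 V1) L = true → Rp L a →
      0 < (app (List.replicate c.d1 (c.B1, mr c.m1 Z1) ++
        (List.replicate (c.d2 + 1) (1, mr c.m2 Z2) ++ [])) a 0).re := fun L a hc hr =>
    hull (R := fun l => l = List.replicate (c.d2 + 1) (1, mr c.m2 Z2) ++ [])
      (InH_mr (Rg_InH s1 h1) c.m1) (chkS_sound (k := 0) (fun V L a h' hr' vs hvs _ l hl => by
        rw [List.length_eq_zero_iff] at hvs
        subst hvs
        subst hl
        exact b2 L a h' hr') c.d1 _ L a hc hr) _ rfl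
  have b0 : ∀ (L : List G4) (a : ℕ → ℂ), chkS c.B0 c.d0 (fun _ L => chkS c.B1 c.d1 (fun _ L =>
      chkS 1 c.d2 last1 (sw c.m2 V2) L) (sw c.m1 V1) L) (sw c.m0 V0) L = true → Rp L a →
      0 < (app (List.replicate c.d0 (c.B0, mr c.m0 Z0) ++ (List.replicate c.d1 (c.B1, mr c.m1 Z1) ++
        (List.replicate (c.d2 + 1) (1, mr c.m2 Z2) ++ []))) a 0).re := fun L a hc hr =>
    hull (R := fun l => l = List.replicate c.d1 (c.B1, mr c.m1 Z1) ++
        (List.replicate (c.d2 + 1) (1, mr c.m2 Z2) ++ []))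
      (InH_mr (Rg_InH s0 h0) c.m0) (chkS_sound (k := 0) (fun V L a h' hr' vs hvs _ l hl => by
        rw [List.length_eq_zero_iff] at hvs
        subst hvs
        subst hl
        exact b1 L a h' hr') c.d0 _ L a hc hr) _ rfl
  have bs := hull (R := fun l => l = List.replicate c.d0 (c.B0, mr c.m0 Z0) ++
        (List.replicate c.d1 (c.B1, mr c.m1 Z1) ++
        (List.replicate (c.d2 + 1) (1, mr c.m2 Z2) ++ [])))
      (Sg_InH hS) (chkS_sound (k := 0) (fun V L a h' hr' vs hvs _ l hl => by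
        rw [List.length_eq_zero_iff] at hvs
        subst hvs
        subst hl
        exact b0 L a h' hr') c.ds _ _ _ h (mapE_rp hL e)) _ rfl
  intro h0
  rw [app_smul] at bs
  have : (e.v * app (slots c S Z0 Z1 Z2) a 0).re = 0 := by rw [h0]; simp
  rw [slots] at this
  exact absurd bs (by
    show ¬ 0 < (e.v * _).re
    rw [add_zero, this]
    exact lt_irrefl _)

/-- soundness of the tree -/
theorem chkT_sound {c c' : Cfg} {a a' : ℕ → ℂ} (hL : Rp c.L a) (hL' : Rp c'.L a') :
    ∀ (T : CT) (p q : ℕ × ℕ) (V0 V1 V2 : List (ℕ × ℕ)), chkT c c' T p q V0 V1 V2 = true →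
    ∀ S Z0 Z1 Z2 : ℂ, S ∈ Sg p q → Z0 ∈ Rg V0 → Z1 ∈ Rg V1 → Z2 ∈ Rg V2 →
    app (slots c S Z0 Z1 Z2) a 0 ≠ 0 ∨ app (slots c' S Z0 Z1 Z2) a' 0 ≠ 0 := by
  intro T
  induction T with
  | leaf e =>
    intro p q V0 V1 V2 h S Z0 Z1 Z2 hS h0 h1 h2
    exact Or.inl (chkL_sound hL h hS h0 h1 h2)
  | leaf2 e =>
    intro p q V0 V1 V2 h S Z0 Z1 Z2 hS h0 h1 h2
    exact Or.inr (chkL_sound hL' h hS h0 h1 h2)
  | rel0 W t ih =>
    intro p q V0 V1 V2 h S Z0 Z1 Z2 hS h0 h1 h2
    have h3 : an (shp V0) (an (relc V0 W) (chkT c c' t p q W V1 V2)) = true := h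
    rw [an_iff, an_iff] at h3
    exact ih p q W V1 V2 h3.2.2 S Z0 Z1 Z2 hS (relc_sound h3.1 h3.2.1 h0) h1 h2
  | rel1 W t ih =>
    intro p q V0 V1 V2 h S Z0 Z1 Z2 hS h0 h1 h2
    have h3 : an (shp V1) (an (relc V1 W) (chkT c c' t p q V0 W V2)) = true := h
    rw [an_iff, an_iff] at h3
    exact ih p q V0 W V2 h3.2.2 S Z0 Z1 Z2 hS h0 (relc_sound h3.1 h3.2.1 h1) h2
  | rel2 W t ih =>
    intro p q V0 V1 V2 h S Z0 Z1 Z2 hS h0 h1 h2
    have h3 : an (shp V2) (an (relc V2 W) (chkT c c' t p q V0 V1 W)) = true := h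
    rw [an_iff, an_iff] at h3
    exact ih p q V0 V1 W h3.2.2 S Z0 Z1 Z2 hS h0 h1 (relc_sound h3.1 h3.2.1 h2)
  | seg m t1 t2 ih1 ih2 =>
    intro p q V0 V1 V2 h S Z0 Z1 Z2 hS h0 h1 h2
    have h3 : an (mid p q m) (an (chkT c c' t1 p m V0 V1 V2) (chkT c c' t2 m q V0 V1 V2)) = true := h
    rw [an_iff, an_iff] at h3
    rcases mid_sound h3.1 hS with h4 | h4
    · exact ih1 p m V0 V1 V2 h3.2.1 S Z0 Z1 Z2 h4 h0 h1 h2
    · exact ih2 m q V0 V1 V2 h3.2.2 S Z0 Z1 Z2 h4 h0 h1 h2
  | cut0 ax m W1 W2 t1 t2 ih1 ih2 =>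
    intro p q V0 V1 V2 h S Z0 Z1 Z2 hS h0 h1 h2
    have h3 : an (shp V0) (an (child ax true m V0 W1) (an (child ax false m V0 W2)
      (an (chkT c c' t1 p q W1 V1 V2) (chkT c c' t2 p q W2 V1 V2)))) = true := h
    rw [an_iff, an_iff, an_iff, an_iff] at h3
    obtain ⟨g1, g2, g3, g4, g5⟩ := h3
    have hc : HP ax true m Z0 ∨ HP ax false m Z0 := by cases ax <;> exact le_total _ _
    rcases hc with hc | hc
    · exact ih1 p q W1 V1 V2 g4 S Z0 Z1 Z2 hS (child_sound g1 g2 h0 hc) h1 h2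
    · exact ih2 p q W2 V1 V2 g5 S Z0 Z1 Z2 hS (child_sound g1 g3 h0 hc) h1 h2
  | cut1 ax m W1 W2 t1 t2 ih1 ih2 =>
    intro p q V0 V1 V2 h S Z0 Z1 Z2 hS h0 h1 h2
    have h3 : an (shp V1) (an (child ax true m V1 W1) (an (child ax false m V1 W2)
      (an (chkT c c' t1 p q V0 W1 V2) (chkT c c' t2 p q V0 W2 V2)))) = true := h
    rw [an_iff, an_iff, an_iff, an_iff] at h3
    obtain ⟨g1, g2, g3, g4, g5⟩ := h3
    have hc : HP ax true m Z1 ∨ HP ax false m Z1 := by cases ax <;> exact le_total _ _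
    rcases hc with hc | hc
    · exact ih1 p q V0 W1 V2 g4 S Z0 Z1 Z2 hS h0 (child_sound g1 g2 h1 hc) h2
    · exact ih2 p q V0 W2 V2 g5 S Z0 Z1 Z2 hS h0 (child_sound g1 g3 h1 hc) h2
  | cut2 ax m W1 W2 t1 t2 ih1 ih2 =>
    intro p q V0 V1 V2 h S Z0 Z1 Z2 hS h0 h1 h2
    have h3 : an (shp V2) (an (child ax true m V2 W1) (an (child ax false m V2 W2)
      (an (chkT c c' t1 p q V0 V1 W1) (chkT c c' t2 p q V0 V1 W2)))) = true := h
    rw [an_iff, an_iff, an_iff, an_iff] at h3
    obtain ⟨g1, g2, g3, g4, g5⟩ := h3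
    have hc : HP ax true m Z2 ∨ HP ax false m Z2 := by cases ax <;> exact le_total _ _
    rcases hc with hc | hc
    · exact ih1 p q V0 V1 W1 g4 S Z0 Z1 Z2 hS h0 h1 (child_sound g1 g2 h2 hc)
    · exact ih2 p q V0 V1 W2 g5 S Z0 Z1 Z2 hS h0 h1 (child_sound g1 g3 h2 hc)

end Pool.Agent.Work.MP_b30479_gt.G2.SC
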