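import Pool.Agent.Work.MP_b30479_gt.G2.S2Eval

/-!
# Tensors of the ring equations with 2, 3, 4 crossings
-/

set_option linter.unusedSimpArgs false
set_option linter.unusedTactic false
set_option linter.unreachableTactic false

namespace Pool.Agent.Work.MP_b30479_gt.G2.SC

lemma I5 : Complex.I ^ 5 = Complex.I := by
  rw [show (5 : ℕ) = 4 + 1 from rfl, pow_succ, Complex.I_pow_four, one_mul]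

lemma I6 : Complex.I ^ 6 = -1 := by
  rw [show (6 : ℕ) = 4 + 2 from rfl, pow_add, Complex.I_pow_four, one_mul, Complex.I_sq]

lemma I7 : Complex.I ^ 7 = -Complex.I := by
  rw [show (7 : ℕ) = 4 + 3 from rfl, pow_add, Complex.I_pow_four, one_mul, Complex.I_pow_three]

lemma I8 : Complex.I ^ 8 = 1 := by
  rw [show (8 : ℕ) = 4 + 4 from rfl, pow_add, Complex.I_pow_four, one_mul]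

/-- coefficients -/
def gF2mm (i : ℕ) : G4 :=
  if i = 2 then ⟨0, 1536000000, 0, 0⟩ else
  if i = 4 then ⟨0, 768000000, 0, 0⟩ else
  if i = 6 then ⟨0, 1536000000, 0, 0⟩ else
  if i = 22 then ⟨1, 0, 0, 0⟩ else
  if i = 36 then ⟨24, 0, 0, 0⟩ else
  ⟨0, 0, 0, 0⟩

/-- configuration -/
def cF2mm : Cfg := ⟨4, 0, 2, 1, 9, 9, 3, false, true, true, [⟨0, 0, 0, 0⟩, ⟨0, 0, 0, 0⟩, ⟨0,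
    1536000000, 0, 0⟩, ⟨0, 0, 0, 0⟩, ⟨0, 768000000, 0, 0⟩, ⟨0, 0, 0, 0⟩, ⟨0, 1536000000, 0, 0⟩,
    ⟨0, 0, 0, 0⟩, ⟨0, 0, 0, 0⟩, ⟨0, 0, 0, 0⟩, ⟨0, 0, 0, 0⟩, ⟨0, 0, 0, 0⟩, ⟨0, 0, 0, 0⟩, ⟨0, 0, 0,
    0⟩, ⟨0, 0, 0, 0⟩, ⟨0, 0, 0, 0⟩, ⟨0, 0, 0, 0⟩, ⟨0, 0, 0, 0⟩, ⟨0, 0, 0, 0⟩, ⟨0, 0, 0, 0⟩, ⟨0, 0,
    0, 0⟩, ⟨0, 0, 0, 0⟩, ⟨1, 0, 0, 0⟩, ⟨0, 0, 0, 0⟩, ⟨0, 0, 0, 0⟩, ⟨0, 0, 0, 0⟩, ⟨0, 0, 0, 0⟩, ⟨0,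
    0, 0, 0⟩, ⟨0, 0, 0, 0⟩, ⟨0, 0, 0, 0⟩, ⟨0, 0, 0, 0⟩, ⟨0, 0, 0, 0⟩, ⟨0, 0, 0, 0⟩, ⟨0, 0, 0, 0⟩,
    ⟨0, 0, 0, 0⟩, ⟨0, 0, 0, 0⟩, ⟨24, 0, 0, 0⟩, ⟨0, 0, 0, 0⟩, ⟨0, 0, 0, 0⟩, ⟨0, 0, 0, 0⟩, ⟨0, 0, 0,
    0⟩, ⟨0, 0, 0, 0⟩, ⟨0, 0, 0, 0⟩, ⟨0, 0, 0, 0⟩, ⟨0, 0, 0, 0⟩]⟩

lemma rpF2mm : Rp cF2mm.L (fun i => (gF2mm i).v) := by
  have h : cF2mm.L = (List.range 45).map gF2mm := by rfl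
  rw [h]
  exact rp_map _ _

lemma evF2mm {z k l Z0 Z1 Z2 : ℂ} (h1 : mr true Z1 = Complex.I * (16000 * k))
    (h2 : mr true Z2 = Complex.I * (16000 * l)) :
    app (slots cF2mm (16000 * z) Z0 Z1 Z2) (fun i => (gF2mm i).v) 0 =
      393216000000000000 * (k ^ 2 + l ^ 2 - 2 * k * l * (2 * z ^ 2 - 1) + (z * (2 * z)) ^ 2) := by
  rw [app_slots]
  simp only [cF2mm, Finset.sum_range_succ, Finset.sum_range_zero, Nat.reduceAdd, Nat.reduceMul,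
    zero_add, add_zero, gF2mm, Nat.reduceEqDiff, if_true, if_false, v_zero, v_re, v_neg, v_im, v_imn,
    mul_zero, h1, h2, Nat.cast_zero, OfNat.ofNat_ne_zero, OfNat.ofNat_eq_ofNat, Nat.reduceEqDiff, Nat.cast_ofNat]
  simp only [Nat.choose, Nat.reduceAdd, pow_zero, pow_one, mul_one, one_mul, Nat.cast_one,
    Nat.cast_ofNat, mul_pow, Complex.I_sq]
  ring_nf
  try simp only [Complex.I_sq, Complex.I_pow_three, Complex.I_pow_four, I5, I6, I7, I8]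
  try ring

/-- coefficients -/
def gF2mn (i : ℕ) : G4 :=
  if i = 2 then ⟨1536000000, 0, 0, 0⟩ else
  if i = 4 then ⟨0, 0, 0, 768000000⟩ else
  if i = 6 then ⟨0, 1536000000, 0, 0⟩ else
  if i = 22 then ⟨0, 0, 1, 0⟩ else
  if i = 36 then ⟨24, 0, 0, 0⟩ else
  ⟨0, 0, 0, 0⟩

/-- configuration -/
def cF2mn : Cfg := ⟨4, 0, 2, 1, 9, 9, 3, false, true, false, [⟨0, 0, 0, 0⟩, ⟨0, 0, 0, 0⟩,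
    ⟨1536000000, 0, 0, 0⟩, ⟨0, 0, 0, 0⟩, ⟨0, 0, 0, 768000000⟩, ⟨0, 0, 0, 0⟩, ⟨0, 1536000000, 0,
    0⟩, ⟨0, 0, 0, 0⟩, ⟨0, 0, 0, 0⟩, ⟨0, 0, 0, 0⟩, ⟨0, 0, 0, 0⟩, ⟨0, 0, 0, 0⟩, ⟨0, 0, 0, 0⟩, ⟨0, 0,
    0, 0⟩, ⟨0, 0, 0, 0⟩, ⟨0, 0, 0, 0⟩, ⟨0, 0, 0, 0⟩, ⟨0, 0, 0, 0⟩, ⟨0, 0, 0, 0⟩, ⟨0, 0, 0, 0⟩, ⟨0,
    0, 0, 0⟩, ⟨0, 0, 0, 0⟩, ⟨0, 0, 1, 0⟩, ⟨0, 0, 0, 0⟩, ⟨0, 0, 0, 0⟩, ⟨0, 0, 0, 0⟩, ⟨0, 0, 0, 0⟩,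
    ⟨0, 0, 0, 0⟩, ⟨0, 0, 0, 0⟩, ⟨0, 0, 0, 0⟩, ⟨0, 0, 0, 0⟩, ⟨0, 0, 0, 0⟩, ⟨0, 0, 0, 0⟩, ⟨0, 0, 0,
    0⟩, ⟨0, 0, 0, 0⟩, ⟨0, 0, 0, 0⟩, ⟨24, 0, 0, 0⟩, ⟨0, 0, 0, 0⟩, ⟨0, 0, 0, 0⟩, ⟨0, 0, 0, 0⟩, ⟨0,
    0, 0, 0⟩, ⟨0, 0, 0, 0⟩, ⟨0, 0, 0, 0⟩, ⟨0, 0, 0, 0⟩, ⟨0, 0, 0, 0⟩]⟩

lemma rpF2mn : Rp cF2mn.L (fun i => (gF2mn i).v) := by
  have h : cF2mn.L = (List.range 45).map gF2mn := by rfl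
  rw [h]
  exact rp_map _ _

lemma evF2mn {z k l Z0 Z1 Z2 : ℂ} (h1 : mr true Z1 = Complex.I * (16000 * k))
    (h2 : mr false Z2 = 16000 * l) :
    app (slots cF2mn (16000 * z) Z0 Z1 Z2) (fun i => (gF2mn i).v) 0 =
      393216000000000000 * (k ^ 2 + l ^ 2 - 2 * k * l * (2 * z ^ 2 - 1) + (z * (2 * z)) ^ 2) := by
  rw [app_slots]
  simp only [cF2mn, Finset.sum_range_succ, Finset.sum_range_zero, Nat.reduceAdd, Nat.reduceMul,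
    zero_add, add_zero, gF2mn, Nat.reduceEqDiff, if_true, if_false, v_zero, v_re, v_neg, v_im, v_imn,
    mul_zero, h1, h2, Nat.cast_zero, OfNat.ofNat_ne_zero, OfNat.ofNat_eq_ofNat, Nat.reduceEqDiff, Nat.cast_ofNat]
  simp only [Nat.choose, Nat.reduceAdd, pow_zero, pow_one, mul_one, one_mul, Nat.cast_one,
    Nat.cast_ofNat, mul_pow, Complex.I_sq]
  ring_nf
  try simp only [Complex.I_sq, Complex.I_pow_three, Complex.I_pow_four, I5, I6, I7, I8]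
  try ring

/-- coefficients -/
def gG2m (i : ℕ) : G4 :=
  if i = 1 then ⟨0, 0, 0, 16000⟩ else
  if i = 4 then ⟨0, 0, 2, 0⟩ else
  ⟨0, 0, 0, 0⟩

/-- configuration -/
def cG2m : Cfg := ⟨2, 0, 0, 0, 2, 2, 2, false, false, true, [⟨0, 0, 0, 0⟩, ⟨0, 0, 0, 16000⟩, ⟨0,
    0, 0, 0⟩, ⟨0, 0, 0, 0⟩, ⟨0, 0, 2, 0⟩, ⟨0, 0, 0, 0⟩]⟩

lemma rpG2m : Rp cG2m.L (fun i => (gG2m i).v) := by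
  have h : cG2m.L = (List.range 6).map gG2m := by rfl
  rw [h]
  exact rp_map _ _

lemma evG2m {z k Z0 Z1 Z2 : ℂ} (h2 : mr true Z2 = Complex.I * (16000 * k)) :
    app (slots cG2m (16000 * z) Z0 Z1 Z2) (fun i => (gG2m i).v) 0 =
      256000000 * (k + Complex.I * z * (2 * z)) := by
  rw [app_slots]
  simp only [cG2m, Finset.sum_range_succ, Finset.sum_range_zero, Nat.reduceAdd, Nat.reduceMul,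
    zero_add, add_zero, gG2m, Nat.reduceEqDiff, if_true, if_false, v_zero, v_re, v_neg, v_im, v_imn,
    mul_zero, h2, Nat.cast_zero, OfNat.ofNat_ne_zero, OfNat.ofNat_eq_ofNat, Nat.reduceEqDiff, Nat.cast_ofNat]
  simp only [Nat.choose, Nat.reduceAdd, pow_zero, pow_one, mul_one, one_mul, Nat.cast_one,
    Nat.cast_ofNat, mul_pow, Complex.I_sq]
  ring_nf
  try simp only [Complex.I_sq, Complex.I_pow_three, Complex.I_pow_four, I5, I6, I7, I8]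
  try ring

/-- coefficients -/
def gF3mm (i : ℕ) : G4 :=
  if i = 2 then ⟨0, 3932160000000000000, 0, 0⟩ else
  if i = 6 then ⟨0, 3932160000000000000, 0, 0⟩ else
  if i = 13 then ⟨0, 61440000000000, 0, 0⟩ else
  if i = 18 then ⟨262144000000000000, 0, 0, 0⟩ else
  if i = 31 then ⟨96000, 0, 0, 0⟩ else
  if i = 36 then ⟨0, 8192000000, 0, 0⟩ else
  if i = 54 then ⟨960, 0, 0, 0⟩ else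
  ⟨0, 0, 0, 0⟩

/-- configuration -/
def cF3mm : Cfg := ⟨6, 0, 2, 1, 9, 9, 3, false, true, true, [⟨0, 0, 0, 0⟩, ⟨0, 0, 0, 0⟩, ⟨0,
    3932160000000000000, 0, 0⟩, ⟨0, 0, 0, 0⟩, ⟨0, 0, 0, 0⟩, ⟨0, 0, 0, 0⟩, ⟨0, 3932160000000000000,
    0, 0⟩, ⟨0, 0, 0, 0⟩, ⟨0, 0, 0, 0⟩, ⟨0, 0, 0, 0⟩, ⟨0, 0, 0, 0⟩, ⟨0, 0, 0, 0⟩, ⟨0, 0, 0, 0⟩, ⟨0,
    61440000000000, 0, 0⟩, ⟨0, 0, 0, 0⟩, ⟨0, 0, 0, 0⟩, ⟨0, 0, 0, 0⟩, ⟨0, 0, 0, 0⟩,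
    ⟨262144000000000000, 0, 0, 0⟩, ⟨0, 0, 0, 0⟩, ⟨0, 0, 0, 0⟩, ⟨0, 0, 0, 0⟩, ⟨0, 0, 0, 0⟩, ⟨0, 0,
    0, 0⟩, ⟨0, 0, 0, 0⟩, ⟨0, 0, 0, 0⟩, ⟨0, 0, 0, 0⟩, ⟨0, 0, 0, 0⟩, ⟨0, 0, 0, 0⟩, ⟨0, 0, 0, 0⟩, ⟨0,
    0, 0, 0⟩, ⟨96000, 0, 0, 0⟩, ⟨0, 0, 0, 0⟩, ⟨0, 0, 0, 0⟩, ⟨0, 0, 0, 0⟩, ⟨0, 0, 0, 0⟩, ⟨0,
    8192000000, 0, 0⟩, ⟨0, 0, 0, 0⟩, ⟨0, 0, 0, 0⟩, ⟨0, 0, 0, 0⟩, ⟨0, 0, 0, 0⟩, ⟨0, 0, 0, 0⟩, ⟨0,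
    0, 0, 0⟩, ⟨0, 0, 0, 0⟩, ⟨0, 0, 0, 0⟩, ⟨0, 0, 0, 0⟩, ⟨0, 0, 0, 0⟩, ⟨0, 0, 0, 0⟩, ⟨0, 0, 0, 0⟩,
    ⟨0, 0, 0, 0⟩, ⟨0, 0, 0, 0⟩, ⟨0, 0, 0, 0⟩, ⟨0, 0, 0, 0⟩, ⟨0, 0, 0, 0⟩, ⟨960, 0, 0, 0⟩, ⟨0, 0,
    0, 0⟩, ⟨0, 0, 0, 0⟩, ⟨0, 0, 0, 0⟩, ⟨0, 0, 0, 0⟩, ⟨0, 0, 0, 0⟩, ⟨0, 0, 0, 0⟩, ⟨0, 0, 0, 0⟩, ⟨0,
    0, 0, 0⟩]⟩

lemma rpF3mm : Rp cF3mm.L (fun i => (gF3mm i).v) := by
  have h : cF3mm.L = (List.range 63).map gF3mm := by rfl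
  rw [h]
  exact rp_map _ _

lemma evF3mm {z k l Z0 Z1 Z2 : ℂ} (h1 : mr true Z1 = Complex.I * (16000 * k))
    (h2 : mr true Z2 = Complex.I * (16000 * l)) :
    app (slots cF3mm (16000 * z) Z0 Z1 Z2) (fun i => (gF3mm i).v) 0 =
      1006632960000000000000000000 * (k ^ 2 + l ^ 2 - 2 * k * l * (4 * z ^ 3 - 3 * z) + (z * (4 * z ^ 2 - 1)) ^ 2) := by
  rw [app_slots]
  simp only [cF3mm, Finset.sum_range_succ, Finset.sum_range_zero, Nat.reduceAdd, Nat.reduceMul,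
    zero_add, add_zero, gF3mm, Nat.reduceEqDiff, if_true, if_false, v_zero, v_re, v_neg, v_im, v_imn,
    mul_zero, h1, h2, Nat.cast_zero, OfNat.ofNat_ne_zero, OfNat.ofNat_eq_ofNat, Nat.reduceEqDiff, Nat.cast_ofNat]
  simp only [Nat.choose, Nat.reduceAdd, pow_zero, pow_one, mul_one, one_mul, Nat.cast_one,
    Nat.cast_ofNat, mul_pow, Complex.I_sq]
  ring_nf
  try simp only [Complex.I_sq, Complex.I_pow_three, Complex.I_pow_four, I5, I6, I7, I8]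
  try ring

/-- coefficients -/
def gF3mn (i : ℕ) : G4 :=
  if i = 2 then ⟨3932160000000000000, 0, 0, 0⟩ else
  if i = 6 then ⟨0, 3932160000000000000, 0, 0⟩ else
  if i = 13 then ⟨0, 0, 0, 61440000000000⟩ else
  if i = 18 then ⟨262144000000000000, 0, 0, 0⟩ else
  if i = 31 then ⟨0, 0, 96000, 0⟩ else
  if i = 36 then ⟨0, 8192000000, 0, 0⟩ else
  if i = 54 then ⟨960, 0, 0, 0⟩ else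
  ⟨0, 0, 0, 0⟩

/-- configuration -/
def cF3mn : Cfg := ⟨6, 0, 2, 1, 9, 9, 3, false, true, false, [⟨0, 0, 0, 0⟩, ⟨0, 0, 0, 0⟩,
    ⟨3932160000000000000, 0, 0, 0⟩, ⟨0, 0, 0, 0⟩, ⟨0, 0, 0, 0⟩, ⟨0, 0, 0, 0⟩, ⟨0,
    3932160000000000000, 0, 0⟩, ⟨0, 0, 0, 0⟩, ⟨0, 0, 0, 0⟩, ⟨0, 0, 0, 0⟩, ⟨0, 0, 0, 0⟩, ⟨0, 0, 0,
    0⟩, ⟨0, 0, 0, 0⟩, ⟨0, 0, 0, 61440000000000⟩, ⟨0, 0, 0, 0⟩, ⟨0, 0, 0, 0⟩, ⟨0, 0, 0, 0⟩, ⟨0, 0,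
    0, 0⟩, ⟨262144000000000000, 0, 0, 0⟩, ⟨0, 0, 0, 0⟩, ⟨0, 0, 0, 0⟩, ⟨0, 0, 0, 0⟩, ⟨0, 0, 0, 0⟩,
    ⟨0, 0, 0, 0⟩, ⟨0, 0, 0, 0⟩, ⟨0, 0, 0, 0⟩, ⟨0, 0, 0, 0⟩, ⟨0, 0, 0, 0⟩, ⟨0, 0, 0, 0⟩, ⟨0, 0, 0,
    0⟩, ⟨0, 0, 0, 0⟩, ⟨0, 0, 96000, 0⟩, ⟨0, 0, 0, 0⟩, ⟨0, 0, 0, 0⟩, ⟨0, 0, 0, 0⟩, ⟨0, 0, 0, 0⟩,
    ⟨0, 8192000000, 0, 0⟩, ⟨0, 0, 0, 0⟩, ⟨0, 0, 0, 0⟩, ⟨0, 0, 0, 0⟩, ⟨0, 0, 0, 0⟩, ⟨0, 0, 0, 0⟩,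
    ⟨0, 0, 0, 0⟩, ⟨0, 0, 0, 0⟩, ⟨0, 0, 0, 0⟩, ⟨0, 0, 0, 0⟩, ⟨0, 0, 0, 0⟩, ⟨0, 0, 0, 0⟩, ⟨0, 0, 0,
    0⟩, ⟨0, 0, 0, 0⟩, ⟨0, 0, 0, 0⟩, ⟨0, 0, 0, 0⟩, ⟨0, 0, 0, 0⟩, ⟨0, 0, 0, 0⟩, ⟨960, 0, 0, 0⟩, ⟨0,
    0, 0, 0⟩, ⟨0, 0, 0, 0⟩, ⟨0, 0, 0, 0⟩, ⟨0, 0, 0, 0⟩, ⟨0, 0, 0, 0⟩, ⟨0, 0, 0, 0⟩, ⟨0, 0, 0, 0⟩,
    ⟨0, 0, 0, 0⟩]⟩

lemma rpF3mn : Rp cF3mn.L (fun i => (gF3mn i).v) := by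
  have h : cF3mn.L = (List.range 63).map gF3mn := by rfl
  rw [h]
  exact rp_map _ _

lemma evF3mn {z k l Z0 Z1 Z2 : ℂ} (h1 : mr true Z1 = Complex.I * (16000 * k))
    (h2 : mr false Z2 = 16000 * l) :
    app (slots cF3mn (16000 * z) Z0 Z1 Z2) (fun i => (gF3mn i).v) 0 =
      1006632960000000000000000000 * (k ^ 2 + l ^ 2 - 2 * k * l * (4 * z ^ 3 - 3 * z) + (z * (4 * z ^ 2 - 1)) ^ 2) := by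
  rw [app_slots]
  simp only [cF3mn, Finset.sum_range_succ, Finset.sum_range_zero, Nat.reduceAdd, Nat.reduceMul,
    zero_add, add_zero, gF3mn, Nat.reduceEqDiff, if_true, if_false, v_zero, v_re, v_neg, v_im, v_imn,
    mul_zero, h1, h2, Nat.cast_zero, OfNat.ofNat_ne_zero, OfNat.ofNat_eq_ofNat, Nat.reduceEqDiff, Nat.cast_ofNat]
  simp only [Nat.choose, Nat.reduceAdd, pow_zero, pow_one, mul_one, one_mul, Nat.cast_one,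
    Nat.cast_ofNat, mul_pow, Complex.I_sq]
  ring_nf
  try simp only [Complex.I_sq, Complex.I_pow_three, Complex.I_pow_four, I5, I6, I7, I8]
  try ring

/-- coefficients -/
def gF3nn (i : ℕ) : G4 :=
  if i = 2 then ⟨3932160000000000000, 0, 0, 0⟩ else
  if i = 6 then ⟨3932160000000000000, 0, 0, 0⟩ else
  if i = 13 then ⟨61440000000000, 0, 0, 0⟩ else
  if i = 18 then ⟨262144000000000000, 0, 0, 0⟩ else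
  if i = 31 then ⟨0, 96000, 0, 0⟩ else
  if i = 36 then ⟨0, 8192000000, 0, 0⟩ else
  if i = 54 then ⟨960, 0, 0, 0⟩ else
  ⟨0, 0, 0, 0⟩

/-- configuration -/
def cF3nn : Cfg := ⟨6, 0, 2, 1, 9, 9, 3, false, false, false, [⟨0, 0, 0, 0⟩, ⟨0, 0, 0, 0⟩,
    ⟨3932160000000000000, 0, 0, 0⟩, ⟨0, 0, 0, 0⟩, ⟨0, 0, 0, 0⟩, ⟨0, 0, 0, 0⟩,
    ⟨3932160000000000000, 0, 0, 0⟩, ⟨0, 0, 0, 0⟩, ⟨0, 0, 0, 0⟩, ⟨0, 0, 0, 0⟩, ⟨0, 0, 0, 0⟩, ⟨0, 0,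
    0, 0⟩, ⟨0, 0, 0, 0⟩, ⟨61440000000000, 0, 0, 0⟩, ⟨0, 0, 0, 0⟩, ⟨0, 0, 0, 0⟩, ⟨0, 0, 0, 0⟩, ⟨0,
    0, 0, 0⟩, ⟨262144000000000000, 0, 0, 0⟩, ⟨0, 0, 0, 0⟩, ⟨0, 0, 0, 0⟩, ⟨0, 0, 0, 0⟩, ⟨0, 0, 0,
    0⟩, ⟨0, 0, 0, 0⟩, ⟨0, 0, 0, 0⟩, ⟨0, 0, 0, 0⟩, ⟨0, 0, 0, 0⟩, ⟨0, 0, 0, 0⟩, ⟨0, 0, 0, 0⟩, ⟨0, 0,
    0, 0⟩, ⟨0, 0, 0, 0⟩, ⟨0, 96000, 0, 0⟩, ⟨0, 0, 0, 0⟩, ⟨0, 0, 0, 0⟩, ⟨0, 0, 0, 0⟩, ⟨0, 0, 0, 0⟩,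
    ⟨0, 8192000000, 0, 0⟩, ⟨0, 0, 0, 0⟩, ⟨0, 0, 0, 0⟩, ⟨0, 0, 0, 0⟩, ⟨0, 0, 0, 0⟩, ⟨0, 0, 0, 0⟩,
    ⟨0, 0, 0, 0⟩, ⟨0, 0, 0, 0⟩, ⟨0, 0, 0, 0⟩, ⟨0, 0, 0, 0⟩, ⟨0, 0, 0, 0⟩, ⟨0, 0, 0, 0⟩, ⟨0, 0, 0,
    0⟩, ⟨0, 0, 0, 0⟩, ⟨0, 0, 0, 0⟩, ⟨0, 0, 0, 0⟩, ⟨0, 0, 0, 0⟩, ⟨0, 0, 0, 0⟩, ⟨960, 0, 0, 0⟩, ⟨0,
    0, 0, 0⟩, ⟨0, 0, 0, 0⟩, ⟨0, 0, 0, 0⟩, ⟨0, 0, 0, 0⟩, ⟨0, 0, 0, 0⟩, ⟨0, 0, 0, 0⟩, ⟨0, 0, 0, 0⟩,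
    ⟨0, 0, 0, 0⟩]⟩

lemma rpF3nn : Rp cF3nn.L (fun i => (gF3nn i).v) := by
  have h : cF3nn.L = (List.range 63).map gF3nn := by rfl
  rw [h]
  exact rp_map _ _

lemma evF3nn {z k l Z0 Z1 Z2 : ℂ} (h1 : mr false Z1 = 16000 * k)
    (h2 : mr false Z2 = 16000 * l) :
    app (slots cF3nn (16000 * z) Z0 Z1 Z2) (fun i => (gF3nn i).v) 0 =
      1006632960000000000000000000 * (k ^ 2 + l ^ 2 - 2 * k * l * (4 * z ^ 3 - 3 * z) + (z * (4 * z ^ 2 - 1)) ^ 2) := by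
  rw [app_slots]
  simp only [cF3nn, Finset.sum_range_succ, Finset.sum_range_zero, Nat.reduceAdd, Nat.reduceMul,
    zero_add, add_zero, gF3nn, Nat.reduceEqDiff, if_true, if_false, v_zero, v_re, v_neg, v_im, v_imn,
    mul_zero, h1, h2, Nat.cast_zero, OfNat.ofNat_ne_zero, OfNat.ofNat_eq_ofNat, Nat.reduceEqDiff, Nat.cast_ofNat]
  simp only [Nat.choose, Nat.reduceAdd, pow_zero, pow_one, mul_one, one_mul, Nat.cast_one,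
    Nat.cast_ofNat, mul_pow, Complex.I_sq]
  ring_nf
  try simp only [Complex.I_sq, Complex.I_pow_three, Complex.I_pow_four, I5, I6, I7, I8]
  try ring

/-- coefficients -/
def gG3m (i : ℕ) : G4 :=
  if i = 1 then ⟨0, 0, 0, 768000000⟩ else
  if i = 2 then ⟨0, 0, 0, 256000000⟩ else
  if i = 6 then ⟨0, 0, 12, 0⟩ else
  ⟨0, 0, 0, 0⟩

/-- configuration -/
def cG3m : Cfg := ⟨3, 0, 0, 0, 2, 2, 2, false, false, true, [⟨0, 0, 0, 0⟩, ⟨0, 0, 0, 768000000⟩,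
    ⟨0, 0, 0, 256000000⟩, ⟨0, 0, 0, 0⟩, ⟨0, 0, 0, 0⟩, ⟨0, 0, 0, 0⟩, ⟨0, 0, 12, 0⟩, ⟨0, 0, 0, 0⟩]⟩

lemma rpG3m : Rp cG3m.L (fun i => (gG3m i).v) := by
  have h : cG3m.L = (List.range 8).map gG3m := by rfl
  rw [h]
  exact rp_map _ _

lemma evG3m {z k Z0 Z1 Z2 : ℂ} (h2 : mr true Z2 = Complex.I * (16000 * k)) :
    app (slots cG3m (16000 * z) Z0 Z1 Z2) (fun i => (gG3m i).v) 0 =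
      12288000000000 * (k + Complex.I * z * (4 * z ^ 2 - 1)) := by
  rw [app_slots]
  simp only [cG3m, Finset.sum_range_succ, Finset.sum_range_zero, Nat.reduceAdd, Nat.reduceMul,
    zero_add, add_zero, gG3m, Nat.reduceEqDiff, if_true, if_false, v_zero, v_re, v_neg, v_im, v_imn,
    mul_zero, h2, Nat.cast_zero, OfNat.ofNat_ne_zero, OfNat.ofNat_eq_ofNat, Nat.reduceEqDiff, Nat.cast_ofNat]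
  simp only [Nat.choose, Nat.reduceAdd, pow_zero, pow_one, mul_one, one_mul, Nat.cast_one,
    Nat.cast_ofNat, mul_pow, Complex.I_sq]
  ring_nf
  try simp only [Complex.I_sq, Complex.I_pow_three, Complex.I_pow_four, I5, I6, I7, I8]
  try ring

/-- coefficients -/
def gG3n (i : ℕ) : G4 :=
  if i = 1 then ⟨768000000, 0, 0, 0⟩ else
  if i = 2 then ⟨0, 0, 0, 256000000⟩ else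
  if i = 6 then ⟨0, 0, 12, 0⟩ else
  ⟨0, 0, 0, 0⟩

/-- configuration -/
def cG3n : Cfg := ⟨3, 0, 0, 0, 2, 2, 2, false, false, false, [⟨0, 0, 0, 0⟩, ⟨768000000, 0, 0, 0⟩,
    ⟨0, 0, 0, 256000000⟩, ⟨0, 0, 0, 0⟩, ⟨0, 0, 0, 0⟩, ⟨0, 0, 0, 0⟩, ⟨0, 0, 12, 0⟩, ⟨0, 0, 0, 0⟩]⟩

lemma rpG3n : Rp cG3n.L (fun i => (gG3n i).v) := by
  have h : cG3n.L = (List.range 8).map gG3n := by rfl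
  rw [h]
  exact rp_map _ _

lemma evG3n {z k Z0 Z1 Z2 : ℂ} (h2 : mr false Z2 = 16000 * k) :
    app (slots cG3n (16000 * z) Z0 Z1 Z2) (fun i => (gG3n i).v) 0 =
      12288000000000 * (k + Complex.I * z * (4 * z ^ 2 - 1)) := by
  rw [app_slots]
  simp only [cG3n, Finset.sum_range_succ, Finset.sum_range_zero, Nat.reduceAdd, Nat.reduceMul,
    zero_add, add_zero, gG3n, Nat.reduceEqDiff, if_true, if_false, v_zero, v_re, v_neg, v_im, v_imn,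
    mul_zero, h2, Nat.cast_zero, OfNat.ofNat_ne_zero, OfNat.ofNat_eq_ofNat, Nat.reduceEqDiff, Nat.cast_ofNat]
  simp only [Nat.choose, Nat.reduceAdd, pow_zero, pow_one, mul_one, one_mul, Nat.cast_one,
    Nat.cast_ofNat, mul_pow, Complex.I_sq]
  ring_nf
  try simp only [Complex.I_sq, Complex.I_pow_three, Complex.I_pow_four, I5, I6, I7, I8]
  try ring

/-- coefficients -/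
def gF4mm (i : ℕ) : G4 :=
  if i = 2 then ⟨0, 1174405120000000000000000000, 0, 0⟩ else
  if i = 4 then ⟨587202560000000000000000000, 0, 0, 0⟩ else
  if i = 6 then ⟨0, 1174405120000000000000000000, 0, 0⟩ else
  if i = 22 then ⟨0, 655360000000000000, 0, 0⟩ else
  if i = 36 then ⟨1048576000000000000, 0, 0, 0⟩ else
  if i = 40 then ⟨1024000000, 0, 0, 0⟩ else
  if i = 54 then ⟨0, 40960000000, 0, 0⟩ else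
  if i = 72 then ⟨4480, 0, 0, 0⟩ else
  ⟨0, 0, 0, 0⟩

/-- configuration -/
def cF4mm : Cfg := ⟨8, 0, 2, 1, 9, 9, 3, false, true, true, [⟨0, 0, 0, 0⟩, ⟨0, 0, 0, 0⟩, ⟨0,
    1174405120000000000000000000, 0, 0⟩, ⟨0, 0, 0, 0⟩, ⟨587202560000000000000000000, 0, 0, 0⟩, ⟨0,
    0, 0, 0⟩, ⟨0, 1174405120000000000000000000, 0, 0⟩, ⟨0, 0, 0, 0⟩, ⟨0, 0, 0, 0⟩, ⟨0, 0, 0, 0⟩,
    ⟨0, 0, 0, 0⟩, ⟨0, 0, 0, 0⟩, ⟨0, 0, 0, 0⟩, ⟨0, 0, 0, 0⟩, ⟨0, 0, 0, 0⟩, ⟨0, 0, 0, 0⟩, ⟨0, 0, 0,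
    0⟩, ⟨0, 0, 0, 0⟩, ⟨0, 0, 0, 0⟩, ⟨0, 0, 0, 0⟩, ⟨0, 0, 0, 0⟩, ⟨0, 0, 0, 0⟩, ⟨0,
    655360000000000000, 0, 0⟩, ⟨0, 0, 0, 0⟩, ⟨0, 0, 0, 0⟩, ⟨0, 0, 0, 0⟩, ⟨0, 0, 0, 0⟩, ⟨0, 0, 0,
    0⟩, ⟨0, 0, 0, 0⟩, ⟨0, 0, 0, 0⟩, ⟨0, 0, 0, 0⟩, ⟨0, 0, 0, 0⟩, ⟨0, 0, 0, 0⟩, ⟨0, 0, 0, 0⟩, ⟨0, 0,
    0, 0⟩, ⟨0, 0, 0, 0⟩, ⟨1048576000000000000, 0, 0, 0⟩, ⟨0, 0, 0, 0⟩, ⟨0, 0, 0, 0⟩, ⟨0, 0, 0, 0⟩,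
    ⟨1024000000, 0, 0, 0⟩, ⟨0, 0, 0, 0⟩, ⟨0, 0, 0, 0⟩, ⟨0, 0, 0, 0⟩, ⟨0, 0, 0, 0⟩, ⟨0, 0, 0, 0⟩,
    ⟨0, 0, 0, 0⟩, ⟨0, 0, 0, 0⟩, ⟨0, 0, 0, 0⟩, ⟨0, 0, 0, 0⟩, ⟨0, 0, 0, 0⟩, ⟨0, 0, 0, 0⟩, ⟨0, 0, 0,
    0⟩, ⟨0, 0, 0, 0⟩, ⟨0, 40960000000, 0, 0⟩, ⟨0, 0, 0, 0⟩, ⟨0, 0, 0, 0⟩, ⟨0, 0, 0, 0⟩, ⟨0, 0, 0,
    0⟩, ⟨0, 0, 0, 0⟩, ⟨0, 0, 0, 0⟩, ⟨0, 0, 0, 0⟩, ⟨0, 0, 0, 0⟩, ⟨0, 0, 0, 0⟩, ⟨0, 0, 0, 0⟩, ⟨0, 0,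
    0, 0⟩, ⟨0, 0, 0, 0⟩, ⟨0, 0, 0, 0⟩, ⟨0, 0, 0, 0⟩, ⟨0, 0, 0, 0⟩, ⟨0, 0, 0, 0⟩, ⟨0, 0, 0, 0⟩,
    ⟨4480, 0, 0, 0⟩, ⟨0, 0, 0, 0⟩, ⟨0, 0, 0, 0⟩, ⟨0, 0, 0, 0⟩, ⟨0, 0, 0, 0⟩, ⟨0, 0, 0, 0⟩, ⟨0, 0,
    0, 0⟩, ⟨0, 0, 0, 0⟩, ⟨0, 0, 0, 0⟩]⟩

lemma rpF4mm : Rp cF4mm.L (fun i => (gF4mm i).v) := by
  have h : cF4mm.L = (List.range 81).map gF4mm := by rfl
  rw [h]
  exact rp_map _ _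

lemma evF4mm {z k l Z0 Z1 Z2 : ℂ} (h1 : mr true Z1 = Complex.I * (16000 * k))
    (h2 : mr true Z2 = Complex.I * (16000 * l)) :
    app (slots cF4mm (16000 * z) Z0 Z1 Z2) (fun i => (gF4mm i).v) 0 =
      300647710720000000000000000000000000 * (k ^ 2 + l ^ 2 - 2 * k * l * (8 * z ^ 4 - 8 * z ^ 2 + 1) + (z * (8 * z ^ 3 - 4 * z)) ^ 2) := by
  rw [app_slots]
  simp only [cF4mm, Finset.sum_range_succ, Finset.sum_range_zero, Nat.reduceAdd, Nat.reduceMul,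
    zero_add, add_zero, gF4mm, Nat.reduceEqDiff, if_true, if_false, v_zero, v_re, v_neg, v_im, v_imn,
    mul_zero, h1, h2, Nat.cast_zero, OfNat.ofNat_ne_zero, OfNat.ofNat_eq_ofNat, Nat.reduceEqDiff, Nat.cast_ofNat]
  simp only [Nat.choose, Nat.reduceAdd, pow_zero, pow_one, mul_one, one_mul, Nat.cast_one,
    Nat.cast_ofNat, mul_pow, Complex.I_sq]
  ring_nf
  try simp only [Complex.I_sq, Complex.I_pow_three, Complex.I_pow_four, I5, I6, I7, I8]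
  try ring

/-- coefficients -/
def gF4mn (i : ℕ) : G4 :=
  if i = 2 then ⟨1174405120000000000000000000, 0, 0, 0⟩ else
  if i = 4 then ⟨0, 0, 587202560000000000000000000, 0⟩ else
  if i = 6 then ⟨0, 1174405120000000000000000000, 0, 0⟩ else
  if i = 22 then ⟨0, 0, 0, 655360000000000000⟩ else
  if i = 36 then ⟨1048576000000000000, 0, 0, 0⟩ else
  if i = 40 then ⟨0, 0, 1024000000, 0⟩ else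
  if i = 54 then ⟨0, 40960000000, 0, 0⟩ else
  if i = 72 then ⟨4480, 0, 0, 0⟩ else
  ⟨0, 0, 0, 0⟩

/-- configuration -/
def cF4mn : Cfg := ⟨8, 0, 2, 1, 9, 9, 3, false, true, false, [⟨0, 0, 0, 0⟩, ⟨0, 0, 0, 0⟩,
    ⟨1174405120000000000000000000, 0, 0, 0⟩, ⟨0, 0, 0, 0⟩, ⟨0, 0, 587202560000000000000000000, 0⟩,
    ⟨0, 0, 0, 0⟩, ⟨0, 1174405120000000000000000000, 0, 0⟩, ⟨0, 0, 0, 0⟩, ⟨0, 0, 0, 0⟩, ⟨0, 0, 0,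
    0⟩, ⟨0, 0, 0, 0⟩, ⟨0, 0, 0, 0⟩, ⟨0, 0, 0, 0⟩, ⟨0, 0, 0, 0⟩, ⟨0, 0, 0, 0⟩, ⟨0, 0, 0, 0⟩, ⟨0, 0,
    0, 0⟩, ⟨0, 0, 0, 0⟩, ⟨0, 0, 0, 0⟩, ⟨0, 0, 0, 0⟩, ⟨0, 0, 0, 0⟩, ⟨0, 0, 0, 0⟩, ⟨0, 0, 0,
    655360000000000000⟩, ⟨0, 0, 0, 0⟩, ⟨0, 0, 0, 0⟩, ⟨0, 0, 0, 0⟩, ⟨0, 0, 0, 0⟩, ⟨0, 0, 0, 0⟩, ⟨0,
    0, 0, 0⟩, ⟨0, 0, 0, 0⟩, ⟨0, 0, 0, 0⟩, ⟨0, 0, 0, 0⟩, ⟨0, 0, 0, 0⟩, ⟨0, 0, 0, 0⟩, ⟨0, 0, 0, 0⟩,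
    ⟨0, 0, 0, 0⟩, ⟨1048576000000000000, 0, 0, 0⟩, ⟨0, 0, 0, 0⟩, ⟨0, 0, 0, 0⟩, ⟨0, 0, 0, 0⟩, ⟨0, 0,
    1024000000, 0⟩, ⟨0, 0, 0, 0⟩, ⟨0, 0, 0, 0⟩, ⟨0, 0, 0, 0⟩, ⟨0, 0, 0, 0⟩, ⟨0, 0, 0, 0⟩, ⟨0, 0,
    0, 0⟩, ⟨0, 0, 0, 0⟩, ⟨0, 0, 0, 0⟩, ⟨0, 0, 0, 0⟩, ⟨0, 0, 0, 0⟩, ⟨0, 0, 0, 0⟩, ⟨0, 0, 0, 0⟩, ⟨0,
    0, 0, 0⟩, ⟨0, 40960000000, 0, 0⟩, ⟨0, 0, 0, 0⟩, ⟨0, 0, 0, 0⟩, ⟨0, 0, 0, 0⟩, ⟨0, 0, 0, 0⟩, ⟨0,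
    0, 0, 0⟩, ⟨0, 0, 0, 0⟩, ⟨0, 0, 0, 0⟩, ⟨0, 0, 0, 0⟩, ⟨0, 0, 0, 0⟩, ⟨0, 0, 0, 0⟩, ⟨0, 0, 0, 0⟩,
    ⟨0, 0, 0, 0⟩, ⟨0, 0, 0, 0⟩, ⟨0, 0, 0, 0⟩, ⟨0, 0, 0, 0⟩, ⟨0, 0, 0, 0⟩, ⟨0, 0, 0, 0⟩, ⟨4480, 0,
    0, 0⟩, ⟨0, 0, 0, 0⟩, ⟨0, 0, 0, 0⟩, ⟨0, 0, 0, 0⟩, ⟨0, 0, 0, 0⟩, ⟨0, 0, 0, 0⟩, ⟨0, 0, 0, 0⟩, ⟨0,
    0, 0, 0⟩, ⟨0, 0, 0, 0⟩]⟩

lemma rpF4mn : Rp cF4mn.L (fun i => (gF4mn i).v) := by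
  have h : cF4mn.L = (List.range 81).map gF4mn := by rfl
  rw [h]
  exact rp_map _ _

lemma evF4mn {z k l Z0 Z1 Z2 : ℂ} (h1 : mr true Z1 = Complex.I * (16000 * k))
    (h2 : mr false Z2 = 16000 * l) :
    app (slots cF4mn (16000 * z) Z0 Z1 Z2) (fun i => (gF4mn i).v) 0 =
      300647710720000000000000000000000000 * (k ^ 2 + l ^ 2 - 2 * k * l * (8 * z ^ 4 - 8 * z ^ 2 + 1) + (z * (8 * z ^ 3 - 4 * z)) ^ 2) := by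
  rw [app_slots]
  simp only [cF4mn, Finset.sum_range_succ, Finset.sum_range_zero, Nat.reduceAdd, Nat.reduceMul,
    zero_add, add_zero, gF4mn, Nat.reduceEqDiff, if_true, if_false, v_zero, v_re, v_neg, v_im, v_imn,
    mul_zero, h1, h2, Nat.cast_zero, OfNat.ofNat_ne_zero, OfNat.ofNat_eq_ofNat, Nat.reduceEqDiff, Nat.cast_ofNat]
  simp only [Nat.choose, Nat.reduceAdd, pow_zero, pow_one, mul_one, one_mul, Nat.cast_one,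
    Nat.cast_ofNat, mul_pow, Complex.I_sq]
  ring_nf
  try simp only [Complex.I_sq, Complex.I_pow_three, Complex.I_pow_four, I5, I6, I7, I8]
  try ring

/-- coefficients -/
def gF4nn (i : ℕ) : G4 :=
  if i = 2 then ⟨1174405120000000000000000000, 0, 0, 0⟩ else
  if i = 4 then ⟨0, 587202560000000000000000000, 0, 0⟩ else
  if i = 6 then ⟨1174405120000000000000000000, 0, 0, 0⟩ else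
  if i = 22 then ⟨655360000000000000, 0, 0, 0⟩ else
  if i = 36 then ⟨1048576000000000000, 0, 0, 0⟩ else
  if i = 40 then ⟨0, 1024000000, 0, 0⟩ else
  if i = 54 then ⟨0, 40960000000, 0, 0⟩ else
  if i = 72 then ⟨4480, 0, 0, 0⟩ else
  ⟨0, 0, 0, 0⟩

/-- configuration -/
def cF4nn : Cfg := ⟨8, 0, 2, 1, 9, 9, 3, false, false, false, [⟨0, 0, 0, 0⟩, ⟨0, 0, 0, 0⟩,
    ⟨1174405120000000000000000000, 0, 0, 0⟩, ⟨0, 0, 0, 0⟩, ⟨0, 587202560000000000000000000, 0, 0⟩,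
    ⟨0, 0, 0, 0⟩, ⟨1174405120000000000000000000, 0, 0, 0⟩, ⟨0, 0, 0, 0⟩, ⟨0, 0, 0, 0⟩, ⟨0, 0, 0,
    0⟩, ⟨0, 0, 0, 0⟩, ⟨0, 0, 0, 0⟩, ⟨0, 0, 0, 0⟩, ⟨0, 0, 0, 0⟩, ⟨0, 0, 0, 0⟩, ⟨0, 0, 0, 0⟩, ⟨0, 0,
    0, 0⟩, ⟨0, 0, 0, 0⟩, ⟨0, 0, 0, 0⟩, ⟨0, 0, 0, 0⟩, ⟨0, 0, 0, 0⟩, ⟨0, 0, 0, 0⟩,
    ⟨655360000000000000, 0, 0, 0⟩, ⟨0, 0, 0, 0⟩, ⟨0, 0, 0, 0⟩, ⟨0, 0, 0, 0⟩, ⟨0, 0, 0, 0⟩, ⟨0, 0,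
    0, 0⟩, ⟨0, 0, 0, 0⟩, ⟨0, 0, 0, 0⟩, ⟨0, 0, 0, 0⟩, ⟨0, 0, 0, 0⟩, ⟨0, 0, 0, 0⟩, ⟨0, 0, 0, 0⟩, ⟨0,
    0, 0, 0⟩, ⟨0, 0, 0, 0⟩, ⟨1048576000000000000, 0, 0, 0⟩, ⟨0, 0, 0, 0⟩, ⟨0, 0, 0, 0⟩, ⟨0, 0, 0,
    0⟩, ⟨0, 1024000000, 0, 0⟩, ⟨0, 0, 0, 0⟩, ⟨0, 0, 0, 0⟩, ⟨0, 0, 0, 0⟩, ⟨0, 0, 0, 0⟩, ⟨0, 0, 0,
    0⟩, ⟨0, 0, 0, 0⟩, ⟨0, 0, 0, 0⟩, ⟨0, 0, 0, 0⟩, ⟨0, 0, 0, 0⟩, ⟨0, 0, 0, 0⟩, ⟨0, 0, 0, 0⟩, ⟨0, 0,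
    0, 0⟩, ⟨0, 0, 0, 0⟩, ⟨0, 40960000000, 0, 0⟩, ⟨0, 0, 0, 0⟩, ⟨0, 0, 0, 0⟩, ⟨0, 0, 0, 0⟩, ⟨0, 0,
    0, 0⟩, ⟨0, 0, 0, 0⟩, ⟨0, 0, 0, 0⟩, ⟨0, 0, 0, 0⟩, ⟨0, 0, 0, 0⟩, ⟨0, 0, 0, 0⟩, ⟨0, 0, 0, 0⟩, ⟨0,
    0, 0, 0⟩, ⟨0, 0, 0, 0⟩, ⟨0, 0, 0, 0⟩, ⟨0, 0, 0, 0⟩, ⟨0, 0, 0, 0⟩, ⟨0, 0, 0, 0⟩, ⟨0, 0, 0, 0⟩,
    ⟨4480, 0, 0, 0⟩, ⟨0, 0, 0, 0⟩, ⟨0, 0, 0, 0⟩, ⟨0, 0, 0, 0⟩, ⟨0, 0, 0, 0⟩, ⟨0, 0, 0, 0⟩, ⟨0, 0,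
    0, 0⟩, ⟨0, 0, 0, 0⟩, ⟨0, 0, 0, 0⟩]⟩

lemma rpF4nn : Rp cF4nn.L (fun i => (gF4nn i).v) := by
  have h : cF4nn.L = (List.range 81).map gF4nn := by rfl
  rw [h]
  exact rp_map _ _

lemma evF4nn {z k l Z0 Z1 Z2 : ℂ} (h1 : mr false Z1 = 16000 * k)
    (h2 : mr false Z2 = 16000 * l) :
    app (slots cF4nn (16000 * z) Z0 Z1 Z2) (fun i => (gF4nn i).v) 0 =
      300647710720000000000000000000000000 * (k ^ 2 + l ^ 2 - 2 * k * l * (8 * z ^ 4 - 8 * z ^ 2 + 1) + (z * (8 * z ^ 3 - 4 * z)) ^ 2) := by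
  rw [app_slots]
  simp only [cF4nn, Finset.sum_range_succ, Finset.sum_range_zero, Nat.reduceAdd, Nat.reduceMul,
    zero_add, add_zero, gF4nn, Nat.reduceEqDiff, if_true, if_false, v_zero, v_re, v_neg, v_im, v_imn,
    mul_zero, h1, h2, Nat.cast_zero, OfNat.ofNat_ne_zero, OfNat.ofNat_eq_ofNat, Nat.reduceEqDiff, Nat.cast_ofNat]
  simp only [Nat.choose, Nat.reduceAdd, pow_zero, pow_one, mul_one, one_mul, Nat.cast_one,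
    Nat.cast_ofNat, mul_pow, Complex.I_sq]
  ring_nf
  try simp only [Complex.I_sq, Complex.I_pow_three, Complex.I_pow_four, I5, I6, I7, I8]
  try ring

/-- coefficients -/
def gG4m (i : ℕ) : G4 :=
  if i = 1 then ⟨0, 0, 0, 12288000000000⟩ else
  if i = 4 then ⟨0, 0, 0, 512000000⟩ else
  if i = 8 then ⟨0, 0, 24, 0⟩ else
  ⟨0, 0, 0, 0⟩

/-- configuration -/
def cG4m : Cfg := ⟨4, 0, 0, 0, 2, 2, 2, false, false, true, [⟨0, 0, 0, 0⟩, ⟨0, 0, 0,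
    12288000000000⟩, ⟨0, 0, 0, 0⟩, ⟨0, 0, 0, 0⟩, ⟨0, 0, 0, 512000000⟩, ⟨0, 0, 0, 0⟩, ⟨0, 0, 0, 0⟩,
    ⟨0, 0, 0, 0⟩, ⟨0, 0, 24, 0⟩, ⟨0, 0, 0, 0⟩]⟩

lemma rpG4m : Rp cG4m.L (fun i => (gG4m i).v) := by
  have h : cG4m.L = (List.range 10).map gG4m := by rfl
  rw [h]
  exact rp_map _ _

lemma evG4m {z k Z0 Z1 Z2 : ℂ} (h2 : mr true Z2 = Complex.I * (16000 * k)) :
    app (slots cG4m (16000 * z) Z0 Z1 Z2) (fun i => (gG4m i).v) 0 =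
      196608000000000000 * (k + Complex.I * z * (8 * z ^ 3 - 4 * z)) := by
  rw [app_slots]
  simp only [cG4m, Finset.sum_range_succ, Finset.sum_range_zero, Nat.reduceAdd, Nat.reduceMul,
    zero_add, add_zero, gG4m, Nat.reduceEqDiff, if_true, if_false, v_zero, v_re, v_neg, v_im, v_imn,
    mul_zero, h2, Nat.cast_zero, OfNat.ofNat_ne_zero, OfNat.ofNat_eq_ofNat, Nat.reduceEqDiff, Nat.cast_ofNat]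
  simp only [Nat.choose, Nat.reduceAdd, pow_zero, pow_one, mul_one, one_mul, Nat.cast_one,
    Nat.cast_ofNat, mul_pow, Complex.I_sq]
  ring_nf
  try simp only [Complex.I_sq, Complex.I_pow_three, Complex.I_pow_four, I5, I6, I7, I8]
  try ring

/-- coefficients -/
def gG4n (i : ℕ) : G4 :=
  if i = 1 then ⟨12288000000000, 0, 0, 0⟩ else
  if i = 4 then ⟨0, 0, 0, 512000000⟩ else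
  if i = 8 then ⟨0, 0, 24, 0⟩ else
  ⟨0, 0, 0, 0⟩

/-- configuration -/
def cG4n : Cfg := ⟨4, 0, 0, 0, 2, 2, 2, false, false, false, [⟨0, 0, 0, 0⟩, ⟨12288000000000, 0, 0,
    0⟩, ⟨0, 0, 0, 0⟩, ⟨0, 0, 0, 0⟩, ⟨0, 0, 0, 512000000⟩, ⟨0, 0, 0, 0⟩, ⟨0, 0, 0, 0⟩, ⟨0, 0, 0,
    0⟩, ⟨0, 0, 24, 0⟩, ⟨0, 0, 0, 0⟩]⟩

lemma rpG4n : Rp cG4n.L (fun i => (gG4n i).v) := by
  have h : cG4n.L = (List.range 10).map gG4n := by rfl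
  rw [h]
  exact rp_map _ _

lemma evG4n {z k Z0 Z1 Z2 : ℂ} (h2 : mr false Z2 = 16000 * k) :
    app (slots cG4n (16000 * z) Z0 Z1 Z2) (fun i => (gG4n i).v) 0 =
      196608000000000000 * (k + Complex.I * z * (8 * z ^ 3 - 4 * z)) := by
  rw [app_slots]
  simp only [cG4n, Finset.sum_range_succ, Finset.sum_range_zero, Nat.reduceAdd, Nat.reduceMul,
    zero_add, add_zero, gG4n, Nat.reduceEqDiff, if_true, if_false, v_zero, v_re, v_neg, v_im, v_imn,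
    mul_zero, h2, Nat.cast_zero, OfNat.ofNat_ne_zero, OfNat.ofNat_eq_ofNat, Nat.reduceEqDiff, Nat.cast_ofNat]
  simp only [Nat.choose, Nat.reduceAdd, pow_zero, pow_one, mul_one, one_mul, Nat.cast_one,
    Nat.cast_ofNat, mul_pow, Complex.I_sq]
  ring_nf
  try simp only [Complex.I_sq, Complex.I_pow_three, Complex.I_pow_four, I5, I6, I7, I8]
  try ring

end Pool.Agent.Work.MP_b30479_gt.G2.SC
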