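import Pool.Agent.Work.MP_b30479_gt.G2.S2CfgA

/-!
# Tensors of the hinge equations
-/

set_option linter.unusedSimpArgs false
set_option linter.unusedTactic false
set_option linter.unreachableTactic false

namespace Pool.Agent.Work.MP_b30479_gt.G2.SC

/-- coefficients -/
def gPmm (i : ℕ) : G4 :=
  if i = 1 then ⟨0, 0, 0, 196608000000000000⟩ else
  if i = 2 then ⟨0, 0, 0, 65536000000000000⟩ else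
  if i = 5 then ⟨0, 0, 3840000000, 0⟩ else
  if i = 6 then ⟨0, 0, 6912000000, 0⟩ else
  if i = 13 then ⟨0, 64000, 0, 0⟩ else
  if i = 14 then ⟨0, 144000, 0, 0⟩ else
  if i = 21 then ⟨0, 0, 0, 1⟩ else
  if i = 22 then ⟨0, 0, 0, 3⟩ else
  ⟨0, 0, 0, 0⟩

/-- configuration -/
def cPmm : Cfg := ⟨2, 0, 3, 0, 8, 8, 2, false, true, true, [⟨0, 0, 0, 0⟩, ⟨0, 0, 0,
    196608000000000000⟩, ⟨0, 0, 0, 65536000000000000⟩, ⟨0, 0, 0, 0⟩, ⟨0, 0, 0, 0⟩, ⟨0, 0,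
    3840000000, 0⟩, ⟨0, 0, 6912000000, 0⟩, ⟨0, 0, 0, 0⟩, ⟨0, 0, 0, 0⟩, ⟨0, 0, 0, 0⟩, ⟨0, 0, 0, 0⟩,
    ⟨0, 0, 0, 0⟩, ⟨0, 0, 0, 0⟩, ⟨0, 64000, 0, 0⟩, ⟨0, 144000, 0, 0⟩, ⟨0, 0, 0, 0⟩, ⟨0, 0, 0, 0⟩,
    ⟨0, 0, 0, 0⟩, ⟨0, 0, 0, 0⟩, ⟨0, 0, 0, 0⟩, ⟨0, 0, 0, 0⟩, ⟨0, 0, 0, 1⟩, ⟨0, 0, 0, 3⟩, ⟨0, 0, 0,
    0⟩]⟩

lemma rpPmm : Rp cPmm.L (fun i => (gPmm i).v) := by
  have h : cPmm.L = (List.range 24).map gPmm := by rfl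
  rw [h]
  exact rp_map _ _

lemma evPmm {R k l Z0 Z1 Z2 : ℂ} (h1 : mr true Z1 = Complex.I * (16000 * k))
    (h2 : mr true Z2 = Complex.I * (16000 * l)) :
    app (slots cPmm (16000 * (R + 4 * Complex.I)) Z0 Z1 Z2) (fun i => (gPmm i).v) 0 =
      3145728000000000000000 * ((k + l) * (k ^ 2 * (1 - Complex.I * R) ^ 2 + 1) -
        2 * (1 - Complex.I * R) * k ^ 2 * l) := by
  rw [app_slots]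
  simp only [cPmm, Finset.sum_range_succ, Finset.sum_range_zero, Nat.reduceAdd, Nat.reduceMul,
    zero_add, add_zero, gPmm, Nat.reduceEqDiff, if_true, if_false, v_zero, v_re, v_neg, v_im, v_imn,
    mul_zero, h1, h2, Nat.cast_zero, OfNat.ofNat_ne_zero, OfNat.ofNat_eq_ofNat, Nat.reduceEqDiff, Nat.cast_ofNat]
  simp only [Nat.choose, Nat.reduceAdd, pow_zero, pow_one, mul_one, one_mul, Nat.cast_one,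
    Nat.cast_ofNat, mul_pow, Complex.I_sq]
  ring_nf
  try simp only [Complex.I_sq, Complex.I_pow_three, Complex.I_pow_four, I5, I6, I7, I8]
  try ring

/-- coefficients -/
def gPmn (i : ℕ) : G4 :=
  if i = 1 then ⟨196608000000000000, 0, 0, 0⟩ else
  if i = 2 then ⟨0, 0, 0, 65536000000000000⟩ else
  if i = 5 then ⟨0, 3840000000, 0, 0⟩ else
  if i = 6 then ⟨0, 0, 6912000000, 0⟩ else
  if i = 13 then ⟨0, 0, 0, 64000⟩ else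
  if i = 14 then ⟨0, 144000, 0, 0⟩ else
  if i = 21 then ⟨1, 0, 0, 0⟩ else
  if i = 22 then ⟨0, 0, 0, 3⟩ else
  ⟨0, 0, 0, 0⟩

/-- configuration -/
def cPmn : Cfg := ⟨2, 0, 3, 0, 8, 8, 2, false, true, false, [⟨0, 0, 0, 0⟩, ⟨196608000000000000, 0,
    0, 0⟩, ⟨0, 0, 0, 65536000000000000⟩, ⟨0, 0, 0, 0⟩, ⟨0, 0, 0, 0⟩, ⟨0, 3840000000, 0, 0⟩, ⟨0, 0,
    6912000000, 0⟩, ⟨0, 0, 0, 0⟩, ⟨0, 0, 0, 0⟩, ⟨0, 0, 0, 0⟩, ⟨0, 0, 0, 0⟩, ⟨0, 0, 0, 0⟩, ⟨0, 0,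
    0, 0⟩, ⟨0, 0, 0, 64000⟩, ⟨0, 144000, 0, 0⟩, ⟨0, 0, 0, 0⟩, ⟨0, 0, 0, 0⟩, ⟨0, 0, 0, 0⟩, ⟨0, 0,
    0, 0⟩, ⟨0, 0, 0, 0⟩, ⟨0, 0, 0, 0⟩, ⟨1, 0, 0, 0⟩, ⟨0, 0, 0, 3⟩, ⟨0, 0, 0, 0⟩]⟩

lemma rpPmn : Rp cPmn.L (fun i => (gPmn i).v) := by
  have h : cPmn.L = (List.range 24).map gPmn := by rfl
  rw [h]
  exact rp_map _ _

lemma evPmn {R k l Z0 Z1 Z2 : ℂ} (h1 : mr true Z1 = Complex.I * (16000 * k))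
    (h2 : mr false Z2 = 16000 * l) :
    app (slots cPmn (16000 * (R + 4 * Complex.I)) Z0 Z1 Z2) (fun i => (gPmn i).v) 0 =
      3145728000000000000000 * ((k + l) * (k ^ 2 * (1 - Complex.I * R) ^ 2 + 1) -
        2 * (1 - Complex.I * R) * k ^ 2 * l) := by
  rw [app_slots]
  simp only [cPmn, Finset.sum_range_succ, Finset.sum_range_zero, Nat.reduceAdd, Nat.reduceMul,
    zero_add, add_zero, gPmn, Nat.reduceEqDiff, if_true, if_false, v_zero, v_re, v_neg, v_im, v_imn,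
    mul_zero, h1, h2, Nat.cast_zero, OfNat.ofNat_ne_zero, OfNat.ofNat_eq_ofNat, Nat.reduceEqDiff, Nat.cast_ofNat]
  simp only [Nat.choose, Nat.reduceAdd, pow_zero, pow_one, mul_one, one_mul, Nat.cast_one,
    Nat.cast_ofNat, mul_pow, Complex.I_sq]
  ring_nf
  try simp only [Complex.I_sq, Complex.I_pow_three, Complex.I_pow_four, I5, I6, I7, I8]
  try ring

/-- coefficients -/
def gPnm (i : ℕ) : G4 :=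
  if i = 1 then ⟨0, 0, 0, 196608000000000000⟩ else
  if i = 2 then ⟨65536000000000000, 0, 0, 0⟩ else
  if i = 5 then ⟨0, 0, 0, 3840000000⟩ else
  if i = 6 then ⟨6912000000, 0, 0, 0⟩ else
  if i = 13 then ⟨64000, 0, 0, 0⟩ else
  if i = 14 then ⟨0, 0, 144000, 0⟩ else
  if i = 21 then ⟨0, 0, 1, 0⟩ else
  if i = 22 then ⟨0, 3, 0, 0⟩ else
  ⟨0, 0, 0, 0⟩

/-- configuration -/
def cPnm : Cfg := ⟨2, 0, 3, 0, 8, 8, 2, false, false, true, [⟨0, 0, 0, 0⟩, ⟨0, 0, 0,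
    196608000000000000⟩, ⟨65536000000000000, 0, 0, 0⟩, ⟨0, 0, 0, 0⟩, ⟨0, 0, 0, 0⟩, ⟨0, 0, 0,
    3840000000⟩, ⟨6912000000, 0, 0, 0⟩, ⟨0, 0, 0, 0⟩, ⟨0, 0, 0, 0⟩, ⟨0, 0, 0, 0⟩, ⟨0, 0, 0, 0⟩,
    ⟨0, 0, 0, 0⟩, ⟨0, 0, 0, 0⟩, ⟨64000, 0, 0, 0⟩, ⟨0, 0, 144000, 0⟩, ⟨0, 0, 0, 0⟩, ⟨0, 0, 0, 0⟩,
    ⟨0, 0, 0, 0⟩, ⟨0, 0, 0, 0⟩, ⟨0, 0, 0, 0⟩, ⟨0, 0, 0, 0⟩, ⟨0, 0, 1, 0⟩, ⟨0, 3, 0, 0⟩, ⟨0, 0, 0,
    0⟩]⟩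

lemma rpPnm : Rp cPnm.L (fun i => (gPnm i).v) := by
  have h : cPnm.L = (List.range 24).map gPnm := by rfl
  rw [h]
  exact rp_map _ _

lemma evPnm {R k l Z0 Z1 Z2 : ℂ} (h1 : mr false Z1 = 16000 * k)
    (h2 : mr true Z2 = Complex.I * (16000 * l)) :
    app (slots cPnm (16000 * (R + 4 * Complex.I)) Z0 Z1 Z2) (fun i => (gPnm i).v) 0 =
      3145728000000000000000 * ((k + l) * (k ^ 2 * (1 - Complex.I * R) ^ 2 + 1) -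
        2 * (1 - Complex.I * R) * k ^ 2 * l) := by
  rw [app_slots]
  simp only [cPnm, Finset.sum_range_succ, Finset.sum_range_zero, Nat.reduceAdd, Nat.reduceMul,
    zero_add, add_zero, gPnm, Nat.reduceEqDiff, if_true, if_false, v_zero, v_re, v_neg, v_im, v_imn,
    mul_zero, h1, h2, Nat.cast_zero, OfNat.ofNat_ne_zero, OfNat.ofNat_eq_ofNat, Nat.reduceEqDiff, Nat.cast_ofNat]
  simp only [Nat.choose, Nat.reduceAdd, pow_zero, pow_one, mul_one, one_mul, Nat.cast_one,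
    Nat.cast_ofNat, mul_pow, Complex.I_sq]
  ring_nf
  try simp only [Complex.I_sq, Complex.I_pow_three, Complex.I_pow_four, I5, I6, I7, I8]
  try ring

/-- coefficients -/
def gEm (i : ℕ) : G4 :=
  if i = 2 then ⟨65536000000000000, 0, 0, 0⟩ else
  if i = 6 then ⟨0, 65536000000000000, 0, 0⟩ else
  if i = 8 then ⟨3840000000, 0, 0, 0⟩ else
  if i = 17 then ⟨0, 0, 64000, 0⟩ else
  if i = 26 then ⟨0, 1, 0, 0⟩ else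
  ⟨0, 0, 0, 0⟩

/-- configuration -/
def cEm : Cfg := ⟨2, 0, 2, 1, 9, 9, 3, false, false, true, [⟨0, 0, 0, 0⟩, ⟨0, 0, 0, 0⟩,
    ⟨65536000000000000, 0, 0, 0⟩, ⟨0, 0, 0, 0⟩, ⟨0, 0, 0, 0⟩, ⟨0, 0, 0, 0⟩, ⟨0, 65536000000000000,
    0, 0⟩, ⟨0, 0, 0, 0⟩, ⟨3840000000, 0, 0, 0⟩, ⟨0, 0, 0, 0⟩, ⟨0, 0, 0, 0⟩, ⟨0, 0, 0, 0⟩, ⟨0, 0,
    0, 0⟩, ⟨0, 0, 0, 0⟩, ⟨0, 0, 0, 0⟩, ⟨0, 0, 0, 0⟩, ⟨0, 0, 0, 0⟩, ⟨0, 0, 64000, 0⟩, ⟨0, 0, 0, 0⟩,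
    ⟨0, 0, 0, 0⟩, ⟨0, 0, 0, 0⟩, ⟨0, 0, 0, 0⟩, ⟨0, 0, 0, 0⟩, ⟨0, 0, 0, 0⟩, ⟨0, 0, 0, 0⟩, ⟨0, 0, 0,
    0⟩, ⟨0, 1, 0, 0⟩]⟩

lemma rpEm : Rp cEm.L (fun i => (gEm i).v) := by
  have h : cEm.L = (List.range 27).map gEm := by rfl
  rw [h]
  exact rp_map _ _

lemma evEm {R z k Z0 Z1 Z2 : ℂ} (h1 : mr false Z1 = 16000 * z)
    (h2 : mr true Z2 = Complex.I * (16000 * k)) :
    app (slots cEm (16000 * (R + 4 * Complex.I)) Z0 Z1 Z2) (fun i => (gEm i).v) 0 =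
      16777216000000000000000000 * (k ^ 2 * (z ^ 2 * (R ^ 2 + 1) - 1) - z ^ 2) := by
  rw [app_slots]
  simp only [cEm, Finset.sum_range_succ, Finset.sum_range_zero, Nat.reduceAdd, Nat.reduceMul,
    zero_add, add_zero, gEm, Nat.reduceEqDiff, if_true, if_false, v_zero, v_re, v_neg, v_im, v_imn,
    mul_zero, h1, h2, Nat.cast_zero, OfNat.ofNat_ne_zero, OfNat.ofNat_eq_ofNat, Nat.reduceEqDiff, Nat.cast_ofNat]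
  simp only [Nat.choose, Nat.reduceAdd, pow_zero, pow_one, mul_one, one_mul, Nat.cast_one,
    Nat.cast_ofNat, mul_pow, Complex.I_sq]
  ring_nf
  try simp only [Complex.I_sq, Complex.I_pow_three, Complex.I_pow_four, I5, I6, I7, I8]
  try ring

/-- coefficients -/
def gEn (i : ℕ) : G4 :=
  if i = 2 then ⟨0, 65536000000000000, 0, 0⟩ else
  if i = 6 then ⟨0, 65536000000000000, 0, 0⟩ else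
  if i = 8 then ⟨0, 3840000000, 0, 0⟩ else
  if i = 17 then ⟨0, 0, 0, 64000⟩ else
  if i = 26 then ⟨1, 0, 0, 0⟩ else
  ⟨0, 0, 0, 0⟩

/-- configuration -/
def cEn : Cfg := ⟨2, 0, 2, 1, 9, 9, 3, false, false, false, [⟨0, 0, 0, 0⟩, ⟨0, 0, 0, 0⟩, ⟨0,
    65536000000000000, 0, 0⟩, ⟨0, 0, 0, 0⟩, ⟨0, 0, 0, 0⟩, ⟨0, 0, 0, 0⟩, ⟨0, 65536000000000000, 0,
    0⟩, ⟨0, 0, 0, 0⟩, ⟨0, 3840000000, 0, 0⟩, ⟨0, 0, 0, 0⟩, ⟨0, 0, 0, 0⟩, ⟨0, 0, 0, 0⟩, ⟨0, 0, 0,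
    0⟩, ⟨0, 0, 0, 0⟩, ⟨0, 0, 0, 0⟩, ⟨0, 0, 0, 0⟩, ⟨0, 0, 0, 0⟩, ⟨0, 0, 0, 64000⟩, ⟨0, 0, 0, 0⟩,
    ⟨0, 0, 0, 0⟩, ⟨0, 0, 0, 0⟩, ⟨0, 0, 0, 0⟩, ⟨0, 0, 0, 0⟩, ⟨0, 0, 0, 0⟩, ⟨0, 0, 0, 0⟩, ⟨0, 0, 0,
    0⟩, ⟨1, 0, 0, 0⟩]⟩

lemma rpEn : Rp cEn.L (fun i => (gEn i).v) := by
  have h : cEn.L = (List.range 27).map gEn := by rfl
  rw [h]
  exact rp_map _ _

lemma evEn {R z k Z0 Z1 Z2 : ℂ} (h1 : mr false Z1 = 16000 * z)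
    (h2 : mr false Z2 = 16000 * k) :
    app (slots cEn (16000 * (R + 4 * Complex.I)) Z0 Z1 Z2) (fun i => (gEn i).v) 0 =
      16777216000000000000000000 * (k ^ 2 * (z ^ 2 * (R ^ 2 + 1) - 1) - z ^ 2) := by
  rw [app_slots]
  simp only [cEn, Finset.sum_range_succ, Finset.sum_range_zero, Nat.reduceAdd, Nat.reduceMul,
    zero_add, add_zero, gEn, Nat.reduceEqDiff, if_true, if_false, v_zero, v_re, v_neg, v_im, v_imn,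
    mul_zero, h1, h2, Nat.cast_zero, OfNat.ofNat_ne_zero, OfNat.ofNat_eq_ofNat, Nat.reduceEqDiff, Nat.cast_ofNat]
  simp only [Nat.choose, Nat.reduceAdd, pow_zero, pow_one, mul_one, one_mul, Nat.cast_one,
    Nat.cast_ofNat, mul_pow, Complex.I_sq]
  ring_nf
  try simp only [Complex.I_sq, Complex.I_pow_three, Complex.I_pow_four, I5, I6, I7, I8]
  try ring

/-- coefficients -/
def gH1 (i : ℕ) : G4 :=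
  if i = 1 then ⟨196608000000000000, 0, 0, 0⟩ else
  if i = 6 then ⟨0, 0, 4096000000000, 0⟩ else
  if i = 14 then ⟨0, 0, 0, 576000⟩ else
  if i = 22 then ⟨0, 256000000, 0, 0⟩ else
  if i = 30 then ⟨12, 0, 0, 0⟩ else
  ⟨0, 0, 0, 0⟩

/-- configuration -/
def cH1 : Cfg := ⟨1, 3, 1, 0, 16, 4, 2, false, true, false, [⟨0, 0, 0, 0⟩, ⟨196608000000000000, 0,
    0, 0⟩, ⟨0, 0, 0, 0⟩, ⟨0, 0, 0, 0⟩, ⟨0, 0, 0, 0⟩, ⟨0, 0, 0, 0⟩, ⟨0, 0, 4096000000000, 0⟩, ⟨0,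
    0, 0, 0⟩, ⟨0, 0, 0, 0⟩, ⟨0, 0, 0, 0⟩, ⟨0, 0, 0, 0⟩, ⟨0, 0, 0, 0⟩, ⟨0, 0, 0, 0⟩, ⟨0, 0, 0, 0⟩,
    ⟨0, 0, 0, 576000⟩, ⟨0, 0, 0, 0⟩, ⟨0, 0, 0, 0⟩, ⟨0, 0, 0, 0⟩, ⟨0, 0, 0, 0⟩, ⟨0, 0, 0, 0⟩, ⟨0,
    0, 0, 0⟩, ⟨0, 0, 0, 0⟩, ⟨0, 256000000, 0, 0⟩, ⟨0, 0, 0, 0⟩, ⟨0, 0, 0, 0⟩, ⟨0, 0, 0, 0⟩, ⟨0, 0,
    0, 0⟩, ⟨0, 0, 0, 0⟩, ⟨0, 0, 0, 0⟩, ⟨0, 0, 0, 0⟩, ⟨12, 0, 0, 0⟩, ⟨0, 0, 0, 0⟩]⟩

lemma rpH1 : Rp cH1.L (fun i => (gH1 i).v) := by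
  have h : cH1.L = (List.range 32).map gH1 := by rfl
  rw [h]
  exact rp_map _ _

lemma evH1 {R z k l Z0 Z1 Z2 : ℂ} (h0 : mr false Z0 = 16000 * z)
    (h1 : mr true Z1 = Complex.I * (16000 * k)) (h2 : mr false Z2 = 16000 * l) :
    app (slots cH1 (16000 * (R + 4 * Complex.I)) Z0 Z1 Z2) (fun i => (gH1 i).v) 0 =
      3145728000000000000000 * (l - k * (4 * z ^ 3 - 3 * z - Complex.I * R * (z * (4 * z ^ 2 - 1)))) := by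
  rw [app_slots]
  simp only [cH1, Finset.sum_range_succ, Finset.sum_range_zero, Nat.reduceAdd, Nat.reduceMul,
    zero_add, add_zero, gH1, Nat.reduceEqDiff, if_true, if_false, v_zero, v_re, v_neg, v_im, v_imn,
    mul_zero, h0, h1, h2, Nat.cast_zero, OfNat.ofNat_ne_zero, OfNat.ofNat_eq_ofNat, Nat.reduceEqDiff, Nat.cast_ofNat]
  simp only [Nat.choose, Nat.reduceAdd, pow_zero, pow_one, mul_one, one_mul, Nat.cast_one,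
    Nat.cast_ofNat, mul_pow, Complex.I_sq]
  ring_nf
  try simp only [Complex.I_sq, Complex.I_pow_three, Complex.I_pow_four, I5, I6, I7, I8]
  try ring

/-- coefficients -/
def gH2 (i : ℕ) : G4 :=
  if i = 4 then ⟨65536000000000000, 0, 0, 0⟩ else
  if i = 12 then ⟨0, 65536000000000000, 0, 0⟩ else
  if i = 16 then ⟨3840000000, 0, 0, 0⟩ else
  if i = 34 then ⟨0, 0, 64000, 0⟩ else
  if i = 52 then ⟨0, 1, 0, 0⟩ else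
  ⟨0, 0, 0, 0⟩

/-- configuration -/
def cH2 : Cfg := ⟨2, 2, 2, 0, 18, 6, 2, false, true, false, [⟨0, 0, 0, 0⟩, ⟨0, 0, 0, 0⟩, ⟨0, 0, 0,
    0⟩, ⟨0, 0, 0, 0⟩, ⟨65536000000000000, 0, 0, 0⟩, ⟨0, 0, 0, 0⟩, ⟨0, 0, 0, 0⟩, ⟨0, 0, 0, 0⟩, ⟨0,
    0, 0, 0⟩, ⟨0, 0, 0, 0⟩, ⟨0, 0, 0, 0⟩, ⟨0, 0, 0, 0⟩, ⟨0, 65536000000000000, 0, 0⟩, ⟨0, 0, 0,
    0⟩, ⟨0, 0, 0, 0⟩, ⟨0, 0, 0, 0⟩, ⟨3840000000, 0, 0, 0⟩, ⟨0, 0, 0, 0⟩, ⟨0, 0, 0, 0⟩, ⟨0, 0, 0,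
    0⟩, ⟨0, 0, 0, 0⟩, ⟨0, 0, 0, 0⟩, ⟨0, 0, 0, 0⟩, ⟨0, 0, 0, 0⟩, ⟨0, 0, 0, 0⟩, ⟨0, 0, 0, 0⟩, ⟨0, 0,
    0, 0⟩, ⟨0, 0, 0, 0⟩, ⟨0, 0, 0, 0⟩, ⟨0, 0, 0, 0⟩, ⟨0, 0, 0, 0⟩, ⟨0, 0, 0, 0⟩, ⟨0, 0, 0, 0⟩, ⟨0,
    0, 0, 0⟩, ⟨0, 0, 64000, 0⟩, ⟨0, 0, 0, 0⟩, ⟨0, 0, 0, 0⟩, ⟨0, 0, 0, 0⟩, ⟨0, 0, 0, 0⟩, ⟨0, 0, 0,
    0⟩, ⟨0, 0, 0, 0⟩, ⟨0, 0, 0, 0⟩, ⟨0, 0, 0, 0⟩, ⟨0, 0, 0, 0⟩, ⟨0, 0, 0, 0⟩, ⟨0, 0, 0, 0⟩, ⟨0, 0,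
    0, 0⟩, ⟨0, 0, 0, 0⟩, ⟨0, 0, 0, 0⟩, ⟨0, 0, 0, 0⟩, ⟨0, 0, 0, 0⟩, ⟨0, 0, 0, 0⟩, ⟨0, 1, 0, 0⟩, ⟨0,
    0, 0, 0⟩]⟩

lemma rpH2 : Rp cH2.L (fun i => (gH2 i).v) := by
  have h : cH2.L = (List.range 54).map gH2 := by rfl
  rw [h]
  exact rp_map _ _

lemma evH2 {R z k Z0 Z1 Z2 : ℂ} (h0 : mr false Z0 = 16000 * z)
    (h1 : mr true Z1 = Complex.I * (16000 * k)) :
    app (slots cH2 (16000 * (R + 4 * Complex.I)) Z0 Z1 Z2) (fun i => (gH2 i).v) 0 =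
      16777216000000000000000000 * (k ^ 2 * (z ^ 2 * (R ^ 2 + 1) - 1) - z ^ 2) := by
  rw [app_slots]
  simp only [cH2, Finset.sum_range_succ, Finset.sum_range_zero, Nat.reduceAdd, Nat.reduceMul,
    zero_add, add_zero, gH2, Nat.reduceEqDiff, if_true, if_false, v_zero, v_re, v_neg, v_im, v_imn,
    mul_zero, h0, h1, Nat.cast_zero, OfNat.ofNat_ne_zero, OfNat.ofNat_eq_ofNat, Nat.reduceEqDiff, Nat.cast_ofNat]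
  simp only [Nat.choose, Nat.reduceAdd, pow_zero, pow_one, mul_one, one_mul, Nat.cast_one,
    Nat.cast_ofNat, mul_pow, Complex.I_sq]
  ring_nf
  try simp only [Complex.I_sq, Complex.I_pow_three, Complex.I_pow_four, I5, I6, I7, I8]
  try ring

end Pool.Agent.Work.MP_b30479_gt.G2.SC
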