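import Pool.Agent.Work.MP_b30479_gt.G2.S2Base
import Pool.Agent.Work.MP_b30479_gt.G2.S2CfgA

/-!
# Frontier of the rings with 2 crossings

Generated certificates (see `S2Cert`).
-/

set_option linter.style.longLine false

namespace Pool.Agent.Work.MP_b30479_gt.G2.SC

open scoped ComplexConjugate

/-- edges -/
def L2aa : List ((ℕ × ℕ) × (ℕ × ℕ)) :=
  [((9568, 3792), (10752, 2960)), ((10752, 2960), (13488, 2960)), ((13488, 2960), (13984, 8064)),
    ((13984, 8064), (11968, 8128)), ((11968, 8128), (9568, 6080)), ((9568, 6080), (9568, 3792))]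

/-- tree -/
def T2aa_0 : CT := .rel1 [(6720, 0), (16000, 0), (12874, 12505), (6720, 7120)] (.rel2 [(6720,
    3936), (12256, 0), (16000, 0), (12874, 12505), (6720, 7120)] (.leaf ⟨17, 0, 25, 0⟩))

theorem ok2aa_0 : chkT cF2mm cF2mm T2aa_0 (9568, 3792) (10752, 2960) dum nA nA = true := by
  decide +kernel

/-- tree -/
def T2aa_1 : CT := .rel1 [(6720, 0), (16000, 0), (13055, 11780), (6720, 7344)] (.rel2 [(6720, 0),
    (16000, 0), (13055, 11780), (6720, 7344)] (.leaf ⟨9, 0, 4, 0⟩))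

theorem ok2aa_1 : chkT cF2mm cF2mm T2aa_1 (10752, 2960) (13488, 2960) dum nA nA = true := by
  decide +kernel

/-- tree -/
def T2aa_2 : CT := .seg (13736, 5512) (.rel1 [(6720, 0), (16000, 0), (13296, 10816), (6720,
    10816)] (.rel2 [(6720, 0), (16000, 0), (13296, 10816), (6720, 10816)] (.leaf ⟨2, 0, 0, 10⟩)))
    (.rel1 [(6720, 0), (16000, 0), (13296, 10816), (6720, 10816)] (.rel2 [(6720, 0), (16000, 0),
    (13296, 10816), (6720, 10816)] (.leaf ⟨0, 3, 0, 10⟩)))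

theorem ok2aa_2 : chkT cF2mm cF2mm T2aa_2 (13488, 2960) (13984, 8064) dum nA nA = true := by
  decide +kernel

/-- tree -/
def T2aa_3 : CT := .seg (12976, 8096) (.rel1 [(6720, 3936), (12256, 0), (16000, 0), (6720, 37123)]
    (.rel2 [(6720, 3936), (12256, 0), (16000, 0), (6720, 37123)] (.leaf ⟨0, 9, 5, 0⟩))) (.rel1
    [(6720, 3936), (12256, 0), (16000, 0), (6720, 37123)] (.rel2 [(6720, 3936), (12256, 0),
    (16000, 0), (6720, 37123)] (.leaf ⟨0, 8, 6, 0⟩)))

theorem ok2aa_3 : chkT cF2mm cF2mm T2aa_3 (13984, 8064) (11968, 8128) dum nA nA = true := by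
  decide +kernel

/-- tree -/
def T2aa_4 : CT := .seg (10768, 7104) (.cut1 false 11360 [(6720, 3936), (11360, 637), (11360,
    10592), (8000, 8240), (6720, 7120)] [(11360, 637), (12256, 0), (16000, 0), (13296, 10816),
    (11680, 10816), (11360, 10592)] (.rel1 [(6720, 3936), (11360, 637), (11360, 11180), (6720,
    7120)] (.rel2 [(6720, 3936), (12256, 0), (16000, 0), (6720, 37123)] (.leaf ⟨0, 12, 28, 0⟩)))
    (.cut2 false 11360 [(6720, 3936), (11360, 637), (11360, 10592), (8000, 8240), (6720, 7120)]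
    [(11360, 637), (12256, 0), (16000, 0), (13296, 10816), (11680, 10816), (11360, 10592)] (.rel1
    [(11360, 637), (12256, 0), (16000, 0), (11360, 18560)] (.rel2 [(11360, 637), (11360, 11180),
    (4712, 5363)] (.leaf ⟨0, 11, 28, 0⟩))) (.rel1 [(11360, 637), (12256, 0), (16000, 0), (11360,
    18560)] (.rel2 [(11360, 637), (12256, 0), (16000, 0), (11360, 18560)] (.leaf ⟨0, 7, 29,
    0⟩))))) (.cut1 false 11360 [(6720, 3936), (11360, 637), (11360, 10592), (8000, 8240), (6720,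
    7120)] [(11360, 637), (12256, 0), (16000, 0), (13296, 10816), (11680, 10816), (11360, 10592)]
    (.rel1 [(6720, 3936), (11360, 637), (11360, 11180), (6720, 7120)] (.rel2 [(6720, 3936),
    (12256, 0), (16000, 0), (6720, 37123)] (.leaf ⟨0, 3, 10, 0⟩))) (.rel1 [(11360, 637), (12256,
    0), (16000, 0), (11360, 18560)] (.rel2 [(6720, 3936), (12256, 0), (16000, 0), (6720, 37123)]
    (.leaf ⟨0, 2, 10, 0⟩))))

theorem ok2aa_4 : chkT cF2mm cF2mm T2aa_4 (11968, 8128) (9568, 6080) dum nA nA = true := by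
  decide +kernel

/-- tree -/
def T2aa_5 : CT := .cut1 false 11360 [(6720, 3936), (11360, 637), (11360, 10592), (8000, 8240),
    (6720, 7120)] [(11360, 637), (12256, 0), (16000, 0), (13296, 10816), (11680, 10816), (11360,
    10592)] (.cut2 false 11360 [(6720, 3936), (11360, 637), (11360, 10592), (8000, 8240), (6720,
    7120)] [(11360, 637), (12256, 0), (16000, 0), (13296, 10816), (11680, 10816), (11360, 10592)]
    (.seg (9568, 4936) (.rel1 [(6720, 3936), (11360, 637), (11360, 11180), (6720, 7120)] (.rel2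
    [(6720, 3936), (11360, 637), (11360, 11180), (6720, 7120)] (.leaf ⟨0, 0, 10, 0⟩))) (.rel1
    [(6720, 3936), (11360, 637), (11360, 11180), (6720, 7120)] (.rel2 [(6720, 3936), (11360, 637),
    (11360, 11180), (6720, 7120)] (.leaf ⟨0, 2, 100, 0⟩)))) (.rel1 [(6720, 3936), (11360, 637),
    (11360, 11180), (6720, 7120)] (.rel2 [(11360, 0), (16000, 0), (11360, 18560)] (.leaf ⟨3, 0,
    10, 0⟩)))) (.rel1 [(11360, 0), (16000, 0), (11360, 18560)] (.rel2 [(6720, 3936), (12256, 0),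
    (16000, 0), (6720, 37123)] (.leaf ⟨2, 0, 30, 0⟩)))

theorem ok2aa_5 : chkT cF2mm cF2mm T2aa_5 (9568, 6080) (9568, 3792) dum nA nA = true := by
  decide +kernel

theorem fr2aa {z k l : ℂ} (hz : OnE (vt .t2aa) z) (hk : conj k ∈ Poly pA) (hl : conj l ∈ Poly pA) :
    k ^ 2 + l ^ 2 - 2 * k * l * (2 * z ^ 2 - 1) + (z * (2 * z)) ^ 2 ≠ 0 := by
  have h := edge_use rpF2mm (E := L2aa) (V0 := dum) (V1 := nA) (V2 := nA) (fun e he => by
    simp only [L2aa, List.mem_cons, List.not_mem_nil, or_false] at he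
    rcases he with rfl | rfl | rfl | rfl | rfl | rfl
    exacts [⟨_, ok2aa_0⟩, ⟨_, ok2aa_1⟩, ⟨_, ok2aa_2⟩, ⟨_, ok2aa_3⟩, ⟨_, ok2aa_4⟩, ⟨_, ok2aa_5⟩]) (V := vt .t2aa) (by decide) hz zero_dum (rgA hk) (rgA hl)
  rw [evF2mm (mr_true k) (mr_true l)] at h
  exact fun h0 => h (by rw [h0, mul_zero])

/-- edges -/
def L2as : List ((ℕ × ℕ) × (ℕ × ℕ)) :=
  [((8448, 5712), (10240, 4432)), ((10240, 4432), (13632, 4432)), ((13632, 4432), (13984, 8064)),
    ((13984, 8064), (13296, 10800)), ((13296, 10800), (11728, 10800)), ((11728, 10800), (8448,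
    8048)), ((8448, 8048), (8448, 5712))]

/-- tree -/
def T2as_0 : CT := .seg (9344, 5072) (.rel1 [(6720, 0), (16000, 0), (12874, 12505), (6720, 7120)]
    (.rel2 [(8000, 3520), (12800, 0), (16000, 0), (12390, 9238), (8000, 5440)] (.leaf ⟨9, 0, 4,
    0⟩))) (.rel1 [(6720, 0), (16000, 0), (12874, 12505), (6720, 7120)] (.rel2 [(8000, 3520),
    (12800, 0), (16000, 0), (12390, 9238), (8000, 5440)] (.leaf ⟨95, 0, 31, 0⟩)))

theorem ok2as_0 : chkT cF2mn cF2mn T2as_0 (8448, 5712) (10240, 4432) dum nA nT = true := by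
  decide +kernel

/-- tree -/
def T2as_1 : CT := .rel1 [(6720, 0), (16000, 0), (13055, 11780), (6720, 7344)] (.rel2 [(12800, 0),
    (16000, 0), (12390, 9238), (6798, 4401)] (.leaf ⟨10, 0, 0, 0⟩))

theorem ok2as_1 : chkT cF2mn cF2mn T2as_1 (10240, 4432) (13632, 4432) dum nA nT = true := by
  decide +kernel

/-- tree -/
def T2as_2 : CT := .seg (13808, 6248) (.rel1 [(6720, 0), (16000, 0), (13296, 10816), (6720,
    10816)] (.rel2 [(16000, 0), (12390, 9238), (1712, 0)] (.leaf ⟨0, 1, 0, 10⟩))) (.rel1 [(6720,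
    0), (16000, 0), (13296, 10816), (6720, 10816)] (.rel2 [(16000, 0), (12390, 9238), (1712, 0)]
    (.leaf ⟨0, 3, 0, 10⟩)))

theorem ok2as_2 : chkT cF2mn cF2mn T2as_2 (13632, 4432) (13984, 8064) dum nA nT = true := by
  decide +kernel

/-- tree -/
def T2as_3 : CT := .rel1 [(6720, 0), (16000, 0), (6720, 37123)] (.rel2 [(8000, 0), (16000, 0),
    (12592, 8720), (8000, 8720)] (.leaf ⟨0, 24, 0, 17⟩))

theorem ok2as_3 : chkT cF2mn cF2mn T2as_3 (13984, 8064) (13296, 10800) dum nA nT = true := by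
  decide +kernel

/-- tree -/
def T2as_4 : CT := .rel1 [(6720, 0), (16000, 0), (6720, 37123)] (.rel2 [(16000, 0), (12592, 8720),
    (11792, 8720), (1710, 0)] (.leaf ⟨0, 17, 25, 0⟩))

theorem ok2as_4 : chkT cF2mn cF2mn T2as_4 (13296, 10800) (11728, 10800) dum nA nT = true := by
  decide +kernel

/-- tree -/
def T2as_5 : CT := .seg (10088, 9424) (.cut1 true 5408 [(6720, 3936), (12256, 0), (16000, 0),
    (14648, 5408), (6720, 5408)] [(14648, 5408), (13296, 10816), (11680, 10816), (8000, 8240),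
    (6720, 7120), (6720, 5408)] (.cut2 true 4360 [(8000, 3520), (12800, 0), (16000, 0), (14296,
    4360), (8000, 4360)] [(14296, 4360), (12592, 8720), (11792, 8720), (8000, 5440), (8000, 4360)]
    (.rel1 [(6720, 0), (16000, 0), (6720, 37120)] (.rel2 [(8000, 0), (16000, 0), (14296, 4360),
    (8000, 4360)] (.leaf ⟨0, 3, 9, 0⟩))) (.cut1 true 2704 [(8452, 2704), (12256, 0), (16000, 0),
    (15324, 2704)] [(6720, 3936), (8452, 2704), (15324, 2704), (14648, 5408), (6720, 5408)] (.seg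
    (10908, 10112) (.cut2 false 11148 [(11148, 8163), (8000, 5440), (8000, 4360), (11148, 4360)]
    [(14296, 4360), (12592, 8720), (11792, 8720), (11148, 8163), (11148, 4360)] (.leaf ⟨1, 0, 30,
    0⟩) (.leaf ⟨4, 0, 30, 0⟩)) (.cut2 true 6540 [(14296, 4360), (13444, 6540), (9271, 6540),
    (8000, 5440), (8000, 4360)] [(13444, 6540), (12592, 8720), (11792, 8720), (9271, 6540)] (.leaf
    ⟨1, 0, 10, 0⟩) (.cut2 true 7630 [(13444, 6540), (13018, 7630), (10531, 7630), (9271, 6540)]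
    [(13018, 7630), (12592, 8720), (11792, 8720), (10531, 7630)] (.leaf ⟨5, 0, 30, 0⟩) (.rel2
    [(13018, 7630), (12390, 9237), (10531, 7630)] (.leaf ⟨7, 0, 29, 0⟩))))) (.rel1 [(6720, 2704),
    (15324, 2704), (6720, 37120)] (.rel2 [(14296, 4360), (12390, 9238), (6751, 4360)] (.leaf ⟨0,
    2, 10, 0⟩))))) (.rel1 [(14648, 5408), (6720, 37125), (6720, 5408)] (.rel2 [(8000, 0), (16000,
    0), (12592, 8720), (8000, 8720)] (.leaf ⟨0, 4, 9, 0⟩)))) (.cut1 true 5408 [(6720, 3936),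
    (12256, 0), (16000, 0), (14648, 5408), (6720, 5408)] [(14648, 5408), (13296, 10816), (11680,
    10816), (8000, 8240), (6720, 7120), (6720, 5408)] (.seg (9268, 8736) (.rel1 [(6720, 3936),
    (12256, 0), (16000, 0), (6720, 37120)] (.rel2 [(8000, 0), (16000, 0), (12390, 9238), (8000,
    5440)] (.leaf ⟨8, 0, 29, 0⟩))) (.rel1 [(6720, 3936), (12256, 0), (16000, 0), (6720, 37120)]
    (.rel2 [(8000, 0), (16000, 0), (12390, 9238), (8000, 5440)] (.leaf ⟨4, 0, 9, 0⟩)))) (.rel1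
    [(14648, 5408), (6720, 37125), (6720, 5408)] (.rel2 [(16000, 0), (12390, 9238), (1712, 0)]
    (.leaf ⟨0, 2, 10, 0⟩))))

theorem ok2as_5 : chkT cF2mn cF2mn T2as_5 (11728, 10800) (8448, 8048) dum nA nT = true := by
  decide +kernel

/-- tree -/
def T2as_6 : CT := .seg (8448, 6880) (.rel1 [(6720, 3936), (12256, 0), (16000, 0), (12874, 12505),
    (6720, 7120)] (.rel2 [(8000, 0), (16000, 0), (12390, 9238), (8000, 5440)] (.leaf ⟨6, 0, 8,
    0⟩))) (.cut1 false 11360 [(6720, 3936), (11360, 637), (11360, 10592), (8000, 8240), (6720,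
    7120)] [(11360, 637), (12256, 0), (16000, 0), (13296, 10816), (11680, 10816), (11360, 10592)]
    (.cut1 false 9040 [(6720, 3936), (9040, 2286), (9040, 8968), (8000, 8240), (6720, 7120)]
    [(9040, 2286), (11360, 637), (11360, 10592), (9040, 8968)] (.cut1 true 5627 [(6720, 3936),
    (9040, 2286), (9040, 5627), (6720, 5627)] [(9040, 5627), (9040, 8968), (8000, 8240), (6720,
    7120), (6720, 5627)] (.cut1 false 7880 [(6720, 3936), (7880, 3111), (7880, 5627), (6720,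
    5627)] [(7880, 3111), (9040, 2286), (9040, 5627), (7880, 5627)] (.cut2 false 12000 [(8000,
    3520), (12000, 586), (12000, 8720), (11792, 8720), (8000, 5440)] [(12000, 586), (12800, 0),
    (16000, 0), (12592, 8720), (12000, 8720)] (.cut2 false 10000 [(8000, 3520), (10000, 2053),
    (10000, 7170), (8000, 5440)] [(10000, 2053), (12000, 586), (12000, 8720), (11792, 8720),
    (10000, 7170)] (.cut1 false 7300 [(6720, 3936), (7300, 3523), (7300, 5627), (6720, 5627)]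
    [(7300, 3523), (7880, 3111), (7880, 5627), (7300, 5627)] (.cut1 true 4575 [(6720, 3936),
    (7300, 3523), (7300, 4575), (6720, 4575)] [(7300, 4575), (7300, 5627), (6720, 5627), (6720,
    4575)] (.cut2 false 9000 [(8000, 3520), (9000, 2786), (9000, 6305), (8000, 5440)] [(9000,
    2786), (10000, 2053), (10000, 7170), (9000, 6305)] (.cut1 false 7010 [(6720, 3936), (7010,
    3729), (7010, 4575), (6720, 4575)] [(7010, 3729), (7300, 3523), (7300, 4575), (7010, 4575)]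
    (.cut2 true 4545 [(8000, 3520), (9000, 2786), (9000, 4545), (8000, 4545)] [(9000, 4545),
    (9000, 6305), (8000, 5440), (8000, 4545)] (.leaf ⟨7, 0, 7, 0⟩) (.seg (8448, 6296) (.seg (8448,
    6588) (.seg (8448, 6734) (.leaf ⟨7, 0, 7, 0⟩) (.leaf ⟨8, 0, 6, 0⟩)) (.leaf ⟨9, 0, 5, 0⟩))
    (.leaf ⟨10, 0, 2, 0⟩))) (.leaf ⟨8, 0, 6, 0⟩)) (.leaf ⟨8, 0, 6, 0⟩)) (.leaf ⟨7, 0, 7, 0⟩))
    (.leaf ⟨8, 0, 6, 0⟩)) (.rel2 [(10000, 2053), (12000, 586), (12000, 8900), (10000, 7170)]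
    (.leaf ⟨8, 0, 5, 0⟩))) (.rel2 [(12000, 0), (16000, 0), (12000, 10235)] (.leaf ⟨9, 0, 4, 0⟩)))
    (.rel2 [(12800, 0), (16000, 0), (12390, 9238), (6798, 4401)] (.leaf ⟨8, 0, 6, 0⟩))) (.rel1
    [(9040, 5627), (9040, 9150), (6720, 7120), (6720, 5627)] (.rel2 [(8000, 0), (16000, 0),
    (12390, 9238), (8000, 5440)] (.leaf ⟨6, 0, 8, 0⟩)))) (.rel2 [(12800, 0), (16000, 0), (12390,
    9238), (6798, 4401)] (.leaf ⟨8, 0, 6, 0⟩))) (.rel1 [(11360, 0), (16000, 0), (11360, 18560)]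
    (.rel2 [(12800, 0), (16000, 0), (12390, 9238), (6798, 4401)] (.leaf ⟨8, 0, 7, 0⟩))))

theorem ok2as_6 : chkT cF2mn cF2mn T2as_6 (8448, 8048) (8448, 5712) dum nA nT = true := by
  decide +kernel

theorem fr2as {z k l : ℂ} (hz : OnE (vt .t2as) z) (hk : conj k ∈ Poly pA) (hl : l ∈ Poly pT) :
    k ^ 2 + l ^ 2 - 2 * k * l * (2 * z ^ 2 - 1) + (z * (2 * z)) ^ 2 ≠ 0 := by
  have h := edge_use rpF2mn (E := L2as) (V0 := dum) (V1 := nA) (V2 := nT) (fun e he => by
    simp only [L2as, List.mem_cons, List.not_mem_nil, or_false] at he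
    rcases he with rfl | rfl | rfl | rfl | rfl | rfl | rfl
    exacts [⟨_, ok2as_0⟩, ⟨_, ok2as_1⟩, ⟨_, ok2as_2⟩, ⟨_, ok2as_3⟩, ⟨_, ok2as_4⟩, ⟨_, ok2as_5⟩, ⟨_, ok2as_6⟩]) (V := vt .t2as) (by decide) hz zero_dum (rgA hk) (rgT hl)
  rw [evF2mn (mr_true k) (mr_false l)] at h
  exact fun h0 => h (by rw [h0, mul_zero])

/-- edges -/
def L2e : List ((ℕ × ℕ) × (ℕ × ℕ)) :=
  [((6720, 3952), (7760, 3200)), ((7760, 3200), (10448, 3200)), ((10448, 3200), (10624, 5008)),
    ((10624, 5008), (9376, 8128)), ((9376, 8128), (7952, 8128)), ((7952, 8128), (6720, 7104)),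
    ((6720, 7104), (6720, 3952))]

/-- tree -/
def T2e_0 : CT := .rel2 [(6720, 0), (16000, 0), (6720, 37123)] (.leaf ⟨10, 0, 0, 0⟩)

theorem ok2e_0 : chkT cG2m cG2m T2e_0 (6720, 3952) (7760, 3200) dum dum nA = true := by
  decide +kernel

/-- tree -/
def T2e_1 : CT := .rel2 [(6720, 0), (16000, 0), (12874, 12505), (6720, 7120)] (.leaf ⟨9, 0, 0, 4⟩)

theorem ok2e_1 : chkT cG2m cG2m T2e_1 (7760, 3200) (10448, 3200) dum dum nA = true := by
  decide +kernel

/-- tree -/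
def T2e_2 : CT := .rel2 [(6720, 0), (16000, 0), (13296, 10816), (6720, 10816)] (.leaf ⟨0, 1, 0,
    10⟩)

theorem ok2e_2 : chkT cG2m cG2m T2e_2 (10448, 3200) (10624, 5008) dum dum nA = true := by
  decide +kernel

/-- tree -/
def T2e_3 : CT := .rel2 [(6720, 0), (16000, 0), (13296, 10816), (6720, 10816)] (.leaf ⟨0, 9, 0,
    4⟩)

theorem ok2e_3 : chkT cG2m cG2m T2e_3 (10624, 5008) (9376, 8128) dum dum nA = true := by
  decide +kernel

/-- tree -/
def T2e_4 : CT := .rel2 [(6720, 0), (16000, 0), (6720, 37120)] (.leaf ⟨0, 10, 3, 0⟩)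

theorem ok2e_4 : chkT cG2m cG2m T2e_4 (9376, 8128) (7952, 8128) dum dum nA = true := by
  decide +kernel

/-- tree -/
def T2e_5 : CT := .rel2 [(6720, 0), (16000, 0), (6720, 37123)] (.leaf ⟨0, 1, 10, 0⟩)

theorem ok2e_5 : chkT cG2m cG2m T2e_5 (7952, 8128) (6720, 7104) dum dum nA = true := by
  decide +kernel

/-- tree -/
def T2e_6 : CT := .seg (6720, 5528) (.rel2 [(6720, 3936), (12256, 0), (16000, 0), (6720, 37123)]
    (.leaf ⟨6, 0, 8, 0⟩)) (.rel2 [(6720, 3936), (12256, 0), (16000, 0), (6720, 37123)] (.leaf ⟨6,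
    0, 8, 0⟩))

theorem ok2e_6 : chkT cG2m cG2m T2e_6 (6720, 7104) (6720, 3952) dum dum nA = true := by
  decide +kernel

theorem fr2e {z k : ℂ} (hz : OnE (vt .t2e) z) (hk : conj k ∈ Poly pA) :
    k + Complex.I * z * (2 * z) ≠ 0 := by
  have h := edge_use rpG2m (E := L2e) (V0 := dum) (V1 := dum) (V2 := nA) (fun e he => by
    simp only [L2e, List.mem_cons, List.not_mem_nil, or_false] at he
    rcases he with rfl | rfl | rfl | rfl | rfl | rfl | rfl
    exacts [⟨_, ok2e_0⟩, ⟨_, ok2e_1⟩, ⟨_, ok2e_2⟩, ⟨_, ok2e_3⟩, ⟨_, ok2e_4⟩, ⟨_, ok2e_5⟩, ⟨_, ok2e_6⟩]) (V := vt .t2e) (by decide) hz zero_dum zero_dum (rgA hk)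
  rw [evG2m (mr_true k)] at h
  exact fun h0 => h (by rw [h0, mul_zero])

end Pool.Agent.Work.MP_b30479_gt.G2.SC
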