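import Pool.Agent.Work.MP_b30479_gt.G2.S2Base
import Pool.Agent.Work.MP_b30479_gt.G2.S2CfgA

/-!
# Frontier of the rings with 3 crossings

Generated certificates (see `S2Cert`).
-/

set_option linter.style.longLine false

namespace Pool.Agent.Work.MP_b30479_gt.G2.SC

open scoped ComplexConjugate

/-- edges -/
def L3aa : List ((ℕ × ℕ) × (ℕ × ℕ)) :=
  [((11424, 2224), (12192, 1680)), ((12192, 1680), (13792, 1680)), ((13792, 1680), (13968, 3504)),
    ((13968, 3504), (13632, 4784)), ((13632, 4784), (12704, 4784)), ((12704, 4784), (11424,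
    3696)), ((11424, 3696), (11424, 2224))]

/-- tree -/
def T3aa_0 : CT := .rel1 [(6720, 0), (16000, 0), (12874, 12505), (6720, 7120)] (.rel2 [(6720,
    3936), (12256, 0), (16000, 0), (12874, 12505), (6720, 7120)] (.leaf ⟨20, 0, 22, 0⟩))

theorem ok3aa_0 : chkT cF3mm cF3mm T3aa_0 (11424, 2224) (12192, 1680) dum nA nA = true := by
  decide +kernel

/-- tree -/
def T3aa_1 : CT := .rel1 [(6720, 0), (16000, 0), (13055, 11780), (6720, 7344)] (.rel2 [(6720, 0),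
    (16000, 0), (13055, 11780), (6720, 7344)] (.leaf ⟨9, 0, 3, 0⟩))

theorem ok3aa_1 : chkT cF3mm cF3mm T3aa_1 (12192, 1680) (13792, 1680) dum nA nA = true := by
  decide +kernel

/-- tree -/
def T3aa_2 : CT := .rel1 [(6720, 0), (16000, 0), (13280, 11040), (6720, 10400)] (.rel2 [(6720, 0),
    (16000, 0), (13280, 11040), (6720, 10400)] (.seg (13880, 2592) (.leaf ⟨3, 0, 0, 9⟩) (.leaf ⟨0,
    2, 0, 10⟩)))

theorem ok3aa_2 : chkT cF3mm cF3mm T3aa_2 (13792, 1680) (13968, 3504) dum nA nA = true := by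
  decide +kernel

/-- tree -/
def T3aa_3 : CT := .rel1 [(6720, 0), (16000, 0), (13280, 11040), (6720, 10400)] (.rel2 [(6720, 0),
    (16000, 0), (13280, 11040), (6720, 10400)] (.rel1 [(6720, 0), (16000, 0), (6720, 37666)]
    (.rel2 [(6720, 0), (16000, 0), (6720, 37666)] (.leaf ⟨0, 7, 0, 7⟩))))

theorem ok3aa_3 : chkT cF3mm cF3mm T3aa_3 (13968, 3504) (13632, 4784) dum nA nA = true := by
  decide +kernel

/-- tree -/
def T3aa_4 : CT := .rel1 [(6720, 0), (16000, 0), (13280, 11040), (6720, 10400)] (.rel2 [(6720, 0),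
    (16000, 0), (13280, 11040), (6720, 10400)] (.rel1 [(6720, 0), (16000, 0), (6720, 37666)]
    (.rel2 [(6720, 0), (16000, 0), (6720, 37666)] (.leaf ⟨0, 7, 7, 0⟩))))

theorem ok3aa_4 : chkT cF3mm cF3mm T3aa_4 (13632, 4784) (12704, 4784) dum nA nA = true := by
  decide +kernel

/-- tree -/
def T3aa_5 : CT := .rel1 [(6720, 3936), (12256, 0), (16000, 0), (6720, 37123)] (.rel2 [(12256, 0),
    (16000, 0), (12874, 12505), (4712, 5363)] (.leaf ⟨0, 1, 10, 0⟩))

theorem ok3aa_5 : chkT cF3mm cF3mm T3aa_5 (12704, 4784) (11424, 3696) dum nA nA = true := by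
  decide +kernel

/-- tree -/
def T3aa_6 : CT := .rel1 [(6720, 3936), (12256, 0), (16000, 0), (6720, 37123)] (.rel2 [(6720,
    3936), (12256, 0), (16000, 0), (12874, 12505), (6720, 7120)] (.leaf ⟨2, 0, 10, 0⟩))

theorem ok3aa_6 : chkT cF3mm cF3mm T3aa_6 (11424, 3696) (11424, 2224) dum nA nA = true := by
  decide +kernel

theorem fr3aa {z k l : ℂ} (hz : OnE (vt .t3aa) z) (hk : conj k ∈ Poly pA) (hl : conj l ∈ Poly pA) :
    k ^ 2 + l ^ 2 - 2 * k * l * (4 * z ^ 3 - 3 * z) + (z * (4 * z ^ 2 - 1)) ^ 2 ≠ 0 := by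
  have h := edge_use rpF3mm (E := L3aa) (V0 := dum) (V1 := nA) (V2 := nA) (fun e he => by
    simp only [L3aa, List.mem_cons, List.not_mem_nil, or_false] at he
    rcases he with rfl | rfl | rfl | rfl | rfl | rfl | rfl
    exacts [⟨_, ok3aa_0⟩, ⟨_, ok3aa_1⟩, ⟨_, ok3aa_2⟩, ⟨_, ok3aa_3⟩, ⟨_, ok3aa_4⟩, ⟨_, ok3aa_5⟩, ⟨_, ok3aa_6⟩]) (V := vt .t3aa) (by decide) hz zero_dum (rgA hk) (rgA hl)
  rw [evF3mm (mr_true k) (mr_true l)] at h
  exact fun h0 => h (by rw [h0, mul_zero])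

/-- edges -/
def L3as : List ((ℕ × ℕ) × (ℕ × ℕ)) :=
  [((10544, 3472), (11552, 2752)), ((11552, 2752), (13648, 2752)), ((13648, 2752), (13792, 4224)),
    ((13792, 4224), (13216, 6416)), ((13216, 6416), (12256, 6416)), ((12256, 6416), (10544,
    4960)), ((10544, 4960), (10544, 3472))]

/-- tree -/
def T3as_0 : CT := .rel1 [(6720, 0), (16000, 0), (12874, 12505), (6720, 7120)] (.rel2 [(8000,
    3520), (12800, 0), (16000, 0), (13020, 11922), (8000, 7680)] (.leaf ⟨10, 0, 0, 0⟩))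

theorem ok3as_0 : chkT cF3mn cF3mn T3as_0 (10544, 3472) (11552, 2752) dum nA nS = true := by
  decide +kernel

/-- tree -/
def T3as_1 : CT := .rel1 [(6720, 0), (16000, 0), (13055, 11780), (6720, 7344)] (.rel2 [(12800, 0),
    (16000, 0), (13020, 11922), (5364, 5453)] (.leaf ⟨10, 0, 0, 2⟩))

theorem ok3as_1 : chkT cF3mn cF3mn T3as_1 (11552, 2752) (13648, 2752) dum nA nS = true := by
  decide +kernel

/-- tree -/
def T3as_2 : CT := .rel1 [(6720, 0), (16000, 0), (13280, 11040), (6720, 10400)] (.rel2 [(8000, 0),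
    (16000, 0), (13280, 11040), (8000, 10400)] (.rel2 [(8000, 0), (16000, 0), (8000, 32471)]
    (.leaf ⟨0, 3, 0, 10⟩)))

theorem ok3as_2 : chkT cF3mn cF3mn T3as_2 (13648, 2752) (13792, 4224) dum nA nS = true := by
  decide +kernel

/-- tree -/
def T3as_3 : CT := .rel1 [(6720, 0), (16000, 0), (13280, 11040), (6720, 10400)] (.rel2 [(8000, 0),
    (16000, 0), (13280, 11040), (8000, 10400)] (.seg (13504, 5320) (.rel1 [(6720, 0), (16000, 0),
    (6720, 37666)] (.leaf ⟨0, 9, 0, 5⟩)) (.rel1 [(6720, 0), (16000, 0), (6720, 37666)] (.leaf ⟨0,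
    30, 0, 5⟩))))

theorem ok3as_3 : chkT cF3mn cF3mn T3as_3 (13792, 4224) (13216, 6416) dum nA nS = true := by
  decide +kernel

/-- tree -/
def T3as_4 : CT := .rel1 [(6720, 0), (16000, 0), (6720, 37123)] (.rel2 [(8000, 0), (16000, 0),
    (13296, 10816), (11712, 10816), (8000, 7680)] (.leaf ⟨0, 1, 10, 0⟩))

theorem ok3as_4 : chkT cF3mn cF3mn T3as_4 (13216, 6416) (12256, 6416) dum nA nS = true := by
  decide +kernel

/-- tree -/
def T3as_5 : CT := .seg (11400, 5688) (.rel1 [(6720, 3936), (12256, 0), (16000, 0), (6720, 37123)]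
    (.rel2 [(8000, 0), (16000, 0), (13020, 11922), (8000, 7680)] (.leaf ⟨6, 0, 8, 0⟩))) (.rel1
    [(6720, 3936), (12256, 0), (16000, 0), (6720, 37123)] (.rel2 [(8000, 3520), (12800, 0),
    (16000, 0), (13020, 11922), (8000, 7680)] (.leaf ⟨7, 0, 7, 0⟩)))

theorem ok3as_5 : chkT cF3mn cF3mn T3as_5 (12256, 6416) (10544, 4960) dum nA nS = true := by
  decide +kernel

/-- tree -/
def T3as_6 : CT := .rel1 [(6720, 3936), (12256, 0), (16000, 0), (12874, 12505), (6720, 7120)]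
    (.rel2 [(8000, 0), (16000, 0), (13020, 11922), (8000, 7680)] (.leaf ⟨9, 0, 4, 0⟩))

theorem ok3as_6 : chkT cF3mn cF3mn T3as_6 (10544, 4960) (10544, 3472) dum nA nS = true := by
  decide +kernel

theorem fr3as {z k l : ℂ} (hz : OnE (vt .t3as) z) (hk : conj k ∈ Poly pA) (hl : l ∈ Poly pS) :
    k ^ 2 + l ^ 2 - 2 * k * l * (4 * z ^ 3 - 3 * z) + (z * (4 * z ^ 2 - 1)) ^ 2 ≠ 0 := by
  have h := edge_use rpF3mn (E := L3as) (V0 := dum) (V1 := nA) (V2 := nS) (fun e he => by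
    simp only [L3as, List.mem_cons, List.not_mem_nil, or_false] at he
    rcases he with rfl | rfl | rfl | rfl | rfl | rfl | rfl
    exacts [⟨_, ok3as_0⟩, ⟨_, ok3as_1⟩, ⟨_, ok3as_2⟩, ⟨_, ok3as_3⟩, ⟨_, ok3as_4⟩, ⟨_, ok3as_5⟩, ⟨_, ok3as_6⟩]) (V := vt .t3as) (by decide) hz zero_dum (rgA hk) (rgS hl)
  rw [evF3mn (mr_true k) (mr_false l)] at h
  exact fun h0 => h (by rw [h0, mul_zero])

/-- edges -/
def L3ss : List ((ℕ × ℕ) × (ℕ × ℕ)) :=
  [((10192, 5472), (11728, 4384)), ((11728, 4384), (13680, 4384)), ((13680, 4384), (13696, 4704)),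
    ((13696, 4704), (12928, 7792)), ((12928, 7792), (12624, 8624)), ((12624, 8624), (11728,
    8624)), ((11728, 8624), (10192, 7280)), ((10192, 7280), (10192, 5472))]

/-- tree -/
def T3ss_0 : CT := .seg (10960, 4928) (.seg (10576, 5200) (.rel1 [(8000, 3520), (12800, 0),
    (16000, 0), (8000, 32006)] (.rel2 [(8000, 3520), (12800, 0), (16000, 0), (13020, 11922),
    (8000, 7680)] (.leaf ⟨7, 0, 0, 8⟩))) (.rel1 [(8000, 3520), (12800, 0), (16000, 0), (8000,
    32006)] (.rel2 [(8000, 3520), (12800, 0), (16000, 0), (13020, 11922), (8000, 7680)] (.leaf ⟨7,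
    0, 0, 8⟩)))) (.rel1 [(8000, 3520), (12800, 0), (16000, 0), (8000, 32006)] (.rel2 [(8000,
    3520), (12800, 0), (16000, 0), (13020, 11922), (8000, 7680)] (.leaf ⟨7, 0, 0, 7⟩)))

theorem ok3ss_0 : chkT cF3nn cF3nn T3ss_0 (10192, 5472) (11728, 4384) dum nS nS = true := by
  decide +kernel

/-- tree -/
def T3ss_1 : CT := .rel1 [(12800, 0), (16000, 0), (13020, 11922), (5364, 5453)] (.rel2 [(8000,
    3520), (12800, 0), (16000, 0), (8000, 32006)] (.leaf ⟨6, 0, 0, 8⟩))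

theorem ok3ss_1 : chkT cF3nn cF3nn T3ss_1 (11728, 4384) (13680, 4384) dum nS nS = true := by
  decide +kernel

/-- tree -/
def T3ss_2 : CT := .rel1 [(8000, 0), (16000, 0), (13280, 11040), (8000, 10400)] (.rel2 [(8000, 0),
    (16000, 0), (13280, 11040), (8000, 10400)] (.rel1 [(8000, 0), (16000, 0), (8000, 32471)]
    (.rel2 [(8000, 0), (16000, 0), (8000, 32471)] (.leaf ⟨0, 3, 0, 9⟩))))

theorem ok3ss_2 : chkT cF3nn cF3nn T3ss_2 (13680, 4384) (13696, 4704) dum nS nS = true := by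
  decide +kernel

/-- tree -/
def T3ss_3 : CT := .seg (13312, 6248) (.rel1 [(8000, 0), (16000, 0), (13296, 10816), (8000,
    10816)] (.rel2 [(8000, 0), (16000, 0), (13296, 10816), (8000, 10816)] (.leaf ⟨0, 10, 0, 3⟩)))
    (.rel1 [(8000, 0), (16000, 0), (13296, 10816), (8000, 10816)] (.rel2 [(8000, 0), (16000, 0),
    (13296, 10816), (8000, 10816)] (.leaf ⟨0, 29, 7, 0⟩)))

theorem ok3ss_3 : chkT cF3nn cF3nn T3ss_3 (13696, 4704) (12928, 7792) dum nS nS = true := by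
  decide +kernel

/-- tree -/
def T3ss_4 : CT := .rel1 [(8000, 0), (16000, 0), (13280, 11040), (8000, 10400)] (.rel2 [(8000, 0),
    (16000, 0), (13280, 11040), (8000, 10400)] (.leaf ⟨0, 8, 6, 0⟩))

theorem ok3ss_4 : chkT cF3nn cF3nn T3ss_4 (12928, 7792) (12624, 8624) dum nS nS = true := by
  decide +kernel

/-- tree -/
def T3ss_5 : CT := .rel1 [(8000, 0), (16000, 0), (13280, 11040), (8000, 10400)] (.rel2 [(8000, 0),
    (16000, 0), (13280, 11040), (8000, 10400)] (.leaf ⟨5, 0, 9, 0⟩))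

theorem ok3ss_5 : chkT cF3nn cF3nn T3ss_5 (12624, 8624) (11728, 8624) dum nS nS = true := by
  decide +kernel

/-- tree -/
def T3ss_6 : CT := .seg (10960, 7952) (.rel1 [(8000, 0), (16000, 0), (13020, 11922), (8000, 7680)]
    (.rel2 [(8000, 0), (16000, 0), (13020, 11922), (8000, 7680)] (.leaf ⟨9, 0, 3, 0⟩))) (.rel1
    [(8000, 0), (16000, 0), (13020, 11922), (8000, 7680)] (.rel2 [(8000, 0), (16000, 0), (13020,
    11922), (8000, 7680)] (.leaf ⟨10, 0, 2, 0⟩)))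

theorem ok3ss_6 : chkT cF3nn cF3nn T3ss_6 (11728, 8624) (10192, 7280) dum nS nS = true := by
  decide +kernel

/-- tree -/
def T3ss_7 : CT := .cut1 false 12000 [(8000, 3520), (12000, 586), (12000, 10816), (11712, 10816),
    (8000, 7680)] [(12000, 586), (12800, 0), (16000, 0), (13296, 10816), (12000, 10816)] (.cut2
    false 12000 [(8000, 3520), (12000, 586), (12000, 10816), (11712, 10816), (8000, 7680)]
    [(12000, 586), (12800, 0), (16000, 0), (13296, 10816), (12000, 10816)] (.cut1 true 5701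
    [(8000, 3520), (12000, 586), (12000, 5701), (8000, 5701)] [(12000, 5701), (12000, 10816),
    (11712, 10816), (8000, 7680), (8000, 5701)] (.rel2 [(8000, 3520), (12000, 586), (12000,
    11060), (8000, 7680)] (.leaf ⟨9, 0, 0, 4⟩)) (.rel1 [(12000, 5701), (12000, 11060), (8000,
    7680), (8000, 5701)] (.rel2 [(8000, 3520), (12000, 586), (12000, 11060), (8000, 7680)] (.leaf
    ⟨9, 0, 0, 5⟩)))) (.rel1 [(12000, 586), (12000, 11060), (5364, 5453)] (.rel2 [(12000, 0),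
    (16000, 0), (12000, 16000)] (.leaf ⟨25, 0, 0, 17⟩)))) (.rel1 [(12000, 0), (16000, 0), (12000,
    16000)] (.rel2 [(8000, 0), (16000, 0), (13020, 11922), (8000, 7680)] (.leaf ⟨9, 0, 0, 4⟩)))

theorem ok3ss_7 : chkT cF3nn cF3nn T3ss_7 (10192, 7280) (10192, 5472) dum nS nS = true := by
  decide +kernel

theorem fr3ss {z k l : ℂ} (hz : OnE (vt .t3ss) z) (hk : k ∈ Poly pS) (hl : l ∈ Poly pS) :
    k ^ 2 + l ^ 2 - 2 * k * l * (4 * z ^ 3 - 3 * z) + (z * (4 * z ^ 2 - 1)) ^ 2 ≠ 0 := by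
  have h := edge_use rpF3nn (E := L3ss) (V0 := dum) (V1 := nS) (V2 := nS) (fun e he => by
    simp only [L3ss, List.mem_cons, List.not_mem_nil, or_false] at he
    rcases he with rfl | rfl | rfl | rfl | rfl | rfl | rfl | rfl
    exacts [⟨_, ok3ss_0⟩, ⟨_, ok3ss_1⟩, ⟨_, ok3ss_2⟩, ⟨_, ok3ss_3⟩, ⟨_, ok3ss_4⟩, ⟨_, ok3ss_5⟩, ⟨_, ok3ss_6⟩, ⟨_, ok3ss_7⟩]) (V := vt .t3ss) (by decide) hz zero_dum (rgS hk) (rgS hl)
  rw [evF3nn (mr_false k) (mr_false l)] at h
  exact fun h0 => h (by rw [h0, mul_zero])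

/-- edges -/
def L3ae : List ((ℕ × ℕ) × (ℕ × ℕ)) :=
  [((9824, 1872), (10384, 1456)), ((10384, 1456), (11824, 1456)), ((11824, 1456), (11920, 2448)),
    ((11920, 2448), (11248, 4128)), ((11248, 4128), (10528, 4128)), ((10528, 4128), (9824, 3520)),
    ((9824, 3520), (9824, 1872))]

/-- tree -/
def T3ae_0 : CT := .rel2 [(6720, 0), (16000, 0), (6720, 37123)] (.leaf ⟨10, 0, 0, 0⟩)

theorem ok3ae_0 : chkT cG3m cG3m T3ae_0 (9824, 1872) (10384, 1456) dum dum nA = true := by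
  decide +kernel

/-- tree -/
def T3ae_1 : CT := .rel2 [(6720, 0), (16000, 0), (12874, 12505), (6720, 7120)] (.leaf ⟨9, 0, 0,
    4⟩)

theorem ok3ae_1 : chkT cG3m cG3m T3ae_1 (10384, 1456) (11824, 1456) dum dum nA = true := by
  decide +kernel

/-- tree -/
def T3ae_2 : CT := .rel2 [(6720, 0), (16000, 0), (13296, 10816), (6720, 10816)] (.leaf ⟨0, 2, 0,
    10⟩)

theorem ok3ae_2 : chkT cG3m cG3m T3ae_2 (11824, 1456) (11920, 2448) dum dum nA = true := by
  decide +kernel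

/-- tree -/
def T3ae_3 : CT := .rel2 [(6720, 0), (16000, 0), (6720, 37120)] (.leaf ⟨0, 29, 0, 7⟩)

theorem ok3ae_3 : chkT cG3m cG3m T3ae_3 (11920, 2448) (11248, 4128) dum dum nA = true := by
  decide +kernel

/-- tree -/
def T3ae_4 : CT := .rel2 [(6720, 0), (16000, 0), (6720, 37120)] (.leaf ⟨0, 9, 4, 0⟩)

theorem ok3ae_4 : chkT cG3m cG3m T3ae_4 (11248, 4128) (10528, 4128) dum dum nA = true := by
  decide +kernel

/-- tree -/
def T3ae_5 : CT := .rel2 [(6720, 0), (16000, 0), (6720, 37123)] (.leaf ⟨0, 0, 10, 0⟩)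

theorem ok3ae_5 : chkT cG3m cG3m T3ae_5 (10528, 4128) (9824, 3520) dum dum nA = true := by
  decide +kernel

/-- tree -/
def T3ae_6 : CT := .rel2 [(6720, 3936), (12256, 0), (16000, 0), (6720, 37123)] (.leaf ⟨6, 0, 8,
    0⟩)

theorem ok3ae_6 : chkT cG3m cG3m T3ae_6 (9824, 3520) (9824, 1872) dum dum nA = true := by
  decide +kernel

theorem fr3ae {z k : ℂ} (hz : OnE (vt .t3ae) z) (hk : conj k ∈ Poly pA) :
    k + Complex.I * z * (4 * z ^ 2 - 1) ≠ 0 := by
  have h := edge_use rpG3m (E := L3ae) (V0 := dum) (V1 := dum) (V2 := nA) (fun e he => by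
    simp only [L3ae, List.mem_cons, List.not_mem_nil, or_false] at he
    rcases he with rfl | rfl | rfl | rfl | rfl | rfl | rfl
    exacts [⟨_, ok3ae_0⟩, ⟨_, ok3ae_1⟩, ⟨_, ok3ae_2⟩, ⟨_, ok3ae_3⟩, ⟨_, ok3ae_4⟩, ⟨_, ok3ae_5⟩, ⟨_, ok3ae_6⟩]) (V := vt .t3ae) (by decide) hz zero_dum zero_dum (rgA hk)
  rw [evG3m (mr_true k)] at h
  exact fun h0 => h (by rw [h0, mul_zero])

/-- edges -/
def L3se : List ((ℕ × ℕ) × (ℕ × ℕ)) :=
  [((8016, 3840), (8576, 3440)), ((8576, 3440), (10656, 3440)), ((10656, 3440), (10704, 4032)),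
    ((10704, 4032), (10048, 5696)), ((10048, 5696), (8800, 5696)), ((8800, 5696), (8016, 5024)),
    ((8016, 5024), (8016, 3840))]

/-- tree -/
def T3se_0 : CT := .rel2 [(8000, 0), (16000, 0), (8000, 32006)] (.leaf ⟨10, 0, 0, 0⟩)

theorem ok3se_0 : chkT cG3n cG3n T3se_0 (8016, 3840) (8576, 3440) dum dum nS = true := by
  decide +kernel

/-- tree -/
def T3se_1 : CT := .rel2 [(8000, 3520), (12800, 0), (16000, 0), (8000, 32006)] (.leaf ⟨6, 0, 0,
    8⟩)

theorem ok3se_1 : chkT cG3n cG3n T3se_1 (8576, 3440) (10656, 3440) dum dum nS = true := by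
  decide +kernel

/-- tree -/
def T3se_2 : CT := .rel2 [(8000, 0), (16000, 0), (8000, 32006)] (.leaf ⟨0, 4, 0, 9⟩)

theorem ok3se_2 : chkT cG3n cG3n T3se_2 (10656, 3440) (10704, 4032) dum dum nS = true := by
  decide +kernel

/-- tree -/
def T3se_3 : CT := .rel2 [(8000, 0), (16000, 0), (8000, 32000)] (.leaf ⟨0, 10, 0, 0⟩)

theorem ok3se_3 : chkT cG3n cG3n T3se_3 (10704, 4032) (10048, 5696) dum dum nS = true := by
  decide +kernel

/-- tree -/
def T3se_4 : CT := .rel2 [(8000, 0), (16000, 0), (13296, 10816), (8000, 10816)] (.leaf ⟨0, 4, 9,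
    0⟩)

theorem ok3se_4 : chkT cG3n cG3n T3se_4 (10048, 5696) (8800, 5696) dum dum nS = true := by
  decide +kernel

/-- tree -/
def T3se_5 : CT := .rel2 [(8000, 0), (16000, 0), (13020, 11922), (8000, 7680)] (.leaf ⟨6, 0, 8,
    0⟩)

theorem ok3se_5 : chkT cG3n cG3n T3se_5 (8800, 5696) (8016, 5024) dum dum nS = true := by
  decide +kernel

/-- tree -/
def T3se_6 : CT := .rel2 [(8000, 0), (16000, 0), (13020, 11922), (8000, 7680)] (.leaf ⟨10, 0, 3,
    0⟩)

theorem ok3se_6 : chkT cG3n cG3n T3se_6 (8016, 5024) (8016, 3840) dum dum nS = true := by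
  decide +kernel

theorem fr3se {z k : ℂ} (hz : OnE (vt .t3se) z) (hk : k ∈ Poly pS) :
    k + Complex.I * z * (4 * z ^ 2 - 1) ≠ 0 := by
  have h := edge_use rpG3n (E := L3se) (V0 := dum) (V1 := dum) (V2 := nS) (fun e he => by
    simp only [L3se, List.mem_cons, List.not_mem_nil, or_false] at he
    rcases he with rfl | rfl | rfl | rfl | rfl | rfl | rfl
    exacts [⟨_, ok3se_0⟩, ⟨_, ok3se_1⟩, ⟨_, ok3se_2⟩, ⟨_, ok3se_3⟩, ⟨_, ok3se_4⟩, ⟨_, ok3se_5⟩, ⟨_, ok3se_6⟩]) (V := vt .t3se) (by decide) hz zero_dum zero_dum (rgS hk)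
  rw [evG3n (mr_false k)] at h
  exact fun h0 => h (by rw [h0, mul_zero])

end Pool.Agent.Work.MP_b30479_gt.G2.SC
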