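import Pool.Agent.Work.MP_b30479_gt.G2.S2Base
import Pool.Agent.Work.MP_b30479_gt.G2.S2CfgA

/-!
# Frontier of the rings with 4 crossings

Generated certificates (see `S2Cert`).
-/

set_option linter.style.longLine false

namespace Pool.Agent.Work.MP_b30479_gt.G2.SC

open scoped ComplexConjugate

/-- edges -/
def L4aa : List ((ℕ × ℕ) × (ℕ × ℕ)) :=
  [((10560, 1840), (12160, 608)), ((12160, 608), (14400, 608)), ((14400, 608), (14720, 1920)),
    ((14720, 1920), (13280, 5280)), ((13280, 5280), (12320, 5280)), ((12320, 5280), (10560,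
    3680)), ((10560, 3680), (10560, 1840))]

/-- tree -/
def T4aa_0 : CT := .rel1 [(6720, 0), (16000, 0), (13280, 11040), (6720, 10400)] (.rel2 [(6720, 0),
    (16000, 0), (13280, 11040), (6720, 10400)] (.rel1 [(6720, 0), (16000, 0), (6720, 37666)]
    (.rel2 [(6720, 0), (16000, 0), (6720, 37666)] (.leaf ⟨3, 0, 10, 0⟩))))

theorem ok4aa_0 : chkT cF4mm cF4mm T4aa_0 (10560, 1840) (12160, 608) dum nA nA = true := by
  decide +kernel

/-- tree -/
def T4aa_1 : CT := .rel1 [(6720, 0), (16000, 0), (13280, 11040), (6720, 10400)] (.rel2 [(6720, 0),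
    (16000, 0), (13280, 11040), (6720, 10400)] (.leaf ⟨7, 0, 7, 0⟩))

theorem ok4aa_1 : chkT cF4mm cF4mm T4aa_1 (12160, 608) (14400, 608) dum nA nA = true := by
  decide +kernel

/-- tree -/
def T4aa_2 : CT := .rel1 [(6720, 0), (16000, 0), (13280, 11040), (6720, 10400)] (.rel2 [(6720, 0),
    (16000, 0), (13280, 11040), (6720, 10400)] (.leaf ⟨5, 0, 0, 9⟩))

theorem ok4aa_2 : chkT cF4mm cF4mm T4aa_2 (14400, 608) (14720, 1920) dum nA nA = true := by
  decide +kernel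

/-- tree -/
def T4aa_3 : CT := .rel1 [(6720, 0), (16000, 0), (13280, 11040), (6720, 10400)] (.rel2 [(6720, 0),
    (16000, 0), (13280, 11040), (6720, 10400)] (.seg (14000, 3600) (.rel1 [(6720, 0), (16000, 0),
    (6720, 37666)] (.rel2 [(6720, 0), (16000, 0), (6720, 37666)] (.leaf ⟨0, 8, 0, 5⟩))) (.rel1
    [(6720, 0), (16000, 0), (6720, 37666)] (.rel2 [(6720, 0), (16000, 0), (6720, 37666)] (.leaf
    ⟨0, 6, 8, 0⟩)))))

theorem ok4aa_3 : chkT cF4mm cF4mm T4aa_3 (14720, 1920) (13280, 5280) dum nA nA = true := by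
  decide +kernel

/-- tree -/
def T4aa_4 : CT := .rel1 [(6720, 0), (16000, 0), (13280, 11040), (6720, 10400)] (.rel2 [(6720, 0),
    (16000, 0), (13280, 11040), (6720, 10400)] (.rel1 [(6720, 0), (16000, 0), (6720, 37666)]
    (.rel2 [(6720, 0), (16000, 0), (6720, 37666)] (.leaf ⟨0, 2, 10, 0⟩))))

theorem ok4aa_4 : chkT cF4mm cF4mm T4aa_4 (13280, 5280) (12320, 5280) dum nA nA = true := by
  decide +kernel

/-- tree -/
def T4aa_5 : CT := .rel1 [(6720, 0), (16000, 0), (13280, 11040), (6720, 10400)] (.rel2 [(6720, 0),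
    (16000, 0), (13280, 11040), (6720, 10400)] (.rel1 [(6720, 0), (16000, 0), (6720, 37666)]
    (.rel2 [(6720, 0), (16000, 0), (6720, 37666)] (.leaf ⟨2, 0, 10, 0⟩))))

theorem ok4aa_5 : chkT cF4mm cF4mm T4aa_5 (12320, 5280) (10560, 3680) dum nA nA = true := by
  decide +kernel

/-- tree -/
def T4aa_6 : CT := .rel1 [(6720, 0), (16000, 0), (13280, 11040), (6720, 10400)] (.rel2 [(6720, 0),
    (16000, 0), (13280, 11040), (6720, 10400)] (.rel1 [(6720, 0), (16000, 0), (6720, 37666)]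
    (.rel2 [(6720, 0), (16000, 0), (6720, 37666)] (.leaf ⟨2, 0, 10, 0⟩))))

theorem ok4aa_6 : chkT cF4mm cF4mm T4aa_6 (10560, 3680) (10560, 1840) dum nA nA = true := by
  decide +kernel

theorem fr4aa {z k l : ℂ} (hz : OnE (vt .t4) z) (hk : conj k ∈ Poly pA) (hl : conj l ∈ Poly pA) :
    k ^ 2 + l ^ 2 - 2 * k * l * (8 * z ^ 4 - 8 * z ^ 2 + 1) + (z * (8 * z ^ 3 - 4 * z)) ^ 2 ≠ 0 := by
  have h := edge_use rpF4mm (E := L4aa) (V0 := dum) (V1 := nA) (V2 := nA) (fun e he => by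
    simp only [L4aa, List.mem_cons, List.not_mem_nil, or_false] at he
    rcases he with rfl | rfl | rfl | rfl | rfl | rfl | rfl
    exacts [⟨_, ok4aa_0⟩, ⟨_, ok4aa_1⟩, ⟨_, ok4aa_2⟩, ⟨_, ok4aa_3⟩, ⟨_, ok4aa_4⟩, ⟨_, ok4aa_5⟩, ⟨_, ok4aa_6⟩]) (V := vt .t4) (by decide) hz zero_dum (rgA hk) (rgA hl)
  rw [evF4mm (mr_true k) (mr_true l)] at h
  exact fun h0 => h (by rw [h0, mul_zero])

/-- edges -/
def L4as : List ((ℕ × ℕ) × (ℕ × ℕ)) :=
  [((10560, 1840), (12160, 608)), ((12160, 608), (14400, 608)), ((14400, 608), (14720, 1920)),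
    ((14720, 1920), (13280, 5280)), ((13280, 5280), (12320, 5280)), ((12320, 5280), (10560,
    3680)), ((10560, 3680), (10560, 1840))]

/-- tree -/
def T4as_0 : CT := .rel1 [(6720, 0), (16000, 0), (13280, 11040), (6720, 10400)] (.rel2 [(8000, 0),
    (16000, 0), (13280, 11040), (8000, 10400)] (.leaf ⟨10, 0, 0, 0⟩))

theorem ok4as_0 : chkT cF4mn cF4mn T4as_0 (10560, 1840) (12160, 608) dum nA nS = true := by
  decide +kernel

/-- tree -/
def T4as_1 : CT := .rel1 [(6720, 0), (16000, 0), (13280, 11040), (6720, 10400)] (.rel2 [(8000, 0),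
    (16000, 0), (13280, 11040), (8000, 10400)] (.leaf ⟨10, 0, 0, 0⟩))

theorem ok4as_1 : chkT cF4mn cF4mn T4as_1 (12160, 608) (14400, 608) dum nA nS = true := by
  decide +kernel

/-- tree -/
def T4as_2 : CT := .rel1 [(6720, 0), (16000, 0), (13280, 11040), (6720, 10400)] (.rel2 [(8000, 0),
    (16000, 0), (13280, 11040), (8000, 10400)] (.rel2 [(8000, 0), (16000, 0), (8000, 32471)]
    (.leaf ⟨5, 0, 0, 8⟩)))

theorem ok4as_2 : chkT cF4mn cF4mn T4as_2 (14400, 608) (14720, 1920) dum nA nS = true := by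
  decide +kernel

/-- tree -/
def T4as_3 : CT := .rel1 [(6720, 0), (16000, 0), (13280, 11040), (6720, 10400)] (.rel2 [(8000, 0),
    (16000, 0), (13280, 11040), (8000, 10400)] (.seg (14000, 3600) (.rel2 [(8000, 0), (16000, 0),
    (8000, 32471)] (.leaf ⟨0, 8, 0, 5⟩)) (.rel1 [(6720, 0), (16000, 0), (6720, 37666)] (.leaf ⟨0,
    7, 7, 0⟩))))

theorem ok4as_3 : chkT cF4mn cF4mn T4as_3 (14720, 1920) (13280, 5280) dum nA nS = true := by
  decide +kernel

/-- tree -/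
def T4as_4 : CT := .rel1 [(6720, 0), (16000, 0), (13280, 11040), (6720, 10400)] (.rel2 [(8000, 0),
    (16000, 0), (13280, 11040), (8000, 10400)] (.rel1 [(6720, 0), (16000, 0), (6720, 37666)]
    (.leaf ⟨4, 0, 9, 0⟩)))

theorem ok4as_4 : chkT cF4mn cF4mn T4as_4 (13280, 5280) (12320, 5280) dum nA nS = true := by
  decide +kernel

/-- tree -/
def T4as_5 : CT := .rel1 [(6720, 0), (16000, 0), (13280, 11040), (6720, 10400)] (.rel2 [(8000, 0),
    (16000, 0), (13280, 11040), (8000, 10400)] (.rel1 [(6720, 0), (16000, 0), (6720, 37666)]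
    (.leaf ⟨8, 0, 6, 0⟩)))

theorem ok4as_5 : chkT cF4mn cF4mn T4as_5 (12320, 5280) (10560, 3680) dum nA nS = true := by
  decide +kernel

/-- tree -/
def T4as_6 : CT := .rel1 [(6720, 0), (16000, 0), (13280, 11040), (6720, 10400)] (.rel2 [(8000, 0),
    (16000, 0), (13280, 11040), (8000, 10400)] (.leaf ⟨10, 0, 0, 0⟩))

theorem ok4as_6 : chkT cF4mn cF4mn T4as_6 (10560, 3680) (10560, 1840) dum nA nS = true := by
  decide +kernel

theorem fr4as {z k l : ℂ} (hz : OnE (vt .t4) z) (hk : conj k ∈ Poly pA) (hl : l ∈ Poly pS) :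
    k ^ 2 + l ^ 2 - 2 * k * l * (8 * z ^ 4 - 8 * z ^ 2 + 1) + (z * (8 * z ^ 3 - 4 * z)) ^ 2 ≠ 0 := by
  have h := edge_use rpF4mn (E := L4as) (V0 := dum) (V1 := nA) (V2 := nS) (fun e he => by
    simp only [L4as, List.mem_cons, List.not_mem_nil, or_false] at he
    rcases he with rfl | rfl | rfl | rfl | rfl | rfl | rfl
    exacts [⟨_, ok4as_0⟩, ⟨_, ok4as_1⟩, ⟨_, ok4as_2⟩, ⟨_, ok4as_3⟩, ⟨_, ok4as_4⟩, ⟨_, ok4as_5⟩, ⟨_, ok4as_6⟩]) (V := vt .t4) (by decide) hz zero_dum (rgA hk) (rgS hl)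
  rw [evF4mn (mr_true k) (mr_false l)] at h
  exact fun h0 => h (by rw [h0, mul_zero])

/-- edges -/
def L4ss : List ((ℕ × ℕ) × (ℕ × ℕ)) :=
  [((10560, 1840), (12160, 608)), ((12160, 608), (14400, 608)), ((14400, 608), (14720, 1920)),
    ((14720, 1920), (13280, 5280)), ((13280, 5280), (12320, 5280)), ((12320, 5280), (10560,
    3680)), ((10560, 3680), (10560, 1840))]

/-- tree -/
def T4ss_0 : CT := .rel1 [(8000, 0), (16000, 0), (13280, 11040), (8000, 10400)] (.rel2 [(8000, 0),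
    (16000, 0), (13280, 11040), (8000, 10400)] (.rel1 [(8000, 0), (16000, 0), (8000, 32471)]
    (.rel2 [(8000, 0), (16000, 0), (8000, 32471)] (.leaf ⟨3, 0, 0, 10⟩))))

theorem ok4ss_0 : chkT cF4nn cF4nn T4ss_0 (10560, 1840) (12160, 608) dum nS nS = true := by
  decide +kernel

/-- tree -/
def T4ss_1 : CT := .rel1 [(8000, 0), (16000, 0), (13280, 11040), (8000, 10400)] (.rel2 [(8000, 0),
    (16000, 0), (13280, 11040), (8000, 10400)] (.rel1 [(8000, 0), (16000, 0), (8000, 32471)]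
    (.rel2 [(8000, 0), (16000, 0), (8000, 32471)] (.leaf ⟨3, 0, 0, 10⟩))))

theorem ok4ss_1 : chkT cF4nn cF4nn T4ss_1 (12160, 608) (14400, 608) dum nS nS = true := by
  decide +kernel

/-- tree -/
def T4ss_2 : CT := .rel1 [(8000, 0), (16000, 0), (13280, 11040), (8000, 10400)] (.rel2 [(8000, 0),
    (16000, 0), (13280, 11040), (8000, 10400)] (.rel1 [(8000, 0), (16000, 0), (8000, 32471)]
    (.rel2 [(8000, 0), (16000, 0), (8000, 32471)] (.leaf ⟨4, 0, 0, 9⟩))))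

theorem ok4ss_2 : chkT cF4nn cF4nn T4ss_2 (14400, 608) (14720, 1920) dum nS nS = true := by
  decide +kernel

/-- tree -/
def T4ss_3 : CT := .rel1 [(8000, 0), (16000, 0), (13280, 11040), (8000, 10400)] (.rel2 [(8000, 0),
    (16000, 0), (13280, 11040), (8000, 10400)] (.seg (14000, 3600) (.rel1 [(8000, 0), (16000, 0),
    (8000, 32471)] (.rel2 [(8000, 0), (16000, 0), (8000, 32471)] (.leaf ⟨0, 8, 0, 6⟩))) (.leaf ⟨0,
    9, 5, 0⟩)))

theorem ok4ss_3 : chkT cF4nn cF4nn T4ss_3 (14720, 1920) (13280, 5280) dum nS nS = true := by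
  decide +kernel

/-- tree -/
def T4ss_4 : CT := .rel1 [(8000, 0), (16000, 0), (13280, 11040), (8000, 10400)] (.rel2 [(8000, 0),
    (16000, 0), (13280, 11040), (8000, 10400)] (.leaf ⟨6, 0, 8, 0⟩))

theorem ok4ss_4 : chkT cF4nn cF4nn T4ss_4 (13280, 5280) (12320, 5280) dum nS nS = true := by
  decide +kernel

/-- tree -/
def T4ss_5 : CT := .rel1 [(8000, 0), (16000, 0), (13020, 11922), (8000, 7680)] (.rel2 [(8000, 0),
    (16000, 0), (13020, 11922), (8000, 7680)] (.leaf ⟨10, 0, 0, 1⟩))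

theorem ok4ss_5 : chkT cF4nn cF4nn T4ss_5 (12320, 5280) (10560, 3680) dum nS nS = true := by
  decide +kernel

/-- tree -/
def T4ss_6 : CT := .rel1 [(12800, 0), (16000, 0), (13020, 11922), (5364, 5453)] (.rel2 [(8000, 0),
    (16000, 0), (8000, 32006)] (.leaf ⟨4, 0, 0, 9⟩))

theorem ok4ss_6 : chkT cF4nn cF4nn T4ss_6 (10560, 3680) (10560, 1840) dum nS nS = true := by
  decide +kernel

theorem fr4ss {z k l : ℂ} (hz : OnE (vt .t4) z) (hk : k ∈ Poly pS) (hl : l ∈ Poly pS) :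
    k ^ 2 + l ^ 2 - 2 * k * l * (8 * z ^ 4 - 8 * z ^ 2 + 1) + (z * (8 * z ^ 3 - 4 * z)) ^ 2 ≠ 0 := by
  have h := edge_use rpF4nn (E := L4ss) (V0 := dum) (V1 := nS) (V2 := nS) (fun e he => by
    simp only [L4ss, List.mem_cons, List.not_mem_nil, or_false] at he
    rcases he with rfl | rfl | rfl | rfl | rfl | rfl | rfl
    exacts [⟨_, ok4ss_0⟩, ⟨_, ok4ss_1⟩, ⟨_, ok4ss_2⟩, ⟨_, ok4ss_3⟩, ⟨_, ok4ss_4⟩, ⟨_, ok4ss_5⟩, ⟨_, ok4ss_6⟩]) (V := vt .t4) (by decide) hz zero_dum (rgS hk) (rgS hl)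
  rw [evF4nn (mr_false k) (mr_false l)] at h
  exact fun h0 => h (by rw [h0, mul_zero])

/-- edges -/
def L4ae : List ((ℕ × ℕ) × (ℕ × ℕ)) :=
  [((10560, 1840), (12160, 608)), ((12160, 608), (14400, 608)), ((14400, 608), (14720, 1920)),
    ((14720, 1920), (13280, 5280)), ((13280, 5280), (12320, 5280)), ((12320, 5280), (10560,
    3680)), ((10560, 3680), (10560, 1840))]

/-- tree -/
def T4ae_0 : CT := .rel2 [(6720, 3936), (12256, 0), (16000, 0), (6720, 37123)] (.leaf ⟨9, 0, 5,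
    0⟩)

theorem ok4ae_0 : chkT cG4m cG4m T4ae_0 (10560, 1840) (12160, 608) dum dum nA = true := by
  decide +kernel

/-- tree -/
def T4ae_1 : CT := .rel2 [(6720, 0), (16000, 0), (12874, 12505), (6720, 7120)] (.leaf ⟨9, 0, 0,
    4⟩)

theorem ok4ae_1 : chkT cG4m cG4m T4ae_1 (12160, 608) (14400, 608) dum dum nA = true := by
  decide +kernel

/-- tree -/
def T4ae_2 : CT := .rel2 [(6720, 0), (16000, 0), (6720, 37120)] (.leaf ⟨0, 9, 0, 3⟩)

theorem ok4ae_2 : chkT cG4m cG4m T4ae_2 (14400, 608) (14720, 1920) dum dum nA = true := by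
  decide +kernel

/-- tree -/
def T4ae_3 : CT := .rel2 [(6720, 0), (16000, 0), (6720, 37120)] (.leaf ⟨0, 10, 0, 0⟩)

theorem ok4ae_3 : chkT cG4m cG4m T4ae_3 (14720, 1920) (13280, 5280) dum dum nA = true := by
  decide +kernel

/-- tree -/
def T4ae_4 : CT := .rel2 [(6720, 0), (16000, 0), (6720, 37120)] (.leaf ⟨0, 6, 8, 0⟩)

theorem ok4ae_4 : chkT cG4m cG4m T4ae_4 (13280, 5280) (12320, 5280) dum dum nA = true := by
  decide +kernel

/-- tree -/
def T4ae_5 : CT := .rel2 [(6720, 0), (16000, 0), (6720, 37123)] (.leaf ⟨0, 1, 10, 0⟩)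

theorem ok4ae_5 : chkT cG4m cG4m T4ae_5 (12320, 5280) (10560, 3680) dum dum nA = true := by
  decide +kernel

/-- tree -/
def T4ae_6 : CT := .rel2 [(6720, 0), (16000, 0), (6720, 37123)] (.leaf ⟨3, 0, 9, 0⟩)

theorem ok4ae_6 : chkT cG4m cG4m T4ae_6 (10560, 3680) (10560, 1840) dum dum nA = true := by
  decide +kernel

theorem fr4ae {z k : ℂ} (hz : OnE (vt .t4) z) (hk : conj k ∈ Poly pA) :
    k + Complex.I * z * (8 * z ^ 3 - 4 * z) ≠ 0 := by
  have h := edge_use rpG4m (E := L4ae) (V0 := dum) (V1 := dum) (V2 := nA) (fun e he => by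
    simp only [L4ae, List.mem_cons, List.not_mem_nil, or_false] at he
    rcases he with rfl | rfl | rfl | rfl | rfl | rfl | rfl
    exacts [⟨_, ok4ae_0⟩, ⟨_, ok4ae_1⟩, ⟨_, ok4ae_2⟩, ⟨_, ok4ae_3⟩, ⟨_, ok4ae_4⟩, ⟨_, ok4ae_5⟩, ⟨_, ok4ae_6⟩]) (V := vt .t4) (by decide) hz zero_dum zero_dum (rgA hk)
  rw [evG4m (mr_true k)] at h
  exact fun h0 => h (by rw [h0, mul_zero])

/-- edges -/
def L4se : List ((ℕ × ℕ) × (ℕ × ℕ)) :=
  [((10560, 1840), (12160, 608)), ((12160, 608), (14400, 608)), ((14400, 608), (14720, 1920)),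
    ((14720, 1920), (13280, 5280)), ((13280, 5280), (12320, 5280)), ((12320, 5280), (10560,
    3680)), ((10560, 3680), (10560, 1840))]

/-- tree -/
def T4se_0 : CT := .rel2 [(8000, 0), (16000, 0), (8000, 32006)] (.leaf ⟨10, 0, 0, 1⟩)

theorem ok4se_0 : chkT cG4n cG4n T4se_0 (10560, 1840) (12160, 608) dum dum nS = true := by
  decide +kernel

/-- tree -/
def T4se_1 : CT := .rel2 [(8000, 0), (16000, 0), (8000, 32006)] (.leaf ⟨5, 0, 0, 9⟩)

theorem ok4se_1 : chkT cG4n cG4n T4se_1 (12160, 608) (14400, 608) dum dum nS = true := by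
  decide +kernel

/-- tree -/
def T4se_2 : CT := .rel2 [(8000, 0), (16000, 0), (8000, 32006)] (.leaf ⟨0, 3, 0, 10⟩)

theorem ok4se_2 : chkT cG4n cG4n T4se_2 (14400, 608) (14720, 1920) dum dum nS = true := by
  decide +kernel

/-- tree -/
def T4se_3 : CT := .rel2 [(8000, 0), (16000, 0), (8000, 32000)] (.leaf ⟨0, 10, 0, 2⟩)

theorem ok4se_3 : chkT cG4n cG4n T4se_3 (14720, 1920) (13280, 5280) dum dum nS = true := by
  decide +kernel

/-- tree -/
def T4se_4 : CT := .rel2 [(8000, 0), (16000, 0), (8000, 32006)] (.leaf ⟨0, 8, 6, 0⟩)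

theorem ok4se_4 : chkT cG4n cG4n T4se_4 (13280, 5280) (12320, 5280) dum dum nS = true := by
  decide +kernel

/-- tree -/
def T4se_5 : CT := .rel2 [(8000, 0), (16000, 0), (13020, 11922), (8000, 7680)] (.leaf ⟨0, 1, 10,
    0⟩)

theorem ok4se_5 : chkT cG4n cG4n T4se_5 (12320, 5280) (10560, 3680) dum dum nS = true := by
  decide +kernel

/-- tree -/
def T4se_6 : CT := .rel2 [(8000, 0), (16000, 0), (13020, 11922), (8000, 7680)] (.leaf ⟨8, 0, 6,
    0⟩)

theorem ok4se_6 : chkT cG4n cG4n T4se_6 (10560, 3680) (10560, 1840) dum dum nS = true := by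
  decide +kernel

theorem fr4se {z k : ℂ} (hz : OnE (vt .t4) z) (hk : k ∈ Poly pS) :
    k + Complex.I * z * (8 * z ^ 3 - 4 * z) ≠ 0 := by
  have h := edge_use rpG4n (E := L4se) (V0 := dum) (V1 := dum) (V2 := nS) (fun e he => by
    simp only [L4se, List.mem_cons, List.not_mem_nil, or_false] at he
    rcases he with rfl | rfl | rfl | rfl | rfl | rfl | rfl
    exacts [⟨_, ok4se_0⟩, ⟨_, ok4se_1⟩, ⟨_, ok4se_2⟩, ⟨_, ok4se_3⟩, ⟨_, ok4se_4⟩, ⟨_, ok4se_5⟩, ⟨_, ok4se_6⟩]) (V := vt .t4) (by decide) hz zero_dum zero_dum (rgS hk)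
  rw [evG4n (mr_false k)] at h
  exact fun h0 => h (by rw [h0, mul_zero])

end Pool.Agent.Work.MP_b30479_gt.G2.SC
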