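import Pool.Agent.Work.MP_b30479_gt.G2.S2Base
import Pool.Agent.Work.MP_b30479_gt.G2.S2CfgB

/-!
# Frontier of the rings with 5 crossings

Generated certificates (see `S2Cert`).
-/

set_option linter.style.longLine false

namespace Pool.Agent.Work.MP_b30479_gt.G2.SC

open scoped ComplexConjugate

/-- edges -/
def L5aa : List ((ℕ × ℕ) × (ℕ × ℕ)) :=
  [((11520, 1120), (12800, 160)), ((12800, 160), (15040, 160)), ((15040, 160), (15280, 1760)),
    ((15280, 1760), (14400, 4000)), ((14400, 4000), (12800, 4000)), ((12800, 4000), (11520,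
    3040)), ((11520, 3040), (11520, 1120))]

/-- tree -/
def T5aa_0 : CT := .rel1 [(6720, 0), (16000, 0), (13280, 11040), (6720, 10400)] (.rel2 [(6720, 0),
    (16000, 0), (13280, 11040), (6720, 10400)] (.rel1 [(6720, 0), (16000, 0), (6720, 37666)]
    (.rel2 [(6720, 0), (16000, 0), (6720, 37666)] (.leaf ⟨2, 0, 10, 0⟩))))

theorem ok5aa_0 : chkT cF5mm cF5mm T5aa_0 (11520, 1120) (12800, 160) dum nA nA = true := by
  decide +kernel

/-- tree -/
def T5aa_1 : CT := .rel1 [(6720, 0), (16000, 0), (13280, 11040), (6720, 10400)] (.rel2 [(6720, 0),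
    (16000, 0), (13280, 11040), (6720, 10400)] (.rel1 [(6720, 0), (16000, 0), (6720, 37666)]
    (.leaf ⟨4, 0, 9, 0⟩)))

theorem ok5aa_1 : chkT cF5mm cF5mm T5aa_1 (12800, 160) (15040, 160) dum nA nA = true := by
  decide +kernel

/-- tree -/
def T5aa_2 : CT := .rel1 [(6720, 0), (16000, 0), (13280, 11040), (6720, 10400)] (.rel2 [(6720, 0),
    (16000, 0), (13280, 11040), (6720, 10400)] (.leaf ⟨4, 0, 0, 9⟩))

theorem ok5aa_2 : chkT cF5mm cF5mm T5aa_2 (15040, 160) (15280, 1760) dum nA nA = true := by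
  decide +kernel

/-- tree -/
def T5aa_3 : CT := .rel1 [(6720, 0), (16000, 0), (13280, 11040), (6720, 10400)] (.rel2 [(6720, 0),
    (16000, 0), (13280, 11040), (6720, 10400)] (.rel1 [(6720, 0), (16000, 0), (6720, 37666)]
    (.rel2 [(6720, 0), (16000, 0), (6720, 37666)] (.leaf ⟨0, 10, 3, 0⟩))))

theorem ok5aa_3 : chkT cF5mm cF5mm T5aa_3 (15280, 1760) (14400, 4000) dum nA nA = true := by
  decide +kernel

/-- tree -/
def T5aa_4 : CT := .rel1 [(6720, 0), (16000, 0), (13280, 11040), (6720, 10400)] (.rel2 [(6720, 0),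
    (16000, 0), (13280, 11040), (6720, 10400)] (.rel1 [(6720, 0), (16000, 0), (6720, 37666)]
    (.rel2 [(6720, 0), (16000, 0), (6720, 37666)] (.leaf ⟨1, 0, 10, 0⟩))))

theorem ok5aa_4 : chkT cF5mm cF5mm T5aa_4 (14400, 4000) (12800, 4000) dum nA nA = true := by
  decide +kernel

/-- tree -/
def T5aa_5 : CT := .rel1 [(6720, 0), (16000, 0), (13280, 11040), (6720, 10400)] (.rel2 [(6720, 0),
    (16000, 0), (13280, 11040), (6720, 10400)] (.rel1 [(6720, 0), (16000, 0), (6720, 37666)]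
    (.rel2 [(6720, 0), (16000, 0), (6720, 37666)] (.leaf ⟨6, 0, 8, 0⟩))))

theorem ok5aa_5 : chkT cF5mm cF5mm T5aa_5 (12800, 4000) (11520, 3040) dum nA nA = true := by
  decide +kernel

/-- tree -/
def T5aa_6 : CT := .rel1 [(6720, 0), (16000, 0), (13280, 11040), (6720, 10400)] (.rel2 [(6720, 0),
    (16000, 0), (13280, 11040), (6720, 10400)] (.rel1 [(6720, 0), (16000, 0), (6720, 37666)]
    (.rel2 [(6720, 0), (16000, 0), (6720, 37666)] (.leaf ⟨4, 0, 9, 0⟩))))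

theorem ok5aa_6 : chkT cF5mm cF5mm T5aa_6 (11520, 3040) (11520, 1120) dum nA nA = true := by
  decide +kernel

theorem fr5aa {z k l : ℂ} (hz : OnE (vt .t5) z) (hk : conj k ∈ Poly pA) (hl : conj l ∈ Poly pA) :
    k ^ 2 + l ^ 2 - 2 * k * l * (16 * z ^ 5 - 20 * z ^ 3 + 5 * z) + (z * (16 * z ^ 4 - 12 * z ^ 2 + 1)) ^ 2 ≠ 0 := by
  have h := edge_use rpF5mm (E := L5aa) (V0 := dum) (V1 := nA) (V2 := nA) (fun e he => by
    simp only [L5aa, List.mem_cons, List.not_mem_nil, or_false] at he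
    rcases he with rfl | rfl | rfl | rfl | rfl | rfl | rfl
    exacts [⟨_, ok5aa_0⟩, ⟨_, ok5aa_1⟩, ⟨_, ok5aa_2⟩, ⟨_, ok5aa_3⟩, ⟨_, ok5aa_4⟩, ⟨_, ok5aa_5⟩, ⟨_, ok5aa_6⟩]) (V := vt .t5) (by decide) hz zero_dum (rgA hk) (rgA hl)
  rw [evF5mm (mr_true k) (mr_true l)] at h
  exact fun h0 => h (by rw [h0, mul_zero])

/-- edges -/
def L5as : List ((ℕ × ℕ) × (ℕ × ℕ)) :=
  [((11520, 1120), (12800, 160)), ((12800, 160), (15040, 160)), ((15040, 160), (15280, 1760)),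
    ((15280, 1760), (14400, 4000)), ((14400, 4000), (12800, 4000)), ((12800, 4000), (11520,
    3040)), ((11520, 3040), (11520, 1120))]

/-- tree -/
def T5as_0 : CT := .rel1 [(6720, 0), (16000, 0), (13280, 11040), (6720, 10400)] (.rel2 [(8000, 0),
    (16000, 0), (13280, 11040), (8000, 10400)] (.leaf ⟨10, 0, 0, 0⟩))

theorem ok5as_0 : chkT cF5mn cF5mn T5as_0 (11520, 1120) (12800, 160) dum nA nS = true := by
  decide +kernel

/-- tree -/
def T5as_1 : CT := .rel1 [(6720, 0), (16000, 0), (13280, 11040), (6720, 10400)] (.rel2 [(8000, 0),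
    (16000, 0), (13280, 11040), (8000, 10400)] (.leaf ⟨10, 0, 0, 0⟩))

theorem ok5as_1 : chkT cF5mn cF5mn T5as_1 (12800, 160) (15040, 160) dum nA nS = true := by
  decide +kernel

/-- tree -/
def T5as_2 : CT := .rel1 [(6720, 0), (16000, 0), (13280, 11040), (6720, 10400)] (.rel2 [(8000, 0),
    (16000, 0), (13280, 11040), (8000, 10400)] (.rel2 [(8000, 0), (16000, 0), (8000, 32471)]
    (.leaf ⟨4, 0, 0, 9⟩)))

theorem ok5as_2 : chkT cF5mn cF5mn T5as_2 (15040, 160) (15280, 1760) dum nA nS = true := by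
  decide +kernel

/-- tree -/
def T5as_3 : CT := .rel1 [(6720, 0), (16000, 0), (13280, 11040), (6720, 10400)] (.rel2 [(8000, 0),
    (16000, 0), (13280, 11040), (8000, 10400)] (.rel1 [(6720, 0), (16000, 0), (6720, 37666)]
    (.leaf ⟨0, 10, 2, 0⟩)))

theorem ok5as_3 : chkT cF5mn cF5mn T5as_3 (15280, 1760) (14400, 4000) dum nA nS = true := by
  decide +kernel

/-- tree -/
def T5as_4 : CT := .rel1 [(6720, 0), (16000, 0), (13280, 11040), (6720, 10400)] (.rel2 [(8000, 0),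
    (16000, 0), (13280, 11040), (8000, 10400)] (.rel1 [(6720, 0), (16000, 0), (6720, 37666)]
    (.leaf ⟨6, 0, 8, 0⟩)))

theorem ok5as_4 : chkT cF5mn cF5mn T5as_4 (14400, 4000) (12800, 4000) dum nA nS = true := by
  decide +kernel

/-- tree -/
def T5as_5 : CT := .rel1 [(6720, 0), (16000, 0), (13280, 11040), (6720, 10400)] (.rel2 [(8000, 0),
    (16000, 0), (13280, 11040), (8000, 10400)] (.rel1 [(6720, 0), (16000, 0), (6720, 37666)]
    (.leaf ⟨10, 0, 3, 0⟩)))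

theorem ok5as_5 : chkT cF5mn cF5mn T5as_5 (12800, 4000) (11520, 3040) dum nA nS = true := by
  decide +kernel

/-- tree -/
def T5as_6 : CT := .rel1 [(6720, 0), (16000, 0), (13280, 11040), (6720, 10400)] (.rel2 [(8000, 0),
    (16000, 0), (13280, 11040), (8000, 10400)] (.rel1 [(6720, 0), (16000, 0), (6720, 37666)]
    (.leaf ⟨23, 0, 19, 0⟩)))

theorem ok5as_6 : chkT cF5mn cF5mn T5as_6 (11520, 3040) (11520, 1120) dum nA nS = true := by
  decide +kernel

theorem fr5as {z k l : ℂ} (hz : OnE (vt .t5) z) (hk : conj k ∈ Poly pA) (hl : l ∈ Poly pS) :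
    k ^ 2 + l ^ 2 - 2 * k * l * (16 * z ^ 5 - 20 * z ^ 3 + 5 * z) + (z * (16 * z ^ 4 - 12 * z ^ 2 + 1)) ^ 2 ≠ 0 := by
  have h := edge_use rpF5mn (E := L5as) (V0 := dum) (V1 := nA) (V2 := nS) (fun e he => by
    simp only [L5as, List.mem_cons, List.not_mem_nil, or_false] at he
    rcases he with rfl | rfl | rfl | rfl | rfl | rfl | rfl
    exacts [⟨_, ok5as_0⟩, ⟨_, ok5as_1⟩, ⟨_, ok5as_2⟩, ⟨_, ok5as_3⟩, ⟨_, ok5as_4⟩, ⟨_, ok5as_5⟩, ⟨_, ok5as_6⟩]) (V := vt .t5) (by decide) hz zero_dum (rgA hk) (rgS hl)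
  rw [evF5mn (mr_true k) (mr_false l)] at h
  exact fun h0 => h (by rw [h0, mul_zero])

/-- edges -/
def L5ss : List ((ℕ × ℕ) × (ℕ × ℕ)) :=
  [((11520, 1120), (12800, 160)), ((12800, 160), (15040, 160)), ((15040, 160), (15280, 1760)),
    ((15280, 1760), (14400, 4000)), ((14400, 4000), (12800, 4000)), ((12800, 4000), (11520,
    3040)), ((11520, 3040), (11520, 1120))]

/-- tree -/
def T5ss_0 : CT := .rel1 [(8000, 0), (16000, 0), (13280, 11040), (8000, 10400)] (.rel2 [(8000, 0),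
    (16000, 0), (13280, 11040), (8000, 10400)] (.rel1 [(8000, 0), (16000, 0), (8000, 32471)]
    (.rel2 [(8000, 0), (16000, 0), (8000, 32471)] (.leaf ⟨7, 0, 0, 29⟩))))

theorem ok5ss_0 : chkT cF5nn cF5nn T5ss_0 (11520, 1120) (12800, 160) dum nS nS = true := by
  decide +kernel

/-- tree -/
def T5ss_1 : CT := .rel1 [(8000, 0), (16000, 0), (13280, 11040), (8000, 10400)] (.rel2 [(8000, 0),
    (16000, 0), (13280, 11040), (8000, 10400)] (.rel1 [(8000, 0), (16000, 0), (8000, 32471)]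
    (.rel2 [(8000, 0), (16000, 0), (8000, 32471)] (.leaf ⟨2, 0, 0, 10⟩))))

theorem ok5ss_1 : chkT cF5nn cF5nn T5ss_1 (12800, 160) (15040, 160) dum nS nS = true := by
  decide +kernel

/-- tree -/
def T5ss_2 : CT := .rel1 [(8000, 0), (16000, 0), (13280, 11040), (8000, 10400)] (.rel2 [(8000, 0),
    (16000, 0), (13280, 11040), (8000, 10400)] (.rel1 [(8000, 0), (16000, 0), (8000, 32471)]
    (.rel2 [(8000, 0), (16000, 0), (8000, 32471)] (.leaf ⟨4, 0, 0, 9⟩))))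

theorem ok5ss_2 : chkT cF5nn cF5nn T5ss_2 (15040, 160) (15280, 1760) dum nS nS = true := by
  decide +kernel

/-- tree -/
def T5ss_3 : CT := .rel1 [(8000, 0), (16000, 0), (13280, 11040), (8000, 10400)] (.rel2 [(8000, 0),
    (16000, 0), (13280, 11040), (8000, 10400)] (.rel1 [(8000, 0), (16000, 0), (8000, 32471)]
    (.rel2 [(8000, 0), (16000, 0), (8000, 32471)] (.leaf ⟨0, 30, 5, 0⟩))))

theorem ok5ss_3 : chkT cF5nn cF5nn T5ss_3 (15280, 1760) (14400, 4000) dum nS nS = true := by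
  decide +kernel

/-- tree -/
def T5ss_4 : CT := .rel1 [(8000, 0), (16000, 0), (13280, 11040), (8000, 10400)] (.rel2 [(8000, 0),
    (16000, 0), (13280, 11040), (8000, 10400)] (.leaf ⟨7, 0, 8, 0⟩))

theorem ok5ss_4 : chkT cF5nn cF5nn T5ss_4 (14400, 4000) (12800, 4000) dum nS nS = true := by
  decide +kernel

/-- tree -/
def T5ss_5 : CT := .rel1 [(8000, 0), (16000, 0), (13280, 11040), (8000, 10400)] (.rel2 [(8000, 0),
    (16000, 0), (13280, 11040), (8000, 10400)] (.leaf ⟨9, 0, 0, 3⟩))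

theorem ok5ss_5 : chkT cF5nn cF5nn T5ss_5 (12800, 4000) (11520, 3040) dum nS nS = true := by
  decide +kernel

/-- tree -/
def T5ss_6 : CT := .rel1 [(8000, 0), (16000, 0), (13280, 11040), (8000, 10400)] (.rel2 [(8000, 0),
    (16000, 0), (13280, 11040), (8000, 10400)] (.rel1 [(8000, 0), (16000, 0), (8000, 32471)]
    (.leaf ⟨3, 0, 0, 10⟩)))

theorem ok5ss_6 : chkT cF5nn cF5nn T5ss_6 (11520, 3040) (11520, 1120) dum nS nS = true := by
  decide +kernel

theorem fr5ss {z k l : ℂ} (hz : OnE (vt .t5) z) (hk : k ∈ Poly pS) (hl : l ∈ Poly pS) :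
    k ^ 2 + l ^ 2 - 2 * k * l * (16 * z ^ 5 - 20 * z ^ 3 + 5 * z) + (z * (16 * z ^ 4 - 12 * z ^ 2 + 1)) ^ 2 ≠ 0 := by
  have h := edge_use rpF5nn (E := L5ss) (V0 := dum) (V1 := nS) (V2 := nS) (fun e he => by
    simp only [L5ss, List.mem_cons, List.not_mem_nil, or_false] at he
    rcases he with rfl | rfl | rfl | rfl | rfl | rfl | rfl
    exacts [⟨_, ok5ss_0⟩, ⟨_, ok5ss_1⟩, ⟨_, ok5ss_2⟩, ⟨_, ok5ss_3⟩, ⟨_, ok5ss_4⟩, ⟨_, ok5ss_5⟩, ⟨_, ok5ss_6⟩]) (V := vt .t5) (by decide) hz zero_dum (rgS hk) (rgS hl)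
  rw [evF5nn (mr_false k) (mr_false l)] at h
  exact fun h0 => h (by rw [h0, mul_zero])

/-- edges -/
def L5ae : List ((ℕ × ℕ) × (ℕ × ℕ)) :=
  [((11520, 1120), (12800, 160)), ((12800, 160), (15040, 160)), ((15040, 160), (15280, 1760)),
    ((15280, 1760), (14400, 4000)), ((14400, 4000), (12800, 4000)), ((12800, 4000), (11520,
    3040)), ((11520, 3040), (11520, 1120))]

/-- tree -/
def T5ae_0 : CT := .rel2 [(6720, 0), (16000, 0), (6720, 37123)] (.leaf ⟨7, 0, 7, 0⟩)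

theorem ok5ae_0 : chkT cG5m cG5m T5ae_0 (11520, 1120) (12800, 160) dum dum nA = true := by
  decide +kernel

/-- tree -/
def T5ae_1 : CT := .rel2 [(6720, 0), (16000, 0), (6720, 37123)] (.leaf ⟨10, 0, 0, 0⟩)

theorem ok5ae_1 : chkT cG5m cG5m T5ae_1 (12800, 160) (15040, 160) dum dum nA = true := by
  decide +kernel

/-- tree -/
def T5ae_2 : CT := .rel2 [(6720, 0), (16000, 0), (6720, 37120)] (.leaf ⟨0, 7, 0, 8⟩)

theorem ok5ae_2 : chkT cG5m cG5m T5ae_2 (15040, 160) (15280, 1760) dum dum nA = true := by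
  decide +kernel

/-- tree -/
def T5ae_3 : CT := .rel2 [(6720, 0), (16000, 0), (6720, 37120)] (.leaf ⟨0, 10, 2, 0⟩)

theorem ok5ae_3 : chkT cG5m cG5m T5ae_3 (15280, 1760) (14400, 4000) dum dum nA = true := by
  decide +kernel

/-- tree -/
def T5ae_4 : CT := .rel2 [(6720, 0), (16000, 0), (6720, 37123)] (.leaf ⟨0, 5, 9, 0⟩)

theorem ok5ae_4 : chkT cG5m cG5m T5ae_4 (14400, 4000) (12800, 4000) dum dum nA = true := by
  decide +kernel

/-- tree -/
def T5ae_5 : CT := .rel2 [(6720, 0), (16000, 0), (6720, 37123)] (.leaf ⟨1, 0, 10, 0⟩)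

theorem ok5ae_5 : chkT cG5m cG5m T5ae_5 (12800, 4000) (11520, 3040) dum dum nA = true := by
  decide +kernel

/-- tree -/
def T5ae_6 : CT := .rel2 [(6720, 0), (16000, 0), (6720, 37123)] (.leaf ⟨4, 0, 9, 0⟩)

theorem ok5ae_6 : chkT cG5m cG5m T5ae_6 (11520, 3040) (11520, 1120) dum dum nA = true := by
  decide +kernel

theorem fr5ae {z k : ℂ} (hz : OnE (vt .t5) z) (hk : conj k ∈ Poly pA) :
    k + Complex.I * z * (16 * z ^ 4 - 12 * z ^ 2 + 1) ≠ 0 := by
  have h := edge_use rpG5m (E := L5ae) (V0 := dum) (V1 := dum) (V2 := nA) (fun e he => by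
    simp only [L5ae, List.mem_cons, List.not_mem_nil, or_false] at he
    rcases he with rfl | rfl | rfl | rfl | rfl | rfl | rfl
    exacts [⟨_, ok5ae_0⟩, ⟨_, ok5ae_1⟩, ⟨_, ok5ae_2⟩, ⟨_, ok5ae_3⟩, ⟨_, ok5ae_4⟩, ⟨_, ok5ae_5⟩, ⟨_, ok5ae_6⟩]) (V := vt .t5) (by decide) hz zero_dum zero_dum (rgA hk)
  rw [evG5m (mr_true k)] at h
  exact fun h0 => h (by rw [h0, mul_zero])

/-- edges -/
def L5se : List ((ℕ × ℕ) × (ℕ × ℕ)) :=
  [((11520, 1120), (12800, 160)), ((12800, 160), (15040, 160)), ((15040, 160), (15280, 1760)),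
    ((15280, 1760), (14400, 4000)), ((14400, 4000), (12800, 4000)), ((12800, 4000), (11520,
    3040)), ((11520, 3040), (11520, 1120))]

/-- tree -/
def T5se_0 : CT := .rel2 [(8000, 0), (16000, 0), (8000, 32006)] (.leaf ⟨10, 0, 0, 1⟩)

theorem ok5se_0 : chkT cG5n cG5n T5se_0 (11520, 1120) (12800, 160) dum dum nS = true := by
  decide +kernel

/-- tree -/
def T5se_1 : CT := .rel2 [(8000, 0), (16000, 0), (8000, 32006)] (.leaf ⟨8, 0, 0, 6⟩)

theorem ok5se_1 : chkT cG5n cG5n T5se_1 (12800, 160) (15040, 160) dum dum nS = true := by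
  decide +kernel

/-- tree -/
def T5se_2 : CT := .rel2 [(8000, 0), (16000, 0), (8000, 32006)] (.leaf ⟨0, 4, 0, 9⟩)

theorem ok5se_2 : chkT cG5n cG5n T5se_2 (15040, 160) (15280, 1760) dum dum nS = true := by
  decide +kernel

/-- tree -/
def T5se_3 : CT := .rel2 [(8000, 0), (16000, 0), (8000, 32000)] (.leaf ⟨0, 10, 0, 0⟩)

theorem ok5se_3 : chkT cG5n cG5n T5se_3 (15280, 1760) (14400, 4000) dum dum nS = true := by
  decide +kernel

/-- tree -/
def T5se_4 : CT := .rel2 [(8000, 0), (16000, 0), (8000, 32006)] (.leaf ⟨0, 6, 8, 0⟩)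

theorem ok5se_4 : chkT cG5n cG5n T5se_4 (14400, 4000) (12800, 4000) dum dum nS = true := by
  decide +kernel

/-- tree -/
def T5se_5 : CT := .rel2 [(8000, 0), (16000, 0), (8000, 32006)] (.leaf ⟨7, 0, 7, 0⟩)

theorem ok5se_5 : chkT cG5n cG5n T5se_5 (12800, 4000) (11520, 3040) dum dum nS = true := by
  decide +kernel

/-- tree -/
def T5se_6 : CT := .rel2 [(8000, 0), (16000, 0), (8000, 32000)] (.leaf ⟨10, 0, 0, 0⟩)

theorem ok5se_6 : chkT cG5n cG5n T5se_6 (11520, 3040) (11520, 1120) dum dum nS = true := by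
  decide +kernel

theorem fr5se {z k : ℂ} (hz : OnE (vt .t5) z) (hk : k ∈ Poly pS) :
    k + Complex.I * z * (16 * z ^ 4 - 12 * z ^ 2 + 1) ≠ 0 := by
  have h := edge_use rpG5n (E := L5se) (V0 := dum) (V1 := dum) (V2 := nS) (fun e he => by
    simp only [L5se, List.mem_cons, List.not_mem_nil, or_false] at he
    rcases he with rfl | rfl | rfl | rfl | rfl | rfl | rfl
    exacts [⟨_, ok5se_0⟩, ⟨_, ok5se_1⟩, ⟨_, ok5se_2⟩, ⟨_, ok5se_3⟩, ⟨_, ok5se_4⟩, ⟨_, ok5se_5⟩, ⟨_, ok5se_6⟩]) (V := vt .t5) (by decide) hz zero_dum zero_dum (rgS hk)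
  rw [evG5n (mr_false k)] at h
  exact fun h0 => h (by rw [h0, mul_zero])

end Pool.Agent.Work.MP_b30479_gt.G2.SC
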