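import Pool.Agent.Work.MP_b30479_gt.G2.S2Base
import Pool.Agent.Work.MP_b30479_gt.G2.S2CfgB

/-!
# Frontier of the rings with 6 crossings

Generated certificates (see `S2Cert`).
-/

set_option linter.style.longLine false

namespace Pool.Agent.Work.MP_b30479_gt.G2.SC

open scoped ComplexConjugate

/-- edges -/
def L6aa : List ((ℕ × ℕ) × (ℕ × ℕ)) :=
  [((12640, 720), (13600, 64)), ((13600, 64), (15360, 64)), ((15360, 64), (15408, 1440)), ((15408,
    1440), (14720, 3200)), ((14720, 3200), (13280, 3200)), ((13280, 3200), (12640, 2400)),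
    ((12640, 2400), (12640, 720))]

/-- tree -/
def T6aa_0 : CT := .rel1 [(6720, 0), (16000, 0), (13280, 11040), (6720, 10400)] (.rel2 [(6720, 0),
    (16000, 0), (13280, 11040), (6720, 10400)] (.rel1 [(6720, 0), (16000, 0), (6720, 37666)]
    (.rel2 [(6720, 0), (16000, 0), (6720, 37666)] (.leaf ⟨2, 0, 10, 0⟩))))

theorem ok6aa_0 : chkT cF6mm cF6mm T6aa_0 (12640, 720) (13600, 64) dum nA nA = true := by
  decide +kernel

/-- tree -/
def T6aa_1 : CT := .rel1 [(6720, 0), (16000, 0), (13280, 11040), (6720, 10400)] (.rel2 [(6720, 0),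
    (16000, 0), (13280, 11040), (6720, 10400)] (.rel1 [(6720, 0), (16000, 0), (6720, 37666)]
    (.rel2 [(6720, 0), (16000, 0), (6720, 37666)] (.leaf ⟨2, 0, 10, 0⟩))))

theorem ok6aa_1 : chkT cF6mm cF6mm T6aa_1 (13600, 64) (15360, 64) dum nA nA = true := by
  decide +kernel

/-- tree -/
def T6aa_2 : CT := .rel1 [(6720, 0), (16000, 0), (13280, 11040), (6720, 10400)] (.rel2 [(6720, 0),
    (16000, 0), (13280, 11040), (6720, 10400)] (.leaf ⟨2, 0, 0, 10⟩))

theorem ok6aa_2 : chkT cF6mm cF6mm T6aa_2 (15360, 64) (15408, 1440) dum nA nA = true := by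
  decide +kernel

/-- tree -/
def T6aa_3 : CT := .rel1 [(6720, 0), (16000, 0), (13280, 11040), (6720, 10400)] (.rel2 [(6720, 0),
    (16000, 0), (13280, 11040), (6720, 10400)] (.rel1 [(6720, 0), (16000, 0), (6720, 37666)]
    (.rel2 [(6720, 0), (16000, 0), (6720, 37666)] (.leaf ⟨0, 8, 6, 0⟩))))

theorem ok6aa_3 : chkT cF6mm cF6mm T6aa_3 (15408, 1440) (14720, 3200) dum nA nA = true := by
  decide +kernel

/-- tree -/
def T6aa_4 : CT := .rel1 [(6720, 0), (16000, 0), (13280, 11040), (6720, 10400)] (.rel2 [(6720, 0),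
    (16000, 0), (13280, 11040), (6720, 10400)] (.rel1 [(6720, 0), (16000, 0), (6720, 37666)]
    (.rel2 [(6720, 0), (16000, 0), (6720, 37666)] (.leaf ⟨5, 0, 9, 0⟩))))

theorem ok6aa_4 : chkT cF6mm cF6mm T6aa_4 (14720, 3200) (13280, 3200) dum nA nA = true := by
  decide +kernel

/-- tree -/
def T6aa_5 : CT := .rel1 [(6720, 0), (16000, 0), (13280, 11040), (6720, 10400)] (.rel2 [(6720, 0),
    (16000, 0), (13280, 11040), (6720, 10400)] (.rel1 [(6720, 0), (16000, 0), (6720, 37666)]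
    (.rel2 [(6720, 0), (16000, 0), (6720, 37666)] (.leaf ⟨7, 0, 7, 0⟩))))

theorem ok6aa_5 : chkT cF6mm cF6mm T6aa_5 (13280, 3200) (12640, 2400) dum nA nA = true := by
  decide +kernel

/-- tree -/
def T6aa_6 : CT := .rel1 [(6720, 0), (16000, 0), (13280, 11040), (6720, 10400)] (.rel2 [(6720, 0),
    (16000, 0), (13280, 11040), (6720, 10400)] (.rel1 [(6720, 0), (16000, 0), (6720, 37666)]
    (.rel2 [(6720, 0), (16000, 0), (6720, 37666)] (.leaf ⟨4, 0, 9, 0⟩))))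

theorem ok6aa_6 : chkT cF6mm cF6mm T6aa_6 (12640, 2400) (12640, 720) dum nA nA = true := by
  decide +kernel

theorem fr6aa {z k l : ℂ} (hz : OnE (vt .t6) z) (hk : conj k ∈ Poly pA) (hl : conj l ∈ Poly pA) :
    k ^ 2 + l ^ 2 - 2 * k * l * (32 * z ^ 6 - 48 * z ^ 4 + 18 * z ^ 2 - 1) + (z * (32 * z ^ 5 - 32 * z ^ 3 + 6 * z)) ^ 2 ≠ 0 := by
  have h := edge_use rpF6mm (E := L6aa) (V0 := dum) (V1 := nA) (V2 := nA) (fun e he => by
    simp only [L6aa, List.mem_cons, List.not_mem_nil, or_false] at he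
    rcases he with rfl | rfl | rfl | rfl | rfl | rfl | rfl
    exacts [⟨_, ok6aa_0⟩, ⟨_, ok6aa_1⟩, ⟨_, ok6aa_2⟩, ⟨_, ok6aa_3⟩, ⟨_, ok6aa_4⟩, ⟨_, ok6aa_5⟩, ⟨_, ok6aa_6⟩]) (V := vt .t6) (by decide) hz zero_dum (rgA hk) (rgA hl)
  rw [evF6mm (mr_true k) (mr_true l)] at h
  exact fun h0 => h (by rw [h0, mul_zero])

/-- edges -/
def L6as : List ((ℕ × ℕ) × (ℕ × ℕ)) :=
  [((12640, 720), (13600, 64)), ((13600, 64), (15360, 64)), ((15360, 64), (15408, 1440)), ((15408,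
    1440), (14720, 3200)), ((14720, 3200), (13280, 3200)), ((13280, 3200), (12640, 2400)),
    ((12640, 2400), (12640, 720))]

/-- tree -/
def T6as_0 : CT := .rel1 [(6720, 0), (16000, 0), (13280, 11040), (6720, 10400)] (.rel2 [(8000, 0),
    (16000, 0), (13280, 11040), (8000, 10400)] (.leaf ⟨10, 0, 0, 0⟩))

theorem ok6as_0 : chkT cF6mn cF6mn T6as_0 (12640, 720) (13600, 64) dum nA nS = true := by
  decide +kernel

/-- tree -/
def T6as_1 : CT := .rel1 [(6720, 0), (16000, 0), (13280, 11040), (6720, 10400)] (.rel2 [(8000, 0),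
    (16000, 0), (13280, 11040), (8000, 10400)] (.leaf ⟨10, 0, 0, 0⟩))

theorem ok6as_1 : chkT cF6mn cF6mn T6as_1 (13600, 64) (15360, 64) dum nA nS = true := by
  decide +kernel

/-- tree -/
def T6as_2 : CT := .rel1 [(6720, 0), (16000, 0), (13280, 11040), (6720, 10400)] (.rel2 [(8000, 0),
    (16000, 0), (13280, 11040), (8000, 10400)] (.rel2 [(8000, 0), (16000, 0), (8000, 32471)]
    (.leaf ⟨2, 0, 0, 10⟩)))

theorem ok6as_2 : chkT cF6mn cF6mn T6as_2 (15360, 64) (15408, 1440) dum nA nS = true := by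
  decide +kernel

/-- tree -/
def T6as_3 : CT := .rel1 [(6720, 0), (16000, 0), (13280, 11040), (6720, 10400)] (.rel2 [(8000, 0),
    (16000, 0), (13280, 11040), (8000, 10400)] (.rel1 [(6720, 0), (16000, 0), (6720, 37666)]
    (.leaf ⟨0, 8, 5, 0⟩)))

theorem ok6as_3 : chkT cF6mn cF6mn T6as_3 (15408, 1440) (14720, 3200) dum nA nS = true := by
  decide +kernel

/-- tree -/
def T6as_4 : CT := .rel1 [(6720, 0), (16000, 0), (13280, 11040), (6720, 10400)] (.rel2 [(8000, 0),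
    (16000, 0), (13280, 11040), (8000, 10400)] (.rel1 [(6720, 0), (16000, 0), (6720, 37666)]
    (.rel2 [(8000, 0), (16000, 0), (8000, 32471)] (.leaf ⟨10, 0, 2, 0⟩))))

theorem ok6as_4 : chkT cF6mn cF6mn T6as_4 (14720, 3200) (13280, 3200) dum nA nS = true := by
  decide +kernel

/-- tree -/
def T6as_5 : CT := .rel1 [(6720, 0), (16000, 0), (13280, 11040), (6720, 10400)] (.rel2 [(8000, 0),
    (16000, 0), (13280, 11040), (8000, 10400)] (.rel1 [(6720, 0), (16000, 0), (6720, 37666)]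
    (.rel2 [(8000, 0), (16000, 0), (8000, 32471)] (.leaf ⟨8, 0, 0, 5⟩))))

theorem ok6as_5 : chkT cF6mn cF6mn T6as_5 (13280, 3200) (12640, 2400) dum nA nS = true := by
  decide +kernel

/-- tree -/
def T6as_6 : CT := .rel1 [(6720, 0), (16000, 0), (13280, 11040), (6720, 10400)] (.rel2 [(8000, 0),
    (16000, 0), (13280, 11040), (8000, 10400)] (.rel1 [(6720, 0), (16000, 0), (6720, 37666)]
    (.leaf ⟨7, 0, 7, 0⟩)))

theorem ok6as_6 : chkT cF6mn cF6mn T6as_6 (12640, 2400) (12640, 720) dum nA nS = true := by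
  decide +kernel

theorem fr6as {z k l : ℂ} (hz : OnE (vt .t6) z) (hk : conj k ∈ Poly pA) (hl : l ∈ Poly pS) :
    k ^ 2 + l ^ 2 - 2 * k * l * (32 * z ^ 6 - 48 * z ^ 4 + 18 * z ^ 2 - 1) + (z * (32 * z ^ 5 - 32 * z ^ 3 + 6 * z)) ^ 2 ≠ 0 := by
  have h := edge_use rpF6mn (E := L6as) (V0 := dum) (V1 := nA) (V2 := nS) (fun e he => by
    simp only [L6as, List.mem_cons, List.not_mem_nil, or_false] at he
    rcases he with rfl | rfl | rfl | rfl | rfl | rfl | rfl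
    exacts [⟨_, ok6as_0⟩, ⟨_, ok6as_1⟩, ⟨_, ok6as_2⟩, ⟨_, ok6as_3⟩, ⟨_, ok6as_4⟩, ⟨_, ok6as_5⟩, ⟨_, ok6as_6⟩]) (V := vt .t6) (by decide) hz zero_dum (rgA hk) (rgS hl)
  rw [evF6mn (mr_true k) (mr_false l)] at h
  exact fun h0 => h (by rw [h0, mul_zero])

/-- edges -/
def L6ss : List ((ℕ × ℕ) × (ℕ × ℕ)) :=
  [((12640, 720), (13600, 64)), ((13600, 64), (15360, 64)), ((15360, 64), (15408, 1440)), ((15408,
    1440), (14720, 3200)), ((14720, 3200), (13280, 3200)), ((13280, 3200), (12640, 2400)),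
    ((12640, 2400), (12640, 720))]

/-- tree -/
def T6ss_0 : CT := .rel1 [(8000, 0), (16000, 0), (13280, 11040), (8000, 10400)] (.rel2 [(8000, 0),
    (16000, 0), (13280, 11040), (8000, 10400)] (.rel1 [(8000, 0), (16000, 0), (8000, 32471)]
    (.rel2 [(8000, 0), (16000, 0), (8000, 32471)] (.leaf ⟨8, 0, 0, 29⟩))))

theorem ok6ss_0 : chkT cF6nn cF6nn T6ss_0 (12640, 720) (13600, 64) dum nS nS = true := by
  decide +kernel

/-- tree -/
def T6ss_1 : CT := .rel1 [(8000, 0), (16000, 0), (13280, 11040), (8000, 10400)] (.rel2 [(8000, 0),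
    (16000, 0), (13280, 11040), (8000, 10400)] (.rel1 [(8000, 0), (16000, 0), (8000, 32471)]
    (.rel2 [(8000, 0), (16000, 0), (8000, 32471)] (.leaf ⟨3, 0, 0, 10⟩))))

theorem ok6ss_1 : chkT cF6nn cF6nn T6ss_1 (13600, 64) (15360, 64) dum nS nS = true := by
  decide +kernel

/-- tree -/
def T6ss_2 : CT := .rel1 [(8000, 0), (16000, 0), (13280, 11040), (8000, 10400)] (.rel2 [(8000, 0),
    (16000, 0), (13280, 11040), (8000, 10400)] (.rel1 [(8000, 0), (16000, 0), (8000, 32471)]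
    (.rel2 [(8000, 0), (16000, 0), (8000, 32471)] (.leaf ⟨3, 0, 0, 10⟩))))

theorem ok6ss_2 : chkT cF6nn cF6nn T6ss_2 (15360, 64) (15408, 1440) dum nS nS = true := by
  decide +kernel

/-- tree -/
def T6ss_3 : CT := .rel1 [(8000, 0), (16000, 0), (13280, 11040), (8000, 10400)] (.rel2 [(8000, 0),
    (16000, 0), (13280, 11040), (8000, 10400)] (.rel1 [(8000, 0), (16000, 0), (8000, 32471)]
    (.rel2 [(8000, 0), (16000, 0), (8000, 32471)] (.leaf ⟨0, 9, 4, 0⟩))))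

theorem ok6ss_3 : chkT cF6nn cF6nn T6ss_3 (15408, 1440) (14720, 3200) dum nS nS = true := by
  decide +kernel

/-- tree -/
def T6ss_4 : CT := .rel1 [(8000, 0), (16000, 0), (13280, 11040), (8000, 10400)] (.rel2 [(8000, 0),
    (16000, 0), (13280, 11040), (8000, 10400)] (.leaf ⟨9, 0, 5, 0⟩))

theorem ok6ss_4 : chkT cF6nn cF6nn T6ss_4 (14720, 3200) (13280, 3200) dum nS nS = true := by
  decide +kernel

/-- tree -/
def T6ss_5 : CT := .rel1 [(8000, 0), (16000, 0), (13280, 11040), (8000, 10400)] (.rel2 [(8000, 0),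
    (16000, 0), (13280, 11040), (8000, 10400)] (.rel1 [(8000, 0), (16000, 0), (8000, 32471)]
    (.leaf ⟨2, 0, 0, 10⟩)))

theorem ok6ss_5 : chkT cF6nn cF6nn T6ss_5 (13280, 3200) (12640, 2400) dum nS nS = true := by
  decide +kernel

/-- tree -/
def T6ss_6 : CT := .rel1 [(8000, 0), (16000, 0), (13280, 11040), (8000, 10400)] (.rel2 [(8000, 0),
    (16000, 0), (13280, 11040), (8000, 10400)] (.rel1 [(8000, 0), (16000, 0), (8000, 32471)]
    (.leaf ⟨3, 0, 0, 10⟩)))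

theorem ok6ss_6 : chkT cF6nn cF6nn T6ss_6 (12640, 2400) (12640, 720) dum nS nS = true := by
  decide +kernel

theorem fr6ss {z k l : ℂ} (hz : OnE (vt .t6) z) (hk : k ∈ Poly pS) (hl : l ∈ Poly pS) :
    k ^ 2 + l ^ 2 - 2 * k * l * (32 * z ^ 6 - 48 * z ^ 4 + 18 * z ^ 2 - 1) + (z * (32 * z ^ 5 - 32 * z ^ 3 + 6 * z)) ^ 2 ≠ 0 := by
  have h := edge_use rpF6nn (E := L6ss) (V0 := dum) (V1 := nS) (V2 := nS) (fun e he => by
    simp only [L6ss, List.mem_cons, List.not_mem_nil, or_false] at he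
    rcases he with rfl | rfl | rfl | rfl | rfl | rfl | rfl
    exacts [⟨_, ok6ss_0⟩, ⟨_, ok6ss_1⟩, ⟨_, ok6ss_2⟩, ⟨_, ok6ss_3⟩, ⟨_, ok6ss_4⟩, ⟨_, ok6ss_5⟩, ⟨_, ok6ss_6⟩]) (V := vt .t6) (by decide) hz zero_dum (rgS hk) (rgS hl)
  rw [evF6nn (mr_false k) (mr_false l)] at h
  exact fun h0 => h (by rw [h0, mul_zero])

/-- edges -/
def L6ae : List ((ℕ × ℕ) × (ℕ × ℕ)) :=
  [((12640, 720), (13600, 64)), ((13600, 64), (15360, 64)), ((15360, 64), (15408, 1440)), ((15408,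
    1440), (14720, 3200)), ((14720, 3200), (13280, 3200)), ((13280, 3200), (12640, 2400)),
    ((12640, 2400), (12640, 720))]

/-- tree -/
def T6ae_0 : CT := .rel2 [(6720, 0), (16000, 0), (6720, 37123)] (.leaf ⟨6, 0, 8, 0⟩)

theorem ok6ae_0 : chkT cG6m cG6m T6ae_0 (12640, 720) (13600, 64) dum dum nA = true := by
  decide +kernel

/-- tree -/
def T6ae_1 : CT := .rel2 [(6720, 0), (16000, 0), (6720, 37123)] (.leaf ⟨10, 0, 0, 0⟩)

theorem ok6ae_1 : chkT cG6m cG6m T6ae_1 (13600, 64) (15360, 64) dum dum nA = true := by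
  decide +kernel

/-- tree -/
def T6ae_2 : CT := .rel2 [(6720, 0), (16000, 0), (6720, 37120)] (.leaf ⟨0, 7, 0, 7⟩)

theorem ok6ae_2 : chkT cG6m cG6m T6ae_2 (15360, 64) (15408, 1440) dum dum nA = true := by
  decide +kernel

/-- tree -/
def T6ae_3 : CT := .rel2 [(6720, 0), (16000, 0), (6720, 37120)] (.leaf ⟨0, 9, 3, 0⟩)

theorem ok6ae_3 : chkT cG6m cG6m T6ae_3 (15408, 1440) (14720, 3200) dum dum nA = true := by
  decide +kernel

/-- tree -/
def T6ae_4 : CT := .rel2 [(6720, 0), (16000, 0), (6720, 37123)] (.leaf ⟨0, 3, 10, 0⟩)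

theorem ok6ae_4 : chkT cG6m cG6m T6ae_4 (14720, 3200) (13280, 3200) dum dum nA = true := by
  decide +kernel

/-- tree -/
def T6ae_5 : CT := .rel2 [(6720, 0), (16000, 0), (6720, 37123)] (.leaf ⟨2, 0, 10, 0⟩)

theorem ok6ae_5 : chkT cG6m cG6m T6ae_5 (13280, 3200) (12640, 2400) dum dum nA = true := by
  decide +kernel

/-- tree -/
def T6ae_6 : CT := .rel2 [(6720, 0), (16000, 0), (6720, 37123)] (.leaf ⟨3, 0, 10, 0⟩)

theorem ok6ae_6 : chkT cG6m cG6m T6ae_6 (12640, 2400) (12640, 720) dum dum nA = true := by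
  decide +kernel

theorem fr6ae {z k : ℂ} (hz : OnE (vt .t6) z) (hk : conj k ∈ Poly pA) :
    k + Complex.I * z * (32 * z ^ 5 - 32 * z ^ 3 + 6 * z) ≠ 0 := by
  have h := edge_use rpG6m (E := L6ae) (V0 := dum) (V1 := dum) (V2 := nA) (fun e he => by
    simp only [L6ae, List.mem_cons, List.not_mem_nil, or_false] at he
    rcases he with rfl | rfl | rfl | rfl | rfl | rfl | rfl
    exacts [⟨_, ok6ae_0⟩, ⟨_, ok6ae_1⟩, ⟨_, ok6ae_2⟩, ⟨_, ok6ae_3⟩, ⟨_, ok6ae_4⟩, ⟨_, ok6ae_5⟩, ⟨_, ok6ae_6⟩]) (V := vt .t6) (by decide) hz zero_dum zero_dum (rgA hk)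
  rw [evG6m (mr_true k)] at h
  exact fun h0 => h (by rw [h0, mul_zero])

/-- edges -/
def L6se : List ((ℕ × ℕ) × (ℕ × ℕ)) :=
  [((12640, 720), (13600, 64)), ((13600, 64), (15360, 64)), ((15360, 64), (15408, 1440)), ((15408,
    1440), (14720, 3200)), ((14720, 3200), (13280, 3200)), ((13280, 3200), (12640, 2400)),
    ((12640, 2400), (12640, 720))]

/-- tree -/
def T6se_0 : CT := .rel2 [(8000, 0), (16000, 0), (8000, 32006)] (.leaf ⟨10, 0, 0, 0⟩)

theorem ok6se_0 : chkT cG6n cG6n T6se_0 (12640, 720) (13600, 64) dum dum nS = true := by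
  decide +kernel

/-- tree -/
def T6se_1 : CT := .rel2 [(8000, 0), (16000, 0), (8000, 32006)] (.leaf ⟨9, 0, 0, 4⟩)

theorem ok6se_1 : chkT cG6n cG6n T6se_1 (13600, 64) (15360, 64) dum dum nS = true := by
  decide +kernel

/-- tree -/
def T6se_2 : CT := .rel2 [(8000, 0), (16000, 0), (8000, 32006)] (.leaf ⟨0, 5, 0, 9⟩)

theorem ok6se_2 : chkT cG6n cG6n T6se_2 (15360, 64) (15408, 1440) dum dum nS = true := by
  decide +kernel

/-- tree -/
def T6se_3 : CT := .rel2 [(8000, 0), (16000, 0), (8000, 32000)] (.leaf ⟨0, 10, 1, 0⟩)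

theorem ok6se_3 : chkT cG6n cG6n T6se_3 (15408, 1440) (14720, 3200) dum dum nS = true := by
  decide +kernel

/-- tree -/
def T6se_4 : CT := .rel2 [(8000, 0), (16000, 0), (8000, 32006)] (.leaf ⟨0, 4, 9, 0⟩)

theorem ok6se_4 : chkT cG6n cG6n T6se_4 (14720, 3200) (13280, 3200) dum dum nS = true := by
  decide +kernel

/-- tree -/
def T6se_5 : CT := .rel2 [(8000, 0), (16000, 0), (8000, 32000)] (.leaf ⟨4, 0, 9, 0⟩)

theorem ok6se_5 : chkT cG6n cG6n T6se_5 (13280, 3200) (12640, 2400) dum dum nS = true := by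
  decide +kernel

/-- tree -/
def T6se_6 : CT := .rel2 [(8000, 0), (16000, 0), (8000, 32000)] (.leaf ⟨10, 0, 1, 0⟩)

theorem ok6se_6 : chkT cG6n cG6n T6se_6 (12640, 2400) (12640, 720) dum dum nS = true := by
  decide +kernel

theorem fr6se {z k : ℂ} (hz : OnE (vt .t6) z) (hk : k ∈ Poly pS) :
    k + Complex.I * z * (32 * z ^ 5 - 32 * z ^ 3 + 6 * z) ≠ 0 := by
  have h := edge_use rpG6n (E := L6se) (V0 := dum) (V1 := dum) (V2 := nS) (fun e he => by
    simp only [L6se, List.mem_cons, List.not_mem_nil, or_false] at he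
    rcases he with rfl | rfl | rfl | rfl | rfl | rfl | rfl
    exacts [⟨_, ok6se_0⟩, ⟨_, ok6se_1⟩, ⟨_, ok6se_2⟩, ⟨_, ok6se_3⟩, ⟨_, ok6se_4⟩, ⟨_, ok6se_5⟩, ⟨_, ok6se_6⟩]) (V := vt .t6) (by decide) hz zero_dum zero_dum (rgS hk)
  rw [evG6n (mr_false k)] at h
  exact fun h0 => h (by rw [h0, mul_zero])

end Pool.Agent.Work.MP_b30479_gt.G2.SC
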