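import Pool.Agent.Work.MP_b30479_gt.G2.S2Base
import Pool.Agent.Work.MP_b30479_gt.G2.S2CfgB

/-!
# Frontier of the rings with 7 crossings

Generated certificates (see `S2Cert`).
-/

set_option linter.style.longLine false

namespace Pool.Agent.Work.MP_b30479_gt.G2.SC

open scoped ComplexConjugate

/-- edges -/
def L7aa : List ((ℕ × ℕ) × (ℕ × ℕ)) :=
  [((13280, 480), (13920, 16)), ((13920, 16), (15280, 16)), ((15280, 16), (15440, 800)), ((15440,
    800), (14960, 2080)), ((14960, 2080), (13760, 2080)), ((13760, 2080), (13280, 1760)), ((13280,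
    1760), (13280, 480))]

/-- tree -/
def T7aa_0 : CT := .rel1 [(6720, 0), (16000, 0), (13280, 11040), (6720, 10400)] (.rel2 [(6720, 0),
    (16000, 0), (13280, 11040), (6720, 10400)] (.rel1 [(6720, 0), (16000, 0), (6720, 37666)]
    (.rel2 [(6720, 0), (16000, 0), (6720, 37666)] (.leaf ⟨2, 0, 10, 0⟩))))

theorem ok7aa_0 : chkT cF7mm cF7mm T7aa_0 (13280, 480) (13920, 16) dum nA nA = true := by
  decide +kernel

/-- tree -/
def T7aa_1 : CT := .rel1 [(6720, 0), (16000, 0), (13280, 11040), (6720, 10400)] (.rel2 [(6720, 0),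
    (16000, 0), (13280, 11040), (6720, 10400)] (.rel1 [(6720, 0), (16000, 0), (6720, 37666)]
    (.rel2 [(6720, 0), (16000, 0), (6720, 37666)] (.leaf ⟨2, 0, 10, 0⟩))))

theorem ok7aa_1 : chkT cF7mm cF7mm T7aa_1 (13920, 16) (15280, 16) dum nA nA = true := by
  decide +kernel

/-- tree -/
def T7aa_2 : CT := .rel1 [(6720, 0), (16000, 0), (13280, 11040), (6720, 10400)] (.rel2 [(6720, 0),
    (16000, 0), (13280, 11040), (6720, 10400)] (.leaf ⟨6, 0, 0, 8⟩))

theorem ok7aa_2 : chkT cF7mm cF7mm T7aa_2 (15280, 16) (15440, 800) dum nA nA = true := by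
  decide +kernel

/-- tree -/
def T7aa_3 : CT := .rel1 [(6720, 0), (16000, 0), (13280, 11040), (6720, 10400)] (.rel2 [(6720, 0),
    (16000, 0), (13280, 11040), (6720, 10400)] (.rel1 [(6720, 0), (16000, 0), (6720, 37666)]
    (.rel2 [(6720, 0), (16000, 0), (6720, 37666)] (.leaf ⟨0, 10, 2, 0⟩))))

theorem ok7aa_3 : chkT cF7mm cF7mm T7aa_3 (15440, 800) (14960, 2080) dum nA nA = true := by
  decide +kernel

/-- tree -/
def T7aa_4 : CT := .rel1 [(6720, 0), (16000, 0), (13280, 11040), (6720, 10400)] (.rel2 [(6720, 0),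
    (16000, 0), (13280, 11040), (6720, 10400)] (.rel1 [(6720, 0), (16000, 0), (6720, 37666)]
    (.rel2 [(6720, 0), (16000, 0), (6720, 37666)] (.leaf ⟨4, 0, 9, 0⟩))))

theorem ok7aa_4 : chkT cF7mm cF7mm T7aa_4 (14960, 2080) (13760, 2080) dum nA nA = true := by
  decide +kernel

/-- tree -/
def T7aa_5 : CT := .rel1 [(6720, 0), (16000, 0), (13280, 11040), (6720, 10400)] (.rel2 [(6720, 0),
    (16000, 0), (13280, 11040), (6720, 10400)] (.rel1 [(6720, 0), (16000, 0), (6720, 37666)]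
    (.rel2 [(6720, 0), (16000, 0), (6720, 37666)] (.leaf ⟨8, 0, 7, 0⟩))))

theorem ok7aa_5 : chkT cF7mm cF7mm T7aa_5 (13760, 2080) (13280, 1760) dum nA nA = true := by
  decide +kernel

/-- tree -/
def T7aa_6 : CT := .rel1 [(6720, 0), (16000, 0), (13280, 11040), (6720, 10400)] (.rel2 [(6720, 0),
    (16000, 0), (13280, 11040), (6720, 10400)] (.rel1 [(6720, 0), (16000, 0), (6720, 37666)]
    (.rel2 [(6720, 0), (16000, 0), (6720, 37666)] (.leaf ⟨5, 0, 9, 0⟩))))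

theorem ok7aa_6 : chkT cF7mm cF7mm T7aa_6 (13280, 1760) (13280, 480) dum nA nA = true := by
  decide +kernel

theorem fr7aa {z k l : ℂ} (hz : OnE (vt .t7) z) (hk : conj k ∈ Poly pA) (hl : conj l ∈ Poly pA) :
    k ^ 2 + l ^ 2 - 2 * k * l * (64 * z ^ 7 - 112 * z ^ 5 + 56 * z ^ 3 - 7 * z) + (z * (64 * z ^ 6 - 80 * z ^ 4 + 24 * z ^ 2 - 1)) ^ 2 ≠ 0 := by
  have h := edge_use rpF7mm (E := L7aa) (V0 := dum) (V1 := nA) (V2 := nA) (fun e he => by
    simp only [L7aa, List.mem_cons, List.not_mem_nil, or_false] at he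
    rcases he with rfl | rfl | rfl | rfl | rfl | rfl | rfl
    exacts [⟨_, ok7aa_0⟩, ⟨_, ok7aa_1⟩, ⟨_, ok7aa_2⟩, ⟨_, ok7aa_3⟩, ⟨_, ok7aa_4⟩, ⟨_, ok7aa_5⟩, ⟨_, ok7aa_6⟩]) (V := vt .t7) (by decide) hz zero_dum (rgA hk) (rgA hl)
  rw [evF7mm (mr_true k) (mr_true l)] at h
  exact fun h0 => h (by rw [h0, mul_zero])

/-- edges -/
def L7as : List ((ℕ × ℕ) × (ℕ × ℕ)) :=
  [((13280, 480), (13920, 16)), ((13920, 16), (15280, 16)), ((15280, 16), (15440, 800)), ((15440,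
    800), (14960, 2080)), ((14960, 2080), (13760, 2080)), ((13760, 2080), (13280, 1760)), ((13280,
    1760), (13280, 480))]

/-- tree -/
def T7as_0 : CT := .rel1 [(6720, 0), (16000, 0), (13280, 11040), (6720, 10400)] (.rel2 [(8000, 0),
    (16000, 0), (13280, 11040), (8000, 10400)] (.rel2 [(8000, 0), (16000, 0), (8000, 32471)]
    (.leaf ⟨23, 0, 0, 19⟩)))

theorem ok7as_0 : chkT cF7mn cF7mn T7as_0 (13280, 480) (13920, 16) dum nA nS = true := by
  decide +kernel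

/-- tree -/
def T7as_1 : CT := .rel1 [(6720, 0), (16000, 0), (13280, 11040), (6720, 10400)] (.rel2 [(8000, 0),
    (16000, 0), (13280, 11040), (8000, 10400)] (.leaf ⟨10, 0, 0, 0⟩))

theorem ok7as_1 : chkT cF7mn cF7mn T7as_1 (13920, 16) (15280, 16) dum nA nS = true := by
  decide +kernel

/-- tree -/
def T7as_2 : CT := .rel1 [(6720, 0), (16000, 0), (13280, 11040), (6720, 10400)] (.rel2 [(8000, 0),
    (16000, 0), (13280, 11040), (8000, 10400)] (.rel2 [(8000, 0), (16000, 0), (8000, 32471)]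
    (.leaf ⟨6, 0, 0, 8⟩)))

theorem ok7as_2 : chkT cF7mn cF7mn T7as_2 (15280, 16) (15440, 800) dum nA nS = true := by
  decide +kernel

/-- tree -/
def T7as_3 : CT := .rel1 [(6720, 0), (16000, 0), (13280, 11040), (6720, 10400)] (.rel2 [(8000, 0),
    (16000, 0), (13280, 11040), (8000, 10400)] (.rel1 [(6720, 0), (16000, 0), (6720, 37666)]
    (.leaf ⟨0, 10, 2, 0⟩)))

theorem ok7as_3 : chkT cF7mn cF7mn T7as_3 (15440, 800) (14960, 2080) dum nA nS = true := by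
  decide +kernel

/-- tree -/
def T7as_4 : CT := .rel1 [(6720, 0), (16000, 0), (13280, 11040), (6720, 10400)] (.rel2 [(8000, 0),
    (16000, 0), (13280, 11040), (8000, 10400)] (.rel1 [(6720, 0), (16000, 0), (6720, 37666)]
    (.rel2 [(8000, 0), (16000, 0), (8000, 32471)] (.leaf ⟨9, 0, 4, 0⟩))))

theorem ok7as_4 : chkT cF7mn cF7mn T7as_4 (14960, 2080) (13760, 2080) dum nA nS = true := by
  decide +kernel

/-- tree -/
def T7as_5 : CT := .rel1 [(6720, 0), (16000, 0), (13280, 11040), (6720, 10400)] (.rel2 [(8000, 0),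
    (16000, 0), (13280, 11040), (8000, 10400)] (.rel1 [(6720, 0), (16000, 0), (6720, 37666)]
    (.rel2 [(8000, 0), (16000, 0), (8000, 32471)] (.leaf ⟨8, 0, 0, 6⟩))))

theorem ok7as_5 : chkT cF7mn cF7mn T7as_5 (13760, 2080) (13280, 1760) dum nA nS = true := by
  decide +kernel

/-- tree -/
def T7as_6 : CT := .rel1 [(6720, 0), (16000, 0), (13280, 11040), (6720, 10400)] (.rel2 [(8000, 0),
    (16000, 0), (13280, 11040), (8000, 10400)] (.rel2 [(8000, 0), (16000, 0), (8000, 32471)]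
    (.leaf ⟨6, 0, 0, 8⟩)))

theorem ok7as_6 : chkT cF7mn cF7mn T7as_6 (13280, 1760) (13280, 480) dum nA nS = true := by
  decide +kernel

theorem fr7as {z k l : ℂ} (hz : OnE (vt .t7) z) (hk : conj k ∈ Poly pA) (hl : l ∈ Poly pS) :
    k ^ 2 + l ^ 2 - 2 * k * l * (64 * z ^ 7 - 112 * z ^ 5 + 56 * z ^ 3 - 7 * z) + (z * (64 * z ^ 6 - 80 * z ^ 4 + 24 * z ^ 2 - 1)) ^ 2 ≠ 0 := by
  have h := edge_use rpF7mn (E := L7as) (V0 := dum) (V1 := nA) (V2 := nS) (fun e he => by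
    simp only [L7as, List.mem_cons, List.not_mem_nil, or_false] at he
    rcases he with rfl | rfl | rfl | rfl | rfl | rfl | rfl
    exacts [⟨_, ok7as_0⟩, ⟨_, ok7as_1⟩, ⟨_, ok7as_2⟩, ⟨_, ok7as_3⟩, ⟨_, ok7as_4⟩, ⟨_, ok7as_5⟩, ⟨_, ok7as_6⟩]) (V := vt .t7) (by decide) hz zero_dum (rgA hk) (rgS hl)
  rw [evF7mn (mr_true k) (mr_false l)] at h
  exact fun h0 => h (by rw [h0, mul_zero])

/-- edges -/
def L7ss : List ((ℕ × ℕ) × (ℕ × ℕ)) :=
  [((13280, 480), (13920, 16)), ((13920, 16), (15280, 16)), ((15280, 16), (15440, 800)), ((15440,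
    800), (14960, 2080)), ((14960, 2080), (13760, 2080)), ((13760, 2080), (13280, 1760)), ((13280,
    1760), (13280, 480))]

/-- tree -/
def T7ss_0 : CT := .rel1 [(8000, 0), (16000, 0), (13280, 11040), (8000, 10400)] (.rel2 [(8000, 0),
    (16000, 0), (13280, 11040), (8000, 10400)] (.rel1 [(8000, 0), (16000, 0), (8000, 32471)]
    (.rel2 [(8000, 0), (16000, 0), (8000, 32471)] (.leaf ⟨2, 0, 0, 10⟩))))

theorem ok7ss_0 : chkT cF7nn cF7nn T7ss_0 (13280, 480) (13920, 16) dum nS nS = true := by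
  decide +kernel

/-- tree -/
def T7ss_1 : CT := .rel1 [(8000, 0), (16000, 0), (13280, 11040), (8000, 10400)] (.rel2 [(8000, 0),
    (16000, 0), (13280, 11040), (8000, 10400)] (.rel1 [(8000, 0), (16000, 0), (8000, 32471)]
    (.rel2 [(8000, 0), (16000, 0), (8000, 32471)] (.leaf ⟨2, 0, 0, 10⟩))))

theorem ok7ss_1 : chkT cF7nn cF7nn T7ss_1 (13920, 16) (15280, 16) dum nS nS = true := by
  decide +kernel

/-- tree -/
def T7ss_2 : CT := .rel1 [(8000, 0), (16000, 0), (13280, 11040), (8000, 10400)] (.rel2 [(8000, 0),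
    (16000, 0), (13280, 11040), (8000, 10400)] (.rel1 [(8000, 0), (16000, 0), (8000, 32471)]
    (.rel2 [(8000, 0), (16000, 0), (8000, 32471)] (.leaf ⟨5, 0, 0, 9⟩))))

theorem ok7ss_2 : chkT cF7nn cF7nn T7ss_2 (15280, 16) (15440, 800) dum nS nS = true := by
  decide +kernel

/-- tree -/
def T7ss_3 : CT := .rel1 [(8000, 0), (16000, 0), (13280, 11040), (8000, 10400)] (.rel2 [(8000, 0),
    (16000, 0), (13280, 11040), (8000, 10400)] (.rel1 [(8000, 0), (16000, 0), (8000, 32471)]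
    (.rel2 [(8000, 0), (16000, 0), (8000, 32471)] (.leaf ⟨0, 10, 2, 0⟩))))

theorem ok7ss_3 : chkT cF7nn cF7nn T7ss_3 (15440, 800) (14960, 2080) dum nS nS = true := by
  decide +kernel

/-- tree -/
def T7ss_4 : CT := .rel1 [(8000, 0), (16000, 0), (13280, 11040), (8000, 10400)] (.rel2 [(8000, 0),
    (16000, 0), (13280, 11040), (8000, 10400)] (.leaf ⟨7, 0, 7, 0⟩))

theorem ok7ss_4 : chkT cF7nn cF7nn T7ss_4 (14960, 2080) (13760, 2080) dum nS nS = true := by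
  decide +kernel

/-- tree -/
def T7ss_5 : CT := .rel1 [(8000, 0), (16000, 0), (13280, 11040), (8000, 10400)] (.rel2 [(8000, 0),
    (16000, 0), (13280, 11040), (8000, 10400)] (.leaf ⟨9, 0, 0, 3⟩))

theorem ok7ss_5 : chkT cF7nn cF7nn T7ss_5 (13760, 2080) (13280, 1760) dum nS nS = true := by
  decide +kernel

/-- tree -/
def T7ss_6 : CT := .rel1 [(8000, 0), (16000, 0), (13280, 11040), (8000, 10400)] (.rel2 [(8000, 0),
    (16000, 0), (13280, 11040), (8000, 10400)] (.rel1 [(8000, 0), (16000, 0), (8000, 32471)]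
    (.leaf ⟨2, 0, 0, 10⟩)))

theorem ok7ss_6 : chkT cF7nn cF7nn T7ss_6 (13280, 1760) (13280, 480) dum nS nS = true := by
  decide +kernel

theorem fr7ss {z k l : ℂ} (hz : OnE (vt .t7) z) (hk : k ∈ Poly pS) (hl : l ∈ Poly pS) :
    k ^ 2 + l ^ 2 - 2 * k * l * (64 * z ^ 7 - 112 * z ^ 5 + 56 * z ^ 3 - 7 * z) + (z * (64 * z ^ 6 - 80 * z ^ 4 + 24 * z ^ 2 - 1)) ^ 2 ≠ 0 := by
  have h := edge_use rpF7nn (E := L7ss) (V0 := dum) (V1 := nS) (V2 := nS) (fun e he => by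
    simp only [L7ss, List.mem_cons, List.not_mem_nil, or_false] at he
    rcases he with rfl | rfl | rfl | rfl | rfl | rfl | rfl
    exacts [⟨_, ok7ss_0⟩, ⟨_, ok7ss_1⟩, ⟨_, ok7ss_2⟩, ⟨_, ok7ss_3⟩, ⟨_, ok7ss_4⟩, ⟨_, ok7ss_5⟩, ⟨_, ok7ss_6⟩]) (V := vt .t7) (by decide) hz zero_dum (rgS hk) (rgS hl)
  rw [evF7nn (mr_false k) (mr_false l)] at h
  exact fun h0 => h (by rw [h0, mul_zero])

/-- edges -/
def L7ae : List ((ℕ × ℕ) × (ℕ × ℕ)) :=
  [((13280, 480), (13920, 16)), ((13920, 16), (15280, 16)), ((15280, 16), (15440, 800)), ((15440,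
    800), (14960, 2080)), ((14960, 2080), (13760, 2080)), ((13760, 2080), (13280, 1760)), ((13280,
    1760), (13280, 480))]

/-- tree -/
def T7ae_0 : CT := .rel2 [(6720, 0), (16000, 0), (6720, 37123)] (.leaf ⟨5, 0, 9, 0⟩)

theorem ok7ae_0 : chkT cG7m cG7m T7ae_0 (13280, 480) (13920, 16) dum dum nA = true := by
  decide +kernel

/-- tree -/
def T7ae_1 : CT := .rel2 [(6720, 0), (16000, 0), (6720, 37123)] (.leaf ⟨10, 0, 0, 0⟩)

theorem ok7ae_1 : chkT cG7m cG7m T7ae_1 (13920, 16) (15280, 16) dum dum nA = true := by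
  decide +kernel

/-- tree -/
def T7ae_2 : CT := .rel2 [(6720, 0), (16000, 0), (6720, 37120)] (.leaf ⟨0, 4, 0, 9⟩)

theorem ok7ae_2 : chkT cG7m cG7m T7ae_2 (15280, 16) (15440, 800) dum dum nA = true := by
  decide +kernel

/-- tree -/
def T7ae_3 : CT := .rel2 [(6720, 0), (16000, 0), (6720, 37120)] (.leaf ⟨0, 10, 1, 0⟩)

theorem ok7ae_3 : chkT cG7m cG7m T7ae_3 (15440, 800) (14960, 2080) dum dum nA = true := by
  decide +kernel

/-- tree -/
def T7ae_4 : CT := .rel2 [(6720, 0), (16000, 0), (6720, 37123)] (.leaf ⟨0, 3, 9, 0⟩)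

theorem ok7ae_4 : chkT cG7m cG7m T7ae_4 (14960, 2080) (13760, 2080) dum dum nA = true := by
  decide +kernel

/-- tree -/
def T7ae_5 : CT := .rel2 [(6720, 0), (16000, 0), (6720, 37123)] (.leaf ⟨2, 0, 10, 0⟩)

theorem ok7ae_5 : chkT cG7m cG7m T7ae_5 (13760, 2080) (13280, 1760) dum dum nA = true := by
  decide +kernel

/-- tree -/
def T7ae_6 : CT := .rel2 [(6720, 0), (16000, 0), (6720, 37123)] (.leaf ⟨3, 0, 10, 0⟩)

theorem ok7ae_6 : chkT cG7m cG7m T7ae_6 (13280, 1760) (13280, 480) dum dum nA = true := by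
  decide +kernel

theorem fr7ae {z k : ℂ} (hz : OnE (vt .t7) z) (hk : conj k ∈ Poly pA) :
    k + Complex.I * z * (64 * z ^ 6 - 80 * z ^ 4 + 24 * z ^ 2 - 1) ≠ 0 := by
  have h := edge_use rpG7m (E := L7ae) (V0 := dum) (V1 := dum) (V2 := nA) (fun e he => by
    simp only [L7ae, List.mem_cons, List.not_mem_nil, or_false] at he
    rcases he with rfl | rfl | rfl | rfl | rfl | rfl | rfl
    exacts [⟨_, ok7ae_0⟩, ⟨_, ok7ae_1⟩, ⟨_, ok7ae_2⟩, ⟨_, ok7ae_3⟩, ⟨_, ok7ae_4⟩, ⟨_, ok7ae_5⟩, ⟨_, ok7ae_6⟩]) (V := vt .t7) (by decide) hz zero_dum zero_dum (rgA hk)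
  rw [evG7m (mr_true k)] at h
  exact fun h0 => h (by rw [h0, mul_zero])

/-- edges -/
def L7se : List ((ℕ × ℕ) × (ℕ × ℕ)) :=
  [((13280, 480), (13920, 16)), ((13920, 16), (15280, 16)), ((15280, 16), (15440, 800)), ((15440,
    800), (14960, 2080)), ((14960, 2080), (13760, 2080)), ((13760, 2080), (13280, 1760)), ((13280,
    1760), (13280, 480))]

/-- tree -/
def T7se_0 : CT := .rel2 [(8000, 0), (16000, 0), (8000, 32000)] (.leaf ⟨10, 0, 0, 0⟩)

theorem ok7se_0 : chkT cG7n cG7n T7se_0 (13280, 480) (13920, 16) dum dum nS = true := by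
  decide +kernel

/-- tree -/
def T7se_1 : CT := .rel2 [(8000, 0), (16000, 0), (8000, 32006)] (.leaf ⟨10, 0, 0, 2⟩)

theorem ok7se_1 : chkT cG7n cG7n T7se_1 (13920, 16) (15280, 16) dum dum nS = true := by
  decide +kernel

/-- tree -/
def T7se_2 : CT := .rel2 [(8000, 0), (16000, 0), (8000, 32006)] (.leaf ⟨0, 3, 0, 9⟩)

theorem ok7se_2 : chkT cG7n cG7n T7se_2 (15280, 16) (15440, 800) dum dum nS = true := by
  decide +kernel

/-- tree -/
def T7se_3 : CT := .rel2 [(8000, 0), (16000, 0), (8000, 32000)] (.leaf ⟨0, 10, 0, 0⟩)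

theorem ok7se_3 : chkT cG7n cG7n T7se_3 (15440, 800) (14960, 2080) dum dum nS = true := by
  decide +kernel

/-- tree -/
def T7se_4 : CT := .rel2 [(8000, 0), (16000, 0), (8000, 32006)] (.leaf ⟨0, 5, 9, 0⟩)

theorem ok7se_4 : chkT cG7n cG7n T7se_4 (14960, 2080) (13760, 2080) dum dum nS = true := by
  decide +kernel

/-- tree -/
def T7se_5 : CT := .rel2 [(8000, 0), (16000, 0), (8000, 32000)] (.leaf ⟨4, 0, 9, 0⟩)

theorem ok7se_5 : chkT cG7n cG7n T7se_5 (13760, 2080) (13280, 1760) dum dum nS = true := by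
  decide +kernel

/-- tree -/
def T7se_6 : CT := .rel2 [(8000, 0), (16000, 0), (8000, 32000)] (.leaf ⟨10, 0, 2, 0⟩)

theorem ok7se_6 : chkT cG7n cG7n T7se_6 (13280, 1760) (13280, 480) dum dum nS = true := by
  decide +kernel

theorem fr7se {z k : ℂ} (hz : OnE (vt .t7) z) (hk : k ∈ Poly pS) :
    k + Complex.I * z * (64 * z ^ 6 - 80 * z ^ 4 + 24 * z ^ 2 - 1) ≠ 0 := by
  have h := edge_use rpG7n (E := L7se) (V0 := dum) (V1 := dum) (V2 := nS) (fun e he => by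
    simp only [L7se, List.mem_cons, List.not_mem_nil, or_false] at he
    rcases he with rfl | rfl | rfl | rfl | rfl | rfl | rfl
    exacts [⟨_, ok7se_0⟩, ⟨_, ok7se_1⟩, ⟨_, ok7se_2⟩, ⟨_, ok7se_3⟩, ⟨_, ok7se_4⟩, ⟨_, ok7se_5⟩, ⟨_, ok7se_6⟩]) (V := vt .t7) (by decide) hz zero_dum zero_dum (rgS hk)
  rw [evG7n (mr_false k)] at h
  exact fun h0 => h (by rw [h0, mul_zero])

end Pool.Agent.Work.MP_b30479_gt.G2.SC
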