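import Pool.Agent.Work.MP_b30479_gt.G2.S2Base
import Pool.Agent.Work.MP_b30479_gt.G2.S2CfgC

/-!
# The hinges

Generated certificates (see `S2Cert`).
-/

set_option linter.style.longLine false

namespace Pool.Agent.Work.MP_b30479_gt.G2.SC

open scoped ComplexConjugate

/-- tree -/
def TPaa : CT := .seg (160, 64000) (.seg (160, 32000) (.rel1 [(6720, 0), (16000, 0), (12874,
    12505), (6720, 7120)] (.rel2 [(6720, 0), (16000, 0), (6720, 37123)] (.leaf ⟨2, 0, 10, 0⟩)))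
    (.seg (160, 48000) (.rel1 [(6720, 0), (16000, 0), (13055, 11780), (6720, 7344)] (.rel2 [(6720,
    0), (16000, 0), (6720, 37120)] (.leaf ⟨4, 0, 9, 0⟩))) (.rel1 [(6720, 0), (16000, 0), (13296,
    10816), (6720, 10816)] (.rel2 [(12256, 0), (16000, 0), (12874, 12505), (4712, 5363)] (.leaf
    ⟨9, 0, 4, 0⟩))))) (.rel1 [(12256, 0), (16000, 0), (12874, 12505), (4712, 5363)] (.rel2 [(6720,
    0), (16000, 0), (6720, 37123)] (.leaf ⟨2, 0, 10, 0⟩)))

theorem okPaa : chkT cPmm cPmm TPaa (160, 0) (160, 128000)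
    dum nA nA = true := by
  decide +kernel

theorem hiPaa {R k l : ℂ} (hR : R.re = r0) (hi : |R.im| ≤ 4) (hk : conj k ∈ Poly pA) (hl : conj l ∈ Poly pA) :
    (k + l) * (k ^ 2 * (1 - Complex.I * R) ^ 2 + 1) - 2 * (1 - Complex.I * R) * k ^ 2 * l ≠ 0 := by
  have h := hinge_use rpPmm rpPmm okPaa hR hi zero_dum (rgA hk) (rgA hl)
  rw [or_self, evPmm (mr_true k) (mr_true l)] at h
  exact fun h0 => h (by rw [h0, mul_zero])

/-- tree -/
def TPas : CT := .seg (160, 64000) (.seg (160, 32000) (.rel1 [(12256, 0), (16000, 0), (13055,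
    11780), (4304, 5653)] (.rel2 [(16000, 0), (12390, 9238), (1710, 0)] (.leaf ⟨7, 0, 7, 0⟩)))
    (.seg (160, 48000) (.rel1 [(12256, 0), (16000, 0), (13055, 11780), (4304, 5653)] (.rel2
    [(16000, 0), (12390, 9238), (1710, 0)] (.leaf ⟨9, 0, 5, 0⟩))) (.rel1 [(6720, 0), (16000, 0),
    (13296, 10816), (6720, 10816)] (.rel2 [(16000, 0), (12390, 9238), (1712, 0)] (.leaf ⟨9, 0, 4,
    0⟩))))) (.rel1 [(6720, 0), (16000, 0), (13055, 11780), (6720, 7344)] (.rel2 [(8000, 0),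
    (16000, 0), (12592, 8720), (8000, 8720)] (.leaf ⟨6, 0, 8, 0⟩)))

theorem okPas : chkT cPmn cPmn TPas (160, 0) (160, 128000)
    dum nA nT = true := by
  decide +kernel

theorem hiPas {R k l : ℂ} (hR : R.re = r0) (hi : |R.im| ≤ 4) (hk : conj k ∈ Poly pA) (hl : l ∈ Poly pT) :
    (k + l) * (k ^ 2 * (1 - Complex.I * R) ^ 2 + 1) - 2 * (1 - Complex.I * R) * k ^ 2 * l ≠ 0 := by
  have h := hinge_use rpPmn rpPmn okPas hR hi zero_dum (rgA hk) (rgT hl)
  rw [or_self, evPmn (mr_true k) (mr_false l)] at h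
  exact fun h0 => h (by rw [h0, mul_zero])

/-- tree -/
def TPsa : CT := .seg (160, 64000) (.seg (160, 32000) (.rel1 [(16000, 0), (12390, 9238), (1710,
    0)] (.rel2 [(12256, 0), (16000, 0), (13055, 11780), (4304, 5653)] (.leaf ⟨9, 0, 0, 4⟩))) (.seg
    (160, 48000) (.rel1 [(16000, 0), (12390, 9238), (1710, 0)] (.rel2 [(12256, 0), (16000, 0),
    (13055, 11780), (4304, 5653)] (.leaf ⟨10, 0, 0, 2⟩))) (.rel1 [(8000, 0), (16000, 0), (12592,
    8720), (8000, 8720)] (.rel2 [(6720, 0), (16000, 0), (12874, 12505), (6720, 7120)] (.leaf ⟨10,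
    0, 0, 1⟩))))) (.rel1 [(16000, 0), (12390, 9238), (1710, 0)] (.rel2 [(6720, 0), (16000, 0),
    (13055, 11780), (6720, 7344)] (.leaf ⟨9, 0, 0, 5⟩)))

theorem okPsa : chkT cPnm cPnm TPsa (160, 0) (160, 128000)
    dum nT nA = true := by
  decide +kernel

theorem hiPsa {R k l : ℂ} (hR : R.re = r0) (hi : |R.im| ≤ 4) (hk : k ∈ Poly pT) (hl : conj l ∈ Poly pA) :
    (k + l) * (k ^ 2 * (1 - Complex.I * R) ^ 2 + 1) - 2 * (1 - Complex.I * R) * k ^ 2 * l ≠ 0 := by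
  have h := hinge_use rpPnm rpPnm okPsa hR hi zero_dum (rgT hk) (rgA hl)
  rw [or_self, evPnm (mr_false k) (mr_true l)] at h
  exact fun h0 => h (by rw [h0, mul_zero])

/-- scaled vertices -/
def nt3aa : List (ℕ × ℕ) :=
  [(11424, 2224), (12192, 1680), (13792, 1680), (13968, 3504), (13632, 4784), (12704, 4784), (11424, 3696)]

lemma rgt3aa {z : ℂ} (h : z ∈ Poly (vt .t3aa)) : 16000 * z ∈ Rg nt3aa := rg_of_poly (by decide) h

/-- scaled vertices -/
def nt3ae : List (ℕ × ℕ) :=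
  [(9824, 1872), (10384, 1456), (11824, 1456), (11920, 2448), (11248, 4128), (10528, 4128), (9824, 3520)]

lemma rgt3ae {z : ℂ} (h : z ∈ Poly (vt .t3ae)) : 16000 * z ∈ Rg nt3ae := rg_of_poly (by decide) h

/-- scaled vertices -/
def nt3as : List (ℕ × ℕ) :=
  [(10544, 3472), (11552, 2752), (13648, 2752), (13792, 4224), (13216, 6416), (12256, 6416), (10544, 4960)]

lemma rgt3as {z : ℂ} (h : z ∈ Poly (vt .t3as)) : 16000 * z ∈ Rg nt3as := rg_of_poly (by decide) h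

/-- scaled vertices -/
def nt3se : List (ℕ × ℕ) :=
  [(8016, 3840), (8576, 3440), (10656, 3440), (10704, 4032), (10048, 5696), (8800, 5696), (8016, 5024)]

lemma rgt3se {z : ℂ} (h : z ∈ Poly (vt .t3se)) : 16000 * z ∈ Rg nt3se := rg_of_poly (by decide) h

/-- scaled vertices -/
def nt3ss : List (ℕ × ℕ) :=
  [(10192, 5472), (11728, 4384), (13680, 4384), (13696, 4704), (12928, 7792), (12624, 8624), (11728, 8624), (10192, 7280)]

lemma rgt3ss {z : ℂ} (h : z ∈ Poly (vt .t3ss)) : 16000 * z ∈ Rg nt3ss := rg_of_poly (by decide) h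

/-- scaled vertices -/
def nt4 : List (ℕ × ℕ) :=
  [(10560, 1840), (12160, 608), (14400, 608), (14720, 1920), (13280, 5280), (12320, 5280), (10560, 3680)]

lemma rgt4 {z : ℂ} (h : z ∈ Poly (vt .t4)) : 16000 * z ∈ Rg nt4 := rg_of_poly (by decide) h

/-- scaled vertices -/
def nt5 : List (ℕ × ℕ) :=
  [(11520, 1120), (12800, 160), (15040, 160), (15280, 1760), (14400, 4000), (12800, 4000), (11520, 3040)]

lemma rgt5 {z : ℂ} (h : z ∈ Poly (vt .t5)) : 16000 * z ∈ Rg nt5 := rg_of_poly (by decide) h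

/-- scaled vertices -/
def nt6 : List (ℕ × ℕ) :=
  [(12640, 720), (13600, 64), (15360, 64), (15408, 1440), (14720, 3200), (13280, 3200), (12640, 2400)]

lemma rgt6 {z : ℂ} (h : z ∈ Poly (vt .t6)) : 16000 * z ∈ Rg nt6 := rg_of_poly (by decide) h

/-- scaled vertices -/
def nt7 : List (ℕ × ℕ) :=
  [(13280, 480), (13920, 16), (15280, 16), (15440, 800), (14960, 2080), (13760, 2080), (13280, 1760)]

lemma rgt7 {z : ℂ} (h : z ∈ Poly (vt .t7)) : 16000 * z ∈ Rg nt7 := rg_of_poly (by decide) h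

/-- scaled vertices -/
def nt8 : List (ℕ × ℕ) :=
  [(12800, 0), (16000, 0), (14400, 4000), (12800, 4000)]

lemma rgt8 {z : ℂ} (h : z ∈ Poly (vt .t8)) : 16000 * z ∈ Rg nt8 := rg_of_poly (by decide) h

/-- tree -/
def TE3aaA : CT := .seg (160, 64000) (.rel1 [(14447, 1680), (13632, 4784), (12704, 4784), (9052,
    1680)] (.rel2 [(6720, 0), (16000, 0), (13055, 11780), (6720, 7344)] (.leaf ⟨0, 10, 0, 3⟩)))
    (.rel1 [(14447, 1680), (13632, 4784), (12704, 4784), (9052, 1680)] (.rel2 [(6720, 0), (16000,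
    0), (13055, 11780), (6720, 7344)] (.leaf ⟨0, 9, 0, 4⟩)))

theorem okE3aaA : chkT cEm cEm TE3aaA (160, 0) (160, 128000)
    dum nt3aa nA = true := by
  decide +kernel

theorem hiE3aaA {R z k : ℂ} (hR : R.re = r0) (hi : |R.im| ≤ 4) (hz : z ∈ Poly (vt .t3aa))
    (hk : conj k ∈ Poly pA) : k ^ 2 * (z ^ 2 * (R ^ 2 + 1) - 1) - z ^ 2 ≠ 0 := by
  have h := hinge_use rpEm rpEm okE3aaA hR hi zero_dum (rgt3aa hz) (rgA hk)
  rw [or_self, evEm (mr_false z) (mr_true k)] at h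
  exact fun h0 => h (by rw [h0, mul_zero])

/-- tree -/
def TE3asS : CT := .seg (160, 64000) (.rel1 [(14179, 2752), (13041, 7084), (7947, 2752)] (.rel2
    [(8000, 0), (16000, 0), (13020, 11922), (8000, 7680)] (.leaf ⟨0, 4, 9, 0⟩))) (.rel1 [(13648,
    2752), (14167, 8041), (7947, 2752)] (.rel2 [(8000, 0), (16000, 0), (13020, 11922), (8000,
    7680)] (.leaf ⟨0, 4, 9, 0⟩)))

theorem okE3asS : chkT cEn cEn TE3asS (160, 0) (160, 128000)
    dum nt3as nS = true := by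
  decide +kernel

theorem hiE3asS {R z k : ℂ} (hR : R.re = r0) (hi : |R.im| ≤ 4) (hz : z ∈ Poly (vt .t3as))
    (hk : k ∈ Poly pS) : k ^ 2 * (z ^ 2 * (R ^ 2 + 1) - 1) - z ^ 2 ≠ 0 := by
  have h := hinge_use rpEn rpEn okE3asS hR hi zero_dum (rgt3as hz) (rgS hk)
  rw [or_self, evEn (mr_false z) (mr_false k)] at h
  exact fun h0 => h (by rw [h0, mul_zero])

/-- tree -/
def TE3ssS : CT := .seg (160, 64000) (.rel1 [(14174, 4384), (12407, 9219), (6882, 4384)] (.rel2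
    [(8000, 0), (16000, 0), (13020, 11922), (8000, 7680)] (.leaf ⟨0, 2, 10, 0⟩))) (.rel1 [(13680,
    4384), (13996, 10609), (6882, 4384)] (.rel2 [(8000, 0), (16000, 0), (13020, 11922), (8000,
    7680)] (.leaf ⟨0, 2, 10, 0⟩)))

theorem okE3ssS : chkT cEn cEn TE3ssS (160, 0) (160, 128000)
    dum nt3ss nS = true := by
  decide +kernel

theorem hiE3ssS {R z k : ℂ} (hR : R.re = r0) (hi : |R.im| ≤ 4) (hz : z ∈ Poly (vt .t3ss))
    (hk : k ∈ Poly pS) : k ^ 2 * (z ^ 2 * (R ^ 2 + 1) - 1) - z ^ 2 ≠ 0 := by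
  have h := hinge_use rpEn rpEn okE3ssS hR hi zero_dum (rgt3ss hz) (rgS hk)
  rw [or_self, evEn (mr_false z) (mr_false k)] at h
  exact fun h0 => h (by rw [h0, mul_zero])

/-- tree -/
def TE3aeA : CT := .seg (160, 64000) (.rel1 [(12317, 1456), (11063, 4591), (7434, 1456)] (.rel2
    [(6720, 0), (16000, 0), (13055, 11780), (6720, 7344)] (.leaf ⟨0, 9, 0, 4⟩))) (.rel1 [(12317,
    1456), (11063, 4591), (7434, 1456)] (.rel2 [(6720, 0), (16000, 0), (13055, 11780), (6720,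
    7344)] (.leaf ⟨0, 9, 0, 4⟩)))

theorem okE3aeA : chkT cEm cEm TE3aeA (160, 0) (160, 128000)
    dum nt3ae nA = true := by
  decide +kernel

theorem hiE3aeA {R z k : ℂ} (hR : R.re = r0) (hi : |R.im| ≤ 4) (hz : z ∈ Poly (vt .t3ae))
    (hk : conj k ∈ Poly pA) : k ^ 2 * (z ^ 2 * (R ^ 2 + 1) - 1) - z ^ 2 ≠ 0 := by
  have h := hinge_use rpEm rpEm okE3aeA hR hi zero_dum (rgt3ae hz) (rgA hk)
  rw [or_self, evEm (mr_false z) (mr_true k)] at h
  exact fun h0 => h (by rw [h0, mul_zero])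

/-- tree -/
def TE3seS : CT := .seg (160, 64000) (.rel1 [(10938, 3440), (9733, 6496), (6168, 3440)] (.rel2
    [(8000, 0), (16000, 0), (13020, 11922), (8000, 7680)] (.leaf ⟨0, 3, 9, 0⟩))) (.rel1 [(10656,
    3440), (10992, 7575), (6168, 3440)] (.rel2 [(8000, 0), (16000, 0), (13020, 11922), (8000,
    7680)] (.leaf ⟨0, 3, 10, 0⟩)))

theorem okE3seS : chkT cEn cEn TE3seS (160, 0) (160, 128000)
    dum nt3se nS = true := by
  decide +kernel

theorem hiE3seS {R z k : ℂ} (hR : R.re = r0) (hi : |R.im| ≤ 4) (hz : z ∈ Poly (vt .t3se))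
    (hk : k ∈ Poly pS) : k ^ 2 * (z ^ 2 * (R ^ 2 + 1) - 1) - z ^ 2 ≠ 0 := by
  have h := hinge_use rpEn rpEn okE3seS hR hi zero_dum (rgt3se hz) (rgS hk)
  rw [or_self, evEn (mr_false z) (mr_false k)] at h
  exact fun h0 => h (by rw [h0, mul_zero])

/-- tree -/
def TE4A : CT := .seg (160, 64000) (.rel1 [(15283, 608), (13280, 5280), (12320, 5280), (7180,
    608)] (.rel2 [(6720, 0), (16000, 0), (13296, 10816), (11680, 10816), (6720, 7344)] (.leaf ⟨0,
    10, 0, 3⟩))) (.rel1 [(15283, 608), (13280, 5280), (12320, 5280), (7180, 608)] (.rel2 [(6720,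
    0), (16000, 0), (13296, 10816), (11680, 10816), (6720, 7344)] (.leaf ⟨0, 10, 0, 3⟩)))

theorem okE4A : chkT cEm cEm TE4A (160, 0) (160, 128000)
    dum nt4 nA = true := by
  decide +kernel

theorem hiE4A {R z k : ℂ} (hR : R.re = r0) (hi : |R.im| ≤ 4) (hz : z ∈ Poly (vt .t4))
    (hk : conj k ∈ Poly pA) : k ^ 2 * (z ^ 2 * (R ^ 2 + 1) - 1) - z ^ 2 ≠ 0 := by
  have h := hinge_use rpEm rpEm okE4A hR hi zero_dum (rgt4 hz) (rgA hk)
  rw [or_self, evEm (mr_false z) (mr_true k)] at h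
  exact fun h0 => h (by rw [h0, mul_zero])

/-- tree -/
def TE4S : CT := .seg (160, 64000) (.rel1 [(15283, 608), (13011, 5909), (7180, 608)] (.rel2
    [(8000, 0), (16000, 0), (13020, 11922), (8000, 7680)] (.leaf ⟨0, 4, 9, 0⟩))) (.rel1 [(14400,
    608), (16458, 9042), (7180, 608)] (.rel2 [(8000, 0), (16000, 0), (13020, 11922), (8000, 7680)]
    (.leaf ⟨0, 4, 9, 0⟩)))

theorem okE4S : chkT cEn cEn TE4S (160, 0) (160, 128000)
    dum nt4 nS = true := by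
  decide +kernel

theorem hiE4S {R z k : ℂ} (hR : R.re = r0) (hi : |R.im| ≤ 4) (hz : z ∈ Poly (vt .t4))
    (hk : k ∈ Poly pS) : k ^ 2 * (z ^ 2 * (R ^ 2 + 1) - 1) - z ^ 2 ≠ 0 := by
  have h := hinge_use rpEn rpEn okE4S hR hi zero_dum (rgt4 hz) (rgS hk)
  rw [or_self, evEn (mr_false z) (mr_false k)] at h
  exact fun h0 => h (by rw [h0, mul_zero])

/-- tree -/
def TE5A : CT := .seg (160, 64000) (.rel1 [(15909, 160), (14036, 4927), (7680, 160)] (.rel2
    [(6720, 0), (16000, 0), (12874, 12505), (6720, 7120)] (.leaf ⟨0, 10, 0, 0⟩))) (.rel1 [(15909,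
    160), (14400, 4000), (12800, 4000), (7680, 160)] (.rel2 [(6720, 0), (16000, 0), (12874,
    12505), (6720, 7120)] (.leaf ⟨0, 9, 0, 4⟩)))

theorem okE5A : chkT cEm cEm TE5A (160, 0) (160, 128000)
    dum nt5 nA = true := by
  decide +kernel

theorem hiE5A {R z k : ℂ} (hR : R.re = r0) (hi : |R.im| ≤ 4) (hz : z ∈ Poly (vt .t5))
    (hk : conj k ∈ Poly pA) : k ^ 2 * (z ^ 2 * (R ^ 2 + 1) - 1) - z ^ 2 ≠ 0 := by
  have h := hinge_use rpEm rpEm okE5A hR hi zero_dum (rgt5 hz) (rgA hk)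
  rw [or_self, evEm (mr_false z) (mr_true k)] at h
  exact fun h0 => h (by rw [h0, mul_zero])

/-- tree -/
def TE5S : CT := .seg (160, 64000) (.rel1 [(15909, 160), (14036, 4927), (7680, 160)] (.rel2
    [(8000, 0), (16000, 0), (13020, 11922), (8000, 7680)] (.leaf ⟨0, 5, 9, 0⟩))) (.rel1 [(15040,
    160), (15973, 6380), (7680, 160)] (.rel2 [(8000, 0), (16000, 0), (13020, 11922), (8000, 7680)]
    (.leaf ⟨0, 5, 9, 0⟩)))

theorem okE5S : chkT cEn cEn TE5S (160, 0) (160, 128000)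
    dum nt5 nS = true := by
  decide +kernel

theorem hiE5S {R z k : ℂ} (hR : R.re = r0) (hi : |R.im| ≤ 4) (hz : z ∈ Poly (vt .t5))
    (hk : k ∈ Poly pS) : k ^ 2 * (z ^ 2 * (R ^ 2 + 1) - 1) - z ^ 2 ≠ 0 := by
  have h := hinge_use rpEn rpEn okE5S hR hi zero_dum (rgt5 hz) (rgS hk)
  rw [or_self, evEn (mr_false z) (mr_false k)] at h
  exact fun h0 => h (by rw [h0, mul_zero])

/-- tree -/
def TE6A : CT := .seg (160, 64000) (.rel1 [(15946, 64), (14248, 4409), (10769, 64)] (.rel2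
    [(12256, 0), (16000, 0), (12874, 12505), (4712, 5363)] (.leaf ⟨0, 9, 0, 3⟩))) (.rel1 [(15946,
    64), (14248, 4409), (10769, 64)] (.rel2 [(6720, 0), (16000, 0), (12874, 12505), (6720, 7120)]
    (.leaf ⟨0, 10, 0, 3⟩)))

theorem okE6A : chkT cEm cEm TE6A (160, 0) (160, 128000)
    dum nt6 nA = true := by
  decide +kernel

theorem hiE6A {R z k : ℂ} (hR : R.re = r0) (hi : |R.im| ≤ 4) (hz : z ∈ Poly (vt .t6))
    (hk : conj k ∈ Poly pA) : k ^ 2 * (z ^ 2 * (R ^ 2 + 1) - 1) - z ^ 2 ≠ 0 := by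
  have h := hinge_use rpEm rpEm okE6A hR hi zero_dum (rgt6 hz) (rgA hk)
  rw [or_self, evEm (mr_false z) (mr_true k)] at h
  exact fun h0 => h (by rw [h0, mul_zero])

/-- tree -/
def TE6S : CT := .seg (160, 64000) (.rel1 [(15946, 64), (14247, 4410), (10771, 64)] (.rel2 [(8000,
    0), (16000, 0), (13020, 11922), (8000, 7680)] (.leaf ⟨0, 5, 8, 0⟩))) (.rel1 [(15360, 64),
    (15571, 6064), (10771, 64)] (.rel2 [(8000, 0), (16000, 0), (13020, 11922), (8000, 7680)]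
    (.leaf ⟨0, 5, 9, 0⟩)))

theorem okE6S : chkT cEn cEn TE6S (160, 0) (160, 128000)
    dum nt6 nS = true := by
  decide +kernel

theorem hiE6S {R z k : ℂ} (hR : R.re = r0) (hi : |R.im| ≤ 4) (hz : z ∈ Poly (vt .t6))
    (hk : k ∈ Poly pS) : k ^ 2 * (z ^ 2 * (R ^ 2 + 1) - 1) - z ^ 2 ≠ 0 := by
  have h := hinge_use rpEn rpEn okE6S hR hi zero_dum (rgt6 hz) (rgS hk)
  rw [or_self, evEn (mr_false z) (mr_false k)] at h
  exact fun h0 => h (by rw [h0, mul_zero])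

/-- tree -/
def TE7A : CT := .seg (160, 64000) (.rel1 [(15734, 16), (14720, 2720), (10662, 16)] (.rel2
    [(12256, 0), (16000, 0), (12874, 12505), (4712, 5363)] (.leaf ⟨0, 8, 0, 5⟩))) (.rel1 [(15734,
    16), (14720, 2720), (10662, 16)] (.rel2 [(12256, 0), (16000, 0), (12874, 12505), (4712, 5363)]
    (.leaf ⟨0, 8, 0, 5⟩)))

theorem okE7A : chkT cEm cEm TE7A (160, 0) (160, 128000)
    dum nt7 nA = true := by
  decide +kernel

theorem hiE7A {R z k : ℂ} (hR : R.re = r0) (hi : |R.im| ≤ 4) (hz : z ∈ Poly (vt .t7))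
    (hk : conj k ∈ Poly pA) : k ^ 2 * (z ^ 2 * (R ^ 2 + 1) - 1) - z ^ 2 ≠ 0 := by
  have h := hinge_use rpEm rpEm okE7A hR hi zero_dum (rgt7 hz) (rgA hk)
  rw [or_self, evEm (mr_false z) (mr_true k)] at h
  exact fun h0 => h (by rw [h0, mul_zero])

/-- tree -/
def TE7S : CT := .seg (160, 64000) (.rel1 [(15734, 16), (14720, 2720), (10664, 16)] (.rel2 [(8000,
    0), (16000, 0), (8000, 32006)] (.leaf ⟨0, 1, 10, 0⟩))) (.rel1 [(15280, 16), (16009, 3580),
    (10664, 16)] (.rel2 [(8000, 0), (16000, 0), (8000, 32006)] (.leaf ⟨0, 2, 30, 0⟩)))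

theorem okE7S : chkT cEn cEn TE7S (160, 0) (160, 128000)
    dum nt7 nS = true := by
  decide +kernel

theorem hiE7S {R z k : ℂ} (hR : R.re = r0) (hi : |R.im| ≤ 4) (hz : z ∈ Poly (vt .t7))
    (hk : k ∈ Poly pS) : k ^ 2 * (z ^ 2 * (R ^ 2 + 1) - 1) - z ^ 2 ≠ 0 := by
  have h := hinge_use rpEn rpEn okE7S hR hi zero_dum (rgt7 hz) (rgS hk)
  rw [or_self, evEn (mr_false z) (mr_false k)] at h
  exact fun h0 => h (by rw [h0, mul_zero])

/-- tree -/
def TE8A : CT := .seg (160, 64000) (.rel2 [(6720, 0), (16000, 0), (12874, 12505), (6720, 7120)]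
    (.leaf ⟨0, 9, 0, 4⟩)) (.rel2 [(6720, 0), (16000, 0), (12874, 12505), (6720, 7120)] (.leaf ⟨0,
    9, 0, 4⟩))

theorem okE8A : chkT cEm cEm TE8A (160, 0) (160, 128000)
    dum nt8 nA = true := by
  decide +kernel

theorem hiE8A {R z k : ℂ} (hR : R.re = r0) (hi : |R.im| ≤ 4) (hz : z ∈ Poly (vt .t8))
    (hk : conj k ∈ Poly pA) : k ^ 2 * (z ^ 2 * (R ^ 2 + 1) - 1) - z ^ 2 ≠ 0 := by
  have h := hinge_use rpEm rpEm okE8A hR hi zero_dum (rgt8 hz) (rgA hk)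
  rw [or_self, evEm (mr_false z) (mr_true k)] at h
  exact fun h0 => h (by rw [h0, mul_zero])

/-- tree -/
def TE8S : CT := .seg (160, 64000) (.rel1 [(12800, 0), (16000, 0), (12800, 8000)] (.rel2 [(8000,
    0), (16000, 0), (13020, 11922), (8000, 7680)] (.leaf ⟨0, 3, 9, 0⟩))) (.rel1 [(12800, 0),
    (16000, 0), (12800, 8000)] (.rel2 [(8000, 0), (16000, 0), (13020, 11922), (8000, 7680)] (.leaf
    ⟨0, 3, 9, 0⟩)))

theorem okE8S : chkT cEn cEn TE8S (160, 0) (160, 128000)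
    dum nt8 nS = true := by
  decide +kernel

theorem hiE8S {R z k : ℂ} (hR : R.re = r0) (hi : |R.im| ≤ 4) (hz : z ∈ Poly (vt .t8))
    (hk : k ∈ Poly pS) : k ^ 2 * (z ^ 2 * (R ^ 2 + 1) - 1) - z ^ 2 ≠ 0 := by
  have h := hinge_use rpEn rpEn okE8S hR hi zero_dum (rgt8 hz) (rgS hk)
  rw [or_self, evEn (mr_false z) (mr_false k)] at h
  exact fun h0 => h (by rw [h0, mul_zero])

/-- tree -/
def TH : CT := .seg (160, 64000) (.rel0 [(13648, 2752), (14007, 6416), (12256, 6416), (7947,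
    2752)] (.rel1 [(6720, 0), (16000, 0), (13055, 11780), (6720, 7344)] (.rel2 [(8000, 0), (16000,
    0), (13020, 11922), (8000, 7680)] (.leaf ⟨30, 0, 2, 0⟩)))) (.cut0 true 4584 [(10544, 3472),
    (11552, 2752), (13648, 2752), (13792, 4224), (13698, 4584), (10544, 4584)] [(13698, 4584),
    (13216, 6416), (12256, 6416), (10544, 4960), (10544, 4584)] (.rel0 [(10544, 2752), (14177,
    2752), (13698, 4584), (10544, 4584)] (.rel1 [(6720, 0), (16000, 0), (13055, 11780), (6720,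
    7344)] (.rel2 [(8000, 0), (16000, 0), (8000, 32006)] (.leaf2 ⟨0, 9, 0, 4⟩)))) (.rel0 [(13698,
    4584), (13041, 7084), (10101, 4584)] (.rel1 [(12256, 0), (16000, 0), (12874, 12505), (4712,
    5363)] (.rel2 [(8000, 0), (16000, 0), (13020, 11922), (8000, 7680)] (.leaf ⟨3, 0, 10, 0⟩)))))

theorem okH : chkT cH1 cH2 TH (160, 0) (160, 128000)
    nt3as nA nS = true := by
  decide +kernel

theorem hiH {R z k l : ℂ} (hR : R.re = r0) (hi : |R.im| ≤ 4) (hz : z ∈ Poly (vt .t3as))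
    (hk : conj k ∈ Poly pA) (hl : l ∈ Poly pS) :
    l - k * (4 * z ^ 3 - 3 * z - Complex.I * R * (z * (4 * z ^ 2 - 1))) ≠ 0 ∨
      k ^ 2 * (z ^ 2 * (R ^ 2 + 1) - 1) - z ^ 2 ≠ 0 := by
  have h := hinge_use rpH1 rpH2 okH hR hi (rgt3as hz) (rgA hk) (rgS hl)
  rw [evH1 (mr_false z) (mr_true k) (mr_false l), evH2 (mr_false z) (mr_true k)] at h
  exact h.imp (fun h h0 => h (by rw [h0, mul_zero])) (fun h h0 => h (by rw [h0, mul_zero]))

end Pool.Agent.Work.MP_b30479_gt.G2.SC
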