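import Pool.Agent.Work.MP_b30479_gt.G2.S2Poly

/-!
# Plane geometry of the polygons

A point which is on the left of all edges is a convex combination of the vertices (fan
triangulation), affine functions are minimal at the vertices, a frontier point lies on an edge.
-/

namespace Pool.Agent.Work.MP_b30479_gt.G2

/-- the complex number of an integer point -/
noncomputable def zp (p : ℤ × ℤ) : ℂ := ⟨(p.1 : ℝ), (p.2 : ℝ)⟩

/-- cross product of `q - p` and `Z - p` -/
def xr (p q : ℤ × ℤ) (Z : ℂ) : ℝ :=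
  ((q.1 - p.1 : ℤ) : ℝ) * (Z.im - (p.2 : ℝ)) - ((q.2 - p.2 : ℤ) : ℝ) * (Z.re - (p.1 : ℝ))

/-- integer version -/
def xz (p q r : ℤ × ℤ) : ℤ := (q.1 - p.1) * (r.2 - p.2) - (q.2 - p.2) * (r.1 - p.1)

lemma xr_zp (p q r : ℤ × ℤ) : xr p q (zp r) = (xz p q r : ℝ) := by
  simp [xr, xz, zp]

lemma xr_neg (p q : ℤ × ℤ) (Z : ℂ) : xr q p Z = -xr p q Z := by
  simp only [xr]
  push_cast
  ring

/-- edges of a closed chain which ends at `v0` -/
def eds (v0 : ℤ × ℤ) : List (ℤ × ℤ) → List ((ℤ × ℤ) × (ℤ × ℤ))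
  | [] => []
  | [p] => [(p, v0)]
  | p :: q :: l => (p, q) :: eds v0 (q :: l)

lemma zip_eds (v0 : ℤ × ℤ) : ∀ (l : List (ℤ × ℤ)) (p : ℤ × ℤ),
    (p :: l).zip (l ++ [v0]) = eds v0 (p :: l) := by
  intro l
  induction l with
  | nil => intro p; rfl
  | cons q l ih =>
    intro p
    simp only [List.cons_append, List.zip_cons_cons, eds]
    rw [← ih q]

lemma edges_cons (v0 : ℤ × ℤ) (l : List (ℤ × ℤ)) : edges (v0 :: l) = eds v0 (v0 :: l) := by
  unfold edges
  rw [← zip_eds v0 l v0]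
  congr 1
  simp [List.rotate_cons_succ]

/-- closed polygon, in the units of the vertices -/
def PolyZ (V : List (ℤ × ℤ)) : Set ℂ := {Z | ∀ e ∈ edges V, 0 ≤ xr e.1 e.2 Z}

lemma cr_eq (p q : ℤ × ℤ) (z : ℂ) : cr p q z = xr p q (1000 * z) := by
  simp [cr, xr]

lemma mem_Poly {V : List (ℤ × ℤ)} {z : ℂ} : z ∈ Poly V ↔ (1000 * z : ℂ) ∈ PolyZ V := by
  simp only [Poly, PolyZ, Set.mem_ofPred_eq, cr_eq]

/-- the triangle statement -/
lemma tri_bary {p q r : ℤ × ℤ} {Z : ℂ} (ha : 0 < xz p q r) (h1 : 0 ≤ xr p q Z)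
    (h2 : 0 ≤ xr q r Z) (h3 : 0 ≤ xr r p Z) :
    ∃ u v w : ℝ, 0 ≤ u ∧ 0 ≤ v ∧ 0 ≤ w ∧ u + v + w = 1 ∧ Z = u * zp p + v * zp q + w * zp r := by
  have hA : (0 : ℝ) < (xz p q r : ℝ) := by exact_mod_cast ha
  set A : ℝ := (xz p q r : ℝ) with hAd
  have hs : xr q r Z + xr r p Z + xr p q Z = A := by
    simp only [hAd, xr, xz]
    push_cast
    ring
  refine ⟨xr q r Z / A, xr r p Z / A, xr p q Z / A, by positivity, by positivity, by positivity,
    ?_, ?_⟩
  · rw [← add_div, ← add_div, hs, div_self hA.ne']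
  · have hA' : A ≠ 0 := hA.ne'
    have e1 : A * Z.re = xr q r Z * p.1 + xr r p Z * q.1 + xr p q Z * r.1 := by
      simp only [hAd, xr, xz]
      push_cast
      ring
    have e2 : A * Z.im = xr q r Z * p.2 + xr r p Z * q.2 + xr p q Z * r.2 := by
      simp only [hAd, xr, xz]
      push_cast
      ring
    apply Complex.ext
    · simp only [Complex.add_re, Complex.mul_re, Complex.ofReal_re, Complex.ofReal_im, zero_mul,
        sub_zero, zp]
      field_simp
      linarith only [e1]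
    · simp only [Complex.add_im, Complex.mul_im, Complex.ofReal_re, Complex.ofReal_im, zero_mul,
        add_zero, zp]
      field_simp
      linarith only [e2]

/-- all triangles of the fan at `v0` have positive area -/
def areas (v0 : ℤ × ℤ) : List (ℤ × ℤ) → Bool
  | [] => true
  | [_] => true
  | p :: q :: l => decide (0 < xz v0 p q) && areas v0 (q :: l)

lemma fan_aux (v0 : ℤ × ℤ) {Z : ℂ} : ∀ (l : List (ℤ × ℤ)) (p : ℤ × ℤ),
    (∀ e ∈ eds v0 (p :: l), 0 ≤ xr e.1 e.2 Z) → 0 ≤ xr v0 p Z → l ≠ [] → areas v0 (p :: l) = true →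
    ∃ q ∈ p :: l, ∃ r ∈ p :: l, 0 < xz v0 q r ∧ 0 ≤ xr v0 q Z ∧ 0 ≤ xr q r Z ∧ 0 ≤ xr r v0 Z := by
  intro l
  induction l with
  | nil => intro p _ _ h; exact absurd rfl h
  | cons q l ih =>
    intro p he hp _ ha
    simp only [areas, Bool.and_eq_true, decide_eq_true_eq] at ha
    by_cases hq : 0 ≤ xr q v0 Z
    · exact ⟨p, by simp, q, by simp, ha.1, hp, he (p, q) (by simp [eds]), hq⟩
    · push Not at hq
      have hl : l ≠ [] := by
        rintro rfl
        have := he (q, v0) (by simp [eds])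
        exact absurd this (not_le.2 hq)
      obtain ⟨r, hr, s, hs, h⟩ := ih q (fun e hm => he e (by simp [eds, hm]))
        (by rw [xr_neg]; linarith only [hq]) hl ha.2
      exact ⟨r, List.mem_cons_of_mem _ hr, s, List.mem_cons_of_mem _ hs, h⟩

/-- every point of the polygon is a convex combination of three vertices -/
lemma poly_tri {v0 v1 v2 : ℤ × ℤ} {l : List (ℤ × ℤ)} (ha : areas v0 (v1 :: v2 :: l) = true) {Z : ℂ}
    (hZ : Z ∈ PolyZ (v0 :: v1 :: v2 :: l)) :
    ∃ q ∈ v1 :: v2 :: l, ∃ r ∈ v1 :: v2 :: l, ∃ u v w : ℝ, 0 ≤ u ∧ 0 ≤ v ∧ 0 ≤ w ∧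
      u + v + w = 1 ∧ Z = u * zp v0 + v * zp q + w * zp r := by
  simp only [PolyZ, Set.mem_ofPred_eq, edges_cons] at hZ
  obtain ⟨q, hq, r, hr, h1, h2, h3, h4⟩ := fan_aux v0 (v2 :: l) v1
    (fun e he => hZ e (by simp only [eds, List.mem_cons] at he ⊢; right; simpa using he))
    (hZ (v0, v1) (by simp [eds])) (by simp) ha
  exact ⟨q, hq, r, hr, tri_bary h1 h2 h3 h4⟩

/-- shape check of a vertex list -/
def shape : List (ℤ × ℤ) → Bool
  | v0 :: v1 :: v2 :: l => areas v0 (v1 :: v2 :: l)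
  | _ => false

/-- affine functions which are positive at the vertices are positive on the polygon -/
lemma poly_aff {V : List (ℤ × ℤ)} (hV : shape V = true) {Z : ℂ} (hZ : Z ∈ PolyZ V) {A : ℂ}
    {c : ℝ} (h : ∀ v ∈ V, 0 < (A * zp v).re + c) : 0 < (A * Z).re + c := by
  match V, hV with
  | v0 :: v1 :: v2 :: l, hV =>
    obtain ⟨q, hq, r, hr, u, v, w, hu, hv, hw, hs, rfl⟩ := poly_tri hV hZ
    have h0 := h v0 (by simp)
    have h1 := h q (List.mem_cons_of_mem _ hq)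
    have h2 := h r (List.mem_cons_of_mem _ hr)
    have e : (A * (u * zp v0 + v * zp q + w * zp r)).re + c =
        u * ((A * zp v0).re + c) + v * ((A * zp q).re + c) + w * ((A * zp r).re + c) := by
      have : c = (u + v + w) * c := by rw [hs, one_mul]
      conv_lhs => rw [this]
      simp only [Complex.mul_re, Complex.add_re, Complex.add_im, Complex.mul_im, Complex.ofReal_re,
        Complex.ofReal_im]
      ring
    rw [e]
    rcases eq_or_lt_of_le hu with hu0 | hu0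
    · rcases eq_or_lt_of_le hv with hv0 | hv0
      · have : w = 1 := by linarith only [hs, hu0, hv0, hu, hv]
        rw [← hu0, ← hv0, this]; linarith only [h2]
      · have := mul_pos hv0 h1
        have := mul_nonneg hw h2.le
        have := mul_nonneg hu h0.le
        linarith
    · have := mul_pos hu0 h0
      have := mul_nonneg hv h1.le
      have := mul_nonneg hw h2.le
      linarith

/-- nonnegative version -/
lemma poly_aff0 {V : List (ℤ × ℤ)} (hV : shape V = true) {Z : ℂ} (hZ : Z ∈ PolyZ V) {A : ℂ}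
    {c : ℝ} (h : ∀ v ∈ V, 0 ≤ (A * zp v).re + c) : 0 ≤ (A * Z).re + c := by
  by_contra hc
  push Not at hc
  have := poly_aff hV hZ (A := A) (c := c + (-((A * Z).re + c)) / 2)
    (fun v hv => by have := h v hv; linarith only [hc, this])
  linarith only [hc, this]

/-- cross products as affine functions -/
lemma xr_aff (p q : ℤ × ℤ) (Z : ℂ) :
    xr p q Z = ((⟨-((q.2 - p.2 : ℤ) : ℝ), -((q.1 - p.1 : ℤ) : ℝ)⟩ : ℂ) * Z).re +
      (((q.2 - p.2 : ℤ) : ℝ) * p.1 - ((q.1 - p.1 : ℤ) : ℝ) * p.2) := by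
  simp only [xr, Complex.mul_re]
  ring

/-- inclusion of polygons is checked at the vertices -/
lemma poly_sub {V W : List (ℤ × ℤ)} (hV : shape V = true)
    (h : ∀ v ∈ V, ∀ e ∈ edges W, 0 ≤ xz e.1 e.2 v) : PolyZ V ⊆ PolyZ W := by
  intro Z hZ e he
  rw [xr_aff]
  refine poly_aff0 hV hZ fun v hv => ?_
  rw [← xr_aff, xr_zp]
  exact_mod_cast h v hv e he

/-- the convexity check used for frontier points: every edge has a predecessor and a successor which
turn left -/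
def cvx (V : List (ℤ × ℤ)) : Prop :=
  ∀ e ∈ edges V, (∃ d ∈ edges V, d.2 = e.1 ∧ 0 < xz d.1 d.2 e.2) ∧
    ∃ f ∈ edges V, f.1 = e.2 ∧ 0 < xz e.1 e.2 f.2

instance (V : List (ℤ × ℤ)) : Decidable (cvx V) := by unfold cvx; infer_instance

/-- a point of the polygon on the line of an edge lies on the edge -/
lemma on_edge {V : List (ℤ × ℤ)} (hV : cvx V) {Z : ℂ} (hZ : Z ∈ PolyZ V)
    {e : (ℤ × ℤ) × (ℤ × ℤ)} (he : e ∈ edges V) (h0 : xr e.1 e.2 Z = 0) :
    ∃ s t : ℝ, 0 ≤ s ∧ 0 ≤ t ∧ s + t = 1 ∧ Z = s * zp e.1 + t * zp e.2 := by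
  obtain ⟨⟨d, hd, hde, hdp⟩, ⟨f, hf, hfe, hfp⟩⟩ := hV e he
  obtain ⟨p, q⟩ := e
  obtain ⟨d1, d2⟩ := d
  obtain ⟨f1, f2⟩ := f
  simp only at hde hfe hdp hfp h0
  subst hde hfe
  have h1 := hZ _ hd
  have h2 := hZ _ hf
  simp only at h1 h2
  -- the direction of the edge is not zero
  have hne : (0 : ℝ) < ((f1.1 - d2.1 : ℤ) : ℝ) ^ 2 + ((f1.2 - d2.2 : ℤ) : ℝ) ^ 2 := by
    by_contra hc
    push Not at hc
    have q1 := sq_nonneg (((f1.1 - d2.1 : ℤ) : ℝ))
    have q2 := sq_nonneg (((f1.2 - d2.2 : ℤ) : ℝ))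
    have ha : ((f1.1 - d2.1 : ℤ) : ℝ) = 0 := by
      rw [← sq_eq_zero_iff]
      linarith only [q1, hc, q2]
    have hb : ((f1.2 - d2.2 : ℤ) : ℝ) = 0 := by
      rw [← sq_eq_zero_iff]
      linarith only [q2, hc, q1]
    have ha' : f1.1 - d2.1 = 0 := by exact_mod_cast ha
    have hb' : f1.2 - d2.2 = 0 := by exact_mod_cast hb
    have hx : xz d2 f1 f2 = 0 := by
      unfold xz
      rw [ha', hb', zero_mul, zero_mul, sub_zero]
    rw [hx] at hfp
    exact lt_irrefl _ hfp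
  set N : ℝ := ((f1.1 - d2.1 : ℤ) : ℝ) ^ 2 + ((f1.2 - d2.2 : ℤ) : ℝ) ^ 2 with hN
  set t : ℝ := (((f1.1 - d2.1 : ℤ) : ℝ) * (Z.re - d2.1) + ((f1.2 - d2.2 : ℤ) : ℝ) * (Z.im - d2.2)) / N
    with ht
  have hNt : N * t = ((f1.1 - d2.1 : ℤ) : ℝ) * (Z.re - d2.1) +
      ((f1.2 - d2.2 : ℤ) : ℝ) * (Z.im - d2.2) := by rw [ht]; field_simp
  have hre : Z.re = d2.1 + t * ((f1.1 - d2.1 : ℤ) : ℝ) := by
    have : N * (Z.re - d2.1 - t * ((f1.1 - d2.1 : ℤ) : ℝ)) = 0 := by
      have h0' := h0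
      simp only [xr] at h0'
      linear_combination (-((f1.1 - d2.1 : ℤ) : ℝ)) * hNt - ((f1.2 - d2.2 : ℤ) : ℝ) * h0'
    rcases mul_eq_zero.1 this with h | h
    · exact absurd h hne.ne'
    · linarith only [h]
  have him : Z.im = d2.2 + t * ((f1.2 - d2.2 : ℤ) : ℝ) := by
    have : N * (Z.im - d2.2 - t * ((f1.2 - d2.2 : ℤ) : ℝ)) = 0 := by
      have h0' := h0
      simp only [xr] at h0'
      linear_combination (-((f1.2 - d2.2 : ℤ) : ℝ)) * hNt + ((f1.1 - d2.1 : ℤ) : ℝ) * h0'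
    rcases mul_eq_zero.1 this with h | h
    · exact absurd h hne.ne'
    · linarith only [h]
  have ht0 : 0 ≤ t := by
    have e1 : xr d1 d2 Z = t * (xz d1 d2 f1 : ℝ) := by
      simp only [xr, xz, hre, him]
      push_cast
      ring
    rw [e1] at h1
    have : (0 : ℝ) < (xz d1 d2 f1 : ℝ) := by exact_mod_cast hdp
    by_contra hc
    push Not at hc
    nlinarith only [h1, this, hc]
  have ht1 : 0 ≤ 1 - t := by
    have e1 : xr f1 f2 Z = (1 - t) * (xz d2 f1 f2 : ℝ) := by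
      simp only [xr, xz, hre, him]
      push_cast
      ring
    rw [e1] at h2
    have : (0 : ℝ) < (xz d2 f1 f2 : ℝ) := by exact_mod_cast hfp
    by_contra hc
    push Not at hc
    nlinarith only [h2, this, hc]
  refine ⟨1 - t, t, ht1, ht0, by ring, ?_⟩
  apply Complex.ext
  · simp only [Complex.add_re, Complex.mul_re, Complex.ofReal_re, Complex.ofReal_im, zero_mul,
      sub_zero, zp, Complex.sub_re, Complex.one_re, Complex.ofReal_sub, Complex.ofReal_one,
      Complex.sub_im, Complex.one_im]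
    rw [hre]; push_cast; ring
  · simp only [Complex.add_im, Complex.mul_im, Complex.ofReal_re, Complex.ofReal_im, zero_mul,
      zp, Complex.sub_re, Complex.one_re, Complex.ofReal_sub, Complex.ofReal_one,
      Complex.sub_im, Complex.one_im]
    rw [him]; push_cast; ring

end Pool.Agent.Work.MP_b30479_gt.G2
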