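import Pool.Agent.Work.MP_b30479_gt.G2.WMid
import Pool.Agent.Work.MP_b30479_gt.G2.MLN

/-!
# The left ramp of the hinge at slot `2` of an inner digit `3`: rows with certificates

The side is the one of a digit `2` whose partner is the inner variable.  Variables `x`, `μ`:
position and slope of the own hinge, `y`, `k`: position and height of the inner variable.
-/

namespace Pool.Agent.Work.MP_b30479_gt.G2

open Real Set VOL NumI

/-- on a vertical line `HH` decreases below a point where the derivative is not positive -/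
theorem HH_anti {a b b1 : ℝ} (m : ℝ) (h0 : 0 < a) (h1 : a < 1) (hb : b ≤ b1)
    (hc : exp (2 * π * b1) ≤ cos (2 * π * a) + m * sin (2 * π * a)) :
    HH a b1 m ≤ HH a b m := by
  have hpi := pi_pos
  have hanti : AntitoneOn (fun b => HH a b m) (Iic b1) := by
    apply antitoneOn_of_deriv_nonpos (convex_Iic b1)
    · exact fun z _ => (hasDerivAt_HH m h0 h1).continuousAt.continuousWithinAt
    · exact fun z _ => (hasDerivAt_HH m h0 h1).differentiableAt.differentiableWithinAt
    · intro z hz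
      rw [interior_Iic] at hz
      rw [(hasDerivAt_HH m h0 h1).deriv]
      have hp := cosh_sub_cos_pos (u := lv a z) (sin_ne_of_strip (lv_strip z h0 h1))
      unfold SS CC
      rw [lv_re, lv_im] at *
      have hz' : z ≤ b1 := le_of_lt hz
      have e1 : exp (2 * π * z) ≤ exp (2 * π * b1) :=
        exp_le_exp.2 (mul_le_mul_of_nonneg_left hz' (by positivity))
      have e2 : exp (2 * π * z) = cosh (2 * π * z) + sinh (2 * π * z) := (cosh_add_sinh _).symm
      have e3 : π * (sinh (2 * π * z) / (cosh (2 * π * z) - cos (2 * π * a))) + π -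
          m * (π * (sin (2 * π * a) / (cosh (2 * π * z) - cos (2 * π * a)))) =
          π * ((cosh (2 * π * z) + sinh (2 * π * z) - (cos (2 * π * a) + m * sin (2 * π * a))) /
            (cosh (2 * π * z) - cos (2 * π * a))) := by
        have hne := hp.ne'
        rw [show cosh (2 * π * z) + sinh (2 * π * z) - (cos (2 * π * a) + m * sin (2 * π * a)) =
          sinh (2 * π * z) + (cosh (2 * π * z) - cos (2 * π * a)) - m * sin (2 * π * a) by ring]
        generalize cosh (2 * π * z) - cos (2 * π * a) = D at hne hp ⊢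
        field_simp
      rw [e3]
      apply mul_nonpos_of_nonneg_of_nonpos hpi.le
      apply div_nonpos_of_nonpos_of_nonneg _ hp.le
      rw [← e2]
      linarith only [hc, e1]
  exact hanti hb self_mem_Iic hb

namespace ML

open E

/-- the condition of monotonicity below `k` -/
def rC' (k : E) : E :=
  lt (mul (q 2 1) (add (var 0) (var 2)))
   (sub (add (cosPi (var 3)) (mul (var 1) (sinPi (var 3))))
     (E.exp (mul (mul (q 2 1) E.pi) (add (mul (var 0) (var 1)) k))))

/-- the clauses of a row: partner at height between `ka` and `kb`, bound `e / 1000`, escape `F` -/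
def rowS (c : E) (e : ℤ) (ka kb F : E) : List (List E) :=
  [[sub (rF 2 c ka) (q e 1000), rC ka],
   [sub (rF 2 c kb) (q e 1000), rC' kb],
   [sub (q 1 2) (add (var 0) (var 2)), sub (rL 2 c) (q e 1000)],
   [sub (add (var 0) (var 2)) (q 1 2), sub (rP 2 c) (q e 1000)],
   [F, sub (var 2) (q 1 2)]]

/-- no escape -/
def fN0 : E := q (-1) 1

/-- height `a / 1000` -/
def kQ (a : ℤ) : E := q a 1000

/-- height `a / 1000 * 20 * (8 / 10 - y)` -/
def kR (a : ℤ) : E := mul (q (20 * a) 1000) (sub (q 8 10) (var 2))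

/-- height `a / 1000 * 20 * y` -/
def kL (a : ℤ) : E := mul (q (20 * a) 1000) (var 2)

variable {p ca cb e m0 m1 x0 x1 y0 y1 : ℤ} {x μ y k κa κb : ℝ} {ka kb F : E} {T : Tr}

theorem rC'_val (kk : E) (x μ y κ : ℝ) (hk : kk.val [x, μ, y, 2 * (x + y)] = κ)
    (h : 0 < (rC' kk).val [x, μ, y]) :
    Real.exp (2 * π * (x * μ + κ)) ≤ cos (2 * π * (x + y)) + μ * sin (2 * π * (x + y)) := by
  unfold rC' at h
  simp only [val, lkR_zero, lkR_succ, List.cons_append, List.nil_append] at h
  push_cast at h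
  norm_num at h
  rw [hk] at h
  have e1 : π * (2 * (x + y)) = 2 * π * (x + y) := by ring
  rw [e1] at h
  linarith only [h]

theorem S2_sd0 {x μ y k : ℝ} (c : ℝ) (hx : 0 < x) (hy : 0 ≤ y) (hs : x + y < 1) :
    S2 1 μ (lv x (x * μ)) (lv y k) + c * μ = sd 2 c x μ y k := by
  unfold S2 sd HH NN
  rw [lv_add, LL_lv _ (by linarith only [hx, hy]) hs, LL_lv _ hx (by linarith only [hy, hs]), YY_lv _ (by linarith only [hx, hy]) hs,
    YY_lv _ hx (by linarith only [hy, hs]), lv_re, lv_im, lv_re, lv_im]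
  push_cast
  ring

theorem sd_mono0 {j : ℕ} (c : ℝ) (hx : 0 < x) (hy : 0 ≤ y) (hs : x + y < 1) {κ : ℝ} (hk : κ ≤ k)
    (h : cos (2 * π * (x + y)) + μ * sin (2 * π * (x + y)) ≤ Real.exp (2 * π * (x * μ + κ))) :
    sd j c x μ y κ ≤ sd j c x μ y k := by
  unfold sd
  have := HH_mono μ (by linarith only [hx, hy]) hs (show x * μ + κ ≤ x * μ + k by linarith only [hk]) h
  linarith only [this]

theorem sd_anti {j : ℕ} (c : ℝ) (hx : 0 < x) (hy : 0 ≤ y) (hs : x + y < 1) {κ : ℝ} (hk : k ≤ κ)
    (h : Real.exp (2 * π * (x * μ + κ)) ≤ cos (2 * π * (x + y)) + μ * sin (2 * π * (x + y))) :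
    sd j c x μ y κ ≤ sd j c x μ y k := by
  unfold sd
  have := HH_anti μ (by linarith only [hx, hy]) hs (show x * μ + k ≤ x * μ + κ by linarith only [hk]) h
  linarith only [this]

/-- the expression `kk` is the function `κ` of `x μ y` -/
def IsK (kk : E) (x μ y κ : ℝ) : Prop := ∀ t : List ℝ, kk.val (x :: μ :: y :: t) = κ

theorem isK_Q (a : ℤ) (x μ y : ℝ) : IsK (kQ a) x μ y ((a : ℝ) / 1000) := by
  intro t
  simp only [kQ, val]
  push_cast
  rfl

theorem isK_R (a : ℤ) (x μ y : ℝ) : IsK (kR a) x μ y ((a : ℝ) / 1000 * (20 * (8 / 10 - y))) := by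
  intro t
  simp only [kR, val, lkR_zero, lkR_succ]
  push_cast
  ring

theorem isK_L (a : ℤ) (x μ y : ℝ) : IsK (kL a) x μ y ((a : ℝ) / 1000 * (20 * y)) := by
  intro t
  simp only [kL, val, lkR_zero, lkR_succ]
  push_cast
  ring

/-- **Soundness of a row.** -/
theorem rowS_of (h : runT (rowS (cE p ca cb) e ka kb F) T (bx x0 x1 m0 m1 y0 y1) = true)
    (hx : (x0 : ℝ) / 1000 ≤ x ∧ x ≤ (x1 : ℝ) / 1000)
    (hm : (m0 : ℝ) / 10000 ≤ μ ∧ μ ≤ (m1 : ℝ) / 10000)
    (hy : (y0 : ℝ) / 1000 ≤ y ∧ y ≤ (y1 : ℝ) / 1000)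
    (h0 : 0 < x) (h0' : 0 ≤ y) (hs : x + y < 1) (ha : IsK ka x μ y κa) (hb : IsK kb x μ y κb)
    (hka : κa ≤ k) (hkb : k ≤ κb) :
    (e : ℝ) / 1000 < sd 2 (cR p ca cb x) x μ y k ∨ (0 < F.val [x, μ, y] ∧ 1 / 2 < y) := by
  obtain ⟨cl, hcl, hp⟩ := runT3 h (by norm_num) (rg hx.1) (rg' hx.2) (rm hm.1) (rm' hm.2)
    (rg hy.1) (rg' hy.2)
  simp only [rowS, List.mem_cons, List.not_mem_nil, or_false] at hcl
  rcases hcl with rfl | rfl | rfl | rfl | rfl
  · left
    have h1 := hp _ List.mem_cons_self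
    have h2 := hp _ (List.mem_cons_of_mem _ List.mem_cons_self)
    rw [E.val, rF_val _ x μ y κa (Or.inr rfl) (ha _) (ha _)] at h1
    have h3 := rC_val _ x μ y κa (ha _) h2
    simp only [val] at h1
    push_cast at h1
    have h4 := sd_mono0 (j := 2) (cR p ca cb x) h0 h0' hs hka h3
    linarith only [h1, h4]
  · left
    have h1 := hp _ List.mem_cons_self
    have h2 := hp _ (List.mem_cons_of_mem _ List.mem_cons_self)
    rw [E.val, rF_val _ x μ y κb (Or.inr rfl) (hb _) (hb _)] at h1
    have h3 := rC'_val _ x μ y κb (hb _) h2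
    simp only [val] at h1
    push_cast at h1
    have h4 := sd_anti (j := 2) (cR p ca cb x) h0 h0' hs hkb h3
    linarith only [h1, h4]
  · left
    have h1 := hp _ List.mem_cons_self
    have h2 := hp _ (List.mem_cons_of_mem _ List.mem_cons_self)
    rw [E.val, rL_val x μ y (Or.inr rfl)] at h2
    simp only [val, lkR_zero, lkR_succ] at h1 h2
    push_cast at h1 h2
    have h3 := HH_low (a := x + y) (x * μ + k) μ (by linarith only [h0, h0']) (by linarith only [h1])
    unfold sd
    push_cast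
    linarith only [h2, h3]
  · left
    have h1 := hp _ List.mem_cons_self
    have h2 := hp _ (List.mem_cons_of_mem _ List.mem_cons_self)
    rw [E.val, rP_val x μ y (Or.inr rfl)] at h2
    simp only [val, lkR_zero, lkR_succ] at h1 h2
    push_cast at h1 h2
    have h3 := HH_low' (a := x + y) (x * μ + k) μ (by linarith only [h1]) hs
    unfold sd
    push_cast
    linarith only [h2, h3]
  · right
    have h1 := hp _ List.mem_cons_self
    have h2 := hp _ (List.mem_cons_of_mem _ List.mem_cons_self)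
    simp only [val, lkR_zero, lkR_succ] at h2
    push_cast at h2
    exact ⟨h1, by linarith only [h2]⟩

/-- **Soundness of a row at the wall.** -/
theorem rowW_of {a : ℤ} (h : runT (rowN 2 (cE p ca cb) e a) T
      (bx 0 20 m0 m1 y0 y1) = true) (h0 : 0 < x) (h1 : x ≤ 1 / 50) (hμ : |μ| ≤ 132 / 100)
    (hm : (m0 : ℝ) / 10000 ≤ μ ∧ μ ≤ (m1 : ℝ) / 10000)
    (hy : (y0 : ℝ) / 1000 ≤ y ∧ y ≤ (y1 : ℝ) / 1000)
    (h0' : 0 ≤ y) (hs : x + y < 1) (ha : (a : ℝ) / 1000 ≤ k) :
    (e : ℝ) / 1000 < sd 2 (cR p ca cb x) x μ y k := by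
  obtain ⟨cl, hcl, hp⟩ := runT3 h (by norm_num) (rg (p := 0) (z := x) (by push_cast; linarith only [h0]))
    (rg' (p := 20) (z := x) (by push_cast; linarith only [h1])) (rm hm.1) (rm' hm.2) (rg hy.1) (rg' hy.2)
  have hw := sd_wall (y := y) (k := k) (j := 2) (Or.inr rfl) h0 h1 hμ (cR p ca cb x)
  simp only [rowN, List.mem_cons, List.not_mem_nil, or_false] at hcl
  rcases hcl with rfl | rfl | rfl | rfl
  · have p1 := hp _ List.mem_cons_self
    have p2 := hp _ (List.mem_cons_of_mem _ List.mem_cons_self)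
    simp only [nS, val, lkR_zero, lkR_succ, cE_val, nW_val] at p1 p2
    push_cast at p1
    have h2 := NN_le h0 h1 hμ
    have h3 := log_two_pi_le h0 h1
    have h4 := g0_nonpos μ
    have h5 := sin_short h0 h1 h0' (by linarith only [p1])
    have h6 := HH_low (a := x + y) (x * μ + k) μ (by linarith only [h0, h0']) (by linarith only [h0, h1, p1])
    have e1 : 2 * π * (x + y) = π * (2 * (x + y)) := by ring
    rw [e1] at h6
    have e2 : π * (((2 : ℤ) : ℝ) / ((1 : ℕ) : ℝ) * (y + ((1 : ℤ) : ℝ) / ((50 : ℕ) : ℝ))) =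
        π * (2 * (y + 1 / 50)) := by push_cast; ring
    rw [e2] at p2
    unfold sd
    push_cast at p2 ⊢
    linarith only [h2, h3, h4, h5, h6, p2]
  · have p0 := hp _ List.mem_cons_self
    exfalso
    simp only [val] at p0
    norm_num at p0
  · have p1 := hp _ List.mem_cons_self
    have p2 := hp _ (List.mem_cons_of_mem _ List.mem_cons_self)
    simp only [nF, val, lkR_zero, lkR_succ, List.cons_append, List.nil_append, cE_val, nW_val] at p1
    have h3 := rC_val _ x μ y ((a : ℝ) / 1000) (by simp [val]) p2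
    have h4 := sd_mono0 (j := 2) (cR p ca cb x) h0 h0' hs ha h3
    have h7 := sd_wall (y := y) (k := (a : ℝ) / 1000) (j := 2) (Or.inr rfl) h0 h1 hμ
      (cR p ca cb x)
    unfold HH at h7
    push_cast at p1 h7 h4 ⊢
    linarith only [h4, h7, p1]
  · have p1 := hp _ List.mem_cons_self
    have p2 := hp _ (List.mem_cons_of_mem _ List.mem_cons_self)
    simp only [nP, val, lkR_zero, lkR_succ, cE_val, nW_val] at p1 p2
    push_cast at p1
    have h2 := NN_le h0 h1 hμ
    have h3 := log_two_pi_le h0 h1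
    have h4 := g0_nonpos μ
    have h6 := HH_low' (a := x + y) (x * μ + k) μ (by linarith only [p1]) hs
    have e2 : π * (((2 : ℤ) : ℝ) / ((1 : ℕ) : ℝ) * (((1 : ℤ) : ℝ) / ((1 : ℕ) : ℝ) - (x + y))) =
        2 * π * (1 - (x + y)) := by push_cast; ring
    rw [e2] at p2
    unfold sd
    push_cast at p2 ⊢
    linarith only [h2, h3, h4, h6, p2]

/-! ### the escape: first-order condition of the inner variable on its level part -/

/-- `SM 0 < 0` at height `a / 1000` of the inner variable, slot `0` hinge at most `um / 100`, height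
of the slot `0` hinge at least `-Tm / 10000` -/
def fF (a um Tm : ℤ) : E :=
  lt (mul (var 0) (var 1)) (lt (add (var 0) (var 2))
   (sub (sub (add (E.log (mul (q 2 1) (sinPi (sub (var 2) (q um 100)))))
        (E.lnA (var 2) (q a 1000))) (E.lnA (var 4) (add (var 3) (q a 1000))))
      (mul E.pi (sub (add (var 3) (q Tm 10000)) (q a 1000)))))

theorem fF_val (a um Tm : ℤ) (x μ y : ℝ) : (fF a um Tm).val [x, μ, y] =
    Real.log (2 * sin (π * (y - um / 100))) + NumI.lnA y (a / 1000) - NumI.lnA (x + y) (x * μ + a / 1000) -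
      π * (x * μ + Tm / 10000 - a / 1000) := by
  unfold fF
  simp only [val, lkR_zero, lkR_succ, List.cons_append, List.nil_append]
  push_cast
  rw [show (2 : ℝ) / 1 = 2 by norm_num]

theorem lnA_abs {x s t : ℝ} (h : |s| ≤ |t|) (hs : s ≠ 0 ∨ 0 < sin (π * x)) : NumI.lnA x s ≤ NumI.lnA x t := by
  unfold NumI.lnA
  have h1 : sinh (π * s) ^ 2 ≤ sinh (π * t) ^ 2 := by
    rw [sq_le_sq, abs_sinh, abs_sinh, sinh_le_sinh, abs_mul, abs_mul]
    exact mul_le_mul_of_nonneg_left h (abs_nonneg _)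
  have h2 : 0 < sin (π * x) ^ 2 + sinh (π * s) ^ 2 := by
    rcases hs with hs | hs
    · have : sinh (π * s) ≠ 0 := by
        rw [Ne, sinh_eq_zero]
        exact mul_ne_zero pi_pos.ne' hs
      positivity
    · positivity
  apply div_le_div_of_nonneg_right _ (by norm_num)
  apply Real.log_le_log (by positivity)
  linarith only [h1]

theorem log_sin_le_lnA {x : ℝ} (t : ℝ) (h0 : 0 < x) (h1 : x < 1) :
    Real.log (2 * sin (π * x)) ≤ NumI.lnA x t := by
  have hs : 0 < sin (π * x) := sin_pos_of_pos_of_lt_pi (by positivity) (by nlinarith only [h1, pi_pos])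
  have e : Real.log (2 * sin (π * x)) = Real.log (4 * sin (π * x) ^ 2) / 2 := by
    rw [show 4 * sin (π * x) ^ 2 = (2 * sin (π * x)) ^ 2 by ring, Real.log_pow]
    push_cast
    ring
  rw [e]
  unfold NumI.lnA
  apply div_le_div_of_nonneg_right _ (by norm_num)
  apply Real.log_le_log (by positivity)
  nlinarith only [sq_nonneg (sinh (π * t))]

theorem sin_le_of_mid {z0 z : ℝ} (h0 : 0 ≤ z0) (h1 : z0 ≤ z) (h2 : z ≤ π - z0) (_ : z0 ≤ π / 2) :
    sin z0 ≤ sin z := by
  rcases le_total z (π / 2) with h | h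
  · exact sin_le_sin_of_le_of_le_pi_div_two (by linarith only [h0, h1, h2, pi_pos]) h h1
  · rw [← sin_pi_sub z]
    exact sin_le_sin_of_le_of_le_pi_div_two (by linarith only [h0, h1, h2, pi_pos]) (by linarith only [h]) (by linarith only [h2])

theorem SM_neg {u : ℂ} {a um Tm : ℤ} (hf : 0 < (fF a um Tm).val [x, μ, y])
    (hu0 : 7 / 100 ≤ u.re) (hu1 : u.re ≤ (um : ℝ) / 100) (hT : -((Tm : ℝ) / 10000) ≤ u.im)
    (hy0 : 1 / 4 ≤ y) (hy1 : y ≤ 3 / 4) (hum : (um : ℝ) / 100 < y)
    (h2 : 2 * y ≤ 107 / 100 + (um : ℝ) / 100) (h0 : 0 < x) (hs : x + y < 1)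
    (ha : (a : ℝ) / 1000 ≤ k) (hab : |x * μ + k| ≤ |x * μ + (a : ℝ) / 1000|) :
    SM 0 u (lv y k) (lv x (x * μ)) < 0 := by
  have hpi := pi_pos
  rw [fF_val] at hf
  have k1 : NumI.lnA (x + y) (x * μ + k) ≤ NumI.lnA (x + y) (x * μ + a / 1000) :=
    lnA_abs hab (Or.inr (sin_pos_of_pos_of_lt_pi (by positivity) (by nlinarith only [hs, hpi])))
  have k2 : HH y ((a : ℝ) / 1000) 0 ≤ HH y k 0 := by
    apply HH_mono 0 (by linarith only [hy0, h0, hs]) (by linarith only [h0, hs]) ha
    have : cos (2 * π * y) ≤ 0 := by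
      apply cos_nonpos_of_pi_div_two_le_of_le <;> nlinarith only [hy0, hpi, hy1]
    have := exp_pos (2 * π * ((a : ℝ) / 1000))
    linarith
  unfold HH at k2
  have k3 : Real.log (2 * sin (π * (y - um / 100))) ≤ LL (lv y k - u) := by
    have hst : lv y k - u ∈ strip := by
      constructor <;> rw [Complex.sub_re, lv_re] <;> linarith only [hu1, hum, hu0, hy0, h0, hs]
    have e : LL (lv y k - u) = NumI.lnA (y - u.re) (k - u.im) := by
      rw [Num.LL_lnA hst, Complex.sub_re, Complex.sub_im, lv_re, lv_im]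
    rw [e]
    refine le_trans ?_ (log_sin_le_lnA (k - u.im) (by linarith only [hu1, hum]) (by linarith only [hu0, hy0, h0, hs]))
    have h3 : 0 < sin (π * (y - um / 100)) :=
      sin_pos_of_pos_of_lt_pi (mul_pos hpi (by linarith only [hum])) (by nlinarith only [hpi, hu0, hu1, hy1])
    apply Real.log_le_log (by positivity)
    apply mul_le_mul_of_nonneg_left _ (by norm_num)
    apply sin_le_of_mid
    · apply mul_nonneg hpi.le; linarith only [hum]
    · apply mul_le_mul_of_nonneg_left _ hpi.le; linarith only [hu1]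
    · nlinarith only [hu0, hpi, h2]
    · nlinarith only [hu0, hpi, hu1, h2]
  have e1 : LL (lv y k + lv x (x * μ)) = NumI.lnA (x + y) (x * μ + k) := by
    rw [add_comm (lv y k), lv_add, LL_lv _ (by linarith only [hy0, h0, hs]) hs]
  unfold SM
  rw [e1, LL_lv k (by linarith only [hy0, h0, hs]) (by linarith only [h0, hs]), lv_im, lv_im, zero_mul, add_zero]
  have h4 : π * (-((Tm : ℝ) / 10000)) ≤ π * u.im := mul_le_mul_of_nonneg_left hT hpi.le
  linarith only [hf, k1, k2, k3, h4]

end ML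

end Pool.Agent.Work.MP_b30479_gt.G2
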