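import Pool.Agent.Work.MP_b30479_gt.G2.V3MidRC
import Pool.Agent.Work.NumU.Tree
import Pool.Agent.Work.MP_b30479_gt.G2.V3MidRF

/-!
# The left ramp of the hinge at slot `2` of an inner digit `3`: the inner variable on its right ramp

The side `SM` along the slope `-20 t` is negative.
-/

set_option linter.unusedSimpArgs false

namespace Pool.Agent.Work.MP_b30479_gt.G2

open VOL NumU

namespace VN

variable {u v w : ℂ} {T t r x μ : ℝ}

/-- the part with `u`, level part of the hinge -/
theorem sA1 (h1 : v.re = r) (h2 : v.im = 20 * t * (8 / 10 - r)) (hx : 700 / 10000 ≤ u.re)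
    (hx' : u.re ≤ 5000 / 10000) (hT : -1145 / 10000 ≤ u.im) (hT' : u.im ≤ 570 / 10000)
    (ht : -1250 / 10000 ≤ t) (ht' : t ≤ 50 / 10000) (hr : 75 / 100 ≤ r) (hr' : r ≤ 80 / 100) :
    GA (-(20 * t)) u v < 500 / 10000 := by
  have h : chkT [eGA (E.q (500) 10000) (E.var 0) (E.var 1) (E.var 2) (E.var 3)] 24
      4649046721869343568447748322026118669330503748824040623342472595486792553897730175059115178200334848
      [NumI.V.of 10000 700 5000, NumI.V.of 10000 (-1145) 570,
        NumI.V.of 10000 (-1250) 50, NumI.V.of 10000 0 500] = true := by decide +kernel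
  have hp := pos_of_chk (chkT4 h (by norm_num) (x := u.re) (y := u.im) (z := t)
    (w := 8 / 10 - r) (by push_cast; linarith only [hx]) (by push_cast; linarith only [hx']) (by push_cast; linarith only [hT])
    (by push_cast; linarith only [hT']) (by push_cast; linarith only [ht]) (by push_cast; linarith only [ht'])
    (by push_cast; linarith only [hr']) (by push_cast; linarith only [hr]))
  rw [eGA_val (t := t) (r := r) rfl rfl, val_q] at hp
  rw [GA_eq (by linarith only [h1, hx', hr]) (by linarith only [h1, hx, hr']), h1, h2]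
  simp only [E.val, NumI.lkR] at hp
  push_cast at hp
  linarith only [hp]

/-- the part with `u`, right ramp of the hinge -/
theorem sA2 (h1 : v.re = r) (h2 : v.im = 20 * t * (8 / 10 - r)) (hx : 5000 / 10000 ≤ u.re)
    (hx' : u.re ≤ 6500 / 10000) (hu : u.im = T * ((65 / 100 - u.re) / (15 / 100)))
    (hT : -1145 / 10000 ≤ T) (hT' : T ≤ -210 / 10000) (ht : -1250 / 10000 ≤ t)
    (ht' : t ≤ -50 / 10000) (hr : 75 / 100 ≤ r) (hr' : r ≤ 80 / 100) :
    GA (-(20 * t)) u v < 3200 / 10000 := by
  have h : chkT [eGA (E.q (3200) 10000) (E.var 0) (E.mul (E.var 1) (E.mul (E.q 20 3)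
      (E.sub (E.q 65 100) (E.var 0)))) (E.var 2) (E.var 3)] 24
      12437047852249538659401768585641529161097864052768
      [NumI.V.of 10000 5000 6500, NumI.V.of 10000 (-1145) (-210),
        NumI.V.of 10000 (-1250) (-50), NumI.V.of 10000 0 500] = true := by decide +kernel
  have hp := pos_of_chk (chkT4 h (by norm_num) (x := u.re) (y := T) (z := t)
    (w := 8 / 10 - r) (by push_cast; linarith only [hx]) (by push_cast; linarith only [hx']) (by push_cast; linarith only [hT])
    (by push_cast; linarith only [hT']) (by push_cast; linarith only [ht]) (by push_cast; linarith only [ht'])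
    (by push_cast; linarith only [hr']) (by push_cast; linarith only [hr]))
  rw [eGA_val (t := t) (r := r) rfl rfl, val_q] at hp
  rw [GA_eq (by linarith only [h1, hx', hr]) (by linarith only [h1, hx, hr']), h1, h2]
  have e : (E.mul (E.var 1) (E.mul (E.q 20 3) (E.sub (E.q 65 100) (E.var 0)))).val
      [u.re, T, t, 8 / 10 - r] = u.im := by
    rw [hu]
    simp only [E.val, NumI.lkR]
    push_cast
    ring
  rw [e] at hp
  simp only [E.val, NumI.lkR] at hp
  push_cast at hp
  linarith only [hp]

/-- the part with `u`, right ramp of the hinge, near the end of the path of `v` -/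
theorem sA3 (h1 : v.re = r) (h2 : v.im = 20 * t * (8 / 10 - r)) (hx : 5000 / 10000 ≤ u.re)
    (hx' : u.re ≤ 6500 / 10000) (hu : u.im = T * ((65 / 100 - u.re) / (15 / 100)))
    (hT : -1145 / 10000 ≤ T) (hT' : T ≤ -210 / 10000) (ht : -1250 / 10000 ≤ t)
    (ht' : t ≤ 50 / 10000) (hr : 78 / 100 ≤ r) (hr' : r ≤ 80 / 100) :
    GA (-(20 * t)) u v < 4700 / 10000 := by
  have h : chkT [eGA (E.q (4700) 10000) (E.var 0) (E.mul (E.var 1) (E.mul (E.q 20 3)
      (E.sub (E.q 65 100) (E.var 0)))) (E.var 2) (E.var 3)] 24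
      10282999169481130886309920
      [NumI.V.of 10000 5000 6500, NumI.V.of 10000 (-1145) (-210),
        NumI.V.of 10000 (-1250) 50, NumI.V.of 10000 0 200] = true := by decide +kernel
  have hp := pos_of_chk (chkT4 h (by norm_num) (x := u.re) (y := T) (z := t)
    (w := 8 / 10 - r) (by push_cast; linarith only [hx]) (by push_cast; linarith only [hx']) (by push_cast; linarith only [hT])
    (by push_cast; linarith only [hT']) (by push_cast; linarith only [ht]) (by push_cast; linarith only [ht'])
    (by push_cast; linarith only [hr']) (by push_cast; linarith only [hr]))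
  rw [eGA_val (t := t) (r := r) rfl rfl, val_q] at hp
  rw [GA_eq (by linarith only [h1, hx', hr]) (by linarith only [h1, hx, hr']), h1, h2]
  have e : (E.mul (E.var 1) (E.mul (E.q 20 3) (E.sub (E.q 65 100) (E.var 0)))).val
      [u.re, T, t, 8 / 10 - r] = u.im := by
    rw [hu]
    simp only [E.val, NumI.lkR]
    push_cast
    ring
  rw [e] at hp
  simp only [E.val, NumI.lkR] at hp
  push_cast at hp
  linarith only [hp]

/-- bound minus the parts with `w` and without hinge; variables `x μ t s`, `v = 8 / 10 - s + 20 t s i`,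
`w = x + x μ i` -/
def eBC (b : E) : E :=
  E.add (eGB b (E.add (er (E.var 3)) (E.var 0)) (E.var 0) (E.mul (E.var 0) (E.var 1))
    (E.var 2) (E.var 3) (E.q 0 1)) (eGC (E.q 0 1) (E.var 2) (E.var 3))

theorem sBC {b x0 x1 m0 m1 t0 t1 s1 : ℤ} {c : ℕ} (h : chkT [eBC (E.q b 10000)] 24 c
      [NumI.V.of 10000 x0 x1, NumI.V.of 10000 m0 m1, NumI.V.of 10000 t0 t1,
        NumI.V.of 10000 0 s1] = true)
    (h1 : v.re = r) (h2 : v.im = 20 * t * (8 / 10 - r)) (h3 : w.re = x) (h4 : w.im = x * μ)
    (hx : (x0 : ℝ) / 10000 ≤ x) (hx' : x ≤ (x1 : ℝ) / 10000) (hx0 : 0 < x) (hx1 : x < 2 / 10)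
    (hm : (m0 : ℝ) / 10000 ≤ μ) (hm' : μ ≤ (m1 : ℝ) / 10000)
    (ht : (t0 : ℝ) / 10000 ≤ t) (ht' : t ≤ (t1 : ℝ) / 10000)
    (hr : 8 / 10 - (s1 : ℝ) / 10000 ≤ r) (hr' : r ≤ 80 / 100) (hr0 : 75 / 100 ≤ r) :
    GB (-(20 * t)) v w + GC (-(20 * t)) v < (b : ℝ) / 10000 := by
  have hp := pos_of_chk (chkT4 h (by norm_num) (x := x) (y := μ) (z := t)
    (w := 8 / 10 - r) (by push_cast; linarith only [hx]) (by push_cast; linarith only [hx']) (by push_cast; linarith only [hm])
    (by push_cast; linarith only [hm']) (by push_cast; linarith only [ht]) (by push_cast; linarith only [ht'])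
    (by push_cast; linarith only [hr']) (by push_cast; linarith only [hr]))
  unfold eBC at hp
  rw [E.val, eGB_val (t := t) (r := r) rfl rfl, eGC_val (t := t) (r := r) rfl rfl, val_q] at hp
  have hv : v ∈ strip := ⟨by linarith only [h1, hx0, hx1, hr0], by linarith only [h1, hx0, hx1, hr']⟩
  rw [GB_eq (by linarith only [h1, h3, hx0, hx1, hr0]) (by linarith only [h1, h3, hx1, hr'])]
  unfold GC
  rw [Num.LL_lnA hv, Num.YY_lnB hv, h1, h2, h3, h4]
  simp only [E.val, NumI.lkR, er_val (r := r) (rfl : (E.var 3).val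
    [x, μ, t, 8 / 10 - r] = 8 / 10 - r)] at hp
  push_cast at hp
  norm_num at hp
  linarith only [hp]

theorem sBC_1 : chkT [eBC (E.q (-3300) 10000)] 24
      3076102030651675208963317014809462458880309574789836482974949981268230410363673571061326881692740343047446945807358444327387622663000731534036533253358871805937359143312967642998152115462016598330143740893320393743855071747
      [NumI.V.of 10000 700 1500, NumI.V.of 10000 (-7634) (-1400), NumI.V.of 10000 (-1230) (-150),
        NumI.V.of 10000 0 500] = true := by decide +kernel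

theorem sBC_2e : chkT [eBC (E.q (-3300) 10000)] 24
      3180972765244151673714869972079383586075552202105347
      [NumI.V.of 10000 700 1300, NumI.V.of 10000 (-7539) (-5846), NumI.V.of 10000 (-950) (-50),
        NumI.V.of 10000 0 500] = true := by decide +kernel

theorem sBC_r : chkT [eBC (E.q (-600) 10000)] 24
      82893469762224599177431158001921160184174585612158344068201816683925564633010900520704993785231205506282598928340574664728002148480971560157755032074957797806445856225082574808164071714920469033513627396093949276658537040994114895300747964121803693222374085620052767716841982445677533278243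
      [NumI.V.of 10000 700 1300, NumI.V.of 10000 (-4385) 4385, NumI.V.of 10000 (-1160) 50,
        NumI.V.of 10000 0 500] = true := by decide +kernel

theorem sBC_3e : chkT [eBC (E.q (-4800) 10000)] 24
      612915620857677858
      [NumI.V.of 10000 1000 1100, NumI.V.of 10000 (-2154) (-384), NumI.V.of 10000 (-1160) 50,
        NumI.V.of 10000 0 200] = true := by decide +kernel

/-- the hinge at slot `0`: between `7/100` and `65/100`, on its level part up to `1/2`, on its right
ramp beyond -/
structure U65 (u : ℂ) : Prop where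
  u0 : 7 / 100 ≤ u.re
  u1 : u.re ≤ 65 / 100
  lev : u.re ≤ 1 / 2 → -(1145 / 10000) ≤ u.im ∧ u.im ≤ 57 / 1000
  ramp : 1 / 2 < u.re → ∃ T : ℝ, u.im = T * ((65 / 100 - u.re) / (15 / 100)) ∧
    -(1145 / 10000) ≤ T ∧ T ≤ -(21 / 1000)

/-- the hinge at slot `0` at most `1/2` -/
structure U50 (u : ℂ) : Prop where
  u0 : 7 / 100 ≤ u.re
  u1 : u.re ≤ 1 / 2
  t0 : -(1145 / 10000) ≤ u.im
  t1 : u.im ≤ 57 / 1000

theorem U65.part (H : U65 u) (h1 : v.re = r) (h2 : v.im = 20 * t * (8 / 10 - r))
    (ht : -1250 / 10000 ≤ t) (ht' : t ≤ -50 / 10000) (hr : 75 / 100 ≤ r) (hr' : r ≤ 80 / 100) :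
    GA (-(20 * t)) u v < 3200 / 10000 := by
  rcases le_or_gt u.re (1 / 2) with h | h
  · obtain ⟨k1, k2⟩ := H.lev h
    have := sA1 (u := u) h1 h2 (by linarith only [H, H.u0]) (by linarith only [h]) (by linarith only [k1]) (by linarith only [k2]) ht
      (by linarith only [ht']) hr hr'
    linarith only [this]
  · obtain ⟨T, k1, k2, k3⟩ := H.ramp h
    exact sA2 h1 h2 (by linarith only [h]) (by linarith only [H, H.u1]) k1 (by linarith only [k2]) (by linarith only [k3]) ht ht' hr hr'

theorem U65.part' (H : U65 u) (h1 : v.re = r) (h2 : v.im = 20 * t * (8 / 10 - r))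
    (ht : -1250 / 10000 ≤ t) (ht' : t ≤ 50 / 10000) (hr : 78 / 100 ≤ r) (hr' : r ≤ 80 / 100) :
    GA (-(20 * t)) u v < 4700 / 10000 := by
  rcases le_or_gt u.re (1 / 2) with h | h
  · obtain ⟨k1, k2⟩ := H.lev h
    have := sA1 (u := u) h1 h2 (by linarith only [H, H.u0]) (by linarith only [h]) (by linarith only [k1]) (by linarith only [k2]) ht
      (by linarith only [ht']) (by linarith only [hr]) hr'
    linarith only [this]
  · obtain ⟨T, k1, k2, k3⟩ := H.ramp h
    exact sA3 h1 h2 (by linarith only [h]) (by linarith only [H, H.u1]) k1 (by linarith only [k2]) (by linarith only [k3]) ht ht' hr hr'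

/-- `K = 1` -/
theorem rr_1 (H : U65 u) (h1 : v.re = r) (h2 : v.im = 20 * t * (8 / 10 - r)) (h3 : w.re = x)
    (h4 : w.im = x * μ) (hx : 70 / 1000 ≤ x) (hx' : x ≤ 150 / 1000) (hm : -7634 / 10000 ≤ μ)
    (hm' : μ ≤ -1400 / 10000) (ht : -123 / 1000 ≤ t) (ht' : t ≤ -15 / 1000) (hr : 75 / 100 ≤ r)
    (hr' : r ≤ 80 / 100) : SM (-(20 * t)) u v w < 0 := by
  have a := H.part h1 h2 (by linarith only [ht]) (by linarith only [ht']) hr hr'
  have c := sBC sBC_1 h1 h2 h3 h4 (by push_cast; linarith only [hx]) (by push_cast; linarith only [hx']) (by linarith only [hx])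
    (by linarith only [hx']) (by push_cast; linarith only [hm]) (by push_cast; linarith only [hm']) (by push_cast; linarith only [ht])
    (by push_cast; linarith only [ht']) (by push_cast; linarith only [hr]) hr' hr
  push_cast at c
  rw [SM_split]
  linarith only [a, c]

/-- `K = 2e` -/
theorem rr_2e (H : U65 u) (h1 : v.re = r) (h2 : v.im = 20 * t * (8 / 10 - r)) (h3 : w.re = x)
    (h4 : w.im = x * μ) (hx : 70 / 1000 ≤ x) (hx' : x ≤ 130 / 1000) (hm : -7539 / 10000 ≤ μ)
    (hm' : μ ≤ -5846 / 10000) (ht : -95 / 1000 ≤ t) (ht' : t ≤ -5 / 1000) (hr : 75 / 100 ≤ r)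
    (hr' : r ≤ 80 / 100) : SM (-(20 * t)) u v w < 0 := by
  have a := H.part h1 h2 (by linarith only [ht]) (by linarith only [ht']) hr hr'
  have c := sBC sBC_2e h1 h2 h3 h4 (by push_cast; linarith only [hx]) (by push_cast; linarith only [hx']) (by linarith only [hx])
    (by linarith only [hx']) (by push_cast; linarith only [hm]) (by push_cast; linarith only [hm']) (by push_cast; linarith only [ht])
    (by push_cast; linarith only [ht']) (by push_cast; linarith only [hr]) hr' hr
  push_cast at c
  rw [SM_split]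
  linarith only [a, c]

/-- `K = 2, 3, 3e, Z`, hinge at slot `0` at most `1/2` -/
theorem rr_r (H : U50 u) (h1 : v.re = r) (h2 : v.im = 20 * t * (8 / 10 - r)) (h3 : w.re = x)
    (h4 : w.im = x * μ) (hx : 70 / 1000 ≤ x) (hx' : x ≤ 130 / 1000) (hm : -4385 / 10000 ≤ μ)
    (hm' : μ ≤ 4385 / 10000) (ht : -116 / 1000 ≤ t) (ht' : t ≤ 5 / 1000) (hr : 75 / 100 ≤ r)
    (hr' : r ≤ 80 / 100) : SM (-(20 * t)) u v w < 0 := by
  have a := sA1 (u := u) h1 h2 (by linarith only [H, H.u0]) (by linarith only [H, H.u1]) (by linarith only [H, H.t0])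
    (by linarith only [H, H.t1]) (by linarith only [ht]) (by linarith only [ht']) hr hr'
  have c := sBC sBC_r h1 h2 h3 h4 (by push_cast; linarith only [hx]) (by push_cast; linarith only [hx']) (by linarith only [hx])
    (by linarith only [hx']) (by push_cast; linarith only [hm]) (by push_cast; linarith only [hm']) (by push_cast; linarith only [ht])
    (by push_cast; linarith only [ht']) (by push_cast; linarith only [hr]) hr' hr
  push_cast at c
  rw [SM_split]
  linarith only [a, c]

/-- `K = 3e`, near the end of the path of `v` -/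
theorem rr_3e (H : U65 u) (h1 : v.re = r) (h2 : v.im = 20 * t * (8 / 10 - r)) (h3 : w.re = x)
    (h4 : w.im = x * μ) (hx : 100 / 1000 ≤ x) (hx' : x ≤ 110 / 1000) (hm : -2154 / 10000 ≤ μ)
    (hm' : μ ≤ -384 / 10000) (ht : -116 / 1000 ≤ t) (ht' : t ≤ 5 / 1000) (hr : 78 / 100 ≤ r)
    (hr' : r ≤ 80 / 100) : SM (-(20 * t)) u v w < 0 := by
  have a := H.part' h1 h2 (by linarith only [ht]) (by linarith only [ht']) hr hr'
  have c := sBC sBC_3e h1 h2 h3 h4 (by push_cast; linarith only [hx]) (by push_cast; linarith only [hx']) (by linarith only [hx])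
    (by linarith only [hx']) (by push_cast; linarith only [hm]) (by push_cast; linarith only [hm']) (by push_cast; linarith only [ht])
    (by push_cast; linarith only [ht']) (by push_cast; linarith only [hr]) hr' (by linarith only [hr])
  push_cast at c
  rw [SM_split]
  linarith only [a, c]

end VN

end Pool.Agent.Work.MP_b30479_gt.G2
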