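import Pool.Agent.Work.MP_b30479_gt.G2.S2La

/-!
# The left ramp of the hinge at slot `2` of an inner digit `3`: certificates
-/

namespace Pool.Agent.Work.MP_b30479_gt.G2.ML

open NumI NumI.E

theorem c1_0w : runT (rowN 2 (cE 2 0 4500) (-250) (-123))
    (.z (.y (.z (.y (.z .a .a) (.z .a .a)) .a) (.z (.y (.z .a .a) (.z .a .a)) .a)) (.y (.z .c .d)
    (.z .c .d)))
    (bx 0 20 (-7634) (-1400) 0 800) = true := by decide +kernel

theorem c1_0q : runT (rowS (cE 2 0 4500) (-250) (kQ (-123)) (kQ (0)) (fN0))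
    (.z (.y (.z (.y (.z (.y (.z (.x (.x .c .c) .c) (.x (.x .c .c) .c)) (.z (.x (.x .c .c) .c) (.x
    (.x .c .c) .c))) (.x (.x .c .a) .a)) (.z (.y (.z (.x (.x .c .c) .c) (.x .c .c)) (.z (.x (.x .c
    .c) .c) (.x .c .c))) (.x (.x .c .c) .c))) (.x (.x .a .a) .a)) (.z (.y (.z (.y (.z (.x (.x .c
    .c) .c) (.x .c .c)) (.z (.x (.x .c .c) .c) (.x .c .c))) (.x .c .c)) (.z (.y (.z (.x (.x .c .c)
    .c) (.x .c .c)) (.z (.x (.x .c .c) .c) (.x .c .c))) (.x .c .c))) (.x .a .a))) (.x (.y (.x (.z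
    .a .d) (.z .a .d)) (.x (.x (.y (.z .a .d) (.z .a .d)) (.y (.z .a .d) (.z .a .d))) (.y (.z .a
    .d) (.z .a .d)))) (.y (.z .a (.x .d (.y .d .d))) (.x (.y (.z .a .d) (.z .a .d)) (.z .a .d)))))
    (bx 20 70 (-7634) (-1400) 0 750) = true := by decide +kernel

theorem c1_0r : runT (rowS (cE 2 0 4500) (-250) (kR (-123)) (kR (-15)) (fN0))
    (.x (.y (.x .d .d) (.x .d .d)) (.y (.x (.y .b .d) (.y (.z .b (.z (.y .b .b) (.y (.x .b (.z .b
    (.y (.x .b (.z .b .b)) .b))) .b))) (.z .d .b))) (.x .d .d)))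
    (bx 20 70 (-7634) (-1400) 750 800) = true := by decide +kernel

theorem c2_0w : runT (rowN 2 (cE 1 0 0) (-100) (-116))
    (.z (.y (.z (.y (.z .a .a) (.z .a .a)) .a) (.z (.y (.z .a .a) (.z .a .a)) .a)) (.y (.z .c .d)
    (.z .c .d)))
    (bx 0 20 (-4385) (385) 0 800) = true := by decide +kernel

theorem c2_0q : runT (rowS (cE 1 0 0) (-100) (kQ (-116)) (kQ (5)) (fN0))
    (.z (.y (.z (.y (.z (.y (.z (.x (.x .c .c) .c) (.x .c .c)) (.z (.x (.x .c .c) .c) (.x .c .c)))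
    (.x .c .c)) (.z (.y (.z (.x (.x .c .c) .c) (.x .c .c)) (.z (.x (.x .c .c) .c) (.x .c .c))) (.x
    .c .c))) (.x .a .a)) (.z (.y (.z (.y (.z (.x (.x .c .c) .c) (.x .c .c)) (.z (.x (.x .c .c) .c)
    (.x .c .c))) (.x .c .c)) (.z (.y (.z (.x (.x .c .c) .c) (.x .c .c)) (.z (.x (.x .c .c) .c) (.x
    .c .c))) (.x .c .c))) (.x .c .a))) (.x (.x (.x (.y (.z .a .d) (.x (.z .a .d) (.z .a .d))) (.y
    (.z .a .d) (.z .a .d))) (.y (.z .a .d) (.x (.z .a .d) (.z .a .d)))) (.x (.z .a .d) (.z .a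
    .d))))
    (bx 20 70 (-4385) (385) 0 750) = true := by decide +kernel

theorem c2_0r : runT (rowS (cE 1 0 0) (-100) (kR (-116)) (kR (5)) (fN0))
    (.x (.x .d .d) .d)
    (bx 20 70 (-4385) (385) 750 800) = true := by decide +kernel

theorem c2e_0w : runT (rowN 2 (cE 1 0 0) (190) (-95))
    (.z (.z (.z .a .a) .a) (.z .c .d))
    (bx 0 20 (-7539) (-5846) 0 800) = true := by decide +kernel

theorem c2e_0q : runT (rowS (cE 1 0 0) (190) (kQ (-95)) (kQ (0)) (fN0))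
    (.z (.z (.z (.y (.z (.x (.x .c .c) .c) (.x .c .c)) (.z (.x (.x .c .c) .c) (.x .c .c))) (.x (.x
    .a .a) .a)) (.x .a .a)) (.x (.x (.z .a .d) (.z .a .d)) (.z .a .d)))
    (bx 20 70 (-7539) (-5846) 0 750) = true := by decide +kernel

theorem c2e_0r : runT (rowS (cE 1 0 0) (190) (kR (-95)) (kR (-5)) (fN0))
    (.x (.x .d .d) (.x .d .b))
    (bx 20 70 (-7539) (-5846) 750 800) = true := by decide +kernel

theorem c3_0w : runT (rowN 2 (cE 1 0 0) (-50) (-116))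
    (.z (.z (.y (.z .a .a) (.z .a .a)) .a) (.z .c .d))
    (bx 0 20 (-1693) (1693) 0 800) = true := by decide +kernel

theorem c3_0q : runT (rowS (cE 1 0 0) (-50) (kQ (-116)) (kQ (5)) (fN0))
    (.z (.z (.y (.z (.y (.z (.x (.x .c .c) .c) (.x .c .c)) (.z (.x (.x .c .c) .c) (.x .c .c))) (.x
    .c .c)) (.z (.y (.z (.x (.x .c .c) .c) (.x .c .c)) (.z (.x (.x .c .c) .c) (.x .c .c))) (.x .c
    .c))) (.x .c (.x .a .a))) (.x (.x (.x (.y (.x (.z .a .d) (.z .a .d)) (.x (.z .a .a) (.z .a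
    .a))) (.y (.z .a .d) (.x (.z .a .a) (.z .a .a)))) (.x (.y (.z .a .d) (.z .a .a)) (.y (.z .a
    .d) (.z .a .a)))) (.x (.y (.z .a .d) (.x (.z .a .d) (.z .a .d))) (.z .a .d))))
    (bx 20 70 (-1693) (1693) 0 750) = true := by decide +kernel

theorem c3_0r : runT (rowS (cE 1 0 0) (-50) (kR (-116)) (kR (5)) (fN0))
    (.x .d .d)
    (bx 20 70 (-1693) (1693) 750 800) = true := by decide +kernel

theorem c3e_0w : runT (rowN 2 (cE 1 0 0) (40) (-116))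
    (.z (.z (.z .a .a) .a) (.z .c .d))
    (bx 0 20 (-2154) (-384) 0 800) = true := by decide +kernel

theorem c3e_0q : runT (rowS (cE 1 0 0) (40) (kQ (-116)) (kQ (5)) (fN0))
    (.z (.z (.z (.y (.z (.x (.x .c .c) .c) (.x .c .c)) (.z (.x (.x .c .c) .c) (.x .c .c))) (.x .c
    .c)) (.x .a .a)) (.x (.x (.x (.z .a .d) (.z .a .d)) (.x (.z .a .d) (.z .a .d))) (.x (.z .a .d)
    (.z .a .d))))
    (bx 20 70 (-2154) (-384) 0 750) = true := by decide +kernel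

theorem c3e_0r : runT (rowS (cE 1 0 0) (40) (kR (-116)) (kR (5)) (fN0))
    (.x .d .d)
    (bx 20 70 (-2154) (-384) 750 800) = true := by decide +kernel

theorem cZ_0w : runT (rowN 2 (cE 1 0 0) (0) (-106))
    (.z (.y (.z (.y (.z .a .a) (.z .a .a)) .a) (.z (.y (.z .a .a) (.z .a .a)) .a)) (.y (.z .c .d)
    (.z .c .c)))
    (bx 0 20 (-77) (4385) 0 800) = true := by decide +kernel

theorem cZ_0q : runT (rowS (cE 1 0 0) (0) (kQ (-106)) (kQ (0)) (fN0))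
    (.z (.y (.z (.y (.z (.y (.z (.x (.x .c .c) .c) (.x .c .c)) (.z (.x (.x .c .c) .c) (.x .c .c)))
    (.x .c .c)) (.z (.y (.z (.x (.x .c .c) .c) (.x .c .c)) (.z (.x (.x .c .c) .c) (.x .c .c))) (.x
    .c .c))) (.x .c (.x .c .a))) (.z (.y (.z (.y (.z (.x (.x .c .c) .c) (.x .c .c)) (.z (.x (.x .c
    .c) .c) (.x .c .c))) (.x .c .c)) (.z (.y (.z (.x (.x .c .c) .c) (.x .c .c)) (.z (.x (.x .c .c)
    .c) (.x .c .c))) (.x .c .c))) (.x .c .c))) (.x (.x (.y (.x (.x (.y (.z .a .a) .a) (.y (.z .a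
    .a) .a)) (.y (.z .a .a) (.x .a (.z .a .a)))) (.x .a .a)) (.y (.x (.y (.z .a .a) (.z .a .a))
    (.z .a .a)) (.x (.y .a .a) (.y (.z .a .a) .a)))) (.y (.x (.x (.z .a .d) (.z .a .d)) (.z .a
    .d)) (.x (.y (.x (.z .a .a) (.z .a .a)) (.x .a (.z .a .a))) (.y (.x (.z .a .a) (.z .a .a)) (.x
    (.z .a .a) (.z .a .a)))))))
    (bx 20 70 (-77) (4385) 0 750) = true := by decide +kernel

theorem cZ_0r : runT (rowS (cE 1 0 0) (0) (kR (-106)) (kR (0)) (fN0))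
    (.x .d .d)
    (bx 20 70 (-77) (4385) 750 800) = true := by decide +kernel

theorem c2_1q : runT (rowS (cE 1 0 0) (-200) (kQ (-116)) (kQ (5)) (fN0))
    (.z (.y (.z (.x .c .c) .a) (.z (.x .c .c) .a)) (.x (.z .a .d) (.z .a (.z .d (.y .d .d)))))
    (bx 70 110 (-4385) (385) 0 750) = true := by decide +kernel

theorem c2e_1q : runT (rowS (cE 1 0 0) (190) (kQ (-95)) (kQ (0)) (fN0))
    (.z (.z (.z (.x .c .c) .a) .a) (.z (.x .a (.z .a .a)) (.x .d (.z .d (.z .d (.x .b (.y .b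
    .b)))))))
    (bx 70 110 (-7539) (-5846) 0 750) = true := by decide +kernel

theorem c3_1q : runT (rowS (cE 1 0 0) (-50) (kQ (-116)) (kQ (5)) (fN0))
    (.z (.z (.x (.z .c .c) (.z (.z .c .c) .c)) .a) (.x (.z .a .d) (.z .a .d)))
    (bx 70 110 (-1693) (1693) 0 750) = true := by decide +kernel

theorem c3e_1q : runT (rowS (cE 1 0 0) (40) (kQ (-116)) (kQ (5)) (fN0))
    (.z (.z (.x .c (.z .c .a)) .a) (.x (.z .a .d) (.z .a .d)))
    (bx 70 110 (-2154) (-384) 0 750) = true := by decide +kernel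

theorem cZ_1q : runT (rowS (cE 1 0 0) (30) (kQ (-106)) (kQ (0)) (fN0))
    (.z (.y (.z (.z (.x .c (.z (.x .c .c) .c)) .c) .a) (.z (.z (.x (.z .c .c) (.z (.x .c (.z (.x
    .c (.y .c .c)) .c)) .c)) .c) (.x (.x (.z .a .a) .a) .a))) (.x (.y (.z .a .d) (.x (.y (.z .a
    .a) (.z .a .a)) (.y (.z .a .d) (.z .a .a)))) (.y (.z .a .d) (.z .a .d))))
    (bx 70 110 (-77) (4385) 0 750) = true := by decide +kernel

theorem c2_1r : runT (rowS (cE 1 0 0) (-200) (kR (-116)) (kR (5)) (fN0))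
    (.x (.y .d .d) (.z (.x .d (.y .d .d)) (.y (.x .d (.z (.x .d (.z .d (.y .b .d))) (.x (.z .d .b)
    (.z .b (.y .b .b))))) (.x .d .d))))
    (bx 70 110 (-4385) (385) 750 800) = true := by decide +kernel

theorem c3_1r : runT (rowS (cE 1 0 0) (-50) (kR (-116)) (kR (5)) (fN0))
    (.x .d (.y (.x .d (.z .d (.x .d (.z .d (.y .d .d))))) .d))
    (bx 70 110 (-1693) (1693) 750 800) = true := by decide +kernel

theorem cZ_1r : runT (rowS (cE 1 0 0) (30) (kR (-106)) (kR (0)) (fN0))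
    (.x .d (.y (.x .d .d) .d))
    (bx 70 110 (-77) (4385) 750 800) = true := by decide +kernel

theorem c3e_1r : runT (rowS (cE 1 0 0) (40) (kR (-116)) (kR (5)) (fN0))
    (.x .d .d)
    (bx 70 100 (-2154) (-384) 750 800) = true := by decide +kernel

theorem c3e_1s : runT (rowS (cE 1 0 0) (40) (kR (-116)) (kR (5)) (fN0))
    .d
    (bx 100 110 (-2154) (-384) 750 780) = true := by decide +kernel

theorem c1_1l : runT (rowS (cE 2 0 4500) (-440) (kL (-123)) (kL (-15)) (fN0))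
    (.y (.x .c .c) (.x .c .c))
    (bx 70 110 (-7634) (-1400) 0 50) = true := by decide +kernel

theorem c1_1q : runT (rowS (cE 2 0 4500) (-440) (kQ (-123)) (kQ (-15)) (fN0))
    (.z (.y (.x (.z (.z .c .a) .a) (.z (.z .c .a) .a)) (.x (.z .c .a) (.z .c .a))) (.y (.z (.x (.y
    (.z .a .a) .a) (.y (.z .a .d) (.z .a .a))) (.x (.z .d (.y (.x .d (.z .d .b)) .d)) (.z .d (.y
    (.z (.x .d .b) (.x .b (.y (.z .b (.x .b .b)) (.z .b .b)))) (.x .d (.z .d (.y .b .b))))))) (.z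
    .a (.x .d (.y .d .d)))))
    (bx 70 110 (-7634) (-1400) 50 750) = true := by decide +kernel

theorem c2_2l : runT (rowS (cE 1 0 0) (-200) (kL (-116)) (kL (5)) (fN0))
    (.y .c .c)
    (bx 110 130 (-4385) (385) 0 50) = true := by decide +kernel

theorem c2_2q : runT (rowS (cE 1 0 0) (-200) (kQ (-116)) (kQ (5)) (fN0))
    (.z (.z (.y .c .c) .a) (.z (.x .a (.z .a .a)) (.z .d (.x (.y .d .d) (.z .d (.y (.y (.x .d (.y
    .b .d)) .d) .d))))))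
    (bx 110 130 (-4385) (385) 50 750) = true := by decide +kernel

theorem c2e_2l : runT (rowS (cE 1 0 0) (190) (kL (-95)) (kL (-5)) (fN0))
    .a
    (bx 110 130 (-7539) (-5846) 0 50) = true := by decide +kernel

theorem c2e_2q : runT (rowS (cE 1 0 0) (190) (kQ (-95)) (kQ (-5)) (fF (-95) 47 1145))
    (.z (.z .a .a) (.z (.z .a .d) (.z .d (.z (.y .b (.x .b .b)) (.y (.x (.y .b (.z .b .e)) (.y (.z
    .b .e) (.z (.x .b .b) .e))) (.x (.z .b .e) (.y (.z (.x .b (.y (.z .b .e) (.z .b .e))) .e) (.z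
    (.x (.z .b .e) (.y (.z .b .e) (.z .e .e))) .e))))))))
    (bx 110 130 (-7539) (-5846) 50 750) = true := by decide +kernel

theorem c3_2l : runT (rowS (cE 1 0 0) (-50) (kL (-116)) (kL (5)) (fN0))
    (.y .c (.z (.x .c .c) .c))
    (bx 110 130 (-1693) (1693) 0 50) = true := by decide +kernel

theorem c3_2q : runT (rowS (cE 1 0 0) (-50) (kQ (-116)) (kQ (5)) (fF (-116) 47 1145))
    (.z (.z (.z .c .a) .a) (.z .a (.z .d (.x .d (.z .d (.y (.x .d (.z .d (.y .d .d))) .d))))))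
    (bx 110 130 (-1693) (1693) 50 750) = true := by decide +kernel

theorem c3e_2l : runT (rowS (cE 1 0 0) (40) (kL (-116)) (kL (5)) (fN0))
    .c
    (bx 110 130 (-2154) (-384) 0 50) = true := by decide +kernel

theorem c3e_2q : runT (rowS (cE 1 0 0) (40) (kQ (-116)) (kQ (5)) (fF (-116) 47 1145))
    (.z (.z (.z .c .a) .a) (.z .a (.z .d (.x .d (.z .d (.x (.z .d (.y (.x .d (.z .d .e)) .d)) (.z
    .d (.y (.x (.z .d .e) .e) .e))))))))
    (bx 110 130 (-2154) (-384) 50 750) = true := by decide +kernel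

theorem cZ_2l : runT (rowS (cE 1 0 0) (-100) (kL (-106)) (kL (0)) (fN0))
    (.y (.z (.y .c .c) .c) (.z (.x (.y .c .c) (.y (.z .a .a) (.z (.x .a (.y .a .a)) .a))) .c))
    (bx 110 130 (-77) (4385) 0 50) = true := by decide +kernel

theorem cZ_2q : runT (rowS (cE 1 0 0) (-100) (kQ (-106)) (kQ (0)) (fN0))
    (.z (.z (.z (.z (.x .c .c) .c) .a) .a) (.y (.z .a .d) (.z .a .d)))
    (bx 110 130 (-77) (4385) 50 750) = true := by decide +kernel

theorem c1_2l : runT (rowS (cE 2 0 4500) (-285) (kL (-123)) (kL (-15)) (fN0))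
    (.y (.y .c .c) (.x .c .c))
    (bx 110 150 (-7634) (-1400) 0 50) = true := by decide +kernel

theorem c1_2q0 : runT (rowS (cE 2 0 4500) (-285) (kQ (-123)) (kQ (-115)) (fF (-123) 47 980))
    (.z (.y (.z (.z (.x .a .a) .a) (.x .a .a)) (.z (.z (.x .c .a) .a) .a)) (.z (.y (.z (.x .a .a)
    (.x .d .d)) (.x (.y (.z .a .a) .a) (.y (.z .a .d) .a))) (.y (.z (.x (.y (.z .d .b) .d) (.z (.y
    (.z .d .b) .d) (.y .b .b))) (.x (.y (.z .b (.x .b .b)) (.z .b (.x .b .b))) (.y (.z (.y .b .b)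
    (.y .b (.x .b .b))) (.z (.x .b .b) (.x (.z .b (.y .b .b)) (.y (.z .b (.y .b (.x .b .b))) (.z
    (.x .b .b) .e))))))) (.z (.x .d (.y (.z .d (.x .d (.y .b .d))) .d)) (.x (.y (.z .b (.x .b .b))
    (.x .d (.z .d .b))) (.y (.z (.x .b (.y .b .b)) (.x (.y .b .b) (.z (.y (.x .b .b) (.x .b (.z .b
    .e))) .e))) (.z (.x (.y .b .d) (.y .b .b)) (.x (.y .b .b) (.y (.z (.x .b .b) .e) (.z .b
    .e))))))))))
    (bx 110 150 (-7634) (-1400) 50 750) = true := by decide +kernel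

theorem c1_2q1 : runT (rowS (cE 2 0 4500) (-285) (kQ (-115)) (kQ (-108)) (fF (-115) 47 980))
    (.z (.y (.z (.z (.z .a .a) .a) (.x .a .a)) (.z (.z (.x .c .a) .a) .a)) (.z (.y (.z (.x .a .a)
    (.x .d .d)) (.x (.y (.z .a .a) .a) (.y (.z .a .d) .a))) (.y (.z (.x (.y (.z .d .b) .d) (.z (.y
    (.z .d .b) .d) (.y .b .b))) (.x (.y (.z .b (.x .b .b)) (.z .b (.x .b .b))) (.y (.z (.y .b .b)
    (.y (.z .b .b) (.x .b (.z .b .e)))) (.z (.x .b (.z .b (.y .b .b))) (.x (.z .b .e) (.y (.z (.y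
    .b .b) .e) (.z (.x .b (.z .b .e)) .e))))))) (.z (.x .d (.y (.z .d (.x .d (.y .b .d))) .d)) (.x
    (.y (.z (.x .b .b) (.x .b .b)) (.x .d (.z .d .b))) (.y (.z (.x .b (.z .b (.y .b .b))) (.x (.y
    (.z .b .e) (.z .b .b)) (.z (.y (.x .b (.z .b .e)) (.x .b .e)) .e))) (.z (.x (.y .b .d) (.y .b
    (.z .b .b))) (.x (.y .b .b) (.y (.z (.x .b .e) .e) (.z .e .e))))))))))
    (bx 110 150 (-7634) (-1400) 50 750) = true := by decide +kernel

theorem c1_2q2 : runT (rowS (cE 2 0 4500) (-285) (kQ (-108)) (kQ (-99)) (fF (-108) 47 980))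
    (.z (.y (.z (.z (.z .a .a) .a) (.x .a .a)) (.z (.z (.x .c .a) .a) .a)) (.z (.y (.z (.x .a .a)
    (.x .d .d)) (.x (.y (.z .a .a) .a) (.y (.z .a .d) .a))) (.y (.z (.x (.y (.z .d .b) .d) (.z (.y
    (.z .d .b) .d) (.y .b .b))) (.x (.y (.z (.x .b .b) (.x .b (.z .b .b))) (.z .b (.x .b (.y .b
    .b)))) (.z (.y (.y .b (.z .b .b)) (.x .b (.z .b (.y .b .b)))) (.y (.y (.z (.y .b .b) .e) (.z
    (.x .b (.y .b .b)) .e)) (.x (.z (.y .b .b) .e) (.y (.z .e .e) .e)))))) (.z (.x .d (.y (.z .d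
    (.x .d (.y .b .d))) .d)) (.x (.y (.z (.x .d .b) (.x .b (.y .b .b))) (.x .d (.z .d .b))) (.y
    (.z (.x .b (.z .b (.y (.x .b .b) .b))) (.x (.y (.z .b .e) (.z .b .e)) (.z .e .e))) (.z (.x (.y
    .b .d) (.y .b (.z .d .b))) (.x (.y (.z .b .e) .b) .e))))))))
    (bx 110 150 (-7634) (-1400) 50 750) = true := by decide +kernel

theorem c1_2q3 : runT (rowS (cE 2 0 4500) (-285) (kQ (-99)) (kQ (-90)) (fF (-99) 47 980))
    (.z (.y (.z (.z (.z .a .a) .a) (.x .a .a)) (.z (.z (.x .c .a) .a) .a)) (.z (.y (.z (.x .a .a)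
    (.x .d .d)) (.x (.y (.z .a .a) .a) (.y (.z .a .d) .a))) (.y (.z (.x (.y (.z .d .b) .d) (.z (.y
    (.z .d .b) .d) (.y .b (.x .b .b)))) (.x (.y (.z (.x .b .b) (.x (.y .b .b) (.z .b .e))) (.z (.x
    .b .b) (.x .b (.y .e .e)))) (.z (.y (.z (.y .b .b) (.y .b (.x .b .b))) (.x (.z .b .b) (.z .b
    (.y (.x .b .b) (.x .b (.z .b .e)))))) (.y .e .e)))) (.z (.x .d (.y (.z .d (.x .d (.y .b .d)))
    .d)) (.x (.y (.z (.x .d .b) (.x .b (.y .b .b))) (.z .d (.x .b .b))) (.y (.z (.x (.y .b .b) (.z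
    (.y .b .b) (.y (.x .b (.z .b .e)) (.x .b (.z .b .e))))) .e) (.z (.x (.y .d .d) (.y (.z .b .b)
    (.z .d .b))) .e)))))))
    (bx 110 150 (-7634) (-1400) 50 750) = true := by decide +kernel

theorem c1_2q4 : runT (rowS (cE 2 0 4500) (-285) (kQ (-90)) (kQ (-82)) (fF (-90) 47 1145))
    (.z (.y (.z (.z (.z .a .a) .a) (.x .a .a)) (.z (.z (.x .c .a) .a) .a)) (.z (.y (.z (.x .a .a)
    (.x .d .d)) (.x .a (.y (.z .a .d) .a))) (.y (.z (.x (.y (.z .d .b) .d) (.z (.y (.z .d .b) .d)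
    (.y .b (.x .b .b)))) (.x (.y (.z (.x .b .b) (.x (.y .b .b) (.z .e .e))) (.z (.x .b .b) (.x (.y
    .b .b) (.z .e .e)))) (.z (.y (.z (.y .b .b) (.y (.x .b .b) (.x .b (.y .b (.z .b .b))))) (.x
    (.z .b (.y .b .b)) (.z (.y .b .b) (.y (.z .b .e) (.x .b (.z .b .e)))))) (.y (.y .e .e) .e))))
    (.z (.x .d (.y (.z .d (.x .d (.y (.z .d .b) .d))) .d)) (.x (.y (.z (.x .d (.y .b .b)) (.x .b
    (.y .e .b))) (.z .d (.x .d .b))) (.y (.z (.x (.y .b .b) (.z (.y .b .b) (.y (.x .b (.z .b .e))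
    (.x .b (.z .b .e))))) .e) (.z (.x (.y .d .d) (.y (.z .b (.x .b (.z .b .b))) (.z .d .b)))
    .e)))))))
    (bx 110 150 (-7634) (-1400) 50 750) = true := by decide +kernel

theorem c1_2q5 : runT (rowS (cE 2 0 4500) (-285) (kQ (-82)) (kQ (-74)) (fF (-82) 47 1145))
    (.z (.y (.z (.z (.z .a .a) .a) (.x .a .a)) (.z (.z (.x .c .a) .a) .a)) (.z (.y (.z (.x .a .a)
    (.x .d .d)) (.x .a (.y (.z .a .a) .a))) (.y (.z (.x (.y (.z .d .b) .d) (.z (.y (.z .d .b) .d)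
    (.y (.z .b .b) (.x (.z .b .b) .b)))) (.x (.z (.y (.x .b .b) (.x .b .b)) (.y (.x .e .e) (.x .e
    .e))) (.z (.y (.z (.y .b (.x .b .b)) (.y (.x .b .e) (.x .b .e))) (.x (.z .b (.y .b .b)) (.z
    (.y .b .b) .e))) .e))) (.z (.x .d (.y (.z .d (.x .d (.y (.z .d .b) .d))) .d)) (.x (.y (.z (.x
    .d (.y .b .d)) (.x .b .e)) (.z .d (.x .d .e))) (.z (.y (.x (.y .b .b) (.z (.y .b .b) .e)) (.x
    (.y .d .d) (.y (.z .b .e) (.z .d .b)))) .e))))))
    (bx 110 150 (-7634) (-1400) 50 750) = true := by decide +kernel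

theorem c1_2q6 : runT (rowS (cE 2 0 4500) (-285) (kQ (-74)) (kQ (-66)) (fF (-74) 47 1145))
    (.z (.y (.z (.z (.z .a .a) .a) (.x .a .a)) (.z (.z (.x .a .a) .a) .a)) (.z (.y (.z (.x .a .a)
    (.x .d .d)) (.x .a (.y (.z .a .a) .a))) (.y (.z (.x (.y (.z .d .b) .d) (.z (.y (.z .d .b) .d)
    (.y (.z .b (.x .b .b)) (.x (.z .d .b) .b)))) (.x (.z (.y (.x .b (.z .b (.y .b .b))) (.x .b (.y
    .b .b))) .e) (.z (.y (.z (.x .b (.y .b .b)) .e) (.x (.z .b .e) (.z (.y (.z .b .e) (.x .b (.z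
    .b .b))) .e))) .e))) (.z (.x .d (.y (.z .d (.x .d (.y (.z .d .b) .d))) .d)) (.x (.y (.z (.x .d
    (.y .b .d)) .e) (.z .d .e)) (.z (.y (.x (.y (.z .b .b) .b) (.z (.y (.x .b .b) .b) .e)) (.x (.y
    .d .d) (.y (.z .d .e) (.z .d .e)))) .e))))))
    (bx 110 150 (-7634) (-1400) 50 750) = true := by decide +kernel

theorem c1_2q7 : runT (rowS (cE 2 0 4500) (-285) (kQ (-66)) (kQ (-54)) (fF (-66) 47 1145))
    (.z (.y (.x (.z .a .a) (.z .a .a)) (.z (.z (.x .a .a) .a) .a)) (.z (.y (.z (.x .a .a) (.x .d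
    .d)) (.x .a (.y (.z .a .a) .a))) (.y (.z (.x (.y (.z .d (.x .d .b)) .d) (.z (.y (.z .d .b) .d)
    (.y (.z .b (.x .b .b)) (.x (.z .d .b) (.z .b (.y .b .b)))))) (.x (.z (.y (.x (.z .b .b) (.z .b
    .e)) (.x .b (.z .b .e))) .e) (.z (.y (.z (.x (.y .b .b) (.y (.z .b .e) (.z .b .e))) .e) (.x
    (.z (.y .b .b) .e) (.z (.y (.z .b .e) (.x .b (.z .b .e))) .e))) .e))) (.z (.x .d (.y (.z .d
    (.x .d (.y (.z .d .b) .d))) .d)) (.x (.y (.z (.x .d (.y .b .d)) .e) (.z .d .e)) (.z (.y (.x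
    (.y (.z .b .e) (.z .d .b)) (.z (.y (.x .b (.z .b .e)) (.x .b .b)) .e)) (.x (.y .d .d) (.y (.z
    .d .e) (.z .d .e)))) .e))))))
    (bx 110 150 (-7634) (-1400) 50 750) = true := by decide +kernel

theorem c1_2q8 : runT (rowS (cE 2 0 4500) (-285) (kQ (-54)) (kQ (-42)) (fF (-54) 47 1145))
    (.z (.y (.x (.z .a .a) (.z .a .a)) (.z (.z (.x .a .a) .a) .a)) (.z (.y (.z (.x .a .a) (.x .d
    .d)) (.x .a (.y (.z .a .a) .a))) (.y (.z (.x (.y (.z .d (.x .d .b)) .d) (.z (.y (.z .d (.x .d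
    .b)) .d) (.y (.z .b (.x .b (.y .b .b))) (.x (.z .d .b) (.z (.y .b .d) (.y .b .b)))))) (.z (.x
    (.y (.x (.z .b .e) (.z (.y .b .b) .e)) (.x .b (.z .b .e))) (.y (.z .e .e) (.z .e .e))) .e))
    (.z (.x .d (.y (.z .d (.x .d (.y (.z .d (.x .b .b)) .d))) .d)) (.x (.y (.z (.x .d (.y (.z .d
    .b) .d)) .e) (.z .d .e)) (.z (.y (.x (.z (.y .b .d) .e) .e) (.x (.y .d .d) (.y (.z .d .e) (.z
    .d .e)))) .e))))))
    (bx 110 150 (-7634) (-1400) 50 750) = true := by decide +kernel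

theorem c1_2q9 : runT (rowS (cE 2 0 4500) (-285) (kQ (-42)) (kQ (-15)) (fF (-42) 47 1145))
    (.z (.y (.x (.z (.z .a .a) .a) (.z .a .a)) (.z (.z (.x .a .a) .a) .a)) (.z (.y (.z (.x .a .a)
    (.x .d .d)) (.x .a (.y (.z .a .a) .a))) (.y (.z (.x (.y (.z .d (.x .d (.z .d .b))) .d) (.z (.y
    (.z .d (.x .d .d)) .d) (.y (.z (.x .b .b) (.x (.y .b .b) (.y (.z .b .e) (.z .b .e)))) (.x (.z
    .d (.y .b .d)) (.z (.y .b .d) (.y (.z .b .e) (.x .b (.z .b .e)))))))) (.z (.x (.y (.z .e .e)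
    (.x (.y (.z .b .b) .d) .e)) .e) .e)) (.z (.x .d (.y (.z .d (.x .d (.z .d (.y (.x .d (.z .d
    .d)) .d)))) .d)) (.x (.y (.z (.x .d (.y .e .d)) .e) (.z .d .e)) (.z (.y .e (.x (.y .d .d) .e))
    .e))))))
    (bx 110 150 (-7634) (-1400) 50 750) = true := by decide +kernel

end Pool.Agent.Work.MP_b30479_gt.G2.ML
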