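import Pool.Agent.Work.MP_b30479_gt.G2.S2Lb
import Pool.Agent.Work.MP_b30479_gt.G2.S2Lc

/-!
# The left ramp of the hinge at slot `2` of an inner digit `3`: real statements

`x`, `μ`: position and slope of the own hinge, `y`, `k`: position and height of the inner variable,
`t`: height of its path.
-/

namespace Pool.Agent.Work.MP_b30479_gt.G2

open Real Set VOL NumI

namespace ML

/-- the inner variable on its path -/
structure Kn (y t k : ℝ) : Prop where
  y0 : 0 ≤ y
  y1 : y ≤ 8 / 10
  l : y ≤ 5 / 100 → k = t * (20 * y)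
  m : 5 / 100 ≤ y → y ≤ 75 / 100 → k = t
  r : 75 / 100 ≤ y → k = t * (20 * (8 / 10 - y))

/-- first-order conditions of the inner variable -/
structure Fc (u : ℂ) (x μ y t k : ℝ) : Prop where
  fl : 5 / 100 < y → y ≤ 75 / 100 → 0 ≤ SM 0 u (lv y k) (lv x (x * μ))
  fr : 75 / 100 < y → 0 ≤ SM (-(20 * t)) u (lv y k) (lv x (x * μ))

variable {x μ y t k : ℝ} {u : ℂ}

theorem scale_bd {A B s : ℝ} (hA : A ≤ t) (hB : t ≤ B) (hA0 : A ≤ 0) (hB0 : 0 ≤ B) (h0 : 0 ≤ s)
    (h1 : s ≤ 1) : A ≤ t * s ∧ t * s ≤ B := by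
  constructor
  · nlinarith only [hA, h0, hA0, h1, mul_le_mul_of_nonneg_right hA h0]
  · nlinarith only [hB, h0, hB0, h1, mul_le_mul_of_nonneg_right hB h0]

theorem Kn.q0 {A B : ℝ} (H : Kn y t k) (hA : A ≤ t) (hB : t ≤ B) (hA0 : A ≤ 0) (hB0 : 0 ≤ B) :
    A ≤ k ∧ k ≤ B := by
  rcases le_total y (5 / 100) with h | h
  · rw [H.l h]
    exact scale_bd hA hB hA0 hB0 (by linarith only [H, H.y0]) (by linarith only [h])
  · rcases le_total y (75 / 100) with h' | h'
    · rw [H.m h h']
      exact ⟨hA, hB⟩
    · rw [H.r h']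
      exact scale_bd hA hB hA0 hB0 (by linarith only [H, H.y1]) (by linarith only [h'])

theorem Kn.rr {A B : ℝ} (H : Kn y t k) (hA : A ≤ t) (hB : t ≤ B) (hy : 75 / 100 ≤ y) :
    A * (20 * (8 / 10 - y)) ≤ k ∧ k ≤ B * (20 * (8 / 10 - y)) := by
  rw [H.r hy]
  have := H.y1
  exact ⟨mul_le_mul_of_nonneg_right hA (by linarith only [this]), mul_le_mul_of_nonneg_right hB (by linarith only [this])⟩

theorem Kn.ll {A B : ℝ} (H : Kn y t k) (hA : A ≤ t) (hB : t ≤ B) (hy : y ≤ 5 / 100) :
    A * (20 * y) ≤ k ∧ k ≤ B * (20 * y) := by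
  rw [H.l hy]
  have := H.y0
  exact ⟨mul_le_mul_of_nonneg_right hA (by linarith only [this]), mul_le_mul_of_nonneg_right hB (by linarith only [this])⟩

theorem fN0_not (v : List ℝ) : ¬ 0 < fN0.val v := by
  simp only [fN0, E.val]
  norm_num

variable {p ca cb e a b b' m0 m1 x0 x1 y0 y1 : ℤ} {T1 T2 T3 : Tr}

/-- a row without escape, heights between constants, all positions -/
theorem useQ0 (c : runT (rowS (cE p ca cb) e (kQ a) (kQ b') fN0) T1 (bx x0 x1 m0 m1 y0 y1) = true)
    (H : Kn y t k) (ha : (a : ℝ) / 1000 ≤ t) (hb : t ≤ (b' : ℝ) / 1000) (ha0 : (a : ℝ) ≤ 0)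
    (hb0 : 0 ≤ (b' : ℝ)) (hx : (x0 : ℝ) / 1000 ≤ x ∧ x ≤ (x1 : ℝ) / 1000)
    (hm : (m0 : ℝ) / 10000 ≤ μ ∧ μ ≤ (m1 : ℝ) / 10000)
    (hy : (y0 : ℝ) / 1000 ≤ y ∧ y ≤ (y1 : ℝ) / 1000) (h0 : 0 < x) (hs : x + y < 1) :
    (e : ℝ) / 1000 < sd 2 (cR p ca cb x) x μ y k := by
  obtain ⟨q1, q2⟩ := H.q0 ha hb (by linarith only [ha0]) (by linarith only [hb0])
  rcases rowS_of c hx hm hy h0 H.y0 hs (isK_Q _ _ _ _) (isK_Q _ _ _ _) q1 q2 with h | h
  · exact h
  · exact absurd h.1 (fN0_not _)

/-- a row without escape, level part of the inner variable -/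
theorem useQ (c : runT (rowS (cE p ca cb) e (kQ a) (kQ b) fN0) T1 (bx x0 x1 m0 m1 y0 y1) = true)
    (H : Kn y t k) (ha : (a : ℝ) / 1000 ≤ t) (hb : t ≤ (b : ℝ) / 1000)
    (hl : 5 / 100 ≤ y) (hr : y ≤ 75 / 100) (hx : (x0 : ℝ) / 1000 ≤ x ∧ x ≤ (x1 : ℝ) / 1000)
    (hm : (m0 : ℝ) / 10000 ≤ μ ∧ μ ≤ (m1 : ℝ) / 10000)
    (hy : (y0 : ℝ) / 1000 ≤ y ∧ y ≤ (y1 : ℝ) / 1000) (h0 : 0 < x) (hs : x + y < 1) :
    (e : ℝ) / 1000 < sd 2 (cR p ca cb x) x μ y k := by
  have e1 := H.m hl hr
  have ha' : (a : ℝ) / 1000 ≤ k := by rw [e1]; exact ha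
  have hb' : k ≤ (b : ℝ) / 1000 := by rw [e1]; exact hb
  rcases rowS_of c hx hm hy h0 H.y0 hs (isK_Q _ _ _ _) (isK_Q _ _ _ _) ha' hb' with h | h
  · exact h
  · exact absurd h.1 (fN0_not _)

/-- a row on the right ramp of the inner variable -/
theorem useR (c : runT (rowS (cE p ca cb) e (kR a) (kR b) fN0) T1 (bx x0 x1 m0 m1 y0 y1) = true)
    (H : Kn y t k) (ha : (a : ℝ) / 1000 ≤ t) (hb : t ≤ (b : ℝ) / 1000)
    (hr : 75 / 100 ≤ y) (hx : (x0 : ℝ) / 1000 ≤ x ∧ x ≤ (x1 : ℝ) / 1000)
    (hm : (m0 : ℝ) / 10000 ≤ μ ∧ μ ≤ (m1 : ℝ) / 10000)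
    (hy : (y0 : ℝ) / 1000 ≤ y ∧ y ≤ (y1 : ℝ) / 1000) (h0 : 0 < x) (hs : x + y < 1) :
    (e : ℝ) / 1000 < sd 2 (cR p ca cb x) x μ y k := by
  obtain ⟨q1, q2⟩ := H.rr ha hb hr
  rcases rowS_of c hx hm hy h0 H.y0 hs (isK_R _ _ _ _) (isK_R _ _ _ _) q1 q2 with h | h
  · exact h
  · exact absurd h.1 (fN0_not _)

/-- a row on the left ramp of the inner variable -/
theorem useL (c : runT (rowS (cE p ca cb) e (kL a) (kL b) fN0) T1 (bx x0 x1 m0 m1 y0 y1) = true)
    (H : Kn y t k) (ha : (a : ℝ) / 1000 ≤ t) (hb : t ≤ (b : ℝ) / 1000)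
    (hl : y ≤ 5 / 100) (hx : (x0 : ℝ) / 1000 ≤ x ∧ x ≤ (x1 : ℝ) / 1000)
    (hm : (m0 : ℝ) / 10000 ≤ μ ∧ μ ≤ (m1 : ℝ) / 10000)
    (hy : (y0 : ℝ) / 1000 ≤ y ∧ y ≤ (y1 : ℝ) / 1000) (h0 : 0 < x) (hs : x + y < 1) :
    (e : ℝ) / 1000 < sd 2 (cR p ca cb x) x μ y k := by
  obtain ⟨q1, q2⟩ := H.ll ha hb hl
  rcases rowS_of c hx hm hy h0 H.y0 hs (isK_L _ _ _ _) (isK_L _ _ _ _) q1 q2 with h | h
  · exact h
  · exact absurd h.1 (fN0_not _)

/-- a row with escape, level part of the inner variable -/
theorem useF {um Tm : ℤ}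
    (c : runT (rowS (cE p ca cb) e (kQ a) (kQ b) (fF a um Tm)) T1 (bx x0 x1 m0 m1 y0 y1) = true)
    (H : Kn y t k) (hf : Fc u x μ y t k) (ha : (a : ℝ) / 1000 ≤ t) (hb : t ≤ (b : ℝ) / 1000)
    (hl : 5 / 100 < y) (hr : y ≤ 75 / 100) (hx : (x0 : ℝ) / 1000 ≤ x ∧ x ≤ (x1 : ℝ) / 1000)
    (hm : (m0 : ℝ) / 10000 ≤ μ ∧ μ ≤ (m1 : ℝ) / 10000)
    (hy : (y0 : ℝ) / 1000 ≤ y ∧ y ≤ (y1 : ℝ) / 1000) (h0 : 0 < x) (hs : x + y < 1)
    (hu0 : 7 / 100 ≤ u.re) (hu1 : u.re ≤ (um : ℝ) / 100) (hum : (um : ℝ) / 100 ≤ 1 / 2)
    (hum' : 43 / 100 ≤ (um : ℝ) / 100) (hT : -((Tm : ℝ) / 10000) ≤ u.im)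
    (hab : (a : ℝ) / 1000 + (b : ℝ) / 1000 + 2 * (x * μ) ≤ 0) :
    (e : ℝ) / 1000 < sd 2 (cR p ca cb x) x μ y k := by
  have e1 := H.m hl.le hr
  have ha' : (a : ℝ) / 1000 ≤ k := by rw [e1]; exact ha
  have hb' : k ≤ (b : ℝ) / 1000 := by rw [e1]; exact hb
  rcases rowS_of c hx hm hy h0 H.y0 hs (isK_Q _ _ _ _) (isK_Q _ _ _ _) ha' hb' with h | h
  · exact h
  · exfalso
    obtain ⟨h1, h2⟩ := h
    have h3 := SM_neg (u := u) (k := k) h1 hu0 hu1 hT (by linarith only [h0, hs, h2]) (by linarith only [hr]) (by linarith only [hum, h2])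
      (by linarith only [hr, hum']) h0 hs ha' (by
        rw [abs_of_nonpos (show x * μ + (a : ℝ) / 1000 ≤ 0 by linarith only [ha, hb, hab]), abs_le]
        constructor <;> linarith only [ha, e1, hb, hab])
    have h4 := hf.fl hl hr
    linarith only [h3, h4]

theorem vim (H : Kn y t k) (hr : 75 / 100 ≤ y) : (lv y k).im = 20 * t * (8 / 10 - y) := by
  rw [lv_im, H.r hr]
  ring

/-! ### round `L0` -/

theorem gen0 (cw : runT (rowN 2 (cE p ca cb) e a) T1 (bx 0 20 m0 m1 0 800) = true)
    (cq : runT (rowS (cE p ca cb) e (kQ a) (kQ b') fN0) T2 (bx 20 70 m0 m1 0 750) = true)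
    (cr : runT (rowS (cE p ca cb) e (kR a) (kR b) fN0) T3 (bx 20 70 m0 m1 750 800) = true)
    (H : Kn y t k) (hm : (m0 : ℝ) / 10000 ≤ μ ∧ μ ≤ (m1 : ℝ) / 10000)
    (ha : (a : ℝ) / 1000 ≤ t) (hb : t ≤ (b : ℝ) / 1000) (ha0 : (a : ℝ) ≤ 0)
    (hb0 : 0 ≤ (b' : ℝ)) (hbb : (b : ℝ) ≤ b') (hm0 : -13200 ≤ (m0 : ℝ)) (hm1 : (m1 : ℝ) ≤ 13200)
    (h0 : 0 < x) (h1 : x ≤ 70 / 1000) : (e : ℝ) / 1000 < sd 2 (cR p ca cb x) x μ y k := by
  have hy0 := H.y0
  have hy1 := H.y1
  rcases le_total x (20 / 1000) with hx | hx
  · refine rowW_of cw h0 (by linarith only [hx]) ?_ hm ⟨by push_cast; linarith only [hy0], by push_cast; linarith only [hy1]⟩ hy0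
      (by linarith only [h0, hy1, hx]) (H.q0 ha (B := (b' : ℝ) / 1000) (by linarith only [hb, hbb]) (by linarith only [ha0]) (by linarith only [hb0])).1
    rw [abs_le]
    constructor <;> linarith only [hm, hm0, hm1, hm.1, hm.2]
  · rcases le_total y (75 / 100) with hy | hy
    · exact useQ0 cq H ha (by linarith only [hb, hbb]) ha0 hb0 ⟨by push_cast; linarith only [hx], by push_cast; linarith only [h1]⟩ hm
        ⟨by push_cast; linarith only [hy0], by push_cast; linarith only [hy]⟩ h0 (by linarith only [h0, h1, hy1])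
    · exact useR cr H ha hb hy ⟨by push_cast; linarith only [hx], by push_cast; linarith only [h1]⟩ hm
        ⟨by push_cast; linarith only [hy], by push_cast; linarith only [hy1]⟩ h0 (by linarith only [h0, h1, hy1])

open SR

/-- the shift -/
noncomputable def cS : Cl → ℝ → ℝ
  | .one => cR 2 0 4500
  | _ => cR 1 0 0

/-- window of the slope (in ten thousandths) -/
def wm : Cl → ℤ × ℤ
  | .one => (-7634, -1400)
  | .two => (-4385, 385)
  | .twoE => (-7539, -5846)
  | .three => (-1693, 1693)
  | .threeE => (-2154, -384)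
  | .ring => (-77, 4385)

/-- window of the height of the inner variable (in thousandths) -/
def wt : Cl → ℤ × ℤ
  | .one => (-123, -15)
  | .twoE => (-95, -5)
  | .ring => (-106, 0)
  | _ => (-116, 5)

/-- bounds of the side in the left rounds (in thousandths) -/
def e2 : ℕ → Cl → ℤ
  | 0, .one => -250
  | 0, .two => -100
  | 0, .twoE => 190
  | 0, .three => -50
  | 0, .threeE => 40
  | 0, .ring => 0
  | 1, .one => -440
  | 1, .two => -200
  | 1, .twoE => 190
  | 1, .three => -50
  | 1, .threeE => 40
  | 1, .ring => 30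
  | _, .one => -285
  | _, .two => -200
  | _, .twoE => 190
  | _, .three => -50
  | _, .threeE => 40
  | _, .ring => -100

/-- slope and height windows -/
structure Wd (K : Cl) (μ t : ℝ) : Prop where
  m0 : ((wm K).1 : ℝ) / 10000 ≤ μ
  m1 : μ ≤ ((wm K).2 : ℝ) / 10000
  t0 : ((wt K).1 : ℝ) / 1000 ≤ t
  t1 : t ≤ ((wt K).2 : ℝ) / 1000

/-- **The round `L0`**: no condition on the inner variable. -/
theorem s2_0 {K : Cl} (H : Kn y t k) (W : Wd K μ t) (h0 : 0 < x) (h1 : x ≤ 70 / 1000) :
    (e2 0 K : ℝ) / 1000 < sd 2 (cS K x) x μ y k := by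
  obtain ⟨hm0, hm1, ht0, ht1⟩ := W
  cases K <;> simp only [wm, wt] at hm0 hm1 ht0 ht1 <;> simp only [e2, cS]
  · exact gen0 c1_0w c1_0q c1_0r H ⟨hm0, hm1⟩ ht0 ht1 (by norm_num) (by norm_num) (by norm_num)
      (by norm_num) (by norm_num) h0 h1
  · exact gen0 c2_0w c2_0q c2_0r H ⟨hm0, hm1⟩ ht0 ht1 (by norm_num) (by norm_num) (by norm_num)
      (by norm_num) (by norm_num) h0 h1
  · exact gen0 c2e_0w c2e_0q c2e_0r H ⟨hm0, hm1⟩ ht0 ht1 (by norm_num) (by norm_num) (by norm_num)
      (by norm_num) (by norm_num) h0 h1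
  · exact gen0 c3_0w c3_0q c3_0r H ⟨hm0, hm1⟩ ht0 ht1 (by norm_num) (by norm_num) (by norm_num)
      (by norm_num) (by norm_num) h0 h1
  · exact gen0 c3e_0w c3e_0q c3e_0r H ⟨hm0, hm1⟩ ht0 ht1 (by norm_num) (by norm_num) (by norm_num)
      (by norm_num) (by norm_num) h0 h1
  · exact gen0 cZ_0w cZ_0q cZ_0r H ⟨hm0, hm1⟩ ht0 ht1 (by norm_num) (by norm_num) (by norm_num)
      (by norm_num) (by norm_num) h0 h1

/-! ### round `L1` -/

/-- **The round `L1`**: `7/100 ≤ x ≤ 11/100`. -/
theorem s2_1 {K : Cl} (H : Kn y t k) (W : Wd K μ t) (hf : Fc u x μ y t k) (hu : VN.U65 u)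
    (h0 : 70 / 1000 ≤ x) (h1 : x ≤ 110 / 1000) :
    (e2 1 K : ℝ) / 1000 < sd 2 (cS K x) x μ y k := by
  obtain ⟨hm0, hm1, ht0, ht1⟩ := W
  have hy0 := H.y0
  have hy1 := H.y1
  have hre : (lv y k).re = y := lv_re _ _
  have hwre : (lv x (x * μ)).re = x := lv_re _ _
  have hwim : (lv x (x * μ)).im = x * μ := lv_im _ _
  cases K <;> simp only [wm, wt] at hm0 hm1 ht0 ht1 <;> simp only [e2, cS]
  · rcases le_or_gt y (5 / 100) with hl | hl
    · exact useL c1_1l H ht0 ht1 hl ⟨by push_cast; linarith only [h0], by push_cast; linarith only [h1]⟩ ⟨hm0, hm1⟩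
        ⟨by push_cast; linarith only [hy0], by push_cast; linarith only [hl]⟩ (by linarith only [h0]) (by linarith only [h1, hy1])
    · rcases le_or_gt y (75 / 100) with hr | hr
      · exact useQ c1_1q H ht0 ht1 hl.le hr ⟨by push_cast; linarith only [h0], by push_cast; linarith only [h1]⟩
          ⟨hm0, hm1⟩ ⟨by push_cast; linarith only [hl], by push_cast; linarith only [hr]⟩ (by linarith only [h0]) (by linarith only [h1, hy1])
      · exfalso
        have g := VN.rr_1 (w := lv x (x * μ)) hu hre (vim H hr.le) hwre hwim h0 (by linarith only [h1, hy1, hr])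
          (by push_cast at hm0; linarith only [hm0]) (by push_cast at hm1; linarith only [hm1])
          (by push_cast at ht0; linarith only [ht0]) (by push_cast at ht1; linarith only [ht1]) hr.le (by linarith only [hy1])
        have := hf.fr hr
        linarith only [g, this]
  · rcases le_total y (75 / 100) with hr | hr
    · exact useQ0 c2_1q H ht0 ht1 (by norm_num) (by norm_num)
        ⟨by push_cast; linarith only [h0], by push_cast; linarith only [h1]⟩ ⟨hm0, hm1⟩
        ⟨by push_cast; linarith only [hy0], by push_cast; linarith only [hr]⟩ (by linarith only [h0]) (by linarith only [h1, hy1])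
    · exact useR c2_1r H ht0 ht1 hr ⟨by push_cast; linarith only [h0], by push_cast; linarith only [h1]⟩ ⟨hm0, hm1⟩
        ⟨by push_cast; linarith only [hr], by push_cast; linarith only [hy1]⟩ (by linarith only [h0]) (by linarith only [h1, hy1])
  · rcases le_or_gt y (75 / 100) with hr | hr
    · exact useQ0 (b' := 0) c2e_1q H ht0 (by push_cast at ht1 ⊢; linarith only [ht1]) (by norm_num)
        (by norm_num) ⟨by push_cast; linarith only [h0], by push_cast; linarith only [h1]⟩ ⟨hm0, hm1⟩
        ⟨by push_cast; linarith only [hy0], by push_cast; linarith only [hr]⟩ (by linarith only [h0]) (by linarith only [h1, hy1])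
    · exfalso
      have g := VN.rr_2e (w := lv x (x * μ)) hu hre (vim H hr.le) hwre hwim h0 (by linarith only [h1, hy1, hr])
        (by push_cast at hm0; linarith only [hm0]) (by push_cast at hm1; linarith only [hm1])
        (by push_cast at ht0; linarith only [ht0]) (by push_cast at ht1; linarith only [ht1]) hr.le (by linarith only [hy1])
      have := hf.fr hr
      linarith only [g, this]
  · rcases le_total y (75 / 100) with hr | hr
    · exact useQ0 c3_1q H ht0 ht1 (by norm_num) (by norm_num)
        ⟨by push_cast; linarith only [h0], by push_cast; linarith only [h1]⟩ ⟨hm0, hm1⟩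
        ⟨by push_cast; linarith only [hy0], by push_cast; linarith only [hr]⟩ (by linarith only [h0]) (by linarith only [h1, hy1])
    · exact useR c3_1r H ht0 ht1 hr ⟨by push_cast; linarith only [h0], by push_cast; linarith only [h1]⟩ ⟨hm0, hm1⟩
        ⟨by push_cast; linarith only [hr], by push_cast; linarith only [hy1]⟩ (by linarith only [h0]) (by linarith only [h1, hy1])
  · rcases le_total y (75 / 100) with hr | hr
    · exact useQ0 c3e_1q H ht0 ht1 (by norm_num) (by norm_num)
        ⟨by push_cast; linarith only [h0], by push_cast; linarith only [h1]⟩ ⟨hm0, hm1⟩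
        ⟨by push_cast; linarith only [hy0], by push_cast; linarith only [hr]⟩ (by linarith only [h0]) (by linarith only [h1, hy1])
    · rcases le_total x (100 / 1000) with hx | hx
      · exact useR c3e_1r H ht0 ht1 hr ⟨by push_cast; linarith only [h0], by push_cast; linarith only [hx]⟩
          ⟨hm0, hm1⟩ ⟨by push_cast; linarith only [hr], by push_cast; linarith only [hy1]⟩ (by linarith only [h0]) (by linarith only [h1, hy1])
      · rcases le_or_gt y (78 / 100) with hs | hs
        · exact useR c3e_1s H ht0 ht1 hr ⟨by push_cast; linarith only [hx], by push_cast; linarith only [h1]⟩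
            ⟨hm0, hm1⟩ ⟨by push_cast; linarith only [hr], by push_cast; linarith only [hs]⟩ (by linarith only [hx])
            (by linarith only [h1, hy1])
        · exfalso
          have g := VN.rr_3e (w := lv x (x * μ)) hu hre (vim H hr) hwre hwim hx (by linarith only [h1])
            (by push_cast at hm0; linarith only [hm0]) (by push_cast at hm1; linarith only [hm1])
            (by push_cast at ht0; linarith only [ht0]) (by push_cast at ht1; linarith only [ht1]) hs.le (by linarith only [hy1])
          have := hf.fr (by linarith only [hs])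
          linarith only [g, this]
  · rcases le_total y (75 / 100) with hr | hr
    · exact useQ0 cZ_1q H ht0 ht1 (by norm_num) (by norm_num)
        ⟨by push_cast; linarith only [h0], by push_cast; linarith only [h1]⟩ ⟨hm0, hm1⟩
        ⟨by push_cast; linarith only [hy0], by push_cast; linarith only [hr]⟩ (by linarith only [h0]) (by linarith only [h1, hy1])
    · exact useR cZ_1r H ht0 ht1 hr ⟨by push_cast; linarith only [h0], by push_cast; linarith only [h1]⟩ ⟨hm0, hm1⟩
        ⟨by push_cast; linarith only [hr], by push_cast; linarith only [hy1]⟩ (by linarith only [h0]) (by linarith only [h1, hy1])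

/-! ### round `L2` -/

/-- the hinge at slot `0` at most `47/100` -/
structure U47 (u : ℂ) (t : ℝ) : Prop where
  u0 : 7 / 100 ≤ u.re
  u1 : u.re ≤ 47 / 100
  t0 : -(1145 / 10000) ≤ u.im
  t1 : u.im ≤ 57 / 1000
  tt : t < -(90 / 1000) → -(98 / 1000) ≤ u.im

theorem U47.u50 (H : U47 u t) : VN.U50 u := ⟨H.u0, by linarith only [H, H.u1], H.t0, H.t1⟩

theorem U47.u65 (H : U47 u t) : VN.U65 u :=
  ⟨H.u0, by linarith only [H, H.u1], fun _ => ⟨H.t0, H.t1⟩, fun h => absurd H.u1 (by linarith only [h])⟩

/-- end of the range of `x` in the round `L2` -/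
def xe : Cl → ℤ
  | .one => 150
  | _ => 130

/-- **The round `L2`**: `11/100 ≤ x`, hinge at slot `0` at most `47/100`. -/
theorem s2_2 {K : Cl} (H : Kn y t k) (W : Wd K μ t) (hf : Fc u x μ y t k) (hu : U47 u t)
    (h0 : 110 / 1000 ≤ x) (h1 : x ≤ (xe K : ℝ) / 1000) :
    (e2 2 K : ℝ) / 1000 < sd 2 (cS K x) x μ y k := by
  obtain ⟨hm0, hm1, ht0, ht1⟩ := W
  have hy0 := H.y0
  have hy1 := H.y1
  have hre : (lv y k).re = y := lv_re _ _
  have hwre : (lv x (x * μ)).re = x := lv_re _ _
  have hwim : (lv x (x * μ)).im = x * μ := lv_im _ _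
  have hT := hu.t0
  cases K <;> simp only [wm, wt] at hm0 hm1 ht0 ht1 <;> simp only [e2, cS] <;>
    simp only [xe] at h1 <;> push_cast at h1
  · have hxm : x * μ ≤ 0 :=
      mul_nonpos_of_nonneg_of_nonpos (by linarith only [h0]) (by push_cast at hm1; linarith only [hm1])
    rcases le_or_gt y (5 / 100) with hl | hl
    · exact useL c1_2l H ht0 ht1 hl ⟨by push_cast; linarith only [h0], by push_cast; linarith only [h1]⟩ ⟨hm0, hm1⟩
        ⟨by push_cast; linarith only [hy0], by push_cast; linarith only [hl]⟩ (by linarith only [h0]) (by linarith only [hy1, h1])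
    · rcases le_or_gt y (75 / 100) with hr | hr
      · have key : ∀ {a b Tm : ℤ} {T : Tr},
            runT (rowS (cE 2 0 4500) (-285) (kQ a) (kQ b) (fF a 47 Tm)) T
              (bx 110 150 (-7634) (-1400) 50 750) = true →
            (a : ℝ) / 1000 ≤ t → t ≤ (b : ℝ) / 1000 → -((Tm : ℝ) / 10000) ≤ u.im →
            (a : ℝ) / 1000 + (b : ℝ) / 1000 ≤ 0 →
            ((-285 : ℤ) : ℝ) / 1000 < sd 2 (cR 2 0 4500 x) x μ y k := by
          intro a b Tm T c h3 h4 h5 h6
          exact useF c H hf h3 h4 hl hr ⟨by push_cast; linarith only [h0], by push_cast; linarith only [h1]⟩ ⟨hm0, hm1⟩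
            ⟨by push_cast; linarith only [hl], by push_cast; linarith only [hr]⟩ (by linarith only [h0]) (by linarith only [hy1, h1]) hu.u0
            (by push_cast; exact hu.u1) (by norm_num) (by norm_num) h5 (by linarith only [hxm, h6])
        rcases lt_or_ge t (-(90 / 1000)) with q | q
        · have hT' := hu.tt q
          have hT2 : -(((980 : ℤ) : ℝ) / 10000) ≤ u.im := by push_cast; linarith only [hT']
          rcases le_total t (-(115 / 1000)) with r | r
          · exact key c1_2q0 ht0 (by push_cast; linarith only [r]) hT2 (by norm_num)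
          · rcases le_total t (-(108 / 1000)) with r | r
            · exact key c1_2q1 (by push_cast; linarith) (by push_cast; linarith only [r]) hT2 (by norm_num)
            · rcases le_total t (-(99 / 1000)) with r | r
              · exact key c1_2q2 (by push_cast; linarith) (by push_cast; linarith only [r]) hT2 (by norm_num)
              · exact key c1_2q3 (by push_cast; linarith only [r]) (by push_cast; linarith only [q]) hT2 (by norm_num)
        · have hT2 : -(((1145 : ℤ) : ℝ) / 10000) ≤ u.im := by push_cast; linarith only [hT]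
          rcases le_total t (-(82 / 1000)) with r | r
          · exact key c1_2q4 (by push_cast; linarith only [q]) (by push_cast; linarith only [r]) hT2 (by norm_num)
          · rcases le_total t (-(74 / 1000)) with r | r
            · exact key c1_2q5 (by push_cast; linarith) (by push_cast; linarith only [r]) hT2 (by norm_num)
            · rcases le_total t (-(66 / 1000)) with r | r
              · exact key c1_2q6 (by push_cast; linarith) (by push_cast; linarith only [r]) hT2 (by norm_num)
              · rcases le_total t (-(54 / 1000)) with r | r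
                · exact key c1_2q7 (by push_cast; linarith) (by push_cast; linarith only [r]) hT2 (by norm_num)
                · rcases le_total t (-(42 / 1000)) with r | r
                  · exact key c1_2q8 (by push_cast; linarith) (by push_cast; linarith only [r]) hT2 (by norm_num)
                  · exact key c1_2q9 (by push_cast; linarith only [r]) ht1 hT2 (by norm_num)
      · exfalso
        have g := VN.rr_1 (w := lv x (x * μ)) hu.u65 hre (vim H hr.le) hwre hwim (by linarith only [h0, hy1, hr])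
          (by linarith only [h1]) (by push_cast at hm0; linarith only [hm0]) (by push_cast at hm1; linarith only [hm1])
          (by push_cast at ht0; linarith only [ht0]) (by push_cast at ht1; linarith only [ht1]) hr.le (by linarith only [hy1])
        have := hf.fr hr
        linarith only [g, this]
  · rcases le_or_gt y (5 / 100) with hl | hl
    · exact useL c2_2l H ht0 ht1 hl ⟨by push_cast; linarith only [h0], by push_cast; linarith only [h1]⟩ ⟨hm0, hm1⟩
        ⟨by push_cast; linarith only [hy0], by push_cast; linarith only [hl]⟩ (by linarith only [h0]) (by linarith only [hy1, h1])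
    · rcases le_or_gt y (75 / 100) with hr | hr
      · exact useQ c2_2q H ht0 ht1 hl.le hr ⟨by push_cast; linarith only [h0], by push_cast; linarith only [h1]⟩
          ⟨hm0, hm1⟩ ⟨by push_cast; linarith only [hl], by push_cast; linarith only [hr]⟩ (by linarith only [h0]) (by linarith only [hy1, h1])
      · exfalso
        have g := VN.rr_r (w := lv x (x * μ)) hu.u50 hre (vim H hr.le) hwre hwim (by linarith only [h0, hy1, hr])
          (by linarith only [h1]) (by push_cast at hm0; linarith only [hm0]) (by push_cast at hm1; linarith only [hy1, hr, hm1])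
          (by push_cast at ht0; linarith only [ht0]) (by push_cast at ht1; linarith only [ht1]) hr.le (by linarith only [hy1])
        have := hf.fr hr
        linarith only [g, this]
  · have hxm : x * μ ≤ 0 :=
      mul_nonpos_of_nonneg_of_nonpos (by linarith only [h0]) (by push_cast at hm1; linarith only [hm1])
    rcases le_or_gt y (5 / 100) with hl | hl
    · exact useL c2e_2l H ht0 ht1 hl ⟨by push_cast; linarith only [h0], by push_cast; linarith only [h1]⟩ ⟨hm0, hm1⟩
        ⟨by push_cast; linarith only [hy0], by push_cast; linarith only [hl]⟩ (by linarith only [h0]) (by linarith only [hy1, h1])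
    · rcases le_or_gt y (75 / 100) with hr | hr
      · exact useF c2e_2q H hf ht0 ht1 hl hr
          ⟨by push_cast; linarith only [h0], by push_cast; linarith only [h1]⟩ ⟨hm0, hm1⟩
          ⟨by push_cast; linarith only [hl], by push_cast; linarith only [hr]⟩ (by linarith only [h0]) (by linarith only [hy1, h1]) hu.u0
          (by push_cast; exact hu.u1) (by norm_num) (by norm_num) (by push_cast; linarith only [hT])
          (by push_cast; linarith only [hxm])
      · exfalso
        have g := VN.rr_2e (w := lv x (x * μ)) hu.u65 hre (vim H hr.le) hwre hwim (by linarith only [h0, hy1, hr])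
          (by linarith only [h1]) (by push_cast at hm0; linarith only [hm0]) (by push_cast at hm1; linarith only [hm1])
          (by push_cast at ht0; linarith only [ht0]) (by push_cast at ht1; linarith only [ht1]) hr.le (by linarith only [hy1])
        have := hf.fr hr
        linarith only [g, this]
  · have hxm : x * μ ≤ 130 / 1000 * (1693 / 10000) := by
      push_cast at hm1
      have h3 : x * μ ≤ x * (1693 / 10000) := mul_le_mul_of_nonneg_left hm1 (by linarith only [h0])
      linarith only [h1, h3]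
    rcases le_or_gt y (5 / 100) with hl | hl
    · exact useL c3_2l H ht0 ht1 hl ⟨by push_cast; linarith only [h0], by push_cast; linarith only [h1]⟩ ⟨hm0, hm1⟩
        ⟨by push_cast; linarith only [hy0], by push_cast; linarith only [hl]⟩ (by linarith only [h0]) (by linarith only [hy1, h1])
    · rcases le_or_gt y (75 / 100) with hr | hr
      · exact useF c3_2q H hf ht0 ht1 hl hr
          ⟨by push_cast; linarith only [h0], by push_cast; linarith only [h1]⟩ ⟨hm0, hm1⟩
          ⟨by push_cast; linarith only [hl], by push_cast; linarith only [hr]⟩ (by linarith only [h0]) (by linarith only [hy1, h1]) hu.u0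
          (by push_cast; exact hu.u1) (by norm_num) (by norm_num) (by push_cast; linarith only [hT])
          (by push_cast; linarith only [hxm])
      · exfalso
        have g := VN.rr_r (w := lv x (x * μ)) hu.u50 hre (vim H hr.le) hwre hwim (by linarith only [h0, hy1, hr])
          (by linarith only [h1]) (by push_cast at hm0; linarith only [hy1, hr, hm0]) (by push_cast at hm1; linarith only [hy1, hr, hm1])
          (by push_cast at ht0; linarith only [ht0]) (by push_cast at ht1; linarith only [ht1]) hr.le (by linarith only [hy1])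
        have := hf.fr hr
        linarith only [g, this]
  · have hxm : x * μ ≤ 0 :=
      mul_nonpos_of_nonneg_of_nonpos (by linarith only [h0]) (by push_cast at hm1; linarith only [hm1])
    rcases le_or_gt y (5 / 100) with hl | hl
    · exact useL c3e_2l H ht0 ht1 hl ⟨by push_cast; linarith only [h0], by push_cast; linarith only [h1]⟩ ⟨hm0, hm1⟩
        ⟨by push_cast; linarith only [hy0], by push_cast; linarith only [hl]⟩ (by linarith only [h0]) (by linarith only [hy1, h1])
    · rcases le_or_gt y (75 / 100) with hr | hr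
      · exact useF c3e_2q H hf ht0 ht1 hl hr
          ⟨by push_cast; linarith only [h0], by push_cast; linarith only [h1]⟩ ⟨hm0, hm1⟩
          ⟨by push_cast; linarith only [hl], by push_cast; linarith only [hr]⟩ (by linarith only [h0]) (by linarith only [hy1, h1]) hu.u0
          (by push_cast; exact hu.u1) (by norm_num) (by norm_num) (by push_cast; linarith only [hT])
          (by push_cast; linarith only [hxm])
      · exfalso
        have g := VN.rr_r (w := lv x (x * μ)) hu.u50 hre (vim H hr.le) hwre hwim (by linarith only [h0, hy1, hr])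
          (by linarith only [h1]) (by push_cast at hm0; linarith only [hy1, hr, hm0]) (by push_cast at hm1; linarith only [hy1, hr, hm1])
          (by push_cast at ht0; linarith only [ht0]) (by push_cast at ht1; linarith only [ht1]) hr.le (by linarith only [hy1])
        have := hf.fr hr
        linarith only [g, this]
  · rcases le_or_gt y (5 / 100) with hl | hl
    · exact useL cZ_2l H ht0 ht1 hl ⟨by push_cast; linarith only [h0], by push_cast; linarith only [h1]⟩ ⟨hm0, hm1⟩
        ⟨by push_cast; linarith only [hy0], by push_cast; linarith only [hl]⟩ (by linarith only [h0]) (by linarith only [hy1, h1])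
    · rcases le_or_gt y (75 / 100) with hr | hr
      · exact useQ cZ_2q H ht0 ht1 hl.le hr ⟨by push_cast; linarith only [h0], by push_cast; linarith only [h1]⟩
          ⟨hm0, hm1⟩ ⟨by push_cast; linarith only [hl], by push_cast; linarith only [hr]⟩ (by linarith only [h0]) (by linarith only [hy1, h1])
      · exfalso
        have g := VN.rr_r (w := lv x (x * μ)) hu.u50 hre (vim H hr.le) hwre hwim (by linarith only [h0, hy1, hr])
          (by linarith only [h1]) (by push_cast at hm0; linarith only [hy1, hr, hm0]) (by push_cast at hm1; linarith only [hm1])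
          (by push_cast at ht0; linarith only [hy1, hr, ht0]) (by push_cast at ht1; linarith only [hy1, hr, ht1]) hr.le (by linarith only [hy1])
        have := hf.fr hr
        linarith only [g, this]

end ML

end Pool.Agent.Work.MP_b30479_gt.G2
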