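import Pool.Agent.Work.MP_b30479_gt.G2.S2Ld
import Pool.Agent.Work.MP_b30479_gt.G2.WLocX
import Pool.Agent.Work.MP_b30479_gt.G2.WMain

/-!
# The left rounds: the side of an inner digit `3` at its hinge in the slot `2`
-/

namespace Pool.Agent.Work.MP_b30479_gt.G2

open Finset VOL Filter Topology

namespace SR

open ML

variable {M : ℕ} {b : Fin (M + 1) → ℤ} {zs : DD (tyW b) ⊕ ZZ (tyW b) → ℂ}
variable {y : DD (tyW b) ⊕ ZZ (tyW b) → ℝ}
variable {h h' : Fin M} {i j j' : Fin (M + 1)} {p : Fin 3}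

/-! ### the inner variable -/

/-- the inner variable of an interior region with three crossings -/
def m3 (b : Fin (M + 1) → ℤ) (hc : clsW b i = .three) :
    {i : Fin (M + 1) // (tyW b i).isMid = true} := ⟨i, tyW_isMid (Or.inl hc)⟩

/-- the height of its path in the own frame -/
noncomputable def t3 (zs : DD (tyW b) ⊕ ZZ (tyW b) → ℂ) (hc : clsW b i = .three) : ℝ :=
  ofs (b i) (zs (.inl (.inr (m3 b hc)))).im

theorem pp_m3 (hc : clsW b i = .three) :
    (wpar b zs).XM (.inr (m3 b hc)) = 8 / 10 ∧ (wpar b zs).cl (.inr (m3 b hc)) = 5 / 100 ∧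
      (wpar b zs).cr (.inr (m3 b hc)) = 5 / 100 := by
  refine ⟨?_, ?_, ?_⟩ <;> simp [wpar, par1, mp, m3, hc]

theorem re_m3 (hc : clsW b i = .three) : (Yw b zs y i 1).re = y (.inl (.inr (m3 b hc))) := by
  have := Yw_mid (zs := zs) (y := y) (m3 b hc)
  change Yw b zs y i 1 = _ at this
  rw [this, ofr_pp_re]

theorem lv_m3 (hc : clsW b i = .three) :
    Yw b zs y i 1 = lv (y (.inl (.inr (m3 b hc)))) (Yw b zs y i 1).im := by
  apply Complex.ext
  · rw [lv_re, re_m3 hc]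
  · rw [lv_im]

/-- the inner variable of a maximiser is on its path -/
theorem kn_m3 (hc : clsW b i = .three) (hy : Mx b zs y) :
    Kn (y (.inl (.inr (m3 b hc)))) (t3 zs hc) (Yw b zs y i 1).im := by
  have r := mid_RH hy (m3 b hc)
  obtain ⟨e1, e2, e3⟩ := pp_m3 (zs := zs) hc
  rw [e1, e2, e3] at r
  have e4 : Yw b zs y (m3 b hc).1 1 = Yw b zs y i 1 := rfl
  have e5 : ofs (b (m3 b hc).1) (zs (.inl (.inr (m3 b hc)))).im = t3 zs hc := rfl
  rw [e4, e5] at r
  have e6 := re_m3 (zs := zs) (y := y) hc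
  have r0 := r.re0
  have r1 := r.reM
  have r2 := r.im
  rw [e6] at r0 r1 r2
  refine ⟨r0, r1, ?_, ?_, ?_⟩
  · intro h1
    rw [r2, tr_a (by norm_num) (by norm_num) (by norm_num) r0 h1]
    ring
  · intro h1 h2
    rw [r2, tr_b (by norm_num) (by norm_num) h1 (by linarith only [hc, h2]), mul_one]
  · intro h1
    rw [r2, tr_c (by norm_num) (by norm_num) (by norm_num) (by linarith only [hc, h1]) r1]
    ring

theorem cl_m3 (A : Adj h i 2 j) (hc : clsW b i = .three) :
    wcl b h = if clsW b j = .one then 15 / 100 else 13 / 100 := by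
  rw [A.cl_eq b, hc, hpp, if_pos rfl]
  rcases hj : clsW b j <;> simp [hp]

/-! ### windows -/

theorem wd_m3 (A : Adj h i 2 j) (A' : Adj h' i 0 j') (hb : ClassW b) (hL : Loc b zs)
    (hX : LocX b zs) (hc : clsW b i = .three) :
    Wd (clsW b j) (ofs (b i) (zs (.inl (.inl h))).im / wcl b h) (t3 zs hc) := by
  obtain ⟨-, -, k1, k2⟩ := A.box hb hL
  obtain ⟨k3, k4, -, -⟩ := hX.mid (tyW_isMid (Or.inl hc)) A' A hc
  have k5 := fun hj => hX.three A hc hj
  have hcl := cl_m3 A hc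
  have e : ofs (b i) (zs (.inl (.inr ⟨i, tyW_isMid (Or.inl hc)⟩))).im = t3 zs hc := rfl
  rw [e] at k3 k4
  have ht : ((wt (clsW b j)).1 : ℝ) / 1000 ≤ t3 zs hc ∧ t3 zs hc ≤ ((wt (clsW b j)).2 : ℝ) / 1000 := by
    rcases hj : clsW b j <;> rcases hj' : clsW b j' <;> rw [hj, hj'] at k3 k4 <;>
      simp only [mw] at k3 k4 <;> simp only [wt] <;> push_cast <;> constructor <;> linarith only [hc, k3, k4]
  have hm : ((wm (clsW b j)).1 : ℝ) / 10000 * wcl b h ≤ ofs (b i) (zs (.inl (.inl h))).im ∧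
      ofs (b i) (zs (.inl (.inl h))).im ≤ ((wm (clsW b j)).2 : ℝ) / 10000 * wcl b h := by
    rw [hcl]
    rw [hc] at k1 k2
    rcases hj : clsW b j <;> rw [hj] at k1 k2 k5 <;> simp only [hbox] at k1 k2 <;>
      simp only [wm] <;> push_cast <;> norm_num at k5 ⊢ <;> constructor <;> linarith only [k1, k2, k5]
  have hp := wcl_pos (b := b) h
  exact ⟨(le_div_iff₀ hp).2 hm.1, (div_le_iff₀ hp).2 hm.2, ht.1, ht.2⟩

/-- height of the hinge in the slot `0` -/
theorem im0_m3 (A' : Adj h' i 0 j') (hb : ClassW b) (hL : Loc b zs) (hy : Mx b zs y)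
    (hc : clsW b i = .three) :
    -(1145 / 10000) ≤ (Yw b zs y i 0).im ∧ (Yw b zs y i 0).im ≤ 57 / 1000 ∧
      (clsW b j' ≠ .one → -(98 / 1000) ≤ (Yw b zs y i 0).im) := by
  obtain ⟨-, -, k1, k2⟩ := A'.box hb hL
  have r := A'.rh hy
  have h0 : 0 ≤ tr 0 (wXM b h') (wcl b h') (wcr b h') (Yw b zs y i 0).re := le_max_left _ _
  have h1 : tr 0 (wXM b h') (wcl b h') (wcr b h') (Yw b zs y i 0).re ≤ 1 :=
    max_le zero_le_one (min_le_left _ _)
  rw [r.im]
  have k3 : -(1145 / 10000) ≤ ofs (b i) (zs (.inl (.inl h'))).im ∧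
      ofs (b i) (zs (.inl (.inl h'))).im ≤ 57 / 1000 ∧
      (clsW b j' ≠ .one → -(98 / 1000) ≤ ofs (b i) (zs (.inl (.inl h'))).im) := by
    rw [hc] at k1 k2
    rcases hj : clsW b j' <;> rw [hj] at k1 k2 <;> simp only [hbox] at k1 k2 <;>
      refine ⟨by linarith only [k1], by linarith only [k2], fun hn => ?_⟩ <;>
      first | exact absurd rfl hn | linarith only [k1]
  obtain ⟨k4, k5, k6⟩ := k3
  generalize tr 0 (wXM b h') (wcl b h') (wcr b h') (Yw b zs y i 0).re = τ at h0 h1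
  generalize ofs (b i) (zs (.inl (.inl h'))).im = T at k4 k5 k6
  refine ⟨?_, ?_, fun hn => ?_⟩
  · exact (scale_bd k4 (le_max_left T 0) (by norm_num) (le_max_right _ _) h0 h1).1
  · exact (scale_bd (min_le_left T 0) k5 (min_le_right _ _) (by norm_num) h0 h1).2
  · exact (scale_bd (k6 hn) (le_max_left T 0) (by norm_num) (le_max_right _ _) h0 h1).1

/-- the side of the region at the hinge in the slot `2`, on the left ramp -/
theorem sd_m3 (A : Adj h i 2 j) (hb : ClassW b) (hy : Mx b zs y)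
    (hpos : ∀ h : Fin M, 0 < y (.inl (.inl h))) (hc : clsW b i = .three)
    (hx : y (.inl (.inl h)) ≤ wcl b h) (c : ℝ) :
    Yw b zs y i 2 = lv (y (.inl (.inl h))) (y (.inl (.inl h)) *
      (ofs (b i) (zs (.inl (.inl h))).im / wcl b h)) ∧
    Sw b zs y i 2 ((zs (.inl (.inl h))).im / wcl b h) +
      c * ofs (b i) ((zs (.inl (.inl h))).im / wcl b h) =
    sd 2 c (y (.inl (.inl h))) (ofs (b i) (zs (.inl (.inl h))).im / wcl b h)
      (y (.inl (.inr (m3 b hc)))) (Yw b zs y i 1).im := by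
  have r := A.rh hy
  obtain ⟨g1, g2, g3⟩ := And.intro (wcl_pos (b := b) h) (And.intro (wcr_pos (b := b) h)
    (w_sum (b := b) h))
  have e := A.re (zs := zs) (y := y)
  have e2 : Yw b zs y i 2 = lv (y (.inl (.inl h))) (y (.inl (.inl h)) *
      (ofs (b i) (zs (.inl (.inl h))).im / wcl b h)) := by
    apply Complex.ext
    · rw [lv_re, e]
    · rw [lv_im, r.im, e, tr_a g1 g2 g3 (by rw [← e]; exact r.re0) hx]
      ring
  refine ⟨e2, ?_⟩
  have K := kn_m3 hc hy
  have hcl : wcl b h ≤ 15 / 100 := by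
    rw [cl_m3 A hc]
    split_ifs <;> norm_num
  rw [A.side_three_two hb hc, e2, lv_m3 hc, ofs_div, lv_im]
  exact S2_sd0 c (hpos h) K.y0 (by linarith only [hc, hx, g1, hcl, K, K.y1])

/-- first-order conditions -/
theorem fc_m3 (A : Adj h i 2 j) (hb : ClassW b) (hy : Mx b zs y)
    (hpos : ∀ h : Fin M, 0 < y (.inl (.inl h))) (hc : clsW b i = .three)
    (hx : y (.inl (.inl h)) ≤ wcl b h) :
    Fc (Yw b zs y i 0) (y (.inl (.inl h))) (ofs (b i) (zs (.inl (.inl h))).im / wcl b h)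
      (y (.inl (.inr (m3 b hc)))) (t3 zs hc) (Yw b zs y i 1).im := by
  have e := (sd_m3 A hb hy hpos hc hx 0).1
  have key : 0 < y (.inl (.inr (m3 b hc))) → FOC (Yw b zs y i 1) (t3 zs hc) (8 / 10) (5 / 100)
      (5 / 100) (fun m => SM m (Yw b zs y i 0) (Yw b zs y i 1) (Yw b zs y i 2)) := by
    intro hm
    have f := mid_fc hb hy hpos (m3 b hc) hm
    obtain ⟨e1, e2, e3⟩ := pp_m3 (zs := zs) hc
    rw [e1, e2, e3] at f
    have e4 : OM b zs y (m3 b hc).1 = fun m => SM m (Yw b zs y i 0) (Yw b zs y i 1)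
        (Yw b zs y i 2) := by
      funext m
      exact OM_three hc m
    rw [e4] at f
    exact f
  have e5 := re_m3 (zs := zs) (y := y) hc
  constructor
  · intro h1 h2
    have f := (key (by linarith only [hc, h1])).flat' (by rw [e5]; exact h1) (by rw [e5]; linarith only [hc, h2])
    rw [← lv_m3 hc, ← e]
    exact f
  · intro h1
    have f := (key (by linarith only [hc, h1])).right' (by rw [e5]; linarith only [hc, h1])
    rw [← lv_m3 hc, ← e]
    have e6 : -(t3 zs hc / (5 / 100)) = -(20 * t3 zs hc) := by ring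
    rw [e6] at f
    exact f

/-! ### the rounds -/

/-- **An interior region with three crossings at its hinge in the slot `2`, round `L0`**
(`y ≤ 7/100`). -/
theorem Adj.three2_L0 (A : Adj h i 2 j) (A' : Adj h' i 0 j') (hb : ClassW b) (hL : Loc b zs)
    (hX : LocX b zs) (hy : Mx b zs y) (hpos : ∀ h : Fin M, 0 < y (.inl (.inl h)))
    (hc : clsW b i = .three) (hx : y (.inl (.inl h)) ≤ 70 / 1000) :
    (e2 0 (clsW b j) : ℝ) / 1000 < Sw b zs y i 2 ((zs (.inl (.inl h))).im / wcl b h) +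
      cS (clsW b j) (y (.inl (.inl h))) * ofs (b i) ((zs (.inl (.inl h))).im / wcl b h) := by
  have hcl : y (.inl (.inl h)) ≤ wcl b h := by
    rw [cl_m3 A hc]
    split_ifs <;> linarith only [hx]
  rw [(sd_m3 A hb hy hpos hc hcl _).2]
  exact (s2_0 (kn_m3 hc hy) (wd_m3 A A' hb hL hX hc) (hpos h) hx)

/-- **Round `L1`** (`7/100 ≤ y ≤ 11/100`). -/
theorem Adj.three2_L1 (A : Adj h i 2 j) (A' : Adj h' i 0 j') (hb : ClassW b) (hL : Loc b zs)
    (hX : LocX b zs) (hy : Mx b zs y) (hpos : ∀ h : Fin M, 0 < y (.inl (.inl h)))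
    (hc : clsW b i = .three) (hx : 70 / 1000 ≤ y (.inl (.inl h)))
    (hx' : y (.inl (.inl h)) ≤ 110 / 1000) (hu : 70 / 1000 ≤ y (.inl (.inl h')))
    (hu' : clsW b j' ≠ .one → y (.inl (.inl h')) ≤ 1 / 2) :
    (e2 1 (clsW b j) : ℝ) / 1000 < Sw b zs y i 2 ((zs (.inl (.inl h))).im / wcl b h) +
      cS (clsW b j) (y (.inl (.inl h))) * ofs (b i) ((zs (.inl (.inl h))).im / wcl b h) := by
  have hcl : y (.inl (.inl h)) ≤ wcl b h := by
    rw [cl_m3 A hc]
    split_ifs <;> linarith only [hx']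
  have hU : VN.U65 (Yw b zs y i 0) := by
    have r := A'.rh hy
    have e := A'.re (zs := zs) (y := y)
    obtain ⟨k1, k2, -⟩ := im0_m3 A' hb hL hy hc
    have hw := A'.par b
    refine ⟨by rw [e]; linarith only [hu], ?_, fun _ => ⟨k1, k2⟩, ?_⟩
    · rcases eq_or_ne (clsW b j') .one with h1 | h1
      · have g : wXM b h' = 65 / 100 := by
          rw [A'.XM_eq b, hc, h1, hpp, if_neg (by decide)]
          simp [hp, hp1]
        have := r.reM
        rwa [g] at this
      · rw [e]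
        linarith only [hu', h1, hu' h1]
    · intro h2
      rw [e] at h2
      rcases eq_or_ne (clsW b j') .one with h1 | h1
      · have g : wXM b h' = 65 / 100 ∧ wcl b h' = 13 / 100 ∧ wcr b h' = 15 / 100 := by
          rw [A'.XM_eq b, A'.cl_eq b, A'.cr_eq b, hc, h1, hpp, if_neg (by decide)]
          simp [hp, hp1]
        obtain ⟨-, -, q1, q2⟩ := A'.box hb hL
        rw [hc, h1] at q1 q2
        simp only [hbox] at q1 q2
        refine ⟨ofs (b i) (zs (.inl (.inl h'))).im, ?_, q1, q2⟩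
        rw [r.im, g.1, g.2.1, g.2.2, tr_c (by norm_num) (by norm_num) (by norm_num)
          (by rw [e]; linarith only [h2]) (by rw [← g.1]; exact r.reM)]
      · exact absurd (hu' h1) (not_le.2 h2)
  rw [(sd_m3 A hb hy hpos hc hcl _).2]
  exact (s2_1 (kn_m3 hc hy) (wd_m3 A A' hb hL hX hc) (fc_m3 A hb hy hpos hc hcl) hU hx hx')

/-- **Round `L2`** (`11/100 ≤ y ≤ 13/100`, `15/100` next to a digit `1`); the hinge in the slot `0`
at most `47/100`. -/
theorem Adj.three2_L2 (A : Adj h i 2 j) (A' : Adj h' i 0 j') (hb : ClassW b) (hL : Loc b zs)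
    (hX : LocX b zs) (hy : Mx b zs y) (hpos : ∀ h : Fin M, 0 < y (.inl (.inl h)))
    (hc : clsW b i = .three) (hx : 110 / 1000 ≤ y (.inl (.inl h)))
    (hx' : y (.inl (.inl h)) ≤ (xe (clsW b j) : ℝ) / 1000) (hu : 70 / 1000 ≤ y (.inl (.inl h')))
    (hu' : y (.inl (.inl h')) ≤ 47 / 100) :
    (e2 2 (clsW b j) : ℝ) / 1000 < Sw b zs y i 2 ((zs (.inl (.inl h))).im / wcl b h) +
      cS (clsW b j) (y (.inl (.inl h))) * ofs (b i) ((zs (.inl (.inl h))).im / wcl b h) := by
  have hcl : y (.inl (.inl h)) ≤ wcl b h := by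
    rw [cl_m3 A hc]
    rcases hj : clsW b j <;> rw [hj] at hx' <;> simp only [xe] at hx' <;> push_cast at hx' <;>
      simp <;> linarith only [hx']
  have e := A'.re (zs := zs) (y := y)
  obtain ⟨k1, k2, k3⟩ := im0_m3 A' hb hL hy hc
  have hU : U47 (Yw b zs y i 0) (t3 zs hc) := by
    refine ⟨by rw [e]; linarith only [hu], by rw [e]; exact hu', k1, k2, fun ht => k3 fun h1 => ?_⟩
    obtain ⟨k3, -, -, -⟩ := hX.mid (tyW_isMid (Or.inl hc)) A' A hc
    have e' : ofs (b i) (zs (.inl (.inr ⟨i, tyW_isMid (Or.inl hc)⟩))).im = t3 zs hc := rfl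
    rw [e', h1] at k3
    rcases hj : clsW b j <;> rw [hj] at k3 <;> simp only [mw] at k3 <;> linarith only [hc, ht, k3]
  rw [(sd_m3 A hb hy hpos hc hcl _).2]
  exact (s2_2 (kn_m3 hc hy) (wd_m3 A A' hb hL hX hc) (fc_m3 A hb hy hpos hc hcl) hU hx hx')

end SR

end Pool.Agent.Work.MP_b30479_gt.G2
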