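import Pool.Agent.Work.MP_b30479_gt.G2.S2Le
import Pool.Agent.Work.MP_b30479_gt.G2.WTab

/-!
# The left rounds: the side of an inner digit `3` at its hinge in the slot `2`, form of the rounds
-/

namespace Pool.Agent.Work.MP_b30479_gt.G2

open Finset VOL Filter Topology

namespace SR

open ML

variable {M : ℕ} {b : Fin (M + 1) → ℤ} {zs : DD (tyW b) ⊕ ZZ (tyW b) → ℂ}
variable {y : DD (tyW b) ⊕ ZZ (tyW b) → ℝ}
variable {h h' : Fin M} {i j j' : Fin (M + 1)} {p : Fin 3}

theorem shL_cS (B : Cl) (x : ℝ) : shL .three B x = cS B x := by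
  rcases eq_or_ne B .one with rfl | h
  · simp only [shL, sh1, cS, cR]
    rw [if_neg (by decide), if_pos trivial]
    push_cast
    ring
  · have e : shL .three B x = Real.pi / 2 := by
      unfold shL
      rw [if_neg (by decide), if_neg h]
    rw [e]
    cases B <;> first
      | exact absurd rfl h
      | (simp only [cS, cR]; push_cast; ring)

/-- slot `2` of an interior region with three crossings, round `L0` -/
theorem three_side2_0 (hb : ClassW b) (hL : Loc b zs) (hX : LocX b zs) (hy : Mx b zs y)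
    (hpos : ∀ h : Fin M, 0 < y (.inl (.inl h))) (A : Adj h i 2 j) (hc : clsW b i = .three)
    (hx : y (.inl (.inl h)) < F0 2 .three (clsW b j)) :
    (e2 0 (clsW b j) : ℝ) / 1000 < Sw b zs y i 2 ((zs (.inl (.inl h))).im / wcl b h) +
      shL .three (clsW b j) (y (.inl (.inl h))) * ofs (b i) ((zs (.inl (.inl h))).im / wcl b h) := by
  obtain ⟨h', j', A'⟩ := A.other' b (clsW_inner hb (Or.inr (Or.inr hc)))
  rw [shL_cS]
  refine A.three2_L0 A' hb hL hX hy hpos hc ?_
  refine hx.le.trans ?_
  cases clsW b j <;> norm_num [F0]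

/-- slot `2` of an interior region with three crossings, round `L1` -/
theorem three_side2_1 (hb : ClassW b) (hL : Loc b zs) (hX : LocX b zs) (hy : Mx b zs y)
    (hpos : ∀ h : Fin M, 0 < y (.inl (.inl h))) (hF : Flr b y F0)
    (hC : ∀ {h : Fin M} {i j : Fin (M + 1)}, Adj h i 0 j → clsW b i = .three →
      clsW b j ≠ .one → y (.inl (.inl h)) ≤ 1 / 2) (A : Adj h i 2 j) (hc : clsW b i = .three)
    (hx : y (.inl (.inl h)) < F1 2 .three (clsW b j)) :
    (e2 1 (clsW b j) : ℝ) / 1000 < Sw b zs y i 2 ((zs (.inl (.inl h))).im / wcl b h) +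
      shL .three (clsW b j) (y (.inl (.inl h))) * ofs (b i) ((zs (.inl (.inl h))).im / wcl b h) := by
  obtain ⟨h', j', A'⟩ := A.other' b (clsW_inner hb (Or.inr (Or.inr hc)))
  have g1 := hF A
  have g2 := hF A'
  rw [hc] at g1 g2
  rw [shL_cS]
  refine A.three2_L1 A' hb hL hX hy hpos hc ?_ ?_ ?_ fun h1 => hC A' hc h1
  · refine le_trans ?_ g1
    cases clsW b j <;> norm_num [F0]
  · refine hx.le.trans ?_
    cases clsW b j <;> simp only [F1, if_true] <;> norm_num
  · refine le_trans ?_ g2
    cases clsW b j' <;> norm_num [F0]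

/-- slot `2` of an interior region with three crossings, round `L2` -/
theorem three_side2_2 (hb : ClassW b) (hL : Loc b zs) (hX : LocX b zs) (hy : Mx b zs y)
    (hpos : ∀ h : Fin M, 0 < y (.inl (.inl h))) (hF : Flr b y F1)
    (hC : ∀ {h : Fin M} {i j : Fin (M + 1)}, Adj h i 0 j → clsW b i = .three →
      y (.inl (.inl h)) ≤ 47 / 100) (A : Adj h i 2 j) (hc : clsW b i = .three)
    (hx : y (.inl (.inl h)) < F2 2 .three (clsW b j)) :
    (e2 2 (clsW b j) : ℝ) / 1000 < Sw b zs y i 2 ((zs (.inl (.inl h))).im / wcl b h) +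
      shL .three (clsW b j) (y (.inl (.inl h))) * ofs (b i) ((zs (.inl (.inl h))).im / wcl b h) := by
  obtain ⟨h', j', A'⟩ := A.other' b (clsW_inner hb (Or.inr (Or.inr hc)))
  have g1 := hF A
  have g2 := hF A'
  rw [hc] at g1 g2
  rw [shL_cS]
  refine A.three2_L2 A' hb hL hX hy hpos hc ?_ ?_ ?_ (hC A' hc)
  · refine le_trans ?_ g1
    cases clsW b j <;> simp only [F1, if_true] <;> norm_num
  · refine hx.le.trans ?_
    cases clsW b j <;> simp only [F2, xe, if_true] <;> norm_num
  · refine le_trans ?_ g2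
    cases clsW b j' <;> simp only [F1] <;> (try split_ifs) <;> norm_num

end SR

end Pool.Agent.Work.MP_b30479_gt.G2
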