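import Pool.Agent.Work.MP_b30479_gt.G2.S2Loc

/-!
# Location of a ring with at least eight crossings
-/

namespace Pool.Agent.Work.MP_b30479_gt.G2.SL

open Complex SC
open scoped ComplexConjugate

lemma sinh_re' (Q : ℂ) : (Complex.sinh Q).re = Real.sinh Q.re * Real.cos Q.im := by
  conv_lhs => rw [← Complex.re_add_im Q, Complex.sinh_add, Complex.sinh_mul_I, Complex.cosh_mul_I]
  simp [← Complex.ofReal_cos, ← Complex.ofReal_cosh, ← Complex.ofReal_sin, ← Complex.ofReal_sinh]

lemma sinh_im' (Q : ℂ) : (Complex.sinh Q).im = Real.cosh Q.re * Real.sin Q.im := by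
  conv_lhs => rw [← Complex.re_add_im Q, Complex.sinh_add, Complex.sinh_mul_I, Complex.cosh_mul_I]
  simp [← Complex.ofReal_cos, ← Complex.ofReal_cosh, ← Complex.ofReal_sin, ← Complex.ofReal_sinh]

lemma cosh_re' (Q : ℂ) : (Complex.cosh Q).re = Real.cosh Q.re * Real.cos Q.im := by
  conv_lhs => rw [← Complex.re_add_im Q, Complex.cosh_add, Complex.sinh_mul_I, Complex.cosh_mul_I]
  simp [← Complex.ofReal_cos, ← Complex.ofReal_cosh, ← Complex.ofReal_sin, ← Complex.ofReal_sinh]

lemma cosh_im' (Q : ℂ) : (Complex.cosh Q).im = Real.sinh Q.re * Real.sin Q.im := by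
  conv_lhs => rw [← Complex.re_add_im Q, Complex.cosh_add, Complex.sinh_mul_I, Complex.cosh_mul_I]
  simp [← Complex.ofReal_cos, ← Complex.ofReal_cosh, ← Complex.ofReal_sin, ← Complex.ofReal_sinh]

lemma sin_re' (w : ℂ) : (Complex.sin w).re = Real.sin w.re * Real.cosh w.im := by
  conv_lhs => rw [← Complex.re_add_im w, Complex.sin_add_mul_I]
  simp [← Complex.ofReal_cos, ← Complex.ofReal_cosh, ← Complex.ofReal_sin, ← Complex.ofReal_sinh]

lemma sin_im' (w : ℂ) : (Complex.sin w).im = Real.cos w.re * Real.sinh w.im := by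
  conv_lhs => rw [← Complex.re_add_im w, Complex.sin_add_mul_I]
  simp [← Complex.ofReal_cos, ← Complex.ofReal_cosh, ← Complex.ofReal_sin, ← Complex.ofReal_sinh]

/-- the imaginary part of the tangent -/
lemma tan_im (w : ℂ) : (Complex.tan w).im * normSq (Complex.cos w) =
    Real.cosh w.im * Real.sinh w.im := by
  by_cases hz : Complex.cos w = 0
  · have h1 : (Complex.cos w).re = 0 := by rw [hz]; rfl
    have h2 : (Complex.cos w).im = 0 := by rw [hz]; rfl
    rw [cos_re] at h1
    rw [cos_im] at h2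
    have hc := Real.cosh_pos w.im
    have h3 : Real.cos w.re = 0 := (mul_eq_zero.1 h1).resolve_right hc.ne'
    have h4 : Real.sin w.re ≠ 0 := fun h => by
      have := Real.sin_sq_add_cos_sq w.re
      rw [h, h3] at this
      norm_num at this
    have h5 : Real.sinh w.im = 0 := by
      have := neg_eq_zero.1 h2
      exact (mul_eq_zero.1 this).resolve_left h4
    rw [hz, h5]
    simp
  · have hn : normSq (Complex.cos w) ≠ 0 := by rwa [Ne, Complex.normSq_eq_zero]
    rw [Complex.tan, Complex.div_im, sub_mul, div_mul_cancel₀ _ hn, div_mul_cancel₀ _ hn, cos_re,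
      cos_im, sin_re', sin_im']
    have e := Real.sin_sq_add_cos_sq w.re
    linear_combination (Real.cosh w.im * Real.sinh w.im) * e

lemma tan_im_nonpos {w : ℂ} (h : w.im ≤ 0) (hz : Complex.cos w ≠ 0) : (Complex.tan w).im ≤ 0 := by
  have hn : 0 < normSq (Complex.cos w) := Complex.normSq_pos.2 hz
  have h1 : Real.cosh w.im * Real.sinh w.im ≤ 0 :=
    mul_nonpos_of_nonneg_of_nonpos (Real.cosh_pos _).le (Real.sinh_nonpos_iff.2 h)
  rw [← tan_im] at h1
  by_contra hc
  push Not at hc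
  exact absurd (mul_pos hc hn) (not_lt.2 h1)

lemma QQ_im (w k : ℂ) : (QQ w k).im = arg (Complex.tan w + RR w k) + arg k := by
  rw [QQ, Complex.add_im, Complex.log_im, Complex.log_im]

/-- the imaginary part of `Q` is strictly between `-π` and `π` -/
lemma QQ_im_lt {w k : ℂ} (h0 : 0 ≤ w.re) (h1 : w.re ≤ 3 / 2) (hk : 0 < k.re)
    (hR : 0 < (RR w k).re) : |(QQ w k).im| < Real.pi := by
  have hT := tan_re_nonneg h0 h1
  have h2 : |arg (Complex.tan w + RR w k)| < Real.pi / 2 := by
    rw [Complex.abs_arg_lt_pi_div_two_iff]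
    left
    rw [Complex.add_re]
    linarith only [hR, hT]
  have h3 : |arg k| < Real.pi / 2 := by
    rw [Complex.abs_arg_lt_pi_div_two_iff]
    exact Or.inl hk
  rw [QQ_im]
  calc |arg (Complex.tan w + RR w k) + arg k| ≤ |arg (Complex.tan w + RR w k)| + |arg k| :=
        abs_add_le _ _
    _ < Real.pi := by linarith only [h2, h3]

lemma arg_nonpos_of {z : ℂ} (h : z.im ≤ 0) (hr : 0 < z.re) : arg z ≤ 0 := by
  rcases eq_or_lt_of_le h with h1 | h1
  · have : z = ((z.re : ℝ) : ℂ) := Complex.ext (by simp) (by simp [h1])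
    rw [this, Complex.arg_ofReal_of_nonneg hr.le]
  · exact (Complex.arg_neg_iff.2 h1).le

/-- the bound of the imaginary part of `Q` -/
lemma QQ_im_le {w k : ℂ} (h0 : 0 < w.re) (h1 : w.re ≤ 3 / 2) (hz : Complex.cos w ≠ 0)
    (hy : w.im ≤ 0) (hk : 0 < k.re) (hki : k.im ≤ k.re)
    (hR : 0 < (RR w k).re) : (QQ w k).im ≤ Real.pi / 4 := by
  have hT := tan_re_pos h0 h1
  have hTi := tan_im_nonpos hy hz
  have hpi := Real.pi_pos
  rcases le_or_gt k.im 0 with hk0 | hk0
  · -- opposite sign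
    have h2 : (Complex.sinh (QQ w k)).im ≤ 0 := by
      rw [(QQ_cosh h0.le h1 hk hR).2, Complex.mul_im]
      have := mul_nonpos_of_nonneg_of_nonpos hT.le hk0
      have := mul_nonpos_of_nonpos_of_nonneg hTi hk.le
      linarith
    rw [sinh_im'] at h2
    have h3 : Real.sin (QQ w k).im ≤ 0 := by
      by_contra hc
      push Not at hc
      exact absurd (mul_pos (Real.cosh_pos (QQ w k).re) hc) (not_lt.2 h2)
    have h4 := QQ_im_lt h0.le h1 hk hR
    by_contra hc
    push Not at hc
    have := Real.sin_pos_of_pos_of_lt_pi (x := (QQ w k).im) (by linarith only [hpi, hc]) (abs_lt.1 h4).2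
    linarith only [h3, this]
  · -- equal sign
    have hR2 : (RR w k ^ 2).im ≤ 0 := by
      rw [RR_sq, ZZ0, Complex.add_im]
      have e1 : (Complex.tan w ^ 2).im = 2 * ((Complex.tan w).re * (Complex.tan w).im) := by
        rw [pow_two, Complex.mul_im]
        ring
      have e2 : ((k ^ 2)⁻¹).im = -(2 * (k.re * k.im)) / normSq (k ^ 2) := by
        rw [Complex.inv_im, pow_two, Complex.mul_im]
        ring
      have h5 := mul_nonpos_of_nonneg_of_nonpos hT.le hTi
      have h6 : -(2 * (k.re * k.im)) / normSq (k ^ 2) ≤ 0 := by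
        apply div_nonpos_of_nonpos_of_nonneg
        · have := mul_pos hk hk0
          linarith only [this]
        · exact Complex.normSq_nonneg _
      rw [e1, e2]
      linarith only [h5, h6]
    have hRi : (RR w k).im ≤ 0 := by
      rw [pow_two, Complex.mul_im] at hR2
      by_contra hc
      push Not at hc
      have := mul_pos hR hc
      linarith only [hR2, this]
    have ha1 : arg (Complex.tan w + RR w k) ≤ 0 := by
      apply arg_nonpos_of
      · rw [Complex.add_im]
        linarith only [hTi, hRi]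
      · rw [Complex.add_re]
        linarith only [hR, hT]
    have ha2 : arg k ≤ Real.pi / 4 := by
      rw [Complex.arg_of_re_nonneg hk.le, Real.arcsin_le_iff_le_sin' ⟨by linarith only [hpi], by linarith only [hpi]⟩,
        Real.sin_pi_div_four]
      have hkn : 0 < ‖k‖ := lt_of_lt_of_le hk (Complex.re_le_norm k)
      rw [div_le_iff₀ hkn]
      have e : ‖k‖ ^ 2 = k.re ^ 2 + k.im ^ 2 := by
        rw [Complex.sq_norm, Complex.normSq_apply]
        ring
      apply le_of_sq_le_sq _ (by positivity)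
      rw [mul_pow, div_pow, Real.sq_sqrt (by norm_num), e]
      nlinarith only [hk, hki, hk0]
    rw [QQ_im]
    linarith only [ha1, ha2]

/-- the real part of `Q` for real `w` -/
lemma QQ_re_pos {w k : ℂ} (h0 : 0 < w.re) (h1 : w.re ≤ 3 / 2) (hy : w.im = 0)
    (hk : 0 < k.re) (hR : 0 < (RR w k).re) (hz : Complex.cos w ≠ 0) : 0 < (QQ w k).re := by
  obtain ⟨c1, s1⟩ := QQ_cosh h0.le h1 hk hR
  have hT := tan_re_pos h0 h1
  have hTi : (Complex.tan w).im = 0 := by
    have := tan_im w
    rw [hy, Real.sinh_zero, mul_zero] at this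
    exact (mul_eq_zero.1 this).resolve_right (by rwa [Complex.normSq_eq_zero])
  have e : (Complex.sinh (QQ w k)).re * (Complex.cosh (QQ w k)).re +
      (Complex.sinh (QQ w k)).im * (Complex.cosh (QQ w k)).im =
      Real.sinh (QQ w k).re * Real.cosh (QQ w k).re := by
    rw [sinh_re', sinh_im', cosh_re', cosh_im']
    have := Real.sin_sq_add_cos_sq (QQ w k).im
    linear_combination (Real.sinh (QQ w k).re * Real.cosh (QQ w k).re) * this
  have e2 : (Complex.sinh (QQ w k)).re * (Complex.cosh (QQ w k)).re +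
      (Complex.sinh (QQ w k)).im * (Complex.cosh (QQ w k)).im =
      (Complex.tan w).re * (RR w k).re * (k.re ^ 2 + k.im ^ 2) := by
    rw [c1, s1]
    simp only [Complex.mul_re, Complex.mul_im, hTi]
    ring
  rw [e] at e2
  have h3 : 0 < Real.sinh (QQ w k).re * Real.cosh (QQ w k).re := by
    rw [e2]
    have : 0 < k.re ^ 2 + k.im ^ 2 := by positivity
    positivity
  have h4 : 0 < Real.sinh (QQ w k).re := (mul_pos_iff_of_pos_right (Real.cosh_pos _)).1 h3
  exact Real.sinh_pos_iff.1 h4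

/-- `4 sinh x ≤ sinh (4 x)` -/
lemma four_sinh {x : ℝ} (hx : 0 ≤ x) : 4 * Real.sinh x ≤ Real.sinh (4 * x) := by
  have h2 : 2 * Real.sinh x ≤ Real.sinh (2 * x) := by
    rw [Real.sinh_two_mul]
    have := Real.one_le_cosh x
    have := Real.sinh_nonneg_iff.2 hx
    nlinarith
  have h4 : 2 * Real.sinh (2 * x) ≤ Real.sinh (2 * (2 * x)) := by
    rw [Real.sinh_two_mul (2 * x)]
    have := Real.one_le_cosh (2 * x)
    have := Real.sinh_nonneg_iff.2 (show 0 ≤ 2 * x by linarith only [hx])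
    nlinarith
  rw [show 4 * x = 2 * (2 * x) by ring]
  linarith only [h2, h4]

/-- the main estimate: one port with `Re Q ≥ 4 η` -/
lemma core8 {w k : ℂ} (h0 : 0 < w.re) (h1 : w.re ≤ 59 / 100) (hy : w.im < 0) (pk : Port k)
    (hR : 0 < (RR w k).re) (hz : Complex.cos w ≠ 0) (hu : 4 * (-w.im) ≤ (QQ w k).re) :
    (Complex.cos w).im < 1 / 4 ∧ (Complex.cos w).re + 4 / 10 * (Complex.cos w).im < 1 := by
  have hk : 0 < k.re := lt_of_lt_of_le (by norm_num) pk.re
  obtain ⟨_, s1⟩ := QQ_cosh h0.le (h1.trans (by norm_num)) hk hR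
  -- the norm of `sinh Q`
  have e1 : Real.sinh (QQ w k).re ^ 2 ≤ normSq (Complex.sinh (QQ w k)) := by
    rw [Complex.normSq_apply, sinh_re', sinh_im']
    have a1 := Real.sin_sq_add_cos_sq (QQ w k).im
    have a2 := Real.cosh_sq (QQ w k).re
    have : Real.sinh (QQ w k).re * Real.cos (QQ w k).im *
        (Real.sinh (QQ w k).re * Real.cos (QQ w k).im) +
        Real.cosh (QQ w k).re * Real.sin (QQ w k).im *
        (Real.cosh (QQ w k).re * Real.sin (QQ w k).im) =
        Real.sinh (QQ w k).re ^ 2 + Real.sin (QQ w k).im ^ 2 := by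
      linear_combination (Real.sinh (QQ w k).re ^ 2) * a1 + (Real.sin (QQ w k).im ^ 2) * a2
    rw [this]
    have := sq_nonneg (Real.sin (QQ w k).im)
    linarith only [this]
  set S := Real.sin w.re with hS
  set C := Real.cos w.re with hC
  set s := Real.sinh (-w.im) with hs
  have hsp : 0 < s := Real.sinh_pos_iff.2 (by linarith only [hy])
  have hSC : S ^ 2 + C ^ 2 = 1 := Real.sin_sq_add_cos_sq w.re
  have hCl : 82 / 100 ≤ C := by
    have := Real.one_sub_sq_div_two_le_cos (x := w.re)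
    nlinarith only [h1, this, h0]
  have hSp : 0 < S := Real.sin_pos_of_pos_of_lt_pi h0 (by linarith only [h0, h1, Real.pi_gt_three])
  have hC2 : 6724 / 10000 ≤ C ^ 2 := by nlinarith only [hCl]
  have hS2 : S ^ 2 ≤ 3276 / 10000 := by linarith only [hSC, hC2]
  have hch : Real.cosh w.im ^ 2 = s ^ 2 + 1 := by
    rw [hs, Real.sinh_neg, neg_sq]
    exact Real.cosh_sq w.im
  have hsy : Real.sinh w.im = -s := by rw [hs, Real.sinh_neg, neg_neg]
  have e2 : 4 * s ≤ Real.sinh (QQ w k).re :=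
    (four_sinh (by linarith only [hy])).trans (Real.sinh_le_sinh.2 hu)
  have e3 : 16 * s ^ 2 ≤ normSq (Complex.sinh (QQ w k)) := by nlinarith only [e1, h0, h1, hsp, e2]
  have e4 : normSq (Complex.sinh (QQ w k)) * normSq (Complex.cos w) =
      normSq (Complex.sin w) * normSq k := by
    rw [s1, ← map_mul, ← map_mul]
    congr 1
    have hTz : Complex.tan w * Complex.cos w = Complex.sin w := Complex.tan_mul_cos hz
    linear_combination k * hTz
  have e5 : normSq (Complex.cos w) = C ^ 2 + s ^ 2 := by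
    rw [Complex.normSq_apply, cos_re, cos_im, hsy]
    linear_combination (C ^ 2) * hch + s ^ 2 * hSC
  have e6 : normSq (Complex.sin w) = S ^ 2 + s ^ 2 := by
    rw [Complex.normSq_apply, sin_re', sin_im', hsy]
    linear_combination (S ^ 2) * hch + s ^ 2 * hSC
  have e7 : normSq k ≤ 147 / 100 := by
    rw [Complex.normSq_apply]
    have a1 := pk.re_le
    have a2 := abs_le.1 pk.im_abs
    nlinarith only [a1, h0, h1, hk, a2]
  rw [e5, e6] at e4
  have e8 : 16 * s ^ 2 * (C ^ 2 + s ^ 2) ≤ (S ^ 2 + s ^ 2) * (147 / 100) := by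
    have a1 : 0 ≤ C ^ 2 + s ^ 2 := by positivity
    have a2 : 0 ≤ S ^ 2 + s ^ 2 := by positivity
    calc 16 * s ^ 2 * (C ^ 2 + s ^ 2) ≤ normSq (Complex.sinh (QQ w k)) * (C ^ 2 + s ^ 2) :=
          mul_le_mul_of_nonneg_right e3 a1
      _ = (S ^ 2 + s ^ 2) * normSq k := e4
      _ ≤ _ := mul_le_mul_of_nonneg_left e7 a2
  -- `s ≤ 2 / 5 S`
  have e9 : s ^ 2 ≤ 16 / 100 * S ^ 2 := by nlinarith only [e8, hC2, sq_nonneg s, sq_nonneg (s ^ 2)]
  have e10 : s ≤ 4 / 10 * S := by
    apply le_of_sq_le_sq _ (by positivity)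
    rw [mul_pow]
    linarith only [e9]
  rw [cos_re, cos_im, hsy]
  constructor
  · nlinarith only [hSC, hC2, hSp, e10]
  · by_contra hc
    push Not at hc
    have e11 : 1 - 4 / 10 * (S * s) ≤ C * Real.cosh w.im := by
      have : -(S * -s) = S * s := by ring
      rw [this] at hc
      linarith only [hc]
    have e12 : 0 ≤ 1 - 4 / 10 * (S * s) := by nlinarith only [h0, h1, hSC, hSp, e10]
    have e13 : (1 - 4 / 10 * (S * s)) ^ 2 ≤ (C * Real.cosh w.im) ^ 2 :=
      pow_le_pow_left₀ e12 e11 2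
    rw [mul_pow, hch] at e13
    have e14 : C ^ 2 = 1 - S ^ 2 := by linarith only [hSC]
    rw [e14] at e13
    have e15 : 0 < S ^ 2 := by positivity
    nlinarith only [e9, e13, hsp, hSp, e10, mul_pos hSp hsp, sq_nonneg (S * s)]

/-- the polygon of the rings with at least eight crossings -/
lemma mem_t8 {z : ℂ} (h1 : 0 < z.im) (h2 : z.re + 4 / 10 * z.im < 1) (h3 : z.im < 1 / 4)
    (h4 : 8 / 10 < z.re) : z ∈ PolyU (vt .t8) := by
  have e : edges (vt .t8) = [((800, 0), (1000, 0)), ((1000, 0), (900, 250)), ((900, 250), (800, 250)),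
      ((800, 250), (800, 0))] := by rfl
  intro d hd
  rw [e] at hd
  simp only [List.mem_cons, List.not_mem_nil, or_false] at hd
  rcases hd with rfl | rfl | rfl | rfl <;> simp only [cr] <;> push_cast <;> nlinarith only [h1, h2, h3, h4]

/-- `w = 0` is impossible -/
lemma re_pos8 {w k : ℂ} (h0 : w.re = 0) (hx : (Complex.cos w).re ≤ 1) (hk : 0 < k.re)
    (hR : 0 < (RR w k).re) : (QQ w k).im = 0 ∧ w.im = 0 := by
  have hy : w.im = 0 := by
    rw [cos_re, h0, Real.cos_zero, one_mul] at hx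
    have := Real.cosh_sq w.im
    have h1 := Real.one_le_cosh w.im
    have h2 := sq_le_sinh_sq w.im
    have : w.im ^ 2 = 0 := by nlinarith only [hx, this, h2, h1, sq_nonneg w.im]
    exact pow_eq_zero_iff (two_ne_zero) |>.1 this
  have hw : w = 0 := Complex.ext h0 hy
  refine ⟨?_, hy⟩
  obtain ⟨_, s1⟩ := QQ_cosh (w := w) (k := k) h0.ge (by rw [h0]; norm_num) hk hR
  have h3 : (Complex.sinh (QQ w k)).im = 0 := by
    rw [s1, hw]
    simp
  rw [sinh_im'] at h3
  have h4 : Real.sin (QQ w k).im = 0 := (mul_eq_zero.1 h3).resolve_left (Real.cosh_pos _).ne'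
  have h5 := abs_lt.1 (QQ_im_lt (w := w) (k := k) h0.ge (by rw [h0]; norm_num) hk hR)
  exact (Real.sin_eq_zero_iff_of_lt_of_lt h5.1 h5.2).1 h4

lemma im_nonpos_of {w : ℂ} (h0 : 0 < w.re) (h1 : w.re ≤ 3 / 2) (h : 0 ≤ (Complex.cos w).im) :
    w.im ≤ 0 := by
  rw [cos_im] at h
  have hS : 0 < Real.sin w.re := Real.sin_pos_of_pos_of_lt_pi h0 (by linarith only [h1, Real.pi_gt_three])
  by_contra hc
  push Not at hc
  have := mul_pos hS (Real.sinh_pos_iff.2 hc)
  linarith only [h, this]

/-- two ports -/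
theorem loc2_8 {b : ℝ} (hb : 8 ≤ b) {P P' : Set ℂ} (hP : ∀ k ∈ P, Port k) (hP' : ∀ k ∈ P', Port k)
    (hh : ∀ z k R : ℂ, z ∈ Poly (vt .t8) → k ∈ P → R.re = r0 → |R.im| ≤ 4 →
      k ^ 2 * (z ^ 2 * (R ^ 2 + 1) - 1) - z ^ 2 ≠ 0)
    (hh' : ∀ z k R : ℂ, z ∈ Poly (vt .t8) → k ∈ P' → R.re = r0 → |R.im| ≤ 4 →
      k ^ 2 * (z ^ 2 * (R ^ 2 + 1) - 1) - z ^ 2 ≠ 0) :
    Loc2 b (Poly (vt .t8)) (PolyU (vt .t8)) P P' r0 := by
  intro k hk l hl w h0 h1 h2 hz hR hR' hw
  have pk := hP k hk
  have pl := hP' l hl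
  have hzr := vt_re hz
  obtain ⟨h3, h4⟩ := loc_basic h1 h2 hzr (vt_re_le hz) (vt_im hz) (vt_im_le hz)
  have hz0 : Complex.cos w ≠ 0 := fun h => by rw [h] at hzr; norm_num at hzr
  have hk0 : 0 < k.re := lt_of_lt_of_le (by norm_num) pk.re
  have hl0 : 0 < l.re := lt_of_lt_of_le (by norm_num) pl.re
  have hkn : k ≠ 0 := fun h => by rw [h] at hk0; exact lt_irrefl _ hk0
  have hln : l ≠ 0 := fun h => by rw [h] at hl0; exact lt_irrefl _ hl0
  have hRp := r0_pos.trans_le hR
  have hRp' := r0_pos.trans_le hR'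
  have hre : b * w.re - Real.pi - ((QQ w k).im + (QQ w l).im) = 0 := by
    have := congrArg Complex.re hw
    simp only [Complex.add_re, Complex.sub_re, Complex.mul_re, Complex.ofReal_re,
      Complex.ofReal_im, Complex.I_re, Complex.I_im, Complex.add_im, Complex.zero_re] at this
    linarith only [this]
  have him : b * w.im + ((QQ w k).re + (QQ w l).re) = 0 := by
    have := congrArg Complex.im hw
    simp only [Complex.add_re, Complex.sub_im, Complex.mul_im, Complex.ofReal_re,
      Complex.ofReal_im, Complex.I_re, Complex.I_im, Complex.add_im, Complex.zero_im] at this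
    linarith only [this]
  have hw0 : 0 < w.re := by
    refine lt_of_le_of_ne h0 fun h => ?_
    have a1 := (re_pos8 h.symm (vt_re_le hz) hk0 hRp).1
    have a2 := (re_pos8 h.symm (vt_re_le hz) hl0 hRp').1
    rw [a1, a2, ← h] at hre
    have := Real.pi_pos
    linarith only [hre, this]
  have hy := im_nonpos_of hw0 h1 (vt_im hz)
  have hα : w.re ≤ 59 / 100 := by
    have a1 := QQ_im_le hw0 h1 hz0 hy hk0 pk.im hRp
    have a2 := QQ_im_le hw0 h1 hz0 hy hl0 pl.im hRp'
    have a3 := Real.pi_lt_d4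
    nlinarith only [hre, hw0, a1, a2, a3, hb, h0]
  have hy' : w.im < 0 := by
    refine lt_of_le_of_ne hy fun h => ?_
    have a1 := QQ_re_pos hw0 h1 h hk0 hRp hz0
    have a2 := QQ_re_pos hw0 h1 h hl0 hRp' hz0
    rw [h] at him
    linarith only [him, a1, a2]
  have hcore : (Complex.cos w).im < 1 / 4 ∧
      (Complex.cos w).re + 4 / 10 * (Complex.cos w).im < 1 := by
    rcases le_total (QQ w k).re (QQ w l).re with h | h
    · exact core8 hw0 hα hy' pl hRp' hz0 (by nlinarith only [him, h, hb, hy])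
    · exact core8 hw0 hα hy' pk hRp hz0 (by nlinarith only [him, h, hb, hy])
  refine ⟨hw0, h3, h4, ?_, ?_, ?_⟩
  · refine mem_t8 ?_ hcore.2 hcore.1 ?_
    · rw [cos_im]
      have hS : 0 < Real.sin w.re := Real.sin_pos_of_pos_of_lt_pi hw0
        (by linarith only [hw0, hα, Real.pi_gt_three])
      have := mul_pos_of_neg_of_neg (neg_lt_zero.2 hS) (Real.sinh_neg_iff.2 hy')
      linarith only [this]
    · rw [cos_re]
      have a1 := Real.one_sub_sq_div_two_le_cos (x := w.re)
      have a2 := Real.one_le_cosh w.im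
      have a3 : 82 / 100 ≤ Real.cos w.re := by nlinarith only [hw0, hα, a1, h0]
      nlinarith only [a2, a3]
  · exact lt_of_le_of_ne hR fun h => hh _ k _ hz hk h.symm (R_im_le hzr pk.re) (rel_R hz0 hkn)
  · exact lt_of_le_of_ne hR' fun h => hh' _ l _ hz hl h.symm (R_im_le hzr pl.re) (rel_R hz0 hln)

/-- one port -/
theorem loc1_8 {b : ℝ} (hb : 8 ≤ b) {P : Set ℂ} (hP : ∀ k ∈ P, Port k)
    (hh : ∀ z k R : ℂ, z ∈ Poly (vt .t8) → k ∈ P → R.re = r0 → |R.im| ≤ 4 →
      k ^ 2 * (z ^ 2 * (R ^ 2 + 1) - 1) - z ^ 2 ≠ 0) :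
    Loc1 b (Poly (vt .t8)) (PolyU (vt .t8)) P r0 := by
  intro k hk w h0 h1 h2 hz hR hw
  have pk := hP k hk
  have hzr := vt_re hz
  obtain ⟨h3, h4⟩ := loc_basic h1 h2 hzr (vt_re_le hz) (vt_im hz) (vt_im_le hz)
  have hz0 : Complex.cos w ≠ 0 := fun h => by rw [h] at hzr; norm_num at hzr
  have hk0 : 0 < k.re := lt_of_lt_of_le (by norm_num) pk.re
  have hkn : k ≠ 0 := fun h => by rw [h] at hk0; exact lt_irrefl _ hk0
  have hRp := r0_pos.trans_le hR
  have hre : b * w.re - Real.pi - (QQ w k).im = 0 := by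
    have := congrArg Complex.re hw
    simp only [Complex.add_re, Complex.sub_re, Complex.mul_re, Complex.ofReal_re,
      Complex.ofReal_im, Complex.I_re, Complex.I_im, Complex.add_im, Complex.zero_re] at this
    linarith only [this]
  have him : b * w.im + (QQ w k).re = 0 := by
    have := congrArg Complex.im hw
    simp only [Complex.add_re, Complex.sub_im, Complex.mul_im, Complex.ofReal_re,
      Complex.ofReal_im, Complex.I_re, Complex.I_im, Complex.add_im, Complex.zero_im] at this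
    linarith only [this]
  have hw0 : 0 < w.re := by
    refine lt_of_le_of_ne h0 fun h => ?_
    have a1 := (re_pos8 h.symm (vt_re_le hz) hk0 hRp).1
    rw [a1, ← h] at hre
    have := Real.pi_pos
    linarith only [hre, this]
  have hy := im_nonpos_of hw0 h1 (vt_im hz)
  have hα : w.re ≤ 59 / 100 := by
    have a1 := QQ_im_le hw0 h1 hz0 hy hk0 pk.im hRp
    have a3 := Real.pi_lt_d4
    nlinarith only [hre, hw0, a1, a3, hb, h0]
  have hy' : w.im < 0 := by
    refine lt_of_le_of_ne hy fun h => ?_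
    have a1 := QQ_re_pos hw0 h1 h hk0 hRp hz0
    rw [h] at him
    linarith only [him, a1]
  have hcore := core8 hw0 hα hy' pk hRp hz0 (by nlinarith only [him, hy', hb, hy])
  refine ⟨hw0, h3, h4, ?_, ?_⟩
  · refine mem_t8 ?_ hcore.2 hcore.1 ?_
    · rw [cos_im]
      have hS : 0 < Real.sin w.re := Real.sin_pos_of_pos_of_lt_pi hw0
        (by linarith only [hw0, hα, Real.pi_gt_three])
      have := mul_pos_of_neg_of_neg (neg_lt_zero.2 hS) (Real.sinh_neg_iff.2 hy')
      linarith only [this]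
    · rw [cos_re]
      have a1 := Real.one_sub_sq_div_two_le_cos (x := w.re)
      have a2 := Real.one_le_cosh w.im
      have a3 : 82 / 100 ≤ Real.cos w.re := by nlinarith only [hw0, hα, a1, h0]
      nlinarith only [a2, a3]
  · exact lt_of_le_of_ne hR fun h => hh _ k _ hz hk h.symm (R_im_le hzr pk.re) (rel_R hz0 hkn)

end Pool.Agent.Work.MP_b30479_gt.G2.SL
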