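import Pool.Agent.Work.MP_b30479_gt.G2.S2Loc8
import Pool.Agent.Work.MP_b30479_gt.G2.S2DatA
import Pool.Agent.Work.MP_b30479_gt.G2.S2DatB
import Pool.Agent.Work.MP_b30479_gt.G2.S2DatC
import Pool.Agent.Work.MP_b30479_gt.G2.S2DatD
import Pool.Agent.Work.MP_b30479_gt.G2.S2DatE
import Pool.Agent.Work.MP_b30479_gt.G2.S2DatF
import Pool.Agent.Work.MP_b30479_gt.G2.S2DatH
import Pool.Agent.Work.MP_b30479_gt.G2.SChain

/-!
# Location of all rings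
-/

namespace Pool.Agent.Work.MP_b30479_gt.G2.SL

open Complex SC
open scoped ComplexConjugate

lemma memA {k : ℂ} (h : k ∈ frS (-1) (Poly pA)) : conj k ∈ Poly pA := by
  rw [frS_neg] at h
  exact h

lemma PA : ∀ k ∈ frS (-1) (Poly pA), Port k := fun _ h => port_a (memA h)

lemma PS : ∀ k ∈ Poly pS, Port k := fun _ h => port_s h

lemma PT : ∀ k ∈ Poly pT, Port k := fun _ h => port_t h

/-- the hinge relation of a ring with two crossings -/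
lemma P_of {z k l R : ℂ} (h1 : l = k * (2 * z ^ 2 - 1 - I * R * (z * (2 * z))))
    (h2 : k ^ 2 * (z ^ 2 * (R ^ 2 + 1) - 1) - z ^ 2 = 0) :
    (k + l) * (k ^ 2 * (1 - I * R) ^ 2 + 1) - 2 * (1 - I * R) * k ^ 2 * l = 0 := by
  have e : (k + l) * (k ^ 2 * (1 - I * R) ^ 2 + 1) - 2 * (1 - I * R) * k ^ 2 * l =
      (-2 * (1 - I * R) * k) * (k ^ 2 * (z ^ 2 * (R ^ 2 + 1) - 1) - z ^ 2) := by
    rw [h1]
    linear_combination (2 * (1 - I * R) * k ^ 3 * z ^ 2 * R ^ 2) * I_sq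
  rw [e, h2, mul_zero]

theorem loc_2aa : Loc2 2 (Poly (vt .t2aa)) (PolyU (vt .t2aa)) (frS (-1) (Poly pA))
    (frS (-1) (Poly pA)) r0 :=
  loc2_of (C := fun z => 2 * z ^ 2 - 1) (U := fun z => 2 * z) cs2 (by decide) PA PA
    (fun _ _ _ hz hk hl => fr2aa hz (memA hk) (memA hl))
    (fun _ _ _ _ _ hk hl hR hi h1 h2 => hiPaa hR hi (memA hk) (memA hl) (P_of h1 h2))
    (fun _ _ _ _ _ hk hl hR hi h1 h2 => hiPaa hR hi (memA hk) (memA hl) (P_of h1 h2))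

theorem loc_2as : Loc2 2 (Poly (vt .t2as)) (PolyU (vt .t2as)) (frS (-1) (Poly pA))
    (Poly pT) r0 :=
  loc2_of (C := fun z => 2 * z ^ 2 - 1) (U := fun z => 2 * z) cs2 (by decide) PA PT
    (fun _ _ _ hz hk hl => fr2as hz (memA hk) hl)
    (fun _ _ _ _ _ hk hl hR hi h1 h2 => hiPas hR hi (memA hk) hl (P_of h1 h2))
    (fun _ _ _ _ _ hk hl hR hi h1 h2 => hiPsa hR hi hk (memA hl) (P_of h1 h2))

theorem loc_2e : Loc1 2 (Poly (vt .t2e)) (PolyU (vt .t2e)) (frS (-1) (Poly pA)) r0 := by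
  refine loc1_of (C := fun z => 2 * z ^ 2 - 1) (U := fun z => 2 * z) cs2 (by decide) PA
    (fun _ _ hz hk => fr2e hz (memA hk)) ?_
  intro z k R hz _ hR _ h1 h2 _
  have a1 := vt_re hz
  have a2 := poly_lin (vt_shape .t2e) (a := 0) (b := 1) (c := -200) (by decide) hz
  have a3 := poly_lin (vt_shape .t2e) (a := 0) (b := -1) (c := 508) (by decide) hz
  have a4 := poly_lin (vt_shape .t2e) (a := -1) (b := 0) (c := 664) (by decide) hz
  push_cast at a2 a3 a4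
  have e1 : 2 * z ^ 2 * R = I * (1 - 2 * z ^ 2) := by
    have : k = -(I * z * (2 * z)) := by linear_combination h1
    rw [this] at h2
    linear_combination I * h2 + (2 * z ^ 2 * R) * I_sq
  have e2 : 2 * (z ^ 2 * conj (z ^ 2)) * R = I * conj (z ^ 2) - 2 * I * (z ^ 2 * conj (z ^ 2)) := by
    linear_combination conj (z ^ 2) * e1
  rw [Complex.mul_conj] at e2
  have e3 := congrArg Complex.re e2
  have e4 : (z ^ 2).im = 2 * (z.re * z.im) := by rw [pow_two, Complex.mul_im]; ring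
  have e5 : normSq (z ^ 2) = (z.re ^ 2 + z.im ^ 2) ^ 2 := by
    rw [map_pow, Complex.normSq_apply]
    ring
  simp only [Complex.mul_re, Complex.sub_re, Complex.ofReal_re, Complex.ofReal_im, Complex.I_re,
    Complex.I_im, Complex.conj_re, Complex.conj_im, Complex.re_ofNat, Complex.im_ofNat,
    Complex.mul_im, hR, e4, e5, r0] at e3
  have e6 : z.re ^ 2 + z.im ^ 2 ≤ 1 := by nlinarith
  have e7 : (z.re ^ 2 + z.im ^ 2) ^ 2 ≤ 1 := by
    have : 0 ≤ z.re ^ 2 + z.im ^ 2 := by positivity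
    nlinarith
  nlinarith

theorem loc_3aa : Loc2 3 (Poly (vt .t3aa)) (PolyU (vt .t3aa)) (frS (-1) (Poly pA))
    (frS (-1) (Poly pA)) r0 :=
  loc2_of (C := fun z => 4 * z ^ 3 - 3 * z)
    (U := fun z => 4 * z ^ 2 - 1) cs3 (by decide) PA PA
    (fun _ _ _ hz hk hl => fr3aa hz (memA hk) (memA hl))
    (fun _ _ _ _ hz hk hl hR hi h1 h2 => hiE3aaA hR hi hz (memA hk) h2)
    (fun _ _ _ _ hz hk hl hR hi h1 h2 => hiE3aaA hR hi hz (memA hk) h2)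

theorem loc_3as : Loc2 3 (Poly (vt .t3as)) (PolyU (vt .t3as)) (frS (-1) (Poly pA))
    (Poly pS) r0 :=
  loc2_of (C := fun z => 4 * z ^ 3 - 3 * z)
    (U := fun z => 4 * z ^ 2 - 1) cs3 (by decide) PA PS
    (fun _ _ _ hz hk hl => fr3as hz (memA hk) hl)
    (fun _ _ _ _ hz hk hl hR hi h1 h2 => (hiH hR hi hz (memA hk) hl).elim
      (fun h => h (sub_eq_zero.2 h1)) (fun h => h h2))
    (fun _ _ _ _ hz hk hl hR hi h1 h2 => hiE3asS hR hi hz hk h2)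

theorem loc_3ss : Loc2 3 (Poly (vt .t3ss)) (PolyU (vt .t3ss)) (Poly pS)
    (Poly pS) r0 :=
  loc2_of (C := fun z => 4 * z ^ 3 - 3 * z)
    (U := fun z => 4 * z ^ 2 - 1) cs3 (by decide) PS PS
    (fun _ _ _ hz hk hl => fr3ss hz hk hl)
    (fun _ _ _ _ hz hk hl hR hi h1 h2 => hiE3ssS hR hi hz hk h2)
    (fun _ _ _ _ hz hk hl hR hi h1 h2 => hiE3ssS hR hi hz hk h2)

theorem loc_3ae : Loc1 3 (Poly (vt .t3ae)) (PolyU (vt .t3ae)) (frS (-1) (Poly pA)) r0 :=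
  loc1_of (C := fun z => 4 * z ^ 3 - 3 * z)
    (U := fun z => 4 * z ^ 2 - 1) cs3 (by decide) PA
    (fun _ _ hz hk => fr3ae hz (memA hk))
    (fun _ _ _ hz hk hR hi _ _ h2 => hiE3aeA hR hi hz (memA hk) h2)

theorem loc_3se : Loc1 3 (Poly (vt .t3se)) (PolyU (vt .t3se)) (Poly pS) r0 :=
  loc1_of (C := fun z => 4 * z ^ 3 - 3 * z)
    (U := fun z => 4 * z ^ 2 - 1) cs3 (by decide) PS
    (fun _ _ hz hk => fr3se hz hk)
    (fun _ _ _ hz hk hR hi _ _ h2 => hiE3seS hR hi hz hk h2)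

theorem loc_4aa : Loc2 4 (Poly (vt .t4)) (PolyU (vt .t4)) (frS (-1) (Poly pA))
    (frS (-1) (Poly pA)) r0 :=
  loc2_of (C := fun z => 8 * z ^ 4 - 8 * z ^ 2 + 1)
    (U := fun z => 8 * z ^ 3 - 4 * z) cs4 (by decide) PA PA
    (fun _ _ _ hz hk hl => fr4aa hz (memA hk) (memA hl))
    (fun _ _ _ _ hz hk hl hR hi h1 h2 => hiE4A hR hi hz (memA hk) h2)
    (fun _ _ _ _ hz hk hl hR hi h1 h2 => hiE4A hR hi hz (memA hk) h2)

theorem loc_4as : Loc2 4 (Poly (vt .t4)) (PolyU (vt .t4)) (frS (-1) (Poly pA))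
    (Poly pS) r0 :=
  loc2_of (C := fun z => 8 * z ^ 4 - 8 * z ^ 2 + 1)
    (U := fun z => 8 * z ^ 3 - 4 * z) cs4 (by decide) PA PS
    (fun _ _ _ hz hk hl => fr4as hz (memA hk) hl)
    (fun _ _ _ _ hz hk hl hR hi h1 h2 => hiE4A hR hi hz (memA hk) h2)
    (fun _ _ _ _ hz hk hl hR hi h1 h2 => hiE4S hR hi hz hk h2)

theorem loc_4ss : Loc2 4 (Poly (vt .t4)) (PolyU (vt .t4)) (Poly pS)
    (Poly pS) r0 :=
  loc2_of (C := fun z => 8 * z ^ 4 - 8 * z ^ 2 + 1)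
    (U := fun z => 8 * z ^ 3 - 4 * z) cs4 (by decide) PS PS
    (fun _ _ _ hz hk hl => fr4ss hz hk hl)
    (fun _ _ _ _ hz hk hl hR hi h1 h2 => hiE4S hR hi hz hk h2)
    (fun _ _ _ _ hz hk hl hR hi h1 h2 => hiE4S hR hi hz hk h2)

theorem loc_4ae : Loc1 4 (Poly (vt .t4)) (PolyU (vt .t4)) (frS (-1) (Poly pA)) r0 :=
  loc1_of (C := fun z => 8 * z ^ 4 - 8 * z ^ 2 + 1)
    (U := fun z => 8 * z ^ 3 - 4 * z) cs4 (by decide) PA
    (fun _ _ hz hk => fr4ae hz (memA hk))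
    (fun _ _ _ hz hk hR hi _ _ h2 => hiE4A hR hi hz (memA hk) h2)

theorem loc_4se : Loc1 4 (Poly (vt .t4)) (PolyU (vt .t4)) (Poly pS) r0 :=
  loc1_of (C := fun z => 8 * z ^ 4 - 8 * z ^ 2 + 1)
    (U := fun z => 8 * z ^ 3 - 4 * z) cs4 (by decide) PS
    (fun _ _ hz hk => fr4se hz hk)
    (fun _ _ _ hz hk hR hi _ _ h2 => hiE4S hR hi hz hk h2)

theorem loc_5aa : Loc2 5 (Poly (vt .t5)) (PolyU (vt .t5)) (frS (-1) (Poly pA))
    (frS (-1) (Poly pA)) r0 :=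
  loc2_of (C := fun z => 16 * z ^ 5 - 20 * z ^ 3 + 5 * z)
    (U := fun z => 16 * z ^ 4 - 12 * z ^ 2 + 1) cs5 (by decide) PA PA
    (fun _ _ _ hz hk hl => fr5aa hz (memA hk) (memA hl))
    (fun _ _ _ _ hz hk hl hR hi h1 h2 => hiE5A hR hi hz (memA hk) h2)
    (fun _ _ _ _ hz hk hl hR hi h1 h2 => hiE5A hR hi hz (memA hk) h2)

theorem loc_5as : Loc2 5 (Poly (vt .t5)) (PolyU (vt .t5)) (frS (-1) (Poly pA))
    (Poly pS) r0 :=
  loc2_of (C := fun z => 16 * z ^ 5 - 20 * z ^ 3 + 5 * z)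
    (U := fun z => 16 * z ^ 4 - 12 * z ^ 2 + 1) cs5 (by decide) PA PS
    (fun _ _ _ hz hk hl => fr5as hz (memA hk) hl)
    (fun _ _ _ _ hz hk hl hR hi h1 h2 => hiE5A hR hi hz (memA hk) h2)
    (fun _ _ _ _ hz hk hl hR hi h1 h2 => hiE5S hR hi hz hk h2)

theorem loc_5ss : Loc2 5 (Poly (vt .t5)) (PolyU (vt .t5)) (Poly pS)
    (Poly pS) r0 :=
  loc2_of (C := fun z => 16 * z ^ 5 - 20 * z ^ 3 + 5 * z)
    (U := fun z => 16 * z ^ 4 - 12 * z ^ 2 + 1) cs5 (by decide) PS PS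
    (fun _ _ _ hz hk hl => fr5ss hz hk hl)
    (fun _ _ _ _ hz hk hl hR hi h1 h2 => hiE5S hR hi hz hk h2)
    (fun _ _ _ _ hz hk hl hR hi h1 h2 => hiE5S hR hi hz hk h2)

theorem loc_5ae : Loc1 5 (Poly (vt .t5)) (PolyU (vt .t5)) (frS (-1) (Poly pA)) r0 :=
  loc1_of (C := fun z => 16 * z ^ 5 - 20 * z ^ 3 + 5 * z)
    (U := fun z => 16 * z ^ 4 - 12 * z ^ 2 + 1) cs5 (by decide) PA
    (fun _ _ hz hk => fr5ae hz (memA hk))
    (fun _ _ _ hz hk hR hi _ _ h2 => hiE5A hR hi hz (memA hk) h2)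

theorem loc_5se : Loc1 5 (Poly (vt .t5)) (PolyU (vt .t5)) (Poly pS) r0 :=
  loc1_of (C := fun z => 16 * z ^ 5 - 20 * z ^ 3 + 5 * z)
    (U := fun z => 16 * z ^ 4 - 12 * z ^ 2 + 1) cs5 (by decide) PS
    (fun _ _ hz hk => fr5se hz hk)
    (fun _ _ _ hz hk hR hi _ _ h2 => hiE5S hR hi hz hk h2)

theorem loc_6aa : Loc2 6 (Poly (vt .t6)) (PolyU (vt .t6)) (frS (-1) (Poly pA))
    (frS (-1) (Poly pA)) r0 :=
  loc2_of (C := fun z => 32 * z ^ 6 - 48 * z ^ 4 + 18 * z ^ 2 - 1)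
    (U := fun z => 32 * z ^ 5 - 32 * z ^ 3 + 6 * z) cs6 (by decide) PA PA
    (fun _ _ _ hz hk hl => fr6aa hz (memA hk) (memA hl))
    (fun _ _ _ _ hz hk hl hR hi h1 h2 => hiE6A hR hi hz (memA hk) h2)
    (fun _ _ _ _ hz hk hl hR hi h1 h2 => hiE6A hR hi hz (memA hk) h2)

theorem loc_6as : Loc2 6 (Poly (vt .t6)) (PolyU (vt .t6)) (frS (-1) (Poly pA))
    (Poly pS) r0 :=
  loc2_of (C := fun z => 32 * z ^ 6 - 48 * z ^ 4 + 18 * z ^ 2 - 1)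
    (U := fun z => 32 * z ^ 5 - 32 * z ^ 3 + 6 * z) cs6 (by decide) PA PS
    (fun _ _ _ hz hk hl => fr6as hz (memA hk) hl)
    (fun _ _ _ _ hz hk hl hR hi h1 h2 => hiE6A hR hi hz (memA hk) h2)
    (fun _ _ _ _ hz hk hl hR hi h1 h2 => hiE6S hR hi hz hk h2)

theorem loc_6ss : Loc2 6 (Poly (vt .t6)) (PolyU (vt .t6)) (Poly pS)
    (Poly pS) r0 :=
  loc2_of (C := fun z => 32 * z ^ 6 - 48 * z ^ 4 + 18 * z ^ 2 - 1)
    (U := fun z => 32 * z ^ 5 - 32 * z ^ 3 + 6 * z) cs6 (by decide) PS PS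
    (fun _ _ _ hz hk hl => fr6ss hz hk hl)
    (fun _ _ _ _ hz hk hl hR hi h1 h2 => hiE6S hR hi hz hk h2)
    (fun _ _ _ _ hz hk hl hR hi h1 h2 => hiE6S hR hi hz hk h2)

theorem loc_6ae : Loc1 6 (Poly (vt .t6)) (PolyU (vt .t6)) (frS (-1) (Poly pA)) r0 :=
  loc1_of (C := fun z => 32 * z ^ 6 - 48 * z ^ 4 + 18 * z ^ 2 - 1)
    (U := fun z => 32 * z ^ 5 - 32 * z ^ 3 + 6 * z) cs6 (by decide) PA
    (fun _ _ hz hk => fr6ae hz (memA hk))
    (fun _ _ _ hz hk hR hi _ _ h2 => hiE6A hR hi hz (memA hk) h2)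

theorem loc_6se : Loc1 6 (Poly (vt .t6)) (PolyU (vt .t6)) (Poly pS) r0 :=
  loc1_of (C := fun z => 32 * z ^ 6 - 48 * z ^ 4 + 18 * z ^ 2 - 1)
    (U := fun z => 32 * z ^ 5 - 32 * z ^ 3 + 6 * z) cs6 (by decide) PS
    (fun _ _ hz hk => fr6se hz hk)
    (fun _ _ _ hz hk hR hi _ _ h2 => hiE6S hR hi hz hk h2)

theorem loc_7aa : Loc2 7 (Poly (vt .t7)) (PolyU (vt .t7)) (frS (-1) (Poly pA))
    (frS (-1) (Poly pA)) r0 :=
  loc2_of (C := fun z => 64 * z ^ 7 - 112 * z ^ 5 + 56 * z ^ 3 - 7 * z)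
    (U := fun z => 64 * z ^ 6 - 80 * z ^ 4 + 24 * z ^ 2 - 1) cs7 (by decide) PA PA
    (fun _ _ _ hz hk hl => fr7aa hz (memA hk) (memA hl))
    (fun _ _ _ _ hz hk hl hR hi h1 h2 => hiE7A hR hi hz (memA hk) h2)
    (fun _ _ _ _ hz hk hl hR hi h1 h2 => hiE7A hR hi hz (memA hk) h2)

theorem loc_7as : Loc2 7 (Poly (vt .t7)) (PolyU (vt .t7)) (frS (-1) (Poly pA))
    (Poly pS) r0 :=
  loc2_of (C := fun z => 64 * z ^ 7 - 112 * z ^ 5 + 56 * z ^ 3 - 7 * z)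
    (U := fun z => 64 * z ^ 6 - 80 * z ^ 4 + 24 * z ^ 2 - 1) cs7 (by decide) PA PS
    (fun _ _ _ hz hk hl => fr7as hz (memA hk) hl)
    (fun _ _ _ _ hz hk hl hR hi h1 h2 => hiE7A hR hi hz (memA hk) h2)
    (fun _ _ _ _ hz hk hl hR hi h1 h2 => hiE7S hR hi hz hk h2)

theorem loc_7ss : Loc2 7 (Poly (vt .t7)) (PolyU (vt .t7)) (Poly pS)
    (Poly pS) r0 :=
  loc2_of (C := fun z => 64 * z ^ 7 - 112 * z ^ 5 + 56 * z ^ 3 - 7 * z)
    (U := fun z => 64 * z ^ 6 - 80 * z ^ 4 + 24 * z ^ 2 - 1) cs7 (by decide) PS PS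
    (fun _ _ _ hz hk hl => fr7ss hz hk hl)
    (fun _ _ _ _ hz hk hl hR hi h1 h2 => hiE7S hR hi hz hk h2)
    (fun _ _ _ _ hz hk hl hR hi h1 h2 => hiE7S hR hi hz hk h2)

theorem loc_7ae : Loc1 7 (Poly (vt .t7)) (PolyU (vt .t7)) (frS (-1) (Poly pA)) r0 :=
  loc1_of (C := fun z => 64 * z ^ 7 - 112 * z ^ 5 + 56 * z ^ 3 - 7 * z)
    (U := fun z => 64 * z ^ 6 - 80 * z ^ 4 + 24 * z ^ 2 - 1) cs7 (by decide) PA
    (fun _ _ hz hk => fr7ae hz (memA hk))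
    (fun _ _ _ hz hk hR hi _ _ h2 => hiE7A hR hi hz (memA hk) h2)

theorem loc_7se : Loc1 7 (Poly (vt .t7)) (PolyU (vt .t7)) (Poly pS) r0 :=
  loc1_of (C := fun z => 64 * z ^ 7 - 112 * z ^ 5 + 56 * z ^ 3 - 7 * z)
    (U := fun z => 64 * z ^ 6 - 80 * z ^ 4 + 24 * z ^ 2 - 1) cs7 (by decide) PS
    (fun _ _ hz hk => fr7se hz hk)
    (fun _ _ _ hz hk hR hi _ _ h2 => hiE7S hR hi hz hk h2)

lemma rtype_eight {B : ℕ} (h : 8 ≤ B) (na ns : ℕ) : rtype B na ns = .t8 := by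
  unfold rtype
  rw [if_neg (by omega), if_neg (by omega), if_neg (by omega), if_neg (by omega), if_neg (by omega),
    if_neg (by omega)]

theorem loc_end_a {B : ℕ} (hB : 2 ≤ B) : Loc1 B (Poly (vt (rtype B 1 0)))
    (PolyU (vt (rtype B 1 0))) (frS (-1) (Poly pA)) r0 := by
  rcases Nat.lt_or_ge B 8 with h | h
  · interval_cases B
    · exact_mod_cast loc_2e
    · exact_mod_cast loc_3ae
    · exact_mod_cast loc_4ae
    · exact_mod_cast loc_5ae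
    · exact_mod_cast loc_6ae
    · exact_mod_cast loc_7ae
  · rw [rtype_eight h]
    have hb : (8 : ℝ) ≤ B := by exact_mod_cast h
    exact loc1_8 hb PA (fun _ _ _ hz hk hR hi => hiE8A hR hi hz (memA hk))

theorem loc_end_s {B : ℕ} (hB : 3 ≤ B) : Loc1 B (Poly (vt (rtype B 0 1)))
    (PolyU (vt (rtype B 0 1))) (Poly pS) r0 := by
  rcases Nat.lt_or_ge B 8 with h | h
  · interval_cases B
    · exact_mod_cast loc_3se
    · exact_mod_cast loc_4se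
    · exact_mod_cast loc_5se
    · exact_mod_cast loc_6se
    · exact_mod_cast loc_7se
  · rw [rtype_eight h]
    have hb : (8 : ℝ) ≤ B := by exact_mod_cast h
    exact loc1_8 hb PS (fun _ _ _ hz hk hR hi => hiE8S hR hi hz hk)

theorem loc_aa {B : ℕ} (hB : 2 ≤ B) : Loc2 B (Poly (vt (rtype B 2 0)))
    (PolyU (vt (rtype B 2 0))) (frS (-1) (Poly pA)) (frS (-1) (Poly pA)) r0 := by
  rcases Nat.lt_or_ge B 8 with h | h
  · interval_cases B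
    · exact_mod_cast loc_2aa
    · exact_mod_cast loc_3aa
    · exact_mod_cast loc_4aa
    · exact_mod_cast loc_5aa
    · exact_mod_cast loc_6aa
    · exact_mod_cast loc_7aa
  · rw [rtype_eight h]
    have hb : (8 : ℝ) ≤ B := by exact_mod_cast h
    exact loc2_8 hb PA PA (fun _ _ _ hz hk hR hi => hiE8A hR hi hz (memA hk))
      (fun _ _ _ hz hk hR hi => hiE8A hR hi hz (memA hk))

theorem loc_as2 : Loc2 2 (Poly (vt (rtype 2 1 1))) (PolyU (vt (rtype 2 1 1)))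
    (frS (-1) (Poly pA)) (Poly pT) r0 := loc_2as

theorem loc_as3 {B : ℕ} (hB : 3 ≤ B) : Loc2 B (Poly (vt (rtype B 1 1)))
    (PolyU (vt (rtype B 1 1))) (frS (-1) (Poly pA)) (Poly pS) r0 := by
  rcases Nat.lt_or_ge B 8 with h | h
  · interval_cases B
    · exact_mod_cast loc_3as
    · exact_mod_cast loc_4as
    · exact_mod_cast loc_5as
    · exact_mod_cast loc_6as
    · exact_mod_cast loc_7as
  · rw [rtype_eight h]
    have hb : (8 : ℝ) ≤ B := by exact_mod_cast h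
    exact loc2_8 hb PA PS (fun _ _ _ hz hk hR hi => hiE8A hR hi hz (memA hk))
      (fun _ _ _ hz hk hR hi => hiE8S hR hi hz hk)

theorem loc_ss {B : ℕ} (hB : 3 ≤ B) : Loc2 B (Poly (vt (rtype B 0 2)))
    (PolyU (vt (rtype B 0 2))) (Poly pS) (Poly pS) r0 := by
  rcases Nat.lt_or_ge B 8 with h | h
  · interval_cases B
    · exact_mod_cast loc_3ss
    · exact_mod_cast loc_4ss
    · exact_mod_cast loc_5ss
    · exact_mod_cast loc_6ss
    · exact_mod_cast loc_7ss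
  · rw [rtype_eight h]
    have hb : (8 : ℝ) ≤ B := by exact_mod_cast h
    exact loc2_8 hb PS PS (fun _ _ _ hz hk hR hi => hiE8S hR hi hz hk)
      (fun _ _ _ hz hk hR hi => hiE8S hR hi hz hk)

end Pool.Agent.Work.MP_b30479_gt.G2.SL
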