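import Pool.Agent.Work.MP_b30479_gt.G2.SKapStat
import Pool.Agent.Work.MP_b30479_gt.G2.SKapTwo

/-!
# Diagonal dominance for three crossings and neighbours of both signs

The ring equation gives `D R R' = - T² E`, `E = 3 - T² - R R' - 4 i (R + R')`, and
`‖R‖ + ‖R'‖ < - Im E`.
-/

namespace Pool.Agent.Work.MP_b30479_gt.G2.KB

open Complex SQ

/-! ### facts on the polygon -/

lemma as_1 {z : ℂ} (hz : z ∈ Poly (vt .t3as)) : 166 / 100 ≤ px z + py z := by
  have := px_py_of (al := 1000) (be := 1000) (ga := 1660) (V := vt .t3as) (by decide)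
    (by decide) hz
  push_cast at this
  linarith only [this]

lemma as_2 {z : ℂ} (hz : z ∈ Poly (vt .t3as)) : py z ≤ 146 / 100 := by
  have := px_py_of (al := 0) (be := -1000) (ga := -1460) (V := vt .t3as) (by decide)
    (by decide) hz
  push_cast at this
  linarith only [this]

lemma as_3 {z : ℂ} (hz : z ∈ Poly (vt .t3as)) : 73 / 100 ≤ px z := by
  have := px_py_of (al := 1000) (be := 0) (ga := 730) (V := vt .t3as) (by decide)
    (by decide) hz
  push_cast at this
  linarith only [this]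

lemma as_4 {z : ℂ} (hz : z ∈ Poly (vt .t3as)) : 59 / 100 ≤ px z - 145 / 1000 * py z := by
  have := px_py_of (al := 1000) (be := -145) (ga := 590) (V := vt .t3as) (by decide)
    (by decide) hz
  push_cast at this
  linarith only [this]

lemma as_5 {z : ℂ} (hz : z ∈ Poly (vt .t3as)) :
    15 / 10 ≤ 784 / 100 * px z - 395 / 100 * py z := by
  have := px_py_of (al := 7840) (be := -3950) (ga := 1500) (V := vt .t3as) (by decide)
    (by decide) hz
  push_cast at this
  linarith only [this]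

lemma as_6 {z : ℂ} (hz : z ∈ Poly (vt .t3as)) : 815 / 1000 ≤ px z + 12 / 100 * py z := by
  have := px_py_of (al := 1000) (be := 120) (ga := 815) (V := vt .t3as) (by decide)
    (by decide) hz
  push_cast at this
  linarith only [this]

lemma as_8 {z : ℂ} (hz : z ∈ Poly (vt .t3as)) : -(6 / 10) ≤ px z - 12 / 10 * py z := by
  have := px_py_of (al := 1000) (be := -1200) (ga := -600) (V := vt .t3as) (by decide)
    (by decide) hz
  push_cast at this
  linarith only [this]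

lemma pS_6 {k : ℂ} (hk : k ∈ Poly pS) : py k ≤ 275 / 100 := by
  have := px_py_of (al := 0) (be := -1000) (ga := -2750) (V := pS) (by decide) (by decide) hk
  push_cast at this
  linarith only [this]

/-! ### the identity -/

lemma exp_QQ {w k : ℂ} (hk : k ≠ 0) : Complex.exp (QQ w k) = (Complex.tan w + RR w k) * k := by
  have h1 : (Complex.tan w + RR w k) ≠ 0 := by
    intro h0
    have h2 : RR w k ^ 2 - Complex.tan w ^ 2 = (k ^ 2)⁻¹ := by rw [RR_sq, ZZ0]; ring
    have h3 : (Complex.tan w + RR w k) * (RR w k - Complex.tan w) = (k ^ 2)⁻¹ := by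
      rw [← h2]; ring
    rw [h0, zero_mul] at h3
    exact inv_ne_zero (pow_ne_zero 2 hk) h3.symm
  rw [QQ, Complex.exp_add, Complex.exp_log h1, Complex.exp_log hk]

lemma ring3 {w k k' : ℂ} (hc : Complex.cos w ≠ 0) (hk : k ≠ 0) (hk' : k' ≠ 0)
    (hT : Complex.tan w ≠ 0)
    (hw : (3 : ℂ) * w - Real.pi + I * (QQ w k + QQ w k') = 0) :
    3 * (RR w k * RR w k') + I * (1 / Complex.cos w ^ 2) * (RR w k + RR w k') =
      -(Complex.tan w ^ 2 * (3 - Complex.tan w ^ 2 - RR w k * RR w k' -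
        4 * I * (RR w k + RR w k'))) := by
  have hR : RR w k ^ 2 = Complex.tan w ^ 2 + 1 / k ^ 2 := by rw [RR_sq, ZZ0, one_div]
  have hR' : RR w k' ^ 2 = Complex.tan w ^ 2 + 1 / k' ^ 2 := by rw [RR_sq, ZZ0, one_div]
  obtain ⟨c1, s1⟩ := cosh_Q hk hR (exp_QQ hk)
  obtain ⟨c2, s2⟩ := cosh_Q hk' hR' (exp_QQ hk')
  have hQQ : QQ w k + QQ w k' = (3 * w - Real.pi) * I := by
    linear_combination (-I) * hw + (QQ w k + QQ w k') * I_sq
  have hch : Complex.cosh (QQ w k + QQ w k') = -Complex.cos (3 * w) := by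
    rw [hQQ, Complex.cosh_mul_I, Complex.cos_sub_pi]
  have hsh : Complex.sinh (QQ w k + QQ w k') = -(Complex.sin (3 * w)) * I := by
    rw [hQQ, Complex.sinh_mul_I, Complex.sin_sub_pi]
  rw [Complex.cosh_add, c1, c2, s1, s2, Complex.cos_three_mul] at hch
  rw [Complex.sinh_add, c1, c2, s1, s2, Complex.sin_three_mul] at hsh
  have hTc : Complex.tan w * Complex.cos w = Complex.sin w := Complex.tan_mul_cos hc
  have hss : Complex.sin w ^ 2 = 1 - Complex.cos w ^ 2 := Complex.sin_sq w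
  generalize Complex.tan w = T at *
  generalize Complex.cos w = z at *
  generalize Complex.sin w = s at *
  generalize RR w k = R at *
  generalize RR w k' = R' at *
  have hT2 : T ^ 2 * z ^ 2 = 1 - z ^ 2 := by rw [← hss, ← hTc]; ring
  have hA : k * k' * (R + R') = -I * z * (4 * z ^ 2 - 1) := by
    have h1 : T * (k * k' * (R + R') + I * z * (4 * z ^ 2 - 1)) = 0 := by
      have e : s * (3 - 4 * s ^ 2) = T * z * (4 * z ^ 2 - 1) := by
        rw [hss, ← hTc]; ring
      linear_combination hsh - I * e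
    have h2 := (mul_eq_zero.mp h1).resolve_left hT
    linear_combination h2
  have hB : k * k' * (R * R' + T ^ 2) = -(4 * z ^ 3 - 3 * z) := by
    linear_combination hch
  have hh : k * k' ≠ 0 := mul_ne_zero hk hk'
  have hz2 : z ^ 2 ≠ 0 := pow_ne_zero 2 hc
  have key : k * k' * (z ^ 2 * (3 * (R * R') + T ^ 2 * (3 - T ^ 2 - R * R' - 4 * I * (R + R'))) +
      I * (R + R')) = 0 := by
    linear_combination (z ^ 2 * (3 - T ^ 2)) * hB + (I - 4 * I * z ^ 2 * T ^ 2) * hA +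
      (4 * z ^ 3 - 3 * z + 4 * I ^ 2 * z * (4 * z ^ 2 - 1)) * hT2 -
      (z * (4 * z ^ 2 - 1) * (1 - 4 * (1 - z ^ 2))) * I_sq
  have key2 := (mul_eq_zero.mp key).resolve_left hh
  field_simp
  linear_combination key2

/-! ### real inequalities -/

lemma r_X2 {X Y a b p q : ℝ} (e3 : X ^ 2 - Y ^ 2 = a - 1 + p) (e4 : 2 * X * Y = -b - q)
    (c1 : 1 ≤ p + q) : (a + b) / 2 ≤ X ^ 2 := by
  nlinarith only [e3, e4, c1, sq_nonneg (X + Y)]

lemma r_Xa {X a b : ℝ} (hX : 0 < X) (a1 : 166 / 100 ≤ a + b) (h : (a + b) / 2 ≤ X ^ 2) :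
    911 / 1000 ≤ X := by
  by_contra hcon
  push Not at hcon
  nlinarith only [a1, h, hcon, hX]

lemma r_Xb {X a b : ℝ} (hX : 0 < X) (a2 : b ≤ 146 / 100) (a3 : 73 / 100 ≤ a)
    (a8 : -(6 / 10) ≤ a - 12 / 10 * b) (a9 : 0 ≤ b) (h : (a + b) / 2 ≤ X ^ 2) :
    36 / 100 + 53 / 100 * b ≤ X := by
  have h1 : (36 / 100 + 53 / 100 * b) ^ 2 ≤ (a + b) / 2 := by
    rcases le_total b (11 / 10) with h | h
    · nlinarith only [a2, a8, a3, a9]
    · nlinarith only [a2, a8, h, mul_nonneg (sub_nonneg.mpr h) (sub_nonneg.mpr a2)]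
  exact le_of_sq_le_sq (h1.trans h) hX.le

lemma r_Ynp {X Y b q : ℝ} (hX : 0 < X) (e4 : 2 * X * Y = -b - q) (a9 : 0 ≤ b) (c7 : 0 ≤ q) :
    Y ≤ 0 := by
  by_contra hcon
  push Not at hcon
  have := mul_pos hX hcon
  linarith only [e4, a9, c7, this]

lemma r_low {X Y : ℝ} (hX : 0 < X) (hY : Y ≤ 0) (h : 0 ≤ X ^ 2 - Y ^ 2 - 12 / 100 * (2 * X * Y)) :
    -(1128 / 1000) * X ≤ Y := by
  by_contra hcon
  push Not at hcon
  have h1 : 0 < -Y := by nlinarith only [hX, hcon]
  have h2 : 0 < -(1128 / 1000) * X - Y := by linarith only [hcon]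
  have h3 := mul_pos h2 h1
  have h4 := mul_pos h2 hX
  have h5 := mul_pos hX hX
  nlinarith only [h, h3, h4]

lemma r_N {X Y N : ℝ} (hX : 0 < X) (hY : Y ≤ 0) (h : -(1128 / 1000) * X ≤ Y)
    (n2 : N ^ 2 = X ^ 2 + Y ^ 2) : N ≤ 151 / 100 * X := by
  apply le_of_sq_le_sq _ (by positivity)
  have h4 : 0 ≤ (Y + 1128 / 1000 * X) * (-Y) := mul_nonneg (by linarith only [h]) (by linarith only [hY])
  have h5 : 0 ≤ (Y + 1128 / 1000 * X) * X := mul_nonneg (by linarith only [h]) hX.le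
  nlinarith only [n2, h4, h5]

lemma r_eta {X Y a b p q : ℝ} (hY : Y ≤ 0) (e3 : X ^ 2 - Y ^ 2 = a - 1 + p)
    (e4 : 2 * X * Y = -b - q) (a2 : b ≤ 146 / 100) (a9 : 0 ≤ b)
    (a5 : 15 / 10 ≤ 784 / 100 * a - 395 / 100 * b)
    (c5 : -(76 / 10) ≤ 784 / 100 * p - 395 / 100 * q) (c6 : q ≤ 275 / 100) (c7 : 0 ≤ q) :
    -(14 / 10) ≤ Y := by
  by_contra hcon
  push Not at hcon
  have hB : b + q ≤ 421 / 100 := by linarith only [a2, c6]
  have hB0 : 0 ≤ b + q := by linarith only [a9, c7]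
  have h1 : 196 / 100 ≤ Y ^ 2 := by nlinarith only [hcon, hY]
  -- `7.84 X^2 <= B^2`
  have h2 : 784 / 100 * X ^ 2 ≤ (b + q) ^ 2 := by
    have e : (b + q) ^ 2 = 4 * (X ^ 2 * Y ^ 2) := by
      have : b + q = -(2 * X * Y) := by linarith only [e4]
      rw [this]; ring
    rw [e]
    have := mul_le_mul_of_nonneg_left h1 (sq_nonneg X)
    linarith only [this]
  have h3 : (b + q) ^ 2 ≤ 421 / 100 * (b + q) := by
    rw [pow_two]
    exact mul_le_mul_of_nonneg_right hB hB0
  have h4 : 784 / 100 * (X ^ 2 - Y ^ 2) = 784 / 100 * a - 784 / 100 + 784 / 100 * p := by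
    rw [e3]; ring
  linarith only [e3, a2, a5, c5, c6, h1, h2, h3]

/-- the case `Y ≥ 0` -/
lemma r_pos {X Y X' Y' N N' b : ℝ} (hX : 0 < X) (hX' : 911 / 1000 ≤ X') (hY : 0 ≤ Y)
    (hN : N ^ 2 = X ^ 2 + Y ^ 2) (hN' : N' ≤ 151 / 100 * X') (hη : -(14 / 10) ≤ Y')
    (hS : -(43 / 100) ≤ X ^ 2 - Y ^ 2) (hb : b ≤ 146 / 100) :
    N + N' < -b + (X * Y' + X' * Y) + 4 * (X + X') := by
  have hN1 : N ≤ X + Y := by
    apply le_of_sq_le_sq _ (by positivity)
    have := mul_nonneg hX.le hY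
    nlinarith only [hN, this]
  have hYb : Y ≤ X + 66 / 100 := by
    apply le_of_sq_le_sq _ (by positivity)
    nlinarith only [hX, hS]
  have hXY : X * (-(14 / 10)) ≤ X * Y' := mul_le_mul_of_nonneg_left hη hX.le
  rcases le_total 1 X' with h1 | h1
  · have : 1 * Y ≤ X' * Y := mul_le_mul_of_nonneg_right h1 hY
    linarith only [hX, hN', hb, hN1, hXY, h1, this]
  · have h3 : (1 - X') * Y ≤ 89 / 1000 * Y := mul_le_mul_of_nonneg_right (by linarith only [hX']) hY
    have h4 : X' * Y = Y - (1 - X') * Y := by ring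
    rw [h4]
    linarith only [hX, hX', hN', hb, hN1, hYb, hXY, h3]

/-- the case `Y < 0` -/
lemma r_neg {X y X' Y' N N' b q : ℝ} (hX : 0 < X) (hX' : 36 / 100 + 53 / 100 * b ≤ X')
    (hy : 0 < y) (hN0 : N ^ 2 = X ^ 2 + y ^ 2) (hN' : N' ≤ 151 / 100 * X')
    (hη : -(14 / 10) ≤ Y') (hS : -(188 / 1000) ≤ X ^ 2 - y ^ 2) (hD : 2 * X * y = b - q)
    (hq : 0 ≤ q) (hb0 : 0 ≤ b) (hb : b ≤ 146 / 100) :
    N + N' < -b + (X * Y' + X' * (-y)) + 4 * (X + X') := by
  have hy1 : y ≤ 63 / 100 + 74 / 100 * X := by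
    rcases le_total (12 / 10) X with h | h
    · have := mul_nonneg (sub_nonneg.mpr h) hy.le
      nlinarith only [hy, hD, hq, hb, h, this]
    · apply le_of_sq_le_sq _ (by positivity)
      have := mul_nonneg hX.le (sub_nonneg.mpr h)
      nlinarith only [hX, hS, this]
  have hy2 : y ≤ 2 := by
    rcases le_total (12 / 10) X with h | h
    · have := mul_nonneg (sub_nonneg.mpr h) hy.le
      nlinarith only [hy, hD, hq, hb, this]
    · linarith only [hy1, h]
  have hN1 : N ≤ X + y := by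
    apply le_of_sq_le_sq _ (by positivity)
    have := mul_pos hX hy
    nlinarith only [hN0, this]
  have hXY : X * (-(14 / 10)) ≤ X * Y' := mul_le_mul_of_nonneg_left hη hX.le
  have h5 : (36 / 100 + 53 / 100 * b) * (249 / 100 - y) ≤ X' * (249 / 100 - y) :=
    mul_le_mul_of_nonneg_right hX' (by linarith only [hy2])
  have h6 : y * (136 / 100 + 53 / 100 * b) ≤
      (63 / 100 + 74 / 100 * X) * (136 / 100 + 53 / 100 * b) :=
    mul_le_mul_of_nonneg_right hy1 (by linarith only [hb0])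
  have h7 : X * b ≤ X * (146 / 100) := mul_le_mul_of_nonneg_left hb hX.le
  linarith only [hX, hN', hb, hN1, hXY, h5, h6, h7]

/-- `‖R‖ + ‖R'‖ < - Im E` -/
lemma as_E {w k k' : ℂ} (hw : Complex.cos w ∈ Poly (vt .t3as))
    (hk : starRingEnd ℂ k ∈ Poly pA) (hk' : k' ∈ Poly pS) (hR : 0 < (RR w k).re)
    (hR' : 0 < (RR w k').re) :
    ‖RR w k‖ + ‖RR w k'‖ < -(3 - Complex.tan w ^ 2 - RR w k * RR w k' -
        4 * I * (RR w k + RR w k')).im := by
  have hc := cos_ne_of_n (own_n hw)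
  obtain ⟨e1, e2⟩ := RR_a (k := k) hc
  obtain ⟨e3, e4⟩ := RR_s (k := k') hc
  have a1 := as_1 hw
  have a2 := as_2 hw
  have a3 := as_3 hw
  have a4 := as_4 hw
  have a5 := as_5 hw
  have a6 := as_6 hw
  have a8 := as_8 hw
  have a9 := own_y hw
  have b3 := pA_3 hk
  have b4 := pA_4 hk
  have b5 := pA_y hk
  have c1 := pS_1 hk'
  have c4 := pS_4 hk'
  have c5 := pS_5 hk'
  have c6 := pS_6 hk'
  have c7 := pS_y hk'
  have hT : (Complex.tan w ^ 2).im = -py (Complex.cos w) := by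
    rw [tan_sq_eq, sub_div, div_self (pow_ne_zero 2 hc), one_div, Complex.sub_im, inv_sq_im]
    simp
  have hE : -(3 - Complex.tan w ^ 2 - RR w k * RR w k' - 4 * I * (RR w k + RR w k')).im =
      -py (Complex.cos w) + ((RR w k).re * (RR w k').im + (RR w k').re * (RR w k).im) +
        4 * ((RR w k).re + (RR w k').re) := by
    simp only [Complex.sub_im, hT, Complex.mul_im, Complex.mul_re, Complex.add_re, Complex.add_im,
      Complex.I_re, Complex.I_im]
    norm_num
    ring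
  rw [hE]
  have n1 := norm_sq_re_im (RR w k)
  have n2 := norm_sq_re_im (RR w k')
  rw [sq_re] at e1 e3
  rw [sq_im] at e2 e4
  have hY' := r_Ynp hR' e4 a9 c7
  have hX2 := r_X2 e3 e4 c1
  have hXa := r_Xa hR' a1 hX2
  have hXb := r_Xb hR' a2 a3 a8 a9 hX2
  have hYlow := r_low hR' hY' (by rw [e3, e4]; linarith only [a1, a3, c4])
  have hN' := r_N hR' hY' hYlow n2
  have hη := r_eta hY' e3 e4 a2 a9 a5 c5 c6 c7
  rcases le_or_gt 0 (RR w k).im with hY | hY
  · exact r_pos hR hXa hY n1 hN' hη (by rw [e1]; linarith only [a3, b4]) a2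
  · have hqb : py (starRingEnd ℂ k) < py (Complex.cos w) := by
      have := mul_pos hR (neg_pos.mpr hY)
      nlinarith only [e2, this]
    have h := r_neg (q := py (starRingEnd ℂ k)) hR hXb (neg_pos.mpr hY)
      (by rw [n1]; ring) hN' hη (by rw [neg_sq, e1]; linarith only [a4, b3, hqb]) (by linarith only [e2]) b5 a9 a2
    rw [neg_neg] at h
    exact h

/-- three crossings, neighbours of both signs -/
theorem kap_as3 {w k k' : ℂ} (hw : Complex.cos w ∈ Poly (vt .t3as))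
    (hk : starRingEnd ℂ k ∈ Poly pA) (hk' : k' ∈ Poly pS) (hR : 0 < (RR w k).re)
    (hR' : 0 < (RR w k').re)
    (hring : ((3 : ℝ) : ℂ) * w - Real.pi + I * (QQ w k + QQ w k') = 0) :
    Kap2 3 w k k' := by
  have hc := cos_ne_of_n (own_n hw)
  have hk0 : k ≠ 0 := by
    rintro rfl
    have := n_pos (V := pA) (by decide) hk
    simp at this
  have hk0' : k' ≠ 0 := by
    rintro rfl
    have := n_pos (V := pS) (by decide) hk'
    simp at this
  have hT : Complex.tan w ≠ 0 := by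
    intro h0
    have h1 := tan_sq_eq w
    rw [h0] at h1
    have h2 : Complex.cos w ^ 2 = 1 := by
      have h3 : (1 - Complex.cos w ^ 2) / Complex.cos w ^ 2 = 0 := by rw [← h1]; norm_num
      have h4 := (div_eq_zero_iff.mp h3).resolve_right (pow_ne_zero 2 hc)
      linear_combination -h4
    have h5 : polyOK 0 1000 0 100 (vt .t3as) = true := by decide
    have h6 := poly_sound h5 hw
    have h7 : (Complex.cos w ^ 2).im = 0 := by rw [h2]; simp
    rw [sq_im] at h7
    simp only [quart, Int.cast_ofNat, Int.cast_zero] at h6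
    linarith only [h7, h6]
  have h3 := ring3 hc hk0 hk0' hT (by exact_mod_cast hring)
  have h4 := as_E hw hk hk' hR hR'
  have h5 : -(3 - Complex.tan w ^ 2 - RR w k * RR w k' - 4 * I * (RR w k + RR w k')).im ≤
      ‖3 - Complex.tan w ^ 2 - RR w k * RR w k' - 4 * I * (RR w k + RR w k')‖ :=
    (neg_le_abs _).trans (Complex.abs_im_le_norm _)
  set E := 3 - Complex.tan w ^ 2 - RR w k * RR w k' - 4 * I * (RR w k + RR w k') with hEd
  have hRn := RR_ne hR
  have hRn' := RR_ne hR'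
  have e1 : (((3 : ℝ) : ℂ) + I * (1 / (Complex.cos w ^ 2 * RR w k) +
      1 / (Complex.cos w ^ 2 * RR w k'))) * (RR w k * RR w k') = -(Complex.tan w ^ 2 * E) := by
    rw [← h3]
    push_cast
    field_simp
    ring
  have e2 := congrArg norm e1
  rw [norm_mul, norm_mul (RR w k), norm_neg, norm_mul (Complex.tan w ^ 2)] at e2
  have q1 : 0 < ‖RR w k‖ := norm_pos_iff.mpr hRn
  have q2 : 0 < ‖RR w k'‖ := norm_pos_iff.mpr hRn'
  have q3 : 0 < ‖Complex.tan w ^ 2‖ := norm_pos_iff.mpr (pow_ne_zero 2 hT)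
  unfold Kap2
  have e3 : ‖Complex.tan w ^ 2 / RR w k‖ + ‖Complex.tan w ^ 2 / RR w k'‖ =
      ‖Complex.tan w ^ 2‖ * (‖RR w k‖ + ‖RR w k'‖) / (‖RR w k‖ * ‖RR w k'‖) := by
    rw [norm_div, norm_div]
    field_simp
    ring
  rw [e3, div_lt_iff₀ (by positivity), e2]
  exact mul_lt_mul_of_pos_left (lt_of_lt_of_le h4 h5) q3

end Pool.Agent.Work.MP_b30479_gt.G2.KB
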