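import Pool.Agent.Work.MP_b30479_gt.G2.SKapAS
import Pool.Agent.Work.MP_b30479_gt.G2.SChain

/-!
# Diagonal dominance for all rings with at least three crossings
-/

namespace Pool.Agent.Work.MP_b30479_gt.G2.KB

open Complex

lemma frS_mem {K : Set ℂ} {k : ℂ} (h : k ∈ frS (-1) K) : starRingEnd ℂ k ∈ K := by
  rw [frS_neg] at h
  exact h

lemma typS_rtype {B : ℕ} (hB : 4 ≤ B) (na ns : ℕ) : typS (rtype B na ns) = true := by
  have h2 : ¬ B ≤ 2 := by omega
  have h3 : ¬ B = 3 := by omega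
  unfold rtype
  rw [if_neg h2, if_neg h3]
  split_ifs <;> rfl

/-- end ring, neighbour of opposite sign -/
theorem kap_end_a {B : ℕ} (hB : 3 ≤ B) {w k : ℂ} (hw : Complex.cos w ∈ Poly (vt (rtype B 1 0)))
    (hk : k ∈ frS (-1) (Poly pA)) (hR : 0 < (RR w k).re) : Kap1 B w k := by
  have hb : (3 : ℝ) ≤ B := by exact_mod_cast hB
  rcases Nat.lt_or_ge B 4 with h | h
  · have h3 : B = 3 := by omega
    subst h3
    exact kap_a (t := .t3ae) rfl hb hw (frS_mem hk) hR
  · exact kap_a (typSA (typS_rtype h 1 0)) hb hw (frS_mem hk) hR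

/-- end ring, neighbour of the same sign -/
theorem kap_end_s {B : ℕ} (hB : 3 ≤ B) {w k : ℂ} (hw : Complex.cos w ∈ Poly (vt (rtype B 0 1)))
    (hk : k ∈ Poly pS) (hR : 0 < (RR w k).re) : Kap1 B w k := by
  rcases Nat.lt_or_ge B 4 with h | h
  · have h3 : B = 3 := by omega
    subst h3
    exact kap_s3 (by norm_num) hw hk hR
  · have hb : (4 : ℝ) ≤ B := by exact_mod_cast h
    exact kap_s4 (typS_rtype h 0 1) hb hw hk hR

/-- two neighbours of opposite sign -/
theorem kap_int_aa {B : ℕ} (hB : 3 ≤ B) {w k k' : ℂ}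
    (hw : Complex.cos w ∈ Poly (vt (rtype B 2 0))) (hk : k ∈ frS (-1) (Poly pA))
    (hk' : k' ∈ frS (-1) (Poly pA)) (hR : 0 < (RR w k).re) (hR' : 0 < (RR w k').re) :
    Kap2 B w k k' := by
  have hb : (3 : ℝ) ≤ B := by exact_mod_cast hB
  rcases Nat.lt_or_ge B 4 with h | h
  · have h3 : B = 3 := by omega
    subst h3
    exact kap_aa (t := .t3aa) rfl hb hw (frS_mem hk) (frS_mem hk') hR hR'
  · exact kap_aa (typSA (typS_rtype h 2 0)) hb hw (frS_mem hk) (frS_mem hk') hR hR'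

/-- neighbours of both signs -/
theorem kap_int_as {B : ℕ} (hB : 3 ≤ B) {w k k' : ℂ}
    (hw : Complex.cos w ∈ Poly (vt (rtype B 1 1))) (hk : k ∈ frS (-1) (Poly pA))
    (hk' : k' ∈ Poly pS) (hR : 0 < (RR w k).re) (hR' : 0 < (RR w k').re)
    (hring : ((B : ℝ) : ℂ) * w - Real.pi + I * (QQ w k + QQ w k') = 0) :
    Kap2 B w k k' := by
  rcases Nat.lt_or_ge B 4 with h | h
  · have h3 : B = 3 := by omega
    subst h3
    have := kap_as3 hw (frS_mem hk) hk' hR hR' (by exact_mod_cast hring)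
    exact_mod_cast this
  · have hb : (4 : ℝ) ≤ B := by exact_mod_cast h
    exact kap_as4 (typS_rtype h 1 1) hb hw (frS_mem hk) hk' hR hR'

/-- two neighbours of the same sign -/
theorem kap_int_ss {B : ℕ} (hB : 3 ≤ B) {w k k' : ℂ}
    (hw : Complex.cos w ∈ Poly (vt (rtype B 0 2))) (hk : k ∈ Poly pS)
    (hk' : k' ∈ Poly pS) (hR : 0 < (RR w k).re) (hR' : 0 < (RR w k').re) :
    Kap2 B w k k' := by
  rcases Nat.lt_or_ge B 4 with h | h
  · have h3 : B = 3 := by omega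
    subst h3
    exact kap_ss3 (by norm_num) hw hk hk' hR hR'
  · have hb : (4 : ℝ) ≤ B := by exact_mod_cast h
    exact kap_ss4 (typS_rtype h 0 2) hb hw hk hk' hR hR'

end Pool.Agent.Work.MP_b30479_gt.G2.KB
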